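import Pool.Agent.Work.MP_82fd4a_nt.P.Dx

set_option autoImplicit false
set_option linter.all false
set_option maxRecDepth 100000

namespace Pool.Agent.Work.MP_82fd4a_nt.P.H
open Y Y.Tr

noncomputable def C64 : Tr := beta% (fun (c : Nat → Tr → Tr → Tr) (e : Tr) (z : Nat) (a b : Nat → Nat) =>
 (c (a (nat_lit 0x202021))
 (c (a (nat_lit 0x11f2caea06))
 (c (a (nat_lit 0xbbc8847a626))
 (c (a (nat_lit 0x13022000000002)) e e)
 (c (a (nat_lit 0x106888272788)) e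
 (c z e
 (c z e
 (c (a (nat_lit 0x64c69caf927)) e
 (c (a (nat_lit 0x7cdc28351a7)) e e))))))
 (c (a (nat_lit 0x1f80202005))
 (c (a (nat_lit 0x1131502a8be7)) e
 (c (a (nat_lit 0x11d310b42348)) e
 (c (a (nat_lit 0x1c76db44108)) e
 (c (a (nat_lit 0x643a6749328)) e
 (c (a (nat_lit 0x10652b4ee588)) e e)))))
 (c (a (nat_lit 0xe0604001))
 (c (b (nat_lit 0x64d966bbfe7)) e
 (c (b (nat_lit 0x8d4d85fe028)) e
 (c z e
 (c (a (nat_lit 0x3a23646008)) e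
 (c (a (nat_lit 0x1f05c0000008)) e e)))))
 (c (a (nat_lit 0x60804001))
 (c (b (nat_lit 0x9317fe66328)) e
 (c (a (nat_lit 0x112d8de620c9)) e
 (c (a (nat_lit 0x158c0f800007)) e
 (c (a (nat_lit 0x128000000007)) e e))))
 (c (a (nat_lit 0x2ed6a6))
 (c (a (nat_lit 0x1ad24a234008)) e
 (c (a (nat_lit 0x194a20000008)) e e))
 (c (a (nat_lit 0x203f5f24))
 (c (a (nat_lit 0x16e000000006)) e e)
 (c (a (nat_lit 0x971312cc6)) e
 (c (a (nat_lit 0x1afb1e5e45)) e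
 (c (a (nat_lit 0xa0b0c4)) e
 (c (a (nat_lit 0x1224244a1)) e
 (c (a (nat_lit 0x3eff00c4)) e
 (c (a (nat_lit 0x4060c581)) e
 (c (a (nat_lit 0x1f406004)) e
 (c (a (nat_lit 0x4c1e0a041)) e
 (c (a (nat_lit 0x1700200007)) e e)))))))))))))))
 (c (a (nat_lit 0x202021))
 (c (a (nat_lit 0xc0604001))
 (c (a (nat_lit 0x19fbb596c165)) e
 (c (a (nat_lit 0x125032cdcea7)) e
 (c (a (nat_lit 0x7a86df20528)) e
 (c (a (nat_lit 0xa4b9f2da687)) e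
 (c (a (nat_lit 0xfb3ea8b6007)) e e)))))
 (c (a (nat_lit 0x180a02001))
 (c (a (nat_lit 0x11348cd48467)) e
 (c (a (nat_lit 0x94a92416609)) e e))
 (c (a (nat_lit 0xe0406081))
 (c (a (nat_lit 0xcd664064028)) e
 (c (a (nat_lit 0x13cf62a0a009)) e
 (c (a (nat_lit 0x1bea60000007)) e e)))
 (c (a (nat_lit 0x61a24181))
 (c (a (nat_lit 0x114441600008)) e
 (c (a (nat_lit 0x1e0000000006)) e e))
 (c (a (nat_lit 0xc2bf24)) e
 (c (a (nat_lit 0x162c301a1)) e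
 (c (a (nat_lit 0xaeaf37b67)) e
 (c (a (nat_lit 0x30f8daa7)) e
 (c (a (nat_lit 0x60e11ca66)) e
 (c (a (nat_lit 0x1cdcb57565)) e
 (c (a (nat_lit 0x1bdfbfada5)) e
 (c (a (nat_lit 0xf36c07726)) e
 (c (a (nat_lit 0x1fa0282005)) e
 (c (a (nat_lit 0x40000001)) e e))))))))))))))
 (c (a (nat_lit 0x202021))
 (c (a (nat_lit 0x20203f23))
 (c (a (nat_lit 0x1eb8d8ea67e5)) e
 (c (a (nat_lit 0xa52e502c128)) e
 (c (a (nat_lit 0x11cf8200a008)) e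
 (c (a (nat_lit 0x135360000005)) e e))))
 (c (a (nat_lit 0x614161))
 (c (a (nat_lit 0x16a362404028)) e
 (c (a (nat_lit 0x18c982800007)) e
 (c (a (nat_lit 0x1b2000000005)) e e)))
 (c (a (nat_lit 0xaa8b0061))
 (c (a (nat_lit 0x1a8aa0000005)) e e)
 (c (a (nat_lit 0xd0f5240e1)) e
 (c (a (nat_lit 0x40203026)) e
 (c (a (nat_lit 0x371f3f27)) e
 (c (a (nat_lit 0xa727272a7)) e
 (c (a (nat_lit 0x16b6afec06)) e
 (c (a (nat_lit 0x1757002005)) e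
 (c (a (nat_lit 0x1120202025)) e
 (c (a (nat_lit 0x163e008044)) e
 (c (a (nat_lit 0xc1000001)) e e))))))))))))
 (c (a (nat_lit 0x202021))
 (c (a (nat_lit 0xc0e0a021))
 (c (a (nat_lit 0xdb001002004)) e
 (c (a (nat_lit 0x199100000003)) e e))
 (c (a (nat_lit 0x420b69e1))
 (c (a (nat_lit 0x110000000002)) e e)
 (c (a (nat_lit 0x2020fd46)) e
 (c (a (nat_lit 0x331f9fa7)) e
 (c (a (nat_lit 0x12765654c8)) e
 (c (a (nat_lit 0x1434342fa8)) e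
 (c (a (nat_lit 0x1f9f602005)) e
 (c (a (nat_lit 0x1140202025)) e
 (c (a (nat_lit 0x1e02031c5)) e
 (c (a (nat_lit 0x1d0f402005)) e
 (c (a (nat_lit 0x20000001)) e e)))))))))))
 (c (a (nat_lit 0x202021))
 (c (a (nat_lit 0x20609025)) e
 (c (a (nat_lit 0x4f57d7d67)) e
 (c (a (nat_lit 0x19ffffdb88)) e
 (c (a (nat_lit 0x10f0ee6a09)) e
 (c (a (nat_lit 0x1dddddd747)) e
 (c (a (nat_lit 0x1a78404024)) e
 (c (a (nat_lit 0x1100402025)) e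
 (c (a (nat_lit 0xce030abc6)) e
 (c (a (nat_lit 0x39200005)) e e)))))))))
 (c (a (nat_lit 0x202021))
 (c (a (nat_lit 0x1014141407)) e
 (c (a (nat_lit 0x1111110a28)) e
 (c (a (nat_lit 0x1a1a186d67)) e
 (c (a (nat_lit 0x15f6365b87)) e
 (c (a (nat_lit 0x1757c02026)) e
 (c (a (nat_lit 0x1a0032f805)) e
 (c (a (nat_lit 0x35a50005)) e
 (c (a (nat_lit 0x18a0000005)) e e))))))))
 (c (a (nat_lit 0x202021))
 (c (a (nat_lit 0x163635ee87)) e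
 (c (a (nat_lit 0x161e9e93a8)) e
 (c (a (nat_lit 0x1fdfc020e8)) e
 (c (a (nat_lit 0x1700202006)) e
 (c (a (nat_lit 0x3f6027c4)) e
 (c (a (nat_lit 0x20600001)) e e))))))
 (c (a (nat_lit 0x202021))
 (c (a (nat_lit 0x1575602028)) e
 (c (a (nat_lit 0xc1212001)) e
 (c (a (nat_lit 0x1127c02026)) e
 (c (a (nat_lit 0x40602001)) e
 (c (a (nat_lit 0x40000001)) e e)))))
 (c (a (nat_lit 0x202021))
 (c (a (nat_lit 0x1013496707)) e
 (c (a (nat_lit 0x1fa0402024)) e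
 (c (a (nat_lit 0x2e1600001)) e e)))
 (c (a (nat_lit 0x202021))
 (c (a (nat_lit 0x20202001)) e
 (c (a (nat_lit 0x20000001)) e e))
 (c (a (nat_lit 0x200001)) e
 (c (a (nat_lit 0x202001)) e
 (c (a (nat_lit 0x204021)) e
 (c (a (nat_lit 0x202021)) e
 (c (a (nat_lit 0xa021)) e
 (c (a (nat_lit 0x606001)) e
 (c (a (nat_lit 0xa04001)) e
 (c (a (nat_lit 0x402001)) e
 (c (a (nat_lit 0x402001)) e
 (c (a (nat_lit 0x404041)) e
 (c (a (nat_lit 0x4081)) e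
 (c (a (nat_lit 0x2001)) e e))))))))))))))))))))))) Tr.c Tr.e (nat_lit 0) C.cx C.cy
noncomputable def C65 : Tr := beta% (fun (c : Nat → Tr → Tr → Tr) (e : Tr) (z : Nat) (a b : Nat → Nat) =>
 (c (a (nat_lit 0x202021))
 (c (nat_lit 1)
 (c (a (nat_lit 0xe1e36163622))
 (c z e
 (c (a (nat_lit 0x16b94868608985))
 (c (a (nat_lit 0x181ca42000000006)) e e)
 (c (a (nat_lit 0x14c606065414a5)) e
 (c (a (nat_lit 0x108f341c797026)) e
 (c (a (nat_lit 0xa0037ebe686c7)) e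
 (c (a (nat_lit 0x1647850535e66)) e
 (c (a (nat_lit 0x3c0bf0112005)) e
 (c (a (nat_lit 0x1c206020000005)) e e))))))))
 (c (a (nat_lit 0x165636565643))
 (c (a (nat_lit 0x13c604a2a70026))
 (c (a (nat_lit 0x1983600000000007)) e e)
 (c (a (nat_lit 0x9a8e930a1a668)) e
 (c z e
 (c z e
 (c (a (nat_lit 0x6e0c09348d68)) e
 (c (a (nat_lit 0x33eef1000007)) e
 (c (a (nat_lit 0x1c006000000005)) e e)))))))
 (c (a (nat_lit 0x18f93958c502))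
 (c (a (nat_lit 0x14b19d11244027)) e e)
 (c (a (nat_lit 0xc4dd58ca226))
 (c (a (nat_lit 0x194a4927f4fb67)) e
 (c (a (nat_lit 0xf8a49f2bc09a8)) e e))
 (c (a (nat_lit 0xcd0b0d1cfe7))
 (c (a (nat_lit 0x98af21884c007)) e e)
 (c (a (nat_lit 0x159757575427)) e
 (c (a (nat_lit 0x1ab71712d2c6)) e
 (c (a (nat_lit 0xe0e0e1115c5)) e
 (c (a (nat_lit 0x5e5e62b76a6)) e
 (c (a (nat_lit 0x195d96bebea6)) e
 (c (a (nat_lit 0xc0a15f1c806)) e
 (c (a (nat_lit 0xeb82f646466)) e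
 (c (a (nat_lit 0x17b620202005)) e
 (c (a (nat_lit 0x160020000005)) e e))))))))))))))
 (c (a (nat_lit 0x20404021))
 (c (a (nat_lit 0x1bbc3c7cb182))
 (c (a (nat_lit 0xf6b4e6cb40066)) e
 (c (a (nat_lit 0x1494fd8e4d4348)) e
 (c z e
 (c z e
 (c (a (nat_lit 0x21a1750ca008)) e
 (c (a (nat_lit 0x988b7e0000007)) e e))))))
 (c (a (nat_lit 0xeaf760e4007))
 (c (a (nat_lit 0xab08bad627069)) e e)
 (c z e
 (c z e
 (c (a (nat_lit 0x10b4b10f6f28)) e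
 (c (a (nat_lit 0x18dc7b9bdf47)) e
 (c (a (nat_lit 0x98aaeb133c7)) e
 (c (a (nat_lit 0x10b8f87fff47)) e
 (c (a (nat_lit 0x1123ec500547)) e
 (c (a (nat_lit 0x1d4f37284b47)) e
 (c (a (nat_lit 0x1632c021e2a7)) e
 (c (a (nat_lit 0x1cc020200006)) e
 (c (a (nat_lit 0x8000000001)) e e)))))))))))))
 (c (a (nat_lit 0x20201f23))
 (c (a (nat_lit 0x13b5b854d007))
 (c (a (nat_lit 0x1b1553f1d1be87)) e e)
 (c z e
 (c z e
 (c z e
 (c (b (nat_lit 0x121ff7955ca7)) e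
 (c (a (nat_lit 0x9b604f9405)) e
 (c (a (nat_lit 0x9a07f8f4006)) e
 (c (a (nat_lit 0xd506f286207)) e
 (c (a (nat_lit 0xb2c8bf19108)) e
 (c (a (nat_lit 0x1ac52c194006)) e
 (c (a (nat_lit 0x25c0000001)) e e)))))))))))
 (c (a (nat_lit 0x15c7e5))
 (c (a (nat_lit 0xc4bb16dce07))
 (c (a (nat_lit 0x365e5b040006)) e
 (c (a (nat_lit 0xade2c00000008)) e e))
 (c (a (nat_lit 0xacd30ec1308))
 (c (a (nat_lit 0x1945e000000008)) e e)
 (c z e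
 (c z e
 (c (a (nat_lit 0xf693571a5c7)) e
 (c (b (nat_lit 0x9508c0dffe7)) e
 (c (b (nat_lit 0xc2ebcbfffe6)) e
 (c (a (nat_lit 0xcec350a0e68)) e
 (c (a (nat_lit 0xc354d000006)) e
 (c (a (nat_lit 0x4000000001)) e e))))))))))
 (c (a (nat_lit 0xb32121207))
 (c (a (nat_lit 0xcb06a9834c7)) e
 (c z e
 (c z e
 (c (a (nat_lit 0x10115027c7c8)) e
 (c (a (nat_lit 0x116c26884028)) e
 (c z e
 (c (a (nat_lit 0x181e791fc008)) e
 (c (a (nat_lit 0x10c0000005)) e e))))))))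
 (c (a (nat_lit 0x1899188fa7))
 (c (a (nat_lit 0x155bb7361247)) e
 (c (a (nat_lit 0x15b7d36e4d28)) e
 (c z e
 (c z e
 (c (b (nat_lit 0x124bdff28168)) e e)))))
 (c (a (nat_lit 0x1e3f75b5a5))
 (c (a (nat_lit 0x10ab05e50587)) e
 (c (b (nat_lit 0xabfeaa05407)) e
 (c (a (nat_lit 0x471a34f00a7)) e
 (c (a (nat_lit 0x970fc02a008)) e e))))
 (c (a (nat_lit 0x12c0202004))
 (c (a (nat_lit 0x21005afd66)) e
 (c (a (nat_lit 0xca43b918707)) e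
 (c (a (nat_lit 0xc5506200009)) e e)))
 (c (a (nat_lit 0x60202001))
 (c (a (nat_lit 0x1207e5ebc006)) e
 (c (a (nat_lit 0x15a060000007)) e e))
 (c (a (nat_lit 0x40200021))
 (c (a (nat_lit 0x1a8000000004)) e e)
 (c (a (nat_lit 0x2dd1a6)) e
 (c (a (nat_lit 0x2c341405)) e
 (c (a (nat_lit 0x8080a0e1)) e
 (c (a (nat_lit 0xe0e0c1)) e
 (c (a (nat_lit 0x13161633a5)) e
 (c (a (nat_lit 0xbf3a02026)) e
 (c (a (nat_lit 0x15a080c041)) e
 (c (a (nat_lit 0x1100202005)) e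
 (c (a (nat_lit 0x406001)) e
 (c (a (nat_lit 0x20000001)) e e))))))))))))))))))))
 (c (a (nat_lit 0x2001))
 (c (a (nat_lit 0x20203f23))
 (c (a (nat_lit 0x13133891c025))
 (c (a (nat_lit 0xd6f6e17650226)) e
 (c (a (nat_lit 0x1395114f475d48)) e
 (c z e
 (c (b (nat_lit 0x780bff489e9e8)) e
 (c (b (nat_lit 0x1ffffdf0200007)) e
 (c (a (nat_lit 0x5f6000000006)) e e))))))
 (c (a (nat_lit 0xc6e33100648))
 (c (a (nat_lit 0xc888dc7eeb289)) e e)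
 (c z e
 (c (a (nat_lit 0xdd3ef2f2828)) e
 (c (a (nat_lit 0x197d2fd0b4e7)) e
 (c (a (nat_lit 0x11abac0d1048)) e
 (c (a (nat_lit 0x2366f07f3e6)) e
 (c (a (nat_lit 0x83ad9e8005)) e
 (c (a (nat_lit 0x34127f18dc8)) e
 (c (a (nat_lit 0x1934902c067)) e
 (c (a (nat_lit 0x18f048872006)) e
 (c (a (nat_lit 0x10c020000005)) e e))))))))))))
 (c (a (nat_lit 0x203f7f84))
 (c (a (nat_lit 0xdd7d8d3ebc7))
 (c (a (nat_lit 0x64c8bac5298e8)) e e)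
 (c z e
 (c z e
 (c z e
 (c z e
 (c (a (nat_lit 0x136a14ad0007)) e
 (c (a (nat_lit 0x13551aec61a8)) e
 (c (b (nat_lit 0x29f6c4ffe8)) e
 (c (b (nat_lit 0xaef38dfeb28)) e
 (c (a (nat_lit 0xa182a200006)) e
 (c (a (nat_lit 0xe000000001)) e e)))))))))))
 (c (a (nat_lit 0x954343428)) e
 (c (a (nat_lit 0x1959592827))
 (c (a (nat_lit 0x96c8ef07308)) e
 (c (a (nat_lit 0x7d310cec027)) e
 (c z e
 (c z e
 (c z e
 (c (b (nat_lit 0x5485ff46589)) e e))))))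
 (c (a (nat_lit 0x1252402005))
 (c (a (nat_lit 0x15b04b2a0c27)) e
 (c (b (nat_lit 0x1df7ede71fe7)) e
 (c z e
 (c z e
 (c (b (nat_lit 0x47ff1c4a009)) e e)))))
 (c (a (nat_lit 0x11e9694986))
 (c (a (nat_lit 0x78609c5d427)) e
 (c z e
 (c (b (nat_lit 0x1b3a5ffb6da6)) e
 (c (a (nat_lit 0xad2c7800009)) e e))))
 (c (a (nat_lit 0x20a0e1))
 (c (b (nat_lit 0x87fff82027)) e
 (c (b (nat_lit 0x1fe97e2c2007)) e
 (c (a (nat_lit 0x14ca40000009)) e e)))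
 (c (a (nat_lit 0xc06101))
 (c (a (nat_lit 0x9706aa00006)) e
 (c (a (nat_lit 0x1ba000000006)) e e))
 (c (a (nat_lit 0x2c7426)) e
 (c (a (nat_lit 0x1e10161)) e
 (c (a (nat_lit 0x16403a241)) e
 (c (a (nat_lit 0x1c18181)) e
 (c (a (nat_lit 0xc1a20001)) e
 (c (a (nat_lit 0x11f8e04026)) e
 (c (a (nat_lit 0x3f802024)) e
 (c (a (nat_lit 0x261408081)) e
 (c (a (nat_lit 0x1ec0202186)) e
 (c (a (nat_lit 0x40e00001)) e e))))))))))))))))))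
 (c (a (nat_lit 0x202021))
 (c (a (nat_lit 0x411f1f1e6))
 (c (a (nat_lit 0x7d211cf70e6))
 (c (a (nat_lit 0xc0e69379738e6)) e
 (c (a (nat_lit 0xc47d3b20bc008)) e e))
 (c z e
 (c z e
 (c z e
 (c (a (nat_lit 0x1b9a92cd8a26)) e
 (c (a (nat_lit 0x163911a66787)) e
 (c (a (nat_lit 0xd8e4bad1147)) e
 (c (a (nat_lit 0x28c4cc2d7a8)) e
 (c (a (nat_lit 0xc1ec8f2c007)) e
 (c (a (nat_lit 0x1049c0000006)) e e))))))))))
 (c z e
 (c (a (nat_lit 0x12ff802025)) e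
 (c (a (nat_lit 0x1260202025))
 (c (a (nat_lit 0x181c9b7f4006)) e
 (c (b (nat_lit 0x2c7d0301fe8)) e
 (c z e
 (c (b (nat_lit 0x183ffff97187)) e
 (c (a (nat_lit 0x14d7ea000008)) e e)))))
 (c (a (nat_lit 0x200606001))
 (c (b (nat_lit 0x2a55bff187)) e
 (c (b (nat_lit 0x4407ffba0c8)) e
 (c (b (nat_lit 0x51ffb08c008)) e
 (c (a (nat_lit 0x12a7c0000008)) e e))))
 (c (a (nat_lit 0x6000a1))
 (c (b (nat_lit 0x1ff15b25e027)) e
 (c (a (nat_lit 0x10b049e00008)) e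
 (c (a (nat_lit 0x1f4000000007)) e e)))
 (c (a (nat_lit 0x2e7646))
 (c (a (nat_lit 0x158a60000007)) e e)
 (c (a (nat_lit 0x10bebea6)) e
 (c (a (nat_lit 0x59bdbf986)) e
 (c (a (nat_lit 0x22844201)) e
 (c (a (nat_lit 0xa5e68001)) e
 (c (a (nat_lit 0x40a0e1a1)) e
 (c (a (nat_lit 0x3d002024)) e
 (c (a (nat_lit 0x3f002004)) e
 (c (a (nat_lit 0x40410041)) e
 (c (a (nat_lit 0x1760202007)) e
 (c (a (nat_lit 0x1d60000006)) e e)))))))))))))))))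
 C64)))) Tr.c Tr.e (nat_lit 0) C.cx C.cy
noncomputable def C66 : Tr := beta% (fun (c : Nat → Tr → Tr → Tr) (e : Tr) (z : Nat) (a b : Nat → Nat) =>
 (c (a (nat_lit 0x202021))
 (c (a (nat_lit 0x11d1d1c507))
 (c (a (nat_lit 0xe2ff3b18c27)) e
 (c (a (nat_lit 0x11db8fcdafc7)) e
 (c z e
 (c z e
 (c (a (nat_lit 0xd6f1bc5e266)) e
 (c (a (nat_lit 0x60948e8d948)) e e))))))
 (c (a (nat_lit 0x12df802005))
 (c (a (nat_lit 0x148a4e886ba7)) e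
 (c (a (nat_lit 0x889072c9108)) e
 (c (b (nat_lit 0x1fffff134da6)) e
 (c (a (nat_lit 0x5a8a2e09a29)) e
 (c (a (nat_lit 0x4a405f50369)) e e)))))
 (c (a (nat_lit 0x1240202005))
 (c (a (nat_lit 0x226d1322227)) e
 (c (a (nat_lit 0x73114cdfac8)) e
 (c (b (nat_lit 0x5865ff76049)) e
 (c (b (nat_lit 0x5fff94321c9)) e
 (c (a (nat_lit 0x91124400009)) e e)))))
 (c (a (nat_lit 0x180e0c021))
 (c (b (nat_lit 0xcb1e5555fe7)) e
 (c (b (nat_lit 0x4c6d23fe029)) e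
 (c (a (nat_lit 0x1795e5858008)) e
 (c (a (nat_lit 0x1c03a0000008)) e e))))
 (c (a (nat_lit 0x804061))
 (c (a (nat_lit 0x1d083226029)) e
 (c (a (nat_lit 0x19e4e4e00009)) e
 (c (a (nat_lit 0x17c000000007)) e e)))
 (c (a (nat_lit 0x202e35c6))
 (c (a (nat_lit 0x140560000007)) e e)
 (c (a (nat_lit 0x30b87866)) e
 (c z e
 (c (a (nat_lit 0xf8f8ff0a5)) e
 (c (a (nat_lit 0x59f404024)) e
 (c (a (nat_lit 0x321202c5)) e
 (c (a (nat_lit 0x806001)) e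
 (c (a (nat_lit 0xc0612061)) e
 (c (a (nat_lit 0x405a44)) e
 (c (a (nat_lit 0xe240a001)) e
 (c (a (nat_lit 0xc0000001)) e e))))))))))))))))
 (c (a (nat_lit 0x202021))
 (c (a (nat_lit 0x1f80202004))
 (c (a (nat_lit 0x60e93d418c5)) e
 (c (a (nat_lit 0x8ed52718607)) e
 (c (a (nat_lit 0x668c8a39d08)) e
 (c (a (nat_lit 0x7c86478a368)) e
 (c (a (nat_lit 0x825f563e028)) e
 (c (a (nat_lit 0x332e5a00008)) e e))))))
 (c (a (nat_lit 0x120604001))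
 (c (a (nat_lit 0x6898b461368)) e
 (c (a (nat_lit 0x909c63d4029)) e
 (c (a (nat_lit 0x9067a05e089)) e
 (c (a (nat_lit 0x57ac420c009)) e
 (c (a (nat_lit 0x18c460000009)) e e)))))
 (c (a (nat_lit 0xe0c02001))
 (c (a (nat_lit 0x46311602029)) e
 (c (a (nat_lit 0x57785220009)) e
 (c (a (nat_lit 0x108222000009)) e
 (c (a (nat_lit 0x136000000006)) e e))))
 (c (a (nat_lit 0x2021b145))
 (c (a (nat_lit 0x1e0b6721c008)) e
 (c (a (nat_lit 0x1fe9a0000007)) e e))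
 (c (a (nat_lit 0x4bb044))
 (c (a (nat_lit 0x170000000005)) e e)
 (c (a (nat_lit 0x26b0ea46)) e
 (c z e
 (c (a (nat_lit 0x3c7d9d86)) e
 (c (a (nat_lit 0xf2fcfd366)) e
 (c (a (nat_lit 0x1f1efc4e45)) e
 (c (a (nat_lit 0x1279cc32c5)) e
 (c (a (nat_lit 0x1151402025)) e
 (c (a (nat_lit 0xa3c342c1)) e
 (c (a (nat_lit 0x1720200005)) e e))))))))))))))
 (c (nat_lit 1)
 (c (a (nat_lit 0x40404001))
 (c (a (nat_lit 0xd30afcbc2e6)) e
 (c (a (nat_lit 0xb64b8a66028)) e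
 (c (a (nat_lit 0x1b106c06009)) e
 (c (a (nat_lit 0x1244e0400009)) e
 (c (a (nat_lit 0x10e000000007)) e e)))))
 (c (a (nat_lit 0x60403a22))
 (c (a (nat_lit 0x214c2216069)) e
 (c (a (nat_lit 0x108621c0600a)) e
 (c (a (nat_lit 0x16c7a0000007)) e e)))
 (c (a (nat_lit 0xa28161))
 (c (a (nat_lit 0x1e0aa3600007)) e
 (c (a (nat_lit 0x192000000006)) e e))
 (c (a (nat_lit 0x238925e1)) e
 (c (a (nat_lit 0x183817fba4)) e
 (c (a (nat_lit 0xb7bdc7c67)) e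
 (c (a (nat_lit 0x1414b4b4a7)) e
 (c (a (nat_lit 0x19190e4bc6)) e
 (c (a (nat_lit 0x123226a686)) e
 (c (a (nat_lit 0x1260a02005)) e
 (c (a (nat_lit 0x1220605584)) e
 (c (a (nat_lit 0x17a0202005)) e
 (c (a (nat_lit 0x20000001)) e e)))))))))))))
 (c (a (nat_lit 0x202021))
 (c (a (nat_lit 0x2026180e1))
 (c (a (nat_lit 0x1601e2c04027)) e
 (c (b (nat_lit 0x1ff9e6400005)) e
 (c (a (nat_lit 0x102000000004)) e e)))
 (c (a (nat_lit 0x12aaaed81))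
 (c (a (nat_lit 0x1026a0000006)) e e)
 (c (a (nat_lit 0x304357743)) e
 (c (a (nat_lit 0x38f95947)) e
 (c (a (nat_lit 0x18d9595947)) e
 (c (a (nat_lit 0x1adafcc1e5)) e
 (c (a (nat_lit 0x1a5a448385)) e
 (c (a (nat_lit 0x1c95002025)) e
 (c (a (nat_lit 0xea02036c5)) e
 (c (a (nat_lit 0x1960202025)) e
 (c (a (nat_lit 0x2d6a00005)) e e)))))))))))
 (c (a (nat_lit 0x202021))
 (c (a (nat_lit 0x17f7777d02))
 (c (a (nat_lit 0x1c4000000002)) e e)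
 (c (a (nat_lit 0x67c7dbda7)) e
 (c (a (nat_lit 0x1656967428)) e
 (c (a (nat_lit 0x1b5b3b3588)) e
 (c (a (nat_lit 0x1c10141)) e
 (c (a (nat_lit 0x1445a02025)) e
 (c (a (nat_lit 0xce0203a45)) e
 (c (a (nat_lit 0x7202b58e6)) e
 (c (a (nat_lit 0x4038e005)) e
 (c (a (nat_lit 0x20000001)) e e))))))))))
 (c (a (nat_lit 0x202021))
 (c (a (nat_lit 0x10b0f0f0e7)) e
 (c (a (nat_lit 0x11f1f1eb48)) e
 (c (a (nat_lit 0x19191750a7)) e
 (c (a (nat_lit 0x1fdffff386)) e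
 (c (a (nat_lit 0x203326)) e
 (c (a (nat_lit 0x2c02cb066)) e
 (c (a (nat_lit 0x269ba5c5)) e
 (c (a (nat_lit 0x1300200004)) e e))))))))
 (c (a (nat_lit 0x202001))
 (c (a (nat_lit 0x153534ee27)) e
 (c (a (nat_lit 0x1dbdddd747)) e
 (c (a (nat_lit 0x88886f489)) e
 (c (a (nat_lit 0x19a0312e66)) e
 (c (a (nat_lit 0x1f618063)) e
 (c (a (nat_lit 0x60c02001)) e
 (c (a (nat_lit 0x20000001)) e e)))))))
 (c (a (nat_lit 0x202021))
 (c (a (nat_lit 0x11b1ae6c08)) e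
 (c (a (nat_lit 0x10ea202029)) e
 (c (a (nat_lit 0x7ac02025)) e
 (c (a (nat_lit 0x40206041)) e
 (c (a (nat_lit 0x200001)) e e)))))
 (c (a (nat_lit 0x202021))
 (c (a (nat_lit 0xad0d32fa8)) e
 (c (a (nat_lit 0x1e20202024)) e
 (c (a (nat_lit 0x218001)) e
 (c (a (nat_lit 0x14a0000004)) e e))))
 (c (a (nat_lit 0x202021))
 (c (a (nat_lit 0x20202021)) e
 (c (a (nat_lit 0x20200001)) e e))
 (c (a (nat_lit 0x202021))
 (c (a (nat_lit 0x20000001)) e e)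
 (c (a (nat_lit 0x202021)) e
 (c (a (nat_lit 0x202021)) e
 (c (a (nat_lit 0x6041)) e
 (c (a (nat_lit 0x204021)) e
 (c (a (nat_lit 0x4001)) e
 (c (a (nat_lit 0x204041)) e
 (c (a (nat_lit 0x202041)) e
 (c (a (nat_lit 0x2001)) e
 (c (a (nat_lit 0x202001)) e
 (c (a (nat_lit 0xc06001)) e
 (c (a (nat_lit 0xa00021)) e
 (c (a (nat_lit 0x400001)) e e)))))))))))))))))))))))) Tr.c Tr.e (nat_lit 0) C.cx C.cy
noncomputable def C67 : Tr := beta% (fun (c : Nat → Tr → Tr → Tr) (e : Tr) (z : Nat) (a b : Nat → Nat) =>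
 (c (a (nat_lit 0x202021))
 (c (a (nat_lit 0x20202021))
 (c (a (nat_lit 0x20510002))
 (c (a (nat_lit 0x29c5a50c99a5))
 (c z e
 (c (a (nat_lit 0xe0ebada4b000008)) e
 (c (a (nat_lit 0x13f30ee000000008)) e e)))
 (c (a (nat_lit 0x16202e0314b08))
 (c (a (nat_lit 0x93214c780000009)) e e)
 (c (a (nat_lit 0x4030028ac56c8)) e
 (c (a (nat_lit 0x243ec6691b108)) e
 (c (a (nat_lit 0x9b207df33b068)) e
 (c z e
 (c z e
 (c (a (nat_lit 0x3994226200006)) e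
 (c (a (nat_lit 0xbba000000004)) e e)))))))))
 (c (a (nat_lit 0xd7571916025))
 (c (a (nat_lit 0x36d8d55731308))
 (c (a (nat_lit 0xaf904c000000008)) e e)
 (c (a (nat_lit 0x34959b71faa69)) e e))
 (c (a (nat_lit 0x112121414023))
 (c (a (nat_lit 0x7510e16c863c9)) e e)
 (c (b (nat_lit 0xb6dba6e5fe4))
 (c (a (nat_lit 0x11f194cf87e8c9)) e
 (c (a (nat_lit 0x15d7536623ac49)) e e))
 (c (a (nat_lit 0x13f95d5730c7))
 (c (a (nat_lit 0x11b3890988e248)) e e)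
 (c z e
 (c z e
 (c (a (nat_lit 0x122d2d07c8c8)) e
 (c (a (nat_lit 0x1404040d1a5)) e
 (c (a (nat_lit 0x1f1efe6ff4e6)) e
 (c (a (nat_lit 0xb8d91e824a7)) e
 (c (a (nat_lit 0x128dd7402786)) e
 (c (a (nat_lit 0x21007ddda4)) e
 (c (a (nat_lit 0x20160e00001)) e
 (c (a (nat_lit 0x2000000001)) e e)))))))))))))))
 (c (a (nat_lit 0x20404001))
 (c (a (nat_lit 0x10a1a221c122))
 (c (a (nat_lit 0x1b69e0e0f46))
 (c (a (nat_lit 0x1b00800000000006)) e e)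
 (c (a (nat_lit 0x70f139745e049)) e e))
 (c (a (nat_lit 0x3a626065e84))
 (c (a (nat_lit 0x14319cc5a2a089)) e e)
 (c z e
 (c z e
 (c z e
 (c z e
 (c (a (nat_lit 0x12ea4a4dcf47)) e
 (c (a (nat_lit 0x24cff227)) e
 (c (a (nat_lit 0x167f522a0dc7)) e
 (c (a (nat_lit 0x1bda6f09e308)) e
 (c (a (nat_lit 0xa68e7e431c9)) e
 (c (a (nat_lit 0x78b803a6007)) e
 (c (a (nat_lit 0x11c0a0000003)) e e)))))))))))))
 (c (a (nat_lit 0x20202021))
 (c (a (nat_lit 0x94b118a2707))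
 (c (a (nat_lit 0x133a30082d8027)) e e)
 (c z e
 (c z e
 (c z e
 (c z e
 (c z e
 (c (a (nat_lit 0xbab6e9c03e6)) e
 (c (a (nat_lit 0x1102e565a308)) e
 (c (a (nat_lit 0x744e8445189)) e
 (c (a (nat_lit 0x90420269269)) e
 (c (a (nat_lit 0x1b6040200006)) e
 (c (a (nat_lit 0x18000000001)) e e))))))))))))
 (c (a (nat_lit 0x20203a27))
 (c (a (nat_lit 0x1afe9d1b2028))
 (c (a (nat_lit 0x12cef5f87f6868)) e
 (c (a (nat_lit 0xb2b7269e0000a)) e e))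
 (c (b (nat_lit 0x1bf879603fe8))
 (c (a (nat_lit 0x390c740000009)) e e)
 (c z e
 (c z e
 (c (a (nat_lit 0x3228e44248)) e
 (c (a (nat_lit 0x1968f4287367)) e
 (c (a (nat_lit 0x12412412cf27)) e
 (c z e
 (c (b (nat_lit 0x1fe064964008)) e
 (c (a (nat_lit 0xa9660000002)) e e))))))))))
 (c (a (nat_lit 0x20302947))
 (c (b (nat_lit 0x1114bfdfffe6)) e
 (c z e
 (c z e
 (c (b (nat_lit 0x11af8ec8ffe8)) e
 (c (b (nat_lit 0xeb1aa3fe5c8)) e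
 (c z e
 (c z e
 (c (a (nat_lit 0x2ff8600007)) e
 (c (a (nat_lit 0x14a000000004)) e e)))))))))
 (c z e
 (c z e
 (c (a (nat_lit 0x1c9d98b7c7))
 (c (b (nat_lit 0xbbfea219648)) e
 (c (a (nat_lit 0x27709961168)) e
 (c (a (nat_lit 0x5aab185200a)) e
 (c (a (nat_lit 0xf1b40000009)) e e))))
 (c (a (nat_lit 0x15a0202025))
 (c (a (nat_lit 0x1091a6081106)) e
 (c (a (nat_lit 0x1613a0400008)) e
 (c (a (nat_lit 0x170000000008)) e e)))
 (c (a (nat_lit 0x208041))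
 (c (a (nat_lit 0x13c2c0000008)) e e)
 (c (a (nat_lit 0x80402001)) e
 (c (a (nat_lit 0x203004)) e
 (c (a (nat_lit 0x403a200e1)) e
 (c (a (nat_lit 0x1040404043)) e
 (c (a (nat_lit 0xe1c18001)) e
 (c (a (nat_lit 0x20205944)) e
 (c (a (nat_lit 0xa0e0c0c1)) e
 (c (a (nat_lit 0x4060e061)) e
 (c (a (nat_lit 0x1220202026)) e
 (c (a (nat_lit 0x240400001)) e e))))))))))))))))))))
 (c (a (nat_lit 0x202021))
 (c (a (nat_lit 0x20200001))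
 (c (a (nat_lit 0x14b595151501))
 (c (a (nat_lit 0x11490e0a605705)) e
 (c (a (nat_lit 0xff1be4989a5c7)) e e))
 (c (a (nat_lit 0x72731ee2567))
 (c (a (nat_lit 0x14732ecc64b128)) e e)
 (c z e
 (c z e
 (c z e
 (c z e
 (c (a (nat_lit 0xb0f57da5487)) e
 (c (a (nat_lit 0x8ccb4d2eda7)) e
 (c (a (nat_lit 0x144da6026fc7)) e
 (c (a (nat_lit 0x1a46aeaf2dc7)) e
 (c (a (nat_lit 0xd6472cf79a7)) e
 (c (a (nat_lit 0xb30e0200005)) e
 (c (a (nat_lit 0x10a000000005)) e e)))))))))))))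
 (c (a (nat_lit 0x20201f24))
 (c (a (nat_lit 0x147f7c998a67))
 (c (a (nat_lit 0xdabec27ae9408)) e e)
 (c z e
 (c z e
 (c z e
 (c z e
 (c (b (nat_lit 0x1fe97047a007)) e
 (c (a (nat_lit 0xf93f22343e7)) e
 (c (a (nat_lit 0x9a404150ac8)) e
 (c (a (nat_lit 0x4275ad67fe7)) e
 (c (a (nat_lit 0x60a315b2008)) e
 (c (a (nat_lit 0x156020000006)) e e)))))))))))
 (c (a (nat_lit 0x203a24c7)) e
 (c (a (nat_lit 0x2d0c78788)) e
 (c z e
 (c (a (nat_lit 0x1135402005)) e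
 (c (a (nat_lit 0x1460200005))
 (c (b (nat_lit 0x1ffff9ef41a7)) e
 (c (b (nat_lit 0x1fed104762a8)) e
 (c (a (nat_lit 0x1eda8a800008)) e e)))
 (c (a (nat_lit 0x608021))
 (c (a (nat_lit 0x171b6da46006)) e
 (c (a (nat_lit 0x1624e0000008)) e e))
 (c (a (nat_lit 0xa04101))
 (c (a (nat_lit 0x146000000006)) e e)
 (c (a (nat_lit 0x202dd1a7)) e
 (c (a (nat_lit 0x26365647)) e
 (c (a (nat_lit 0x161412001)) e
 (c (a (nat_lit 0x12261c0a1)) e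
 (c (a (nat_lit 0x606081)) e
 (c (a (nat_lit 0x3d1d2025)) e
 (c (a (nat_lit 0x1a060e1)) e
 (c (a (nat_lit 0x1a1c123a1)) e
 (c (a (nat_lit 0xa02001)) e
 (c (a (nat_lit 0x20000001)) e e)))))))))))))))))))
 (c (a (nat_lit 0x202021))
 (c (a (nat_lit 0x1f7f83))
 (c (a (nat_lit 0x15757fddf525))
 (c (a (nat_lit 0xaade52bd6b2c6)) e e)
 (c z e
 (c z e
 (c (a (nat_lit 0xf359b4e2ba7)) e
 (c (a (nat_lit 0x1036992a0cc6)) e
 (c (a (nat_lit 0x1710d14aa3a6)) e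
 (c (a (nat_lit 0x19345fadf765)) e
 (c (a (nat_lit 0x6028837348)) e
 (c (a (nat_lit 0x47bdefd447)) e
 (c (b (nat_lit 0x1fed55000007)) e
 (c (a (nat_lit 0x1c6000000005)) e e)))))))))))
 (c (a (nat_lit 0x91adadac7))
 (c z e
 (c z e
 (c z e
 (c z e
 (c z e
 (c z e
 (c (b (nat_lit 0x28bffff1a9)) e e)))))))
 (c z e
 (c (a (nat_lit 0x1252602025))
 (c (a (nat_lit 0xdca27ab70c7)) e
 (c (b (nat_lit 0x51fe909b428)) e
 (c z e
 (c (b (nat_lit 0x6eb1ff90008)) e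
 (c (a (nat_lit 0x88a73652009)) e e)))))
 (c (a (nat_lit 0x1120200005))
 (c (a (nat_lit 0x564eb185607)) e
 (c z e
 (c (a (nat_lit 0x296c54ea048)) e
 (c (a (nat_lit 0x1247c9c00009)) e e))))
 (c (a (nat_lit 0x40a1))
 (c (b (nat_lit 0x3ffe1720c6)) e
 (c (b (nat_lit 0x1ff231466008)) e
 (c (a (nat_lit 0x1dac00000008)) e e)))
 (c (a (nat_lit 0x802041))
 (c (a (nat_lit 0xc3b47400007)) e
 (c (a (nat_lit 0x1f4000000007)) e e))
 (c (a (nat_lit 0xd14e6)) e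
 (c (a (nat_lit 0x3f3f04)) e
 (c (b (nat_lit 0x1fe4a44001)) e
 (c (a (nat_lit 0x1a1c0a001)) e
 (c (a (nat_lit 0x3a3e06001)) e
 (c (a (nat_lit 0x3da02005)) e
 (c (a (nat_lit 0x20806141)) e
 (c (a (nat_lit 0x203545)) e
 (c (a (nat_lit 0x100c06041)) e
 (c (a (nat_lit 0x800001)) e e)))))))))))))))))
 C66)))) Tr.c Tr.e (nat_lit 0) C.cx C.cy
noncomputable def C68 : Tr := beta% (fun (c : Nat → Tr → Tr → Tr) (e : Tr) (z : Nat) (a b : Nat → Nat) =>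
 (c (a (nat_lit 0x202001))
 (c (a (nat_lit 0x16a040404042))
 (c (a (nat_lit 0x4120e1f3e221)) e
 (c (a (nat_lit 0x16141d321e003))
 (c (a (nat_lit 0x1395f4f38f783ae8)) e
 (c (a (nat_lit 0x1552749194f5fda9)) e e))
 (c (a (nat_lit 0xa10e88a83684))
 (c (a (nat_lit 0xa2a67cb6b774868)) e
 (c (a (nat_lit 0x13ee765e55400008)) e e))
 (c (a (nat_lit 0x36020847206))
 (c (a (nat_lit 0xbaabced80000007)) e e)
 (c (a (nat_lit 0x322a283f6f546)) e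
 (c (a (nat_lit 0x305680f10a246)) e
 (c (a (nat_lit 0x57153c90a65)) e
 (c (a (nat_lit 0xbafb04aeacae6)) e
 (c (a (nat_lit 0xbafa03360b884)) e
 (c (a (nat_lit 0xff2852348c005)) e
 (c (a (nat_lit 0x18a080a0000004)) e
 (c (a (nat_lit 0x1a000000000004)) e e))))))))))))
 (c (a (nat_lit 0x60604001))
 (c (a (nat_lit 0x808882c1ddc5))
 (c (a (nat_lit 0xc6c2b0a4ff3d029)) e
 (c (a (nat_lit 0xf0feed3b8f8f18a)) e e))
 (c (a (nat_lit 0x2603a26a9687))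
 (c (a (nat_lit 0x9a90bee72a8000a)) e e)
 (c z e
 (c z e
 (c z e
 (c z e
 (c z e
 (c (a (nat_lit 0xe427d6aeecb48)) e
 (c (a (nat_lit 0x70e164e00008)) e
 (c (a (nat_lit 0x11e02000000008)) e e))))))))))
 (c (a (nat_lit 0x804080c1))
 (c (a (nat_lit 0x10140c08dd7c7))
 (c (a (nat_lit 0x1e3ecf526400007)) e e)
 (c (a (nat_lit 0x2e282d054dc88)) e
 (c z e
 (c z e
 (c z e
 (c z e
 (c (a (nat_lit 0x231c09b6a6006)) e
 (c (a (nat_lit 0xee27100000006)) e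
 (c (a (nat_lit 0x4a00000000001)) e e)))))))))
 (c (a (nat_lit 0x12b292b2b2a4))
 (c (a (nat_lit 0x20ee2e9792c7)) e
 (c z e
 (c z e
 (c (a (nat_lit 0x1634ba4edc8ba7)) e
 (c (a (nat_lit 0x179b52d758e867)) e
 (c (a (nat_lit 0x19091529c00007)) e
 (c (a (nat_lit 0x15790000000006)) e e)))))))
 (c (a (nat_lit 0x17f7f7f7f486))
 (c z e
 (c z e
 (c (b (nat_lit 0x1626b21a7fe227)) e
 (c (b (nat_lit 0xc9386edfe006)) e
 (c (a (nat_lit 0x10196620000004)) e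
 (c (a (nat_lit 0x19400000000005)) e e))))))
 (c (a (nat_lit 0x126fafafcf26))
 (c (b (nat_lit 0xce1d10c9fe907)) e
 (c (a (nat_lit 0x70f9263892568)) e
 (c (a (nat_lit 0x1196adc8000007)) e e)))
 (c (a (nat_lit 0x15b5d9397d05))
 (c (a (nat_lit 0x10564847e3a007)) e
 (c (a (nat_lit 0x1cb82600000007)) e e))
 (c (a (nat_lit 0x101515151507))
 (c (a (nat_lit 0x1ca20000000006)) e e)
 (c (a (nat_lit 0x1334f3334a87)) e
 (c (a (nat_lit 0x150a6a404046)) e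
 (c (a (nat_lit 0x1d9d9d701085)) e
 (c (a (nat_lit 0x1595959655a5)) e
 (c (a (nat_lit 0x10f111713166)) e
 (c (a (nat_lit 0x1e021b403)) e
 (c (a (nat_lit 0x12040f37383)) e
 (c (a (nat_lit 0x20e0200001)) e
 (c (a (nat_lit 0x1a000000001)) e e)))))))))))))))))
 (c (a (nat_lit 0x60606081))
 (c (a (nat_lit 0x60404261))
 (c (a (nat_lit 0x4463248a98a6))
 (c (a (nat_lit 0xc2c2e14fa54fd88)) e
 (c (a (nat_lit 0xa2aef15f36c200a)) e e))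
 (c (a (nat_lit 0xe2e181e3b6a9))
 (c (a (nat_lit 0xa8e94d667c0000a)) e e)
 (c (a (nat_lit 0x1c181012db169)) e
 (c (a (nat_lit 0x181a56ec77569)) e
 (c (a (nat_lit 0x6474e4517f269)) e
 (c z e
 (c z e
 (c (a (nat_lit 0x316949c74009)) e
 (c (a (nat_lit 0x1184c760000008)) e
 (c (a (nat_lit 0x17200000000005)) e e))))))))))
 (c (a (nat_lit 0x20714003))
 (c (a (nat_lit 0x802042537189))
 (c (a (nat_lit 0x62eb9c660000008)) e e)
 (c (a (nat_lit 0x63666ed2b72a)) e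
 (c z e
 (c z e
 (c z e
 (c z e
 (c (a (nat_lit 0x16c5e985400009)) e
 (c (a (nat_lit 0xafa0000000007)) e e))))))))
 (c (a (nat_lit 0x10d0d0d0cdc8)) e
 (c (a (nat_lit 0x1a559595b6e6)) e
 (c (a (nat_lit 0x1131735536a7))
 (c (a (nat_lit 0xc1495c74624e8)) e e)
 (c z e
 (c z e
 (c (a (nat_lit 0x10106f0cea09)) e
 (c (a (nat_lit 0x1caaaaa020c6)) e
 (c (a (nat_lit 0x1c5c3c1483e6)) e
 (c (a (nat_lit 0x16d6b6356f28)) e
 (c (a (nat_lit 0x1edef89842c5)) e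
 (c (a (nat_lit 0x6a04036d6a5)) e
 (c (a (nat_lit 0x4120c0a001)) e
 (c (a (nat_lit 0x180a0000001)) e e)))))))))))))))
 (c (a (nat_lit 0x202021))
 (c (a (nat_lit 0x191298982c4))
 (c (a (nat_lit 0x10ad10cef8dc6)) e
 (c (a (nat_lit 0x8dea33270028)) e e))
 (c (a (nat_lit 0x1af59595d145))
 (c (a (nat_lit 0x149297f726e488)) e e)
 (c z e
 (c z e
 (c z e
 (c z e
 (c (a (nat_lit 0x121252523467)) e
 (c (a (nat_lit 0xaaacac815c6)) e
 (c (a (nat_lit 0xcecf065c027)) e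
 (c (a (nat_lit 0x7e9b188c7e8)) e
 (c (a (nat_lit 0xa6b91a8cda8)) e
 (c (a (nat_lit 0xa44a0359566)) e
 (c (a (nat_lit 0x120060200004)) e
 (c (nat_lit 1) e e))))))))))))))
 (c (a (nat_lit 0x20202021))
 (c (a (nat_lit 0xd0d2d0d12c5))
 (c (a (nat_lit 0x124dcfe3884547)) e
 (c z e
 (c z e
 (c z e
 (c (a (nat_lit 0x1a592840000004)) e e)))))
 (c z e
 (c z e
 (c (a (nat_lit 0x15ecac802026)) e
 (c (a (nat_lit 0x15d5cf555587)) e
 (c (a (nat_lit 0x13f3f73fd847)) e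
 (c (a (nat_lit 0xf14fc6cb046)) e
 (c (a (nat_lit 0x1174cf66a627)) e
 (c (b (nat_lit 0x13f080203fe7)) e
 (c (a (nat_lit 0x18f182d34a66)) e
 (c (a (nat_lit 0x121c201c001)) e
 (c (a (nat_lit 0x1a0a0000001)) e e))))))))))))
 (c (a (nat_lit 0x40202021))
 (c (a (nat_lit 0xcb775ae0b06))
 (c (b (nat_lit 0x877fffe9d106)) e
 (c (b (nat_lit 0x78e1ffb53a006)) e e))
 (c (a (nat_lit 0x10c76b0b01c6))
 (c (b (nat_lit 0x5ff934400005)) e e)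
 (c (b (nat_lit 0x404f3fff64)) e
 (c (a (nat_lit 0x17d7eaf85fc6)) e
 (c (a (nat_lit 0xe2b5b15ce67)) e
 (c (a (nat_lit 0x42c1b12c506)) e
 (c (a (nat_lit 0x1f528021b466)) e
 (c z e
 (c (b (nat_lit 0x3bfe54030c8)) e
 (c (a (nat_lit 0xdee1a00006)) e
 (c (a (nat_lit 0x17c000000005)) e e)))))))))))
 (c (a (nat_lit 0x202032a5))
 (c (a (nat_lit 0x84c0c0fb526)) e
 (c (a (nat_lit 0xa0bedb0a4a7)) e
 (c (a (nat_lit 0x16d87994a927)) e
 (c (a (nat_lit 0x10d5acc76fe7)) e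
 (c (b (nat_lit 0x86a91223fe7)) e
 (c (a (nat_lit 0x462ca6cf167)) e
 (c z e
 (c (a (nat_lit 0x62fac6001)) e
 (c (a (nat_lit 0xf9600000003)) e e)))))))))
 (c (a (nat_lit 0x149485))
 (c (b (nat_lit 0x1838391cffe5)) e
 (c (a (nat_lit 0x1453d3ae0b27)) e
 (c (a (nat_lit 0xd116ecfc448)) e
 (c (a (nat_lit 0x17f184e4c6e7)) e
 (c (a (nat_lit 0xa7a383dcc8)) e
 (c z e
 (c (a (nat_lit 0x747f6c00006)) e
 (c (a (nat_lit 0x1fa000000003)) e e))))))))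
 (c (a (nat_lit 0x930d0d068))
 (c (a (nat_lit 0xc91ee6e4a87)) e
 (c z e
 (c (b (nat_lit 0x1b973309bfe7)) e
 (c (b (nat_lit 0x14ab711ff0e7)) e e))))
 (c (a (nat_lit 0x10d0d0caa8))
 (c (a (nat_lit 0x1958b5756007)) e
 (c (a (nat_lit 0x116e6fa351e8)) e
 (c (a (nat_lit 0xb0f27598748)) e
 (c (a (nat_lit 0xf9eb9000008)) e e))))
 (c (a (nat_lit 0x1656604004))
 (c (a (nat_lit 0xc147b00c005)) e
 (c (a (nat_lit 0xf451e08006)) e
 (c (a (nat_lit 0x150bc0000008)) e e)))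
 (c (a (nat_lit 0x1a60202024))
 (c (a (nat_lit 0x132ec5a00006)) e
 (c (a (nat_lit 0x1a2000000007)) e e))
 (c (a (nat_lit 0x20402021)) e
 (c (a (nat_lit 0x20602001)) e
 (c (a (nat_lit 0x402020c1)) e
 (c (a (nat_lit 0xa0816021)) e
 (c (a (nat_lit 0x16604040e3)) e
 (c (a (nat_lit 0x1202001)) e
 (c (a (nat_lit 0x60403824)) e
 (c (a (nat_lit 0xa0604021)) e
 (c (a (nat_lit 0x1300202005)) e
 (c (a (nat_lit 0x240602001)) e
 (c (a (nat_lit 0x80000001)) e e))))))))))))))))))))))) Tr.c Tr.e (nat_lit 0) C.cx C.cy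
noncomputable def C69 : Tr := beta% (fun (c : Nat → Tr → Tr → Tr) (e : Tr) (z : Nat) (a b : Nat → Nat) =>
 (c (a (nat_lit 0x202021))
 (c (a (nat_lit 0xa9cbcbca6))
 (c (a (nat_lit 0x7f49dfbfbe6)) e e)
 (c (a (nat_lit 0x1adadac026))
 (c (a (nat_lit 0x1764e4e3e2a8)) e
 (c (a (nat_lit 0x6712dec9c07)) e
 (c (a (nat_lit 0x751343e18a7)) e
 (c (a (nat_lit 0x970de10cd27)) e
 (c (a (nat_lit 0x2504d4b6948)) e e)))))
 (c (a (nat_lit 0x1292804005))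
 (c (a (nat_lit 0x84ecc8f96e7)) e
 (c (a (nat_lit 0x566ca4ad6c9)) e
 (c (a (nat_lit 0xb952f111a88)) e e)))
 (c (a (nat_lit 0x1140202005))
 (c (a (nat_lit 0x789cb9be848)) e
 (c z e
 (c (b (nat_lit 0x7b1ffe82029)) e
 (c (a (nat_lit 0x1aac08000009)) e e))))
 (c (a (nat_lit 0x40a04061))
 (c (a (nat_lit 0x287d1d10048)) e
 (c (a (nat_lit 0xc56eec2e008)) e
 (c (a (nat_lit 0x12c6e0000009)) e e)))
 (c (a (nat_lit 0x808040a1))
 (c (a (nat_lit 0x1cf786000006)) e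
 (c (a (nat_lit 0x114000000007)) e e))
 (c (a (nat_lit 0x2e15c6)) e
 (c (a (nat_lit 0x3f5f64)) e
 (c z e
 (c (a (nat_lit 0x4120e2026)) e
 (c (a (nat_lit 0xad1604024)) e
 (c (a (nat_lit 0xc0e061)) e
 (c (a (nat_lit 0x1e1016081)) e
 (c (a (nat_lit 0x8060e181)) e
 (c (a (nat_lit 0x40412041)) e
 (c (a (nat_lit 0x40a00001)) e e))))))))))))))))
 (c (a (nat_lit 0x202021))
 (c (a (nat_lit 0x65f802004))
 (c (a (nat_lit 0xe71d84e7ba5)) e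
 (c (a (nat_lit 0x90f71717487)) e
 (c (a (nat_lit 0x8f2d3f2a067)) e
 (c (a (nat_lit 0x86a4a807968)) e
 (c (a (nat_lit 0x8ab24d5c748)) e
 (c (b (nat_lit 0x8fff5672008)) e e))))))
 (c (a (nat_lit 0x1260402005))
 (c (a (nat_lit 0xff094744b47)) e
 (c (a (nat_lit 0x8896a8272a9)) e
 (c (a (nat_lit 0x969e1f94869)) e
 (c (a (nat_lit 0xb635ae6a149)) e
 (c (a (nat_lit 0x352c6a00009)) e e)))))
 (c (a (nat_lit 0x1e0a08001))
 (c (a (nat_lit 0x44540508449)) e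
 (c (b (nat_lit 0x97ffd4b6029)) e
 (c (a (nat_lit 0x1d707a16009)) e
 (c (a (nat_lit 0x1847c0000009)) e e))))
 (c (a (nat_lit 0x8060c1))
 (c (a (nat_lit 0x13d4bc4c208)) e
 (c (a (nat_lit 0x180a01400009)) e
 (c (a (nat_lit 0x15a000000008)) e e)))
 (c (a (nat_lit 0x2021b145))
 (c (a (nat_lit 0x1a4480000006)) e e)
 (c (a (nat_lit 0x30b0bd86)) e
 (c z e
 (c (b (nat_lit 0x1ff0943446)) e
 (c (a (nat_lit 0x1075f3f3e6)) e
 (c (a (nat_lit 0xe71919526)) e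
 (c (a (nat_lit 0x19594fa4e5)) e
 (c (a (nat_lit 0xd74c02005)) e
 (c (a (nat_lit 0x7474031a5)) e
 (c (a (nat_lit 0x201422001)) e
 (c (a (nat_lit 0x280000001)) e e)))))))))))))))
 (c (nat_lit 1)
 (c (a (nat_lit 0x180e08001))
 (c (a (nat_lit 0xb6e0da83486)) e
 (c (a (nat_lit 0x13d4ca3b27e7)) e
 (c (a (nat_lit 0x96f7aae4328)) e
 (c (a (nat_lit 0x11022810009)) e
 (c (a (nat_lit 0x1fe940000007)) e e)))))
 (c (a (nat_lit 0x302614161))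
 (c (a (nat_lit 0x5435d47a169)) e
 (c (a (nat_lit 0x3f3cb01404a)) e
 (c (a (nat_lit 0x10c6c0c0000a)) e e)))
 (c (a (nat_lit 0x2020b045))
 (c (a (nat_lit 0x116cc401a009)) e
 (c (a (nat_lit 0x1be740000008)) e e))
 (c (a (nat_lit 0x7f5f24))
 (c (a (nat_lit 0x13e000000005)) e e)
 (c (a (nat_lit 0x16371426)) e
 (c z e
 (c (a (nat_lit 0xdf1b1d1a6)) e
 (c (a (nat_lit 0x12b2f27266)) e
 (c (a (nat_lit 0x13d3ca2dc6)) e
 (c (a (nat_lit 0x1cd6446505)) e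
 (c (a (nat_lit 0x10458022c6)) e
 (c (a (nat_lit 0x1f80406064)) e
 (c (a (nat_lit 0x13e00005)) e e)))))))))))))
 (c (nat_lit 1)
 (c (a (nat_lit 0x40203f63))
 (c (a (nat_lit 0x596e5418128)) e
 (c (a (nat_lit 0x156b8280c009)) e
 (c (a (nat_lit 0x11a2c0000008)) e e)))
 (c (a (nat_lit 0xa20261))
 (c (a (nat_lit 0x1b4c66200007)) e
 (c (a (nat_lit 0x17e000000006)) e e))
 (c (a (nat_lit 0xc0edce4)) e
 (c (a (nat_lit 0x79011f1e8)) e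
 (c z e
 (c (a (nat_lit 0x1092d2a043)) e
 (c (a (nat_lit 0x12120aeae6)) e
 (c (a (nat_lit 0x19b9c26025)) e
 (c (a (nat_lit 0x10a4c02606)) e
 (c (a (nat_lit 0xa202035e5)) e
 (c (a (nat_lit 0x33c005)) e
 (c (nat_lit 1) e e))))))))))))
 (c (a (nat_lit 0x200001))
 (c (a (nat_lit 0x5ce4e51c5))
 (c (a (nat_lit 0x1b0920000005)) e e)
 (c (a (nat_lit 0x63a1bfb87)) e
 (c (a (nat_lit 0x18795957c8)) e
 (c (a (nat_lit 0x18181811e8)) e
 (c (a (nat_lit 0x222a20081)) e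
 (c (a (nat_lit 0x190fa1a025)) e
 (c (a (nat_lit 0x18aee02725)) e
 (c (a (nat_lit 0xba02cb0a5)) e
 (c (a (nat_lit 0x2ada0ac5)) e
 (c (a (nat_lit 0x400001)) e e))))))))))
 (c (a (nat_lit 0x202021))
 (c (a (nat_lit 0x1b5d1cbca6)) e
 (c (a (nat_lit 0x1fbf9f96c7)) e
 (c (a (nat_lit 0x1cdcd93926)) e
 (c (a (nat_lit 0x16f6f6eae5)) e
 (c (a (nat_lit 0x10e0202006)) e
 (c (a (nat_lit 0xae02031c5)) e
 (c (a (nat_lit 0x327285)) e
 (c (a (nat_lit 0x1604001)) e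
 (c (a (nat_lit 0x1e0000001)) e e)))))))))
 (c (nat_lit 1)
 (c (a (nat_lit 0x12b2b26d47)) e
 (c (a (nat_lit 0x1191716026)) e
 (c (a (nat_lit 0x1ab9615864)) e
 (c (a (nat_lit 0x580201aa7)) e
 (c (a (nat_lit 0x3dd93186)) e
 (c (a (nat_lit 0x1a20204003)) e
 (c (a (nat_lit 0x120c00001)) e e)))))))
 (c (a (nat_lit 0x202021))
 (c (a (nat_lit 0x40a061)) e
 (c (a (nat_lit 0x1140402025)) e
 (c (a (nat_lit 0x19d9c026)) e
 (c (a (nat_lit 0x400001)) e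
 (c (a (nat_lit 0x80404001)) e
 (c (a (nat_lit 0x20000001)) e e))))))
 (c (a (nat_lit 0x202021))
 (c (a (nat_lit 0x1073938d28)) e
 (c (a (nat_lit 0x614ac1)) e
 (c (a (nat_lit 0x215ee1)) e
 (c (a (nat_lit 0x60200001)) e e))))
 (c (a (nat_lit 0x202021))
 (c (a (nat_lit 0x20202021)) e
 (c (a (nat_lit 0x20202001)) e
 (c (a (nat_lit 0x20000001)) e e)))
 (c (a (nat_lit 0x202021))
 (c (a (nat_lit 0x20200001)) e e)
 (c (a (nat_lit 0x202021)) e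
 (c (a (nat_lit 0x200001)) e
 (c (a (nat_lit 0x202001)) e
 (c (a (nat_lit 0x6021)) e
 (c (a (nat_lit 0x206021)) e
 (c (a (nat_lit 0x202001)) e
 (c (a (nat_lit 0x202001)) e
 (c (nat_lit 1) e
 (c (a (nat_lit 0x2001)) e
 (c (a (nat_lit 0x4021)) e
 (c (a (nat_lit 0x4101)) e
 (c (a (nat_lit 0x4001)) e e)))))))))))))))))))))))) Tr.c Tr.e (nat_lit 0) C.cx C.cy
noncomputable def C70 : Tr := beta% (fun (c : Nat → Tr → Tr → Tr) (e : Tr) (z : Nat) (a b : Nat → Nat) =>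
 (c (a (nat_lit 0x202021))
 (c (a (nat_lit 0x20202021))
 (c (a (nat_lit 0x2040a0e1))
 (c (a (nat_lit 0x2243444491c6))
 (c z e
 (c (a (nat_lit 0xf902fdf5a916008)) e e))
 (c (a (nat_lit 0x20a14c50e8))
 (c (a (nat_lit 0xf0f9bba89a00009)) e e)
 (c (a (nat_lit 0x2383a8687508)) e
 (c z e
 (c z e
 (c z e
 (c z e
 (c (a (nat_lit 0x991cb24a18007)) e
 (c (a (nat_lit 0x19e31900000005)) e e)))))))))
 (c (a (nat_lit 0xe27ae001))
 (c (a (nat_lit 0x2c6c8e7b7aa8))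
 (c (a (nat_lit 0xe9473a5e0000009)) e e)
 (c (a (nat_lit 0x1644528abf1aa)) e
 (c z e
 (c z e
 (c z e
 (c z e
 (c z e
 (c (a (nat_lit 0x956000000007)) e e))))))))
 (c (a (nat_lit 0x10b06fb3c3))
 (c (a (nat_lit 0xbcd53d2338c69)) e e)
 (c z e
 (c z e
 (c z e
 (c z e
 (c (a (nat_lit 0x103050504928)) e
 (c (a (nat_lit 0x12d0d0c646e7)) e
 (c (a (nat_lit 0x11b1b1aa6527)) e
 (c (a (nat_lit 0x10d0d474cc08)) e
 (c (a (nat_lit 0x11f332906c88)) e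
 (c (a (nat_lit 0x26020403ac6)) e
 (c (a (nat_lit 0x405ac005)) e
 (c (a (nat_lit 0x24080000001)) e e)))))))))))))))
 (c (a (nat_lit 0x40404021))
 (c (a (nat_lit 0x34844a2e221))
 (c (a (nat_lit 0x2848732ed127))
 (c (a (nat_lit 0x1356654000000007)) e e)
 (c (a (nat_lit 0x45532f5bb1c9)) e e))
 (c (a (nat_lit 0xbab7349e4))
 (c (a (nat_lit 0x9b732fe702f49)) e e)
 (c z e
 (c z e
 (c z e
 (c z e
 (c (a (nat_lit 0xf51cfac69c9)) e
 (c (a (nat_lit 0x178deb604b27)) e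
 (c (a (nat_lit 0x1897396d8968)) e
 (c (b (nat_lit 0x1637f5bfe108)) e
 (c (a (nat_lit 0x1bd791c07167)) e
 (c (a (nat_lit 0x2021d2f2e7)) e
 (c (a (nat_lit 0x1a4361000002)) e
 (c (nat_lit 1) e e))))))))))))))
 (c (a (nat_lit 0x80604001))
 (c (a (nat_lit 0xaaaf14aaba7))
 (c (a (nat_lit 0x1aa6f18ecd6187)) e e)
 (c z e
 (c z e
 (c z e
 (c z e
 (c (a (nat_lit 0x105e31781227)) e
 (c (a (nat_lit 0x1218132cec68)) e
 (c z e
 (c z e
 (c (a (nat_lit 0x1c79a4d672e7)) e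
 (c (a (nat_lit 0x37c746e005)) e
 (c (a (nat_lit 0x620000001)) e e))))))))))))
 (c (a (nat_lit 0x40402021))
 (c z e
 (c (b (nat_lit 0x1ff2b6709fe7))
 (c (b (nat_lit 0x1ffff786400007)) e e)
 (c z e
 (c z e
 (c z e
 (c z e
 (c z e
 (c z e
 (c z e
 (c (b (nat_lit 0x1ff301200004)) e
 (c (a (nat_lit 0xc4000000001)) e e)))))))))))
 (c (a (nat_lit 0x202033e6))
 (c (b (nat_lit 0x1356f3541fe6))
 (c (a (nat_lit 0x11e0a2e0000004)) e e)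
 (c (b (nat_lit 0xd50133fffe7)) e
 (c z e
 (c z e
 (c z e
 (c z e
 (c z e
 (c (b (nat_lit 0x1fe06a15c006)) e
 (c (a (nat_lit 0x1c7060000006)) e e)))))))))
 (c (a (nat_lit 0x2035d686)) e
 (c z e
 (c (a (nat_lit 0x18d8d8d0e8))
 (c (a (nat_lit 0x139133d04768)) e
 (c (a (nat_lit 0x143d1e0f1948)) e
 (c (a (nat_lit 0xeb0115dabc9)) e
 (c (a (nat_lit 0xfa252600009)) e e))))
 (c (a (nat_lit 0x1c3c2e6e66))
 (c (a (nat_lit 0xab1280043c8)) e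
 (c (a (nat_lit 0xad294c06007)) e
 (c (b (nat_lit 0x1ff020000007)) e e)))
 (c (a (nat_lit 0x1fa0202025))
 (c (a (nat_lit 0xf11a3200007)) e e)
 (c (a (nat_lit 0x60204081)) e
 (c (a (nat_lit 0x60608101)) e
 (c (a (nat_lit 0x60c1e1)) e
 (c (a (nat_lit 0xe1c001)) e
 (c (a (nat_lit 0x4200c2e1)) e
 (c (a (nat_lit 0x18161a001)) e
 (c (a (nat_lit 0xc2010061)) e
 (c (a (nat_lit 0xe120e101)) e
 (c (a (nat_lit 0xe0a140a1)) e
 (c (a (nat_lit 0x100a08001)) e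
 (c (a (nat_lit 0x20000001)) e e)))))))))))))))))))))
 (c (a (nat_lit 0x202021))
 (c (a (nat_lit 0x200001))
 (c (a (nat_lit 0x18181d35162))
 (c (a (nat_lit 0x484d4341751a5)) e
 (c (a (nat_lit 0x26a8cf3e92908)) e
 (c (a (nat_lit 0x70a0da8e5b528)) e e)))
 (c (a (nat_lit 0x4c552048585))
 (c (a (nat_lit 0x8e9d048068209)) e
 (c (a (nat_lit 0x1db12f0abdc3c8)) e e))
 (c (b (nat_lit 0x1fffeb6b52a4)) e
 (c z e
 (c z e
 (c z e
 (c (a (nat_lit 0xaf22aa7a6c8)) e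
 (c (a (nat_lit 0x110221866ac7)) e
 (c (a (nat_lit 0x1b1644818086)) e
 (c (a (nat_lit 0x1fdfa020e346)) e
 (c (a (nat_lit 0x7eb006092e7)) e
 (c (a (nat_lit 0x4044dec005)) e
 (c (a (nat_lit 0x60000001)) e e)))))))))))))
 (c (a (nat_lit 0x40604021))
 (c (a (nat_lit 0x8572f1110e6))
 (c (a (nat_lit 0xa11ac6c2562e7)) e
 (c (a (nat_lit 0x440c58075287)) e e))
 (c (a (nat_lit 0x9696df26007)) e
 (c z e
 (c z e
 (c z e
 (c (a (nat_lit 0x1298bcf4ae87)) e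
 (c (a (nat_lit 0x1d441075c3c6)) e
 (c (a (nat_lit 0xb4260403308)) e
 (c (a (nat_lit 0x86024a830c9)) e
 (c (a (nat_lit 0xfc3c32a9f08)) e
 (c (a (nat_lit 0x903600001)) e
 (c (a (nat_lit 0x4000000001)) e e))))))))))))
 (c (a (nat_lit 0x20201ac7))
 (c z e
 (c z e
 (c z e
 (c z e
 (c z e
 (c z e
 (c (a (nat_lit 0x800a3b61408)) e
 (c z e
 (c z e
 (c (a (nat_lit 0x462a0000001)) e e))))))))))
 (c (a (nat_lit 0x2030ef27))
 (c z e
 (c z e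
 (c z e
 (c z e
 (c z e
 (c z e
 (c z e
 (c z e
 (c (a (nat_lit 0x14a000000005)) e e)))))))))
 (c z e
 (c z e
 (c (a (nat_lit 0x1010edacc8))
 (c (a (nat_lit 0x8ab2c10aea8)) e
 (c (b (nat_lit 0x1ffff991d628)) e
 (c (a (nat_lit 0xa3271ea0009)) e e)))
 (c (a (nat_lit 0x1ca0202025))
 (c (a (nat_lit 0xc613d1a2c4)) e
 (c (a (nat_lit 0x15575200005)) e e))
 (c (a (nat_lit 0x80a101))
 (c (a (nat_lit 0x10a4e0000006)) e e)
 (c (a (nat_lit 0x6060a1)) e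
 (c (a (nat_lit 0x405c23)) e
 (c (a (nat_lit 0x1c12061)) e
 (c (a (nat_lit 0xa260a001)) e
 (c (a (nat_lit 0x40221c001)) e
 (c (a (nat_lit 0x40e063a1)) e
 (c (a (nat_lit 0x20a1c001)) e
 (c (a (nat_lit 0x1618001)) e
 (c (a (nat_lit 0xa0a04021)) e
 (c (a (nat_lit 0x200a00001)) e e)))))))))))))))))))
 (c (a (nat_lit 0x202021))
 (c (a (nat_lit 0x20203f43))
 (c (a (nat_lit 0x1b9bbcfca001))
 (c (a (nat_lit 0x2148a023fc45)) e
 (c (a (nat_lit 0x14346c6308ae8)) e e))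
 (c (b (nat_lit 0x10707f5fed06)) e
 (c z e
 (c z e
 (c (a (nat_lit 0xd37abece5a7)) e
 (c (a (nat_lit 0x1bfe1c147566)) e
 (c (a (nat_lit 0x19f5aa361d85)) e
 (c (a (nat_lit 0x46083567447)) e
 (c (a (nat_lit 0x63429ac927)) e
 (c (a (nat_lit 0x440ed66007)) e
 (c (a (nat_lit 0x1cd240000006)) e e)))))))))))
 (c (a (nat_lit 0x203b2467))
 (c (b (nat_lit 0x66b5ffd5887)) e
 (c z e
 (c z e
 (c z e
 (c z e
 (c (b (nat_lit 0x28271491fe6)) e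
 (c (a (nat_lit 0x20adcad169)) e e)))))))
 (c z e
 (c z e
 (c (a (nat_lit 0x8b0224026))
 (c z e
 (c (b (nat_lit 0x1fffe683d468)) e
 (c z e
 (c (a (nat_lit 0x76cb0abe009)) e e))))
 (c (a (nat_lit 0x1b00200025))
 (c (b (nat_lit 0x1fe6e27d1127)) e
 (c (a (nat_lit 0x404f51a2c8)) e
 (c (a (nat_lit 0xb172ec00008)) e e)))
 (c (a (nat_lit 0xa06080a1))
 (c (a (nat_lit 0x89016e56007)) e
 (c (a (nat_lit 0x100b00000008)) e e))
 (c (a (nat_lit 0x8060e1))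
 (c (a (nat_lit 0x10e000000006)) e e)
 (c (a (nat_lit 0x2039e6)) e
 (c (a (nat_lit 0x185c5c65)) e
 (c (a (nat_lit 0x50b0d424)) e
 (c (a (nat_lit 0x11c0a001)) e
 (c (a (nat_lit 0x3ae02aa5)) e
 (c (a (nat_lit 0x204001)) e
 (c (a (nat_lit 0x80c0c001)) e
 (c (a (nat_lit 0x1814100e1)) e
 (c (a (nat_lit 0x1300202006)) e
 (c (a (nat_lit 0x1600000003)) e e))))))))))))))))))
 C69)))) Tr.c Tr.e (nat_lit 0) C.cx C.cy
noncomputable def C71 : Tr := beta% (fun (c : Nat → Tr → Tr → Tr) (e : Tr) (z : Nat) (a b : Nat → Nat) =>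
 (c (a (nat_lit 0x20202021))
 (c (a (nat_lit 0x15958e8e8e86))
 (c (a (nat_lit 0x19616121224a24))
 (c (a (nat_lit 0x1cba36b87a355a46))
 (c z e
 (c (a (nat_lit 0x136a6000000000000a)) e e))
 (c (a (nat_lit 0x11b431b3110f4989)) e
 (c (a (nat_lit 0x10b1724f71cef1c9)) e
 (c (a (nat_lit 0xf706d510acef909)) e
 (c (a (nat_lit 0x14ec130e73b16008)) e
 (c (a (nat_lit 0x12ba364ba0000007)) e
 (c (a (nat_lit 0x150a600000000007)) e e)))))))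
 (c (a (nat_lit 0x124060624ce105))
 (c (a (nat_lit 0x15d2f471eeabd38a)) e
 (c (a (nat_lit 0x12d39090aef2132b)) e e))
 (c (a (nat_lit 0x20406883f566)) e
 (c (a (nat_lit 0x18345c0ec10e7))
 (c (a (nat_lit 0x186e4dface400009)) e e)
 (c (a (nat_lit 0x204a2458b12e8)) e
 (c (a (nat_lit 0x3c1a747ad1068)) e
 (c (a (nat_lit 0x7ea090d90e028)) e
 (c (a (nat_lit 0xc8c0fb18187c8)) e
 (c (a (nat_lit 0x143719a9545648)) e
 (c (a (nat_lit 0x105881a06c6a67)) e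
 (c (a (nat_lit 0x12c1e027800007)) e
 (c (a (nat_lit 0x16ad4000000005)) e e))))))))))))
 (c (a (nat_lit 0x14c020202006))
 (c (a (nat_lit 0x6020c3225487))
 (c (a (nat_lit 0x11522f2d0e32d4ea)) e e)
 (c (a (nat_lit 0x202502cedae8)) e
 (c z e
 (c z e
 (c z e
 (c z e
 (c z e
 (c (a (nat_lit 0x9f344532e4ec9)) e
 (c (a (nat_lit 0x15a321c0896008)) e
 (c (a (nat_lit 0xc31c0c0000007)) e e))))))))))
 (c (a (nat_lit 0x12181808121))
 (c (a (nat_lit 0x2362e58e1548))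
 (c (a (nat_lit 0x1135ce92ef6f6008)) e e)
 (c z e
 (c z e
 (c z e
 (c z e
 (c z e
 (c (a (nat_lit 0x98b502ccd0a09)) e
 (c (a (nat_lit 0x12842e0d400007)) e
 (c (a (nat_lit 0x1a3a6000000006)) e e)))))))))
 (c (a (nat_lit 0xa0c0c14381))
 (c (a (nat_lit 0x22470acfd369))
 (c (a (nat_lit 0x10ac200000000008)) e e)
 (c z e
 (c z e
 (c z e
 (c (a (nat_lit 0xb88324846882a)) e
 (c (a (nat_lit 0x11fe90ac60009)) e
 (c (a (nat_lit 0x160564c0000009)) e e)))))))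
 (c (a (nat_lit 0x4082e641))
 (c z e
 (c z e
 (c z e
 (c (a (nat_lit 0x1c190d016a667)) e
 (c (a (nat_lit 0x13030906e00008)) e
 (c (a (nat_lit 0x3902000000005)) e e))))))
 (c (a (nat_lit 0x1c7c9cbcbac6))
 (c (a (nat_lit 0x62c05b0636fc8)) e
 (c (a (nat_lit 0x17ca36ce156a89)) e
 (c (a (nat_lit 0x98a0816e50009)) e e)))
 (c (a (nat_lit 0x10f05090b048))
 (c (a (nat_lit 0x8504db0e8a3c9)) e e)
 (c (a (nat_lit 0xed112941408))
 (c (a (nat_lit 0x5b0e260000009)) e e)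
 (c (a (nat_lit 0x183bfbfbfa49)) e
 (c (a (nat_lit 0x1091708e64e8)) e
 (c (a (nat_lit 0x1391312e4ac8)) e
 (c (a (nat_lit 0x1e7e7e711106)) e
 (c (a (nat_lit 0x197a3a7b39a5)) e
 (c (a (nat_lit 0x40805f44)) e
 (c (a (nat_lit 0x603f7f64)) e
 (c (a (nat_lit 0xc1a100c001)) e
 (c (a (nat_lit 0x5a460000001)) e e)))))))))))))))))
 (c (a (nat_lit 0x40406061))
 (c (a (nat_lit 0x2060a060a1))
 (c (a (nat_lit 0x2106875777c6)) e
 (c (a (nat_lit 0x24a48628d209))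
 (c (a (nat_lit 0xb4e0e320bea400b)) e e)
 (c z e
 (c z e
 (c z e
 (c z e
 (c z e
 (c (a (nat_lit 0xeaad32bca22a8)) e
 (c (a (nat_lit 0x1721028c200008)) e
 (c (a (nat_lit 0x1ee1a000000006)) e e))))))))))
 (c (a (nat_lit 0x101630001))
 (c (a (nat_lit 0x6303034552ea))
 (c (a (nat_lit 0x1291b42d4a600009)) e e)
 (c z e
 (c z e
 (c z e
 (c z e
 (c z e
 (c (a (nat_lit 0x10b56dc700c009)) e
 (c (a (nat_lit 0x1caff060000008)) e e))))))))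
 (c (a (nat_lit 0x20554cc4))
 (c z e
 (c z e
 (c z e
 (c z e
 (c z e
 (c z e
 (c (a (nat_lit 0x8f2e000000008)) e e)))))))
 (c (a (nat_lit 0x1f5f7f9f7206)) e
 (c z e
 (c z e
 (c z e
 (c (a (nat_lit 0x159a9a9834e9)) e
 (c (a (nat_lit 0x1396738e8428)) e
 (c (a (nat_lit 0x1b971711ee08)) e
 (c (a (nat_lit 0x1d3d3d11d027)) e
 (c (a (nat_lit 0x1050706fef29)) e
 (c (a (nat_lit 0x3436053d386)) e
 (c (a (nat_lit 0x122e243a021)) e
 (c (a (nat_lit 0xf8dc1c00001)) e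
 (c (a (nat_lit 0xc8000000001)) e e))))))))))))))))
 (c (a (nat_lit 0x202001))
 (c (a (nat_lit 0x619a2102))
 (c (a (nat_lit 0x2020210bd3a8)) e
 (c z e
 (c z e
 (c z e
 (c z e
 (c z e
 (c (a (nat_lit 0x146f4c8c400006)) e
 (c (a (nat_lit 0x1be000000005)) e e))))))))
 (c (a (nat_lit 0x149cdd3d1f45)) e
 (c z e
 (c z e
 (c z e
 (c z e
 (c (a (nat_lit 0x10361613d269)) e
 (c (a (nat_lit 0x19395975e227)) e
 (c (a (nat_lit 0x199998564b48)) e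
 (c (a (nat_lit 0xe2d912da4c9)) e
 (c (a (nat_lit 0x1171b5f2b1e9)) e
 (c (a (nat_lit 0x807e5e26)) e
 (c (a (nat_lit 0x10c320402006)) e
 (c (a (nat_lit 0x18e0e0000003)) e e))))))))))))))
 (c (a (nat_lit 0x40404021))
 (c z e
 (c z e
 (c z e
 (c z e
 (c (a (nat_lit 0xb58f8e20c28)) e
 (c (b (nat_lit 0x1ff8d0d2f708)) e
 (c (a (nat_lit 0x101013536967)) e
 (c (a (nat_lit 0x189fbf12ea08)) e
 (c z e
 (c z e
 (c (a (nat_lit 0x2418547447)) e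
 (c (b (nat_lit 0x1ff4c9c00001)) e
 (c (a (nat_lit 0x1f4000000004)) e e)))))))))))))
 (c (a (nat_lit 0x40404021))
 (c z e
 (c (a (nat_lit 0x171d9d7d7d67))
 (c (a (nat_lit 0xdea8d74ac007)) e
 (c (b (nat_lit 0x1c1fefa0000007)) e e))
 (c (a (nat_lit 0xbec0c114847))
 (c (a (nat_lit 0x2944000000001)) e e)
 (c (a (nat_lit 0x18989bab3946)) e
 (c (a (nat_lit 0xe0ecb7714c8)) e
 (c (a (nat_lit 0x44ad1338e88)) e
 (c (a (nat_lit 0x17b9b9670ec8)) e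
 (c z e
 (c z e
 (c (a (nat_lit 0x56df2e12008)) e
 (c (a (nat_lit 0x170480000006)) e e)))))))))))
 (c (a (nat_lit 0x60606061))
 (c (a (nat_lit 0xfeff7573b66))
 (c (a (nat_lit 0x1b620060200006)) e
 (c (a (nat_lit 0x1a228000000002)) e e))
 (c (a (nat_lit 0x107417d93b27)) e
 (c (a (nat_lit 0x1b5b5d3c70e7)) e
 (c (a (nat_lit 0x1a9b1d9a9729)) e
 (c (a (nat_lit 0x15ec79fc0007)) e
 (c (a (nat_lit 0x177272c8b408)) e
 (c z e
 (c (a (nat_lit 0x82264a03ca8)) e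
 (c (a (nat_lit 0x12e4a00005)) e
 (c (a (nat_lit 0x16c000000004)) e e))))))))))
 (c (a (nat_lit 0x202035e6))
 (c (a (nat_lit 0xfd755d9a346)) e
 (c (a (nat_lit 0x179677940d27)) e
 (c (a (nat_lit 0x199b7d7ab5e9)) e
 (c (a (nat_lit 0xf751545c2c8)) e
 (c (a (nat_lit 0x1375f428ecc8)) e
 (c z e
 (c (a (nat_lit 0x14d0c566a008)) e
 (c (a (nat_lit 0x1840000001)) e e))))))))
 (c (a (nat_lit 0x848539387))
 (c (a (nat_lit 0xeee15cce047)) e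
 (c z e
 (c (a (nat_lit 0xefaed0b66e8)) e
 (c (a (nat_lit 0xe960dd04a28)) e e))))
 (c (a (nat_lit 0x169e9dddc9))
 (c (a (nat_lit 0x16ba58789869)) e
 (c (a (nat_lit 0xff1b1f1c92a)) e
 (c (a (nat_lit 0x11102ef0720a)) e
 (c (a (nat_lit 0x1c3f1675e009)) e e))))
 (c (a (nat_lit 0x1979786b08))
 (c (a (nat_lit 0x1797b78ba868)) e
 (c (a (nat_lit 0xe34c94aea88)) e
 (c (a (nat_lit 0x21bb3800007)) e e)))
 (c (a (nat_lit 0x12120a0a07))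
 (c (a (nat_lit 0x96444508006)) e
 (c (a (nat_lit 0x15e8c0000001)) e e))
 (c (a (nat_lit 0x1e40202025)) e
 (c (a (nat_lit 0xe0a0c001)) e
 (c (a (nat_lit 0xc08060a1)) e
 (c (a (nat_lit 0x20408261)) e
 (c (a (nat_lit 0xa286c1)) e
 (c (a (nat_lit 0x2010761)) e
 (c (a (nat_lit 0x20203965)) e
 (c (a (nat_lit 0x80e08081)) e
 (c (a (nat_lit 0x20e08061)) e
 (c (a (nat_lit 0x2c160e0a1)) e
 (c (a (nat_lit 0x140400001)) e e))))))))))))))))))))))) Tr.c Tr.e (nat_lit 0) C.cx C.cy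
noncomputable def C72 : Tr := beta% (fun (c : Nat → Tr → Tr → Tr) (e : Tr) (z : Nat) (a b : Nat → Nat) =>
 (c (a (nat_lit 0x20202021))
 (c (a (nat_lit 0x18c020202025))
 (c (a (nat_lit 0x2021e04936a5)) e
 (c (a (nat_lit 0x1a263c48f90c7)) e
 (c z e
 (c z e
 (c z e
 (c z e
 (c z e
 (c (a (nat_lit 0xdcdc7924b0648)) e
 (c (a (nat_lit 0x18c24bc1c7c007)) e
 (c (a (nat_lit 0x3b12260000007)) e e))))))))))
 (c (a (nat_lit 0x1416181e301))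
 (c (a (nat_lit 0x1c8684808b4c8))
 (c (a (nat_lit 0x8e82ac9b164600a)) e
 (c (a (nat_lit 0x10943a776000000a)) e e))
 (c (b (nat_lit 0x1fffe020adb949))
 (c (a (nat_lit 0x8508a800000000a)) e e)
 (c z e
 (c z e
 (c z e
 (c z e
 (c (a (nat_lit 0x10480c2ce4a3e9)) e
 (c (a (nat_lit 0x169ba51000006)) e e))))))))
 (c (a (nat_lit 0x60c182a1))
 (c (a (nat_lit 0x214111b4f388)) e
 (c z e
 (c z e
 (c z e
 (c z e
 (c (b (nat_lit 0x1fe66bd3c50007)) e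
 (c (a (nat_lit 0x384fb20000007)) e e)))))))
 (c (a (nat_lit 0x81828001)) e
 (c (a (nat_lit 0x10f13190ef04)) e
 (c z e
 (c z e
 (c (a (nat_lit 0x1190f413eca8)) e
 (c (a (nat_lit 0x139fdfceab86)) e
 (c (a (nat_lit 0x1414f4f08ea8)) e
 (c (a (nat_lit 0x14547471ad68)) e
 (c (a (nat_lit 0x1857f7a84825)) e
 (c (a (nat_lit 0x2020605025)) e
 (c (a (nat_lit 0x40301025)) e
 (c (a (nat_lit 0x2061e14001)) e
 (c (a (nat_lit 0x2080000001)) e e))))))))))))))))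
 (c (a (nat_lit 0x21))
 (c (a (nat_lit 0x80a101c001))
 (c (a (nat_lit 0x20402101d667))
 (c (a (nat_lit 0x92da41c45a00007)) e
 (c (a (nat_lit 0x1a4bbaa000000008)) e e))
 (c (a (nat_lit 0x4040418e5149))
 (c (a (nat_lit 0xbd3400000000008)) e e)
 (c z e
 (c z e
 (c z e
 (c z e
 (c (b (nat_lit 0x167fe487834007)) e
 (c (a (nat_lit 0xf01f6a0000005)) e e))))))))
 (c (b (nat_lit 0x6139ffe2))
 (c (a (nat_lit 0x23850c10ba28))
 (c (a (nat_lit 0x1c00000000000005)) e e)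
 (c z e
 (c z e
 (c z e
 (c z e
 (c (a (nat_lit 0x1b700925200008)) e
 (c (a (nat_lit 0x136bc000000008)) e e)))))))
 (c (a (nat_lit 0xff0102fe005)) e
 (c z e
 (c z e
 (c z e
 (c (a (nat_lit 0xdee50cc0aa8)) e
 (c (a (nat_lit 0xb797b767e5)) e
 (c (a (nat_lit 0x10302fece888)) e
 (c (a (nat_lit 0x13f3f2cfca48)) e
 (c (a (nat_lit 0x1693f18be827)) e
 (c (a (nat_lit 0x50060321206)) e
 (c (a (nat_lit 0x197a80404044)) e
 (c (a (nat_lit 0x1a2040200004)) e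
 (c (a (nat_lit 0x4000000001)) e e)))))))))))))))
 (c (a (nat_lit 0x20202021))
 (c (a (nat_lit 0xb0d110f0e25))
 (c (b (nat_lit 0x20cb5279fffe6)) e
 (c z e
 (c z e
 (c z e
 (c (a (nat_lit 0x1944470742c007)) e
 (c (a (nat_lit 0xd49baa0000005)) e
 (c (a (nat_lit 0x16a00000000005)) e e)))))))
 (c z e
 (c z e
 (c z e
 (c (a (nat_lit 0x1557f815c006)) e
 (c (a (nat_lit 0xdf55c488966)) e
 (c (a (nat_lit 0xa3187a84607)) e
 (c (a (nat_lit 0x12adce2b6668)) e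
 (c (a (nat_lit 0xef12e6fc8c9)) e
 (c (a (nat_lit 0x12cdcdc90648)) e
 (c (a (nat_lit 0x93b756c6)) e
 (c (a (nat_lit 0x144d94c02005)) e
 (c (a (nat_lit 0x340000001)) e e)))))))))))))
 (c (a (nat_lit 0x20000001))
 (c z e
 (c (a (nat_lit 0xf5696d6b746))
 (c (a (nat_lit 0x14ac254524e4a7)) e
 (c (a (nat_lit 0x152bc941000006)) e e))
 (c (a (nat_lit 0x112b8babb925))
 (c (a (nat_lit 0x1a058200000003)) e e)
 (c (a (nat_lit 0x202353e6)) e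
 (c (a (nat_lit 0x2023327106)) e
 (c (a (nat_lit 0xdedebb506)) e
 (c (a (nat_lit 0x171abd7b31e8)) e
 (c z e
 (c z e
 (c (a (nat_lit 0x74ed0210107)) e
 (c (a (nat_lit 0x101122400007)) e
 (c (a (nat_lit 0x1c0000000005)) e e))))))))))))
 (c (a (nat_lit 0x20202021))
 (c (a (nat_lit 0x10b4141b3b25))
 (c (a (nat_lit 0x1029e1a4828005)) e
 (c (a (nat_lit 0x11404220000005)) e e))
 (c (a (nat_lit 0x10505417b6e6)) e
 (c (a (nat_lit 0xd510fd07266)) e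
 (c (a (nat_lit 0xb8b8b14ab47)) e
 (c (a (nat_lit 0x11914c961067)) e
 (c (a (nat_lit 0x1b59b7afed88)) e
 (c z e
 (c (a (nat_lit 0xfd02f64a547)) e
 (c (a (nat_lit 0x1327f0ce003)) e
 (c (a (nat_lit 0x1e040000001)) e e))))))))))
 (c (a (nat_lit 0x20404041))
 (c (a (nat_lit 0x101017747b85)) e
 (c (a (nat_lit 0x1215d4595026)) e
 (c (a (nat_lit 0x17343e5ae026)) e
 (c (a (nat_lit 0xacdb04e4007)) e
 (c (a (nat_lit 0xc1270ccefc8)) e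
 (c z e
 (c (a (nat_lit 0x585e2409548)) e
 (c (a (nat_lit 0x108a400004)) e
 (c (a (nat_lit 0x166000000002)) e e)))))))))
 (c (a (nat_lit 0x1805))
 (c (a (nat_lit 0xc2c0f17a045)) e
 (c (a (nat_lit 0xb6f568a0527)) e
 (c (a (nat_lit 0xf701d6522c6)) e
 (c (a (nat_lit 0xf2f13d07848)) e
 (c z e
 (c (a (nat_lit 0x1ff107960006)) e
 (c (a (nat_lit 0x10ae60000004)) e e)))))))
 (c (a (nat_lit 0x203993c5))
 (c (a (nat_lit 0x945b14bc726)) e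
 (c (a (nat_lit 0x513b7b61426)) e
 (c (a (nat_lit 0x1015f63aa008)) e
 (c (a (nat_lit 0x1d3bdce815c8)) e
 (c (a (nat_lit 0x98311200007)) e
 (c (a (nat_lit 0x2000000001)) e e))))))
 (c (a (nat_lit 0x619b97786))
 (c (a (nat_lit 0x93937960426)) e
 (c (a (nat_lit 0xe5029a11468)) e
 (c (a (nat_lit 0xe97c6ada008)) e
 (c (a (nat_lit 0x1d20000007)) e e))))
 (c (a (nat_lit 0x1f1f1bd3c7))
 (c (a (nat_lit 0xeaf65b76be7)) e
 (c (a (nat_lit 0x180579c00007)) e e))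
 (c (a (nat_lit 0x1818345308)) e
 (c (a (nat_lit 0x11c0202025)) e
 (c (a (nat_lit 0x10080c001)) e
 (c (a (nat_lit 0x80602021)) e
 (c (a (nat_lit 0x40606101)) e
 (c (a (nat_lit 0x8120a1)) e
 (c (a (nat_lit 0x1ec0802b23)) e
 (c (a (nat_lit 0x1404058a3)) e
 (c (a (nat_lit 0x16140e1)) e
 (c (a (nat_lit 0x1880606063)) e
 (c (a (nat_lit 0x261a16001)) e
 (c (a (nat_lit 0xa0000001)) e e))))))))))))))))))))))) Tr.c Tr.e (nat_lit 0) C.cx C.cy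
noncomputable def C73 : Tr := beta% (fun (c : Nat → Tr → Tr → Tr) (e : Tr) (z : Nat) (a b : Nat → Nat) =>
 (c (a (nat_lit 0x20202021))
 (c (a (nat_lit 0x3839e5e5e44))
 (c (a (nat_lit 0x120b4f0b84c4c3))
 (c z e
 (c (a (nat_lit 0x5ca4e9331ec9446))
 (c z e
 (c z e
 (c (a (nat_lit 0x9ce558c8000000009)) e e)))
 (c (a (nat_lit 0x1899dd1ad8781a07)) e e)))
 (c (a (nat_lit 0x113a56f5736565))
 (c (a (nat_lit 0xd92f97ab1f8b1a7))
 (c z e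
 (c (a (nat_lit 0x5285252886000000b)) e e))
 (c (a (nat_lit 0xd706fec8d0cec29))
 (c (a (nat_lit 0x6ef9386200000000b)) e e)
 (c (a (nat_lit 0xdd0edcd2b2b8b09)) e
 (c (a (nat_lit 0x1432b78fb0f071a9)) e
 (c (a (nat_lit 0xd52efae4d2e0b89)) e
 (c (a (nat_lit 0x17932ff3eeeacbc8)) e
 (c (a (nat_lit 0x124cd1ac63600007)) e
 (c (a (nat_lit 0x121948a000000007)) e e))))))))
 (c (a (nat_lit 0x1d5afbfaf9f927))
 (c (a (nat_lit 0x1755b331b392b1c8)) e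
 (c (a (nat_lit 0x13f2af2fef8eee29)) e
 (c (a (nat_lit 0xe2ff072315130c9)) e
 (c (a (nat_lit 0x183a797918781988)) e e))))
 (c (a (nat_lit 0x1088f0038321c3))
 (c (a (nat_lit 0x1e535457145388c7)) e
 (c (a (nat_lit 0x104daeed8d4c8f09)) e e))
 (c (a (nat_lit 0xef65660222025))
 (c (a (nat_lit 0xf95f75656768c87)) e e)
 (c (a (nat_lit 0x1090b1d320e185)) e
 (c (a (nat_lit 0x1b5b9f0f853704)) e
 (c (a (nat_lit 0x1d5f5eca7ffea4)) e
 (c (a (nat_lit 0x8d0b3f5f1f804)) e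
 (c (a (nat_lit 0x726306baf0d65)) e
 (c (a (nat_lit 0xa12f4120f0545)) e
 (c (a (nat_lit 0x17f8d61689db46)) e
 (c (a (nat_lit 0x114d0fca69e007)) e
 (c (a (nat_lit 0x9e87520000006)) e
 (c (a (nat_lit 0x18200000000004)) e e)))))))))))))))
 (c (a (nat_lit 0x79a3a3a2d27))
 (c (a (nat_lit 0x1e5d1d3caf8866))
 (c (a (nat_lit 0xb4ff2cc4dcc0ba8))
 (c z e
 (c (a (nat_lit 0xab59b6d400000000b)) e e))
 (c (a (nat_lit 0x1a7d76b675f592e9))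
 (c (a (nat_lit 0xe1526e0000000000c)) e e)
 (c (a (nat_lit 0x12af4f2dcdad2d6a)) e
 (c (a (nat_lit 0x11d78f2fced18caa)) e
 (c (a (nat_lit 0xf0d0c8aacc7b02a)) e
 (c (a (nat_lit 0x110df36f47a9c009)) e
 (c (a (nat_lit 0xc92eca160000008)) e e)))))))
 (c (a (nat_lit 0xa352e8d882326))
 (c (a (nat_lit 0x1e1bd7d91933af49)) e
 (c (a (nat_lit 0x11efeeae4c2b496b)) e
 (c (a (nat_lit 0x128ecfee2ead4e2b)) e e)))
 (c (a (nat_lit 0x6d32dedcc6006))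
 (c (a (nat_lit 0x1dba9bf818d37a49)) e e)
 (c (a (nat_lit 0x5b146a82766c8)) e
 (c (a (nat_lit 0x125308688718a7)) e
 (c (a (nat_lit 0xeb067026ef3c7)) e
 (c (b (nat_lit 0x5311fed251646)) e
 (c (a (nat_lit 0x14d518761b3be7)) e
 (c (a (nat_lit 0x13f8783b796668)) e
 (c (a (nat_lit 0xbf190b06036e8)) e
 (c (a (nat_lit 0x16f44f86976928)) e
 (c (a (nat_lit 0x199d4f53e00008)) e e))))))))))))
 (c (a (nat_lit 0x1e1e1e167667))
 (c (a (nat_lit 0x1425462663c065))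
 (c (a (nat_lit 0x13f0b1f1af90cd08)) e
 (c (a (nat_lit 0x1ebc9c5a19d39609)) e e))
 (c (a (nat_lit 0x104caa0a604286)) e
 (c (a (nat_lit 0xd62e98222f587)) e
 (c z e
 (c z e
 (c z e
 (c z e
 (c (a (nat_lit 0xf8d7531203168)) e
 (c (a (nat_lit 0x191e5fa332dae7)) e
 (c (a (nat_lit 0x135026d0aa2008)) e
 (c (b (nat_lit 0x1cffef60000007)) e e)))))))))))
 (c (a (nat_lit 0x1d3d33331306))
 (c (a (nat_lit 0x4a903c0209646)) e
 (c (a (nat_lit 0x36820c11899c7)) e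
 (c z e
 (c z e
 (c z e
 (c z e
 (c (a (nat_lit 0x84e5a08331047)) e
 (c (a (nat_lit 0x51a8549a763c7)) e
 (c (a (nat_lit 0x11e4c9e8400007)) e e)))))))))
 (c (a (nat_lit 0x17c343434325))
 (c (a (nat_lit 0x5a3a41c3bfec6))
 (c (a (nat_lit 0x187f8d48e0000006)) e e)
 (c z e
 (c z e
 (c z e
 (c (b (nat_lit 0x1fe64a14f16488)) e
 (c (a (nat_lit 0x2298eb1a2a268)) e
 (c (a (nat_lit 0x965f8e4052007)) e
 (c (a (nat_lit 0x3ee440000006)) e e))))))))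
 (c (a (nat_lit 0x1c16140a081))
 (c z e
 (c (a (nat_lit 0x767e8ab707988)) e
 (c (a (nat_lit 0x425c92e541008)) e
 (c (a (nat_lit 0x58c74d58e4048)) e
 (c (a (nat_lit 0x76a9690412148)) e
 (c (a (nat_lit 0xb2ec02400008)) e e))))))
 (c (a (nat_lit 0xc0a0804101))
 (c (a (nat_lit 0xc1a1af36d0c7)) e
 (c (a (nat_lit 0x2095722da3a8)) e
 (c (a (nat_lit 0x44e7a6c6140a8)) e
 (c (a (nat_lit 0xcbace04016008)) e
 (c (a (nat_lit 0x194e24a0000008)) e e)))))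
 (c (a (nat_lit 0x464644523c1))
 (c (a (nat_lit 0x5bad2ac0e1e7)) e
 (c (a (nat_lit 0x183c8ec3424068)) e
 (c (a (nat_lit 0x15ae0242000008)) e
 (c (a (nat_lit 0x10a3c000000007)) e e))))
 (c (a (nat_lit 0x107070b06624))
 (c (a (nat_lit 0x1125c223202008)) e
 (c (a (nat_lit 0x19e98720000007)) e
 (c (a (nat_lit 0x16800000000005)) e e)))
 (c (a (nat_lit 0x7e075f91885)) e
 (c (a (nat_lit 0x511110f4f46)) e
 (c (a (nat_lit 0x1bfb1b1957c7)) e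
 (c (a (nat_lit 0x1574b4d331e8)) e
 (c (a (nat_lit 0x1c7c9cbcdca5)) e
 (c (a (nat_lit 0x810080a1)) e
 (c (a (nat_lit 0x80606301)) e
 (c (a (nat_lit 0x20207364)) e
 (c (a (nat_lit 0x20b34003)) e
 (c (a (nat_lit 0x60000001)) e e)))))))))))))))))))
 (c (a (nat_lit 0x20202021))
 (c (a (nat_lit 0x15d5d5ca0a08))
 (c (a (nat_lit 0x1010af0f002126))
 (c (a (nat_lit 0x181e75f41595b607))
 (c z e
 (c (a (nat_lit 0xe16cbc0000000000b)) e e))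
 (c (a (nat_lit 0x11ee8eee4ecd4a2a)) e
 (c (a (nat_lit 0x1f9ebf5efc9ed7a9)) e
 (c (a (nat_lit 0x158e4eed108b118a)) e
 (c (a (nat_lit 0x171570360d58b209)) e
 (c (a (nat_lit 0x179c5ad08e000008)) e
 (c (a (nat_lit 0x1550a5a000000008)) e e)))))))
 (c (a (nat_lit 0x116bc8e901c347))
 (c (a (nat_lit 0x1b3978d9d5304e6a)) e
 (c (a (nat_lit 0x1cd9f9d594b2d4eb)) e e))
 (c (a (nat_lit 0x1d13f3f404c066)) e
 (c (a (nat_lit 0xaa18a68c0dbe7)) e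
 (c (a (nat_lit 0x8e466e4afb908)) e
 (c (a (nat_lit 0xae8c52eae7728)) e
 (c (a (nat_lit 0xf47efeb70d108)) e
 (c (b (nat_lit 0x1477d73a9b7fe8)) e
 (c (a (nat_lit 0x16f53818497a09)) e
 (c (a (nat_lit 0x17d91d40305048)) e
 (c (a (nat_lit 0x17f8c131298008)) e
 (c (a (nat_lit 0x1689ad60000008)) e e))))))))))))
 (c (a (nat_lit 0x1efef2727267))
 (c (a (nat_lit 0x16e140e6662c65))
 (c (a (nat_lit 0xfaff04ccbad6cea)) e e)
 (c (a (nat_lit 0x2a0606040b5c8)) e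
 (c (a (nat_lit 0x24643a530afe9)) e
 (c z e
 (c z e
 (c z e
 (c z e
 (c (a (nat_lit 0x90fd2e14fd009)) e
 (c (a (nat_lit 0xe7e8283aa4a08)) e
 (c (a (nat_lit 0x11c92b08e00008)) e e))))))))))
 (c (a (nat_lit 0x1a2040202026))
 (c (a (nat_lit 0x40a06028f328)) e
 (c z e
 (c z e
 (c z e
 (c z e
 (c z e
 (c (a (nat_lit 0x7b4d1730be889)) e
 (c (a (nat_lit 0x13636c22834008)) e
 (c (a (nat_lit 0xc95cbe0000007)) e e)))))))))
 (c (a (nat_lit 0x34241c06081))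
 (c z e
 (c z e
 (c z e
 (c z e
 (c z e
 (c (a (nat_lit 0x7433303a2c1ea)) e
 (c (a (nat_lit 0x43e6443600009)) e
 (c (a (nat_lit 0x1c826000000009)) e e))))))))
 (c (a (nat_lit 0x120e08082a1))
 (c z e
 (c (a (nat_lit 0xb8a714ffd7229)) e
 (c z e
 (c (a (nat_lit 0xea891c9232489)) e
 (c (b (nat_lit 0x1ff7274342a009)) e
 (c (a (nat_lit 0x1d2705c0000008)) e e))))))
 (c (a (nat_lit 0x4061238641))
 (c (a (nat_lit 0x24132d32d6068)) e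
 (c (a (nat_lit 0x3551cee22fe9)) e
 (c (a (nat_lit 0x5d76ba474e329)) e e)))
 (c (a (nat_lit 0x16f7175737c6))
 (c (a (nat_lit 0x1b3014c934e668)) e e)
 (c (a (nat_lit 0x17b5d7fa5867))
 (c (a (nat_lit 0xd4c7de4a00008)) e e)
 (c (a (nat_lit 0x1296f8391829)) e
 (c (a (nat_lit 0xfb292928a28)) e
 (c (a (nat_lit 0x1897d7d6b268)) e
 (c (a (nat_lit 0x10b0908fce49)) e
 (c (a (nat_lit 0x147414d43463)) e
 (c (a (nat_lit 0x8241410d61)) e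
 (c (a (nat_lit 0x604021df84)) e
 (c (a (nat_lit 0x4041ffffc4)) e
 (c (a (nat_lit 0x44521800001)) e
 (c (a (nat_lit 0x2000000001)) e e))))))))))))))))))
 C72))) Tr.c Tr.e (nat_lit 0) C.cx C.cy
noncomputable def C74 : Tr := beta% (fun (c : Nat → Tr → Tr → Tr) (e : Tr) (z : Nat) (a b : Nat → Nat) =>
 (c (nat_lit 1)
 (c (a (nat_lit 0x12d2d28044))
 (c (a (nat_lit 0x1074f4f4d845)) e
 (c (a (nat_lit 0x9ae34b23207)) e
 (c (a (nat_lit 0x5505192b607)) e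
 (c (a (nat_lit 0xe91f5168567)) e
 (c (a (nat_lit 0x91435e993a7)) e
 (c (a (nat_lit 0xa5ff8d1a6e7)) e
 (c (a (nat_lit 0x10d6f7a00007)) e e)))))))
 (c (a (nat_lit 0x5d2604005))
 (c (a (nat_lit 0xcb17430b607)) e
 (c (a (nat_lit 0xd31f4f47028)) e
 (c (a (nat_lit 0x8caab60d349)) e
 (c (a (nat_lit 0x9ea6eb642c9)) e
 (c (a (nat_lit 0x17337e2cc008)) e
 (c (a (nat_lit 0x177c80000007)) e e))))))
 (c (a (nat_lit 0x1140402005))
 (c (a (nat_lit 0x888cb481728)) e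
 (c (a (nat_lit 0x11942bd604a8)) e
 (c (a (nat_lit 0xbc490224229)) e e)))
 (c (a (nat_lit 0x141012181))
 (c (a (nat_lit 0x1025ebaf2027)) e
 (c (a (nat_lit 0x3004a26008)) e
 (c (a (nat_lit 0x1fd9e0000007)) e e)))
 (c (a (nat_lit 0xe120c281))
 (c (a (nat_lit 0x1b6105800006)) e
 (c (a (nat_lit 0x15e000000005)) e e))
 (c (a (nat_lit 0x20f085)) e
 (c (a (nat_lit 0x38df46)) e
 (c (a (nat_lit 0x752d55547)) e
 (c (a (nat_lit 0x1739b9da06)) e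
 (c (a (nat_lit 0x1374f1d1c6)) e
 (c (a (nat_lit 0xd2d6d7106)) e
 (c (a (nat_lit 0x1adacbe005)) e
 (c (a (nat_lit 0xa18806004)) e
 (c (a (nat_lit 0x9002cb825)) e
 (c (a (nat_lit 0x1733400005)) e e)))))))))))))))
 (c (nat_lit 1)
 (c (a (nat_lit 0x1460802002))
 (c (a (nat_lit 0x86b0d8db8a6)) e
 (c (a (nat_lit 0x8294b28b968)) e
 (c (a (nat_lit 0x4c501354bc9)) e
 (c (a (nat_lit 0x999dce60268)) e
 (c (a (nat_lit 0xe73e7e00008)) e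
 (c (a (nat_lit 0x1ec000000006)) e e))))))
 (c (a (nat_lit 0x28100a001))
 (c (b (nat_lit 0x44581d11fe9)) e
 (c (a (nat_lit 0x5015108c18a)) e
 (c (a (nat_lit 0xc996522c009)) e
 (c (a (nat_lit 0x1a0740000008)) e e))))
 (c (a (nat_lit 0xc080c121))
 (c (a (nat_lit 0x1d34f61a0e9)) e
 (c (a (nat_lit 0x1a8dc1400009)) e e))
 (c (a (nat_lit 0x205f64))
 (c (a (nat_lit 0x18ae00000005)) e e)
 (c (a (nat_lit 0x30b87d46)) e
 (c (a (nat_lit 0x4f0129287)) e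
 (c (a (nat_lit 0x1237173706)) e
 (c (a (nat_lit 0x165652f306)) e
 (c (a (nat_lit 0x1292ac2c26)) e
 (c (a (nat_lit 0x1b9bbbb6e5)) e
 (c (a (nat_lit 0x1110e0cc25)) e
 (c (a (nat_lit 0x1161a05f84)) e
 (c (a (nat_lit 0xcf8f2a005)) e
 (c (a (nat_lit 0x1e20000004)) e e))))))))))))))
 (c (nat_lit 1)
 (c (a (nat_lit 0xe0a04061))
 (c (a (nat_lit 0x702bf8021a7)) e
 (c (a (nat_lit 0x43b0e0602c8)) e
 (c (a (nat_lit 0x1546a5200008)) e
 (c (a (nat_lit 0x146000000005)) e e))))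
 (c (a (nat_lit 0x207005))
 (c (a (nat_lit 0xdf606c2a008)) e
 (c (a (nat_lit 0x12c6c0000008)) e e))
 (c (a (nat_lit 0x511aa5))
 (c (a (nat_lit 0x1aa000000005)) e e)
 (c (a (nat_lit 0x2dd02ce7)) e
 (c z e
 (c (a (nat_lit 0x1c3de18222)) e
 (c (a (nat_lit 0x13334c4c26)) e
 (c (a (nat_lit 0x18184e21e5)) e
 (c (a (nat_lit 0x1934202945)) e
 (c (a (nat_lit 0xc202033a5)) e
 (c (a (nat_lit 0x2140e001)) e
 (c (a (nat_lit 0x1c20400002)) e e))))))))))))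
 (c (nat_lit 1)
 (c (a (nat_lit 0x202ffea4))
 (c (a (nat_lit 0x110461a00007)) e
 (c (a (nat_lit 0x102000000006)) e e))
 (c (a (nat_lit 0x3173d3c7)) e
 (c (a (nat_lit 0x11327270a8)) e
 (c (a (nat_lit 0x11b1afe046)) e
 (c (a (nat_lit 0x162e16001)) e
 (c (a (nat_lit 0x14340c4005)) e
 (c (a (nat_lit 0x1911206c85)) e
 (c (a (nat_lit 0xa23e41766)) e
 (c (a (nat_lit 0x203a8025)) e
 (c (a (nat_lit 0xe0606001)) e
 (c (a (nat_lit 0xc0000001)) e e)))))))))))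
 (c (a (nat_lit 0x202021))
 (c (a (nat_lit 0x1a7cfcdc46)) e
 (c (a (nat_lit 0x1414140d07)) e
 (c (a (nat_lit 0x1dbd206043)) e
 (c (a (nat_lit 0x16121c221)) e
 (c (a (nat_lit 0x11d1002144)) e
 (c (a (nat_lit 0x11a0202105)) e
 (c (a (nat_lit 0x22437885)) e
 (c (a (nat_lit 0x1562e0c501)) e
 (c (a (nat_lit 0x200001)) e e)))))))))
 (c (nat_lit 1)
 (c (a (nat_lit 0x167635f586)) e
 (c (a (nat_lit 0x1979594da5)) e
 (c (a (nat_lit 0x14060b824)) e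
 (c (a (nat_lit 0x1993593a06)) e
 (c (a (nat_lit 0x179d9eb886)) e
 (c (a (nat_lit 0x1a60202004)) e
 (c (a (nat_lit 0x5a240c001)) e
 (c (a (nat_lit 0xc0000001)) e e))))))))
 (c (a (nat_lit 0x202021))
 (c (a (nat_lit 0x404038e3)) e
 (c (a (nat_lit 0x2032f2e7)) e
 (c (a (nat_lit 0xd90d34008)) e
 (c (a (nat_lit 0x6001)) e
 (c (a (nat_lit 0x20402381)) e
 (c (a (nat_lit 0x40200001)) e e))))))
 (c (nat_lit 1)
 (c (a (nat_lit 0xb0c3732c8)) e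
 (c (a (nat_lit 0x600606001)) e
 (c (a (nat_lit 0x205043)) e
 (c (a (nat_lit 0x180202001)) e
 (c (a (nat_lit 0x180000001)) e e)))))
 (c (a (nat_lit 0x202021))
 (c (a (nat_lit 0x202021)) e
 (c (a (nat_lit 0x20202021)) e
 (c (a (nat_lit 0x20200001)) e e)))
 (c (a (nat_lit 0x202021))
 (c (a (nat_lit 0x20202001)) e
 (c (a (nat_lit 0x20000001)) e e))
 (c (a (nat_lit 0x202021)) e
 (c (a (nat_lit 0x202001)) e
 (c (a (nat_lit 0x202001)) e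
 (c (a (nat_lit 0x21)) e
 (c (a (nat_lit 0x6001)) e
 (c (a (nat_lit 0x4021)) e
 (c (a (nat_lit 0x202001)) e
 (c (a (nat_lit 0x402001)) e
 (c (nat_lit 1) e
 (c (a (nat_lit 0x204001)) e
 (c (a (nat_lit 0x20a1)) e
 (c (a (nat_lit 0x61)) e
 (c (a (nat_lit 0x200001)) e e)))))))))))))))))))))))) Tr.c Tr.e (nat_lit 0) C.cx C.cy
noncomputable def C75 : Tr := beta% (fun (c : Nat → Tr → Tr → Tr) (e : Tr) (z : Nat) (a b : Nat → Nat) =>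
 (c (nat_lit 1)
 (c (a (nat_lit 0x200001))
 (c (a (nat_lit 0x13d3e0e0c0e4))
 (c (a (nat_lit 0xa4888ae8f126)) e
 (c (a (nat_lit 0x2e64ba9f04848)) e
 (c (a (nat_lit 0xaa86653ece368)) e
 (c (b (nat_lit 0x145ff20e061627)) e
 (c (a (nat_lit 0x2e14039d27e6)) e
 (c (b (nat_lit 0x1c265fef030007)) e e))))))
 (c (a (nat_lit 0x1128e8e8c126))
 (c (a (nat_lit 0x6f04df50c6068)) e
 (c (a (nat_lit 0x9a9bc942187c8)) e
 (c (a (nat_lit 0x42aad8731c509)) e e)))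
 (c (a (nat_lit 0x640340e1a1))
 (c (a (nat_lit 0x3b856a321ed47)) e e)
 (c (a (nat_lit 0x10f1b1d1f286))
 (c (b (nat_lit 0x25b97fef0027)) e
 (c (a (nat_lit 0x9542f2fc00008)) e e))
 (c (a (nat_lit 0x1191b6f42f46))
 (c (a (nat_lit 0x172d0cc0000007)) e e)
 (c z e
 (c (a (nat_lit 0x1ddcdd5c79a8)) e
 (c (a (nat_lit 0xc732ce80ac8)) e
 (c (a (nat_lit 0x124b6b6220c8)) e
 (c (a (nat_lit 0x11569365e6e7)) e
 (c (a (nat_lit 0x109134804666)) e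
 (c (a (nat_lit 0x5e2507045)) e
 (c (a (nat_lit 0x9f21400001)) e
 (c (a (nat_lit 0x4000000001)) e e))))))))))))))
 (c (a (nat_lit 0x200001))
 (c (a (nat_lit 0x1a1b17263))
 (c (a (nat_lit 0x120db2aea48f67)) e
 (c (a (nat_lit 0xa346fe7ea31e8)) e
 (c (a (nat_lit 0x9f46d99a2cca8)) e e)))
 (c (a (nat_lit 0x4161829843))
 (c (a (nat_lit 0x9c886424cb029)) e e)
 (c (a (nat_lit 0x117193b6c6e7))
 (c (a (nat_lit 0xb2f4bd2486009)) e
 (c (a (nat_lit 0x10acb220000009)) e e))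
 (c (a (nat_lit 0x1259979f9787))
 (c (a (nat_lit 0x877c000000006)) e e)
 (c z e
 (c (a (nat_lit 0x129494f67129)) e
 (c (a (nat_lit 0x106e4eab4908)) e
 (c (a (nat_lit 0x12f149412028)) e
 (c (a (nat_lit 0x10d1804024c8)) e
 (c (a (nat_lit 0x18fb218335e7)) e
 (c (a (nat_lit 0x4a2e5972006)) e
 (c (a (nat_lit 0x8280000001)) e e))))))))))))
 (c (nat_lit 1)
 (c (a (nat_lit 0x105070749487))
 (c z e
 (c (a (nat_lit 0xb8909f4850009)) e e))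
 (c (a (nat_lit 0xd6df93c0007))
 (c (b (nat_lit 0xc5ff2a3000008)) e e)
 (c (a (nat_lit 0x14dadf300ba8)) e
 (c z e
 (c z e
 (c (a (nat_lit 0x1552f42c45e7)) e
 (c (a (nat_lit 0xac860203948)) e
 (c (a (nat_lit 0x960806df689)) e
 (c (a (nat_lit 0x10004da05ae8)) e
 (c (a (nat_lit 0x3081600007)) e
 (c (a (nat_lit 0x1fa000000006)) e e)))))))))))
 (c (a (nat_lit 0x3466))
 (c (a (nat_lit 0xa9070510047))
 (c (a (nat_lit 0xeff8c00000005)) e e)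
 (c (b (nat_lit 0x111c7daedfe7)) e
 (c z e
 (c z e
 (c (a (nat_lit 0x8f359f1b048)) e
 (c (a (nat_lit 0x2c0615508a8)) e
 (c (b (nat_lit 0x8860c18bfe8)) e
 (c (a (nat_lit 0xa609932008)) e
 (c (a (nat_lit 0x162aa0000007)) e e)))))))))
 (c (a (nat_lit 0x365646))
 (c (a (nat_lit 0xfcfd3236827)) e
 (c z e
 (c z e
 (c (a (nat_lit 0x1335adabcea8)) e
 (c (b (nat_lit 0x1ff939e35fe7)) e
 (c (b (nat_lit 0x43785fffe8)) e
 (c (a (nat_lit 0x14ab2e00008)) e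
 (c (a (nat_lit 0x126000000006)) e e))))))))
 (c (a (nat_lit 0x3b7f7f647)) e
 (c (a (nat_lit 0x1030302c29))
 (c (a (nat_lit 0x1c3a9a188868)) e
 (c (a (nat_lit 0x14751390c789)) e
 (c (a (nat_lit 0x14541306a7e9)) e e)))
 (c (a (nat_lit 0x15f5f21208))
 (c (a (nat_lit 0x1434176b8f08)) e
 (c (a (nat_lit 0xd73ed85c008)) e e))
 (c (a (nat_lit 0x1180202026))
 (c (a (nat_lit 0x285d6a00003)) e e)
 (c (a (nat_lit 0x1c0a14101)) e
 (c (a (nat_lit 0x10080e1)) e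
 (c (a (nat_lit 0x15c0204063)) e
 (c (a (nat_lit 0x1111404065)) e
 (c (a (nat_lit 0x10e0404065)) e
 (c (a (nat_lit 0x181c001)) e
 (c (a (nat_lit 0x80806221)) e
 (c (a (nat_lit 0x62c701)) e
 (c (a (nat_lit 0x143c001)) e
 (c (a (nat_lit 0x100e10001)) e
 (c (a (nat_lit 0x12c0000001)) e e))))))))))))))))))))
 (c (a (nat_lit 0x202021))
 (c (a (nat_lit 0x200001))
 (c (a (nat_lit 0x628494a4aa1))
 (c (a (nat_lit 0x15fabc572fa084)) e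
 (c (a (nat_lit 0x100d2d9487e807)) e
 (c (b (nat_lit 0x28282dfe1d147)) e e)))
 (c (a (nat_lit 0x20405d25))
 (c (a (nat_lit 0x3c270a764e348)) e
 (c (b (nat_lit 0x3b37fed2d2008)) e e))
 (c (a (nat_lit 0x27337466))
 (c (a (nat_lit 0x12719ff2e00008)) e
 (c (a (nat_lit 0x131dc000000007)) e e))
 (c (a (nat_lit 0xf151cdcdca7))
 (c (a (nat_lit 0x12600000000005)) e e)
 (c z e
 (c (a (nat_lit 0xf2e708a8868)) e
 (c (a (nat_lit 0x16f800606fe4)) e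
 (c (a (nat_lit 0xc84002050c7)) e
 (c (a (nat_lit 0xa0020a17328)) e
 (c (a (nat_lit 0x84180803148)) e
 (c (a (nat_lit 0x124200400004)) e
 (c (a (nat_lit 0x4000000001)) e e))))))))))))
 (c (a (nat_lit 0x20203b67))
 (c (b (nat_lit 0x6c6d09dbfe6))
 (c (a (nat_lit 0x4760d3a5a29a7)) e
 (c (a (nat_lit 0x10ed512a400009)) e
 (c (a (nat_lit 0x11886000000008)) e e)))
 (c (a (nat_lit 0x629714ce688)) e
 (c z e
 (c z e
 (c z e
 (c (b (nat_lit 0xaaca35fe1)) e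
 (c (a (nat_lit 0x14c0a03c0ea7)) e
 (c (a (nat_lit 0x14140394649)) e
 (c (a (nat_lit 0x50030740008)) e
 (c (a (nat_lit 0x3540000006)) e e))))))))))
 (c (a (nat_lit 0x116a87))
 (c (a (nat_lit 0x12b7f8b442e8))
 (c (a (nat_lit 0x16492000000008)) e e)
 (c (b (nat_lit 0xffaf63fe8a8)) e
 (c z e
 (c z e
 (c (a (nat_lit 0x21125736a26)) e
 (c (b (nat_lit 0xe178ee9fe8)) e
 (c (b (nat_lit 0x2592459fe9)) e
 (c z e
 (c (a (nat_lit 0x12c000000003)) e e)))))))))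
 (c (a (nat_lit 0x7f39392e8))
 (c (a (nat_lit 0x17d8f9480f67)) e
 (c z e
 (c z e
 (c z e
 (c (a (nat_lit 0x690b3f653a8)) e
 (c (a (nat_lit 0x2339226c009)) e e))))))
 (c z e
 (c (a (nat_lit 0x1c79723147))
 (c (a (nat_lit 0x17970fab4927)) e
 (c (b (nat_lit 0xf7fefe43707)) e
 (c (a (nat_lit 0x105171ebe008)) e e)))
 (c (a (nat_lit 0x1fa0200005))
 (c (a (nat_lit 0x2606476aa26)) e
 (c (a (nat_lit 0x877c00005)) e
 (c (nat_lit 1) e e)))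
 (c (a (nat_lit 0x181a1e1a1))
 (c (a (nat_lit 0x1ed5c0000003)) e e)
 (c (a (nat_lit 0xa020e1)) e
 (c (a (nat_lit 0x205e03)) e
 (c (a (nat_lit 0x2220e001)) e
 (c (a (nat_lit 0x4c2814001)) e
 (c (a (nat_lit 0xe2e22701)) e
 (c (a (nat_lit 0xc103a1)) e
 (c (a (nat_lit 0x2221a1)) e
 (c (a (nat_lit 0x203685)) e
 (c (a (nat_lit 0x100e22081)) e
 (c (a (nat_lit 0x340800001)) e e))))))))))))))))))
 (c (a (nat_lit 0x202021))
 (c (a (nat_lit 0x20394207))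
 (c (b (nat_lit 0x404a7ff586))
 (c (a (nat_lit 0x2710528a0005)) e
 (c (a (nat_lit 0x2b12a00000006)) e e))
 (c (a (nat_lit 0x5ac9331adc8))
 (c (a (nat_lit 0x10404000000004)) e e)
 (c z e
 (c z e
 (c z e
 (c (a (nat_lit 0x989efb5ff65)) e
 (c (b (nat_lit 0x36521fe7)) e
 (c (b (nat_lit 0x207487dfe8)) e
 (c (a (nat_lit 0x2e38800008)) e
 (c (a (nat_lit 0x10a000000005)) e e))))))))))
 (c (a (nat_lit 0x713ebcbc8))
 (c (a (nat_lit 0x9776faf8da7)) e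
 (c (a (nat_lit 0xd302a698e08)) e
 (c (a (nat_lit 0x84d8f4e73a8)) e
 (c (a (nat_lit 0x1713d4d6f8e8)) e
 (c (b (nat_lit 0x163197789fe8)) e
 (c z e
 (c (b (nat_lit 0x1f49fe56009)) e e)))))))
 (c (a (nat_lit 0x1abcba8026))
 (c (a (nat_lit 0x2c0e313467)) e
 (c (a (nat_lit 0x48a4cf05708)) e
 (c (a (nat_lit 0xab11389e8)) e
 (c (b (nat_lit 0x87356dff028)) e e))))
 (c (a (nat_lit 0x115c004005))
 (c (a (nat_lit 0x327aa4e3068)) e
 (c (b (nat_lit 0x1ff354940208)) e e))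
 (c (a (nat_lit 0x1b40202025))
 (c (a (nat_lit 0x1a7f904f5d65)) e
 (c (b (nat_lit 0x1ffffeba6025)) e
 (c (a (nat_lit 0x109bd0000007)) e e)))
 (c (a (nat_lit 0x2060a061))
 (c (a (nat_lit 0x1c1de10d4005)) e
 (c (a (nat_lit 0x12a0a0000006)) e e))
 (c (a (nat_lit 0xe06141))
 (c (a (nat_lit 0x14e000000004)) e e)
 (c (a (nat_lit 0x203f84)) e
 (c z e
 (c (a (nat_lit 0x21286c027)) e
 (c (a (nat_lit 0x201816181)) e
 (c (a (nat_lit 0xc080c001)) e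
 (c (a (nat_lit 0xc16001)) e
 (c (a (nat_lit 0xa020a001)) e
 (c (a (nat_lit 0x20203526)) e
 (c (a (nat_lit 0x241c22001)) e
 (c (a (nat_lit 0x40000001)) e e)))))))))))))))))
 C74)))) Tr.c Tr.e (nat_lit 0) C.cx C.cy
noncomputable def C76 : Tr := beta% (fun (c : Nat → Tr → Tr → Tr) (e : Tr) (z : Nat) (a b : Nat → Nat) =>
 (c (a (nat_lit 0x202021))
 (c (a (nat_lit 0x1efefeeccca7))
 (c (a (nat_lit 0x1bbe5b1aa0e085))
 (c (a (nat_lit 0xb2b88e86ad064e7))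
 (c z e
 (c (a (nat_lit 0x79289c0000000000a)) e e))
 (c (a (nat_lit 0x134d3371360ef089)) e
 (c (a (nat_lit 0xd2ecff5acf02ba9)) e e)))
 (c (a (nat_lit 0x11eb68a9406327)) e
 (c (a (nat_lit 0x13ad6ecd49f7a6)) e
 (c z e
 (c z e
 (c z e
 (c z e
 (c z e
 (c z e
 (c z e
 (c (a (nat_lit 0x13130245472008)) e e)))))))))))
 (c (a (nat_lit 0x185842002006))
 (c (a (nat_lit 0xa2081c0831167)) e
 (c (a (nat_lit 0x5c1c0652f9028)) e
 (c z e
 (c z e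
 (c z e
 (c z e
 (c z e
 (c z e
 (c z e
 (c (b (nat_lit 0x11bfea81800008)) e e))))))))))
 (c (a (nat_lit 0x174020202006))
 (c (a (nat_lit 0x2628cae99108))
 (c (a (nat_lit 0x12aa8d24ccbc6a29)) e
 (c (a (nat_lit 0x14934c949fe00009)) e e))
 (c (b (nat_lit 0x1fe141e06651e9))
 (c (a (nat_lit 0xd2bae1380000009)) e e) e))
 (c (a (nat_lit 0x160a0a04041))
 (c (a (nat_lit 0x14564e5307628))
 (c (a (nat_lit 0xed5b6e000000007)) e e) e)
 (c (a (nat_lit 0xa0c060ace1)) e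
 (c (a (nat_lit 0x20e61742))
 (c (a (nat_lit 0x2116c240e9e8)) e
 (c (b (nat_lit 0x45169462c9fe9)) e
 (c z e
 (c (a (nat_lit 0x7077983c00008)) e
 (c (a (nat_lit 0x1477c000000008)) e e)))))
 (c (a (nat_lit 0x82993f18304))
 (c z e
 (c z e
 (c (a (nat_lit 0xf1e0780000008)) e
 (c (a (nat_lit 0x16200000000008)) e e))))
 (c z e
 (c (a (nat_lit 0x102ffabab4e7)) e
 (c (a (nat_lit 0x165f9f9e5e48)) e
 (c z e
 (c (a (nat_lit 0x14f050300967)) e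
 (c (a (nat_lit 0x5a202230001)) e
 (c (a (nat_lit 0x8060605fc4)) e
 (c (a (nat_lit 0x20402ff005)) e
 (c (a (nat_lit 0x80a10140e1)) e
 (c (a (nat_lit 0x16242a00001)) e
 (c (nat_lit 1) e e))))))))))))))))))
 (c (a (nat_lit 0x202041))
 (c (a (nat_lit 0x160020202006))
 (c (a (nat_lit 0x2120210bf1c7)) e
 (c z e
 (c (b (nat_lit 0x1fffe10aebf8e7)) e e)))
 (c (a (nat_lit 0x301e1a0e001))
 (c (b (nat_lit 0x1fffe041e8f748))
 (c (a (nat_lit 0x407a689d465400a)) e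
 (c (a (nat_lit 0x1212fa9b4000000a)) e e))
 (c (a (nat_lit 0x22e4c4493a8a))
 (c (a (nat_lit 0xbd5af000000000a)) e e) e))
 (c (a (nat_lit 0x12100c1a541))
 (c (a (nat_lit 0x214082b03489))
 (c (a (nat_lit 0x16ed200000000008)) e e) e)
 (c (a (nat_lit 0x4040bbcd24)) e
 (c (b (nat_lit 0xe4ed01fe026)) e
 (c z e
 (c z e
 (c z e
 (c z e
 (c z e
 (c (a (nat_lit 0x1934d56f4948)) e
 (c (a (nat_lit 0x10f391a0a006)) e
 (c (a (nat_lit 0x36180705026)) e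
 (c (a (nat_lit 0x6242616001)) e
 (c (a (nat_lit 0x2747856001)) e
 (c (a (nat_lit 0x4c1e0000001)) e e))))))))))))))))
 (c (nat_lit 1)
 (c (a (nat_lit 0xa0c0a0c541))
 (c (a (nat_lit 0x266707313987))
 (c (a (nat_lit 0x10267cdfc8a00007)) e
 (c (a (nat_lit 0x109fd8c000000008)) e e))
 (c (a (nat_lit 0x204026d05029))
 (c (a (nat_lit 0x1fd3e00000000008)) e e) e))
 (c (a (nat_lit 0x159595d9c565))
 (c (a (nat_lit 0x2307ee920b69))
 (c (a (nat_lit 0x10e0000000000007)) e e) e)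
 (c (b (nat_lit 0xfb4395fffe6)) e
 (c z e
 (c z e
 (c z e
 (c z e
 (c z e
 (c z e
 (c z e
 (c z e
 (c (a (nat_lit 0x52800bb06)) e
 (c (a (nat_lit 0x8a7c05aba86)) e
 (c (a (nat_lit 0x118060600004)) e
 (c (nat_lit 1) e e)))))))))))))))
 (c (a (nat_lit 0x20202021))
 (c (a (nat_lit 0xea0de88101))
 (c (a (nat_lit 0x2990556c4087)) e e)
 (c z e
 (c z e
 (c z e
 (c z e
 (c z e
 (c z e
 (c z e
 (c z e
 (c (a (nat_lit 0x1b1c9cb20c68)) e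
 (c (a (nat_lit 0x767c0535346)) e
 (c (a (nat_lit 0x1941a1408002)) e
 (c (a (nat_lit 0x16160000001)) e e)))))))))))))
 (c (nat_lit 1)
 (c z e
 (c (a (nat_lit 0xf7152525008))
 (c (a (nat_lit 0x26d4078823a8)) e
 (c (b (nat_lit 0x1ff8d2ec200007)) e e))
 (c (a (nat_lit 0x59c3c74dc26))
 (c (b (nat_lit 0x1ff9aa40000005)) e e)
 (c (a (nat_lit 0x12d9999691c7)) e
 (c (a (nat_lit 0xab0bc8d068)) e
 (c z e
 (c z e
 (c z e
 (c (a (nat_lit 0x11933209c6a9)) e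
 (c (a (nat_lit 0x40150c7c027)) e
 (c (a (nat_lit 0x85010000007)) e
 (c (a (nat_lit 0x2a000000001)) e e))))))))))))
 (c (a (nat_lit 0x40402021))
 (c (a (nat_lit 0x10b19198f5e6))
 (c (a (nat_lit 0x138a0d0e20004)) e
 (c (a (nat_lit 0x3291e80000004)) e e))
 (c (a (nat_lit 0x141417b9fe07))
 (c (a (nat_lit 0x3f4000000003)) e e)
 (c (a (nat_lit 0x7e9e92e7048)) e
 (c (a (nat_lit 0xeae305d51c8)) e
 (c (a (nat_lit 0xb2d4c148288)) e
 (c z e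
 (c z e
 (c (a (nat_lit 0x1511ee84e548)) e
 (c (a (nat_lit 0x18191eac005)) e
 (c (a (nat_lit 0x7a40000003)) e e))))))))))
 (c (nat_lit 1)
 (c (a (nat_lit 0x101016177906)) e
 (c (a (nat_lit 0xbcdb0cfe7a7)) e
 (c (b (nat_lit 0x749522b7fe7)) e
 (c (a (nat_lit 0xd909b720467)) e
 (c z e
 (c z e
 (c (a (nat_lit 0x2864382f649)) e
 (c (a (nat_lit 0x1704ee00006)) e
 (c (a (nat_lit 0x166000000002)) e e)))))))))
 (c (a (nat_lit 0x20203746))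
 (c (a (nat_lit 0xdd2cf67e0e6)) e
 (c (a (nat_lit 0x1d5abd1eabe7)) e
 (c (b (nat_lit 0x80fd9ffe968)) e
 (c z e
 (c z e
 (c (a (nat_lit 0x1a17f2f52007)) e
 (c (a (nat_lit 0x1ce0000004)) e e)))))))
 (c (a (nat_lit 0x62692ef87))
 (c (a (nat_lit 0xd0cd596e607)) e
 (c (a (nat_lit 0x8133877f6a8)) e
 (c z e
 (c z e
 (c (a (nat_lit 0x424d8800008)) e
 (c (a (nat_lit 0xe000000001)) e e))))))
 (c (a (nat_lit 0x3d615f568))
 (c (a (nat_lit 0x67515156568)) e e)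
 (c z e
 (c (a (nat_lit 0x1050402006)) e
 (c (a (nat_lit 0x1fa0202005)) e
 (c (a (nat_lit 0x40006001)) e
 (c (a (nat_lit 0xc0a080e1)) e
 (c (a (nat_lit 0x20cc41)) e
 (c (a (nat_lit 0x1452ec1)) e
 (c (a (nat_lit 0x162e761)) e
 (c (a (nat_lit 0x122c44061)) e
 (c (a (nat_lit 0x1ae0202004)) e
 (c (a (nat_lit 0x4040a001)) e
 (c (a (nat_lit 0x380c04001)) e
 (c (a (nat_lit 0x100000001)) e e)))))))))))))))))))))))) Tr.c Tr.e (nat_lit 0) C.cx C.cy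
noncomputable def C77 : Tr := beta% (fun (c : Nat → Tr → Tr → Tr) (e : Tr) (z : Nat) (a b : Nat → Nat) =>
 (c (a (nat_lit 0x2021))
 (c (a (nat_lit 0x1d9e03c02006))
 (c (a (nat_lit 0x1e0418100d287)) e
 (c (a (nat_lit 0x50260e056b4c8)) e
 (c z e
 (c z e
 (c z e
 (c z e
 (c z e
 (c z e
 (c z e
 (c (a (nat_lit 0x1124eb49a00009)) e e))))))))))
 (c (a (nat_lit 0x1a6020202027))
 (c (a (nat_lit 0xa094c72b110c8)) e e)
 (c (a (nat_lit 0x2e0c160e0c1)) e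
 (c (a (nat_lit 0xc121e26bc1)) e
 (c (a (nat_lit 0x2040a37c64))
 (c (a (nat_lit 0x382e5d5aa07a9)) e e)
 (c z e
 (c z e
 (c z e
 (c z e
 (c z e
 (c z e
 (c (a (nat_lit 0x18d91d51a006)) e
 (c (a (nat_lit 0x1404034e7)) e
 (c (a (nat_lit 0x1404034e7c7)) e
 (c (b (nat_lit 0x1ffffac04026)) e
 (c (b (nat_lit 0x1ffaa0200006)) e
 (c (a (nat_lit 0x1aa000000006)) e e)))))))))))))))))
 (c (a (nat_lit 0x21))
 (c (a (nat_lit 0x2a16180a081))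
 (c (a (nat_lit 0x4222a2e4b165))
 (c (a (nat_lit 0x8684a5dda656008)) e
 (c (a (nat_lit 0x74ad14d0000000a)) e e))
 (c (a (nat_lit 0x20602022b849))
 (c (a (nat_lit 0x18f8d5c000000009)) e e)
 (c (a (nat_lit 0xa02025ec70aa)) e
 (c z e
 (c z e
 (c z e
 (c (a (nat_lit 0x19b6f1f4937189)) e
 (c (b (nat_lit 0x1e5fe70d800006)) e
 (c (a (nat_lit 0x11c3e000000007)) e e)))))))))
 (c (a (nat_lit 0x10161c22001))
 (c (a (nat_lit 0x602023981cc9))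
 (c (a (nat_lit 0x12ddc00000000007)) e e)
 (c z e
 (c z e
 (c z e
 (c z e
 (c (a (nat_lit 0x1a13f870cb000a)) e
 (c (a (nat_lit 0x102d85c000000a)) e e)))))))
 (c (b (nat_lit 0x1212174bfe5)) e
 (c (a (nat_lit 0x101029bd6ca6)) e
 (c z e
 (c z e
 (c (a (nat_lit 0x1a3b5b5a9769)) e
 (c (a (nat_lit 0xccc92ae6f08)) e
 (c z e
 (c z e
 (c (a (nat_lit 0x1272504dac48)) e
 (c (a (nat_lit 0x8a4a0314dc7)) e
 (c (a (nat_lit 0x13576f2060a5)) e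
 (c (a (nat_lit 0x176f20406005)) e
 (c (a (nat_lit 0x1be020000004)) e e)))))))))))))))
 (c (a (nat_lit 0x20204021))
 (c (a (nat_lit 0x4040b017e3))
 (c (a (nat_lit 0x212c8dd62046))
 (c (a (nat_lit 0x1d20000000000004)) e e)
 (c z e
 (c z e
 (c z e
 (c z e
 (c (a (nat_lit 0x150ec5c0c00008)) e
 (c (a (nat_lit 0x1147a000000008)) e e)))))))
 (c (b (nat_lit 0xa2a731fffe7)) e
 (c z e
 (c z e
 (c z e
 (c (a (nat_lit 0x1998ef282e87)) e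
 (c (a (nat_lit 0x6c031b8d587)) e
 (c z e
 (c z e
 (c (a (nat_lit 0x1354f1cd6b09)) e
 (c (a (nat_lit 0x10e4e0537367)) e
 (c (a (nat_lit 0x1a3c16402a1)) e
 (c (a (nat_lit 0x1c0c1000001)) e
 (c (a (nat_lit 0x2000000001)) e e))))))))))))))
 (c (a (nat_lit 0x20202041))
 (c z e
 (c (a (nat_lit 0x1358179430a8))
 (c (a (nat_lit 0x1170ef88e807a8)) e
 (c (a (nat_lit 0x1e11e86404c008)) e
 (c (a (nat_lit 0x1c9a7340000006)) e e)))
 (c (a (nat_lit 0x169d9e7e9865))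
 (c (a (nat_lit 0x1ae1a571000005)) e
 (c (b (nat_lit 0x1ff10000000005)) e e))
 (c (a (nat_lit 0xe8a0aa1daa4)) e
 (c (a (nat_lit 0x2020235207)) e
 (c (a (nat_lit 0x202e7d4f47)) e
 (c z e
 (c z e
 (c z e
 (c (a (nat_lit 0xeea2b9b6a27)) e
 (c (a (nat_lit 0x10cb6ac02008)) e
 (c (a (nat_lit 0x13a040000003)) e e))))))))))))
 (c (a (nat_lit 0x20202041))
 (c (a (nat_lit 0xeb616959b66))
 (c (a (nat_lit 0x1c778807acc5c5)) e
 (c (a (nat_lit 0x15834325e00006)) e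
 (c (a (nat_lit 0x1e772000000003)) e e)))
 (c (a (nat_lit 0x10b1d1d577c7))
 (c (a (nat_lit 0x8c67f60000002)) e
 (c (a (nat_lit 0x19600000000003)) e e))
 (c (a (nat_lit 0xe4e71f09507)) e
 (c (a (nat_lit 0x688476875a8)) e
 (c (a (nat_lit 0x18f799fffa27)) e
 (c z e
 (c z e
 (c (a (nat_lit 0x110e350945c8)) e
 (c (a (nat_lit 0x507cdd3625)) e
 (c (a (nat_lit 0x8da7b200004)) e
 (c (a (nat_lit 0x2000000001)) e e)))))))))))
 (c (a (nat_lit 0x40404061))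
 (c (a (nat_lit 0x103050365626)) e
 (c (a (nat_lit 0xeaeb0b35587)) e
 (c (a (nat_lit 0xff2325dae27)) e
 (c (a (nat_lit 0x12f2f7bb6de7)) e
 (c z e
 (c z e
 (c (a (nat_lit 0xb90918041a8)) e
 (c (a (nat_lit 0x2ab51662006)) e
 (c (a (nat_lit 0x102e40000005)) e e)))))))))
 (c (nat_lit 1)
 (c (a (nat_lit 0x12f176b710a6)) e
 (c (a (nat_lit 0xed19b2b0067)) e
 (c (a (nat_lit 0x12108eb88b07)) e
 (c z e
 (c z e
 (c (a (nat_lit 0x4c866409a89)) e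
 (c (a (nat_lit 0x31e3ce00004)) e
 (c (a (nat_lit 0xa0000000001)) e e))))))))
 (c (a (nat_lit 0x20201a26))
 (c (a (nat_lit 0x12d9d3cba085)) e
 (c (a (nat_lit 0xca91568a047)) e
 (c z e
 (c z e
 (c (b (nat_lit 0x1fe5a3190008)) e
 (c (a (nat_lit 0x1552e0000004)) e e))))))
 (c (a (nat_lit 0xa0bb9ae6))
 (c (a (nat_lit 0x662df374fc6)) e
 (c (b (nat_lit 0xbbf9dffffe7)) e
 (c z e
 (c (b (nat_lit 0x1fe6bda00008)) e
 (c (a (nat_lit 0x6000000001)) e e)))))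
 (c (a (nat_lit 0xd785814c8))
 (c (b (nat_lit 0x115c8cbfffe7)) e e)
 (c z e
 (c (a (nat_lit 0x12d2c02006)) e
 (c (a (nat_lit 0x10a0402026)) e
 (c (a (nat_lit 0x140606041)) e
 (c (a (nat_lit 0x608080c1)) e
 (c (a (nat_lit 0x80cb21)) e
 (c (a (nat_lit 0x40d824)) e
 (c (a (nat_lit 0x11c1811742)) e
 (c (a (nat_lit 0x2c1226201)) e
 (c (a (nat_lit 0xc16101)) e
 (c (a (nat_lit 0x18c1614082)) e
 (c (a (nat_lit 0x300e00001)) e e))))))))))))))))))))))) Tr.c Tr.e (nat_lit 0) C.cx C.cy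
noncomputable def C78 : Tr := beta% (fun (c : Nat → Tr → Tr → Tr) (e : Tr) (z : Nat) (a b : Nat → Nat) =>
 (c (nat_lit 1)
 (c (a (nat_lit 0x20202021))
 (c (a (nat_lit 0x14141573746))
 (c (a (nat_lit 0x10d0ceefa66005))
 (c (a (nat_lit 0x26385aa2db04ee6))
 (c z e
 (c (a (nat_lit 0x2a283c56cd7d32ca9)) e
 (c (a (nat_lit 0x707e92b96b63149a9)) e e)))
 (c z e
 (c z e
 (c (a (nat_lit 0xcd03157caea2e48)) e
 (c (a (nat_lit 0x177cbdd637943428)) e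
 (c (a (nat_lit 0xf508bd0310cad09)) e
 (c (a (nat_lit 0x121496d6f0efd108)) e
 (c (a (nat_lit 0x11090b4646a82549)) e
 (c (a (nat_lit 0x1b37ae90c9a00007)) e
 (c (a (nat_lit 0x1f4923e000000006)) e e))))))))))
 (c z e
 (c z e
 (c (a (nat_lit 0x144a2b8fc42566))
 (c (a (nat_lit 0x1ff7751694d8f549)) e e)
 (c (a (nat_lit 0x1a9a33b6402146))
 (c (a (nat_lit 0x1430921031d2cd89)) e e)
 (c (a (nat_lit 0x1b5b5b7e9ca006))
 (c z e
 (c (a (nat_lit 0x12b49c4b20000008)) e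
 (c (a (nat_lit 0x1dd1c00000000008)) e e)))
 (c (a (nat_lit 0xbae4ef129c006))
 (c (a (nat_lit 0x11f7e92000000007)) e
 (c (a (nat_lit 0x15c0000000000007)) e e))
 (c (a (nat_lit 0xe113213478f46)) e
 (c (a (nat_lit 0x26c4bf02f5626)) e
 (c (a (nat_lit 0x185ca39d553e6)) e
 (c (a (nat_lit 0x46a993fd42da6)) e
 (c z e
 (c z e
 (c (a (nat_lit 0x402c1db800007)) e
 (c (a (nat_lit 0x1d8ea000000007)) e e)))))))))))))))
 (c (a (nat_lit 0x203dbdbda8))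
 (c z e
 (c z e
 (c z e
 (c z e
 (c (b (nat_lit 0xe185fdfffe467)) e
 (c (b (nat_lit 0x1a3b1e3fedb007))
 (c (a (nat_lit 0x194d600000000008)) e e)
 (c (b (nat_lit 0x733b77febf9a7)) e
 (c z e
 (c z e
 (c z e
 (c z e
 (c z e
 (c z e
 (c (a (nat_lit 0x18200000000008)) e e))))))))))))))
 (c z e
 (c (a (nat_lit 0x1a9a9a8e0de8))
 (c (a (nat_lit 0x16ec720b005687)) e
 (c z e
 (c z e
 (c z e
 (c z e
 (c z e
 (c (a (nat_lit 0x151315de448ec9)) e e)))))))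
 (c (a (nat_lit 0x1091e9c9a9a8))
 (c (b (nat_lit 0x25fe1a0f0f028))
 (c (a (nat_lit 0x14394eeea3800008)) e e)
 (c z e
 (c z e
 (c z e
 (c z e
 (c (a (nat_lit 0x10cf18cccaa89)) e e))))))
 (c (a (nat_lit 0x1ae020202026))
 (c z e
 (c (a (nat_lit 0x65a5cc953c88)) e
 (c (a (nat_lit 0x347d29c7d1668)) e
 (c (a (nat_lit 0x6abf643af49)) e
 (c z e
 (c (a (nat_lit 0x12a5caba626008)) e e))))))
 (c (a (nat_lit 0x260c0e08001))
 (c (a (nat_lit 0x121824415b6e8)) e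
 (c (a (nat_lit 0x1429c8f75e9)) e
 (c (a (nat_lit 0x617b138dc329)) e
 (c (a (nat_lit 0x36d76b0628009)) e
 (c (a (nat_lit 0xb95af84c00009)) e e)))))
 (c (a (nat_lit 0x1a161612c81))
 (c (a (nat_lit 0x60f224ec2089)) e
 (c (a (nat_lit 0xf26a4b81204a)) e
 (c (a (nat_lit 0x1e151b83c10009)) e
 (c (a (nat_lit 0xb516200000009)) e e))))
 (c (a (nat_lit 0x404041d884))
 (c (a (nat_lit 0x166c66c220e029)) e
 (c (a (nat_lit 0xf3125c2000009)) e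
 (c (a (nat_lit 0x1804e000000008)) e e)))
 (c (a (nat_lit 0xa6a9136e9c6))
 (c (a (nat_lit 0x10838060000008)) e
 (c (a (nat_lit 0x1f800000000005)) e e))
 (c (a (nat_lit 0x4c64fd06ec7)) e
 (c z e
 (c z e
 (c (a (nat_lit 0x1180606080e4)) e
 (c (a (nat_lit 0x10265e3c1)) e
 (c (a (nat_lit 0x160816701)) e
 (c (a (nat_lit 0x20411ec4)) e
 (c (a (nat_lit 0x20de9e24)) e
 (c (a (nat_lit 0x382c5600001)) e
 (c (nat_lit 1) e e))))))))))))))))))))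
 (c (a (nat_lit 0x40404041))
 (c (a (nat_lit 0x1171716469)) e
 (c (a (nat_lit 0x1c1c1c0746c9))
 (c (b (nat_lit 0x1ad0ffefa04108)) e
 (c (a (nat_lit 0xecb4947e1b369)) e e))
 (c (a (nat_lit 0x1abbc0202007))
 (c (a (nat_lit 0xeea687f614e8)) e e)
 (c (a (nat_lit 0x1b0020202007)) e
 (c (a (nat_lit 0x44241c0e0c1))
 (c z e
 (c (a (nat_lit 0x52d18bb9d9809)) e
 (c (b (nat_lit 0x1fe9f3dcd03129)) e e)))
 (c (a (nat_lit 0x1a140e198a1))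
 (c (a (nat_lit 0x61a1f4aa0349)) e
 (c (a (nat_lit 0x611aea07408a)) e
 (c z e
 (c (a (nat_lit 0x1cfb35f18c4009)) e
 (c (a (nat_lit 0x12268980000008)) e e)))))
 (c (a (nat_lit 0x4040637d04))
 (c (a (nat_lit 0x304547e0c0ca)) e
 (c z e
 (c (a (nat_lit 0x1010c865e0000a)) e
 (c (a (nat_lit 0x10c84000000008)) e e))))
 (c (a (nat_lit 0xff010922f88)) e
 (c (a (nat_lit 0xf50f3b3d369)) e
 (c (a (nat_lit 0xd949a5c1588)) e
 (c z e
 (c z e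
 (c (a (nat_lit 0x1312f30120e5)) e
 (c (a (nat_lit 0x10166a3e001)) e
 (c (a (nat_lit 0x40403f65)) e
 (c (a (nat_lit 0x60805f9f85)) e
 (c (a (nat_lit 0x1307e8c34001)) e
 (c (a (nat_lit 0x364a0000001)) e e))))))))))))))))))
 C77))
 (c (a (nat_lit 0x202021)) C76
 (c (a (nat_lit 0x202021))
 (c (a (nat_lit 0x20202021))
 (c (a (nat_lit 0xc080402001))
 (c (a (nat_lit 0x120248d357505))
 (c (a (nat_lit 0xc4bd3b0af9af426)) e
 (c (a (nat_lit 0xfd471af15baf048)) e e))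
 (c (b (nat_lit 0x1febc9cfafb747))
 (c (a (nat_lit 0xead2c2d16a78009)) e
 (c (a (nat_lit 0x13355a1680000009)) e e))
 (c (a (nat_lit 0x300e686a9d087)) e
 (c (a (nat_lit 0xa0ff45796e027)) e e))))
 (c (a (nat_lit 0x1614100e001))
 (c (a (nat_lit 0x204363cbf0e8))
 (c (a (nat_lit 0xb0c8a71e3800009)) e
 (c (a (nat_lit 0x1f9c388000000009)) e e))
 (c (a (nat_lit 0x25064a900729))
 (c (a (nat_lit 0x1cf1600000000009)) e e) e))
 (c (b (nat_lit 0x6060f9bfe2))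
 (c (a (nat_lit 0x129296393174c8))
 (c (a (nat_lit 0x19e0000000000007)) e e) e)
 (c (b (nat_lit 0x8eaf15fffe6)) e
 (c z e
 (c (a (nat_lit 0x144f6f8f8867))
 (c (a (nat_lit 0x1a31721c076007)) e e)
 (c z e
 (c z e
 (c z e
 (c (a (nat_lit 0x1894976ec046)) e
 (c (a (nat_lit 0x1051d7aca027)) e
 (c (a (nat_lit 0x1bd7f89e7de5)) e
 (c (a (nat_lit 0xa3b3cdc85)) e
 (c (a (nat_lit 0x112061612104)) e
 (c (a (nat_lit 0x481400001)) e
 (c (a (nat_lit 0x12000000001)) e e))))))))))))))))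
 (c (a (nat_lit 0x20404021))
 (c (a (nat_lit 0x11717191c005))
 (c (a (nat_lit 0x2ecf8f5ffa86))
 (c (a (nat_lit 0x1c79dd47a0000007)) e e)
 (c (a (nat_lit 0x43ea4f4ad249)) e
 (c z e
 (c (a (nat_lit 0x1191c52fcf8729)) e
 (c (b (nat_lit 0x1bdfeb0b2435a8)) e e)))))
 (c (a (nat_lit 0x12d3199958c5))
 (c (a (nat_lit 0x62b924c12ec09)) e e)
 (c z e
 (c (a (nat_lit 0x13f1f2121008)) e
 (c (a (nat_lit 0x1797bb33a3e7))
 (c (a (nat_lit 0xf50cb89600008)) e e)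
 (c z e
 (c z e
 (c z e
 (c (a (nat_lit 0x102b8c698509)) e
 (c (b (nat_lit 0x1c3b5bcb1fe8)) e
 (c (a (nat_lit 0x149a75f5a427)) e
 (c (a (nat_lit 0x360219dc6)) e
 (c (b (nat_lit 0x1fe0a1dd8005)) e
 (c (a (nat_lit 0x6860000001)) e e))))))))))))))
 (c (a (nat_lit 0x20202021))
 (c (a (nat_lit 0x109070706b48))
 (c (a (nat_lit 0x13557093b23288)) e e)
 (c z e
 (c z e
 (c z e
 (c z e
 (c z e
 (c z e
 (c z e
 (c z e
 (c (a (nat_lit 0x151595a04167)) e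
 (c (a (nat_lit 0x26ea4d25a1)) e
 (c (a (nat_lit 0x5c1c00001)) e
 (c (a (nat_lit 0x2000000001)) e e)))))))))))))
 (c (nat_lit 1)
 (c z e
 (c (a (nat_lit 0x9ca4e304e28))
 (c (a (nat_lit 0x174e6b6cc0a007)) e
 (c (a (nat_lit 0xddc36e0000007)) e e))
 (c (b (nat_lit 0x1ff9fa1c2366))
 (c (a (nat_lit 0x1e306000000001)) e e)
 (c z e
 (c z e
 (c z e
 (c z e
 (c z e
 (c (a (nat_lit 0x12cba1afa047)) e
 (c (a (nat_lit 0x32d7e02006)) e
 (c (a (nat_lit 0x18c0a0000005)) e e)))))))))))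
 (c (a (nat_lit 0x204041))
 (c (a (nat_lit 0x9b1b911b3a6))
 (c (a (nat_lit 0x94c7169000003)) e
 (c (a (nat_lit 0x2cc000000001)) e e))
 (c (a (nat_lit 0x11937352a9e7)) e
 (c (b (nat_lit 0x10b1975fe027)) e
 (c z e
 (c z e
 (c (a (nat_lit 0xf362f65cee8)) e
 (c z e
 (c (a (nat_lit 0x9e10361b3a8)) e
 (c (a (nat_lit 0xa3740400005)) e
 (c (a (nat_lit 0x170000000005)) e e))))))))))
 (c (a (nat_lit 0x20203646))
 (c (a (nat_lit 0xb6f0f912ec6)) e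
 (c (a (nat_lit 0xd4e93276ae7)) e
 (c z e
 (c z e
 (c (a (nat_lit 0x17a7c9e6c088)) e
 (c (b (nat_lit 0x76aee5ebfe7)) e
 (c (a (nat_lit 0x10aa6e90a006)) e
 (c (a (nat_lit 0x15c0000004)) e e))))))))
 (c (a (nat_lit 0x173706))
 (c (a (nat_lit 0x10ceecf4a027)) e
 (c z e
 (c z e
 (c z e
 (c z e
 (c (a (nat_lit 0x48510800008)) e
 (c (a (nat_lit 0xde000000001)) e e)))))))
 (c z e
 (c (a (nat_lit 0x125251cac9))
 (c (a (nat_lit 0x11b2938f04a9)) e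
 (c (b (nat_lit 0x1b9c3ff225e8)) e e))
 (c (a (nat_lit 0x1a5a4985c6))
 (c (a (nat_lit 0x6d4cfa16007)) e e)
 (c (a (nat_lit 0x1000202006)) e
 (c (a (nat_lit 0x60208001)) e
 (c (a (nat_lit 0x1a100a101)) e
 (c (a (nat_lit 0x120a0c001)) e
 (c (a (nat_lit 0x189da722e1)) e
 (c (a (nat_lit 0x58180c001)) e
 (c (a (nat_lit 0x16a0202025)) e
 (c (a (nat_lit 0x10146e1)) e
 (c (a (nat_lit 0x819222)) e
 (c (a (nat_lit 0x40416021)) e
 (c (a (nat_lit 0x261e00001)) e e)))))))))))))))))))))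
 C75)))) Tr.c Tr.e (nat_lit 0) C.cx C.cy
noncomputable def C79 : Tr := beta% (fun (c : Nat → Tr → Tr → Tr) (e : Tr) (z : Nat) (a b : Nat → Nat) =>
 (c (a (nat_lit 0x20202021))
 (c (a (nat_lit 0x11a363636346))
 (c (a (nat_lit 0x1f4a67898d2d05))
 (c (a (nat_lit 0x6e6a7e9b22e0328)) e
 (c (a (nat_lit 0xb4cb25d0da00009)) e e))
 (c (a (nat_lit 0x52024e78698a6))
 (c (a (nat_lit 0x7cc52e68000000a)) e e)
 (c (a (nat_lit 0x2041439191e8)) e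
 (c (a (nat_lit 0x2748b33f14e7)) e
 (c (a (nat_lit 0xc4111eb18b67)) e
 (c z e
 (c (a (nat_lit 0x12d776ab52fbe8)) e
 (c (a (nat_lit 0x1fdb5f55f5a006)) e
 (c (a (nat_lit 0x19386580000006)) e e)))))))))
 (c (a (nat_lit 0x5e3a3c302e1))
 (c (a (nat_lit 0x2161a1a694e8))
 (c (a (nat_lit 0xbd6c58000000009)) e e)
 (c (a (nat_lit 0x62889458c9)) e
 (c (a (nat_lit 0x2256a3273cf69)) e
 (c (a (nat_lit 0xc7f1b8cd0c09)) e
 (c z e
 (c (a (nat_lit 0xb948f524fe969)) e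
 (c (a (nat_lit 0x112deea7200009)) e
 (c (a (nat_lit 0x10886000000009)) e e))))))))
 (c (a (nat_lit 0x10161822401))
 (c (a (nat_lit 0x324e6e741a48)) e
 (c z e
 (c (a (nat_lit 0xacc10d0cc2a6a)) e e)))
 (c (a (nat_lit 0x1b9b9bbbb546))
 (c (a (nat_lit 0x10d351938fae88)) e
 (c (a (nat_lit 0x1a56f46e529848)) e e))
 (c (a (nat_lit 0x1fbfd8597106))
 (c (a (nat_lit 0x1bc6b6751eeb07)) e e)
 (c z e
 (c (a (nat_lit 0x1bfa5a5a7748)) e
 (c (a (nat_lit 0x10d0b0ae0e28)) e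
 (c (a (nat_lit 0xa6a78383a27)) e
 (c (a (nat_lit 0x10b7589998a8)) e
 (c (a (nat_lit 0x1a5abcb95827)) e
 (c (a (nat_lit 0x3d2e10037a4)) e
 (c (a (nat_lit 0x924e07938a4)) e
 (c (a (nat_lit 0x11e122e14001)) e
 (c (a (nat_lit 0x24620e00001)) e
 (c (a (nat_lit 0x54000000001)) e e))))))))))))))))
 (c (a (nat_lit 0x20202021))
 (c (a (nat_lit 0x989ca0a24a1))
 (c (a (nat_lit 0x20206385b5c7))
 (c (a (nat_lit 0x15c3a00000000007)) e e)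
 (c (a (nat_lit 0x226120a09ba8)) e
 (c (a (nat_lit 0x7ef3b90f848)) e
 (c (a (nat_lit 0x5a8b1ac09e729)) e
 (c z e
 (c (a (nat_lit 0x13ad4d4902a008)) e
 (c (a (nat_lit 0x14928860000008)) e
 (c (a (nat_lit 0x12200000000007)) e e))))))))
 (c (a (nat_lit 0x11113178ce64))
 (c (a (nat_lit 0x32049338d6e69)) e
 (c z e
 (c z e
 (c z e
 (c z e
 (c (a (nat_lit 0x12884000000009)) e e))))))
 (c (a (nat_lit 0x1c5c7cdd9847))
 (c (a (nat_lit 0xed858548e6cc9)) e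
 (c (a (nat_lit 0x1d36542c290bc9)) e e))
 (c (a (nat_lit 0x1d7e9c5c54a7))
 (c (a (nat_lit 0x669dfd6f8587)) e e)
 (c z e
 (c (a (nat_lit 0x12d2ac81c2c6)) e
 (c (a (nat_lit 0x202022b266)) e
 (c (a (nat_lit 0x8282fb391e8)) e
 (c (a (nat_lit 0x9edd04f8fe9)) e
 (c (a (nat_lit 0x1539b957b308)) e
 (c (a (nat_lit 0x174bc0a0c063)) e
 (c (a (nat_lit 0x148161008002)) e
 (c (a (nat_lit 0x3a42180a001)) e
 (c (a (nat_lit 0x52220000001)) e e))))))))))))))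
 (c (a (nat_lit 0x20202021))
 (c (a (nat_lit 0x113138d96647))
 (c (a (nat_lit 0x14fc9fcf8d6b87)) e
 (c z e
 (c (a (nat_lit 0x152cc9262627c8)) e e)))
 (c (a (nat_lit 0xdff95137387))
 (c (a (nat_lit 0x1e100bab6c2727)) e
 (c (a (nat_lit 0x94b30c8c6a807)) e
 (c (a (nat_lit 0x1f05dc6000006)) e e)))
 (c (a (nat_lit 0x11fc1c1c53e5))
 (c (a (nat_lit 0x7fb4775938005)) e
 (c (a (nat_lit 0x1326e60000003)) e e))
 (c (a (nat_lit 0x9e3674a8901))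
 (c (a (nat_lit 0x1821a000000005)) e e)
 (c (a (nat_lit 0x1618120bd22)) e
 (c (a (nat_lit 0x202021f266)) e
 (c (a (nat_lit 0x5a593dbf4e7)) e
 (c (a (nat_lit 0xb11b1d14589)) e
 (c (a (nat_lit 0x1837770e4f68)) e
 (c (a (nat_lit 0xdec279b1b06)) e
 (c (a (nat_lit 0x114040402005)) e
 (c (a (nat_lit 0x127252400006)) e
 (c (a (nat_lit 0x1e000000001)) e e)))))))))))))
 (c (a (nat_lit 0x20000001))
 (c (a (nat_lit 0x189d7cdcd885))
 (c (a (nat_lit 0x150b4384444606)) e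
 (c (a (nat_lit 0x16a32546448006)) e
 (c (a (nat_lit 0x97003c0000004)) e e)))
 (c (a (nat_lit 0x10f232929626))
 (c (a (nat_lit 0x1e8b76ac00003)) e
 (c (a (nat_lit 0x13ca6000000004)) e e))
 (c (a (nat_lit 0xeef2f32ce86))
 (c (a (nat_lit 0x1dc00000000001)) e e)
 (c (a (nat_lit 0xe6e71ac2f06)) e
 (c (a (nat_lit 0xace698c72e6)) e
 (c (a (nat_lit 0xdecd4358ce8)) e
 (c (a (nat_lit 0xef2726cec09)) e
 (c (a (nat_lit 0x19f3712deb87)) e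
 (c (a (nat_lit 0x481eeae32a6)) e
 (c (a (nat_lit 0x55b6e92004)) e
 (c (a (nat_lit 0x84da0000001)) e e)))))))))))
 (c (nat_lit 1)
 (c (a (nat_lit 0xfd010501345))
 (c (a (nat_lit 0x1262a0000001)) e e)
 (c (a (nat_lit 0x10b0d0d05526)) e
 (c (a (nat_lit 0x7e7c7883187)) e
 (c (a (nat_lit 0xd8d0e747746)) e
 (c (a (nat_lit 0x1515b875cf87)) e
 (c (a (nat_lit 0xd17951551c8)) e
 (c (a (nat_lit 0x14eb8dcf2067)) e
 (c (a (nat_lit 0x3b3fa12d2a5)) e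
 (c (a (nat_lit 0x1914d400004)) e
 (c (a (nat_lit 0x1f8000000001)) e e))))))))))
 (c (a (nat_lit 0x20000001))
 (c (a (nat_lit 0xdada7b07485)) e
 (c (a (nat_lit 0x9e7ca12c487)) e
 (c (a (nat_lit 0xe739896cb66)) e
 (c (a (nat_lit 0x104d26e6ca27)) e
 (c z e
 (c (a (nat_lit 0xcced1a60067)) e
 (c (a (nat_lit 0x21131aa4005)) e
 (c (a (nat_lit 0x480000001)) e e))))))))
 (c (nat_lit 1)
 (c (a (nat_lit 0x828f8876026)) e
 (c (a (nat_lit 0x1011cd291206)) e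
 (c (a (nat_lit 0x1ceca57f1be6)) e
 (c z e
 (c (a (nat_lit 0xc2e2e15a48)) e
 (c (a (nat_lit 0x308fa00004)) e
 (c (a (nat_lit 0x6e000000001)) e e)))))))
 (c (a (nat_lit 0x20203ba5))
 (c (a (nat_lit 0x1c6ce5405324)) e
 (c (a (nat_lit 0x7a0dbc06005)) e
 (c z e
 (c (a (nat_lit 0x204124008)) e
 (c (a (nat_lit 0x580000001)) e e)))))
 (c (a (nat_lit 0x6c6d554a6))
 (c (b (nat_lit 0x15d8f3fe5)) e
 (c (a (nat_lit 0x406f202a449)) e
 (c (a (nat_lit 0x7fda00007)) e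
 (c (a (nat_lit 0x2000000001)) e e))))
 (c (a (nat_lit 0x171bbcdc68))
 (c (a (nat_lit 0xcdfcde46008)) e e)
 (c (a (nat_lit 0x10d0d0e767)) e
 (c (a (nat_lit 0x11f1e94686)) e
 (c (a (nat_lit 0x12e1816165)) e
 (c (a (nat_lit 0xc00060a1)) e
 (c (a (nat_lit 0x406141)) e
 (c (a (nat_lit 0x208341)) e
 (c (a (nat_lit 0x12d330d584)) e
 (c (a (nat_lit 0x13e2c0c0a1)) e
 (c (a (nat_lit 0x201208021)) e
 (c (a (nat_lit 0x7616060a1)) e
 (c (a (nat_lit 0x2a1610001)) e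
 (c (a (nat_lit 0xe0000001)) e e))))))))))))))))))))))) Tr.c Tr.e (nat_lit 0) C.cx C.cy
noncomputable def C80 : Tr := beta% (fun (c : Nat → Tr → Tr → Tr) (e : Tr) (z : Nat) (a b : Nat → Nat) =>
 (c (a (nat_lit 0x20202021))
 (c (a (nat_lit 0x10c7))
 (c (a (nat_lit 0x17373733d4e025))
 (c (a (nat_lit 0x230446ccf2d407))
 (c (a (nat_lit 0x3a2e1a2e4ca2db548)) e
 (c (a (nat_lit 0x2616143a6cf5a502a)) e
 (c (a (nat_lit 0x444a5e76c38b22caa)) e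
 (c z e
 (c (a (nat_lit 0x11d5967ab200000009)) e e)))))
 (c z e
 (c z e
 (c z e
 (c (a (nat_lit 0x121417bab0719089)) e
 (c (a (nat_lit 0x19f85af0d93a91a9)) e
 (c (a (nat_lit 0x10705253d3cd6e09)) e
 (c (a (nat_lit 0xf3eef55ab0caf69)) e
 (c (a (nat_lit 0x1aac0bc6c8c54009)) e
 (c (a (nat_lit 0x14b0c70580000008)) e
 (c (a (nat_lit 0x14c0200000000007)) e e)))))))))))
 (c (b (nat_lit 0x1d7d9c5fffe026))
 (c z e
 (c z e
 (c z e
 (c z e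
 (c z e
 (c z e
 (c z e
 (c z e
 (c (a (nat_lit 0x126ac0a000000008)) e e)))))))))
 (c z e
 (c z e
 (c (a (nat_lit 0x11b2ca23834027))
 (c (a (nat_lit 0x1dde7bdab3d89869)) e e)
 (c (a (nat_lit 0xc40c0a0bcc004))
 (c z e
 (c (a (nat_lit 0x1a3a7d7cac600008)) e
 (c (a (nat_lit 0xc5048c000000009)) e e)))
 (c (a (nat_lit 0x276c512005))
 (c (a (nat_lit 0x1459184a60000007)) e
 (c (a (nat_lit 0x148a000000000008)) e e))
 (c (a (nat_lit 0x58badd8d24)) e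
 (c (a (nat_lit 0x4142e250ade7)) e
 (c (a (nat_lit 0x1896d3138b247)) e
 (c (a (nat_lit 0x1e2cdb6f3e9a7)) e
 (c z e
 (c z e
 (c (a (nat_lit 0x222120b6a008)) e
 (c (a (nat_lit 0x15350a40000008)) e
 (c (a (nat_lit 0x15c00000000007)) e e))))))))))))))))
 (c (a (nat_lit 0x2020305048))
 (c z e
 (c z e
 (c z e
 (c z e
 (c (a (nat_lit 0xd8eae90280269))
 (c z e
 (c (a (nat_lit 0xedc9aef4000000a)) e
 (c (a (nat_lit 0x168aa0000000000a)) e e)))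
 (c (a (nat_lit 0xe51b4164e5507))
 (c (a (nat_lit 0x1b5b4bc000000008)) e
 (c (a (nat_lit 0x1480000000000008)) e e))
 (c (a (nat_lit 0xc2c117abcc6)) e
 (c (a (nat_lit 0x26b2b10af4be8)) e
 (c (a (nat_lit 0x5d21a7863a7)) e
 (c (a (nat_lit 0x8af157cd32fa8)) e
 (c z e
 (c z e
 (c (a (nat_lit 0x1818131000009)) e
 (c (a (nat_lit 0x164ae000000009)) e e))))))))))))))
 (c (a (nat_lit 0x1cdcdcc8))
 (c z e
 (c z e
 (c z e
 (c (b (nat_lit 0x10d35b7fffebc8)) e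
 (c (a (nat_lit 0x1b3d1e52fe1c08))
 (c (a (nat_lit 0x128a200000000009)) e e)
 (c z e
 (c z e
 (c z e
 (c z e
 (c z e
 (c z e
 (c z e
 (c (a (nat_lit 0x16000000000008)) e e)))))))))))))
 (c z e
 (c (a (nat_lit 0x1e5e5eee8de8))
 (c (b (nat_lit 0xb4f9fe9c47767))
 (c (a (nat_lit 0x15b77b708946e008)) e e)
 (c z e
 (c z e
 (c z e
 (c z e
 (c (a (nat_lit 0x116c737e3290a8)) e e))))))
 (c (a (nat_lit 0x13f6a7660607))
 (c z e
 (c (a (nat_lit 0x15df29751ffa8)) e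
 (c (a (nat_lit 0x144a628ee7ac9)) e
 (c (b (nat_lit 0x1fe8876a7563a9)) e
 (c (b (nat_lit 0x1feb94d667d668)) e e)))))
 (c (a (nat_lit 0x1ca383838386))
 (c (a (nat_lit 0x22343c4c616e8)) e
 (c (a (nat_lit 0x216263da6d49)) e
 (c (a (nat_lit 0x20a21c128c89)) e
 (c (a (nat_lit 0x124743b76a028)) e
 (c (a (nat_lit 0x4ab944ce2e009)) e e)))))
 (c (a (nat_lit 0x3a18161c221))
 (c (a (nat_lit 0x20a11082ebc9)) e
 (c (a (nat_lit 0x40d107a9616a)) e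
 (c (a (nat_lit 0x1f6d4da420049)) e
 (c (a (nat_lit 0x1e6852e2c00009)) e e))))
 (c (a (nat_lit 0x80a101af01))
 (c (a (nat_lit 0xf54ca78280a9)) e
 (c (a (nat_lit 0x198bd046608009)) e
 (c (a (nat_lit 0x113c25a0000008)) e e)))
 (c (a (nat_lit 0x6a6a6c7b425))
 (c (a (nat_lit 0xe7bed00c00007)) e
 (c (a (nat_lit 0x1ba6a000000008)) e e))
 (c (a (nat_lit 0x989975e7066)) e
 (c z e
 (c z e
 (c (a (nat_lit 0x17979797b346)) e
 (c (a (nat_lit 0x1940e0e08502)) e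
 (c (a (nat_lit 0x100c98101)) e
 (c (a (nat_lit 0x1e20a2223e1)) e
 (c (a (nat_lit 0x20c0407d25)) e
 (c (a (nat_lit 0x1c1015d6004)) e
 (c (a (nat_lit 0x440c0000001)) e e))))))))))))))))))))
 (c (a (nat_lit 0x20202021))
 (c (a (nat_lit 0x2032f2f2e8))
 (c z e
 (c z e
 (c z e
 (c z e
 (c (b (nat_lit 0x175bbbffffa07))
 (c z e
 (c (a (nat_lit 0x18186e4000000009)) e e))
 (c (a (nat_lit 0x9eb0c0a9645e7))
 (c (a (nat_lit 0x1c2ae00000000007)) e e)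
 (c (a (nat_lit 0xefd5f9e83046)) e
 (c z e
 (c (b (nat_lit 0x1a6563ffff287)) e
 (c (a (nat_lit 0xdef5313932029)) e
 (c z e
 (c z e
 (c (a (nat_lit 0x301be80000007)) e
 (c (a (nat_lit 0x16e00000000007)) e e))))))))))))))
 (c z e
 (c (a (nat_lit 0x18b8b8c52488)) e
 (c (a (nat_lit 0x1f7f62c02006)) e
 (c (a (nat_lit 0x1bc040202026))
 (c z e
 (c (a (nat_lit 0x3650a49eaf609)) e
 (c (b (nat_lit 0x1fe8ce50df1a08)) e
 (c (a (nat_lit 0x4292cbfc542e9)) e e))))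
 (c (a (nat_lit 0x1e0608060c1))
 (c (a (nat_lit 0xc101c25490a8)) e
 (c (a (nat_lit 0x1c378118589)) e
 (c (a (nat_lit 0x219f2f458029)) e
 (c (a (nat_lit 0x39c35256601c8)) e e))))
 (c (a (nat_lit 0x646064734c1))
 (c (a (nat_lit 0x29c2fa40028)) e
 (c (b (nat_lit 0xd047811fffea)) e e))
 (c (a (nat_lit 0x3e40467fc63))
 (c z e
 (c (a (nat_lit 0x1014190be00008)) e
 (c (a (nat_lit 0x19744000000007)) e e)))
 (c (a (nat_lit 0xf305677f587))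
 (c (a (nat_lit 0xefb0960000007)) e
 (c (a (nat_lit 0x19a00000000007)) e e))
 (c (a (nat_lit 0x10bbfc1d1b27)) e
 (c z e
 (c z e
 (c (a (nat_lit 0x17b7d7f7cf66)) e
 (c (a (nat_lit 0x9a9283081e2)) e
 (c (a (nat_lit 0x7c061c0b3c2)) e
 (c (a (nat_lit 0x1a22024fde4)) e
 (c (a (nat_lit 0x6044ddbd84)) e
 (c (a (nat_lit 0x683a2200001)) e
 (c (a (nat_lit 0x2000000001)) e e)))))))))))))))))))
 (c (a (nat_lit 0x40404041))
 (c (a (nat_lit 0x10d0d0c4e3a8))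
 (c (b (nat_lit 0x19cf9ff3214026))
 (c (a (nat_lit 0x13ac9758f89dbb67)) e e)
 (c (b (nat_lit 0x163ff5b0a05e86)) e
 (c z e
 (c z e
 (c z e
 (c z e
 (c z e
 (c z e
 (c z e
 (c (b (nat_lit 0xeb45ff165a008)) e e))))))))))
 (c (a (nat_lit 0x1cdcceebaba7))
 (c (a (nat_lit 0xf49e2404b3147))
 (c (a (nat_lit 0x9120ed3349754c9)) e e)
 (c z e
 (c z e
 (c (a (nat_lit 0x26cb4af27629)) e
 (c (a (nat_lit 0x7a7e64d336749)) e
 (c z e
 (c z e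
 (c z e
 (c (a (nat_lit 0x1b78ff0c400008)) e e)))))))))
 (c (a (nat_lit 0x1c8020202026))
 (c (a (nat_lit 0x984e8aef0df07)) e
 (c (a (nat_lit 0x20a1e96a1049)) e
 (c z e
 (c z e
 (c z e
 (c z e
 (c z e
 (c (a (nat_lit 0x11a767c0000009)) e e))))))))
 (c (a (nat_lit 0x36282c323c1))
 (c (a (nat_lit 0xa0df7b493d908)) e
 (c (a (nat_lit 0x388c8a6c59009)) e
 (c (b (nat_lit 0xdc992dff7d108)) e e)))
 (c (a (nat_lit 0x121418263c1))
 (c (a (nat_lit 0x143a0cc16ada8)) e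
 (c (a (nat_lit 0x3c2df59758848)) e e))
 (c (a (nat_lit 0x1434549493e4))
 (c (a (nat_lit 0x53448841a3a8)) e e)
 (c (a (nat_lit 0xd0d2e508e05)) e
 (c z e
 (c z e
 (c (a (nat_lit 0x14d398f8d908)) e
 (c (a (nat_lit 0xcb050f0f109)) e
 (c (a (nat_lit 0x1838385a75a7)) e
 (c (a (nat_lit 0x40097c284e3)) e
 (c (a (nat_lit 0x6804139c4)) e
 (c (a (nat_lit 0x6e1023ab9c4)) e
 (c (a (nat_lit 0xa126018001)) e
 (c (a (nat_lit 0x325a0000001)) e e)))))))))))))))))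
 C79)))) Tr.c Tr.e (nat_lit 0) C.cx C.cy
noncomputable def C81 : Tr := beta% (fun (c : Nat → Tr → Tr → Tr) (e : Tr) (z : Nat) (a b : Nat → Nat) =>
 (c (a (nat_lit 0x4040404041))
 (c (a (nat_lit 0x1939395966c002))
 (c (a (nat_lit 0x28347870cd83cc7))
 (c (a (nat_lit 0x5c8c745a88b94d868)) e
 (c (a (nat_lit 0x44302a2a4a74b516b)) e
 (c z e
 (c z e
 (c (a (nat_lit 0x101498379b54000009)) e
 (c (a (nat_lit 0x189e5e326000000009)) e
 (c (a (nat_lit 0x19ede0000000000009)) e e)))))))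
 (c (a (nat_lit 0x3a6e82bb1f7d809)) e
 (c z e
 (c z e
 (c z e
 (c (a (nat_lit 0xf144e90c9306fc9)) e
 (c (a (nat_lit 0x17b7969adebc3368)) e
 (c (a (nat_lit 0xc2b9a8b71298aa9)) e
 (c (a (nat_lit 0x91a8b2ac6a84509)) e
 (c (a (nat_lit 0xe94d06ba6600008)) e
 (c (a (nat_lit 0x14f4828000000007)) e e)))))))))))
 (c (a (nat_lit 0x109090cd2cc006))
 (c z e
 (c z e
 (c z e
 (c z e
 (c (a (nat_lit 0x1cf99b14daf6564a)) e
 (c (a (nat_lit 0xeae10510f4ba78a)) e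
 (c (a (nat_lit 0xc774d4c4a670b8a)) e
 (c z e
 (c (a (nat_lit 0x1587ac00e0000008)) e
 (c (a (nat_lit 0x172ae00000000007)) e e))))))))))
 (c (b (nat_lit 0x15150fbfffffe5)) e
 (c z e
 (c z e
 (c (a (nat_lit 0x11abcbebc05a44))
 (c z e
 (c (a (nat_lit 0x1ebd969434cf2008)) e
 (c (a (nat_lit 0x114a1008c0000008)) e
 (c (a (nat_lit 0x15b0400000000007)) e e))))
 (c (a (nat_lit 0xa04049f5dc44))
 (c z e
 (c (a (nat_lit 0x149aad4000000007)) e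
 (c (a (nat_lit 0x1de0000000000006)) e e)))
 (c (a (nat_lit 0x2055b79604))
 (c (a (nat_lit 0x1627800000000006)) e e)
 (c (a (nat_lit 0x2305a43926)) e
 (c (a (nat_lit 0x2e36979bd46)) e
 (c (a (nat_lit 0x18685f1132f67)) e
 (c z e
 (c z e
 (c (a (nat_lit 0x142416032c8)) e
 (c (a (nat_lit 0x17173669800007)) e
 (c (a (nat_lit 0x1a6ce000000007)) e e))))))))))))))))
 (c (a (nat_lit 0x20202035e6))
 (c (a (nat_lit 0xecf3bf7f60da5))
 (c z e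
 (c z e
 (c z e
 (c z e
 (c z e
 (c (a (nat_lit 0xe708e31f127cde9)) e
 (c z e
 (c z e
 (c (a (nat_lit 0x350c1e000000008)) e
 (c (a (nat_lit 0x1b00000000000007)) e e))))))))))
 (c z e
 (c z e
 (c z e
 (c (a (nat_lit 0x10b85a371a8426))
 (c z e
 (c (a (nat_lit 0x18b01b9caf200008)) e
 (c (a (nat_lit 0x959cd2000000008)) e e)))
 (c (a (nat_lit 0x2956594184))
 (c (a (nat_lit 0x76ff1a680000007)) e
 (c (a (nat_lit 0x1aef200000000007)) e e))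
 (c (a (nat_lit 0x602a4aadfa05)) e
 (c (a (nat_lit 0x2c4c53338c6)) e
 (c (a (nat_lit 0xa70137399d427)) e
 (c (a (nat_lit 0x867ecd712ede7)) e
 (c z e
 (c z e
 (c (a (nat_lit 0x4161a0316008)) e
 (c (a (nat_lit 0x18b86aa0000007)) e
 (c (a (nat_lit 0x1ba00000000006)) e e)))))))))))))))
 (c (a (nat_lit 0x2035f5e6))
 (c z e
 (c (a (nat_lit 0x19f43b11e48dc6))
 (c (a (nat_lit 0x1c1afb7a14b993c9)) e
 (c z e
 (c z e
 (c z e
 (c (a (nat_lit 0x13774f4c60000009)) e e)))))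
 (c z e
 (c (b (nat_lit 0x1517373b9fe007))
 (c z e
 (c (a (nat_lit 0x13d0964bc0000009)) e
 (c (a (nat_lit 0x1e93600000000008)) e e)))
 (c (a (nat_lit 0xf90121249e6a7))
 (c (a (nat_lit 0x195fad2000000007)) e
 (c (a (nat_lit 0x15e0000000000007)) e e))
 (c (a (nat_lit 0xdd877b7e6df25)) e
 (c (b (nat_lit 0x2f5dff390b605)) e
 (c z e
 (c z e
 (c (a (nat_lit 0x1232b8980f2028)) e
 (c (a (nat_lit 0xa8d0e32e46609)) e
 (c (a (nat_lit 0xcee0d7a800007)) e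
 (c (a (nat_lit 0x16aa6000000007)) e e)))))))))))))
 (c (a (nat_lit 0x3e3f4141407))
 (c (a (nat_lit 0xc8cb4c7102fe5))
 (c (a (nat_lit 0x11918f8bce2d4ea8)) e
 (c z e
 (c z e
 (c (a (nat_lit 0x1194539791600008)) e
 (c (a (nat_lit 0x1e39310000000007)) e e)))))
 (c (a (nat_lit 0xbd2eed6540866))
 (c z e
 (c z e
 (c (a (nat_lit 0xc7011b160000009)) e
 (c (a (nat_lit 0x14aa200000000008)) e e))))
 (c (a (nat_lit 0xbec90aa45a748))
 (c (a (nat_lit 0x98a76b7e7000009)) e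
 (c (a (nat_lit 0x133f92c000000009)) e e))
 (c (a (nat_lit 0xdb1f2e96a0a27))
 (c (a (nat_lit 0x132ae00000000008)) e e)
 (c (a (nat_lit 0x131b3a26492be6)) e
 (c z e
 (c z e
 (c (a (nat_lit 0x14741651116007)) e
 (c (b (nat_lit 0xd0ed3a73fef47)) e
 (c (a (nat_lit 0xe2f1f87456008)) e
 (c (a (nat_lit 0x84cb2a0000008)) e
 (c (a (nat_lit 0x11200000000006)) e e))))))))))))
 (c (a (nat_lit 0xb9ebebeb1c7))
 (c (a (nat_lit 0x66c918887c6))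
 (c z e
 (c (a (nat_lit 0x1dbbb85886600008)) e
 (c (a (nat_lit 0x10b79f8000000007)) e e)))
 (c z e
 (c (a (nat_lit 0x167b6eb0b25347)) e
 (c (a (nat_lit 0x14f34b4daeb367)) e
 (c z e
 (c z e
 (c z e
 (c (a (nat_lit 0xef16cafb76a48)) e
 (c (a (nat_lit 0xaf1ae66a00009)) e e)))))))))
 (c (a (nat_lit 0x1616176dac67))
 (c z e
 (c (a (nat_lit 0xf33b235751567)) e
 (c (a (nat_lit 0x929a9528933c7)) e
 (c (a (nat_lit 0x46687e2a79668)) e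
 (c (a (nat_lit 0x695056cd97327)) e
 (c (b (nat_lit 0xe05895ff1a028)) e e))))))
 (c (a (nat_lit 0xf302764c4c6))
 (c (a (nat_lit 0x276f6b5957da5)) e
 (c (a (nat_lit 0x103e4e586fb27)) e
 (c (a (nat_lit 0x181e26efa08)) e
 (c (a (nat_lit 0x102e3cbba2a07)) e
 (c (a (nat_lit 0x1612296212008)) e
 (c (a (nat_lit 0x54c95e5600008)) e
 (c (a (nat_lit 0x18fc4000000007)) e e)))))))
 (c (a (nat_lit 0x1121e1e1e1e5))
 (c (a (nat_lit 0x20c0e1d226e7)) e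
 (c (a (nat_lit 0x12141d3546748)) e
 (c (a (nat_lit 0x60ac52abc2a8)) e
 (c (a (nat_lit 0x952c6740e008)) e
 (c (a (nat_lit 0x10ca85c0000008)) e
 (c (a (nat_lit 0x17800000000006)) e e))))))
 (c (a (nat_lit 0x13b3737393a3))
 (c (a (nat_lit 0x808b51c58168)) e
 (c (a (nat_lit 0x191936b864288)) e
 (c (a (nat_lit 0xf558b82000008)) e
 (c (a (nat_lit 0x18484000000008)) e e))))
 (c (a (nat_lit 0x1a3a9b3c1ea1))
 (c (a (nat_lit 0x1868d01383e006)) e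
 (c (a (nat_lit 0x159507e0000007)) e e))
 (c (a (nat_lit 0x82848a95563))
 (c (a (nat_lit 0x1b202000000005)) e e)
 (c (a (nat_lit 0xc8f77da1706)) e
 (c (a (nat_lit 0x167759f9f9e8)) e
 (c (a (nat_lit 0x143414140ea6)) e
 (c (a (nat_lit 0x1b8220808061)) e
 (c (a (nat_lit 0xa08080a001)) e
 (c (a (nat_lit 0x60806001)) e
 (c (a (nat_lit 0x2060403043)) e
 (c (a (nat_lit 0xc080909023)) e
 (c (a (nat_lit 0xa1400001)) e
 (c (a (nat_lit 0x2000000001)) e e)))))))))))))))))))))) Tr.c Tr.e (nat_lit 0) C.cx C.cy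
noncomputable def C83 : Tr := beta% (fun (c : Nat → Tr → Tr → Tr) (e : Tr) (a b : Nat → Nat) =>
 (c (a (nat_lit 0x202021))
 (c (a (nat_lit 0x12e0a08002))
 (c (a (nat_lit 0xc8b0cccd6e4)) e
 (c (a (nat_lit 0xbf495fcfe65)) e
 (c (a (nat_lit 0xa670e8e19c6)) e
 (c (a (nat_lit 0xe872db8d7e6)) e
 (c (a (nat_lit 0x16ecb6d74026)) e
 (c (a (nat_lit 0x430d0602027)) e
 (c (a (nat_lit 0x7509d134007)) e
 (c (a (nat_lit 0x135b60000006)) e e))))))))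
 (c (a (nat_lit 0x3130a4003))
 (c (a (nat_lit 0x3cbad70d666)) e
 (c (a (nat_lit 0x44b8f76d7e7)) e
 (c (a (nat_lit 0x94d18f92aa7)) e
 (c (a (nat_lit 0x38b8bc377c8)) e
 (c (a (nat_lit 0x8b04bc962e8)) e
 (c (a (nat_lit 0x691f0a00008)) e
 (c (a (nat_lit 0x18e000000007)) e e)))))))
 (c (a (nat_lit 0x49de02004))
 (c (a (nat_lit 0x2272bab5007)) e
 (c (a (nat_lit 0x5eb0de731c8)) e
 (c (a (nat_lit 0x14d99996ec27)) e e)))
 (c (a (nat_lit 0x1d20202024))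
 (c (a (nat_lit 0xa6b63b3e647)) e
 (c (a (nat_lit 0x13008be56068)) e
 (c (a (nat_lit 0x3c8a000007)) e e)))
 (c (a (nat_lit 0x60404001))
 (c (a (nat_lit 0xd1a6076004)) e
 (c (a (nat_lit 0xcd360000003)) e e))
 (c (a (nat_lit 0x404001))
 (c (a (nat_lit 0x168000000003)) e e)
 (c (a (nat_lit 0x2030f8c6)) e
 (c (a (nat_lit 0xc541406)) e
 (c (a (nat_lit 0x123c1c3c25)) e
 (c (a (nat_lit 0x1b3fbfbfe5)) e
 (c (a (nat_lit 0x17b7b83824)) e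
 (c (a (nat_lit 0xd8e0e1544)) e
 (c (a (nat_lit 0x2045c761)) e
 (c (a (nat_lit 0x1b61820183)) e
 (c (a (nat_lit 0x1cdcf04004)) e
 (c (a (nat_lit 0x1020000004)) e e))))))))))))))))
 (c (nat_lit 1)
 (c (a (nat_lit 0x1474606001))
 (c (a (nat_lit 0x7e7ebcc7065)) e
 (c (a (nat_lit 0x4064ccbb887)) e
 (c (a (nat_lit 0x60d2c85b687)) e
 (c (a (nat_lit 0x5a5c374a188)) e
 (c (a (nat_lit 0x109851e70007)) e
 (c (a (nat_lit 0x116a80000007)) e e))))))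
 (c (a (nat_lit 0x1020a02002))
 (c (a (nat_lit 0x264c7495348)) e
 (c (a (nat_lit 0xa8d499f8768)) e
 (c (a (nat_lit 0x5e43223a169)) e
 (c (a (nat_lit 0x11f7a7000008)) e
 (c (a (nat_lit 0x1d2000000006)) e e)))))
 (c (a (nat_lit 0x40404001))
 (c (a (nat_lit 0xac5de31c0a7)) e
 (c (b (nat_lit 0x1fff6ae14008)) e e))
 (c (a (nat_lit 0x40604081))
 (c (a (nat_lit 0x12c340600008)) e
 (c (a (nat_lit 0x142000000004)) e e))
 (c (a (nat_lit 0x205f64)) e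
 (c (a (nat_lit 0x39b9a5)) e
 (c (a (nat_lit 0x169e7e7e46)) e
 (c (a (nat_lit 0x18989898a5)) e
 (c (a (nat_lit 0x1d9d9090a5)) e
 (c (a (nat_lit 0x1dde9f1ec3)) e
 (c (a (nat_lit 0x80bec2)) e
 (c (a (nat_lit 0x409efda2)) e
 (c (a (nat_lit 0x3e1cc021)) e
 (c (a (nat_lit 0x13e5e00004)) e e))))))))))))))
 (c (a (nat_lit 0x202021))
 (c (a (nat_lit 0xc0604001))
 (c (b (nat_lit 0x4ca695c7fe6)) e
 (c (a (nat_lit 0x6c672682188)) e
 (c (a (nat_lit 0xe3b8b842007)) e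
 (c (a (nat_lit 0x1d2640000007)) e e))))
 (c (a (nat_lit 0x402021))
 (c (a (nat_lit 0xcbe58e56107)) e
 (c (a (nat_lit 0x12d363800008)) e
 (c (a (nat_lit 0x180000000004)) e e)))
 (c (a (nat_lit 0x2190e5))
 (c (a (nat_lit 0x1141c0000007)) e e)
 (c (a (nat_lit 0x30b87866)) e
 (c (a (nat_lit 0x619d9d9c6)) e
 (c (a (nat_lit 0x1656767646)) e
 (c (a (nat_lit 0x1050492926)) e
 (c (a (nat_lit 0x1515557544)) e
 (c (a (nat_lit 0x1575f615e2)) e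
 (c (a (nat_lit 0x607de2)) e
 (c (a (nat_lit 0x60810001)) e
 (c (a (nat_lit 0xc06001)) e
 (c (a (nat_lit 0x1f00000003)) e e)))))))))))))
 (c (a (nat_lit 0x202021))
 (c (a (nat_lit 0x207f43))
 (c (a (nat_lit 0x18d206e1a006)) e
 (c (a (nat_lit 0x1643c0000007)) e e))
 (c (a (nat_lit 0x207f5f04))
 (c (a (nat_lit 0x1d0000000004)) e e)
 (c (a (nat_lit 0xe72726f27)) e
 (c (a (nat_lit 0x13f3f3f167)) e
 (c (a (nat_lit 0x1a0c0e001)) e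
 (c (a (nat_lit 0x12524f8a05)) e
 (c (a (nat_lit 0x198c6c4764)) e
 (c (a (nat_lit 0x182a24081)) e
 (c (a (nat_lit 0xc0c0c101)) e
 (c (a (nat_lit 0x1260206243)) e
 (c (a (nat_lit 0x400001)) e e)))))))))))
 (c (a (nat_lit 0x202021))
 (c (a (nat_lit 0x930d0d0a5)) e
 (c (a (nat_lit 0x13b3b3b2e6)) e
 (c (a (nat_lit 0x1e1d608023)) e
 (c (a (nat_lit 0x482c1c121)) e
 (c (a (nat_lit 0x1676536b44)) e
 (c (a (nat_lit 0xa0402001)) e
 (c (a (nat_lit 0x1b5b5b5b44)) e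
 (c (a (nat_lit 0x116784d5a4)) e
 (c (a (nat_lit 0x52030c003)) e
 (c (a (nat_lit 0x20000001)) e e))))))))))
 (c (nat_lit 1)
 (c (a (nat_lit 0x127251b185)) e
 (c (a (nat_lit 0x1480e0c002)) e
 (c (a (nat_lit 0x3e1208001)) e
 (c (a (nat_lit 0x1abababa65)) e
 (c (a (nat_lit 0x12f2d2cce6)) e
 (c (a (nat_lit 0x1760e01f01)) e
 (c (a (nat_lit 0xa0685083)) e
 (c (a (nat_lit 0x40800001)) e e))))))))
 (c (a (nat_lit 0x202021))
 (c (a (nat_lit 0x2a16bd626)) e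
 (c (a (nat_lit 0x1837381846)) e
 (c (a (nat_lit 0x13b3b3a686)) e
 (c (a (nat_lit 0x1660602043)) e
 (c (a (nat_lit 0x40203d01)) e
 (c (a (nat_lit 0x20202001)) e
 (c (a (nat_lit 0x80000001)) e e)))))))
 (c (a (nat_lit 0x202021))
 (c (a (nat_lit 0x1797979146)) e
 (c (a (nat_lit 0x1ae1002023)) e
 (c (a (nat_lit 0x1140a101e2)) e
 (c (a (nat_lit 0x2020c1)) e
 (c (a (nat_lit 0x1700200001)) e e)))))
 (c (a (nat_lit 0x202021))
 (c (a (nat_lit 0x202021)) e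
 (c (a (nat_lit 0x20202021)) e
 (c (a (nat_lit 0x20202001)) e
 (c (a (nat_lit 0x20000001)) e e))))
 (c (a (nat_lit 0x202021))
 (c (a (nat_lit 0x20202021)) e
 (c (a (nat_lit 0x20200001)) e e))
 (c (a (nat_lit 0x202021))
 (c (a (nat_lit 0x20000001)) e e)
 (c (a (nat_lit 0x202021)) e
 (c (a (nat_lit 0x202001)) e
 (c (a (nat_lit 0x200001)) e
 (c (a (nat_lit 0x21)) e
 (c (a (nat_lit 0x204041)) e
 (c (a (nat_lit 0x2001)) e
 (c (a (nat_lit 0x202001)) e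
 (c (a (nat_lit 0x200001)) e
 (c (nat_lit 1) e
 (c (a (nat_lit 0x202021)) e
 (c (nat_lit 1) e
 (c (a (nat_lit 0x2001)) e e)))))))))))))))))))))))) Tr.c Tr.e C.cx C.cy
noncomputable def C84 : Tr := beta% (fun (c : Nat → Tr → Tr → Tr) (e : Tr) (z : Nat) (a b : Nat → Nat) =>
 (c (a (nat_lit 0x202021))
 (c (a (nat_lit 0x20000001))
 (c (a (nat_lit 0xc0e1e24281))
 (c z e
 (c (a (nat_lit 0xb3d56d857f505)) e
 (c (a (nat_lit 0x472ac19df9e5)) e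
 (c (a (nat_lit 0x5ebc31ecc8006)) e
 (c (a (nat_lit 0x1fffbac0000006)) e e)))))
 (c (a (nat_lit 0x1bdc7cbd16e2))
 (c (b (nat_lit 0x1dd21459dfffe5)) e
 (c (a (nat_lit 0xa0850e88d02e7)) e
 (c (a (nat_lit 0x989b62e400007)) e
 (c (a (nat_lit 0x1baf8000000007)) e e))))
 (c (a (nat_lit 0xb6bcbedf064))
 (c (a (nat_lit 0x3438897e2a007)) e
 (c (a (nat_lit 0xbf47200000008)) e e))
 (c (a (nat_lit 0x11f1f65946e5))
 (c (a (nat_lit 0x1a2d6000000007)) e e)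
 (c (a (nat_lit 0x12b4131472a7)) e
 (c (a (nat_lit 0x1030b0b2ac87)) e
 (c (a (nat_lit 0x14128ea10186)) e
 (c (a (nat_lit 0x15d68e2020a6)) e
 (c (a (nat_lit 0x1414004168c6)) e
 (c (a (nat_lit 0x1c7b802b2765)) e
 (c (a (nat_lit 0x355f22004)) e
 (c (a (nat_lit 0x1ee0000001)) e e))))))))))))
 (c (a (nat_lit 0x202021))
 (c (a (nat_lit 0xc0c1a06601))
 (c (b (nat_lit 0xf6ab07fe4b3c6)) e
 (c (a (nat_lit 0xa2f0951eaa008)) e
 (c (a (nat_lit 0xaa9f4c0000007)) e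
 (c (a (nat_lit 0x17000000000005)) e e))))
 (c (a (nat_lit 0x14545abc06e6))
 (c (a (nat_lit 0xc0c9887a00008)) e
 (c (a (nat_lit 0x18784000000008)) e e))
 (c (a (nat_lit 0xa4cf3736ee7))
 (c (a (nat_lit 0x10800000000007)) e e)
 (c (a (nat_lit 0x14b5d78e8b67)) e
 (c z e
 (c (a (nat_lit 0xc2e50c5e746)) e
 (c (a (nat_lit 0xc6960403287)) e
 (c (a (nat_lit 0xae0602030c8)) e
 (c (a (nat_lit 0x1320e0223ee7)) e
 (c (a (nat_lit 0x146ce1600001)) e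
 (c (a (nat_lit 0x2000000001)) e e)))))))))))
 (c (a (nat_lit 0x1665))
 (c (a (nat_lit 0xd513bfbe785))
 (c (a (nat_lit 0x495a240000006)) e
 (c (a (nat_lit 0x18c00000000007)) e e))
 (c (b (nat_lit 0x173cdd363fe7)) e
 (c z e
 (c z e
 (c (a (nat_lit 0x689089db65)) e
 (c (a (nat_lit 0x3a02171c848)) e
 (c (a (nat_lit 0x440575fc5a7)) e
 (c (a (nat_lit 0x1af7a0e006)) e
 (c (a (nat_lit 0x14aac0000007)) e e)))))))))
 (c (a (nat_lit 0x185845))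
 (c (a (nat_lit 0x110feca5a327)) e
 (c (a (nat_lit 0x134fcb86cbe7)) e
 (c z e
 (c (a (nat_lit 0x70a2b29d3e6)) e
 (c (a (nat_lit 0x2d1645b847)) e
 (c (a (nat_lit 0x2292db6c388)) e
 (c (a (nat_lit 0x3cb70400008)) e
 (c (a (nat_lit 0x1ca000000005)) e e))))))))
 (c (a (nat_lit 0xfbf9f9dc6))
 (c (a (nat_lit 0xfd268ec0aa6)) e
 (c z e
 (c z e
 (c (a (nat_lit 0x2e40bb18ae9)) e
 (c (a (nat_lit 0x46952a6c009)) e e)))))
 (c (a (nat_lit 0x14b4f4ee87))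
 (c (a (nat_lit 0x1e5e1a5ecbe6)) e
 (c (b (nat_lit 0x10ffee6efa87)) e
 (c (a (nat_lit 0xd6fabb767a8)) e e)))
 (c (a (nat_lit 0x14b4a1e1e5))
 (c (a (nat_lit 0x3ca12e1efa6)) e
 (c (a (nat_lit 0x193eff34c006)) e
 (c (a (nat_lit 0x1a4620000007)) e e)))
 (c (a (nat_lit 0x1500202025))
 (c (a (nat_lit 0x2632600004)) e
 (c (a (nat_lit 0x8a000000001)) e e))
 (c (a (nat_lit 0x20404021)) e
 (c (a (nat_lit 0x602021)) e
 (c (a (nat_lit 0xb20410001)) e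
 (c (a (nat_lit 0x4058080e1)) e
 (c (a (nat_lit 0x17a0602022)) e
 (c (a (nat_lit 0x6040e1)) e
 (c (a (nat_lit 0x2040e0a1)) e
 (c (a (nat_lit 0x60a001)) e
 (c (a (nat_lit 0x525c051a1)) e
 (c (a (nat_lit 0xd80810001)) e
 (c (a (nat_lit 0x1e0000001)) e e)))))))))))))))))))
 (c (a (nat_lit 0x202021))
 (c (a (nat_lit 0x20203a06))
 (c (a (nat_lit 0x139393b3c6e4))
 (c (a (nat_lit 0x1c18de9f332c84)) e
 (c (a (nat_lit 0xb15bace400006)) e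
 (c (a (nat_lit 0x118b0000000006)) e e)))
 (c (a (nat_lit 0xdafb7992025))
 (c (a (nat_lit 0x1397aa40000007)) e
 (c (a (nat_lit 0x12000000000007)) e e))
 (c (a (nat_lit 0x14dd1d3b6a06)) e
 (c (a (nat_lit 0xfb02d4d2007)) e
 (c (a (nat_lit 0x65ef7010025)) e
 (c (a (nat_lit 0x1eb7e82a201)) e
 (c (a (nat_lit 0xf4020332026)) e
 (c (a (nat_lit 0x100a0332027)) e
 (c (a (nat_lit 0x240437ba004)) e
 (c (a (nat_lit 0x8d60000001)) e e))))))))))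
 (c (a (nat_lit 0x2038eb06))
 (c (a (nat_lit 0x16163e0f2a26))
 (c (a (nat_lit 0x1aa90000000006)) e e)
 (c (a (nat_lit 0x1339eb45c267)) e
 (c (a (nat_lit 0x137170ad49a7)) e
 (c (a (nat_lit 0x17f2840bf706)) e
 (c (a (nat_lit 0x633681dab45)) e
 (c (a (nat_lit 0x17d2ee027)) e
 (c (a (nat_lit 0x86fb8bed47)) e
 (c (a (nat_lit 0x37538000007)) e
 (c (a (nat_lit 0x150000000005)) e e)))))))))
 (c (a (nat_lit 0x8f4949407))
 (c (a (nat_lit 0x1775e9a9ed66)) e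
 (c (a (nat_lit 0xb90cbee1ca7)) e
 (c (b (nat_lit 0x14dfecd1b4a7)) e
 (c (a (nat_lit 0xb293273f787)) e
 (c (a (nat_lit 0x56e88534028)) e
 (c (a (nat_lit 0x2f5eeb2008)) e
 (c (a (nat_lit 0x12b320000008)) e e)))))))
 (c (a (nat_lit 0x19d9d8ef27))
 (c (a (nat_lit 0xe2e2fbebbe6)) e
 (c (a (nat_lit 0x565ed2cd9a8)) e
 (c (a (nat_lit 0x2a78efe8968)) e
 (c (a (nat_lit 0x4d0aee78489)) e
 (c (a (nat_lit 0xb73e4200009)) e e)))))
 (c (a (nat_lit 0x1191892926))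
 (c (a (nat_lit 0x2cba6c41d27)) e
 (c (a (nat_lit 0x999a69e2a27)) e
 (c (a (nat_lit 0xaaa5826c008)) e e)))
 (c (a (nat_lit 0x11e0202025))
 (c (a (nat_lit 0x1460486b24a5)) e
 (c (a (nat_lit 0x9b40f200004)) e
 (c (a (nat_lit 0x1c6000000004)) e e)))
 (c (a (nat_lit 0x404061))
 (c (a (nat_lit 0x164340000003)) e e)
 (c (a (nat_lit 0x606001)) e
 (c (a (nat_lit 0x205e22)) e
 (c (a (nat_lit 0x1171604024)) e
 (c (a (nat_lit 0x3a0a02001)) e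
 (c (a (nat_lit 0xe0612201)) e
 (c (a (nat_lit 0x40c101)) e
 (c (a (nat_lit 0x20606181)) e
 (c (a (nat_lit 0x208241)) e
 (c (a (nat_lit 0x6222a1)) e
 (c (a (nat_lit 0x200001)) e e)))))))))))))))))
 C83))) Tr.c Tr.e (nat_lit 0) C.cx C.cy
noncomputable def C85 : Tr := beta% (fun (c : Nat → Tr → Tr → Tr) (e : Tr) (z : Nat) (a b : Nat → Nat) =>
 (c (nat_lit 1)
 (c (a (nat_lit 0x168505050504))
 (c (a (nat_lit 0x402043af5504))
 (c z e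
 (c (a (nat_lit 0x13905331ea147707)) e
 (c z e
 (c z e
 (c (a (nat_lit 0x186a000000000006)) e e)))))
 (c (a (nat_lit 0xa50c4bced226))
 (c (a (nat_lit 0xcf2d0e90f7869c8)) e
 (c (a (nat_lit 0x158f0ed4d5400008)) e e))
 (c (a (nat_lit 0x52b85c8e75d25))
 (c (a (nat_lit 0x9fa8af1c0000007)) e e)
 (c (a (nat_lit 0x22320404d9a26)) e
 (c (a (nat_lit 0x1876d93578cde6)) e
 (c z e
 (c (a (nat_lit 0xaae9429fe7ec6)) e
 (c (a (nat_lit 0x789e3b9fa0967)) e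
 (c (a (nat_lit 0x12643a9c6f8006)) e e)))))))))
 (c (a (nat_lit 0x20406060c1))
 (c (a (nat_lit 0x2705872b7287))
 (c (a (nat_lit 0x106ecc29b604a008)) e
 (c (a (nat_lit 0x106ecf8ec0000009)) e e))
 (c (a (nat_lit 0x5e2214457fa87))
 (c (a (nat_lit 0x1919906000000008)) e e)
 (c (a (nat_lit 0xc769cb71c928)) e e)))
 (c (a (nat_lit 0x2020205143))
 (c (a (nat_lit 0xaedad13b4efe7))
 (c (a (nat_lit 0x1932200000000006)) e e)
 (c z e
 (c z e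
 (c z e
 (c z e
 (c z e
 (c (a (nat_lit 0x48b500000005)) e
 (c (a (nat_lit 0x1d800000000006)) e e))))))))
 (c (b (nat_lit 0x7a7c7d0dfe4))
 (c (a (nat_lit 0x708144e93b4e7)) e
 (c (a (nat_lit 0x52cec760b8728)) e
 (c z e
 (c z e
 (c (a (nat_lit 0x1a4f8724600008)) e
 (c (a (nat_lit 0x10bb2000000006)) e e))))))
 (c (a (nat_lit 0x151717371746))
 (c (a (nat_lit 0x5a093a4c4e2e8)) e
 (c z e
 (c z e
 (c (a (nat_lit 0x12888640000008)) e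
 (c (a (nat_lit 0x17400000000006)) e e)))))
 (c (a (nat_lit 0x125452528e66))
 (c (a (nat_lit 0x3dcac3e743a7)) e
 (c (a (nat_lit 0x1f4eeba9c00007)) e e))
 (c z e
 (c (a (nat_lit 0x14d45ed5eb66)) e
 (c (a (nat_lit 0x121bf8787866)) e
 (c (a (nat_lit 0x1e9e5e5bf827)) e
 (c (a (nat_lit 0x123132d1ad28)) e
 (c (a (nat_lit 0x18f8d8edd226)) e
 (c (a (nat_lit 0x74739f24)) e
 (c (a (nat_lit 0x31c02bcc64)) e
 (c (a (nat_lit 0x11c020a08004)) e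
 (c (a (nat_lit 0x14060000001)) e e))))))))))))))))
 (c (a (nat_lit 0x20404021))
 (c (a (nat_lit 0xa0a0c0c1))
 (c (a (nat_lit 0x4c1e920b01545))
 (c (a (nat_lit 0xccf055782200007)) e
 (c (a (nat_lit 0x1d0db1c000000008)) e e))
 (c (a (nat_lit 0x64e66d70afa8))
 (c (a (nat_lit 0x1ef4200000000007)) e e)
 (c z e
 (c (a (nat_lit 0x1c3ed429ffbf67)) e
 (c (a (nat_lit 0x130f24986d4a47)) e e)))))
 (c (a (nat_lit 0xc0c2cb32004))
 (c (a (nat_lit 0x23accde994a8)) e e)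
 (c (a (nat_lit 0x141430707067)) e
 (c (a (nat_lit 0xe500f0f2d27)) e
 (c (a (nat_lit 0x165452508c26))
 (c (a (nat_lit 0xc70666f080007)) e
 (c (b (nat_lit 0x16bfec80000007)) e e))
 (c (b (nat_lit 0xf6d4ff33fe6))
 (c (a (nat_lit 0x768000000004)) e e)
 (c z e
 (c z e
 (c (a (nat_lit 0x137794d24d68)) e
 (c z e
 (c (a (nat_lit 0x1955b4cf2ee7)) e
 (c (b (nat_lit 0x1ff460405205)) e
 (c (a (nat_lit 0x140020525245)) e
 (c (a (nat_lit 0x520800001)) e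
 (c (a (nat_lit 0x6000000001)) e e)))))))))))))))
 (c (a (nat_lit 0x20202021))
 (c (a (nat_lit 0x12f332b28404))
 (c (a (nat_lit 0x3032a7d23906)) e e)
 (c z e
 (c z e
 (c (a (nat_lit 0x116d49c2a005))
 (c (a (nat_lit 0xf10f048a00007)) e
 (c (a (nat_lit 0x14120000000005)) e e))
 (c (a (nat_lit 0x13d2f26d6106))
 (c (a (nat_lit 0x1e600000000002)) e e)
 (c z e
 (c (a (nat_lit 0x5b1d5b07147)) e
 (c (a (nat_lit 0x149bb631eec8)) e
 (c z e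
 (c (a (nat_lit 0x1d5b542b6027)) e
 (c (a (nat_lit 0x11a360406c06)) e
 (c (a (nat_lit 0xb2040780004)) e
 (c (a (nat_lit 0x130020000003)) e e)))))))))))))
 (c (a (nat_lit 0x20202021))
 (c (a (nat_lit 0x10b08f8e89c6))
 (c (a (nat_lit 0x1609fec80c4306)) e
 (c (a (nat_lit 0xa56494d6a99c7)) e e))
 (c (a (nat_lit 0x168ea787a784))
 (c (a (nat_lit 0x150c0b6d7606a7)) e
 (c (a (nat_lit 0x152b0f29000008)) e e))
 (c (a (nat_lit 0x1533b7b3f206))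
 (c (a (nat_lit 0x3634a0000005)) e
 (c (a (nat_lit 0x1e800000000003)) e e))
 (c (a (nat_lit 0xf918fadcae7)) e
 (c (a (nat_lit 0x133179101687)) e
 (c (a (nat_lit 0x2d5d5f65a66)) e
 (c (a (nat_lit 0x19f9dc174027)) e
 (c z e
 (c (a (nat_lit 0x180dec602588)) e
 (c (a (nat_lit 0x58021545446)) e
 (c (a (nat_lit 0xc181600001)) e
 (c (a (nat_lit 0x2000000001)) e e))))))))))))
 (c (a (nat_lit 0x40404021))
 (c (a (nat_lit 0xa68d13890c5))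
 (c (a (nat_lit 0x14e08507a2a004)) e
 (c (a (nat_lit 0x5d108c0000004)) e e))
 (c (a (nat_lit 0x99215d3b1c6))
 (c (a (nat_lit 0x1bca2000000003)) e e)
 (c (b (nat_lit 0x1415f431ffe6)) e
 (c (a (nat_lit 0xc4d2e653047)) e
 (c (b (nat_lit 0x686dff24d87)) e
 (c (a (nat_lit 0x1c791a4e2887)) e
 (c (a (nat_lit 0xf50f1aa0a28)) e
 (c (a (nat_lit 0x15b40a63a2e7)) e
 (c (a (nat_lit 0x3400e06003)) e
 (c (a (nat_lit 0x146080000003)) e e))))))))))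
 (c (nat_lit 1)
 (c (a (nat_lit 0x10f154d0c8e5)) e
 (c (a (nat_lit 0xfd19243c666)) e
 (c z e
 (c z e
 (c (a (nat_lit 0xcd66f26c727)) e
 (c z e
 (c (a (nat_lit 0x5692603b027)) e
 (c (a (nat_lit 0x17b5ac00004)) e
 (c (a (nat_lit 0x2e000000001)) e e)))))))))
 (c (a (nat_lit 0x1885))
 (c (b (nat_lit 0x1677cd5fe605)) e
 (c z e
 (c (a (nat_lit 0x2e4306cac47)) e
 (c (a (nat_lit 0x9ad58ef8847)) e
 (c z e
 (c (a (nat_lit 0xb0cedda8006)) e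
 (c (a (nat_lit 0x5dca0000004)) e e)))))))
 (c (a (nat_lit 0x505120f26))
 (c (b (nat_lit 0xfe77b9affe5)) e
 (c (b (nat_lit 0x4ed31ffe487)) e
 (c (a (nat_lit 0xf9815f44108)) e
 (c (a (nat_lit 0x14d998c9ae88)) e
 (c (a (nat_lit 0x96139000005)) e
 (c (a (nat_lit 0x2000000001)) e e))))))
 (c (a (nat_lit 0x1dc5c1a26))
 (c (a (nat_lit 0xb6fcc2f12a7)) e
 (c (b (nat_lit 0x11b177fff347)) e
 (c z e
 (c (a (nat_lit 0x125040000006)) e e))))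
 (c (a (nat_lit 0x1999b66ae7))
 (c (b (nat_lit 0x8473ff24308)) e e)
 (c (a (nat_lit 0x17f7ee6e66)) e
 (c (a (nat_lit 0x12a0202005)) e
 (c (a (nat_lit 0x10b0b09083)) e
 (c (a (nat_lit 0x20602001)) e
 (c (a (nat_lit 0x7a7a7d8e3)) e
 (c (a (nat_lit 0xc1e021)) e
 (c (a (nat_lit 0x20e045a1)) e
 (c (a (nat_lit 0x161203c005)) e
 (c (a (nat_lit 0x1048006044)) e
 (c (a (nat_lit 0x1e80404082)) e
 (c (a (nat_lit 0x141016001)) e
 (c (a (nat_lit 0x20000001)) e e))))))))))))))))))))))) Tr.c Tr.e (nat_lit 0) C.cx C.cy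
noncomputable def C86 : Tr := beta% (fun (c : Nat → Tr → Tr → Tr) (e : Tr) (z : Nat) (a b : Nat → Nat) =>
 (c (a (nat_lit 0x20202021))
 (c (a (nat_lit 0x14344dadada7))
 (c (a (nat_lit 0x1a00c0206f9c65))
 (c (a (nat_lit 0x111833b18fd217c7)) e
 (c z e
 (c z e
 (c (a (nat_lit 0xaaa8b71d0000009)) e
 (c (a (nat_lit 0x1b5f524000000007)) e e)))))
 (c z e
 (c (b (nat_lit 0x1ffffff26f1086)) e
 (c (b (nat_lit 0x1fffe1804337c7)) e
 (c (a (nat_lit 0x2e84465285028)) e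
 (c z e
 (c z e
 (c (a (nat_lit 0xb2f76493fdc48)) e
 (c (a (nat_lit 0x995e62e6e8be8)) e e)))))))))
 (c (a (nat_lit 0x1aa020202026))
 (c (a (nat_lit 0xa5cb67a9b607))
 (c (a (nat_lit 0x544c5c7c69a65c9)) e
 (c (a (nat_lit 0x8eacc0df140000a)) e e))
 (c (a (nat_lit 0x7c04047d448))
 (c (a (nat_lit 0x114f183220000009)) e e) e))
 (c (a (nat_lit 0x406080c1))
 (c (a (nat_lit 0x6c443828b1368))
 (c (a (nat_lit 0x87bd12000000007)) e e)
 (c z e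
 (c z e
 (c z e
 (c z e
 (c z e
 (c (a (nat_lit 0x42d72ce000008)) e
 (c (a (nat_lit 0x158a2000000008)) e e))))))))
 (c (a (nat_lit 0x4060a0bbe2))
 (c (a (nat_lit 0x90909312d71c9)) e
 (c (a (nat_lit 0x3232c8ead53c9)) e
 (c z e
 (c z e
 (c (a (nat_lit 0xd126deba20009)) e
 (c (a (nat_lit 0xb3331e0000008)) e
 (c (a (nat_lit 0x19600000000007)) e e)))))))
 (c (a (nat_lit 0x20207720e4))
 (c (a (nat_lit 0x217fb50811a7)) e
 (c z e
 (c z e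
 (c (a (nat_lit 0x11e8c9c2c00009)) e
 (c (a (nat_lit 0x366000000007)) e e)))))
 (c z e
 (c z e
 (c (a (nat_lit 0x163478b9bbe7)) e
 (c (a (nat_lit 0x2523c1bfbe6)) e
 (c (a (nat_lit 0x10f5d5d4b1e8)) e
 (c z e
 (c (a (nat_lit 0x19d0d0ce8d87)) e
 (c (a (nat_lit 0x4020590fc5)) e
 (c (b (nat_lit 0x1ffdf3402005)) e
 (c (a (nat_lit 0x1df380202025)) e
 (c (a (nat_lit 0x136020200005)) e
 (c (a (nat_lit 0x12000000001)) e e)))))))))))))))))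
 (c (a (nat_lit 0x20202001))
 (c (a (nat_lit 0x60806101))
 (c (a (nat_lit 0x60e0a44d9066))
 (c (a (nat_lit 0x22222998644007)) e
 (c (a (nat_lit 0xf2f6e94e0000008)) e e))
 (c (a (nat_lit 0x22405872eb068))
 (c (a (nat_lit 0x156e6e6000000008)) e e) e))
 (c (a (nat_lit 0xe0820e61))
 (c (a (nat_lit 0x162a3fa7df847))
 (c (a (nat_lit 0x1fb2a00000000006)) e e) e)
 (c (b (nat_lit 0x6e6e752ffe5)) e
 (c (a (nat_lit 0x103832050505)) e
 (c z e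
 (c z e
 (c z e
 (c z e
 (c z e
 (c z e
 (c z e
 (c (b (nat_lit 0x1ffff6c080a2)) e
 (c (a (nat_lit 0x3c1a0205066)) e
 (c (a (nat_lit 0x32020504005)) e
 (c (a (nat_lit 0x160a0000001)) e e)))))))))))))))
 (c (a (nat_lit 0x202001))
 (c (b (nat_lit 0x217abfe1))
 (c (a (nat_lit 0x210eefe3fb06)) e
 (c z e
 (c z e
 (c z e
 (c z e
 (c z e
 (c (a (nat_lit 0x112a2000000007)) e e)))))))
 (c (a (nat_lit 0x15b5d1918de6)) e
 (c z e
 (c (a (nat_lit 0x110d0ecee026))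
 (c (a (nat_lit 0x12b42b704be007)) e
 (c (a (nat_lit 0xeb34ba0000006)) e e))
 (c (a (nat_lit 0x1114fc664226))
 (c (a (nat_lit 0x17c0a000000005)) e e)
 (c z e
 (c (a (nat_lit 0x118a3b31bce6)) e
 (c (a (nat_lit 0x72eb0714f28)) e
 (c z e
 (c (a (nat_lit 0xbf55d8fc046)) e
 (c (a (nat_lit 0x93a402039c5)) e
 (c (a (nat_lit 0x19a04039f9c5)) e
 (c (a (nat_lit 0x120e0c00001)) e
 (c (a (nat_lit 0x2000000001)) e e))))))))))))))
 (c (a (nat_lit 0x40404021))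
 (c (a (nat_lit 0x1838383832e6))
 (c (a (nat_lit 0xaabb2e808e6a8)) e
 (c (a (nat_lit 0xb92e7c5e42369)) e e))
 (c (a (nat_lit 0x1755bad4f4e6))
 (c (a (nat_lit 0x1a0aa80764f048)) e
 (c (a (nat_lit 0x90dd029eb8008)) e e))
 (c (a (nat_lit 0x121493d3e9a7))
 (c (a (nat_lit 0x16ebbd0be00006)) e
 (c (a (nat_lit 0x1ed06000000006)) e e))
 (c (a (nat_lit 0x15fa9aaead26))
 (c (a (nat_lit 0x11800000000001)) e e)
 (c (a (nat_lit 0x1a7a71e10165)) e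
 (c (a (nat_lit 0x2402989b187)) e
 (c (a (nat_lit 0x59353781027)) e
 (c z e
 (c (a (nat_lit 0x165d77360027)) e
 (c (a (nat_lit 0x1b228219d9a5)) e
 (c (a (nat_lit 0x540c6026001)) e
 (c (a (nat_lit 0x1c420000001)) e e))))))))))))
 (c (a (nat_lit 0x20404021))
 (c (a (nat_lit 0x11351615dd05))
 (c (a (nat_lit 0xc76689f80784)) e
 (c (a (nat_lit 0x120e37dbc00004)) e
 (c (a (nat_lit 0x1b4000000001)) e e)))
 (c (a (nat_lit 0x149595995d06))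
 (c (a (nat_lit 0x1b7f7600000003)) e e)
 (c (a (nat_lit 0x1070943235a6)) e
 (c (a (nat_lit 0x64828495127)) e
 (c (a (nat_lit 0x1a9a9e99cc25)) e
 (c (a (nat_lit 0xcda3f32e5a7)) e
 (c z e
 (c (a (nat_lit 0x1d51b76824a7)) e
 (c (a (nat_lit 0x202df7b785)) e
 (c (a (nat_lit 0x20b4000004)) e
 (c (a (nat_lit 0x186000000001)) e e)))))))))))
 (c (a (nat_lit 0x2001))
 (c (a (nat_lit 0xff010179785))
 (c (a (nat_lit 0x360a000000001)) e e)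
 (c (a (nat_lit 0xeaed2940446)) e
 (c (a (nat_lit 0x10f4b4c9e8e6)) e
 (c (a (nat_lit 0x1813c5119426)) e
 (c (a (nat_lit 0x18d69b5d8ac6)) e
 (c z e
 (c (b (nat_lit 0x12dfeae121c7)) e
 (c (a (nat_lit 0x8cda08a006)) e
 (c (a (nat_lit 0x1ac0000004)) e e)))))))))
 (c (a (nat_lit 0x20202001))
 (c (a (nat_lit 0xfcfd3214645)) e
 (c (a (nat_lit 0x1cdaae924466)) e
 (c (a (nat_lit 0xe4651362cc6)) e
 (c (a (nat_lit 0xb2b0dd58aa7)) e
 (c z e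
 (c (a (nat_lit 0x686c5e07488)) e
 (c (a (nat_lit 0x35f5c00005)) e
 (c (a (nat_lit 0x2000000001)) e e))))))))
 (c (a (nat_lit 0x3a25))
 (c (a (nat_lit 0x1839418162)) e
 (c (a (nat_lit 0xeb179e941c7)) e
 (c (a (nat_lit 0x98af6ab52e7)) e
 (c z e
 (c (b (nat_lit 0x13ff0a02004)) e
 (c (a (nat_lit 0x5d60000004)) e e))))))
 (c (a (nat_lit 0x203b3a85))
 (c (a (nat_lit 0x822f3efbce6)) e
 (c (a (nat_lit 0x128652a7948)) e
 (c z e
 (c (b (nat_lit 0x1fe254c00007)) e e))))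
 (c (a (nat_lit 0x875f59247))
 (c (a (nat_lit 0x363867c81c8)) e e)
 (c z e
 (c (a (nat_lit 0x12f3002025)) e
 (c (a (nat_lit 0x1088484846)) e
 (c (a (nat_lit 0x80808061)) e
 (c (a (nat_lit 0x20202041)) e
 (c (a (nat_lit 0x7822)) e
 (c (a (nat_lit 0x20c3a521)) e
 (c (a (nat_lit 0x6162a1)) e
 (c (a (nat_lit 0x1080404064)) e
 (c (a (nat_lit 0x208001)) e
 (c (a (nat_lit 0xa04001)) e
 (c (a (nat_lit 0x1a0800001)) e e))))))))))))))))))))))) Tr.c Tr.e (nat_lit 0) C.cx C.cy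
noncomputable def C87 : Tr := beta% (fun (c : Nat → Tr → Tr → Tr) (e : Tr) (z : Nat) (a b : Nat → Nat) =>
 (c (a (nat_lit 0x202001))
 (c (a (nat_lit 0x20202001))
 (c (a (nat_lit 0x65070706927))
 (c (a (nat_lit 0xbeef06eaeaa66))
 (c z e
 (c z e
 (c z e
 (c (a (nat_lit 0x10b30f326def2dc8)) e
 (c (a (nat_lit 0x135497ebee1052c7)) e
 (c (a (nat_lit 0x105365cd2e26c007)) e
 (c (a (nat_lit 0x15894945e0000007)) e
 (c (a (nat_lit 0x1b47400000000006)) e e))))))))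
 (c z e
 (c z e
 (c (a (nat_lit 0xc6da449b3cd26))
 (c (a (nat_lit 0x1831b2d0098c2e28)) e
 (c (a (nat_lit 0xfefb844a7e00007)) e e))
 (c (a (nat_lit 0x9ee47730ca986)) e
 (c (a (nat_lit 0x11523408e2a9c6)) e
 (c (a (nat_lit 0xd90a6e709f346)) e
 (c (a (nat_lit 0xed10d4e730fa7)) e
 (c z e
 (c (a (nat_lit 0xbeef131880ae7)) e
 (c (a (nat_lit 0x6a746d0450228)) e e)))))))))))
 (c (a (nat_lit 0x10d0d0c7a7a8))
 (c (a (nat_lit 0x1e36ac6b60d326))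
 (c (a (nat_lit 0x123eda1b19b2d288)) e
 (c z e
 (c z e
 (c z e
 (c (a (nat_lit 0x124b2b2940000009)) e e)))))
 (c z e
 (c z e
 (c (a (nat_lit 0x594a5806c47)) e
 (c (a (nat_lit 0x18cda427cc9047)) e
 (c z e
 (c z e
 (c (a (nat_lit 0xc4a4bae405909)) e e))))))))
 (c (a (nat_lit 0x19fbe0202005))
 (c (b (nat_lit 0x1ffffff952db44))
 (c (a (nat_lit 0x106d62a020ea5d28)) e
 (c (a (nat_lit 0x8c807284c12e009)) e e))
 (c (b (nat_lit 0x1fffeea021df06))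
 (c (a (nat_lit 0x17528e10b5c00008)) e e) e))
 (c (a (nat_lit 0x1a0020202025))
 (c (a (nat_lit 0x26802026f6e7))
 (c (a (nat_lit 0x12848a8b40000007)) e e)
 (c z e
 (c z e
 (c z e
 (c z e
 (c z e
 (c (a (nat_lit 0x178f1030902007)) e
 (c (a (nat_lit 0x2b71a00000005)) e e))))))))
 (c (a (nat_lit 0x60606061))
 (c (a (nat_lit 0x2e2c2f27bbd86)) e
 (c (b (nat_lit 0x1fffe62a899b87)) e
 (c z e
 (c z e
 (c (a (nat_lit 0xacb596447a3a8)) e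
 (c (a (nat_lit 0x110f66cc600007)) e
 (c (a (nat_lit 0x16204000000006)) e e)))))))
 (c (a (nat_lit 0x402058e2))
 (c (a (nat_lit 0x22029969e887)) e
 (c (a (nat_lit 0x1e39489658a68)) e
 (c z e
 (c (a (nat_lit 0x10afe5ea20c008)) e
 (c (a (nat_lit 0x1482aee0000006)) e
 (c (a (nat_lit 0x15e00000000003)) e e))))))
 (c (a (nat_lit 0x60409923c2))
 (c z e
 (c (b (nat_lit 0x1233e135727fe7)) e
 (c (a (nat_lit 0x15a8f727200008)) e
 (c (a (nat_lit 0x9946000000007)) e e))))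
 (c (a (nat_lit 0x18b8d8f8f5a6))
 (c (b (nat_lit 0xb0029dc5fe006)) e e)
 (c (a (nat_lit 0x145313133007)) e
 (c (a (nat_lit 0x4608bcbb166)) e
 (c (a (nat_lit 0x6d4545431e7)) e
 (c z e
 (c (a (nat_lit 0x188f2f2a8a86)) e
 (c (a (nat_lit 0x1206040df83)) e
 (c (a (nat_lit 0x40205fbfc3)) e
 (c (a (nat_lit 0xa0408041)) e
 (c (a (nat_lit 0x1c382012001)) e
 (c (a (nat_lit 0x38140000001)) e e))))))))))))))))))
 C86)
 (c (a (nat_lit 0x202021)) C85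
 (c (nat_lit 1)
 (c (a (nat_lit 0x20200001))
 (c (a (nat_lit 0x1030508be323))
 (c (a (nat_lit 0x474a4e1693c4)) e
 (c (a (nat_lit 0x64fbe7c7bffe6)) e
 (c (a (nat_lit 0x82e9187b09aa6)) e
 (c (a (nat_lit 0x18cf4603f89e26)) e
 (c (a (nat_lit 0xb012bb0b88026)) e
 (c (a (nat_lit 0xce86c5f640366)) e e))))))
 (c (a (nat_lit 0x1939ac0be484))
 (c (a (nat_lit 0x26fef0f93ecc7)) e
 (c (a (nat_lit 0xbfb40f8562886)) e
 (c (a (nat_lit 0x18c72d74924e27)) e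
 (c (a (nat_lit 0x29d5750beca7)) e e))))
 (c (a (nat_lit 0x1c55b5b5b5a5))
 (c (a (nat_lit 0x1486775956d746)) e
 (c (b (nat_lit 0x1fffe67070a946)) e e))
 (c (a (nat_lit 0x141656769645))
 (c (b (nat_lit 0x1fe9566ca1ade6)) e
 (c (a (nat_lit 0x10b56d30ad6007)) e e))
 (c (a (nat_lit 0x18f8f9593904))
 (c (a (nat_lit 0x14e6d6abc00006)) e
 (c (a (nat_lit 0x6734000000005)) e e))
 (c (b (nat_lit 0x5c5eb10bfe5)) e
 (c z e
 (c (a (nat_lit 0x1555b5d590e8)) e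
 (c (a (nat_lit 0x115d912d8487)) e
 (c (a (nat_lit 0x1a8f4d656007)) e
 (c (a (nat_lit 0x1271d1fa07a5)) e
 (c (a (nat_lit 0x2505817c4)) e
 (c (a (nat_lit 0x3c40a02003)) e
 (c (a (nat_lit 0x4240000001)) e e))))))))))))))
 (c (a (nat_lit 0x200001))
 (c (a (nat_lit 0x1900a0505063))
 (c (a (nat_lit 0xc2c88d2c9c046)) e
 (c (a (nat_lit 0x1e421aeea74046)) e
 (c (a (nat_lit 0x2a9de0bb98906)) e
 (c (a (nat_lit 0x29e8ae944f87)) e e))))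
 (c (a (nat_lit 0x8363c50361))
 (c (a (nat_lit 0x7314cec830987)) e
 (c (a (nat_lit 0xa0a46261307)) e e))
 (c (a (nat_lit 0x1b7ba928e864))
 (c (b (nat_lit 0x7c61ffff52027)) e
 (c (a (nat_lit 0x1130f8b6200008)) e e))
 (c (a (nat_lit 0x19193d9a65a6))
 (c (a (nat_lit 0xa714a80000008)) e e)
 (c (a (nat_lit 0x199df873b886)) e
 (c z e
 (c (a (nat_lit 0x12f333308b08)) e
 (c (a (nat_lit 0x171534e5c007)) e
 (c (a (nat_lit 0x1a5a9a804007)) e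
 (c (a (nat_lit 0x19db3cc0e846)) e
 (c (a (nat_lit 0x4805c7c45)) e
 (c (a (nat_lit 0x1c40a0a00002)) e
 (c (nat_lit 1) e e)))))))))))))
 (c (a (nat_lit 0x20202021))
 (c (a (nat_lit 0x1c0e0c801))
 (c (a (nat_lit 0x1bf0cee1495b85)) e
 (c (a (nat_lit 0x17d3d2fdb52b66)) e
 (c (a (nat_lit 0x102ddacb400007)) e e)))
 (c (a (nat_lit 0x20a098d044))
 (c (a (nat_lit 0xe10d268e66007)) e
 (c (a (nat_lit 0xcf5cb20000007)) e e))
 (c (a (nat_lit 0xa6c4c5b61e5))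
 (c (a (nat_lit 0x1c090000000004)) e e)
 (c (a (nat_lit 0x17175e5b1327)) e
 (c z e
 (c (a (nat_lit 0xe6e0e702c88)) e
 (c (a (nat_lit 0x12f12ee02027)) e
 (c (a (nat_lit 0x1cdccb604267)) e
 (c (a (nat_lit 0xdd020204a67)) e
 (c (a (nat_lit 0x699e2004)) e
 (c (a (nat_lit 0x2040000001)) e e)))))))))))
 (c (nat_lit 1)
 (c (a (nat_lit 0xacad6565645))
 (c (a (nat_lit 0x168968c0400004)) e
 (c (a (nat_lit 0x1e71e000000005)) e e))
 (c (a (nat_lit 0xf78fc1a0006))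
 (c (a (nat_lit 0x17800000000005)) e e)
 (c (b (nat_lit 0x637fc3fffe6)) e
 (c z e
 (c (a (nat_lit 0xeef52f55348)) e
 (c (a (nat_lit 0xfebcb05fa67)) e
 (c (a (nat_lit 0xb25713995c6)) e
 (c (a (nat_lit 0x1dab10604426)) e
 (c (a (nat_lit 0x6f0a0200006)) e
 (c (a (nat_lit 0x10a000000006)) e e))))))))))
 (c (a (nat_lit 0x17a5))
 (c (a (nat_lit 0x1052b16d8886)) e
 (c (a (nat_lit 0x1878eb0638a6)) e
 (c z e
 (c (a (nat_lit 0xf12d52eee08)) e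
 (c (a (nat_lit 0x184f5237e7e6)) e
 (c (b (nat_lit 0xab9ec0bfe6)) e
 (c (a (nat_lit 0xd3878d1e006)) e
 (c (a (nat_lit 0x1fe100000004)) e e))))))))
 (c (a (nat_lit 0x20389885))
 (c (b (nat_lit 0x1387acf95fe5)) e
 (c z e
 (c z e
 (c (b (nat_lit 0x4ffffa9a46)) e
 (c z e
 (c (a (nat_lit 0xacf70600008)) e
 (c (a (nat_lit 0x1e4000000003)) e e)))))))
 (c (a (nat_lit 0x4d10f8f87)) e
 (c (a (nat_lit 0x19fa59d448))
 (c (a (nat_lit 0x1855d7ee5168)) e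
 (c (a (nat_lit 0x17195d360aa8)) e e))
 (c (a (nat_lit 0x14b4a02025))
 (c (a (nat_lit 0x3391e28006)) e
 (c (a (nat_lit 0x1487c0000007)) e e))
 (c (a (nat_lit 0x13a0202025))
 (c (a (nat_lit 0x2000000001)) e e)
 (c (a (nat_lit 0x80606061)) e
 (c (a (nat_lit 0x1c1c3c5c83)) e
 (c (a (nat_lit 0x1010710002)) e
 (c (a (nat_lit 0xfd021a304)) e
 (c (a (nat_lit 0x1aa0404043)) e
 (c (a (nat_lit 0x20e080a1)) e
 (c (a (nat_lit 0x100a0a001)) e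
 (c (a (nat_lit 0x3c3814001)) e
 (c (a (nat_lit 0x522a04001)) e
 (c (a (nat_lit 0x1761200001)) e e))))))))))))))))))))
 C84)))) Tr.c Tr.e (nat_lit 0) C.cx C.cy
noncomputable def C88 : Tr := beta% (fun (c : Nat → Tr → Tr → Tr) (e : Tr) (z : Nat) (a b : Nat → Nat) =>
 (c (a (nat_lit 0x20202021))
 (c (a (nat_lit 0x1f8020202025))
 (c (b (nat_lit 0x137fe100c4a5e6))
 (c (a (nat_lit 0x26524270b114308)) e
 (c (a (nat_lit 0x9cb6ef5f0000009)) e e))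
 (c (a (nat_lit 0x264608e854a7))
 (c (a (nat_lit 0xcf01a2c20000009)) e e)
 (c (b (nat_lit 0x1fffe020427468)) e
 (c z e
 (c z e
 (c z e
 (c z e
 (c (a (nat_lit 0xd582988474008)) e
 (c (a (nat_lit 0x1143c280000008)) e e)))))))))
 (c (a (nat_lit 0x40c0e18361))
 (c (a (nat_lit 0x4040c0ecd848))
 (c (a (nat_lit 0x997c72000000008)) e e)
 (c (a (nat_lit 0x20a0638a59ca)) e
 (c z e
 (c z e
 (c z e
 (c z e
 (c (a (nat_lit 0x1e32eb45000009)) e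
 (c (a (nat_lit 0x1105e000000009)) e e))))))))
 (c (a (nat_lit 0x40817a02)) e
 (c (a (nat_lit 0xacacaf2ef07))
 (c (a (nat_lit 0x788f451a62028)) e e)
 (c z e
 (c z e
 (c z e
 (c (a (nat_lit 0x12d4d4d61107)) e
 (c (a (nat_lit 0xb4b9938b5a7)) e
 (c z e
 (c (a (nat_lit 0x18f918d675e8)) e
 (c (a (nat_lit 0xb6a203d7a65)) e
 (c (b (nat_lit 0x1ffffa00e002)) e
 (c (b (nat_lit 0x1ffba0a08022)) e
 (c (a (nat_lit 0x1ba0c0400002)) e
 (c (a (nat_lit 0x8000000001)) e e))))))))))))))))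
 (c (a (nat_lit 0x20202021))
 (c (a (nat_lit 0x20207503))
 (c (a (nat_lit 0x2021248f9426))
 (c (a (nat_lit 0x14a3800000000006)) e e)
 (c (a (nat_lit 0x2028ab1c53e8)) e
 (c z e
 (c z e
 (c z e
 (c (a (nat_lit 0x13d78342a0a008)) e
 (c (a (nat_lit 0x12c624a0000008)) e
 (c (a (nat_lit 0x1f000000000002)) e e))))))))
 (c (b (nat_lit 0x831fffe1))
 (c z e
 (c z e
 (c z e
 (c z e
 (c z e
 (c (a (nat_lit 0x15efc000000006)) e e))))))
 (c (b (nat_lit 0xfb03ff4a784)) e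
 (c z e
 (c z e
 (c (a (nat_lit 0xd30cce98567)) e
 (c (a (nat_lit 0x1edeb1646585)) e
 (c (a (nat_lit 0x602b16f0fc7)) e
 (c (a (nat_lit 0xf77777c55e8)) e
 (c z e
 (c (a (nat_lit 0xf576aaa94e7)) e
 (c (a (nat_lit 0x19602034b4a6)) e
 (c (a (nat_lit 0x220806001)) e
 (c (a (nat_lit 0x20040000001)) e e))))))))))))))
 (c (a (nat_lit 0x20202021))
 (c (a (nat_lit 0x17f810f0c605)) e
 (c (a (nat_lit 0x9cc302e45e7))
 (c (a (nat_lit 0x13b20ac564aa68)) e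
 (c (a (nat_lit 0x114b2c66ad09a8)) e
 (c (a (nat_lit 0x154c698ce00007)) e e)))
 (c (a (nat_lit 0x13f7f60f2827))
 (c (a (nat_lit 0x2310f0e27c007)) e
 (c (a (nat_lit 0xd932bc0000007)) e e))
 (c (a (nat_lit 0x149bdc5c9804)) e
 (c (b (nat_lit 0x135ff3402005)) e
 (c (a (nat_lit 0x2020203226)) e
 (c (a (nat_lit 0x403119f347)) e
 (c (a (nat_lit 0x40cb12c0a28)) e
 (c z e
 (c (a (nat_lit 0x192d0caccd04)) e
 (c (a (nat_lit 0x10d1f1a0e0e3)) e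
 (c (a (nat_lit 0x120600001)) e
 (c (nat_lit 1) e e)))))))))))))
 (c (a (nat_lit 0x20202021))
 (c (a (nat_lit 0x169d5f3fbfa5))
 (c (a (nat_lit 0x1fb6460b2fd4e5)) e
 (c (a (nat_lit 0xe258af2d1a005)) e
 (c (a (nat_lit 0xb1d580000004)) e e)))
 (c (a (nat_lit 0xe53b43457e6))
 (c (a (nat_lit 0x1529165f000003)) e
 (c (a (nat_lit 0xebb6000000003)) e e))
 (c (a (nat_lit 0xd105072f2e6)) e
 (c (a (nat_lit 0x16161d3d59c5)) e
 (c (a (nat_lit 0xe9e1fb7c0a4)) e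
 (c (a (nat_lit 0x9e9f00e49a8)) e
 (c z e
 (c (a (nat_lit 0x1af452ab6407)) e
 (c (a (nat_lit 0x1c1abeadba6)) e
 (c (a (nat_lit 0x2031110005)) e
 (c (a (nat_lit 0x1e140000001)) e e)))))))))))
 (c (a (nat_lit 0x40404041))
 (c (a (nat_lit 0x12f373937ae5))
 (c (a (nat_lit 0xb5a5d00000001)) e e)
 (c (a (nat_lit 0x1759999f1e65)) e
 (c (a (nat_lit 0xd4d302d4b66)) e
 (c (a (nat_lit 0x1054112d3306)) e
 (c z e
 (c z e
 (c (a (nat_lit 0x15b8d6f860a6)) e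
 (c (a (nat_lit 0x28e8d703006)) e
 (c (a (nat_lit 0xfd3d3c00005)) e
 (c (a (nat_lit 0x2000000001)) e e))))))))))
 (c (a (nat_lit 0x20000001))
 (c (a (nat_lit 0x1898989af2e5)) e
 (c (a (nat_lit 0x1575550b0b86)) e
 (c (a (nat_lit 0x10ee45f04966)) e
 (c (a (nat_lit 0x1e7ade501f86)) e
 (c z e
 (c (a (nat_lit 0xf8f90a7c607)) e
 (c (a (nat_lit 0x633334c0006)) e
 (c (a (nat_lit 0x2e0000001)) e e))))))))
 (c (a (nat_lit 0x200001))
 (c (a (nat_lit 0x1fd11bfd00a4)) e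
 (c (a (nat_lit 0xa6f362ea766)) e
 (c (a (nat_lit 0xeab2bb27007)) e
 (c z e
 (c (b (nat_lit 0x3fe1e23188)) e
 (c (a (nat_lit 0xba10a00005)) e
 (c (a (nat_lit 0x8000000001)) e e)))))))
 (c (a (nat_lit 0x20203c85))
 (c (a (nat_lit 0x17662172cce3)) e
 (c (a (nat_lit 0x4029c4b667)) e
 (c z e
 (c (b (nat_lit 0x1fffeb11e006)) e
 (c (a (nat_lit 0x6f0e0000006)) e e)))))
 (c (a (nat_lit 0x203e1ca5))
 (c (b (nat_lit 0x6bcffffe5)) e e)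
 (c (a (nat_lit 0x976d6d586)) e
 (c (a (nat_lit 0x10f0f10026)) e
 (c (a (nat_lit 0x13f3ea2a26)) e
 (c (a (nat_lit 0x1380202005)) e
 (c (a (nat_lit 0xc0806081)) e
 (c (a (nat_lit 0xa0c0c181)) e
 (c (a (nat_lit 0x20205524)) e
 (c (a (nat_lit 0xe1c061)) e
 (c (a (nat_lit 0x901a08281)) e
 (c (a (nat_lit 0x28041a161)) e
 (c (a (nat_lit 0x16100c1)) e
 (c (a (nat_lit 0x1e120a001)) e
 (c (a (nat_lit 0xc0000001)) e e))))))))))))))))))))))) Tr.c Tr.e (nat_lit 0) C.cx C.cy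
noncomputable def C89 : Tr := beta% (fun (c : Nat → Tr → Tr → Tr) (e : Tr) (z : Nat) (a b : Nat → Nat) =>
 (c (a (nat_lit 0x60606061))
 (c (a (nat_lit 0x2036a5))
 (c (a (nat_lit 0x1a3a3a3973a043))
 (c z e
 (c (a (nat_lit 0x286266c3034d127))
 (c (a (nat_lit 0x22383038b1976cea9)) e e)
 (c z e
 (c z e
 (c z e
 (c (a (nat_lit 0xcedee2c330c0c08)) e
 (c (a (nat_lit 0xe8c5579ed6c8c27)) e
 (c (a (nat_lit 0x7308c46666727c8)) e
 (c (a (nat_lit 0x18f566678ac4a007)) e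
 (c (a (nat_lit 0x13e443e2c0000007)) e e))))))))))
 (c (a (nat_lit 0x147471512cc866))
 (c (a (nat_lit 0x58589aff47266a8))
 (c (a (nat_lit 0x241a1468f10cb48aa)) e e)
 (c z e
 (c z e
 (c z e
 (c (a (nat_lit 0xe30cc728cecec4a)) e
 (c (a (nat_lit 0xe75f70f8c548e89)) e
 (c (a (nat_lit 0x1650aaea6ec98609)) e
 (c (a (nat_lit 0x1026e7aec4200009)) e e))))))))
 (c z e
 (c z e
 (c z e
 (c (a (nat_lit 0xba04040203a84))
 (c z e
 (c (a (nat_lit 0x12d052562d200008)) e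
 (c (a (nat_lit 0xff0ca2000000008)) e e)))
 (c (a (nat_lit 0x80aacadba8c3))
 (c z e
 (c (a (nat_lit 0x1811600000000006)) e e))
 (c (a (nat_lit 0x5e6088bb24005)) e
 (c (a (nat_lit 0x62c2b6fd2c5)) e
 (c (a (nat_lit 0x40749f98be5)) e
 (c (a (nat_lit 0x1a4a8d04ae5e6)) e
 (c (a (nat_lit 0xa89f1f4311346)) e
 (c z e
 (c (a (nat_lit 0x747674411c007)) e
 (c (a (nat_lit 0x15766880000006)) e
 (c (a (nat_lit 0x1bc00000000005)) e e))))))))))))))))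
 (c (a (nat_lit 0x309087))
 (c (a (nat_lit 0x1c331675702d26))
 (c (a (nat_lit 0x426cb91f226c968))
 (c (a (nat_lit 0x3a2c9953cd4b38289)) e e)
 (c z e
 (c z e
 (c z e
 (c (a (nat_lit 0x19d2b613f351b26a)) e
 (c (a (nat_lit 0x104c2d29afca6b6a)) e
 (c z e
 (c (a (nat_lit 0xb0ab8e460000009)) e e))))))))
 (c z e
 (c z e
 (c z e
 (c (a (nat_lit 0x16d6d474cdf926))
 (c z e
 (c (a (nat_lit 0x137279eda0000009)) e e))
 (c (a (nat_lit 0xe15557f9b6005))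
 (c (a (nat_lit 0x163d4dc000000007)) e e)
 (c (b (nat_lit 0x6aa0ff15febc7)) e
 (c (a (nat_lit 0xd0e12b07726)) e
 (c z e
 (c (a (nat_lit 0xa09ccd0ecaac8)) e
 (c (a (nat_lit 0xd90b854b2e028)) e
 (c z e
 (c (a (nat_lit 0xbec06f1c00008)) e
 (c (a (nat_lit 0x13880000000008)) e e))))))))))))))
 (c (a (nat_lit 0x16f6f6e7))
 (c z e
 (c z e
 (c z e
 (c (b (nat_lit 0x948e9dff6e548)) e e))))
 (c z e
 (c (a (nat_lit 0x1c1c1ea42426)) e
 (c (a (nat_lit 0x1fdfc0806065))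
 (c z e
 (c (a (nat_lit 0x258a30307527)) e
 (c (a (nat_lit 0x25e6e8eb3dc8)) e
 (c (a (nat_lit 0x23c668b317a8)) e
 (c (a (nat_lit 0x2322c41045e9)) e
 (c (a (nat_lit 0x58c47f604c4c8)) e
 (c (a (nat_lit 0x229f87a00007)) e e)))))))
 (c (a (nat_lit 0x104121212126))
 (c (a (nat_lit 0x108c58747dde7)) e
 (c (a (nat_lit 0x241a363db7828)) e
 (c (a (nat_lit 0x20812f10e429)) e
 (c (a (nat_lit 0x100ec12a44069)) e
 (c (a (nat_lit 0x76c1b09618008)) e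
 (c (a (nat_lit 0x4f28780000008)) e e))))))
 (c (a (nat_lit 0x100a0806101))
 (c (a (nat_lit 0xa362fd71a2a7)) e
 (c (a (nat_lit 0x81303223c069)) e
 (c (a (nat_lit 0xf02f24212029)) e
 (c (a (nat_lit 0xb97a402400008)) e e))))
 (c (a (nat_lit 0x4040407524))
 (c (a (nat_lit 0x236f7e5208348)) e
 (c (a (nat_lit 0x1333a803a12009)) e
 (c (a (nat_lit 0x16e943e0000008)) e e)))
 (c (a (nat_lit 0x20552464))
 (c (a (nat_lit 0x12e56140200008)) e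
 (c (a (nat_lit 0x10c3c000000007)) e e))
 (c (a (nat_lit 0x16365b1a4a64)) e
 (c (a (nat_lit 0xae8f02f2e87)) e
 (c z e
 (c (a (nat_lit 0x1f5f9f9f9985)) e
 (c (a (nat_lit 0x184040604003)) e
 (c (a (nat_lit 0xe0c0e062c1)) e
 (c (a (nat_lit 0x20209663)) e
 (c (a (nat_lit 0x206b3464)) e
 (c (a (nat_lit 0x472b2d30002)) e
 (c (a (nat_lit 0x120000001)) e e))))))))))))))))))))
 (c (a (nat_lit 0x40404021))
 (c (a (nat_lit 0x14150d0d0c8))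
 (c (a (nat_lit 0x96c389df753c5))
 (c (a (nat_lit 0xd303818f22eb387)) e
 (c z e
 (c z e
 (c (a (nat_lit 0x1432b770d12fb0ea)) e
 (c (a (nat_lit 0x18f63978f47455c9)) e
 (c (a (nat_lit 0xa70cdb00b2c88e9)) e
 (c z e
 (c (a (nat_lit 0xeddc2c000000008)) e e))))))))
 (c z e
 (c z e
 (c (a (nat_lit 0x1011926a4dd2e8)) e
 (c (a (nat_lit 0x10ee8ee3f430c7)) e
 (c (a (nat_lit 0x12545a1746ed87)) e
 (c z e
 (c (a (nat_lit 0xaefd1ee6f1607)) e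
 (c z e
 (c (a (nat_lit 0xc4bb4b4324028)) e
 (c (a (nat_lit 0x13595797fc0068)) e e)))))))))))
 (c z e
 (c (a (nat_lit 0x161616440408)) e
 (c (a (nat_lit 0x1d1fa0202026))
 (c (b (nat_lit 0x1fffe6a02ef8e7))
 (c (a (nat_lit 0x1f7e4ab768a00008)) e e)
 (c z e
 (c z e
 (c z e
 (c z e
 (c z e
 (c z e
 (c (a (nat_lit 0x8117a64400009)) e e))))))))
 (c (a (nat_lit 0x1c6020202026))
 (c z e
 (c (b (nat_lit 0x3fffe1e671c9)) e
 (c (a (nat_lit 0x1852971eccde9)) e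
 (c z e
 (c z e
 (c (a (nat_lit 0x19b7ae4d6d0008)) e
 (c (a (nat_lit 0x13c2ccc0000007)) e e)))))))
 (c (a (nat_lit 0x1a12120c181))
 (c (a (nat_lit 0x1e464a41caee8)) e
 (c (a (nat_lit 0x82e2ff4a67a9)) e
 (c z e
 (c (a (nat_lit 0xad2330e6a09ea)) e
 (c (a (nat_lit 0x1ba62ae2400008)) e
 (c (a (nat_lit 0xeb80000000007)) e e))))))
 (c (a (nat_lit 0x2020205b44))
 (c (b (nat_lit 0x10131ffe26489)) e
 (c z e
 (c (a (nat_lit 0x15304fef89c00a)) e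
 (c (a (nat_lit 0x147a4fe0000008)) e e))))
 (c (a (nat_lit 0x205b6604))
 (c (b (nat_lit 0x8cc6665557fe8)) e e)
 (c (a (nat_lit 0x171717575729)) e
 (c (a (nat_lit 0x18d8dd7d9ac7)) e
 (c (a (nat_lit 0xe72b7f97708)) e
 (c z e
 (c (a (nat_lit 0x1fbfbfbfbbe7)) e
 (c (a (nat_lit 0x38220c0c241)) e
 (c (a (nat_lit 0x6020409d04)) e
 (c (a (nat_lit 0x209d1fe4)) e
 (c (b (nat_lit 0x1fe6b266e5c2)) e
 (c (a (nat_lit 0x1281a00001)) e
 (c (a (nat_lit 0x102000000001)) e e)))))))))))))))))))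
 (c (a (nat_lit 0x20202021))
 (c (a (nat_lit 0x13f3f4044447)) e
 (c (a (nat_lit 0x1f1f00202006)) e
 (c (a (nat_lit 0x1f6020202026)) e
 (c (a (nat_lit 0x60a10241))
 (c z e
 (c (a (nat_lit 0x10d53543ec7)) e e))
 (c (a (nat_lit 0x20205dc4))
 (c (a (nat_lit 0x1c383eb348028)) e
 (c (b (nat_lit 0x4851fd9fffe7)) e e))
 (c (a (nat_lit 0x2020508385)) e
 (c z e
 (c z e
 (c z e
 (c z e
 (c z e
 (c (a (nat_lit 0x139393938fa7)) e
 (c (a (nat_lit 0x2020203528)) e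
 (c (a (nat_lit 0x2020352228)) e
 (c (a (nat_lit 0x216a22228)) e
 (c (a (nat_lit 0x34a0202008)) e
 (c (a (nat_lit 0x14a020000008)) e e)))))))))))))))))
 C88)))) Tr.c Tr.e (nat_lit 0) C.cx C.cy
noncomputable def C90 : Tr := beta% (fun (c : Nat → Tr → Tr → Tr) (e : Tr) (z : Nat) (a b : Nat → Nat) =>
 (c (a (nat_lit 0x20202021))
 (c (a (nat_lit 0xff0e8a8a8a7))
 (c (a (nat_lit 0xbe6605c5c9a6))
 (c (a (nat_lit 0xe80aacd396d847)) e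
 (c (a (nat_lit 0x9690f14d56c6009)) e
 (c (a (nat_lit 0x18efefd1a0000008)) e e)))
 (c (a (nat_lit 0x1c80806046e566))
 (c (a (nat_lit 0xd545bbfab800009)) e
 (c (a (nat_lit 0x122e2e000000000a)) e e))
 (c (a (nat_lit 0x26040a5053167)) e
 (c (a (nat_lit 0x2387892d31a8)) e
 (c (a (nat_lit 0x2e06ebcaae7)) e
 (c z e
 (c z e
 (c (a (nat_lit 0xad117964d2b48)) e
 (c (a (nat_lit 0x5cc52c2e00008)) e e)))))))))
 (c (a (nat_lit 0x10e020202027))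
 (c (a (nat_lit 0x2040c4a33926))
 (c (a (nat_lit 0x9adb52520000009)) e
 (c (a (nat_lit 0x1dddc00000000009)) e e))
 (c (a (nat_lit 0x202120a69689)) e
 (c (a (nat_lit 0x224329d4cf69)) e
 (c (a (nat_lit 0x5ecb174ebc9)) e
 (c z e
 (c z e
 (c (a (nat_lit 0xab48f2a458009)) e
 (c (a (nat_lit 0x108ee460000009)) e e))))))))
 (c (a (nat_lit 0x1c141e243a1))
 (c (a (nat_lit 0x2161286d7b88)) e
 (c (b (nat_lit 0x1fffe5e6755d08)) e
 (c z e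
 (c z e
 (c z e
 (c z e
 (c (a (nat_lit 0x15268000000009)) e e)))))))
 (c (a (nat_lit 0x2020205064))
 (c (a (nat_lit 0x3e7e653ca04c8)) e
 (c (a (nat_lit 0x106f947e856ae8)) e e))
 (c (a (nat_lit 0xfcfcff3e446))
 (c (a (nat_lit 0xb4a35c72a8a08)) e e)
 (c (b (nat_lit 0x1414bfffffe5)) e
 (c z e
 (c (a (nat_lit 0x16f7373715a8)) e
 (c (a (nat_lit 0xf8f6f7433e5)) e
 (c (a (nat_lit 0x7273090b148)) e
 (c (a (nat_lit 0x1319797a3868)) e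
 (c (a (nat_lit 0x166d6800dcc4)) e
 (c (a (nat_lit 0xc5c07d3ce4)) e
 (c (a (nat_lit 0x19c0604003)) e
 (c (a (nat_lit 0x1b6141c06003)) e
 (c (a (nat_lit 0xaa700000001)) e e))))))))))))))))
 (c (a (nat_lit 0x20202021))
 (c (a (nat_lit 0x261e20242e1))
 (c (a (nat_lit 0x2020210933c6))
 (c (a (nat_lit 0x755c3a000000007)) e
 (c (a (nat_lit 0x1360000000000008)) e e))
 (c (a (nat_lit 0x2020212f3c48)) e
 (c (a (nat_lit 0x12a10d26d28)) e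
 (c (a (nat_lit 0x5287026a369)) e
 (c z e
 (c (a (nat_lit 0x77e1008cce187)) e
 (c (a (nat_lit 0x182ecd07400008)) e
 (c (a (nat_lit 0x11a62000000007)) e e))))))))
 (c (a (nat_lit 0x204060d743))
 (c (a (nat_lit 0x1c1602286ff68)) e
 (c (a (nat_lit 0x1e8111c551849)) e
 (c z e
 (c z e
 (c (a (nat_lit 0x18d40faca50009)) e
 (c (a (nat_lit 0x167087c0000009)) e
 (c (a (nat_lit 0x10200000000008)) e e)))))))
 (c (a (nat_lit 0x179797bb1807))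
 (c (a (nat_lit 0x1173d5f3132e69)) e
 (c (a (nat_lit 0xa6cd1e9e7860a)) e
 (c z e
 (c z e
 (c (a (nat_lit 0x11c4e000000008)) e e)))))
 (c (a (nat_lit 0x113151916f67))
 (c (a (nat_lit 0xf98d591c7ca48)) e e)
 (c z e
 (c (a (nat_lit 0x1010eaaaa326)) e
 (c (a (nat_lit 0x1bfbbb40a964)) e
 (c (a (nat_lit 0x2041f086)) e
 (c (a (nat_lit 0x2035dd3a67)) e
 (c (a (nat_lit 0xb2ed08fef49)) e
 (c (a (nat_lit 0x1a96d675a5)) e
 (c (a (nat_lit 0x105600406003)) e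
 (c (a (nat_lit 0x1600c0406003)) e
 (c (a (nat_lit 0x7a582600001)) e
 (c (a (nat_lit 0x32000000001)) e e)))))))))))))))
 (c (a (nat_lit 0x20202021))
 (c (a (nat_lit 0xd0d0d3203e5))
 (c (a (nat_lit 0x10026f48caa67)) e
 (c (a (nat_lit 0x82fd5ec4f49e8)) e
 (c z e
 (c z e
 (c z e
 (c (a (nat_lit 0x1104e000000006)) e e))))))
 (c (a (nat_lit 0x131356f74467))
 (c (a (nat_lit 0xeb1362b692988)) e
 (c (a (nat_lit 0x1b1a554eee13e8)) e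
 (c (a (nat_lit 0x1e9f3b18d3c007)) e
 (c (a (nat_lit 0x1d1bcb20000007)) e e))))
 (c (a (nat_lit 0x9d74b89e867))
 (c (a (nat_lit 0x144f944ed4cc07)) e
 (c (a (nat_lit 0x970734dc00007)) e e))
 (c (a (nat_lit 0x14145454b4c5))
 (c (a (nat_lit 0x7538860000006)) e e)
 (c (b (nat_lit 0x15dff5c04064)) e
 (c (a (nat_lit 0x1e1a2032581)) e
 (c (a (nat_lit 0x76767677447)) e
 (c (a (nat_lit 0x4242ff65048)) e
 (c (a (nat_lit 0x107c5f7cb768)) e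
 (c (a (nat_lit 0x7d82f575725)) e
 (c (a (nat_lit 0xca242812001)) e
 (c (a (nat_lit 0x40282208001)) e
 (c (a (nat_lit 0x200c0000001)) e e)))))))))))))
 (c (a (nat_lit 0x20202021))
 (c (a (nat_lit 0xb56b93956a5))
 (c (a (nat_lit 0x155184a1e22646)) e
 (c (a (nat_lit 0x1b4862a3a885e7)) e
 (c (a (nat_lit 0x1e8ea46c200005)) e
 (c (a (nat_lit 0x1ac06000000005)) e e))))
 (c (a (nat_lit 0x13985858f8e6))
 (c (a (nat_lit 0x1085074ec74006)) e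
 (c (a (nat_lit 0xb4952e0000005)) e e))
 (c (a (nat_lit 0x12f454d4d866))
 (c (a (nat_lit 0x591e000000004)) e e)
 (c (a (nat_lit 0xdce0cf06d66)) e
 (c (a (nat_lit 0xa2a0dcad026)) e
 (c (a (nat_lit 0x125412954d47)) e
 (c (a (nat_lit 0x969106d80e9)) e
 (c (a (nat_lit 0x159b1550f148)) e
 (c (a (nat_lit 0x1e29c689f766)) e
 (c (a (nat_lit 0x3a1f0512fc6)) e
 (c (a (nat_lit 0x2215400002)) e
 (c (a (nat_lit 0x34000000001)) e e))))))))))))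
 (c (a (nat_lit 0x40202021))
 (c (a (nat_lit 0x15151575b585))
 (c z e
 (c (a (nat_lit 0x3f2000000002)) e e))
 (c (a (nat_lit 0x101070b09126)) e
 (c (a (nat_lit 0xd0d2d2d11a6)) e
 (c (a (nat_lit 0x137374bdef65)) e
 (c (a (nat_lit 0x1212548de387)) e
 (c (b (nat_lit 0xd4ef63fea08)) e
 (c (a (nat_lit 0x10f7b4d4db07)) e
 (c (a (nat_lit 0xbe387af1806)) e
 (c (a (nat_lit 0x52d5f926005)) e
 (c (a (nat_lit 0xb60a0000001)) e e))))))))))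
 (c (a (nat_lit 0x20202021))
 (c (a (nat_lit 0xeef2f2c1825)) e
 (c (a (nat_lit 0x12b2ac9d5b25)) e
 (c (a (nat_lit 0x124c1a2b01a5)) e
 (c (b (nat_lit 0xcd0ac7fe287)) e
 (c z e
 (c (a (nat_lit 0x473f3f4d047)) e
 (c (a (nat_lit 0x16aed959d725)) e
 (c (a (nat_lit 0x4b19600004)) e
 (c (a (nat_lit 0x4000000001)) e e)))))))))
 (c (a (nat_lit 0x121010121))
 (c (a (nat_lit 0xbaa0c722046)) e
 (c (a (nat_lit 0x1514f7300006)) e
 (c (a (nat_lit 0x17e72484ba46)) e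
 (c z e
 (c (b (nat_lit 0x1ffff63c33e6)) e
 (c (a (nat_lit 0x1c231e78005)) e
 (c (a (nat_lit 0xbcc0000004)) e e)))))))
 (c (nat_lit 1)
 (c (a (nat_lit 0x175120c076a4)) e
 (c (a (nat_lit 0x3604024b287)) e
 (c (a (nat_lit 0x121062873c8)) e
 (c (a (nat_lit 0x526c76911a9)) e
 (c (a (nat_lit 0x134cd2600004)) e
 (c (a (nat_lit 0x96000000001)) e e))))))
 (c (a (nat_lit 0x20001e85))
 (c (a (nat_lit 0x3ba605ea3)) e
 (c (b (nat_lit 0x22ba44ffe7)) e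
 (c (a (nat_lit 0x3a8aaf0a008)) e
 (c (a (nat_lit 0x18c080000005)) e e))))
 (c (a (nat_lit 0x7a7b19187))
 (c (b (nat_lit 0x2579691fe7)) e e)
 (c (a (nat_lit 0x1295b5b5a8)) e
 (c (a (nat_lit 0x1878786806)) e
 (c (a (nat_lit 0xc90c68686)) e
 (c (a (nat_lit 0x14a0202005)) e
 (c (a (nat_lit 0x80208061)) e
 (c (a (nat_lit 0x40406121)) e
 (c (a (nat_lit 0x2054c4)) e
 (c (a (nat_lit 0x11b203b2a4)) e
 (c (a (nat_lit 0x160a0a1)) e
 (c (a (nat_lit 0x1c0e181)) e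
 (c (a (nat_lit 0x12020c041)) e
 (c (a (nat_lit 0x20400001)) e e))))))))))))))))))))))) Tr.c Tr.e (nat_lit 0) C.cx C.cy
noncomputable def C91 : Tr := beta% (fun (c : Nat → Tr → Tr → Tr) (e : Tr) (z : Nat) (a b : Nat → Nat) =>
 (c (a (nat_lit 0xa0a0a0a1))
 (c (a (nat_lit 0x202001))
 (c (a (nat_lit 0x1dddddddfcb163))
 (c (a (nat_lit 0x203a646e9f15467))
 (c z e
 (c (a (nat_lit 0x6448445474af01b0a)) e
 (c (a (nat_lit 0x4c364058666f38aea)) e e)))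
 (c (a (nat_lit 0x346284a6f5596e9)) e
 (c z e
 (c z e
 (c z e
 (c (a (nat_lit 0x14d636378f94f449)) e
 (c (a (nat_lit 0x16b7347f7f567308)) e
 (c (a (nat_lit 0xd0bd90e0e69cb69)) e
 (c (a (nat_lit 0xa794a6827aa25e9)) e
 (c (a (nat_lit 0x1912e96a66000008)) e
 (c (a (nat_lit 0x15a7e24000000007)) e e)))))))))))
 (c (a (nat_lit 0x18f8f95691a006))
 (c z e
 (c z e
 (c z e
 (c z e
 (c z e
 (c (a (nat_lit 0x1553787513ceb20a)) e e))))))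
 (c z e
 (c z e
 (c z e
 (c (a (nat_lit 0x1f3819d9c04be4))
 (c z e
 (c (a (nat_lit 0x104dc9c62ce3a009)) e
 (c (a (nat_lit 0x13718d6ae0000009)) e e)))
 (c (a (nat_lit 0x28060478ad285))
 (c (a (nat_lit 0x1dd577bfce200007)) e
 (c (a (nat_lit 0x1193acc000000008)) e e))
 (c (a (nat_lit 0x202567d4c6))
 (c (a (nat_lit 0x1308800000000007)) e e)
 (c (a (nat_lit 0x20c36953e7)) e
 (c (a (nat_lit 0x25c70c735767)) e
 (c (a (nat_lit 0x24a7f3b5d347)) e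
 (c z e
 (c z e
 (c (a (nat_lit 0x163a522e07548)) e
 (c (a (nat_lit 0x1151f127400008)) e
 (c (a (nat_lit 0x14aa0000000008)) e e))))))))))))))))
 (c (a (nat_lit 0x2030c8))
 (c (b (nat_lit 0x12327fffffe047)) e
 (c z e
 (c z e
 (c z e
 (c (a (nat_lit 0xef373ad6d6227))
 (c z e
 (c (a (nat_lit 0xc0a0c104740000a)) e
 (c (a (nat_lit 0x11fd120000000009)) e e)))
 (c (a (nat_lit 0x40276a901b46))
 (c (a (nat_lit 0x15f43c2ac0000008)) e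
 (c (a (nat_lit 0x106c600000000009)) e e))
 (c (a (nat_lit 0x2546354a07))
 (c (a (nat_lit 0x1c00000000000006)) e e)
 (c (b (nat_lit 0x1fe3c6a8cf9028)) e
 (c (a (nat_lit 0x82aededf29049)) e
 (c (a (nat_lit 0x3a6cc16f6ea88)) e
 (c z e
 (c z e
 (c (a (nat_lit 0x2656400d18009)) e
 (c (a (nat_lit 0x13d28820000009)) e
 (c (a (nat_lit 0x15000000000008)) e e)))))))))))))))
 (c (a (nat_lit 0x202030d0c8))
 (c z e
 (c z e
 (c z e
 (c (a (nat_lit 0x159b7a9ccc1f08))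
 (c z e
 (c (a (nat_lit 0x195717eee000000a)) e e))
 (c (a (nat_lit 0x3a46756e027))
 (c (a (nat_lit 0x116c48a000000008)) e e)
 (c z e
 (c z e
 (c z e
 (c z e
 (c z e
 (c z e
 (c (a (nat_lit 0x29c8db600007)) e
 (c (a (nat_lit 0x1348e000000009)) e e)))))))))))))
 (c (a (nat_lit 0x3839c3a7a68)) e
 (c z e
 (c (a (nat_lit 0x1c7c7d2e2e28))
 (c z e
 (c (a (nat_lit 0x1ae9088cf5d4a8)) e
 (c (a (nat_lit 0x6945394b1fe28)) e
 (c (a (nat_lit 0x6c1e3a54a5de9)) e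
 (c (a (nat_lit 0xd4eb4b7504788)) e
 (c (a (nat_lit 0x1755dff6c35aa8)) e e))))))
 (c (a (nat_lit 0x159aeb2b2b27))
 (c (a (nat_lit 0x21ad053d69a27)) e
 (c (a (nat_lit 0x324e5a7a7f689)) e
 (c (a (nat_lit 0x43c4c6bacaa9)) e
 (c (b (nat_lit 0x1fe5a87e73edc8)) e
 (c (a (nat_lit 0x2a5d2ed674169)) e e)))))
 (c (a (nat_lit 0x190020202026))
 (c (a (nat_lit 0x23e443f127c8)) e
 (c (a (nat_lit 0xc12254012b29)) e
 (c (a (nat_lit 0x1014eca710049)) e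
 (c (a (nat_lit 0x2d2ca6c814009)) e e))))
 (c (a (nat_lit 0x220c0a10261))
 (c (a (nat_lit 0x1429024e5c209)) e
 (c (b (nat_lit 0x2955fed228009)) e
 (c (b (nat_lit 0x185feb01c00009)) e e)))
 (c (a (nat_lit 0x2020207585))
 (c (b (nat_lit 0x10ffeb29a0e008)) e
 (c (a (nat_lit 0x118e900000008)) e e))
 (c (a (nat_lit 0x5c5c61b3425))
 (c (a (nat_lit 0x16206000000006)) e e)
 (c (a (nat_lit 0x8accf70ec48)) e
 (c z e
 (c (a (nat_lit 0x1639d9d9d9c7)) e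
 (c (a (nat_lit 0x1e77b7d7e143)) e
 (c (a (nat_lit 0x1680e0a0c1a2)) e
 (c (a (nat_lit 0x60809c82)) e
 (c (a (nat_lit 0x60879f84)) e
 (c (a (nat_lit 0x565a7bf5f44)) e
 (c (a (nat_lit 0x9232600002)) e
 (c (a (nat_lit 0x2000000001)) e e)))))))))))))))))))))
 (c (a (nat_lit 0x40404041))
 (c (a (nat_lit 0x2020305047))
 (c z e
 (c z e
 (c z e
 (c z e
 (c (a (nat_lit 0x18157335085347))
 (c z e
 (c (a (nat_lit 0x1291f4cc20000009)) e e))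
 (c (a (nat_lit 0x640587334426))
 (c (a (nat_lit 0x139c088000000007)) e e)
 (c (a (nat_lit 0x315096f1dfc6)) e
 (c z e
 (c (a (nat_lit 0x24586da2d85a7)) e
 (c (a (nat_lit 0xfd0dad4d39168)) e
 (c z e
 (c z e
 (c (b (nat_lit 0x1fe4e03c400007)) e
 (c (a (nat_lit 0x1408e000000008)) e e))))))))))))))
 (c (a (nat_lit 0x20306f8f89)) e
 (c z e
 (c (a (nat_lit 0x17373723e3e8)) e
 (c (a (nat_lit 0x10722a2a0a08))
 (c z e
 (c (a (nat_lit 0x4cb8db0931528)) e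
 (c (a (nat_lit 0x284e9ca5169)) e
 (c (a (nat_lit 0x8a78e70b04989)) e e))))
 (c (a (nat_lit 0x106242424227))
 (c (a (nat_lit 0x108826464f8e8)) e
 (c (a (nat_lit 0x404450654b429)) e
 (c (a (nat_lit 0x41833deb8069)) e
 (c (b (nat_lit 0x4213cbffffe9)) e e))))
 (c (a (nat_lit 0x261612121e1))
 (c (a (nat_lit 0x1228470efe0c8)) e
 (c (b (nat_lit 0x21f6ea7fffe9)) e e))
 (c (a (nat_lit 0x2020205c04))
 (c z e
 (c (a (nat_lit 0x1d24e98be3a009)) e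
 (c (a (nat_lit 0x8f81340000007)) e e)))
 (c (a (nat_lit 0x5a767b66785))
 (c (a (nat_lit 0x2a47521200007)) e
 (c (a (nat_lit 0x16f94000000007)) e e))
 (c (a (nat_lit 0x12f39adcbcc6))
 (c (a (nat_lit 0x15c00000000005)) e e)
 (c z e
 (c z e
 (c (a (nat_lit 0x1a9efefeff07)) e
 (c (a (nat_lit 0x199898b8e003)) e
 (c (a (nat_lit 0x240c0e05a22)) e
 (c (a (nat_lit 0x7a7a5a935a5)) e
 (c (a (nat_lit 0x1797783e7e66)) e
 (c (a (nat_lit 0x16382a16001)) e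
 (c (a (nat_lit 0x403c0000001)) e e)))))))))))))))))))
 (c (a (nat_lit 0x20204021))
 (c z e
 (c (a (nat_lit 0x12d2d2c96929))
 (c (a (nat_lit 0x12957549880ea7))
 (c (a (nat_lit 0x7830a6c69102c89)) e e)
 (c z e
 (c z e
 (c (a (nat_lit 0x864470c2cd4e9)) e
 (c (a (nat_lit 0x826a721969be8)) e
 (c z e
 (c z e
 (c z e
 (c (b (nat_lit 0x102e9fff82e009)) e e)))))))))
 (c (a (nat_lit 0xf7181002007))
 (c (b (nat_lit 0x18bfffffe22861)) e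
 (c (b (nat_lit 0x7fe242e71508)) e e))
 (c (a (nat_lit 0x100020202027))
 (c (a (nat_lit 0x5410044c8b228)) e
 (c (b (nat_lit 0x1fffe5c7cef1a8)) e
 (c (a (nat_lit 0x305c8f1886648)) e
 (c (a (nat_lit 0x40379bfaa8be8)) e e))))
 (c (a (nat_lit 0x120c0c0a161))
 (c (a (nat_lit 0xe12220eb5328)) e
 (c (a (nat_lit 0x2a31858e0c8)) e
 (c (b (nat_lit 0x63763a9fe028)) e e)))
 (c (a (nat_lit 0x2020203ce4))
 (c (a (nat_lit 0x21f72bc08147)) e e)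
 (c (b (nat_lit 0x2c3467fffe1)) e
 (c z e
 (c z e
 (c (a (nat_lit 0x19937251b1a7)) e
 (c z e
 (c (a (nat_lit 0xd32323252e8)) e
 (c (a (nat_lit 0x1f40e0d77503)) e
 (c (a (nat_lit 0xd6747683)) e
 (c (a (nat_lit 0x2120c154e4)) e
 (c (a (nat_lit 0x749494d484)) e
 (c (a (nat_lit 0xe2a1a00001)) e
 (c (a (nat_lit 0x2000000001)) e e))))))))))))))))))
 C90)))) Tr.c Tr.e (nat_lit 0) C.cx C.cy
noncomputable def C92 : Tr := beta% (fun (c : Nat → Tr → Tr → Tr) (e : Tr) (z : Nat) (a b : Nat → Nat) =>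
 (c (a (nat_lit 0x20002001))
 (c (a (nat_lit 0x4232323840001))
 (c (a (nat_lit 0x1616343a4ccb288))
 (c (a (nat_lit 0x110b2e0becb1971f08)) e
 (c z e
 (c z e
 (c z e
 (c z e
 (c (a (nat_lit 0xe2fd26dcac000000a)) e
 (c (a (nat_lit 0x1a3dee400000000009)) e
 (c (a (nat_lit 0x102000000000000009)) e e))))))))
 (c (a (nat_lit 0x20345c6896e31aa)) e
 (c z e
 (c z e
 (c z e
 (c (a (nat_lit 0x129356b0d5492cc9)) e
 (c (a (nat_lit 0x1a3a18d55f3cf988)) e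
 (c (a (nat_lit 0x10afadbc6c53ccc9)) e
 (c (a (nat_lit 0x7c6d1e4c786684a)) e
 (c (a (nat_lit 0xbf06b2b0d86e009)) e
 (c (a (nat_lit 0x118aee84e0000008)) e e)))))))))))
 (c (b (nat_lit 0x14949494bfe105))
 (c z e
 (c z e
 (c z e
 (c z e
 (c (a (nat_lit 0xf308f90490c4c4b)) e
 (c (a (nat_lit 0x12310f3230ce2a2a)) e
 (c (a (nat_lit 0x1210594e914c09ca)) e
 (c z e
 (c (a (nat_lit 0x1348ab94a5c00008)) e
 (c (a (nat_lit 0xb32e06000000007)) e e))))))))))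
 (c (a (nat_lit 0x1d3d5d9ad14146))
 (c z e
 (c z e
 (c z e
 (c z e
 (c (a (nat_lit 0x17f673785eb1d28a)) e e)))))
 (c (b (nat_lit 0x16b6ccbfffffe7)) e
 (c z e
 (c (a (nat_lit 0x1c9b58108561e6))
 (c z e
 (c (a (nat_lit 0xa93b38a250c05c9)) e
 (c (a (nat_lit 0x13d1aac8e7c00009)) e
 (c (a (nat_lit 0x1a71e7c000000008)) e e))))
 (c (a (nat_lit 0x64e6f6f8fffa4))
 (c (a (nat_lit 0x130e09cd31472008)) e
 (c (a (nat_lit 0x1770b50de0000008)) e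
 (c (a (nat_lit 0x11ccc00000000008)) e e)))
 (c (a (nat_lit 0x26060402f5085))
 (c (a (nat_lit 0x1173880000000007)) e
 (c (a (nat_lit 0x12a0000000000007)) e e))
 (c (a (nat_lit 0x2023e7d6e6)) e
 (c (a (nat_lit 0x22024eb687)) e
 (c (a (nat_lit 0x27468b3ef887)) e
 (c z e
 (c z e
 (c (a (nat_lit 0x23b1d98af8506)) e
 (c (a (nat_lit 0x1f7fdfdc4b2007)) e
 (c (a (nat_lit 0x131308a0000008)) e
 (c (a (nat_lit 0x14c00000000007)) e e)))))))))))))))))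
 (c (a (nat_lit 0x20202001))
 (c (a (nat_lit 0x1454553026c005))
 (c z e
 (c z e
 (c z e
 (c z e
 (c (a (nat_lit 0xfd2518b2f8eb1aa)) e
 (c (a (nat_lit 0x13f25493b232e9c9)) e
 (c z e
 (c z e
 (c (a (nat_lit 0x1e37340e0000008)) e
 (c (a (nat_lit 0x122d200000000008)) e e))))))))))
 (c z e
 (c z e
 (c z e
 (c (a (nat_lit 0x14d3f2f2a88c46))
 (c z e
 (c (a (nat_lit 0xd6f8f928de8a009)) e
 (c (a (nat_lit 0x1709be4d20000008)) e e)))
 (c (a (nat_lit 0x747878eef7065))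
 (c (a (nat_lit 0x7086bd0a5400008)) e
 (c (a (nat_lit 0xab90f2000000008)) e e))
 (c (a (nat_lit 0x202047e6b866))
 (c (a (nat_lit 0x12e7800000000007)) e e)
 (c (a (nat_lit 0x4023c5b63c26)) e
 (c (a (nat_lit 0x246387e711e8)) e
 (c (a (nat_lit 0x1e2a4c8d14be8)) e
 (c z e
 (c z e
 (c (b (nat_lit 0x1feb87e3a0b428)) e
 (c (a (nat_lit 0x17526fa6600008)) e
 (c (a (nat_lit 0x15494000000008)) e e)))))))))))))))
 (c (a (nat_lit 0x202030e7))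
 (c z e
 (c (a (nat_lit 0x1fd5b5388d2007))
 (c (a (nat_lit 0xeb14eb12d688cca)) e
 (c z e
 (c z e
 (c z e
 (c (a (nat_lit 0x17ee728f2b200009)) e e)))))
 (c z e
 (c (a (nat_lit 0xcb38d6bb46006))
 (c z e
 (c (a (nat_lit 0x1191d3774ac00009)) e
 (c (a (nat_lit 0xc916ae000000009)) e e)))
 (c (a (nat_lit 0xf0b4ef4510006))
 (c (a (nat_lit 0x18b99ccb00000007)) e
 (c (a (nat_lit 0x13ac200000000008)) e e))
 (c (a (nat_lit 0x227944c5c6005)) e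
 (c (a (nat_lit 0x27abed8b7206)) e
 (c z e
 (c z e
 (c (a (nat_lit 0x1472753b1a0ec8)) e
 (c z e
 (c (a (nat_lit 0x6cc6c2b340008)) e
 (c (a (nat_lit 0x10afe720000008)) e
 (c (a (nat_lit 0x11800000000007)) e e))))))))))))))
 (c (a (nat_lit 0x5a5a5b69687))
 (c (a (nat_lit 0x13d3b3de68c985))
 (c (a (nat_lit 0x1613d6d1a9f06fa8)) e
 (c (a (nat_lit 0x1473d24bcd2ceeaa)) e
 (c z e
 (c (a (nat_lit 0x116a2f6eb2ac4009)) e
 (c (a (nat_lit 0x771af4e00000008)) e e)))))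
 (c (a (nat_lit 0x11719a96fc8fa6))
 (c (a (nat_lit 0x15b5702e6e6fb46a)) e
 (c z e
 (c (a (nat_lit 0xc6b2cb68fa0000a)) e
 (c (a (nat_lit 0xff2f60000000009)) e e))))
 (c (a (nat_lit 0xd8ecd90c7e708))
 (c (a (nat_lit 0xa6949302d46200a)) e
 (c (a (nat_lit 0xc2ab2c90000000a)) e e))
 (c (a (nat_lit 0x1090f4532bc007))
 (c (a (nat_lit 0x1219abc000000008)) e e)
 (c (a (nat_lit 0x87bbb9e46a3c6)) e
 (c z e
 (c z e
 (c (a (nat_lit 0x1dfeda9f3557c7)) e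
 (c (b (nat_lit 0xc274e56e21fe7)) e
 (c (a (nat_lit 0x5c72a1201c029)) e
 (c (a (nat_lit 0xe10569b400008)) e
 (c (a (nat_lit 0x1baf0000000007)) e e))))))))))))
 (c (a (nat_lit 0x5657f5f5f47))
 (c (a (nat_lit 0x8e911db35dd86))
 (c (a (nat_lit 0xd4c8847e9a9f2a9)) e
 (c (a (nat_lit 0x13efcf6fccc8800a)) e
 (c (a (nat_lit 0x767f471a0000009)) e
 (c (a (nat_lit 0x1bbea00000000007)) e e))))
 (c (a (nat_lit 0xc2f7f78749627))
 (c (a (nat_lit 0x1615961d08a00009)) e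
 (c (a (nat_lit 0x15feb8a000000009)) e e))
 (c (a (nat_lit 0xbd211ee6a6ae8))
 (c (a (nat_lit 0x19edc00000000009)) e e)
 (c (a (nat_lit 0x1c1a7bedac92c7)) e
 (c z e
 (c z e
 (c (a (nat_lit 0x4a3e6c4c47688)) e
 (c (a (nat_lit 0xf4f7b8b290047)) e
 (c (a (nat_lit 0x4c6724ba1e009)) e e)))))))))
 (c (a (nat_lit 0x97733332ba8))
 (c (a (nat_lit 0xdf935f5961be7))
 (c (a (nat_lit 0xd355c49c0000007)) e
 (c (a (nat_lit 0x174d200000000008)) e e))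
 (c (a (nat_lit 0x1171ebeacf92e8)) e
 (c (a (nat_lit 0xa904a8b4d2788)) e
 (c (a (nat_lit 0x1454ee1483b327)) e
 (c (a (nat_lit 0x909cb21667068)) e
 (c (a (nat_lit 0xeb408aeaefb68)) e
 (c (b (nat_lit 0x1a6f935fe66027)) e
 (c (a (nat_lit 0x6530ec6c00009)) e e))))))))
 (c (a (nat_lit 0xf2f30a4c427))
 (c (a (nat_lit 0x15e4a3b07054a6)) e
 (c (a (nat_lit 0x62d8bcf10b487)) e
 (c (a (nat_lit 0x866276a8cd827)) e
 (c (a (nat_lit 0xc0c32383f088)) e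
 (c (a (nat_lit 0x40a12691e269)) e
 (c (a (nat_lit 0x3248af3a1e009)) e
 (c (a (nat_lit 0x10e79000000009)) e e)))))))
 (c (a (nat_lit 0x11154846e6e6))
 (c (a (nat_lit 0x272c6f4e3446)) e
 (c (a (nat_lit 0xe5c425687d08)) e
 (c (a (nat_lit 0x282c2a1b76d88)) e
 (c (a (nat_lit 0x16114dee58028)) e
 (c (a (nat_lit 0x5511de7a00008)) e
 (c (a (nat_lit 0x23de000000007)) e e))))))
 (c (a (nat_lit 0x1b2181618185))
 (c (a (nat_lit 0xa021657107e8)) e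
 (c (a (nat_lit 0x1f1dbbbada7)) e
 (c (a (nat_lit 0x2b15bb1a0c008)) e
 (c (a (nat_lit 0xc708720000009)) e e))))
 (c (a (nat_lit 0x2a1e202c421))
 (c (b (nat_lit 0x32cffec12a4a7)) e
 (c (a (nat_lit 0x14af3247400008)) e e))
 (c (a (nat_lit 0x606080b544))
 (c (a (nat_lit 0x15ef8020000007)) e
 (c (a (nat_lit 0x19600000000007)) e e))
 (c (a (nat_lit 0x8283075b126)) e
 (c (a (nat_lit 0x13f41999d988)) e
 (c (a (nat_lit 0xfb1919190a8)) e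
 (c (a (nat_lit 0x163151312024)) e
 (c (a (nat_lit 0x96281a222c1)) e
 (c (a (nat_lit 0x80a0e181)) e
 (c (a (nat_lit 0x40a0d642)) e
 (c (a (nat_lit 0x181a0631045)) e
 (c (a (nat_lit 0x2025b00004)) e
 (c (a (nat_lit 0x4080000001)) e e)))))))))))))))))))))) Tr.c Tr.e (nat_lit 0) C.cx C.cy
noncomputable def C93 : Tr := beta% (fun (c : Nat → Tr → Tr → Tr) (e : Tr) (z : Nat) (a b : Nat → Nat) =>
 (c (nat_lit 1)
 (c (a (nat_lit 0x1a4767676764))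
 (c (a (nat_lit 0x40402033a4))
 (c z e
 (c (a (nat_lit 0x1d9a600000000006)) e e))
 (c (a (nat_lit 0x1814120271146))
 (c (a (nat_lit 0x1ba0000000000006)) e e)
 (c (a (nat_lit 0x639cdf4525)) e
 (c (a (nat_lit 0x21e92b984aa7)) e
 (c (a (nat_lit 0x647ca768cee88)) e
 (c (a (nat_lit 0x6cab4f5ed4d07)) e
 (c (a (nat_lit 0xb1ebe72a7e006)) e
 (c (a (nat_lit 0x15d6c5c0000006)) e
 (c (a (nat_lit 0x11600000000006)) e e)))))))))
 (c (a (nat_lit 0x20608040e1))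
 (c (a (nat_lit 0xe0e021689c47)) e
 (c (a (nat_lit 0x208bed9837e7)) e
 (c (a (nat_lit 0x28ec1acc24a8)) e
 (c (a (nat_lit 0x1e5f2a6e6e309)) e
 (c z e
 (c (a (nat_lit 0x13914ae5400008)) e
 (c (a (nat_lit 0x1fa90000000007)) e e)))))))
 (c (a (nat_lit 0x1b5b7b7b7804))
 (c (a (nat_lit 0x77977576934c6)) e
 (c (a (nat_lit 0x12d296932bec48)) e
 (c z e
 (c (a (nat_lit 0x1b776fc98a4007)) e
 (c (a (nat_lit 0x1a4c6080000006)) e
 (c (a (nat_lit 0x15a00000000005)) e e))))))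
 (c (a (nat_lit 0x1e5e7e9afaa4))
 (c (a (nat_lit 0xa0950e4e82868)) e
 (c (a (nat_lit 0x14f32de6aa2708)) e
 (c z e
 (c (a (nat_lit 0x17a78000000005)) e e))))
 (c (a (nat_lit 0x10302f2f2b86))
 (c (a (nat_lit 0x19232651862006)) e e)
 (c (a (nat_lit 0x1977f7f81746)) e
 (c (a (nat_lit 0x94aaac223a1)) e
 (c (a (nat_lit 0x81410f21)) e
 (c (a (nat_lit 0x115171d3d664)) e
 (c (a (nat_lit 0xa4a73743586)) e
 (c (a (nat_lit 0x29248a5503)) e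
 (c (a (nat_lit 0x12e47a13e2)) e
 (c (a (nat_lit 0x120060a162)) e
 (c (a (nat_lit 0x112040204002)) e
 (c (a (nat_lit 0x40000001)) e e)))))))))))))))
 (c (a (nat_lit 0x20202021))
 (c (a (nat_lit 0x12b2b2d2c003))
 (c (a (nat_lit 0x80208300bc06)) e
 (c (a (nat_lit 0x234451edf2a7)) e
 (c (a (nat_lit 0x56ebf71892a87)) e
 (c (a (nat_lit 0x6f3c5a5e340e8)) e
 (c (a (nat_lit 0x13b507e6010007)) e
 (c (a (nat_lit 0x1249c4a0000007)) e
 (c (a (nat_lit 0x16800000000005)) e e)))))))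
 (c (a (nat_lit 0x15557591c144))
 (c (a (nat_lit 0xdadd62a518aa7)) e
 (c (a (nat_lit 0xc7050e7660488)) e
 (c (a (nat_lit 0x1aaac825c52528)) e
 (c (a (nat_lit 0x162840a1800007)) e
 (c (a (nat_lit 0x1fe1e000000004)) e e)))))
 (c (a (nat_lit 0x1c9cb292b2c5))
 (c (a (nat_lit 0x1a89c36b668e46)) e
 (c (a (nat_lit 0x13e3588e302005)) e
 (c (a (nat_lit 0x1ae360000003)) e e)))
 (c (a (nat_lit 0x1ab8d8d8f905))
 (c (a (nat_lit 0xf65496c00002)) e e)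
 (c (a (nat_lit 0x10423a42641)) e
 (c (a (nat_lit 0x1824182a561)) e
 (c (a (nat_lit 0x109050b0fc03)) e
 (c (a (nat_lit 0xfd030965a44)) e
 (c (a (nat_lit 0xd6d9a5b56c6)) e
 (c (a (nat_lit 0x945d31183)) e
 (c (a (nat_lit 0x72f1c189802)) e
 (c (a (nat_lit 0x11b74935341)) e
 (c (a (nat_lit 0x80160200001)) e
 (c (a (nat_lit 0x6000000001)) e e))))))))))))))
 (c (a (nat_lit 0x20202021))
 (c (a (nat_lit 0xbec12527284))
 (c (a (nat_lit 0x1bdd97a48666c4)) e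
 (c (a (nat_lit 0x15e9c0a22266c6)) e
 (c (a (nat_lit 0x15f0e888ecc004)) e
 (c (a (nat_lit 0x176c0e80000003)) e
 (c (a (nat_lit 0x3400000000001)) e e)))))
 (c (a (nat_lit 0xc3cbd1dfe04))
 (c (a (nat_lit 0x1ae122e38ae505)) e
 (c (a (nat_lit 0x374a70400004)) e
 (c (a (nat_lit 0x7154000000003)) e e)))
 (c (a (nat_lit 0x141d7d9e3e64))
 (c (a (nat_lit 0x14810460000004)) e e)
 (c (a (nat_lit 0x1090b0f13624)) e
 (c (a (nat_lit 0xd4d6db2d324)) e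
 (c (a (nat_lit 0x12f31575b745)) e
 (c (a (nat_lit 0xc2d7616e006)) e
 (c (a (nat_lit 0x111138e90806)) e
 (c (a (nat_lit 0x145440202a65)) e
 (c (a (nat_lit 0x198f68af97c5)) e
 (c (a (nat_lit 0xf40508003)) e
 (c (a (nat_lit 0x1e6c0000001)) e e))))))))))))
 (c (nat_lit 1)
 (c (a (nat_lit 0xfafcfd01044)) e
 (c (a (nat_lit 0x177777f87884))
 (c (a (nat_lit 0xa0d0000000001)) e e)
 (c (a (nat_lit 0x101050b0d624)) e
 (c (a (nat_lit 0xd4dadd336a4)) e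
 (c (a (nat_lit 0x12f315b76065)) e
 (c (a (nat_lit 0x113298658106)) e
 (c (a (nat_lit 0x168e1354b2e5)) e
 (c (a (nat_lit 0x1a8540203584)) e
 (c (a (nat_lit 0x12cd8d95d5c4)) e
 (c (a (nat_lit 0x75c0200004)) e
 (c (nat_lit 1) e e)))))))))))
 (c (nat_lit 1)
 (c (a (nat_lit 0x1474d55595c3)) e
 (c (a (nat_lit 0x103090b11984)) e
 (c (a (nat_lit 0xd0d4ef76284)) e
 (c (b (nat_lit 0x1797bbe6ffe5)) e
 (c (b (nat_lit 0x3fffffffe1)) e
 (c (a (nat_lit 0x14c415f59b65)) e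
 (c (a (nat_lit 0x14342ecc1fc4)) e
 (c (a (nat_lit 0x6040940003)) e
 (c (a (nat_lit 0x9460000003)) e e)))))))))
 (c (a (nat_lit 0x20202021))
 (c (a (nat_lit 0x1939599b27a4)) e
 (c (a (nat_lit 0x1697390cc1e5)) e
 (c (b (nat_lit 0x1db57fe0cea4)) e
 (c (a (nat_lit 0x10a86829e9e5)) e
 (c (a (nat_lit 0x61c8ec3205)) e
 (c (a (nat_lit 0x882abf8963)) e
 (c (a (nat_lit 0x3ae0800003)) e
 (c (nat_lit 1) e e))))))))
 (c (nat_lit 1)
 (c (a (nat_lit 0x1dcd80808563)) e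
 (c (a (nat_lit 0x50842669845)) e
 (c (a (nat_lit 0x803e5124b65)) e
 (c (a (nat_lit 0xa05feed2e4)) e
 (c (a (nat_lit 0x1fa3280004)) e
 (c (a (nat_lit 0x14a020000004)) e e))))))
 (c (nat_lit 1)
 (c (a (nat_lit 0x1c0634693e5)) e
 (c (a (nat_lit 0x286755505)) e
 (c (a (nat_lit 0x459388dfc5)) e
 (c (a (nat_lit 0x15e60200004)) e
 (c (a (nat_lit 0x1e6000000004)) e e)))))
 (c (a (nat_lit 0x202036c3))
 (c (a (nat_lit 0x22b654c025)) e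
 (c (a (nat_lit 0x243be92004)) e
 (c (a (nat_lit 0x13d480000004)) e e)))
 (c (a (nat_lit 0xfb2a3))
 (c (a (nat_lit 0x7c531400005)) e
 (c (a (nat_lit 0x2000000001)) e e))
 (c (a (nat_lit 0x3f3369684)) e
 (c (a (nat_lit 0x168579ea24)) e
 (c (a (nat_lit 0x5ffd8d8a2)) e
 (c (a (nat_lit 0x1240604041)) e
 (c (a (nat_lit 0x80808061)) e
 (c (a (nat_lit 0x20404081)) e
 (c (a (nat_lit 0x1cfd1d6fe2)) e
 (c (a (nat_lit 0x1ddec3c5e1)) e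
 (c (a (nat_lit 0x1ba0602441)) e
 (c (a (nat_lit 0x6022a2e1)) e
 (c (a (nat_lit 0x808001)) e
 (c (a (nat_lit 0x40000001)) e e))))))))))))))))))))))) Tr.c Tr.e (nat_lit 0) C.cx C.cy
noncomputable def C94 : Tr := beta% (fun (c : Nat → Tr → Tr → Tr) (e : Tr) (z : Nat) (a b : Nat → Nat) =>
 (c (a (nat_lit 0x20202001))
 (c (a (nat_lit 0x20203665))
 (c (a (nat_lit 0x1494b2b2b10da6))
 (c (a (nat_lit 0x15987877bf1b7906)) e
 (c z e
 (c z e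
 (c z e
 (c (a (nat_lit 0x1476d59271f47068)) e
 (c z e
 (c (a (nat_lit 0x18ee2edaf1cce987)) e
 (c (a (nat_lit 0xaad9072a3400007)) e e))))))))
 (c (a (nat_lit 0x13cc4babe7e886))
 (c (a (nat_lit 0xfaf53572a195168))
 (c (a (nat_lit 0xcda941006c0000009)) e e)
 (c z e
 (c z e
 (c z e
 (c (a (nat_lit 0x108d09ebe90647c9)) e e)))))
 (c z e
 (c z e
 (c (a (nat_lit 0x13b694ce2c26a6))
 (c (a (nat_lit 0xed4110d12f46a48)) e
 (c (a (nat_lit 0x13112bb78e400008)) e e))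
 (c (a (nat_lit 0x9c062c2c51445)) e
 (c (a (nat_lit 0x4022a3b4cae5)) e
 (c (a (nat_lit 0x280a32f9e565)) e
 (c (a (nat_lit 0xd6cb254f5d2e6)) e
 (c (a (nat_lit 0xdd395b1ee65)) e
 (c (a (nat_lit 0xfd0d111ae8446)) e
 (c z e
 (c (a (nat_lit 0x26652e05c6005)) e
 (c (a (nat_lit 0xd53c620000006)) e
 (c (a (nat_lit 0x1b800000000005)) e e)))))))))))))))
 (c (a (nat_lit 0x2038b646))
 (c (a (nat_lit 0x143071b4c7e166))
 (c (a (nat_lit 0xc0ef1aa50d0ee68)) e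
 (c z e
 (c z e
 (c (a (nat_lit 0x1d383a3a94b254c9)) e
 (c (a (nat_lit 0x1852b5112b2968c8)) e e)))))
 (c z e
 (c z e
 (c (a (nat_lit 0x13134daea03287))
 (c (a (nat_lit 0x17f3d1b6fc6d4009)) e
 (c (a (nat_lit 0x1490faf1a0000009)) e e))
 (c (a (nat_lit 0x1103a1c7274ce5))
 (c (a (nat_lit 0xe72e68000000007)) e e)
 (c z e
 (c z e
 (c (a (nat_lit 0x143ab439ada046)) e
 (c (b (nat_lit 0x11cbb0d03fffe6)) e
 (c (a (nat_lit 0x12f5962e882987)) e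
 (c z e
 (c (a (nat_lit 0x165ed5cc00005)) e
 (c (a (nat_lit 0x10a92000000007)) e e)))))))))))))
 (c (a (nat_lit 0x1011310d0c7)) e
 (c (a (nat_lit 0x471f2524807)) e
 (c (a (nat_lit 0x1c17dce4c4a6))
 (c (a (nat_lit 0x9c8d68fca75c6)) e
 (c (b (nat_lit 0x8f39fe6533346)) e
 (c (b (nat_lit 0x8275fe8497487)) e
 (c (a (nat_lit 0x2e162e1a6f8e8)) e
 (c (a (nat_lit 0x482c385c11ac7)) e
 (c (a (nat_lit 0xc6670cf324347)) e e))))))
 (c (a (nat_lit 0x149e4e0dede5))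
 (c (a (nat_lit 0xd10892b0f2fe6)) e
 (c (a (nat_lit 0x5c6484d2a3e87)) e
 (c (a (nat_lit 0x142a383d56868)) e
 (c (a (nat_lit 0x101e2340a8008)) e
 (c (b (nat_lit 0x40f8cbffffe7)) e e)))))
 (c (a (nat_lit 0x172363636344))
 (c (b (nat_lit 0x1fe687a8b24de6)) e
 (c (a (nat_lit 0x63659b4e40c7)) e
 (c (a (nat_lit 0x204d9b521c047)) e
 (c z e
 (c (a (nat_lit 0x11b2c620000006)) e e)))))
 (c (a (nat_lit 0x2e2c2c2c2e1))
 (c (a (nat_lit 0x621406230247)) e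
 (c (a (nat_lit 0x4d849a8048208)) e
 (c (a (nat_lit 0x1f84cae5000007)) e
 (c (a (nat_lit 0x13508000000006)) e e))))
 (c (a (nat_lit 0x4060c175e1))
 (c (a (nat_lit 0x198d240f604007)) e
 (c (a (nat_lit 0x1c137020000007)) e
 (c (a (nat_lit 0x18600000000005)) e e)))
 (c (a (nat_lit 0xced0db7c342))
 (c (a (nat_lit 0x1e8f0000000003)) e e)
 (c (a (nat_lit 0xd1574b4b186)) e
 (c z e
 (c (b (nat_lit 0x101ff0d0f124)) e
 (c (a (nat_lit 0xa180820301)) e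
 (c (a (nat_lit 0x80418361)) e
 (c (a (nat_lit 0x40a1d122)) e
 (c (a (nat_lit 0x20443564)) e
 (c (a (nat_lit 0x241549c4)) e
 (c (a (nat_lit 0x46c37200003)) e e)))))))))))))))))))
 (c (nat_lit 1)
 (c (a (nat_lit 0x50515155546))
 (c (a (nat_lit 0x1938bab0709085))
 (c z e
 (c (a (nat_lit 0x13111bcfb4525048)) e
 (c (a (nat_lit 0xcb0102aab49e508)) e
 (c (a (nat_lit 0x1eba99d614759da7)) e
 (c (a (nat_lit 0x1591b36fec28a007)) e e)))))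
 (c z e
 (c z e
 (c (a (nat_lit 0x641e6640b7046))
 (c (a (nat_lit 0xd4ab01226800008)) e
 (c (a (nat_lit 0x10588d8000000008)) e e))
 (c (a (nat_lit 0x9aaac4894d186)) e
 (c z e
 (c (a (nat_lit 0x58ae925a53026)) e
 (c (a (nat_lit 0x1311d1ad34b8e6)) e
 (c (a (nat_lit 0x16b63ad9fcf5a6)) e
 (c (a (nat_lit 0x98aaaaa031408)) e
 (c (a (nat_lit 0x1b9f9f3012e007)) e
 (c (a (nat_lit 0x1599c900000006)) e
 (c (a (nat_lit 0x11200000000006)) e e)))))))))))))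
 (c (a (nat_lit 0x392f3534707))
 (c (a (nat_lit 0x115171a8c92b06))
 (c (a (nat_lit 0x1ff2121173b25507)) e e)
 (c z e
 (c z e
 (c (b (nat_lit 0x29dfffebb3c6)) e
 (c (b (nat_lit 0x2ea83ffe03027)) e
 (c z e
 (c z e
 (c z e
 (c (b (nat_lit 0xc4ce97ffba5e8)) e e)))))))))
 (c (a (nat_lit 0x123012882827))
 (c (b (nat_lit 0x5f13ff4ce8d26)) e
 (c (a (nat_lit 0xe8d594e28e767)) e
 (c (b (nat_lit 0x69fe3a041b187)) e e)))
 (c (a (nat_lit 0x14f866c6c6c5))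
 (c (a (nat_lit 0x1f92481c0aee6)) e
 (c (a (nat_lit 0xa4401416a5687)) e
 (c (a (nat_lit 0x1e64767af17a8)) e
 (c (a (nat_lit 0x26121cbb34048)) e
 (c (a (nat_lit 0x5e752fb955347)) e
 (c (a (nat_lit 0x6b73744c5a7e7)) e e))))))
 (c (a (nat_lit 0x11a161616165))
 (c (a (nat_lit 0x5a4c3a4a2d246)) e
 (c (b (nat_lit 0x1fe28302b5a927)) e
 (c (a (nat_lit 0x1a433cce027)) e
 (c (b (nat_lit 0x2a2ae55c79fe7)) e
 (c (b (nat_lit 0xb501d1fffe005)) e e)))))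
 (c (a (nat_lit 0x2e2e2c2e321))
 (c (a (nat_lit 0x2e38378c7c346)) e
 (c (a (nat_lit 0x64908f62e047)) e e))
 (c (a (nat_lit 0x10101017622))
 (c (b (nat_lit 0x90f37467fffe6)) e
 (c z e
 (c (a (nat_lit 0x1ab930c0000004)) e
 (c (a (nat_lit 0x19c00000000005)) e e))))
 (c (a (nat_lit 0x6060670e003))
 (c (a (nat_lit 0x1d7c62a0400006)) e
 (c (a (nat_lit 0x1e682000000006)) e e))
 (c (a (nat_lit 0x183871f1b343))
 (c (a (nat_lit 0x17000000000004)) e e)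
 (c (a (nat_lit 0x1d5e9c999686)) e
 (c (a (nat_lit 0x18567453d3c6)) e
 (c (a (nat_lit 0xe05f9da3a84)) e
 (c (a (nat_lit 0x1e94e0a22302)) e
 (c (a (nat_lit 0x12e0a101d102)) e
 (c (a (nat_lit 0x202418c4)) e
 (c (a (nat_lit 0x437811a4)) e
 (c (a (nat_lit 0x175c46005)) e e)))))))))))))))))
 (c (nat_lit 1)
 (c (a (nat_lit 0x14f2d5694946))
 (c (a (nat_lit 0xac87188260606))
 (c z e
 (c (a (nat_lit 0xdac4d173c151087)) e
 (c (a (nat_lit 0x130f050cca400007)) e e)))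
 (c (a (nat_lit 0x63248880387e6))
 (c (a (nat_lit 0x96a0db390066008)) e
 (c (a (nat_lit 0x1495f9f1a0000008)) e e))
 (c (a (nat_lit 0x1f6426866baba5))
 (c (a (nat_lit 0x14d9cb4000000007)) e e)
 (c (a (nat_lit 0x6a2c40b0f53e6)) e
 (c (a (nat_lit 0x8e0d08073dd25)) e
 (c z e
 (c z e
 (c (a (nat_lit 0x1c1bdebf7bdce7)) e
 (c (a (nat_lit 0x18757ab8eb4006)) e
 (c (b (nat_lit 0x15dfea40000006)) e e))))))))))
 (c (a (nat_lit 0x18dc29898985))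
 (c (a (nat_lit 0xc0c189380a03))
 (c z e
 (c (a (nat_lit 0x185b53e000000008)) e e))
 (c (a (nat_lit 0x1a0e10a437cc5))
 (c (a (nat_lit 0x1167600000000009)) e e)
 (c (a (nat_lit 0x1a1858593b9e7)) e
 (c (a (nat_lit 0x1e1886d9048)) e
 (c z e
 (c z e
 (c (a (nat_lit 0x74bf12feba728)) e
 (c (a (nat_lit 0xb78d9c6800007)) e
 (c (a (nat_lit 0x1aae4000000007)) e e)))))))))
 (c (a (nat_lit 0x120020202025))
 (c (a (nat_lit 0x180234245bd86)) e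
 (c (a (nat_lit 0x24e62c31de67)) e
 (c (a (nat_lit 0x14b7a08da2466)) e
 (c z e
 (c z e
 (c (a (nat_lit 0x990cfc9e78008)) e
 (c (a (nat_lit 0x1b3a45e0000007)) e
 (c (a (nat_lit 0x1c800000000006)) e e))))))))
 (c (a (nat_lit 0xb0aeb0b6be1))
 (c (a (nat_lit 0x66cb9c4fe2505)) e
 (c (a (nat_lit 0x4ec643325a027)) e
 (c (a (nat_lit 0x5c55d4743aea7)) e
 (c z e
 (c (a (nat_lit 0x1d124e90e00007)) e
 (c (a (nat_lit 0x14c08000000005)) e e))))))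
 (c (a (nat_lit 0x12525272a323))
 (c (a (nat_lit 0x8250b93002867)) e e)
 (c (b (nat_lit 0x19799adfffe2)) e
 (c (a (nat_lit 0x1393ababcbc5)) e
 (c (a (nat_lit 0x1e3cbcbcbc07)) e
 (c (a (nat_lit 0x18d979791f63)) e
 (c (a (nat_lit 0xc0ba17e1)) e
 (c (a (nat_lit 0x30f0b0c5)) e
 (c (a (nat_lit 0x431c0a0ed42)) e
 (c (a (nat_lit 0x9a4a0879543)) e
 (c (a (nat_lit 0xf60dd9d42)) e
 (c (a (nat_lit 0x3e2d4e2dc2)) e
 (c (a (nat_lit 0x112060800002)) e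
 (c (nat_lit 1) e e)))))))))))))))))
 C93)))) Tr.c Tr.e (nat_lit 0) C.cx C.cy
noncomputable def C95 : Tr := beta% (fun (c : Nat → Tr → Tr → Tr) (e : Tr) (z : Nat) (a b : Nat → Nat) =>
 (c (a (nat_lit 0x202001))
 (c (a (nat_lit 0x14343434345843))
 (c (a (nat_lit 0x2a2a5a96bacf945))
 (c z e
 (c z e
 (c (a (nat_lit 0x4e4a505c64705d249)) e e)))
 (c (a (nat_lit 0x546cb4def37bda7))
 (c (a (nat_lit 0x36242a4240569126a)) e e)
 (c z e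
 (c z e
 (c z e
 (c (a (nat_lit 0xc6f4f4f4eced328)) e
 (c (a (nat_lit 0xf0c8d07d9962a07)) e
 (c (a (nat_lit 0x7c805702ba4e708)) e
 (c (a (nat_lit 0x72592cc44c5a888)) e
 (c (a (nat_lit 0x3f02be3c5a2e008)) e
 (c (a (nat_lit 0xcf0a58380000007)) e e)))))))))))
 (c (a (nat_lit 0x13f3f3f4134004))
 (c (a (nat_lit 0x234748ab0ff348))
 (c (a (nat_lit 0x161a2e2430730aeaa)) e e)
 (c z e
 (c z e
 (c z e
 (c (a (nat_lit 0x16f9d97c563b9469)) e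
 (c (a (nat_lit 0xb48a7d1cd2ae869)) e
 (c z e
 (c (a (nat_lit 0xc7cb3ac301e6968)) e
 (c z e
 (c (a (nat_lit 0x1a4f0a4000000007)) e e))))))))))
 (c (a (nat_lit 0x12d2d2f2e84005)) e
 (c (b (nat_lit 0x708ffffffffe1)) e
 (c z e
 (c (b (nat_lit 0x1074bfe9c2e166))
 (c z e
 (c (a (nat_lit 0x1dd3551191f4af28)) e
 (c (a (nat_lit 0x9322eafe8200008)) e e)))
 (c (a (nat_lit 0x27879d8949562)) e
 (c (a (nat_lit 0xb80e0604abae3)) e
 (c (a (nat_lit 0x20202025f565)) e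
 (c (a (nat_lit 0x20204474d745)) e
 (c (a (nat_lit 0x638a4d2e1206)) e
 (c (a (nat_lit 0x6531aba5b9d65)) e
 (c z e
 (c (a (nat_lit 0xc2fb8b874a005)) e
 (c (a (nat_lit 0xb300f6f02c006)) e
 (c (a (nat_lit 0x19b90c60000006)) e
 (c (a (nat_lit 0x19600000000005)) e e)))))))))))))))))
 (c (a (nat_lit 0x2020202021))
 (c (a (nat_lit 0x107070ac65a005))
 (c (a (nat_lit 0x4892c0d71799387))
 (c (a (nat_lit 0x383a323a6f0330749)) e e)
 (c z e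
 (c z e
 (c z e
 (c z e
 (c z e
 (c z e
 (c (a (nat_lit 0x1103aaed1f03e008)) e e))))))))
 (c z e
 (c z e
 (c z e
 (c (a (nat_lit 0xf902e6e41c166))
 (c z e
 (c (a (nat_lit 0x10d0d5b45dcdc008)) e
 (c (a (nat_lit 0x122f0e2920000009)) e e)))
 (c (a (nat_lit 0x26c6702a5844))
 (c (a (nat_lit 0x73e3238aae00007)) e
 (c (a (nat_lit 0x1b8caa4000000008)) e e))
 (c (a (nat_lit 0x202022a55646))
 (c (a (nat_lit 0x14ad400000000006)) e e)
 (c (a (nat_lit 0x20202434d8c6)) e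
 (c (a (nat_lit 0x11d1d577575768)) e
 (c (a (nat_lit 0x3694ef0313427)) e
 (c (a (nat_lit 0xcb271f1173347)) e
 (c z e
 (c (a (nat_lit 0x6654b6ae035e7)) e
 (c (a (nat_lit 0xd11d164600007)) e
 (c (a (nat_lit 0x1f84c000000006)) e e)))))))))))))))
 (c (a (nat_lit 0x2020203706))
 (c z e
 (c z e
 (c z e
 (c (a (nat_lit 0x133711af2ec046))
 (c z e
 (c (a (nat_lit 0xe32f1d5ad000009)) e e))
 (c (b (nat_lit 0x13fe100c13268))
 (c (a (nat_lit 0x100f7128a0000007)) e e)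
 (c (a (nat_lit 0x4040c1588208)) e
 (c z e
 (c z e
 (c z e
 (c z e
 (c z e
 (c (a (nat_lit 0x8da1da7fd0005)) e
 (c (a (nat_lit 0x14948780000007)) e
 (c (a (nat_lit 0x1a400000000006)) e e))))))))))))))
 (c (a (nat_lit 0x195706))
 (c (a (nat_lit 0xdeeaeb20b8386))
 (c (a (nat_lit 0x1295f031ed2c8ba8)) e
 (c (a (nat_lit 0x14314f8aeaaa29ea)) e e))
 (c (a (nat_lit 0x1eff1e9a8e0a46))
 (c (a (nat_lit 0x11adaa69eb09eaaa)) e e)
 (c z e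
 (c (a (nat_lit 0xff09195f2c066))
 (c (a (nat_lit 0x128d2aa000000007)) e e)
 (c z e
 (c z e
 (c z e
 (c z e
 (c (a (nat_lit 0xe0ad215314007)) e
 (c z e
 (c (a (nat_lit 0xc2db06fa00008)) e
 (c (a (nat_lit 0x10e8e000000007)) e e))))))))))))
 (c (a (nat_lit 0x2021fdadac6))
 (c (a (nat_lit 0x1cf3fb5174b605))
 (c (a (nat_lit 0xd4e2ab069c61048)) e e)
 (c (a (nat_lit 0xd925055555266)) e
 (c z e
 (c z e
 (c z e
 (c z e
 (c (a (nat_lit 0x7e78aaff75827)) e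
 (c (a (nat_lit 0x2a0eff4a2c027)) e e))))))))
 (c (a (nat_lit 0x4f2d3332847))
 (c (a (nat_lit 0x3f27211ec86)) e
 (c (a (nat_lit 0xa1c4ca9cb4bc7)) e
 (c (b (nat_lit 0x1d7c3fe94dd566)) e
 (c (a (nat_lit 0xfd17083e7f406)) e
 (c (a (nat_lit 0x4c523c2e41548)) e
 (c (a (nat_lit 0xe738c706fcc27)) e e))))))
 (c (a (nat_lit 0x1530f929a986))
 (c (a (nat_lit 0x166cced030fb26)) e
 (c (a (nat_lit 0x4515634fe5f26)) e
 (c (a (nat_lit 0x282c4250574a8)) e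
 (c (a (nat_lit 0xc0a3033349e8)) e
 (c (a (nat_lit 0x60a51a26a027)) e e)))))
 (c (a (nat_lit 0x121569898985))
 (c (b (nat_lit 0x1feb0e0f4bfa86)) e
 (c (b (nat_lit 0x1fe645c73c6e07)) e
 (c (a (nat_lit 0x14564fbb2c7c7)) e
 (c (a (nat_lit 0x46833b8010227)) e e))))
 (c (a (nat_lit 0x1800a0a0a0a4))
 (c (a (nat_lit 0x442e6162ca6e7)) e
 (c (a (nat_lit 0x1e4370aa8a508)) e
 (c (a (nat_lit 0x3d24487a12008)) e
 (c (a (nat_lit 0x1e218c00000007)) e e))))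
 (c (a (nat_lit 0x20202228361))
 (c (a (nat_lit 0x37bad6969c227)) e
 (c (a (nat_lit 0x16092aa4400008)) e e))
 (c (a (nat_lit 0x2020203184))
 (c (a (nat_lit 0x5bc240000005)) e
 (c (a (nat_lit 0x17c00000000006)) e e))
 (c (a (nat_lit 0x64656ffb765)) e
 (c (a (nat_lit 0xeeefbbb9905)) e
 (c (a (nat_lit 0xd8b70106a85)) e
 (c (a (nat_lit 0x665a080a001)) e
 (c (a (nat_lit 0x921a143a521)) e
 (c (a (nat_lit 0x8061e521)) e
 (c (a (nat_lit 0x60413102)) e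
 (c (a (nat_lit 0x40887f43)) e
 (c (a (nat_lit 0xa25236e002)) e
 (c (a (nat_lit 0x33a0000003)) e e)))))))))))))))))))))) Tr.c Tr.e (nat_lit 0) C.cx C.cy
noncomputable def C96 : Tr := beta% (fun (c : Nat → Tr → Tr → Tr) (e : Tr) (z : Nat) (a b : Nat → Nat) =>
 (c (nat_lit 1)
 (c (a (nat_lit 0x1308c8c8c8c8c6))
 (c (a (nat_lit 0x1818182230ad207))
 (c z e
 (c z e
 (c z e
 (c z e
 (c z e
 (c z e
 (c (a (nat_lit 0x169bbeecc000000008)) e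
 (c (a (nat_lit 0x11c9c0000000000009)) e e))))))))
 (c (a (nat_lit 0x121236527ec51a9))
 (c z e
 (c z e
 (c z e
 (c z e
 (c z e
 (c (a (nat_lit 0x14da0c20000000000a)) e e))))))
 (c z e
 (c z e
 (c z e
 (c (a (nat_lit 0xa2ff0100d4e09c9)) e
 (c (a (nat_lit 0xf8c8e6ca8170d68)) e
 (c (a (nat_lit 0x8aa6a4790088a89)) e
 (c (a (nat_lit 0xa8a887785e96ac9)) e
 (c (a (nat_lit 0xa27d1e7e7cb4609)) e
 (c (a (nat_lit 0xd57ce8de7000008)) e e)))))))))))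
 (c (a (nat_lit 0x2c22222a3e001))
 (c z e
 (c z e
 (c z e
 (c z e
 (c (a (nat_lit 0x1150b270d228eb8a)) e
 (c (a (nat_lit 0x100dee69d12ac889)) e
 (c (a (nat_lit 0x13f1cff60eb00f49)) e
 (c z e
 (c (a (nat_lit 0xb3085e870a7e009)) e
 (c (a (nat_lit 0x15291e6960000006)) e e))))))))))
 (c (a (nat_lit 0x17f7f8183ea1c5))
 (c z e
 (c z e
 (c z e
 (c (a (nat_lit 0x17b837597252782a)) e
 (c (a (nat_lit 0xf910dce2ff106c9)) e e)))))
 (c (b (nat_lit 0x1b5b5bbfe96006)) e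
 (c (b (nat_lit 0x13545fffffffe4)) e
 (c (a (nat_lit 0x17d85290298627))
 (c (a (nat_lit 0xd512e13f8508188)) e
 (c (a (nat_lit 0x1ef077fa31eaf228)) e
 (c (a (nat_lit 0x6f79df368aac008)) e
 (c (a (nat_lit 0x101654a640000008)) e e))))
 (c (a (nat_lit 0x65831f2b35c43))
 (c (a (nat_lit 0x1b7570ee369cac67)) e
 (c (a (nat_lit 0x13adeb90abc00008)) e
 (c (a (nat_lit 0x19f8b1e000000007)) e e)))
 (c (a (nat_lit 0x725466600b124))
 (c (a (nat_lit 0x1ef89b4e20000006)) e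
 (c (a (nat_lit 0x164d800000000007)) e e))
 (c (a (nat_lit 0x3e261c086f9e4)) e
 (c (a (nat_lit 0x204021c47866)) e
 (c (a (nat_lit 0x2022224cd207)) e
 (c (a (nat_lit 0x5eb4e30312dc7)) e
 (c z e
 (c (a (nat_lit 0x68b112bea46c7)) e
 (c (a (nat_lit 0xbd191102ca3c7)) e
 (c (a (nat_lit 0x16ae9568e00007)) e
 (c (a (nat_lit 0x1aefe000000006)) e e)))))))))))))))))
 (c (a (nat_lit 0x2020202001))
 (c (a (nat_lit 0x1cbcbcdcd76164))
 (c z e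
 (c z e
 (c z e
 (c z e
 (c (a (nat_lit 0x18d3d89870753429)) e
 (c (a (nat_lit 0xf136f97724e4f48)) e
 (c (a (nat_lit 0x1754afd551374e08)) e
 (c z e
 (c (a (nat_lit 0xcc505b1a4200008)) e
 (c (a (nat_lit 0x1370ca4000000007)) e e))))))))))
 (c (a (nat_lit 0x13939412264006)) e
 (c z e
 (c z e
 (c (a (nat_lit 0x13adceed0b4066))
 (c z e
 (c (a (nat_lit 0x10282c8e2c6a66e9)) e
 (c (a (nat_lit 0x5d60eb387600008)) e e)))
 (c (b (nat_lit 0xe9fee0c7fbfa3))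
 (c (a (nat_lit 0x70b6f73da88a007)) e
 (c (a (nat_lit 0xd0b914c20000008)) e e))
 (c (a (nat_lit 0x58646467074a4))
 (c (a (nat_lit 0x5f0274000000007)) e e)
 (c (a (nat_lit 0xa0e0e1a495a6)) e
 (c (a (nat_lit 0xa483b76f26)) e
 (c (a (nat_lit 0xa6a68ccd7b67)) e
 (c z e
 (c z e
 (c (a (nat_lit 0x4a6786a656027)) e
 (c (a (nat_lit 0xd3f148f058007)) e
 (c (a (nat_lit 0x11a864e0000008)) e
 (c (a (nat_lit 0x1ca00000000005)) e e))))))))))))))))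
 (c (a (nat_lit 0x4040404041))
 (c z e
 (c (a (nat_lit 0x126e6d6d6b48e8))
 (c (a (nat_lit 0xef375b2b88fc969)) e e)
 (c z e
 (c (a (nat_lit 0xf0b50a5e2e9a5))
 (c (a (nat_lit 0x1a57fa19b81b3e08)) e
 (c (a (nat_lit 0xd0c2c9011a94009)) e
 (c (a (nat_lit 0x1eb43dd440000008)) e e)))
 (c (a (nat_lit 0x8b22ab5253a4))
 (c z e
 (c (a (nat_lit 0x83dd0c000000007)) e e))
 (c (a (nat_lit 0x5c181aae9be65))
 (c (a (nat_lit 0x1a6d800000000006)) e e)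
 (c (a (nat_lit 0x127cc483db325)) e
 (c z e
 (c z e
 (c (a (nat_lit 0x7cce86f316fc7)) e
 (c z e
 (c (a (nat_lit 0xbd2b2f25177a7)) e
 (c (a (nat_lit 0x12d3d228800007)) e
 (c (a (nat_lit 0x14c9a000000007)) e e))))))))))))))
 (c (a (nat_lit 0x1746))
 (c (a (nat_lit 0x149111111b6024))
 (c (a (nat_lit 0x141a15f9b5a9ef67)) e
 (c (a (nat_lit 0x19795a370c0ecea9)) e
 (c z e
 (c (a (nat_lit 0x18f76bf173598f08)) e
 (c (a (nat_lit 0x10a3888b8b000008)) e e)))))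
 (c (a (nat_lit 0xeaeaeb2cec166))
 (c (a (nat_lit 0x1ebc9a7291733569)) e
 (c (a (nat_lit 0x1ffd7598d6b77aaa)) e
 (c (a (nat_lit 0xf8868aa112ae00a)) e
 (c (a (nat_lit 0xc6cd19440000009)) e e))))
 (c (a (nat_lit 0x123278923be005))
 (c (a (nat_lit 0x160df18f73332a89)) e
 (c (a (nat_lit 0xaf030188b600009)) e
 (c (a (nat_lit 0x10908e4000000009)) e e)))
 (c (a (nat_lit 0xd3273b856c805))
 (c (a (nat_lit 0xcf49eeae0000007)) e e)
 (c (a (nat_lit 0x4834be6340026)) e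
 (c z e
 (c z e
 (c (a (nat_lit 0x12f5328fd64d07)) e
 (c (a (nat_lit 0xc8802485960e6)) e
 (c (a (nat_lit 0x8e38f0e992027)) e
 (c (a (nat_lit 0xaeb4cefd10008)) e
 (c (a (nat_lit 0x179b8f60000006)) e
 (c (a (nat_lit 0x18600000000005)) e e)))))))))))))
 (c (a (nat_lit 0x2e2e2fcba46))
 (c (a (nat_lit 0x6060cd176024))
 (c (a (nat_lit 0x108f6f698cebcc88)) e
 (c (a (nat_lit 0x1cbbb6363436f3e9)) e
 (c (a (nat_lit 0xa45a790ca600009)) e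
 (c (a (nat_lit 0x60d720000000008)) e e))))
 (c (a (nat_lit 0x8688ace6af147))
 (c (a (nat_lit 0x19155393b167e009)) e
 (c (a (nat_lit 0x12929c1240000009)) e e))
 (c (a (nat_lit 0xdf076d4b04107))
 (c (a (nat_lit 0xa73682000000009)) e e)
 (c (b (nat_lit 0xb9a1c7bffe006)) e
 (c z e
 (c z e
 (c (b (nat_lit 0x19cc6b1a1ff8c5)) e
 (c (a (nat_lit 0x5c50397411d66)) e
 (c (b (nat_lit 0x1602b9d93bfe7)) e e)))))))))
 (c (a (nat_lit 0x6869834f4e7))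
 (c (a (nat_lit 0x1c1ef4df15526))
 (c z e
 (c (a (nat_lit 0xed16b0000000008)) e e))
 (c (a (nat_lit 0x92f122b084a87))
 (c (a (nat_lit 0x1fec800000000007)) e e)
 (c (a (nat_lit 0x16f9bdab6b73a6)) e
 (c (a (nat_lit 0x1b9a9b90af6e46)) e
 (c (a (nat_lit 0x1332d511c58d26)) e
 (c (a (nat_lit 0x7674a248718e8)) e
 (c (a (nat_lit 0x98a2c45724027)) e
 (c (a (nat_lit 0x4c171f3650008)) e
 (c (a (nat_lit 0xc34da80000008)) e e)))))))))
 (c (a (nat_lit 0x89717f7eb26))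
 (c (a (nat_lit 0x14f5ab680b92e6)) e
 (c (a (nat_lit 0x1129680aef1367)) e
 (c (a (nat_lit 0x4ceea0a2e51e7)) e
 (c (a (nat_lit 0x563c425e837a7)) e
 (c (a (nat_lit 0x142e303d37aa8)) e
 (c (a (nat_lit 0x22724f3890028)) e
 (c (a (nat_lit 0xc945cf2600008)) e e)))))))
 (c (a (nat_lit 0x108d52054546))
 (c (a (nat_lit 0xd0392349a9ca5)) e
 (c (a (nat_lit 0x2cb393144ce6)) e
 (c (a (nat_lit 0xa7454540be27)) e
 (c (a (nat_lit 0x200a0c6d0e2e9)) e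
 (c (a (nat_lit 0x2c1469040a009)) e
 (c (a (nat_lit 0x102a98a0000008)) e e))))))
 (c (a (nat_lit 0x813e7878765))
 (c (a (nat_lit 0x4a9c50be95f66)) e
 (c (a (nat_lit 0x826285a4e7046)) e e))
 (c (a (nat_lit 0x184020202004))
 (c (b (nat_lit 0x4a591bfe910e7)) e
 (c (a (nat_lit 0xab8140dc66008)) e e))
 (c (a (nat_lit 0x1e1a1c202e1))
 (c (a (nat_lit 0x1a7a4be0a00007)) e
 (c (a (nat_lit 0x11650000000009)) e e))
 (c (a (nat_lit 0x2020407164))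
 (c (a (nat_lit 0x11200000000006)) e e)
 (c (a (nat_lit 0x9696f718f27)) e
 (c (a (nat_lit 0xf50d1313128)) e
 (c (a (nat_lit 0x1aafce0e4204)) e
 (c (a (nat_lit 0xbc3e242e4e1)) e
 (c (a (nat_lit 0x120804265c1)) e
 (c (a (nat_lit 0x61c525e1)) e
 (c (a (nat_lit 0x20c0f4e3)) e
 (c (a (nat_lit 0x405453e3)) e
 (c (a (nat_lit 0x3420600003)) e
 (c (a (nat_lit 0x2000000001)) e e))))))))))))))))))))))) Tr.c Tr.e (nat_lit 0) C.cx C.cy
noncomputable def C97 : Tr := beta% (fun (c : Nat → Tr → Tr → Tr) (e : Tr) (z : Nat) (a b : Nat → Nat) =>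
 (c (a (nat_lit 0x2020404021))
 (c (a (nat_lit 0x1a1a1a3a3a2062))
 (c (a (nat_lit 0xaed0d0ff2f31226))
 (c z e
 (c (a (nat_lit 0x2a2c282636570c629)) e
 (c (a (nat_lit 0x583a485a5b0f62928)) e e)))
 (c (a (nat_lit 0x570d6789c1a9f26))
 (c (a (nat_lit 0x443c34367b84a8589)) e e)
 (c z e
 (c z e
 (c (a (nat_lit 0x10302faf70308e88)) e
 (c (a (nat_lit 0x8678884b2a56547)) e
 (c z e
 (c z e
 (c (a (nat_lit 0x37344a2eb42e007)) e
 (c (a (nat_lit 0x12c6c2a1c0000006)) e e))))))))))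
 (c (a (nat_lit 0x12929292a86044))
 (c (a (nat_lit 0x96c4ccdcc1031e7))
 (c (a (nat_lit 0x6e6654adcf48e25a8)) e e)
 (c z e
 (c z e
 (c (a (nat_lit 0xeee4d10308cade9)) e
 (c (a (nat_lit 0x102f2e7c0eabaa87)) e
 (c z e
 (c z e
 (c (a (nat_lit 0x11668628a0e00007)) e e))))))))
 (c (a (nat_lit 0x16b6b9680080e4))
 (c z e
 (c z e
 (c z e
 (c (a (nat_lit 0xdc735e905e6a347)) e e))))
 (c (a (nat_lit 0x1010280824a045))
 (c z e
 (c (a (nat_lit 0xfd4b9976eb2ee67)) e e))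
 (c (a (nat_lit 0x11cdcdee2aeb06))
 (c (a (nat_lit 0xc508e6b2c4a8908)) e
 (c (a (nat_lit 0x14eecb8b6b2b2f68)) e
 (c (a (nat_lit 0x142c15d630abc007)) e e)))
 (c (a (nat_lit 0x138d4e4e6ef423))
 (c z e
 (c z e
 (c (a (nat_lit 0xff8884000000006)) e e)))
 (c (a (nat_lit 0x16708e7c95fc1))
 (c z e
 (c (a (nat_lit 0x17c6600000000006)) e e))
 (c (a (nat_lit 0x142032300d6c2)) e
 (c (a (nat_lit 0xbec0c0aac93a5)) e
 (c (a (nat_lit 0x1416585fe7a44)) e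
 (c (a (nat_lit 0x90b2b51d13345)) e
 (c (b (nat_lit 0x1ff174737045)) e
 (c (b (nat_lit 0x1fedd5944545e4)) e
 (c (a (nat_lit 0x173d9dd815e3c4)) e
 (c (a (nat_lit 0x16161329200005)) e
 (c (a (nat_lit 0x170a2000000005)) e e))))))))))))))))
 (c (a (nat_lit 0x2020202021))
 (c (a (nat_lit 0x155556b16d4dc4))
 (c z e
 (c z e
 (c z e
 (c (a (nat_lit 0x1413fbdd57351527)) e
 (c (a (nat_lit 0xb0c0d52ab498947)) e
 (c z e
 (c z e
 (c (a (nat_lit 0x1c17afe600000006)) e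
 (c (a (nat_lit 0x1509e00000000006)) e e)))))))))
 (c (a (nat_lit 0x11716806064405))
 (c (a (nat_lit 0xd8ef4b43279b027)) e
 (c (a (nat_lit 0xe3475951712af88)) e e))
 (c (a (nat_lit 0x1149c7e805c025)) e
 (c (a (nat_lit 0x138febaba400a4))
 (c (a (nat_lit 0x1f73d452b2cd59e7)) e
 (c (a (nat_lit 0xcac8acd0c326ae8)) e
 (c (a (nat_lit 0x1197d472cfa00007)) e e)))
 (c z e
 (c (a (nat_lit 0x848e1c2e8f502)) e
 (c (a (nat_lit 0x280c141251b44)) e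
 (c (a (nat_lit 0x8e92b4911cc45)) e
 (c (a (nat_lit 0x183a39688ae05)) e
 (c (a (nat_lit 0xb8abfb53ad885)) e
 (c (a (nat_lit 0x8bcb436f31165)) e
 (c (a (nat_lit 0x11828a00436004)) e
 (c (a (nat_lit 0x1054d131484005)) e
 (c (a (nat_lit 0x15b20920000005)) e
 (c (a (nat_lit 0x12000000000004)) e e)))))))))))))))
 (c (a (nat_lit 0x2020202021))
 (c (a (nat_lit 0x192a8aaa8a8d04))
 (c z e
 (c z e
 (c (a (nat_lit 0x149737354e98b127)) e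
 (c (a (nat_lit 0x1bafb37291f0f366)) e
 (c (a (nat_lit 0x154fed6cadca4006)) e e)))))
 (c (a (nat_lit 0x11f352b2bd61e2))
 (c (a (nat_lit 0x1679da764e159487)) e
 (c (a (nat_lit 0x102fcda9ad8a6989)) e
 (c (a (nat_lit 0xeee488dcaf228c8)) e
 (c (a (nat_lit 0x152af3f4d1e00007)) e e))))
 (c (a (nat_lit 0x1171b1b6cbb383))
 (c (a (nat_lit 0x108e29ce6aa89288)) e
 (c (a (nat_lit 0x116b9250ed2d4008)) e
 (c (a (nat_lit 0x107cb97280000007)) e e)))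
 (c (a (nat_lit 0xe18b8b4c5a22))
 (c z e
 (c (a (nat_lit 0x12990f4000000006)) e e))
 (c (a (nat_lit 0x85e3870c7ae3)) e
 (c (a (nat_lit 0x645f84dbdf923)) e
 (c z e
 (c (a (nat_lit 0x17177917365aa6)) e
 (c (a (nat_lit 0x74280259bc4)) e
 (c (a (nat_lit 0x155521cb308ee3)) e
 (c (a (nat_lit 0x10c526317ba003)) e
 (c (a (nat_lit 0x10143b6c200004)) e
 (c (a (nat_lit 0x17af6000000004)) e e)))))))))))))
 (c (a (nat_lit 0x14141415964))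
 (c (a (nat_lit 0xdadadee35a082))
 (c z e
 (c (a (nat_lit 0x10aead0deba9aae8)) e
 (c (a (nat_lit 0xd898e0d9023c007)) e
 (c z e
 (c (a (nat_lit 0x1088400000000007)) e e)))))
 (c (a (nat_lit 0xf6f6f93522064))
 (c (a (nat_lit 0x104dcde98b2e28a8)) e
 (c (a (nat_lit 0xb6e8ad0a8400008)) e
 (c (a (nat_lit 0x1832522000000007)) e e)))
 (c (a (nat_lit 0x626b0d1180043))
 (c (a (nat_lit 0x112b7e8600000006)) e
 (c (a (nat_lit 0x15b4800000000007)) e e))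
 (c (a (nat_lit 0xb2f5b33992104)) e
 (c (a (nat_lit 0x94e308ead03e5)) e
 (c (a (nat_lit 0x1cfc9b1a5b7626)) e
 (c (a (nat_lit 0xcf34a2b1486c4)) e
 (c (a (nat_lit 0x764a562506065)) e
 (c (a (nat_lit 0x723e024324025)) e
 (c (a (nat_lit 0x108a301973e005)) e
 (c (a (nat_lit 0xa104a20000005)) e
 (c (a (nat_lit 0x19a00000000003)) e e))))))))))))
 (c (a (nat_lit 0x18181922d85))
 (c (a (nat_lit 0x707276cc7b7a4)) e
 (c (a (nat_lit 0xd2f77f6290444))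
 (c (a (nat_lit 0x1b1c6dc000000006)) e
 (c (a (nat_lit 0x13a0000000000006)) e e))
 (c (a (nat_lit 0xdb8193c8740c4)) e
 (c (a (nat_lit 0xdcf50afe78405)) e
 (c (a (nat_lit 0x1b1cdbdd591665)) e
 (c (a (nat_lit 0x15cced9b828ae4)) e
 (c (a (nat_lit 0x584a447217f66)) e
 (c (a (nat_lit 0xeeb803e0505e4)) e
 (c (a (nat_lit 0x9479090e00006)) e
 (c (a (nat_lit 0x1919e000000003)) e e))))))))))
 (c (a (nat_lit 0x242593c1c03))
 (c (a (nat_lit 0x10125280404a64)) e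
 (c (a (nat_lit 0x102d66e245cbc5)) e
 (c (a (nat_lit 0x11888fa72af565)) e
 (c (a (nat_lit 0xc8fef0d725206)) e
 (c (a (nat_lit 0x5c4c706479846)) e
 (c (a (nat_lit 0x602742b87426)) e
 (c (a (nat_lit 0x1e3ead6c8c006)) e
 (c (a (nat_lit 0x15577960000005)) e
 (c (a (nat_lit 0x16a00000000003)) e e)))))))))
 (c (a (nat_lit 0x83215750a64))
 (c (a (nat_lit 0x108986e70eb7c4)) e
 (c (a (nat_lit 0x728d4e9d2d525)) e
 (c (a (nat_lit 0xd555893743fe6)) e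
 (c (a (nat_lit 0x406a4e4697607)) e
 (c (a (nat_lit 0x44441ec91c387)) e
 (c (a (nat_lit 0x6a82cf0e00007)) e
 (c (a (nat_lit 0x16534000000004)) e e)))))))
 (c (a (nat_lit 0x1524380d6d64))
 (c (a (nat_lit 0x6a80da82b53a5)) e
 (c (a (nat_lit 0x92bea2bb32b67)) e
 (c (a (nat_lit 0xc47ab5d79b086)) e
 (c (a (nat_lit 0x4a9d08e852007)) e
 (c (a (nat_lit 0xb7592e0000006)) e e)))))
 (c (a (nat_lit 0x1a3dbf1f1f05))
 (c (a (nat_lit 0xaca8b326b2b67)) e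
 (c (a (nat_lit 0xf135eb7d2eac7)) e e))
 (c (a (nat_lit 0x10b373737364))
 (c (a (nat_lit 0x673d5aba32006)) e
 (c (a (nat_lit 0x1657c720000007)) e
 (c (a (nat_lit 0x1c800000000006)) e e)))
 (c (a (nat_lit 0x125252525262))
 (c (a (nat_lit 0x1a258000000006)) e e)
 (c (a (nat_lit 0x147474948de3)) e
 (c (a (nat_lit 0xacadb1454c3)) e
 (c (a (nat_lit 0x1797c02141e2)) e
 (c (a (nat_lit 0x1da68647a7c2)) e
 (c (a (nat_lit 0x260c0e301)) e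
 (c (a (nat_lit 0x1202021e3a1)) e
 (c (a (nat_lit 0x20e2a5a1)) e
 (c (a (nat_lit 0x101e37182)) e
 (c (a (nat_lit 0x103002e4001)) e
 (c (a (nat_lit 0xd1e0000001)) e e)))))))))))))))))))))) Tr.c Tr.e (nat_lit 0) C.cx C.cy
noncomputable def C98 : Tr := beta% (fun (c : Nat → Tr → Tr → Tr) (e : Tr) (z : Nat) (a b : Nat → Nat) =>
 (c (nat_lit 1)
 (c (a (nat_lit 0x1137179792f2c6))
 (c z e
 (c (a (nat_lit 0x1d7937f7f4d2f9e4))
 (c z e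
 (c (a (nat_lit 0x106ecfcce34aea0ec9)) e
 (c (a (nat_lit 0x10504e264bcfae2e89)) e
 (c z e
 (c z e
 (c z e
 (c z e
 (c z e
 (c (a (nat_lit 0x16576ae00000000008)) e e)))))))))
 (c (a (nat_lit 0x124e4dcd4dd71603))
 (c (a (nat_lit 0xe514e822d4c4e9368)) e e)
 (c (a (nat_lit 0x81e08042821306))
 (c z e
 (c z e
 (c (a (nat_lit 0x124a02063246452a9)) e e)))
 (c (a (nat_lit 0x5e68608e6b011c7))
 (c (a (nat_lit 0x384616223230852c9)) e
 (c (a (nat_lit 0x804448567ea172b0a)) e e))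
 (c (a (nat_lit 0x6c8315139bc1c06))
 (c (a (nat_lit 0x5c4e566a69526e009)) e e)
 (c (a (nat_lit 0xcd170d636d87767)) e
 (c (a (nat_lit 0xe4def917150ede7)) e
 (c (a (nat_lit 0x14dada7d9b149226)) e
 (c (a (nat_lit 0xef091306c0b51c7)) e
 (c (a (nat_lit 0x10b1f1adccd811e7)) e
 (c (a (nat_lit 0x88946e64ff2ea28)) e
 (c (a (nat_lit 0x68543ceb3426008)) e
 (c (a (nat_lit 0xed2755920000007)) e e))))))))))))))
 (c (a (nat_lit 0x18f05a88e8e8e5))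
 (c (a (nat_lit 0xe692a28c10794a3))
 (c z e
 (c (a (nat_lit 0x104ecde7ec4ace30c9)) e e))
 (c (a (nat_lit 0x100e0c0c1021487))
 (c z e
 (c z e
 (c z e
 (c z e
 (c (a (nat_lit 0x127857db37b0112009)) e
 (c z e
 (c (a (nat_lit 0x10d56be00000000009)) e e)))))))
 (c (a (nat_lit 0x22161c2c2f52d68))
 (c z e
 (c z e
 (c z e
 (c (a (nat_lit 0x102fcfb0516ec0000a)) e
 (c (a (nat_lit 0x139b5c502000000008)) e e)))))
 (c z e
 (c z e
 (c (a (nat_lit 0x8ed551817784ca7)) e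
 (c (a (nat_lit 0x547140c8b0843a7)) e
 (c (a (nat_lit 0xbccf150eba61127)) e
 (c (a (nat_lit 0x94589c6a4f24628)) e
 (c (a (nat_lit 0x6072785750787a8)) e
 (c (a (nat_lit 0x7a6e515b109a468)) e e)))))))))))
 (c (a (nat_lit 0xcfc5131111104))
 (c (a (nat_lit 0x361c1c4437419e6))
 (c z e
 (c z e
 (c (a (nat_lit 0x18222e26469673e08)) e e)))
 (c z e
 (c z e
 (c z e
 (c (a (nat_lit 0x6ec0e32cf8b6ca8)) e
 (c (a (nat_lit 0xc74fc724ecab467)) e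
 (c (a (nat_lit 0xcf8b66eaac57b47)) e
 (c (a (nat_lit 0x19ccae0b5a8ecf27)) e
 (c (a (nat_lit 0xc4eec1ef08a7927)) e e)))))))))
 (c (a (nat_lit 0x178c8c8c8c8c84))
 (c z e
 (c (a (nat_lit 0x7880c4b0c6d91e8))
 (c (a (nat_lit 0x6c827ee7414e60009)) e e)
 (c z e
 (c (a (nat_lit 0xdeb91102c31d068)) e
 (c (a (nat_lit 0x1294d3714ff83d47)) e
 (c (a (nat_lit 0x10b36dad0d9acac7)) e
 (c (a (nat_lit 0x110cadcd318e8547)) e e)))))))
 (c (a (nat_lit 0x1090909090a5a4))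
 (c (a (nat_lit 0xa0d8da94d0ef7e6))
 (c z e
 (c (a (nat_lit 0x86b7449800000000a)) e e))
 (c (a (nat_lit 0xeaead8d4fd7fa08))
 (c (a (nat_lit 0xc372700000000000a)) e e)
 (c (a (nat_lit 0xeedf1edf1b8b928)) e
 (c (a (nat_lit 0x8c949e9910e6b08)) e
 (c (a (nat_lit 0xa47e7c65a662067)) e
 (c (a (nat_lit 0x469f91373a10166)) e
 (c z e
 (c (a (nat_lit 0x19596d0220000007)) e
 (c (a (nat_lit 0x1125000000000008)) e e)))))))))
 (c (a (nat_lit 0x1c1c1c3c5486e4))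
 (c (a (nat_lit 0xd8d8b8e735cf2a7))
 (c (a (nat_lit 0x1e2680000000000008)) e e)
 (c (a (nat_lit 0x8e8286b316dce49)) e
 (c (a (nat_lit 0x6486af22d4cc628)) e
 (c (a (nat_lit 0x9ae709e4a6585e7)) e
 (c z e
 (c z e
 (c (a (nat_lit 0x188ee02000000007)) e
 (c (a (nat_lit 0x1980000000000006)) e e))))))))
 (c (a (nat_lit 0x1ababaf8aec265))
 (c (a (nat_lit 0xa050c3773727027)) e
 (c (a (nat_lit 0x466ced02a28c8c8)) e
 (c (a (nat_lit 0x5a734e5e76645c7)) e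
 (c (a (nat_lit 0x18696e2b09e48007)) e
 (c z e
 (c (a (nat_lit 0x14a7600000000007)) e e))))))
 (c (a (nat_lit 0x1dbdf9f999b6a5))
 (c (a (nat_lit 0xad25469292aad07)) e
 (c (a (nat_lit 0x9d045e5e7890568)) e
 (c (a (nat_lit 0x160eebad28000007)) e
 (c (a (nat_lit 0xa546a4000000007)) e e))))
 (c (a (nat_lit 0x1ecf0ecd616203))
 (c (a (nat_lit 0x1ea5e5c92a04e006)) e e)
 (c (a (nat_lit 0x4a2a2008325e1)) e
 (c (a (nat_lit 0x18f9595777b9e4)) e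
 (c (a (nat_lit 0x1a1816226b023)) e
 (c (a (nat_lit 0x181a22448f804)) e
 (c (a (nat_lit 0xdee1815d5e7e6)) e
 (c (a (nat_lit 0xd8f8fd02e6e27)) e
 (c (a (nat_lit 0xaac1c5c7cf6e4)) e
 (c z e
 (c (a (nat_lit 0x15557569400005)) e
 (c (a (nat_lit 0x184c2000000005)) e e)))))))))))))))))))
 (c (a (nat_lit 0xdedededede1))
 (c (a (nat_lit 0xf52cc8c8c8c84))
 (c (a (nat_lit 0x24060202043fd04)) e
 (c (a (nat_lit 0x2c2a2a324d69a06))
 (c z e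
 (c z e
 (c (a (nat_lit 0x302c082850305b289)) e
 (c z e
 (c (a (nat_lit 0x1312769572f1600009)) e e)))))
 (c (a (nat_lit 0x10101a410262968))
 (c (a (nat_lit 0x3e2c2a2e3034311a9)) e
 (c (a (nat_lit 0x4608302c123150b69)) e e))
 (c z e
 (c z e
 (c (a (nat_lit 0xc6f2f70efed8d27)) e
 (c (a (nat_lit 0x3a7a9264681d847)) e
 (c (a (nat_lit 0x5a9490823168e67)) e
 (c (a (nat_lit 0x50584e2f0c84528)) e
 (c (a (nat_lit 0x50502d1e8e50708)) e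
 (c (a (nat_lit 0x885d9116b246007)) e
 (c (a (nat_lit 0xf5cde6e0000007)) e e))))))))))))
 (c (a (nat_lit 0x1db33333333344))
 (c (a (nat_lit 0x16163ea9358fb86))
 (c z e
 (c (a (nat_lit 0x180a0e100a224710a)) e
 (c (a (nat_lit 0x26202c462a6557549)) e e)))
 (c z e
 (c z e
 (c z e
 (c (a (nat_lit 0x12163455327515c8)) e
 (c (a (nat_lit 0x8680867c3512808)) e
 (c (a (nat_lit 0x10d3d269ddb36627)) e
 (c (a (nat_lit 0xb6526b329472a08)) e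
 (c (a (nat_lit 0x667f88c874c6808)) e
 (c (a (nat_lit 0x5196fc6a4a00007)) e
 (c (a (nat_lit 0x1ab2460000000006)) e e)))))))))))
 (c (a (nat_lit 0x13333333334f04))
 (c z e
 (c z e
 (c z e
 (c (a (nat_lit 0x11b715d3f679b408)) e
 (c (a (nat_lit 0x1210d10b7eb44a07)) e
 (c (a (nat_lit 0x13722d17b42b6be7)) e e))))))
 (c (a (nat_lit 0x189898b8cee144))
 (c (a (nat_lit 0x11b14eb0f275dfa7))
 (c z e
 (c (a (nat_lit 0xb564bc0000000000a)) e e))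
 (c (a (nat_lit 0x9a909ec8dd3f049))
 (c (a (nat_lit 0x15874000000000000a)) e e)
 (c z e
 (c (b (nat_lit 0x6a785f5c8ca3fe8)) e e))))
 (c (a (nat_lit 0x197979938b2024))
 (c (a (nat_lit 0x9e88d8e731088c8)) e
 (c z e
 (c (a (nat_lit 0x8e9354e4361c3c8)) e
 (c z e
 (c z e
 (c z e
 (c (a (nat_lit 0x16a5c00000000006)) e e)))))))
 (c (a (nat_lit 0x16162b0c28c125))
 (c (a (nat_lit 0x6ccb8b5b0b1eee7)) e
 (c (a (nat_lit 0x6f3aeca4868e8e8)) e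
 (c (a (nat_lit 0x130c43e9e78302c7)) e
 (c (a (nat_lit 0xbe870d163a00007)) e e))))
 (c (a (nat_lit 0x12ac0c8be64684))
 (c (a (nat_lit 0x1489c6a3a687c907)) e
 (c (a (nat_lit 0x1065a56889268007)) e e))
 (c (a (nat_lit 0x306c3c224c681))
 (c z e
 (c (a (nat_lit 0xb32676000000006)) e e))
 (c (a (nat_lit 0xfcd8eed8c4f61)) e
 (c (a (nat_lit 0xf8faf6dee3105)) e
 (c (a (nat_lit 0x100e101241105)) e
 (c (a (nat_lit 0x787aa0ab20f65)) e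
 (c (a (nat_lit 0x10719614b490c6)) e
 (c (a (nat_lit 0xe10f3f3d08f46)) e
 (c (a (nat_lit 0xc78d8d9133124)) e
 (c (a (nat_lit 0x15b5b5d2c90005)) e
 (c (a (nat_lit 0x167689c0000005)) e
 (c (a (nat_lit 0x19200000000004)) e e))))))))))))))))))
 C97))) Tr.c Tr.e (nat_lit 0) C.cx C.cy
noncomputable def C99 : Tr := beta% (fun (c : Nat → Tr → Tr → Tr) (e : Tr) (z : Nat) (a : Nat → Nat) =>
 (c (nat_lit 1)
 (c (a (nat_lit 0x1a1a1a1a1a1))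
 (c (a (nat_lit 0x5e5e5f1515141)) e
 (c (a (nat_lit 0x4c4d5d7574983))
 (c (a (nat_lit 0x11b1b0b090900fc6)) e
 (c z e
 (c z e
 (c z e
 (c (a (nat_lit 0x40412041219265))
 (c z e
 (c (a (nat_lit 0x666a325640508d289)) e e))
 (c (a (nat_lit 0x606074ea8d6d6a5))
 (c (a (nat_lit 0x7c4e6c4c545f3a588)) e e)
 (c z e
 (c z e
 (c z e
 (c z e
 (c (a (nat_lit 0xaaaab6b29299267)) e
 (c (a (nat_lit 0x8684905a5dbff26)) e
 (c (a (nat_lit 0x44301a039924306)) e e)))))))))))))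
 (c (a (nat_lit 0x9b8bc1c0e8e83))
 (c z e
 (c z e
 (c (a (nat_lit 0x610040404117c6)) e
 (c (a (nat_lit 0x4e5a50865d958c5))
 (c (a (nat_lit 0xd2e46abe8c5ebdf47)) e
 (c (a (nat_lit 0x7c4870504e71228e9)) e e))
 (c z e
 (c z e
 (c z e
 (c z e
 (c (a (nat_lit 0x707a7a7e5833d46)) e
 (c (a (nat_lit 0xb6c0bcb29fad0a7)) e
 (c (a (nat_lit 0x484c422f16d8527)) e
 (c (a (nat_lit 0x2c300706ca28007)) e e))))))))))))
 (c (a (nat_lit 0x18677bccecece3))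
 (c z e
 (c (a (nat_lit 0x484638583d6d785))
 (c z e
 (c (a (nat_lit 0x5a2a344230305d2e8)) e
 (c (a (nat_lit 0x6056924054653e948)) e e)))
 (c z e
 (c z e
 (c (a (nat_lit 0x10903636d6d6f366)) e
 (c z e
 (c z e
 (c (a (nat_lit 0x8482825c4302546)) e
 (c (a (nat_lit 0xb8b4a89b3aaca07)) e e)))))))))
 (c (a (nat_lit 0x27055f5f5f5e2))
 (c z e
 (c z e
 (c z e
 (c z e
 (c z e
 (c z e
 (c z e
 (c (a (nat_lit 0x14b393bb739559e6)) e e))))))))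
 (c (a (nat_lit 0x10357575759582))
 (c z e
 (c (a (nat_lit 0xdb1312f6d343e65)) e
 (c (a (nat_lit 0xc4c2b6b0ad036e6)) e
 (c (a (nat_lit 0xdeaea4daafc2fe5)) e
 (c (a (nat_lit 0x8ea09470cb38225)) e
 (c z e
 (c (a (nat_lit 0xb6bb24b8b114b87)) e
 (c z e
 (c (a (nat_lit 0xf90832000000006)) e e)))))))))
 (c (a (nat_lit 0x17d7d7d7d7e182))
 (c z e
 (c (a (nat_lit 0xeeeec8cf0fcd726)) e
 (c z e
 (c z e
 (c (a (nat_lit 0x2650ba366e3fce6)) e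
 (c (a (nat_lit 0xff56f30522f4007)) e
 (c (a (nat_lit 0x104eca23a0000006)) e
 (c (a (nat_lit 0x1166600000000006)) e e))))))))
 (c (a (nat_lit 0x10d0d0d0c5a023))
 (c z e
 (c z e
 (c (a (nat_lit 0x2a529cae565f966)) e
 (c (a (nat_lit 0x72fe6e906bae326)) e
 (c (a (nat_lit 0x142e4e6fece00007)) e
 (c (a (nat_lit 0x10ea83c000000006)) e e))))))
 (c (a (nat_lit 0x17d7d800214221))
 (c (a (nat_lit 0x5c54d2682893bc5)) e
 (c (a (nat_lit 0x4890b2248db67c6)) e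
 (c (a (nat_lit 0xd6604497c042006)) e
 (c (a (nat_lit 0xccc714d40000007)) e e))))
 (c (a (nat_lit 0x1c5c50d0f17182))
 (c (a (nat_lit 0x6af83aa3ca86345)) e
 (c (a (nat_lit 0xb2489dc83e00006)) e
 (c (a (nat_lit 0xd320d8000000007)) e e)))
 (c (a (nat_lit 0x138e2e6e0e0e43)) e
 (c (a (nat_lit 0x18385838385846)) e
 (c (a (nat_lit 0x169676767696a4)) e
 (c (a (nat_lit 0xbcbcb8becb3a2)) e
 (c (a (nat_lit 0x12b2d31376ee23)) e
 (c z e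
 (c z e
 (c z e
 (c z e
 (c (a (nat_lit 0x12924960000003)) e e))))))))))))))))))))
 C98)
 (c (a (nat_lit 0x40404041))
 (c (a (nat_lit 0x20002001))
 (c (a (nat_lit 0x16f63710d05046))
 (c z e
 (c (a (nat_lit 0xd88288820d8b9a3))
 (c (a (nat_lit 0x157675b24b2def1908))
 (c (a (nat_lit 0x9ea6888e847ac5464ea)) e e)
 (c (a (nat_lit 0x18777486d10fb4d9e9)) e
 (c z e
 (c z e
 (c z e
 (c (a (nat_lit 0x78e5cb732abe186a8)) e
 (c z e
 (c (a (nat_lit 0x1b1bbbecc000000008)) e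
 (c (a (nat_lit 0x106800000000000009)) e e)))))))))
 (c (a (nat_lit 0x201e1e1e403b586))
 (c (a (nat_lit 0xe6ce42b8aac4f9089)) e
 (c (a (nat_lit 0x1464d172af55393729)) e
 (c z e
 (c z e
 (c (a (nat_lit 0xa2ef0908b2ac78009)) e
 (c z e
 (c (a (nat_lit 0x1c1e8e200000000008)) e e)))))))
 (c (a (nat_lit 0x5c3c508c6143b06))
 (c z e
 (c z e
 (c (a (nat_lit 0x6e040e3e586376669)) e
 (c z e
 (c (a (nat_lit 0x175eff31e000000008)) e
 (c (a (nat_lit 0x19cd60000000000008)) e e))))))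
 (c (a (nat_lit 0x6a60c0c0fb57327))
 (c (a (nat_lit 0x6a46505c50bdd3969)) e
 (c (a (nat_lit 0x70667688b7dee800a)) e e))
 (c (a (nat_lit 0x389290cf0710f87))
 (c (a (nat_lit 0x64687861928600009)) e e)
 (c (a (nat_lit 0xf6eb3f494744d48)) e
 (c (a (nat_lit 0x8e9924e4deaa7a7)) e
 (c (a (nat_lit 0xe2f10b0ed296947)) e
 (c (a (nat_lit 0x1374146fccd49e07)) e
 (c (a (nat_lit 0x1514d16dd4d790e7)) e
 (c (a (nat_lit 0xb28c70e146a2588)) e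
 (c (a (nat_lit 0x5e34c12c4600008)) e
 (c (a (nat_lit 0x1928d94000000007)) e e))))))))))))))
 (c (a (nat_lit 0x12dd07e6e6e6e5))
 (c (a (nat_lit 0x1e080608324de66))
 (c (a (nat_lit 0x19395610b0d157bec8)) e
 (c z e
 (c z e
 (c z e
 (c z e
 (c (a (nat_lit 0xd1454d29385e8e009)) e
 (c z e
 (c (a (nat_lit 0x16982c200000000009)) e e))))))))
 (c (a (nat_lit 0x202022018df9a8))
 (c z e
 (c z e
 (c z e
 (c z e
 (c (a (nat_lit 0x19581c9cd570c0000a)) e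
 (c (a (nat_lit 0xe3376e9400000000a)) e
 (c (a (nat_lit 0x17cde000000000000a)) e e)))))))
 (c (a (nat_lit 0x2c325464e6f3109))
 (c z e
 (c z e
 (c z e
 (c z e
 (c (a (nat_lit 0x14b36d60000000000a)) e e)))))
 (c z e
 (c z e
 (c (a (nat_lit 0x66a50ceef07c9c9)) e
 (c (a (nat_lit 0x1306baa072348c8)) e
 (c (a (nat_lit 0xf2e54af0a8fcd28)) e
 (c (a (nat_lit 0x8098866b0444aa9)) e
 (c (a (nat_lit 0x11316d77a90f7ca8)) e
 (c (a (nat_lit 0xfac5ad5b4e9a008)) e e)))))))))))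
 (c (a (nat_lit 0x13804020204045))
 (c (a (nat_lit 0x2e2c6c5e96d59e8))
 (c z e
 (c z e
 (c z e
 (c z e
 (c (a (nat_lit 0xfd0d1116b6000000a)) e
 (c (a (nat_lit 0x153b2ce00000000009)) e e))))))
 (c z e
 (c z e
 (c z e
 (c (a (nat_lit 0x98b50ef2b0a83c9)) e
 (c (a (nat_lit 0xdf810ec2888d788)) e
 (c (a (nat_lit 0x1711af8c07772868)) e
 (c (a (nat_lit 0x11b0cdfc93310e88)) e
 (c (a (nat_lit 0x10ee12d0aa164d68)) e e)))))))))
 (c (a (nat_lit 0x12723252936fa1))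
 (c z e
 (c (a (nat_lit 0x688a8ea0cb03109))
 (c (a (nat_lit 0x9284fb713c760000a)) e e)
 (c z e
 (c (a (nat_lit 0xcb0f26d30cc8fa9)) e
 (c (a (nat_lit 0xfb2b08e0efd53c8)) e
 (c (a (nat_lit 0x128e6cabd4d18668)) e e))))))
 (c (a (nat_lit 0x107070708ec246))
 (c (a (nat_lit 0x13557174d6bf56e7))
 (c (a (nat_lit 0x72cd9d7c480000009)) e
 (c (a (nat_lit 0xb15ea80000000000b)) e e))
 (c (a (nat_lit 0xecdd051f87a1589))
 (c (a (nat_lit 0x17278000000000000b)) e e)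
 (c (a (nat_lit 0x12b7b19498fa3989)) e
 (c (a (nat_lit 0x1111b1d67a142ac8)) e
 (c (a (nat_lit 0xeefc3bc4f8564a7)) e e)))))
 (c (a (nat_lit 0x19191998886045))
 (c (a (nat_lit 0xe8d90d3bdd2f728)) e
 (c (a (nat_lit 0xfed74ff1858f689)) e
 (c (a (nat_lit 0xb2f189c15278168)) e
 (c (a (nat_lit 0xd0f75aea6610588)) e
 (c z e
 (c z e
 (c (a (nat_lit 0x1aa0200000000007)) e e)))))))
 (c (a (nat_lit 0x17b7d5d50e2c87))
 (c (a (nat_lit 0x60c1071aeb10948)) e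
 (c (a (nat_lit 0xbb0b98fd18a6c08)) e
 (c (a (nat_lit 0xc738fba684b07c7)) e
 (c (a (nat_lit 0x111c5c8f87200007)) e e))))
 (c (a (nat_lit 0x10ce2caca68265))
 (c (a (nat_lit 0xed98be6c74caf87)) e
 (c (a (nat_lit 0x150926270ac6e008)) e
 (c (a (nat_lit 0x1a4badc880000007)) e e)))
 (c (a (nat_lit 0x1791f1b2018203))
 (c z e
 (c (a (nat_lit 0x11980cc000000006)) e e))
 (c (a (nat_lit 0x220e121a2fee2)) e
 (c (a (nat_lit 0x14060eef443)) e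
 (c (a (nat_lit 0x202023a51fa5)) e
 (c (a (nat_lit 0x4648d095df6e5)) e
 (c (a (nat_lit 0x12567d1ef67667)) e
 (c (a (nat_lit 0x1412f6f3d312e7)) e
 (c (a (nat_lit 0x6583e7d1b8d45)) e
 (c (a (nat_lit 0xfb2d231652006)) e
 (c (a (nat_lit 0x19f94c40000006)) e
 (c (a (nat_lit 0x19e00000000005)) e e)))))))))))))))))))
 C96)
 (c (a (nat_lit 0x20202021)) C95
 C94)))) Tr.c Tr.e (nat_lit 0) C.cx
noncomputable def C100 : Tr := beta% (fun (c : Nat → Tr → Tr → Tr) (e : Tr) (z : Nat) (a b : Nat → Nat) =>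
 (c (a (nat_lit 0x2021))
 (c (a (nat_lit 0x2041))
 (c (a (nat_lit 0x180a0a001)) e
 (c (a (nat_lit 0x38220a001)) e
 (c (a (nat_lit 0x56282c001)) e
 (c (a (nat_lit 0x20205386)) e
 (c (a (nat_lit 0x22d7596c7)) e
 (c (a (nat_lit 0x1bdfdf3468)) e
 (c (a (nat_lit 0x1333332b86)) e
 (c (a (nat_lit 0x1e36e00005)) e e))))))))
 (c (a (nat_lit 0x2041))
 (c (a (nat_lit 0x24180a001)) e
 (c (a (nat_lit 0x604053c6)) e
 (c (a (nat_lit 0x62e53389)) e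
 (c z e
 (c z e
 (c z e
 (c (a (nat_lit 0x1ec0000005)) e e)))))))
 (c (a (nat_lit 0x4081))
 (c (a (nat_lit 0x403fb806)) e
 (c (a (nat_lit 0x1cb8fb2c9)) e
 (c z e
 (c z e
 (c (a (nat_lit 0x1e91400006)) e e)))))
 (c (a (nat_lit 0xaa1))
 (c (a (nat_lit 0xa124dd908)) e
 (c z e
 (c (a (nat_lit 0xaf0102009)) e
 (c (a (nat_lit 0x1300000007)) e e))))
 (c (b (nat_lit 0x40ffe1))
 (c (a (nat_lit 0x6cbd3c689)) e
 (c (a (nat_lit 0x8b2800009)) e e))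
 (c (a (nat_lit 0xbba023))
 (c (a (nat_lit 0x19c0000006)) e e)
 (c z e
 (c (a (nat_lit 0xa001)) e
 (c (a (nat_lit 0xa00001)) e
 (c (a (nat_lit 0x404001)) e
 (c (a (nat_lit 0x100c001)) e
 (c (a (nat_lit 0x2a02001)) e
 (c (a (nat_lit 0x1404001)) e
 (c (a (nat_lit 0x1602001)) e
 (c (a (nat_lit 0x1002001)) e
 (c (a (nat_lit 0x1804021)) e
 (c (a (nat_lit 0x800001)) e e)))))))))))))))))
 (c (a (nat_lit 0x2021))
 (c (a (nat_lit 0x204021))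
 (c (a (nat_lit 0xa0c04001)) e
 (c (a (nat_lit 0x20203167)) e
 (c (a (nat_lit 0x8531cc48)) e
 (c z e
 (c (a (nat_lit 0x1535b42c88)) e
 (c (a (nat_lit 0x1c56600005)) e e))))))
 (c (a (nat_lit 0xb81))
 (c (a (nat_lit 0x26e9b0c8)) e
 (c (a (nat_lit 0x5d654f6c9)) e
 (c z e
 (c (a (nat_lit 0x11f3ef4009)) e
 (c (a (nat_lit 0x1c40000005)) e e)))))
 (c z
 (c (a (nat_lit 0xb6d6f5549)) e e)
 (c z e
 (c (b (nat_lit 0x1fffe001)) e
 (c (a (nat_lit 0x2021)) e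
 (c (a (nat_lit 0x21)) e
 (c (a (nat_lit 0x81)) e
 (c (a (nat_lit 0x40e001)) e
 (c (a (nat_lit 0x1002021)) e
 (c (a (nat_lit 0x2001)) e
 (c (a (nat_lit 0x404001)) e
 (c (a (nat_lit 0x2041)) e
 (c (a (nat_lit 0x4041)) e
 (c (a (nat_lit 0x2001)) e e)))))))))))))))
 (c (a (nat_lit 0x2021))
 (c z
 (c (a (nat_lit 0x6d513127)) e
 (c (a (nat_lit 0xa4e0ef469)) e
 (c (a (nat_lit 0x116d7488e9)) e
 (c (a (nat_lit 0x180f200008)) e e))))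
 (c z
 (c (a (nat_lit 0xfd1b7d589)) e
 (c (a (nat_lit 0xff6eca00a)) e e))
 (c z
 (c (a (nat_lit 0x1608200009)) e e)
 (c (b (nat_lit 0x1fe02021)) e
 (c (a (nat_lit 0x2021)) e
 (c (a (nat_lit 0x202001)) e
 (c (a (nat_lit 0x1010001)) e
 (c (a (nat_lit 0x4a00001)) e
 (c (a (nat_lit 0x3600001)) e
 (c (a (nat_lit 0x4602001)) e
 (c (a (nat_lit 0x2006001)) e
 (c (a (nat_lit 0x1e04001)) e
 (c (a (nat_lit 0x2602021)) e
 (c (a (nat_lit 0xc00001)) e e))))))))))))))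
 (c (a (nat_lit 0x2021))
 (c (a (nat_lit 0x7421))
 (c (a (nat_lit 0x15fdff2747)) e
 (c (a (nat_lit 0x170bc00009)) e e))
 (c (a (nat_lit 0x2061))
 (c (a (nat_lit 0x1f60000007)) e e)
 (c (a (nat_lit 0x4021)) e
 (c (a (nat_lit 0x2041)) e
 (c (a (nat_lit 0x4001)) e
 (c (nat_lit 1) e
 (c (a (nat_lit 0x2001)) e
 (c (a (nat_lit 0xa00001)) e
 (c (a (nat_lit 0x1000001)) e
 (c (a (nat_lit 0x202001)) e
 (c (a (nat_lit 0x206001)) e
 (c (a (nat_lit 0x204001)) e e))))))))))))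
 (c (a (nat_lit 0x2021))
 (c (a (nat_lit 0x200001)) e
 (c (a (nat_lit 0x400001)) e
 (c (a (nat_lit 0x402001)) e
 (c (a (nat_lit 0x404001)) e
 (c (a (nat_lit 0x2061)) e
 (c (a (nat_lit 0x2081)) e
 (c (a (nat_lit 0x6001)) e
 (c (a (nat_lit 0x402041)) e
 (c (a (nat_lit 0x2061)) e
 (c (a (nat_lit 0x41)) e
 (c (a (nat_lit 0x200001)) e e)))))))))))
 (c (a (nat_lit 0x2021))
 (c (a (nat_lit 0x402001)) e
 (c (a (nat_lit 0xc02001)) e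
 (c (a (nat_lit 0x202001)) e
 (c (a (nat_lit 0x806001)) e
 (c (a (nat_lit 0xc06021)) e
 (c (a (nat_lit 0x80a001)) e
 (c (a (nat_lit 0x2041)) e
 (c (a (nat_lit 0x2101)) e
 (c (a (nat_lit 0x2001)) e e)))))))))
 (c (a (nat_lit 0x2021))
 (c (a (nat_lit 0x202021)) e
 (c (a (nat_lit 0x202021)) e
 (c (a (nat_lit 0x202021)) e
 (c (a (nat_lit 0x202021)) e
 (c (a (nat_lit 0x202021)) e
 (c (a (nat_lit 0x202021)) e
 (c (a (nat_lit 0x202021)) e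
 (c (a (nat_lit 0x200001)) e e))))))))
 (c (a (nat_lit 0x2021))
 (c (a (nat_lit 0x202021)) e
 (c (a (nat_lit 0x202021)) e
 (c (a (nat_lit 0x202021)) e
 (c (a (nat_lit 0x202021)) e
 (c (a (nat_lit 0x202021)) e
 (c (a (nat_lit 0x202001)) e e))))))
 (c (a (nat_lit 0x2021))
 (c (a (nat_lit 0x202021)) e
 (c (a (nat_lit 0x202021)) e
 (c (a (nat_lit 0x202021)) e
 (c (a (nat_lit 0x202021)) e
 (c (a (nat_lit 0x200001)) e e)))))
 (c (a (nat_lit 0x2021))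
 (c (a (nat_lit 0x202021)) e
 (c (a (nat_lit 0x202021)) e
 (c (a (nat_lit 0x202001)) e e)))
 (c (a (nat_lit 0x2021))
 (c (a (nat_lit 0x202021)) e
 (c (a (nat_lit 0x200001)) e e))
 (c (a (nat_lit 0x2021)) e
 (c (a (nat_lit 0x2021)) e
 (c (a (nat_lit 0x2021)) e
 (c (a (nat_lit 0x2021)) e
 (c (a (nat_lit 0x2021)) e
 (c (a (nat_lit 0x2021)) e
 (c (a (nat_lit 0x2021)) e
 (c (a (nat_lit 0x2021)) e
 (c (a (nat_lit 0x2021)) e
 (c (a (nat_lit 0x4041)) e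
 (c z e
 (c (nat_lit 1) e
 (c (a (nat_lit 0x2021)) e e))))))))))))))))))))))))) Tr.c Tr.e (nat_lit 0) C.cx C.cy
noncomputable def C101 : Tr := beta% (fun (c : Nat → Tr → Tr → Tr) (e : Tr) (z : Nat) (a : Nat → Nat) =>
 (c (a (nat_lit 0x2021))
 (c (a (nat_lit 0x204041))
 (c (a (nat_lit 0x21210021))
 (c (a (nat_lit 0x161600c08022)) e
 (c (a (nat_lit 0x1a2600a0c024)) e
 (c (a (nat_lit 0x1716e2616022)) e
 (c (a (nat_lit 0x36e0a00002)) e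
 (c (a (nat_lit 0x16e000000001)) e e)))))
 (c (a (nat_lit 0x3c2034101))
 (c (a (nat_lit 0xac4e8254161)) e
 (c (a (nat_lit 0xd2d4c068001)) e
 (c (a (nat_lit 0xfa540000001)) e e)))
 (c (a (nat_lit 0x120a1a021))
 (c (a (nat_lit 0x72462400001)) e
 (c (a (nat_lit 0x48000000001)) e e))
 (c (a (nat_lit 0x60408021)) e
 (c (a (nat_lit 0x1c120e061)) e
 (c (a (nat_lit 0x100e08001)) e
 (c (a (nat_lit 0xc1012001)) e
 (c (a (nat_lit 0x20405b04)) e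
 (c (a (nat_lit 0x817e42)) e
 (c (a (nat_lit 0x6088a121)) e
 (c (a (nat_lit 0x1750eee024)) e
 (c (a (nat_lit 0x1960200002)) e e))))))))))))
 (c (a (nat_lit 0x2021))
 (c (a (nat_lit 0x20101e0a1))
 (c (a (nat_lit 0x748c665a161)) e
 (c (a (nat_lit 0x178e67600001)) e
 (c (a (nat_lit 0x94000000001)) e e)))
 (c (a (nat_lit 0x52382e001))
 (c (a (nat_lit 0x14c500000001)) e e)
 (c (a (nat_lit 0x443414001)) e
 (c (a (nat_lit 0x501c220e1)) e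
 (c (a (nat_lit 0x201a100e1)) e
 (c (a (nat_lit 0x402f9f46)) e
 (c (a (nat_lit 0x5aff41508)) e
 (c (a (nat_lit 0x8502628e6)) e
 (c (a (nat_lit 0x1c47c820a5)) e
 (c (a (nat_lit 0x18e7a7a005)) e
 (c (a (nat_lit 0xe0000001)) e e)))))))))))
 (c (a (nat_lit 0x2041))
 (c (a (nat_lit 0x2a1216061))
 (c (a (nat_lit 0x24000000001)) e e)
 (c (a (nat_lit 0x281e2e001)) e
 (c (a (nat_lit 0x32463a001)) e
 (c (a (nat_lit 0x40205f85)) e
 (c (a (nat_lit 0x30545428)) e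
 (c (a (nat_lit 0x161a1a1a28)) e
 (c (a (nat_lit 0x11f3a666a6)) e
 (c (a (nat_lit 0x1e7faf2024)) e
 (c (a (nat_lit 0x1ede200003)) e e)))))))))
 (c (a (nat_lit 0x202041))
 (c (a (nat_lit 0xe0c0a001)) e
 (c (a (nat_lit 0x20203447)) e
 (c (a (nat_lit 0x4d5b5b88)) e
 (c z e
 (c (a (nat_lit 0x1ddcd7f048)) e
 (c (a (nat_lit 0x1e4aa3c006)) e
 (c (a (nat_lit 0x75d804003)) e
 (c (a (nat_lit 0x2e0000001)) e e))))))))
 (c (a (nat_lit 0x406081))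
 (c (a (nat_lit 0x20245167)) e
 (c (a (nat_lit 0x10f51ccee8)) e
 (c (a (nat_lit 0x18de390328)) e
 (c (a (nat_lit 0x17786b4588)) e
 (c (a (nat_lit 0x19a1802026)) e
 (c (a (nat_lit 0x11a0a00003)) e e))))))
 (c (a (nat_lit 0x204041))
 (c (a (nat_lit 0xf1048a028)) e
 (c (a (nat_lit 0x1d6e229107)) e
 (c (a (nat_lit 0x1e05e03f86)) e
 (c (a (nat_lit 0x20e06001)) e
 (c (a (nat_lit 0x40000001)) e e)))))
 (c (a (nat_lit 0x202041))
 (c (a (nat_lit 0x17a1e02d07)) e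
 (c (a (nat_lit 0x2038bc87)) e
 (c (a (nat_lit 0x3be00006)) e e)))
 (c (a (nat_lit 0x606061))
 (c (a (nat_lit 0x203c2006)) e
 (c (a (nat_lit 0x20000001)) e e))
 (c (a (nat_lit 0x60a021)) e
 (c (a (nat_lit 0x60a041)) e
 (c (a (nat_lit 0xc06001)) e
 (c (a (nat_lit 0x1006001)) e
 (c (a (nat_lit 0xa02001)) e
 (c (a (nat_lit 0x1004001)) e
 (c (a (nat_lit 0x2416001)) e
 (c (a (nat_lit 0x2a04001)) e
 (c (a (nat_lit 0x1402001)) e
 (c (a (nat_lit 0x400001)) e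
 (c (a (nat_lit 0x402021)) e
 (c (a (nat_lit 0x400001)) e e))))))))))))))))))))
 (c (a (nat_lit 0x2021))
 (c (a (nat_lit 0x202001))
 (c (a (nat_lit 0x383230101))
 (c (a (nat_lit 0x5e403812001)) e
 (c (a (nat_lit 0xb6460000001)) e e))
 (c (a (nat_lit 0x4a2210001))
 (c (a (nat_lit 0x54000000001)) e e)
 (c (a (nat_lit 0x301a14001)) e
 (c (a (nat_lit 0x5e3e1e001)) e
 (c (a (nat_lit 0x1e0a0e001)) e
 (c (a (nat_lit 0x402f9f66)) e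
 (c (a (nat_lit 0x7f4f91908)) e
 (c (a (nat_lit 0xab2929286)) e
 (c (a (nat_lit 0x1292928b06)) e
 (c (a (nat_lit 0x1dcf000004)) e e))))))))))
 (c (a (nat_lit 0x2041))
 (c (a (nat_lit 0x381e26001)) e
 (c (a (nat_lit 0x563416001)) e
 (c (a (nat_lit 0x6c2c1a001)) e
 (c (a (nat_lit 0x402034c6)) e
 (c (a (nat_lit 0x2df5d9a8)) e
 (c (a (nat_lit 0xf57fbdaa9)) e
 (c (a (nat_lit 0xdb2f2f487)) e
 (c (a (nat_lit 0x10f0c94007)) e
 (c (a (nat_lit 0x1d40000004)) e e)))))))))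
 (c (a (nat_lit 0x4061))
 (c (a (nat_lit 0x24240e001)) e
 (c (a (nat_lit 0x20203d07)) e
 (c (a (nat_lit 0x60b3cf68)) e
 (c z e
 (c (a (nat_lit 0x1535b78cc9)) e
 (c (a (nat_lit 0xdb172c967)) e
 (c (a (nat_lit 0x1a72c00006)) e e)))))))
 (c (a (nat_lit 0x202061))
 (c (a (nat_lit 0x202e9047)) e
 (c (a (nat_lit 0x33b52548)) e
 (c (a (nat_lit 0x11b29093e8)) e
 (c (a (nat_lit 0x15d0111088)) e
 (c (a (nat_lit 0x830c86007)) e
 (c (a (nat_lit 0x10a0000006)) e e))))))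
 (c (a (nat_lit 0x2041))
 (c (a (nat_lit 0x13ab872d47)) e
 (c (a (nat_lit 0xcf92f5c48)) e
 (c (a (nat_lit 0x110b0eaf29)) e
 (c (a (nat_lit 0x1df2e00007)) e e))))
 (c (a (nat_lit 0x2081))
 (c (a (nat_lit 0x361ea3209)) e
 (c (a (nat_lit 0x52a316009)) e
 (c (a (nat_lit 0x1bc0000004)) e e)))
 (c z
 (c (a (nat_lit 0x6f4400007)) e e)
 (c z e
 (c z e
 (c (a (nat_lit 0x2001)) e
 (c (a (nat_lit 0x802001)) e
 (c (a (nat_lit 0x200001)) e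
 (c (a (nat_lit 0x1412001)) e
 (c (a (nat_lit 0x3400001)) e
 (c (a (nat_lit 0x1c02001)) e
 (c (a (nat_lit 0xc02001)) e
 (c (a (nat_lit 0xe02001)) e
 (c (a (nat_lit 0x1804001)) e e))))))))))))))))))
 C100))) Tr.c Tr.e (nat_lit 0) C.cx
noncomputable def C102 : Tr := beta% (fun (c : Nat → Tr → Tr → Tr) (e : Tr) (z : Nat) (a b : Nat → Nat) =>
 (c (a (nat_lit 0x202021))
 (c (a (nat_lit 0x1555554004))
 (c (a (nat_lit 0x148f8f533423))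
 (c (a (nat_lit 0x241549a96244)) e
 (c (a (nat_lit 0x3ce565a00005)) e
 (c (a (nat_lit 0x15a24000000007)) e e)))
 (c (a (nat_lit 0xd0babae76e5))
 (c (a (nat_lit 0x1ca44040000005)) e e)
 (c (a (nat_lit 0xc2c2f175765)) e
 (c (a (nat_lit 0xfae91939ee6)) e
 (c (a (nat_lit 0xc71cc8da2c5)) e
 (c (a (nat_lit 0xe4d7261a265)) e
 (c (a (nat_lit 0x1b1fa7932ea5)) e
 (c (a (nat_lit 0x19ebf9b26d85)) e
 (c (a (nat_lit 0x168c8a200004)) e
 (c (a (nat_lit 0x4000000001)) e e))))))))))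
 (c (a (nat_lit 0x1111202005))
 (c (a (nat_lit 0x54565eaf146))
 (c (a (nat_lit 0x16a04000000004)) e e)
 (c (a (nat_lit 0x50367eb92e7)) e
 (c (a (nat_lit 0x6864d76abc8)) e
 (c (a (nat_lit 0x5448843b608)) e
 (c z e
 (c (a (nat_lit 0x10aa62c662c7)) e
 (c (a (nat_lit 0x13e6d289e005)) e
 (c (a (nat_lit 0x2f320000002)) e e))))))))
 (c (a (nat_lit 0x1120202025))
 (c (a (nat_lit 0x15dbdaba7185)) e
 (c (a (nat_lit 0x1494f930cfa8)) e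
 (c z e
 (c z e
 (c (a (nat_lit 0x68d71040047)) e
 (c (a (nat_lit 0x1c830a400005)) e
 (c (a (nat_lit 0x152000000003)) e e)))))))
 (c (a (nat_lit 0x80602021))
 (c (a (nat_lit 0xb3fac8d8026)) e
 (c (a (nat_lit 0x11e37a22c028)) e
 (c (a (nat_lit 0x36efab181a7)) e
 (c (a (nat_lit 0x1c7e65050005)) e
 (c (a (nat_lit 0x1ac020000004)) e e)))))
 (c (a (nat_lit 0x20203104))
 (c (a (nat_lit 0x21a64a14128)) e
 (c (a (nat_lit 0x13eb654120e9)) e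
 (c (a (nat_lit 0x106fe1400007)) e
 (c (a (nat_lit 0x1c4000000006)) e e))))
 (c (a (nat_lit 0x20513124))
 (c (a (nat_lit 0x1cc7a2612007)) e
 (c (a (nat_lit 0x134360000007)) e e))
 (c (a (nat_lit 0xa46480a1))
 (c (a (nat_lit 0x13e000000003)) e e)
 (c (a (nat_lit 0x1c2072621)) e
 (c (a (nat_lit 0x5e62080c1)) e
 (c (a (nat_lit 0x14d4b4b462)) e
 (c (a (nat_lit 0x1120202062)) e
 (c (a (nat_lit 0x1010302aa5)) e
 (c (a (nat_lit 0xaf54c6905)) e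
 (c (a (nat_lit 0x1561006062)) e
 (c (a (nat_lit 0x1a602e8ec2)) e
 (c (a (nat_lit 0x20400001)) e e))))))))))))))))
 (c (a (nat_lit 0x202021))
 (c (a (nat_lit 0x1120202005))
 (c (a (nat_lit 0x2a2a48818e6)) e
 (c (a (nat_lit 0xb11f09cf547)) e
 (c (a (nat_lit 0x5aab8cd81c8)) e
 (c (a (nat_lit 0x107e9f704a8)) e
 (c z e
 (c (a (nat_lit 0x1c67c9638086)) e
 (c (a (nat_lit 0xd566ac00002)) e
 (c (a (nat_lit 0xe2000000001)) e e))))))))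
 (c (a (nat_lit 0x10060e001))
 (c (a (nat_lit 0x114e718940a7)) e
 (c (a (nat_lit 0xbd84fea0348)) e
 (c z e
 (c (b (nat_lit 0x9fff25a87a8)) e
 (c (a (nat_lit 0xa9b4503e007)) e
 (c (a (nat_lit 0x1b44c0000005)) e e))))))
 (c (a (nat_lit 0x2031ba06))
 (c (a (nat_lit 0x122dedca6688)) e
 (c (a (nat_lit 0x7988e846469)) e
 (c (a (nat_lit 0x3479682348)) e
 (c (a (nat_lit 0x13a4a3e00008)) e
 (c (a (nat_lit 0x132000000005)) e e)))))
 (c (a (nat_lit 0x203110c5))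
 (c (a (nat_lit 0x12c401412129)) e
 (c (a (nat_lit 0x1085e140a009)) e
 (c (a (nat_lit 0x148380000007)) e e)))
 (c (a (nat_lit 0xe140e001))
 (c (a (nat_lit 0x1108e0200006)) e
 (c (a (nat_lit 0x1be000000004)) e e))
 (c (a (nat_lit 0x9a8ac8001)) e
 (c (a (nat_lit 0xc101e001)) e
 (c (a (nat_lit 0xa0e120e1)) e
 (c (a (nat_lit 0x81412021)) e
 (c (a (nat_lit 0x1080202084)) e
 (c (a (nat_lit 0x15df838026)) e
 (c (a (nat_lit 0x34b4c2e4)) e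
 (c (a (nat_lit 0x40e14001)) e
 (c (a (nat_lit 0x143c12001)) e
 (c (a (nat_lit 0x280000001)) e e)))))))))))))))
 (c (a (nat_lit 0x404041))
 (c (a (nat_lit 0x202030c4))
 (c (a (nat_lit 0x19aef13110c4)) e
 (c (a (nat_lit 0x1d5454746c86)) e
 (c (a (nat_lit 0x49504812128)) e
 (c (a (nat_lit 0x185c90c26127)) e
 (c (a (nat_lit 0x19e761200007)) e
 (c (a (nat_lit 0x19c000000005)) e e))))))
 (c (a (nat_lit 0x2030f0a5))
 (c (a (nat_lit 0xf104c246447)) e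
 (c (a (nat_lit 0x15e4a1414129)) e
 (c (a (nat_lit 0x1a2422612008)) e
 (c (a (nat_lit 0x11e4a0000006)) e e))))
 (c (a (nat_lit 0x83e60021))
 (c (a (nat_lit 0x19512140e025)) e
 (c (a (nat_lit 0x1ff201000005)) e
 (c (a (nat_lit 0x128000000004)) e e)))
 (c (a (nat_lit 0x16126c521))
 (c (a (nat_lit 0xda200000001)) e e)
 (c (a (nat_lit 0x5a2238001)) e
 (c (a (nat_lit 0x241412081)) e
 (c (a (nat_lit 0x141212101)) e
 (c (a (nat_lit 0x202057a4)) e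
 (c (a (nat_lit 0x2224161a1)) e
 (c (a (nat_lit 0x5050a0a3)) e
 (c (a (nat_lit 0x18d8e082)) e
 (c (a (nat_lit 0x12a00a1)) e
 (c (a (nat_lit 0x13a4200002)) e e)))))))))))))
 (c (nat_lit 1)
 (c (a (nat_lit 0x43034001))
 (c (a (nat_lit 0x116460406026)) e
 (c (a (nat_lit 0x12520241a024)) e
 (c (a (nat_lit 0x100920600005)) e
 (c (a (nat_lit 0x138000000003)) e e))))
 (c (a (nat_lit 0x62405a041))
 (c (a (nat_lit 0x148ecf85e001)) e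
 (c (a (nat_lit 0x1165c0000002)) e e))
 (c (a (nat_lit 0x1216180e1))
 (c (a (nat_lit 0x34000000001)) e e)
 (c (a (nat_lit 0x361440161)) e
 (c (a (nat_lit 0x4a3212061)) e
 (c (a (nat_lit 0x202f9d66)) e
 (c (a (nat_lit 0x2d125588)) e
 (c (a (nat_lit 0xc341413e6)) e
 (c (a (nat_lit 0x1090908c07)) e
 (c (a (nat_lit 0xe3aeae045)) e
 (c (a (nat_lit 0x1180c06004)) e
 (c (a (nat_lit 0x15e0000003)) e e))))))))))))
 (c (a (nat_lit 0x202041))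
 (c (a (nat_lit 0x422c1e001))
 (c (a (nat_lit 0xa2662600001)) e
 (c (a (nat_lit 0x7c000000001)) e e))
 (c (a (nat_lit 0x141e180a1)) e
 (c (a (nat_lit 0x3c1a1a001)) e
 (c (a (nat_lit 0x402077a5)) e
 (c (a (nat_lit 0x33565728)) e
 (c (a (nat_lit 0x1274d533e9)) e
 (c (a (nat_lit 0x1599351585)) e
 (c (a (nat_lit 0x1f5fe14064)) e
 (c (a (nat_lit 0x34c0a064)) e
 (c (a (nat_lit 0x1aa0800003)) e e))))))))))
 (c (a (nat_lit 0x204041))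
 (c (a (nat_lit 0x20e080c1)) e
 (c (a (nat_lit 0x402057c5)) e
 (c (a (nat_lit 0x3f53d9d88)) e
 (c z e
 (c (a (nat_lit 0x1c5c5e7348)) e
 (c (b (nat_lit 0x1ff097a0a5)) e
 (c (a (nat_lit 0x40500a03)) e
 (c (a (nat_lit 0x934e02004)) e
 (c (a (nat_lit 0x1260000001)) e e)))))))))
 (c (a (nat_lit 0x204041))
 (c (a (nat_lit 0x2ef1f1e7)) e
 (c (a (nat_lit 0x1bdededa68)) e
 (c (a (nat_lit 0x109090ab89)) e
 (c (a (nat_lit 0x15b5d44928)) e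
 (c (a (nat_lit 0x116c6028a5)) e
 (c (a (nat_lit 0x20330a85)) e
 (c (a (nat_lit 0x1d2c00005)) e e)))))))
 (c (a (nat_lit 0x202021))
 (c (a (nat_lit 0x11b1b18a68)) e
 (c (a (nat_lit 0x12726f0029)) e
 (c (a (nat_lit 0x145007c1e8)) e
 (c (a (nat_lit 0x700203767)) e
 (c (a (nat_lit 0x5b996006)) e
 (c (a (nat_lit 0x60000001)) e e))))))
 (c (a (nat_lit 0x202041))
 (c (a (nat_lit 0x15d5c02087)) e
 (c (a (nat_lit 0x1328020448)) e
 (c (a (nat_lit 0x14a02004)) e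
 (c (a (nat_lit 0x40200001)) e e))))
 (c (a (nat_lit 0x202041))
 (c (a (nat_lit 0x1d22a02026)) e
 (c (a (nat_lit 0x301202001)) e
 (c (a (nat_lit 0x20000001)) e e)))
 (c (a (nat_lit 0x202021))
 (c (a (nat_lit 0x20200001)) e e)
 (c (a (nat_lit 0x202081)) e
 (c (a (nat_lit 0x6021)) e
 (c (a (nat_lit 0x402041)) e
 (c (a (nat_lit 0x20a041)) e
 (c (a (nat_lit 0xa08041)) e
 (c (a (nat_lit 0x202001)) e
 (c (a (nat_lit 0x2021)) e
 (c (a (nat_lit 0x2081)) e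
 (c (nat_lit 1) e
 (c (nat_lit 1) e
 (c (a (nat_lit 0x21)) e
 (c (a (nat_lit 0x200001)) e e)))))))))))))))))))))))) Tr.c Tr.e (nat_lit 0) C.cx C.cy
noncomputable def C103 : Tr := beta% (fun (c : Nat → Tr → Tr → Tr) (e : Tr) (z : Nat) (a b : Nat → Nat) =>
 (c (a (nat_lit 0x202021))
 (c (a (nat_lit 0x18d8c7c025))
 (c (a (nat_lit 0x109a30f313e6))
 (c (a (nat_lit 0x19cd2000000005)) e e)
 (c (a (nat_lit 0x1cb2b2744b07)) e
 (c (a (nat_lit 0x181394d536e7)) e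
 (c z e
 (c z e
 (c (a (nat_lit 0xfba4eb006e7)) e
 (c (a (nat_lit 0x17ed08e6c006)) e
 (c (b (nat_lit 0x1ffa60000005)) e e))))))))
 (c (a (nat_lit 0x1120202026))
 (c (a (nat_lit 0x16b671684b47)) e
 (c (a (nat_lit 0x1153eb8de008)) e
 (c (a (nat_lit 0x70857f977c8)) e
 (c z e
 (c (a (nat_lit 0x10af39866388)) e
 (c (a (nat_lit 0x140b0ba00006)) e e))))))
 (c (a (nat_lit 0x40808001))
 (c (a (nat_lit 0xd75b560e027)) e
 (c (b (nat_lit 0x1296dcdf3fe8)) e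
 (c z e
 (c (a (nat_lit 0x992a6486008)) e
 (c (a (nat_lit 0x176080000005)) e e)))))
 (c (a (nat_lit 0x20305906))
 (c (b (nat_lit 0xfb8dfe66648)) e e)
 (c (a (nat_lit 0x315146))
 (c (a (nat_lit 0x11e664824008)) e
 (c (a (nat_lit 0x1aab40000007)) e e))
 (c (a (nat_lit 0x187080041))
 (c (a (nat_lit 0x1be000000005)) e e)
 (c (a (nat_lit 0x122c2c141)) e
 (c (a (nat_lit 0x6c4e4c1)) e
 (c (a (nat_lit 0x101a1e1)) e
 (c (a (nat_lit 0x2038e4)) e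
 (c (a (nat_lit 0x12300a1)) e
 (c (a (nat_lit 0x32b2a025)) e
 (c (a (nat_lit 0x15150084)) e
 (c (a (nat_lit 0x127c40041)) e
 (c (a (nat_lit 0x12a0200007)) e e)))))))))))))))
 (c (a (nat_lit 0x202021))
 (c (a (nat_lit 0x40808001))
 (c (a (nat_lit 0x105824c4a005)) e
 (c (a (nat_lit 0x19f9d1294726)) e
 (c (b (nat_lit 0xaacaf733fe7)) e
 (c (a (nat_lit 0x8d152a863c8)) e
 (c (a (nat_lit 0xeff0ba5a007)) e
 (c (a (nat_lit 0x13e9a0000006)) e e))))))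
 (c (a (nat_lit 0x202030e5))
 (c (a (nat_lit 0x16506f2e2667)) e
 (c (a (nat_lit 0x1375db026248)) e
 (c (a (nat_lit 0x10b0252140a9)) e
 (c (a (nat_lit 0x1945a2e00008)) e
 (c (a (nat_lit 0x178000000006)) e e)))))
 (c (a (nat_lit 0xa28723c1))
 (c (a (nat_lit 0x106702604028)) e
 (c (a (nat_lit 0x16e141402009)) e
 (c (a (nat_lit 0x122600000007)) e e)))
 (c (a (nat_lit 0x3e2428061))
 (c (a (nat_lit 0x131e0400005)) e e)
 (c (a (nat_lit 0xfcbad8061)) e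
 (c (a (nat_lit 0x24202c0e1)) e
 (c (a (nat_lit 0x61616161)) e
 (c (a (nat_lit 0x20405de4)) e
 (c (a (nat_lit 0x406004061)) e
 (c (a (nat_lit 0x240c0e001)) e
 (c (a (nat_lit 0x16e4446025)) e
 (c (a (nat_lit 0x75152064)) e
 (c (a (nat_lit 0x70304e001)) e
 (c (a (nat_lit 0x140000001)) e e))))))))))))))
 (c (a (nat_lit 0x202021))
 (c (a (nat_lit 0x50f084))
 (c (a (nat_lit 0x10172c246446)) e
 (c (a (nat_lit 0x1daa82626247)) e
 (c (a (nat_lit 0x1f40c2814007)) e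
 (c (a (nat_lit 0x1157a0000004)) e e))))
 (c (a (nat_lit 0x144e6a001))
 (c (a (nat_lit 0x193121614025)) e
 (c (a (nat_lit 0x3b2a1a00005)) e
 (c (a (nat_lit 0x17a000000005)) e e)))
 (c (a (nat_lit 0x3030ba761))
 (c (a (nat_lit 0x13c3e0000001)) e e)
 (c (a (nat_lit 0x5a244c301)) e
 (c (a (nat_lit 0x22142a001)) e
 (c (a (nat_lit 0x202f9c46)) e
 (c (a (nat_lit 0x36fd7f67)) e
 (c (a (nat_lit 0xfb65a1546)) e
 (c (a (nat_lit 0x1bdd576fa6)) e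
 (c (a (nat_lit 0x1b1a404665)) e
 (c (a (nat_lit 0x1e2a8069c5)) e
 (c (a (nat_lit 0x142000001)) e e))))))))))))
 (c (nat_lit 1)
 (c (a (nat_lit 0x281c46121))
 (c (a (nat_lit 0x645e8c22001)) e
 (c (a (nat_lit 0x1889a0000001)) e e))
 (c (a (nat_lit 0x5c5a2a001))
 (c (a (nat_lit 0x50000000001)) e e)
 (c (a (nat_lit 0x24342a001)) e
 (c (a (nat_lit 0x202059a5)) e
 (c (a (nat_lit 0x27d0d0c9)) e
 (c (a (nat_lit 0x145ededac7)) e
 (c (a (nat_lit 0x1efeffb586)) e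
 (c (a (nat_lit 0x1b0a002026)) e
 (c (a (nat_lit 0x11e02060c4)) e
 (c (a (nat_lit 0x34c04004)) e
 (c (a (nat_lit 0x20000001)) e e)))))))))))
 (c (a (nat_lit 0x402021))
 (c (a (nat_lit 0x6040e1)) e
 (c (a (nat_lit 0x60405985)) e
 (c (a (nat_lit 0x30387868)) e
 (c z e
 (c (a (nat_lit 0x1f7f9f9a08)) e
 (c (a (nat_lit 0x114d802027)) e
 (c (a (nat_lit 0x19002035a5)) e
 (c (a (nat_lit 0x407f57c4)) e
 (c (a (nat_lit 0x36c00005)) e e)))))))))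
 (c (a (nat_lit 0x202021))
 (c (a (nat_lit 0x3ad709087)) e
 (c (a (nat_lit 0x193c5c5868)) e
 (c (a (nat_lit 0x129292aee9)) e
 (c (a (nat_lit 0x177775a3e8)) e
 (c (a (nat_lit 0x1f806031a5)) e
 (c (a (nat_lit 0x407112a5)) e
 (c (a (nat_lit 0x38e7a005)) e
 (c (a (nat_lit 0x17e0000004)) e e))))))))
 (c (a (nat_lit 0x202021))
 (c (a (nat_lit 0x1232322ec8)) e
 (c (a (nat_lit 0x12d2f1a029)) e
 (c (a (nat_lit 0x19b7c42908)) e
 (c (a (nat_lit 0x1040202227)) e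
 (c (a (nat_lit 0x2ad20e85)) e
 (c (a (nat_lit 0xa0400001)) e e))))))
 (c (a (nat_lit 0x200001))
 (c (a (nat_lit 0x10cfc02028)) e
 (c (a (nat_lit 0x11c0224026)) e
 (c (a (nat_lit 0x14e02024)) e
 (c (a (nat_lit 0x40206001)) e
 (c (a (nat_lit 0x20000001)) e e)))))
 (c (a (nat_lit 0x202001))
 (c (a (nat_lit 0xdd5890227)) e
 (c (a (nat_lit 0x1ee0202844)) e
 (c (a (nat_lit 0x400001)) e e)))
 (c (a (nat_lit 0x202021))
 (c (a (nat_lit 0x20202001)) e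
 (c (a (nat_lit 0x20000001)) e e))
 (c (a (nat_lit 0x202021)) e
 (c (a (nat_lit 0x202081)) e
 (c (a (nat_lit 0x4001)) e
 (c (a (nat_lit 0x204021)) e
 (c (a (nat_lit 0x206001)) e
 (c (a (nat_lit 0x800061)) e
 (c (a (nat_lit 0x2061)) e
 (c (a (nat_lit 0x20a1)) e
 (c (a (nat_lit 0x20a1)) e
 (c (a (nat_lit 0x2061)) e
 (c (a (nat_lit 0x2061)) e
 (c (a (nat_lit 0x2001)) e e))))))))))))))))))))))) Tr.c Tr.e (nat_lit 0) C.cx C.cy
noncomputable def C104 : Tr := beta% (fun (c : Nat → Tr → Tr → Tr) (e : Tr) (z : Nat) (a b : Nat → Nat) =>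
 (c (a (nat_lit 0x2021))
 (c (a (nat_lit 0x202021))
 (c (a (nat_lit 0x202036c2))
 (c (a (nat_lit 0x167676969863))
 (c z e
 (c (a (nat_lit 0xbcc6daa723326)) e
 (c (a (nat_lit 0x9cfd16dd19187)) e
 (c (a (nat_lit 0x1614dbd6177026)) e
 (c (a (nat_lit 0x112f0cb3c00004)) e e)))))
 (c (a (nat_lit 0x80811b3aaa6))
 (c (a (nat_lit 0x462a4a9c9f048)) e
 (c z e
 (c (a (nat_lit 0x4a80df0458008)) e e)))
 (c (a (nat_lit 0x131b1e1e1927)) e
 (c (a (nat_lit 0x1495b5b5b067)) e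
 (c (a (nat_lit 0x12d06f6bac26)) e
 (c (a (nat_lit 0x197b336554e5)) e
 (c (a (nat_lit 0x10b049513106)) e
 (c (a (nat_lit 0xb06f4d18b46)) e
 (c (a (nat_lit 0xc1b182f8a85)) e
 (c (a (nat_lit 0xe5e4f4f0c05)) e
 (c (a (nat_lit 0x9a7c0308005)) e
 (c (a (nat_lit 0x2040000001)) e e))))))))))))
 (c (a (nat_lit 0x20313124))
 (c (a (nat_lit 0xcbd9a7290e6))
 (c (a (nat_lit 0x2a188a9554728)) e
 (c z e
 (c (a (nat_lit 0x2a652e2600009)) e e)))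
 (c z e
 (c (a (nat_lit 0x15b4d6ba3467)) e
 (c (a (nat_lit 0x1aba99f65667)) e
 (c (a (nat_lit 0x1a1612d5f707)) e
 (c (a (nat_lit 0x160f1e9a6f47)) e
 (c (a (nat_lit 0x14a32a52047)) e
 (c (a (nat_lit 0x65999eff4e6)) e
 (c (a (nat_lit 0x1137bb53b1c6)) e
 (c (a (nat_lit 0x6e215a00006)) e
 (c (a (nat_lit 0x2000000001)) e e)))))))))))
 (c (a (nat_lit 0x790105048))
 (c z e
 (c z e
 (c z e
 (c z e
 (c z e
 (c z e
 (c z e
 (c (b (nat_lit 0xd199feb6007)) e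
 (c (a (nat_lit 0xbb100000006)) e e)))))))))
 (c (a (nat_lit 0x19fb3b2ce7))
 (c (a (nat_lit 0xc4f7450af67)) e
 (c (a (nat_lit 0xe346f6e6ca8)) e
 (c z e
 (c z e
 (c (a (nat_lit 0xe6b4a2c5128)) e
 (c (a (nat_lit 0x18573f3db1c7)) e e))))))
 (c (a (nat_lit 0xcb047c026))
 (c (a (nat_lit 0x1d5bf7789666)) e
 (c (b (nat_lit 0x1f9df8ff7fe6)) e
 (c (a (nat_lit 0x64db10d2d87)) e
 (c (a (nat_lit 0xd0e88bda607)) e
 (c (a (nat_lit 0x16d459484007)) e e)))))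
 (c (a (nat_lit 0x1280202024))
 (c z e
 (c (a (nat_lit 0x5caa4f90068)) e
 (c (a (nat_lit 0x8647c0781a8)) e
 (c (a (nat_lit 0x10eee5600008)) e e))))
 (c (a (nat_lit 0x4040e1))
 (c (a (nat_lit 0xdcf73e18247)) e
 (c (a (nat_lit 0x12fd2d844008)) e
 (c (a (nat_lit 0x1d0660000008)) e e)))
 (c (a (nat_lit 0x2afbe4))
 (c (a (nat_lit 0x15ea42c00008)) e
 (c (a (nat_lit 0x102000000008)) e e))
 (c (a (nat_lit 0x513144)) e
 (c (a (nat_lit 0x5797f7e4)) e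
 (c (a (nat_lit 0x18221c0c1)) e
 (c (a (nat_lit 0x408101)) e
 (c (a (nat_lit 0x40a161)) e
 (c (a (nat_lit 0x1c5c9cbe64)) e
 (c (a (nat_lit 0xe58d396e5)) e
 (c (a (nat_lit 0x143c04021)) e
 (c (a (nat_lit 0x150027c025)) e
 (c (a (nat_lit 0x1e6f400005)) e e))))))))))))))))))
 (c (a (nat_lit 0x202021))
 (c (a (nat_lit 0x36f6f6e6))
 (c (a (nat_lit 0x5714ced4fc6))
 (c (a (nat_lit 0x243e5f5866387)) e
 (c (a (nat_lit 0x1c63aa2204008)) e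
 (c (a (nat_lit 0x152c1e0000009)) e e)))
 (c (a (nat_lit 0xd10d0d22fe8))
 (c (a (nat_lit 0x1364240200008)) e e)
 (c (a (nat_lit 0xc0e4e2f90a7)) e
 (c (a (nat_lit 0x14b5f4341648)) e
 (c (a (nat_lit 0x107618962d67)) e
 (c (a (nat_lit 0x11353b512c27)) e
 (c (a (nat_lit 0x6d38c07e7a7)) e
 (c (a (nat_lit 0xcbaec496767)) e
 (c (a (nat_lit 0x1334654b8006)) e
 (c (a (nat_lit 0x3f700000005)) e e))))))))))
 (c z
 (c (a (nat_lit 0x1233d3345448))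
 (c (a (nat_lit 0x152bc4a0000007)) e e)
 (c (a (nat_lit 0x189ffc99fd48)) e
 (c (a (nat_lit 0x14d4f5b77869)) e
 (c z e
 (c z e
 (c z e
 (c (a (nat_lit 0x1fdc5dba3108)) e
 (c (a (nat_lit 0x13c711000008)) e e))))))))
 (c (a (nat_lit 0x18d8e7c026))
 (c (a (nat_lit 0xcb10d2ac567)) e
 (c (a (nat_lit 0x16d1f1ed2828)) e
 (c z e
 (c z e
 (c (a (nat_lit 0x748c8710728)) e
 (c (a (nat_lit 0x1518096de007)) e
 (c (b (nat_lit 0x1ff1e0000006)) e e)))))))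
 (c (a (nat_lit 0x1100202006))
 (c (a (nat_lit 0xdef9309c027)) e
 (c (a (nat_lit 0x38ee994c208)) e
 (c z e
 (c (b (nat_lit 0x1a7ff7e16647)) e
 (c (a (nat_lit 0xc51ed200006)) e e)))))
 (c (a (nat_lit 0xc040a021))
 (c (a (nat_lit 0x42574ad0008)) e
 (c (a (nat_lit 0x494396e4229)) e
 (c (a (nat_lit 0x1dcba9c2c008)) e
 (c (a (nat_lit 0x10eda0000007)) e e))))
 (c (a (nat_lit 0x2f57c6))
 (c (a (nat_lit 0x115b93e72308)) e
 (c (a (nat_lit 0x1c4ca4000009)) e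
 (c (a (nat_lit 0x13c000000008)) e e)))
 (c (a (nat_lit 0x205130e5))
 (c (a (nat_lit 0x120300000008)) e e)
 (c (a (nat_lit 0x53535345)) e
 (c (a (nat_lit 0x344a3a2e1)) e
 (c (a (nat_lit 0xb6ca10141)) e
 (c (a (nat_lit 0x2080c141)) e
 (c (a (nat_lit 0x409f63)) e
 (c (a (nat_lit 0xe976c6b46)) e
 (c (a (nat_lit 0x7b5002064)) e
 (c (a (nat_lit 0xc361a041)) e
 (c (a (nat_lit 0x1fe7602005)) e
 (c (a (nat_lit 0x17c0000005)) e e)))))))))))))))))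
 C103))
 (c (a (nat_lit 0x2021)) C102
 (c (nat_lit 1)
 (c (a (nat_lit 0x21))
 (c (a (nat_lit 0x204001))
 (c (a (nat_lit 0x8282973b3e5)) e
 (c (a (nat_lit 0x865d113a026)) e
 (c (a (nat_lit 0x9d8bb2723e6)) e
 (c (b (nat_lit 0xb8fb38d1fe7)) e
 (c (b (nat_lit 0xbfffff48326)) e
 (c (a (nat_lit 0x3d145e48005)) e
 (c (a (nat_lit 0x154040000004)) e e)))))))
 (c (a (nat_lit 0x202030e4))
 (c (a (nat_lit 0xa4fba288866)) e
 (c (a (nat_lit 0xe5167242228)) e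
 (c (a (nat_lit 0xfd90e612128)) e
 (c (b (nat_lit 0x1fe5f9c52127)) e
 (c (a (nat_lit 0x18a9c2200007)) e
 (c (a (nat_lit 0x14e000000005)) e e))))))
 (c (a (nat_lit 0x2030f0a4))
 (c (a (nat_lit 0x1361ec246446)) e
 (c (a (nat_lit 0x118822626227)) e
 (c (a (nat_lit 0xb5724e24006)) e
 (c (a (nat_lit 0x186880000005)) e e))))
 (c (a (nat_lit 0x1626041))
 (c (a (nat_lit 0x193101608024)) e
 (c (a (nat_lit 0x8d2c0800004)) e
 (c (a (nat_lit 0x112000000004)) e e)))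
 (c (a (nat_lit 0xc06001))
 (c (a (nat_lit 0x5a100000001)) e e)
 (c (a (nat_lit 0x182a26061)) e
 (c (a (nat_lit 0x40614061)) e
 (c (a (nat_lit 0xe0c0c061)) e
 (c (a (nat_lit 0x6101c1)) e
 (c (a (nat_lit 0x1797979f45)) e
 (c (a (nat_lit 0xbd367c026)) e
 (c (a (nat_lit 0x80e0c021)) e
 (c (a (nat_lit 0x1816021)) e
 (c (a (nat_lit 0x3e2c00001)) e e))))))))))))))
 (c (a (nat_lit 0x202041))
 (c (a (nat_lit 0x2030f0c4))
 (c (a (nat_lit 0x8b708a88865)) e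
 (c (a (nat_lit 0x102a06426227)) e
 (c (a (nat_lit 0x184aa2626227)) e
 (c (a (nat_lit 0x13c5a2612007)) e
 (c (a (nat_lit 0x1d0660000005)) e e)))))
 (c (a (nat_lit 0x385c001))
 (c (a (nat_lit 0x19c8a0808006)) e
 (c (a (nat_lit 0x119182014005)) e
 (c (a (nat_lit 0x45180a00005)) e
 (c (a (nat_lit 0x19c000000004)) e e))))
 (c (a (nat_lit 0x362c3a001))
 (c (a (nat_lit 0x9d10a63a001)) e
 (c (a (nat_lit 0x158660000001)) e e))
 (c (a (nat_lit 0x60616101))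
 (c (a (nat_lit 0x1c000000001)) e e)
 (c (a (nat_lit 0x201232001)) e
 (c (a (nat_lit 0x2140e001)) e
 (c (a (nat_lit 0x416001)) e
 (c (a (nat_lit 0x20205624)) e
 (c (a (nat_lit 0x17b78037e5)) e
 (c (a (nat_lit 0x1ebee084)) e
 (c (a (nat_lit 0x1bbdbec063)) e
 (c (a (nat_lit 0x1f80202005)) e
 (c (a (nat_lit 0x20000001)) e e)))))))))))))
 (c (nat_lit 1)
 (c (a (nat_lit 0x4a302c001))
 (c (a (nat_lit 0xba768a62101)) e
 (c (a (nat_lit 0xef08de6e001)) e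
 (c (a (nat_lit 0x12c5e0000001)) e e)))
 (c (a (nat_lit 0x321a46001))
 (c (a (nat_lit 0x120ac5c00001)) e
 (c (a (nat_lit 0xb4000000001)) e e))
 (c (a (nat_lit 0xe1034021)) e
 (c (a (nat_lit 0x2a1426061)) e
 (c (a (nat_lit 0x10200e001)) e
 (c (a (nat_lit 0x2f9f46)) e
 (c (a (nat_lit 0x315bfbc8)) e
 (c (a (nat_lit 0x5f3f3ec27)) e
 (c (a (nat_lit 0x117368e567)) e
 (c (a (nat_lit 0x444050061)) e
 (c (a (nat_lit 0x1700400005)) e e)))))))))))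
 (c (a (nat_lit 0x21))
 (c (a (nat_lit 0x1e10140e1))
 (c (a (nat_lit 0x60120000001)) e e)
 (c (a (nat_lit 0x141a1c061)) e
 (c (a (nat_lit 0x346850001)) e
 (c (a (nat_lit 0x20205f65)) e
 (c (a (nat_lit 0x2ab25249)) e
 (c (a (nat_lit 0xc95d6f529)) e
 (c (a (nat_lit 0x14949eb6c7)) e
 (c (a (nat_lit 0x153cc7e026)) e
 (c (a (nat_lit 0x1e60402005)) e
 (c (a (nat_lit 0x14e0000005)) e e))))))))))
 (c (a (nat_lit 0x202021))
 (c (a (nat_lit 0x80a06001)) e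
 (c (a (nat_lit 0x202055c6)) e
 (c (a (nat_lit 0x69ae5149)) e
 (c z e
 (c (a (nat_lit 0x85c788026)) e
 (c (a (nat_lit 0x1c1c204006)) e
 (c (a (nat_lit 0x13c7c7c026)) e
 (c (a (nat_lit 0xa00001)) e e))))))))
 (c (a (nat_lit 0x2021))
 (c (a (nat_lit 0x12c5051e7)) e
 (c (a (nat_lit 0x191d1d3b08)) e
 (c (a (nat_lit 0x111110a789)) e
 (c (a (nat_lit 0x18d9788028)) e
 (c (a (nat_lit 0x11d1802006)) e
 (c (a (nat_lit 0x183ec02004)) e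
 (c (a (nat_lit 0x20000001)) e e)))))))
 (c (a (nat_lit 0x2021))
 (c (a (nat_lit 0x1010112008)) e
 (c (a (nat_lit 0x1dff2b4008)) e
 (c (a (nat_lit 0x132b002028)) e
 (c (a (nat_lit 0x1e4040cf42)) e
 (c (a (nat_lit 0x3f000006)) e e)))))
 (c (a (nat_lit 0x2021))
 (c (a (nat_lit 0x17e0e02027)) e
 (c (a (nat_lit 0x1220202708)) e
 (c (a (nat_lit 0x27dbe006)) e
 (c (a (nat_lit 0x20000001)) e e))))
 (c (a (nat_lit 0x2001))
 (c (a (nat_lit 0x27c03445)) e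
 (c (a (nat_lit 0x60400001)) e e))
 (c (a (nat_lit 0x202041))
 (c (a (nat_lit 0x20000001)) e e)
 (c (a (nat_lit 0x4001)) e
 (c (a (nat_lit 0x202061)) e
 (c (a (nat_lit 0xc061)) e
 (c (a (nat_lit 0xa04001)) e
 (c (a (nat_lit 0x402001)) e
 (c (a (nat_lit 0x802001)) e
 (c (a (nat_lit 0xa06021)) e
 (c (a (nat_lit 0x800001)) e
 (c (a (nat_lit 0x2041)) e
 (c (a (nat_lit 0x6041)) e
 (c (a (nat_lit 0x202001)) e e)))))))))))))))))))))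
 C101)))) Tr.c Tr.e (nat_lit 0) C.cx C.cy
noncomputable def C105 : Tr := beta% (fun (c : Nat → Tr → Tr → Tr) (e : Tr) (z : Nat) (a b : Nat → Nat) =>
 (c (a (nat_lit 0x202001))
 (c (a (nat_lit 0x12120eeb28))
 (c (a (nat_lit 0x17b3f79431e7)) e
 (c (a (nat_lit 0x10f7f2eff308)) e
 (c z e
 (c z e
 (c (a (nat_lit 0xd8e52310048)) e e)))))
 (c (a (nat_lit 0x112dc02006))
 (c (a (nat_lit 0x1c920f6dc4e7)) e
 (c z e
 (c (a (nat_lit 0x5ec29150128)) e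
 (c (a (nat_lit 0xbccba280c67)) e
 (c (a (nat_lit 0xa3ab9425e67)) e e)))))
 (c (a (nat_lit 0x1b60202005))
 (c (a (nat_lit 0x99617b90047)) e
 (c (a (nat_lit 0x9ca30470169)) e e))
 (c (a (nat_lit 0xe040a001))
 (c (a (nat_lit 0x7ee7049e028)) e
 (c z e
 (c (a (nat_lit 0xd7014618008)) e
 (c (a (nat_lit 0x1205e0000009)) e e))))
 (c (a (nat_lit 0x202ed746))
 (c (a (nat_lit 0x141331c76308)) e
 (c (a (nat_lit 0x142b83400009)) e
 (c (a (nat_lit 0x1b2000000007)) e e)))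
 (c (a (nat_lit 0x16924a1))
 (c (a (nat_lit 0x1d4380000007)) e e)
 (c (a (nat_lit 0x5292b206)) e
 (c (a (nat_lit 0x1696804026)) e
 (c (a (nat_lit 0x3a38301)) e
 (c (a (nat_lit 0x40618401)) e
 (c (a (nat_lit 0x22222c121)) e
 (c (a (nat_lit 0x5efee024)) e
 (c (a (nat_lit 0x20616101)) e
 (c (a (nat_lit 0x3fa080c4)) e
 (c (a (nat_lit 0x1e20202005)) e
 (c (a (nat_lit 0xa0000001)) e e))))))))))))))))
 (c (a (nat_lit 0x202021))
 (c (a (nat_lit 0x1b80202004))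
 (c (a (nat_lit 0x1633b1c44685)) e
 (c (a (nat_lit 0xfd249cc4667)) e
 (c (a (nat_lit 0x106a30296bc7)) e
 (c (a (nat_lit 0x4a553ad4648)) e
 (c (a (nat_lit 0xcf655f36667)) e e)))))
 (c (a (nat_lit 0x120c06001))
 (c (a (nat_lit 0x189693552027)) e
 (c (a (nat_lit 0x13b712892068)) e e))
 (c (a (nat_lit 0x202030c5))
 (c (a (nat_lit 0x19f792248447)) e
 (c z e
 (c (a (nat_lit 0x1390c1400008)) e e)))
 (c (a (nat_lit 0x60a421e1))
 (c (a (nat_lit 0x1e8182602008)) e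
 (c (a (nat_lit 0x1426c0000007)) e e))
 (c (a (nat_lit 0x6acb41a1))
 (c (a (nat_lit 0x13c000000004)) e e)
 (c (a (nat_lit 0x12726040a5)) e
 (c (a (nat_lit 0xc0a1e181)) e
 (c (a (nat_lit 0x40405fe4)) e
 (c (a (nat_lit 0x404030a4)) e
 (c (a (nat_lit 0x3da023)) e
 (c (a (nat_lit 0x1d802263)) e
 (c (a (nat_lit 0x20213ec5)) e
 (c (a (nat_lit 0x70204045)) e
 (c (a (nat_lit 0x80a00001)) e e))))))))))))))
 (c (a (nat_lit 0x202021))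
 (c (a (nat_lit 0x202030e4))
 (c (a (nat_lit 0x1392b1cc4466)) e
 (c (a (nat_lit 0x1cb834a26247)) e
 (c (a (nat_lit 0x1bafe06140a8)) e
 (c (a (nat_lit 0x190a45800006)) e e))))
 (c (a (nat_lit 0xa1e76221))
 (c (a (nat_lit 0x16b004a08047)) e
 (c (a (nat_lit 0x16e161602009)) e
 (c (a (nat_lit 0x1b6a20000005)) e e)))
 (c (a (nat_lit 0x243c0c1))
 (c (a (nat_lit 0x433e0400005)) e
 (c (a (nat_lit 0x154000000004)) e e))
 (c (a (nat_lit 0x10cbcf0201)) e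
 (c (a (nat_lit 0x1438221)) e
 (c (a (nat_lit 0x202f9fc6)) e
 (c (a (nat_lit 0x30f31de7)) e
 (c (a (nat_lit 0xb7cfcf866)) e
 (c (a (nat_lit 0x1edede1a06)) e
 (c (a (nat_lit 0x1f7f3f28e6)) e
 (c (a (nat_lit 0x1676602026)) e
 (c (a (nat_lit 0x18af002005)) e
 (c (a (nat_lit 0x40000001)) e e)))))))))))))
 (c (nat_lit 1)
 (c (a (nat_lit 0x222360c1))
 (c (a (nat_lit 0x108880a0a025)) e
 (c (a (nat_lit 0x532a2000004)) e
 (c (a (nat_lit 0x146000000003)) e e)))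
 (c (a (nat_lit 0x2020c0801))
 (c (a (nat_lit 0x1ad2c0000002)) e e)
 (c (a (nat_lit 0x502c62001)) e
 (c (a (nat_lit 0x20203026)) e
 (c (a (nat_lit 0x2fd61608)) e
 (c (a (nat_lit 0x32f31307)) e
 (c (a (nat_lit 0x1595924e07)) e
 (c (b (nat_lit 0x1adad05fe6)) e
 (c (a (nat_lit 0x18d6602026)) e
 (c (a (nat_lit 0x8040d624)) e
 (c (a (nat_lit 0x36400005)) e e)))))))))))
 (c (a (nat_lit 0x202021))
 (c (a (nat_lit 0x1160604042))
 (c (a (nat_lit 0x11e000000001)) e e)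
 (c (a (nat_lit 0x40407fc5)) e
 (c (a (nat_lit 0x2d515408)) e
 (c z e
 (c (a (nat_lit 0x17575773a9)) e
 (c (a (nat_lit 0x151510e767)) e
 (c (a (nat_lit 0x1151402007)) e
 (c (a (nat_lit 0x18a0202006)) e
 (c (a (nat_lit 0x3f124004)) e
 (c (a (nat_lit 0x80000001)) e e))))))))))
 (c (a (nat_lit 0x202021))
 (c (a (nat_lit 0x50381a86)) e
 (c (a (nat_lit 0x12b6b77528)) e
 (c (a (nat_lit 0x1a9a9a9308)) e
 (c (a (nat_lit 0x17f7f7f6e8)) e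
 (c (a (nat_lit 0x11d1c03166)) e
 (c (a (nat_lit 0x20205d85)) e
 (c (a (nat_lit 0x2b51c566)) e
 (c (a (nat_lit 0x140800001)) e e))))))))
 (c (a (nat_lit 0x202021))
 (c (a (nat_lit 0xf8f900e68)) e
 (c (a (nat_lit 0x131312ab49)) e
 (c (a (nat_lit 0x1a1a002008)) e
 (c (a (nat_lit 0x1680202027)) e
 (c (a (nat_lit 0x3f403064)) e
 (c (a (nat_lit 0x4a02001)) e
 (c (a (nat_lit 0xe0000001)) e e)))))))
 (c (a (nat_lit 0x202021))
 (c (a (nat_lit 0x80206081)) e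
 (c (a (nat_lit 0x6101e001)) e
 (c (a (nat_lit 0x3e402006)) e
 (c (a (nat_lit 0x40402021)) e
 (c (a (nat_lit 0x400001)) e e)))))
 (c (a (nat_lit 0x402021))
 (c (a (nat_lit 0x1318b6b147)) e
 (c (a (nat_lit 0x602181)) e
 (c (a (nat_lit 0x40204001)) e
 (c (a (nat_lit 0x20000001)) e e))))
 (c (a (nat_lit 0x202021))
 (c (a (nat_lit 0x202021)) e
 (c (a (nat_lit 0x20200001)) e e))
 (c (a (nat_lit 0x202021))
 (c (a (nat_lit 0x20000001)) e e)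
 (c (a (nat_lit 0x202021)) e
 (c (a (nat_lit 0x81)) e
 (c (a (nat_lit 0x6021)) e
 (c (b (nat_lit 0x401fe1)) e
 (c (b (nat_lit 0x1fe001)) e
 (c (b (nat_lit 0x1fe04001)) e
 (c (a (nat_lit 0x404001)) e
 (c (a (nat_lit 0x400001)) e
 (c (a (nat_lit 0x604021)) e
 (c (a (nat_lit 0x404001)) e
 (c (a (nat_lit 0x402021)) e
 (c (a (nat_lit 0x200001)) e e)))))))))))))))))))))))) Tr.c Tr.e (nat_lit 0) C.cx C.cy
noncomputable def C106 : Tr := beta% (fun (c : Nat → Tr → Tr → Tr) (e : Tr) (z : Nat) (a b : Nat → Nat) =>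
 (c (a (nat_lit 0x202021))
 (c (a (nat_lit 0x202001))
 (c (a (nat_lit 0xb73efcfcfc3))
 (c z e
 (c (a (nat_lit 0x14166424041405)) e
 (c (a (nat_lit 0x11a804243b7445)) e
 (c (a (nat_lit 0x5424254f08326)) e
 (c (a (nat_lit 0x706ccb665a627)) e
 (c (a (nat_lit 0x13cf48e9ce3146)) e
 (c (a (nat_lit 0xda9ae16baf6a5)) e
 (c (a (nat_lit 0x1ea053b0600004)) e e))))))))
 (c (a (nat_lit 0x110040402024))
 (c (a (nat_lit 0x11224020210026))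
 (c z e
 (c (a (nat_lit 0x1160000000000007)) e e))
 (c (a (nat_lit 0x601a1abd5a626)) e
 (c (a (nat_lit 0x864b15729e4c7)) e
 (c (a (nat_lit 0x4e0d1a7438028)) e
 (c z e
 (c (a (nat_lit 0x21d8d4dce005)) e
 (c (a (nat_lit 0x7e62a0000004)) e e)))))))
 (c (a (nat_lit 0x181c1c06041))
 (c (a (nat_lit 0x6a56ad6e697a6)) e
 (c z e
 (c z e
 (c z e
 (c (a (nat_lit 0xd780c2a00005)) e
 (c (a (nat_lit 0x1e824000000005)) e e))))))
 (c (a (nat_lit 0xe0e0e0fac4))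
 (c (a (nat_lit 0xef9b08626d0e7)) e
 (c (a (nat_lit 0x194985e5ea6b68)) e
 (c (a (nat_lit 0x4254970696008)) e
 (c (a (nat_lit 0xa52faa0000006)) e e))))
 (c (a (nat_lit 0xb8b93541486))
 (c (a (nat_lit 0x1391537cb28c86)) e e)
 (c (a (nat_lit 0xe523273d967)) e
 (c (a (nat_lit 0xd949a973507)) e
 (c (a (nat_lit 0x1056932de907)) e
 (c (a (nat_lit 0x10ad4d47cb87)) e
 (c (a (nat_lit 0x10b0ab0aea27)) e
 (c (a (nat_lit 0xec9324ca827)) e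
 (c (a (nat_lit 0x1032928a87c7)) e
 (c (a (nat_lit 0x173740202005)) e
 (c (a (nat_lit 0x174020200005)) e
 (c (a (nat_lit 0x1fc000000002)) e e)))))))))))))))
 (c (a (nat_lit 0x20202021))
 (c (a (nat_lit 0x2060406061))
 (c (a (nat_lit 0x192b2b21296204)) e
 (c (a (nat_lit 0xeeef07e4645e7)) e
 (c (a (nat_lit 0x967378e655e27)) e
 (c z e
 (c z e
 (c (a (nat_lit 0x635a7ae00005)) e
 (c (a (nat_lit 0xd924000000005)) e e)))))))
 (c (a (nat_lit 0x2e300205945))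
 (c (a (nat_lit 0x9089146e3d648)) e
 (c z e
 (c z e
 (c z e
 (c (a (nat_lit 0x982800000006)) e e)))))
 (c (b (nat_lit 0x888f79fece6))
 (c z e
 (c z e
 (c z e
 (c (a (nat_lit 0x11a000000004)) e e))))
 (c (b (nat_lit 0x54cbfee9147)) e
 (c z e
 (c z e
 (c (a (nat_lit 0xd33324b0b88)) e
 (c (a (nat_lit 0x11912a8d3188)) e
 (c (a (nat_lit 0x1770aff0a748)) e
 (c (a (nat_lit 0xfb02c43a2e8)) e
 (c (a (nat_lit 0x1058e3c3c187)) e
 (c (a (nat_lit 0x1fc020202006)) e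
 (c (a (nat_lit 0x16140000001)) e e)))))))))))))
 (c (a (nat_lit 0x202001))
 (c (a (nat_lit 0xa4a5217d165))
 (c (a (nat_lit 0x488a7ca2a5127)) e
 (c z e
 (c z e
 (c z e
 (c (a (nat_lit 0x1ded0000000006)) e e)))))
 (c (a (nat_lit 0xaeed49253e7)) e
 (c z e
 (c z e
 (c z e
 (c (a (nat_lit 0xb362bcbe9c8)) e
 (c (a (nat_lit 0x146af1d0cb88)) e
 (c (a (nat_lit 0x1c97ef042d47)) e
 (c (a (nat_lit 0x18ad512e2e47)) e
 (c (a (nat_lit 0x10a16160cb67)) e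
 (c (a (nat_lit 0x8120800001)) e
 (c (a (nat_lit 0x6000000001)) e e))))))))))))
 (c (a (nat_lit 0x203124))
 (c (a (nat_lit 0xbeef06dce28))
 (c (a (nat_lit 0x4e61435342547)) e
 (c (a (nat_lit 0x5f0984d400008)) e e))
 (c (a (nat_lit 0x62a0967d0e8))
 (c (a (nat_lit 0x8b5cbe0000007)) e e)
 (c z e
 (c z e
 (c (a (nat_lit 0x2f8bbd1cba7)) e
 (c (a (nat_lit 0xfe39e967e6)) e
 (c (a (nat_lit 0x13aa646b22c7)) e
 (c (a (nat_lit 0xd304c8ce088)) e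
 (c (a (nat_lit 0x1c51df388005)) e
 (c (a (nat_lit 0x28080000001)) e e))))))))))
 (c (a (nat_lit 0x203688a5))
 (c (a (nat_lit 0x50367714827))
 (c (a (nat_lit 0x128e6000000004)) e e)
 (c z e
 (c z e
 (c (b (nat_lit 0x17da343fffe7)) e
 (c (b (nat_lit 0x1132299fe047)) e
 (c z e
 (c (a (nat_lit 0x12add7292b68)) e
 (c (a (nat_lit 0x401d2600006)) e
 (c (a (nat_lit 0x20000000001)) e e)))))))))
 (c (a (nat_lit 0xcd8f8cb87))
 (c z e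
 (c z e
 (c z e
 (c z e
 (c z e
 (c z e
 (c (a (nat_lit 0x1060000006)) e e)))))))
 (c z e
 (c (a (nat_lit 0x11c6802004))
 (c (a (nat_lit 0x6caab3acee8)) e
 (c (a (nat_lit 0x30752ea6089)) e
 (c (a (nat_lit 0x4f17162a009)) e e)))
 (c (a (nat_lit 0x1200402003))
 (c (a (nat_lit 0x6f40ee52027)) e
 (c (a (nat_lit 0x16da68600008)) e e))
 (c (a (nat_lit 0x20402021))
 (c (a (nat_lit 0x188480000008)) e e)
 (c (a (nat_lit 0x2dd206)) e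
 (c (a (nat_lit 0x30f0c4)) e
 (c (a (nat_lit 0xa08021)) e
 (c (a (nat_lit 0x60404001)) e
 (c (a (nat_lit 0x4060a041)) e
 (c (a (nat_lit 0xbababb206)) e
 (c (a (nat_lit 0xbb3603286)) e
 (c (a (nat_lit 0x20203c45)) e
 (c (a (nat_lit 0xfb5b24927)) e
 (c (a (nat_lit 0x15a9200007)) e e))))))))))))))))))))
 (c (a (nat_lit 0x202021))
 (c (a (nat_lit 0x20202001))
 (c (a (nat_lit 0x15f61090bd23))
 (c (a (nat_lit 0xb2b2cad6472a5)) e
 (c (a (nat_lit 0x9cacde54455a8)) e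
 (c (a (nat_lit 0x326ca496f9008)) e
 (c z e
 (c z e
 (c (a (nat_lit 0x3a3440000005)) e e))))))
 (c (a (nat_lit 0xe2e31908d87))
 (c (a (nat_lit 0x88a46e6b01109)) e e)
 (c (a (nat_lit 0xcb03897f247)) e
 (c z e
 (c z e
 (c (a (nat_lit 0x113190ab28e8)) e
 (c (a (nat_lit 0x11102d6aef28)) e
 (c (a (nat_lit 0x16cd6e3baca7)) e
 (c (a (nat_lit 0x15c773890927)) e
 (c (a (nat_lit 0x13efa680c0e7)) e
 (c (a (nat_lit 0x1244840248e7)) e
 (c (a (nat_lit 0x1c4060200004)) e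
 (c (a (nat_lit 0xc000000001)) e e)))))))))))))
 (c (a (nat_lit 0x1125))
 (c (a (nat_lit 0xe7039f5cc07))
 (c (a (nat_lit 0x9272b7794bf48)) e e)
 (c z e
 (c z e
 (c z e
 (c (a (nat_lit 0xe5109892b69)) e
 (c (a (nat_lit 0x132e4f8eeac9)) e
 (c (a (nat_lit 0xbacd3848108)) e
 (c (a (nat_lit 0x7aeaa938ca7)) e
 (c (a (nat_lit 0xd3777f5c787)) e
 (c (a (nat_lit 0x8b42e3d8006)) e
 (c (a (nat_lit 0x18140000001)) e e)))))))))))
 (c (a (nat_lit 0x20315125))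
 (c z e
 (c z e
 (c z e
 (c z e
 (c z e
 (c z e
 (c z e
 (c (b (nat_lit 0x6c8135fffe8)) e
 (c (a (nat_lit 0x69d4ca00006)) e
 (c (a (nat_lit 0x6000000001)) e e))))))))))
 (c (a (nat_lit 0x190908a28)) e
 (c z e
 (c (a (nat_lit 0x110da7c006)) e
 (c (a (nat_lit 0x15e0202024))
 (c z e
 (c (a (nat_lit 0xaae76c5e029)) e
 (c (a (nat_lit 0xd5be9000009)) e e)))
 (c (a (nat_lit 0x6060c1))
 (c (a (nat_lit 0x7dbaba30008)) e
 (c (a (nat_lit 0x1b4b60000009)) e e))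
 (c (a (nat_lit 0x2c74e6))
 (c (a (nat_lit 0x1c4000000007)) e e)
 (c (a (nat_lit 0x1a14001)) e
 (c (a (nat_lit 0x37b7b785)) e
 (c (a (nat_lit 0x80a080e1)) e
 (c (a (nat_lit 0xc0c0a101)) e
 (c (a (nat_lit 0x203943)) e
 (c (a (nat_lit 0x143b002e86)) e
 (c (a (nat_lit 0x5f802064)) e
 (c (a (nat_lit 0x202a5466)) e
 (c (a (nat_lit 0x197b8ce007)) e e))))))))))))))))))
 (c (a (nat_lit 0x404041))
 (c (a (nat_lit 0x113124))
 (c (a (nat_lit 0x94cf24c25a6))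
 (c (a (nat_lit 0x78993b7fc2d06)) e e)
 (c z e
 (c z e
 (c z e
 (c (a (nat_lit 0x148b2eed08a8)) e
 (c (a (nat_lit 0x18bbb9e7a8e7)) e
 (c (a (nat_lit 0xcaadcf62c06)) e
 (c (b (nat_lit 0x242950a9fe7)) e
 (c (b (nat_lit 0x7372ffe4a7)) e
 (c (a (nat_lit 0x1144f2c00004)) e
 (c (a (nat_lit 0x114000000002)) e e)))))))))))
 (c (a (nat_lit 0x359f9ed27)) e
 (c z e
 (c (a (nat_lit 0x13bb402005))
 (c (a (nat_lit 0x11d59173aa47)) e
 (c (a (nat_lit 0x60cd02b0168)) e e))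
 (c (a (nat_lit 0x1780402004))
 (c (b (nat_lit 0x6676cb7bfe7)) e
 (c (a (nat_lit 0x74c7f3308e8)) e
 (c (b (nat_lit 0x17d51fffa067)) e
 (c (a (nat_lit 0x1d7f6c600008)) e e))))
 (c (a (nat_lit 0x60606141))
 (c (a (nat_lit 0x652ed650028)) e
 (c (a (nat_lit 0x167f15a4a008)) e
 (c (a (nat_lit 0x1504e0000009)) e e)))
 (c (a (nat_lit 0x202e76e6))
 (c (a (nat_lit 0x196823200008)) e
 (c (a (nat_lit 0x12a000000008)) e e))
 (c (a (nat_lit 0x311105)) e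
 (c (a (nat_lit 0x14342d46)) e
 (c (a (nat_lit 0x82234001)) e
 (c (a (nat_lit 0x60804001)) e
 (c (a (nat_lit 0x20205883)) e
 (c (a (nat_lit 0x22c101)) e
 (c (a (nat_lit 0x3d0020c4)) e
 (c (a (nat_lit 0x3f002004)) e
 (c (b (nat_lit 0x100ffe1)) e e))))))))))))))))
 C105)))) Tr.c Tr.e (nat_lit 0) C.cx C.cy
noncomputable def C107 : Tr := beta% (fun (c : Nat → Tr → Tr → Tr) (e : Tr) (z : Nat) (a b : Nat → Nat) =>
 (c (a (nat_lit 0x202021))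
 (c (a (nat_lit 0x4177730a6))
 (c z e
 (c z e
 (c z e
 (c z e
 (c z e
 (c z e
 (c (b (nat_lit 0x2a9fea7648)) e e)))))))
 (c z e
 (c (a (nat_lit 0x9f1202026))
 (c (a (nat_lit 0x11b2b2d7d7a7)) e
 (c (a (nat_lit 0x8e9cb5081a9)) e
 (c z e
 (c z e
 (c (a (nat_lit 0x13929e202008)) e e)))))
 (c (a (nat_lit 0x1280202005))
 (c (a (nat_lit 0x749944d4f28)) e
 (c z e
 (c (b (nat_lit 0xb7ff3836089)) e
 (c (a (nat_lit 0x114cc1a00009)) e e))))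
 (c (a (nat_lit 0x40406001))
 (c (b (nat_lit 0x8fff1c5e068)) e
 (c (b (nat_lit 0x1ff2a9830009)) e
 (c (a (nat_lit 0x1023a0000009)) e e)))
 (c (a (nat_lit 0x202e3686))
 (c (a (nat_lit 0x10e381c00009)) e
 (c (a (nat_lit 0x1ac000000007)) e e))
 (c (a (nat_lit 0x20313105)) e
 (c z e
 (c (a (nat_lit 0xa3e9c481)) e
 (c (a (nat_lit 0x15f6002002)) e
 (c (a (nat_lit 0x3d0802025)) e
 (c (a (nat_lit 0x12120005)) e
 (c (a (nat_lit 0x4040c1)) e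
 (c (a (nat_lit 0x202038a6)) e
 (c (a (nat_lit 0x38b346)) e
 (c (a (nat_lit 0xe1400001)) e e))))))))))))))))
 (c (a (nat_lit 0x202021))
 (c (a (nat_lit 0x1131202005))
 (c (a (nat_lit 0x15992fe88465)) e
 (c (a (nat_lit 0x11ee6f8b2a87)) e
 (c (a (nat_lit 0xbee4ef1a027)) e
 (c (a (nat_lit 0x52549257588)) e
 (c (a (nat_lit 0x76c62b6c1e7)) e e)))))
 (c (a (nat_lit 0x1120202006))
 (c (a (nat_lit 0x1112b312c047)) e
 (c (a (nat_lit 0xb6dcba430a9)) e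
 (c (a (nat_lit 0x8ab65b48149)) e e)))
 (c (a (nat_lit 0x100a0a001))
 (c (a (nat_lit 0xb0e67d52068)) e
 (c z e
 (c (a (nat_lit 0x39544a06009)) e
 (c (a (nat_lit 0x12a380000009)) e e))))
 (c (a (nat_lit 0x2021b265))
 (c (a (nat_lit 0xe5fc5e36148)) e
 (c (a (nat_lit 0x1de502200009)) e
 (c (a (nat_lit 0x172000000007)) e e)))
 (c (a (nat_lit 0x205ddd04))
 (c (a (nat_lit 0x1b44e0000006)) e e)
 (c (a (nat_lit 0x33537305)) e
 (c z e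
 (c (a (nat_lit 0xe0e0c001)) e
 (c (a (nat_lit 0xbb2e14005)) e
 (c (a (nat_lit 0x76160a081)) e
 (c (a (nat_lit 0x20c08001)) e
 (c (a (nat_lit 0xa06147e1)) e
 (c (a (nat_lit 0x70707f8e5)) e
 (c (a (nat_lit 0x1a1e001)) e
 (c (a (nat_lit 0x60000001)) e e)))))))))))))))
 (c (nat_lit 1)
 (c (a (nat_lit 0xc0802001))
 (c (a (nat_lit 0x1153d16f6026)) e
 (c (a (nat_lit 0x1e3e798a62a7)) e
 (c (b (nat_lit 0xf48d19fe028)) e
 (c (a (nat_lit 0x318e5404007)) e e))))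
 (c (a (nat_lit 0x202030e5))
 (c (a (nat_lit 0x11480a028288)) e
 (c (a (nat_lit 0xd9ea24160a9)) e
 (c (a (nat_lit 0x1ac241a00008)) e
 (c (a (nat_lit 0x140000000006)) e e))))
 (c (a (nat_lit 0x1848101))
 (c (a (nat_lit 0x1b0162602008)) e
 (c (a (nat_lit 0x49ac0000005)) e e))
 (c (a (nat_lit 0xaaa8021))
 (c (a (nat_lit 0x134000000004)) e e)
 (c (a (nat_lit 0x1abaa847a4)) e
 (c (a (nat_lit 0x202f9106)) e
 (c (a (nat_lit 0x2e8f3387)) e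
 (c (a (nat_lit 0x18ba5a7a46)) e
 (c (a (nat_lit 0xfafaf1027)) e
 (c (a (nat_lit 0x1a5a5df0a6)) e
 (c (a (nat_lit 0x171acdbe06)) e
 (c (a (nat_lit 0x1ac0204045)) e
 (c (a (nat_lit 0x36000005)) e e)))))))))))))
 (c (a (nat_lit 0x2021))
 (c (a (nat_lit 0x28363a161))
 (c (a (nat_lit 0x188fe4a12026)) e
 (c (a (nat_lit 0x1b2281c02008)) e
 (c (a (nat_lit 0x10ea60000004)) e e)))
 (c (a (nat_lit 0x628380a1))
 (c (a (nat_lit 0x3f1e0600005)) e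
 (c (a (nat_lit 0x144000000004)) e e))
 (c (a (nat_lit 0x4c4fe3422)) e
 (c (a (nat_lit 0x422c559e1)) e
 (c (a (nat_lit 0x39fa7a67)) e
 (c (a (nat_lit 0x205213a6)) e
 (c (a (nat_lit 0x169696b467)) e
 (c (a (nat_lit 0x1efef70966)) e
 (c (a (nat_lit 0x15ae802d06)) e
 (c (a (nat_lit 0xd402034c6)) e
 (c (a (nat_lit 0x560005)) e
 (c (a (nat_lit 0x20000001)) e e))))))))))))
 (c (a (nat_lit 0x202021))
 (c (a (nat_lit 0x12241e001))
 (c (a (nat_lit 0x7e1a0000001)) e e)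
 (c (a (nat_lit 0x50245f321)) e
 (c (a (nat_lit 0x2ff01008)) e
 (c z e
 (c (a (nat_lit 0x1b1b3b0026)) e
 (c (a (nat_lit 0x17f7f3cd47)) e
 (c (a (nat_lit 0xd0d003366)) e
 (c (a (nat_lit 0x1a60202085)) e
 (c (a (nat_lit 0x40605ec3)) e
 (c (a (nat_lit 0x120600001)) e e))))))))))
 (c (a (nat_lit 0x202021))
 (c (a (nat_lit 0x36d73706)) e
 (c (a (nat_lit 0x1111514f08)) e
 (c (a (nat_lit 0x14746da888)) e
 (c (a (nat_lit 0x6060f704)) e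
 (c (a (nat_lit 0x15f5c036c6)) e
 (c (a (nat_lit 0x405a04)) e
 (c (a (nat_lit 0x220fd0e5)) e
 (c (a (nat_lit 0x1a0804001)) e
 (c (a (nat_lit 0x100000001)) e e)))))))))
 (c (a (nat_lit 0x202021))
 (c (a (nat_lit 0x17d7d7d487)) e
 (c (a (nat_lit 0x12d2d22848)) e
 (c (a (nat_lit 0x108b298d09)) e
 (c (a (nat_lit 0x1860264207)) e
 (c (a (nat_lit 0xd9ab20c06)) e
 (c (a (nat_lit 0x11c02022c5)) e
 (c (a (nat_lit 0x20600001)) e e)))))))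
 (c (a (nat_lit 0x202021))
 (c (a (nat_lit 0x11f1ec2027)) e
 (c (a (nat_lit 0x12c0202028)) e
 (c (a (nat_lit 0x4aea81e1)) e
 (c (a (nat_lit 0x60002001)) e
 (c (a (nat_lit 0x40604001)) e
 (c (a (nat_lit 0x20000001)) e e))))))
 (c (a (nat_lit 0x202021))
 (c (a (nat_lit 0xa6c10cec8)) e
 (c (a (nat_lit 0x604081)) e
 (c (a (nat_lit 0x60e041)) e
 (c (a (nat_lit 0x800001)) e e))))
 (c (a (nat_lit 0x202041))
 (c (a (nat_lit 0x204041)) e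
 (c (a (nat_lit 0x20202001)) e
 (c (a (nat_lit 0x20000001)) e e)))
 (c (a (nat_lit 0x202021))
 (c (a (nat_lit 0x20200001)) e e)
 (c (a (nat_lit 0x202021)) e
 (c (a (nat_lit 0x202021)) e
 (c (nat_lit 1) e
 (c (a (nat_lit 0x6041)) e
 (c (b (nat_lit 0x403fe1)) e
 (c (a (nat_lit 0xe02001)) e
 (c (nat_lit 1) e
 (c (a (nat_lit 0x2021)) e
 (c (nat_lit 1) e
 (c (a (nat_lit 0x2001)) e
 (c (a (nat_lit 0x400001)) e
 (c (a (nat_lit 0x202001)) e e)))))))))))))))))))))))) Tr.c Tr.e (nat_lit 0) C.cx C.cy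
noncomputable def C108 : Tr := beta% (fun (c : Nat → Tr → Tr → Tr) (e : Tr) (z : Nat) (a b : Nat → Nat) =>
 (c (a (nat_lit 0x202021))
 (c (a (nat_lit 0x20204041))
 (c (a (nat_lit 0x202051c042))
 (c (a (nat_lit 0x102f0040484844))
 (c z e
 (c (a (nat_lit 0x8897114d52ca008)) e
 (c (a (nat_lit 0xbb1b3aa40000008)) e e)))
 (c (a (nat_lit 0x844e5404b9e47))
 (c (a (nat_lit 0x5cb6d3226000009)) e
 (c (a (nat_lit 0x10d4cde000000009)) e e))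
 (c (a (nat_lit 0x3030140334ea8)) e
 (c (a (nat_lit 0x182c030698d67)) e
 (c (a (nat_lit 0x927ed25536b48)) e
 (c z e
 (c z e
 (c z e
 (c (a (nat_lit 0x8690e0000007)) e e)))))))))
 (c (a (nat_lit 0x8f5ab4b6006))
 (c (a (nat_lit 0x52b6b6a9932c8))
 (c (a (nat_lit 0x9679385c0000008)) e
 (c (a (nat_lit 0x215400000000008)) e e))
 (c (a (nat_lit 0x3a8c7f50ed2a9)) e
 (c (a (nat_lit 0x1e7d48fcf6f49)) e
 (c (a (nat_lit 0x65d6b9f136aa8)) e e))))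
 (c (a (nat_lit 0x12e121212003))
 (c (a (nat_lit 0x282d48d976ea8)) e e)
 (c (a (nat_lit 0x12181622001)) e
 (c (a (nat_lit 0x16b6b8d71366))
 (c (a (nat_lit 0x12d811646ce728)) e e)
 (c (b (nat_lit 0x9d0347ff907)) e
 (c z e
 (c z e
 (c (a (nat_lit 0x1738108b88c8)) e
 (c (a (nat_lit 0x1b98586b0647)) e
 (c (a (nat_lit 0xf6fd1962006)) e
 (c (a (nat_lit 0x12266b072026)) e
 (c (a (nat_lit 0x2060703004)) e
 (c (a (nat_lit 0x10181206001)) e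
 (c (a (nat_lit 0x12080000001)) e e)))))))))))))))
 (c (a (nat_lit 0x40404041))
 (c (a (nat_lit 0x136040402025))
 (c (a (nat_lit 0xf6fc1b7bfa625))
 (c (a (nat_lit 0x757466000000005)) e e)
 (c (a (nat_lit 0x58033db57c408)) e
 (c (a (nat_lit 0x280df007c049)) e e)))
 (c (a (nat_lit 0x28181a26001))
 (c (a (nat_lit 0x16c6eb283a089)) e e)
 (c (a (nat_lit 0x205a27e684)) e
 (c (b (nat_lit 0x42d129fffe7)) e
 (c z e
 (c z e
 (c z e
 (c z e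
 (c (a (nat_lit 0x116e2d4583e9)) e
 (c (a (nat_lit 0x1d185ca983a8)) e
 (c (a (nat_lit 0x1411d9cb72c8)) e
 (c (a (nat_lit 0x96a2036b6a7)) e
 (c (a (nat_lit 0x181800001)) e
 (c (nat_lit 1) e e))))))))))))))
 (c (a (nat_lit 0x4061))
 (c (a (nat_lit 0xd0ce060b843))
 (c (a (nat_lit 0x132ff7adc40027)) e e)
 (c (a (nat_lit 0xab37dd8d607)) e
 (c z e
 (c z e
 (c z e
 (c z e
 (c (a (nat_lit 0xdb0a7e62549)) e
 (c (a (nat_lit 0x140c29e5e309)) e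
 (c z e
 (c (a (nat_lit 0xdaea3a15d08)) e
 (c (a (nat_lit 0xba4803ea007)) e
 (c (a (nat_lit 0x1a0c0000001)) e e))))))))))))
 (c (a (nat_lit 0x60404021))
 (c z e
 (c z e
 (c z e
 (c z e
 (c z e
 (c (b (nat_lit 0x14de1bec3fe7)) e
 (c (b (nat_lit 0x1db2411fe927)) e
 (c z e
 (c (a (nat_lit 0x7e0e022b0e9)) e
 (c (a (nat_lit 0x124626600004)) e
 (c (a (nat_lit 0x6000000001)) e e)))))))))))
 (c (a (nat_lit 0x20203a87))
 (c (a (nat_lit 0xcabc8334006))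
 (c (a (nat_lit 0x16732980000006)) e e)
 (c z e
 (c z e
 (c z e
 (c (b (nat_lit 0xa1129415fe8)) e
 (c z e
 (c z e
 (c (a (nat_lit 0x2804030a008)) e
 (c (a (nat_lit 0x8760000001)) e e)))))))))
 (c (a (nat_lit 0x2031b187))
 (c z e
 (c z e
 (c z e
 (c z e
 (c z e
 (c z e
 (c (a (nat_lit 0xa4b18800007)) e
 (c (a (nat_lit 0x114000000006)) e e))))))))
 (c (a (nat_lit 0x816562ba8)) e
 (c z e
 (c (a (nat_lit 0x1709e5c5c7))
 (c (a (nat_lit 0x2b74901c108)) e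
 (c (a (nat_lit 0xe18d0e3c009)) e e))
 (c (a (nat_lit 0x1440202025))
 (c (a (nat_lit 0x13ccc3400009)) e e)
 (c (a (nat_lit 0x402081)) e
 (c (a (nat_lit 0x203144)) e
 (c (a (nat_lit 0x6080a1)) e
 (c (a (nat_lit 0x12c0402003)) e
 (c (a (nat_lit 0x1a0c02001)) e
 (c (a (nat_lit 0x22160c061)) e
 (c (a (nat_lit 0x1c0e0e3c1)) e
 (c (a (nat_lit 0x20203a44)) e
 (c (b (nat_lit 0x1a9fffe3)) e
 (c (a (nat_lit 0x1340202005)) e
 (c (a (nat_lit 0x80000001)) e e)))))))))))))))))))))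
 (c (a (nat_lit 0x202021))
 (c (a (nat_lit 0x20202021))
 (c (a (nat_lit 0x4060406001))
 (c (a (nat_lit 0xca5a5d0e94a85)) e
 (c (a (nat_lit 0x8687e38a2c046)) e
 (c (a (nat_lit 0xe2cfb56ad12e8)) e e)))
 (c (a (nat_lit 0x9eb60a10001))
 (c (a (nat_lit 0x82a5024c1a248)) e e)
 (c (a (nat_lit 0xc0d31f1eec8)) e
 (c z e
 (c z e
 (c z e
 (c (a (nat_lit 0xc38d32fec68)) e
 (c (a (nat_lit 0xfd533b130c7)) e
 (c (a (nat_lit 0x133189452548)) e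
 (c (a (nat_lit 0x10cd88e8c648)) e
 (c (a (nat_lit 0x12b2566f8c87)) e
 (c (a (nat_lit 0x1c9ca0402004)) e
 (c (a (nat_lit 0x1c4020000004)) e e)))))))))))))
 (c (a (nat_lit 0x20204041))
 (c (a (nat_lit 0x969d4cd4b87))
 (c (a (nat_lit 0x8a787c82235e8)) e e)
 (c z e
 (c z e
 (c z e
 (c z e
 (c (a (nat_lit 0xa901169e4e8)) e
 (c (a (nat_lit 0x18fbf9f00f27)) e
 (c (a (nat_lit 0x174a05668e68)) e
 (c (a (nat_lit 0x15a30be70828)) e
 (c (a (nat_lit 0xf678c88f6a8)) e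
 (c (a (nat_lit 0x1d0040400005)) e
 (c (a (nat_lit 0xa000000001)) e e))))))))))))
 (c (a (nat_lit 0x20203125))
 (c z e
 (c z e
 (c z e
 (c z e
 (c z e
 (c z e
 (c z e
 (c z e
 (c (a (nat_lit 0x949717c4008)) e
 (c (a (nat_lit 0x198b40000003)) e e))))))))))
 (c (a (nat_lit 0x203a8467)) e
 (c (a (nat_lit 0x1d40c6888)) e
 (c z e
 (c (a (nat_lit 0x10b2a7c006)) e
 (c (a (nat_lit 0x1840202025))
 (c (b (nat_lit 0x29ff7c3a008)) e
 (c (a (nat_lit 0x11b2e6e00009)) e e))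
 (c (a (nat_lit 0x806101))
 (c (a (nat_lit 0x18c820000008)) e e)
 (c (a (nat_lit 0x202dd207)) e
 (c (a (nat_lit 0x307067)) e
 (c (a (nat_lit 0x160e0c0c1)) e
 (c (a (nat_lit 0xe0806081)) e
 (c (a (nat_lit 0x20408001)) e
 (c (a (nat_lit 0xc0e0a101)) e
 (c (a (nat_lit 0x3d1d0005)) e
 (c (a (nat_lit 0x2032e7)) e
 (c (a (nat_lit 0x2035c747)) e
 (c (a (nat_lit 0x1e4b600007)) e e)))))))))))))))))))
 (c (a (nat_lit 0x202041))
 (c (a (nat_lit 0x3124))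
 (c (a (nat_lit 0xa1169ea6c86))
 (c (a (nat_lit 0x3e32682ebf147)) e
 (c (a (nat_lit 0x3a5a9305aece8)) e e))
 (c z e
 (c z e
 (c (a (nat_lit 0x10f979339008)) e
 (c (a (nat_lit 0x12526bed0f68)) e
 (c (a (nat_lit 0x118b0b68e227)) e
 (c (a (nat_lit 0x1a77b7583a05)) e
 (c (a (nat_lit 0x20046b10767)) e
 (c (a (nat_lit 0x2402aa9f3a7)) e
 (c (a (nat_lit 0x30ae6f36007)) e
 (c (a (nat_lit 0x124240000005)) e e)))))))))))
 (c (a (nat_lit 0x113465))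
 (c z e
 (c z e
 (c z e
 (c z e
 (c z e
 (c z e
 (c (b (nat_lit 0x400f0ffffe8)) e e)))))))
 (c z e
 (c (a (nat_lit 0x10f16d89a8))
 (c (a (nat_lit 0x105114123588)) e
 (c (a (nat_lit 0xfb651b7b7a8)) e
 (c z e
 (c z e
 (c (a (nat_lit 0xd6fef90a429)) e e)))))
 (c (a (nat_lit 0x1292802005))
 (c (a (nat_lit 0x54466c81508)) e
 (c z e
 (c (b (nat_lit 0x3adfbbfe008)) e
 (c (a (nat_lit 0xa3b8cc3e009)) e e))))
 (c (a (nat_lit 0x11a0202025))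
 (c z e
 (c (b (nat_lit 0x183ffff8c087)) e
 (c (a (nat_lit 0x114aa8200009)) e e)))
 (c (a (nat_lit 0x206001))
 (c (a (nat_lit 0x2b3a7c0c008)) e
 (c (a (nat_lit 0x14cf60000008)) e e))
 (c (a (nat_lit 0x2d3586))
 (c (a (nat_lit 0x140000000007)) e e)
 (c (a (nat_lit 0x3110e5)) e
 (c (b (nat_lit 0x1ff9d9d985)) e
 (c (a (nat_lit 0xa0c08061)) e
 (c (a (nat_lit 0x806080c1)) e
 (c (a (nat_lit 0x1e1a14001)) e
 (c (a (nat_lit 0x5dc02005)) e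
 (c (a (nat_lit 0x203385)) e
 (c (a (nat_lit 0x53d845)) e
 (c (a (nat_lit 0x910a02007)) e
 (c (a (nat_lit 0x1960000006)) e e))))))))))))))))))
 C107)))) Tr.c Tr.e (nat_lit 0) C.cx C.cy
noncomputable def C109 : Tr := beta% (fun (c : Nat → Tr → Tr → Tr) (e : Tr) (z : Nat) (a b : Nat → Nat) =>
 (c (a (nat_lit 0x202001))
 (c (a (nat_lit 0x10706eeeeee6))
 (c (a (nat_lit 0x1e5cfb9adbfae5)) e
 (c (a (nat_lit 0x1102a087e2a004))
 (c (a (nat_lit 0xc4cef0bee4ab128)) e e)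
 (c (a (nat_lit 0x3f14b2240c004))
 (c (a (nat_lit 0xa094a6868481208)) e e)
 (c (a (nat_lit 0x1dd8a0402d4fa4))
 (c (a (nat_lit 0x150d4a1929600007)) e e)
 (c (a (nat_lit 0x13115151501906)) e
 (c (a (nat_lit 0x9cb2b8d947546)) e
 (c (a (nat_lit 0x1354565b5aa426)) e
 (c (a (nat_lit 0x1013b6da006b26)) e
 (c (a (nat_lit 0x1254da202dc866)) e
 (c (b (nat_lit 0x1178bfec67e946)) e
 (c (a (nat_lit 0x1e92c404200005)) e
 (c (a (nat_lit 0x366000000003)) e e))))))))))))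
 (c (a (nat_lit 0x1f9515151505))
 (c (a (nat_lit 0x6c2a9a6209205))
 (c (a (nat_lit 0x86b27c9a80df0c9)) e e)
 (c (a (nat_lit 0x1eb44900450985))
 (c (a (nat_lit 0x8cb0a2b6c52678a)) e e)
 (c z e
 (c z e
 (c z e
 (c z e
 (c z e
 (c z e
 (c (b (nat_lit 0x1b7fee21670007)) e
 (c (a (nat_lit 0x252a420000005)) e e))))))))))
 (c (a (nat_lit 0xa0a0e12181))
 (c (a (nat_lit 0x645244021d8a7))
 (c (a (nat_lit 0x120d88ae10068007)) e
 (c (a (nat_lit 0xf36969240000007)) e e))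
 (c (a (nat_lit 0x201a020d37988))
 (c (a (nat_lit 0x68cd04000000007)) e e)
 (c z e
 (c z e
 (c z e
 (c z e
 (c z e
 (c z e
 (c (a (nat_lit 0x39be000000003)) e e)))))))))
 (c (a (nat_lit 0x15d5d5d5d5c4))
 (c (a (nat_lit 0x2180ab56d007))
 (c (a (nat_lit 0x180fa00000000006)) e e)
 (c (a (nat_lit 0x2869534b0cf48)) e
 (c z e
 (c (a (nat_lit 0x12714ccc4eb128)) e
 (c (b (nat_lit 0x18bfeac373a827)) e
 (c z e
 (c (a (nat_lit 0x1ede7700000007)) e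
 (c (a (nat_lit 0x1ea00000000006)) e e))))))))
 (c (a (nat_lit 0x1919191915c6))
 (c (a (nat_lit 0x25cfdbaac67c7)) e
 (c z e
 (c (a (nat_lit 0x19986cb0557368)) e
 (c (a (nat_lit 0x3c0c3ac30a608)) e
 (c (a (nat_lit 0x9a4d22ae00008)) e
 (c (a (nat_lit 0x171bc000000006)) e e))))))
 (c (a (nat_lit 0x1b35b5b5b105))
 (c z e
 (c z e
 (c (a (nat_lit 0x5ce0dd8d08006)) e
 (c (a (nat_lit 0xc7cffa0000005)) e
 (c (a (nat_lit 0x13000000000005)) e e)))))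
 (c (a (nat_lit 0x1d98f8f8f905))
 (c (a (nat_lit 0x75d57ad8ba5c6)) e
 (c (a (nat_lit 0xc4f116a200007)) e
 (c (a (nat_lit 0x1daac000000006)) e e)))
 (c (a (nat_lit 0x88890505565))
 (c (a (nat_lit 0x107ceb40000006)) e
 (c (a (nat_lit 0x16600000000006)) e e))
 (c (a (nat_lit 0x95adb3b3606)) e
 (c (a (nat_lit 0x12b2b330c9a7)) e
 (c (a (nat_lit 0x1492ee896286)) e
 (c (a (nat_lit 0x126e2c4565a6)) e
 (c (a (nat_lit 0x110181028323)) e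
 (c (a (nat_lit 0x40811523)) e
 (c (a (nat_lit 0x2094d483)) e
 (c (a (nat_lit 0x40a200c001)) e
 (c (a (nat_lit 0x101e0000001)) e e)))))))))))))))))
 (c (a (nat_lit 0x40404041))
 (c (a (nat_lit 0x20604022c1))
 (c (a (nat_lit 0x74be6c047fd05))
 (c (a (nat_lit 0xca70aab52b59628)) e
 (c (a (nat_lit 0x649490e5292ec8a)) e
 (c (a (nat_lit 0xd4e975d6e400009)) e e)))
 (c (a (nat_lit 0x4856200a152c8))
 (c (a (nat_lit 0xaaaae71b4c8e00a)) e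
 (c (a (nat_lit 0xb9479506000000a)) e e))
 (c (a (nat_lit 0x1a0c0e0413629)) e
 (c (a (nat_lit 0x2020a397d6e8)) e
 (c (a (nat_lit 0x96b6c18007348)) e
 (c z e
 (c z e
 (c z e
 (c (a (nat_lit 0xb456b4200007)) e
 (c (a (nat_lit 0x1fc24000000004)) e e))))))))))
 (c (a (nat_lit 0x20409240c3))
 (c (a (nat_lit 0x38280e08bb2a9))
 (c (a (nat_lit 0xdedd039e6000008)) e
 (c (a (nat_lit 0x12cdde2000000008)) e e))
 (c (a (nat_lit 0x1c42446b4912a)) e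
 (c (a (nat_lit 0x204554f73889)) e e)))
 (c (a (nat_lit 0x10b0b0b0ad08))
 (c (a (nat_lit 0x20a0db69295e9)) e e)
 (c (a (nat_lit 0x11c7a78782e5)) e
 (c (a (nat_lit 0x1cfaba9a9d66)) e
 (c z e
 (c z e
 (c z e
 (c (a (nat_lit 0x16b76ec925c8)) e
 (c (a (nat_lit 0x1e97d6ceaac7)) e
 (c (a (nat_lit 0x1635958fafa7)) e
 (c (a (nat_lit 0x7aca2026041)) e
 (c (a (nat_lit 0x1c0605efec4)) e
 (c (a (nat_lit 0x40c1816101)) e
 (c (a (nat_lit 0x60400001)) e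
 (c (nat_lit 1) e e))))))))))))))))
 (c (a (nat_lit 0x20202001))
 (c (a (nat_lit 0x7249292284))
 (c (a (nat_lit 0x6eb8c4cacb2c6))
 (c (a (nat_lit 0x524ee580000006)) e
 (c (a (nat_lit 0x59400000000005)) e e))
 (c (a (nat_lit 0x47cbab957647)) e
 (c (a (nat_lit 0x30c8cda5f5028)) e e)))
 (c (a (nat_lit 0x146989898064))
 (c (a (nat_lit 0x1f270d81a80e7)) e e)
 (c (a (nat_lit 0x12a686806083)) e
 (c (b (nat_lit 0x585943fe924)) e
 (c z e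
 (c z e
 (c z e
 (c z e
 (c (a (nat_lit 0xe544eace4c8)) e
 (c (a (nat_lit 0x16f15791cae8)) e
 (c (a (nat_lit 0xd4cb28c28a8)) e
 (c (a (nat_lit 0x945c020b5c7)) e
 (c (a (nat_lit 0xb4021366006)) e
 (c (a (nat_lit 0x60000001)) e e))))))))))))))
 (c (a (nat_lit 0x2021))
 (c (a (nat_lit 0x128040604042))
 (c (a (nat_lit 0x1b37b4fd271686)) e
 (c z e
 (c z e
 (c (b (nat_lit 0xe8b3c5febe9e7)) e
 (c (a (nat_lit 0xa36e84c400007)) e e)))))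
 (c (b (nat_lit 0x4849a3ffa04))
 (c z e
 (c z e
 (c z e
 (c (a (nat_lit 0x3d38e0000005)) e e))))
 (c z e
 (c (a (nat_lit 0xe526ead8c68)) e
 (c (a (nat_lit 0x12d2ae60c026)) e
 (c z e
 (c (a (nat_lit 0x11b797b14d48)) e
 (c (a (nat_lit 0x15d3d10b46c8)) e
 (c (a (nat_lit 0x132d2d242048)) e
 (c (a (nat_lit 0x13737663f066)) e
 (c (a (nat_lit 0x2250038b886)) e
 (c (a (nat_lit 0x138020600004)) e
 (c (a (nat_lit 0x6000000001)) e e)))))))))))))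
 (c (nat_lit 1)
 (c (a (nat_lit 0x7f1b7b76c26)) e
 (c z e
 (c (a (nat_lit 0x11b18f705947)) e
 (c (a (nat_lit 0x6c483ac7047)) e
 (c (a (nat_lit 0x98c6db43308)) e
 (c (a (nat_lit 0xd0e9435d048)) e
 (c (b (nat_lit 0x171734003fe7)) e
 (c z e
 (c (a (nat_lit 0x153520aba347)) e
 (c (a (nat_lit 0x1581a1c06006)) e
 (c (a (nat_lit 0x3e060000001)) e e)))))))))))
 (c (nat_lit 1)
 (c (a (nat_lit 0x706c24074a5))
 (c z e
 (c (a (nat_lit 0x17058000000006)) e e))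
 (c (a (nat_lit 0xe09ab723366)) e
 (c (a (nat_lit 0x16065c53286)) e
 (c (a (nat_lit 0x5acf5968b87)) e
 (c (a (nat_lit 0x12d25ed94f87)) e
 (c (b (nat_lit 0x16d7ab1fed07)) e
 (c z e
 (c (a (nat_lit 0xc44850039c7)) e
 (c (a (nat_lit 0x31c3800003)) e
 (c (a (nat_lit 0x68000000001)) e e))))))))))
 (c (a (nat_lit 0x202034e5))
 (c (a (nat_lit 0xdf38cba5125)) e
 (c (a (nat_lit 0xf07d2151a26)) e
 (c (a (nat_lit 0x75017107087)) e
 (c (a (nat_lit 0x161b5fbbf227)) e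
 (c (a (nat_lit 0x10b1f5b20507)) e
 (c z e
 (c (a (nat_lit 0x15adc185e007)) e
 (c (a (nat_lit 0x10a6c0000006)) e e))))))))
 (c (a (nat_lit 0x35b585))
 (c (a (nat_lit 0xb2e96322f46)) e
 (c (a (nat_lit 0xeb70bb25487)) e
 (c (a (nat_lit 0x90eac8ad048)) e
 (c (a (nat_lit 0xcbd4ce36026)) e
 (c z e
 (c z e
 (c (a (nat_lit 0x14e000000006)) e e)))))))
 (c (a (nat_lit 0x595940d67))
 (c (a (nat_lit 0x40ef48bb487)) e
 (c (a (nat_lit 0xfb3d0996068)) e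
 (c (a (nat_lit 0x8c931a8cc07)) e e)))
 (c (a (nat_lit 0x10d0cd6a28))
 (c (a (nat_lit 0xdcc50682468)) e
 (c (a (nat_lit 0x935ea054208)) e
 (c (b (nat_lit 0x1ddff5600007)) e e)))
 (c (a (nat_lit 0x1bdba02024))
 (c (a (nat_lit 0x6f500e14008)) e
 (c (a (nat_lit 0x172180000008)) e e))
 (c (a (nat_lit 0x19c0202024)) e
 (c (a (nat_lit 0x402021)) e
 (c (a (nat_lit 0x404001)) e
 (c (a (nat_lit 0x202001)) e
 (c (a (nat_lit 0x1620202003)) e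
 (c (a (nat_lit 0x1260202043)) e
 (c (a (nat_lit 0xa0a1)) e
 (c (a (nat_lit 0x20203aa4)) e
 (c (b (nat_lit 0xe0603fe1)) e
 (c (a (nat_lit 0x1af3484044)) e
 (c (a (nat_lit 0x10c4200005)) e e))))))))))))))))))))))) Tr.c Tr.e (nat_lit 0) C.cx C.cy
noncomputable def C110 : Tr := beta% (fun (c : Nat → Tr → Tr → Tr) (e : Tr) (z : Nat) (a b : Nat → Nat) =>
 (c (a (nat_lit 0x202021))
 (c (a (nat_lit 0x31b1a7))
 (c (a (nat_lit 0x2033feadc7)) e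
 (c z e
 (c z e
 (c z e
 (c z e
 (c (a (nat_lit 0x28313774d47)) e
 (c (a (nat_lit 0x40344a37e8)) e e)))))))
 (c (a (nat_lit 0xab6f6f6e7)) e
 (c z e
 (c (a (nat_lit 0x1272802005))
 (c (a (nat_lit 0x2c4854790e9)) e
 (c z e
 (c (a (nat_lit 0x4095840a049)) e
 (c (a (nat_lit 0xfd96e024009)) e e))))
 (c (a (nat_lit 0x11a0202005))
 (c z e
 (c (b (nat_lit 0x13033ffbe007)) e
 (c (a (nat_lit 0x3f277800007)) e e)))
 (c (a (nat_lit 0x20606001))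
 (c (a (nat_lit 0x1617c3c3e007)) e
 (c (a (nat_lit 0x1465e0000006)) e e))
 (c (a (nat_lit 0x2e1666))
 (c (a (nat_lit 0x18a000000004)) e e)
 (c (a (nat_lit 0x30f105)) e
 (c z e
 (c (a (nat_lit 0x1ebedec003)) e
 (c (a (nat_lit 0x4f2ee2026)) e
 (c (a (nat_lit 0x212101)) e
 (c (a (nat_lit 0x1da0204004)) e
 (c (a (nat_lit 0x6100e121)) e
 (c (a (nat_lit 0x2032c7)) e
 (c (b (nat_lit 0x1fe0608001)) e
 (c (a (nat_lit 0x60000001)) e e)))))))))))))))))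
 (c (a (nat_lit 0x202021))
 (c (a (nat_lit 0x1c3c5c4025))
 (c (a (nat_lit 0x113bd756cca5)) e
 (c (a (nat_lit 0xcd2720d0947)) e
 (c (a (nat_lit 0x14143cd8eaa6)) e
 (c (a (nat_lit 0x1498522d9086)) e
 (c (a (nat_lit 0x11cbb0c9b4a6)) e e)))))
 (c (a (nat_lit 0x9d1202006))
 (c (a (nat_lit 0xf74722d8b47)) e
 (c (a (nat_lit 0xdd0b00e2228)) e
 (c (a (nat_lit 0x728886814e9)) e
 (c (a (nat_lit 0xc2fa6510008)) e e))))
 (c (a (nat_lit 0x12a0202005))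
 (c (a (nat_lit 0x7e887e47708)) e
 (c z e
 (c (a (nat_lit 0xb28fb06e028)) e
 (c (a (nat_lit 0x23bc4c00008)) e e))))
 (c (a (nat_lit 0x10080a021))
 (c (a (nat_lit 0x689db420028)) e
 (c (a (nat_lit 0x5746421a009)) e
 (c (a (nat_lit 0x1082c0000009)) e e)))
 (c (a (nat_lit 0x2021b245))
 (c (a (nat_lit 0x178342400008)) e
 (c (a (nat_lit 0x180000000006)) e e))
 (c (a (nat_lit 0x8108c921)) e
 (c z e
 (c (a (nat_lit 0x2e3034261)) e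
 (c (a (nat_lit 0xc35006004)) e
 (c (a (nat_lit 0xc10001)) e
 (c (a (nat_lit 0x1d80606043)) e
 (c (a (nat_lit 0x14101a021)) e
 (c (a (nat_lit 0x60409123)) e
 (c (a (nat_lit 0x7604079e4)) e
 (c (a (nat_lit 0x40a00001)) e e)))))))))))))))
 (c (nat_lit 1)
 (c (a (nat_lit 0x1120202005))
 (c (a (nat_lit 0x1e99fb9a8de5)) e
 (c (a (nat_lit 0x1456948dcca7)) e
 (c (a (nat_lit 0xa0af09b0528)) e
 (c (a (nat_lit 0x178a78a14287)) e e))))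
 (c (a (nat_lit 0x1c1004001))
 (c (a (nat_lit 0x1834dc7483e7)) e
 (c (a (nat_lit 0x5ccb564c02a)) e
 (c (a (nat_lit 0x75385a14009)) e
 (c (a (nat_lit 0x16c520000009)) e e))))
 (c (a (nat_lit 0x2020b145))
 (c (a (nat_lit 0x10f0a281c0a9)) e
 (c (a (nat_lit 0x136642a00009)) e
 (c (a (nat_lit 0x164000000006)) e e)))
 (c (a (nat_lit 0x2050f065))
 (c (a (nat_lit 0x137140000005)) e e)
 (c (a (nat_lit 0x18d8f8c6)) e
 (c z e
 (c (a (nat_lit 0x50945486)) e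
 (c (a (nat_lit 0x1012125246)) e
 (c (a (nat_lit 0x1333335326)) e
 (c (a (nat_lit 0x1191b171e6)) e
 (c (a (nat_lit 0x1636335666)) e
 (c (a (nat_lit 0x1c80609143)) e
 (c (a (nat_lit 0x334005)) e
 (c (nat_lit 1) e e))))))))))))))
 (c (nat_lit 1)
 (c (a (nat_lit 0x202030c4))
 (c (a (nat_lit 0x3eb71c1a128)) e
 (c (a (nat_lit 0x1019e160a069)) e
 (c (a (nat_lit 0x162241200008)) e e)))
 (c (a (nat_lit 0xa1a4a201))
 (c (a (nat_lit 0x1660e1402009)) e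
 (c (a (nat_lit 0x7d160000006)) e e))
 (c (a (nat_lit 0x270b4001))
 (c (a (nat_lit 0x116000000005)) e e)
 (c (a (nat_lit 0xa0a11be4)) e
 (c (a (nat_lit 0xaef911108)) e
 (c (a (nat_lit 0x23e4a301)) e
 (c (a (nat_lit 0x1454747226)) e
 (c (a (nat_lit 0x18b9316dc6)) e
 (c (a (nat_lit 0x13736f33c6)) e
 (c (a (nat_lit 0x1920412343)) e
 (c (a (nat_lit 0x41810001)) e
 (c (a (nat_lit 0x1780400003)) e e))))))))))))
 (c (nat_lit 1)
 (c (a (nat_lit 0xc08001))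
 (c (a (nat_lit 0x471e0200004)) e
 (c (a (nat_lit 0x126000000004)) e e))
 (c (a (nat_lit 0x2a2a41ac3)) e
 (c (a (nat_lit 0x79db9b87)) e
 (c z e
 (c (a (nat_lit 0x1535150b67)) e
 (c (a (nat_lit 0x19d9ccc986)) e
 (c (a (nat_lit 0x10b0ad1046)) e
 (c (a (nat_lit 0x1723aa9465)) e
 (c (a (nat_lit 0x2033e0a4)) e
 (c (a (nat_lit 0x802001)) e
 (c (a (nat_lit 0x180000001)) e e)))))))))))
 (c (a (nat_lit 0x202021))
 (c (a (nat_lit 0x41637b786)) e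
 (c (a (nat_lit 0x16b87854a7)) e
 (c (a (nat_lit 0x11b1916026)) e
 (c (a (nat_lit 0x199959c2a1)) e
 (c (a (nat_lit 0x1131052846)) e
 (c (a (nat_lit 0x40a04ee1)) e
 (c (a (nat_lit 0x189c4323)) e
 (c (a (nat_lit 0x1760806023)) e
 (c (a (nat_lit 0x60600001)) e e)))))))))
 (c (nat_lit 1)
 (c (a (nat_lit 0x1716f6f6a6)) e
 (c (a (nat_lit 0x195934c025)) e
 (c (a (nat_lit 0x444473247)) e
 (c (a (nat_lit 0x1e40202027)) e
 (c (a (nat_lit 0x2472f226)) e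
 (c (a (nat_lit 0x2035a3)) e
 (c (a (nat_lit 0x4c0a0c001)) e
 (c (nat_lit 1) e e))))))))
 (c (a (nat_lit 0x202021))
 (c (a (nat_lit 0xc0a281)) e
 (c (a (nat_lit 0x4e03d7d67)) e
 (c (a (nat_lit 0xcd4140026)) e
 (c (a (nat_lit 0x402001)) e
 (c (a (nat_lit 0x202160c1)) e
 (c (a (nat_lit 0x20200001)) e e))))))
 (c (a (nat_lit 0x202021))
 (c (a (nat_lit 0x98a1391c8)) e
 (c (a (nat_lit 0x100606001)) e
 (c (a (nat_lit 0x700222201)) e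
 (c (a (nat_lit 0x40602001)) e
 (c (a (nat_lit 0x1e0000001)) e e)))))
 (c (a (nat_lit 0x202021))
 (c (a (nat_lit 0x20202021)) e
 (c (a (nat_lit 0x20202021)) e
 (c (a (nat_lit 0x20200001)) e e)))
 (c (a (nat_lit 0x202021))
 (c (a (nat_lit 0x20202001)) e
 (c (a (nat_lit 0x20000001)) e e))
 (c (a (nat_lit 0x202021)) e
 (c (a (nat_lit 0x202001)) e
 (c (a (nat_lit 0x202021)) e
 (c (a (nat_lit 0x200041)) e
 (c (a (nat_lit 0x206041)) e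
 (c (a (nat_lit 0x2040c1)) e
 (c (b (nat_lit 0x1fe00001)) e
 (c (a (nat_lit 0x2001)) e
 (c (nat_lit 1) e
 (c (a (nat_lit 0x2001)) e
 (c (a (nat_lit 0x808001)) e
 (c (a (nat_lit 0x604021)) e
 (c (a (nat_lit 0x200001)) e e))))))))))))))))))))))))) Tr.c Tr.e (nat_lit 0) C.cx C.cy
noncomputable def C111 : Tr := beta% (fun (c : Nat → Tr → Tr → Tr) (e : Tr) (z : Nat) (a b : Nat → Nat) =>
 (c (a (nat_lit 0x202021))
 (c (a (nat_lit 0x20202021))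
 (c (a (nat_lit 0x1ba0c112f6a2))
 (c (a (nat_lit 0x44403f2efdec5)) e
 (c (a (nat_lit 0x6b0a51a4c8)) e
 (c (a (nat_lit 0x2ecce118aea48)) e
 (c (a (nat_lit 0x162b72b4918cc7)) e
 (c (a (nat_lit 0x4eb9b42580a6)) e e)))))
 (c (a (nat_lit 0xc72d0f0c2a3))
 (c (a (nat_lit 0x4d4755ac8a5c8)) e
 (c z e
 (c (a (nat_lit 0xf0fbacf8fa088)) e e)))
 (c (a (nat_lit 0xb52938c8c86)) e
 (c (a (nat_lit 0x179a1a16de06))
 (c (a (nat_lit 0x12f211ed77c567)) e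
 (c (a (nat_lit 0xec5726e000008)) e e))
 (c (a (nat_lit 0xa2a4cf1cb87))
 (c (a (nat_lit 0x3920ce0000006)) e e)
 (c z e
 (c (a (nat_lit 0x1214538f2ae8)) e
 (c (a (nat_lit 0x15f52dc32607)) e
 (c (a (nat_lit 0x10ac4be3c028)) e
 (c (a (nat_lit 0x1418b6656627)) e
 (c (a (nat_lit 0x1657d5c02a26)) e
 (c (a (nat_lit 0x3c040b4f505)) e
 (c (a (nat_lit 0xc2e0a00001)) e
 (c (a (nat_lit 0x1e000000001)) e e))))))))))))))
 (c (a (nat_lit 0x202001))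
 (c (a (nat_lit 0x7bb6060c5))
 (c (a (nat_lit 0x1450160803dd67)) e
 (c (a (nat_lit 0x12c54586038b09)) e
 (c (a (nat_lit 0x2ce85262b148)) e e)))
 (c (a (nat_lit 0x175ab7777a48)) e
 (c (a (nat_lit 0xd2badf17468)) e
 (c (a (nat_lit 0x486c931c528)) e
 (c z e
 (c (a (nat_lit 0x137719988f48)) e
 (c (a (nat_lit 0x1d5ad404e3a7)) e
 (c (a (nat_lit 0x1653aa0021c8)) e
 (c (a (nat_lit 0x129308aa4988)) e
 (c (a (nat_lit 0x175647803188)) e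
 (c (a (nat_lit 0xb2e403b8007)) e
 (c (a (nat_lit 0x84140000001)) e e))))))))))))
 (c (a (nat_lit 0x40402021))
 (c (a (nat_lit 0xa287012d188)) e
 (c z e
 (c z e
 (c z e
 (c z e
 (c (b (nat_lit 0x129ff4276027)) e
 (c (a (nat_lit 0x108ae3e3c7c8)) e
 (c z e
 (c z e
 (c (a (nat_lit 0x12a4a0400006)) e
 (c (a (nat_lit 0x8000000001)) e e)))))))))))
 (c (a (nat_lit 0x20203b27))
 (c z e
 (c (a (nat_lit 0x151c534ce127)) e
 (c z e
 (c z e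
 (c (a (nat_lit 0x65bf3a3c0c7)) e
 (c (b (nat_lit 0x1f4425523fe7)) e
 (c z e
 (c (a (nat_lit 0x2c2639fc008)) e
 (c (a (nat_lit 0x3280000003)) e e)))))))))
 (c (a (nat_lit 0x20322b07))
 (c (b (nat_lit 0x183218bfffe6)) e
 (c z e
 (c z e
 (c (a (nat_lit 0x163c0ba7a847)) e
 (c z e
 (c z e
 (c (a (nat_lit 0x5897bc00007)) e
 (c (a (nat_lit 0x15e000000006)) e e))))))))
 (c (a (nat_lit 0x39b9b7e7)) e
 (c (a (nat_lit 0x149494abe8))
 (c (a (nat_lit 0x18db5bbb5da7)) e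
 (c (b (nat_lit 0xb2f7ff23808)) e e))
 (c (a (nat_lit 0x16b6c7c006))
 (c (a (nat_lit 0x2d12725a028)) e
 (c (a (nat_lit 0x15e74b838008)) e e))
 (c (a (nat_lit 0x1100202026))
 (c (a (nat_lit 0x1de957c00005)) e e)
 (c (a (nat_lit 0xc060a1)) e
 (c (a (nat_lit 0x2050c4)) e
 (c (a (nat_lit 0x61e0e001)) e
 (c (a (nat_lit 0x1b80606043)) e
 (c (a (nat_lit 0x1610f21)) e
 (c (a (nat_lit 0xa08161)) e
 (c (a (nat_lit 0x4080a201)) e
 (c (a (nat_lit 0x202052a5)) e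
 (c (a (nat_lit 0x2e2b52c45)) e e))))))))))))))))))
 (c (a (nat_lit 0x202021))
 (c (a (nat_lit 0x20202021))
 (c (a (nat_lit 0x8d628e9e9c5))
 (c (a (nat_lit 0xe343a45a6ec6)) e
 (c (a (nat_lit 0x20a59fb1d607)) e
 (c (a (nat_lit 0x2438dc9160528)) e e)))
 (c (a (nat_lit 0xba7e7e79e27))
 (c (a (nat_lit 0x384b730cd1d88)) e e)
 (c (a (nat_lit 0x2e3059c5a67)) e
 (c (a (nat_lit 0x3c531520868)) e
 (c (a (nat_lit 0xd311530f048)) e
 (c (a (nat_lit 0x13f8175270e8)) e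
 (c (a (nat_lit 0x19b7498db565)) e
 (c (a (nat_lit 0x19694660bd46)) e
 (c (a (nat_lit 0x14a340436267)) e
 (c (a (nat_lit 0x1263e3604b67)) e
 (c (a (nat_lit 0x1d5b00400005)) e
 (c (a (nat_lit 0x102000000005)) e e))))))))))))
 (c (a (nat_lit 0x1125))
 (c (a (nat_lit 0x90913385b88)) e
 (c z e
 (c z e
 (c z e
 (c z e
 (c (b (nat_lit 0x1fe0c6e130e6)) e
 (c (a (nat_lit 0x8a023d3e388)) e e)))))))
 (c (a (nat_lit 0x203b8467))
 (c z e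
 (c z e
 (c z e
 (c z e
 (c (b (nat_lit 0x47847c61fe7)) e
 (c (a (nat_lit 0x28f7ac4888)) e
 (c z e
 (c (a (nat_lit 0x342b9000008)) e
 (c (a (nat_lit 0x1d6000000004)) e e)))))))))
 (c (a (nat_lit 0x16e68567))
 (c z e
 (c z e
 (c z e
 (c z e
 (c z e
 (c z e
 (c (a (nat_lit 0xc3880000008)) e e)))))))
 (c (a (nat_lit 0x1c9e1c7347))
 (c (a (nat_lit 0x159b19d7f7a7)) e
 (c z e
 (c z e
 (c (b (nat_lit 0x1ffffb738028)) e e))))
 (c (a (nat_lit 0x8d3452026))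
 (c (b (nat_lit 0x13ff8961aa7)) e
 (c (b (nat_lit 0x1ffff28b4068)) e e))
 (c (a (nat_lit 0x1ee0202025))
 (c (a (nat_lit 0x9a0cd5508e5)) e
 (c (a (nat_lit 0x10e2f5400006)) e e))
 (c (a (nat_lit 0x808041))
 (c (a (nat_lit 0x1dade0000005)) e e)
 (c (a (nat_lit 0x20203105)) e
 (c (a (nat_lit 0x4071f283)) e
 (c (a (nat_lit 0x1028282e1)) e
 (c (a (nat_lit 0x161e1c061)) e
 (c (a (nat_lit 0xde80c143)) e
 (c (a (nat_lit 0x3ae02065)) e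
 (c (a (nat_lit 0x1280206004)) e
 (c (a (nat_lit 0x20203547)) e
 (c (a (nat_lit 0x7065c35a7)) e
 (c (a (nat_lit 0xc00001)) e e))))))))))))))))))
 C110))) Tr.c Tr.e (nat_lit 0) C.cx C.cy
noncomputable def C112 : Tr := beta% (fun (c : Nat → Tr → Tr → Tr) (e : Tr) (z : Nat) (a b : Nat → Nat) =>
 (c (nat_lit 1)
 (c (a (nat_lit 0x1afaf7aacac7))
 (c (a (nat_lit 0x1070d02de7e966))
 (c z e
 (c (a (nat_lit 0x1a505a13d3f59628)) e
 (c (a (nat_lit 0xe5c113196578b27)) e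
 (c (a (nat_lit 0x10ec4d6c6ac709a9)) e
 (c (a (nat_lit 0xecf32106bc5eda8)) e
 (c z e
 (c (a (nat_lit 0x1b9baa6000000006)) e e)))))))
 (c (a (nat_lit 0x1ad30e2d28c586)) e
 (c z e
 (c (a (nat_lit 0xeb7dda8c07246))
 (c (a (nat_lit 0x12934b6cb52b6009)) e e)
 (c (a (nat_lit 0x196ca9898dfb66)) e
 (c (a (nat_lit 0xda505ec0d3547)) e
 (c (a (nat_lit 0xc4630eff0f387)) e
 (c (a (nat_lit 0x9ea6e6ff90027)) e
 (c (a (nat_lit 0x11b0923de45e27)) e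
 (c (a (nat_lit 0x16939f288f40c7)) e
 (c (a (nat_lit 0x129d78ae202007)) e e)))))))))))
 (c (a (nat_lit 0x1998aececec7))
 (c (a (nat_lit 0x1b10ee569385c5)) e
 (c z e
 (c z e
 (c z e
 (c z e
 (c z e
 (c z e
 (c z e
 (c z e
 (c (b (nat_lit 0x185fe604600008)) e e))))))))))
 (c (a (nat_lit 0x16c020202026))
 (c (a (nat_lit 0x4640628d1ae6))
 (c (a (nat_lit 0x1777b9ad8ca34be8)) e e) e)
 (c (a (nat_lit 0x221c2018201))
 (c (a (nat_lit 0x202346aa9069))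
 (c (a (nat_lit 0x9bf58a000000007)) e e)
 (c (b (nat_lit 0x1fffe2eaf012a9)) e
 (c z e
 (c z e
 (c (b (nat_lit 0x12da1fef096dc8)) e
 (c z e
 (c (a (nat_lit 0x9701df3c00008)) e
 (c (a (nat_lit 0xe50a000000008)) e e))))))))
 (c (a (nat_lit 0xc0a06140e1))
 (c (a (nat_lit 0x24d0b93bbbc8)) e
 (c z e
 (c z e
 (c (b (nat_lit 0x1ebfef62ccce28)) e
 (c (a (nat_lit 0x542fb250e008)) e
 (c (a (nat_lit 0x12ef4e00000008)) e
 (c (a (nat_lit 0x19c00000000007)) e e)))))))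
 (c (a (nat_lit 0x191919191207))
 (c z e
 (c z e
 (c (a (nat_lit 0x119ee2cea4368)) e
 (c (a (nat_lit 0x1dca4b4cc00008)) e
 (c (a (nat_lit 0x1dd2c000000007)) e e)))))
 (c (a (nat_lit 0x1cfa3a3a1206))
 (c z e
 (c (a (nat_lit 0x1811e50c01c008)) e
 (c (a (nat_lit 0x14477a40000007)) e
 (c (a (nat_lit 0x15c00000000005)) e e))))
 (c (a (nat_lit 0x540c528bae5))
 (c (a (nat_lit 0x32bd4e4200007)) e
 (c (a (nat_lit 0xdb1a000000008)) e e))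
 (c (a (nat_lit 0x1aa54373807))
 (c (a (nat_lit 0x12000000000007)) e e)
 (c (a (nat_lit 0xa3213b2af48)) e
 (c (a (nat_lit 0x1afc3b37d508)) e
 (c (a (nat_lit 0x15f4f3d631e8)) e
 (c (a (nat_lit 0x1c5d7edcfce7)) e
 (c (a (nat_lit 0x8bdc040a0c3)) e
 (c (a (nat_lit 0x1d402060a203)) e
 (c (a (nat_lit 0x1c0c4a301)) e
 (c (a (nat_lit 0x161000001)) e
 (c (nat_lit 1) e e))))))))))))))))))
 (c (a (nat_lit 0x40406061))
 (c (a (nat_lit 0x120020202026))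
 (c (a (nat_lit 0x1bb032ad804445))
 (c (a (nat_lit 0x18534c7bb276b808)) e e)
 (c (a (nat_lit 0x12c9c5e0851cc7))
 (c (a (nat_lit 0x1054f495f90f904a)) e e) e))
 (c (a (nat_lit 0x1c182a341))
 (c (a (nat_lit 0x242c182293928))
 (c (a (nat_lit 0xfd4b07043a8c009)) e e) e)
 (c (a (nat_lit 0x2075acc4)) e
 (c (b (nat_lit 0x1e7e7fffffe6)) e
 (c z e
 (c z e
 (c z e
 (c z e
 (c z e
 (c z e
 (c z e
 (c (a (nat_lit 0x163b37e76026)) e
 (c (a (nat_lit 0x1e84a120e003)) e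
 (c (a (nat_lit 0x13e3e261c001)) e
 (c (a (nat_lit 0x7e641e1c001)) e
 (c (a (nat_lit 0x44100000001)) e e))))))))))))))))
 (c (a (nat_lit 0x20404021))
 (c (a (nat_lit 0x20b0e063))
 (c (a (nat_lit 0x202022879027))
 (c (a (nat_lit 0x12686da805600007)) e e) e)
 (c (b (nat_lit 0x12be9fffffe5)) e
 (c z e
 (c z e
 (c z e
 (c z e
 (c z e
 (c z e
 (c z e
 (c z e
 (c (a (nat_lit 0x11ec904bab69)) e
 (c (a (nat_lit 0x80a63afac4)) e
 (c (a (nat_lit 0x182040804043)) e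
 (c (a (nat_lit 0x260c00001)) e
 (c (a (nat_lit 0x16000000001)) e e)))))))))))))))
 (c (a (nat_lit 0x40406041))
 (c (a (nat_lit 0x1bfe1e1e1c87))
 (c (a (nat_lit 0x1537d816d4b248)) e
 (c z e
 (c z e
 (c z e
 (c (a (nat_lit 0xf9031130ac009)) e e)))))
 (c (b (nat_lit 0x969979ff186)) e
 (c z e
 (c z e
 (c (a (nat_lit 0x10b5d13089e8)) e
 (c z e
 (c (b (nat_lit 0x1ff4dfbc6d88)) e
 (c (a (nat_lit 0x15da9d36b149)) e
 (c z e
 (c z e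
 (c (b (nat_lit 0x1fffebdb5b26)) e
 (c (b (nat_lit 0x1fed04e14001)) e
 (c (a (nat_lit 0x44460000001)) e e)))))))))))))
 (c (a (nat_lit 0x20202021))
 (c (a (nat_lit 0x6cb342fcec8)) e
 (c z e
 (c z e
 (c (a (nat_lit 0x4224266d507)) e
 (c (a (nat_lit 0x6223cab128)) e
 (c (a (nat_lit 0x773f4b737a8)) e
 (c (a (nat_lit 0x17f8fb998f09)) e
 (c z e
 (c z e
 (c (a (nat_lit 0xd11b2428247)) e
 (c (a (nat_lit 0xd1252200004)) e
 (c (a (nat_lit 0x16000000001)) e e))))))))))))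
 (c (a (nat_lit 0x40404061))
 (c (a (nat_lit 0xb08646470c5))
 (c (a (nat_lit 0x16ab6c4f042005)) e
 (c (b (nat_lit 0x1ff02680000006)) e e))
 (c (a (nat_lit 0x604442e7047))
 (c (a (nat_lit 0x184ce000000002)) e e)
 (c (a (nat_lit 0x6eb909146)) e
 (c (a (nat_lit 0x36acc1afb67)) e
 (c (a (nat_lit 0xd0f6f3797c8)) e
 (c (a (nat_lit 0x1515f4aec729)) e
 (c z e
 (c (a (nat_lit 0x193beee9c028)) e
 (c (a (nat_lit 0x194406a3e006)) e
 (c (a (nat_lit 0xd100000001)) e e))))))))))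
 (c (a (nat_lit 0x40402041))
 (c (a (nat_lit 0x809ae2bf047)) e
 (c (a (nat_lit 0x94e8ad0a007)) e
 (c (a (nat_lit 0x118e39c77627)) e
 (c (a (nat_lit 0x4c68813e268)) e
 (c (a (nat_lit 0xe93b82c6f09)) e
 (c z e
 (c z e
 (c (a (nat_lit 0x29a61600005)) e
 (c (a (nat_lit 0x17e000000005)) e e)))))))))
 (c (a (nat_lit 0x201706))
 (c (a (nat_lit 0x140db410b505)) e
 (c (a (nat_lit 0x12f7dcfa2767)) e
 (c (a (nat_lit 0xa2cb88d8a88)) e
 (c (a (nat_lit 0xe943453e928)) e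
 (c z e
 (c z e
 (c (a (nat_lit 0x1ab120000006)) e e)))))))
 (c (a (nat_lit 0x203892c6))
 (c (a (nat_lit 0x13d0714f93a7)) e
 (c (a (nat_lit 0x44eccec3ae8)) e
 (c (a (nat_lit 0xe76b62e2c08)) e
 (c z e
 (c z e
 (c (a (nat_lit 0x112000000007)) e e))))))
 (c (a (nat_lit 0x6d6765208))
 (c (a (nat_lit 0x6d1b1b500e8)) e
 (c (b (nat_lit 0x1a19bbb69fe8)) e e))
 (c (a (nat_lit 0x11514e08e9))
 (c (a (nat_lit 0x8926ac1a369)) e e)
 (c (a (nat_lit 0x1f7f802005)) e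
 (c (a (nat_lit 0x1ee0202005)) e
 (c (a (nat_lit 0x8080c001)) e
 (c (a (nat_lit 0x60404001)) e
 (c (a (nat_lit 0x12140c061)) e
 (c (a (nat_lit 0xe0a021)) e
 (c (a (nat_lit 0x80e15541)) e
 (c (a (nat_lit 0x205925)) e
 (c (a (nat_lit 0x20348544)) e
 (c (a (nat_lit 0x111b53b3a5)) e
 (c (a (nat_lit 0x1540202005)) e
 (c (a (nat_lit 0x20000001)) e e)))))))))))))))))))))))) Tr.c Tr.e (nat_lit 0) C.cx C.cy
noncomputable def C113 : Tr := beta% (fun (c : Nat → Tr → Tr → Tr) (e : Tr) (z : Nat) (a b : Nat → Nat) =>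
 (c (a (nat_lit 0x40202021))
 (c (a (nat_lit 0x193660202025))
 (c (a (nat_lit 0xf58cd8aea8044))
 (c (a (nat_lit 0x59347e7d1c68948)) e
 (c (a (nat_lit 0x1fc845b9a22ef728)) e e))
 (c z e
 (c z e
 (c z e
 (c z e
 (c z e
 (c z e
 (c z e
 (c z e
 (c (a (nat_lit 0x1c0515b6c00008)) e e))))))))))
 (c (a (nat_lit 0x180020202026))
 (c (b (nat_lit 0x87ffff4e05b66))
 (c (a (nat_lit 0xa8bacf28d9ce729)) e
 (c (a (nat_lit 0xfcfb657d660000a)) e e))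
 (c (a (nat_lit 0x640a7a8eddba8))
 (c (a (nat_lit 0x12379ff920000009)) e e) e))
 (c (a (nat_lit 0xe0c1010361))
 (c (a (nat_lit 0xc66764f29bc8))
 (c (a (nat_lit 0x96f3c8000000006)) e e) e)
 (c (a (nat_lit 0xc0e122c001)) e
 (c (a (nat_lit 0x143434342966)) e
 (c z e
 (c z e
 (c z e
 (c z e
 (c z e
 (c z e
 (c z e
 (c (a (nat_lit 0x1362024501c1)) e
 (c (a (nat_lit 0x216260c041)) e
 (c (a (nat_lit 0x64c202c261)) e
 (c (a (nat_lit 0x30140e00001)) e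
 (c (a (nat_lit 0x2000000001)) e e)))))))))))))))))
 (c (a (nat_lit 0x21))
 (c (a (nat_lit 0x80e0c14001))
 (c (b (nat_lit 0x1fffeb01415586))
 (c (a (nat_lit 0x84b5125b6a50007)) e
 (c (a (nat_lit 0x11dd4bb6e0000008)) e e))
 (c (b (nat_lit 0x1fe5c040239c28))
 (c (a (nat_lit 0x1e4d930000000008)) e e)
 (c z e
 (c (a (nat_lit 0x8caadb89779e8)) e
 (c (a (nat_lit 0x2c7b1e4ccf008)) e
 (c z e
 (c (b (nat_lit 0x15acbbffe0e127)) e
 (c (a (nat_lit 0xf9221a6e00007)) e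
 (c (a (nat_lit 0x19a10000000006)) e e)))))))))
 (c (a (nat_lit 0x4040b16083))
 (c (a (nat_lit 0x482a1c31b9a88)) e
 (c z e
 (c (a (nat_lit 0xa2ef9991dfa09)) e
 (c z e
 (c z e
 (c (a (nat_lit 0x123269e722a009)) e
 (c (a (nat_lit 0x120b2620000009)) e e)))))))
 (c (a (nat_lit 0x13f41453e044)) e
 (c (a (nat_lit 0x14f272727067))
 (c (a (nat_lit 0x18b5f1b32fec08)) e
 (c (a (nat_lit 0x12aa51ec066449)) e e))
 (c (a (nat_lit 0xeef30307067))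
 (c (a (nat_lit 0x6926b460423c8)) e e)
 (c z e
 (c (a (nat_lit 0x14113152ccc7)) e
 (c (a (nat_lit 0x12333e969386)) e
 (c (a (nat_lit 0xe54f733cda8)) e
 (c z e
 (c (a (nat_lit 0x1b3bf35399c7)) e
 (c (a (nat_lit 0x8c02170e6a7)) e
 (c (a (nat_lit 0x4190e6c6c7)) e
 (c (b (nat_lit 0x1ff480202006)) e
 (c (a (nat_lit 0x148020000006)) e e)))))))))))))))
 (c (a (nat_lit 0x20202021))
 (c (a (nat_lit 0xaac90eeed65))
 (c (a (nat_lit 0xe2952a9d2b206)) e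
 (c z e
 (c (a (nat_lit 0xc0acbb3cf4168)) e
 (c z e
 (c z e
 (c (a (nat_lit 0x130dca0c600008)) e
 (c (a (nat_lit 0x1cc94000000005)) e e)))))))
 (c z e
 (c z e
 (c z e
 (c (a (nat_lit 0x1116f0506e47)) e
 (c (a (nat_lit 0xfb19187f167)) e
 (c (a (nat_lit 0x3672e7a9be7)) e
 (c (a (nat_lit 0x9cd50308ae9)) e
 (c z e
 (c (a (nat_lit 0xdf14dea2b28)) e
 (c (b (nat_lit 0x1ffffff8e004)) e
 (c (b (nat_lit 0x1ffff0804026)) e
 (c (a (nat_lit 0x6ac0c00001)) e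
 (c (a (nat_lit 0x184000000004)) e e))))))))))))))
 (c (a (nat_lit 0x20202021))
 (c z e
 (c z e
 (c z e
 (c (a (nat_lit 0x1344e4e04345)) e
 (c (a (nat_lit 0x3234323f487)) e
 (c (a (nat_lit 0x5a5ac3caae7)) e
 (c (a (nat_lit 0xcb5d67694e8)) e
 (c z e
 (c z e
 (c (a (nat_lit 0x1a03140a006)) e
 (c (a (nat_lit 0x49605c02006)) e
 (c (a (nat_lit 0x168a00000003)) e e))))))))))))
 (c (a (nat_lit 0x20202021))
 (c (a (nat_lit 0x1e9edec46064))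
 (c (a (nat_lit 0x7e6f768058425)) e
 (c (a (nat_lit 0x17a4320600005)) e e))
 (c (a (nat_lit 0xee0e100d544))
 (c (a (nat_lit 0x19ffe380000002)) e e)
 (c (a (nat_lit 0x40e10c3b43)) e
 (c (a (nat_lit 0x72727e83527)) e
 (c (b (nat_lit 0x1fe9a8cc56a6)) e
 (c (a (nat_lit 0xed5165409e8)) e
 (c z e
 (c (a (nat_lit 0x134e4c67c087)) e
 (c (a (nat_lit 0xc44b21dcfc5)) e
 (c (a (nat_lit 0x58a7e00004)) e
 (c (a (nat_lit 0x10a000000004)) e e)))))))))))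
 (c (a (nat_lit 0x20202021))
 (c (a (nat_lit 0x13131318ba05))
 (c (a (nat_lit 0x13c38000000004)) e e)
 (c (a (nat_lit 0x1413f5585a46)) e
 (c (a (nat_lit 0xc0e0ff6c0c6)) e
 (c (a (nat_lit 0x1336b92a7f06)) e
 (c (a (nat_lit 0xbaf70952e08)) e
 (c z e
 (c (b (nat_lit 0xe14b3a03fe7)) e
 (c (a (nat_lit 0x16f650e08003)) e
 (c (a (nat_lit 0x1acd60000002)) e e)))))))))
 (c (a (nat_lit 0x20202021))
 (c (a (nat_lit 0xe8cd1714445)) e
 (c (a (nat_lit 0x16b9dea5c006)) e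
 (c (a (nat_lit 0x156f804b9966)) e
 (c (a (nat_lit 0xc6bacb3ada8)) e
 (c z e
 (c z e
 (c (a (nat_lit 0x10f9c7600005)) e
 (c (a (nat_lit 0x11c000000005)) e e))))))))
 (c (a (nat_lit 0x202039e5))
 (c (a (nat_lit 0x1c7c89a8a8a5)) e
 (c (a (nat_lit 0xf42fb4894a5)) e
 (c (a (nat_lit 0xacbb5b083e7)) e
 (c z e
 (c (a (nat_lit 0xc7124ba2007)) e
 (c (a (nat_lit 0x13e980000006)) e e))))))
 (c (a (nat_lit 0x203ada25))
 (c (a (nat_lit 0x160ba90dd85)) e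
 (c (a (nat_lit 0x111cfa482026)) e
 (c z e
 (c (a (nat_lit 0x18496600007)) e
 (c (a (nat_lit 0x134000000004)) e e)))))
 (c (a (nat_lit 0x15debe5b27))
 (c (b (nat_lit 0x178e6a399fe6)) e e)
 (c z e
 (c (a (nat_lit 0x1252602005)) e
 (c (a (nat_lit 0x1000202025)) e
 (c (a (nat_lit 0x8080a001)) e
 (c (a (nat_lit 0x20204181)) e
 (c (a (nat_lit 0x414021)) e
 (c (a (nat_lit 0x18606040a2)) e
 (c (a (nat_lit 0x80e0a041)) e
 (c (a (nat_lit 0x40205ba3)) e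
 (c (a (nat_lit 0x80e1c1)) e
 (c (a (nat_lit 0x281e26081)) e
 (c (a (nat_lit 0x2c1400001)) e e))))))))))))))))))))))) Tr.c Tr.e (nat_lit 0) C.cx C.cy
noncomputable def C114 : Tr := beta% (fun (c : Nat → Tr → Tr → Tr) (e : Tr) (z : Nat) (a b : Nat → Nat) =>
 (c (a (nat_lit 0x20202021))
 (c (a (nat_lit 0x16161773724))
 (c (a (nat_lit 0x19923232250042))
 (c z e
 (c (a (nat_lit 0x768abb014949166))
 (c (a (nat_lit 0x584852ab9bfafce28)) e e)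
 (c z e
 (c z e
 (c z e
 (c (a (nat_lit 0x1a99161934f93606)) e
 (c z e
 (c (a (nat_lit 0x196ac96b486ae6a6)) e e))))))))
 (c (a (nat_lit 0xa2a322ececb85))
 (c (a (nat_lit 0x9ed53995c9e16c7))
 (c (a (nat_lit 0x38347117b2ccc4409)) e e)
 (c z e
 (c z e
 (c (a (nat_lit 0x121211908f1090c9)) e
 (c (a (nat_lit 0x1190100d8f8f2c49)) e
 (c (a (nat_lit 0x160e0a2d1129eb08)) e
 (c z e
 (c (a (nat_lit 0xd775442a0000006)) e
 (c (a (nat_lit 0x1a12200000000006)) e e)))))))))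
 (c (b (nat_lit 0x8501fffffffe4))
 (c z e
 (c z e
 (c z e
 (c z e
 (c (a (nat_lit 0x13678e4f6b458da7)) e
 (c z e
 (c (a (nat_lit 0x10ec470000000007)) e e)))))))
 (c (a (nat_lit 0x132687a967a7a5))
 (c (a (nat_lit 0x1b3af9f3d8920f47)) e
 (c (a (nat_lit 0x1e1e58b9d470d348)) e
 (c z e
 (c (a (nat_lit 0xb72aa848848c007)) e
 (c (a (nat_lit 0x1a45654380000006)) e e)))))
 (c (a (nat_lit 0x153ddcbcc0e023)) e
 (c (a (nat_lit 0x14d4d4f69ac485)) e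
 (c (a (nat_lit 0x686cfac415204)) e
 (c (a (nat_lit 0x8cc4b2ca139e4)) e
 (c (a (nat_lit 0x3ce2e2f6ff904)) e
 (c (a (nat_lit 0x646474e8a3145)) e
 (c z e
 (c (a (nat_lit 0xe71d10e06a1e6)) e
 (c z e
 (c (a (nat_lit 0x949a05c600005)) e
 (c (a (nat_lit 0x18ab8000000005)) e e)))))))))))))))
 (c (a (nat_lit 0x26274747367))
 (c (a (nat_lit 0xb1332d5722686))
 (c (a (nat_lit 0x86c2fd395d0e7c8))
 (c (a (nat_lit 0x2c4cd78cc8e032009)) e e)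
 (c z e
 (c z e
 (c (a (nat_lit 0x14949370f292ceca)) e
 (c (a (nat_lit 0x1e9b56d91a12ae69)) e
 (c (a (nat_lit 0x180ef29b0b2b8fe8)) e
 (c (a (nat_lit 0x19b4d225ce000006)) e e)))))))
 (c z e
 (c z e
 (c (a (nat_lit 0x8f0d1adee2848)) e
 (c (a (nat_lit 0x11f3b933a688e7)) e
 (c (a (nat_lit 0xb3434a48a9766)) e
 (c (a (nat_lit 0xbeced2350aac7)) e
 (c (a (nat_lit 0x7a5088ccb9666)) e
 (c (a (nat_lit 0x5e60d0e961aa7)) e
 (c (a (nat_lit 0x70af472976027)) e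
 (c (a (nat_lit 0x149b77cfee6027)) e
 (c z e
 (c z e
 (c (a (nat_lit 0x10400000000007)) e e))))))))))))))
 (c (a (nat_lit 0x25d5d58ed66))
 (c z e
 (c z e
 (c z e
 (c z e
 (c z e
 (c z e
 (c (a (nat_lit 0x86b24cd125067)) e
 (c (b (nat_lit 0x253ff62b2067)) e e))))))))
 (c (a (nat_lit 0x1292928aea27))
 (c (a (nat_lit 0x72645e1217147))
 (c (a (nat_lit 0xc6e8a0a6a308748)) e e)
 (c (a (nat_lit 0xda422c151b4e7)) e
 (c z e
 (c (a (nat_lit 0x24330a7aad5e7)) e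
 (c (b (nat_lit 0x1fe925244cd427)) e
 (c z e
 (c (a (nat_lit 0x8e691b4c052a7)) e
 (c (a (nat_lit 0xeb1ba03c9ea87)) e e))))))))
 (c (a (nat_lit 0x12952a8a8a86))
 (c (a (nat_lit 0x4943c45e7906)) e
 (c z e
 (c (b (nat_lit 0x1fffe8c92df047)) e
 (c z e
 (c z e
 (c (a (nat_lit 0x146f5b35af47)) e
 (c (a (nat_lit 0x6511f8d53c8a7)) e
 (c (a (nat_lit 0xdaeb470600007)) e e))))))))
 (c (a (nat_lit 0x1303030302e5))
 (c z e
 (c z e
 (c z e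
 (c z e
 (c (a (nat_lit 0x122e506d4aa267)) e
 (c (a (nat_lit 0x9d0656503a008)) e
 (c (a (nat_lit 0x197b52e0000006)) e e)))))))
 (c (a (nat_lit 0x183817f79882))
 (c (a (nat_lit 0x4aaeb136ae986)) e
 (c (a (nat_lit 0x226b11e96806)) e
 (c (a (nat_lit 0x34dd0f5a820a7)) e
 (c (a (nat_lit 0xf91b909234887)) e
 (c (a (nat_lit 0x10858401a00007)) e
 (c (a (nat_lit 0x11f5c000000005)) e e))))))
 (c (a (nat_lit 0x8040622021))
 (c (a (nat_lit 0xd5c5662367)) e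
 (c (a (nat_lit 0x57592cc44a068)) e
 (c (a (nat_lit 0x16c824a3e12008)) e
 (c (a (nat_lit 0x7772960000006)) e
 (c (a (nat_lit 0x19800000000005)) e e)))))
 (c (a (nat_lit 0x18d8b9d92082))
 (c (a (nat_lit 0x1bb76b44240027)) e
 (c (a (nat_lit 0x11686824600008)) e
 (c (a (nat_lit 0x1026e000000007)) e e)))
 (c (a (nat_lit 0x1f133334e1e3))
 (c (a (nat_lit 0x9114820000006)) e
 (c (a (nat_lit 0x15000000000005)) e e))
 (c (a (nat_lit 0x66658d8bc05)) e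
 (c (a (nat_lit 0x10b8d8d8d627)) e
 (c z e
 (c (a (nat_lit 0x1e3e5e7e9e24)) e
 (c (a (nat_lit 0xe1a06001)) e
 (c (a (nat_lit 0x283a0e08041)) e
 (c (a (nat_lit 0xe040205483)) e
 (c (a (nat_lit 0x604074b4e3)) e
 (c (a (nat_lit 0x2040400001)) e
 (c (a (nat_lit 0x2000000001)) e e))))))))))))))))))))
 (c (a (nat_lit 0x20202021))
 (c (a (nat_lit 0x3d3d3d22828))
 (c (a (nat_lit 0x14787a5870cbc6))
 (c (a (nat_lit 0x11157c3d7b6c8f47)) e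
 (c z e
 (c z e
 (c (a (nat_lit 0x12b34fb110ae0bea)) e
 (c (a (nat_lit 0x171273d5904a4e49)) e
 (c (a (nat_lit 0x11d395cec9ade007)) e
 (c (a (nat_lit 0xf370f4be0000006)) e e)))))))
 (c z e
 (c z e
 (c (a (nat_lit 0x991494ab09e8)) e
 (c (a (nat_lit 0xcd105a52549e8)) e
 (c (a (nat_lit 0x12768848d51727)) e
 (c (a (nat_lit 0x1594495e34dac7)) e
 (c (a (nat_lit 0x568ea49d03a47)) e
 (c (a (nat_lit 0x3c9c9b136eac8)) e
 (c (a (nat_lit 0x8502f76e94588)) e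
 (c (a (nat_lit 0x114f5974264228)) e e)))))))))))
 (c (a (nat_lit 0x17f7f326e6e8)) e
 (c (a (nat_lit 0x1dfee4002026))
 (c (a (nat_lit 0x2f8121327407)) e e)
 (c (a (nat_lit 0x1a8020202006))
 (c z e
 (c z e
 (c z e
 (c z e
 (c z e
 (c z e
 (c (b (nat_lit 0x7867ff3864008)) e
 (c (a (nat_lit 0x19639280000008)) e e))))))))
 (c (a (nat_lit 0x241c1604261))
 (c z e
 (c z e
 (c z e
 (c z e
 (c (a (nat_lit 0x19604d91444a88)) e
 (c (a (nat_lit 0x1168afa8e00008)) e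
 (c (a (nat_lit 0x12aba000000008)) e e)))))))
 (c (a (nat_lit 0xe08081c001))
 (c z e
 (c z e
 (c (a (nat_lit 0xacb9626c2e688)) e
 (c (a (nat_lit 0x1615c9c8cf8008)) e
 (c (a (nat_lit 0x1c8d5560000005)) e
 (c (a (nat_lit 0x19c00000000006)) e e))))))
 (c (a (nat_lit 0x17d7d7d7d187))
 (c z e
 (c (a (nat_lit 0x9b3b004a5e209)) e
 (c (a (nat_lit 0x1675a78ec00008)) e
 (c (a (nat_lit 0x11630000000007)) e e))))
 (c (a (nat_lit 0x11f070706b26))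
 (c (a (nat_lit 0x1eecaf34e02007)) e
 (c (a (nat_lit 0xdf2d500000008)) e e))
 (c (a (nat_lit 0x2424d0ef2c7))
 (c (a (nat_lit 0x1a766000000007)) e e)
 (c (a (nat_lit 0x1f116dab747)) e
 (c (a (nat_lit 0xd7010af4d29)) e
 (c z e
 (c (a (nat_lit 0x16547457b5e7)) e
 (c (a (nat_lit 0x2db6af8f45)) e
 (c (a (nat_lit 0x1d00c041c3)) e
 (c (a (nat_lit 0x1c8060a181e3)) e
 (c (a (nat_lit 0x242c28001)) e
 (c (a (nat_lit 0xc0000001)) e e))))))))))))))))))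
 C113))) Tr.c Tr.e (nat_lit 0) C.cx C.cy
noncomputable def C115 : Tr := beta% (fun (c : Nat → Tr → Tr → Tr) (e : Tr) (z : Nat) (a b : Nat → Nat) =>
 (c (nat_lit 1)
 (c (a (nat_lit 0x139cdcdcc6))
 (c (a (nat_lit 0xe7455b615c6)) e
 (c (a (nat_lit 0xb114ff18e47)) e
 (c (a (nat_lit 0x14b435346fc7)) e
 (c (a (nat_lit 0x1f76d7d4af47)) e
 (c (a (nat_lit 0x1d9271ec2907)) e
 (c (a (nat_lit 0x630c60cc6a8)) e
 (c (a (nat_lit 0xddd54a78007)) e e)))))))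
 (c (a (nat_lit 0xf514f4006))
 (c (a (nat_lit 0x4320e0e09c7)) e
 (c (a (nat_lit 0xb0d514c0708)) e
 (c (a (nat_lit 0x123c1a110b87)) e
 (c (a (nat_lit 0x13fd96e8d827)) e
 (c (b (nat_lit 0x14f0ac3fe048)) e e)))))
 (c (a (nat_lit 0x12b2a04025))
 (c (a (nat_lit 0x68988c516c8)) e
 (c (a (nat_lit 0x76724f292a9)) e e))
 (c (a (nat_lit 0x11c0202005))
 (c (b (nat_lit 0x42245537fe8)) e
 (c (a (nat_lit 0x26152836029)) e
 (c (a (nat_lit 0x91c30000007)) e e)))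
 (c (a (nat_lit 0x80a0e001))
 (c (b (nat_lit 0x1ffa43c18008)) e
 (c (a (nat_lit 0x1c3760000006)) e e))
 (c (a (nat_lit 0x2020d165))
 (c (a (nat_lit 0x174000000005)) e e)
 (c (a (nat_lit 0x2030b085)) e
 (c (b (nat_lit 0x1ff7d7e785)) e
 (c (a (nat_lit 0x29aa10062)) e
 (c (a (nat_lit 0x7a604003)) e
 (c (a (nat_lit 0x240a0c041)) e
 (c (a (nat_lit 0x1010136a1)) e
 (c (a (nat_lit 0x411563)) e
 (c (a (nat_lit 0x4053e4)) e
 (c (a (nat_lit 0x2a1012001)) e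
 (c (nat_lit 1) e e))))))))))))))))
 (c (nat_lit 1)
 (c (a (nat_lit 0x2b1002005))
 (c (a (nat_lit 0x1939fd98b525)) e
 (c (a (nat_lit 0x789ea077548)) e
 (c (a (nat_lit 0x4a4a4a59389)) e
 (c (a (nat_lit 0x8a97e09e0c8)) e
 (c (b (nat_lit 0x100c7fffe008)) e e)))))
 (c (a (nat_lit 0x1280202005))
 (c (a (nat_lit 0x9a9075d4b28)) e
 (c (a (nat_lit 0x403ac72070a)) e e))
 (c (a (nat_lit 0xa0c0a001))
 (c (a (nat_lit 0x3e6f9468029)) e
 (c (a (nat_lit 0x12da6a014009)) e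
 (c (a (nat_lit 0x134580000009)) e e)))
 (c (a (nat_lit 0x202030c5))
 (c (a (nat_lit 0x196543c00007)) e
 (c (a (nat_lit 0x11c000000006)) e e))
 (c (a (nat_lit 0x2060d164)) e
 (c (a (nat_lit 0x2a31d427)) e
 (c (a (nat_lit 0x6f749466)) e
 (c (a (nat_lit 0xd06ced06)) e
 (c (a (nat_lit 0x1050307046)) e
 (c (a (nat_lit 0x1adb7b7805)) e
 (c (a (nat_lit 0x14142ef965)) e
 (c (a (nat_lit 0x12a1002465)) e
 (c (a (nat_lit 0x42214001)) e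
 (c (a (nat_lit 0x1920400003)) e e))))))))))))))
 (c (nat_lit 1)
 (c (a (nat_lit 0xe0606001))
 (c (a (nat_lit 0x5e45eea6487)) e
 (c (a (nat_lit 0x3f52fc86189)) e
 (c (b (nat_lit 0x123fe760e009)) e e)))
 (c (a (nat_lit 0x207105))
 (c (a (nat_lit 0xfd1e2a1c0a9)) e
 (c (a (nat_lit 0x124942800009)) e e))
 (c (a (nat_lit 0x204af025))
 (c (a (nat_lit 0x1503e0000007)) e e)
 (c (a (nat_lit 0x11b1b646)) e
 (c z e
 (c z e
 (c (a (nat_lit 0xfeff01025)) e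
 (c (a (nat_lit 0x1e7eaf43a5)) e
 (c (a (nat_lit 0x13b41293a6)) e
 (c (a (nat_lit 0x1f9982ee84)) e
 (c (a (nat_lit 0x40c0e001)) e
 (c (a (nat_lit 0x2e1004001)) e
 (c (nat_lit 1) e e)))))))))))))
 (c (a (nat_lit 0x2021))
 (c (a (nat_lit 0xc0e081))
 (c (a (nat_lit 0x134082602007)) e
 (c (a (nat_lit 0x1e9920000005)) e e))
 (c (a (nat_lit 0x40e19284))
 (c (a (nat_lit 0x1f4000000004)) e e)
 (c (a (nat_lit 0x6fb332c7)) e
 (c z e
 (c (b (nat_lit 0x15dff5a025)) e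
 (c (a (nat_lit 0x1070802025)) e
 (c (a (nat_lit 0x1fbfb23724)) e
 (c (a (nat_lit 0x1b1bbedb25)) e
 (c (a (nat_lit 0x100e0c141)) e
 (c (a (nat_lit 0xa04021)) e
 (c (a (nat_lit 0x2c0400001)) e e)))))))))))
 (c (a (nat_lit 0x202021))
 (c (a (nat_lit 0x3111372e6)) e
 (c (a (nat_lit 0x181a7a7707)) e
 (c (a (nat_lit 0x1bbb7b2005)) e
 (c (a (nat_lit 0x4a2816121)) e
 (c (a (nat_lit 0x1676402c85)) e
 (c (a (nat_lit 0x14a08081a4)) e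
 (c (a (nat_lit 0xdb4952d05)) e
 (c (a (nat_lit 0x12a04089c3)) e
 (c (a (nat_lit 0x60a04001)) e
 (c (a (nat_lit 0x40000001)) e e))))))))))
 (c (nat_lit 1)
 (c (a (nat_lit 0x13735352e6)) e
 (c (a (nat_lit 0x13d2c10083)) e
 (c (a (nat_lit 0xc0c03cc7)) e
 (c (a (nat_lit 0x19d837d786)) e
 (c (a (nat_lit 0x14f87890a7)) e
 (c (a (nat_lit 0x2c0403404)) e
 (c (a (nat_lit 0x613c62)) e
 (c (a (nat_lit 0x20800001)) e e))))))))
 (c (a (nat_lit 0x202021))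
 (c (a (nat_lit 0xcbdd22e22)) e
 (c (a (nat_lit 0x176081e2e2)) e
 (c (a (nat_lit 0x448136668)) e
 (c (a (nat_lit 0xc0608001)) e
 (c (a (nat_lit 0x2020a001)) e
 (c (a (nat_lit 0x20a02001)) e
 (c (a (nat_lit 0xc0000001)) e e)))))))
 (c (a (nat_lit 0x202021))
 (c (a (nat_lit 0xa6af3ca27)) e
 (c (a (nat_lit 0x200e16001)) e
 (c (a (nat_lit 0x60206001)) e
 (c (a (nat_lit 0x402021)) e
 (c (a (nat_lit 0x240600001)) e e)))))
 (c (a (nat_lit 0x202021))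
 (c (a (nat_lit 0x20000021)) e
 (c (a (nat_lit 0x2021)) e
 (c (a (nat_lit 0x202001)) e
 (c (a (nat_lit 0x20000001)) e e))))
 (c (a (nat_lit 0x202021))
 (c (a (nat_lit 0x202021)) e
 (c (a (nat_lit 0x20200001)) e e))
 (c (a (nat_lit 0x202021))
 (c (a (nat_lit 0x20000001)) e e)
 (c (a (nat_lit 0x202021)) e
 (c (nat_lit 1) e
 (c (nat_lit 1) e
 (c (a (nat_lit 0x202021)) e
 (c (a (nat_lit 0x2040e1)) e
 (c (a (nat_lit 0x202081)) e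
 (c (nat_lit 1) e
 (c (a (nat_lit 0x2001)) e
 (c (nat_lit 1) e
 (c (a (nat_lit 0x404001)) e
 (c (a (nat_lit 0x404001)) e
 (c (a (nat_lit 0x1602001)) e e)))))))))))))))))))))))) Tr.c Tr.e (nat_lit 0) C.cx C.cy
noncomputable def C116 : Tr := beta% (fun (c : Nat → Tr → Tr → Tr) (e : Tr) (z : Nat) (a b : Nat → Nat) =>
 (c (a (nat_lit 0x202021))
 (c (a (nat_lit 0x20202021))
 (c (a (nat_lit 0x10d22101a1c1))
 (c (a (nat_lit 0x3cf6f10b0ada5))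
 (c (a (nat_lit 0xc986623a0000006)) e
 (c (a (nat_lit 0x1841a00000000007)) e e))
 (c (a (nat_lit 0x1c189510d55e7)) e
 (c z e
 (c (a (nat_lit 0x14d6ae085a1107)) e
 (c (b (nat_lit 0xffff44325c065)) e e)))))
 (c (a (nat_lit 0x11f3b3f40f45))
 (c (a (nat_lit 0x1e4ce4ab20a68)) e
 (c z e
 (c (a (nat_lit 0x14e3c8efc70128)) e e)))
 (c z e
 (c (a (nat_lit 0x16fb1b1b1ae6)) e
 (c (a (nat_lit 0x2020203067))
 (c (a (nat_lit 0xeda89a3e00007)) e e)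
 (c (a (nat_lit 0x22d30d27)) e
 (c z e
 (c (a (nat_lit 0x17f877f24a68)) e
 (c (a (nat_lit 0x1795b08c2448)) e
 (c (a (nat_lit 0x15d1f048a028)) e
 (c (a (nat_lit 0x169698562026)) e
 (c (a (nat_lit 0x6220205b86)) e
 (c (a (nat_lit 0x400207b8005)) e
 (c (a (nat_lit 0xa260000001)) e e))))))))))))))
 (c (a (nat_lit 0x20202021))
 (c (a (nat_lit 0x4e6a3a3e1))
 (c (a (nat_lit 0x8dc75169c027)) e
 (c (a (nat_lit 0xf0632706be3e9)) e
 (c (b (nat_lit 0x4375a43fffe7)) e e)))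
 (c (a (nat_lit 0x1ededededec8))
 (c (b (nat_lit 0x1ff85a559ff588)) e e)
 (c (a (nat_lit 0x16181619567)) e
 (c (a (nat_lit 0x686ab3eae27))
 (c (a (nat_lit 0x1892c8e0000007)) e e)
 (c z e
 (c z e
 (c (a (nat_lit 0x1e1ed7726a48)) e
 (c (a (nat_lit 0x10ad4c24a029)) e
 (c (a (nat_lit 0x1c7c7cc021c8)) e
 (c (a (nat_lit 0x181917002c87)) e
 (c (a (nat_lit 0x420269f7cc6)) e
 (c (a (nat_lit 0x1c1000001)) e
 (c (a (nat_lit 0xa000000001)) e e)))))))))))))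
 (c (a (nat_lit 0x20202021))
 (c (a (nat_lit 0x20202037e6))
 (c (b (nat_lit 0x2299dfffffe5)) e e)
 (c z e
 (c z e
 (c z e
 (c z e
 (c (b (nat_lit 0x137fffef6007)) e
 (c (a (nat_lit 0x1338d3202208)) e
 (c (a (nat_lit 0x118fc5c6c829)) e
 (c z e
 (c (b (nat_lit 0x1ffff0ef6001)) e
 (c (a (nat_lit 0xc6160000001)) e e)))))))))))
 (c (a (nat_lit 0x404060a1))
 (c z e
 (c z e
 (c z e
 (c z e
 (c (a (nat_lit 0x486530faaa8)) e
 (c (a (nat_lit 0x1196caa37448)) e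
 (c z e
 (c (a (nat_lit 0xc84e690fa48)) e
 (c (a (nat_lit 0x9140800004)) e
 (c (a (nat_lit 0x1f8000000003)) e e))))))))))
 (c (a (nat_lit 0x202036a6))
 (c (a (nat_lit 0x1112cc68a527)) e
 (c z e
 (c z e
 (c z e
 (c z e
 (c z e
 (c (a (nat_lit 0x14f1b68e6006)) e
 (c (a (nat_lit 0x1a14a0000006)) e e))))))))
 (c (a (nat_lit 0x377786))
 (c z e
 (c z e
 (c z e
 (c z e
 (c z e
 (c z e
 (c (a (nat_lit 0x142000000002)) e e)))))))
 (c (a (nat_lit 0xdadb7b67)) e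
 (c (a (nat_lit 0x19f9f91028))
 (c (a (nat_lit 0x16f5b7333228)) e
 (c (a (nat_lit 0x1d5cf81a2ba8)) e e))
 (c (a (nat_lit 0x19f9e7c026))
 (c (a (nat_lit 0x1577a84ce006)) e
 (c (b (nat_lit 0x1ff680000004)) e e))
 (c (a (nat_lit 0x1140202026)) e
 (c (a (nat_lit 0xe1212001)) e
 (c (a (nat_lit 0xa12120e1)) e
 (c (a (nat_lit 0xe1e181c1)) e
 (c (a (nat_lit 0x8182a1a1)) e
 (c (a (nat_lit 0x81836361)) e
 (c (a (nat_lit 0x101e001)) e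
 (c (a (nat_lit 0x6180c1c1)) e
 (c (a (nat_lit 0x20203147)) e
 (c (a (nat_lit 0xa8a985287)) e
 (c (a (nat_lit 0x188f000006)) e e))))))))))))))))))))
 (c (a (nat_lit 0x202021))
 (c (a (nat_lit 0x20402021))
 (c (a (nat_lit 0x1c170f121))
 (c (a (nat_lit 0x11c0cd2ea29504)) e
 (c (a (nat_lit 0x6feca6332486)) e
 (c (b (nat_lit 0xc043031ff707)) e
 (c (b (nat_lit 0x3da047fffe005)) e e))))
 (c (a (nat_lit 0x1c1c0e961))
 (c (a (nat_lit 0x3606805122ce5)) e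
 (c (b (nat_lit 0x6a6e886361fe8)) e e))
 (c (a (nat_lit 0xa0d3e002))
 (c (b (nat_lit 0x4c2fff9e18008)) e
 (c (a (nat_lit 0x155fba00000008)) e e))
 (c (b (nat_lit 0x181879ff186))
 (c (a (nat_lit 0x1c43a000000007)) e e)
 (c z e
 (c z e
 (c (a (nat_lit 0x16f16f4042a7)) e
 (c (a (nat_lit 0x13f44c6020e7)) e
 (c (a (nat_lit 0x1131a0402127)) e
 (c (a (nat_lit 0x18fd40203126)) e
 (c (a (nat_lit 0x364a05aa004)) e
 (c (a (nat_lit 0x140000001)) e e))))))))))))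
 (c (a (nat_lit 0x20202021))
 (c (a (nat_lit 0x20205045))
 (c (a (nat_lit 0x7b3ea4b28fc06)) e e)
 (c (b (nat_lit 0x8888e739fe7))
 (c (a (nat_lit 0x98e15e6200008)) e e)
 (c z e
 (c z e
 (c z e
 (c (a (nat_lit 0x16f81827b3c6)) e
 (c (a (nat_lit 0xb484022d788)) e
 (c (a (nat_lit 0x9c020619489)) e
 (c (a (nat_lit 0x130261a6d488)) e
 (c (a (nat_lit 0x59580400006)) e
 (c (a (nat_lit 0x6000000001)) e e)))))))))))
 (c (a (nat_lit 0x20203bc7))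
 (c (a (nat_lit 0xb1315344026))
 (c (a (nat_lit 0x535e360000006)) e e)
 (c (b (nat_lit 0xb52100a1fe8)) e
 (c z e
 (c z e
 (c (a (nat_lit 0x6f093092aa7)) e
 (c (a (nat_lit 0x8202055a268)) e
 (c z e
 (c (a (nat_lit 0x2e7a7d12008)) e
 (c (a (nat_lit 0x130160000001)) e e)))))))))
 (c (a (nat_lit 0x2032cbc7))
 (c (b (nat_lit 0x1f16ac3fe446)) e
 (c z e
 (c z e
 (c (a (nat_lit 0xb6d0b300968)) e
 (c (a (nat_lit 0x1c7f04708a9)) e
 (c z e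
 (c (a (nat_lit 0x1adb9800007)) e
 (c (a (nat_lit 0x10e000000006)) e e))))))))
 (c (a (nat_lit 0x37171547)) e
 (c (a (nat_lit 0x10b0b0a768)) e
 (c (a (nat_lit 0x1e1e0d8d86))
 (c (a (nat_lit 0x89087a30628)) e
 (c (a (nat_lit 0x1e3836eee007)) e
 (c (a (nat_lit 0x71600000006)) e e)))
 (c (a (nat_lit 0x1280202006))
 (c (a (nat_lit 0x10c54d000005)) e
 (c (a (nat_lit 0x4a000000001)) e e))
 (c (a (nat_lit 0x120808001)) e
 (c (a (nat_lit 0x40203024)) e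
 (c (a (nat_lit 0x10121e281)) e
 (c (a (nat_lit 0x81628401)) e
 (c (a (nat_lit 0x1c22181e1)) e
 (c (a (nat_lit 0x181e162a1)) e
 (c (a (nat_lit 0xe160e1)) e
 (c (a (nat_lit 0x1212021)) e
 (c (a (nat_lit 0x20203065)) e
 (c (a (nat_lit 0x1520402005)) e
 (c (a (nat_lit 0xe0000001)) e e)))))))))))))))))))
 (c (nat_lit 1)
 (c (a (nat_lit 0x3104))
 (c (a (nat_lit 0x60604453c4))
 (c z e
 (c (a (nat_lit 0x26d66f800006)) e
 (c (a (nat_lit 0x14c04000000003)) e e)))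
 (c (b (nat_lit 0xace17bfe926))
 (c (a (nat_lit 0x5b5ca20000006)) e e)
 (c (a (nat_lit 0xbf355b28987)) e
 (c z e
 (c z e
 (c (a (nat_lit 0x4af0f511767)) e
 (c (a (nat_lit 0x1242861df267)) e
 (c (a (nat_lit 0x208115e448)) e
 (c (a (nat_lit 0x267cd96007)) e
 (c (a (nat_lit 0x3d0a0000007)) e e))))))))))
 (c (a (nat_lit 0x201b8467))
 (c (a (nat_lit 0xdb0381f9906))
 (c (a (nat_lit 0x3306000000003)) e e)
 (c z e
 (c z e
 (c z e
 (c (a (nat_lit 0x18df957449c7)) e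
 (c (b (nat_lit 0x4a4d0497fe9)) e
 (c (b (nat_lit 0x2e8fe3fffe8)) e
 (c (b (nat_lit 0x1fedb1400008)) e
 (c (a (nat_lit 0x5a000000001)) e e)))))))))
 (c (a (nat_lit 0x510c88808))
 (c z e
 (c z e
 (c z e
 (c z e
 (c z e
 (c (b (nat_lit 0x5d33feac009)) e
 (c (a (nat_lit 0x18b520000007)) e e)))))))
 (c (a (nat_lit 0x1354f349a7))
 (c (a (nat_lit 0x76acd49f528)) e e)
 (c (a (nat_lit 0x11bc802025)) e
 (c (a (nat_lit 0x1f00202005))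
 (c (b (nat_lit 0x191ffe754084)) e
 (c (a (nat_lit 0xa18cfe00005)) e e))
 (c (a (nat_lit 0xa0a001))
 (c (a (nat_lit 0x68540000001)) e e)
 (c (a (nat_lit 0x20203386)) e
 (c (a (nat_lit 0x205197a3)) e
 (c (a (nat_lit 0x155540a6)) e
 (c (a (nat_lit 0x3bbb2025)) e
 (c (a (nat_lit 0xe0e001)) e
 (c (a (nat_lit 0xe0616001)) e
 (c (a (nat_lit 0xc1206121)) e
 (c (a (nat_lit 0x20203063)) e
 (c (a (nat_lit 0x10e020a002)) e
 (c (a (nat_lit 0x41400001)) e e)))))))))))))))))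
 C115)))) Tr.c Tr.e (nat_lit 0) C.cx C.cy
noncomputable def C117 : Tr := beta% (fun (c : Nat → Tr → Tr → Tr) (e : Tr) (z : Nat) (a b : Nat → Nat) =>
 (c (a (nat_lit 0x202001))
 (c (a (nat_lit 0x57d9d9a4b87))
 (c (a (nat_lit 0xb77d494924926))
 (c (a (nat_lit 0x153bdd7dd7b61586)) e
 (c z e
 (c z e
 (c (a (nat_lit 0xf11ed4dcac6c7a8)) e
 (c (a (nat_lit 0xf4f31f22dd22ca8)) e
 (c (a (nat_lit 0x16cf57965089e007)) e
 (c (a (nat_lit 0x11f84be600000007)) e e)))))))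
 (c z e
 (c z e
 (c z e
 (c (a (nat_lit 0x43286882f8b87)) e
 (c (a (nat_lit 0x976ab3ae71246)) e
 (c (b (nat_lit 0xe143fed33fae6)) e
 (c z e
 (c (a (nat_lit 0x66accec508708)) e
 (c (a (nat_lit 0x90dee32eca528)) e
 (c (a (nat_lit 0x86d8f12836108)) e e)))))))))))
 (c (a (nat_lit 0x1f9f9907c748)) e
 (c (a (nat_lit 0x1a5c24002006)) e
 (c (a (nat_lit 0x168020202006)) e
 (c (a (nat_lit 0x1c1810081e1))
 (c z e
 (c z e
 (c z e
 (c z e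
 (c z e
 (c (a (nat_lit 0x1e79ec8e400008)) e
 (c (a (nat_lit 0x12002000000007)) e e)))))))
 (c (a (nat_lit 0x1a140e1e141))
 (c (a (nat_lit 0x243ed7f8a40e8)) e
 (c z e
 (c z e
 (c (a (nat_lit 0x14d2e8e947c009)) e
 (c (a (nat_lit 0x1902e340000008)) e
 (c (a (nat_lit 0x14600000000005)) e e))))))
 (c (a (nat_lit 0x15959a988024))
 (c z e
 (c z e
 (c (a (nat_lit 0x16a911a7e00009)) e
 (c (a (nat_lit 0xed26000000008)) e e))))
 (c z e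
 (c (a (nat_lit 0xc50507f0cc6))
 (c (a (nat_lit 0x1d6c6000000007)) e e)
 (c (a (nat_lit 0x746f16d2c08)) e
 (c (a (nat_lit 0x5b95514f1a8)) e
 (c z e
 (c z e
 (c (a (nat_lit 0xf147c34d4e4)) e
 (c (a (nat_lit 0x1e40c20002)) e
 (c (a (nat_lit 0x1ce0a140e0c2)) e
 (c (a (nat_lit 0x201412001)) e
 (c (a (nat_lit 0x40000001)) e e))))))))))))))))))
 (c (a (nat_lit 0x20606021))
 (c (a (nat_lit 0x1a3743c02006)) e
 (c (a (nat_lit 0x156020202007)) e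
 (c (a (nat_lit 0x1c161020001)) e
 (c (a (nat_lit 0x2098d004)) e
 (c (b (nat_lit 0x1b7b9fffffe5)) e
 (c z e
 (c z e
 (c z e
 (c z e
 (c z e
 (c z e
 (c z e
 (c (a (nat_lit 0xf7807c08045)) e
 (c (a (nat_lit 0x17e020404045)) e
 (c (a (nat_lit 0xe242a220c1)) e
 (c (a (nat_lit 0x1e1200001)) e
 (c (a (nat_lit 0x2000000001)) e e)))))))))))))))))
 (c (a (nat_lit 0x20404021))
 (c (a (nat_lit 0x22141212281))
 (c (a (nat_lit 0x20066e5e5b347))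
 (c (a (nat_lit 0x307e5344b838008)) e
 (c (a (nat_lit 0x8e2d2ca00000009)) e e))
 (c (a (nat_lit 0x426062df2ee7))
 (c (a (nat_lit 0x8bdd16000000008)) e e) e))
 (c (a (nat_lit 0x604110a223))
 (c (a (nat_lit 0x28a86ac5f388))
 (c (a (nat_lit 0x192c400000000007)) e e) e)
 (c (a (nat_lit 0x139857f7e0a6)) e
 (c z e
 (c z e
 (c z e
 (c z e
 (c z e
 (c z e
 (c z e
 (c z e
 (c z e
 (c (b (nat_lit 0x1fffffe2e1a1)) e
 (c (b (nat_lit 0x1fe282e12001)) e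
 (c (a (nat_lit 0x18140000001)) e e)))))))))))))))
 (c (a (nat_lit 0x204041))
 (c (a (nat_lit 0x16f6f7372ee5))
 (c (a (nat_lit 0x20587e0661567)) e e)
 (c z e
 (c z e
 (c z e
 (c z e
 (c z e
 (c z e
 (c z e
 (c z e
 (c z e
 (c z e
 (c (b (nat_lit 0x17803fe02007)) e
 (c (a (nat_lit 0x5c2e1a00001)) e
 (c (a (nat_lit 0x2000000001)) e e))))))))))))))
 (c (a (nat_lit 0x202001))
 (c z e
 (c z e
 (c z e
 (c z e
 (c z e
 (c (b (nat_lit 0x1ffffebbafc7)) e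
 (c (a (nat_lit 0x331ef2ccde9)) e
 (c z e
 (c z e
 (c (b (nat_lit 0x1fef02928006)) e
 (c (a (nat_lit 0xd8931c02007)) e
 (c (a (nat_lit 0x6300000001)) e e))))))))))))
 (c (a (nat_lit 0x206080e1))
 (c (a (nat_lit 0xab0e86828c7))
 (c (a (nat_lit 0x5a81307c201c7)) e
 (c (a (nat_lit 0xb312fc0400007)) e e))
 (c (a (nat_lit 0x11a282a4d426))
 (c (a (nat_lit 0x1d48380000007)) e e)
 (c (a (nat_lit 0x242644c51a7)) e
 (c (a (nat_lit 0x8ec0d4eb3e8)) e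
 (c (a (nat_lit 0x4a5c703d4a8)) e
 (c (a (nat_lit 0x9bb989da548)) e
 (c z e
 (c z e
 (c (a (nat_lit 0x13a34c4e2b67)) e
 (c (a (nat_lit 0x15c3ba00003)) e
 (c (a (nat_lit 0x8000000001)) e e)))))))))))
 (c (a (nat_lit 0x40a0a081))
 (c (a (nat_lit 0xf0f2f155327))
 (c (a (nat_lit 0x19e74000000006)) e e)
 (c (a (nat_lit 0xd0e51500ae8)) e
 (c (a (nat_lit 0xd334e24ec67)) e
 (c (a (nat_lit 0x1453f1595948)) e
 (c (a (nat_lit 0x103039b48a48)) e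
 (c z e
 (c z e
 (c (b (nat_lit 0x1fee90c66006)) e
 (c (a (nat_lit 0x108c40000006)) e e)))))))))
 (c (a (nat_lit 0x60a0c0e1))
 (c (a (nat_lit 0xe306fa02546)) e
 (c (a (nat_lit 0x19f0a569e006)) e
 (c (a (nat_lit 0xe2cd0bd53e7)) e
 (c z e
 (c z e
 (c z e
 (c (a (nat_lit 0x181d97c00006)) e
 (c (a (nat_lit 0x168000000004)) e e))))))))
 (c (a (nat_lit 0x203926))
 (c (a (nat_lit 0xe902f2942a7)) e
 (c (b (nat_lit 0x1d76bb533fe6)) e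
 (c (b (nat_lit 0x329773fe2e8)) e
 (c z e
 (c z e
 (c (a (nat_lit 0x51660000006)) e e))))))
 (c (a (nat_lit 0xc0dada26))
 (c (a (nat_lit 0x3aee3f66)) e
 (c (b (nat_lit 0x6fd0dfe988)) e e))
 (c (a (nat_lit 0x4f6960f88))
 (c (b (nat_lit 0x3cdfffffe7)) e e)
 (c z e
 (c (a (nat_lit 0x1090802006)) e
 (c (a (nat_lit 0x1c60202005)) e
 (c (a (nat_lit 0x120e08001)) e
 (c (a (nat_lit 0x100a08001)) e
 (c (a (nat_lit 0x6080c121)) e
 (c (a (nat_lit 0xe0c26241)) e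
 (c (a (nat_lit 0x81012361)) e
 (c (a (nat_lit 0x203261a6)) e
 (c (a (nat_lit 0x89aa9c9c6)) e
 (c (a (nat_lit 0x15e0202006)) e
 (c (a (nat_lit 0xa0600001)) e e)))))))))))))))))))))))) Tr.c Tr.e (nat_lit 0) C.cx C.cy
noncomputable def C118 : Tr := beta% (fun (c : Nat → Tr → Tr → Tr) (e : Tr) (z : Nat) (a b : Nat → Nat) =>
 (c (a (nat_lit 0x202021))
 (c (a (nat_lit 0x13d3cd810028)) e
 (c (a (nat_lit 0x108fc2e02028)) e
 (c (a (nat_lit 0x1a2020202007)) e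
 (c (a (nat_lit 0x1e161412461)) e
 (c (a (nat_lit 0x221c1c6a0e1)) e
 (c z e
 (c z e
 (c z e
 (c z e
 (c z e
 (c z e
 (c z e
 (c z e
 (c z e
 (c (b (nat_lit 0x16bfe0404024)) e
 (c (b (nat_lit 0x1fe222a16001)) e
 (c (a (nat_lit 0xa1e0000001)) e e)))))))))))))))))
 (c (nat_lit 1)
 (c (a (nat_lit 0x1c0020202006))
 (c (a (nat_lit 0x18e58e1f8a65c3))
 (c (a (nat_lit 0x7e5058c2d75a4c8)) e
 (c (a (nat_lit 0xa27505476800009)) e e))
 (c (a (nat_lit 0x4162002174e8))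
 (c (a (nat_lit 0xf1194d440000009)) e e)
 (c z e
 (c z e
 (c z e
 (c z e
 (c z e
 (c (a (nat_lit 0x19808a6482c008)) e
 (c (a (nat_lit 0x16564b80000007)) e e)))))))))
 (c (a (nat_lit 0x3e201818001))
 (c (a (nat_lit 0x202020e51249))
 (c (a (nat_lit 0x10d45c2000000007)) e e)
 (c z e
 (c z e
 (c z e
 (c z e
 (c z e
 (c (a (nat_lit 0x195bd349600009)) e e)))))))
 (c (a (nat_lit 0x6040d200e3)) e
 (c (a (nat_lit 0x1efeff3f23c5)) e
 (c z e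
 (c z e
 (c z e
 (c (a (nat_lit 0x1735d5d1bee7)) e
 (c (a (nat_lit 0xb2b31f774c9)) e
 (c z e
 (c z e
 (c z e
 (c z e
 (c (a (nat_lit 0xc6161828161)) e
 (c (a (nat_lit 0x61e1e00001)) e
 (c (nat_lit 1) e e))))))))))))))))
 (c (a (nat_lit 0x20202021))
 (c (a (nat_lit 0x40ffe242))
 (c (a (nat_lit 0x2484ca03d326)) e
 (c z e
 (c z e
 (c z e
 (c z e
 (c z e
 (c (a (nat_lit 0x1c03a920000007)) e
 (c (a (nat_lit 0x11200000000002)) e e))))))))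
 (c (a (nat_lit 0x139437f80086)) e
 (c z e
 (c z e
 (c z e
 (c (a (nat_lit 0x11348de7c2e8)) e
 (c (a (nat_lit 0x122f68c2dc67)) e
 (c (a (nat_lit 0x9076ed3f2a9)) e
 (c z e
 (c z e
 (c z e
 (c (a (nat_lit 0x1460e10083)) e
 (c (a (nat_lit 0x13e080808003)) e
 (c (a (nat_lit 0xc100000001)) e e))))))))))))))
 (c (nat_lit 1)
 (c z e
 (c z e
 (c z e
 (c (a (nat_lit 0x1ad77797b247)) e
 (c (a (nat_lit 0x1bb3b3a02426)) e
 (c (a (nat_lit 0x6c6c6a8b227)) e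
 (c (a (nat_lit 0xb8b93f6cfa9)) e
 (c z e
 (c z e
 (c (a (nat_lit 0x1b17b5d190a7)) e
 (c (a (nat_lit 0x15f3b59a9a87)) e
 (c (a (nat_lit 0x22c1a00001)) e
 (c (nat_lit 1) e e)))))))))))))
 (c (a (nat_lit 0x20202021))
 (c (a (nat_lit 0xc9253ad2506))
 (c (a (nat_lit 0x1e387579a524e5)) e
 (c (a (nat_lit 0x140d6e0380e006)) e
 (c (a (nat_lit 0x105e02c0000005)) e e)))
 (c (a (nat_lit 0x15f2b30c8d06))
 (c (a (nat_lit 0x17e1c520e00004)) e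
 (c (a (nat_lit 0x1be5a000000003)) e e))
 (c (a (nat_lit 0x1a09ca8771c4)) e
 (c (a (nat_lit 0x6062bf6d8a4)) e
 (c (a (nat_lit 0x80ead0e7dc6)) e
 (c (a (nat_lit 0xbecb331b0c9)) e
 (c z e
 (c z e
 (c (a (nat_lit 0x14275077db66)) e
 (c (a (nat_lit 0x790a9a6e006)) e
 (c (a (nat_lit 0x1ecae0000005)) e e)))))))))))
 (c (a (nat_lit 0x20202041))
 (c (a (nat_lit 0x119191b13826))
 (c (a (nat_lit 0x9b183e0000004)) e
 (c (a (nat_lit 0x1c800000000004)) e e))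
 (c (a (nat_lit 0x10f130f3f547)) e
 (c (a (nat_lit 0x109051b26e47)) e
 (c (a (nat_lit 0xf5091ab6607)) e
 (c (a (nat_lit 0x1418f6797ec8)) e
 (c z e
 (c z e
 (c (a (nat_lit 0x3d5cf674c5)) e
 (c (a (nat_lit 0x9d1e8600005)) e
 (c (a (nat_lit 0x128000000004)) e e))))))))))
 (c (nat_lit 1)
 (c (a (nat_lit 0x11712eb4ab26)) e
 (c (a (nat_lit 0xf6cf0878067)) e
 (c (a (nat_lit 0x1111cc482407)) e
 (c z e
 (c z e
 (c z e
 (c (b (nat_lit 0x1ff63e4ce005)) e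
 (c (a (nat_lit 0x195160000005)) e e))))))))
 (c (a (nat_lit 0x200001))
 (c (a (nat_lit 0x1dbf3aa060e5)) e
 (c (a (nat_lit 0xce943849527)) e
 (c (a (nat_lit 0xa492896b107)) e
 (c z e
 (c z e
 (c (a (nat_lit 0x49413000006)) e
 (c (a (nat_lit 0x1fe000000001)) e e)))))))
 (c (a (nat_lit 0x20203b66))
 (c (a (nat_lit 0x8ca501b4004)) e
 (c (a (nat_lit 0x644d7f260c7)) e
 (c z e
 (c z e
 (c (b (nat_lit 0x1ff1c0000006)) e e)))))
 (c (a (nat_lit 0xc6c73b348))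
 (c (a (nat_lit 0x704f4c0c707)) e e)
 (c (a (nat_lit 0x161633a6)) e
 (c (a (nat_lit 0x1b5b7b8026)) e
 (c (a (nat_lit 0x1b9baa8a86)) e
 (c (a (nat_lit 0x1120200006)) e
 (c (a (nat_lit 0x140a04001)) e
 (c (a (nat_lit 0x60408261)) e
 (c (a (nat_lit 0x6060e161)) e
 (c (a (nat_lit 0x162a081)) e
 (c (a (nat_lit 0x202055a5)) e
 (c (a (nat_lit 0x324085)) e
 (c (a (nat_lit 0x1380204024)) e
 (c (a (nat_lit 0x16a3014001)) e
 (c (a (nat_lit 0x140000001)) e e)))))))))))))))))))))))) Tr.c Tr.e (nat_lit 0) C.cx C.cy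
noncomputable def C119 : Tr := beta% (fun (c : Nat → Tr → Tr → Tr) (e : Tr) (z : Nat) (a b : Nat → Nat) =>
 (c (nat_lit 1)
 (c (a (nat_lit 0x2020203626))
 (c (a (nat_lit 0x1a5a565630ea04))
 (c (a (nat_lit 0x305262890b9df05))
 (c z e
 (c (a (nat_lit 0x2a342a425ac177089)) e
 (c (a (nat_lit 0x4e50625e8f1edcc69)) e e)))
 (c (a (nat_lit 0x444c78b315694e8))
 (c (a (nat_lit 0x4e304666dbf18ceea)) e e)
 (c (a (nat_lit 0x78aae13b8524ca8)) e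
 (c z e
 (c z e
 (c (a (nat_lit 0x14db579154d130c8)) e
 (c (a (nat_lit 0x12120f906dacce48)) e
 (c (a (nat_lit 0xc5a6b8ce9e92ee8)) e
 (c (a (nat_lit 0x17cd6a2909260008)) e
 (c (a (nat_lit 0x1aab72abe0000006)) e e))))))))))
 (c (a (nat_lit 0x17d232300de026))
 (c (a (nat_lit 0x5076a52b8789169))
 (c (a (nat_lit 0x2a364673391ab6bcb)) e e)
 (c z e
 (c z e
 (c z e
 (c (a (nat_lit 0x11308d0e8ccd0b4b)) e
 (c (a (nat_lit 0x1354700dcd0d6daa)) e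
 (c (a (nat_lit 0x13694946e6c965ea)) e
 (c z e
 (c (a (nat_lit 0x452100000000007)) e e)))))))))
 (c (b (nat_lit 0x96af1bfebc4a6))
 (c z e
 (c z e
 (c z e
 (c z e
 (c z e
 (c z e
 (c z e
 (c (a (nat_lit 0x1dcee00000000007)) e e))))))))
 (c z e
 (c z e
 (c (a (nat_lit 0x1f80c0a1f5a023)) e
 (c (a (nat_lit 0x22e6e036e5))
 (c (a (nat_lit 0x15eff34880000007)) e
 (c (a (nat_lit 0x1eb1200000000007)) e e))
 (c (a (nat_lit 0x6a6e7e714a046)) e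
 (c (a (nat_lit 0x38e4e8f317166)) e
 (c (a (nat_lit 0x18307655594c6)) e
 (c (a (nat_lit 0x161c32b51eac7)) e
 (c (a (nat_lit 0x1557bfff58a567)) e
 (c z e
 (c (a (nat_lit 0xb6d4ce25f0007)) e
 (c (a (nat_lit 0x1b7c2ba0000007)) e
 (c (a (nat_lit 0x10a00000000007)) e e))))))))))))))))
 (c (a (nat_lit 0x2020303028))
 (c (a (nat_lit 0x7a78cd36966c7))
 (c (a (nat_lit 0x96bb2381b1694c9))
 (c (a (nat_lit 0x626c7d8b89254846a)) e e)
 (c z e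
 (c z e
 (c z e
 (c (a (nat_lit 0x19d756b4d551f32b)) e
 (c (a (nat_lit 0x1eb28f2e0c8cceea)) e
 (c (a (nat_lit 0x1d3833b454af4009)) e e)))))))
 (c z e
 (c z e
 (c z e
 (c (a (nat_lit 0xdcdcf30aac629)) e
 (c (a (nat_lit 0xd9cdd945dc6)) e
 (c (a (nat_lit 0x94f0f50c290c8)) e
 (c z e
 (c (a (nat_lit 0x64a6ee71b427)) e
 (c (a (nat_lit 0x144aa55ee0f08)) e
 (c (b (nat_lit 0xc4ed3d2051fe9)) e
 (c z e
 (c z e
 (c (a (nat_lit 0x164aa000000009)) e e))))))))))))))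
 (c (a (nat_lit 0x383834e8))
 (c z e
 (c z e
 (c z e
 (c z e
 (c z e
 (c z e
 (c z e
 (c (a (nat_lit 0x107759f9d8687)) e e))))))))
 (c (a (nat_lit 0x15555548e8)) e
 (c (a (nat_lit 0x1c3c3ec52527)) e
 (c (a (nat_lit 0x1cffa403e3e6))
 (c z e
 (c z e
 (c z e
 (c z e
 (c z e
 (c (b (nat_lit 0x193e1fffe50028)) e
 (c (b (nat_lit 0x154abfe5a00009)) e e)))))))
 (c (a (nat_lit 0x192020202006))
 (c (a (nat_lit 0x294a4e344e87)) e
 (c (b (nat_lit 0x22649125fee47)) e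
 (c (a (nat_lit 0x43268bba08c8)) e
 (c (a (nat_lit 0x82d399d8581e8)) e
 (c (a (nat_lit 0x18c1b8cf81e007)) e
 (c (a (nat_lit 0xf3cf400000007)) e e))))))
 (c (a (nat_lit 0x240e0e0a521))
 (c (b (nat_lit 0x5e6057ff6bf06)) e
 (c (a (nat_lit 0x2c193d4eba449)) e
 (c (a (nat_lit 0x1354e6940e029)) e
 (c (b (nat_lit 0x1d1ffd45e00007)) e
 (c (a (nat_lit 0x6ba6000000007)) e e)))))
 (c (a (nat_lit 0x160e1268181))
 (c (b (nat_lit 0x1ff3aee5028069)) e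
 (c (a (nat_lit 0x106942a2e0800a)) e
 (c (a (nat_lit 0xdd98e40000007)) e e)))
 (c (a (nat_lit 0x18789a5a2222))
 (c (a (nat_lit 0x17c28f23800007)) e
 (c (a (nat_lit 0x1f3e000000006)) e e))
 (c (a (nat_lit 0x7a64d6d71c6))
 (c (a (nat_lit 0x1da00000000001)) e e)
 (c (a (nat_lit 0x12551c7eba68)) e
 (c z e
 (c (a (nat_lit 0x1f7abafaf786)) e
 (c (a (nat_lit 0x15622323a001)) e
 (c (a (nat_lit 0x109090d0a004)) e
 (c (a (nat_lit 0x888a02057e5)) e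
 (c (a (nat_lit 0x8a0403817e5)) e
 (c (a (nat_lit 0xbc0c1806001)) e
 (c (a (nat_lit 0xa0000001)) e e))))))))))))))))))))
 (c (a (nat_lit 0x202001))
 (c (a (nat_lit 0x8091918fe9))
 (c (b (nat_lit 0x48512dfffe7a7))
 (c (a (nat_lit 0xb0ff5995834cce8))
 (c (a (nat_lit 0x5c58f108ed2638009)) e e)
 (c z e
 (c z e
 (c z e
 (c (a (nat_lit 0x1dd87617b474544a)) e
 (c (a (nat_lit 0x13b14cac6eede929)) e
 (c (a (nat_lit 0x1c7a1d14ef200008)) e e)))))))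
 (c z e
 (c z e
 (c z e
 (c (a (nat_lit 0x7ce1148270a89)) e
 (c (a (nat_lit 0x82d99cc75c9e7)) e
 (c (a (nat_lit 0xbac8f098d70e8)) e
 (c z e
 (c (a (nat_lit 0x1434df1533968)) e
 (c (a (nat_lit 0x506308f712049)) e
 (c (b (nat_lit 0xbcff2cbec7fe9)) e e)))))))))))
 (c z e
 (c (a (nat_lit 0x1777960584a9)) e
 (c (a (nat_lit 0x197c00202007)) e
 (c (a (nat_lit 0x18e020202007))
 (c z e
 (c z e
 (c z e
 (c z e
 (c z e
 (c (a (nat_lit 0x1243cc0bc6a009)) e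
 (c (a (nat_lit 0x1af0caa0000009)) e e)))))))
 (c (a (nat_lit 0x50301c20321))
 (c (a (nat_lit 0x7e66976fed088)) e
 (c (a (nat_lit 0x258658312509)) e
 (c z e
 (c (a (nat_lit 0x11d57fcd066a09)) e
 (c (a (nat_lit 0x2f2e763a00009)) e
 (c (a (nat_lit 0x14aec000000008)) e e))))))
 (c (a (nat_lit 0x1e121c68081))
 (c (a (nat_lit 0x28197cec9c3e9)) e
 (c z e
 (c (a (nat_lit 0xeb1aaa524200a)) e
 (c (a (nat_lit 0x3d93e0000007)) e
 (c (a (nat_lit 0x16800000000007)) e e)))))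
 (c (a (nat_lit 0x1777577770c7)) e
 (c (a (nat_lit 0x1090b6f73587))
 (c (a (nat_lit 0x14fcd180000008)) e e)
 (c (a (nat_lit 0x20a137f5607)) e
 (c (a (nat_lit 0xf745cf93769)) e
 (c z e
 (c (a (nat_lit 0x112e2d4d7008)) e
 (c (a (nat_lit 0x3602074ab66)) e
 (c (a (nat_lit 0xad31adb186)) e
 (c (a (nat_lit 0x2f4e08f8f44)) e
 (c (a (nat_lit 0x146101a14002)) e
 (c (a (nat_lit 0x6381200001)) e
 (c (a (nat_lit 0x1c000000001)) e e)))))))))))))))))))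
 C118))) Tr.c Tr.e (nat_lit 0) C.cx C.cy
noncomputable def C120 : Tr := beta% (fun (c : Nat → Tr → Tr → Tr) (e : Tr) (z : Nat) (a b : Nat → Nat) =>
 (c (a (nat_lit 0x20202021))
 (c (a (nat_lit 0x14746d0a6a67))
 (c (a (nat_lit 0x1c9719731471a5))
 (c (a (nat_lit 0xa08e343cb7f0e07)) e
 (c (a (nat_lit 0x66221a71628c009)) e e))
 (c (a (nat_lit 0x189e6b0f610a44))
 (c (a (nat_lit 0x7a98b7d8a200009)) e e)
 (c (b (nat_lit 0x23fe5244477e8)) e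
 (c z e
 (c z e
 (c z e
 (c z e
 (c (a (nat_lit 0x91248c821c148)) e
 (c (a (nat_lit 0x1f6daf85000007)) e e)))))))))
 (c (a (nat_lit 0x1e0020202006))
 (c (a (nat_lit 0x100204021d887))
 (c (a (nat_lit 0x9a993c500000009)) e e)
 (c (a (nat_lit 0x20402350ba09)) e
 (c z e
 (c z e
 (c z e
 (c z e
 (c (a (nat_lit 0x1caef5e4824008)) e
 (c (a (nat_lit 0xeda45a0000008)) e e))))))))
 (c (a (nat_lit 0x2c14160c361))
 (c z e
 (c z e
 (c (b (nat_lit 0xd12bffb69c8)) e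
 (c z e
 (c z e
 (c z e
 (c (a (nat_lit 0x18e3c000000009)) e e)))))))
 (c (a (nat_lit 0x80a20383a1))
 (c (a (nat_lit 0x5684c3de1e3c8)) e e)
 (c (a (nat_lit 0x418506c921)) e
 (c z e
 (c z e
 (c (a (nat_lit 0x10aa4a4a4487)) e
 (c (a (nat_lit 0x4040419307)) e
 (c (a (nat_lit 0x202d3ebb87)) e
 (c z e
 (c (a (nat_lit 0x1a3bfa309827)) e
 (c (a (nat_lit 0x16d3a02f4f46)) e
 (c (a (nat_lit 0x117520602004)) e
 (c (a (nat_lit 0x156060202004)) e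
 (c (a (nat_lit 0x1e080000001)) e e))))))))))))))))
 (c (a (nat_lit 0x20202021))
 (c (a (nat_lit 0x1e120e0a001))
 (c (a (nat_lit 0x202121631227))
 (c (a (nat_lit 0xbd5638000000007)) e e)
 (c (a (nat_lit 0x20c263cbd329)) e
 (c (a (nat_lit 0x21c426c7f288)) e
 (c (a (nat_lit 0x2b77d75a7707)) e
 (c z e
 (c z e
 (c (a (nat_lit 0xa5165c5000008)) e
 (c (a (nat_lit 0x1da2c000000007)) e e))))))))
 (c (a (nat_lit 0x6060706223))
 (c (a (nat_lit 0x230585510f89)) e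
 (c z e
 (c z e
 (c z e
 (c z e
 (c (a (nat_lit 0x1f8ae600000009)) e
 (c (a (nat_lit 0x15000000000007)) e e)))))))
 (c (a (nat_lit 0x1bbbbc1c0045))
 (c (a (nat_lit 0x24b1630e404c8)) e
 (c (a (nat_lit 0xd6eb28b07e109)) e e))
 (c (a (nat_lit 0x13f415b66566)) e
 (c z e
 (c (a (nat_lit 0x1f1858582b46)) e
 (c (a (nat_lit 0x1b1b1b002525)) e
 (c (a (nat_lit 0x606064f645)) e
 (c (a (nat_lit 0x767773bb787)) e
 (c (a (nat_lit 0xf3636b69288)) e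
 (c (a (nat_lit 0xd106c502f67)) e
 (c (a (nat_lit 0x12c54ecaaa84)) e
 (c (a (nat_lit 0x1060c06022)) e
 (c (a (nat_lit 0x1120c0400002)) e
 (c (a (nat_lit 0xa000000001)) e e)))))))))))))))
 (c (a (nat_lit 0x2021))
 (c (a (nat_lit 0x125254748006))
 (c (a (nat_lit 0x7eaea3189c0a8)) e e)
 (c z e
 (c z e
 (c (a (nat_lit 0x10d010100fa7)) e
 (c (a (nat_lit 0x15d5d5c02005)) e
 (c (a (nat_lit 0xa4765a1de61)) e
 (c (b (nat_lit 0xb09e2d39fe2)) e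
 (c (a (nat_lit 0xb6b6fd04889)) e
 (c (a (nat_lit 0xf74126eace9)) e
 (c (a (nat_lit 0x144ba8c5d247)) e
 (c (a (nat_lit 0x7c3a3b31327)) e
 (c (a (nat_lit 0x9d232402006)) e
 (c (a (nat_lit 0x40000001)) e e)))))))))))))
 (c (a (nat_lit 0x20202021))
 (c (a (nat_lit 0x1296f291eb86))
 (c (a (nat_lit 0x1bcd43488f0706)) e
 (c (a (nat_lit 0x1906ed51a9c486)) e
 (c (a (nat_lit 0xaa1103e00006)) e e)))
 (c (a (nat_lit 0x38f8f93765))
 (c (a (nat_lit 0x1fe26181c12005)) e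
 (c (a (nat_lit 0x1918560000002)) e e))
 (c (a (nat_lit 0x8488949f4c3))
 (c (a (nat_lit 0x18602000000004)) e e)
 (c (a (nat_lit 0x2c2c2b89882)) e
 (c (a (nat_lit 0x9090eaed4e4)) e
 (c (a (nat_lit 0xb51b02e6266)) e
 (c (b (nat_lit 0xecdfa1fece7)) e
 (c (a (nat_lit 0xaf110f13028)) e
 (c (a (nat_lit 0x15260a747f24)) e
 (c (a (nat_lit 0x6be5a3332c4)) e
 (c (a (nat_lit 0x12b754400003)) e
 (c (a (nat_lit 0x40000000001)) e e))))))))))))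
 (c (a (nat_lit 0x20202021))
 (c (a (nat_lit 0x10d0d1113025))
 (c (a (nat_lit 0x3225ab000001)) e
 (c (a (nat_lit 0x13422000000002)) e e))
 (c (a (nat_lit 0xe8eceee1166)) e
 (c (a (nat_lit 0xfcfce71cf46)) e
 (c (a (nat_lit 0x1755baf76065)) e
 (c (a (nat_lit 0x14f6354804a7)) e
 (c (b (nat_lit 0x447335ff507)) e
 (c (b (nat_lit 0x5917ff04ec7)) e
 (c (a (nat_lit 0xb0b0bcbd226)) e
 (c (a (nat_lit 0xff553e004)) e
 (c (a (nat_lit 0xd360000002)) e e))))))))))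
 (c (a (nat_lit 0x40404021))
 (c (a (nat_lit 0x12b2f231b6a5)) e
 (c (a (nat_lit 0x1392d19387e6)) e
 (c (a (nat_lit 0x1bd9bdc66945)) e
 (c (b (nat_lit 0x10d9185fffe4)) e
 (c z e
 (c z e
 (c (a (nat_lit 0x60398ce6e65)) e
 (c (a (nat_lit 0x56e7e00005)) e
 (c (a (nat_lit 0x1d0000000004)) e e)))))))))
 (c (a (nat_lit 0x20200001))
 (c (a (nat_lit 0x12f1f0202005)) e
 (c (a (nat_lit 0x1a74e3032005)) e
 (c (a (nat_lit 0xecf71a85866)) e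
 (c z e
 (c z e
 (c (a (nat_lit 0x13904b0005)) e
 (c (a (nat_lit 0x140000001)) e e)))))))
 (c (a (nat_lit 0x40404001))
 (c (a (nat_lit 0x848a9741984)) e
 (c (a (nat_lit 0x56080635527)) e
 (c (a (nat_lit 0x4021207a88)) e
 (c z e
 (c (a (nat_lit 0x12b190e00006)) e
 (c (a (nat_lit 0x122000000001)) e e))))))
 (c (a (nat_lit 0x20201d65))
 (c (a (nat_lit 0x241a0780025)) e
 (c (b (nat_lit 0x280d3cd9fe7)) e e))
 (c (a (nat_lit 0x203cfd04))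
 (c (b (nat_lit 0x20da9fffe7)) e
 (c (a (nat_lit 0x1dd1c00007)) e
 (c (a (nat_lit 0x2000000001)) e e)))
 (c (a (nat_lit 0x187edefee7))
 (c (a (nat_lit 0x10ebe0000008)) e e)
 (c (a (nat_lit 0x1050504987)) e
 (c (a (nat_lit 0x10908764c6)) e
 (c (a (nat_lit 0x1220200005)) e
 (c (a (nat_lit 0x120806001)) e
 (c (a (nat_lit 0xa0808201)) e
 (c (a (nat_lit 0x810241)) e
 (c (a (nat_lit 0xc268c1)) e
 (c (b (nat_lit 0x1a09fe1)) e
 (c (a (nat_lit 0x1ac0202024)) e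
 (c (a (nat_lit 0x21c1a081)) e
 (c (a (nat_lit 0x241400001)) e e))))))))))))))))))))))) Tr.c Tr.e (nat_lit 0) C.cx C.cy
noncomputable def C121 : Tr := beta% (fun (c : Nat → Tr → Tr → Tr) (e : Tr) (z : Nat) (a b : Nat → Nat) =>
 (c (nat_lit 1)
 (c (nat_lit 1)
 (c (a (nat_lit 0x1454544c6c4024))
 (c (a (nat_lit 0x4444c5a78eb487))
 (c z e
 (c (a (nat_lit 0x3c161e224272ef70a)) e
 (c (a (nat_lit 0x56545e747ab346eca)) e e)))
 (c (a (nat_lit 0x6263c9b092a9))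
 (c (a (nat_lit 0x1a240a2c60bb8ef4b)) e e)
 (c (a (nat_lit 0x5678a8df3961049)) e
 (c z e
 (c z e
 (c z e
 (c (a (nat_lit 0x11d1b192104d0c69)) e
 (c (a (nat_lit 0xdec388acc694ba9)) e
 (c (a (nat_lit 0xada4be84769e609)) e
 (c (a (nat_lit 0x1a2f08eaa8a00008)) e
 (c (a (nat_lit 0x12c1442000000004)) e e)))))))))))
 (c (a (nat_lit 0x11514e4e47c427))
 (c (a (nat_lit 0x2a5e99359fdfd29))
 (c (a (nat_lit 0x381630608b88f8c8b)) e e)
 (c z e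
 (c z e
 (c z e
 (c z e
 (c (a (nat_lit 0x195a7ed87471f02a)) e
 (c (a (nat_lit 0x101f106ceb49cd4a)) e
 (c z e
 (c (a (nat_lit 0x1ba72ecc20000008)) e e)))))))))
 (c (a (nat_lit 0x1551d2ee8a4a27))
 (c z e
 (c z e
 (c z e
 (c z e
 (c z e
 (c z e
 (c z e
 (c (a (nat_lit 0xeb2cb4000000008)) e e))))))))
 (c z e
 (c z e
 (c (a (nat_lit 0x1dcf0fcfa12845)) e
 (c (a (nat_lit 0xa006065f224c4))
 (c (a (nat_lit 0xf74725067c00008)) e
 (c (a (nat_lit 0x1819cb8000000008)) e e))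
 (c (a (nat_lit 0x2045207946))
 (c (a (nat_lit 0x1747200000000007)) e e)
 (c (a (nat_lit 0x282c1224e3367)) e
 (c (a (nat_lit 0x28ceccef33e47)) e
 (c (a (nat_lit 0xe062c8d53a47)) e
 (c (a (nat_lit 0xc4eb1f6940f88)) e
 (c z e
 (c z e
 (c (a (nat_lit 0x14155388600008)) e
 (c (a (nat_lit 0x184b4000000008)) e e))))))))))))))))
 (c (a (nat_lit 0x20203068))
 (c (a (nat_lit 0x16d317f3d60b47))
 (c (a (nat_lit 0x4c6cdaf53b4b209))
 (c (a (nat_lit 0x223054693edad2d6a)) e e)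
 (c z e
 (c z e
 (c z e
 (c z e
 (c (a (nat_lit 0xbb1ca89674526cb)) e
 (c (a (nat_lit 0x120926870565446b)) e
 (c z e
 (c (a (nat_lit 0xc15eca000000007)) e e)))))))))
 (c z e
 (c z e
 (c z e
 (c z e
 (c (a (nat_lit 0x10028ad2dd127))
 (c (a (nat_lit 0xc6dd2e5e0000009)) e
 (c (a (nat_lit 0x1a91200000000009)) e e))
 (c (a (nat_lit 0x2489ca14e6c7))
 (c (a (nat_lit 0x11e0000000000007)) e e)
 (c z e
 (c (a (nat_lit 0x61e5a89b6b68)) e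
 (c (a (nat_lit 0x428fc972b88)) e
 (c (a (nat_lit 0xa2a942eef01c9)) e
 (c z e
 (c z e
 (c (a (nat_lit 0x13940920000009)) e
 (c (a (nat_lit 0x15c00000000008)) e e)))))))))))))))
 (c (a (nat_lit 0x20305048))
 (c z e
 (c z e
 (c z e
 (c z e
 (c z e
 (c z e
 (c z e
 (c (b (nat_lit 0x1fffeeb56b0027)) e e))))))))
 (c (a (nat_lit 0x18569688)) e
 (c z e
 (c (a (nat_lit 0x147475ca69c8)) e
 (c (a (nat_lit 0x10100301a1a7))
 (c (a (nat_lit 0x4ef14104eb467)) e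
 (c (a (nat_lit 0x5ecee6b713607)) e
 (c (a (nat_lit 0x2b6a0553bca7)) e
 (c (a (nat_lit 0x2324f465c348)) e
 (c (b (nat_lit 0x1fe95ff5432088)) e
 (c (a (nat_lit 0x11089b09400008)) e e))))))
 (c (a (nat_lit 0x1a4020202006))
 (c (a (nat_lit 0x26723a78094e6)) e
 (c (a (nat_lit 0x281a139cacb48)) e
 (c (a (nat_lit 0x41acd0ee01e9)) e
 (c (b (nat_lit 0xc351ffc412007)) e
 (c (a (nat_lit 0x275ef20000008)) e e)))))
 (c (a (nat_lit 0x32100a086e1))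
 (c (a (nat_lit 0x1a05ff4670428)) e
 (c (a (nat_lit 0x7a0c4882a029)) e
 (c (a (nat_lit 0x17c82d83400008)) e e)))
 (c (a (nat_lit 0x2061268561))
 (c (a (nat_lit 0x156626c3402008)) e
 (c (a (nat_lit 0x5d788e0000007)) e e))
 (c (a (nat_lit 0x106a849a1))
 (c (a (nat_lit 0x1aa0c000000004)) e e)
 (c (a (nat_lit 0xdaef37373e8)) e
 (c z e
 (c z e
 (c (a (nat_lit 0x1ff4b4d4d065)) e
 (c (a (nat_lit 0x186181a147e1)) e
 (c (a (nat_lit 0x11b1d1b3a004)) e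
 (c (a (nat_lit 0x9c9a0803805)) e
 (c (a (nat_lit 0x980803817e5)) e
 (c (a (nat_lit 0x1e361c00001)) e
 (c (a (nat_lit 0x22000000001)) e e)))))))))))))))))))))
 (c (a (nat_lit 0x20404021))
 (c (a (nat_lit 0x20203fbfa6))
 (c (b (nat_lit 0x179efa9fffffe5))
 (c (a (nat_lit 0x74fed74b557ad87)) e
 (c z e
 (c z e
 (c z e
 (c z e
 (c (a (nat_lit 0x1debcea8a92ac989)) e
 (c (a (nat_lit 0x12ced23128062008)) e
 (c z e
 (c (a (nat_lit 0x1d50e00000000006)) e e)))))))))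
 (c z e
 (c z e
 (c z e
 (c (a (nat_lit 0x15393b3d8ae287)) e
 (c (a (nat_lit 0x43e529a5b4a7))
 (c (a (nat_lit 0x110cc32000000008)) e e)
 (c (a (nat_lit 0x21c2a3e41088)) e
 (c z e
 (c (a (nat_lit 0x3649403c048)) e
 (c (a (nat_lit 0x405160ac6e788)) e
 (c (a (nat_lit 0x93a0d0c61f468)) e
 (c z e
 (c z e
 (c (a (nat_lit 0x12a96000000008)) e e))))))))))))))
 (c (a (nat_lit 0x2032b1ef69)) e
 (c (a (nat_lit 0x3f3b79c808)) e
 (c (a (nat_lit 0x165654a0c008)) e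
 (c (a (nat_lit 0x19ff42c02006)) e
 (c (a (nat_lit 0x174020202006))
 (c (a (nat_lit 0x1c6a1e1a85f88)) e
 (c (a (nat_lit 0x642638419adc9)) e
 (c (a (nat_lit 0x7a7ee98262b87)) e
 (c z e
 (c (a (nat_lit 0x505d34200c009)) e
 (c (a (nat_lit 0x1e392940000008)) e e))))))
 (c (a (nat_lit 0x1e0c080c241))
 (c (a (nat_lit 0x1a262568bc449)) e
 (c (a (nat_lit 0x2a4584b472a29)) e
 (c z e
 (c (a (nat_lit 0x1cd4cd28c00009)) e
 (c (a (nat_lit 0x18e80000000008)) e e)))))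
 (c (a (nat_lit 0x2081234361))
 (c z e
 (c z e
 (c (a (nat_lit 0x7782c00000007)) e e)))
 (c (a (nat_lit 0x1738587896e6))
 (c (a (nat_lit 0xc51b267c00008)) e
 (c (a (nat_lit 0x160c6000000008)) e e))
 (c (a (nat_lit 0x7e7ef100b87))
 (c (a (nat_lit 0x1a000000000004)) e e)
 (c (a (nat_lit 0x70eed90cae8)) e
 (c z e
 (c z e
 (c (a (nat_lit 0x12418161ea26)) e
 (c (a (nat_lit 0x2021546dc5)) e
 (c (a (nat_lit 0x8b30ed8da5)) e
 (c (a (nat_lit 0x1c1ddcfcfce7)) e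
 (c (a (nat_lit 0x1a21a1408002)) e
 (c (a (nat_lit 0x140000001)) e e)))))))))))))))))))
 (c (a (nat_lit 0x20404041))
 (c z e
 (c (a (nat_lit 0x19f9f6a70468)) e
 (c (a (nat_lit 0x11f103402007)) e
 (c (a (nat_lit 0x1ac020202006)) e
 (c (a (nat_lit 0x140c14142a1))
 (c (a (nat_lit 0x42068222ef167)) e
 (c (a (nat_lit 0x2a64451ca83c9)) e e))
 (c (a (nat_lit 0x1c160e42361))
 (c (a (nat_lit 0xcab3fd2cd0a28)) e e)
 (c (b (nat_lit 0x437fe78781)) e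
 (c z e
 (c z e
 (c z e
 (c z e
 (c z e
 (c (a (nat_lit 0x3ea29966043)) e
 (c (a (nat_lit 0x15d3f3936005)) e
 (c z e
 (c (a (nat_lit 0x128040606045)) e
 (c (a (nat_lit 0x240c00001)) e
 (c (a (nat_lit 0x8000000001)) e e))))))))))))))))))
 C120)))) Tr.c Tr.e (nat_lit 0) C.cx C.cy
noncomputable def C122 : Tr := beta% (fun (c : Nat → Tr → Tr → Tr) (e : Tr) (z : Nat) (a b : Nat → Nat) =>
 (c (a (nat_lit 0x2020202021))
 (c (a (nat_lit 0x1bdb9b9b8bcba3))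
 (c (a (nat_lit 0x202646680bf7a7))
 (c (a (nat_lit 0x9c84825870acd13e8)) e
 (c z e
 (c z e
 (c z e
 (c z e
 (c z e
 (c (a (nat_lit 0x16ba0f800000000009)) e e)))))))
 (c (a (nat_lit 0x709aa2bcdf8bb09)) e
 (c z e
 (c z e
 (c z e
 (c z e
 (c (a (nat_lit 0xf0fce6e106b69a9)) e
 (c (a (nat_lit 0xd0bca3588e92a89)) e
 (c (a (nat_lit 0xa88996a06c8aae9)) e
 (c (a (nat_lit 0x11bc0fcd516ae008)) e
 (c (a (nat_lit 0x1cdbf29200000006)) e e)))))))))))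
 (c (a (nat_lit 0x17777773738ca6))
 (c (a (nat_lit 0x323e728b53354e9)) e
 (c z e
 (c z e
 (c z e
 (c z e
 (c (a (nat_lit 0xfcf2fb4cfac4c4a)) e
 (c (a (nat_lit 0xcab782d8a8b086a)) e e)))))))
 (c (a (nat_lit 0x1fdfdbdbd46b06)) e
 (c z e
 (c z e
 (c (a (nat_lit 0x1c1839f5945307)) e
 (c (a (nat_lit 0x1babebe765cde4))
 (c (a (nat_lit 0xe38db9ab38b4007)) e
 (c (a (nat_lit 0x1fbc1e2c20000007)) e
 (c (a (nat_lit 0x11e9c00000000008)) e e)))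
 (c (a (nat_lit 0x1204041306a24))
 (c (a (nat_lit 0x1778a8c000000006)) e
 (c (a (nat_lit 0x1b20000000000006)) e e))
 (c (a (nat_lit 0x1012182e37286)) e
 (c (a (nat_lit 0x2a30182f49f06)) e
 (c (a (nat_lit 0x127c86a0fd5a7)) e
 (c (a (nat_lit 0xc4e10b6b771a7)) e
 (c z e
 (c z e
 (c (a (nat_lit 0x14f95873e94007)) e
 (c (a (nat_lit 0x1aba4ac0000007)) e
 (c (a (nat_lit 0x1f400000000006)) e e)))))))))))))))))
 (c (a (nat_lit 0x20202001))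
 (c (a (nat_lit 0x16d6d2d2ed2105))
 (c (a (nat_lit 0x186689e31b85767))
 (c (a (nat_lit 0x24142a52b578dcea8)) e e) e)
 (c z e
 (c z e
 (c z e
 (c z e
 (c (a (nat_lit 0x1443a3466f78a5))
 (c (a (nat_lit 0xa85f59080200007)) e
 (c (a (nat_lit 0xa192ba000000008)) e e))
 (c (a (nat_lit 0x267232fee5))
 (c (a (nat_lit 0x1447a00000000007)) e e)
 (c (a (nat_lit 0x2c508ee51a6)) e
 (c (a (nat_lit 0x122a3248534e8)) e
 (c (a (nat_lit 0x121a34435c828)) e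
 (c (a (nat_lit 0x5c7a7f7890868)) e
 (c z e
 (c z e
 (c (a (nat_lit 0x180b2a04400008)) e
 (c (a (nat_lit 0x190b8000000007)) e e)))))))))))))))
 (c (a (nat_lit 0x20203606))
 (c z e
 (c z e
 (c z e
 (c z e
 (c (a (nat_lit 0x8642d7029e005))
 (c (a (nat_lit 0xd6254e320000007)) e
 (c (a (nat_lit 0x7b1200000000008)) e e))
 (c (a (nat_lit 0x1917fcbe39a005))
 (c (a (nat_lit 0x1140000000000007)) e e)
 (c z e
 (c (a (nat_lit 0xed0d1f33187c7)) e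
 (c z e
 (c z e
 (c z e
 (c z e
 (c (a (nat_lit 0xafb60a0000005)) e
 (c (a (nat_lit 0x1ac00000000005)) e e))))))))))))))
 (c (a (nat_lit 0x2020361606))
 (c (a (nat_lit 0x8040279bb545))
 (c (a (nat_lit 0x1e5c3493470da8a7)) e
 (c z e
 (c z e
 (c z e
 (c (a (nat_lit 0x3cb08800000007)) e e)))))
 (c (b (nat_lit 0x989b0bf5fe1a6)) e
 (c z e
 (c z e
 (c (a (nat_lit 0xe931fd8e14a46)) e
 (c z e
 (c z e
 (c z e
 (c (a (nat_lit 0x9e2ff86a025)) e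
 (c z e
 (c (a (nat_lit 0xd6fd9d3000008)) e
 (c (a (nat_lit 0x11ccc000000008)) e e))))))))))))
 (c (a (nat_lit 0x1e1f4343427))
 (c (a (nat_lit 0x6c6ce0d8ff6c6))
 (c (a (nat_lit 0xf2fce6928a77ac8)) e
 (c z e
 (c (a (nat_lit 0x120d3aaea0000008)) e e)))
 (c z e
 (c (b (nat_lit 0xb3337dfeeb426))
 (c (a (nat_lit 0x1ceb000000000006)) e e)
 (c z e
 (c z e
 (c z e
 (c (a (nat_lit 0xd8e15697ab1c6)) e
 (c (b (nat_lit 0x5e2bf9fffffe5)) e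
 (c (b (nat_lit 0x281585fffe008)) e
 (c (a (nat_lit 0xc359460000008)) e
 (c (a (nat_lit 0x10400000000007)) e e)))))))))))
 (c (a (nat_lit 0x698f0b0a9a7))
 (c (b (nat_lit 0x13155feb081467))
 (c (a (nat_lit 0x111a996800000007)) e
 (c (a (nat_lit 0x1a0c800000000008)) e e))
 (c z e
 (c (a (nat_lit 0x84c6dad4d96e8)) e
 (c (a (nat_lit 0xb54aef89f59a7)) e
 (c z e
 (c z e
 (c (b (nat_lit 0xb36877f8a5fe7)) e
 (c z e
 (c (a (nat_lit 0x1fffc000000008)) e e)))))))))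
 (c (a (nat_lit 0x1979796be946))
 (c (a (nat_lit 0x1cb21ddbbc5a85)) e
 (c (a (nat_lit 0x8921758afb025)) e
 (c (a (nat_lit 0x36285e2e153e7)) e
 (c (a (nat_lit 0xab00905c300a5)) e
 (c (a (nat_lit 0x72465811fc0a7)) e e)))))
 (c (a (nat_lit 0x1b1d6b662625))
 (c (a (nat_lit 0x124a4c324b4a6)) e
 (c (a (nat_lit 0x1640121d5aa27)) e
 (c (a (nat_lit 0x1e0628a5c5d27)) e
 (c (a (nat_lit 0x245a58aba127)) e
 (c (a (nat_lit 0x4a1d587000008)) e e)))))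
 (c (a (nat_lit 0x1161e1c1c1c5))
 (c (a (nat_lit 0x361207126c287)) e
 (c (a (nat_lit 0x100d9c4b20427)) e
 (c (a (nat_lit 0x52df0e9810007)) e e)))
 (c (a (nat_lit 0x1a1979797c01))
 (c (b (nat_lit 0x4cbff9028086)) e
 (c (a (nat_lit 0x72f1643e00007)) e e))
 (c (a (nat_lit 0x20206282c1))
 (c (a (nat_lit 0x12e56080000007)) e
 (c (a (nat_lit 0x16600000000006)) e e))
 (c (a (nat_lit 0x11d1d8b8dde4)) e
 (c (a (nat_lit 0x15fa1b1d95e5)) e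
 (c (a (nat_lit 0x13ba3776d6c7)) e
 (c (a (nat_lit 0x104868686686)) e
 (c (a (nat_lit 0x140280c08001)) e
 (c (a (nat_lit 0x240c08041a1)) e
 (c (a (nat_lit 0x1595b4d900c1)) e
 (c (a (nat_lit 0x2e2e0207504)) e
 (c (a (nat_lit 0x5606094c003)) e
 (c (a (nat_lit 0x22240000001)) e e)))))))))))))))))))))) Tr.c Tr.e (nat_lit 0) C.cx C.cy
noncomputable def C123 : Tr := beta% (fun (c : Nat → Tr → Tr → Tr) (e : Tr) (z : Nat) (a b : Nat → Nat) =>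
 (c (a (nat_lit 0x202021))
 (c (a (nat_lit 0x20202021))
 (c (a (nat_lit 0x2020202021))
 (c (a (nat_lit 0x173732f1313124))
 (c z e
 (c (a (nat_lit 0x60202082c4d8e4)) e
 (c (a (nat_lit 0x404184a7763844)) e
 (c z e
 (c z e
 (c (a (nat_lit 0xa0bedad90cfcbc6)) e
 (c (a (nat_lit 0xace937213b56f86)) e
 (c z e
 (c (a (nat_lit 0x709c8e725b0cee6)) e
 (c (a (nat_lit 0xa8a2806322f8b46)) e
 (c (a (nat_lit 0x1410cd5b183ed7a5)) e
 (c (a (nat_lit 0x96809762e064006)) e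
 (c (a (nat_lit 0x746fa68c0000006)) e
 (c (a (nat_lit 0x1fdec00000000005)) e e))))))))))))))
 (c (a (nat_lit 0x1b8686868682a4))
 (c (a (nat_lit 0x2041416dd406))
 (c z e
 (c z e
 (c z e
 (c z e
 (c z e
 (c (a (nat_lit 0x989cb4f30a8000009)) e
 (c (a (nat_lit 0x1bdcff322000000008)) e
 (c (a (nat_lit 0x1a2f40000000000008)) e e))))))))
 (c (a (nat_lit 0x62e3c60817c8))
 (c z e
 (c z e
 (c z e
 (c z e
 (c z e
 (c (a (nat_lit 0xdd04880000000000a)) e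
 (c (a (nat_lit 0x1d8000000000000008)) e e)))))))
 (c z e
 (c z e
 (c z e
 (c z e
 (c (a (nat_lit 0x1096f6d250356e07)) e
 (c (a (nat_lit 0xaaa88871186e828)) e
 (c (a (nat_lit 0xa28265527e5ca68)) e
 (c (a (nat_lit 0xfccf70af0b4a987)) e
 (c (a (nat_lit 0xe09520c8a200007)) e e)))))))))))
 (c (a (nat_lit 0x1bbb9b9b9393c3))
 (c (a (nat_lit 0x14245061d7067))
 (c (a (nat_lit 0x3c3e28144e72ebc88)) e e)
 (c z e
 (c z e
 (c z e
 (c z e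
 (c (a (nat_lit 0x12cc8b2ab14b0cc8)) e
 (c (a (nat_lit 0x9e907774baa0988)) e
 (c (a (nat_lit 0x927d207c9680768)) e
 (c (a (nat_lit 0x7e825114c056007)) e
 (c (a (nat_lit 0x2d16ae420000007)) e e))))))))))
 (c (a (nat_lit 0x11d1f1ea0a2003))
 (c z e
 (c z e
 (c z e
 (c (a (nat_lit 0xbcfeea8f131a588)) e
 (c (a (nat_lit 0xf2f4ab68e6a4da7)) e
 (c (a (nat_lit 0xcc85eccae8c2d47)) e
 (c (a (nat_lit 0x2b7e6e86d9766a6)) e e)))))))
 (c (a (nat_lit 0x10302e8eac0045))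
 (c (a (nat_lit 0x6ab6a2d1373e7c7)) e
 (c z e
 (c (a (nat_lit 0xe2dcd36d8ec26a8)) e
 (c (a (nat_lit 0xa90f325a5820347)) e
 (c (a (nat_lit 0xc5007cb24898828)) e e)))))
 (c (a (nat_lit 0x141236d0256545))
 (c (a (nat_lit 0x118eb5dc7835b6a7)) e
 (c z e
 (c z e
 (c (a (nat_lit 0x17eb4e4ba7692407)) e e))))
 (c (a (nat_lit 0xff5514e8e4ca6))
 (c (a (nat_lit 0xa325166c7c488e8)) e
 (c (a (nat_lit 0x1130c4c662674ac8)) e
 (c (a (nat_lit 0x12c948a60ae74008)) e e)))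
 (c (a (nat_lit 0x18e8e8c8c2a4a4)) e
 (c (a (nat_lit 0x9a2208041f3e2)) e
 (c (a (nat_lit 0x204041a99c02)) e
 (c (a (nat_lit 0x2022245624)) e
 (c (a (nat_lit 0x810185371804)) e
 (c (a (nat_lit 0xa6fd191b1afc5)) e
 (c (a (nat_lit 0xf3479b99caf65)) e
 (c (a (nat_lit 0xef19190adcc06)) e
 (c (a (nat_lit 0xe4e526feb8585)) e
 (c (a (nat_lit 0xeb2f086000005)) e
 (c (a (nat_lit 0x178aa000000005)) e e))))))))))))))))))
 C122)
 C121)
 (c (nat_lit 1) C119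
 (c (a (nat_lit 0x2001)) C117
 (c (a (nat_lit 0x2021))
 (c (a (nat_lit 0x20404041))
 (c (a (nat_lit 0x176020202004))
 (c (a (nat_lit 0x1eb14b44404c64))
 (c z e
 (c (a (nat_lit 0x1308b0c8cf661287)) e e))
 (c (a (nat_lit 0xfa622602a5186))
 (c (a (nat_lit 0xc0c664eea116c88)) e e)
 (c (a (nat_lit 0x9e3210c93d566)) e
 (c z e
 (c z e
 (c (a (nat_lit 0x1e5cfc3a4f4386)) e
 (c (a (nat_lit 0x16b43922ea8aa7)) e e)))))))
 (c (a (nat_lit 0x1a14100a221))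
 (c (a (nat_lit 0x2604024ebfae7))
 (c (a (nat_lit 0xa075233f6898008)) e e) e)
 (c (a (nat_lit 0x6060b0a1e2)) e
 (c (a (nat_lit 0x1115b5554065)) e
 (c z e
 (c z e
 (c z e
 (c z e
 (c z e
 (c z e
 (c z e
 (c (a (nat_lit 0x114fcd8423a8)) e
 (c (a (nat_lit 0x14a7c0402006)) e
 (c (a (nat_lit 0x1d4200404104)) e
 (c (a (nat_lit 0xc82c1c30001)) e
 (c (a (nat_lit 0x180000001)) e e))))))))))))))))
 (c (a (nat_lit 0x20404041))
 (c (a (nat_lit 0xc0e2e302c1))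
 (c (a (nat_lit 0x20c564965647))
 (c (a (nat_lit 0x42c324ca3400008)) e
 (c (a (nat_lit 0x13ff6f8000000008)) e e))
 (c (a (nat_lit 0x2b8e36f92a48))
 (c (a (nat_lit 0x10eee00000000007)) e e) e))
 (c (a (nat_lit 0x68f12b2cfe6))
 (c (a (nat_lit 0x6412ef665807)) e e)
 (c z e
 (c z e
 (c z e
 (c z e
 (c z e
 (c z e
 (c z e
 (c z e
 (c (a (nat_lit 0x11e9a6c141c8)) e
 (c (a (nat_lit 0x70020a290e6)) e
 (c (a (nat_lit 0x8270f0a6)) e
 (c (b (nat_lit 0x1fe3e1600001)) e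
 (c (a (nat_lit 0x4000000001)) e e)))))))))))))))
 (c (a (nat_lit 0x20404041))
 (c (b (nat_lit 0x1092b2dfffe5))
 (c (a (nat_lit 0xad061aaf04bc6)) e e)
 (c z e
 (c z e
 (c z e
 (c z e
 (c z e
 (c z e
 (c z e
 (c z e
 (c z e
 (c z e
 (c (a (nat_lit 0x12e020202007)) e
 (c (a (nat_lit 0x160000001)) e e)))))))))))))
 (c (a (nat_lit 0x20404021))
 (c z e
 (c z e
 (c z e
 (c z e
 (c z e
 (c z e
 (c z e
 (c z e
 (c z e
 (c (b (nat_lit 0x1ffff360e065)) e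
 (c (b (nat_lit 0x1fed21c00001)) e
 (c (a (nat_lit 0x12c000000005)) e e))))))))))))
 (c (a (nat_lit 0x80e121e1))
 (c (a (nat_lit 0x1069ab0dcc67))
 (c (a (nat_lit 0xf88883b826006)) e
 (c (a (nat_lit 0x4ec1240000008)) e e))
 (c (a (nat_lit 0xe733494d208))
 (c (a (nat_lit 0x17136000000008)) e e)
 (c z e
 (c z e
 (c z e
 (c z e
 (c z e
 (c (b (nat_lit 0xf919fe14028)) e
 (c (a (nat_lit 0x7e131206005)) e
 (c (a (nat_lit 0x1f3b80000003)) e e))))))))))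
 (c (a (nat_lit 0x202041))
 (c (a (nat_lit 0x14d4b5b4d068))
 (c (a (nat_lit 0x1d400000000006)) e e)
 (c z e
 (c z e
 (c z e
 (c z e
 (c z e
 (c (a (nat_lit 0x108f08c77408)) e
 (c (a (nat_lit 0x9daa7e00005)) e
 (c (a (nat_lit 0x1e0000000004)) e e)))))))))
 (c (a (nat_lit 0x20203786))
 (c (a (nat_lit 0x17ce64a80b06)) e
 (c (a (nat_lit 0x7c573d30367)) e
 (c z e
 (c z e
 (c z e
 (c z e
 (c (a (nat_lit 0xc3480000005)) e e)))))))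
 (c (a (nat_lit 0x20393346))
 (c (a (nat_lit 0xced95ac25c7)) e
 (c z e
 (c z e
 (c z e
 (c z e
 (c (a (nat_lit 0x128000000005)) e e))))))
 (c z e
 (c (a (nat_lit 0x135349a028)) e
 (c (a (nat_lit 0x1470e3c026)) e
 (c (a (nat_lit 0x19c0202005)) e
 (c (a (nat_lit 0x40606001)) e
 (c (a (nat_lit 0x100a04001)) e
 (c (a (nat_lit 0xe0a06001)) e
 (c (a (nat_lit 0x22102a041)) e
 (c (a (nat_lit 0xc0e0e041)) e
 (c (a (nat_lit 0x2031e5)) e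
 (c (a (nat_lit 0xfd62a11a7)) e
 (c z e
 (c (a (nat_lit 0xe10e84007)) e
 (c (a (nat_lit 0x1140000006)) e e))))))))))))))))))))))
 C116))))) Tr.c Tr.e (nat_lit 0) C.cx C.cy
noncomputable def C124 : Tr := beta% (fun (c : Nat → Tr → Tr → Tr) (e : Tr) (z : Nat) (a b : Nat → Nat) =>
 (c (a (nat_lit 0x202021))
 (c (a (nat_lit 0x20322466))
 (c (a (nat_lit 0x10306c173a84))
 (c (a (nat_lit 0x14482000000004)) e e)
 (c (a (nat_lit 0x289d1f26ea6)) e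
 (c (a (nat_lit 0xff656538c66)) e
 (c (a (nat_lit 0x15f3e8258507)) e
 (c (a (nat_lit 0x1596c9a98607)) e
 (c (a (nat_lit 0x849530b6048)) e
 (c (a (nat_lit 0x1803a4b20a7)) e
 (c (a (nat_lit 0x28570e00007)) e
 (c (a (nat_lit 0x1ee000000003)) e e)))))))))
 (c (a (nat_lit 0x152118d45))
 (c (a (nat_lit 0x1698dedf126)) e
 (c (a (nat_lit 0x5f0907050c7)) e
 (c (a (nat_lit 0x184ceee909a8)) e
 (c (a (nat_lit 0x1569cd0ca3c8)) e
 (c (a (nat_lit 0x16bd09258008)) e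
 (c (a (nat_lit 0x8175c0f6008)) e
 (c (a (nat_lit 0x30e0000008)) e e)))))))
 (c (a (nat_lit 0xd508d2006))
 (c (a (nat_lit 0x4d030555286)) e
 (c (a (nat_lit 0x487690554c9)) e
 (c (a (nat_lit 0x186e5f42609)) e e)))
 (c (a (nat_lit 0x11be602005))
 (c (a (nat_lit 0x8496a8a10c8)) e
 (c (a (nat_lit 0xbd4716f8fc8)) e e))
 (c (a (nat_lit 0x1080202026))
 (c (a (nat_lit 0x182310f16487)) e
 (c (b (nat_lit 0x1fe690a00007)) e e))
 (c (a (nat_lit 0x60c001))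
 (c (a (nat_lit 0x3820000005)) e e)
 (c (a (nat_lit 0x2030f966)) e
 (c (a (nat_lit 0x2030f585)) e
 (c (a (nat_lit 0x1f20c043)) e
 (c (a (nat_lit 0x6342a441)) e
 (c (a (nat_lit 0xc040a2e1)) e
 (c (a (nat_lit 0x218241)) e
 (c (a (nat_lit 0x40de63)) e
 (c (a (nat_lit 0x14121c2c1)) e
 (c (a (nat_lit 0x40e10021)) e
 (c (a (nat_lit 0x800001)) e e))))))))))))))))
 (c (nat_lit 1)
 (c (a (nat_lit 0x1c4b4143))
 (c (a (nat_lit 0x131303736c5)) e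
 (c (a (nat_lit 0x70c2f707447)) e
 (c (a (nat_lit 0x86c12b2d367)) e
 (c (a (nat_lit 0x389c945b668)) e
 (c (a (nat_lit 0xb8c50e74108)) e
 (c (a (nat_lit 0xbb7f7400007)) e
 (c (a (nat_lit 0x142000000006)) e e)))))))
 (c (a (nat_lit 0x412802005))
 (c (a (nat_lit 0x2830564d129)) e
 (c (a (nat_lit 0x568aa759d29)) e
 (c (a (nat_lit 0x9e93493a6e9)) e
 (c (a (nat_lit 0x1415f2a44009)) e
 (c (a (nat_lit 0x14b760000008)) e e)))))
 (c (a (nat_lit 0x11c0202005))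
 (c (a (nat_lit 0x5c7ea37a9c8)) e e)
 (c (a (nat_lit 0x100808021))
 (c (b (nat_lit 0x1ffe24e30008)) e
 (c (a (nat_lit 0x146380000008)) e e))
 (c (a (nat_lit 0x203105))
 (c (a (nat_lit 0x178000000003)) e e)
 (c (a (nat_lit 0x2037ffa6)) e
 (c (a (nat_lit 0x30747447)) e
 (c (a (nat_lit 0x4b5353506)) e
 (c (a (nat_lit 0x13f4ce2e46)) e
 (c (a (nat_lit 0x1bdbdc9c64)) e
 (c (a (nat_lit 0xc1c081)) e
 (c (a (nat_lit 0x2060bea3)) e
 (c (a (nat_lit 0x807e0003)) e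
 (c (a (nat_lit 0xa08001)) e
 (c (nat_lit 1) e e)))))))))))))))
 (c (nat_lit 1)
 (c (a (nat_lit 0x1721204001))
 (c (a (nat_lit 0x225479cf547)) e
 (c (a (nat_lit 0x324d43406e9)) e
 (c (a (nat_lit 0x432a9c7e1a9)) e
 (c (a (nat_lit 0x102cc3c00009)) e
 (c (a (nat_lit 0x1a8000000007)) e e)))))
 (c (a (nat_lit 0x100206021))
 (c (a (nat_lit 0x41053ac21a9)) e
 (c (a (nat_lit 0x1a3771846009)) e
 (c (a (nat_lit 0x168b80000009)) e e)))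
 (c (a (nat_lit 0x219685))
 (c (a (nat_lit 0x122e44c00008)) e
 (c (a (nat_lit 0x136000000008)) e e))
 (c (a (nat_lit 0x20289026)) e
 (c (a (nat_lit 0x576baba87)) e
 (c z e
 (c (a (nat_lit 0x15150dede6)) e
 (c (a (nat_lit 0x193929a9a5)) e
 (c (a (nat_lit 0xc342c1)) e
 (c (a (nat_lit 0x1c30001)) e
 (c (a (nat_lit 0x1e240e101)) e
 (c (a (nat_lit 0x8120e121)) e
 (c (a (nat_lit 0x1f00200003)) e e)))))))))))))
 (c (a (nat_lit 0x202021))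
 (c (a (nat_lit 0x205104))
 (c (a (nat_lit 0xf546ae4e127)) e
 (c (a (nat_lit 0x167285600008)) e
 (c (a (nat_lit 0x188000000007)) e e)))
 (c (a (nat_lit 0x20289226))
 (c (a (nat_lit 0x10c4e0000008)) e e)
 (c (a (nat_lit 0x65adebea7)) e
 (c z e
 (c (a (nat_lit 0x423a32001)) e
 (c (a (nat_lit 0x1090802005)) e
 (c (a (nat_lit 0x181806001)) e
 (c (a (nat_lit 0x1e100a041)) e
 (c (a (nat_lit 0x100a001)) e
 (c (a (nat_lit 0x60409743)) e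
 (c (a (nat_lit 0x80c001)) e
 (c (a (nat_lit 0x20000001)) e e))))))))))))
 (c (a (nat_lit 0x202021))
 (c (a (nat_lit 0x9cdf1b166))
 (c (a (nat_lit 0x1e0000000004)) e e)
 (c (a (nat_lit 0x15b99975e7)) e
 (c (a (nat_lit 0x11f142e004)) e
 (c (a (nat_lit 0x822a3c001)) e
 (c (a (nat_lit 0x802214001)) e
 (c (a (nat_lit 0x10c0406064)) e
 (c (a (nat_lit 0x9b0b0a8a5)) e
 (c (a (nat_lit 0xd60a03ca4)) e
 (c (a (nat_lit 0x207924)) e
 (c (a (nat_lit 0x60e00001)) e e))))))))))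
 (c (a (nat_lit 0x202021))
 (c (a (nat_lit 0x191918d886)) e
 (c (a (nat_lit 0x1332c0a003)) e
 (c (a (nat_lit 0x362020001)) e
 (c (a (nat_lit 0x240c0c001)) e
 (c (a (nat_lit 0xd0d1832e7)) e
 (c (a (nat_lit 0x16e0604344)) e
 (c (a (nat_lit 0x202035a3)) e
 (c (a (nat_lit 0x159c001)) e
 (c (a (nat_lit 0x20000001)) e e)))))))))
 (c (a (nat_lit 0x202021))
 (c (a (nat_lit 0x40a161)) e
 (c (a (nat_lit 0xa385c1)) e
 (c (a (nat_lit 0x1a7a9ec206)) e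
 (c (a (nat_lit 0x11e1002042)) e
 (c (a (nat_lit 0xa040a181)) e
 (c (a (nat_lit 0x20000021)) e
 (c (a (nat_lit 0x1a0800001)) e e)))))))
 (c (a (nat_lit 0x202021))
 (c (a (nat_lit 0x1456b6caa6)) e
 (c (a (nat_lit 0x4032c4)) e
 (c (a (nat_lit 0x1a16286e1)) e
 (c (a (nat_lit 0x2001)) e
 (c (a (nat_lit 0x202001)) e
 (c (a (nat_lit 0xc0000001)) e e))))))
 (c (a (nat_lit 0x202021))
 (c (a (nat_lit 0x202021)) e
 (c (a (nat_lit 0x40202021)) e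
 (c (a (nat_lit 0x20202021)) e
 (c (a (nat_lit 0x20200001)) e e))))
 (c (a (nat_lit 0x202021))
 (c (a (nat_lit 0x20202021)) e
 (c (a (nat_lit 0x20202001)) e
 (c (a (nat_lit 0x20000001)) e e)))
 (c (a (nat_lit 0x202021))
 (c (a (nat_lit 0x20200001)) e e)
 (c (a (nat_lit 0x202021)) e
 (c (a (nat_lit 0x202021)) e
 (c (a (nat_lit 0x202021)) e
 (c (a (nat_lit 0x404021)) e
 (c (a (nat_lit 0xe1)) e
 (c (a (nat_lit 0x8061)) e
 (c (a (nat_lit 0x2001)) e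
 (c (a (nat_lit 0x2001)) e
 (c (a (nat_lit 0x400001)) e
 (c (a (nat_lit 0x400021)) e
 (c (a (nat_lit 0x2001)) e
 (c (a (nat_lit 0x202021)) e
 (c (a (nat_lit 0x200001)) e e))))))))))))))))))))))))) Tr.c Tr.e (nat_lit 0) C.cx C.cy
noncomputable def C125 : Tr := beta% (fun (c : Nat → Tr → Tr → Tr) (e : Tr) (z : Nat) (a b : Nat → Nat) =>
 (c (a (nat_lit 0x404041))
 (c (a (nat_lit 0x40404041))
 (c (a (nat_lit 0x1656769a7a43))
 (c (a (nat_lit 0xd116530acec25)) e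
 (c (a (nat_lit 0x12220beaac20e7)) e
 (c (a (nat_lit 0x7a083aa0279e6)) e
 (c (a (nat_lit 0x2a5921a8e446)) e
 (c (a (nat_lit 0xeb0e7cb400007)) e e)))))
 (c (a (nat_lit 0x1dfdfdfddda4))
 (c (b (nat_lit 0x3893f591bfe6)) e
 (c (a (nat_lit 0x94188b1652147)) e
 (c (a (nat_lit 0x10d398b02ee008)) e
 (c (a (nat_lit 0x18b58ce0000008)) e e))))
 (c (a (nat_lit 0xb4c0beca001))
 (c (a (nat_lit 0x745a8d149e108)) e
 (c (a (nat_lit 0xc0e1268000009)) e e))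
 (c (a (nat_lit 0x183818206063))
 (c (a (nat_lit 0xbb28560000008)) e e)
 (c (a (nat_lit 0xf0f34b0c766)) e
 (c z e
 (c (a (nat_lit 0x197812b28387)) e
 (c (a (nat_lit 0x1bda5a6d0087)) e
 (c (a (nat_lit 0x129292c02008)) e
 (c (a (nat_lit 0x17d8dd0028e6)) e
 (c (a (nat_lit 0x8a637f7e5)) e
 (c (a (nat_lit 0x260e00001)) e
 (c (a (nat_lit 0x4000000001)) e e)))))))))))))
 (c (a (nat_lit 0x20402021))
 (c (a (nat_lit 0x1b3bbbbba382))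
 (c (a (nat_lit 0x19932e58a6ebc6)) e
 (c (a (nat_lit 0x144c5e10aec4a8)) e
 (c (a (nat_lit 0xc10ef6ec00009)) e
 (c (a (nat_lit 0x12082000000009)) e e))))
 (c (a (nat_lit 0x1c2542001))
 (c (a (nat_lit 0x8589a09e22008)) e
 (c (a (nat_lit 0x1952f0c0000009)) e e))
 (c (a (nat_lit 0xb2b3151e308))
 (c (a (nat_lit 0x1d72e000000008)) e e)
 (c (a (nat_lit 0xf10cfcde8e8)) e
 (c z e
 (c (a (nat_lit 0xf7070ea44e8)) e
 (c (a (nat_lit 0x19b9f7002268)) e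
 (c (a (nat_lit 0x1efeeb4081a8)) e
 (c (a (nat_lit 0xfb12020a868)) e
 (c (a (nat_lit 0xc4e4788006)) e
 (c (a (nat_lit 0x100c0000001)) e e)))))))))))
 (c (a (nat_lit 0x20000001))
 (c (a (nat_lit 0x28f4c8e4))
 (c (a (nat_lit 0xc594382200007)) e
 (c (a (nat_lit 0x16a32000000008)) e e))
 (c (a (nat_lit 0x447fd021a5))
 (c (a (nat_lit 0x17200000000006)) e e)
 (c z e
 (c z e
 (c (a (nat_lit 0x48895b46707)) e
 (c (a (nat_lit 0x153108c0d928)) e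
 (c (a (nat_lit 0x10a7e46a35e8)) e
 (c (a (nat_lit 0x134425252ae8)) e
 (c (a (nat_lit 0x5680600004)) e
 (c (a (nat_lit 0x15e000000004)) e e))))))))))
 (c (a (nat_lit 0x202038a6))
 (c (a (nat_lit 0x10342d2d2007)) e
 (c (a (nat_lit 0x1530d34780a7)) e
 (c z e
 (c (a (nat_lit 0x772d6ae1167)) e
 (c (a (nat_lit 0xd680fffeb08)) e
 (c (a (nat_lit 0x38677100f68)) e
 (c (b (nat_lit 0x1fe5f2320008)) e
 (c (a (nat_lit 0x14eac0000007)) e e))))))))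
 (c (a (nat_lit 0x1cdcc6))
 (c (a (nat_lit 0xeed114ce7c7)) e
 (c z e
 (c z e
 (c (a (nat_lit 0x103cc2359e9)) e
 (c (b (nat_lit 0x1fea0bfdc4a9)) e
 (c z e
 (c (nat_lit 1) e e)))))))
 (c (a (nat_lit 0x3b5d2f2e7)) e
 (c (a (nat_lit 0x14f4f324a7))
 (c (a (nat_lit 0x122e6cd22327)) e
 (c (a (nat_lit 0x11ec31cfeba8)) e
 (c (a (nat_lit 0x17582c000007)) e e)))
 (c (a (nat_lit 0x1595802006))
 (c (a (nat_lit 0xb4d9940006)) e
 (c (a (nat_lit 0x25a40000003)) e e))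
 (c (a (nat_lit 0x14a0202006))
 (c (nat_lit 1) e e)
 (c (a (nat_lit 0x6060a201)) e
 (c (a (nat_lit 0x610001)) e
 (c (a (nat_lit 0x1c04321)) e
 (c (a (nat_lit 0x17a0608043)) e
 (c (a (nat_lit 0x161004081)) e
 (c (a (nat_lit 0xa0806001)) e
 (c (a (nat_lit 0xa0c02001)) e
 (c (a (nat_lit 0x1a0a0a081)) e
 (c (a (nat_lit 0x1780208003)) e
 (c (a (nat_lit 0x1940a00003)) e e)))))))))))))))))))
 (c (a (nat_lit 0x202021))
 (c (a (nat_lit 0x2001))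
 (c (a (nat_lit 0x14161a181e1))
 (c (a (nat_lit 0xb87ccd508e026)) e
 (c (a (nat_lit 0x64fb6cd824007)) e
 (c (a (nat_lit 0x167d9020000007)) e
 (c (a (nat_lit 0x18000000000007)) e e))))
 (c (a (nat_lit 0x40bf1fe0c2))
 (c (a (nat_lit 0x14d09ee7600007)) e
 (c (a (nat_lit 0x15f54000000008)) e e))
 (c (a (nat_lit 0xb0b0fd045e7))
 (c (a (nat_lit 0x15000000000007)) e e)
 (c (a (nat_lit 0x145713d3d348)) e
 (c (a (nat_lit 0xd2d506f6ac9)) e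
 (c (a (nat_lit 0x1739fe46a586)) e
 (c (a (nat_lit 0xeb02043d907)) e
 (c (a (nat_lit 0xb4020803108)) e
 (c (a (nat_lit 0x13e0804033c7)) e
 (c (a (nat_lit 0x1c42000001)) e
 (c (a (nat_lit 0x1c000000001)) e e)))))))))))
 (c (a (nat_lit 0x20203c47))
 (c (a (nat_lit 0x1037d85b4045))
 (c (a (nat_lit 0x7d10540000007)) e
 (c (a (nat_lit 0x1c000000000007)) e e))
 (c (b (nat_lit 0x123272cf5fe7)) e
 (c z e
 (c (a (nat_lit 0xd33926b6ce9)) e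
 (c (a (nat_lit 0x58b8652066)) e
 (c (a (nat_lit 0x1103c3f7c028)) e
 (c (a (nat_lit 0xa61845f4048)) e
 (c (a (nat_lit 0x14030b26007)) e
 (c (a (nat_lit 0x3d380000001)) e e)))))))))
 (c (a (nat_lit 0x20334c27))
 (c (a (nat_lit 0x10d39548a087)) e
 (c (b (nat_lit 0x17776f5fe6e7)) e
 (c z e
 (c (a (nat_lit 0x13d0cd564f47)) e
 (c (a (nat_lit 0x113fcbac48)) e
 (c (a (nat_lit 0x2c8fbce81c8)) e
 (c (b (nat_lit 0x1ff6db200008)) e
 (c (a (nat_lit 0x1ac000000006)) e e))))))))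
 (c (a (nat_lit 0xcd7f7f728))
 (c (a (nat_lit 0x15996eb25867)) e
 (c z e
 (c z e
 (c (a (nat_lit 0x4864550274a)) e
 (c (a (nat_lit 0x4ca9587800a)) e e)))))
 (c (a (nat_lit 0x1393b3cf29))
 (c (a (nat_lit 0x1b5a9ab6c068)) e
 (c (a (nat_lit 0xf109064d089)) e e))
 (c (a (nat_lit 0x1292a02026))
 (c (a (nat_lit 0xc7daf822907)) e
 (c (a (nat_lit 0xe31b62c6007)) e
 (c (a (nat_lit 0x1e8c80000007)) e e)))
 (c (a (nat_lit 0x1480202026))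
 (c (a (nat_lit 0x25b0400005)) e
 (c (a (nat_lit 0x19e000000003)) e e))
 (c (a (nat_lit 0x60a061)) e
 (c (a (nat_lit 0x403f63)) e
 (c (a (nat_lit 0x11efa04344)) e
 (c (a (nat_lit 0xc0a10001)) e
 (c (a (nat_lit 0x200e0a181)) e
 (c (a (nat_lit 0x806001)) e
 (c (a (nat_lit 0x208001)) e
 (c (a (nat_lit 0x8060c041)) e
 (c (a (nat_lit 0x606121a1)) e
 (c (a (nat_lit 0xc08001)) e
 (c (a (nat_lit 0x80000001)) e e))))))))))))))))))
 C124))) Tr.c Tr.e (nat_lit 0) C.cx C.cy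

end Pool.Agent.Work.MP_82fd4a_nt.P.H
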