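import Pool.Agent.Work.MP_82fd4a_nt.P.Dx

set_option autoImplicit false
set_option linter.all false
set_option maxRecDepth 100000

namespace Pool.Agent.Work.MP_82fd4a_nt.P.H
open Y Y.Tr

noncomputable def C639 : Tr := beta% (fun (c : Nat → Tr → Tr → Tr) (e : Tr) (z : Nat) (a b : Nat → Nat) =>
 (c (a (nat_lit 0x2020204001))
 (c (a (nat_lit 0x202020203b86))
 (c (a (nat_lit 0x1810204222461085))
 (c z e
 (c z e
 (c z e
 (c z e
 (c (a (nat_lit 0x1155316aa4a9948788)) e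
 (c (a (nat_lit 0xcccaea20a30ea2867)) e e))))))
 (c z e
 (c z e
 (c z e
 (c (a (nat_lit 0x55352afe5618246))
 (c z e
 (c (a (nat_lit 0x8928b2a4a2b800009)) e e))
 (c (a (nat_lit 0x5f2752c83f961e5)) e
 (c z e
 (c z e
 (c z e
 (c (a (nat_lit 0x19763412eef1d467)) e
 (c (a (nat_lit 0x3e44d8c465208c7)) e e)))))))))))
 (c (a (nat_lit 0x2020203e0c27)) e
 (c (a (nat_lit 0x202033472708)) e
 (c (a (nat_lit 0x20213a726c5e8)) e
 (c (a (nat_lit 0x212c788e84128))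
 (c z e
 (c (a (nat_lit 0x2f20d53379c9ac8)) e
 (c z e
 (c z e
 (c z e
 (c z e
 (c (a (nat_lit 0x1a78f055da8b2008)) e e)))))))
 (c (a (nat_lit 0x154b6a676027e7))
 (c (a (nat_lit 0x2eb793756f299c6)) e
 (c z e
 (c z e
 (c z e
 (c (a (nat_lit 0x14cabb3c063f47c7)) e
 (c (a (nat_lit 0x4e99609e9600008)) e e))))))
 (c z e
 (c z e
 (c z e
 (c (a (nat_lit 0x9934fc4c56187)) e
 (c (a (nat_lit 0x1854caeae14487)) e
 (c z e
 (c z e
 (c z e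
 (c z e
 (c (a (nat_lit 0x556e6ac0da825)) e
 (c (a (nat_lit 0x1322e869e48745)) e
 (c (a (nat_lit 0xdf3930cefca25)) e e))))))))))))))))))
 (c (a (nat_lit 0x2020202021))
 (c (a (nat_lit 0x202035882a66)) e
 (c (a (nat_lit 0x4041c6ced8da7)) e e))
 (c (a (nat_lit 0x2020202021))
 (c (a (nat_lit 0x296abebebabc6))
 (c z e
 (c z e
 (c z e
 (c z e
 (c (a (nat_lit 0x7f3b1b2d37b98c7)) e e)))))
 (c (a (nat_lit 0x15c6e827274e07))
 (c (a (nat_lit 0x113a6a3c1222d88))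
 (c (a (nat_lit 0x135ad5850b48c00006)) e e)
 (c z e
 (c z e
 (c z e
 (c z e
 (c (a (nat_lit 0x7a94dae98fa2969)) e e))))))
 (c z e
 (c z e
 (c z e
 (c (a (nat_lit 0x9b0b061602126)) e
 (c (a (nat_lit 0x1f166100a14e65))
 (c (a (nat_lit 0x1ed17574a0000007)) e e)
 (c z e
 (c z e
 (c z e
 (c (a (nat_lit 0x2a67134dce7)) e
 (c (a (nat_lit 0x27a6aad92106)) e
 (c z e
 (c z e
 (c z e
 (c (a (nat_lit 0x1860e220200006)) e
 (c (a (nat_lit 0x156f8000000003)) e e)))))))))))))))))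
 (c (nat_lit 1)
 (c (b (nat_lit 0x1fffe040773725))
 (c (a (nat_lit 0x12f3e24284230126)) e
 (c z e
 (c z e
 (c z e
 (c (a (nat_lit 0x2f0142b62042c6)) e
 (c (a (nat_lit 0x10c489653eb0967)) e e))))))
 (c z e
 (c z e
 (c z e
 (c (a (nat_lit 0xf1020806163e6))
 (c (a (nat_lit 0x1d98476f1409e008)) e
 (c (a (nat_lit 0xbee326dc0000008)) e e))
 (c (a (nat_lit 0x10a545505436a6))
 (c (a (nat_lit 0x188c4dc000000006)) e e)
 (c z e
 (c z e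
 (c (a (nat_lit 0x8736feac6e026)) e
 (c (a (nat_lit 0x728062c8db2e8)) e
 (c (a (nat_lit 0x520e2c4f30927)) e
 (c z e
 (c z e
 (c (a (nat_lit 0x6142441e1c007)) e
 (c (a (nat_lit 0x1282a020000007)) e
 (c (a (nat_lit 0x13a00000000004)) e e))))))))))))))))
 (c (a (nat_lit 0x4040202021))
 (c z e
 (c (a (nat_lit 0x24c93e5c06286))
 (c (a (nat_lit 0x6a80ecfc0905a07)) e e)
 (c z e
 (c z e
 (c z e
 (c z e
 (c (b (nat_lit 0xcb14d7fe62407)) e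
 (c z e
 (c z e
 (c z e
 (c z e
 (c (a (nat_lit 0x70f125615ebe7)) e
 (c (a (nat_lit 0xd50942a200007)) e
 (c (a (nat_lit 0x108a2000000007)) e e))))))))))))))
 (c (a (nat_lit 0x1e1e1e1e1e1))
 (c (a (nat_lit 0xcb6212086e4e4))
 (c (a (nat_lit 0x3454c40f1030a06)) e
 (c (a (nat_lit 0x4f40133e7e64507)) e e))
 (c (a (nat_lit 0x11c0e20a08e585))
 (c (b (nat_lit 0xe4697ac7fe602e7)) e e)
 (c z e
 (c z e
 (c (a (nat_lit 0x1072128b20c246)) e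
 (c (a (nat_lit 0x179d17350b20a6)) e
 (c z e
 (c z e
 (c z e
 (c z e
 (c (a (nat_lit 0xcf11cf4898005)) e e)))))))))))
 (c (a (nat_lit 0x2001))
 (c (a (nat_lit 0x7678cd40e8c44))
 (c (b (nat_lit 0xbb28a3fe8226006)) e e)
 (c z e
 (c z e
 (c (a (nat_lit 0x15565007a40826)) e
 (c (a (nat_lit 0x10f151cd06a907)) e e)))))
 (c (a (nat_lit 0xc0c0a0c0c1))
 (c (a (nat_lit 0x16959385202004)) e
 (c (a (nat_lit 0x10b36b00408706)) e
 (c z e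
 (c z e
 (c z e
 (c (b (nat_lit 0x1fe2a22dd01ce7)) e
 (c (a (nat_lit 0x13918a2c7ff865)) e e)))))))
 (c (a (nat_lit 0x40606001))
 (c (a (nat_lit 0x196fefa7cc07a5)) e
 (c z e
 (c z e
 (c (a (nat_lit 0xa68b69493507)) e
 (c (a (nat_lit 0x4c828cdd255c7)) e
 (c (a (nat_lit 0xfed53d98ce9c5)) e e))))))
 (c (a (nat_lit 0xe0e10100e1))
 (c z e
 (c (a (nat_lit 0xbb39005605b26)) e e))
 (c (a (nat_lit 0x402001))
 (c (a (nat_lit 0x3060746649247)) e e)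
 (c (a (nat_lit 0x20203c22))
 (c z e
 (c (a (nat_lit 0x8c7cc119ae008)) e
 (c (a (nat_lit 0xcb4cb00000007)) e
 (c (a (nat_lit 0x13800000000006)) e e))))
 (c (a (nat_lit 0x8e561))
 (c (a (nat_lit 0xecf32b4400008)) e
 (c (a (nat_lit 0x1f36a000000006)) e e))
 (c (a (nat_lit 0x203cfc9164)) e
 (c (a (nat_lit 0x1a9a8f82e4)) e
 (c (a (nat_lit 0x17d7ecc06024)) e
 (c (a (nat_lit 0x178c60403004)) e
 (c (a (nat_lit 0xce0a070b324)) e
 (c (a (nat_lit 0xcecd4964c05)) e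
 (c z e
 (c (a (nat_lit 0x149863a36364)) e
 (c (a (nat_lit 0x150040406c64)) e
 (c (a (nat_lit 0x404118dc23)) e e)))))))))))))))))))))))) Tr.c Tr.e (nat_lit 0) C.cx C.cy
noncomputable def C640 : Tr := beta% (fun (c : Nat → Tr → Tr → Tr) (e : Tr) (z : Nat) (a b : Nat → Nat) =>
 (c (a (nat_lit 0x4040204041))
 (c (a (nat_lit 0x262776eabcba6))
 (c (a (nat_lit 0x906b099b70b6f65)) e
 (c z e
 (c z e
 (c (b (nat_lit 0x9928e2852dfef06)) e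
 (c (a (nat_lit 0x7a46d4b876c94c7)) e
 (c z e
 (c z e
 (c (a (nat_lit 0x60209a830a8e988)) e
 (c (b (nat_lit 0x667e804adf09fe8)) e e)))))))))
 (c (a (nat_lit 0x2108a49268388))
 (c (a (nat_lit 0xa0bda2c08ca0d48))
 (c (a (nat_lit 0x82b70c9cac7c40008)) e e)
 (c z e
 (c z e
 (c z e
 (c z e
 (c (a (nat_lit 0xb48c88b30909469)) e e))))))
 (c z e
 (c (a (nat_lit 0x148f6de1f26c26))
 (c z e
 (c (a (nat_lit 0x3424405e617ae09)) e
 (c z e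
 (c z e
 (c z e
 (c (a (nat_lit 0x2b2cbc5a0000009)) e e))))))
 (c (b (nat_lit 0x18b74b7d31ffe6))
 (c (a (nat_lit 0x1c304a335747228)) e
 (c z e
 (c z e
 (c (a (nat_lit 0xc5a9295a9a00009)) e
 (c (a (nat_lit 0x1b97e98000000009)) e e)))))
 (c z e
 (c (a (nat_lit 0xd158e6120e786))
 (c (a (nat_lit 0x162f6e2fa7e00008)) e e)
 (c (a (nat_lit 0x1df6ea3150b426)) e
 (c (a (nat_lit 0x13cd51edee4927)) e
 (c z e
 (c (a (nat_lit 0x672526e3271c6)) e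
 (c (a (nat_lit 0xb6ca56e2cf625)) e
 (c (a (nat_lit 0xf67d0afd91085)) e
 (c (a (nat_lit 0x8d17098b03025)) e
 (c z e
 (c (a (nat_lit 0x5d8e828880004)) e
 (c (a (nat_lit 0x1180e080000004)) e e)))))))))))))))))
 (c (a (nat_lit 0x4040204041))
 (c (a (nat_lit 0x150ceba6c6c5e7))
 (c (a (nat_lit 0xd5528e64141ca66)) e
 (c z e
 (c z e
 (c z e
 (c (a (nat_lit 0x4c3e6474a537388)) e
 (c (a (nat_lit 0x483ea69d41b13e8)) e e))))))
 (c z e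
 (c z e
 (c z e
 (c (a (nat_lit 0x9d49661e0c326))
 (c (a (nat_lit 0x6fb186bd4b266e8)) e
 (c (a (nat_lit 0xe8e5270aa600009)) e e))
 (c (a (nat_lit 0x12ade086ab5946))
 (c (a (nat_lit 0x125669e820000008)) e e)
 (c z e
 (c z e
 (c z e
 (c (a (nat_lit 0x2b593b4ecb905)) e
 (c (a (nat_lit 0x19d7d954f9b105)) e
 (c (a (nat_lit 0xeafcdb08b4826)) e
 (c z e
 (c (a (nat_lit 0xa3086c0c30045)) e
 (c (a (nat_lit 0x12e92302c00005)) e
 (c (a (nat_lit 0x1aa14000000003)) e e))))))))))))))))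
 (c (a (nat_lit 0x6080608081))
 (c z e
 (c z e
 (c z e
 (c z e
 (c (a (nat_lit 0x1a2a97972e4686))
 (c (a (nat_lit 0x112d454000000008)) e e)
 (c z e
 (c z e
 (c (a (nat_lit 0x1654ed8e2c51c6)) e
 (c (a (nat_lit 0x11d1d2b1b36c27)) e
 (c z e
 (c z e
 (c z e
 (c (a (nat_lit 0xc0effe4f6005)) e
 (c (a (nat_lit 0x3dfdc0000004)) e e))))))))))))))
 (c (a (nat_lit 0x20002001))
 (c (a (nat_lit 0xdebfc6a52004))
 (c (a (nat_lit 0x83ab3e935bbbe5)) e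
 (c (a (nat_lit 0x2257f467392a627)) e e))
 (c (a (nat_lit 0x1dff09ace6a445))
 (c (a (nat_lit 0xa3f0bfb756dcb07)) e e)
 (c z e
 (c z e
 (c (a (nat_lit 0xffd7d34a5a345)) e
 (c (a (nat_lit 0x161730afa1a005)) e
 (c z e
 (c z e
 (c z e
 (c (a (nat_lit 0x152ce23f32e45)) e
 (c (a (nat_lit 0x186de11f95f084)) e e)))))))))))
 (c (a (nat_lit 0x1c1c1a1c1c1))
 (c (b (nat_lit 0x15c4a7c3e5ffe4))
 (c (a (nat_lit 0xceb132847a5a326)) e e)
 (c z e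
 (c z e
 (c (a (nat_lit 0x199bf304e31305)) e
 (c (a (nat_lit 0x1b3c3d36af0dc6)) e
 (c z e
 (c z e
 (c (a (nat_lit 0x4b26f4dcc2ae5)) e
 (c (a (nat_lit 0x19f2f0145212a4)) e
 (c (a (nat_lit 0x15c6dacea8c001)) e e))))))))))
 (c (a (nat_lit 0x4040204041))
 (c (a (nat_lit 0x1993938587e744)) e
 (c (a (nat_lit 0x12944c20e0cc45)) e
 (c (a (nat_lit 0xf2b8d2bb2aac6)) e
 (c z e
 (c z e
 (c (b (nat_lit 0x1fe582028071a6)) e
 (c (a (nat_lit 0x158eb04e2c7805)) e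
 (c (a (nat_lit 0x4aaa662da4a04)) e e))))))))
 (c (a (nat_lit 0x60406001))
 (c (a (nat_lit 0x1652d1b1583c24)) e
 (c z e
 (c z e
 (c (a (nat_lit 0x105ac89c95127)) e
 (c (a (nat_lit 0x5d030b0ef5e86)) e
 (c (a (nat_lit 0x137477b7539145)) e e))))))
 (c (a (nat_lit 0x4040204041))
 (c z e
 (c (a (nat_lit 0x1195f5100057a6)) e
 (c (a (nat_lit 0x98db10dacbbe7)) e
 (c z e
 (c z e
 (c (b (nat_lit 0x1fe034c2800006)) e
 (c (a (nat_lit 0xff24000000006)) e e)))))))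
 (c (a (nat_lit 0x2020204041))
 (c (a (nat_lit 0x42c2fb0ae1ca6)) e
 (c z e
 (c z e
 (c (a (nat_lit 0x7874f12246006)) e
 (c (a (nat_lit 0x1219ed80000006)) e
 (c (a (nat_lit 0x19000000000005)) e e))))))
 (c (a (nat_lit 0x2020002021))
 (c z e
 (c (a (nat_lit 0x383a365718e69)) e
 (c (a (nat_lit 0x1534d89b200008)) e
 (c (a (nat_lit 0x11e04000000004)) e e))))
 (c (a (nat_lit 0x20003022))
 (c (a (nat_lit 0x1292d2f538c008)) e
 (c (a (nat_lit 0x1f206040000004)) e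
 (c (a (nat_lit 0x1000000000001)) e e)))
 (c (a (nat_lit 0x20203017a5)) e
 (c (a (nat_lit 0x2ff78a25)) e
 (c (a (nat_lit 0xe7749e2e5)) e
 (c (a (nat_lit 0xb5426c02005)) e
 (c (a (nat_lit 0x144740403245)) e
 (c (a (nat_lit 0x76040528e45)) e
 (c (a (nat_lit 0x9297bb78885)) e
 (c z e
 (c (a (nat_lit 0x130f00404225)) e
 (c (b (nat_lit 0x1de040449fe4)) e
 (c (b (nat_lit 0x78756ffffe2)) e e))))))))))))))))))))))) Tr.c Tr.e (nat_lit 0) C.cx C.cy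
noncomputable def C641 : Tr := beta% (fun (c : Nat → Tr → Tr → Tr) (e : Tr) (z : Nat) (a b : Nat → Nat) =>
 (c (a (nat_lit 0x4040202021))
 (c z
 (c (a (nat_lit 0xff0cc852505c1e5))
 (c z e
 (c z e
 (c z e
 (c (a (nat_lit 0xe0bec0d2eb08e43e8)) e
 (c (a (nat_lit 0x508ca7395b4ec4888)) e
 (c z e
 (c z e
 (c (a (nat_lit 0xc382610135c06568)) e
 (c (a (nat_lit 0x46564453ec7882348)) e
 (c (a (nat_lit 0x8a9475f0e4c87e407)) e e))))))))))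
 (c z e
 (c z e
 (c (a (nat_lit 0x138c68a1c089bd65))
 (c z e
 (c (a (nat_lit 0x1574b22b0de8faab29)) e
 (c z e
 (c z e
 (c z e
 (c z e
 (c (a (nat_lit 0x1689cb8bcb60000008)) e e)))))))
 (c (a (nat_lit 0x584c140847190a6))
 (c (a (nat_lit 0x15d7abe8828ec962a8)) e
 (c z e
 (c z e
 (c z e
 (c (a (nat_lit 0x17038547c786800009)) e e)))))
 (c z e
 (c z e
 (c z e
 (c (a (nat_lit 0xfccaf2be6afd026)) e
 (c (a (nat_lit 0x14bb77bb12d2a406)) e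
 (c z e
 (c z e
 (c z e
 (c (a (nat_lit 0x86b0e72732dd1a7)) e
 (c (a (nat_lit 0x1fe6486cc9512025)) e e)))))))))))))))
 (c z e
 (c z e
 (c (a (nat_lit 0x202020203c07))
 (c z e
 (c (a (nat_lit 0x24e94947e711a8))
 (c (a (nat_lit 0xccbb72c8705e822ea)) e e)
 (c z e
 (c z e
 (c z e
 (c z e
 (c (a (nat_lit 0x17f2aef2d6926587)) e
 (c z e
 (c z e
 (c z e
 (c (a (nat_lit 0x200824485d4e009)) e
 (c (a (nat_lit 0x186e3e61e0000006)) e e))))))))))))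
 (c (a (nat_lit 0x2020203164a8))
 (c (a (nat_lit 0x7cdea63632476c7))
 (c (a (nat_lit 0x8b7ed44c2a641a0e8)) e
 (c (a (nat_lit 0x1f0703c3a8e3e1c289)) e e))
 (c z e
 (c z e
 (c z e
 (c (a (nat_lit 0x6844cf5d3b0f3e8)) e
 (c (a (nat_lit 0x2961cdd3f3b95a7)) e
 (c z e
 (c z e
 (c z e
 (c (a (nat_lit 0x306e48717e00009)) e
 (c (a (nat_lit 0x1af0a42000000007)) e e)))))))))))
 (c (a (nat_lit 0x20203322a208)) e
 (c (a (nat_lit 0x42433a9872567)) e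
 (c z e
 (c (a (nat_lit 0x12658301c1c847))
 (c (a (nat_lit 0x22202a341d12929)) e
 (c (a (nat_lit 0x2440742f8e469e9)) e e))
 (c (a (nat_lit 0xc02c1011a37c5))
 (c (a (nat_lit 0x62a87f305a661c8)) e e)
 (c z e
 (c z e
 (c (a (nat_lit 0x431b16eeed107)) e
 (c (a (nat_lit 0x19b9781b999627)) e
 (c (a (nat_lit 0x1261016bd0fde4)) e
 (c z e
 (c z e
 (c (a (nat_lit 0x1556ff20c0c1a5)) e
 (c (a (nat_lit 0x16bee080a1a7e5)) e
 (c (a (nat_lit 0x13c48485282146)) e e))))))))))))))))))))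
 (c (a (nat_lit 0x6060406061))
 (c z
 (c (a (nat_lit 0x1699d12042a31be5)) e e)
 (c (a (nat_lit 0x202020203ec7)) e
 (c (a (nat_lit 0x2020203e8b87))
 (c z e
 (c z e
 (c z e
 (c z e
 (c z e
 (c z e
 (c (a (nat_lit 0xaa55638379f7987)) e e)))))))
 (c (a (nat_lit 0x2020348b8a28)) e
 (c (a (nat_lit 0x203687682648)) e
 (c z e
 (c z e
 (c z e
 (c z e
 (c z e
 (c z e
 (c (a (nat_lit 0x19d4c9ea2bcf27)) e e))))))))))))
 (c (a (nat_lit 0x6060406061))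
 (c (a (nat_lit 0x2020364a46))
 (c z e
 (c (b (nat_lit 0x25b6567b3fe4c6))
 (c (a (nat_lit 0x12f18d118966a723a9)) e
 (c z e
 (c z e
 (c z e
 (c (a (nat_lit 0x12f4b0890840000008)) e e)))))
 (c z e
 (c z e
 (c z e
 (c (a (nat_lit 0xb68aaececee18c7)) e
 (c z e
 (c z e
 (c z e
 (c (a (nat_lit 0x96948f0b0053428)) e e))))))))))
 (c (a (nat_lit 0x20203cb210c7))
 (c (a (nat_lit 0x64fec337911b046))
 (c (a (nat_lit 0x18d0d32c690b070a68)) e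
 (c z e
 (c z e
 (c z e
 (c (a (nat_lit 0x1bd3102ca000000007)) e e)))))
 (c z e
 (c z e
 (c z e
 (c (a (nat_lit 0x8628cf18dafabc8)) e
 (c z e
 (c z e
 (c z e
 (c (a (nat_lit 0x7e7298d66d429c9)) e e)))))))))
 (c (a (nat_lit 0x202144d2c4728)) e
 (c z e
 (c z e
 (c (a (nat_lit 0x1511b12511eee6))
 (c (a (nat_lit 0x84c01860cfe2ea7)) e
 (c z e
 (c z e
 (c z e
 (c (a (nat_lit 0x5972b8820000009)) e e)))))
 (c z e
 (c z e
 (c z e
 (c (a (nat_lit 0x13b2aaf1290da7)) e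
 (c z e
 (c z e
 (c z e
 (c (b (nat_lit 0x1ffbc923272425)) e
 (c (a (nat_lit 0x19a6e0c4824665)) e
 (c z e
 (c z e
 (c (a (nat_lit 0x126400c0600003)) e
 (c (a (nat_lit 0xca12000000001)) e e)))))))))))))))))))
 C640)))) Tr.c Tr.e (nat_lit 0) C.cx C.cy
noncomputable def C642 : Tr := beta% (fun (c : Nat → Tr → Tr → Tr) (e : Tr) (z : Nat) (a b : Nat → Nat) =>
 (c z
 (c (a (nat_lit 0x9a9a6110fe9e9a4))
 (c z e
 (c z e
 (c z e
 (c z e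
 (c z e
 (c z e
 (c z e
 (c z e
 (c z e
 (c (a (nat_lit 0x12243e6c24282f1e6)) e
 (c (a (nat_lit 0x4e5e525e50396c6c6)) e e)))))))))))
 (c (a (nat_lit 0x33be9b66240c84))
 (c (a (nat_lit 0x5cea5073914b61426)) e
 (c z e
 (c z e
 (c z e
 (c (a (nat_lit 0xacb6a6a16193ed907)) e
 (c z e
 (c z e
 (c (a (nat_lit 0x2022282e1a1a19248)) e
 (c (a (nat_lit 0x2222501a1e374a368)) e
 (c (a (nat_lit 0x28322016254e2e188)) e e))))))))))
 (c (a (nat_lit 0x11f5d52b4668e766)) e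
 (c (a (nat_lit 0x12b1adc484e42165))
 (c z e
 (c (a (nat_lit 0xf8a547b7c326f5a87)) e
 (c z e
 (c z e
 (c (a (nat_lit 0x10764d0d4cb18c8b06)) e
 (c (a (nat_lit 0x16a68507acd8ee37e6)) e
 (c z e
 (c z e
 (c z e
 (c (a (nat_lit 0x18132eb0c000000007)) e e))))))))))
 (c (a (nat_lit 0x13cf48cae2c08085))
 (c z e
 (c z e
 (c (a (nat_lit 0x9b4945c35eb625667)) e
 (c (a (nat_lit 0x14ce250eb3dd392f86)) e
 (c (a (nat_lit 0x8250909170e8fb067)) e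
 (c z e
 (c z e
 (c (a (nat_lit 0x665d4e84420000007)) e
 (c (a (nat_lit 0xcf0ec000000000007)) e e)))))))))
 (c (a (nat_lit 0x62b6ecd80e0bc64))
 (c (a (nat_lit 0x4e7690665e64cb088)) e
 (c z e
 (c z e
 (c z e
 (c (a (nat_lit 0x1407066c229872288)) e
 (c (a (nat_lit 0x3067262425e00008)) e e))))))
 (c (a (nat_lit 0xaca8baa6f9ac185)) e
 (c (a (nat_lit 0x8e9a9acbea54064))
 (c z e
 (c (a (nat_lit 0x5d4d36b4a49290626)) e
 (c (a (nat_lit 0x100a258669a3c00007)) e e)))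
 (c (a (nat_lit 0x2e384f044214065)) e
 (c (a (nat_lit 0x6c811a6e423e425)) e
 (c (a (nat_lit 0xe19ceee2848a285)) e
 (c (a (nat_lit 0x1fb2f44eedc8e465)) e
 (c (a (nat_lit 0x187b9c9603030225)) e
 (c z e
 (c (a (nat_lit 0xaaa01e18147f464)) e
 (c (a (nat_lit 0x13a3830210c0e383)) e e))))))))))))))))
 (c z
 (c (a (nat_lit 0x1db5740641e84665))
 (c z e
 (c z e
 (c z e
 (c z e
 (c (a (nat_lit 0xba80b72f3771bcdc8)) e
 (c (a (nat_lit 0x181a288c6b1e10089)) e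
 (c z e
 (c z e
 (c (a (nat_lit 0x1e2a321c354e403c9)) e
 (c (a (nat_lit 0x4658305772623a228)) e e))))))))))
 (c z e
 (c z e
 (c (a (nat_lit 0x11700b0720e09325))
 (c z e
 (c z e
 (c z e
 (c z e
 (c z e
 (c z e
 (c (b (nat_lit 0x1f82affef2c200008)) e e)))))))
 (c (a (nat_lit 0x2644420333baa5))
 (c (a (nat_lit 0x17f7f5cb102b984e28)) e
 (c (a (nat_lit 0x830e547d66c81822a)) e
 (c z e
 (c z e
 (c (a (nat_lit 0x65b66866eeba8a009)) e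
 (c (a (nat_lit 0x1b4601c89140000007)) e e))))))
 (c z e
 (c z e
 (c z e
 (c (a (nat_lit 0x16bd58367ebcd0e5)) e
 (c (a (nat_lit 0x13305431ac24a5c6)) e
 (c z e
 (c z e
 (c z e
 (c (a (nat_lit 0x18cf5b1cb875bc66)) e
 (c (a (nat_lit 0x1f9dad47460b8dc4)) e e)))))))))))))))
 (c z e
 (c z
 (c (a (nat_lit 0x766a640620210a6))
 (c z e
 (c (a (nat_lit 0xc4be76b900eeb2889)) e
 (c (a (nat_lit 0x11e98e2cda0f818048)) e
 (c z e
 (c z e
 (c (a (nat_lit 0xef1388ed10f280528)) e e))))))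
 (c (a (nat_lit 0xe0ac081e5fa0d46))
 (c (a (nat_lit 0x156f50fe1ed1f1e528)) e
 (c z e
 (c z e
 (c z e
 (c (a (nat_lit 0xd77cc2cac4442c2c9)) e e)))))
 (c z e
 (c z e
 (c z e
 (c (a (nat_lit 0x4ec46a502fae86))
 (c (a (nat_lit 0x1cb4262b2000000006)) e e)
 (c z e
 (c z e
 (c z e
 (c (a (nat_lit 0x15935c3e5b523466)) e
 (c (b (nat_lit 0x3c93ffff0684b27)) e
 (c z e
 (c z e
 (c (a (nat_lit 0x112c6200c0000005)) e
 (c (a (nat_lit 0x1942a00000000004)) e e)))))))))))))))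
 (c z
 (c (a (nat_lit 0x860206fd2c7b3c5))
 (c z e
 (c z e
 (c z e
 (c (a (nat_lit 0xead14e9cb45652de8)) e
 (c (a (nat_lit 0x16558db30b8b248008)) e e)))))
 (c z e
 (c (a (nat_lit 0x17152fe42b045845)) e
 (c (a (nat_lit 0xb3004531237f185))
 (c z e
 (c (a (nat_lit 0x1a8cf30a4000000008)) e e))
 (c (a (nat_lit 0x9c3298bcbea14e6)) e
 (c z e
 (c (a (nat_lit 0x56588697072a726)) e
 (c (a (nat_lit 0x112f0eb5b085db86)) e
 (c (a (nat_lit 0x3a871b02c8b29e7)) e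
 (c z e
 (c (a (nat_lit 0x2e3c264c6895bc8)) e
 (c (a (nat_lit 0x108ac88e47000006)) e
 (c (a (nat_lit 0x16114e6000000005)) e e)))))))))))))
 (c (a (nat_lit 0x202020203f46))
 (c (a (nat_lit 0xf4bb6f797759ae6))
 (c (a (nat_lit 0x9b3760d47e8c826c8)) e e)
 (c z e
 (c z e
 (c z e
 (c (a (nat_lit 0xd2c11abb1343e06)) e
 (c (a (nat_lit 0xd169373d6190d06)) e
 (c z e
 (c z e
 (c z e
 (c (a (nat_lit 0x464a505e6b18009)) e
 (c (a (nat_lit 0x1184c80240000006)) e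
 (c (a (nat_lit 0x1ff7000000000004)) e e))))))))))))
 (c (a (nat_lit 0x2020203161e7)) e
 (c (a (nat_lit 0x20203c2da525))
 (c z e
 (c (a (nat_lit 0x10545b156c88b06)) e
 (c z e
 (c z e
 (c z e
 (c (a (nat_lit 0x5a2e6a68a1085a8)) e e))))))
 (c (a (nat_lit 0x38dd2cc584))
 (c (a (nat_lit 0xc24dbda73217e4)) e
 (c z e
 (c z e
 (c (a (nat_lit 0xe6c3cd6ed33dcc6)) e
 (c (a (nat_lit 0x8d36f569e50ed47)) e e)))))
 (c (a (nat_lit 0x5bbd62e4aaa65))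
 (c (a (nat_lit 0x425aaa6e507f027)) e
 (c (a (nat_lit 0x5c8478746f445a8)) e e))
 (c (a (nat_lit 0x1fb129e625b285))
 (c (a (nat_lit 0xbac4b4b7e896ce7)) e e)
 (c (a (nat_lit 0xe4826261775a5))
 (c z e
 (c (a (nat_lit 0xf93d70a60000008)) e e))
 (c (a (nat_lit 0x2a3a512112d46))
 (c (a (nat_lit 0x116d25c000000008)) e e)
 (c z e
 (c (a (nat_lit 0xf3d5c98d8d546)) e
 (c (a (nat_lit 0x1ddaebec2e4684)) e
 (c (a (nat_lit 0x1dae8ef10963c4)) e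
 (c (a (nat_lit 0x10d1322b2626a4)) e
 (c (b (nat_lit 0x139688ffe02143)) e
 (c (a (nat_lit 0x186aa1e2443263)) e
 (c (a (nat_lit 0x8a12082504da3)) e
 (c (a (nat_lit 0x8488970a7a004)) e e))))))))))))))))))))))) Tr.c Tr.e (nat_lit 0) C.cx C.cy
noncomputable def C643 : Tr := beta% (fun (c : Nat → Tr → Tr → Tr) (e : Tr) (z : Nat) (a b : Nat → Nat) =>
 (c (a (nat_lit 0x4040404041))
 (c (a (nat_lit 0x2020202030e7))
 (c z e
 (c (a (nat_lit 0x82f73b2bc564806)) e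
 (c z e
 (c z e
 (c z e
 (c (a (nat_lit 0x90ccac4a9509606)) e
 (c z e
 (c z e
 (c z e
 (c (a (nat_lit 0x1297d4fcfff6c7c7)) e e))))))))))
 (c (a (nat_lit 0x20202030e588))
 (c (a (nat_lit 0xacdcf13b21c8e86))
 (c (a (nat_lit 0x10eed532d12ba68b08)) e
 (c z e
 (c z e
 (c z e
 (c (a (nat_lit 0x15a46a14c800000007)) e e)))))
 (c z e
 (c z e
 (c z e
 (c (a (nat_lit 0x1cfc4e825923287)) e
 (c z e
 (c z e
 (c z e
 (c (a (nat_lit 0xfb0311d6d031a08)) e e)))))))))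
 (c (a (nat_lit 0x202036a807e8)) e
 (c (a (nat_lit 0x2039c90b06c8))
 (c z e
 (c z e
 (c z e
 (c z e
 (c (a (nat_lit 0x1d6b54b5b5f0fb28)) e e)))))
 (c z e
 (c (a (nat_lit 0x19acece8034987))
 (c (a (nat_lit 0x58409a66ca87567)) e
 (c z e
 (c z e
 (c z e
 (c (a (nat_lit 0x6a4b3d405c00009)) e e)))))
 (c z e
 (c z e
 (c z e
 (c (a (nat_lit 0x81553d3b4ec27)) e
 (c z e
 (c z e
 (c z e
 (c (a (nat_lit 0x78869e8663166)) e
 (c (a (nat_lit 0x5888580f78685)) e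
 (c z e
 (c z e
 (c (a (nat_lit 0x71dec89e34005)) e
 (c (a (nat_lit 0x110863a0000006)) e e)))))))))))))))))))
 (c (nat_lit 1)
 (c (a (nat_lit 0xa0a0b42948a7))
 (c (a (nat_lit 0x82c36859b8a3e5))
 (c z e
 (c z e
 (c z e
 (c (a (nat_lit 0x1ab913ec72a4200006)) e e))))
 (c z e
 (c z e
 (c (a (nat_lit 0x6ebb3a7c4a8c347)) e
 (c (a (nat_lit 0x149f65c8c7b33c46)) e
 (c z e
 (c z e
 (c z e
 (c (a (nat_lit 0xbea9009a7760ca8)) e e)))))))))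
 (c (a (nat_lit 0x203488274428)) e
 (c z e
 (c (a (nat_lit 0x16cb0b24e08907))
 (c z e
 (c (a (nat_lit 0x562c2e1a288d4a9)) e
 (c z e
 (c z e
 (c z e
 (c (a (nat_lit 0x28e1d9c49c00008)) e e))))))
 (c (a (nat_lit 0xead09c1526cc6))
 (c (a (nat_lit 0x4260c2867bfda8)) e
 (c z e
 (c z e
 (c z e
 (c (a (nat_lit 0x7199aa880000009)) e e)))))
 (c z e
 (c z e
 (c (a (nat_lit 0x3f93108f12846)) e
 (c (a (nat_lit 0x140ff115ebab27)) e
 (c z e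
 (c z e
 (c (a (nat_lit 0x7a68c8864b126)) e
 (c (a (nat_lit 0x5916921fab885)) e
 (c (a (nat_lit 0xeca6773d340c6)) e
 (c z e
 (c z e
 (c (a (nat_lit 0x1392a040200006)) e
 (c (a (nat_lit 0x12a02000000006)) e e))))))))))))))))))
 (c (a (nat_lit 0xa0a0808081))
 (c z e
 (c z e
 (c z e
 (c z e
 (c z e
 (c (a (nat_lit 0x2bed8858253a5))
 (c (a (nat_lit 0x9b9b5aae4200008)) e e)
 (c z e
 (c z e
 (c z e
 (c (a (nat_lit 0x90a322deac746)) e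
 (c (b (nat_lit 0x1ff140a1880a04)) e
 (c (a (nat_lit 0x1d5595d8d92a85)) e
 (c z e
 (c z e
 (c (a (nat_lit 0x1858eb67660005)) e
 (c (a (nat_lit 0x1426a160000005)) e e))))))))))))))))
 (c (nat_lit 1)
 (c z e
 (c z e
 (c z e
 (c z e
 (c (a (nat_lit 0x8e82405edb1c6))
 (c (a (nat_lit 0x11d3cf25a0000008)) e e)
 (c z e
 (c z e
 (c z e
 (c (a (nat_lit 0x133939b6d6d586)) e e)))))))))
 (c (a (nat_lit 0x8080808081))
 (c z e
 (c (a (nat_lit 0xe9e3bf4c0eaa5))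
 (c (a (nat_lit 0x16294c5cc2ac3e8)) e e)
 (c z e
 (c z e
 (c z e
 (c (a (nat_lit 0x16b0546f272186)) e
 (c z e
 (c z e
 (c z e
 (c (a (nat_lit 0xd1d58b326b85)) e
 (c (a (nat_lit 0x135a8635072904)) e e)))))))))))
 (c (a (nat_lit 0x200001))
 (c (a (nat_lit 0x18f592220161e4))
 (c (a (nat_lit 0x36d2772f3e62906)) e e)
 (c z e
 (c z e
 (c (a (nat_lit 0xe92f6d10e9906)) e
 (c (a (nat_lit 0x15fa752e49efe6)) e
 (c z e
 (c z e
 (c (a (nat_lit 0x145309e9ea85)) e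
 (c (a (nat_lit 0x1614ebab8584c5)) e
 (c (a (nat_lit 0x16038344e36344)) e e))))))))))
 (c (a (nat_lit 0x40002001))
 (c z e
 (c (a (nat_lit 0x13cd0f61415b24)) e
 (c z e
 (c z e
 (c z e
 (c (a (nat_lit 0x3953a2e5df45)) e
 (c (a (nat_lit 0x17176f10a9cc86)) e
 (c (a (nat_lit 0x150487610699a5)) e e))))))))
 (c (a (nat_lit 0x14161616121))
 (c (a (nat_lit 0x101411f091d525)) e
 (c z e
 (c z e
 (c (a (nat_lit 0xe76be19187ea7)) e
 (c (a (nat_lit 0x94cb0d0ced9e6)) e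
 (c (a (nat_lit 0x12285150ead046)) e e))))))
 (c (nat_lit 1)
 (c z e
 (c (a (nat_lit 0xf9b7ad3f37c66)) e
 (c z e
 (c z e
 (c z e
 (c (a (nat_lit 0x90dee5cca0006)) e
 (c (a (nat_lit 0x1657b280000006)) e
 (c (a (nat_lit 0x15000000000004)) e e))))))))
 (c (a (nat_lit 0x4040404021))
 (c (a (nat_lit 0x5e5ee6e2dd5e6)) e
 (c z e
 (c z e
 (c (a (nat_lit 0xd4e6e71d8cb87)) e
 (c (a (nat_lit 0xccd502d600007)) e
 (c (a (nat_lit 0x126aa000000006)) e e))))))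
 (c (a (nat_lit 0x4040404041))
 (c z e
 (c (a (nat_lit 0x8c8e8e90934c9)) e
 (c (a (nat_lit 0x1676f6b7574008)) e
 (c (a (nat_lit 0x10602020000005)) e
 (c (a (nat_lit 0x200000000001)) e e)))))
 (c (a (nat_lit 0x6060202021))
 (c (a (nat_lit 0x1252727274d068)) e
 (c (a (nat_lit 0x1f804040200004)) e
 (c (a (nat_lit 0x1c0e000000001)) e e)))
 (c (a (nat_lit 0x2020203dc6)) e
 (c (a (nat_lit 0x20203dc9a6)) e
 (c (a (nat_lit 0x203dc9a5e6)) e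
 (c (a (nat_lit 0x1ca8a4e0c6)) e
 (c (a (nat_lit 0x1be7c4202006)) e
 (c (a (nat_lit 0xf88402152a5)) e
 (c (a (nat_lit 0x88061b30ca5)) e
 (c z e
 (c z e
 (c (a (nat_lit 0x14ae8dc8e205)) e
 (c (a (nat_lit 0x1170abe50ea5)) e e)))))))))))))))))))))))) Tr.c Tr.e (nat_lit 0) C.cx C.cy
noncomputable def C644 : Tr := beta% (fun (c : Nat → Tr → Tr → Tr) (e : Tr) (z : Nat) (a b : Nat → Nat) =>
 (c (a (nat_lit 0x2020202021))
 (c z
 (c (a (nat_lit 0x4444457120fa1c5))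
 (c z e
 (c z e
 (c z e
 (c (a (nat_lit 0x486686bf36e31f227)) e
 (c (a (nat_lit 0x76669a8efa76af047)) e
 (c z e
 (c z e
 (c z e
 (c z e
 (c z e
 (c z e
 (c (a (nat_lit 0x3a302c628c408b6c8)) e
 (c (a (nat_lit 0x524e727b72d6f0c28)) e e)))))))))))))
 (c (a (nat_lit 0x72734119065c7c7)) e
 (c z e
 (c (a (nat_lit 0x16b4d506e2a281e7))
 (c z e
 (c (a (nat_lit 0xa8ae93578b44bd109)) e
 (c z e
 (c z e
 (c z e
 (c (a (nat_lit 0x161869c4d14b524be7)) e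
 (c z e
 (c z e
 (c z e
 (c (a (nat_lit 0x5ac11276980000009)) e e))))))))))
 (c (b (nat_lit 0x1bdaf1486ba21fe6))
 (c (a (nat_lit 0x6c327b08f86ea4b48)) e
 (c z e
 (c z e
 (c (a (nat_lit 0x1170e7084aad894d68)) e
 (c (a (nat_lit 0xe46452a09586cd448)) e
 (c z e
 (c z e
 (c z e
 (c (a (nat_lit 0x18982e340000000008)) e e)))))))))
 (c z e
 (c z e
 (c (a (nat_lit 0xe57374a4bb21285))
 (c z e
 (c (a (nat_lit 0x9cabaeb4529cb0708)) e e))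
 (c (a (nat_lit 0x19f8e389d51f7a24))
 (c (a (nat_lit 0x530024a048961e327)) e e)
 (c z e
 (c z e
 (c z e
 (c (a (nat_lit 0xf50f3f009a0e027)) e
 (c z e
 (c z e
 (c (a (nat_lit 0x10126caa68c7c845)) e
 (c (a (nat_lit 0x110b69a80706e685)) e
 (c (a (nat_lit 0x154c658284c18003)) e e))))))))))))))))))
 (c z e
 (c z e
 (c z
 (c z e
 (c (a (nat_lit 0x15512d81a56ab827))
 (c (a (nat_lit 0x1b5730bb9a5a518a29)) e
 (c z e
 (c z e
 (c z e
 (c (a (nat_lit 0x869120a29a4a581ea)) e e)))))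
 (c z e
 (c z e
 (c z e
 (c (a (nat_lit 0x2149445225cc67))
 (c (a (nat_lit 0x140af2c987a0000008)) e e)
 (c z e
 (c z e
 (c z e
 (c (b (nat_lit 0x1646ce3c56bfe427)) e
 (c z e
 (c z e
 (c z e
 (c (a (nat_lit 0x1468a4c4a3e00007)) e
 (c (a (nat_lit 0x14e703a000000005)) e e)))))))))))))))
 (c z
 (c (a (nat_lit 0x108a8085ca372fc6))
 (c (a (nat_lit 0xbe64e2c31eac72268)) e
 (c z e
 (c z e
 (c (a (nat_lit 0xad1b0734b0ce9e3a9)) e
 (c (a (nat_lit 0xe7793aeabcba563a9)) e e)))))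
 (c z e
 (c z e
 (c (a (nat_lit 0x58c930e929e19c6))
 (c z e
 (c (a (nat_lit 0x16d2f3d02b40000009)) e e))
 (c (a (nat_lit 0xa5267ebbef57fc6))
 (c (a (nat_lit 0x1214d1c6e000000008)) e e)
 (c z e
 (c z e
 (c z e
 (c (a (nat_lit 0x925ae922c650b28)) e
 (c z e
 (c z e
 (c (a (nat_lit 0x17f6abb06aca2007)) e
 (c (a (nat_lit 0x18026c6160000006)) e
 (c (a (nat_lit 0x17f6000000000005)) e e))))))))))))))
 (c z
 (c z e
 (c z e
 (c z e
 (c z e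
 (c z e
 (c z e
 (c z e
 (c z e
 (c z e
 (c z e
 (c (a (nat_lit 0x1329e0c220400006)) e
 (c (a (nat_lit 0x1403432000000005)) e e))))))))))))
 (c (a (nat_lit 0x202020203168)) e
 (c (a (nat_lit 0x202020332427))
 (c z e
 (c (a (nat_lit 0x262066935d90f07)) e
 (c z e
 (c z e
 (c z e
 (c (a (nat_lit 0x88b2846cbb1f2c8)) e e))))))
 (c (a (nat_lit 0x202033c623a7))
 (c (a (nat_lit 0x16386eb56ce2426)) e
 (c z e
 (c z e
 (c z e
 (c (a (nat_lit 0x12ef74799a18ace8)) e e)))))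
 (c (a (nat_lit 0x203a47248147)) e
 (c z e
 (c z e
 (c (a (nat_lit 0xba807ab5cd9a6))
 (c (a (nat_lit 0x10b10cc6c0000009)) e e)
 (c z e
 (c z e
 (c (a (nat_lit 0x592908603a7e6)) e
 (c (a (nat_lit 0x1f3b66c20a5005)) e
 (c (a (nat_lit 0x1a04e068ce8005)) e
 (c z e
 (c (a (nat_lit 0x32bb2030266a5)) e
 (c (a (nat_lit 0x123ec1804894c4)) e
 (c (a (nat_lit 0x1da0a047b3e004)) e e))))))))))))))))))))))
 (c (nat_lit 1)
 (c z
 (c (a (nat_lit 0x1cf2f388c3658705))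
 (c z e
 (c z e
 (c z e
 (c z e
 (c (a (nat_lit 0x345c96bec52f3d067)) e
 (c z e
 (c (a (nat_lit 0x283e56b45ca25d207)) e
 (c z e
 (c (a (nat_lit 0x4a745a686fdc40708)) e e)))))))))
 (c z e
 (c z e
 (c z e
 (c z e
 (c z e
 (c z e
 (c z e
 (c z e
 (c z e
 (c z e
 (c (a (nat_lit 0x120f11ca22a487a7)) e e))))))))))))
 (c z e
 (c z e
 (c z e
 (c (a (nat_lit 0x202020203c47))
 (c z e
 (c z e
 (c z e
 (c z e
 (c z e
 (c z e
 (c z e
 (c z e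
 (c z e
 (c z e
 (c (a (nat_lit 0x13eb2a40a0000007)) e e)))))))))))
 (c (a (nat_lit 0x20202031c388)) e
 (c (a (nat_lit 0x20203543c1e7)) e
 (c (a (nat_lit 0x18195c5c40087)) e e))))))))
 (c (a (nat_lit 0x20002001))
 (c z e
 (c z e
 (c (a (nat_lit 0x202020203088)) e
 (c (a (nat_lit 0x20202031e528)) e
 (c (a (nat_lit 0x20203ac807e8)) e
 (c (a (nat_lit 0x1e1feaa48a587)) e e))))))
 C643)))) Tr.c Tr.e (nat_lit 0) C.cx C.cy
noncomputable def C645 : Tr := beta% (fun (c : Nat → Tr → Tr → Tr) (e : Tr) (z : Nat) (a b : Nat → Nat) =>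
 (c z
 (c z
 (c (a (nat_lit 0xa2b2f336f8fd45943)) e
 (c z e
 (c z e
 (c z e
 (c z e
 (c (a (nat_lit 0x41a1c0616361b806)) e
 (c z e
 (c z e
 (c z e
 (c z e
 (c z e
 (c (a (nat_lit 0xa6ded0aab8c09d805)) e
 (c (a (nat_lit 0xc4b09696483501225)) e
 (c (a (nat_lit 0x1a323c545268a7c06)) e
 (c (a (nat_lit 0x22242a3a403cab088)) e
 (c (a (nat_lit 0x2632565a5e8528007)) e e))))))))))))))))
 (c (a (nat_lit 0xe0e0e0e0ecb3a4))
 (c (a (nat_lit 0xe3e2c26310270b46)) e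
 (c z e
 (c z e
 (c z e
 (c (a (nat_lit 0x81c0e223c25041c8)) e
 (c z e
 (c z e
 (c z e
 (c (a (nat_lit 0x14a7ed05e5f1d62045)) e
 (c z e
 (c (a (nat_lit 0x110e0c116c497888c6)) e
 (c z e
 (c (a (nat_lit 0x3c4a4c6896bf84fc8)) e e)))))))))))))
 (c (a (nat_lit 0x60606075d7aea4))
 (c z e
 (c z e
 (c z e
 (c z e
 (c z e
 (c z e
 (c (a (nat_lit 0x128d07e42918a24365)) e
 (c (a (nat_lit 0x84723e64af5694626)) e
 (c (a (nat_lit 0x986c70da9b468e6a6)) e e)))))))))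
 (c (a (nat_lit 0x20203b120f41a5)) e
 (c (a (nat_lit 0x3a559405c4e5))
 (c z e
 (c z e
 (c z e
 (c z e
 (c (a (nat_lit 0x52fd71a716b6cd266)) e
 (c z e
 (c (a (nat_lit 0x16fb71b7b227b11486)) e e)))))))
 (c (a (nat_lit 0x3b555305650205))
 (c (a (nat_lit 0x4e4db074bc9ad8687)) e
 (c z e
 (c z e
 (c (a (nat_lit 0x48f55d0a52a0850a7)) e
 (c (a (nat_lit 0xccdef6767676cb9c7)) e
 (c (a (nat_lit 0xd6ec949c6b18c02a7)) e
 (c z e
 (c z e
 (c (a (nat_lit 0x10aebc152cee400007)) e e)))))))))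
 (c (a (nat_lit 0x1b2ceea586224185)) e
 (c (b (nat_lit 0x1454d1d3ffffe125))
 (c (a (nat_lit 0x8a88365852a70f6e7)) e
 (c (a (nat_lit 0xa620224091795d227)) e e))
 (c z e
 (c (a (nat_lit 0x71071d0dae747a4)) e
 (c z e
 (c z e
 (c z e
 (c (a (nat_lit 0x1ffbdab3f88f0465)) e
 (c z e
 (c z e
 (c (a (nat_lit 0x1308d602606003)) e
 (c (a (nat_lit 0x15cb37c704c300e3)) e
 (c (a (nat_lit 0xa97878522806303)) e
 (c (a (nat_lit 0x1e0b68a4c3230003)) e e))))))))))))))))))))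
 (c z
 (c (a (nat_lit 0xa0a0a0b7143065))
 (c (a (nat_lit 0x58484850ded0d7646))
 (c z e
 (c z e
 (c z e
 (c z e
 (c z e
 (c (a (nat_lit 0x172faca962876c72ac08)) e e))))))
 (c z e
 (c z e
 (c z e
 (c (a (nat_lit 0x2e2a4878530a489e8)) e
 (c z e
 (c z e
 (c (a (nat_lit 0x904a523a33009a307)) e
 (c (a (nat_lit 0x5c9846443f542e0e6)) e
 (c z e
 (c z e
 (c z e
 (c (a (nat_lit 0x34403e6e8316a89e9)) e e)))))))))))))
 (c (a (nat_lit 0x3a3a3b0cd4b4027)) e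
 (c (a (nat_lit 0x203710afa281c7))
 (c z e
 (c z e
 (c z e
 (c z e
 (c z e
 (c z e
 (c (a (nat_lit 0xfb292efaee7ed8b07)) e e)))))))
 (c (a (nat_lit 0x1157312e5c24187))
 (c z e
 (c z e
 (c z e
 (c z e
 (c z e
 (c (a (nat_lit 0xfb06d49258ca8a628)) e e))))))
 (c (a (nat_lit 0x10cf8ea4e242a027))
 (c (a (nat_lit 0x2f285ccaced048ea8)) e
 (c z e
 (c z e
 (c z e
 (c (a (nat_lit 0xf0fe445a64bb4d5c8)) e
 (c z e
 (c z e
 (c z e
 (c (a (nat_lit 0xbbd97925620000008)) e e)))))))))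
 (c z e
 (c z e
 (c z e
 (c (a (nat_lit 0x8302f896e484a25)) e
 (c z e
 (c z e
 (c z e
 (c (a (nat_lit 0x111112d3ee06a227)) e
 (c z e
 (c z e
 (c z e
 (c (a (nat_lit 0xcb0c7c4a3242185)) e
 (c (a (nat_lit 0x1d0a4380c4002004)) e e))))))))))))))))))
 (c z
 (c (a (nat_lit 0x383912c8b6022a6)) e
 (c z e
 (c (a (nat_lit 0x14701005a1a26287)) e e)))
 (c z
 (c (a (nat_lit 0x1cb19106256983e6))
 (c z e
 (c z e
 (c z e
 (c z e
 (c z e
 (c (b (nat_lit 0xa470a7fea65b498e7)) e e)))))) e)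
 (c z
 (c z e
 (c (a (nat_lit 0xaf9d5506385b0a5)) e
 (c z e
 (c z e
 (c z e
 (c (a (nat_lit 0x13a6d1a50abe1845))
 (c (a (nat_lit 0x1009a9c906e4a00008)) e e)
 (c z e
 (c z e
 (c z e
 (c (a (nat_lit 0x9f6321499e8ca46)) e
 (c z e
 (c z e
 (c z e
 (c (a (nat_lit 0x18738ac7e8662006)) e
 (c (a (nat_lit 0x1f6dca0480000005)) e e)))))))))))))))
 (c z
 (c (a (nat_lit 0xab3e7008b711784))
 (c (a (nat_lit 0xe0f06f22c30768547)) e
 (c z e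
 (c z e
 (c z e
 (c (a (nat_lit 0x3a7b0ee08e26322e9)) e e)))))
 (c z e
 (c z e
 (c (a (nat_lit 0x8e928c7e8e83f07)) e
 (c (a (nat_lit 0x4261a2e21a04a7))
 (c (a (nat_lit 0x1086ea2d6520000008)) e e)
 (c z e
 (c z e
 (c z e
 (c (a (nat_lit 0x51e88d20d2b6507)) e
 (c z e
 (c z e
 (c z e
 (c (a (nat_lit 0xdd4428500e00006)) e
 (c (a (nat_lit 0x170543e000000006)) e e))))))))))))))
 (c z
 (c z e
 (c z e
 (c z e
 (c z e
 (c z e
 (c z e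
 (c (a (nat_lit 0xaecccb010ac11e7)) e e)))))))
 (c z
 (c z e
 (c z e
 (c z e
 (c (a (nat_lit 0x185cb32b84225)) e e))))
 (c (a (nat_lit 0x2020202037c6))
 (c z e
 (c (a (nat_lit 0x262a6066eb910a6)) e
 (c (a (nat_lit 0x85870b79ed0e26)) e
 (c z e
 (c z e
 (c (a (nat_lit 0x68a4946668a9148)) e e))))))
 (c (a (nat_lit 0x20202036c526))
 (c (a (nat_lit 0xc6442dd593a9a5)) e
 (c z e
 (c z e
 (c z e
 (c (a (nat_lit 0x5a9eb8d50102288)) e e)))))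
 (c (a (nat_lit 0x20203d664366)) e
 (c (a (nat_lit 0x6071c2c180a7)) e
 (c z e
 (c (a (nat_lit 0x17a9e444a84e66))
 (c (a (nat_lit 0x10972aeb87200008)) e e)
 (c z e
 (c z e
 (c z e
 (c (a (nat_lit 0x66f0cb14222c5)) e
 (c (a (nat_lit 0xeec9101e2a025)) e
 (c z e
 (c z e
 (c (a (nat_lit 0x3e561004054c4)) e
 (c (a (nat_lit 0x58140a0954984)) e e)))))))))))))))))))))))) Tr.c Tr.e (nat_lit 0) C.cx C.cy
noncomputable def C646 : Tr := beta% (fun (c : Nat → Tr → Tr → Tr) (e : Tr) (z : Nat) (a b : Nat → Nat) =>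
 (c (a (nat_lit 0x6060606061))
 (c z
 (c z
 (c (a (nat_lit 0x5090f480f4e6f5884)) e e)
 (c (a (nat_lit 0x202020203047))
 (c z e
 (c z e
 (c z e
 (c z e
 (c z e
 (c z e
 (c z e
 (c z e
 (c (a (nat_lit 0xd3a18330c14539866)) e e)))))))))
 (c (a (nat_lit 0x20202020304907))
 (c z e
 (c z e
 (c z e
 (c z e
 (c z e
 (c z e
 (c z e
 (c z e
 (c z e
 (c (a (nat_lit 0x1651892f2e8af8a8e7)) e e))))))))))
 (c (a (nat_lit 0x2020203aef2cc7)) e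
 (c (a (nat_lit 0x20203049c861e8)) e
 (c (a (nat_lit 0x404134ece66c528)) e
 (c z e
 (c (a (nat_lit 0x11ea8b0463c32168)) e e))))))))
 (c z
 (c (a (nat_lit 0x202020203e3166))
 (c z e
 (c z e
 (c z e
 (c z e
 (c z e
 (c z e
 (c z e
 (c z e
 (c (a (nat_lit 0x13ab710e0b165a4066)) e
 (c (a (nat_lit 0xcef8d4bef7387e8a7)) e
 (c (a (nat_lit 0x14d310b4716cad46c7)) e e)))))))))))
 (c (a (nat_lit 0x202020332b8bc8)) e
 (c (a (nat_lit 0x20203bd210a328)) e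
 (c (a (nat_lit 0x203dd51365e488)) e
 (c z e
 (c z e
 (c z e
 (c z e
 (c z e
 (c z e
 (c z e
 (c z e
 (c z e
 (c z e
 (c z e
 (c (a (nat_lit 0xb14916ba420c205)) e e))))))))))))))))
 (c z
 (c (a (nat_lit 0x14141544bcc2007))
 (c z e
 (c z e
 (c z e
 (c z e
 (c z e
 (c z e
 (c z e
 (c (a (nat_lit 0xf6c88af78b027c267)) e
 (c (a (nat_lit 0x102b116f380f0a7967)) e e)))))))))
 (c (a (nat_lit 0x20398fee810048))
 (c z e
 (c z e
 (c z e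
 (c z e
 (c z e
 (c z e
 (c (a (nat_lit 0xba82c14922ca4cea8)) e e))))))) e))
 (c z e
 (c z e
 (c z e
 (c z e
 (c z e
 (c z e
 (c (a (nat_lit 0x202020203f47)) e
 (c (a (nat_lit 0x20202032e608)) e
 (c (a (nat_lit 0x202035c584e8)) e
 (c (a (nat_lit 0x2030a6054068)) e e)))))))))))))
 (c (a (nat_lit 0x20002001))
 (c z
 (c (b (nat_lit 0x2020203ff79924)) e
 (c (a (nat_lit 0x20203088a962e7)) e
 (c (a (nat_lit 0x20347170666487)) e
 (c z e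
 (c (a (nat_lit 0x1ef898ae69ac0566)) e e)))))
 (c z
 (c (a (nat_lit 0xc0d108ca03e467)) e e)
 (c z
 (c (a (nat_lit 0x1e57d3eb28b30dc7)) e e)
 (c z e
 (c z e
 (c z e
 (c z e
 (c (a (nat_lit 0x2020202035e7)) e
 (c (a (nat_lit 0x2020203fe8a6)) e
 (c (a (nat_lit 0x202036e5c4a7)) e
 (c (a (nat_lit 0x607cc4c3c3c7)) e e)))))))))))
 (c (a (nat_lit 0x4040404041))
 (c z e
 (c z e
 (c z e
 (c z e
 (c z e
 (c (a (nat_lit 0x202020203ae7)) e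
 (c (a (nat_lit 0x20202033e2a7)) e
 (c (a (nat_lit 0x20203d64a406)) e
 (c (a (nat_lit 0x26277658503a7)) e e)))))))))
 (c (nat_lit 1)
 (c z
 (c z e
 (c z e
 (c z e
 (c z e
 (c z e
 (c z e
 (c z e
 (c z e
 (c z e
 (c z e
 (c (b (nat_lit 0xecc92ffeb8b8b27)) e e)))))))))))
 (c z e
 (c z
 (c z e
 (c z e
 (c z e
 (c z e
 (c z e
 (c (b (nat_lit 0x2707fef216221e7)) e e))))))
 (c (a (nat_lit 0x202020203727)) e
 (c (a (nat_lit 0x2020203ac727)) e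
 (c (a (nat_lit 0x202036e862a7)) e
 (c (a (nat_lit 0x121320741a267)) e e)))))))
 (c (a (nat_lit 0x4040404041))
 (c z e
 (c (a (nat_lit 0x2020202039e7)) e
 (c (a (nat_lit 0x2020203ce9a7)) e
 (c (a (nat_lit 0x202037c8c608)) e
 (c (a (nat_lit 0x203c8d468267)) e
 (c z e
 (c z e
 (c z e
 (c z e
 (c z e
 (c z e
 (c z e
 (c z e
 (c z e
 (c z e
 (c z e
 (c z e
 (c z e
 (c (a (nat_lit 0x19134060a00006)) e e)))))))))))))))))))
 (c (a (nat_lit 0x2020202021))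
 (c (a (nat_lit 0x2020203b6b86)) e
 (c (a (nat_lit 0x2020356a0908)) e
 (c (a (nat_lit 0x20374a6b8748)) e e)))
 (c (a (nat_lit 0x4040404021))
 (c (a (nat_lit 0x101146907c4c7)) e e)
 (c (a (nat_lit 0x4040404041)) e
 (c (nat_lit 1)
 (c z e
 (c z e
 (c z e
 (c z e
 (c z e
 (c z e
 (c z e
 (c z e
 (c z e
 (c z e
 (c (a (nat_lit 0x149f06642020e5)) e e)))))))))))
 (c (a (nat_lit 0x2001)) e
 (c (a (nat_lit 0x6060406061)) e
 (c (a (nat_lit 0x80a0a08061)) e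
 (c (a (nat_lit 0x2001))
 (c z e
 (c z e
 (c z e
 (c z e
 (c z e
 (c z e
 (c (b (nat_lit 0x1ffff064400003)) e
 (c (a (nat_lit 0x77a8000000002)) e e))))))))
 (c (a (nat_lit 0x2020202021))
 (c (a (nat_lit 0x7c76eee8e9606)) e
 (c z e
 (c z e
 (c z e
 (c (a (nat_lit 0x10b0d259538007)) e
 (c (a (nat_lit 0x12806020000004)) e
 (c (a (nat_lit 0x3600000000001)) e e)))))))
 (c (a (nat_lit 0x8080808081))
 (c z e
 (c z e
 (c (a (nat_lit 0x181738d4fc14c7)) e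
 (c (a (nat_lit 0x12808040400004)) e
 (c (a (nat_lit 0x3408000000001)) e e)))))
 (c (a (nat_lit 0x6060604041))
 (c (a (nat_lit 0x1352f37312f148)) e
 (c (a (nat_lit 0x14aa6080a06004)) e
 (c (a (nat_lit 0x14206080000003)) e
 (c (a (nat_lit 0x200000000001)) e e))))
 (c (a (nat_lit 0x1a1a181c1c1)) e
 (c (a (nat_lit 0x2020203146)) e
 (c (a (nat_lit 0x20203148a6)) e
 (c (a (nat_lit 0x1148a486)) e
 (c z e
 (c z e
 (c (a (nat_lit 0xd6520251c25)) e e)))))))))))))))))))))))) Tr.c Tr.e (nat_lit 0) C.cx C.cy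
noncomputable def C647 : Tr := beta% (fun (c : Nat → Tr → Tr → Tr) (e : Tr) (z : Nat) (a : Nat → Nat) =>
 (c z
 (c z
 (c z e
 (c (a (nat_lit 0x34343506ec98597a2)) e
 (c (a (nat_lit 0x222226302034db345)) e
 (c z e
 (c (a (nat_lit 0x605c043076e6c9964)) e
 (c z e
 (c z e
 (c z e
 (c z e
 (c z e
 (c z e
 (c z e
 (c z e
 (c z e
 (c (a (nat_lit 0x115111309691d15444)) e
 (c (a (nat_lit 0xd8f0f7193b3723645)) e e))))))))))))))))
 (c z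
 (c (a (nat_lit 0x4e4edf1f044701a44))
 (c z e
 (c z e
 (c z e
 (c z e
 (c z e
 (c z e
 (c z e
 (c z e
 (c z e
 (c (a (nat_lit 0x12506682545e6c37627)) e
 (c z e
 (c z e
 (c (a (nat_lit 0x747ca87c50d724acc88)) e e)))))))))))))
 (c z e
 (c z e
 (c z e
 (c z e
 (c z e
 (c z e
 (c z e
 (c z e
 (c z e
 (c z e
 (c (a (nat_lit 0xbf0d12eceea86e406)) e e))))))))))))
 (c z
 (c (a (nat_lit 0x424c3e3ced3d2ac66))
 (c z e
 (c z e
 (c z e
 (c z e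
 (c z e
 (c z e
 (c z e
 (c (a (nat_lit 0x86906a6aa67c9e755c7)) e
 (c (a (nat_lit 0x3e523e447683f10e6c7)) e e)))))))))
 (c z e
 (c z e
 (c z e
 (c z e
 (c z e
 (c z e
 (c z e
 (c z e
 (c z e
 (c z e
 (c (a (nat_lit 0x175d7b3c3a75610c05)) e e))))))))))))
 (c z
 (c z e
 (c z e
 (c z e
 (c z e
 (c z e
 (c z e
 (c z e
 (c z e
 (c z e
 (c (a (nat_lit 0xaf896b5494d86a3a5)) e e))))))))))
 (c (a (nat_lit 0x60606060607c83))
 (c z e
 (c z e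
 (c z e
 (c z e
 (c z e
 (c z e
 (c z e
 (c z e
 (c (a (nat_lit 0x114f4faeef8e2dc9c6)) e e)))))))))
 (c (a (nat_lit 0x2020202033a8e5)) e
 (c (a (nat_lit 0x20202031ecec86)) e
 (c (a (nat_lit 0xe0e0f0a92885a6)) e
 (c (a (nat_lit 0x303152c0ca9c566)) e
 (c (a (nat_lit 0x71a8a8050685e5))
 (c z e
 (c (a (nat_lit 0x46405a324c50b3b26)) e e))
 (c (a (nat_lit 0x10816785c88fac44)) e
 (c (a (nat_lit 0x1c12446e9c89445))
 (c (a (nat_lit 0xaeb8e0d98b09cb605)) e e)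
 (c z e
 (c z e
 (c z e
 (c z e
 (c z e
 (c z e
 (c (a (nat_lit 0x15189f5b5ef48c83)) e
 (c z e
 (c z e
 (c z e
 (c (a (nat_lit 0x1207e02060200003)) e e)))))))))))))))))))))))
 (c z
 (c z
 (c z e
 (c z e
 (c z e
 (c z e
 (c z e
 (c z e
 (c z e
 (c z e
 (c z e
 (c z e
 (c z e
 (c (a (nat_lit 0xf8e53d20debc2c986)) e
 (c (a (nat_lit 0x1d7d7b79b834852a26)) e e)))))))))))))
 (c z
 (c z e
 (c z e
 (c z e
 (c z e
 (c z e
 (c z e
 (c z e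
 (c z e
 (c z e
 (c z e
 (c (a (nat_lit 0xfd635325006c649e7)) e e)))))))))))
 (c (a (nat_lit 0x202020202030e7)) e
 (c (a (nat_lit 0x2020202032ea47)) e
 (c (a (nat_lit 0x202020308a87c8)) e
 (c (a (nat_lit 0x202031abcba408)) e
 (c (a (nat_lit 0x3f72326602e7)) e
 (c z e
 (c z e
 (c z e
 (c z e
 (c z e
 (c z e
 (c z e
 (c z e
 (c z e
 (c z e
 (c (a (nat_lit 0xbb4da7830c1e005)) e e))))))))))))))))))
 (c z
 (c (a (nat_lit 0x20202020203525))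
 (c z e
 (c z e
 (c z e
 (c z e
 (c z e
 (c z e
 (c z e
 (c z e
 (c z e
 (c z e
 (c (a (nat_lit 0x167496162a65ef4a06)) e e)))))))))))
 (c (a (nat_lit 0x20202020370a66))
 (c z e
 (c z e
 (c z e
 (c z e
 (c z e
 (c z e
 (c z e
 (c z e
 (c (a (nat_lit 0x10d55e36f92e6ecb46)) e e)))))))))
 (c (a (nat_lit 0x202020328ce967)) e
 (c (a (nat_lit 0x20203ab18c86c7)) e
 (c (a (nat_lit 0xe0f8b1f28aca67)) e
 (c z e
 (c (a (nat_lit 0x16692ae74a6cac27)) e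
 (c (a (nat_lit 0x96826963e19cac6)) e
 (c z e
 (c z e
 (c z e
 (c z e
 (c z e
 (c z e
 (c z e
 (c (a (nat_lit 0x174920c301a28105)) e
 (c z e
 (c z e
 (c z e
 (c (a (nat_lit 0x12b6f0c183e00003)) e e))))))))))))))))))))
 (c z
 (c (a (nat_lit 0x2020203a0c0f65))
 (c z e
 (c z e
 (c z e
 (c z e
 (c z e
 (c z e
 (c z e
 (c z e
 (c z e
 (c (a (nat_lit 0x115071098520e487c6)) e e))))))))))
 (c (a (nat_lit 0x202030eb07e147))
 (c z e
 (c z e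
 (c z e
 (c z e
 (c z e
 (c z e
 (c (a (nat_lit 0x13ed882db36de90907)) e e)))))))
 (c (a (nat_lit 0x20340d48a40067)) e e)))
 (c z
 (c (a (nat_lit 0x20316ca4e14086))
 (c z e
 (c z e
 (c z e
 (c z e
 (c z e
 (c z e
 (c z e
 (c (a (nat_lit 0x4a7466467c7e4b3e8)) e e))))))))
 (c z e
 (c (a (nat_lit 0x12eeab24832d2a27)) e
 (c z e
 (c z e
 (c z e
 (c z e
 (c z e
 (c z e
 (c z e
 (c z e
 (c z e
 (c z e
 (c (a (nat_lit 0xeb2c300c064c025)) e e))))))))))))))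
 (c z
 (c (a (nat_lit 0x17b0e623848563e6)) e e)
 (c z e
 (c z e
 (c z e
 (c z e
 (c z e
 (c (a (nat_lit 0x2020202038a6)) e
 (c (a (nat_lit 0x2020203e4446)) e
 (c (a (nat_lit 0x20203405e3e6)) e
 (c (a (nat_lit 0x424346a05a3e6)) e
 (c z e
 (c z e
 (c (a (nat_lit 0x4a1e246326ea5)) e e))))))))))))))))))) Tr.c Tr.e (nat_lit 0) C.cx
noncomputable def C648 : Tr := beta% (fun (c : Nat → Tr → Tr → Tr) (e : Tr) (z : Nat) (a b : Nat → Nat) =>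
 (c (a (nat_lit 0x2020202021))
 (c z
 (c (a (nat_lit 0x1c7f0bc2c2640844))
 (c (a (nat_lit 0x8a585208243231f06)) e
 (c z e
 (c z e
 (c (a (nat_lit 0x34463c57be1e62828)) e e))))
 (c z e
 (c z e
 (c z e
 (c z e
 (c z e
 (c z e
 (c z e
 (c z e
 (c z e
 (c z e
 (c z e
 (c (a (nat_lit 0x1ccd2203e3618004)) e
 (c (a (nat_lit 0x1781216080000003)) e e))))))))))))))
 (c z
 (c z e
 (c z e
 (c z e
 (c z e
 (c z e
 (c z e
 (c z e
 (c z e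
 (c z e
 (c z e
 (c z e
 (c (a (nat_lit 0x19d14f594f200006)) e e))))))))))))
 (c (a (nat_lit 0x202020203447)) e
 (c (a (nat_lit 0x20202037e387)) e
 (c (a (nat_lit 0x2020300782e7)) e
 (c (a (nat_lit 0xe0f1a9a44327)) e
 (c z e
 (c z e
 (c z e
 (c z e
 (c z e
 (c z e
 (c (a (nat_lit 0x1fe9e20461cae5)) e
 (c (a (nat_lit 0x116064a0f490e4)) e e))))))))))))))
 (c (a (nat_lit 0x6060606061))
 (c (a (nat_lit 0x202020203426))
 (c z e
 (c z e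
 (c z e
 (c z e
 (c z e
 (c z e
 (c z e
 (c z e
 (c z e
 (c z e
 (c z e
 (c (a (nat_lit 0x13476f61e0000005)) e e))))))))))))
 (c (a (nat_lit 0x202020384be7)) e
 (c (a (nat_lit 0x202037266248)) e
 (c (a (nat_lit 0x20350fa362c7)) e
 (c z e
 (c z e
 (c z e
 (c z e
 (c z e
 (c z e
 (c (a (nat_lit 0x1356f373700c67)) e
 (c (b (nat_lit 0x1cbfe20a90e504)) e e))))))))))))
 (c (a (nat_lit 0x6060606061))
 (c (a (nat_lit 0x202037abc287)) e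
 (c (a (nat_lit 0x2021b49e707e8)) e e))
 (c (a (nat_lit 0x20002001))
 (c (a (nat_lit 0x2d0c50686e168))
 (c z e
 (c (a (nat_lit 0x16397a726be932e7)) e
 (c z e
 (c z e
 (c z e
 (c z e
 (c (b (nat_lit 0x890bff6ae298007)) e e)))))))
 (c (a (nat_lit 0x12492888016208))
 (c (a (nat_lit 0xb70a9e220a4bce7)) e
 (c z e
 (c z e
 (c z e
 (c z e
 (c (a (nat_lit 0x8b3f80706a00008)) e e))))))
 (c z e
 (c z e
 (c z e
 (c z e
 (c (a (nat_lit 0x13b6332f08ea27)) e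
 (c z e
 (c z e
 (c z e
 (c z e
 (c (a (nat_lit 0xb71340e2c67a6)) e e))))))))))))
 (c (nat_lit 1)
 (c (a (nat_lit 0x14316a60822d65))
 (c (a (nat_lit 0x743c12080845407)) e
 (c (b (nat_lit 0x1e140dfe399e5c8)) e
 (c z e
 (c z e
 (c (a (nat_lit 0x78d7bd1d8082007)) e
 (c (a (nat_lit 0xd1c256f20000007)) e e))))))
 (c z e
 (c z e
 (c z e
 (c (a (nat_lit 0x1458b5f46b8866)) e
 (c (a (nat_lit 0x18b7572f292487)) e
 (c z e
 (c z e
 (c z e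
 (c (a (nat_lit 0x206706463a1a6)) e
 (c (a (nat_lit 0x6504443818066)) e e)))))))))))
 (c (a (nat_lit 0x8080608081))
 (c z e
 (c z e
 (c z e
 (c z e
 (c z e
 (c z e
 (c z e
 (c (a (nat_lit 0x639b21208505)) e
 (c (a (nat_lit 0x51c624246a005)) e e)))))))))
 (c (a (nat_lit 0x6060606061))
 (c (a (nat_lit 0x11910922406424))
 (c (a (nat_lit 0x181b934c2862c007)) e e)
 (c z e
 (c z e
 (c z e
 (c z e
 (c (a (nat_lit 0x65310a6a1247)) e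
 (c (a (nat_lit 0xd7acdcd4d2b66)) e e)))))))
 (c (a (nat_lit 0x4080808021))
 (c z e
 (c z e
 (c z e
 (c z e
 (c z e
 (c z e
 (c z e
 (c z e
 (c (a (nat_lit 0x2bbda1200003)) e
 (c (a (nat_lit 0x13ae6000000004)) e e))))))))))
 (c (nat_lit 1)
 (c z e
 (c (a (nat_lit 0x2a8b02785cda7)) e
 (c z e
 (c z e
 (c z e
 (c z e
 (c (b (nat_lit 0x1ffff6af014004)) e
 (c (a (nat_lit 0x370a680000005)) e
 (c (a (nat_lit 0x14800000000004)) e e)))))))))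
 (c (a (nat_lit 0x4040404041))
 (c (a (nat_lit 0x1c98e6dcd9386)) e
 (c z e
 (c z e
 (c z e
 (c (a (nat_lit 0xb0a0c6b5785e6)) e
 (c (a (nat_lit 0x10804040400004)) e
 (c (a (nat_lit 0xe0a000000001)) e e)))))))
 (c (a (nat_lit 0x2040404041))
 (c z e
 (c z e
 (c (a (nat_lit 0x1231f27270f068)) e
 (c (a (nat_lit 0x17204040404004)) e
 (c (a (nat_lit 0x612080000001)) e
 (c (a (nat_lit 0x800000000001)) e e))))))
 (c (a (nat_lit 0x8080808081))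
 (c (a (nat_lit 0x129272b2b270a8)) e
 (c (a (nat_lit 0x1a022040a20024)) e
 (c (a (nat_lit 0x1d8eedcf400001)) e
 (c (a (nat_lit 0x6000000001)) e e))))
 (c (a (nat_lit 0x1010100e0e1)) e
 (c (a (nat_lit 0x10101010101)) e
 (c (a (nat_lit 0x2020203964)) e
 (c (a (nat_lit 0x200cb1a5)) e
 (c (a (nat_lit 0x404cf1d6a5)) e
 (c z e
 (c (a (nat_lit 0x96eb3604005)) e
 (c (a (nat_lit 0xf13e0a06b25)) e
 (c z e
 (c z e
 (c z e
 (c z e
 (c (a (nat_lit 0x4abb8e08003)) e e)))))))))))))))))))))))))) Tr.c Tr.e (nat_lit 0) C.cx C.cy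
noncomputable def C649 : Tr := beta% (fun (c : Nat → Tr → Tr → Tr) (e : Tr) (z : Nat) (a b : Nat → Nat) =>
 (c (a (nat_lit 0xa0a0a0a0a1))
 (c z
 (c (a (nat_lit 0x1c1d18ac8ea84c5))
 (c z e
 (c (a (nat_lit 0x5a6d10e2cb18d1607)) e
 (c z e
 (c z e
 (c z e
 (c z e
 (c z e
 (c z e
 (c z e
 (c (a (nat_lit 0x96b3313ebea32ee47)) e
 (c z e
 (c (a (nat_lit 0xf91aeda8eeee70007)) e e))))))))))))
 (c (a (nat_lit 0x112ec8b48634307))
 (c (a (nat_lit 0x367a968aaa8d050e8))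
 (c z e
 (c z e
 (c (a (nat_lit 0x184b462d6d88af10ea08)) e
 (c (a (nat_lit 0xd484ad0e9caab5670e9)) e e))))
 (c z e
 (c z e
 (c z e
 (c z e
 (c (a (nat_lit 0xeb10c70ee2d50d247)) e
 (c z e
 (c z e
 (c z e
 (c z e
 (c (a (nat_lit 0xa49b2ad47e5e00009)) e e)))))))))))
 (c z e
 (c z e
 (c z e
 (c z e
 (c (a (nat_lit 0x2aade0c0063b5c5))
 (c (a (nat_lit 0xcf2d4c64d5ab89e6)) e e)
 (c z e
 (c z e
 (c z e
 (c z e
 (c (a (nat_lit 0xc937713d4ea0507)) e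
 (c z e
 (c z e
 (c z e
 (c z e
 (c (a (nat_lit 0xc6deaa97025e006)) e e)))))))))))))))))
 (c z
 (c (a (nat_lit 0x146d8c28862563c7))
 (c (a (nat_lit 0x6edcd2f1534f95687)) e
 (c z e
 (c z e
 (c z e
 (c (a (nat_lit 0x42a87aa4dcb737129)) e
 (c (a (nat_lit 0xeab304ca908363167)) e
 (c z e
 (c z e
 (c z e
 (c (a (nat_lit 0x8cb4d0e46d68ac008)) e
 (c (a (nat_lit 0x3f0c8c3a3a0000009)) e e)))))))))))
 (c z e
 (c z e
 (c z e
 (c (a (nat_lit 0xed3d5abc2a6af47))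
 (c z e
 (c (a (nat_lit 0xdd35584e7ad502b09)) e e))
 (c (a (nat_lit 0xdb6024122a6c8c6))
 (c (a (nat_lit 0x232e9c57e288f05c7)) e e)
 (c z e
 (c z e
 (c z e
 (c (a (nat_lit 0xcb7dcbc136e2ee7)) e
 (c (a (nat_lit 0xd117110ed670688)) e
 (c z e
 (c z e
 (c z e
 (c z e
 (c (a (nat_lit 0xfae297063600006)) e e))))))))))))))))
 (c z e
 (c z e
 (c z e
 (c z
 (c z e
 (c (a (nat_lit 0xab02da4802198e7))
 (c (a (nat_lit 0x856e8cb6921e00008)) e e)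
 (c z e
 (c z e
 (c z e
 (c z e
 (c (a (nat_lit 0x7ac0e2e8bcdb089)) e e)))))))
 (c (a (nat_lit 0x202020203646))
 (c (a (nat_lit 0xbd38f62278c38e5)) e
 (c z e
 (c z e
 (c z e
 (c (a (nat_lit 0x7aaeccfaae97188)) e
 (c (a (nat_lit 0xcb2d850ee107ec8)) e e))))))
 (c (a (nat_lit 0x2020203a8706)) e
 (c (a (nat_lit 0x202034432247)) e
 (c (a (nat_lit 0x22237440323e7)) e
 (c (a (nat_lit 0x3b9488705a886))
 (c z e
 (c (a (nat_lit 0x9d01469a9466009)) e e))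
 (c (a (nat_lit 0x13ac072bae9ea6))
 (c (a (nat_lit 0x9f1eaa763a00009)) e e)
 (c z e
 (c z e
 (c z e
 (c z e
 (c (a (nat_lit 0x181feeeb08f565)) e
 (c z e
 (c z e
 (c z e
 (c z e
 (c (a (nat_lit 0x1114f8a2a16006)) e e))))))))))))))))))))))
 (c (a (nat_lit 0x4040404041))
 (c z
 (c (b (nat_lit 0x1672be763b87bfe4))
 (c z e
 (c z e
 (c z e
 (c z e
 (c (a (nat_lit 0x744a630ea30ca4648)) e
 (c (a (nat_lit 0xaeeeecb8fea3da3e6)) e
 (c (a (nat_lit 0xad043acc858e08cc6)) e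
 (c z e
 (c z e
 (c z e
 (c (a (nat_lit 0x1be364c6e000000006)) e e)))))))))))
 (c z e
 (c z e
 (c z e
 (c (a (nat_lit 0x110c416062674cc6))
 (c (a (nat_lit 0xad78a8a8189a9e0e8)) e
 (c (a (nat_lit 0x19140e00e78e6b4608)) e e))
 (c (a (nat_lit 0x12804541c48de665))
 (c (a (nat_lit 0x891e0a6ea82a3e107)) e e)
 (c z e
 (c z e
 (c z e
 (c (a (nat_lit 0x10351454f1eeb067)) e
 (c (a (nat_lit 0x10eff2b44c8bcb27)) e
 (c z e
 (c z e
 (c z e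
 (c (a (nat_lit 0xb38782e65854005)) e
 (c (a (nat_lit 0x1353096040000005)) e e))))))))))))))))
 (c z
 (c z e
 (c z e
 (c z e
 (c z e
 (c z e
 (c z e
 (c z e
 (c z e
 (c z e
 (c z e
 (c z e
 (c z e
 (c z e
 (c (a (nat_lit 0xe0352cb4600005)) e e))))))))))))))
 (c z
 (c z e
 (c z e
 (c z e
 (c z e
 (c z e
 (c z e
 (c (a (nat_lit 0x9d12ed16642a3c7)) e e)))))))
 (c z e
 (c (a (nat_lit 0x202020203767))
 (c (a (nat_lit 0x3eba9490462bd47))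
 (c z e
 (c (a (nat_lit 0x598376daae3a00008)) e e))
 (c (a (nat_lit 0xea947c1e0b78f47))
 (c (a (nat_lit 0xc92c8c682e0000008)) e e)
 (c z e
 (c z e
 (c z e
 (c z e
 (c (a (nat_lit 0x13cd14596c4cb028)) e e)))))))
 (c (a (nat_lit 0x20202039c8a6))
 (c (a (nat_lit 0x76f40a200c8d6c5)) e
 (c z e
 (c z e
 (c z e
 (c (a (nat_lit 0x14103d35f1147dc7)) e
 (c (a (nat_lit 0x9912cc6e6578f88)) e e))))))
 (c (a (nat_lit 0x20203ed0a486)) e
 (c (a (nat_lit 0x1a1b76604c5c7)) e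
 (c z e
 (c (a (nat_lit 0xc27e666ea7287))
 (c z e
 (c (a (nat_lit 0xa9e75aa28800008)) e e))
 (c (a (nat_lit 0x2c2a54830efc7))
 (c (a (nat_lit 0x16afc42420000008)) e e)
 (c z e
 (c z e
 (c z e
 (c (a (nat_lit 0x13ed666a864786)) e
 (c (a (nat_lit 0x13054da50784c5)) e
 (c z e
 (c z e
 (c z e
 (c (a (nat_lit 0x1572f6a0e0e025)) e
 (c (a (nat_lit 0x1316e0a0600005)) e e)))))))))))))))))))))
 C648))) Tr.c Tr.e (nat_lit 0) C.cx C.cy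
noncomputable def C650 : Tr := beta% (fun (c : Nat → Tr → Tr → Tr) (e : Tr) (z : Nat) (a : Nat → Nat) =>
 (c (a (nat_lit 0xa0a0a0a0a1))
 (c z
 (c z
 (c z e
 (c z e
 (c z e
 (c z e
 (c z e
 (c z e
 (c z e
 (c z e
 (c z e
 (c z e
 (c z e
 (c (a (nat_lit 0x149958f754708fb065)) e
 (c (a (nat_lit 0x1110f1cf4f6f602b86)) e e)))))))))))))
 (c z
 (c z e
 (c z e
 (c z e
 (c z e
 (c z e
 (c z e
 (c z e
 (c z e
 (c z e
 (c (a (nat_lit 0xd2fd06e2d25f094a6)) e e))))))))))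
 (c (a (nat_lit 0x202020202037a6))
 (c z e
 (c z e
 (c z e
 (c z e
 (c z e
 (c z e
 (c z e
 (c (a (nat_lit 0xe908a294261aadf46)) e e))))))))
 (c (a (nat_lit 0x2020202032a567)) e
 (c (a (nat_lit 0x2020380ae947)) e
 (c (a (nat_lit 0x20203bae892627)) e
 (c (a (nat_lit 0x3c8dc7e68347)) e e)))))))
 (c z
 (c (a (nat_lit 0x202020202031a7))
 (c z e
 (c z e
 (c z e
 (c z e
 (c z e
 (c z e
 (c z e
 (c z e
 (c z e
 (c (a (nat_lit 0x1231940ca72b129146)) e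
 (c (a (nat_lit 0x1e3f7b79f87612b486)) e e)))))))))))
 (c (a (nat_lit 0x202020203083e8))
 (c z e
 (c z e
 (c z e
 (c z e
 (c z e
 (c z e
 (c z e
 (c z e
 (c (a (nat_lit 0xe712bab87ace5c8e8)) e e)))))))))
 (c (a (nat_lit 0x2020203b0b0908))
 (c z e
 (c z e
 (c z e
 (c z e
 (c z e
 (c z e
 (c (a (nat_lit 0x13af1192b82e2b2fe7)) e e)))))))
 (c (a (nat_lit 0x20203c4bea6608))
 (c z e
 (c z e
 (c z e
 (c z e
 (c z e
 (c z e
 (c (a (nat_lit 0xed23936292ae85947)) e e)))))))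
 (c (a (nat_lit 0x2039cc876621c8))
 (c z e
 (c z e
 (c z e
 (c z e
 (c (a (nat_lit 0x405284903836611e9)) e e))))) e)))))
 (c z
 (c (a (nat_lit 0x2020203066a327)) e
 (c (a (nat_lit 0x2020374aa7c428)) e
 (c (a (nat_lit 0x34a94704c288)) e
 (c z e
 (c z e
 (c z e
 (c z e
 (c z e
 (c z e
 (c z e
 (c z e
 (c z e
 (c z e
 (c z e
 (c (a (nat_lit 0x1390ebe38021a187)) e e)))))))))))))))
 (c z
 (c (a (nat_lit 0x20392b89268647)) e e)
 (c z e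
 (c z e
 (c z e
 (c z e
 (c z
 (c z e
 (c z e
 (c z e
 (c z e
 (c z e
 (c z e
 (c z e
 (c (a (nat_lit 0xe707514124bf508)) e e))))))))
 (c z e
 (c (a (nat_lit 0x202020203048))
 (c (a (nat_lit 0x64829e90c8ab4a6)) e e)
 (c (a (nat_lit 0x202020332188)) e
 (c (a (nat_lit 0x20203be462c7)) e
 (c (a (nat_lit 0x4041c488484e7)) e e))))))))))))))
 (c (a (nat_lit 0x20002001))
 (c z
 (c (a (nat_lit 0x808080809c2405))
 (c z e
 (c z e
 (c z e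
 (c z e
 (c z e
 (c z e
 (c z e
 (c z e
 (c z e
 (c (a (nat_lit 0xc0ea66207ad19e285)) e
 (c z e
 (c (a (nat_lit 0xc0b2d4faff5f8cca6)) e e))))))))))))
 (c (a (nat_lit 0x20202035e743e7))
 (c z e
 (c z e
 (c z e
 (c z e
 (c z e
 (c z e
 (c z e
 (c z e
 (c z e
 (c (a (nat_lit 0x1d9d729c9436a462c6)) e e))))))))))
 (c (a (nat_lit 0x20203e2ecbc7a7))
 (c z e
 (c z e
 (c z e
 (c z e
 (c z e
 (c z e
 (c (a (nat_lit 0x15e906c9e5c6a74a88)) e e)))))))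
 (c (a (nat_lit 0x20394e6c0805c7)) e
 (c z e
 (c (a (nat_lit 0x190e686666c444a7)) e
 (c z e
 (c z e
 (c z e
 (c z e
 (c z e
 (c z e
 (c z e
 (c z e
 (c z e
 (c (a (nat_lit 0x1b753cace5e522c4)) e
 (c z e
 (c (a (nat_lit 0x1827c20320c10664)) e e))))))))))))))))))
 (c z
 (c (a (nat_lit 0x202032474484e7))
 (c z e
 (c z e
 (c z e
 (c z e
 (c z e
 (c z e
 (c z e
 (c (a (nat_lit 0x1eb7960d8770946cc7)) e
 (c (a (nat_lit 0x18d5abaecd9b6a8ca7)) e e)))))))))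
 (c (a (nat_lit 0x20386d8b272408)) e e))
 (c z e
 (c z e
 (c z e
 (c z e
 (c z e
 (c z e
 (c (a (nat_lit 0x202020203807)) e
 (c (a (nat_lit 0x2020203e6467)) e
 (c (a (nat_lit 0x20203f434187)) e
 (c (a (nat_lit 0x203524422347)) e e))))))))))))
 C649))) Tr.c Tr.e (nat_lit 0) C.cx
noncomputable def C651 : Tr := beta% (fun (c : Nat → Tr → Tr → Tr) (e : Tr) (z : Nat) (a b : Nat → Nat) =>
 (c z
 (c z
 (c z e
 (c (a (nat_lit 0x24242425b0a6e2445)) e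
 (c (a (nat_lit 0x1c1c1cce2c4841266))
 (c z e
 (c z e
 (c z e
 (c z e
 (c z e
 (c z e
 (c z e
 (c z e
 (c z e
 (c (a (nat_lit 0x1c183a363e2a38ab207)) e
 (c z e
 (c (a (nat_lit 0x94b8bef89c7cd0b3888)) e e))))))))))))
 (c (a (nat_lit 0x12125420421a5d006))
 (c z e
 (c z e
 (c z e
 (c z e
 (c z e
 (c z e
 (c z e
 (c z e
 (c (a (nat_lit 0x124a464e1e328a8fca7)) e
 (c (a (nat_lit 0x443e305a3a3696e59c8)) e e))))))))))
 (c z e
 (c z e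
 (c z e
 (c z e
 (c z e
 (c z e
 (c z e
 (c z e
 (c z e
 (c (a (nat_lit 0xcd0b311518b87c6e6)) e
 (c (a (nat_lit 0x1598189a70cb077006)) e
 (c z e
 (c (a (nat_lit 0x48585e9eb4aead107)) e
 (c (a (nat_lit 0x140a4826e7e7a927e5)) e e))))))))))))))))))
 (c z
 (c (a (nat_lit 0x1c1c1d9ad2d61e6c6))
 (c z e
 (c z e
 (c z e
 (c z e
 (c z e
 (c z e
 (c z e
 (c z e
 (c z e
 (c z e
 (c (a (nat_lit 0xe0e229e886e249f387)) e e)))))))))))
 (c (a (nat_lit 0x2223c4d0e4573fc87))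
 (c z e
 (c z e
 (c z e
 (c z e
 (c z e
 (c z e
 (c z e
 (c (a (nat_lit 0x683c3adc3436750f827)) e
 (c (a (nat_lit 0x122c30582020423d7e9)) e
 (c (a (nat_lit 0x2022323036365d84ac9)) e e)))))))))) e))
 (c z e
 (c z
 (c z e
 (c z e
 (c z e
 (c z e
 (c z e
 (c z e
 (c z e
 (c z e
 (c (a (nat_lit 0x186eae95c784a40bc6)) e
 (c (a (nat_lit 0x80a34ca46e4842347)) e e))))))))))
 (c z
 (c z e
 (c z e
 (c z e
 (c z e
 (c z e
 (c z e
 (c z e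
 (c (a (nat_lit 0x171bf626a267132f66)) e e))))))))
 (c (a (nat_lit 0x20202020203187))
 (c z e
 (c z e
 (c z e
 (c z e
 (c z e
 (c z e
 (c (a (nat_lit 0xc184a44e4af274766)) e
 (c (a (nat_lit 0x15ac6865cba907c427)) e
 (c (a (nat_lit 0x706a6cb33f01406e7)) e e)))))))))
 (c (a (nat_lit 0x20202020354927))
 (c z e
 (c z e
 (c z e
 (c z e
 (c z e
 (c (a (nat_lit 0x7c2a3042773a96c06)) e e))))))
 (c (a (nat_lit 0x2020203dae4927)) e
 (c (a (nat_lit 0x202031058624c8)) e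
 (c (a (nat_lit 0x2033e744c281a7)) e e))))))))))
 (c z
 (c z
 (c (a (nat_lit 0x50510f3b1a36cdac5))
 (c z e
 (c z e
 (c z e
 (c z e
 (c z e
 (c z e
 (c z e
 (c z e
 (c z e
 (c z e
 (c z e
 (c z e
 (c (a (nat_lit 0x86a0d8865c5cbf167e9)) e e)))))))))))))
 (c z e
 (c z e
 (c z e
 (c z e
 (c z e
 (c z e
 (c z e
 (c z e
 (c z e
 (c (a (nat_lit 0x196726052b6da7cbe6)) e
 (c z e
 (c (a (nat_lit 0x19f9bd3c76d43142c7)) e
 (c (a (nat_lit 0xaebad6e8eac0ad0c8)) e e))))))))))))))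
 (c z e
 (c z e
 (c (a (nat_lit 0x20202020203728))
 (c z e
 (c z e
 (c z e
 (c z e
 (c z e
 (c z e
 (c z e
 (c (a (nat_lit 0xf0e5ea525a94e8787)) e
 (c z e
 (c z e
 (c z e
 (c z e
 (c z e
 (c (a (nat_lit 0x10c7436542e0000006)) e e))))))))))))))
 (c (a (nat_lit 0x202020203b6a68))
 (c z e
 (c z e
 (c z e
 (c z e
 (c z e
 (c z e
 (c (a (nat_lit 0xc0a095249afe88c07)) e e)))))))
 (c (a (nat_lit 0x20202032aa2769)) e
 (c (a (nat_lit 0x20332905e389))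
 (c z e
 (c z e
 (c z e
 (c (a (nat_lit 0xb8bc865c58561d2c8)) e e))))
 (c (a (nat_lit 0x203587e7c4c1a9)) e e))))))))
 (c z
 (c z
 (c z e
 (c z e
 (c z e
 (c z e
 (c z e
 (c z e
 (c z e
 (c z e
 (c z e
 (c z e
 (c (a (nat_lit 0x157e9c36d723883266)) e e)))))))))))
 (c (a (nat_lit 0x20202020203268)) e
 (c (a (nat_lit 0x202020203324e8)) e
 (c (a (nat_lit 0x2020203e0ce828)) e
 (c (a (nat_lit 0x20203f4ee96868)) e
 (c (a (nat_lit 0x30c7a4c40489)) e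
 (c z e
 (c z e
 (c z e
 (c z e
 (c z e
 (c z e
 (c z e
 (c z e
 (c z e
 (c z e
 (c (a (nat_lit 0x17d243e782202027)) e e)))))))))))))))))
 (c z
 (c (a (nat_lit 0x2020202037c6a6)) e
 (c (a (nat_lit 0x20202031088448)) e
 (c (a (nat_lit 0x203468a3a348)) e
 (c (a (nat_lit 0x2037ade865e388)) e e))))
 (c z
 (c (a (nat_lit 0x2020316982a2a7)) e
 (c (a (nat_lit 0x2035ea62e3e828)) e e))
 (c z e
 (c z e
 (c z
 (c z e
 (c z e
 (c z e
 (c z e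
 (c z e
 (c z e
 (c z e
 (c z e
 (c z e
 (c z e
 (c z e
 (c z e
 (c (b (nat_lit 0x27fe7f141600006)) e e)))))))))))))
 (c z e
 (c z e
 (c z e
 (c z e
 (c (a (nat_lit 0x2020202034a7)) e
 (c (a (nat_lit 0x20202034c587)) e
 (c (a (nat_lit 0x20203245a047)) e
 (c (a (nat_lit 0x42432662382e7)) e e))))))))))))))))) Tr.c Tr.e (nat_lit 0) C.cx C.cy
noncomputable def C652 : Tr := beta% (fun (c : Nat → Tr → Tr → Tr) (e : Tr) (z : Nat) (a b : Nat → Nat) =>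
 (c z
 (c (a (nat_lit 0x121212121213ea3))
 (c (a (nat_lit 0xa4692665476476a5)) e
 (c (a (nat_lit 0x6a823c64862940b66))
 (c z e
 (c z e
 (c z e
 (c (a (nat_lit 0xd705ad365ce0248c768)) e
 (c (a (nat_lit 0xaf359532705e6662368)) e e)))))
 (c z e
 (c z e
 (c z e
 (c z e
 (c z e
 (c z e
 (c z e
 (c z e
 (c (a (nat_lit 0xd898ba7266607f2c7)) e
 (c (a (nat_lit 0x36322c3e425c3f1c9)) e e))))))))))))
 (c (a (nat_lit 0x2020203ccdc4))
 (c (a (nat_lit 0x3e081e8e125d201e6))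
 (c z e
 (c z e
 (c z e
 (c (a (nat_lit 0x125332a8646366c9e068)) e
 (c (a (nat_lit 0x139adb4a876c06c54688)) e e)))))
 (c z e
 (c z e
 (c z e
 (c (a (nat_lit 0x78b8a0624a59d0c88)) e
 (c (a (nat_lit 0x1e390865ad785db165)) e
 (c z e
 (c z e
 (c z e
 (c (a (nat_lit 0xaabc9a829c9748287)) e
 (c (a (nat_lit 0x44365e6ac07dd6ae9)) e e)))))))))))
 (c (a (nat_lit 0x4040405d7066c5)) e
 (c (a (nat_lit 0x2020316be2c427))
 (c z e
 (c z e
 (c z e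
 (c z e
 (c (a (nat_lit 0xfb38f31f3722d30c8)) e
 (c z e
 (c (a (nat_lit 0xdcfb8157dea6ea7a7)) e e)))))))
 (c (a (nat_lit 0x222370d4465c507)) e
 (c (a (nat_lit 0x11604652722a5a7))
 (c z e
 (c (a (nat_lit 0xa97b3908dd2535308)) e
 (c z e
 (c z e
 (c z e
 (c z e
 (c (a (nat_lit 0xc8cb366c404e00009)) e e)))))))
 (c (a (nat_lit 0x1b102102658fd445))
 (c (a (nat_lit 0xcd775a521ee0bda26)) e
 (c z e
 (c z e
 (c z e
 (c (a (nat_lit 0x11be908deed7b76007)) e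
 (c (a (nat_lit 0x8736442e420000009)) e e))))))
 (c z e
 (c z e
 (c z e
 (c (a (nat_lit 0x976d536f8504e66)) e
 (c (a (nat_lit 0x113474f7351027c7)) e
 (c z e
 (c z e
 (c z e
 (c z e
 (c (a (nat_lit 0xda950e0e0402066)) e e)))))))))))))))))
 (c z
 (c (b (nat_lit 0x4040405fff1963))
 (c (a (nat_lit 0x606a8e5e5116645e6)) e
 (c z e
 (c z e
 (c z e
 (c (a (nat_lit 0x54b23c2457c4b8387)) e
 (c (a (nat_lit 0x10240168a62bc201a6)) e
 (c z e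
 (c z e
 (c (a (nat_lit 0xcae33c64d5f483026)) e
 (c (a (nat_lit 0x1094cb6d2d4fc70586)) e
 (c (a (nat_lit 0x423e527423aa2a648)) e e)))))))))))
 (c (a (nat_lit 0x34343568b0708c6)) e
 (c (a (nat_lit 0x4445e5786ca0f66)) e
 (c z e
 (c (a (nat_lit 0x1645c70b08084646))
 (c (a (nat_lit 0x55149476d850cf2e8)) e
 (c (a (nat_lit 0x1109292b836cb082e8)) e
 (c z e
 (c z e
 (c z e
 (c z e
 (c (a (nat_lit 0xa9e4461e6a0000008)) e e)))))))
 (c (a (nat_lit 0x34040eb4f5ad2e5))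
 (c (a (nat_lit 0x5094242e3c831e7c7)) e
 (c z e
 (c z e
 (c z e
 (c (a (nat_lit 0x1110114bb3cc600007)) e
 (c (a (nat_lit 0x1ec521846000000008)) e e))))))
 (c z e
 (c z e
 (c z e
 (c (a (nat_lit 0x14f6389c70e86de6)) e
 (c (a (nat_lit 0x145597d0aea965a7)) e
 (c z e
 (c z e
 (c z e
 (c (a (nat_lit 0x139bf100c181e105)) e
 (c (a (nat_lit 0x1acfe0a080a06685)) e e))))))))))))))))
 (c z
 (c (a (nat_lit 0x74754ae882a1a05))
 (c z e
 (c z e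
 (c z e
 (c z e
 (c z e
 (c z e
 (c (a (nat_lit 0x382a241218061fce8)) e e))))))) e)
 (c z e
 (c z e
 (c z
 (c (a (nat_lit 0x1272ce6d21c911a6))
 (c z e
 (c (a (nat_lit 0x82cf50a8f28f329e8)) e e))
 (c (a (nat_lit 0x9c866a1658a12c7))
 (c (a (nat_lit 0xa1b98578e93280b67)) e e)
 (c z e
 (c z e
 (c z e
 (c z e
 (c (a (nat_lit 0x25c92e75523727)) e
 (c z e
 (c z e
 (c z e
 (c z e
 (c (a (nat_lit 0xccd343a4d800005)) e e))))))))))))
 (c z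
 (c (a (nat_lit 0x62400a1830db3c5))
 (c (a (nat_lit 0x4d6cc50434847eb26)) e e)
 (c z e
 (c z e
 (c z e
 (c (a (nat_lit 0x3081250518c2d46)) e
 (c (a (nat_lit 0x24abce12d27747)) e
 (c z e
 (c z e
 (c z e
 (c (a (nat_lit 0x15a076f581a04003)) e
 (c (a (nat_lit 0x1771b0160000003)) e e)))))))))))
 (c z e
 (c z
 (c (a (nat_lit 0x7ec3934773c78a5)) e e)
 (c z e
 (c (a (nat_lit 0xc0c0c0c0d104))
 (c z e
 (c (a (nat_lit 0x787eb4ab12bea68)) e e))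
 (c (a (nat_lit 0x202020321584))
 (c (a (nat_lit 0x845c68f49d02727)) e e)
 (c (a (nat_lit 0x202026101663)) e
 (c (a (nat_lit 0x10100fd51ac4a4)) e
 (c z e
 (c (a (nat_lit 0xaf035e50434c4)) e
 (c (a (nat_lit 0x1116c443758184)) e
 (c z e
 (c z e
 (c z e
 (c (a (nat_lit 0x14c0c6e8614184)) e
 (c (b (nat_lit 0x1ff87e21e33622)) e e))))))))))))))))))))))) Tr.c Tr.e (nat_lit 0) C.cx C.cy
noncomputable def C653 : Tr := beta% (fun (c : Nat → Tr → Tr → Tr) (e : Tr) (z : Nat) (a b : Nat → Nat) =>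
 (c z
 (c (a (nat_lit 0x1393939393939aa763)) e
 (c (a (nat_lit 0x1e1e1e1e1fa698ca6))
 (c z e
 (c z e
 (c z e
 (c z e
 (c z e
 (c z e
 (c z e
 (c z e
 (c z e
 (c z e
 (c z e
 (c z e
 (c z e
 (c (a (nat_lit 0x647086951537048ea0a)) e e))))))))))))))
 (c (a (nat_lit 0x24242425b64468566))
 (c z e
 (c z e
 (c z e
 (c z e
 (c z e
 (c z e
 (c z e
 (c z e
 (c z e
 (c z e
 (c z e
 (c z e
 (c (a (nat_lit 0x7c84959fc4ef030e989)) e e)))))))))))))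
 (c (a (nat_lit 0x3e3e3f7a5ca424f25))
 (c z e
 (c z e
 (c z e
 (c z e
 (c z e
 (c z e
 (c z e
 (c z e
 (c z e
 (c (a (nat_lit 0x546860509e384c636c8)) e e))))))))))
 (c (a (nat_lit 0x2222a472442ed52a6))
 (c z e
 (c z e
 (c z e
 (c z e
 (c z e
 (c z e
 (c z e
 (c (a (nat_lit 0x164238381e2c49c9308)) e
 (c (a (nat_lit 0x3432304e1e20248f749)) e
 (c (a (nat_lit 0x605660441e2c9372a69)) e e))))))))))
 (c z e
 (c z e
 (c z e
 (c z e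
 (c z e
 (c z e
 (c z e
 (c z e
 (c (a (nat_lit 0x176cb293101124a266)) e
 (c (a (nat_lit 0x1254d5f1736ac62927)) e
 (c z e
 (c z e
 (c (a (nat_lit 0x1059e7a4c524c54585)) e
 (c (a (nat_lit 0x1a27c505c383e4a525)) e e)))))))))))))))))))
 (c z
 (c (a (nat_lit 0x1a1a1a1b9aa2a03c6)) e
 (c (a (nat_lit 0x141415184e4c2c7e8))
 (c z e
 (c z e
 (c z e
 (c z e
 (c z e
 (c z e
 (c z e
 (c z e
 (c z e
 (c (a (nat_lit 0x1212102022182231b69)) e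
 (c (a (nat_lit 0xe2eb456b4aaaa7494a8)) e e)))))))))))
 (c (a (nat_lit 0x1a1b72a47e2a7fca7))
 (c z e
 (c z e
 (c z e
 (c z e
 (c z e
 (c z e
 (c z e
 (c (a (nat_lit 0x4c5e52926a565b0e968)) e
 (c (a (nat_lit 0x30343038362e78ed429)) e
 (c (a (nat_lit 0x768a8ec24e6c96f79a9)) e e))))))))))
 (c z e
 (c z e
 (c z e
 (c z e
 (c z e
 (c z e
 (c z e
 (c z e
 (c z e
 (c z e
 (c z e
 (c z e
 (c z e
 (c (a (nat_lit 0x18c9c6442281c26326)) e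
 (c (a (nat_lit 0x17d0ec69e6c86a2645)) e e))))))))))))))))))
 (c z
 (c (a (nat_lit 0x14150a3e3242d6f47))
 (c z e
 (c z e
 (c z e
 (c z e
 (c z e
 (c z e
 (c z e
 (c z e
 (c (a (nat_lit 0x303658321c32367d887)) e
 (c (a (nat_lit 0x1614161a142e41b6f48)) e
 (c (a (nat_lit 0x667072704c78dd0b1c8)) e
 (c (a (nat_lit 0x504c764036806160849)) e e))))))))))))
 (c z e
 (c z e
 (c z e
 (c z e
 (c z e
 (c z e
 (c z e
 (c z e
 (c z e
 (c z e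
 (c z e
 (c (b (nat_lit 0x1b1233589ff0aed3e7)) e
 (c (b (nat_lit 0x8cb307ff37211f788)) e e))))))))))))))
 (c z
 (c z e
 (c z e
 (c z e
 (c z e
 (c z e
 (c z e
 (c z e
 (c z e
 (c z e
 (c (a (nat_lit 0x12100f3468a625a4e7)) e
 (c (a (nat_lit 0x118e3609c9a8a6e607)) e
 (c z e
 (c z e
 (c z e
 (c (a (nat_lit 0x82a29c9a76d32c063)) e e)))))))))))))))
 (c z
 (c z e
 (c z e
 (c z e
 (c z e
 (c z e
 (c z e
 (c z e
 (c z e
 (c (a (nat_lit 0xd32922a4527c745a7)) e e)))))))))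
 (c z
 (c z e
 (c z e
 (c z e
 (c z e
 (c z e
 (c z e
 (c (a (nat_lit 0xc29f48624e4c7a327)) e
 (c (a (nat_lit 0xbbbcfce6bef284c27)) e e))))))))
 (c (a (nat_lit 0x20202020203247))
 (c z e
 (c z e
 (c z e
 (c z e
 (c z e
 (c (a (nat_lit 0x4e9e5c504e7eb5147)) e e))))))
 (c (a (nat_lit 0x20202020350b27)) e
 (c (a (nat_lit 0x20202030e402e8)) e
 (c (a (nat_lit 0x202031e8a2e1a7)) e
 (c (a (nat_lit 0x607f90e5858046)) e
 (c z e
 (c z e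
 (c z e
 (c z e
 (c z e
 (c z e
 (c (a (nat_lit 0x172c588644a54405)) e e))))))))))))))))))) Tr.c Tr.e (nat_lit 0) C.cx C.cy
noncomputable def C654 : Tr := beta% (fun (c : Nat → Tr → Tr → Tr) (e : Tr) (z : Nat) (a : Nat → Nat) =>
 (c z
 (c (a (nat_lit 0x1e1e1ff6442a5f305))
 (c z e
 (c z e
 (c z e
 (c z e
 (c z e
 (c z e
 (c z e
 (c z e
 (c z e
 (c (a (nat_lit 0x1a1e1a16100c1a15267)) e
 (c z e
 (c (a (nat_lit 0x1e38304a241078a3607)) e e))))))))))))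
 (c (a (nat_lit 0x1213362c1c36db346))
 (c z e
 (c z e
 (c z e
 (c z e
 (c z e
 (c (a (nat_lit 0x1c401a9c54581764068)) e
 (c z e
 (c z e
 (c z e
 (c z e
 (c (a (nat_lit 0x4e5662501a5c9d124a8)) e e)))))))))))
 (c z e
 (c z e
 (c z e
 (c z e
 (c z e
 (c z e
 (c z e
 (c z e
 (c z e
 (c (a (nat_lit 0x1270edae2907238305)) e
 (c (a (nat_lit 0x1db67bd77f770f3c25)) e e)))))))))))))
 (c z
 (c (a (nat_lit 0x37003a4a591daf1e4))
 (c z e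
 (c z e
 (c z e
 (c z e
 (c z e
 (c z e
 (c z e
 (c z e
 (c z e
 (c z e
 (c z e
 (c (a (nat_lit 0x889b5a76604a0000008)) e e))))))))))))
 (c (a (nat_lit 0x9c50785979a1d1a85))
 (c z e
 (c z e
 (c z e
 (c z e
 (c (a (nat_lit 0x5d0c8c72887068a83c8)) e
 (c z e
 (c z e
 (c z e
 (c z e
 (c z e
 (c (a (nat_lit 0x67223e3032000000009)) e e)))))))))))
 (c z e
 (c z e
 (c z e
 (c (a (nat_lit 0x86e03a603c90f5165)) e
 (c z e
 (c z e
 (c z e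
 (c (a (nat_lit 0x1715181250a6460465)) e
 (c (a (nat_lit 0x15b87012ea69e766a5)) e
 (c (a (nat_lit 0xe6a4cd3f3b0eed426)) e e))))))))))))
 (c z
 (c (a (nat_lit 0x485658acb2e2cb146))
 (c z e
 (c z e
 (c z e
 (c z e
 (c z e
 (c z e
 (c z e
 (c z e
 (c z e
 (c z e
 (c (a (nat_lit 0x1ea1a883600000000007)) e e)))))))))))
 (c z e
 (c z e
 (c z e
 (c (a (nat_lit 0xbcd696943319ea684)) e
 (c z e
 (c z e
 (c z e
 (c (a (nat_lit 0x1697db11f12cac6dc5)) e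
 (c (a (nat_lit 0x14914b4dcaa9a914c5)) e e))))))))))
 (c z
 (c z e
 (c z e
 (c z e
 (c z e
 (c z e
 (c z e
 (c z e
 (c (a (nat_lit 0xa68146d0e0be6c7e6)) e
 (c (a (nat_lit 0xffb8d708f6cfd3745)) e e)))))))))
 (c z
 (c z e
 (c z e
 (c z e
 (c z e
 (c z e
 (c (a (nat_lit 0x542f269cc710f9ec5)) e
 (c z e
 (c z e
 (c z e
 (c z e
 (c z e
 (c (a (nat_lit 0x1158e2604c2600005)) e e))))))))))))
 (c (a (nat_lit 0x20202020203da5))
 (c z e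
 (c z e
 (c z e
 (c z e
 (c (a (nat_lit 0xa0c46ee39b9dcfd45)) e e)))))
 (c (a (nat_lit 0xc0c0c0c0d0c466))
 (c (a (nat_lit 0xf3338799b7d5159a6)) e
 (c (a (nat_lit 0x92d4e6fb0e9ac8b67)) e
 (c z e
 (c (a (nat_lit 0xcb054c3b04f754405)) e
 (c z e
 (c z e
 (c (a (nat_lit 0xb6ecf4d5c6c650547)) e e)))))))
 (c (a (nat_lit 0x1010101198de445))
 (c z e
 (c z e
 (c z e
 (c z e
 (c (a (nat_lit 0x8e512f56ae9e3e726)) e
 (c (a (nat_lit 0x9e92ab42842406107)) e e))))))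
 (c (a (nat_lit 0x2020398f03a2a5)) e
 (c (a (nat_lit 0xa0be266524e465))
 (c (a (nat_lit 0xa89e98ca665e57fa6)) e e)
 (c z e
 (c (a (nat_lit 0x10a745c584e88825))
 (c z e
 (c (a (nat_lit 0x184ee7e7a860000006)) e e))
 (c (a (nat_lit 0x106eceae3d1c3c24)) e
 (c z e
 (c z e
 (c (a (nat_lit 0x5fd064e82c463e2)) e
 (c (a (nat_lit 0x1be52d81c3c36722)) e
 (c (a (nat_lit 0x1a3a0a161421004)) e
 (c z e
 (c (a (nat_lit 0x8086788f6a46444)) e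
 (c z e
 (c (a (nat_lit 0x3e4d3814120e004)) e
 (c (a (nat_lit 0x432e0e080000004)) e e)))))))))))))))))))))))) Tr.c Tr.e (nat_lit 0) C.cx
noncomputable def C655 : Tr := beta% (fun (c : Nat → Tr → Tr → Tr) (e : Tr) (z : Nat) (a : Nat → Nat) =>
 (c z
 (c z
 (c (a (nat_lit 0x78787879f0987c9c962)) e
 (c (a (nat_lit 0x3636372e46465862644)) e
 (c (a (nat_lit 0x343554483662588a684)) e e)))
 (c z
 (c (a (nat_lit 0x68691658a094d5091c4)) e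
 (c z e
 (c z e
 (c z e
 (c z e
 (c z e
 (c z e
 (c z e
 (c z e
 (c z e
 (c z e
 (c z e
 (c z e
 (c z e
 (c (a (nat_lit 0x4e7894acb6bcd1a74a7)) e e)))))))))))))))
 (c (a (nat_lit 0x8080808080809245))
 (c z e
 (c z e
 (c z e
 (c z e
 (c z e
 (c z e
 (c z e
 (c z e
 (c z e
 (c z e
 (c z e
 (c z e
 (c z e
 (c (a (nat_lit 0x70808894accb70fc6a7)) e e))))))))))))))
 (c (a (nat_lit 0xe0e0e0e0e0f64205))
 (c z e
 (c z e
 (c z e
 (c z e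
 (c z e
 (c z e
 (c z e
 (c z e
 (c z e
 (c z e
 (c z e
 (c z e
 (c (a (nat_lit 0x707e8284955ee44cc47)) e
 (c (a (nat_lit 0x4e5054545a9938702a8)) e e))))))))))))))
 (c (a (nat_lit 0x1c1c1c1c1db8221e4)) e
 (c (a (nat_lit 0x1a1a1a1b861a22164)) e
 (c (a (nat_lit 0x121213144416345a5)) e
 (c (a (nat_lit 0x2a2b5aae5064422e5)) e
 (c z e
 (c (a (nat_lit 0x18a8a769c604814125)) e
 (c z e
 (c z e
 (c z e
 (c z e
 (c z e
 (c z e
 (c (a (nat_lit 0x1170f1b1aae9260485)) e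
 (c (a (nat_lit 0x1373f4f5f04c8acfe5)) e e))))))))))))))))))
 (c z
 (c (a (nat_lit 0x2c2c2c2c2c2c2d524)) e
 (c (a (nat_lit 0x1010101010116e626)) e
 (c (a (nat_lit 0x10101010118e302e6)) e
 (c (a (nat_lit 0x282828295e3e3e085))
 (c z e
 (c z e
 (c z e
 (c z e
 (c z e
 (c z e
 (c z e
 (c z e
 (c z e
 (c z e
 (c (a (nat_lit 0x6a6ed8e6e11840cfc87)) e
 (c (a (nat_lit 0x686c7500ef10749c609)) e e))))))))))))
 (c (a (nat_lit 0x2a2a2b4a6e443b425))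
 (c z e
 (c z e
 (c z e
 (c z e
 (c z e
 (c z e
 (c z e
 (c (a (nat_lit 0x41a2c1c1e161a1d128)) e
 (c (a (nat_lit 0x50906284b636529d6c7)) e
 (c (a (nat_lit 0x467a7664622868976c8)) e e))))))))))
 (c (a (nat_lit 0x12130a8236449a8e6))
 (c z e
 (c z e
 (c z e
 (c z e
 (c z e
 (c (a (nat_lit 0x6666666a84686a99e27)) e
 (c (a (nat_lit 0x2024102c24282387d08)) e
 (c (a (nat_lit 0x604274685a4ef318b68)) e
 (c (a (nat_lit 0x68786e6a2ab2e73aba8)) e e)))))))))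
 (c z e
 (c z e
 (c z e
 (c z e
 (c z e
 (c z e
 (c z e
 (c z e
 (c (a (nat_lit 0x1d3a1cb76f8f470446)) e
 (c z e
 (c z e
 (c (a (nat_lit 0x10ef1a8784e5858344)) e
 (c (a (nat_lit 0xad0670604a4a3a485)) e
 (c (a (nat_lit 0x18052282c281c4a184)) e e))))))))))))))))))))
 (c z
 (c (a (nat_lit 0xc0c0c0c0d002e205)) e
 (c (a (nat_lit 0x12121213841c14346))
 (c z e
 (c z e
 (c z e
 (c z e
 (c z e
 (c z e
 (c z e
 (c z e
 (c z e
 (c z e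
 (c z e
 (c z e
 (c z e
 (c z e
 (c (a (nat_lit 0x4e52566d6400000000a)) e e)))))))))))))))
 (c (a (nat_lit 0x12121304361838746))
 (c z e
 (c z e
 (c z e
 (c z e
 (c z e
 (c z e
 (c z e
 (c z e
 (c (a (nat_lit 0x2e56725462682ca7fc6)) e
 (c z e
 (c (a (nat_lit 0x448aa6d4462c84d5ba8)) e e)))))))))))
 (c (a (nat_lit 0x1010f03a2a48a9206))
 (c z e
 (c z e
 (c z e
 (c z e
 (c z e
 (c z e
 (c z e
 (c (a (nat_lit 0x223660263c1654a93a7)) e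
 (c z e
 (c (a (nat_lit 0x8880ac180e088134208)) e e))))))))))
 (c z e
 (c z e
 (c z e
 (c z e
 (c z e
 (c z e
 (c z e
 (c z e
 (c (a (nat_lit 0xc116c4aa846236226)) e
 (c (a (nat_lit 0x1d97b7b16d8907ea06)) e
 (c z e
 (c (a (nat_lit 0xecfaf1b19f5155fc6)) e
 (c z e
 (c (a (nat_lit 0x1268a6e485e4c48184)) e e))))))))))))))))))
 C654)))) Tr.c Tr.e (nat_lit 0) C.cx
noncomputable def C657 : Tr := beta% (fun (c : Nat → Tr → Tr → Tr) (e : Tr) (z : Nat) (a b : Nat → Nat) =>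
 (c (a (nat_lit 0x6060606061))
 (c (a (nat_lit 0x20203c87e4))
 (c (a (nat_lit 0x8eac70548dc33c4)) e
 (c z e
 (c z e
 (c z e
 (c (a (nat_lit 0xb7e8987286d7a84)) e
 (c (a (nat_lit 0x11e78600e8029125)) e
 (c z e
 (c z e
 (c (a (nat_lit 0x1695f853416d66)) e
 (c (b (nat_lit 0x1feb0e4ab0c00006)) e
 (c (a (nat_lit 0x977804000000004)) e
 (c (a (nat_lit 0x1760000000000004)) e e))))))))))))
 (c (a (nat_lit 0x203de40206)) e
 (c (a (nat_lit 0x31e7012045)) e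
 (c (a (nat_lit 0x2524a66246145)) e
 (c (a (nat_lit 0x1ccb8725c5ab65))
 (c (a (nat_lit 0x2c382c2c1a73108)) e
 (c (a (nat_lit 0x2424541acf37168)) e e))
 (c (a (nat_lit 0x17c6c0a1177c03))
 (c (a (nat_lit 0x327448fdc5824c7)) e e)
 (c z e
 (c z e
 (c (a (nat_lit 0x953d512725286)) e
 (c (a (nat_lit 0x1f9cbcbc7470a5)) e
 (c (b (nat_lit 0x120c042927fe3)) e
 (c (a (nat_lit 0x137353f7d2af85)) e
 (c z e
 (c (a (nat_lit 0x131a50ab2b30a4)) e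
 (c (a (nat_lit 0x1f8c01012c4003)) e
 (c (b (nat_lit 0x180202379fe142)) e e))))))))))))))))
 (c (nat_lit 1)
 (c (a (nat_lit 0x20312224c566))
 (c z e
 (c z e
 (c (a (nat_lit 0xd518f9810809345)) e e)))
 (c (a (nat_lit 0x5b4ca8a6a8186))
 (c (a (nat_lit 0xd51ba32a6c10845)) e
 (c z e
 (c z e
 (c z e
 (c z e
 (c (a (nat_lit 0xcab7499a34b4007)) e e))))))
 (c z e
 (c z e
 (c (a (nat_lit 0x116584e46881a5))
 (c (a (nat_lit 0x74909d8dc350367)) e e)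
 (c z e
 (c (a (nat_lit 0xf17ba16d1e8c6)) e
 (c (a (nat_lit 0x1fbed4d475d5a5)) e
 (c (a (nat_lit 0x1550706cb26986)) e
 (c z e
 (c z e
 (c (b (nat_lit 0x1ff34e51f3aec4)) e
 (c (a (nat_lit 0x14921414f27105)) e
 (c (a (nat_lit 0x15591ad6332604)) e e))))))))))))))
 (c (a (nat_lit 0x12121212121))
 (c (a (nat_lit 0x1abb6f0a606863))
 (c (a (nat_lit 0x814860320a12e24)) e
 (c (a (nat_lit 0x382016080849547)) e
 (c z e
 (c z e
 (c (a (nat_lit 0x4a2adb98df344c6)) e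
 (c (a (nat_lit 0x64d7cc2b0400006)) e e))))))
 (c (a (nat_lit 0x18f02c81894e44))
 (c (a (nat_lit 0x1c1a1810358e8e7)) e
 (c z e
 (c z e
 (c (a (nat_lit 0x467d28a2fc60008)) e
 (c (a (nat_lit 0x7b0a6e860000008)) e e)))))
 (c z e
 (c z e
 (c (a (nat_lit 0x91170ec8bc785)) e
 (c (a (nat_lit 0x1eff3cbcece645)) e
 (c z e
 (c z e
 (c z e
 (c (b (nat_lit 0x1ff7fbcd33c742)) e
 (c (a (nat_lit 0x14f86af1848342)) e
 (c (a (nat_lit 0x1acc12a56546e2)) e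
 (c z e
 (c (a (nat_lit 0x1fa505e6e00001)) e e))))))))))))))
 (c (a (nat_lit 0x8080808081))
 (c (a (nat_lit 0x143185ad6c8043))
 (c (a (nat_lit 0x1e261e258305c65)) e
 (c z e
 (c z e
 (c (a (nat_lit 0x5ef4cf347200007)) e
 (c (a (nat_lit 0x1af6912000000006)) e e)))))
 (c z e
 (c z e
 (c (a (nat_lit 0x127211514a6925)) e
 (c (a (nat_lit 0x13b3736c07e766)) e
 (c z e
 (c z e
 (c (b (nat_lit 0x1ff139c74ec041)) e
 (c (a (nat_lit 0x145c0c94614001)) e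
 (c (a (nat_lit 0x1e2e96872484a1)) e
 (c z e
 (c (a (nat_lit 0x150762c321c001)) e e))))))))))))
 (c (a (nat_lit 0x6060606061))
 (c (a (nat_lit 0x1d4d59480027e3))
 (c (a (nat_lit 0x14b38a563e38107)) e
 (c (a (nat_lit 0xddfd574e5600007)) e e))
 (c (a (nat_lit 0xf7222a169b283))
 (c (a (nat_lit 0xb9876a380000007)) e e)
 (c z e
 (c z e
 (c z e
 (c (a (nat_lit 0x20e0c0609185)) e
 (c (a (nat_lit 0x4181c3a4e041)) e
 (c (a (nat_lit 0x13d29555accd62)) e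
 (c z e
 (c (a (nat_lit 0x1677a5a343a2e1)) e
 (c (a (nat_lit 0x15c602c1200001)) e e)))))))))))
 (c (a (nat_lit 0x40202001))
 (c (a (nat_lit 0xe0e6eb0551363))
 (c (a (nat_lit 0x1db362a000000005)) e e)
 (c z e
 (c z e
 (c (a (nat_lit 0xacc9493b39b86)) e
 (c (a (nat_lit 0x90f1b1713785)) e
 (c (a (nat_lit 0x1e512facad0cc2)) e
 (c z e
 (c (b (nat_lit 0x1fffe2c2e26001)) e
 (c (a (nat_lit 0xc64a2c2418001)) e e)))))))))
 (c (a (nat_lit 0x6060606061))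
 (c z e
 (c (a (nat_lit 0x5240282d345)) e
 (c z e
 (c z e
 (c z e
 (c (a (nat_lit 0x10b04f2f95f143)) e
 (c (a (nat_lit 0x5c485f247a002)) e
 (c (a (nat_lit 0x46410a0a00002)) e
 (c (a (nat_lit 0x13902000000002)) e e)))))))))
 (c (a (nat_lit 0x2020404021))
 (c (a (nat_lit 0x16c4e0dcdb205)) e
 (c z e
 (c z e
 (c (a (nat_lit 0x14f514b4b75304)) e
 (c (a (nat_lit 0x17b79739d5aec4)) e
 (c (a (nat_lit 0x11f10080804003)) e
 (c (a (nat_lit 0x1100a040000003)) e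
 (c (a (nat_lit 0x1400000000001)) e e))))))))
 (c (a (nat_lit 0x4040404041))
 (c z e
 (c (a (nat_lit 0x1878b898b85665)) e
 (c (a (nat_lit 0x17373757573466)) e
 (c (a (nat_lit 0x1cbc864726e6c3)) e
 (c (a (nat_lit 0x15e02080200003)) e
 (c (a (nat_lit 0x16000000001)) e e))))))
 (c (a (nat_lit 0x12121212121))
 (c (a (nat_lit 0x1878789897d506)) e
 (c (a (nat_lit 0x12727005e4c424)) e
 (c (a (nat_lit 0x1c57a181202003)) e
 (c (a (nat_lit 0x17e1a040000003)) e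
 (c (a (nat_lit 0x5a00000000001)) e e)))))
 (c (a (nat_lit 0xe0e0e0e0e1)) e
 (c (a (nat_lit 0x4040406061)) e
 (c (a (nat_lit 0x8080808081)) e
 (c (a (nat_lit 0x40404046a1)) e
 (c (a (nat_lit 0x2000f024)) e
 (c (a (nat_lit 0x13fcf83)) e
 (c (a (nat_lit 0x7f8f4023)) e
 (c (a (nat_lit 0x9f8f402043)) e
 (c (a (nat_lit 0x1f6f202020e3)) e
 (c (b (nat_lit 0x1e004061dfe2)) e
 (c (a (nat_lit 0x19195cd2d6c1)) e
 (c z e
 (c (a (nat_lit 0xac44705a421)) e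
 (c (a (nat_lit 0x2180400001)) e
 (c (a (nat_lit 0x14000000001)) e e)))))))))))))))))))))))))) Tr.c Tr.e (nat_lit 0) C.cx C.cy
noncomputable def C658 : Tr := beta% (fun (c : Nat → Tr → Tr → Tr) (e : Tr) (z : Nat) (a b : Nat → Nat) =>
 (c (a (nat_lit 0x4040404041))
 (c z
 (c (a (nat_lit 0x1833f50f8e564043))
 (c z e
 (c z e
 (c z e
 (c z e
 (c (a (nat_lit 0x426a3c7f52a7b4c86)) e e)))))
 (c (b (nat_lit 0x10f1523433069fe6))
 (c z e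
 (c z e
 (c z e
 (c z e
 (c (a (nat_lit 0x625c90cee73d133e7)) e e)))))
 (c z e
 (c z e
 (c (a (nat_lit 0xdf18e0520210da5))
 (c (a (nat_lit 0x144acd8684e3a8e787)) e
 (c (a (nat_lit 0x1094ecc381cb2bcda7)) e e))
 (c (a (nat_lit 0x1a4ec0e0642cc0c4)) e
 (c z e
 (c z e
 (c z e
 (c (a (nat_lit 0xb37f4b8bb70ed65)) e
 (c (a (nat_lit 0xe2f51d1aec946c6)) e
 (c (b (nat_lit 0x14b7b8d6ffe9c3a6)) e
 (c z e
 (c z e
 (c (a (nat_lit 0x1cfa5c5b1afdbaa4)) e e)))))))))))))))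
 (c z
 (c z e
 (c z e
 (c z e
 (c (a (nat_lit 0x181121c142d48025)) e
 (c z e
 (c z e
 (c z e
 (c z e
 (c z e
 (c (a (nat_lit 0x11791c74b22f8ac6)) e
 (c z e
 (c z e
 (c z e
 (c (a (nat_lit 0x177d5761514e004)) e e))))))))))))))
 (c z
 (c z e
 (c z e
 (c z e
 (c z e
 (c z e
 (c z e
 (c (a (nat_lit 0xfde5a52f6480185)) e e)))))))
 (c z
 (c z e
 (c z e
 (c z e
 (c z e
 (c z e
 (c (a (nat_lit 0xbcd86fa0f242206)) e e))))))
 (c z
 (c z e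
 (c (a (nat_lit 0x9348c8b63a29086))
 (c (a (nat_lit 0x9900faa4a45c00007)) e e)
 (c z e
 (c z e
 (c (a (nat_lit 0x2a0a0c70324d067)) e
 (c z e
 (c (a (nat_lit 0xcf1cef3b94c0b07)) e e)))))))
 (c (a (nat_lit 0x2020202033a4))
 (c (a (nat_lit 0x10ea68c362c4ec45)) e
 (c z e
 (c z e
 (c z e
 (c (a (nat_lit 0x635d1bd262ba8c5)) e
 (c (a (nat_lit 0x94d92c885c90e26)) e e))))))
 (c (a (nat_lit 0x2020203ff583))
 (c (a (nat_lit 0x1208a0806495c784)) e e)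
 (c (a (nat_lit 0x2035072405)) e
 (c (a (nat_lit 0x2c2d1a523a466)) e
 (c (b (nat_lit 0x1ff0aa63a2ee64))
 (c z e
 (c (a (nat_lit 0x465ef34ace6c007)) e e))
 (c (a (nat_lit 0x3c841c56b5ae5))
 (c (a (nat_lit 0x87498e967000006)) e e)
 (c (a (nat_lit 0x5c4c70a11cf46))
 (c (a (nat_lit 0x1a40400000000008)) e e)
 (c z e
 (c z e
 (c (a (nat_lit 0x97d1064c4a544)) e
 (c (a (nat_lit 0x190c6120c1ad04)) e
 (c (b (nat_lit 0x1781004238bfe3)) e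
 (c (a (nat_lit 0xb8b8bd1aa84a5)) e
 (c z e
 (c z e
 (c (a (nat_lit 0x1c0de222c26004)) e e)))))))))))))))))))))
 (c (a (nat_lit 0x2020202021))
 (c z
 (c (a (nat_lit 0xa5a1634b4d454e3))
 (c z e
 (c (a (nat_lit 0x12c6e4e164650930e6)) e
 (c (a (nat_lit 0x3048024a365b58fe6)) e
 (c (a (nat_lit 0x787ca882afd510d46)) e e))))
 (c (a (nat_lit 0x1b512c8fceeb2104))
 (c (a (nat_lit 0x56521a2838828b767)) e
 (c z e
 (c z e
 (c z e
 (c (a (nat_lit 0x1e3b0d4240242e1e8)) e e)))))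
 (c (a (nat_lit 0x154fb02ed0e6e083)) e
 (c z e
 (c z e
 (c (a (nat_lit 0x7c8868a8d895245))
 (c (a (nat_lit 0x1668cec763e0000006)) e e)
 (c z e
 (c z e
 (c z e
 (c (a (nat_lit 0x120df3d4e9e503e6)) e
 (c z e
 (c z e
 (c (a (nat_lit 0x12452060e0c1c025)) e
 (c (a (nat_lit 0x18c4c5a544c00003)) e e))))))))))))))
 (c z
 (c (a (nat_lit 0x1b92b8b7cf66a164))
 (c (a (nat_lit 0xac564a6aacdb7eb46)) e
 (c (a (nat_lit 0xa84a46d3b1615d0c7)) e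
 (c z e
 (c (a (nat_lit 0x1a38f31c584446288)) e
 (c (a (nat_lit 0x2b010014181c0c088)) e
 (c (a (nat_lit 0x13f8e44442b1e00006)) e e))))))
 (c z e
 (c z e
 (c (a (nat_lit 0x1bba51d63edbd3a4)) e
 (c (a (nat_lit 0x4004289a66373e5)) e
 (c z e
 (c z e
 (c z e
 (c (a (nat_lit 0xe8c93cae86843c7)) e
 (c z e
 (c z e
 (c (a (nat_lit 0xe30ed6ccccc6006)) e
 (c (a (nat_lit 0x1204818100000004)) e e)))))))))))))
 (c z e
 (c (a (nat_lit 0x202020203685)) e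
 (c (a (nat_lit 0x20202030c8c4))
 (c z e
 (c (a (nat_lit 0xaed8b4b50100ee6)) e
 (c z e
 (c (a (nat_lit 0xc8ebb2c6ef23465)) e
 (c z e
 (c (a (nat_lit 0x1374536eaf469f46)) e e))))))
 (c (a (nat_lit 0x60607a574d43))
 (c (a (nat_lit 0x543e2c62b5163c5)) e
 (c z e
 (c z e
 (c z e
 (c (a (nat_lit 0x17db32b5e37d97c6)) e e)))))
 (c (a (nat_lit 0x1c1d549268405)) e
 (c z e
 (c z e
 (c (a (nat_lit 0x845e629312fe5))
 (c (a (nat_lit 0x255af2680000005)) e e)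
 (c z e
 (c z e
 (c (a (nat_lit 0xd9857399857e3)) e
 (c (a (nat_lit 0x104eafaeb0a963)) e
 (c (a (nat_lit 0x124f0d1226c222)) e
 (c (a (nat_lit 0x11b152afeecb44)) e
 (c z e
 (c (a (nat_lit 0x114c2a63004163)) e
 (c (a (nat_lit 0x1efb4c03a8c2a2)) e e)))))))))))))))))))
 (c (nat_lit 1)
 (c z
 (c (a (nat_lit 0xf35144ba660c043))
 (c z e
 (c z e
 (c z e
 (c (a (nat_lit 0x3381949298b088506)) e
 (c (a (nat_lit 0x17daa22262c3c28006)) e e)))))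
 (c z e
 (c z e
 (c (a (nat_lit 0x80604c651500f85)) e
 (c (a (nat_lit 0x240a2522acdebc5)) e
 (c z e
 (c z e
 (c (a (nat_lit 0x1f587c9712234565)) e
 (c (a (nat_lit 0x13f5762f0f68e386)) e
 (c (a (nat_lit 0x161713791491faa6)) e
 (c (a (nat_lit 0xbec08117214f506)) e
 (c (a (nat_lit 0x1308a2c221e00004)) e e))))))))))))
 (c (a (nat_lit 0x2020202030c5))
 (c (a (nat_lit 0x362e2c1a1e39087))
 (c (a (nat_lit 0x83179922f697b4ba6)) e e)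
 (c z e
 (c z e
 (c z e
 (c z e
 (c (a (nat_lit 0x5d1476ceb8862c7)) e
 (c z e
 (c z e
 (c z e
 (c (a (nat_lit 0xca66c2ceef1a007)) e
 (c (a (nat_lit 0x1da1430100000005)) e e)))))))))))
 (c (a (nat_lit 0x2020203846a5)) e
 (c (a (nat_lit 0x140b41c4))
 (c z e
 (c (a (nat_lit 0x909a4a876292085)) e
 (c z e
 (c z e
 (c z e
 (c (a (nat_lit 0x948c7266631a907)) e e))))))
 (c (a (nat_lit 0x1939c88523))
 (c (a (nat_lit 0xbe5c91a37935aa4)) e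
 (c z e
 (c z e
 (c (a (nat_lit 0x484e4864ab2dca7)) e
 (c (a (nat_lit 0xb0b88e2305923a7)) e e)))))
 (c (a (nat_lit 0x1d32a064505c5)) e
 (c (a (nat_lit 0x16c44180210ba5))
 (c (a (nat_lit 0x2a8a48614914567)) e e)
 (c (a (nat_lit 0xa684627367525))
 (c z e
 (c (a (nat_lit 0xcd2fe8560000007)) e e))
 (c (a (nat_lit 0x6a7075372d266))
 (c (a (nat_lit 0x1477456000000006)) e e)
 (c z e
 (c (a (nat_lit 0x6f411b3530c86)) e
 (c (a (nat_lit 0x170dd4d3eac864)) e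
 (c (b (nat_lit 0xe9a78c8653fe3)) e
 (c (a (nat_lit 0x15f56ccba3e144)) e
 (c z e
 (c (a (nat_lit 0x163264a04e01e3)) e
 (c (b (nat_lit 0x13a5c0cf22ffe3)) e
 (c (b (nat_lit 0x541d8dfe02002)) e e))))))))))))))))))
 C657)))) Tr.c Tr.e (nat_lit 0) C.cx C.cy
noncomputable def C659 : Tr := beta% (fun (c : Nat → Tr → Tr → Tr) (e : Tr) (z : Nat) (a b : Nat → Nat) =>
 (c z
 (c (a (nat_lit 0x40404118b6e4b63))
 (c z e
 (c z e
 (c z e
 (c z e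
 (c (a (nat_lit 0x86886da476a884785)) e
 (c z e
 (c z e
 (c z e
 (c z e
 (c z e
 (c z e
 (c z e
 (c z e
 (c (a (nat_lit 0x3c38812e000000007)) e e))))))))))))))
 (c (a (nat_lit 0x4050ad8f480125))
 (c (a (nat_lit 0x3c46a896c2eec5346)) e
 (c z e
 (c z e
 (c z e
 (c z e
 (c (a (nat_lit 0x98acb67adab2635a6)) e
 (c z e
 (c z e
 (c z e
 (c z e
 (c (a (nat_lit 0x4c873eed28ac34007)) e e)))))))))))
 (c z e
 (c (a (nat_lit 0x1591b532102b0724))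
 (c z e
 (c (b (nat_lit 0x4a45fe86789b60f47)) e
 (c z e
 (c z e
 (c z e
 (c (a (nat_lit 0x4858564a395ea2808)) e
 (c (a (nat_lit 0x64943827e2a29e387)) e e)))))))
 (c (a (nat_lit 0x6d1ec9a8bfc28c3))
 (c z e
 (c z e
 (c (a (nat_lit 0x9f0b3524d86f20cc7)) e
 (c (a (nat_lit 0x119a97a98552f0efc6)) e
 (c (a (nat_lit 0xc8dc801d7e74482c7)) e
 (c (a (nat_lit 0xd2903f2ce0781e207)) e e))))))
 (c z e
 (c (a (nat_lit 0x8a908528846a4a4))
 (c (a (nat_lit 0x7896e6c6ac61c7365)) e e)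
 (c z e
 (c (a (nat_lit 0x11149e946f1cc83))
 (c (a (nat_lit 0x11b2a34462e2600007)) e e)
 (c (a (nat_lit 0xb6aa7b3dd3e1964)) e
 (c z e
 (c (a (nat_lit 0x50e93b3507c3285)) e
 (c (b (nat_lit 0x1aa50d23dcc1fe5)) e
 (c (a (nat_lit 0x70a8cb2cc67c406)) e
 (c (a (nat_lit 0x6c6318be8856784)) e
 (c z e
 (c (a (nat_lit 0x112c8986286b64e4)) e e)))))))))))))))))
 (c z
 (c (a (nat_lit 0x1450b20a43c265))
 (c z e
 (c z e
 (c z e
 (c z e
 (c (a (nat_lit 0x86aacca6bf8339967)) e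
 (c z e
 (c z e
 (c z e
 (c z e
 (c z e
 (c (a (nat_lit 0x5498bb0c843e00007)) e e)))))))))))
 (c z e
 (c z e
 (c z e
 (c (a (nat_lit 0x101676fbcc424105))
 (c z e
 (c (a (nat_lit 0x1330f0736a2af55868)) e e))
 (c (a (nat_lit 0x16df7a49ca0c1344))
 (c (a (nat_lit 0xf110eca0c7fafb926)) e e)
 (c z e
 (c z e
 (c z e
 (c z e
 (c (a (nat_lit 0x6723816f6738366)) e
 (c z e
 (c z e
 (c z e
 (c z e
 (c (a (nat_lit 0x1501a28341a0c003)) e e))))))))))))))))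
 (c z e
 (c z
 (c z e
 (c (a (nat_lit 0x55235d04e418e24))
 (c (a (nat_lit 0xb6aa6e828cdb2e9c8)) e
 (c z e
 (c z e
 (c z e
 (c z e
 (c (a (nat_lit 0x1537ef22e6e0000008)) e e))))))
 (c z e
 (c z e
 (c z e
 (c z e
 (c (a (nat_lit 0x7472a92938fc826)) e
 (c z e
 (c z e
 (c z e
 (c (a (nat_lit 0x128ecbea6601e8a7)) e
 (c (a (nat_lit 0x1105c120c160fde5)) e e))))))))))))
 (c z
 (c (a (nat_lit 0x96624e3e13029c3))
 (c z e
 (c z e
 (c z e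
 (c z e
 (c (a (nat_lit 0x11c227050a2d200006)) e
 (c (a (nat_lit 0x1e5f43e50000000006)) e e))))))
 (c z e
 (c z e
 (c z e
 (c (a (nat_lit 0x10efeb26020712c5)) e
 (c (a (nat_lit 0x119127cd8d962f65)) e
 (c z e
 (c z e
 (c (a (nat_lit 0xe8ef3f14b88eb06)) e
 (c (a (nat_lit 0x117653b735b53fa6)) e
 (c (a (nat_lit 0x134305528dad0105)) e e)))))))))))
 (c z
 (c z e
 (c (a (nat_lit 0x54ef9aee28220c5))
 (c (a (nat_lit 0x12ed5a788e722c007)) e e)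
 (c z e
 (c z e
 (c z e
 (c z e
 (c (a (nat_lit 0xd12b998bbf7d6c7)) e e)))))))
 (c z
 (c (a (nat_lit 0x1874d46600c20a43)) e
 (c (a (nat_lit 0xf70e3c262d2eec4)) e
 (c z e
 (c z e
 (c z e
 (c (a (nat_lit 0x52a6df14bc6b307)) e e))))))
 (c (a (nat_lit 0xa0a0a0c0d523))
 (c (a (nat_lit 0xa430464268d9264)) e e)
 (c (a (nat_lit 0x2020326385))
 (c (a (nat_lit 0x6872728aa8df305)) e
 (c (a (nat_lit 0x283c3882a128f26)) e
 (c z e
 (c z e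
 (c z e
 (c (a (nat_lit 0x88928acd8600008)) e
 (c (a (nat_lit 0x1fbc634000000003)) e e)))))))
 (c (a (nat_lit 0x80809c022025))
 (c (a (nat_lit 0x7250bb359abab45)) e
 (c z e
 (c z e
 (c (a (nat_lit 0xbae991afc4ae007)) e
 (c (a (nat_lit 0x8270af820000008)) e e)))))
 (c (a (nat_lit 0x3e3f1c9848124)) e
 (c (a (nat_lit 0xaad10c5a0e3c4))
 (c (a (nat_lit 0xd7c1dd45786c006)) e e)
 (c (a (nat_lit 0x54a05cd707d04)) e
 (c (a (nat_lit 0x78629cb5214a5)) e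
 (c (a (nat_lit 0x783878e591883)) e
 (c z e
 (c (a (nat_lit 0x247d4b3118783)) e
 (c (a (nat_lit 0xbf8d7364c70a3)) e
 (c (a (nat_lit 0x1290ea868a86a3)) e
 (c (a (nat_lit 0x1b14f1345127c3)) e
 (c z e
 (c (a (nat_lit 0x11f6332a2b0843)) e
 (c (a (nat_lit 0x108d84a2c00003)) e
 (c (a (nat_lit 0x18c3c000000002)) e e))))))))))))))))))))))))) Tr.c Tr.e (nat_lit 0) C.cx C.cy
noncomputable def C660 : Tr := beta% (fun (c : Nat → Tr → Tr → Tr) (e : Tr) (z : Nat) (a b : Nat → Nat) =>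
 (c z
 (c (a (nat_lit 0x203915354ba325))
 (c z e
 (c z e
 (c z e
 (c z e
 (c z e
 (c (a (nat_lit 0xb120fef504a2a7d46)) e
 (c z e
 (c z e
 (c (a (nat_lit 0x7c5e8c8302e0b13c7)) e e)))))))))
 (c z e
 (c z e
 (c z e
 (c z e
 (c z e
 (c z e
 (c z e
 (c (a (nat_lit 0xc268889d951ae86)) e e)))))))))
 (c z
 (c (a (nat_lit 0x128f704724440345))
 (c z e
 (c (a (nat_lit 0xa08087eb7f4ed9787)) e
 (c z e
 (c (a (nat_lit 0x574d506c730d2a3c7)) e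
 (c z e
 (c (a (nat_lit 0xbcc0a4d0eebd2ad07)) e
 (c z e
 (c z e
 (c z e
 (c (a (nat_lit 0x1c4779922c00000006)) e e))))))))))
 (c (b (nat_lit 0xecf2df02d04bfe5))
 (c (a (nat_lit 0x7c11172920bad5807)) e
 (c z e
 (c z e
 (c (a (nat_lit 0xfd22d91db9b160be7)) e
 (c (a (nat_lit 0x10ac2c59f4bace73a7)) e
 (c z e
 (c z e
 (c z e
 (c (a (nat_lit 0xf3979d42000000006)) e e)))))))))
 (c z e
 (c z e
 (c (a (nat_lit 0xe96166706c970c4)) e
 (c (a (nat_lit 0xf2f4365869149a4))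
 (c (a (nat_lit 0x54ee79226e36141e7)) e e)
 (c z e
 (c z e
 (c z e
 (c (a (nat_lit 0x4c791f593ea6a86)) e
 (c z e
 (c z e
 (c z e
 (c (a (nat_lit 0xf2525846373a1e3)) e
 (c (a (nat_lit 0x2a3438150e02003)) e e)))))))))))))))
 (c z
 (c (a (nat_lit 0x1553c918a98221e4))
 (c z e
 (c z e
 (c z e
 (c (a (nat_lit 0x118d0c563b1ccd2da6)) e
 (c (a (nat_lit 0x5652a28d18e094d47)) e
 (c z e
 (c z e
 (c (a (nat_lit 0x108ad42a0480000007)) e
 (c (a (nat_lit 0x183ce6e00000000006)) e e)))))))))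
 (c (a (nat_lit 0xcab6ef0a1208385))
 (c (a (nat_lit 0x17fa16314f3e345fc7)) e
 (c z e
 (c z e
 (c z e
 (c z e
 (c (a (nat_lit 0x12f81f364e90a00008)) e e))))))
 (c z e
 (c (a (nat_lit 0x191227ebea50a544))
 (c z e
 (c (a (nat_lit 0x44f2a1050458503a8)) e e))
 (c (a (nat_lit 0xcc5e66b51e47484))
 (c (a (nat_lit 0x124e110ee365c16007)) e e)
 (c z e
 (c (a (nat_lit 0xd4e8f0df7f74f25)) e
 (c (a (nat_lit 0xc0bcb1231adab66)) e
 (c (a (nat_lit 0x9adddfc716f6d46)) e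
 (c z e
 (c (a (nat_lit 0x177891cead628045)) e
 (c (a (nat_lit 0x1d222724cc869243)) e
 (c (a (nat_lit 0x245a32965f18903)) e e)))))))))))))
 (c z
 (c (a (nat_lit 0x385e8e0c083d245))
 (c (a (nat_lit 0x8088c8a8ff7fbcd06)) e
 (c z e
 (c z e
 (c z e
 (c (a (nat_lit 0x5b14d054a4c05e008)) e
 (c (a (nat_lit 0xbd36f864840000008)) e e))))))
 (c z e
 (c z e
 (c z e
 (c (a (nat_lit 0x156fd3fdbd18d685)) e
 (c (a (nat_lit 0xe50d7b575538ec6)) e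
 (c (a (nat_lit 0x5f213b8d8668465)) e
 (c z e
 (c z e
 (c (a (nat_lit 0x1575b454f42c7306)) e
 (c (a (nat_lit 0x1f64a2c18322efe4)) e
 (c (a (nat_lit 0x1270ef71b14ec004)) e e))))))))))))
 (c z
 (c z e
 (c z e
 (c z e
 (c z e
 (c (a (nat_lit 0xb6648c94db61365)) e e)))))
 (c z
 (c (a (nat_lit 0x94331c5850fd0a2))
 (c z e
 (c (a (nat_lit 0x1e96ad690820000006)) e e))
 (c (a (nat_lit 0x1d6e726cdfb9543))
 (c (a (nat_lit 0x1bcd4d090000000006)) e e)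
 (c (a (nat_lit 0xe4403ab30c88503)) e
 (c z e
 (c z e
 (c (a (nat_lit 0x5c71518bc31fa66)) e e))))))
 (c z
 (c z e
 (c z e
 (c z e
 (c (a (nat_lit 0x404a3a5492754a6)) e
 (c (a (nat_lit 0x6c8ac72b1d18fa7)) e e)))))
 (c (a (nat_lit 0x20202039a5))
 (c (a (nat_lit 0xb90128d76d1f424)) e
 (c (a (nat_lit 0x4238589aa3825)) e
 (c (a (nat_lit 0xc4aad90795ffb26)) e
 (c z e
 (c z e
 (c (a (nat_lit 0xa6a2a48eabde008)) e e))))))
 (c (a (nat_lit 0x2020314246))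
 (c (a (nat_lit 0x526901298dccd25)) e
 (c z e
 (c z e
 (c z e
 (c (a (nat_lit 0x80887695cc00008)) e
 (c (a (nat_lit 0x1e8404a000000004)) e e))))))
 (c (a (nat_lit 0x40405c2ce304))
 (c z e
 (c (a (nat_lit 0xf8f5b55af0dbb67)) e e))
 (c (a (nat_lit 0x383947080a004))
 (c (a (nat_lit 0x129ad9d316132ca6)) e e)
 (c (a (nat_lit 0x155e1d0b2baac3)) e
 (c (a (nat_lit 0x8e8822cec1b04)) e
 (c (a (nat_lit 0xd4063c2963583)) e
 (c (a (nat_lit 0x82a07dbfc0523)) e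
 (c (a (nat_lit 0x3c3b756a02003)) e
 (c (a (nat_lit 0x2f81862a18043)) e
 (c (a (nat_lit 0x1979a382826283)) e
 (c (a (nat_lit 0x180100e0c0e003)) e
 (c (a (nat_lit 0x18d7d7182e8922)) e
 (c z e
 (c (a (nat_lit 0x1a7d4e21a16001)) e
 (c (a (nat_lit 0x1f6f4180000001)) e
 (c (a (nat_lit 0xde00000000001)) e e))))))))))))))))))))))))) Tr.c Tr.e (nat_lit 0) C.cx C.cy
noncomputable def C661 : Tr := beta% (fun (c : Nat → Tr → Tr → Tr) (e : Tr) (z : Nat) (a b : Nat → Nat) =>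
 (c z
 (c (a (nat_lit 0xb2b2b2b2b2b3402))
 (c z e
 (c (a (nat_lit 0xc3c5a4ad6cf545e5))
 (c z e
 (c z e
 (c z e
 (c z e
 (c z e
 (c z e
 (c z e
 (c z e
 (c (a (nat_lit 0xa1fc43c24545e20007)) e e)))))))))
 (c (a (nat_lit 0x3c444046506a67007)) e
 (c z e
 (c z e
 (c z e
 (c (a (nat_lit 0xb0dc362e2a2e3b825)) e
 (c z e
 (c z e
 (c z e
 (c z e
 (c z e
 (c (a (nat_lit 0x1230749a72aa69626)) e
 (c (a (nat_lit 0x2c525e524477a6bc7)) e
 (c (a (nat_lit 0x3c42363a446b8a007)) e e)))))))))))))))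
 (c (a (nat_lit 0x161818181934944))
 (c (a (nat_lit 0x301c116f5798f71a4))
 (c z e
 (c z e
 (c z e
 (c z e
 (c z e
 (c (a (nat_lit 0x6d2e424e12543e142a8)) e
 (c z e
 (c z e
 (c (a (nat_lit 0x47704a503e2a2c00008)) e e)))))))))
 (c z e
 (c z e
 (c z e
 (c (a (nat_lit 0x10b14db41674126ce6))
 (c z e
 (c (a (nat_lit 0x162b218241046266e429)) e e))
 (c z e
 (c z e
 (c z e
 (c z e
 (c z e
 (c z e
 (c z e
 (c z e
 (c (a (nat_lit 0x343030405f1e00009)) e e))))))))))))))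
 (c (a (nat_lit 0x2020203751d0a5))
 (c z e
 (c z e
 (c z e
 (c z e
 (c z e
 (c (a (nat_lit 0xe70b18745a80841c7)) e
 (c (a (nat_lit 0x10f1c744a667e1c507)) e
 (c (a (nat_lit 0x13e986a8c74687a587)) e
 (c (a (nat_lit 0xba80cca4c72a80f06)) e
 (c (a (nat_lit 0xbedcb6a3e747228e6)) e e))))))))))
 (c (a (nat_lit 0x202035d1104665))
 (c (a (nat_lit 0x4c5280a74347b55a5)) e
 (c (a (nat_lit 0x8482812738d31b0a6)) e
 (c z e
 (c z e
 (c z e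
 (c z e
 (c z e
 (c z e
 (c z e
 (c (a (nat_lit 0x16d579f33b31ae8fe6)) e e))))))))))
 (c (a (nat_lit 0x3a3afb5132f20e4))
 (c (a (nat_lit 0x7c792d528cab496a5)) e
 (c z e
 (c z e
 (c z e
 (c z e
 (c (a (nat_lit 0x2a6a72b8461e49267)) e
 (c (a (nat_lit 0x6e7a84841e2366907)) e
 (c (a (nat_lit 0xae9b26c87239f9406)) e
 (c (a (nat_lit 0x16784d14898f6fc006)) e e)))))))))
 (c (a (nat_lit 0x1f0704f6828e465))
 (c z e
 (c z e
 (c z e
 (c z e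
 (c (a (nat_lit 0x5a628c42382bccda7)) e
 (c (a (nat_lit 0x5a604c382122b0868)) e
 (c (b (nat_lit 0x54824bfe895858267)) e e)))))))
 (c (a (nat_lit 0x192c5270e46c9144)) e
 (c (a (nat_lit 0x542a422cdf12a24))
 (c z e
 (c (a (nat_lit 0xb044765092b051406)) e
 (c z e
 (c z e
 (c z e
 (c (a (nat_lit 0x1bc9aaf78000000006)) e e))))))
 (c (a (nat_lit 0x405055110ac4c64))
 (c z e
 (c z e
 (c z e
 (c (a (nat_lit 0x42f1b578740000006)) e
 (c (a (nat_lit 0x48c53a00000000006)) e e)))))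
 (c (a (nat_lit 0x90eb85952904a04))
 (c (a (nat_lit 0x263d13224e9a702c7)) e
 (c (a (nat_lit 0x77d0e91b1caa00007)) e e))
 (c (a (nat_lit 0x9b433f31afa90e4))
 (c (a (nat_lit 0x1247ec060500000007)) e e)
 (c (a (nat_lit 0x1716f65f9888cfe4)) e
 (c (a (nat_lit 0x1675dc158a27a7c5)) e
 (c z e
 (c (a (nat_lit 0x1696cd0d2daaf2c4)) e
 (c (a (nat_lit 0x1300c302e341a0c3)) e e))))))))))))))))
 (c z
 (c (a (nat_lit 0x404040592e2e64))
 (c z e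
 (c z e
 (c z e
 (c (a (nat_lit 0x7ab094ab151d03347)) e
 (c (a (nat_lit 0x131031d21c8d915b86)) e
 (c z e
 (c z e
 (c z e
 (c (a (nat_lit 0x1fb8376c704fef2ca5)) e
 (c z e
 (c z e
 (c z e
 (c z e
 (c (a (nat_lit 0x322e386b100000009)) e e))))))))))))))
 (c (a (nat_lit 0x202035d0506766))
 (c z e
 (c z e
 (c z e
 (c z e
 (c z e
 (c z e
 (c (a (nat_lit 0x7eeac6c4aa7275067)) e
 (c (a (nat_lit 0x1a94942ee813553be6)) e
 (c (a (nat_lit 0x4a423e4c74626f4a8)) e e)))))))))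
 (c (a (nat_lit 0x141522dade7c086))
 (c z e
 (c z e
 (c z e
 (c z e
 (c z e
 (c (a (nat_lit 0x5a92b0bea70618427)) e e))))))
 (c (a (nat_lit 0x17952526e07ec05))
 (c z e
 (c (a (nat_lit 0xbb04c8811f276f568)) e
 (c z e
 (c z e
 (c z e
 (c (a (nat_lit 0x5c7482487c67baae8)) e
 (c (a (nat_lit 0x50524a46294c7e128)) e e)))))))
 (c (a (nat_lit 0x1068e964c545c606))
 (c z e
 (c z e
 (c z e
 (c z e
 (c (a (nat_lit 0x7686825c3792244a8)) e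
 (c (a (nat_lit 0x10b10903594e30a1a7)) e e))))))
 (c z e
 (c z e
 (c z e
 (c (a (nat_lit 0xa3f6f9af4901e3))
 (c (a (nat_lit 0x1989025e6e3c26008)) e
 (c (a (nat_lit 0x1bc4ec6bc3e0000008)) e e))
 (c (a (nat_lit 0x263c92c92f25465))
 (c (a (nat_lit 0xa78e926a000000006)) e e)
 (c z e
 (c z e
 (c (a (nat_lit 0x7709496ef6ee1a5)) e
 (c (a (nat_lit 0x13b2bc1a79938bc6)) e
 (c (a (nat_lit 0xf31ebcb8709a365)) e
 (c z e
 (c z e
 (c (a (nat_lit 0x118b102543a28004)) e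
 (c (a (nat_lit 0x135cc681a0000003)) e
 (c (a (nat_lit 0x1022800000000004)) e e))))))))))))))))))))
 C660))) Tr.c Tr.e (nat_lit 0) C.cx C.cy
noncomputable def C662 : Tr := beta% (fun (c : Nat → Tr → Tr → Tr) (e : Tr) (z : Nat) (a b : Nat → Nat) =>
 (c z
 (c (a (nat_lit 0x20203d8d0e47c5))
 (c z e
 (c z e
 (c z e
 (c z e
 (c z e
 (c z e
 (c z e
 (c z e
 (c (a (nat_lit 0x604c645c628e9fba7)) e e)))))))))
 (c (a (nat_lit 0x4445f5011cc0e66))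
 (c z e
 (c z e
 (c z e
 (c z e
 (c z e
 (c (a (nat_lit 0x36667e563630053e7)) e e))))))
 (c z e
 (c z e
 (c z e
 (c z e
 (c z e
 (c z e
 (c z e
 (c z e
 (c z e
 (c z e
 (c z e
 (c (a (nat_lit 0x1669c04060602024)) e e))))))))))))))
 (c z
 (c (a (nat_lit 0x3d74b94aa90904)) e
 (c (a (nat_lit 0x181135a8e5ad0a45))
 (c (a (nat_lit 0x56824b40f8c4a59a7)) e
 (c z e
 (c z e
 (c z e
 (c (a (nat_lit 0xc6aa931084cf77fa7)) e
 (c z e
 (c z e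
 (c z e
 (c (a (nat_lit 0x403d14ba480000008)) e e)))))))))
 (c z e
 (c z e
 (c z e
 (c (a (nat_lit 0xfbeb62aebb7aaa3))
 (c (a (nat_lit 0x6846a936f4544e387)) e e)
 (c z e
 (c z e
 (c z e
 (c (a (nat_lit 0x90989d04e880e26)) e
 (c z e
 (c z e
 (c z e
 (c (a (nat_lit 0x1152766bca20a144)) e
 (c (a (nat_lit 0xe9288260020a224)) e e)))))))))))))))
 (c z
 (c (a (nat_lit 0x94cc8e392cf0a64))
 (c z e
 (c z e
 (c z e
 (c (a (nat_lit 0x1cf0488fcd94d07346)) e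
 (c (a (nat_lit 0x62426a70719154d67)) e
 (c z e
 (c z e
 (c (a (nat_lit 0xaecb8521e68a00007)) e
 (c (a (nat_lit 0x87a352a8000000007)) e e)))))))))
 (c z e
 (c z e
 (c (a (nat_lit 0x1b245a245ad7c44))
 (c z e
 (c (a (nat_lit 0x3a9b393ad4de825a8)) e e))
 (c (a (nat_lit 0x12258549e57db8e4))
 (c (a (nat_lit 0x6b3f6eeed27644227)) e e)
 (c z e
 (c z e
 (c (a (nat_lit 0x8492f4e0e516dc6)) e
 (c (a (nat_lit 0x66d31d733508a46)) e
 (c z e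
 (c z e
 (c (a (nat_lit 0x107570250485e2c5)) e
 (c (a (nat_lit 0x116ca26102a061c5)) e
 (c (a (nat_lit 0x1e8a076bc8462004)) e e))))))))))))))
 (c z
 (c z e
 (c z e
 (c z e
 (c z e
 (c z e
 (c (a (nat_lit 0x74730915049e9e6)) e
 (c (a (nat_lit 0x19432b354aea945)) e
 (c z e
 (c z e
 (c z e
 (c (a (nat_lit 0x14cce0e1216102a4)) e
 (c (a (nat_lit 0x120c8caceb2ca905)) e e))))))))))))
 (c z
 (c z e
 (c z e
 (c z e
 (c z e
 (c (a (nat_lit 0x16a8fb511f1cb06)) e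
 (c (a (nat_lit 0x2670d2c57cac405)) e
 (c z e
 (c z e
 (c z e
 (c (b (nat_lit 0x1fc1bfe1ffc64c44)) e e))))))))))
 (c z
 (c z e
 (c (a (nat_lit 0x2262c221e91064))
 (c (a (nat_lit 0xfb2844541e0000007)) e e)
 (c (a (nat_lit 0x98483838bb5f904)) e
 (c z e
 (c z e
 (c (a (nat_lit 0x21e3b2b3b43466)) e e))))))
 (c z
 (c (a (nat_lit 0x41e1856cb0b9c3)) e
 (c z e
 (c z e
 (c (a (nat_lit 0x80969ea6a2b3167)) e
 (c (a (nat_lit 0x4650a6bb0f04f27)) e e)))))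
 (c z
 (c z e
 (c (a (nat_lit 0x6c30ac4f2912c5)) e
 (c (a (nat_lit 0x52665a84e959de6)) e
 (c z e
 (c z e
 (c z e
 (c (a (nat_lit 0x70d908b88600005)) e
 (c (a (nat_lit 0x1055c60000000004)) e e))))))))
 (c (a (nat_lit 0x202020203f25))
 (c (a (nat_lit 0x5888537d80a4f65)) e
 (c z e
 (c z e
 (c z e
 (c z e
 (c (a (nat_lit 0xdf06ac100000004)) e e))))))
 (c (a (nat_lit 0x2020203f6445))
 (c z e
 (c (a (nat_lit 0xc31317bb9d1cc87)) e e))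
 (c (a (nat_lit 0x1e1e1fde64145))
 (c (a (nat_lit 0x949ad526c67cb27)) e e)
 (c (a (nat_lit 0x5657c4523c305)) e
 (c z e
 (c (a (nat_lit 0x17a0a040820725)) e
 (c (a (nat_lit 0x52444a7520d64)) e
 (c (a (nat_lit 0x3e46731ed48c4)) e
 (c z e
 (c (a (nat_lit 0x4316d48624484)) e
 (c (a (nat_lit 0x1eb66ca0652a63)) e
 (c (a (nat_lit 0x18ef22478cc003)) e
 (c z e
 (c z e
 (c (a (nat_lit 0xc138420600003)) e
 (c (a (nat_lit 0x1723e000000003)) e e))))))))))))))))))))))))) Tr.c Tr.e (nat_lit 0) C.cx C.cy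
noncomputable def C663 : Tr := beta% (fun (c : Nat → Tr → Tr → Tr) (e : Tr) (z : Nat) (a b : Nat → Nat) =>
 (c z
 (c z
 (c z e
 (c (a (nat_lit 0xb24b5d3857ab18f03)) e
 (c (a (nat_lit 0x448c9010c31b09d64)) e
 (c z e
 (c z e
 (c z e
 (c z e
 (c z e
 (c z e
 (c z e
 (c z e
 (c z e
 (c z e
 (c (a (nat_lit 0x7a7c644cb88e831c5)) e
 (c (a (nat_lit 0xdcc2bf876b7783745)) e e)))))))))))))))
 (c z
 (c (a (nat_lit 0x6b21184f0504e0e84)) e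
 (c z e
 (c z e
 (c (a (nat_lit 0x2b12ae7867b4e1744)) e
 (c (a (nat_lit 0xb6764c5b1a6ba3da5)) e
 (c z e
 (c z e
 (c z e
 (c z e
 (c z e
 (c (a (nat_lit 0x14fad815d1b2ae68e5)) e
 (c (a (nat_lit 0x10afd14e6ead64d0a6)) e
 (c (a (nat_lit 0x605240aab4b6ab267)) e e)))))))))))))
 (c z
 (c z e
 (c z e
 (c z e
 (c z e
 (c z e
 (c z e
 (c z e
 (c z e
 (c z e
 (c (a (nat_lit 0xe6d2e6c4aa92c70c5)) e
 (c (a (nat_lit 0xcaae9092a6f6dba26)) e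
 (c (a (nat_lit 0x2c24788eb29ec3367)) e e))))))))))))
 (c (a (nat_lit 0x202020202034a5))
 (c z e
 (c z e
 (c z e
 (c z e
 (c z e
 (c z e
 (c z e
 (c z e
 (c (a (nat_lit 0xa2e8c8a56dc2c3ea5)) e
 (c z e
 (c (a (nat_lit 0x2e6e7abaa6cacf4e7)) e e)))))))))))
 (c (a (nat_lit 0x202020201606e5))
 (c z e
 (c (a (nat_lit 0x6423878b8e568666)) e
 (c z e
 (c z e
 (c z e
 (c z e
 (c (a (nat_lit 0xaa7ce0f932f0a6606)) e
 (c (a (nat_lit 0x74e8f36d4eaf1e7a6)) e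
 (c z e
 (c (a (nat_lit 0x96a0bcc6f50afa8c7)) e e))))))))))
 (c (a (nat_lit 0x2020203acb6b65))
 (c (a (nat_lit 0x3222768c7dae46ac6)) e
 (c z e
 (c z e
 (c z e
 (c (a (nat_lit 0x77943ccac4de52106)) e
 (c (a (nat_lit 0x19c4cbef6dae272226)) e
 (c (a (nat_lit 0x50a91b4c64f83a946)) e
 (c z e
 (c (a (nat_lit 0x7aa8aaf4fd303c4a7)) e e)))))))))
 (c (a (nat_lit 0x20203164e482e6))
 (c z e
 (c z e
 (c z e
 (c (a (nat_lit 0x8a10af56febd47b45)) e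
 (c (a (nat_lit 0x3a5ac4b0b0faeb506)) e e)))))
 (c (a (nat_lit 0xa0b6274865e3c6))
 (c z e
 (c z e
 (c (a (nat_lit 0x1836998d8bc2ecbba5)) e
 (c (a (nat_lit 0x8eb0486e1a1abb2a6)) e
 (c (a (nat_lit 0x8a7a789e84945d747)) e e)))))
 (c (a (nat_lit 0x514162e1248645))
 (c z e
 (c (a (nat_lit 0xf394dc96a4db7a125)) e e))
 (c (a (nat_lit 0x10822142658725a5))
 (c z e
 (c z e
 (c z e
 (c z e
 (c (a (nat_lit 0x179d25caf240000006)) e e)))))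
 (c z e
 (c z e
 (c z e
 (c (a (nat_lit 0xcf7b65db870e7c5)) e
 (c z e
 (c z e
 (c (a (nat_lit 0x1b812b00c3890263)) e
 (c z e
 (c z e
 (c z e
 (c (a (nat_lit 0x9b3c6e060802022)) e
 (c (a (nat_lit 0x13e700a0c0200002)) e e))))))))))))))))))))))
 (c z
 (c z
 (c (a (nat_lit 0xc4c89cc6e4d6f3265)) e
 (c z e
 (c z e
 (c (a (nat_lit 0xbe868261595b53fc4)) e
 (c z e
 (c z e
 (c z e
 (c z e
 (c z e
 (c z e
 (c (a (nat_lit 0x1e73b8f6995668cda4)) e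
 (c (a (nat_lit 0x62665c5e6c6e570e7)) e
 (c (a (nat_lit 0x282474b2c0af08d07)) e e)))))))))))))
 (c (a (nat_lit 0x20202020203385))
 (c z e
 (c z e
 (c z e
 (c z e
 (c z e
 (c z e
 (c z e
 (c z e
 (c z e
 (c (a (nat_lit 0x11918f128e306598c6)) e e))))))))))
 (c (a (nat_lit 0xc0c0c0c0d2a606))
 (c z e
 (c z e
 (c z e
 (c z e
 (c z e
 (c z e
 (c z e
 (c (a (nat_lit 0x2a3cd0e50038aa206)) e e))))))))
 (c (a (nat_lit 0x20202039ee4ee6))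
 (c z e
 (c (a (nat_lit 0x6470b8c752e8c56e7))
 (c z e
 (c (a (nat_lit 0x122da265832885a48449)) e
 (c (a (nat_lit 0x13a94901ad0929444848)) e e)))
 (c z e
 (c z e
 (c z e
 (c z e
 (c (a (nat_lit 0x52f72fad1c589c5c6)) e
 (c (a (nat_lit 0xc2e368f0cd04829e7)) e
 (c z e
 (c (a (nat_lit 0x11d02efb15b63384a7)) e e))))))))))
 (c (a (nat_lit 0x2020362a09e526))
 (c (a (nat_lit 0x60c6c70d909121546)) e
 (c z e
 (c z e
 (c (a (nat_lit 0x567232af00da26467)) e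
 (c z e
 (c (a (nat_lit 0x3672b6b07c8a0b087)) e
 (c z e
 (c (a (nat_lit 0xb8f48d7a80ac2f267)) e
 (c (a (nat_lit 0x11cffd53dacd29ace7)) e e)))))))))
 (c (a (nat_lit 0x203b6c0c05c506))
 (c z e
 (c z e
 (c z e
 (c (a (nat_lit 0x10ef3736ac8da8e7a6)) e e))))
 (c z e
 (c (a (nat_lit 0x1aa3e4e1430c0ce5))
 (c z e
 (c (a (nat_lit 0xe966f88af991f5026)) e
 (c z e
 (c z e
 (c z e
 (c (a (nat_lit 0xb79ce89cf20000007)) e e))))))
 (c (a (nat_lit 0x5a567297bf7c044))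
 (c (a (nat_lit 0xc26c4e807878212e6)) e
 (c z e
 (c z e
 (c z e
 (c (a (nat_lit 0x18902a350000000007)) e e)))))
 (c z e
 (c z e
 (c (a (nat_lit 0xe3d3c5256126dc5)) e
 (c (a (nat_lit 0x167614f791cb07c6)) e
 (c z e
 (c z e
 (c (a (nat_lit 0x410d48204c20483)) e
 (c (a (nat_lit 0x14b8a78a63e76483)) e
 (c (a (nat_lit 0x1745694126e3e4a3)) e e))))))))))))))))))
 (c z
 (c (a (nat_lit 0x2020202030c364))
 (c z e
 (c z e
 (c z e
 (c z e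
 (c z e
 (c z e
 (c z e
 (c (a (nat_lit 0x181a5230188b22366)) e
 (c z e
 (c z e
 (c z e
 (c z e
 (c z e
 (c (a (nat_lit 0x684e5c6ef7fc00008)) e e))))))))))))))
 (c (a (nat_lit 0x202020366aab06))
 (c z e
 (c z e
 (c z e
 (c z e
 (c z e
 (c z e
 (c (a (nat_lit 0x6284aed2e9cd58e66)) e
 (c (a (nat_lit 0x2a72687a9324b0e46)) e e))))))))
 (c (a (nat_lit 0x1348692266))
 (c z e
 (c z e
 (c z e
 (c z e
 (c z e
 (c (a (nat_lit 0x240ee9499870c0226)) e e))))))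
 (c (a (nat_lit 0x10116298a43a426))
 (c z e
 (c z e
 (c z e
 (c z e
 (c (a (nat_lit 0xd10549af6e8cf7347)) e e)))))
 (c (a (nat_lit 0x18044580412886))
 (c (a (nat_lit 0x88876d6f4d5783426)) e
 (c z e
 (c z e
 (c z e
 (c z e
 (c (a (nat_lit 0xb8a4887a257f2a788)) e e))))))
 (c (a (nat_lit 0x1fcb6dc985ca49a6)) e
 (c z e
 (c z e
 (c z e
 (c z e
 (c z e
 (c z e
 (c z e
 (c (b (nat_lit 0x1170312d5fe86666)) e
 (c (a (nat_lit 0xe7088e4030301e5)) e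
 (c (a (nat_lit 0x11ca24e363028285)) e e))))))))))))))))
 C662)))) Tr.c Tr.e (nat_lit 0) C.cx C.cy
noncomputable def C664 : Tr := beta% (fun (c : Nat → Tr → Tr → Tr) (e : Tr) (z : Nat) (a b : Nat → Nat) =>
 (c z
 (c z
 (c (a (nat_lit 0x26768262c704fcd65)) e
 (c z e
 (c z e
 (c z e
 (c z e
 (c z e
 (c z e
 (c z e
 (c (a (nat_lit 0x185b4786e0a7ae0f64)) e
 (c (a (nat_lit 0x11c6a704c8e8e988e5)) e
 (c z e
 (c (a (nat_lit 0x1616ba989571e5ece5)) e e))))))))))))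
 (c z
 (c z e
 (c z e
 (c z e
 (c z e
 (c z e
 (c z e
 (c z e
 (c z e
 (c z e
 (c (a (nat_lit 0x82e90712cac0385e6)) e
 (c (a (nat_lit 0x17f8da551809e7bfc6)) e
 (c z e
 (c z e
 (c z e
 (c (a (nat_lit 0x17074ac8e986a00005)) e e)))))))))))))))
 (c (a (nat_lit 0x404040404054c5))
 (c z e
 (c z e
 (c z e
 (c z e
 (c z e
 (c z e
 (c z e
 (c z e
 (c (a (nat_lit 0xcf191518ce68fe766)) e e)))))))))
 (c (a (nat_lit 0x202020203faae5))
 (c z e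
 (c z e
 (c z e
 (c z e
 (c z e
 (c (a (nat_lit 0x3c5cba8ad8eecd585)) e
 (c (a (nat_lit 0x6bfad19eb1f72f9a4)) e e)))))))
 (c (a (nat_lit 0x202020366bcce6))
 (c z e
 (c z e
 (c z e
 (c z e
 (c z e
 (c (a (nat_lit 0x54589cef193b26e46)) e e))))))
 (c (a (nat_lit 0x40405046266447))
 (c z e
 (c z e
 (c z e
 (c (a (nat_lit 0x134b10576a4babd026)) e e))))
 (c (a (nat_lit 0x14154052746a487)) e
 (c z e
 (c (a (nat_lit 0xa610203e830f026)) e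
 (c (a (nat_lit 0x161c54c1312e3a6)) e
 (c z e
 (c z e
 (c z e
 (c z e
 (c z e
 (c z e
 (c (a (nat_lit 0x8f207c1216380e5)) e e)))))))))))))))))
 (c z
 (c (a (nat_lit 0x40404040405463))
 (c z e
 (c z e
 (c z e
 (c z e
 (c z e
 (c z e
 (c z e
 (c z e
 (c z e
 (c (a (nat_lit 0xfb250f00d6324aba5)) e e))))))))))
 (c (a (nat_lit 0x2020202033a2e4)) e
 (c (a (nat_lit 0x2020203dcf4b65))
 (c z e
 (c z e
 (c z e
 (c z e
 (c z e
 (c z e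
 (c (a (nat_lit 0xd88906ced8e58ebe6)) e e)))))))
 (c (a (nat_lit 0x202033c9cae586))
 (c z e
 (c z e
 (c z e
 (c (a (nat_lit 0x1148686d494c010106)) e
 (c (a (nat_lit 0x19d396f81c702b1fc6)) e
 (c (a (nat_lit 0xa6c8b2c8eebf2eca7)) e e))))))
 (c (a (nat_lit 0x2034a466626146)) e
 (c z e
 (c z e
 (c z e
 (c z e
 (c z e
 (c z e
 (c z e
 (c z e
 (c z e
 (c z e
 (c (a (nat_lit 0x146cc84e60204005)) e e))))))))))))))))
 (c z
 (c (a (nat_lit 0x40404057102684)) e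
 (c (a (nat_lit 0x20203269e44366))
 (c z e
 (c z e
 (c z e
 (c z e
 (c z e
 (c (a (nat_lit 0x602846c10308c6a27)) e e))))))
 (c (a (nat_lit 0x2032e92763c586))
 (c z e
 (c z e
 (c z e
 (c z e
 (c (a (nat_lit 0xa83c6d135a91187c6)) e e)))))
 (c z e
 (c (a (nat_lit 0x186847e82574d3a6)) e
 (c (a (nat_lit 0xa020c496b40586)) e
 (c z e
 (c z e
 (c z e
 (c z e
 (c z e
 (c z e
 (c z e
 (c (b (nat_lit 0x480dff520806084)) e
 (c (b (nat_lit 0x4034dfe0204024)) e e)))))))))))))))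
 (c z
 (c (a (nat_lit 0x16170cc86640705)) e
 (c z e
 (c z e
 (c z e
 (c z e
 (c z e
 (c z e
 (c z e
 (c z e
 (c z e
 (c z e
 (c z e
 (c z e
 (c z e
 (c (a (nat_lit 0x136d836020208005)) e
 (c (a (nat_lit 0x1b466100a1002004)) e e))))))))))))))))
 (c z
 (c (a (nat_lit 0x104d4e87c46eed45)) e e)
 (c z e
 (c z e
 (c z
 (c z e
 (c z e
 (c z e
 (c z e
 (c z e
 (c z e
 (c z e
 (c z e
 (c z e
 (c (a (nat_lit 0xf25e122fc80c002)) e e))))))))))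
 (c z
 (c z e
 (c z e
 (c z e
 (c z e
 (c z e
 (c z e
 (c z e
 (c z e
 (c (a (nat_lit 0x19a159b26ea00003)) e e)))))))))
 (c z e
 (c z
 (c (a (nat_lit 0xbf106ab8c4846e4)) e e)
 (c (a (nat_lit 0x2020202030a5)) e
 (c (a (nat_lit 0x202020310485))
 (c (a (nat_lit 0x8a868d0b8a60747)) e e)
 (c (a (nat_lit 0x5858591656305)) e
 (c (a (nat_lit 0x58590644303e5)) e
 (c z e
 (c z e
 (c (a (nat_lit 0x4e38667d33125)) e e))))))))))))))))))) Tr.c Tr.e (nat_lit 0) C.cx C.cy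
noncomputable def C665 : Tr := beta% (fun (c : Nat → Tr → Tr → Tr) (e : Tr) (z : Nat) (a : Nat → Nat) =>
 (c z
 (c z
 (c (a (nat_lit 0x929292e8fd04fd96ca2)) e e)
 (c (a (nat_lit 0x2222222223df3d223)) e
 (c (a (nat_lit 0x58585859d0f51bb22)) e
 (c z
 (c z e
 (c z e
 (c z e
 (c z e
 (c z e
 (c z e
 (c z e
 (c z e
 (c z e
 (c z e
 (c (a (nat_lit 0x4a725e60523c812d227)) e e)))))))))))
 (c (a (nat_lit 0x101034340a2659085)) e
 (c z e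
 (c (a (nat_lit 0x1250f1cf8bec8ab344)) e
 (c z e
 (c z e
 (c z e
 (c z e
 (c z e
 (c (a (nat_lit 0x3716586c8a88501e5)) e
 (c (a (nat_lit 0x1023a6e80702a20285)) e
 (c (a (nat_lit 0x171b1f5ddb0ca92804)) e
 (c (a (nat_lit 0xf92d50cacc8c93045)) e
 (c (a (nat_lit 0x5274728ec8d8b9325)) e e)))))))))))))))))
 (c z
 (c (a (nat_lit 0x2a2a2a2bc113083e4)) e
 (c (a (nat_lit 0x262627a315466f865))
 (c z e
 (c z e
 (c z e
 (c z e
 (c z e
 (c z e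
 (c z e
 (c z e
 (c z e
 (c (a (nat_lit 0x223e2a46403c425d627)) e
 (c z e
 (c (a (nat_lit 0x568e9ed474291a7f5c8)) e e))))))))))))
 (c (a (nat_lit 0x2a2b65072634afd25))
 (c z e
 (c z e
 (c z e
 (c z e
 (c z e
 (c z e
 (c z e
 (c z e
 (c z e
 (c (a (nat_lit 0x404c28603c3a9481068)) e
 (c (a (nat_lit 0x6e60803a10630b686a8)) e e)))))))))))
 (c z e
 (c (a (nat_lit 0x114deb25074746ef86))
 (c z e
 (c z e
 (c z e
 (c z e
 (c (a (nat_lit 0x60302a282a649da0aa8)) e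
 (c (a (nat_lit 0x506e564a6c6dc52cd07)) e
 (c z e
 (c (a (nat_lit 0x548e6c6c7e269b329a8)) e e))))))))
 (c z e
 (c z e
 (c z e
 (c z e
 (c z e
 (c z e
 (c z e
 (c (a (nat_lit 0xb8fd91ab4d148a565)) e
 (c z e
 (c z e
 (c z e
 (c (a (nat_lit 0x1f164ce7424261c5c4)) e
 (c (a (nat_lit 0x1c530d4847670bc4a4)) e e))))))))))))))))))
 (c z
 (c (a (nat_lit 0xa0a24223628a3006))
 (c z e
 (c z e
 (c z e
 (c z e
 (c z e
 (c z e
 (c (a (nat_lit 0x1206383e2c763ac7307)) e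
 (c z e
 (c (a (nat_lit 0x181224240e0c2231067)) e
 (c z e
 (c z e
 (c (a (nat_lit 0x7a90c27e627c89c2dc7)) e e))))))))))))
 (c z e
 (c (a (nat_lit 0xb498745aedfdd7246))
 (c z e
 (c z e
 (c z e
 (c z e
 (c (a (nat_lit 0x2a283a5a747d46ba5a8)) e
 (c (a (nat_lit 0x4a7a62524c389e7f987)) e
 (c (a (nat_lit 0x3e3e2822463904ae8e8)) e
 (c z e
 (c (a (nat_lit 0xee94a2b68ae5cd22cc7)) e
 (c (a (nat_lit 0xa0626e7a8dc4ce00008)) e e))))))))))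
 (c z e
 (c z e
 (c z e
 (c z e
 (c z e
 (c z e
 (c (a (nat_lit 0x1dbe6f4561c04224a4)) e
 (c (a (nat_lit 0x11f63292ee6f2acbe5)) e
 (c (a (nat_lit 0x17b4148f6d6c2887c5)) e e))))))))))))
 (c z
 (c z e
 (c z e
 (c z e
 (c z e
 (c z e
 (c z e
 (c z e
 (c z e
 (c z e
 (c (a (nat_lit 0x19379774eeeba54565)) e
 (c (a (nat_lit 0xeae102becc9096a26)) e e)))))))))))
 (c z
 (c z e
 (c z e
 (c z e
 (c z e
 (c z e
 (c z e
 (c z e
 (c z e
 (c (a (nat_lit 0x8f01713efad8aace5)) e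
 (c (a (nat_lit 0x19567092b2f3d79125)) e e))))))))))
 (c z
 (c z e
 (c z e
 (c z e
 (c z e
 (c z e
 (c z e
 (c z e
 (c (a (nat_lit 0x4d2d16bc6e7cbecc5)) e
 (c (a (nat_lit 0x13cd0e8a8b1a15ee65)) e e)))))))))
 (c (a (nat_lit 0x20202020203445))
 (c z e
 (c z e
 (c z e
 (c z e
 (c z e
 (c (a (nat_lit 0x154f48224e67432fc5)) e e))))))
 (c (a (nat_lit 0x202020203a6945))
 (c z e
 (c z e
 (c z e
 (c z e
 (c (a (nat_lit 0x186ea7f14aeda4baa5)) e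
 (c (a (nat_lit 0x10ea0cc9ebc9ca30a5)) e e))))))
 (c (a (nat_lit 0x20202034262666)) e
 (c (a (nat_lit 0x202036e5c564a5)) e
 (c (a (nat_lit 0xe0ff25ca2c2764)) e
 (c z e
 (c (a (nat_lit 0x17e26207080e0c25)) e
 (c (a (nat_lit 0x2a2c72830cf1745)) e
 (c z e
 (c z e
 (c z e
 (c z e
 (c (a (nat_lit 0xb93a140e3c2c405)) e
 (c (a (nat_lit 0x1300a0e403044325)) e
 (c (a (nat_lit 0xd2e1975ba3604e3)) e e)))))))))))))))))))))) Tr.c Tr.e (nat_lit 0) C.cx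
noncomputable def C666 : Tr := beta% (fun (c : Nat → Tr → Tr → Tr) (e : Tr) (z : Nat) (a b : Nat → Nat) =>
 (c z
 (c z
 (c z e
 (c (a (nat_lit 0x18c4f5069ee8a5645))
 (c z e
 (c z e
 (c z e
 (c z e
 (c (a (nat_lit 0x3282b730aa36325e448)) e e)))))
 (c z e
 (c z e
 (c z e
 (c z e
 (c z e
 (c z e
 (c (a (nat_lit 0x136b0959eb0c81c6c5)) e
 (c z e
 (c (a (nat_lit 0xcb1edec4624e50c66)) e
 (c (a (nat_lit 0xd8b0b08cd0daf78c6)) e e))))))))))))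
 (c (a (nat_lit 0x404060606070a3))
 (c (a (nat_lit 0x1ab46f2c95eccc4ce4))
 (c z e
 (c z e
 (c z e
 (c (a (nat_lit 0xc6cf06b65254204a828)) e
 (c (a (nat_lit 0x12b073754a490b6886a8)) e e)))))
 (c z e
 (c z e
 (c z e
 (c (a (nat_lit 0x729cf4d8545657ec7)) e
 (c (a (nat_lit 0x10f2e6e103a6d16425)) e
 (c z e
 (c z e
 (c (a (nat_lit 0x64707a9a3a26691a7)) e
 (c z e
 (c (a (nat_lit 0x5e5246808eaa7bfc8)) e e)))))))))))
 (c (a (nat_lit 0x4040404053b0c3))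
 (c z e
 (c z e
 (c z e
 (c z e
 (c z e
 (c z e
 (c (a (nat_lit 0x11efec4b2d8a2d4d47)) e e)))))))
 (c (a (nat_lit 0x2020203c326585))
 (c z e
 (c z e
 (c z e
 (c z e
 (c z e
 (c z e
 (c (a (nat_lit 0xca8c88b88738ae687)) e e)))))))
 (c (a (nat_lit 0x20203987c062c6)) e
 (c (a (nat_lit 0x203a23e527a046))
 (c z e
 (c (a (nat_lit 0x7a81b13900f921ae7)) e
 (c z e
 (c z e
 (c z e
 (c z e
 (c (a (nat_lit 0x11367c1ad14d8aa008)) e e)))))))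
 (c (b (nat_lit 0x15a4c3fe14398c4))
 (c (a (nat_lit 0x728720bc443a48f66)) e
 (c z e
 (c (a (nat_lit 0x225a324236b3988a6)) e
 (c z e
 (c z e
 (c (a (nat_lit 0xa2c58880505800008)) e e))))))
 (c z e
 (c z e
 (c z e
 (c z e
 (c (a (nat_lit 0xb7adc5b7d322ac6)) e
 (c z e
 (c z e
 (c (a (nat_lit 0xdd1af30cb8dc305)) e
 (c z e
 (c (a (nat_lit 0xd502acd224240a5)) e
 (c (a (nat_lit 0x12cd8fe50543a2e5)) e
 (c (a (nat_lit 0x18fd87e7c48300c4)) e e)))))))))))))))))))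
 (c z
 (c (a (nat_lit 0x4040404059eca2))
 (c z e
 (c z e
 (c z e
 (c z e
 (c (a (nat_lit 0x88bec87a6e5dd4c86)) e
 (c z e
 (c z e
 (c z e
 (c z e
 (c (a (nat_lit 0x11f194f49152514da6)) e
 (c (a (nat_lit 0x3c4462649631b24c7)) e e)))))))))))
 (c (b (nat_lit 0x2020203ff65083)) e
 (c (a (nat_lit 0x20203dcd00a4e5)) e
 (c (a (nat_lit 0x203d4fe3271165)) e
 (c (b (nat_lit 0x1ff523a507e56766))
 (c z e
 (c (a (nat_lit 0x915ce6d57a8d33cc7)) e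
 (c z e
 (c z e
 (c z e
 (c z e
 (c (a (nat_lit 0x6a8d3eaa5c5800008)) e e)))))))
 (c (a (nat_lit 0xbc7e082ed925805))
 (c z e
 (c z e
 (c z e
 (c z e
 (c (a (nat_lit 0x169abd11937b6fa006)) e
 (c (a (nat_lit 0x290236142e0000008)) e e))))))
 (c z e
 (c z e
 (c z e
 (c (a (nat_lit 0xdd534b2b4cf6926)) e
 (c (b (nat_lit 0x1739589b11c61fe6)) e
 (c z e
 (c z e
 (c (a (nat_lit 0x19b732cbc7456545)) e
 (c (a (nat_lit 0x144fe8e462a28285)) e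
 (c (a (nat_lit 0x1b0ce3e06060c084)) e e))))))))))))))))
 (c z
 (c (a (nat_lit 0x11f1f1fe14312b43)) e
 (c (a (nat_lit 0x203c5c04c4db04))
 (c z e
 (c z e
 (c z e
 (c z e
 (c (a (nat_lit 0x2b02f3b6d46f2b006)) e e))))) e))
 (c z
 (c z e
 (c (a (nat_lit 0x15f105c764084b86)) e e))
 (c z
 (c (a (nat_lit 0xbc5e9408411fc84))
 (c z e
 (c z e
 (c z e
 (c (a (nat_lit 0x4072e252662f65de6)) e e)))) e)
 (c z
 (c z e
 (c (a (nat_lit 0xfae6fca60a83486))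
 (c (a (nat_lit 0x4a8551c68cef24987)) e e)
 (c z e
 (c z e
 (c z e
 (c z e
 (c (a (nat_lit 0x6a963698565ae6)) e
 (c z e
 (c z e
 (c z e
 (c z e
 (c (a (nat_lit 0x10e6e6ec7aa56005)) e
 (c (a (nat_lit 0x16b6fcf580000005)) e e)))))))))))))
 (c z
 (c (a (nat_lit 0x94f86844c0f7f84)) e
 (c z e
 (c z e
 (c z e
 (c (a (nat_lit 0xc8f987dfb9a9965)) e
 (c (a (nat_lit 0x2a8f35d552b8e6)) e
 (c z e
 (c z e
 (c z e
 (c (a (nat_lit 0x1ccc02a3850442a3)) e e))))))))))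
 (c z
 (c z e
 (c z e
 (c z e
 (c z e
 (c z e
 (c z e
 (c z e
 (c z e
 (c (a (nat_lit 0x1382a301c2202003)) e e)))))))))
 (c z
 (c (a (nat_lit 0x6a669af6ff0f105)) e e)
 (c z
 (c (a (nat_lit 0x6ad8870aed65944)) e e)
 (c z
 (c z e
 (c (a (nat_lit 0x13f4539f5b5f3b66)) e e))
 (c (a (nat_lit 0x2020202032e4))
 (c (a (nat_lit 0xd6d0c8c1aa7f066)) e e)
 (c (a (nat_lit 0x20202031e723)) e
 (c (a (nat_lit 0x40405ba68502))
 (c (a (nat_lit 0x1919993a40000007)) e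
 (c (a (nat_lit 0xb9f200000000001)) e e))
 (c (a (nat_lit 0x40504aca8504)) e
 (c (a (nat_lit 0xbff5d50b09c3)) e
 (c (a (nat_lit 0x100b0aa5c50ca4)) e
 (c (a (nat_lit 0x1594cb0978c6a3)) e
 (c z e
 (c z e
 (c z e
 (c (a (nat_lit 0x166560c041a7e3)) e e))))))))))))))))))))))) Tr.c Tr.e (nat_lit 0) C.cx C.cy
noncomputable def C667 : Tr := beta% (fun (c : Nat → Tr → Tr → Tr) (e : Tr) (z : Nat) (a : Nat → Nat) =>
 (c z
 (c z
 (c z e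
 (c (a (nat_lit 0x2626274c524c2cca5))
 (c z e
 (c z e
 (c z e
 (c z e
 (c z e
 (c z e
 (c z e
 (c z e
 (c z e
 (c z e
 (c (a (nat_lit 0x6ecd22f2e47c6b11e07)) e
 (c (a (nat_lit 0x386c70a4462e42b9069)) e e))))))))))))
 (c (a (nat_lit 0x181866442806591e6))
 (c z e
 (c z e
 (c z e
 (c z e
 (c z e
 (c z e
 (c z e
 (c z e
 (c (a (nat_lit 0x162e3a542a22594ae88)) e
 (c (a (nat_lit 0x5c946c7a3a3f3cf2808)) e
 (c (a (nat_lit 0xdedf2e6e5ebae7ce7c8)) e e)))))))))))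
 (c z e
 (c z e
 (c z e
 (c z e
 (c z e
 (c z e
 (c z e
 (c z e
 (c z e
 (c (a (nat_lit 0x1637f593943049caa5)) e
 (c (a (nat_lit 0x11aff2522cccc96c66)) e
 (c z e
 (c (a (nat_lit 0x586c96aec4c0bd127)) e e))))))))))))))))
 (c z
 (c (a (nat_lit 0x1a1aa83230247f1a6))
 (c z e
 (c z e
 (c z e
 (c z e
 (c z e
 (c z e
 (c z e
 (c z e
 (c z e
 (c (a (nat_lit 0x1e2e425838386935407)) e
 (c (a (nat_lit 0xa2d8beac5055a1a0be7)) e
 (c (a (nat_lit 0xa89cf48c588b8390888)) e e)))))))))))) e)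
 (c z
 (c z e
 (c z e
 (c z e
 (c z e
 (c z e
 (c z e
 (c z e
 (c z e
 (c z e
 (c (a (nat_lit 0x13355290070764a766)) e
 (c (a (nat_lit 0x1cb6b60f6e2ac967a6)) e
 (c (a (nat_lit 0x14549796d4d4363887)) e e))))))))))))
 (c z
 (c z e
 (c z e
 (c z e
 (c z e
 (c z e
 (c z e
 (c z e
 (c (a (nat_lit 0x1ef76b26674383a5e5)) e
 (c (a (nat_lit 0x128f8b2b27e64524a6)) e
 (c (a (nat_lit 0x1670770ceba90418e5)) e e))))))))))
 (c z
 (c z e
 (c z e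
 (c z e
 (c z e
 (c z e
 (c z e
 (c z e
 (c (a (nat_lit 0x18dd1bbd8f962ccd85)) e e))))))))
 (c (a (nat_lit 0x20202020203b46))
 (c z e
 (c z e
 (c z e
 (c z e
 (c z e
 (c (a (nat_lit 0x169f8f4d63ceb495c5)) e
 (c (a (nat_lit 0x138e2ee9f77b476ac6)) e
 (c z e
 (c z e
 (c z e
 (c z e
 (c (a (nat_lit 0x17a668ca2540000005)) e e))))))))))))
 (c (a (nat_lit 0x202020203124a7)) e
 (c (a (nat_lit 0x20202039c423c7)) e
 (c (a (nat_lit 0x1a6440a3a6)) e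
 (c (a (nat_lit 0x3a05a144e1c6)) e
 (c z e
 (c z e
 (c z e
 (c z e
 (c z e
 (c z e
 (c z e
 (c (a (nat_lit 0x104cb10c4a058685)) e
 (c (a (nat_lit 0x157e54b046094064)) e
 (c (a (nat_lit 0x10ab49a2e480a1e5)) e e))))))))))))))))))))
 (c z
 (c z
 (c (a (nat_lit 0x34406e5658e995044)) e
 (c (a (nat_lit 0x9a443a36970eb7086))
 (c z e
 (c z e
 (c z e
 (c z e
 (c z e
 (c z e
 (c z e
 (c z e
 (c (a (nat_lit 0x3436161e452c5a707e8)) e e)))))))))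
 (c z e
 (c z e
 (c z e
 (c z e
 (c z e
 (c z e
 (c z e
 (c (a (nat_lit 0x1a93c9a3090d49e4a4)) e
 (c (a (nat_lit 0x1c53538ef046260544)) e
 (c (a (nat_lit 0xf8e5215afca49a2c5)) e e))))))))))))
 (c z
 (c z e
 (c z e
 (c z e
 (c z e
 (c z e
 (c z e
 (c z e
 (c z e
 (c (a (nat_lit 0x14132d090f2a8641c6)) e
 (c (a (nat_lit 0x161550910d6860a5c6)) e
 (c z e
 (c (a (nat_lit 0xf7513ef2d2faddcc7)) e e))))))))))))
 (c z
 (c z e
 (c z e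
 (c z e
 (c z e
 (c z e
 (c z e
 (c z e
 (c z e
 (c (a (nat_lit 0x15d774f0ed6a2a4cc6)) e e)))))))))
 (c (a (nat_lit 0x202020202030a6))
 (c z e
 (c z e
 (c z e
 (c z e
 (c z e
 (c (a (nat_lit 0x14a7a7a885a5056886)) e
 (c (a (nat_lit 0xd739c100bae4d1a65)) e e)))))))
 (c (a (nat_lit 0x20202020366726))
 (c z e
 (c z e
 (c z e
 (c z e
 (c z e
 (c (a (nat_lit 0xa70256287caaea726)) e e))))))
 (c (a (nat_lit 0x20202033c74367)) e
 (c (a (nat_lit 0x20203762030547))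
 (c z e
 (c z e
 (c z e
 (c (a (nat_lit 0xc462b13542fc986e5)) e e))))
 (c (a (nat_lit 0x2035c440230486)) e
 (c z e
 (c (a (nat_lit 0x15c1e0e467cec9a6)) e
 (c (a (nat_lit 0x10025ecfb33cbe5)) e
 (c z e
 (c z e
 (c z e
 (c z e
 (c z e
 (c (a (nat_lit 0x1cba16d327ec03a4)) e
 (c (a (nat_lit 0x1a373488cca48524)) e
 (c (a (nat_lit 0x15b2c7ac64a4a044)) e e)))))))))))))))))))
 C666))) Tr.c Tr.e (nat_lit 0) C.cx
noncomputable def C668 : Tr := beta% (fun (c : Nat → Tr → Tr → Tr) (e : Tr) (z : Nat) (a b : Nat → Nat) =>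
 (c z
 (c (a (nat_lit 0x101010101010101821)) e
 (c (a (nat_lit 0x262626262627ece65))
 (c z e
 (c z e
 (c z e
 (c z e
 (c z e
 (c z e
 (c z e
 (c z e
 (c z e
 (c z e
 (c z e
 (c z e
 (c z e
 (c z e
 (c z e
 (c (a (nat_lit 0x5c6464666889360000a)) e e))))))))))))))))
 (c (a (nat_lit 0x202020202186487c5))
 (c z e
 (c z e
 (c z e
 (c z e
 (c z e
 (c z e
 (c z e
 (c z e
 (c z e
 (c z e
 (c z e
 (c z e
 (c (a (nat_lit 0x66768089373e90c89c9)) e e)))))))))))))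
 (c (a (nat_lit 0xb4b4b4b5c8ff91163))
 (c z e
 (c z e
 (c z e
 (c z e
 (c z e
 (c z e
 (c z e
 (c z e
 (c z e
 (c z e
 (c (a (nat_lit 0x4852a68e88703e333e8)) e e)))))))))))
 (c (a (nat_lit 0x66666731006c97fe4))
 (c z e
 (c z e
 (c z e
 (c z e
 (c z e
 (c z e
 (c z e
 (c (a (nat_lit 0x101a2c2a1e161a2f2a8)) e
 (c (a (nat_lit 0x243a4434301e247b008)) e
 (c (a (nat_lit 0x2a76625210164cd9048)) e e))))))))))
 (c (a (nat_lit 0x222350fc9ab14d605))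
 (c z e
 (c z e
 (c z e
 (c z e
 (c z e
 (c z e
 (c (a (nat_lit 0x1040202e3214435afe7)) e
 (c (a (nat_lit 0x7c5c505e58550243e47)) e
 (c (a (nat_lit 0xf0cec65a4e7edbd3787)) e e)))))))))
 (c z e
 (c z e
 (c z e
 (c z e
 (c z e
 (c z e
 (c z e
 (c z e
 (c (a (nat_lit 0x1f563855ceb08584c6)) e
 (c (a (nat_lit 0xeb0112fcc4a46e987)) e
 (c z e
 (c (a (nat_lit 0x19755b4c8686e5c764)) e
 (c (a (nat_lit 0x10d6c80261c0a2a364)) e
 (c (a (nat_lit 0x16a802032203c4e0e4)) e e))))))))))))))))))))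
 (c z
 (c (a (nat_lit 0x2424242425f0d8dc5)) e
 (c (a (nat_lit 0x12121213265a66347)) e
 (c (a (nat_lit 0x26262780c2ac22806))
 (c z e
 (c z e
 (c z e
 (c z e
 (c z e
 (c z e
 (c z e
 (c z e
 (c (a (nat_lit 0x1a162a3444221c85128)) e
 (c z e
 (c (a (nat_lit 0x44a498be563456958c9)) e e)))))))))))
 (c (a (nat_lit 0x1212f88062328f227))
 (c z e
 (c z e
 (c z e
 (c z e
 (c z e
 (c (a (nat_lit 0xca5e5656a478def17c7)) e
 (c (a (nat_lit 0x5a645490648272771a7)) e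
 (c (a (nat_lit 0x1820422e203669347a8)) e
 (c (a (nat_lit 0x6cb68896405b4cb3108)) e
 (c (a (nat_lit 0x13b1d566c4c8871deac8)) e e))))))))))
 (c z e
 (c z e
 (c z e
 (c z e
 (c z e
 (c z e
 (c z e
 (c z e
 (c (a (nat_lit 0x1472916f2dad060226)) e
 (c z e
 (c z e
 (c z e
 (c z e
 (c z e
 (c (a (nat_lit 0x1f1489e6c747e52004)) e e)))))))))))))))))))
 (c z
 (c (a (nat_lit 0x12121324343c46f06))
 (c z e
 (c z e
 (c z e
 (c z e
 (c z e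
 (c z e
 (c z e
 (c z e
 (c z e
 (c (a (nat_lit 0x2a201e26481218513e7)) e
 (c z e
 (c (a (nat_lit 0x3a646490423062335e8)) e e))))))))))))
 (c (a (nat_lit 0x1010b6323430a57c7))
 (c z e
 (c z e
 (c z e
 (c z e
 (c z e
 (c z e
 (c z e
 (c z e
 (c (a (nat_lit 0x44544e463a2e6d5ae88)) e
 (c (a (nat_lit 0x949c8aa0427ee47b788)) e
 (c (a (nat_lit 0x786c885438606794a49)) e e)))))))))))
 (c z e
 (c z e
 (c z e
 (c z e
 (c z e
 (c z e
 (c z e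
 (c z e
 (c z e
 (c (a (nat_lit 0x13bcb80caa48a50366)) e
 (c z e
 (c z e
 (c z e
 (c (a (nat_lit 0x1c1a312e0aca4a8ac4)) e e))))))))))))))))
 (c z
 (c z e
 (c z e
 (c z e
 (c z e
 (c z e
 (c z e
 (c z e
 (c z e
 (c z e
 (c z e
 (c (a (nat_lit 0x17712eb4e8a58323a6)) e e)))))))))))
 (c z
 (c z e
 (c z e
 (c z e
 (c z e
 (c z e
 (c z e
 (c z e
 (c z e
 (c (a (nat_lit 0x8719550cc04c644a6)) e
 (c z e
 (c (a (nat_lit 0xbcb2db3133153b6a7)) e e)))))))))))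
 (c z
 (c z e
 (c z e
 (c z e
 (c z e
 (c z e
 (c z e
 (c z e
 (c (a (nat_lit 0xbecfa110d256aca86)) e
 (c (b (nat_lit 0xc14ec4bdfe8f414e6)) e e)))))))))
 (c z
 (c z e
 (c z e
 (c z e
 (c z e
 (c z e
 (c (a (nat_lit 0x1130128921a3a2d585)) e e))))))
 (c (a (nat_lit 0x20202020203946))
 (c z e
 (c z e
 (c z e
 (c z e
 (c (a (nat_lit 0x80727c4ad6b6af546)) e e)))))
 (c (a (nat_lit 0x202020203ce746))
 (c z e
 (c z e
 (c z e
 (c (a (nat_lit 0x8ef5365c5649c49a6)) e e))))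
 (c (a (nat_lit 0x20202034e702e6)) e
 (c (a (nat_lit 0x4040514661c4a6)) e
 (c (a (nat_lit 0x4057a3e2a58546)) e
 (c z e
 (c z e
 (c z e
 (c z e
 (c z e
 (c z e
 (c (a (nat_lit 0x1611f2056563e205)) e
 (c (a (nat_lit 0x10b0c34422a0af65)) e
 (c (a (nat_lit 0x10e38462c0ef8665)) e
 (c (b (nat_lit 0x344c15ffb492004)) e e))))))))))))))))))))))) Tr.c Tr.e (nat_lit 0) C.cx C.cy
noncomputable def C669 : Tr := beta% (fun (c : Nat → Tr → Tr → Tr) (e : Tr) (z : Nat) (a b : Nat → Nat) =>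
 (c z
 (c (a (nat_lit 0x16161617b42c1a3a5))
 (c z e
 (c z e
 (c z e
 (c z e
 (c z e
 (c z e
 (c z e
 (c z e
 (c z e
 (c z e
 (c z e
 (c z e
 (c (a (nat_lit 0x786a777d00b0f0ba827)) e e)))))))))))))
 (c (a (nat_lit 0x202021fa4e34535a5))
 (c z e
 (c z e
 (c z e
 (c z e
 (c z e
 (c (a (nat_lit 0x2c103c26882e2e0b0a8)) e
 (c z e
 (c z e
 (c (a (nat_lit 0x32421e3832241445447)) e
 (c z e
 (c (a (nat_lit 0x2868687068266493068)) e e)))))))))))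
 (c (a (nat_lit 0x1617184a4840dd426))
 (c z e
 (c z e
 (c z e
 (c z e
 (c z e
 (c z e
 (c z e
 (c z e
 (c z e
 (c (a (nat_lit 0xa4a8aa7642629da84a7)) e e))))))))))
 (c z e
 (c z e
 (c z e
 (c z e
 (c z e
 (c z e
 (c z e
 (c z e
 (c (a (nat_lit 0xb90b1ace9458423a5)) e
 (c (a (nat_lit 0x11b0b08bcbea858a06)) e
 (c (b (nat_lit 0x58acd7ffff38cb426)) e e))))))))))))))
 (c z
 (c (a (nat_lit 0x1e1e3c2a262471205))
 (c z e
 (c z e
 (c z e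
 (c z e
 (c z e
 (c z e
 (c z e
 (c z e
 (c z e
 (c z e
 (c z e
 (c (a (nat_lit 0x3c6c8f3264443200008)) e e))))))))))))
 (c (a (nat_lit 0x203a3a4028b30ce86))
 (c z e
 (c z e
 (c z e
 (c z e
 (c (a (nat_lit 0x6a631a7e74b89ecaba8)) e
 (c z e
 (c z e
 (c (a (nat_lit 0x1e524e2884651b59067)) e
 (c z e
 (c z e
 (c (a (nat_lit 0x4e730e54422c0000009)) e e)))))))))))
 (c z e
 (c z e
 (c z e
 (c (a (nat_lit 0x9aa554ae8a729d7e5)) e
 (c (a (nat_lit 0x4f0aaaa9510d06c25)) e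
 (c z e
 (c z e
 (c (a (nat_lit 0xffc18dd939167c745)) e
 (c (a (nat_lit 0x14735a4d6f65630405)) e
 (c (a (nat_lit 0xf314ef073910c9386)) e
 (c z e
 (c z e
 (c (a (nat_lit 0x15e7c46462822080a4)) e e)))))))))))))))
 (c z
 (c (a (nat_lit 0x4460665f27475b525))
 (c z e
 (c z e
 (c z e
 (c z e
 (c z e
 (c z e
 (c z e
 (c z e
 (c z e
 (c z e
 (c (a (nat_lit 0x27d2247a30000000007)) e e)))))))))))
 (c z e
 (c z e
 (c z e
 (c (a (nat_lit 0x5e92807a2c3cbd765)) e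
 (c z e
 (c z e
 (c z e
 (c (a (nat_lit 0x189433d24d0d6b0a86)) e
 (c (a (nat_lit 0x1956916c2fa9a78b85)) e
 (c (a (nat_lit 0xa8a893555d2b23606)) e e)))))))))))
 (c z
 (c z e
 (c z e
 (c z e
 (c z e
 (c z e
 (c z e
 (c z e
 (c (a (nat_lit 0xb52363f110e46cdc5)) e
 (c (a (nat_lit 0x12ab77ca6c89e89fe5)) e e)))))))))
 (c z
 (c z e
 (c z e
 (c z e
 (c z e
 (c z e
 (c z e
 (c z e
 (c z e
 (c z e
 (c z e
 (c z e
 (c z e
 (c (a (nat_lit 0x23586814020000005)) e e)))))))))))))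
 (c z e
 (c (a (nat_lit 0x101010101011086))
 (c z e
 (c (a (nat_lit 0x7ab90ef51f22c6d47)) e
 (c z e
 (c z e
 (c z e
 (c z e
 (c (a (nat_lit 0x130fb0d14fdae7e527)) e e)))))))
 (c (a (nat_lit 0x202020203365e5))
 (c z e
 (c z e
 (c z e
 (c z e
 (c (a (nat_lit 0x9eb26b7f54827e3e6)) e
 (c (a (nat_lit 0xc8bac8c36c6026087)) e e))))))
 (c (a (nat_lit 0x202020366a6305)) e
 (c (a (nat_lit 0x40405cc4c42365)) e
 (c (a (nat_lit 0x607b23c34342e5)) e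
 (c (a (nat_lit 0x11164e424038a25))
 (c z e
 (c (a (nat_lit 0xa772fa50548400006)) e e))
 (c (a (nat_lit 0x11a906a807ae2b25))
 (c (a (nat_lit 0xed109016300000005)) e e)
 (c z e
 (c z e
 (c z e
 (c (a (nat_lit 0x33602c163c06063)) e
 (c (a (nat_lit 0x16a3820480e12183)) e
 (c (a (nat_lit 0xe6d0c26e7277aa3)) e
 (c z e
 (c z e
 (c z e
 (c (a (nat_lit 0x5c57980c1000003)) e e)))))))))))))))))))))))) Tr.c Tr.e (nat_lit 0) C.cx C.cy
noncomputable def C670 : Tr := beta% (fun (c : Nat → Tr → Tr → Tr) (e : Tr) (z : Nat) (a b : Nat → Nat) =>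
 (c z
 (c z
 (c (a (nat_lit 0x32323232338c4e3a443)) e
 (c (a (nat_lit 0x34343435924e5264744)) e
 (c (a (nat_lit 0x222223d6422e6256a84)) e
 (c (a (nat_lit 0x1c1d0a2620325a78245)) e e))))
 (c z
 (c (a (nat_lit 0x606061085caab4f7424)) e
 (c (a (nat_lit 0x5455c48e9eacc593bc5)) e
 (c z e
 (c z e
 (c z e
 (c z e
 (c z e
 (c z e
 (c z e
 (c z e
 (c z e
 (c z e
 (c z e
 (c (a (nat_lit 0x52444844525c5add226)) e
 (c (a (nat_lit 0x36364c6474767c830e8)) e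
 (c z e
 (c (a (nat_lit 0x109435f777b7b7759807)) e e)))))))))))))))))
 (c z
 (c z e
 (c z e
 (c z e
 (c z e
 (c z e
 (c z e
 (c z e
 (c z e
 (c z e
 (c z e
 (c z e
 (c z e
 (c (a (nat_lit 0x4c465c5c5268f0e7326)) e
 (c (a (nat_lit 0x5c94b0bacceefdbd1e7)) e
 (c z e
 (c (a (nat_lit 0x646a76848c86787b4e8)) e e))))))))))))))))
 (c (a (nat_lit 0xc0c0c0c0c0c0da65))
 (c z e
 (c z e
 (c z e
 (c z e
 (c z e
 (c z e
 (c z e
 (c z e
 (c z e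
 (c z e
 (c z e
 (c z e
 (c (a (nat_lit 0x8a9aa8b0bcc9aae2567)) e
 (c (a (nat_lit 0x5660646a6c6ead62928)) e e))))))))))))))
 (c (a (nat_lit 0x161616161617a4264))
 (c z e
 (c z e
 (c z e
 (c z e
 (c z e
 (c z e
 (c z e
 (c z e
 (c z e
 (c z e
 (c z e
 (c (a (nat_lit 0x9c949eaebf7ee168c47)) e
 (c (a (nat_lit 0x6a70747c88a6c1443a8)) e e)))))))))))))
 (c (a (nat_lit 0x1a1a1a1a1b9a121c4))
 (c z e
 (c z e
 (c z e
 (c z e
 (c z e
 (c z e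
 (c z e
 (c z e
 (c z e
 (c z e
 (c z e
 (c (a (nat_lit 0x62505a6272a56030008)) e e))))))))))))
 (c (a (nat_lit 0xe0e0e0f0a30120e5)) e
 (c (a (nat_lit 0x28282996ac425e425)) e
 (c (a (nat_lit 0x1e1fb0b2406238225)) e
 (c (a (nat_lit 0x2b0c4e4a5a3424106)) e
 (c (a (nat_lit 0x1587034462e1028045)) e
 (c z e
 (c z e
 (c z e
 (c z e
 (c (a (nat_lit 0xe7171316e8a430165)) e
 (c (b (nat_lit 0x185838381feb0824c5)) e
 (c (a (nat_lit 0x1595b595b128a4e765)) e e))))))))))))))))))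
 (c z
 (c z
 (c (a (nat_lit 0xc4c46899031765b5a64)) e
 (c z e
 (c z e
 (c z e
 (c z e
 (c z e
 (c z e
 (c z e
 (c z e
 (c z e
 (c z e
 (c z e
 (c z e
 (c (a (nat_lit 0x6c7a6e768ca39f7f326)) e e))))))))))))))
 (c (a (nat_lit 0x10101010101011386))
 (c z e
 (c z e
 (c z e
 (c z e
 (c z e
 (c z e
 (c z e
 (c z e
 (c z e
 (c z e
 (c z e
 (c z e
 (c (a (nat_lit 0x76666e6667a59da25e7)) e e)))))))))))))
 (c (a (nat_lit 0xe10101010113a226)) e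
 (c (a (nat_lit 0x4a4a4a4a4b54666c4)) e
 (c (a (nat_lit 0x4848484960963e3c4)) e
 (c (a (nat_lit 0x1e1e1f9cb65461325))
 (c z e
 (c z e
 (c z e
 (c z e
 (c z e
 (c z e
 (c (a (nat_lit 0x12141e102e1e121f1c8)) e
 (c (a (nat_lit 0x3a807c90623a7167087)) e
 (c (a (nat_lit 0x5ef6f8aa744f04b9b67)) e e)))))))))
 (c (a (nat_lit 0x121300cc78745a7a6))
 (c z e
 (c z e
 (c z e
 (c z e
 (c z e
 (c (a (nat_lit 0xc1c6292322c20afca7)) e
 (c (a (nat_lit 0x78beb27a3c767f7b567)) e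
 (c (a (nat_lit 0x15132c49688770725567)) e e))))))))
 (c z e
 (c z e
 (c z e
 (c z e
 (c z e
 (c z e
 (c z e
 (c (a (nat_lit 0x1b5d991731c869e2a6)) e
 (c z e
 (c z e
 (c z e
 (c (a (nat_lit 0xd8c560663c20183c4)) e
 (c (a (nat_lit 0x95303830140c322c4)) e
 (c (a (nat_lit 0x188908876466a36004)) e e)))))))))))))))))))))
 (c z
 (c (a (nat_lit 0x1e1e1e1e1e1f06365))
 (c z e
 (c z e
 (c z e
 (c z e
 (c z e
 (c z e
 (c z e
 (c z e
 (c z e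
 (c z e
 (c z e
 (c z e
 (c (a (nat_lit 0x444e46570f135c46387)) e
 (c (a (nat_lit 0x667484acc738e6b0728)) e e))))))))))))))
 (c (a (nat_lit 0x12121212136418166)) e
 (c (a (nat_lit 0x24242425905220345)) e
 (c (a (nat_lit 0x1c1c1df864506d465))
 (c z e
 (c z e
 (c z e
 (c z e
 (c z e
 (c z e
 (c z e
 (c z e
 (c z e
 (c (a (nat_lit 0x4325094e30140e9bf87)) e e))))))))))
 (c (a (nat_lit 0xe0f1652364691206))
 (c z e
 (c z e
 (c z e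
 (c z e
 (c z e
 (c z e
 (c (a (nat_lit 0x10223438220e3765887)) e
 (c z e
 (c (a (nat_lit 0xa69cb438223a3396488)) e e)))))))))
 (c z e
 (c z e
 (c z e
 (c z e
 (c z e
 (c z e
 (c z e
 (c z e
 (c (a (nat_lit 0x1a5e9b344c2984e826)) e
 (c z e
 (c (b (nat_lit 0xa8f10dff652ee78e6)) e
 (c (a (nat_lit 0x138caba446a04420a4)) e e)))))))))))))))))
 C669)))) Tr.c Tr.e (nat_lit 0) C.cx C.cy
noncomputable def C671 : Tr := beta% (fun (c : Nat → Tr → Tr → Tr) (e : Tr) (z : Nat) (a b : Nat → Nat) =>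
 (c z
 (c z
 (c z e
 (c (a (nat_lit 0xbe9c4c50ca6eb9945)) e
 (c z e
 (c z e
 (c z e
 (c z e
 (c z e
 (c z e
 (c (a (nat_lit 0x1eb207a20a8610a504)) e e)))))))))
 (c z
 (c (a (nat_lit 0x10ed0c32d2cfded3e5)) e
 (c z e
 (c z e
 (c z e
 (c z e
 (c z e
 (c z e
 (c z e
 (c (a (nat_lit 0xd6faba9d4fbdb8485)) e e)))))))))
 (c (a (nat_lit 0x8a8b32c8ba7d043))
 (c z e
 (c z e
 (c z e
 (c z e
 (c z e
 (c z e
 (c (a (nat_lit 0x9c465c265a6f296c6)) e e)))))))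
 (c z e
 (c (a (nat_lit 0x17aba5e0ca733922))
 (c z e
 (c (a (nat_lit 0x8a8474649ae31ef46)) e e))
 (c (a (nat_lit 0x9a441c9f4337942)) e
 (c z e
 (c z e
 (c (a (nat_lit 0x70ccd1150ec0024)) e
 (c (b (nat_lit 0xe0e3110cbffffe5)) e
 (c z e
 (c z e
 (c (a (nat_lit 0x1515e7e666c7a5a3)) e
 (c (a (nat_lit 0x118300a122018023)) e e))))))))))))))
 (c z
 (c (a (nat_lit 0x3e3e0a6c7038a81))
 (c z e
 (c z e
 (c z e
 (c z e
 (c z e
 (c z e
 (c (a (nat_lit 0x26100c56180d628c6)) e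
 (c (a (nat_lit 0x482a20626edf066a6)) e e))))))))
 (c (a (nat_lit 0x6c444363657763))
 (c z e
 (c z e
 (c z e
 (c z e
 (c (a (nat_lit 0xb8c7061e3a56bedc6)) e
 (c (a (nat_lit 0x866e341c21fbd31a6)) e e))))))
 (c (a (nat_lit 0x1385e829a20808c4)) e
 (c (a (nat_lit 0x383232214b3ba03)) e
 (c (a (nat_lit 0x8086730ce935324))
 (c z e
 (c z e
 (c z e
 (c (a (nat_lit 0xa08b1c781c0000006)) e e))))
 (c z e
 (c (a (nat_lit 0x33489f3e2b4423))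
 (c (a (nat_lit 0x172b89058200000005)) e e)
 (c (a (nat_lit 0x134e3978ca638264)) e
 (c (a (nat_lit 0xfd5752c04a101e5)) e
 (c (a (nat_lit 0x1ddd96d4a1e12244)) e
 (c (a (nat_lit 0x14ec28050ced5ee4)) e
 (c (a (nat_lit 0x164f8aabaaab0a23)) e e))))))))))))
 (c z
 (c (a (nat_lit 0x19868485a5a5b1c2))
 (c z e
 (c z e
 (c z e
 (c (a (nat_lit 0x1e0c443806748b385)) e
 (c z e
 (c (a (nat_lit 0x18182a2ad52f083a6)) e e))))))
 (c z e
 (c z e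
 (c z e
 (c (b (nat_lit 0xa41ffe4e084d223))
 (c (a (nat_lit 0x1711ca4438221a006)) e
 (c (a (nat_lit 0xa581b8ec3a0000006)) e e))
 (c (a (nat_lit 0x300a88808f54c63))
 (c (a (nat_lit 0x123765a28000000006)) e e)
 (c z e
 (c (b (nat_lit 0x1090dfeba5406084)) e
 (c (a (nat_lit 0xa4696520407244)) e
 (c (a (nat_lit 0x30529e92d6e1405)) e
 (c (a (nat_lit 0x16cd646486c56523)) e
 (c (a (nat_lit 0x1b31f1f49272b363)) e e))))))))))))
 (c z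
 (c z e
 (c (a (nat_lit 0x1310ee142a4044a4)) e
 (c z e
 (c z e
 (c (a (nat_lit 0xb4328abda983be4))
 (c (a (nat_lit 0x1d7744e00000000006)) e e)
 (c z e
 (c (a (nat_lit 0x5468eedafb094c5)) e
 (c (a (nat_lit 0x276cf0712eb165)) e
 (c (a (nat_lit 0x72cf6175ab81845)) e
 (c (a (nat_lit 0x1397f994ce2e91e4)) e
 (c z e
 (c (a (nat_lit 0x176d6101e8778143)) e
 (c (a (nat_lit 0x114aebaeeb600004)) e e)))))))))))))
 (c z
 (c (a (nat_lit 0x1454b1cbe9767be2)) e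
 (c (a (nat_lit 0xe0d8b2ace923724))
 (c (a (nat_lit 0x58faaf5afc6e222e6)) e e)
 (c z e
 (c z e
 (c (a (nat_lit 0x2f1539777b1aa3)) e
 (c (a (nat_lit 0x44d2549632ba84)) e e))))))
 (c z
 (c (a (nat_lit 0x280c1020c153502))
 (c z e
 (c (a (nat_lit 0xc7fd32aa3c0000005)) e e))
 (c z e
 (c (a (nat_lit 0x38046f13172cf03)) e
 (c (a (nat_lit 0xc8fd25616b454c4)) e
 (c (a (nat_lit 0x5cc71d2d1b17125)) e e)))))
 (c z
 (c (a (nat_lit 0xab49af7355f5e2)) e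
 (c z e
 (c (a (nat_lit 0x50911f5f5734ec3)) e
 (c z e
 (c z e
 (c (a (nat_lit 0xf2f4e2e12b1ecc5)) e e))))))
 (c z
 (c z e
 (c z e
 (c z e
 (c (a (nat_lit 0xbecb110f0906da5)) e e))))
 (c z
 (c z e
 (c (a (nat_lit 0xdcdad6d724f8a25)) e
 (c (a (nat_lit 0x17b7b7bb19d273e5)) e
 (c z e
 (c z e
 (c (a (nat_lit 0x16af062600000003)) e
 (c (a (nat_lit 0x1340200000000002)) e e)))))))
 (c z
 (c z e
 (c z e
 (c z e
 (c (a (nat_lit 0x2cb609b60c00001)) e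
 (c (a (nat_lit 0x12cd4d2000000002)) e e)))))
 (c (a (nat_lit 0x2020202038c2))
 (c z e
 (c (a (nat_lit 0xba6a6e5d8ffe005)) e
 (c (a (nat_lit 0x1151d17160000005)) e e)))
 (c (a (nat_lit 0x20202036c022))
 (c (a (nat_lit 0x195958d999200005)) e e)
 (c (a (nat_lit 0x20203004a183)) e
 (c (a (nat_lit 0x1e1f1a6434383)) e
 (c (a (nat_lit 0x1b12603034323)) e
 (c (a (nat_lit 0x1f08a2c3830002)) e
 (c (a (nat_lit 0x1084c6a5c060e1)) e
 (c (a (nat_lit 0x8caaa01242101)) e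
 (c (a (nat_lit 0x887e040e02001)) e
 (c (a (nat_lit 0x5602280802001)) e
 (c (a (nat_lit 0x3a160e1c8c1)) e
 (c (a (nat_lit 0x3008061484261)) e
 (c (a (nat_lit 0x2a2636a626001)) e e)))))))))))))))))))))))) Tr.c Tr.e (nat_lit 0) C.cx C.cy
noncomputable def C672 : Tr := beta% (fun (c : Nat → Tr → Tr → Tr) (e : Tr) (z : Nat) (a : Nat → Nat) =>
 (c z
 (c z
 (c z e
 (c z e
 (c z e
 (c z e
 (c z e
 (c z e
 (c z e
 (c z e
 (c z e
 (c z e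
 (c (a (nat_lit 0x82ab0ade64704c264)) e
 (c (a (nat_lit 0x10d6b4a667ace8ea64)) e
 (c (a (nat_lit 0x806e4492aeaa75e25)) e
 (c (a (nat_lit 0x623a831f1ef4f3f05)) e e))))))))))))))
 (c z
 (c z e
 (c z e
 (c z e
 (c z e
 (c z e
 (c z e
 (c z e
 (c z e
 (c z e
 (c z e
 (c (a (nat_lit 0xb89e8aa6e302739c5)) e e)))))))))))
 (c z
 (c z e
 (c z e
 (c z e
 (c z e
 (c z e
 (c z e
 (c z e
 (c (a (nat_lit 0xb6aaa45e62407f805)) e e))))))))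
 (c (a (nat_lit 0x40404040540842))
 (c z e
 (c (a (nat_lit 0xa49e8e58c8f3382c5)) e
 (c z e
 (c z e
 (c z e
 (c (a (nat_lit 0x15f7c8aa21871dc784)) e
 (c (a (nat_lit 0x1007c9844566144e05)) e
 (c z e
 (c z e
 (c z e
 (c (a (nat_lit 0x907e96cef99600007)) e e)))))))))))
 (c (a (nat_lit 0x101010119814044))
 (c z e
 (c z e
 (c z e
 (c z e
 (c z e
 (c z e
 (c z e
 (c z e
 (c (a (nat_lit 0x6b16a94d0f4e80006)) e
 (c (a (nat_lit 0x5c4e5ead600000007)) e e))))))))))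
 (c (a (nat_lit 0x121213c2185a764))
 (c z e
 (c z e
 (c z e
 (c z e
 (c (a (nat_lit 0xc2b2d30d1294d4a86)) e e)))))
 (c (a (nat_lit 0x3c3d3424040a123))
 (c z e
 (c z e
 (c z e
 (c z e
 (c z e
 (c (a (nat_lit 0xd0e5375cb2ba7e006)) e e))))))
 (c z e
 (c (a (nat_lit 0x1b6200828669ef83))
 (c (a (nat_lit 0x3a4c362c172376366)) e
 (c (a (nat_lit 0xab088a419165ab925)) e e))
 (c (a (nat_lit 0xe02145694c9583)) e
 (c z e
 (c (a (nat_lit 0xa0c1698fd9d0a44)) e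
 (c (a (nat_lit 0x72d4e71510e2705)) e
 (c (a (nat_lit 0xdef31914cea00c5)) e
 (c (a (nat_lit 0xd163008c7a1c163)) e
 (c (a (nat_lit 0x14ef0985a0602043)) e
 (c (a (nat_lit 0x10aae9a44403c663)) e
 (c (a (nat_lit 0x1bf96f2eae332ee2)) e e))))))))))))))))))
 (c z
 (c (a (nat_lit 0x808080808088e1))
 (c z e
 (c z e
 (c z e
 (c z e
 (c z e
 (c z e
 (c z e
 (c z e
 (c z e
 (c z e
 (c (a (nat_lit 0x88424686ae68b7545)) e e)))))))))))
 (c (a (nat_lit 0x404040405cd421))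
 (c z e
 (c z e
 (c z e
 (c z e
 (c z e
 (c (a (nat_lit 0xa13d6a624b55930e4)) e
 (c (a (nat_lit 0x12198bc9158d9097c4)) e
 (c z e
 (c (a (nat_lit 0x201e54202652254a6)) e e)))))))))
 (c (a (nat_lit 0x4040405c40a082))
 (c z e
 (c z e
 (c z e
 (c z e
 (c z e
 (c z e
 (c (a (nat_lit 0x92624666a162ccd45)) e e)))))))
 (c (a (nat_lit 0x2020336180a1e4))
 (c z e
 (c z e
 (c z e
 (c (a (nat_lit 0x13344e286e8e042c5)) e
 (c (a (nat_lit 0x1887438509a466e765)) e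
 (c (a (nat_lit 0x54223072467a61746)) e e))))))
 (c (a (nat_lit 0x203a43e5e82564))
 (c z e
 (c (a (nat_lit 0x7e64c4a69b1890866)) e
 (c z e
 (c (a (nat_lit 0xc23c9bb27c2650ce5)) e
 (c z e
 (c (a (nat_lit 0x913c9644782f67766)) e
 (c (a (nat_lit 0x174d085089092a2006)) e e)))))))
 (c (a (nat_lit 0xcdc160418db703))
 (c z e
 (c z e
 (c z e
 (c z e
 (c z e
 (c (a (nat_lit 0x7c5328383a6a00005)) e e))))))
 (c (a (nat_lit 0xc0221038f3916e3)) e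
 (c (a (nat_lit 0x2e2e5b99dfd1343)) e
 (c z e
 (c (a (nat_lit 0x2ebc7bd898ce83)) e
 (c (a (nat_lit 0xb99d7f9f9acc124)) e
 (c (a (nat_lit 0x11507171314a00c5)) e
 (c (a (nat_lit 0xf70704d8c624085)) e
 (c z e
 (c (a (nat_lit 0x1312d02720402103)) e
 (c (a (nat_lit 0x12b0072040210303)) e
 (c (a (nat_lit 0x10a7c0e0420400c3)) e
 (c (a (nat_lit 0x1d0f4e11b56ea4e2)) e e))))))))))))))))))
 C671))) Tr.c Tr.e (nat_lit 0) C.cx
noncomputable def C673 : Tr := beta% (fun (c : Nat → Tr → Tr → Tr) (e : Tr) (z : Nat) (a : Nat → Nat) =>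
 (c z
 (c z
 (c z
 (c (a (nat_lit 0xd2fd371307659b256a2)) e e)
 (c z e
 (c z e
 (c (a (nat_lit 0x2222ea90b669290c3)) e
 (c z e
 (c z e
 (c z e
 (c z e
 (c z e
 (c z e
 (c z e
 (c z e
 (c z e
 (c z e
 (c (a (nat_lit 0xb6acef36b8a6b49a5)) e
 (c (a (nat_lit 0xbd45cfaadaf6e5964)) e e))))))))))))))))
 (c z
 (c (a (nat_lit 0xcccccdf30722c73c2)) e
 (c (a (nat_lit 0x3232ae626e146d844))
 (c z e
 (c z e
 (c z e
 (c z e
 (c z e
 (c z e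
 (c z e
 (c z e
 (c (a (nat_lit 0x3e1c2a44423433c2887)) e
 (c (a (nat_lit 0x709474ac5a69d54f087)) e
 (c (a (nat_lit 0x9280ec823ac70544687)) e e)))))))))))
 (c z e
 (c (a (nat_lit 0x1d989d4c4dee484903)) e
 (c z e
 (c z e
 (c z e
 (c z e
 (c z e
 (c z e
 (c z e
 (c z e
 (c (a (nat_lit 0xbec913670accc6c05)) e e)))))))))))))
 (c z
 (c (a (nat_lit 0x5456646828531d1e4))
 (c z e
 (c z e
 (c z e
 (c z e
 (c z e
 (c z e
 (c z e
 (c z e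
 (c (a (nat_lit 0x1e1c201c26211234487)) e e)))))))))
 (c z e
 (c z e
 (c z e
 (c z e
 (c z e
 (c z e
 (c z e
 (c (a (nat_lit 0x15d2ca86a1c341c264)) e
 (c (a (nat_lit 0x1a6e2e2ced64e5a4a4)) e
 (c z e
 (c (a (nat_lit 0xed23752b02bec5445)) e e))))))))))))
 (c z
 (c z e
 (c z e
 (c z e
 (c z e
 (c z e
 (c z e
 (c z e
 (c z e
 (c (a (nat_lit 0x14b396ceb04acda264)) e
 (c (a (nat_lit 0x1535d0f5ecee662a64)) e
 (c (a (nat_lit 0xb8c0e8caf2a0df805)) e e)))))))))))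
 (c z
 (c z e
 (c z e
 (c z e
 (c z e
 (c z e
 (c z e
 (c z e
 (c z e
 (c (a (nat_lit 0x92c2c906426659824)) e
 (c (a (nat_lit 0x9e9aacc6ccf0ed046)) e
 (c (a (nat_lit 0x90a8d0d6d70cdcd46)) e
 (c (a (nat_lit 0x1015791573d4345e25)) e e))))))))))))
 (c z
 (c z e
 (c z e
 (c z e
 (c z e
 (c z e
 (c z e
 (c (a (nat_lit 0x1815f3f3ad0728af24)) e
 (c (a (nat_lit 0xfce0c6a889633d7e5)) e
 (c (a (nat_lit 0x10f03676387bde7a05)) e
 (c (a (nat_lit 0x4a6a6c627e70795a7)) e e))))))))))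
 (c (a (nat_lit 0x20202020203f04))
 (c z e
 (c z e
 (c z e
 (c z e
 (c (a (nat_lit 0x10cfccc5c6482101e5)) e
 (c z e
 (c z e
 (c z e
 (c z e
 (c (a (nat_lit 0x645646605eb318007)) e e))))))))))
 (c (a (nat_lit 0x242424242554465))
 (c z e
 (c z e
 (c z e
 (c z e
 (c z e
 (c (a (nat_lit 0x146c6cfefe3981e045)) e e))))))
 (c (a (nat_lit 0x80808097804004))
 (c z e
 (c z e
 (c z e
 (c z e
 (c z e
 (c (a (nat_lit 0x19b8f99dbe8ac6d3c5)) e e))))))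
 (c (a (nat_lit 0x1c1c1d7a2222564))
 (c z e
 (c z e
 (c z e
 (c z e
 (c (a (nat_lit 0x14b63d5d4301a92ac5)) e e)))))
 (c (a (nat_lit 0x1415081e203c325))
 (c (a (nat_lit 0x728898cc8a7255445)) e
 (c (a (nat_lit 0x11f1ae68cbc595bba5)) e e))
 (c (a (nat_lit 0xb1c080c2626385)) e
 (c (a (nat_lit 0x15420245250a88a4)) e
 (c (a (nat_lit 0x5e6caea76345344)) e
 (c z e
 (c (a (nat_lit 0xdac1a38999914e4)) e
 (c (a (nat_lit 0x11069c640a82482)) e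
 (c (a (nat_lit 0x10cac741e9264c02)) e e))))))))))))))))))
 (c z
 (c z
 (c (a (nat_lit 0xdede86eaf2def14c3)) e
 (c (a (nat_lit 0xf10b49571947e9c23))
 (c z e
 (c z e
 (c z e
 (c z e
 (c z e
 (c z e
 (c z e
 (c z e
 (c (a (nat_lit 0x2a1e32281a0d62683c7)) e e)))))))))
 (c (a (nat_lit 0x177cbe55179e9bbca3)) e
 (c z e
 (c z e
 (c z e
 (c z e
 (c z e
 (c z e
 (c z e
 (c z e
 (c z e
 (c (a (nat_lit 0xa9177d58d2bacec24)) e
 (c (a (nat_lit 0x10dada5b6ed04f58e4)) e e))))))))))))))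
 (c z
 (c (a (nat_lit 0x746a7252667073044)) e
 (c z e
 (c z e
 (c z e
 (c (a (nat_lit 0x2a14367e7868bb385)) e
 (c z e
 (c z e
 (c z e
 (c z e
 (c z e
 (c (a (nat_lit 0x14f698f890efe84084)) e
 (c (a (nat_lit 0x1195f64dab2809cc65)) e
 (c (a (nat_lit 0x159614149352931885)) e
 (c (a (nat_lit 0x9670a2eefaf6bf186)) e e))))))))))))))
 (c z
 (c z e
 (c z e
 (c z e
 (c z e
 (c z e
 (c z e
 (c z e
 (c z e
 (c z e
 (c z e
 (c z e
 (c (a (nat_lit 0x8c9e9abec8f8ad266)) e e))))))))))))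
 (c z
 (c z e
 (c z e
 (c z e
 (c z e
 (c z e
 (c z e
 (c z e
 (c z e
 (c (a (nat_lit 0xe90a98968c9645e04)) e e)))))))))
 (c (a (nat_lit 0xc0c0c0c0c0d8a3))
 (c z e
 (c (a (nat_lit 0x7eceb0a6d8f6dd006)) e
 (c z e
 (c z e
 (c z e
 (c (a (nat_lit 0x5f10d880485643e84)) e
 (c (a (nat_lit 0xb6947686524e6f605)) e
 (c z e
 (c (a (nat_lit 0x7e9ac2caef0e908e6)) e
 (c z e
 (c (a (nat_lit 0x3640385656978c007)) e e)))))))))))
 (c (a (nat_lit 0x202020203a8564))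
 (c z e
 (c z e
 (c z e
 (c z e
 (c (a (nat_lit 0x11706f44e78322c365)) e
 (c z e
 (c z e
 (c z e
 (c (a (nat_lit 0x6a4c6c74bdb4644e7)) e
 (c (a (nat_lit 0x4e305c6cafac00007)) e e))))))))))
 (c (a (nat_lit 0x1e1e1e1f6630285)) e
 (c (a (nat_lit 0x1c1c1d222c0e3c4))
 (c z e
 (c z e
 (c z e
 (c z e
 (c z e
 (c (a (nat_lit 0x1554be34914287b145)) e e))))))
 (c (a (nat_lit 0x1e1f10361e56304))
 (c z e
 (c (a (nat_lit 0xe3838122c1a0dee6)) e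
 (c (a (nat_lit 0xaf12d5486e373faa5)) e
 (c (a (nat_lit 0x8260a63c189acf066)) e
 (c (a (nat_lit 0xb12cc44c506c96006)) e e)))))
 (c (a (nat_lit 0xf6036246054784))
 (c (a (nat_lit 0x1c30361816152bcc6)) e
 (c (a (nat_lit 0x565856201144f5206)) e e))
 (c (a (nat_lit 0x1a01c0a443c645c4))
 (c (a (nat_lit 0xb0e454609f318e1c5)) e e)
 (c (a (nat_lit 0x6650b4a55d54b83))
 (c z e
 (c (a (nat_lit 0xb67192fc000000006)) e e))
 (c (a (nat_lit 0x7abcb9716f45484)) e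
 (c (a (nat_lit 0x11d1bededbdbdb64)) e
 (c (a (nat_lit 0x9363633552fa9c4)) e
 (c (a (nat_lit 0x1c5d26a382619201)) e
 (c (a (nat_lit 0x1bceeecb0953d002)) e e)))))))))))))))))
 C672))) Tr.c Tr.e (nat_lit 0) C.cx
noncomputable def C674 : Tr := beta% (fun (c : Nat → Tr → Tr → Tr) (e : Tr) (z : Nat) (a b : Nat → Nat) =>
 (c z
 (c z
 (c (a (nat_lit 0xb2b288a2a757675f481)) e
 (c (a (nat_lit 0x2c4e5058667a969d424)) e
 (c (a (nat_lit 0x38343a6ccb3b28f25c4)) e e)))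
 (c (a (nat_lit 0x20202020202021aa3))
 (c z e
 (c z e
 (c z e
 (c z e
 (c z e
 (c z e
 (c z e
 (c z e
 (c z e
 (c z e
 (c z e
 (c z e
 (c z e
 (c (a (nat_lit 0x4c6a7a86a8ab2966da7)) e
 (c (a (nat_lit 0x4c565e66685884c53a8)) e e)))))))))))))))
 (c (a (nat_lit 0x444444444445d0542))
 (c z e
 (c z e
 (c z e
 (c z e
 (c z e
 (c z e
 (c z e
 (c z e
 (c z e
 (c z e
 (c z e
 (c z e
 (c (a (nat_lit 0x6c7e909ea5354e72967)) e e)))))))))))))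
 (c z e
 (c (a (nat_lit 0xb8b8b8b96b322d181)) e
 (c z e
 (c z e
 (c (a (nat_lit 0x2fccdaff4910f1023)) e
 (c (a (nat_lit 0x1c7052356fcd2da844)) e
 (c z e
 (c z e
 (c z e
 (c z e
 (c (a (nat_lit 0xcebf285a64885c0c4)) e
 (c (a (nat_lit 0xdf20b8a0907060105)) e
 (c (a (nat_lit 0x130cae2fea8241e485)) e e))))))))))))))))
 (c z
 (c (a (nat_lit 0x26262626262750c63)) e
 (c (a (nat_lit 0x1c1c1c1c1d6098ce4)) e
 (c (a (nat_lit 0x4e4e4e4fc3193c023)) e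
 (c (a (nat_lit 0x1a1a1b76c4be3cd64)) e
 (c (a (nat_lit 0x203b9190886c2e24)) e
 (c z e
 (c z e
 (c z e
 (c z e
 (c z e
 (c z e
 (c z e
 (c z e
 (c (a (nat_lit 0x17d2328dedabc18605)) e e))))))))))))))
 (c z
 (c (a (nat_lit 0x3a3a3a3b22488e883)) e
 (c (a (nat_lit 0x5252537e7ef0a9c43))
 (c z e
 (c z e
 (c z e
 (c z e
 (c z e
 (c z e
 (c z e
 (c z e
 (c (a (nat_lit 0x20182c2026160a1b107)) e
 (c z e
 (c (a (nat_lit 0x5a867e94743e747d3c7)) e e)))))))))))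
 (c (a (nat_lit 0x141484505c44a9a05))
 (c z e
 (c z e
 (c z e
 (c z e
 (c z e
 (c z e
 (c z e
 (c z e
 (c z e
 (c (a (nat_lit 0x506e5828200c4b1c6c7)) e e))))))))))
 (c z e
 (c (a (nat_lit 0x905670708902bc665)) e
 (c z e
 (c z e
 (c z e
 (c z e
 (c z e
 (c (a (nat_lit 0x1a53eff51030a8c4a4)) e
 (c (a (nat_lit 0xfab55cdab64234624)) e
 (c (a (nat_lit 0xdb02eb2324d074b85)) e e)))))))))))))
 (c z
 (c (a (nat_lit 0x3030242c482e43084)) e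
 (c z e
 (c z e
 (c z e
 (c z e
 (c z e
 (c z e
 (c z e
 (c z e
 (c (a (nat_lit 0x1dbb97330eef2162c4)) e
 (c (a (nat_lit 0x18d834d0144b28c824)) e
 (c (a (nat_lit 0x129194db14316bb105)) e
 (c (b (nat_lit 0x64b35bff61070b625)) e
 (c (a (nat_lit 0x9b291599a1896b665)) e e))))))))))))))
 (c z
 (c (a (nat_lit 0x28302220632702d25)) e
 (c z e
 (c z e
 (c z e
 (c z e
 (c (a (nat_lit 0x10ae8b872322e2c325)) e
 (c z e
 (c (a (nat_lit 0x1b540967294c64e7a4)) e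
 (c z e
 (c z e
 (c z e
 (c (a (nat_lit 0x76c0a30906d8d3006)) e e))))))))))))
 (c z
 (c z e
 (c z e
 (c z e
 (c z e
 (c z e
 (c z e
 (c z e
 (c z e
 (c z e
 (c z e
 (c (a (nat_lit 0x17349e5d7bba1ff805)) e e)))))))))))
 (c z
 (c z e
 (c z e
 (c z e
 (c z e
 (c z e
 (c z e
 (c (a (nat_lit 0xc8d162b87ac880a64)) e
 (c (a (nat_lit 0xa8dc807cb4952ece5)) e e))))))))
 (c z
 (c z e
 (c z e
 (c z e
 (c z e
 (c z e
 (c (a (nat_lit 0x19bbb5525714135364)) e e))))))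
 (c (a (nat_lit 0xc0c0c0c0c0d065)) e
 (c (a (nat_lit 0x60606060764184)) e
 (c (a (nat_lit 0x2020203180c064)) e
 (c (a (nat_lit 0x20203a21c16624)) e
 (c (a (nat_lit 0x809f80a084e424)) e
 (c z e
 (c (a (nat_lit 0x1407a5ec8cf65564))
 (c (a (nat_lit 0x11e4870064a0000006)) e e)
 (c (a (nat_lit 0x484c84870d06f05)) e
 (c z e
 (c (a (nat_lit 0xeeffdfcb5c5e7e3)) e
 (c (a (nat_lit 0x879b7d1c1c3e3c3)) e
 (c z e
 (c (a (nat_lit 0x1a746445e562cbe3)) e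
 (c (a (nat_lit 0x10e0c30380e9c583)) e
 (c (a (nat_lit 0x4c8e963b56e0602)) e
 (c (a (nat_lit 0x848e3548d85a342)) e e))))))))))))))))))))))))) Tr.c Tr.e (nat_lit 0) C.cx C.cy
noncomputable def C675 : Tr := beta% (fun (c : Nat → Tr → Tr → Tr) (e : Tr) (z : Nat) (a b : Nat → Nat) =>
 (c z
 (c (a (nat_lit 0x1a1a1a1a1a1a1be63))
 (c z e
 (c z e
 (c z e
 (c z e
 (c z e
 (c z e
 (c z e
 (c z e
 (c z e
 (c z e
 (c z e
 (c z e
 (c z e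
 (c (a (nat_lit 0x5a5e7c88acb106c6907)) e
 (c z e
 (c (a (nat_lit 0x444e585a58526908008)) e e))))))))))))))))
 (c (a (nat_lit 0xe0e0e0e0e0f520a5)) e
 (c (a (nat_lit 0x2a2a2a2a2b9a42164))
 (c z e
 (c z e
 (c z e
 (c z e
 (c z e
 (c z e
 (c z e
 (c z e
 (c z e
 (c z e
 (c z e
 (c (a (nat_lit 0xd8ef1d21c97fa50d227)) e
 (c (a (nat_lit 0x868a8a9ae354aa60008)) e e)))))))))))))
 (c (a (nat_lit 0xe0e0e0f142a2a305))
 (c z e
 (c z e
 (c z e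
 (c z e
 (c z e
 (c z e
 (c z e
 (c z e
 (c (a (nat_lit 0x766ab6fabc88627be26)) e e)))))))))
 (c (a (nat_lit 0xc0c0d26423832725))
 (c z e
 (c z e
 (c z e
 (c z e
 (c z e
 (c z e
 (c z e
 (c z e
 (c (a (nat_lit 0x1e988498301e0805067)) e e)))))))))
 (c (a (nat_lit 0xe0f5076465a3cac5))
 (c z e
 (c z e
 (c z e
 (c z e
 (c z e
 (c z e
 (c z e
 (c z e
 (c (a (nat_lit 0x171ab62b6c7f0c200006)) e e)))))))))
 (c z e
 (c z e
 (c z e
 (c z e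
 (c z e
 (c z e
 (c (a (nat_lit 0x18952f342e4986e424)) e
 (c (a (nat_lit 0x1c3a9c56ce89268225)) e
 (c (a (nat_lit 0x10d23251eb2a06e7c6)) e
 (c (b (nat_lit 0x1130501ffff0aa12c5)) e e))))))))))))))))
 (c z
 (c (a (nat_lit 0x12121212139a20124)) e
 (c (a (nat_lit 0x101010110e281a245)) e
 (c (a (nat_lit 0x1a1a1b42504c46c05)) e
 (c (a (nat_lit 0x10113e4c44349f325))
 (c z e
 (c z e
 (c z e
 (c z e
 (c z e
 (c z e
 (c z e
 (c z e
 (c (a (nat_lit 0xc092ba8032264dd48e6)) e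
 (c (a (nat_lit 0x11f7934c6f05ce400006)) e
 (c (a (nat_lit 0x6e87c40e10000000007)) e e)))))))))))
 (c (a (nat_lit 0xf3c6030545ee4445)) e
 (c (a (nat_lit 0x1c89e6a829ac68a645)) e
 (c z e
 (c z e
 (c z e
 (c z e
 (c (a (nat_lit 0x16d0288aaa8c6aa544)) e
 (c z e
 (c (a (nat_lit 0x12b475ce8728476745)) e
 (c z e
 (c (b (nat_lit 0x3e70c3ffff7123785)) e e)))))))))))))))
 (c z
 (c (a (nat_lit 0xcacacbfb0ae4bd922))
 (c z e
 (c z e
 (c z e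
 (c z e
 (c z e
 (c z e
 (c z e
 (c z e
 (c z e
 (c z e
 (c z e
 (c z e
 (c z e
 (c (a (nat_lit 0x5058adbc00000000007)) e e))))))))))))))
 (c (a (nat_lit 0x34350478743b2dfc4))
 (c z e
 (c z e
 (c z e
 (c z e
 (c z e
 (c z e
 (c z e
 (c z e
 (c z e
 (c z e
 (c (a (nat_lit 0x8888ebd6bc904600007)) e e)))))))))))
 (c z e
 (c (a (nat_lit 0x142b8727cc1d92fca4)) e
 (c (a (nat_lit 0x4e465ebd5b81dbd04)) e
 (c z e
 (c z e
 (c z e
 (c z e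
 (c z e
 (c (a (nat_lit 0x123899f44c09e4e604)) e
 (c (a (nat_lit 0x11f1112f4f6e6baec5)) e
 (c (a (nat_lit 0x8ccb0373b59545825)) e
 (c (a (nat_lit 0x88c127d3ebcda56a5)) e e))))))))))))))
 (c z
 (c (a (nat_lit 0x2066323428f72d2e4)) e
 (c z e
 (c z e
 (c z e
 (c z e
 (c z e
 (c z e
 (c z e
 (c (a (nat_lit 0x175937b4d14d2faca5)) e
 (c (a (nat_lit 0xff02e2987ea46e885)) e
 (c (a (nat_lit 0xa496b0dd4929074c5)) e e)))))))))))
 (c z e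
 (c z
 (c z e
 (c z e
 (c z e
 (c z e
 (c z e
 (c z e
 (c z e
 (c (a (nat_lit 0x52305e9a8e8a855a5)) e e))))))))
 (c z e
 (c z
 (c z e
 (c (a (nat_lit 0x5086dd4b07411ec26)) e
 (c z e
 (c z e
 (c z e
 (c z e
 (c (a (nat_lit 0x12b45051d1f0b52606)) e e)))))))
 (c (a (nat_lit 0x80808080809f64))
 (c z e
 (c z e
 (c z e
 (c z e
 (c (a (nat_lit 0xccd2f0a9936282ac5)) e
 (c (a (nat_lit 0xdef0eb06e73c743a6)) e e))))))
 (c (a (nat_lit 0x40404040502245)) e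
 (c (a (nat_lit 0x40404054624185)) e
 (c (a (nat_lit 0x2020354160a185)) e
 (c (a (nat_lit 0x2e2ff6604858524))
 (c z e
 (c (a (nat_lit 0x1666722dc466c84005)) e e))
 (c (a (nat_lit 0x69fc9c689c94e44))
 (c (a (nat_lit 0x2dd18f23a8200004)) e e)
 (c (a (nat_lit 0x1963a245e58ac964)) e
 (c (a (nat_lit 0x887ab6af735d404)) e
 (c z e
 (c (a (nat_lit 0xc8af32b442202e2)) e
 (c (a (nat_lit 0x9f22ac3c8226542)) e
 (c (a (nat_lit 0x11eb242842c58222)) e e))))))))))))))))))))) Tr.c Tr.e (nat_lit 0) C.cx C.cy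
noncomputable def C676 : Tr := beta% (fun (c : Nat → Tr → Tr → Tr) (e : Tr) (z : Nat) (a b : Nat → Nat) =>
 (c z
 (c z
 (c (a (nat_lit 0x181818181819bc32243)) e
 (c (a (nat_lit 0x2a2a2a2a2b704248504)) e
 (c (a (nat_lit 0x1e1e1e1fca382c50484)) e
 (c (a (nat_lit 0x161617041e1c2a4a865)) e e))))
 (c z
 (c (a (nat_lit 0x8a8a8a8b6898eb25523)) e
 (c (a (nat_lit 0x3e3e3f426e7688952a5)) e
 (c (a (nat_lit 0x3c3d62445878e9a5145)) e
 (c z e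
 (c z e
 (c z e
 (c z e
 (c z e
 (c z e
 (c z e
 (c z e
 (c z e
 (c z e
 (c (a (nat_lit 0x767c7c7674927e7dac5)) e e))))))))))))))
 (c z
 (c (a (nat_lit 0x54555068628c995f424)) e
 (c z e
 (c z e
 (c z e
 (c z e
 (c z e
 (c z e
 (c z e
 (c z e
 (c z e
 (c z e
 (c z e
 (c (a (nat_lit 0x847c768c8e80932b8e5)) e
 (c (a (nat_lit 0x585c84929aa6acaf487)) e e))))))))))))))
 (c z
 (c z e
 (c z e
 (c z e
 (c z e
 (c z e
 (c z e
 (c z e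
 (c z e
 (c z e
 (c z e
 (c z e
 (c z e
 (c (a (nat_lit 0x5880808a94a0a508a07)) e
 (c (a (nat_lit 0x808698a4aaaca8e9c87)) e
 (c (a (nat_lit 0x80909ea6aaac989be07)) e e)))))))))))))))
 (c (a (nat_lit 0x101010101010116e4))
 (c z e
 (c z e
 (c z e
 (c z e
 (c z e
 (c z e
 (c z e
 (c z e
 (c z e
 (c z e
 (c z e
 (c (a (nat_lit 0x747e80869698f8890e7)) e
 (c (a (nat_lit 0x98a2acc0c6c8f4c9a67)) e e)))))))))))))
 (c (a (nat_lit 0x10101010101170044))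
 (c z e
 (c z e
 (c z e
 (c z e
 (c z e
 (c z e
 (c z e
 (c z e
 (c z e
 (c z e
 (c z e
 (c (a (nat_lit 0x343a343c3e3849001a8)) e e))))))))))))
 (c (a (nat_lit 0xe0e0e0e0f88240e4)) e
 (c (a (nat_lit 0xa0a0a0b204c18205)) e
 (c (a (nat_lit 0x80a0b705820321e5)) e
 (c (a (nat_lit 0x2e2fb65c5a7234265)) e
 (c (a (nat_lit 0xb1c321422120c185)) e
 (c z e
 (c z e
 (c z e
 (c z e
 (c (a (nat_lit 0x15be1ebd1f768ea4e4)) e
 (c (b (nat_lit 0x12f392b3dfefe66185)) e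
 (c (b (nat_lit 0x123171bfffe9c3e285)) e e))))))))))))))))))
 (c z
 (c z
 (c (a (nat_lit 0x7c7c7c5e72ab092f4c3)) e
 (c (a (nat_lit 0x4848ac7e9498b30d225)) e
 (c z e
 (c z e
 (c z e
 (c z e
 (c z e
 (c z e
 (c z e
 (c z e
 (c z e
 (c z e
 (c z e
 (c z e
 (c (a (nat_lit 0x5c627296acb0c0bd6a7)) e e)))))))))))))))
 (c z
 (c z e
 (c z e
 (c z e
 (c z e
 (c z e
 (c z e
 (c z e
 (c z e
 (c z e
 (c z e
 (c z e
 (c z e
 (c (a (nat_lit 0x74848e8c74899563886)) e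
 (c z e
 (c z e
 (c (a (nat_lit 0x98aebcd0d2c2b6d3e88)) e e))))))))))))))))
 (c (a (nat_lit 0xe0e0e0e0e0e0f2e5)) e
 (c (a (nat_lit 0x4848484848495c3c3)) e
 (c (a (nat_lit 0x7272727273d494363)) e
 (c (a (nat_lit 0x2020202192964e604))
 (c z e
 (c z e
 (c z e
 (c z e
 (c z e
 (c z e
 (c z e
 (c z e
 (c z e
 (c (a (nat_lit 0xa096a5191e86d04c347)) e e))))))))))
 (c (a (nat_lit 0xe0e0f248e646e4e5))
 (c z e
 (c z e
 (c z e
 (c z e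
 (c z e
 (c z e
 (c z e
 (c z e
 (c (a (nat_lit 0xeec6d958b106e638006)) e e)))))))))
 (c (a (nat_lit 0x1415408a5a82685c5))
 (c z e
 (c z e
 (c z e
 (c z e
 (c (a (nat_lit 0x6e5e5e862a3e7941f26)) e
 (c (a (nat_lit 0x6870680e3c46e57d547)) e
 (c (a (nat_lit 0x1877ca05660af5dad386)) e e)))))))
 (c z e
 (c z e
 (c z e
 (c z e
 (c z e
 (c z e
 (c (a (nat_lit 0xf2f906deb67c38506)) e
 (c (a (nat_lit 0x13f4f1f24f880443a6)) e
 (c (b (nat_lit 0x1ef919dfffeae3aaa5)) e e)))))))))))))))))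
 C675))) Tr.c Tr.e (nat_lit 0) C.cx C.cy
noncomputable def C677 : Tr := beta% (fun (c : Nat → Tr → Tr → Tr) (e : Tr) (z : Nat) (a : Nat → Nat) =>
 (c z
 (c z
 (c z e
 (c z e
 (c (a (nat_lit 0x1414141414141414961)) e e)))
 (c z
 (c (a (nat_lit 0x1212121212121213b42)) e
 (c (a (nat_lit 0x202020202020219a322)) e
 (c (a (nat_lit 0x101010101011ac20222)) e
 (c (a (nat_lit 0xe0e0e0e0f0a16181e3)) e
 (c (a (nat_lit 0x2a2a2a2bc0363430442)) e e)))))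
 (c z
 (c (a (nat_lit 0x5e5e5e5e5e5eee64721)) e
 (c (a (nat_lit 0x3e3e3e3e3f5468828c1)) e
 (c (a (nat_lit 0x34343435b8365c80a61)) e
 (c (a (nat_lit 0x7a7a7b8e74949cb5701)) e e))))
 (c z
 (c z e
 (c (a (nat_lit 0x868687be8aa4c095021)) e e)) e))))
 (c z
 (c z
 (c (a (nat_lit 0x141414141414157e263)) e
 (c (a (nat_lit 0x303030303031ee4c543)) e
 (c (a (nat_lit 0xe0e0e0e0f261a18264)) e
 (c (a (nat_lit 0x1616161758201e2e4a4)) e
 (c (a (nat_lit 0x1c1c1d0a22202236864)) e e)))))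
 (c z
 (c (a (nat_lit 0x9090909091a2a8cf282)) e
 (c (a (nat_lit 0x2c2c2c2d0c565a685c4)) e
 (c (a (nat_lit 0x2c2c2d3434466ca92a4)) e
 (c (a (nat_lit 0x3c3cce3e465675392a4)) e e))))
 (c z
 (c (a (nat_lit 0x5a5a5bda7870b29f6e2)) e
 (c (a (nat_lit 0x30314a363a586b02ae4)) e e))
 (c z
 (c (a (nat_lit 0x355c3a3c568d4cb2743)) e
 (c (a (nat_lit 0x13430343e7118a8b2f24)) e e))
 (c z e
 (c (a (nat_lit 0xa0a0a0a0a0a0bba3))
 (c z e
 (c z e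
 (c z e
 (c z e
 (c z e
 (c z e
 (c z e
 (c z e
 (c z e
 (c z e
 (c z e
 (c (a (nat_lit 0x4450524c5a5436258e6)) e e))))))))))))
 (c (a (nat_lit 0x121212121213c01c3)) e
 (c (a (nat_lit 0x60606060714240e4)) e
 (c (a (nat_lit 0x121212137c3a1e2c4)) e
 (c (a (nat_lit 0xa0a0b982e2c400e4)) e
 (c (a (nat_lit 0xe0f4022142216064)) e
 (c (a (nat_lit 0x113c2818281c16164)) e
 (c (a (nat_lit 0x14e201a2a342a2a0c4)) e e)))))))))))))
 (c z
 (c z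
 (c (a (nat_lit 0x8c8c8c8cb6929f02f41)) e
 (c (a (nat_lit 0x7a7a7b0ed4f917154a2)) e
 (c (a (nat_lit 0x42428a40628ed3473a3)) e e)))
 (c z
 (c (a (nat_lit 0x7c7ca6cae0d6e331302)) e e)
 (c z
 (c (a (nat_lit 0x7c445c74b53f2accb03)) e
 (c z e
 (c z e
 (c z e
 (c z e
 (c z e
 (c z e
 (c z e
 (c z e
 (c z e
 (c z e
 (c z e
 (c z e
 (c (a (nat_lit 0x68808aa0a2a68af3646)) e
 (c (a (nat_lit 0x5c66808286769c916a6)) e e)))))))))))))))
 (c (a (nat_lit 0x52525252525253e21)) e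
 (c (a (nat_lit 0x404040404041020e2)) e
 (c (a (nat_lit 0x14141414157e5e422)) e
 (c z e
 (c z e
 (c (a (nat_lit 0x4041f6809aca6c4c3)) e e)))))))))
 (c z
 (c z
 (c z e
 (c (a (nat_lit 0xa6cadaf101552149b02)) e e))
 (c (a (nat_lit 0x38383838383839a02))
 (c z e
 (c z e
 (c z e
 (c z e
 (c z e
 (c z e
 (c z e
 (c z e
 (c z e
 (c z e
 (c z e
 (c z e
 (c z e
 (c (a (nat_lit 0x6e88a2a8b0a4e9c8f26)) e
 (c (a (nat_lit 0x5872786c6e96b9a0006)) e e)))))))))))))))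
 (c (a (nat_lit 0x565656565657b21e1)) e
 (c (a (nat_lit 0xa0a0a0a0b6826522)) e
 (c z e
 (c z e
 (c (a (nat_lit 0x38392454667450343)) e
 (c (a (nat_lit 0x5b067a86926252464)) e
 (c z e
 (c z e
 (c z e
 (c z e
 (c z e
 (c z e
 (c z e
 (c (a (nat_lit 0x1e7edfff2e8d2c5142)) e e))))))))))))))))
 (c z
 (c z e
 (c (a (nat_lit 0x4040404059c22262)) e
 (c (a (nat_lit 0x16161617ea70885c2)) e
 (c z e
 (c z e
 (c (a (nat_lit 0x333e6068726a545c3)) e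
 (c (a (nat_lit 0x10a747e947a6c704a4)) e e)))))))
 (c z
 (c z e
 (c z e
 (c z e
 (c z e
 (c z e
 (c z e
 (c z e
 (c z e
 (c z e
 (c z e
 (c z e
 (c (a (nat_lit 0x1895f50c28a7670f03)) e
 (c (a (nat_lit 0xd0aaab25332b19423)) e e)))))))))))))
 (c z e
 (c z e
 (c z e
 (c z e
 (c z e
 (c z e
 (c (a (nat_lit 0x20202020203103)) e
 (c (a (nat_lit 0x20202020356103)) e
 (c (a (nat_lit 0x101212138a18123)) e
 (c (a (nat_lit 0xc0c0d181610183)) e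
 (c (a (nat_lit 0x56574a5e5056543)) e
 (c (a (nat_lit 0x6b4e66627a788a3)) e
 (c (a (nat_lit 0x1102826404056503)) e e)))))))))))))))))))) Tr.c Tr.e (nat_lit 0) C.cx
noncomputable def C679 : Tr := beta% (fun (c : Nat → Tr → Tr → Tr) (e : Tr) (z : Nat) (a b : Nat → Nat) =>
 (c (nat_lit 1)
 (c (nat_lit 1)
 (c (a (nat_lit 0x20404101e1)) e
 (c (a (nat_lit 0x21e38341)) e
 (c (a (nat_lit 0x2060809505)) e
 (c (a (nat_lit 0x202850c6)) e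
 (c (a (nat_lit 0x70b118f73e6)) e
 (c (a (nat_lit 0x14d7f64d00a7)) e
 (c (b (nat_lit 0x155ff262a003)) e
 (c (a (nat_lit 0x3e240000001)) e e))))))))
 (c (a (nat_lit 0x20202021))
 (c (a (nat_lit 0x1422283c1)) e
 (c (a (nat_lit 0x20254e7667)) e
 (c (a (nat_lit 0x2a54850eb88)) e
 (c z e
 (c (a (nat_lit 0x1a7eb9a12347)) e
 (c (a (nat_lit 0xed1a7c00004)) e e))))))
 (c (a (nat_lit 0x202033a2))
 (c (a (nat_lit 0x203d8fdca6)) e e)
 (c (a (nat_lit 0x20221026))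
 (c (a (nat_lit 0x60acda774e7)) e e)
 (c (a (nat_lit 0xcc7560f06)) e
 (c (a (nat_lit 0x8b771a9a6)) e
 (c (a (nat_lit 0x1e55a864c5)) e
 (c (a (nat_lit 0x1568048445)) e
 (c z e
 (c (a (nat_lit 0x12b1f15123)) e
 (c (a (nat_lit 0x422810121)) e
 (c (a (nat_lit 0x321a202a1)) e
 (c (a (nat_lit 0x408121e1)) e
 (c (a (nat_lit 0x20406081)) e
 (c (a (nat_lit 0x20408001)) e
 (c (a (nat_lit 0x20802001)) e
 (c (a (nat_lit 0x80000001)) e e)))))))))))))))))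
 (c (nat_lit 1)
 (c (a (nat_lit 0x2039c5))
 (c (a (nat_lit 0xa080e15222)) e
 (c (a (nat_lit 0x20377dbb66)) e
 (c (a (nat_lit 0x56a774f93e7)) e
 (c (a (nat_lit 0xdf070ef60a8)) e
 (c (a (nat_lit 0x1335cfc8a006)) e
 (c (a (nat_lit 0x24040000001)) e e))))))
 (c (a (nat_lit 0x203a0de6))
 (c (a (nat_lit 0x6d45553e7)) e
 (c z e
 (c z e
 (c (a (nat_lit 0x10b016800007)) e e))))
 (c (a (nat_lit 0xd949dd046)) e
 (c (a (nat_lit 0x17be1a1687)) e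
 (c (a (nat_lit 0x1b6d802025)) e
 (c (a (nat_lit 0x126725e265)) e
 (c z e
 (c (a (nat_lit 0x1a6102e342)) e
 (c (a (nat_lit 0x1e04080e1)) e
 (c (a (nat_lit 0x2060a141)) e
 (c (a (nat_lit 0x406060a1)) e
 (c (a (nat_lit 0x2040c0c1)) e
 (c (a (nat_lit 0x20606041)) e
 (c (a (nat_lit 0x20202001)) e
 (c (a (nat_lit 0x20200001)) e e)))))))))))))))
 (c (a (nat_lit 0x202021))
 (c (a (nat_lit 0xdad128c5))
 (c (a (nat_lit 0x2e300fcce6)) e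
 (c z e
 (c z e
 (c (a (nat_lit 0x1554e0000006)) e e))))
 (c (a (nat_lit 0xb346de7c7))
 (c (a (nat_lit 0xd71edf083c8)) e e)
 (c z e
 (c z e
 (c z e
 (c (a (nat_lit 0x22224181)) e
 (c (a (nat_lit 0x830b0a844)) e
 (c (a (nat_lit 0x140608821)) e
 (c (a (nat_lit 0x40a1c461)) e
 (c (a (nat_lit 0x81448601)) e
 (c (a (nat_lit 0x2021e2e1)) e
 (c (a (nat_lit 0x20416221)) e
 (c (a (nat_lit 0x404001)) e
 (c (a (nat_lit 0x20000001)) e e))))))))))))))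
 (c (a (nat_lit 0x202021))
 (c (a (nat_lit 0x120d602025))
 (c (a (nat_lit 0x847f0a3e007)) e e)
 (c z e
 (c z e
 (c (a (nat_lit 0x1515153525)) e
 (c (a (nat_lit 0x1535352605)) e
 (c (a (nat_lit 0x406112c1)) e
 (c (a (nat_lit 0x2080e1a1)) e
 (c (a (nat_lit 0x20412281)) e
 (c (a (nat_lit 0x204162a1)) e
 (c (a (nat_lit 0x2040e141)) e
 (c (a (nat_lit 0x20406061)) e
 (c (a (nat_lit 0x200001)) e e))))))))))))
 (c (nat_lit 1)
 (c z e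
 (c (a (nat_lit 0x1111113127)) e
 (c (a (nat_lit 0x1216041)) e
 (c (a (nat_lit 0x80c021)) e
 (c (a (nat_lit 0x20c08161)) e
 (c (a (nat_lit 0xc0614241)) e
 (c (a (nat_lit 0x20a12181)) e
 (c (a (nat_lit 0x20e0c181)) e
 (c (a (nat_lit 0x2040c1c1)) e
 (c (a (nat_lit 0x20604001)) e
 (c (nat_lit 1) e e)))))))))))
 (c (a (nat_lit 0x202021))
 (c (a (nat_lit 0x13d3d3c365)) e
 (c (a (nat_lit 0x40a06081)) e
 (c (a (nat_lit 0x160204101)) e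
 (c (a (nat_lit 0x20208181)) e
 (c (a (nat_lit 0x204162a1)) e
 (c (a (nat_lit 0x20812241)) e
 (c (a (nat_lit 0x2060a1e1)) e
 (c (a (nat_lit 0x2040c0e1)) e
 (c (a (nat_lit 0x20200001)) e e)))))))))
 (c (nat_lit 1)
 (c (nat_lit 1) e
 (c (a (nat_lit 0x20202021)) e
 (c (nat_lit 1) e
 (c (a (nat_lit 0x21)) e
 (c (a (nat_lit 0x20202021)) e
 (c (a (nat_lit 0x20402021)) e
 (c (a (nat_lit 0x40202001)) e
 (c (a (nat_lit 0x20000001)) e e))))))))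
 (c (a (nat_lit 0x202021))
 (c (a (nat_lit 0x20202021)) e
 (c (a (nat_lit 0x20202021)) e
 (c (a (nat_lit 0x20202021)) e
 (c (a (nat_lit 0x20402021)) e
 (c (a (nat_lit 0x40404021)) e
 (c (a (nat_lit 0x40200001)) e e))))))
 (c (nat_lit 1)
 (c (a (nat_lit 0x2001)) e
 (c (a (nat_lit 0x200001)) e
 (c (a (nat_lit 0x20202021)) e
 (c (a (nat_lit 0x20202001)) e
 (c (a (nat_lit 0x20000001)) e e)))))
 (c (nat_lit 1)
 (c (a (nat_lit 0x20000001)) e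
 (c (a (nat_lit 0x20202001)) e
 (c (a (nat_lit 0x20200001)) e e)))
 (c (a (nat_lit 0x202021))
 (c (a (nat_lit 0x20202001)) e
 (c (a (nat_lit 0x20000001)) e e))
 (c (a (nat_lit 0x202021)) e
 (c (a (nat_lit 0x202021)) e
 (c (a (nat_lit 0x202021)) e
 (c (a (nat_lit 0x404041)) e
 (c (a (nat_lit 0x202021)) e
 (c (a (nat_lit 0x202021)) e
 (c (a (nat_lit 0x202021)) e
 (c (a (nat_lit 0x202021)) e
 (c (a (nat_lit 0x202021)) e
 (c (a (nat_lit 0x200021)) e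
 (c (a (nat_lit 0x1ca5)) e
 (c z e
 (c (a (nat_lit 0x1cb36005)) e
 (c (a (nat_lit 0x13602005)) e e)))))))))))))))))))))))))) Tr.c Tr.e (nat_lit 0) C.cx C.cy
noncomputable def C680 : Tr := beta% (fun (c : Nat → Tr → Tr → Tr) (e : Tr) (z : Nat) (a b : Nat → Nat) =>
 (c (nat_lit 1)
 (c (a (nat_lit 0x20202021))
 (c (a (nat_lit 0xc31cec94945))
 (c (a (nat_lit 0x10931432751104)) e
 (c (a (nat_lit 0x19793c99543704)) e
 (c (b (nat_lit 0x905b15ff1cdc4)) e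
 (c (b (nat_lit 0x30dbff38fd024)) e
 (c (b (nat_lit 0x1affe58eb048a4)) e
 (c (b (nat_lit 0x9a9fe8a00004)) e e))))))
 (c (a (nat_lit 0x13cb60202025))
 (c (a (nat_lit 0x2d3e101c10063)) e
 (c (a (nat_lit 0x83da2b8a20302)) e
 (c (b (nat_lit 0x1fe1d8a6e3a262)) e
 (c (a (nat_lit 0x372465610002)) e
 (c (a (nat_lit 0x1a474200000005)) e e)))))
 (c (a (nat_lit 0x166020202004))
 (c (a (nat_lit 0x449460e18042)) e
 (c z e
 (c (a (nat_lit 0x1ba1e4a1400002)) e e)))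
 (c (a (nat_lit 0xc0c14001)) e
 (c (a (nat_lit 0x140c0a0c001)) e
 (c (a (nat_lit 0x2628160a1)) e
 (c (a (nat_lit 0x141c180c001)) e
 (c (a (nat_lit 0x20201808021)) e
 (c (a (nat_lit 0x4040203045)) e
 (c (b (nat_lit 0x4027f3ffe5)) e
 (c (a (nat_lit 0x32ad6e2c345)) e
 (c (a (nat_lit 0x113d4e29a985)) e
 (c (a (nat_lit 0x13a4c0402005)) e
 (c (a (nat_lit 0x12e0a0000003)) e e))))))))))))))
 (c (a (nat_lit 0x60606061))
 (c (a (nat_lit 0x174040608003))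
 (c (a (nat_lit 0xf90af80e0a0a3)) e
 (c (a (nat_lit 0x15719720e14024)) e
 (c (a (nat_lit 0x956c28140e084)) e
 (c (a (nat_lit 0x126180a0400005)) e
 (c (a (nat_lit 0x11e1c000000005)) e e)))))
 (c (a (nat_lit 0x2832302c161))
 (c (a (nat_lit 0x150280c120a044)) e
 (c (a (nat_lit 0x9f10f476001)) e e))
 (c (a (nat_lit 0x202e282a1a1)) e
 (c (a (nat_lit 0x1e1a2224041)) e
 (c (a (nat_lit 0x241c10181)) e
 (c (a (nat_lit 0x1c2e26160e1)) e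
 (c (a (nat_lit 0x4040405885)) e
 (c (a (nat_lit 0x2031375607)) e
 (c (a (nat_lit 0x6c6d2ae3286)) e
 (c z e
 (c (a (nat_lit 0x130ef347a7a6)) e
 (c (a (nat_lit 0xaf3a0200005)) e e))))))))))))
 (c (a (nat_lit 0x80808081))
 (c (a (nat_lit 0x14161212061)) e
 (c (a (nat_lit 0x26202e24021)) e
 (c (a (nat_lit 0x28262c14121)) e
 (c (a (nat_lit 0xa362a1e3c1)) e
 (c (a (nat_lit 0x4020203445)) e
 (c (a (nat_lit 0x40521733a7)) e
 (c (a (nat_lit 0x1d31814fbc7)) e e)))))))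
 (c (a (nat_lit 0x40404041))
 (c (a (nat_lit 0x4e505044361)) e
 (c (a (nat_lit 0x787664504a1)) e
 (c (a (nat_lit 0x4040409864)) e
 (c (a (nat_lit 0x202d906d07)) e
 (c (a (nat_lit 0x4d65955b5e7)) e
 (c (a (nat_lit 0x163938b5b467)) e
 (c (a (nat_lit 0x56408e85425)) e
 (c (a (nat_lit 0x47c8944225)) e e))))))))
 (c (a (nat_lit 0x40404041))
 (c (a (nat_lit 0x12140a08041)) e
 (c (a (nat_lit 0x202b708d26)) e
 (c (a (nat_lit 0x471d4326ec7)) e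
 (c (a (nat_lit 0x10f2314f29c8)) e
 (c (a (nat_lit 0x10ee4d6deb47)) e
 (c (a (nat_lit 0x606850e846)) e e))))))
 (c (nat_lit 1)
 (c (a (nat_lit 0xac110cf0a6)) e
 (c z e
 (c z e
 (c (a (nat_lit 0x11f6f62f6ac7)) e e))))
 (c (a (nat_lit 0x40202021))
 (c (a (nat_lit 0x10ae71a02227)) e
 (c z e
 (c z e
 (c (a (nat_lit 0xc7e2a802005)) e
 (c (a (nat_lit 0x11ef80000004)) e e)))))
 (c (a (nat_lit 0x402001))
 (c z e
 (c (a (nat_lit 0x2fd1c90127)) e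
 (c (a (nat_lit 0x14794f800004)) e
 (c (a (nat_lit 0x122000000004)) e e))))
 (c (a (nat_lit 0x40404041))
 (c (a (nat_lit 0xe4d3686c005)) e
 (c (a (nat_lit 0x138020000003)) e e))
 (c (a (nat_lit 0x2026b425))
 (c (a (nat_lit 0x4000000001)) e e)
 (c (a (nat_lit 0x86efc9a25)) e
 (c (a (nat_lit 0xb11d0ac46)) e
 (c (a (nat_lit 0x120fc73265)) e
 (c (a (nat_lit 0x138b164ce5)) e
 (c z e
 (c (a (nat_lit 0x164f242425)) e
 (c (a (nat_lit 0x1640202024)) e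
 (c (a (nat_lit 0x20602021)) e
 (c (a (nat_lit 0x120a02021)) e
 (c (a (nat_lit 0x140806001)) e
 (c (a (nat_lit 0x140400001)) e e)))))))))))))))))))))
 (c (nat_lit 1)
 (c (a (nat_lit 0x20202021))
 (c (a (nat_lit 0x8080806041))
 (c (a (nat_lit 0x1582206080a022)) e
 (c (a (nat_lit 0x1e01a121e08122)) e e))
 (c (a (nat_lit 0xc0a1012181)) e
 (c (a (nat_lit 0x120e1a24161)) e
 (c (a (nat_lit 0x80a06021)) e
 (c (a (nat_lit 0x1a1a20301)) e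
 (c (a (nat_lit 0xe161614141)) e
 (c (a (nat_lit 0x202031a5)) e
 (c (a (nat_lit 0x60751ddac6)) e
 (c (a (nat_lit 0x15759f18d945)) e
 (c (a (nat_lit 0xb54cecf6ba5)) e
 (c (b (nat_lit 0x13bfe8c02004)) e
 (c (a (nat_lit 0x2220000001)) e e))))))))))))
 (c (a (nat_lit 0xa0a0a0a1))
 (c (a (nat_lit 0x12121a1c101)) e
 (c (a (nat_lit 0x181e301e121)) e
 (c (a (nat_lit 0x1c281c12141)) e
 (c (a (nat_lit 0x242c2e668a1)) e
 (c (a (nat_lit 0x2020409da4)) e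
 (c (a (nat_lit 0x202cd073c7)) e
 (c (a (nat_lit 0x2476fd17148)) e
 (c z e
 (c (a (nat_lit 0x153ada144f85)) e
 (c (a (nat_lit 0x1290e9c00004)) e e))))))))))
 (c (a (nat_lit 0x20202021))
 (c (a (nat_lit 0x40e0606041)) e
 (c (a (nat_lit 0x10080a14301)) e
 (c (a (nat_lit 0x204091c5)) e
 (c (a (nat_lit 0x202d91b107)) e
 (c (a (nat_lit 0x47115337747)) e e)))))
 (c (a (nat_lit 0x40404021))
 (c (a (nat_lit 0x4040407844)) e
 (c (a (nat_lit 0x20204b18e6)) e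
 (c (a (nat_lit 0x4b25778ea47)) e
 (c (a (nat_lit 0x1012b2efc9c8)) e
 (c (a (nat_lit 0x1111d42e89a7)) e
 (c (a (nat_lit 0x112bce932d06)) e e))))))
 (c (nat_lit 1)
 (c (a (nat_lit 0xe0e5b230e6)) e
 (c (a (nat_lit 0xd2f72ed8688)) e
 (c z e
 (c (a (nat_lit 0x12f79270d427)) e e))))
 (c (a (nat_lit 0x20200001))
 (c (a (nat_lit 0x1e5ff24161a6)) e e)
 (c (b (nat_lit 0x60607fe1))
 (c z e
 (c (a (nat_lit 0xfd92ca80006)) e
 (c (a (nat_lit 0x122020000006)) e e)))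
 (c (a (nat_lit 0x20203904))
 (c (a (nat_lit 0x165b83600005)) e
 (c (a (nat_lit 0x13c000000006)) e e))
 (c (a (nat_lit 0xc0d393486)) e
 (c (a (nat_lit 0x8d4d049a6)) e
 (c (a (nat_lit 0x1e14e7e725)) e
 (c (a (nat_lit 0x15686788c5)) e
 (c z e
 (c (a (nat_lit 0x1286c64663)) e
 (c (a (nat_lit 0x320c08041)) e
 (c (a (nat_lit 0xe0e08021)) e
 (c (a (nat_lit 0xe0802021)) e
 (c (a (nat_lit 0x602020a1)) e
 (c (a (nat_lit 0x80408001)) e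
 (c (a (nat_lit 0x20000001)) e e))))))))))))))))))))
 (c (nat_lit 1)
 (c (a (nat_lit 0x20202021))
 (c (a (nat_lit 0xe10120e0a1)) e
 (c (a (nat_lit 0xe160e060a1)) e
 (c (a (nat_lit 0x12120c141e1)) e
 (c (a (nat_lit 0x4082244701)) e
 (c (a (nat_lit 0x2020407285)) e
 (c (a (nat_lit 0x20345ada06)) e
 (c (a (nat_lit 0x4b1b514b287)) e
 (c (a (nat_lit 0xf1432b2f105)) e
 (c (a (nat_lit 0x1d1758288003)) e
 (c (a (nat_lit 0x142a0000001)) e e))))))))))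
 (c (a (nat_lit 0x40404041))
 (c (a (nat_lit 0xc0404082a1)) e
 (c (a (nat_lit 0xe0e1e4c6e1)) e
 (c (a (nat_lit 0x20409106)) e
 (c (a (nat_lit 0x20204d1287)) e
 (c (a (nat_lit 0x38d92562dc7)) e
 (c z e
 (c (a (nat_lit 0x12f815358fa5)) e
 (c (a (nat_lit 0x1aefb7e00003)) e e))))))))
 (c (a (nat_lit 0x40606041))
 (c (a (nat_lit 0x2040a0bc63)) e
 (c (a (nat_lit 0x204073b766)) e
 (c (a (nat_lit 0x4e51839f7e7)) e e)))
 (c (a (nat_lit 0x40404041))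
 (c (a (nat_lit 0x4070518746)) e
 (c (a (nat_lit 0xa9e5f8f5ae7)) e
 (c z e
 (c (a (nat_lit 0x10f096978a67)) e e))))
 (c (a (nat_lit 0x202032c3))
 (c (a (nat_lit 0x138ad52bf486)) e e)
 (c (b (nat_lit 0x203ff005)) e
 (c (a (nat_lit 0xfe29cf485))
 (c (a (nat_lit 0x15e1c0000006)) e e)
 (c (a (nat_lit 0x9d6f2cb86)) e
 (c (a (nat_lit 0x1ed88a0b05)) e
 (c (a (nat_lit 0x1486054225)) e
 (c z e
 (c (a (nat_lit 0x1548492923)) e
 (c (a (nat_lit 0x1e1a181c1)) e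
 (c (a (nat_lit 0xa0c10121)) e
 (c (a (nat_lit 0x40408061)) e
 (c (a (nat_lit 0x20204001)) e
 (c (a (nat_lit 0x60606001)) e
 (c (a (nat_lit 0xc0600001)) e e))))))))))))))))))
 C679)))) Tr.c Tr.e (nat_lit 0) C.cx C.cy
noncomputable def C681 : Tr := beta% (fun (c : Nat → Tr → Tr → Tr) (e : Tr) (z : Nat) (a b : Nat → Nat) =>
 (c (a (nat_lit 0x20202021))
 (c (b (nat_lit 0x60607fbfe2))
 (c (a (nat_lit 0x202025661244))
 (c z e
 (c (a (nat_lit 0x41e747f7ca68e6)) e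
 (c (a (nat_lit 0xb2787cc352830c5)) e
 (c z e
 (c z e
 (c (a (nat_lit 0x134f000000000005)) e e))))))
 (c (a (nat_lit 0x202283546447)) e
 (c (a (nat_lit 0x254b3c758dc5)) e
 (c (a (nat_lit 0x7525fe5d98bc4)) e
 (c (a (nat_lit 0xc702022ae8785)) e
 (c (a (nat_lit 0x1d6e0e129ad885)) e
 (c z e
 (c (a (nat_lit 0x72365d0f13764)) e
 (c (a (nat_lit 0x86a09868ad645)) e
 (c (a (nat_lit 0xa42626a778fc5)) e
 (c (a (nat_lit 0x206059c00003)) e e)))))))))))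
 (c (a (nat_lit 0x36a16124))
 (c (a (nat_lit 0x61c2d2e60108)) e
 (c z e
 (c z e
 (c z e
 (c z e
 (c z e
 (c (a (nat_lit 0x544cecd729a06)) e
 (c (a (nat_lit 0x645c3265b7367)) e
 (c (a (nat_lit 0x101a75406a006)) e
 (c (a (nat_lit 0xe11180000005)) e e))))))))))
 (c (a (nat_lit 0x278a3a63a64))
 (c z e
 (c z e
 (c z e
 (c z e
 (c z e
 (c z e
 (c z e
 (c z e
 (c (a (nat_lit 0x1d1e2000000005)) e e)))))))))
 (c (a (nat_lit 0x782402813a5))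
 (c (a (nat_lit 0x732ebc200a226)) e
 (c (a (nat_lit 0x12facb2561e066)) e
 (c z e
 (c z e
 (c (a (nat_lit 0x204190c2a527)) e
 (c (a (nat_lit 0x219011a3a007)) e e))))))
 (c (a (nat_lit 0x281e9158365))
 (c (a (nat_lit 0x110ae743452006)) e
 (c (b (nat_lit 0x11ec83023fe086)) e
 (c z e
 (c (a (nat_lit 0x41d4e5c0c027)) e
 (c (a (nat_lit 0x70cf60200007)) e e)))))
 (c (a (nat_lit 0xbf3bdce0aa5))
 (c (b (nat_lit 0x126a0a1ff02026)) e
 (c z e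
 (c z e
 (c (a (nat_lit 0xa10a080000007)) e e))))
 (c (a (nat_lit 0x11770decccc6))
 (c (b (nat_lit 0x11c03fe6af2806)) e
 (c (a (nat_lit 0x4ad106ae00006)) e e))
 (c (a (nat_lit 0x16e606462405))
 (c (a (nat_lit 0x1bf887c0000005)) e e)
 (c (a (nat_lit 0x144f6f602124)) e
 (c (a (nat_lit 0x302e2a24161)) e
 (c (a (nat_lit 0x1e1816120e1)) e
 (c (a (nat_lit 0xa060402001)) e
 (c (a (nat_lit 0x8060402ec1)) e
 (c (a (nat_lit 0x202a8c5ba4)) e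
 (c (a (nat_lit 0x2c808f0a2c5)) e
 (c (a (nat_lit 0x1616fe4babc4)) e
 (c (a (nat_lit 0xb9300604004)) e
 (c (a (nat_lit 0x12c020000004)) e e))))))))))))))))))
 (c (a (nat_lit 0x20404041))
 (c (a (nat_lit 0x55026c76e05))
 (c z e
 (c z e
 (c z e
 (c z e
 (c z e
 (c z e
 (c z e
 (c z e
 (c z e
 (c (a (nat_lit 0xb970000000005)) e e))))))))))
 (c z e
 (c z e
 (c z e
 (c z e
 (c (a (nat_lit 0x1bac8b4b4b46))
 (c (b (nat_lit 0x1ffffff7ab8005)) e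
 (c (a (nat_lit 0x1bf751c0000005)) e e))
 (c (a (nat_lit 0x11c464402085))
 (c (a (nat_lit 0x17c5e000000005)) e e)
 (c (a (nat_lit 0x12f3913081)) e
 (c (a (nat_lit 0x18262822101)) e
 (c (a (nat_lit 0x647e74181a1)) e
 (c (a (nat_lit 0x16120604a81)) e
 (c (a (nat_lit 0x2022425ea7)) e
 (c (a (nat_lit 0x82c41f0667)) e
 (c z e
 (c (a (nat_lit 0x398e5e02027)) e
 (c (a (nat_lit 0x18e5e0200007)) e e))))))))))))))))
 (c (a (nat_lit 0x40404041))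
 (c z e
 (c z e
 (c (a (nat_lit 0xa5587002026)) e
 (c (a (nat_lit 0x188cadcdada6))
 (c (b (nat_lit 0x2dff4e7c72707)) e e)
 (c (a (nat_lit 0x1ba040404004))
 (c (a (nat_lit 0x21e6721800002)) e e)
 (c (a (nat_lit 0x7c9454441)) e
 (c (a (nat_lit 0x2a2a2a20161)) e
 (c (a (nat_lit 0x2c627838241)) e
 (c (a (nat_lit 0xa141409e82)) e
 (c (a (nat_lit 0x18080877741)) e
 (c (a (nat_lit 0x25053326)) e e)))))))))))
 (c (a (nat_lit 0x20202021))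
 (c (a (nat_lit 0xbf0e5842405))
 (c (a (nat_lit 0xdcd5572578264)) e
 (c (a (nat_lit 0x1278efe3045c5)) e
 (c z e
 (c (a (nat_lit 0x11b6580dd34b05)) e
 (c (a (nat_lit 0xa29f286200006)) e e)))))
 (c (a (nat_lit 0x1962c0402025))
 (c (a (nat_lit 0x251547204066)) e
 (c (a (nat_lit 0x24a3101406047)) e
 (c (a (nat_lit 0x16f9662540a005)) e
 (c (a (nat_lit 0x105663e0000006)) e e))))
 (c (a (nat_lit 0x17a0a0e0e002))
 (c (a (nat_lit 0x55aa220804026)) e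
 (c (a (nat_lit 0x1261a060400007)) e
 (c (a (nat_lit 0x16636000000006)) e e)))
 (c (a (nat_lit 0x141c1e140c1)) e
 (c (a (nat_lit 0xc1c243a1)) e
 (c (a (nat_lit 0x1a22101c1)) e
 (c (a (nat_lit 0x20203105)) e
 (c (a (nat_lit 0x2424dd1f007)) e
 (c (a (nat_lit 0xa2a3eefb264)) e
 (c (a (nat_lit 0x7d1ab2c1ee5)) e
 (c (a (nat_lit 0x8a2265b5225)) e
 (c (a (nat_lit 0x306106c2266)) e e))))))))))))
 (c (a (nat_lit 0x40404041))
 (c (a (nat_lit 0x1661410120e1))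
 (c (a (nat_lit 0x4764700406045)) e
 (c (a (nat_lit 0x1412e120606026)) e
 (c (a (nat_lit 0x16210100800005)) e
 (c (a (nat_lit 0x11232000000005)) e e))))
 (c (a (nat_lit 0x16140e0e101))
 (c (a (nat_lit 0x1a61c080602006)) e
 (c (a (nat_lit 0x1323e300000003)) e
 (c (a (nat_lit 0x14400000000003)) e e)))
 (c (a (nat_lit 0x161a5c604e1)) e
 (c (a (nat_lit 0x32202a2e1)) e
 (c (a (nat_lit 0x60605f84)) e
 (c (a (nat_lit 0x3434f131047)) e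
 (c (a (nat_lit 0x7129673b047)) e
 (c (a (nat_lit 0x10d98f0a6ac5)) e
 (c (a (nat_lit 0x78140203326)) e
 (c (a (nat_lit 0x4043136ba6)) e e))))))))))
 (c (nat_lit 1)
 (c (a (nat_lit 0x1a2a2a201)) e
 (c (a (nat_lit 0x343e4820141)) e
 (c (a (nat_lit 0xa080df03)) e
 (c (a (nat_lit 0x161ba7e1bc6)) e
 (c (a (nat_lit 0x119dffddfe47)) e
 (c (a (nat_lit 0xfd190af4ca7)) e
 (c (a (nat_lit 0xce5e4e076c4)) e
 (c (a (nat_lit 0x602025d226)) e e))))))))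
 (c (nat_lit 1)
 (c (a (nat_lit 0xa0a0a08621)) e
 (c (a (nat_lit 0x205154d2a6)) e
 (c (a (nat_lit 0x41456147167)) e
 (c (a (nat_lit 0x1010d0502d08)) e
 (c (a (nat_lit 0x1392930be007)) e
 (c (a (nat_lit 0xb0ea0be9784)) e
 (c z e
 (c (b (nat_lit 0x1fed5700a003)) e
 (c (a (nat_lit 0x110ae0000004)) e e)))))))))
 (c (a (nat_lit 0x20202021))
 (c (a (nat_lit 0x32cf04e8f26)) e
 (c (a (nat_lit 0xeb02f6e6ac8)) e
 (c z e
 (c (a (nat_lit 0x13553647e5a7)) e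
 (c z e
 (c (b (nat_lit 0x1fe8a4e3c2e1)) e
 (c (a (nat_lit 0x12eaea800004)) e
 (c (a (nat_lit 0x2000000001)) e e))))))))
 (c (a (nat_lit 0x20202001))
 (c (a (nat_lit 0x1130712ec3e7)) e
 (c z e
 (c z e
 (c (a (nat_lit 0x98bbd50e45)) e
 (c (a (nat_lit 0x11b7eb202004)) e
 (c (a (nat_lit 0x1ae020000004)) e e))))))
 (c (nat_lit 1)
 (c z e
 (c (a (nat_lit 0x88af2563687)) e
 (c (a (nat_lit 0x1bb48f8005)) e
 (c (a (nat_lit 0x162020200005)) e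
 (c (nat_lit 1) e e)))))
 (c (a (nat_lit 0x202001))
 (c (a (nat_lit 0x422f5b4cca5)) e
 (c (a (nat_lit 0x102020202003)) e
 (c (a (nat_lit 0x40000001)) e e)))
 (c (nat_lit 1)
 (c (a (nat_lit 0x20000001)) e
 (c (a (nat_lit 0x4000000001)) e e))
 (c (a (nat_lit 0x20203f63)) e
 (c (a (nat_lit 0x7f305)) e
 (c (a (nat_lit 0x60dd91225)) e
 (c (a (nat_lit 0x10dc153045)) e
 (c (a (nat_lit 0x12abc6f2e5)) e
 (c (a (nat_lit 0xba6d2a2c5)) e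
 (c z e
 (c (a (nat_lit 0x1342608085)) e
 (c (a (nat_lit 0x13e0604022)) e
 (c (a (nat_lit 0xc0602021)) e
 (c (a (nat_lit 0xa0606021)) e
 (c (a (nat_lit 0x80200001)) e e))))))))))))))))))))))))) Tr.c Tr.e (nat_lit 0) C.cx C.cy
noncomputable def C682 : Tr := beta% (fun (c : Nat → Tr → Tr → Tr) (e : Tr) (z : Nat) (a b : Nat → Nat) =>
 (c (a (nat_lit 0x40404041))
 (c (a (nat_lit 0x34ea6a44))
 (c z e
 (c z e
 (c z e
 (c z e
 (c z e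
 (c z e
 (c z e
 (c z e
 (c z e
 (c (a (nat_lit 0xf6f7f80000005)) e e))))))))))
 (c z e
 (c z e
 (c z e
 (c z e
 (c (a (nat_lit 0xb5530e2e2e6))
 (c (a (nat_lit 0x1427ae6f947348)) e e)
 (c z e
 (c (a (nat_lit 0x17496941c246)) e
 (c (a (nat_lit 0x303e423a281)) e
 (c (a (nat_lit 0x20101c181c1)) e
 (c (a (nat_lit 0x1612060a1a1)) e
 (c (a (nat_lit 0x2020203086)) e
 (c (a (nat_lit 0xe0e4b176a6)) e e)))))))))))))
 (c (nat_lit 1)
 (c (b (nat_lit 0x47fe22772e5))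
 (c (a (nat_lit 0x86c7885462447)) e
 (c (a (nat_lit 0xa784502a10208)) e
 (c z e
 (c z e
 (c (a (nat_lit 0xd2adefa27c306)) e
 (c (a (nat_lit 0x209f9d647b26)) e e))))))
 (c (a (nat_lit 0xaca103b57e5))
 (c (a (nat_lit 0x10a5024141a1a8)) e
 (c z e
 (c z e
 (c (a (nat_lit 0xbbc15c7a4bbe7)) e
 (c (a (nat_lit 0xa5c9e0353e5e7)) e e)))))
 (c z e
 (c (a (nat_lit 0xf93d165a546)) e
 (c (a (nat_lit 0x1df8af8f8f65))
 (c (a (nat_lit 0x601928fc40006)) e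
 (c (a (nat_lit 0x116b6a40000007)) e e))
 (c (a (nat_lit 0x18cef16f4f86))
 (c (a (nat_lit 0x12a7a000000006)) e e)
 (c z e
 (c (a (nat_lit 0x265466743c1)) e
 (c (a (nat_lit 0xc12120f0c3)) e
 (c (a (nat_lit 0x2020203766)) e
 (c (a (nat_lit 0x2025db4166)) e
 (c (b (nat_lit 0x1fe57ae0ed06)) e
 (c (a (nat_lit 0x28d42465de7)) e
 (c (a (nat_lit 0xe83679f8147)) e e))))))))))))))
 (c (a (nat_lit 0x40404041))
 (c (a (nat_lit 0xbed8c93e004))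
 (c (b (nat_lit 0x680218ab63fe4)) e
 (c z e
 (c z e
 (c (a (nat_lit 0x12f963a9ca49a6)) e
 (c (a (nat_lit 0x15430208c34007)) e e)))))
 (c (a (nat_lit 0x18f7f6a9a9a5))
 (c (a (nat_lit 0x2a2ca19c98446)) e
 (c (a (nat_lit 0xa91ba714af387)) e e))
 (c (a (nat_lit 0x175a60802004))
 (c (b (nat_lit 0x187ffff93148c1)) e
 (c (b (nat_lit 0x1ff1ed61406006)) e e))
 (c (a (nat_lit 0x1a2040404004))
 (c (a (nat_lit 0x11a18080400006)) e
 (c (a (nat_lit 0x14c62000000004)) e e))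
 (c (a (nat_lit 0x869c786e1)) e
 (c (a (nat_lit 0x181a1e1e3e1)) e
 (c (a (nat_lit 0x2020205085)) e
 (c (a (nat_lit 0x30f8f8a6)) e
 (c (a (nat_lit 0x119199d90f45)) e
 (c (a (nat_lit 0xa3271a7e805)) e
 (c (b (nat_lit 0x55fe02032e6)) e
 (c (a (nat_lit 0x23d2e226)) e e))))))))))))
 (c (a (nat_lit 0xa0a0a0a1))
 (c (a (nat_lit 0x1cba00602023))
 (c (a (nat_lit 0x411347e04065)) e
 (c (a (nat_lit 0x38a840a06026)) e
 (c (a (nat_lit 0xcb60803c04005)) e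
 (c (a (nat_lit 0x116ba440000005)) e e))))
 (c (a (nat_lit 0x1a2040402024))
 (c (a (nat_lit 0x18442080806026)) e
 (c (a (nat_lit 0x18e160e0600006)) e
 (c (a (nat_lit 0x437c000000001)) e e)))
 (c (a (nat_lit 0x241c14001)) e
 (c (a (nat_lit 0x101a263a1)) e
 (c (a (nat_lit 0x20203165)) e
 (c (a (nat_lit 0x4040f93d2c7)) e
 (c z e
 (c (a (nat_lit 0xa134f2c0825)) e
 (c (a (nat_lit 0xb8984607065)) e
 (c (a (nat_lit 0x560403042c5)) e e))))))))))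
 (c (a (nat_lit 0x40404041))
 (c (a (nat_lit 0x1a0c0e181c1)) e
 (c (a (nat_lit 0xc246c6c6a1)) e
 (c (a (nat_lit 0x1c18254c2)) e
 (c (a (nat_lit 0x4053547b06)) e
 (c (a (nat_lit 0x63232b61327)) e
 (c (a (nat_lit 0x12d376b55207)) e
 (c (b (nat_lit 0x1ff7eca57e04)) e
 (c (a (nat_lit 0xb4024fdade4)) e
 (c z e
 (c (a (nat_lit 0x1dc5ba1e004)) e
 (c (a (nat_lit 0x196c80000005)) e e)))))))))))
 (c (nat_lit 1)
 (c (a (nat_lit 0x8161818181)) e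
 (c (a (nat_lit 0x2030b4d8c6)) e
 (c (a (nat_lit 0x3b13354d107)) e
 (c (a (nat_lit 0x10b1d2d14d68)) e
 (c (a (nat_lit 0x145654ed42c7)) e
 (c (a (nat_lit 0xc2040758964)) e
 (c z e
 (c (b (nat_lit 0x1ff165e0c044)) e
 (c (a (nat_lit 0x108aa7e00005)) e
 (c (a (nat_lit 0x160000000002)) e e))))))))))
 (c (a (nat_lit 0x20202021))
 (c (a (nat_lit 0x2123a59db65)) e
 (c (a (nat_lit 0x10d4d4932c47)) e
 (c z e
 (c (a (nat_lit 0x1414d4ea6787)) e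
 (c z e
 (c (a (nat_lit 0xab6eb402ba5)) e
 (c (a (nat_lit 0x1f73c7e06005)) e
 (c (a (nat_lit 0x80000001)) e e))))))))
 (c (nat_lit 1)
 (c (a (nat_lit 0x15f5b7b46006)) e
 (c z e
 (c z e
 (c (b (nat_lit 0x1fe434c06003)) e
 (c (a (nat_lit 0x119a10c12124)) e
 (c (a (nat_lit 0x15c040600003)) e
 (c (nat_lit 1) e e)))))))
 (c (a (nat_lit 0x40404041))
 (c z e
 (c (a (nat_lit 0x10939235d4a7)) e
 (c (a (nat_lit 0x19901ce08004)) e
 (c (a (nat_lit 0xe0204001)) e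
 (c (a (nat_lit 0x160000001)) e e)))))
 (c (a (nat_lit 0x20202021))
 (c (a (nat_lit 0x15b007dfbf64)) e
 (c (a (nat_lit 0x102c16101)) e
 (c (a (nat_lit 0x180400001)) e
 (c (a (nat_lit 0x1a000000001)) e e))))
 (c (a (nat_lit 0x40404041))
 (c (a (nat_lit 0x4040402001)) e
 (c (a (nat_lit 0x4020000001)) e e))
 (c (a (nat_lit 0x21))
 (c (nat_lit 1) e e)
 (c (a (nat_lit 0x20001c23)) e
 (c (a (nat_lit 0x20273a65)) e
 (c (a (nat_lit 0x467f18d86)) e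
 (c (a (nat_lit 0xad4506ae6)) e
 (c (a (nat_lit 0x1c54698a25)) e
 (c (a (nat_lit 0x14698a2ea5)) e
 (c z e
 (c (a (nat_lit 0x10fa00a0c4)) e
 (c (a (nat_lit 0x1960202004)) e
 (c (a (nat_lit 0x20804021)) e
 (c (a (nat_lit 0xe0802001)) e
 (c (a (nat_lit 0x60000001)) e e))))))))))))))))))))))))) Tr.c Tr.e (nat_lit 0) C.cx C.cy
noncomputable def C683 : Tr := beta% (fun (c : Nat → Tr → Tr → Tr) (e : Tr) (z : Nat) (a b : Nat → Nat) =>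
 (c (a (nat_lit 0x40404041))
 (c (a (nat_lit 0x8080808081))
 (c (a (nat_lit 0x1a294949494922))
 (c z e
 (c (a (nat_lit 0x2e0c0a0a0a6b1c6)) e
 (c (a (nat_lit 0x221414150b66665)) e
 (c (a (nat_lit 0x22415d51eaab65)) e
 (c (a (nat_lit 0x2034d8a38b6045)) e
 (c (a (nat_lit 0xaf3727c60442e6)) e
 (c (a (nat_lit 0x1fb4966d2b04c005)) e e)))))))
 (c (a (nat_lit 0x60a0c06001))
 (c (a (nat_lit 0x20202023104ae7)) e
 (c (a (nat_lit 0x4080877388a2a7)) e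
 (c (a (nat_lit 0x2033382bc2c747)) e
 (c z e
 (c (a (nat_lit 0x16bcc9e549e5c0a7)) e
 (c (a (nat_lit 0x100ae52c23e00007)) e e))))))
 (c (a (nat_lit 0x2020202034a6))
 (c (a (nat_lit 0x16167ec23cf70a6)) e e)
 (c (a (nat_lit 0x20202414b926))
 (c (a (nat_lit 0x1752adc5f4c46726)) e
 (c (a (nat_lit 0x258950e80242a7)) e e))
 (c (b (nat_lit 0x606436ef9fe6))
 (c (a (nat_lit 0x580f49e1c48005)) e e)
 (c (a (nat_lit 0x1655850010006)) e
 (c (a (nat_lit 0x5b4eb01a060e6)) e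
 (c (a (nat_lit 0x1a2f0560202006)) e
 (c (b (nat_lit 0x1566a6a4411fe5)) e
 (c (a (nat_lit 0x5e8eb1517f744)) e
 (c (a (nat_lit 0x343aab04b4b26)) e
 (c (a (nat_lit 0x168d151915124)) e e))))))))))))
 (c (a (nat_lit 0x2020202021))
 (c (a (nat_lit 0x202020203b26))
 (c (a (nat_lit 0x404041504b84a7)) e
 (c (a (nat_lit 0x8082bb34237b87)) e
 (c (a (nat_lit 0x2cd10a02658468)) e
 (c z e
 (c (a (nat_lit 0x12c463e823614008)) e
 (c (a (nat_lit 0x5c57244a0000007)) e e))))))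
 (c (a (nat_lit 0x808083d2d6c7))
 (c (a (nat_lit 0x106956cafb2ab07)) e e)
 (c (a (nat_lit 0x2023d79c26a7)) e
 (c z e
 (c (a (nat_lit 0x598d027e02027)) e
 (c (a (nat_lit 0x15b048c2006007)) e
 (c z e
 (c z e
 (c (a (nat_lit 0x7462d70ae2be7)) e
 (c (a (nat_lit 0x2435d56b5da06)) e
 (c (a (nat_lit 0x48cacb6759a5)) e
 (c (a (nat_lit 0x13822120800002)) e e))))))))))))
 (c (a (nat_lit 0x2020203524))
 (c (a (nat_lit 0x161636f58db46)) e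
 (c z e
 (c z e
 (c z e
 (c z e
 (c z e
 (c z e
 (c z e
 (c (a (nat_lit 0x42545c7b247)) e
 (c (a (nat_lit 0x166480d1da005)) e
 (c (a (nat_lit 0x2280a0000001)) e e)))))))))))
 (c (a (nat_lit 0x20203c0fe4))
 (c (a (nat_lit 0xe7cf63079f07))
 (c (a (nat_lit 0x6ff8e32dcec2006)) e
 (c (a (nat_lit 0x1047a74760000008)) e e))
 (c (a (nat_lit 0x8096124f3e148))
 (c (a (nat_lit 0x17334fa000000006)) e e)
 (c z e
 (c z e
 (c (a (nat_lit 0xd1630582a948)) e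
 (c (a (nat_lit 0x1ec5e98b08d847)) e
 (c z e
 (c (b (nat_lit 0x3bfe7a734cea7)) e
 (c (a (nat_lit 0x10f2d85e400006)) e
 (c (a (nat_lit 0x2a2a000000001)) e e))))))))))
 (c (a (nat_lit 0x343512e2ae5))
 (c (a (nat_lit 0x4e023d0026266)) e
 (c z e
 (c z e
 (c (a (nat_lit 0x10e72a235ee5e6)) e
 (c (a (nat_lit 0x508ca2a32cbc7)) e
 (c z e
 (c (a (nat_lit 0x223e976b08007)) e
 (c (a (nat_lit 0x12947500000006)) e
 (c (a (nat_lit 0x1c200000000003)) e e)))))))))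
 (c (a (nat_lit 0x836be98bae4))
 (c (b (nat_lit 0x2d1bff646a1e5)) e
 (c (a (nat_lit 0xf68f0d2c3c386)) e
 (c z e
 (c z e
 (c (b (nat_lit 0x41ffffe8e8028)) e e)))))
 (c (a (nat_lit 0x11bc54f6f484))
 (c (a (nat_lit 0x6c390e3e2e326)) e
 (c (a (nat_lit 0x82f1644c0e007)) e e))
 (c (a (nat_lit 0x106b8dce70a5))
 (c (a (nat_lit 0x43385c0c28787)) e
 (c (a (nat_lit 0x13f18c8761c367)) e e))
 (c (a (nat_lit 0xb6c0cb0c425))
 (c (b (nat_lit 0x1dac2cdfffe005)) e e)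
 (c (a (nat_lit 0x15b67b0e4e45)) e
 (c (a (nat_lit 0x10b9fbfbfba4)) e
 (c (a (nat_lit 0x14e848402005)) e
 (c (a (nat_lit 0xe14100c001)) e
 (c (a (nat_lit 0x140c0804001)) e
 (c (a (nat_lit 0x20202034c6)) e
 (c (a (nat_lit 0x202414cd06)) e
 (c (a (nat_lit 0x24636ef2246)) e
 (c (a (nat_lit 0x7784a63a3a6)) e
 (c (a (nat_lit 0x14c6e0202006)) e
 (c (a (nat_lit 0x1b2020000004)) e e))))))))))))))))))))
 (c (a (nat_lit 0x40404041))
 (c (a (nat_lit 0x20202036c4))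
 (c (a (nat_lit 0xc0c0c390cfe5))
 (c (a (nat_lit 0xc0c10ef54d5905)) e
 (c (a (nat_lit 0x408c70eb7c89e7)) e
 (c z e
 (c z e
 (c (a (nat_lit 0x96bb88be6e00006)) e
 (c (a (nat_lit 0xb5a4b8000000006)) e e))))))
 (c (a (nat_lit 0x2020e767d788)) e
 (c (a (nat_lit 0x41ed52ce8c47)) e
 (c z e
 (c (a (nat_lit 0x1e1d1860e02b66)) e
 (c (a (nat_lit 0x1857232020b026)) e
 (c z e
 (c z e
 (c (a (nat_lit 0x64b318fac8fe7)) e
 (c (a (nat_lit 0x2aa9e9effcc7)) e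
 (c (a (nat_lit 0xc12100fa6004)) e e)))))))))))
 (c (a (nat_lit 0x202035e8e5))
 (c (a (nat_lit 0x40c4e9da0b88)) e
 (c z e
 (c z e
 (c z e
 (c z e
 (c z e
 (c z e
 (c z e
 (c (a (nat_lit 0xaa7c84cb30ba8)) e
 (c (a (nat_lit 0x660609de00006)) e e))))))))))
 (c (a (nat_lit 0x20358869e5))
 (c z e
 (c z e
 (c z e
 (c z e
 (c z e
 (c z e
 (c z e
 (c z e
 (c (a (nat_lit 0xdd0d2c0000007)) e e)))))))))
 (c (a (nat_lit 0x697d52fb965))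
 (c z e
 (c z e
 (c z e
 (c z e
 (c z e
 (c (a (nat_lit 0x3c343f2ee0509)) e e))))))
 (c (a (nat_lit 0xe0dcb8fb686))
 (c (a (nat_lit 0xeb399ece729c6)) e
 (c (a (nat_lit 0x15ddfd8ecf0047)) e
 (c z e
 (c z e
 (c (a (nat_lit 0x20d38c816009)) e e)))))
 (c (a (nat_lit 0xeac5115afe6))
 (c (b (nat_lit 0xd12e8273fea87)) e
 (c z e
 (c z e
 (c (a (nat_lit 0x3c9a42200008)) e e))))
 (c z e
 (c z e
 (c (a (nat_lit 0x10cdcd0d0947)) e
 (c (a (nat_lit 0x1f7050504005)) e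
 (c (a (nat_lit 0xe362624001)) e
 (c (a (nat_lit 0x281c140a001)) e
 (c (a (nat_lit 0x20202030e6)) e
 (c (a (nat_lit 0x202390ef46)) e
 (c (a (nat_lit 0x2c63771ccc6)) e
 (c z e
 (c (a (nat_lit 0x16304b81a186)) e
 (c (a (nat_lit 0x1e1480600005)) e e))))))))))))))))))
 C682))) Tr.c Tr.e (nat_lit 0) C.cx C.cy
noncomputable def C684 : Tr := beta% (fun (c : Nat → Tr → Tr → Tr) (e : Tr) (z : Nat) (a b : Nat → Nat) =>
 (c (a (nat_lit 0x60606061))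
 (c (a (nat_lit 0x1bc103))
 (c (a (nat_lit 0x6670e2ae74e6))
 (c (a (nat_lit 0xabfa36faad57cc5)) e e)
 (c z e
 (c z e
 (c (a (nat_lit 0x90f93e7a74be7)) e
 (c (a (nat_lit 0x157c0023612f46)) e
 (c z e
 (c z e
 (c (a (nat_lit 0x5e64726a650a9)) e e))))))))
 (c (a (nat_lit 0x2425d4248e4)) e
 (c z e
 (c (a (nat_lit 0x1210021b207))
 (c z e
 (c (a (nat_lit 0xc769bee6b8007)) e
 (c z e
 (c z e
 (c (a (nat_lit 0x1e03a6c220008)) e e)))))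
 (c (a (nat_lit 0x2618372ab67))
 (c (a (nat_lit 0x511a7a68348c7)) e
 (c z e
 (c z e
 (c (a (nat_lit 0x7065e0e00009)) e e))))
 (c z e
 (c z e
 (c (a (nat_lit 0x1ff8b1b1ade7)) e
 (c (a (nat_lit 0x108646464227)) e
 (c (a (nat_lit 0x2402a2e0a1)) e
 (c (a (nat_lit 0xc060403242)) e
 (c (a (nat_lit 0x202020b007)) e
 (c (a (nat_lit 0x2027b1c167)) e
 (c (a (nat_lit 0x2081221c2e7)) e
 (c (a (nat_lit 0x670802147a7)) e
 (c (b (nat_lit 0x10802147bfe7)) e e))))))))))))))))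
 (c (nat_lit 1)
 (c (a (nat_lit 0xd53cd105685))
 (c (a (nat_lit 0x668728c26a787)) e
 (c (a (nat_lit 0x2fa51ab0340e7)) e
 (c z e
 (c z e
 (c (b (nat_lit 0x128bff2eb43a6)) e e)))))
 (c (a (nat_lit 0x1e060245f86))
 (c (a (nat_lit 0xe308f02e02047)) e
 (c z e
 (c z e
 (c (a (nat_lit 0x88e38ea419147)) e
 (c (a (nat_lit 0x385b1712d8007)) e e)))))
 (c z e
 (c z e
 (c (a (nat_lit 0x855ce24c4c7))
 (c (b (nat_lit 0x134278bff9cc66)) e
 (c (b (nat_lit 0x7b0ffeca00007)) e e))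
 (c (a (nat_lit 0x18520c4c2b27))
 (c (a (nat_lit 0x15e50be0000006)) e e)
 (c (a (nat_lit 0x1a27c7c02086)) e
 (c z e
 (c (a (nat_lit 0xe141c1f203)) e
 (c (a (nat_lit 0x5c5bf6fa6c3)) e
 (c (b (nat_lit 0xd15dfffe4)) e
 (c (b (nat_lit 0xe781fe04004)) e
 (c (a (nat_lit 0x32040203127)) e
 (c (a (nat_lit 0x6020312247)) e e))))))))))))))
 (c (a (nat_lit 0x40406041))
 (c (a (nat_lit 0x4408297cfe5))
 (c (a (nat_lit 0x1634862342e245)) e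
 (c z e
 (c z e
 (c (a (nat_lit 0xb5406653260a6)) e
 (c (a (nat_lit 0xa108ec7262025)) e
 (c (a (nat_lit 0x1d4ab40600006)) e e))))))
 (c z e
 (c z e
 (c (a (nat_lit 0x196d40a0a0a6))
 (c (b (nat_lit 0x69a1fe8608006)) e
 (c (a (nat_lit 0x1e65c760000006)) e e))
 (c (a (nat_lit 0x1a446464c525))
 (c (a (nat_lit 0x19e34000000004)) e e)
 (c (a (nat_lit 0x1145493f261)) e
 (c z e
 (c (a (nat_lit 0x405c9ad3c5)) e
 (c (b (nat_lit 0x8d00b9fffe4)) e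
 (c (a (nat_lit 0x16b204202004)) e
 (c (a (nat_lit 0x1264e0202da4)) e
 (c (a (nat_lit 0x140202391e6)) e e))))))))))))
 (c (a (nat_lit 0x60606061))
 (c (a (nat_lit 0x5902a238386))
 (c (a (nat_lit 0x124dee59224864)) e
 (c (b (nat_lit 0x405dff551a685)) e e))
 (c (a (nat_lit 0x180d40402026))
 (c (b (nat_lit 0x1ffffc21c16066)) e
 (c (b (nat_lit 0x1ffca104002007)) e
 (c (a (nat_lit 0x15c1e180000006)) e e)))
 (c (a (nat_lit 0x1a4020202025))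
 (c (a (nat_lit 0x1e404680400006)) e
 (c (a (nat_lit 0xff62000000004)) e e))
 (c (a (nat_lit 0x6e7a4a6a1)) e
 (c (a (nat_lit 0x141814241)) e
 (c z e
 (c z e
 (c (a (nat_lit 0x171633a820a4)) e
 (c (a (nat_lit 0x1572e7603924)) e
 (c (a (nat_lit 0x132941dad0a4)) e
 (c z e
 (c (b (nat_lit 0x1ff7a602c003)) e
 (c (a (nat_lit 0x1340c0000003)) e e)))))))))))))
 (c (a (nat_lit 0x20202021))
 (c (a (nat_lit 0x1ac080402024))
 (c z e
 (c (a (nat_lit 0x158348a0600005)) e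
 (c (a (nat_lit 0x17a46000000001)) e e)))
 (c (a (nat_lit 0xc201c18201))
 (c (a (nat_lit 0x535a080000004)) e
 (c (a (nat_lit 0x14000000000004)) e e))
 (c (a (nat_lit 0x2391b7ce1)) e
 (c (a (nat_lit 0x1415a1a3b66)) e
 (c z e
 (c (a (nat_lit 0x12d2f44f68c6)) e
 (c (a (nat_lit 0x173c88c07324)) e
 (c (a (nat_lit 0x1400407331e4)) e
 (c z e
 (c (a (nat_lit 0x6f9986f4f24)) e
 (c (a (nat_lit 0x14b260400003)) e
 (c (a (nat_lit 0x126000000003)) e e))))))))))))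
 (c (a (nat_lit 0x40202021))
 (c (a (nat_lit 0x16141618021))
 (c (a (nat_lit 0x15406000000003)) e e)
 (c (a (nat_lit 0x5255c5c9b66)) e
 (c (a (nat_lit 0x3735312aea7)) e
 (c z e
 (c (a (nat_lit 0x1a9a96e96086)) e
 (c (a (nat_lit 0xf80a0d24a24)) e
 (c z e
 (c (a (nat_lit 0x4956dac2c04)) e
 (c (a (nat_lit 0x126280402003)) e
 (c (a (nat_lit 0xb4040000001)) e e))))))))))
 (c (nat_lit 1)
 (c (a (nat_lit 0x137f8773865)) e
 (c z e
 (c z e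
 (c (a (nat_lit 0x179a7aef4da6)) e
 (c z e
 (c (a (nat_lit 0xb3451c460e5)) e
 (c (a (nat_lit 0x1350c3e08d85)) e
 (c (a (nat_lit 0x1c8040200002)) e
 (c (a (nat_lit 0x4000000001)) e e)))))))))
 (c (a (nat_lit 0x20202021))
 (c (a (nat_lit 0x17369713e1e6)) e
 (c z e
 (c z e
 (c (b (nat_lit 0x1fea024b5663)) e
 (c (a (nat_lit 0x8c0c9d4da63)) e
 (c (a (nat_lit 0x6040604001)) e
 (c (a (nat_lit 0x26120000001)) e e)))))))
 (c (a (nat_lit 0x20202021))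
 (c z e
 (c (a (nat_lit 0x9112d20dc04)) e
 (c (a (nat_lit 0x120fe9971985)) e
 (c (a (nat_lit 0xa080606001)) e
 (c (a (nat_lit 0x181e0400001)) e
 (c (a (nat_lit 0x16000000001)) e e))))))
 (c (a (nat_lit 0x21))
 (c (a (nat_lit 0x82640205fa4)) e
 (c (a (nat_lit 0x8a0a0c0a041)) e
 (c (a (nat_lit 0x40c0a06001)) e
 (c (a (nat_lit 0x8040000001)) e e))))
 (c (a (nat_lit 0x20202041))
 (c (a (nat_lit 0x4020004021)) e
 (c (a (nat_lit 0x6040400001)) e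
 (c (nat_lit 1) e e)))
 (c (a (nat_lit 0x60404041))
 (c (a (nat_lit 0x4020000001)) e e)
 (c (a (nat_lit 0x20000021)) e
 (c (a (nat_lit 0x40404081)) e
 (c (a (nat_lit 0x20203085)) e
 (c (a (nat_lit 0x686970f65)) e
 (c (a (nat_lit 0x8d951a905)) e
 (c (a (nat_lit 0x844603626)) e
 (c (a (nat_lit 0x460362ce6)) e
 (c z e
 (c (a (nat_lit 0x164d202026)) e
 (c (a (nat_lit 0x19e0202025)) e
 (c (a (nat_lit 0x40802021)) e
 (c (a (nat_lit 0xc0200001)) e e))))))))))))))))))))))))) Tr.c Tr.e (nat_lit 0) C.cx C.cy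
noncomputable def C685 : Tr := beta% (fun (c : Nat → Tr → Tr → Tr) (e : Tr) (z : Nat) (a b : Nat → Nat) =>
 (c (a (nat_lit 0x20202021))
 (c (nat_lit 1)
 (c (a (nat_lit 0x17158020305044))
 (c z e
 (c (a (nat_lit 0x98dcd4d6a20f327))
 (c (a (nat_lit 0x11862ae98700000008)) e e)
 (c (a (nat_lit 0xe8dea2be9ad9327)) e
 (c (a (nat_lit 0xe08a92a5b6ca9a7)) e
 (c (a (nat_lit 0x362e077ad4c0787)) e
 (c z e
 (c z e
 (c (b (nat_lit 0x1b3ff772c8e00006)) e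
 (c (a (nat_lit 0xa1bea8000000005)) e e)))))))))
 (c (a (nat_lit 0x1ad07050100fe5))
 (c (a (nat_lit 0x949e929c5723c88))
 (c (a (nat_lit 0xf5b10a68000000007)) e e)
 (c (a (nat_lit 0x66344056bf0cc69)) e
 (c (a (nat_lit 0x42585b3530a6629)) e e)))
 (c (a (nat_lit 0xdad4e0e8ddb61))
 (c (a (nat_lit 0xd81e088b69af647)) e e)
 (c (a (nat_lit 0x608082217986))
 (c (a (nat_lit 0xff7550f4f57a067)) e
 (c (b (nat_lit 0x1061686409429fe9)) e e))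
 (c (a (nat_lit 0x404124bbb326))
 (c (a (nat_lit 0xc54aa2dc9c4e6a7)) e e)
 (c z e
 (c z e
 (c (a (nat_lit 0x9528ee5838687)) e
 (c (a (nat_lit 0x110c47c4c6a447)) e
 (c z e
 (c z e
 (c (b (nat_lit 0x1fffe8acbc4d45)) e
 (c (a (nat_lit 0xe2ed333044405)) e
 (c (a (nat_lit 0x15be6060600004)) e
 (c (a (nat_lit 0x1e002000000004)) e e)))))))))))))))
 (c (a (nat_lit 0x2020202021))
 (c (a (nat_lit 0x1e1414160a001))
 (c (a (nat_lit 0x9c46463133d5647)) e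
 (c (a (nat_lit 0x3e261ac308a4809)) e
 (c (a (nat_lit 0x4e4f6780c884569)) e e)))
 (c (a (nat_lit 0x2020209da7))
 (c (a (nat_lit 0x5e5123d58cedac8)) e e)
 (c (a (nat_lit 0x2021c8b41a07)) e
 (c z e
 (c z e
 (c z e
 (c z e
 (c z e
 (c z e
 (c z e
 (c (a (nat_lit 0x5674e5131eaa8)) e
 (c (a (nat_lit 0xd761678a02006)) e
 (c (a (nat_lit 0x16002020000006)) e
 (c (a (nat_lit 0x800000000001)) e e))))))))))))))
 (c (a (nat_lit 0x4060606061))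
 (c (a (nat_lit 0x101012854ed87)) e
 (c z e
 (c z e
 (c z e
 (c z e
 (c z e
 (c z e
 (c z e
 (c z e
 (c (a (nat_lit 0x989509397a727)) e
 (c (a (nat_lit 0xe6e5170e00007)) e
 (c (a (nat_lit 0x18402000000006)) e e))))))))))))
 (c (a (nat_lit 0x19c6))
 (c (a (nat_lit 0x1c365b0e2e087))
 (c (a (nat_lit 0x707910605aee4e7)) e
 (c (a (nat_lit 0xa1c2f2dcb400008)) e e))
 (c (a (nat_lit 0x145f142207067))
 (c (a (nat_lit 0x148a292820000008)) e e)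
 (c z e
 (c z e
 (c (a (nat_lit 0x2ecb643260b68)) e
 (c (a (nat_lit 0x1178ea880f9028)) e
 (c z e
 (c z e
 (c (a (nat_lit 0x689cb10ebe008)) e
 (c (a (nat_lit 0x19bb71e0000007)) e
 (c (a (nat_lit 0x12e00000000006)) e e)))))))))))
 (c (a (nat_lit 0x202039ce66))
 (c (a (nat_lit 0xee8e12ef8a6c5)) e
 (c z e
 (c z e
 (c (a (nat_lit 0x3094784e250a8)) e
 (c (a (nat_lit 0xd2b6a4c6f91a7)) e
 (c z e
 (c z e
 (c (a (nat_lit 0x111052cf200008)) e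
 (c (a (nat_lit 0x18ad2000000006)) e e)))))))))
 (c (a (nat_lit 0x20332eac06)) e
 (c z e
 (c (a (nat_lit 0x10514eb05b67))
 (c (a (nat_lit 0x865f3874265e8)) e
 (c (a (nat_lit 0x133df7d6cb08a8)) e e))
 (c (a (nat_lit 0xe6cedb8e6a7))
 (c (a (nat_lit 0xf3cd708c583c7)) e e)
 (c z e
 (c z e
 (c (a (nat_lit 0x1a7360202006)) e
 (c (a (nat_lit 0x136020282826)) e
 (c (a (nat_lit 0x10060e0a001)) e
 (c (a (nat_lit 0x60a0404001)) e
 (c (a (nat_lit 0x2020203105)) e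
 (c (a (nat_lit 0x20309885)) e
 (c z e
 (c (a (nat_lit 0xc7471f1c5)) e
 (c (b (nat_lit 0x1ff761a00002)) e e))))))))))))))))))))
 (c (a (nat_lit 0x20202021))
 (c (a (nat_lit 0x2020202021))
 (c (a (nat_lit 0x100c0a0a08cc1))
 (c z e
 (c (a (nat_lit 0x204c8766a8dce7)) e e))
 (c (a (nat_lit 0x40404eda3206)) e
 (c (b (nat_lit 0x1aa1ff31846)) e
 (c z e
 (c z e
 (c z e
 (c z e
 (c z e
 (c z e
 (c z e
 (c (b (nat_lit 0x1fe38dadebf027)) e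
 (c (a (nat_lit 0x26160a00001)) e e))))))))))))
 (c (a (nat_lit 0x2020203da4))
 (c (a (nat_lit 0x20e4cb23d548)) e
 (c z e
 (c z e
 (c z e
 (c z e
 (c z e
 (c z e
 (c z e
 (c z e
 (c (a (nat_lit 0x2a52b5364007)) e
 (c (a (nat_lit 0x3c100000001)) e e)))))))))))
 (c (b (nat_lit 0x20203a3fe6))
 (c z e
 (c z e
 (c z e
 (c z e
 (c z e
 (c z e
 (c z e
 (c z e
 (c (a (nat_lit 0xb0df4b3800008)) e
 (c (a (nat_lit 0x1896c000000001)) e e))))))))))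
 (c (a (nat_lit 0x203a226026)) e
 (c (a (nat_lit 0x497e704ea26)) e
 (c z e
 (c z e
 (c z e
 (c z e
 (c z e
 (c (a (nat_lit 0x1688778f6f46)) e
 (c (a (nat_lit 0x1c180c0a001)) e
 (c (a (nat_lit 0x1e120a06001)) e
 (c (a (nat_lit 0x18161010001)) e
 (c (b (nat_lit 0x277ff046)) e e)))))))))))))))
 C684))) Tr.c Tr.e (nat_lit 0) C.cx C.cy
noncomputable def C686 : Tr := beta% (fun (c : Nat → Tr → Tr → Tr) (e : Tr) (z : Nat) (a b : Nat → Nat) =>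
 (c (a (nat_lit 0x2020202021))
 (c (b (nat_lit 0x1050314c5fffe4))
 (c z e
 (c z e
 (c z e
 (c z e
 (c z e
 (c z e
 (c (a (nat_lit 0x6e7e52406c55146)) e
 (c (a (nat_lit 0x78883a80b32ef26)) e
 (c (a (nat_lit 0x7ab298cfdd75425)) e
 (c z e
 (c (a (nat_lit 0x3aaf02660000006)) e e)))))))))))
 (c z e
 (c (a (nat_lit 0xd39ada0402685)) e
 (c (a (nat_lit 0x1a8fa020266685))
 (c (a (nat_lit 0x18969679db987566)) e
 (c (a (nat_lit 0xb4a2c2d6de77268)) e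
 (c z e
 (c (a (nat_lit 0xa8ce4b492aa3687)) e
 (c (a (nat_lit 0xf6d32b470548947)) e e)))))
 (c (a (nat_lit 0x1dccacacccece4))
 (c (a (nat_lit 0xbadef6c68517847)) e
 (c z e
 (c (a (nat_lit 0x721c4c6b10cc307)) e e)))
 (c (a (nat_lit 0xa0c0e1017983))
 (c (a (nat_lit 0xdcacaafc876b1e5)) e e)
 (c (a (nat_lit 0xa0a7dd9403))
 (c z e
 (c (a (nat_lit 0x17cb120760000006)) e e))
 (c (a (nat_lit 0x5c5c9aef2cb65))
 (c (a (nat_lit 0x19be87c000000004)) e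
 (c (a (nat_lit 0x16a0000000000005)) e e))
 (c (a (nat_lit 0x6d196f9936805)) e
 (c z e
 (c (a (nat_lit 0x19f9b8b5640565)) e
 (c z e
 (c (a (nat_lit 0xb0dd9bb99d8a3)) e
 (c (a (nat_lit 0xa705135f58e04)) e
 (c z e
 (c (a (nat_lit 0xc1ebd80200002)) e
 (c (a (nat_lit 0x1e4ee000000003)) e e)))))))))))))))))
 (c (a (nat_lit 0x4040404041))
 (c (a (nat_lit 0x11ed49c02029c6))
 (c (a (nat_lit 0xed191b335732ac6))
 (c z e
 (c (a (nat_lit 0x7d2f1278ead098008)) e e))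
 (c (a (nat_lit 0xd4e4f11300ec348))
 (c (a (nat_lit 0x1f5f52799d6c200008)) e e)
 (c (a (nat_lit 0x17fcfa3b7a553947)) e
 (c (a (nat_lit 0xf6fcc6ced574b88)) e
 (c (a (nat_lit 0x725442156288fa8)) e
 (c z e
 (c z e
 (c (a (nat_lit 0x594685136292008)) e e))))))))
 (c (a (nat_lit 0x1d30e0202b4b46))
 (c (a (nat_lit 0x9ea6bac4da1b448))
 (c (a (nat_lit 0x144f93930540000008)) e e)
 (c (a (nat_lit 0xdcd6e3009725409)) e
 (c (a (nat_lit 0x9c4c8665713eb49)) e e)))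
 (c (a (nat_lit 0x13cb4b4b0b0b06)) e
 (c (a (nat_lit 0x20404059e4)) e
 (c (a (nat_lit 0x4067d4ff64))
 (c (a (nat_lit 0x1dc938cd920c8e07)) e e)
 (c z e
 (c z e
 (c (a (nat_lit 0x9cff333ed0a87)) e
 (c z e
 (c z e
 (c z e
 (c (a (nat_lit 0x588498c1366)) e
 (c (b (nat_lit 0x1fe5ab74638304)) e
 (c (a (nat_lit 0x4d04040e02003)) e
 (c (a (nat_lit 0x10e100e0000003)) e
 (c (a (nat_lit 0x800000000001)) e e))))))))))))))))
 (c (a (nat_lit 0x2020202021))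
 (c (a (nat_lit 0x1c866686866664))
 (c (a (nat_lit 0xc8faef108fd9ec6)) e
 (c (a (nat_lit 0x7e6472651aec888)) e e))
 (c (a (nat_lit 0x4040405044)) e
 (c (a (nat_lit 0x4201eed3b924)) e
 (c z e
 (c z e
 (c z e
 (c z e
 (c z e
 (c z e
 (c z e
 (c z e
 (c (a (nat_lit 0x5e82b4b1140a6)) e
 (c (a (nat_lit 0xb6e6e70c00006)) e
 (c (a (nat_lit 0x14e02000000005)) e e))))))))))))))
 (c (a (nat_lit 0x4040404041))
 (c (a (nat_lit 0x2020217167))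
 (c (a (nat_lit 0x32322e65480e7a7)) e
 (c z e
 (c z e
 (c (a (nat_lit 0x1f606599624c007)) e
 (c (a (nat_lit 0x170e3448e0000007)) e e)))))
 (c (a (nat_lit 0x40620c370287))
 (c (a (nat_lit 0xa607367e7226028)) e e)
 (c z e
 (c (a (nat_lit 0x56cb7a4c026e7)) e
 (c (b (nat_lit 0xd39254149dfe7)) e
 (c z e
 (c z e
 (c (a (nat_lit 0x1176ef9058fa07)) e
 (c z e
 (c (a (nat_lit 0x78a29adf11247)) e
 (c (a (nat_lit 0xdcd4df108a007)) e
 (c (a (nat_lit 0x1a7bb100000006)) e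
 (c (a (nat_lit 0x15400000000005)) e e)))))))))))))
 (c (a (nat_lit 0x4040404041))
 (c z e
 (c (b (nat_lit 0x64a5fe02039a6))
 (c (a (nat_lit 0x5b70d2867600007)) e e)
 (c z e
 (c z e
 (c (a (nat_lit 0xf2f5acfabcbc7)) e
 (c z e
 (c (a (nat_lit 0x14c8a8840c0947)) e
 (c z e
 (c (a (nat_lit 0x8890c10328407)) e
 (c (a (nat_lit 0xfedb1a9400007)) e
 (c (a (nat_lit 0x1930a000000006)) e e)))))))))))
 (c (a (nat_lit 0x2020203344))
 (c (a (nat_lit 0x924c02021db65)) e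
 (c z e
 (c z e
 (c (b (nat_lit 0x1fffec32838aa6)) e
 (c (a (nat_lit 0xc9538ac9ae86)) e
 (c (b (nat_lit 0x12bad088c9dfe6)) e
 (c z e
 (c (a (nat_lit 0x139b3c36a04005)) e
 (c (a (nat_lit 0x195aaa40000005)) e e)))))))))
 (c (a (nat_lit 0x2020319384))
 (c z e
 (c (b (nat_lit 0x1fe1a1860d3586)) e
 (c z e
 (c z e
 (c (a (nat_lit 0x8eb2a898232a7)) e e)))))
 (c (a (nat_lit 0x2627214b085))
 (c (b (nat_lit 0x4101c2b05fe6)) e
 (c (a (nat_lit 0x1458471f2a007)) e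
 (c z e
 (c (a (nat_lit 0x9b36b06dbd567)) e e))))
 (c (a (nat_lit 0x418b6712e25))
 (c (a (nat_lit 0x30568f1e50067)) e e)
 (c z e
 (c (a (nat_lit 0x8068cb44b26))
 (c (a (nat_lit 0x79b3461e00007)) e e)
 (c z e
 (c (a (nat_lit 0xa7ab184a486)) e
 (c (a (nat_lit 0x164d00202326)) e
 (c (a (nat_lit 0x19e020264645)) e
 (c (a (nat_lit 0x2080616201)) e
 (c (a (nat_lit 0x202040b903)) e
 (c (a (nat_lit 0x2057d7a3)) e
 (c (a (nat_lit 0x363bb7b5a83)) e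
 (c (a (nat_lit 0x6fe9d7dbd83)) e
 (c (a (nat_lit 0x3e081606001)) e
 (c (a (nat_lit 0x40e0000001)) e e))))))))))))))))))))))) Tr.c Tr.e (nat_lit 0) C.cx C.cy
noncomputable def C687 : Tr := beta% (fun (c : Nat → Tr → Tr → Tr) (e : Tr) (z : Nat) (a b : Nat → Nat) =>
 (c (a (nat_lit 0x60604041))
 (c (b (nat_lit 0x3a3feb43)) e
 (c (b (nat_lit 0x119fe9d7a4)) e
 (c z e
 (c z e
 (c z e
 (c z e
 (c (a (nat_lit 0x1f7293f3ec46)) e
 (c z e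
 (c z e
 (c (a (nat_lit 0xa07c3c4b24)) e
 (c (a (nat_lit 0x51312a641a5)) e
 (c (a (nat_lit 0x1a7809a686a4)) e
 (c (a (nat_lit 0x116320604004)) e
 (c (a (nat_lit 0xe0202034e6)) e e))))))))))))))
 (c (a (nat_lit 0x40404041))
 (c (a (nat_lit 0xe2a08335e4))
 (c (a (nat_lit 0x1dbe87e16644)) e
 (c (a (nat_lit 0xd35abc262c006)) e
 (c z e
 (c z e
 (c (a (nat_lit 0x68e71e704a0e5)) e
 (c (a (nat_lit 0xd1390cfa04006)) e e))))))
 (c (a (nat_lit 0xe1c2f76505))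
 (c (a (nat_lit 0x1472474382c026)) e
 (c z e
 (c z e
 (c (a (nat_lit 0x14f6dca2d70005)) e
 (c (a (nat_lit 0x6f24c44800007)) e e)))))
 (c z e
 (c (a (nat_lit 0xc108b2b0b07))
 (c (a (nat_lit 0x7a115e7686467)) e
 (c (a (nat_lit 0x38a825800007)) e e))
 (c (a (nat_lit 0x1b0565c5a165))
 (c (a (nat_lit 0x160a66a0000005)) e e)
 (c (a (nat_lit 0x139333440505)) e
 (c z e
 (c (a (nat_lit 0x38373cf92a5)) e
 (c (a (nat_lit 0x1054a82a2624)) e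
 (c (a (nat_lit 0x1df157b3cc44)) e
 (c (a (nat_lit 0x54ba7c07b44)) e
 (c (a (nat_lit 0xaa6e03a8ca4)) e
 (c z e
 (c (a (nat_lit 0x633acccc005)) e
 (c (a (nat_lit 0x1c0040000003)) e e)))))))))))))))
 (c (a (nat_lit 0xa0a0a0a1))
 (c (a (nat_lit 0x726f9a4a084))
 (c (a (nat_lit 0x1ac6a263431084)) e
 (c z e
 (c z e
 (c (b (nat_lit 0x2f24311ffe005)) e
 (c (a (nat_lit 0x1411e820000006)) e e)))))
 (c z e
 (c (b (nat_lit 0x193fe0806045))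
 (c (a (nat_lit 0xe5c6ce0c04006)) e
 (c (a (nat_lit 0x18b1c2c0000006)) e e))
 (c (a (nat_lit 0x2b29241dbc3))
 (c (a (nat_lit 0x1da98000000004)) e e)
 (c (a (nat_lit 0x7cff05052c6)) e
 (c z e
 (c (a (nat_lit 0x778feb73505)) e
 (c (a (nat_lit 0xb72e6a241e4)) e
 (c (a (nat_lit 0x804004054a4)) e
 (c (a (nat_lit 0x480403525c4)) e
 (c z e
 (c (a (nat_lit 0xdb830907065)) e
 (c (a (nat_lit 0x1f0040200003)) e
 (c (a (nat_lit 0x14000000001)) e e))))))))))))))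
 (c (a (nat_lit 0x80808081))
 (c (a (nat_lit 0x13a0c0602004))
 (c (b (nat_lit 0x1ff17fe0a08045)) e
 (c (a (nat_lit 0x19f2141804005)) e
 (c (a (nat_lit 0x1e664ba0000003)) e e)))
 (c (a (nat_lit 0xb6301e181e1))
 (c (a (nat_lit 0x10408080400006)) e
 (c (a (nat_lit 0x4b22000000003)) e e))
 (c (a (nat_lit 0x46e8654621))
 (c (a (nat_lit 0x1ee00000000002)) e e)
 (c (a (nat_lit 0x60715151c6)) e
 (c (b (nat_lit 0x4fff28e85)) e
 (c (a (nat_lit 0x19d9fb3734c5)) e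
 (c (a (nat_lit 0x526626030c5)) e
 (c (a (nat_lit 0x4204030e445)) e
 (c z e
 (c (a (nat_lit 0x9d24beb2b46)) e
 (c (a (nat_lit 0x1c02c0202004)) e
 (c (a (nat_lit 0x12c040000001)) e e))))))))))))
 (c (a (nat_lit 0x40404041))
 (c (a (nat_lit 0x218180e0c1)) e
 (c (a (nat_lit 0x341516a6)) e
 (c (a (nat_lit 0x30fcf90ed07)) e
 (c z e
 (c (a (nat_lit 0x1214d0c72146)) e
 (c (a (nat_lit 0x1060203fcb04)) e
 (c z e
 (c (a (nat_lit 0x9f1eccb6b46)) e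
 (c (a (nat_lit 0x1a85c0202024)) e
 (c (a (nat_lit 0x15c060200002)) e
 (c (a (nat_lit 0x18000000001)) e e)))))))))))
 (c (nat_lit 1)
 (c (a (nat_lit 0x537b999ba25)) e
 (c z e
 (c z e
 (c (a (nat_lit 0x12f3b4cac126)) e
 (c z e
 (c (a (nat_lit 0x9976b09a005)) e
 (c (a (nat_lit 0x19ac09802c65)) e
 (c (a (nat_lit 0x80604001)) e
 (c (a (nat_lit 0x40000001)) e e)))))))))
 (c (a (nat_lit 0x40406061))
 (c (a (nat_lit 0x143454946546)) e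
 (c z e
 (c z e
 (c (a (nat_lit 0xcba2e0bf125)) e
 (c (a (nat_lit 0x1d24604b1a24)) e
 (c (a (nat_lit 0x40a1018181)) e
 (c (a (nat_lit 0xa0400001)) e
 (c (a (nat_lit 0x2000000001)) e e))))))))
 (c (a (nat_lit 0x20202021))
 (c z e
 (c (a (nat_lit 0x13d85c18204)) e
 (c (a (nat_lit 0xe8240203005)) e
 (c (a (nat_lit 0xc141220201)) e
 (c (a (nat_lit 0xa0e0a001)) e
 (c (a (nat_lit 0x60000001)) e e))))))
 (c (a (nat_lit 0x40404041))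
 (c (a (nat_lit 0x74120205025)) e
 (c (a (nat_lit 0xa4c140e001)) e
 (c (a (nat_lit 0x5a1e0606001)) e
 (c (a (nat_lit 0x2e1c0200001)) e
 (c (a (nat_lit 0x1c000000001)) e e)))))
 (c (a (nat_lit 0x60606061))
 (c (a (nat_lit 0x8080806061)) e
 (c (a (nat_lit 0xc0c0604001)) e
 (c (a (nat_lit 0xe040000001)) e e)))
 (c (nat_lit 1)
 (c (a (nat_lit 0x4020000001)) e
 (c (a (nat_lit 0x2000000001)) e e))
 (c (a (nat_lit 0x20202021)) e
 (c (a (nat_lit 0x80606061)) e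
 (c (a (nat_lit 0x60606141)) e
 (c (a (nat_lit 0x20205604)) e
 (c (a (nat_lit 0x4a4da75e4)) e
 (c (a (nat_lit 0xef9d76d85)) e
 (c (a (nat_lit 0xc4a003465)) e
 (c (a (nat_lit 0xa20548565)) e
 (c z e
 (c (a (nat_lit 0x12e0402025)) e
 (c (a (nat_lit 0x340e06021)) e
 (c (a (nat_lit 0x120e04001)) e
 (c (a (nat_lit 0xe0000001)) e e))))))))))))))))))))))))) Tr.c Tr.e (nat_lit 0) C.cx C.cy
noncomputable def C688 : Tr := beta% (fun (c : Nat → Tr → Tr → Tr) (e : Tr) (z : Nat) (a b : Nat → Nat) =>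
 (c (a (nat_lit 0x40404041))
 (c (a (nat_lit 0x4040404021))
 (c (a (nat_lit 0x13074680202025))
 (c (a (nat_lit 0x14d4b397d9f94c05)) e
 (c (a (nat_lit 0x11b3795ebec5c326)) e
 (c (a (nat_lit 0xa904f4e47071627)) e
 (c (a (nat_lit 0xbccc6a8c8d21208)) e
 (c (a (nat_lit 0x5a260404931a348)) e e)))))
 (c (a (nat_lit 0x1b6e4040474705))
 (c (a (nat_lit 0xb51519283804c47)) e
 (c (a (nat_lit 0x8c4e30346ee3549)) e e))
 (c (a (nat_lit 0x14602040202485))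
 (c z e
 (c (a (nat_lit 0x40666d351450a49)) e e))
 (c (a (nat_lit 0x2023a5dc06)) e
 (c (a (nat_lit 0x2060cd55a7)) e
 (c z e
 (c z e
 (c z e
 (c z e
 (c z e
 (c z e
 (c z e
 (c (a (nat_lit 0x3f91d3be045)) e
 (c (a (nat_lit 0x71b5f7e41c005)) e
 (c (a (nat_lit 0x193d6020000005)) e
 (c (a (nat_lit 0x1d800000000005)) e e))))))))))))))))
 (c (a (nat_lit 0x4040404041))
 (c (a (nat_lit 0x125b3b7bbb7fc4))
 (c (a (nat_lit 0xae707c823a9dd07)) e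
 (c (a (nat_lit 0x94a09cd107a1b09)) e e))
 (c (a (nat_lit 0x202040a2fea6)) e
 (c z e
 (c z e
 (c z e
 (c z e
 (c z e
 (c z e
 (c z e
 (c z e
 (c z e
 (c (a (nat_lit 0x732997a62c286)) e
 (c (a (nat_lit 0x1fa02040400005)) e
 (c (a (nat_lit 0xc0e000000001)) e e))))))))))))))
 (c (a (nat_lit 0x20000001))
 (c (a (nat_lit 0x20202ffa7ce5)) e
 (c z e
 (c z e
 (c z e
 (c z e
 (c z e
 (c z e
 (c z e
 (c z e
 (c z e
 (c (a (nat_lit 0x1f1cbb5a2da007)) e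
 (c (a (nat_lit 0x1b9a4ca0000007)) e
 (c (a (nat_lit 0x1b600000000006)) e e)))))))))))))
 (c (a (nat_lit 0xa0a0a08081))
 (c z e
 (c z e
 (c z e
 (c z e
 (c z e
 (c z e
 (c z e
 (c z e
 (c z e
 (c (a (nat_lit 0x1b915a4d800007)) e
 (c (a (nat_lit 0x108cc000000007)) e e)))))))))))
 (c (a (nat_lit 0x2020203b85))
 (c z e
 (c z e
 (c z e
 (c z e
 (c z e
 (c z e
 (c z e
 (c z e
 (c (a (nat_lit 0x12816140000006)) e e)))))))))
 (c (a (nat_lit 0x202039d905)) e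
 (c (a (nat_lit 0x20391b9845)) e
 (c (a (nat_lit 0x318deb2c46)) e
 (c z e
 (c z e
 (c z e
 (c z e
 (c (a (nat_lit 0x1b0d00202025)) e
 (c (a (nat_lit 0x19c040204044)) e
 (c (a (nat_lit 0x40807143)) e
 (c (a (nat_lit 0x20225ae6)) e
 (c (a (nat_lit 0x20225aff86)) e e)))))))))))))))))
 (c (a (nat_lit 0x40404041))
 (c (nat_lit 1)
 (c (a (nat_lit 0xa0c1056593a3))
 (c (a (nat_lit 0xcaf8482909bdea4)) e
 (c (a (nat_lit 0x963c98a52db8d87)) e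
 (c (a (nat_lit 0x4a83619eb0161c7)) e
 (c (a (nat_lit 0x150142a42c5c2a7)) e
 (c (a (nat_lit 0x1930a943e5e2c727)) e e)))))
 (c (a (nat_lit 0x101e19d3d34a3)) e
 (c z e
 (c (a (nat_lit 0x200478a6df7c5))
 (c (a (nat_lit 0xc6352cfda26c006)) e
 (c (a (nat_lit 0x1282bf160000007)) e e))
 (c (a (nat_lit 0x4a768caf1c206))
 (c (a (nat_lit 0x1df25b4000000005)) e e)
 (c z e
 (c (a (nat_lit 0xccb91a8c2e867)) e
 (c (a (nat_lit 0xc778ee5244646)) e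
 (c z e
 (c z e
 (c (b (nat_lit 0x1fe141da3e0ea5)) e
 (c (a (nat_lit 0xe2e90d1252005)) e
 (c (a (nat_lit 0x1397e0e0000004)) e
 (c (a (nat_lit 0x17000000000004)) e e))))))))))))))
 (c (a (nat_lit 0x2040404041))
 (c (a (nat_lit 0x203ba6e18364)) e
 (c z e
 (c z e
 (c z e
 (c z e
 (c (a (nat_lit 0x65c6da4020c28)) e
 (c (a (nat_lit 0x1e2ca882a9cc88)) e
 (c z e
 (c z e
 (c (a (nat_lit 0x787ededd227c8)) e
 (c (a (nat_lit 0xdaf104a200008)) e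
 (c (a (nat_lit 0x1c688000000006)) e e))))))))))))
 (c (a (nat_lit 0x2020201ae6))
 (c z e
 (c z e
 (c z e
 (c z e
 (c z e
 (c z e
 (c z e
 (c z e
 (c z e
 (c (a (nat_lit 0x195f14c0000007)) e
 (c (a (nat_lit 0x14600000000006)) e e)))))))))))
 (c (a (nat_lit 0x20203ae8a6))
 (c z e
 (c (a (nat_lit 0x9ce49963fe0a6)) e
 (c z e
 (c z e
 (c (a (nat_lit 0x11b869a877d166)) e
 (c z e
 (c z e
 (c (a (nat_lit 0x15965b33a00007)) e
 (c (a (nat_lit 0x17cac000000006)) e e)))))))))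
 (c (a (nat_lit 0x303172bcc46))
 (c (a (nat_lit 0x74427d3af6326)) e
 (c z e
 (c z e
 (c (a (nat_lit 0x5c72402c61128)) e
 (c z e
 (c z e
 (c (a (nat_lit 0x13583020000008)) e e)))))))
 (c (a (nat_lit 0x39d4323745)) e
 (c (a (nat_lit 0xdcb6a4c5447))
 (c (a (nat_lit 0xb2e51cf80fce7)) e
 (c (a (nat_lit 0xf0f508db69148)) e e))
 (c (a (nat_lit 0x9092a524067))
 (c (a (nat_lit 0xed391721784a7)) e e)
 (c z e
 (c z e
 (c (a (nat_lit 0x134180202006)) e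
 (c (a (nat_lit 0x5a0403b7a44)) e
 (c (a (nat_lit 0x82c14141)) e
 (c (a (nat_lit 0xc040be03)) e
 (c (a (nat_lit 0x2a222b15004)) e
 (c (a (nat_lit 0x162306f51c4)) e
 (c (b (nat_lit 0x1fe0a02151e5)) e
 (c (a (nat_lit 0xa0215203e5)) e e))))))))))))))))))
 (c (a (nat_lit 0x40404041))
 (c (a (nat_lit 0x3bc3))
 (c (a (nat_lit 0xa400a0203d46))
 (c (a (nat_lit 0xfb1ee6789e852a5)) e e)
 (c z e
 (c z e
 (c z e
 (c (a (nat_lit 0x1966e2202047)) e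
 (c (a (nat_lit 0x10678361424288)) e
 (c (a (nat_lit 0x10302ea8666da6)) e
 (c (a (nat_lit 0x1cbebe3ef719e6)) e
 (c z e
 (c (a (nat_lit 0xcf71b690a006)) e
 (c (a (nat_lit 0xc341a0000001)) e e)))))))))))
 (c (b (nat_lit 0x203abfe6))
 (c z e
 (c z e
 (c z e
 (c z e
 (c z e
 (c z e
 (c z e
 (c z e
 (c z e
 (c (a (nat_lit 0x2e34000000001)) e e))))))))))
 (c (a (nat_lit 0x3aa06146))
 (c z e
 (c z e
 (c z e
 (c z e
 (c z e
 (c z e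
 (c z e
 (c (a (nat_lit 0x1b1a9ae0000008)) e
 (c (a (nat_lit 0xe00000000001)) e e)))))))))
 (c (a (nat_lit 0x55945c72906))
 (c (a (nat_lit 0x8a68ef4c26006)) e e)
 (c (a (nat_lit 0x543a5a5d846))
 (c (a (nat_lit 0x70b130826c547)) e
 (c (a (nat_lit 0xcd3530a6289c8)) e
 (c z e
 (c (b (nat_lit 0x21ff2a6416009)) e e))))
 (c (a (nat_lit 0x565e6b0c947))
 (c (a (nat_lit 0xbdb31804b32c7)) e
 (c (a (nat_lit 0xa3a68caef6a08)) e e))
 (c (a (nat_lit 0x727112aa5e7))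
 (c (b (nat_lit 0x12a3c27fe2e007)) e e)
 (c (a (nat_lit 0x10fb13d01007)) e
 (c (a (nat_lit 0x112d8babab88)) e
 (c (a (nat_lit 0x14ed4d452526)) e
 (c (a (nat_lit 0x1c322414161)) e
 (c (a (nat_lit 0x281c1426001)) e
 (c (b (nat_lit 0x203b3fffe4)) e
 (c (b (nat_lit 0x1fe2810001)) e
 (c (a (nat_lit 0x3a0602034e7)) e
 (c (a (nat_lit 0x402034e267)) e e))))))))))))))))
 C687)))) Tr.c Tr.e (nat_lit 0) C.cx C.cy
noncomputable def C689 : Tr := beta% (fun (c : Nat → Tr → Tr → Tr) (e : Tr) (z : Nat) (a b : Nat → Nat) =>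
 (c (nat_lit 1)
 (c z e
 (c z e
 (c z e
 (c z e
 (c (a (nat_lit 0x7130ae6464927)) e
 (c (a (nat_lit 0x1546c02025e626)) e
 (c z e
 (c (a (nat_lit 0x2060852c53c5))
 (c (a (nat_lit 0x17aba72682c00007)) e
 (c (a (nat_lit 0x134e65e000000007)) e e))
 (c (a (nat_lit 0x121278bd02d47))
 (c (a (nat_lit 0x1f48400000000005)) e e)
 (c z e
 (c z e
 (c z e
 (c z e
 (c z e
 (c (a (nat_lit 0xb6cf17354cce6)) e
 (c (a (nat_lit 0xf789c3f2faf65)) e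
 (c (a (nat_lit 0x126a8040400004)) e
 (c (a (nat_lit 0x14802000000003)) e e))))))))))))))))))
 (c (a (nat_lit 0x2020202021))
 (c z e
 (c z e
 (c z e
 (c z e
 (c (a (nat_lit 0x1a8141e263fb43)) e
 (c z e
 (c z e
 (c z e
 (c z e
 (c z e
 (c z e
 (c z e
 (c z e
 (c z e
 (c (b (nat_lit 0x1ff16565e58003)) e
 (c (a (nat_lit 0x18e040c0000002)) e
 (c (nat_lit 1) e e)))))))))))))))))
 (c (a (nat_lit 0x2001))
 (c (a (nat_lit 0x59361a0404e25))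
 (c (a (nat_lit 0x16b7b774967a0945)) e
 (c z e
 (c z e
 (c (a (nat_lit 0x86b8ac6fc123327)) e
 (c (a (nat_lit 0x2a5c555254b84c8)) e
 (c z e
 (c (a (nat_lit 0xa36d792cfc88007)) e
 (c (a (nat_lit 0xcea1a68a0000007)) e e))))))))
 (c (a (nat_lit 0x14a4a020272726))
 (c z e
 (c z e
 (c z e
 (c z e
 (c z e
 (c (a (nat_lit 0x969916be4c00009)) e
 (c (a (nat_lit 0xa71858000000009)) e e)))))))
 (c z e
 (c (a (nat_lit 0x61218647f6a4))
 (c (a (nat_lit 0x86e915208aa0b07)) e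
 (c (a (nat_lit 0x15eb4f07078569a8)) e e))
 (c (a (nat_lit 0x812579d7ab24))
 (c (a (nat_lit 0x891e4a985876007)) e e)
 (c z e
 (c (a (nat_lit 0x948d04f84efc6)) e
 (c (a (nat_lit 0xab51f103b7865)) e
 (c z e
 (c z e
 (c (a (nat_lit 0xb9e1c9c476ea5)) e
 (c (a (nat_lit 0x16d5d79a11b185)) e
 (c (a (nat_lit 0x1637fad31351a5)) e
 (c (a (nat_lit 0xf7505c3600004)) e
 (c (a (nat_lit 0x14826000000004)) e e)))))))))))))))
 (c (nat_lit 1)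
 (c (a (nat_lit 0x1f04c4e5221143))
 (c (a (nat_lit 0x1098738899a851a5)) e
 (c z e
 (c z e
 (c z e
 (c (a (nat_lit 0x1663878e0c46a007)) e
 (c (a (nat_lit 0x316d04c0000007)) e
 (c (a (nat_lit 0x14eec00000000005)) e e)))))))
 (c z e
 (c (a (nat_lit 0xc0e352290425))
 (c (a (nat_lit 0x1848832c62c3e408)) e e)
 (c z e
 (c (a (nat_lit 0xaa2521607f66)) e
 (c (a (nat_lit 0x867c4e1f10487)) e
 (c (a (nat_lit 0x162c6946643e7)) e
 (c z e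
 (c z e
 (c (a (nat_lit 0x17add52c0d71e7)) e
 (c (a (nat_lit 0x4f252135511e6)) e
 (c (a (nat_lit 0x10d0b112472007)) e
 (c (a (nat_lit 0x1f3ff120000006)) e e)))))))))))))
 (c (a (nat_lit 0x2020200001))
 (c z e
 (c z e
 (c z e
 (c z e
 (c z e
 (c z e
 (c z e
 (c z e
 (c z e
 (c (a (nat_lit 0xf134ad6680006)) e e))))))))))
 (c (a (nat_lit 0x2020202021))
 (c (a (nat_lit 0x13ca3a0e4076e3))
 (c (a (nat_lit 0x1b46f20d3786e005)) e
 (c (a (nat_lit 0x5cca41320000006)) e e))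
 (c (a (nat_lit 0x6c9836048b165))
 (c (a (nat_lit 0xd02bda000000005)) e e)
 (c z e
 (c z e
 (c (b (nat_lit 0x1fe74b155f36c5)) e
 (c z e
 (c z e
 (c (a (nat_lit 0x16f6ef920d2226)) e
 (c (a (nat_lit 0x15862dbc42c005)) e e)))))))))
 (c (a (nat_lit 0xa0a0a0a0a1))
 (c (a (nat_lit 0x1009c9efb7bba4)) e
 (c z e
 (c (b (nat_lit 0x1fffe080ab5005)) e
 (c (a (nat_lit 0x21638f33c946)) e
 (c z e
 (c z e
 (c (a (nat_lit 0x1adb552fc90a06)) e e)))))))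
 (c (a (nat_lit 0x2020203384))
 (c (b (nat_lit 0x1fe60525e63605)) e
 (c (a (nat_lit 0x20456cdcc6)) e
 (c (a (nat_lit 0x80f6b7d2c6)) e
 (c z e
 (c z e
 (c (a (nat_lit 0x11930f0f2f0007)) e
 (c (a (nat_lit 0x1a782c60000006)) e e)))))))
 (c (a (nat_lit 0x202036e505))
 (c (a (nat_lit 0xe0806a9d0e85)) e
 (c (a (nat_lit 0x26fb38cec6)) e
 (c z e
 (c z e
 (c (a (nat_lit 0xeee4810600007)) e
 (c (a (nat_lit 0x13858000000006)) e e))))))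
 (c (a (nat_lit 0x6072288905))
 (c (a (nat_lit 0x52530d5b0d766)) e
 (c z e
 (c z e
 (c (a (nat_lit 0x12b33960000007)) e e))))
 (c (a (nat_lit 0x9d79ad2a604)) e
 (c z e
 (c (a (nat_lit 0x9eb30b20a86)) e
 (c (a (nat_lit 0x1540346561a5)) e
 (c (a (nat_lit 0x690a7674746)) e
 (c (a (nat_lit 0x12c020202085)) e
 (c (a (nat_lit 0x28240872c01)) e
 (c (a (nat_lit 0x20613004)) e
 (c (a (nat_lit 0x206f9444)) e
 (c (a (nat_lit 0x4f9454a4)) e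
 (c (a (nat_lit 0x2f237177764)) e
 (c (b (nat_lit 0x1fffe2216001)) e
 (c (a (nat_lit 0xa0000001)) e e)))))))))))))))))))))))) Tr.c Tr.e (nat_lit 0) C.cx C.cy
noncomputable def C690 : Tr := beta% (fun (c : Nat → Tr → Tr → Tr) (e : Tr) (z : Nat) (a b : Nat → Nat) =>
 (c (a (nat_lit 0x20202021))
 (c (a (nat_lit 0x10101010101))
 (c (a (nat_lit 0x4a4a4b99295a3))
 (c z e
 (c (b (nat_lit 0x2426b3ffdb5e103)) e
 (c z e
 (c (a (nat_lit 0xe6beecf2dd093a5)) e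
 (c (a (nat_lit 0xf71af2fb5c18043)) e
 (c z e
 (c z e
 (c z e
 (c z e
 (c z e
 (c (a (nat_lit 0x9e9e487e7c7f1e5)) e
 (c (a (nat_lit 0x176c726b8aba9bc4)) e e))))))))))))
 (c (a (nat_lit 0x2038783a6ca5))
 (c z e
 (c z e
 (c z e
 (c z e
 (c z e
 (c z e
 (c (a (nat_lit 0xcf93cd770208fe5)) e
 (c (a (nat_lit 0xc6a87c88be8d0a6)) e
 (c (a (nat_lit 0x402a20629633067)) e e)))))))))
 (c (a (nat_lit 0xc33b3b4d30006))
 (c z e
 (c z e
 (c z e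
 (c z e
 (c z e
 (c z e
 (c z e
 (c (a (nat_lit 0x766a8d1b37c9a27)) e e))))))))
 (c (b (nat_lit 0x111091b04ddfe6))
 (c (a (nat_lit 0x114bb3d2f53b2ea5)) e
 (c (a (nat_lit 0x22a6289404fb107)) e
 (c z e
 (c (a (nat_lit 0x1678d6e98e79f7c6)) e
 (c (a (nat_lit 0xeada988cb301c27)) e
 (c z e
 (c (b (nat_lit 0x1fe1a767bcb12686)) e
 (c (a (nat_lit 0xe2c83464734386)) e e))))))))
 (c (b (nat_lit 0xf74916da49fe5))
 (c (a (nat_lit 0xf6412b252f42ba6)) e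
 (c z e
 (c z e
 (c (a (nat_lit 0x15b534d369524d46)) e
 (c (a (nat_lit 0x12763310fa6c2d07)) e
 (c (a (nat_lit 0x10f8272f0550f326)) e
 (c (a (nat_lit 0x7904d86e7c4a007)) e e)))))))
 (c z e
 (c (a (nat_lit 0x2160262224324))
 (c (a (nat_lit 0x62a2b8845701226)) e
 (c (a (nat_lit 0xed2101a16dcd666)) e
 (c z e
 (c z e
 (c (a (nat_lit 0x125ebaaba0000006)) e e)))))
 (c (a (nat_lit 0x13e040602121c4))
 (c (a (nat_lit 0x8a9b6696c0aa6e6)) e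
 (c z e
 (c (a (nat_lit 0x1288044260600007)) e
 (c (a (nat_lit 0x1e7eae4000000005)) e e))))
 (c (a (nat_lit 0x20e1818339e3))
 (c (a (nat_lit 0x12efc3e3c3834006)) e
 (c (a (nat_lit 0x10214100c0000006)) e e))
 (c (a (nat_lit 0x606b925425)) e
 (c (a (nat_lit 0x4069d171d185)) e
 (c z e
 (c z e
 (c (a (nat_lit 0xf9211f208cb45)) e
 (c (a (nat_lit 0x8e828721bde24)) e
 (c (a (nat_lit 0x8a8edb293b3c5)) e
 (c (a (nat_lit 0x32d16d9194e84)) e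
 (c (a (nat_lit 0x9937575c58004)) e
 (c (a (nat_lit 0xf100820000005)) e
 (c (a (nat_lit 0x1fa00000000003)) e e))))))))))))))))))))
 C689)
 (c (a (nat_lit 0x20202021))
 (c (a (nat_lit 0x4040404041))
 (c (b (nat_lit 0x1937174ea09fe6))
 (c (a (nat_lit 0x1358b7f991b314e5))
 (c z e
 (c z e
 (c z e
 (c (a (nat_lit 0x112deeaeaeeaec52a8)) e e))))
 (c z e
 (c z e
 (c (a (nat_lit 0xd8aabc929502fc8))
 (c (a (nat_lit 0x14b1e98d15a7400008)) e e)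
 (c (a (nat_lit 0x82a04e34051ad67)) e
 (c (a (nat_lit 0xc6c2f69e2e032a6)) e
 (c z e
 (c (a (nat_lit 0x68526014a58b0c7)) e
 (c (a (nat_lit 0x804aaa92dd0b267)) e
 (c z e
 (c (a (nat_lit 0x448358de7a00007)) e e)))))))))))
 (c z e
 (c z e
 (c (a (nat_lit 0xc79916908ed47))
 (c (a (nat_lit 0xf0fcb102e4a7068)) e
 (c z e
 (c z e
 (c z e
 (c (a (nat_lit 0x8c9706a698daec9)) e e)))))
 (c (a (nat_lit 0x114981a1a60607)) e
 (c (a (nat_lit 0x1c139373739125)) e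
 (c z e
 (c (a (nat_lit 0x2e3256bdbdca5))
 (c (a (nat_lit 0x1cf310e420000006)) e
 (c (a (nat_lit 0x186b800000000007)) e e))
 (c (a (nat_lit 0x3460c528faa07))
 (c (a (nat_lit 0x1420000000000005)) e e)
 (c z e
 (c (b (nat_lit 0xed4b24f47ffe7)) e
 (c z e
 (c z e
 (c z e
 (c (a (nat_lit 0x9303338accd85)) e
 (c (a (nat_lit 0x7cdd1c1016004)) e
 (c (a (nat_lit 0xc302020000004)) e
 (c (a (nat_lit 0x10600000000004)) e e))))))))))))))))))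
 (c (a (nat_lit 0x4040404041))
 (c z e
 (c z e
 (c z e
 (c z e
 (c z e
 (c z e
 (c z e
 (c z e
 (c z e
 (c z e
 (c z e
 (c z e
 (c z e
 (c (a (nat_lit 0x50247e3cb69e1)) e
 (c (a (nat_lit 0x44141a00001)) e
 (c (a (nat_lit 0x2808000000001)) e e))))))))))))))))
 (c (a (nat_lit 0x4040404041))
 (c (a (nat_lit 0x1987e02029c9a6))
 (c (a (nat_lit 0x6c48484c4c352a7)) e e)
 (c z e
 (c z e
 (c z e
 (c z e
 (c z e
 (c z e
 (c z e
 (c z e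
 (c z e
 (c z e
 (c z e
 (c (a (nat_lit 0x17206080602004)) e
 (c (a (nat_lit 0x1e460e0000001)) e
 (c (a (nat_lit 0x2a00000000001)) e e)))))))))))))))
 (c (a (nat_lit 0x2020202021))
 (c (a (nat_lit 0x20204040b0a4))
 (c (a (nat_lit 0x76400298cd38367)) e
 (c z e
 (c z e
 (c z e
 (c (a (nat_lit 0x78a4f71e7000008)) e e)))))
 (c (a (nat_lit 0x1e1e56a8774a7)) e
 (c z e
 (c z e
 (c (a (nat_lit 0x951b90460a187)) e
 (c z e
 (c z e
 (c (a (nat_lit 0xdf0cea6a508e8)) e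
 (c z e
 (c z e
 (c z e
 (c (a (nat_lit 0x162ebbca800007)) e
 (c (a (nat_lit 0x15714000000007)) e e)))))))))))))
 (c (a (nat_lit 0x4040402021))
 (c z e
 (c z e
 (c z e
 (c z e
 (c z e
 (c z e
 (c (a (nat_lit 0x8f28cc801eb48)) e
 (c z e
 (c z e
 (c z e
 (c (a (nat_lit 0x129aaae0000007)) e e)))))))))))
 (c (a (nat_lit 0x2020404021))
 (c (a (nat_lit 0xc152860428745))
 (c (a (nat_lit 0xc554f4fa7800006)) e e) e)
 (c (a (nat_lit 0x20202032e5)) e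
 (c (a (nat_lit 0x20203231c5))
 (c (a (nat_lit 0x2162713a06)) e
 (c (a (nat_lit 0x101482f1d0f07)) e
 (c z e
 (c (a (nat_lit 0x1a52883a31229)) e e))))
 (c (a (nat_lit 0x3069c887))
 (c (a (nat_lit 0x21882cb1c727)) e e)
 (c (a (nat_lit 0x106a290267)) e
 (c (a (nat_lit 0x11950e402766))
 (c (a (nat_lit 0x9cc3ced00a008)) e e)
 (c z e
 (c z e
 (c z e
 (c (a (nat_lit 0x1fcd402025c6)) e
 (c (a (nat_lit 0x1a40202b6b65)) e
 (c (a (nat_lit 0x221a0c1e701)) e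
 (c (a (nat_lit 0x2020dac4)) e
 (c (a (nat_lit 0x40613b33c4)) e
 (c z e
 (c (a (nat_lit 0x32470665e5)) e
 (c (a (nat_lit 0x1a03c1400004)) e e))))))))))))))))))))))
 C688))) Tr.c Tr.e (nat_lit 0) C.cx C.cy
noncomputable def C691 : Tr := beta% (fun (c : Nat → Tr → Tr → Tr) (e : Tr) (z : Nat) (a b : Nat → Nat) =>
 (c (nat_lit 1)
 (c (a (nat_lit 0x2020374066))
 (c z e
 (c (a (nat_lit 0x3e4c634bd8e26))
 (c (a (nat_lit 0x127322e000000006)) e e) e))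
 (c (a (nat_lit 0x203aa3c306))
 (c (b (nat_lit 0x240ebd6b4bfe6))
 (c (a (nat_lit 0x1a03a00000000005)) e e) e)
 (c z e
 (c z e
 (c (a (nat_lit 0xaca4aff16e6))
 (c (a (nat_lit 0x89794806d5047)) e e)
 (c z e
 (c z e
 (c (a (nat_lit 0x1651c0202006)) e
 (c (a (nat_lit 0x1a0868604166)) e
 (c (a (nat_lit 0x203b3d4be4)) e
 (c (a (nat_lit 0x5b3152b8b45)) e
 (c (a (nat_lit 0x11b3ca29ea25)) e
 (c (a (nat_lit 0x1340604044e4)) e
 (c (b (nat_lit 0x3e1e355ffe2)) e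
 (c z e
 (c (a (nat_lit 0xc10c0804004)) e
 (c (a (nat_lit 0x10c040000004)) e e)))))))))))))))))
 (c (a (nat_lit 0x20202021))
 (c (a (nat_lit 0x66af3eb6ba4))
 (c (a (nat_lit 0x4852d7065a1c5)) e
 (c (a (nat_lit 0x7ae19ce076386)) e
 (c z e
 (c z e
 (c z e
 (c (b (nat_lit 0xd0afff4baca26)) e
 (c z e
 (c (a (nat_lit 0x19c5c000000004)) e e))))))))
 (c (a (nat_lit 0x48a0645b446))
 (c (a (nat_lit 0x998710b82a686)) e
 (c z e
 (c z e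
 (c z e
 (c (a (nat_lit 0x2632cb0a08007)) e e)))))
 (c z e
 (c z e
 (c (a (nat_lit 0xddbd94d4d26)) e
 (c (a (nat_lit 0x179509292186)) e
 (c z e
 (c z e
 (c (a (nat_lit 0xcd2e88e2783)) e
 (c (a (nat_lit 0x17cd932042e3)) e
 (c (b (nat_lit 0x1fe84041d163)) e
 (c (a (nat_lit 0xc824613c763)) e
 (c z e
 (c (b (nat_lit 0x1ff8a323e0e2)) e
 (c (a (nat_lit 0x18c040800002)) e
 (c (nat_lit 1) e e))))))))))))))))
 (c (nat_lit 1)
 (c (a (nat_lit 0x74604d42e45))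
 (c (a (nat_lit 0x1c381341678484)) e
 (c z e
 (c z e
 (c (a (nat_lit 0x1a237e0a1c047)) e
 (c (a (nat_lit 0x652b560400006)) e e)))))
 (c z e
 (c z e
 (c (a (nat_lit 0x126fc3c3c1a6)) e
 (c (a (nat_lit 0x1a0e2e2689c6)) e
 (c (a (nat_lit 0xd6d6fd56e05)) e
 (c z e
 (c (a (nat_lit 0x191f596d0ea4)) e
 (c (a (nat_lit 0x7e820611303)) e
 (c (a (nat_lit 0x120cae750da4)) e
 (c z e
 (c (a (nat_lit 0xf318e0e2e25)) e
 (c (a (nat_lit 0x1b4040408002)) e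
 (c (nat_lit 1) e e))))))))))))))
 (c (a (nat_lit 0xa0a0a0a1))
 (c (a (nat_lit 0xc1170eb0aa6))
 (c z e
 (c (a (nat_lit 0x621362a28e486)) e e))
 (c (a (nat_lit 0x1dd880604045))
 (c (b (nat_lit 0x1ff060c0802007)) e
 (c (a (nat_lit 0x16c140e0000006)) e e))
 (c (b (nat_lit 0x1804447fe2e5)) e
 (c z e
 (c z e
 (c (a (nat_lit 0x1799fa35b685)) e
 (c (a (nat_lit 0x101260631a22)) e
 (c (a (nat_lit 0x11eed0762fc4)) e
 (c z e
 (c (a (nat_lit 0xf372f2d8c43)) e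
 (c (a (nat_lit 0x1463a0804002)) e
 (c (a (nat_lit 0x801a0400001)) e
 (c (a (nat_lit 0x2c000000001)) e e)))))))))))))
 (c (a (nat_lit 0x40404041))
 (c (a (nat_lit 0x184020202164))
 (c (a (nat_lit 0x13608040200006)) e e)
 (c (a (nat_lit 0x4dafd0e6)) e
 (c z e
 (c (a (nat_lit 0xe10308f6e28)) e
 (c (a (nat_lit 0x13764f4581c5)) e
 (c (a (nat_lit 0x13c5879048c4)) e
 (c z e
 (c (a (nat_lit 0xd142ceb8bc4)) e
 (c (a (nat_lit 0x118280206103)) e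
 (c (a (nat_lit 0x920a0c1c001)) e
 (c (a (nat_lit 0x20000001)) e e)))))))))))
 (c (a (nat_lit 0xa0808081))
 (c (a (nat_lit 0x1eff3d37405)) e
 (c (a (nat_lit 0x187c5bd932e6)) e
 (c z e
 (c z e
 (c z e
 (c (a (nat_lit 0x1158a8416023)) e
 (c (a (nat_lit 0x17c7a0c04b63)) e
 (c (a (nat_lit 0x1008200c1)) e
 (c (a (nat_lit 0x40c1000001)) e
 (c (a (nat_lit 0x2000000001)) e e))))))))))
 (c (nat_lit 1)
 (c (a (nat_lit 0x1e7dfe9ea3c5)) e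
 (c z e
 (c z e
 (c (a (nat_lit 0xd76e6e0e203)) e
 (c (a (nat_lit 0xa82c04059e4)) e
 (c (a (nat_lit 0x2c0a0a08001)) e
 (c (a (nat_lit 0xe140c04001)) e
 (c (a (nat_lit 0x120a0000001)) e e))))))))
 (c (a (nat_lit 0x40404041))
 (c z e
 (c (a (nat_lit 0x2fff49349a3)) e
 (c (a (nat_lit 0x601c0203045)) e
 (c (a (nat_lit 0xc100e06001)) e
 (c (a (nat_lit 0xc0608021)) e
 (c (a (nat_lit 0x28200800001)) e
 (c (a (nat_lit 0x16000000001)) e e)))))))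
 (c (a (nat_lit 0x60606041))
 (c (a (nat_lit 0x2e0e0203005)) e
 (c (a (nat_lit 0x18100e0a001)) e
 (c (a (nat_lit 0x814080e0c1)) e
 (c (a (nat_lit 0x140e0c08001)) e
 (c (a (nat_lit 0x60000001)) e e)))))
 (c (a (nat_lit 0x20202021))
 (c (a (nat_lit 0x6060406061)) e
 (c (a (nat_lit 0x808080a021)) e
 (c (a (nat_lit 0x10120800001)) e
 (c (a (nat_lit 0xa000000001)) e e))))
 (c (nat_lit 1)
 (c (a (nat_lit 0x4040400001)) e
 (c (a (nat_lit 0x10080000001)) e e))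
 (c (a (nat_lit 0x80808081))
 (c (a (nat_lit 0x4000000001)) e e)
 (c (a (nat_lit 0x80808081)) e
 (c (a (nat_lit 0x60404041)) e
 (c (a (nat_lit 0x60808021)) e
 (c (a (nat_lit 0x20203245)) e
 (c (a (nat_lit 0x1e1d40b45)) e
 (c (a (nat_lit 0x6384f8345)) e
 (c (a (nat_lit 0x162d613e05)) e
 (c (a (nat_lit 0xc603d3aa5)) e
 (c z e
 (c (a (nat_lit 0x1cfaa2e2e5)) e
 (c (a (nat_lit 0x17e0202005)) e
 (c (a (nat_lit 0x120800001)) e e))))))))))))))))))))))))) Tr.c Tr.e (nat_lit 0) C.cx C.cy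
noncomputable def C692 : Tr := beta% (fun (c : Nat → Tr → Tr → Tr) (e : Tr) (z : Nat) (a b : Nat → Nat) =>
 (c (nat_lit 1)
 (c (a (nat_lit 0x2020202021))
 (c (a (nat_lit 0x17b6ad2f04a4a5))
 (c z e
 (c z e
 (c z e
 (c z e
 (c (a (nat_lit 0x9aa2d29e741ddc6)) e e)))))
 (c (a (nat_lit 0xe32b023434646))
 (c (a (nat_lit 0x187b795d39352726)) e e)
 (c z e
 (c z e
 (c z e
 (c (b (nat_lit 0x1fffffe7035166))
 (c (a (nat_lit 0x12f04bc546236007)) e e)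
 (c z e
 (c z e
 (c z e
 (c (a (nat_lit 0xf57722bc6c2e7)) e
 (c z e
 (c z e
 (c z e
 (c (a (nat_lit 0x1433f6141c6d86)) e
 (c (a (nat_lit 0x12b532cf000006)) e
 (c (a (nat_lit 0x1ecd0000000005)) e e))))))))))))))))
 (c (a (nat_lit 0x6060606061))
 (c (a (nat_lit 0x122a6020232c66))
 (c (a (nat_lit 0x120fd4cf8e87eb46)) e
 (c z e
 (c z e
 (c z e
 (c (a (nat_lit 0x60194f3eee9ab68)) e e)))))
 (c z e
 (c z e
 (c (b (nat_lit 0x1fffea52c95586)) e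
 (c (a (nat_lit 0x5f05130395966))
 (c (a (nat_lit 0x18580afbc8800007)) e e)
 (c z e
 (c z e
 (c z e
 (c (a (nat_lit 0x1113122c696648)) e
 (c z e
 (c z e
 (c z e
 (c (a (nat_lit 0x10913a3468e006)) e
 (c (a (nat_lit 0x871a040000006)) e
 (c (a (nat_lit 0x11600000000006)) e e)))))))))))))))
 (c (a (nat_lit 0x2040404041))
 (c z e
 (c z e
 (c z e
 (c z e
 (c z e
 (c z e
 (c z e
 (c z e
 (c z e
 (c z e
 (c z e
 (c (a (nat_lit 0x14cac020200006)) e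
 (c (a (nat_lit 0x15a02000000005)) e e)))))))))))))
 (c (a (nat_lit 0xc0c0c0c0c1)) e
 (c (a (nat_lit 0x4060404041))
 (c z e
 (c (a (nat_lit 0x2f97444131e5)) e
 (c z e
 (c z e
 (c z e
 (c (a (nat_lit 0x133739f286e087)) e e))))))
 (c (a (nat_lit 0x2020203a45))
 (c (a (nat_lit 0x183d8d47d44ca4)) e
 (c z e
 (c z e
 (c z e
 (c (a (nat_lit 0x58f70ea4844c8)) e e)))))
 (c (a (nat_lit 0x2cd1c6)) e
 (c (a (nat_lit 0x20338f8c87)) e
 (c z e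
 (c (a (nat_lit 0xf336e658127))
 (c (a (nat_lit 0x566134d406009)) e e)
 (c z e
 (c z e
 (c (a (nat_lit 0xb7151e8c8c7)) e
 (c (a (nat_lit 0x115260202206)) e
 (c (a (nat_lit 0x12602021e326)) e
 (c (a (nat_lit 0x21261fe4)) e
 (c (a (nat_lit 0xa8bfe1404)) e
 (c (a (nat_lit 0x1f44a4a24)) e
 (c (b (nat_lit 0x1ff561a13c63)) e
 (c (a (nat_lit 0xca2c2b02624)) e e))))))))))))))))))))
 (c (a (nat_lit 0x40404041))
 (c (nat_lit 1)
 (c (a (nat_lit 0xc25c584f7fe44))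
 (c (a (nat_lit 0xc2eed0eec9336c5)) e
 (c (a (nat_lit 0x12f1ce0f0edaf6a6)) e
 (c z e
 (c (a (nat_lit 0x705eef909828a07)) e
 (c (a (nat_lit 0x1136f4920e561e7)) e e)))))
 (c (a (nat_lit 0x2e2c32c32eb46))
 (c (a (nat_lit 0xbe768248e4edb47)) e e)
 (c z e
 (c (a (nat_lit 0xbc3408078c4))
 (c z e
 (c (a (nat_lit 0x14eaa9b0a9400007)) e e))
 (c (a (nat_lit 0x722004590f565)) e
 (c z e
 (c z e
 (c (a (nat_lit 0xf31f6ee8382a6)) e
 (c (a (nat_lit 0xf328f0c87ad07)) e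
 (c z e
 (c z e
 (c (a (nat_lit 0xa2910cf126846)) e
 (c (a (nat_lit 0xa52508a400006)) e
 (c (a (nat_lit 0x1f0de000000005)) e e))))))))))))))
 (c (a (nat_lit 0x4040404041))
 (c z e
 (c z e
 (c z e
 (c z e
 (c z e
 (c z e
 (c z e
 (c z e
 (c z e
 (c (a (nat_lit 0x5228713d414a7)) e
 (c (a (nat_lit 0xe7797574ca006)) e
 (c (a (nat_lit 0x17d78240000005)) e
 (c (a (nat_lit 0x15200000000005)) e e)))))))))))))
 (c (a (nat_lit 0x2020202021))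
 (c z e
 (c z e
 (c z e
 (c z e
 (c z e
 (c z e
 (c z e
 (c z e
 (c z e
 (c (a (nat_lit 0x94e136b000008)) e
 (c (a (nat_lit 0x16d0e000000007)) e e)))))))))))
 (c (a (nat_lit 0x2020203cc5))
 (c z e
 (c (b (nat_lit 0x1ffef80ea9b685)) e
 (c z e
 (c z e
 (c z e
 (c (b (nat_lit 0x11f997cee7bfe7)) e
 (c z e
 (c z e
 (c (a (nat_lit 0x11916180000004)) e e)))))))))
 (c (a (nat_lit 0x20203b1965))
 (c (a (nat_lit 0xec6e045732ba5)) e
 (c z e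
 (c z e
 (c (a (nat_lit 0xbd636922e69a7)) e
 (c (a (nat_lit 0x10cf70ee457c48)) e e)))))
 (c (a (nat_lit 0x3a7c1385)) e
 (c (a (nat_lit 0x124e48cae6)) e
 (c (a (nat_lit 0x1191cf4debe7))
 (c z e
 (c (a (nat_lit 0x8cc1533654009)) e e))
 (c (a (nat_lit 0xd0b708e8a87))
 (c (a (nat_lit 0xc5dfb64200008)) e e)
 (c z e
 (c (a (nat_lit 0xdf18f2bebe8)) e
 (c (a (nat_lit 0x16cd40202226)) e
 (c (a (nat_lit 0x1a8020247885)) e
 (c (a (nat_lit 0x20551ac5)) e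
 (c (a (nat_lit 0x751af0c5)) e
 (c (b (nat_lit 0x1ffb2124a743)) e
 (c (b (nat_lit 0xb1fe0217824)) e
 (c (a (nat_lit 0x142d96e44)) e e))))))))))))))))))
 (c (a (nat_lit 0x40404041))
 (c (a (nat_lit 0x2040402021))
 (c (a (nat_lit 0x70493ab0a4b84))
 (c (a (nat_lit 0x2607101658b2c5)) e e)
 (c z e
 (c z e
 (c z e
 (c z e
 (c (a (nat_lit 0x129695f0690f27)) e
 (c z e
 (c z e
 (c z e
 (c (b (nat_lit 0x1fffe58590e006)) e
 (c (a (nat_lit 0x148b0b9a200004)) e e)))))))))))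
 (c (a (nat_lit 0x2020203b06))
 (c z e
 (c z e
 (c z e
 (c z e
 (c z e
 (c z e
 (c z e
 (c z e
 (c z e
 (c (a (nat_lit 0x10342f40000008)) e
 (c (a (nat_lit 0x13400000000006)) e e)))))))))))
 (c (a (nat_lit 0x203b0da6)) e
 (c (a (nat_lit 0x203494f306)) e
 (c z e
 (c (a (nat_lit 0x153532aefb47))
 (c (a (nat_lit 0x88690a9c02d48)) e e)
 (c z e
 (c z e
 (c z e
 (c (a (nat_lit 0x19d380202286)) e
 (c (a (nat_lit 0x1380202aaa46)) e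
 (c (a (nat_lit 0x4020407b44)) e
 (c (a (nat_lit 0x3e402df2fa4)) e
 (c (a (nat_lit 0x645b40c2c05)) e
 (c (b (nat_lit 0x1fff60802aa3)) e
 (c (a (nat_lit 0x1fc140ab0183)) e e))))))))))))))))
 C691)))) Tr.c Tr.e (nat_lit 0) C.cx C.cy
noncomputable def C693 : Tr := beta% (fun (c : Nat → Tr → Tr → Tr) (e : Tr) (z : Nat) (a b : Nat → Nat) =>
 (c (a (nat_lit 0x2001))
 (c (a (nat_lit 0x10101011cd5c4))
 (c (a (nat_lit 0x48566062a5dcf23))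
 (c z e
 (c (a (nat_lit 0xa87c8e631d93689a6))
 (c (a (nat_lit 0x262a504414b8e933769)) e e)
 (c z e
 (c z e
 (c z e
 (c z e
 (c z e
 (c (a (nat_lit 0xf8e02623c0a1a2c7)) e
 (c (a (nat_lit 0x114280416101400007)) e e)))))))))
 (c (a (nat_lit 0x24282aa77fa3f85)) e
 (c z e
 (c z e
 (c (a (nat_lit 0x9bbce45874b8025))
 (c (a (nat_lit 0xccacec788348622c7)) e e)
 (c z e
 (c z e
 (c (a (nat_lit 0xcad81ee3032a0e4)) e
 (c (a (nat_lit 0xfaad31393fb7564)) e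
 (c (a (nat_lit 0x429492a63d0f545)) e
 (c (a (nat_lit 0x7084b252d9443c5)) e
 (c z e
 (c z e
 (c (a (nat_lit 0x545086573c00007)) e
 (c (a (nat_lit 0x271c38000000005)) e e)))))))))))))))
 (c (a (nat_lit 0x20203552d267))
 (c z e
 (c z e
 (c z e
 (c z e
 (c z e
 (c z e
 (c z e
 (c z e
 (c (b (nat_lit 0x6e3043ff11fcd67)) e e)))))))))
 (c (a (nat_lit 0x203e5cdbeaa6)) e
 (c (a (nat_lit 0x41bf877ed4ca6)) e
 (c (a (nat_lit 0x1976786936e286))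
 (c (a (nat_lit 0x35007942950ee07)) e
 (c z e
 (c z e
 (c z e
 (c z e
 (c (a (nat_lit 0xa4d30a96dadb368)) e e))))))
 (c z e
 (c z e
 (c z e
 (c (a (nat_lit 0x130600e0a128a5))
 (c (a (nat_lit 0x293c8632361c188)) e
 (c (a (nat_lit 0x16a9c40400800008)) e
 (c (a (nat_lit 0x1acf6a8000000006)) e e)))
 (c (a (nat_lit 0x2e0404387d006))
 (c (a (nat_lit 0x1967c76080000006)) e
 (c (a (nat_lit 0x1eb6800000000005)) e e))
 (c (a (nat_lit 0x2043f21a9a86)) e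
 (c z e
 (c z e
 (c (a (nat_lit 0x1195d6f3722747)) e
 (c (a (nat_lit 0x11d647e844a505)) e
 (c z e
 (c z e
 (c (a (nat_lit 0x19a040a2c50162)) e e))))))))))))))))))
 (c (a (nat_lit 0x2020202021))
 (c (a (nat_lit 0x2223abada4947)) e
 (c z e
 (c z e
 (c z e
 (c z e
 (c z e
 (c z e
 (c z e
 (c (a (nat_lit 0x1a1a4cbb47927))
 (c (a (nat_lit 0x1614850000000007)) e e)
 (c z e
 (c z e
 (c z e
 (c z e
 (c z e
 (c z e
 (c z e
 (c (a (nat_lit 0x4ec4aa58001)) e e)))))))))))))))))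
 (c (a (nat_lit 0x4040404041))
 (c z e
 (c z e
 (c z e
 (c z e
 (c (a (nat_lit 0x158f6020222446)) e
 (c z e
 (c z e
 (c z e
 (c z e
 (c z e
 (c z e
 (c z e
 (c z e
 (c z e
 (c z e
 (c (a (nat_lit 0x9e481000001)) e e))))))))))))))))
 (c (a (nat_lit 0x2020202021))
 (c z e
 (c (a (nat_lit 0x177fd58cccb667)) e
 (c (a (nat_lit 0x1167e02024ab07)) e
 (c (a (nat_lit 0xa4908c9f53626)) e
 (c z e
 (c z e
 (c z e
 (c z e
 (c z e
 (c z e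
 (c (a (nat_lit 0xcce502e6de868)) e
 (c (a (nat_lit 0x78daaeb4cd5e6)) e e))))))))))))
 (c (nat_lit 1)
 (c (a (nat_lit 0x14ac0020ab2c26))
 (c (a (nat_lit 0x144eaca78d7335c6)) e
 (c z e
 (c z e
 (c z e
 (c z e
 (c (a (nat_lit 0x8d259fae9600008)) e e))))))
 (c z e
 (c z e
 (c z e
 (c z e
 (c (a (nat_lit 0x14dd550502b407)) e
 (c z e
 (c z e
 (c z e
 (c (a (nat_lit 0x6514cee4da628)) e
 (c (a (nat_lit 0x1228ee2ead2ea7)) e e)))))))))))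
 (c (a (nat_lit 0x6060604041)) e
 (c (a (nat_lit 0x8080808081))
 (c (a (nat_lit 0xe10d03261a0a5))
 (c (a (nat_lit 0x89205d0aaf1e4c6)) e
 (c (a (nat_lit 0x120b6bc88e000007)) e e))
 (c (a (nat_lit 0xfd330a040e066))
 (c (a (nat_lit 0x104445ea00000007)) e e) e))
 (c (a (nat_lit 0x6060606061))
 (c (a (nat_lit 0x14d1a22321c465)) e e)
 (c (nat_lit 1)
 (c (a (nat_lit 0x929f06f0f4fa5)) e
 (c (a (nat_lit 0x3c101c1fe85)) e
 (c (a (nat_lit 0x36222c392f7e7)) e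
 (c z e
 (c z e
 (c (a (nat_lit 0xace704aa1aa08)) e
 (c (a (nat_lit 0xe17b805c00006)) e e)))))))
 (c (a (nat_lit 0x10e6))
 (c (a (nat_lit 0xa080404055e6)) e
 (c (a (nat_lit 0x30383ea3cfe07)) e
 (c z e
 (c z e
 (c (a (nat_lit 0x5d699299a4007)) e
 (c (a (nat_lit 0xd322480000007)) e e))))))
 (c (a (nat_lit 0x201127c6))
 (c (a (nat_lit 0x141412e112ca7)) e e)
 (c (a (nat_lit 0x203013c005)) e
 (c (b (nat_lit 0x5fffffffe1)) e
 (c (a (nat_lit 0xd2fcc2038a6)) e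
 (c (a (nat_lit 0xd298038d386)) e
 (c z e
 (c z e
 (c (a (nat_lit 0x1fd1c0202005)) e
 (c (a (nat_lit 0x11c040202b25)) e
 (c (a (nat_lit 0x40402b5025)) e
 (c (a (nat_lit 0x402b3036c5)) e
 (c z e
 (c (a (nat_lit 0x11161ca18185)) e
 (c (a (nat_lit 0x147b00200005)) e e))))))))))))))))))))))))) Tr.c Tr.e (nat_lit 0) C.cx C.cy
noncomputable def C694 : Tr := beta% (fun (c : Nat → Tr → Tr → Tr) (e : Tr) (z : Nat) (a b : Nat → Nat) =>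
 (c (a (nat_lit 0x2020202021))
 (c (a (nat_lit 0x102e2da7)) e
 (c (a (nat_lit 0x203ddb1a0b27)) e
 (c z e
 (c z e
 (c z e
 (c z e
 (c z e
 (c z e
 (c z e
 (c z e
 (c z e
 (c z e
 (c z e
 (c z e
 (c z e
 (c z e
 (c (a (nat_lit 0x184a5478ce0a1)) e
 (c (a (nat_lit 0xa46ca0c400001)) e e))))))))))))))))))
 (c (a (nat_lit 0x4040404041))
 (c z e
 (c (b (nat_lit 0x1df9b8d1805fe7))
 (c (a (nat_lit 0xe0e0dcff0111287))
 (c (a (nat_lit 0xa043584872c552d86)) e e)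
 (c z e
 (c z e
 (c z e
 (c (a (nat_lit 0x14d61827edcc68a7)) e
 (c z e
 (c z e
 (c z e
 (c (a (nat_lit 0x628964c88c00008)) e e)))))))))
 (c z e
 (c z e
 (c (a (nat_lit 0xa9b9a40402405)) e
 (c (a (nat_lit 0x1bda4060644805))
 (c (a (nat_lit 0x8d059525bf5a1e6)) e e)
 (c z e
 (c z e
 (c z e
 (c (a (nat_lit 0xe70f2b6f58e26)) e
 (c z e
 (c z e
 (c z e
 (c (a (nat_lit 0x2ac714ecb1025)) e
 (c (a (nat_lit 0x78c6ae62b56e5)) e
 (c z e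
 (c (a (nat_lit 0x154dcb20000004)) e e)))))))))))))))))
 (c (a (nat_lit 0x2020202021))
 (c (a (nat_lit 0x17f736e9048286))
 (c (a (nat_lit 0xc53f6f8b5595465)) e
 (c z e
 (c z e
 (c (a (nat_lit 0x9cbca690a871387)) e
 (c (a (nat_lit 0xc4f2c14a51e16a6)) e
 (c (a (nat_lit 0x3c38384d10363e8)) e
 (c z e
 (c (a (nat_lit 0xca9d7bb7607c007)) e
 (c (a (nat_lit 0xad9faf0c0000007)) e e)))))))))
 (c z e
 (c z e
 (c (a (nat_lit 0x108a6020222ae6))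
 (c z e
 (c (a (nat_lit 0xc6573195e98ca67)) e e))
 (c (a (nat_lit 0x14c425071c2f25))
 (c (a (nat_lit 0x5185326ba666e7)) e e)
 (c z e
 (c z e
 (c (a (nat_lit 0x1019f433ae0fe6)) e
 (c (a (nat_lit 0x13ce2d7af23366)) e
 (c z e
 (c (a (nat_lit 0xa56dc7dd9dac6)) e
 (c (a (nat_lit 0xd7610b8b264)) e
 (c (a (nat_lit 0xdd20f32b05da5)) e
 (c (a (nat_lit 0xa67eaa7f54a05)) e e))))))))))))))
 (c (nat_lit 1)
 (c (a (nat_lit 0x1f7b160203545))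
 (c (a (nat_lit 0xfb15090128db385)) e
 (c z e
 (c z e
 (c z e
 (c z e
 (c (a (nat_lit 0x66a2eadf4070008)) e e))))))
 (c z e
 (c z e
 (c z e
 (c z e
 (c (a (nat_lit 0x1372ffcd806105)) e
 (c (a (nat_lit 0x165ad60eab0f06)) e
 (c z e
 (c z e
 (c (a (nat_lit 0x4d1b67c375e66)) e
 (c (a (nat_lit 0x5f1adcd3885)) e
 (c (b (nat_lit 0x1feaa5e5718ec5)) e e))))))))))))
 (c (a (nat_lit 0x4040404041))
 (c z e
 (c z e
 (c z e
 (c z e
 (c (a (nat_lit 0x1630ab85a704c6)) e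
 (c z e
 (c z e
 (c z e
 (c z e
 (c (a (nat_lit 0x23f37308a006)) e e))))))))))
 (c (nat_lit 1)
 (c (a (nat_lit 0x1278d06d604003))
 (c (a (nat_lit 0x635705894e3025)) e
 (c (a (nat_lit 0x48fe745116c2006)) e e))
 (c (a (nat_lit 0x183b5160608904))
 (c (a (nat_lit 0xd8be4b970200005)) e e)
 (c z e
 (c z e
 (c z e
 (c (b (nat_lit 0x1fffe08e93bf06)) e
 (c z e
 (c z e
 (c z e
 (c (a (nat_lit 0x4d1b48a20c005)) e
 (c (a (nat_lit 0x13360680000005)) e e)))))))))))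
 (c (a (nat_lit 0x6060404041))
 (c (a (nat_lit 0x19d1a0a08a86e3)) e
 (c z e
 (c z e
 (c (a (nat_lit 0x206081a13885)) e
 (c (b (nat_lit 0x1fe6272715b6a6)) e
 (c (b (nat_lit 0x1831ff1d4c5e6)) e
 (c z e
 (c (a (nat_lit 0x74c97f2c9e4c5)) e
 (c (a (nat_lit 0x893ef85000005)) e
 (c (a (nat_lit 0x1a2a8000000005)) e e))))))))))
 (c (nat_lit 1)
 (c (a (nat_lit 0xf501031b2d285)) e
 (c (a (nat_lit 0x22a10387758e3)) e
 (c (a (nat_lit 0x28948687c64)) e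
 (c z e
 (c z e
 (c (a (nat_lit 0x5cf3518492006)) e
 (c (a (nat_lit 0x1291128c6e005)) e
 (c (a (nat_lit 0x6b84300000004)) e e))))))))
 (c (a (nat_lit 0x2021))
 (c (a (nat_lit 0xab2b4ed481)) e
 (c (a (nat_lit 0x66969498f3625)) e
 (c z e
 (c z e
 (c (b (nat_lit 0x1fffffeb80fd06)) e
 (c (a (nat_lit 0xf0cdc45600004)) e e))))))
 (c (a (nat_lit 0x20203bc4))
 (c (a (nat_lit 0x14121e6e15de5)) e
 (c (a (nat_lit 0x3e021877578a6)) e e))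
 (c (a (nat_lit 0x20203d7464))
 (c (a (nat_lit 0x202a2072cdaa7)) e e)
 (c (a (nat_lit 0x1951e4c4)) e
 (c (a (nat_lit 0x7f30f6a2245))
 (c (a (nat_lit 0x1f1a6000000006)) e e)
 (c (a (nat_lit 0x11ade8a2f665)) e
 (c (a (nat_lit 0xb8642b714c5)) e
 (c (a (nat_lit 0x8c53c39c645)) e
 (c (a (nat_lit 0x7ff1ca92925)) e
 (c (a (nat_lit 0x1613c0204045)) e
 (c (a (nat_lit 0x13a020202665)) e
 (c (b (nat_lit 0x20799fe3)) e
 (c (b (nat_lit 0xe11a811fe3)) e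
 (c (a (nat_lit 0x65fa662a223)) e
 (c (a (nat_lit 0x1ce3c0202003)) e
 (c (a (nat_lit 0xf8080000001)) e e))))))))))))))))))))))))) Tr.c Tr.e (nat_lit 0) C.cx C.cy
noncomputable def C695 : Tr := beta% (fun (c : Nat → Tr → Tr → Tr) (e : Tr) (z : Nat) (a b : Nat → Nat) =>
 (c (a (nat_lit 0x20202001))
 (c z
 (c z e
 (c (a (nat_lit 0xa16cb4bc807e823))
 (c z e
 (c z e
 (c z e
 (c z e
 (c z e
 (c (a (nat_lit 0x999babfc4a349eb06)) e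
 (c (a (nat_lit 0x7adca0a883a866b86)) e
 (c z e
 (c z e
 (c z e
 (c (a (nat_lit 0x1704344a100000007)) e e)))))))))))
 (c (a (nat_lit 0x2306bc08040c683))
 (c z e
 (c z e
 (c z e
 (c z e
 (c (a (nat_lit 0x17b8d7a4addb26eec6)) e
 (c z e
 (c (a (nat_lit 0x3e2a5b7c1c205c5c7)) e
 (c z e
 (c (a (nat_lit 0x8dc09e6ed45800006)) e e)))))))))
 (c (a (nat_lit 0xa698242430612a3)) e
 (c (a (nat_lit 0x762c345122c6623)) e
 (c z e
 (c z e
 (c z e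
 (c z e
 (c z e
 (c z e
 (c z e
 (c z e
 (c (a (nat_lit 0xf4fafb05128e024)) e
 (c (a (nat_lit 0x195959d613f332c4)) e e)))))))))))))))
 (c z
 (c (a (nat_lit 0xa0100c040205625))
 (c z e
 (c z e
 (c z e
 (c z e
 (c z e
 (c z e
 (c z e
 (c z e
 (c (a (nat_lit 0x241d6412202010128)) e
 (c z e
 (c (a (nat_lit 0x17c265e1a000000007)) e e)))))))))))
 (c (a (nat_lit 0xcc8c24242988fe5)) e
 (c (a (nat_lit 0x883a3a77b2bfce5))
 (c z e
 (c z e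
 (c z e
 (c (a (nat_lit 0x1def4543cc427428c7)) e
 (c (a (nat_lit 0xa6b9b6c0aa605a047)) e
 (c z e
 (c (a (nat_lit 0x172462c66382800008)) e
 (c (a (nat_lit 0x11c7c6c2c000000008)) e e))))))))
 (c z e
 (c z e
 (c z e
 (c z e
 (c z e
 (c (a (nat_lit 0x1296926f2b8a0cc4)) e
 (c (a (nat_lit 0x11ef4a0665480bc4)) e
 (c (a (nat_lit 0x106b07488b381664)) e
 (c (b (nat_lit 0x10eff25fefe16004)) e
 (c z e
 (c (a (nat_lit 0x928094849051727)) e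
 (c (a (nat_lit 0x5eaad3200e00005)) e e)))))))))))))))
 (c (a (nat_lit 0x202020203605))
 (c (a (nat_lit 0xa43887069d6d925)) e
 (c z e
 (c z e
 (c z e
 (c z e
 (c z e
 (c (a (nat_lit 0x105852d22fe0a5a4)) e
 (c z e
 (c (a (nat_lit 0x18da98a98b0e0124)) e
 (c (a (nat_lit 0x5e581e285c611e6)) e e))))))))))
 (c (a (nat_lit 0x404040574da5))
 (c (a (nat_lit 0xf16331b5e88ce44))
 (c z e
 (c z e
 (c z e
 (c (a (nat_lit 0x4c567e4352486e9e7)) e e))))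
 (c (a (nat_lit 0x173adc9eb7307d64))
 (c z e
 (c z e
 (c z e
 (c (a (nat_lit 0x1b5c2aa8920ca66006)) e e))))
 (c z e
 (c z e
 (c z e
 (c (a (nat_lit 0x428edeb688051e5)) e
 (c (a (nat_lit 0x8906f26cca3e204)) e
 (c z e
 (c (a (nat_lit 0x5c3434847b792a5)) e
 (c (a (nat_lit 0x3a0c10286885406)) e e))))))))))
 (c (a (nat_lit 0x2c2c2df749285))
 (c (a (nat_lit 0xf4bab2eec326c45)) e
 (c z e
 (c z e
 (c (a (nat_lit 0x7ec36fb99350a84)) e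
 (c (a (nat_lit 0x10d4f3580e30ac65)) e
 (c (a (nat_lit 0x10ce31f20d8ccb45)) e
 (c z e
 (c (a (nat_lit 0x2414202a781b0e7)) e
 (c (a (nat_lit 0x223a48b09b41166)) e e)))))))))
 (c (a (nat_lit 0x20320ccbe586))
 (c z e
 (c z e
 (c z e
 (c (b (nat_lit 0x378edffece59804)) e e))))
 (c z e
 (c (a (nat_lit 0x152c49e74d0c05))
 (c z e
 (c (a (nat_lit 0x3650744454452e7)) e
 (c z e
 (c z e
 (c z e
 (c (a (nat_lit 0xa9099d34d600006)) e e))))))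
 (c (a (nat_lit 0xf6b8bd793a444))
 (c (a (nat_lit 0x206046545bde466)) e
 (c z e
 (c z e
 (c (a (nat_lit 0x461b521e3210008)) e
 (c (a (nat_lit 0x836c924e0000007)) e e)))))
 (c (a (nat_lit 0x88938d6874704))
 (c z e
 (c (a (nat_lit 0x3e4b3ef4266c2e7)) e e))
 (c (a (nat_lit 0x4957202c2c2e4))
 (c (a (nat_lit 0x14c9781a7e0c006)) e
 (c (a (nat_lit 0x18afe663e0000007)) e e))
 (c (a (nat_lit 0x1310a18301ac24)) e
 (c (a (nat_lit 0xca5252bf1efa5)) e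
 (c (a (nat_lit 0x9090a15f3d2e5)) e
 (c (a (nat_lit 0x12b9fefd9c9c05)) e
 (c (a (nat_lit 0x6756fcf2d01e3)) e
 (c (a (nat_lit 0x17af8bce2685a3)) e
 (c (a (nat_lit 0x15f2148d0c6c83)) e
 (c (a (nat_lit 0x1b5dd655b5d543)) e
 (c (a (nat_lit 0x14052343e3c362)) e e))))))))))))))))))))
 (c (a (nat_lit 0x2020202021))
 (c (a (nat_lit 0x202020203345))
 (c (a (nat_lit 0x5c282c2c31b54c4))
 (c z e
 (c (a (nat_lit 0x868082a4a32fa7627))
 (c (a (nat_lit 0x180c105a340763ada49)) e e)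
 (c z e
 (c z e
 (c z e
 (c z e
 (c z e
 (c z e
 (c (a (nat_lit 0x31440e0a1a060c008)) e e)))))))))
 (c (a (nat_lit 0x50324c6d1309326))
 (c z e
 (c z e
 (c z e
 (c z e
 (c (a (nat_lit 0x110b4908298aec47a9)) e
 (c z e
 (c z e
 (c z e
 (c (a (nat_lit 0x18121004c000000007)) e e)))))))))
 (c z e
 (c z e
 (c (a (nat_lit 0xaf596ad45e68c26))
 (c (a (nat_lit 0xf715475cd8b10aa08)) e e)
 (c z e
 (c z e
 (c z e
 (c (a (nat_lit 0xaaa84e26162b5e5)) e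
 (c (a (nat_lit 0xac342412266d4c5)) e
 (c (a (nat_lit 0x4636585e7eb7306)) e
 (c z e
 (c z e
 (c (a (nat_lit 0x766070bc519c007)) e
 (c (a (nat_lit 0x7a9db80a0000005)) e e)))))))))))))))
 (c (a (nat_lit 0x187166))
 (c z e
 (c z e
 (c z e
 (c z e
 (c z e
 (c z e
 (c z e
 (c (a (nat_lit 0x10af6d65c5aecdc6)) e
 (c (a (nat_lit 0x645a2e3832a78c7)) e e)))))))))
 (c (a (nat_lit 0x202035d2b127)) e
 (c (a (nat_lit 0x20312b49e427))
 (c z e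
 (c z e
 (c z e
 (c z e
 (c z e
 (c z e
 (c (b (nat_lit 0x56649bfe6839767)) e e)))))))
 (c (a (nat_lit 0x34ecec626c87))
 (c (a (nat_lit 0x78b34d7f773b267))
 (c (a (nat_lit 0x1c30b5700a2924c007)) e e)
 (c z e
 (c z e
 (c z e
 (c z e
 (c (b (nat_lit 0xb075fe9c82d7847)) e e))))))
 (c z e
 (c z e
 (c z e
 (c (a (nat_lit 0x1896b1c4c44465))
 (c z e
 (c (a (nat_lit 0x1954ba2e781a008)) e e))
 (c (a (nat_lit 0x152ee1a2023fc5))
 (c (a (nat_lit 0x71442a720800007)) e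
 (c (a (nat_lit 0x1b0827e000000007)) e e))
 (c (a (nat_lit 0x923a3ea1a5006)) e
 (c z e
 (c z e
 (c (a (nat_lit 0xdd73294918f27)) e
 (c (a (nat_lit 0x1e6b12e745e145)) e
 (c z e
 (c z e
 (c (a (nat_lit 0x1171ea6241c3e4)) e
 (c (a (nat_lit 0x11aa4201c22004)) e
 (c (a (nat_lit 0x10402040000003)) e e))))))))))))))))))))
 C694))) Tr.c Tr.e (nat_lit 0) C.cx C.cy
noncomputable def C696 : Tr := beta% (fun (c : Nat → Tr → Tr → Tr) (e : Tr) (z : Nat) (a b : Nat → Nat) =>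
 (c (nat_lit 1)
 (c (a (nat_lit 0x40404041)) C695
 (c (a (nat_lit 0x40404041)) C693
 (c (a (nat_lit 0x60606061))
 (c (a (nat_lit 0x4040404041))
 (c z e
 (c z e
 (c z e
 (c z e
 (c (a (nat_lit 0x410eae02021c7)) e
 (c (a (nat_lit 0x1d9300402381a6)) e
 (c z e
 (c z e
 (c z e
 (c z e
 (c z e
 (c z e
 (c z e
 (c z e
 (c z e
 (c (a (nat_lit 0x312c2a28245)) e
 (c (a (nat_lit 0xd06060600005)) e
 (c (a (nat_lit 0x10602000000005)) e e))))))))))))))))))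
 (c (a (nat_lit 0x4040404041))
 (c z e
 (c z e
 (c z e
 (c z e
 (c (a (nat_lit 0x1f6a2a0b07d946)) e
 (c z e
 (c z e
 (c z e
 (c z e
 (c z e
 (c z e
 (c z e
 (c z e
 (c z e
 (c (b (nat_lit 0x1ff1a0e0c06005)) e
 (c (a (nat_lit 0x11618060000005)) e e))))))))))))))))
 (c (a (nat_lit 0x2020202021))
 (c z e
 (c z e
 (c (a (nat_lit 0x1fc2624951bec6)) e e)))
 (c (a (nat_lit 0x4040404041)) e
 (c (a (nat_lit 0x4040404041)) e
 (c (a (nat_lit 0x2020404021)) e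
 (c (a (nat_lit 0x6060606061)) e
 (c (a (nat_lit 0x20202032a5)) e
 (c (a (nat_lit 0x2020366b06))
 (c (a (nat_lit 0x162c7c73507)) e e)
 (c (a (nat_lit 0x3fdbf666)) e
 (c z e
 (c z e
 (c z e
 (c z e
 (c z e
 (c (a (nat_lit 0x11ac80202027)) e
 (c (a (nat_lit 0x18e020204066)) e
 (c (a (nat_lit 0x20209ba5)) e
 (c (a (nat_lit 0x204df186)) e e)))))))))))))))))))
 C692)))
 (c (nat_lit 1) C690
 (c (a (nat_lit 0x202021))
 (c (nat_lit 1) C686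
 C685)
 (c (nat_lit 1) C683
 (c (nat_lit 1) C681
 (c (nat_lit 1)
 (c (a (nat_lit 0x40404041))
 (c (a (nat_lit 0x9e484a83c84))
 (c (a (nat_lit 0x5f08824e483a5)) e
 (c z e
 (c z e
 (c (a (nat_lit 0xecd33086b49e5)) e
 (c (a (nat_lit 0x1591f99c3639c4)) e
 (c (a (nat_lit 0xe83deeda08385)) e
 (c z e
 (c (a (nat_lit 0xe050e6202007)) e e))))))))
 (c z e
 (c z e
 (c (a (nat_lit 0x89cb0c1a1a5))
 (c (a (nat_lit 0x13b577912dd5e5)) e
 (c (a (nat_lit 0xd6d12114aab46)) e e))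
 (c (a (nat_lit 0x19ef60402025))
 (c (a (nat_lit 0x630d6c0806025)) e
 (c (a (nat_lit 0x1dc8661204005)) e
 (c (a (nat_lit 0x3ae2e0000003)) e e)))
 (c (a (nat_lit 0x1e6020202004))
 (c (a (nat_lit 0x10c060c0400005)) e e)
 (c (a (nat_lit 0x343e282e1)) e
 (c (a (nat_lit 0xa3634341)) e
 (c (a (nat_lit 0x364242140c1)) e
 (c (a (nat_lit 0x120a040a1)) e
 (c (a (nat_lit 0x2020203605)) e
 (c (a (nat_lit 0x20055b10e5)) e
 (c (a (nat_lit 0xe61bf1c105)) e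
 (c (a (nat_lit 0x79245a50506)) e
 (c (a (nat_lit 0x1ac160202005)) e
 (c (a (nat_lit 0x14e100000001)) e e))))))))))))))))
 (c (a (nat_lit 0x40404041))
 (c z e
 (c z e
 (c (a (nat_lit 0x1a0fed4d4b86))
 (c (a (nat_lit 0x27dbdd1a9765)) e
 (c (b (nat_lit 0x1fed5a4dcdcba6)) e
 (c (b (nat_lit 0x1ff7bffd6d8005)) e
 (c (b (nat_lit 0x183ffe00000004)) e e))))
 (c (a (nat_lit 0x1aa020202025))
 (c (a (nat_lit 0x1cd760c100c045)) e
 (c (a (nat_lit 0x17e0c0e0600006)) e e))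
 (c (a (nat_lit 0x2221e1e001)) e
 (c (a (nat_lit 0xa101a2c281)) e
 (c (a (nat_lit 0x1a221e20161)) e
 (c (a (nat_lit 0x242c2610001)) e
 (c (a (nat_lit 0x4060403104)) e
 (c (a (nat_lit 0x2029e8d545)) e
 (c (a (nat_lit 0x29ee1a8e65)) e
 (c z e
 (c (a (nat_lit 0xdbb6e602025)) e
 (c (a (nat_lit 0x1b4e60200005)) e e))))))))))))))
 (c (a (nat_lit 0x20402021))
 (c (a (nat_lit 0x102800404025))
 (c (a (nat_lit 0x180c094a10103)) e
 (c (a (nat_lit 0x649184e080c5)) e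
 (c (a (nat_lit 0x230710180e085)) e
 (c (a (nat_lit 0x77081a1208005)) e
 (c (b (nat_lit 0x1ff161e0000005)) e e)))))
 (c (a (nat_lit 0x1ec020404004))
 (c (a (nat_lit 0x35220e080c025)) e
 (c (a (nat_lit 0x17eae100c06026)) e
 (c (a (nat_lit 0x1941c180a00005)) e
 (c (a (nat_lit 0x1961c000000005)) e e))))
 (c (a (nat_lit 0x2a1422241a1))
 (c (a (nat_lit 0x150060c0802005)) e e)
 (c (a (nat_lit 0x1c18403e3a1)) e
 (c (a (nat_lit 0x2e162a2a1)) e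
 (c (a (nat_lit 0x14303a30341)) e
 (c (a (nat_lit 0x40607a04)) e
 (c (a (nat_lit 0x2424f3270c7)) e
 (c (a (nat_lit 0x28286e3b1c6)) e e)))))))))
 (c (a (nat_lit 0x20204041))
 (c (a (nat_lit 0xc0c0e041))
 (c (a (nat_lit 0x1800c0c1008063)) e
 (c (a (nat_lit 0x1160e140c06004)) e e))
 (c (a (nat_lit 0xc2c3836281)) e
 (c (a (nat_lit 0x2121814001)) e
 (c (a (nat_lit 0xc20282e3a1)) e
 (c (a (nat_lit 0x2060405324)) e
 (c (a (nat_lit 0x202eb10f27)) e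
 (c (a (nat_lit 0x1eed12f6e07)) e
 (c (a (nat_lit 0x17fe10b96de4)) e
 (c (a (nat_lit 0x92265c63fc5)) e
 (c (a (nat_lit 0xa5a67fa625)) e e))))))))))
 (c (a (nat_lit 0x20202021))
 (c (a (nat_lit 0x181a1c0c001)) e
 (c (a (nat_lit 0x141a180a001)) e
 (c (a (nat_lit 0xe0a05e03)) e
 (c (a (nat_lit 0x203b9f3b46)) e
 (c (a (nat_lit 0xa58dab8d847)) e
 (c (a (nat_lit 0x17793775f3a7)) e
 (c (a (nat_lit 0xb01e0209465)) e
 (c (a (nat_lit 0xa06654d545)) e e))))))))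
 (c (a (nat_lit 0x20202021))
 (c (a (nat_lit 0x1a20221c4e1)) e
 (c (a (nat_lit 0x40563996e6)) e
 (c (a (nat_lit 0x43577158fa7)) e
 (c z e
 (c (a (nat_lit 0x11300d894027)) e
 (c (a (nat_lit 0x4e040916966)) e e))))))
 (c (a (nat_lit 0x60606041))
 (c (a (nat_lit 0x8f728f6fe6)) e
 (c z e
 (c z e
 (c (a (nat_lit 0xdf0d0c4e907)) e
 (c z e
 (c (b (nat_lit 0x1ffaf0e02004)) e
 (c (a (nat_lit 0x12a540000005)) e e)))))))
 (c (a (nat_lit 0x202021))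
 (c (a (nat_lit 0x1cf9bbede366)) e
 (c z e
 (c z e
 (c (a (nat_lit 0x59d4002025)) e
 (c (a (nat_lit 0x1f1905600005)) e
 (c (a (nat_lit 0x1d0000000003)) e e))))))
 (c (a (nat_lit 0x20202041))
 (c z e
 (c (b (nat_lit 0x1ff03af9b526)) e
 (c (a (nat_lit 0x1f314c524004)) e
 (c (a (nat_lit 0x120060000003)) e e))))
 (c (a (nat_lit 0x40404041))
 (c (a (nat_lit 0xda377ee025)) e
 (c (a (nat_lit 0x130020200005)) e
 (c (a (nat_lit 0x8000000001)) e e)))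
 (c (a (nat_lit 0x20203bc3))
 (c (a (nat_lit 0x4020000001)) e e)
 (c (a (nat_lit 0x714a5)) e
 (c (a (nat_lit 0x54c59f485)) e
 (c (a (nat_lit 0xa714e2986)) e
 (c (a (nat_lit 0x10aac175c5)) e
 (c (a (nat_lit 0x9a054ca25)) e
 (c z e
 (c (a (nat_lit 0x19ef80a0c5)) e
 (c (a (nat_lit 0x1e20200024)) e
 (c (a (nat_lit 0x402021)) e
 (c (a (nat_lit 0x80604021)) e
 (c (a (nat_lit 0x80804001)) e
 (c (a (nat_lit 0x60000001)) e e)))))))))))))))))))))))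
 C680))))))) Tr.c Tr.e (nat_lit 0) C.cx C.cy
noncomputable def C697 : Tr := beta% (fun (c : Nat → Tr → Tr → Tr) (e : Tr) (z : Nat) (a b : Nat → Nat) =>
 (c (nat_lit 1)
 (c (a (nat_lit 0x203bcce0c4))
 (c (a (nat_lit 0x121c1d4ab0445)) e
 (c z e
 (c z e
 (c (a (nat_lit 0x146fa302e7a726)) e
 (c (a (nat_lit 0x1334688a11ede6)) e
 (c z e
 (c (a (nat_lit 0xc6faff1ade007)) e
 (c (a (nat_lit 0x193cd3a0000006)) e
 (c (a (nat_lit 0x1d600000000003)) e e)))))))))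
 (c (a (nat_lit 0x48731c66e25))
 (c (a (nat_lit 0x6ae9010cc0626)) e
 (c z e
 (c z e
 (c z e
 (c (b (nat_lit 0x113ffffff60207)) e e)))))
 (c z e
 (c (a (nat_lit 0x174cf1b11205))
 (c (a (nat_lit 0x159cd5e09ca426)) e
 (c (a (nat_lit 0xaf0664b0702a8)) e e))
 (c (a (nat_lit 0x1576f61bf125))
 (c (a (nat_lit 0x17c52a11802006)) e e)
 (c (a (nat_lit 0x17f7b8953526)) e
 (c (a (nat_lit 0x109113939527)) e
 (c (a (nat_lit 0x165319343466)) e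
 (c (a (nat_lit 0x1434391a2c04)) e
 (c (a (nat_lit 0xcf432c4a0c4)) e
 (c (a (nat_lit 0x13b0208059a4)) e
 (c (a (nat_lit 0x10408059cbe4)) e
 (c z e
 (c (a (nat_lit 0xffcb5d5f605)) e
 (c (a (nat_lit 0x1b8020606003)) e
 (c (a (nat_lit 0x40000001)) e e))))))))))))))))
 (c (a (nat_lit 0x60606061))
 (c (a (nat_lit 0x2f3a92f9164))
 (c (a (nat_lit 0xa0fb7b487c7a4)) e
 (c (a (nat_lit 0x74dd069644046)) e
 (c z e
 (c (b (nat_lit 0x649261ff4a4c7)) e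
 (c (a (nat_lit 0x8e42434602006)) e e)))))
 (c (a (nat_lit 0x1ac9d8d3b304))
 (c (b (nat_lit 0x42884235ff227)) e
 (c z e
 (c z e
 (c (a (nat_lit 0xc2c5161e00008)) e e))))
 (c z e
 (c (a (nat_lit 0x1e9dbf79d9a5)) e
 (c (a (nat_lit 0x1111ceaeab06)) e
 (c z e
 (c z e
 (c (a (nat_lit 0xb92afc02004)) e
 (c (a (nat_lit 0x110e66c02c05)) e
 (c (a (nat_lit 0x1222a27a6e84)) e
 (c z e
 (c (b (nat_lit 0x1ff880c06003)) e
 (c (a (nat_lit 0x198320c0e063)) e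
 (c (a (nat_lit 0xa8120c00001)) e
 (c (a (nat_lit 0x8000000001)) e e)))))))))))))))
 (c (a (nat_lit 0x60606061))
 (c (a (nat_lit 0x4b627f08503))
 (c (a (nat_lit 0xba16523d9a625)) e
 (c z e
 (c z e
 (c (a (nat_lit 0x15158360000007)) e e))))
 (c (a (nat_lit 0x1ab838f5d586))
 (c (a (nat_lit 0xbe75b2c914627)) e e)
 (c z e
 (c (a (nat_lit 0x1915defa7c06)) e
 (c z e
 (c (a (nat_lit 0xd72120e8cc6)) e
 (c (a (nat_lit 0x119187402c25)) e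
 (c (a (nat_lit 0x148020584c44)) e
 (c z e
 (c (b (nat_lit 0x1ff5098747a4)) e
 (c (a (nat_lit 0x1a8300408003)) e
 (c (a (nat_lit 0xdc081a10001)) e
 (c (a (nat_lit 0x80000001)) e e)))))))))))))
 (c (a (nat_lit 0x80808081))
 (c (a (nat_lit 0x104de0c0c583))
 (c (b (nat_lit 0x3c5fe5a04005)) e
 (c (b (nat_lit 0x1e1fe520000006)) e e))
 (c (a (nat_lit 0x106e2e321465))
 (c (a (nat_lit 0x14056000000005)) e e)
 (c z e
 (c (a (nat_lit 0x1297783533e7)) e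
 (c (a (nat_lit 0x1214e8e8ea05)) e
 (c (a (nat_lit 0x1840205badc4)) e
 (c z e
 (c (b (nat_lit 0x1fffa5612023)) e
 (c (a (nat_lit 0x1fa420404003)) e
 (c (a (nat_lit 0x12a3006221a1)) e
 (c (a (nat_lit 0x120a0600001)) e
 (c (a (nat_lit 0x2000000001)) e e))))))))))))
 (c (a (nat_lit 0x80808081))
 (c (a (nat_lit 0x283311189e4)) e
 (c (a (nat_lit 0xd90f0ed6d47)) e
 (c z e
 (c (a (nat_lit 0x16f3137001e6)) e
 (c z e
 (c (b (nat_lit 0x1ff443208004)) e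
 (c (a (nat_lit 0x14834020e604)) e
 (c (a (nat_lit 0x41016001)) e
 (c (a (nat_lit 0xc100c08001)) e
 (c (a (nat_lit 0x6080000001)) e e))))))))))
 (c (a (nat_lit 0xe0e0e0e1))
 (c (a (nat_lit 0x1ebedafa8425)) e
 (c z e
 (c z e
 (c (b (nat_lit 0x1ff4236040a4)) e
 (c (a (nat_lit 0x142360409ac4)) e
 (c (a (nat_lit 0x18282208001)) e
 (c (a (nat_lit 0x58380608021)) e
 (c (a (nat_lit 0x48280c00001)) e
 (c (a (nat_lit 0x1e000000001)) e e)))))))))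
 (c (nat_lit 1)
 (c z e
 (c (b (nat_lit 0x1ff4a3a06044)) e
 (c (a (nat_lit 0xa8200403025)) e
 (c (a (nat_lit 0x1208060a0a1)) e
 (c (a (nat_lit 0x181e0e20281)) e
 (c (a (nat_lit 0xc0a08001)) e
 (c (a (nat_lit 0x40000001)) e e)))))))
 (c (a (nat_lit 0x40404041))
 (c (a (nat_lit 0x52100203005)) e
 (c (a (nat_lit 0xc100e081)) e
 (c (a (nat_lit 0xc0c0a081)) e
 (c (a (nat_lit 0x16101014161)) e
 (c (a (nat_lit 0x60400001)) e
 (c (a (nat_lit 0x2000000001)) e e))))))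
 (c (a (nat_lit 0x60606061))
 (c (a (nat_lit 0x6060a080a1)) e
 (c (a (nat_lit 0xa140e100c1)) e
 (c (a (nat_lit 0x100c0e06001)) e
 (c (a (nat_lit 0x100a0000001)) e e))))
 (c (a (nat_lit 0x40404041))
 (c (a (nat_lit 0xa060806021)) e
 (c (a (nat_lit 0xa0e0400001)) e
 (c (a (nat_lit 0xa000000001)) e e)))
 (c (a (nat_lit 0x20202021))
 (c (a (nat_lit 0x6020000001)) e e)
 (c (a (nat_lit 0x80808081)) e
 (c (a (nat_lit 0x40404041)) e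
 (c (a (nat_lit 0xa0a0a0a1)) e
 (c (a (nat_lit 0x20202021)) e
 (c (a (nat_lit 0x20203185)) e
 (c (a (nat_lit 0x1e1f346e5)) e
 (c (a (nat_lit 0xa9bef8c45)) e
 (c (a (nat_lit 0x1f86c04024)) e
 (c (a (nat_lit 0xd404031e3)) e
 (c z e
 (c (a (nat_lit 0xfb8cc2c24)) e
 (c (a (nat_lit 0x1960402003)) e
 (c (a (nat_lit 0x60000001)) e e))))))))))))))))))))))))) Tr.c Tr.e (nat_lit 0) C.cx C.cy
noncomputable def C698 : Tr := beta% (fun (c : Nat → Tr → Tr → Tr) (e : Tr) (z : Nat) (a b : Nat → Nat) =>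
 (c (a (nat_lit 0x20404041))
 (c (a (nat_lit 0x2040402021))
 (c (a (nat_lit 0x9e2402030a825))
 (c z e
 (c (a (nat_lit 0x9c74e0bab3f4387)) e
 (c z e
 (c (b (nat_lit 0xa02a2dff0638427)) e
 (c (a (nat_lit 0x5a5f1782766a6a7)) e e)))))
 (c z e
 (c z e
 (c (b (nat_lit 0x1ffc2ac1203205))
 (c z e
 (c (a (nat_lit 0x1829486968c54008)) e e))
 (c (a (nat_lit 0x1caa6060520505))
 (c (a (nat_lit 0x15b10c4c85a00006)) e
 (c (a (nat_lit 0xe6e1a2000000005)) e e))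
 (c (b (nat_lit 0xb8020375ff725)) e
 (c z e
 (c z e
 (c (a (nat_lit 0xf8cb78c482027)) e
 (c z e
 (c z e
 (c (a (nat_lit 0x1534f3b23d93a6)) e
 (c (a (nat_lit 0xf6e6cb8070006)) e
 (c (a (nat_lit 0x1856d120000006)) e
 (c (a (nat_lit 0x16400000000004)) e e)))))))))))))))
 (c (a (nat_lit 0x2040404041))
 (c z e
 (c z e
 (c z e
 (c z e
 (c z e
 (c z e
 (c z e
 (c z e
 (c z e
 (c z e
 (c (a (nat_lit 0x1a58559a1fcea7)) e
 (c (a (nat_lit 0x1a179b90a00007)) e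
 (c (a (nat_lit 0x11aae000000007)) e e)))))))))))))
 (c (a (nat_lit 0x2040404041)) e
 (c (a (nat_lit 0x4060606061))
 (c z e
 (c (b (nat_lit 0x1fec0cf34c1766)) e
 (c z e
 (c z e
 (c z e
 (c (a (nat_lit 0x141d3b0fc840e7)) e e))))))
 (c (a (nat_lit 0x2020203c85))
 (c (a (nat_lit 0x4e589e0205005)) e
 (c (a (nat_lit 0x50b8542c79b06)) e
 (c z e
 (c z e
 (c (a (nat_lit 0x6aff16dab47a8)) e e)))))
 (c (a (nat_lit 0x20203bdca5))
 (c (a (nat_lit 0x7214127bd7205)) e e)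
 (c (a (nat_lit 0x20306a2687)) e
 (c z e
 (c (a (nat_lit 0x151a4ec84006))
 (c (a (nat_lit 0x98c37d7832008)) e e)
 (c z e
 (c z e
 (c (a (nat_lit 0x1a9f12ea0a05)) e
 (c (a (nat_lit 0xaa4802032c6)) e
 (c (a (nat_lit 0x4802032ca46)) e
 (c (a (nat_lit 0x90c84126)) e
 (c (a (nat_lit 0x1007808086)) e
 (c (a (nat_lit 0x1f0e202037e5)) e
 (c (a (nat_lit 0xe6060584285)) e e))))))))))))))))))
 (c (a (nat_lit 0xa08080a1))
 (c (a (nat_lit 0x2020202021))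
 (c (a (nat_lit 0x151841c24b21))
 (c (a (nat_lit 0x8441793030566c6)) e
 (c z e
 (c z e
 (c (a (nat_lit 0x16116c8e568f0006)) e
 (c (a (nat_lit 0x17b536ecc0000006)) e e)))))
 (c z e
 (c z e
 (c z e
 (c (a (nat_lit 0x1666eb327a6)) e
 (c z e
 (c z e
 (c (a (nat_lit 0x12704f89e9e9a7)) e
 (c z e
 (c (a (nat_lit 0x145472fa1ebca7)) e
 (c (a (nat_lit 0x12cfaf3867c006)) e
 (c (a (nat_lit 0x1857d0a0000006)) e
 (c (a (nat_lit 0x1ca00000000004)) e e)))))))))))))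
 (c (a (nat_lit 0x4060406061))
 (c z e
 (c z e
 (c z e
 (c z e
 (c z e
 (c z e
 (c z e
 (c z e
 (c z e
 (c (a (nat_lit 0x1d9d1fd7600007)) e
 (c (a (nat_lit 0x1c10e000000006)) e e)))))))))))
 (c (a (nat_lit 0x2020203e05))
 (c (a (nat_lit 0x10163e5f027))
 (c (a (nat_lit 0x1836d06540000005)) e e) e)
 (c (a (nat_lit 0x20203c5c65)) e
 (c (a (nat_lit 0x202f912be6))
 (c (b (nat_lit 0xfead07ff6eba5)) e
 (c z e
 (c z e
 (c (a (nat_lit 0x52869877651a9)) e e))))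
 (c (a (nat_lit 0x155d28c0c86))
 (c (b (nat_lit 0x16bbff2e9e207)) e e)
 (c z e
 (c z e
 (c z e
 (c (a (nat_lit 0x12dd77a24245)) e
 (c (a (nat_lit 0x1b55802028e5)) e
 (c (a (nat_lit 0xac020249186)) e
 (c (a (nat_lit 0x20833020e6)) e
 (c (a (nat_lit 0x172b2e36384)) e
 (c (a (nat_lit 0xf70202052a4)) e
 (c (a (nat_lit 0xfa020325024)) e
 (c z e
 (c (b (nat_lit 0x1feb42c24001)) e
 (c (a (nat_lit 0xca0e0000001)) e e)))))))))))))))))))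
 (c (a (nat_lit 0x60606061))
 (c (a (nat_lit 0x2020203806))
 (c (a (nat_lit 0x4a94369963))
 (c (a (nat_lit 0x67356aeb194824)) e
 (c (a (nat_lit 0x1299ee0f70e00005)) e e))
 (c (b (nat_lit 0x1fe0246dfadc25)) e
 (c z e
 (c z e
 (c (a (nat_lit 0x11b05666480d66)) e
 (c (a (nat_lit 0x12373389c90226)) e
 (c z e
 (c z e
 (c (a (nat_lit 0x49cafb090007)) e
 (c (a (nat_lit 0x1272efe0000007)) e
 (c (a (nat_lit 0x17c00000000004)) e e)))))))))))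
 (c (a (nat_lit 0x20203eed86))
 (c (a (nat_lit 0x1c2836d77ee46)) e
 (c z e
 (c z e
 (c (a (nat_lit 0x5306b84442c07)) e
 (c (a (nat_lit 0x82aa783a47288)) e
 (c z e
 (c z e
 (c (a (nat_lit 0x11b1ff8e000008)) e
 (c (a (nat_lit 0x17b2a000000007)) e e)))))))))
 (c (a (nat_lit 0x34937126)) e
 (c (a (nat_lit 0x12b4708d46)) e
 (c (a (nat_lit 0x10906deccfa7))
 (c (a (nat_lit 0x8a910cee04f67)) e
 (c (a (nat_lit 0xe52dceaf02b08)) e e))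
 (c (a (nat_lit 0x1956b89e35a6))
 (c (a (nat_lit 0xaf12b0849c528)) e e)
 (c z e
 (c z e
 (c (a (nat_lit 0x1411c06043c5)) e
 (c (a (nat_lit 0x11a040323c65)) e
 (c (a (nat_lit 0x202ed22545)) e
 (c (b (nat_lit 0x1ffc35064684)) e
 (c (a (nat_lit 0x16cfc0e152a4)) e
 (c (a (nat_lit 0xee04071b284)) e
 (c z e
 (c (b (nat_lit 0x1ff1c424c201)) e
 (c (a (nat_lit 0x1162c2600001)) e
 (c (a (nat_lit 0x18000000001)) e e))))))))))))))))))
 C697)))) Tr.c Tr.e (nat_lit 0) C.cx C.cy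
noncomputable def C699 : Tr := beta% (fun (c : Nat → Tr → Tr → Tr) (e : Tr) (z : Nat) (a b : Nat → Nat) =>
 (c (a (nat_lit 0x8080a0a0a1))
 (c (a (nat_lit 0x2c2dbd8f6c645))
 (c (a (nat_lit 0x626690d8cd18c85)) e
 (c z e
 (c z e
 (c (a (nat_lit 0xe30a6e26884a706))
 (c (a (nat_lit 0x1b0f0de8e260ea2727)) e
 (c (a (nat_lit 0x1f1cf04e888d000007)) e e))
 (c z e
 (c z e
 (c z e
 (c (a (nat_lit 0xe2aaf3bdb867325)) e
 (c z e
 (c z e
 (c (a (nat_lit 0x524e2055c4d45c7)) e e)))))))))))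
 (c (a (nat_lit 0x797d7960dd067))
 (c (a (nat_lit 0xad131f46eea9187))
 (c (a (nat_lit 0xcd1b3728cd1cc0cc8)) e
 (c z e
 (c z e
 (c z e
 (c (a (nat_lit 0x1210e644e1c0000008)) e e)))))
 (c z e
 (c z e
 (c z e
 (c (b (nat_lit 0x1179fff4f6b079a6)) e
 (c z e
 (c z e
 (c (a (nat_lit 0xa4a8cb36f37f508)) e e))))))))
 (c z e
 (c z e
 (c z e
 (c (a (nat_lit 0x8f54ba20204a6))
 (c (a (nat_lit 0x12af2985af2eedc7)) e
 (c z e
 (c z e
 (c (a (nat_lit 0xd9693b31da58007)) e e))))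
 (c z e
 (c z e
 (c (a (nat_lit 0x1373b3b8c52b64)) e
 (c z e
 (c (a (nat_lit 0x444cfb10e6e27)) e
 (c z e
 (c (a (nat_lit 0x13d858bd362786)) e
 (c (b (nat_lit 0x1ffff63e304002)) e
 (c (a (nat_lit 0x535f7f48c6be4)) e
 (c (a (nat_lit 0xfd0cf0b2aeaa5)) e
 (c (a (nat_lit 0x170fc080202003)) e
 (c (a (nat_lit 0x1060c020000003)) e e))))))))))))))))))
 (c (a (nat_lit 0x8080808081))
 (c (b (nat_lit 0x1495756f2edfe7))
 (c (a (nat_lit 0xc312c47c6f53427))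
 (c z e
 (c z e
 (c z e
 (c (a (nat_lit 0x17d5589aa10e800007)) e
 (c (a (nat_lit 0x11d1b0662000000007)) e e)))))
 (c z e
 (c z e
 (c (a (nat_lit 0x497bc8e2f53b068)) e
 (c (a (nat_lit 0xb1a77d754130a67)) e
 (c z e
 (c z e
 (c (a (nat_lit 0x9a50eead5e48a48)) e
 (c (a (nat_lit 0x6c568d20c07c1e8)) e e)))))))))
 (c z e
 (c z e
 (c (a (nat_lit 0xbf0abc0202927))
 (c (a (nat_lit 0x11d4ae2cdcfa7028)) e
 (c (a (nat_lit 0xaa7c58bf34b6849)) e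
 (c z e
 (c z e
 (c (a (nat_lit 0x1194ca085486e009)) e
 (c (a (nat_lit 0x1b72b14de0000009)) e e))))))
 (c (a (nat_lit 0x187140202a9026))
 (c (a (nat_lit 0x88606b4cf4caf48)) e
 (c z e
 (c z e
 (c (a (nat_lit 0x146a69f025a00009)) e
 (c (a (nat_lit 0x106ba7c000000009)) e e)))))
 (c z e
 (c z e
 (c (a (nat_lit 0x82a8ac0df786)) e
 (c (a (nat_lit 0x6a90d12f61a47)) e
 (c z e
 (c z e
 (c (a (nat_lit 0xe14b6946bc207)) e
 (c (a (nat_lit 0x286e1318fe7e4)) e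
 (c z e
 (c (a (nat_lit 0x7f08fcdaf8da5)) e
 (c (a (nat_lit 0x1a56e827200003)) e
 (c (a (nat_lit 0x10212000000003)) e e)))))))))))))))))
 (c (a (nat_lit 0x2040606061)) e
 (c (a (nat_lit 0x608080a0a1))
 (c z e
 (c z e
 (c z e
 (c z e
 (c z e
 (c z e
 (c z e
 (c (a (nat_lit 0xa0e6f30cf8e48)) e
 (c z e
 (c z e
 (c (a (nat_lit 0x93110f50dcb67)) e
 (c (a (nat_lit 0xdcd91aa8829a7)) e e))))))))))))
 (c (a (nat_lit 0x2020202021))
 (c (a (nat_lit 0x52592d52be945))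
 (c (a (nat_lit 0x6392d126b0ce727)) e
 (c (a (nat_lit 0x1712548588688068)) e e))
 (c (a (nat_lit 0x13c971d01e2e4))
 (c (a (nat_lit 0x102f43c5aae162a8)) e e)
 (c z e
 (c z e
 (c (a (nat_lit 0x262c2c1405389)) e
 (c (a (nat_lit 0x2a263239704e9)) e
 (c z e
 (c z e
 (c (a (nat_lit 0x6992767e7c449)) e
 (c (a (nat_lit 0x1664a5e6248489)) e
 (c (a (nat_lit 0x4b95d63c20005)) e e)))))))))))
 (c (a (nat_lit 0x6060808061))
 (c (a (nat_lit 0x14300f2302c003))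
 (c (a (nat_lit 0xaac8958a5cacaa5)) e e)
 (c z e
 (c z e
 (c (a (nat_lit 0x729250140d267)) e
 (c (a (nat_lit 0x4c2a3833333e7)) e
 (c z e
 (c z e
 (c (b (nat_lit 0x69453d7889fe7)) e
 (c (a (nat_lit 0x11edf57223c006)) e e)))))))))
 (c (a (nat_lit 0x4040406061))
 (c (a (nat_lit 0xdec36a5204784)) e
 (c (a (nat_lit 0x9b106838582a6)) e e))
 (c (a (nat_lit 0x2040404041))
 (c (a (nat_lit 0x1447a9096707a5)) e
 (c z e
 (c z e
 (c (a (nat_lit 0x123a5b43d0827)) e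
 (c z e
 (c z e
 (c (a (nat_lit 0x14764e8be00007)) e
 (c (a (nat_lit 0x1a854000000006)) e e))))))))
 (c (a (nat_lit 0x202010a6))
 (c (a (nat_lit 0xc06042221646)) e
 (c (a (nat_lit 0x5a586ea315368)) e
 (c z e
 (c z e
 (c (a (nat_lit 0x5acf00e146008)) e
 (c (a (nat_lit 0x191e50c0000007)) e e))))))
 (c (a (nat_lit 0x202030c706))
 (c (a (nat_lit 0x303836cae91a7)) e
 (c z e
 (c z e
 (c (a (nat_lit 0xef1d6fec00008)) e e))))
 (c (a (nat_lit 0x16db61c5)) e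
 (c (a (nat_lit 0xbcfb2ab0046)) e
 (c (a (nat_lit 0xc30aa403a86)) e
 (c (a (nat_lit 0x983c03af246)) e
 (c (a (nat_lit 0x4007672a466)) e
 (c (a (nat_lit 0x658b0e5c5c6)) e
 (c (a (nat_lit 0x12cac02022e6)) e
 (c (a (nat_lit 0x15802045e725)) e
 (c (a (nat_lit 0x4c4f052e284)) e
 (c (a (nat_lit 0x26d90602004)) e
 (c (a (nat_lit 0xdf0c0602f24)) e
 (c (a (nat_lit 0x10e0804f60e4)) e e))))))))))))))))))))))) Tr.c Tr.e (nat_lit 0) C.cx C.cy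
noncomputable def C700 : Tr := beta% (fun (c : Nat → Tr → Tr → Tr) (e : Tr) (z : Nat) (a b : Nat → Nat) =>
 (c (a (nat_lit 0x60606061))
 (c (nat_lit 1)
 (c (a (nat_lit 0x202020203de4))
 (c (a (nat_lit 0x1acd6dcdf0ba9d03))
 (c z e
 (c z e
 (c z e
 (c z e
 (c z e
 (c z e
 (c z e
 (c (a (nat_lit 0x48795e1c304e44447)) e
 (c (a (nat_lit 0xaf222026283a1a007)) e
 (c (a (nat_lit 0x1c4520e5c240000006)) e e))))))))))
 (c z e
 (c z e
 (c z e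
 (c z e
 (c z e
 (c z e
 (c (a (nat_lit 0xac0a08111cb7d64)) e
 (c (a (nat_lit 0x5a46cb87072de04)) e
 (c (a (nat_lit 0x427af6b2bf66725)) e
 (c (a (nat_lit 0x8eeae4f94646985)) e e)))))))))))
 (c (a (nat_lit 0x202020352ec6))
 (c z e
 (c z e
 (c z e
 (c z e
 (c z e
 (c z e
 (c z e
 (c z e
 (c z e
 (c (b (nat_lit 0x1350ae7ff1b00d46)) e e))))))))))
 (c (a (nat_lit 0x2020304dadc7)) e
 (c (a (nat_lit 0x20322cacc547)) e
 (c z e
 (c z e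
 (c z e
 (c z e
 (c z e
 (c (a (nat_lit 0x16a22080893805))
 (c (b (nat_lit 0x18c41fe901000007)) e
 (c (a (nat_lit 0x12e6ecc000000007)) e e))
 (c (a (nat_lit 0x525a60f5d1f85))
 (c (a (nat_lit 0x11e7c00000000006)) e e)
 (c z e
 (c z e
 (c z e
 (c z e
 (c z e
 (c z e
 (c (a (nat_lit 0xf2d0ff1eeef86)) e
 (c (b (nat_lit 0x1feb134724e004)) e
 (c (a (nat_lit 0x8b10280000004)) e
 (c (a (nat_lit 0x1d400000000003)) e e)))))))))))))))))))))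
 (c (a (nat_lit 0x2020202021))
 (c (a (nat_lit 0x202034f1f127))
 (c z e
 (c z e
 (c z e
 (c (a (nat_lit 0x8ae9049a748a6a8))
 (c (a (nat_lit 0x18ece8a0c323e06529)) e e)
 (c z e
 (c z e
 (c z e
 (c (a (nat_lit 0xc6c0d30d612e026)) e e))))))))
 (c (a (nat_lit 0x20214f291c7e8)) e
 (c z e
 (c z e
 (c z e
 (c z e
 (c z e
 (c z e
 (c z e
 (c z e
 (c z e
 (c z e
 (c z e
 (c z e
 (c z e
 (c z e
 (c (a (nat_lit 0x1e3e9c13531144)) e
 (c (a (nat_lit 0x1c56c603200003)) e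
 (c (a (nat_lit 0x1803a000000003)) e e)))))))))))))))))))
 (c (a (nat_lit 0x4040404041)) e
 (c (a (nat_lit 0x2040404041)) e
 (c (a (nat_lit 0x4040204041))
 (c (a (nat_lit 0x4326900202506))
 (c (a (nat_lit 0xacb06a16dec57a7)) e e) e)
 (c (a (nat_lit 0x6060604041)) e
 (c (a (nat_lit 0x6060606061)) e
 (c (a (nat_lit 0x20002001)) e
 (c (a (nat_lit 0x2020202021))
 (c z e
 (c z e
 (c z e
 (c z e
 (c z e
 (c z e
 (c z e
 (c (a (nat_lit 0x16fde600000006)) e e))))))))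
 (c (a (nat_lit 0x4040402021))
 (c (b (nat_lit 0x1fe5a5c362f765)) e
 (c (a (nat_lit 0xa0948c8d198e7)) e e))
 (c (a (nat_lit 0x20202039e4))
 (c (a (nat_lit 0x9498d18553de5)) e e)
 (c (a (nat_lit 0x20203d7fa4)) e
 (c (a (nat_lit 0x1010c314024)) e
 (c z e
 (c z e
 (c z e
 (c z e
 (c (a (nat_lit 0xb9d95127266)) e
 (c (a (nat_lit 0x160540202e05)) e
 (c (a (nat_lit 0x540404e3c05)) e
 (c (a (nat_lit 0x3c3d1ffb945)) e e)))))))))))))))))))))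
 (c (a (nat_lit 0x40406061)) C699
 (c (a (nat_lit 0x40404041))
 (c (a (nat_lit 0x4040404041))
 (c (a (nat_lit 0x11ce31e3c6e205))
 (c (a (nat_lit 0x1a0ce4849dfd5de5)) e
 (c z e
 (c z e
 (c (b (nat_lit 0x1ff1a98a886426c8)) e
 (c (a (nat_lit 0xdccac89c3057107)) e
 (c z e
 (c z e
 (c (a (nat_lit 0xa718bbf51ef0dc6)) e
 (c (a (nat_lit 0x2ec4f31a4814007)) e e)))))))))
 (c (a (nat_lit 0x156eae0d84a4a6))
 (c z e
 (c z e
 (c z e
 (c (b (nat_lit 0x8a7ca1fffe9b668)) e e))))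
 (c z e
 (c (a (nat_lit 0x1235a0402d9e45))
 (c (a (nat_lit 0x805a14812452788)) e
 (c (b (nat_lit 0x4ffe6fe2ca222a8)) e
 (c z e
 (c z e
 (c (a (nat_lit 0x1928884b25a00008)) e
 (c (a (nat_lit 0x1169850000000008)) e e))))))
 (c (a (nat_lit 0x102045ea51a8e5))
 (c (a (nat_lit 0x2c49b9422a4647)) e
 (c z e
 (c z e
 (c (a (nat_lit 0x1b47f1eba0000007)) e
 (c (a (nat_lit 0x102ba00000000006)) e e)))))
 (c (a (nat_lit 0xa90559bb29225))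
 (c (a (nat_lit 0x2b9bac8aac90487)) e e)
 (c z e
 (c (a (nat_lit 0x165a02cb3d0a6)) e
 (c (a (nat_lit 0x7438f5bb8a986)) e
 (c (b (nat_lit 0x1ffff02ec4e227)) e
 (c (a (nat_lit 0x109837312da667)) e
 (c (a (nat_lit 0x1874b06e0f6fe7)) e
 (c (a (nat_lit 0x940403afc1c86)) e
 (c (a (nat_lit 0x1e1f04ff02d67)) e
 (c (a (nat_lit 0x432b23287e007)) e
 (c (a (nat_lit 0x1554caa0000007)) e
 (c (a (nat_lit 0x14800000000006)) e e)))))))))))))))))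
 (c (a (nat_lit 0x20202001))
 (c (a (nat_lit 0x88c4620203266))
 (c (a (nat_lit 0xbedea2ad2a786e7)) e
 (c z e
 (c z e
 (c z e
 (c (b (nat_lit 0xc64c29ff88cc748)) e e)))))
 (c z e
 (c z e
 (c (b (nat_lit 0x1ffff02ae1a066)) e
 (c (a (nat_lit 0x1d3cda403f866))
 (c (a (nat_lit 0x14e988282a82a008)) e
 (c (a (nat_lit 0x18ae73cda0000008)) e e))
 (c (a (nat_lit 0x1f95c069bc82c5))
 (c (a (nat_lit 0x85307a000000007)) e e)
 (c z e
 (c z e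
 (c (a (nat_lit 0x53171cf89eac8)) e
 (c z e
 (c z e
 (c z e
 (c (a (nat_lit 0xacfaa6e9545a7)) e
 (c (a (nat_lit 0x18f3f74f000007)) e
 (c (a (nat_lit 0x1a308000000006)) e e)))))))))))))))
 (c (a (nat_lit 0x6080606061)) e
 (c (a (nat_lit 0xc0c0c0c0c1))
 (c (a (nat_lit 0x51112b0b2065))
 (c (a (nat_lit 0x14cf5a2fc2d2c167)) e
 (c (a (nat_lit 0x1db6eec71786c668)) e e))
 (c (a (nat_lit 0x5c6c08060dca6))
 (c (a (nat_lit 0x11e8c85167a4a508)) e e)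
 (c z e
 (c z e
 (c (a (nat_lit 0x4a658eb245fe7)) e
 (c (a (nat_lit 0x329682712e968)) e
 (c z e
 (c z e
 (c (a (nat_lit 0xdbdf0718e0e48)) e
 (c (a (nat_lit 0x1567e988272508)) e e))))))))))
 (c (a (nat_lit 0x2001))
 (c (a (nat_lit 0xd6060551fc7c4))
 (c (a (nat_lit 0xe56592d8e89e005)) e e)
 (c (b (nat_lit 0x1fffefd6246045)) e
 (c z e
 (c (a (nat_lit 0x11978fe912d326)) e
 (c (a (nat_lit 0x7678b357df1a6)) e
 (c (b (nat_lit 0x1ffff5b789a107)) e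
 (c (a (nat_lit 0x1114d4f5cbcde8)) e
 (c (a (nat_lit 0x14f2d3b2ee2d27)) e
 (c (a (nat_lit 0x148f5035280005)) e e)))))))))
 (c (a (nat_lit 0xa0a0a0a0a1))
 (c (a (nat_lit 0xebd04803e9a5)) e
 (c (b (nat_lit 0x3d0c944645fe6)) e
 (c z e
 (c z e
 (c (a (nat_lit 0x38771f6e6e9a7)) e e)))))
 (c (a (nat_lit 0x2020203b05))
 (c (a (nat_lit 0x1ae96e0a2ae004)) e
 (c z e
 (c z e
 (c z e
 (c z e
 (c (a (nat_lit 0xed1d173cde008)) e
 (c (a (nat_lit 0x1d9e33c0000006)) e e)))))))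
 (c (a (nat_lit 0x20203ab046))
 (c (a (nat_lit 0xc0c169a633a7)) e
 (c (a (nat_lit 0x181676ad42e88)) e
 (c z e
 (c (a (nat_lit 0xb6d99b5860fe8)) e
 (c (a (nat_lit 0x8b40c2d000008)) e
 (c (a (nat_lit 0x1966a000000007)) e e))))))
 (c (a (nat_lit 0x2021d1b73e6))
 (c (a (nat_lit 0x6167084b10c8)) e
 (c z e
 (c z e
 (c (a (nat_lit 0x15dab3c0000008)) e e))))
 (c (a (nat_lit 0x3059ede3e6))
 (c (a (nat_lit 0x203c2b34ec209)) e e)
 (c (b (nat_lit 0xc546fc65fe6)) e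
 (c (a (nat_lit 0x14ac9e7074c6)) e
 (c (b (nat_lit 0x1a23c44d5fe5)) e
 (c (a (nat_lit 0xc2ef38a0a06)) e
 (c (a (nat_lit 0x9f320202a65)) e
 (c (a (nat_lit 0x1320202a9625)) e
 (c (a (nat_lit 0x440f366945)) e
 (c (b (nat_lit 0x1fe9f12403c5)) e
 (c (a (nat_lit 0xbba20204784)) e
 (c (a (nat_lit 0x1a806027f0e4)) e e))))))))))))))))))))
 C698)))) Tr.c Tr.e (nat_lit 0) C.cx C.cy

end Pool.Agent.Work.MP_82fd4a_nt.P.H
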