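import Pool.Agent.Work.MP_82fd4a_nt.P.Dx

set_option autoImplicit false
set_option linter.all false
set_option maxRecDepth 100000

namespace Pool.Agent.Work.MP_82fd4a_nt.P.H
open Y Y.Tr

noncomputable def C701 : Tr := beta% (fun (c : Nat → Tr → Tr → Tr) (e : Tr) (z : Nat) (a b : Nat → Nat) =>
 (c (a (nat_lit 0x4040404041))
 (c z
 (c (a (nat_lit 0x4fc160a0543884))
 (c z e
 (c z e
 (c z e
 (c z e
 (c z e
 (c z e
 (c z e
 (c z e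
 (c z e
 (c (a (nat_lit 0x49d03430821c00008)) e
 (c (a (nat_lit 0x10c2c2e1c000000009)) e e)))))))))))
 (c z e
 (c z e
 (c z e
 (c z e
 (c z e
 (c z e
 (c z e
 (c (a (nat_lit 0x16882786e9674866)) e
 (c (a (nat_lit 0x9c9280bc9241606)) e
 (c (a (nat_lit 0x1290f795f0f9b246)) e e)))))))))))
 (c (a (nat_lit 0x202020203387))
 (c z e
 (c z e
 (c z e
 (c z e
 (c z e
 (c z e
 (c z e
 (c (a (nat_lit 0xc04c405e5ec1066)) e e))))))))
 (c (a (nat_lit 0x2020203894c7)) e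
 (c (a (nat_lit 0x2020318ccbe8)) e
 (c (a (nat_lit 0x20324bcae088)) e
 (c z e
 (c z e
 (c z e
 (c z e
 (c (a (nat_lit 0x4382fc5857026))
 (c (a (nat_lit 0x5f490448f418008)) e e)
 (c z e
 (c z e
 (c z e
 (c z e
 (c z e
 (c z e
 (c z e
 (c z e
 (c (a (nat_lit 0x10e20102012043)) e e)))))))))))))))))))
 (c (a (nat_lit 0x6060808061))
 (c (a (nat_lit 0x202020354fc6)) e
 (c (a (nat_lit 0x202039b5b468)) e
 (c (a (nat_lit 0x20216d1300588)) e e)))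
 (c (a (nat_lit 0x6060606061))
 (c (a (nat_lit 0x2034f6552827)) e
 (c (a (nat_lit 0x57857564ce048))
 (c (a (nat_lit 0x54f10ccc66dee08))
 (c (a (nat_lit 0x10e5c9860504ea2548)) e e)
 (c z e
 (c z e
 (c z e
 (c (a (nat_lit 0xc0fac30a58a03e8)) e
 (c z e
 (c z e
 (c z e
 (c (b (nat_lit 0x8273ffe8ee4c009)) e e)))))))))
 (c z e
 (c z e
 (c z e
 (c (a (nat_lit 0x416d8238384a6))
 (c (b (nat_lit 0x4eaeb5ff3b90d07)) e e)
 (c z e
 (c z e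
 (c z e
 (c (a (nat_lit 0x4ac0d4e0874c7)) e
 (c z e
 (c z e
 (c z e
 (c (a (nat_lit 0x455e86a2b6967)) e
 (c (a (nat_lit 0x12c56728666da7)) e e)))))))))))))))
 (c (a (nat_lit 0x40002001))
 (c (b (nat_lit 0x1592316b803fe7))
 (c (a (nat_lit 0xc727789e3cf5306)) e
 (c z e
 (c z e
 (c (a (nat_lit 0x19f853d67a743407)) e
 (c (a (nat_lit 0x6c567a5a844ba08)) e
 (c z e
 (c z e
 (c z e
 (c (a (nat_lit 0x665fe5306a00008)) e e)))))))))
 (c z e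
 (c z e
 (c (a (nat_lit 0x103f7606667466)) e
 (c (a (nat_lit 0x18ef80202f08c6))
 (c (a (nat_lit 0x8e371f192cceac8)) e e)
 (c z e
 (c z e
 (c (b (nat_lit 0x1fed6eb0a70266)) e
 (c (a (nat_lit 0x1879b66f6617a6)) e
 (c z e
 (c z e
 (c z e
 (c (a (nat_lit 0x6d4ec0e8c9087)) e
 (c (a (nat_lit 0x104749e7cbf007)) e e))))))))))))))
 (c (a (nat_lit 0x4040204041))
 (c z e
 (c z e
 (c z e
 (c z e
 (c z e
 (c (a (nat_lit 0x1438767d494826)) e e))))))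
 (c (a (nat_lit 0x6060606061))
 (c z e
 (c z e
 (c z e
 (c z e
 (c (a (nat_lit 0x12700e45e025c6)) e e)))))
 (c (a (nat_lit 0x4040404041))
 (c z e
 (c (a (nat_lit 0x13526a508041c5))
 (c (a (nat_lit 0x5ecd1569d6fe006)) e e)
 (c z e
 (c z e
 (c z e
 (c (a (nat_lit 0xa0c222835d26)) e
 (c z e
 (c (b (nat_lit 0xa4fff9b9f247)) e
 (c z e
 (c (a (nat_lit 0x6ccdff7f1e686)) e
 (c (a (nat_lit 0x7918d85c00007)) e e)))))))))))
 (c (a (nat_lit 0x4040404041))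
 (c (a (nat_lit 0x134ef040c1ca84)) e
 (c z e
 (c z e
 (c (a (nat_lit 0x62cafd0725624)) e
 (c (b (nat_lit 0x1fffe3c3a3b067)) e
 (c z e
 (c z e
 (c z e
 (c (a (nat_lit 0x97ebfb52a0006)) e
 (c (a (nat_lit 0x17d88780000006)) e e))))))))))
 (c (a (nat_lit 0x2020202021))
 (c z e
 (c (a (nat_lit 0xa0c6ecfb07026)) e
 (c z e
 (c z e
 (c z e
 (c z e
 (c z e
 (c (a (nat_lit 0x1b74ba0a600006)) e e))))))))
 (c (a (nat_lit 0x2020202021))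
 (c (a (nat_lit 0x444cc8c9783)) e
 (c (a (nat_lit 0xbecadcdb74b66)) e e))
 (c (a (nat_lit 0x4040200001))
 (c (b (nat_lit 0x445a5765fe245)) e
 (c (a (nat_lit 0x3616662205a27)) e e))
 (c (a (nat_lit 0x1385))
 (c (a (nat_lit 0x66a08054cd167)) e e)
 (c (a (nat_lit 0x20202931a4)) e
 (c (a (nat_lit 0x2ed780e4))
 (c (a (nat_lit 0x1170f500000008)) e
 (c (a (nat_lit 0x1ae00000000004)) e e))
 (c (b (nat_lit 0x1377ac7fe5)) e
 (c (a (nat_lit 0xeb0cb2033e6)) e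
 (c (a (nat_lit 0xdc8203413a6)) e
 (c z e
 (c (a (nat_lit 0x6d070a98987)) e
 (c (a (nat_lit 0x1bdca0202025)) e
 (c (b (nat_lit 0x1ca020405fe5)) e
 (c (a (nat_lit 0x343a3c29683)) e
 (c z e
 (c (a (nat_lit 0x928f2e403a4)) e
 (c (a (nat_lit 0x63040e00004)) e e)))))))))))))))))))))))))) Tr.c Tr.e (nat_lit 0) C.cx C.cy
noncomputable def C702 : Tr := beta% (fun (c : Nat → Tr → Tr → Tr) (e : Tr) (z : Nat) (a b : Nat → Nat) =>
 (c (a (nat_lit 0x2020202021))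
 (c (a (nat_lit 0x2222236357306))
 (c (b (nat_lit 0x6880548f9ffe0a5))
 (c z e
 (c z e
 (c (a (nat_lit 0xca4f5264742236067)) e
 (c (a (nat_lit 0x1c5b2b10660b2a6267)) e
 (c (a (nat_lit 0x14e14ae4e3e2c24007)) e
 (c (a (nat_lit 0x136aa606e4c0000007)) e e))))))
 (c z e
 (c z e
 (c (a (nat_lit 0x84f8d06c55b17c7)) e
 (c (a (nat_lit 0x182722e7773e5c46)) e
 (c z e
 (c z e
 (c (a (nat_lit 0x20d4e50e96d0c07)) e
 (c (a (nat_lit 0x1192b555f271d9e7)) e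
 (c z e
 (c (a (nat_lit 0xeeeeeb2484ca008)) e
 (c (a (nat_lit 0x1ada3b5820000006)) e
 (c (a (nat_lit 0x1c2e800000000006)) e e)))))))))))))
 (c (a (nat_lit 0x20212d411e987))
 (c z e
 (c z e
 (c z e
 (c z e
 (c z e
 (c z e
 (c z e
 (c z e
 (c (b (nat_lit 0xc300a7ffff0e5c8)) e e)))))))))
 (c z e
 (c (a (nat_lit 0x12b3328a048247))
 (c (a (nat_lit 0x7c7baad0dce87c7)) e
 (c (a (nat_lit 0x52ec708272491a8)) e
 (c z e
 (c z e
 (c (a (nat_lit 0x7630468d408a108)) e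
 (c (a (nat_lit 0xb276ffcf24aa688)) e e))))))
 (c (a (nat_lit 0x130e6e80448066))
 (c (a (nat_lit 0x8260606c223b2e7)) e
 (c z e
 (c z e
 (c (a (nat_lit 0x7ab889efd22cb87)) e
 (c (a (nat_lit 0x88a52f62862a008)) e e)))))
 (c (a (nat_lit 0x1aa368efc44445))
 (c (a (nat_lit 0x563e5e2c3f0cc87)) e e)
 (c z e
 (c (a (nat_lit 0x9574080a5db44))
 (c (a (nat_lit 0x136f42a843600007)) e
 (c (a (nat_lit 0x1308038000000008)) e e))
 (c (a (nat_lit 0xb42260d1169a5))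
 (c (a (nat_lit 0x1be4000000000006)) e e)
 (c (b (nat_lit 0x1ffffff9abab05)) e
 (c (a (nat_lit 0x570f20e6e5ce6)) e
 (c (a (nat_lit 0xaab498e92a8e7)) e
 (c (a (nat_lit 0x7c0a059c98fc5)) e
 (c (a (nat_lit 0x7a7742c2f6f06)) e
 (c (a (nat_lit 0x390680b8b2766)) e
 (c (a (nat_lit 0x132acb4e0a2ce6)) e
 (c (a (nat_lit 0xbacd20f882005)) e e)))))))))))))))))
 (c (a (nat_lit 0x4040404041))
 (c (a (nat_lit 0x47715330ba086))
 (c (a (nat_lit 0x4a9b95429c3ee46)) e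
 (c z e
 (c z e
 (c z e
 (c (a (nat_lit 0x1aba3b1cfb959666)) e
 (c z e
 (c z e
 (c z e
 (c (a (nat_lit 0x1f0b8e3aba892006)) e e)))))))))
 (c z e
 (c z e
 (c (a (nat_lit 0x1273c9e964c4c6)) e
 (c (a (nat_lit 0xae9a5e06059e5))
 (c (a (nat_lit 0x1e401c491698628)) e e)
 (c z e
 (c z e
 (c (a (nat_lit 0xa31bea81e025)) e
 (c (a (nat_lit 0xc78cfc8688086)) e
 (c z e
 (c (a (nat_lit 0xa48484dfbaa87)) e
 (c z e
 (c (a (nat_lit 0xe41624c7c7c7)) e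
 (c (a (nat_lit 0x51705c8c8a8a7)) e e))))))))))))))
 (c (a (nat_lit 0x4040204041))
 (c z e
 (c z e
 (c z e
 (c z e
 (c z e
 (c (a (nat_lit 0x505c551206026)) e
 (c (a (nat_lit 0x4504dc3e20183)) e
 (c (a (nat_lit 0xff06f4f232306)) e
 (c z e
 (c z e
 (c (a (nat_lit 0x726e829cbd286)) e
 (c (a (nat_lit 0xb8cceb0b79826)) e
 (c z e
 (c (a (nat_lit 0x629d7f98a8005)) e
 (c (a (nat_lit 0xe5c8f00000005)) e e)))))))))))))))
 (c (a (nat_lit 0x8080808081))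
 (c (a (nat_lit 0x19137040a07204))
 (c (a (nat_lit 0x5e746058fcb31c7)) e
 (c (a (nat_lit 0x7e8c75256534a08)) e
 (c z e
 (c z e
 (c (a (nat_lit 0x17549a305bcbc007)) e
 (c (a (nat_lit 0x16dab4b140000007)) e e))))))
 (c (a (nat_lit 0x1375e0a0ccf8c4))
 (c (a (nat_lit 0x56389918b6465e8)) e
 (c z e
 (c z e
 (c (a (nat_lit 0x112ec8af86a00008)) e
 (c (a (nat_lit 0x110928e000000008)) e e)))))
 (c z e
 (c z e
 (c (a (nat_lit 0x4500c406096e4)) e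
 (c (a (nat_lit 0x19d0cdacd49ec4)) e
 (c z e
 (c z e
 (c (b (nat_lit 0x1fffe111549d86)) e
 (c (a (nat_lit 0x529272850cdc5)) e
 (c (a (nat_lit 0x642c535d03e44)) e
 (c (a (nat_lit 0x5064eebf2e7a5)) e
 (c (a (nat_lit 0xa12cfcb600005)) e
 (c (a (nat_lit 0x1768c000000004)) e e))))))))))))))
 (c (a (nat_lit 0xa0a0a0a0a1))
 (c (a (nat_lit 0x154acb00612003))
 (c (a (nat_lit 0x2437d1163e76565)) e
 (c z e
 (c (a (nat_lit 0x16e4e2880862e006)) e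
 (c (a (nat_lit 0x3a598c40000005)) e
 (c (a (nat_lit 0x130f000000000004)) e e)))))
 (c (a (nat_lit 0x10d0ec45042004))
 (c (a (nat_lit 0x646272d7334e826)) e e)
 (c z e
 (c (a (nat_lit 0x127ae1a0f3f243)) e
 (c (a (nat_lit 0x10ae6e4bc9ab65)) e
 (c (a (nat_lit 0x13909e163dde23)) e
 (c (a (nat_lit 0x1630a8b4b5926)) e
 (c (a (nat_lit 0x42a6c369ff546)) e
 (c (a (nat_lit 0xe116224425)) e
 (c (a (nat_lit 0x3a43038c45)) e
 (c (a (nat_lit 0x451e646656006)) e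
 (c (a (nat_lit 0x1b03c200000005)) e e))))))))))))
 (c (a (nat_lit 0x8080808081))
 (c (a (nat_lit 0x1391c581408543))
 (c z e
 (c (a (nat_lit 0x871d50bc0000006)) e e))
 (c (a (nat_lit 0x11ca40e085c8e4))
 (c (a (nat_lit 0x1557a7a000000006)) e e)
 (c z e
 (c (a (nat_lit 0x16b459d95bfb64)) e
 (c (a (nat_lit 0x160e2021945)) e
 (c z e
 (c z e
 (c z e
 (c (a (nat_lit 0x8f94f2d890685)) e
 (c (a (nat_lit 0x1d8965c4c00004)) e e))))))))))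
 (c (a (nat_lit 0x6060606061))
 (c (a (nat_lit 0x1cc060cad0f5c2))
 (c (a (nat_lit 0x1323c00000000005)) e e)
 (c (a (nat_lit 0xfafd21272f2c6)) e
 (c (a (nat_lit 0xd4eceaf0ef646)) e
 (c (a (nat_lit 0x874d9799ff185)) e
 (c z e
 (c (a (nat_lit 0x16025cfd27386)) e
 (c (a (nat_lit 0xb558fb32e2645)) e
 (c (a (nat_lit 0x12468d71a14004)) e e))))))))
 (c (a (nat_lit 0xa0a0a0a0a1))
 (c (b (nat_lit 0x1fe46465a57b04)) e
 (c (a (nat_lit 0x7a6a908f98785)) e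
 (c z e
 (c (a (nat_lit 0xa2b9ebb1693a5)) e
 (c (b (nat_lit 0x1fe926cb6cdd65)) e
 (c (b (nat_lit 0x1d974de8ffffe4)) e e))))))
 (c (a (nat_lit 0xe0e0e0e0e1))
 (c (b (nat_lit 0x32666525fffe4)) e
 (c (a (nat_lit 0xd29b8a1604f85)) e
 (c (a (nat_lit 0x346c18145b2a7)) e
 (c (a (nat_lit 0x6aa8bcff3ed07)) e e))))
 (c (a (nat_lit 0x2020202021))
 (c (a (nat_lit 0x8480c0a07226)) e
 (c z e
 (c z e
 (c (a (nat_lit 0xeee580b000006)) e
 (c (a (nat_lit 0x106d0000000006)) e e)))))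
 (c (a (nat_lit 0xc0e0e119e1))
 (c z e
 (c (a (nat_lit 0x585a4b10cc008)) e
 (c (a (nat_lit 0x19977740000007)) e e)))
 (c (a (nat_lit 0x4040409923))
 (c (a (nat_lit 0xeaecf10c00007)) e
 (c (a (nat_lit 0x11e94000000005)) e e))
 (c (a (nat_lit 0x202dfa44a4)) e
 (c (a (nat_lit 0x4e3a64c004)) e
 (c (a (nat_lit 0xf3b8600a244)) e
 (c (a (nat_lit 0x1aa54021ad04)) e
 (c (a (nat_lit 0xa002239a643)) e
 (c (a (nat_lit 0xa8b110c2c25)) e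
 (c (b (nat_lit 0x1ff340208743)) e
 (c (a (nat_lit 0x146040880583)) e
 (c (b (nat_lit 0x20291aabfe2)) e
 (c (a (nat_lit 0x1037b38aaac3)) e
 (c (a (nat_lit 0x1a1180402002)) e
 (c (a (nat_lit 0x110020000002)) e e))))))))))))))))))))))))) Tr.c Tr.e (nat_lit 0) C.cx C.cy
noncomputable def C703 : Tr := beta% (fun (c : Nat → Tr → Tr → Tr) (e : Tr) (z : Nat) (a b : Nat → Nat) =>
 (c (a (nat_lit 0x6060606061))
 (c z
 (c (a (nat_lit 0x3b871afa1eaa985))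
 (c z e
 (c z e
 (c z e
 (c (a (nat_lit 0x7ca33e9ab4b4b6b47)) e
 (c z e
 (c z e
 (c (a (nat_lit 0xe3848f12732f4427)) e
 (c z e
 (c (a (nat_lit 0x323c5262365443827)) e
 (c (a (nat_lit 0x427e666e4269d2c07)) e
 (c z e
 (c z e
 (c (a (nat_lit 0x5a7261e5acc200007)) e e)))))))))))))
 (c z e
 (c z e
 (c (a (nat_lit 0x16662aeba4c4ee26)) e
 (c (a (nat_lit 0x4f2b80609f4ec5))
 (c (a (nat_lit 0x1432528f11af5af9c7)) e
 (c z e
 (c z e
 (c z e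
 (c (a (nat_lit 0x2e646308b4ca421e8)) e e)))))
 (c z e
 (c z e
 (c z e
 (c (a (nat_lit 0x7d6169bfa6ce865)) e
 (c z e
 (c (a (nat_lit 0x1298982a858363e5)) e
 (c (a (nat_lit 0xe902ba685454886)) e
 (c (a (nat_lit 0x17ad8cee2df0b865)) e
 (c z e
 (c (b (nat_lit 0x15df7ffffd6f00e5)) e
 (c z e
 (c (a (nat_lit 0x92a936e27060006)) e
 (c (a (nat_lit 0xb3d328200000005)) e e))))))))))))))))))
 (c z
 (c z e
 (c z e
 (c z e
 (c z e
 (c z e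
 (c z e
 (c z e
 (c z e
 (c z e
 (c (a (nat_lit 0xcb5466140a286a6)) e e))))))))))
 (c z
 (c (a (nat_lit 0x34cbc1616ae9e5))
 (c z e
 (c z e
 (c z e
 (c z e
 (c z e
 (c z e
 (c z e
 (c (a (nat_lit 0xc4a58a38f13ca2448)) e e)))))))) e)
 (c z
 (c z e
 (c (b (nat_lit 0x41871fffe076e7)) e
 (c z e
 (c z e
 (c z e
 (c (a (nat_lit 0x4c5518788e96768)) e
 (c z e
 (c z e
 (c z e
 (c (b (nat_lit 0x8b17fe78be677a6)) e e))))))))))
 (c (a (nat_lit 0x202020203bc6))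
 (c (a (nat_lit 0x142e1214060b108))
 (c (a (nat_lit 0x128d75d8972c35e747)) e
 (c z e
 (c z e
 (c z e
 (c (a (nat_lit 0x1890ed4706e8c00008)) e e)))))
 (c z e
 (c z e
 (c z e
 (c (a (nat_lit 0x16133c466c66588)) e
 (c z e
 (c (a (nat_lit 0x1284078465648028)) e
 (c z e
 (c (b (nat_lit 0xbdfef6d4933e0e6)) e e)))))))))
 (c (a (nat_lit 0x2020203f9766)) e
 (c (a (nat_lit 0x2020356d8be7)) e
 (c (b (nat_lit 0x2031aca7bfe6))
 (c (a (nat_lit 0x22242d12a214b26)) e e)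
 (c (a (nat_lit 0x3f230abe06de6))
 (c (a (nat_lit 0x9296faf89d34ca6)) e
 (c z e
 (c z e
 (c z e
 (c (a (nat_lit 0x5aba51014876008)) e e)))))
 (c z e
 (c z e
 (c z e
 (c (a (nat_lit 0x997cedee1aa5)) e
 (c (a (nat_lit 0xf914fafd9f026)) e
 (c (a (nat_lit 0xdea0d31ef10c7)) e
 (c z e
 (c (a (nat_lit 0xcb77017f60cc5)) e
 (c (a (nat_lit 0x132473d60380e4)) e
 (c z e
 (c z e
 (c (a (nat_lit 0x1d6b8903032304)) e
 (c (a (nat_lit 0x114c4040600003)) e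
 (c (a (nat_lit 0x17802000000002)) e e)))))))))))))))))))))))
 (c (a (nat_lit 0x2020202021))
 (c z
 (c z e
 (c z e
 (c z e
 (c z e
 (c z e
 (c z e
 (c z e
 (c z e
 (c (a (nat_lit 0x13cea360a60c20a4)) e
 (c (a (nat_lit 0x10226105ee05d3e4)) e
 (c (a (nat_lit 0xae88e31a8407385)) e
 (c z e
 (c (a (nat_lit 0x183ebb1cdd4ce046)) e e)))))))))))))
 (c z
 (c (a (nat_lit 0x1324c9a9ed183bc5))
 (c z e
 (c z e
 (c z e
 (c z e
 (c z e
 (c z e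
 (c z e
 (c (a (nat_lit 0x10db8b2ba607414007)) e e))))))))
 (c z e
 (c z e
 (c z e
 (c z e
 (c z e
 (c z e
 (c (a (nat_lit 0xff4a385e6034a05)) e
 (c (b (nat_lit 0x1241027fe3cf4665)) e e)))))))))
 (c (a (nat_lit 0x2020202038e6)) e
 (c (a (nat_lit 0x2020203cb4e6))
 (c z e
 (c z e
 (c z e
 (c z e
 (c z e
 (c (a (nat_lit 0x1fe2090d704ba4c7)) e e))))))
 (c (a (nat_lit 0x202030cae967)) e
 (c (a (nat_lit 0x203e79b72406)) e e))))))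
 (c (a (nat_lit 0x202001))
 (c (a (nat_lit 0x202020203e24))
 (c (a (nat_lit 0x96bec0cd2d43024))
 (c z e
 (c z e
 (c z e
 (c z e
 (c (a (nat_lit 0x3e4922ba523c6e027)) e e)))))
 (c (b (nat_lit 0x8aabff3cd923b25))
 (c (a (nat_lit 0x989a74a49c7920ac8)) e
 (c z e
 (c z e
 (c z e
 (c (a (nat_lit 0x49bf28c2fc9a42108)) e e)))))
 (c z e
 (c z e
 (c z e
 (c (a (nat_lit 0xfb1ca0e0c6a75a6)) e
 (c z e
 (c z e
 (c (a (nat_lit 0x7aac9266aeaf9c6)) e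
 (c z e
 (c (a (nat_lit 0xeabd89c39439625)) e
 (c z e
 (c (a (nat_lit 0x62545a66494c007)) e
 (c z e
 (c (a (nat_lit 0x1448600000000004)) e e)))))))))))))))
 (c (a (nat_lit 0x2020203ab486))
 (c (a (nat_lit 0x18124a88bb2e446))
 (c z e
 (c z e
 (c z e
 (c (a (nat_lit 0x10cfacaa4942e5c529)) e
 (c (a (nat_lit 0x14ee85c94562c1a088)) e e)))))
 (c z e
 (c z e
 (c (b (nat_lit 0x1e35fe3419c8048))
 (c (a (nat_lit 0x1b3f0bad2d15a7e007)) e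
 (c (a (nat_lit 0x11a8a346a6c0000008)) e e))
 (c (a (nat_lit 0xd7af1d4332a2f26)) e
 (c z e
 (c z e
 (c (a (nat_lit 0x6f2489323051a6)) e
 (c (a (nat_lit 0xc6668edb1534287)) e
 (c z e
 (c z e
 (c (a (nat_lit 0x38447e956200008)) e
 (c (a (nat_lit 0x99d406000000005)) e e)))))))))))))
 (c (a (nat_lit 0x20338d4aa7)) e
 (c (a (nat_lit 0x4041e9b362646)) e
 (c (a (nat_lit 0x433318f65ef67))
 (c (a (nat_lit 0x3c434a4450504a9)) e
 (c (a (nat_lit 0x47626c70825c409)) e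
 (c z e
 (c z e
 (c (a (nat_lit 0x526a4e27054a868)) e e)))))
 (c (a (nat_lit 0xff08e60906d66))
 (c (a (nat_lit 0x673b37a74c7e786)) e
 (c z e
 (c z e
 (c (a (nat_lit 0x9ecc80bbceb66e8)) e
 (c (a (nat_lit 0xb68c5f7b1862408)) e e)))))
 (c z e
 (c z e
 (c (a (nat_lit 0x7db121416804))
 (c (a (nat_lit 0x79003c0aa40e008)) e
 (c (a (nat_lit 0x12c98585c0000009)) e e))
 (c (a (nat_lit 0x116c05256c5205))
 (c (a (nat_lit 0x1308242000000007)) e e)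
 (c (a (nat_lit 0x9058dced1d186)) e
 (c z e
 (c (a (nat_lit 0x94b4cf2110b07)) e
 (c (a (nat_lit 0x90b72b28823a5)) e
 (c (a (nat_lit 0xd9c5b6760a184)) e
 (c (a (nat_lit 0x11f187a3246245)) e
 (c (a (nat_lit 0x10e702a3e1e905)) e
 (c (b (nat_lit 0x1341a6c0db3fe3)) e e))))))))))))))))))
 C702)))) Tr.c Tr.e (nat_lit 0) C.cx C.cy
noncomputable def C704 : Tr := beta% (fun (c : Nat → Tr → Tr → Tr) (e : Tr) (z : Nat) (a b : Nat → Nat) =>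
 (c z
 (c z e
 (c z e
 (c z e
 (c z e
 (c (b (nat_lit 0x926a4851ff78865)) e
 (c z e
 (c z e
 (c z e
 (c z e
 (c (a (nat_lit 0x18da5ed1e184aaa3)) e
 (c (a (nat_lit 0x1cfbd64d0b2e8f64)) e
 (c (a (nat_lit 0x13721451d2af8e06)) e
 (c (a (nat_lit 0x1458d95c563613c6)) e
 (c z e
 (c (a (nat_lit 0x9542e6db72545c4)) e e)))))))))))))))
 (c z
 (c (a (nat_lit 0xeabed8f0888b184))
 (c z e
 (c z e
 (c z e
 (c z e
 (c (a (nat_lit 0x18c6ba6646f750827)) e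
 (c (a (nat_lit 0xb2cc9a7455a2807e7)) e
 (c z e
 (c z e
 (c (a (nat_lit 0x2a51043234821c008)) e
 (c z e
 (c (a (nat_lit 0x10ad2ea00000000006)) e e)))))))))))
 (c (a (nat_lit 0x42e3806067d0c5))
 (c z e
 (c z e
 (c z e
 (c (a (nat_lit 0xcf26e2993fdeb6788)) e
 (c (a (nat_lit 0x926a4a35426c2c508)) e
 (c z e
 (c z e
 (c (a (nat_lit 0x4f3e281c861400008)) e
 (c (a (nat_lit 0x104d85e16000000008)) e e)))))))))
 (c z e
 (c (b (nat_lit 0x583e47ff8740fc5))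
 (c (a (nat_lit 0x1049595535fe153427)) e
 (c z e
 (c z e
 (c (a (nat_lit 0x1287fe7eb4ac55af27)) e
 (c (a (nat_lit 0x14cd36cfec88600007)) e e)))))
 (c (a (nat_lit 0x787882c112d2a46))
 (c (a (nat_lit 0x6b04e0ee72a668688)) e
 (c (a (nat_lit 0x109911472baae8ccc8)) e e))
 (c (a (nat_lit 0x1452af8528380a5))
 (c (a (nat_lit 0x1460e2a5684284c2a7)) e e)
 (c z e
 (c z e
 (c (a (nat_lit 0x1555280462c36b05)) e
 (c (a (nat_lit 0x1bad8b49ca0c4025)) e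
 (c z e
 (c (a (nat_lit 0x10f3f47011ce28e5)) e
 (c (a (nat_lit 0xd096e91ab00b585)) e
 (c (a (nat_lit 0xa7154c981452264)) e
 (c (a (nat_lit 0x11348900e2e00004)) e e)))))))))))))))
 (c z
 (c (a (nat_lit 0x36e020df1b71043))
 (c z e
 (c z e
 (c z e
 (c (a (nat_lit 0xceb06cc904cc346c8)) e
 (c (a (nat_lit 0x9660cabf700a942a7)) e
 (c z e
 (c z e
 (c (a (nat_lit 0x9f223cc8500000007)) e
 (c (a (nat_lit 0x1f6ba6000000000007)) e e)))))))))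
 (c (a (nat_lit 0x58325b247838305)) e
 (c z e
 (c (a (nat_lit 0x45e326439fd365))
 (c (a (nat_lit 0x18b658ec8be8c5c707)) e
 (c (a (nat_lit 0x1790e7c987a7e72688)) e e))
 (c (a (nat_lit 0x22283837c480e85)) e
 (c (a (nat_lit 0x7c807d46a4dede6)) e
 (c (a (nat_lit 0xc097660cacc5c5)) e
 (c (a (nat_lit 0x7b3ea6e0c8b0e46)) e
 (c (b (nat_lit 0x10c68849a77fe706)) e
 (c (a (nat_lit 0xe71d808e3d5aaa5)) e
 (c (a (nat_lit 0x5eb0a48b34c5006)) e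
 (c (a (nat_lit 0x4e34855b0714d06)) e
 (c (a (nat_lit 0xe4afc520fe52005)) e e)))))))))))))
 (c z
 (c (a (nat_lit 0x6a7d584006044c4))
 (c z e
 (c z e
 (c z e
 (c (a (nat_lit 0x7779587a282af9b46)) e
 (c (a (nat_lit 0xbd8ee87c66d09e007)) e
 (c (a (nat_lit 0x7f541c56960000006)) e e))))))
 (c z e
 (c z e
 (c z e
 (c (a (nat_lit 0x2a282d7e4676747)) e
 (c z e
 (c z e
 (c z e
 (c (a (nat_lit 0x4aba9c82889b186)) e e)))))))))
 (c (a (nat_lit 0x202020203285))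
 (c (a (nat_lit 0x1231fd9d9778bf04))
 (c (a (nat_lit 0xa37b74f4fcb23ec47)) e e)
 (c z e
 (c z e
 (c z e
 (c (a (nat_lit 0x2248a4dd31a0fe5)) e
 (c z e
 (c (a (nat_lit 0x6864a24e40b3526)) e
 (c z e
 (c z e
 (c z e
 (c (a (nat_lit 0x1cc5cf83e0000004)) e
 (c (a (nat_lit 0x1b77400000000003)) e e))))))))))))
 (c (a (nat_lit 0x4040405a9225))
 (c (a (nat_lit 0x191973fa1777fb84)) e
 (c (a (nat_lit 0xe6a2d4bd22dc4c5)) e
 (c z e
 (c (a (nat_lit 0x5e1e975b2b82004)) e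
 (c (a (nat_lit 0x88994147b3084c5)) e
 (c (a (nat_lit 0x709af9215f4e566)) e
 (c (b (nat_lit 0x3280d5fed4232c6)) e
 (c z e
 (c (a (nat_lit 0x92988eed9000007)) e e)))))))))
 (c (a (nat_lit 0x20203291a544))
 (c (a (nat_lit 0xb8f10327be23163)) e
 (c z e
 (c z e
 (c (a (nat_lit 0x4d5f66f90e64125)) e
 (c (a (nat_lit 0x547a82beba45307)) e
 (c z e
 (c (a (nat_lit 0x345a457b1c8e007)) e
 (c (a (nat_lit 0xccb4c36e0000007)) e e))))))))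
 (c (a (nat_lit 0x56572b70ae424))
 (c (a (nat_lit 0x906138fa8279024)) e
 (c z e
 (c z e
 (c z e
 (c (a (nat_lit 0xf919750ab554d66)) e e)))))
 (c (a (nat_lit 0x57197eae424c4))
 (c (a (nat_lit 0x7eaaf7204e99185)) e e)
 (c (a (nat_lit 0x112c0882e469c4))
 (c (a (nat_lit 0x9e927e534e50486)) e
 (c (a (nat_lit 0x11b30edb154ca7a7)) e e))
 (c (a (nat_lit 0x19c8890b997283))
 (c (a (nat_lit 0x16e75a7c2dc24006)) e e)
 (c (a (nat_lit 0xaf192b9f67664)) e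
 (c (a (nat_lit 0xed01754b4dc04)) e
 (c (a (nat_lit 0x4cc48d536d7a4)) e
 (c (a (nat_lit 0x9a22269ab51e3)) e
 (c (a (nat_lit 0x24269e7f332e3)) e
 (c (a (nat_lit 0x4ac0974942623)) e
 (c (a (nat_lit 0x14117cbc6e8783)) e
 (c (b (nat_lit 0x7d2f2c4ffffe3)) e
 (c (a (nat_lit 0x1737304ccd6f84)) e
 (c (a (nat_lit 0x19cbe526e5a003)) e
 (c (a (nat_lit 0x108302c0000002)) e e))))))))))))))))))))))) Tr.c Tr.e (nat_lit 0) C.cx C.cy
noncomputable def C706 : Tr := beta% (fun (c : Nat → Tr → Tr → Tr) (e : Tr) (z : Nat) (a b : Nat → Nat) =>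
 (c (nat_lit 1)
 (c (a (nat_lit 0x20203124e6))
 (c (a (nat_lit 0xfae0ec3da78c2)) e
 (c (a (nat_lit 0x260ad14025)) e
 (c z e
 (c (a (nat_lit 0x88e1363c04666)) e
 (c (a (nat_lit 0x9b6d0a3078806)) e
 (c z e
 (c z e
 (c (a (nat_lit 0xcaeb00b800007)) e
 (c (a (nat_lit 0x1bf16000000003)) e e)))))))))
 (c (a (nat_lit 0x3188c5e6))
 (c (a (nat_lit 0x2e2a8146ca025)) e
 (c z e
 (c z e
 (c (a (nat_lit 0xe3083a347da87)) e
 (c z e
 (c z e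
 (c (a (nat_lit 0x1496ee60000008)) e e)))))))
 (c (a (nat_lit 0x8d348baaa5)) e
 (c (a (nat_lit 0x16ba0ed052a5))
 (c (a (nat_lit 0x5c98b09eb77a7)) e
 (c (a (nat_lit 0x94a6aac518d28)) e e))
 (c (a (nat_lit 0x142dafb20ca5))
 (c (a (nat_lit 0xc954ed62ba1a7)) e e)
 (c z e
 (c z e
 (c (a (nat_lit 0x1775f6d7f3a6)) e
 (c (a (nat_lit 0xdf10d9d7ee4)) e
 (c (a (nat_lit 0xed95b7ceea4)) e
 (c (a (nat_lit 0xa6e802031a4)) e
 (c (a (nat_lit 0xf4080d2ae64)) e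
 (c z e
 (c (b (nat_lit 0x1ff7d2c0a163)) e
 (c (a (nat_lit 0x1930e0204003)) e
 (c (a (nat_lit 0x12a060a00003)) e
 (c (nat_lit 1) e e)))))))))))))))))
 (c (a (nat_lit 0x60606061))
 (c (a (nat_lit 0x94c378dbcc3))
 (c (a (nat_lit 0x4c511f4ee8244)) e
 (c (a (nat_lit 0x7f23e9de9a505)) e
 (c z e
 (c (a (nat_lit 0xde9aa88562d67)) e
 (c (a (nat_lit 0xee96b34698027)) e
 (c z e
 (c (a (nat_lit 0x148c6000000007)) e e)))))))
 (c (a (nat_lit 0x1cfb5d9e64))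
 (c (a (nat_lit 0x347cb07027c87)) e
 (c z e
 (c z e
 (c (a (nat_lit 0x68919b6c1a008)) e e))))
 (c z e
 (c (a (nat_lit 0x10b175ef92e4))
 (c (b (nat_lit 0xcab781fe12007)) e e)
 (c (a (nat_lit 0xfd06fb01047)) e
 (c z e
 (c (a (nat_lit 0x1151b6b06e87)) e
 (c (a (nat_lit 0xd310860a0c5)) e
 (c (a (nat_lit 0x100820402b45)) e
 (c (a (nat_lit 0x11206096b384)) e
 (c z e
 (c (a (nat_lit 0x298958dce44)) e
 (c (a (nat_lit 0x156f404100c3)) e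
 (c (a (nat_lit 0x1d0060802002)) e
 (c (a (nat_lit 0xa0000001)) e e)))))))))))))))
 (c (a (nat_lit 0x40404041))
 (c (a (nat_lit 0xd62d6ceada3))
 (c (a (nat_lit 0x408e5a1161486)) e
 (c z e
 (c z e
 (c (a (nat_lit 0x3105121200008)) e e))))
 (c z e
 (c z e
 (c (a (nat_lit 0x16d6b7782ee6)) e
 (c z e
 (c z e
 (c (a (nat_lit 0x14ac806094a4)) e
 (c (a (nat_lit 0x116b6b8ded05)) e
 (c z e
 (c (a (nat_lit 0xd9d1bd53504)) e
 (c (a (nat_lit 0x106da0804003)) e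
 (c (a (nat_lit 0x19c060806002)) e
 (c (a (nat_lit 0xe140800001)) e
 (c (a (nat_lit 0x18000000001)) e e))))))))))))))
 (c (a (nat_lit 0x40404041))
 (c (a (nat_lit 0x1555af30e024))
 (c (a (nat_lit 0x52878a4e1c0e6)) e
 (c (a (nat_lit 0x570c3a1400008)) e e))
 (c (a (nat_lit 0x122f10abacc5))
 (c (a (nat_lit 0x14e38180000008)) e e)
 (c z e
 (c z e
 (c (a (nat_lit 0xfb2cc8c91c6)) e
 (c (a (nat_lit 0x14a8686aca05)) e
 (c z e
 (c (a (nat_lit 0x15ddcd3f464)) e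
 (c (a (nat_lit 0x1532a0c1c1a3)) e
 (c (a (nat_lit 0x1120204060c3)) e
 (c (a (nat_lit 0x81214001)) e
 (c (a (nat_lit 0x80000001)) e e))))))))))))
 (c (a (nat_lit 0x20202021))
 (c (a (nat_lit 0xc91b510cd45))
 (c (a (nat_lit 0x11692000000004)) e e)
 (c z e
 (c z e
 (c (a (nat_lit 0x1b379795e486)) e
 (c z e
 (c (b (nat_lit 0x1ff2af22e1c4)) e
 (c (a (nat_lit 0x1f7880a30ce3)) e
 (c (a (nat_lit 0x196081804002)) e
 (c (a (nat_lit 0x41c0c10001)) e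
 (c (a (nat_lit 0x220e0c00001)) e
 (c (a (nat_lit 0x2000000001)) e e)))))))))))
 (c (nat_lit 1)
 (c (a (nat_lit 0x1dbdfa3a2405)) e
 (c z e
 (c z e
 (c (a (nat_lit 0xffa38725265)) e
 (c (a (nat_lit 0x104ca060bb44)) e
 (c (a (nat_lit 0x1a3a2c18241)) e
 (c (a (nat_lit 0x30361622421)) e
 (c (a (nat_lit 0x18040e1a001)) e
 (c (a (nat_lit 0x40000001)) e e)))))))))
 (c (a (nat_lit 0x40404041))
 (c z e
 (c (a (nat_lit 0x175ebddadac6)) e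
 (c (a (nat_lit 0x82660403085)) e
 (c (a (nat_lit 0x2014180a001)) e
 (c (a (nat_lit 0x32240608001)) e
 (c (a (nat_lit 0x3a1c0a06021)) e
 (c (a (nat_lit 0x2c1e0200001)) e
 (c (a (nat_lit 0x1c000000001)) e e))))))))
 (c (nat_lit 1)
 (c (a (nat_lit 0x403202030a5)) e
 (c (a (nat_lit 0x3a423420101)) e
 (c (a (nat_lit 0x201c280a001)) e
 (c (a (nat_lit 0x1e2e0a08001)) e
 (c (a (nat_lit 0x502c0604001)) e
 (c (a (nat_lit 0x4e180000001)) e e))))))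
 (c (nat_lit 1)
 (c (a (nat_lit 0x2000204021)) e
 (c (a (nat_lit 0x2040a04041)) e
 (c (a (nat_lit 0x60c0406041)) e
 (c (a (nat_lit 0xc040200001)) e
 (c (a (nat_lit 0x2000000001)) e e)))))
 (c (a (nat_lit 0x20202021))
 (c (a (nat_lit 0x4060204041)) e
 (c (a (nat_lit 0xe060804001)) e
 (c (a (nat_lit 0x6040000001)) e e)))
 (c (a (nat_lit 0x40404041))
 (c (a (nat_lit 0x4060200001)) e
 (c (a (nat_lit 0x6000000001)) e e))
 (c (a (nat_lit 0x40404041)) e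
 (c (a (nat_lit 0x20202041)) e
 (c (a (nat_lit 0xa0a0a081)) e
 (c (a (nat_lit 0x40404041)) e
 (c (a (nat_lit 0x20202021)) e
 (c (a (nat_lit 0x202035e4)) e
 (c (a (nat_lit 0x646512a65)) e
 (c (a (nat_lit 0x8332c4a45)) e
 (c (a (nat_lit 0x11c4204624)) e
 (c (a (nat_lit 0x1000583582)) e
 (c z e
 (c (a (nat_lit 0x149437ca64)) e
 (c (a (nat_lit 0x174d600004)) e e))))))))))))))))))))))))) Tr.c Tr.e (nat_lit 0) C.cx C.cy
noncomputable def C707 : Tr := beta% (fun (c : Nat → Tr → Tr → Tr) (e : Tr) (z : Nat) (a b : Nat → Nat) =>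
 (c (nat_lit 1)
 (c (a (nat_lit 0x4040404041))
 (c (a (nat_lit 0x115e4d6baa0fc4))
 (c z e
 (c z e
 (c z e
 (c (a (nat_lit 0xf96e5e91ba1a7a6)) e
 (c (a (nat_lit 0xd83463ce5a48786)) e
 (c (b (nat_lit 0x3c3fff662c586e7)) e
 (c z e
 (c (b (nat_lit 0xf3ffbf380000005)) e e))))))))
 (c (a (nat_lit 0x11868264ac8826))
 (c z e
 (c z e
 (c z e
 (c z e
 (c z e
 (c z e
 (c (a (nat_lit 0x12ddd1c000000007)) e e)))))))
 (c z e
 (c (a (nat_lit 0x349b26fac0fa5))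
 (c (a (nat_lit 0xb75b0c4cf825a6)) e
 (c (a (nat_lit 0x11b00945c8c3c528)) e e))
 (c (a (nat_lit 0xd9c8101351183))
 (c (a (nat_lit 0x12a82805c3c34007)) e
 (c (a (nat_lit 0x164385e820000007)) e e))
 (c (a (nat_lit 0x1266a6afef5b44))
 (c (a (nat_lit 0x10b0308000000005)) e e)
 (c z e
 (c (b (nat_lit 0x1fe2953a3e95c6)) e
 (c z e
 (c z e
 (c (a (nat_lit 0x1171cf0da42447)) e
 (c (a (nat_lit 0xc41290f903165)) e
 (c (a (nat_lit 0x84ff6f7990545)) e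
 (c (a (nat_lit 0xf32b32a200006)) e
 (c (a (nat_lit 0x1b6a2000000005)) e e)))))))))))))))
 (c (a (nat_lit 0x4060606061))
 (c z e
 (c z e
 (c (a (nat_lit 0xb4e3232964c5)) e
 (c z e
 (c z e
 (c z e
 (c (a (nat_lit 0x3262b994e4848)) e
 (c z e
 (c z e
 (c z e
 (c z e
 (c (a (nat_lit 0xeeeec97c86007)) e
 (c (a (nat_lit 0x15f38f80000007)) e e)))))))))))))
 (c (a (nat_lit 0xc0c0c0c0c1)) e
 (c (a (nat_lit 0xe0e0e0e0e1))
 (c (a (nat_lit 0x5254c4a3fd024))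
 (c (a (nat_lit 0x72c138a0a648006)) e
 (c (a (nat_lit 0xb98afea60000006)) e e))
 (c (a (nat_lit 0x8544b149e2a6))
 (c (a (nat_lit 0xbb185c000000006)) e e)
 (c z e
 (c z e
 (c (a (nat_lit 0xa48892af268c7)) e
 (c z e
 (c z e
 (c (a (nat_lit 0x1599f276afcce7)) e
 (c (b (nat_lit 0x1162c5a1dfe006)) e e)))))))))
 (c (a (nat_lit 0xc0c0c0c0c1))
 (c (a (nat_lit 0x484128b826285))
 (c (a (nat_lit 0x1ce5800000000004)) e e)
 (c (a (nat_lit 0x791ee6561f8a6)) e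
 (c z e
 (c (a (nat_lit 0x2a2039288e387)) e
 (c z e
 (c z e
 (c (a (nat_lit 0x120fefcecdc768)) e e)))))))
 (c (a (nat_lit 0x2020203c05))
 (c (a (nat_lit 0x8486360a67185)) e e)
 (c (a (nat_lit 0x203b2966))
 (c z e
 (c z e
 (c z e
 (c z e
 (c (a (nat_lit 0x7981353600007)) e
 (c (a (nat_lit 0x11274000000007)) e e))))))
 (c (a (nat_lit 0x10ac6a67))
 (c (a (nat_lit 0x2a24e30f04687)) e
 (c z e
 (c z e
 (c (a (nat_lit 0x149797a0000007)) e e))))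
 (c (a (nat_lit 0x1d7fad228e6))
 (c (a (nat_lit 0x528ec2f568548)) e e)
 (c z e
 (c (a (nat_lit 0xe06fc17afa6)) e
 (c (a (nat_lit 0x4a3724240c5)) e
 (c (a (nat_lit 0xab229a96726)) e
 (c (a (nat_lit 0x116080422825)) e
 (c (b (nat_lit 0x80467f5fe3)) e
 (c (a (nat_lit 0xa0a11e78785)) e
 (c (a (nat_lit 0x4d4a0205344)) e
 (c (a (nat_lit 0x15004033b004)) e
 (c z e
 (c (a (nat_lit 0x598f651a004)) e
 (c (a (nat_lit 0x1aa9e0000003)) e e)))))))))))))))))))))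
 (c (nat_lit 1)
 (c (a (nat_lit 0x4040404041))
 (c (b (nat_lit 0x1ff4ae2b2ca4))
 (c (a (nat_lit 0x2c3a1d047c243a7)) e
 (c z e
 (c z e
 (c (a (nat_lit 0x1863e48ac52dcae7)) e
 (c (a (nat_lit 0x1ef7946828e00006)) e e)))))
 (c z e
 (c z e
 (c (a (nat_lit 0x2e2e643469625)) e
 (c (a (nat_lit 0x122c048f63de5)) e
 (c z e
 (c z e
 (c (a (nat_lit 0x101512ace5a027)) e
 (c z e
 (c z e
 (c (a (nat_lit 0xb0b082eb24586)) e
 (c (a (nat_lit 0x11cef64d000006)) e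
 (c (a (nat_lit 0x1692a000000005)) e e)))))))))))))
 (c (a (nat_lit 0xc0c0c0c0c1))
 (c z e
 (c z e
 (c z e
 (c (a (nat_lit 0x988d190bc6e46)) e
 (c z e
 (c z e
 (c z e
 (c z e
 (c z e
 (c (a (nat_lit 0x1531b05debc007)) e
 (c (a (nat_lit 0x1715b220000007)) e e)))))))))))
 (c (a (nat_lit 0x20206041))
 (c (a (nat_lit 0x25a143865084))
 (c (a (nat_lit 0x11b9cbc521400005)) e
 (c (a (nat_lit 0x1df86e0000000005)) e e))
 (c (a (nat_lit 0x18021e46b5086))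
 (c (a (nat_lit 0x1309e00000000006)) e e) e))
 (c (a (nat_lit 0x2020203c85))
 (c (a (nat_lit 0xf717477d46625)) e
 (c (a (nat_lit 0xdd11f7b26bd45)) e
 (c z e
 (c z e
 (c (a (nat_lit 0x772bad3af8587)) e e)))))
 (c (a (nat_lit 0x20203bd8a5))
 (c (a (nat_lit 0x66b8166465225)) e
 (c z e
 (c z e
 (c (a (nat_lit 0x264a6e52252c9)) e e))))
 (c (a (nat_lit 0x203def8bc6)) e
 (c (a (nat_lit 0x9e908d8846))
 (c (a (nat_lit 0x329ab3031e607)) e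
 (c z e
 (c z e
 (c (a (nat_lit 0x120ce000000008)) e e))))
 (c (a (nat_lit 0x189cec60c065))
 (c (a (nat_lit 0x5671650212008)) e e)
 (c z e
 (c z e
 (c (a (nat_lit 0x1dd88e00c365)) e
 (c (a (nat_lit 0x17ad2042d6c5)) e
 (c (a (nat_lit 0xce022768a85)) e
 (c (a (nat_lit 0x16a95696685)) e
 (c (a (nat_lit 0x81ee02030a4)) e
 (c (a (nat_lit 0x1f40405027e4)) e
 (c z e
 (c (b (nat_lit 0x1ff464a120c3)) e
 (c (a (nat_lit 0x14a440400003)) e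
 (c (a (nat_lit 0x100000000001)) e e))))))))))))))))))))
 (c (nat_lit 1)
 (c (a (nat_lit 0xa0a0a0a0a1))
 (c (a (nat_lit 0xe0e5657df1fa3))
 (c z e
 (c (a (nat_lit 0x142a4dec6623e007)) e e))
 (c (a (nat_lit 0x2084047e65))
 (c (a (nat_lit 0x11188f0861c00006)) e
 (c (a (nat_lit 0x1513c74000000007)) e e))
 (c (a (nat_lit 0x6266748026))
 (c (a (nat_lit 0x1b67a00000000006)) e e)
 (c (a (nat_lit 0x8eb2f3729a6a6)) e
 (c (a (nat_lit 0xc101571824686)) e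
 (c z e
 (c z e
 (c z e
 (c (a (nat_lit 0x5e6af55dc0387)) e
 (c (a (nat_lit 0x11cfd5ac400007)) e
 (c (a (nat_lit 0x19d2c000000006)) e e)))))))))))
 (c (a (nat_lit 0x2020203c86))
 (c (a (nat_lit 0x2022633e8b44))
 (c (a (nat_lit 0x1849684260000005)) e
 (c (a (nat_lit 0x1028800000000006)) e e))
 (c (a (nat_lit 0x28484d36d51a6))
 (c (a (nat_lit 0x12e0000000000005)) e e)
 (c z e
 (c (a (nat_lit 0x113dbfbd66b7c6)) e
 (c z e
 (c z e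
 (c z e
 (c (a (nat_lit 0x9d112daec8008)) e
 (c (a (nat_lit 0xe714b40000007)) e e)))))))))
 (c (a (nat_lit 0x202031aaa6))
 (c (a (nat_lit 0x7072f4ed46726)) e e)
 (c (a (nat_lit 0x2031d02f26))
 (c (a (nat_lit 0x14ba354d7f0585)) e e)
 (c (a (nat_lit 0x238d2502fc6))
 (c (b (nat_lit 0x1fffffffe3f148)) e e)
 (c z e
 (c z e
 (c z e
 (c (a (nat_lit 0x11ef4a85c786)) e
 (c (a (nat_lit 0x10a9c061c845)) e
 (c (a (nat_lit 0x13e12c50e244)) e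
 (c (a (nat_lit 0x155476a82864)) e
 (c (a (nat_lit 0x189c80607e43)) e
 (c (a (nat_lit 0xee0e1100f04)) e
 (c z e
 (c (a (nat_lit 0xa31b130b105)) e
 (c (a (nat_lit 0xf87c0c32001)) e
 (c (a (nat_lit 0x2a040000001)) e e))))))))))))))))))
 C706)))) Tr.c Tr.e (nat_lit 0) C.cx C.cy
noncomputable def C708 : Tr := beta% (fun (c : Nat → Tr → Tr → Tr) (e : Tr) (z : Nat) (a b : Nat → Nat) =>
 (c (nat_lit 1)
 (c (a (nat_lit 0xa0a0a0a0a1))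
 (c (a (nat_lit 0x2c2c2da185205))
 (c (a (nat_lit 0x7c8250bb173f2c4)) e
 (c z e
 (c z e
 (c (a (nat_lit 0xb13f84889cbece6))
 (c (a (nat_lit 0xf532e2c49c905c888)) e
 (c (a (nat_lit 0x1c10b369abc205a008)) e e))
 (c (a (nat_lit 0x804e0687ac99165))
 (c (a (nat_lit 0x197b8ea94706000007)) e e)
 (c z e
 (c (a (nat_lit 0x444e345552ac565)) e
 (c (a (nat_lit 0x1029f619dbbf2044)) e
 (c (a (nat_lit 0x7ac3010dbd72585)) e
 (c z e
 (c (a (nat_lit 0xb49a5e6117abfc6)) e e)))))))))))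
 (c (a (nat_lit 0x2033eee8e5c7)) e
 (c z e
 (c (a (nat_lit 0x1bf7516b304686))
 (c (a (nat_lit 0x74fb10c4bcd9367)) e
 (c z e
 (c z e
 (c (a (nat_lit 0x173d78181f7980a7)) e
 (c (a (nat_lit 0xd077877314f24a7)) e
 (c (b (nat_lit 0xa1058cf7fe0ccc8)) e
 (c z e
 (c (a (nat_lit 0x8cb1229e6c00009)) e e))))))))
 (c z e
 (c z e
 (c (a (nat_lit 0x9578d84e48a26))
 (c z e
 (c (a (nat_lit 0xbe59c981a4b3567)) e e))
 (c (a (nat_lit 0x150b63424821c6))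
 (c (a (nat_lit 0x50ba9134aa703c7)) e e)
 (c z e
 (c z e
 (c (a (nat_lit 0x5a7042e8db007)) e
 (c z e
 (c z e
 (c (b (nat_lit 0x1ff217d2b612c4)) e
 (c (a (nat_lit 0x14010ea24002)) e
 (c (a (nat_lit 0x114c6fed084844)) e
 (c (a (nat_lit 0xff3708bcc2b44)) e
 (c (a (nat_lit 0x10cb21e1c00003)) e
 (c (a (nat_lit 0x16e1e000000002)) e e)))))))))))))))))))
 (c (a (nat_lit 0x4040404041))
 (c z e
 (c z e
 (c z e
 (c z e
 (c z e
 (c z e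
 (c z e
 (c z e
 (c z e
 (c z e
 (c z e
 (c (a (nat_lit 0x82e72b2cf6d28)) e
 (c (b (nat_lit 0x1ffd6feed27065)) e
 (c z e
 (c z e
 (c (a (nat_lit 0xc02a440a001)) e e))))))))))))))))
 (c (a (nat_lit 0x4040404041)) e
 (c (a (nat_lit 0x2020404041))
 (c (a (nat_lit 0xf158bc0224e06))
 (c (a (nat_lit 0x96a0388cd471c47)) e
 (c z e
 (c z e
 (c (a (nat_lit 0xa5027ac8a0e8868)) e
 (c (a (nat_lit 0xd079b2e324c4848)) e e)))))
 (c z e
 (c z e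
 (c (a (nat_lit 0x4b4df6a671085))
 (c z e
 (c (a (nat_lit 0x6c9eab62da00008)) e e))
 (c (a (nat_lit 0x3eb0064083b46))
 (c (a (nat_lit 0x111a751040000006)) e e)
 (c z e
 (c z e
 (c (a (nat_lit 0xc741a161e1da7)) e
 (c z e
 (c z e
 (c (a (nat_lit 0x64d51cc2d2927)) e
 (c (a (nat_lit 0x1256d0d1ce1027)) e
 (c (a (nat_lit 0x11cbecc905a007)) e e)))))))))))))
 (c (a (nat_lit 0xc0c0c0c0c1))
 (c z e
 (c z e
 (c z e
 (c z e
 (c z e
 (c z e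
 (c (a (nat_lit 0x8a8a80e372e68)) e
 (c z e
 (c (a (nat_lit 0x16bf88fd08dc8)) e
 (c (a (nat_lit 0x530a7cae9c628)) e
 (c (a (nat_lit 0x1c2a70cea78be7)) e e)))))))))))
 (c (a (nat_lit 0x8080a08061))
 (c (a (nat_lit 0xd52cbaf0ba0e5))
 (c (a (nat_lit 0x13abf5cd966684e6)) e e)
 (c z e
 (c z e
 (c (a (nat_lit 0x10b4b4aaa10b26)) e
 (c (a (nat_lit 0x15530ec76d9086)) e e)))))
 (c (a (nat_lit 0x2020202021))
 (c z e
 (c (a (nat_lit 0xe157ce8e0e885)) e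
 (c z e
 (c z e
 (c (a (nat_lit 0x4644582955d27)) e
 (c z e
 (c z e
 (c z e
 (c (a (nat_lit 0x129df32a200006)) e
 (c (a (nat_lit 0x1ce92000000006)) e e))))))))))
 (c (a (nat_lit 0x4040404041))
 (c (b (nat_lit 0xd93e8a461ffe5)) e
 (c z e
 (c z e
 (c (a (nat_lit 0x444c2a5533567)) e
 (c z e
 (c z e
 (c (b (nat_lit 0x1ff618d102a006)) e
 (c (a (nat_lit 0x10d22740000007)) e e))))))))
 (c (a (nat_lit 0x2020202021))
 (c (a (nat_lit 0x525c720657485)) e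
 (c (a (nat_lit 0x8290665c95447)) e
 (c z e
 (c z e
 (c (a (nat_lit 0x1e9ebcf4438e8)) e
 (c (a (nat_lit 0x1195bf85c00006)) e e))))))
 (c (a (nat_lit 0x20202012e3))
 (c (a (nat_lit 0xb4889cace15a6)) e e)
 (c (a (nat_lit 0x20202cb104))
 (c (a (nat_lit 0x38502c74c76a8)) e e)
 (c (b (nat_lit 0x1e21fffffe1)) e
 (c (a (nat_lit 0x10f215c50065)) e
 (c (a (nat_lit 0x7c9a1403506)) e
 (c (a (nat_lit 0x32140352f06)) e
 (c (a (nat_lit 0x241161004a6)) e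
 (c (a (nat_lit 0x67b5209e9e6)) e
 (c (a (nat_lit 0x11a800404406)) e
 (c (b (nat_lit 0x116202099fe5)) e
 (c z e
 (c (a (nat_lit 0x105f41205284)) e
 (c (a (nat_lit 0x1f2100329264)) e e))))))))))))))))))))))
 (c (a (nat_lit 0x20202021))
 (c (a (nat_lit 0x2020202021))
 (c (a (nat_lit 0x12efe4e26625c5))
 (c (a (nat_lit 0x43e5242c2a3e4e5)) e
 (c z e
 (c z e
 (c (a (nat_lit 0x52853aa6aa045c7)) e
 (c (a (nat_lit 0x2d8890cc22c5625)) e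
 (c (a (nat_lit 0x42426820280bb47)) e
 (c (a (nat_lit 0xef0132c8f16c025)) e
 (c (a (nat_lit 0xa123b48e0e732a6)) e
 (c (a (nat_lit 0xb4d935b0ac28806)) e e)))))))))
 (c z e
 (c z e
 (c (a (nat_lit 0x14b89343c5c8a5))
 (c (b (nat_lit 0xc0dffe550696da7)) e
 (c (b (nat_lit 0xebfe294d76769e7)) e
 (c z e
 (c z e
 (c (a (nat_lit 0x7f40c8c4ec70008)) e e)))))
 (c (a (nat_lit 0xe8c6664e8b065))
 (c (a (nat_lit 0x20dbf65668ff46)) e
 (c z e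
 (c z e
 (c (a (nat_lit 0x9aa2ad427e00008)) e e))))
 (c z e
 (c z e
 (c (a (nat_lit 0x4020a0605f66)) e
 (c (a (nat_lit 0x1a2826695ef47)) e
 (c z e
 (c z e
 (c (a (nat_lit 0xa1d766d0a8007)) e
 (c (a (nat_lit 0x11ea00a0a2c107)) e
 (c z e
 (c (a (nat_lit 0xbebd4cdebabe5)) e
 (c (b (nat_lit 0x1ff1a3c0200004)) e
 (c (a (nat_lit 0x16042000000004)) e e)))))))))))))))))
 (c (a (nat_lit 0x2020202021))
 (c z e
 (c z e
 (c z e
 (c z e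
 (c z e
 (c (a (nat_lit 0x12140804272a6))
 (c (a (nat_lit 0x172896f40000006)) e e)
 (c z e
 (c z e
 (c z e
 (c z e
 (c z e
 (c z e
 (c z e
 (c (b (nat_lit 0x1ff385a0802005)) e
 (c (a (nat_lit 0x13854020000005)) e e)))))))))))))))
 (c (a (nat_lit 0x6080808081)) e
 (c (a (nat_lit 0x12121212101))
 (c (a (nat_lit 0x2ab519a284582)) e
 (c (a (nat_lit 0x1e06180c1dec4))
 (c (a (nat_lit 0x11870b2c9666c028)) e e)
 (c z e
 (c z e
 (c (a (nat_lit 0x106d05a692ea7)) e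
 (c z e
 (c z e
 (c z e
 (c (a (nat_lit 0x88e186c0c25e8)) e
 (c (a (nat_lit 0x8b30829044448)) e
 (c (a (nat_lit 0x1da7c9a0202007)) e e)))))))))))
 (c (a (nat_lit 0xa0a0a0c0c1))
 (c (a (nat_lit 0xa0e082bdade4))
 (c (a (nat_lit 0x148d72154583a306)) e e)
 (c z e
 (c z e
 (c (a (nat_lit 0xe73134c8252e7)) e
 (c (a (nat_lit 0x118f2b45f2e907)) e
 (c z e
 (c z e
 (c (a (nat_lit 0x7b64b2d6f61e7)) e
 (c (a (nat_lit 0x1dc6ec152cab06)) e e)))))))))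
 (c (a (nat_lit 0xc0c0c0c0c1))
 (c z e
 (c (a (nat_lit 0x4d37689812926)) e e))
 (c (nat_lit 1)
 (c (a (nat_lit 0xbb8cb63898005)) e
 (c z e
 (c z e
 (c z e
 (c z e
 (c z e
 (c (a (nat_lit 0x2d2a763200007)) e
 (c (a (nat_lit 0x14044000000007)) e e))))))))
 (c (a (nat_lit 0x2020203406))
 (c (a (nat_lit 0x5454782e61d46)) e
 (c (a (nat_lit 0x42582c770ef68)) e
 (c z e
 (c z e
 (c (a (nat_lit 0x1599ae2a9e007)) e
 (c (a (nat_lit 0x1654e220000007)) e e))))))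
 (c (a (nat_lit 0x2020342906))
 (c (a (nat_lit 0x7a42656f1da47)) e
 (c z e
 (c z e
 (c (a (nat_lit 0x10b05375c00008)) e e))))
 (c (a (nat_lit 0x2034748006)) e
 (c (b (nat_lit 0x9a3bbfffe5)) e
 (c (a (nat_lit 0x1111c3e02506)) e
 (c (a (nat_lit 0x160aa093b164)) e
 (c (a (nat_lit 0xf4a53f2c9e5)) e
 (c z e
 (c (a (nat_lit 0x112f60a06024)) e
 (c (a (nat_lit 0x1d2040404043)) e
 (c z e
 (c (a (nat_lit 0xe8180605163)) e
 (c (a (nat_lit 0x8040249625)) e e))))))))))))))))))))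
 C707))) Tr.c Tr.e (nat_lit 0) C.cx C.cy
noncomputable def C709 : Tr := beta% (fun (c : Nat → Tr → Tr → Tr) (e : Tr) (z : Nat) (a b : Nat → Nat) =>
 (c (nat_lit 1)
 (c (a (nat_lit 0x202020310c06))
 (c (a (nat_lit 0xe690c67852f9145))
 (c z e
 (c z e
 (c z e
 (c (a (nat_lit 0x10d2324deeeeadcc69)) e
 (c z e
 (c z e
 (c z e
 (c (a (nat_lit 0x2306242e2e0000007)) e e))))))))
 (c z e
 (c z e
 (c (b (nat_lit 0xbf1dfffec246907))
 (c (a (nat_lit 0xe6d510eed668907a9)) e e)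
 (c z e
 (c z e
 (c z e
 (c (a (nat_lit 0x8c6e82daa33baa6)) e
 (c z e
 (c z e
 (c (a (nat_lit 0x3a381aa4f081b27)) e e)))))))))))
 (c (a (nat_lit 0x2020332eca88)) e
 (c (a (nat_lit 0x356dcc8648)) e
 (c (a (nat_lit 0x212cb6b058708))
 (c (a (nat_lit 0x232b874d02d6ee8))
 (c (a (nat_lit 0x13b5cf54cbea462008)) e e)
 (c z e
 (c z e
 (c z e
 (c (a (nat_lit 0xa8969142ec4ab88)) e
 (c z e
 (c z e
 (c (a (nat_lit 0xc4eadf80aa6e009)) e e))))))))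
 (c z e
 (c z e
 (c z e
 (c (a (nat_lit 0x4dff14848aea6))
 (c (a (nat_lit 0x6074b502d634188)) e e)
 (c z e
 (c z e
 (c (a (nat_lit 0x4cd6fd735d2a6)) e
 (c z e
 (c z e
 (c z e
 (c (a (nat_lit 0x4f8ebb133b605)) e
 (c (a (nat_lit 0x16a9763193d385)) e
 (c z e
 (c (b (nat_lit 0x15ffe88eaf8002)) e
 (c (a (nat_lit 0x12100000001)) e e)))))))))))))))))))
 (c (a (nat_lit 0x4040404041))
 (c (a (nat_lit 0x203eb8ada846))
 (c z e
 (c z e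
 (c z e
 (c z e
 (c z e
 (c (a (nat_lit 0x744b98d1af224e6)) e e))))))
 (c (a (nat_lit 0x211cf8ce903a8)) e e))
 (c (a (nat_lit 0x2020000001))
 (c (b (nat_lit 0x1392126d2d9fe7))
 (c (a (nat_lit 0xc95712724131246))
 (c z e
 (c (a (nat_lit 0x7b327ede864224008)) e e))
 (c z e
 (c z e
 (c (a (nat_lit 0x8ab8ec98a112b68)) e
 (c (a (nat_lit 0x3a92765e9489828)) e
 (c z e
 (c z e
 (c (a (nat_lit 0xa0869b0ab2883a7)) e e))))))))
 (c z e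
 (c z e
 (c (a (nat_lit 0x9f34442e38e66))
 (c (a (nat_lit 0x1a5eb6671aa04c7)) e
 (c (a (nat_lit 0x288c7d6482ac909)) e
 (c z e
 (c z e
 (c (a (nat_lit 0x13749aefa0000008)) e e)))))
 (c (a (nat_lit 0x112200e6c96246))
 (c (a (nat_lit 0x4c3d0658826a229)) e
 (c z e
 (c z e
 (c (a (nat_lit 0xb3b4c2000000008)) e e))))
 (c z e
 (c z e
 (c (a (nat_lit 0x9ed71f1ce2f46)) e
 (c z e
 (c z e
 (c (a (nat_lit 0x2a3a9b14a6848)) e
 (c (a (nat_lit 0x303df5006a886)) e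
 (c z e
 (c (a (nat_lit 0x15e92042322426)) e
 (c (a (nat_lit 0x9804272824006)) e e)))))))))))))))
 (c (a (nat_lit 0x2020202021))
 (c (a (nat_lit 0x16f71992682b86))
 (c (a (nat_lit 0x66e2c062e526507)) e
 (c z e
 (c z e
 (c z e
 (c (a (nat_lit 0x56762340ba948e9)) e e)))))
 (c z e
 (c z e
 (c z e
 (c (a (nat_lit 0xa71d4522d84a6))
 (c (a (nat_lit 0x13ae4e4ce5c00008)) e e)
 (c z e
 (c (a (nat_lit 0xdef7227c46187)) e
 (c (a (nat_lit 0xf52cbe5669ca7)) e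
 (c z e
 (c (a (nat_lit 0x625cdb9f04f28)) e
 (c z e
 (c (a (nat_lit 0x55a0dd4938c87)) e
 (c (a (nat_lit 0x15692feee7e887)) e e)))))))))))))
 (c (a (nat_lit 0x6060604041)) e
 (c (a (nat_lit 0x4040404041))
 (c (a (nat_lit 0x54eef75834485))
 (c (a (nat_lit 0x7cf022cad31cb06)) e
 (c (a (nat_lit 0x1b00cecbca24a887)) e e))
 (c (b (nat_lit 0x178e8b241fffe5))
 (c (a (nat_lit 0x290f024e1a6a007)) e e)
 (c z e
 (c z e
 (c (a (nat_lit 0x1134734553f546)) e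
 (c z e
 (c z e
 (c (b (nat_lit 0x1fe32e0e10cda7)) e
 (c (a (nat_lit 0xf70cdf5868626)) e
 (c z e
 (c (a (nat_lit 0x8dc00c0200005)) e
 (c (a (nat_lit 0x1ca08000000005)) e e))))))))))))
 (c (a (nat_lit 0x4040404021))
 (c (a (nat_lit 0x12ad55cb640344))
 (c (a (nat_lit 0xab403e303c00006)) e e)
 (c z e
 (c z e
 (c (a (nat_lit 0x19b374584daf44)) e
 (c z e
 (c z e
 (c (a (nat_lit 0x5e6ce30b24dc8)) e
 (c z e
 (c (a (nat_lit 0x321ab04aa006)) e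
 (c (a (nat_lit 0xd5585a0000006)) e e))))))))))
 (c (a (nat_lit 0xa0a0a0a081))
 (c (a (nat_lit 0xfede521124264)) e
 (c z e
 (c z e
 (c (a (nat_lit 0x56905866cd3a7)) e
 (c z e
 (c z e
 (c z e
 (c (a (nat_lit 0xcdc9c8a000006)) e e))))))))
 (c (a (nat_lit 0x2001))
 (c (a (nat_lit 0x9087047062b65)) e
 (c (a (nat_lit 0x8976948e0e045)) e
 (c z e
 (c z e
 (c (a (nat_lit 0x1e6afe9b247)) e
 (c (a (nat_lit 0x8e87acb42c006)) e e))))))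
 (c (a (nat_lit 0x10101010101))
 (c (a (nat_lit 0x16ae0fcd859625)) e
 (c z e
 (c z e
 (c (a (nat_lit 0x1c144496d1ac8)) e e))))
 (c (a (nat_lit 0x2020203ce4))
 (c (a (nat_lit 0x4a685c3a65148)) e e)
 (c (b (nat_lit 0x20205fffe1))
 (c z e
 (c (a (nat_lit 0xe188d0800009)) e
 (c (a (nat_lit 0x2d24000000005)) e e)))
 (c (b (nat_lit 0x147472bfffe3))
 (c (a (nat_lit 0x12d575a0000008)) e
 (c (a (nat_lit 0x14200000000006)) e e))
 (c (a (nat_lit 0xbad12d00a4)) e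
 (c (a (nat_lit 0xd2866403ac5)) e
 (c (a (nat_lit 0x502203ab2a5)) e
 (c (a (nat_lit 0x7455ff7ccc5)) e
 (c (a (nat_lit 0xc9f53b41965)) e
 (c (a (nat_lit 0x1600802a4444)) e
 (c (b (nat_lit 0x6196eb5fe3)) e
 (c z e
 (c (a (nat_lit 0x13ae802022c4)) e
 (c (a (nat_lit 0x18e98acd8524)) e e)))))))))))))))))))))))) Tr.c Tr.e (nat_lit 0) C.cx C.cy
noncomputable def C710 : Tr := beta% (fun (c : Nat → Tr → Tr → Tr) (e : Tr) (z : Nat) (a b : Nat → Nat) =>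
 (c (nat_lit 1)
 (c (a (nat_lit 0x2020202021))
 (c z
 (c z e
 (c z e
 (c z e
 (c z e
 (c z e
 (c z e
 (c z e
 (c z e
 (c z e
 (c z e
 (c (a (nat_lit 0x18b14c45c384c164)) e
 (c (a (nat_lit 0x7cb70c7e8840e04)) e
 (c (a (nat_lit 0x175dba5b36f7fde4)) e
 (c z e
 (c (a (nat_lit 0xfd47412f22d8c06)) e e)))))))))))))))
 (c z e
 (c z
 (c z e
 (c z e
 (c z e
 (c z e
 (c z e
 (c z e
 (c z e
 (c z e
 (c z e
 (c (a (nat_lit 0x3c5a86a2220f766)) e e))))))))))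
 (c z
 (c z e
 (c z e
 (c z e
 (c z e
 (c z e
 (c z e
 (c z e
 (c z e
 (c (a (nat_lit 0x1271f073a442ac46)) e e)))))))))
 (c (a (nat_lit 0x202020203cc6)) e
 (c (a (nat_lit 0x202020320a27))
 (c z e
 (c z e
 (c z e
 (c z e
 (c (a (nat_lit 0xaf25c58f38d1366)) e e)))))
 (c (a (nat_lit 0x2020358827e7))
 (c z e
 (c z e
 (c (a (nat_lit 0x123a54e0e695167)) e e)))
 (c (a (nat_lit 0x2038ad2b0e06)) e
 (c z e
 (c z e
 (c z e
 (c z e
 (c z e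
 (c z e
 (c z e
 (c z e
 (c z e
 (c z e
 (c z e
 (c z e
 (c z e
 (c (a (nat_lit 0x1dd19473800002)) e
 (c (a (nat_lit 0x8000000001)) e e)))))))))))))))))))))))
 (c (a (nat_lit 0x6060606061))
 (c z
 (c z e
 (c z e
 (c z e
 (c z e
 (c z e
 (c z e
 (c z e
 (c z e
 (c z e
 (c (a (nat_lit 0x1217577343450785)) e
 (c (a (nat_lit 0x1351f42c4ae08186)) e e)))))))))))
 (c z e
 (c (a (nat_lit 0x2020203467)) e
 (c (a (nat_lit 0x2020203b7187)) e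
 (c (a (nat_lit 0x2020316a6a08)) e
 (c (a (nat_lit 0x203aecece807)) e
 (c (a (nat_lit 0x21bb572099b66)) e e)))))))
 (c (a (nat_lit 0x2020202021))
 (c (a (nat_lit 0x2020202031c6))
 (c z e
 (c z e
 (c z e
 (c z e
 (c z e
 (c z e
 (c z e
 (c (a (nat_lit 0x17f2d799f9193ce6)) e
 (c (a (nat_lit 0x711144aaf5d46c5)) e e)))))))))
 (c (a (nat_lit 0x202020385147)) e
 (c (a (nat_lit 0x2020368fee28))
 (c z e
 (c z e
 (c z e
 (c z e
 (c (b (nat_lit 0x485a37ff0c0cf88)) e e)))))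
 (c (a (nat_lit 0x2030cfae07c8)) e e))))
 (c (a (nat_lit 0x4060606061))
 (c (a (nat_lit 0x202036342e07)) e
 (c (a (nat_lit 0x2033720eea08))
 (c z e
 (c z e
 (c z e
 (c z e
 (c z e
 (c (b (nat_lit 0x2dcfd6509fe6c7)) e e)))))) e))
 (c (a (nat_lit 0x2020202021))
 (c (a (nat_lit 0x151d130eda027)) e e)
 (c (a (nat_lit 0x4040404041)) e
 (c (a (nat_lit 0xa0a0a0a0a1)) e
 (c (nat_lit 1)
 (c z e
 (c z e
 (c z e
 (c z e
 (c z e
 (c z e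
 (c z e
 (c z e
 (c z e
 (c z e
 (c (a (nat_lit 0x3a4d0a0612006)) e e)))))))))))
 (c (a (nat_lit 0x4040404041)) e
 (c (nat_lit 1) e
 (c (a (nat_lit 0x20200001)) e
 (c (a (nat_lit 0x6060404041)) e
 (c (a (nat_lit 0x10101010101)) e
 (c (a (nat_lit 0x203701))
 (c z e
 (c z e
 (c (a (nat_lit 0x12b49a40000008)) e e)))
 (c (b (nat_lit 0x20203ff781))
 (c (a (nat_lit 0x10917478600008)) e
 (c (a (nat_lit 0x19682000000005)) e e))
 (c (a (nat_lit 0x202e10ea45)) e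
 (c (a (nat_lit 0x6e512ab625)) e
 (c z e
 (c z e
 (c z e
 (c z e
 (c (a (nat_lit 0x1714a6a67f05)) e
 (c (a (nat_lit 0xe404038d6e5)) e e)))))))))))))))))))))))
 (c (a (nat_lit 0x40404041))
 (c (nat_lit 1)
 (c z
 (c (a (nat_lit 0x3394b49e9a74002))
 (c z e
 (c z e
 (c z e
 (c z e
 (c z e
 (c z e
 (c z e
 (c (a (nat_lit 0x2426271c2e504a0e7)) e e))))))))
 (c z e
 (c z e
 (c (a (nat_lit 0xa46a7c5af8f30a5))
 (c z e
 (c (a (nat_lit 0x113f24f37d5a228607)) e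
 (c (a (nat_lit 0x162f0d2d28e865a5e8)) e
 (c z e
 (c (a (nat_lit 0x1901a5652124e5c008)) e e)))))
 (c (a (nat_lit 0x7a9279acaa384c5)) e
 (c z e
 (c (a (nat_lit 0x66e4f6f2970dde5)) e
 (c (a (nat_lit 0xc6a0d4d23b25444)) e
 (c (a (nat_lit 0x243c4216b2bf504)) e
 (c (a (nat_lit 0x706e58c0bd046c5)) e
 (c z e
 (c (a (nat_lit 0xe9515b930ee0de6)) e
 (c z e
 (c (a (nat_lit 0x2638243c54776e7)) e
 (c (a (nat_lit 0x1f0e10fa0d600004)) e e)))))))))))))))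
 (c (a (nat_lit 0x2020202033a6))
 (c z e
 (c z e
 (c z e
 (c z e
 (c z e
 (c z e
 (c z e
 (c z e
 (c (a (nat_lit 0x8e70a4b4a0691a7)) e e)))))))))
 (c (a (nat_lit 0x20202036af06)) e
 (c (a (nat_lit 0x2020216ae6f07))
 (c (b (nat_lit 0x19fe4abff6e65c6))
 (c (a (nat_lit 0x6f634a643c9880307)) e
 (c (a (nat_lit 0x115371460bc4a56369)) e
 (c (b (nat_lit 0x13e9a7289fe0a563e8)) e e)))
 (c z e
 (c z e
 (c (a (nat_lit 0x34e2d502ab48227)) e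
 (c (a (nat_lit 0x1facea2ebb4a8246)) e
 (c z e
 (c z e
 (c (b (nat_lit 0x3ebe1c8937fe7c7)) e
 (c z e
 (c z e
 (c (a (nat_lit 0x3ee2cdc60000008)) e
 (c (a (nat_lit 0x1020400000000007)) e e))))))))))))
 (c (a (nat_lit 0x2030e5c68367))
 (c z e
 (c z e
 (c z e
 (c z e
 (c z e
 (c z e
 (c (a (nat_lit 0xb44ec112726c868)) e
 (c z e
 (c z e
 (c (a (nat_lit 0xfa7f86000000008)) e e))))))))))
 (c (a (nat_lit 0x415eff24beee6)) e
 (c (a (nat_lit 0x104ccd88ab8646))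
 (c (a (nat_lit 0x18743224a83d5a06)) e
 (c (a (nat_lit 0x608a664d2523d07)) e
 (c z e
 (c z e
 (c (a (nat_lit 0x52e54baf10e07a7)) e e)))))
 (c (a (nat_lit 0x1116d1792ee2e5))
 (c (a (nat_lit 0x5272587a7b067e8)) e
 (c z e
 (c z e
 (c (a (nat_lit 0x6ca7bc84ba60008)) e e))))
 (c z e
 (c (b (nat_lit 0x1ffae300c0e064))
 (c (a (nat_lit 0x8db2e8849a34007)) e
 (c (a (nat_lit 0x198a29a5a0000008)) e e))
 (c (b (nat_lit 0x1b8645d0a71fe4))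
 (c (a (nat_lit 0x1957a90000000006)) e e)
 (c z e
 (c z e
 (c (a (nat_lit 0xc4b7179395186)) e
 (c (a (nat_lit 0xa27b6b6d79385)) e
 (c (a (nat_lit 0x2f1b032cef145)) e
 (c (a (nat_lit 0xa41b3e2f5e002)) e
 (c (a (nat_lit 0xfda11ba710fa3)) e
 (c (a (nat_lit 0x1efabf3aba1984)) e
 (c (a (nat_lit 0x5d68281a00002)) e
 (c (a (nat_lit 0x1681a000000002)) e e)))))))))))))))))))))
 C709)
 C708))) Tr.c Tr.e (nat_lit 0) C.cx C.cy
noncomputable def C711 : Tr := beta% (fun (c : Nat → Tr → Tr → Tr) (e : Tr) (z : Nat) (a b : Nat → Nat) =>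
 (c (a (nat_lit 0x4040404041))
 (c (a (nat_lit 0x202020391586))
 (c (a (nat_lit 0x22a5c8abbf6025))
 (c z e
 (c (a (nat_lit 0xf090aaeb264c8c968)) e
 (c z e
 (c (a (nat_lit 0x8908a45c6e4446649)) e
 (c (a (nat_lit 0x1e35c7a7452527c5a7)) e e)))))
 (c z e
 (c z e
 (c (a (nat_lit 0x9892c3045247688)) e
 (c (a (nat_lit 0x850ed2482364e07)) e
 (c z e
 (c z e
 (c (b (nat_lit 0x1ffff5d517b36226)) e
 (c (b (nat_lit 0xac2b8db3ffe267)) e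
 (c z e
 (c z e
 (c (a (nat_lit 0x84a6927d0a00008)) e
 (c (a (nat_lit 0x11a4c02000000006)) e e)))))))))))))
 (c (a (nat_lit 0x202037549188)) e
 (c (a (nat_lit 0x2032718ea668)) e
 (c (a (nat_lit 0x457b6d46b6828))
 (c z e
 (c (a (nat_lit 0x145968a89e74b28)) e
 (c z e
 (c z e
 (c (a (nat_lit 0xb8eeacbcf7828e9)) e e)))))
 (c (a (nat_lit 0x1a7a56482280a7))
 (c (a (nat_lit 0x6100528094a1187)) e
 (c z e
 (c z e
 (c (a (nat_lit 0x62a0dcb11500a88)) e e))))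
 (c z e
 (c z e
 (c (a (nat_lit 0x88e0b65a0b4c6))
 (c (a (nat_lit 0xbcf0febd5c94008)) e
 (c (a (nat_lit 0x114dcda8e0000009)) e e))
 (c (a (nat_lit 0x7666262f51026))
 (c (a (nat_lit 0x10cee46000000008)) e e)
 (c z e
 (c z e
 (c (a (nat_lit 0xfb754b512c967)) e
 (c (a (nat_lit 0x178cede4a98365)) e
 (c z e
 (c (a (nat_lit 0x108b6beb8a9026)) e
 (c (a (nat_lit 0x6c6660590b285)) e
 (c (b (nat_lit 0x4c063597d3fe4)) e e)))))))))))))))))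
 (c (a (nat_lit 0x4040404041))
 (c (a (nat_lit 0x35f5956a67)) e
 (c z e
 (c z e
 (c z e
 (c z e
 (c z e
 (c z e
 (c z e
 (c z e
 (c z e
 (c (a (nat_lit 0x108b0949464388)) e e)))))))))))
 (c (a (nat_lit 0x20002001))
 (c z e
 (c z e
 (c z e
 (c (a (nat_lit 0x1990690121f426)) e
 (c z e
 (c z e
 (c z e
 (c (a (nat_lit 0x9d3eba8478027)) e
 (c z e
 (c z e
 (c (a (nat_lit 0xa08e8ceeb1066)) e
 (c (a (nat_lit 0x9894f6b910c66)) e
 (c z e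
 (c (a (nat_lit 0x1188d24c2bc1e5)) e
 (c (a (nat_lit 0x10da7449e00005)) e e)))))))))))))))
 (c (a (nat_lit 0x10101010101))
 (c (a (nat_lit 0x16922c8a202047)) e
 (c (a (nat_lit 0x1d30298383b4e6))
 (c (a (nat_lit 0x465462993ce2a29)) e
 (c z e
 (c z e
 (c (a (nat_lit 0x6d0288829a3c00a)) e e))))
 (c z e
 (c z e
 (c (a (nat_lit 0xbe7d12aa4ed27)) e
 (c z e
 (c z e
 (c z e
 (c (a (nat_lit 0x461c60ac314e5)) e
 (c (a (nat_lit 0x15793e75ff5065)) e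
 (c (a (nat_lit 0x165bd41d2e2e45)) e
 (c z e
 (c (a (nat_lit 0x107a2b4b4b0005)) e
 (c (a (nat_lit 0x1ee140a0000004)) e e))))))))))))))
 (c (a (nat_lit 0x6060606061))
 (c (a (nat_lit 0x8a1e1407c0c44))
 (c (a (nat_lit 0x2a1a13cb39c0746)) e
 (c z e
 (c z e
 (c (a (nat_lit 0xfebd38985000008)) e
 (c (a (nat_lit 0x185fe62000000007)) e e)))))
 (c z e
 (c z e
 (c (a (nat_lit 0x9350741e04426)) e
 (c (a (nat_lit 0x1b2dca438222c6)) e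
 (c z e
 (c z e
 (c (a (nat_lit 0x54949898cd4a7)) e
 (c (a (nat_lit 0x300602d150526)) e
 (c z e
 (c (a (nat_lit 0x533dc0a4e4cc6)) e
 (c (b (nat_lit 0x8705fe1a00006)) e e))))))))))))
 (c (a (nat_lit 0x2001))
 (c (a (nat_lit 0xb30d303004045))
 (c (a (nat_lit 0xa84243326ec02c6)) e
 (c (a (nat_lit 0x848b32a2a600007)) e e))
 (c (a (nat_lit 0x7d3256240c3a6))
 (c (a (nat_lit 0xb302e07e0000007)) e e)
 (c z e
 (c z e
 (c (a (nat_lit 0x1e1a6a26199a5)) e e)))))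
 (c (nat_lit 1)
 (c (a (nat_lit 0x11c6a0a08404c5))
 (c (a (nat_lit 0x16f807c000000005)) e e)
 (c z e
 (c z e
 (c (a (nat_lit 0x9b053325a5d26)) e
 (c z e
 (c z e
 (c (a (nat_lit 0x75296cc48c846)) e
 (c (a (nat_lit 0x181c8b4b430145)) e e))))))))
 (c (a (nat_lit 0x200001))
 (c (a (nat_lit 0x447c6e672c5)) e
 (c (a (nat_lit 0xa4e0d0d37fb06)) e
 (c z e
 (c z e
 (c (b (nat_lit 0x1fe70a07009026)) e
 (c (a (nat_lit 0x18bf196b206105)) e e))))))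
 (c (nat_lit 1)
 (c (b (nat_lit 0xa6a0cb3919fe5)) e
 (c z e
 (c z e
 (c (a (nat_lit 0xe4d94149dfbe7)) e e))))
 (c (a (nat_lit 0xa0c0c0c0c1))
 (c (a (nat_lit 0x36a6981e07a26)) e
 (c z e
 (c z e
 (c (a (nat_lit 0xa2aaf38a86007)) e
 (c (a (nat_lit 0xd119040000007)) e
 (c (a (nat_lit 0x1b600000000005)) e e))))))
 (c (a (nat_lit 0x6060606061))
 (c z e
 (c (a (nat_lit 0x58565e550aec9)) e
 (c (a (nat_lit 0x16575676000008)) e
 (c (a (nat_lit 0x10c2a000000005)) e e))))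
 (c (a (nat_lit 0x2020203145))
 (c (a (nat_lit 0xe0eef0ff50008)) e
 (c (a (nat_lit 0x1ec04040000004)) e
 (c (a (nat_lit 0x600000000001)) e e)))
 (c (a (nat_lit 0x20202f9206)) e
 (c (a (nat_lit 0xf920f46)) e
 (c (a (nat_lit 0x4fb22f64e6)) e
 (c (a (nat_lit 0x159a75002045)) e
 (c (b (nat_lit 0x1a9500209fe5)) e
 (c z e
 (c (a (nat_lit 0x1b9b1a99f9e5)) e
 (c (a (nat_lit 0x260e02058e5)) e
 (c (a (nat_lit 0x382e31ba2c5)) e
 (c z e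
 (c (a (nat_lit 0x75fe6c02005)) e
 (c (a (nat_lit 0x1023a0200006)) e e))))))))))))))))))))))))) Tr.c Tr.e (nat_lit 0) C.cx C.cy
noncomputable def C712 : Tr := beta% (fun (c : Nat → Tr → Tr → Tr) (e : Tr) (z : Nat) (a : Nat → Nat) =>
 (c z
 (c (a (nat_lit 0xb2b2b2b2b3f5543))
 (c (a (nat_lit 0x869c9ea6aebaf5164)) e
 (c (a (nat_lit 0x689ca2a4c56b8bc85)) e
 (c z e
 (c z e
 (c z e
 (c z e
 (c z e
 (c z e
 (c z e
 (c z e
 (c z e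
 (c z e
 (c (a (nat_lit 0xbcc0a90d156b96cc6)) e
 (c (a (nat_lit 0x221c505856809b447)) e
 (c z e
 (c (a (nat_lit 0x545c586e771c00007)) e e))))))))))))))))
 (c (a (nat_lit 0x2020203c549125)) e
 (c (a (nat_lit 0x4a4a4be5834c025)) e
 (c (a (nat_lit 0x7273adfb7c1ec05))
 (c z e
 (c z e
 (c z e
 (c z e
 (c z e
 (c (a (nat_lit 0xa68a7505397b0e265)) e
 (c z e
 (c (a (nat_lit 0x5c44bce8706495307)) e e))))))))
 (c (a (nat_lit 0x4d0d6526820c106))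
 (c (a (nat_lit 0xf8fde5458b457f8e6)) e
 (c z e
 (c z e
 (c (a (nat_lit 0x1110afd252d5f40f47)) e
 (c z e
 (c z e
 (c z e
 (c (a (nat_lit 0x7a848064656048568)) e
 (c (a (nat_lit 0x92d6ce7dc5aabe7e8)) e e)))))))))
 (c z e
 (c (a (nat_lit 0x1e3c7024022041c5))
 (c z e
 (c z e
 (c z e
 (c (a (nat_lit 0x804e28743e86b13e8)) e e))))
 (c (a (nat_lit 0x114b87a76061a386))
 (c (a (nat_lit 0x3a6066565c78eb228)) e
 (c (a (nat_lit 0x2442322e4fc8c4a08)) e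
 (c z e
 (c z e
 (c (a (nat_lit 0x2a17983036e624008)) e e)))))
 (c (a (nat_lit 0x4a1a3060a904dc4))
 (c (a (nat_lit 0x503c2e29ee60c8a87)) e
 (c z e
 (c z e
 (c (a (nat_lit 0x23022a46823000009)) e e))))
 (c z e
 (c z e
 (c (a (nat_lit 0x7c94e8c120f0845)) e
 (c z e
 (c z e
 (c (a (nat_lit 0xf1412ef05e5c126)) e
 (c (a (nat_lit 0x1a5731702fec2b25)) e
 (c (a (nat_lit 0x14a4e080c503c044)) e
 (c z e
 (c z e
 (c z e
 (c (a (nat_lit 0x1756078000000003)) e e)))))))))))))))))))))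
 (c z
 (c (a (nat_lit 0x20203a7412a3a6)) e
 (c (a (nat_lit 0x202153573a08b27)) e
 (c z e
 (c z e
 (c z e
 (c z e
 (c z e
 (c z e
 (c z e
 (c z e
 (c z e
 (c z e
 (c (a (nat_lit 0xcaf73cac2822027)) e e)))))))))))))
 (c z e
 (c z
 (c (a (nat_lit 0x106f46ec07630746))
 (c z e
 (c z e
 (c z e
 (c z e
 (c z e
 (c z e
 (c (a (nat_lit 0x98ac66b660f4b9567)) e
 (c (a (nat_lit 0x1728ac71ef6877d0a7)) e
 (c z e
 (c z e
 (c (a (nat_lit 0x139712546000000007)) e e)))))))))))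
 (c z e
 (c z e
 (c (a (nat_lit 0xa62e2c96d541026))
 (c (a (nat_lit 0xc0686b12ee7cdc849)) e e)
 (c z e
 (c z e
 (c z e
 (c z e
 (c (a (nat_lit 0x73d58f4c2622a6)) e
 (c z e
 (c (a (nat_lit 0x12efd291a8628207)) e
 (c z e
 (c (a (nat_lit 0x10520ec64461e946)) e
 (c (a (nat_lit 0x1cb5caab0ac2a345)) e
 (c (a (nat_lit 0x12e727a760616005)) e e)))))))))))))))
 (c z
 (c (a (nat_lit 0x27472360b11425))
 (c z e
 (c z e
 (c z e
 (c (a (nat_lit 0x169a540cfd3fd647e8)) e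
 (c (a (nat_lit 0xa49a68c5456848208)) e
 (c z e
 (c z e
 (c (a (nat_lit 0x9d034a8f80f800007)) e e))))))))
 (c z e
 (c z e
 (c (a (nat_lit 0x2648846a70cb4a7))
 (c z e
 (c (a (nat_lit 0x113cefa66944c3a4e9)) e e))
 (c (a (nat_lit 0x65c22aa215cb66))
 (c (a (nat_lit 0x1a0f0b45864926a4e8)) e e)
 (c z e
 (c z e
 (c (a (nat_lit 0xb4cbcd89e567166)) e
 (c z e
 (c z e
 (c z e
 (c (a (nat_lit 0x9ea262c8bf0d507)) e
 (c (a (nat_lit 0x15ccc8c78c4b42c6)) e e)))))))))))))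
 (c z e
 (c z
 (c (a (nat_lit 0x345a40e6cedf466)) e
 (c z e
 (c z e
 (c z e
 (c z e
 (c z e
 (c z e
 (c (a (nat_lit 0x9e92a4e492c73a8)) e
 (c z e
 (c z e
 (c (a (nat_lit 0x14828af205a00006)) e
 (c (a (nat_lit 0x9118c4000000006)) e e))))))))))))
 (c (a (nat_lit 0x202020203487))
 (c z e
 (c (a (nat_lit 0x17b414f9d5949366))
 (c (a (nat_lit 0x104d6c108380000008)) e e)
 (c z e
 (c z e
 (c (a (nat_lit 0x17b08d55fcfd70c6)) e
 (c z e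
 (c z e
 (c z e
 (c (a (nat_lit 0x46525e627f0a009)) e
 (c (a (nat_lit 0x1d0b484180000004)) e e))))))))))
 (c (a (nat_lit 0x202020380e46))
 (c (a (nat_lit 0x18262c386718686)) e
 (c z e
 (c z e
 (c (a (nat_lit 0x56854f32e124a67)) e
 (c z e
 (c z e
 (c z e
 (c (a (nat_lit 0x94a8a2af5400009)) e
 (c (a (nat_lit 0x1282e0e000000005)) e e)))))))))
 (c (a (nat_lit 0x20203f5994c5)) e
 (c (a (nat_lit 0x60781b14c645)) e
 (c (a (nat_lit 0x1f0310c850446))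
 (c (a (nat_lit 0x727258645f0e188)) e e)
 (c z e
 (c z e
 (c z e
 (c (a (nat_lit 0x113131517436c6)) e
 (c (a (nat_lit 0xe2281ec524)) e
 (c (a (nat_lit 0x168bfc52ba4)) e
 (c (a (nat_lit 0x80bb7692ce885)) e
 (c (a (nat_lit 0x7ff42aac1c6a4)) e
 (c (a (nat_lit 0x10c26682048005)) e
 (c z e
 (c (a (nat_lit 0x12cdd00c0a2a45)) e
 (c (a (nat_lit 0xdd68660200003)) e
 (c (a (nat_lit 0x1da6e000000003)) e e)))))))))))))))))))))))))) Tr.c Tr.e (nat_lit 0) C.cx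
noncomputable def C713 : Tr := beta% (fun (c : Nat → Tr → Tr → Tr) (e : Tr) (z : Nat) (a b : Nat → Nat) =>
 (c (a (nat_lit 0x10101010101))
 (c (a (nat_lit 0x141415b17d7c6))
 (c (a (nat_lit 0x4848511f1d55005)) e
 (c (a (nat_lit 0x5c5e9ea958a4647)) e
 (c z e
 (c (b (nat_lit 0x809dfea4ab51926)) e
 (c (a (nat_lit 0x9e6e72cd6110e86)) e
 (c z e
 (c z e
 (c (b (nat_lit 0xece59bfcf361fe6)) e
 (c z e
 (c z e
 (c (a (nat_lit 0x11ce34d4c0000006)) e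
 (c (a (nat_lit 0x1892c00000000005)) e e))))))))))))
 (c (a (nat_lit 0x2031d21249c7))
 (c z e
 (c z e
 (c z e
 (c z e
 (c z e
 (c z e
 (c (a (nat_lit 0x749120a660706e8)) e
 (c z e
 (c z e
 (c (a (nat_lit 0x179071e000000007)) e e))))))))))
 (c (a (nat_lit 0x23454952ca567)) e
 (c (a (nat_lit 0xf10b049048167))
 (c (a (nat_lit 0xacdf36e6b22ce46)) e
 (c (a (nat_lit 0x64ac68562687728)) e
 (c (b (nat_lit 0x7c606dfe484fe68)) e
 (c z e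
 (c (b (nat_lit 0xe3fe95153f06207)) e e)))))
 (c (a (nat_lit 0x12915209a4e506))
 (c (a (nat_lit 0x9a5634505367607)) e
 (c z e
 (c z e
 (c (a (nat_lit 0x5e750ce2dc52008)) e e))))
 (c z e
 (c z e
 (c (a (nat_lit 0xc8528557025a5))
 (c (a (nat_lit 0x1deec60000000006)) e e)
 (c z e
 (c z e
 (c (a (nat_lit 0x16565170b2c1c6)) e
 (c (a (nat_lit 0x16c26348e67a84)) e
 (c z e
 (c (a (nat_lit 0x3a6c5f00cb0e5)) e
 (c (a (nat_lit 0xae9b270d4f2c5)) e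
 (c (a (nat_lit 0x1af4c98946a04)) e
 (c (a (nat_lit 0xf8cd8ca600004)) e
 (c (a (nat_lit 0x10ee8000000004)) e e))))))))))))))))))
 (c (a (nat_lit 0x14141414141))
 (c (a (nat_lit 0x4143171cba4e6))
 (c (a (nat_lit 0xc2fcdd18606eb45)) e
 (c z e
 (c z e
 (c (a (nat_lit 0xc31ca48f0f94a46)) e
 (c (a (nat_lit 0x3844164e3a27cc8)) e
 (c z e
 (c (a (nat_lit 0x4c86726770de7c8)) e
 (c (b (nat_lit 0x7069ff76fc38008)) e e))))))))
 (c z e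
 (c z e
 (c (a (nat_lit 0x110ee5a30023e6))
 (c z e
 (c (a (nat_lit 0x5a7247ab611ac88)) e e))
 (c (a (nat_lit 0x1dca05e0880d45))
 (c (a (nat_lit 0x28211af69a68588)) e e)
 (c z e
 (c (a (nat_lit 0xbeb3c9cf0ad65))
 (c (a (nat_lit 0x174d400000000005)) e e)
 (c (a (nat_lit 0xed009a82006)) e
 (c z e
 (c (a (nat_lit 0x10af2f4f86c6e7)) e
 (c (a (nat_lit 0xff11ac5882f62)) e
 (c (a (nat_lit 0x1476d212f45104)) e
 (c (a (nat_lit 0x1310f171d03025)) e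
 (c (a (nat_lit 0xc2d8f0a6a52a3)) e
 (c (a (nat_lit 0x16ba71f1b14002)) e
 (c (a (nat_lit 0x14234220000001)) e e))))))))))))))))
 (c (a (nat_lit 0x16161616161))
 (c z e
 (c z e
 (c z e
 (c z e
 (c z e
 (c z e
 (c z e
 (c z e
 (c (a (nat_lit 0x586c88a306264)) e
 (c (a (nat_lit 0xd2dceb1d1ccc5)) e
 (c (b (nat_lit 0x2a612d33fffe3)) e
 (c z e
 (c (a (nat_lit 0x13f2ef2789e8a5)) e
 (c (a (nat_lit 0x168f6042800004)) e e))))))))))))))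
 (c (a (nat_lit 0x10101010101))
 (c (a (nat_lit 0x13e1a061850c64))
 (c (a (nat_lit 0x20242e310966a66)) e
 (c (b (nat_lit 0x1fe565f8b3d385e7)) e
 (c z e
 (c (a (nat_lit 0x350d61227e5c007)) e
 (c (a (nat_lit 0xbb5cd4320000007)) e e)))))
 (c (a (nat_lit 0x440c43c8927c4))
 (c (a (nat_lit 0x766968f53ce6387)) e
 (c z e
 (c z e
 (c (a (nat_lit 0x141445a000000007)) e e))))
 (c z e
 (c (a (nat_lit 0x1b9a990f80abe4)) e
 (c (a (nat_lit 0x1c75ae8e25e545)) e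
 (c z e
 (c z e
 (c (a (nat_lit 0x628880847d105)) e
 (c (a (nat_lit 0x7a668f602c444)) e
 (c z e
 (c (a (nat_lit 0x6f544026202e4)) e
 (c (a (nat_lit 0x148101e1210004)) e e))))))))))))
 (c (a (nat_lit 0x4040404041))
 (c (a (nat_lit 0x68771e4806065))
 (c (a (nat_lit 0xe9672813624406)) e
 (c (a (nat_lit 0x18afd838e6a8e006)) e
 (c z e
 (c (a (nat_lit 0x1a55a00000000006)) e e))))
 (c (a (nat_lit 0xe7cc863202465))
 (c (a (nat_lit 0x14b04a2b67c00006)) e e)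
 (c z e
 (c (a (nat_lit 0x168dce24440b25)) e
 (c (a (nat_lit 0xd2d6f8f8f71a6)) e
 (c z e
 (c (a (nat_lit 0x7b2597875b205)) e
 (c z e
 (c (a (nat_lit 0xbd7b070cdeca4)) e
 (c (a (nat_lit 0x15460561c06023)) e e))))))))))
 (c (a (nat_lit 0x6060606061))
 (c (a (nat_lit 0x1644e06043a524)) e
 (c z e
 (c z e
 (c (a (nat_lit 0x92a0b0b4e9305)) e
 (c z e
 (c z e
 (c (a (nat_lit 0x832ac2b4a8aa4)) e
 (c (a (nat_lit 0x178fd06fc04384)) e e))))))))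
 (c (a (nat_lit 0x6060606061))
 (c (a (nat_lit 0xe6e59dbdc7d44)) e
 (c (b (nat_lit 0x1ffffff3572544)) e
 (c z e
 (c z e
 (c (b (nat_lit 0x1fe86328c73285)) e
 (c (a (nat_lit 0x1b917d5c430244)) e
 (c z e
 (c (a (nat_lit 0x13318100800003)) e
 (c (a (nat_lit 0x1341a000000003)) e e)))))))))
 (c (a (nat_lit 0xe0e0e0e0e1))
 (c (a (nat_lit 0xc6c6ff284e304)) e
 (c z e
 (c z e
 (c (a (nat_lit 0xb4eaff0521686)) e
 (c z e
 (c (b (nat_lit 0x1fffea1ce50004)) e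
 (c (a (nat_lit 0x163f58a0000004)) e
 (c (a (nat_lit 0x1b000000000002)) e e))))))))
 (c (a (nat_lit 0x2c2c2c2c2a1))
 (c (a (nat_lit 0x1a58321a07265)) e
 (c z e
 (c z e
 (c (a (nat_lit 0x7484cd4ee0485)) e
 (c (a (nat_lit 0xcb179a9800005)) e
 (c (a (nat_lit 0x13eb4000000005)) e e))))))
 (c (a (nat_lit 0x2020202021))
 (c z e
 (c (a (nat_lit 0x76747e6e65ac7)) e
 (c (a (nat_lit 0x12f3b2b1f1c007)) e
 (c (a (nat_lit 0x1dedc080000003)) e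
 (c (a (nat_lit 0x1a800000000002)) e e)))))
 (c (nat_lit 1)
 (c (a (nat_lit 0x11319191b48fa7)) e
 (c (a (nat_lit 0x12638363600004)) e
 (c (a (nat_lit 0x1004000000001)) e e)))
 (c (a (nat_lit 0x4040405ce2)) e
 (c (a (nat_lit 0x20202e9f23)) e
 (c (a (nat_lit 0x202e9f5583)) e
 (c (a (nat_lit 0xe5e950d43)) e
 (c (a (nat_lit 0x1ce6c04122)) e
 (c (a (nat_lit 0x100500c245a3)) e
 (c (a (nat_lit 0xfab8cf077e3)) e
 (c (a (nat_lit 0x9ea4b4d16e5)) e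
 (c (a (nat_lit 0x42506f0c805)) e
 (c (a (nat_lit 0x7a9936ac305)) e
 (c (a (nat_lit 0xa13eb438385)) e
 (c (a (nat_lit 0x10a7e0202005)) e
 (c (a (nat_lit 0x1f2020000003)) e e))))))))))))))))))))))))) Tr.c Tr.e (nat_lit 0) C.cx C.cy
noncomputable def C714 : Tr := beta% (fun (c : Nat → Tr → Tr → Tr) (e : Tr) (z : Nat) (a b : Nat → Nat) =>
 (c z
 (c (a (nat_lit 0x1dfe9ef1adede3a4))
 (c z e
 (c z e
 (c z e
 (c z e
 (c z e
 (c z e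
 (c (a (nat_lit 0x1954f08e72b7fcd366)) e
 (c (a (nat_lit 0x4a42404a5481685e7)) e
 (c (a (nat_lit 0x342e44227b5686f67)) e
 (c z e
 (c (a (nat_lit 0x461867e6dafe40007)) e e)))))))))))
 (c z e
 (c z e
 (c (a (nat_lit 0x3d44968febca244))
 (c z e
 (c (a (nat_lit 0xd8ee8949d6ae86fc8)) e
 (c z e
 (c (a (nat_lit 0x12d1dcf9b3edcc8ae7)) e
 (c (a (nat_lit 0x22a253b048ac9c348)) e
 (c z e
 (c z e
 (c (a (nat_lit 0x1c89b265c000000007)) e e))))))))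
 (c (a (nat_lit 0xa26c3d6b2078b45))
 (c z e
 (c z e
 (c z e
 (c (a (nat_lit 0x1024ef6648d0cb42a8)) e
 (c z e
 (c z e
 (c (a (nat_lit 0x1190a9c00000000008)) e e)))))))
 (c z e
 (c (a (nat_lit 0x93ef4bc3534e6a4))
 (c (a (nat_lit 0x11d02cc8c6d12d2f07)) e
 (c (a (nat_lit 0x13650705e4c4080008)) e e))
 (c (a (nat_lit 0xf6564b02c2c6aa5))
 (c (a (nat_lit 0xbb2b567e8a9400007)) e e)
 (c z e
 (c z e
 (c (a (nat_lit 0x1071759309100b65)) e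
 (c z e
 (c z e
 (c (a (nat_lit 0x94611912d6883e6)) e
 (c (a (nat_lit 0x167f5c3c52f2f545)) e
 (c (a (nat_lit 0x1db798c64665e004)) e
 (c (a (nat_lit 0x12d2e0c060000004)) e
 (c (a (nat_lit 0x1300600000000004)) e e))))))))))))))))))
 (c z
 (c (a (nat_lit 0x138ecd6c842a6be6))
 (c z e
 (c z e
 (c z e
 (c (a (nat_lit 0x9fa366dba9d18cd68)) e
 (c z e
 (c z e
 (c z e
 (c (a (nat_lit 0xd8def192d36040447)) e e))))))))
 (c z e
 (c z e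
 (c (a (nat_lit 0xb4ab011cd29e8a7))
 (c (a (nat_lit 0xb93b5ce74f06e2bc9)) e
 (c z e
 (c z e
 (c z e
 (c (a (nat_lit 0x144acdedefe7600008)) e e)))))
 (c z e
 (c z e
 (c z e
 (c (a (nat_lit 0xc2dab91eca7b0c6)) e
 (c z e
 (c z e
 (c (a (nat_lit 0x119a4e2cafef2f06)) e
 (c z e
 (c z e
 (c z e
 (c (a (nat_lit 0x1b0e2d2dccc00005)) e e)))))))))))))))
 (c z
 (c z e
 (c z e
 (c z e
 (c z e
 (c z e
 (c z e
 (c z e
 (c z e
 (c z e
 (c z e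
 (c z e
 (c z e
 (c z e
 (c (a (nat_lit 0x1026a365e0000005)) e e))))))))))))))
 (c z
 (c (a (nat_lit 0x1370758d01e950a4))
 (c z e
 (c (a (nat_lit 0x1d7bd6989d14c9af88)) e
 (c z e
 (c (a (nat_lit 0x10507049296a8a0728)) e
 (c (a (nat_lit 0x18abca87e4e321e008)) e e)))))
 (c (a (nat_lit 0xf7410b1e5c0dc66)) e
 (c z e
 (c (a (nat_lit 0x684c544324bd327))
 (c z e
 (c (a (nat_lit 0x1288a8e80000000008)) e e))
 (c (a (nat_lit 0x181c272c6ac0b27)) e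
 (c z e
 (c z e
 (c (a (nat_lit 0x1067adca85652607)) e
 (c (b (nat_lit 0x9febff7d405a006)) e
 (c z e
 (c (a (nat_lit 0x1c123a2a86ad968)) e
 (c (a (nat_lit 0x14bbc6f7c5600005)) e e))))))))))))
 (c (a (nat_lit 0x202020203326))
 (c (a (nat_lit 0x98a0a6480423447))
 (c (a (nat_lit 0x6b77108ab0cc84848)) e
 (c z e
 (c (a (nat_lit 0x1baef7b4f1d4a84008)) e e)))
 (c z e
 (c z e
 (c z e
 (c (a (nat_lit 0x2294b552b068a7)) e
 (c z e
 (c z e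
 (c (a (nat_lit 0xbf5b24797148107)) e e))))))))
 (c (a (nat_lit 0x20202034ada6)) e
 (c (a (nat_lit 0x2020362beb46))
 (c z e
 (c (a (nat_lit 0x4155c98eca946a6)) e
 (c z e
 (c z e
 (c (a (nat_lit 0x72762c529835e67)) e
 (c z e
 (c z e
 (c (a (nat_lit 0x3c94c1fe0000008)) e
 (c (a (nat_lit 0x1664800000000005)) e e)))))))))
 (c (a (nat_lit 0x242534f4e8645))
 (c (a (nat_lit 0x4c7c8c90c8850a6)) e
 (c z e
 (c z e
 (c (a (nat_lit 0x485c5a6e6366d28)) e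
 (c z e
 (c z e
 (c (a (nat_lit 0x6c851e000000009)) e e)))))))
 (c (a (nat_lit 0x1f3b76e79f04))
 (c (a (nat_lit 0x4c74d504bab6006)) e
 (c z e
 (c z e
 (c (a (nat_lit 0xdedf1e83f4fa008)) e e))))
 (c z e
 (c (a (nat_lit 0x8e6a37111a8a5))
 (c (a (nat_lit 0x2e8b08f67a26008)) e e)
 (c (a (nat_lit 0x98cb3d3ef5d06)) e
 (c z e
 (c (a (nat_lit 0x7472730eb88e7)) e
 (c (a (nat_lit 0x12194abc0e065)) e
 (c (a (nat_lit 0x738ee07c68425)) e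
 (c (a (nat_lit 0x14c96322402005)) e
 (c (a (nat_lit 0x196b6aa684a1a4)) e
 (c (a (nat_lit 0x16d570708d9504)) e
 (c (a (nat_lit 0x1ca8a8e0bb8002)) e
 (c (a (nat_lit 0x14948efe06c003)) e e)))))))))))))))))))))) Tr.c Tr.e (nat_lit 0) C.cx C.cy
noncomputable def C715 : Tr := beta% (fun (c : Nat → Tr → Tr → Tr) (e : Tr) (z : Nat) (a b : Nat → Nat) =>
 (c (a (nat_lit 0x2020202021))
 (c z
 (c (a (nat_lit 0x60607df7117864))
 (c z e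
 (c z e
 (c z e
 (c z e
 (c z e
 (c z e
 (c z e
 (c z e
 (c z e
 (c z e
 (c (a (nat_lit 0x525842a6205875c06)) e e)))))))))))
 (c (a (nat_lit 0x2030af0bc8b246))
 (c z e
 (c z e
 (c z e
 (c z e
 (c z e
 (c z e
 (c z e
 (c z e
 (c (a (nat_lit 0x38445868445e691a8)) e e)))))))))
 (c z e
 (c z e
 (c z e
 (c z e
 (c z e
 (c z e
 (c z e
 (c z e
 (c z e
 (c z e
 (c (a (nat_lit 0x114b8b4cc565c6c6)) e
 (c z e
 (c z e
 (c (a (nat_lit 0xc08cdab9f2aa003)) e e))))))))))))))))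
 (c z
 (c (a (nat_lit 0xfc7d192917ef05))
 (c z e
 (c z e
 (c z e
 (c z e
 (c z e
 (c z e
 (c z e
 (c z e
 (c z e
 (c z e
 (c z e
 (c (a (nat_lit 0x6242a2cf36a000009)) e e)))))))))))) e)
 (c z e
 (c z e
 (c z
 (c z e
 (c z e
 (c z e
 (c z e
 (c z e
 (c z e
 (c z e
 (c (a (nat_lit 0xaee9071ce66a9c7)) e e))))))))
 (c z e
 (c (a (nat_lit 0x2020202033e6)) e
 (c (a (nat_lit 0x20202033cac6)) e
 (c (a (nat_lit 0x20202e708ae5))
 (c (a (nat_lit 0x1a507e916c84925)) e e)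
 (c (a (nat_lit 0x606e522af7a5)) e
 (c (a (nat_lit 0x2ac0ba7ee96e6)) e e)))))))))))
 (c (a (nat_lit 0x4040404041)) C714
 (c (a (nat_lit 0x4040404041))
 (c z
 (c (a (nat_lit 0xd3289c54b8fce24))
 (c z e
 (c z e
 (c z e
 (c z e
 (c (a (nat_lit 0xd064737f9f3e9efe7)) e e)))))
 (c z e
 (c z e
 (c (a (nat_lit 0x2cb35aad2dde24))
 (c (a (nat_lit 0x1477d0b172f3c92b08)) e
 (c z e
 (c z e
 (c (a (nat_lit 0xf545887f7f004e007)) e
 (c (a (nat_lit 0x890814c0980000007)) e e)))))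
 (c z e
 (c z e
 (c (a (nat_lit 0x149cd7bb185a9745)) e
 (c (a (nat_lit 0x17505575f2af1cc5)) e
 (c z e
 (c (a (nat_lit 0x10157930166e4145)) e
 (c (a (nat_lit 0xe108f377d50ad45)) e
 (c z e
 (c z e
 (c (a (nat_lit 0x18f7a2294f854004)) e
 (c (a (nat_lit 0x1cc72e2a40000004)) e e)))))))))))))))
 (c z
 (c z e
 (c z e
 (c z e
 (c z e
 (c z e
 (c z e
 (c (a (nat_lit 0x467a42a470b5186)) e
 (c z e
 (c z e
 (c z e
 (c z e
 (c z e
 (c (a (nat_lit 0x900a5fa00e00006)) e e)))))))))))))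
 (c (a (nat_lit 0x202020203e05))
 (c z e
 (c z e
 (c z e
 (c z e
 (c z e
 (c (a (nat_lit 0x73db93f85b74e6)) e e))))))
 (c (a (nat_lit 0x2020203e59a5))
 (c (a (nat_lit 0xf30b3cec2d07486))
 (c (a (nat_lit 0x128ca9c4c4c78743c8)) e
 (c (a (nat_lit 0x1438e3c64c0b0563c8)) e e))
 (c z e
 (c z e
 (c (a (nat_lit 0xdca75399b7c11e6)) e
 (c (a (nat_lit 0x2a4eb19449fec6)) e
 (c z e
 (c z e
 (c (a (nat_lit 0x10336d397a88d807)) e e))))))))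
 (c (a (nat_lit 0x20203b977266))
 (c z e
 (c z e
 (c z e
 (c (a (nat_lit 0xca7cce6259427)) e e))))
 (c (a (nat_lit 0x20372fa90166))
 (c z e
 (c (a (nat_lit 0xb8ab8e9238946)) e e))
 (c (a (nat_lit 0x5b8fa34a87a05))
 (c z e
 (c (a (nat_lit 0x1852605c7e19088)) e
 (c z e
 (c z e
 (c (a (nat_lit 0xacb2c1309c84008)) e e)))))
 (c (a (nat_lit 0xcb2e4206fcde5))
 (c (a (nat_lit 0x609abab0618ea27)) e
 (c z e
 (c z e
 (c (a (nat_lit 0x429560c09000008)) e e))))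
 (c z e
 (c z e
 (c (a (nat_lit 0x8510ceb568ec6)) e
 (c z e
 (c z e
 (c (a (nat_lit 0x6d46db02d2785)) e
 (c (a (nat_lit 0x19d312b24ccc05)) e
 (c (a (nat_lit 0x153493e8e764c4)) e
 (c z e
 (c (a (nat_lit 0x12452623616124)) e
 (c (a (nat_lit 0x1020a080a04002)) e e)))))))))))))))))))
 (c (a (nat_lit 0x4040404041))
 (c (a (nat_lit 0x2020202038e4))
 (c (a (nat_lit 0x7c0244a0763ff85))
 (c z e
 (c z e
 (c z e
 (c z e
 (c (a (nat_lit 0x5f28925cece83a1c7)) e e)))))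
 (c z e
 (c z e
 (c z e
 (c z e
 (c z e
 (c (a (nat_lit 0x1430e30647a8c9c6)) e
 (c (a (nat_lit 0x1062e6698b2a1086)) e
 (c (b (nat_lit 0x36acd7fecf205e5)) e
 (c z e
 (c z e
 (c (a (nat_lit 0xa4696e6c5aa006)) e e))))))))))))
 (c (a (nat_lit 0x202020336ea6)) e
 (c (a (nat_lit 0x202030cec947)) e
 (c (a (nat_lit 0x20316f4a24c7)) e
 (c (a (nat_lit 0x2baf96d64e7e6)) e
 (c z e
 (c z e
 (c z e
 (c z e
 (c z e
 (c z e
 (c (a (nat_lit 0x85416dd17d2a5)) e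
 (c (a (nat_lit 0xc22341309dbc4)) e e)))))))))))))
 C713))))) Tr.c Tr.e (nat_lit 0) C.cx C.cy
noncomputable def C716 : Tr := beta% (fun (c : Nat → Tr → Tr → Tr) (e : Tr) (z : Nat) (a b : Nat → Nat) =>
 (c z
 (c (a (nat_lit 0x262626262627124))
 (c (a (nat_lit 0xf8fd051b133387c04)) e
 (c z e
 (c z e
 (c z e
 (c z e
 (c z e
 (c z e
 (c z e
 (c z e
 (c (a (nat_lit 0x16caa4c4a96588d845)) e
 (c (a (nat_lit 0x6a08085a4871039c5)) e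
 (c (a (nat_lit 0x3e30886cbdd6f39a5)) e e))))))))))))
 (c (a (nat_lit 0xa0a0a0a0b02d46)) e
 (c (a (nat_lit 0x202020310e0d66))
 (c z e
 (c z e
 (c z e
 (c z e
 (c z e
 (c z e
 (c z e
 (c z e
 (c (a (nat_lit 0x1f1d64b4be1627e4e5)) e e)))))))))
 (c (b (nat_lit 0x2020328febffe6))
 (c (a (nat_lit 0x6a0e48cf02cae4c87))
 (c z e
 (c z e
 (c z e
 (c (a (nat_lit 0x1511858bc466c8c4e889)) e
 (c (a (nat_lit 0x140d6303ed05c6066588)) e
 (c (a (nat_lit 0x1587c2c8e82185e80008)) e e))))))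
 (c z e
 (c z e
 (c z e
 (c z e
 (c z e
 (c (a (nat_lit 0x199570344fd72cd766)) e
 (c (a (nat_lit 0x942a2ed30e6880607)) e
 (c z e
 (c z e
 (c (a (nat_lit 0x788a86a50f975aae8)) e e)))))))))))
 (c (a (nat_lit 0x46477fd36e8c306))
 (c z e
 (c z e
 (c z e
 (c z e
 (c z e
 (c z e
 (c (a (nat_lit 0x9e5cfee2b26c89187)) e e)))))))
 (c z e
 (c (a (nat_lit 0x1859b9ac83604046))
 (c z e
 (c z e
 (c z e
 (c z e
 (c (a (nat_lit 0x8a20286e505a612c8)) e e)))))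
 (c (b (nat_lit 0x18d94e6d5fffe2c6)) e
 (c z e
 (c z e
 (c z e
 (c z e
 (c z e
 (c z e
 (c z e
 (c z e
 (c (a (nat_lit 0x122587038744a185)) e
 (c (a (nat_lit 0xdd262d5cb20c403)) e
 (c z e
 (c (a (nat_lit 0x6f02b25e840c004)) e
 (c (a (nat_lit 0x16d1cca7a0000004)) e e)))))))))))))))))))))
 (c z
 (c (a (nat_lit 0x202020353330e6)) e
 (c (a (nat_lit 0x20203251f04347)) e
 (c (a (nat_lit 0x203517b42589a7)) e
 (c z e
 (c z e
 (c z e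
 (c z e
 (c z e
 (c z e
 (c z e
 (c z e
 (c z e
 (c z e
 (c z e
 (c z e
 (c z e
 (c (a (nat_lit 0x1b553089290ae005)) e e)))))))))))))))))
 (c z
 (c (a (nat_lit 0x31d1b20127a6)) e
 (c (a (nat_lit 0x197d754c2470547))
 (c z e
 (c z e
 (c z e
 (c z e
 (c z e
 (c z e
 (c (a (nat_lit 0x2e5a6054488c1f468)) e
 (c (a (nat_lit 0xef2342fd1b370d547)) e e))))))))
 (c z e
 (c z e
 (c z e
 (c z e
 (c z e
 (c z e
 (c z e
 (c z e
 (c z e
 (c z e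
 (c z e
 (c (b (nat_lit 0xebabfffecc52006)) e e))))))))))))))
 (c z
 (c (a (nat_lit 0x175872c24865c206))
 (c z e
 (c z e
 (c z e
 (c z e
 (c z e
 (c z e
 (c (a (nat_lit 0x82c69c7ee03eb7467)) e
 (c (a (nat_lit 0xb6e0709c72c8d7527)) e
 (c z e
 (c z e
 (c (a (nat_lit 0x8351c799440000007)) e e)))))))))))
 (c z e
 (c z e
 (c (a (nat_lit 0xfab62c12a30b1a6))
 (c z e
 (c z e
 (c z e
 (c z e
 (c (a (nat_lit 0x169166298e21a54e88)) e e)))))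
 (c z e
 (c z e
 (c z e
 (c z e
 (c z e
 (c z e
 (c (a (nat_lit 0x12b3f3d39064a2a7)) e
 (c z e
 (c z e
 (c (a (nat_lit 0x1ad4ab41c1834005)) e
 (c (a (nat_lit 0x154b81e123c04045)) e
 (c (a (nat_lit 0x1603a30780200004)) e e))))))))))))))))
 (c z e
 (c z e
 (c z
 (c (a (nat_lit 0x7e92e6dc65795c6))
 (c (a (nat_lit 0x96c4adbd62ce68668)) e
 (c z e
 (c z e
 (c z e
 (c (a (nat_lit 0x1c53b351b080000008)) e e)))))
 (c z e
 (c z e
 (c z e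
 (c (a (nat_lit 0x157334fc7a98b946)) e
 (c z e
 (c (a (nat_lit 0xd9374310ee74267)) e
 (c z e
 (c z e
 (c z e
 (c (a (nat_lit 0xc2a261095e9a006)) e
 (c (a (nat_lit 0xd08f34c60000006)) e e))))))))))))
 (c z
 (c z e
 (c z e
 (c z e
 (c z e
 (c z e
 (c z e
 (c z e
 (c z e
 (c z e
 (c (a (nat_lit 0x492c2e5a0a00005)) e
 (c (a (nat_lit 0x15a5844000000005)) e e)))))))))))
 (c (a (nat_lit 0x202020203726))
 (c (a (nat_lit 0xb8a2d0b8ecf7d45)) e e)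
 (c (a (nat_lit 0x202020397b65)) e
 (c (a (nat_lit 0x404058bcba65))
 (c (a (nat_lit 0x84bd9547456ac65)) e
 (c z e
 (c z e
 (c (a (nat_lit 0xa4ab02facc68e08)) e e))))
 (c (a (nat_lit 0x2e2f5b12f67e6)) e
 (c (a (nat_lit 0x436f2d1e787c6)) e
 (c z e
 (c z e
 (c z e
 (c (a (nat_lit 0x74906abb477e5)) e
 (c (a (nat_lit 0x3e1c6af932285)) e
 (c z e
 (c (a (nat_lit 0x4ccf0c101a205)) e
 (c (a (nat_lit 0x17bfa021a26284)) e
 (c z e
 (c z e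
 (c (a (nat_lit 0x16d6b6a7e5c004)) e
 (c (a (nat_lit 0x1110e020000004)) e e)))))))))))))))))))))))))) Tr.c Tr.e (nat_lit 0) C.cx C.cy
noncomputable def C717 : Tr := beta% (fun (c : Nat → Tr → Tr → Tr) (e : Tr) (z : Nat) (a b : Nat → Nat) =>
 (c z
 (c (a (nat_lit 0x2373a0e83440564))
 (c z e
 (c z e
 (c z e
 (c (a (nat_lit 0x486880589c9e830a7)) e
 (c z e
 (c z e
 (c (a (nat_lit 0x7ccb0494aaee48fa6)) e
 (c (a (nat_lit 0x8892768c8c393ac26)) e e))))))))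
 (c z e
 (c z e
 (c (a (nat_lit 0x1f972c6bc155cd64))
 (c (a (nat_lit 0x66f4ee831d58e1847)) e
 (c z e
 (c z e
 (c (a (nat_lit 0x80fb8e9b6f2f287e7)) e
 (c (a (nat_lit 0xc0fa455704ca2c7e7)) e e)))))
 (c (a (nat_lit 0xe69a2e09a441a64)) e
 (c z e
 (c (a (nat_lit 0x7a895295390ab65))
 (c z e
 (c (a (nat_lit 0x13abd14346a9600007)) e e))
 (c (b (nat_lit 0x3f6dffc96cb3004)) e
 (c z e
 (c (a (nat_lit 0xbb67a31727248a5)) e
 (c (a (nat_lit 0x12f9f375f50ce545)) e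
 (c z e
 (c z e
 (c (a (nat_lit 0x1d9ff3ed03c4a4c3)) e
 (c (a (nat_lit 0x138d29e5056584c4)) e
 (c (a (nat_lit 0x116ac08181806003)) e e))))))))))))))))
 (c z
 (c z e
 (c z e
 (c z e
 (c z e
 (c z e
 (c z e
 (c z e
 (c z e
 (c z e
 (c z e
 (c z e
 (c z e
 (c (a (nat_lit 0xdb46da70cf2b0c3)) e e)))))))))))))
 (c z
 (c (a (nat_lit 0x113ab19ad44dc7e3))
 (c z e
 (c z e
 (c z e
 (c z e
 (c z e
 (c (a (nat_lit 0x749a99a6fcc028427)) e e))))))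
 (c (a (nat_lit 0x134c6ff8f2cb6424))
 (c (a (nat_lit 0x7886f100d578f26a7)) e
 (c z e
 (c z e
 (c z e
 (c z e
 (c z e
 (c (a (nat_lit 0x13fa18e00000000006)) e e)))))))
 (c z e
 (c (a (nat_lit 0x133ecfbe0132f0a3))
 (c (a (nat_lit 0xc9e1e460507052e86)) e
 (c (a (nat_lit 0x138c0ae64424248008)) e
 (c (a (nat_lit 0x157047e342a0000007)) e e)))
 (c (a (nat_lit 0xb83e1a1c2835005))
 (c (a (nat_lit 0x171c56a68504600006)) e e)
 (c z e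
 (c z e
 (c (a (nat_lit 0x32729f6f094ace5)) e
 (c (a (nat_lit 0x409d04d8daa6306)) e
 (c z e
 (c (a (nat_lit 0xe6cf876ef3011c6)) e
 (c (a (nat_lit 0xb9df5686ece8e64)) e
 (c z e
 (c (a (nat_lit 0x1960ab0540000003)) e e))))))))))))))
 (c z
 (c (a (nat_lit 0xd6c4f11ac897b04))
 (c (a (nat_lit 0x36546c774af27c5c7)) e
 (c z e
 (c (a (nat_lit 0x88d59bc6b48ecab47)) e
 (c (a (nat_lit 0x6700be6e808aa64a8)) e
 (c (a (nat_lit 0x1e796d0e8e89600007)) e e)))))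
 (c z e
 (c z e
 (c (a (nat_lit 0x149d7dbd7c3c1e44)) e
 (c (a (nat_lit 0xf90eececf0e7245)) e
 (c z e
 (c (a (nat_lit 0x1555fb59f859ce85)) e
 (c (b (nat_lit 0x4fffff5752e1ce4)) e
 (c z e
 (c z e
 (c (a (nat_lit 0xa9e0d4f1ab713a2)) e
 (c (a (nat_lit 0x1de049ba28e00001)) e e))))))))))))
 (c z
 (c z e
 (c z e
 (c z e
 (c z e
 (c (a (nat_lit 0x12d658f2eb97f2e5)) e
 (c z e
 (c z e
 (c z e
 (c z e
 (c (a (nat_lit 0xe0d12aaebcba005)) e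
 (c (a (nat_lit 0x77e0040c0000003)) e e)))))))))))
 (c z
 (c (a (nat_lit 0xa8baa8b30372883)) e
 (c (a (nat_lit 0x1616227cf893324)) e
 (c (a (nat_lit 0x6208afadd34b84)) e
 (c z e
 (c (a (nat_lit 0xaf22d73155639a5)) e
 (c z e
 (c z e
 (c (a (nat_lit 0x807482806abd3c7)) e e))))))))
 (c (a (nat_lit 0x1414141414261))
 (c (a (nat_lit 0x344e6cf9478f8c3)) e
 (c (a (nat_lit 0x7c990999c9ab4a4)) e
 (c z e
 (c (a (nat_lit 0x565ab2fefd4d6a5)) e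
 (c (a (nat_lit 0xd6ff3d417746ba6)) e
 (c z e
 (c (a (nat_lit 0xccd0d8f2ff7c007)) e e)))))))
 (c (a (nat_lit 0xa0a0a0a05d42))
 (c z e
 (c (a (nat_lit 0x2337fe0c569084)) e
 (c z e
 (c (a (nat_lit 0x9eb6d140c078346)) e e))))
 (c (a (nat_lit 0x2020326ea723))
 (c z e
 (c z e
 (c z e
 (c z e
 (c (a (nat_lit 0xa12410c0000007)) e
 (c (a (nat_lit 0x10ae400000000004)) e e))))))
 (c (a (nat_lit 0x101155069a383))
 (c (a (nat_lit 0xcae9af371328f85)) e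
 (c z e
 (c z e
 (c (a (nat_lit 0x3c5734000000007)) e e))))
 (c (a (nat_lit 0xbd1794ec86b03))
 (c (a (nat_lit 0x14d132c5b8486005)) e e)
 (c z e
 (c (a (nat_lit 0x5c44d4ed0f2c4)) e
 (c (a (nat_lit 0x382a3a5c8f644)) e
 (c (a (nat_lit 0x3e56789970524)) e
 (c (a (nat_lit 0x486a8960443c4)) e
 (c (a (nat_lit 0x6a875c4036364)) e
 (c (a (nat_lit 0x4b240c0202024)) e
 (c (a (nat_lit 0x1280e020206104)) e
 (c (a (nat_lit 0x18d2d2f4b94001)) e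
 (c (a (nat_lit 0x12325273ad6c43)) e
 (c (a (nat_lit 0x1a9b5fe3000001)) e
 (c (a (nat_lit 0x1acea000000002)) e e)))))))))))))))))))))))) Tr.c Tr.e (nat_lit 0) C.cx C.cy
noncomputable def C718 : Tr := beta% (fun (c : Nat → Tr → Tr → Tr) (e : Tr) (z : Nat) (a : Nat → Nat) =>
 (c z
 (c z
 (c (a (nat_lit 0xa6ef04ff21154fee4))
 (c z e
 (c z e
 (c z e
 (c z e
 (c z e
 (c z e
 (c z e
 (c z e
 (c (a (nat_lit 0x324a504c383c3d0d107)) e e)))))))))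
 (c z e
 (c z e
 (c (a (nat_lit 0xe321c4ebc70cb246)) e
 (c z e
 (c z e
 (c z e
 (c z e
 (c z e
 (c (a (nat_lit 0xdf4c62729ed478a25)) e
 (c (a (nat_lit 0x1404a5c88b892c1385)) e
 (c (a (nat_lit 0x526282b876e5d4e45)) e
 (c (a (nat_lit 0x6e6c9c6a5e3a19546)) e
 (c (a (nat_lit 0x7698a6ab493d6da26)) e e))))))))))))))
 (c (a (nat_lit 0x181818181819664))
 (c z e
 (c z e
 (c z e
 (c z e
 (c z e
 (c z e
 (c z e
 (c z e
 (c z e
 (c (a (nat_lit 0x1271d0cbe926ab73a5)) e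
 (c (a (nat_lit 0x1832ceeaaa7355f085)) e
 (c (a (nat_lit 0x13110fce11f0be7fa6)) e e))))))))))))
 (c (a (nat_lit 0x2020202038bd64))
 (c z e
 (c z e
 (c z e
 (c z e
 (c z e
 (c z e
 (c z e
 (c z e
 (c z e
 (c z e
 (c z e
 (c (a (nat_lit 0x3c4868507c8ca7348)) e e))))))))))))
 (c (a (nat_lit 0x40404050f4ede5))
 (c z e
 (c z e
 (c z e
 (c (a (nat_lit 0xaaf314e0e9008ccc7)) e
 (c z e
 (c z e
 (c (a (nat_lit 0x1a3c93d2c5d176d385)) e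
 (c (a (nat_lit 0xce7e1632411088906)) e
 (c z e
 (c z e
 (c (a (nat_lit 0x60809aaa9cd3171e8)) e e)))))))))))
 (c (a (nat_lit 0x20203bdd716325)) e
 (c (a (nat_lit 0x1212f9333a8a206))
 (c z e
 (c z e
 (c z e
 (c z e
 (c (a (nat_lit 0x4d150ed6802d9a6c6)) e e)))))
 (c (a (nat_lit 0x33bdc5e0e044025))
 (c z e
 (c z e
 (c z e
 (c (a (nat_lit 0xa4c4545a4b3689d87)) e
 (c (a (nat_lit 0xf532b09954cfe97e6)) e e)))))
 (c (a (nat_lit 0x10303128c7638166)) e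
 (c z e
 (c z e
 (c (a (nat_lit 0x608c7ebb2a9ca45)) e
 (c z e
 (c z e
 (c z e
 (c z e
 (c z e
 (c (a (nat_lit 0x149ad3d3d2918d44)) e
 (c (a (nat_lit 0x146d6dab2a668104)) e
 (c (a (nat_lit 0x1293cf50ab25e404)) e
 (c (a (nat_lit 0x1c13358ee460a023)) e
 (c (a (nat_lit 0x13156f8500a00003)) e e)))))))))))))))))))))
 (c z
 (c (a (nat_lit 0x20202020323b03))
 (c z e
 (c z e
 (c z e
 (c z e
 (c z e
 (c z e
 (c z e
 (c z e
 (c z e
 (c z e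
 (c z e
 (c z e
 (c (a (nat_lit 0x4854469ab6771fd67)) e
 (c (a (nat_lit 0x3c3a62544b4122888)) e e))))))))))))))
 (c (a (nat_lit 0x202020385f7444)) e
 (c (a (nat_lit 0x202033984de985))
 (c z e
 (c z e
 (c z e
 (c z e
 (c z e
 (c z e
 (c (a (nat_lit 0xce16306748a67f226)) e e)))))))
 (c (a (nat_lit 0x203b7e4f8ab6e5))
 (c z e
 (c z e
 (c z e
 (c z e
 (c z e
 (c z e
 (c (a (nat_lit 0x96d4c96ccaa18df46)) e e)))))))
 (c (a (nat_lit 0x2cf12f16d6ea7c6))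
 (c z e
 (c z e
 (c z e
 (c z e
 (c (a (nat_lit 0x362e3a2630563b348)) e e))))) e)))))
 (c z
 (c (a (nat_lit 0x606071f06f6264))
 (c z e
 (c z e
 (c z e
 (c (a (nat_lit 0x5e868ebdc4c7ad766)) e
 (c z e
 (c z e
 (c z e
 (c z e
 (c z e
 (c (a (nat_lit 0xa0ba7c429034a1f26)) e
 (c (a (nat_lit 0x643c24561e6dad767)) e
 (c z e
 (c z e
 (c (a (nat_lit 0x34388f2a000000008)) e e))))))))))))))
 (c (a (nat_lit 0x1c1d6b851a385a5))
 (c (a (nat_lit 0x5acf00f7772500fe6)) e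
 (c z e
 (c z e
 (c (a (nat_lit 0x8acf2115478157127)) e
 (c z e
 (c z e
 (c z e
 (c (a (nat_lit 0x7eae80a28a84752e7)) e
 (c (a (nat_lit 0xd65674b0564bce4a6)) e
 (c z e
 (c (a (nat_lit 0x3e5056a4dd32a2008)) e e)))))))))))
 (c (a (nat_lit 0x5bf3e53078604a5))
 (c z e
 (c z e
 (c z e
 (c z e
 (c (a (nat_lit 0xbcff6cc4943cd1d26)) e
 (c z e
 (c z e
 (c (a (nat_lit 0x6c56a0a8e4d48b4e7)) e e))))))))
 (c (a (nat_lit 0x101211e92723c166))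
 (c z e
 (c z e
 (c z e
 (c (a (nat_lit 0xf0ca708e6682b90a7)) e
 (c (a (nat_lit 0x8a5a5a148c799eac7)) e
 (c (a (nat_lit 0x6282485662c96d627)) e e))))))
 (c (a (nat_lit 0x13538bc9a7206e25))
 (c (a (nat_lit 0x669d0cde7b2d2ebe7)) e
 (c z e
 (c z e
 (c z e
 (c (a (nat_lit 0x7b0f02858510f5547)) e
 (c z e
 (c (a (nat_lit 0x8c8942dcba8800008)) e e)))))))
 (c z e
 (c (a (nat_lit 0x621c403deafefa4))
 (c z e
 (c (a (nat_lit 0x44d683d68ef458467)) e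
 (c z e
 (c z e
 (c (a (nat_lit 0x18918c242000000007)) e e)))))
 (c (a (nat_lit 0x2a444376743e725))
 (c (a (nat_lit 0xea69fca50d2038446)) e
 (c z e
 (c z e
 (c (a (nat_lit 0x1331c8a00000000007)) e e))))
 (c (a (nat_lit 0x888b42b0a6b0a85))
 (c z e
 (c (a (nat_lit 0x16f3eb2c6000000006)) e e))
 (c z e
 (c (a (nat_lit 0x13a98db048aaa9a5)) e
 (c (a (nat_lit 0xef1b34c0c2b8586)) e
 (c z e
 (c (a (nat_lit 0x15541b7dee900de5)) e
 (c (a (nat_lit 0xf177325086d42a3)) e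
 (c (a (nat_lit 0x13714c0c6f49a0e4)) e
 (c (a (nat_lit 0x10a86aada8004024)) e e)))))))))))))))))
 C717)))) Tr.c Tr.e (nat_lit 0) C.cx
noncomputable def C719 : Tr := beta% (fun (c : Nat → Tr → Tr → Tr) (e : Tr) (z : Nat) (a b : Nat → Nat) =>
 (c (nat_lit 1)
 (c (a (nat_lit 0xa0a0a0a0a1))
 (c z
 (c z
 (c z e
 (c (a (nat_lit 0x17d7cd9231355e1e42)) e
 (c (a (nat_lit 0xba7ea288c3cd97863)) e e)))
 (c z
 (c (a (nat_lit 0xcc7aaab4c0f6ef224)) e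
 (c z e
 (c (a (nat_lit 0x80843ad8e0ddf3104)) e
 (c (a (nat_lit 0x4a2a606674fa7f065)) e
 (c z e
 (c z e
 (c z e
 (c z e
 (c z e
 (c z e
 (c z e
 (c z e
 (c (a (nat_lit 0x11919532afcce02c44)) e
 (c (a (nat_lit 0x809490c4bcd0cb6e5)) e e))))))))))))))
 (c z
 (c z e
 (c z e
 (c z e
 (c z e
 (c z e
 (c z e
 (c z e
 (c z e
 (c z e
 (c z e
 (c z e
 (c (a (nat_lit 0x130c8e6f6fcd513fa4)) e
 (c (a (nat_lit 0x9ea106ecef113b125)) e
 (c (a (nat_lit 0x284c50506c6051387)) e e))))))))))))))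
 (c z
 (c z e
 (c z e
 (c z e
 (c (a (nat_lit 0x5a6a385c767aa1805)) e
 (c z e
 (c z e
 (c z e
 (c z e
 (c z e
 (c z e
 (c z e
 (c (a (nat_lit 0x8159dfaf215671cc4)) e
 (c (a (nat_lit 0x5a9882887c65332a6)) e
 (c (a (nat_lit 0x44363a42508b16007)) e e))))))))))))))
 (c (a (nat_lit 0xd0d0d0d0d0173e2))
 (c z e
 (c z e
 (c z e
 (c z e
 (c z e
 (c z e
 (c z e
 (c z e
 (c z e
 (c z e
 (c (a (nat_lit 0xc4cedae9248517da5)) e e)))))))))))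
 (c (a (nat_lit 0x282828291366543))
 (c z e
 (c z e
 (c z e
 (c z e
 (c z e
 (c z e
 (c z e
 (c z e
 (c (a (nat_lit 0x84809290fcccedba5)) e
 (c (a (nat_lit 0x808e94ac74a527186)) e e))))))))))
 (c (a (nat_lit 0x141414ef04f27a4)) e
 (c (a (nat_lit 0x62634b7b5cde5e3)) e
 (c (a (nat_lit 0x49475366d69c563))
 (c z e
 (c z e
 (c (a (nat_lit 0xa6fee4d4bf7903785)) e e)))
 (c (a (nat_lit 0x17bd5b4dfeb5d0e1))
 (c z e
 (c (a (nat_lit 0x3a2e1e2076210a4a6)) e e))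
 (c (a (nat_lit 0x652388298ab2a3)) e
 (c (a (nat_lit 0x366caacce1622e3)) e
 (c z e
 (c (a (nat_lit 0xaacee5a488dad63)) e
 (c (a (nat_lit 0xb8c356bee8e6464)) e
 (c z e
 (c (a (nat_lit 0x130aed4d4c8280c4)) e e)))))))))))))))))
 C718)
 (c (a (nat_lit 0xa0a0a0a0a1)) C716
 C715))
 (c (a (nat_lit 0x20202021))
 (c (a (nat_lit 0x6060606061)) C712
 (c (a (nat_lit 0x4040404041))
 (c z
 (c (a (nat_lit 0x20336e6d86a7a6))
 (c z e
 (c z e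
 (c z e
 (c z e
 (c z e
 (c z e
 (c z e
 (c z e
 (c z e
 (c (a (nat_lit 0x4866867e706e69708)) e e)))))))))) e)
 (c z
 (c z e
 (c z e
 (c z e
 (c z e
 (c z e
 (c z e
 (c z e
 (c z e
 (c z e
 (c (a (nat_lit 0x16519bb2e6e945e6)) e e))))))))))
 (c z e
 (c z e
 (c z e
 (c (a (nat_lit 0x2020202031a8))
 (c z e
 (c z e
 (c z e
 (c z e
 (c (a (nat_lit 0x1080d798bf4a007)) e e)))))
 (c (a (nat_lit 0x202020340ac8)) e
 (c (a (nat_lit 0x202039315027)) e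
 (c (a (nat_lit 0x30312b1b0c967)) e
 (c z e
 (c z e
 (c z e
 (c z e
 (c z e
 (c z e
 (c z e
 (c z e
 (c z e
 (c z e
 (c z e
 (c z e
 (c (a (nat_lit 0x110c8b2925e005)) e
 (c (a (nat_lit 0x1a150020000003)) e e)))))))))))))))))))))))
 (c (nat_lit 1)
 (c z
 (c z e
 (c z e
 (c z e
 (c z e
 (c z e
 (c z e
 (c z e
 (c z e
 (c z e
 (c (a (nat_lit 0x1d38be0665315205)) e
 (c (a (nat_lit 0x70db56c2b4a8026)) e e)))))))))))
 (c z
 (c (a (nat_lit 0x6584aa64a144b86))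
 (c (a (nat_lit 0xb4baa0d4e484a70a8))
 (c (a (nat_lit 0x2a1e1602103830d15a9)) e
 (c (a (nat_lit 0x9c96b2946075337d96a)) e
 (c z e
 (c (a (nat_lit 0xbea8e0ff9f20000000a)) e e)))) e) e)
 (c z e
 (c (a (nat_lit 0x202020203088)) e
 (c (a (nat_lit 0x20202030a9a8)) e
 (c (a (nat_lit 0x2020314d2de8)) e
 (c (a (nat_lit 0x2037cf6f0107)) e e)))))))
 (c (a (nat_lit 0x200001))
 (c z
 (c (b (nat_lit 0x1146694b8ddfe305))
 (c z e
 (c z e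
 (c z e
 (c (a (nat_lit 0x134d0e19b9ed10e8a8)) e
 (c z e
 (c z e
 (c (a (nat_lit 0x1e2b6c5acc8e5e147)) e e)))))))
 (c z e
 (c z e
 (c (b (nat_lit 0x2c46228500a5fe7)) e
 (c z e
 (c z e
 (c (a (nat_lit 0xc72ed744e488d25)) e
 (c (a (nat_lit 0xdea4aed678cf1a6)) e
 (c (a (nat_lit 0x2c428a2a41088e6)) e
 (c z e
 (c (a (nat_lit 0x8c1e836efe7c086)) e
 (c z e
 (c z e
 (c (a (nat_lit 0x1346010140e00005)) e e))))))))))))))
 (c (a (nat_lit 0x202020203a67))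
 (c z e
 (c z e
 (c z e
 (c z e
 (c z e
 (c z e
 (c z e
 (c z e
 (c z e
 (c z e
 (c z e
 (c (a (nat_lit 0x32264abca384009)) e
 (c (a (nat_lit 0xa8cff2a60000007)) e e)))))))))))))
 (c (a (nat_lit 0x2020203df107)) e
 (c (a (nat_lit 0x20203f3a9727))
 (c (a (nat_lit 0xcd1abe34ecfacc7))
 (c (a (nat_lit 0x1af0ab686f0ba72ba8)) e
 (c (a (nat_lit 0x196f2a07eca6670009)) e e))
 (c z e
 (c z e
 (c z e
 (c (a (nat_lit 0x424dbb4bca7807)) e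
 (c z e
 (c z e
 (c (a (nat_lit 0xd25c9d370d407a8)) e e))))))))
 (c (a (nat_lit 0x2030ee8d23e8)) e
 (c z e
 (c z e
 (c z e
 (c z e
 (c z e
 (c z e
 (c z e
 (c (a (nat_lit 0xb347af53554a7)) e
 (c (a (nat_lit 0xa94c9ea692766)) e
 (c (b (nat_lit 0x1f0909e7a49fe5)) e
 (c z e
 (c (a (nat_lit 0x1bd60f41a05704)) e
 (c (a (nat_lit 0x14adc080764024)) e e))))))))))))))))))
 C711))))
 C710))) Tr.c Tr.e (nat_lit 0) C.cx C.cy
noncomputable def C720 : Tr := beta% (fun (c : Nat → Tr → Tr → Tr) (e : Tr) (z : Nat) (a : Nat → Nat) =>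
 (c (a (nat_lit 0x40404041))
 (c (a (nat_lit 0x2020202021))
 (c z e
 (c (a (nat_lit 0x69941420141e1))
 (c (a (nat_lit 0x164b328b00404006)) e
 (c (a (nat_lit 0xc920d0280000007)) e e))
 (c (a (nat_lit 0x24080402059a5))
 (c (a (nat_lit 0xf7101e000000006)) e e)
 (c (a (nat_lit 0xc6b6b6d163086)) e
 (c (a (nat_lit 0x9696db5b324e6)) e e)))))
 (c (nat_lit 1)
 (c (a (nat_lit 0x1006060809ae4))
 (c (a (nat_lit 0x9f289c400400005)) e
 (c (a (nat_lit 0x1aaac46000000006)) e e))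
 (c (a (nat_lit 0x7e707007d7b85))
 (c (a (nat_lit 0x19c8200000000005)) e e)
 (c (a (nat_lit 0x383a3d2779146)) e e)))
 (c (a (nat_lit 0x2020203e86))
 (c (a (nat_lit 0x1816169451686)) e e)
 (c (a (nat_lit 0x20203dc466)) e
 (c (a (nat_lit 0x35024407)) e
 (c z e
 (c z e
 (c z e
 (c z e
 (c z e
 (c z e
 (c z e
 (c z e
 (c z e
 (c z e
 (c z e
 (c (a (nat_lit 0x109080404044)) e
 (c (a (nat_lit 0x104020200004)) e
 (c (a (nat_lit 0x6000000001)) e e)))))))))))))))))))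
 (c (a (nat_lit 0x60606061))
 (c (a (nat_lit 0x2020203924))
 (c (a (nat_lit 0x604040407164)) e
 (c (a (nat_lit 0x4020204f5c45)) e
 (c (a (nat_lit 0x30308110c9c26)) e
 (c z e
 (c z e
 (c (a (nat_lit 0x14f4b126a24b27)) e e))))))
 (c (a (nat_lit 0x2020378a06))
 (c (a (nat_lit 0x404b103492c5)) e e)
 (c (a (nat_lit 0x3b0ca846)) e
 (c (a (nat_lit 0x106c66c7e6)) e
 (c z e
 (c z e
 (c z e
 (c z e
 (c z e
 (c z e
 (c z e
 (c z e
 (c z e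
 (c z e
 (c (a (nat_lit 0xc9140608064)) e
 (c (a (nat_lit 0x10c020202004)) e
 (c (a (nat_lit 0x6040000001)) e e)))))))))))))))))
 (c (a (nat_lit 0x80808081))
 (c (a (nat_lit 0x36b72885))
 (c (a (nat_lit 0x403fe1c5e6024)) e e)
 (c z e
 (c z e
 (c z e
 (c z e
 (c z e
 (c z e
 (c z e
 (c z e
 (c z e
 (c z e
 (c z e
 (c (a (nat_lit 0xed280602004)) e
 (c (a (nat_lit 0x126060202024)) e
 (c (a (nat_lit 0x462c0800001)) e
 (c (a (nat_lit 0x20000000001)) e e))))))))))))))))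
 (c (a (nat_lit 0x60606061))
 (c z e
 (c z e
 (c z e
 (c z e
 (c z e
 (c z e
 (c z e
 (c z e
 (c z e
 (c z e
 (c (a (nat_lit 0xf59c0602004)) e
 (c (a (nat_lit 0x198020202004)) e
 (c (a (nat_lit 0x102a0802001)) e
 (c (a (nat_lit 0x4c100000001)) e e))))))))))))))
 (c (a (nat_lit 0x20202021))
 (c z e
 (c z e
 (c z e
 (c z e
 (c z e
 (c z e
 (c z e
 (c z e
 (c (a (nat_lit 0xbb521006004)) e
 (c (a (nat_lit 0x14a0a0402004)) e
 (c (a (nat_lit 0x7e42120a001)) e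
 (c (a (nat_lit 0x58280a00001)) e
 (c (a (nat_lit 0x1e000000001)) e e)))))))))))))
 (c (nat_lit 1)
 (c z e
 (c z e
 (c z e
 (c z e
 (c z e
 (c z e
 (c (a (nat_lit 0xf12c6668985)) e
 (c (a (nat_lit 0x124040204004)) e
 (c (a (nat_lit 0x1e0c0c0a001)) e
 (c (a (nat_lit 0x34360804001)) e
 (c (a (nat_lit 0x4e0e0000001)) e e)))))))))))
 (c (a (nat_lit 0x20202021))
 (c z e
 (c z e
 (c z e
 (c z e
 (c (a (nat_lit 0x97448083585)) e
 (c (a (nat_lit 0x1e24120c0c1)) e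
 (c (a (nat_lit 0xc0c060c001)) e
 (c (a (nat_lit 0x40804001)) e
 (c (a (nat_lit 0xa100600001)) e
 (c (a (nat_lit 0xa000000001)) e e))))))))))
 (c (a (nat_lit 0x40404041))
 (c z e
 (c z e
 (c (a (nat_lit 0x9cc80403065)) e
 (c (a (nat_lit 0x1c221804001)) e
 (c (a (nat_lit 0x4e421c202c1)) e
 (c (a (nat_lit 0xe140a0a041)) e
 (c (a (nat_lit 0x80606001)) e
 (c (a (nat_lit 0x60000001)) e e))))))))
 (c (a (nat_lit 0x40404041))
 (c (a (nat_lit 0x4e640203045)) e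
 (c (a (nat_lit 0x221c1202001)) e
 (c (a (nat_lit 0x302e141c361)) e
 (c (a (nat_lit 0x1406081e001)) e
 (c (a (nat_lit 0x6120c001)) e
 (c (a (nat_lit 0x1e0600001)) e
 (c (a (nat_lit 0x24000000001)) e e)))))))
 (c (a (nat_lit 0x20202021))
 (c (a (nat_lit 0x2020404061)) e
 (c (a (nat_lit 0x208080a041)) e
 (c (a (nat_lit 0x6080804081)) e
 (c (a (nat_lit 0xc0e0808001)) e
 (c (a (nat_lit 0x8020000001)) e e)))))
 (c (a (nat_lit 0x20202021))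
 (c (a (nat_lit 0x4040602041)) e
 (c (a (nat_lit 0x8080208021)) e
 (c (a (nat_lit 0xc080600001)) e
 (c (a (nat_lit 0x2000000001)) e e))))
 (c (a (nat_lit 0x21))
 (c (a (nat_lit 0x4020402001)) e
 (c (a (nat_lit 0x6060000001)) e e))
 (c (a (nat_lit 0x60606061))
 (c (a (nat_lit 0x4000000001)) e e)
 (c (a (nat_lit 0x20202021)) e
 (c (a (nat_lit 0x60808081)) e
 (c (a (nat_lit 0x60606061)) e
 (c (a (nat_lit 0x60606061)) e
 (c (a (nat_lit 0x1663)) e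
 (c (a (nat_lit 0xb55c4)) e
 (c (a (nat_lit 0x6490bb0a6)) e e))))))))))))))))))))) Tr.c Tr.e (nat_lit 0) C.cx
noncomputable def C721 : Tr := beta% (fun (c : Nat → Tr → Tr → Tr) (e : Tr) (z : Nat) (a b : Nat → Nat) =>
 (c (a (nat_lit 0x20202021))
 (c (a (nat_lit 0x2020202021))
 (c (a (nat_lit 0x202020326a25))
 (c (a (nat_lit 0xa088443c452ab04)) e
 (c z e
 (c z e
 (c z e
 (c z e
 (c (a (nat_lit 0x1878c3c0e718b444)) e
 (c z e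
 (c z e
 (c (a (nat_lit 0x83e704086bb0a6)) e
 (c z e
 (c (b (nat_lit 0xe73f9927a7ff625)) e e)))))))))))
 (c (a (nat_lit 0x2020364b68e7)) e
 (c (a (nat_lit 0x203648c3e5e7)) e
 (c z e
 (c z e
 (c z e
 (c z e
 (c z e
 (c z e
 (c z e
 (c (b (nat_lit 0x112e8aca9ff286)) e
 (c z e
 (c z e
 (c z e
 (c z e
 (c (a (nat_lit 0x18ada080248d25)) e e))))))))))))))))
 (c (nat_lit 1)
 (c (a (nat_lit 0x2034e8c5ca47)) e e)
 (c (nat_lit 1) e
 (c (a (nat_lit 0x4040404041)) e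
 (c (nat_lit 1) e
 (c (a (nat_lit 0x202001))
 (c z e
 (c z e
 (c z e
 (c z e
 (c z e
 (c z e
 (c z e
 (c z e
 (c z e
 (c z e
 (c (a (nat_lit 0xa56cca0200006)) e e)))))))))))
 (c (nat_lit 1) e
 (c (a (nat_lit 0x6060606061)) e
 (c (a (nat_lit 0x80a0808061)) e
 (c (a (nat_lit 0x4040404041)) e
 (c (a (nat_lit 0x20201bc5))
 (c (a (nat_lit 0xe6270245bda7)) e e)
 (c (b (nat_lit 0x202039bfe4)) e
 (c (b (nat_lit 0x40579fe004)) e e)))))))))))))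
 (c (a (nat_lit 0x20202021))
 (c (a (nat_lit 0x2020202021))
 (c z e
 (c z e
 (c z e
 (c z e
 (c z e
 (c z e
 (c z e
 (c z e
 (c z e
 (c z e
 (c z e
 (c z e
 (c (a (nat_lit 0x4bf8940602126)) e
 (c z e
 (c (b (nat_lit 0x10c05fe10279e5)) e e)))))))))))))))
 (c (a (nat_lit 0x2021)) e
 (c (a (nat_lit 0x2020202021)) e
 (c (a (nat_lit 0x8080808081)) e
 (c (a (nat_lit 0xc0c0c0e0e1)) e
 (c (a (nat_lit 0x8080808081))
 (c z e
 (c z e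
 (c z e
 (c z e
 (c z e
 (c z e
 (c z e
 (c z e
 (c (a (nat_lit 0x1912160200006)) e e)))))))))
 (c (a (nat_lit 0xc0c0a0a0a1))
 (c (a (nat_lit 0xed27c8c08cc85)) e
 (c z e
 (c z e
 (c z e
 (c z e
 (c z e
 (c (a (nat_lit 0x3ff4700a02006)) e
 (c (a (nat_lit 0x1f67a0a0000006)) e e))))))))
 (c (a (nat_lit 0x4060606061)) e
 (c (a (nat_lit 0x2020203706)) e
 (c (a (nat_lit 0x202037cba6)) e
 (c (a (nat_lit 0x31660366)) e e)))))))))))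
 (c (nat_lit 1)
 (c (a (nat_lit 0x2020202021))
 (c z e
 (c z e
 (c z e
 (c z e
 (c z e
 (c z e
 (c z e
 (c (a (nat_lit 0x22143ead2d247)) e
 (c z e
 (c z e
 (c z e
 (c z e
 (c (b (nat_lit 0x1b83c6dfedc2a5)) e e)))))))))))))
 (c (a (nat_lit 0x2040404041))
 (c z e
 (c z e
 (c z e
 (c z e
 (c z e
 (c z e
 (c (a (nat_lit 0x1c2a70dde70a8)) e e)))))))
 (c (a (nat_lit 0x2020202021)) e
 (c (nat_lit 1)
 (c z e
 (c (b (nat_lit 0xdfe041f1a086))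
 (c (a (nat_lit 0x18dc352540000006)) e e) e))
 (c (a (nat_lit 0xc0c0c0c0c1))
 (c (a (nat_lit 0x144e677e4e285))
 (c (a (nat_lit 0x1196052000000005)) e e) e)
 (c (nat_lit 1)
 (c z e
 (c z e
 (c z e
 (c z e
 (c z e
 (c z e
 (c (a (nat_lit 0x16ea0020200007)) e
 (c (a (nat_lit 0x13e02000000006)) e e))))))))
 (c (a (nat_lit 0x20202039c6))
 (c z e
 (c z e
 (c z e
 (c z e
 (c z e
 (c (a (nat_lit 0x19450020000007)) e e))))))
 (c (a (nat_lit 0x202039e8a6)) e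
 (c (a (nat_lit 0x2038d2c206)) e
 (c (b (nat_lit 0x113fe040e6)) e
 (c z e
 (c z e
 (c z e
 (c z e
 (c z e
 (c z e
 (c z e
 (c z e
 (c z e
 (c z e
 (c (b (nat_lit 0x1ff940600002)) e
 (c (a (nat_lit 0x1c0000000002)) e e))))))))))))))))))))))
 (c (a (nat_lit 0x40404041))
 (c (a (nat_lit 0x2020202021))
 (c z e
 (c z e
 (c z e
 (c z e
 (c (a (nat_lit 0x2020607166)) e
 (c (a (nat_lit 0x60414adb9be6)) e e))))))
 (c (a (nat_lit 0x2020202021)) e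
 (c (a (nat_lit 0x20202021))
 (c (a (nat_lit 0x5614044e4df03))
 (c (a (nat_lit 0x1f0df3b6c280c005)) e
 (c (a (nat_lit 0x139874e2c0000006)) e e))
 (c (a (nat_lit 0x300a4a4be55a4))
 (c (a (nat_lit 0x15f1440000000006)) e e) e))
 (c (a (nat_lit 0x6060606061))
 (c (a (nat_lit 0x849a9b0a6e084))
 (c (a (nat_lit 0x1164400000000005)) e e) e)
 (c (a (nat_lit 0x2020203126)) e
 (c (a (nat_lit 0x203e4b06)) e
 (c (a (nat_lit 0x20342bc4c7)) e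
 (c z e
 (c z e
 (c z e
 (c z e
 (c z e
 (c z e
 (c z e
 (c z e
 (c z e
 (c z e
 (c z e
 (c (a (nat_lit 0x1635e0604003)) e
 (c (a (nat_lit 0x15e020000003)) e e))))))))))))))))))))
 C720))))) Tr.c Tr.e (nat_lit 0) C.cx C.cy
noncomputable def C722 : Tr := beta% (fun (c : Nat → Tr → Tr → Tr) (e : Tr) (z : Nat) (a b : Nat → Nat) =>
 (c (a (nat_lit 0x4040404041))
 (c z
 (c (a (nat_lit 0x203e770f5d8323))
 (c z e
 (c z e
 (c z e
 (c z e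
 (c z e
 (c z e
 (c z e
 (c z e
 (c z e
 (c (a (nat_lit 0x180e2e0e262e49be6)) e
 (c (a (nat_lit 0x1e3a36404444057c6)) e
 (c z e
 (c z e
 (c (a (nat_lit 0x183bf7f6180000006)) e e))))))))))))))
 (c z e
 (c z e
 (c z e
 (c z e
 (c z e
 (c z e
 (c z e
 (c z e
 (c z e
 (c z e
 (c (a (nat_lit 0x1833ee0ac5468565)) e
 (c z e
 (c z e
 (c z e
 (c (a (nat_lit 0x1357d468caf35603)) e
 (c (a (nat_lit 0x15b264668e342bc3)) e e)))))))))))))))))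
 (c z
 (c z e
 (c z e
 (c z e
 (c z e
 (c z e
 (c z e
 (c z e
 (c z e
 (c z e
 (c z e
 (c (a (nat_lit 0x146feac861040327)) e e)))))))))))
 (c z
 (c z e
 (c z e
 (c z e
 (c z e
 (c z e
 (c z e
 (c z e
 (c z e
 (c z e
 (c z e
 (c (a (nat_lit 0x17f1512946a7e947)) e e)))))))))))
 (c z
 (c z e
 (c z e
 (c z e
 (c z e
 (c z e
 (c z e
 (c z e
 (c z e
 (c (a (nat_lit 0x1b9e1c52cca46606)) e e)))))))))
 (c z
 (c z e
 (c z e
 (c z e
 (c z e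
 (c z e
 (c z e
 (c (a (nat_lit 0x151dc2b40449525)) e e)))))))
 (c (a (nat_lit 0x2020202031e7)) e
 (c (a (nat_lit 0x20202032a267)) e
 (c (a (nat_lit 0x2020364ba426)) e
 (c (a (nat_lit 0x2030aca45326)) e e)))))))))
 (c (a (nat_lit 0x2020202021))
 (c z
 (c z e
 (c z e
 (c z e
 (c z e
 (c z e
 (c z e
 (c z e
 (c z e
 (c z e
 (c (a (nat_lit 0x1794eaa240e5a227)) e e))))))))))
 (c z
 (c z e
 (c z e
 (c z e
 (c z e
 (c z e
 (c z e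
 (c z e
 (c z e
 (c z e
 (c (a (nat_lit 0x136d6cebea41e388)) e e))))))))))
 (c z e
 (c (a (nat_lit 0x1ae7)) e
 (c (a (nat_lit 0x2020203086c8)) e
 (c (a (nat_lit 0x203102a148)) e
 (c (a (nat_lit 0x2032496209a7))
 (c z e
 (c z e
 (c z e
 (c (a (nat_lit 0x125a6d0c881ac88)) e e)))) e)))))))
 (c (a (nat_lit 0x2020202021))
 (c z
 (c z e
 (c z e
 (c z e
 (c z e
 (c z e
 (c z e
 (c z e
 (c z e
 (c (a (nat_lit 0x136804c68883caa7)) e e)))))))))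
 (c (a (nat_lit 0x202020203148))
 (c z e
 (c z e
 (c z e
 (c z e
 (c z e
 (c z e
 (c (b (nat_lit 0x19d85fe643a96d47)) e e)))))))
 (c (a (nat_lit 0x2020203e0d27)) e
 (c (a (nat_lit 0x202034900a88)) e
 (c (a (nat_lit 0x20215a9e90b68)) e e)))))
 (c (a (nat_lit 0x8080808081))
 (c (a (nat_lit 0x2020203fd0e6)) e
 (c (a (nat_lit 0x202033cde868)) e
 (c (a (nat_lit 0x2036d10b0c48)) e e)))
 (c (a (nat_lit 0x2020202021))
 (c (a (nat_lit 0x14151ad458b27)) e e)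
 (c (a (nat_lit 0x4040404041)) e
 (c (a (nat_lit 0x6060606061)) e
 (c (nat_lit 1) e
 (c (a (nat_lit 0x8080808081)) e
 (c (nat_lit 1) e
 (c (a (nat_lit 0x20202001)) e
 (c (a (nat_lit 0x20000001)) e
 (c (a (nat_lit 0x2020202021))
 (c z e
 (c z e
 (c z e
 (c z e
 (c (a (nat_lit 0xbbcb1a0000005)) e e)))))
 (c (a (nat_lit 0x8080606061))
 (c z e
 (c z e
 (c (a (nat_lit 0x1b5a3cdc800008)) e
 (c (a (nat_lit 0x112000000002)) e e))))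
 (c (a (nat_lit 0x20004361))
 (c (a (nat_lit 0x129291f3386008)) e
 (c (a (nat_lit 0x12604020000004)) e
 (c (a (nat_lit 0x400000000001)) e e)))
 (c (a (nat_lit 0x20203c76a4)) e
 (c (a (nat_lit 0x203c76b544)) e e)))))))))))))))))) Tr.c Tr.e (nat_lit 0) C.cx C.cy
noncomputable def C723 : Tr := beta% (fun (c : Nat → Tr → Tr → Tr) (e : Tr) (z : Nat) (a b : Nat → Nat) =>
 (c (a (nat_lit 0x6060606061))
 (c z
 (c (a (nat_lit 0x8888888888891c2))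
 (c z e
 (c z e
 (c z e
 (c z e
 (c z e
 (c z e
 (c z e
 (c z e
 (c z e
 (c z e
 (c z e
 (c z e
 (c (a (nat_lit 0x5a6464585e4ea3126)) e
 (c (a (nat_lit 0x1e1a3480807ebd146)) e e))))))))))))))
 (c (a (nat_lit 0xe0e0e0e0f457a4))
 (c z e
 (c z e
 (c z e
 (c z e
 (c z e
 (c z e
 (c z e
 (c z e
 (c z e
 (c (a (nat_lit 0xdab0beaec5a2df1c5)) e e))))))))))
 (c (a (nat_lit 0x20202032b2ab85))
 (c z e
 (c z e
 (c z e
 (c z e
 (c z e
 (c z e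
 (c z e
 (c (a (nat_lit 0x7eba5474e57a908e6)) e
 (c (a (nat_lit 0xa6507ca144744e6a6)) e e)))))))))
 (c (a (nat_lit 0x2034f3ab8085)) e
 (c (a (nat_lit 0x187c74cce045))
 (c z e
 (c z e
 (c z e
 (c z e
 (c (a (nat_lit 0x6a808aace0aacb9e6)) e
 (c (a (nat_lit 0x12f21973f8f1f80e86)) e e))))))
 (c z e
 (c z e
 (c z e
 (c z e
 (c z e
 (c z e
 (c z e
 (c z e
 (c z e
 (c z e
 (c z e
 (c (a (nat_lit 0x1a3dafe7e7ea8763)) e
 (c (a (nat_lit 0x16484080642141e3)) e e))))))))))))))))))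
 (c z
 (c (a (nat_lit 0x202020306b28c6))
 (c z e
 (c z e
 (c z e
 (c z e
 (c z e
 (c z e
 (c z e
 (c z e
 (c z e
 (c (a (nat_lit 0x6a6c62850ea2a8a07)) e e))))))))))
 (c (a (nat_lit 0x108c8841a7))
 (c z e
 (c z e
 (c z e
 (c z e
 (c z e
 (c z e
 (c z e
 (c z e
 (c (a (nat_lit 0x9692b97474bcc8687)) e e)))))))))
 (c (a (nat_lit 0x2032b10d03e467)) e e)))
 (c z
 (c (a (nat_lit 0x2030cf2a03cbc6)) e
 (c z e
 (c z e
 (c z e
 (c z e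
 (c z e
 (c z e
 (c z e
 (c z e
 (c z e
 (c z e
 (c z e
 (c z e
 (c (a (nat_lit 0x16f5d76f2d678807)) e e))))))))))))))
 (c z e
 (c z
 (c z e
 (c z e
 (c z e
 (c z e
 (c z e
 (c z e
 (c z e
 (c z e
 (c z e
 (c (a (nat_lit 0xa9b12f28bc10107)) e e))))))))))
 (c z
 (c z e
 (c z e
 (c z e
 (c z e
 (c z e
 (c z e
 (c z e
 (c (a (nat_lit 0x4c6d168ca272048)) e e))))))))
 (c z
 (c z e
 (c z e
 (c z e
 (c z e
 (c z e
 (c (a (nat_lit 0x21a525cad21327)) e e))))))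
 (c z e
 (c (a (nat_lit 0x202020203ca5)) e
 (c (a (nat_lit 0x20202030e866)) e
 (c (a (nat_lit 0x20203087a166)) e
 (c (a (nat_lit 0x424366ba4ece6)) e e))))))))))))
 (c (a (nat_lit 0x6060606061))
 (c z
 (c (a (nat_lit 0x60607049270826))
 (c z e
 (c z e
 (c z e
 (c z e
 (c z e
 (c z e
 (c z e
 (c z e
 (c (a (nat_lit 0xc4b2d2d34706d96c6)) e e)))))))))
 (c (a (nat_lit 0xc0d04d89064707)) e
 (c z e
 (c z e
 (c z e
 (c z e
 (c z e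
 (c z e
 (c z e
 (c z e
 (c z e
 (c (a (nat_lit 0xb92d3ef0825c607)) e e))))))))))))
 (c z e
 (c z e
 (c z e
 (c z e
 (c z e
 (c (a (nat_lit 0x202020203c67)) e
 (c (a (nat_lit 0x2020203065c7)) e
 (c (a (nat_lit 0x202031aa6287)) e
 (c (a (nat_lit 0x1c1dfedc6d6a6)) e e))))))))))
 (c (a (nat_lit 0x4040404041))
 (c z
 (c z e
 (c z e
 (c z e
 (c z e
 (c z e
 (c z e
 (c z e
 (c z e
 (c z e
 (c (a (nat_lit 0x892762f4285c767)) e
 (c z e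
 (c (a (nat_lit 0x18953148a8a30607)) e e))))))))))))
 (c z e
 (c z e
 (c z
 (c z e
 (c z e
 (c z e
 (c z e
 (c z e
 (c (b (nat_lit 0x90672bfea6841e6)) e e))))))
 (c (a (nat_lit 0x202020203b27)) e
 (c (a (nat_lit 0x202020302508)) e
 (c (a (nat_lit 0x2020388ac2a7)) e
 (c (a (nat_lit 0xa0b50c436867)) e e))))))))
 (c (a (nat_lit 0x2020202021))
 (c z e
 (c z e
 (c (a (nat_lit 0x20202038e7))
 (c z e
 (c z e
 (c z e
 (c z e
 (c z e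
 (c (a (nat_lit 0xd0b628c4a4b18a6)) e e))))))
 (c (a (nat_lit 0x2020203b4da7)) e
 (c (a (nat_lit 0x20203507e5c8)) e
 (c (a (nat_lit 0x809a0ca3c767)) e e))))))
 (c (a (nat_lit 0x6060606061))
 (c (a (nat_lit 0x2020202032c7)) e
 (c (a (nat_lit 0x202020308888)) e
 (c (a (nat_lit 0x202036aea7c8)) e
 (c (a (nat_lit 0x22238cdab6ce8)) e e))))
 (c (a (nat_lit 0x4040404041))
 (c (a (nat_lit 0x2020362f86e7)) e
 (c (a (nat_lit 0x20364fe6c908)) e e))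
 (c (a (nat_lit 0x4040404041)) e
 (c (a (nat_lit 0x2020202021)) e
 (c (nat_lit 1) e
 (c (a (nat_lit 0x2040404041)) e
 (c (nat_lit 1) e
 (c (a (nat_lit 0x20202001)) e
 (c (a (nat_lit 0x4040404041)) e
 (c (a (nat_lit 0x20200001))
 (c z e
 (c z e
 (c z e
 (c z e
 (c (a (nat_lit 0xaac10ec800007)) e
 (c (a (nat_lit 0x12808000000003)) e e))))))
 (c (a (nat_lit 0x2020000001))
 (c z e
 (c z e
 (c (a (nat_lit 0x141493f357e008)) e
 (c (a (nat_lit 0x14e90040000004)) e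
 (c (a (nat_lit 0x11c00000000003)) e e)))))
 (c (a (nat_lit 0x2020204041))
 (c (a (nat_lit 0x10b0f15050ef48)) e
 (c (a (nat_lit 0x15204020200004)) e
 (c (a (nat_lit 0x604000000001)) e e)))
 (c (a (nat_lit 0x2020203126)) e
 (c (a (nat_lit 0x20203126e6)) e
 (c (a (nat_lit 0x3126e2e6)) e e)))))))))))))))))))) Tr.c Tr.e (nat_lit 0) C.cx C.cy
noncomputable def C724 : Tr := beta% (fun (c : Nat → Tr → Tr → Tr) (e : Tr) (z : Nat) (a b : Nat → Nat) =>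
 (c (a (nat_lit 0x2020202021))
 (c z
 (c (a (nat_lit 0x20202033a9a5c6)) e
 (c (a (nat_lit 0x2020374c660cc7))
 (c z e
 (c z e
 (c z e
 (c z e
 (c z e
 (c (a (nat_lit 0x3c564eb8d133cdd68))
 (c z e
 (c (a (nat_lit 0x1329cc2740000000000a)) e e)) e))))))
 (c (a (nat_lit 0x203cf64f728027)) e
 (c z e
 (c z e
 (c z e
 (c z e
 (c z e
 (c z e
 (c z e
 (c z e
 (c z e
 (c z e
 (c z e
 (c (b (nat_lit 0x1a71b71fea08a0c7)) e e)))))))))))))))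
 (c z
 (c (a (nat_lit 0x140b85a7e5a7))
 (c z e
 (c z e
 (c z e
 (c z e
 (c z e
 (c z e
 (c z e
 (c (a (nat_lit 0x12ac129f744f573706)) e e)))))))) e)
 (c z e
 (c z e
 (c z
 (c z e
 (c z e
 (c z e
 (c z e
 (c z e
 (c z e
 (c z e
 (c (a (nat_lit 0xd7278d912b0d008)) e e))))))))
 (c z e
 (c z e
 (c (a (nat_lit 0x202020203867)) e
 (c (a (nat_lit 0x20202035e787)) e
 (c (a (nat_lit 0x202035e720e7)) e
 (c (b (nat_lit 0x2037a75ff0c7)) e e)))))))))))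
 (c (nat_lit 1)
 (c z
 (c (b (nat_lit 0x19cfc9ffe18405))
 (c z e
 (c z e
 (c z e
 (c z e
 (c z e
 (c z e
 (c z e
 (c z e
 (c z e
 (c z e
 (c (a (nat_lit 0x9a804673507f9ab27)) e e))))))))))) e)
 (c z e
 (c z e
 (c z e
 (c z e
 (c (a (nat_lit 0x202020203dc7)) e
 (c (a (nat_lit 0x2020203a4767)) e
 (c (b (nat_lit 0x20203669dfe7)) e
 (c (b (nat_lit 0x2035e57fe627)) e
 (c (b (nat_lit 0x27607ffe8ad47)) e e))))))))))
 (c (nat_lit 1)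
 (c z e
 (c z e
 (c z e
 (c (a (nat_lit 0x202020203b87)) e
 (c (a (nat_lit 0x2020203d09e7)) e
 (c (a (nat_lit 0x20203f4f8287)) e
 (c (b (nat_lit 0x2037cddfe6c7)) e e)))))))
 (c (a (nat_lit 0x4040404041))
 (c z
 (c z e
 (c z e
 (c z e
 (c z e
 (c z e
 (c z e
 (c z e
 (c z e
 (c (a (nat_lit 0x16aa26c305234866)) e
 (c z e
 (c z e
 (c z e
 (c (a (nat_lit 0x3714e7c21a00005)) e e)))))))))))))
 (c (a (nat_lit 0x202020203f47)) e
 (c (a (nat_lit 0x20202030e868)) e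
 (c (a (nat_lit 0x202039aa6468)) e
 (c (a (nat_lit 0x2034ca420468)) e e)))))
 (c (a (nat_lit 0x4040404041))
 (c (a (nat_lit 0x2020203e5026)) e
 (c (a (nat_lit 0x202039324868)) e
 (c (a (nat_lit 0x2223a50ab6ba8)) e
 (c (a (nat_lit 0x233afc8284368)) e e))))
 (c (a (nat_lit 0x4040404041))
 (c (a (nat_lit 0x2037f126c8c7)) e e)
 (c (a (nat_lit 0x4040404041)) e
 (c (a (nat_lit 0xa0a0a0a0a1)) e
 (c (a (nat_lit 0x6060606061)) e
 (c (a (nat_lit 0x2001)) e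
 (c (a (nat_lit 0x40202001))
 (c z e
 (c z e
 (c z e
 (c z e
 (c z e
 (c z e
 (c z e
 (c z e
 (c (a (nat_lit 0x1d5be040000004)) e
 (c (a (nat_lit 0x1ce00000000004)) e e))))))))))
 (c (a (nat_lit 0x2020204041))
 (c z e
 (c z e
 (c z e
 (c z e
 (c z e
 (c z e
 (c (b (nat_lit 0x1ff7d741e00003)) e
 (c (a (nat_lit 0x178b6000000004)) e e))))))))
 (c (a (nat_lit 0x12121212121))
 (c z e
 (c z e
 (c z e
 (c z e
 (c (a (nat_lit 0xb0aec7916c006)) e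
 (c (a (nat_lit 0x14604020000004)) e
 (c (a (nat_lit 0x1200000000001)) e e)))))))
 (c (a (nat_lit 0x4040202021))
 (c z e
 (c z e
 (c (a (nat_lit 0x1bdcbc38b99847)) e
 (c (a (nat_lit 0x11402040200005)) e
 (c (a (nat_lit 0x342e000000001)) e e)))))
 (c (a (nat_lit 0x2021))
 (c (a (nat_lit 0x12527252517068)) e
 (c (a (nat_lit 0x11802020202005)) e
 (c (a (nat_lit 0x6060000001)) e
 (c (nat_lit 1) e e))))
 (c (a (nat_lit 0xc0c0c0c0c1)) e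
 (c (a (nat_lit 0x20202033e6)) e
 (c (a (nat_lit 0x202033e7c6)) e
 (c (a (nat_lit 0x203407e0a6)) e
 (c (a (nat_lit 0xd4a88169c6)) e e))))))))))))))))))))) Tr.c Tr.e (nat_lit 0) C.cx C.cy
noncomputable def C725 : Tr := beta% (fun (c : Nat → Tr → Tr → Tr) (e : Tr) (z : Nat) (a b : Nat → Nat) =>
 (c z
 (c z
 (c z e
 (c z e
 (c z e
 (c z e
 (c z e
 (c z e
 (c z e
 (c z e
 (c z e
 (c z e
 (c z e
 (c (a (nat_lit 0x8050885c523ec9167)) e e))))))))))))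
 (c z e
 (c (a (nat_lit 0x20202020203527))
 (c z e
 (c z e
 (c z e
 (c z e
 (c z e
 (c z e
 (c z e
 (c z e
 (c (a (nat_lit 0x85a48262f4a69a2e6)) e e)))))))))
 (c (a (nat_lit 0x2020202033aae7))
 (c z e
 (c z e
 (c z e
 (c z e
 (c z e
 (c z e
 (c z e
 (c (a (nat_lit 0xe1d4a674d0ecf8607)) e e))))))))
 (c (a (nat_lit 0x202020312aa628)) e
 (c (a (nat_lit 0x2020322d6a8648))
 (c z e
 (c z e
 (c z e
 (c z e
 (c (a (nat_lit 0x5c7ad6e693189f3e7)) e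
 (c (a (nat_lit 0x9ea6cd63a32ae4467)) e e))))))
 (c (a (nat_lit 0x121308c4966c228))
 (c z e
 (c z e
 (c z e
 (c z e
 (c z e
 (c (b (nat_lit 0xd3a065feea7e92767)) e e))))))
 (c z e
 (c z e
 (c z e
 (c z e
 (c z e
 (c z e
 (c z e
 (c z e
 (c z e
 (c (a (nat_lit 0x1708a4c4aaa2a286)) e
 (c (a (nat_lit 0x140c6b7788482005)) e e))))))))))))))))))
 (c z
 (c (a (nat_lit 0x20202020203446))
 (c z e
 (c z e
 (c z e
 (c z e
 (c z e
 (c z e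
 (c z e
 (c z e
 (c z e
 (c z e
 (c (a (nat_lit 0xeeaccea6a87f1e0c6)) e e)))))))))))
 (c (a (nat_lit 0x202020203147c7))
 (c z e
 (c z e
 (c z e
 (c z e
 (c z e
 (c z e
 (c z e
 (c z e
 (c z e
 (c (a (nat_lit 0x195b7d7cdebd696c66)) e e))))))))))
 (c (a (nat_lit 0x20202038f0a8c7)) e
 (c (a (nat_lit 0x2020304a0486a8))
 (c z e
 (c z e
 (c z e
 (c z e
 (c z e
 (c z e
 (c z e
 (c (a (nat_lit 0xb4cabd06e4cec8048)) e e))))))))
 (c (a (nat_lit 0x2c2d04dea2b86a8))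
 (c z e
 (c z e
 (c z e
 (c z e
 (c (a (nat_lit 0x7ca6c772be6acd487)) e e))))) e)))))
 (c z
 (c (a (nat_lit 0x20202034694566))
 (c z e
 (c z e
 (c z e
 (c z e
 (c z e
 (c z e
 (c z e
 (c z e
 (c z e
 (c (a (nat_lit 0xa11b3ceec82c41006)) e
 (c (a (nat_lit 0x907a44566c2297ae7)) e
 (c (a (nat_lit 0x748680c8f03a87c88)) e
 (c z e
 (c (a (nat_lit 0x342e3a95c20000009)) e e))))))))))))))
 (c (a (nat_lit 0x202037cee7c487))
 (c z e
 (c z e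
 (c z e
 (c z e
 (c z e
 (c z e
 (c z e
 (c (a (nat_lit 0xd6cf331938b6f1287)) e
 (c z e
 (c (a (nat_lit 0x5a423a5640512a209)) e e))))))))))
 (c (a (nat_lit 0x203bcfc5a58027)) e
 (c (a (nat_lit 0x1ab56eaa26e1a7)) e
 (c z e
 (c z e
 (c z e
 (c z e
 (c z e
 (c z e
 (c z e
 (c z e
 (c z e
 (c z e
 (c (a (nat_lit 0xcc9dc6726a3e385)) e
 (c (a (nat_lit 0x6d9646442812105)) e e))))))))))))))))
 (c z
 (c (a (nat_lit 0x2036f127054126)) e e)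
 (c z
 (c z e
 (c z e
 (c z e
 (c z e
 (c z e
 (c z e
 (c z e
 (c z e
 (c z e
 (c (a (nat_lit 0xcacb73fbc36afc6)) e
 (c z e
 (c z e
 (c (a (nat_lit 0x2c57121c04060c5)) e e)))))))))))))
 (c z
 (c z e
 (c z e
 (c z e
 (c z e
 (c z e
 (c z e
 (c z e
 (c z e
 (c z e
 (c z e
 (c z e
 (c (a (nat_lit 0x8e580c040304586)) e e))))))))))))
 (c z e
 (c z e
 (c z e
 (c z e
 (c (a (nat_lit 0x202020203da5))
 (c (a (nat_lit 0x2a2a72acb8b1125)) e e)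
 (c (a (nat_lit 0x202020356506)) e
 (c (a (nat_lit 0x202035864126)) e
 (c (b (nat_lit 0x203c0cffe565)) e
 (c (a (nat_lit 0x6d0c9c4e8ea86)) e e)))))))))))))))) Tr.c Tr.e (nat_lit 0) C.cx C.cy
noncomputable def C726 : Tr := beta% (fun (c : Nat → Tr → Tr → Tr) (e : Tr) (z : Nat) (a : Nat → Nat) =>
 (c (a (nat_lit 0x6060606061))
 (c z
 (c z
 (c z e
 (c (a (nat_lit 0xa4a4a4c442d0b5f83)) e
 (c (a (nat_lit 0x2e2e202624574cf45)) e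
 (c (a (nat_lit 0x5042346640ef14de4)) e
 (c z e
 (c z e
 (c z e
 (c z e
 (c z e
 (c z e
 (c z e
 (c z e
 (c z e
 (c z e
 (c (a (nat_lit 0x1211d6150e6928efa4)) e
 (c (a (nat_lit 0xbcfaf6ed0f0b09825)) e
 (c (a (nat_lit 0x563a6f130f0b090a5)) e e)))))))))))))))))
 (c z
 (c (a (nat_lit 0x4a4aa696e6891f3a4))
 (c z e
 (c z e
 (c z e
 (c z e
 (c z e
 (c z e
 (c z e
 (c z e
 (c z e
 (c z e
 (c z e
 (c z e
 (c (a (nat_lit 0x60628c9e52e94aa4ae8)) e e)))))))))))))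
 (c z e
 (c z e
 (c z e
 (c z e
 (c z e
 (c z e
 (c z e
 (c z e
 (c z e
 (c z e
 (c (a (nat_lit 0x908e80ae945a3f0a6)) e
 (c z e
 (c z e
 (c z e
 (c (a (nat_lit 0x4272acc909030f227)) e e))))))))))))))))
 (c z
 (c z e
 (c z e
 (c z e
 (c z e
 (c z e
 (c z e
 (c z e
 (c z e
 (c z e
 (c (a (nat_lit 0x1f9b280986e64a46c5)) e
 (c (a (nat_lit 0x1aea2c4a07e6abeda5)) e e)))))))))))
 (c z
 (c z e
 (c z e
 (c z e
 (c z e
 (c z e
 (c z e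
 (c z e
 (c z e
 (c z e
 (c (a (nat_lit 0xd706ea7d0ff55c585)) e
 (c (a (nat_lit 0x1950107759d00b3445)) e e)))))))))))
 (c (a (nat_lit 0x808080808096c4))
 (c z e
 (c z e
 (c z e
 (c z e
 (c z e
 (c z e
 (c z e
 (c z e
 (c z e
 (c (a (nat_lit 0xe924ef2108e314b06)) e e))))))))))
 (c (a (nat_lit 0x20202020312705))
 (c z e
 (c z e
 (c z e
 (c z e
 (c z e
 (c z e
 (c (a (nat_lit 0x10ebdab975f1978064)) e e)))))))
 (c (a (nat_lit 0x20202032ae6bc6))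
 (c z e
 (c z e
 (c z e
 (c z e
 (c z e
 (c (a (nat_lit 0xba80c8a4ad5cd6c26)) e
 (c (a (nat_lit 0xc2e726e53ccad8a06)) e
 (c (a (nat_lit 0x13512efd9d5511c366)) e
 (c z e
 (c (a (nat_lit 0x56968a8b4aa46a008)) e e))))))))))
 (c (a (nat_lit 0x1a1a1bf36b0ace5))
 (c z e
 (c z e
 (c z e
 (c (a (nat_lit 0xe304e4feb29ce93e6)) e e))))
 (c (a (nat_lit 0x2e2fe13d40fab45)) e
 (c (a (nat_lit 0x1d9f3cf0a524ba4))
 (c z e
 (c (a (nat_lit 0xecd0d0a037153aec5)) e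
 (c (a (nat_lit 0x96cab44296f5deaa5)) e
 (c (a (nat_lit 0xd8541e344c260b446)) e e))))
 (c z e
 (c z e
 (c z e
 (c z e
 (c z e
 (c z e
 (c z e
 (c (a (nat_lit 0x10086563e4cc6684)) e
 (c (a (nat_lit 0xdeaea2a11abb0c4)) e
 (c (a (nat_lit 0xead0b3c307b4043)) e e))))))))))))))))))))
 C725)
 (c (a (nat_lit 0x6060606061))
 (c z
 (c z
 (c z e
 (c z e
 (c z e
 (c z e
 (c z e
 (c z e
 (c z e
 (c z e
 (c z e
 (c z e
 (c (a (nat_lit 0x10cc4c0926a40c35a5)) e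
 (c (a (nat_lit 0x786e62503afd72a66)) e e))))))))))))
 (c (a (nat_lit 0x1387)) e
 (c (a (nat_lit 0x20202020354c07))
 (c z e
 (c z e
 (c z e
 (c z e
 (c z e
 (c z e
 (c z e
 (c z e
 (c (a (nat_lit 0x13cf2b698b10454587)) e e)))))))))
 (c (a (nat_lit 0x202020395009e7)) e
 (c (a (nat_lit 0x8080914b67c548))
 (c z e
 (c z e
 (c z e
 (c z e
 (c z e
 (c (a (nat_lit 0x116f2f380d8cca7027)) e e))))))
 (c (a (nat_lit 0x203f1a12cb6027))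
 (c z e
 (c z e
 (c z e
 (c z e
 (c (a (nat_lit 0x4e8efa2ca61821307)) e e)))))
 (c z e
 (c z e
 (c z e
 (c z e
 (c z e
 (c z e
 (c z e
 (c z e
 (c z e
 (c z e
 (c (a (nat_lit 0xd7427fd6a602184)) e e)))))))))))))))))
 (c z
 (c (a (nat_lit 0x2020202036aae7)) e
 (c (a (nat_lit 0x20202037ee0988)) e
 (c (a (nat_lit 0x20203db3ee4988)) e
 (c (a (nat_lit 0x20308be866e0c9)) e e))))
 (c z
 (c (a (nat_lit 0x20203a4f0a6507)) e
 (c (a (nat_lit 0x203cd34ce525a8)) e e))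
 (c z e
 (c z e
 (c z e
 (c z e
 (c z e
 (c z e
 (c (a (nat_lit 0x202020203d87)) e
 (c (a (nat_lit 0x2020203d2c87)) e
 (c (a (nat_lit 0x20203eec8627)) e
 (c (a (nat_lit 0x1213087846568)) e e)))))))))))))
 C724))) Tr.c Tr.e (nat_lit 0) C.cx
noncomputable def C727 : Tr := beta% (fun (c : Nat → Tr → Tr → Tr) (e : Tr) (z : Nat) (a : Nat → Nat) =>
 (c (a (nat_lit 0x20200001))
 (c z
 (c z e
 (c z e
 (c z e
 (c z e
 (c z e
 (c (a (nat_lit 0xc1161e124980a25))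
 (c (a (nat_lit 0x35d863234a8c48546)) e e)
 (c z e
 (c z e
 (c (a (nat_lit 0x26714cc7e381e6)) e
 (c z e
 (c (a (nat_lit 0x14d2f3f306e98f26)) e
 (c z e
 (c z e
 (c z e
 (c (a (nat_lit 0x712d5f4f3918004)) e e)))))))))))))))
 (c z
 (c z e
 (c z e
 (c z e
 (c z e
 (c z e
 (c z e
 (c z e
 (c (a (nat_lit 0x445f514a4a46487)) e e))))))))
 (c z
 (c z e
 (c z e
 (c z e
 (c z e
 (c z e
 (c z e
 (c z e
 (c z e
 (c z e
 (c z e
 (c z e
 (c (a (nat_lit 0x1408080d652c004)) e e))))))))))))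
 (c z e
 (c (a (nat_lit 0x202020203946)) e
 (c (a (nat_lit 0x2020203226e6))
 (c (a (nat_lit 0x108cc242618e3b64)) e
 (c z e
 (c z e
 (c z e
 (c z e
 (c (a (nat_lit 0xa5351a6c448b6a7)) e e))))))
 (c (a (nat_lit 0x202035ce0306)) e
 (c (a (nat_lit 0x2021526a547a6)) e
 (c z e
 (c z e
 (c z e
 (c z e
 (c z e
 (c z e
 (c z e
 (c (a (nat_lit 0x4a6c080607105)) e
 (c z e
 (c z e
 (c z e
 (c z e
 (c (a (nat_lit 0x14250020200005)) e e)))))))))))))))))))))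
 (c (a (nat_lit 0x20200001))
 (c z
 (c (a (nat_lit 0x9d02b0d29a808a5))
 (c z e
 (c z e
 (c z e
 (c (a (nat_lit 0xaa549069fc82aadc7)) e
 (c z e
 (c z e
 (c (a (nat_lit 0x48c154505e8a2a007)) e e)))))))
 (c z e
 (c z e
 (c z e
 (c z e
 (c z e
 (c (a (nat_lit 0x1c5f02a63622246)) e
 (c z e
 (c (a (nat_lit 0x1a6e4ce725848286)) e
 (c z e
 (c z e
 (c z e
 (c (a (nat_lit 0xe41105cb274004)) e
 (c (a (nat_lit 0x3944a680000003)) e e))))))))))))))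
 (c z e
 (c (a (nat_lit 0x202020203187)) e
 (c (a (nat_lit 0x2020203244a7)) e
 (c (a (nat_lit 0x203188c1c7)) e
 (c (a (nat_lit 0xc0d00a428647)) e
 (c z e
 (c z e
 (c z e
 (c z e
 (c z e
 (c z e
 (c (a (nat_lit 0x11e087252020a4)) e
 (c z e
 (c z e
 (c z e
 (c z e
 (c z e
 (c (a (nat_lit 0xf3c6aa2a06003)) e e)))))))))))))))))))
 (c (a (nat_lit 0x2020202021))
 (c (a (nat_lit 0x202020203565)) e
 (c (a (nat_lit 0x2020203a30e6)) e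
 (c (a (nat_lit 0x202038e92147)) e
 (c (a (nat_lit 0x202134e830527))
 (c z e
 (c z e
 (c z e
 (c (a (nat_lit 0x11ceeb57a721f147)) e e)))) e))))
 (c (a (nat_lit 0x4040404041))
 (c (a (nat_lit 0x606079b50346))
 (c z e
 (c z e
 (c z e
 (c z e
 (c z e
 (c (a (nat_lit 0xd48496dcdb10646)) e e))))))
 (c (a (nat_lit 0x203a4cc42827)) e e))
 (c (a (nat_lit 0x20200001)) e
 (c (a (nat_lit 0xe0e0e0e0e1)) e
 (c (a (nat_lit 0x4040404041))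
 (c z e
 (c z e
 (c z e
 (c z e
 (c z e
 (c z e
 (c z e
 (c z e
 (c (a (nat_lit 0x10ec642e684044)) e e)))))))))
 (c (a (nat_lit 0x20200001))
 (c z e
 (c z e
 (c z e
 (c z e
 (c z e
 (c z e
 (c z e
 (c z e
 (c z e
 (c z e
 (c (a (nat_lit 0x11468440000002)) e e)))))))))))
 (c (a (nat_lit 0x20202021))
 (c z e
 (c z e
 (c z e
 (c z e
 (c z e
 (c z e
 (c z e
 (c z e
 (c (a (nat_lit 0xee05600001)) e e)))))))))
 (c (a (nat_lit 0x20200001))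
 (c z e
 (c z e
 (c z e
 (c z e
 (c z e
 (c z e
 (c (a (nat_lit 0x7430dd76be002)) e
 (c (a (nat_lit 0x1a1720000001)) e e))))))))
 (c (a (nat_lit 0x20200001))
 (c z e
 (c z e
 (c z e
 (c z e
 (c (a (nat_lit 0xfad66867a2524)) e
 (c (a (nat_lit 0x1060a060200003)) e e))))))
 (c (a (nat_lit 0x4040404041))
 (c z e
 (c z e
 (c (a (nat_lit 0x119151f1cf2fe7)) e
 (c (a (nat_lit 0x16c06060604003)) e
 (c (a (nat_lit 0x806060000001)) e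
 (c (a (nat_lit 0x200000000001)) e e))))))
 (c (a (nat_lit 0x20202001))
 (c (a (nat_lit 0x11111151512f47)) e
 (c (a (nat_lit 0x18032060608063)) e
 (c (a (nat_lit 0xb208080800001)) e
 (c (a (nat_lit 0x2000000001)) e e))))
 (c (a (nat_lit 0xe0e0e0e0e1)) e
 (c (a (nat_lit 0x6060606061)) e
 (c (a (nat_lit 0x2020203504)) e
 (c (a (nat_lit 0x2020352da4)) e
 (c (a (nat_lit 0x344d1164)) e
 (c z e
 (c z e
 (c (a (nat_lit 0x80a2652a545)) e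
 (c z e
 (c z e
 (c z e
 (c z e
 (c (a (nat_lit 0xe8bd94de004)) e e))))))))))))))))))))))))))) Tr.c Tr.e (nat_lit 0) C.cx
noncomputable def C728 : Tr := beta% (fun (c : Nat → Tr → Tr → Tr) (e : Tr) (z : Nat) (a b : Nat → Nat) =>
 (c (a (nat_lit 0x20200001))
 (c z
 (c (a (nat_lit 0x404040405989c4)) e
 (c (a (nat_lit 0x20202032496386))
 (c z e
 (c z e
 (c z e
 (c z e
 (c z e
 (c z e
 (c z e
 (c z e
 (c (a (nat_lit 0x102e896850768b2d85)) e e)))))))))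
 (c (a (nat_lit 0x20203b120db386))
 (c z e
 (c z e
 (c z e
 (c z e
 (c z e
 (c z e
 (c (a (nat_lit 0xaa7a925e630eeadc6)) e e)))))))
 (c (a (nat_lit 0x3bb3ed56e026))
 (c z e
 (c z e
 (c z e
 (c z e
 (c z e
 (c (a (nat_lit 0x1073f4d836cdef7dc6)) e
 (c (a (nat_lit 0x1a184022101e11188)) e e)))))))
 (c z e
 (c z e
 (c z e
 (c z e
 (c z e
 (c z e
 (c z e
 (c z e
 (c z e
 (c z e
 (c z e
 (c (a (nat_lit 0x12a160810200e0e4)) e
 (c z e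
 (c (a (nat_lit 0xd008660e3a0e001)) e e))))))))))))))))))
 (c z
 (c (a (nat_lit 0x20203188a3a9e6))
 (c z e
 (c z e
 (c z e
 (c z e
 (c z e
 (c z e
 (c z e
 (c (a (nat_lit 0x11714e8f94460f9746)) e
 (c (a (nat_lit 0xa6765aa050c84f0c6)) e e)))))))))
 (c (a (nat_lit 0x35ef8b8c6347))
 (c z e
 (c z e
 (c z e
 (c z e
 (c z e
 (c (b (nat_lit 0x407a89fee0bb7ee87)) e e)))))) e))
 (c z
 (c z e
 (c z e
 (c z e
 (c z e
 (c z e
 (c z e
 (c z e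
 (c z e
 (c z e
 (c z e
 (c z e
 (c z e
 (c z e
 (c z e
 (c (a (nat_lit 0x1b20404046206044)) e
 (c (a (nat_lit 0x5a5a69ec8438002)) e e))))))))))))))))
 (c z
 (c z e
 (c z e
 (c z e
 (c z e
 (c z e
 (c z e
 (c z e
 (c z e
 (c (b (nat_lit 0x6e7ff1502b0146)) e e)))))))))
 (c z e
 (c z e
 (c z e
 (c z
 (c z e
 (c z e
 (c z e
 (c z e
 (c z e
 (c z e
 (c z e
 (c z e
 (c (a (nat_lit 0x1851820685000004)) e e)))))))))
 (c (a (nat_lit 0x2020202033c6)) e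
 (c (a (nat_lit 0x2020203344e6)) e
 (c (a (nat_lit 0x20203064e126)) e
 (c (a (nat_lit 0x28292c78430c6)) e e))))))))))))
 (c (a (nat_lit 0x20200001))
 (c z
 (c (a (nat_lit 0x20364be7cdc8e4))
 (c z e
 (c z e
 (c z e
 (c z e
 (c z e
 (c (a (nat_lit 0x141e9aa08a2520dc6)) e
 (c z e
 (c z e
 (c (a (nat_lit 0x645c64c4b24eb7426)) e
 (c z e
 (c (a (nat_lit 0x5d33741c4488e98a5)) e e)))))))))))
 (c z e
 (c z e
 (c z e
 (c z e
 (c z e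
 (c z e
 (c z e
 (c z e
 (c z e
 (c z e
 (c z e
 (c z e
 (c z e
 (c (a (nat_lit 0x1a07471912f508c4)) e
 (c z e
 (c z e
 (c (a (nat_lit 0x140dd0a220000004)) e e))))))))))))))))))
 (c z e
 (c z
 (c z e
 (c z e
 (c z e
 (c z e
 (c z e
 (c z e
 (c z e
 (c z e
 (c (a (nat_lit 0xb52c9868462a7)) e e)))))))))
 (c z e
 (c z e
 (c z e
 (c (a (nat_lit 0x202020203ea5)) e
 (c (a (nat_lit 0x20202034e566)) e
 (c (a (nat_lit 0x202035c34146)) e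
 (c (a (nat_lit 0x24254e562e8a6)) e e))))))))))
 C727))) Tr.c Tr.e (nat_lit 0) C.cx C.cy
noncomputable def C729 : Tr := beta% (fun (c : Nat → Tr → Tr → Tr) (e : Tr) (z : Nat) (a : Nat → Nat) =>
 (c z
 (c z
 (c z e
 (c z e
 (c z e
 (c z e
 (c z e
 (c z e
 (c z e
 (c z e
 (c z e
 (c z e
 (c z e
 (c (a (nat_lit 0x52565642382f4b965)) e
 (c (a (nat_lit 0x161513d252d3241965)) e
 (c (a (nat_lit 0x70a6b4bb5d5f3b8e5)) e e))))))))))))))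
 (c z
 (c z e
 (c z e
 (c z e
 (c z e
 (c z e
 (c z e
 (c z e
 (c z e
 (c (a (nat_lit 0xd6d6c0706c2c21405)) e
 (c (a (nat_lit 0xaa987c76622c9f266)) e
 (c (a (nat_lit 0x5e5e5a3c2f2530766)) e e)))))))))))
 (c (a (nat_lit 0x20202020203026))
 (c z e
 (c z e
 (c z e
 (c z e
 (c z e
 (c z e
 (c z e
 (c (a (nat_lit 0xdaf4e0dea878ef9a6)) e
 (c (a (nat_lit 0xdccec27a56974a446)) e
 (c z e
 (c z e
 (c z e
 (c z e
 (c z e
 (c (a (nat_lit 0x1be58063c040000005)) e e)))))))))))))))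
 (c (a (nat_lit 0x202020203ead05))
 (c z e
 (c z e
 (c z e
 (c z e
 (c z e
 (c z e
 (c (a (nat_lit 0xde743e1c1abd31046)) e
 (c (a (nat_lit 0x4e2c1e1a6126803e7)) e
 (c (a (nat_lit 0x5c5656eb84a6e8587)) e
 (c (a (nat_lit 0x565079790d469e667)) e
 (c z e
 (c z e
 (c (a (nat_lit 0x745c5c54798200009)) e e)))))))))))))
 (c (a (nat_lit 0x2020203c306906))
 (c z e
 (c z e
 (c z e
 (c z e
 (c z e
 (c (a (nat_lit 0x1acc0926d187a54606)) e e))))))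
 (c (a (nat_lit 0x20203b93e7cac6)) e
 (c (a (nat_lit 0x2a2beb6e9cf28a6)) e
 (c z e
 (c z e
 (c z e
 (c z e
 (c z e
 (c z e
 (c z e
 (c z e
 (c z e
 (c (a (nat_lit 0x12684c0d6c27a4c5)) e
 (c (a (nat_lit 0x9b93eb98820a2e3)) e
 (c z e
 (c (a (nat_lit 0x11af4640c3e02244)) e e))))))))))))))))))))
 (c z
 (c (a (nat_lit 0x20202020203c25))
 (c z e
 (c z e
 (c z e
 (c z e
 (c z e
 (c z e
 (c z e
 (c z e
 (c (a (nat_lit 0x18ac2a49a6686efde5)) e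
 (c (a (nat_lit 0x8c8c887c50957ce06)) e e))))))))))
 (c (a (nat_lit 0x202020203ecba6))
 (c z e
 (c z e
 (c z e
 (c z e
 (c z e
 (c z e
 (c z e
 (c z e
 (c (a (nat_lit 0xaca6765a8970709e6)) e e)))))))))
 (c (a (nat_lit 0x20202036cc6887)) e
 (c (a (nat_lit 0x20203df08a9007)) e
 (c (a (nat_lit 0x203830e64d2107)) e
 (c z e
 (c z e
 (c z e
 (c z e
 (c z e
 (c z e
 (c z e
 (c z e
 (c z e
 (c z e
 (c (a (nat_lit 0x18f84f8503026145)) e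
 (c z e
 (c z e
 (c (a (nat_lit 0x1ced48a18098e022)) e e)))))))))))))))))))
 (c z
 (c (a (nat_lit 0x2020203729e4a6)) e
 (c (a (nat_lit 0x202039cd07e767)) e
 (c (a (nat_lit 0x203a2ec78c8287)) e
 (c z e
 (c z e
 (c z e
 (c z e
 (c z e
 (c z e
 (c z e
 (c z e
 (c z e
 (c z e
 (c (a (nat_lit 0x10993afa0e48e527)) e e))))))))))))))
 (c z
 (c (a (nat_lit 0x2036ccc7c70986))
 (c z e
 (c z e
 (c z e
 (c z e
 (c z e
 (c (a (nat_lit 0x5e54629d86e0d5327)) e e)))))) e)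
 (c z e
 (c z e
 (c z e
 (c z e
 (c z e
 (c z e
 (c (a (nat_lit 0x2020202032c6)) e
 (c (a (nat_lit 0x202020394506)) e
 (c (a (nat_lit 0x202039664026)) e
 (c (a (nat_lit 0x40417ca620ae6)) e e))))))))))))))) Tr.c Tr.e (nat_lit 0) C.cx
noncomputable def C730 : Tr := beta% (fun (c : Nat → Tr → Tr → Tr) (e : Tr) (z : Nat) (a b : Nat → Nat) =>
 (c z
 (c z
 (c (a (nat_lit 0x22232f0eea96ff784))
 (c z e
 (c z e
 (c z e
 (c z e
 (c z e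
 (c z e
 (c z e
 (c z e
 (c z e
 (c (a (nat_lit 0x1816524242224e412c7)) e
 (c (a (nat_lit 0x620623628282121167)) e
 (c (a (nat_lit 0x58803e822e31b0ba6a7)) e
 (c (a (nat_lit 0xbcd31f146da987aaa27)) e e)))))))))))))
 (c z e
 (c z e
 (c z e
 (c z e
 (c z e
 (c z e
 (c z e
 (c z e
 (c z e
 (c (a (nat_lit 0x108546e56845e52366)) e
 (c (a (nat_lit 0x5e665a9672623da26)) e e))))))))))))
 (c z
 (c z e
 (c z e
 (c z e
 (c z e
 (c z e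
 (c z e
 (c z e
 (c z e
 (c z e
 (c z e
 (c (a (nat_lit 0xf692b09e8a6ee3287)) e
 (c (a (nat_lit 0x16569655f4f3a64f27)) e e))))))))))))
 (c z
 (c z e
 (c z e
 (c z e
 (c z e
 (c z e
 (c z e
 (c z e
 (c z e
 (c z e
 (c (a (nat_lit 0x76f2868a9b0516a67)) e
 (c z e
 (c z e
 (c z e
 (c z e
 (c (a (nat_lit 0x132a4a40043600004)) e e)))))))))))))))
 (c (a (nat_lit 0x20202020203787))
 (c z e
 (c z e
 (c z e
 (c z e
 (c z e
 (c z e
 (c z e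
 (c z e
 (c (a (nat_lit 0x7dbc7c7f757c869a7)) e
 (c z e
 (c z e
 (c z e
 (c z e
 (c (a (nat_lit 0x1240c0a0a080000006)) e e))))))))))))))
 (c (a (nat_lit 0x202020203f8e07)) e
 (c (a (nat_lit 0x202020332c6648))
 (c z e
 (c z e
 (c z e
 (c z e
 (c (a (nat_lit 0xd4986ec76c81491c6)) e e)))))
 (c (a (nat_lit 0x202032ac054668))
 (c z e
 (c z e
 (c z e
 (c (b (nat_lit 0x489827fe7ca4e7ca6)) e e))))
 (c (a (nat_lit 0xa0b46946e764c8)) e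
 (c z e
 (c z e
 (c z e
 (c z e
 (c z e
 (c z e
 (c z e
 (c z e
 (c (a (nat_lit 0x10fa486464896346)) e
 (c (a (nat_lit 0x18c6e2e32801c266)) e
 (c (a (nat_lit 0x120a0a7408090285)) e e)))))))))))))))))))
 (c z
 (c z
 (c z e
 (c z e
 (c z e
 (c z e
 (c z e
 (c z e
 (c z e
 (c z e
 (c (a (nat_lit 0x1ed9aa8b4565272be6)) e
 (c (a (nat_lit 0x19a96c05a62566eb06)) e e))))))))))
 (c (a (nat_lit 0x20202020203387))
 (c z e
 (c z e
 (c z e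
 (c z e
 (c z e
 (c z e
 (c z e
 (c z e
 (c (a (nat_lit 0x119588f1b08cf513e6)) e
 (c z e
 (c (a (nat_lit 0xfb2d2d1b0eef22a47)) e e)))))))))))
 (c (a (nat_lit 0x20202020344867)) e
 (c (a (nat_lit 0x2020203188e368)) e
 (c (a (nat_lit 0x2020300a43e828)) e
 (c (a (nat_lit 0x40510b4448a5c8)) e
 (c z e
 (c z e
 (c z e
 (c z e
 (c z e
 (c z e
 (c z e
 (c z e
 (c z e
 (c z e
 (c (a (nat_lit 0x106d63c441028047)) e e)))))))))))))))))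
 (c z
 (c (a (nat_lit 0x202020203345e6))
 (c z e
 (c z e
 (c z e
 (c z e
 (c z e
 (c z e
 (c z e
 (c (a (nat_lit 0x9af736b0beacbf7a5)) e e))))))))
 (c (a (nat_lit 0x202020384c0507))
 (c z e
 (c z e
 (c z e
 (c z e
 (c z e
 (c z e
 (c (a (nat_lit 0x1de4ee4b12d5dc4a26)) e
 (c (a (nat_lit 0xa5131955676367566)) e e))))))))
 (c (a (nat_lit 0x20203eed2287c7))
 (c z e
 (c z e
 (c z e
 (c z e
 (c z e
 (c (a (nat_lit 0x90a25b46f19066f46)) e e))))))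
 (c (a (nat_lit 0x3f13068867a7))
 (c z e
 (c z e
 (c z e
 (c z e
 (c z e
 (c (a (nat_lit 0x2e364c90343eb7308)) e e)))))) e))))
 (c z
 (c (a (nat_lit 0x202037adc54666)) e
 (c (a (nat_lit 0x1819ff1250a0987))
 (c z e
 (c z e
 (c z e
 (c z e
 (c z e
 (c (a (nat_lit 0x8290cd08f6c47af28)) e e)))))) e))
 (c z
 (c z e
 (c z e
 (c z e
 (c z e
 (c z e
 (c z e
 (c z e
 (c z e
 (c z e
 (c z e
 (c z e
 (c z e
 (c z e
 (c (a (nat_lit 0x50752c2c2228025)) e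
 (c (a (nat_lit 0x53060a020806005)) e e)))))))))))))))
 (c z e
 (c z e
 (c z e
 (c z e
 (c z e
 (c z e
 (c (a (nat_lit 0x202020203906)) e
 (c (a (nat_lit 0x2020203907e6)) e
 (c (b (nat_lit 0x202033a83fe6)) e
 (c (a (nat_lit 0x40413a880c5c6)) e e)))))))))))))))) Tr.c Tr.e (nat_lit 0) C.cx C.cy
noncomputable def C731 : Tr := beta% (fun (c : Nat → Tr → Tr → Tr) (e : Tr) (z : Nat) (a : Nat → Nat) =>
 (c (a (nat_lit 0x20200001))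
 (c z
 (c z
 (c z
 (c z e
 (c z e
 (c z e
 (c z e
 (c z e
 (c z e
 (c z e
 (c z e
 (c z e
 (c z e
 (c z e
 (c z e
 (c z e
 (c z e
 (c z e
 (c (a (nat_lit 0x747a827081338286007)) e e))))))))))))))))
 (c (a (nat_lit 0x343434359858e2924)) e
 (c (a (nat_lit 0x181818c8223691ea5)) e
 (c (a (nat_lit 0x3434d2308033d1d84))
 (c z e
 (c z e
 (c z e
 (c z e
 (c z e
 (c z e
 (c z e
 (c z e
 (c z e
 (c (a (nat_lit 0x664c2c1c081e42233c7)) e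
 (c (a (nat_lit 0x4e605c44344e89dca67)) e e)))))))))))
 (c z e
 (c z e
 (c z e
 (c z e
 (c z e
 (c z e
 (c z e
 (c z e
 (c z e
 (c z e
 (c z e
 (c z e
 (c (a (nat_lit 0x4c6a7cb6eadcdf1a6)) e e)))))))))))))))))
 (c z
 (c (a (nat_lit 0x1c1c1daaacc086e45))
 (c z e
 (c z e
 (c z e
 (c z e
 (c z e
 (c z e
 (c z e
 (c z e
 (c z e
 (c z e
 (c z e
 (c z e
 (c (a (nat_lit 0x447c90beb856ad03288)) e e)))))))))))))
 (c (a (nat_lit 0x1a1ba4c2baedc91a6))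
 (c z e
 (c z e
 (c z e
 (c z e
 (c z e
 (c z e
 (c z e
 (c z e
 (c (a (nat_lit 0x548ed0ae7062f763747)) e
 (c (a (nat_lit 0x1c4640341e444aeb3a8)) e
 (c (a (nat_lit 0x9a92686656927552a68)) e e)))))))))))
 (c z e
 (c z e
 (c z e
 (c z e
 (c z e
 (c z e
 (c z e
 (c z e
 (c z e
 (c (a (nat_lit 0x12aaa7a8cbe822c386)) e
 (c (a (nat_lit 0x1514f69873d14cae46)) e e)))))))))))))
 (c z
 (c z e
 (c z e
 (c z e
 (c z e
 (c z e
 (c z e
 (c z e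
 (c z e
 (c z e
 (c (a (nat_lit 0x11dedbca2886c58966)) e e))))))))))
 (c z
 (c z e
 (c z e
 (c z e
 (c z e
 (c z e
 (c z e
 (c z e
 (c z e
 (c (a (nat_lit 0x12b3f095a8a3d4f205)) e
 (c (a (nat_lit 0xb2a8ee704ea30aca6)) e
 (c (a (nat_lit 0xf960f8ed813646a85)) e e)))))))))))
 (c z
 (c z e
 (c z e
 (c z e
 (c z e
 (c z e
 (c z e
 (c z e
 (c z e
 (c (a (nat_lit 0x9edd0ce0d16930e86)) e
 (c (a (nat_lit 0xdadf0ef6eef0d4ce6)) e e))))))))))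
 (c (a (nat_lit 0x202020202035a6)) e
 (c (a (nat_lit 0x20202020348ae6))
 (c z e
 (c z e
 (c z e
 (c z e
 (c (a (nat_lit 0x2c46942852760f026)) e
 (c (a (nat_lit 0x553844ceec5de08a5)) e
 (c (a (nat_lit 0x19503078b31d680b66)) e e)))))))
 (c (a (nat_lit 0x2020203d93c846)) e
 (c (a (nat_lit 0x20203006450527))
 (c z e
 (c z e
 (c z e
 (c z e
 (c (a (nat_lit 0x11d73736eb2be2bd86)) e e)))))
 (c (a (nat_lit 0x20344a23a44706))
 (c z e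
 (c z e
 (c z e
 (c (a (nat_lit 0x14168ba4c2e694f1a6)) e e))))
 (c z e
 (c z e
 (c z e
 (c z e
 (c z e
 (c z e
 (c z e
 (c (a (nat_lit 0xe90ec06c646ad25)) e
 (c (a (nat_lit 0x160c422101cea7c4)) e
 (c (a (nat_lit 0x10c6e5e6b3acb5e4)) e e))))))))))))))))))))
 C730)
 (c (a (nat_lit 0x2020202021)) C729
 C728))) Tr.c Tr.e (nat_lit 0) C.cx
noncomputable def C732 : Tr := beta% (fun (c : Nat → Tr → Tr → Tr) (e : Tr) (z : Nat) (a b : Nat → Nat) =>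
 (c z
 (c (a (nat_lit 0x20202020203144))
 (c z e
 (c z e
 (c z e
 (c z e
 (c z e
 (c z e
 (c z e
 (c z e
 (c z e
 (c z e
 (c z e
 (c (a (nat_lit 0xb0c8c0d0c13a9db46)) e e))))))))))))
 (c (a (nat_lit 0x202020203e8724))
 (c z e
 (c z e
 (c z e
 (c z e
 (c z e
 (c (a (nat_lit 0x292c72a440f2df2e4)) e
 (c (a (nat_lit 0xbe46442a806eff445)) e
 (c z e
 (c (a (nat_lit 0xdc790ce4659ef0c45)) e e)))))))))
 (c (a (nat_lit 0x2020203febc305)) e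
 (c (a (nat_lit 0x202030ca0103a6)) e
 (c (a (nat_lit 0x101140ba2054726)) e
 (c z e
 (c z e
 (c z e
 (c z e
 (c z e
 (c z e
 (c z e
 (c z e
 (c z e
 (c (a (nat_lit 0x95028a6a9a02024)) e e)))))))))))))))
 (c z
 (c (a (nat_lit 0x20202031a7e824))
 (c z e
 (c z e
 (c z e
 (c z e
 (c z e
 (c z e
 (c z e
 (c z e
 (c z e
 (c z e
 (c (a (nat_lit 0x18565a4c31067c946)) e e)))))))))))
 (c (a (nat_lit 0x20203faca52b85))
 (c z e
 (c z e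
 (c z e
 (c z e
 (c z e
 (c z e
 (c (a (nat_lit 0xacc90b5e94fd59926)) e e)))))))
 (c (a (nat_lit 0x203b3201a48ae5)) e
 (c z e
 (c z e
 (c z e
 (c z e
 (c z e
 (c z e
 (c z e
 (c (a (nat_lit 0x15f77515e9cbc265)) e
 (c z e
 (c z e
 (c (a (nat_lit 0xd4c118825e302a4)) e
 (c (a (nat_lit 0x109b0744e3002083)) e
 (c (a (nat_lit 0x1d298704204260c3)) e
 (c (a (nat_lit 0x1db7cd4b706d4b02)) e e)))))))))))))))))
 (c z
 (c (a (nat_lit 0x1213f31e30f4064))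
 (c z e
 (c z e
 (c z e
 (c z e
 (c z e
 (c z e
 (c (a (nat_lit 0x3434381828346f926)) e
 (c (a (nat_lit 0x5e464a3a6a3115246)) e
 (c (a (nat_lit 0x42446c5a74c6d92c6)) e e)))))))))
 (c z e
 (c z e
 (c z e
 (c z e
 (c z e
 (c (a (nat_lit 0xe2d4550e74569c4))
 (c (a (nat_lit 0x3ecf8e243c1a08007)) e e)
 (c z e
 (c z e
 (c z e
 (c z e
 (c z e
 (c (a (nat_lit 0x108a47e1010186c3)) e
 (c (a (nat_lit 0x13aec120622c8922)) e
 (c (a (nat_lit 0xe40e281cb883de2)) e e)))))))))))))))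
 (c z
 (c z e
 (c z e
 (c z e
 (c z e
 (c z e
 (c z e
 (c z e
 (c z e
 (c z e
 (c z e
 (c z e
 (c z e
 (c (a (nat_lit 0x17702020a1ea0984)) e e)))))))))))))
 (c z e
 (c z e
 (c z
 (c (a (nat_lit 0x6ae004183130ee4)) e
 (c z e
 (c z e
 (c z e
 (c z e
 (c (b (nat_lit 0x1fe4ee9398b7d285)) e e))))))
 (c z
 (c z e
 (c z e
 (c z e
 (c (b (nat_lit 0x691ff352083164)) e
 (c z e
 (c z e
 (c z e
 (c (a (nat_lit 0x1321616180c0c083)) e e))))))))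
 (c z
 (c (a (nat_lit 0x4071c11be3fda62)) e
 (c z e
 (c z e
 (c z e
 (c z e
 (c z e
 (c (a (nat_lit 0xc2bd2cd8de94005)) e e)))))))
 (c z
 (c (a (nat_lit 0x144d1a52d7d26f62)) e e)
 (c (a (nat_lit 0x2040404058a3)) e
 (c (a (nat_lit 0x20202039b0e3))
 (c (a (nat_lit 0x128dae54f23b7d25)) e e)
 (c (a (nat_lit 0xaaaaab9d26983)) e
 (c (a (nat_lit 0xaaab64f894503))
 (c (a (nat_lit 0x1ad8d9a000000006)) e e)
 (c (b (nat_lit 0x1ff2ec25c31c63)) e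
 (c (a (nat_lit 0x15aec8677fa823)) e
 (c z e
 (c z e
 (c z e
 (c z e
 (c (a (nat_lit 0x15c3bc40521601)) e
 (c z e
 (c (a (nat_lit 0xf00eaac8f3042)) e e)))))))))))))))))))))))) Tr.c Tr.e (nat_lit 0) C.cx C.cy
noncomputable def C733 : Tr := beta% (fun (c : Nat → Tr → Tr → Tr) (e : Tr) (z : Nat) (a b : Nat → Nat) =>
 (c z
 (c z
 (c (a (nat_lit 0x202025256386d043)) e
 (c (a (nat_lit 0xe0e542c2480db025))
 (c z e
 (c z e
 (c z e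
 (c z e
 (c z e
 (c z e
 (c z e
 (c z e
 (c (a (nat_lit 0xe16464826226a7bec6)) e
 (c (a (nat_lit 0x142a3a3a304c3382807)) e
 (c z e
 (c (a (nat_lit 0x728aa87c606c53026a8)) e e))))))))))))
 (c z e
 (c z e
 (c z e
 (c z e
 (c z e
 (c z e
 (c z e
 (c z e
 (c z e
 (c z e
 (c z e
 (c (a (nat_lit 0xd4dd116b64f6e8985)) e e))))))))))))))
 (c z
 (c z e
 (c z e
 (c z e
 (c z e
 (c z e
 (c z e
 (c z e
 (c z e
 (c z e
 (c z e
 (c (a (nat_lit 0x1c7c975411ae48df64)) e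
 (c (a (nat_lit 0x102d6ecd8cac0b8166)) e
 (c (a (nat_lit 0x9ac11f30c8ce5ad66)) e e)))))))))))))
 (c z
 (c z e
 (c z e
 (c z e
 (c z e
 (c z e
 (c z e
 (c z e
 (c z e
 (c z e
 (c (a (nat_lit 0x135277ab8d69b39625)) e
 (c (a (nat_lit 0x1bbef57614304277e5)) e
 (c (b (nat_lit 0x88aecbff1900c12a6)) e e))))))))))))
 (c z
 (c z e
 (c z e
 (c z e
 (c z e
 (c z e
 (c z e
 (c z e
 (c (a (nat_lit 0x162e2b27a4016dd485)) e
 (c (a (nat_lit 0xa8b6986e5908f4606)) e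
 (c (a (nat_lit 0xe4b8ac952de4d14e5)) e
 (c z e
 (c z e
 (c z e
 (c (a (nat_lit 0x133ce948aa08000005)) e e))))))))))))))
 (c (a (nat_lit 0x202020203326)) e
 (c (a (nat_lit 0x202020203d6dc5))
 (c z e
 (c z e
 (c z e
 (c z e
 (c z e
 (c (a (nat_lit 0x18f40244cb8c8605e5)) e
 (c (a (nat_lit 0x18e7c85614aa6cc805)) e e)))))))
 (c (a (nat_lit 0x202020366e6246)) e
 (c (a (nat_lit 0x181819a48c56a46))
 (c z e
 (c z e
 (c z e
 (c (a (nat_lit 0xa1c3e5f845aa0d85)) e e))))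
 (c (a (nat_lit 0x1819e0e414aeb85))
 (c z e
 (c z e
 (c (a (nat_lit 0x1e528a909854596e5)) e e)))
 (c z e
 (c z e
 (c z e
 (c z e
 (c z e
 (c z e
 (c z e
 (c z e
 (c (a (nat_lit 0x15fb24cd4f2f8664)) e
 (c (a (nat_lit 0x1be5ae0ff02700a4)) e
 (c (a (nat_lit 0x52dcfd04720a144)) e
 (c z e
 (c (a (nat_lit 0xff0c7a142002004)) e e))))))))))))))))))))))
 (c z
 (c z
 (c z e
 (c z e
 (c z e
 (c z e
 (c z e
 (c z e
 (c z e
 (c z e
 (c z e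
 (c z e
 (c z e
 (c z e
 (c (a (nat_lit 0x74a2b0847e5c5d286)) e e)))))))))))))
 (c z
 (c z e
 (c z e
 (c z e
 (c z e
 (c z e
 (c z e
 (c z e
 (c z e
 (c (a (nat_lit 0x19aff0a84cc743eaa5)) e
 (c (a (nat_lit 0xcf20acee9212ad705)) e
 (c (a (nat_lit 0x114d904d8be586ef46)) e e)))))))))))
 (c (a (nat_lit 0x20202020203045))
 (c z e
 (c z e
 (c z e
 (c z e
 (c z e
 (c z e
 (c z e
 (c (a (nat_lit 0x1078ce0b0905ac8a45)) e
 (c (a (nat_lit 0x1b304f8d46caf55305)) e e)))))))))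
 (c (a (nat_lit 0x202020203e4cc5))
 (c z e
 (c z e
 (c z e
 (c z e
 (c z e
 (c z e
 (c z e
 (c (a (nat_lit 0xb4588e3cd91404345)) e e))))))))
 (c (a (nat_lit 0x2020203f1662c5))
 (c z e
 (c z e
 (c z e
 (c (a (nat_lit 0xa9a49ca692a41c265)) e e))))
 (c (a (nat_lit 0xe0e0f40f848b46)) e
 (c (a (nat_lit 0x60744462aa27e6))
 (c z e
 (c (a (nat_lit 0x6e7686727605934c5)) e
 (c (a (nat_lit 0x26304a6c36c4bf246)) e e)))
 (c z e
 (c z e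
 (c z e
 (c z e
 (c z e
 (c z e
 (c z e
 (c z e
 (c (a (nat_lit 0x17696fec6782e104)) e
 (c (a (nat_lit 0xc126eca05838304)) e
 (c (a (nat_lit 0x1e774de4e0a02003)) e
 (c (a (nat_lit 0x16ecc6a0c02020e3)) e
 (c (a (nat_lit 0x1c50244262a421a2)) e e))))))))))))))))))))
 C732))) Tr.c Tr.e (nat_lit 0) C.cx C.cy
noncomputable def C734 : Tr := beta% (fun (c : Nat → Tr → Tr → Tr) (e : Tr) (z : Nat) (a : Nat → Nat) =>
 (c z
 (c z
 (c z e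
 (c z e
 (c z e
 (c z e
 (c z e
 (c z e
 (c z e
 (c z e
 (c z e
 (c z e
 (c z e
 (c z e
 (c z e
 (c z e
 (c z e
 (c (a (nat_lit 0x747e888c769d8fce707)) e e))))))))))))))))
 (c (a (nat_lit 0x12121212131c50765)) e
 (c (a (nat_lit 0x20202021fc6069384)) e
 (c (a (nat_lit 0x121212cc182c17045))
 (c z e
 (c z e
 (c z e
 (c z e
 (c z e
 (c z e
 (c z e
 (c z e
 (c z e
 (c z e
 (c (a (nat_lit 0x444c6c5648280a61e27)) e e)))))))))))
 (c (a (nat_lit 0x242514b0966fedb24))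
 (c z e
 (c z e
 (c z e
 (c z e
 (c z e
 (c z e
 (c z e
 (c (a (nat_lit 0x160a140e1812416b167)) e e))))))))
 (c z e
 (c z e
 (c z e
 (c z e
 (c z e
 (c z e
 (c z e
 (c (a (nat_lit 0x1db149ae9170efeb64)) e
 (c (a (nat_lit 0x1db41a387510e885c4)) e
 (c (a (nat_lit 0x10749612d22fe80a25)) e e)))))))))))))))
 (c z
 (c (a (nat_lit 0xe0e0e0f26685a6e5)) e
 (c (a (nat_lit 0x1010114c664ea9206))
 (c z e
 (c z e
 (c z e
 (c z e
 (c z e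
 (c z e
 (c z e
 (c z e
 (c z e
 (c (a (nat_lit 0x2c3250644a346041e47)) e
 (c (a (nat_lit 0x4c889e806e4444a3947)) e
 (c (a (nat_lit 0x7898c4dc96768ed9908)) e e))))))))))))
 (c (a (nat_lit 0x121348744c58f2fa6))
 (c z e
 (c z e
 (c z e
 (c z e
 (c z e
 (c z e
 (c z e
 (c (a (nat_lit 0x68645c627454708b447)) e
 (c (a (nat_lit 0x2026261a18123a9d128)) e
 (c (a (nat_lit 0x9888766e343d23087e7)) e
 (c (a (nat_lit 0x76a2b26046ecf7687a8)) e e)))))))))))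
 (c z e
 (c z e
 (c z e
 (c z e
 (c z e
 (c z e
 (c z e
 (c z e
 (c z e
 (c (a (nat_lit 0x11ab8ccc0d69c66626)) e
 (c z e
 (c z e
 (c z e
 (c (a (nat_lit 0x1df2cf0b2e4aab09a4)) e e)))))))))))))))))
 (c z
 (c (a (nat_lit 0x10112c6c35119c685))
 (c z e
 (c z e
 (c z e
 (c z e
 (c z e
 (c z e
 (c z e
 (c z e
 (c (a (nat_lit 0x1e2a3c201a2a387ba47)) e
 (c (a (nat_lit 0x323a42283658478cea7)) e
 (c (a (nat_lit 0x4a5e5e3a4268c55d0c7)) e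
 (c (a (nat_lit 0x7e969a6e78be93d6be7)) e e))))))))))))
 (c z e
 (c z e
 (c z e
 (c z e
 (c z e
 (c z e
 (c z e
 (c z e
 (c z e
 (c (a (nat_lit 0xc52508785c462e446)) e
 (c (a (nat_lit 0x1313eba926864585c6)) e
 (c (a (nat_lit 0x1bf33657b5b1f011c6)) e e)))))))))))))
 (c z
 (c z e
 (c z e
 (c z e
 (c z e
 (c z e
 (c z e
 (c z e
 (c z e
 (c z e
 (c (a (nat_lit 0x14504ef32b094a4fa5)) e
 (c (a (nat_lit 0x128d158a8bab090585)) e e)))))))))))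
 (c z e
 (c z
 (c z e
 (c z e
 (c z e
 (c z e
 (c z e
 (c z e
 (c z e
 (c z e
 (c (a (nat_lit 0x114d31f12e8e726b45)) e e)))))))))
 (c (a (nat_lit 0x202020202039e5))
 (c z e
 (c z e
 (c z e
 (c z e
 (c z e
 (c (a (nat_lit 0xc15f5266d538a4445)) e e))))))
 (c (a (nat_lit 0x202020203ed3a5)) e
 (c (a (nat_lit 0x20202036c662c6))
 (c z e
 (c z e
 (c (a (nat_lit 0x889ac90c7ca692f26)) e e)))
 (c (a (nat_lit 0x20203cd001c485)) e
 (c (a (nat_lit 0x2023a91a3472705)) e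
 (c z e
 (c z e
 (c z e
 (c z e
 (c z e
 (c z e
 (c z e
 (c (a (nat_lit 0x7bc83c3e6e5b403)) e
 (c (a (nat_lit 0x1ac221042270e763)) e
 (c (a (nat_lit 0x141a3015066efc3)) e
 (c (a (nat_lit 0x165445369b2a183)) e e))))))))))))))))))))))) Tr.c Tr.e (nat_lit 0) C.cx
noncomputable def C735 : Tr := beta% (fun (c : Nat → Tr → Tr → Tr) (e : Tr) (z : Nat) (a b : Nat → Nat) =>
 (c (a (nat_lit 0x80808081))
 (c (a (nat_lit 0x4040404041))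
 (c z
 (c z
 (c z
 (c z e
 (c (a (nat_lit 0xcececf7ed0e6ef3d321)) e
 (c (a (nat_lit 0xcecfb2d2cb091b35441)) e e)))
 (c z
 (c (a (nat_lit 0xc8c8f4a0fcdd8d855c2)) e e)
 (c (a (nat_lit 0x34363636363637321)) e
 (c (a (nat_lit 0x3c3c3c3c3c3d4c282)) e
 (c (a (nat_lit 0x747474747562366e2)) e e)))))
 (c z
 (c (a (nat_lit 0x8e8e8e8e8e8e8f681))
 (c z e
 (c z e
 (c z e
 (c z e
 (c z e
 (c z e
 (c z e
 (c z e
 (c z e
 (c z e
 (c z e
 (c z e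
 (c z e
 (c z e
 (c z e
 (c (a (nat_lit 0x4c5a62686a5c87414c7)) e
 (c (a (nat_lit 0x5e666c74746a9944007)) e e)))))))))))))))))
 (c (a (nat_lit 0x141414141415504c4))
 (c z e
 (c z e
 (c z e
 (c z e
 (c z e
 (c z e
 (c z e
 (c z e
 (c z e
 (c z e
 (c z e
 (c z e
 (c z e
 (c z e
 (c (a (nat_lit 0x5e6c6e786c9156f85a8)) e
 (c (a (nat_lit 0x3e384648486b2200008)) e e))))))))))))))))
 (c (a (nat_lit 0x181818181920342e4)) e
 (c (a (nat_lit 0x2c2e2e2fca2634363)) e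
 (c (a (nat_lit 0x1c1c1cc84846372e4)) e
 (c (a (nat_lit 0x1a1b5cb43a7e94744)) e
 (c z e
 (c z e
 (c z e
 (c z e
 (c z e
 (c z e
 (c z e
 (c z e
 (c (a (nat_lit 0x1b383bd08fc98666a4)) e
 (c z e
 (c (a (nat_lit 0xed333584f8a69f9a4)) e e)))))))))))))))))
 (c z
 (c (a (nat_lit 0x404040405ba32042)) e
 (c (a (nat_lit 0x16161617041e0eac4)) e
 (c (a (nat_lit 0xe0e0f2c2a0c5f264)) e
 (c (a (nat_lit 0x2c2ce44e448541524)) e
 (c z e
 (c z e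
 (c z e
 (c z e
 (c z e
 (c z e
 (c z e
 (c z e
 (c z e
 (c (a (nat_lit 0x12ec2f7350ab68e384)) e
 (c (a (nat_lit 0x11b85a5f928887d8c4)) e e)))))))))))))))
 (c z
 (c (a (nat_lit 0x1a1a1b18503111e43)) e
 (c (a (nat_lit 0xe0ed61a108d98944))
 (c z e
 (c z e
 (c z e
 (c z e
 (c z e
 (c z e
 (c z e
 (c z e
 (c z e
 (c z e
 (c z e
 (c z e
 (c (a (nat_lit 0x8687a12e48000000007)) e e))))))))))))) e))
 (c z e
 (c z
 (c z e
 (c z e
 (c z e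
 (c z e
 (c z e
 (c z e
 (c z e
 (c z e
 (c z e
 (c z e
 (c z e
 (c (a (nat_lit 0xcb2d41454f1740fa5)) e e))))))))))))
 (c z
 (c z e
 (c z e
 (c z e
 (c z e
 (c z e
 (c z e
 (c z e
 (c z e
 (c z e
 (c (a (nat_lit 0x5ca4b4c8b28eb54a5)) e e))))))))))
 (c z e
 (c (a (nat_lit 0x40404040405583)) e
 (c (a (nat_lit 0xa0a0a0a0bd26c3)) e
 (c (a (nat_lit 0x202020392e8063)) e
 (c (a (nat_lit 0x383839c1543a623))
 (c z e
 (c z e
 (c z e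
 (c z e
 (c (a (nat_lit 0xced550c46ebcc6e25)) e e)))))
 (c (a (nat_lit 0x20378500e22a63))
 (c (a (nat_lit 0xa0a286c4927e937e4)) e e)
 (c z e
 (c z e
 (c z e
 (c z e
 (c z e
 (c (a (nat_lit 0x13e520a901438442)) e e)))))))))))))))))))
 (c z C734
 C733))
 C731)
 (c (a (nat_lit 0x40404041)) C726
 (c (nat_lit 1) C723
 (c (a (nat_lit 0x40404041)) C722
 (c (nat_lit 1)
 (c (a (nat_lit 0x6060606061))
 (c z
 (c z e
 (c z e
 (c z e
 (c (a (nat_lit 0xcf4ae8483927865)) e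
 (c (a (nat_lit 0xc4a262632502ba6)) e e)))))
 (c z e
 (c (a (nat_lit 0x202020203027)) e
 (c (a (nat_lit 0x2020203167e7)) e
 (c (a (nat_lit 0x202035e74267)) e
 (c (a (nat_lit 0x4041daa8a3246)) e
 (c (a (nat_lit 0x4150d682e6aa6)) e e)))))))
 (c (nat_lit 1)
 (c (a (nat_lit 0x202020203b66)) e
 (c (a (nat_lit 0x20202031e8c8)) e
 (c (a (nat_lit 0x2020370b46a8)) e
 (c (a (nat_lit 0x348a452688)) e e))))
 (c (a (nat_lit 0x4040404041))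
 (c (a (nat_lit 0x202031886587)) e
 (c (a (nat_lit 0x202152be6cae8)) e e))
 (c (a (nat_lit 0x2020202021))
 (c (a (nat_lit 0x1528c8548e9e7)) e e)
 (c (a (nat_lit 0x2040404041)) e
 (c (a (nat_lit 0x4040402021)) e
 (c (nat_lit 1) e
 (c (a (nat_lit 0xe0e0e0e0e1)) e
 (c (nat_lit 1) e
 (c (a (nat_lit 0x20202001)) e
 (c (a (nat_lit 0x8080808081)) e
 (c (a (nat_lit 0x202021))
 (c (a (nat_lit 0x8482b63005486)) e e)
 (c (a (nat_lit 0x2020203324))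
 (c z e
 (c z e
 (c (a (nat_lit 0x1b8cba60000005)) e
 (c (a (nat_lit 0x400000000001)) e e))))
 (c (b (nat_lit 0x20203a5fe3))
 (c (a (nat_lit 0x11307153a00008)) e
 (c (a (nat_lit 0x176ca000000002)) e e))
 (c (a (nat_lit 0x203706e9c5)) e
 (c (a (nat_lit 0x3706e9d0c5)) e e))))))))))))))))
 C721)))))) Tr.c Tr.e (nat_lit 0) C.cx C.cy
noncomputable def C736 : Tr := beta% (fun (c : Nat → Tr → Tr → Tr) (e : Tr) (z : Nat) (a b : Nat → Nat) =>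
 (c (a (nat_lit 0x20202021))
 (c (a (nat_lit 0x4040404041))
 (c z e
 (c (a (nat_lit 0x5c60646463324)) e
 (c (a (nat_lit 0x4040d483e4)) e
 (c (a (nat_lit 0x646463955a1a5)) e
 (c z e
 (c (a (nat_lit 0x1237b4ea4040c7)) e e))))))
 (c (a (nat_lit 0x2020203205))
 (c (a (nat_lit 0x2080c101da43)) e
 (c (a (nat_lit 0x2048293144)) e
 (c z e
 (c z e
 (c (a (nat_lit 0xab1b0aa25a3a8)) e e)))))
 (c (a (nat_lit 0x2020351066))
 (c (b (nat_lit 0x1009ffffa3864)) e e)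
 (c (a (nat_lit 0x2032280387)) e
 (c (a (nat_lit 0xb3c5b930be6)) e
 (c (a (nat_lit 0x6f74a422006))
 (c (a (nat_lit 0x12bb7586c86007)) e e)
 (c z e
 (c z e
 (c z e
 (c (a (nat_lit 0x10cdea50b964)) e
 (c (b (nat_lit 0x1fffe48d1584)) e
 (c (a (nat_lit 0x2a951fa53e4)) e
 (c z e
 (c (a (nat_lit 0xd1710a50544)) e
 (c (a (nat_lit 0x116ae0202004)) e
 (c (a (nat_lit 0x17004040a043)) e
 (c (a (nat_lit 0x161600001)) e
 (c (a (nat_lit 0x2000000001)) e e))))))))))))))))))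
 (c (a (nat_lit 0x80808081))
 (c (a (nat_lit 0x40404e7e44))
 (c (a (nat_lit 0x545856798a0a2)) e
 (c (a (nat_lit 0x1c1af500061c4)) e
 (c z e
 (c (a (nat_lit 0x2f452e7808626)) e
 (c (a (nat_lit 0x132d724c277947)) e e)))))
 (c (a (nat_lit 0x202d710a06))
 (c (b (nat_lit 0x3bbfffffffe3)) e e)
 (c z e
 (c (a (nat_lit 0x4912961e006))
 (c z e
 (c (a (nat_lit 0xf955ab2eb2008)) e e))
 (c (a (nat_lit 0x1590b5f434a6))
 (c (a (nat_lit 0xe524425e00007)) e e)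
 (c z e
 (c z e
 (c (a (nat_lit 0x114cc890b165)) e
 (c (b (nat_lit 0x1fffe020f064)) e
 (c (b (nat_lit 0x1fe040f06a24)) e
 (c z e
 (c (a (nat_lit 0xa59f3a7a804)) e
 (c (a (nat_lit 0x120bc0402024)) e
 (c (a (nat_lit 0x172020204063)) e
 (c (a (nat_lit 0xc1010001)) e
 (c (a (nat_lit 0x60000001)) e e))))))))))))))))
 (c (a (nat_lit 0x20202021))
 (c (a (nat_lit 0x1172ca6745))
 (c (b (nat_lit 0x3f83d1fffffe4)) e e)
 (c (a (nat_lit 0x1b76cd4b0a06))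
 (c (a (nat_lit 0xe133468cd3e07)) e e)
 (c z e
 (c z e
 (c z e
 (c (a (nat_lit 0x14d757b7d3a7)) e
 (c (b (nat_lit 0x1fe081403104)) e
 (c (a (nat_lit 0x6120310b64)) e
 (c z e
 (c (a (nat_lit 0x799336868e4)) e
 (c (a (nat_lit 0x10aae0406064)) e
 (c (a (nat_lit 0x14e060404043)) e
 (c (a (nat_lit 0xc0806001)) e
 (c (a (nat_lit 0x61c1200001)) e
 (c (a (nat_lit 0xa000000001)) e e)))))))))))))))
 (c (a (nat_lit 0x202001))
 (c (b (nat_lit 0x13084707dfe5))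
 (c (b (nat_lit 0xe7fec65f2bf86)) e e)
 (c z e
 (c z e
 (c (a (nat_lit 0xf1010d1f1c8)) e
 (c (a (nat_lit 0x165496f290c7)) e
 (c (b (nat_lit 0x1fe060b34a24)) e
 (c z e
 (c (a (nat_lit 0x9d32f8aaa85)) e
 (c (a (nat_lit 0x1169a0804024)) e
 (c (a (nat_lit 0x140120a12243)) e
 (c (a (nat_lit 0xa0a105c821)) e
 (c (a (nat_lit 0x101824001)) e
 (c (a (nat_lit 0x60000001)) e e)))))))))))))
 (c (a (nat_lit 0xa0a0a0a1))
 (c z e
 (c (a (nat_lit 0x13b9f859f4e7)) e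
 (c z e
 (c z e
 (c z e
 (c (b (nat_lit 0x1fffffec31c1)) e
 (c (a (nat_lit 0x16d101018804)) e
 (c (a (nat_lit 0x1422c1c24223)) e
 (c (a (nat_lit 0x36362c2a1a1)) e
 (c (a (nat_lit 0xa1410001)) e
 (c (a (nat_lit 0x40c0800001)) e
 (c (a (nat_lit 0xa000000001)) e e))))))))))))
 (c (a (nat_lit 0x20202021))
 (c (a (nat_lit 0x1dfc3e76a5a6)) e
 (c z e
 (c z e
 (c (a (nat_lit 0x141f3c5454a5)) e
 (c (a (nat_lit 0x15d060c09be4)) e
 (c (a (nat_lit 0x38481c06081)) e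
 (c (a (nat_lit 0x46361e0a001)) e
 (c (a (nat_lit 0x2616060a001)) e
 (c (a (nat_lit 0x4036180c001)) e
 (c (a (nat_lit 0x360e0000001)) e e))))))))))
 (c (a (nat_lit 0x40404041))
 (c z e
 (c (a (nat_lit 0x3930fe7c7c5)) e
 (c (a (nat_lit 0x169040605fa4)) e
 (c (a (nat_lit 0x181a1410101)) e
 (c (a (nat_lit 0x1a1c1610161)) e
 (c (a (nat_lit 0x38302a3a121)) e
 (c (a (nat_lit 0x100a0808001)) e
 (c (a (nat_lit 0x100800001)) e
 (c (a (nat_lit 0xe000000001)) e e)))))))))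
 (c (a (nat_lit 0x20202021))
 (c (a (nat_lit 0x5a440603165)) e
 (c (a (nat_lit 0x2a4c2406001)) e
 (c (a (nat_lit 0x3e3c200c001)) e
 (c (a (nat_lit 0x847a380e001)) e
 (c (a (nat_lit 0xba7a3626001)) e
 (c (a (nat_lit 0xfeb04a12001)) e
 (c (a (nat_lit 0x136660000001)) e e)))))))
 (c (a (nat_lit 0x40404041))
 (c (a (nat_lit 0x4060608061)) e
 (c (a (nat_lit 0xe0c0e0e101)) e
 (c (a (nat_lit 0xa0c0a0e0a1)) e
 (c (a (nat_lit 0x181418140e1)) e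
 (c (a (nat_lit 0xa100600001)) e
 (c (a (nat_lit 0xa000000001)) e e))))))
 (c (a (nat_lit 0x40404041))
 (c (a (nat_lit 0x808080a081)) e
 (c (a (nat_lit 0xe0a0e0a121)) e
 (c (a (nat_lit 0x141a140e001)) e
 (c (a (nat_lit 0x10060000001)) e e))))
 (c (a (nat_lit 0x20202021))
 (c (a (nat_lit 0x4060408021)) e
 (c (a (nat_lit 0x16120e00001)) e
 (c (a (nat_lit 0x6000000001)) e e)))
 (c (a (nat_lit 0xc0c0c0c1))
 (c (a (nat_lit 0xe060000001)) e e)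
 (c (a (nat_lit 0x40404061)) e
 (c (a (nat_lit 0x80a0a0a1)) e
 (c (a (nat_lit 0x40606061)) e
 (c (a (nat_lit 0x80808081)) e
 (c (a (nat_lit 0x60606061)) e
 (c (a (nat_lit 0x40405322)) e
 (c (a (nat_lit 0x202150a6)) e
 (c (a (nat_lit 0x42574ce86)) e
 (c z e
 (c (a (nat_lit 0x124c22c386)) e
 (c (a (nat_lit 0x18e627a605)) e e)))))))))))))))))))))))) Tr.c Tr.e (nat_lit 0) C.cx C.cy
noncomputable def C737 : Tr := beta% (fun (c : Nat → Tr → Tr → Tr) (e : Tr) (z : Nat) (a b : Nat → Nat) =>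
 (c (a (nat_lit 0x80808081))
 (c (a (nat_lit 0x4040404041))
 (c (a (nat_lit 0x4438713d8b0e4))
 (c (a (nat_lit 0x1e38b3d469406764)) e
 (c z e
 (c z e
 (c (a (nat_lit 0x148d466a6aeb0bc6)) e
 (c (a (nat_lit 0x36283e7485196c6)) e
 (c z e
 (c z e
 (c (a (nat_lit 0x20fdf58942c8006)) e
 (c (a (nat_lit 0x37a3acd60000006)) e e)))))))))
 (c z e
 (c z e
 (c (a (nat_lit 0x169a4e6789e785))
 (c z e
 (c (a (nat_lit 0x221f14e63626349)) e e))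
 (c (a (nat_lit 0x11a4c060c02025))
 (c (a (nat_lit 0x3b49463a1a240a8)) e e)
 (c (b (nat_lit 0x1140a0c13fffe4)) e
 (c (a (nat_lit 0x10703512ae0b62)) e
 (c (b (nat_lit 0xbfe4c3a391e6)) e
 (c (a (nat_lit 0xa1620fb6b587)) e
 (c (a (nat_lit 0x38410f6f5b1e7)) e
 (c z e
 (c (a (nat_lit 0x4b8f18acb4065)) e
 (c (a (nat_lit 0x17d089ca4024a5)) e
 (c (a (nat_lit 0x114a8b0045a005)) e e))))))))))))))
 (c (a (nat_lit 0x2040404041))
 (c z e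
 (c z e
 (c z e
 (c z e
 (c z e
 (c (a (nat_lit 0x20188e908b126)) e
 (c (a (nat_lit 0x3e3e4076a7ba8)) e
 (c z e
 (c z e
 (c z e
 (c (a (nat_lit 0x37162a3e02008)) e
 (c (a (nat_lit 0x11a30420606068)) e e))))))))))))
 (c (a (nat_lit 0x4040404041))
 (c z e
 (c z e
 (c (a (nat_lit 0x1152f352f1d185)) e
 (c (a (nat_lit 0xacb7374540da6)) e
 (c (a (nat_lit 0xdcd4db4afdaa6)) e e)))))
 (c (nat_lit 1)
 (c (a (nat_lit 0x1112ae6a30303))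
 (c z e
 (c (a (nat_lit 0x14cb4f1207c34007)) e e))
 (c (a (nat_lit 0x908e523c250a4))
 (c (a (nat_lit 0x1c4f3aaac1200006)) e e)
 (c (a (nat_lit 0x703a402c6d024)) e
 (c z e
 (c z e
 (c (a (nat_lit 0x1012b43c7f3427)) e
 (c z e
 (c z e
 (c z e
 (c (a (nat_lit 0x1f6ebdc6852004)) e
 (c (a (nat_lit 0xb1a4140000004)) e e)))))))))))
 (c (a (nat_lit 0xe0e0e0e0e1))
 (c (a (nat_lit 0x10e924e37df782))
 (c (a (nat_lit 0xc59aac120000005)) e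
 (c (a (nat_lit 0x1586400000000007)) e e))
 (c (a (nat_lit 0x1271f18ece0005))
 (c (a (nat_lit 0x1660000000000005)) e e)
 (c z e
 (c (a (nat_lit 0xf9713acc09466)) e
 (c (a (nat_lit 0x15f3b06f5a1ea7)) e
 (c z e
 (c z e
 (c (a (nat_lit 0x9909af195ae26)) e
 (c (a (nat_lit 0x9f44b07c00006)) e
 (c (a (nat_lit 0x1fc68000000005)) e e))))))))))
 (c (a (nat_lit 0xc0c0c0c0c1))
 (c (b (nat_lit 0x17371033ffffe4)) e
 (c (a (nat_lit 0x13d2946f8024e6)) e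
 (c z e
 (c z e
 (c z e
 (c z e
 (c (a (nat_lit 0x1068a802e006)) e
 (c (a (nat_lit 0x128ac520000006)) e e))))))))
 (c (a (nat_lit 0xc0c0c0c0a1))
 (c (a (nat_lit 0x1c3d37c046d425)) e e)
 (c (a (nat_lit 0x2020203525))
 (c z e
 (c (a (nat_lit 0x627eb2dab12e8)) e e))
 (c (a (nat_lit 0x2016bb65))
 (c (a (nat_lit 0xab0ec10353da7)) e e)
 (c (a (nat_lit 0x404f9be1e4)) e
 (c z e
 (c (a (nat_lit 0xcb2a9c0ae65)) e
 (c (a (nat_lit 0x12c9e0ce9225)) e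
 (c (a (nat_lit 0xce3d1754925)) e
 (c z e
 (c (a (nat_lit 0x10f3e242a225)) e
 (c (a (nat_lit 0x120080c043c5)) e
 (c (a (nat_lit 0x46722feb222)) e
 (c z e
 (c (a (nat_lit 0xc928fe362e4)) e
 (c (a (nat_lit 0x1f77e0402003)) e
 (c (a (nat_lit 0x18a020000003)) e e))))))))))))))))))))))
 (c (a (nat_lit 0x40404041))
 (c (a (nat_lit 0x2020202021))
 (c (a (nat_lit 0xaf0c56262a145))
 (c (a (nat_lit 0x1009a0a8c7f69544)) e
 (c z e
 (c z e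
 (c z e
 (c (a (nat_lit 0x6f177cac8e7c3a7)) e
 (c (a (nat_lit 0x134f64c563200007)) e e))))))
 (c z e
 (c z e
 (c (a (nat_lit 0xa1b24c2816001)) e
 (c (a (nat_lit 0x11220283406061)) e
 (c (a (nat_lit 0x602040205166)) e
 (c (a (nat_lit 0x282a2aa747007)) e
 (c z e
 (c z e
 (c (a (nat_lit 0xbd0cc4b0ac188)) e
 (c (a (nat_lit 0x13a1a1a24021c6)) e
 (c (a (nat_lit 0x101034640e2043)) e e))))))))))))
 (c (a (nat_lit 0x4040204041))
 (c z e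
 (c z e
 (c (a (nat_lit 0x1211fc5c3c1a46))
 (c (a (nat_lit 0x122e75e7a3c00008)) e e)
 (c (a (nat_lit 0xc343235ec2)) e e))))
 (c (a (nat_lit 0x80a0a08081))
 (c (a (nat_lit 0x17cac344404082))
 (c (a (nat_lit 0x124e8e632081c026)) e
 (c (a (nat_lit 0x14ae8622c0e00007)) e e))
 (c (a (nat_lit 0x541a120609504))
 (c (a (nat_lit 0x175a842240000006)) e e)
 (c (a (nat_lit 0xdadada1391fc4)) e e)))
 (c (a (nat_lit 0xc0c0e0e0c1))
 (c (a (nat_lit 0xecd4d40c75de3))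
 (c (a (nat_lit 0x1322614000000006)) e e)
 (c (a (nat_lit 0x20e154bae083)) e
 (c z e
 (c z e
 (c z e
 (c z e
 (c z e
 (c (a (nat_lit 0x6a9b189288006)) e
 (c (a (nat_lit 0x372a140000005)) e e)))))))))
 (c (a (nat_lit 0x6060606061))
 (c (b (nat_lit 0x1833b3fffffe2)) e
 (c (a (nat_lit 0x151956ede08fa6)) e
 (c z e
 (c z e
 (c z e
 (c (a (nat_lit 0xf717ab2912b28)) e
 (c (a (nat_lit 0x1037ad0c400006)) e
 (c (a (nat_lit 0x18c18000000005)) e e))))))))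
 (c (a (nat_lit 0x20202034a6))
 (c (a (nat_lit 0x106fe82048d5c6)) e
 (c z e
 (c z e
 (c z e
 (c (a (nat_lit 0xd59f955b2c008)) e
 (c (a (nat_lit 0x17b4c640000006)) e e))))))
 (c (a (nat_lit 0x202034ee06)) e
 (c (a (nat_lit 0x203d1cc565)) e
 (c (b (nat_lit 0xc9a7bae9fe5)) e
 (c (a (nat_lit 0x1b9cd2e056e5)) e
 (c (a (nat_lit 0xd28402b7066)) e
 (c (a (nat_lit 0x8402b302286)) e
 (c z e
 (c (a (nat_lit 0x143ee3838365)) e
 (c (b (nat_lit 0x1b7fe02022a5)) e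
 (c (a (nat_lit 0x80a0750782)) e
 (c z e
 (c (a (nat_lit 0x1012b10b8b65)) e
 (c (a (nat_lit 0x1df72080a063)) e
 (c (a (nat_lit 0x16e060400003)) e
 (c (a (nat_lit 0x8000000001)) e e)))))))))))))))))))))
 (c (a (nat_lit 0x80606081))
 (c (a (nat_lit 0x20002021))
 (c (a (nat_lit 0xcdcff08fc2))
 (c z e
 (c z e
 (c (a (nat_lit 0xe71b08b62a22006)) e e)))
 (c (a (nat_lit 0x5c36468a50581))
 (c (a (nat_lit 0x196bebc34060a027)) e
 (c (a (nat_lit 0x19744d6360600007)) e e))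
 (c (a (nat_lit 0x2c18324442281))
 (c (a (nat_lit 0x11d6418080000006)) e e)
 (c (a (nat_lit 0x6676760e118a4)) e
 (c (a (nat_lit 0x60608876ca25)) e e)))))
 (c (a (nat_lit 0x4040204041))
 (c (a (nat_lit 0x12c387c3a4e281))
 (c (a (nat_lit 0x1bbceb2103a06005)) e
 (c (a (nat_lit 0x10cae32300000007)) e
 (c (a (nat_lit 0x1600800000000006)) e e)))
 (c (a (nat_lit 0x119110e0a0d5c4))
 (c (a (nat_lit 0x1022816000000007)) e e)
 (c (a (nat_lit 0xc0a119f3c3)) e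
 (c (a (nat_lit 0x464848cd4ed66)) e e))))
 (c (a (nat_lit 0x8080608081))
 (c (a (nat_lit 0x38404c706b481)) e
 (c (b (nat_lit 0x203ffff266)) e e))
 (c (a (nat_lit 0x2020203c06))
 (c (b (nat_lit 0x5e5dfffffffe1)) e e)
 (c (a (nat_lit 0x202035a667))
 (c (b (nat_lit 0x35fe0923599e6)) e
 (c z e
 (c z e
 (c z e
 (c (a (nat_lit 0x1297988fe00008)) e e)))))
 (c (a (nat_lit 0x203147c547)) e
 (c z e
 (c z e
 (c (a (nat_lit 0x10d11db31a46)) e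
 (c z e
 (c z e
 (c (a (nat_lit 0xa98ed4b6b45)) e
 (c (a (nat_lit 0x1a83404049c4)) e
 (c (a (nat_lit 0xfc8681d7703)) e
 (c z e
 (c (a (nat_lit 0x418f2c10003)) e
 (c (a (nat_lit 0x1bb4e060a043)) e
 (c (a (nat_lit 0x150040202003)) e
 (c (a (nat_lit 0x8060000001)) e e)))))))))))))))))))
 C736)))) Tr.c Tr.e (nat_lit 0) C.cx C.cy
noncomputable def C738 : Tr := beta% (fun (c : Nat → Tr → Tr → Tr) (e : Tr) (z : Nat) (a b : Nat → Nat) =>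
 (c (a (nat_lit 0x40404041))
 (c (a (nat_lit 0x202001))
 (c (a (nat_lit 0x202020203105))
 (c (a (nat_lit 0x17ede666a4a4cb44))
 (c z e
 (c z e
 (c z e
 (c z e
 (c (a (nat_lit 0x12114fc764674dd066)) e e)))))
 (c z e
 (c z e
 (c z e
 (c z e
 (c z e
 (c z e
 (c (a (nat_lit 0x1940d114ad703e44)) e
 (c z e
 (c z e
 (c (a (nat_lit 0x4438dd84d2bc265)) e e)))))))))))
 (c (a (nat_lit 0x20202030a7e7)) e
 (c (a (nat_lit 0x202032052467)) e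
 (c (a (nat_lit 0x20364aa92766)) e
 (c z e
 (c z e
 (c z e
 (c z e
 (c (a (nat_lit 0x58ad1862041a7))
 (c (a (nat_lit 0xbc6e6b378282007)) e e)
 (c z e
 (c (a (nat_lit 0x1b0feae92343e7)) e
 (c z e
 (c z e
 (c z e
 (c z e
 (c (b (nat_lit 0x1ff43c228a7a23)) e
 (c (a (nat_lit 0xc9203e7efbb64)) e
 (c (a (nat_lit 0x1163262df9abe4)) e e))))))))))))))))))
 (c (a (nat_lit 0x8080808081))
 (c (a (nat_lit 0x20203dec2c06)) e
 (c (a (nat_lit 0x2021085a526a8)) e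
 (c z e
 (c z e
 (c z e
 (c z e
 (c z e
 (c (a (nat_lit 0x10b96a01c5e567))
 (c (a (nat_lit 0x10c5a74a83c00009)) e e)
 (c z e
 (c z e
 (c z e
 (c z e
 (c z e
 (c z e
 (c (a (nat_lit 0x1c968a94ffbe6)) e
 (c (a (nat_lit 0x645862cb8bd46)) e e))))))))))))))))
 (c (a (nat_lit 0x2020202021)) e
 (c (a (nat_lit 0x2020202021))
 (c z e
 (c z e
 (c z e
 (c z e
 (c z e
 (c z e
 (c z e
 (c z e
 (c z e
 (c z e
 (c z e
 (c z e
 (c z e
 (c (b (nat_lit 0xb919fe1802006)) e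
 (c (a (nat_lit 0x11a04020000006)) e e)))))))))))))))
 (c (a (nat_lit 0x4040404041))
 (c (a (nat_lit 0x8efb6cf29ea07)) e
 (c (a (nat_lit 0xefc0ea6c82647)) e
 (c z e
 (c z e
 (c z e
 (c z e
 (c z e
 (c z e
 (c z e
 (c z e
 (c z e
 (c (a (nat_lit 0x95eb8b61f95c6)) e
 (c (a (nat_lit 0x126c69a9a00006)) e
 (c (a (nat_lit 0x16204000000003)) e e))))))))))))))
 (c (a (nat_lit 0x4040606041))
 (c (a (nat_lit 0x14ca63a6244386))
 (c (a (nat_lit 0x85067c36f702f06)) e e)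
 (c z e
 (c z e
 (c z e
 (c z e
 (c z e
 (c z e
 (c z e
 (c z e
 (c z e
 (c (b (nat_lit 0x1fefd065e34006)) e
 (c (a (nat_lit 0x1e1ec500000005)) e e))))))))))))
 (c (a (nat_lit 0xe0e0e0e0e1)) e
 (c (a (nat_lit 0x2020202021)) e
 (c (a (nat_lit 0x80a0808081))
 (c (a (nat_lit 0x1332ecc3448586)) e e)
 (c (a (nat_lit 0xa0a080a0a1)) e
 (c (a (nat_lit 0x6060606061))
 (c (a (nat_lit 0xa9710dca32e6)) e e)
 (c (a (nat_lit 0x20001fc3))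
 (c z e
 (c z e
 (c (a (nat_lit 0x10a0a4c0000003)) e e)))
 (c (a (nat_lit 0x202029f764))
 (c (a (nat_lit 0x11f193f1200008)) e
 (c (a (nat_lit 0x1cb9a000000005)) e e))
 (c (a (nat_lit 0x2032d9af85)) e
 (c z e
 (c (a (nat_lit 0x4e843403106)) e
 (c (a (nat_lit 0x421a02891a7)) e
 (c (a (nat_lit 0x644ad362a07)) e
 (c z e
 (c (a (nat_lit 0x9b2a5414147)) e
 (c (a (nat_lit 0x118420202007)) e
 (c (a (nat_lit 0x130343230065)) e e))))))))))))))))))))))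
 (c (a (nat_lit 0x80808081))
 (c (a (nat_lit 0x4040404041))
 (c (a (nat_lit 0x6e6fb6c6d2f04)) e
 (c (a (nat_lit 0x412a787e98f46))
 (c z e
 (c z e
 (c z e
 (c z e
 (c z e
 (c z e
 (c z e
 (c z e
 (c (a (nat_lit 0x766eaff38c9c008)) e e)))))))))
 (c z e
 (c z e
 (c z e
 (c (a (nat_lit 0xcb03f4dc0c1c5))
 (c (a (nat_lit 0x181c372aba60488)) e e)
 (c (a (nat_lit 0xa50ea624281e6))
 (c z e
 (c (a (nat_lit 0x1147ebc923800009)) e e))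
 (c (a (nat_lit 0x1ecd20e100e045))
 (c (a (nat_lit 0xd54f8a840000006)) e e)
 (c z e
 (c (b (nat_lit 0x3fe2e160f8a6)) e
 (c z e
 (c z e
 (c z e
 (c (a (nat_lit 0x5752728a944e6)) e
 (c (a (nat_lit 0x13a5a727e36886)) e
 (c (a (nat_lit 0xf7253caf50425)) e e))))))))))))))))
 (c (a (nat_lit 0x6060606061))
 (c (a (nat_lit 0xde2e2c50cb346))
 (c (a (nat_lit 0xc77520f51c4a3e6)) e
 (c z e
 (c z e
 (c z e
 (c (a (nat_lit 0x98088a4c84a9167)) e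
 (c z e
 (c z e
 (c z e
 (c (a (nat_lit 0x4e71e594be00008)) e e)))))))))
 (c z e
 (c z e
 (c (a (nat_lit 0x5f0b66c202086)) e
 (c (a (nat_lit 0x141849c0e1a106))
 (c (a (nat_lit 0x243740f032424c9)) e e)
 (c (a (nat_lit 0x104a8424442447)) e
 (c z e
 (c (a (nat_lit 0x3032888671386)) e
 (c (a (nat_lit 0x4046791b6de87)) e
 (c z e
 (c z e
 (c z e
 (c (a (nat_lit 0x161bedaaf6e4a5)) e
 (c (a (nat_lit 0x1e4d8d59673865)) e e))))))))))))))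
 (c (a (nat_lit 0x2020204041))
 (c z e
 (c z e
 (c z e
 (c z e
 (c z e
 (c (a (nat_lit 0x41c524c63924)) e e))))))
 (c (a (nat_lit 0x12121012121))
 (c z e
 (c z e
 (c z e
 (c z e
 (c (a (nat_lit 0x949ed722ffd07)) e
 (c z e
 (c z e
 (c z e
 (c z e
 (c z e
 (c z e
 (c (a (nat_lit 0x25060e1806008)) e
 (c (b (nat_lit 0x103fe040000008)) e e)))))))))))))
 (c (a (nat_lit 0x4040404041))
 (c z e
 (c (a (nat_lit 0x671d2706ff604))
 (c (a (nat_lit 0x2fd44d58428007)) e e)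
 (c z e
 (c (a (nat_lit 0x7260faf55e9c6)) e
 (c z e
 (c (a (nat_lit 0x109293ad6be667)) e
 (c z e
 (c z e
 (c z e
 (c (a (nat_lit 0xe95f3f339d245)) e
 (c (a (nat_lit 0x1591704f400004)) e
 (c (a (nat_lit 0x1d658000000001)) e e))))))))))))
 (c (a (nat_lit 0x20202001))
 (c (a (nat_lit 0x62c49aa165503))
 (c (a (nat_lit 0x12c96e8541200006)) e
 (c (a (nat_lit 0xad4046000000007)) e e))
 (c (a (nat_lit 0xc8b6e6779c725))
 (c (a (nat_lit 0x1103400000000007)) e e)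
 (c z e
 (c (a (nat_lit 0xc11d2cd808086)) e
 (c (a (nat_lit 0x1070ee4b628a67)) e
 (c z e
 (c z e
 (c z e
 (c (a (nat_lit 0x56972c0a02005)) e
 (c (a (nat_lit 0x9d2a040000005)) e e))))))))))
 (c (a (nat_lit 0x2020202021))
 (c (b (nat_lit 0x82e3ffbdfffe4)) e
 (c (a (nat_lit 0xfea7a2ee2a3a6)) e e))
 (c (a (nat_lit 0xc0e0e0e0a1))
 (c (a (nat_lit 0x159f55404061a5)) e e)
 (c (a (nat_lit 0x4040404041))
 (c z e
 (c (b (nat_lit 0x3fe7c4e61267)) e e))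
 (c (a (nat_lit 0x2020203a85))
 (c (a (nat_lit 0x107e8458655a7)) e e)
 (c (a (nat_lit 0x20202b9085)) e
 (c (a (nat_lit 0x60711c4d24))
 (c (a (nat_lit 0xb4e7200000006)) e
 (c (a (nat_lit 0x200000000001)) e e))
 (c (a (nat_lit 0x1b7dd55cb25)) e
 (c (a (nat_lit 0xe138c21c7e5)) e
 (c (a (nat_lit 0x154d2389d985)) e
 (c (a (nat_lit 0xa2568704606)) e
 (c z e
 (c (a (nat_lit 0x7f066220206)) e
 (c (a (nat_lit 0x1d48806043a5)) e
 (c (a (nat_lit 0x10804026c404)) e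
 (c z e
 (c (a (nat_lit 0xb1873208023)) e
 (c (a (nat_lit 0x18b340600003)) e
 (c (a (nat_lit 0x130000000003)) e e))))))))))))))))))))))))
 C737))) Tr.c Tr.e (nat_lit 0) C.cx C.cy
noncomputable def C739 : Tr := beta% (fun (c : Nat → Tr → Tr → Tr) (e : Tr) (z : Nat) (a b : Nat → Nat) =>
 (c (a (nat_lit 0x2020202021))
 (c z
 (c (a (nat_lit 0xfd42dc82845a566)) e
 (c z e
 (c z e
 (c z e
 (c z e
 (c z e
 (c z e
 (c z e
 (c (a (nat_lit 0x6c2ceab86553a46)) e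
 (c z e
 (c (a (nat_lit 0xcea2cb6348b1ba7)) e e)))))))))))
 (c (a (nat_lit 0x20203d67)) e
 (c (a (nat_lit 0x2020203fe8e7)) e
 (c (a (nat_lit 0x20203f29ea07)) e
 (c (a (nat_lit 0x203b0aad6ca7)) e
 (c z e
 (c z e
 (c z e
 (c z e
 (c z e
 (c (a (nat_lit 0xcf30c68a822a8)) e
 (c z e
 (c z e
 (c z e
 (c z e
 (c z e
 (c (a (nat_lit 0xd78120440745)) e
 (c (a (nat_lit 0x1a858386a9ca25)) e e))))))))))))))))))
 (c (a (nat_lit 0x4040404041))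
 (c (a (nat_lit 0x2020203689e6)) e
 (c (a (nat_lit 0x202039096a07)) e
 (c (a (nat_lit 0x4041ec929cb27)) e e)))
 (c (a (nat_lit 0x4040404041))
 (c (a (nat_lit 0x203ba8a88b46)) e
 (c z e
 (c z e
 (c z e
 (c z e
 (c z e
 (c (a (nat_lit 0x13f0a7e0a74766))
 (c (a (nat_lit 0x10f40fcf27c00008)) e e)
 (c z e
 (c z e
 (c z e
 (c z e
 (c z e
 (c z e
 (c z e
 (c z e
 (c (a (nat_lit 0x91428903e006)) e
 (c (a (nat_lit 0x12a3e540000006)) e e)))))))))))))))))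
 (c (nat_lit 1)
 (c (a (nat_lit 0xfc124024e95a6))
 (c (a (nat_lit 0x95c73ef6d07a046)) e
 (c z e
 (c z e
 (c z e
 (c (a (nat_lit 0xa09096b29f39007)) e
 (c (a (nat_lit 0x847724657e74a87)) e e))))))
 (c z e
 (c z e
 (c z e
 (c (a (nat_lit 0x14566d2181c086))
 (c z e
 (c (a (nat_lit 0x11066c72e8c00009)) e e))
 (c (a (nat_lit 0x1587c0a1002466))
 (c (a (nat_lit 0x57798e9a0000007)) e e)
 (c z e
 (c z e
 (c z e
 (c (a (nat_lit 0x11bbb8fc9b7cc6)) e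
 (c (a (nat_lit 0xd86a849571c66)) e
 (c z e
 (c z e
 (c (a (nat_lit 0x74dd10b476307)) e
 (c (a (nat_lit 0xf528984600007)) e
 (c (a (nat_lit 0x13652000000007)) e e))))))))))))))))
 (c (a (nat_lit 0x6060604041))
 (c z e
 (c z e
 (c z e
 (c z e
 (c z e
 (c z e
 (c z e
 (c z e
 (c z e
 (c z e
 (c z e
 (c z e
 (c (a (nat_lit 0x776100a08004)) e
 (c (a (nat_lit 0x16c04020000004)) e e))))))))))))))
 (c (a (nat_lit 0xc0c0c0c0c1))
 (c (a (nat_lit 0x1475f94871ecc4))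
 (c (a (nat_lit 0x8ace26bc9157aa5)) e
 (c (a (nat_lit 0x682ba65d3ce0a87)) e e))
 (c (a (nat_lit 0xeb1268ca96865))
 (c (b (nat_lit 0x27d06720e4cffe7)) e e)
 (c z e
 (c z e
 (c z e
 (c (a (nat_lit 0xd8e304a28c047)) e e))))))
 (c (a (nat_lit 0x6060606061))
 (c (a (nat_lit 0xa23054b524424))
 (c (a (nat_lit 0xca6d1cc926042c6)) e e)
 (c z e
 (c z e
 (c z e
 (c (a (nat_lit 0x103510b0a767a7)) e e)))))
 (c (nat_lit 1)
 (c z e
 (c (a (nat_lit 0x1614982b0022e6)) e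
 (c z e
 (c z e
 (c z e
 (c (b (nat_lit 0x4dff426811845)) e
 (c (a (nat_lit 0x3b7aa6a0e7e65)) e e)))))))
 (c (a (nat_lit 0x20204001))
 (c (a (nat_lit 0x1073cc0061e7e6)) e
 (c z e
 (c z e
 (c z e
 (c (b (nat_lit 0x1ff0c9c8a95b46)) e
 (c (a (nat_lit 0x15254badc62445)) e e))))))
 (c (a (nat_lit 0x10101010101)) e
 (c (a (nat_lit 0x202001))
 (c (a (nat_lit 0xe78b516553ee6)) e
 (c z e
 (c z e
 (c z e
 (c (a (nat_lit 0xd8d9020000006)) e e)))))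
 (c (a (nat_lit 0x20202021))
 (c z e
 (c z e
 (c (a (nat_lit 0x120e964e000006)) e
 (c (a (nat_lit 0x1a214000000001)) e e))))
 (c (a (nat_lit 0x20202024c1))
 (c (a (nat_lit 0xf8f5011f1e008)) e
 (c (a (nat_lit 0x1b60e140000003)) e
 (c (a (nat_lit 0x200000000001)) e e)))
 (c (a (nat_lit 0x20203c7e04)) e
 (c (a (nat_lit 0x405c9e5664)) e
 (c z e
 (c (a (nat_lit 0xdefa7c47324)) e
 (c (a (nat_lit 0xb63804f1884)) e
 (c (a (nat_lit 0x7258cf1a7a5)) e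
 (c z e
 (c (a (nat_lit 0x183aade220c4)) e
 (c (a (nat_lit 0x19ace1402544)) e
 (c (a (nat_lit 0x17c08068b123)) e e)))))))))))))))))))))))) Tr.c Tr.e (nat_lit 0) C.cx C.cy
noncomputable def C740 : Tr := beta% (fun (c : Nat → Tr → Tr → Tr) (e : Tr) (z : Nat) (a b : Nat → Nat) =>
 (c (a (nat_lit 0x2020202021))
 (c (a (nat_lit 0x1c1c1d44d2b26))
 (c (a (nat_lit 0xbec8d54dfbf5525)) e
 (c z e
 (c z e
 (c (a (nat_lit 0xd94b44ee8108006)) e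
 (c (a (nat_lit 0xcab09504c68ee86)) e
 (c z e
 (c z e
 (c (a (nat_lit 0x945c40d8650cfe7)) e
 (c (a (nat_lit 0x8086947c5718dc8)) e e)))))))))
 (c (a (nat_lit 0x380f6d4847)) e
 (c z e
 (c (a (nat_lit 0x1c3691b306f5e6))
 (c z e
 (c (a (nat_lit 0x1e30243434234a9)) e
 (c z e
 (c z e
 (c z e
 (c (a (nat_lit 0x462722d66400009)) e e))))))
 (c (a (nat_lit 0x1814f5ecd745e6))
 (c (a (nat_lit 0x4101020172ed88)) e
 (c z e
 (c z e
 (c (a (nat_lit 0x7a97a4ed7a8c009)) e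
 (c (a (nat_lit 0x7bd540bc0000009)) e e)))))
 (c z e
 (c z e
 (c (a (nat_lit 0xeb46a63e40567)) e
 (c (a (nat_lit 0x1c12ed0ea9eea7)) e
 (c z e
 (c z e
 (c (a (nat_lit 0x52af2cb0d345)) e
 (c (a (nat_lit 0x764a286a8b605)) e
 (c (a (nat_lit 0xcaa6e8f1c7185)) e
 (c z e
 (c (a (nat_lit 0x2e53288aa6845)) e
 (c (b (nat_lit 0x1ff82403c00004)) e
 (c (a (nat_lit 0x14804000000004)) e e))))))))))))))))))
 (c (a (nat_lit 0x2020202021))
 (c (a (nat_lit 0x17e94b347f6e6))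
 (c (a (nat_lit 0x2a911d7498443c6)) e
 (c z e
 (c z e
 (c z e
 (c z e
 (c (a (nat_lit 0x84aa7316a3a9ce7)) e e))))))
 (c z e
 (c z e
 (c z e
 (c z e
 (c (a (nat_lit 0xc9265c0256707))
 (c (a (nat_lit 0xdeef1ce87c00008)) e e)
 (c z e
 (c z e
 (c z e
 (c (a (nat_lit 0x1da123037a5)) e
 (c (a (nat_lit 0x5fdd674325725)) e
 (c (a (nat_lit 0x1d0302862eace4)) e
 (c z e
 (c z e
 (c (b (nat_lit 0x1ff46786a6c003)) e
 (c (a (nat_lit 0x178120c0000002)) e e))))))))))))))))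
 (c (a (nat_lit 0xc0e0c0e0e1))
 (c z e
 (c z e
 (c z e
 (c z e
 (c (a (nat_lit 0x14ec25ecad08c7))
 (c (a (nat_lit 0x32ee8880000008)) e e)
 (c z e
 (c z e
 (c z e
 (c (a (nat_lit 0x1d1b9cdbd791c6)) e e)))))))))
 (c (nat_lit 1)
 (c (a (nat_lit 0x1093df95684d85))
 (c (a (nat_lit 0x42c3c1a1abd126)) e
 (c (b (nat_lit 0x215ff34b0c4f27)) e e))
 (c (a (nat_lit 0xf396e43e723e6))
 (c (a (nat_lit 0x345376c2e8c88e7)) e e)
 (c z e
 (c z e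
 (c z e
 (c (a (nat_lit 0x187958e9888045)) e
 (c z e
 (c z e
 (c z e
 (c (a (nat_lit 0x573aa8249a5)) e
 (c (a (nat_lit 0x29f4cc2d10c44)) e e)))))))))))
 (c (a (nat_lit 0x18181818181))
 (c (b (nat_lit 0x14c8808324bfe5))
 (c (a (nat_lit 0x693525cedf906c5)) e e)
 (c z e
 (c z e
 (c (a (nat_lit 0xc1ffb5122e545)) e
 (c (a (nat_lit 0x14f736558a07a6)) e
 (c z e
 (c z e
 (c (a (nat_lit 0x62934af8d6e45)) e
 (c (b (nat_lit 0x1ff6a68dcd44e3)) e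
 (c (a (nat_lit 0x1883ea4d03e003)) e e))))))))))
 (c (nat_lit 1)
 (c z e
 (c (a (nat_lit 0x135677cbc06265)) e
 (c z e
 (c z e
 (c z e
 (c (a (nat_lit 0x10d1781454bb86)) e
 (c (b (nat_lit 0x1ffee3ce66a3e3)) e
 (c (a (nat_lit 0x11046a0785cec4)) e e))))))))
 (c (a (nat_lit 0x20202001))
 (c (a (nat_lit 0x12b34be0638b05)) e
 (c z e
 (c z e
 (c (a (nat_lit 0x4460dac4d5147)) e
 (c (b (nat_lit 0x1fe9c84a8a7846)) e
 (c (a (nat_lit 0xd22b37307d044)) e e))))))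
 (c (a (nat_lit 0x2020000001))
 (c z e
 (c (a (nat_lit 0x1271f52fcc0ce6)) e
 (c z e
 (c z e
 (c z e
 (c (a (nat_lit 0x7070a75ad4006)) e
 (c (a (nat_lit 0x169d7a20000005)) e
 (c (a (nat_lit 0x1b200000000002)) e e))))))))
 (c (a (nat_lit 0x808080a0a1))
 (c (a (nat_lit 0x109a8674556c6)) e
 (c z e
 (c z e
 (c (a (nat_lit 0x11b336183f0ec6)) e
 (c (a (nat_lit 0x147739d0800006)) e
 (c (a (nat_lit 0x126a6000000006)) e e))))))
 (c (a (nat_lit 0x4040404041))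
 (c z e
 (c (a (nat_lit 0x7070766c794a9)) e
 (c (a (nat_lit 0x1252f1d33b8008)) e
 (c (a (nat_lit 0x10808020000005)) e
 (c (a (nat_lit 0x6c00000000001)) e e)))))
 (c (a (nat_lit 0x4040404021))
 (c (a (nat_lit 0xff03030516e48)) e
 (c (a (nat_lit 0x1000c060600005)) e
 (c (a (nat_lit 0x3a04000000001)) e e)))
 (c (a (nat_lit 0x101010111c3)) e
 (c (a (nat_lit 0x2020247905)) e
 (c (a (nat_lit 0x23f8ac85)) e
 (c (a (nat_lit 0x85b98d4605)) e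
 (c (a (nat_lit 0x5427e0b2c5)) e
 (c (a (nat_lit 0x9e3c04954c6)) e
 (c (a (nat_lit 0x6c32c57c906)) e
 (c z e
 (c (a (nat_lit 0xbf7a8c16166)) e
 (c (a (nat_lit 0x16a7e0608426)) e
 (c (a (nat_lit 0x1081a188a3a5)) e e))))))))))))))))))))))) Tr.c Tr.e (nat_lit 0) C.cx C.cy
noncomputable def C741 : Tr := beta% (fun (c : Nat → Tr → Tr → Tr) (e : Tr) (z : Nat) (a b : Nat → Nat) =>
 (c z
 (c (a (nat_lit 0x20203a4fcb2543))
 (c z e
 (c z e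
 (c z e
 (c z e
 (c z e
 (c z e
 (c z e
 (c z e
 (c z e
 (c z e
 (c (a (nat_lit 0x282e3e20282617046)) e
 (c (a (nat_lit 0x242c1c50c631089a6)) e e))))))))))))
 (c (a (nat_lit 0x26270f0acc2e945))
 (c z e
 (c z e
 (c z e
 (c z e
 (c z e
 (c z e
 (c z e
 (c z e
 (c z e
 (c (a (nat_lit 0x24385c38263bd4447)) e e))))))))))
 (c z e
 (c (a (nat_lit 0x11f1100863e5a026))
 (c z e
 (c (a (nat_lit 0xc8e4d75b898ce4ea7)) e
 (c z e
 (c z e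
 (c z e
 (c (a (nat_lit 0x50823e4268630a367)) e
 (c z e
 (c z e
 (c z e
 (c (a (nat_lit 0xab4f8ae7220000007)) e e))))))))))
 (c (b (nat_lit 0x1855f4ca2cdfffe5))
 (c z e
 (c z e
 (c z e
 (c (a (nat_lit 0xc71c8a7aab0339386)) e
 (c (a (nat_lit 0x8c54429c7f669ee47)) e
 (c z e
 (c z e
 (c z e
 (c (a (nat_lit 0x116e0c2d4000000007)) e e)))))))))
 (c z e
 (c z e
 (c (a (nat_lit 0xeb74885a42a4264))
 (c z e
 (c (a (nat_lit 0x8667a8d692b08ec66)) e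
 (c (a (nat_lit 0x87688278993076006)) e e)))
 (c (a (nat_lit 0x1909680633e8e444))
 (c (a (nat_lit 0x1d5e402c627224266)) e e)
 (c z e
 (c (a (nat_lit 0x8ccd4514ee98945)) e
 (c (a (nat_lit 0x9b4b012abe7a305)) e
 (c (b (nat_lit 0x17f3b657487fffe5)) e
 (c z e
 (c (a (nat_lit 0x197b38f161c114c4)) e
 (c (a (nat_lit 0x158fc206054d8063)) e
 (c (a (nat_lit 0x1284a5c50d830623)) e e)))))))))))))))))
 (c z
 (c (a (nat_lit 0x4302e6c65259006))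
 (c (a (nat_lit 0xe92ecadfd17f9d566)) e
 (c z e
 (c z e
 (c z e
 (c (a (nat_lit 0x8caa708f08ef27288)) e
 (c z e
 (c z e
 (c (a (nat_lit 0x48281e403824334c8)) e
 (c z e
 (c (a (nat_lit 0x1e14322447144c3c8)) e e))))))))))
 (c z e
 (c z e
 (c z e
 (c (a (nat_lit 0x46571a2a18ad146))
 (c (a (nat_lit 0x125ad9d2ecb22a3888)) e
 (c z e
 (c z e
 (c z e
 (c z e
 (c (a (nat_lit 0x972d16f790e000007)) e e))))))
 (c z e
 (c z e
 (c z e
 (c z e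
 (c (a (nat_lit 0xa56adb16d294426)) e
 (c z e
 (c z e
 (c z e
 (c (a (nat_lit 0xc0c2c69c646b307)) e
 (c (a (nat_lit 0x124ae600e30b2546)) e e)))))))))))))))
 (c z e
 (c z
 (c (a (nat_lit 0x84b30a7a243c186)) e
 (c (a (nat_lit 0x1a5ccf23e3e9fd26))
 (c (a (nat_lit 0x1653ae9014d84dcd08)) e
 (c z e
 (c z e
 (c z e
 (c (a (nat_lit 0x849d3084b2be52469)) e e)))))
 (c z e
 (c z e
 (c z e
 (c (a (nat_lit 0x3c3fae76efa9725))
 (c (a (nat_lit 0x14d22806c4e0000007)) e e)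
 (c z e
 (c z e
 (c (a (nat_lit 0x7ceb5944e44c006)) e
 (c (a (nat_lit 0xe0e31d48baceee7)) e
 (c z e
 (c (b (nat_lit 0x95637dfecf776a6)) e
 (c z e
 (c (a (nat_lit 0x12fe2cbf8a200004)) e
 (c (a (nat_lit 0x13ec0ac000000005)) e e)))))))))))))))
 (c z
 (c (a (nat_lit 0x1a4de4c491f9f065))
 (c z e
 (c z e
 (c z e
 (c (a (nat_lit 0x9aae932ea47258488)) e
 (c (a (nat_lit 0x8d08e4d6aa7656188)) e e)))))
 (c z e
 (c z e
 (c (a (nat_lit 0x605660208f05a65))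
 (c z e
 (c (a (nat_lit 0x15b60db0e820000008)) e e))
 (c (a (nat_lit 0x7a803ec721632e5))
 (c (a (nat_lit 0x140b6b61c000000007)) e e)
 (c z e
 (c z e
 (c (a (nat_lit 0xef2f45316f0ee26)) e
 (c (a (nat_lit 0x54a0df4934d6c47)) e
 (c (b (nat_lit 0x9ef169ff0abae47)) e
 (c z e
 (c (a (nat_lit 0x13162c4d312be006)) e
 (c (a (nat_lit 0x1fac0d8a80000005)) e e)))))))))))))
 (c z
 (c (a (nat_lit 0xe2d88759351cee6))
 (c (a (nat_lit 0xb68f89e9950ac0dc7)) e e)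
 (c z e
 (c z e
 (c z e
 (c z e
 (c (a (nat_lit 0x74ab15a7dfc1d26)) e
 (c z e
 (c z e
 (c z e
 (c (a (nat_lit 0x3e3e4c565677388)) e
 (c (a (nat_lit 0xc13a12261200005)) e
 (c (a (nat_lit 0x1401c12000000005)) e e))))))))))))
 (c (a (nat_lit 0x202020203b25)) e
 (c (a (nat_lit 0x202020342985))
 (c z e
 (c (a (nat_lit 0x1a4e7e9b5958a06)) e
 (c z e
 (c z e
 (c z e
 (c (a (nat_lit 0x10d12f4e47ed5847)) e e))))))
 (c (a (nat_lit 0x20320f8885))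
 (c (a (nat_lit 0x1e9b8f4c8ada4)) e
 (c z e
 (c z e
 (c (a (nat_lit 0x5e8a86c31e40c27)) e
 (c (a (nat_lit 0xccab04d90bbae47)) e e)))))
 (c (a (nat_lit 0x4e4f6f62dcda5)) e
 (c (a (nat_lit 0x4fe358c4d1b45))
 (c (a (nat_lit 0xe2f70d3ab5872c6)) e e)
 (c (a (nat_lit 0x689a544cbf546))
 (c z e
 (c (a (nat_lit 0xbce72ada6400008)) e e))
 (c (a (nat_lit 0x824ca91bb0fe6))
 (c (a (nat_lit 0xdd18ee540000008)) e e)
 (c z e
 (c (a (nat_lit 0x74fdbd0abc666)) e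
 (c (a (nat_lit 0x9514641e0a286)) e
 (c (a (nat_lit 0x11060140224006)) e
 (c (a (nat_lit 0x10870488846265)) e
 (c z e
 (c (a (nat_lit 0x85a08c2212503)) e
 (c (a (nat_lit 0x19684260851283)) e
 (c (a (nat_lit 0x862606552c0a3)) e e))))))))))))))))))))))) Tr.c Tr.e (nat_lit 0) C.cx C.cy
noncomputable def C742 : Tr := beta% (fun (c : Nat → Tr → Tr → Tr) (e : Tr) (z : Nat) (a b : Nat → Nat) =>
 (c (a (nat_lit 0x80808081))
 (c (nat_lit 1) C741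
 (c (a (nat_lit 0x8080808081))
 (c z
 (c (a (nat_lit 0x1bd877d166304aa5))
 (c z e
 (c z e
 (c z e
 (c z e
 (c (a (nat_lit 0xbe4e7d5f55456cae7)) e
 (c z e
 (c (a (nat_lit 0x1030cf0d8f3088dde6)) e
 (c z e
 (c z e
 (c (a (nat_lit 0x2a38625bb71ea0747)) e e))))))))))
 (c z e
 (c z e
 (c z e
 (c (a (nat_lit 0xb9c90cc4c67dda5))
 (c (a (nat_lit 0x15d3d02988058b2cc8)) e
 (c z e
 (c z e
 (c z e
 (c z e
 (c (a (nat_lit 0x1c723b9db1a0000007)) e e))))))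
 (c z e
 (c z e
 (c z e
 (c z e
 (c (a (nat_lit 0x1595fb5406eb2a86)) e
 (c z e
 (c (a (nat_lit 0x14137647e38023a7)) e
 (c z e
 (c (a (nat_lit 0xeab312fce6e3167)) e
 (c (a (nat_lit 0x136e806063412e65)) e e)))))))))))))))
 (c z e
 (c z e
 (c z e
 (c (a (nat_lit 0x2020202031a7))
 (c (a (nat_lit 0x6a991ab8908ed47))
 (c (a (nat_lit 0x569552f4884e84208)) e e)
 (c z e
 (c z e
 (c z e
 (c z e
 (c (a (nat_lit 0x6870e34b234ed68)) e
 (c z e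
 (c z e
 (c z e
 (c (a (nat_lit 0x5854584e6d0c009)) e
 (c (a (nat_lit 0x11cac96460000008)) e e)))))))))))
 (c (a (nat_lit 0x2020203703e7)) e
 (c (a (nat_lit 0x20386a6586)) e
 (c (a (nat_lit 0x3a3b4ce8a6806)) e
 (c (b (nat_lit 0x1ff3ea44c30d26)) e
 (c (b (nat_lit 0x18a91fe18d7d66))
 (c (a (nat_lit 0xe0dd48c150cede7)) e e)
 (c z e
 (c z e
 (c z e
 (c (a (nat_lit 0xb71ce8d8b6988)) e
 (c (a (nat_lit 0x1c2e8aaa6acaa6)) e
 (c z e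
 (c z e
 (c z e
 (c (a (nat_lit 0x1635bd00626005)) e
 (c (a (nat_lit 0x17ff4184a02005)) e e))))))))))))))))))))
 (c (a (nat_lit 0x6060606061))
 (c z e
 (c z e
 (c (a (nat_lit 0x202020203287)) e
 (c (a (nat_lit 0x202020358c27)) e
 (c (a (nat_lit 0x202032e7a728)) e
 (c (a (nat_lit 0x4041813b0eb47)) e e))))))
 (c (a (nat_lit 0x10101010101))
 (c (a (nat_lit 0x1466))
 (c z e
 (c (a (nat_lit 0x2588b855398906)) e
 (c z e
 (c z e
 (c z e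
 (c (a (nat_lit 0xa110b28e7adec27)) e
 (c (a (nat_lit 0xf4e183c783e3146)) e
 (c z e
 (c z e
 (c (a (nat_lit 0xe0db0f09b18cd87)) e e))))))))))
 (c (a (nat_lit 0x202020336c07))
 (c (a (nat_lit 0x329f09118148ec6))
 (c (a (nat_lit 0xf506dedeba3880548)) e
 (c z e
 (c z e
 (c z e
 (c (a (nat_lit 0x1455f79bcb20000007)) e e)))))
 (c z e
 (c z e
 (c z e
 (c (a (nat_lit 0x9cfa84f18d1baa7)) e
 (c (a (nat_lit 0xa21311cf7d21947)) e
 (c z e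
 (c z e
 (c (a (nat_lit 0x6870929c8e455e9)) e e)))))))))
 (c (a (nat_lit 0x20203f36b547))
 (c z e
 (c z e
 (c z e
 (c (a (nat_lit 0xd676db62db3c867)) e e))))
 (c (a (nat_lit 0x80922808a6c8)) e
 (c z e
 (c (a (nat_lit 0x1452104b03abc7))
 (c (a (nat_lit 0x6c80bc1634af2c7)) e
 (c z e
 (c z e
 (c z e
 (c (a (nat_lit 0x768b82e69400009)) e e)))))
 (c z e
 (c z e
 (c z e
 (c (a (nat_lit 0x11dfb4ae8bc247)) e
 (c z e
 (c z e
 (c z e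
 (c (a (nat_lit 0x4fbc8272ae5)) e
 (c (a (nat_lit 0x4f02685c7c746)) e
 (c z e
 (c z e
 (c (b (nat_lit 0x1fe45ffba0e002)) e
 (c (a (nat_lit 0x601a180000001)) e e)))))))))))))))))))
 C740))))
 (c (a (nat_lit 0x60606061))
 (c (a (nat_lit 0x2020202021))
 (c z
 (c (a (nat_lit 0x1536f74847c62004))
 (c z e
 (c z e
 (c z e
 (c z e
 (c z e
 (c z e
 (c z e
 (c (a (nat_lit 0x11f169eaaafb736ca5)) e e))))))))
 (c z e
 (c z e
 (c (a (nat_lit 0x100aef4808a6d125))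
 (c z e
 (c z e
 (c z e
 (c z e
 (c z e
 (c z e
 (c (a (nat_lit 0x1aefe7e2a480000007)) e e)))))))
 (c (a (nat_lit 0x1a11e404e0953504))
 (c (a (nat_lit 0x15128a22b027454467)) e
 (c (a (nat_lit 0x104da58aa663c66588)) e
 (c z e
 (c z e
 (c (a (nat_lit 0x10c302a62544e00008)) e e)))))
 (c z e
 (c z e
 (c z e
 (c (a (nat_lit 0x568ab8707ab9425)) e
 (c (a (nat_lit 0xef4aec76ab43de5)) e
 (c z e
 (c z e
 (c z e
 (c (a (nat_lit 0x26812f796d04e86)) e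
 (c (a (nat_lit 0x8909453482b4385)) e e)))))))))))))))
 (c z e
 (c z e
 (c (a (nat_lit 0x202020203f66))
 (c z e
 (c z e
 (c z e
 (c z e
 (c z e
 (c (a (nat_lit 0x2418c25ef717087)) e
 (c (a (nat_lit 0x52c8f67add13c6)) e e)))))))
 (c (a (nat_lit 0x2020203f0266))
 (c (b (nat_lit 0x3691feb6bf195e6))
 (c (a (nat_lit 0x19142e28a4038086a6)) e e)
 (c z e
 (c z e
 (c z e
 (c (b (nat_lit 0x1fffe60da3abf507)) e
 (c (a (nat_lit 0x35296d65d1cd406)) e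
 (c z e
 (c z e
 (c z e
 (c (a (nat_lit 0x1092708d1a000008)) e
 (c (a (nat_lit 0x10acc08000000007)) e e)))))))))))
 (c (a (nat_lit 0x202038436606)) e
 (c (a (nat_lit 0x4243227e8ec26)) e
 (c z e
 (c (a (nat_lit 0x10e909ace6c7a6))
 (c z e
 (c (a (nat_lit 0x82d0d6c1a6fa8a7)) e e))
 (c (a (nat_lit 0xcccd4ea28e225))
 (c (b (nat_lit 0x9314fd5596affe6)) e e)
 (c z e
 (c z e
 (c z e
 (c (a (nat_lit 0x16b5510d4748c6)) e
 (c (a (nat_lit 0x1864a5825539c4)) e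
 (c z e
 (c z e
 (c (a (nat_lit 0x11b6e7abf064)) e
 (c (a (nat_lit 0x7ca42c4e75505)) e
 (c (a (nat_lit 0x8e16385f38945)) e e))))))))))))))))))))
 C739)
 C738))) Tr.c Tr.e (nat_lit 0) C.cx C.cy
noncomputable def C743 : Tr := beta% (fun (c : Nat → Tr → Tr → Tr) (e : Tr) (z : Nat) (a b : Nat → Nat) =>
 (c (a (nat_lit 0x8080808081))
 (c z
 (c z e
 (c (a (nat_lit 0x925eaaa4acb7067)) e
 (c z e
 (c z e
 (c z e
 (c (b (nat_lit 0x246b03fe4853b66)) e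
 (c z e
 (c z e
 (c z e
 (c (a (nat_lit 0x18c99173a76f047)) e e))))))))))
 (c (a (nat_lit 0x202020203a87))
 (c (a (nat_lit 0xbe96ad03185e6))
 (c (a (nat_lit 0x146b8b730f8c8784c8)) e
 (c z e
 (c z e
 (c z e
 (c (a (nat_lit 0x168562a36781e00009)) e e)))))
 (c z e
 (c z e
 (c z e
 (c (a (nat_lit 0x3e7ed6442118bc7)) e
 (c z e
 (c z e
 (c z e
 (c (a (nat_lit 0xcf10f53d84aa048)) e e)))))))))
 (c (a (nat_lit 0x20202039ec07)) e
 (c (a (nat_lit 0x202034e989e8)) e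
 (c (a (nat_lit 0x1e1f8cd6c69c7)) e
 (c (a (nat_lit 0x1928d4c89e2c7))
 (c (a (nat_lit 0x15be52ffa5f07c05)) e
 (c z e
 (c z e
 (c z e
 (c (a (nat_lit 0x525a434b305e009)) e e)))))
 (c z e
 (c z e
 (c z e
 (c (a (nat_lit 0x9ec764fac6c67)) e
 (c z e
 (c z e
 (c z e
 (c (a (nat_lit 0x3f170ce090765)) e
 (c (a (nat_lit 0xa69c722207785)) e
 (c z e
 (c z e
 (c (a (nat_lit 0x160978320a025)) e
 (c (a (nat_lit 0x15843e0a00005)) e e)))))))))))))))))))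
 (c (a (nat_lit 0x20000001))
 (c (a (nat_lit 0x2020398ae6))
 (c (a (nat_lit 0x7042667b0d59085))
 (c z e
 (c z e
 (c z e
 (c (a (nat_lit 0x198acc2aa666804007)) e e))))
 (c z e
 (c z e
 (c z e
 (c (a (nat_lit 0x8ecb825c3070ce6)) e
 (c z e
 (c z e
 (c z e
 (c (a (nat_lit 0x728086e07053388)) e e)))))))))
 (c (a (nat_lit 0x20203eef2e27)) e
 (c (a (nat_lit 0x20214aaeba928)) e
 (c (a (nat_lit 0x2560c8cc923c7))
 (c z e
 (c z e
 (c z e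
 (c z e
 (c z e
 (c (b (nat_lit 0x10e8bffed90d6008)) e e))))))
 (c (a (nat_lit 0x11cc6b694426a7))
 (c (a (nat_lit 0x1c163c0c3459d28)) e
 (c z e
 (c z e
 (c z e
 (c (a (nat_lit 0x8e8dad8eb200009)) e e)))))
 (c z e
 (c z e
 (c (a (nat_lit 0x5281067e0cd86)) e
 (c (a (nat_lit 0xc13add154e8e7)) e
 (c z e
 (c z e
 (c (b (nat_lit 0x1ff16969e3f065)) e
 (c (a (nat_lit 0x1bebed02de4ce4)) e
 (c (a (nat_lit 0xeef6a582f9865)) e
 (c z e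
 (c z e
 (c (a (nat_lit 0x13adb560804005)) e
 (c (a (nat_lit 0xc754020000005)) e e))))))))))))))))))
 (c (a (nat_lit 0x6060404041))
 (c (a (nat_lit 0x203ead8ca6c6)) e
 (c z e
 (c z e
 (c z e
 (c z e
 (c (a (nat_lit 0xa6f9584c064c6))
 (c (a (nat_lit 0x5930f7390052008)) e e)
 (c z e
 (c z e
 (c z e
 (c (a (nat_lit 0xd04c8ca68065)) e
 (c (a (nat_lit 0x1853f3ee3318c5)) e
 (c (a (nat_lit 0x12f2e7917bd484)) e e))))))))))))
 (c (a (nat_lit 0x20002001))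
 (c z e
 (c z e
 (c z e
 (c z e
 (c (a (nat_lit 0x9b1c8c52814c6))
 (c (a (nat_lit 0x1b057e98eb600007)) e e)
 (c z e
 (c z e
 (c z e
 (c (a (nat_lit 0x1c38b2b2cd5386)) e
 (c (a (nat_lit 0xf8060c5349305)) e e))))))))))
 (c (a (nat_lit 0xa0a0a0a0a1))
 (c z e
 (c (a (nat_lit 0x102cd04c6ac8c6))
 (c (a (nat_lit 0x20e1124867c388)) e e)
 (c z e
 (c z e
 (c z e
 (c (a (nat_lit 0xd302dcb082327)) e
 (c z e
 (c z e
 (c z e
 (c (b (nat_lit 0x1fe3f2b0688e25)) e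
 (c (a (nat_lit 0x39270084de845)) e e)))))))))))
 (c (a (nat_lit 0x14141616161))
 (c (a (nat_lit 0x149b3416304b64))
 (c (a (nat_lit 0x4c4ec2b916bf846)) e
 (c (a (nat_lit 0x47a2b92ca786447)) e e))
 (c z e
 (c z e
 (c (b (nat_lit 0x507b03fe0e285)) e
 (c (a (nat_lit 0x1716540f246d86)) e
 (c z e
 (c z e
 (c (b (nat_lit 0x1fe5b871cae725)) e
 (c (a (nat_lit 0x3965008e081e5)) e
 (c (a (nat_lit 0x1ef1c300a3a484)) e e))))))))))
 (c (a (nat_lit 0x12121010101))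
 (c z e
 (c (a (nat_lit 0x18d4b84ea52ee5)) e
 (c z e
 (c z e
 (c z e
 (c (a (nat_lit 0x66ab1af891006)) e
 (c (a (nat_lit 0x95d394c83e305)) e
 (c (b (nat_lit 0x1e15e080ffe0e4)) e e))))))))
 (c (a (nat_lit 0xa0c0c0c081))
 (c (a (nat_lit 0xed3a681cb3a84)) e
 (c z e
 (c z e
 (c (b (nat_lit 0x1fe79b780fbe66)) e
 (c (a (nat_lit 0x1ec2ae6ab9167)) e
 (c (a (nat_lit 0x1831a1d56cc445)) e e))))))
 (c (nat_lit 1)
 (c z e
 (c (a (nat_lit 0xf925af7cf5666)) e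
 (c z e
 (c z e
 (c z e
 (c (a (nat_lit 0xa49da3f3e0fa5)) e
 (c (a (nat_lit 0x7d83cae600005)) e
 (c (a (nat_lit 0x19cf2000000005)) e e))))))))
 (c (nat_lit 1)
 (c (a (nat_lit 0x2ecec07a756e6)) e
 (c z e
 (c z e
 (c (a (nat_lit 0xaaa4c6d6e7687)) e
 (c (a (nat_lit 0x1579bbbdfb0006)) e
 (c (a (nat_lit 0x1b602080000004)) e
 (c (nat_lit 1) e e)))))))
 (c (a (nat_lit 0x8080808081))
 (c z e
 (c (a (nat_lit 0x1433d5d7757466)) e
 (c (a (nat_lit 0xfb050d0502ea8)) e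
 (c (a (nat_lit 0x1a004020400004)) e
 (c (a (nat_lit 0x4000000001)) e e)))))
 (c (a (nat_lit 0x4040202021))
 (c (a (nat_lit 0x1e3e9efededb07)) e
 (c (a (nat_lit 0x19bec040806004)) e
 (c (a (nat_lit 0x1e402020000004)) e
 (c (a (nat_lit 0x200000000001)) e e))))
 (c (a (nat_lit 0x12121212121)) e
 (c (a (nat_lit 0x2020203da5)) e
 (c (a (nat_lit 0x20203db465)) e
 (c (a (nat_lit 0x203db46cc5)) e
 (c z e
 (c (a (nat_lit 0x15ec84c18265)) e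
 (c (a (nat_lit 0x1a4aa4461ea4)) e
 (c z e
 (c z e
 (c (a (nat_lit 0xe7aee519425)) e
 (c (a (nat_lit 0x14078aad49e5)) e e)))))))))))))))))))))))) Tr.c Tr.e (nat_lit 0) C.cx C.cy
noncomputable def C744 : Tr := beta% (fun (c : Nat → Tr → Tr → Tr) (e : Tr) (z : Nat) (a b : Nat → Nat) =>
 (c (a (nat_lit 0x6060606061))
 (c z
 (c (a (nat_lit 0x202020344e6bc5))
 (c (a (nat_lit 0x584426365ceed5385)) e
 (c z e
 (c z e
 (c (a (nat_lit 0x284670aacb58c6e47)) e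
 (c (a (nat_lit 0x8ee0f56305f8d93e6)) e
 (c z e
 (c z e
 (c (a (nat_lit 0xb25c58242910c25a6)) e
 (c z e
 (c z e
 (c z e
 (c (a (nat_lit 0x504c4c589338595a7)) e
 (c (a (nat_lit 0x4a42406a74e8b3028)) e e)))))))))))))
 (c (a (nat_lit 0x3a3a3b10d8ba027)) e
 (c (a (nat_lit 0xa0b4d3f2e34207)) e
 (c (a (nat_lit 0x197b655a7c0c3c7))
 (c z e
 (c (a (nat_lit 0x82e6deb1172912cc9))
 (c (a (nat_lit 0x1b4eba8f4f87cd596bc8)) e e)
 (c z e
 (c z e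
 (c z e
 (c (a (nat_lit 0x1634af29e4d2aa6ee7)) e
 (c z e
 (c z e
 (c z e
 (c (a (nat_lit 0x60709f36c2ae00009)) e e))))))))))
 (c (b (nat_lit 0x1472518944861fe7))
 (c (a (nat_lit 0xcfa0f7bbf19729707)) e
 (c z e
 (c z e
 (c (a (nat_lit 0xed8b5eb8e0f4dd087)) e
 (c (a (nat_lit 0xcc94683cda7bc4c88)) e
 (c z e
 (c z e
 (c z e
 (c (a (nat_lit 0xd73de531760000008)) e e)))))))))
 (c z e
 (c z e
 (c (a (nat_lit 0x5d57aef87e84926)) e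
 (c (a (nat_lit 0xe136861e2e5a5a6))
 (c (a (nat_lit 0xa44d4c5a5a52b6387)) e e)
 (c z e
 (c z e
 (c z e
 (c (b (nat_lit 0xe7194160e04ffe7)) e
 (c z e
 (c z e
 (c z e
 (c (a (nat_lit 0x11af6ba9492e6d65)) e
 (c (a (nat_lit 0x1027c2a2cd6be024)) e e))))))))))))))))))
 (c z
 (c (a (nat_lit 0x4849d7795e06e66)) e e)
 (c z e
 (c z
 (c z e
 (c (a (nat_lit 0xed85bae20e8ca67))
 (c (a (nat_lit 0x153b12f1b734363429)) e
 (c z e
 (c z e
 (c z e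
 (c (a (nat_lit 0x386061149070403aa)) e e)))))
 (c z e
 (c z e
 (c z e
 (c (b (nat_lit 0x2dfea43994827))
 (c (a (nat_lit 0xd510c922d46a00008)) e e)
 (c z e
 (c z e
 (c z e
 (c (a (nat_lit 0x5d0e9298c86e608)) e
 (c z e
 (c z e
 (c z e
 (c (a (nat_lit 0x106fe8e864a40007)) e
 (c (a (nat_lit 0x194baa8200000006)) e e)))))))))))))))
 (c z
 (c (a (nat_lit 0x18384e856ccd78e6))
 (c (a (nat_lit 0xe6b88ce6c31aee808)) e
 (c z e
 (c z e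
 (c z e
 (c (a (nat_lit 0x709f7716dea6922c9)) e e)))))
 (c z e
 (c z e
 (c (a (nat_lit 0x24a2c864069307)) e
 (c (a (nat_lit 0xa2848325726aa7))
 (c (a (nat_lit 0x1e8ed44fa660000008)) e e)
 (c z e
 (c z e
 (c z e
 (c (a (nat_lit 0x6ae2bb0d069ab28)) e
 (c z e
 (c z e
 (c z e
 (c (a (nat_lit 0x1973310b46e00006)) e
 (c (a (nat_lit 0x10cec48000000006)) e e))))))))))))))
 (c z
 (c z e
 (c z e
 (c z e
 (c z e
 (c z e
 (c z e
 (c z e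
 (c z e
 (c z e
 (c z e
 (c z e
 (c (a (nat_lit 0x1cf0616140000006)) e e))))))))))))
 (c z e
 (c (a (nat_lit 0x1406))
 (c z e
 (c (a (nat_lit 0x26324c92d97d4a7)) e
 (c z e
 (c z e
 (c z e
 (c (a (nat_lit 0x1118bdd8309009c7)) e e))))))
 (c (a (nat_lit 0x2020203229a6))
 (c (a (nat_lit 0x1e4c6cc6fd31006)) e
 (c z e
 (c z e
 (c z e
 (c (a (nat_lit 0x730108df3ec9a48)) e e)))))
 (c (a (nat_lit 0x20203b6e89a6)) e
 (c (a (nat_lit 0x203587040187)) e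
 (c z e
 (c (a (nat_lit 0xb8b05c77037a7))
 (c (a (nat_lit 0xbed535006200009)) e e)
 (c z e
 (c z e
 (c z e
 (c (a (nat_lit 0x117e8dc3a363a6)) e
 (c (a (nat_lit 0x1baaa08060a306)) e
 (c z e
 (c z e
 (c (a (nat_lit 0x466b06060a244)) e
 (c (a (nat_lit 0x6b08100c2ca44)) e e))))))))))))))))))))))
 (c (nat_lit 1)
 (c z e
 (c z
 (c z e
 (c z e
 (c z e
 (c z e
 (c z e
 (c z e
 (c z e
 (c z e
 (c z e
 (c (a (nat_lit 0xe94938ce6e52087)) e e))))))))))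
 (c z e
 (c z e
 (c z e
 (c (a (nat_lit 0x202020203b07)) e
 (c (a (nat_lit 0x2020203e04e6)) e
 (c (a (nat_lit 0x121213a696846)) e
 (c (a (nat_lit 0x3f8a47a466)) e e)))))))))
 (c (a (nat_lit 0x6060808081))
 (c z
 (c z e
 (c z e
 (c z e
 (c z e
 (c z e
 (c z e
 (c z e
 (c z e
 (c (b (nat_lit 0x8bffeccf625e5)) e e)))))))))
 (c z e
 (c z e
 (c (a (nat_lit 0x2020202035c7)) e
 (c (a (nat_lit 0x2020203ea8c7)) e
 (c (a (nat_lit 0x35c76567)) e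
 (c (a (nat_lit 0xe0f1c886c3e7)) e e)))))))
 C743)))) Tr.c Tr.e (nat_lit 0) C.cx C.cy
noncomputable def C745 : Tr := beta% (fun (c : Nat → Tr → Tr → Tr) (e : Tr) (z : Nat) (a b : Nat → Nat) =>
 (c z
 (c (a (nat_lit 0x202020203b1724))
 (c (a (nat_lit 0x22ead48685859bc65)) e
 (c z e
 (c z e
 (c z e
 (c (a (nat_lit 0x1c3c365a804928408))
 (c z e
 (c (a (nat_lit 0x46e8c741e2fe8709088)) e
 (c (a (nat_lit 0x2cdce34022a181c6647)) e e)))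
 (c z e
 (c z e
 (c z e
 (c (a (nat_lit 0x11e445e283266c22a6)) e
 (c (a (nat_lit 0xc0d4b8aae776a4d66)) e
 (c (a (nat_lit 0x116fee16f28a8bc866)) e
 (c z e
 (c (a (nat_lit 0x6a688880acd75f0a8)) e e)))))))))))))
 (c (a (nat_lit 0x20202034f2cf06))
 (c z e
 (c z e
 (c z e
 (c z e
 (c z e
 (c z e
 (c z e
 (c (a (nat_lit 0x10adcc6eef3c8c8427)) e e))))))))
 (c (b (nat_lit 0x202033ef8dffe7))
 (c z e
 (c z e
 (c z e
 (c z e
 (c z e
 (c z e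
 (c (a (nat_lit 0x8a93678ea770cd1a6)) e e)))))))
 (c (a (nat_lit 0xa0b4d392c540e7))
 (c z e
 (c z e
 (c z e
 (c z e
 (c z e
 (c (a (nat_lit 0x133fbe72938835f067)) e
 (c (a (nat_lit 0xd4b870708c76bb168)) e e)))))))
 (c (a (nat_lit 0x194104f45018207))
 (c (a (nat_lit 0x6a69a49cf2d2c8848)) e
 (c z e
 (c z e
 (c z e
 (c (a (nat_lit 0xd0cea05a247a69c08)) e
 (c z e
 (c z e
 (c z e
 (c (a (nat_lit 0xaeb305d3152600008)) e e)))))))))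
 (c z e
 (c z e
 (c z e
 (c (a (nat_lit 0x14e72e9c66ae306))
 (c (a (nat_lit 0xe1b0f59bed50edf66)) e e)
 (c z e
 (c z e
 (c z e
 (c (a (nat_lit 0xd32f171f38822e7)) e
 (c z e
 (c z e
 (c z e
 (c (a (nat_lit 0x1e0d2dc8c7672da5)) e
 (c (a (nat_lit 0x1e1e8902e31eb8c3)) e e))))))))))))))))))
 (c z
 (c (a (nat_lit 0x505051e17b52005))
 (c z e
 (c z e
 (c z e
 (c z e
 (c z e
 (c z e
 (c z e
 (c (a (nat_lit 0x8aa4b297e53ad8cc6)) e e))))))))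
 (c (a (nat_lit 0x16173aeeda02867))
 (c z e
 (c z e
 (c z e
 (c z e
 (c z e
 (c z e
 (c z e
 (c (a (nat_lit 0x3c224a7a703e87c68)) e e))))))))
 (c (b (nat_lit 0x372d23187619fe7))
 (c z e
 (c z e
 (c z e
 (c z e
 (c (a (nat_lit 0x3ca106562cb6d8228)) e e))))) e)))
 (c z
 (c z e
 (c (a (nat_lit 0x1774f50aec6a61c7)) e
 (c z e
 (c z e
 (c z e
 (c z e
 (c z e
 (c z e
 (c z e
 (c z e
 (c z e
 (c z e
 (c z e
 (c (a (nat_lit 0x102ba38463e383a5)) e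
 (c (a (nat_lit 0x106020c1a1216104)) e e)))))))))))))))
 (c z
 (c z e
 (c (a (nat_lit 0x130aaa6b6320e486))
 (c z e
 (c z e
 (c (a (nat_lit 0xd652aeec606f5e5e9)) e e)))
 (c z e
 (c z e
 (c z e
 (c (b (nat_lit 0x626ffe3a1e33186))
 (c (a (nat_lit 0xc7a736fb5f1e88007)) e e)
 (c z e
 (c z e
 (c z e
 (c (a (nat_lit 0x3efff9213376606)) e
 (c z e
 (c z e
 (c z e
 (c (a (nat_lit 0xcb54da68d8a05a6)) e
 (c (a (nat_lit 0x140c852c24600006)) e e)))))))))))))))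
 (c z
 (c (a (nat_lit 0x10547509a098eea4))
 (c (a (nat_lit 0xcaf2da8720b1254e7)) e
 (c z e
 (c z e
 (c z e
 (c (a (nat_lit 0x6a6ab1afc4fa0e528)) e e)))))
 (c z e
 (c z e
 (c (a (nat_lit 0x17b8595533b47706)) e
 (c (a (nat_lit 0x2c1a08081a31b87))
 (c (a (nat_lit 0x1851a36bae04000008)) e e)
 (c z e
 (c z e
 (c z e
 (c (b (nat_lit 0x1ffff14587648408)) e
 (c z e
 (c z e
 (c z e
 (c (a (nat_lit 0x128ccb4687040006)) e
 (c (a (nat_lit 0x18150b6600000005)) e e))))))))))))))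
 (c z e
 (c z e
 (c z
 (c z e
 (c (a (nat_lit 0x32323896bf47866)) e
 (c z e
 (c z e
 (c z e
 (c (a (nat_lit 0x553b7948fef7827)) e e))))))
 (c (a (nat_lit 0x2020202037e5))
 (c (a (nat_lit 0x2e2eaeb33dab4e5)) e
 (c z e
 (c z e
 (c z e
 (c (a (nat_lit 0x9ebb4f53399b447)) e e)))))
 (c (a (nat_lit 0x2020201e0d25)) e
 (c (a (nat_lit 0x2036a66266)) e
 (c (a (nat_lit 0x4051a6c32166)) e
 (c (a (nat_lit 0x85f55e9a58ce5))
 (c (a (nat_lit 0x7ee708a2b056008)) e e)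
 (c z e
 (c z e
 (c z e
 (c (a (nat_lit 0x3aa3069f004c5)) e
 (c (a (nat_lit 0xc72cbf1e6c525)) e
 (c z e
 (c z e
 (c (a (nat_lit 0x108583e2004085)) e
 (c (a (nat_lit 0xa670360607324)) e e))))))))))))))))))))))) Tr.c Tr.e (nat_lit 0) C.cx C.cy
noncomputable def C746 : Tr := beta% (fun (c : Nat → Tr → Tr → Tr) (e : Tr) (z : Nat) (a b : Nat → Nat) =>
 (c (a (nat_lit 0x4040404041))
 (c z
 (c (a (nat_lit 0x2020202037eca4))
 (c z e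
 (c z e
 (c z e
 (c z e
 (c z e
 (c z e
 (c z e
 (c z e
 (c z e
 (c z e
 (c z e
 (c (a (nat_lit 0xb4aed0b3056d9c906)) e e))))))))))))
 (c (a (nat_lit 0x20202037106e06)) e
 (c (a (nat_lit 0x20203551efa927)) e
 (c (a (nat_lit 0x30318f6536de9a7))
 (c z e
 (c z e
 (c z e
 (c z e
 (c z e
 (c (a (nat_lit 0xa4d99df58e8f44ec6)) e e))))))
 (c z e
 (c z e
 (c z e
 (c z e
 (c z e
 (c z e
 (c z e
 (c z e
 (c z e
 (c z e
 (c z e
 (c z e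
 (c z e
 (c (a (nat_lit 0x115424c5230fa003)) e e))))))))))))))))))
 (c z
 (c (a (nat_lit 0x202037eeee2626)) e
 (c (a (nat_lit 0x20322f8d856188)) e e))
 (c z e
 (c z e
 (c z e
 (c z e
 (c z e
 (c z e
 (c (a (nat_lit 0x2020202039e5)) e
 (c (a (nat_lit 0x202020332ac6)) e
 (c (a (nat_lit 0x20203185a2c7)) e
 (c (a (nat_lit 0x2e2fc0e894de6)) e e))))))))))))
 (c (a (nat_lit 0x4040404041))
 (c z
 (c (a (nat_lit 0x424322daf8be145))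
 (c z e
 (c z e
 (c z e
 (c z e
 (c z e
 (c z e
 (c z e
 (c z e
 (c (a (nat_lit 0x64749a7e643e77907)) e e))))))))) e)
 (c z e
 (c z e
 (c z e
 (c z e
 (c z e
 (c (a (nat_lit 0x202020203b66)) e
 (c (a (nat_lit 0x2020203f2505)) e
 (c (a (nat_lit 0x202036e60386)) e
 (c (a (nat_lit 0x2021504a2c467)) e e))))))))))
 (c (a (nat_lit 0x6060606061))
 (c z e
 (c z e
 (c z e
 (c z e
 (c (a (nat_lit 0x202020203307)) e
 (c (a (nat_lit 0x2020203ee7c6)) e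
 (c (a (nat_lit 0x2020336b8146)) e
 (c (a (nat_lit 0x20396d41c366)) e e))))))))
 (c (a (nat_lit 0x8080808081))
 (c z e
 (c z e
 (c (a (nat_lit 0x2020202032a7)) e
 (c (a (nat_lit 0x2020203828a7)) e
 (c (a (nat_lit 0x202039ec6567)) e
 (c (a (nat_lit 0x203fd3e6a586)) e
 (c z e
 (c z e
 (c z e
 (c z e
 (c z e
 (c z e
 (c z e
 (c z e
 (c z e
 (c z e
 (c z e
 (c z e
 (c (a (nat_lit 0x7757e00e72005)) e e)))))))))))))))))))
 (c (a (nat_lit 0x6060606061))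
 (c (a (nat_lit 0x15a6))
 (c z e
 (c z e
 (c z e
 (c z e
 (c z e
 (c (a (nat_lit 0xd10702b04c30666)) e e))))))
 (c (a (nat_lit 0x202020352ac7)) e
 (c (a (nat_lit 0x2020334a09c8)) e
 (c (a (nat_lit 0x2039cfeda767)) e e))))
 (c (a (nat_lit 0x2020202001))
 (c (a (nat_lit 0x20203bee2cc6))
 (c z e
 (c z e
 (c z e
 (c z e
 (c (b (nat_lit 0x1612d37fec3765a5)) e e)))))
 (c (a (nat_lit 0x2223249ca6788)) e e))
 (c (a (nat_lit 0x8080808081)) e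
 (c (a (nat_lit 0x2020202021)) e
 (c (a (nat_lit 0x10101012121)) e
 (c (a (nat_lit 0x18181818181))
 (c z e
 (c z e
 (c z e
 (c z e
 (c z e
 (c z e
 (c z e
 (c z e
 (c z e
 (c z e
 (c (a (nat_lit 0x4e120000001)) e e)))))))))))
 (c (a (nat_lit 0x1e1e1e1e1c1))
 (c z e
 (c z e
 (c z e
 (c z e
 (c z e
 (c z e
 (c z e
 (c z e
 (c (a (nat_lit 0x12b6b000001)) e e)))))))))
 (c (nat_lit 1)
 (c z e
 (c z e
 (c z e
 (c z e
 (c z e
 (c z e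
 (c (b (nat_lit 0x1fe22db024a004)) e
 (c (a (nat_lit 0x14a140000003)) e
 (c (a (nat_lit 0x13600000000003)) e e)))))))))
 (c (a (nat_lit 0x1a1a1a1a1a1))
 (c z e
 (c z e
 (c z e
 (c z e
 (c (a (nat_lit 0xc8d91719be886)) e
 (c (a (nat_lit 0x14206040200004)) e
 (c (a (nat_lit 0x2414000000001)) e e)))))))
 (c (a (nat_lit 0x2020202021))
 (c z e
 (c z e
 (c (a (nat_lit 0x11d273130faee7)) e
 (c (a (nat_lit 0xdb04020202005)) e
 (c (a (nat_lit 0x10402020000005)) e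
 (c (a (nat_lit 0x1200000000001)) e e))))))
 (c (a (nat_lit 0x6060606061))
 (c (a (nat_lit 0x1131317150ef48)) e
 (c (a (nat_lit 0x1d80404080e044)) e
 (c (a (nat_lit 0x16205e5200001)) e
 (c (a (nat_lit 0x10000000001)) e e))))
 (c (a (nat_lit 0x12121012121)) e
 (c (a (nat_lit 0xc0c0c0c0c1)) e
 (c (a (nat_lit 0x2020203b24)) e
 (c (a (nat_lit 0x20202cf145)) e
 (c (a (nat_lit 0x202d1167c5)) e e))))))))))))))))))))) Tr.c Tr.e (nat_lit 0) C.cx C.cy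
noncomputable def C747 : Tr := beta% (fun (c : Nat → Tr → Tr → Tr) (e : Tr) (z : Nat) (a b : Nat → Nat) =>
 (c z
 (c z
 (c (a (nat_lit 0xae1dbd5a816ecaf23))
 (c z e
 (c z e
 (c z e
 (c z e
 (c z e
 (c z e
 (c z e
 (c z e
 (c z e
 (c z e
 (c z e
 (c (a (nat_lit 0x201c3c2012dc42394e7)) e e))))))))))))
 (c z e
 (c z e
 (c z e
 (c z e
 (c z e
 (c z e
 (c z e
 (c z e
 (c z e
 (c z e
 (c (a (nat_lit 0xaaac98806482e52e6)) e e))))))))))))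
 (c z
 (c z e
 (c z e
 (c z e
 (c z e
 (c z e
 (c z e
 (c z e
 (c z e
 (c z e
 (c (a (nat_lit 0xcfd960ae90eb2f986)) e e))))))))))
 (c (a (nat_lit 0x20202020203806)) e
 (c (a (nat_lit 0x202020203bf0e6))
 (c z e
 (c z e
 (c z e
 (c z e
 (c z e
 (c z e
 (c z e
 (c z e
 (c z e
 (c z e
 (c z e
 (c z e
 (c (a (nat_lit 0x26342e3a656a0000a)) e e)))))))))))))
 (c (a (nat_lit 0x20202039f2f067))
 (c z e
 (c z e
 (c z e
 (c z e
 (c z e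
 (c z e
 (c z e
 (c (a (nat_lit 0x14dd3694ccb38f51a7)) e e))))))))
 (c (a (nat_lit 0x20203af4542727)) e
 (c (a (nat_lit 0x2c2d873d3684427)) e
 (c z e
 (c z e
 (c z e
 (c z e
 (c z e
 (c z e
 (c z e
 (c z e
 (c z e
 (c z e
 (c z e
 (c z e
 (c (b (nat_lit 0x1f5bf91ff22b8224)) e e))))))))))))))))))))
 (c z
 (c (a (nat_lit 0x20202020203686)) e
 (c (a (nat_lit 0x202020203650e7)) e
 (c (a (nat_lit 0x20202034f12f88)) e
 (c (a (nat_lit 0x20203a14b2a708)) e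
 (c (a (nat_lit 0x2035f2f36903c8)) e e)))))
 (c z
 (c (a (nat_lit 0x2020203ef495c6)) e
 (c (a (nat_lit 0x2020346eed6088))
 (c z e
 (c z e
 (c z e
 (c z e
 (c z e
 (c z e
 (c z e
 (c (a (nat_lit 0x7c4870b0de8e69508)) e e))))))))
 (c (a (nat_lit 0x16176718f854068)) e e)))
 (c z
 (c (a (nat_lit 0x2035102c80c547))
 (c z e
 (c z e
 (c z e
 (c z e
 (c z e
 (c z e
 (c (a (nat_lit 0xd4c094f2c8c0d7047)) e e)))))))
 (c z e
 (c z e
 (c z e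
 (c z e
 (c z e
 (c z e
 (c z e
 (c z e
 (c z e
 (c z e
 (c z e
 (c z e
 (c (a (nat_lit 0x1aefd264c807e885)) e e))))))))))))))
 (c z
 (c (a (nat_lit 0x1874b12784a5a2c7))
 (c z e
 (c z e
 (c z e
 (c z e
 (c z e
 (c z e
 (c z e
 (c (a (nat_lit 0x48d8b88539504ac88)) e e))))))))
 (c z e
 (c z e
 (c z e
 (c z e
 (c z e
 (c z e
 (c z e
 (c z e
 (c z e
 (c z e
 (c z e
 (c z e
 (c z e
 (c (a (nat_lit 0x8ba88e0c4444006)) e e)))))))))))))))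
 (c z e
 (c z
 (c z e
 (c z e
 (c z e
 (c z e
 (c z e
 (c z e
 (c (a (nat_lit 0x11d0aad670cf92e7)) e e)))))))
 (c z e
 (c z e
 (c z e
 (c (a (nat_lit 0x202020203547)) e
 (c (a (nat_lit 0x2020203cea87)) e
 (c (a (nat_lit 0x202037abca67)) e
 (c (a (nat_lit 0x2031abe84047)) e e))))))))))))))) Tr.c Tr.e (nat_lit 0) C.cx C.cy
noncomputable def C748 : Tr := beta% (fun (c : Nat → Tr → Tr → Tr) (e : Tr) (z : Nat) (a b : Nat → Nat) =>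
 (c z
 (c z
 (c (a (nat_lit 0x4a4a27351a7344b84))
 (c z e
 (c z e
 (c z e
 (c z e
 (c z e
 (c z e
 (c z e
 (c z e
 (c z e
 (c (a (nat_lit 0x42e607060486a23207)) e
 (c z e
 (c (a (nat_lit 0x46946eba907fccaad47)) e e))))))))))))
 (c z e
 (c z e
 (c z e
 (c z e
 (c z e
 (c z e
 (c z e
 (c z e
 (c z e
 (c z e
 (c (a (nat_lit 0xa51ae6c49274690c6)) e e))))))))))))
 (c z e
 (c z
 (c z e
 (c z e
 (c z e
 (c z e
 (c z e
 (c z e
 (c z e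
 (c z e
 (c z e
 (c (a (nat_lit 0xf12d5328a98596606)) e
 (c z e
 (c z e
 (c z e
 (c z e
 (c (a (nat_lit 0x1e9c46460d41400004)) e e)))))))))))))))
 (c (a (nat_lit 0x202020202036c6))
 (c z e
 (c z e
 (c z e
 (c z e
 (c z e
 (c z e
 (c z e
 (c (a (nat_lit 0x1869ab28656707d066)) e e))))))))
 (c (a (nat_lit 0x2020202031ac27)) e
 (c (a (nat_lit 0x2020203c571727)) e
 (c (a (nat_lit 0x2020375191a727)) e
 (c (a (nat_lit 0x203b13754a6647)) e e))))))))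
 (c z
 (c z
 (c z e
 (c z e
 (c z e
 (c z e
 (c z e
 (c z e
 (c z e
 (c z e
 (c z e
 (c z e
 (c (a (nat_lit 0xc73d1efb02be9d746)) e e)))))))))))
 (c (a (nat_lit 0x202020202038c5)) e
 (c (a (nat_lit 0x141414141589845))
 (c z e
 (c z e
 (c z e
 (c z e
 (c z e
 (c z e
 (c z e
 (c (a (nat_lit 0x8f122ca2d4e8d2206)) e
 (c z e
 (c (a (nat_lit 0xd0e319115fd8ab1a7)) e e))))))))))
 (c (a (nat_lit 0x20202033f0aa67)) e
 (c (a (nat_lit 0x20203451302ce7))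
 (c z e
 (c z e
 (c z e
 (c z e
 (c (a (nat_lit 0x1aa7176f2e9079346)) e e)))))
 (c (a (nat_lit 0x20322e8dea7127))
 (c z e
 (c z e
 (c z e
 (c (a (nat_lit 0x3678e88c685323127)) e e))))
 (c z e
 (c z e
 (c z e
 (c z e
 (c z e
 (c z e
 (c z e
 (c z e
 (c z e
 (c z e
 (c (b (nat_lit 0x128ac19fe0402005)) e
 (c z e
 (c (a (nat_lit 0xc81028302e8b1c3)) e e)))))))))))))))))))
 (c z
 (c (a (nat_lit 0x202020203148a5))
 (c z e
 (c z e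
 (c z e
 (c z e
 (c z e
 (c z e
 (c z e
 (c z e
 (c z e
 (c (a (nat_lit 0x1151d45650c8236706)) e e))))))))))
 (c (a (nat_lit 0x2020203ad58e86)) e
 (c (a (nat_lit 0x202031ac06c307)) e
 (c (a (nat_lit 0x338fcfe88647)) e
 (c z e
 (c z e
 (c z e
 (c z e
 (c z e
 (c z e
 (c z e
 (c z e
 (c z e
 (c z e
 (c (b (nat_lit 0x1e9f8e5fe1084184)) e
 (c (a (nat_lit 0x15ad02a70aa72005)) e e))))))))))))))))
 (c z
 (c (a (nat_lit 0x20203a1849c105)) e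
 (c (a (nat_lit 0x2a2b550c7a4cbc7)) e
 (c z e
 (c (a (nat_lit 0x16528aa207cee1a6)) e e))))
 (c z e
 (c z e
 (c z e
 (c z
 (c z e
 (c z e
 (c z e
 (c z e
 (c (b (nat_lit 0x198b8bffec06c0c6)) e e)))))
 (c z
 (c z e
 (c z e
 (c z e
 (c z e
 (c z e
 (c z e
 (c z e
 (c z e
 (c z e
 (c (a (nat_lit 0xcf58b28800001)) e e))))))))))
 (c z e
 (c z
 (c (a (nat_lit 0x582d10f745632c5)) e e)
 (c (a (nat_lit 0x2020203aa5)) e
 (c (a (nat_lit 0x2020203aec05)) e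
 (c (a (nat_lit 0x20203e9903c4)) e
 (c (a (nat_lit 0xa0bfd703e043)) e e)))))))))))))))) Tr.c Tr.e (nat_lit 0) C.cx C.cy
noncomputable def C749 : Tr := beta% (fun (c : Nat → Tr → Tr → Tr) (e : Tr) (z : Nat) (a : Nat → Nat) =>
 (c (a (nat_lit 0x60606061))
 (c (a (nat_lit 0xc0c0c0c0c1))
 (c z
 (c z
 (c z e
 (c (a (nat_lit 0x82828282b332a5562))
 (c z e
 (c z e
 (c z e
 (c z e
 (c z e
 (c z e
 (c z e
 (c z e
 (c z e
 (c z e
 (c z e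
 (c z e
 (c (a (nat_lit 0x2e305e62825c40c33a7)) e e)))))))))))))
 (c (a (nat_lit 0x24242416381a5f3e5)) e
 (c (a (nat_lit 0x4646609864a1794c3))
 (c z e
 (c z e
 (c z e
 (c z e
 (c z e
 (c z e
 (c z e
 (c z e
 (c z e
 (c z e
 (c (a (nat_lit 0x6a607a585cc956ec8a7)) e e)))))))))))
 (c z e
 (c z e
 (c z e
 (c z e
 (c z e
 (c z e
 (c z e
 (c z e
 (c z e
 (c z e
 (c (a (nat_lit 0x15b4f3d6302dc97144)) e
 (c z e
 (c (a (nat_lit 0xaac8cce0f8d2d54e5)) e e)))))))))))))))))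
 (c z
 (c (a (nat_lit 0x4a4a4ae70afc93524))
 (c z e
 (c z e
 (c z e
 (c z e
 (c z e
 (c z e
 (c z e
 (c z e
 (c z e
 (c z e
 (c z e
 (c (a (nat_lit 0x103e8448a4867b8c987)) e
 (c (a (nat_lit 0x3e7e80a8924f3b58848)) e e)))))))))))))
 (c (a (nat_lit 0x161668a29a77cd7c6))
 (c z e
 (c z e
 (c z e
 (c z e
 (c z e
 (c z e
 (c z e
 (c z e
 (c (a (nat_lit 0xe24264c364a6c419c8)) e
 (c (a (nat_lit 0x120c6c78867675d0a67)) e
 (c (a (nat_lit 0x2e464c684c710886b08)) e e)))))))))))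
 (c z e
 (c z e
 (c z e
 (c z e
 (c z e
 (c z e
 (c z e
 (c z e
 (c z e
 (c z e
 (c (a (nat_lit 0x103415efcdcb26c806)) e e)))))))))))))
 (c z e
 (c z e
 (c z
 (c z e
 (c z e
 (c z e
 (c z e
 (c z e
 (c z e
 (c z e
 (c (a (nat_lit 0x1ed34dceeb0fb9ae84)) e
 (c (a (nat_lit 0xf70d1ae0cb12fcf06)) e e)))))))))
 (c (a (nat_lit 0x20202020203564))
 (c z e
 (c z e
 (c z e
 (c z e
 (c z e
 (c (a (nat_lit 0x1e2769ec560f335d64)) e
 (c (a (nat_lit 0xf289537377b9f9404)) e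
 (c (a (nat_lit 0x1312126d95366ef4c5)) e e))))))))
 (c (a (nat_lit 0x2020202030cd25)) e
 (c (a (nat_lit 0x2020203550af05))
 (c z e
 (c z e
 (c z e
 (c z e
 (c z e
 (c (a (nat_lit 0xdcb6fb1ad46484366)) e e))))))
 (c (a (nat_lit 0x20203b72526e65))
 (c z e
 (c z e
 (c (a (nat_lit 0x18b794bbd65692fd66)) e
 (c (a (nat_lit 0xd4bf352714ab05ee6)) e e))))
 (c (a (nat_lit 0x20320967666745)) e
 (c z e
 (c z e
 (c z e
 (c z e
 (c z e
 (c z e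
 (c z e
 (c z e
 (c (a (nat_lit 0x154529c9074423a5)) e
 (c (a (nat_lit 0x83ab770a42200e3)) e
 (c (a (nat_lit 0x197b940785a4e463)) e
 (c (a (nat_lit 0x1770042221c14003)) e e))))))))))))))))))))))
 C748)
 (c (a (nat_lit 0xe0e0e0e0e1)) C747
 C746))
 (c (a (nat_lit 0xa0a0a0a1))
 (c (a (nat_lit 0x6060606061))
 (c z
 (c z
 (c z e
 (c z e
 (c z e
 (c z e
 (c z e
 (c z e
 (c z e
 (c z e
 (c z e
 (c z e
 (c z e
 (c z e
 (c (a (nat_lit 0x173a9d7f32a6adff83)) e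
 (c (a (nat_lit 0x8290ca6c729479905)) e
 (c (a (nat_lit 0x1a322846564c412c7)) e
 (c (a (nat_lit 0x2c203a5c545c5d0a7)) e e))))))))))))))))
 (c (a (nat_lit 0x80808080809903))
 (c (a (nat_lit 0x5a1a8474525726be6)) e
 (c z e
 (c z e
 (c z e
 (c (a (nat_lit 0x10142a162c48212a8)) e
 (c z e
 (c z e
 (c z e
 (c (a (nat_lit 0x93803e663e4d22c05)) e
 (c (a (nat_lit 0x1dca4d2c6db8944de5)) e
 (c z e
 (c (a (nat_lit 0x5e5052602c06692e7)) e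
 (c (a (nat_lit 0x4a7c96a49cb11de27)) e e)))))))))))))
 (c (a (nat_lit 0xa0a0a0a0aed384))
 (c z e
 (c z e
 (c z e
 (c z e
 (c z e
 (c z e
 (c (a (nat_lit 0x64ee903a4e8102385)) e
 (c (a (nat_lit 0x925e4c407a974a7a6)) e
 (c (a (nat_lit 0x9c7e88db0b23a4925)) e e)))))))))
 (c (a (nat_lit 0x20202033500b85))
 (c z e
 (c z e
 (c z e
 (c z e
 (c z e
 (c (a (nat_lit 0x1047854506ea4b8786)) e e))))))
 (c (a (nat_lit 0x181819bd8d5a865))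
 (c z e
 (c z e
 (c z e
 (c z e
 (c z e
 (c (a (nat_lit 0xa6f78f8ad72a9cd66)) e
 (c z e
 (c (a (nat_lit 0xcee2a0ecca9491347)) e
 (c z e
 (c (a (nat_lit 0x8cf2dcfb27e34ae87)) e
 (c (a (nat_lit 0x6c6e5d41189c00008)) e e)))))))))))
 (c (a (nat_lit 0x389612c600e5))
 (c z e
 (c z e
 (c z e
 (c z e
 (c z e
 (c z e
 (c z e
 (c z e
 (c (a (nat_lit 0xcb2793adacdefa006)) e e)))))))))
 (c (a (nat_lit 0x15726f0543e205)) e
 (c (a (nat_lit 0x12ad8ee98ba84046))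
 (c z e
 (c (a (nat_lit 0x867a2c60846509c47)) e
 (c z e
 (c z e
 (c (a (nat_lit 0x423a381d065c593c7)) e e)))))
 (c z e
 (c (a (nat_lit 0xa2cf7f5f2de2be4)) e
 (c z e
 (c z e
 (c z e
 (c (a (nat_lit 0xad20fecec8dc366)) e
 (c z e
 (c z e
 (c z e
 (c (a (nat_lit 0x137e03d0886e4383)) e
 (c (a (nat_lit 0x10a36a0567e2e084)) e
 (c (a (nat_lit 0xe336ef2adcb6c44)) e
 (c (a (nat_lit 0x1926f4a260200002)) e e)))))))))))))))))))))
 C745)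
 C744)
 C742))) Tr.c Tr.e (nat_lit 0) C.cx
noncomputable def C750 : Tr := beta% (fun (c : Nat → Tr → Tr → Tr) (e : Tr) (z : Nat) (a b : Nat → Nat) =>
 (c (a (nat_lit 0xa0a0a0a0a1))
 (c z
 (c (a (nat_lit 0x1010118aa08ef45))
 (c z e
 (c z e
 (c z e
 (c z e
 (c z e
 (c z e
 (c z e
 (c (a (nat_lit 0xb2d694eee5b6bed86)) e e))))))))
 (c (a (nat_lit 0x2035cc6b6a6127)) e e))
 (c z e
 (c z e
 (c z e
 (c z e
 (c z e
 (c z e
 (c (a (nat_lit 0x2020202030e7)) e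
 (c (a (nat_lit 0x20202033c2a7)) e
 (c (a (nat_lit 0x202037626127)) e
 (c (a (nat_lit 0x1222a1a4e7)) e e)))))))))))
 (c (a (nat_lit 0xa0a0a0a0a1))
 (c z
 (c z e
 (c z e
 (c z e
 (c z e
 (c z e
 (c z e
 (c z e
 (c z e
 (c z e
 (c (a (nat_lit 0x82df433704cc9e7)) e
 (c (a (nat_lit 0x10d85876f74b0d07)) e
 (c z e
 (c z e
 (c z e
 (c z e
 (c (a (nat_lit 0x9c5b3a04a00004)) e e))))))))))))))))
 (c z e
 (c z e
 (c z e
 (c z e
 (c (a (nat_lit 0x2020202030a7)) e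
 (c (a (nat_lit 0x20202032c4a7)) e
 (c (a (nat_lit 0x20203624a387)) e
 (c (a (nat_lit 0x203904428587)) e e)))))))))
 (c (a (nat_lit 0x8080808081))
 (c z e
 (c z e
 (c z e
 (c (a (nat_lit 0x202020203e67)) e
 (c (a (nat_lit 0x202020376587)) e
 (c (a (nat_lit 0x202037498387)) e
 (c (a (nat_lit 0x2425ca7a62947)) e e)))))))
 (c (a (nat_lit 0x6060606061))
 (c z e
 (c (a (nat_lit 0x2020202036a7)) e
 (c (a (nat_lit 0x2020203c25c7)) e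
 (c (a (nat_lit 0x20203c2de267)) e
 (c (a (nat_lit 0x17aee2c567)) e e)))))
 (c (a (nat_lit 0xc0c0c0c0c1))
 (c (a (nat_lit 0x202020388ba6)) e
 (c (a (nat_lit 0x20203786a288)) e
 (c (a (nat_lit 0x302821c288)) e e)))
 (c (a (nat_lit 0x4040204041))
 (c (a (nat_lit 0x203883c648e7)) e
 (c z e
 (c z e
 (c z e
 (c z e
 (c z e
 (c z e
 (c z e
 (c z e
 (c z e
 (c z e
 (c z e
 (c (a (nat_lit 0x1e7e0651e2e325)) e e)))))))))))))
 (c (a (nat_lit 0xe0e0e0e0e1)) e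
 (c (a (nat_lit 0x16161616161))
 (c z e
 (c z e
 (c z e
 (c z e
 (c z e
 (c z e
 (c z e
 (c z e
 (c (a (nat_lit 0xa52e3820289a4)) e e)))))))))
 (c (a (nat_lit 0xe0e0e0e0e1))
 (c z e
 (c z e
 (c z e
 (c z e
 (c z e
 (c z e
 (c z e
 (c z e
 (c z e
 (c z e
 (c (b (nat_lit 0x1ff41fc7c00003)) e
 (c (a (nat_lit 0x13ac2000000004)) e e))))))))))))
 (c (a (nat_lit 0xc0e0e0e0a1))
 (c z e
 (c z e
 (c z e
 (c z e
 (c z e
 (c z e
 (c z e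
 (c z e
 (c (a (nat_lit 0x2093abee90004)) e
 (c (a (nat_lit 0xb744b20000005)) e
 (c (a (nat_lit 0x12400000000004)) e e)))))))))))
 (c (nat_lit 1)
 (c z e
 (c z e
 (c z e
 (c z e
 (c z e
 (c z e
 (c (b (nat_lit 0x1fffe47690e003)) e
 (c (a (nat_lit 0x136103400001)) e
 (c (a (nat_lit 0xc408000000001)) e e)))))))))
 (c (a (nat_lit 0x6060606061))
 (c z e
 (c z e
 (c z e
 (c z e
 (c (a (nat_lit 0xd10938f8dc645)) e
 (c (a (nat_lit 0x1460e020202004)) e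
 (c (a (nat_lit 0x6e180c0000001)) e
 (c (a (nat_lit 0xa00000000001)) e e))))))))
 (c (a (nat_lit 0x6080808081))
 (c z e
 (c z e
 (c (a (nat_lit 0x15967737371307)) e
 (c (a (nat_lit 0x1b40a040604044)) e
 (c (a (nat_lit 0x300e1c0600001)) e
 (c (a (nat_lit 0x1a16000000001)) e e))))))
 (c (a (nat_lit 0x4040406061))
 (c (a (nat_lit 0xfd010302fee08)) e
 (c (a (nat_lit 0x1d4040e0c04084)) e
 (c (a (nat_lit 0x6844362c001)) e
 (c (a (nat_lit 0x4022080000001)) e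
 (c (a (nat_lit 0x1600000000001)) e e)))))
 (c (a (nat_lit 0x1010100e0e1)) e
 (c (a (nat_lit 0xa0a0a0a0a1)) e
 (c (a (nat_lit 0xc0c0c0e0e1)) e
 (c (a (nat_lit 0x2020203b65)) e
 (c (a (nat_lit 0x40405b90e5)) e
 (c (a (nat_lit 0x3b50b385)) e e))))))))))))))))))))) Tr.c Tr.e (nat_lit 0) C.cx C.cy
noncomputable def C751 : Tr := beta% (fun (c : Nat → Tr → Tr → Tr) (e : Tr) (z : Nat) (a b : Nat → Nat) =>
 (c z
 (c z
 (c (a (nat_lit 0x6c6c18ceb079211a4))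
 (c z e
 (c z e
 (c z e
 (c z e
 (c z e
 (c z e
 (c z e
 (c z e
 (c z e
 (c z e
 (c z e
 (c z e
 (c z e
 (c z e
 (c z e
 (c (a (nat_lit 0x7897860000000000007)) e e))))))))))))))))
 (c z e
 (c z e
 (c z e
 (c z e
 (c z e
 (c z e
 (c z e
 (c z e
 (c z e
 (c z e
 (c (a (nat_lit 0x7a6888666a5a5d346)) e
 (c (a (nat_lit 0x1273d1316eaf0ce786)) e e)))))))))))))
 (c z
 (c z e
 (c z e
 (c z e
 (c z e
 (c z e
 (c z e
 (c z e
 (c z e
 (c z e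
 (c z e
 (c (a (nat_lit 0x66a47a644c3f22f07)) e
 (c (a (nat_lit 0x19d69612b3320892a7)) e e))))))))))))
 (c z
 (c z e
 (c z e
 (c z e
 (c z e
 (c z e
 (c z e
 (c z e
 (c z e
 (c z e
 (c z e
 (c z e
 (c z e
 (c z e
 (c z e
 (c (a (nat_lit 0x212832126a0e00005)) e e)))))))))))))))
 (c (a (nat_lit 0x2020203be6))
 (c z e
 (c z e
 (c z e
 (c z e
 (c z e
 (c z e
 (c z e
 (c (a (nat_lit 0xa8945c28326717007)) e
 (c (a (nat_lit 0xa07e525717aefb087)) e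
 (c z e
 (c z e
 (c z e
 (c z e
 (c (a (nat_lit 0x15ab20e1a040000006)) e e))))))))))))))
 (c (a (nat_lit 0x20202020332827))
 (c z e
 (c z e
 (c z e
 (c z e
 (c z e
 (c z e
 (c z e
 (c (a (nat_lit 0xb8aed99f5d1a78887)) e e))))))))
 (c (a (nat_lit 0x202020374e28a7)) e
 (c (a (nat_lit 0x20378d876887))
 (c z e
 (c z e
 (c z e
 (c (a (nat_lit 0x44669326c6b89aae7)) e e))))
 (c (a (nat_lit 0x2829eee4dee0be7)) e
 (c z e
 (c z e
 (c z e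
 (c z e
 (c z e
 (c z e
 (c z e
 (c z e
 (c z e
 (c (a (nat_lit 0x1f127010eded45a5)) e
 (c (a (nat_lit 0x1c37d8d2f1828884)) e e)))))))))))))))))))
 (c z
 (c z e
 (c (a (nat_lit 0x20202020203907)) e
 (c (a (nat_lit 0x202020203024a8))
 (c z e
 (c z e
 (c z e
 (c z e
 (c z e
 (c z e
 (c z e
 (c z e
 (c (a (nat_lit 0x9272a1c95312ac947)) e e)))))))))
 (c (a (nat_lit 0x202020398caae8))
 (c z e
 (c z e
 (c z e
 (c z e
 (c z e
 (c (a (nat_lit 0x1009886b9027a7e068)) e e))))))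
 (c (a (nat_lit 0x2020374be72928)) e
 (c (a (nat_lit 0x392e08c94888)) e e))))))
 (c z
 (c (a (nat_lit 0x202020203d4986))
 (c z e
 (c z e
 (c z e
 (c z e
 (c z e
 (c z e
 (c z e
 (c (a (nat_lit 0xd8648c7c585f63327)) e e))))))))
 (c (a (nat_lit 0x202020362a27c8))
 (c z e
 (c z e
 (c z e
 (c z e
 (c z e
 (c z e
 (c (a (nat_lit 0x9e4034687aa70cd28)) e e)))))))
 (c (a (nat_lit 0x20203769c768a8)) e
 (c (a (nat_lit 0x20384c4727c828)) e e))))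
 (c z
 (c (a (nat_lit 0x2020382a8825a7)) e
 (c (a (nat_lit 0x39cae888cda8))
 (c z e
 (c z e
 (c z e
 (c z e
 (c z e
 (c (b (nat_lit 0x185e8dfe9a6c253a8)) e e)))))) e))
 (c z e
 (c z e
 (c z e
 (c z e
 (c z e
 (c z e
 (c z e
 (c (a (nat_lit 0x2020202038c7)) e
 (c (a (nat_lit 0x20202038e487)) e
 (c (a (nat_lit 0x20203364a027)) e
 (c (a (nat_lit 0x42433a5436827)) e e)))))))))))))))) Tr.c Tr.e (nat_lit 0) C.cx C.cy
noncomputable def C752 : Tr := beta% (fun (c : Nat → Tr → Tr → Tr) (e : Tr) (z : Nat) (a b : Nat → Nat) =>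
 (c z
 (c z
 (c z e
 (c z e
 (c z e
 (c z e
 (c z e
 (c z e
 (c z e
 (c z e
 (c z e
 (c z e
 (c z e
 (c z e
 (c z e
 (c z e
 (c z e
 (c (a (nat_lit 0x8a98a4ae86a9a1a49c7)) e e))))))))))))))))
 (c (a (nat_lit 0x202020202184a2e05)) e
 (c (a (nat_lit 0x181818194e4c46fe5)) e
 (c (a (nat_lit 0x1e1e1f2042605b4a5))
 (c z e
 (c z e
 (c z e
 (c z e
 (c z e
 (c z e
 (c z e
 (c z e
 (c z e
 (c (a (nat_lit 0x489a70203a302904d87)) e
 (c (a (nat_lit 0x8a9a96aa8864cf63528)) e e)))))))))))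
 (c (a (nat_lit 0x202100a64c4f79405))
 (c z e
 (c z e
 (c z e
 (c z e
 (c z e
 (c z e
 (c z e
 (c (a (nat_lit 0xe24201410202f3aa08)) e
 (c (a (nat_lit 0x6662465a3e3474794a8)) e
 (c (a (nat_lit 0x76648842407eb552be8)) e e))))))))))
 (c z e
 (c z e
 (c z e
 (c z e
 (c z e
 (c z e
 (c z e
 (c z e
 (c (a (nat_lit 0x1e71fad9d5efe98665)) e
 (c (a (nat_lit 0x1316f810d04aa56846)) e
 (c z e
 (c z e
 (c (a (nat_lit 0x1a148d0bac2b2d2b64)) e e))))))))))))))))))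
 (c z
 (c (a (nat_lit 0x1c1c1c1d6caebe6c6))
 (c z e
 (c z e
 (c z e
 (c z e
 (c z e
 (c z e
 (c z e
 (c z e
 (c z e
 (c z e
 (c z e
 (c (a (nat_lit 0x4834f568c762ac97ce7)) e e))))))))))))
 (c (a (nat_lit 0x181819a0c8d2b9d67))
 (c z e
 (c z e
 (c z e
 (c z e
 (c z e
 (c z e
 (c z e
 (c z e
 (c z e
 (c (a (nat_lit 0x141a303c302c3c41329)) e
 (c (a (nat_lit 0x88def4bcba7a92f9d48)) e e)))))))))))
 (c (a (nat_lit 0x181970ccc655033c7))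
 (c z e
 (c z e
 (c z e
 (c z e
 (c z e
 (c z e
 (c z e
 (c (a (nat_lit 0xcadadee8c4cf1757a88)) e
 (c (a (nat_lit 0x24344230283c62af3e9)) e
 (c (a (nat_lit 0x666c34483a38b509409)) e e))))))))))
 (c z e
 (c z e
 (c z e
 (c z e
 (c z e
 (c z e
 (c z e
 (c z e
 (c z e
 (c z e
 (c z e
 (c (b (nat_lit 0xed131fff22f2f14e8)) e
 (c z e
 (c (a (nat_lit 0x102a05a1e1e1a34866)) e
 (c (a (nat_lit 0x13aac343a306316425)) e e))))))))))))))))))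
 (c z
 (c (a (nat_lit 0xa0aac48388f74fa7))
 (c z e
 (c z e
 (c z e
 (c z e
 (c z e
 (c z e
 (c z e
 (c z e
 (c (a (nat_lit 0x1e1c3a341a2c405f708)) e
 (c (a (nat_lit 0x2c383e442e5689271c8)) e
 (c (a (nat_lit 0x5a5c6c3a407c993b728)) e
 (c (a (nat_lit 0x627c9e645468a334ac9)) e e))))))))))))
 (c z e
 (c z e
 (c z e
 (c z e
 (c z e
 (c z e
 (c z e
 (c z e
 (c z e
 (c (b (nat_lit 0x11f4129fe866c36507)) e e)))))))))))
 (c z
 (c z e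
 (c z e
 (c z e
 (c z e
 (c z e
 (c z e
 (c z e
 (c z e
 (c z e
 (c (b (nat_lit 0x12aed41feea8683546)) e e))))))))))
 (c z
 (c z e
 (c z e
 (c z e
 (c z e
 (c z e
 (c z e
 (c z e
 (c (a (nat_lit 0x350cac9a524077126)) e
 (c (a (nat_lit 0x13523a762d2b1b5906)) e
 (c (a (nat_lit 0x167392b12d51cc75c6)) e e))))))))))
 (c z e
 (c (a (nat_lit 0x20202020203407))
 (c z e
 (c z e
 (c z e
 (c z e
 (c z e
 (c z e
 (c z e
 (c z e
 (c z e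
 (c z e
 (c z e
 (c (a (nat_lit 0x7f4960326c0000005)) e e))))))))))))
 (c (a (nat_lit 0x20202020350a07)) e
 (c (a (nat_lit 0x2020203eaa6947))
 (c z e
 (c z e
 (c (a (nat_lit 0x39375d0d8af8cfb86)) e e)))
 (c (a (nat_lit 0x202035078423e7)) e
 (c (a (nat_lit 0x1617c0bc80a2a86)) e
 (c z e
 (c z e
 (c z e
 (c z e
 (c z e
 (c z e
 (c z e
 (c (a (nat_lit 0x143ab06466254645)) e e)))))))))))))))))))) Tr.c Tr.e (nat_lit 0) C.cx C.cy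
noncomputable def C753 : Tr := beta% (fun (c : Nat → Tr → Tr → Tr) (e : Tr) (z : Nat) (a b : Nat → Nat) =>
 (c (a (nat_lit 0xe0e0e0e0e1))
 (c z C752
 (c z
 (c z
 (c (a (nat_lit 0x323233471cf46d245))
 (c z e
 (c z e
 (c z e
 (c z e
 (c z e
 (c z e
 (c z e
 (c z e
 (c z e
 (c z e
 (c z e
 (c (a (nat_lit 0x24ab06b8f27269a0e47)) e e))))))))))))
 (c (a (nat_lit 0x1a1b1cd4d47f3f1a7))
 (c z e
 (c z e
 (c z e
 (c z e
 (c z e
 (c z e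
 (c z e
 (c z e
 (c (a (nat_lit 0x14305e885c1278758a8)) e
 (c (a (nat_lit 0x242a52543c424d42b29)) e
 (c (a (nat_lit 0xdb20f0c6889b238d7a8)) e e))))))))))) e))
 (c z e
 (c z
 (c z e
 (c z e
 (c z e
 (c z e
 (c z e
 (c z e
 (c z e
 (c z e
 (c z e
 (c (a (nat_lit 0xcf256ee290896f547)) e
 (c (a (nat_lit 0x1455335110ce260e28)) e e)))))))))))
 (c z e
 (c (a (nat_lit 0x20202020203988)) e
 (c (a (nat_lit 0x202020203a0c68)) e
 (c (a (nat_lit 0x2020203fd16b68)) e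
 (c (a (nat_lit 0x2032a78765e9)) e
 (c (a (nat_lit 0xe0f96aa7c625c8))
 (c z e
 (c z e
 (c (a (nat_lit 0x8a8a988b3b30fb927)) e e))) e)))))))))
 (c z
 (c z
 (c z e
 (c z e
 (c z e
 (c z e
 (c z e
 (c z e
 (c z e
 (c z e
 (c z e
 (c (a (nat_lit 0x1efc2d2fe907c80906)) e
 (c (a (nat_lit 0x1d1038b16e2e2bb486)) e e)))))))))))
 (c z
 (c z e
 (c z e
 (c z e
 (c z e
 (c z e
 (c z e
 (c z e
 (c z e
 (c z e
 (c z e
 (c (a (nat_lit 0x123171520f09a694c8)) e e)))))))))))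
 (c (a (nat_lit 0x20202020203088))
 (c z e
 (c z e
 (c z e
 (c z e
 (c z e
 (c z e
 (c z e
 (c (a (nat_lit 0x1e4f94caa58ec848c7)) e e))))))))
 (c (a (nat_lit 0x20202020348648))
 (c z e
 (c z e
 (c z e
 (c z e
 (c z e
 (c z e
 (c (a (nat_lit 0x2f8ead754960f8946)) e e)))))))
 (c (a (nat_lit 0x2020203aee8888)) e
 (c (a (nat_lit 0x20203c8f28ab68)) e
 (c (a (nat_lit 0x3f27c76ca9e8)) e e)))))))
 (c z
 (c (a (nat_lit 0x20202020203c46))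
 (c z e
 (c z e
 (c z e
 (c z e
 (c z e
 (c z e
 (c z e
 (c z e
 (c z e
 (c (a (nat_lit 0x11ffd4b6d7b91b8986)) e e))))))))))
 (c (a (nat_lit 0x202020203be787)) e
 (c (a (nat_lit 0x20202036a842c8)) e
 (c (a (nat_lit 0x20203a8d274728)) e
 (c (a (nat_lit 0x203a49c424c488)) e e)))))
 (c z
 (c (a (nat_lit 0x2020203369e387)) e
 (c (a (nat_lit 0x2020396a42a488)) e
 (c (a (nat_lit 0x20390d0584e6e8)) e e)))
 (c z
 (c (a (nat_lit 0x203aca81c40aa7))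
 (c z e
 (c z e
 (c z e
 (c z e
 (c (a (nat_lit 0xba8aa6fcc25e49447)) e e))))) e)
 (c z e
 (c z e
 (c z e
 (c z e
 (c z e
 (c z e
 (c z e
 (c (a (nat_lit 0x2020202031e7)) e
 (c (a (nat_lit 0x2020203225a7)) e
 (c (b (nat_lit 0x20203c647fe6)) e
 (c (a (nat_lit 0x4243185822447)) e e)))))))))))))))))
 (c (a (nat_lit 0x12121212121)) C751
 (c (a (nat_lit 0x4040404041))
 (c z
 (c (a (nat_lit 0x202020202035e5))
 (c z e
 (c z e
 (c z e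
 (c z e
 (c z e
 (c z e
 (c z e
 (c z e
 (c z e
 (c (a (nat_lit 0xbcf4eca28aaf4f345)) e
 (c (a (nat_lit 0xbeb0867e977efa945)) e e)))))))))))
 (c (a (nat_lit 0x202020203c8906))
 (c z e
 (c z e
 (c z e
 (c z e
 (c z e
 (c z e
 (c z e
 (c z e
 (c (a (nat_lit 0xe312b2b89eb8ba767)) e e)))))))))
 (c (a (nat_lit 0x2020203aaf8d07))
 (c z e
 (c z e
 (c z e
 (c z e
 (c z e
 (c z e
 (c (a (nat_lit 0x1f5aea478de44b4fe7)) e e)))))))
 (c (a (nat_lit 0x20203c8f6caea7))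
 (c z e
 (c z e
 (c z e
 (c z e
 (c z e
 (c z e
 (c (a (nat_lit 0x8acad971124aa2b26)) e e)))))))
 (c (a (nat_lit 0x32cb860ce087))
 (c z e
 (c z e
 (c z e
 (c z e
 (c (a (nat_lit 0x3a3cf2844c58c7487)) e e)))))
 (c z e
 (c z e
 (c z e
 (c z e
 (c z e
 (c z e
 (c z e
 (c z e
 (c z e
 (c z e
 (c (a (nat_lit 0x12328fca6684c3e5)) e e))))))))))))))))
 (c z
 (c (a (nat_lit 0x2020203fed07c6)) e
 (c (a (nat_lit 0x202037adcb69c8)) e
 (c (a (nat_lit 0x2036eb28cae148)) e e)))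
 (c z
 (c (a (nat_lit 0x203991afcc20c7)) e e)
 (c z e
 (c z e
 (c z e
 (c z e
 (c z e
 (c z e
 (c (a (nat_lit 0x2020202030e7)) e
 (c (a (nat_lit 0x202020386327)) e
 (c (a (nat_lit 0x202033648267)) e
 (c (a (nat_lit 0x3c3decd043086)) e e)))))))))))))
 C750)))) Tr.c Tr.e (nat_lit 0) C.cx C.cy
noncomputable def C754 : Tr := beta% (fun (c : Nat → Tr → Tr → Tr) (e : Tr) (z : Nat) (a b : Nat → Nat) =>
 (c z
 (c z
 (c (a (nat_lit 0x727272725f3b076a3)) e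
 (c (a (nat_lit 0x181818b63e3e91486))
 (c z e
 (c z e
 (c z e
 (c z e
 (c z e
 (c z e
 (c z e
 (c z e
 (c z e
 (c (a (nat_lit 0x1e204064443e443dd68)) e e))))))))))
 (c (a (nat_lit 0x1818b87c487557ae6))
 (c z e
 (c z e
 (c z e
 (c z e
 (c z e
 (c z e
 (c (a (nat_lit 0x887070a8bc5e938a5e7)) e
 (c (a (nat_lit 0x582e7cd28c6c62cffa7)) e
 (c (a (nat_lit 0x24426238303267e48c8)) e
 (c (a (nat_lit 0x9cb8846a4a57701cc88)) e e))))))))))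
 (c z e
 (c z e
 (c z e
 (c z e
 (c z e
 (c z e
 (c z e
 (c z e
 (c (a (nat_lit 0x1258f16c0e4d460525)) e
 (c (a (nat_lit 0x118deeae4c28a3e626)) e
 (c z e
 (c z e
 (c (a (nat_lit 0xccdd3b4d4d353dc07)) e e))))))))))))))))
 (c z
 (c (a (nat_lit 0x1616c44c40e1878e6))
 (c z e
 (c z e
 (c z e
 (c z e
 (c z e
 (c z e
 (c z e
 (c z e
 (c (a (nat_lit 0x160c1a2c1a1a345d528)) e
 (c (a (nat_lit 0x141a3024222a2954689)) e
 (c (a (nat_lit 0x96f0985c4624f9c9b87)) e e)))))))))))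
 (c z e
 (c z e
 (c z e
 (c z e
 (c z e
 (c z e
 (c z e
 (c z e
 (c z e
 (c (a (nat_lit 0x1832adf06988e70446)) e e)))))))))))
 (c z
 (c z e
 (c z e
 (c z e
 (c z e
 (c z e
 (c z e
 (c z e
 (c z e
 (c z e
 (c (a (nat_lit 0xb2d504ba6a4238c67)) e e))))))))))
 (c z
 (c z e
 (c z e
 (c z e
 (c z e
 (c z e
 (c z e
 (c z e
 (c z e
 (c (a (nat_lit 0x1fbb777189a71dfa66)) e
 (c z e
 (c z e
 (c z e
 (c z e
 (c (a (nat_lit 0x4759e8a8eb258005)) e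
 (c (a (nat_lit 0x719a86905a0000005)) e e)))))))))))))))
 (c z
 (c z e
 (c z e
 (c z e
 (c z e
 (c z e
 (c z e
 (c z e
 (c (a (nat_lit 0x82b0c8926342ca467)) e e))))))))
 (c (a (nat_lit 0x20202020203327))
 (c z e
 (c z e
 (c z e
 (c z e
 (c z e
 (c (a (nat_lit 0x7b5c4e5e72632a6e6)) e
 (c (a (nat_lit 0x1007c8278eb2272267)) e e)))))))
 (c (a (nat_lit 0x202020203569e7))
 (c z e
 (c z e
 (c z e
 (c (a (nat_lit 0x14acb33b2f2e44eda6)) e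
 (c (a (nat_lit 0x466ba645e91000e6)) e e)))))
 (c (a (nat_lit 0x20202030e3c288)) e
 (c (a (nat_lit 0x20203246606627)) e
 (c (a (nat_lit 0x203147608724a7)) e e))))))))))
 (c z
 (c z
 (c z e
 (c z e
 (c z e
 (c z e
 (c z e
 (c z e
 (c z e
 (c z e
 (c z e
 (c (a (nat_lit 0x1708e424a267c5c225)) e
 (c (a (nat_lit 0x13ee8f6a6cca26c9a5)) e e)))))))))))
 (c z
 (c z e
 (c z e
 (c z e
 (c z e
 (c z e
 (c z e
 (c z e
 (c z e
 (c z e
 (c (a (nat_lit 0x1090cc27a3a7a50967)) e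
 (c (a (nat_lit 0x1671f0eb6e4a426527)) e e)))))))))))
 (c z e
 (c (a (nat_lit 0x20202020203267))
 (c z e
 (c z e
 (c z e
 (c z e
 (c z e
 (c z e
 (c z e
 (c (a (nat_lit 0x1254300e72f38f40e6)) e e))))))))
 (c (a (nat_lit 0x2020202030a6e7))
 (c z e
 (c z e
 (c z e
 (c z e
 (c (a (nat_lit 0x126c4e4e4b3638206)) e
 (c (a (nat_lit 0x14343038ad0a70906)) e e))))))
 (c (a (nat_lit 0x2020203aafe567)) e
 (c (a (nat_lit 0x80809022a266e8))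
 (c z e
 (c z e
 (c (b (nat_lit 0x621fe708c0f147c7)) e e)))
 (c (a (nat_lit 0x20300600884a87)) e
 (c z e
 (c z e
 (c z e
 (c z e
 (c z e
 (c z e
 (c z e
 (c z e
 (c z e
 (c (a (nat_lit 0x1008c6c7e1202006)) e e))))))))))))))))))
 (c z
 (c z
 (c z e
 (c z e
 (c z e
 (c z e
 (c z e
 (c z e
 (c z e
 (c z e
 (c z e
 (c (a (nat_lit 0xba8ad44a76686d106)) e e))))))))))
 (c (a (nat_lit 0x80808080809306))
 (c z e
 (c z e
 (c z e
 (c z e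
 (c z e
 (c z e
 (c z e
 (c (a (nat_lit 0x148708426b6b2e5006)) e e))))))))
 (c (a (nat_lit 0x202020203ca7c6)) e
 (c (a (nat_lit 0x20202033ca81c7)) e
 (c (a (nat_lit 0x2020372a80a507)) e
 (c (a (nat_lit 0x203623234865e7)) e e))))))
 (c z
 (c (a (nat_lit 0x20202020330465))
 (c z e
 (c z e
 (c z e
 (c z e
 (c z e
 (c (a (nat_lit 0xc358402ce4186c165)) e
 (c (a (nat_lit 0x1fceaaf7a7f1ecd945)) e e)))))))
 (c (a (nat_lit 0x202020316522a7)) e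
 (c (a (nat_lit 0x202033e8e0a2c7))
 (c z e
 (c z e
 (c z e
 (c z e
 (c (a (nat_lit 0xf918b4fd970f212e6)) e e)))))
 (c (a (nat_lit 0x326b21c44b07)) e e))))
 (c z
 (c (a (nat_lit 0x1414154e62166a6)) e
 (c (a (nat_lit 0x2032eac084c7c7)) e
 (c z e
 (c z e
 (c z e
 (c z e
 (c z e
 (c z e
 (c z e
 (c z e
 (c z e
 (c z e
 (c (b (nat_lit 0x1246268affe02025)) e e)))))))))))))
 (c z e
 (c z e
 (c z e
 (c z
 (c z e
 (c z e
 (c z e
 (c z e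
 (c z e
 (c z e
 (c z e
 (c z e
 (c z e
 (c z e
 (c (a (nat_lit 0x13010ad180400003)) e e)))))))))))
 (c z e
 (c z e
 (c z e
 (c z e
 (c (a (nat_lit 0x202020203145))
 (c (a (nat_lit 0x16502e8f5f675ae6)) e e)
 (c (a (nat_lit 0x2020203386a4)) e
 (c (a (nat_lit 0x20203083a204))
 (c (a (nat_lit 0x109190f1a0000008)) e
 (c (a (nat_lit 0xc40a00000000001)) e e))
 (c (a (nat_lit 0x1819ef2712ba4)) e e)))))))))))))))))) Tr.c Tr.e (nat_lit 0) C.cx C.cy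
noncomputable def C755 : Tr := beta% (fun (c : Nat → Tr → Tr → Tr) (e : Tr) (z : Nat) (a : Nat → Nat) =>
 (c z
 (c (a (nat_lit 0xa6a6a6a6a6a6a7c23)) e
 (c (a (nat_lit 0x1414141414158e8e6))
 (c z e
 (c z e
 (c z e
 (c z e
 (c z e
 (c z e
 (c z e
 (c z e
 (c z e
 (c z e
 (c z e
 (c (a (nat_lit 0x3e6a464d1f2c68e4307)) e e))))))))))))
 (c (a (nat_lit 0x12121212136e404a6)) e
 (c (a (nat_lit 0x28282829fc4a6e4a5))
 (c z e
 (c z e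
 (c z e
 (c z e
 (c z e
 (c z e
 (c z e
 (c z e
 (c (a (nat_lit 0x3842ed0ab8a2688dfa6)) e
 (c (a (nat_lit 0x3874d0a63e7014051a7)) e
 (c (a (nat_lit 0x7070a0b0aa8e42a7288)) e e)))))))))))
 (c (a (nat_lit 0x1414150c6c402f3e6))
 (c z e
 (c z e
 (c z e
 (c z e
 (c z e
 (c z e
 (c z e
 (c (a (nat_lit 0xa1e2e301c122a47a08)) e
 (c z e
 (c (a (nat_lit 0x3678706c30144e2fc28)) e e))))))))))
 (c (a (nat_lit 0x1415b8c45a6150d86))
 (c z e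
 (c z e
 (c z e
 (c z e
 (c z e
 (c (a (nat_lit 0x5c66723c684c0c9d167)) e
 (c (a (nat_lit 0x1a220c14140e46e54a9)) e
 (c (a (nat_lit 0x986244844c52a925488)) e
 (c (a (nat_lit 0x6c7e9856588ce97ee68)) e e)))))))))
 (c z e
 (c z e
 (c z e
 (c z e
 (c z e
 (c z e
 (c z e
 (c z e
 (c (a (nat_lit 0x1532338fabcaa764e7)) e e)))))))))))))))
 (c z
 (c (a (nat_lit 0x181818181968a29e6)) e
 (c (a (nat_lit 0x18181819be9088c27))
 (c z e
 (c z e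
 (c z e
 (c z e
 (c z e
 (c z e
 (c z e
 (c z e
 (c z e
 (c z e
 (c (a (nat_lit 0x9eb59bed5cd8401ec47)) e e)))))))))))
 (c (a (nat_lit 0x181819949e78651a7))
 (c z e
 (c z e
 (c z e
 (c z e
 (c z e
 (c z e
 (c z e
 (c (a (nat_lit 0x82ae9ca0a4ae86adc27)) e
 (c (a (nat_lit 0x242a3a342420265d209)) e
 (c (a (nat_lit 0x66e0e4968c385389a88)) e e))))))))))
 (c (a (nat_lit 0x1819a6ca8e6b41467))
 (c z e
 (c z e
 (c z e
 (c z e
 (c z e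
 (c z e
 (c z e
 (c (a (nat_lit 0x182e4824201c3b1cca9)) e
 (c (a (nat_lit 0xd0fe98b81661b2a72e8)) e e)))))))))
 (c z e
 (c z e
 (c z e
 (c z e
 (c z e
 (c z e
 (c z e
 (c z e
 (c (a (nat_lit 0x1156afccab8924a167)) e
 (c z e
 (c z e
 (c z e
 (c z e
 (c (a (nat_lit 0x1a0f2703c28222c605)) e e))))))))))))))))))
 (c z
 (c (a (nat_lit 0xc0c0cf63c269b327))
 (c z e
 (c z e
 (c z e
 (c z e
 (c z e
 (c z e
 (c z e
 (c z e
 (c z e
 (c (a (nat_lit 0xe10162e14143835d28)) e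
 (c (a (nat_lit 0x3a425c5032203a7d488)) e e)))))))))))
 (c (a (nat_lit 0x1c1d786434a7bd7c7))
 (c z e
 (c z e
 (c z e
 (c z e
 (c z e
 (c z e
 (c z e
 (c (a (nat_lit 0x4c7270784e5a6299668)) e
 (c (a (nat_lit 0x463a4236343e4f68f49)) e
 (c (a (nat_lit 0xb0c2aa9e605b9ff3768)) e e))))))))))
 (c z e
 (c z e
 (c z e
 (c z e
 (c z e
 (c z e
 (c z e
 (c z e
 (c z e
 (c (a (nat_lit 0x15b877aeeac6e4e587)) e e))))))))))))
 (c z e
 (c z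
 (c z e
 (c z e
 (c z e
 (c z e
 (c z e
 (c z e
 (c z e
 (c z e
 (c (a (nat_lit 0x5d1d6f3910848b0e6)) e e)))))))))
 (c z
 (c z e
 (c z e
 (c z e
 (c z e
 (c z e
 (c z e
 (c (a (nat_lit 0xe0eae2d0c4e2fd0e6)) e e)))))))
 (c z e
 (c (a (nat_lit 0x20202020203487)) e
 (c (a (nat_lit 0x202020203726e7)) e
 (c (a (nat_lit 0x2020203408a1e7)) e
 (c (a (nat_lit 0x2020306860e367)) e
 (c (a (nat_lit 0x203183c1238767)) e
 (c z e
 (c z e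
 (c z e
 (c z e
 (c z e
 (c z e
 (c (a (nat_lit 0x1c89940b002021c5)) e e)))))))))))))))))))) Tr.c Tr.e (nat_lit 0) C.cx
noncomputable def C756 : Tr := beta% (fun (c : Nat → Tr → Tr → Tr) (e : Tr) (z : Nat) (a b : Nat → Nat) =>
 (c z
 (c (a (nat_lit 0x1414141414151a544))
 (c z e
 (c z e
 (c z e
 (c z e
 (c z e
 (c z e
 (c z e
 (c z e
 (c z e
 (c z e
 (c z e
 (c z e
 (c (a (nat_lit 0x5c586268ef1f506c587)) e e)))))))))))))
 (c (a (nat_lit 0x1e1e1e1e1fba34205)) e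
 (c (a (nat_lit 0x1e1e1e1f8e561ca85)) e
 (c (a (nat_lit 0x121212d236285b226))
 (c z e
 (c z e
 (c z e
 (c z e
 (c z e
 (c z e
 (c z e
 (c (a (nat_lit 0xa1238601a2a1039147)) e
 (c z e
 (c (a (nat_lit 0x5cf4f11a161e46bf5c7)) e e))))))))))
 (c (a (nat_lit 0xc0f14762e98c2d86))
 (c z e
 (c z e
 (c z e
 (c z e
 (c z e
 (c z e
 (c (a (nat_lit 0x1e302e1c1a1c3535868)) e
 (c z e
 (c (a (nat_lit 0x7890a02a2a4a5b603e8)) e e)))))))))
 (c z e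
 (c z e
 (c z e
 (c z e
 (c z e
 (c z e
 (c z e
 (c z e
 (c (a (nat_lit 0x199e18b02ea904a646)) e
 (c z e
 (c z e
 (c (a (nat_lit 0x1a5795ebe48584c604)) e
 (c (a (nat_lit 0x14328881c2c2034224)) e
 (c (a (nat_lit 0x136982234223826164)) e e)))))))))))))))))))
 (c z
 (c (a (nat_lit 0xe0e0e0f22361cce5)) e
 (c (a (nat_lit 0xe0e0ec622127d626))
 (c z e
 (c z e
 (c z e
 (c z e
 (c z e
 (c (a (nat_lit 0x522c4c44c07c9e7fc67)) e
 (c z e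
 (c z e
 (c (a (nat_lit 0x144234443a3020457e7)) e
 (c z e
 (c (a (nat_lit 0x8ab2dcde7046c4cf747)) e e)))))))))))
 (c (a (nat_lit 0x1214be5254956ab26))
 (c z e
 (c z e
 (c z e
 (c z e
 (c z e
 (c z e
 (c z e
 (c (a (nat_lit 0x2e543e30244c4b834c7)) e
 (c (a (nat_lit 0x723c7c5a50487b0b1e7)) e
 (c (a (nat_lit 0x72927068425ed5224a7)) e e))))))))))
 (c z e
 (c z e
 (c z e
 (c z e
 (c z e
 (c z e
 (c z e
 (c z e
 (c (a (nat_lit 0x17b6d82f50a6e567e5)) e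
 (c (a (nat_lit 0x1d7e9b9b36f2cf1305)) e
 (c (a (nat_lit 0xdd133d4d955907606)) e e))))))))))))))
 (c z
 (c (a (nat_lit 0x121276141a5102a05)) e
 (c z e
 (c z e
 (c z e
 (c z e
 (c z e
 (c z e
 (c z e
 (c z e
 (c z e
 (c (a (nat_lit 0x11525312f0aac88705)) e
 (c (a (nat_lit 0xd6c4f2e722e4b50a6)) e
 (c z e
 (c z e
 (c (a (nat_lit 0x132ac9640346028164)) e e)))))))))))))))
 (c z
 (c z e
 (c z e
 (c z e
 (c z e
 (c z e
 (c z e
 (c z e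
 (c z e
 (c (a (nat_lit 0x1b32b67a6e902d4a05)) e
 (c (b (nat_lit 0xc71f55fee4b064705)) e
 (c (a (nat_lit 0xbcdead7d913927446)) e e)))))))))))
 (c z
 (c z e
 (c z e
 (c z e
 (c z e
 (c z e
 (c z e
 (c (a (nat_lit 0x8b10b688645cb4d25)) e
 (c (a (nat_lit 0x1d567c7e3a9fd29565)) e
 (c (a (nat_lit 0x108ad08cd0ad4b54a5)) e e)))))))))
 (c z e
 (c z
 (c z e
 (c z e
 (c z e
 (c z e
 (c (a (nat_lit 0x7b0042cac34b66b25)) e
 (c (a (nat_lit 0x9c70bab6d314a4d26)) e e))))))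
 (c (a (nat_lit 0x20202020203925))
 (c z e
 (c z e
 (c z e
 (c (a (nat_lit 0x6e8340ea7aca6f7a5)) e
 (c z e
 (c (a (nat_lit 0x155550f279170c6cc6)) e e))))))
 (c (a (nat_lit 0x202020203f9004))
 (c z e
 (c z e
 (c z e
 (c z e
 (c z e
 (c (a (nat_lit 0xe8c4c0c54a5204287)) e e))))))
 (c (a (nat_lit 0x202020334e4185)) e
 (c (a (nat_lit 0x202034e50222e5)) e
 (c (a (nat_lit 0x1415145c2a52b25)) e
 (c z e
 (c z e
 (c z e
 (c z e
 (c (a (nat_lit 0x33d37a48782a203)) e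
 (c (a (nat_lit 0x1d97c467a322a323)) e
 (c (a (nat_lit 0x1b67eb26a5e689e3)) e e)))))))))))))))))))) Tr.c Tr.e (nat_lit 0) C.cx C.cy
noncomputable def C757 : Tr := beta% (fun (c : Nat → Tr → Tr → Tr) (e : Tr) (z : Nat) (a : Nat → Nat) =>
 (c z
 (c z
 (c z
 (c (a (nat_lit 0x4e4e4e4e4f2466525c2)) e
 (c (a (nat_lit 0x3e3e3e3f4a566066ca3)) e
 (c (a (nat_lit 0x3c3c3d745a409aaafe3)) e
 (c (a (nat_lit 0x4445845a4ca758d8723)) e e))))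
 (c z
 (c (a (nat_lit 0x424242aa32806517184)) e
 (c (a (nat_lit 0x3c3d065a6e84d11f045)) e
 (c z e
 (c z e
 (c z e
 (c z e
 (c z e
 (c z e
 (c z e
 (c z e
 (c z e
 (c z e
 (c z e
 (c z e
 (c (a (nat_lit 0x5456849cb2b4a6b76e7)) e e)))))))))))))))
 (c z
 (c z e
 (c z e
 (c z e
 (c z e
 (c z e
 (c z e
 (c z e
 (c z e
 (c z e
 (c z e
 (c z e
 (c z e
 (c z e
 (c (a (nat_lit 0x4a74788292949d06c47)) e
 (c (a (nat_lit 0x8e98a6bac6d4b6f3b87)) e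
 (c (a (nat_lit 0x7a889caabab09ea7ce7)) e e))))))))))))))))
 (c (a (nat_lit 0x10101010101011304))
 (c z e
 (c z e
 (c z e
 (c z e
 (c z e
 (c z e
 (c z e
 (c z e
 (c z e
 (c z e
 (c z e
 (c z e
 (c (a (nat_lit 0xd4ecfaff0b17fd00906)) e
 (c (a (nat_lit 0x4c52545e5e588b14588)) e e))))))))))))))
 (c (a (nat_lit 0x323232323233c21c3))
 (c z e
 (c z e
 (c z e
 (c z e
 (c z e
 (c z e
 (c z e
 (c z e
 (c z e
 (c z e
 (c z e
 (c z e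
 (c (a (nat_lit 0x9e969eacbad4f38a467)) e e)))))))))))))
 (c (a (nat_lit 0x7678787879da66923))
 (c z e
 (c z e
 (c z e
 (c z e
 (c z e
 (c z e
 (c z e
 (c z e
 (c z e
 (c z e
 (c z e
 (c (a (nat_lit 0x806e7476a6995818007)) e e))))))))))))
 (c (a (nat_lit 0x121212137e720c4a4)) e
 (c (a (nat_lit 0xe0e0fa8f016503e4)) e
 (c (a (nat_lit 0x2e2fff3c489c66404)) e
 (c z e
 (c z e
 (c z e
 (c z e
 (c z e
 (c z e
 (c (a (nat_lit 0x14ba9c19d84cc7a1c4)) e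
 (c (a (nat_lit 0x10b190f14f48e78505)) e e)))))))))))))))))
 (c z
 (c z
 (c (a (nat_lit 0xbcbc806f06d7e7e5824)) e e)
 (c (a (nat_lit 0xc0c0c0c0c0c0d186))
 (c z e
 (c z e
 (c z e
 (c z e
 (c z e
 (c z e
 (c z e
 (c z e
 (c z e
 (c z e
 (c z e
 (c (a (nat_lit 0x2686ae7a81993a64da6)) e
 (c (a (nat_lit 0x7a7e7a84875b7948987)) e e)))))))))))))
 (c (a (nat_lit 0xc0c0c0c0c0d102e6)) e
 (c (a (nat_lit 0x1c1c1c1c1d482c245)) e
 (c (a (nat_lit 0x2222222340704c2a5))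
 (c z e
 (c z e
 (c z e
 (c z e
 (c z e
 (c z e
 (c z e
 (c z e
 (c z e
 (c (a (nat_lit 0x8287213a825a1587e86)) e e))))))))))
 (c (a (nat_lit 0xe0e0f4a7a2046da6))
 (c z e
 (c z e
 (c z e
 (c z e
 (c z e
 (c z e
 (c (a (nat_lit 0x182e2a141e1c20317a8)) e
 (c (a (nat_lit 0x587662625a5440d7268)) e
 (c (a (nat_lit 0x3a76a268581b1763787)) e
 (c (a (nat_lit 0xbcd34b42292f5462007)) e e))))))))))
 (c (a (nat_lit 0xe0f3ef0705c68606))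
 (c z e
 (c z e
 (c z e
 (c z e
 (c z e
 (c (a (nat_lit 0x2a42142422263ef1608)) e
 (c (a (nat_lit 0x122b2c8cca4bf0fb5b87)) e
 (c (a (nat_lit 0xaeeab4c29f3731f1127)) e e))))))))
 (c z e
 (c z e
 (c z e
 (c z e
 (c z e
 (c z e
 (c z e
 (c (a (nat_lit 0x189bb877cfe8864626)) e e)))))))))))))))
 C756))
 (c z C755
 C754))) Tr.c Tr.e (nat_lit 0) C.cx
noncomputable def C758 : Tr := beta% (fun (c : Nat → Tr → Tr → Tr) (e : Tr) (z : Nat) (a b : Nat → Nat) =>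
 (c (a (nat_lit 0x2020202021))
 (c (a (nat_lit 0x203384))
 (c (a (nat_lit 0xaa6c14060c0daa4)) e
 (c z e
 (c z e
 (c z e
 (c (a (nat_lit 0x6c89311c68147c5)) e
 (c (a (nat_lit 0xdfc100ac4a648a5)) e
 (c z e
 (c z e
 (c z e
 (c (a (nat_lit 0x9c457bb7f9cc006)) e
 (c (a (nat_lit 0xfa1f86820000003)) e e)))))))))))
 (c (a (nat_lit 0x202020334506))
 (c z e
 (c z e
 (c z e
 (c z e
 (c z e
 (c z e
 (c z e
 (c z e
 (c z e
 (c (a (nat_lit 0x4854a000000003)) e e))))))))))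
 (c (a (nat_lit 0x202030c48126)) e
 (c (a (nat_lit 0x38395cd276185)) e
 (c (a (nat_lit 0x290e885c28746))
 (c z e
 (c (a (nat_lit 0x546a86867967c68)) e e))
 (c (a (nat_lit 0x1426e340864a66))
 (c (a (nat_lit 0x324e5442cafd088)) e e)
 (c z e
 (c z e
 (c z e
 (c (a (nat_lit 0x9d18eeeed2867)) e
 (c (a (nat_lit 0x16e9ac8dac2865)) e
 (c (a (nat_lit 0xcc770af4b05a5)) e
 (c z e
 (c (a (nat_lit 0x16536ba1a14044)) e
 (c (a (nat_lit 0x128aa060402264)) e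
 (c (b (nat_lit 0x13e02040839fe3)) e e))))))))))))))))
 (c (a (nat_lit 0x20002001))
 (c (a (nat_lit 0x202035a34326)) e
 (c (a (nat_lit 0x4041caa0b4c46)) e
 (c z e
 (c z e
 (c (a (nat_lit 0x16d6da452d2985))
 (c (a (nat_lit 0x14504660772a408)) e e)
 (c z e
 (c z e
 (c z e
 (c (a (nat_lit 0x11b04dcc076547)) e
 (c (a (nat_lit 0x1b41638754cf84)) e
 (c z e
 (c (a (nat_lit 0x306d8afcf2e84)) e
 (c (b (nat_lit 0x1ff4a301c026c3)) e
 (c (a (nat_lit 0xd42c1a0a7b163)) e e))))))))))))))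
 (c (a (nat_lit 0x808080a0a1))
 (c (a (nat_lit 0x82dd32b8aa044))
 (c (a (nat_lit 0xf4e9c8be5812384)) e
 (c (a (nat_lit 0x13966f086306b4e5)) e
 (c (a (nat_lit 0x2c2418201e2f627)) e
 (c z e
 (c z e
 (c (a (nat_lit 0x9e68b77692b8007)) e e))))))
 (c (a (nat_lit 0xbd3ed2c21a605))
 (c (a (nat_lit 0x1818120a0c233e8)) e
 (c z e
 (c z e
 (c z e
 (c (a (nat_lit 0x7697ce629800008)) e e)))))
 (c z e
 (c z e
 (c z e
 (c (a (nat_lit 0xf9a7ab816e4e6)) e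
 (c z e
 (c z e
 (c z e
 (c (a (nat_lit 0x7017704ba863)) e
 (c (a (nat_lit 0xddc0f05e02662)) e
 (c (a (nat_lit 0x118905e2e683a3)) e
 (c z e
 (c (a (nat_lit 0xf233349410001)) e
 (c (a (nat_lit 0x91104c0000002)) e
 (c (a (nat_lit 0x18400000000001)) e e))))))))))))))))
 (c (a (nat_lit 0xa0a0a0a0a1))
 (c (a (nat_lit 0x12af0e03842184))
 (c (a (nat_lit 0x181214081d24a26)) e
 (c z e
 (c z e
 (c (a (nat_lit 0x58739123ca8a007)) e
 (c (a (nat_lit 0x835e92980000007)) e e)))))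
 (c z e
 (c z e
 (c (a (nat_lit 0xf56f5d1f1a645)) e
 (c (a (nat_lit 0x17b73693e243e6)) e
 (c z e
 (c z e
 (c (a (nat_lit 0x2cad16dac8be4)) e
 (c (a (nat_lit 0x6330d0b484963)) e
 (c (a (nat_lit 0x15a6c3e1a3c242)) e
 (c z e
 (c (a (nat_lit 0x14537853ef8321)) e
 (c (a (nat_lit 0xe314e46400002)) e
 (c (a (nat_lit 0x13886000000002)) e e))))))))))))))
 (c (a (nat_lit 0x6060406061))
 (c z e
 (c (a (nat_lit 0x1baa7362a05064))
 (c (a (nat_lit 0x40b574ba2800008)) e e)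
 (c z e
 (c z e
 (c z e
 (c (a (nat_lit 0x167076606f745)) e
 (c (a (nat_lit 0xe32ac6f6ba823)) e
 (c (a (nat_lit 0x1befb5ef482982)) e
 (c z e
 (c (b (nat_lit 0x16c9ffe408bfe1)) e
 (c (a (nat_lit 0x840612140c001)) e e)))))))))))
 (c (a (nat_lit 0x6080808061))
 (c (a (nat_lit 0x8a10141f1d363))
 (c (a (nat_lit 0xd1f8e21e0000006)) e e)
 (c z e
 (c z e
 (c (a (nat_lit 0x90bcff02fb3a7)) e
 (c (b (nat_lit 0x1fffe989085146)) e
 (c (a (nat_lit 0xc73af6b0ce682)) e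
 (c z e
 (c (a (nat_lit 0x3628622579803)) e
 (c (a (nat_lit 0x4e844da7b2003)) e
 (c (a (nat_lit 0x114f9a0d400004)) e
 (c (a (nat_lit 0x1df98000000003)) e e)))))))))))
 (c (a (nat_lit 0x2001))
 (c z e
 (c (a (nat_lit 0x298b4847f066)) e
 (c z e
 (c z e
 (c z e
 (c (b (nat_lit 0x13fe8c4222001)) e
 (c (a (nat_lit 0x8724de9a64001)) e
 (c (a (nat_lit 0x1006a2e3a06001)) e
 (c (a (nat_lit 0x122f07c0000001)) e e)))))))))
 (c (a (nat_lit 0x8080808081))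
 (c (a (nat_lit 0x109af6e2e1be5)) e
 (c z e
 (c z e
 (c (a (nat_lit 0xf8f6fcf8f7046)) e
 (c (a (nat_lit 0x115211d1932b25)) e
 (c (a (nat_lit 0x1b79a0a0804023)) e
 (c (a (nat_lit 0x1b01e1c0e00003)) e
 (c (a (nat_lit 0x743a000000001)) e e))))))))
 (c (a (nat_lit 0x6060606061))
 (c z e
 (c (a (nat_lit 0x1c5bdc3bdb3a45)) e
 (c (a (nat_lit 0x1191d1f1d1cfa7)) e
 (c (a (nat_lit 0x173727c706c6c4)) e
 (c (a (nat_lit 0x1060e040202004)) e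
 (c (a (nat_lit 0x6c1e040000001)) e
 (c (a (nat_lit 0x1e00000000001)) e e)))))))
 (c (a (nat_lit 0xc0c0c0c0c1))
 (c (a (nat_lit 0x1e1e3e3e3dd986)) e
 (c (a (nat_lit 0x10f0674807a6e5)) e
 (c (a (nat_lit 0x14a262a321e164)) e
 (c (a (nat_lit 0x9ac2b03c00001)) e
 (c (a (nat_lit 0x13492000000001)) e e)))))
 (c (a (nat_lit 0xa0a0a0c0c1)) e
 (c (a (nat_lit 0xe0e0e10101)) e
 (c (a (nat_lit 0xe0e0e0e0e1)) e
 (c (a (nat_lit 0x808080a0a1)) e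
 (c (a (nat_lit 0x2020202481)) e
 (c (a (nat_lit 0x202020bb04)) e
 (c (a (nat_lit 0x2020bb0fa4)) e
 (c (a (nat_lit 0x60bb2fc144)) e
 (c (b (nat_lit 0x1ff98e002104)) e
 (c (a (nat_lit 0x198e20212604)) e
 (c (a (nat_lit 0x1001a307e144)) e
 (c z e
 (c z e
 (c (a (nat_lit 0x10a401c1c003)) e
 (c (a (nat_lit 0x8c080000001)) e e)))))))))))))))))))))))))) Tr.c Tr.e (nat_lit 0) C.cx C.cy
noncomputable def C759 : Tr := beta% (fun (c : Nat → Tr → Tr → Tr) (e : Tr) (z : Nat) (a b : Nat → Nat) =>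
 (c (a (nat_lit 0x2001))
 (c z
 (c (a (nat_lit 0xd872b26ce67be4))
 (c z e
 (c z e
 (c z e
 (c z e
 (c z e
 (c z e
 (c z e
 (c (a (nat_lit 0x3c445a82809d34f46)) e e))))))))
 (c (b (nat_lit 0xeca2a6932113fe6)) e
 (c z e
 (c z e
 (c (a (nat_lit 0x5cf1caf6624c3a6)) e
 (c (a (nat_lit 0x9b46741e12062a6))
 (c (a (nat_lit 0x9d36d0c6391a7e5a6)) e e) e))))))
 (c z
 (c z e
 (c z e
 (c z e
 (c z e
 (c z e
 (c z e
 (c z e
 (c z e
 (c z e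
 (c z e
 (c z e
 (c z e
 (c z e
 (c z e
 (c (a (nat_lit 0x17628301400003)) e
 (c (a (nat_lit 0x1762c1e000000003)) e e))))))))))))))))
 (c z e
 (c z
 (c z e
 (c z e
 (c z e
 (c z e
 (c z e
 (c z e
 (c (a (nat_lit 0xaceca11cb65a047)) e e)))))))
 (c z e
 (c z e
 (c (a (nat_lit 0x202020203bc4)) e
 (c (a (nat_lit 0x2020203aacc5)) e
 (c (a (nat_lit 0x606076462306))
 (c (a (nat_lit 0x385083045d6f2e6)) e e)
 (c (a (nat_lit 0x1c1d8ede804e5)) e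
 (c z e
 (c z e
 (c z e
 (c z e
 (c z e
 (c (a (nat_lit 0x8568622002046)) e
 (c (a (nat_lit 0x16c6624040a3c6)) e
 (c (a (nat_lit 0x1b932f50164e85)) e e))))))))))))))))))
 (c (a (nat_lit 0x2001))
 (c z
 (c z e
 (c (a (nat_lit 0x13b18d1cda84785))
 (c (a (nat_lit 0x1db0682164a6901f66)) e e)
 (c (a (nat_lit 0xbd64a086744a025)) e
 (c z e
 (c z e
 (c (a (nat_lit 0x8476786ebf7cf25))
 (c (a (nat_lit 0x136d084a44a2600007)) e e)
 (c z e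
 (c z e
 (c z e
 (c (a (nat_lit 0x131c161d9c0665e6)) e
 (c z e
 (c z e
 (c z e
 (c (a (nat_lit 0x1fcac966e664c005)) e
 (c (a (nat_lit 0x1ef94f66c0000003)) e
 (c (a (nat_lit 0x1b48c00000000003)) e e))))))))))))))))
 (c z
 (c (a (nat_lit 0x1f3fd1d3c342c204))
 (c (a (nat_lit 0x92381428305cd7127)) e
 (c z e
 (c z e
 (c z e
 (c (a (nat_lit 0x182106d010200a069)) e e)))))
 (c z e
 (c z e
 (c (a (nat_lit 0xf6acb2a71b37085)) e
 (c (a (nat_lit 0x21222898d26424)) e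
 (c z e
 (c z e
 (c z e
 (c (a (nat_lit 0x17f8f91cf22be9c7)) e
 (c z e
 (c z e
 (c z e
 (c (a (nat_lit 0x136765c141200005)) e
 (c (a (nat_lit 0x17f160c000000003)) e e))))))))))))))
 (c z e
 (c z
 (c z e
 (c z e
 (c z e
 (c (a (nat_lit 0x165e2c8730207)) e e))))
 (c (a (nat_lit 0x2020202030e5))
 (c z e
 (c (a (nat_lit 0x1891f62cd3536f65)) e
 (c z e
 (c z e
 (c z e
 (c (a (nat_lit 0xfafd2f28f2ce8a7)) e e))))))
 (c (a (nat_lit 0x6060607c51c4))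
 (c (a (nat_lit 0x849e6434aac91e5)) e
 (c z e
 (c z e
 (c z e
 (c (a (nat_lit 0x36db0aaac6739e7)) e e)))))
 (c (a (nat_lit 0x20203aebe825))
 (c (a (nat_lit 0x626315aaa86bc5)) e e)
 (c (a (nat_lit 0x4041a0926a5e6)) e
 (c z e
 (c (a (nat_lit 0x6a9a5088e13e6))
 (c (a (nat_lit 0x80cd22ca6000007)) e e)
 (c z e
 (c z e
 (c z e
 (c (a (nat_lit 0xd5d08844184e4)) e
 (c (a (nat_lit 0x1ce8642184a424)) e
 (c (a (nat_lit 0x11ac296ced6524)) e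
 (c z e
 (c (a (nat_lit 0x173e1f6f04c383)) e
 (c (a (nat_lit 0x1a3b6ae1014003)) e e)))))))))))))))))))
 (c (a (nat_lit 0x2001))
 (c z
 (c (a (nat_lit 0x193337082869a083))
 (c z e
 (c z e
 (c z e
 (c (a (nat_lit 0x3c1d5f34846c6a307)) e
 (c (a (nat_lit 0x217b5e1e241210187)) e
 (c (a (nat_lit 0x1711e24583e5600006)) e e))))))
 (c z e
 (c z e
 (c (a (nat_lit 0x383c4a2a47832e5)) e
 (c (a (nat_lit 0x384a2a4595192a5)) e
 (c z e
 (c z e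
 (c (b (nat_lit 0xb97b2359085ffe6)) e
 (c (a (nat_lit 0x11ceb08fa8888647)) e
 (c z e
 (c z e
 (c (a (nat_lit 0x14e54260c0c02005)) e
 (c (a (nat_lit 0x14e7410080000003)) e e)))))))))))))
 (c z
 (c z e
 (c z e
 (c z e
 (c z e
 (c z e
 (c z e
 (c z e
 (c z e
 (c z e
 (c z e
 (c (a (nat_lit 0x1df1e161c0c00005)) e
 (c (a (nat_lit 0x128180e000000005)) e e))))))))))))
 (c (a (nat_lit 0x202020203146)) e
 (c (a (nat_lit 0x202020348825))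
 (c z e
 (c (a (nat_lit 0x7a809e6667187a6)) e
 (c z e
 (c z e
 (c z e
 (c (a (nat_lit 0xd90930d27a57ec7)) e e))))))
 (c (a (nat_lit 0x202037d1a764))
 (c (a (nat_lit 0x154d80c59c386f44)) e
 (c z e
 (c z e
 (c (a (nat_lit 0x203c4a3c4a6d3c8)) e
 (c (a (nat_lit 0xa8dec0c239ffb07)) e e)))))
 (c (a (nat_lit 0x378ae4c3e5)) e
 (c z e
 (c (a (nat_lit 0xc2d88a5addc05))
 (c z e
 (c (a (nat_lit 0x2aaae9746000008)) e e))
 (c (a (nat_lit 0x7a6296d9494e6))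
 (c (a (nat_lit 0xbd3d4e860000007)) e e)
 (c z e
 (c z e
 (c (a (nat_lit 0x658af728327c4)) e
 (c (a (nat_lit 0x1b30f425caaf44)) e
 (c (a (nat_lit 0x1336680d118024)) e
 (c z e
 (c (a (nat_lit 0xa2dd22340c104)) e
 (c (a (nat_lit 0xed32440c22124)) e
 (c (a (nat_lit 0x14852183a28024)) e e))))))))))))))))))
 C758)))) Tr.c Tr.e (nat_lit 0) C.cx C.cy
noncomputable def C760 : Tr := beta% (fun (c : Nat → Tr → Tr → Tr) (e : Tr) (z : Nat) (a b : Nat → Nat) =>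
 (c z
 (c (a (nat_lit 0x204040405f0fe4))
 (c (a (nat_lit 0xf15b3df3e779873c4))
 (c z e
 (c z e
 (c z e
 (c z e
 (c z e
 (c (a (nat_lit 0xbdc30aa084ad26c0b07)) e
 (c z e
 (c z e
 (c (a (nat_lit 0x3b3462683e122000008)) e e)))))))))
 (c z e
 (c z e
 (c z e
 (c (a (nat_lit 0x117872d1bb17e951c6))
 (c z e
 (c (a (nat_lit 0x114c66256765e466e3a9)) e
 (c z e
 (c (a (nat_lit 0xcb2b084c30000000008)) e e))))
 (c z e
 (c z e
 (c z e
 (c (a (nat_lit 0x10bad3912d90476f65)) e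
 (c (a (nat_lit 0x166d7011562ce7c085)) e
 (c z e
 (c z e
 (c z e
 (c (a (nat_lit 0x58525a5c8b5e00009)) e e))))))))))))))
 (c (a (nat_lit 0x202020308ccc47))
 (c z e
 (c z e
 (c z e
 (c z e
 (c z e
 (c z e
 (c (a (nat_lit 0xe0c71cf7108ea5127)) e e)))))))
 (c (a (nat_lit 0x20203bb3128d66))
 (c z e
 (c z e
 (c z e
 (c z e
 (c z e
 (c z e
 (c (a (nat_lit 0x6c7ce6c695786d067)) e e)))))))
 (c (a (nat_lit 0x20370c2b4bc3a6)) e
 (c (a (nat_lit 0x17f4d0d47ad7566))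
 (c (a (nat_lit 0xa8d474e77d41592e7)) e
 (c z e
 (c z e
 (c z e
 (c z e
 (c (a (nat_lit 0x16d74fa924b50521a7)) e e))))))
 (c z e
 (c z e
 (c z e
 (c (a (nat_lit 0xa63d0cdc98945c6)) e
 (c (a (nat_lit 0x61c911399356da5))
 (c (a (nat_lit 0x12c188c88420000007)) e e)
 (c z e
 (c z e
 (c z e
 (c (a (nat_lit 0x11123316b2516e47)) e
 (c (a (nat_lit 0x1bd31a89484661c5)) e
 (c z e
 (c z e
 (c z e
 (c (a (nat_lit 0x1d4dc04180e00003)) e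
 (c (a (nat_lit 0x1a80e12000000002)) e e))))))))))))))))))))
 (c z
 (c (a (nat_lit 0x2020355170c986)) e
 (c (a (nat_lit 0x2a2b631714c07c7)) e e))
 (c z
 (c (a (nat_lit 0x30cc4c87416566))
 (c z e
 (c z e
 (c z e
 (c z e
 (c (a (nat_lit 0x84fe98585714f6907)) e e)))))
 (c (a (nat_lit 0x1b53538ea5cf4506))
 (c (a (nat_lit 0x86b44db9b548df147)) e
 (c z e
 (c z e
 (c z e
 (c (a (nat_lit 0xc29e8470ecd91c808)) e
 (c z e
 (c z e
 (c z e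
 (c (a (nat_lit 0x8c4b52a4ae0000008)) e e)))))))))
 (c z e
 (c z e
 (c z e
 (c (a (nat_lit 0x97188e182020806))
 (c (a (nat_lit 0x3e90f2bf60da5e207)) e e)
 (c z e
 (c z e
 (c z e
 (c (a (nat_lit 0x7eb53dd7e37d206)) e
 (c z e
 (c z e
 (c z e
 (c z e
 (c (a (nat_lit 0x105d89fe22a4e642)) e e)))))))))))))))
 (c z
 (c (b (nat_lit 0x1030308752287fe5))
 (c z e
 (c z e
 (c z e
 (c (a (nat_lit 0x13754bd1b6953e8b86)) e
 (c (a (nat_lit 0x724e68dea56912d27)) e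
 (c z e
 (c z e
 (c (a (nat_lit 0x34ccb51caa5600007)) e
 (c (a (nat_lit 0x4f391cc4000000007)) e e)))))))))
 (c z e
 (c z e
 (c (a (nat_lit 0xe1bf264e362cd65))
 (c z e
 (c (a (nat_lit 0x8231e32531325a6e8)) e e))
 (c (a (nat_lit 0x1cd1466187d2e805))
 (c (a (nat_lit 0x1bc34757326c66087)) e e)
 (c z e
 (c z e
 (c (a (nat_lit 0x2ad0d6e33cfb0c6)) e
 (c (a (nat_lit 0x5c7cc3570ac8a87)) e
 (c z e
 (c z e
 (c (a (nat_lit 0x100222a1c2744a04)) e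
 (c (a (nat_lit 0x221c0a1b44a0aa4)) e
 (c (a (nat_lit 0x5a4e5f7ca056004)) e e))))))))))))))
 (c z
 (c (a (nat_lit 0x2abc0da3ef8fe5))
 (c (a (nat_lit 0x4e726258646ec9027)) e
 (c z e
 (c z e
 (c z e
 (c z e
 (c (a (nat_lit 0x4b41fd603cac00007)) e e))))))
 (c z e
 (c z e
 (c z e
 (c z e
 (c (a (nat_lit 0xe6a2dd4d18e4966)) e
 (c (a (nat_lit 0x86d9c17dd542e25)) e
 (c z e
 (c z e
 (c (a (nat_lit 0xb1676f5d3b28f06)) e
 (c (a (nat_lit 0x184680e2c1492604)) e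
 (c (a (nat_lit 0xc24882673aba103)) e e))))))))))))
 (c z
 (c z e
 (c z e
 (c z e
 (c z e
 (c (a (nat_lit 0xaac2a06e76e1146)) e e)))))
 (c z
 (c (a (nat_lit 0x85d276b0403cea3))
 (c (a (nat_lit 0x12d837b2314ce32345)) e
 (c (a (nat_lit 0x147b12098ca9600006)) e e))
 (c (a (nat_lit 0x14c6eb04832d17c4))
 (c (a (nat_lit 0x14ce06e9e640000007)) e e)
 (c (a (nat_lit 0x5076322c832ce24)) e
 (c (b (nat_lit 0x605853fede95805)) e
 (c z e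
 (c (a (nat_lit 0x7252c58d69a5ba6)) e
 (c z e
 (c z e
 (c z e
 (c (b (nat_lit 0x1fef9195f1400004)) e e))))))))))
 (c z
 (c (a (nat_lit 0x22ca305cb36dce3)) e
 (c z e
 (c z e
 (c (a (nat_lit 0x5c888680947f246)) e
 (c (a (nat_lit 0x3c66a6e13d252a7)) e
 (c z e
 (c z e
 (c (a (nat_lit 0x1eb335169830c004)) e e))))))))
 (c z
 (c z e
 (c (a (nat_lit 0x1614648f4b24786)) e
 (c (a (nat_lit 0x4e4a467666a30e7)) e
 (c z e
 (c z e
 (c (a (nat_lit 0x90c2c6c6a2adc28)) e e))))))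
 (c (a (nat_lit 0x202020405205))
 (c (a (nat_lit 0x87e9d8f86ba905)) e
 (c z e
 (c z e
 (c z e
 (c (a (nat_lit 0x8e8e828ea3bc008)) e
 (c (a (nat_lit 0x1065876340000005)) e e))))))
 (c (a (nat_lit 0x202020324bc5))
 (c z e
 (c (a (nat_lit 0x829aa70eea96888)) e e))
 (c (a (nat_lit 0x202e782004))
 (c (a (nat_lit 0xb6c50528c13f0e7)) e e)
 (c (a (nat_lit 0xaeaec3567abc4)) e
 (c (a (nat_lit 0x100cd78c523684)) e
 (c (a (nat_lit 0x489e4a88a9d25)) e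
 (c (a (nat_lit 0x9e4a84a9d0f25)) e
 (c (a (nat_lit 0x4c80a5caec245)) e
 (c z e
 (c (a (nat_lit 0x7facd20a121e5)) e
 (c (a (nat_lit 0x1a6cc040c1a085)) e
 (c (a (nat_lit 0x10238404c3e065)) e
 (c z e
 (c (a (nat_lit 0x10b390c320a0a3)) e
 (c (a (nat_lit 0x124ee260200003)) e
 (c (a (nat_lit 0x12830000000003)) e e)))))))))))))))))))))))))) Tr.c Tr.e (nat_lit 0) C.cx C.cy
noncomputable def C761 : Tr := beta% (fun (c : Nat → Tr → Tr → Tr) (e : Tr) (z : Nat) (a b : Nat → Nat) =>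
 (c (a (nat_lit 0x4040204041))
 (c z
 (c z
 (c (a (nat_lit 0xc0b6c8e4e8c924f64)) e
 (c (a (nat_lit 0x4ed69b04cb9b5ff45))
 (c z e
 (c z e
 (c z e
 (c z e
 (c z e
 (c (a (nat_lit 0x615f45fe365e6686287)) e
 (c z e
 (c z e
 (c (a (nat_lit 0x281053de443c7840207)) e
 (c (a (nat_lit 0x16338a381c683c00007)) e e))))))))))
 (c z e
 (c z e
 (c z e
 (c z e
 (c z e
 (c z e
 (c z e
 (c z e
 (c (a (nat_lit 0xe2f300a91dc1f0c64)) e
 (c (a (nat_lit 0x9eb85e7e96aea1825)) e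
 (c z e
 (c z e
 (c (a (nat_lit 0x526a7662686c8fc07)) e e)))))))))))))))
 (c (a (nat_lit 0x20202020203604))
 (c (a (nat_lit 0xb452b2911705088a6))
 (c z e
 (c z e
 (c z e
 (c z e
 (c z e
 (c (a (nat_lit 0xeab5a2627250867c528)) e
 (c z e
 (c z e
 (c (a (nat_lit 0x1857d26878501e2e008)) e e)))))))))
 (c z e
 (c z e
 (c z e
 (c (a (nat_lit 0xf34534df458952a46))
 (c z e
 (c (a (nat_lit 0x8dcb3c2a4a3e5c1e569)) e
 (c z e
 (c (a (nat_lit 0x6bd44caa8220000008)) e e))))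
 (c z e
 (c z e
 (c z e
 (c (a (nat_lit 0x90ccfe7862c0dbd05)) e
 (c (a (nat_lit 0x54723e32e51312685)) e
 (c z e
 (c z e
 (c z e
 (c (a (nat_lit 0x4c5668565a814c009)) e
 (c (a (nat_lit 0xd1b326c0740000005)) e e)))))))))))))))
 (c (a (nat_lit 0x505050505177105))
 (c z e
 (c z e
 (c z e
 (c z e
 (c z e
 (c z e
 (c z e
 (c (a (nat_lit 0x16960a0a2b06c5ea07)) e e))))))))
 (c (a (nat_lit 0x202020314daca6))
 (c z e
 (c (a (nat_lit 0x9aa0cabd04f0df147))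
 (c (a (nat_lit 0x10916788656164020328)) e
 (c (a (nat_lit 0x184b6ccb68a8a8090f28)) e
 (c (a (nat_lit 0x1190648c672aa7306648)) e e)))
 (c z e
 (c z e
 (c z e
 (c z e
 (c z e
 (c z e
 (c z e
 (c (a (nat_lit 0xd116ef5719215f247)) e
 (c (a (nat_lit 0x38342e71589416009)) e e)))))))))))
 (c (a (nat_lit 0x2020354deaad05))
 (c (a (nat_lit 0x66707ad6da7ca5146)) e
 (c z e
 (c z e
 (c (a (nat_lit 0x664c5280ef4256306)) e
 (c z e
 (c z e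
 (c z e
 (c (a (nat_lit 0xb7168d4f1e9093486)) e
 (c (a (nat_lit 0x104e900c2c2e2f0b47)) e e)))))))))
 (c (a (nat_lit 0x10119b6740c54c5))
 (c (a (nat_lit 0x16775778383776b9a6)) e
 (c z e
 (c z e
 (c z e
 (c z e
 (c (a (nat_lit 0x74787856400f0ca28)) e e))))))
 (c z e
 (c (a (nat_lit 0x3c78449aa376e85))
 (c z e
 (c (a (nat_lit 0xc8d078b09e9d84886)) e
 (c z e
 (c z e
 (c z e
 (c (a (nat_lit 0x1337fe327b40000006)) e e))))))
 (c (a (nat_lit 0x522e9aa15ab87e5))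
 (c z e
 (c z e
 (c z e
 (c (a (nat_lit 0x8e370096864000007)) e e))))
 (c z e
 (c (a (nat_lit 0xb0f992ecc4986e5))
 (c (a (nat_lit 0x87f48cd2ba7a00006)) e e)
 (c (a (nat_lit 0xe7e949114cb2485)) e
 (c (a (nat_lit 0x16717051e945e466)) e
 (c z e
 (c (a (nat_lit 0x197dbbf8d4b459a5)) e
 (c (a (nat_lit 0x1c2ec2442405c0e3)) e
 (c (a (nat_lit 0x136708a628c54463)) e e)))))))))))))))))
 C760)
 (c (a (nat_lit 0x2021))
 (c z
 (c (a (nat_lit 0x202020210680a64))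
 (c z e
 (c z e
 (c z e
 (c z e
 (c (a (nat_lit 0xa08c5737b616d2e45)) e
 (c z e
 (c z e
 (c z e
 (c z e
 (c z e
 (c z e
 (c z e
 (c z e
 (c (a (nat_lit 0x94626ab5d20000007)) e e))))))))))))))
 (c (a (nat_lit 0x1e1e1f26ccdeb26))
 (c z e
 (c z e
 (c z e
 (c z e
 (c z e
 (c (a (nat_lit 0xb0e7334505c3782a6)) e
 (c z e
 (c (b (nat_lit 0x116e73191ffff6b6a6)) e e))))))))
 (c (a (nat_lit 0x9a9b34ed0522086)) e
 (c z e
 (c (a (nat_lit 0x1bc5eed1e95f56a4))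
 (c (a (nat_lit 0xdc3ea0fc90bb985e6)) e
 (c z e
 (c (a (nat_lit 0x4070a2aeb06407808)) e
 (c z e
 (c (a (nat_lit 0x58609a3c230c26048)) e
 (c (a (nat_lit 0xf71c8e3bc66c14267)) e e))))))
 (c z e
 (c z e
 (c z e
 (c (a (nat_lit 0x11add9e3638364a4))
 (c z e
 (c (a (nat_lit 0x14ab6be8c2c0000007)) e e))
 (c (a (nat_lit 0x6080121cc8ef2a5))
 (c (a (nat_lit 0x1598e985a000000005)) e e)
 (c z e
 (c z e
 (c z e
 (c (a (nat_lit 0x8ec92d437cbeaa6)) e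
 (c (a (nat_lit 0xe082d1a20caac4)) e
 (c z e
 (c z e
 (c (a (nat_lit 0xd69b4d2d4acc004)) e
 (c (a (nat_lit 0x95f7b4fa0000003)) e
 (c (a (nat_lit 0x1b6ba00000000003)) e e))))))))))))))))))))
 (c z
 (c (a (nat_lit 0x80932e4ea9a0c6)) e
 (c z e
 (c z e
 (c z e
 (c z e
 (c z e
 (c z e
 (c z e
 (c z e
 (c z e
 (c z e
 (c z e
 (c z e
 (c z e
 (c z e
 (c z e
 (c (a (nat_lit 0x186140e580200003)) e e)))))))))))))))))
 (c z e
 (c z e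
 (c z
 (c (a (nat_lit 0x63c4de82a0060c4))
 (c (a (nat_lit 0x7e4644b421b93ab45)) e
 (c z e
 (c z e
 (c z e
 (c (a (nat_lit 0x57be7e6530e4b8007)) e
 (c (a (nat_lit 0x11e9eac8e360000006)) e e))))))
 (c z e
 (c z e
 (c z e
 (c (a (nat_lit 0x9f10b89708e4806)) e
 (c (a (nat_lit 0x1108ab16d1881e05)) e
 (c z e
 (c z e
 (c z e
 (c (a (nat_lit 0x15b097120c0252c7)) e
 (c (a (nat_lit 0x8b2840161aa4cc6)) e e)))))))))))
 (c z e
 (c z
 (c (a (nat_lit 0x163a30150940c4c4))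
 (c (a (nat_lit 0xcd74a6c6b11658006)) e
 (c (a (nat_lit 0x1d6eab6aea20000007)) e e))
 (c (a (nat_lit 0x13ef130c81e2ab25))
 (c (a (nat_lit 0x104846c58000000007)) e e) e))
 (c z
 (c (a (nat_lit 0x1198418080ce3603)) e e)
 (c (a (nat_lit 0x2020203685))
 (c z e
 (c (a (nat_lit 0x4634aed956d12e6)) e
 (c z e
 (c z e
 (c z e
 (c (a (nat_lit 0xa29eb89ae1e6008)) e
 (c (a (nat_lit 0x15dda2d40000004)) e e)))))))
 (c (a (nat_lit 0x2020203421c6))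
 (c (a (nat_lit 0x891b49756135165)) e
 (c z e
 (c z e
 (c z e
 (c (a (nat_lit 0x787480bfe600008)) e e)))))
 (c (a (nat_lit 0x3365c265)) e
 (c (a (nat_lit 0xfeffc9c2c4f84)) e
 (c z e
 (c (a (nat_lit 0x28341f493bec5)) e
 (c (a (nat_lit 0x4618927b8d484)) e
 (c z e
 (c z e
 (c (a (nat_lit 0x31d3e60e0e463)) e
 (c (a (nat_lit 0x1d5e80c3654643)) e
 (c (a (nat_lit 0x15a6a82949a524)) e
 (c z e
 (c z e
 (c (a (nat_lit 0x1a9c53a0612003)) e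
 (c (a (nat_lit 0x1a11a080000003)) e e))))))))))))))))))))))))
 C759))) Tr.c Tr.e (nat_lit 0) C.cx C.cy
noncomputable def C762 : Tr := beta% (fun (c : Nat → Tr → Tr → Tr) (e : Tr) (z : Nat) (a b : Nat → Nat) =>
 (c z
 (c (a (nat_lit 0x20202020203ce4))
 (c z e
 (c z e
 (c z e
 (c z e
 (c z e
 (c z e
 (c z e
 (c (a (nat_lit 0xb8462c8a1026a5ee5)) e e))))))))
 (c (a (nat_lit 0x202020203605c6))
 (c z e
 (c z e
 (c z e
 (c z e
 (c z e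
 (c z e
 (c z e
 (c (a (nat_lit 0x421e9ccacc9340d06)) e e))))))))
 (c (a (nat_lit 0x2020203e0d4f26)) e
 (c (a (nat_lit 0x2020300666c447)) e
 (c (a (nat_lit 0x2030c364c1a5e7)) e
 (c z e
 (c z e
 (c z e
 (c z e
 (c z e
 (c z e
 (c z e
 (c z e
 (c z e
 (c z e
 (c (a (nat_lit 0x19fb734441a02005)) e e))))))))))))))))
 (c z
 (c (a (nat_lit 0x20202033c969a6))
 (c z e
 (c z e
 (c z e
 (c z e
 (c z e
 (c z e
 (c (a (nat_lit 0x106f2cf40b4bc7ed06)) e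
 (c (a (nat_lit 0xc2cb18a2566c82f06)) e e))))))))
 (c (a (nat_lit 0x20203548e9c607))
 (c z e
 (c z e
 (c z e
 (c z e
 (c z e
 (c z e
 (c z e
 (c (a (nat_lit 0xaec680884e6145b08)) e e))))))))
 (c (a (nat_lit 0x2033668763aa27)) e
 (c z e
 (c z e
 (c z e
 (c z e
 (c z e
 (c z e
 (c z e
 (c z e
 (c z e
 (c z e
 (c (a (nat_lit 0x154d0523c0602005)) e e))))))))))))))
 (c z
 (c (a (nat_lit 0x3a3b3abed89a966))
 (c z e
 (c z e
 (c z e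
 (c z e
 (c z e
 (c z e
 (c (a (nat_lit 0xa8b290a2c09a935c8)) e e)))))))
 (c (a (nat_lit 0x15dd0f34c0a8c26))
 (c (b (nat_lit 0x727cabff04d0dec47)) e
 (c z e
 (c z e
 (c z e
 (c (a (nat_lit 0xcece828ace8a8d988)) e
 (c z e
 (c z e
 (c z e
 (c (a (nat_lit 0x10a3039e6b88c00008)) e e)))))))))
 (c z e
 (c z e
 (c z e
 (c (a (nat_lit 0xcf87d4e6408cac5))
 (c (a (nat_lit 0x4a94a8fba8e492ba7)) e e)
 (c z e
 (c z e
 (c z e
 (c (a (nat_lit 0x70d4e4b73ac6d86)) e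
 (c z e
 (c z e
 (c z e
 (c (a (nat_lit 0x156db20fa661a0a4)) e
 (c (a (nat_lit 0xff451e8e3e02004)) e e)))))))))))))))
 (c z
 (c (a (nat_lit 0x156e9109e86b4b05))
 (c (a (nat_lit 0x38a080c2b23833106)) e
 (c z e
 (c z e
 (c (a (nat_lit 0x770a7628b64a99527)) e
 (c (a (nat_lit 0x58302646526d8f088)) e
 (c z e
 (c z e
 (c z e
 (c (a (nat_lit 0x565750b4860000008)) e e)))))))))
 (c z e
 (c z e
 (c (a (nat_lit 0x9b37435c4a78d65)) e
 (c (a (nat_lit 0xaedc7c38144b4a5))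
 (c (a (nat_lit 0x34511b329e506c468)) e e)
 (c z e
 (c z e
 (c (a (nat_lit 0x21c9106e6caba6)) e
 (c (a (nat_lit 0x5a793b77c933726)) e
 (c z e
 (c z e
 (c z e
 (c (a (nat_lit 0x12ae4a20a0816165)) e
 (c (a (nat_lit 0x1fb94606e9e9c204)) e e))))))))))))))
 (c z
 (c z e
 (c z e
 (c z e
 (c z e
 (c z e
 (c (a (nat_lit 0x1d413185c7f3205)) e
 (c (a (nat_lit 0x74f7759d78dab05)) e e)))))))
 (c z
 (c z e
 (c z e
 (c z e
 (c z e
 (c (a (nat_lit 0x120639878eeba65)) e e)))))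
 (c z
 (c z e
 (c (a (nat_lit 0xcb24923e3e892c4)) e
 (c (a (nat_lit 0x9e721c2872cf5e5)) e
 (c z e
 (c (a (nat_lit 0x6c74b0ff2b050e5)) e
 (c (b (nat_lit 0x1fffffe268c89087)) e
 (c z e
 (c z e
 (c z e
 (c (a (nat_lit 0x174fcd4ef1ec8004)) e e))))))))))
 (c z
 (c (a (nat_lit 0x216063a54c5124)) e
 (c z e
 (c z e
 (c (a (nat_lit 0x7e9ce904faebd26)) e
 (c (a (nat_lit 0x63c4ebcb713247)) e e)))))
 (c z
 (c z e
 (c (b (nat_lit 0x1fffe94be9768cc6)) e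
 (c z e
 (c z e
 (c z e
 (c z e
 (c z e
 (c (a (nat_lit 0x3799f0700000003)) e e))))))))
 (c z
 (c (a (nat_lit 0x262764d16b8486)) e e)
 (c (a (nat_lit 0x202020405ca5))
 (c z e
 (c (a (nat_lit 0x8882c4d30714d48)) e e))
 (c (a (nat_lit 0x2020203d4845))
 (c (a (nat_lit 0xa4c4d90b9b2cee7)) e e)
 (c (a (nat_lit 0x202035c16025)) e
 (c (a (nat_lit 0x8c8d2c8a8a966)) e
 (c z e
 (c (a (nat_lit 0x1ae6a669d0f385)) e
 (c (a (nat_lit 0x585486fd26a25)) e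
 (c z e
 (c z e
 (c (a (nat_lit 0x15ddad612241c4)) e
 (c (a (nat_lit 0x1d4d00c201a3e4)) e
 (c z e
 (c z e
 (c (a (nat_lit 0x19779d60e1a003)) e
 (c (a (nat_lit 0x151ae040000003)) e e)))))))))))))))))))))))))) Tr.c Tr.e (nat_lit 0) C.cx C.cy
noncomputable def C763 : Tr := beta% (fun (c : Nat → Tr → Tr → Tr) (e : Tr) (z : Nat) (a : Nat → Nat) =>
 (c z
 (c z
 (c (a (nat_lit 0x6060601eac8661783)) e
 (c (a (nat_lit 0x1e1e24665a11168e5))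
 (c z e
 (c z e
 (c z e
 (c z e
 (c z e
 (c z e
 (c z e
 (c z e
 (c z e
 (c z e
 (c z e
 (c (a (nat_lit 0x7ca8f0c8472fab7e467)) e e))))))))))))
 (c z e
 (c z e
 (c z e
 (c z e
 (c z e
 (c z e
 (c z e
 (c z e
 (c z e
 (c z e
 (c z e
 (c (a (nat_lit 0xc72eee9c949e67365)) e e))))))))))))))
 (c z
 (c (a (nat_lit 0x265294901958f87a5))
 (c z e
 (c z e
 (c z e
 (c z e
 (c z e
 (c z e
 (c z e
 (c z e
 (c z e
 (c (a (nat_lit 0xc3a3c502648b73ed27)) e e))))))))))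
 (c z e
 (c z e
 (c z e
 (c (a (nat_lit 0x75b50eb854e243f05)) e
 (c z e
 (c z e
 (c z e
 (c z e
 (c z e
 (c (a (nat_lit 0x6c88f6908e6e857c6)) e
 (c (a (nat_lit 0xd942f6f890887e9e6)) e
 (c (a (nat_lit 0xba8a9e78e4d8c3127)) e e)))))))))))))
 (c z
 (c z e
 (c z e
 (c z e
 (c z e
 (c z e
 (c z e
 (c z e
 (c z e
 (c (a (nat_lit 0xc47ed29a285883105)) e
 (c (a (nat_lit 0xf98330706847f3685)) e
 (c (a (nat_lit 0x1855af2aebeba91a85)) e e)))))))))))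
 (c z
 (c z e
 (c z e
 (c z e
 (c z e
 (c z e
 (c z e
 (c z e
 (c (a (nat_lit 0x14f7d44d0caf57eec5)) e
 (c (a (nat_lit 0x178e6f8bc7fd590ca5)) e e)))))))))
 (c (a (nat_lit 0x20202020203e05))
 (c z e
 (c (a (nat_lit 0x1426303286c2e5067))
 (c z e
 (c (a (nat_lit 0x14cf4beee10b6a82a1e8)) e
 (c (a (nat_lit 0x70a73856503658bc1a8)) e
 (c (a (nat_lit 0xa568f4acc6d330c28e8)) e
 (c (a (nat_lit 0x1ab663c3084bc5000008)) e e)))))
 (c z e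
 (c z e
 (c z e
 (c (a (nat_lit 0x4a80fe64f16530d86)) e
 (c z e
 (c z e
 (c z e
 (c (a (nat_lit 0x5afacad6ed0d29247)) e e))))))))))
 (c (a (nat_lit 0x202020203d0b85))
 (c (a (nat_lit 0x1a0c1654686552147)) e
 (c z e
 (c z e
 (c z e
 (c (a (nat_lit 0x5e4f3628a2966c1e7)) e
 (c (a (nat_lit 0x6d4c48c2c2806a367)) e
 (c z e
 (c z e
 (c (a (nat_lit 0xbe9cd2eb316318b27)) e e)))))))))
 (c (a (nat_lit 0x20202032c70706))
 (c z e
 (c z e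
 (c z e
 (c z e
 (c (a (nat_lit 0x141a954d8114ecf26)) e e)))))
 (c (a (nat_lit 0x20203b69ac09e6))
 (c z e
 (c z e
 (c (a (nat_lit 0x4e73090c302c14406)) e
 (c z e
 (c (a (nat_lit 0x897088c2d4b46cea6)) e e)))))
 (c (a (nat_lit 0x121382406e7f1e5)) e
 (c (a (nat_lit 0x19424a4a9340d65))
 (c (a (nat_lit 0x1072ef4c2a6c0a90a5)) e
 (c z e
 (c z e
 (c z e
 (c (a (nat_lit 0xb8e90c72607a00007)) e e)))))
 (c z e
 (c z e
 (c z e
 (c (a (nat_lit 0xb315290352fc646)) e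
 (c z e
 (c z e
 (c (a (nat_lit 0x1579078886286784)) e
 (c (a (nat_lit 0x14e36442858442e4)) e
 (c z e
 (c z e
 (c z e
 (c (a (nat_lit 0x11ad4ac1e0a02002)) e e))))))))))))))))))))))
 (c z
 (c z
 (c (a (nat_lit 0x64b0aa6f02f09cbe5)) e
 (c z e
 (c z e
 (c (a (nat_lit 0x6bb1cad49cdea9d05))
 (c z e
 (c (a (nat_lit 0x12d4108d904fee6a2669)) e e))
 (c (a (nat_lit 0x1932894566c8595f25))
 (c z e
 (c (a (nat_lit 0x18efccea2a8971b185c8)) e e))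
 (c z e
 (c z e
 (c z e
 (c z e
 (c z e
 (c (a (nat_lit 0x6cb46076548326aa6)) e
 (c z e
 (c (a (nat_lit 0x6e6668f51518f7767)) e e)))))))))))))
 (c z
 (c z e
 (c z e
 (c z e
 (c z e
 (c z e
 (c z e
 (c z e
 (c z e
 (c (a (nat_lit 0x891114802f02b9265)) e
 (c (a (nat_lit 0xf2d0c69ee99130666)) e
 (c (a (nat_lit 0xfce2a8bc92d699a87)) e e)))))))))))
 (c (a (nat_lit 0xc0c0c0c0c0d6c6))
 (c z e
 (c z e
 (c z e
 (c z e
 (c z e
 (c z e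
 (c z e
 (c (a (nat_lit 0x309452a78d9c4cd66)) e e))))))))
 (c (a (nat_lit 0x20202020396ac6))
 (c z e
 (c (a (nat_lit 0x5e768cdad53ec49a8))
 (c (a (nat_lit 0x104d2f0bc46463a2e269)) e
 (c (a (nat_lit 0xdd54e432a8527286689)) e
 (c (a (nat_lit 0x13154664c2c928056889)) e e)))
 (c z e
 (c z e
 (c z e
 (c (a (nat_lit 0x49083eaf2560aa907)) e
 (c z e
 (c (a (nat_lit 0x36709b0a886434448)) e
 (c z e
 (c (a (nat_lit 0x1335d3967ddb93d7a7)) e e))))))))))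
 (c (a (nat_lit 0x2020203ccf2f26))
 (c (a (nat_lit 0x6486d6e70b7aaf3a7))
 (c z e
 (c (a (nat_lit 0x182c27eaeaa9e2050948)) e
 (c (a (nat_lit 0x168a88ab688a6666a788)) e e)))
 (c z e
 (c z e
 (c z e
 (c (a (nat_lit 0xaf603575d54e600c6)) e
 (c z e
 (c z e
 (c z e
 (c (a (nat_lit 0xaec0cd2cf4bb16648)) e e)))))))))
 (c (a (nat_lit 0x202032c8c8a427)) e
 (c (a (nat_lit 0x22239e88b2a0847)) e
 (c (a (nat_lit 0xaf2485a64df466))
 (c (a (nat_lit 0x9eed8f1adeded2d06)) e e)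
 (c (a (nat_lit 0xe8565478f33ca26))
 (c (a (nat_lit 0x1a5c372f78995b8b25)) e
 (c z e
 (c z e
 (c z e
 (c (a (nat_lit 0x1272584ab180000007)) e e)))))
 (c z e
 (c z e
 (c z e
 (c (a (nat_lit 0xd5510ae2f25c587)) e
 (c z e
 (c z e
 (c z e
 (c (a (nat_lit 0xbce58cf8f220003)) e
 (c (a (nat_lit 0x11dab17242a04203)) e
 (c z e
 (c (a (nat_lit 0x19188421c1a52002)) e
 (c (a (nat_lit 0x1d8826c6c5200002)) e e)))))))))))))))))))))
 C762))) Tr.c Tr.e (nat_lit 0) C.cx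
noncomputable def C764 : Tr := beta% (fun (c : Nat → Tr → Tr → Tr) (e : Tr) (z : Nat) (a b : Nat → Nat) =>
 (c z
 (c z
 (c z e
 (c z e
 (c z e
 (c z e
 (c z e
 (c z e
 (c z e
 (c z e
 (c z e
 (c z e
 (c (a (nat_lit 0x136d91900dcb4d6f05)) e
 (c z e
 (c (a (nat_lit 0xd8ecdaf0f4c8c53e7)) e e)))))))))))))
 (c z
 (c z e
 (c z e
 (c z e
 (c z e
 (c z e
 (c z e
 (c z e
 (c z e
 (c (a (nat_lit 0x1326a2e26228e70526)) e
 (c (a (nat_lit 0xa2af18dd0eecfcbc6)) e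
 (c z e
 (c z e
 (c z e
 (c z e
 (c (a (nat_lit 0x1e70a425a5e2a20004)) e e)))))))))))))))
 (c z
 (c z e
 (c z e
 (c z e
 (c z e
 (c z e
 (c z e
 (c z e
 (c z e
 (c (a (nat_lit 0xbf3b78dd1b08c9e06)) e e)))))))))
 (c (a (nat_lit 0x202020202032e6)) e
 (c (a (nat_lit 0x20202020354b46))
 (c z e
 (c z e
 (c z e
 (c z e
 (c z e
 (c (a (nat_lit 0xd21c6b131d46a6666)) e e))))))
 (c (a (nat_lit 0x20202030c8c8a7)) e
 (c (a (nat_lit 0x20203725a7ca87)) e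
 (c (a (nat_lit 0x4055a645ab9386)) e
 (c z e
 (c z e
 (c z e
 (c z e
 (c z e
 (c z e
 (c z e
 (c z e
 (c (a (nat_lit 0xb8e318941a10285)) e
 (c (a (nat_lit 0xe518961c0a24005)) e e))))))))))))))))))
 (c z
 (c z e
 (c (a (nat_lit 0x20202020203245)) e
 (c (a (nat_lit 0x202020203083e6))
 (c z e
 (c z e
 (c z e
 (c z e
 (c z e
 (c z e
 (c (a (nat_lit 0xfb30df71068e853a6)) e e)))))))
 (c (a (nat_lit 0x2020203d4e6ee6)) e
 (c (a (nat_lit 0x20203ee5a5e3c6)) e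
 (c (a (nat_lit 0xa0b044c6e7c087)) e
 (c z e
 (c z e
 (c z e
 (c z e
 (c z e
 (c z e
 (c z e
 (c z e
 (c z e
 (c z e
 (c (b (nat_lit 0x1f5509667fe02664)) e e)))))))))))))))))
 (c z
 (c (a (nat_lit 0x40404040508724))
 (c z e
 (c z e
 (c z e
 (c z e
 (c z e
 (c z e
 (c z e
 (c (a (nat_lit 0x112c902ef2ad321c45)) e e))))))))
 (c (a (nat_lit 0x2020203bce4586))
 (c z e
 (c z e
 (c z e
 (c z e
 (c z e
 (c (a (nat_lit 0x523024a2c2f3066e7)) e e))))))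
 (c (a (nat_lit 0x20203e6e09a506)) e
 (c (a (nat_lit 0x18196ab27028fc6)) e
 (c z e
 (c (a (nat_lit 0x582e0a087312aa7)) e e))))))
 (c z
 (c (a (nat_lit 0x20203d4e64a1c5))
 (c z e
 (c z e
 (c z e
 (c z e
 (c z e
 (c (a (nat_lit 0xcef124d4e73c38d66)) e
 (c z e
 (c (a (nat_lit 0xbc5e528492dca1b27)) e e))))))))
 (c (a (nat_lit 0x1415b536ec80d46)) e e))
 (c z e
 (c z e
 (c z
 (c z e
 (c z e
 (c z e
 (c z e
 (c z e
 (c z e
 (c (b (nat_lit 0x12ed757feccbedc6)) e e)))))))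
 (c z
 (c z e
 (c z e
 (c z e
 (c z e
 (c z e
 (c z e
 (c z e
 (c z e
 (c (a (nat_lit 0x13e50340a06060c5)) e
 (c z e
 (c (a (nat_lit 0x1c6606e926000002)) e e)))))))))))
 (c z e
 (c z e
 (c z e
 (c z e
 (c (a (nat_lit 0x202020203fc4))
 (c (a (nat_lit 0xe0cae6ef8b2ecc7)) e e)
 (c (a (nat_lit 0x20202030c2c4)) e
 (c (b (nat_lit 0x2020389fffe3))
 (c (a (nat_lit 0x10d0f011a0000008)) e
 (c (a (nat_lit 0x167c800000000001)) e e))
 (c (a (nat_lit 0x3435d30aa0f64)) e e))))))))))))))))) Tr.c Tr.e (nat_lit 0) C.cx C.cy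

end Pool.Agent.Work.MP_82fd4a_nt.P.H
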