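import Pool.Agent.Work.MP_82fd4a_nt.P.Dx

set_option autoImplicit false
set_option linter.all false
set_option maxRecDepth 100000

namespace Pool.Agent.Work.MP_82fd4a_nt.P.H
open Y Y.Tr

noncomputable def C765 : Tr := beta% (fun (c : Nat → Tr → Tr → Tr) (e : Tr) (z : Nat) (a : Nat → Nat) =>
 (c z
 (c z
 (c z e
 (c z e
 (c z e
 (c z e
 (c z e
 (c z e
 (c z e
 (c z e
 (c z e
 (c z e
 (c z e
 (c z e
 (c z e
 (c z e
 (c z e
 (c z e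
 (c (a (nat_lit 0x5a606266665e871e007)) e e)))))))))))))))))
 (c (a (nat_lit 0x1e1e1e1e1e1f46ec4)) e
 (c (a (nat_lit 0x3a3a3a3a3beb80fe2)) e
 (c (a (nat_lit 0x464646473abcb58c3))
 (c z e
 (c z e
 (c z e
 (c z e
 (c z e
 (c z e
 (c z e
 (c z e
 (c z e
 (c z e
 (c (a (nat_lit 0x607a9c929c686269747)) e e)))))))))))
 (c (a (nat_lit 0x242424a09c1493504))
 (c z e
 (c z e
 (c z e
 (c z e
 (c z e
 (c z e
 (c z e
 (c (a (nat_lit 0x243c3236323a4a277c6)) e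
 (c z e
 (c (a (nat_lit 0xb51f133090a07701ee6)) e e))))))))))
 (c (a (nat_lit 0x222381307cffbf0c4))
 (c z e
 (c z e
 (c z e
 (c z e
 (c z e
 (c (a (nat_lit 0x220c26302624061f3c7)) e
 (c (a (nat_lit 0x161c3a1e20103f18ca7)) e
 (c (a (nat_lit 0x3e46324c46408c431c7)) e e))))))))
 (c z e
 (c z e
 (c z e
 (c z e
 (c z e
 (c z e
 (c z e
 (c z e
 (c (a (nat_lit 0x106a4d0dea694464a6)) e e)))))))))))))))
 (c z
 (c (a (nat_lit 0x1a1a1a1a1b20c4d05)) e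
 (c (a (nat_lit 0x1212121300c8dcb06)) e
 (c (a (nat_lit 0x2c2c2ddf719cadd65))
 (c z e
 (c z e
 (c z e
 (c z e
 (c z e
 (c z e
 (c z e
 (c z e
 (c (a (nat_lit 0x501e90b28452ebab8a6)) e
 (c (a (nat_lit 0x44d8d0468082a50d6a7)) e
 (c (a (nat_lit 0x388c7cae401893b9e48)) e e)))))))))))
 (c (a (nat_lit 0x181928eec85f51906))
 (c z e
 (c z e
 (c z e
 (c z e
 (c z e
 (c (a (nat_lit 0x9c9c90809a9f0119607)) e
 (c (a (nat_lit 0xbebe90be513d3d41ca6)) e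
 (c (a (nat_lit 0x4e42705c7eb4bbf2c47)) e
 (c (a (nat_lit 0x58704c74565b3a8b008)) e e)))))))))
 (c z e
 (c z e
 (c z e
 (c z e
 (c z e
 (c z e
 (c z e
 (c z e
 (c (a (nat_lit 0xf6a2eb4d58be5e3c6)) e
 (c (a (nat_lit 0xd4e32724da5a403c7)) e
 (c z e
 (c z e
 (c (a (nat_lit 0x108a446261a12121a6)) e
 (c (a (nat_lit 0x1448842301a1a2a785)) e e))))))))))))))))))
 (c z
 (c (a (nat_lit 0x808084a343a7b686))
 (c z e
 (c z e
 (c z e
 (c z e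
 (c z e
 (c z e
 (c z e
 (c z e
 (c z e
 (c z e
 (c z e
 (c (a (nat_lit 0x4e5474985e485c79208)) e e))))))))))))
 (c (a (nat_lit 0xc0c42303450eb1c7))
 (c z e
 (c z e
 (c z e
 (c z e
 (c z e
 (c z e
 (c z e
 (c (a (nat_lit 0x9c78acae405880f9b47)) e
 (c (a (nat_lit 0x566252502a4af1cf687)) e
 (c (a (nat_lit 0xce92944c66b9e2f3d67)) e e))))))))))
 (c z e
 (c z e
 (c z e
 (c z e
 (c z e
 (c z e
 (c z e
 (c z e
 (c z e
 (c (a (nat_lit 0xbb1f0eecd482845e6)) e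
 (c z e
 (c z e
 (c z e
 (c (a (nat_lit 0x1ae728e70263a5c544)) e e))))))))))))))))
 (c z
 (c z e
 (c z e
 (c z e
 (c z e
 (c z e
 (c z e
 (c z e
 (c z e
 (c z e
 (c (a (nat_lit 0x1e97b7d85352d18a45)) e
 (c (a (nat_lit 0x123332cfad6de86c66)) e
 (c z e
 (c z e
 (c z e
 (c z e
 (c (a (nat_lit 0x108acca7c6e6e68005)) e e))))))))))))))))
 (c z e
 (c z
 (c z e
 (c z e
 (c z e
 (c z e
 (c z e
 (c z e
 (c (a (nat_lit 0x670e9a52967692846)) e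
 (c (a (nat_lit 0x11ca94fb334930d545)) e
 (c (a (nat_lit 0x177494f970f0fd1e65)) e
 (c (a (nat_lit 0x8c8d0316f93d31ee7)) e e))))))))))
 (c z
 (c z e
 (c z e
 (c z e
 (c z e
 (c z e
 (c (a (nat_lit 0x11a924c3a1a985e266)) e
 (c z e
 (c z e
 (c z e
 (c z e
 (c z e
 (c (a (nat_lit 0x68231674160800005)) e e))))))))))))
 (c (a (nat_lit 0x20202020203c85)) e
 (c (a (nat_lit 0x2020202032e766))
 (c z e
 (c z e
 (c z e
 (c (a (nat_lit 0xdba58f5fa9424c465)) e e))))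
 (c (a (nat_lit 0x2020203e89a825)) e
 (c (a (nat_lit 0xc0c0d045442c45)) e
 (c (a (nat_lit 0xa0b66644cdcd65)) e
 (c z e
 (c z e
 (c z e
 (c z e
 (c z e
 (c (a (nat_lit 0x84faa90004043c5)) e
 (c z e
 (c z e
 (c (a (nat_lit 0x1565054946a244c5)) e e)))))))))))))))))))))) Tr.c Tr.e (nat_lit 0) C.cx
noncomputable def C766 : Tr := beta% (fun (c : Nat → Tr → Tr → Tr) (e : Tr) (z : Nat) (a b : Nat → Nat) =>
 (c z
 (c z
 (c (a (nat_lit 0x222270563eb910fc5)) e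
 (c z e
 (c z e
 (c z e
 (c z e
 (c z e
 (c z e
 (c z e
 (c z e
 (c z e
 (c (a (nat_lit 0x1168880782a381c306)) e e)))))))))))
 (c z
 (c z e
 (c z e
 (c z e
 (c z e
 (c z e
 (c z e
 (c z e
 (c z e
 (c z e
 (c (a (nat_lit 0xf8f3066a402622567)) e e))))))))))
 (c z
 (c z e
 (c z e
 (c z e
 (c z e
 (c z e
 (c z e
 (c z e
 (c z e
 (c (a (nat_lit 0x1e3f1cb7928933b546)) e
 (c (a (nat_lit 0x12b1d24cc6890225e7)) e e))))))))))
 (c z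
 (c z e
 (c z e
 (c z e
 (c z e
 (c z e
 (c z e
 (c (a (nat_lit 0x1608e34d8526cb88e6)) e
 (c (b (nat_lit 0x1513faffe7f7b5cd85)) e e))))))))
 (c (a (nat_lit 0x202020202038e6))
 (c z e
 (c z e
 (c z e
 (c z e
 (c z e
 (c (a (nat_lit 0x6870ac343ecb16c46)) e e))))))
 (c (a (nat_lit 0x20202020308607))
 (c z e
 (c z e
 (c z e
 (c z e
 (c z e
 (c z e
 (c z e
 (c z e
 (c z e
 (c z e
 (c (a (nat_lit 0x4d1e1e3c000000005)) e e)))))))))))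
 (c (a (nat_lit 0x2020203be26187)) e
 (c (a (nat_lit 0x20203a06e08c86)) e
 (c (a (nat_lit 0x3668014ded06)) e
 (c z e
 (c z e
 (c z e
 (c z e
 (c z e
 (c z e
 (c z e
 (c z e
 (c (a (nat_lit 0x18d9d3336cc20085)) e
 (c (a (nat_lit 0x1992d38d82c120c5)) e e)))))))))))))))))))
 (c z
 (c z
 (c z e
 (c z e
 (c z e
 (c z e
 (c z e
 (c z e
 (c z e
 (c z e
 (c z e
 (c (a (nat_lit 0xd108bcf0665e5ea06)) e e))))))))))
 (c z e
 (c (a (nat_lit 0x202020203ae5)) e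
 (c (a (nat_lit 0x2020202031c6c6)) e
 (c (b (nat_lit 0x2020203044ffe7)) e
 (c (a (nat_lit 0x2032c1c34827))
 (c z e
 (c z e
 (c (a (nat_lit 0x124468888acca3ae7)) e e)))
 (c (b (nat_lit 0x405f891fed0d45)) e
 (c z e
 (c z e
 (c z e
 (c z e
 (c z e
 (c z e
 (c z e
 (c z e
 (c z e
 (c (a (nat_lit 0x126f323326a02025)) e
 (c (a (nat_lit 0x1174758941414005)) e e))))))))))))))))))
 (c z
 (c (a (nat_lit 0x202040404059e4))
 (c z e
 (c z e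
 (c z e
 (c z e
 (c z e
 (c z e
 (c z e
 (c (a (nat_lit 0x1c7798144675da4c04)) e
 (c (a (nat_lit 0xd4f49a8ee2afb1365)) e e)))))))))
 (c (a (nat_lit 0x8080808093a4c6)) e
 (c (a (nat_lit 0x20202039690046))
 (c z e
 (c z e
 (c z e
 (c z e
 (c (a (nat_lit 0x7ebeb6a2e71a93466)) e e)))))
 (c (a (nat_lit 0x20203acba14346)) e
 (c (a (nat_lit 0x607243446727e7)) e
 (c z e
 (c z e
 (c z e
 (c z e
 (c z e
 (c z e
 (c z e
 (c z e
 (c z e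
 (c (a (nat_lit 0x11cdab286020e0e6)) e e)))))))))))))))
 (c z
 (c (a (nat_lit 0x202020211a34165))
 (c z e
 (c z e
 (c z e
 (c z e
 (c z e
 (c (a (nat_lit 0x180b74d5cecea38666)) e e))))))
 (c (a (nat_lit 0x202035e8e082e6)) e
 (c (a (nat_lit 0x2c2de2e240596a6)) e
 (c z e
 (c z e
 (c z e
 (c z e
 (c z e
 (c z e
 (c z e
 (c z e
 (c z e
 (c (a (nat_lit 0x1d5c3f3718efa424)) e e)))))))))))))
 (c z
 (c (a (nat_lit 0x40537061a32405)) e e)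
 (c z
 (c z e
 (c z e
 (c z e
 (c z e
 (c z e
 (c z e
 (c z e
 (c z e
 (c z e
 (c z e
 (c z e
 (c z e
 (c z e
 (c (a (nat_lit 0x662a366f8e4c002)) e e))))))))))))))
 (c z e
 (c z
 (c z e
 (c z e
 (c z e
 (c z e
 (c (a (nat_lit 0x1c7cd510dd0b2e6)) e e)))))
 (c z
 (c z e
 (c z e
 (c z e
 (c (a (nat_lit 0x3674eefd3341f65)) e e))))
 (c z e
 (c z e
 (c z e
 (c z
 (c (a (nat_lit 0x14d51271f1562486)) e e)
 (c (a (nat_lit 0x4040404056c2))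
 (c z e
 (c z e
 (c (a (nat_lit 0x14d7b6d660000007)) e
 (c (a (nat_lit 0x1e07a00000000003)) e e))))
 (c (a (nat_lit 0xc0c0c0f5ae61))
 (c (a (nat_lit 0xe8e8f4f50400008)) e
 (c (a (nat_lit 0x207c14000000001)) e e))
 (c (a (nat_lit 0x404050afadc4)) e
 (c (a (nat_lit 0x104f6d69e4)) e e)))))))))))))))))) Tr.c Tr.e (nat_lit 0) C.cx C.cy
noncomputable def C767 : Tr := beta% (fun (c : Nat → Tr → Tr → Tr) (e : Tr) (z : Nat) (a b : Nat → Nat) =>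
 (c z
 (c (a (nat_lit 0x161616161617209a6))
 (c z e
 (c z e
 (c z e
 (c z e
 (c z e
 (c z e
 (c z e
 (c z e
 (c z e
 (c z e
 (c z e
 (c (a (nat_lit 0x2a563c2d174684ba1a7)) e e))))))))))))
 (c (a (nat_lit 0x14141414155482927)) e
 (c (a (nat_lit 0x16161617088276587))
 (c z e
 (c z e
 (c z e
 (c z e
 (c z e
 (c z e
 (c z e
 (c z e
 (c (a (nat_lit 0x525872baa086466bb47)) e
 (c (a (nat_lit 0xa88dbfe6e6c0649fce7)) e e))))))))))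
 (c (a (nat_lit 0x16161756b08a594a7))
 (c z e
 (c z e
 (c z e
 (c z e
 (c z e
 (c z e
 (c (a (nat_lit 0x11a7eb6987c72caab0e7)) e
 (c (a (nat_lit 0xa141a281c182647089)) e
 (c (a (nat_lit 0x249ede7a742465e3308)) e e)))))))))
 (c (a (nat_lit 0x1617bcf2c0a347007))
 (c z e
 (c z e
 (c z e
 (c z e
 (c z e
 (c (a (nat_lit 0x366444444a324467968)) e
 (c (a (nat_lit 0x2e1e2a2c28125750fa9)) e
 (c (a (nat_lit 0xc0d47c84424eeeeb2a8)) e e))))))))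
 (c z e
 (c z e
 (c z e
 (c z e
 (c z e
 (c z e
 (c z e
 (c z e
 (c (a (nat_lit 0xe51b00dcb48a424a8)) e
 (c z e
 (c z e
 (c (a (nat_lit 0x15132f8be6c6260406)) e e)))))))))))))))))
 (c z
 (c (a (nat_lit 0x121212135a4e44f86)) e
 (c (a (nat_lit 0x181818ee483699687))
 (c z e
 (c z e
 (c z e
 (c z e
 (c z e
 (c z e
 (c z e
 (c z e
 (c (a (nat_lit 0x26282e3622201e49029)) e
 (c (a (nat_lit 0x86a6ba7a643058cb248)) e e))))))))))
 (c (a (nat_lit 0x161732a27aad95587))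
 (c z e
 (c z e
 (c z e
 (c z e
 (c z e
 (c z e
 (c (a (nat_lit 0x644484364276b47f3e8)) e
 (c (a (nat_lit 0x3c744a5862929dfce88)) e
 (c (a (nat_lit 0x40284c2e3232108f0e9)) e e)))))))))
 (c z e
 (c z e
 (c z e
 (c z e
 (c z e
 (c z e
 (c z e
 (c z e
 (c (a (nat_lit 0x42f53b069a5022227)) e
 (c (a (nat_lit 0xff1110d0d894608e8)) e
 (c z e
 (c z e
 (c z e
 (c (a (nat_lit 0x10eac623c46464c4e5)) e e)))))))))))))))))
 (c z
 (c (a (nat_lit 0x1a1a7a382e66a3686))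
 (c z e
 (c z e
 (c z e
 (c z e
 (c z e
 (c z e
 (c z e
 (c z e
 (c (a (nat_lit 0x26243638281e669f508)) e
 (c (a (nat_lit 0x444a4a3e283e9106e88)) e
 (c (a (nat_lit 0x9ca8ae805a8f335ec48)) e e)))))))))))
 (c z e
 (c z e
 (c z e
 (c z e
 (c z e
 (c z e
 (c z e
 (c z e
 (c z e
 (c (a (nat_lit 0x193a97757509c6c446)) e
 (c z e
 (c z e
 (c z e
 (c z e
 (c (a (nat_lit 0x17b3862403c2a24124)) e e))))))))))))))))
 (c z
 (c z e
 (c z e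
 (c z e
 (c z e
 (c z e
 (c z e
 (c z e
 (c z e
 (c z e
 (c z e
 (c z e
 (c z e
 (c z e
 (c z e
 (c (a (nat_lit 0x2e7ae35d152490001)) e e)))))))))))))))
 (c z
 (c z e
 (c z e
 (c z e
 (c z e
 (c z e
 (c z e
 (c z e
 (c z e
 (c z e
 (c z e
 (c z e
 (c z e
 (c (a (nat_lit 0x11c7974d2c24594704)) e e)))))))))))))
 (c z
 (c z e
 (c z e
 (c z e
 (c z e
 (c z e
 (c z e
 (c z e
 (c (a (nat_lit 0x5c6e828e9887372c7)) e
 (c z e
 (c z e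
 (c z e
 (c z e
 (c (a (nat_lit 0x1b52c008080000005)) e e)))))))))))))
 (c z e
 (c (a (nat_lit 0x20202020203387)) e
 (c (a (nat_lit 0x202020203c4766)) e
 (c (a (nat_lit 0x202020360921c6)) e
 (c (a (nat_lit 0x141415ce683c9c6)) e
 (c (a (nat_lit 0x3f848127aba6)) e
 (c z e
 (c z e
 (c z e
 (c z e
 (c z e
 (c z e
 (c z e
 (c (b (nat_lit 0x100aa6bfe04040a5)) e e))))))))))))))))))))) Tr.c Tr.e (nat_lit 0) C.cx C.cy
noncomputable def C768 : Tr := beta% (fun (c : Nat → Tr → Tr → Tr) (e : Tr) (z : Nat) (a : Nat → Nat) =>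
 (c z
 (c z
 (c z
 (c (a (nat_lit 0x9c9c6670a2fd794b204)) e
 (c z e
 (c z e
 (c z e
 (c z e
 (c z e
 (c z e
 (c z e
 (c z e
 (c z e
 (c z e
 (c z e
 (c z e
 (c (a (nat_lit 0x847468708e9d2f2b006)) e e))))))))))))))
 (c (a (nat_lit 0x12121212121213466))
 (c z e
 (c z e
 (c z e
 (c z e
 (c z e
 (c z e
 (c z e
 (c z e
 (c z e
 (c z e
 (c z e
 (c (a (nat_lit 0x88acda8c6bd7b219126)) e e))))))))))))
 (c (a (nat_lit 0x1a1a1a1a1a1bda5c5))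
 (c z e
 (c z e
 (c z e
 (c z e
 (c z e
 (c z e
 (c z e
 (c z e
 (c z e
 (c z e
 (c z e
 (c z e
 (c (a (nat_lit 0x668694a6bf833868b09)) e e)))))))))))))
 (c (a (nat_lit 0x2a2a2a2a2b0848605))
 (c z e
 (c z e
 (c z e
 (c z e
 (c z e
 (c z e
 (c z e
 (c z e
 (c z e
 (c z e
 (c z e
 (c z e
 (c z e
 (c (a (nat_lit 0x2a2228387534000000a)) e e))))))))))))))
 (c (a (nat_lit 0x2a2a2a2b36ae3c7a5))
 (c z e
 (c z e
 (c z e
 (c z e
 (c z e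
 (c z e
 (c z e
 (c z e
 (c (a (nat_lit 0x484e9cb86c483215267)) e
 (c (a (nat_lit 0x6c874f2cee2a3923407)) e e))))))))))
 (c (a (nat_lit 0x14141566a44c73486))
 (c z e
 (c z e
 (c z e
 (c z e
 (c z e
 (c z e
 (c (a (nat_lit 0x161c361e2828144f768)) e
 (c (a (nat_lit 0x58d0985294664d39307)) e
 (c (a (nat_lit 0x508c867c322a82c16a8)) e e)))))))))
 (c (a (nat_lit 0x14154f22eedadaac6))
 (c z e
 (c z e
 (c z e
 (c z e
 (c z e
 (c (a (nat_lit 0x2e2e3e2a26244c61308)) e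
 (c (a (nat_lit 0x626e323a22405ab1a28)) e
 (c (a (nat_lit 0xdabcb4647038732cdc8)) e e))))))))
 (c z e
 (c z e
 (c z e
 (c z e
 (c z e
 (c z e
 (c z e
 (c z e
 (c (a (nat_lit 0x19b6787a532b8aa7e7)) e
 (c z e
 (c (a (nat_lit 0x9f02c87c46142e4c5)) e e))))))))))))))))))
 C767)
 (c z
 (c z
 (c (a (nat_lit 0x8c8c8c8c8c3d14fc3))
 (c z e
 (c z e
 (c z e
 (c z e
 (c z e
 (c z e
 (c z e
 (c z e
 (c z e
 (c z e
 (c z e
 (c z e
 (c z e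
 (c z e
 (c (a (nat_lit 0x809cb2b4b1f12690008)) e e)))))))))))))))
 (c (a (nat_lit 0x30303031226c7eea5)) e
 (c (a (nat_lit 0x1818187e543a4f526))
 (c z e
 (c z e
 (c z e
 (c z e
 (c z e
 (c z e
 (c z e
 (c z e
 (c (a (nat_lit 0x1212262a2a1618410c9)) e
 (c (a (nat_lit 0x1c90b06242304786ce8)) e
 (c (a (nat_lit 0x408a90b0383ac26d289)) e e)))))))))))
 (c (a (nat_lit 0x1818ea7c706ba5906))
 (c z e
 (c z e
 (c z e
 (c z e
 (c z e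
 (c z e
 (c z e
 (c (a (nat_lit 0x3e68daaa6a52e193a47)) e
 (c (a (nat_lit 0x7ac46868206172ec948)) e e)))))))))
 (c z e
 (c z e
 (c z e
 (c z e
 (c z e
 (c z e
 (c z e
 (c z e
 (c (a (nat_lit 0x12d57bd3d4ae27e0c5)) e
 (c (a (nat_lit 0x1b5c5bbe786e6d30c6)) e e))))))))))))))
 (c z
 (c (a (nat_lit 0x18181912403ea5646))
 (c z e
 (c z e
 (c z e
 (c z e
 (c z e
 (c z e
 (c z e
 (c z e
 (c z e
 (c (a (nat_lit 0x121a2644342a2e33368)) e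
 (c (a (nat_lit 0x58cb06ac524256ef9a7)) e
 (c (a (nat_lit 0x7acacf24d06ce573e48)) e e))))))))))))
 (c (a (nat_lit 0x1616c2503c6f33a07))
 (c z e
 (c z e
 (c z e
 (c z e
 (c z e
 (c z e
 (c z e
 (c (a (nat_lit 0x546a56b04c5648c3e68)) e
 (c (a (nat_lit 0x1a16281016142b282ea)) e
 (c (a (nat_lit 0x60863c2e243b48768a9)) e e))))))))))
 (c z e
 (c z e
 (c z e
 (c z e
 (c z e
 (c z e
 (c z e
 (c z e
 (c z e
 (c (a (nat_lit 0x173d5cdbf4cfc90a06)) e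
 (c z e
 (c z e
 (c z e
 (c z e
 (c (a (nat_lit 0x1a41caea096c0c8343)) e e)))))))))))))))))
 (c z e
 (c z
 (c z e
 (c z e
 (c z e
 (c z e
 (c z e
 (c z e
 (c z e
 (c z e
 (c (a (nat_lit 0x145571ad8b44041466)) e
 (c (a (nat_lit 0x1e169293a967a4aac6)) e e))))))))))
 (c z e
 (c z e
 (c (a (nat_lit 0x202020202031a7))
 (c z e
 (c z e
 (c z e
 (c z e
 (c z e
 (c z e
 (c z e
 (c z e
 (c z e
 (c z e
 (c (a (nat_lit 0x1bc96a4163a0000005)) e e)))))))))))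
 (c (a (nat_lit 0x202020203804a7)) e
 (c (a (nat_lit 0x2020203f068166)) e
 (c (a (nat_lit 0x20203ba7c22c46)) e
 (c (a (nat_lit 0x40510241c6a8a7)) e e)))))))))))
 C766))) Tr.c Tr.e (nat_lit 0) C.cx
noncomputable def C769 : Tr := beta% (fun (c : Nat → Tr → Tr → Tr) (e : Tr) (z : Nat) (a b : Nat → Nat) =>
 (c z
 (c (a (nat_lit 0x44444444444445de3))
 (c z e
 (c z e
 (c z e
 (c z e
 (c z e
 (c z e
 (c z e
 (c z e
 (c z e
 (c z e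
 (c z e
 (c (a (nat_lit 0x2c3c3c3639510042b86)) e
 (c (a (nat_lit 0x342c283a43292d50407)) e e)))))))))))))
 (c (a (nat_lit 0x222222222223e4145)) e
 (c (a (nat_lit 0x28282828292858205)) e
 (c (a (nat_lit 0x2a2a2a2bb27c68d05))
 (c z e
 (c z e
 (c z e
 (c z e
 (c z e
 (c (a (nat_lit 0xf062a2c4c078ca93c86)) e
 (c z e
 (c z e
 (c (a (nat_lit 0x6e52ff1ac6d050af5e7)) e e)))))))))
 (c (a (nat_lit 0x1414154c7448ab746))
 (c z e
 (c z e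
 (c z e
 (c z e
 (c (a (nat_lit 0x68606e787a76388d167)) e
 (c z e
 (c (a (nat_lit 0x81c2c2c1e16083f8c8)) e
 (c (a (nat_lit 0x671b30d8725e6aef687)) e
 (c (a (nat_lit 0x38b0b6c4241e3033fc8)) e e)))))))))
 (c (a (nat_lit 0x12135ee860ae84f46))
 (c z e
 (c z e
 (c z e
 (c z e
 (c (a (nat_lit 0x3e50649a58287af5947)) e
 (c (a (nat_lit 0x1820563014203d4eec8)) e
 (c (a (nat_lit 0x10170ce96544d14ebdc7)) e
 (c (a (nat_lit 0xe4c4cc3c326679887e8)) e e))))))))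
 (c z e
 (c z e
 (c z e
 (c z e
 (c z e
 (c z e
 (c z e
 (c (a (nat_lit 0x11f417724ba7640367)) e
 (c (a (nat_lit 0x177bbaf9f3110b09a7)) e
 (c z e
 (c z e
 (c (a (nat_lit 0x10ada9e4c262c343e5)) e
 (c (a (nat_lit 0x19f287a303e4e625e4)) e
 (c (a (nat_lit 0x150a25a6c485a2a004)) e e))))))))))))))))))))
 (c z
 (c (a (nat_lit 0x161616161770381e5)) e
 (c (a (nat_lit 0x2c2c2c2d985a2f3c5))
 (c z e
 (c z e
 (c z e
 (c z e
 (c z e
 (c z e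
 (c z e
 (c z e
 (c z e
 (c z e
 (c z e
 (c (a (nat_lit 0xe0ff0ddf57a16921088)) e e))))))))))))
 (c (a (nat_lit 0x1818191e7270b9e66))
 (c z e
 (c z e
 (c z e
 (c z e
 (c z e
 (c z e
 (c (a (nat_lit 0x1090666f85cac8151d66)) e
 (c (a (nat_lit 0x703486846c486087e87)) e
 (c (a (nat_lit 0x52be98d8c06ca0454a7)) e
 (c (a (nat_lit 0x56647c7c442c125f288)) e e))))))))))
 (c (a (nat_lit 0x16175a825ccddf5e6))
 (c z e
 (c z e
 (c z e
 (c z e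
 (c z e
 (c (a (nat_lit 0x5c6e8480664a651f807)) e
 (c (a (nat_lit 0x202a281c0c283773a68)) e
 (c (a (nat_lit 0xaea08486605c8983547)) e
 (c (a (nat_lit 0x5c4a60361e224da04c8)) e e)))))))))
 (c z e
 (c z e
 (c z e
 (c z e
 (c z e
 (c z e
 (c z e
 (c z e
 (c (a (nat_lit 0xf10f08aa845e4a567)) e
 (c z e
 (c z e
 (c (a (nat_lit 0x1a9729cc65862709c4)) e
 (c (a (nat_lit 0x1507ca83e46527e6c4)) e e)))))))))))))))))
 (c z
 (c (a (nat_lit 0x1e1e1e3a26267f0a5))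
 (c z e
 (c z e
 (c z e
 (c z e
 (c z e
 (c z e
 (c z e
 (c z e
 (c (a (nat_lit 0x1228203a403016575a7)) e e)))))))))
 (c (a (nat_lit 0x1e1e5a5058657b2a6))
 (c z e
 (c z e
 (c z e
 (c z e
 (c z e
 (c z e
 (c (a (nat_lit 0x3e404c386a0e62ff0c7)) e
 (c (a (nat_lit 0x2020302c0e0c595ef28)) e
 (c (a (nat_lit 0x664ea8ca3c7502e9127)) e e)))))))))
 (c z e
 (c z e
 (c z e
 (c z e
 (c z e
 (c z e
 (c z e
 (c z e
 (c (a (nat_lit 0x8fb1cfab3cde4e585)) e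
 (c (a (nat_lit 0x17f87c18f8d670d726)) e
 (c (a (nat_lit 0x7adef909673f10fc7)) e e)))))))))))))
 (c z
 (c z e
 (c z e
 (c z e
 (c z e
 (c z e
 (c z e
 (c z e
 (c z e
 (c z e
 (c (b (nat_lit 0x106cee8e9fe8652406)) e
 (c (a (nat_lit 0x7a8ec69108fcbce87)) e e)))))))))))
 (c z
 (c z e
 (c z e
 (c z e
 (c z e
 (c z e
 (c z e
 (c z e
 (c (a (nat_lit 0xc2e2fd0f28ecd0a06)) e e))))))))
 (c z
 (c z e
 (c z e
 (c z e
 (c z e
 (c z e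
 (c (a (nat_lit 0x1ca252668aaa950a5)) e
 (c (a (nat_lit 0x134e92599998b87cc5)) e e)))))))
 (c z e
 (c z
 (c z e
 (c z e
 (c z e
 (c z e
 (c (a (nat_lit 0x9c630ecc7ade722c6)) e e)))))
 (c (a (nat_lit 0x40404040405824)) e
 (c (a (nat_lit 0x2020202030a725)) e
 (c (a (nat_lit 0x20202036c5a365)) e
 (c (a (nat_lit 0x141415706032565)) e
 (c (a (nat_lit 0x3c3da8dc8cb55c4)) e
 (c z e
 (c z e
 (c z e
 (c (a (nat_lit 0x4c570b621602304)) e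
 (c z e
 (c (a (nat_lit 0x11770242c404a284)) e e)))))))))))))))))))) Tr.c Tr.e (nat_lit 0) C.cx C.cy
noncomputable def C770 : Tr := beta% (fun (c : Nat → Tr → Tr → Tr) (e : Tr) (z : Nat) (a b : Nat → Nat) =>
 (c z
 (c z
 (c (a (nat_lit 0x2828282828293842303)) e
 (c (a (nat_lit 0x2c2c2c2c2d184a564a4)) e
 (c (a (nat_lit 0x282828294e48308aa64)) e
 (c (a (nat_lit 0x3434358a4c3ea3670c4)) e
 (c (a (nat_lit 0x444510464474f8cc8a4)) e e)))))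
 (c z
 (c (a (nat_lit 0x50505050a646bab1a84)) e
 (c (a (nat_lit 0x303030b456667cc3086)) e
 (c (a (nat_lit 0x2e2eca3648855f1ed86)) e
 (c z e
 (c z e
 (c z e
 (c z e
 (c z e
 (c z e
 (c z e
 (c z e
 (c z e
 (c z e
 (c (a (nat_lit 0x485250424e565c59106)) e e))))))))))))))
 (c z
 (c (a (nat_lit 0x2e2e72383682bb32aa5)) e
 (c z e
 (c z e
 (c z e
 (c z e
 (c z e
 (c z e
 (c z e
 (c z e
 (c z e
 (c z e
 (c (a (nat_lit 0x62526e6a76543f10b65)) e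
 (c (a (nat_lit 0x58424a58424e4eb72a6)) e
 (c (a (nat_lit 0x4a4e7882889492950c8)) e e))))))))))))))
 (c z e
 (c (a (nat_lit 0x36363636363637423))
 (c z e
 (c z e
 (c z e
 (c z e
 (c z e
 (c z e
 (c z e
 (c z e
 (c z e
 (c z e
 (c z e
 (c (a (nat_lit 0xcce4e2e8eaf38c937c7)) e e))))))))))))
 (c (a (nat_lit 0x505050505051441c3))
 (c z e
 (c z e
 (c z e
 (c z e
 (c z e
 (c z e
 (c z e
 (c z e
 (c z e
 (c z e
 (c (a (nat_lit 0xd4bac4cccf4e6b24527)) e e)))))))))))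
 (c (a (nat_lit 0x20202020217274064))
 (c z e
 (c z e
 (c z e
 (c z e
 (c z e
 (c z e
 (c z e
 (c z e
 (c z e
 (c (a (nat_lit 0xeecedae7729096b6c67)) e e))))))))))
 (c (a (nat_lit 0x1a1a1a1b20c020365))
 (c z e
 (c z e
 (c z e
 (c z e
 (c z e
 (c z e
 (c z e
 (c z e
 (c (a (nat_lit 0x12f3f57c288404940546)) e e)))))))))
 (c (a (nat_lit 0xc0c0d5ed62456345))
 (c z e
 (c z e
 (c z e
 (c z e
 (c (a (nat_lit 0x3a5c5a5a423a30370e7)) e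
 (c (a (nat_lit 0x304c32101218229f287)) e
 (c (a (nat_lit 0x58eca8424240c011d26)) e e)))))))
 (c (a (nat_lit 0x2829b0806aae2c325))
 (c z e
 (c z e
 (c z e
 (c (a (nat_lit 0x447c5a56242237bb806)) e
 (c (a (nat_lit 0xd29880606478aadb726)) e
 (c (a (nat_lit 0x112e27e82563ea166e86)) e
 (c (a (nat_lit 0x18eb778f06f773200005)) e
 (c (a (nat_lit 0x1c33a9f127a000000006)) e e))))))))
 (c z e
 (c z e
 (c z e
 (c z e
 (c z e
 (c z e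
 (c (a (nat_lit 0x123252b2320e862266)) e
 (c (b (nat_lit 0x10d130afffe9c564a6)) e e))))))))))))))))))
 (c z
 (c z
 (c (a (nat_lit 0x5a5a5a4a3c869d2d165)) e
 (c (a (nat_lit 0x5454c28cc6c14d793a6)) e
 (c z e
 (c z e
 (c z e
 (c z e
 (c z e
 (c z e
 (c z e
 (c z e
 (c z e
 (c z e
 (c (a (nat_lit 0xd10323010ead03b9785)) e
 (c (a (nat_lit 0x8c847c6672a8a539d86)) e
 (c z e
 (c z e
 (c (a (nat_lit 0x8ac4f3111712fce3148)) e e)))))))))))))))))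
 (c z
 (c z e
 (c z e
 (c z e
 (c z e
 (c z e
 (c z e
 (c z e
 (c z e
 (c z e
 (c z e
 (c z e
 (c (a (nat_lit 0x3e70ccbc8683a12c1a6)) e
 (c (a (nat_lit 0x7c80807a88838f97dc7)) e e)))))))))))))
 (c (a (nat_lit 0xe0e0e0e0e0e0f1e6)) e
 (c (a (nat_lit 0x4c4c4c4c4c4d023e4))
 (c z e
 (c z e
 (c z e
 (c z e
 (c z e
 (c z e
 (c z e
 (c z e
 (c z e
 (c z e
 (c z e
 (c (a (nat_lit 0x8c98a2b4b74cf8d6509)) e e))))))))))))
 (c (a (nat_lit 0x4a4a4a4a4b7adc5a4)) e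
 (c (a (nat_lit 0x121212131e7624406))
 (c z e
 (c z e
 (c z e
 (c z e
 (c z e
 (c z e
 (c z e
 (c (a (nat_lit 0x8484feac8c9a6667aa7)) e
 (c (a (nat_lit 0x4660ed0486482719307)) e e)))))))))
 (c (a (nat_lit 0x1414156f1288847a6))
 (c z e
 (c z e
 (c z e
 (c z e
 (c z e
 (c (a (nat_lit 0x265a7678905060698e7)) e
 (c (a (nat_lit 0x4076705048223a291c8)) e
 (c (a (nat_lit 0x996962caae848d49f87)) e e))))))))
 (c (a (nat_lit 0x121387106e88846c6))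
 (c z e
 (c z e
 (c z e
 (c z e
 (c (a (nat_lit 0x5658487a3a566965808)) e
 (c (a (nat_lit 0x423834242a1e74ef389)) e
 (c (a (nat_lit 0x6876463e244e4b026a9)) e e)))))))
 (c z e
 (c z e
 (c z e
 (c z e
 (c z e
 (c z e
 (c (a (nat_lit 0x13b354d22fca64a407)) e
 (c (a (nat_lit 0x10b190b12eca27a808)) e e))))))))))))))))
 C769))) Tr.c Tr.e (nat_lit 0) C.cx C.cy
noncomputable def C771 : Tr := beta% (fun (c : Nat → Tr → Tr → Tr) (e : Tr) (z : Nat) (a : Nat → Nat) =>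
 (c z
 (c (a (nat_lit 0x11b1b1b10d020001))
 (c z e
 (c z e
 (c z e
 (c z e
 (c z e
 (c z e
 (c (a (nat_lit 0x3c3e1e2032080f087)) e
 (c (a (nat_lit 0x5e381e263052df127)) e
 (c (a (nat_lit 0x7c8a7258711500707)) e e)))))))))
 (c (a (nat_lit 0x12b2bb5290c31d83))
 (c z e
 (c z e
 (c z e
 (c (a (nat_lit 0xee931902dc7caa687)) e
 (c z e
 (c (a (nat_lit 0x885c6a461419f9607)) e e))))))
 (c z e
 (c (a (nat_lit 0x36361e1826cb7a4))
 (c (a (nat_lit 0xa50eae887cc4b1ae5)) e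
 (c (a (nat_lit 0x1c22200c603108b27)) e
 (c (a (nat_lit 0x8acccb12d713092e6)) e
 (c z e
 (c z e
 (c (a (nat_lit 0x80977d0ce20000006)) e e))))))
 (c (a (nat_lit 0x1e1a18209f1f8a4))
 (c (a (nat_lit 0x3c4430a24aa90a6e6)) e
 (c z e
 (c z e
 (c (a (nat_lit 0x666ec3665c4a00007)) e
 (c (a (nat_lit 0x53dd43e000000005)) e e)))))
 (c z e
 (c z e
 (c (a (nat_lit 0x7d050d84fc52145)) e
 (c (a (nat_lit 0x11115590674441e6)) e
 (c z e
 (c (a (nat_lit 0x164eabcbc0a0e8e5)) e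
 (c (a (nat_lit 0x1eb1d24467a202a3)) e
 (c (a (nat_lit 0x106ee12260e1a263)) e
 (c (a (nat_lit 0x1041e22222c5e463)) e e))))))))))))))
 (c z
 (c (a (nat_lit 0x56b65e4e0873184))
 (c z e
 (c z e
 (c z e
 (c z e
 (c (a (nat_lit 0x2e3e80363e791a7a6)) e
 (c (a (nat_lit 0x12282e2611a387786)) e e))))))
 (c z e
 (c z e
 (c z e
 (c (a (nat_lit 0x42bd3fa18171784))
 (c z e
 (c (a (nat_lit 0x48c177e8a25e00007)) e e))
 (c (a (nat_lit 0x2626efb04ec6e4))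
 (c (a (nat_lit 0x16d73a1e1e0000007)) e e)
 (c (a (nat_lit 0x12911897ae46eaa5)) e
 (c z e
 (c z e
 (c (a (nat_lit 0xae989ec0908f9e5)) e
 (c (a (nat_lit 0x128a6720e1e02024)) e
 (c (a (nat_lit 0x132fc98ac8e827a4)) e
 (c z e
 (c (a (nat_lit 0x1d3e5cdb1a9ad9a2)) e e))))))))))))))
 (c z
 (c z e
 (c z e
 (c z e
 (c z e
 (c (a (nat_lit 0x151142230552da64))
 (c (a (nat_lit 0x95988e08000000007)) e e)
 (c z e
 (c z e
 (c z e
 (c (a (nat_lit 0x1e790b2727173a6)) e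
 (c z e
 (c z e
 (c (a (nat_lit 0xaebc96bc4911663)) e
 (c (a (nat_lit 0xcea4cc6b2ebe003)) e e)))))))))))))
 (c z
 (c (a (nat_lit 0x194e4efa47d0d7a3))
 (c z e
 (c (a (nat_lit 0x323e5968e71468607)) e e))
 (c (a (nat_lit 0xa888c44ca2f7184))
 (c (a (nat_lit 0x2a3738c70ea240227)) e e)
 (c (a (nat_lit 0x73044082d6c1744)) e
 (c z e
 (c z e
 (c (a (nat_lit 0xa408efaf4f3a25)) e
 (c (a (nat_lit 0x24f89ada98bb05)) e
 (c z e
 (c z e
 (c (a (nat_lit 0x1bd98bc9cba766c2)) e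
 (c (a (nat_lit 0x12c4a3a401a02022)) e e)))))))))))
 (c z
 (c (a (nat_lit 0x3c643a5e8ad9883)) e
 (c z e
 (c z e
 (c (a (nat_lit 0x62dafb373d3f465)) e
 (c (a (nat_lit 0x48a9c3f5f3c5de5)) e
 (c z e
 (c z e
 (c (a (nat_lit 0x1091c8c768482703)) e
 (c (a (nat_lit 0x18e6866807c3c482)) e e)))))))))
 (c z
 (c z e
 (c (a (nat_lit 0x22c3737571ee24)) e
 (c (a (nat_lit 0x362ebd4128e0e04)) e
 (c z e
 (c z e
 (c (a (nat_lit 0x13931190b0d0e885)) e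
 (c (a (nat_lit 0x184be5a4498342c2)) e e)))))))
 (c z
 (c (a (nat_lit 0x24f7f735d49023)) e
 (c z e
 (c z e
 (c (a (nat_lit 0x1312b655b5f611a6)) e
 (c (a (nat_lit 0x1edefc7f1f8be124)) e
 (c (a (nat_lit 0x1eae183f55c40041)) e e))))))
 (c z
 (c z e
 (c (a (nat_lit 0xecf2ece4e114ce6)) e
 (c z e
 (c z e
 (c z e
 (c (a (nat_lit 0x4746ca2e2c00003)) e
 (c (a (nat_lit 0x142c816000000003)) e
 (c (a (nat_lit 0x1880000000000002)) e e))))))))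
 (c z
 (c (a (nat_lit 0x1110f17112eae745)) e
 (c z e
 (c z e
 (c (a (nat_lit 0x174e12729972a004)) e
 (c (a (nat_lit 0x879badb60000002)) e
 (c (a (nat_lit 0x200000000001)) e e))))))
 (c z
 (c z e
 (c (a (nat_lit 0x562608241d6d546)) e
 (c (a (nat_lit 0x11f2345393600006)) e
 (c (a (nat_lit 0x15e22e000000001)) e e))))
 (c (a (nat_lit 0xc0c0c0c0c001))
 (c (a (nat_lit 0x1513135395938006)) e
 (c (a (nat_lit 0xd504fefa0000003)) e e))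
 (c (a (nat_lit 0x4040404c7502)) e
 (c (a (nat_lit 0x242424e972962)) e
 (c (a (nat_lit 0x909151d702be2)) e
 (c (a (nat_lit 0x2add6ea07a462)) e
 (c (a (nat_lit 0xa33668460c4e2)) e
 (c (a (nat_lit 0x13c6a4a0e4c302)) e
 (c (a (nat_lit 0x122a85adca4001)) e
 (c z e
 (c (a (nat_lit 0x5ef0ec080ab21)) e
 (c (a (nat_lit 0xdad81008b7b01)) e
 (c (a (nat_lit 0xfa1c1adbd43a1)) e e))))))))))))))))))))))) Tr.c Tr.e (nat_lit 0) C.cx
noncomputable def C772 : Tr := beta% (fun (c : Nat → Tr → Tr → Tr) (e : Tr) (z : Nat) (a b : Nat → Nat) =>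
 (c z
 (c z
 (c (a (nat_lit 0xbef307527e84c8923)) e
 (c z e
 (c z e
 (c z e
 (c z e
 (c z e
 (c z e
 (c z e
 (c z e
 (c z e
 (c z e
 (c z e
 (c z e
 (c (a (nat_lit 0xfe9cc787af8345da5)) e e))))))))))))))
 (c z
 (c z e
 (c z e
 (c z e
 (c z e
 (c z e
 (c z e
 (c z e
 (c z e
 (c z e
 (c (a (nat_lit 0xd8f910dc9c9c445c6)) e e))))))))))
 (c z
 (c z e
 (c z e
 (c z e
 (c z e
 (c z e
 (c z e
 (c z e
 (c (a (nat_lit 0xb52122f86ca470c05)) e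
 (c (a (nat_lit 0x1c9b396f8fc843b625)) e e)))))))))
 (c (a (nat_lit 0x282828282829503))
 (c z e
 (c z e
 (c z e
 (c z e
 (c z e
 (c (a (nat_lit 0x7b3736d06a424ae25)) e
 (c (a (nat_lit 0x1537720c8726cad4c5)) e e)))))))
 (c (a (nat_lit 0x32323232339a104))
 (c z e
 (c z e
 (c z e
 (c z e
 (c (a (nat_lit 0x16ba6d2f6a2408f445)) e
 (c (a (nat_lit 0x1fd3778fa52edeb0c5)) e
 (c z e
 (c z e
 (c z e
 (c (a (nat_lit 0x3e3a727cad4e00008)) e e))))))))))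
 (c (a (nat_lit 0x2020203440a0c5)) e
 (c (a (nat_lit 0x8a8a8bf86c2d363)) e
 (c (a (nat_lit 0x4e4ef0422340383))
 (c z e
 (c (a (nat_lit 0x16949a36a04013f85)) e e))
 (c (a (nat_lit 0xf04260ea86e964))
 (c z e
 (c (a (nat_lit 0x9872a69250c4f7666)) e e))
 (c (b (nat_lit 0x17003fe7a545a924))
 (c (a (nat_lit 0x12940e9065cbf70865)) e e)
 (c z e
 (c z e
 (c z e
 (c (a (nat_lit 0xcd6d9f9f6cba385)) e
 (c (a (nat_lit 0xa971654ab286043)) e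
 (c z e
 (c (a (nat_lit 0x1a53512dc6676803)) e
 (c (a (nat_lit 0x1f597445a848a9c2)) e
 (c (a (nat_lit 0x16d162e7a6072482)) e e)))))))))))))))))))
 (c z
 (c z
 (c z e
 (c z e
 (c z e
 (c z e
 (c z e
 (c z e
 (c z e
 (c z e
 (c (a (nat_lit 0x111272694804277405)) e
 (c (a (nat_lit 0x14b68feeaceb0b2ca5)) e
 (c (a (nat_lit 0xeabaac96b4bc83086)) e e)))))))))))
 (c (a (nat_lit 0x505050505051e23))
 (c z e
 (c z e
 (c z e
 (c z e
 (c z e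
 (c z e
 (c (a (nat_lit 0xb34344bf034ac0ce5)) e e)))))))
 (c (a (nat_lit 0x3e3e3e4041ca5c3))
 (c z e
 (c z e
 (c z e
 (c z e
 (c (a (nat_lit 0x1a710a4a256897f205)) e
 (c (a (nat_lit 0xf03e824062612b845)) e e))))))
 (c (b (nat_lit 0x8080809ff1dfe1))
 (c z e
 (c z e
 (c z e
 (c (a (nat_lit 0xca5f16844c90bc546)) e
 (c (a (nat_lit 0x2b0c5422309a38926)) e e)))))
 (c (a (nat_lit 0x60809603062865)) e
 (c (a (nat_lit 0xe6340a2f704))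
 (c z e
 (c (a (nat_lit 0xe3e16c01a8316845)) e e))
 (c z e
 (c z e
 (c z e
 (c z e
 (c z e
 (c z e
 (c z e
 (c z e
 (c (a (nat_lit 0x17ae91f08781e044)) e
 (c (a (nat_lit 0xdf0f006e1402024)) e
 (c z e
 (c (a (nat_lit 0x15ac86e565e44324)) e e))))))))))))))))))
 (c z
 (c z
 (c z e
 (c (a (nat_lit 0x110b0a02a30fa87265)) e
 (c z e
 (c z e
 (c z e
 (c z e
 (c (a (nat_lit 0xa6b36f8686787e9e5)) e
 (c (a (nat_lit 0x9f0916965aa0e8ce6)) e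
 (c z e
 (c (a (nat_lit 0x1906286d6b0aeacbc5)) e
 (c (a (nat_lit 0x945ef0fafb5e708a6)) e e)))))))))))
 (c (a (nat_lit 0x11919191b0ecc101))
 (c (a (nat_lit 0x9076524490c87f626)) e
 (c z e
 (c z e
 (c z e
 (c (a (nat_lit 0xae9c479844fa680e5)) e
 (c (a (nat_lit 0x7a23820e48985ee85)) e
 (c z e
 (c z e
 (c (a (nat_lit 0xaedb1eeac59ff3fe6)) e e)))))))))
 (c (a (nat_lit 0x767677a88058004)) e
 (c (a (nat_lit 0x26273e5676842a5)) e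
 (c (a (nat_lit 0x3ab072201b6d583)) e
 (c (a (nat_lit 0x7a6c342b7f166a3))
 (c (a (nat_lit 0x72a8b04ccab0ed9c5)) e
 (c z e
 (c z e
 (c z e
 (c (a (nat_lit 0x181366599340000004)) e e)))))
 (c z e
 (c z e
 (c z e
 (c (b (nat_lit 0x10fa17be19871fe5)) e
 (c z e
 (c z e
 (c (a (nat_lit 0x187436cb07878724)) e
 (c (a (nat_lit 0xdd023c0a06261c4)) e
 (c (a (nat_lit 0x1f66a0204402e0c3)) e e)))))))))))))))
 C771)))) Tr.c Tr.e (nat_lit 0) C.cx C.cy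
noncomputable def C773 : Tr := beta% (fun (c : Nat → Tr → Tr → Tr) (e : Tr) (z : Nat) (a : Nat → Nat) =>
 (c z
 (c (a (nat_lit 0x5e5e5e5faaaab1663))
 (c z e
 (c z e
 (c z e
 (c z e
 (c z e
 (c z e
 (c z e
 (c z e
 (c z e
 (c z e
 (c (a (nat_lit 0x161aaa925e381c47cc6)) e
 (c (a (nat_lit 0x4040828cd0a63ecf767)) e e))))))))))))
 (c (a (nat_lit 0x1e1e1e92484c73205))
 (c z e
 (c z e
 (c z e
 (c z e
 (c z e
 (c z e
 (c z e
 (c z e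
 (c (a (nat_lit 0xa140a2014141c1f728)) e
 (c (a (nat_lit 0x2e506638382c5130648)) e
 (c (a (nat_lit 0x38e0b948944d932df07)) e e)))))))))))
 (c (a (nat_lit 0x46476cff22f1bb805))
 (c z e
 (c z e
 (c z e
 (c z e
 (c z e
 (c z e
 (c z e
 (c (a (nat_lit 0xe4ec7cf2a4d29d45906)) e
 (c (a (nat_lit 0xc084ba5a6095ef2cc47)) e
 (c (a (nat_lit 0x7298b452329f0110568)) e e))))))))))
 (c (a (nat_lit 0x1114dafed930a61a5)) e
 (c (a (nat_lit 0x17f1d71a5b34e82644))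
 (c z e
 (c z e
 (c z e
 (c z e
 (c z e
 (c z e
 (c (a (nat_lit 0x6e66208ba04ad498ec7)) e e)))))))
 (c z e
 (c z e
 (c (a (nat_lit 0xbf16f2bc1a18380a5)) e
 (c (a (nat_lit 0x1f1b91c5634403a544)) e
 (c z e
 (c z e
 (c (a (nat_lit 0x329fa563631ee0d64)) e
 (c (a (nat_lit 0x9caecf372ecc8ca66)) e e)))))))))))))
 (c z
 (c (a (nat_lit 0x34344e506674fd4e4))
 (c z e
 (c z e
 (c z e
 (c z e
 (c z e
 (c z e
 (c z e
 (c z e
 (c (a (nat_lit 0x81e20201e303b92667)) e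
 (c (a (nat_lit 0x464e1c2a3247746e507)) e
 (c (a (nat_lit 0x82629e4e3ece4b46567)) e e)))))))))))
 (c z e
 (c z e
 (c z e
 (c z e
 (c z e
 (c z e
 (c z e
 (c z e
 (c (a (nat_lit 0x1e99d9767730238784)) e
 (c (a (nat_lit 0x165e3d9a7b0fcbe4a4)) e e)))))))))))
 (c z
 (c z e
 (c z e
 (c z e
 (c z e
 (c z e
 (c z e
 (c z e
 (c z e
 (c z e
 (c z e
 (c (a (nat_lit 0xaf1112e2dca66cf26)) e
 (c (a (nat_lit 0xc0e0e8f70adadd0c7)) e e))))))))))))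
 (c z
 (c z e
 (c (a (nat_lit 0x32aac93454b0fa25)) e
 (c z e
 (c z e
 (c z e
 (c z e
 (c z e
 (c (a (nat_lit 0x14d15a98b7db0fda25)) e
 (c (a (nat_lit 0x84db04d3004e3ada5)) e
 (c (a (nat_lit 0xdef8f10d36fd273a6)) e e))))))))))
 (c z
 (c (a (nat_lit 0x1c2822a2663d16f65)) e
 (c z e
 (c z e
 (c z e
 (c z e
 (c z e
 (c (a (nat_lit 0x1175f54fad488dc9e5)) e
 (c (a (nat_lit 0x179a96d251ccf5bdc5)) e
 (c (a (nat_lit 0x147311383759187966)) e e)))))))))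
 (c z
 (c z e
 (c z e
 (c z e
 (c z e
 (c z e
 (c (a (nat_lit 0x1794918f6efb15a905)) e
 (c (a (nat_lit 0x886a54628f28ceb26)) e e)))))))
 (c (a (nat_lit 0x60606060607ee5))
 (c z e
 (c z e
 (c z e
 (c z e
 (c z e
 (c (a (nat_lit 0x7cb8a2a35d7d34186)) e e))))))
 (c (a (nat_lit 0x40404040520045))
 (c z e
 (c z e
 (c z e
 (c z e
 (c z e
 (c (a (nat_lit 0x1571b2335636c3e906)) e e))))))
 (c (a (nat_lit 0x6060607c4102e4))
 (c z e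
 (c z e
 (c z e
 (c z e
 (c (a (nat_lit 0xc2ed29717e4816266)) e e)))))
 (c (a (nat_lit 0x202034818227c5)) e
 (c (a (nat_lit 0x405b00c1474a45))
 (c (a (nat_lit 0x16d1a924aa464bd8c5)) e e)
 (c (a (nat_lit 0x50a101872b2ac5)) e
 (c (a (nat_lit 0xf86454e3231ce65))
 (c (a (nat_lit 0x10ae6bd08840000006)) e e)
 (c z e
 (c z e
 (c (a (nat_lit 0x13bffa2da121e763)) e
 (c (a (nat_lit 0x1fda0da18207a5c3)) e
 (c (a (nat_lit 0x19ed8161e785a403)) e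
 (c z e
 (c (a (nat_lit 0xa2b3793cbabeb02)) e
 (c (a (nat_lit 0x2561386a2c10661)) e
 (c (a (nat_lit 0x12d1ab08c7eaa002)) e e))))))))))))))))))))))) Tr.c Tr.e (nat_lit 0) C.cx
noncomputable def C774 : Tr := beta% (fun (c : Nat → Tr → Tr → Tr) (e : Tr) (z : Nat) (a : Nat → Nat) =>
 (c z
 (c z
 (c z
 (c z e
 (c z e
 (c z e
 (c z e
 (c z e
 (c z e
 (c z e
 (c z e
 (c z e
 (c z e
 (c z e
 (c z e
 (c z e
 (c z e
 (c (a (nat_lit 0x5e5c687c868b4f7c527)) e e)))))))))))))))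
 (c (a (nat_lit 0x8a8a8a8a8b80f7362))
 (c z e
 (c z e
 (c z e
 (c z e
 (c z e
 (c z e
 (c z e
 (c z e
 (c z e
 (c z e
 (c z e
 (c z e
 (c z e
 (c (a (nat_lit 0x4648525071130a38009)) e e))))))))))))))
 (c (a (nat_lit 0xd6d6d6d6a900e9462))
 (c z e
 (c z e
 (c z e
 (c z e
 (c z e
 (c z e
 (c z e
 (c z e
 (c z e
 (c (a (nat_lit 0x180e6e6e30342017167)) e e))))))))))
 (c (a (nat_lit 0x12121288405049325))
 (c z e
 (c z e
 (c z e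
 (c z e
 (c z e
 (c z e
 (c z e
 (c z e
 (c (a (nat_lit 0x69ea644662269fb9c6)) e
 (c (a (nat_lit 0x5ebecce25e4294f7247)) e e))))))))))
 (c (a (nat_lit 0x1e1f0abae8dbba7c4))
 (c z e
 (c z e
 (c z e
 (c z e
 (c z e
 (c z e
 (c z e
 (c z e
 (c (a (nat_lit 0xa6a6b05a42800938327)) e
 (c z e
 (c (a (nat_lit 0x3643a59252000000007)) e e)))))))))))
 (c (a (nat_lit 0x1f26acd6d9748c784)) e
 (c z e
 (c z e
 (c z e
 (c (a (nat_lit 0xf586e6a2b40c42104)) e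
 (c z e
 (c z e
 (c (a (nat_lit 0xd938e6d094c6a45c4)) e
 (c (a (nat_lit 0x108e2fec8f8b216805)) e e))))))))))))))
 C773)
 (c z
 (c z
 (c (a (nat_lit 0xa6a6a73eccb92b423)) e
 (c (a (nat_lit 0x3032828472d8b59a4))
 (c z e
 (c z e
 (c z e
 (c z e
 (c z e
 (c (a (nat_lit 0x408247030b47710207)) e
 (c z e
 (c z e
 (c (a (nat_lit 0xc1c1c3c24100b24707)) e
 (c (a (nat_lit 0x566668642c3b344e247)) e e))))))))))
 (c z e
 (c (a (nat_lit 0x121212112d8c23ecc4)) e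
 (c z e
 (c (a (nat_lit 0xd92c7f028edf1cd64))
 (c z e
 (c (a (nat_lit 0x182e3262466df6ee048)) e
 (c z e
 (c z e
 (c z e
 (c (a (nat_lit 0x4c4d52e072669e00007)) e e))))))
 (c z e
 (c z e
 (c z e
 (c z e
 (c z e
 (c (a (nat_lit 0x10314d30eecc6c68e4)) e
 (c (a (nat_lit 0xa4a52d4b00969a985)) e
 (c z e
 (c (a (nat_lit 0x13f6769971f2115cc5)) e e)))))))))))))))
 (c z
 (c (a (nat_lit 0x38a2928ee44f230a4))
 (c z e
 (c z e
 (c z e
 (c z e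
 (c z e
 (c z e
 (c z e
 (c z e
 (c (a (nat_lit 0x42482c505261c4f6e27)) e e)))))))))
 (c z e
 (c z e
 (c z e
 (c (a (nat_lit 0x8a7f0331e1e7a5485))
 (c z e
 (c z e
 (c z e
 (c (a (nat_lit 0xac86bc2e9f73b77ebc7)) e
 (c (a (nat_lit 0x323b1e283ab4a664008)) e e)))))
 (c z e
 (c z e
 (c z e
 (c z e
 (c (a (nat_lit 0x1231ccf3a6c2e3a365)) e
 (c z e
 (c z e
 (c z e
 (c (a (nat_lit 0x1211d2f839d936db66)) e e))))))))))))))
 (c z
 (c z e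
 (c z e
 (c z e
 (c z e
 (c z e
 (c z e
 (c z e
 (c z e
 (c (a (nat_lit 0xb99f794ee2deaace5)) e
 (c (a (nat_lit 0x1f9bdd9ab62ecc8605)) e
 (c (a (nat_lit 0x133471f00aa8ea50a6)) e e)))))))))))
 (c z
 (c z e
 (c z e
 (c z e
 (c z e
 (c z e
 (c z e
 (c z e
 (c z e
 (c z e
 (c (a (nat_lit 0xecdae33529551f6e6)) e e))))))))))
 (c z
 (c z e
 (c z e
 (c z e
 (c z e
 (c z e
 (c (a (nat_lit 0x6a7300822a4a66905)) e
 (c (a (nat_lit 0x710ca276949cf2bc5)) e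
 (c (a (nat_lit 0x14d10aacaa2fa97dc5)) e
 (c (a (nat_lit 0x1230d679fd1bbdf226)) e e)))))))))
 (c (a (nat_lit 0xa0a0a0a0a0b065))
 (c (a (nat_lit 0x790ad6b71d02e0c06))
 (c z e
 (c (a (nat_lit 0x4d0692181414262e269)) e e))
 (c z e
 (c z e
 (c z e
 (c (a (nat_lit 0x1473f169646be26605)) e
 (c (a (nat_lit 0x1493304e13cbaa8f05)) e
 (c z e
 (c z e
 (c z e
 (c (a (nat_lit 0x58504c666ca346008)) e e))))))))))
 (c (a (nat_lit 0x2020202038c2c5)) e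
 (c (a (nat_lit 0x101010117c48024))
 (c z e
 (c z e
 (c z e
 (c (a (nat_lit 0x8289030cc84a4e606)) e
 (c z e
 (c (a (nat_lit 0x1375b7db54c3ab2646)) e e))))))
 (c (a (nat_lit 0x808091c4a12e64))
 (c z e
 (c z e
 (c z e
 (c (a (nat_lit 0x86ead522404c5f066)) e
 (c (a (nat_lit 0x15145e13c227872ba6)) e e)))))
 (c (a (nat_lit 0x3e05e2310b84))
 (c (a (nat_lit 0x836523e14100d166)) e
 (c (a (nat_lit 0xa8bc7e46482e77086)) e e))
 (c (a (nat_lit 0xf30301286627a5))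
 (c (a (nat_lit 0x110fa86689444b1045)) e e)
 (c (a (nat_lit 0x126a26b42ffd9704))
 (c z e
 (c (a (nat_lit 0xac603526a00000007)) e e))
 (c (a (nat_lit 0x6450eecd7f51125))
 (c (a (nat_lit 0xaeedb336000000005)) e e)
 (c z e
 (c (a (nat_lit 0x14329efbf8152c25)) e
 (c (a (nat_lit 0x6d02a2281c18084)) e
 (c (a (nat_lit 0x1f93646241808543)) e
 (c (a (nat_lit 0x14a4c3e2004561c3)) e e))))))))))))))))))
 C772))) Tr.c Tr.e (nat_lit 0) C.cx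
noncomputable def C775 : Tr := beta% (fun (c : Nat → Tr → Tr → Tr) (e : Tr) (z : Nat) (a b : Nat → Nat) =>
 (c z
 (c (a (nat_lit 0x1a1a1a1a1a1a1b364))
 (c z e
 (c z e
 (c z e
 (c z e
 (c z e
 (c z e
 (c z e
 (c z e
 (c z e
 (c z e
 (c z e
 (c z e
 (c (a (nat_lit 0xa07a7e7a81615148d46)) e
 (c z e
 (c z e
 (c (a (nat_lit 0xa6a2bac6c0becba2008)) e e))))))))))))))))
 (c (a (nat_lit 0x1212121212131a7c5)) e
 (c (a (nat_lit 0x3030303031a2ed2a4)) e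
 (c (a (nat_lit 0x1e1e1e1f4ebebc785))
 (c z e
 (c z e
 (c z e
 (c z e
 (c z e
 (c z e
 (c z e
 (c z e
 (c (a (nat_lit 0x2e1a646e4e302c395e7)) e e)))))))))
 (c (a (nat_lit 0xa0a0bd70700b9525))
 (c z e
 (c z e
 (c z e
 (c z e
 (c z e
 (c z e
 (c (a (nat_lit 0x50601a3c4e483e47327)) e
 (c z e
 (c (a (nat_lit 0x30deecdc5028ac17327)) e e)))))))))
 (c (a (nat_lit 0x1617d7376f1d46e05))
 (c z e
 (c z e
 (c z e
 (c z e
 (c (a (nat_lit 0x243c343224186c7ba67)) e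
 (c (a (nat_lit 0x4c3850804edf2749626)) e
 (c (a (nat_lit 0x66602040283b347f047)) e
 (c (a (nat_lit 0x1c99f84debace4e24c06)) e e))))))))
 (c z e
 (c z e
 (c z e
 (c z e
 (c z e
 (c z e
 (c z e
 (c (a (nat_lit 0x159675eecd0b4741e6)) e
 (c (a (nat_lit 0x1555d77b17b047ec66)) e
 (c z e
 (c z e
 (c z e
 (c (a (nat_lit 0x15b069a56423e423e4)) e
 (c (a (nat_lit 0x134c6766c242018004)) e e))))))))))))))))))))
 (c z
 (c (a (nat_lit 0x2020202223b860a43)) e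
 (c (a (nat_lit 0x34343435185c8f904))
 (c z e
 (c z e
 (c z e
 (c z e
 (c z e
 (c z e
 (c z e
 (c z e
 (c z e
 (c (a (nat_lit 0x50569294785e3459167)) e
 (c z e
 (c (a (nat_lit 0xc0bcc94946a09cccfc8)) e e))))))))))))
 (c (a (nat_lit 0x202020feb0a2dfc05))
 (c z e
 (c z e
 (c z e
 (c z e
 (c z e
 (c z e
 (c z e
 (c (a (nat_lit 0x404a58465c466a5b027)) e
 (c z e
 (c (a (nat_lit 0x8aa2d8f65c6e328be27)) e e))))))))))
 (c (a (nat_lit 0x161744d6c509c5905))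
 (c z e
 (c z e
 (c z e
 (c z e
 (c z e
 (c (a (nat_lit 0x1a083c64461c303d727)) e
 (c (a (nat_lit 0x3656b69e84e2d9cd9c6)) e
 (c z e
 (c (a (nat_lit 0x9c8cd44458be83a8a07)) e
 (c (a (nat_lit 0x10f57664322635200007)) e e))))))))))
 (c z e
 (c z e
 (c z e
 (c z e
 (c z e
 (c z e
 (c z e
 (c z e
 (c (a (nat_lit 0x18dabf19b737c88d65)) e
 (c (a (nat_lit 0xf1353fa779551f026)) e
 (c (a (nat_lit 0xe2f183c16530f1646)) e
 (c z e
 (c (a (nat_lit 0x15d84aa221c74866c3)) e e)))))))))))))))))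
 (c z
 (c (a (nat_lit 0x7272728662a754b03))
 (c z e
 (c z e
 (c z e
 (c z e
 (c z e
 (c z e
 (c z e
 (c z e
 (c z e
 (c z e
 (c (a (nat_lit 0x5c766c7e724866d5107)) e e)))))))))))
 (c (a (nat_lit 0x1010383a323c872c6))
 (c z e
 (c z e
 (c z e
 (c z e
 (c z e
 (c z e
 (c z e
 (c (a (nat_lit 0x58646e765e867d4b527)) e
 (c (a (nat_lit 0x9cad107aeacb776ff06)) e
 (c (a (nat_lit 0xcecacca27ecf1b6ad87)) e e))))))))))
 (c z e
 (c z e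
 (c z e
 (c z e
 (c z e
 (c z e
 (c z e
 (c z e
 (c (b (nat_lit 0xace923fea894264e5)) e
 (c (a (nat_lit 0x10b05134d650ce0ba6)) e e))))))))))))
 (c z
 (c (a (nat_lit 0x1438482626f5eb5c5)) e
 (c z e
 (c z e
 (c z e
 (c z e
 (c z e
 (c z e
 (c z e
 (c z e
 (c (b (nat_lit 0xeb51ff6fb558c0c64)) e e))))))))))
 (c z
 (c z e
 (c z e
 (c z e
 (c z e
 (c z e
 (c z e
 (c z e
 (c z e
 (c (a (nat_lit 0xd708f9111f0484a85)) e e)))))))))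
 (c z
 (c z e
 (c z e
 (c z e
 (c z e
 (c z e
 (c z e
 (c z e
 (c (b (nat_lit 0x12ec513fea4e0b1705)) e e))))))))
 (c z
 (c z e
 (c z e
 (c z e
 (c z e
 (c z e
 (c (a (nat_lit 0x10adee31460d0ae785)) e e))))))
 (c z e
 (c (a (nat_lit 0x20202020203ec4)) e
 (c (a (nat_lit 0x4040404055c1a4)) e
 (c (a (nat_lit 0x2020203081e145)) e
 (c (a (nat_lit 0x202036a1202645)) e
 (c (a (nat_lit 0xc0d923218b2a04)) e
 (c z e
 (c z e
 (c z e
 (c z e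
 (c (a (nat_lit 0xb4f7771c8604004)) e
 (c z e
 (c z e
 (c (a (nat_lit 0x12494100a0c04124)) e
 (c (a (nat_lit 0x1241e0e1404208e3)) e e))))))))))))))))))))))) Tr.c Tr.e (nat_lit 0) C.cx C.cy
noncomputable def C776 : Tr := beta% (fun (c : Nat → Tr → Tr → Tr) (e : Tr) (z : Nat) (a b : Nat → Nat) =>
 (c z
 (c (a (nat_lit 0x181818181819c2184))
 (c z e
 (c z e
 (c z e
 (c z e
 (c z e
 (c z e
 (c z e
 (c z e
 (c z e
 (c z e
 (c z e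
 (c z e
 (c z e
 (c z e
 (c (a (nat_lit 0x3a36363c485f0200009)) e e)))))))))))))))
 (c (a (nat_lit 0x1c1c1c1e1f083c185)) e
 (c (a (nat_lit 0x1c1c1c1d7e9a8ce05))
 (c z e
 (c z e
 (c z e
 (c z e
 (c z e
 (c z e
 (c z e
 (c z e
 (c z e
 (c z e
 (c (a (nat_lit 0x1311d57c3437340eb167)) e e)))))))))))
 (c (a (nat_lit 0xe0e0ed0483a71006))
 (c z e
 (c z e
 (c z e
 (c z e
 (c z e
 (c z e
 (c (a (nat_lit 0x181846707e263087cc6)) e
 (c (a (nat_lit 0x76d706f0f88ac07d966)) e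
 (c (a (nat_lit 0x2c826c98481e0c45947)) e
 (c (a (nat_lit 0xff1d731ea4e4b0c2007)) e e))))))))))
 (c (a (nat_lit 0x16176aa046e8c5045))
 (c z e
 (c z e
 (c z e
 (c z e
 (c z e
 (c (a (nat_lit 0x124276a2423c79d7206)) e
 (c z e
 (c (a (nat_lit 0x9e789c40604cc746767)) e e))))))))
 (c (a (nat_lit 0x130e7a407aa28a406))
 (c z e
 (c (a (nat_lit 0x96827e6a5c48aa851e7)) e
 (c (a (nat_lit 0x724a7c2a24628c87287)) e
 (c (a (nat_lit 0x647036387c4aa2ad387)) e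
 (c (a (nat_lit 0x422c444822638256b87)) e
 (c (a (nat_lit 0x7a56843e5d0bc340387)) e
 (c (a (nat_lit 0x98be32361c8f8a8e007)) e e)))))))
 (c z e
 (c z e
 (c z e
 (c z e
 (c z e
 (c z e
 (c (a (nat_lit 0x181678922c0664c666)) e
 (c z e
 (c (b (nat_lit 0xdceb138fff5725826)) e
 (c (a (nat_lit 0x1230c9a5c581822104)) e
 (c (a (nat_lit 0x114a25e5e1c1c101a4)) e e)))))))))))))))))
 (c z
 (c (a (nat_lit 0x7e7e7e7e7a9a7b803)) e
 (c (a (nat_lit 0x2020206a6a667b9c5))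
 (c z e
 (c z e
 (c z e
 (c z e
 (c z e
 (c z e
 (c z e
 (c (a (nat_lit 0x122c263048181a5fa27)) e
 (c (a (nat_lit 0x76364ae8ee58b173de6)) e e)))))))))
 (c (a (nat_lit 0x1a1a5228166b512c5))
 (c z e
 (c z e
 (c z e
 (c z e
 (c z e
 (c (a (nat_lit 0x824cc8806022a4cff06)) e
 (c (a (nat_lit 0x364e42463a3856f3068)) e
 (c (a (nat_lit 0x3c182e761c4ef108a67)) e
 (c (a (nat_lit 0xcec6cb1870246ddf266)) e e)))))))))
 (c z e
 (c z e
 (c z e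
 (c z e
 (c z e
 (c z e
 (c z e
 (c z e
 (c (a (nat_lit 0xf3314b00c8aaacf66)) e
 (c (a (nat_lit 0x1050d4b898b8b3d566)) e
 (c (a (nat_lit 0x6ebd2f57ddb787a26)) e
 (c (a (nat_lit 0x1a100bc96800c06124)) e e)))))))))))))))
 (c z
 (c (a (nat_lit 0xc0c342c2c2345125)) e
 (c z e
 (c z e
 (c z e
 (c z e
 (c z e
 (c z e
 (c z e
 (c z e
 (c (a (nat_lit 0xdeed16c6a86294866)) e
 (c (b (nat_lit 0xb6b6bce9fef2db166)) e
 (c (a (nat_lit 0x6e80b8b9110ae4dc7)) e e))))))))))))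
 (c z
 (c z e
 (c z e
 (c z e
 (c z e
 (c z e
 (c z e
 (c z e
 (c z e
 (c (a (nat_lit 0x86aac0b310debea65)) e e)))))))))
 (c z
 (c z e
 (c z e
 (c z e
 (c z e
 (c z e
 (c z e
 (c z e
 (c (a (nat_lit 0xb68c62b31ef8f6f05)) e e))))))))
 (c z
 (c z e
 (c z e
 (c z e
 (c z e
 (c z e
 (c (a (nat_lit 0x182fa6c54b4fcfcea5)) e
 (c (a (nat_lit 0xaa3c4698d2c8c72a6)) e e)))))))
 (c z e
 (c z e
 (c (a (nat_lit 0x202020202039e4)) e
 (c (a (nat_lit 0x20202020334305)) e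
 (c (a (nat_lit 0x4040405622a085)) e
 (c (a (nat_lit 0x80809785a1a484)) e
 (c (a (nat_lit 0x3233e2d806588c3)) e
 (c z e
 (c (a (nat_lit 0xac705cccdb20de5)) e
 (c z e
 (c (a (nat_lit 0x42b4f36c4a06023)) e
 (c z e
 (c (a (nat_lit 0x111927e1a506a6c3)) e
 (c z e
 (c z e
 (c (a (nat_lit 0x4057a9953808621)) e e))))))))))))))))))))))) Tr.c Tr.e (nat_lit 0) C.cx C.cy
noncomputable def C777 : Tr := beta% (fun (c : Nat → Tr → Tr → Tr) (e : Tr) (z : Nat) (a : Nat → Nat) =>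
 (c z
 (c z
 (c (a (nat_lit 0x3e3e3e3e383666e7284)) e
 (c (a (nat_lit 0x6a6a6af8cf0353e5be5)) e
 (c (a (nat_lit 0x2c2c68304aab716f326)) e
 (c z e
 (c z e
 (c z e
 (c z e
 (c z e
 (c z e
 (c z e
 (c z e
 (c z e
 (c z e
 (c (a (nat_lit 0x4262664a3e52544f026)) e e))))))))))))))
 (c z
 (c (a (nat_lit 0x7676ccdaf329e1c7705)) e
 (c z e
 (c z e
 (c z e
 (c z e
 (c z e
 (c z e
 (c z e
 (c z e
 (c z e
 (c z e
 (c (a (nat_lit 0x6cab0f0500d27f893e5)) e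
 (c (a (nat_lit 0x5258625856544ec1247)) e
 (c (a (nat_lit 0x5e627286989ea8a30c9)) e e))))))))))))))
 (c z
 (c z e
 (c z e
 (c z e
 (c z e
 (c z e
 (c z e
 (c z e
 (c z e
 (c z e
 (c z e
 (c z e
 (c (a (nat_lit 0x728cae9684b1b78b4e6)) e e))))))))))))
 (c z
 (c z e
 (c z e
 (c z e
 (c z e
 (c z e
 (c z e
 (c z e
 (c z e
 (c z e
 (c z e
 (c (a (nat_lit 0x7878887487c176c4aa6)) e
 (c (a (nat_lit 0xc8f303173923ad4d2c8)) e e))))))))))))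
 (c (a (nat_lit 0x10101010101015e822)) e
 (c (a (nat_lit 0x2e2e2e2e2feeda464)) e
 (c (a (nat_lit 0x1818181b6afa98bc5))
 (c z e
 (c z e
 (c z e
 (c z e
 (c z e
 (c z e
 (c (a (nat_lit 0x6c7ca4fc6266363f5c6)) e
 (c (a (nat_lit 0x566520da70625e8ee27)) e e))))))))
 (c (a (nat_lit 0x181819e8e87ab0885))
 (c z e
 (c z e
 (c z e
 (c z e
 (c (a (nat_lit 0x3e6c605a6a2620a5967)) e
 (c (a (nat_lit 0x4048482c121e32cb608)) e
 (c (a (nat_lit 0x7910e24e28369cddaa7)) e e)))))))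
 (c (a (nat_lit 0x1011406672b432446))
 (c z e
 (c z e
 (c (a (nat_lit 0xc6949e80a67a7a5b827)) e
 (c (a (nat_lit 0x3a3c3458362e2cbb348)) e
 (c (a (nat_lit 0x38304616241ab2c9708)) e
 (c (a (nat_lit 0x11744ac6e38953796e47)) e e))))))
 (c z e
 (c z e
 (c z e
 (c z e
 (c z e
 (c z e
 (c z e
 (c z e
 (c (a (nat_lit 0x1ca990f02c47cb68c3)) e e))))))))))))))))))
 (c z
 (c z
 (c z e
 (c z e
 (c z e
 (c z e
 (c z e
 (c z e
 (c z e
 (c z e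
 (c z e
 (c z e
 (c z e
 (c (a (nat_lit 0x28666e3a46433cd8325)) e
 (c (a (nat_lit 0x6470605872855d53d06)) e e)))))))))))))
 (c (a (nat_lit 0x16161616161617485))
 (c z e
 (c z e
 (c z e
 (c z e
 (c z e
 (c z e
 (c z e
 (c z e
 (c z e
 (c z e
 (c (a (nat_lit 0x30345a625f370e3a2a6)) e
 (c (a (nat_lit 0x3c4e3e4857472b4a4a7)) e e))))))))))))
 (c (a (nat_lit 0x3e3e3e3e3e3f002a4)) e
 (c (a (nat_lit 0x1c1c1c1c1d24484a5)) e
 (c (a (nat_lit 0x1a1a1a1b606864b25)) e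
 (c (a (nat_lit 0x1a1a1baec476cec05))
 (c z e
 (c z e
 (c z e
 (c z e
 (c z e
 (c (a (nat_lit 0xc1c4c567c1448adf86)) e
 (c (a (nat_lit 0x40b6cc705846392b687)) e
 (c (a (nat_lit 0x652efcfc725c8afaf87)) e e))))))))
 (c (a (nat_lit 0x1c1de8d26ed4d4fe5))
 (c z e
 (c z e
 (c z e
 (c (a (nat_lit 0x118f4feb066b89737b46)) e
 (c (a (nat_lit 0x7282806e6436ad7b2c7)) e
 (c (a (nat_lit 0x585e261e101ec14f268)) e
 (c (a (nat_lit 0x9a8080141e10570c408)) e e)))))))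
 (c z e
 (c z e
 (c z e
 (c z e
 (c z e
 (c z e
 (c (a (nat_lit 0x1cf9f95b750cc7e506)) e
 (c z e
 (c (a (nat_lit 0x16593a5a55af6cf206)) e
 (c z e
 (c (a (nat_lit 0x1670ad8944c383c224)) e
 (c (a (nat_lit 0x1cf5ae4563220080e3)) e
 (c (a (nat_lit 0x1fb82f4e044323a123)) e e))))))))))))))))))))
 C776))) Tr.c Tr.e (nat_lit 0) C.cx
noncomputable def C778 : Tr := beta% (fun (c : Nat → Tr → Tr → Tr) (e : Tr) (z : Nat) (a : Nat → Nat) =>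
 (c z
 (c z
 (c z
 (c (a (nat_lit 0x16161616161617a03e3)) e
 (c (a (nat_lit 0x2828282828290c4a5a4)) e
 (c (a (nat_lit 0x2c2c2c2c2d7048388e4)) e
 (c (a (nat_lit 0x36363637d8483eb78a4)) e
 (c (a (nat_lit 0x4c4c4d184c488305284)) e e)))))
 (c z
 (c (a (nat_lit 0x9292929292c29f3fc23)) e
 (c (a (nat_lit 0x5a5a5a5b1aaac505645)) e
 (c (a (nat_lit 0x2a2a2aaa3040913d386)) e
 (c (a (nat_lit 0x383838323e60bd2f086)) e
 (c z e
 (c z e
 (c z e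
 (c z e
 (c z e
 (c z e
 (c z e
 (c z e
 (c z e
 (c z e
 (c (a (nat_lit 0xc2c6eaf3314b4949827)) e e)))))))))))))))
 (c z
 (c (a (nat_lit 0x3c3c3c68444490d7265)) e
 (c (a (nat_lit 0x3232ac30368cfd38986)) e
 (c z e
 (c z e
 (c z e
 (c z e
 (c z e
 (c z e
 (c z e
 (c z e
 (c z e
 (c z e
 (c (a (nat_lit 0xa48e948e9a807c79ce5)) e e)))))))))))))
 (c z
 (c z e
 (c z e
 (c z e
 (c z e
 (c z e
 (c z e
 (c z e
 (c z e
 (c z e
 (c z e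
 (c z e
 (c (a (nat_lit 0x6c546cbc8280736d8e5)) e
 (c z e
 (c z e
 (c (a (nat_lit 0x121314d697f6d5735387)) e e)))))))))))))))
 (c z
 (c z e
 (c z e
 (c z e
 (c z e
 (c z e
 (c z e
 (c z e
 (c z e
 (c z e
 (c z e
 (c (a (nat_lit 0x4c668a74484d7130725)) e e)))))))))))
 (c (a (nat_lit 0x36363636363637143))
 (c z e
 (c z e
 (c z e
 (c z e
 (c z e
 (c z e
 (c z e
 (c z e
 (c z e
 (c z e
 (c (a (nat_lit 0xc4cab6c0ccbf2043307)) e e)))))))))))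
 (c (a (nat_lit 0x303030303031b82c3)) e
 (c (a (nat_lit 0x1e1e1e1e1fb6ee184)) e
 (c (a (nat_lit 0xe0e0e0f3c92162e5))
 (c z e
 (c z e
 (c z e
 (c z e
 (c z e
 (c (a (nat_lit 0x80869672525a4053a06)) e
 (c z e
 (c (a (nat_lit 0x146e519407502ded69c6)) e e))))))))
 (c (a (nat_lit 0x343435ca7c74b4145))
 (c z e
 (c z e
 (c z e
 (c (a (nat_lit 0x8252684c40260817806)) e
 (c (a (nat_lit 0x62964c2a402e40d5d26)) e
 (c (a (nat_lit 0x74f2bc54540656ed8e6)) e e))))))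
 (c (a (nat_lit 0x1c1dc2a41e7a3e244))
 (c z e
 (c z e
 (c (a (nat_lit 0x6a46464e3818097d7e6)) e
 (c (a (nat_lit 0x88704a4e3250a95aee6)) e
 (c z e
 (c (a (nat_lit 0x16a3accda895a8800005)) e e))))))
 (c z e
 (c z e
 (c z e
 (c z e
 (c z e
 (c z e
 (c (a (nat_lit 0x12b1f1b16eec47c1a6)) e e))))))))))))))))))
 C777)
 (c z
 (c z
 (c z
 (c (a (nat_lit 0x7878789c706b83b12e2)) e
 (c (a (nat_lit 0x4848b094a5177506f04)) e
 (c z e
 (c z e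
 (c z e
 (c z e
 (c z e
 (c z e
 (c z e
 (c z e
 (c z e
 (c z e
 (c z e
 (c z e
 (c (a (nat_lit 0x909088cae0d0e6ddae6)) e e)))))))))))))))
 (c z
 (c z e
 (c z e
 (c z e
 (c z e
 (c z e
 (c z e
 (c z e
 (c z e
 (c z e
 (c z e
 (c z e
 (c z e
 (c (a (nat_lit 0x9c946476686700e2f26)) e e)))))))))))))
 (c (a (nat_lit 0x101010101010117c3)) e
 (c (a (nat_lit 0x7c7c7c7c7c7d521e2)) e
 (c (a (nat_lit 0x9e9e9e9e9ffb52342)) e
 (c (a (nat_lit 0x202020216ec666d84)) e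
 (c (a (nat_lit 0x1e1e1fb919315cee4))
 (c z e
 (c z e
 (c z e
 (c z e
 (c z e
 (c z e
 (c (a (nat_lit 0x9c907ca2664861b2fe6)) e
 (c z e
 (c (a (nat_lit 0x13f16e99ef7607b20006)) e e)))))))))
 (c (a (nat_lit 0x1e1f84bccf4728ea4))
 (c z e
 (c z e
 (c z e
 (c z e
 (c (a (nat_lit 0x4c383e2c523c7aed227)) e
 (c (a (nat_lit 0x72724e6a3a3fefc1fa6)) e e))))))
 (c z e
 (c z e
 (c z e
 (c z e
 (c z e
 (c z e
 (c (a (nat_lit 0x1c597f3590108a8845)) e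
 (c (a (nat_lit 0x11142fd0ae8a2243c6)) e
 (c z e
 (c z e
 (c z e
 (c (a (nat_lit 0x19f6cc4984e7e52603)) e e))))))))))))))))))))
 C775)
 C774))) Tr.c Tr.e (nat_lit 0) C.cx
noncomputable def C779 : Tr := beta% (fun (c : Nat → Tr → Tr → Tr) (e : Tr) (z : Nat) (a b : Nat → Nat) =>
 (c z
 (c z
 (c (a (nat_lit 0xc8c830c2cf39f318d82)) e
 (c (a (nat_lit 0x906488a537e72ac0e03)) e e))
 (c z
 (c (a (nat_lit 0xc8a4c159a958fd1d323)) e e)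
 (c (a (nat_lit 0x72727272727273b41))
 (c z e
 (c z e
 (c z e
 (c z e
 (c z e
 (c z e
 (c z e
 (c z e
 (c z e
 (c z e
 (c z e
 (c z e
 (c (a (nat_lit 0xaceeff2b21014bbf186)) e e)))))))))))))
 (c (a (nat_lit 0x1a1a1a1a1a1b0c103))
 (c z e
 (c z e
 (c z e
 (c z e
 (c z e
 (c z e
 (c z e
 (c z e
 (c z e
 (c z e
 (c z e
 (c (a (nat_lit 0x9a887c8c928703e8707)) e e))))))))))))
 (c (a (nat_lit 0x1c1c1c1c1d4850743)) e
 (c z e
 (c (a (nat_lit 0x1212131622345a564)) e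
 (c (a (nat_lit 0x5c5dc298c10e867c4)) e
 (c (a (nat_lit 0x35561642ecd886543)) e
 (c z e
 (c z e
 (c z e
 (c z e
 (c (a (nat_lit 0x14b9d71837ee872804)) e
 (c z e
 (c (a (nat_lit 0x103070ce8bc8a74905)) e e))))))))))))))))
 (c z
 (c (a (nat_lit 0x14141414141415c82))
 (c z e
 (c z e
 (c z e
 (c z e
 (c z e
 (c z e
 (c z e
 (c z e
 (c z e
 (c z e
 (c z e
 (c z e
 (c z e
 (c (a (nat_lit 0x3644504e505071369e7)) e
 (c (a (nat_lit 0x505c5a545e5e8902007)) e e)))))))))))))))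
 (c (a (nat_lit 0x1c1c1c1c1c1d38283))
 (c z e
 (c z e
 (c z e
 (c z e
 (c z e
 (c z e
 (c z e
 (c z e
 (c z e
 (c z e
 (c z e
 (c z e
 (c z e
 (c (a (nat_lit 0x708a7c848ed7d000007)) e e))))))))))))))
 (c (a (nat_lit 0x1c1c1c1c1dbea09c3)) e
 (c z e
 (c z e
 (c (a (nat_lit 0x3e3fdc9494f2ce663)) e
 (c (a (nat_lit 0x4d886e88fc4c786c4))
 (c z e
 (c z e
 (c z e
 (c (a (nat_lit 0x4e40382c4465551e3e6)) e e))))
 (c (a (nat_lit 0x1b2706340acaca60e3)) e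
 (c z e
 (c z e
 (c z e
 (c z e
 (c (a (nat_lit 0x1b59f8d84f6b0b2b24)) e
 (c (a (nat_lit 0x1b59b95ab08b6a6e04)) e
 (c (a (nat_lit 0xcad4dd12d6e8c7b44)) e e)))))))))))))))
 (c z
 (c z e
 (c (a (nat_lit 0x3434343526c8d6ce2)) e
 (c (a (nat_lit 0x6c6c6cd47c74af222)) e
 (c z e
 (c (a (nat_lit 0x993c6e7ab52da5c63)) e
 (c z e
 (c z e
 (c z e
 (c z e
 (c z e
 (c z e
 (c (a (nat_lit 0x191cd9902a66864a44)) e
 (c (a (nat_lit 0x12af4f734b4baaf284)) e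
 (c (a (nat_lit 0x6c5c8971a18f75aa4)) e e))))))))))))))
 (c z
 (c (a (nat_lit 0x8080844303821343)) e
 (c (a (nat_lit 0x3030623e402f58fe4)) e
 (c z e
 (c z e
 (c z e
 (c z e
 (c z e
 (c z e
 (c z e
 (c (a (nat_lit 0x7f3ae8e8764646524)) e
 (c (b (nat_lit 0x132e919fe969487464)) e
 (c (a (nat_lit 0x6c8e7eed0100f6a65)) e e))))))))))))
 (c z
 (c z e
 (c (a (nat_lit 0x2e22261a827c79205)) e
 (c z e
 (c z e
 (c z e
 (c z e
 (c z e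
 (c z e
 (c (a (nat_lit 0x100d930586686b2d04)) e
 (c (a (nat_lit 0x7c8440c0e4f6e9085)) e e))))))))))
 (c z
 (c (a (nat_lit 0x1620163a7e9d5adc4)) e
 (c z e
 (c z e
 (c z e
 (c (a (nat_lit 0xc8c5a728acaaa0c44)) e
 (c (a (nat_lit 0x7940ca662e2664284)) e
 (c (a (nat_lit 0x138b840363a6e3a624)) e
 (c (a (nat_lit 0x170f2b2a985377f583)) e e))))))))
 (c z
 (c z e
 (c z e
 (c z e
 (c z e
 (c z e
 (c z e
 (c z e
 (c z e
 (c z e
 (c (a (nat_lit 0x1153d4d536364e4a45)) e e))))))))))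
 (c z e
 (c z e
 (c z e
 (c (a (nat_lit 0x80808080809e03))
 (c z e
 (c z e
 (c z e
 (c z e
 (c z e
 (c (a (nat_lit 0x8ae6646e389ff0004)) e e))))))
 (c (a (nat_lit 0x101010101136124))
 (c z e
 (c z e
 (c z e
 (c z e
 (c (a (nat_lit 0x4226262a43ec00004)) e e)))))
 (c (a (nat_lit 0x141414155426063))
 (c z e
 (c (a (nat_lit 0xb8b2b47e98d24d7a5)) e e))
 (c (a (nat_lit 0x343435244a102c3))
 (c (a (nat_lit 0x1ea052b9cc3c94ac3)) e e)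
 (c (a (nat_lit 0x6e6f365c4468503)) e
 (c (a (nat_lit 0x631c4636b298b23)) e
 (c (a (nat_lit 0x1e83c1a784a4a2e2)) e e)))))))))))))))))) Tr.c Tr.e (nat_lit 0) C.cx C.cy
noncomputable def C780 : Tr := beta% (fun (c : Nat → Tr → Tr → Tr) (e : Tr) (z : Nat) (a : Nat → Nat) =>
 (c z
 (c z
 (c z e
 (c z e
 (c z e
 (c (a (nat_lit 0x1e1e1e1e1e1e1e1f121)) e
 (c (a (nat_lit 0x202020202020219c241)) e e)))))
 (c z
 (c z e
 (c (a (nat_lit 0x1a1a1a1a1a1a1a1b383)) e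
 (c (a (nat_lit 0x181818181818194a243)) e
 (c (a (nat_lit 0x202020202021d22c263)) e
 (c (a (nat_lit 0x2c2c2c2c2d5232284a3)) e
 (c (a (nat_lit 0x2626262734262636da3)) e e))))))
 (c z
 (c (a (nat_lit 0x5858585858585994601)) e
 (c (a (nat_lit 0x4040404040415470982)) e
 (c (a (nat_lit 0x2e2e2e2e2fd02a51162)) e
 (c (a (nat_lit 0x62626263184c64daca2)) e e))))
 (c z
 (c (a (nat_lit 0x7676767676ba6883221)) e
 (c (a (nat_lit 0x686868697660792cf02)) e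
 (c (a (nat_lit 0x666666d65666c0d9862)) e e)))
 (c z e
 (c z e
 (c z e
 (c z e
 (c z e
 (c (a (nat_lit 0xe0e0e0e0e0fc40a2)) e
 (c (a (nat_lit 0x1414141415421a1a3)) e
 (c z e
 (c z e
 (c (a (nat_lit 0x1617d61c1c4e34282)) e
 (c (a (nat_lit 0x332232304a403c243)) e
 (c (a (nat_lit 0x1b0464474608e62762)) e e))))))))))))))))
 (c z
 (c z
 (c (a (nat_lit 0x1616161616161617b63)) e
 (c (a (nat_lit 0x3c3c3c3c3c3c3dde683)) e
 (c (a (nat_lit 0x2020202020213630284)) e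
 (c (a (nat_lit 0x2626262627aa322a7e4)) e
 (c (a (nat_lit 0x38383839003c325e9e4)) e
 (c (a (nat_lit 0x363636fe30304721004)) e
 (c z e
 (c z e
 (c z e
 (c z e
 (c z e
 (c z e
 (c z e
 (c z e
 (c z e
 (c z e
 (c (a (nat_lit 0xe4deef05113935355c6)) e e)))))))))))))))))
 (c z
 (c (a (nat_lit 0xa2a2a2a2a2a3b0cb262)) e
 (c (a (nat_lit 0x585858585952a4bf2a4)) e
 (c (a (nat_lit 0x26262626ca2c38a1065)) e
 (c (a (nat_lit 0x38383858343a7aa9285)) e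
 (c (a (nat_lit 0x424266403e6d194b7a5)) e e)))))
 (c z
 (c (a (nat_lit 0x68686868ce76792b823)) e
 (c (a (nat_lit 0x606061a2626f31a9e84)) e
 (c (a (nat_lit 0x3e3e763e3a72b11b045)) e e)))
 (c z
 (c (a (nat_lit 0x3435023638aaf1068a4)) e e)
 (c z e
 (c z
 (c z e
 (c z e
 (c z e
 (c z e
 (c z e
 (c z e
 (c z e
 (c z e
 (c z e
 (c z e
 (c z e
 (c z e
 (c (a (nat_lit 0x646252526c62424b007)) e e)))))))))))))
 (c (a (nat_lit 0x14141414141415a03)) e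
 (c (a (nat_lit 0xc0c0c0c0c0d08224)) e
 (c (a (nat_lit 0xc0c0c0c0db852044)) e
 (c (a (nat_lit 0xc0c0c0d16222a4a5)) e
 (c (a (nat_lit 0x161617683c0e46164)) e
 (c (a (nat_lit 0x14154e42125014144)) e
 (c (a (nat_lit 0x1786321c5a504c364)) e
 (c (a (nat_lit 0x19c30185650462a0e4)) e
 (c z e
 (c z e
 (c (a (nat_lit 0xfaf92d29252f0ea45)) e
 (c (a (nat_lit 0xe71b171312cea2505)) e e))))))))))))))))))
 (c z
 (c z
 (c (a (nat_lit 0x3a3a3a3a3aa04251322)) e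
 (c (a (nat_lit 0x6060606110caf57f9c3)) e
 (c (a (nat_lit 0x262626722844d95d664)) e
 (c (a (nat_lit 0x7e7e846a8f6179efb03)) e e))))
 (c z
 (c (a (nat_lit 0x3a3a3a56667ab304a44)) e
 (c (a (nat_lit 0x2e2e784866af08deb85)) e
 (c z e
 (c z e
 (c z e
 (c z e
 (c z e
 (c z e
 (c z e
 (c z e
 (c z e
 (c z e
 (c (a (nat_lit 0x4c74888276805653245)) e e)))))))))))))
 (c z
 (c z e
 (c z e
 (c z e
 (c z e
 (c z e
 (c z e
 (c z e
 (c z e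
 (c z e
 (c z e
 (c z e
 (c z e
 (c (a (nat_lit 0xc2dcccef0b253b17b46)) e e)))))))))))))
 (c z
 (c z e
 (c z e
 (c z e
 (c z e
 (c z e
 (c z e
 (c z e
 (c z e
 (c z e
 (c z e
 (c z e
 (c z e
 (c z e
 (c (a (nat_lit 0x6a72788c887470634c7)) e e))))))))))))))
 (c (a (nat_lit 0x54545454545455282))
 (c z e
 (c z e
 (c z e
 (c z e
 (c z e
 (c z e
 (c z e
 (c z e
 (c z e
 (c z e
 (c (a (nat_lit 0xdf4f67559b63e1935e5)) e
 (c (a (nat_lit 0x92a29498a48c92358c7)) e e))))))))))))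
 (c (a (nat_lit 0x181818181819020e3)) e
 (c (a (nat_lit 0x12121212137466763)) e
 (c (a (nat_lit 0x10101011182a2a5a4)) e
 (c (a (nat_lit 0x242425a66682da184)) e
 (c (a (nat_lit 0x1011c61e2cf6ba9e3)) e
 (c z e
 (c z e
 (c z e
 (c z e
 (c z e
 (c (a (nat_lit 0x14f937f876758f8ba5)) e
 (c (a (nat_lit 0x115030adeae8e54385)) e e)))))))))))))))))
 C779)))) Tr.c Tr.e (nat_lit 0) C.cx
noncomputable def C781 : Tr := beta% (fun (c : Nat → Tr → Tr → Tr) (e : Tr) (z : Nat) (a b : Nat → Nat) =>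
 (c (a (nat_lit 0x60606061))
 (c (a (nat_lit 0x8080809ee1))
 (c z e
 (c (a (nat_lit 0xaeb6b4b045142)) e
 (c (b (nat_lit 0x203ff63864)) e
 (c (a (nat_lit 0x54b666e1e4)) e
 (c (a (nat_lit 0x676d6f36aa8a5)) e
 (c z e
 (c (a (nat_lit 0xaaaad5585c006)) e e)))))))
 (c (a (nat_lit 0x20202d7ee3))
 (c (a (nat_lit 0x1695d5c4d2cc21)) e
 (c (b (nat_lit 0x181bff1b9aee5)) e
 (c z e
 (c (a (nat_lit 0xef0574fc57f06)) e e))))
 (c (a (nat_lit 0x203028a385)) e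
 (c (a (nat_lit 0x10282421a5))
 (c (a (nat_lit 0x5cd916f9f1385)) e
 (c (a (nat_lit 0x193b7c3dd90aa6)) e
 (c z e
 (c (a (nat_lit 0x1ed46000000006)) e e))))
 (c (a (nat_lit 0x494c6a043e4))
 (c (a (nat_lit 0x12bcf87b05c004)) e e)
 (c z e
 (c (a (nat_lit 0xab7f8151465)) e
 (c (a (nat_lit 0x1cdcf775d5e4)) e
 (c (a (nat_lit 0x1ce620a09522)) e
 (c (a (nat_lit 0x5c04052c5e2)) e
 (c z e
 (c (b (nat_lit 0x1ffca3230201)) e
 (c (a (nat_lit 0x1a40a0804001)) e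
 (c (a (nat_lit 0x100e02061e1)) e
 (c (a (nat_lit 0xc04041c121)) e
 (c (a (nat_lit 0x20800001)) e
 (c (nat_lit 1) e e)))))))))))))))))
 (c (a (nat_lit 0x20202021))
 (c (a (nat_lit 0x4045f1e883))
 (c (a (nat_lit 0xacaea6100a081)) e
 (c (b (nat_lit 0x5327ffb1abfe4)) e
 (c z e
 (c (a (nat_lit 0x9ee2a6119c7a6)) e e))))
 (c (a (nat_lit 0xa79bdd0f5a4))
 (c (a (nat_lit 0xf741a594ca4a5)) e e)
 (c z e
 (c (a (nat_lit 0xd4a15329265))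
 (c (a (nat_lit 0x594b043600006)) e e)
 (c z e
 (c (a (nat_lit 0x13b2727231e6)) e
 (c (a (nat_lit 0x72721403722)) e
 (c (a (nat_lit 0x6602056a762)) e
 (c z e
 (c (a (nat_lit 0x85848c7a682)) e
 (c (a (nat_lit 0x10a100402002)) e
 (c (a (nat_lit 0x2c0e0402001)) e
 (c (a (nat_lit 0x8040602081)) e
 (c (a (nat_lit 0xe100e001)) e
 (c (a (nat_lit 0x20000001)) e e)))))))))))))))
 (c (a (nat_lit 0x20202021))
 (c (a (nat_lit 0x11b3ab6f1004))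
 (c (a (nat_lit 0x5c567a5e030e6)) e
 (c (a (nat_lit 0x96b090334ea87)) e e))
 (c (a (nat_lit 0x116badceca05))
 (c (a (nat_lit 0xf4ceb7f13e266)) e e)
 (c z e
 (c (a (nat_lit 0x159574b49487)) e
 (c (a (nat_lit 0x120f4e8e8125)) e
 (c (a (nat_lit 0x6a0c119e9a2)) e
 (c z e
 (c (a (nat_lit 0x510160c022)) e
 (c (a (nat_lit 0x118160804002)) e
 (c (a (nat_lit 0x301404040c1)) e
 (c (a (nat_lit 0x1e0a041a221)) e
 (c (a (nat_lit 0x40208001)) e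
 (c (a (nat_lit 0x140e00001)) e
 (c (a (nat_lit 0x6000000001)) e e))))))))))))))
 (c (nat_lit 1)
 (c (a (nat_lit 0x175a5ddffe02))
 (c (a (nat_lit 0x763d996c02004)) e e)
 (c (a (nat_lit 0x1676f716b6a6)) e
 (c z e
 (c (a (nat_lit 0x177b3b2806c5)) e
 (c z e
 (c (b (nat_lit 0x1ffba1e0c061)) e
 (c (a (nat_lit 0x19e2e0a091c1)) e
 (c (a (nat_lit 0x18240e0a101)) e
 (c (a (nat_lit 0x1c2e180e0a1)) e
 (c (a (nat_lit 0x140e0a10021)) e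
 (c (a (nat_lit 0x4040602001)) e
 (c (a (nat_lit 0x20000001)) e e))))))))))))
 (c (nat_lit 1)
 (c (a (nat_lit 0x125252524385)) e
 (c z e
 (c z e
 (c (a (nat_lit 0x3fba2606061)) e
 (c (a (nat_lit 0x740e04032c3)) e
 (c (a (nat_lit 0x62c1406001)) e
 (c (a (nat_lit 0x32280e02041)) e
 (c (a (nat_lit 0x24080402001)) e
 (c (a (nat_lit 0x10080a04001)) e
 (c (a (nat_lit 0xe120400001)) e
 (c (a (nat_lit 0xe000000001)) e e)))))))))))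
 (c (a (nat_lit 0x40404041))
 (c z e
 (c (a (nat_lit 0x4fcc2e0e061)) e
 (c (a (nat_lit 0x760c0403603)) e
 (c (a (nat_lit 0x16140806041)) e
 (c (a (nat_lit 0x120c0804001)) e
 (c (a (nat_lit 0xc161204001)) e
 (c (a (nat_lit 0x24220204001)) e
 (c (a (nat_lit 0x32160402001)) e
 (c (a (nat_lit 0x1c060000001)) e e)))))))))
 (c (nat_lit 1)
 (c (a (nat_lit 0x3c080203683)) e
 (c (a (nat_lit 0x61c0e04001)) e
 (c (a (nat_lit 0x2026120a061)) e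
 (c (a (nat_lit 0x241e1404001)) e
 (c (a (nat_lit 0x18200600041)) e
 (c (a (nat_lit 0x1e040404001)) e
 (c (a (nat_lit 0x8040600001)) e
 (c (nat_lit 1) e e))))))))
 (c (a (nat_lit 0x20202021))
 (c (a (nat_lit 0x14020202041)) e
 (c (a (nat_lit 0x2020206041)) e
 (c (a (nat_lit 0x2020604081)) e
 (c (a (nat_lit 0x80c0a0e0c1)) e
 (c (a (nat_lit 0x8060a04001)) e
 (c (a (nat_lit 0x8060000001)) e e))))))
 (c (nat_lit 1)
 (c (a (nat_lit 0x202041)) e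
 (c (a (nat_lit 0x60206041)) e
 (c (a (nat_lit 0xc080c0a081)) e
 (c (a (nat_lit 0x4080400001)) e
 (c (a (nat_lit 0x4000000001)) e e)))))
 (c (a (nat_lit 0x202021))
 (c (a (nat_lit 0x2020402041)) e
 (c (a (nat_lit 0x80c0a08001)) e
 (c (a (nat_lit 0x8040000001)) e e)))
 (c (a (nat_lit 0x80808081))
 (c (a (nat_lit 0xa080400001)) e
 (c (a (nat_lit 0x6000000001)) e e))
 (c (a (nat_lit 0x40404041)) e
 (c (a (nat_lit 0x40606061)) e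
 (c (a (nat_lit 0x20202021)) e
 (c (a (nat_lit 0x40404041)) e
 (c (nat_lit 1) e
 (c (nat_lit 1) e
 (c (a (nat_lit 0x1a42)) e
 (c (a (nat_lit 0x6066f104)) e
 (c (a (nat_lit 0xc7516a24)) e
 (c (a (nat_lit 0xab4cd8464)) e
 (c (a (nat_lit 0x11caa16324)) e
 (c (a (nat_lit 0x1502c64603)) e e)))))))))))))))))))))))) Tr.c Tr.e (nat_lit 0) C.cx C.cy
noncomputable def C782 : Tr := beta% (fun (c : Nat → Tr → Tr → Tr) (e : Tr) (z : Nat) (a b : Nat → Nat) =>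
 (c (a (nat_lit 0x40404041))
 (c (nat_lit 1)
 (c (a (nat_lit 0x3348c83432264))
 (c (a (nat_lit 0x14d4e6e5a86bcfe3)) e
 (c (b (nat_lit 0x124c48ec2f1fe045)) e
 (c z e
 (c (a (nat_lit 0x6cecedcbce988a4)) e
 (c (a (nat_lit 0x5cd9a3769046ce5)) e
 (c (a (nat_lit 0xe31f2c4e726a005)) e
 (c (a (nat_lit 0x12e7638180000005)) e e)))))))
 (c z e
 (c z e
 (c (a (nat_lit 0xc2c29e1010121))
 (c (a (nat_lit 0xf0beb8d1417eb85)) e
 (c (a (nat_lit 0x18528d3ced400005)) e e))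
 (c (a (nat_lit 0x118ca161038021)) e
 (c (a (nat_lit 0xda141e3c16161)) e
 (c (a (nat_lit 0x20c14100b9e3)) e
 (c (a (nat_lit 0x14161755bbf45)) e
 (c (a (nat_lit 0x3030d90d28fa6)) e
 (c z e
 (c (a (nat_lit 0x7afe870708ee4)) e
 (c (b (nat_lit 0x19aa9a5a97bfe3)) e
 (c (b (nat_lit 0x4f4b4f23fe003)) e e)))))))))))))
 (c (a (nat_lit 0x4040404041))
 (c z e
 (c z e
 (c (a (nat_lit 0x9291adb5bb464))
 (c (a (nat_lit 0x10cbd257b0680005)) e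
 (c (a (nat_lit 0xde85505c0000006)) e e))
 (c (a (nat_lit 0xd404387e4e301))
 (c (a (nat_lit 0x7b5432000000005)) e e)
 (c (a (nat_lit 0x2080609144)) e
 (c (a (nat_lit 0x52565727bfe45)) e
 (c (a (nat_lit 0x2e2cd9c1d37e6)) e
 (c z e
 (c z e
 (c (a (nat_lit 0x15d74a932a8004)) e
 (c (a (nat_lit 0x1cafd82fe5a304)) e e)))))))))))
 (c (a (nat_lit 0x20202001))
 (c (a (nat_lit 0x4e7e2a546c541))
 (c (a (nat_lit 0x104bed4322a28504)) e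
 (c (a (nat_lit 0xdf4070c85444004)) e
 (c (a (nat_lit 0x1380a9a1c0000004)) e e)))
 (c (a (nat_lit 0x1081070a880901))
 (c z e
 (c (a (nat_lit 0x81f868000000004)) e e))
 (c (a (nat_lit 0x20484245441)) e
 (c (a (nat_lit 0x206089ab33a4)) e
 (c (a (nat_lit 0xe10acf2f7605)) e e)))))
 (c (a (nat_lit 0x8080808081))
 (c z e
 (c (a (nat_lit 0x384e504a13082)) e
 (c (a (nat_lit 0xf6f98d73eea64)) e
 (c (a (nat_lit 0x235da1a1936e4)) e
 (c (a (nat_lit 0x14f6d6f35a5a45)) e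
 (c z e
 (c z e
 (c (a (nat_lit 0x98c34ecd1eac5)) e
 (c (a (nat_lit 0x89148e7200005)) e
 (c (a (nat_lit 0x17c38000000004)) e e))))))))))
 (c (a (nat_lit 0x4040404041))
 (c (a (nat_lit 0xc0ccc630a0041)) e
 (c (a (nat_lit 0xcf1b013094005)) e
 (c z e
 (c (a (nat_lit 0x1735d28e3b1c05)) e
 (c z e
 (c (a (nat_lit 0x7cc9012ef9067)) e
 (c (a (nat_lit 0x8b3eccdccc005)) e
 (c (a (nat_lit 0x1ee0c2e0000003)) e e))))))))
 (c (a (nat_lit 0x2040404041))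
 (c (a (nat_lit 0xcebee656032a5)) e
 (c (a (nat_lit 0x18d9f1a1f85385)) e
 (c z e
 (c z e
 (c (b (nat_lit 0x1fee933b594566)) e
 (c (a (nat_lit 0xfa971c7e00006)) e e))))))
 (c (a (nat_lit 0x2020203623))
 (c (b (nat_lit 0x16261e59ff425)) e
 (c z e
 (c z e
 (c (a (nat_lit 0x729ef5027a007)) e e))))
 (c (a (nat_lit 0x20203859a3))
 (c (a (nat_lit 0x70c0acaed9ec6)) e e)
 (c (a (nat_lit 0x2a2aad16022)) e
 (c (a (nat_lit 0xfefd0af6aa5))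
 (c (a (nat_lit 0x5ffa000000001)) e e)
 (c (a (nat_lit 0x46543203305)) e
 (c (a (nat_lit 0x54360332b25)) e
 (c (a (nat_lit 0x340334b2185)) e
 (c (a (nat_lit 0x97b5349a9a5)) e
 (c (a (nat_lit 0x11c9c0202045)) e
 (c (b (nat_lit 0x138020209fe4)) e
 (c z e
 (c (a (nat_lit 0x1537e281c021)) e
 (c (a (nat_lit 0x19a180206001)) e
 (c (a (nat_lit 0x2c140202001)) e
 (c (a (nat_lit 0x18020000001)) e e)))))))))))))))))))))
 (c (a (nat_lit 0x40404041))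
 (c (nat_lit 1)
 (c (a (nat_lit 0xbab8fb151b1a2))
 (c z e
 (c (a (nat_lit 0x576ea2cabeb2b24)) e
 (c (a (nat_lit 0x1244094becac8763)) e e)))
 (c (a (nat_lit 0x46044a8092881))
 (c (a (nat_lit 0x16aec86242220364)) e e)
 (c z
 (c z e
 (c (a (nat_lit 0xa94a5c000000004)) e e))
 (c (a (nat_lit 0x264c4e40301))
 (c (a (nat_lit 0x16c3e00000000004)) e e)
 (c (a (nat_lit 0x142e302631381)) e
 (c (a (nat_lit 0x40404a504b25)) e
 (c (a (nat_lit 0x4034ba755565)) e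
 (c z e
 (c (a (nat_lit 0x11545310f21126)) e
 (c (a (nat_lit 0xa20406f90e003)) e
 (c (a (nat_lit 0xcccd475464004)) e e)))))))))))
 (c (a (nat_lit 0x20002001))
 (c (a (nat_lit 0x422423c2c1))
 (c (a (nat_lit 0x12ac0282422461a4)) e
 (c (a (nat_lit 0x11e5242383400004)) e e))
 (c (a (nat_lit 0xa24202e201)) e
 (c (a (nat_lit 0x18100c0bfe2)) e
 (c (a (nat_lit 0xc1a121399962)) e
 (c (a (nat_lit 0x6047d253bf45)) e
 (c z e
 (c z e
 (c (a (nat_lit 0x17b859d6f3af46)) e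
 (c (b (nat_lit 0x12cc17add3fe3)) e e)))))))))
 (c (a (nat_lit 0x2020202021))
 (c (a (nat_lit 0x40e0e1217a02)) e
 (c (a (nat_lit 0x40c101b0d842)) e
 (c (a (nat_lit 0x218350b943a1)) e
 (c (a (nat_lit 0x44070731a7e6)) e e))))
 (c (nat_lit 1)
 (c (a (nat_lit 0x181818c4462601)) e
 (c (a (nat_lit 0x1b1b33dfa371e4)) e
 (c z e
 (c (a (nat_lit 0xd4f4e8f9486c6)) e
 (c z e
 (c (a (nat_lit 0x8aa520d4be447)) e
 (c (a (nat_lit 0x105a84e4200003)) e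
 (c (a (nat_lit 0x17804000000003)) e e))))))))
 (c (a (nat_lit 0x3845))
 (c (a (nat_lit 0x17f31280d1ba04)) e
 (c (a (nat_lit 0x1213af1affd9a5)) e
 (c z e
 (c z e
 (c (b (nat_lit 0x1ffeb7fc72c005)) e
 (c (a (nat_lit 0x18a04840000003)) e e))))))
 (c (a (nat_lit 0x20203846c5))
 (c (a (nat_lit 0x48767724f1e65)) e
 (c z e
 (c z e
 (c (a (nat_lit 0xdb0b3eba00007)) e e))))
 (c (a (nat_lit 0x36db6503)) e
 (c (a (nat_lit 0x72a30c82283)) e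
 (c (a (nat_lit 0x184e2403804)) e
 (c (a (nat_lit 0x3a120386604)) e
 (c (a (nat_lit 0x7a7536a2385)) e
 (c (a (nat_lit 0xc182f286845)) e
 (c (a (nat_lit 0x1b6dc0602104)) e
 (c (b (nat_lit 0x1b204041dfe3)) e
 (c z e
 (c (a (nat_lit 0xfd5ea8acca1)) e
 (c (a (nat_lit 0xcc0c0a0a001)) e
 (c (a (nat_lit 0x8020402001)) e
 (c (a (nat_lit 0x8040000001)) e
 (c (a (nat_lit 0x4000000001)) e e))))))))))))))))))))
 (c (a (nat_lit 0x40202041))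
 (c (a (nat_lit 0x20002001))
 (c z e
 (c z e
 (c (a (nat_lit 0x6020203323)) e
 (c (a (nat_lit 0xe100e0b8bd42)) e
 (c (a (nat_lit 0x20202b589224)) e
 (c (a (nat_lit 0x617dd1c6cc025)) e
 (c (a (nat_lit 0x171c7a55a04fc5)) e
 (c (a (nat_lit 0x19f7d67937d325)) e
 (c (a (nat_lit 0x30081b3646004)) e e)))))))))
 (c (a (nat_lit 0x4040404041))
 (c (a (nat_lit 0xa24282c33481)) e
 (c (a (nat_lit 0x2060796f02)) e
 (c (a (nat_lit 0x2026122ac3)) e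
 (c (a (nat_lit 0x23f8764405)) e
 (c (b (nat_lit 0xaecd65fe0c346)) e
 (c z e
 (c (a (nat_lit 0x173678345ac2a6)) e e)))))))
 (c (a (nat_lit 0x2020003243))
 (c (a (nat_lit 0x206050e07642)) e
 (c (a (nat_lit 0x5450a19705b24)) e e))
 (c (a (nat_lit 0x201ce6c5))
 (c (a (nat_lit 0x8490f104ffac4)) e
 (c (a (nat_lit 0x388ab2b920de6)) e
 (c z e
 (c (a (nat_lit 0xb7336b2a1e7c7)) e
 (c (a (nat_lit 0x10736fcc400006)) e
 (c (a (nat_lit 0x15072000000004)) e e))))))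
 (c (a (nat_lit 0x203d0863a5))
 (c (a (nat_lit 0x80d8ed674b5e5)) e
 (c z e
 (c z e
 (c (a (nat_lit 0x1655ee80000006)) e e))))
 (c (a (nat_lit 0x4d135e62144))
 (c (a (nat_lit 0x16fdba4f5ccf85)) e e)
 (c (a (nat_lit 0xe7987e02023)) e
 (c (a (nat_lit 0x58210103185)) e
 (c (a (nat_lit 0x1df9397f2b03)) e
 (c (a (nat_lit 0x197994127244)) e
 (c (a (nat_lit 0x1dc7c1411162)) e
 (c (a (nat_lit 0x6a0a05065c2)) e
 (c z e
 (c (b (nat_lit 0x1ff4a0620001)) e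
 (c (a (nat_lit 0x144020c04001)) e
 (c (a (nat_lit 0xe0402021)) e
 (c (a (nat_lit 0x14020204001)) e
 (c (a (nat_lit 0x20000001)) e e))))))))))))))))))
 C781)))) Tr.c Tr.e (nat_lit 0) C.cx C.cy
noncomputable def C783 : Tr := beta% (fun (c : Nat → Tr → Tr → Tr) (e : Tr) (z : Nat) (a b : Nat → Nat) =>
 (c (a (nat_lit 0x20002001))
 (c (a (nat_lit 0x7474752130fe2))
 (c (a (nat_lit 0x4e4e507b3100824)) e
 (c (a (nat_lit 0x30306f993898665)) e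
 (c z e
 (c (a (nat_lit 0x25150c707d64025)) e
 (c (a (nat_lit 0x136905a6a8232765)) e
 (c (a (nat_lit 0x13ebabae264eece4)) e
 (c (a (nat_lit 0x98b07284a900a84)) e
 (c (a (nat_lit 0x5c120294af92924)) e
 (c (a (nat_lit 0x320e66a732e6445)) e
 (c z e
 (c (a (nat_lit 0x4e5298a72904005)) e e)))))))))))
 (c (a (nat_lit 0x181936e0aefc3))
 (c z e
 (c z e
 (c z e
 (c z e
 (c z e
 (c z e
 (c z e
 (c z e
 (c (a (nat_lit 0x4c36526f4cde567)) e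
 (c (a (nat_lit 0x808b01e15000006)) e
 (c (a (nat_lit 0x1559712000000005)) e
 (c (a (nat_lit 0x14a0000000000004)) e e))))))))))))
 (c z e
 (c (a (nat_lit 0x1c02083f27064))
 (c (a (nat_lit 0x829baa3e601c366)) e
 (c (a (nat_lit 0x3fe236683c302a6)) e
 (c z e
 (c z e
 (c (a (nat_lit 0x423f02ad56baf26)) e
 (c (a (nat_lit 0x48b4a504d6143e7)) e e))))))
 (c (a (nat_lit 0x8a6c98c1480a4))
 (c (a (nat_lit 0x54102436282b046)) e
 (c z e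
 (c (a (nat_lit 0x184a1c232a4c667)) e
 (c (a (nat_lit 0x58bc3d988842aa6)) e
 (c (a (nat_lit 0xb6a90cae3650007)) e e)))))
 (c (a (nat_lit 0xd4f51d6268684))
 (c (a (nat_lit 0x221c12190cbc4a7)) e e)
 (c (a (nat_lit 0x96930614081e4))
 (c z e
 (c (a (nat_lit 0x6518b302b46c007)) e e))
 (c (a (nat_lit 0x16dfa0a083a163))
 (c (a (nat_lit 0x11cd55d1c7000005)) e
 (c (a (nat_lit 0x1935ec4000000005)) e e))
 (c (a (nat_lit 0x10c5a581c0a0c4))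
 (c (a (nat_lit 0x2b7200000000002)) e e)
 (c (b (nat_lit 0x1fffe9e3628561)) e
 (c (a (nat_lit 0x80a4c4c4f8e5)) e
 (c (a (nat_lit 0x82c310ff9ca5)) e
 (c (a (nat_lit 0x1e1e4908da4a5)) e
 (c (a (nat_lit 0x1c4908da4a4a5)) e
 (c (a (nat_lit 0x53d4b65656844)) e
 (c (a (nat_lit 0x1d4b4565884484)) e
 (c (a (nat_lit 0x1f5393b948c003)) e e)))))))))))))))))
 (c (a (nat_lit 0x20002001))
 (c (a (nat_lit 0x6a240347bd64))
 (c (a (nat_lit 0x819f91bee8be6e4)) e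
 (c z e
 (c z e
 (c z e
 (c (a (nat_lit 0xaae52521236fa65)) e
 (c z e
 (c z e
 (c z e
 (c (a (nat_lit 0x423485375caa007)) e e)))))))))
 (c z e
 (c z e
 (c (a (nat_lit 0x94e18d505c5a5)) e
 (c (a (nat_lit 0x115c33092909a5))
 (c (a (nat_lit 0x424e5ddb3a38747)) e
 (c (a (nat_lit 0x687ba75c6e98d68)) e e))
 (c (a (nat_lit 0x1bd58bab6c6b85))
 (c (a (nat_lit 0x837d6a94a6fe527)) e e)
 (c z e
 (c (a (nat_lit 0x1c1dfafa987a22)) e
 (c (a (nat_lit 0x120c4c464baa5)) e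
 (c (a (nat_lit 0x42e2ebf372a6)) e
 (c (a (nat_lit 0x484a8304f4dc7)) e
 (c (a (nat_lit 0x9ec5b554f4965)) e
 (c (a (nat_lit 0x5140de8022445)) e
 (c (a (nat_lit 0x116ac5402181e5)) e
 (c (a (nat_lit 0x16ec0064a54184)) e e)))))))))))))))
 (c (a (nat_lit 0x20002021))
 (c z e
 (c z e
 (c z e
 (c z e
 (c z e
 (c (a (nat_lit 0x4f598a1c1e2a1)) e
 (c (a (nat_lit 0xa49cdcdce1745)) e
 (c (a (nat_lit 0xa262a8acb166)) e e))))))))
 (c (a (nat_lit 0x16161616161))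
 (c (a (nat_lit 0x6124b00e0c005))
 (c (a (nat_lit 0x145dcfd1301008a4)) e
 (c (a (nat_lit 0x100c0b27f3a6b506)) e
 (c z e
 (c z e
 (c (a (nat_lit 0x6ed926d68c84007)) e
 (c (b (nat_lit 0xe749fe200000007)) e e))))))
 (c (a (nat_lit 0x148e8040204065))
 (c (a (nat_lit 0x7064abea8ee0746)) e
 (c z e
 (c z e
 (c (a (nat_lit 0x18ee918f6c600007)) e
 (c (a (nat_lit 0x116ae58000000007)) e e)))))
 (c z e
 (c z e
 (c (a (nat_lit 0x417434549ac3)) e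
 (c (a (nat_lit 0x1820366293286)) e
 (c z e
 (c z e
 (c (a (nat_lit 0x78cb55858ff66)) e
 (c (a (nat_lit 0x3ac23c4b70106)) e
 (c (a (nat_lit 0xd850618626106)) e
 (c (a (nat_lit 0x4051781602026)) e
 (c (a (nat_lit 0x4f760e0200006)) e
 (c (a (nat_lit 0x18410000000006)) e e))))))))))))))
 (c (a (nat_lit 0x2020204041))
 (c (a (nat_lit 0x1140a22406a783))
 (c (a (nat_lit 0x5142c0fcf2bcb65)) e
 (c z e
 (c (a (nat_lit 0x9360dc70762c006)) e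
 (c (a (nat_lit 0x18e8688420000006)) e
 (c (a (nat_lit 0x11a7400000000006)) e e)))))
 (c (a (nat_lit 0x12451cbae0fe2))
 (c (a (nat_lit 0x1204a66a252dc1c6)) e
 (c (a (nat_lit 0x1a7e1b55d0e00006)) e e))
 (c (a (nat_lit 0xffab2b4968fa2))
 (c (a (nat_lit 0x1ecdaee600000005)) e e)
 (c (a (nat_lit 0x28060ccd0d964)) e
 (c (a (nat_lit 0x5e66c1231aac5)) e
 (c (a (nat_lit 0x2ef1534eb08e5)) e
 (c (a (nat_lit 0xf12320dac20a6)) e
 (c (a (nat_lit 0x102eecb3308a46)) e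
 (c (a (nat_lit 0x36042b043a605)) e
 (c (a (nat_lit 0x3e673e769aae5)) e
 (c (a (nat_lit 0x2d043c643a005)) e
 (c (a (nat_lit 0x198060a0000004)) e e))))))))))))
 (c (a (nat_lit 0x20002001))
 (c (a (nat_lit 0x3010181f003))
 (c (a (nat_lit 0x1c9aa6c7e681e004)) e
 (c (a (nat_lit 0x1c2b4b8640000005)) e e))
 (c (a (nat_lit 0x8a2c3e7e63d43))
 (c (a (nat_lit 0x1ddf8d0000000004)) e e)
 (c (a (nat_lit 0x5254b2dd12825)) e
 (c (a (nat_lit 0x38efc3990e004)) e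
 (c (a (nat_lit 0xfd6762d89e085)) e
 (c z e
 (c z e
 (c z e
 (c (b (nat_lit 0x1ff39fe0402004)) e
 (c (a (nat_lit 0x13a02040400004)) e e))))))))))
 (c (a (nat_lit 0x2020202021))
 (c (a (nat_lit 0x7c7c981b00624)) e
 (c (a (nat_lit 0xd13aefad0a905)) e
 (c (a (nat_lit 0x10ef5e32634844)) e
 (c (a (nat_lit 0x165eb8d6090b05)) e
 (c z e
 (c (a (nat_lit 0x7e8abf3f2da86)) e
 (c (a (nat_lit 0x7b33e213ed23)) e
 (c (a (nat_lit 0x19926112a5e003)) e e))))))))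
 (c (a (nat_lit 0x4040404041))
 (c (a (nat_lit 0x110f388e2025a4)) e
 (c (b (nat_lit 0x1237110325ffe5)) e
 (c z e
 (c (a (nat_lit 0x16b6d9d85f5f26)) e
 (c (b (nat_lit 0x1fe220a4ecb2a6)) e
 (c (a (nat_lit 0x6c3a5681603e5)) e e))))))
 (c (a (nat_lit 0x4040404041))
 (c (b (nat_lit 0x14d191f2dfffe3)) e
 (c (b (nat_lit 0x1ffffa59803963)) e
 (c (a (nat_lit 0x789076908b1e7)) e
 (c (a (nat_lit 0xbac12147f7a06)) e e))))
 (c (a (nat_lit 0x2020202021))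
 (c (b (nat_lit 0x1ffff955b21e23)) e
 (c z e
 (c z e
 (c z e
 (c (a (nat_lit 0x5b50000000003)) e e)))))
 (c (a (nat_lit 0x20003481))
 (c z e
 (c (a (nat_lit 0xe8ccbeff14006)) e
 (c (a (nat_lit 0x11355500000003)) e e)))
 (c (a (nat_lit 0x20021f02))
 (c (a (nat_lit 0xb05a5f5000003)) e
 (c (a (nat_lit 0x100c000000001)) e e))
 (c (a (nat_lit 0x2029f12ac4)) e
 (c (a (nat_lit 0x4a114ae504)) e
 (c (a (nat_lit 0xa982c60cac3)) e
 (c (a (nat_lit 0x164a80a93763)) e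
 (c (a (nat_lit 0x110c305787c4)) e
 (c (a (nat_lit 0x11f61d8d8d64)) e
 (c (a (nat_lit 0x8d0204021a4)) e
 (c (b (nat_lit 0x100020219fe4)) e
 (c z e
 (c (a (nat_lit 0xc31e7e747a2)) e
 (c (a (nat_lit 0x1601e080e001)) e
 (c (a (nat_lit 0x12020000001)) e e))))))))))))))))))))))))) Tr.c Tr.e (nat_lit 0) C.cx C.cy
noncomputable def C784 : Tr := beta% (fun (c : Nat → Tr → Tr → Tr) (e : Tr) (z : Nat) (a b : Nat → Nat) =>
 (c (a (nat_lit 0x2020202021))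
 (c (a (nat_lit 0x2020203c51a4))
 (c (a (nat_lit 0x888482849d36f85))
 (c z e
 (c (a (nat_lit 0x7e8e0690f18650a06)) e
 (c z e
 (c (a (nat_lit 0xf8c338ef3b87bd0e5)) e
 (c (a (nat_lit 0x186309a3c22f446506)) e e)))))
 (c (a (nat_lit 0x8e9090b90acc3a7)) e
 (c z e
 (c (a (nat_lit 0x4a70c9769004d86))
 (c (a (nat_lit 0x546f1a6674c644007)) e
 (c (a (nat_lit 0xb3bd3eee9c0000007)) e e))
 (c (a (nat_lit 0x893ec806a6ae885)) e
 (c (a (nat_lit 0x156e05ce940c30a5)) e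
 (c (a (nat_lit 0xba46e8f14947905)) e
 (c (b (nat_lit 0x1fe665eb37315d45)) e
 (c (a (nat_lit 0x2e2c3eb10902aa6)) e
 (c z e
 (c z e
 (c (a (nat_lit 0x148080eb95a00005)) e
 (c (a (nat_lit 0x5e7de000000002)) e e)))))))))))))
 (c (a (nat_lit 0x20203ce96845))
 (c z e
 (c z e
 (c z e
 (c z e
 (c z e
 (c z e
 (c z e
 (c z e
 (c z e
 (c z e
 (c (a (nat_lit 0x424297200000006)) e
 (c (a (nat_lit 0x103000000000001)) e e))))))))))))
 (c (a (nat_lit 0xb4b7cf4543585)) e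
 (c (a (nat_lit 0x2c9278789ff66))
 (c (a (nat_lit 0x150d31f902c71046)) e
 (c (a (nat_lit 0x2cc72a767ee3067)) e
 (c z e
 (c z e
 (c (a (nat_lit 0xff5125e7899d287)) e e)))))
 (c (a (nat_lit 0xa29080a5987c6))
 (c (a (nat_lit 0x85a12d354399a85)) e
 (c z e
 (c z e
 (c (a (nat_lit 0x666aa87d427c668)) e e))))
 (c z e
 (c z e
 (c (a (nat_lit 0xab32e002028c6))
 (c (a (nat_lit 0x9906b0a0a632007)) e
 (c (a (nat_lit 0x1df1ce6bc0000007)) e e))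
 (c (a (nat_lit 0x13d0022227e786))
 (c (a (nat_lit 0x1f32b10000000005)) e e)
 (c z e
 (c z e
 (c (a (nat_lit 0x8e8672f6d5805)) e
 (c (a (nat_lit 0x1937f815f95c45)) e
 (c (a (nat_lit 0xf6fcf92582c64)) e
 (c (a (nat_lit 0x927cbd1c61b84)) e
 (c (a (nat_lit 0x20407012bf045)) e
 (c (a (nat_lit 0x72d21963f0ee4)) e e)))))))))))))))))
 (c (a (nat_lit 0x2020202021))
 (c (a (nat_lit 0x1a1b062420585)) e
 (c z e
 (c z e
 (c z e
 (c z e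
 (c z e
 (c z e
 (c z e
 (c (a (nat_lit 0x549c623e27683)) e
 (c z e
 (c (a (nat_lit 0xa2cc312e1186)) e
 (c (a (nat_lit 0xbec10cdd0cf06)) e e))))))))))))
 (c (a (nat_lit 0x2020202021))
 (c (a (nat_lit 0x1c02040d16a86))
 (c (a (nat_lit 0x1056b6ceb0c02104)) e
 (c z e
 (c (a (nat_lit 0x1570d3888d05e026)) e
 (c (a (nat_lit 0xf3a720a2c4098e4)) e
 (c (a (nat_lit 0xb252c81edbd75c5)) e
 (c (a (nat_lit 0x9a8146d49251286)) e
 (c z e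
 (c (a (nat_lit 0x7e77a70cbc00007)) e e))))))))
 (c z e
 (c z e
 (c (a (nat_lit 0x2d9ef00402026))
 (c z e
 (c (a (nat_lit 0x94b31142b2f7547)) e e))
 (c (a (nat_lit 0x19f0618181a0c6))
 (c (a (nat_lit 0xb112c4990316666)) e e)
 (c z e
 (c z e
 (c (a (nat_lit 0x140c2694a9746)) e
 (c z e
 (c z e
 (c (a (nat_lit 0x279465e3c885)) e
 (c (b (nat_lit 0x91607452a1fe5)) e
 (c (a (nat_lit 0x1d0e4c51230265)) e
 (c (a (nat_lit 0xf6d3224236385)) e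
 (c (a (nat_lit 0x12fd20e0200004)) e
 (c (a (nat_lit 0x1e812000000004)) e e))))))))))))))))
 (c (a (nat_lit 0x6060606061))
 (c (a (nat_lit 0x345526b02e2e6))
 (c (a (nat_lit 0xf6d728a6be77965)) e
 (c (a (nat_lit 0x1896eced20fc4565)) e
 (c z e
 (c z e
 (c (a (nat_lit 0x11ab918c3870d086)) e e)))))
 (c (a (nat_lit 0x4f92da0604026))
 (c (a (nat_lit 0x7a7064353c2e486)) e
 (c z e
 (c z e
 (c (a (nat_lit 0xb14acd02bcde007)) e
 (c (a (nat_lit 0x1d8970e7c0000006)) e e)))))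
 (c z e
 (c z e
 (c (a (nat_lit 0x11b2d291719765)) e
 (c (a (nat_lit 0x180e50ef2ee05)) e
 (c (a (nat_lit 0x165761d1716e5)) e
 (c z e
 (c (a (nat_lit 0xbd188908d35c5)) e
 (c (b (nat_lit 0x21fe0e0d51fe5)) e
 (c (a (nat_lit 0x36b6b3f248465)) e
 (c (a (nat_lit 0x8683d02a28365)) e
 (c (a (nat_lit 0x71bc141212005)) e
 (c (a (nat_lit 0x1aa02020000005)) e e))))))))))))))
 (c (a (nat_lit 0x20202001))
 (c (a (nat_lit 0x134ae0a08140c5))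
 (c (a (nat_lit 0x484a6b38588c525)) e
 (c z e
 (c z e
 (c (a (nat_lit 0x1b0d8d0947200006)) e
 (c (a (nat_lit 0x27e26e000000005)) e e)))))
 (c z e
 (c z e
 (c (a (nat_lit 0xc0deb7c79b584)) e
 (c (a (nat_lit 0x5e5d85a744d44)) e
 (c z e
 (c z e
 (c (a (nat_lit 0x171450ad645005)) e
 (c (a (nat_lit 0x7e0a088ddba64)) e
 (c z e
 (c (b (nat_lit 0x1fee1a57510ae4)) e
 (c (a (nat_lit 0x9557266200004)) e e))))))))))))
 (c (nat_lit 1)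
 (c (a (nat_lit 0x12d33ab49592a2))
 (c (a (nat_lit 0x10307087c546c2a5)) e
 (c (a (nat_lit 0x163269c4a3e00006)) e e))
 (c (a (nat_lit 0x9afc8f855df23))
 (c (a (nat_lit 0x1f0e048420000005)) e e)
 (c z e
 (c z e
 (c (a (nat_lit 0x1615f5ae096025)) e
 (c z e
 (c z e
 (c z e
 (c (b (nat_lit 0x1ffa6d2c1e1883)) e
 (c (a (nat_lit 0xec301f3e82003)) e e))))))))))
 (c (a (nat_lit 0x4040404041))
 (c (b (nat_lit 0x742ad4c34bfe3)) e
 (c z e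
 (c z e
 (c (a (nat_lit 0x1a9c75f24544a5)) e
 (c z e
 (c z e
 (c (b (nat_lit 0x1fe88708275304)) e
 (c (a (nat_lit 0x6e586a5d164e4)) e e))))))))
 (c (a (nat_lit 0x20000001))
 (c (a (nat_lit 0x16f6782dc206c4)) e
 (c (a (nat_lit 0x16d773c72904e5)) e
 (c z e
 (c z e
 (c (a (nat_lit 0x21e041e271c5)) e
 (c (a (nat_lit 0x4a2c485039b05)) e e))))))
 (c (a (nat_lit 0x8080808081))
 (c (b (nat_lit 0x17b676558fbfe3)) e
 (c z e
 (c z e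
 (c (a (nat_lit 0x58a2e2e93d0a6)) e
 (c z e
 (c (a (nat_lit 0x6c7f266c00005)) e
 (c (a (nat_lit 0x18f6c000000004)) e e)))))))
 (c (a (nat_lit 0x8080808081))
 (c (a (nat_lit 0x220c82bd0a4)) e
 (c z e
 (c z e
 (c (a (nat_lit 0x1c0451d44e004)) e
 (c (a (nat_lit 0x1378b880000004)) e e)))))
 (c (a (nat_lit 0x2020202021))
 (c z e
 (c (a (nat_lit 0xac98a692a53c7)) e
 (c (a (nat_lit 0x588221c00002)) e
 (c (a (nat_lit 0x14614000000001)) e e))))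
 (c (a (nat_lit 0x2020204001))
 (c (a (nat_lit 0xe0ecd8f154006)) e
 (c (a (nat_lit 0x142a4020000003)) e
 (c (a (nat_lit 0x14a00000000002)) e e)))
 (c (a (nat_lit 0x404051f8a3)) e
 (c (a (nat_lit 0x31784cc3)) e
 (c (a (nat_lit 0x51f8ad4b83)) e
 (c (a (nat_lit 0x1a360803e45)) e
 (c (a (nat_lit 0x360a03e5305)) e
 (c (a (nat_lit 0x242112b8166)) e
 (c (a (nat_lit 0x3324ca28286)) e
 (c (a (nat_lit 0x1f7460202045)) e
 (c (b (nat_lit 0x146020207fe5)) e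
 (c z e
 (c (a (nat_lit 0x17fae0608001)) e
 (c (a (nat_lit 0x1d20e0800001)) e
 (c (a (nat_lit 0xa000000001)) e e)))))))))))))))))))))))))) Tr.c Tr.e (nat_lit 0) C.cx C.cy
noncomputable def C785 : Tr := beta% (fun (c : Nat → Tr → Tr → Tr) (e : Tr) (z : Nat) (a b : Nat → Nat) =>
 (c (nat_lit 1)
 (c (a (nat_lit 0x6060606061))
 (c z
 (c z e
 (c (a (nat_lit 0x16bd1d1c3bdc3b04))
 (c z e
 (c z e
 (c (a (nat_lit 0xf6f6e2b2bc9cdd127)) e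
 (c (a (nat_lit 0xd8dab4c270fd77727)) e
 (c z e
 (c (a (nat_lit 0x5d508ac932eefc927)) e e))))))
 (c z e
 (c (a (nat_lit 0x423a3638a318a25)) e
 (c (a (nat_lit 0x8e8ab10edb04e84))
 (c z e
 (c z e
 (c (a (nat_lit 0xf2b78e761c0000006)) e
 (c (a (nat_lit 0xe79a3e00000000006)) e e))))
 (c z e
 (c z e
 (c (a (nat_lit 0x88be544276a72e4)) e
 (c (a (nat_lit 0xce7a8cbccf6b9e4)) e
 (c (a (nat_lit 0x20a3e463e45124)) e
 (c (a (nat_lit 0xe30b12946cd4a4)) e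
 (c (a (nat_lit 0xe5398b7f4b2b1a5)) e
 (c (a (nat_lit 0x9ed05e2857ac4)) e e)))))))))))))
 (c (a (nat_lit 0x20202030c5))
 (c (a (nat_lit 0x13939312f2f154a5))
 (c z e
 (c z e
 (c z e
 (c z e
 (c (a (nat_lit 0x178e3ac2a67e826e7)) e e)))))
 (c (a (nat_lit 0xead6d6d76d80dc5)) e
 (c z e
 (c z e
 (c (a (nat_lit 0x1ab9fb3bcbafcfa4)) e
 (c z e
 (c (b (nat_lit 0x82a5fe46c9d9d44)) e
 (c (a (nat_lit 0x74125e72c5069e6)) e
 (c z e
 (c z e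
 (c z e
 (c (a (nat_lit 0xf6fceedb09d0006)) e
 (c (a (nat_lit 0x10571f5ac0000002)) e e)))))))))))))
 (c (a (nat_lit 0x202020314385))
 (c (b (nat_lit 0xb4b2b7ff63360a4))
 (c z e
 (c z e
 (c (a (nat_lit 0x1d59b4d1f414e88827)) e e)))
 (c z e
 (c z e
 (c z e
 (c z e
 (c z e
 (c z e
 (c z e
 (c z e
 (c z e
 (c z e
 (c (a (nat_lit 0x182101a000000002)) e e))))))))))))
 (c (a (nat_lit 0xe0e0f24c4c84))
 (c (a (nat_lit 0xa317f31cc9383a5))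
 (c (a (nat_lit 0x5d1c4874681860226)) e
 (c (a (nat_lit 0x1d65ccc9472642e007)) e e))
 (c z e
 (c z e
 (c (a (nat_lit 0x885ab43c6920fa6)) e
 (c (a (nat_lit 0x5074a6ece11e846)) e
 (c z e
 (c z e
 (c (a (nat_lit 0x103133f1eb3e93c6)) e e))))))))
 (c (a (nat_lit 0x2c2d3eecf1144)) e
 (c (a (nat_lit 0x2cb8988897865))
 (c (a (nat_lit 0x4b78bdb4327784)) e
 (c (a (nat_lit 0xc994778c7612e4)) e
 (c z e
 (c (a (nat_lit 0xdcfafb80e777646)) e e))))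
 (c (a (nat_lit 0x6650464d4a745))
 (c z e
 (c (a (nat_lit 0x3876d47a1d29f85)) e
 (c z e
 (c z e
 (c (a (nat_lit 0xd66735086800006)) e e)))))
 (c (b (nat_lit 0x42366788d7fe5))
 (c (a (nat_lit 0x2960e0e5af9585)) e
 (c z e
 (c z e
 (c (a (nat_lit 0xa3998ee80000006)) e e))))
 (c (a (nat_lit 0x506d06a202026))
 (c (a (nat_lit 0x1427ea1170eca5a6)) e e)
 (c (a (nat_lit 0x75f34202023c5)) e
 (c (a (nat_lit 0x134dc3e3e2e2c6)) e
 (c z e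
 (c (a (nat_lit 0x13954ea243e021)) e
 (c (a (nat_lit 0x102e8b6baaab63)) e
 (c (a (nat_lit 0x1713b45253b043)) e
 (c (a (nat_lit 0x1677d3d8115182)) e
 (c (a (nat_lit 0xa2829c6e71763)) e
 (c (a (nat_lit 0x143004070cda3)) e
 (c (a (nat_lit 0x2c0203086c003)) e e)))))))))))))))))))
 C784)
 (c (a (nat_lit 0x40202041)) C783
 (c (nat_lit 1)
 (c (nat_lit 1)
 (c (a (nat_lit 0x6602024782663))
 (c z e
 (c z e
 (c z e
 (c (a (nat_lit 0xe534bc4c70645a4)) e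
 (c (a (nat_lit 0xfb60bcd32b3f064)) e
 (c (a (nat_lit 0x4858564e706b125)) e
 (c (a (nat_lit 0x727d695faa3e704)) e
 (c (a (nat_lit 0x462c853da4ca565)) e
 (c (a (nat_lit 0x78f3750800005)) e e)))))))))
 (c z e
 (c z e
 (c (a (nat_lit 0x83b44a0604004))
 (c z e
 (c (a (nat_lit 0x2238351484281c7)) e
 (c z e
 (c z e
 (c (a (nat_lit 0x15b54f6360000006)) e e)))))
 (c (a (nat_lit 0x1d46828262a204))
 (c (a (nat_lit 0x5461753a26324a6)) e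
 (c (a (nat_lit 0x28e1180e0c220c7)) e
 (c z e
 (c (a (nat_lit 0x1c4804a000000006)) e e))))
 (c (a (nat_lit 0x1160a042402062))
 (c (a (nat_lit 0xd15850406432006)) e e)
 (c (a (nat_lit 0x165a395b989882)) e
 (c (a (nat_lit 0xc0579f3b57c81)) e
 (c (a (nat_lit 0x896a2a89fca3)) e
 (c (a (nat_lit 0x6c6e6f81cdf45)) e
 (c (a (nat_lit 0x7a7d89d7ff9a5)) e
 (c (a (nat_lit 0xa0d5297d1b164)) e
 (c (a (nat_lit 0x6cf72ef8f51a3)) e
 (c (b (nat_lit 0xdd14e0dd01fe3)) e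
 (c (b (nat_lit 0x1f3877fcffe002)) e e)))))))))))))))
 (c (a (nat_lit 0x20202021))
 (c z e
 (c z e
 (c z e
 (c z e
 (c z e
 (c (a (nat_lit 0xb0a52f232b224)) e
 (c (a (nat_lit 0x264e546253cc3)) e
 (c (a (nat_lit 0x2045067127)) e
 (c z e
 (c (a (nat_lit 0x8ad337db35307)) e
 (c (a (nat_lit 0x4a7182809e406)) e
 (c (a (nat_lit 0x47285472160c6)) e
 (c (a (nat_lit 0x1224e6c1006026)) e e)))))))))))))
 (c (nat_lit 1)
 (c z e
 (c z e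
 (c (a (nat_lit 0x1e0e2a9e6c6e1)) e
 (c (a (nat_lit 0x68610f090f084))
 (c (a (nat_lit 0xf4951c3c0000006)) e e)
 (c (a (nat_lit 0x183797f87830c4)) e e)))))
 (c (a (nat_lit 0x2020202021))
 (c (a (nat_lit 0x260769690861))
 (c (a (nat_lit 0x5f470f76d10ecc4)) e
 (c (a (nat_lit 0x1385b0ea4fc86565)) e e))
 (c (a (nat_lit 0x1071d093d181))
 (c (a (nat_lit 0x1abaad7687630004)) e
 (c (a (nat_lit 0x1ccd5464a0000005)) e e))
 (c (a (nat_lit 0xca5a92ac9ffe2))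
 (c (a (nat_lit 0xbd5a4c000000004)) e e)
 (c (a (nat_lit 0x3a4246df37284)) e
 (c (a (nat_lit 0xe16e39f65184)) e
 (c (a (nat_lit 0x6d75d1bb51965)) e
 (c z e
 (c (a (nat_lit 0xdad53b72ac7e6)) e
 (c (a (nat_lit 0x8879c58e2c203)) e
 (c (a (nat_lit 0xc76d50a29e9c4)) e
 (c (a (nat_lit 0x199620e0400003)) e
 (c (a (nat_lit 0x16c08000000003)) e e))))))))))))
 (c (a (nat_lit 0x4040404041))
 (c (a (nat_lit 0x260206120bbe2))
 (c z e
 (c (a (nat_lit 0x15d8a78000000004)) e e))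
 (c (a (nat_lit 0x1c2e2178162))
 (c (a (nat_lit 0x1a26800000000004)) e e)
 (c (a (nat_lit 0xeef591e188c44)) e
 (c (a (nat_lit 0x4eb50ccc82145)) e
 (c (a (nat_lit 0x1378750c692a65)) e
 (c z e
 (c (a (nat_lit 0x108f58d5705626)) e
 (c (a (nat_lit 0xa2bf9ceceb3e5)) e
 (c (a (nat_lit 0x2702585654005)) e
 (c (a (nat_lit 0x15c04020000004)) e e))))))))))
 (c (a (nat_lit 0x6060606061))
 (c (a (nat_lit 0x111272666f60a1)) e
 (c (a (nat_lit 0xd11f031ae8125)) e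
 (c z e
 (c (a (nat_lit 0x193a3713101c65)) e
 (c z e
 (c z e
 (c (a (nat_lit 0x4d49a8f11ade4)) e
 (c (a (nat_lit 0xa706504000004)) e e))))))))
 (c (a (nat_lit 0x2020202021))
 (c (a (nat_lit 0x19d7995560d0c4)) e
 (c (b (nat_lit 0x1838d705e8bfe5)) e
 (c z e
 (c z e
 (c (b (nat_lit 0x1fe3a46c536a86)) e
 (c (a (nat_lit 0xaa583d0a92005)) e e))))))
 (c (nat_lit 1)
 (c (b (nat_lit 0x1657b8851fe8e3)) e
 (c (a (nat_lit 0xac98e8e0f5386)) e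
 (c z e
 (c (a (nat_lit 0x74d52f6b26f86)) e e))))
 (c (a (nat_lit 0x3c83))
 (c (a (nat_lit 0x46a6b4aacd606)) e e)
 (c (a (nat_lit 0x40405151e2))
 (c z e
 (c (a (nat_lit 0xb0a79fc400005)) e
 (c (a (nat_lit 0x3728000000004)) e e)))
 (c (a (nat_lit 0x15b5de9f8d02))
 (c (a (nat_lit 0x188e5fe0000001)) e
 (c (a (nat_lit 0x400000000001)) e e))
 (c (a (nat_lit 0x671d24d6ba4)) e
 (c (a (nat_lit 0x767c3013624)) e
 (c (a (nat_lit 0x762a0d5a3e4)) e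
 (c (b (nat_lit 0x42277457fe4)) e
 (c (a (nat_lit 0x630a6c48465)) e
 (c (a (nat_lit 0x1884c04020c4)) e
 (c (b (nat_lit 0x12c08042bfe2)) e
 (c z e
 (c (a (nat_lit 0x4a96841a021)) e
 (c (a (nat_lit 0x1140c0402001)) e
 (c (a (nat_lit 0x22180200001)) e
 (c (a (nat_lit 0x16000000001)) e e)))))))))))))))))))))))
 C782)))) Tr.c Tr.e (nat_lit 0) C.cx C.cy
noncomputable def C786 : Tr := beta% (fun (c : Nat → Tr → Tr → Tr) (e : Tr) (z : Nat) (a b : Nat → Nat) =>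
 (c (a (nat_lit 0x2020202021))
 (c (a (nat_lit 0x20203b6b2cc4))
 (c (a (nat_lit 0x687e3094a524ac4))
 (c z e
 (c (a (nat_lit 0xa6cb010f8c7766806)) e
 (c (a (nat_lit 0x14a5a5a80a85e56046)) e e)))
 (c z e
 (c z e
 (c (a (nat_lit 0x7cad28fefb22d25)) e
 (c (a (nat_lit 0xe51f336d974d425)) e
 (c (a (nat_lit 0x9e8e9cdf3b1ccc5)) e
 (c z e
 (c (a (nat_lit 0x9874b5831c75325)) e
 (c z e
 (c z e
 (c (a (nat_lit 0x16c12d8ca0000004)) e
 (c (a (nat_lit 0xd12200000000003)) e e))))))))))))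
 (c (a (nat_lit 0x203a84e78985))
 (c z e
 (c z e
 (c z e
 (c z e
 (c z e
 (c z e
 (c z e
 (c z e
 (c z e
 (c (a (nat_lit 0xb75aa8000000007)) e e))))))))))
 (c (a (nat_lit 0x12703c507f8a6)) e
 (c (a (nat_lit 0x865c608732006))
 (c (a (nat_lit 0x86f0e44c919d3e5)) e
 (c (a (nat_lit 0x4a767a7c90afe67)) e
 (c z e
 (c z e
 (c (a (nat_lit 0xba84ad4d174c607)) e e)))))
 (c (a (nat_lit 0xa0aed18834006))
 (c (a (nat_lit 0x6a624e928384c47)) e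
 (c z e
 (c z e
 (c (a (nat_lit 0x525d0c9ad63e008)) e e))))
 (c z e
 (c (a (nat_lit 0x91ce220202e45))
 (c (a (nat_lit 0xa2eb52e0e058007)) e
 (c (a (nat_lit 0xbb0cda6a0000008)) e e))
 (c (a (nat_lit 0x1e2644846ceca5))
 (c (a (nat_lit 0x1cfe694000000006)) e e)
 (c z e
 (c z e
 (c (a (nat_lit 0x6e50e52cc1a44)) e
 (c (a (nat_lit 0x1453b5efd150c5)) e
 (c z e
 (c (a (nat_lit 0xc602342d7a9c4)) e
 (c (a (nat_lit 0x1a155e807e4)) e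
 (c (b (nat_lit 0x1ff446868684)) e
 (c (b (nat_lit 0x1ffba020200003)) e
 (c (a (nat_lit 0x1b802000000003)) e e))))))))))))))))))
 (c (nat_lit 1)
 (c (a (nat_lit 0x14e806402bb25))
 (c (a (nat_lit 0x808fa722e0f8465)) e
 (c z e
 (c z e
 (c z e
 (c (a (nat_lit 0x64bc1a9c873be05)) e
 (c z e
 (c (a (nat_lit 0x4a90dab552321c6)) e
 (c (a (nat_lit 0x7a6a7140c854007)) e e))))))))
 (c z e
 (c z e
 (c z e
 (c (a (nat_lit 0x59fa9a0c02045))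
 (c (a (nat_lit 0x547d46807ec4ec7)) e e)
 (c (a (nat_lit 0x11a540a0a0c026))
 (c (a (nat_lit 0xa1377bdea400006)) e
 (c (a (nat_lit 0x15daf66000000006)) e e))
 (c (a (nat_lit 0x192f4f2502a864))
 (c (a (nat_lit 0x3b1800000000004)) e e)
 (c (a (nat_lit 0x60705eeb19205)) e
 (c z e
 (c (a (nat_lit 0xad3fb981ad945)) e
 (c (a (nat_lit 0x2a5e425a4f526)) e
 (c (a (nat_lit 0x6e52685d623a6)) e
 (c (a (nat_lit 0x3654494c24346)) e
 (c (a (nat_lit 0x5043462a38526)) e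
 (c (a (nat_lit 0x4f502c3c2a006)) e
 (c (a (nat_lit 0x13812120000006)) e e))))))))))))))))
 (c (a (nat_lit 0x20200001))
 (c z e
 (c z e
 (c z e
 (c z e
 (c z e
 (c z e
 (c z e
 (c z e
 (c z e
 (c (b (nat_lit 0x87feb8bc89a24)) e
 (c (a (nat_lit 0x60d4dabf36a85)) e
 (c z e
 (c (a (nat_lit 0xebbb58ce94785)) e
 (c (a (nat_lit 0x15afa701c00005)) e e))))))))))))))
 (c (a (nat_lit 0x20002001))
 (c (a (nat_lit 0x97480e0404164))
 (c (a (nat_lit 0xe38625f0e48305)) e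
 (c (a (nat_lit 0x3c606f2816644e6)) e
 (c z e
 (c z e
 (c (a (nat_lit 0x1184eea440000006)) e e)))))
 (c (a (nat_lit 0x1440a04021c0e5))
 (c (a (nat_lit 0x405b323ec670826)) e
 (c z e
 (c z e
 (c (a (nat_lit 0x33474000000006)) e e))))
 (c z e
 (c z e
 (c (a (nat_lit 0x565d2f08f6d84)) e
 (c z e
 (c z e
 (c (a (nat_lit 0x157513108c4665)) e
 (c (a (nat_lit 0xa4681d52c8d64)) e
 (c z e
 (c (b (nat_lit 0x1ff10a0ad08b84)) e
 (c (a (nat_lit 0x1f4347dee44002)) e e))))))))))))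
 (c (a (nat_lit 0x4040404041))
 (c (a (nat_lit 0x6e5c5ec88bc22))
 (c (a (nat_lit 0x291488ec7076305)) e
 (c z e
 (c z e
 (c (a (nat_lit 0x18c6c00000000005)) e e))))
 (c z e
 (c z e
 (c (a (nat_lit 0x5333b10b82d04)) e
 (c z e
 (c z e
 (c (a (nat_lit 0x1150708aa20385)) e
 (c z e
 (c (b (nat_lit 0x1ff582c96e9a43)) e
 (c (a (nat_lit 0x19254bd11dc843)) e e))))))))))
 (c (nat_lit 1)
 (c (a (nat_lit 0xc8eb16f8d41e3))
 (c (a (nat_lit 0x1ab10ea460000004)) e e)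
 (c z e
 (c z e
 (c (a (nat_lit 0x167511f10d4385)) e
 (c z e
 (c (a (nat_lit 0x5039086c62805)) e
 (c (b (nat_lit 0x1ff52200e4b044)) e
 (c (a (nat_lit 0x18e564c893f804)) e e))))))))
 (c (nat_lit 1)
 (c (a (nat_lit 0x1bbabdb3e735e4)) e
 (c (a (nat_lit 0x14553003ed0525)) e
 (c z e
 (c z e
 (c (b (nat_lit 0x1fefe060607ea4)) e
 (c (a (nat_lit 0x170787e7a6e6a4)) e e))))))
 (c (a (nat_lit 0x4040404041))
 (c (a (nat_lit 0xf6ecef3292724)) e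
 (c z e
 (c z e
 (c (a (nat_lit 0x84a0cee6fd386)) e
 (c z e
 (c (a (nat_lit 0x3a76a55064005)) e
 (c (a (nat_lit 0x10334ea0000005)) e
 (c (a (nat_lit 0x13000000000003)) e e))))))))
 (c (a (nat_lit 0x202001))
 (c (a (nat_lit 0x16b4200c81ae4)) e
 (c z e
 (c z e
 (c (a (nat_lit 0xa68ec0d3468c5)) e
 (c (a (nat_lit 0x175dffd7200004)) e
 (c (a (nat_lit 0x1eb14000000003)) e e))))))
 (c (a (nat_lit 0x2020204041))
 (c z e
 (c (a (nat_lit 0x139336f80eb524)) e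
 (c (a (nat_lit 0xd313267c7a004)) e
 (c (a (nat_lit 0x13556020000003)) e
 (c (a (nat_lit 0x15800000000003)) e e)))))
 (c (nat_lit 1)
 (c (a (nat_lit 0x18d9b9ba59f4a5)) e
 (c (a (nat_lit 0x169658c2a00003)) e
 (c (a (nat_lit 0x150b2000000004)) e e)))
 (c (a (nat_lit 0x40404052a1)) e
 (c (a (nat_lit 0x202024d0a3)) e
 (c (a (nat_lit 0x2024d0ad23)) e
 (c (a (nat_lit 0x87ed7f2e2)) e
 (c (a (nat_lit 0x3a1e0da24)) e
 (c (a (nat_lit 0x3216059a4e4)) e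
 (c (b (nat_lit 0x3c2bc3fe004)) e
 (c (a (nat_lit 0xb37c9e9c9c5)) e
 (c (a (nat_lit 0x1c4040202024)) e
 (c (b (nat_lit 0x1606060bfe1)) e
 (c z e
 (c (a (nat_lit 0x14346b4b0002)) e
 (c (a (nat_lit 0x13c080000001)) e e))))))))))))))))))))))))) Tr.c Tr.e (nat_lit 0) C.cx C.cy
noncomputable def C787 : Tr := beta% (fun (c : Nat → Tr → Tr → Tr) (e : Tr) (z : Nat) (a b : Nat → Nat) =>
 (c (nat_lit 1)
 (c z
 (c (a (nat_lit 0xe1273b2c9a2c0a3)) e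
 (c z e
 (c z e
 (c (a (nat_lit 0x654834342f07104))
 (c z e
 (c z e
 (c (a (nat_lit 0x1aed740f3614950c46)) e
 (c z e
 (c (a (nat_lit 0x90b4f5caa0ce98846)) e
 (c z e
 (c (a (nat_lit 0x6156aa0c0e2a00006)) e e)))))))
 (c (a (nat_lit 0x13a300e10020c4a4))
 (c z e
 (c z e
 (c (a (nat_lit 0xa8907712746a9a527)) e
 (c z e
 (c (a (nat_lit 0xa5084a5292847c007)) e e)))))
 (c (a (nat_lit 0x46243612c134ae3)) e
 (c z e
 (c z e
 (c (a (nat_lit 0x1036526a38531e4)) e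
 (c (a (nat_lit 0xb6b906bc7b3b8e4)) e
 (c (a (nat_lit 0xb4dcdea90b3f3e4)) e
 (c (a (nat_lit 0x10f0f30baeef55e4)) e
 (c (b (nat_lit 0x1fffffec4c6f94a4)) e
 (c (a (nat_lit 0x24cdef308acc25)) e
 (c (a (nat_lit 0xa4dcdf1068945c4)) e
 (c (a (nat_lit 0x1090f74227c06003)) e
 (c (a (nat_lit 0x179dc96760000003)) e
 (c (a (nat_lit 0x18a1e00000000003)) e e))))))))))))))))))
 (c z
 (c z e
 (c z e
 (c (a (nat_lit 0x11a56cacabec2d46)) e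
 (c z e
 (c z e
 (c z e
 (c z e
 (c z e
 (c z e
 (c z e
 (c z e
 (c z e
 (c (a (nat_lit 0x992b77a93f754e6)) e
 (c z e
 (c (b (nat_lit 0x6dfe2d0c6e00004)) e
 (c (a (nat_lit 0x8af3c000000003)) e e))))))))))))))))
 (c z
 (c (a (nat_lit 0x11e780a12020ab84))
 (c z e
 (c z e
 (c z e
 (c z e
 (c z e
 (c z e
 (c (a (nat_lit 0x9d3b7559295c90007)) e e))))))) e)
 (c z
 (c (a (nat_lit 0x1232b17234aa0ce4))
 (c z e
 (c z e
 (c z e
 (c (a (nat_lit 0x6946f4b44484a4d26)) e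
 (c (a (nat_lit 0x12c4a580e463258007)) e e)))))
 (c (a (nat_lit 0x100d0dfdefda5aa4))
 (c z e
 (c z e
 (c z e
 (c (a (nat_lit 0x10b758b74dae000007)) e e))))
 (c z e
 (c (a (nat_lit 0x9a704a5a5b07405)) e
 (c (a (nat_lit 0xa462627efb1b505)) e
 (c (b (nat_lit 0x1207feecd8d5225)) e
 (c (a (nat_lit 0x38291118e12e725)) e
 (c (a (nat_lit 0x3f06f2fb1687645)) e
 (c z e
 (c z e
 (c (a (nat_lit 0xfb1b093d3399c85)) e
 (c (a (nat_lit 0x11aa2cca2bc00005)) e e))))))))))))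
 (c (a (nat_lit 0x606060607c02))
 (c z e
 (c z e
 (c z e
 (c z e
 (c (a (nat_lit 0x2e2bea3e56a57c5)) e
 (c (a (nat_lit 0x25d25b5055696c5)) e
 (c (a (nat_lit 0x11834e0f6d32ae86)) e
 (c z e
 (c z e
 (c (a (nat_lit 0x16939b599471a006)) e
 (c (a (nat_lit 0xe30afc4e0000006)) e e)))))))))))
 (c (a (nat_lit 0x2040405c2863))
 (c z e
 (c z e
 (c z e
 (c (a (nat_lit 0x306887829036a5)) e
 (c (b (nat_lit 0x1029e65febad8105)) e
 (c z e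
 (c z e
 (c z e
 (c z e
 (c (a (nat_lit 0x1913882000000005)) e e))))))))))
 (c (a (nat_lit 0x808093a6a884))
 (c z e
 (c (a (nat_lit 0x68505376f07025)) e
 (c (a (nat_lit 0x63a4e9c6b0e4c5)) e
 (c z e
 (c (a (nat_lit 0x6706c978dcddc45)) e
 (c z e
 (c z e
 (c (a (nat_lit 0xb6b6c50e0000006)) e
 (c (a (nat_lit 0x13aa200000000005)) e e)))))))))
 (c (a (nat_lit 0x1a1a2ad92f8c3))
 (c (a (nat_lit 0xb921715f98eac64)) e
 (c z e
 (c z e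
 (c (a (nat_lit 0x9acad88487448e6)) e
 (c z e
 (c z e
 (c (a (nat_lit 0xd315ba000000005)) e e)))))))
 (c (a (nat_lit 0x2c4e9ab0e9244))
 (c z e
 (c (a (nat_lit 0x9282bc98875abc6)) e e))
 (c (b (nat_lit 0xa4d0cb178ffe4))
 (c (a (nat_lit 0x9c7adab16d78085)) e
 (c (b (nat_lit 0xc89c8586bffe206)) e e))
 (c (b (nat_lit 0xed0d49bdfe044))
 (c (a (nat_lit 0xaca954826046006)) e e)
 (c z e
 (c z e
 (c (a (nat_lit 0x17c9ca6a41a1a5)) e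
 (c (a (nat_lit 0x4484e0c17502)) e
 (c (a (nat_lit 0x3e641a0f49582)) e
 (c (a (nat_lit 0x82442f7b854e2)) e
 (c (a (nat_lit 0x3228cad0b9043)) e
 (c (a (nat_lit 0x48504269984)) e
 (c (a (nat_lit 0xe160a315ef64)) e
 (c (a (nat_lit 0x281c3f6c82004)) e e)))))))))))))))))))))
 (c (a (nat_lit 0x8080808081))
 (c z
 (c (a (nat_lit 0x8130b21414c8c65))
 (c z e
 (c z e
 (c z e
 (c (a (nat_lit 0x135410d12e4daf2a47)) e
 (c (a (nat_lit 0x18b4f1b0aac9c359a6)) e e)))))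
 (c (a (nat_lit 0x140bf11110503126))
 (c z e
 (c z e
 (c z e
 (c (a (nat_lit 0xf2ced4f736c31b468)) e e))))
 (c z e
 (c (a (nat_lit 0xb4b4a8a4b8bb7c6))
 (c (a (nat_lit 0x1d308a5471126ef3a6)) e
 (c (a (nat_lit 0xfaa31ca138d922a68)) e
 (c z e
 (c z e
 (c (a (nat_lit 0x138ebbde0ea0000007)) e e)))))
 (c z e
 (c z e
 (c z e
 (c (a (nat_lit 0x1ade7b3409b49cc4)) e
 (c z e
 (c z e
 (c (b (nat_lit 0x1fffffe7f0ec2d05)) e
 (c z e
 (c z e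
 (c z e
 (c (a (nat_lit 0x1c6f4b2a80000003)) e e)))))))))))))))
 (c z
 (c z e
 (c z e
 (c z e
 (c z e
 (c z e
 (c z e
 (c z e
 (c z e
 (c z e
 (c z e
 (c z e
 (c z e
 (c z e
 (c (a (nat_lit 0x118aa2e000000001)) e e))))))))))))))
 (c (a (nat_lit 0x2020202035a5))
 (c z e
 (c z e
 (c z e
 (c z e
 (c z e
 (c (a (nat_lit 0xa686ad2b0161ba6)) e e))))))
 (c (a (nat_lit 0x20202034c525))
 (c (b (nat_lit 0x66dff18a884446))
 (c (a (nat_lit 0xeed13468786c74486)) e e)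
 (c z e
 (c z e
 (c z e
 (c (a (nat_lit 0x1471e7e327f4be06)) e
 (c z e
 (c z e
 (c (a (nat_lit 0x7cb288fa8819767)) e e))))))))
 (c (a (nat_lit 0x202037eccf05)) e
 (c (a (nat_lit 0x2c2d109e9c8e6)) e
 (c (a (nat_lit 0x1924f904dffe5)) e
 (c (a (nat_lit 0x1352318f7ce885))
 (c (a (nat_lit 0x6c8eda36abbefe6)) e
 (c z e
 (c z e
 (c (a (nat_lit 0x867920866800008)) e e))))
 (c z e
 (c z e
 (c (a (nat_lit 0x4596cc2e2e066)) e
 (c (a (nat_lit 0x1f52c8e8ede546)) e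
 (c z e
 (c z e
 (c (a (nat_lit 0x19b510930f6b83)) e
 (c (a (nat_lit 0x139136388f2e64)) e
 (c (a (nat_lit 0x7513522814ca3)) e
 (c (a (nat_lit 0xd1320a04aefa3)) e
 (c (a (nat_lit 0x11c02069ae87e3)) e e)))))))))))))))))))
 (c (a (nat_lit 0x2020202021))
 (c (a (nat_lit 0x202020203084))
 (c (a (nat_lit 0x60602022edf585)) e
 (c (a (nat_lit 0x2c2426931b9eee6)) e
 (c z e
 (c z e
 (c z e
 (c z e
 (c (a (nat_lit 0x766a2c0c054bc25)) e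
 (c z e
 (c z e
 (c z e
 (c z e
 (c z e
 (c (a (nat_lit 0x1d8089c0c0000005)) e
 (c (a (nat_lit 0x1292200000000004)) e e))))))))))))))
 (c (a (nat_lit 0x20202035ede5))
 (c z e
 (c z e
 (c z e
 (c z e
 (c z e
 (c z e
 (c z e
 (c z e
 (c z e
 (c z e
 (c z e
 (c (a (nat_lit 0x12759b0000000004)) e e))))))))))))
 (c (a (nat_lit 0x202035078965)) e
 (c (a (nat_lit 0x5858f4d6f52c5)) e
 (c (a (nat_lit 0x570cece716025)) e
 (c z e
 (c z e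
 (c z e
 (c z e
 (c z e
 (c z e
 (c (a (nat_lit 0xe0e0a2a63066)) e
 (c (a (nat_lit 0x140c0269b3e05)) e
 (c (a (nat_lit 0x262290fb11126)) e e))))))))))))))
 C786)))) Tr.c Tr.e (nat_lit 0) C.cx C.cy
noncomputable def C788 : Tr := beta% (fun (c : Nat → Tr → Tr → Tr) (e : Tr) (z : Nat) (a b : Nat → Nat) =>
 (c (nat_lit 1)
 (c (a (nat_lit 0x202020326d44))
 (c (a (nat_lit 0x22aa78a8d2d9464))
 (c z e
 (c (a (nat_lit 0xa0fd1cb4e9e0befa6)) e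
 (c z e
 (c (a (nat_lit 0x1eef0a8a6b2ac2e006)) e e))))
 (c z e
 (c z e
 (c (a (nat_lit 0x10330b500c870365)) e
 (c (a (nat_lit 0xb3032492c5395c4)) e
 (c (a (nat_lit 0x85a86746d14aa5)) e
 (c (a (nat_lit 0x4e8c6286d2335e5)) e
 (c (a (nat_lit 0x9a9254aec2d9205)) e
 (c (a (nat_lit 0x629cf6d2d07dea6)) e e)))))))))
 (c (a (nat_lit 0x20203631f2a5)) e
 (c (a (nat_lit 0x5657aecad7105)) e
 (c (a (nat_lit 0x5708e4ccfd5c5))
 (c (a (nat_lit 0x13b70ed22b6a40a4)) e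
 (c (a (nat_lit 0xcedb5704a8e2025)) e
 (c z e
 (c z e
 (c z e
 (c (b (nat_lit 0x8e63ff9320b8007)) e e))))))
 (c (a (nat_lit 0xf0e0d2f774885))
 (c (a (nat_lit 0x405c4c2e64050e6)) e
 (c z e
 (c z e
 (c z e
 (c (a (nat_lit 0xdab1a74efa00007)) e e)))))
 (c z e
 (c z e
 (c (a (nat_lit 0x8d56f642423e6)) e
 (c (a (nat_lit 0x191307c7c20666)) e
 (c z e
 (c z e
 (c (a (nat_lit 0x7071051ef8fe5)) e
 (c (a (nat_lit 0x10ea70b15484)) e
 (c (a (nat_lit 0x1004f0107734c3)) e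
 (c z e
 (c (b (nat_lit 0x1fffef46c766c1)) e
 (c (a (nat_lit 0xc0e200a001)) e e)))))))))))))))))
 (c (nat_lit 1)
 (c (a (nat_lit 0x2a2bc78faac04))
 (c z e
 (c z e
 (c z e
 (c (a (nat_lit 0xff274524cc82ea5)) e e))))
 (c z e
 (c z e
 (c z e
 (c z e
 (c (a (nat_lit 0x2f5af20202b46))
 (c (a (nat_lit 0x9a751a84e24e007)) e e)
 (c z e
 (c z e
 (c z e
 (c (a (nat_lit 0xe5250ae8e7405)) e
 (c (a (nat_lit 0x16f1adadadcd64)) e
 (c (a (nat_lit 0x1201e0c1a121c2)) e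
 (c z e
 (c z e
 (c (a (nat_lit 0x50e13e1350dc1)) e
 (c (b (nat_lit 0x3ab5fe7c00001)) e e))))))))))))))))
 (c (a (nat_lit 0x4040404041))
 (c z e
 (c z e
 (c z e
 (c z e
 (c (a (nat_lit 0x13adc02020c026))
 (c (a (nat_lit 0x74bb19507e00007)) e e)
 (c z e
 (c z e
 (c z e
 (c (a (nat_lit 0x78e9293336fc5)) e e)))))))))
 (c (a (nat_lit 0x2020202021))
 (c (a (nat_lit 0x4893d5e202004))
 (c (a (nat_lit 0xa61a364c15f2ac4)) e
 (c z e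
 (c (a (nat_lit 0x4816132036740a6)) e
 (c (a (nat_lit 0x480f24ca7014266)) e e))))
 (c (a (nat_lit 0xabed701a1a405))
 (c (a (nat_lit 0x5a48bd1c62e6725)) e e)
 (c z e
 (c z e
 (c z e
 (c (b (nat_lit 0x1fffffea0171e3)) e
 (c z e
 (c z e
 (c z e
 (c (a (nat_lit 0x86108dd06523)) e
 (c (a (nat_lit 0x126f5d66da42)) e
 (c (a (nat_lit 0xce5d42154c162)) e e))))))))))))
 (c (a (nat_lit 0x12121212121))
 (c (a (nat_lit 0x1df5e0e0e3c2e4))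
 (c (a (nat_lit 0x1c90b0ef1064064)) e e)
 (c z e
 (c z e
 (c (b (nat_lit 0x1ff9bcfff28963)) e
 (c (a (nat_lit 0x133dbd34b6a004)) e
 (c z e
 (c z e
 (c (a (nat_lit 0x98e6f8f4f7024)) e
 (c (b (nat_lit 0x1fe328f22fb602)) e
 (c (a (nat_lit 0x98a13361af1c2)) e e))))))))))
 (c (nat_lit 1)
 (c z e
 (c (a (nat_lit 0x18ff7c1ef8d625)) e
 (c z e
 (c z e
 (c z e
 (c (a (nat_lit 0x27112325c5802)) e
 (c (a (nat_lit 0x4145d46c6922)) e
 (c (a (nat_lit 0x2534912d6162)) e e))))))))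
 (c (nat_lit 1)
 (c (a (nat_lit 0x112ed2ea848924)) e
 (c z e
 (c z e
 (c (a (nat_lit 0x12775958987aa6)) e
 (c (a (nat_lit 0x1e040c575a5)) e
 (c (a (nat_lit 0x5a04193966d43)) e
 (c z e
 (c z e
 (c (a (nat_lit 0x1011e6c0000004)) e
 (c (a (nat_lit 0x16c00000000003)) e e))))))))))
 (c (a (nat_lit 0x20000001))
 (c z e
 (c (a (nat_lit 0xd10efe7c5c423)) e
 (c z e
 (c (a (nat_lit 0x3709373385925)) e
 (c z e
 (c (a (nat_lit 0x1151bc5e7c9244)) e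
 (c (a (nat_lit 0x934762a600004)) e
 (c (a (nat_lit 0x166c2000000004)) e e))))))))
 (c (a (nat_lit 0x8080808081))
 (c (a (nat_lit 0x1c22100e0dd24)) e
 (c z e
 (c z e
 (c (a (nat_lit 0xd4cd113947fe4)) e
 (c (a (nat_lit 0xff253b40cc005)) e
 (c (a (nat_lit 0xe304320000004)) e
 (c (a (nat_lit 0x1a600000000003)) e e)))))))
 (c (a (nat_lit 0x2001))
 (c z e
 (c (a (nat_lit 0x1bbb9c7d1c3a06)) e
 (c (a (nat_lit 0x14349493b27206)) e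
 (c (a (nat_lit 0x17c264a3400003)) e
 (c (a (nat_lit 0x225a000000001)) e e)))))
 (c (a (nat_lit 0x2001))
 (c (a (nat_lit 0x1191b1b1b20f46)) e
 (c (a (nat_lit 0x1534c0c1410003)) e
 (c (a (nat_lit 0x14002040000003)) e
 (c (nat_lit 1) e e))))
 (c (a (nat_lit 0xc0c0c0c0c1)) e
 (c (a (nat_lit 0xa0a0a0af41)) e
 (c (a (nat_lit 0x2003b763)) e
 (c (a (nat_lit 0x23772be3)) e
 (c (a (nat_lit 0x2d66b22c3)) e
 (c (a (nat_lit 0x25022035c5)) e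
 (c (a (nat_lit 0x5024035f3a5)) e
 (c (b (nat_lit 0x2c0b6743fe5)) e
 (c (a (nat_lit 0x2d876618185)) e
 (c (a (nat_lit 0x185621414205)) e
 (c (a (nat_lit 0x14e02020c0a5)) e e))))))))))))))))))))))) Tr.c Tr.e (nat_lit 0) C.cx C.cy
noncomputable def C789 : Tr := beta% (fun (c : Nat → Tr → Tr → Tr) (e : Tr) (z : Nat) (a b : Nat → Nat) =>
 (c (a (nat_lit 0x2020202021))
 (c z
 (c (a (nat_lit 0x10f31998f1936f04))
 (c z e
 (c z e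
 (c z e
 (c z e
 (c (a (nat_lit 0xc2d4c65df30b892c5)) e
 (c (a (nat_lit 0xb49c6a9fe6fd56146)) e
 (c z e
 (c (a (nat_lit 0xd6e8f0a8828a65c05)) e
 (c (a (nat_lit 0x6a7e6c7256b35c806)) e
 (c (a (nat_lit 0x8a4672868594d0706)) e e))))))))))
 (c z e
 (c z e
 (c z e
 (c (a (nat_lit 0x169468206029a5c5))
 (c z e
 (c z e
 (c z e
 (c z e
 (c z e
 (c (a (nat_lit 0x43c4ab71325400006)) e e))))))
 (c (a (nat_lit 0x160a442425028aa5)) e
 (c z e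
 (c z e
 (c z e
 (c (a (nat_lit 0x9ac72f40ce82665)) e
 (c z e
 (c z e
 (c z e
 (c (a (nat_lit 0x685e94928ea1a25)) e
 (c (a (nat_lit 0x1625a1606689cc83)) e e)))))))))))))))
 (c z e
 (c z
 (c (a (nat_lit 0x1067c7402021a0e6)) e
 (c z e
 (c z e
 (c z e
 (c z e
 (c z e
 (c z e
 (c z e
 (c (a (nat_lit 0x143252b00c2a2886)) e e)))))))))
 (c z e
 (c z
 (c z e
 (c z e
 (c z e
 (c z e
 (c z e
 (c (b (nat_lit 0x1ffff4279513b885)) e
 (c z e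
 (c z e
 (c z e
 (c z e
 (c (a (nat_lit 0x19b4004060400005)) e e)))))))))))
 (c (a (nat_lit 0x404040405f43))
 (c z e
 (c z e
 (c z e
 (c z e
 (c z e
 (c z e
 (c z e
 (c z e
 (c z e
 (c (a (nat_lit 0x11af092420000007)) e e))))))))))
 (c (a (nat_lit 0x20203927c4)) e
 (c (a (nat_lit 0x3434346d6cfa3)) e
 (c (a (nat_lit 0x6c6c87ef24543)) e
 (c (a (nat_lit 0xa3c401a0b186))
 (c (a (nat_lit 0x7e84d9108b2d4c6)) e e)
 (c z e
 (c z e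
 (c z e
 (c (a (nat_lit 0x1999b50e2e2586)) e
 (c (a (nat_lit 0x100b64848422e6)) e
 (c z e
 (c z e
 (c z e
 (c (a (nat_lit 0xce7f07102a224)) e
 (c (a (nat_lit 0xa3c1d41002003)) e e))))))))))))))))))))
 (c (nat_lit 1)
 (c z
 (c z e
 (c (a (nat_lit 0xc963100402c0ca6)) e
 (c (a (nat_lit 0x182f848463e68ca6)) e e)))
 (c z
 (c (a (nat_lit 0x1edbf3d3b394bb85)) e e)
 (c z e
 (c (a (nat_lit 0x202020203505))
 (c z e
 (c z e
 (c z e
 (c z e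
 (c (a (nat_lit 0xbc610eb530e2026)) e e)))))
 (c (a (nat_lit 0x2020203be7a5)) e
 (c (a (nat_lit 0x20203f12d0c5)) e
 (c (a (nat_lit 0x3e3f0f6752e65)) e e)))))))
 (c (a (nat_lit 0xa0a0a0a0a1))
 (c z
 (c (a (nat_lit 0x1d26868d6c311123)) e
 (c (a (nat_lit 0x6063678ac9b7c5)) e
 (c z e
 (c z e
 (c z e
 (c (a (nat_lit 0x98efaf8af4ab9a5)) e
 (c z e
 (c z e
 (c z e
 (c (a (nat_lit 0x98ac90ded30d186)) e e))))))))))
 (c (a (nat_lit 0x202020203185))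
 (c (a (nat_lit 0xa20b0dcdf309c5))
 (c z e
 (c z e
 (c z e
 (c z e
 (c (a (nat_lit 0x170e8b9152aa600007)) e e)))))
 (c z e
 (c z e
 (c z e
 (c (a (nat_lit 0xc56d6718c973466)) e
 (c z e
 (c z e
 (c z e
 (c (a (nat_lit 0x66813fad5ed01c6)) e e)))))))))
 (c (a (nat_lit 0x202020352fe5)) e
 (c (a (nat_lit 0x202032696966))
 (c z e
 (c z e
 (c (a (nat_lit 0x566e590c6c7a4a7)) e e)))
 (c (a (nat_lit 0x2c2d20ceba886))
 (c z e
 (c z e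
 (c z e
 (c (a (nat_lit 0x58d561df6ceaf65)) e e))))
 (c (a (nat_lit 0x5773997f0f245))
 (c (a (nat_lit 0x54ceed081a0e685)) e
 (c z e
 (c z e
 (c z e
 (c (a (nat_lit 0xa2ae9f514864007)) e e)))))
 (c z e
 (c z e
 (c z e
 (c (a (nat_lit 0x91333e5c5c006)) e
 (c z e
 (c z e
 (c z e
 (c (a (nat_lit 0xe0c973676c3)) e
 (c (a (nat_lit 0xa4a34f4343a43)) e
 (c z e
 (c z e
 (c (a (nat_lit 0x2e6bd5cbcfb81)) e
 (c (a (nat_lit 0x42c221600001)) e e)))))))))))))))))))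
 C788)))) Tr.c Tr.e (nat_lit 0) C.cx C.cy
noncomputable def C790 : Tr := beta% (fun (c : Nat → Tr → Tr → Tr) (e : Tr) (z : Nat) (a b : Nat → Nat) =>
 (c z
 (c (a (nat_lit 0x72727273e70ce42))
 (c z e
 (c z e
 (c z e
 (c z e
 (c z e
 (c z e
 (c z e
 (c z e
 (c z e
 (c z e
 (c z e
 (c (a (nat_lit 0x3e3240504ea045725)) e
 (c z e
 (c (a (nat_lit 0x48444654b9de40006)) e e))))))))))))))
 (c (a (nat_lit 0x4c4c4ddd50ea023))
 (c z e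
 (c z e
 (c z e
 (c z e
 (c z e
 (c z e
 (c z e
 (c z e
 (c z e
 (c (a (nat_lit 0x282e382c543e27086)) e
 (c z e
 (c (a (nat_lit 0x6a7084830330ccc46)) e e))))))))))))
 (c (a (nat_lit 0x32339b7b64be6e4))
 (c z e
 (c z e
 (c z e
 (c z e
 (c z e
 (c z e
 (c z e
 (c (a (nat_lit 0x66284024662c71266)) e e))))))))
 (c (a (nat_lit 0xbb9513aaa18024))
 (c z e
 (c z e
 (c z e
 (c z e
 (c z e
 (c (a (nat_lit 0xa4646a8440d8b5e85)) e
 (c (a (nat_lit 0x3e3822465cbd68185)) e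
 (c (a (nat_lit 0x344c5c8c66a32aa46)) e e))))))))
 (c (a (nat_lit 0x1df63513ce896064))
 (c z e
 (c z e
 (c z e
 (c z e
 (c (a (nat_lit 0x946c6868c06960646)) e
 (c (a (nat_lit 0x663e546a9b787c746)) e e))))))
 (c z e
 (c z e
 (c (a (nat_lit 0x61531e646464404))
 (c z e
 (c (a (nat_lit 0x4666653a228634446)) e
 (c (a (nat_lit 0x4eb1da76a45d36765)) e e)))
 (c (a (nat_lit 0x124f03636403e124))
 (c (a (nat_lit 0x4e539e366a303e325)) e e)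
 (c z e
 (c z e
 (c (a (nat_lit 0xc35f7db1cd22423)) e
 (c (a (nat_lit 0x10927372514060c4)) e
 (c z e
 (c (a (nat_lit 0x1cddbdb68b4bea24)) e e)))))))))))))))
 (c z
 (c (a (nat_lit 0x7070fd2cee135c4))
 (c z e
 (c z e
 (c z e
 (c z e
 (c z e
 (c z e
 (c z e
 (c z e
 (c (a (nat_lit 0x625872e2b05ad1d85)) e
 (c (a (nat_lit 0x3a4432787a495eac6)) e e))))))))))
 (c z e
 (c z e
 (c z e
 (c (b (nat_lit 0xfbff51060a09485))
 (c z e
 (c z e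
 (c z e
 (c (a (nat_lit 0x6c343c0f2480d2ea8)) e e))))
 (c (a (nat_lit 0x1290cd4727068946))
 (c (a (nat_lit 0x1a33f2438561a1e3e7)) e
 (c z e
 (c z e
 (c z e
 (c (a (nat_lit 0x84acab0f62ce00007)) e e)))))
 (c z e
 (c z e
 (c z e
 (c z e
 (c z e
 (c z e
 (c z e
 (c (a (nat_lit 0xf2eeea421607125)) e
 (c (a (nat_lit 0x1d1b6c6763a8c123)) e
 (c (a (nat_lit 0x1c94f0cf51af96e4)) e e))))))))))))))))
 (c z
 (c z e
 (c z e
 (c z e
 (c z e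
 (c (a (nat_lit 0x144ec080a2632946)) e
 (c z e
 (c z e
 (c z e
 (c z e
 (c z e
 (c z e
 (c z e
 (c (b (nat_lit 0x7c6d73ff1ee68c5)) e e)))))))))))))
 (c z
 (c (a (nat_lit 0x1433aecf63a3a725)) e
 (c (a (nat_lit 0x105f19c5252c71e5))
 (c z e
 (c z e
 (c z e
 (c z e
 (c (a (nat_lit 0x4cbe837ab9673d0c7)) e e)))))
 (c z e
 (c z e
 (c z e
 (c (a (nat_lit 0x1ea2847e6c49184)) e
 (c z e
 (c z e
 (c z e
 (c (a (nat_lit 0xacb8e124f805525)) e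
 (c z e
 (c z e
 (c z e
 (c (a (nat_lit 0x120730702d0a0004)) e e))))))))))))))
 (c z
 (c (a (nat_lit 0x106a4565452baba5))
 (c z e
 (c z e
 (c z e
 (c (a (nat_lit 0xeefedfe3b6ac78fe6)) e
 (c (a (nat_lit 0xe251c4e56a60e8606)) e e)))))
 (c z e
 (c z e
 (c (a (nat_lit 0x223eaae26863044))
 (c z e
 (c (a (nat_lit 0xa50a9cbee27a00007)) e e))
 (c (a (nat_lit 0x82dc889e9ce1065))
 (c (a (nat_lit 0x1869cba9a580000006)) e e)
 (c z e
 (c (a (nat_lit 0x3c1888c54323724)) e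
 (c (a (nat_lit 0xeb939ff7d1bbf84)) e
 (c (a (nat_lit 0x8e938b798939425)) e
 (c z e
 (c z e
 (c (a (nat_lit 0xab08d8f0f7e6d24)) e e))))))))))))
 (c z
 (c z e
 (c z e
 (c z e
 (c z e
 (c z e
 (c z e
 (c (a (nat_lit 0xa0d7417f5f53565)) e
 (c z e
 (c z e
 (c (a (nat_lit 0x11f1514a2e8f0e06)) e e))))))))))
 (c z
 (c z e
 (c z e
 (c z e
 (c z e
 (c z e
 (c z e
 (c z e
 (c z e
 (c z e
 (c (a (nat_lit 0x126d8a63e3a00006)) e e))))))))))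
 (c (a (nat_lit 0x404040405263))
 (c z e
 (c (a (nat_lit 0x144894ff8be3be4)) e
 (c z e
 (c z e
 (c z e
 (c (a (nat_lit 0x17b8be1b33aa8545)) e e))))))
 (c (a (nat_lit 0x20201f8f42))
 (c (a (nat_lit 0xc1ca91d3690f83)) e
 (c (a (nat_lit 0x109b1d1c9e5a784)) e
 (c z e
 (c z e
 (c (a (nat_lit 0x10f6ba94d63231e5)) e e)))))
 (c (a (nat_lit 0x444445a55ae23)) e
 (c (a (nat_lit 0x20219eba62904)) e
 (c z e
 (c (a (nat_lit 0x6c783c99af8c5))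
 (c (a (nat_lit 0xd4ded1286c00006)) e e)
 (c z e
 (c (a (nat_lit 0x2aadd1aeaaaa5)) e
 (c (a (nat_lit 0x92f0c16160a5)) e
 (c (a (nat_lit 0x129040202040a5)) e
 (c (a (nat_lit 0x11a1818181e045)) e
 (c z e
 (c (a (nat_lit 0x18399c02c24241)) e
 (c (a (nat_lit 0x1359a041016001)) e
 (c (a (nat_lit 0x1aa14182212121)) e e))))))))))))))))))))))) Tr.c Tr.e (nat_lit 0) C.cx C.cy
noncomputable def C791 : Tr := beta% (fun (c : Nat → Tr → Tr → Tr) (e : Tr) (z : Nat) (a b : Nat → Nat) =>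
 (c (a (nat_lit 0x2020202021))
 (c (a (nat_lit 0x2828295f132a4))
 (c (a (nat_lit 0xa2b276d329e9604)) e
 (c z e
 (c z e
 (c (a (nat_lit 0x870f55eacf6afa4)) e
 (c (a (nat_lit 0xbacf5560b2e90c5)) e
 (c z e
 (c z e
 (c (a (nat_lit 0xc2b4aea44be7386)) e e))))))))
 (c (a (nat_lit 0x5457bb6f89265)) e
 (c z e
 (c z e
 (c z e
 (c (a (nat_lit 0xd50f4abc02025))
 (c (a (nat_lit 0x142eb85c31b9a946)) e e)
 (c z e
 (c (a (nat_lit 0x104de80ac60c26)) e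
 (c z e
 (c (a (nat_lit 0x62b0f594cace5)) e
 (c (b (nat_lit 0x1ff50c6182f9e2)) e
 (c (a (nat_lit 0xfeb4566726d03)) e
 (c (a (nat_lit 0x1084a63f5478c2)) e
 (c z e
 (c (a (nat_lit 0x7e386857163)) e e)))))))))))))))
 (c (a (nat_lit 0x2020202021))
 (c (a (nat_lit 0xc0a4b08b3c5))
 (c (a (nat_lit 0xe9272d4329194e5)) e
 (c (a (nat_lit 0x9391673632afa04)) e
 (c (b (nat_lit 0x2a549ffe0a351e6)) e
 (c z e
 (c (a (nat_lit 0x448856752732f46)) e e)))))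
 (c (a (nat_lit 0xc6a0b8a74e925))
 (c (a (nat_lit 0x447a641012510e6)) e
 (c z e
 (c z e
 (c (b (nat_lit 0x1fe1e20891aac067)) e
 (c (a (nat_lit 0x54810b6cf29a7e7)) e e)))))
 (c z e
 (c z e
 (c (a (nat_lit 0xd72e9206049e5))
 (c (a (nat_lit 0x7672dc951c5c007)) e
 (c (a (nat_lit 0x139b96b3c0000007)) e e))
 (c (a (nat_lit 0x11ed44a4ab5165))
 (c (a (nat_lit 0x1fde2ea000000006)) e e)
 (c z e
 (c z e
 (c (b (nat_lit 0x1fff34e305d3c2)) e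
 (c (a (nat_lit 0x1ffab1927cdd63)) e
 (c (a (nat_lit 0x19698bde3f3e22)) e
 (c (a (nat_lit 0x142d28dcdad03)) e
 (c (a (nat_lit 0x1562a1a46001)) e
 (c (a (nat_lit 0x1cd373104bd462)) e e))))))))))))))
 (c (a (nat_lit 0xa0a0a0a0a1))
 (c (a (nat_lit 0xa4d324f590203))
 (c (a (nat_lit 0x8654201e263f805)) e
 (c (a (nat_lit 0x7224243e81d0a85)) e
 (c z e
 (c (a (nat_lit 0x60c0f427e04226)) e
 (c (a (nat_lit 0x5075585ece24006)) e e)))))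
 (c (a (nat_lit 0xdd5b274058564))
 (c (a (nat_lit 0x9c7496e3234adc5)) e e)
 (c z e
 (c (a (nat_lit 0x1a0c6161206183))
 (c (a (nat_lit 0xed1456903a00006)) e
 (c (a (nat_lit 0x1073070000000006)) e e))
 (c (a (nat_lit 0x13195ace2d4503))
 (c (a (nat_lit 0x1c23400000000005)) e e)
 (c (b (nat_lit 0x1ffffff6650143)) e
 (c (a (nat_lit 0x1064b29283425)) e
 (c (a (nat_lit 0x147896363689e5)) e
 (c (a (nat_lit 0xc41c1dc715643)) e
 (c (a (nat_lit 0xe0db90757703)) e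
 (c (b (nat_lit 0x1ff62b2ff1bf63)) e
 (c (a (nat_lit 0xfc5098b58e8c3)) e e))))))))))))
 (c (a (nat_lit 0x12121214141))
 (c (a (nat_lit 0x16b36c66c6a803))
 (c (a (nat_lit 0x5c6c88cf6f1c904)) e
 (c (a (nat_lit 0x28486d24ea70926)) e e))
 (c (a (nat_lit 0x1fb9c362826022))
 (c (a (nat_lit 0x34bb3f0e768e4a6)) e e)
 (c z e
 (c (a (nat_lit 0x92bdd9641e102)) e
 (c (a (nat_lit 0x10b6d1c8484144)) e
 (c z e
 (c z e
 (c (a (nat_lit 0x6065e92dbdcc3)) e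
 (c (b (nat_lit 0x1ff72cb46cc603)) e
 (c (a (nat_lit 0x15a06e90c54562)) e e))))))))))
 (c (a (nat_lit 0x20200001))
 (c (a (nat_lit 0x1fc8e7c2380021))
 (c (a (nat_lit 0x187cfaeaf0450004)) e e)
 (c (a (nat_lit 0x117373d3ae6ca5)) e
 (c (a (nat_lit 0xbf5d2a9223443)) e
 (c (a (nat_lit 0x1477f6362e2925)) e
 (c z e
 (c (a (nat_lit 0x1223bcfefd643)) e
 (c (b (nat_lit 0x1ff58aaca90103)) e
 (c (a (nat_lit 0x18a2a7f3c30542)) e
 (c z e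
 (c (a (nat_lit 0x25a224521a001)) e
 (c (a (nat_lit 0x1c68a3c0000001)) e e)))))))))))
 (c (a (nat_lit 0x20200001))
 (c (a (nat_lit 0xd8bce006092a3)) e
 (c (a (nat_lit 0xe5147e87148c4)) e
 (c z e
 (c (a (nat_lit 0xf737755553466)) e
 (c (b (nat_lit 0x1fe4206060b005)) e
 (c (a (nat_lit 0x1000a162814083)) e e))))))
 (c (a (nat_lit 0x20200001))
 (c (a (nat_lit 0x1f75b97c44c202)) e
 (c (a (nat_lit 0xf4ed4cf0e8ec5)) e
 (c (a (nat_lit 0x24862c20133e5)) e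
 (c (a (nat_lit 0x5eacc6c8c70e6)) e
 (c z e
 (c (a (nat_lit 0x5a626b030eb65)) e
 (c (a (nat_lit 0x627d9bb89e004)) e
 (c (a (nat_lit 0xd1eec00000004)) e
 (c (a (nat_lit 0x12e00000000004)) e e)))))))))
 (c (a (nat_lit 0x20200001))
 (c (a (nat_lit 0x664160e15b04)) e
 (c z e
 (c z e
 (c (a (nat_lit 0xf8fafd19292a5)) e
 (c (a (nat_lit 0xeef50d1d1eb25)) e
 (c (a (nat_lit 0x10f6a520a00003)) e
 (c (a (nat_lit 0x1aa4a000000003)) e e)))))))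
 (c (a (nat_lit 0x6060608081))
 (c z e
 (c (a (nat_lit 0x1454951534f5e5)) e
 (c (a (nat_lit 0x13f4545454b1a6)) e
 (c (a (nat_lit 0x14d46040202003)) e
 (c (a (nat_lit 0x14404020000003)) e
 (c (a (nat_lit 0xe00000000001)) e e))))))
 (c (a (nat_lit 0x4040404041))
 (c (a (nat_lit 0x10509070706e06)) e
 (c (a (nat_lit 0x1776e282a3e2a3)) e
 (c (a (nat_lit 0x15812141400003)) e
 (c (a (nat_lit 0x4000000001)) e e))))
 (c (a (nat_lit 0x8080808081)) e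
 (c (a (nat_lit 0x6060606061)) e
 (c (a (nat_lit 0x4040404be1)) e
 (c (a (nat_lit 0x202022b163)) e
 (c (a (nat_lit 0x22714543)) e
 (c (a (nat_lit 0x170242423)) e
 (c (a (nat_lit 0x1b43636282)) e
 (c (a (nat_lit 0x186080a09142)) e
 (c (a (nat_lit 0x585c5566362)) e
 (c (a (nat_lit 0xcecb14c4c24)) e
 (c (a (nat_lit 0x1f440602d82)) e
 (c (a (nat_lit 0x13e0202d4662)) e e))))))))))))))))))))))) Tr.c Tr.e (nat_lit 0) C.cx C.cy
noncomputable def C792 : Tr := beta% (fun (c : Nat → Tr → Tr → Tr) (e : Tr) (z : Nat) (a b : Nat → Nat) =>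
 (c (a (nat_lit 0x2020202021))
 (c z
 (c (a (nat_lit 0xded541e10602024))
 (c z e
 (c z e
 (c z e
 (c z e
 (c z e
 (c z e
 (c (a (nat_lit 0x6ad0c6b0a8b193c85)) e e)))))))
 (c (a (nat_lit 0x11f2ac6a60202a26))
 (c (a (nat_lit 0x16b4d79ad6d67514c6)) e
 (c z e
 (c z e
 (c z e
 (c (a (nat_lit 0x3498887a1922cac27)) e
 (c z e
 (c z e
 (c (a (nat_lit 0x827d088ca2fe5c008)) e e))))))))
 (c (a (nat_lit 0x89bcc00204681c5))
 (c z e
 (c z e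
 (c (a (nat_lit 0x11cd6d2b073f98b0a7)) e e)))
 (c (a (nat_lit 0x1f8f4868c427a365))
 (c (a (nat_lit 0x1628a86be72b70d6c6)) e
 (c z e
 (c z e
 (c (a (nat_lit 0x745a53050ac4f8a47)) e e))))
 (c z e
 (c (a (nat_lit 0x1434aac56943c144)) e
 (c (a (nat_lit 0x19cfc89291903924))
 (c z e
 (c (a (nat_lit 0x18b76fe8c000000006)) e e))
 (c (a (nat_lit 0x7416c8d4e951044)) e
 (c (a (nat_lit 0x32ced6db1aaa985)) e
 (c (a (nat_lit 0x16d7355d75717045)) e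
 (c (a (nat_lit 0xae8f02fc66526a6)) e
 (c z e
 (c (a (nat_lit 0xb6cebe8a425b205)) e
 (c (a (nat_lit 0x1b37082107904f03)) e
 (c (a (nat_lit 0x15c6a0c66ec6c003)) e e)))))))))))))))
 (c z
 (c (a (nat_lit 0xdaf6de060739325))
 (c z e
 (c z e
 (c z e
 (c (a (nat_lit 0x18fa72506adca92d27)) e
 (c (a (nat_lit 0x14cfed6bd8f0ce8967)) e
 (c z e
 (c z e
 (c (a (nat_lit 0xb79a38ba887000007)) e e))))))))
 (c z e
 (c z e
 (c (a (nat_lit 0xe7356947737e0c4))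
 (c (a (nat_lit 0x94b2a1047092b4047)) e
 (c (a (nat_lit 0x8ba2b8688ee81a087)) e e))
 (c (a (nat_lit 0x1069c3f48d6518c4))
 (c (a (nat_lit 0x1abd73302c096bcb66)) e e)
 (c z e
 (c z e
 (c (a (nat_lit 0xa8e6d73ee6b0826)) e
 (c (a (nat_lit 0x1595ba5713cfee66)) e
 (c z e
 (c z e
 (c (a (nat_lit 0x526ea2c2aefb426)) e
 (c (a (nat_lit 0x98602a06433a6a5)) e e)))))))))))))
 (c z
 (c z e
 (c z e
 (c z e
 (c z e
 (c z e
 (c z e
 (c z e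
 (c (a (nat_lit 0xbeaed172cecc506)) e
 (c z e
 (c z e
 (c (a (nat_lit 0xcabb06d538d13c7)) e e)))))))))))
 (c z
 (c (a (nat_lit 0x484628412132865))
 (c z e
 (c (a (nat_lit 0x64be6d44889462408)) e
 (c z e
 (c (a (nat_lit 0x574e8300e06600007)) e
 (c (a (nat_lit 0x1a32186e0000000006)) e e)))))
 (c z e
 (c z e
 (c (a (nat_lit 0x655f9a568f69024)) e
 (c (a (nat_lit 0x46dc1c4a7c79505)) e
 (c (a (nat_lit 0xecb4d4f6bf14e86)) e
 (c z e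
 (c (a (nat_lit 0x12b2ba9f74136c46)) e
 (c z e
 (c z e
 (c (a (nat_lit 0x1702a10181200005)) e e)))))))))))
 (c (a (nat_lit 0x202020203625))
 (c (b (nat_lit 0xa1017fe0a0d2c8))
 (c (a (nat_lit 0x14cb303128aa110ac6)) e
 (c (a (nat_lit 0x8a657a4a3f0000006)) e e))
 (c (b (nat_lit 0x815fe060d36308)) e
 (c z e
 (c z e
 (c (a (nat_lit 0x4c4f5636525e528)) e
 (c z e
 (c z e
 (c z e
 (c (a (nat_lit 0x6c4a8498bf5a007)) e
 (c (a (nat_lit 0x120285c260000005)) e e))))))))))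
 (c (a (nat_lit 0x2020203ee264))
 (c (a (nat_lit 0x1e120e2a1dc9b45)) e
 (c z e
 (c z e
 (c (b (nat_lit 0x1fffe873f8591525)) e
 (c (a (nat_lit 0x1e754bd34890d66)) e
 (c z e
 (c z e
 (c (b (nat_lit 0x587bfea17a00007)) e
 (c (a (nat_lit 0x1eb1ec0000000005)) e e)))))))))
 (c (a (nat_lit 0x3a3a3bdd8aee3))
 (c (a (nat_lit 0x343470422504e25)) e
 (c z e
 (c z e
 (c z e
 (c (a (nat_lit 0xdaf332f705f0e06)) e e)))))
 (c (a (nat_lit 0x5e61072ab2624))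
 (c z e
 (c z e
 (c z e
 (c (a (nat_lit 0xa09a872b1ca8607)) e e))))
 (c (b (nat_lit 0x65841fe0b406))
 (c (a (nat_lit 0x12305e9ab31a887)) e e)
 (c z e
 (c z e
 (c z e
 (c (a (nat_lit 0xe59742e6e84e6)) e
 (c (a (nat_lit 0x120c66c6e563c6)) e
 (c (a (nat_lit 0x11e686a3c06085)) e
 (c (a (nat_lit 0x1e3e734666a803)) e
 (c (a (nat_lit 0x18ad60c1024503)) e
 (c (a (nat_lit 0x1a204183098002)) e
 (c z e
 (c (a (nat_lit 0x381f44283c101)) e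
 (c (a (nat_lit 0x113a060c00001)) e
 (c (a (nat_lit 0x11e02000000001)) e e))))))))))))))))))))))
 (c (a (nat_lit 0x4040404041))
 (c z
 (c (a (nat_lit 0x87120cad00f3583))
 (c z e
 (c z e
 (c (a (nat_lit 0x15346fc60b300b0586)) e
 (c (a (nat_lit 0x1510c86adce9080806)) e
 (c z e
 (c z e
 (c (a (nat_lit 0xbd9492da94c04a006)) e e)))))))
 (c (a (nat_lit 0xe07ab70ef323045))
 (c (a (nat_lit 0xecd714768ea4a87a7)) e e)
 (c z e
 (c (a (nat_lit 0x5aa296c8d8cdca5))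
 (c (a (nat_lit 0x6cfb0852208e2a607)) e
 (c (a (nat_lit 0x138980630722a14087)) e e))
 (c (a (nat_lit 0x483052a96b943a4))
 (c (a (nat_lit 0x1aa30c04042404e006)) e e)
 (c (a (nat_lit 0x5a729d030480565)) e
 (c (b (nat_lit 0x164bfffe3c29765)) e
 (c (a (nat_lit 0xa0dcda96136f4a5)) e
 (c (a (nat_lit 0x120b4ba4f8d77765)) e
 (c (b (nat_lit 0xcdffff3d7fc53a5)) e
 (c (a (nat_lit 0x464b371da526b26)) e
 (c (a (nat_lit 0x4911318722b90e6)) e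
 (c (a (nat_lit 0x143293afeaa80006)) e e)))))))))))))
 (c z
 (c (a (nat_lit 0x62c8e627a6d4a5))
 (c z e
 (c z e
 (c z e
 (c z e
 (c (a (nat_lit 0x1c3b2d2b2865850007)) e e)))))
 (c z e
 (c z e
 (c z e
 (c (a (nat_lit 0x2a4f65029e19865)) e
 (c z e
 (c z e
 (c z e
 (c (a (nat_lit 0x5eaad09edf1e647)) e e)))))))))
 (c (a (nat_lit 0x202020203145)) e
 (c (a (nat_lit 0x2020203cefa5))
 (c (a (nat_lit 0x4e6860f89a7d8c6))
 (c (a (nat_lit 0x34479a92ed9eae006)) e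
 (c (a (nat_lit 0x35347e94b60000007)) e e))
 (c (a (nat_lit 0x2836e65ca1b2ee6)) e
 (c z e
 (c z e
 (c (a (nat_lit 0x6643d6933afcc26)) e
 (c (a (nat_lit 0x4706a8c8a4a09c7)) e
 (c z e
 (c z e
 (c (a (nat_lit 0xc1650dcf4200006)) e
 (c (a (nat_lit 0x11c4e30000000005)) e e))))))))))
 (c (a (nat_lit 0x40405aaf0c85))
 (c (a (nat_lit 0xd6e6d92ded83504)) e
 (c z e
 (c z e
 (c (a (nat_lit 0x2e6c44b09f0b385)) e
 (c (a (nat_lit 0x58749694bac11a7)) e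
 (c z e
 (c (a (nat_lit 0x9d0b1950810c007)) e
 (c (a (nat_lit 0x128e19d440000005)) e
 (c (a (nat_lit 0x1736200000000004)) e e)))))))))
 (c (a (nat_lit 0x3a3ab3270adc5))
 (c (a (nat_lit 0x11d1db8d52068264)) e
 (c z e
 (c z e
 (c z e
 (c (a (nat_lit 0x8eaeaa6f87668c7)) e e)))))
 (c z e
 (c (a (nat_lit 0xe126fcee1a2a5))
 (c (a (nat_lit 0x8c7d32e34b68046)) e
 (c (a (nat_lit 0x9d392fbf76781e7)) e e))
 (c (a (nat_lit 0xfead1c46a22e5))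
 (c (a (nat_lit 0xdac73ee29e1e007)) e e)
 (c (b (nat_lit 0x5fffff1e7e7e5)) e
 (c (a (nat_lit 0xc70360c2c33e5)) e
 (c (a (nat_lit 0x163c32564daf05)) e
 (c (a (nat_lit 0x13e027f1cfd244)) e
 (c (a (nat_lit 0xa7edaffd883)) e
 (c (a (nat_lit 0x136fb4ee6983)) e
 (c (a (nat_lit 0x1b1715561132e3)) e
 (c (a (nat_lit 0x1593938fb17303)) e
 (c (a (nat_lit 0x1a19f053d6f9a2)) e
 (c (a (nat_lit 0x15268db42d2001)) e e)))))))))))))))))))
 (c (a (nat_lit 0x2040404041))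
 (c (a (nat_lit 0x2020201304))
 (c (a (nat_lit 0xe984e4e4f44363))
 (c z e
 (c (a (nat_lit 0x84975038fea8c6146)) e
 (c (a (nat_lit 0x4f386e46567642026)) e
 (c (a (nat_lit 0x12556c0b464cb12646)) e
 (c (a (nat_lit 0x1d6cac8565a7200006)) e e)))))
 (c z e
 (c z e
 (c z e
 (c (a (nat_lit 0x5d16c5a300a16e5)) e
 (c z e
 (c (b (nat_lit 0x375775fec65d265)) e
 (c z e
 (c (a (nat_lit 0xa27cb8b54a609a6)) e e)))))))))
 (c (a (nat_lit 0x202020322c85)) e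
 (c (a (nat_lit 0x202030ca4aa6)) e
 (c (a (nat_lit 0x3c3de4f4dade5))
 (c z e
 (c z e
 (c z e
 (c z e
 (c z e
 (c (b (nat_lit 0x13f9fffffa79f646)) e e))))))
 (c (a (nat_lit 0x3104e8dad0905))
 (c (b (nat_lit 0xddffe1a6b938b23)) e
 (c z e
 (c z e
 (c z e
 (c (a (nat_lit 0x785e68a30878008)) e e)))))
 (c z e
 (c z e
 (c (a (nat_lit 0xddeb7eac04004)) e
 (c (a (nat_lit 0x12f9116d2d8a25)) e
 (c z e
 (c (a (nat_lit 0x107072ee2c4b86)) e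
 (c (a (nat_lit 0xc6e18f28e6e64)) e
 (c (a (nat_lit 0xebc5618199c4)) e
 (c (a (nat_lit 0x10cd2babd7ca85)) e
 (c (b (nat_lit 0x34020387fe904)) e
 (c z e
 (c (b (nat_lit 0x27adfead24704)) e
 (c (a (nat_lit 0x1e830f2b600004)) e e))))))))))))))))))
 C791)))) Tr.c Tr.e (nat_lit 0) C.cx C.cy
noncomputable def C793 : Tr := beta% (fun (c : Nat → Tr → Tr → Tr) (e : Tr) (z : Nat) (a b : Nat → Nat) =>
 (c z
 (c (a (nat_lit 0x2020202035c5c3))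
 (c (a (nat_lit 0x3b20fec0c2d341903)) e
 (c z e
 (c z e
 (c z e
 (c z e
 (c z e
 (c z e
 (c z e
 (c z e
 (c z e
 (c z e
 (c (a (nat_lit 0x323c2eb27857a20a5)) e
 (c (a (nat_lit 0x10ceb1705277155bc5)) e e)))))))))))))
 (c (a (nat_lit 0x202020399691c4))
 (c z e
 (c z e
 (c z e
 (c z e
 (c z e
 (c z e
 (c z e
 (c (a (nat_lit 0x13cacb14d63c3e4344)) e
 (c z e
 (c (a (nat_lit 0x3060a85e92ab14d85)) e e))))))))))
 (c (a (nat_lit 0x60607d57d6a045))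
 (c z e
 (c z e
 (c z e
 (c z e
 (c z e
 (c z e
 (c (a (nat_lit 0xf125573a82c8a9a65)) e
 (c (a (nat_lit 0x10d391f74e77b87d05)) e e))))))))
 (c (a (nat_lit 0x2a2bf5e1d28e7c5))
 (c z e
 (c (a (nat_lit 0xdb07997b394f83507)) e
 (c z e
 (c z e
 (c (a (nat_lit 0x8b6ddd5aab3970ba5)) e
 (c (a (nat_lit 0xe30cbc8cb2470ce06)) e
 (c (a (nat_lit 0xe66c7a48a0a723726)) e
 (c z e
 (c z e
 (c (a (nat_lit 0x1a489e5f2aee7e007)) e e))))))))))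
 (c (a (nat_lit 0x1d872d24687e065))
 (c z e
 (c z e
 (c z e
 (c z e
 (c (a (nat_lit 0xb69a8096671a87ce7)) e
 (c z e
 (c z e
 (c z e
 (c (a (nat_lit 0x32b04b1cb0ba00007)) e e)))))))))
 (c z e
 (c z e
 (c (a (nat_lit 0x803debccb0b27c5)) e
 (c (a (nat_lit 0x17c7868e90668c5))
 (c (a (nat_lit 0x30ba95e05e883a4a6)) e e)
 (c z e
 (c z e
 (c z e
 (c (a (nat_lit 0xacd1050504a2066)) e
 (c z e
 (c z e
 (c z e
 (c (a (nat_lit 0x1c35acf16f4ef904)) e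
 (c (a (nat_lit 0x102026e2e256f203)) e e))))))))))))))))))
 (c z
 (c (a (nat_lit 0x8e8e8f1b4932005)) e
 (c (a (nat_lit 0x3c3d678d78036e6)) e e))
 (c z
 (c z e
 (c z e
 (c z e
 (c z e
 (c (a (nat_lit 0x13e52c060a04266)) e e)))))
 (c z
 (c z e
 (c (a (nat_lit 0x1bd53430c12128e6))
 (c (a (nat_lit 0xd79fa14977991d3a7)) e e)
 (c z e
 (c z e
 (c z e
 (c (a (nat_lit 0x4660724e7a576a6))
 (c (a (nat_lit 0xee6d0a806e7c4a007)) e e)
 (c z e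
 (c z e
 (c z e
 (c (a (nat_lit 0x4ed1d684acbc466)) e
 (c z e
 (c z e
 (c z e
 (c (a (nat_lit 0xff3cc11d48c6705)) e
 (c (a (nat_lit 0x1189f0d285600005)) e e)))))))))))))))
 (c z
 (c (a (nat_lit 0x8372ca0608a49a5))
 (c z e
 (c z e
 (c z e
 (c z e
 (c (a (nat_lit 0x9cd89dd5971544947)) e e)))))
 (c z e
 (c z e
 (c (a (nat_lit 0x175a674d5eec9a43)) e
 (c (a (nat_lit 0x402a404e2e41546))
 (c (a (nat_lit 0x10b66ba806c5600007)) e e)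
 (c z e
 (c (b (nat_lit 0x3627fe4f36aaf66)) e
 (c z e
 (c (b (nat_lit 0x1ffff86f32ec0a26)) e
 (c z e
 (c z e
 (c z e
 (c (a (nat_lit 0x108b8d324fca6006)) e
 (c (a (nat_lit 0xd50baeb00000005)) e e))))))))))))))
 (c z
 (c z e
 (c z e
 (c z e
 (c z e
 (c z e
 (c z e
 (c z e
 (c z e
 (c z e
 (c z e
 (c z e
 (c (a (nat_lit 0xd50af6d4b800006)) e e))))))))))))
 (c z
 (c z e
 (c z e
 (c z e
 (c z e
 (c (a (nat_lit 0xb685033f2f8ef25)) e e)))))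
 (c z
 (c z e
 (c (a (nat_lit 0x662846cf397bd05)) e
 (c z e
 (c z e
 (c z e
 (c (a (nat_lit 0x9cf2fb1edea8927)) e e))))))
 (c (a (nat_lit 0x606060607442))
 (c (a (nat_lit 0x2a50b7376b37644)) e
 (c z e
 (c z e
 (c z e
 (c (a (nat_lit 0xc89d75a10566786)) e e)))))
 (c (a (nat_lit 0x404040487283)) e
 (c (a (nat_lit 0x202030e78345)) e
 (c (b (nat_lit 0x2030e7241fe5)) e
 (c (a (nat_lit 0x40707a4805026))
 (c (a (nat_lit 0x8f0ec5478488007)) e e)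
 (c z e
 (c z e
 (c z e
 (c (a (nat_lit 0x1e5d08688425)) e
 (c (a (nat_lit 0x1b39c525210045)) e
 (c z e
 (c z e
 (c (a (nat_lit 0x12e38040202023)) e
 (c (a (nat_lit 0xac1e1c1a1a001)) e
 (c (a (nat_lit 0x208160606001)) e e)))))))))))))))))))))))) Tr.c Tr.e (nat_lit 0) C.cx C.cy
noncomputable def C794 : Tr := beta% (fun (c : Nat → Tr → Tr → Tr) (e : Tr) (z : Nat) (a b : Nat → Nat) =>
 (c z
 (c (a (nat_lit 0x4242b6b49403125))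
 (c z e
 (c (a (nat_lit 0xf561774f7b795d146)) e
 (c z e
 (c (a (nat_lit 0xda1e488678c72e865)) e
 (c z e
 (c (a (nat_lit 0x7a8c968ca116ca826)) e
 (c z e
 (c z e
 (c (a (nat_lit 0x1e2e2c64409332747)) e
 (c (a (nat_lit 0x826ab4ac61ff9cac6)) e
 (c (a (nat_lit 0x9696a6f3dae2d4006)) e e)))))))))))
 (c (a (nat_lit 0x64d104f078cc386))
 (c (a (nat_lit 0x1596f95636b65dfa66)) e
 (c z e
 (c z e
 (c (a (nat_lit 0x76677674767e86708)) e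
 (c z e
 (c z e
 (c (a (nat_lit 0x1e22482a3c8f362c7)) e
 (c (a (nat_lit 0x1c1e2c4c6d4024108)) e
 (c (a (nat_lit 0x4058804512a450448)) e e)))))))))
 (c z e
 (c z e
 (c (a (nat_lit 0x13b77edc26a6ca45))
 (c (a (nat_lit 0x64d6e29c80c322f07)) e
 (c (a (nat_lit 0x11d7336c927bf3e887)) e
 (c z e
 (c z e
 (c (a (nat_lit 0x52b1007e274c6c007)) e e)))))
 (c (a (nat_lit 0xa518ccc2c468765))
 (c (a (nat_lit 0x112e8707ee0c0a65c6)) e
 (c z e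
 (c z e
 (c (a (nat_lit 0xc1185268d03600007)) e
 (c (a (nat_lit 0x108823254000000007)) e e)))))
 (c (a (nat_lit 0x15caab2b82610f84))
 (c z e
 (c (a (nat_lit 0x1223f0c829c96ac006)) e e))
 (c z e
 (c (a (nat_lit 0xbcd030657954664)) e
 (c (a (nat_lit 0x92687d37245c545)) e
 (c z e
 (c z e
 (c (a (nat_lit 0x1292a9ca28818e85)) e
 (c (a (nat_lit 0x1c8a8928ea290904)) e e))))))))))))))
 (c z
 (c (a (nat_lit 0xfd4556ee124a325))
 (c (a (nat_lit 0xb326a0c8b1fdd1e65)) e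
 (c z e
 (c z e
 (c (a (nat_lit 0xa6bf692d4118b0f67)) e
 (c (a (nat_lit 0xe559476b449d5a6c6)) e
 (c (a (nat_lit 0x110f0eeb46ed6e7766)) e
 (c (a (nat_lit 0xe8e6c6614db70e5c6)) e
 (c z e
 (c (a (nat_lit 0xbcbccef14c8c3e007)) e e)))))))))
 (c (a (nat_lit 0x1bd7586566204045))
 (c z e
 (c z e
 (c z e
 (c (a (nat_lit 0x102cf1974b2d52da67)) e
 (c (a (nat_lit 0xa0bce4ae81a9255c7)) e e)))))
 (c z e
 (c (a (nat_lit 0x266e7e0806a7045))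
 (c (a (nat_lit 0x7ec0a8429d40943c7)) e
 (c (a (nat_lit 0x107247b1fdd60c0727)) e
 (c z e
 (c z e
 (c (a (nat_lit 0xc7813ceb0ca400006)) e
 (c (a (nat_lit 0x107430090000000007)) e e))))))
 (c (a (nat_lit 0x41484748ecbbca3))
 (c (a (nat_lit 0xa03918bba6a09c306)) e
 (c z e
 (c (a (nat_lit 0x10369a2708aac50006)) e
 (c (a (nat_lit 0x16f9c9048580000006)) e
 (c (a (nat_lit 0x15ebe3a00000000007)) e e)))))
 (c (b (nat_lit 0x1284bff388378f03)) e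
 (c z e
 (c (a (nat_lit 0x787c6ca4a33d045)) e
 (c (a (nat_lit 0xa28cbee150d92c5)) e
 (c (b (nat_lit 0xb0e1ff0284c8b65)) e
 (c (b (nat_lit 0x1ffff6ef14126125)) e
 (c (a (nat_lit 0x74cafb4b3c96946)) e
 (c (a (nat_lit 0x1ece8f5aeeef3484)) e
 (c (a (nat_lit 0x767d367c88deb64)) e
 (c (a (nat_lit 0xb168bab70e74004)) e
 (c (a (nat_lit 0x190e0de9c0000004)) e e))))))))))))))))
 (c z
 (c (a (nat_lit 0x1279896440c0ce24))
 (c z e
 (c (a (nat_lit 0x4a9a7a68c09ec5267)) e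
 (c z e
 (c z e
 (c (a (nat_lit 0x74a68a82fd38f4867)) e e)))))
 (c z e
 (c z e
 (c (a (nat_lit 0x167b1d7b74569464)) e
 (c (a (nat_lit 0x129676246887f963))
 (c (a (nat_lit 0x59efa0d06aa848006)) e e)
 (c (a (nat_lit 0x241e0412042d666)) e
 (c z e
 (c z e
 (c (a (nat_lit 0x3c3aa7d4aaecf86)) e
 (c z e
 (c z e
 (c z e
 (c (a (nat_lit 0x7f28b6b0e16a7a5)) e
 (c (a (nat_lit 0x1a12f3558f000005)) e e))))))))))))))
 (c z
 (c (a (nat_lit 0xfeb8768e45d6704))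
 (c z e
 (c (a (nat_lit 0xaac50f2d20bb1d587)) e
 (c z e
 (c z e
 (c (a (nat_lit 0x85a4d9a8c12034006)) e e)))))
 (c z e
 (c z e
 (c (a (nat_lit 0x14ec830a2aa89be3)) e
 (c (a (nat_lit 0x36069aa40955dc3))
 (c (a (nat_lit 0xbf689000000000006)) e e)
 (c z e
 (c (a (nat_lit 0x646c36a8dcdd485)) e
 (c z e
 (c z e
 (c z e
 (c (a (nat_lit 0xa08ee89c98f1645)) e
 (c (a (nat_lit 0xc31cd0cf2cd0005)) e e))))))))))))
 (c z
 (c (b (nat_lit 0x106efff3094a1183))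
 (c (a (nat_lit 0xa944cb384668a2366)) e
 (c (a (nat_lit 0x1051f10201c3402287)) e
 (c (a (nat_lit 0x55e8688ebcb8a6006)) e e)))
 (c (a (nat_lit 0x784218381e717c4))
 (c (a (nat_lit 0x134a4341a0a18121a7)) e e)
 (c z e
 (c z e
 (c (a (nat_lit 0x94c898f4d6e1285)) e
 (c (a (nat_lit 0x803884b2e4e7065)) e
 (c z e
 (c z e
 (c (a (nat_lit 0x1b5cfd39d97adc25)) e e)))))))))
 (c z
 (c (a (nat_lit 0x6040c0836f7503)) e
 (c (a (nat_lit 0x222a284503898c4)) e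
 (c z e
 (c (a (nat_lit 0x454d7171bd5a44)) e
 (c (a (nat_lit 0x60a0a5158d944)) e
 (c (a (nat_lit 0xceef7daf58f30a5)) e
 (c (a (nat_lit 0x5cf5b143310cd05)) e
 (c (a (nat_lit 0x10b392f458d0d386)) e
 (c (a (nat_lit 0x17ea4ad94d0b0004)) e e)))))))))
 (c z
 (c (a (nat_lit 0x383842ed7371f83)) e
 (c (a (nat_lit 0xe1ec11f4593684)) e
 (c (a (nat_lit 0x1092e6e5d3b5284)) e
 (c z e
 (c (a (nat_lit 0xc6b4e95328bbdc5)) e
 (c (b (nat_lit 0x123e71fe5c33087)) e e))))))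
 (c (a (nat_lit 0x606060606741))
 (c z e
 (c z e
 (c z e
 (c (a (nat_lit 0x768acf03291ec46)) e
 (c z e
 (c (a (nat_lit 0xd4ced8a8dfd0006)) e
 (c (a (nat_lit 0x1adf7991a0000003)) e
 (c (a (nat_lit 0x1587c00000000003)) e e))))))))
 (c (a (nat_lit 0x2020203b8b03))
 (c (a (nat_lit 0x80651f534542da4)) e
 (c (a (nat_lit 0x242cee1031a5c6)) e
 (c z e
 (c (a (nat_lit 0x90728679804e887)) e
 (c (a (nat_lit 0xa6b8b499fe00006)) e
 (c (a (nat_lit 0x16b0464000000003)) e e))))))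
 (c (a (nat_lit 0x203aede043))
 (c (a (nat_lit 0x26a48ecb046a606)) e
 (c z e
 (c z e
 (c (a (nat_lit 0x80a669040000007)) e e))))
 (c (a (nat_lit 0xfafb43e0a6463))
 (c (a (nat_lit 0xdad3ddf2bf5c6c5)) e e)
 (c (a (nat_lit 0xb06d044002023)) e
 (c (a (nat_lit 0x28742107056c4)) e
 (c (a (nat_lit 0x1d4842649ed9a2)) e
 (c (a (nat_lit 0x64120fd79f9e2)) e
 (c (a (nat_lit 0x363d24ff007c3)) e
 (c (b (nat_lit 0x1ff48eaf602002)) e
 (c (a (nat_lit 0x1a53942485e2e2)) e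
 (c (a (nat_lit 0x17d7ef2ece4e83)) e
 (c (a (nat_lit 0x11a260e0c12302)) e
 (c (a (nat_lit 0x36040e1c52001)) e
 (c (a (nat_lit 0x9ca8b6ec14001)) e e))))))))))))))))))))))) Tr.c Tr.e (nat_lit 0) C.cx C.cy
noncomputable def C795 : Tr := beta% (fun (c : Nat → Tr → Tr → Tr) (e : Tr) (z : Nat) (a b : Nat → Nat) =>
 (c z
 (c z
 (c z e
 (c (a (nat_lit 0x112d51475354b41423)) e e))
 (c z
 (c (a (nat_lit 0x4e5e24aca28a8b105)) e
 (c z e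
 (c z e
 (c z e
 (c z e
 (c z e
 (c z e
 (c z e
 (c z e
 (c z e
 (c z e
 (c (a (nat_lit 0x18561335d611495524)) e
 (c (a (nat_lit 0xc4ccdec4744e7b7e5)) e
 (c z e
 (c (a (nat_lit 0x30303a404e6e5f4a7)) e e)))))))))))))))
 (c (a (nat_lit 0x2626262626273a1))
 (c (a (nat_lit 0x748fb1d1eef211a4)) e
 (c (a (nat_lit 0xdc9af0f2d91183585)) e e))
 (c (a (nat_lit 0x1a1a1a1a1aa50c2))
 (c z e
 (c (a (nat_lit 0xb4c0c8cf27111ec86)) e
 (c z e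
 (c z e
 (c (a (nat_lit 0x447c804e4235523a7)) e
 (c z e
 (c z e
 (c z e
 (c z e
 (c (a (nat_lit 0x5e746771415bb0785)) e
 (c (a (nat_lit 0x383a8c7a7692b93a6)) e
 (c (a (nat_lit 0x1c462e2e24d578467)) e
 (c (a (nat_lit 0x624a4c607b3400007)) e e)))))))))))))
 (c (a (nat_lit 0x2c2c2c2cfd2af04))
 (c z e
 (c z e
 (c z e
 (c (a (nat_lit 0xf0f932feff0eeb026)) e
 (c z e
 (c z e
 (c z e
 (c z e
 (c z e
 (c z e
 (c (a (nat_lit 0x586e6c5b12725e007)) e e)))))))))))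
 (c (a (nat_lit 0x262626f10cd8484))
 (c z e
 (c z e
 (c z e
 (c (a (nat_lit 0x2786429430345a966)) e
 (c (a (nat_lit 0x19656a672847c6a686)) e e)))))
 (c (a (nat_lit 0x4e4eed0ade64064))
 (c z e
 (c z e
 (c (a (nat_lit 0xd92b4130d687ad564)) e
 (c z e
 (c (a (nat_lit 0xbcbaccbcf278a9ec5)) e
 (c (a (nat_lit 0x88a6a6a0482fd8d05)) e
 (c (a (nat_lit 0x847e84b6129d16dc6)) e e)))))))
 (c (a (nat_lit 0x23a3f19a8f26903))
 (c z e
 (c z e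
 (c (a (nat_lit 0x82845e463a6c3d525)) e
 (c (a (nat_lit 0x363a4242283b0a1c6)) e
 (c (a (nat_lit 0x62666038112a325c6)) e e)))))
 (c (a (nat_lit 0xbe9d1e2647815a2))
 (c (a (nat_lit 0x707268669e568dc45)) e
 (c (a (nat_lit 0x949e82ae9cc592905)) e
 (c (a (nat_lit 0x5684c04485e0906c5)) e
 (c (a (nat_lit 0x587c3c5534307c726)) e e))))
 (c (a (nat_lit 0x10e9aa2edabdfe02)) e
 (c z e
 (c z e
 (c (a (nat_lit 0x3ce2fd02dd07543)) e
 (c (a (nat_lit 0x1717bd58da7abaa4)) e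
 (c (a (nat_lit 0xeaed313d89873a4)) e
 (c (a (nat_lit 0x10305277774a60e4)) e
 (c z e
 (c (a (nat_lit 0xebedea78782ada2)) e
 (c (a (nat_lit 0x115125e5028828a3)) e
 (c (a (nat_lit 0x10852421c76801c3)) e e))))))))))))))))))))
 (c z
 (c (a (nat_lit 0x20202020203503))
 (c (a (nat_lit 0x9e394730ecef7da64)) e
 (c z e
 (c z e
 (c z e
 (c (a (nat_lit 0x464a5a6a6c9253be6)) e
 (c z e
 (c z e
 (c z e
 (c z e
 (c (a (nat_lit 0x1c50482a8a2c5e66a4)) e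
 (c z e
 (c (a (nat_lit 0x28322838722c35486)) e
 (c (a (nat_lit 0x11f09298f251d9f1a5)) e e)))))))))))))
 (c (a (nat_lit 0x242424242527d03))
 (c z e
 (c z e
 (c z e
 (c z e
 (c z e
 (c z e
 (c z e
 (c z e
 (c z e
 (c (a (nat_lit 0x6062910ab4ae58fe5)) e e))))))))))
 (c (a (nat_lit 0x20202032714e85))
 (c z e
 (c z e
 (c z e
 (c z e
 (c z e
 (c z e
 (c z e
 (c (a (nat_lit 0x607094e94bf7188c5)) e e))))))))
 (c (a (nat_lit 0x202038b93742a5))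
 (c z e
 (c z e
 (c z e
 (c z e
 (c z e
 (c (a (nat_lit 0xef136f1ad8f88b006)) e
 (c (a (nat_lit 0x937070bc98e263a65)) e
 (c (a (nat_lit 0xa4362e8a6a80e59a6)) e e))))))))
 (c (a (nat_lit 0x2e31755d464a4e5))
 (c (a (nat_lit 0x546267768eb876a27)) e
 (c z e
 (c z e
 (c (a (nat_lit 0x1647ed084668ab6607)) e
 (c (a (nat_lit 0x972cb8aed06af8a46)) e
 (c z e
 (c z e
 (c z e
 (c (a (nat_lit 0xa6bd049f8d8ecc006)) e e)))))))))
 (c z e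
 (c (a (nat_lit 0xf0e8ea754ef4306))
 (c z e
 (c (a (nat_lit 0x7a7c99012d1b0dd27)) e e))
 (c z e
 (c (a (nat_lit 0x7619534ababada5)) e
 (c z e
 (c z e
 (c z e
 (c (a (nat_lit 0xb3176f4931582e5)) e
 (c z e
 (c z e
 (c z e
 (c (a (nat_lit 0x123b6e70ab2a8bc4)) e
 (c (a (nat_lit 0x11e4c6e0e0e1ea44)) e e))))))))))))))))))
 (c z
 (c (a (nat_lit 0x20202031f89723))
 (c z e
 (c z e
 (c z e
 (c z e
 (c z e
 (c z e
 (c z e
 (c z e
 (c (a (nat_lit 0xb3095a6eccde1bb04)) e e)))))))))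
 (c (a (nat_lit 0x78787b63754a005))
 (c z e
 (c z e
 (c z e
 (c z e
 (c z e
 (c z e
 (c z e
 (c (a (nat_lit 0xe73ab701911375dc5)) e
 (c z e
 (c z e
 (c (b (nat_lit 0x9c66979cdfffc4ea6)) e e)))))))))))
 (c (a (nat_lit 0x46470d8b706e065))
 (c z e
 (c z e
 (c z e
 (c z e
 (c (a (nat_lit 0x6870d9808e62c48c6)) e
 (c z e
 (c z e
 (c (a (nat_lit 0x823a2e24946360de7)) e e))))))))
 (c z e
 (c z e
 (c z e
 (c z e
 (c z e
 (c z e
 (c z e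
 (c z e
 (c z e
 (c z e
 (c (a (nat_lit 0x1dbf3dd3c9614065)) e e))))))))))))))
 C794)))) Tr.c Tr.e (nat_lit 0) C.cx C.cy
noncomputable def C796 : Tr := beta% (fun (c : Nat → Tr → Tr → Tr) (e : Tr) (z : Nat) (a b : Nat → Nat) =>
 (c (a (nat_lit 0xc0c0c0c0c1))
 (c (a (nat_lit 0x20202031eb64))
 (c (a (nat_lit 0xd8dcba94d305be4))
 (c (a (nat_lit 0x1368a4a5e304c2c4a6)) e
 (c (a (nat_lit 0x137294cbee6b6b6606)) e e))
 (c z e
 (c z e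
 (c (a (nat_lit 0x266a5c4e04a024)) e
 (c (a (nat_lit 0x88b6e6da96154a4)) e
 (c z e
 (c (a (nat_lit 0xa6e8f696c148de6)) e
 (c (a (nat_lit 0x465646746445927)) e e))))))))
 (c (a (nat_lit 0x20203db0b2c5))
 (c z e
 (c z e
 (c z e
 (c (a (nat_lit 0xe300cbd322f1a26)) e e))))
 (c (a (nat_lit 0x407f8c4c4745)) e
 (c (a (nat_lit 0x5912dd0ec7525))
 (c (a (nat_lit 0x13910e528d9ad005)) e
 (c (a (nat_lit 0x24203a3e685b947)) e
 (c z e
 (c z e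
 (c (a (nat_lit 0xaae473d8fe06006)) e e)))))
 (c (a (nat_lit 0x195835533bc664))
 (c (a (nat_lit 0x60a26163532f47)) e
 (c z e
 (c z e
 (c (a (nat_lit 0x42552d005400008)) e e))))
 (c z e
 (c (a (nat_lit 0x6ec1068c02645))
 (c (a (nat_lit 0x1131d588c5a00006)) e e)
 (c (a (nat_lit 0x1054cca40a4025)) e
 (c z e
 (c (a (nat_lit 0x1390b68eaf8ee6)) e
 (c (a (nat_lit 0x370d2d5f31484)) e
 (c (a (nat_lit 0x16d8b9597ab284)) e
 (c (a (nat_lit 0x1d5e9f1ff0efa3)) e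
 (c z e
 (c (a (nat_lit 0xeb0c240822423)) e
 (c (a (nat_lit 0x10c240c183a023)) e e))))))))))))))))
 (c (a (nat_lit 0x16161616161))
 (c (a (nat_lit 0x5a5bc37799604))
 (c z e
 (c z e
 (c (a (nat_lit 0xb107137c74f9de5)) e e)))
 (c (a (nat_lit 0x5b672f3515565))
 (c (a (nat_lit 0x8308f71238f90a5)) e
 (c z e
 (c z e
 (c (a (nat_lit 0x52626a60719a748)) e e))))
 (c z e
 (c z e
 (c (a (nat_lit 0xff515a9416065))
 (c (a (nat_lit 0x545bccd6baa24e7)) e e)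
 (c z e
 (c z e
 (c z e
 (c (a (nat_lit 0x525af292d283)) e
 (c (a (nat_lit 0x192810222e2c2)) e
 (c (a (nat_lit 0x1d74b555f5f783)) e
 (c z e
 (c (a (nat_lit 0x606220b083)) e
 (c (a (nat_lit 0xe2e30ae9e8803)) e e))))))))))))))
 (c (a (nat_lit 0x12121212121))
 (c (a (nat_lit 0x10ce6c2babc804))
 (c (a (nat_lit 0x1a9ab849020c68a3)) e
 (c (a (nat_lit 0x36441e0e1c49127)) e
 (c z e
 (c (a (nat_lit 0x56748a6fed399e6)) e
 (c (a (nat_lit 0x18382f32d5823c6)) e e)))))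
 (c (a (nat_lit 0x10f4169a2d0204))
 (c (a (nat_lit 0x4a2616607dee926)) e
 (c z e
 (c (b (nat_lit 0x23fff16a8c80a7)) e
 (c (a (nat_lit 0x3e3f4690e61a007)) e e))))
 (c z e
 (c (a (nat_lit 0x114c46a68069c5))
 (c (a (nat_lit 0x615bdd86c04c006)) e
 (c (a (nat_lit 0xfd9b84620000007)) e e))
 (c (a (nat_lit 0xe890988ea91c4))
 (c (a (nat_lit 0x1db864a000000006)) e e)
 (c z e
 (c z e
 (c (a (nat_lit 0x10b21111328625)) e
 (c (a (nat_lit 0x1580c4fd638101)) e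
 (c z e
 (c (a (nat_lit 0x53d6401a04641)) e
 (c (a (nat_lit 0x1ae320c124c6c1)) e e))))))))))))
 (c (a (nat_lit 0x12121212121))
 (c (a (nat_lit 0x13f4b4c92901a3))
 (c (a (nat_lit 0x24141a2b3cb4925)) e
 (c (a (nat_lit 0x341c2dc73eeace6)) e
 (c z e
 (c (a (nat_lit 0xadf13aceba00006)) e e))))
 (c (a (nat_lit 0x14af284923e1e4))
 (c (a (nat_lit 0x242310e092402a7)) e e)
 (c z e
 (c (a (nat_lit 0x64f3466e0a104))
 (c (a (nat_lit 0x1911200000000004)) e e)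
 (c (a (nat_lit 0x10beb9b292e004)) e
 (c z e
 (c (a (nat_lit 0x147656da894aa5)) e
 (c z e
 (c (a (nat_lit 0x4f2cb2376e23)) e
 (c (a (nat_lit 0xae2eef9494862)) e
 (c z e
 (c (a (nat_lit 0x5d060a0804002)) e
 (c (a (nat_lit 0x11026140000002)) e e)))))))))))))
 (c (a (nat_lit 0xa0a0a0a0a1))
 (c (a (nat_lit 0x1f3d7d61626081))
 (c (a (nat_lit 0x19a978c8544c2c5)) e e)
 (c z e
 (c z e
 (c (a (nat_lit 0x11908e4e236785)) e
 (c z e
 (c z e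
 (c (a (nat_lit 0x85a29dbd7341)) e
 (c (a (nat_lit 0xc4b93132665a3)) e
 (c z e
 (c (a (nat_lit 0x1090eccb2d0aa2)) e
 (c (a (nat_lit 0xfa8c623400001)) e e)))))))))))
 (c (a (nat_lit 0x2020202021))
 (c (a (nat_lit 0x10e38b42426644)) e
 (c (a (nat_lit 0x11da6eeec829a4)) e
 (c z e
 (c z e
 (c (b (nat_lit 0x1fe383840453c5)) e
 (c (a (nat_lit 0xd6dd111828323)) e
 (c z e
 (c (a (nat_lit 0x155690d2937102)) e
 (c (a (nat_lit 0xa030281c06001)) e e)))))))))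
 (c (a (nat_lit 0x6060606061))
 (c (a (nat_lit 0x10f050a684eb44)) e
 (c z e
 (c z e
 (c (a (nat_lit 0x36cb494547405)) e
 (c z e
 (c (a (nat_lit 0x4a5a646107144)) e
 (c (a (nat_lit 0x223e3991c2223)) e
 (c (a (nat_lit 0x8079725c00003)) e
 (c (a (nat_lit 0x13318000000003)) e e)))))))))
 (c (a (nat_lit 0x2c2c2c2c2c1))
 (c (a (nat_lit 0x2e200c0fb24)) e
 (c z e
 (c z e
 (c (a (nat_lit 0x10f0d130f2b3e5)) e
 (c (a (nat_lit 0x1839389bbe54a4)) e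
 (c (a (nat_lit 0x1a792a2c48c003)) e
 (c (a (nat_lit 0x13c4e3a0000003)) e
 (c (a (nat_lit 0x5600000000001)) e e))))))))
 (c (a (nat_lit 0x2020202021))
 (c z e
 (c (a (nat_lit 0x10d090d0b09026)) e
 (c (a (nat_lit 0x12325252520f86)) e
 (c (a (nat_lit 0x16356040602043)) e
 (c (a (nat_lit 0x15402040200003)) e
 (c (a (nat_lit 0xc0c000000001)) e e))))))
 (c (a (nat_lit 0x2020202021))
 (c (a (nat_lit 0x13d3f3f3d3b126)) e
 (c (a (nat_lit 0x102fa4056525a4)) e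
 (c (a (nat_lit 0x17a042a2a1e003)) e
 (c (a (nat_lit 0x1a68360000001)) e
 (c (a (nat_lit 0x3400000000001)) e e)))))
 (c (a (nat_lit 0x10101012121)) e
 (c (a (nat_lit 0x6060606061)) e
 (c (a (nat_lit 0x2020202021)) e
 (c (a (nat_lit 0x80806070e1)) e
 (c (a (nat_lit 0x20202878e2)) e
 (c (a (nat_lit 0x2777e402)) e
 (c (a (nat_lit 0x6d7a42422)) e
 (c (a (nat_lit 0x2d3a0404ce2)) e
 (c (a (nat_lit 0x1380204ceb82)) e
 (c (a (nat_lit 0x90935d49882)) e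
 (c (a (nat_lit 0xa70b0920ee3)) e
 (c (a (nat_lit 0x1857ddf15bc1)) e
 (c (b (nat_lit 0x181e31fc5fe1)) e e)))))))))))))))))))))))) Tr.c Tr.e (nat_lit 0) C.cx C.cy
noncomputable def C797 : Tr := beta% (fun (c : Nat → Tr → Tr → Tr) (e : Tr) (z : Nat) (a b : Nat → Nat) =>
 (c (a (nat_lit 0x8080808081))
 (c z
 (c (a (nat_lit 0x159551ac714c2004))
 (c z e
 (c z e
 (c z e
 (c z e
 (c z e
 (c (a (nat_lit 0x52688cba8060b9985)) e
 (c (a (nat_lit 0x2c98522a601249805)) e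
 (c (a (nat_lit 0x52544c28283b575a5)) e
 (c (a (nat_lit 0xd8a2fe68abe58d2a5)) e e)))))))))
 (c z e
 (c z e
 (c (a (nat_lit 0x67ace40814726c5))
 (c (a (nat_lit 0x19bb6a116f0e9b53c6)) e
 (c (a (nat_lit 0x1749eaef2d35cabbe7)) e
 (c z e
 (c (a (nat_lit 0xb6ca8ceaf89ab76a7)) e e))))
 (c (a (nat_lit 0x19edab8967a60545))
 (c (a (nat_lit 0x806498a2e4cf96927)) e
 (c z e
 (c z e
 (c (a (nat_lit 0xb8ccdb88e5445e007)) e e))))
 (c z e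
 (c (a (nat_lit 0x14d028e52643ac64)) e
 (c (a (nat_lit 0xea7648e6ab3ee84)) e
 (c z e
 (c z e
 (c (a (nat_lit 0xdccef70b005c6c6)) e
 (c z e
 (c z e
 (c (a (nat_lit 0xc70c80807e76683)) e
 (c (a (nat_lit 0x1584432321a06022)) e e)))))))))))))))
 (c z
 (c z e
 (c z e
 (c z e
 (c z e
 (c z e
 (c z e
 (c z e
 (c z e
 (c z e
 (c z e
 (c z e
 (c (a (nat_lit 0x1212720bed4a11e7)) e
 (c (a (nat_lit 0x6e4a1a9e0c9b785)) e e)))))))))))))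
 (c z
 (c z e
 (c z e
 (c z e
 (c z e
 (c z e
 (c z e
 (c z e
 (c (a (nat_lit 0x92a14d42a8aea46)) e e))))))))
 (c z
 (c (a (nat_lit 0x369c92c2acb3445))
 (c (a (nat_lit 0x444c39369ccc6e2a7)) e
 (c z e
 (c z e
 (c (a (nat_lit 0x1ac88fad745bcb0006)) e
 (c (a (nat_lit 0x1019d744eac0000006)) e e)))))
 (c (a (nat_lit 0x40210413108445))
 (c z e
 (c z e
 (c z e
 (c (a (nat_lit 0x16cc880b4000000007)) e e))))
 (c z e
 (c (a (nat_lit 0x60e33f6897455c5)) e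
 (c (a (nat_lit 0x88aefe1ed49f045)) e
 (c (a (nat_lit 0xef353b3d20f7126)) e
 (c z e
 (c (a (nat_lit 0xed3f31335688526)) e
 (c z e
 (c z e
 (c (a (nat_lit 0x16192121a1a12005)) e
 (c (a (nat_lit 0x194080e080000005)) e e))))))))))))
 (c z
 (c z e
 (c z e
 (c z e
 (c (a (nat_lit 0x280e30450042fc6)) e
 (c z e
 (c z e
 (c (a (nat_lit 0xab16c31ebe90787)) e
 (c z e
 (c (a (nat_lit 0x5a84666060711c8)) e
 (c (a (nat_lit 0x1243010221200005)) e e))))))))))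
 (c (a (nat_lit 0x202040403084))
 (c (a (nat_lit 0x154f6aa462f1d9a4)) e e)
 (c (a (nat_lit 0x1c1c1c1c5e041))
 (c (a (nat_lit 0x80562a702db3944)) e
 (c (a (nat_lit 0x4c365e3955b9205)) e
 (c z e
 (c (a (nat_lit 0x54394918b2c66c6)) e
 (c (a (nat_lit 0x26a6a26ca4531c7)) e e)))))
 (c (a (nat_lit 0x6e6e6f63c6463))
 (c (a (nat_lit 0x3234408904bc965)) e
 (c z e
 (c z e
 (c (a (nat_lit 0x56a0acc26f37147)) e e))))
 (c (a (nat_lit 0x32333c961c605)) e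
 (c (a (nat_lit 0x454ca23833cc5)) e
 (c (a (nat_lit 0x325e1279451a6))
 (c (a (nat_lit 0xc51351467600007)) e e)
 (c z e
 (c (a (nat_lit 0x5ad5a17915086)) e
 (c (a (nat_lit 0x17b1289a7e565)) e
 (c (b (nat_lit 0x193047a5e39fe5)) e
 (c (a (nat_lit 0x1ecd6925606004)) e
 (c (a (nat_lit 0x13cf8bc4e54524)) e
 (c (a (nat_lit 0x152da0a0e0a023)) e
 (c (a (nat_lit 0x1c80a2c180a002)) e
 (c z e
 (c (a (nat_lit 0x9e74143202001)) e
 (c (a (nat_lit 0xaa4c340000001)) e e))))))))))))))))))))))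
 (c (a (nat_lit 0xa0a080a0a1))
 (c z
 (c (a (nat_lit 0x3eb7abec6c5462))
 (c z e
 (c z e
 (c (a (nat_lit 0xad04c64c806b2eba6)) e
 (c (a (nat_lit 0xc2b22a685f9d26686)) e e))))
 (c z e
 (c z e
 (c (a (nat_lit 0x8121e4428035c5))
 (c (a (nat_lit 0x4e46c7c69434d21e7)) e
 (c (a (nat_lit 0x332cc06ce56e64047)) e e))
 (c (a (nat_lit 0x26143e424b8cf25)) e
 (c z e
 (c z e
 (c (a (nat_lit 0x1e61030a72323c6)) e
 (c (a (nat_lit 0x6328de9a6052306)) e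
 (c z e
 (c z e
 (c (a (nat_lit 0xe2dee4d29d67505)) e
 (c (a (nat_lit 0x1a5bd78ab3fd6903)) e e)))))))))))))
 (c z
 (c z e
 (c z e
 (c z e
 (c z e
 (c z e
 (c z e
 (c (a (nat_lit 0x770b08cc382a026)) e e)))))))
 (c z e
 (c (a (nat_lit 0x202020203225))
 (c z e
 (c (a (nat_lit 0x4c307ef442a3f26))
 (c (a (nat_lit 0xf1e0c6745a0000007)) e e)
 (c z e
 (c z e
 (c (a (nat_lit 0xac649b089aceac7)) e
 (c z e
 (c z e
 (c z e
 (c (a (nat_lit 0x85e84a122ee006)) e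
 (c (a (nat_lit 0x18a0220040000005)) e e))))))))))
 (c (a (nat_lit 0x20202036a4c5))
 (c (a (nat_lit 0x8caea252495a065)) e
 (c z e
 (c z e
 (c (a (nat_lit 0xcedb70fb59c14c6)) e
 (c z e
 (c z e
 (c z e
 (c (b (nat_lit 0x1feea7887a000005)) e
 (c (a (nat_lit 0x1121808000000004)) e e)))))))))
 (c (a (nat_lit 0x2035138344)) e
 (c (a (nat_lit 0x405436234284)) e
 (c (a (nat_lit 0x3922f4404ee25))
 (c (a (nat_lit 0x3cc7a790b429da6)) e e)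
 (c z e
 (c z e
 (c z e
 (c (a (nat_lit 0x16ffbdf9bbebc5)) e
 (c (a (nat_lit 0x195245296b0ac3)) e
 (c (a (nat_lit 0x15886cae4e0703)) e
 (c (a (nat_lit 0xef0d1720e8e84)) e
 (c (a (nat_lit 0x5004020a09183)) e
 (c (a (nat_lit 0x2020a0714643)) e
 (c z e
 (c (a (nat_lit 0x6e6d72de26043)) e
 (c (a (nat_lit 0x6776da1c00003)) e e))))))))))))))))))))
 (c (a (nat_lit 0x8080808081))
 (c z
 (c (a (nat_lit 0xcc4b1cbb5d9482)) e
 (c (a (nat_lit 0x142f715d6273563)) e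
 (c z e
 (c (a (nat_lit 0x6c7a82b2f90ea25)) e
 (c (a (nat_lit 0x386ad19dc08e364)) e
 (c (a (nat_lit 0x4ec10ba0f037284)) e
 (c z e
 (c (a (nat_lit 0x1656d6b3d0319405)) e
 (c (a (nat_lit 0x18375b347b186025)) e
 (c z e
 (c (a (nat_lit 0xc6afb9ef66f3025)) e
 (c (a (nat_lit 0xd07318643c00005)) e e))))))))))))
 (c (a (nat_lit 0x2020202032c5)) e
 (c (a (nat_lit 0x20202039ac05)) e
 (c (a (nat_lit 0x2020336968c6))
 (c z e
 (c (a (nat_lit 0x9c824c911688766)) e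
 (c z e
 (c z e
 (c (a (nat_lit 0xdbb981acf2f4ae5)) e
 (c z e
 (c z e
 (c (a (nat_lit 0x18d2f29ce0000005)) e e))))))))
 (c (a (nat_lit 0x20391e5d77a4))
 (c (a (nat_lit 0xb40e47f26a6d464)) e
 (c z e
 (c z e
 (c (a (nat_lit 0xa6807ed8ab50ac6)) e
 (c z e
 (c z e
 (c (a (nat_lit 0x15b913c000000006)) e e)))))))
 (c (a (nat_lit 0x1edb2104dc9c5)) e
 (c z e
 (c (a (nat_lit 0xee8d0f1886645))
 (c (a (nat_lit 0xc55d53f5186a006)) e e)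
 (c z e
 (c z e
 (c (a (nat_lit 0x1d13125ba9ab65)) e
 (c (a (nat_lit 0x3e0d0aa515163)) e
 (c (a (nat_lit 0x16aeb74b33bc3)) e
 (c (a (nat_lit 0x3e46e6d356883)) e
 (c (a (nat_lit 0x4a8afec528e2)) e
 (c z e
 (c (a (nat_lit 0x93bc326c24202)) e
 (c (a (nat_lit 0x1a216460804002)) e e))))))))))))))))))
 C796)))) Tr.c Tr.e (nat_lit 0) C.cx C.cy
noncomputable def C798 : Tr := beta% (fun (c : Nat → Tr → Tr → Tr) (e : Tr) (z : Nat) (a b : Nat → Nat) =>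
 (c z
 (c (a (nat_lit 0x59c1af7ac85a045))
 (c z e
 (c z e
 (c z e
 (c (a (nat_lit 0x456cfa98dec4dd2e7)) e
 (c z e
 (c z e
 (c (a (nat_lit 0x1630524e40a8335a6)) e
 (c z e
 (c (a (nat_lit 0x1a4eaaee3e0d05606)) e
 (c z e
 (c (a (nat_lit 0x10565e53723e200006)) e e)))))))))))
 (c z e
 (c z e
 (c (a (nat_lit 0x92ad7d000e2a7c6))
 (c (a (nat_lit 0x5f08f082b89881168)) e
 (c z e
 (c z e
 (c z e
 (c (a (nat_lit 0x6826514d0e7edc7a7)) e e)))))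
 (c (a (nat_lit 0x3560a62244864e6)) e
 (c z e
 (c z e
 (c (a (nat_lit 0x118ee929c866a7e5))
 (c (a (nat_lit 0xf3028868220000007)) e e)
 (c z e
 (c z e
 (c (a (nat_lit 0x78ff02d4f846066)) e
 (c z e
 (c z e
 (c z e
 (c (a (nat_lit 0x10caa0a366a978c4)) e
 (c (a (nat_lit 0x13e94cd052f12004)) e e))))))))))))))))
 (c z
 (c z e
 (c z e
 (c z e
 (c z e
 (c z e
 (c z e
 (c z e
 (c z e
 (c z e
 (c z e
 (c z e
 (c z e
 (c z e
 (c (a (nat_lit 0x126e95b833b90bc5)) e e))))))))))))))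
 (c z
 (c (a (nat_lit 0x351c4c3450e9025))
 (c z e
 (c (a (nat_lit 0xc8a8a0f0ce94a1308)) e
 (c z e
 (c (a (nat_lit 0xe92ae2cf2548b8a27)) e
 (c (a (nat_lit 0x446647067040102a8)) e e)))))
 (c (a (nat_lit 0x124648eeec2eae26))
 (c z e
 (c z e
 (c z e
 (c z e
 (c z e
 (c z e
 (c (a (nat_lit 0x1072e9000000000008)) e e)))))))
 (c z e
 (c (a (nat_lit 0x6d08dff2c826004))
 (c z e
 (c (a (nat_lit 0x10a18a454401424008)) e e))
 (c (a (nat_lit 0x8860727a4247326))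
 (c (a (nat_lit 0x750cb47a504200007)) e e)
 (c z e
 (c z e
 (c (a (nat_lit 0xb4b8f7b320b6966)) e
 (c z e
 (c z e
 (c (a (nat_lit 0x1a137536d06c1086)) e
 (c (a (nat_lit 0x14292c56eeb0bbe5)) e
 (c z e
 (c (a (nat_lit 0x12c4e480000004)) e
 (c (a (nat_lit 0x1e40c00000000003)) e e)))))))))))))))
 (c z
 (c (a (nat_lit 0x140db574979610c5))
 (c (a (nat_lit 0x54969a71a8f0aca07)) e
 (c z e
 (c z e
 (c z e
 (c (a (nat_lit 0x12cb0a4907c3e00008)) e e)))))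
 (c z e
 (c z e
 (c z e
 (c (a (nat_lit 0x6288340e258aa06)) e
 (c z e
 (c (a (nat_lit 0x503aa9f5359a666)) e
 (c (a (nat_lit 0xe7524aad286567)) e
 (c z e
 (c z e
 (c z e
 (c (a (nat_lit 0x124a46a986600006)) e
 (c (a (nat_lit 0x1b6d4c8000000004)) e e)))))))))))))
 (c z
 (c z e
 (c z e
 (c z e
 (c z e
 (c z e
 (c z e
 (c z e
 (c (a (nat_lit 0x1117928ff2ac3067)) e e))))))))
 (c z
 (c (a (nat_lit 0xb278743408ef7a5)) e
 (c (a (nat_lit 0x5a3e0c0b1b935e5)) e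
 (c (b (nat_lit 0x3607ff63b345185)) e
 (c z e
 (c (a (nat_lit 0x751d4d338330f86)) e
 (c z e
 (c z e
 (c (a (nat_lit 0xb0907e92d101f07)) e
 (c (a (nat_lit 0xb04011146400005)) e e)))))))))
 (c (a (nat_lit 0xa0a0a0a0a881))
 (c (a (nat_lit 0x9a70c314ef486c4)) e
 (c z e
 (c z e
 (c (a (nat_lit 0x6c4870c3430f006)) e
 (c z e
 (c z e
 (c (a (nat_lit 0x829ea4c0e536008)) e e)))))))
 (c (a (nat_lit 0x40404040b4e1))
 (c (a (nat_lit 0xad450668d6de44)) e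
 (c (a (nat_lit 0xd688a91b55d9365)) e
 (c z e
 (c (a (nat_lit 0xa8a6f14d7102f87)) e e))))
 (c (a (nat_lit 0x20203c06a044))
 (c z e
 (c z e
 (c z e
 (c z e
 (c (a (nat_lit 0x566475160000008)) e
 (c (a (nat_lit 0x1272a00000000004)) e e))))))
 (c (a (nat_lit 0x1011ce6c2a0e4))
 (c (a (nat_lit 0x967b0edf16c8666)) e
 (c z e
 (c z e
 (c (a (nat_lit 0x3c6f08000000008)) e e))))
 (c (a (nat_lit 0x5a948836212e5))
 (c (a (nat_lit 0xdb478d0fb2a4007)) e e)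
 (c z e
 (c (a (nat_lit 0x22189d2308ca6)) e
 (c (a (nat_lit 0x22394510929a5)) e
 (c (a (nat_lit 0x186c4aab2684)) e
 (c (b (nat_lit 0x18eccb4bc71fe4)) e
 (c (a (nat_lit 0x1b19bb7222a2c3)) e
 (c (a (nat_lit 0x1c1d952825e3e3)) e
 (c (a (nat_lit 0x1a31c4a2002003)) e
 (c (b (nat_lit 0x1020a0ffffffe3)) e
 (c z e
 (c (a (nat_lit 0xf87c2a0800001)) e
 (c (a (nat_lit 0x8a22000000001)) e e)))))))))))))))))))))))) Tr.c Tr.e (nat_lit 0) C.cx C.cy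
noncomputable def C799 : Tr := beta% (fun (c : Nat → Tr → Tr → Tr) (e : Tr) (z : Nat) (a b : Nat → Nat) =>
 (c (a (nat_lit 0x6060606061))
 (c z
 (c (a (nat_lit 0x202020202032c3)) e
 (c (a (nat_lit 0x2020202035b563))
 (c z e
 (c z e
 (c z e
 (c z e
 (c z e
 (c (a (nat_lit 0x6e181ca09654fb226)) e
 (c z e
 (c z e
 (c (a (nat_lit 0xd0e508925c730e5c5)) e
 (c (a (nat_lit 0x1a386b68cdd9917544)) e
 (c (a (nat_lit 0xca8e92bb1d48e4986)) e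
 (c (a (nat_lit 0xccd4dd4d8f5f774c6)) e e))))))))))))
 (c (a (nat_lit 0x20202038f6b3e5))
 (c z e
 (c z e
 (c z e
 (c z e
 (c z e
 (c z e
 (c z e
 (c (a (nat_lit 0x52787c187d32c4d86)) e e))))))))
 (c (a (nat_lit 0xc0c0dbd954d145)) e
 (c (a (nat_lit 0x137291f4a385))
 (c z e
 (c z e
 (c z e
 (c (a (nat_lit 0x8a9ada937afdb5005)) e
 (c (a (nat_lit 0x968add105ad5a8f25)) e
 (c (a (nat_lit 0x728edcc8ff0fa3ea5)) e e))))))
 (c z e
 (c z e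
 (c z e
 (c z e
 (c z e
 (c z e
 (c z e
 (c z e
 (c z e
 (c z e
 (c (a (nat_lit 0x1303e546a66782c3)) e
 (c z e
 (c z e
 (c (a (nat_lit 0x3a7e3e3294f00e1)) e e)))))))))))))))))))
 (c z
 (c (a (nat_lit 0x1c1c1c1eeb3f024))
 (c z e
 (c z e
 (c z e
 (c z e
 (c z e
 (c z e
 (c z e
 (c z e
 (c (a (nat_lit 0x1751eb282c3db109e5)) e e)))))))))
 (c (a (nat_lit 0x161617354f20826))
 (c z e
 (c z e
 (c z e
 (c z e
 (c z e
 (c (a (nat_lit 0x65a95146cd01af66)) e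
 (c (a (nat_lit 0xfebeba72eaa2dfa66)) e
 (c (a (nat_lit 0x104c47cdb83bbcda86)) e e))))))))
 (c (a (nat_lit 0x2c2d45510698066)) e
 (c (b (nat_lit 0x2e108fcb5fffe6)) e
 (c z e
 (c z e
 (c z e
 (c z e
 (c z e
 (c z e
 (c z e
 (c z e
 (c z e
 (c z e
 (c (a (nat_lit 0xe09335250a080c4)) e e)))))))))))))))
 (c z
 (c (a (nat_lit 0x2033f995cbe025)) e e)
 (c z
 (c z e
 (c z e
 (c z e
 (c z e
 (c z e
 (c z e
 (c z e
 (c z e
 (c z e
 (c z e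
 (c z e
 (c z e
 (c (a (nat_lit 0x1bd313991b737604)) e e)))))))))))))
 (c z e
 (c z e
 (c z
 (c z e
 (c z e
 (c z e
 (c z e
 (c z e
 (c z e
 (c z e
 (c z e
 (c z e
 (c z e
 (c (a (nat_lit 0xd8e6d126ce00005)) e e)))))))))))
 (c z
 (c z e
 (c z e
 (c z e
 (c (a (nat_lit 0x20a69eeaab7c5)) e e))))
 (c z e
 (c (a (nat_lit 0xc0c0c0c0cd21))
 (c (a (nat_lit 0xd92d67bd6b4bac4)) e e)
 (c (a (nat_lit 0x2020203b86c4)) e
 (c (a (nat_lit 0x20203cab04c4)) e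
 (c (a (nat_lit 0xb4b5176aa7864)) e
 (c (a (nat_lit 0x5636683eb3825)) e e))))))))))))))
 (c (nat_lit 1)
 (c z
 (c (a (nat_lit 0x3e3e3f311f38d43))
 (c z e
 (c z e
 (c z e
 (c z e
 (c z e
 (c z e
 (c z e
 (c z e
 (c z e
 (c (a (nat_lit 0x6e62b6407c5c83705)) e
 (c (a (nat_lit 0x7eea7d045abb5ca85)) e
 (c (a (nat_lit 0x9c62b0c2e69f07086)) e
 (c z e
 (c (a (nat_lit 0x2a2c6904000000007)) e e))))))))))))))
 (c (a (nat_lit 0x203132514721a5)) e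
 (c (a (nat_lit 0xbb212910ee4e086)) e
 (c (a (nat_lit 0x111252cff3462166))
 (c (a (nat_lit 0xe78ceef105910d2a6)) e
 (c z e
 (c z e
 (c (a (nat_lit 0xaa8ed4a6cb12b0967)) e
 (c (a (nat_lit 0x70b674831eabeac07)) e e)))))
 (c z e
 (c z e
 (c (a (nat_lit 0x41586a8a783c524))
 (c z e
 (c (a (nat_lit 0x37075dbcdab0cc8e6)) e e))
 (c (a (nat_lit 0x1d8e8e5066e22cc4))
 (c (a (nat_lit 0x949b20a2a2d45e607)) e
 (c z e
 (c z e
 (c (a (nat_lit 0xcb391200000000006)) e e))))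
 (c z e
 (c z e
 (c (a (nat_lit 0x7e60c30edf02ca5)) e
 (c z e
 (c z e
 (c (b (nat_lit 0xbacb4791fe4a3e5)) e
 (c (a (nat_lit 0x13b8dbfb54937f44)) e
 (c (a (nat_lit 0x9f06f218056e903)) e
 (c (a (nat_lit 0x1230c402196b4643)) e
 (c (a (nat_lit 0xfe26137a5000003)) e e))))))))))))))))))
 C798)
 C797))) Tr.c Tr.e (nat_lit 0) C.cx C.cy
noncomputable def C800 : Tr := beta% (fun (c : Nat → Tr → Tr → Tr) (e : Tr) (z : Nat) (a b : Nat → Nat) =>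
 (c z
 (c (a (nat_lit 0x606060607031e4))
 (c z e
 (c z e
 (c z e
 (c z e
 (c z e
 (c z e
 (c z e
 (c z e
 (c z e
 (c z e
 (c (a (nat_lit 0xa498a13d4d3aa6b86)) e e)))))))))))
 (c (a (nat_lit 0x20202030504ee6))
 (c z e
 (c z e
 (c z e
 (c z e
 (c z e
 (c z e
 (c z e
 (c (a (nat_lit 0x624a1a84b91c3e686)) e e))))))))
 (c (a (nat_lit 0x20203313306446)) e
 (c (a (nat_lit 0x20369576898fe6)) e
 (c (a (nat_lit 0x552df06510e806))
 (c z e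
 (c z e
 (c (a (nat_lit 0x34791cc0668500ae7)) e
 (c z e
 (c (a (nat_lit 0xe8c2784a9cfd47967)) e e)))))
 (c z e
 (c z e
 (c z e
 (c z e
 (c z e
 (c z e
 (c (a (nat_lit 0x11b77d1d58b00906)) e
 (c z e
 (c z e
 (c z e
 (c (a (nat_lit 0x13ab6640a0636464)) e e))))))))))))))))
 (c z
 (c (a (nat_lit 0x808091306c8005))
 (c z e
 (c z e
 (c z e
 (c (a (nat_lit 0x14d72fb5d80d7a7f66)) e
 (c z e
 (c (a (nat_lit 0x2a8ad7058595d3805)) e
 (c z e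
 (c (a (nat_lit 0xda68aaede25a8cd65)) e
 (c (a (nat_lit 0x101a2c26362a33068)) e
 (c z e
 (c (a (nat_lit 0x4836345e8714ac987)) e e)))))))))))
 (c (a (nat_lit 0x203393eec3afe6)) e
 (c z e
 (c (b (nat_lit 0xfaeadc3d0c6bfe6))
 (c (a (nat_lit 0xa0ac6d398c8cc2ee7)) e
 (c z e
 (c z e
 (c (a (nat_lit 0xa8fa5862c08883067)) e
 (c (a (nat_lit 0x1caaa5e678adb44f26)) e
 (c z e
 (c z e
 (c (a (nat_lit 0x8b516b73e20000006)) e e))))))))
 (c z e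
 (c z e
 (c (b (nat_lit 0xa188aaaf067bfe5)) e
 (c (a (nat_lit 0x15490a8cc603a705)) e
 (c z e
 (c z e
 (c (a (nat_lit 0x12107018b146c4a6)) e
 (c z e
 (c (a (nat_lit 0xd74738d8826a646)) e
 (c (a (nat_lit 0x1f1aad8ccdee4de4)) e
 (c (a (nat_lit 0x1e03014384c46043)) e e)))))))))))))))
 (c z
 (c (a (nat_lit 0x48d902d07836226))
 (c (a (nat_lit 0x7a76b6b6503d0b026)) e
 (c z e
 (c z e
 (c (a (nat_lit 0x114cedfc9afaf26c67)) e
 (c (a (nat_lit 0x8ea92b0b2306a4ea7)) e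
 (c z e
 (c z e
 (c (b (nat_lit 0xd2db35fe7a4856326)) e
 (c (a (nat_lit 0x669274613e98c0187)) e e)))))))))
 (c z e
 (c z e
 (c (a (nat_lit 0x1b11b2ece0426fc6))
 (c z e
 (c (a (nat_lit 0xd382ecc3795389087)) e
 (c z e
 (c z e
 (c (a (nat_lit 0x929532caad2eaa008)) e e)))))
 (c (a (nat_lit 0x7caa500a0b192e5))
 (c (a (nat_lit 0xb0e8a17efd81c0726)) e e)
 (c z e
 (c z e
 (c (a (nat_lit 0x2855e90fa2d8244)) e
 (c z e
 (c z e
 (c z e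
 (c (a (nat_lit 0xaad8ff573d0ed06)) e
 (c (a (nat_lit 0x15438c274a2e4344)) e
 (c z e
 (c (a (nat_lit 0xe8a0db2a767e744)) e
 (c (a (nat_lit 0x66d588121200003)) e
 (c (a (nat_lit 0xc57606000000003)) e e)))))))))))))))))
 (c z e
 (c z
 (c (a (nat_lit 0x1512298064ef3c65))
 (c (a (nat_lit 0xb2be8ec6c8a5cce87)) e
 (c (a (nat_lit 0x17d2369cdc9f757627)) e
 (c (a (nat_lit 0x4f0eb28bf720aef47)) e
 (c (a (nat_lit 0x3a562f0ea2bc4c448)) e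
 (c (a (nat_lit 0x526b6cc3027462608)) e e)))))
 (c z e
 (c z e
 (c (a (nat_lit 0x1296d9365b30cc5))
 (c z e
 (c (a (nat_lit 0xc75290a2940000008)) e e))
 (c (a (nat_lit 0x12667506dc8d565))
 (c (a (nat_lit 0x17ab8d488000000007)) e e)
 (c z e
 (c z e
 (c (a (nat_lit 0x8e8c9193593f526)) e
 (c z e
 (c z e
 (c (a (nat_lit 0x130928a8c647d365)) e
 (c (a (nat_lit 0x7e6a741c4fc80e4)) e e))))))))))))
 (c z
 (c z e
 (c (a (nat_lit 0x5072dae84f26f85))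
 (c (a (nat_lit 0x8344a0686a5e3c2a8)) e e)
 (c z e
 (c z e
 (c (a (nat_lit 0xe3050913592ee46)) e
 (c z e
 (c z e
 (c z e
 (c (a (nat_lit 0xa545310ef0e92c6)) e
 (c (a (nat_lit 0x11c761814281d004)) e
 (c (a (nat_lit 0x13cd0e904ece8004)) e e)))))))))))
 (c z
 (c (a (nat_lit 0x1053cc6a842450e3))
 (c (a (nat_lit 0x15652923a582c2c046)) e e)
 (c z e
 (c z e
 (c (a (nat_lit 0x304870defb35ec5)) e
 (c (a (nat_lit 0x80476b8f33d705)) e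
 (c z e
 (c z e
 (c (a (nat_lit 0xc719393b4b3ee07)) e
 (c (a (nat_lit 0xaaec0855249a4e5)) e e)))))))))
 (c z
 (c (a (nat_lit 0x583e5e5b0b79404)) e
 (c (a (nat_lit 0x2e1828c8fd2d685)) e e))
 (c z
 (c (a (nat_lit 0x4c6d1723a1ef9c4)) e
 (c z e
 (c z e
 (c (a (nat_lit 0x667c9cc2e106f87)) e
 (c z e
 (c z e
 (c (a (nat_lit 0x1a8bec9a4d200003)) e e)))))))
 (c (a (nat_lit 0x202020203485))
 (c (a (nat_lit 0x9a9ebb2b66cc785)) e
 (c (a (nat_lit 0x22569773896f146)) e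
 (c z e
 (c z e
 (c (a (nat_lit 0x423230344118008)) e
 (c (a (nat_lit 0x1d6f2c9380000003)) e e))))))
 (c (a (nat_lit 0x202020348a05))
 (c (a (nat_lit 0x605d1b1d7128be6)) e e)
 (c (a (nat_lit 0x808092d4cc24))
 (c (a (nat_lit 0xe8d723d5645d846)) e e)
 (c (a (nat_lit 0xacad315f46e44)) e
 (c (a (nat_lit 0xce133388c023)) e
 (c (a (nat_lit 0xdb0304c68a624)) e
 (c (a (nat_lit 0x10708c88e666a4)) e
 (c (a (nat_lit 0x140fcaea6a4ae4)) e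
 (c (a (nat_lit 0xb6520c061fac3)) e
 (c (a (nat_lit 0x58120827b2023)) e
 (c z e
 (c (a (nat_lit 0x10f1de0feb6c64)) e
 (c (a (nat_lit 0x6930500c1e004)) e
 (c (a (nat_lit 0x15a7834482c024)) e e)))))))))))))))))))))))) Tr.c Tr.e (nat_lit 0) C.cx C.cy
noncomputable def C801 : Tr := beta% (fun (c : Nat → Tr → Tr → Tr) (e : Tr) (z : Nat) (a b : Nat → Nat) =>
 (c z
 (c z
 (c z e
 (c z e
 (c z e
 (c z e
 (c (a (nat_lit 0xe0708e9aaec6ff225)) e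
 (c z e
 (c z e
 (c (a (nat_lit 0x95031507250185885)) e
 (c z e
 (c z e
 (c z e
 (c z e
 (c (a (nat_lit 0x1757307251712d4b24)) e
 (c (a (nat_lit 0xb49102feeaa0a2a05)) e
 (c (a (nat_lit 0xd7595334f302f36c5)) e
 (c (a (nat_lit 0xccd2deb3311d17785)) e e))))))))))))))))
 (c z
 (c z e
 (c z e
 (c z e
 (c z e
 (c z e
 (c z e
 (c z e
 (c z e
 (c z e
 (c (a (nat_lit 0xcecda13d2712c6f05)) e
 (c (a (nat_lit 0x99833914ea772fae5)) e
 (c (a (nat_lit 0x13a9ee8daa09aae606)) e e))))))))))))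
 (c z
 (c z e
 (c (a (nat_lit 0x4f14bd275ce31b6c6)) e
 (c z e
 (c z e
 (c z e
 (c z e
 (c z e
 (c z e
 (c z e
 (c (a (nat_lit 0x46b8d2b47d25c68c5)) e e))))))))))
 (c (a (nat_lit 0x20202020203823))
 (c z e
 (c z e
 (c z e
 (c (a (nat_lit 0x8a4c8d87a0e4c8da6)) e
 (c z e
 (c z e
 (c (a (nat_lit 0x12538927c84463c465)) e
 (c (a (nat_lit 0x11a8e64583e40b9be5)) e
 (c (a (nat_lit 0xbc847842bdb0ff385)) e
 (c z e
 (c (a (nat_lit 0x806e7ae0eceaf30c7)) e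
 (c z e
 (c (a (nat_lit 0x2a58504a546fa8008)) e e)))))))))))))
 (c (a (nat_lit 0xe0e0e0e0fcda44))
 (c (a (nat_lit 0x98d8eedd39056cfa6)) e
 (c z e
 (c z e
 (c (a (nat_lit 0xc51f132d3f0eded47)) e
 (c z e
 (c z e
 (c (a (nat_lit 0x157a54ddf21c2b61e4)) e
 (c (a (nat_lit 0xf8def31572eb24866)) e
 (c z e
 (c z e
 (c z e
 (c (a (nat_lit 0x5a4e5c647d4c00008)) e e))))))))))))
 (c (a (nat_lit 0x20202039d6f725))
 (c z e
 (c z e
 (c z e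
 (c z e
 (c (a (nat_lit 0x39442745c14340c6)) e
 (c (a (nat_lit 0x18c38806e668872266)) e e))))))
 (c (a (nat_lit 0x1414154d2532b05))
 (c z e
 (c z e
 (c z e
 (c (a (nat_lit 0x108daa2ee8c3e54a86)) e
 (c (a (nat_lit 0x130c917c852a22eea5)) e
 (c z e
 (c z e
 (c (a (nat_lit 0xfacd1922f65f04aa7)) e e))))))))
 (c (a (nat_lit 0x2627777b82ece65))
 (c z e
 (c (a (nat_lit 0x1c126d69c368f6ed25)) e
 (c (a (nat_lit 0x162d32ed4ca1af0d45)) e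
 (c (a (nat_lit 0x6e82c6a24458573e6)) e
 (c (a (nat_lit 0x507c6e502a11660e7)) e
 (c (a (nat_lit 0xb8b0e0d836eb088a7)) e e))))))
 (c (a (nat_lit 0x28ff3970e89a804))
 (c z e
 (c (a (nat_lit 0x3a7640527042638a7)) e
 (c z e
 (c (a (nat_lit 0xa07c7e446bac4e7e7)) e e))))
 (c z e
 (c (a (nat_lit 0x18d81486c7ad12c3))
 (c z e
 (c z e
 (c z e
 (c (a (nat_lit 0x10086b858000000007)) e e))))
 (c (a (nat_lit 0x1c9a514cf23291c3))
 (c (a (nat_lit 0x92bd64ac60dc62006)) e e)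
 (c (a (nat_lit 0x11ceafd2d8757424)) e
 (c z e
 (c z e
 (c (a (nat_lit 0xc75b6557493c845)) e
 (c (a (nat_lit 0x126fc9c6e5664d23)) e
 (c (a (nat_lit 0x1c106b076b18c182)) e
 (c (a (nat_lit 0x1e3b37f7de761583)) e
 (c z e
 (c (a (nat_lit 0xbebb24ac9eb2043)) e e)))))))))))))))))))))
 (c z
 (c z
 (c z e
 (c z e
 (c z e
 (c z e
 (c z e
 (c z e
 (c z e
 (c z e
 (c z e
 (c (a (nat_lit 0xad06dcf508d0df186)) e
 (c (a (nat_lit 0x19f09979a691f4dfc4)) e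
 (c (a (nat_lit 0xdd06fc84a30291305)) e e))))))))))))
 (c (a (nat_lit 0x202020202039c4))
 (c z e
 (c z e
 (c z e
 (c z e
 (c z e
 (c z e
 (c z e
 (c z e
 (c (a (nat_lit 0x13309abeb6b93e3fc5)) e
 (c (a (nat_lit 0x6b0af87b212548865)) e e))))))))))
 (c (a (nat_lit 0x2c2c2c2c2d3f345))
 (c z e
 (c z e
 (c z e
 (c z e
 (c z e
 (c z e
 (c z e
 (c (a (nat_lit 0x2a5c6a5e80a92a0c7)) e e))))))))
 (c (a (nat_lit 0x20202038d895c6))
 (c z e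
 (c z e
 (c z e
 (c z e
 (c z e
 (c z e
 (c (a (nat_lit 0xcee500d4f908e46c6)) e e)))))))
 (c (a (nat_lit 0x2020387697ae66))
 (c z e
 (c z e
 (c z e
 (c z e
 (c z e
 (c (a (nat_lit 0x57448747a164a81e6)) e e))))))
 (c (a (nat_lit 0x203574760c32e6))
 (c z e
 (c z e
 (c z e
 (c (b (nat_lit 0xfb12a5fe7034a2ec6)) e e))))
 (c z e
 (c z e
 (c z e
 (c z e
 (c z e
 (c z e
 (c z e
 (c z e
 (c z e
 (c (b (nat_lit 0x11c4bff3240c27e4)) e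
 (c z e
 (c z e
 (c z e
 (c z e
 (c z e
 (c (a (nat_lit 0x16c3000000000003)) e e))))))))))))))))))))))
 C800))) Tr.c Tr.e (nat_lit 0) C.cx C.cy
noncomputable def C802 : Tr := beta% (fun (c : Nat → Tr → Tr → Tr) (e : Tr) (z : Nat) (a b : Nat → Nat) =>
 (c z
 (c (a (nat_lit 0x3c3d59547606c84))
 (c z e
 (c z e
 (c z e
 (c z e
 (c z e
 (c z e
 (c (a (nat_lit 0x4e488a9058365d466)) e e)))))))
 (c (a (nat_lit 0x4b7dcb5eb6b6465))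
 (c z e
 (c z e
 (c z e
 (c z e
 (c (a (nat_lit 0x326e807c625081d47)) e e)))))
 (c z e
 (c z e
 (c z e
 (c z e
 (c z e
 (c z e
 (c z e
 (c z e
 (c z e
 (c (b (nat_lit 0x4249fffe50311c5)) e
 (c (a (nat_lit 0x158ccc68298908c4)) e
 (c (a (nat_lit 0x178c43aa674746c2)) e e))))))))))))))
 (c z
 (c (a (nat_lit 0xc71718ac4a0a005))
 (c z e
 (c z e
 (c z e
 (c z e
 (c z e
 (c z e
 (c (a (nat_lit 0xc6f6b15e92e91df65)) e
 (c (a (nat_lit 0x12690f098a2e088006)) e e))))))))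
 (c z e
 (c z e
 (c (a (nat_lit 0x119045a7a7c95944))
 (c z e
 (c (a (nat_lit 0x847ecd04b7103e3e7)) e
 (c z e
 (c z e
 (c (a (nat_lit 0x8ed5aa3e000000006)) e e)))))
 (c (a (nat_lit 0xe4385926387a624))
 (c z e
 (c z e
 (c z e
 (c (a (nat_lit 0x89269600000000006)) e e))))
 (c z e
 (c z e
 (c (a (nat_lit 0x106eb4b446819144)) e
 (c z e
 (c (b (nat_lit 0x25a7dff14aba45)) e
 (c (a (nat_lit 0x4042c112eae8c66)) e
 (c (a (nat_lit 0x13eef53131ed7104)) e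
 (c z e
 (c (a (nat_lit 0xa870a45e95589e4)) e
 (c (a (nat_lit 0x11f76f3557c00003)) e e)))))))))))))))
 (c z
 (c (a (nat_lit 0x17fb2f082028cf64))
 (c (a (nat_lit 0x2e46502e5a5c552c7)) e
 (c z e
 (c (a (nat_lit 0x442a867c6f53009c7)) e
 (c (a (nat_lit 0x1e52785358ae84567)) e
 (c (a (nat_lit 0x505261bb14d86a207)) e e)))))
 (c z e
 (c z e
 (c (a (nat_lit 0xa28583013505944))
 (c z e
 (c (a (nat_lit 0x1373f24a2a0ae00007)) e e))
 (c (a (nat_lit 0x32eca522c92af04))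
 (c (a (nat_lit 0x1975ea2a6720000006)) e e)
 (c z e
 (c (a (nat_lit 0xb51516d0aaa49a5)) e
 (c (a (nat_lit 0x848c6c46d4c5605)) e
 (c z e
 (c (a (nat_lit 0x6aab1f0b02cee46)) e
 (c (a (nat_lit 0x16b5d0cc208a6ec3)) e
 (c (a (nat_lit 0xe6baa22a90af4c4)) e
 (c (a (nat_lit 0x1876475437356003)) e e)))))))))))))
 (c z
 (c z e
 (c z e
 (c z e
 (c z e
 (c z e
 (c z e
 (c (a (nat_lit 0x5c36c147bd41405)) e
 (c z e
 (c z e
 (c (a (nat_lit 0x1d19e1012163a023)) e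
 (c (a (nat_lit 0x1ca3c4044681e003)) e e)))))))))))
 (c z
 (c (a (nat_lit 0xebecfdceb0cfa3))
 (c z e
 (c (a (nat_lit 0x1bec704568c666a006)) e e))
 (c (a (nat_lit 0x16e5884829681a63))
 (c (a (nat_lit 0x8916c8325a3600006)) e e)
 (c z e
 (c (a (nat_lit 0xfd05335ddbd1624)) e
 (c (a (nat_lit 0x6ac8c1756ef13a4)) e
 (c (a (nat_lit 0xc90147476d77786)) e
 (c z e
 (c (a (nat_lit 0x989cfb12fcfeaa6)) e
 (c (a (nat_lit 0x1e4993812685ea22)) e e)))))))))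
 (c z
 (c (a (nat_lit 0x9e3034788d31d23)) e
 (c (a (nat_lit 0x3686628f4591784)) e
 (c z e
 (c (a (nat_lit 0x566931731913a84)) e
 (c (a (nat_lit 0x3a7c948484b90e6)) e
 (c z e
 (c (a (nat_lit 0x8eb90f00fcce846)) e e)))))))
 (c z
 (c (a (nat_lit 0xe04c9b6367a9b43)) e
 (c (a (nat_lit 0x4af4eeeba3a44)) e
 (c z e
 (c (a (nat_lit 0xb4bd1f335771b85)) e
 (c (a (nat_lit 0x12989979f95615c6)) e
 (c z e
 (c z e
 (c (a (nat_lit 0x146b2b8b80000003)) e e))))))))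
 (c z
 (c (a (nat_lit 0xf3113919c7c7264)) e
 (c (a (nat_lit 0x527c72d1451aec5)) e
 (c (a (nat_lit 0x90b2e2f6e304ba6)) e
 (c z e
 (c (a (nat_lit 0xc49c9a90a8d7a66)) e
 (c (a (nat_lit 0x126a864a08a00004)) e e))))))
 (c (a (nat_lit 0x4040404056e1))
 (c (a (nat_lit 0x76607d6bad1f0a4)) e
 (c z e
 (c z e
 (c (a (nat_lit 0xb2aeb0b909b8006)) e e))))
 (c (a (nat_lit 0x202d7762))
 (c (a (nat_lit 0xe4b6d73f28f6265)) e
 (c (a (nat_lit 0x3640504510101c7)) e e))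
 (c (a (nat_lit 0x15b5b5af1af122))
 (c z e
 (c (a (nat_lit 0x2837d1860000006)) e
 (c (a (nat_lit 0x1edbe00000000006)) e e)))
 (c (a (nat_lit 0x1b9b875e529341))
 (c (a (nat_lit 0x155515c000000006)) e
 (c (a (nat_lit 0x80000000000001)) e e))
 (c (a (nat_lit 0xa927e183d9782)) e
 (c (a (nat_lit 0xaefcc108d7123)) e
 (c (a (nat_lit 0xee78e6a51f822)) e
 (c (a (nat_lit 0x76ae82c4f32a3)) e
 (c (a (nat_lit 0x9050d331a0c62)) e
 (c (b (nat_lit 0x54d93596bdfe2)) e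
 (c (a (nat_lit 0xa4d5049602003)) e
 (c (a (nat_lit 0x11750e24a444a3)) e
 (c (a (nat_lit 0x12cbe262028143)) e
 (c (a (nat_lit 0x13804020c02002)) e e))))))))))))))))))))))) Tr.c Tr.e (nat_lit 0) C.cx C.cy
noncomputable def C803 : Tr := beta% (fun (c : Nat → Tr → Tr → Tr) (e : Tr) (z : Nat) (a b : Nat → Nat) =>
 (c z
 (c z
 (c z e
 (c z e
 (c z e
 (c z e
 (c z e
 (c z e
 (c z e
 (c z e
 (c z e
 (c z e
 (c z e
 (c (a (nat_lit 0xd8ef1d0efad4b54a4)) e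
 (c (a (nat_lit 0x6a98ed14d4d8e09e5)) e e)))))))))))))
 (c z
 (c z e
 (c z e
 (c z e
 (c z e
 (c z e
 (c z e
 (c z e
 (c z e
 (c z e
 (c z e
 (c (a (nat_lit 0x11d331ce2caea9b5a5)) e e)))))))))))
 (c (a (nat_lit 0x606060606071c2))
 (c z e
 (c z e
 (c z e
 (c z e
 (c z e
 (c z e
 (c (a (nat_lit 0x9258667a7c788b066)) e
 (c (a (nat_lit 0x2c52702a6a7eb9285)) e
 (c (a (nat_lit 0x4a56283e48dd9c365)) e e)))))))))
 (c (a (nat_lit 0x20202020343e43))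
 (c z e
 (c z e
 (c z e
 (c z e
 (c z e
 (c (a (nat_lit 0x30aadcf3094d37804)) e
 (c (a (nat_lit 0x78d4bd04ce7146265)) e
 (c (a (nat_lit 0x7e6456963f6104025)) e e))))))))
 (c (a (nat_lit 0x202020353614e5))
 (c z e
 (c z e
 (c z e
 (c (a (nat_lit 0xb0b5cdab36d95dde5)) e
 (c z e
 (c z e
 (c (a (nat_lit 0x46544e75087886b26)) e e)))))))
 (c (a (nat_lit 0x1212131f31271e5))
 (c z e
 (c z e
 (c z e
 (c (a (nat_lit 0x6cbad6a8a640537a5)) e e))))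
 (c (a (nat_lit 0x2a2b3f010b3fcc5)) e
 (c (a (nat_lit 0xc688c76d796ae5))
 (c z e
 (c z e
 (c (a (nat_lit 0x648e92c0607cf5485)) e e)))
 (c z e
 (c z e
 (c z e
 (c z e
 (c z e
 (c z e
 (c z e
 (c (a (nat_lit 0xeb43126a06162c3)) e
 (c (a (nat_lit 0x15f2c862634484a3)) e e)))))))))))))))))
 (c z
 (c (a (nat_lit 0x4e4e4e4e4e4f802))
 (c z e
 (c z e
 (c z e
 (c (a (nat_lit 0xd0d2becedec6edaa6)) e
 (c z e
 (c z e
 (c (a (nat_lit 0x667a728aab0188c05)) e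
 (c z e
 (c z e
 (c z e
 (c z e
 (c (a (nat_lit 0xbd5943852902bbe45)) e
 (c z e
 (c (a (nat_lit 0x38363e5274d7a0007)) e e))))))))))))))
 (c (a (nat_lit 0x404040404a31c3))
 (c z e
 (c z e
 (c z e
 (c (a (nat_lit 0x9f2350fed2bd26c86)) e
 (c z e
 (c z e
 (c z e
 (c (a (nat_lit 0x70fc7886b8b932885)) e
 (c (a (nat_lit 0x18892858580ea6eba4)) e
 (c z e
 (c (a (nat_lit 0x62a08a871f6ceb546)) e e)))))))))))
 (c (a (nat_lit 0x22222223d7e6fe4))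
 (c z e
 (c z e
 (c z e
 (c z e
 (c (a (nat_lit 0xb6be935bd7ce6ea25)) e
 (c z e
 (c z e
 (c (a (nat_lit 0x4a64a6ca850499266)) e e))))))))
 (c (a (nat_lit 0x1e1e1fa16968ca5))
 (c (a (nat_lit 0xbab6a2cd90d4e0b26)) e
 (c (a (nat_lit 0x96766cdd0ea0cab47)) e
 (c z e
 (c z e
 (c (a (nat_lit 0x10a54726c6c6e38b26)) e
 (c (a (nat_lit 0x74a6890b82aea5045)) e
 (c z e
 (c (a (nat_lit 0x9edf3b80d70bc8c05)) e
 (c z e
 (c z e
 (c (a (nat_lit 0x1e446b04000000008)) e e)))))))))))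
 (c (a (nat_lit 0x11cb2ca52ae5))
 (c (a (nat_lit 0xc09eb161435700cc6)) e
 (c z e
 (c z e
 (c z e
 (c (a (nat_lit 0xab32bca6e8b6876e6)) e
 (c (a (nat_lit 0x152cac2f71acb88d06)) e
 (c z e
 (c (a (nat_lit 0x60cee2a4db1ac0007)) e e))))))))
 (c (a (nat_lit 0x59f879cf3c9284))
 (c z e
 (c z e
 (c z e
 (c z e
 (c (a (nat_lit 0x34362e38512640688)) e
 (c z e
 (c (a (nat_lit 0x66bae0872ed400007)) e e)))))))
 (c (b (nat_lit 0x8a7e680b11fffe4))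
 (c (a (nat_lit 0x112c4885e32a260ea6)) e
 (c (a (nat_lit 0x9860481914aff6806)) e
 (c (a (nat_lit 0x6c68388854252b066)) e e)))
 (c (a (nat_lit 0x2062477784c5404))
 (c (a (nat_lit 0x3e6464a8715cc2e26)) e
 (c z e
 (c z e
 (c (a (nat_lit 0x4e490c80844e00007)) e e))))
 (c (a (nat_lit 0xe5f1d8cc5326c4))
 (c (a (nat_lit 0x4e3e405f42f81a6c6)) e
 (c (a (nat_lit 0x4654c530fa3a58007)) e
 (c z e
 (c (a (nat_lit 0x91b70a00000000007)) e e))))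
 (c z e
 (c (a (nat_lit 0xaeeedba8be54464))
 (c (a (nat_lit 0x118624000000000006)) e e)
 (c (a (nat_lit 0x14341c71b3f2c3a5)) e
 (c z e
 (c (a (nat_lit 0x179316b63445a605)) e
 (c (a (nat_lit 0x13cb8a42e36a4b23)) e
 (c (a (nat_lit 0x16736c8f58173863)) e
 (c z e
 (c (a (nat_lit 0x9ec53d3b289c543)) e
 (c (a (nat_lit 0x7cf702f26610003)) e
 (c (a (nat_lit 0x1453f485e0000003)) e
 (c (a (nat_lit 0x1caea00000000003)) e e)))))))))))))))))))))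
 (c z
 (c (a (nat_lit 0x1e1e1e1f89def03))
 (c z e
 (c z e
 (c z e
 (c (a (nat_lit 0xc31ed89e6d2c71e65)) e
 (c z e
 (c z e
 (c z e
 (c z e
 (c z e
 (c z e
 (c (a (nat_lit 0x847a64867c90cd146)) e e)))))))))))
 (c (a (nat_lit 0x6e6e6f7d6ec2645))
 (c z e
 (c z e
 (c z e
 (c z e
 (c z e
 (c (a (nat_lit 0x98c0a4cd32d8d4fc7)) e
 (c (a (nat_lit 0x126b6b9e37d51b2ae5)) e e)))))))
 (c (a (nat_lit 0x1011374b188aaa5)) e
 (c (a (nat_lit 0x1a1a1467f3a984))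
 (c (a (nat_lit 0xa6d0f4cd0d34731a6)) e
 (c z e
 (c z e
 (c (a (nat_lit 0x8911683c8cf60f766)) e
 (c (a (nat_lit 0x84a6385e563500807)) e
 (c z e
 (c z e
 (c (a (nat_lit 0x806e6f068aac00007)) e e))))))))
 (c (b (nat_lit 0x15d6906734dfffe4))
 (c z e
 (c z e
 (c (a (nat_lit 0x19322458907b0af66)) e
 (c (a (nat_lit 0xfa929e7cd1f17a9a6)) e e))))
 (c z e
 (c (a (nat_lit 0xd08b9b9f51aa944))
 (c z e
 (c (a (nat_lit 0x3e5e1106c09260407)) e e))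
 (c (a (nat_lit 0x9cf57a5f407a03))
 (c (a (nat_lit 0x72371ca6845c3c486)) e e)
 (c z e
 (c z e
 (c (a (nat_lit 0xef54f153bc829e5)) e
 (c z e
 (c z e
 (c (a (nat_lit 0x1474c7a84705e724)) e
 (c (a (nat_lit 0x14a787274586ec24)) e
 (c (a (nat_lit 0xaa24602a75fa002)) e e))))))))))))))))
 C802)))) Tr.c Tr.e (nat_lit 0) C.cx C.cy
noncomputable def C804 : Tr := beta% (fun (c : Nat → Tr → Tr → Tr) (e : Tr) (z : Nat) (a : Nat → Nat) =>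
 (c z
 (c z
 (c z e
 (c z
 (c (a (nat_lit 0xf541716fb5c57fa1983)) e e)
 (c (a (nat_lit 0x8888888840b8534c2)) e e)))
 (c z
 (c (a (nat_lit 0xc2c2c2c2c89aa5e22)) e
 (c (a (nat_lit 0x1a1a1a3a5a588b385))
 (c z e
 (c z e
 (c z e
 (c z e
 (c z e
 (c z e
 (c z e
 (c z e
 (c z e
 (c z e
 (c z e
 (c (a (nat_lit 0x447290b68a5b5b90e67)) e e))))))))))))
 (c (a (nat_lit 0x1a1a6896a6692f5c4))
 (c z e
 (c z e
 (c z e
 (c z e
 (c z e
 (c z e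
 (c z e
 (c z e
 (c z e
 (c z e
 (c (a (nat_lit 0x867a98685969a884a07)) e e)))))))))))
 (c (a (nat_lit 0x2076aa8e56cee3384))
 (c z e
 (c z e
 (c z e
 (c z e
 (c z e
 (c z e
 (c z e
 (c z e
 (c z e
 (c z e
 (c z e
 (c (a (nat_lit 0x58e1345e00000000008)) e e))))))))))))
 (c z e
 (c z e
 (c (a (nat_lit 0x1476cb2848c84a50a4)) e
 (c z e
 (c z e
 (c z e
 (c z e
 (c z e
 (c z e
 (c z e
 (c (a (nat_lit 0xaae51b7d491319165)) e e)))))))))))))))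
 (c z
 (c (a (nat_lit 0x1212305632aff3364)) e
 (c (a (nat_lit 0x12244c3651350eec5)) e e))
 (c z
 (c z e
 (c (a (nat_lit 0x868268c34af18ed04)) e
 (c z e
 (c z e
 (c z e
 (c z e
 (c z e
 (c z e
 (c z e
 (c z e
 (c z e
 (c (a (nat_lit 0x7abcf89e90969f205)) e
 (c z e
 (c (a (nat_lit 0xac8929491d1ccee05)) e e))))))))))))))
 (c z
 (c z e
 (c z e
 (c z e
 (c z e
 (c z e
 (c z e
 (c z e
 (c z e
 (c z e
 (c z e
 (c (a (nat_lit 0xa8b6b0e4ed1129545)) e e)))))))))))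
 (c z e
 (c (a (nat_lit 0x80808080809d42))
 (c z e
 (c z e
 (c z e
 (c z e
 (c z e
 (c z e
 (c z e
 (c z e
 (c z e
 (c z e
 (c (a (nat_lit 0xa68aa8b6db2558006)) e e)))))))))))
 (c (a (nat_lit 0x606060606e70c3))
 (c z e
 (c z e
 (c z e
 (c z e
 (c z e
 (c z e
 (c z e
 (c z e
 (c (a (nat_lit 0x50447c5c8f9a5a166)) e
 (c (a (nat_lit 0x60707a91311400006)) e e))))))))))
 (c (a (nat_lit 0xc0c0c0d9771723))
 (c z e
 (c z e
 (c z e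
 (c z e
 (c z e
 (c z e
 (c (a (nat_lit 0x13b194784ca8c78825)) e e)))))))
 (c (a (nat_lit 0x383839a6ead6ae3)) e
 (c (a (nat_lit 0x36365eb13541242))
 (c z e
 (c (a (nat_lit 0x9acebc989caa53925)) e
 (c z e
 (c z e
 (c (a (nat_lit 0x1255f24ab767472005)) e
 (c z e
 (c (a (nat_lit 0xa69d6a00000000006)) e e)))))))
 (c (a (nat_lit 0x5660ceb762e5602))
 (c z e
 (c (a (nat_lit 0x9c5a5a68647b06926)) e
 (c z e
 (c z e
 (c (a (nat_lit 0x87825c76000000006)) e e)))))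
 (c z e
 (c (a (nat_lit 0x7e6cccc1051f323)) e
 (c (a (nat_lit 0xcf978bcfebfee83)) e
 (c z e
 (c (a (nat_lit 0xd0f3014ab8aaa84)) e
 (c (a (nat_lit 0x1b5e9c2cabab0da2)) e
 (c (a (nat_lit 0x104f07e606078643)) e
 (c (a (nat_lit 0x1304e02043828122)) e e))))))))))))))))))))
 (c z
 (c z
 (c (a (nat_lit 0xdadadb53390b9d3c2)) e
 (c (a (nat_lit 0x2828589ea89942b85))
 (c z e
 (c z e
 (c z e
 (c z e
 (c z e
 (c z e
 (c z e
 (c z e
 (c z e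
 (c z e
 (c (a (nat_lit 0x50928c5e68b56cc4c67)) e e)))))))))))
 (c (a (nat_lit 0x249f051e65cba7a64))
 (c z e
 (c z e
 (c z e
 (c z e
 (c z e
 (c z e
 (c z e
 (c z e
 (c z e
 (c z e
 (c z e
 (c (a (nat_lit 0x84a2a309cca60000008)) e e))))))))))))
 (c (a (nat_lit 0x4a867668a280b11c5)) e
 (c z e
 (c z e
 (c (a (nat_lit 0xfa9c72aae8ad3ab05)) e
 (c z e
 (c z e
 (c z e
 (c z e
 (c z e
 (c z e
 (c (a (nat_lit 0xeabcff9dad3105305)) e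
 (c z e
 (c (a (nat_lit 0x68bac4ae96b099086)) e e))))))))))))))))
 (c z
 (c z e
 (c z e
 (c z e
 (c z e
 (c z e
 (c z e
 (c z e
 (c z e
 (c z e
 (c z e
 (c z e
 (c (a (nat_lit 0x8508daf2d68070706)) e e))))))))))))
 (c z
 (c z e
 (c (a (nat_lit 0x9870daeec512acd66))
 (c z e
 (c z e
 (c z e
 (c (a (nat_lit 0xb57960f0f54346e5008)) e e))))
 (c z e
 (c z e
 (c (a (nat_lit 0x7894ef69def16d1e5)) e
 (c z e
 (c z e
 (c z e
 (c (a (nat_lit 0x1408c4678c8894b744)) e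
 (c (a (nat_lit 0x9ed8f6daaae189e05)) e
 (c (a (nat_lit 0x10d3147010ace48e45)) e
 (c z e
 (c (a (nat_lit 0xc6cb010f2f16e8a87)) e e)))))))))))))
 (c z
 (c z e
 (c z e
 (c z e
 (c (a (nat_lit 0x62bc59275d9afed46)) e
 (c z e
 (c z e
 (c (a (nat_lit 0x80e10aa484863a8a5)) e
 (c (a (nat_lit 0x1d7bf20d48e61550a4)) e
 (c (a (nat_lit 0x16b10da944543972e5)) e
 (c (a (nat_lit 0xae9e9e6c626c7d706)) e
 (c (a (nat_lit 0x8c8a92a4eb070ee67)) e e)))))))))))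
 (c (a (nat_lit 0x20202020203404))
 (c z e
 (c z e
 (c z e
 (c z e
 (c z e
 (c z e
 (c (a (nat_lit 0x1a077bf915fc3bba04)) e
 (c (a (nat_lit 0x98eeee752f9cbba65)) e e))))))))
 (c (a (nat_lit 0x20202020313025))
 (c z e
 (c z e
 (c z e
 (c z e
 (c z e
 (c (a (nat_lit 0x87858c4d16326ac5)) e e))))))
 (c (a (nat_lit 0x12121213493f5e5))
 (c (a (nat_lit 0x109575731690ee8b66)) e
 (c z e
 (c z e
 (c (a (nat_lit 0xc312d8c8a46c667e6)) e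
 (c z e
 (c z e
 (c z e
 (c (a (nat_lit 0x6acaf3bb471048926)) e e))))))))
 (c (a (nat_lit 0x222223b77191145))
 (c z e
 (c z e
 (c (a (nat_lit 0x15d2acd04acb878b86)) e e)))
 (c (a (nat_lit 0x60736aad2986c5))
 (c z e
 (c (a (nat_lit 0xb8d92c9ce0eacb3c6)) e e))
 (c (a (nat_lit 0x8c6df672cf6924))
 (c z e
 (c (a (nat_lit 0xc89e9c909a7921166)) e
 (c z e
 (c z e
 (c (a (nat_lit 0x16b3112b6ac4000006)) e e)))))
 (c (a (nat_lit 0x88d8f71ca282d24))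
 (c z e
 (c z e
 (c z e
 (c (a (nat_lit 0x10348c328a40000006)) e e))))
 (c z e
 (c z e
 (c (a (nat_lit 0x13d2b1b3db5571a5)) e
 (c z e
 (c z e
 (c (a (nat_lit 0xeeef089478d8784)) e
 (c (a (nat_lit 0x13d72844f0e5c243)) e
 (c z e
 (c (a (nat_lit 0xb8872a6a6608303)) e
 (c (a (nat_lit 0xa1ea7e780418002)) e e)))))))))))))))))))))
 C803))) Tr.c Tr.e (nat_lit 0) C.cx
noncomputable def C805 : Tr := beta% (fun (c : Nat → Tr → Tr → Tr) (e : Tr) (z : Nat) (a b : Nat → Nat) =>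
 (c (a (nat_lit 0x2020202021))
 (c z
 (c (a (nat_lit 0xe0e0e0f46e8ea3))
 (c z e
 (c z e
 (c z e
 (c z e
 (c z e
 (c z e
 (c z e
 (c z e
 (c z e
 (c z e
 (c z e
 (c z e
 (c (a (nat_lit 0x17bb77c6cd23a76005)) e e)))))))))))))
 (c (a (nat_lit 0x20203751717085))
 (c z e
 (c z e
 (c z e
 (c z e
 (c z e
 (c z e
 (c z e
 (c (a (nat_lit 0xdea0bb0ac132a9526)) e e))))))))
 (c (a (nat_lit 0x727300cec2fc066))
 (c z e
 (c z e
 (c z e
 (c z e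
 (c z e
 (c z e
 (c (a (nat_lit 0xa8a4a69ee0a56fae7)) e e)))))))
 (c (a (nat_lit 0x8f9765237fae085))
 (c z e
 (c z e
 (c z e
 (c z e
 (c z e
 (c z e
 (c z e
 (c z e
 (c (a (nat_lit 0xc686e929530200007)) e e))))))))) e))))
 (c z
 (c (a (nat_lit 0x203c1453f041c5)) e
 (c z e
 (c z e
 (c z e
 (c z e
 (c z e
 (c z e
 (c z e
 (c z e
 (c z e
 (c z e
 (c z e
 (c (b (nat_lit 0x10d7761fec246506)) e e)))))))))))))
 (c z e
 (c z e
 (c z e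
 (c z e
 (c z e
 (c z e
 (c (a (nat_lit 0x606060607742))
 (c (a (nat_lit 0x3e1c7e8e6875425)) e e)
 (c (a (nat_lit 0x2020203f82a4)) e
 (c (a (nat_lit 0x202030a2e265)) e
 (c (a (nat_lit 0x5e5fb9243ba83)) e
 (c (a (nat_lit 0x8e988080b1326)) e e)))))))))))))
 (c (nat_lit 1)
 (c z e
 (c z e
 (c z e
 (c z e
 (c z e
 (c z e
 (c (a (nat_lit 0x606060607ea4)) e
 (c (a (nat_lit 0x2020203ce784)) e
 (c (a (nat_lit 0x2035854325)) e
 (c (a (nat_lit 0x22237a7060985)) e e))))))))))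
 (c (a (nat_lit 0x20002001))
 (c z e
 (c z e
 (c z e
 (c z e
 (c (a (nat_lit 0x202020203305)) e
 (c (a (nat_lit 0x20202035c6e5)) e
 (c (a (nat_lit 0x202035e6e405)) e
 (c (a (nat_lit 0x1e1f005a36846)) e e))))))))
 (c (nat_lit 1)
 (c z e
 (c z e
 (c (a (nat_lit 0x202020203645)) e
 (c (a (nat_lit 0x2020203665e5)) e
 (c (a (nat_lit 0x14104265))
 (c z e
 (c (a (nat_lit 0x4a1c50bd4880406)) e e))
 (c (a (nat_lit 0x20336b2288a5))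
 (c (a (nat_lit 0x282a5122903e7a6)) e e)
 (c (a (nat_lit 0x354ef04cc16a5)) e e)))))))
 (c (a (nat_lit 0x6060606061))
 (c (a (nat_lit 0x202020203324)) e
 (c (a (nat_lit 0x2020203a2765)) e
 (c (a (nat_lit 0x202031e9a206)) e
 (c (a (nat_lit 0x5657d3989efc5))
 (c (a (nat_lit 0xbeb4eb996eb1324)) e e) e))))
 (c (nat_lit 1)
 (c (a (nat_lit 0x202038a14225)) e
 (c (a (nat_lit 0x1e1f44684a906)) e e))
 (c (a (nat_lit 0x20002001))
 (c (a (nat_lit 0x574f207cecda4))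
 (c (a (nat_lit 0xdbabfb885604103)) e
 (c (a (nat_lit 0xe500d4802204985)) e e)) e)
 (c (a (nat_lit 0x8080808081))
 (c z e
 (c z e
 (c z e
 (c z e
 (c z e
 (c z e
 (c z e
 (c z e
 (c z e
 (c z e
 (c z e
 (c z e
 (c (a (nat_lit 0x3c1e1200001)) e e)))))))))))))
 (c (a (nat_lit 0xa0a0a0a0a1))
 (c z e
 (c z e
 (c z e
 (c z e
 (c z e
 (c z e
 (c z e
 (c z e
 (c z e
 (c z e
 (c (a (nat_lit 0x154200a28001)) e
 (c (a (nat_lit 0x13c0a040000001)) e e))))))))))))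
 (c (a (nat_lit 0x2040404041))
 (c z e
 (c z e
 (c z e
 (c z e
 (c z e
 (c z e
 (c z e
 (c z e
 (c (b (nat_lit 0x1fe321bdaaa021)) e
 (c (a (nat_lit 0xb8a38a7400002)) e
 (c (a (nat_lit 0x14114000000002)) e e)))))))))))
 (c (a (nat_lit 0xe0e0e0e0e1))
 (c z e
 (c z e
 (c z e
 (c z e
 (c z e
 (c z e
 (c (a (nat_lit 0x5adccca5a89e3)) e
 (c (a (nat_lit 0x108ba22160e001)) e
 (c (a (nat_lit 0xb61e080000001)) e e)))))))))
 (c (nat_lit 1)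
 (c z e
 (c z e
 (c z e
 (c z e
 (c (a (nat_lit 0xf115130ee6cc5)) e
 (c (a (nat_lit 0x11d14040202003)) e
 (c (a (nat_lit 0x11808040200003)) e
 (c (a (nat_lit 0x1a08000000001)) e e))))))))
 (c (a (nat_lit 0x20002001))
 (c z e
 (c z e
 (c (a (nat_lit 0x1516361615f366)) e
 (c (a (nat_lit 0x15b520a0808003)) e
 (c (a (nat_lit 0x14a04020202003)) e
 (c (a (nat_lit 0x3c3c1a0000001)) e
 (c (a (nat_lit 0x2200000000001)) e e)))))))
 (c (a (nat_lit 0x2021))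
 (c (a (nat_lit 0x1151d1d1d1af66)) e
 (c (a (nat_lit 0x1844c2e4e566c3)) e
 (c (a (nat_lit 0x22041e42aa021)) e
 (c (a (nat_lit 0x1076f9b0200001)) e
 (c (a (nat_lit 0x1029a000000001)) e e)))))
 (c (a (nat_lit 0xa0a0a0a0a1)) e
 (c (a (nat_lit 0x6060606061)) e
 (c (a (nat_lit 0x4040404041)) e
 (c (a (nat_lit 0x2021)) e
 (c (a (nat_lit 0x2020203c41)) e
 (c (a (nat_lit 0x202e3b62)) e
 (c (a (nat_lit 0x6edb103)) e
 (c (a (nat_lit 0x68d50b043)) e e))))))))))))))))))))))) Tr.c Tr.e (nat_lit 0) C.cx C.cy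
noncomputable def C806 : Tr := beta% (fun (c : Nat → Tr → Tr → Tr) (e : Tr) (z : Nat) (a b : Nat → Nat) =>
 (c z
 (c z
 (c (a (nat_lit 0x5858582edcac51002)) e
 (c (a (nat_lit 0x30302e928c4b45b44)) e e))
 (c z
 (c z e
 (c z e
 (c z e
 (c z e
 (c z e
 (c z e
 (c z e
 (c z e
 (c z e
 (c z e
 (c (a (nat_lit 0xf8aabe4c865a35c85)) e
 (c (a (nat_lit 0x1dbf7939965494b2e5)) e e))))))))))))
 (c z
 (c z e
 (c z e
 (c z e
 (c z e
 (c z e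
 (c z e
 (c z e
 (c z e
 (c z e
 (c (a (nat_lit 0x1192ef700da9de5fa5)) e
 (c (a (nat_lit 0xf6e6f8d2b4a275306)) e e)))))))))))
 (c z
 (c z e
 (c z e
 (c z e
 (c z e
 (c z e
 (c z e
 (c z e
 (c (a (nat_lit 0x175609c5624206ba65)) e
 (c (a (nat_lit 0xda885a302edf48c46)) e e)))))))))
 (c (a (nat_lit 0x20202020203265))
 (c z e
 (c z e
 (c z e
 (c z e
 (c z e
 (c (a (nat_lit 0x7a772caecca4c48c6)) e
 (c (a (nat_lit 0x3d76a6ea969ca6425)) e e)))))))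
 (c (a (nat_lit 0x202020203c74c4))
 (c z e
 (c z e
 (c z e
 (c z e
 (c (a (nat_lit 0x8257e549e9c66906)) e e)))))
 (c (a (nat_lit 0x101010115b1ea25)) e
 (c (a (nat_lit 0x1e1e1fe106e7065)) e
 (c (a (nat_lit 0x1213e0c66717724)) e
 (c z e
 (c z e
 (c z e
 (c z e
 (c z e
 (c z e
 (c z e
 (c z e
 (c (a (nat_lit 0xe9091aced634683)) e
 (c (a (nat_lit 0x1d9ff73601880182)) e
 (c (a (nat_lit 0x1d54f3c062602342)) e
 (c z e
 (c (a (nat_lit 0x1682856064602002)) e e))))))))))))))))))))))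
 (c z
 (c z
 (c z e
 (c z e
 (c z e
 (c z e
 (c z e
 (c z e
 (c z e
 (c z e
 (c z e
 (c (a (nat_lit 0x108e2a662447852685)) e
 (c (a (nat_lit 0x126c2a090967935ba5)) e
 (c (a (nat_lit 0xf4cc9caa9a84cb1c5)) e
 (c (a (nat_lit 0xb2cf351743350bc66)) e e)))))))))))))
 (c z
 (c z e
 (c z e
 (c z e
 (c z e
 (c z e
 (c z e
 (c z e
 (c z e
 (c (a (nat_lit 0x113062a34622c4cb06)) e
 (c (a (nat_lit 0x120505e6a54fee6b26)) e e))))))))))
 (c (a (nat_lit 0x202020202035c5))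
 (c z e
 (c z e
 (c z e
 (c z e
 (c z e
 (c z e
 (c (a (nat_lit 0x1635718f440af88ba5)) e
 (c (a (nat_lit 0xb88a722a289b16946)) e e))))))))
 (c (a (nat_lit 0x20202020316926))
 (c z e
 (c z e
 (c z e
 (c z e
 (c z e
 (c z e
 (c (a (nat_lit 0x13c7e866e5eb85c106)) e e)))))))
 (c (a (nat_lit 0x202020338e69a6)) e
 (c (a (nat_lit 0x20203691ac1086)) e
 (c (a (nat_lit 0x3768495096c6)) e
 (c z e
 (c z e
 (c z e
 (c z e
 (c z e
 (c z e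
 (c z e
 (c z e
 (c (a (nat_lit 0xb8a33cd87a02205)) e
 (c (a (nat_lit 0x9930ec961e3e3c5)) e
 (c (a (nat_lit 0x136f49c244242385)) e e))))))))))))))))))
 (c z
 (c (a (nat_lit 0x20202020203564))
 (c z e
 (c z e
 (c z e
 (c z e
 (c z e
 (c z e
 (c z e
 (c z e
 (c z e
 (c z e
 (c z e
 (c z e
 (c z e
 (c z e
 (c (a (nat_lit 0xf39cc88caa0000005)) e e)))))))))))))))
 (c (a (nat_lit 0x20202020392ae5))
 (c z e
 (c z e
 (c z e
 (c z e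
 (c z e
 (c z e
 (c (a (nat_lit 0x154e63e26184e5ad66)) e
 (c (a (nat_lit 0x1e67084488bf3638e5)) e e))))))))
 (c (a (nat_lit 0x202020372daaa6))
 (c z e
 (c z e
 (c z e
 (c z e
 (c z e
 (c (b (nat_lit 0x14e9e73ffff9e77045)) e e))))))
 (c (a (nat_lit 0x202037cf89aae6))
 (c z e
 (c z e
 (c z e
 (c z e
 (c (a (nat_lit 0xc6107f2310a482366)) e e)))))
 (c (a (nat_lit 0x2223a4f296bb6e6)) e
 (c z e
 (c z e
 (c z e
 (c z e
 (c z e
 (c z e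
 (c z e
 (c z e
 (c z e
 (c (a (nat_lit 0xc0e7bf80be12125)) e
 (c (a (nat_lit 0xd5ad6eac02020e5)) e e))))))))))))))))
 (c z
 (c (a (nat_lit 0x20202035cba905)) e
 (c (a (nat_lit 0xa0a0bcae8b0cc6)) e
 (c (a (nat_lit 0x203a4d0707b1c6)) e e)))
 (c z
 (c (a (nat_lit 0x2037cfebefc065)) e e)
 (c z e
 (c z
 (c z e
 (c z e
 (c z e
 (c z e
 (c z e
 (c z e
 (c (a (nat_lit 0x72a2e0a89aad0a5)) e e)))))))
 (c z e
 (c z e
 (c z e
 (c z e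
 (c z e
 (c (a (nat_lit 0x202020203484)) e
 (c (a (nat_lit 0x40404055a884)) e
 (c (a (nat_lit 0xacacad5ea0404)) e
 (c (a (nat_lit 0x7677084a094c4)) e e))))))))))))))))) Tr.c Tr.e (nat_lit 0) C.cx C.cy
noncomputable def C807 : Tr := beta% (fun (c : Nat → Tr → Tr → Tr) (e : Tr) (z : Nat) (a b : Nat → Nat) =>
 (c z
 (c z
 (c z e
 (c z e
 (c z e
 (c z e
 (c z e
 (c z e
 (c z e
 (c z e
 (c z e
 (c (a (nat_lit 0x11f48f0445c22283a5)) e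
 (c (a (nat_lit 0x19b36889066463a7a5)) e e)))))))))))
 (c z
 (c z e
 (c z e
 (c z e
 (c z e
 (c z e
 (c z e
 (c z e
 (c z e
 (c (a (nat_lit 0x185f292fc4cb278485)) e e)))))))))
 (c z
 (c z e
 (c z e
 (c z e
 (c z e
 (c z e
 (c z e
 (c z e
 (c (a (nat_lit 0x133911320d2c4ab186)) e
 (c (a (nat_lit 0x1149ad2582e62b51a6)) e e)))))))))
 (c (a (nat_lit 0x202020202030a6))
 (c z e
 (c z e
 (c z e
 (c z e
 (c z e
 (c z e
 (c (a (nat_lit 0x11b0d4f2f6ae3475e5)) e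
 (c (a (nat_lit 0x1036900b4d9695b765)) e e))))))))
 (c (a (nat_lit 0x202020203fb3e5))
 (c z e
 (c z e
 (c z e
 (c z e
 (c z e
 (c (a (nat_lit 0x2a3e809c377e9c6a5)) e
 (c (a (nat_lit 0x62666a571cc450726)) e e)))))))
 (c (a (nat_lit 0x20202038f30b66)) e
 (c (a (nat_lit 0x20203d68e735c6)) e
 (c (a (nat_lit 0x2033e7a2b18fc6)) e
 (c z e
 (c z e
 (c z e
 (c z e
 (c z e
 (c z e
 (c z e
 (c z e
 (c z e
 (c (a (nat_lit 0x149e1626a6e26265)) e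
 (c z e
 (c (a (nat_lit 0x1a6aeb46668525a5)) e e))))))))))))))))))))
 (c z
 (c z
 (c z e
 (c z e
 (c z e
 (c z e
 (c z e
 (c z e
 (c z e
 (c z e
 (c z e
 (c z e
 (c (a (nat_lit 0x15d8967212981757e5)) e
 (c z e
 (c (a (nat_lit 0xd1212131591abb2c7)) e e)))))))))))))
 (c (a (nat_lit 0x202020202035a5))
 (c z e
 (c z e
 (c z e
 (c z e
 (c z e
 (c z e
 (c z e
 (c (a (nat_lit 0x6d7ab0dc48b343c85)) e
 (c (a (nat_lit 0x142a5023b4f2798485)) e e)))))))))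
 (c (a (nat_lit 0x202020203eeb85))
 (c z e
 (c z e
 (c z e
 (c z e
 (c z e
 (c z e
 (c (a (nat_lit 0xceb258569b1500cc5)) e
 (c (a (nat_lit 0x112887be9f577ccfe5)) e e))))))))
 (c (a (nat_lit 0x20202039706986))
 (c z e
 (c z e
 (c z e
 (c z e
 (c z e
 (c (a (nat_lit 0xd6542e36950870446)) e e))))))
 (c (a (nat_lit 0x2020384c2487e6))
 (c z e
 (c z e
 (c z e
 (c (a (nat_lit 0xee2ab9c9ad27d386)) e e))))
 (c (a (nat_lit 0x2627689e80c7166)) e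
 (c (b (nat_lit 0x186bffeaf89405))
 (c (a (nat_lit 0x8900889c161066406)) e
 (c z e
 (c z e
 (c z e
 (c z e
 (c (a (nat_lit 0x12d42e683fbac00007)) e e))))))
 (c z e
 (c z e
 (c z e
 (c z e
 (c z e
 (c z e
 (c z e
 (c z e
 (c z e
 (c (a (nat_lit 0x96c861301050004)) e
 (c z e
 (c z e
 (c (a (nat_lit 0x15c40863c4400004)) e e))))))))))))))))))))
 (c z
 (c (a (nat_lit 0x404040405769c4))
 (c z e
 (c z e
 (c z e
 (c z e
 (c z e
 (c z e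
 (c (a (nat_lit 0x569882aab11cd8da5)) e e)))))))
 (c (a (nat_lit 0x2020203a4ca346)) e
 (c (a (nat_lit 0x20203b8fe727c6))
 (c z e
 (c z e
 (c z e
 (c z e
 (c (a (nat_lit 0x114d0231fdcef18ec5)) e e)))))
 (c (a (nat_lit 0x161768fe6688ec6)) e
 (c z e
 (c z e
 (c z e
 (c z e
 (c z e
 (c z e
 (c z e
 (c z e
 (c z e
 (c (a (nat_lit 0x10c4c064c242e4c4)) e e))))))))))))))
 (c z
 (c (a (nat_lit 0x20203c6ca084c5))
 (c z e
 (c z e
 (c z e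
 (c z e
 (c z e
 (c (a (nat_lit 0xac562294e96ca6ba5)) e e))))))
 (c (a (nat_lit 0x3a92a7080706)) e e))
 (c z
 (c (b (nat_lit 0x58d8dfeb6580a5))
 (c z e
 (c z e
 (c z e
 (c (a (nat_lit 0xb4a2fceb1d105c5c6)) e
 (c (a (nat_lit 0x26b13cee6e9d5f6a5)) e e))))) e)
 (c z e
 (c z e
 (c z e
 (c z e
 (c z e
 (c z e
 (c z e
 (c (a (nat_lit 0x202020203544)) e
 (c (a (nat_lit 0x2020203661a3))
 (c z e
 (c z e
 (c (a (nat_lit 0x1b9bf98000000006)) e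
 (c (a (nat_lit 0x16c0000000000003)) e e))))
 (c (b (nat_lit 0x2020325fffe3))
 (c (a (nat_lit 0x14b5543580000007)) e
 (c (a (nat_lit 0xec0c00000000001)) e e))
 (c (a (nat_lit 0x222346a01af64)) e
 (c (a (nat_lit 0x22b4621e8d085)) e e)))))))))))))))))) Tr.c Tr.e (nat_lit 0) C.cx C.cy
noncomputable def C808 : Tr := beta% (fun (c : Nat → Tr → Tr → Tr) (e : Tr) (z : Nat) (a b : Nat → Nat) =>
 (c z
 (c z
 (c (a (nat_lit 0x128cedd1135a9c1b14c2)) e e)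
 (c (a (nat_lit 0x646464646465f0b42))
 (c z e
 (c z e
 (c z e
 (c z e
 (c z e
 (c z e
 (c z e
 (c z e
 (c z e
 (c z e
 (c z e
 (c z e
 (c z e
 (c z e
 (c (a (nat_lit 0x6268747872773124788)) e e)))))))))))))))
 (c (a (nat_lit 0x707070707188d2c42)) e
 (c (a (nat_lit 0x666666679e9aff042)) e
 (c (a (nat_lit 0x42424310cc909daa3))
 (c z e
 (c z e
 (c z e
 (c z e
 (c z e
 (c z e
 (c z e
 (c (a (nat_lit 0x1c383a3e3e264a67da6)) e e))))))))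
 (c (a (nat_lit 0x1a1af8a046430ae04))
 (c z e
 (c z e
 (c z e
 (c z e
 (c z e
 (c z e
 (c (a (nat_lit 0x443c243c282e73b7ce6)) e e)))))))
 (c z e
 (c z e
 (c z e
 (c z e
 (c z e
 (c z e
 (c (a (nat_lit 0x1252c1038180e404a4)) e
 (c (a (nat_lit 0x130c0b8bea454405a4)) e
 (c (a (nat_lit 0x1e7e1f794ecd8c6a64)) e
 (c (a (nat_lit 0x13d4d590d0b02910e5)) e
 (c (a (nat_lit 0x545e72e50ebcc6b25)) e e)))))))))))))))))
 (c z
 (c (a (nat_lit 0x22222222232c6ca04)) e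
 (c (a (nat_lit 0x2222222364c6dbaa5))
 (c z e
 (c z e
 (c z e
 (c z e
 (c z e
 (c z e
 (c z e
 (c z e
 (c z e
 (c z e
 (c z e
 (c (a (nat_lit 0x545a90b0c4864ea1268)) e e))))))))))))
 (c (a (nat_lit 0x20202170cad8b9ee5))
 (c z e
 (c z e
 (c z e
 (c z e
 (c z e
 (c z e
 (c z e
 (c z e
 (c z e
 (c z e
 (c (a (nat_lit 0x629aa0b470551117308)) e e)))))))))))
 (c (a (nat_lit 0x202176fed6ab61585))
 (c z e
 (c z e
 (c z e
 (c z e
 (c z e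
 (c z e
 (c z e
 (c (a (nat_lit 0x3456789238604f22c67)) e
 (c (a (nat_lit 0xb2c48c90468188912e7)) e
 (c (a (nat_lit 0x1071136ba79df21c53c7)) e e))))))))))
 (c z e
 (c z e
 (c z e
 (c z e
 (c z e
 (c z e
 (c z e
 (c z e
 (c (a (nat_lit 0x121d16d2122f2a86e5)) e
 (c (a (nat_lit 0x19b7f6b2d1afec2e26)) e
 (c z e
 (c z e
 (c (a (nat_lit 0x102d0684c0e120c044)) e e)))))))))))))))))
 (c z
 (c (a (nat_lit 0x121212b65e4743c65)) e
 (c (a (nat_lit 0x14147c50349d53186))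
 (c z e
 (c z e
 (c z e
 (c z e
 (c z e
 (c z e
 (c z e
 (c (a (nat_lit 0x302a366022384e5f547)) e
 (c (a (nat_lit 0x4c4454743e506f12ee7)) e
 (c (a (nat_lit 0x7a84784c307122a4a47)) e
 (c (a (nat_lit 0xbeed0a506e86b2e9127)) e
 (c (a (nat_lit 0x589472607b0ee600008)) e e))))))))))))
 (c z e
 (c z e
 (c z e
 (c z e
 (c z e
 (c z e
 (c z e
 (c z e
 (c z e
 (c (b (nat_lit 0x14dcb97feb65a2e385)) e e))))))))))))
 (c z
 (c (a (nat_lit 0x32f2aa8c9161f4ea4)) e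
 (c z e
 (c z e
 (c z e
 (c z e
 (c z e
 (c z e
 (c z e
 (c (a (nat_lit 0x19afad0de7514ac644)) e
 (c z e
 (c (b (nat_lit 0x6493ff0ec0726c565)) e e)))))))))))
 (c z
 (c z e
 (c z e
 (c z e
 (c z e
 (c z e
 (c z e
 (c z e
 (c z e
 (c (a (nat_lit 0x98d492e8d08875cc5)) e e)))))))))
 (c z e
 (c z
 (c z e
 (c z e
 (c z e
 (c z e
 (c z e
 (c z e
 (c (a (nat_lit 0x568d2ad0b137591c5)) e e)))))))
 (c (a (nat_lit 0x202020202031a5))
 (c z e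
 (c z e
 (c z e
 (c z e
 (c z e
 (c (a (nat_lit 0x5cdeccbd350882665)) e e))))))
 (c (a (nat_lit 0x20202020350945))
 (c z e
 (c z e
 (c z e
 (c (a (nat_lit 0x78dac4a0f8fd3e0c5)) e e))))
 (c (a (nat_lit 0x202020364884a5)) e
 (c (a (nat_lit 0x606073eb02eda4)) e
 (c (a (nat_lit 0x2fe542ad9484))
 (c (a (nat_lit 0x3a4640462a3c4d346)) e e)
 (c (a (nat_lit 0x2e4641cdf8d0a4)) e
 (c z e
 (c z e
 (c z e
 (c z e
 (c z e
 (c (a (nat_lit 0x154ee84de64221a4)) e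
 (c (a (nat_lit 0x1b0df90981c209e3)) e
 (c (a (nat_lit 0xc97c84020286aa3)) e
 (c (a (nat_lit 0x19ea62a30b4d9503)) e e))))))))))))))))))))))) Tr.c Tr.e (nat_lit 0) C.cx C.cy
noncomputable def C809 : Tr := beta% (fun (c : Nat → Tr → Tr → Tr) (e : Tr) (z : Nat) (a b : Nat → Nat) =>
 (c (a (nat_lit 0x2020202021))
 (c z C808
 (c z
 (c z
 (c (a (nat_lit 0x3838383932aead083)) e
 (c (a (nat_lit 0x2626275adaeb35d25))
 (c z e
 (c z e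
 (c z e
 (c z e
 (c z e
 (c z e
 (c z e
 (c z e
 (c z e
 (c z e
 (c (a (nat_lit 0x2caadca27046a0c9867)) e
 (c (a (nat_lit 0x60b8c8e4de72c94d088)) e e))))))))))))
 (c (a (nat_lit 0x10109a7e704d091c6))
 (c z e
 (c z e
 (c z e
 (c z e
 (c z e
 (c z e
 (c z e
 (c (a (nat_lit 0x441a5c6444326475327)) e
 (c (a (nat_lit 0x365c903c22586b55be7)) e
 (c (a (nat_lit 0xc2e07446589d4b47647)) e
 (c (a (nat_lit 0xc0b2d49865758b90968)) e e)))))))))))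
 (c z e
 (c z e
 (c z e
 (c z e
 (c z e
 (c z e
 (c z e
 (c z e
 (c z e
 (c (a (nat_lit 0x163212f0102fea47c5)) e
 (c (a (nat_lit 0x1756f755f7b54fd366)) e
 (c z e
 (c (a (nat_lit 0xa10591bd6f4d45ae6)) e e))))))))))))))))
 (c z
 (c (a (nat_lit 0x1212ac7878f710b06))
 (c z e
 (c z e
 (c z e
 (c z e
 (c z e
 (c z e
 (c z e
 (c z e
 (c (a (nat_lit 0x3a2c42745c388ea1267)) e
 (c (a (nat_lit 0x4a529c96689e8782ce7)) e
 (c (a (nat_lit 0x74b4b062609aa9c0d07)) e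
 (c (a (nat_lit 0xb4e4faf650eb1fc2807)) e e))))))))))))
 (c z e
 (c z e
 (c z e
 (c z e
 (c z e
 (c z e
 (c z e
 (c z e
 (c z e
 (c (a (nat_lit 0xf518b8be82b87c546)) e e)))))))))))
 (c z
 (c z e
 (c z e
 (c z e
 (c z e
 (c z e
 (c z e
 (c z e
 (c z e
 (c z e
 (c (a (nat_lit 0x786c82bc443a47586)) e e))))))))))
 (c z e
 (c z
 (c z e
 (c z e
 (c z e
 (c z e
 (c z e
 (c z e
 (c z e
 (c (a (nat_lit 0x766cc07a296b90586)) e e))))))))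
 (c (a (nat_lit 0x20202020203606)) e
 (c (a (nat_lit 0x20202020382f46)) e
 (c (a (nat_lit 0x20202031a80767)) e
 (c (a (nat_lit 0x2020396a460aa6)) e
 (c (a (nat_lit 0x3048e5aae8a6)) e
 (c z e
 (c z e
 (c z e
 (c z e
 (c z e
 (c z e
 (c z e
 (c z e
 (c (a (nat_lit 0x71acd67a7662485)) e
 (c (a (nat_lit 0x1669034301c04085)) e e))))))))))))))))))))
 C807))
 (c (a (nat_lit 0x8080808081)) C806
 (c (a (nat_lit 0x4040404041))
 (c z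
 (c z
 (c z e
 (c z e
 (c z e
 (c z e
 (c z e
 (c z e
 (c z e
 (c z e
 (c z e
 (c z e
 (c z e
 (c z e
 (c (a (nat_lit 0x38909a7ae0c1029a5)) e
 (c z e
 (c (a (nat_lit 0x2e2c4842423a47587)) e e)))))))))))))))
 (c (a (nat_lit 0x20202020203a83))
 (c z e
 (c z e
 (c z e
 (c z e
 (c z e
 (c z e
 (c z e
 (c z e
 (c z e
 (c (a (nat_lit 0x52626414487277165)) e e))))))))))
 (c (a (nat_lit 0xc0c0c0c0deb264))
 (c z e
 (c z e
 (c z e
 (c z e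
 (c z e
 (c z e
 (c z e
 (c (a (nat_lit 0x118bea6a076d6b2846)) e e))))))))
 (c (a (nat_lit 0x2020203d551225)) e
 (c (a (nat_lit 0x2020334e68d9a5))
 (c z e
 (c z e
 (c z e
 (c z e
 (c (a (nat_lit 0x54705ada3e3275a05)) e
 (c (a (nat_lit 0x963c88ced0e52b885)) e e))))))
 (c (a (nat_lit 0x2425a5750fcdae5)) e
 (c z e
 (c z e
 (c z e
 (c z e
 (c z e
 (c z e
 (c z e
 (c z e
 (c z e
 (c (a (nat_lit 0x1cdb91a926464524)) e
 (c (a (nat_lit 0x174d63204040c004)) e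
 (c (a (nat_lit 0x1d88e3438482e0e3)) e e))))))))))))))))))
 (c z
 (c (a (nat_lit 0xe0e0e0e0f97be3)) e
 (c (a (nat_lit 0x20202035121046))
 (c z e
 (c z e
 (c z e
 (c z e
 (c z e
 (c z e
 (c (a (nat_lit 0x14ab8caccdaa8f95e6)) e e)))))))
 (c (a (nat_lit 0x2020348f6c5266))
 (c z e
 (c z e
 (c z e
 (c z e
 (c z e
 (c (a (nat_lit 0xe694b906c8909f506)) e e))))))
 (c (a (nat_lit 0x2031ad274fa926))
 (c z e
 (c z e
 (c z e
 (c z e
 (c z e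
 (c (a (nat_lit 0x2a383c82663a8f568)) e
 (c (a (nat_lit 0x828ae116bcdcfd927)) e e)))))))
 (c z e
 (c z e
 (c z e
 (c z e
 (c z e
 (c z e
 (c z e
 (c z e
 (c z e
 (c z e
 (c (a (nat_lit 0xa73ada581422226)) e e)))))))))))))))
 (c z
 (c (a (nat_lit 0xa0a0bdb8377665)) e
 (c (a (nat_lit 0x1415eb735388726)) e e))
 (c z
 (c z e
 (c z e
 (c z e
 (c z e
 (c z e
 (c z e
 (c z e
 (c z e
 (c z e
 (c z e
 (c z e
 (c z e
 (c z e
 (c z e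
 (c (a (nat_lit 0x1d720180a08ca023)) e e)))))))))))))))
 (c z e
 (c z e
 (c z e
 (c z e
 (c z e
 (c z e
 (c (a (nat_lit 0x404040405cc4)) e
 (c (a (nat_lit 0x4040405ce8c4)) e
 (c (b (nat_lit 0x20203ff22003)) e
 (c (a (nat_lit 0x5656385645565)) e e))))))))))))))
 C805)))) Tr.c Tr.e (nat_lit 0) C.cx C.cy
noncomputable def C810 : Tr := beta% (fun (c : Nat → Tr → Tr → Tr) (e : Tr) (z : Nat) (a b : Nat → Nat) =>
 (c z
 (c z
 (c (a (nat_lit 0x2222665a4b40c8d44)) e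
 (c z e
 (c z e
 (c z e
 (c z e
 (c z e
 (c z e
 (c z e
 (c z e
 (c (a (nat_lit 0xa97aac6e1c101e244)) e
 (c (a (nat_lit 0x1cb20de62426a461e4)) e
 (c (a (nat_lit 0x1f1d3835f2f06d8e04)) e e))))))))))))
 (c z
 (c z e
 (c z e
 (c z e
 (c z e
 (c z e
 (c z e
 (c z e
 (c z e
 (c z e
 (c (a (nat_lit 0x159d55cf44ea062485)) e e))))))))))
 (c z
 (c z e
 (c z e
 (c z e
 (c z e
 (c z e
 (c z e
 (c z e
 (c (a (nat_lit 0x8b195f84e69694b25)) e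
 (c (a (nat_lit 0x1011b82f2686079165)) e
 (c (a (nat_lit 0x14da32acca69a60085)) e e))))))))))
 (c z
 (c z e
 (c z e
 (c z e
 (c z e
 (c z e
 (c z e
 (c (a (nat_lit 0xe6c8af00b68c8d724)) e
 (c (a (nat_lit 0x64f130b62019932e4)) e
 (c (a (nat_lit 0x12d191adaacc820fc5)) e e)))))))))
 (c (a (nat_lit 0x202020202034e4))
 (c z e
 (c z e
 (c z e
 (c z e
 (c z e
 (c (a (nat_lit 0x16986ac05654f32c4)) e
 (c (a (nat_lit 0xa88caa6e38e4d93c5)) e e)))))))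
 (c (a (nat_lit 0x20202020314bc5))
 (c z e
 (c z e
 (c z e
 (c z e
 (c (a (nat_lit 0x185a649e5edb06025)) e
 (c z e
 (c z e
 (c (a (nat_lit 0x102cd2307d88472b66)) e e))))))))
 (c (a (nat_lit 0x2020203ca34185)) e
 (c (a (nat_lit 0x60606fe7e13365)) e
 (c (a (nat_lit 0x202a28a133ae05)) e
 (c z e
 (c z e
 (c z e
 (c z e
 (c z e
 (c z e
 (c z e
 (c z e
 (c (a (nat_lit 0xecf5571ea014184)) e
 (c z e
 (c (a (nat_lit 0x149129406081c084)) e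
 (c z e
 (c (a (nat_lit 0x112020a340600003)) e e))))))))))))))))))))))
 (c z
 (c z
 (c z e
 (c z e
 (c z e
 (c z e
 (c z e
 (c z e
 (c z e
 (c z e
 (c z e
 (c z e
 (c (a (nat_lit 0x1011d410f26eca8da5)) e e)))))))))))
 (c z
 (c z e
 (c z e
 (c z e
 (c z e
 (c z e
 (c z e
 (c z e
 (c (a (nat_lit 0x143d322d23c8e832c4)) e
 (c (a (nat_lit 0x10ad4a840725629425)) e e)))))))))
 (c (a (nat_lit 0x20202020203325))
 (c z e
 (c z e
 (c z e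
 (c z e
 (c z e
 (c z e
 (c z e
 (c (a (nat_lit 0x140f68476465892625)) e e))))))))
 (c (a (nat_lit 0x20202020394c44)) e
 (c (a (nat_lit 0x40404058cde1a5))
 (c z e
 (c z e
 (c z e
 (c z e
 (c z e
 (c (a (nat_lit 0x11ef296264aa2e92a5)) e e))))))
 (c (a (nat_lit 0x20203823c2eac5)) e
 (c (a (nat_lit 0x12131a72127b105)) e
 (c z e
 (c z e
 (c z e
 (c z e
 (c z e
 (c z e
 (c z e
 (c z e
 (c z e
 (c (a (nat_lit 0xbac512a25202004)) e e)))))))))))))))))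
 (c z
 (c (a (nat_lit 0x40404040405963)) e
 (c (a (nat_lit 0x2020202037a6a5))
 (c z e
 (c z e
 (c z e
 (c z e
 (c z e
 (c z e
 (c z e
 (c (a (nat_lit 0xa43c4654969c791c6)) e e))))))))
 (c (a (nat_lit 0x202020360ac165))
 (c z e
 (c z e
 (c z e
 (c z e
 (c (a (nat_lit 0xd92aaea4bcdada465)) e e)))))
 (c (a (nat_lit 0x3838398b2268aa5))
 (c z e
 (c z e
 (c z e
 (c (a (nat_lit 0x1a8fd351924d870465)) e e))))
 (c (a (nat_lit 0x809564e4e9f485)) e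
 (c z e
 (c z e
 (c z e
 (c z e
 (c z e
 (c z e
 (c z e
 (c z e
 (c (a (nat_lit 0xc4c2a2cb100a104)) e
 (c (a (nat_lit 0xc0a6d11a1418224)) e
 (c (b (nat_lit 0x1055bebfe0204043)) e
 (c z e
 (c (a (nat_lit 0x1e4020c34020c003)) e e))))))))))))))))))
 (c z
 (c (a (nat_lit 0x2020203cc880a4))
 (c z e
 (c z e
 (c z e
 (c z e
 (c z e
 (c (a (nat_lit 0x1dac4e0c512b0227c4)) e e))))))
 (c (a (nat_lit 0x323233cd0e30a05))
 (c z e
 (c z e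
 (c z e
 (c (a (nat_lit 0xc5c096692ca61c105)) e
 (c z e
 (c (a (nat_lit 0x72505672ae68d91a6)) e
 (c z e
 (c z e
 (c (a (nat_lit 0x32503a48335a7a787)) e e)))))))))
 (c (a (nat_lit 0x2223e33a3ebcb65)) e
 (c z e
 (c z e
 (c z e
 (c z e
 (c z e
 (c z e
 (c z e
 (c z e
 (c z e
 (c z e
 (c (a (nat_lit 0x45390816089aec2)) e e))))))))))))))
 (c z
 (c (a (nat_lit 0x18197d480e44564))
 (c z e
 (c z e
 (c z e
 (c z e
 (c z e
 (c (a (nat_lit 0x1c0a36522c2c69046)) e e)))))) e)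
 (c z e
 (c z e
 (c z e
 (c z e
 (c z e
 (c z e
 (c z e
 (c z e
 (c z
 (c z e
 (c z e
 (c (a (nat_lit 0x127513b380000006)) e
 (c (a (nat_lit 0x1a41600000000002)) e e))))
 (c (a (nat_lit 0x1e1e1e2006021))
 (c (a (nat_lit 0x125293d2f3600006)) e
 (c (a (nat_lit 0x936a2000000002)) e e))
 (c (a (nat_lit 0x606072320a22)) e
 (c (a (nat_lit 0xc0cfd0aa6ec2)) e e)))))))))))))))))) Tr.c Tr.e (nat_lit 0) C.cx C.cy
noncomputable def C811 : Tr := beta% (fun (c : Nat → Tr → Tr → Tr) (e : Tr) (z : Nat) (a b : Nat → Nat) =>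
 (c z
 (c (a (nat_lit 0x1c1c1c1c1c1d848e4)) e
 (c (a (nat_lit 0x1e1e1e1e1f9e94a05))
 (c z e
 (c z e
 (c z e
 (c z e
 (c z e
 (c z e
 (c z e
 (c z e
 (c z e
 (c z e
 (c z e
 (c (a (nat_lit 0x7e8c9129654aac74487)) e
 (c (a (nat_lit 0x4c6074973f087286b88)) e e)))))))))))))
 (c (a (nat_lit 0x1e1e1e1fb4a88cc05)) e
 (c (a (nat_lit 0x1a1a1be0d29eb1d45))
 (c z e
 (c z e
 (c z e
 (c z e
 (c z e
 (c z e
 (c z e
 (c (a (nat_lit 0x1446b8ea7c3e54a5d26)) e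
 (c (a (nat_lit 0x32c4ca606a0a6168427)) e
 (c (a (nat_lit 0x7cfeecf8564f020b527)) e e))))))))))
 (c (a (nat_lit 0xe0f52aa6896849a6))
 (c z e
 (c z e
 (c z e
 (c z e
 (c z e
 (c z e
 (c (a (nat_lit 0x1e363a26181a4ab1148)) e
 (c z e
 (c (a (nat_lit 0xfd1b2cae98f84f88b67)) e e)))))))))
 (c z e
 (c z e
 (c z e
 (c z e
 (c z e
 (c z e
 (c z e
 (c (a (nat_lit 0xf579bd34ecb476525)) e
 (c (a (nat_lit 0x19dbf88ead28068ac6)) e
 (c z e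
 (c (b (nat_lit 0xd8f31177ff12cd566)) e e))))))))))))))))
 (c z
 (c (a (nat_lit 0x10101010d64e396a5))
 (c z e
 (c z e
 (c z e
 (c z e
 (c z e
 (c z e
 (c z e
 (c z e
 (c z e
 (c z e
 (c z e
 (c z e
 (c (a (nat_lit 0xe4fb25bb4eb520d74c7)) e
 (c (a (nat_lit 0x3a383a4f12522400009)) e e))))))))))))))
 (c (a (nat_lit 0x1212129e3c20b73c6))
 (c z e
 (c z e
 (c z e
 (c z e
 (c z e
 (c (a (nat_lit 0x2240e5c7448aae5547)) e
 (c z e
 (c z e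
 (c (a (nat_lit 0x646052a6ce888e9dea6)) e
 (c (a (nat_lit 0x52648ea6643c3acf067)) e
 (c (a (nat_lit 0xaeef35226c6ca8b75a7)) e
 (c (a (nat_lit 0x9aa0e2a066b70d02008)) e e))))))))))))
 (c (a (nat_lit 0x1e1f8502cdb9b6285))
 (c z e
 (c z e
 (c z e
 (c z e
 (c z e
 (c z e
 (c (a (nat_lit 0x50524254384054893e7)) e
 (c (a (nat_lit 0x6046705e647c894d287)) e
 (c (a (nat_lit 0x6698f69c46bf8935fc6)) e
 (c (a (nat_lit 0x80aeac326e9a4d56d27)) e e))))))))))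
 (c z e
 (c z e
 (c z e
 (c z e
 (c z e
 (c z e
 (c z e
 (c z e
 (c (a (nat_lit 0x8edf1ade7c4e1e226)) e
 (c (a (nat_lit 0x14da58f215f0cdaec6)) e
 (c z e
 (c z e
 (c (a (nat_lit 0x10eba6c3c4e284c064)) e e))))))))))))))))
 (c z
 (c (a (nat_lit 0x1e1f16644695cba04))
 (c z e
 (c z e
 (c z e
 (c z e
 (c z e
 (c z e
 (c z e
 (c z e
 (c (a (nat_lit 0x16121e301e0e5e9d2c7)) e e)))))))))
 (c z e
 (c z e
 (c z e
 (c z e
 (c z e
 (c z e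
 (c z e
 (c z e
 (c (b (nat_lit 0x125374d11ffdeee6a4)) e
 (c (a (nat_lit 0xf6ef32eb64dc749c5)) e e)))))))))))
 (c z
 (c z e
 (c z e
 (c z e
 (c z e
 (c z e
 (c z e
 (c z e
 (c z e
 (c (a (nat_lit 0xa29f5b4389aaa9044)) e
 (c z e
 (c (a (nat_lit 0x9a9f175d34e4df466)) e e)))))))))))
 (c z
 (c z e
 (c z e
 (c z e
 (c z e
 (c z e
 (c z e
 (c z e
 (c z e
 (c (a (nat_lit 0xb6eb1ce540f8ad825)) e e)))))))))
 (c z
 (c z e
 (c z e
 (c z e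
 (c z e
 (c z e
 (c z e
 (c (a (nat_lit 0x3490ecd8b49f231c5)) e
 (c (a (nat_lit 0x96d6f30106f58d485)) e
 (c (a (nat_lit 0x7a94b6bec29c9f147)) e e)))))))))
 (c z
 (c z e
 (c z e
 (c z e
 (c z e
 (c z e
 (c (a (nat_lit 0x2a30f500eb3ad7045)) e e))))))
 (c (a (nat_lit 0x20202020203725))
 (c z e
 (c z e
 (c z e
 (c (a (nat_lit 0x862aec4c4c8c3545)) e e))))
 (c (a (nat_lit 0x2020202034c6e5)) e
 (c (b (nat_lit 0x2020203e137fe4)) e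
 (c (a (nat_lit 0x8080bd47c0aa24)) e
 (c (a (nat_lit 0x1214f6500c630e5)) e
 (c z e
 (c z e
 (c z e
 (c z e
 (c z e
 (c z e
 (c (a (nat_lit 0x11a26a2722016144)) e
 (c (a (nat_lit 0x1108aa1a0802003)) e
 (c z e
 (c (a (nat_lit 0xd0401e141c2d143)) e e))))))))))))))))))))))) Tr.c Tr.e (nat_lit 0) C.cx C.cy
noncomputable def C812 : Tr := beta% (fun (c : Nat → Tr → Tr → Tr) (e : Tr) (z : Nat) (a b : Nat → Nat) =>
 (c z
 (c z
 (c z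
 (c (a (nat_lit 0xdadc7e98ece79db16c3)) e
 (c z e
 (c z e
 (c z e
 (c z e
 (c z e
 (c z e
 (c z e
 (c z e
 (c z e
 (c z e
 (c z e
 (c z e
 (c z e
 (c (a (nat_lit 0x96a6c50102ff09839a6)) e
 (c (a (nat_lit 0x5a84c4cad6cea0d19c6)) e
 (c (a (nat_lit 0x3e5c5e646a666275167)) e e)))))))))))))))))
 (c (a (nat_lit 0x1a1a1a1a1a1a1b764)) e
 (c (a (nat_lit 0x1e1e1e1e1e1f16424))
 (c z e
 (c z e
 (c z e
 (c z e
 (c z e
 (c z e
 (c z e
 (c z e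
 (c z e
 (c z e
 (c z e
 (c z e
 (c (a (nat_lit 0x5c8a7c96c9831434667)) e e)))))))))))))
 (c (a (nat_lit 0x3a3a3a3a3bc246903)) e
 (c (a (nat_lit 0x202020211082705c4)) e
 (c (a (nat_lit 0x1010111e722c3cd45))
 (c z e
 (c z e
 (c z e
 (c z e
 (c z e
 (c z e
 (c (a (nat_lit 0x387858244c2a38bd986)) e
 (c z e
 (c z e
 (c (a (nat_lit 0x107012b024c9af75c006)) e e))))))))))
 (c (a (nat_lit 0x2223a9b94ae127364))
 (c z e
 (c z e
 (c z e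
 (c z e
 (c z e
 (c (a (nat_lit 0x141a143c18266267267)) e
 (c (a (nat_lit 0xe0b4a6967e9296ddc06)) e
 (c z e
 (c (a (nat_lit 0x1b1af78c4dbd1fc00006)) e e)))))))))
 (c z e
 (c z e
 (c z e
 (c z e
 (c z e
 (c z e
 (c (a (nat_lit 0x12ad8d2a0a66a3e445)) e
 (c (a (nat_lit 0x16b836780fa946c825)) e e)))))))))))))))
 C811)
 (c z
 (c z
 (c (a (nat_lit 0x6666666666d169121))
 (c z e
 (c z e
 (c z e
 (c z e
 (c z e
 (c z e
 (c z e
 (c z e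
 (c z e
 (c z e
 (c z e
 (c z e
 (c z e
 (c z e
 (c (a (nat_lit 0x5466625e5f70d66c007)) e e)))))))))))))))
 (c (a (nat_lit 0x28282828b45467404)) e
 (c (a (nat_lit 0x1010109a52365d5c5))
 (c z e
 (c z e
 (c z e
 (c z e
 (c z e
 (c z e
 (c z e
 (c z e
 (c (a (nat_lit 0x50146090262e7063a06)) e
 (c z e
 (c (a (nat_lit 0x7cd8dd00845f36ab307)) e e)))))))))))
 (c (a (nat_lit 0x10109a503c4d2d285))
 (c z e
 (c z e
 (c z e
 (c z e
 (c z e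
 (c z e
 (c z e
 (c z e
 (c (a (nat_lit 0x76b04e5e22710628067)) e e))))))))) e))))
 (c z
 (c (a (nat_lit 0x12121296343b13205))
 (c z e
 (c z e
 (c z e
 (c z e
 (c z e
 (c z e
 (c z e
 (c z e
 (c z e
 (c (a (nat_lit 0x1010205632304441647)) e
 (c (a (nat_lit 0x1e42704e4e2c389f287)) e
 (c (a (nat_lit 0x5ae4f708ea58f25bfc6)) e e))))))))))))
 (c (a (nat_lit 0x1212683e309f3f646))
 (c z e
 (c z e
 (c z e
 (c z e
 (c z e
 (c z e
 (c z e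
 (c (a (nat_lit 0x74426c986878866f4e7)) e
 (c (a (nat_lit 0x42654362e386988307)) e
 (c z e
 (c (a (nat_lit 0xcaeb1a4c476099068c7)) e e)))))))))))
 (c z e
 (c z e
 (c z e
 (c z e
 (c z e
 (c z e
 (c z e
 (c z e
 (c z e
 (c (a (nat_lit 0xbef11cfa9c8a664e5)) e e))))))))))))
 (c z
 (c z e
 (c z e
 (c z e
 (c z e
 (c z e
 (c z e
 (c z e
 (c z e
 (c z e
 (c z e
 (c (a (nat_lit 0xa304f6e6a490666e6)) e e)))))))))))
 (c z
 (c z e
 (c z e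
 (c z e
 (c z e
 (c z e
 (c z e
 (c z e
 (c z e
 (c (a (nat_lit 0x5175531acc663da85)) e
 (c (a (nat_lit 0x18b3b0cda7e4684725)) e e))))))))))
 (c z
 (c z e
 (c z e
 (c z e
 (c z e
 (c z e
 (c z e
 (c z e
 (c (a (nat_lit 0x2052ac986e1167185)) e
 (c (a (nat_lit 0xaf14d6e290a87f6c5)) e e)))))))))
 (c z
 (c z e
 (c z e
 (c z e
 (c z e
 (c z e
 (c (a (nat_lit 0x6a386f2f0f931684)) e e))))))
 (c (a (nat_lit 0x20202020203605))
 (c z e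
 (c z e
 (c z e
 (c z e
 (c (a (nat_lit 0x3a9522f6ef393d444)) e e)))))
 (c (a (nat_lit 0x202020203ba6e5))
 (c z e
 (c z e
 (c z e
 (c (a (nat_lit 0x3e605a149a9522165)) e e))))
 (c (b (nat_lit 0x2020203687ffe5))
 (c z e
 (c z e
 (c z e
 (c (a (nat_lit 0xc8b7bbd2b7289e5e5)) e e))))
 (c (a (nat_lit 0x12121324a00aba5)) e
 (c (a (nat_lit 0x6070c3006a7085)) e
 (c z e
 (c z e
 (c z e
 (c z e
 (c z e
 (c z e
 (c (a (nat_lit 0x11e2c6a9a4458505)) e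
 (c (a (nat_lit 0x42c11e729c8c4a4)) e
 (c (a (nat_lit 0xe7449ac2b472244)) e e))))))))))))))))))))
 C810))) Tr.c Tr.e (nat_lit 0) C.cx C.cy
noncomputable def C813 : Tr := beta% (fun (c : Nat → Tr → Tr → Tr) (e : Tr) (z : Nat) (a b : Nat → Nat) =>
 (c z
 (c (a (nat_lit 0x2e2e2e2e2e2e2f982))
 (c z e
 (c z e
 (c z e
 (c z e
 (c z e
 (c z e
 (c z e
 (c z e
 (c z e
 (c z e
 (c z e
 (c z e
 (c z e
 (c z e
 (c (a (nat_lit 0x262c464a5646493a6c7)) e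
 (c (a (nat_lit 0x4c6c707c806e7d16007)) e e))))))))))))))))
 (c (a (nat_lit 0x24262626262774263))
 (c z e
 (c z e
 (c z e
 (c z e
 (c z e
 (c z e
 (c z e
 (c z e
 (c z e
 (c z e
 (c z e
 (c z e
 (c z e
 (c (a (nat_lit 0x303e4a52405564663c8)) e e))))))))))))))
 (c (a (nat_lit 0x2426262627f4683a3)) e
 (c (a (nat_lit 0x12121213063c326e4)) e
 (c (a (nat_lit 0x101011d8a83ed8ac4)) e
 (c (a (nat_lit 0x14159afe529e74e84)) e
 (c z e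
 (c z e
 (c z e
 (c z e
 (c z e
 (c z e
 (c (a (nat_lit 0x15ea90ef6904642624)) e
 (c (a (nat_lit 0xcb1518f07c7834305)) e e))))))))))))))
 (c z
 (c (a (nat_lit 0x2828282829a09c822))
 (c z e
 (c z e
 (c z e
 (c z e
 (c z e
 (c z e
 (c z e
 (c z e
 (c z e
 (c z e
 (c z e
 (c z e
 (c z e
 (c (a (nat_lit 0x36464a4c6b8c6036007)) e e))))))))))))))
 (c (a (nat_lit 0x14141414902c27084)) e
 (c (a (nat_lit 0x141414de768f2fb24)) e
 (c (a (nat_lit 0x141548b46d7514804))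
 (c z e
 (c z e
 (c z e
 (c z e
 (c z e
 (c z e
 (c (a (nat_lit 0x100c1a0e0c183053067)) e e)))))))
 (c z e
 (c z e
 (c z e
 (c z e
 (c z e
 (c z e
 (c z e
 (c z e
 (c (a (nat_lit 0x104fd1284905a2a905)) e
 (c (a (nat_lit 0x7eaad8eb3708d4a85)) e
 (c (b (nat_lit 0x88a8bb09fea8a6ee5)) e e)))))))))))))))
 (c z
 (c (a (nat_lit 0x181818ae223675ae3)) e
 (c (a (nat_lit 0x14149c44706992b44)) e
 (c z e
 (c z e
 (c z e
 (c z e
 (c z e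
 (c z e
 (c z e
 (c z e
 (c z e
 (c (a (nat_lit 0x791ee70d87ab08f64)) e
 (c (a (nat_lit 0xc8e0e9513adee4f45)) e
 (c (a (nat_lit 0x4c62c3330504f4c45)) e e))))))))))))))
 (c z
 (c z e
 (c z e
 (c z e
 (c z e
 (c z e
 (c z e
 (c z e
 (c z e
 (c z e
 (c z e
 (c (a (nat_lit 0x86f91f6d7156edbc4)) e e)))))))))))
 (c z
 (c z e
 (c z e
 (c z e
 (c z e
 (c z e
 (c z e
 (c z e
 (c z e
 (c z e
 (c z e
 (c z e
 (c (a (nat_lit 0xcd3b5b633932df2a5)) e e))))))))))))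
 (c z e
 (c z e
 (c z
 (c z e
 (c z e
 (c z e
 (c z e
 (c z e
 (c z e
 (c z e
 (c (a (nat_lit 0x14d2d03051ce6d7e05)) e e))))))))
 (c (a (nat_lit 0xa0a0a0a0a0baa2)) e
 (c (a (nat_lit 0x202020202162a63)) e
 (c (a (nat_lit 0x60608093c5e0c3))
 (c z e
 (c z e
 (c z e
 (c (a (nat_lit 0x1935f997b133d8d945)) e e))))
 (c (a (nat_lit 0xc0c0df2ce045a2))
 (c z e
 (c (a (nat_lit 0x36a8ca729a611b344)) e
 (c (a (nat_lit 0xfd05686c6040e8f44)) e e)))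
 (c (a (nat_lit 0x204e05206032a3))
 (c (a (nat_lit 0xe8d066a4a6bc0d5c4)) e e)
 (c z e
 (c z e
 (c z e
 (c (a (nat_lit 0x417344c04100a3)) e
 (c (a (nat_lit 0x133c520e5214343)) e
 (c (a (nat_lit 0x13c5204541632663)) e
 (c (a (nat_lit 0xf40300128758da1)) e
 (c z e
 (c (a (nat_lit 0xd85ea308c81e102)) e e))))))))))))))))))))))) Tr.c Tr.e (nat_lit 0) C.cx C.cy
noncomputable def C814 : Tr := beta% (fun (c : Nat → Tr → Tr → Tr) (e : Tr) (z : Nat) (a : Nat → Nat) =>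
 (c (a (nat_lit 0x20202021))
 (c (a (nat_lit 0x20200001))
 (c z
 (c z
 (c z
 (c (a (nat_lit 0x5c5c5c5c5c5cb05c601)) e
 (c (a (nat_lit 0x8a8a8a8a8b509ac68e1)) e
 (c (a (nat_lit 0x6a6a6a6b8a8674af0c1)) e
 (c (a (nat_lit 0x545454c86262a920922)) e
 (c (a (nat_lit 0xd2d38ac0def3f74f161)) e e)))))
 (c z
 (c (a (nat_lit 0x646464649a3ec067d62)) e
 (c (a (nat_lit 0x4c4e4f1c6490a7518e3)) e
 (c (a (nat_lit 0x2e2e782e468b2a94a24)) e e)))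
 (c z
 (c (a (nat_lit 0x3434ca3640a90f80942)) e e)
 (c z
 (c z e
 (c z e
 (c z e
 (c z e
 (c z e
 (c z e
 (c z e
 (c z e
 (c z e
 (c z e
 (c z e
 (c z e
 (c z e
 (c (a (nat_lit 0x6270727488826a81946)) e
 (c (a (nat_lit 0x625c627878786c85306)) e e)))))))))))))))
 (c (a (nat_lit 0x36363636363636fa1)) e
 (c (a (nat_lit 0x8e8e8e8e8e8f267a2)) e
 (c (a (nat_lit 0x2c2c2c2c2deca8282)) e e)))))))
 (c z
 (c z
 (c (a (nat_lit 0x7e7e7e6442b4898f9c3)) e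
 (c (a (nat_lit 0x4e4eb64aaaa3699b2c4)) e
 (c z e
 (c z e
 (c z e
 (c z e
 (c z e
 (c z e
 (c z e
 (c z e
 (c z e
 (c z e
 (c z e
 (c z e
 (c (a (nat_lit 0xa4aacced110eff03c46)) e e)))))))))))))))
 (c z
 (c z e
 (c z e
 (c z e
 (c z e
 (c z e
 (c z e
 (c z e
 (c z e
 (c z e
 (c z e
 (c z e
 (c z e
 (c z e
 (c (a (nat_lit 0x7492a4aecec4d147127)) e
 (c z e
 (c (a (nat_lit 0x5a5e70747c8070792a8)) e e))))))))))))))))
 (c (a (nat_lit 0x20202020202021aa3))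
 (c z e
 (c z e
 (c z e
 (c z e
 (c z e
 (c z e
 (c z e
 (c z e
 (c z e
 (c z e
 (c z e
 (c z e
 (c (a (nat_lit 0x90a6b8b2c0d148d04a7)) e e)))))))))))))
 (c (a (nat_lit 0x22242424242524183)) e
 (c (a (nat_lit 0x20202020216280803)) e
 (c (a (nat_lit 0x12121213a49a24564)) e
 (c (a (nat_lit 0x1414157724704e9a4)) e
 (c (a (nat_lit 0x1213933a6678ac2a4)) e
 (c z e
 (c z e
 (c z e
 (c z e
 (c z e
 (c z e
 (c (a (nat_lit 0x1050f3cecfa7a50365)) e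
 (c (a (nat_lit 0x13d7149635cd0ae885)) e
 (c (a (nat_lit 0x15f375944dca076cc5)) e e)))))))))))))))))
 C813))
 C812)
 C809)
 (c (nat_lit 1)
 (c (a (nat_lit 0xa0a0a0a0a1)) C804
 (c (a (nat_lit 0x6060606061)) C801
 C799))
 (c (a (nat_lit 0x60606061))
 (c (a (nat_lit 0x8080808081)) C795
 (c (a (nat_lit 0x2020202021)) C793
 (c (a (nat_lit 0x2020202021))
 (c z
 (c (a (nat_lit 0x3636b35f8467be3))
 (c z e
 (c z e
 (c z e
 (c z e
 (c z e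
 (c z e
 (c z e
 (c z e
 (c (a (nat_lit 0x64425e463642b9286)) e
 (c (a (nat_lit 0x3e4a56106aaf08326)) e
 (c (a (nat_lit 0x32302e1c451e4e4a7)) e e)))))))))))
 (c z e
 (c z e
 (c z e
 (c z e
 (c z e
 (c z e
 (c z e
 (c z e
 (c z e
 (c z e
 (c z e
 (c z e
 (c (a (nat_lit 0x169257ef2e28cb85)) e
 (c z e
 (c (a (nat_lit 0x129aca227faa704)) e e))))))))))))))))
 (c z
 (c (a (nat_lit 0x1514b4aa97ada4e6))
 (c z e
 (c z e
 (c z e
 (c (a (nat_lit 0xa88881030c9ea6a08)) e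
 (c z e
 (c (a (nat_lit 0xaca6892ae626b1526)) e
 (c z e
 (c (a (nat_lit 0xc0fed6dfd59f4ff26)) e
 (c z e
 (c z e
 (c (a (nat_lit 0x118b904edb00000006)) e e)))))))))))
 (c z e
 (c z e
 (c (a (nat_lit 0x1f2d63c3c6ee66))
 (c (a (nat_lit 0xcce86e6672a2b3008)) e
 (c z e
 (c z e
 (c z e
 (c (a (nat_lit 0x2b85b3b31a9a4e6a7)) e e)))))
 (c (a (nat_lit 0x1967eb0ae7aa68c6))
 (c z e
 (c z e
 (c z e
 (c (a (nat_lit 0x1087e20ce703c64007)) e e))))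
 (c z e
 (c z e
 (c z e
 (c z e
 (c z e
 (c z e
 (c z e
 (c z e
 (c z e
 (c (a (nat_lit 0x1234a90187f1e043)) e e)))))))))))))))
 (c z e
 (c z e
 (c z e
 (c z e
 (c (a (nat_lit 0x808080809861)) e
 (c (a (nat_lit 0xc0c0c0c3d1a2)) e
 (c (a (nat_lit 0x323232a583383))
 (c (a (nat_lit 0xaca280b8f7bf2e4)) e e)
 (c (a (nat_lit 0x1e1f0682502e5)) e e))))))))))
 C792)))
 (c (a (nat_lit 0x20202021))
 (c (a (nat_lit 0x2020202021)) C790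
 C789)
 (c (a (nat_lit 0x40404041)) C787
 C785)))))) Tr.c Tr.e (nat_lit 0) C.cx
noncomputable def C815 : Tr := beta% (fun (c : Nat → Tr → Tr → Tr) (e : Tr) (z : Nat) (a b : Nat → Nat) =>
 (c (a (nat_lit 0x2020202021))
 (c z
 (c (a (nat_lit 0x11cae5e485c5c463))
 (c z e
 (c z e
 (c (a (nat_lit 0x1c748787e1a2a10286)) e e)))
 (c z e
 (c z e
 (c z e
 (c (a (nat_lit 0x484267099918a44)) e
 (c (a (nat_lit 0x1e7acf327e28645)) e
 (c z e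
 (c z e
 (c z e
 (c (a (nat_lit 0xd2d6ad0d0d28c27)) e
 (c (a (nat_lit 0x1520408140800004)) e e)))))))))))
 (c (a (nat_lit 0x202020203185))
 (c z e
 (c z e
 (c z e
 (c z e
 (c z e
 (c z e
 (c z e
 (c z e
 (c z e
 (c (b (nat_lit 0x1b7fff1de0000003)) e e))))))))))
 (c (a (nat_lit 0x202020318405)) e
 (c (a (nat_lit 0x3c2fed43))
 (c z e
 (c z e
 (c z e
 (c (a (nat_lit 0x608e867eae9f567)) e e))))
 (c (a (nat_lit 0x7475d122e84e4)) e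
 (c (a (nat_lit 0x2d3e885613565))
 (c (a (nat_lit 0x2a7ea8a69f3ce87)) e e)
 (c z e
 (c z e
 (c z e
 (c (a (nat_lit 0xb4ff1ee6fcac7)) e
 (c (a (nat_lit 0x1173e60b8807a5)) e
 (c (a (nat_lit 0x10c2a844c441c5)) e
 (c z e
 (c (a (nat_lit 0x10c9a98480e164)) e
 (c (a (nat_lit 0x14d44a636480a3)) e
 (c (a (nat_lit 0x12a8c16300a663)) e e))))))))))))))))
 (c (a (nat_lit 0x4040404041))
 (c (a (nat_lit 0x202020302325))
 (c z e
 (c z e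
 (c z e
 (c z e
 (c z e
 (c z e
 (c z e
 (c z e
 (c z e
 (c (a (nat_lit 0x2b0a04000000004)) e e))))))))))
 (c (a (nat_lit 0x202032a342e6))
 (c (a (nat_lit 0x847e67296104004)) e
 (c z e
 (c z e
 (c (a (nat_lit 0x70944a4c3e79106)) e e))))
 (c (a (nat_lit 0x565736bee1085))
 (c (a (nat_lit 0x6450811a2a2c025)) e
 (c (a (nat_lit 0x650d80507232425)) e e))
 (c z e
 (c (a (nat_lit 0x1b8dad10cdef45))
 (c (a (nat_lit 0x6c72a49f1081867)) e e)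
 (c z e
 (c z e
 (c z e
 (c (a (nat_lit 0x137bd998aeca46)) e
 (c (a (nat_lit 0x1ecfcc2b0b2c24)) e
 (c z e
 (c (a (nat_lit 0x108f30318b8ee4)) e
 (c (a (nat_lit 0xf9193884f0d43)) e
 (c (a (nat_lit 0x1558e2708ce642)) e e))))))))))))))
 (c (a (nat_lit 0xa0a0a0a0a1))
 (c (a (nat_lit 0x2c2d2e6248585))
 (c (a (nat_lit 0x1150f0ffedc5a0c3)) e
 (c (a (nat_lit 0x14d4da5308e2aae4)) e e))
 (c (a (nat_lit 0xad37873d6ae84))
 (c (a (nat_lit 0x12d0904a25a5f984)) e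
 (c z e
 (c z e
 (c z e
 (c (a (nat_lit 0x987697161472007)) e e)))))
 (c z e
 (c z e
 (c z e
 (c (a (nat_lit 0x1c3a7cbcdc3285)) e
 (c (a (nat_lit 0x14f83877dd0ce5)) e
 (c z e
 (c z e
 (c (a (nat_lit 0xa7b7ff5b10fa3)) e
 (c (a (nat_lit 0xdb247e52200a3)) e
 (c (a (nat_lit 0x11a744c1a02063)) e
 (c z e
 (c (a (nat_lit 0x924e08166a021)) e e))))))))))))))
 (c (a (nat_lit 0x12121212121))
 (c (a (nat_lit 0xdb8d637f28143))
 (c (a (nat_lit 0x362a20260647425)) e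
 (c z e
 (c z e
 (c (a (nat_lit 0x2a2434ea9714407)) e
 (c (a (nat_lit 0xbedf748cae00006)) e e)))))
 (c z e
 (c z e
 (c (a (nat_lit 0x171230cceeaae4)) e
 (c (a (nat_lit 0x185c3b7cf00105)) e
 (c z e
 (c z e
 (c (a (nat_lit 0xc90b7f2d04fc4)) e
 (c (a (nat_lit 0x4b1082440e003)) e
 (c (a (nat_lit 0x10460200402003)) e
 (c z e
 (c (a (nat_lit 0xaa4c0c1e4c201)) e e))))))))))))
 (c (a (nat_lit 0x8080808081))
 (c z e
 (c (a (nat_lit 0x1ff90b8d478de4))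
 (c (a (nat_lit 0x2a86ffd2d434007)) e e)
 (c z e
 (c z e
 (c z e
 (c (b (nat_lit 0x1fffed24211683)) e
 (c (a (nat_lit 0x6b72d8b2968c3)) e
 (c (a (nat_lit 0x1d49a6a2e0e002)) e e))))))))
 (c (a (nat_lit 0x10121212101))
 (c (a (nat_lit 0x1de701e5ebfaa3))
 (c (a (nat_lit 0x449346aa1c00006)) e e)
 (c z e
 (c z e
 (c (a (nat_lit 0xccd3391d1b486)) e
 (c (a (nat_lit 0x50a28a8a8b106)) e
 (c (a (nat_lit 0x1da24829406042)) e
 (c z e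
 (c (a (nat_lit 0xc8eeceb4bd743)) e
 (c (a (nat_lit 0x905e2c3db2102)) e
 (c (a (nat_lit 0x3c0a057a04002)) e
 (c (a (nat_lit 0x18b8d820000002)) e e)))))))))))
 (c (a (nat_lit 0xe0e0e0e0e1))
 (c z e
 (c (a (nat_lit 0xd2d78b612d925)) e
 (c z e
 (c z e
 (c z e
 (c (a (nat_lit 0x1a1e1a7cda9802)) e
 (c (a (nat_lit 0x1a535a36f06cc1)) e
 (c (a (nat_lit 0x1e7a420806001)) e
 (c (a (nat_lit 0xa862280400001)) e
 (c (a (nat_lit 0x8a2a000000001)) e e))))))))))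
 (c (a (nat_lit 0x4040404041))
 (c (b (nat_lit 0x1fe80765c5f305)) e
 (c z e
 (c z e
 (c (a (nat_lit 0x171736b716f6a5)) e
 (c (a (nat_lit 0x11107131108d05)) e
 (c (a (nat_lit 0x14b686c5c6e623)) e
 (c (a (nat_lit 0x14448384c20003)) e
 (c (a (nat_lit 0x14b0eac0000001)) e
 (c (a (nat_lit 0x6200000000001)) e e)))))))))
 (c (a (nat_lit 0x2001))
 (c z e
 (c (a (nat_lit 0x1d9e1d5dbddca4)) e
 (c (a (nat_lit 0x12f2b313331026)) e
 (c (a (nat_lit 0x1b7d46c7e7e743)) e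
 (c (a (nat_lit 0x162020a0c06083)) e
 (c (a (nat_lit 0x40c0400001)) e
 (c (a (nat_lit 0x1414000000001)) e e)))))))
 (c (a (nat_lit 0x4040404041))
 (c (a (nat_lit 0x1f9f5f7f5f1a05)) e
 (c (a (nat_lit 0x17064543c34023)) e
 (c (a (nat_lit 0x13712be906a8a2)) e
 (c (a (nat_lit 0x136e4a09058002)) e
 (c (a (nat_lit 0x17af4680000001)) e
 (c (a (nat_lit 0x8e00000000001)) e e))))))
 (c (a (nat_lit 0x10101012121)) e
 (c (a (nat_lit 0x8080808081)) e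
 (c (a (nat_lit 0xa0a0a0a0a1)) e
 (c (a (nat_lit 0x6060606061)) e
 (c (a (nat_lit 0x2021)) e
 (c (a (nat_lit 0x2020203241)) e
 (c (a (nat_lit 0x20202270a4)) e
 (c (a (nat_lit 0x22306b24)) e
 (c z e
 (c (a (nat_lit 0x2104b018444)) e
 (c (a (nat_lit 0x1ed42146a6c3)) e
 (c z e
 (c z e
 (c (a (nat_lit 0x117209b1a863)) e
 (c (a (nat_lit 0x1309c9600003)) e e)))))))))))))))))))))))))) Tr.c Tr.e (nat_lit 0) C.cx C.cy
noncomputable def C816 : Tr := beta% (fun (c : Nat → Tr → Tr → Tr) (e : Tr) (z : Nat) (a b : Nat → Nat) =>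
 (c (a (nat_lit 0x6060606061))
 (c z
 (c (a (nat_lit 0x7071793b390cbe4))
 (c z e
 (c z e
 (c z e
 (c z e
 (c z e
 (c z e
 (c z e
 (c (a (nat_lit 0x9676b6c0b884bd865)) e
 (c z e
 (c (a (nat_lit 0x9ef4e444b83671cc5)) e e))))))))))
 (c (a (nat_lit 0x41751b1d11ef205))
 (c z e
 (c z e
 (c z e
 (c z e
 (c z e
 (c (b (nat_lit 0x2a2e2ffe4640b1848)) e e))))))
 (c z e
 (c z e
 (c z e
 (c (a (nat_lit 0x66eb52742e74446)) e
 (c z e
 (c z e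
 (c z e
 (c z e
 (c z e
 (c z e
 (c z e
 (c (a (nat_lit 0x1412aa8e2f2e6e44)) e e))))))))))))))
 (c z
 (c z e
 (c z e
 (c z e
 (c z e
 (c z e
 (c z e
 (c z e
 (c z e
 (c z e
 (c z e
 (c z e
 (c z e
 (c z e
 (c z e
 (c (a (nat_lit 0x4e5779be14e004)) e
 (c (a (nat_lit 0x5379c3280000003)) e e))))))))))))))))
 (c z e
 (c z
 (c z e
 (c z e
 (c z e
 (c z e
 (c z e
 (c z e
 (c z e
 (c z e
 (c z e
 (c z e
 (c (a (nat_lit 0x178f2688c5666365)) e e)))))))))))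
 (c z e
 (c z e
 (c z
 (c z e
 (c (b (nat_lit 0x14d6661fe4896ce5)) e e))
 (c (a (nat_lit 0x202020203a04))
 (c (a (nat_lit 0x14c2610229cba304)) e e)
 (c (a (nat_lit 0x2020203b4705)) e
 (c (a (nat_lit 0x20203448a585)) e
 (c (a (nat_lit 0x1091650184)) e
 (c z e
 (c z e
 (c z e
 (c z e
 (c (a (nat_lit 0xed3566634306)) e
 (c (a (nat_lit 0xbd3e3c1c18046)) e
 (c (a (nat_lit 0x1666244402c1c6)) e e))))))))))))))))))
 (c (a (nat_lit 0x2020202021))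
 (c z
 (c z e
 (c (a (nat_lit 0x7a73998308e8ae5)) e
 (c (a (nat_lit 0x213790a0b66a545)) e
 (c z e
 (c z e
 (c (a (nat_lit 0x706a28380e1be84))
 (c (a (nat_lit 0x126be7844624e0e007)) e e)
 (c z e
 (c (a (nat_lit 0x4140893252d265)) e
 (c z e
 (c (a (nat_lit 0x42d35d3b2b1e206)) e
 (c z e
 (c z e
 (c z e
 (c (a (nat_lit 0x1314688b0724a4a5)) e
 (c (a (nat_lit 0x1f87aca4e0200004)) e
 (c (a (nat_lit 0xc7184e000000004)) e e))))))))))))))))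
 (c z
 (c (a (nat_lit 0x118d4c6946c425))
 (c (a (nat_lit 0x1b5e6546a9688d9585)) e
 (c z e
 (c z e
 (c z e
 (c (a (nat_lit 0x16364d47262644308)) e e)))))
 (c z e
 (c z e
 (c (a (nat_lit 0x14b173eb6dccf2c4)) e
 (c (a (nat_lit 0xf0c8880a7b778a4))
 (c (a (nat_lit 0x1a8529ac2ee2600007)) e e)
 (c z e
 (c z e
 (c z e
 (c (a (nat_lit 0x97051af302ba227)) e
 (c z e
 (c z e
 (c z e
 (c (a (nat_lit 0xfd5202380e02005)) e
 (c (a (nat_lit 0x15004360c0000005)) e e))))))))))))))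
 (c z e
 (c z e
 (c z
 (c z e
 (c (a (nat_lit 0x10d616d8e3022f84)) e
 (c z e
 (c z e
 (c z e
 (c (a (nat_lit 0x73072b531ae2f66)) e e))))))
 (c (a (nat_lit 0xa0a0a0a0bf03))
 (c (a (nat_lit 0x16b9b885e091d6e3)) e
 (c z e
 (c z e
 (c z e
 (c (b (nat_lit 0x1fffeeefcc4d5026)) e e)))))
 (c (a (nat_lit 0x202020370e64))
 (c (a (nat_lit 0x1962c9899c83bea3)) e e)
 (c (a (nat_lit 0x60607a082485)) e
 (c (a (nat_lit 0x1819448e661e5)) e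
 (c (a (nat_lit 0xad8ba0ec4b8e4))
 (c (a (nat_lit 0x3488cb08d652007)) e e)
 (c z e
 (c z e
 (c z e
 (c (b (nat_lit 0x1feffaa647a124)) e
 (c (a (nat_lit 0xef985468024e4)) e
 (c (a (nat_lit 0x1a65a76125c044)) e
 (c z e
 (c (a (nat_lit 0x194c960b20a363)) e
 (c (a (nat_lit 0xb74ea00624003)) e e)))))))))))))))))))
 (c (a (nat_lit 0x2020202021))
 (c z
 (c (a (nat_lit 0x118a8b2c0a24e1e3))
 (c z e
 (c (a (nat_lit 0x3a2634404564e77a6)) e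
 (c z e
 (c (a (nat_lit 0x8c82816f8f00a2d06)) e
 (c (a (nat_lit 0x74819db6746a201c6)) e
 (c (a (nat_lit 0x553bc86442588e005)) e e))))))
 (c z e
 (c z e
 (c (a (nat_lit 0xb0c28e646e614a5))
 (c z e
 (c (a (nat_lit 0x180666a9c504800007)) e e))
 (c (a (nat_lit 0x764a2a324138b25)) e
 (c z e
 (c z e
 (c z e
 (c (a (nat_lit 0x123a15f6d54a0b06)) e
 (c z e
 (c z e
 (c (a (nat_lit 0x1272a645c5650505)) e
 (c (a (nat_lit 0x1b4261c0e0400004)) e e)))))))))))))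
 (c z
 (c z e
 (c z e
 (c z e
 (c z e
 (c z e
 (c z e
 (c z e
 (c z e
 (c z e
 (c z e
 (c (a (nat_lit 0x1462422161a16006)) e e)))))))))))
 (c z e
 (c (a (nat_lit 0x404040405044))
 (c z e
 (c (a (nat_lit 0xe8ad5cfe6a3fcc4)) e
 (c (a (nat_lit 0x9090d6aa78e7584)) e
 (c z e
 (c z e
 (c (a (nat_lit 0xeeff53871860706)) e e))))))
 (c (a (nat_lit 0x404040591203))
 (c (a (nat_lit 0xb522ae2e3b62cc4)) e
 (c z e
 (c z e
 (c z e
 (c (a (nat_lit 0x10145012cdb3a6)) e e)))))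
 (c (a (nat_lit 0x2020344c27a4)) e
 (c (a (nat_lit 0x3a3bbea05e6a5)) e
 (c (a (nat_lit 0x374e96722ae45))
 (c z e
 (c (a (nat_lit 0x6664a28b2a8a008)) e e))
 (c (a (nat_lit 0x64b864efa99a5))
 (c (a (nat_lit 0x88c8c310a400007)) e e)
 (c z e
 (c z e
 (c (a (nat_lit 0x47bb4d93633e4)) e
 (c (a (nat_lit 0x12cbe9cd6b0aa4)) e
 (c (a (nat_lit 0x18333b3695e883)) e
 (c z e
 (c (a (nat_lit 0x11efaf47210044)) e
 (c (a (nat_lit 0x1dbb2ca241c323)) e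
 (c (a (nat_lit 0x1bed62a1842023)) e e))))))))))))))))))
 C815)))) Tr.c Tr.e (nat_lit 0) C.cx C.cy
noncomputable def C817 : Tr := beta% (fun (c : Nat → Tr → Tr → Tr) (e : Tr) (z : Nat) (a b : Nat → Nat) =>
 (c z
 (c (a (nat_lit 0x404040604056e3))
 (c (a (nat_lit 0x1048eb4a0bab88c966))
 (c z e
 (c z e
 (c z e
 (c z e
 (c z e
 (c z e
 (c z e
 (c z e
 (c (a (nat_lit 0x286f664c54581c24007)) e e))))))))) e)
 (c (a (nat_lit 0x20202020347145))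
 (c z e
 (c z e
 (c z e
 (c z e
 (c z e
 (c z e
 (c z e
 (c (a (nat_lit 0x126cd2b178a8519f45)) e e))))))))
 (c (a (nat_lit 0x2020203cba1945))
 (c z e
 (c z e
 (c z e
 (c z e
 (c z e
 (c (a (nat_lit 0xeef4cacb8279555e6)) e e))))))
 (c (a (nat_lit 0x2020384feed665)) e
 (c (a (nat_lit 0x2f8707c6b486)) e
 (c z e
 (c z e
 (c z e
 (c z e
 (c (a (nat_lit 0x16cab0a68868a3e6))
 (c (a (nat_lit 0x3da685b7105400006)) e e)
 (c z e
 (c z e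
 (c z e
 (c z e
 (c z e
 (c z e
 (c z e
 (c z e
 (c (a (nat_lit 0x123628c2c2828004)) e
 (c (a (nat_lit 0x1345e06020000004)) e e))))))))))))))))))))
 (c z
 (c (a (nat_lit 0x2020203ab7f7a5)) e
 (c (a (nat_lit 0x202039b4948f06)) e
 (c (a (nat_lit 0xa0b2ad4dabc726)) e e)))
 (c z
 (c (a (nat_lit 0x203390d14b4205)) e
 (c (a (nat_lit 0x7d37d874818ac5))
 (c (a (nat_lit 0x36728c52d906baaa7)) e
 (c z e
 (c z e
 (c z e
 (c (a (nat_lit 0xb32cd0ae8ab8c70a7)) e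
 (c z e
 (c z e
 (c z e
 (c (a (nat_lit 0x5a708d94c8ea00007)) e e)))))))))
 (c z e
 (c z e
 (c z e
 (c (a (nat_lit 0x7ccf2c3e021e146))
 (c (a (nat_lit 0x2634b90b1d7b1c866)) e e)
 (c z e
 (c z e
 (c z e
 (c (a (nat_lit 0x447cc5072f4b1a6)) e
 (c z e
 (c z e
 (c z e
 (c (a (nat_lit 0xbb0898f4fec5224)) e
 (c (a (nat_lit 0x1a2b98b9505bb163)) e e)))))))))))))))
 (c z
 (c (a (nat_lit 0x1a54b5b8ab2d0044))
 (c z e
 (c z e
 (c z e
 (c (a (nat_lit 0x14f612cc900c30b3e6)) e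
 (c (a (nat_lit 0xf682748312db40ba6)) e
 (c z e
 (c z e
 (c (a (nat_lit 0x902af50d4570a6006)) e e))))))))
 (c z e
 (c z e
 (c (a (nat_lit 0x103adb8c60a9a425))
 (c z e
 (c (a (nat_lit 0x6a8e6be7330702b47)) e e))
 (c (a (nat_lit 0x19f98a04666789a5))
 (c (a (nat_lit 0xa667a75fe95ae46e6)) e e)
 (c z e
 (c z e
 (c (a (nat_lit 0x2abb3955350f1c5)) e
 (c (a (nat_lit 0x72a8c11dad33006)) e
 (c z e
 (c z e
 (c (a (nat_lit 0x139915f29335fc04)) e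
 (c (a (nat_lit 0xea5e1a2e874f923)) e
 (c (a (nat_lit 0x986478cf498a703)) e e))))))))))))))
 (c z
 (c z e
 (c z e
 (c z e
 (c z e
 (c z e
 (c (a (nat_lit 0x12f3ce31d60fce45)) e
 (c (a (nat_lit 0x8eacc952ee8e605)) e
 (c z e
 (c z e
 (c z e
 (c (a (nat_lit 0xd908684a70c33c3)) e
 (c (a (nat_lit 0x190606484fbdd842)) e e))))))))))))
 (c z
 (c z e
 (c z e
 (c z e
 (c z e
 (c (a (nat_lit 0x16715815f1d4d745)) e e)))))
 (c z
 (c z e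
 (c (a (nat_lit 0x594c527c3a0ee84)) e
 (c (a (nat_lit 0x114045a3208a6fe4)) e
 (c z e
 (c z e
 (c (b (nat_lit 0x31fffe2f655bee5)) e
 (c z e
 (c z e
 (c (a (nat_lit 0x1e1946824575fe02)) e
 (c (a (nat_lit 0x166bcc4e180b2003)) e e))))))))))
 (c z
 (c (a (nat_lit 0x10cb4944408df223)) e
 (c z e
 (c z e
 (c (a (nat_lit 0x7682beb4b0cb4a5)) e
 (c (a (nat_lit 0x282694aabcf9906)) e
 (c z e
 (c z e
 (c (a (nat_lit 0xf94cb0aeb47e7c4)) e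
 (c (a (nat_lit 0x14a144e804600003)) e e)))))))))
 (c z
 (c z e
 (c (a (nat_lit 0xcad0e10b35c3846)) e
 (c (a (nat_lit 0x183e487496814e5)) e
 (c z e
 (c z e
 (c z e
 (c (a (nat_lit 0x1b75ad6c934a0003)) e
 (c (a (nat_lit 0x1faf0d6e00000002)) e e))))))))
 (c z
 (c (a (nat_lit 0x3e527c998352ea5)) e e)
 (c (a (nat_lit 0x1414141414361))
 (c z e
 (c (a (nat_lit 0x728cb8cf2954de7)) e e))
 (c (a (nat_lit 0x20202022be83))
 (c (a (nat_lit 0xb2d6ef25934f8c6)) e e)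
 (c (a (nat_lit 0xaaaaaa1f0cac4)) e
 (c (b (nat_lit 0xaaabfeeeab364)) e
 (c (a (nat_lit 0x4066e4ca13a5)) e
 (c (a (nat_lit 0x16805cb14bf45)) e
 (c (a (nat_lit 0x6642972dd4705)) e
 (c z e
 (c (a (nat_lit 0x8521c66810065)) e
 (c (a (nat_lit 0x10db65a0202025)) e
 (c (a (nat_lit 0x1cc6c180e18085)) e
 (c z e
 (c z e
 (c (a (nat_lit 0x11d48ec0e0a002)) e
 (c (a (nat_lit 0x14ef4140000002)) e e)))))))))))))))))))))))))) Tr.c Tr.e (nat_lit 0) C.cx C.cy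
noncomputable def C818 : Tr := beta% (fun (c : Nat → Tr → Tr → Tr) (e : Tr) (z : Nat) (a b : Nat → Nat) =>
 (c (a (nat_lit 0x6060606061))
 (c z
 (c z
 (c z e
 (c z e
 (c z e
 (c z e
 (c z e
 (c z e
 (c z e
 (c z e
 (c z e
 (c z e
 (c z e
 (c z e
 (c (a (nat_lit 0x4e2672d4e0f6df085)) e
 (c z e
 (c (a (nat_lit 0xb52f393b171919225)) e e)))))))))))))))
 (c z
 (c z e
 (c z e
 (c z e
 (c z e
 (c z e
 (c z e
 (c z e
 (c z e
 (c z e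
 (c (a (nat_lit 0x66092321cc6dd1e5)) e
 (c (a (nat_lit 0xc6dc8e605ca325666)) e
 (c z e
 (c z e
 (c z e
 (c (a (nat_lit 0x7eaf96fc886600005)) e e)))))))))))))))
 (c (a (nat_lit 0x1e1e1e1e1e1f6a4))
 (c z e
 (c z e
 (c z e
 (c z e
 (c z e
 (c z e
 (c z e
 (c (a (nat_lit 0xdd12ee528c9c3c3c6)) e
 (c (a (nat_lit 0x15f3a3283248ebc945)) e e)))))))))
 (c (a (nat_lit 0x20202020334f84))
 (c z e
 (c (a (nat_lit 0xf317114b3b7127326)) e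
 (c z e
 (c z e
 (c z e
 (c z e
 (c z e
 (c z e
 (c z e
 (c (a (nat_lit 0x1533ba587d5cfcdc26)) e e))))))))))
 (c (a (nat_lit 0x20202035b21004))
 (c z e
 (c z e
 (c z e
 (c z e
 (c z e
 (c z e
 (c z e
 (c z e
 (c (a (nat_lit 0xe32ef3331340ef106)) e e)))))))))
 (c (a (nat_lit 0x2020310daceac5)) e
 (c (a (nat_lit 0x80924426cd9325)) e
 (c (a (nat_lit 0x82a442caf13945))
 (c z e
 (c (a (nat_lit 0xff8710ceeab4b2ca5)) e
 (c z e
 (c z e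
 (c z e
 (c (a (nat_lit 0x132df56dcbada00006)) e e))))))
 (c (a (nat_lit 0x183c2cab19665a5))
 (c z e
 (c z e
 (c z e
 (c (a (nat_lit 0xeb343fae1e7e68006)) e
 (c (a (nat_lit 0xc9065270680000006)) e e)))))
 (c z e
 (c z e
 (c (a (nat_lit 0xb747c4bc9c4c085)) e
 (c (a (nat_lit 0xe73ab6aa8e383c6)) e
 (c z e
 (c (a (nat_lit 0x1bf97b9269692ea4)) e
 (c (a (nat_lit 0x16e904e424846183)) e
 (c (a (nat_lit 0x10c8a0e22122c062)) e e)))))))))))))))))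
 C817)
 (c (a (nat_lit 0x4040404041))
 (c z
 (c (a (nat_lit 0xe0e0e0e0f32ae3))
 (c z e
 (c z e
 (c z e
 (c z e
 (c z e
 (c z e
 (c z e
 (c z e
 (c z e
 (c z e
 (c z e
 (c z e
 (c z e
 (c (a (nat_lit 0xe4bab2a4c7e400006)) e e))))))))))))))
 (c (a (nat_lit 0x202020367031e5)) e
 (c (a (nat_lit 0x20202e88aab245)) e
 (c (a (nat_lit 0x303138aed149105)) e
 (c (a (nat_lit 0x11202466bac8ee5))
 (c z e
 (c z e
 (c z e
 (c z e
 (c z e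
 (c (a (nat_lit 0x1555b42f647e224026)) e e))))))
 (c z e
 (c z e
 (c z e
 (c z e
 (c (a (nat_lit 0x136821a1a2608104))
 (c (a (nat_lit 0x1bb4b442e340000005)) e e)
 (c z e
 (c z e
 (c z e
 (c (a (nat_lit 0x7af35f8b8172be5)) e
 (c (a (nat_lit 0x6e82260812b9703)) e
 (c (a (nat_lit 0x862e0e1ac177503)) e
 (c z e
 (c (a (nat_lit 0x1420cf7953e7083)) e
 (c (b (nat_lit 0x1fe955726e000003)) e
 (c (a (nat_lit 0x17a8e000000002)) e e))))))))))))))))))))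
 (c z
 (c (a (nat_lit 0x202039d3f4b185))
 (c z e
 (c z e
 (c z e
 (c z e
 (c z e
 (c z e
 (c (a (nat_lit 0x6282989cdcd4134a6)) e e)))))))
 (c (a (nat_lit 0x20360d6e8fa426)) e
 (c z e
 (c z e
 (c z e
 (c z e
 (c z e
 (c z e
 (c z e
 (c z e
 (c z e
 (c z e
 (c z e
 (c z e
 (c (a (nat_lit 0x1ce0e2e1604027a3)) e
 (c z e
 (c (a (nat_lit 0x7c3023389c002)) e e)))))))))))))))))
 (c z e
 (c z e
 (c z
 (c (a (nat_lit 0x3d6f708ecc90525))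
 (c (a (nat_lit 0xcee47e5eae35512c6)) e
 (c z e
 (c z e
 (c z e
 (c z e
 (c (a (nat_lit 0x3066214782e00007)) e e))))))
 (c z e
 (c z e
 (c z e
 (c z e
 (c z e
 (c z e
 (c (a (nat_lit 0x4462c950ce74706)) e
 (c z e
 (c z e
 (c (a (nat_lit 0x185591f534127065)) e e)))))))))))
 (c z e
 (c z e
 (c z e
 (c z
 (c z e
 (c z e
 (c z e
 (c z e
 (c z e
 (c z e
 (c (a (nat_lit 0xf0c7b376e800004)) e e)))))))
 (c (a (nat_lit 0x202020203005))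
 (c (a (nat_lit 0x8284eb10dcdeac5)) e
 (c z e
 (c z e
 (c z e
 (c (a (nat_lit 0x546664687906008)) e
 (c (a (nat_lit 0x190cfc7c40000003)) e e))))))
 (c (a (nat_lit 0x2020203fe964)) e
 (c (a (nat_lit 0x60607353e2c3)) e
 (c (a (nat_lit 0x2c2c1c440fc43)) e
 (c z e
 (c (a (nat_lit 0x6452555169b64)) e
 (c z e
 (c z e
 (c (a (nat_lit 0x137512694a67c4)) e
 (c (a (nat_lit 0x18f44205210143)) e
 (c (a (nat_lit 0x15c2c6a382e0c3)) e e))))))))))))))))))))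
 C816))) Tr.c Tr.e (nat_lit 0) C.cx C.cy
noncomputable def C819 : Tr := beta% (fun (c : Nat → Tr → Tr → Tr) (e : Tr) (z : Nat) (a b : Nat → Nat) =>
 (c z
 (c (a (nat_lit 0x2020202039e844))
 (c z e
 (c z e
 (c z e
 (c z e
 (c z e
 (c z e
 (c z e
 (c z e
 (c (a (nat_lit 0x94daf49a68c89b785)) e e)))))))))
 (c (a (nat_lit 0x2020362b6c46))
 (c z e
 (c z e
 (c z e
 (c z e
 (c z e
 (c (a (nat_lit 0x10ac8fd87728284846)) e e))))))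
 (c (a (nat_lit 0x203507a844e6))
 (c z e
 (c z e
 (c z e
 (c z e
 (c z e
 (c z e
 (c (a (nat_lit 0x849296b8825ef9887)) e e)))))))
 (c (a (nat_lit 0x2e46072295e6)) e
 (c (a (nat_lit 0x12e86b09179ec6)) e
 (c z e
 (c z e
 (c z e
 (c z e
 (c z e
 (c z e
 (c z e
 (c z e
 (c z e
 (c z e
 (c z e
 (c (a (nat_lit 0x15ac62c0a0a04003)) e e)))))))))))))))))
 (c z
 (c (a (nat_lit 0x2020338bad48e5))
 (c z e
 (c z e
 (c z e
 (c z e
 (c z e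
 (c (a (nat_lit 0x3e88e9992f5b04d66)) e
 (c z e
 (c (a (nat_lit 0x5eb872b4949aab2e7)) e e))))))))
 (c (a (nat_lit 0xa0bfb5d950c7a5))
 (c z e
 (c z e
 (c z e
 (c z e
 (c (a (nat_lit 0x26ed3a9abb0698b87)) e
 (c z e
 (c z e
 (c z e
 (c (a (nat_lit 0x5e842c29087c78008)) e e)))))))))
 (c z e
 (c z e
 (c z e
 (c (a (nat_lit 0x138d1c9ee6212964))
 (c (a (nat_lit 0x585876c7056d0e866)) e e)
 (c z e
 (c z e
 (c z e
 (c (a (nat_lit 0x10d87d6cb0ce22e5)) e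
 (c z e
 (c z e
 (c z e
 (c (a (nat_lit 0x1dfa0a46a16181a3)) e
 (c (a (nat_lit 0x1a6a872262224aa3)) e
 (c (a (nat_lit 0x14cda48404552222)) e e))))))))))))))))
 (c z
 (c (a (nat_lit 0x914a2be7e42085))
 (c z e
 (c z e
 (c z e
 (c z e
 (c (a (nat_lit 0x586846306a6297347)) e
 (c z e
 (c z e
 (c z e
 (c (a (nat_lit 0xbe42730ab4e400007)) e e)))))))))
 (c z e
 (c z e
 (c (a (nat_lit 0xd3591cfac248b85)) e
 (c (a (nat_lit 0x151b8f0f44ce0b84))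
 (c (a (nat_lit 0x185a72e386ea70927)) e e)
 (c z e
 (c z e
 (c (a (nat_lit 0xeb69930dbb9faa4)) e
 (c (a (nat_lit 0x9cb9156972ce805)) e
 (c z e
 (c z e
 (c z e
 (c (a (nat_lit 0x1377a143216020e4)) e
 (c (a (nat_lit 0x1286e84786876865)) e e))))))))))))))
 (c z
 (c z e
 (c z e
 (c z e
 (c z e
 (c z e
 (c (a (nat_lit 0x8cd4ef94cb0f2e5)) e
 (c (a (nat_lit 0x3aab136f8d48ba4)) e e)))))))
 (c z
 (c z e
 (c z e
 (c z e
 (c z e
 (c (a (nat_lit 0xb506f692f70f3e5)) e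
 (c z e
 (c z e
 (c z e
 (c z e
 (c z e
 (c z e
 (c (a (nat_lit 0xf0c010c518a6004)) e e))))))))))))
 (c z
 (c z e
 (c (a (nat_lit 0x134df5898263e664))
 (c (a (nat_lit 0x180d2c840dcb438006)) e e)
 (c z e
 (c z e
 (c z e
 (c (a (nat_lit 0x46c2daace8ef9e5)) e
 (c z e
 (c z e
 (c z e
 (c (a (nat_lit 0x1dfd8e8c8cb6ebe3)) e
 (c (a (nat_lit 0x1cad8babeb200003)) e e)))))))))))
 (c z
 (c (a (nat_lit 0x15b96c82caeb9e62)) e
 (c z e
 (c z e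
 (c (b (nat_lit 0x1fe4a66d9110abe4)) e
 (c (a (nat_lit 0x60880a6a48f126)) e
 (c z e
 (c z e
 (c z e
 (c (a (nat_lit 0x10a86927eb648004)) e e)))))))))
 (c z
 (c z e
 (c (a (nat_lit 0x1e629cfb2d23f05)) e e))
 (c z
 (c (a (nat_lit 0x830828e695e785)) e e)
 (c z
 (c z e
 (c (a (nat_lit 0x88a2a10d19056c7)) e e))
 (c (a (nat_lit 0x404040405324))
 (c (a (nat_lit 0xcec9010d3db3686)) e e)
 (c (a (nat_lit 0x20202031c203)) e
 (c (b (nat_lit 0x40405a9fe1e2))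
 (c (a (nat_lit 0x1d3dfbdfc0000006)) e
 (c (a (nat_lit 0x115200000000001)) e e))
 (c (a (nat_lit 0x12130e92ab264)) e
 (c (a (nat_lit 0x3d40bccb51604)) e
 (c (a (nat_lit 0xf26e7d03153e4)) e
 (c z e
 (c z e
 (c (a (nat_lit 0x15d7fccae62403)) e
 (c (a (nat_lit 0x15bbc9c5432363)) e
 (c z e
 (c z e
 (c (a (nat_lit 0x1b999a11a7a783)) e
 (c (a (nat_lit 0x1252ca80400003)) e e))))))))))))))))))))))))) Tr.c Tr.e (nat_lit 0) C.cx C.cy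
noncomputable def C820 : Tr := beta% (fun (c : Nat → Tr → Tr → Tr) (e : Tr) (z : Nat) (a b : Nat → Nat) =>
 (c z
 (c z
 (c (a (nat_lit 0xf0f0f0f075d3530e1))
 (c (a (nat_lit 0xc0e4d0dcfd1b0d33403)) e e)
 (c (a (nat_lit 0x282828368a7c21a84)) e
 (c (a (nat_lit 0x2a2a368c7423cf2a4)) e
 (c (a (nat_lit 0x24709a82159d5d164))
 (c z e
 (c z e
 (c z e
 (c z e
 (c (a (nat_lit 0x84757e6e8c869676647)) e e)))))
 (c (a (nat_lit 0xb0fd40f8dc9070b44)) e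
 (c z e
 (c z e
 (c z e
 (c z e
 (c z e
 (c z e
 (c z e
 (c z e
 (c (a (nat_lit 0xef254e986a6a82b05)) e
 (c (a (nat_lit 0x7ae098daf106a10a5)) e
 (c (a (nat_lit 0xa860c8f77537272a5)) e e))))))))))))))))
 (c z
 (c (a (nat_lit 0x101042585a1f5d1c5))
 (c z e
 (c z e
 (c z e
 (c z e
 (c z e
 (c z e
 (c z e
 (c z e
 (c z e
 (c z e
 (c (a (nat_lit 0x4c422e5022547b14ac7)) e
 (c (a (nat_lit 0x6a64a0de3d277ec83c7)) e e))))))))))))
 (c z e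
 (c z e
 (c z e
 (c (a (nat_lit 0x1133f6d2a8442cc365)) e
 (c z e
 (c z e
 (c z e
 (c (a (nat_lit 0x1d593b094c1ce84e24)) e
 (c z e
 (c z e
 (c (a (nat_lit 0x10d35eb04cc8262a25)) e
 (c (a (nat_lit 0xc12aded8b4aead3a6)) e e)))))))))))))
 (c z
 (c z e
 (c z e
 (c z e
 (c z e
 (c z e
 (c z e
 (c z e
 (c z e
 (c z e
 (c (a (nat_lit 0x9a8ec8882c3247685)) e
 (c (a (nat_lit 0x1314912a06a5c2efa5)) e e)))))))))))
 (c z
 (c z e
 (c z e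
 (c z e
 (c z e
 (c z e
 (c z e
 (c z e
 (c (a (nat_lit 0x715fdabe5874eef24)) e
 (c (a (nat_lit 0xf138b27a5a5d5d065)) e
 (c (a (nat_lit 0x15eb28e6e805f390e5)) e
 (c (b (nat_lit 0x8aceddfed30b15486)) e
 (c (a (nat_lit 0xf71137354b43452a7)) e e))))))))))))
 (c z
 (c z e
 (c (a (nat_lit 0x74769c9273232f386)) e
 (c z e
 (c z e
 (c z e
 (c (a (nat_lit 0x14749f3c8531b72c5)) e
 (c (a (nat_lit 0x3e6cda75098af6745)) e
 (c (a (nat_lit 0x7920a93141e0ac9e5)) e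
 (c (a (nat_lit 0x16c94e57ae3292cf85)) e
 (c (a (nat_lit 0xc8fba301012139946)) e
 (c (a (nat_lit 0x72caaeaae2ccaf887)) e
 (c (a (nat_lit 0xc6acb4eee2d8a3b07)) e e))))))))))))
 (c (a (nat_lit 0x202020202038a4))
 (c (a (nat_lit 0x4a58323a7e9291e06)) e
 (c z e
 (c z e
 (c z e
 (c (a (nat_lit 0x36563fae3cce86406)) e
 (c z e
 (c z e
 (c z e
 (c (a (nat_lit 0x7f510d355975af0c6)) e e)))))))))
 (c (a (nat_lit 0x2020202036cf24)) e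
 (c (a (nat_lit 0x20202039cc8da5))
 (c z e
 (c z e
 (c z e
 (c z e
 (c (a (nat_lit 0xcb31ee7eaccea0805)) e
 (c (a (nat_lit 0xa87f234f1b2276bc6)) e e))))))
 (c (a (nat_lit 0x203784040de4))
 (c z e
 (c (a (nat_lit 0x82f7937d18bb16bc5)) e
 (c z e
 (c (a (nat_lit 0xa126ba6cc26c40a86)) e
 (c z e
 (c (a (nat_lit 0x17aff4da792b4eecc6)) e e))))))
 (c (a (nat_lit 0x808b24a5ced4a4))
 (c z e
 (c z e
 (c z e
 (c z e
 (c (a (nat_lit 0x82c9790a248258006)) e e)))))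
 (c z e
 (c (a (nat_lit 0x1386a410176cc964)) e
 (c z e
 (c (a (nat_lit 0xa54981917b90c45)) e
 (c z e
 (c z e
 (c z e
 (c (a (nat_lit 0xeb22543e4e62204)) e
 (c (a (nat_lit 0x120523844601a264)) e
 (c z e
 (c (a (nat_lit 0x84bd121408080e2)) e
 (c (a (nat_lit 0xd92c30080610042)) e
 (c (a (nat_lit 0x10e0c0e140c00002)) e e)))))))))))))))))))))))
 (c z
 (c z
 (c (a (nat_lit 0x16787a7467b386c04)) e
 (c z e
 (c z e
 (c (a (nat_lit 0x12f05b9e49250786e5)) e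
 (c (a (nat_lit 0x89a36ae0966878fe5)) e
 (c z e
 (c z e
 (c z e
 (c z e
 (c z e
 (c (a (nat_lit 0xc4dd2ca09aa4c3ea5)) e
 (c (a (nat_lit 0xfb8120ee9e8059405)) e
 (c (a (nat_lit 0xfec0db15513f31926)) e e)))))))))))))
 (c z
 (c z e
 (c z e
 (c z e
 (c z e
 (c z e
 (c z e
 (c z e
 (c z e
 (c (a (nat_lit 0x6c5b1aa01856c4ba5)) e
 (c (a (nat_lit 0x7ceaa44a3e774abe6)) e
 (c z e
 (c z e
 (c z e
 (c z e
 (c z e
 (c (a (nat_lit 0x74a3022c1c0000005)) e e))))))))))))))))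
 (c z
 (c z e
 (c z e
 (c z e
 (c z e
 (c z e
 (c z e
 (c z e
 (c (a (nat_lit 0x222428222ad514566)) e
 (c (a (nat_lit 0x4c465a4a890460aa7)) e
 (c (a (nat_lit 0xccfcef639d4da5f46)) e e))))))))))
 (c (a (nat_lit 0x20202020203605))
 (c z e
 (c (a (nat_lit 0xc4acc2bd2121b9027))
 (c (a (nat_lit 0x11d28ef20f85c428c3a8)) e
 (c (a (nat_lit 0x156e75d0474f0c63ae68)) e
 (c (a (nat_lit 0x18fb9caac367eced8988)) e
 (c (a (nat_lit 0x9926bc808a8ad42c448)) e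
 (c (a (nat_lit 0x1849c505e3a8a0e00008)) e e)))))
 (c z e
 (c z e
 (c z e
 (c (a (nat_lit 0x6671ba62e7839e946)) e
 (c (a (nat_lit 0x4f6c5ed58384d85c6)) e
 (c z e
 (c (a (nat_lit 0x16508c86826673067)) e
 (c (a (nat_lit 0x870b0eff0b1d1eca7)) e e))))))))))
 (c (a (nat_lit 0x20202020348da5))
 (c (a (nat_lit 0x84868ab8c2d3349a7)) e
 (c z e
 (c z e
 (c z e
 (c (a (nat_lit 0x78814c75413692826)) e
 (c (a (nat_lit 0x8718655532f290826)) e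
 (c z e
 (c z e
 (c (a (nat_lit 0xb6aacb0d3d2095507)) e e)))))))))
 (c (a (nat_lit 0x2020203db557e5)) e
 (c (a (nat_lit 0x20203907aa6b46)) e
 (c (a (nat_lit 0x404bc2a446d086)) e
 (c (a (nat_lit 0xa58323e7921286))
 (c z e
 (c z e
 (c z e
 (c z e
 (c (a (nat_lit 0xd1ad0f80d4d400006)) e e)))))
 (c z e
 (c z e
 (c z e
 (c (a (nat_lit 0x96eb18bcae6a187)) e
 (c z e
 (c z e
 (c z e
 (c (a (nat_lit 0x1e7167ae35f1e503)) e
 (c (a (nat_lit 0x1600ecbcf2810002)) e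
 (c z e
 (c z e
 (c (a (nat_lit 0x106de2a1c1612003)) e
 (c (a (nat_lit 0x17a0e1c080000002)) e e))))))))))))))))))))))
 (c z
 (c z
 (c z e
 (c z e
 (c z e
 (c z e
 (c z e
 (c z e
 (c z e
 (c z e
 (c z e
 (c (a (nat_lit 0xb06c508ccd22f50c5)) e
 (c (a (nat_lit 0xd6b0ceccab11298e6)) e e)))))))))))
 (c (a (nat_lit 0x20202020203385))
 (c z e
 (c z e
 (c z e
 (c z e
 (c z e
 (c z e
 (c (a (nat_lit 0x58a8b8646b1cc7405)) e
 (c (a (nat_lit 0x80b64ccd3af2f5a05)) e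
 (c (a (nat_lit 0x7248a8d16707b2bc5)) e e)))))))))
 (c (a (nat_lit 0x2020202038acc5))
 (c z e
 (c z e
 (c z e
 (c z e
 (c z e
 (c z e
 (c (a (nat_lit 0x447e549ee30c552a6)) e e)))))))
 (c (a (nat_lit 0x20202030c8aa06)) e
 (c (a (nat_lit 0x2020300445c526)) e
 (c (a (nat_lit 0xa0b0e72a6c53a6)) e e))))))
 C819)))) Tr.c Tr.e (nat_lit 0) C.cx C.cy
noncomputable def C821 : Tr := beta% (fun (c : Nat → Tr → Tr → Tr) (e : Tr) (z : Nat) (a b : Nat → Nat) =>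
 (c z
 (c z
 (c z e
 (c z e
 (c z e
 (c z e
 (c z e
 (c z e
 (c z e
 (c z e
 (c z e
 (c z e
 (c (a (nat_lit 0xcaff471ee6a878e05)) e e)))))))))))
 (c z e
 (c (a (nat_lit 0x20202020203c44)) e
 (c (a (nat_lit 0x20202020380a05))
 (c z e
 (c z e
 (c z e
 (c z e
 (c z e
 (c z e
 (c (a (nat_lit 0x17f20eef4d8eebee46)) e e)))))))
 (c (a (nat_lit 0x2020203c66c7e5))
 (c z e
 (c z e
 (c z e
 (c (a (nat_lit 0x1464aaeba0909e646)) e e))))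
 (c (a (nat_lit 0x20203125272b26)) e
 (c (a (nat_lit 0x3b4403acf045)) e
 (c z e
 (c z e
 (c z e
 (c z e
 (c z e
 (c z e
 (c z e
 (c z e
 (c z e
 (c z e
 (c (a (nat_lit 0x12f027c042a04844)) e e))))))))))))))))))
 (c z
 (c (a (nat_lit 0x40406060607063))
 (c z e
 (c z e
 (c z e
 (c z e
 (c z e
 (c z e
 (c z e
 (c (a (nat_lit 0xaf831ffaef9747fe4)) e
 (c z e
 (c z e
 (c (a (nat_lit 0x10ea0e91f1f3504fe6)) e e)))))))))))
 (c (a (nat_lit 0x12121212132e685))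
 (c z e
 (c z e
 (c z e
 (c z e
 (c z e
 (c (a (nat_lit 0x5cc4a326f7017ec86)) e
 (c (a (nat_lit 0x8ce3e948a1adf7a64)) e e)))))))
 (c (a (nat_lit 0x20202031e926c6)) e
 (c (a (nat_lit 0x334b472045)) e
 (c (a (nat_lit 0x1213c2fae6ebae5)) e
 (c z e
 (c z e
 (c z e
 (c z e
 (c z e
 (c z e
 (c z e
 (c z e
 (c z e
 (c (a (nat_lit 0x17a80061024080a4)) e e)))))))))))))))
 (c z
 (c (a (nat_lit 0x2020203b8fc284))
 (c z e
 (c z e
 (c z e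
 (c z e
 (c z e
 (c z e
 (c z e
 (c z e
 (c (a (nat_lit 0x8046405458c4a1407)) e
 (c z e
 (c z e
 (c (a (nat_lit 0xb498c6cd3a0000007)) e e))))))))))))
 (c (a (nat_lit 0x202030ab27c2a6)) e
 (c (a (nat_lit 0x2425c314b8058e5)) e
 (c z e
 (c z e
 (c z e
 (c z e
 (c z e
 (c z e
 (c z e
 (c z e
 (c z e
 (c (a (nat_lit 0x6cfb50725ca0044)) e e)))))))))))))
 (c z
 (c (a (nat_lit 0x203a5cbdceaf24)) e
 (c z e
 (c z e
 (c z e
 (c z e
 (c z e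
 (c z e
 (c z e
 (c z e
 (c z e
 (c z e
 (c (a (nat_lit 0x179525e3a221c2e5)) e e))))))))))))
 (c z e
 (c z
 (c z e
 (c z e
 (c z e
 (c z e
 (c z e
 (c (a (nat_lit 0xa3118aa6006606)) e
 (c z e
 (c z e
 (c z e
 (c z e
 (c z e
 (c z e
 (c (a (nat_lit 0x2b4e180e0400002)) e e)))))))))))))
 (c z
 (c z e
 (c z e
 (c z e
 (c z e
 (c (b (nat_lit 0xb2f1fee68f650a5)) e
 (c z e
 (c z e
 (c z e
 (c z e
 (c z e
 (c (a (nat_lit 0xc93a26040602003)) e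
 (c (a (nat_lit 0x1360a06040000003)) e e))))))))))))
 (c z e
 (c z e
 (c z e
 (c z e
 (c z
 (c (a (nat_lit 0x11f07032d3da0b46)) e
 (c z e
 (c z e
 (c z e
 (c (a (nat_lit 0xac034a000000003)) e e)))))
 (c (a (nat_lit 0xc0c0c0c0c021))
 (c z e
 (c z e
 (c (a (nat_lit 0xdfb39f540000004)) e
 (c (a (nat_lit 0x17aa000000000003)) e e))))
 (c (b (nat_lit 0x6060607fffe1))
 (c (a (nat_lit 0x111171cff3400007)) e
 (c (a (nat_lit 0x263428000000001)) e e))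
 (c (a (nat_lit 0x6080973f2f22)) e
 (c (a (nat_lit 0x7c7d3172f55c3)) e
 (c (a (nat_lit 0x3890b274a9084)) e e)))))))))))))))))) Tr.c Tr.e (nat_lit 0) C.cx C.cy
noncomputable def C822 : Tr := beta% (fun (c : Nat → Tr → Tr → Tr) (e : Tr) (z : Nat) (a b : Nat → Nat) =>
 (c z
 (c z
 (c (a (nat_lit 0x8888888889978f9c2))
 (c z e
 (c z e
 (c z e
 (c z e
 (c z e
 (c z e
 (c z e
 (c z e
 (c z e
 (c z e
 (c z e
 (c z e
 (c z e
 (c z e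
 (c z e
 (c (a (nat_lit 0x4850404e5f180000008)) e e))))))))))))))))
 (c (a (nat_lit 0x424242439b97e9d84)) e
 (c (a (nat_lit 0xe0e0e64666e47126))
 (c z e
 (c z e
 (c z e
 (c z e
 (c z e
 (c z e
 (c z e
 (c z e
 (c z e
 (c (a (nat_lit 0xa847c322a3064d9447)) e
 (c (a (nat_lit 0x449e90ac6834fb7b908)) e e)))))))))))
 (c (a (nat_lit 0xe0e7276743500e26))
 (c z e
 (c z e
 (c z e
 (c z e
 (c (a (nat_lit 0x4e5a45361a405470448)) e
 (c z e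
 (c z e
 (c (a (nat_lit 0x484462a456847c453c7)) e
 (c (a (nat_lit 0x3840344a265530a89c8)) e
 (c (a (nat_lit 0x948eac762cb9371a808)) e e))))))))))
 (c (a (nat_lit 0x271d89730ef03a265))
 (c z e
 (c z e
 (c z e
 (c z e
 (c (a (nat_lit 0x62b05a3c1a686c55787)) e
 (c (a (nat_lit 0xae88582216445b5ee27)) e
 (c (a (nat_lit 0x646c3a283a9770a6707)) e e)))))))
 (c z e
 (c z e
 (c z e
 (c z e
 (c z e
 (c z e
 (c z e
 (c (a (nat_lit 0xe4c2fb1914ba7a3a5)) e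
 (c (a (nat_lit 0x159739b8506b09ac06)) e
 (c (a (nat_lit 0xd0f10304b0a886ca7)) e
 (c (a (nat_lit 0xaccae7616d5525906)) e
 (c (a (nat_lit 0x1f7848c1c68060c2a3)) e e)))))))))))))))))
 (c z
 (c (a (nat_lit 0xe0e0e786a7ea3746))
 (c z e
 (c z e
 (c z e
 (c z e
 (c z e
 (c z e
 (c (a (nat_lit 0xca8e78a094810d634e7)) e
 (c z e
 (c z e
 (c (a (nat_lit 0x6a5c6a92866a8897227)) e
 (c (a (nat_lit 0x1e4a425e28143887567)) e
 (c (a (nat_lit 0x244e6084981aceef028)) e e))))))))))))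
 (c (a (nat_lit 0x10105c646c633b227))
 (c z e
 (c z e
 (c z e
 (c z e
 (c z e
 (c z e
 (c z e
 (c (a (nat_lit 0x4e504eb8565c90af707)) e
 (c (a (nat_lit 0x4a3c6054446a7d90828)) e
 (c (a (nat_lit 0x7e7c4e444ca1bb516c7)) e e))))))))))
 (c z e
 (c z e
 (c z e
 (c z e
 (c z e
 (c z e
 (c z e
 (c z e
 (c z e
 (c z e
 (c z e
 (c z e
 (c z e
 (c (a (nat_lit 0x124b460460e18120e5)) e
 (c (a (nat_lit 0x1146c462c382e2c024)) e e)))))))))))))))))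
 (c z e
 (c z
 (c z e
 (c z e
 (c z e
 (c z e
 (c z e
 (c z e
 (c z e
 (c z e
 (c (a (nat_lit 0x8f238cfaf4b665a05)) e e)))))))))
 (c z
 (c z e
 (c z e
 (c z e
 (c z e
 (c z e
 (c z e
 (c z e
 (c (b (nat_lit 0xd703ff14e4db726e5)) e
 (c z e
 (c z e
 (c z e
 (c z e
 (c (a (nat_lit 0x1f6d668669a4442004)) e e)))))))))))))
 (c z e
 (c (a (nat_lit 0x20202020203066))
 (c z e
 (c z e
 (c z e
 (c z e
 (c z e
 (c (a (nat_lit 0xbba4b8c9b78bbe7e5)) e e))))))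
 (c (a (nat_lit 0x202020203a0be6))
 (c z e
 (c z e
 (c z e
 (c (a (nat_lit 0xa510caf30eb8567c6)) e e))))
 (c (a (nat_lit 0x20202034470846)) e
 (c (a (nat_lit 0x404053caae12c5)) e
 (c (a (nat_lit 0x2037ac0e539225)) e e)))))))))))
 (c z
 (c z
 (c (a (nat_lit 0x16165e726d39f9504)) e
 (c z e
 (c z e
 (c z e
 (c z e
 (c z e
 (c z e
 (c z e
 (c z e
 (c z e
 (c z e
 (c (a (nat_lit 0xecd332f8946c50305)) e e))))))))))))
 (c z
 (c z e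
 (c z e
 (c z e
 (c z e
 (c z e
 (c z e
 (c z e
 (c z e
 (c z e
 (c (a (nat_lit 0x185233d7137351af45)) e
 (c z e
 (c z e
 (c z e
 (c z e
 (c (a (nat_lit 0x10cfe44427a5c62385)) e
 (c (a (nat_lit 0x1da6666daa85400004)) e e))))))))))))))))
 (c z
 (c z e
 (c z e
 (c z e
 (c z e
 (c z e
 (c z e
 (c z e
 (c (a (nat_lit 0x2bb2c0b0bc6d2bc04)) e
 (c (a (nat_lit 0xfecd3162beff71205)) e
 (c (a (nat_lit 0x131097ce4e2e479a05)) e e))))))))))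
 (c z
 (c z e
 (c z e
 (c z e
 (c z e
 (c z e
 (c z e
 (c (a (nat_lit 0x1409a80c0c102d0906)) e
 (c (a (nat_lit 0x832b592f2d1e45925)) e e))))))))
 (c (a (nat_lit 0x20202020203165))
 (c z e
 (c z e
 (c z e
 (c z e
 (c z e
 (c (a (nat_lit 0x2c64bb30ece8dc5a5)) e
 (c (a (nat_lit 0xccaedaecdce32e506)) e e)))))))
 (c (a (nat_lit 0x20202020346e65))
 (c z e
 (c z e
 (c z e
 (c (a (nat_lit 0xaa88b09cf53c62846)) e
 (c (a (nat_lit 0xf728e39bcf69c4d05)) e e)))))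
 (c (a (nat_lit 0x20202035a6e786)) e
 (c (a (nat_lit 0x2038c7c6f6e5)) e
 (c (a (nat_lit 0x2262236bb266)) e e)))))))))
 C821))) Tr.c Tr.e (nat_lit 0) C.cx C.cy
noncomputable def C823 : Tr := beta% (fun (c : Nat → Tr → Tr → Tr) (e : Tr) (z : Nat) (a b : Nat → Nat) =>
 (c z
 (c (a (nat_lit 0x464646464647cb423))
 (c z e
 (c z e
 (c z e
 (c z e
 (c z e
 (c z e
 (c z e
 (c z e
 (c z e
 (c z e
 (c z e
 (c z e
 (c z e
 (c (a (nat_lit 0xd0eaf96785f5c7d7b07)) e e))))))))))))))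
 (c (a (nat_lit 0x303030303191add84)) e
 (c (a (nat_lit 0x38383839bf89b1c64))
 (c z e
 (c z e
 (c z e
 (c z e
 (c z e
 (c z e
 (c z e
 (c z e
 (c z e
 (c z e
 (c (a (nat_lit 0x18266e6e7a2c1271468)) e e)))))))))))
 (c (a (nat_lit 0x1e1e1f0ef2cca59e5))
 (c z e
 (c z e
 (c z e
 (c z e
 (c z e
 (c z e
 (c z e
 (c z e
 (c (a (nat_lit 0x346678788c6675651a7)) e
 (c (a (nat_lit 0x368282a45834bd0cea8)) e e))))))))))
 (c (a (nat_lit 0x24258b75330572965))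
 (c z e
 (c z e
 (c z e
 (c z e
 (c z e
 (c (a (nat_lit 0x48565636323e2c4d6e7)) e
 (c (a (nat_lit 0x604a684446547faaee7)) e e)))))))
 (c z e
 (c z e
 (c z e
 (c z e
 (c z e
 (c z e
 (c z e
 (c z e
 (c (a (nat_lit 0x12b315d8958d062526)) e
 (c (a (nat_lit 0xd2ef0cf8b06a546c7)) e
 (c z e
 (c (a (nat_lit 0xef1c7a1e140e1a045)) e
 (c (a (nat_lit 0x11a761208081202145)) e
 (c (a (nat_lit 0x152947e94a8789c664)) e e)))))))))))))))))))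
 (c z
 (c (a (nat_lit 0x14141414808c6fee4))
 (c z e
 (c z e
 (c z e
 (c z e
 (c z e
 (c z e
 (c z e
 (c z e
 (c z e
 (c z e
 (c z e
 (c z e
 (c (a (nat_lit 0xbc98f55cfedafeb5407)) e e)))))))))))))
 (c (a (nat_lit 0x1010103440349d546))
 (c z e
 (c z e
 (c z e
 (c z e
 (c z e
 (c z e
 (c z e
 (c z e
 (c (a (nat_lit 0x72684242582250f1ae6)) e
 (c (a (nat_lit 0x6a56404a42306d22ec7)) e
 (c (a (nat_lit 0x82aeb528767c9967d87)) e e)))))))))))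
 (c (a (nat_lit 0x16165e8a64a137126))
 (c z e
 (c z e
 (c z e
 (c z e
 (c z e
 (c z e
 (c (a (nat_lit 0x1814264c284e6879a07)) e
 (c (a (nat_lit 0x4e5e5ad67cb8e1c50e6)) e
 (c (a (nat_lit 0x6054de86847c971d447)) e
 (c (a (nat_lit 0x587ea8485670bd06908)) e e))))))))))
 (c z e
 (c z e
 (c z e
 (c z e
 (c z e
 (c z e
 (c z e
 (c z e
 (c (a (nat_lit 0xb4bb251ae2b832305)) e
 (c z e
 (c z e
 (c z e
 (c (a (nat_lit 0xdd344234482c34744)) e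
 (c (a (nat_lit 0x1406e627c6062a45e4)) e e)))))))))))))))))
 (c z
 (c (a (nat_lit 0x2a2a808282f717aa4))
 (c z e
 (c z e
 (c z e
 (c z e
 (c z e
 (c z e
 (c z e
 (c z e
 (c (a (nat_lit 0xa183a220c1ca4a17a6)) e
 (c z e
 (c (a (nat_lit 0x724e803664a723265c7)) e e)))))))))))
 (c z e
 (c z e
 (c z e
 (c z e
 (c z e
 (c z e
 (c z e
 (c z e
 (c (b (nat_lit 0x5f6b5549fffedcd84)) e
 (c (b (nat_lit 0xf1293ecffe8a58545)) e
 (c (a (nat_lit 0xe106f92138e6b51e6)) e e))))))))))))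
 (c z
 (c z e
 (c z e
 (c z e
 (c z e
 (c z e
 (c z e
 (c z e
 (c z e
 (c (a (nat_lit 0xdf1951294730f4ac5)) e
 (c (a (nat_lit 0x10d5b451f1100a1025)) e e))))))))))
 (c z
 (c z e
 (c z e
 (c z e
 (c z e
 (c z e
 (c z e
 (c z e
 (c (a (nat_lit 0xd748f8ed2af67cc45)) e
 (c (a (nat_lit 0x13f02e4f340d8b92c5)) e e)))))))))
 (c z e
 (c z
 (c z e
 (c z e
 (c z e
 (c z e
 (c (a (nat_lit 0x1feca8ae2c4e0c2ba5)) e
 (c (a (nat_lit 0x9f1de35b3aeeb77a4)) e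
 (c (a (nat_lit 0x66bf00e4dfa1cd365)) e e)))))))
 (c (a (nat_lit 0x20202020203385)) e
 (c (a (nat_lit 0x202020203364c5)) e
 (c (a (nat_lit 0x20202057ca8803)) e
 (c (a (nat_lit 0xe26a450e4)) e
 (c (a (nat_lit 0x607cc76351b2a4)) e
 (c z e
 (c z e
 (c z e
 (c z e
 (c z e
 (c z e
 (c (a (nat_lit 0x10ea8da62707c304)) e e)))))))))))))))))))) Tr.c Tr.e (nat_lit 0) C.cx C.cy
noncomputable def C824 : Tr := beta% (fun (c : Nat → Tr → Tr → Tr) (e : Tr) (z : Nat) (a b : Nat → Nat) =>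
 (c z
 (c z
 (c z e
 (c z e
 (c z e
 (c z e
 (c z e
 (c z e
 (c z e
 (c z e
 (c z e
 (c (a (nat_lit 0xb2d34ace907a84b65)) e
 (c (a (nat_lit 0x199cda3791ce2c4645)) e e)))))))))))
 (c z
 (c z e
 (c z e
 (c z e
 (c z e
 (c z e
 (c z e
 (c z e
 (c z e
 (c (a (nat_lit 0xc71ab872185c665a6)) e e)))))))))
 (c z
 (c z e
 (c z e
 (c z e
 (c z e
 (c z e
 (c z e
 (c (a (nat_lit 0x81492f50e8b4caf66)) e
 (c (a (nat_lit 0x1adf5cee620766b8e5)) e e))))))))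
 (c (a (nat_lit 0x20202020203845))
 (c z e
 (c z e
 (c z e
 (c z e
 (c z e
 (c (a (nat_lit 0xa08eb1266d0e78cc5)) e e))))))
 (c (a (nat_lit 0x404040405b4505))
 (c z e
 (c z e
 (c z e
 (c z e
 (c z e
 (c (a (nat_lit 0x17b19a3aa9d1dd4fa5)) e e))))))
 (c (a (nat_lit 0x20202036810186)) e
 (c (a (nat_lit 0x203e05c0b345)) e
 (c (a (nat_lit 0x2032c701b452c5)) e e))))))))
 (c z
 (c z
 (c z e
 (c z e
 (c z e
 (c z e
 (c z e
 (c z e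
 (c z e
 (c (a (nat_lit 0xc9432e74b432956e4)) e
 (c (a (nat_lit 0x11afe9e8c4e647f465)) e e)))))))))
 (c (a (nat_lit 0x202020202031c6))
 (c z e
 (c z e
 (c z e
 (c z e
 (c z e
 (c z e
 (c (a (nat_lit 0x8cdd70cef0dd49586)) e e)))))))
 (c (a (nat_lit 0x404040405d63c5)) e
 (c (a (nat_lit 0x202020300741c6))
 (c z e
 (c z e
 (c z e
 (c z e
 (c (a (nat_lit 0x1c3c5427eef4e50145)) e e)))))
 (c (a (nat_lit 0x202039036509c6)) e
 (c (a (nat_lit 0x20318461c55206)) e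
 (c z e
 (c z e
 (c z e
 (c z e
 (c z e
 (c z e
 (c z e
 (c z e
 (c z e
 (c (a (nat_lit 0x184cacecc2002005)) e e))))))))))))))))
 (c z
 (c (a (nat_lit 0xa0a0a0a0be8144))
 (c z e
 (c z e
 (c z e
 (c z e
 (c z e
 (c z e
 (c (a (nat_lit 0xe2b502f08e926e666)) e e)))))))
 (c (a (nat_lit 0x2020203f0a0025))
 (c z e
 (c z e
 (c z e
 (c z e
 (c z e
 (c z e
 (c (b (nat_lit 0x78b2fdfec4c3b6906)) e e)))))))
 (c (a (nat_lit 0x202032c6e0a246))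
 (c z e
 (c z e
 (c z e
 (c (b (nat_lit 0x1a4a073fe6e481e625)) e
 (c (a (nat_lit 0xc8be0e81108809966)) e e)))))
 (c (a (nat_lit 0x2036e303c8edc6)) e
 (c z e
 (c z e
 (c z e
 (c z e
 (c z e
 (c z e
 (c z e
 (c z e
 (c z e
 (c (a (nat_lit 0x11b5404140834043)) e e))))))))))))))
 (c z
 (c (a (nat_lit 0x20203ed1a041c4))
 (c z e
 (c z e
 (c z e
 (c z e
 (c (a (nat_lit 0x1147ea0ee82301b2e5)) e e)))))
 (c (a (nat_lit 0x20314aa12088c6))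
 (c z e
 (c z e
 (c z e
 (c (a (nat_lit 0x1992da3391904f1087)) e e)))) e))
 (c z
 (c z e
 (c z e
 (c z e
 (c z e
 (c z e
 (c z e
 (c z e
 (c z e
 (c z e
 (c z e
 (c z e
 (c z e
 (c z e
 (c z e
 (c (a (nat_lit 0x1801e4c140200003)) e e)))))))))))))))
 (c z e
 (c z e
 (c z e
 (c z e
 (c z e
 (c z e
 (c z
 (c z e
 (c z e
 (c z e
 (c z e
 (c (a (nat_lit 0xe5762a720000002)) e
 (c (a (nat_lit 0x12e0400000000002)) e e))))))
 (c z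
 (c z e
 (c z e
 (c (a (nat_lit 0x1292db18d6400005)) e
 (c (a (nat_lit 0x3daa2000000003)) e
 (c (a (nat_lit 0x1380000000000003)) e e)))))
 (c (a (nat_lit 0x808080a0bd81))
 (c (a (nat_lit 0xfcff030cff08007)) e
 (c (a (nat_lit 0x60bc9420000001)) e
 (c (a (nat_lit 0x8800000000001)) e e)))
 (c (a (nat_lit 0x40404059ef83)) e
 (c (a (nat_lit 0x60607a0fb023)) e
 (c (a (nat_lit 0x3839d52d35503)) e e)))))))))))))))))) Tr.c Tr.e (nat_lit 0) C.cx C.cy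
noncomputable def C825 : Tr := beta% (fun (c : Nat → Tr → Tr → Tr) (e : Tr) (z : Nat) (a b : Nat → Nat) =>
 (c z
 (c (a (nat_lit 0xe2e2e2e2e2e2319a2))
 (c z e
 (c z e
 (c z e
 (c z e
 (c z e
 (c z e
 (c z e
 (c z e
 (c z e
 (c z e
 (c z e
 (c z e
 (c z e
 (c z e
 (c (a (nat_lit 0x5c6c9cacae9bf4aa887)) e e)))))))))))))))
 (c (a (nat_lit 0x7c7c7c7c7d9705863)) e
 (c (a (nat_lit 0x3636363716d0ada04))
 (c z e
 (c z e
 (c z e
 (c z e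
 (c z e
 (c z e
 (c z e
 (c z e
 (c z e
 (c (a (nat_lit 0x301cc4b4581c383b487)) e e))))))))))
 (c (a (nat_lit 0xe0e0e86403c513e6))
 (c z e
 (c z e
 (c z e
 (c z e
 (c z e
 (c z e
 (c z e
 (c z e
 (c (a (nat_lit 0x26baf4988446a76adc7)) e e)))))))))
 (c (a (nat_lit 0x1e1f40ece53f69545))
 (c z e
 (c z e
 (c z e
 (c z e
 (c z e
 (c z e
 (c (a (nat_lit 0x4a58381c1a185ef5507)) e
 (c (a (nat_lit 0x1e35cdea0b2cddf2f846)) e
 (c (a (nat_lit 0x9aaabe865286494e3c8)) e e)))))))))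
 (c z e
 (c z e
 (c z e
 (c z e
 (c z e
 (c z e
 (c z e
 (c (a (nat_lit 0xd52124fcc2bc58565)) e
 (c (a (nat_lit 0x15f61732542bc88bc6)) e e))))))))))))))
 (c z
 (c (a (nat_lit 0x18181818fc46619e5)) e
 (c (a (nat_lit 0xe0e0e6c2e2a8f227))
 (c z e
 (c z e
 (c z e
 (c z e
 (c z e
 (c z e
 (c z e
 (c z e
 (c (a (nat_lit 0x363a4874202c3047d28)) e
 (c (a (nat_lit 0x5cf7147a283e6150e27)) e e))))))))))
 (c (a (nat_lit 0x1c1d46d0e53bf5b46))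
 (c z e
 (c z e
 (c z e
 (c z e
 (c z e
 (c z e
 (c (a (nat_lit 0x5a86c43c68b4cea96e7)) e
 (c (a (nat_lit 0x468e7c6272607b13567)) e e))))))))
 (c z e
 (c z e
 (c z e
 (c z e
 (c z e
 (c z e
 (c z e
 (c z e
 (c (a (nat_lit 0xe72b3f2342cca4866)) e
 (c (b (nat_lit 0x15f7db7f3ff0cccde6)) e e)))))))))))))
 (c z
 (c (a (nat_lit 0xe0e623e3c9102fe6))
 (c z e
 (c z e
 (c z e
 (c z e
 (c z e
 (c z e
 (c z e
 (c z e
 (c (a (nat_lit 0x484a92645454d1ee947)) e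
 (c (a (nat_lit 0x62828810447b64796e7)) e e))))))))))
 (c z e
 (c z e
 (c z e
 (c z e
 (c z e
 (c z e
 (c z e
 (c z e
 (c z e
 (c (a (nat_lit 0x1318be5ef7d00c0a66)) e e)))))))))))
 (c z
 (c z e
 (c z e
 (c z e
 (c z e
 (c z e
 (c z e
 (c z e
 (c z e
 (c z e
 (c (a (nat_lit 0x952302c8ae422e246)) e
 (c z e
 (c z e
 (c z e
 (c z e
 (c z e
 (c (a (nat_lit 0x262b111e760000004)) e e))))))))))))))))
 (c z
 (c z e
 (c z e
 (c z e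
 (c z e
 (c z e
 (c z e
 (c z e
 (c (a (nat_lit 0x1026889cb08625506)) e e))))))))
 (c z e
 (c z e
 (c (a (nat_lit 0x20202020203a06)) e
 (c (a (nat_lit 0x20202020320246))
 (c (a (nat_lit 0xa18450363d667424)) e e)
 (c (a (nat_lit 0x2020203aa8a2e5)) e
 (c (a (nat_lit 0x20203e23839605)) e
 (c (a (nat_lit 0x3321e10ace86)) e
 (c z e
 (c z e
 (c z e
 (c z e
 (c z e
 (c z e
 (c z e
 (c z e
 (c (a (nat_lit 0xe1f8f6fcd24e004)) e e)))))))))))))))))))))) Tr.c Tr.e (nat_lit 0) C.cx C.cy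
noncomputable def C826 : Tr := beta% (fun (c : Nat → Tr → Tr → Tr) (e : Tr) (z : Nat) (a b : Nat → Nat) =>
 (c z
 (c (a (nat_lit 0x1a1a1a1a1a1a1b145))
 (c z e
 (c z e
 (c z e
 (c z e
 (c z e
 (c z e
 (c z e
 (c z e
 (c z e
 (c z e
 (c z e
 (c (a (nat_lit 0x204e90725bc98c7eca6)) e
 (c (a (nat_lit 0x768284847f7d9779007)) e e)))))))))))))
 (c (a (nat_lit 0x18181818181928706)) e
 (c (a (nat_lit 0x18181818192a84886))
 (c z e
 (c z e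
 (c z e
 (c z e
 (c z e
 (c z e
 (c z e
 (c z e
 (c z e
 (c (a (nat_lit 0x48343510f0681816387)) e e))))))))))
 (c (a (nat_lit 0x181818197ab294a26))
 (c z e
 (c z e
 (c z e
 (c z e
 (c z e
 (c z e
 (c z e
 (c z e
 (c (a (nat_lit 0x30288a9066562849528)) e e)))))))))
 (c (a (nat_lit 0x1010111e8a6c7eca7))
 (c z e
 (c z e
 (c z e
 (c z e
 (c z e
 (c z e
 (c (a (nat_lit 0x1a303e4830221c47628)) e
 (c (a (nat_lit 0x3f04fa6a94523ba5307)) e e))))))))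
 (c (a (nat_lit 0xe0f0ac2a69c6e627))
 (c z e
 (c z e
 (c z e
 (c z e
 (c (a (nat_lit 0x3c564c5e3c506f0ffa7)) e
 (c (a (nat_lit 0x2e2e5c284630322b8e8)) e
 (c (a (nat_lit 0x7e9e3c5a203074a9568)) e
 (c (a (nat_lit 0xeed304603e4a75c2848)) e e))))))))
 (c z e
 (c z e
 (c z e
 (c z e
 (c z e
 (c z e
 (c z e
 (c (a (nat_lit 0x1557bcf7930e2869e7)) e
 (c z e
 (c z e
 (c (a (nat_lit 0xeb02e6423e14060a5)) e e)))))))))))))))))
 (c z
 (c (a (nat_lit 0x18181818194662585)) e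
 (c (a (nat_lit 0x20202020f05439626))
 (c z e
 (c z e
 (c z e
 (c z e
 (c z e
 (c z e
 (c z e
 (c z e
 (c z e
 (c (a (nat_lit 0x648aa2c48c7a12173e7)) e e))))))))))
 (c (a (nat_lit 0x16161776d2ab63da6))
 (c z e
 (c z e
 (c z e
 (c z e
 (c z e
 (c z e
 (c z e
 (c (a (nat_lit 0x744a827c9680ce6fee7)) e
 (c (a (nat_lit 0x368e770c968a5c9daa7)) e e)))))))))
 (c (a (nat_lit 0x1010fa7a56bd1aa07))
 (c z e
 (c z e
 (c z e
 (c z e
 (c z e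
 (c (a (nat_lit 0x1c163a4c301c1037648)) e
 (c (a (nat_lit 0x222c403c283c4f51e68)) e
 (c (a (nat_lit 0x44524864401e7105308)) e
 (c (a (nat_lit 0x7884ba7e48ce69c8928)) e e)))))))))
 (c z e
 (c z e
 (c z e
 (c z e
 (c z e
 (c z e
 (c z e
 (c z e
 (c (a (nat_lit 0xd547552adac664667)) e
 (c z e
 (c z e
 (c z e
 (c (a (nat_lit 0x1e33e782e3a2c6c444)) e e)))))))))))))))))
 (c z
 (c (a (nat_lit 0x161616e44236f11e5))
 (c z e
 (c z e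
 (c z e
 (c z e
 (c z e
 (c z e
 (c z e
 (c z e
 (c (a (nat_lit 0x30182e82744a1315fa6)) e
 (c (a (nat_lit 0x3042545c2c144ab3b07)) e
 (c (a (nat_lit 0x64acc4dc386a7927147)) e e)))))))))))
 (c (a (nat_lit 0x1617309e6ea92d7c6))
 (c z e
 (c z e
 (c z e
 (c z e
 (c z e
 (c (a (nat_lit 0x5296b6528e581c6f0e7)) e
 (c (a (nat_lit 0x5c3a504a583682ad688)) e
 (c (a (nat_lit 0x1a28423e1e385b51a68)) e
 (c (a (nat_lit 0x3c3e682e38229f27528)) e e)))))))))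
 (c z e
 (c z e
 (c z e
 (c z e
 (c z e
 (c z e
 (c z e
 (c z e
 (c (b (nat_lit 0xfbf1f1ffff4278265)) e
 (c z e
 (c z e
 (c z e
 (c z e
 (c z e
 (c (a (nat_lit 0x124aaa6624c5240004)) e e)))))))))))))))))
 (c z
 (c z e
 (c z e
 (c z e
 (c z e
 (c z e
 (c z e
 (c z e
 (c z e
 (c z e
 (c (a (nat_lit 0xfcb332fb02f4b6a46)) e e))))))))))
 (c z
 (c z e
 (c z e
 (c z e
 (c z e
 (c z e
 (c z e
 (c z e
 (c z e
 (c (a (nat_lit 0xbd1b7b69c1f120e85)) e e)))))))))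
 (c z
 (c z e
 (c z e
 (c z e
 (c z e
 (c z e
 (c z e
 (c (a (nat_lit 0x179670f91ebad95985)) e e)))))))
 (c z
 (c z e
 (c z e
 (c z e
 (c z e
 (c z e
 (c (b (nat_lit 0x9247ff0c74c6cc786)) e e))))))
 (c z e
 (c (a (nat_lit 0x20202020203cc5)) e
 (c (a (nat_lit 0x40404040586565)) e
 (c (a (nat_lit 0x2020203bc501a5)) e
 (c (a (nat_lit 0x20203182a025a6)) e
 (c (a (nat_lit 0x607c652147b325)) e
 (c z e
 (c z e
 (c z e
 (c z e
 (c z e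
 (c z e
 (c z e
 (c (a (nat_lit 0xd8c90c020e1c004)) e e)))))))))))))))))))))) Tr.c Tr.e (nat_lit 0) C.cx C.cy
noncomputable def C827 : Tr := beta% (fun (c : Nat → Tr → Tr → Tr) (e : Tr) (z : Nat) (a b : Nat → Nat) =>
 (c z
 (c z
 (c z
 (c (a (nat_lit 0x78787876587ab929084)) e
 (c (a (nat_lit 0x525288609aeb7744fa5)) e e))
 (c z
 (c z e
 (c z e
 (c z e
 (c z e
 (c z e
 (c z e
 (c z e
 (c z e
 (c z e
 (c z e
 (c z e
 (c (a (nat_lit 0x508c869464618748426)) e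
 (c (a (nat_lit 0xa07a7a7e828b1723467)) e e)))))))))))))
 (c (a (nat_lit 0x1c1c1c1c1c1c1dc04))
 (c z e
 (c z e
 (c z e
 (c z e
 (c z e
 (c z e
 (c z e
 (c z e
 (c z e
 (c z e
 (c z e
 (c (a (nat_lit 0xd6a6b8d2c7cbcb5a806)) e
 (c (a (nat_lit 0x3e729694acdb70ca328)) e e)))))))))))))
 (c (a (nat_lit 0x2828282828293a184)) e
 (c (a (nat_lit 0x2828282829b0be4c4))
 (c z e
 (c z e
 (c z e
 (c z e
 (c z e
 (c z e
 (c z e
 (c z e
 (c z e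
 (c (a (nat_lit 0x726862e8eab02c374e7)) e e))))))))))
 (c (a (nat_lit 0x1e1e1e1fcab242745))
 (c z e
 (c z e
 (c z e
 (c z e
 (c z e
 (c z e
 (c z e
 (c (a (nat_lit 0x6056946c36a0581f147)) e
 (c (a (nat_lit 0x5464acb09e6c4331187)) e
 (c (a (nat_lit 0x1693f55f7b8ad0ef3427)) e e))))))))))
 (c (a (nat_lit 0x10101108b69884786))
 (c z e
 (c z e
 (c z e
 (c z e
 (c z e
 (c z e
 (c (a (nat_lit 0x64827650583c5c83267)) e
 (c (a (nat_lit 0x6ec6ccba687a3cc56e7)) e e))))))))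
 (c (a (nat_lit 0x1c1dc120d2db08745))
 (c z e
 (c z e
 (c z e
 (c z e
 (c (a (nat_lit 0x2c2a201c2a2c58cb288)) e
 (c (a (nat_lit 0x4238183a322ac6b13a8)) e
 (c (a (nat_lit 0xf6cef0a6810ac7a6cc7)) e e)))))))
 (c z e
 (c z e
 (c z e
 (c z e
 (c z e
 (c z e
 (c (a (nat_lit 0x19f85995d26e458686)) e
 (c (a (nat_lit 0x10d1b152302a86e847)) e
 (c (a (nat_lit 0x18f85a1c1a4fcc8c46)) e e)))))))))))))))))
 C826)
 (c z C825
 (c z
 (c z
 (c (a (nat_lit 0x282829266e5bc1924)) e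
 (c (b (nat_lit 0xc0c6a3dfee0df586))
 (c z e
 (c z e
 (c z e
 (c z e
 (c z e
 (c z e
 (c z e
 (c (a (nat_lit 0xae869034627c6c69e46)) e
 (c (a (nat_lit 0x3e3e4846281c6350327)) e
 (c (a (nat_lit 0xa2c890a01e4f7b83206)) e e))))))))))
 (c z e
 (c z e
 (c z e
 (c z e
 (c z e
 (c z e
 (c z e
 (c z e
 (c (a (nat_lit 0xbb6080a48a36564e5)) e
 (c (a (nat_lit 0x166c6f706b070562e5)) e e))))))))))))
 (c z
 (c z e
 (c z e
 (c z e
 (c z e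
 (c z e
 (c z e
 (c z e
 (c z e
 (c z e
 (c z e
 (c (a (nat_lit 0x14fb1c33aac8a4e386)) e e)))))))))))
 (c z
 (c z e
 (c z e
 (c z e
 (c z e
 (c z e
 (c z e
 (c z e
 (c z e
 (c (a (nat_lit 0x60f52908aa4218fa6)) e e)))))))))
 (c z
 (c z e
 (c z e
 (c z e
 (c z e
 (c z e
 (c z e
 (c z e
 (c (a (nat_lit 0x949ccd08b843036e5)) e
 (c (a (nat_lit 0xe31d2912c28e867a6)) e e)))))))))
 (c z
 (c z e
 (c z e
 (c z e
 (c z e
 (c z e
 (c (a (nat_lit 0x14a484be92ad172c5)) e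
 (c (a (nat_lit 0x9cd2f2cecd17790a6)) e e)))))))
 (c (a (nat_lit 0x20202020203da5))
 (c z e
 (c z e
 (c z e
 (c z e
 (c (a (nat_lit 0xea72ee94f0dadd1e6)) e e)))))
 (c (a (nat_lit 0x20202020362246)) e
 (c (a (nat_lit 0x2020203fa84245)) e
 (c (a (nat_lit 0x20203449833fa5)) e
 (c (a (nat_lit 0x202c0242103106)) e
 (c z e
 (c z e
 (c z e
 (c z e
 (c z e
 (c z e
 (c z e
 (c z e
 (c z e
 (c (a (nat_lit 0x1eb0381240204004)) e e))))))))))))))))))))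
 C824)))) Tr.c Tr.e (nat_lit 0) C.cx C.cy

end Pool.Agent.Work.MP_82fd4a_nt.P.H
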