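import Pool.Agent.Work.MP_82fd4a_nt.P.Dx

set_option autoImplicit false
set_option linter.all false
set_option maxRecDepth 100000

namespace Pool.Agent.Work.MP_82fd4a_nt.P.H
open Y Y.Tr

noncomputable def C828 : Tr := beta% (fun (c : Nat → Tr → Tr → Tr) (e : Tr) (z : Nat) (a b : Nat → Nat) =>
 (c z
 (c z
 (c z e
 (c z e
 (c z e
 (c z e
 (c z e
 (c z e
 (c z e
 (c z e
 (c z e
 (c z e
 (c z e
 (c (a (nat_lit 0x1c264038363714d0466)) e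
 (c (a (nat_lit 0x54625a586679555b886)) e e)))))))))))))
 (c (a (nat_lit 0x22222222222223664))
 (c z e
 (c z e
 (c z e
 (c z e
 (c z e
 (c z e
 (c z e
 (c z e
 (c z e
 (c z e
 (c (a (nat_lit 0x12344c34332f025e246)) e
 (c (a (nat_lit 0x6872686e794f451c727)) e e))))))))))))
 (c (a (nat_lit 0x26262626262732304))
 (c z e
 (c z e
 (c z e
 (c z e
 (c z e
 (c z e
 (c z e
 (c z e
 (c z e
 (c z e
 (c z e
 (c z e
 (c z e
 (c (a (nat_lit 0x6e7280848a978c00009)) e e))))))))))))))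
 (c (a (nat_lit 0x1818181819083e425)) e
 (c (a (nat_lit 0x1a1a1a1bc6945f165))
 (c z e
 (c z e
 (c z e
 (c z e
 (c z e
 (c z e
 (c z e
 (c (a (nat_lit 0x4a4559089836601f8a6)) e e))))))))
 (c (a (nat_lit 0x1a1a1bbb1066f0b45))
 (c z e
 (c z e
 (c z e
 (c z e
 (c z e
 (c (a (nat_lit 0x1228264e2a12283b147)) e
 (c z e
 (c (a (nat_lit 0x1ed0d4ce4026368bee7)) e e))))))))
 (c (a (nat_lit 0x1819f734670ae3165))
 (c z e
 (c z e
 (c z e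
 (c z e
 (c (a (nat_lit 0x3e3e4e54261a6113907)) e
 (c (a (nat_lit 0x82765e2a2a24ddbbac7)) e
 (c (a (nat_lit 0xd2f0d62e341a39d8487)) e e)))))))
 (c z e
 (c z e
 (c z e
 (c z e
 (c z e
 (c z e
 (c (a (nat_lit 0x1c57db5af4aaa7a426)) e
 (c (a (nat_lit 0x101133528fab2a4727)) e
 (c z e
 (c (a (nat_lit 0x1d32316e8b034322e4)) e
 (c (a (nat_lit 0x155491ae46a66646a4)) e e))))))))))))))))))
 (c z
 (c (a (nat_lit 0x14141414141512224)) e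
 (c (a (nat_lit 0x2a2a2a2a2b5450404)) e
 (c (a (nat_lit 0x181818194898b3945)) e
 (c (a (nat_lit 0xe0e0ee65844df3a6))
 (c z e
 (c z e
 (c z e
 (c z e
 (c z e
 (c z e
 (c (a (nat_lit 0x142a2a3e1a0c164d547)) e
 (c (a (nat_lit 0x384a6c5a4c302a3b707)) e
 (c (a (nat_lit 0x648c92aaa0585ecdcc7)) e e)))))))))
 (c (a (nat_lit 0x1a1b56e65b811ef05))
 (c z e
 (c z e
 (c z e
 (c z e
 (c z e
 (c (a (nat_lit 0x283452402e1c3f71467)) e
 (c (a (nat_lit 0x4a78606c0e2850bf087)) e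
 (c (a (nat_lit 0x9ca8ac78607c8fd0a07)) e e))))))))
 (c z e
 (c z e
 (c z e
 (c z e
 (c z e
 (c z e
 (c z e
 (c z e
 (c (a (nat_lit 0x1cdd5e1e181473f506)) e
 (c z e
 (c (a (nat_lit 0x12d252a66705e5e5e4)) e
 (c (a (nat_lit 0x10102424c3c3a3a524)) e
 (c (a (nat_lit 0x108485246423a504c4)) e e))))))))))))))))))
 (c z
 (c (a (nat_lit 0x181818188824371e4)) e
 (c (a (nat_lit 0x121212783a4a73126))
 (c z e
 (c z e
 (c z e
 (c z e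
 (c z e
 (c z e
 (c (a (nat_lit 0x7e3e38682a7e1ca17e6)) e
 (c (a (nat_lit 0x81c2e403616188f987)) e
 (c (a (nat_lit 0x76805f2c805e8747da6)) e e)))))))))
 (c (a (nat_lit 0x1819104426eba2c25))
 (c z e
 (c z e
 (c z e
 (c z e
 (c z e
 (c (a (nat_lit 0x52345022200c4863967)) e
 (c (a (nat_lit 0x3a40302e242866d5b08)) e
 (c (a (nat_lit 0x4e124e28382b0788da7)) e
 (c (a (nat_lit 0x5ac8d6a644bb7b98be6)) e e)))))))))
 (c z e
 (c z e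
 (c z e
 (c z e
 (c z e
 (c z e
 (c z e
 (c z e
 (c (a (nat_lit 0xd52136bac8a08e966)) e
 (c (a (nat_lit 0xd0d0ff092d1cd2fc7)) e
 (c z e
 (c z e
 (c z e
 (c (a (nat_lit 0x108b84a2c1a2a18104)) e e)))))))))))))))))
 (c z
 (c (a (nat_lit 0xc0c5e304a4542bc5))
 (c z e
 (c z e
 (c z e
 (c z e
 (c z e
 (c z e
 (c z e
 (c (a (nat_lit 0xe182e1010243e8f067)) e e))))))))
 (c z e
 (c z e
 (c z e
 (c z e
 (c z e
 (c z e
 (c z e
 (c z e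
 (c z e
 (c z e
 (c z e
 (c z e
 (c (a (nat_lit 0x19c7ae0e65a443c364)) e e))))))))))))))
 (c z
 (c z e
 (c z e
 (c z e
 (c z e
 (c z e
 (c z e
 (c z e
 (c z e
 (c (b (nat_lit 0x52c8adff00d73afc5)) e e)))))))))
 (c z
 (c z e
 (c z e
 (c z e
 (c z e
 (c z e
 (c z e
 (c z e
 (c (a (nat_lit 0x8492aef5372d24ec5)) e e))))))))
 (c z e
 (c z e
 (c z e
 (c (a (nat_lit 0x40404040405484)) e
 (c (a (nat_lit 0x2020202037e504)) e
 (c (a (nat_lit 0x20202039a560a4)) e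
 (c (a (nat_lit 0x1e1e1f486c30464)) e
 (c (a (nat_lit 0x1e1e7e6a0423384)) e
 (c z e
 (c z e
 (c z e
 (c (a (nat_lit 0x10354cda12042c4)) e
 (c (a (nat_lit 0x557100344052164)) e e)))))))))))))))))))) Tr.c Tr.e (nat_lit 0) C.cx C.cy
noncomputable def C829 : Tr := beta% (fun (c : Nat → Tr → Tr → Tr) (e : Tr) (z : Nat) (a : Nat → Nat) =>
 (c z
 (c z
 (c (a (nat_lit 0x38383838383839044e2)) e
 (c (a (nat_lit 0x606060606061a882ca2)) e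
 (c (a (nat_lit 0x30303030310c4c368e3)) e
 (c (a (nat_lit 0x222222229a2e2a850c4)) e
 (c (a (nat_lit 0x525252e04a509389003)) e e)))))
 (c z
 (c (a (nat_lit 0xa4a4a4a4a51a4fb3182)) e
 (c (a (nat_lit 0x36363636b052729b1a5)) e
 (c (a (nat_lit 0x1e1e1e5c1e2e750a9a6)) e
 (c (a (nat_lit 0x4242662a4c695f43105)) e e))))
 (c z
 (c (a (nat_lit 0x3838385e3c42b913804)) e
 (c (a (nat_lit 0x4040883248ffa170aa5)) e
 (c z e
 (c z e
 (c z e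
 (c z e
 (c z e
 (c z e
 (c z e
 (c z e
 (c z e
 (c z e
 (c (a (nat_lit 0x8ed8cee0d6bab28fc64)) e e)))))))))))))
 (c z
 (c z e
 (c z e
 (c z e
 (c z e
 (c z e
 (c z e
 (c z e
 (c z e
 (c z e
 (c z e
 (c z e
 (c z e
 (c (a (nat_lit 0x84a70f2923250107ba6)) e
 (c (a (nat_lit 0xb8f90f0d132b20eb287)) e e))))))))))))))
 (c z
 (c z e
 (c z e
 (c z e
 (c z e
 (c z e
 (c z e
 (c z e
 (c z e
 (c z e
 (c z e
 (c z e
 (c (a (nat_lit 0xbf2b25292d09175e646)) e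
 (c z e
 (c (a (nat_lit 0x9c9aaabcd8c2a297d47)) e e))))))))))))))
 (c (a (nat_lit 0x6e70707070706f4e2)) e
 (c (a (nat_lit 0x222222222223d26c3)) e
 (c (a (nat_lit 0x2626262627fd940a3)) e
 (c (a (nat_lit 0x14141415530c1c364)) e
 (c (a (nat_lit 0x141415c0744a963e4)) e
 (c (a (nat_lit 0x1a1b0290144c76264)) e
 (c z e
 (c z e
 (c z e
 (c z e
 (c z e
 (c (a (nat_lit 0x12b252729210cec926)) e
 (c (a (nat_lit 0x16b6d73392502763c5)) e e))))))))))))))))))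
 (c z
 (c z
 (c (a (nat_lit 0x5e5e5e5e5e2c94aba84)) e
 (c (a (nat_lit 0x606060f282e111f5ee5)) e
 (c (a (nat_lit 0x2e2e64284aafb127066)) e
 (c z e
 (c z e
 (c z e
 (c z e
 (c z e
 (c z e
 (c z e
 (c z e
 (c z e
 (c z e
 (c (a (nat_lit 0x72aad0aca8b8d6bddc5)) e e))))))))))))))
 (c z
 (c (a (nat_lit 0x7070cca4d529bfeb0a5)) e
 (c z e
 (c z e
 (c z e
 (c z e
 (c z e
 (c z e
 (c z e
 (c z e
 (c z e
 (c z e
 (c (a (nat_lit 0x3e40646c8a5e596d1c6)) e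
 (c (a (nat_lit 0x50525254545c4ca7227)) e e)))))))))))))
 (c z
 (c z e
 (c z e
 (c z e
 (c z e
 (c z e
 (c z e
 (c z e
 (c z e
 (c z e
 (c z e
 (c (a (nat_lit 0x9056acc87c8f236ec45)) e
 (c (a (nat_lit 0x928ea6a2ac9f7b64fe6)) e e))))))))))))
 (c (a (nat_lit 0x46464646464647c43))
 (c z e
 (c z e
 (c z e
 (c z e
 (c z e
 (c z e
 (c z e
 (c z e
 (c z e
 (c z e
 (c (a (nat_lit 0x7c907a9283876eb00e6)) e
 (c (a (nat_lit 0x7a90acb2b6bd2494688)) e e))))))))))))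
 (c (a (nat_lit 0x424242424243f22e3)) e
 (c (a (nat_lit 0x1a1a1a1a1ba0841a5))
 (c z e
 (c z e
 (c z e
 (c z e
 (c z e
 (c z e
 (c z e
 (c z e
 (c (a (nat_lit 0x424a3e9eba50501d0c7)) e e)))))))))
 (c (a (nat_lit 0x1e1e1e1fc1469a7a5))
 (c z e
 (c z e
 (c z e
 (c z e
 (c z e
 (c z e
 (c z e
 (c z e
 (c (a (nat_lit 0xb2a2c50ab2381ef6b48)) e e)))))))))
 (c (a (nat_lit 0x1a1a1bdb4e7e88ce5))
 (c z e
 (c z e
 (c z e
 (c z e
 (c (a (nat_lit 0x264e48205834346fb67)) e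
 (c (a (nat_lit 0x404e363a423e34d54c8)) e
 (c (a (nat_lit 0x3478984e4218f29fce7)) e e)))))))
 (c (a (nat_lit 0xc0d125e5e7a60486))
 (c z e
 (c (a (nat_lit 0x122bc8a98608ce4cba06)) e
 (c z e
 (c (a (nat_lit 0x48503e5046485cbb568)) e
 (c (a (nat_lit 0x46342a3e2a22c6990c8)) e
 (c (a (nat_lit 0xf6f0ccb284b963bafa7)) e e))))))
 (c z e
 (c z e
 (c z e
 (c z e
 (c z e
 (c z e
 (c (a (nat_lit 0x19f7b9385653cc49a7)) e
 (c (a (nat_lit 0x1c5f7d9cb9d32c6d86)) e e)))))))))))))))))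
 C828))) Tr.c Tr.e (nat_lit 0) C.cx
noncomputable def C830 : Tr := beta% (fun (c : Nat → Tr → Tr → Tr) (e : Tr) (z : Nat) (a b : Nat → Nat) =>
 (c z
 (c (a (nat_lit 0xa4a4a4a4a4a59a1))
 (c z e
 (c (a (nat_lit 0xa3309eb46a6700c25)) e
 (c z e
 (c z e
 (c z e
 (c z e
 (c z e
 (c (a (nat_lit 0x116e7b788a45ad1265)) e
 (c (a (nat_lit 0xb9a3b0a060426f8c5)) e
 (c (a (nat_lit 0x1bbb6cae11eacf7445)) e e))))))))))
 (c (a (nat_lit 0xc0c0c0c0c120462))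
 (c (a (nat_lit 0x120766e3a1e91267e5)) e
 (c z e
 (c z e
 (c z e
 (c (a (nat_lit 0x6498a03f38e09e325)) e
 (c z e
 (c z e
 (c z e
 (c (a (nat_lit 0x150d8d902eecf7f9e6)) e e)))))))))
 (c (b (nat_lit 0x424242435bfe0e3))
 (c z e
 (c z e
 (c (a (nat_lit 0x97ec0451454a0504)) e
 (c (a (nat_lit 0x15f0a94d246f4d15c5)) e e))))
 (c (a (nat_lit 0x20203161646485)) e
 (c (a (nat_lit 0x607481e120d124)) e
 (c (a (nat_lit 0x2621e241d2aaa4))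
 (c (a (nat_lit 0x427e92927cc4ef465)) e
 (c z e
 (c z e
 (c z e
 (c (a (nat_lit 0x90fd32c62e6e00005)) e e)))))
 (c z e
 (c z e
 (c z e
 (c (a (nat_lit 0xe585cb7dd90c025)) e
 (c z e
 (c z e
 (c z e
 (c (a (nat_lit 0x1348eda5a120e144)) e
 (c (a (nat_lit 0x10fa0a4160c302a3)) e
 (c (a (nat_lit 0x19c9e02062c260c3)) e e))))))))))))))))
 (c z
 (c (a (nat_lit 0xd2d2d2d49c2c061))
 (c (a (nat_lit 0x7c6c5c3659e2dbce4)) e
 (c z e
 (c z e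
 (c z e
 (c z e
 (c z e
 (c (a (nat_lit 0xeff3f490aedc34e64)) e
 (c (a (nat_lit 0xb4b24c325840912c6)) e
 (c (a (nat_lit 0xfcd0ecdca2cd89d66)) e e)))))))))
 (c (a (nat_lit 0xf0f0f154c2b6024)) e
 (c (a (nat_lit 0x2e2f6c54aca82c4)) e
 (c (a (nat_lit 0x3030423616d7263))
 (c z e
 (c (a (nat_lit 0x4a4c8c667f1ae59e6)) e
 (c z e
 (c z e
 (c z e
 (c (a (nat_lit 0xe67cb0d6dd4400006)) e e))))))
 (c (a (nat_lit 0x81a2e0e8441284))
 (c (a (nat_lit 0x38444a50d49aaf066)) e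
 (c z e
 (c z e
 (c z e
 (c (a (nat_lit 0x947e7d0aa20000005)) e e)))))
 (c z e
 (c z e
 (c (a (nat_lit 0x3ca2bb394ea8325)) e
 (c (a (nat_lit 0x96d0f520a60c106)) e
 (c z e
 (c z e
 (c (a (nat_lit 0x1e4dae2c05056304)) e
 (c (a (nat_lit 0x1594b143650062e3)) e
 (c (a (nat_lit 0x159244230183e483)) e e))))))))))))))
 (c z
 (c (a (nat_lit 0xaaaacc8e96073c4))
 (c z e
 (c z e
 (c z e
 (c z e
 (c (a (nat_lit 0x384e62823032afba6)) e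
 (c (a (nat_lit 0x26282e3a1e2326b87)) e e))))))
 (c z e
 (c z e
 (c z e
 (c z e
 (c (a (nat_lit 0x1f2550afad6f5a4))
 (c (a (nat_lit 0x4498d314623a00007)) e e)
 (c (a (nat_lit 0xcb55077b328a065)) e
 (c z e
 (c z e
 (c (a (nat_lit 0x98c4c89a84810a6)) e
 (c (a (nat_lit 0x18f3e82827a8a4e4)) e
 (c (a (nat_lit 0x1004244405608044)) e
 (c z e
 (c z e
 (c (a (nat_lit 0x1dba6b47c706a001)) e e)))))))))))))))
 (c z
 (c z e
 (c z e
 (c z e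
 (c z e
 (c (a (nat_lit 0x6bb15cccb2a4864))
 (c (a (nat_lit 0x68559038280000007)) e e)
 (c z e
 (c z e
 (c z e
 (c (a (nat_lit 0x6c74eb191f05506)) e
 (c (a (nat_lit 0x19460e8056f7582)) e e))))))))))
 (c z
 (c z e
 (c (a (nat_lit 0x1aceab1086b513a4))
 (c (a (nat_lit 0x2e3c4d20ded6682a7)) e e)
 (c (a (nat_lit 0xc4611426dce6ca4)) e
 (c z e
 (c z e
 (c (a (nat_lit 0x4692d2b6d6c7885)) e
 (c (a (nat_lit 0x66ae78d7b69e85)) e
 (c z e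
 (c z e
 (c (a (nat_lit 0x1792698be7e924c2)) e
 (c (a (nat_lit 0x1a468d8628804001)) e e)))))))))))
 (c z
 (c (a (nat_lit 0xee76ae8ef31d2e3)) e
 (c z e
 (c z e
 (c (a (nat_lit 0x165f4b4b8977d64)) e
 (c (a (nat_lit 0x24abd655951a65)) e
 (c z e
 (c z e
 (c (a (nat_lit 0x1432728e0cccac63)) e
 (c (a (nat_lit 0x1838b2cfefec6842)) e
 (c (a (nat_lit 0x1b09a3e42401e2a1)) e e))))))))))
 (c z
 (c z e
 (c (a (nat_lit 0x4642a69f7f5b444)) e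
 (c z e
 (c z e
 (c z e
 (c (a (nat_lit 0x11d433300fcf6644)) e
 (c (a (nat_lit 0x175469c667adc602)) e
 (c (a (nat_lit 0x1ce7414170808001)) e e))))))))
 (c z
 (c (a (nat_lit 0xa625d7b59553e3)) e
 (c z e
 (c z e
 (c (a (nat_lit 0x1333d615d5573346)) e
 (c (a (nat_lit 0x13935292560d8465)) e
 (c (a (nat_lit 0x6a523f329412023)) e e))))))
 (c z
 (c z e
 (c (a (nat_lit 0xed00fefcf4eeee6)) e
 (c (a (nat_lit 0x1f5f3f7f1edd58e6)) e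
 (c z e
 (c z e
 (c (a (nat_lit 0xe0b9cb7a9a80002)) e
 (c (a (nat_lit 0x6b7f28160000002)) e
 (c (a (nat_lit 0x14e8c00000000003)) e e))))))))
 (c z
 (c (a (nat_lit 0x11b19272110f0825)) e
 (c z e
 (c z e
 (c (a (nat_lit 0x12ac0c4d6dd3ad65)) e
 (c (a (nat_lit 0x1414ba5bba200003)) e
 (c (a (nat_lit 0x46e66000000001)) e e))))))
 (c z
 (c z e
 (c (a (nat_lit 0x8c04080a242d166)) e
 (c (a (nat_lit 0x1b1b1b7ebf7d6005)) e
 (c (a (nat_lit 0x4338af40000002)) e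
 (c (a (nat_lit 0x12e00000000001)) e e)))))
 (c z
 (c (a (nat_lit 0x19da5b7bbc1dfb85)) e
 (c (a (nat_lit 0xb1233b4b3400002)) e e))
 (c (a (nat_lit 0x1010101010541)) e
 (c (a (nat_lit 0x404040427522)) e
 (c (a (nat_lit 0x3c3c3c5f8b242)) e
 (c (a (nat_lit 0x3e3e6189206c2)) e
 (c (a (nat_lit 0x26416f0876722)) e
 (c (a (nat_lit 0x1d4ae4524eae2)) e
 (c (a (nat_lit 0x169026c6ecc602)) e
 (c z e
 (c z e
 (c (a (nat_lit 0x7942da2805181)) e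
 (c (a (nat_lit 0x13896240b19441)) e e)))))))))))))))))))))))) Tr.c Tr.e (nat_lit 0) C.cx C.cy
noncomputable def C831 : Tr := beta% (fun (c : Nat → Tr → Tr → Tr) (e : Tr) (z : Nat) (a : Nat → Nat) =>
 (c z
 (c z
 (c (a (nat_lit 0x707070710e9a818c3)) e
 (c (a (nat_lit 0x1e1e1ec86c478d0e4))
 (c z e
 (c z e
 (c z e
 (c z e
 (c z e
 (c (a (nat_lit 0x2e425484d07dcb7bd06)) e
 (c z e
 (c z e
 (c (a (nat_lit 0x2e202634883e14370c6)) e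
 (c (a (nat_lit 0x20748896761039ba226)) e e))))))))))
 (c (a (nat_lit 0x6e6eef050544c1065)) e
 (c (a (nat_lit 0x254b292bb1357c404)) e
 (c (a (nat_lit 0xa28c958096fc3e944)) e
 (c z e
 (c z e
 (c (a (nat_lit 0x19751e92b2122482c4)) e
 (c (a (nat_lit 0x131b8dd08d2522a0a4)) e
 (c z e
 (c z e
 (c (a (nat_lit 0x1dd8bd183c936e9063)) e
 (c (a (nat_lit 0xd2ccf34b4ee496aa5)) e e)))))))))))))
 (c z
 (c (a (nat_lit 0xe0e4a3c36d631105))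
 (c z e
 (c z e
 (c z e
 (c z e
 (c z e
 (c (a (nat_lit 0x60768e4e2186b9f4846)) e
 (c z e
 (c z e
 (c (a (nat_lit 0x2420280e3028450ca47)) e
 (c (a (nat_lit 0x5c622666326db906d26)) e
 (c (a (nat_lit 0x5452b44a3eaa87465a7)) e e)))))))))))
 (c z e
 (c z e
 (c z e
 (c z e
 (c z e
 (c z e
 (c z e
 (c z e
 (c z e
 (c (a (nat_lit 0x179a953ab32f0da3e5)) e
 (c z e
 (c z e
 (c z e
 (c (a (nat_lit 0x90b09c5062731e585)) e
 (c (a (nat_lit 0xfaba2a4c73c83c4a4)) e e))))))))))))))))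
 (c z e
 (c z
 (c z e
 (c (a (nat_lit 0x7b471cf94882baf05)) e
 (c z e
 (c z e
 (c z e
 (c z e
 (c z e
 (c (a (nat_lit 0x926c967ca4a457425)) e
 (c z e
 (c (a (nat_lit 0x1071f113f22dee9126)) e e))))))))))
 (c z
 (c z e
 (c z e
 (c z e
 (c z e
 (c z e
 (c z e
 (c (a (nat_lit 0x124ab662405ae12a5)) e
 (c (a (nat_lit 0xe5fddb031a88af384)) e
 (c (a (nat_lit 0x12ef90f5b737b519c6)) e e)))))))))
 (c z
 (c z e
 (c z e
 (c z e
 (c z e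
 (c z e
 (c (a (nat_lit 0x7888bc5a8f2e9aa25)) e
 (c (a (nat_lit 0xe354c8ccfae1015c5)) e e)))))))
 (c (a (nat_lit 0x20404040405aa4)) e
 (c (a (nat_lit 0x2020202035e3e4))
 (c z e
 (c z e
 (c z e
 (c (a (nat_lit 0xa8d4f1fbc31444885)) e
 (c z e
 (c (a (nat_lit 0x1251f536585223ce86)) e e))))))
 (c (a (nat_lit 0x8080809fd0ad82))
 (c z e
 (c (a (nat_lit 0x624c8b34a8406c0c5)) e
 (c z e
 (c z e
 (c (a (nat_lit 0xe92333871834462e6)) e e)))))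
 (c (a (nat_lit 0x20203206045964)) e
 (c (a (nat_lit 0x30c2e12c8a45))
 (c (a (nat_lit 0x1491eda867a6026525)) e e)
 (c (a (nat_lit 0x1ab24232dcb7565)) e
 (c (a (nat_lit 0x547047411dbb165))
 (c (a (nat_lit 0x10c86bada5c0000006)) e e)
 (c z e
 (c z e
 (c (a (nat_lit 0x9c7f04682a280e5)) e
 (c (a (nat_lit 0x870c72343016105)) e
 (c (a (nat_lit 0x106682e200802005)) e
 (c z e
 (c (a (nat_lit 0x1a73cb08c70466a2)) e
 (c (a (nat_lit 0x1f8d4b49e6098241)) e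
 (c (a (nat_lit 0x1351500c6fc8a021)) e e))))))))))))))))))))))
 (c z
 (c z
 (c (a (nat_lit 0x58909eb9c21072303)) e e)
 (c z
 (c z e
 (c z e
 (c z e
 (c z e
 (c z e
 (c z e
 (c z e
 (c z e
 (c z e
 (c (a (nat_lit 0x127252d32fcc2ba5a6)) e e))))))))))
 (c z e
 (c z
 (c z e
 (c z e
 (c z e
 (c z e
 (c z e
 (c z e
 (c (a (nat_lit 0x57396f366d1eb35e4)) e
 (c (a (nat_lit 0xf304f6b2ba7485646)) e e))))))))
 (c (a (nat_lit 0xa0a0a0a2a2a38a1))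
 (c z e
 (c z e
 (c z e
 (c z e
 (c (a (nat_lit 0xbf9db0a6ced47ca85)) e
 (c (a (nat_lit 0x1215c58a8aa08696a5)) e
 (c z e
 (c z e
 (c z e
 (c z e
 (c (a (nat_lit 0x9aad3b80700000005)) e e)))))))))))
 (c (a (nat_lit 0x2020204038a184)) e
 (c (a (nat_lit 0x20202034006064)) e
 (c (a (nat_lit 0x1a1a1a762233724)) e
 (c (a (nat_lit 0x202f22629769e4)) e
 (c (a (nat_lit 0x368220764c6c64))
 (c (a (nat_lit 0x1051314e1061ab9d85)) e e)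
 (c (a (nat_lit 0x58241b64c39f484)) e
 (c z e
 (c z e
 (c (a (nat_lit 0x1792fb7b39f0e825)) e
 (c (a (nat_lit 0x794b3cecdeb8723)) e
 (c z e
 (c z e
 (c z e
 (c (a (nat_lit 0x199cf4e1c3e8e002)) e
 (c (a (nat_lit 0x1a72606386602002)) e e))))))))))))))))))))
 (c z
 (c z
 (c z e
 (c z e
 (c z e
 (c z e
 (c z e
 (c z e
 (c z e
 (c z e
 (c z e
 (c (a (nat_lit 0x1635b5d18e0b494565)) e e))))))))))
 (c z
 (c z e
 (c z e
 (c z e
 (c z e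
 (c z e
 (c z e
 (c (a (nat_lit 0x9c7d2676427e9a6c5)) e
 (c (a (nat_lit 0x125573d04f71cbbc85)) e e))))))))
 (c (a (nat_lit 0x808080808092c2))
 (c z e
 (c z e
 (c z e
 (c z e
 (c z e
 (c (a (nat_lit 0x1769c1c341e063c9c5)) e e))))))
 (c (a (nat_lit 0x1c1c1c1e1f7a822))
 (c z e
 (c z e
 (c z e
 (c z e
 (c (a (nat_lit 0x17ccdaa8c468d00a25)) e e)))))
 (c (a (nat_lit 0x202020330323a5))
 (c z e
 (c z e
 (c (a (nat_lit 0x542e0a6c166cdb6e5)) e e)))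
 (c (a (nat_lit 0x40405765440724))
 (c z e
 (c z e
 (c (a (nat_lit 0x325456b06ac185ac5)) e e)))
 (c (a (nat_lit 0x2024a2c2a47045))
 (c (a (nat_lit 0x1c26228848710ee05)) e e)
 (c z e
 (c z e
 (c z e
 (c z e
 (c z e
 (c z e
 (c z e
 (c (a (nat_lit 0x1377ee2e0e2ae2c4)) e
 (c (a (nat_lit 0x16cd4ced6a020044)) e
 (c (a (nat_lit 0x16f5b73080602083)) e
 (c (a (nat_lit 0xff08d2543a560a4)) e e))))))))))))))))))
 C830)))) Tr.c Tr.e (nat_lit 0) C.cx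
noncomputable def C832 : Tr := beta% (fun (c : Nat → Tr → Tr → Tr) (e : Tr) (z : Nat) (a b : Nat → Nat) =>
 (c z
 (c (a (nat_lit 0x545454545546a4d03))
 (c z e
 (c z e
 (c z e
 (c z e
 (c z e
 (c z e
 (c z e
 (c z e
 (c z e
 (c z e
 (c z e
 (c z e
 (c (a (nat_lit 0xc8c4e4f55b491b61987)) e e)))))))))))))
 (c (a (nat_lit 0x1a1a1a1a7a44511a5))
 (c z e
 (c z e
 (c z e
 (c z e
 (c z e
 (c z e
 (c z e
 (c z e
 (c z e
 (c (a (nat_lit 0x282e9e803c301e5d607)) e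
 (c (a (nat_lit 0x4c42dad3128645a6887)) e e)))))))))))
 (c (a (nat_lit 0x1a1a1ab67686a1126))
 (c z e
 (c z e
 (c z e
 (c z e
 (c z e
 (c z e
 (c z e
 (c z e
 (c (a (nat_lit 0x7ee876aa7266b5735e7)) e e)))))))))
 (c (a (nat_lit 0x20213eed1f5578fc5))
 (c z e
 (c z e
 (c z e
 (c z e
 (c z e
 (c z e
 (c z e
 (c (a (nat_lit 0x18eccb69882e066f28a6)) e
 (c (a (nat_lit 0x8a90c09c34da7912347)) e e)))))))))
 (c (a (nat_lit 0x1afe94c5311ec06a5)) e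
 (c z e
 (c z e
 (c z e
 (c (a (nat_lit 0x163b19ce46e602a125)) e
 (c z e
 (c z e
 (c z e
 (c (a (nat_lit 0x9eb6cae722ec928e6)) e
 (c z e
 (c (b (nat_lit 0xc31193ff44dab2ec6)) e e)))))))))))))))
 (c z
 (c (a (nat_lit 0x16161692446b4fba4))
 (c z e
 (c z e
 (c z e
 (c z e
 (c z e
 (c z e
 (c z e
 (c z e
 (c (a (nat_lit 0x1e1a1c201420303d1e7)) e
 (c (a (nat_lit 0x1844301c1e2e4d04307)) e
 (c (a (nat_lit 0x44807aa8424d0c2f7a7)) e e)))))))))))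
 (c (a (nat_lit 0xc0c8854688107226))
 (c z e
 (c z e
 (c z e
 (c z e
 (c z e
 (c z e
 (c z e
 (c (a (nat_lit 0x283222421e2e5d715c7)) e
 (c (a (nat_lit 0x624a5438446d0cb0488)) e
 (c (a (nat_lit 0xf2fb2e5a73793fdcb07)) e
 (c z e
 (c z e
 (c (a (nat_lit 0x74b5d20000000000008)) e e)))))))))))))
 (c z e
 (c z e
 (c z e
 (c z e
 (c z e
 (c z e
 (c z e
 (c z e
 (c (a (nat_lit 0x104bd413944faaa6a5)) e
 (c (b (nat_lit 0x72a8df3bfeb470286)) e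
 (c z e
 (c z e
 (c (a (nat_lit 0x110be7232060c02124)) e
 (c (a (nat_lit 0x1cb32b65c4c38587e3)) e e))))))))))))))))
 (c z
 (c z e
 (c z e
 (c z e
 (c z e
 (c z e
 (c z e
 (c z e
 (c z e
 (c z e
 (c (a (nat_lit 0x48bed514c2d8865a5)) e
 (c z e
 (c z e
 (c (a (nat_lit 0x1270d4b698d6f27106)) e e)))))))))))))
 (c z
 (c z e
 (c (a (nat_lit 0x7c83b0ced52aef0c5)) e
 (c z e
 (c z e
 (c z e
 (c z e
 (c z e
 (c z e
 (c (a (nat_lit 0xa4bd2f06d0ce52425)) e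
 (c (a (nat_lit 0x73110af704da8b246)) e e))))))))))
 (c z
 (c (a (nat_lit 0x26014a4b83a5b0a5)) e
 (c z e
 (c z e
 (c (a (nat_lit 0x92a6766f092f0e405)) e
 (c z e
 (c z e
 (c (a (nat_lit 0x58eb4d5ed0b87f365)) e
 (c (a (nat_lit 0x10b414ceab48e535a5)) e
 (c (a (nat_lit 0xfb231f19695347366)) e e)))))))))
 (c z
 (c z e
 (c z e
 (c z e
 (c z e
 (c z e
 (c z e
 (c (a (nat_lit 0xd8caa49ec503f9985)) e
 (c z e
 (c z e
 (c z e
 (c (a (nat_lit 0xca93036161c06004)) e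
 (c (a (nat_lit 0xb5424424180000004)) e e))))))))))))
 (c z
 (c z e
 (c z e
 (c z e
 (c z e
 (c (a (nat_lit 0x685c9108dbd448a45)) e e)))))
 (c (a (nat_lit 0x20202020203464))
 (c z e
 (c (a (nat_lit 0x8725e70c938ca6a5)) e
 (c z e
 (c (a (nat_lit 0x5e9ce4fff914660e5)) e
 (c z e
 (c (a (nat_lit 0xbb611947556952406)) e e))))))
 (c (a (nat_lit 0x404040405200a4))
 (c z e
 (c z e
 (c z e
 (c z e
 (c (a (nat_lit 0xce86d30d41603c146)) e e)))))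
 (c (a (nat_lit 0x4040405a42c644)) e
 (c (a (nat_lit 0x40405501422a85))
 (c (a (nat_lit 0x3d7e966a407e44f05)) e e)
 (c (a (nat_lit 0xe0fce285925824)) e
 (c (a (nat_lit 0x50ca605b2f67345))
 (c (a (nat_lit 0xc7c7d7c5f8c000005)) e e)
 (c z e
 (c z e
 (c z e
 (c (a (nat_lit 0x12f9710b43e3e3e4)) e
 (c (a (nat_lit 0x15cd87a0608060a4)) e
 (c z e
 (c (a (nat_lit 0x1467470767c7a5c3)) e
 (c (a (nat_lit 0x8c8298949014001)) e
 (c (a (nat_lit 0x423c78b40c0a301)) e e))))))))))))))))))))))) Tr.c Tr.e (nat_lit 0) C.cx C.cy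
noncomputable def C833 : Tr := beta% (fun (c : Nat → Tr → Tr → Tr) (e : Tr) (z : Nat) (a b : Nat → Nat) =>
 (c z
 (c (a (nat_lit 0x424242424243a63e2)) e
 (c (a (nat_lit 0x6a6a6a6a6b8ac2da3)) e
 (c (a (nat_lit 0x14141414ecb2a1465)) e
 (c (a (nat_lit 0x1a1a1b32caaf43de5))
 (c z e
 (c z e
 (c z e
 (c z e
 (c z e
 (c z e
 (c (a (nat_lit 0x4a424e6a6e4c5683427)) e
 (c (a (nat_lit 0x42907aced68a8297ba6)) e
 (c (a (nat_lit 0x4e8c98d29a54eef5767)) e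
 (c (a (nat_lit 0x1051b2b347d26db3e007)) e e))))))))))
 (c (a (nat_lit 0x1414dab4d78363345))
 (c z e
 (c z e
 (c z e
 (c z e
 (c (a (nat_lit 0x8490c8a086a72ac3806)) e
 (c (a (nat_lit 0x2a2e3a584c74506b167)) e
 (c (a (nat_lit 0x8a6ec062567b75394c6)) e
 (c (a (nat_lit 0xf11572948e5c97d0fc6)) e
 (c (a (nat_lit 0x1192cfe4eceb16000007)) e e)))))))))
 (c z e
 (c z e
 (c z e
 (c z e
 (c z e
 (c z e
 (c z e
 (c z e
 (c (a (nat_lit 0x10d0f57938d531afa6)) e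
 (c z e
 (c z e
 (c z e
 (c (a (nat_lit 0xef105c46382a42744)) e
 (c (a (nat_lit 0x126705a5656664e004)) e e)))))))))))))))))))
 (c z
 (c (a (nat_lit 0x14141414601c33564)) e
 (c (a (nat_lit 0x26262738eec1abb84))
 (c z e
 (c z e
 (c z e
 (c z e
 (c z e
 (c z e
 (c z e
 (c (a (nat_lit 0x8446688a8464a2b38c6)) e
 (c (a (nat_lit 0x769c9f067ebec4a1ee6)) e
 (c (a (nat_lit 0x88c2b0ea6a7e7cf9ca7)) e e))))))))))
 (c (a (nat_lit 0x323348ba779f77104))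
 (c z e
 (c z e
 (c z e
 (c z e
 (c z e
 (c (a (nat_lit 0x3426561e1e121e39887)) e
 (c (a (nat_lit 0x4e4e4a444e328d37a27)) e
 (c (a (nat_lit 0x4a102c8040810d1f047)) e
 (c (a (nat_lit 0x6c50946464cd2d928e7)) e e)))))))))
 (c z e
 (c z e
 (c z e
 (c z e
 (c z e
 (c z e
 (c z e
 (c z e
 (c (a (nat_lit 0x92cef50efb00c0a86)) e
 (c z e
 (c (b (nat_lit 0x6aaf11ff28f4d1266)) e
 (c z e
 (c (a (nat_lit 0x15dd728bed00206043)) e
 (c (a (nat_lit 0x1f74ae3184a4a46363)) e e)))))))))))))))))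
 (c z
 (c (a (nat_lit 0xc0c4a482830c5ac5))
 (c z e
 (c z e
 (c z e
 (c z e
 (c z e
 (c z e
 (c z e
 (c z e
 (c (a (nat_lit 0x4458cc66b86664df8e6)) e
 (c (a (nat_lit 0x6a6a7c32467a9d1c7a7)) e e))))))))))
 (c z e
 (c z e
 (c z e
 (c z e
 (c z e
 (c z e
 (c z e
 (c z e
 (c (b (nat_lit 0x178c7ffff835330dc4)) e
 (c (a (nat_lit 0x9498fd2b34fce6c86)) e e)))))))))))
 (c z
 (c z e
 (c z e
 (c z e
 (c z e
 (c z e
 (c z e
 (c z e
 (c z e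
 (c z e
 (c z e
 (c z e
 (c (a (nat_lit 0x10f3d65edd9770cdc6)) e e))))))))))))
 (c z
 (c z e
 (c z e
 (c z e
 (c z e
 (c z e
 (c z e
 (c z e
 (c (a (nat_lit 0x15b60a6dc90a2bea65)) e
 (c (a (nat_lit 0xe0c127138987713a6)) e e)))))))))
 (c z
 (c z e
 (c z e
 (c z e
 (c z e
 (c z e
 (c (a (nat_lit 0x11944c8c92e7cd89a5)) e e))))))
 (c z
 (c z e
 (c z e
 (c z e
 (c z e
 (c z e
 (c (a (nat_lit 0x112c0e1113b2be3a05)) e e))))))
 (c z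
 (c z e
 (c z e
 (c (a (nat_lit 0x3ca49f6d1914cca05)) e e)))
 (c (a (nat_lit 0x20202020203a23)) e
 (c (a (nat_lit 0x40404040558304)) e
 (c (a (nat_lit 0x20202032818045)) e
 (c (a (nat_lit 0x242425804c34be4)) e
 (c (a (nat_lit 0x4a4b6ca00d1f3a3)) e
 (c z e
 (c z e
 (c z e
 (c (a (nat_lit 0x30c92f38b83c1c4)) e
 (c z e
 (c (a (nat_lit 0x10760e2664644444)) e
 (c (a (nat_lit 0x140ba46282626264)) e
 (c (a (nat_lit 0x12a4a080c0808063)) e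
 (c (a (nat_lit 0x1101a22081008561)) e e))))))))))))))))))))))) Tr.c Tr.e (nat_lit 0) C.cx C.cy
noncomputable def C834 : Tr := beta% (fun (c : Nat → Tr → Tr → Tr) (e : Tr) (z : Nat) (a : Nat → Nat) =>
 (c z
 (c z
 (c z
 (c (a (nat_lit 0x92929292fe8e7fb5c22)) e
 (c (a (nat_lit 0x565656c28a9d65bf084)) e
 (c (a (nat_lit 0x1e1e3a2624ab5d2f0e5)) e e)))
 (c z
 (c (a (nat_lit 0x3c3c666a7ee144a6985)) e
 (c z e
 (c z e
 (c z e
 (c z e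
 (c z e
 (c z e
 (c z e
 (c z e
 (c z e
 (c z e
 (c z e
 (c (a (nat_lit 0x94aea664847c72df0e6)) e
 (c z e
 (c z e
 (c (a (nat_lit 0xbf032d375b514912e67)) e e))))))))))))))))
 (c z
 (c z e
 (c z e
 (c z e
 (c z e
 (c z e
 (c z e
 (c z e
 (c z e
 (c z e
 (c z e
 (c z e
 (c (a (nat_lit 0xcf48a2c2b0ad6f95785)) e e))))))))))))
 (c (a (nat_lit 0x66666666666667d22)) e
 (c (a (nat_lit 0x72727272727328262)) e
 (c (a (nat_lit 0x262626262758a8464)) e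
 (c (a (nat_lit 0x26262627c51f25644))
 (c z e
 (c z e
 (c z e
 (c z e
 (c z e
 (c z e
 (c (a (nat_lit 0x769c7a60945a547b4c6)) e
 (c z e
 (c (a (nat_lit 0x1630f558b4caaeabf726)) e e)))))))))
 (c (a (nat_lit 0x2424257cb4bf18e44))
 (c z e
 (c z e
 (c z e
 (c z e
 (c (a (nat_lit 0x62785458666a32dbaa6)) e
 (c (a (nat_lit 0x7a624a68784469e9746)) e
 (c (a (nat_lit 0x52ce9c94342aaf66a46)) e
 (c (a (nat_lit 0xeadeeee87e909534006)) e e))))))))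
 (c (a (nat_lit 0x2425faeb15defeec4))
 (c z e
 (c z e
 (c (a (nat_lit 0xc4a2c674688432a91c6)) e
 (c (a (nat_lit 0x828e6852443c9343a46)) e
 (c (a (nat_lit 0x4a26381a203b5e33147)) e
 (c (a (nat_lit 0xdeba804660775edc766)) e e))))))
 (c z e
 (c z e
 (c z e
 (c z e
 (c z e
 (c z e
 (c z e
 (c (a (nat_lit 0x1437d453d28fc7a6e5)) e
 (c z e
 (c z e
 (c z e
 (c (a (nat_lit 0x1cd6d728e88b886963)) e e)))))))))))))))))))))
 (c z
 (c z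
 (c (a (nat_lit 0x664498a109cad0cb3a4)) e
 (c z e
 (c z e
 (c z e
 (c z e
 (c z e
 (c z e
 (c z e
 (c z e
 (c z e
 (c z e
 (c z e
 (c (a (nat_lit 0x547a52666c6906ff126)) e e)))))))))))))
 (c (a (nat_lit 0x1a1a1a1a1a1a1b764))
 (c z e
 (c z e
 (c z e
 (c z e
 (c z e
 (c z e
 (c z e
 (c z e
 (c z e
 (c z e
 (c z e
 (c (a (nat_lit 0xac7266645fafc19f0a6)) e e))))))))))))
 (c (a (nat_lit 0x1c1c1c1c1c1d2a804)) e
 (c (a (nat_lit 0x121212121310929a5)) e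
 (c (a (nat_lit 0x1a1a1a1ba0ecf2fa5)) e
 (c (a (nat_lit 0x161617bb1b5b43205))
 (c z e
 (c z e
 (c (a (nat_lit 0x1a7209c7a5a6c7a62a26)) e
 (c z e
 (c z e
 (c (a (nat_lit 0x5c90829e6e5adec9246)) e
 (c (a (nat_lit 0x7b10d6765866afb1a06)) e
 (c (a (nat_lit 0x7fbb532e947cb92b886)) e e))))))))
 (c (a (nat_lit 0x141584cf0b1362a45))
 (c z e
 (c z e
 (c z e
 (c (a (nat_lit 0x84989c787e6aa4cb287)) e
 (c (a (nat_lit 0x68667a7c3a70b3a9687)) e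
 (c (a (nat_lit 0x4a4032201c1cc8731c8)) e
 (c (a (nat_lit 0x10ee68c5a0e7413c25a7)) e e)))))))
 (c z e
 (c z e
 (c z e
 (c z e
 (c z e
 (c z e
 (c z e
 (c z e
 (c (a (nat_lit 0xd4f70b71a124acbe6)) e
 (c z e
 (c (a (nat_lit 0xd94546c23c3246384)) e
 (c z e
 (c (a (nat_lit 0x144c8423e2c1c18164)) e e))))))))))))))))))))
 C833))
 (c z
 (c z
 (c z
 (c z e
 (c z e
 (c z e
 (c z e
 (c z e
 (c (a (nat_lit 0x1c2a4628265a6a4d0a6)) e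
 (c z e
 (c z e
 (c z e
 (c z e
 (c z e
 (c z e
 (c z e
 (c z e
 (c (a (nat_lit 0x405a586a767e7ce5147)) e e)))))))))))))))
 (c (a (nat_lit 0xf8f8f8f8f8f900f61))
 (c (a (nat_lit 0x4c9336eca4b712b6c25)) e
 (c z e
 (c z e
 (c z e
 (c (a (nat_lit 0x4e584e44788e7708307)) e
 (c z e
 (c z e
 (c z e
 (c z e
 (c z e
 (c z e
 (c z e
 (c (a (nat_lit 0x8ec2ccf3034d67254e7)) e e)))))))))))))
 (c (a (nat_lit 0x6666666666a4b30a2)) e
 (c (a (nat_lit 0x3e3e3e3fc8db1d7c3))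
 (c z e
 (c z e
 (c z e
 (c z e
 (c z e
 (c z e
 (c z e
 (c z e
 (c (a (nat_lit 0x3808b47c387c348d966)) e
 (c (a (nat_lit 0x242c949ca442146b127)) e e))))))))))
 (c (a (nat_lit 0x1e1e1f36c0f931d04))
 (c z e
 (c z e
 (c z e
 (c z e
 (c z e
 (c z e
 (c z e
 (c z e
 (c (a (nat_lit 0x77172518e86f4ca9e86)) e e)))))))))
 (c (a (nat_lit 0x1a1b14ace92180344)) e
 (c z e
 (c z e
 (c z e
 (c (a (nat_lit 0x3cad0274606014085)) e
 (c z e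
 (c z e
 (c z e
 (c (a (nat_lit 0x1377342d8bed854665)) e
 (c (a (nat_lit 0xb0aabcdf06fa868a6)) e e)))))))))))))))
 C832)
 C831))) Tr.c Tr.e (nat_lit 0) C.cx
noncomputable def C835 : Tr := beta% (fun (c : Nat → Tr → Tr → Tr) (e : Tr) (z : Nat) (a : Nat → Nat) =>
 (c z
 (c (a (nat_lit 0xe0e0e0e0e0e0f044)) e
 (c (a (nat_lit 0x1e1e1e1e1e1f04304)) e
 (c (a (nat_lit 0x12121212132c98a25)) e
 (c (a (nat_lit 0x1a1a1a1b5c827d665))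
 (c z e
 (c z e
 (c z e
 (c z e
 (c z e
 (c z e
 (c z e
 (c z e
 (c z e
 (c (a (nat_lit 0xd51d39891ecebadeba7)) e e))))))))))
 (c (a (nat_lit 0x1414151e84414cc45))
 (c z e
 (c z e
 (c z e
 (c z e
 (c z e
 (c (a (nat_lit 0x142c4c886858705bb06)) e
 (c (a (nat_lit 0x5cad02b2ac308ac7b26)) e
 (c (a (nat_lit 0x2a726a8e4e4238373e7)) e e))))))))
 (c (a (nat_lit 0x141580c86d3f90fa5))
 (c z e
 (c z e
 (c z e
 (c z e
 (c (a (nat_lit 0x2626284c1e1c4518de7)) e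
 (c (a (nat_lit 0x5a665a70363ad796f27)) e
 (c (a (nat_lit 0x78808a5018180b4c547)) e e)))))))
 (c z e
 (c z e
 (c z e
 (c z e
 (c z e
 (c z e
 (c z e
 (c (a (nat_lit 0x1e7e1ebfb74f8cb3c6)) e
 (c z e
 (c z e
 (c (a (nat_lit 0xe90cb8401636260a4)) e
 (c (a (nat_lit 0x11ac84a2636160a2e4)) e e))))))))))))))))))
 (c z
 (c (a (nat_lit 0x4a4a4a4a4b0e829e2)) e
 (c (a (nat_lit 0x2626262738d2edfe4)) e
 (c (a (nat_lit 0x141414901c1add745))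
 (c z e
 (c z e
 (c z e
 (c z e
 (c z e
 (c z e
 (c (a (nat_lit 0x724c747460664cad907)) e
 (c (a (nat_lit 0x1a3c264654245485647)) e
 (c (a (nat_lit 0x5e6686aa905e2843267)) e e)))))))))
 (c (a (nat_lit 0x1818a26c2ccf04c45))
 (c z e
 (c z e
 (c z e
 (c z e
 (c (a (nat_lit 0x764a764a5836ab01027)) e
 (c (a (nat_lit 0x82a222e1030713b7c7)) e
 (c (a (nat_lit 0x3c2850521c786b42ec7)) e
 (c (a (nat_lit 0x9cecf8c30e38f3ed3a6)) e e))))))))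
 (c z e
 (c z e
 (c z e
 (c z e
 (c z e
 (c z e
 (c z e
 (c (a (nat_lit 0x131155312ac6c5ac66)) e
 (c z e
 (c (a (nat_lit 0xc8e539adc1b17bc46)) e
 (c (a (nat_lit 0x1b38f2b0aacb85c064)) e e)))))))))))))))
 (c z
 (c (a (nat_lit 0xa0a0a56364041425))
 (c z e
 (c z e
 (c z e
 (c z e
 (c z e
 (c z e
 (c z e
 (c (a (nat_lit 0x1a121e3e0e0a344f546)) e
 (c z e
 (c (a (nat_lit 0xc0cae506a4be8ea1946)) e e))))))))))
 (c (a (nat_lit 0x18187426283fbef86))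
 (c z e
 (c z e
 (c z e
 (c z e
 (c z e
 (c (a (nat_lit 0x3c62423e322e92bfb47)) e
 (c (a (nat_lit 0x4c38363a2e4c69238e8)) e
 (c (a (nat_lit 0x361a765290ab51a70a7)) e
 (c (a (nat_lit 0x5a8490b28ab49bb0507)) e e)))))))))
 (c z e
 (c z e
 (c z e
 (c z e
 (c z e
 (c z e
 (c z e
 (c z e
 (c (a (nat_lit 0xe900fce8eeb8d5306)) e
 (c z e
 (c z e
 (c z e
 (c z e
 (c z e
 (c (a (nat_lit 0x1b5d36a92180200003)) e e)))))))))))))))))
 (c z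
 (c z e
 (c z e
 (c z e
 (c z e
 (c z e
 (c z e
 (c z e
 (c z e
 (c (a (nat_lit 0x11aef5cf10b3d315e5)) e e)))))))))
 (c z
 (c z e
 (c z e
 (c z e
 (c z e
 (c z e
 (c z e
 (c z e
 (c z e
 (c z e
 (c z e
 (c z e
 (c (a (nat_lit 0x1662dfa35be866a21)) e e))))))))))))
 (c z
 (c z e
 (c z e
 (c z e
 (c z e
 (c z e
 (c z e
 (c z e
 (c (a (nat_lit 0xaad8f7e1d5d9bd766)) e e))))))))
 (c z
 (c z e
 (c z e
 (c z e
 (c z e
 (c (a (nat_lit 0x4ef94ad97ceec2da5)) e e)))))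
 (c z e
 (c z e
 (c (a (nat_lit 0x20202020203fc3))
 (c (a (nat_lit 0x8e67670f4f329b763)) e e)
 (c (a (nat_lit 0x404040405fc1c4))
 (c (a (nat_lit 0x1716b2f46f7014d063)) e e)
 (c (a (nat_lit 0x28282829425a364)) e
 (c (a (nat_lit 0x7c7c7d20ea3c843)) e
 (c (a (nat_lit 0x13939392f1f396c5)) e
 (c z e
 (c z e
 (c z e
 (c (a (nat_lit 0x5acdabb648022e3)) e
 (c z e
 (c z e
 (c (a (nat_lit 0x1c24e1044106c463)) e
 (c (a (nat_lit 0xee1ad029a50a001)) e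
 (c (a (nat_lit 0x6c4458ada04001)) e e)))))))))))))))))))))))) Tr.c Tr.e (nat_lit 0) C.cx
noncomputable def C836 : Tr := beta% (fun (c : Nat → Tr → Tr → Tr) (e : Tr) (z : Nat) (a : Nat → Nat) =>
 (c z
 (c z
 (c (a (nat_lit 0x7272727272bc52b3ca3)) e
 (c (a (nat_lit 0x58585858e098d765ee5)) e
 (c (a (nat_lit 0x2424245a263acfa3446)) e
 (c (a (nat_lit 0x32323028388edf00ac6)) e e))))
 (c z
 (c (a (nat_lit 0x323232525266b314c86)) e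
 (c (a (nat_lit 0x2e2e6a4258c74afe9c7)) e
 (c z e
 (c z e
 (c z e
 (c z e
 (c z e
 (c z e
 (c z e
 (c z e
 (c z e
 (c (a (nat_lit 0x4a6478a2a2b2967f526)) e
 (c (a (nat_lit 0x8cb2c4ac9eb0947bb26)) e
 (c z e
 (c z e
 (c (a (nat_lit 0xd50b3d61757f6b452c8)) e e))))))))))))))))
 (c z
 (c z e
 (c z e
 (c z e
 (c z e
 (c z e
 (c z e
 (c z e
 (c z e
 (c z e
 (c z e
 (c z e
 (c (a (nat_lit 0x8c8aa486867065137c6)) e e))))))))))))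
 (c z
 (c z e
 (c z e
 (c z e
 (c z e
 (c z e
 (c z e
 (c z e
 (c z e
 (c z e
 (c z e
 (c (a (nat_lit 0x64908c8a68756934ce6)) e e)))))))))))
 (c (a (nat_lit 0x7a7a7a7a7a7a7b4e2)) e
 (c (a (nat_lit 0x36363636363740104)) e
 (c (a (nat_lit 0x1c1c1c1c1d36da885)) e
 (c (a (nat_lit 0x1c1c1c1d62c65c7a5))
 (c z e
 (c z e
 (c z e
 (c z e
 (c z e
 (c (a (nat_lit 0x5c827c5c3e4a4463d07)) e
 (c (a (nat_lit 0x6c72d4ba484a4b15067)) e e)))))))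
 (c (a (nat_lit 0xe0e0f1c525e98266))
 (c z e
 (c z e
 (c z e
 (c (a (nat_lit 0x545a6a48746040715e7)) e
 (c (a (nat_lit 0x4c6a344c482e4fdb627)) e
 (c (a (nat_lit 0x4e7c80563e3c7cb3068)) e e))))))
 (c (a (nat_lit 0x1c1d60723ab8e47a5))
 (c z e
 (c (a (nat_lit 0x11f1ef07670503c61e66)) e
 (c (a (nat_lit 0x4c4430302c2c289b388)) e
 (c (a (nat_lit 0x3e2c0e0c14186eef248)) e
 (c (a (nat_lit 0xeeda70504cbb61be907)) e e)))))
 (c z e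
 (c z e
 (c z e
 (c z e
 (c z e
 (c (a (nat_lit 0x1cfe1c3c5c5a353047)) e
 (c (a (nat_lit 0x114f4f8d6b4926a327)) e e)))))))))))))))))
 (c z
 (c z
 (c (a (nat_lit 0x7c7c1a86930bd352de4)) e
 (c z e
 (c z e
 (c z e
 (c z e
 (c z e
 (c z e
 (c z e
 (c z e
 (c z e
 (c z e
 (c (a (nat_lit 0x541c5a70565c57e5185)) e
 (c (a (nat_lit 0x4e586452465e60db566)) e e)))))))))))))
 (c z
 (c z e
 (c z e
 (c z e
 (c z e
 (c z e
 (c z e
 (c z e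
 (c z e
 (c z e
 (c z e
 (c (a (nat_lit 0x122e424a3e4738ea386)) e
 (c (a (nat_lit 0x3e4858424652fce3127)) e e))))))))))))
 (c (a (nat_lit 0x72727272727273e02))
 (c z e
 (c z e
 (c z e
 (c z e
 (c z e
 (c z e
 (c z e
 (c z e
 (c z e
 (c (a (nat_lit 0x4232323c1d048e26126)) e e))))))))))
 (c (a (nat_lit 0x2424242424254a144)) e
 (c (a (nat_lit 0x18181818191e58665)) e
 (c (a (nat_lit 0x1616161930a064ea5))
 (c z e
 (c z e
 (c z e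
 (c z e
 (c z e
 (c z e
 (c (a (nat_lit 0x96934f40c67a866fa06)) e
 (c (a (nat_lit 0x7269c5af7a8880e7586)) e
 (c (a (nat_lit 0x13597b3dfa2df1f793a7)) e e)))))))))
 (c (a (nat_lit 0x1616177cac60e1005))
 (c z e
 (c z e
 (c z e
 (c z e
 (c (a (nat_lit 0x66686c6c66402475987)) e
 (c (a (nat_lit 0x1c4c3e20120a0ccb068)) e
 (c (a (nat_lit 0x287e6e5a1612441b188)) e e)))))))
 (c (a (nat_lit 0x80b084a60c876aa6))
 (c z e
 (c (a (nat_lit 0xae7c7444320e7441c66)) e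
 (c (a (nat_lit 0x544a5644305c3653207)) e
 (c (a (nat_lit 0x446456585a2e3dafe87)) e
 (c (a (nat_lit 0x463228221c12ba8b348)) e
 (c (a (nat_lit 0x9092923c30725d40568)) e e))))))
 (c z e
 (c z e
 (c z e
 (c z e
 (c z e
 (c z e
 (c z e
 (c (a (nat_lit 0x18d8fb98d34e696e66)) e
 (c z e
 (c z e
 (c z e
 (c (a (nat_lit 0x106e2ba523c36365c4)) e
 (c (a (nat_lit 0x17d2e5e766a6a5a003)) e e)))))))))))))))))))))
 C835))) Tr.c Tr.e (nat_lit 0) C.cx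
noncomputable def C837 : Tr := beta% (fun (c : Nat → Tr → Tr → Tr) (e : Tr) (z : Nat) (a b : Nat → Nat) =>
 (c z
 (c z
 (c (a (nat_lit 0xbaaeaf5d2720f371023)) e
 (c z e
 (c z e
 (c z e
 (c z e
 (c z e
 (c z e
 (c z e
 (c z e
 (c z e
 (c z e
 (c z e
 (c z e
 (c (a (nat_lit 0x3a4c5e6e6e5e5e89767)) e
 (c (a (nat_lit 0xcafcf8faff011555ec6)) e e)))))))))))))))
 (c (a (nat_lit 0x44444444444445b82)) e
 (c (a (nat_lit 0x26262626262740883)) e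
 (c (a (nat_lit 0x2e2e2e2e2f72b8b63))
 (c z e
 (c z e
 (c z e
 (c z e
 (c z e
 (c z e
 (c z e
 (c z e
 (c z e
 (c z e
 (c (a (nat_lit 0x6a6e868aad84c250007)) e e)))))))))))
 (c (a (nat_lit 0x24242424ea423b7e3)) e
 (c (a (nat_lit 0x484849f69a9b7b6e3))
 (c z e
 (c z e
 (c z e
 (c z e
 (c (a (nat_lit 0x382e6e2e562a4d4bc25)) e
 (c (a (nat_lit 0x10461c2c3e0e8542be6)) e e))))))
 (c (a (nat_lit 0x2021663c674a191c4))
 (c z e
 (c z e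
 (c (a (nat_lit 0x405654563e382e5f526)) e
 (c (a (nat_lit 0x5c5a6254304c65459e6)) e
 (c (a (nat_lit 0x746c7c34509fb6f7786)) e
 (c (a (nat_lit 0xaeb2b072892999aa826)) e e))))))
 (c (a (nat_lit 0x248a2625086ca25c4)) e
 (c (a (nat_lit 0x8426290e72843c064)) e
 (c z e
 (c z e
 (c (a (nat_lit 0x1730f5f10e6e6622a4)) e
 (c (a (nat_lit 0xe73b1504ec7050585)) e
 (c z e
 (c (a (nat_lit 0x11f1114e0a8887afc5)) e e)))))))))))))))
 (c z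
 (c z
 (c z e
 (c z e
 (c z e
 (c z e
 (c z e
 (c z e
 (c z e
 (c z e
 (c z e
 (c z e
 (c z e
 (c z e
 (c z e
 (c (a (nat_lit 0x4a6c727486dbdc00006)) e e))))))))))))))
 (c (a (nat_lit 0x32323434357d334a2)) e
 (c (a (nat_lit 0x1e1e1e1e181e270a3)) e
 (c (a (nat_lit 0x40404066324d31003)) e
 (c (a (nat_lit 0x5050782636babd1a4)) e
 (c z e
 (c z e
 (c z e
 (c z e
 (c z e
 (c z e
 (c (b (nat_lit 0x1c1f3f5fffe8c46764)) e
 (c (a (nat_lit 0x10706f7048c4652d85)) e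
 (c (a (nat_lit 0x5e4c6cb0aebabf225)) e e))))))))))))))
 (c z
 (c (a (nat_lit 0x38383839216981321)) e
 (c (a (nat_lit 0x2828283632362f125))
 (c z e
 (c z e
 (c z e
 (c z e
 (c z e
 (c z e
 (c z e
 (c z e
 (c (a (nat_lit 0x725064be707a45075e6)) e e)))))))))
 (c (a (nat_lit 0x2e2e3c1e321d5bc44)) e
 (c z e
 (c z e
 (c z e
 (c z e
 (c z e
 (c z e
 (c z e
 (c z e
 (c (a (nat_lit 0xe89ee50d0cff1b885)) e
 (c z e
 (c (a (nat_lit 0x108aa7c5e787444224)) e e))))))))))))))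
 (c z
 (c (a (nat_lit 0x5050222e3413bef63)) e
 (c (a (nat_lit 0x642038461d3edd404)) e
 (c z e
 (c z e
 (c z e
 (c z e
 (c z e
 (c z e
 (c (a (nat_lit 0xbdd561628a7a9afa4)) e
 (c (a (nat_lit 0xb880b666b0bcdb305)) e e))))))))))
 (c z
 (c (a (nat_lit 0x16223218666711ba4)) e
 (c z e
 (c z e
 (c z e
 (c z e
 (c z e
 (c (a (nat_lit 0x998288886e7490844)) e
 (c (a (nat_lit 0x1686ca8826eb4bee44)) e
 (c (a (nat_lit 0x9692c13d8d918d805)) e e)))))))))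
 (c z
 (c z e
 (c z e
 (c z e
 (c z e
 (c z e
 (c (a (nat_lit 0x13d79237166eb4643)) e
 (c (a (nat_lit 0x1739ced472783656a4)) e e)))))))
 (c z e
 (c z
 (c z e
 (c z e
 (c z e
 (c z e
 (c z e
 (c (a (nat_lit 0x1293f3121476562c65)) e
 (c (a (nat_lit 0x1c3b5a3cdebbd2d105)) e e)))))))
 (c z
 (c z e
 (c z e
 (c z e
 (c (a (nat_lit 0x14b757d1f0921d9ce4)) e
 (c (a (nat_lit 0x17d7f53535b8f28c65)) e e)))))
 (c z
 (c z e
 (c z e
 (c (a (nat_lit 0x16d62d88e97c7f0f23)) e e)))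
 (c (a (nat_lit 0xe0e0e101011d42))
 (c z e
 (c z e
 (c z e
 (c z e
 (c (a (nat_lit 0x18044a7674a3c0004)) e e)))))
 (c (a (nat_lit 0x2020202021e6462))
 (c z e
 (c (a (nat_lit 0xfa9ca6b488c70e5a5)) e e))
 (c (a (nat_lit 0x909090910cbe462))
 (c (a (nat_lit 0x581a5e44a552668e4)) e e)
 (c (a (nat_lit 0x12f2f2f3ef8ccec2)) e
 (c (a (nat_lit 0x1cfcfc12b0590fe1)) e
 (c (a (nat_lit 0xeb62c08b8220a1)) e e))))))))))))))))) Tr.c Tr.e (nat_lit 0) C.cx C.cy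
noncomputable def C838 : Tr := beta% (fun (c : Nat → Tr → Tr → Tr) (e : Tr) (z : Nat) (a : Nat → Nat) =>
 (c z
 (c z
 (c z e
 (c (a (nat_lit 0x7a7a7a7a7a7a7a7b402)) e
 (c (a (nat_lit 0x8e8e8e8e8e8e8fdea02)) e
 (c (a (nat_lit 0x525252525253e8524a3)) e
 (c (a (nat_lit 0x7e7e7e7e7ec864552a3)) e
 (c (a (nat_lit 0x424242426232385ba04)) e
 (c (a (nat_lit 0x4a4a4a923c2659b1324)) e
 (c z e
 (c z e
 (c z e
 (c z e
 (c z e
 (c z e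
 (c z e
 (c z e
 (c (a (nat_lit 0x18d939930e4f0f4f38c4)) e
 (c (a (nat_lit 0xff01050b0d171715367)) e
 (c (a (nat_lit 0xeaed05393f7b7d7b966)) e e))))))))))))))))))
 (c z
 (c (a (nat_lit 0xaaaaaaaaaaaaab44b02)) e
 (c (a (nat_lit 0xa2a2a2a2a2a3a723843)) e
 (c (a (nat_lit 0x26262626269c2435085)) e
 (c (a (nat_lit 0x707070704e506177b04)) e
 (c (a (nat_lit 0x4242422e3c3a857b5e5)) e
 (c (a (nat_lit 0x4646624c3e8594f8525)) e
 (c z e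
 (c z e
 (c z e
 (c z e
 (c z e
 (c z e
 (c z e
 (c z e
 (c (a (nat_lit 0xc8c6d4cee6eee0e1007)) e e)))))))))))))))
 (c z
 (c (a (nat_lit 0x78787878783a708de83)) e
 (c (a (nat_lit 0x36363636882c3b17625)) e
 (c (a (nat_lit 0x3e3e3e343638d939405)) e
 (c (a (nat_lit 0x4040584450a7ad4cd25)) e
 (c z e
 (c z e
 (c z e
 (c z e
 (c z e
 (c z e
 (c z e
 (c z e
 (c z e
 (c (a (nat_lit 0x1213d4d8999adabadc06)) e e))))))))))))))
 (c z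
 (c (a (nat_lit 0x383838fa383d5363304)) e
 (c (a (nat_lit 0x3e3e963e3b0f054ef65)) e
 (c z e
 (c z e
 (c z e
 (c z e
 (c z e
 (c z e
 (c z e
 (c z e
 (c z e
 (c z e
 (c (a (nat_lit 0xaecd0f2d514943373c6)) e e)))))))))))))
 (c z e
 (c z
 (c z e
 (c z e
 (c z e
 (c z e
 (c z e
 (c z e
 (c z e
 (c z e
 (c z e
 (c z e
 (c z e
 (c z e
 (c (a (nat_lit 0x15b4739331f20d8b6f06)) e e)))))))))))))
 (c z
 (c z e
 (c z e
 (c z e
 (c z e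
 (c z e
 (c z e
 (c z e
 (c z e
 (c z e
 (c z e
 (c z e
 (c (a (nat_lit 0x1f5cf41559706d267325)) e e))))))))))))
 (c (a (nat_lit 0x44444446464647322)) e
 (c (a (nat_lit 0x262626262627264e3)) e
 (c (a (nat_lit 0x2424242425be3c284)) e
 (c (a (nat_lit 0x30303031cc70069c3)) e
 (c (a (nat_lit 0x2e2e2f387e14c01c3))
 (c z e
 (c (a (nat_lit 0x3a46403a3022222f046)) e
 (c (a (nat_lit 0x3c12101e1c282c51406)) e
 (c (a (nat_lit 0x368072162a222467346)) e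
 (c (a (nat_lit 0xb2c27280aa31129c006)) e e)))))
 (c (a (nat_lit 0x2425b2441cc8b05e3))
 (c (a (nat_lit 0x2c263840262224c9866)) e
 (c (a (nat_lit 0x80c1c1c2c2ca9b15c6)) e e)) e)))))))))))))
 (c z
 (c z
 (c (a (nat_lit 0x6666666666671a727c2)) e
 (c (a (nat_lit 0x3a3a3a3a3abc708d3e4)) e
 (c (a (nat_lit 0x282a2a2a8c2c4353e84)) e
 (c (a (nat_lit 0x4a4a4a60404b2b232c4)) e e))))
 (c z
 (c (a (nat_lit 0x3c3c3c3c6066871d9c4)) e
 (c (a (nat_lit 0x323232824e7539c92c5)) e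
 (c (a (nat_lit 0x38384c4a60f55518da5)) e e)))
 (c z
 (c (a (nat_lit 0x363676324f5bbf8b544)) e e)
 (c z
 (c z e
 (c z e
 (c z e
 (c z e
 (c z e
 (c z e
 (c z e
 (c z e
 (c z e
 (c z e
 (c z e
 (c (a (nat_lit 0xe705011f1d2738f37c6)) e e))))))))))))
 (c z
 (c z e
 (c z e
 (c z e
 (c z e
 (c z e
 (c z e
 (c z e
 (c z e
 (c z e
 (c z e
 (c z e
 (c z e
 (c (a (nat_lit 0x6c70545e82765425267)) e e)))))))))))))
 (c (a (nat_lit 0x46464646464647722)) e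
 (c (a (nat_lit 0x424242424243d44e2)) e
 (c (a (nat_lit 0x2424242425bc44503))
 (c z e
 (c z e
 (c z e
 (c z e
 (c z e
 (c z e
 (c z e
 (c (a (nat_lit 0x10ce4cee566a466a5146)) e e))))))))
 (c (a (nat_lit 0x1c1c1c1d925287024))
 (c z e
 (c z e
 (c z e
 (c z e
 (c (a (nat_lit 0x6c5e583442344459b66)) e
 (c (a (nat_lit 0x4a5eaa74283024af186)) e e))))))
 (c (a (nat_lit 0x262627de384350c43))
 (c z e
 (c z e
 (c z e
 (c (a (nat_lit 0x504e32401e303ad1646)) e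
 (c (a (nat_lit 0x4e987022241a7f54646)) e e)))))
 (c (a (nat_lit 0x2828fc144b8942b03))
 (c z e
 (c (a (nat_lit 0x42362624241c16676c6)) e
 (c (a (nat_lit 0x2c0c3a242038570f4e6)) e
 (c (a (nat_lit 0xc4b66256545554be826)) e e))))
 (c z e
 (c z e
 (c z e
 (c z e
 (c (a (nat_lit 0x13539473737311ed26)) e
 (c z e
 (c (a (nat_lit 0x10478461a1e3c68323)) e e))))))))))))))))))
 (c z
 (c z
 (c (a (nat_lit 0x6a6a6a1c6876eb9ea83)) e
 (c (a (nat_lit 0x565644506d1fd6f8a24)) e e))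
 (c z
 (c (a (nat_lit 0x627a5e7141851ebed04)) e
 (c z e
 (c z e
 (c z e
 (c z e
 (c z e
 (c z e
 (c z e
 (c z e
 (c z e
 (c z e
 (c (a (nat_lit 0x54486e8e787266ff7c5)) e
 (c (a (nat_lit 0x101112b2f8599bb89f46)) e e)))))))))))))
 (c z e
 (c (a (nat_lit 0x44444444444445a42)) e
 (c (a (nat_lit 0x505050505051da522)) e
 (c (a (nat_lit 0x4646464647f8850c2)) e
 (c (a (nat_lit 0x28282829702e6cf03))
 (c z e
 (c z e
 (c z e
 (c z e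
 (c z e
 (c (a (nat_lit 0x20224a281824102b027)) e e))))))
 (c (a (nat_lit 0x2222239862a538a24))
 (c z e
 (c z e
 (c z e
 (c (a (nat_lit 0x402e4e4644422631ba6)) e
 (c (a (nat_lit 0xe703062444065b9206)) e
 (c (a (nat_lit 0x6edadeb45e5b4b23d26)) e e))))))
 (c (a (nat_lit 0x3637a60e65adc8b23)) e
 (c (a (nat_lit 0x33020e55bbda76203)) e
 (c z e
 (c z e
 (c z e
 (c (a (nat_lit 0x11f391f0902e8503e5)) e
 (c (a (nat_lit 0x189755f4b6138988e5)) e e)))))))))))))))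
 C837)))) Tr.c Tr.e (nat_lit 0) C.cx
noncomputable def C839 : Tr := beta% (fun (c : Nat → Tr → Tr → Tr) (e : Tr) (z : Nat) (a : Nat → Nat) =>
 (c z
 (c z
 (c z
 (c z e
 (c z e
 (c z e
 (c z e
 (c (a (nat_lit 0x4040404040404041ea1)) e
 (c (a (nat_lit 0x3a3a3a3a3a3a3b38321)) e e))))))
 (c z
 (c z e
 (c z e
 (c (a (nat_lit 0x4e4e4e4e4e4e4e4f942)) e
 (c (a (nat_lit 0x2a2a2a2a2a2a2b842e3)) e
 (c (a (nat_lit 0x727272727273a864422)) e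
 (c (a (nat_lit 0x7272727273b0665ca82)) e
 (c z e
 (c z e
 (c z e
 (c z e
 (c z e
 (c z e
 (c z e
 (c z e
 (c z e
 (c z e
 (c (a (nat_lit 0x1afafb1af97858585ce5)) e e)))))))))))))))))
 (c z
 (c (a (nat_lit 0x7272727474747475da1)) e
 (c (a (nat_lit 0x5252525252525348862)) e
 (c (a (nat_lit 0x464646464647dc36642)) e
 (c (a (nat_lit 0x74747474750c485fe22)) e
 (c (a (nat_lit 0x505050506a4648b36a3)) e
 (c z e
 (c z e
 (c z e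
 (c z e
 (c z e
 (c z e
 (c z e
 (c z e
 (c z e
 (c z e
 (c (a (nat_lit 0x18f8997b3e7cdcbd5e65)) e e))))))))))))))))
 (c z
 (c z e
 (c (a (nat_lit 0x4c4c4c4c4cd642574c3)) e
 (c (a (nat_lit 0x444444442c324301123)) e
 (c (a (nat_lit 0x4848485e4a66cbb9463)) e e))))
 (c z
 (c (a (nat_lit 0x4e4e4e4f3c4c4b86ee2)) e
 (c (a (nat_lit 0x4a4a4ace4c4d409ef23)) e e))
 (c z e
 (c z e
 (c z e
 (c z e
 (c z e
 (c (a (nat_lit 0x24242424242504263)) e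
 (c z e
 (c z e
 (c z e
 (c (a (nat_lit 0x5c5dde5046aa7a1a2)) e
 (c z e
 (c (a (nat_lit 0x192fee97d4da98fb02)) e
 (c z e
 (c (a (nat_lit 0xcd17073b314118ae3)) e e)))))))))))))))))))
 C838)
 (c z
 (c z
 (c z
 (c (a (nat_lit 0x2c2c2c2c2c2c2c2d6c2)) e
 (c (a (nat_lit 0x7c7c7c7c7c7c7d68b42)) e
 (c (a (nat_lit 0x48484848484914624c3)) e
 (c (a (nat_lit 0x5c5c5c5c5dbc6865b23)) e
 (c (a (nat_lit 0x404040406a32368f2e4)) e
 (c (a (nat_lit 0x5252527842506bc3384)) e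
 (c z e
 (c z e
 (c z e
 (c z e
 (c z e
 (c z e
 (c z e
 (c z e
 (c z e
 (c (a (nat_lit 0xccc8daa4b4d8dccf345)) e
 (c (a (nat_lit 0xc6ccd8dee9070301167)) e e)))))))))))))))))
 (c z
 (c (a (nat_lit 0xd0d2d2d2d2d2a497f02)) e
 (c (a (nat_lit 0x464646464698729d045)) e
 (c (a (nat_lit 0x24242424662234b35a6)) e
 (c (a (nat_lit 0x5a5a5a383e5ad3b3ee5)) e
 (c (a (nat_lit 0x2e2e1a2a324516dcce6)) e
 (c z e
 (c z e
 (c z e
 (c z e
 (c z e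
 (c z e
 (c z e
 (c z e
 (c z e
 (c (a (nat_lit 0xd2f0ff05214943416c7)) e e)))))))))))))))
 (c z
 (c (a (nat_lit 0x5656565628586737dc4)) e
 (c (a (nat_lit 0x2828285a202ebd27106)) e
 (c (a (nat_lit 0x3030282a2e8cf702a86)) e
 (c z e
 (c z e
 (c z e
 (c z e
 (c z e
 (c z e
 (c z e
 (c z e
 (c z e
 (c z e
 (c z e
 (c z e
 (c (a (nat_lit 0xd6f14959738f856d467)) e e))))))))))))))))
 (c z
 (c (a (nat_lit 0x2c2c7a2a32f761027e5)) e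
 (c z e
 (c z e
 (c z e
 (c z e
 (c z e
 (c z e
 (c z e
 (c z e
 (c z e
 (c z e
 (c (a (nat_lit 0x767a8674aa9676514c5)) e e))))))))))))
 (c z
 (c z e
 (c z e
 (c z e
 (c z e
 (c z e
 (c z e
 (c z e
 (c z e
 (c z e
 (c z e
 (c (a (nat_lit 0xa670b8b08c503715165)) e e)))))))))))
 (c z e
 (c (a (nat_lit 0x7c7c7c7c7c7c7dbc2)) e
 (c (a (nat_lit 0x82828282828357422)) e
 (c (a (nat_lit 0x222222222344fa104))
 (c z e
 (c z e
 (c z e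
 (c z e
 (c z e
 (c z e
 (c z e
 (c (a (nat_lit 0x18cff132dc038669b006)) e e))))))))
 (c (a (nat_lit 0x161616171c423e745))
 (c z e
 (c z e
 (c z e
 (c z e
 (c (a (nat_lit 0x10cced24254485ca9be5)) e
 (c (a (nat_lit 0x7a80c4a4365046736e6)) e
 (c (a (nat_lit 0x15529454294f479c2f86)) e e)))))))
 (c (a (nat_lit 0x2222231c901074684))
 (c z e
 (c z e
 (c (a (nat_lit 0x3c3c32242a241415107)) e
 (c (a (nat_lit 0x3a3422162214186b107)) e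
 (c (a (nat_lit 0x64c8ca665454b71b6a6)) e e)))))
 (c (a (nat_lit 0x48497340330c80383))
 (c z e
 (c (a (nat_lit 0x6e624a443a3e371f467)) e
 (c (a (nat_lit 0x502416203c2e45adb86)) e
 (c (a (nat_lit 0x6264263020206706487)) e e))))
 (c z e
 (c z e
 (c z e
 (c z e
 (c z e
 (c (a (nat_lit 0x12537272904e4b6686)) e
 (c (a (nat_lit 0x146122a182822141e3)) e e)))))))))))))))))))
 C836)
 C834))) Tr.c Tr.e (nat_lit 0) C.cx
noncomputable def C840 : Tr := beta% (fun (c : Nat → Tr → Tr → Tr) (e : Tr) (z : Nat) (a b : Nat → Nat) =>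
 (c (nat_lit 1)
 (c (a (nat_lit 0xb6b6b6b6b7a03))
 (c z e
 (c (a (nat_lit 0xe6ece0dd05796a3)) e
 (c (a (nat_lit 0x525252668c93304)) e
 (c (a (nat_lit 0x5a5c6c62c4ab584)) e
 (c (a (nat_lit 0x76966a9e3fecec3)) e
 (c (a (nat_lit 0xaed0db175676a24)) e
 (c (a (nat_lit 0xf6ff45a31410824)) e
 (c z e
 (c (a (nat_lit 0x10543a99fb112005)) e
 (c (a (nat_lit 0x11c9262100000004)) e
 (c (a (nat_lit 0x1b0a600000000003)) e e)))))))))))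
 (c (a (nat_lit 0x20202035c144))
 (c (a (nat_lit 0x6c60564137b9fa2)) e
 (c (a (nat_lit 0x4a464288bd38e44)) e
 (c z e
 (c (a (nat_lit 0x2c4c764746fe023)) e
 (c (a (nat_lit 0x70b73b449070ce4)) e
 (c z e
 (c z e
 (c (a (nat_lit 0xdfd5b1d30000005)) e
 (c (a (nat_lit 0x13e7c0e000000003)) e e)))))))))
 (c (a (nat_lit 0xa0a0b302a2c3))
 (c (a (nat_lit 0x24324a912256863)) e
 (c (a (nat_lit 0x4c3127130882063)) e e))
 (c (a (nat_lit 0x8282e4f0c1702))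
 (c z e
 (c z e
 (c z e
 (c (a (nat_lit 0x11cfe76affb14da5)) e e))))
 (c (a (nat_lit 0x69a561487f23))
 (c (a (nat_lit 0x488c8690b520f45)) e
 (c (a (nat_lit 0x58668c9f4162f06)) e e))
 (c z e
 (c z e
 (c z e
 (c (a (nat_lit 0xd32ce6dad8485)) e
 (c (a (nat_lit 0x13e66302e02023)) e
 (c (b (nat_lit 0x1df02fc4a35fe1)) e
 (c (a (nat_lit 0x1655f04fec6d02)) e
 (c (a (nat_lit 0x1933730fb09222)) e
 (c (a (nat_lit 0x7464041c504a1)) e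
 (c z e
 (c (a (nat_lit 0x6100c36001)) e
 (c z e
 (c (a (nat_lit 0x783c000000001)) e e))))))))))))))))))
 (c (a (nat_lit 0x2020002021))
 (c (a (nat_lit 0x2a2a2bf64c383))
 (c z e
 (c z e
 (c z e
 (c (a (nat_lit 0x8aa4ca1c0f10c23)) e
 (c (a (nat_lit 0x2a3e34104231145)) e
 (c (a (nat_lit 0x808e9c862ecf0e5)) e
 (c (a (nat_lit 0x82ff54fd0684005)) e
 (c (a (nat_lit 0xe91f04b60000005)) e
 (c (a (nat_lit 0x1ee8000000000002)) e e)))))))))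
 (c (a (nat_lit 0x2a2b2e483e6e4))
 (c z e
 (c z e
 (c z e
 (c (a (nat_lit 0x4a7a34626f8cf05)) e
 (c (b (nat_lit 0xff85fe7f0b1b024)) e
 (c z e
 (c (a (nat_lit 0x15b9e94000000005)) e e)))))))
 (c (a (nat_lit 0x859928cf988a2))
 (c (a (nat_lit 0x140e1220100d3c5)) e
 (c (a (nat_lit 0x3008465411a5b05)) e e))
 (c (a (nat_lit 0x17cb60502da0c2))
 (c (a (nat_lit 0x1c3e8859697e3a4)) e
 (c (a (nat_lit 0x46745b5f7f3a2c5)) e e))
 (c (a (nat_lit 0x11acb9167c27c2))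
 (c (a (nat_lit 0x848103176838005)) e e)
 (c (a (nat_lit 0x6904f912bebe4)) e
 (c (a (nat_lit 0x1d9cda39b99bc4)) e
 (c (a (nat_lit 0x18f65595678784)) e
 (c (a (nat_lit 0x62047d4138fa1)) e
 (c (a (nat_lit 0x15d91fbfdd9de2)) e
 (c (a (nat_lit 0x2a8aa6282661)) e
 (c (a (nat_lit 0x42460c2404021)) e e))))))))))))
 (c (a (nat_lit 0x4040404041))
 (c (a (nat_lit 0x58d08e8edf1e2))
 (c z e
 (c (a (nat_lit 0x3020222808375a5)) e
 (c (a (nat_lit 0x1454621218ab024)) e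
 (c (a (nat_lit 0x181a16274892de5)) e
 (c (a (nat_lit 0xea92c1a33096004)) e
 (c z e
 (c (a (nat_lit 0x1348a00000000005)) e e)))))))
 (c (b (nat_lit 0x1854511bb1bfe2))
 (c (a (nat_lit 0x241830101d66a45)) e
 (c (b (nat_lit 0xa37fffedd25a85)) e
 (c z e
 (c (a (nat_lit 0x74592eb86a00006)) e e))))
 (c z e
 (c (a (nat_lit 0x101a572c28c8e2))
 (c (a (nat_lit 0x4904b0fc2e00005)) e e)
 (c (a (nat_lit 0x1f1e38b7170023)) e
 (c z e
 (c (a (nat_lit 0x1190d0c382e244)) e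
 (c (a (nat_lit 0xa2a508f2dce43)) e
 (c (a (nat_lit 0xe69038645e1)) e
 (c (a (nat_lit 0x104ac56847a681)) e
 (c z e
 (c (a (nat_lit 0xe0c04381e1)) e e))))))))))))
 (c (a (nat_lit 0x2020202021))
 (c (a (nat_lit 0x13905ca0804041))
 (c (a (nat_lit 0x143214091a54e84)) e
 (c z e
 (c z e
 (c (a (nat_lit 0x55b0d8880000005)) e e))))
 (c (a (nat_lit 0x10176de8074603))
 (c (a (nat_lit 0x4c166ced0298205)) e e)
 (c z e
 (c (a (nat_lit 0x14141353284824)) e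
 (c z e
 (c (a (nat_lit 0xcef114fef0f24)) e
 (c (a (nat_lit 0x338901e44201)) e
 (c (a (nat_lit 0x152a24c723a2a1)) e e))))))))
 (c (nat_lit 1)
 (c (a (nat_lit 0x134e4321213102))
 (c (a (nat_lit 0x4039a732ee3a003)) e
 (c (a (nat_lit 0x312ef4520000005)) e e))
 (c (a (nat_lit 0x1e13f0f0f32e22))
 (c (a (nat_lit 0x11af62c000000005)) e e)
 (c z e
 (c (a (nat_lit 0x14f719d8375764)) e
 (c (a (nat_lit 0x2562608136e3)) e
 (c (a (nat_lit 0x1ace6729680681)) e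
 (c z e
 (c z e
 (c (a (nat_lit 0x6c5e3e4249781)) e
 (c (a (nat_lit 0xa49ea0a13a9c2)) e e))))))))))
 (c (a (nat_lit 0x4040404041))
 (c (a (nat_lit 0x1d151476624c2))
 (c (a (nat_lit 0x13a1c00000000003)) e e)
 (c (a (nat_lit 0xd8ef08fef0f64)) e
 (c (a (nat_lit 0x11d372d1d21fc4)) e
 (c (a (nat_lit 0x41cbc3cbcfc63)) e
 (c z e
 (c (a (nat_lit 0x3c624e260e1)) e
 (c (a (nat_lit 0x2c58442810021)) e
 (c (a (nat_lit 0xdcc8a6a28ee01)) e e))))))))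
 (c (nat_lit 1)
 (c (a (nat_lit 0x8222a1c213c3)) e
 (c z e
 (c z e
 (c (a (nat_lit 0x218301a08041)) e
 (c (a (nat_lit 0x1596f5f5148481)) e
 (c (a (nat_lit 0x1b39f94b08e901)) e
 (c (a (nat_lit 0x15b4e68444e2e1)) e
 (c (a (nat_lit 0x1405a382200001)) e
 (c (a (nat_lit 0x5018000000001)) e e)))))))))
 (c (a (nat_lit 0x2001))
 (c z e
 (c (a (nat_lit 0x17b899791837e3)) e
 (c (a (nat_lit 0x13f47474745184)) e
 (c (a (nat_lit 0x1e1d3aae278541)) e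
 (c (a (nat_lit 0x18f668c1e10041)) e
 (c (a (nat_lit 0x17096261c0a001)) e
 (c (a (nat_lit 0xa030140000001)) e e)))))))
 (c (a (nat_lit 0x4040404041))
 (c (a (nat_lit 0x1575b59514efa3)) e
 (c (a (nat_lit 0x1e3d472705e681)) e
 (c (a (nat_lit 0x1d2706e5e66761)) e
 (c (a (nat_lit 0x322c2228381c1)) e
 (c (a (nat_lit 0x2c20261c00001)) e e)))))
 (c (a (nat_lit 0x4040404041)) e
 (c (a (nat_lit 0x6060606061)) e
 (c (a (nat_lit 0x2020202021)) e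
 (c (a (nat_lit 0x2020202021)) e
 (c (a (nat_lit 0x2020202021)) e
 (c (a (nat_lit 0x2020202021)) e
 (c (a (nat_lit 0x1ae1)) e
 (c (a (nat_lit 0x1ab641)) e
 (c (a (nat_lit 0x607b36cc81)) e
 (c (a (nat_lit 0x11bf78d23e1)) e
 (c (a (nat_lit 0x187409a08141)) e
 (c (a (nat_lit 0x13892020c121)) e
 (c (a (nat_lit 0x114849096541)) e
 (c (a (nat_lit 0xecf90ebebe1)) e
 (c (a (nat_lit 0x3c540202001)) e
 (c (a (nat_lit 0x52020000001)) e e)))))))))))))))))))))))))) Tr.c Tr.e (nat_lit 0) C.cx C.cy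
noncomputable def C841 : Tr := beta% (fun (c : Nat → Tr → Tr → Tr) (e : Tr) (z : Nat) (a b : Nat → Nat) =>
 (c (a (nat_lit 0x20002001))
 (c z
 (c z e
 (c (a (nat_lit 0x1020156fd8fef82))
 (c z e
 (c z e
 (c (a (nat_lit 0x5c7c4a1c223e65466)) e
 (c (a (nat_lit 0x3256465c2a5d58f26)) e
 (c (a (nat_lit 0x421c24242d7eac2c6)) e e)))))
 (c (a (nat_lit 0x94b9afa72b26c63))
 (c z e
 (c (a (nat_lit 0x624028040c1d38fc6)) e
 (c (a (nat_lit 0x38364c1e237064486)) e e)))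
 (c (a (nat_lit 0x35d75ca09c12422))
 (c (a (nat_lit 0x7496767067d6c2765)) e
 (c (a (nat_lit 0x2a3c16217480105e6)) e
 (c z e
 (c z e
 (c z e
 (c (a (nat_lit 0x13b885284000000005)) e e))))))
 (c (a (nat_lit 0xf79860903c9e001))
 (c z e
 (c z e
 (c (a (nat_lit 0x23f93ed0f4622c005)) e
 (c (a (nat_lit 0x1ae9424ae140000005)) e
 (c (a (nat_lit 0x160e2c800000000005)) e e)))))
 (c (a (nat_lit 0x1cb2f2d313cf8ec2))
 (c (a (nat_lit 0x21c93ea2707c3a165)) e e)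
 (c z e
 (c (a (nat_lit 0x38362c0a8ee7563)) e
 (c (a (nat_lit 0x9ec6a725dbe5a83)) e
 (c (a (nat_lit 0x9a8cfd5b632d1a4)) e
 (c (a (nat_lit 0x8ad1131700f2005)) e
 (c (a (nat_lit 0x13191577b604a224)) e
 (c z e
 (c (a (nat_lit 0xd16764b81a12102)) e
 (c (a (nat_lit 0x15554a60a0402002)) e
 (c (a (nat_lit 0x156a80a020000002)) e e))))))))))))))))
 (c z
 (c (a (nat_lit 0x83508f288863a3))
 (c z e
 (c (a (nat_lit 0x94d82428302c67fc5)) e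
 (c (a (nat_lit 0x8a2c12266697579e6)) e
 (c (a (nat_lit 0x21c2608371ef0586)) e
 (c (a (nat_lit 0x3036544973402e686)) e e)))))
 (c z e
 (c z e
 (c (a (nat_lit 0x156e0f8c0d692883)) e
 (c (a (nat_lit 0x96aa8a9270750e4))
 (c (a (nat_lit 0x168fa426ca07c1c006)) e
 (c (a (nat_lit 0x1eec71b6ca80000006)) e e))
 (c (a (nat_lit 0x1ad81793169d3e03)) e
 (c z e
 (c (a (nat_lit 0x8470ab8148fcc44)) e
 (c (a (nat_lit 0x387112f6c4ae1a5)) e e)))))))))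
 (c z
 (c z e
 (c z e
 (c z e
 (c z e
 (c z e
 (c (a (nat_lit 0x5c4878eb4ae0a44)) e
 (c z e
 (c z e
 (c z e
 (c z e
 (c (a (nat_lit 0x16d1b1b5f221e9e3)) e e)))))))))))
 (c z
 (c (a (nat_lit 0x15d58fd0ef8fb763))
 (c z e
 (c (a (nat_lit 0x4f7cdc523ce658526)) e
 (c (a (nat_lit 0x17f9e6836bc343c005)) e e)))
 (c (a (nat_lit 0x9230583e46ddf83))
 (c (a (nat_lit 0x10ab63230a6321a106)) e e)
 (c z e
 (c z e
 (c (b (nat_lit 0x1fffea958c23d344)) e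
 (c (a (nat_lit 0x5edf7b4d05ba504)) e
 (c z e
 (c z e
 (c (a (nat_lit 0xe8df50a0a2f6da5)) e
 (c (a (nat_lit 0x7154081e1602024)) e
 (c (a (nat_lit 0x1500418120200004)) e e)))))))))))
 (c z
 (c z e
 (c (a (nat_lit 0xd0bcbd0cd61e003)) e
 (c z e
 (c (a (nat_lit 0x12d27688439209e3)) e
 (c (a (nat_lit 0x1553100db32f7204)) e
 (c (b (nat_lit 0x16dffffb1b3a3283)) e
 (c (a (nat_lit 0xe1235b2fa7392c5)) e
 (c (a (nat_lit 0xf3313dafa13b4a5)) e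
 (c (a (nat_lit 0x13480a77af490003)) e e)))))))))
 (c z
 (c z e
 (c (a (nat_lit 0xbc7d043e22ee163)) e
 (c z e
 (c z e
 (c (b (nat_lit 0xffed5d5c751443)) e e)))))
 (c (a (nat_lit 0x6c6e6e6e6f721))
 (c z e
 (c (a (nat_lit 0x9e667098a4a7065)) e
 (c (a (nat_lit 0x28324628665d785)) e
 (c z e
 (c z e
 (c (a (nat_lit 0xdd2eeeb8f4a4005)) e e))))))
 (c (a (nat_lit 0x1c1c1c1d6c6c3))
 (c (a (nat_lit 0x606765d13bda03)) e
 (c (a (nat_lit 0xe3418950dc4e85)) e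
 (c z e
 (c (a (nat_lit 0x8cc519195a308c5)) e
 (c (a (nat_lit 0x1635f36d2f000004)) e
 (c (a (nat_lit 0x1bbc2b8000000003)) e e))))))
 (c (a (nat_lit 0x565657a6be843))
 (c (a (nat_lit 0x341e66b372c69e5)) e
 (c z e
 (c z e
 (c (a (nat_lit 0xd1ad14ae0000005)) e e))))
 (c (a (nat_lit 0xaaab6780ac1a2))
 (c (a (nat_lit 0x2222d0bb51b6384)) e e)
 (c (a (nat_lit 0xd2f116b22ada2)) e
 (c (a (nat_lit 0x2a3022bad7004)) e
 (c (a (nat_lit 0x7e44128b328c2)) e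
 (c (a (nat_lit 0x48189140928c2)) e
 (c (a (nat_lit 0x27bdc807a761)) e
 (c (a (nat_lit 0x3640a0806021)) e
 (c (a (nat_lit 0x182d6d4d0bc4e2)) e
 (c (a (nat_lit 0x12f2b2d18a8982)) e
 (c (a (nat_lit 0x11110e80c04441)) e
 (c (a (nat_lit 0x10ee60e0a3e121)) e e))))))))))))))))))))
 (c (nat_lit 1)
 (c z
 (c z e
 (c (a (nat_lit 0x1b0f29a982a24023)) e
 (c z e
 (c z e
 (c (a (nat_lit 0xf498a866765dc82)) e
 (c (a (nat_lit 0x6c2a18284f08fe2)) e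
 (c (a (nat_lit 0x30161ee7a5a3d22)) e
 (c (a (nat_lit 0x909321c5a7df683)) e
 (c (a (nat_lit 0x891b6b5d592c5a4)) e
 (c z e
 (c (a (nat_lit 0x14d1b55463802b04)) e
 (c (a (nat_lit 0xa71d16c2544c663)) e
 (c (a (nat_lit 0x1d5cb243a3a36002)) e
 (c (a (nat_lit 0x196f008040000002)) e e))))))))))))))
 (c z
 (c z e
 (c z e
 (c (a (nat_lit 0xd4223e223211083))
 (c (a (nat_lit 0x1af4ca238583ac2585)) e e)
 (c z e
 (c z e
 (c z e
 (c (a (nat_lit 0x2c56b934a6f6045)) e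
 (c z e
 (c z e
 (c z e
 (c (a (nat_lit 0x8f6c2a2e2e2e284)) e
 (c (a (nat_lit 0x1460404040200004)) e e))))))))))))
 (c z
 (c (a (nat_lit 0x1e77d8f7d8183323)) e
 (c z e
 (c z e
 (c z e
 (c (a (nat_lit 0xcaecdb152ea2084)) e e)))))
 (c z
 (c z e
 (c z e
 (c z e
 (c z e
 (c (a (nat_lit 0x108f2d8bc98685c3)) e
 (c (a (nat_lit 0x157c1dfa5631a1a4)) e
 (c z e
 (c (a (nat_lit 0x7876e504ea96325)) e
 (c (a (nat_lit 0xeef53f5ace00003)) e e)))))))))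
 (c (a (nat_lit 0x5c5c5c5c5dfe1))
 (c (a (nat_lit 0xdcdf54c41203a02)) e
 (c (a (nat_lit 0x173a35a7e3fe53e2)) e
 (c z e
 (c (a (nat_lit 0xb698a10e96a72e4)) e
 (c (b (nat_lit 0x1ffff450712c2184)) e
 (c z e
 (c (a (nat_lit 0xa2d2db26d62a005)) e e)))))))
 (c (a (nat_lit 0x7e7e7e7ff16a1)) e
 (c (a (nat_lit 0x1212137c68283))
 (c z e
 (c z e
 (c z e
 (c z e
 (c (a (nat_lit 0x9524a8f60000004)) e
 (c (a (nat_lit 0x1e6d400000000002)) e e))))))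
 (c (a (nat_lit 0x5657c09c78503))
 (c (a (nat_lit 0x182866746ebd045)) e
 (c (a (nat_lit 0x4a504064950e9e6)) e
 (c z e
 (c (a (nat_lit 0xc91bb0000000004)) e e))))
 (c (a (nat_lit 0x56cea04c19023))
 (c (a (nat_lit 0x50387ee1ef0c005)) e e)
 (c z e
 (c (a (nat_lit 0x322abf3514ec4)) e
 (c (a (nat_lit 0x482d14d886823)) e
 (c (a (nat_lit 0x190d4746e382)) e
 (c (a (nat_lit 0x176ba58561e022)) e
 (c (b (nat_lit 0x108464005fffe1)) e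
 (c (a (nat_lit 0x100fec6b83c3e2)) e
 (c (a (nat_lit 0x17304e60618221)) e
 (c (a (nat_lit 0x1127e061a30401)) e e))))))))))))))))))
 (c (nat_lit 1)
 (c z
 (c z e
 (c (a (nat_lit 0x1bf818b8f9d8a782)) e
 (c z e
 (c (a (nat_lit 0x44484a48623d543)) e
 (c (a (nat_lit 0x444642562729463)) e
 (c (a (nat_lit 0x928ee8b5e559083)) e
 (c (a (nat_lit 0x34e6ebc9ef581e3)) e
 (c (a (nat_lit 0xf8f90b5330baae4)) e
 (c z e
 (c (a (nat_lit 0xd1090a52b8bafa5)) e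
 (c (a (nat_lit 0x18b94a470746e003)) e
 (c (a (nat_lit 0x1324408080000003)) e e))))))))))))
 (c z
 (c z e
 (c z e
 (c (a (nat_lit 0x4242a0b5774ee84)) e
 (c (a (nat_lit 0x54506b16c0951a4)) e
 (c z e
 (c z e
 (c z e
 (c z e
 (c z e
 (c (a (nat_lit 0x11ad006080800004)) e
 (c (a (nat_lit 0x19e0402000000003)) e e)))))))))))
 (c (a (nat_lit 0x204040403801))
 (c z e
 (c (a (nat_lit 0x5e4e3e6ed495923)) e
 (c z e
 (c z e
 (c (a (nat_lit 0x90aab2f6e4a3984)) e e)))))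
 (c (a (nat_lit 0x9e9e9e9fa6aa1))
 (c z e
 (c (a (nat_lit 0x806cb4a28d38783)) e
 (c z e
 (c z e
 (c (a (nat_lit 0x515db7850aa51c4)) e e)))))
 (c (a (nat_lit 0xaaaaab18def02))
 (c (a (nat_lit 0xc0e24457a63a582)) e
 (c z e
 (c z e
 (c (a (nat_lit 0x6ef4cc68a59f225)) e e))))
 (c (a (nat_lit 0x5455988866543))
 (c (a (nat_lit 0x7271933b9ff4cc4)) e e)
 (c (a (nat_lit 0x2ccc3c3a03004))
 (c (a (nat_lit 0x825784e7f8d52a4)) e
 (c z e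
 (c z e
 (c (a (nat_lit 0x1c9ae00000000004)) e e))))
 (c (a (nat_lit 0x3e5a329593364))
 (c (a (nat_lit 0x9ec11ba29800005)) e e)
 (c z e
 (c (a (nat_lit 0x5eaf1cf0d2d25)) e
 (c (a (nat_lit 0x3b90698962e3)) e
 (c (a (nat_lit 0x1c7129e9c3a2a3)) e
 (c (b (nat_lit 0x1b0c6c5fffffe2)) e
 (c (a (nat_lit 0x1312eccbaa2a23)) e
 (c (a (nat_lit 0x112502a02120a2)) e
 (c (a (nat_lit 0xb05c06222a1e1)) e e))))))))))))))))
 C840)))) Tr.c Tr.e (nat_lit 0) C.cx C.cy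
noncomputable def C842 : Tr := beta% (fun (c : Nat → Tr → Tr → Tr) (e : Tr) (z : Nat) (a b : Nat → Nat) =>
 (c z
 (c (a (nat_lit 0x6868691ececf0e3)) e
 (c (a (nat_lit 0x2829069896e3444))
 (c z e
 (c z e
 (c z e
 (c z e
 (c z e
 (c z e
 (c (a (nat_lit 0x20a3a42140219126)) e
 (c (a (nat_lit 0x86866368c3342205)) e
 (c (a (nat_lit 0xed0b472eebc25cea5)) e e)))))))))
 (c z e
 (c (b (nat_lit 0x822a32797509fe4))
 (c z e
 (c z e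
 (c (a (nat_lit 0x3e7eb0dada6873aa5)) e e)))
 (c z e
 (c (a (nat_lit 0x6ee75f2c100e704))
 (c (a (nat_lit 0x5878664e95208e445)) e
 (c z e
 (c z e
 (c (a (nat_lit 0x9687329c8e9064006)) e e))))
 (c (a (nat_lit 0xaf52fc02026c704)) e
 (c (a (nat_lit 0x13cfe68667274624)) e
 (c (a (nat_lit 0x144aebec0c0ae824)) e
 (c z e
 (c (a (nat_lit 0x645cb30ee6e0c44)) e
 (c z e
 (c (a (nat_lit 0x18def9fab9d6a6e3)) e
 (c z e
 (c z e
 (c (a (nat_lit 0xd0c6c50eeb0dda2)) e e))))))))))))))))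
 (c z
 (c (a (nat_lit 0x3c9a8280af3e0e4))
 (c z e
 (c z e
 (c z e
 (c z e
 (c z e
 (c z e
 (c (a (nat_lit 0x86b6c6c2485d5cf25)) e
 (c z e
 (c (a (nat_lit 0x178f5f6d2783e12944)) e e)))))))))
 (c z e
 (c z e
 (c (a (nat_lit 0xcf5de9421210ce4))
 (c (a (nat_lit 0xe7376f1f592fb2e25)) e
 (c (a (nat_lit 0x7690927c9904803c7)) e
 (c z e
 (c z e
 (c (a (nat_lit 0x13932c8c8dcf6c8006)) e e)))))
 (c (a (nat_lit 0x10b6926060503184))
 (c (a (nat_lit 0x6a8054b58cbc7c366)) e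
 (c z e
 (c z e
 (c (a (nat_lit 0x7d4066503a2a00007)) e
 (c (a (nat_lit 0x1cc868466000000006)) e e)))))
 (c z e
 (c z e
 (c (a (nat_lit 0xef0d0d0716d4b04)) e
 (c (a (nat_lit 0x145315d73635f784)) e
 (c (b (nat_lit 0x299ffff090aa64)) e
 (c z e
 (c (a (nat_lit 0x18fb9adc77910024)) e
 (c (a (nat_lit 0x143253f0b4d53824)) e
 (c z e
 (c (a (nat_lit 0xac40ced53352c43)) e e)))))))))))))))
 (c z
 (c z e
 (c z e
 (c (a (nat_lit 0x99971688865e665)) e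
 (c z e
 (c z e
 (c z e
 (c z e
 (c z e
 (c (a (nat_lit 0xab059d99cd92864)) e
 (c z e
 (c z e
 (c z e
 (c (a (nat_lit 0xd4a0847c7a7d2a4)) e e)))))))))))))
 (c z
 (c (a (nat_lit 0x519f2474742c304))
 (c z e
 (c (a (nat_lit 0x10c885a6075147fe45)) e e))
 (c (a (nat_lit 0x166e24240060e025))
 (c (a (nat_lit 0xee669671a221ec405)) e e)
 (c z e
 (c (a (nat_lit 0xa2cc48523a87923)) e
 (c (a (nat_lit 0x78403836c9190c4)) e
 (c (a (nat_lit 0x3e32b8e92b2c564)) e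
 (c z e
 (c (a (nat_lit 0x889ed52ade7e2a5)) e
 (c z e
 (c (a (nat_lit 0x10b6912c88870025)) e
 (c (a (nat_lit 0x10e7a7618104e324)) e
 (c (a (nat_lit 0x1150e4636b07e043)) e
 (c (a (nat_lit 0x17eb69f267a00003)) e e)))))))))))))
 (c z
 (c (a (nat_lit 0x10a7a7a4c564aba4)) e
 (c (a (nat_lit 0xd4f696c8cf784c3))
 (c (a (nat_lit 0xa3baacee537088a25)) e e)
 (c z e
 (c z e
 (c (a (nat_lit 0x1336bcb7dd3996a4)) e
 (c (b (nat_lit 0x72d5ff352f103e4)) e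
 (c (a (nat_lit 0xbe78df14c048685)) e
 (c z e
 (c (a (nat_lit 0x94d4d8765c6b025)) e
 (c (a (nat_lit 0x1c5a61a448e8ccc3)) e
 (c (a (nat_lit 0x1e05676c0b87c003)) e e)))))))))))
 (c z
 (c z e
 (c z e
 (c z e
 (c (a (nat_lit 0x1c19d66a64467523)) e
 (c (a (nat_lit 0x19752fab8975f883)) e
 (c z e
 (c z e
 (c (a (nat_lit 0x84cd3b675940f45)) e
 (c (a (nat_lit 0xf33f3b054f34f83)) e e)))))))))
 (c z
 (c z e
 (c (a (nat_lit 0x1230f2e4c08a6863)) e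
 (c (a (nat_lit 0x161649206a6c52c3)) e
 (c z e
 (c (a (nat_lit 0x40385e310720e24)) e e)))))
 (c z
 (c (a (nat_lit 0xf53c30083a657c2)) e
 (c (a (nat_lit 0xfe0e1c3eabcd103)) e
 (c (a (nat_lit 0xa021e0a1c37344)) e
 (c (a (nat_lit 0x9080eb454183d84)) e
 (c (a (nat_lit 0xb73ff1718357304)) e e)))))
 (c (a (nat_lit 0x202020203124))
 (c (a (nat_lit 0x412187106e0103)) e
 (c (a (nat_lit 0x41246f3455d924)) e
 (c z e
 (c z e
 (c (a (nat_lit 0x8a928ab2833a006)) e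
 (c (a (nat_lit 0x7e05a6180000003)) e e))))))
 (c (a (nat_lit 0x202020310364))
 (c (a (nat_lit 0x7e68c8f19706f44)) e e)
 (c (a (nat_lit 0x1226e0e3))
 (c (a (nat_lit 0x624c774664aed24)) e e)
 (c (a (nat_lit 0xf2f3c518efa03)) e
 (c (a (nat_lit 0x86812065f464)) e
 (c (a (nat_lit 0x681206654d0e4)) e
 (c (a (nat_lit 0xc026145060a4)) e
 (c (a (nat_lit 0x2c8b713436364)) e
 (c (a (nat_lit 0x553cfe0202024)) e
 (c (a (nat_lit 0x13d00020202004)) e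
 (c (a (nat_lit 0x11c201e201e004)) e
 (c (a (nat_lit 0x1f3edf5ece4d61)) e
 (c (a (nat_lit 0x14951484030001)) e
 (c (a (nat_lit 0x16544564a0e021)) e e))))))))))))))))))))))) Tr.c Tr.e (nat_lit 0) C.cx C.cy
noncomputable def C843 : Tr := beta% (fun (c : Nat → Tr → Tr → Tr) (e : Tr) (z : Nat) (a b : Nat → Nat) =>
 (c z
 (c (a (nat_lit 0x141414150cbac24))
 (c z e
 (c z e
 (c z e
 (c (b (nat_lit 0x6cb1fedb026838225)) e e))))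
 (c (a (nat_lit 0x666667b1535bda4))
 (c z e
 (c z e
 (c z e
 (c z e
 (c z e
 (c (a (nat_lit 0xd87cece510dcb3026)) e e))))))
 (c (a (nat_lit 0x1a1ae8727ec3065)) e
 (c (a (nat_lit 0x29e3650850e985))
 (c (a (nat_lit 0x6990b062488aaaf65)) e
 (c z e
 (c z e
 (c (a (nat_lit 0x22e536ef18d840705)) e
 (c (a (nat_lit 0x10f913f7cdd5d556c5)) e
 (c z e
 (c z e
 (c (a (nat_lit 0x1b946a30cf6e000005)) e e))))))))
 (c z e
 (c z e
 (c z e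
 (c (a (nat_lit 0xf7dd080e06ced44)) e
 (c z e
 (c z e
 (c (a (nat_lit 0x889884df30e16e4)) e
 (c z e
 (c (b (nat_lit 0x8e32dfececa1e4)) e
 (c (a (nat_lit 0x1a9a312e0e4e2da3)) e
 (c (a (nat_lit 0x17a9244602c162e2)) e e)))))))))))))))
 (c z
 (c (a (nat_lit 0x9e9edee0e504024))
 (c z e
 (c z e
 (c z e
 (c z e
 (c (a (nat_lit 0x8c86a28cc0fd02626)) e
 (c z e
 (c z e
 (c z e
 (c (a (nat_lit 0x992e8d76683ce6025)) e e)))))))))
 (c (a (nat_lit 0x10f9b7d8deb680c4)) e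
 (c z e
 (c z e
 (c z e
 (c z e
 (c z e
 (c z e
 (c z e
 (c z e
 (c (a (nat_lit 0x25abf2d45400a5)) e
 (c (a (nat_lit 0x6a963958ace864)) e e))))))))))))
 (c z
 (c (a (nat_lit 0xaa8e9cc95842024))
 (c z e
 (c z e
 (c z e
 (c z e
 (c (a (nat_lit 0xbeb498a13a6570b65)) e
 (c (a (nat_lit 0x4a504c744b5474ba6)) e e))))))
 (c z e
 (c z e
 (c (a (nat_lit 0x9314200604cada4))
 (c z e
 (c (a (nat_lit 0x80c4c16476ee40706)) e
 (c z e
 (c z e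
 (c (a (nat_lit 0x1af2bf0a0000000005)) e e)))))
 (c (a (nat_lit 0x1b0bb77797f7b904))
 (c (a (nat_lit 0xa0754aaede6a7c7e6)) e
 (c z e
 (c z e
 (c (a (nat_lit 0xbd266600000000006)) e e))))
 (c z e
 (c z e
 (c (a (nat_lit 0x12707616cccfad64)) e
 (c z e
 (c z e
 (c (a (nat_lit 0x128a337490cb4804)) e
 (c (a (nat_lit 0xc2e2df10eaecec4)) e e))))))))))))
 (c z
 (c (a (nat_lit 0x366f64da88863e4))
 (c z e
 (c z e
 (c (a (nat_lit 0x6c5c86562d465c146)) e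
 (c z e
 (c z e
 (c z e
 (c (a (nat_lit 0x1cdfcb844560000004)) e e)))))))
 (c (a (nat_lit 0x5538765050141c5))
 (c (a (nat_lit 0x1754680c0689048a65)) e
 (c z e
 (c z e
 (c (a (nat_lit 0x486eb80c248f045a6)) e e))))
 (c z e
 (c z e
 (c (a (nat_lit 0x96d06068c4cd4a3)) e
 (c z e
 (c (a (nat_lit 0x1266acb110b36e4)) e
 (c (a (nat_lit 0x729496c0f30c4a5)) e
 (c z e
 (c (a (nat_lit 0xb2e9173c6e52865)) e
 (c z e
 (c (a (nat_lit 0x107d65862ccc8d44)) e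
 (c (a (nat_lit 0x1ca4c56c2be66004)) e e)))))))))))))
 (c z
 (c z e
 (c z e
 (c z e
 (c z e
 (c z e
 (c z e
 (c (a (nat_lit 0xf4a77f7d0d22cc4)) e
 (c z e
 (c z e
 (c z e
 (c (a (nat_lit 0x150b686cf2656504)) e e)))))))))))
 (c z
 (c z e
 (c z e
 (c z e
 (c (a (nat_lit 0x193396ed2271f4e3)) e
 (c (a (nat_lit 0x1896942a104eec63)) e
 (c z e
 (c z e
 (c (a (nat_lit 0x74892d374341225)) e
 (c (a (nat_lit 0x15d4f09414763f23)) e e)))))))))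
 (c z
 (c z e
 (c z e
 (c (a (nat_lit 0x159349c291105de3)) e
 (c (a (nat_lit 0x106ded1238fd59c3)) e
 (c z e
 (c z e
 (c (a (nat_lit 0x52b927191f0eb25)) e e)))))))
 (c z
 (c (a (nat_lit 0x11cf26e53cf07302)) e
 (c (a (nat_lit 0x142eae5994f9bb24)) e
 (c z e
 (c (a (nat_lit 0x8f194169618dfa4)) e
 (c (a (nat_lit 0xa0ff2155435efa4)) e e)))))
 (c z
 (c (a (nat_lit 0x626106d75f4e7c3)) e
 (c (a (nat_lit 0x18ac4cb102bf744)) e
 (c z e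
 (c z e
 (c (a (nat_lit 0x1d7cba1b3e9d1d24)) e
 (c (a (nat_lit 0x196201e6e9400002)) e e))))))
 (c (a (nat_lit 0x606060607421))
 (c (a (nat_lit 0xa85e80e1077ad44)) e
 (c z e
 (c z e
 (c (a (nat_lit 0xf10951091b06005)) e e))))
 (c (a (nat_lit 0x101010116d601))
 (c (a (nat_lit 0xa87eaed11ea7c64)) e e)
 (c (a (nat_lit 0x80808283a021))
 (c z e
 (c (a (nat_lit 0x18cfaab8a0000003)) e
 (c (a (nat_lit 0x1a16e00000000002)) e e)))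
 (c (a (nat_lit 0x1a1a0a1213a02))
 (c (a (nat_lit 0x132aab4000000004)) e
 (c (a (nat_lit 0xc0000000000001)) e e))
 (c (a (nat_lit 0x88a444721923)) e
 (c (a (nat_lit 0x480204df50963)) e
 (c (a (nat_lit 0x608e5569c163)) e
 (c (a (nat_lit 0x1af75eaa201c3)) e
 (c (a (nat_lit 0xd142180202003)) e
 (c (a (nat_lit 0x14216020402003)) e
 (c (a (nat_lit 0x721c1c1408001)) e
 (c z e
 (c (b (nat_lit 0x10100e0d7fffe1)) e
 (c (b (nat_lit 0x12102f7fe02001)) e e)))))))))))))))))))))))) Tr.c Tr.e (nat_lit 0) C.cx C.cy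
noncomputable def C844 : Tr := beta% (fun (c : Nat → Tr → Tr → Tr) (e : Tr) (z : Nat) (a b : Nat → Nat) =>
 (c z
 (c (a (nat_lit 0x2020202035cb83))
 (c z e
 (c z e
 (c z e
 (c z e
 (c z e
 (c z e
 (c z e
 (c z e
 (c (a (nat_lit 0x98bead44f16ef9165)) e e)))))))))
 (c (a (nat_lit 0x18181819c15f604)) e
 (c (a (nat_lit 0x202036cc4d3324))
 (c z e
 (c z e
 (c z e
 (c z e
 (c z e
 (c z e
 (c (a (nat_lit 0x68bcca930ed51de46)) e e)))))))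
 (c (a (nat_lit 0x10108a7c8a97585)) e
 (c z e
 (c z e
 (c z e
 (c z e
 (c z e
 (c z e
 (c z e
 (c (b (nat_lit 0xe0ffe8ee903b24)) e
 (c z e
 (c (a (nat_lit 0x6d0f1211917623)) e e))))))))))))))
 (c z
 (c (a (nat_lit 0x20202eb1310c23))
 (c z e
 (c z e
 (c z e
 (c z e
 (c z e
 (c z e
 (c z e
 (c z e
 (c (a (nat_lit 0x202a66bf4c68eb905)) e e)))))))))
 (c (a (nat_lit 0x323391a7b7a6903))
 (c z e
 (c z e
 (c z e
 (c (a (nat_lit 0x100ed5d4933b17a1e5)) e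
 (c z e
 (c z e
 (c z e
 (c z e
 (c (a (nat_lit 0x1760a7a5153072a005)) e e)))))))))
 (c z e
 (c (b (nat_lit 0x3c566e978d01fe4))
 (c z e
 (c z e
 (c z e
 (c z e
 (c (a (nat_lit 0xb8e302c5372b831e5)) e e)))))
 (c z e
 (c (a (nat_lit 0xe15d8f6832327a4)) e
 (c z e
 (c z e
 (c z e
 (c (a (nat_lit 0x1a3274826e71164)) e
 (c z e
 (c z e
 (c z e
 (c z e
 (c (a (nat_lit 0xfda87cdcecf7802)) e
 (c (a (nat_lit 0x116064a5c60ea4c2)) e e))))))))))))))))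
 (c z
 (c (a (nat_lit 0x4f0ccf16cc2262))
 (c z e
 (c z e
 (c z e
 (c z e
 (c (a (nat_lit 0xd2eec49e634855fc4)) e
 (c (a (nat_lit 0x5c4e5c305473868a5)) e e))))))
 (c z e
 (c z e
 (c (a (nat_lit 0xc547a77e0402324))
 (c z e
 (c (a (nat_lit 0x423c5c450c609e386)) e e))
 (c (a (nat_lit 0xc5a9280604466a4)) e
 (c z e
 (c z e
 (c (a (nat_lit 0x64687b37253b3a3)) e
 (c (a (nat_lit 0x3e5d41413b36904)) e
 (c z e
 (c (a (nat_lit 0x14933559375332c5)) e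
 (c z e
 (c z e
 (c (a (nat_lit 0x1fc243290d2cf1e1)) e e))))))))))))))
 (c z
 (c z e
 (c z e
 (c z e
 (c z e
 (c z e
 (c (a (nat_lit 0x1072716ec70764c4)) e
 (c (a (nat_lit 0x1371922a4d4ae724)) e e)))))))
 (c z
 (c (a (nat_lit 0x7f0cba6c6c56585))
 (c z e
 (c z e
 (c z e
 (c (a (nat_lit 0x9909e01012fb3c505)) e e))))
 (c z e
 (c z e
 (c z e
 (c (a (nat_lit 0x469e91a36d39523)) e
 (c z e
 (c (a (nat_lit 0x7d010f12684c724)) e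
 (c z e
 (c z e
 (c (a (nat_lit 0x1a5937583052b704)) e e))))))))))
 (c z
 (c z e
 (c (a (nat_lit 0x1176ec30c242c1)) e
 (c (a (nat_lit 0xb30640b42222d62)) e
 (c z e
 (c (b (nat_lit 0xbd89fffe5e47521)) e
 (c (a (nat_lit 0x17b4f6c76f140723)) e
 (c z e
 (c z e
 (c z e
 (c (a (nat_lit 0x15dfb66feff28ca2)) e
 (c (a (nat_lit 0x166bc9e8a7800002)) e e)))))))))))
 (c z
 (c z e
 (c z e
 (c z e
 (c (a (nat_lit 0x136df9a9925777e2)) e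
 (c (a (nat_lit 0x223c26526851264)) e
 (c z e
 (c z e
 (c z e
 (c (a (nat_lit 0x18daf00dceaa4002)) e e)))))))))
 (c z
 (c z e
 (c (a (nat_lit 0x1331325213353985)) e
 (c (a (nat_lit 0x65618409c7d683)) e
 (c z e
 (c z e
 (c z e
 (c (a (nat_lit 0x1150686342c98382)) e e)))))))
 (c z
 (c (a (nat_lit 0x2646586081a7a43)) e
 (c (a (nat_lit 0x3e363e6afb6d284)) e e))
 (c z
 (c (a (nat_lit 0x6e748e950d26ee4)) e
 (c (a (nat_lit 0xfb0f07a1d5c9ec4)) e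
 (c z e
 (c (a (nat_lit 0x86c6cebad25f0e5)) e e))))
 (c (a (nat_lit 0x2020202033a1))
 (c (a (nat_lit 0xb0aadaf51d005c4)) e e)
 (c (a (nat_lit 0xa0a0a0a041e1))
 (c z e
 (c z e
 (c (a (nat_lit 0x189d182000000004)) e e)))
 (c (a (nat_lit 0x868686405c241))
 (c (a (nat_lit 0x1676f77840000004)) e
 (c (a (nat_lit 0x61200000000001)) e e))
 (c (a (nat_lit 0x2020585e53003)) e
 (c (a (nat_lit 0x1630342e87524)) e
 (c (a (nat_lit 0x2428227b47244)) e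
 (c z e
 (c (a (nat_lit 0x186f351402004)) e
 (c (a (nat_lit 0x6937160202024)) e
 (c (a (nat_lit 0x13514020202024)) e
 (c (a (nat_lit 0x11602020202004)) e
 (c z e
 (c (a (nat_lit 0x11f2324fcd6d21)) e
 (c (a (nat_lit 0x52522c0400001)) e e))))))))))))))))))))))))) Tr.c Tr.e (nat_lit 0) C.cx C.cy
noncomputable def C845 : Tr := beta% (fun (c : Nat → Tr → Tr → Tr) (e : Tr) (z : Nat) (a b : Nat → Nat) =>
 (c (nat_lit 1)
 (c z
 (c z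
 (c z e
 (c (a (nat_lit 0x60443764a2b8a2a04)) e e))
 (c z
 (c z e
 (c (a (nat_lit 0x91ad09068e8caece5)) e
 (c (a (nat_lit 0x12a4e5838382e221a5)) e e)))
 (c z
 (c (a (nat_lit 0xe57d4eaaaa9cf10a4)) e
 (c z e
 (c z e
 (c z e
 (c z e
 (c z e
 (c z e
 (c z e
 (c z e
 (c (a (nat_lit 0xccbaf6d488f0f7c44)) e e))))))))))
 (c (a (nat_lit 0x20202020203462))
 (c z e
 (c z e
 (c z e
 (c z e
 (c z e
 (c z e
 (c z e
 (c z e
 (c (a (nat_lit 0x386870366a7c6b105)) e e)))))))))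
 (c (a (nat_lit 0x40404040560c22)) e
 (c (a (nat_lit 0x202020308bcd23))
 (c z e
 (c z e
 (c z e
 (c z e
 (c z e
 (c z e
 (c (a (nat_lit 0x30205e5e44a813165)) e e)))))))
 (c (b (nat_lit 0x2020379fe20fc3)) e
 (c (a (nat_lit 0x1e1eba302ea3404))
 (c z e
 (c z e
 (c (a (nat_lit 0xbeae6c6a581e9d5c4)) e
 (c (a (nat_lit 0x96967878525d1a705)) e e))))
 (c (a (nat_lit 0x23812168530ea4))
 (c z e
 (c z e
 (c (a (nat_lit 0xd6d6d2c6927de93e4)) e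
 (c (a (nat_lit 0x8258a64b9438884c5)) e e))))
 (c z e
 (c z e
 (c (a (nat_lit 0x44bd69467e7e524)) e
 (c (a (nat_lit 0xe39370a8a824224)) e
 (c (a (nat_lit 0x1efcf0706fe70764)) e
 (c (a (nat_lit 0x16aa2a43a2e36304)) e e)))))))))))))))
 (c z
 (c z
 (c (a (nat_lit 0x99029c9e9492907a5)) e
 (c z e
 (c z e
 (c z e
 (c z e
 (c z e
 (c z e
 (c z e
 (c z e
 (c z e
 (c (a (nat_lit 0xf0ec8278a5376bd84)) e e)))))))))))
 (c (a (nat_lit 0x404040404056c3))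
 (c z e
 (c z e
 (c z e
 (c z e
 (c z e
 (c z e
 (c z e
 (c z e
 (c z e
 (c z e
 (c (a (nat_lit 0xaef72b2b198982ce5)) e
 (c (a (nat_lit 0xaec0c8b2c49677027)) e e))))))))))))
 (c (a (nat_lit 0x202020202990c3))
 (c z e
 (c z e
 (c z e
 (c z e
 (c z e
 (c z e
 (c z e
 (c z e
 (c z e
 (c (a (nat_lit 0x7e7e768abd028a7a6)) e e))))))))))
 (c (a (nat_lit 0x202020310fcfc3)) e
 (c (a (nat_lit 0x1010114cd6f5563))
 (c z e
 (c z e
 (c z e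
 (c (a (nat_lit 0xbafcd5496b3634985)) e e))))
 (c (a (nat_lit 0xc0c42181e6d485)) e
 (c (a (nat_lit 0xa402a20d5cdce4))
 (c z e
 (c z e
 (c (a (nat_lit 0x423a7a3a20471e246)) e e)))
 (c z e
 (c z e
 (c (a (nat_lit 0x572e0c04c4a5a5)) e
 (c z e
 (c z e
 (c z e
 (c (b (nat_lit 0x6a6c87fe7c61d43)) e
 (c z e
 (c (a (nat_lit 0x1b8f945294502a03)) e
 (c (a (nat_lit 0x153e9b1e964a07c2)) e
 (c z e
 (c (a (nat_lit 0xff18d25e5688423)) e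
 (c (a (nat_lit 0x10ac6625a4600003)) e e))))))))))))))))))))
 C844))
 (c (nat_lit 1)
 (c z
 (c (a (nat_lit 0x2c2c2c2c2c2cee1)) e
 (c (a (nat_lit 0x404040405f1642)) e
 (c (a (nat_lit 0x8686868719374e3))
 (c z e
 (c z e
 (c z e
 (c z e
 (c z e
 (c z e
 (c z e
 (c z e
 (c z e
 (c z e
 (c (a (nat_lit 0xd0ef16d6aeccb4005)) e e)))))))))))
 (c (a (nat_lit 0x3030311ad2f3aa3))
 (c z e
 (c z e
 (c z e
 (c z e
 (c z e
 (c z e
 (c (a (nat_lit 0xa0acca544c649d3c5)) e e)))))))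
 (c (a (nat_lit 0x32331060af41f63))
 (c z e
 (c z e
 (c z e
 (c z e
 (c (a (nat_lit 0x44f9ad79d37b5dc44)) e
 (c z e
 (c z e
 (c z e
 (c z e
 (c (a (nat_lit 0x13098aa00000000005)) e e))))))))))
 (c (a (nat_lit 0x18484c6f65d0843)) e
 (c (a (nat_lit 0xc8aec7c370cc063)) e
 (c (a (nat_lit 0x9ec5bd848204003)) e
 (c (a (nat_lit 0xc50940880e02283))
 (c z e
 (c (a (nat_lit 0xa28f929a6a663e005)) e e))
 (c (a (nat_lit 0x12580261c1a46503)) e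
 (c (a (nat_lit 0x1f8ccd0d47e98903)) e
 (c (a (nat_lit 0x10b09121cc8c2ba3)) e
 (c (a (nat_lit 0xc1a0e16544f023)) e
 (c (a (nat_lit 0x16070d0f0b033e3)) e
 (c (a (nat_lit 0x1c58140c0c87a22)) e
 (c (a (nat_lit 0x500806047f9ce42)) e
 (c (a (nat_lit 0x6060a85a4eae22)) e
 (c (a (nat_lit 0x5658d5e32923a82)) e
 (c (a (nat_lit 0x148faef4f0bc002)) e
 (c (a (nat_lit 0x72676360000002)) e
 (c (a (nat_lit 0x1324200000000002)) e e)))))))))))))))))))))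
 C843)
 (c (a (nat_lit 0x2020202021)) C842
 C841)))) Tr.c Tr.e (nat_lit 0) C.cx C.cy
noncomputable def C846 : Tr := beta% (fun (c : Nat → Tr → Tr → Tr) (e : Tr) (z : Nat) (a b : Nat → Nat) =>
 (c z
 (c (a (nat_lit 0x323232339dbfb42))
 (c z e
 (c z e
 (c z e
 (c (a (nat_lit 0x729682d2b69b63005)) e e))))
 (c (a (nat_lit 0x4444459da7b10e3))
 (c z e
 (c z e
 (c z e
 (c (a (nat_lit 0xb2a29318fea733b25)) e
 (c z e
 (c z e
 (c (a (nat_lit 0xb68662c55ac5018a5)) e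
 (c z e
 (c (a (nat_lit 0x949ae056751aa8c86)) e e)))))))))
 (c (a (nat_lit 0x2e2ec7436caa763)) e
 (c (a (nat_lit 0x3cf7939f5790303))
 (c (a (nat_lit 0x13d351bad617d6f045)) e
 (c z e
 (c z e
 (c (a (nat_lit 0x14cbcf0cc60a53f025)) e
 (c (a (nat_lit 0x486c66043606cbe5)) e
 (c (a (nat_lit 0x7878c84b090ab4726)) e e))))))
 (c (a (nat_lit 0xe31159661e94003))
 (c (a (nat_lit 0xe2e0b50b0a6b8cf44)) e
 (c z e
 (c (a (nat_lit 0x244056149c9916386)) e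
 (c z e
 (c (a (nat_lit 0xa8d4e0f936fe68006)) e e)))))
 (c (a (nat_lit 0xf6d7a0c8802a263))
 (c (a (nat_lit 0x3c3e481c3ee853165)) e e)
 (c (a (nat_lit 0x136f6a0eca691423)) e
 (c (a (nat_lit 0xa49486404110f03))
 (c (a (nat_lit 0x9f1c8c3c182000005)) e
 (c (a (nat_lit 0x104926a22000000006)) e e))
 (c (a (nat_lit 0xa8d0ace8dcb9164)) e
 (c (a (nat_lit 0x1211f62b288dca64)) e
 (c (a (nat_lit 0x1e3e885ebe95084)) e
 (c (a (nat_lit 0x8ab3379fcf4ae04)) e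
 (c (a (nat_lit 0x134e13752a4a8b83)) e
 (c (a (nat_lit 0xa3415e2e3454702)) e
 (c (a (nat_lit 0x1233e141a3e586c2)) e
 (c (a (nat_lit 0x1441620445e748a2)) e e))))))))))))))))
 (c z
 (c (a (nat_lit 0x809853f60d8082))
 (c z e
 (c z e
 (c z e
 (c z e
 (c z e
 (c z e
 (c z e
 (c z e
 (c (a (nat_lit 0xa0f61e68b6eb18005)) e e)))))))))
 (c z e
 (c z e
 (c (a (nat_lit 0xfb2570f6e006023))
 (c (a (nat_lit 0x4c2e4272046b2c925)) e
 (c (a (nat_lit 0xa29ef0a8d9bbfdda5)) e e))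
 (c (a (nat_lit 0xab92f4520402303))
 (c (a (nat_lit 0x42c4e1709c32ac05)) e e)
 (c (a (nat_lit 0x19f38682c0c68fa2)) e
 (c z e
 (c (a (nat_lit 0x8569849ccb231a3)) e
 (c (a (nat_lit 0xd56af32d6b73d03)) e
 (c z e
 (c (a (nat_lit 0x7129656dd527344)) e
 (c z e
 (c (a (nat_lit 0x8e956e286918d02)) e
 (c (a (nat_lit 0xe71ecadd08f6de4)) e
 (c (a (nat_lit 0x162025d0ec6641e2)) e e)))))))))))))))
 (c z
 (c (a (nat_lit 0xf0cee69b80c0583)) e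
 (c z e
 (c z e
 (c (a (nat_lit 0x938e74040625103))
 (c z e
 (c (a (nat_lit 0xc46909f4c2eb4326)) e e))
 (c (a (nat_lit 0x13a7a6276294e9a3)) e
 (c (a (nat_lit 0xa498c4a914a4a64)) e
 (c (a (nat_lit 0x4e6c49307888663)) e
 (c (a (nat_lit 0xa6a32d4148987e4)) e
 (c z e
 (c (a (nat_lit 0x14b6b752533413a4)) e e))))))))))
 (c z
 (c (a (nat_lit 0x15b77d944acaafe4))
 (c (a (nat_lit 0xc8e8fadadaf730e86)) e
 (c (a (nat_lit 0xa6ceb68ef77ce0026)) e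
 (c z e
 (c z e
 (c (a (nat_lit 0xdd8f0f341fbb32004)) e e)))))
 (c (a (nat_lit 0x109c03c0a0899523))
 (c (a (nat_lit 0x5a60409940b446186)) e
 (c z e
 (c z e
 (c (a (nat_lit 0x5d142a20503400006)) e
 (c (a (nat_lit 0x1a0dc926e000000006)) e e)))))
 (c z e
 (c z e
 (c (a (nat_lit 0x151b54fbae915042)) e
 (c (a (nat_lit 0x12f0f57677309003)) e
 (c z e
 (c (b (nat_lit 0x1030f1dfe56566c4)) e
 (c (a (nat_lit 0x5482584eaabb265)) e e)))))))))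
 (c z
 (c (a (nat_lit 0x1064e3c700a406a2))
 (c z e
 (c z e
 (c (a (nat_lit 0x3fb0f44a100626005)) e
 (c (a (nat_lit 0x1f2524a1a1c0000005)) e e))))
 (c (a (nat_lit 0xbe74e25e60d87e1)) e
 (c z e
 (c (a (nat_lit 0xc24274342cf5782)) e
 (c (a (nat_lit 0x4cf10721274ba22)) e
 (c (a (nat_lit 0x13f515e7c8ec2cc3)) e
 (c (b (nat_lit 0x1fffffe869c9f624)) e
 (c (a (nat_lit 0xc2d54d679f81745)) e
 (c (a (nat_lit 0xdcf52b34e6baba3)) e
 (c (a (nat_lit 0x16fd3e554fcfb262)) e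
 (c (a (nat_lit 0x10b1eae383830002)) e e)))))))))))
 (c z
 (c z e
 (c (a (nat_lit 0xc0b23254247b142)) e
 (c z e
 (c (a (nat_lit 0x7092accab78d782)) e
 (c (a (nat_lit 0x4a4c66689a9b0a4)) e
 (c (a (nat_lit 0x62543918f293a4)) e
 (c z e
 (c z e
 (c (a (nat_lit 0x149447670605a0a2)) e
 (c (a (nat_lit 0x138684a464400002)) e e))))))))))
 (c z
 (c z e
 (c (a (nat_lit 0x11ed0e947799bdc3)) e
 (c (a (nat_lit 0xe1a9282a51ecc2)) e
 (c (a (nat_lit 0x5a77597f9d3d424)) e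
 (c z e
 (c (a (nat_lit 0x1635f8145d1e9e04)) e
 (c (a (nat_lit 0xc54ea07a84165a2)) e
 (c (a (nat_lit 0x122705a64423e002)) e e))))))))
 (c z
 (c z e
 (c (a (nat_lit 0x1e54507a7c3b0e4)) e
 (c z e
 (c (a (nat_lit 0x1b1d1b779738bdc4)) e
 (c (a (nat_lit 0xdcdecac2eb0cbc5)) e e)))))
 (c z
 (c (a (nat_lit 0x26203c4a43213a4)) e
 (c (a (nat_lit 0xb6ccbebb3f57185)) e
 (c (a (nat_lit 0x968a88f500ba6c5)) e
 (c (a (nat_lit 0xd2d949550cb2b45)) e e))))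
 (c z
 (c (a (nat_lit 0xfadce3072142784)) e
 (c z e
 (c z e
 (c (a (nat_lit 0x1805670885800003)) e
 (c (a (nat_lit 0xad0ac2000000001)) e
 (c (a (nat_lit 0x520000000000001)) e e))))))
 (c (a (nat_lit 0x2020202222021))
 (c z e
 (c (a (nat_lit 0x196546297f3fc004)) e
 (c (a (nat_lit 0x12b375f4a0000004)) e
 (c (a (nat_lit 0x36b200000000001)) e e))))
 (c (a (nat_lit 0x8e8e8e8e2e021))
 (c (a (nat_lit 0x12d393f474e00004)) e
 (c (a (nat_lit 0xc0604000000001)) e e))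
 (c (a (nat_lit 0x20404ae9c4e1)) e
 (c (a (nat_lit 0x6a6b14fcb7de1)) e
 (c (a (nat_lit 0x68e2b08d22b02)) e
 (c (a (nat_lit 0xfa98517ca67c1)) e
 (c (a (nat_lit 0xba75a0c89e7a1)) e
 (c (a (nat_lit 0x99c69e8c5c581)) e
 (c (a (nat_lit 0x146625428240a1)) e
 (c (a (nat_lit 0x4034060e02001)) e
 (c (a (nat_lit 0x562a2e1012001)) e
 (c (a (nat_lit 0x197937d7f47621)) e
 (c (a (nat_lit 0x7660622a24001)) e
 (c (a (nat_lit 0x4242060000001)) e e))))))))))))))))))))))))) Tr.c Tr.e (nat_lit 0) C.cx C.cy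
noncomputable def C847 : Tr := beta% (fun (c : Nat → Tr → Tr → Tr) (e : Tr) (z : Nat) (a : Nat → Nat) =>
 (c z
 (c z
 (c (a (nat_lit 0xc0c8e3638557d263)) e
 (c z e
 (c z e
 (c z e
 (c (a (nat_lit 0x7ac722d8202220464)) e
 (c z e
 (c z e
 (c z e
 (c z e
 (c z e
 (c z e
 (c z e
 (c (a (nat_lit 0xd0d8c88eaca08b0c5)) e
 (c z e
 (c (a (nat_lit 0x82afb3b5998f6d6a4)) e e)))))))))))))))
 (c z
 (c z e
 (c z e
 (c z e
 (c z e
 (c z e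
 (c z e
 (c z e
 (c z e
 (c z e
 (c z e
 (c (a (nat_lit 0x16da940c074b4bdc84)) e
 (c (a (nat_lit 0xd696ded2faf513685)) e e))))))))))))
 (c z
 (c z e
 (c z e
 (c z e
 (c z e
 (c z e
 (c z e
 (c z e
 (c (a (nat_lit 0xa966a62eb275bbc4)) e
 (c (a (nat_lit 0xae6e7108f8fbd7484)) e
 (c (a (nat_lit 0x8e6f0f12ff8de7944)) e
 (c (a (nat_lit 0x26d548e52907013a5)) e e)))))))))))
 (c z
 (c z e
 (c (a (nat_lit 0x13f1b33030d5347e25)) e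
 (c z e
 (c z e
 (c z e
 (c z e
 (c z e
 (c z e
 (c (a (nat_lit 0x1de62f30c776b6cc04)) e
 (c (a (nat_lit 0x9b5d72c2ed11089c5)) e e))))))))))
 (c (a (nat_lit 0x60606060607e02))
 (c (a (nat_lit 0xa8ae6e98b0b6a7445)) e
 (c z e
 (c z e
 (c z e
 (c z e
 (c z e
 (c z e
 (c z e
 (c (a (nat_lit 0xed30e6e72724b4225)) e e)))))))))
 (c (a (nat_lit 0x2020202031aaa3))
 (c z e
 (c z e
 (c z e
 (c z e
 (c z e
 (c (a (nat_lit 0xf16b611cd5794fe84)) e e))))))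
 (c (a (nat_lit 0x2020203325e704)) e
 (c (a (nat_lit 0x141415002a308c4)) e
 (c (a (nat_lit 0x606341a2c7ff04))
 (c z e
 (c z e
 (c (a (nat_lit 0x5e56a0729074c3a65)) e
 (c z e
 (c (a (nat_lit 0xd68f3872ead6b4005)) e e)))))
 (c z e
 (c (a (nat_lit 0x4e301e81e744544))
 (c (a (nat_lit 0x4a50545edd3a5e725)) e e)
 (c z e
 (c (a (nat_lit 0x6ad57758dede3c5)) e
 (c z e
 (c z e
 (c (a (nat_lit 0x18c9a9c20221a0c4)) e
 (c (a (nat_lit 0x1f1f48ab46c6e6c2)) e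
 (c (a (nat_lit 0x1d064884244482a2)) e e))))))))))))))))))
 (c z
 (c z
 (c (a (nat_lit 0x808ebb34a882821a3)) e
 (c (a (nat_lit 0xb2ffb52aacacc0dc4)) e
 (c z e
 (c z e
 (c z e
 (c z e
 (c z e
 (c z e
 (c z e
 (c z e
 (c (a (nat_lit 0xbeb4c8c0bc5cc1d84)) e e)))))))))))
 (c z
 (c (a (nat_lit 0x161c569cfd181776a5)) e
 (c z e
 (c z e
 (c z e
 (c z e
 (c z e
 (c z e
 (c z e
 (c z e
 (c (a (nat_lit 0xb4a882785f0b23f64)) e
 (c (a (nat_lit 0x907cd0fee4e706f85)) e e)))))))))))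
 (c (a (nat_lit 0x202020202034e2))
 (c z e
 (c z e
 (c z e
 (c z e
 (c z e
 (c (a (nat_lit 0x6ea450664278910a5)) e
 (c (a (nat_lit 0x1282aa278c699a2fa4)) e
 (c (a (nat_lit 0x428c506e61450b7c4)) e
 (c (a (nat_lit 0x4e4a5256d0b8c70e6)) e e)))))))))
 (c (a (nat_lit 0x2020202030ed23)) e
 (c (a (nat_lit 0x40404052288ce3))
 (c (a (nat_lit 0x92e8fed6d1d17dec4)) e
 (c z e
 (c z e
 (c z e
 (c z e
 (c z e
 (c z e
 (c (a (nat_lit 0xaadaae8a82ce83266)) e e))))))))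
 (c (a (nat_lit 0x42424304a8bae84))
 (c z e
 (c z e
 (c z e
 (c (a (nat_lit 0x7c7880c6827f1a1e5)) e
 (c (a (nat_lit 0x422e5266790e0d025)) e e)))))
 (c (a (nat_lit 0xe0f102e46a1b24)) e
 (c (a (nat_lit 0x144e2c3ea5d2f84)) e
 (c (a (nat_lit 0x2a1a1e896edcb84))
 (c (a (nat_lit 0x542ca8a478f8add44)) e e)
 (c z e
 (c (a (nat_lit 0x279970adede344)) e
 (c (a (nat_lit 0x8312aeb6ce22425)) e
 (c z e
 (c (a (nat_lit 0x101091a648c987e5)) e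
 (c (a (nat_lit 0x16d6a8ae0f69c263)) e
 (c z e
 (c (a (nat_lit 0x14195ad54de78763)) e
 (c (a (nat_lit 0x17b933abc5454263)) e
 (c (a (nat_lit 0x159008a242402163)) e e)))))))))))))))))))
 (c z
 (c (a (nat_lit 0x20202020203a82))
 (c z e
 (c (a (nat_lit 0xb5454d270308d6a45)) e
 (c z e
 (c z e
 (c z e
 (c z e
 (c z e
 (c z e
 (c z e
 (c z e
 (c z e
 (c z e
 (c (a (nat_lit 0x52544c4c48851e006)) e e)))))))))))))
 (c (a (nat_lit 0x3c3e3e3e3fe7063))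
 (c z e
 (c z e
 (c z e
 (c (a (nat_lit 0x4c60884698878c326)) e
 (c z e
 (c z e
 (c z e
 (c (a (nat_lit 0x70627a646076a92a5)) e
 (c (a (nat_lit 0x64706090aeb70eb26)) e
 (c z e
 (c z e
 (c (a (nat_lit 0xc09e8cc717e000006)) e e))))))))))))
 (c (a (nat_lit 0x20202032468684))
 (c z e
 (c z e
 (c z e
 (c z e
 (c z e
 (c z e
 (c (a (nat_lit 0x1e622e5a387a69046)) e e)))))))
 (c (a (nat_lit 0x60809488aa8a83))
 (c (a (nat_lit 0xe32cdf60ed316dfa4)) e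
 (c z e
 (c z e
 (c z e
 (c z e
 (c z e
 (c z e
 (c (a (nat_lit 0x158a6c480552915065)) e e))))))))
 (c (a (nat_lit 0x808643a38515c5))
 (c (a (nat_lit 0x328e93c84e8c8c606)) e
 (c (a (nat_lit 0x9ca1f47cc4e0887e6)) e
 (c (a (nat_lit 0x77c43e7a684448046)) e
 (c (a (nat_lit 0x1ba4880a23a563e1c6)) e
 (c (a (nat_lit 0x225478708851647c6)) e
 (c (a (nat_lit 0xc2a09cb44789406a6)) e e))))))
 (c (a (nat_lit 0x1a6028305904d25))
 (c z e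
 (c z e
 (c z e
 (c (a (nat_lit 0x1c424040812e160e6)) e
 (c (a (nat_lit 0x8e783c6b025e62666)) e e)))))
 (c (a (nat_lit 0x3e181a4900a0445))
 (c z e
 (c (a (nat_lit 0x46c07240da4f1cb05)) e e))
 (c (a (nat_lit 0x3c3d4fe770c0b44))
 (c z e
 (c z e
 (c z e
 (c (a (nat_lit 0x108127060000000005)) e e))))
 (c (a (nat_lit 0x31d65367e80464))
 (c (a (nat_lit 0x88beee3e430a08005)) e
 (c (a (nat_lit 0xf9a0aa86d40000006)) e e))
 (c (a (nat_lit 0x155af56fcfe6e484)) e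
 (c (a (nat_lit 0x10ad8b2c8321a0c5)) e
 (c z e
 (c (a (nat_lit 0x10548ac68c6dd9e3)) e
 (c (a (nat_lit 0x188d8805a6e669e3)) e
 (c (a (nat_lit 0x1367a3a5842bc882)) e e)))))))))))))))
 C846)))) Tr.c Tr.e (nat_lit 0) C.cx
noncomputable def C848 : Tr := beta% (fun (c : Nat → Tr → Tr → Tr) (e : Tr) (z : Nat) (a b : Nat → Nat) =>
 (c z
 (c (a (nat_lit 0x1818191cf7087a3))
 (c z e
 (c z e
 (c z e
 (c z e
 (c z e
 (c z e
 (c z e
 (c z e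
 (c (a (nat_lit 0xa8a8e06e6f6db95a5)) e e)))))))))
 (c (a (nat_lit 0x5050c6eb0a76f64))
 (c z e
 (c z e
 (c z e
 (c z e
 (c z e
 (c z e
 (c (a (nat_lit 0xa0a0e4a69eeb65186)) e
 (c z e
 (c z e
 (c (a (nat_lit 0xa9076a00000000004)) e e))))))))))
 (c (a (nat_lit 0x3f2f9bbd0fea3c3))
 (c z e
 (c z e
 (c z e
 (c z e
 (c (a (nat_lit 0x20102c6081f089286)) e e)))))
 (c (a (nat_lit 0x18dbbc74d48ee043))
 (c z e
 (c z e
 (c (a (nat_lit 0x284a54243e118efe6)) e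
 (c z e
 (c (a (nat_lit 0x68285e4291224e006)) e e)))))
 (c (a (nat_lit 0xdac3134472385c3))
 (c z e
 (c z e
 (c (a (nat_lit 0x3500961c2ad92e925)) e e)))
 (c z e
 (c z e
 (c (a (nat_lit 0x16504f5be9769543))
 (c (a (nat_lit 0x140bc6600000000005)) e e)
 (c (a (nat_lit 0x1433db882f0e24a4)) e
 (c (a (nat_lit 0x74de9f15067a904)) e
 (c (a (nat_lit 0x9261736d6a8c824)) e
 (c (a (nat_lit 0x53a5a39ee8a07a2)) e
 (c z e
 (c (a (nat_lit 0x1553ea2664236342)) e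
 (c (a (nat_lit 0x1409656363a38382)) e e)))))))))))))))
 (c z
 (c (a (nat_lit 0x2512cf2e05fa1e2))
 (c z e
 (c z e
 (c z e
 (c (a (nat_lit 0x30768a0864d089525)) e
 (c (a (nat_lit 0x5a620a4046cff0ee5)) e
 (c (a (nat_lit 0x262e50a2c58266485)) e
 (c z e
 (c (a (nat_lit 0xa088a1e54ac200005)) e
 (c (a (nat_lit 0x922f740c000000005)) e e)))))))))
 (c z e
 (c z e
 (c (a (nat_lit 0xaccf027a46a8764)) e
 (c (a (nat_lit 0x117287218ac718e3)) e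
 (c z e
 (c (a (nat_lit 0x54950874f2e6824)) e
 (c (a (nat_lit 0x7468785701ae03)) e
 (c z e
 (c (a (nat_lit 0x91a7b598c092984)) e
 (c (a (nat_lit 0x19ba7631ec4c6bc3)) e
 (c (a (nat_lit 0x19d5712b4bcb2b83)) e
 (c (a (nat_lit 0x1ab2e7284626e722)) e e)))))))))))))
 (c z
 (c z e
 (c (a (nat_lit 0x183b5e306088d2a3))
 (c (a (nat_lit 0x3c60523e6928505a6)) e
 (c z e
 (c z e
 (c (a (nat_lit 0x44675a4c907660007)) e e))))
 (c z e
 (c z e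
 (c (a (nat_lit 0x332abd24e2eaac3)) e
 (c z e
 (c z e
 (c (b (nat_lit 0xf3a9b1fef6ccc64)) e
 (c (a (nat_lit 0xa2ac9aa48e8d1c5)) e
 (c (a (nat_lit 0x1287cc4282a6e242)) e e))))))))))
 (c z
 (c (a (nat_lit 0xee741c180271303))
 (c z e
 (c (a (nat_lit 0x40647b0e7caa28626)) e
 (c z e
 (c (a (nat_lit 0x4f227e94404400006)) e
 (c (a (nat_lit 0x15ed95842000000005)) e e)))))
 (c (a (nat_lit 0x13c8a810ce395663))
 (c (a (nat_lit 0x6a8f80bafa7014265)) e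
 (c z e
 (c (a (nat_lit 0x1e451062a140000005)) e
 (c (a (nat_lit 0xcbce8000000000005)) e e))))
 (c z e
 (c (a (nat_lit 0x687ae94506fcf83)) e
 (c (a (nat_lit 0x6a7bc7f0a252de2)) e
 (c z e
 (c z e
 (c (a (nat_lit 0x948edf0b0904f65)) e e))))))))
 (c z
 (c (a (nat_lit 0x3a24b8321c47101)) e
 (c (a (nat_lit 0x29045a563abab22))
 (c (a (nat_lit 0x16d3ec64a5a0000005)) e e)
 (c z e
 (c (a (nat_lit 0xbcff14fef73b883)) e
 (c (a (nat_lit 0x163c625ca6f3f23)) e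
 (c z e
 (c (a (nat_lit 0x52f981a3511b2a4)) e
 (c z e
 (c (a (nat_lit 0x15dfae4ccd0e73e2)) e
 (c (a (nat_lit 0x1804e343a5862002)) e e))))))))))
 (c z
 (c (a (nat_lit 0x7a5a5662768d422)) e
 (c (a (nat_lit 0x5204585070fd043)) e
 (c z e
 (c (a (nat_lit 0xa68509998f67424)) e
 (c z e
 (c z e
 (c z e
 (c (a (nat_lit 0x1baccf8ceda1e0c1)) e e))))))))
 (c z
 (c z e
 (c (a (nat_lit 0x50ed059991391e3)) e
 (c z e
 (c z e
 (c (a (nat_lit 0x1d9af9581838f104)) e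
 (c (a (nat_lit 0x1f738f6f55b08a81)) e e))))))
 (c z
 (c (a (nat_lit 0x6c6a989c9693264)) e
 (c z e
 (c z e
 (c (a (nat_lit 0x14d4d43d5f098ae4)) e
 (c z e
 (c (a (nat_lit 0x270854160e00003)) e
 (c (a (nat_lit 0x1fc960a000000002)) e
 (c (a (nat_lit 0x11c0000000000001)) e e))))))))
 (c z
 (c (a (nat_lit 0xf2f0dad0fb1c5a4)) e
 (c (a (nat_lit 0x1593d2f4550aec45)) e
 (c z e
 (c (a (nat_lit 0x110142a3e683c003)) e
 (c (a (nat_lit 0xa5ebcb00000001)) e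
 (c (a (nat_lit 0x20c00000000001)) e e))))))
 (c z
 (c z e
 (c (a (nat_lit 0xc6202e3844f12a5)) e
 (c (a (nat_lit 0x12d33495b4a00004)) e
 (c (a (nat_lit 0x28682000000001)) e e))))
 (c z
 (c (a (nat_lit 0x1afc1c5cbe9cc004)) e
 (c (a (nat_lit 0xb0dcece40000001)) e e))
 (c (a (nat_lit 0xa0a0a0ac6541)) e
 (c (a (nat_lit 0x2c2c2ce876341)) e
 (c (a (nat_lit 0x6c6d28b67a741)) e
 (c (a (nat_lit 0x590ea26660621)) e
 (c (a (nat_lit 0xfa8e5250504e1)) e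
 (c (a (nat_lit 0x6c302e100e0c1)) e e)))))))))))))))))) Tr.c Tr.e (nat_lit 0) C.cx C.cy
noncomputable def C849 : Tr := beta% (fun (c : Nat → Tr → Tr → Tr) (e : Tr) (z : Nat) (a b : Nat → Nat) =>
 (c z
 (c z
 (c z e
 (c z e
 (c z e
 (c (a (nat_lit 0xd900e9494f2535345)) e
 (c z e
 (c z e
 (c z e
 (c z e
 (c z e
 (c z e
 (c z e
 (c (a (nat_lit 0xa8f74e764230b9164)) e
 (c z e
 (c (a (nat_lit 0xcc8745658565170e4)) e e))))))))))))))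
 (c z
 (c (a (nat_lit 0x1079b3d6ec46f3b0a4)) e
 (c z e
 (c z e
 (c z e
 (c z e
 (c z e
 (c z e
 (c z e
 (c z e
 (c (a (nat_lit 0xecdb74d04e6a4f2a4)) e
 (c (a (nat_lit 0xb91b06c0e3011ee05)) e e)))))))))))
 (c z e
 (c (a (nat_lit 0x20202020203083))
 (c z e
 (c z e
 (c z e
 (c z e
 (c z e
 (c z e
 (c (a (nat_lit 0xcbaf26b082fa4a564)) e
 (c (a (nat_lit 0x110c0868ed0c6d4625)) e
 (c z e
 (c z e
 (c (a (nat_lit 0x7a508892d8d958006)) e e)))))))))))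
 (c (a (nat_lit 0x404040405d4662))
 (c z e
 (c z e
 (c z e
 (c z e
 (c z e
 (c (a (nat_lit 0xd9c2e798490872a84)) e
 (c (a (nat_lit 0xfe710ab50cae907e5)) e
 (c (a (nat_lit 0x113acc8ef190d1b3a5)) e
 (c z e
 (c (a (nat_lit 0x4a6494b1352e00006)) e e))))))))))
 (c (a (nat_lit 0x40404055e8ea63))
 (c z e
 (c z e
 (c z e
 (c z e
 (c (a (nat_lit 0x199ab1094c49652c44)) e e)))))
 (c (a (nat_lit 0x1c1c1d243e40a64))
 (c z e
 (c z e
 (c z e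
 (c (a (nat_lit 0x102c49a6442869d4a5)) e
 (c (a (nat_lit 0x11d4922eccd06f4705)) e
 (c z e
 (c z e
 (c (a (nat_lit 0x569cc34c000000006)) e e))))))))
 (c (b (nat_lit 0xc0c39fe2e95124))
 (c z e
 (c (a (nat_lit 0x3a5a1e5c748e4f885)) e
 (c z e
 (c (a (nat_lit 0x62748c707f024e6c6)) e
 (c z e
 (c z e
 (c (a (nat_lit 0x1354db000000000006)) e e)))))))
 (c (a (nat_lit 0x14682825278fb83))
 (c (a (nat_lit 0x14162a3c1e0659285)) e
 (c z e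
 (c z e
 (c (a (nat_lit 0xef06dafd8cc600006)) e e))))
 (c z e
 (c (a (nat_lit 0x1e1aa7152cb2b64))
 (c (a (nat_lit 0x109c086d00cd000004)) e e)
 (c (a (nat_lit 0x6775cbef6f6e564)) e
 (c z e
 (c (a (nat_lit 0x1dbc5a9ca9c90824)) e
 (c (a (nat_lit 0x1572b22d2ca9a743)) e
 (c (a (nat_lit 0x1775cc8ae4c0c422)) e
 (c (a (nat_lit 0x172dec6742658302)) e
 (c (a (nat_lit 0xfcb88e30243f122)) e
 (c (a (nat_lit 0x116980e1647f29e1)) e
 (c (a (nat_lit 0xd2b0b2bf22ce7c3)) e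
 (c (a (nat_lit 0x10d0f2beea200002)) e e)))))))))))))))))))))
 (c z
 (c z
 (c z e
 (c z e
 (c z e
 (c z e
 (c z e
 (c z e
 (c z e
 (c z e
 (c z e
 (c (a (nat_lit 0x82b0bc76806c67364)) e
 (c (a (nat_lit 0x566448848c925b045)) e
 (c (a (nat_lit 0x19379cbebd3b1cb325)) e e))))))))))))
 (c (a (nat_lit 0x3030303030310e3))
 (c z e
 (c z e
 (c z e
 (c z e
 (c z e
 (c z e
 (c z e
 (c (a (nat_lit 0x7c909a4624a693145)) e
 (c z e
 (c z e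
 (c z e
 (c (a (nat_lit 0x5e78747c70a534007)) e e))))))))))))
 (c (a (nat_lit 0x2020202038a3c3))
 (c z e
 (c z e
 (c z e
 (c z e
 (c z e
 (c (a (nat_lit 0x567a8e4a9cdeb30c5)) e
 (c (a (nat_lit 0xa6d63e8b46dd75f04)) e
 (c (a (nat_lit 0xb686d92aed709b025)) e e))))))))
 (c (a (nat_lit 0x20202032a84823))
 (c z e
 (c z e
 (c z e
 (c z e
 (c z e
 (c z e
 (c z e
 (c (a (nat_lit 0xfcf072564688e3825)) e e))))))))
 (c (a (nat_lit 0x404041469684c44))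
 (c z e
 (c (a (nat_lit 0x2e8ca75f03fef3aa4)) e
 (c z e
 (c z e
 (c z e
 (c z e
 (c (a (nat_lit 0xf8c2fc40a0f793385)) e e)))))))
 (c (a (nat_lit 0x20360341a70f84))
 (c z e
 (c z e
 (c z e
 (c z e
 (c (a (nat_lit 0xa4908e6c7f8c8ee46)) e e)))))
 (c (b (nat_lit 0x61fe186d0ee24))
 (c (a (nat_lit 0x18166c32205c0f265)) e
 (c (a (nat_lit 0x1e9e804c960b4afc5)) e
 (c z e
 (c (a (nat_lit 0x78848457b682269c6)) e e))))
 (c (a (nat_lit 0x8a583aa90320ba4)) e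
 (c z e
 (c z e
 (c (a (nat_lit 0x13dd3cf8b6c404e4)) e
 (c z e
 (c (a (nat_lit 0x118f8e44e5a54425)) e
 (c (a (nat_lit 0x11e7e2a2e1a0c143)) e
 (c (a (nat_lit 0x118707048163a382)) e e)))))))))))))))
 (c z
 (c (a (nat_lit 0xdedededede24781))
 (c z e
 (c z e
 (c z e
 (c z e
 (c z e
 (c z e
 (c z e
 (c (a (nat_lit 0xe2b2a25866839a9e4)) e
 (c (a (nat_lit 0x7a78546aa0a536985)) e
 (c (a (nat_lit 0xa07e8c78667c63105)) e e))))))))))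
 (c (a (nat_lit 0x4848484995812a3))
 (c z e
 (c z e
 (c z e
 (c z e
 (c z e
 (c z e
 (c (a (nat_lit 0xc4885e1a61f178bc4)) e e)))))))
 (c (a (nat_lit 0x989899594b12063)) e
 (c (a (nat_lit 0x1a1ae0f29a0be63))
 (c z e
 (c (a (nat_lit 0xd4aefb774b9d22845)) e
 (c z e
 (c (a (nat_lit 0x8ae6bd08501438a65)) e
 (c (a (nat_lit 0x6c4e92b0642d3cf66)) e e)))))
 (c (a (nat_lit 0x4f08e0722f109e3))
 (c z e
 (c z e
 (c z e
 (c (a (nat_lit 0x72a90aa88a7ca2a26)) e e))))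
 (c z e
 (c z e
 (c (a (nat_lit 0x82a958a6bc971a3)) e
 (c z e
 (c z e
 (c (a (nat_lit 0x15771bdb0887e024)) e
 (c (a (nat_lit 0x151e9d39567839a3)) e
 (c (a (nat_lit 0x138d04640766a602)) e
 (c (a (nat_lit 0x1261206745e4c041)) e e))))))))))))))
 C848)))) Tr.c Tr.e (nat_lit 0) C.cx C.cy
noncomputable def C850 : Tr := beta% (fun (c : Nat → Tr → Tr → Tr) (e : Tr) (z : Nat) (a b : Nat → Nat) =>
 (c z
 (c z
 (c (a (nat_lit 0xaeb308fb1b476967e22)) e e)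
 (c (a (nat_lit 0x686868686940f12e2)) e
 (c (a (nat_lit 0x4c4c4c4cbae4f9a82))
 (c z e
 (c z e
 (c z e
 (c z e
 (c z e
 (c z e
 (c z e
 (c z e
 (c z e
 (c z e
 (c z e
 (c (a (nat_lit 0xd8f2d6f35f1f33a6de6)) e e))))))))))))
 (c (a (nat_lit 0x323232d8805eb7fe3))
 (c z e
 (c z e
 (c z e
 (c z e
 (c z e
 (c z e
 (c z e
 (c z e
 (c (a (nat_lit 0x16324c4e582a8d2e7e6)) e e)))))))))
 (c z e
 (c z e
 (c z e
 (c z e
 (c z e
 (c z e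
 (c z e
 (c z e
 (c z e
 (c (a (nat_lit 0x11cef6f2af466805e4)) e
 (c z e
 (c (a (nat_lit 0x1632f3f5f3726d1a04)) e e))))))))))))))))
 (c z
 (c (a (nat_lit 0x20202020ea94bbbe3)) e
 (c (a (nat_lit 0xe0e0e42484c83a25))
 (c z e
 (c z e
 (c z e
 (c z e
 (c z e
 (c z e
 (c z e
 (c z e
 (c z e
 (c z e
 (c (a (nat_lit 0x9d0d0d42d05bef98fc6)) e e)))))))))))
 (c (a (nat_lit 0x3838a6a6acd33c865))
 (c z e
 (c z e
 (c z e
 (c z e
 (c z e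
 (c z e
 (c z e
 (c (a (nat_lit 0x98aca7368896ac57486)) e
 (c (a (nat_lit 0x5854e27840a7efe6a26)) e
 (c (a (nat_lit 0xd118fe82539fe4acc66)) e e))))))))))
 (c z e
 (c z e
 (c z e
 (c z e
 (c z e
 (c z e
 (c z e
 (c z e
 (c z e
 (c (a (nat_lit 0xfd4f5554c48e8ca45)) e
 (c (a (nat_lit 0x13d5bb3c1a75aed125)) e
 (c (b (nat_lit 0x74c14defff652f8e5)) e
 (c (a (nat_lit 0x10c82ac9e080804284)) e e))))))))))))))))
 (c z
 (c (a (nat_lit 0x1010445a668b7d5c4)) e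
 (c (a (nat_lit 0x1094707279492ae05)) e
 (c z e
 (c z e
 (c (a (nat_lit 0x9b19f77ed732afe44)) e
 (c (a (nat_lit 0x212a473d2c9cf8784)) e
 (c z e
 (c z e
 (c z e
 (c z e
 (c (a (nat_lit 0x13b555522aa5222784)) e
 (c (a (nat_lit 0x12f2d22dcfea2b4f05)) e e))))))))))))
 (c z
 (c (a (nat_lit 0x9e7065010ef4dcb24)) e
 (c z e
 (c z e
 (c (a (nat_lit 0x115047cfb4e575d2a4)) e
 (c z e
 (c z e
 (c (a (nat_lit 0x1e7f08232bd084c1e3)) e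
 (c z e
 (c z e
 (c z e
 (c (a (nat_lit 0xd4d4e14f5af2f9205)) e
 (c z e
 (c (a (nat_lit 0xf57d79334b1709705)) e e)))))))))))))
 (c z
 (c (a (nat_lit 0x17307713d5b6df7b04)) e
 (c z e
 (c z e
 (c (a (nat_lit 0x751137634387b5425)) e
 (c z e
 (c z e
 (c z e
 (c z e
 (c (a (nat_lit 0x12368bf42f492a3a04)) e
 (c z e
 (c z e
 (c (a (nat_lit 0x1d3a1a163ab97954e5)) e e))))))))))))
 (c z
 (c z e
 (c z e
 (c z e
 (c z e
 (c z e
 (c z e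
 (c z e
 (c (a (nat_lit 0xc4bce0dce0c74b505)) e e))))))))
 (c z
 (c z e
 (c (a (nat_lit 0x96870179610510e45)) e
 (c z e
 (c z e
 (c z e
 (c z e
 (c (a (nat_lit 0xab02c0beb313393e5)) e
 (c (a (nat_lit 0x1bb7d6b61aff5fb225)) e e))))))))
 (c (a (nat_lit 0x60606060607244))
 (c z e
 (c z e
 (c z e
 (c z e
 (c z e
 (c (a (nat_lit 0x9aa47e7d616eca805)) e
 (c z e
 (c z e
 (c (a (nat_lit 0xa696768ca325aa006)) e e)))))))))
 (c (a (nat_lit 0x20202020334284))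
 (c z e
 (c z e
 (c z e
 (c z e
 (c (a (nat_lit 0x3e48594f8d083e365)) e
 (c z e
 (c z e
 (c (a (nat_lit 0xd4bce6bee7e400006)) e e))))))))
 (c (a (nat_lit 0xc0c0c0db8a38e1))
 (c z e
 (c z e
 (c z e
 (c z e
 (c (a (nat_lit 0x165b9bfc3acbc10b24)) e e)))))
 (c (a (nat_lit 0x101010684c6f563))
 (c z e
 (c z e
 (c z e
 (c (a (nat_lit 0xe2baf90a98972e2c5)) e e))))
 (c (a (nat_lit 0x3c3db4908b91003)) e
 (c (a (nat_lit 0x1588566d58ceae3))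
 (c (a (nat_lit 0x1a5e7435ca49f2c7a4)) e e)
 (c (a (nat_lit 0x22322706c2b2a64)) e
 (c z e
 (c (a (nat_lit 0xa39b5d4d3f48564)) e
 (c (a (nat_lit 0x182864e141858822)) e
 (c (a (nat_lit 0xe4ac6c74b4e1022)) e
 (c (a (nat_lit 0x14f171d537fafce2)) e
 (c (a (nat_lit 0x6668a2beef263a2)) e
 (c z e
 (c (a (nat_lit 0x185a3d5e6ecf2e02)) e
 (c (a (nat_lit 0x155839a90bcb44e2)) e
 (c (a (nat_lit 0x187a0a6d66800002)) e
 (c (a (nat_lit 0x1a4aa6c000000002)) e e)))))))))))))))))))))))))) Tr.c Tr.e (nat_lit 0) C.cx C.cy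
noncomputable def C851 : Tr := beta% (fun (c : Nat → Tr → Tr → Tr) (e : Tr) (z : Nat) (a : Nat → Nat) =>
 (c z
 (c z
 (c (a (nat_lit 0x8292b5996179a7c7622)) e
 (c z e
 (c z e
 (c z e
 (c z e
 (c z e
 (c z e
 (c z e
 (c z e
 (c z e
 (c z e
 (c z e
 (c z e
 (c z e
 (c (a (nat_lit 0x5c5e669ca0848575506)) e
 (c (a (nat_lit 0x68708e96929cb18e006)) e e))))))))))))))))
 (c (a (nat_lit 0x7c7c7c7c7c7d695e1))
 (c z e
 (c z e
 (c z e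
 (c z e
 (c z e
 (c z e
 (c z e
 (c z e
 (c z e
 (c z e
 (c z e
 (c z e
 (c z e
 (c (a (nat_lit 0x767e7c989489833e6c7)) e e))))))))))))))
 (c (a (nat_lit 0x5050505050daeb262))
 (c z e
 (c z e
 (c z e
 (c z e
 (c z e
 (c z e
 (c z e
 (c z e
 (c z e
 (c z e
 (c z e
 (c (a (nat_lit 0x7476829ad8f686c1346)) e e))))))))))))
 (c (a (nat_lit 0x4a4a4a4b86f0c9fe2))
 (c z e
 (c z e
 (c z e
 (c z e
 (c z e
 (c z e
 (c z e
 (c z e
 (c z e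
 (c z e
 (c z e
 (c (a (nat_lit 0x848e8692ffb67a00007)) e e))))))))))))
 (c z e
 (c z e
 (c z e
 (c (a (nat_lit 0xecd8f522f06c081e4)) e
 (c z e
 (c z e
 (c z e
 (c z e
 (c z e
 (c (a (nat_lit 0xd2eaf53f2ed4444c4)) e
 (c (a (nat_lit 0x16981d9cf8118cc964)) e
 (c (a (nat_lit 0x1318981b8a87c55384)) e e))))))))))))))))
 (c z
 (c z e
 (c (a (nat_lit 0x32323232368865783)) e
 (c (a (nat_lit 0x1e1e1eeef0c1b7783)) e
 (c (a (nat_lit 0x2222f120bd3bf8723)) e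
 (c z e
 (c z e
 (c z e
 (c z e
 (c z e
 (c z e
 (c z e
 (c z e
 (c (a (nat_lit 0x119055952dabc5e504)) e
 (c (a (nat_lit 0x173e5df793b1a9b9c4)) e e))))))))))))))
 (c z
 (c (a (nat_lit 0x707070fae0dd65c02)) e
 (c (a (nat_lit 0x2a2b0cdeb0f89dd03)) e
 (c z e
 (c z e
 (c z e
 (c z e
 (c z e
 (c z e
 (c z e
 (c z e
 (c z e
 (c (a (nat_lit 0xbf2522846c802aec4)) e
 (c (a (nat_lit 0x78969ceb28f0f0ce5)) e
 (c (a (nat_lit 0xc0b557cd756b1f064)) e e))))))))))))))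
 (c z
 (c z e
 (c z e
 (c z e
 (c z e
 (c z e
 (c z e
 (c z e
 (c z e
 (c z e
 (c z e
 (c (a (nat_lit 0xbcfecf456b5b09484)) e
 (c (a (nat_lit 0xb0a4f70f02dcfec85)) e
 (c (a (nat_lit 0x115b1e5c99ddd67b24)) e e)))))))))))))
 (c z e
 (c z
 (c z e
 (c z e
 (c z e
 (c z e
 (c z e
 (c z e
 (c z e
 (c z e
 (c (a (nat_lit 0x64ef592d00c2e1c04)) e e)))))))))
 (c z e
 (c z
 (c z e
 (c z e
 (c z e
 (c z e
 (c z e
 (c z e
 (c z e
 (c (a (nat_lit 0x1392d412146eb59a65)) e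
 (c (a (nat_lit 0xf70ea2a8c11b3efe5)) e e)))))))))
 (c (a (nat_lit 0x1616161616176a2)) e
 (c (a (nat_lit 0x808080808c84e1)) e
 (c z e
 (c (a (nat_lit 0x24242586764cd42))
 (c z e
 (c (a (nat_lit 0x62ec9c948c9d036e4)) e e))
 (c (a (nat_lit 0x40566463a700a2))
 (c (a (nat_lit 0xb662745a9e8136064)) e
 (c z e
 (c z e
 (c (a (nat_lit 0x40310a00000000005)) e e))))
 (c (a (nat_lit 0x8af8d093e57dc02))
 (c z e
 (c (a (nat_lit 0x73f82814000000004)) e e))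
 (c (a (nat_lit 0xe0cac38f5d7f883)) e
 (c (a (nat_lit 0xb4b57b4f737b683)) e
 (c z e
 (c z e
 (c z e
 (c z e
 (c (a (nat_lit 0x146d4a26a6e6c841)) e e)))))))))))))))))))))) Tr.c Tr.e (nat_lit 0) C.cx
noncomputable def C852 : Tr := beta% (fun (c : Nat → Tr → Tr → Tr) (e : Tr) (z : Nat) (a b : Nat → Nat) =>
 (c (a (nat_lit 0x4040404041))
 (c z
 (c z
 (c z
 (c z e
 (c (a (nat_lit 0x72726a545ee0defd0c2)) e
 (c (a (nat_lit 0x7874766cebc78da2c22)) e e)))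
 (c z
 (c (a (nat_lit 0xc88a82a3ad83a5c3742)) e e)
 (c z
 (c z e
 (c z e
 (c z e
 (c z e
 (c z e
 (c z e
 (c z e
 (c z e
 (c z e
 (c z e
 (c z e
 (c z e
 (c z e
 (c (a (nat_lit 0x6a949aa2c8a29dd8f85)) e e)))))))))))))) e)))
 C851)
 (c z C850
 (c z
 (c z
 (c (a (nat_lit 0x181818e0645fc5f62)) e
 (c (a (nat_lit 0x101048422ec93f124)) e
 (c z e
 (c z e
 (c z e
 (c z e
 (c z e
 (c z e
 (c z e
 (c z e
 (c z e
 (c z e
 (c (a (nat_lit 0x1a3affdff3b5126983)) e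
 (c (a (nat_lit 0x16b9db9cf4730c9c64)) e e))))))))))))))
 (c z
 (c (a (nat_lit 0x2e3a6858bf0536e44)) e e)
 (c z
 (c z e
 (c z e
 (c z e
 (c z e
 (c z e
 (c z e
 (c z e
 (c z e
 (c z e
 (c (a (nat_lit 0xa4ac8ea8aa6e6f764)) e e))))))))))
 (c z
 (c z e
 (c z e
 (c z e
 (c z e
 (c z e
 (c z e
 (c z e
 (c z e
 (c (a (nat_lit 0xd8f0c0e8d88f3b444)) e e)))))))))
 (c z
 (c z e
 (c z e
 (c z e
 (c z e
 (c z e
 (c z e
 (c z e
 (c (a (nat_lit 0xcec0c8ceb30124ca5)) e e))))))))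
 (c (a (nat_lit 0x40404040405ee2))
 (c z e
 (c z e
 (c z e
 (c z e
 (c z e
 (c (a (nat_lit 0xd2b6f4dc8e69ad404)) e e))))))
 (c (a (nat_lit 0x202020203da643))
 (c z e
 (c z e
 (c z e
 (c z e
 (c (a (nat_lit 0xdafcc4722d26f8384)) e e)))))
 (c (a (nat_lit 0x20202030a2a2e4)) e
 (c (a (nat_lit 0x404041e1635d23)) e
 (c (a (nat_lit 0xe0e122224f7244)) e
 (c (a (nat_lit 0x238220eef586a4)) e
 (c z e
 (c z e
 (c z e
 (c z e
 (c z e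
 (c (a (nat_lit 0x1786cd886b4beb83)) e
 (c (a (nat_lit 0x7ba7f353d405e1)) e
 (c z e
 (c z e
 (c z e
 (c (a (nat_lit 0x1171cae50483c002)) e
 (c (a (nat_lit 0x1b4d6401a0000001)) e e)))))))))))))))))))))))
 C849)))
 (c (a (nat_lit 0x2020202021))
 (c z
 (c z
 (c z e
 (c z e
 (c (a (nat_lit 0x1a1c1c32563c03183)) e e)))
 (c z
 (c (a (nat_lit 0x808084228280d0a4)) e
 (c (a (nat_lit 0x10102a322c0518ec5)) e
 (c z e
 (c z e
 (c z e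
 (c z e
 (c z e
 (c z e
 (c z e
 (c z e
 (c z e
 (c z e
 (c (a (nat_lit 0x1673f70b46a523afe4)) e
 (c (a (nat_lit 0x74b2b118f6f2e0b05)) e
 (c (a (nat_lit 0xb8936de7ebd5977e4)) e e)))))))))))))))
 (c z
 (c z e
 (c z e
 (c (a (nat_lit 0x1e39df3e7757574e83)) e
 (c z e
 (c z e
 (c z e
 (c z e
 (c z e
 (c z e
 (c z e
 (c z e
 (c z e
 (c z e
 (c (a (nat_lit 0x86f6e72b2506f2fe5)) e e))))))))))))))
 (c z
 (c z e
 (c (a (nat_lit 0xed06c8eed8d912fc5)) e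
 (c z e
 (c z e
 (c z e
 (c z e
 (c z e
 (c z e
 (c z e
 (c (a (nat_lit 0x13d389ea888b083ae3)) e
 (c (a (nat_lit 0xe6974f531ce71d464)) e e)))))))))))
 (c z
 (c z e
 (c z e
 (c z e
 (c (a (nat_lit 0x13b493d2f5d4161705)) e
 (c z e
 (c z e
 (c z e
 (c z e
 (c (a (nat_lit 0xd522e13f20b94b4e4)) e e)))))))))
 (c z
 (c z e
 (c z e
 (c z e
 (c z e
 (c (a (nat_lit 0x824242b2c5e8a365)) e
 (c z e
 (c (a (nat_lit 0x1027103c70102c4a5)) e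
 (c (a (nat_lit 0x311e4e863c7aaca45)) e
 (c (a (nat_lit 0x1e31342faef3160f05)) e
 (c (b (nat_lit 0x96cc95fee31493185)) e e))))))))))
 (c (a (nat_lit 0x20404040403741)) e
 (c (a (nat_lit 0x44444444455ac03)) e
 (c (a (nat_lit 0x4040405a63e002)) e
 (c (a (nat_lit 0x1a1a1a3284313c1)) e
 (c (a (nat_lit 0x3e3e7cd05964141))
 (c z e
 (c z e
 (c (a (nat_lit 0x18b8b3d7c8c250cce4)) e e)))
 (c (a (nat_lit 0x272aea1d7304441))
 (c z e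
 (c (a (nat_lit 0x1315743107c7c3c144)) e e))
 (c (a (nat_lit 0x608238cc88bf1c2)) e
 (c (a (nat_lit 0xdec5795b77a3a43)) e
 (c (a (nat_lit 0xbd8b6387d7d7663)) e
 (c (a (nat_lit 0xf4e2f71d3e8a924)) e
 (c z e
 (c (a (nat_lit 0x9efb022e78564a2)) e
 (c (a (nat_lit 0x13d407aa27e84802)) e
 (c (a (nat_lit 0x1a21860263226d81)) e e))))))))))))))))))))
 C847)
 C845))) Tr.c Tr.e (nat_lit 0) C.cx C.cy
noncomputable def C853 : Tr := beta% (fun (c : Nat → Tr → Tr → Tr) (e : Tr) (z : Nat) (a : Nat → Nat) =>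
 (c z
 (c z e
 (c z
 (c z e
 (c z e
 (c z e
 (c z e
 (c z e
 (c z e
 (c z e
 (c (a (nat_lit 0x92b0e2644644a51e5)) e
 (c (a (nat_lit 0xd0e6ba925ea26f145)) e e)))))))))
 (c (a (nat_lit 0x20202020203fa2))
 (c z e
 (c z e
 (c z e
 (c z e
 (c z e
 (c (a (nat_lit 0x186fd00bc30447a984)) e
 (c (a (nat_lit 0x1f5ad38863e7b45303)) e e)))))))
 (c (a (nat_lit 0x2020202033e623))
 (c z e
 (c z e
 (c z e
 (c z e
 (c (a (nat_lit 0x1cbaa92ba76b0ac2c4)) e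
 (c (a (nat_lit 0x18e82e2481d328b644)) e e))))))
 (c (a (nat_lit 0x2020203581a264))
 (c z e
 (c z e
 (c z e
 (c (a (nat_lit 0x14d04ca64df671b8a4)) e e))))
 (c (a (nat_lit 0xa0a0b7a4c30c64)) e
 (c (a (nat_lit 0xb0462abf2a4))
 (c z e
 (c (a (nat_lit 0x4124a501a301fe45)) e e))
 (c z e
 (c z e
 (c z e
 (c z e
 (c z e
 (c z e
 (c (a (nat_lit 0x1b80e1a5878149c2)) e
 (c (a (nat_lit 0x15b69a5c549e02c2)) e
 (c (a (nat_lit 0x14985a533ca160c2)) e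
 (c (a (nat_lit 0x1899d37d01412202)) e
 (c z e
 (c (a (nat_lit 0x133c012062042002)) e e)))))))))))))))))))
 (c z
 (c (a (nat_lit 0x406060606075e2))
 (c z e
 (c z e
 (c z e
 (c z e
 (c z e
 (c z e
 (c z e
 (c z e
 (c (a (nat_lit 0x749c8c5a52304b585)) e e)))))))))
 (c (a (nat_lit 0x4040404056a4a2))
 (c z e
 (c z e
 (c z e
 (c z e
 (c z e
 (c (a (nat_lit 0x10ba0c06a403ed8be4)) e
 (c (a (nat_lit 0xe26a52223062af4e5)) e e)))))))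
 (c (a (nat_lit 0x20404056cd21e3)) e
 (c (a (nat_lit 0x181819483a2c7a4)) e
 (c (a (nat_lit 0x20556440854804)) e
 (c z e
 (c z e
 (c z e
 (c z e
 (c z e
 (c z e
 (c z e
 (c (a (nat_lit 0x7d4ce8760e200a1)) e
 (c (a (nat_lit 0x1ad46c4728a50761)) e
 (c (a (nat_lit 0xea6a182e081c181)) e
 (c z e
 (c (a (nat_lit 0xc0806161604bc1)) e e)))))))))))))))))
 (c z
 (c (a (nat_lit 0x8080809bfd40c1))
 (c z e
 (c z e
 (c z e
 (c z e
 (c z e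
 (c z e
 (c z e
 (c z e
 (c (a (nat_lit 0x749abea8687341bc5)) e e)))))))))
 (c (a (nat_lit 0xa0a0b292c26023)) e
 (c (a (nat_lit 0x464772de6ebffc3)) e
 (c (a (nat_lit 0x9d7aa16af7dd42)) e
 (c z e
 (c z e
 (c z e
 (c z e
 (c z e
 (c z e
 (c z e
 (c (a (nat_lit 0x10d6f42581614202)) e
 (c (a (nat_lit 0x1710a521230220e2)) e
 (c (a (nat_lit 0x15aa058767660382)) e e))))))))))))))
 (c z
 (c (a (nat_lit 0x202b2ac1a03423))
 (c z e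
 (c z e
 (c z e
 (c z e
 (c (a (nat_lit 0x708ec0805c159bfa4)) e
 (c (a (nat_lit 0x36344e6a80d6e5c05)) e e))))))
 (c z e
 (c z e
 (c z e
 (c z e
 (c z e
 (c z e
 (c z e
 (c z e
 (c z e
 (c (a (nat_lit 0x6b1ebe1a0c12703)) e
 (c (a (nat_lit 0x15efe4c464cb29a3)) e
 (c (a (nat_lit 0x17e180a0ce8ba502)) e e)))))))))))))
 (c z
 (c z e
 (c z e
 (c z e
 (c z e
 (c z e
 (c z e
 (c z e
 (c (a (nat_lit 0x84ffcbbcf88c944)) e
 (c (a (nat_lit 0x43074f14a8ada24)) e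
 (c z e
 (c (a (nat_lit 0x1a922425258886a3)) e
 (c (a (nat_lit 0x1c0183834a66a782)) e e))))))))))))
 (c z
 (c z e
 (c z e
 (c z e
 (c z e
 (c z e
 (c z e
 (c (a (nat_lit 0x2e51706e321ec4)) e
 (c (a (nat_lit 0x8caed97bb583824)) e e))))))))
 (c z e
 (c z
 (c z e
 (c z e
 (c z e
 (c z e
 (c z e
 (c z e
 (c z e
 (c (a (nat_lit 0x74961624374a022)) e
 (c (a (nat_lit 0x940614234c02002)) e e)))))))))
 (c z e
 (c z
 (c z e
 (c z e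
 (c z e
 (c z e
 (c z e
 (c z e
 (c (a (nat_lit 0xc2a6ee460000001)) e
 (c (a (nat_lit 0x10aaa00000000001)) e e))))))))
 (c z
 (c (a (nat_lit 0x19bbbebb3a148d63)) e
 (c z e
 (c z e
 (c z e
 (c (a (nat_lit 0xe385932d2600002)) e
 (c (a (nat_lit 0xccea0e000000001)) e e))))))
 (c z
 (c z e
 (c z e
 (c (a (nat_lit 0x1c1cbd1f1e7dc004)) e
 (c (a (nat_lit 0x4f4540000001)) e e))))
 (c z
 (c (a (nat_lit 0x1475d6b6f6f796c4)) e
 (c (a (nat_lit 0x2c826a6a6400001)) e e))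
 (c z e
 (c (a (nat_lit 0x404040402841)) e
 (c (a (nat_lit 0xe0e0e0a8ca21)) e
 (c (a (nat_lit 0x7e7e7afd13521)) e
 (c (a (nat_lit 0x2020404657083)) e e))))))))))))))))))) Tr.c Tr.e (nat_lit 0) C.cx
noncomputable def C854 : Tr := beta% (fun (c : Nat → Tr → Tr → Tr) (e : Tr) (z : Nat) (a b : Nat → Nat) =>
 (c z
 (c z
 (c z e
 (c (a (nat_lit 0xa8a8a8a8a8a8d8a41))
 (c z e
 (c z e
 (c z e
 (c z e
 (c z e
 (c z e
 (c z e
 (c z e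
 (c z e
 (c z e
 (c z e
 (c z e
 (c z e
 (c (a (nat_lit 0x607a8a928a7f994a767)) e
 (c (a (nat_lit 0x48544a4a5c652e00007)) e e)))))))))))))))
 (c (a (nat_lit 0x62626262637fcd9a1)) e
 (c (a (nat_lit 0x50505051f4e6b56e2))
 (c z e
 (c z e
 (c z e
 (c z e
 (c z e
 (c z e
 (c z e
 (c z e
 (c (a (nat_lit 0x40a465e3a42166d066)) e e)))))))))
 (c (a (nat_lit 0x3434357d14f5345e3)) e
 (c z e
 (c z e
 (c z e
 (c z e
 (c z e
 (c z e
 (c z e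
 (c (a (nat_lit 0x1ad2328a3164e422e3)) e
 (c (a (nat_lit 0x101371794f2f046744)) e
 (c z e
 (c (a (nat_lit 0xb7432755610ef8b44)) e e))))))))))))))))
 (c z
 (c (a (nat_lit 0x3a3a3a3a3b7e80ec2)) e
 (c (a (nat_lit 0x1c1c1c1c625e69904)) e
 (c (a (nat_lit 0xe0e0eb46072ed0e5))
 (c z e
 (c z e
 (c z e
 (c z e
 (c z e
 (c z e
 (c z e
 (c z e
 (c (a (nat_lit 0x244c483c3e285916a87)) e e)))))))))
 (c (a (nat_lit 0x2021330715f6e95e4))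
 (c z e
 (c z e
 (c z e
 (c z e
 (c z e
 (c (a (nat_lit 0x969ab09c766498733c6)) e
 (c (a (nat_lit 0x4e48522e32386253986)) e
 (c (a (nat_lit 0x6a6044603a68bd665a6)) e e))))))))
 (c z e
 (c z e
 (c z e
 (c z e
 (c z e
 (c z e
 (c z e
 (c (a (nat_lit 0xaabec942ccc03c164)) e
 (c z e
 (c (b (nat_lit 0xed877fffdd74fad65)) e e))))))))))))))
 (c z
 (c (a (nat_lit 0xc0c0c784e52bd7c4)) e
 (c (a (nat_lit 0xe0eb2646cab3cf05))
 (c z e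
 (c z e
 (c z e
 (c z e
 (c z e
 (c z e
 (c z e
 (c (a (nat_lit 0x223052423644acbd566)) e e))))))))
 (c z e
 (c z e
 (c z e
 (c z e
 (c z e
 (c z e
 (c z e
 (c z e
 (c z e
 (c (a (nat_lit 0x3ed10b0cf2e48c4a5)) e
 (c (a (nat_lit 0x151b7b9f58f1cef3a5)) e e)))))))))))))
 (c z
 (c z e
 (c z e
 (c z e
 (c z e
 (c z e
 (c z e
 (c z e
 (c z e
 (c z e
 (c z e
 (c (b (nat_lit 0x78e100f1feb84cae5)) e e)))))))))))
 (c z
 (c z e
 (c z e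
 (c z e
 (c z e
 (c z e
 (c z e
 (c z e
 (c z e
 (c z e
 (c z e
 (c (a (nat_lit 0x10367bdbb974933905)) e e)))))))))))
 (c z
 (c z e
 (c z e
 (c z e
 (c z e
 (c z e
 (c z e
 (c z e
 (c (a (nat_lit 0x626100a6eafcb1164)) e e))))))))
 (c z e
 (c z e
 (c (a (nat_lit 0x608080808097c2)) e
 (c (a (nat_lit 0x404040607be522)) e
 (c (a (nat_lit 0x40404059e42282)) e
 (c (a (nat_lit 0x40405743c05503)) e
 (c (a (nat_lit 0x382240cf95a3)) e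
 (c z e
 (c z e
 (c z e
 (c (a (nat_lit 0x4d41a58e7274b63)) e
 (c z e
 (c z e
 (c (a (nat_lit 0x1987c80c2eeb2983)) e
 (c (a (nat_lit 0x7276fd54caa82e2)) e
 (c (a (nat_lit 0xd75fb50ae66a022)) e e))))))))))))))))))))))
 (c z
 (c z
 (c (a (nat_lit 0x36363636a2565b7e3)) e
 (c (a (nat_lit 0xe0e0e523a2f5af04)) e
 (c (a (nat_lit 0x3030d8c8dbdc78244)) e e)))
 (c z
 (c (a (nat_lit 0x181836544d24bf3e4)) e
 (c z e
 (c z e
 (c z e
 (c z e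
 (c z e
 (c z e
 (c z e
 (c z e
 (c z e
 (c (a (nat_lit 0x1cd29f5a770b49a544)) e e)))))))))))
 (c z
 (c z e
 (c z e
 (c z e
 (c z e
 (c z e
 (c z e
 (c z e
 (c z e
 (c z e
 (c z e
 (c (a (nat_lit 0x10f65b73918a0b53c5)) e e)))))))))))
 (c z
 (c z e
 (c z e
 (c z e
 (c z e
 (c z e
 (c z e
 (c z e
 (c z e
 (c (a (nat_lit 0x90db5ccccc622efa4)) e e)))))))))
 (c z
 (c z e
 (c z e
 (c z e
 (c z e
 (c z e
 (c z e
 (c z e
 (c z e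
 (c (a (nat_lit 0x12f076d3938eb0d825)) e e)))))))))
 (c z e
 (c (a (nat_lit 0x40404040405283)) e
 (c (a (nat_lit 0x406060607c0403)) e
 (c (a (nat_lit 0xa0a0a0bbbe30c1)) e
 (c (a (nat_lit 0x1010103e22317e4)) e
 (c (a (nat_lit 0x2821e19735e4)) e
 (c z e
 (c z e
 (c z e
 (c z e
 (c z e
 (c z e
 (c z e
 (c (a (nat_lit 0x420a106b676023)) e
 (c (a (nat_lit 0x66e54ceeae36083)) e
 (c z e
 (c (a (nat_lit 0x15306c6501c0c0c3)) e
 (c (a (nat_lit 0x1fd7c90200400002)) e e)))))))))))))))))))))))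
 (c z
 (c z
 (c (a (nat_lit 0x427cb4cfd8a67e0e2)) e
 (c z e
 (c z e
 (c z e
 (c z e
 (c z e
 (c z e
 (c z e
 (c z e
 (c z e
 (c z e
 (c (a (nat_lit 0xd4eb2f66daa6766a4)) e e))))))))))))
 (c z
 (c z e
 (c z e
 (c z e
 (c z e
 (c z e
 (c z e
 (c z e
 (c z e
 (c z e
 (c (a (nat_lit 0x171655338feded2ac5)) e e))))))))))
 (c z
 (c z e
 (c z e
 (c z e
 (c z e
 (c z e
 (c z e
 (c z e
 (c (a (nat_lit 0x9b8fad6abac0d59e4)) e
 (c (a (nat_lit 0xdb6d30985c10dcd04)) e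
 (c z e
 (c (a (nat_lit 0x102e114e7212326e06)) e e)))))))))))
 (c z
 (c z e
 (c z e
 (c z e
 (c z e
 (c z e
 (c z e
 (c z e
 (c (a (nat_lit 0x1c38d8da1515efbdc4)) e e))))))))
 (c (a (nat_lit 0x1a1c1c1c1c1d081)) e
 (c (a (nat_lit 0xc0c0c0c0d28223))
 (c z e
 (c z e
 (c (a (nat_lit 0x107e74b05cbb05a04)) e
 (c (a (nat_lit 0x5e5a983c726d42d65)) e
 (c (a (nat_lit 0x6ed6248a17b134964)) e e)))))
 (c (a (nat_lit 0x6060607f670343)) e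
 (c (a (nat_lit 0x60606787c43be3)) e
 (c (a (nat_lit 0x1414682832ef104))
 (c (a (nat_lit 0x42425c668646891a5)) e
 (c z e
 (c z e
 (c (a (nat_lit 0xc4fed0bb70ec8c006)) e e))))
 (c (a (nat_lit 0x521c12df3a9a4))
 (c z e
 (c (a (nat_lit 0x9116666a44646e6a5)) e e))
 (c z e
 (c z e
 (c z e
 (c z e
 (c z e
 (c z e
 (c (a (nat_lit 0xe470828d1480023)) e
 (c z e
 (c (a (nat_lit 0x8c931c880a02043)) e e)))))))))))))))))))
 C853)))) Tr.c Tr.e (nat_lit 0) C.cx C.cy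
noncomputable def C855 : Tr := beta% (fun (c : Nat → Tr → Tr → Tr) (e : Tr) (z : Nat) (a b : Nat → Nat) =>
 (c z
 (c (a (nat_lit 0x30303030303144502))
 (c z e
 (c z e
 (c z e
 (c z e
 (c z e
 (c z e
 (c z e
 (c z e
 (c z e
 (c z e
 (c z e
 (c z e
 (c z e
 (c (a (nat_lit 0x8880849c8a9d86c8607)) e e))))))))))))))
 (c (a (nat_lit 0x6e6e6e6e6f150ae82)) e
 (c (a (nat_lit 0xe0e0e0e9e64631c5))
 (c z e
 (c z e
 (c z e
 (c z e
 (c z e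
 (c z e
 (c z e
 (c z e
 (c z e
 (c z e
 (c (a (nat_lit 0x1052779eb80bea183aa6)) e e)))))))))))
 (c (a (nat_lit 0x2222235ce0a9d53c4)) e
 (c (a (nat_lit 0x18187a90790c563c5))
 (c z e
 (c z e
 (c z e
 (c z e
 (c z e
 (c (a (nat_lit 0x1614322c24261e5f327)) e
 (c (a (nat_lit 0x20684a4c2034ead94a6)) e e)))))))
 (c z e
 (c z e
 (c z e
 (c z e
 (c z e
 (c z e
 (c (a (nat_lit 0xe6509ef746c25a464)) e
 (c (a (nat_lit 0x84c1158510b090405)) e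
 (c (a (nat_lit 0xd0ef3722d8beac866)) e
 (c (b (nat_lit 0xab2929ff26f675085)) e
 (c (a (nat_lit 0x12af8da9a681842384)) e
 (c (a (nat_lit 0x104e6a674224e44464)) e
 (c (a (nat_lit 0x18f10ac12504e4e323)) e e))))))))))))))))))
 (c z
 (c (a (nat_lit 0x1e1e1e1e68585f483))
 (c z e
 (c z e
 (c z e
 (c z e
 (c z e
 (c z e
 (c z e
 (c z e
 (c z e
 (c z e
 (c z e
 (c (a (nat_lit 0x5a566abac67a7f8ec86)) e e))))))))))))
 (c (a (nat_lit 0x1e1e1f28a89b2ad04))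
 (c z e
 (c z e
 (c z e
 (c z e
 (c z e
 (c z e
 (c z e
 (c z e
 (c (a (nat_lit 0x1c444e7e22481a3d9c6)) e e)))))))))
 (c (a (nat_lit 0x24251e8e4ac8847e4))
 (c z e
 (c z e
 (c z e
 (c z e
 (c z e
 (c (a (nat_lit 0x2630645c50324c69ea6)) e
 (c (a (nat_lit 0x202434341a106037447)) e e)))))))
 (c (b (nat_lit 0x2ef70cd3ff5928564))
 (c z e
 (c z e
 (c z e
 (c z e
 (c z e
 (c (a (nat_lit 0x162a32223452bb76e27)) e
 (c (a (nat_lit 0x8a8e7c9090c1bb1f3c6)) e e)))))))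
 (c z e
 (c z e
 (c z e
 (c z e
 (c z e
 (c z e
 (c z e
 (c (a (nat_lit 0xfaf54cf6b0beaa8a5)) e
 (c (a (nat_lit 0xe30323073932cb126)) e e)))))))))))))
 (c z
 (c (a (nat_lit 0x26276aba9d165a623)) e
 (c z e
 (c z e
 (c z e
 (c z e
 (c z e
 (c z e
 (c z e
 (c (a (nat_lit 0x1c84c8442aceb39523)) e
 (c z e
 (c (a (nat_lit 0xbf0b491b756b3b4e5)) e
 (c (a (nat_lit 0x94c4d7314732f8f06)) e e))))))))))))
 (c z
 (c z e
 (c z e
 (c z e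
 (c z e
 (c z e
 (c z e
 (c z e
 (c z e
 (c (a (nat_lit 0x9672b6ed30eaecd64)) e
 (c (a (nat_lit 0xa0b113b9cbb3b1245)) e e))))))))))
 (c z e
 (c z
 (c z e
 (c z e
 (c z e
 (c z e
 (c z e
 (c z e
 (c (a (nat_lit 0x826c7aa0acb2a31e5)) e e)))))))
 (c z
 (c z e
 (c z e
 (c z e
 (c z e
 (c z e
 (c (a (nat_lit 0x445e7078928d44f85)) e
 (c (a (nat_lit 0xc0e53f5d5b5d04f85)) e e)))))))
 (c z
 (c z e
 (c z e
 (c z e
 (c z e
 (c (a (nat_lit 0x3a6040426f26ee205)) e e)))))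
 (c (a (nat_lit 0x404040404051c2)) e
 (c (a (nat_lit 0xe0e0e0e0f08362)) e
 (c (b (nat_lit 0x40404052a31fe3)) e
 (c (a (nat_lit 0x606072c2004343)) e
 (c (a (nat_lit 0x525288702049003)) e
 (c (a (nat_lit 0x928a8680e10ef25)) e
 (c z e
 (c z e
 (c (a (nat_lit 0x3c7932c82c42823)) e
 (c (a (nat_lit 0x732ac0263c7c6e3)) e
 (c (a (nat_lit 0x108a0041a5a4e143)) e
 (c (a (nat_lit 0x1aa729f210694962)) e
 (c (a (nat_lit 0x5cbbbd888486361)) e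
 (c (a (nat_lit 0x4749160e08023a1)) e
 (c (a (nat_lit 0x195607c5e10924a1)) e
 (c (a (nat_lit 0x13854580a4800001)) e e))))))))))))))))))))))))) Tr.c Tr.e (nat_lit 0) C.cx C.cy
noncomputable def C856 : Tr := beta% (fun (c : Nat → Tr → Tr → Tr) (e : Tr) (z : Nat) (a : Nat → Nat) =>
 (c z
 (c z
 (c (a (nat_lit 0x6060566e7abb1d7eaa2)) e e)
 (c z
 (c z e
 (c z e
 (c z e
 (c z e
 (c z e
 (c z e
 (c z e
 (c z e
 (c z e
 (c z e
 (c z e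
 (c z e
 (c z e
 (c (a (nat_lit 0x7080829aa698867da07)) e
 (c (a (nat_lit 0x5c4c66727a766a733e7)) e e)))))))))))))))
 (c (a (nat_lit 0x26262626262627282)) e
 (c (a (nat_lit 0x1414141414150c0c3)) e
 (c (a (nat_lit 0x1818181819c8a2623)) e
 (c z e
 (c z e
 (c (a (nat_lit 0x1415d0a4892548c43)) e
 (c z e
 (c z e
 (c z e
 (c z e
 (c z e
 (c (a (nat_lit 0x1c9db73af43385a624)) e
 (c (a (nat_lit 0x11ceaff06c2b24a745)) e
 (c (a (nat_lit 0x11f5559a582fad05e4)) e e))))))))))))))))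
 (c z
 (c (a (nat_lit 0x262626262626273a1))
 (c z e
 (c z e
 (c z e
 (c z e
 (c z e
 (c z e
 (c z e
 (c z e
 (c z e
 (c z e
 (c z e
 (c z e
 (c z e
 (c (a (nat_lit 0x7a7c6e92987e87acb86)) e
 (c (a (nat_lit 0x606a8e948c8885c2006)) e e)))))))))))))))
 (c z
 (c z e
 (c z e
 (c z e
 (c z e
 (c z e
 (c z e
 (c z e
 (c z e
 (c z e
 (c z e
 (c z e
 (c z e
 (c (a (nat_lit 0xc6a8e30ce8adaac4926)) e
 (c (a (nat_lit 0x3242584c424b5a00007)) e e))))))))))))))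
 (c (a (nat_lit 0x14141414153ca4e43)) e
 (c (a (nat_lit 0xe0e0e0ec26255344)) e
 (c (a (nat_lit 0xe0e0e72703504444)) e
 (c (a (nat_lit 0xe0eaaa2551cf4144)) e
 (c z e
 (c z e
 (c z e
 (c z e
 (c z e
 (c (a (nat_lit 0x108e46a8294882e304)) e
 (c (a (nat_lit 0x16b5b713d30645e844)) e
 (c (a (nat_lit 0x15d759bf7cb4926e64)) e e))))))))))))))
 (c z
 (c (a (nat_lit 0x3a3a3a3a3ad896ec1)) e
 (c (a (nat_lit 0x181818191684c15e3)) e
 (c (a (nat_lit 0x181a1b46684b14a03)) e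
 (c (a (nat_lit 0x1e1f0ac660c562e83)) e
 (c z e
 (c z e
 (c z e
 (c z e
 (c z e
 (c (a (nat_lit 0x18edaae4c9cd0dadc3)) e
 (c z e
 (c (a (nat_lit 0xd4eb0b7ac49280b24)) e
 (c (a (nat_lit 0xf909352cd0d4e2a85)) e
 (c (a (nat_lit 0x36a2d6e5adc5211e4)) e e))))))))))))))
 (c z
 (c (a (nat_lit 0x1a1a1b787ccf37702)) e
 (c (a (nat_lit 0x1617826866f7ee4a3))
 (c z e
 (c z e
 (c z e
 (c z e
 (c z e
 (c z e
 (c (a (nat_lit 0x302c5c3a285a966fa86)) e e)))))))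
 (c z e
 (c z e
 (c z e
 (c z e
 (c z e
 (c z e
 (c z e
 (c z e
 (c (a (nat_lit 0xe4fd36c8d89e914c4)) e
 (c (a (nat_lit 0x5e8ac8dd292714285)) e e))))))))))))
 (c z
 (c z e
 (c z e
 (c z e
 (c z e
 (c z e
 (c z e
 (c z e
 (c z e
 (c z e
 (c z e
 (c (a (nat_lit 0x66c933dbd5dfd94a4)) e e)))))))))))
 (c z
 (c z e
 (c z e
 (c z e
 (c z e
 (c z e
 (c z e
 (c z e
 (c z e
 (c (a (nat_lit 0x7078b185838d6d8e4)) e e)))))))))
 (c z e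
 (c z
 (c z e
 (c z e
 (c z e
 (c z e
 (c z e
 (c (a (nat_lit 0xbca0b89cd4a0aba03)) e e))))))
 (c z e
 (c z e
 (c (a (nat_lit 0x1010101010101c1)) e
 (c (a (nat_lit 0x4a4a4a4a4b5e742)) e
 (c (a (nat_lit 0x60606071848042)) e
 (c (a (nat_lit 0x1717373b7fd14c21))
 (c (a (nat_lit 0x9ea04832574102704)) e e)
 (c (a (nat_lit 0xa2a2829c8473223)) e
 (c z e
 (c z e
 (c (a (nat_lit 0x2e0a05583e02082)) e
 (c (a (nat_lit 0x141162480814522)) e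
 (c (a (nat_lit 0x33947a386a82b82)) e
 (c z e
 (c (a (nat_lit 0xe866ccfd6997001)) e e))))))))))))))))))))))) Tr.c Tr.e (nat_lit 0) C.cx
noncomputable def C857 : Tr := beta% (fun (c : Nat → Tr → Tr → Tr) (e : Tr) (z : Nat) (a : Nat → Nat) =>
 (c z
 (c z
 (c z
 (c (a (nat_lit 0x36363636363636365c1)) e
 (c (a (nat_lit 0x3c3e3e3e3e3e3ea4401)) e
 (c (a (nat_lit 0x4040404040411a564e1)) e
 (c (a (nat_lit 0x5c5e5e5e5f0074814c1)) e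
 (c (a (nat_lit 0x56565656da5268616e1)) e e)))))
 (c z
 (c (a (nat_lit 0x6868686868684c16fe1)) e
 (c (a (nat_lit 0x5658585859345ec2f02)) e
 (c (a (nat_lit 0x363838387e326519ce3)) e
 (c (a (nat_lit 0x3e3e3e6024564f61543)) e e))))
 (c z
 (c (a (nat_lit 0x808080814292a33df61)) e
 (c (a (nat_lit 0x424242a23a59377d623)) e
 (c (a (nat_lit 0x44449c4056a97d7cae3)) e e)))
 (c z
 (c (a (nat_lit 0x222240263700e494563)) e e)
 (c z e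
 (c z e
 (c (a (nat_lit 0x14141414141415162)) e
 (c z e
 (c z e
 (c z e
 (c z e
 (c z e
 (c z e
 (c z e
 (c z e
 (c (a (nat_lit 0xd0f545172538dee43)) e
 (c (a (nat_lit 0x10b6335495d54fef23)) e e)))))))))))))))))
 (c z
 (c z
 (c (a (nat_lit 0xe0e0e0e0e07a5557161)) e
 (c (a (nat_lit 0x5c5c5c5cb03cb90fcc3)) e
 (c (a (nat_lit 0x3436364a2656dd8f124)) e
 (c (a (nat_lit 0x383a30204e570742d24)) e e))))
 (c z
 (c (a (nat_lit 0x3434346a345296c3004)) e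
 (c (a (nat_lit 0x3232603256e71aee7a5)) e
 (c z e
 (c z e
 (c z e
 (c z e
 (c z e
 (c z e
 (c z e
 (c z e
 (c z e
 (c z e
 (c (a (nat_lit 0x5e7c968884808273185)) e e)))))))))))))
 (c z
 (c z e
 (c z e
 (c z e
 (c z e
 (c z e
 (c z e
 (c z e
 (c z e
 (c z e
 (c z e
 (c z e
 (c z e
 (c (a (nat_lit 0xacd4eb091504f4f1746)) e e)))))))))))))
 (c z
 (c z e
 (c z e
 (c z e
 (c z e
 (c z e
 (c z e
 (c z e
 (c z e
 (c z e
 (c z e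
 (c z e
 (c z e
 (c z e
 (c (a (nat_lit 0x6a70788690867a652c7)) e e))))))))))))))
 (c (a (nat_lit 0x40424242424241f41))
 (c z e
 (c z e
 (c z e
 (c z e
 (c z e
 (c z e
 (c z e
 (c z e
 (c z e
 (c z e
 (c z e
 (c z e
 (c (a (nat_lit 0x5862606a7a6a5716007)) e e)))))))))))))
 (c (a (nat_lit 0x2e3030303031c63e2)) e
 (c (a (nat_lit 0x40424242434b40c03)) e
 (c z e
 (c (a (nat_lit 0x141415ce989082de3)) e
 (c (a (nat_lit 0x1a1b8492423ad48e3)) e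
 (c z e
 (c z e
 (c z e
 (c z e
 (c z e
 (c (a (nat_lit 0x13b2d072516d6ca485)) e
 (c (a (nat_lit 0x106e100b0b4a8544a5)) e e)))))))))))))))))
 C856))
 (c z
 (c z
 (c z
 (c (a (nat_lit 0xaaaaaaaa9482aed73c2)) e
 (c (a (nat_lit 0x6666667438850f5fa23)) e
 (c (a (nat_lit 0x34342a2c40a74500fe4)) e
 (c (a (nat_lit 0x6e585280b361ed51123)) e e))))
 (c z
 (c (a (nat_lit 0x8a8a8c60b197a5f94a3)) e
 (c z e
 (c z e
 (c z e
 (c z e
 (c z e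
 (c z e
 (c z e
 (c z e
 (c z e
 (c z e
 (c z e
 (c (a (nat_lit 0x407a58665e7060df485)) e
 (c (a (nat_lit 0xb0caf9051b2127399a6)) e e))))))))))))))
 (c z
 (c z e
 (c z e
 (c z e
 (c z e
 (c z e
 (c z e
 (c z e
 (c z e
 (c z e
 (c z e
 (c z e
 (c z e
 (c (a (nat_lit 0x96b4f529092f4187565)) e
 (c z e
 (c (a (nat_lit 0x6672707a907e7e6d667)) e e)))))))))))))))
 (c z
 (c z e
 (c z e
 (c z e
 (c z e
 (c z e
 (c z e
 (c z e
 (c z e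
 (c z e
 (c z e
 (c z e
 (c z e
 (c z e
 (c (a (nat_lit 0x8e9a80a0a4b2b9d8006)) e e))))))))))))))
 (c (a (nat_lit 0x90909090909172161)) e
 (c (a (nat_lit 0x28282828291688363)) e
 (c z e
 (c z e
 (c (a (nat_lit 0x2a2b28d0faf30c5c3)) e
 (c (a (nat_lit 0x6753251f55f1c03a2)) e
 (c z e
 (c z e
 (c z e
 (c z e
 (c z e
 (c (a (nat_lit 0x12f150f18d6c65c4c5)) e
 (c (a (nat_lit 0x13d3345977b529a9a4)) e e)))))))))))))))))
 (c z
 (c z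
 (c z e
 (c z e
 (c z e
 (c z e
 (c z e
 (c z e
 (c z e
 (c z e
 (c z e
 (c z e
 (c z e
 (c z e
 (c (a (nat_lit 0x2e3a4e483a3d1d1d385)) e
 (c z e
 (c z e
 (c (a (nat_lit 0x70687c989e9884873e7)) e e))))))))))))))))
 (c (a (nat_lit 0x2c2c2c2c2c2c2d2a3))
 (c z e
 (c z e
 (c z e
 (c z e
 (c z e
 (c z e
 (c z e
 (c z e
 (c z e
 (c z e
 (c z e
 (c (a (nat_lit 0x4c5e4642473d2cd45c6)) e
 (c (a (nat_lit 0xbae2e5074983e33aa06)) e e)))))))))))))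
 (c (a (nat_lit 0x5c5c5c5c5c5dfeec2))
 (c z e
 (c z e
 (c z e
 (c z e
 (c z e
 (c z e
 (c z e
 (c z e
 (c z e
 (c z e
 (c z e
 (c (a (nat_lit 0xb2c4cee2ef311eb46c7)) e e))))))))))))
 (c (a (nat_lit 0x18181818191a64604))
 (c z e
 (c z e
 (c z e
 (c z e
 (c z e
 (c z e
 (c z e
 (c z e
 (c z e
 (c z e
 (c z e
 (c z e
 (c (a (nat_lit 0x56425050692e0000008)) e e)))))))))))))
 (c (a (nat_lit 0x2828282994d8aafe4)) e
 (c (a (nat_lit 0x303031b757314a5e4)) e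
 (c (a (nat_lit 0x18197910df24a8424)) e
 (c z e
 (c z e
 (c z e
 (c z e
 (c z e
 (c z e
 (c (a (nat_lit 0x15d2f571f1ea264405)) e
 (c (a (nat_lit 0xb6c0e50efec29e5c6)) e e)))))))))))))))
 C855))
 C854))) Tr.c Tr.e (nat_lit 0) C.cx
noncomputable def C858 : Tr := beta% (fun (c : Nat → Tr → Tr → Tr) (e : Tr) (z : Nat) (a b : Nat → Nat) =>
 (c z
 (c z
 (c z e
 (c z e
 (c z e
 (c z e
 (c z e
 (c z e
 (c z e
 (c z e
 (c z e
 (c (a (nat_lit 0xd7414078949a70a05)) e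
 (c z e
 (c (a (nat_lit 0xfa34977cc0b0a2e64)) e e))))))))))))
 (c z
 (c z e
 (c z e
 (c z e
 (c z e
 (c z e
 (c z e
 (c z e
 (c z e
 (c (a (nat_lit 0xf723349adcd696fa5)) e e)))))))))
 (c (a (nat_lit 0x13d3f3f3f3c0a321))
 (c z e
 (c z e
 (c z e
 (c z e
 (c z e
 (c (a (nat_lit 0xa27080281ec94ca25)) e e))))))
 (c (a (nat_lit 0x42424243b04c623))
 (c z e
 (c z e
 (c z e
 (c z e
 (c (a (nat_lit 0x12709828f5586d5cc5)) e
 (c z e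
 (c z e
 (c z e
 (c (a (nat_lit 0x8ae6b736b40000006)) e e)))))))))
 (c (a (nat_lit 0x20203bc1612063))
 (c z e
 (c z e
 (c z e
 (c (a (nat_lit 0x46545886c494a9386)) e
 (c (a (nat_lit 0x7e78b4eb20d9256c6)) e e)))))
 (c (a (nat_lit 0x262844364c33723)) e
 (c z e
 (c (a (nat_lit 0xfa7e5879c0cc643))
 (c (a (nat_lit 0x991b01172b81e0e84)) e e)
 (c z e
 (c (a (nat_lit 0xa325b7cfa5e48a4)) e
 (c (a (nat_lit 0xa0e0fae504d06e5)) e
 (c z e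
 (c z e
 (c (a (nat_lit 0xa1386cdc340c003)) e
 (c (a (nat_lit 0x1487aec462c02143)) e
 (c (a (nat_lit 0xffe296620e322e2)) e
 (c z e
 (c (a (nat_lit 0x1024e061e3c9a021)) e e))))))))))))))))))
 (c z
 (c z
 (c z e
 (c z e
 (c z e
 (c z e
 (c z e
 (c z e
 (c z e
 (c (a (nat_lit 0x10ba3b49a6cba87124)) e
 (c (a (nat_lit 0x10b00dcfcecaea9285)) e e)))))))))
 (c (a (nat_lit 0x1e5e5e5e4c893441)) e
 (c (a (nat_lit 0x141415700e48323)) e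
 (c (a (nat_lit 0x1213b6142404c23))
 (c z e
 (c (a (nat_lit 0x3a262a68669703325)) e
 (c z e
 (c z e
 (c z e
 (c (a (nat_lit 0x105006ef614b9b8005)) e e))))))
 (c (a (nat_lit 0x222e20481b04623))
 (c (a (nat_lit 0x8e9f04baebf9852e4)) e
 (c z e
 (c z e
 (c z e
 (c (a (nat_lit 0xa5248c12ebfc00004)) e e)))))
 (c z e
 (c z e
 (c (a (nat_lit 0x7a78e8f35b5cfa4)) e
 (c (a (nat_lit 0x84bec705087e0e5)) e
 (c z e
 (c z e
 (c (a (nat_lit 0x167d597568e48223)) e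
 (c (a (nat_lit 0x1bb7b2c5a3c2c303)) e
 (c (a (nat_lit 0x15aee361820101e3)) e e))))))))))))))
 (c z
 (c (a (nat_lit 0x1a7a7a7492d6a042))
 (c z e
 (c z e
 (c z e
 (c z e
 (c (a (nat_lit 0x6e92e90ec68045d04)) e
 (c z e
 (c (a (nat_lit 0x808a201c8825d3385)) e
 (c (a (nat_lit 0xa8729220412b9ca25)) e e))))))))
 (c (a (nat_lit 0x2a2a42143e03124)) e
 (c z e
 (c z e
 (c z e
 (c (a (nat_lit 0x443f06c46eea8c4))
 (c (a (nat_lit 0xdf0bc505591c9e005)) e e)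
 (c (a (nat_lit 0x411d38e95e8a364)) e
 (c z e
 (c z e
 (c (a (nat_lit 0x10d5106d49498e85)) e
 (c (a (nat_lit 0x1ecc8ba586a4a4e3)) e
 (c (a (nat_lit 0x11af82446124a462)) e
 (c (a (nat_lit 0x11440582e74703e2)) e e)))))))))))))
 (c z
 (c (a (nat_lit 0x74a27c94aabb364))
 (c z e
 (c z e
 (c z e
 (c z e
 (c (a (nat_lit 0xa36080a215a2d046)) e e)))))
 (c z e
 (c z e
 (c z e
 (c (a (nat_lit 0x5cf510e8cce0c04))
 (c (a (nat_lit 0x82b063867a7200006)) e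
 (c (a (nat_lit 0xb2f53c26000000006)) e e))
 (c z e
 (c z e
 (c (b (nat_lit 0x112fcddfe2a06da4)) e
 (c (a (nat_lit 0xc0b107210f09945)) e
 (c (a (nat_lit 0x1aeef82fd85af622)) e e))))))))))
 (c z
 (c z e
 (c (a (nat_lit 0x17fe53d18ba7bbc3))
 (c (a (nat_lit 0x706e80bb79935a8c5)) e e)
 (c (a (nat_lit 0x1c704910e699b723)) e
 (c z e
 (c z e
 (c (a (nat_lit 0xacc5166c4e72dc4)) e
 (c (a (nat_lit 0x466ad2c4dabf3e5)) e
 (c z e
 (c z e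
 (c (a (nat_lit 0xa12e7e8e7aa0d82)) e
 (c (a (nat_lit 0x1d088a898cf3c921)) e e)))))))))))
 (c z
 (c (a (nat_lit 0x1f13e869485718c2)) e
 (c z e
 (c z e
 (c (a (nat_lit 0x73395530eb35283)) e
 (c (a (nat_lit 0x1c5102e910e3c84)) e
 (c z e
 (c z e
 (c (a (nat_lit 0xf37ad304e0e8e42)) e
 (c (a (nat_lit 0x1f8ad37110cd8da1)) e e)))))))))
 (c z
 (c z e
 (c (a (nat_lit 0x54eaef54dd9f2e3)) e
 (c (a (nat_lit 0x522720df36d95e3)) e
 (c z e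
 (c z e
 (c (a (nat_lit 0x45ab4779554ef63)) e
 (c (a (nat_lit 0x18cdb35130511162)) e e)))))))
 (c z
 (c (a (nat_lit 0x70c92ead893f3a2)) e
 (c z e
 (c z e
 (c (a (nat_lit 0x105bdd5d7bfc1d44)) e
 (c (a (nat_lit 0x1b5a3a78d8d9b0e4)) e
 (c (a (nat_lit 0x40604c3f3738042)) e
 (c z e
 (c (a (nat_lit 0x56575384584a002)) e
 (c (a (nat_lit 0x17113e100000002)) e
 (c (a (nat_lit 0x1229e00000000003)) e e))))))))))
 (c z
 (c (a (nat_lit 0xb69b03070b04f63)) e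
 (c (a (nat_lit 0xb70f07090904f05)) e e))
 (c z
 (c (a (nat_lit 0x143374547431ea24)) e
 (c z e
 (c z e
 (c (a (nat_lit 0x1d8aa9ea6a0cb403)) e
 (c (a (nat_lit 0x15b3d6357ad44002)) e
 (c (a (nat_lit 0xa0ceb6b20000001)) e e))))))
 (c z
 (c z e
 (c (a (nat_lit 0x1ce360a0e0a568e3)) e
 (c (a (nat_lit 0x15b575d596775605)) e
 (c (a (nat_lit 0x34f0f4f6f000001)) e
 (c (a (nat_lit 0x80e08000000001)) e
 (c (a (nat_lit 0x60000000000001)) e e))))))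
 (c z
 (c (a (nat_lit 0x15d4f4f535d59584)) e
 (c (a (nat_lit 0x24081a444424001)) e e))
 (c z e
 (c (a (nat_lit 0x606060606221)) e
 (c (a (nat_lit 0x2020202210e1)) e
 (c (a (nat_lit 0x4242425f4f201)) e
 (c (a (nat_lit 0x6c6c8b794a9e1)) e
 (c (a (nat_lit 0x5c79693a8eaa1)) e
 (c (a (nat_lit 0x7b6b3a92acb61)) e
 (c z e
 (c z e
 (c (a (nat_lit 0x214021a221)) e
 (c (a (nat_lit 0x3c503e565f4a1)) e e)))))))))))))))))))))))) Tr.c Tr.e (nat_lit 0) C.cx C.cy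
noncomputable def C859 : Tr := beta% (fun (c : Nat → Tr → Tr → Tr) (e : Tr) (z : Nat) (a : Nat → Nat) =>
 (c z
 (c z
 (c (a (nat_lit 0x4a4a4a4a4b64907e1)) e
 (c (a (nat_lit 0x121212124e3423464)) e
 (c (a (nat_lit 0x4444452adce1a4c84)) e
 (c (a (nat_lit 0x1414a49299328cb24)) e
 (c z e
 (c z e
 (c z e
 (c (a (nat_lit 0x3b412f78a29a94264)) e
 (c (a (nat_lit 0x119052a6c76601c0e4)) e
 (c z e
 (c (a (nat_lit 0x1508eaa92708258344)) e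
 (c z e
 (c (a (nat_lit 0xcab6ef2f4f4cb6924)) e e)))))))))))))
 (c z
 (c (a (nat_lit 0x1212127248416c924)) e
 (c (a (nat_lit 0xe0ec29e9f5a55165))
 (c z e
 (c z e
 (c z e
 (c z e
 (c z e
 (c z e
 (c z e
 (c (a (nat_lit 0x484e26203e1aa0ef8c6)) e
 (c (a (nat_lit 0x624e5058486494ed027)) e
 (c (a (nat_lit 0x7898ec6a9284f734887)) e e))))))))))
 (c z e
 (c z e
 (c z e
 (c z e
 (c z e
 (c z e
 (c z e
 (c z e
 (c (a (nat_lit 0x14d491d03410ac6664)) e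
 (c (a (nat_lit 0xf10d336f5b1692525)) e
 (c z e
 (c z e
 (c (a (nat_lit 0xeccaea8c667471524)) e
 (c (a (nat_lit 0xdafa9c72868364644)) e
 (c (a (nat_lit 0xbe62384c492412004)) e e)))))))))))))))))
 (c z
 (c z e
 (c z e
 (c z e
 (c z e
 (c z e
 (c z e
 (c z e
 (c z e
 (c z e
 (c (a (nat_lit 0x3eb73d9f18f6a68a4)) e
 (c (a (nat_lit 0x810f6532dab468885)) e
 (c z e
 (c (a (nat_lit 0x124f2f34f0b26830a5)) e e)))))))))))))
 (c z
 (c z e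
 (c z e
 (c z e
 (c z e
 (c z e
 (c z e
 (c z e
 (c z e
 (c z e
 (c (a (nat_lit 0xff61811d1b048ae05)) e
 (c z e
 (c (a (nat_lit 0x12d057da95500ff4a5)) e e))))))))))))
 (c z
 (c z e
 (c z e
 (c z e
 (c z e
 (c z e
 (c z e
 (c (a (nat_lit 0x782c80987656691c4)) e
 (c (a (nat_lit 0x74eb4d18c6bc8ab44)) e e))))))))
 (c z
 (c z e
 (c z e
 (c z e
 (c z e
 (c z e
 (c (a (nat_lit 0xe3a44b06ea70ee84)) e
 (c (a (nat_lit 0xd8ebf5917f2723f63)) e e)))))))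
 (c z
 (c z e
 (c z e
 (c z e
 (c z e
 (c (a (nat_lit 0xb8cad8d2d6e513025)) e
 (c z e
 (c z e
 (c z e
 (c z e
 (c (a (nat_lit 0x93598c387c9200004)) e e))))))))))
 (c (a (nat_lit 0xc0c0c0c0c0d2a1))
 (c z e
 (c z e
 (c z e
 (c z e
 (c z e
 (c (a (nat_lit 0xc90d2f37737ee4605)) e e))))))
 (c (a (nat_lit 0x40404040486a01))
 (c z e
 (c z e
 (c z e
 (c z e
 (c (a (nat_lit 0xd0fd2b4783304c085)) e e)))))
 (c (a (nat_lit 0x101010117923321))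
 (c z e
 (c z e
 (c z e
 (c z e
 (c z e
 (c (a (nat_lit 0x14c808ee1880000005)) e e))))))
 (c (a (nat_lit 0x40404d22e1b284)) e
 (c (a (nat_lit 0x1010a6322d0b104)) e
 (c (a (nat_lit 0x26323828dee31a5)) e
 (c z e
 (c z e
 (c (a (nat_lit 0x290f13746e42284)) e
 (c (a (nat_lit 0x1171b7c764c46224)) e
 (c (a (nat_lit 0x1096c663c2e0a084)) e
 (c z e
 (c (a (nat_lit 0x168f08c1c120a002)) e
 (c (a (nat_lit 0x188c0221004022e1)) e
 (c (a (nat_lit 0xf454443e1c68001)) e e))))))))))))))))))))))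
 (c z
 (c z
 (c (a (nat_lit 0x20205858655620543)) e
 (c z e
 (c z e
 (c z e
 (c z e
 (c z e
 (c z e
 (c z e
 (c z e
 (c z e
 (c z e
 (c (a (nat_lit 0x10b09311f1c88504a4)) e
 (c z e
 (c (a (nat_lit 0x16d6f78fccaa4635a4)) e e))))))))))))))
 (c z
 (c z e
 (c z e
 (c z e
 (c z e
 (c z e
 (c z e
 (c z e
 (c z e
 (c z e
 (c (a (nat_lit 0x1334b431922e0c0b85)) e
 (c (a (nat_lit 0x14f734756e6745e4a5)) e e)))))))))))
 (c z
 (c z e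
 (c z e
 (c z e
 (c z e
 (c z e
 (c z e
 (c z e
 (c z e
 (c (a (nat_lit 0xed71976ac44a362e4)) e e)))))))))
 (c z
 (c z e
 (c z e
 (c z e
 (c z e
 (c z e
 (c (a (nat_lit 0x1f9c2a85c7cb24d463)) e
 (c (a (nat_lit 0x1a4c0de9ca6718fd23)) e
 (c (a (nat_lit 0x15fafe5b96da299c64)) e e))))))))
 (c z
 (c z e
 (c z e
 (c z e
 (c z e
 (c z e
 (c (a (nat_lit 0x34eaf8623880a9084)) e e))))))
 (c (a (nat_lit 0x606060606076c3))
 (c z e
 (c z e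
 (c z e
 (c z e
 (c (a (nat_lit 0x1233b28688656aada4)) e e)))))
 (c (a (nat_lit 0x20202020300124)) e
 (c (a (nat_lit 0xa0a0a0b987f121))
 (c z e
 (c z e
 (c (a (nat_lit 0x91038f5d6fe542e24)) e e)))
 (c (a (nat_lit 0x20202501e27404)) e
 (c (a (nat_lit 0x2030428193ec24)) e
 (c z e
 (c z e
 (c z e
 (c z e
 (c (a (nat_lit 0x1fefd0e84d0c4be3)) e
 (c z e
 (c z e
 (c (a (nat_lit 0xb10906f2a852103)) e
 (c z e
 (c z e
 (c (a (nat_lit 0x108c06a284e28163)) e e)))))))))))))))))))))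
 (c z
 (c z
 (c z e
 (c z e
 (c z e
 (c z e
 (c z e
 (c z e
 (c z e
 (c z e
 (c z e
 (c z e
 (c (a (nat_lit 0x1d3999192da9eb2d24)) e e)))))))))))
 (c z
 (c z e
 (c z e
 (c z e
 (c z e
 (c z e
 (c z e
 (c z e
 (c z e
 (c (a (nat_lit 0x1e9b9979b5f1a925c4)) e e)))))))))
 (c z
 (c z e
 (c z e
 (c z e
 (c z e
 (c z e
 (c (a (nat_lit 0x61a86e383240189c4)) e
 (c (a (nat_lit 0x10e8270545836aec85)) e e)))))))
 (c (a (nat_lit 0x222222222223362))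
 (c z e
 (c z e
 (c z e
 (c z e
 (c z e
 (c (a (nat_lit 0x1295934a83aabb5204)) e e))))))
 (c (a (nat_lit 0x20202030a2a4))
 (c z e
 (c z e
 (c z e
 (c (a (nat_lit 0xaae8d280744077265)) e
 (c (a (nat_lit 0xdcc2664a089cf3305)) e e)))))
 (c (a (nat_lit 0x202020358302e4)) e
 (c (a (nat_lit 0xa0a0b0e60735e3))
 (c (a (nat_lit 0x48124a46946087364)) e
 (c (a (nat_lit 0x5486b534c70be36e4)) e e))
 (c (a (nat_lit 0x202a23a38b3224))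
 (c (a (nat_lit 0xc2a885060803b744)) e e)
 (c (a (nat_lit 0xdc422caf59cc4))
 (c (a (nat_lit 0x8cbc4aee7e5a17545)) e e)
 (c z e
 (c z e
 (c z e
 (c z e
 (c z e
 (c z e
 (c (a (nat_lit 0x1410f14ce84be063)) e
 (c z e
 (c z e
 (c z e
 (c (a (nat_lit 0x1218a200e0e02002)) e e))))))))))))))))))))
 C858)))) Tr.c Tr.e (nat_lit 0) C.cx
noncomputable def C860 : Tr := beta% (fun (c : Nat → Tr → Tr → Tr) (e : Tr) (z : Nat) (a b : Nat → Nat) =>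
 (c z
 (c (a (nat_lit 0x767676767677220c1))
 (c z e
 (c z e
 (c z e
 (c z e
 (c z e
 (c z e
 (c z e
 (c z e
 (c z e
 (c z e
 (c z e
 (c z e
 (c z e
 (c (a (nat_lit 0x8a909a9ea0b163de707)) e e))))))))))))))
 (c (a (nat_lit 0x64646464651d29602))
 (c z e
 (c z e
 (c z e
 (c z e
 (c z e
 (c z e
 (c z e
 (c z e
 (c z e
 (c z e
 (c (a (nat_lit 0x6a6875171b1a9e59b26)) e e)))))))))))
 (c (a (nat_lit 0x1e1e1e1f5aceefca4))
 (c z e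
 (c z e
 (c z e
 (c z e
 (c z e
 (c z e
 (c z e
 (c z e
 (c (a (nat_lit 0x5272dc5c9e7c629b926)) e e)))))))))
 (c (a (nat_lit 0x20202128f11fa1684))
 (c z e
 (c z e
 (c z e
 (c z e
 (c z e
 (c z e
 (c z e
 (c (a (nat_lit 0x951c648eae54e0fbf65)) e e))))))))
 (c (a (nat_lit 0x1a1ace96cf8514e04)) e
 (c z e
 (c z e
 (c z e
 (c (a (nat_lit 0x3ceb1700825644165)) e
 (c z e
 (c z e
 (c z e
 (c (a (nat_lit 0x1211b10fafaf8b2be5)) e e)))))))))))))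
 (c z
 (c (a (nat_lit 0xc0c0c0c4838472c4)) e
 (c (a (nat_lit 0xc0c0cb25a66eb3e5))
 (c z e
 (c z e
 (c z e
 (c z e
 (c z e
 (c z e
 (c z e
 (c z e
 (c z e
 (c (a (nat_lit 0xa101013668718d619e6)) e e))))))))))
 (c (a (nat_lit 0x1818bca4cbace04e4)) e
 (c z e
 (c z e
 (c z e
 (c z e
 (c z e
 (c z e
 (c z e
 (c z e
 (c (a (nat_lit 0xc480f92d58dab23e5)) e
 (c z e
 (c (a (nat_lit 0x11369994b028272d05)) e
 (c (a (nat_lit 0x1d17ad68614281e463)) e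
 (c (a (nat_lit 0x176d48210181a44203)) e e))))))))))))))))
 (c z
 (c (a (nat_lit 0x808be5666a533b44))
 (c z e
 (c z e
 (c z e
 (c z e
 (c (a (nat_lit 0x309899bc3a2436be8e6)) e
 (c z e
 (c z e
 (c (a (nat_lit 0x6044364e26489c4d7e6)) e e))))))))
 (c (a (nat_lit 0x1c846a7ca530ca205))
 (c z e
 (c z e
 (c z e
 (c (a (nat_lit 0xb0c5e0a884bd0280406)) e
 (c z e
 (c z e
 (c (a (nat_lit 0x4e2e2c0e22a8e5105e7)) e
 (c (a (nat_lit 0x4100a2aa71ca8288c7)) e e))))))))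
 (c z e
 (c z e
 (c z e
 (c z e
 (c z e
 (c z e
 (c z e
 (c (a (nat_lit 0xf4aab6d33eb6e68a4)) e
 (c z e
 (c (a (nat_lit 0x129538169413cff286)) e e))))))))))))
 (c z
 (c z e
 (c (a (nat_lit 0x98ab3318a4daf6f24)) e
 (c z e
 (c z e
 (c z e
 (c z e
 (c z e
 (c z e
 (c z e
 (c (a (nat_lit 0xb5078104e4d0c6c65)) e
 (c (a (nat_lit 0xbb693b878b7b1ef65)) e
 (c (b (nat_lit 0x118e749ffff24b6b85)) e e))))))))))))
 (c z
 (c z e
 (c z e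
 (c z e
 (c z e
 (c z e
 (c z e
 (c z e
 (c z e
 (c (a (nat_lit 0xa8f3074349250ee05)) e
 (c z e
 (c (b (nat_lit 0xcf1b19ff4c927f185)) e e)))))))))))
 (c z
 (c z e
 (c z e
 (c z e
 (c z e
 (c z e
 (c z e
 (c (a (nat_lit 0x6ee88694acaa9bb84)) e e)))))))
 (c z
 (c z e
 (c z e
 (c z e
 (c z e
 (c z e
 (c (a (nat_lit 0xdcacaed0dcc96b6c5)) e e))))))
 (c z
 (c z e
 (c (a (nat_lit 0x12187e2a90eb36704)) e
 (c z e
 (c z e
 (c (a (nat_lit 0x204062905d2b288c5)) e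
 (c (a (nat_lit 0x12d539f7da3737d085)) e
 (c z e
 (c (a (nat_lit 0x1d9b7afabd15cf56e5)) e e))))))))
 (c (a (nat_lit 0x60608080809222))
 (c z e
 (c z e
 (c z e
 (c z e
 (c (a (nat_lit 0xecf0bf193779142c5)) e e)))))
 (c (a (nat_lit 0x606060607944c2)) e
 (c (a (nat_lit 0xa0c0c0d0026284)) e
 (c (a (nat_lit 0x2424259a48695c3)) e
 (c (a (nat_lit 0x8c8d18b2a58d323))
 (c (a (nat_lit 0x1225452b7b94a0004)) e e)
 (c z e
 (c z e
 (c z e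
 (c (a (nat_lit 0x819130dec67a5e3)) e
 (c (a (nat_lit 0x15cfcaa944a32383)) e
 (c (a (nat_lit 0x1cf2d006e3c48562)) e
 (c z e
 (c (a (nat_lit 0x1e518a87c88f83a1)) e e)))))))))))))))))))))) Tr.c Tr.e (nat_lit 0) C.cx C.cy
noncomputable def C861 : Tr := beta% (fun (c : Nat → Tr → Tr → Tr) (e : Tr) (z : Nat) (a : Nat → Nat) =>
 (c z
 (c z
 (c (a (nat_lit 0x7e7e588c93577cf3003)) e
 (c z e
 (c z e
 (c z e
 (c z e
 (c z e
 (c z e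
 (c z e
 (c z e
 (c z e
 (c z e
 (c z e
 (c (a (nat_lit 0x6464706c7c747329345)) e
 (c (a (nat_lit 0xdcef1f394b3f474fb26)) e e))))))))))))))
 (c z
 (c z e
 (c z e
 (c z e
 (c z e
 (c z e
 (c z e
 (c z e
 (c z e
 (c z e
 (c z e
 (c z e
 (c (a (nat_lit 0xc8849a926a6799a99e5)) e e))))))))))))
 (c (a (nat_lit 0x2a2a2a2a2a2a2b722)) e
 (c (a (nat_lit 0x18181818181944203)) e
 (c (a (nat_lit 0x24242424251ebcba4)) e
 (c (a (nat_lit 0x1e1e1e1f5afb2d6a4))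
 (c z e
 (c z e
 (c z e
 (c z e
 (c z e
 (c z e
 (c z e
 (c z e
 (c (a (nat_lit 0x1415125574edb4169786)) e e)))))))))
 (c (a (nat_lit 0x161616fe98d914dc4))
 (c z e
 (c z e
 (c z e
 (c z e
 (c (a (nat_lit 0x4250463c74103c8b226)) e
 (c (a (nat_lit 0x383c1e6c3a346d4e6e6)) e
 (c (a (nat_lit 0x5f0ae48c883ee697d86)) e e)))))))
 (c (a (nat_lit 0x1e1f6cdd25c568e84))
 (c z e
 (c (a (nat_lit 0x9c748466427a8c7d8e6)) e
 (c z e
 (c (a (nat_lit 0x666e4446446ed331b46)) e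
 (c (a (nat_lit 0x3a162a362e6f2446c07)) e
 (c (a (nat_lit 0x10cd4d4b4eb17a960de6)) e e))))))
 (c z e
 (c z e
 (c z e
 (c z e
 (c z e
 (c z e
 (c z e
 (c (a (nat_lit 0xe2f30f4b413e88ba5)) e
 (c z e
 (c z e
 (c (a (nat_lit 0x11f85647a565e56603)) e
 (c (a (nat_lit 0x13d1a2804120418383)) e
 (c (a (nat_lit 0x15e684456465a3e003)) e e)))))))))))))))))))))
 (c z
 (c (a (nat_lit 0x3c3c3c3c3c3c3cd21)) e
 (c (a (nat_lit 0xcacacacacacac6d81)) e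
 (c (a (nat_lit 0x1414141415d14d343)) e
 (c (a (nat_lit 0x1a1a1a1adab499724)) e
 (c (a (nat_lit 0x121212c8b0d1c1044))
 (c z e
 (c z e
 (c z e
 (c z e
 (c z e
 (c (a (nat_lit 0x3a4250549080b66dae5)) e
 (c (a (nat_lit 0x3e464e7c563c4518e86)) e
 (c (a (nat_lit 0x6088aadc6a567ecd4a6)) e
 (c (a (nat_lit 0xd33d38ec753cf57c006)) e e)))))))))
 (c (a (nat_lit 0xc0c5c4a5cb9285e5))
 (c z e
 (c z e
 (c z e
 (c z e
 (c (a (nat_lit 0x46442c723e68d145d26)) e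
 (c z e
 (c (a (nat_lit 0x5c70847c241aa914686)) e e)))))))
 (c z e
 (c z e
 (c z e
 (c z e
 (c z e
 (c z e
 (c (a (nat_lit 0x1c56f4cd898a85a865)) e
 (c (a (nat_lit 0x183694fbd7b3ce3465)) e
 (c (a (nat_lit 0xccc5217fc95114c65)) e e)))))))))))))))
 (c z
 (c (a (nat_lit 0x1818181819a0b8d61)) e
 (c (a (nat_lit 0xa0a0a0ae4806b8e4)) e
 (c (a (nat_lit 0x2c2c2d4cb061ff183))
 (c z e
 (c z e
 (c z e
 (c z e
 (c z e
 (c z e
 (c z e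
 (c z e
 (c (a (nat_lit 0x5260529ea89ec6b7206)) e e)))))))))
 (c (a (nat_lit 0x1212c69cb15b56e64))
 (c z e
 (c z e
 (c z e
 (c z e
 (c (a (nat_lit 0x5a2c784e508ac4e5226)) e
 (c (a (nat_lit 0x43a4a42605c4efdec6)) e
 (c (a (nat_lit 0x30282e682868c123386)) e
 (c (a (nat_lit 0x866ed6387042cd48926)) e e))))))))
 (c z e
 (c z e
 (c z e
 (c z e
 (c z e
 (c z e
 (c z e
 (c (a (nat_lit 0xa8caf302fa9a94d85)) e
 (c (a (nat_lit 0xf3156db59d735c285)) e e)))))))))))))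
 (c z
 (c (a (nat_lit 0xc0c0f028e56f0b23)) e
 (c (a (nat_lit 0x28288a56345320c45))
 (c z e
 (c z e
 (c z e
 (c z e
 (c z e
 (c (a (nat_lit 0x482e3668444846996a7)) e
 (c (a (nat_lit 0x1c162e342414674ed27)) e
 (c (a (nat_lit 0x103884b46ac7e926e86)) e
 (c (a (nat_lit 0x766a967ca57af0ec927)) e e)))))))))
 (c z e
 (c z e
 (c z e
 (c z e
 (c z e
 (c z e
 (c z e
 (c (a (nat_lit 0x1872330e712d8c4e84)) e e))))))))))
 (c z
 (c z e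
 (c z e
 (c z e
 (c z e
 (c z e
 (c z e
 (c z e
 (c z e
 (c (a (nat_lit 0x1066b83a1b569435c3)) e
 (c (a (nat_lit 0x56c0fd08fce0d92e5)) e e))))))))))
 (c z
 (c z e
 (c z e
 (c z e
 (c z e
 (c z e
 (c z e
 (c z e
 (c (a (nat_lit 0xafdba6b504bad90a4)) e
 (c z e
 (c (a (nat_lit 0xa082d4e917190a386)) e e))))))))))
 (c z
 (c z e
 (c z e
 (c z e
 (c z e
 (c z e
 (c z e
 (c (a (nat_lit 0x119469ca90cf715244)) e e)))))))
 (c z
 (c z e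
 (c z e
 (c z e
 (c z e
 (c (a (nat_lit 0x104d0d0d8d48476425)) e
 (c (a (nat_lit 0xd0d2ccc4b6d8c5185)) e e))))))
 (c z
 (c z e
 (c (a (nat_lit 0x11cf8eb4309afa14a4)) e e))
 (c z
 (c z e
 (c z e
 (c z e
 (c (a (nat_lit 0x5ea0bc8884fd20725)) e e))))
 (c (a (nat_lit 0x80808080809502))
 (c z e
 (c (a (nat_lit 0x8f12d2902a3c54b84)) e e))
 (c (a (nat_lit 0xa0a0a0a0bd40a3)) e
 (c (a (nat_lit 0xc0c0c0d66240c3)) e
 (c (a (nat_lit 0x7a7a7b0ab222c22)) e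
 (c (a (nat_lit 0x12b2b20fced415a3)) e
 (c (a (nat_lit 0x8c806e6f436b524)) e
 (c (a (nat_lit 0x56100ad36aee0a2)) e
 (c z e
 (c (a (nat_lit 0x774fdd64aa725a2)) e
 (c (a (nat_lit 0x15deb72b8826af02)) e
 (c (a (nat_lit 0x1c3b4fac4ad32e02)) e
 (c (a (nat_lit 0x138644a32a856362)) e
 (c (a (nat_lit 0xf8eebfa500c14c1)) e
 (c (a (nat_lit 0x220afe5a0e8a001)) e e))))))))))))))))))))))))) Tr.c Tr.e (nat_lit 0) C.cx
noncomputable def C862 : Tr := beta% (fun (c : Nat → Tr → Tr → Tr) (e : Tr) (z : Nat) (a b : Nat → Nat) =>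
 (c z
 (c z
 (c z e
 (c z e
 (c z e
 (c z e
 (c z e
 (c z e
 (c z e
 (c z e
 (c z e
 (c z e
 (c z e
 (c z e
 (c z e
 (c (a (nat_lit 0x66888a90a29a889f907)) e
 (c (a (nat_lit 0x565a627476686e711a7)) e e)))))))))))))))
 (c (a (nat_lit 0x40404040404050c2))
 (c z e
 (c z e
 (c z e
 (c z e
 (c z e
 (c z e
 (c z e
 (c z e
 (c z e
 (c z e
 (c z e
 (c (a (nat_lit 0x86c2d2ff1b274eca806)) e e))))))))))))
 (c (a (nat_lit 0x20202020203d8763))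
 (c z e
 (c z e
 (c z e
 (c z e
 (c z e
 (c z e
 (c z e
 (c z e
 (c z e
 (c z e
 (c z e
 (c (a (nat_lit 0xcac0d8e2e6eb45067e7)) e e))))))))))))
 (c (a (nat_lit 0x12121212131076844)) e
 (c (a (nat_lit 0xe0e0e0eba6c41ca4)) e
 (c (a (nat_lit 0x12121310ae73b9de4))
 (c z e
 (c z e
 (c z e
 (c z e
 (c z e
 (c (a (nat_lit 0x564e7a8e8c6476a3526)) e
 (c z e
 (c (a (nat_lit 0xdf132eb4903874aa006)) e e))))))))
 (c (a (nat_lit 0xa0ab0142f1cb5105))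
 (c z e
 (c z e
 (c z e
 (c (a (nat_lit 0x3a4470662e1e50b93a6)) e
 (c (a (nat_lit 0x4266584626467e231c7)) e
 (c (a (nat_lit 0x9490825a4674833a486)) e e))))))
 (c z e
 (c z e
 (c z e
 (c z e
 (c z e
 (c z e
 (c (a (nat_lit 0x13afaf900b48850626)) e e))))))))))))))
 (c z
 (c (a (nat_lit 0x808080808097e961))
 (c z e
 (c z e
 (c z e
 (c z e
 (c z e
 (c z e
 (c z e
 (c z e
 (c z e
 (c z e
 (c z e
 (c z e
 (c z e
 (c (a (nat_lit 0x4a5c6c7474953a00007)) e e))))))))))))))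
 (c (a (nat_lit 0x2020202030c6e904)) e
 (c (a (nat_lit 0xe0e0e0eac2027564)) e
 (c (a (nat_lit 0xe0e0ed46239332a4))
 (c z e
 (c z e
 (c z e
 (c z e
 (c (a (nat_lit 0x6a5a4a84546c5cb5266)) e
 (c (a (nat_lit 0x20042c26262028955a6)) e
 (c (a (nat_lit 0x3a504c6e502c9a43286)) e
 (c (a (nat_lit 0x7252a0c846b460a1186)) e e))))))))
 (c (a (nat_lit 0x1e1f105a250959904)) e
 (c z e
 (c z e
 (c z e
 (c z e
 (c z e
 (c z e
 (c z e
 (c (a (nat_lit 0x16d5f8bcd6f0d01525)) e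
 (c (a (nat_lit 0xbae13f69634719385)) e
 (c (a (nat_lit 0x1f9cb7f3b267824503)) e e)))))))))))))))
 (c z
 (c (a (nat_lit 0x2020203606e993a3)) e
 (c (a (nat_lit 0x808089a1a225d745))
 (c z e
 (c z e
 (c z e
 (c z e
 (c z e
 (c z e
 (c (a (nat_lit 0x605c4278704440cdc26)) e
 (c (a (nat_lit 0x481e54aa4660ad45386)) e
 (c (a (nat_lit 0x5a62aec2c8baf877b46)) e e)))))))))
 (c (a (nat_lit 0xc0c84261838c9145))
 (c z e
 (c z e
 (c z e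
 (c z e
 (c z e
 (c z e
 (c z e
 (c (a (nat_lit 0x4c6cda445e5a4f2e6c6)) e e))))))))
 (c z e
 (c z e
 (c z e
 (c z e
 (c z e
 (c z e
 (c z e
 (c (a (nat_lit 0xd0f724ecc29876ee5)) e
 (c z e
 (c z e
 (c (a (nat_lit 0x16b48de5460407a0a3)) e e))))))))))))))
 (c z
 (c (a (nat_lit 0x2424760e0a297b144))
 (c z e
 (c z e
 (c z e
 (c z e
 (c z e
 (c (a (nat_lit 0x584a282e0c1c3041046)) e
 (c (a (nat_lit 0x602c2622242a5e81806)) e e)))))))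
 (c z e
 (c z e
 (c z e
 (c z e
 (c z e
 (c z e
 (c z e
 (c z e
 (c (b (nat_lit 0xca9f0fffff2721925)) e e))))))))))
 (c z
 (c z e
 (c z e
 (c z e
 (c z e
 (c z e
 (c z e
 (c z e
 (c (a (nat_lit 0x101293cc4cf4cf73a4)) e
 (c (a (nat_lit 0x6e9eb2edb98d97c25)) e e)))))))))
 (c z
 (c z e
 (c z e
 (c z e
 (c z e
 (c z e
 (c z e
 (c (a (nat_lit 0x1cc8b0a28f20d6fe4)) e e)))))))
 (c z
 (c z e
 (c z e
 (c z e
 (c z e
 (c z e
 (c (a (nat_lit 0x7165452b6f0b0b024)) e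
 (c z e
 (c z e
 (c z e
 (c (a (nat_lit 0x18e662c5e46c35e143)) e e))))))))))
 (c z e
 (c z e
 (c z e
 (c (a (nat_lit 0x404040404052a3)) e
 (c (a (nat_lit 0x8080808092e1e3)) e
 (c (a (nat_lit 0xc8c8c8c99d301c1)) e
 (c (a (nat_lit 0x15b5b5b412d1f343)) e
 (c (a (nat_lit 0xbcbc927e7e992c3)) e
 (c (a (nat_lit 0x4340e0e5981122)) e
 (c z e
 (c z e
 (c (a (nat_lit 0x4e7d0ad4542e523)) e
 (c (a (nat_lit 0xa12efa785476563)) e
 (c (a (nat_lit 0x10eda58345434463)) e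
 (c (a (nat_lit 0x17c5c30763256642)) e
 (c z e
 (c z e
 (c (a (nat_lit 0x3402041e0400001)) e e)))))))))))))))))))))))))) Tr.c Tr.e (nat_lit 0) C.cx C.cy
noncomputable def C863 : Tr := beta% (fun (c : Nat → Tr → Tr → Tr) (e : Tr) (z : Nat) (a : Nat → Nat) =>
 (c z
 (c z
 (c (a (nat_lit 0x1434343434343e6cda61)) e
 (c (a (nat_lit 0x5c5c5c5c5cc260a37e4)) e
 (c (a (nat_lit 0x26262626522038ef7a5)) e
 (c (a (nat_lit 0x2e2e2e44203294e3145)) e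
 (c (a (nat_lit 0x5c5c905c66cd7793924)) e e)))))
 (c z
 (c (a (nat_lit 0x5e5e5e5e946e9987b84)) e
 (c (a (nat_lit 0x2a2a2a5a2e48f536ee6)) e
 (c (a (nat_lit 0x2a2a503240b10310a66)) e e)))
 (c z
 (c (a (nat_lit 0x2a2a5a2a3b3d54eca25)) e
 (c z e
 (c z e
 (c z e
 (c z e
 (c z e
 (c z e
 (c z e
 (c z e
 (c z e
 (c z e
 (c (a (nat_lit 0x5a86c08880624433525)) e
 (c (a (nat_lit 0xa2bcd2d4f8faeee5027)) e e)))))))))))))
 (c z
 (c z e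
 (c z e
 (c z e
 (c z e
 (c z e
 (c z e
 (c z e
 (c z e
 (c z e
 (c z e
 (c (a (nat_lit 0x7496c6946a64670f465)) e e)))))))))))
 (c z
 (c z e
 (c z e
 (c z e
 (c z e
 (c z e
 (c z e
 (c z e
 (c z e
 (c z e
 (c (a (nat_lit 0xf3132b2f14f7d37b145)) e
 (c (a (nat_lit 0xfb13331f25211d26d67)) e e)))))))))))
 (c (a (nat_lit 0x424242424242430e3)) e
 (c (a (nat_lit 0x6464646464652eb03)) e
 (c (a (nat_lit 0x4444444445f34eae3))
 (c z e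
 (c z e
 (c z e
 (c z e
 (c z e
 (c z e
 (c (a (nat_lit 0x4058549c9c1c44438c6)) e e)))))))
 (c (a (nat_lit 0x20202021dc7e94da4))
 (c z e
 (c z e
 (c z e
 (c z e
 (c (a (nat_lit 0x2a2c2e1a24441835807)) e
 (c (a (nat_lit 0x56627e70604c5cf5407)) e e))))))
 (c (a (nat_lit 0x2424259062388aae4))
 (c z e
 (c z e
 (c (a (nat_lit 0x7878825a584e446d2a6)) e
 (c (a (nat_lit 0x72726436463e61b79a6)) e
 (c (a (nat_lit 0x82c2924a32614b7de06)) e e)))))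
 (c (a (nat_lit 0x56573ea87f3586a83))
 (c z e
 (c (a (nat_lit 0x34321e22241a183b467)) e
 (c (a (nat_lit 0x241a1a261e1638c1147)) e
 (c (a (nat_lit 0x82763814104b57784e6)) e e))))
 (c z e
 (c z e
 (c z e
 (c z e
 (c z e
 (c z e
 (c (a (nat_lit 0x16e161416141a30ac3)) e e))))))))))))))))))
 (c z
 (c z
 (c (a (nat_lit 0x808080448e97217d523)) e
 (c (a (nat_lit 0x36362c3248db311a9c5)) e
 (c z e
 (c z e
 (c z e
 (c z e
 (c z e
 (c z e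
 (c z e
 (c z e
 (c z e
 (c z e
 (c (a (nat_lit 0x705e64626a74606d285)) e e)))))))))))))
 (c z
 (c z e
 (c z e
 (c z e
 (c z e
 (c z e
 (c z e
 (c z e
 (c z e
 (c z e
 (c z e
 (c z e
 (c (a (nat_lit 0x525e666e5e5c5ce70e6)) e e))))))))))))
 (c z
 (c z e
 (c z e
 (c z e
 (c z e
 (c z e
 (c z e
 (c z e
 (c z e
 (c z e
 (c z e
 (c (a (nat_lit 0x868a7e82648128ff1a6)) e
 (c (a (nat_lit 0xb2d0d4e70cfaf2fed87)) e e))))))))))))
 (c (a (nat_lit 0x80808080808098a3))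
 (c z e
 (c z e
 (c z e
 (c z e
 (c z e
 (c z e
 (c z e
 (c z e
 (c z e
 (c z e
 (c z e
 (c z e
 (c (a (nat_lit 0x606a7e9eac8e75a8007)) e e)))))))))))))
 (c (a (nat_lit 0x222222222223bc523)) e
 (c (a (nat_lit 0x2424242425d11ec43)) e
 (c (a (nat_lit 0x14141415029654d64))
 (c z e
 (c z e
 (c z e
 (c z e
 (c z e
 (c (a (nat_lit 0x424a6c364e2e3067826)) e
 (c z e
 (c (a (nat_lit 0x12d6b719d3b0ca0d3166)) e e))))))))
 (c (a (nat_lit 0xe0e0ffc769973064))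
 (c z e
 (c z e
 (c z e
 (c z e
 (c (a (nat_lit 0x3a96645454463b5eac6)) e
 (c (a (nat_lit 0x7104dee4725efee5fa6)) e e))))))
 (c (a (nat_lit 0x121378382d24daea4))
 (c z e
 (c z e
 (c (a (nat_lit 0x5a44422828241c9d966)) e
 (c (a (nat_lit 0x84763c1a423f30b5946)) e
 (c (a (nat_lit 0xd6c490243c9c43e42c6)) e e)))))
 (c z e
 (c z e
 (c z e
 (c z e
 (c z e
 (c (a (nat_lit 0x11f2b04fd10d0905c6)) e e)))))))))))))))
 C862))) Tr.c Tr.e (nat_lit 0) C.cx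
noncomputable def C864 : Tr := beta% (fun (c : Nat → Tr → Tr → Tr) (e : Tr) (z : Nat) (a : Nat → Nat) =>
 (c z
 (c z
 (c z
 (c z e
 (c z e
 (c (a (nat_lit 0x92929292929293bab01)) e
 (c (a (nat_lit 0x5e5e5e5e5e5f225e702)) e
 (c (a (nat_lit 0x6c6c6c6c6ca04a5b022)) e
 (c (a (nat_lit 0x4a4a4a4a803a5461703)) e
 (c z e
 (c z e
 (c z e
 (c z e
 (c z e
 (c z e
 (c z e
 (c z e
 (c z e
 (c z e
 (c (a (nat_lit 0xfcfd09090117150f246)) e e)))))))))))))))))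
 (c z
 (c z e
 (c (a (nat_lit 0x7a7a7a7a7a7b0486f03)) e
 (c (a (nat_lit 0x4444444444963065ae4)) e
 (c (a (nat_lit 0x4a4a4a4a50224ad5a04)) e
 (c (a (nat_lit 0x4a4a4a66385c79ab7c4)) e
 (c (a (nat_lit 0x3a3a6a3a343f18c21e5)) e
 (c z e
 (c z e
 (c z e
 (c z e
 (c z e
 (c z e
 (c z e
 (c z e
 (c (a (nat_lit 0x104fd20ff0733251f546)) e
 (c (a (nat_lit 0x11b334347637b7573847)) e e))))))))))))))))
 (c z
 (c (a (nat_lit 0x4c4c4c4c4c384c5b343)) e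
 (c (a (nat_lit 0x2222222246162aed125)) e
 (c (a (nat_lit 0x2424243e2026a0fb025)) e
 (c (a (nat_lit 0x4e4ea04668f1fde4fe4)) e
 (c z e
 (c z e
 (c z e
 (c z e
 (c z e
 (c z e
 (c z e
 (c z e
 (c z e
 (c (a (nat_lit 0xc6e6eeff1b3331254a6)) e e))))))))))))))
 (c z
 (c (a (nat_lit 0x2224247420315d3aee4)) e
 (c (a (nat_lit 0x2424481e28fafd04985)) e e))
 (c z e
 (c z e
 (c z
 (c z e
 (c z e
 (c z e
 (c z e
 (c z e
 (c z e
 (c z e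
 (c z e
 (c z e
 (c z e
 (c z e
 (c (a (nat_lit 0x1650f03213ccaea448e5)) e e))))))))))))
 (c (a (nat_lit 0xaeaeaeaeaeaeaeaa1)) e
 (c (a (nat_lit 0xaeaeaeaeaeafc9ec1)) e
 (c (a (nat_lit 0x2424242425d640103)) e
 (c (a (nat_lit 0x2e2e2e2f668810423)) e
 (c (a (nat_lit 0x606061593432ba522))
 (c z e
 (c (a (nat_lit 0xccc4ba8a9088908bb05)) e
 (c (a (nat_lit 0x2e120a1812260c1b086)) e
 (c (a (nat_lit 0x343e44241c1832d72a6)) e
 (c (a (nat_lit 0xe6deaa9064316ebe006)) e e)))))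
 (c z e
 (c z e
 (c z e
 (c z e
 (c z e
 (c z e
 (c (a (nat_lit 0x15f10423a060c2a1c2)) e e)))))))))))))))))))
 C863)
 (c z
 (c z
 (c z
 (c (a (nat_lit 0xb2b2b2b2b33aae9dae1)) e
 (c (a (nat_lit 0x6c6c6c6cce728591803)) e
 (c (a (nat_lit 0x242424402c28c15d144)) e
 (c (a (nat_lit 0x6262ac6c63375182ec3)) e e))))
 (c z
 (c (a (nat_lit 0x4646466a4a5d171cbe4)) e
 (c (a (nat_lit 0x32325446570f9921005)) e
 (c z e
 (c z e
 (c z e
 (c z e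
 (c z e
 (c z e
 (c z e
 (c z e
 (c z e
 (c z e
 (c (a (nat_lit 0x84a0bc7e7898808d205)) e
 (c z e
 (c (a (nat_lit 0x10b214d778f937975646)) e e)))))))))))))))
 (c z
 (c z e
 (c z e
 (c z e
 (c z e
 (c z e
 (c z e
 (c z e
 (c z e
 (c z e
 (c z e
 (c z e
 (c z e
 (c (a (nat_lit 0x92acaadef4eef507366)) e e)))))))))))))
 (c z
 (c z e
 (c z e
 (c z e
 (c z e
 (c z e
 (c z e
 (c z e
 (c z e
 (c z e
 (c z e
 (c z e
 (c z e
 (c z e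
 (c (a (nat_lit 0x4e5c6c7276605c71027)) e e))))))))))))))
 (c (a (nat_lit 0x4c4c4c4c4c4c4dd61))
 (c z e
 (c z e
 (c z e
 (c z e
 (c z e
 (c z e
 (c z e
 (c z e
 (c z e
 (c z e
 (c z e
 (c z e
 (c (a (nat_lit 0x5e6a58666a506f12007)) e e)))))))))))))
 (c (a (nat_lit 0x4e4e4e4e4e4f0c142)) e
 (c (a (nat_lit 0x2a2a2a2a2b951d223)) e
 (c z e
 (c (a (nat_lit 0x2c2c2df4d8f378c83))
 (c z e
 (c z e
 (c z e
 (c z e
 (c (a (nat_lit 0x444618342e4c5de8826)) e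
 (c (a (nat_lit 0x68825e527464b3a69c6)) e e))))))
 (c (a (nat_lit 0x3435f282812d1e823)) e
 (c z e
 (c z e
 (c z e
 (c z e
 (c z e
 (c (a (nat_lit 0x143432d3d4310e4925)) e
 (c (a (nat_lit 0x1bb8bb1312906e0a64)) e e)))))))))))))))))
 C861)
 (c z
 (c z
 (c z
 (c (a (nat_lit 0x8862a290c702b8eb1e2)) e e)
 (c z
 (c (a (nat_lit 0x3446c38b36f0f52eea4)) e
 (c z e
 (c z e
 (c z e
 (c (a (nat_lit 0x68767a6e5472846b246)) e
 (c z e
 (c z e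
 (c z e
 (c z e
 (c z e
 (c z e
 (c z e
 (c z e
 (c z e
 (c (a (nat_lit 0xbacee0e8fb06bfde006)) e e)))))))))))))))
 (c (a (nat_lit 0x5a5a5a5a5a5a28a81)) e
 (c (a (nat_lit 0x5454545455cadee62))
 (c z e
 (c z e
 (c z e
 (c z e
 (c (a (nat_lit 0x607eac6c8673b4504a6)) e e)))))
 (c (a (nat_lit 0x3434343500eb075c3)) e
 (c z e
 (c z e
 (c (a (nat_lit 0x30b28ca0f506b2244)) e
 (c z e
 (c z e
 (c z e
 (c z e
 (c (a (nat_lit 0x1ab577b86d256409a3)) e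
 (c (a (nat_lit 0x18793c518c4b2be5c4)) e
 (c (a (nat_lit 0x1b1b79de5a1b59afa4)) e
 (c (a (nat_lit 0x11ee52b89df8118de4)) e e))))))))))))))))
 C860)
 C859)))) Tr.c Tr.e (nat_lit 0) C.cx
noncomputable def C865 : Tr := beta% (fun (c : Nat → Tr → Tr → Tr) (e : Tr) (z : Nat) (a : Nat → Nat) =>
 (c z
 (c z
 (c (a (nat_lit 0x5c7e5c5d2cdaeab70a3)) e e)
 (c z
 (c z e
 (c z e
 (c z e
 (c z e
 (c z e
 (c z e
 (c z e
 (c z e
 (c z e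
 (c z e
 (c z e
 (c z e
 (c z e
 (c (a (nat_lit 0x80a8b2cce8d6f3299e6)) e e))))))))))))))
 (c (a (nat_lit 0x24242424242425e62)) e
 (c (a (nat_lit 0x868686868687d8d61)) e
 (c z e
 (c (a (nat_lit 0x28282828d04c5f543)) e
 (c (a (nat_lit 0x101010fe18351c624))
 (c z e
 (c z e
 (c z e
 (c z e
 (c (a (nat_lit 0x525e70641c2659025c6)) e e)))))
 (c (a (nat_lit 0x1212c012170276c84)) e
 (c (a (nat_lit 0x1658141f0a86a42e4)) e
 (c z e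
 (c z e
 (c z e
 (c (a (nat_lit 0x102cf04cec2941c285)) e e)))))))))))))
 (c z
 (c (a (nat_lit 0x6060608080808fc1))
 (c z e
 (c z e
 (c z e
 (c z e
 (c z e
 (c z e
 (c z e
 (c z e
 (c z e
 (c z e
 (c z e
 (c z e
 (c z e
 (c (a (nat_lit 0x3e4e646a6a74a31e006)) e e))))))))))))))
 (c (a (nat_lit 0xc0c0c0e0e0f7e9c2))
 (c z e
 (c z e
 (c z e
 (c z e
 (c z e
 (c z e
 (c z e
 (c z e
 (c z e
 (c z e
 (c z e
 (c z e
 (c (a (nat_lit 0x444c6266688d3000007)) e e)))))))))))))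
 (c (a (nat_lit 0x3636363636e65c881)) e
 (c (a (nat_lit 0x121212124e141f723)) e
 (c (a (nat_lit 0x4e4e4ed00e31432c3)) e
 (c (a (nat_lit 0xa0a660a1f0423304)) e
 (c z e
 (c z e
 (c z e
 (c z e
 (c z e
 (c z e
 (c z e
 (c (a (nat_lit 0x11d252130d29a9fc24)) e e))))))))))))))
 (c z
 (c (a (nat_lit 0x6060606072096a02))
 (c z e
 (c z e
 (c z e
 (c z e
 (c z e
 (c z e
 (c z e
 (c z e
 (c z e
 (c z e
 (c z e
 (c (a (nat_lit 0x4662626e7035c45c006)) e e))))))))))))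
 (c (a (nat_lit 0x7272727388c8e12e2)) e
 (c (a (nat_lit 0x121212840c2a43b43)) e
 (c (a (nat_lit 0x1818280a1406fbc04))
 (c z e
 (c z e
 (c z e
 (c z e
 (c (a (nat_lit 0x3a225cb46a4689eee85)) e e)))))
 (c z e
 (c z e
 (c z e
 (c z e
 (c z e
 (c z e
 (c z e
 (c (a (nat_lit 0x16fa961c32904c7de4)) e
 (c (a (nat_lit 0x8e48ab49ad6d9bd24)) e e)))))))))))))
 (c z
 (c (a (nat_lit 0x4e4e4e242e3609763)) e
 (c (a (nat_lit 0x5858223440130eb04)) e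
 (c z e
 (c z e
 (c z e
 (c (a (nat_lit 0x102f28524b5097163)) e
 (c z e
 (c z e
 (c z e
 (c (a (nat_lit 0xed8b02f88496a1904)) e
 (c (a (nat_lit 0x6622808ad2d4e7065)) e
 (c z e
 (c (a (nat_lit 0x12250081056403a383)) e e)))))))))))))
 (c z
 (c (a (nat_lit 0x5e1a364a08a087b63)) e
 (c z e
 (c z e
 (c (a (nat_lit 0x201e3a3ae308cc944)) e
 (c z e
 (c z e
 (c z e
 (c (a (nat_lit 0xb95ed0a472344a7c4)) e
 (c (a (nat_lit 0x9a567888b0dedb025)) e e)))))))))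
 (c z
 (c z e
 (c z e
 (c z e
 (c z e
 (c z e
 (c (a (nat_lit 0xa5477b686918e4f23)) e
 (c (a (nat_lit 0x14565b2d5633d7b6e3)) e
 (c (a (nat_lit 0x5a7470dcdb0d01045)) e e))))))))
 (c z
 (c z e
 (c z e
 (c z e
 (c z e
 (c z e
 (c (a (nat_lit 0xc8c30511534d69683)) e e))))))
 (c z
 (c z e
 (c z e
 (c z e
 (c z e
 (c z e
 (c (a (nat_lit 0x8b04f8ece50514e05)) e
 (c z e
 (c (a (nat_lit 0x1a5896b9fd134c09c4)) e e))))))))
 (c z
 (c z e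
 (c z e
 (c z e
 (c z e
 (c (a (nat_lit 0x1271b1d090700f2c85)) e e)))))
 (c z e
 (c z
 (c z e
 (c z e
 (c z e
 (c z e
 (c (a (nat_lit 0x82042436525247004)) e e)))))
 (c (a (nat_lit 0x1e1e1e1e1e1e3a1))
 (c z e
 (c (a (nat_lit 0x184f88ca0a8b0d7084)) e
 (c z e
 (c (a (nat_lit 0x22a301c445904004)) e e))))
 (c (a (nat_lit 0x484848484874761))
 (c (a (nat_lit 0x110424e8690f96b763)) e e)
 (c (a (nat_lit 0x808080800c1e021)) e
 (c (a (nat_lit 0x15b5b5ac6d8d8bc1)) e e)))))))))))))))) Tr.c Tr.e (nat_lit 0) C.cx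
noncomputable def C866 : Tr := beta% (fun (c : Nat → Tr → Tr → Tr) (e : Tr) (z : Nat) (a : Nat → Nat) =>
 (c z
 (c z
 (c z e
 (c z e
 (c z e
 (c (a (nat_lit 0x7c7e7e7e7e7e7f805c2)) e
 (c z e
 (c (a (nat_lit 0xb2b2b2b2b2ce7697042)) e
 (c (a (nat_lit 0x464646465830223f4c4)) e
 (c z e
 (c z e
 (c z e
 (c z e
 (c z e
 (c z e
 (c z e
 (c z e
 (c (a (nat_lit 0x11d3138fae8744a3ee24)) e
 (c z e
 (c (a (nat_lit 0xd0cee0e8f7050b07326)) e e))))))))))))))))))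
 (c z
 (c (a (nat_lit 0xb8b8b8b8b8b8b8b93c2)) e
 (c (a (nat_lit 0xe0e0e0e0e0e0e1dd1a2)) e
 (c (a (nat_lit 0x6c6e6e6e6e6f3c4a863)) e
 (c (a (nat_lit 0x444444444442222f4e4)) e
 (c (a (nat_lit 0x4646464666383cb3a04)) e
 (c (a (nat_lit 0x3e3e3e58362e553cb05)) e
 (c z e
 (c z e
 (c z e
 (c z e
 (c z e
 (c z e
 (c z e
 (c z e
 (c (a (nat_lit 0x1495355534f5b59456c6)) e
 (c z e
 (c (a (nat_lit 0x9eb0c6e4e8fcfefb0e7)) e e)))))))))))))))))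
 (c z
 (c z e
 (c (a (nat_lit 0x1e1e1e1e1e461425045)) e
 (c (a (nat_lit 0x3a3a3a3a4c303ba3ea4)) e
 (c (a (nat_lit 0x222222482430911ef65)) e
 (c (a (nat_lit 0x323248363a911aa8245)) e
 (c z e
 (c z e
 (c z e
 (c z e
 (c z e
 (c z e
 (c z e
 (c z e
 (c (a (nat_lit 0x1192349375f69615b7a6)) e
 (c (a (nat_lit 0xb8cedef301070305127)) e e)))))))))))))))
 (c z
 (c (a (nat_lit 0x202020208c1a215d044)) e
 (c (a (nat_lit 0x202020581c1d1abb125)) e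
 (c (a (nat_lit 0x4242ee7a91d7d7e6ce4)) e e)))
 (c z
 (c (a (nat_lit 0x3e3e5e3e43fee573043)) e e)
 (c z e
 (c z
 (c z e
 (c z e
 (c z e
 (c z e
 (c z e
 (c z e
 (c z e
 (c z e
 (c z e
 (c z e
 (c z e
 (c (a (nat_lit 0x1cb876d374d1eb6be725)) e e))))))))))))
 (c z
 (c z e
 (c z e
 (c z e
 (c z e
 (c z e
 (c z e
 (c z e
 (c z e
 (c z e
 (c z e
 (c (a (nat_lit 0x102eabca4bea0ae78606)) e e)))))))))))
 (c (a (nat_lit 0xbcbcbcbcbcbcbca01)) e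
 (c (a (nat_lit 0x24242424242534263)) e
 (c (a (nat_lit 0x2e2e2e2e2f5646043)) e
 (c z e
 (c (a (nat_lit 0x58585990542efed22))
 (c (a (nat_lit 0x302e2c36383226131e5)) e
 (c (a (nat_lit 0x1a04140c12240e53286)) e e))
 (c (a (nat_lit 0x30313830067aa0043)) e
 (c z e
 (c z e
 (c z e
 (c (a (nat_lit 0xc0fd0519110eca9c5)) e e))))))))))))))))))
 (c z
 (c z
 (c (a (nat_lit 0x76767676767677247e2)) e
 (c (a (nat_lit 0x6262626262632288a83)) e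
 (c (a (nat_lit 0x202020202074222b244)) e
 (c (a (nat_lit 0x62626262e85a59ef8a3)) e
 (c (a (nat_lit 0x363636683a2cace50e4)) e
 (c z e
 (c z e
 (c z e
 (c z e
 (c z e
 (c z e
 (c z e
 (c z e
 (c z e
 (c z e
 (c (a (nat_lit 0xe2ff17172321211f406)) e e))))))))))))))))
 (c z
 (c (a (nat_lit 0x2a2a2a2a2a4e3449004)) e
 (c (a (nat_lit 0x24242424622e451b545)) e
 (c (a (nat_lit 0x202020482834f31ee85)) e
 (c (a (nat_lit 0x26265c363eaf1904c25)) e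
 (c z e
 (c z e
 (c z e
 (c z e
 (c z e
 (c z e
 (c z e
 (c z e
 (c z e
 (c z e
 (c z e
 (c (a (nat_lit 0xd6f90b35637f7551346)) e e))))))))))))))))
 (c z
 (c (a (nat_lit 0x2828286e24334f5b264)) e
 (c (a (nat_lit 0x2e2e5a2c2d20f348f65)) e e))
 (c z e
 (c z
 (c z e
 (c z e
 (c z e
 (c z e
 (c z e
 (c z e
 (c z e
 (c z e
 (c z e
 (c z e
 (c z e
 (c (a (nat_lit 0x15f6b9379856b4533026)) e e))))))))))))
 (c z
 (c z e
 (c z e
 (c z e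
 (c z e
 (c z e
 (c z e
 (c z e
 (c z e
 (c z e
 (c (a (nat_lit 0x16b7fd5b3879787b28a5)) e e))))))))))
 (c (a (nat_lit 0x42424242424243002))
 (c z e
 (c z e
 (c z e
 (c z e
 (c z e
 (c z e
 (c z e
 (c z e
 (c (a (nat_lit 0x15fbf85719179c6585c5)) e e)))))))))
 (c (a (nat_lit 0x949494969697f0501)) e
 (c (a (nat_lit 0x2222222223f464723)) e
 (c (a (nat_lit 0x26262627b82e32e03))
 (c z e
 (c z e
 (c z e
 (c z e
 (c (a (nat_lit 0x5c608e74403e4a994c6)) e e)))))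
 (c (a (nat_lit 0x5454553e2c75eb6a2))
 (c z e
 (c z e
 (c z e
 (c (a (nat_lit 0x7adaa06242527fdb1a5)) e
 (c (a (nat_lit 0xc4ac367072136f02005)) e e)))))
 (c (a (nat_lit 0x3030e42a3110fa503))
 (c (a (nat_lit 0x3a20383a383e26917c5)) e
 (c (a (nat_lit 0x60e1826362650cd3e6)) e
 (c (a (nat_lit 0x9e804462345fb496325)) e e)))
 (c z e
 (c z e
 (c z e
 (c z e
 (c (a (nat_lit 0x1cde1d9adb336e4a24)) e
 (c (a (nat_lit 0x171105e243a64a0a02)) e e))))))))))))))))))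
 (c z
 (c z
 (c (a (nat_lit 0x484848482e5054c5183)) e
 (c (a (nat_lit 0x3c3c3c463e510f84ee4)) e
 (c (a (nat_lit 0x30302e343ef57cfada4)) e e)))
 (c z
 (c (a (nat_lit 0x42426c40513f5f22c04)) e e)
 (c z e
 (c z
 (c z e
 (c z e
 (c z e
 (c z e
 (c z e
 (c z e
 (c z e
 (c z e
 (c z e
 (c z e
 (c z e
 (c z e
 (c (a (nat_lit 0x8ca69aa8dedcb89d726)) e e)))))))))))))
 (c (a (nat_lit 0x62626262626263de1)) e
 (c z e
 (c z e
 (c (a (nat_lit 0x181a1a1be064bfbc3)) e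
 (c (a (nat_lit 0x2020216c104f7b2e3)) e
 (c (a (nat_lit 0x26269e124f895a323)) e
 (c z e
 (c z e
 (c z e
 (c (a (nat_lit 0xf7cdd189816d002c4)) e
 (c (a (nat_lit 0x11f1d00fce6f6ae4c5)) e
 (c (a (nat_lit 0x131130f02c69270685)) e e))))))))))))))))
 C865)))) Tr.c Tr.e (nat_lit 0) C.cx
noncomputable def C867 : Tr := beta% (fun (c : Nat → Tr → Tr → Tr) (e : Tr) (z : Nat) (a b : Nat → Nat) =>
 (c z
 (c z e
 (c z e
 (c z
 (c z e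
 (c z e
 (c z e
 (c z e
 (c z e
 (c z e
 (c z e
 (c z e
 (c z e
 (c z e
 (c (a (nat_lit 0x50368a7666ca955a4)) e e)))))))))))
 (c z e
 (c (a (nat_lit 0x80808080809642))
 (c z e
 (c z e
 (c z e
 (c z e
 (c z e
 (c z e
 (c (a (nat_lit 0x1325e848c829cf9c63)) e
 (c z e
 (c (a (nat_lit 0xa6c8cef111adc8004)) e e)))))))))
 (c (a (nat_lit 0x16161616171e243)) e
 (c (a (nat_lit 0xe0e0e0f1828322)) e
 (c (a (nat_lit 0x3232332c5857862))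
 (c z e
 (c (a (nat_lit 0x20488c68287a23344)) e e))
 (c (a (nat_lit 0x20380361d5b462))
 (c z e
 (c (a (nat_lit 0x96a4a4a66b6c50ba4)) e e))
 (c (a (nat_lit 0x17c26234f397c2)) e
 (c (a (nat_lit 0x883226f2e708823)) e
 (c z e
 (c (a (nat_lit 0x532b2144bebc063)) e
 (c (a (nat_lit 0x1331f645a584a7c2)) e
 (c (a (nat_lit 0xf33a2c281a4a122)) e
 (c (a (nat_lit 0x1726660588850322)) e e))))))))))))))))
 (c z
 (c z e
 (c z e
 (c z e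
 (c (a (nat_lit 0xa0a0a0a0a13a821)) e
 (c (a (nat_lit 0x6060607f208001)) e
 (c z e
 (c z e
 (c (a (nat_lit 0x30665e2078ca461)) e
 (c (a (nat_lit 0x82968cacd2f53a2)) e
 (c (a (nat_lit 0x787703294d8f8c2)) e
 (c (a (nat_lit 0x9b7d678bcfcd9a2)) e
 (c (a (nat_lit 0x18d779be1e050682)) e
 (c z e
 (c z e
 (c z e
 (c (a (nat_lit 0xe88a94323004021)) e e))))))))))))))))
 (c z
 (c z e
 (c z e
 (c (a (nat_lit 0x8c8c8c8d3a606c1)) e
 (c (a (nat_lit 0xc0c0d1608101a2)) e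
 (c (a (nat_lit 0x26262a16383f1e1)) e
 (c (a (nat_lit 0x3c34424a56773e1)) e
 (c (a (nat_lit 0x684c264f070ae41)) e
 (c (a (nat_lit 0x8e949cf55d43402)) e
 (c (a (nat_lit 0x7f334bb39996082)) e
 (c z e
 (c (a (nat_lit 0x19ff1edec5e32022)) e
 (c (a (nat_lit 0x1393330ce5812021)) e
 (c (a (nat_lit 0x14b46b26e3a32281)) e
 (c (a (nat_lit 0x14eb876403a30541)) e e))))))))))))))
 (c z
 (c z e
 (c (a (nat_lit 0xd8d8d94a72a03e1))
 (c z e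
 (c z e
 (c z e
 (c z e
 (c z e
 (c (a (nat_lit 0x7cdcc050f093b3664)) e e))))))
 (c (a (nat_lit 0x30311e0c26090e2)) e
 (c (a (nat_lit 0x321a0a2e0b34862)) e
 (c (a (nat_lit 0x6c6e74632ee1262)) e
 (c (a (nat_lit 0x7c6cb180d717142)) e
 (c (a (nat_lit 0x6097651b5d5a302)) e
 (c (a (nat_lit 0xb51efb1d1a10203)) e
 (c (b (nat_lit 0x116f31311fe02063)) e
 (c (a (nat_lit 0x13151503c4042403)) e
 (c (a (nat_lit 0x1a39e04164244041)) e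
 (c (a (nat_lit 0x1b0161a4648183c1)) e e))))))))))))
 (c z
 (c (a (nat_lit 0x10b0ad8fcf90ff82))
 (c z e
 (c z e
 (c z e
 (c (a (nat_lit 0x3a5a6ab4466065b44)) e
 (c (a (nat_lit 0x7686cc827879ea8a4)) e
 (c (a (nat_lit 0x66964a945ff152784)) e e))))))
 (c (a (nat_lit 0x180c0a024516722))
 (c z e
 (c z e
 (c (a (nat_lit 0x2c2c8234068de7604)) e
 (c (a (nat_lit 0x54685a3c7b46a25c5)) e
 (c (a (nat_lit 0x2e1e244508f67c345)) e e)))))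
 (c (a (nat_lit 0x20c10493e186a2))
 (c z e
 (c (a (nat_lit 0x32481c387b88dca64)) e e))
 (c z e
 (c (a (nat_lit 0x92b5189ac0c0b83))
 (c z e
 (c (a (nat_lit 0x86fb0ee68c0000005)) e e))
 (c (a (nat_lit 0xb79adb2f2c62622))
 (c (a (nat_lit 0x16390d070000000004)) e e)
 (c (a (nat_lit 0x1fd6dbfbe1a100a2)) e
 (c (a (nat_lit 0x1456f6f347e7e7e3)) e
 (c (a (nat_lit 0x1535319171717c23)) e
 (c (a (nat_lit 0x1647a5c6864647a1)) e e))))))))))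
 (c z
 (c (a (nat_lit 0xd68c86daaeea281)) e
 (c (a (nat_lit 0x11d31c9b93264641)) e
 (c (a (nat_lit 0xef8cbafc4027261))
 (c z e
 (c (a (nat_lit 0x3c59cf4c5e3602004)) e e))
 (c (a (nat_lit 0x1810e20140d21221)) e
 (c (a (nat_lit 0x138c4c0f26096c01)) e
 (c (a (nat_lit 0x1514f68446070742)) e
 (c (a (nat_lit 0x1152f27394143dc3)) e
 (c (a (nat_lit 0xbcb36f7d816b6a3)) e e))))))))
 (c z
 (c z e
 (c (a (nat_lit 0x1b4e46a6c53935a1)) e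
 (c z e
 (c (a (nat_lit 0x16c2c28694b2c61)) e
 (c (a (nat_lit 0xa7a5a626e7b822)) e
 (c (a (nat_lit 0x7a5bbbcfddbdba2)) e
 (c (a (nat_lit 0x71cfe7f7d3cde02)) e e)))))))
 (c z
 (c z e
 (c (a (nat_lit 0x867cfb41171d1e2)) e
 (c (a (nat_lit 0xa94d0b8c4db0a1)) e
 (c z e
 (c (a (nat_lit 0x5aff070cf6fcf63)) e
 (c (a (nat_lit 0x1373f4731332d2e3)) e e))))))
 (c z
 (c z e
 (c (a (nat_lit 0x70cf2d475504f01)) e
 (c (a (nat_lit 0x4d596d754b47442)) e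
 (c (a (nat_lit 0x1b7c3d1afaba7ac2)) e
 (c (a (nat_lit 0x1070cfaf8f4f8d63)) e
 (c z e
 (c z e
 (c z e
 (c z e
 (c (a (nat_lit 0xf5bae0000000001)) e e))))))))))
 (c z
 (c z e
 (c (a (nat_lit 0x1111d211b1b15123)) e
 (c (a (nat_lit 0x1292d2d2f2722d63)) e
 (c (a (nat_lit 0x18981857770c6b82)) e e))))
 (c z
 (c z e
 (c (a (nat_lit 0x1272327212098923)) e
 (c z e
 (c (a (nat_lit 0x102fc260a0604561)) e
 (c (a (nat_lit 0x1163c262220721e1)) e e)))))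
 (c z
 (c z e
 (c (a (nat_lit 0x1cd1ab67e86908e2)) e
 (c (a (nat_lit 0x1733f272b2b2b2a3)) e
 (c (a (nat_lit 0x7e181a1c1a18001)) e e))))
 (c z e
 (c z e
 (c z e
 (c (a (nat_lit 0x30303030307e1)) e
 (c (a (nat_lit 0x1c1c1c1c6a341)) e
 (c (a (nat_lit 0x1a1a1a6832241)) e
 (c (a (nat_lit 0x1a1a683224321)) e
 (c (a (nat_lit 0x1866302230181)) e
 (c (a (nat_lit 0x602a1c2c0e0e1)) e
 (c z e
 (c (a (nat_lit 0xc1c040804041)) e
 (c (a (nat_lit 0x1a00060404021)) e e))))))))))))))))))))))))) Tr.c Tr.e (nat_lit 0) C.cx C.cy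
noncomputable def C868 : Tr := beta% (fun (c : Nat → Tr → Tr → Tr) (e : Tr) (z : Nat) (a : Nat → Nat) =>
 (c z
 (c z
 (c z e
 (c z
 (c (a (nat_lit 0x764646bda33b171b242)) e e) e))
 (c z
 (c (a (nat_lit 0x18181818181818a81)) e
 (c z e
 (c (a (nat_lit 0x2e2e2e2e2fc0b4bc2)) e
 (c (a (nat_lit 0x20202020d8d0dd7e2)) e
 (c z e
 (c (a (nat_lit 0xc0c523a50a178723)) e
 (c (a (nat_lit 0xe5a2c38bfbee6583)) e
 (c z e
 (c z e
 (c z e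
 (c z e
 (c z e
 (c (a (nat_lit 0x106ccd476787c64904)) e
 (c (a (nat_lit 0x147471dd9dbc5d7363)) e
 (c (a (nat_lit 0xf8cd7d7f6b56f8c03)) e e)))))))))))))))
 (c z
 (c z e
 (c (a (nat_lit 0xa0a0a0ac05653383)) e
 (c (a (nat_lit 0xc0e0ec8a4a38a9e2)) e
 (c z e
 (c z e
 (c z e
 (c z e
 (c z e
 (c z e
 (c z e
 (c z e
 (c z e
 (c (a (nat_lit 0x12af1a7c1bd9f48043)) e e)))))))))))))
 (c z
 (c z e
 (c (a (nat_lit 0x4646ce8888ff085e3)) e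
 (c z e
 (c z e
 (c z e
 (c z e
 (c z e
 (c z e
 (c z e
 (c z e
 (c z e
 (c (a (nat_lit 0xfd4741434f3b2c3e4)) e
 (c (a (nat_lit 0x13b2b2b291efcb7003)) e e)))))))))))))
 (c z e
 (c z e
 (c z e
 (c z e
 (c z e
 (c z e
 (c z e
 (c (a (nat_lit 0x484a4a4a4ba85e1)) e
 (c (a (nat_lit 0x2c2c2c2d8a522e1)) e
 (c (a (nat_lit 0xcacacb28f2a9701))
 (c z e
 (c (a (nat_lit 0xa1e5b21ef2800002)) e e))
 (c (a (nat_lit 0xc8cb0eb49b66d81)) e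
 (c (a (nat_lit 0x5e7a4e475914d62)) e
 (c (a (nat_lit 0x943a2d067c02041)) e
 (c (a (nat_lit 0x74653eb4403e3c1)) e
 (c (a (nat_lit 0xc59f109ea0a0a21)) e
 (c (a (nat_lit 0x10678080a1026201)) e e))))))))))))))))))))
 (c z
 (c z
 (c z e
 (c z e
 (c (a (nat_lit 0x46464646d47e87303)) e e)))
 (c z
 (c (a (nat_lit 0x1c1c1c1c4a524bb22)) e
 (c (a (nat_lit 0x1c1c1d1a9497dab23)) e
 (c (a (nat_lit 0x12127062633c2e4a3)) e
 (c (a (nat_lit 0xa543a3f26dace583)) e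
 (c z e
 (c z e
 (c z e
 (c z e
 (c z e
 (c z e
 (c z e
 (c z e
 (c (a (nat_lit 0xaee2eef508f05c644)) e
 (c (a (nat_lit 0x12b35436932686a363)) e e))))))))))))))
 (c z
 (c (a (nat_lit 0x1e1ebc6e7914421e3)) e
 (c z e
 (c z e
 (c z e
 (c z e
 (c z e
 (c z e
 (c z e
 (c z e
 (c z e
 (c z e
 (c (a (nat_lit 0x14d3f4143412ad4b04)) e e))))))))))))
 (c z e
 (c z e
 (c z e
 (c z e
 (c z e
 (c z e
 (c z e
 (c (a (nat_lit 0x80808096a321a1)) e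
 (c (a (nat_lit 0x80a0aba12172c2)) e
 (c (a (nat_lit 0x1a1a502617297e2)) e
 (c (a (nat_lit 0x101a060ae914fc3)) e
 (c (a (nat_lit 0x68545b3b674ec43)) e
 (c (a (nat_lit 0x38455fb58876762)) e
 (c (a (nat_lit 0x475fb78a7878462)) e
 (c (a (nat_lit 0x1459b705e5e2a302)) e
 (c (a (nat_lit 0x1754836380206262)) e
 (c (a (nat_lit 0x1645052101636202)) e e))))))))))))))))))))
 (c z
 (c z
 (c (a (nat_lit 0x2e2e2eb8727d96721)) e
 (c (a (nat_lit 0x808944e570e202a3)) e e))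
 (c z
 (c (a (nat_lit 0x3afc868d3a8aa6023)) e
 (c z e
 (c z e
 (c z e
 (c z e
 (c z e
 (c z e
 (c z e
 (c z e
 (c z e
 (c z e
 (c (a (nat_lit 0x17b65656d36f6d4ca4)) e
 (c (a (nat_lit 0x1353544d86a1e04d23)) e e)))))))))))))
 (c z e
 (c z e
 (c z e
 (c z e
 (c (a (nat_lit 0x3a3a3a3a3a3aca1)) e
 (c z e
 (c z e
 (c (a (nat_lit 0x20202bc34217a2)) e
 (c (a (nat_lit 0x202fc262550da2)) e
 (c (a (nat_lit 0x10922e19dd674a2)) e
 (c (a (nat_lit 0x926263511708ce3)) e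
 (c (a (nat_lit 0x4c4f3f02f6bab83)) e
 (c (a (nat_lit 0x4b810cf47c7a762)) e
 (c (a (nat_lit 0x1129e360c120a1c2)) e
 (c (a (nat_lit 0x180b25e665a7c1e1)) e
 (c (a (nat_lit 0xcc78785872280c1)) e e))))))))))))))))))
 C867)))) Tr.c Tr.e (nat_lit 0) C.cx
noncomputable def C869 : Tr := beta% (fun (c : Nat → Tr → Tr → Tr) (e : Tr) (z : Nat) (a b : Nat → Nat) =>
 (c z
 (c z
 (c z e
 (c z e
 (c (a (nat_lit 0x3030303030303030b61)) e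
 (c (a (nat_lit 0x343434343434349e3c1)) e
 (c (a (nat_lit 0x3e3e3e3e3e3e823e481)) e
 (c (a (nat_lit 0x4040404040ce4058601)) e e))))))
 (c z
 (c z e
 (c (a (nat_lit 0x5c5c5c5c5c5c5ce22c1)) e
 (c (a (nat_lit 0x6a6a6a6a6a6abe3cba1)) e
 (c (a (nat_lit 0x90909090908054b74c1)) e
 (c (a (nat_lit 0x949494956270d90f001)) e e)))))
 (c z
 (c (a (nat_lit 0x464646464646a65a561)) e
 (c (a (nat_lit 0x4040404040ac385dc82)) e
 (c (a (nat_lit 0x3e3e3e3ec65059178a2)) e e)))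
 (c z
 (c (a (nat_lit 0x1e1e1e1e64203580b22)) e
 (c (a (nat_lit 0x2020204e22310c9ee23)) e e))
 (c z
 (c (a (nat_lit 0x5050a86285a7014a9a1)) e e) e)))))
 (c z
 (c z
 (c z e
 (c z e
 (c (a (nat_lit 0x4e4e4e4e4e5e36719e2)) e
 (c (a (nat_lit 0x767676768a5c8aff5c2)) e e))))
 (c z
 (c (a (nat_lit 0x5c5c5c5c5c7a344f3e2)) e
 (c (a (nat_lit 0x424242427e2c5dc1a23)) e
 (c (a (nat_lit 0x2626264a24309edb184)) e e)))
 (c z
 (c (a (nat_lit 0x2020204a1c3144c6923)) e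
 (c (a (nat_lit 0x4c4c76485fd55fe3683)) e e))
 (c z
 (c (a (nat_lit 0x568a5e75810bef14e02)) e e)
 (c z e
 (c z e
 (c z e
 (c z e
 (c z e
 (c z e
 (c z e
 (c z e
 (c z e
 (c z e
 (c z e
 (c z e
 (c (a (nat_lit 0x19bc5d3b9d11d19023)) e e)))))))))))))))))
 (c z
 (c z
 (c (a (nat_lit 0x666666667c8474c4d61)) e
 (c (a (nat_lit 0x606060a46a8195f5fa2)) e
 (c (a (nat_lit 0x22224c3838991512e63)) e e)))
 (c z
 (c (a (nat_lit 0x282854263b2b091aac3)) e e)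
 (c z e
 (c z e
 (c (a (nat_lit 0x1a1c1c1c1c1c1d421)) e
 (c z e
 (c z e
 (c z e
 (c z e
 (c z e
 (c z e
 (c z e
 (c z e
 (c z e
 (c (a (nat_lit 0x1bfadab87899d06f43)) e
 (c (a (nat_lit 0x189876370cce0cc723)) e e))))))))))))))))
 (c z
 (c z e
 (c z e
 (c (a (nat_lit 0x1c1c1c1c1c1c1d622))
 (c z e
 (c z e
 (c z e
 (c z e
 (c z e
 (c z e
 (c z e
 (c z e
 (c z e
 (c z e
 (c z e
 (c z e
 (c (a (nat_lit 0x58629ea6b09e8fce005)) e e)))))))))))))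
 (c (a (nat_lit 0x3232323232330c5e1)) e
 (c z e
 (c (a (nat_lit 0xe0e0e0e90806fec2)) e
 (c (a (nat_lit 0xa0a0a9c0a1d16de3)) e
 (c (a (nat_lit 0x808ae14151a8cba3)) e
 (c z e
 (c z e
 (c z e
 (c z e
 (c (a (nat_lit 0x1bb5172fb009086203)) e
 (c z e
 (c (a (nat_lit 0x1a93136aaa29458ee3)) e e)))))))))))))))
 (c z
 (c z e
 (c (a (nat_lit 0xe0e0e0e0e0f3a562)) e
 (c z e
 (c z e
 (c z e
 (c z e
 (c z e
 (c z e
 (c z e
 (c z e
 (c z e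
 (c z e
 (c z e
 (c (a (nat_lit 0x92767b2d26e0ccc83)) e e))))))))))))))
 (c z
 (c (a (nat_lit 0x22222222233e56702)) e
 (c (a (nat_lit 0x1212121372404f442)) e
 (c z e
 (c z e
 (c z e
 (c z e
 (c z e
 (c z e
 (c z e
 (c z e
 (c (a (nat_lit 0x105111880904844d03)) e
 (c (a (nat_lit 0xa4a8a90502e2dae24)) e e))))))))))))
 (c z
 (c z e
 (c (a (nat_lit 0x5252706a3a2299ce2)) e
 (c z e
 (c z e
 (c z e
 (c z e
 (c z e
 (c z e
 (c z e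
 (c (a (nat_lit 0x92aa8908aadacaf03)) e
 (c z e
 (c (a (nat_lit 0x1eb6cf2b9ba9af943)) e e))))))))))))
 (c z
 (c z e
 (c z e
 (c z e
 (c z e
 (c z e
 (c z e
 (c z e
 (c z e
 (c (a (nat_lit 0xc2b926d4cf2ef5863)) e
 (c (b (nat_lit 0x3ebef3ffe7adb1a03)) e
 (c (a (nat_lit 0xc0ecfbdda5a991483)) e e)))))))))))
 (c z
 (c z e
 (c z e
 (c z e
 (c z e
 (c z e
 (c z e
 (c z e
 (c (a (nat_lit 0x10e0dacd6d95abb43)) e
 (c (a (nat_lit 0xfd0d05a9d7eff9943)) e e)))))))))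
 (c z e
 (c z e
 (c z e
 (c z e
 (c z e
 (c (a (nat_lit 0x363636363636341)) e
 (c (a (nat_lit 0x1414141414181c1)) e
 (c z e
 (c (a (nat_lit 0x505050081210021)) e e))))))))))))))))))) Tr.c Tr.e (nat_lit 0) C.cx C.cy
noncomputable def C870 : Tr := beta% (fun (c : Nat → Tr → Tr → Tr) (e : Tr) (z : Nat) (a b : Nat → Nat) =>
 (c z
 (c z
 (c (a (nat_lit 0x8e8e8e8e8e8e8e8f1e1)) e
 (c (a (nat_lit 0xe4e4e4e4e4e4e5e2c41)) e
 (c (a (nat_lit 0x7474747474754670701)) e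
 (c (a (nat_lit 0x6464646464d26457ac2)) e
 (c (a (nat_lit 0x606060610e664d28ac2)) e e)))))
 (c z
 (c (a (nat_lit 0xc4c4c4c4c4c530a2a01)) e
 (c (a (nat_lit 0x1e1e1e1e1e481c27044)) e
 (c (a (nat_lit 0x3a3a3a3aa43e3dd5ce3)) e
 (c (a (nat_lit 0x3e3e3ed442416349ac3)) e e))))
 (c z
 (c (a (nat_lit 0x1c1c1c1c54181f43043)) e
 (c (a (nat_lit 0x24242450241f20cd224)) e
 (c (a (nat_lit 0x3c3cd67271f119b3323)) e e)))
 (c z
 (c (a (nat_lit 0x181852221f1874f2563)) e e)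
 (c z e
 (c z e
 (c z e
 (c z e
 (c (a (nat_lit 0x3232323232330c3e2)) e
 (c (a (nat_lit 0x3232323233a432282)) e
 (c z e
 (c z e
 (c z e
 (c z e
 (c z e
 (c z e
 (c (a (nat_lit 0x12ba5b5a7979f00d63)) e e)))))))))))))))))
 (c z
 (c z
 (c (a (nat_lit 0x888888888888aa8d541)) e
 (c (a (nat_lit 0x30303030503a3af7303)) e
 (c (a (nat_lit 0x2222224a362cef34f23)) e e)))
 (c z
 (c (a (nat_lit 0x2e2e2e6c30373b4b1c3)) e
 (c (a (nat_lit 0x26265e3231272d4cf64)) e e))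
 (c z e
 (c z e
 (c z e
 (c z e
 (c z e
 (c (a (nat_lit 0x121212121330504e2)) e
 (c z e
 (c (a (nat_lit 0x20202070202d3eb22)) e
 (c z e
 (c z e
 (c z e
 (c z e
 (c (a (nat_lit 0xc59d57373f213a723)) e
 (c (a (nat_lit 0x1b36d4d553ca866663)) e e))))))))))))))))
 (c z
 (c z
 (c (a (nat_lit 0x2c2c5e2a2d1abec69c2)) e e)
 (c z e
 (c z e
 (c (a (nat_lit 0x3a3c3c3c3c3c3c561)) e
 (c z e
 (c z e
 (c (a (nat_lit 0x101010109e0811083)) e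
 (c (a (nat_lit 0x101010b60a0d0ea23)) e
 (c (a (nat_lit 0xe0e30081110b2aa3)) e
 (c z e
 (c z e
 (c z e
 (c (a (nat_lit 0xabe98dc7533888083)) e
 (c (a (nat_lit 0x1ffa3df694f4a78283)) e
 (c (a (nat_lit 0x10320e4d8825854444)) e
 (c (a (nat_lit 0x1c6cca6683e7a3c682)) e e))))))))))))))))
 (c z
 (c z e
 (c (a (nat_lit 0x4040404040405562)) e
 (c z e
 (c z e
 (c (a (nat_lit 0x3c3c3c3c66101f9a2)) e
 (c (a (nat_lit 0xa0a0a980a0d128c3)) e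
 (c (a (nat_lit 0x1616e01a152464c03)) e
 (c z e
 (c z e
 (c z e
 (c z e
 (c z e
 (c z e
 (c (a (nat_lit 0x19d6178d6b06a5ef43)) e e))))))))))))))
 (c z
 (c (a (nat_lit 0x161616161617104a2)) e
 (c (a (nat_lit 0x606060607d05a501)) e
 (c z e
 (c (a (nat_lit 0x282828a60c1ea5882)) e
 (c (a (nat_lit 0x404660e129c9b9a3)) e
 (c z e
 (c z e
 (c z e
 (c z e
 (c z e
 (c (a (nat_lit 0x109d92afc781c12143)) e
 (c (a (nat_lit 0x16308f6fea48884c24)) e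
 (c (a (nat_lit 0x846476ead2d4a3603)) e e)))))))))))))
 (c z
 (c z e
 (c (a (nat_lit 0xb4b4b4267c820b8e2)) e
 (c (a (nat_lit 0x828230545c333f023)) e
 (c (a (nat_lit 0x70405c5e5d07275c3)) e
 (c z e
 (c z e
 (c z e
 (c z e
 (c z e
 (c (a (nat_lit 0x1315998987c3a2ace3)) e
 (c (a (nat_lit 0xd316ad88f7272fca3)) e
 (c (a (nat_lit 0x982f0b33a79da3a43)) e e))))))))))))
 (c z
 (c z e
 (c z e
 (c z e
 (c z e
 (c z e
 (c z e
 (c z e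
 (c z e
 (c (a (nat_lit 0xeb1eff06caacbf3c3)) e
 (c (b (nat_lit 0xb495111fffc39db43)) e e))))))))))
 (c z
 (c z e
 (c z e
 (c z e
 (c z e
 (c z e
 (c z e
 (c (a (nat_lit 0x91105e5a50524a6e3)) e
 (c (a (nat_lit 0xd624b4f1493f4b503)) e
 (c (b (nat_lit 0x12c7ff6769bdc5c43)) e
 (c (a (nat_lit 0xa8d5030125292af24)) e e))))))))))
 (c z e
 (c z
 (c z e
 (c z e
 (c z e
 (c z e
 (c z e
 (c z e
 (c z e
 (c (a (nat_lit 0x1734b372f5d329eae3)) e e))))))))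
 (c z e
 (c z e
 (c z e
 (c z e
 (c (a (nat_lit 0x222222222222101))
 (c z e
 (c (a (nat_lit 0x120416222845eaaa4)) e
 (c (a (nat_lit 0x402163a549d32003)) e e)))
 (c (a (nat_lit 0x3a3a3a3a3a02021))
 (c z e
 (c (a (nat_lit 0x2636363ff8bc00004)) e
 (c (a (nat_lit 0x1a9a1a9a6000000004)) e e))) e))))))))))))))))) Tr.c Tr.e (nat_lit 0) C.cx C.cy
noncomputable def C871 : Tr := beta% (fun (c : Nat → Tr → Tr → Tr) (e : Tr) (z : Nat) (a : Nat → Nat) =>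
 (c z
 (c z
 (c z e
 (c z
 (c z e
 (c z e
 (c z e
 (c z e
 (c (a (nat_lit 0x9292929292929292da1)) e
 (c (a (nat_lit 0x949494949494956a741)) e e))))))
 (c z
 (c z e
 (c z e
 (c (a (nat_lit 0x9a9a9a9a9a9a9a9b981)) e
 (c (a (nat_lit 0x8c8c8c8c8c8c8d3a621)) e
 (c (a (nat_lit 0x8e8e8e8e8e8fa4804e1)) e e)))))
 (c z
 (c z e
 (c (a (nat_lit 0xc0c0c0c0c0c0c162ac1)) e
 (c (a (nat_lit 0x707070707070da80601)) e
 (c (a (nat_lit 0x3e3e3e3e3ecc504b782)) e e))))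
 (c z
 (c (a (nat_lit 0x7272727272731c645a1)) e
 (c (a (nat_lit 0x2a2a2a2a2a6e2c21763)) e
 (c (a (nat_lit 0x2c2c2c2caa4a472e723)) e e)))
 (c z
 (c (a (nat_lit 0x161616167224197a3c2)) e
 (c (a (nat_lit 0x18181886362f1244f03)) e e))
 (c z e
 (c z e
 (c z e
 (c z e
 (c z e
 (c z e
 (c z e
 (c z e
 (c z e
 (c z e
 (c z e
 (c z e
 (c (a (nat_lit 0xdedacb2f2f436b5e2)) e e)))))))))))))))))))
 (c z
 (c z
 (c z e
 (c z e
 (c z e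
 (c (a (nat_lit 0x86868686868686875c1)) e
 (c (a (nat_lit 0x8e8e8e8e8e8e8ece641)) e
 (c (a (nat_lit 0x9a9a9a9a9a9ba4748a1)) e
 (c z e
 (c z e
 (c z e
 (c z e
 (c z e
 (c z e
 (c z e
 (c z e
 (c z e
 (c z e
 (c (a (nat_lit 0x16163615d63513b35545)) e e)))))))))))))))))
 (c z
 (c z e
 (c (a (nat_lit 0xfafcfcfcfcfcfcfbd61)) e
 (c (a (nat_lit 0xd6d6d6d6d6d6d7d4661)) e
 (c (a (nat_lit 0xfefefefefeff6292b01)) e
 (c (a (nat_lit 0x7a7a7a7a7b545665662)) e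
 (c z e
 (c z e
 (c z e
 (c z e
 (c z e
 (c z e
 (c z e
 (c z e
 (c z e
 (c z e
 (c z e
 (c (a (nat_lit 0x1616397a9b9b9bdb7f05)) e e)))))))))))))))))
 (c z
 (c z e
 (c (a (nat_lit 0xa4a4a4a4a4a5d276c01)) e
 (c (a (nat_lit 0x22222222225a2a25983)) e
 (c (a (nat_lit 0x26262626d22e31212a3)) e e))))
 (c z
 (c (a (nat_lit 0x1414141414660e17703)) e
 (c (a (nat_lit 0x1414141450121330884)) e
 (c (a (nat_lit 0x1616168c2e3b12608c4)) e e)))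
 (c z
 (c (a (nat_lit 0x1212125e1c1d1e52b23)) e
 (c (a (nat_lit 0x242504505dbead70a63)) e e))
 (c z e
 (c z e
 (c z e
 (c z e
 (c (a (nat_lit 0x64646464646465ce1)) e
 (c (a (nat_lit 0x363838383839642c2)) e e)))))))))))
 C870))
 (c z C869
 (c z
 (c z
 (c z
 (c z e
 (c (a (nat_lit 0x7e7e7e7e7ea4505d4c1)) e
 (c (a (nat_lit 0x5858585886606143c21)) e e)))
 (c z
 (c (a (nat_lit 0x58585858602a3104bc2)) e
 (c (a (nat_lit 0x303030482432f52ae63)) e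
 (c (a (nat_lit 0x3e3e623840d10752fc3)) e e)))
 (c z
 (c (a (nat_lit 0x222244282f1140b9002)) e
 (c (a (nat_lit 0x3852403f930935270e3)) e e)) e)))
 (c z
 (c z
 (c (a (nat_lit 0xacacacb692815d11341)) e
 (c (a (nat_lit 0x40404e3840e128e2c63)) e
 (c (a (nat_lit 0x384e3636c1353d09023)) e e)))
 (c z e
 (c z e
 (c (a (nat_lit 0x32343434343433a41))
 (c z e
 (c z e
 (c z e
 (c z e
 (c z e
 (c z e
 (c z e
 (c z e
 (c z e
 (c z e
 (c z e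
 (c (a (nat_lit 0x8a8ca2a6a08e7e5b3c6)) e e))))))))))))
 (c z e
 (c z e
 (c z e
 (c z e
 (c z e
 (c z e
 (c z e
 (c z e
 (c z e
 (c (a (nat_lit 0x10cdcd6b2c85064a03)) e
 (c z e
 (c (a (nat_lit 0x1b591a50f236b554e3)) e e))))))))))))))))
 (c z
 (c z e
 (c z e
 (c (a (nat_lit 0x20202020202106342)) e
 (c (a (nat_lit 0x4244444444e508f01)) e
 (c (a (nat_lit 0x101010108a86ad942)) e
 (c (a (nat_lit 0x101010665e9751f42)) e
 (c (a (nat_lit 0xa0a341a2cc7164e3)) e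
 (c z e
 (c z e
 (c z e
 (c z e
 (c z e
 (c z e
 (c z e
 (c (a (nat_lit 0x68a66d233964daac3)) e e)))))))))))))))
 (c z
 (c z e
 (c (a (nat_lit 0x1c1c1c1c1d4a8c842)) e
 (c z e
 (c z e
 (c z e
 (c z e
 (c z e
 (c z e
 (c z e
 (c z e
 (c z e
 (c (a (nat_lit 0x13f1f26849e7a42b23)) e e))))))))))))
 (c z
 (c z e
 (c z e
 (c z e
 (c z e
 (c z e
 (c z e
 (c z e
 (c z e
 (c z e
 (c z e
 (c (a (nat_lit 0xac6a6cf312e6ead43)) e
 (c (a (nat_lit 0xb2b5050cf6f4eee44)) e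
 (c (a (nat_lit 0x7d172942f4eacf2e3)) e e)))))))))))))
 (c z
 (c z e
 (c z e
 (c z e
 (c z e
 (c z e
 (c z e
 (c z e
 (c z e
 (c z e
 (c z e
 (c (a (nat_lit 0xdd353359293d41d83)) e e)))))))))))
 (c z e
 (c z e
 (c z e
 (c z e
 (c z e
 (c z e
 (c (a (nat_lit 0x343434343435601)) e
 (c (a (nat_lit 0x10101010113a041)) e
 (c z e
 (c (a (nat_lit 0x7474746a3036061)) e
 (c (a (nat_lit 0x7c7c662c3e10121)) e e)))))))))))))))))
 C868)))) Tr.c Tr.e (nat_lit 0) C.cx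
noncomputable def C872 : Tr := beta% (fun (c : Nat → Tr → Tr → Tr) (e : Tr) (z : Nat) (a : Nat → Nat) =>
 (c (nat_lit 1)
 (c z
 (c z
 (c z e
 (c z e
 (c z e
 (c z e
 (c z e
 (c z
 (c z e
 (c z e
 (c (a (nat_lit 0x3030303030306838381)) e e))) e))))))
 (c z
 (c z e
 (c z
 (c z e
 (c z e
 (c z e
 (c z e
 (c z e
 (c (a (nat_lit 0x4c4c4c4c4c4c4c4d121)) e e))))))
 (c z
 (c z e
 (c z e
 (c z e
 (c (a (nat_lit 0x6a6a6a6a6a6a6a6aac1)) e e))))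
 (c z
 (c z e
 (c (a (nat_lit 0x50505050505050509e1)) e
 (c (a (nat_lit 0x3636363636363682501)) e e)))
 (c z
 (c (a (nat_lit 0x343434343434346c281)) e
 (c (a (nat_lit 0x5a5a5a5a5a5ab662441)) e
 (c (a (nat_lit 0x3636363636b64c45362)) e e)))
 (c z
 (c (a (nat_lit 0x24242424246038296a1)) e e) e))))))
 (c z
 (c z
 (c z e
 (c z e
 (c z e
 (c z e
 (c (a (nat_lit 0x3030303030303030601)) e
 (c (a (nat_lit 0x2c2c2c2c2c2c2ca82c1)) e e))))))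
 (c z
 (c z e
 (c z e
 (c (a (nat_lit 0x3030303030303030541)) e
 (c z e
 (c (a (nat_lit 0x505050505050ea44561)) e e)))))
 (c z
 (c (a (nat_lit 0x1414141414141414441)) e
 (c (a (nat_lit 0x2a2a2a2a2a2a2a922a1)) e
 (c (a (nat_lit 0x2626262626268444341)) e
 (c (a (nat_lit 0x2626262627183a2f221)) e e))))
 (c z
 (c (a (nat_lit 0x1a1a1a1a1a1a5e14201)) e
 (c (a (nat_lit 0x1c1c1c1c1c4620251c2)) e
 (c (a (nat_lit 0x2e2e2e2eb6424d342c2)) e e)))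
 (c z
 (c (a (nat_lit 0x202020207a3437104a1)) e
 (c (a (nat_lit 0x3e3e3f60707ffe1aec1)) e e)) e)))))
 (c z
 (c z e
 (c z
 (c z e
 (c z e
 (c (a (nat_lit 0x4a4a4a4a4a724a3f741)) e e)))
 (c z
 (c (a (nat_lit 0x16161616163c0e18fe1)) e
 (c (a (nat_lit 0x46464646964a49db501)) e e)) e)))
 (c z
 (c z
 (c z e
 (c (a (nat_lit 0x2626262626543828b61)) e
 (c (a (nat_lit 0x161616165a341eb3021)) e e)))
 (c z
 (c (a (nat_lit 0x2a2a2a2a6e2c2f0d441)) e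
 (c (a (nat_lit 0x222222643229012d162)) e e))
 (c z
 (c (a (nat_lit 0x18186c3a351704e8941)) e e) e)))
 (c z
 (c z
 (c (a (nat_lit 0x1818183614168464581)) e
 (c (a (nat_lit 0x36367e3a3766f12f181)) e e))
 (c z
 (c (a (nat_lit 0x2046282772608e6e6c2)) e e) e)) e))))))
 C871)
 (c (nat_lit 1)
 (c z
 (c z
 (c z e
 (c z
 (c z e
 (c z e
 (c z e
 (c (a (nat_lit 0x54545454545454558e2)) e
 (c z e
 (c z e
 (c z e
 (c z e
 (c z e
 (c z e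
 (c z e
 (c z e
 (c z e
 (c z e
 (c z e
 (c z e
 (c (a (nat_lit 0x10907090b08eedcdd006)) e
 (c (a (nat_lit 0x11d1f2321292f252d685)) e e))))))))))))))))))
 (c z
 (c z e
 (c (a (nat_lit 0x9898989898989899e61)) e
 (c (a (nat_lit 0x4e4e4e4e4e4e4f50362)) e
 (c (a (nat_lit 0xa8a8a8a8a8a970545c1)) e
 (c (a (nat_lit 0x7c7c7c7c7ce66c61662)) e
 (c z e
 (c z e
 (c z e
 (c z e
 (c z e
 (c z e
 (c z e
 (c z e
 (c z e
 (c z e
 (c (a (nat_lit 0x1c5cdd1e5e1edc7cbf85)) e e))))))))))))))))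
 (c z
 (c z e
 (c (a (nat_lit 0x9494949494951e80a82)) e
 (c (a (nat_lit 0x3434343434322831663)) e
 (c (a (nat_lit 0x3e3e3e3e564256fbb43)) e e))))
 (c z
 (c (a (nat_lit 0x2c2c2c2c2c902829063)) e
 (c (a (nat_lit 0x42424242a44439ccac3)) e
 (c (a (nat_lit 0x464646d276816af72a3)) e e)))
 (c z
 (c (a (nat_lit 0x5a5a5a86605bd87f062)) e
 (c (a (nat_lit 0x2e2e68505122db5cdc3)) e e))
 (c z e
 (c z e
 (c z e
 (c z e
 (c (a (nat_lit 0x3e3e3e3e3e3e3f182)) e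
 (c z e
 (c z e
 (c z e
 (c z e
 (c z e
 (c z e
 (c z e
 (c (a (nat_lit 0xbcbd17011b2728d63)) e e)))))))))))))))))))
 C866)
 C864)
 (c (nat_lit 1) C857
 C852)))) Tr.c Tr.e (nat_lit 0) C.cx

end Pool.Agent.Work.MP_82fd4a_nt.P.H
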