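import Pool.Agent.Work.MP_82fd4a_nt.P.Dx

set_option autoImplicit false
set_option linter.all false
set_option maxRecDepth 100000

namespace Pool.Agent.Work.MP_82fd4a_nt.P.H
open Y Y.Tr

noncomputable def C126 : Tr := beta% (fun (c : Nat → Tr → Tr → Tr) (e : Tr) (z : Nat) (a b : Nat → Nat) =>
 (c (a (nat_lit 0x20202021))
 (c (a (nat_lit 0x145223636365))
 (c (a (nat_lit 0x1f20c0e086c3))
 (c (a (nat_lit 0x2d2682ebd66a05)) e
 (c (a (nat_lit 0x5ee09b3318390c7)) e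
 (c (a (nat_lit 0xd812d2deed27347)) e
 (c z e
 (c (a (nat_lit 0x145eca8000000006)) e e)))))
 (c (a (nat_lit 0x4c4364319e24))
 (c (a (nat_lit 0xbec360c45881e28)) e e)
 (c (a (nat_lit 0x37aa65e6ad87)) e
 (c (b (nat_lit 0x1fffe04218f966)) e
 (c (a (nat_lit 0x11f8f8d8f91946)) e
 (c z e
 (c (a (nat_lit 0xd0f4f526c4f87)) e
 (c (a (nat_lit 0x286869e5228e7)) e
 (c (a (nat_lit 0x2d164a692587)) e e)))))))))
 (c (a (nat_lit 0x170020202026))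
 (c (a (nat_lit 0xdc6ce25c8bc46))
 (c (a (nat_lit 0xbb5ea6da55e4748)) e
 (c (a (nat_lit 0x1b0c316c94e00009)) e e))
 (c (a (nat_lit 0xb8620a06b57c8))
 (c (a (nat_lit 0x14fa1518a0000008)) e e)
 (c z e
 (c z e
 (c z e
 (c z e
 (c (a (nat_lit 0x7ea02f008c349)) e e)))))))
 (c (a (nat_lit 0x2080606cc1))
 (c (a (nat_lit 0x6c9ebac9abd67)) e
 (c z e
 (c z e
 (c z e
 (c z e
 (c z e
 (c (a (nat_lit 0x48524f200008)) e
 (c (a (nat_lit 0x1648e000000008)) e e))))))))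
 (c (b (nat_lit 0xc0c1195fe3))
 (c (a (nat_lit 0xa4aecd8088c88)) e
 (c (a (nat_lit 0x92aafa9534bc9)) e
 (c z e
 (c z e
 (c (a (nat_lit 0x1170cae9e66009)) e
 (c (a (nat_lit 0x1248aae0000008)) e
 (c (a (nat_lit 0x1ca00000000005)) e e)))))))
 (c (a (nat_lit 0x13b5f5f6d406))
 (c (a (nat_lit 0x5e846fa47eb88)) e
 (c z e
 (c z e
 (c (a (nat_lit 0x17a68726400009)) e
 (c (a (nat_lit 0x5b0a000000007)) e e)))))
 (c z e
 (c z e
 (c (a (nat_lit 0x10b4b4b06b85)) e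
 (c (b (nat_lit 0xa0ad57fe867)) e
 (c (a (nat_lit 0xefbb8b915a8)) e
 (c z e
 (c (a (nat_lit 0x1879b7536ee8)) e
 (c (a (nat_lit 0x130020402085)) e
 (c (a (nat_lit 0x4041ba03)) e
 (c (a (nat_lit 0x1a28a0466665)) e
 (c (a (nat_lit 0x108120800004)) e
 (c (a (nat_lit 0x3c000000001)) e e)))))))))))))))))
 (c (a (nat_lit 0x40606021))
 (c (a (nat_lit 0x80e1c5c1))
 (c (a (nat_lit 0x4724e5eff9e6))
 (c (a (nat_lit 0x1149f68bdde5a007)) e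
 (c (a (nat_lit 0xa92c82d40000009)) e e))
 (c (a (nat_lit 0x32505087abae8))
 (c (a (nat_lit 0x13c6696000000009)) e e) e))
 (c (a (nat_lit 0x145475184184))
 (c (a (nat_lit 0x2668399c6368))
 (c (a (nat_lit 0x675c00000000006)) e e) e)
 (c (b (nat_lit 0xe5f9fe4c105)) e
 (c z e
 (c z e
 (c z e
 (c z e
 (c z e
 (c z e
 (c z e
 (c z e
 (c (a (nat_lit 0x1d00e2d41843)) e
 (c (b (nat_lit 0x1fece222d446)) e
 (c (a (nat_lit 0x1440a0d20005)) e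
 (c (a (nat_lit 0x282e0000001)) e e)))))))))))))))
 (c (a (nat_lit 0x40404041))
 (c (a (nat_lit 0x159617b9e003))
 (c (a (nat_lit 0x2530f2a0a9a7)) e e)
 (c z e
 (c z e
 (c (a (nat_lit 0x17fdbdda5245))
 (c (b (nat_lit 0xa8a7ff0c18007)) e
 (c (a (nat_lit 0x18b5d560000007)) e e))
 (c (a (nat_lit 0xeeef24e8086))
 (c (a (nat_lit 0x384000000005)) e e)
 (c z e
 (c (a (nat_lit 0x14d35cf7ef08)) e
 (c (a (nat_lit 0x6f1118f6a49)) e
 (c z e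
 (c (a (nat_lit 0x153bd28f2708)) e
 (c (a (nat_lit 0x19e8c1c04aa7)) e
 (c (a (nat_lit 0x112320353526)) e
 (c (a (nat_lit 0x1e202200001)) e
 (c (nat_lit 1) e e))))))))))))))
 (c (a (nat_lit 0x20204041))
 (c (a (nat_lit 0x1c7cfd7dbca7)) e
 (c (a (nat_lit 0x1899b9b8b6c7))
 (c (a (nat_lit 0x6544f2b63c889)) e e)
 (c (b (nat_lit 0xf2fe7d3ffe4))
 (c (a (nat_lit 0xd52d269e00007)) e
 (c (a (nat_lit 0x17882000000007)) e e))
 (c (a (nat_lit 0xfb0310e6b08))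
 (c (a (nat_lit 0x16000000000004)) e e)
 (c (a (nat_lit 0x121253318e09)) e
 (c (a (nat_lit 0xd0a73274d28)) e
 (c (a (nat_lit 0xa1efb3d9288)) e
 (c z e
 (c (a (nat_lit 0x119e502da008)) e
 (c (a (nat_lit 0x1f43203413e7)) e
 (c (a (nat_lit 0x4822242e001)) e
 (c (a (nat_lit 0xc0000001)) e e))))))))))))
 (c (a (nat_lit 0x20402021))
 (c (a (nat_lit 0x949676f9145))
 (c (a (nat_lit 0x14b265a5044227)) e
 (c (a (nat_lit 0x1363e601200008)) e e))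
 (c (a (nat_lit 0x846ea908aa6))
 (c (a (nat_lit 0x7506060000007)) e e)
 (c z e
 (c (a (nat_lit 0x15d7f5229967)) e
 (c (a (nat_lit 0x504426974a8)) e
 (c z e
 (c z e
 (c (a (nat_lit 0x1656d54ac268)) e
 (c (a (nat_lit 0x18212161e1a4)) e
 (c (a (nat_lit 0x301a00001)) e
 (c (a (nat_lit 0x2000000001)) e e)))))))))))
 (c (a (nat_lit 0x606080c1))
 (c (a (nat_lit 0x5d08f70a506))
 (c (a (nat_lit 0x12406000000006)) e e)
 (c (a (nat_lit 0x115090c7c6c8)) e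
 (c z e
 (c z e
 (c z e
 (c z e
 (c z e
 (c (b (nat_lit 0x1ff472a58006)) e
 (c (a (nat_lit 0x1ded40000005)) e e)))))))))
 (c (a (nat_lit 0x20202021))
 (c (a (nat_lit 0x11f082628006)) e
 (c (b (nat_lit 0x184374051fe4)) e
 (c (a (nat_lit 0x4e42952ca08)) e
 (c (a (nat_lit 0x5eaef540d08)) e
 (c z e
 (c z e
 (c (a (nat_lit 0x97573e00006)) e
 (c (a (nat_lit 0x194000000002)) e e))))))))
 (c (a (nat_lit 0x20203a86))
 (c (a (nat_lit 0x12d4d3d02b27)) e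
 (c (b (nat_lit 0x84d9d667fe7)) e
 (c (a (nat_lit 0xe163fdc6c88)) e
 (c z e
 (c (a (nat_lit 0x127714d6c008)) e
 (c (a (nat_lit 0x1831a0000005)) e e))))))
 (c (a (nat_lit 0x203b7ac6))
 (c (a (nat_lit 0x6a73c73ebc7)) e
 (c (b (nat_lit 0x7b3385fe1a8)) e
 (c z e
 (c (a (nat_lit 0x9783aa00007)) e e))))
 (c (a (nat_lit 0x8bb3acec8))
 (c (b (nat_lit 0x930aabffd28)) e e)
 (c z e
 (c (a (nat_lit 0x134fe02006)) e
 (c (a (nat_lit 0x1b40202005)) e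
 (c (a (nat_lit 0xe0c060a1)) e
 (c (a (nat_lit 0xc0c0ade1)) e
 (c (a (nat_lit 0xa35861)) e
 (c (a (nat_lit 0xc36281)) e
 (c (a (nat_lit 0x805243)) e
 (c (a (nat_lit 0xf151a043)) e
 (c (a (nat_lit 0x1111604163)) e
 (c (a (nat_lit 0x13cb206024)) e
 (c (a (nat_lit 0x1720200004)) e e))))))))))))))))))))))) Tr.c Tr.e (nat_lit 0) C.cx C.cy
noncomputable def C127 : Tr := beta% (fun (c : Nat → Tr → Tr → Tr) (e : Tr) (z : Nat) (a b : Nat → Nat) =>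
 (c (a (nat_lit 0x40404041))
 (c (a (nat_lit 0x17978fa4c4c8)) e
 (c (a (nat_lit 0x1e9dc4002027)) e
 (c (a (nat_lit 0x190020202027))
 (c (a (nat_lit 0x13adaa092d5d68))
 (c (a (nat_lit 0x1a04959120000008)) e e)
 (c z e
 (c z e
 (c z e
 (c z e
 (c z e
 (c (a (nat_lit 0x1421cccb87200a)) e
 (c (a (nat_lit 0x102da76000000a)) e e))))))))
 (c (a (nat_lit 0x40405303))
 (c z e
 (c z e
 (c z e
 (c z e
 (c z e
 (c (a (nat_lit 0x130cfa90a00009)) e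
 (c (a (nat_lit 0x102d4000000009)) e e)))))))
 (c (a (nat_lit 0x4040531dc4))
 (c (a (nat_lit 0x24108c2ad268)) e
 (c z e
 (c z e
 (c z e
 (c (a (nat_lit 0x1c6f5560000008)) e e)))))
 (c z e
 (c z e
 (c z e
 (c (a (nat_lit 0xe30906c0f27)) e
 (c (a (nat_lit 0x931d53532e9)) e
 (c z e
 (c (a (nat_lit 0xf506dcc4b29)) e
 (c (a (nat_lit 0x1e40603332e6)) e
 (c z e
 (c (a (nat_lit 0x21a1c2c2c1)) e
 (c (a (nat_lit 0x41a240a001)) e
 (c (a (nat_lit 0x2c480000001)) e e)))))))))))))))))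
 (c (a (nat_lit 0x40404041))
 (c (a (nat_lit 0x1c2020202026))
 (c (a (nat_lit 0x3bc8ca3197a5))
 (c (a (nat_lit 0xb82e18257dea567)) e
 (c (a (nat_lit 0x143213d9fbc00008)) e e))
 (c (a (nat_lit 0x256625a79988))
 (c (a (nat_lit 0x12cfa88a80000009)) e e) e))
 (c (a (nat_lit 0x2060b103))
 (c (a (nat_lit 0x4040223ab728))
 (c (a (nat_lit 0x16f04de000000007)) e e) e)
 (c (a (nat_lit 0xbabac3dcd85)) e
 (c (b (nat_lit 0x9749fffffe5)) e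
 (c z e
 (c z e
 (c z e
 (c z e
 (c z e
 (c z e
 (c z e
 (c z e
 (c (a (nat_lit 0x124120404406)) e
 (c (a (nat_lit 0x1bc2c02403e6)) e
 (c (a (nat_lit 0x141a00001)) e
 (c (nat_lit 1) e e))))))))))))))))
 (c (a (nat_lit 0x20204041))
 (c (a (nat_lit 0x204490c4))
 (c (a (nat_lit 0x21822f754067)) e
 (c z e
 (c z e
 (c z e
 (c z e
 (c z e
 (c (a (nat_lit 0xa122820000008)) e
 (c (a (nat_lit 0x19000000000007)) e e))))))))
 (c (a (nat_lit 0xc2c2b906de7)) e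
 (c z e
 (c (a (nat_lit 0x135c7d9d76c7))
 (c (a (nat_lit 0xe702a0926a449)) e
 (c (a (nat_lit 0x12ef4d6aa00008)) e e))
 (c (a (nat_lit 0xf3075cf0047))
 (c (a (nat_lit 0x1210d400000006)) e e)
 (c z e
 (c (a (nat_lit 0x10104525c3a8)) e
 (c (a (nat_lit 0xa085111b1c9)) e
 (c z e
 (c z e
 (c (a (nat_lit 0xcf426a03187)) e
 (c (a (nat_lit 0x1426a031b187)) e
 (c (a (nat_lit 0x1a6c00604004)) e
 (c (a (nat_lit 0x180060000003)) e e))))))))))))))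
 (c (a (nat_lit 0x20404041))
 (c z e
 (c z e
 (c (a (nat_lit 0x9cb70436287))
 (c (a (nat_lit 0x110c49a766a008)) e
 (c (a (nat_lit 0x16af4740000008)) e e))
 (c (a (nat_lit 0x175b17b76ee8))
 (c (a (nat_lit 0x1b480000000007)) e e)
 (c (a (nat_lit 0x121191ae69e9)) e
 (c (a (nat_lit 0xeaeb1291947)) e
 (c (a (nat_lit 0x9673618b928)) e
 (c z e
 (c (a (nat_lit 0x85032cc4c68)) e
 (c (a (nat_lit 0x93ea3da9a45)) e
 (c (a (nat_lit 0x302824141)) e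
 (c (a (nat_lit 0x141c0a00001)) e
 (c (a (nat_lit 0x4000000001)) e e)))))))))))))
 (c (a (nat_lit 0x40402021))
 (c (a (nat_lit 0xbacf0866066))
 (c (a (nat_lit 0xf1226a2624807)) e
 (c (a (nat_lit 0x1ac8a44345c008)) e e))
 (c (a (nat_lit 0x12962b4b0c87))
 (c (a (nat_lit 0xea5d185e00007)) e e)
 (c (a (nat_lit 0x138686aa86c6)) e
 (c (a (nat_lit 0x16565acb97c6)) e
 (c (a (nat_lit 0x9ad7013b526)) e
 (c (a (nat_lit 0x949fa9a57a8)) e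
 (c z e
 (c (a (nat_lit 0x1bb893906888)) e
 (c (a (nat_lit 0x18274c737a26)) e
 (c (a (nat_lit 0x219186e4005)) e
 (c (a (nat_lit 0x10e3a0000001)) e e)))))))))))
 (c (a (nat_lit 0x808080a1))
 (c (a (nat_lit 0x18b393335be6))
 (c (a (nat_lit 0x4f8c7e0000004)) e e)
 (c (a (nat_lit 0x12b2d2f5ade7)) e
 (c (a (nat_lit 0xcedd2a584e7)) e
 (c (b (nat_lit 0x165a059ff426)) e
 (c (a (nat_lit 0x17969557db88)) e
 (c z e
 (c z e
 (c (a (nat_lit 0x2a76b505c5)) e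
 (c (a (nat_lit 0x315b1a00006)) e
 (c (a (nat_lit 0x1f6000000003)) e e))))))))))
 (c (a (nat_lit 0x20606081))
 (c (a (nat_lit 0xf6f90a7a006)) e
 (c (a (nat_lit 0x1395e0826366)) e
 (c (a (nat_lit 0x11124cbf37a6)) e
 (c (a (nat_lit 0x1cf737505a47)) e
 (c z e
 (c z e
 (c (b (nat_lit 0x9bffd8ac006)) e
 (c (a (nat_lit 0x49720000005)) e e))))))))
 (c (nat_lit 1)
 (c (a (nat_lit 0xff032f2c786)) e
 (c (a (nat_lit 0xa29b12b87a7)) e
 (c (a (nat_lit 0x15138c991727)) e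
 (c z e
 (c (b (nat_lit 0x21fffe1d9a8)) e
 (c (b (nat_lit 0x1ffff6000005)) e e))))))
 (c (a (nat_lit 0x20203b86))
 (c (a (nat_lit 0xbb8fb0d4c25)) e
 (c (a (nat_lit 0x7e632cb8027)) e e))
 (c (a (nat_lit 0xcecfb5aa7))
 (c (a (nat_lit 0x2e286603429)) e e)
 (c (a (nat_lit 0xfb99995a8)) e
 (c (a (nat_lit 0x193932a2a7)) e
 (c (a (nat_lit 0x1151402006)) e
 (c (a (nat_lit 0x1140202026)) e
 (c (a (nat_lit 0x20204041)) e
 (c (a (nat_lit 0x20203163)) e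
 (c (a (nat_lit 0x20203065)) e
 (c (a (nat_lit 0x805718c4)) e
 (c (a (nat_lit 0x16369e1e05)) e
 (c (a (nat_lit 0xe10702286)) e
 (c (a (nat_lit 0x1bdb802045)) e
 (c (a (nat_lit 0x1b40202005)) e
 (c (a (nat_lit 0x20000001)) e e)))))))))))))))))))))))) Tr.c Tr.e (nat_lit 0) C.cx C.cy
noncomputable def C129 : Tr := beta% (fun (c : Nat → Tr → Tr → Tr) (e : Tr) (z : Nat) (a b : Nat → Nat) =>
 (c (a (nat_lit 0x2001))
 (c (a (nat_lit 0x143424002027))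
 (c (b (nat_lit 0x1ffffd02e64925))
 (c (a (nat_lit 0x106626e70a455ba8)) e
 (c (a (nat_lit 0x12715118b43b4009)) e e))
 (c (a (nat_lit 0xfba8dcd6d6f67))
 (c (a (nat_lit 0xa0bae502ae0000a)) e e)
 (c z e
 (c z e
 (c z e
 (c z e
 (c z e
 (c z e
 (c (a (nat_lit 0x32655c5a00009)) e e)))))))))
 (c (a (nat_lit 0x108020202028))
 (c (a (nat_lit 0x208041627588))
 (c (a (nat_lit 0xa68f146c0000009)) e e)
 (c (a (nat_lit 0x2020e2ceb929)) e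
 (c z e
 (c z e
 (c z e
 (c z e
 (c (a (nat_lit 0x2d114c4c2000a)) e
 (c (a (nat_lit 0x1274044000000a)) e e))))))))
 (c (a (nat_lit 0x20204092a4))
 (c z e
 (c z e
 (c z e
 (c z e
 (c z e
 (c z e
 (c (a (nat_lit 0x1104e00000000a)) e e)))))))
 (c (b (nat_lit 0x611ff743)) e
 (c z e
 (c z e
 (c z e
 (c z e
 (c (a (nat_lit 0xf90302f91a8)) e
 (c z e
 (c z e
 (c z e
 (c (b (nat_lit 0x1ffffce02006)) e
 (c (b (nat_lit 0x1ffd20202006)) e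
 (c (a (nat_lit 0x1d22c0202006)) e
 (c (a (nat_lit 0x15e080000003)) e e))))))))))))))))
 (c (a (nat_lit 0x20202021))
 (c (a (nat_lit 0x2020205443))
 (c (a (nat_lit 0x402243306907))
 (c (a (nat_lit 0x3d2230000000007)) e e)
 (c (a (nat_lit 0x216229895d49)) e
 (c z e
 (c z e
 (c z e
 (c z e
 (c (a (nat_lit 0x175c0a24c00008)) e
 (c (a (nat_lit 0x16818000000008)) e e))))))))
 (c (b (nat_lit 0x204076ffe5))
 (c z e
 (c z e
 (c z e
 (c z e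
 (c z e
 (c (a (nat_lit 0x13436380000009)) e
 (c (a (nat_lit 0x14200000000005)) e e)))))))
 (c (b (nat_lit 0xcbfffffe1)) e
 (c z e
 (c z e
 (c z e
 (c (a (nat_lit 0x139a2f68c127)) e
 (c (a (nat_lit 0xe8c258657c7)) e
 (c (a (nat_lit 0x6a50c947149)) e
 (c z e
 (c z e
 (c (a (nat_lit 0x8f360331307)) e
 (c (a (nat_lit 0x6d46080a023)) e
 (c (a (nat_lit 0x14e0c0c00003)) e
 (c (a (nat_lit 0x2000000001)) e e)))))))))))))))
 (c (a (nat_lit 0x20202021))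
 (c (a (nat_lit 0x107097f7f868)) e
 (c z e
 (c z e
 (c z e
 (c (a (nat_lit 0x191adbfbe126)) e
 (c (a (nat_lit 0x18f191604046)) e
 (c (a (nat_lit 0x5656c473c47)) e
 (c (a (nat_lit 0x70738be96c8)) e
 (c z e
 (c (b (nat_lit 0x1ffffffe1e05)) e
 (c (a (nat_lit 0x5d63e1a1a7)) e
 (c (a (nat_lit 0x19a020202007)) e
 (c (a (nat_lit 0x1c0000001)) e e)))))))))))))
 (c (a (nat_lit 0x20202021))
 (c (a (nat_lit 0xf303406066))
 (c (a (nat_lit 0x61bf83c07066)) e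
 (c (a (nat_lit 0x704461476408)) e
 (c (a (nat_lit 0x19272507000008)) e e)))
 (c (a (nat_lit 0x1aebab2b47a7))
 (c (a (nat_lit 0x1acd902e89a006)) e
 (c (a (nat_lit 0x1b9fd680000006)) e e))
 (c (a (nat_lit 0x1334143111a7)) e
 (c (a (nat_lit 0x1493f3e487c6)) e
 (c (a (nat_lit 0x8d5a8004)) e
 (c (a (nat_lit 0x1314f68e4f67)) e
 (c z e
 (c z e
 (c (a (nat_lit 0xb6785b16a26)) e
 (c (b (nat_lit 0x1ff68a8c2c06)) e
 (c (a (nat_lit 0x19ada8a00006)) e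
 (c (a (nat_lit 0x142000000004)) e e))))))))))))
 (c (a (nat_lit 0x40404041))
 (c (a (nat_lit 0x115353133306))
 (c (a (nat_lit 0x9591ae00002)) e
 (c (a (nat_lit 0x15a4c000000002)) e e))
 (c (a (nat_lit 0x1a7af9b77ec6)) e
 (c (a (nat_lit 0xcaccc702b67)) e
 (c (a (nat_lit 0x13335acd4c86)) e
 (c (a (nat_lit 0x149dd49589a7)) e
 (c z e
 (c z e
 (c (a (nat_lit 0xac8f1737d27)) e
 (c (b (nat_lit 0x1ff996ed2006)) e
 (c (a (nat_lit 0x182d40000004)) e e))))))))))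
 (c (a (nat_lit 0x21))
 (c (a (nat_lit 0x13f4143414a6)) e
 (c (a (nat_lit 0x1272726a47a7)) e
 (c (a (nat_lit 0x1936c2abc5a6)) e
 (c (a (nat_lit 0x15d254922187)) e
 (c z e
 (c z e
 (c (a (nat_lit 0xc2870545247)) e
 (c (b (nat_lit 0x1ff473e00006)) e e))))))))
 (c (a (nat_lit 0x20200001))
 (c (a (nat_lit 0x14342d14ca66)) e
 (c (a (nat_lit 0xf51bf182005)) e
 (c (a (nat_lit 0x10bbd86755c6)) e
 (c z e
 (c z e
 (c (a (nat_lit 0x989f109a007)) e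
 (c (b (nat_lit 0x1ff360000004)) e e)))))))
 (c (a (nat_lit 0xc0a0a0c1))
 (c (a (nat_lit 0x16f17ed9e485)) e
 (c (a (nat_lit 0x3c28020dd47)) e
 (c (a (nat_lit 0x3420224b1a7)) e e)))
 (c (a (nat_lit 0x1e46))
 (c (a (nat_lit 0x1e4ce2e06023)) e
 (c (b (nat_lit 0x5033affffe7)) e e))
 (c (a (nat_lit 0x203ebec5)) e
 (c z e
 (c (a (nat_lit 0x10b0b0a948)) e
 (c (a (nat_lit 0x1070666667)) e
 (c (a (nat_lit 0x1420202026)) e
 (c (a (nat_lit 0xa08080a1)) e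
 (c (a (nat_lit 0x203464)) e
 (c (a (nat_lit 0xc182a1)) e
 (c (a (nat_lit 0x203265)) e
 (c (a (nat_lit 0x24210261)) e
 (c (a (nat_lit 0x1200202027)) e
 (c (a (nat_lit 0x121c0e1)) e
 (c (a (nat_lit 0xe0c00001)) e e))))))))))))))))))))))) Tr.c Tr.e (nat_lit 0) C.cx C.cy
noncomputable def C130 : Tr := beta% (fun (c : Nat → Tr → Tr → Tr) (e : Tr) (z : Nat) (a b : Nat → Nat) =>
 (c (a (nat_lit 0x20202021))
 (c (nat_lit 1)
 (c (a (nat_lit 0x17f7d7f72fefe4))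
 (c (a (nat_lit 0x8a649494bb97a85))
 (c z e
 (c (a (nat_lit 0x3a1a26363252a92e9)) e
 (c (a (nat_lit 0xc0c4bee6f90585888)) e
 (c (a (nat_lit 0x625062589ee1869a8)) e e))))
 (c (a (nat_lit 0x2a3c5a66b2f92a8))
 (c (a (nat_lit 0x1a2a322838b56b88a)) e e)
 (c z e
 (c z e
 (c z e
 (c z e
 (c (a (nat_lit 0xf4f2db0d10e0d08)) e
 (c (a (nat_lit 0xc4a59ae2c4aa988)) e
 (c (a (nat_lit 0xb346e4bc8894528)) e
 (c (a (nat_lit 0x15934a88c5400007)) e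
 (c (a (nat_lit 0x14aba34000000007)) e e)))))))))))
 (c (a (nat_lit 0x11514f8e0b83c7))
 (c (a (nat_lit 0x466a709f0141429))
 (c (a (nat_lit 0x1e241a1c5edf127cb)) e e)
 (c z e
 (c z e
 (c z e
 (c z e
 (c (a (nat_lit 0x102fd3506ccb108a)) e
 (c (a (nat_lit 0xf7e924c8870aa09)) e e)))))))
 (c z e
 (c z e
 (c z e
 (c (a (nat_lit 0x1990d151602345)) e
 (c (a (nat_lit 0x6a0404187de05))
 (c (a (nat_lit 0xd2d4db0a7e00008)) e
 (c (a (nat_lit 0xf726b8000000008)) e e))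
 (c (a (nat_lit 0x20485d1a85))
 (c (a (nat_lit 0x1c4aa00000000006)) e e)
 (c (a (nat_lit 0x12cb4e0b2cc6)) e
 (c (a (nat_lit 0x7a040634372c6)) e
 (c (a (nat_lit 0x38707495ab706)) e
 (c (a (nat_lit 0xd2e2ed1914ec8)) e
 (c z e
 (c z e
 (c (a (nat_lit 0x12129045a00007)) e
 (c (a (nat_lit 0x178ac000000007)) e e))))))))))))))))
 (c (a (nat_lit 0x20200010a8))
 (c (a (nat_lit 0x1cd93eb88f2e27))
 (c (a (nat_lit 0x6e7492f7335aec9))
 (c (a (nat_lit 0x423a32692d90d4eea)) e e)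
 (c z e
 (c z e
 (c z e
 (c z e
 (c (a (nat_lit 0x163cb4af8d95ed4a)) e
 (c (a (nat_lit 0x14ca69a68dc4846a)) e e)))))))
 (c z e
 (c z e
 (c z e
 (c (a (nat_lit 0x13af8dc78856e7)) e
 (c (a (nat_lit 0x200246a964b67)) e
 (c (b (nat_lit 0x2cd0b2b49fe7)) e
 (c (a (nat_lit 0x6b7d9a2144)) e
 (c z e
 (c (a (nat_lit 0x386084c1326e8)) e
 (c (a (nat_lit 0x908caef7086c9)) e e)))))))))))
 (c (a (nat_lit 0x202010b0a8)) e
 (c (a (nat_lit 0x1b17b7a8)) e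
 (c z e
 (c (a (nat_lit 0x19f9f9ecece8)) e
 (c (a (nat_lit 0x1c3f60202006))
 (c (a (nat_lit 0x3d11fa76ce46)) e
 (c (a (nat_lit 0x4848a6453168)) e
 (c (a (nat_lit 0x244302e17449)) e
 (c z e
 (c (b (nat_lit 0x1ffffff36700e9)) e
 (c (a (nat_lit 0x4437988200009)) e e))))))
 (c (a (nat_lit 0x1c2020202006))
 (c (a (nat_lit 0x303c4c592d227)) e
 (c (a (nat_lit 0x1e32357d650a8)) e
 (c z e
 (c (a (nat_lit 0x4a43366808009)) e
 (c (a (nat_lit 0x7388880000009)) e e)))))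
 (c (a (nat_lit 0x40202034a4))
 (c z e
 (c (a (nat_lit 0x4ee7cf1018329)) e
 (c (a (nat_lit 0xe77cee1e00009)) e e)))
 (c (a (nat_lit 0x2034a084))
 (c (a (nat_lit 0x6d7e9a4c30008)) e
 (c (a (nat_lit 0x14a86140000009)) e e))
 (c (a (nat_lit 0xe6e8eeeb485))
 (c (a (nat_lit 0x11012000000007)) e e)
 (c (a (nat_lit 0x113414153068)) e
 (c z e
 (c z e
 (c (a (nat_lit 0x12cf6f6fa605)) e
 (c (a (nat_lit 0x184080a08c83)) e
 (c (a (nat_lit 0x20431885)) e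
 (c (a (nat_lit 0x23188f65)) e
 (c (a (nat_lit 0x15c6e0202025)) e
 (c (a (nat_lit 0x1b00e0400003)) e
 (c (a (nat_lit 0x30000000001)) e e)))))))))))))))))))))
 (c (a (nat_lit 0x20202021))
 (c (a (nat_lit 0x2020303028))
 (c (a (nat_lit 0x157371f0684b66))
 (c (a (nat_lit 0x828cdf355f05268))
 (c (a (nat_lit 0x524a52db42c8fe2c9)) e e)
 (c z e
 (c z e
 (c (a (nat_lit 0xf308db1ec0cab4b)) e
 (c (a (nat_lit 0x1db6d5541472d30a)) e
 (c (a (nat_lit 0x110a690728c6e84a)) e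
 (c (a (nat_lit 0x19fe591fafcba008)) e
 (c (a (nat_lit 0x8e9130440000009)) e e))))))))
 (c z e
 (c z e
 (c (b (nat_lit 0x11b31febe02709)) e
 (c (a (nat_lit 0x11cb07cbee3707)) e
 (c (a (nat_lit 0x1c3ed362ae007)) e
 (c (b (nat_lit 0x1fe88ab7ffe9a6)) e
 (c (b (nat_lit 0x3e549ad1ff0c7)) e
 (c z e
 (c (a (nat_lit 0xd4d2e78ef56e8)) e
 (c (a (nat_lit 0x11d39fbe4a7aa8)) e e)))))))))))
 (c (a (nat_lit 0x203d5b96a9)) e
 (c z e
 (c (a (nat_lit 0x1b5b5a4baba9))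
 (c (a (nat_lit 0x1c61163c83668))
 (c (a (nat_lit 0xab414433027e009)) e e)
 (c z e
 (c z e
 (c z e
 (c z e
 (c z e
 (c z e
 (c (a (nat_lit 0xaf1531965a00a)) e e))))))))
 (c (a (nat_lit 0x1d7d80202027))
 (c z e
 (c z e
 (c z e
 (c z e
 (c z e
 (c z e
 (c (a (nat_lit 0x13edb2a8600009)) e e)))))))
 (c (a (nat_lit 0x1c6020202007))
 (c (a (nat_lit 0x4c507893dc8)) e
 (c (a (nat_lit 0x306ccadeaf7a8)) e
 (c z e
 (c z e
 (c (a (nat_lit 0x820b62a638009)) e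
 (c (a (nat_lit 0x1012aa00000009)) e e))))))
 (c (a (nat_lit 0x6040403ce4))
 (c (b (nat_lit 0x85647fe4d0c8)) e
 (c z e
 (c z e
 (c (b (nat_lit 0x1fec7002a00009)) e
 (c (a (nat_lit 0x104f4000000009)) e e)))))
 (c (a (nat_lit 0x40404ed0a5))
 (c (b (nat_lit 0x3ff4c43feb48)) e e)
 (c (a (nat_lit 0x177777989789)) e
 (c (a (nat_lit 0xf4ff0d20dc8)) e
 (c (a (nat_lit 0xcf191105069)) e
 (c z e
 (c z e
 (c (a (nat_lit 0x1f8dc6669f45)) e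
 (c (a (nat_lit 0x3e0202fb446)) e
 (c (a (nat_lit 0x6ef740fa6)) e
 (c (b (nat_lit 0x1fe5416262a1)) e
 (c (a (nat_lit 0x4a3628001)) e
 (c (a (nat_lit 0x16180000001)) e e)))))))))))))))))))
 (c (a (nat_lit 0x20202021))
 (c z e
 (c (a (nat_lit 0x163632e4e3e9)) e
 (c (a (nat_lit 0x1dbea0202027)) e
 (c (a (nat_lit 0x1b8020202027)) e
 (c (a (nat_lit 0x20202035e4))
 (c (a (nat_lit 0x2a04283a7b2e8)) e e)
 (c (a (nat_lit 0x20592604)) e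
 (c z e
 (c z e
 (c z e
 (c z e
 (c z e
 (c z e
 (c (a (nat_lit 0x167605439746)) e
 (c z e
 (c z e
 (c (a (nat_lit 0x383a2618061)) e
 (c (a (nat_lit 0x665a1600001)) e
 (c (a (nat_lit 0x6000000001)) e e))))))))))))))))))
 C129)))) Tr.c Tr.e (nat_lit 0) C.cx C.cy
noncomputable def C131 : Tr := beta% (fun (c : Nat → Tr → Tr → Tr) (e : Tr) (z : Nat) (a b : Nat → Nat) =>
 (c (a (nat_lit 0x20202021))
 (c (a (nat_lit 0x1918f9e90728))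
 (c (b (nat_lit 0x1027bff66020a7))
 (c (a (nat_lit 0x1834ccc40279b487)) e
 (c (a (nat_lit 0x90825a5310d4aaa)) e e))
 (c (a (nat_lit 0x80c1a47e3e3e8))
 (c (a (nat_lit 0xf6c2ddcb84ac00a)) e e)
 (c z e
 (c (a (nat_lit 0x12a1c8894aeea8)) e
 (c z e
 (c z e
 (c z e
 (c z e
 (c (b (nat_lit 0xca7fffa096009)) e e)))))))))
 (c (a (nat_lit 0x116e02002028))
 (c (a (nat_lit 0x3d44180e18288))
 (c (a (nat_lit 0x80bd1f264e0000a)) e
 (c (a (nat_lit 0x17fd58000000000a)) e e))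
 (c (a (nat_lit 0x1c87424385fb48)) e
 (c (a (nat_lit 0x283c44df869)) e
 (c z e
 (c z e
 (c z e
 (c (a (nat_lit 0x125cf5065636a)) e
 (c (a (nat_lit 0x4541f26400009)) e e))))))))
 (c (a (nat_lit 0x170020202027))
 (c (a (nat_lit 0x2041043d9d27)) e
 (c z e
 (c z e
 (c z e
 (c z e
 (c (b (nat_lit 0x1fe9718623200a)) e
 (c (a (nat_lit 0x991e4c000000a)) e e)))))))
 (c (a (nat_lit 0x60406053e4))
 (c (a (nat_lit 0x22380c037a289)) e
 (c z e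
 (c z e
 (c z e
 (c z e
 (c (a (nat_lit 0x1c046000000007)) e e))))))
 (c (b (nat_lit 0xa0a0a357fe5)) e
 (c (a (nat_lit 0x1898adf7c005)) e
 (c z e
 (c z e
 (c (a (nat_lit 0x1131110f7068)) e
 (c (a (nat_lit 0xa8a8aaad348)) e
 (c (a (nat_lit 0x32167629)) e
 (c z e
 (c z e
 (c (b (nat_lit 0x5ffca02007)) e
 (c (b (nat_lit 0x1ffcc0402027)) e
 (c (a (nat_lit 0x1cc1a0200007)) e
 (c (a (nat_lit 0x18a000000003)) e e)))))))))))))))))
 (c (a (nat_lit 0x20202021))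
 (c (a (nat_lit 0x186020202026))
 (c (a (nat_lit 0x19a0c044a5ec06))
 (c (a (nat_lit 0xdaf148380000008)) e
 (c (a (nat_lit 0x1af2a00000000009)) e e))
 (c (a (nat_lit 0x602162221109)) e
 (c (a (nat_lit 0x21e2050c1969)) e
 (c (a (nat_lit 0x251203fa0108)) e
 (c z e
 (c z e
 (c (a (nat_lit 0xdb65e0fa92008)) e
 (c (a (nat_lit 0x103624a0000008)) e
 (c (a (nat_lit 0x10800000000008)) e e)))))))))
 (c (a (nat_lit 0x4040405244))
 (c (a (nat_lit 0x206100a770ea)) e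
 (c (a (nat_lit 0x22e1a37053ea)) e
 (c (b (nat_lit 0x1fe2acbf2e8d8a)) e
 (c z e
 (c z e
 (c (a (nat_lit 0x15b58c6720000a)) e
 (c (a (nat_lit 0x1385a00000000a)) e e)))))))
 (c (a (nat_lit 0x60407bc004))
 (c (a (nat_lit 0x8c7a99a537029)) e
 (c z e
 (c z e
 (c z e
 (c (a (nat_lit 0x16206160000009)) e
 (c (a (nat_lit 0x17200000000004)) e e))))))
 (c (b (nat_lit 0xd6d925fe005)) e
 (c z e
 (c z e
 (c (a (nat_lit 0x1e9d9d7bc0c5)) e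
 (c (a (nat_lit 0x4e4c481d383)) e
 (c (a (nat_lit 0x2042db86)) e
 (c (a (nat_lit 0x3295b9e9)) e
 (c (a (nat_lit 0xa2f0e568)) e
 (c (a (nat_lit 0x28bb022027)) e
 (c (a (nat_lit 0x85a81a02007)) e
 (c (a (nat_lit 0x1aa1c0202007)) e
 (c (a (nat_lit 0x1c00a0000003)) e e)))))))))))))))
 (c (nat_lit 1)
 (c (b (nat_lit 0x4e4e4f05fe5))
 (c (a (nat_lit 0x21e2413e64a7)) e
 (c z e
 (c (b (nat_lit 0x6b997fe5a589)) e
 (c z e
 (c z e
 (c (a (nat_lit 0x1c67c840000008)) e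
 (c (a (nat_lit 0x1ae00000000001)) e e)))))))
 (c (a (nat_lit 0x113151f208a8))
 (c (a (nat_lit 0x7e85969caa7e9)) e
 (c (a (nat_lit 0xe3bd9684a4289)) e e))
 (c z e
 (c z e
 (c (b (nat_lit 0x16b5dff80225)) e
 (c (a (nat_lit 0x1bdb9b604025)) e
 (c (a (nat_lit 0x322a24133e3)) e
 (c (a (nat_lit 0x207ca045)) e
 (c (a (nat_lit 0x4647898b789)) e
 (c (a (nat_lit 0x1c9a8717167)) e
 (c (a (nat_lit 0x6232d2a122)) e
 (c (a (nat_lit 0x181a384c1e1)) e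
 (c (a (nat_lit 0x2102400001)) e
 (c (nat_lit 1) e e))))))))))))))
 (c (a (nat_lit 0x20200001))
 (c (a (nat_lit 0x159a98573546))
 (c (a (nat_lit 0xa7d300e89cb47)) e
 (c (a (nat_lit 0x18eba9c9486848)) e
 (c (b (nat_lit 0x155ffbf9ade006)) e
 (c (a (nat_lit 0x1580360000006)) e e))))
 (c (a (nat_lit 0x8dcfd5d5706))
 (c (a (nat_lit 0x13a4c92886c507)) e
 (c (a (nat_lit 0x1515b284200006)) e e))
 (c (a (nat_lit 0xf1999ba3a45))
 (c (a (nat_lit 0x2b04200000005)) e e)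
 (c (b (nat_lit 0x131ff5c04b25)) e
 (c (a (nat_lit 0xc060969be4)) e
 (c (a (nat_lit 0xc0c1799e025)) e
 (c (b (nat_lit 0xcaf52eaffe8)) e
 (c (a (nat_lit 0x8e939b834c9)) e
 (c (a (nat_lit 0x14764830f126)) e
 (c (a (nat_lit 0xdeb68859106)) e
 (c (a (nat_lit 0x220566ba005)) e
 (c (a (nat_lit 0x1540000004)) e e))))))))))))
 (c (a (nat_lit 0x20202021))
 (c (a (nat_lit 0x3941393d3e6))
 (c (a (nat_lit 0x42cfd5bf08003)) e
 (c (a (nat_lit 0x1dbc4ac0000003)) e e))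
 (c (a (nat_lit 0x1d9dbe3e7de6))
 (c (a (nat_lit 0x16402000000004)) e e)
 (c (a (nat_lit 0xeef0f2ed307)) e
 (c (a (nat_lit 0x1394f49b0966)) e
 (c (b (nat_lit 0x149456ea3fe7)) e
 (c (b (nat_lit 0xb0e70bfffe8)) e
 (c (a (nat_lit 0x52495f29389)) e
 (c (a (nat_lit 0x1572cc0db907)) e
 (c (a (nat_lit 0xe9eceb81806)) e
 (c (a (nat_lit 0x2e01c00001)) e
 (c (a (nat_lit 0xca000000001)) e e)))))))))))
 (c (nat_lit 1)
 (c (a (nat_lit 0xff00faf8fc6)) e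
 (c (a (nat_lit 0x1e9ebd7e3bc6)) e
 (c (a (nat_lit 0x1312b12fe1a6)) e
 (c (b (nat_lit 0x1412b0e55fe7)) e
 (c z e
 (c z e
 (c (a (nat_lit 0xcad0c2eb4c7)) e
 (c (a (nat_lit 0x292d0e86006)) e
 (c (a (nat_lit 0xb720000003)) e e)))))))))
 (c (a (nat_lit 0x200001))
 (c (a (nat_lit 0x1756f4ac4045)) e
 (c (a (nat_lit 0x17d3086bc006)) e
 (c z e
 (c z e
 (c z e
 (c (a (nat_lit 0x8901211d1a6)) e
 (c (a (nat_lit 0x58b0c00004)) e e)))))))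
 (c (a (nat_lit 0x40202041))
 (c (a (nat_lit 0xd14d5fda005)) e
 (c (a (nat_lit 0x110c62408f26)) e
 (c (a (nat_lit 0x4c34246d2a7)) e
 (c (a (nat_lit 0x406e30b409)) e
 (c (a (nat_lit 0x7d191ce4007)) e
 (c (a (nat_lit 0xf1120000006)) e e))))))
 (c (nat_lit 1)
 (c (a (nat_lit 0x14040203388)) e
 (c (a (nat_lit 0x8080ac5229)) e
 (c (a (nat_lit 0x204c0c912a)) e e)))
 (c (a (nat_lit 0x20203fc5))
 (c (b (nat_lit 0x13471bfe6)) e
 (c (b (nat_lit 0x1ffff8a1a009)) e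
 (c (a (nat_lit 0xe91c0000008)) e e)))
 (c (a (nat_lit 0x4059bac8))
 (c (b (nat_lit 0x1fe11c000008)) e
 (c (a (nat_lit 0x17a000000006)) e e))
 (c (a (nat_lit 0xa1112b2a8)) e
 (c (a (nat_lit 0x16f65a0bc7)) e
 (c (a (nat_lit 0x1b60404025)) e
 (c (a (nat_lit 0x1c0e04001)) e
 (c (a (nat_lit 0xc060a001)) e
 (c (a (nat_lit 0x20203444)) e
 (c (a (nat_lit 0xe381c1)) e
 (c (a (nat_lit 0x1c0407124)) e
 (c (a (nat_lit 0x400e061)) e
 (c (a (nat_lit 0xf01a16181)) e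
 (c (a (nat_lit 0xc0a0a001)) e
 (c (nat_lit 1) e e)))))))))))))))))))))))) Tr.c Tr.e (nat_lit 0) C.cx C.cy
noncomputable def C132 : Tr := beta% (fun (c : Nat → Tr → Tr → Tr) (e : Tr) (z : Nat) (a b : Nat → Nat) =>
 (c (nat_lit 1)
 (c (nat_lit 1)
 (c (a (nat_lit 0x1555353533c585))
 (c (a (nat_lit 0x2627c8a951ff47))
 (c (a (nat_lit 0x885a7454688ce72a8)) e
 (c (a (nat_lit 0x36702e486290eba8a)) e
 (c (a (nat_lit 0x58685e78a296b92ea)) e e)))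
 (c (a (nat_lit 0x20e283654ab0ca)) e
 (c z e
 (c z e
 (c z e
 (c z e
 (c (a (nat_lit 0x1919f712d934af09)) e
 (c (a (nat_lit 0xb6a67b2c8e847ca)) e
 (c (a (nat_lit 0xa887509a8084aaa)) e
 (c (a (nat_lit 0x9f1ece6ec27c009)) e
 (c (a (nat_lit 0x115685c400000008)) e e)))))))))))
 (c (a (nat_lit 0x12929290c8e307)) e
 (c z e
 (c z e
 (c z e
 (c z e
 (c (a (nat_lit 0x1711116ae52e86))
 (c (a (nat_lit 0xb7511a70803e008)) e
 (c (a (nat_lit 0x1d5991ec60000008)) e e))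
 (c (a (nat_lit 0x2604020673447))
 (c (a (nat_lit 0x1114a82000000008)) e e)
 (c (a (nat_lit 0x28037456e7)) e
 (c (a (nat_lit 0xc9688a0d51c8)) e
 (c (a (nat_lit 0x1c3a505ae5328)) e
 (c z e
 (c z e
 (c z e
 (c (a (nat_lit 0x1138fa34240008)) e
 (c (a (nat_lit 0x12b34820000009)) e e))))))))))))))))
 (c (a (nat_lit 0x20202001))
 (c (b (nat_lit 0x10504decbfffe8)) e
 (c z e
 (c z e
 (c z e
 (c z e
 (c (a (nat_lit 0xa8382646af608))
 (c (a (nat_lit 0x10f4ce5267400009)) e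
 (c (a (nat_lit 0x102cec200000000a)) e e))
 (c (a (nat_lit 0x120274c317668))
 (c (a (nat_lit 0x16d1c00000000008)) e e)
 (c z e
 (c z e
 (c z e
 (c z e
 (c z e
 (c z e
 (c (a (nat_lit 0x1dff7c8a800009)) e
 (c (a (nat_lit 0x1369000000000a)) e e)))))))))))))))
 (c (a (nat_lit 0x202030e9)) e
 (c (a (nat_lit 0x3290c9)) e
 (c (a (nat_lit 0x2037b43429)) e
 (c z e
 (c (a (nat_lit 0x1514f6ab8b89))
 (c (a (nat_lit 0xfe9f092724e28)) e
 (c (a (nat_lit 0x27d7db9100f08)) e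
 (c (a (nat_lit 0x42304e361f24a)) e
 (c (a (nat_lit 0x1290cae938f908)) e e))))
 (c (a (nat_lit 0x141269290908))
 (c (a (nat_lit 0x4678747267109)) e
 (c (a (nat_lit 0x1860684bde4e9)) e
 (c (b (nat_lit 0x224a5fff56ba9)) e e)))
 (c (a (nat_lit 0x1d8020202006))
 (c (a (nat_lit 0x2424174672209)) e
 (c (b (nat_lit 0x13ffd4b1fe409)) e
 (c (a (nat_lit 0x55dee48c24009)) e e)))
 (c (a (nat_lit 0x40202034a5))
 (c (b (nat_lit 0x68fdffff16386)) e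
 (c (a (nat_lit 0x1f3d0aea800008)) e e))
 (c (a (nat_lit 0x202054a105))
 (c (a (nat_lit 0x1c6200c0000008)) e
 (c (a (nat_lit 0x1da00000000005)) e e))
 (c (b (nat_lit 0x1617feed2e7)) e
 (c z e
 (c z e
 (c (a (nat_lit 0x176427c160e7)) e
 (c (a (nat_lit 0x1406e7476105)) e
 (c (a (nat_lit 0x7e06061f5c4)) e
 (c (a (nat_lit 0x80a12774a6)) e
 (c (a (nat_lit 0x211805611a6)) e
 (c (a (nat_lit 0x1801204003)) e
 (c (a (nat_lit 0x18c140000003)) e e)))))))))))))))))))))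
 (c (a (nat_lit 0x20404021))
 (c (a (nat_lit 0x2020203068))
 (c z e
 (c z e
 (c z e
 (c z e
 (c z e
 (c (a (nat_lit 0x5c0e447b333e7))
 (c (a (nat_lit 0xc12b206e0000009)) e e)
 (c (a (nat_lit 0x1c2aeae16ab07)) e
 (c z e
 (c z e
 (c z e
 (c z e
 (c z e
 (c z e
 (c (a (nat_lit 0xff16860000009)) e e))))))))))))))
 (c (a (nat_lit 0x2020321069)) e
 (c (a (nat_lit 0x3dda98e9)) e
 (c z e
 (c (a (nat_lit 0x1110f0e02009)) e
 (c (a (nat_lit 0x1692e0202007))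
 (c (a (nat_lit 0x4848bc8c610e8)) e
 (c (a (nat_lit 0xa3418182d06b)) e
 (c (a (nat_lit 0x18eacc6eff93c8)) e e)))
 (c (a (nat_lit 0x1f6020202006))
 (c (a (nat_lit 0x1e18262d285ea)) e
 (c (a (nat_lit 0x422376e6018a)) e e))
 (c (a (nat_lit 0x6040403ce4)) e
 (c (a (nat_lit 0x21c1f05165))
 (c (a (nat_lit 0x4755137882007)) e
 (c (a (nat_lit 0x194ea900000008)) e e))
 (c (a (nat_lit 0xa6acc9f31c5))
 (c (a (nat_lit 0x1fe80000000003)) e e)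
 (c z e
 (c z e
 (c z e
 (c (a (nat_lit 0x9f101c1c247)) e
 (c (a (nat_lit 0x10e201a227e7)) e
 (c (a (nat_lit 0x12061900fe6)) e
 (c z e
 (c (b (nat_lit 0x1fe1e665e481)) e
 (c (b (nat_lit 0x1fe1c0e00001)) e
 (c (a (nat_lit 0x2000000001)) e e))))))))))))))))))))
 (c (a (nat_lit 0x20404041))
 (c (a (nat_lit 0x203e1e9828)) e
 (c z e
 (c (a (nat_lit 0x1736f4a443e9)) e
 (c (a (nat_lit 0x1c76a2002007)) e
 (c (a (nat_lit 0x110020202007))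
 (c (a (nat_lit 0x6121a1405409)) e
 (c (a (nat_lit 0xa1a22170e22a)) e e))
 (c (a (nat_lit 0x40404035e4))
 (c (a (nat_lit 0x56606bb85c049)) e e)
 (c (a (nat_lit 0x4020762344)) e
 (c z e
 (c z e
 (c z e
 (c z e
 (c z e
 (c (a (nat_lit 0x1ca762616026)) e
 (c (a (nat_lit 0x16c6a5087e65)) e
 (c (a (nat_lit 0x50080fd4285)) e
 (c z e
 (c (a (nat_lit 0x6a201a001)) e
 (c (a (nat_lit 0xe120000001)) e e))))))))))))))))))
 C131)))) Tr.c Tr.e (nat_lit 0) C.cx C.cy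
noncomputable def C133 : Tr := beta% (fun (c : Nat → Tr → Tr → Tr) (e : Tr) (z : Nat) (a b : Nat → Nat) =>
 (c (nat_lit 1)
 (c (a (nat_lit 0x17204040404006))
 (c (a (nat_lit 0x24c545ec1808))
 (c (a (nat_lit 0x100d292b482bd0f5e9))
 (c z e
 (c (a (nat_lit 0x158b466642800000000b)) e e))
 (c z e
 (c z e
 (c z e
 (c z e
 (c z e
 (c (a (nat_lit 0x13b57529e00000000a)) e
 (c (a (nat_lit 0x18ecc000000000000a)) e e))))))))
 (c z e
 (c z e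
 (c z e
 (c z e
 (c z e
 (c (a (nat_lit 0x13f818512e1e5269)) e
 (c (a (nat_lit 0xd8e4b671748278a)) e
 (c (a (nat_lit 0x104da8ff0aa7ee2a)) e
 (c (a (nat_lit 0xd6951ea85ed086a)) e
 (c (a (nat_lit 0xaf1b56567e00009)) e e)))))))))))
 (c (b (nat_lit 0x18b87878715fe5))
 (c z e
 (c z e
 (c z e
 (c z e
 (c z e
 (c (a (nat_lit 0x12106dae97ef47cb)) e
 (c (a (nat_lit 0x106eebfcce09cb0b)) e e)))))))
 (c (a (nat_lit 0x1292929046e067)) e
 (c (b (nat_lit 0x1858515fffffe7)) e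
 (c z e
 (c z e
 (c (a (nat_lit 0x1a4b2d87a2a247))
 (c (b (nat_lit 0x137ff46bc1406108)) e
 (c (a (nat_lit 0x37e348d86c00008)) e
 (c (a (nat_lit 0x14b0460000000009)) e e)))
 (c (a (nat_lit 0xb64c585415186))
 (c (a (nat_lit 0x145212e800000008)) e
 (c (a (nat_lit 0x11c9a00000000009)) e e))
 (c (a (nat_lit 0x180c0c0a514e7)) e
 (c (a (nat_lit 0x608ca5733c87)) e
 (c (a (nat_lit 0x14748ea2ebca8)) e
 (c z e
 (c z e
 (c z e
 (c (a (nat_lit 0xbd7d8d8aec308)) e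
 (c (a (nat_lit 0x1050f0c6000009)) e
 (c (a (nat_lit 0x15cae000000009)) e e)))))))))))))))))
 (c (a (nat_lit 0x20202001))
 (c (a (nat_lit 0x1afafaf87388a6)) e
 (c z e
 (c z e
 (c z e
 (c z e
 (c (a (nat_lit 0x7f20483c66cc7))
 (c (a (nat_lit 0x6c84c528ec40009)) e
 (c (a (nat_lit 0xb6973294000000a)) e e))
 (c (a (nat_lit 0xd826242ed5107))
 (c (a (nat_lit 0x9fb0b6000000008)) e e)
 (c (a (nat_lit 0x1612869d157e7)) e
 (c (a (nat_lit 0x80dd09b16c7)) e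
 (c z e
 (c z e
 (c z e
 (c z e
 (c (a (nat_lit 0x93d0fec450009)) e
 (c (a (nat_lit 0x1f522740000009)) e e)))))))))))))))
 (c (a (nat_lit 0x20202021))
 (c z e
 (c z e
 (c z e
 (c z e
 (c (a (nat_lit 0xec7e4a649d327))
 (c (a (nat_lit 0x1135ea1b66800008)) e
 (c (a (nat_lit 0x12cbb28000000009)) e e))
 (c (a (nat_lit 0x32185e9306987))
 (c (a (nat_lit 0x1270e00000000008)) e e)
 (c z e
 (c z e
 (c z e
 (c z e
 (c z e
 (c z e
 (c (a (nat_lit 0x63a1382a00007)) e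
 (c (a (nat_lit 0x18406000000007)) e e))))))))))))))
 (c (a (nat_lit 0x3108))
 (c (a (nat_lit 0x12e383a3a8b6c6)) e
 (c (a (nat_lit 0x8080a6b30047))
 (c (a (nat_lit 0x11f4732e2d6cab6b)) e e)
 (c (a (nat_lit 0x282a6d7380027))
 (c z e
 (c z e
 (c (a (nat_lit 0xcf3ad0000000009)) e e)))
 (c (a (nat_lit 0x20d4bd68228))
 (c (a (nat_lit 0x1113056d80000008)) e e)
 (c (a (nat_lit 0x6084b1a0ea068)) e
 (c z e
 (c z e
 (c (a (nat_lit 0x11aaa909eb4229)) e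
 (c (b (nat_lit 0xd0040a0f27fe7)) e e)))))))))
 (c (a (nat_lit 0x202034d148))
 (c (a (nat_lit 0x1414143c57648))
 (c (a (nat_lit 0x19da76536f4cd7e9)) e
 (c (a (nat_lit 0x1532cf720caded6b)) e
 (c (a (nat_lit 0xf0cecb5ab60000a)) e
 (c (a (nat_lit 0x191b57e000000009)) e e))))
 (c (a (nat_lit 0x5c5f0183b3267))
 (c z e
 (c (a (nat_lit 0x117c7a724000000a)) e
 (c (a (nat_lit 0x182a80000000000a)) e e)))
 (c z e
 (c z e
 (c z e
 (c z e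
 (c (b (nat_lit 0x190d265b7fe046)) e
 (c (a (nat_lit 0x826e6cd417ba9)) e
 (c z e
 (c (a (nat_lit 0x462f87a800009)) e
 (c (a (nat_lit 0x1ad74000000007)) e e)))))))))))
 (c (a (nat_lit 0x1a1bb13b3a8))
 (c (b (nat_lit 0x224503feeeb27))
 (c (a (nat_lit 0x412b67e65200008)) e e)
 (c z e
 (c z e
 (c z e
 (c z e
 (c (b (nat_lit 0x524a9bfe2d569)) e
 (c z e
 (c (b (nat_lit 0x724f07fe1a00a)) e
 (c (a (nat_lit 0x488324000000a)) e
 (c (a (nat_lit 0x1be00000000006)) e e))))))))))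
 (c (a (nat_lit 0x99597372c88))
 (c (a (nat_lit 0xdcf2d2c6cf028)) e
 (c (a (nat_lit 0x118ff411546e88)) e
 (c (a (nat_lit 0xb2fb271c9ab88)) e
 (c (a (nat_lit 0x7ac0c23629648)) e
 (c (a (nat_lit 0x58743e3393b69)) e e)))))
 (c (a (nat_lit 0x1a7adfeb8a27))
 (c (a (nat_lit 0x99031eeacf227)) e
 (c (a (nat_lit 0x486c6c5465be9)) e
 (c (a (nat_lit 0x786c3e7f8fb48)) e
 (c (a (nat_lit 0xe102150ce0ca)) e
 (c (b (nat_lit 0x180d22e9fe00a)) e e)))))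
 (c (a (nat_lit 0x138cca28c8c7))
 (c (a (nat_lit 0x667a4e5b61328)) e
 (c (a (nat_lit 0x96428db303428)) e e))
 (c (a (nat_lit 0x146080606064))
 (c (b (nat_lit 0x1ffffffff4fbc6)) e
 (c (a (nat_lit 0x687d22c844009)) e e))
 (c (a (nat_lit 0x60402054a4))
 (c (a (nat_lit 0xa732660a00009)) e
 (c (a (nat_lit 0x1585600000000a)) e e))
 (c (a (nat_lit 0x404074e184))
 (c (a (nat_lit 0x12e00000000007)) e e)
 (c (a (nat_lit 0x15d5d8787828)) e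
 (c (a (nat_lit 0x3c53292d1c9)) e
 (c (a (nat_lit 0xfb1cdcd2d07)) e
 (c (a (nat_lit 0x1daa8a8a6085)) e
 (c (a (nat_lit 0x5418141c9e1)) e
 (c (a (nat_lit 0x6061dd83)) e
 (c (a (nat_lit 0x4060e7f005)) e
 (c (a (nat_lit 0x9060505065)) e
 (c (a (nat_lit 0x464e3000001)) e
 (c (a (nat_lit 0x2000000001)) e e))))))))))))))))))))))) Tr.c Tr.e (nat_lit 0) C.cx C.cy
noncomputable def C134 : Tr := beta% (fun (c : Nat → Tr → Tr → Tr) (e : Tr) (z : Nat) (a b : Nat → Nat) =>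
 (c (a (nat_lit 0x2021))
 (c (a (nat_lit 0x1fdf8fafafa6))
 (c (a (nat_lit 0x20200834b56c4))
 (c z e
 (c (a (nat_lit 0x15b5502000000008)) e e))
 (c (a (nat_lit 0x202042861087))
 (c (a (nat_lit 0x18a9c00000000009)) e e)
 (c (a (nat_lit 0x4604205573d47)) e
 (c (a (nat_lit 0x20a2cdd0d3e8)) e
 (c (a (nat_lit 0x284062935aae9)) e
 (c z e
 (c (a (nat_lit 0xa6caf920d6608)) e
 (c (a (nat_lit 0x10945e8a800007)) e
 (c (a (nat_lit 0x106a0000000008)) e e)))))))))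
 (c (a (nat_lit 0x1ec020202026))
 (c (a (nat_lit 0xc020c245d588))
 (c (a (nat_lit 0x1880000000000007)) e e)
 (c (a (nat_lit 0x2121e6aed1a9)) e
 (c (a (nat_lit 0x25ae0eb66a49)) e
 (c (a (nat_lit 0x22a915a906ea)) e
 (c z e
 (c (a (nat_lit 0xdb2550e076009)) e
 (c (a (nat_lit 0xfb285c0000009)) e
 (c (a (nat_lit 0x19400000000008)) e e))))))))
 (c (a (nat_lit 0x202220210a1))
 (c (a (nat_lit 0x2ccda5059187)) e
 (c (a (nat_lit 0x429e87205e649)) e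
 (c z e
 (c z e
 (c (a (nat_lit 0x199f4101200007)) e
 (c (a (nat_lit 0x14404000000007)) e e))))))
 (c (a (nat_lit 0x822dd001))
 (c (a (nat_lit 0x1694fab80f7048)) e
 (c (a (nat_lit 0x9f754e9a7efa9)) e
 (c z e
 (c (a (nat_lit 0x1e644100000008)) e
 (c (a (nat_lit 0x1b600000000004)) e e)))))
 (c (a (nat_lit 0xd4df1514ee6))
 (c (a (nat_lit 0x15898a2508c469)) e e)
 (c z e
 (c (a (nat_lit 0x12a666650003)) e
 (c (a (nat_lit 0x8a84a860561)) e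
 (c (a (nat_lit 0x1816422c1)) e
 (c (a (nat_lit 0x20809824)) e
 (c (a (nat_lit 0x1018051bfe4)) e
 (c (a (nat_lit 0x416a104a65)) e
 (c (a (nat_lit 0x17d8f955c3)) e
 (c (a (nat_lit 0x4a3c0e1e021)) e
 (c (a (nat_lit 0x6c401200001)) e
 (c (a (nat_lit 0x2e000000001)) e e))))))))))))))))
 (c (a (nat_lit 0x20202021))
 (c (a (nat_lit 0x40a12001))
 (c (a (nat_lit 0x202103291627)) e
 (c (a (nat_lit 0x204280403ae8)) e
 (c (a (nat_lit 0x9107b8f92a8)) e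
 (c (a (nat_lit 0x7ee3c4fcacee9)) e
 (c (a (nat_lit 0x949f08e6b2549)) e
 (c (a (nat_lit 0x14d70d27a00008)) e
 (c (a (nat_lit 0x16062000000008)) e e)))))))
 (c (a (nat_lit 0xc4c6c710045))
 (c (a (nat_lit 0x3a7c7ee32f5e8)) e
 (c (a (nat_lit 0xbad55eb6ac989)) e
 (c z e
 (c (a (nat_lit 0xb72eec8256009)) e
 (c (a (nat_lit 0x14c0a060000008)) e
 (c (a (nat_lit 0x17400000000005)) e e))))))
 (c (a (nat_lit 0x1030cf6f4bc6))
 (c (a (nat_lit 0x163315efb0b3e8)) e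
 (c (a (nat_lit 0x1166c149092369)) e e))
 (c (a (nat_lit 0x1878d6b6b387))
 (c (a (nat_lit 0x13809b58c68007)) e e)
 (c (a (nat_lit 0x13d3d4141408)) e
 (c (a (nat_lit 0x1695964500c1)) e
 (c (a (nat_lit 0x40705e45901)) e
 (c (a (nat_lit 0x4083d5e4)) e
 (c (a (nat_lit 0x9aa0d9f8224)) e
 (c (a (nat_lit 0x2b25d5d04)) e
 (c (a (nat_lit 0x381c16001)) e
 (c (a (nat_lit 0x4a2c220c001)) e
 (c (a (nat_lit 0x8a6e3002001)) e
 (c (a (nat_lit 0x982e0000001)) e e))))))))))))))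
 (c (a (nat_lit 0x20202021))
 (c (a (nat_lit 0x6086fb141c4))
 (c (a (nat_lit 0x72826089848a6)) e
 (c (a (nat_lit 0xff19408ed8e67)) e
 (c (a (nat_lit 0x186825418604a7)) e
 (c (a (nat_lit 0xef40202e00006)) e
 (c (a (nat_lit 0x108000000003)) e e)))))
 (c (a (nat_lit 0xe7313335326))
 (c (a (nat_lit 0x10cff12e1172e7)) e
 (c (a (nat_lit 0x103fe68c290007)) e
 (c (a (nat_lit 0x11afe520000006)) e e)))
 (c (a (nat_lit 0x993f3f41465))
 (c (a (nat_lit 0x1682e2c2600007)) e e)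
 (c (a (nat_lit 0x109515355565)) e
 (c (a (nat_lit 0xc080809264)) e
 (c (a (nat_lit 0x10121b315a4)) e
 (c (a (nat_lit 0xaeb15d607a7)) e
 (c (a (nat_lit 0x109515c9a006)) e
 (c (a (nat_lit 0xdb3b2c4c4a3)) e
 (c (a (nat_lit 0x6d26fa0a064)) e
 (c (a (nat_lit 0x991e3c08065)) e
 (c (a (nat_lit 0x11c380400005)) e
 (c (a (nat_lit 0x1a6000000002)) e e)))))))))))))
 (c (a (nat_lit 0x20202021))
 (c (a (nat_lit 0x656d6565666))
 (c (a (nat_lit 0x1127a84cd1c766)) e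
 (c (a (nat_lit 0x12bd0ef800006)) e
 (c (a (nat_lit 0x11618000000005)) e e)))
 (c (a (nat_lit 0x14d5b5d61626))
 (c (a (nat_lit 0x1af3b00000004)) e e)
 (c (a (nat_lit 0x18185898ba05)) e
 (c (a (nat_lit 0x8040a394a4)) e
 (c (a (nat_lit 0x115172164446)) e
 (c (b (nat_lit 0xd8e16a45fe7)) e
 (c (a (nat_lit 0x1176d2c8cc26)) e
 (c (a (nat_lit 0x1549409392e5)) e
 (c (a (nat_lit 0x14cf5ef15145)) e
 (c (a (nat_lit 0x1cc200c06003)) e
 (c (a (nat_lit 0x64100000001)) e e)))))))))))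
 (c (nat_lit 1)
 (c (a (nat_lit 0x165656b6d785)) e
 (c (a (nat_lit 0x115191f35445)) e
 (c (a (nat_lit 0x8107110164)) e
 (c (b (nat_lit 0x1bdc9d12bfe6)) e
 (c (b (nat_lit 0x8927fe82487)) e
 (c z e
 (c (a (nat_lit 0x12a9292a09e6)) e
 (c (a (nat_lit 0x7e7f8305025)) e
 (c (a (nat_lit 0x1920c0800003)) e
 (c (a (nat_lit 0xc000000001)) e e))))))))))
 (c (nat_lit 1)
 (c (a (nat_lit 0x202af56f6a1)) e
 (c (a (nat_lit 0x1abc3d7a0005)) e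
 (c (a (nat_lit 0x15bc3c2d4866)) e
 (c z e
 (c (a (nat_lit 0x17e120a5fb85)) e
 (c (a (nat_lit 0x8e86dd51e65)) e
 (c (a (nat_lit 0xc6d1b18005)) e
 (c (a (nat_lit 0x702e0000001)) e e))))))))
 (c (a (nat_lit 0x40404041))
 (c (a (nat_lit 0xc47e7f448a5)) e
 (c (a (nat_lit 0x7f08f0af065)) e
 (c (a (nat_lit 0xdd249a31a45)) e
 (c (a (nat_lit 0x861c0d90e25)) e
 (c (a (nat_lit 0x386722e5)) e
 (c (a (nat_lit 0x1840400005)) e
 (c (a (nat_lit 0x124000000004)) e e)))))))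
 (c (nat_lit 1)
 (c (a (nat_lit 0x1788bb47183)) e
 (c (a (nat_lit 0x20141403167)) e
 (c (a (nat_lit 0x206030e5c7)) e
 (c (a (nat_lit 0x8031634007)) e
 (c (a (nat_lit 0x1780000004)) e e)))))
 (c (a (nat_lit 0x40404041))
 (c (a (nat_lit 0x141254a90a7)) e
 (c (a (nat_lit 0x301810b33e6)) e
 (c (a (nat_lit 0x31000004)) e
 (c (a (nat_lit 0x2000000001)) e e))))
 (c (a (nat_lit 0x21))
 (c (a (nat_lit 0x53300404003)) e
 (c (a (nat_lit 0x2060000001)) e e))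
 (c (a (nat_lit 0xa0a08001))
 (c (a (nat_lit 0x4000000001)) e e)
 (c (a (nat_lit 0x1e14141e1)) e
 (c (a (nat_lit 0x666e3a0c1)) e
 (c (a (nat_lit 0x144da02024)) e
 (c (a (nat_lit 0x1180202004)) e
 (c (a (nat_lit 0x202021)) e
 (c (a (nat_lit 0x207121)) e
 (c (a (nat_lit 0x927521)) e
 (c (a (nat_lit 0x180e19aa1)) e
 (c (a (nat_lit 0x21a481)) e
 (c (a (nat_lit 0x41e181)) e
 (c (a (nat_lit 0x600001)) e e))))))))))))))))))))))) Tr.c Tr.e (nat_lit 0) C.cx C.cy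
noncomputable def C135 : Tr := beta% (fun (c : Nat → Tr → Tr → Tr) (e : Tr) (z : Nat) (a b : Nat → Nat) =>
 (c (a (nat_lit 0x20202021))
 (c (a (nat_lit 0x2020202021))
 (c (a (nat_lit 0x11b1d0f0cd8926))
 (c (a (nat_lit 0x5c7c9e9eab432a7))
 (c (a (nat_lit 0x4e3640625691267c8)) e
 (c z e
 (c z e
 (c (a (nat_lit 0x129093b72000000009)) e e))))
 (c z e
 (c z e
 (c (a (nat_lit 0x10529dfc9317d129)) e
 (c (a (nat_lit 0x64cb08b4785ac09)) e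
 (c z e
 (c (a (nat_lit 0x10388e4d350a44c8)) e
 (c (b (nat_lit 0xab02a13313fe007)) e e))))))))
 (c z e
 (c z e
 (c (a (nat_lit 0xccc109623a187))
 (c (a (nat_lit 0x10c92dab6d0849ea)) e
 (c z e
 (c z e
 (c z e
 (c (a (nat_lit 0x191524a000000008)) e e)))))
 (c z e
 (c (a (nat_lit 0x1e5912104055c5))
 (c (a (nat_lit 0x1626e3fe8a400007)) e e)
 (c (a (nat_lit 0x18052064e5a885)) e
 (c (b (nat_lit 0x108636f049dfe4)) e
 (c z e
 (c (a (nat_lit 0x1a7b1a97d699a6)) e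
 (c (a (nat_lit 0x102f86850791c6)) e
 (c z e
 (c (a (nat_lit 0x624468bc67148)) e
 (c (a (nat_lit 0xbeef7c9e00007)) e
 (c (a (nat_lit 0x130e0000000007)) e e)))))))))))))))
 (c (a (nat_lit 0x20202030c8))
 (c z e
 (c z e
 (c z e
 (c z e
 (c (b (nat_lit 0x13f91fed37a266))
 (c (a (nat_lit 0x154f1a0c20000008)) e e)
 (c z e
 (c z e
 (c z e
 (c (a (nat_lit 0x1a97910babc347)) e
 (c (a (nat_lit 0x128eaead2e2328)) e
 (c z e
 (c (a (nat_lit 0x285ebee51c008)) e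
 (c (a (nat_lit 0x12362e60000008)) e e)))))))))))))
 (c (a (nat_lit 0x202030cb48)) e
 (c (a (nat_lit 0x2031f1d028)) e
 (c (a (nat_lit 0x34141264e8)) e
 (c (a (nat_lit 0x1010f0866628))
 (c (a (nat_lit 0x1af5a608ab8f27)) e
 (c (a (nat_lit 0x11eaca8aedd2c8)) e
 (c (b (nat_lit 0x29fffe8eb54a8)) e
 (c (a (nat_lit 0x1012327528f69)) e e))))
 (c (a (nat_lit 0x12d5a0202026))
 (c (b (nat_lit 0x2ffe7d00a0c47)) e
 (c (a (nat_lit 0x3a68968e7b0e8)) e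
 (c z e
 (c z e
 (c (a (nat_lit 0x117d19e7c00007)) e e)))))
 (c (a (nat_lit 0x11c020202006))
 (c (a (nat_lit 0x88494b330547)) e
 (c z e
 (c (a (nat_lit 0x2679535a5c007)) e
 (c (a (nat_lit 0x1d9d6d80000007)) e e))))
 (c (a (nat_lit 0x20406095e3))
 (c (a (nat_lit 0x2136881c14029)) e
 (c (a (nat_lit 0x156e46e5200009)) e
 (c (a (nat_lit 0x14458000000008)) e e)))
 (c (a (nat_lit 0x20259465))
 (c (a (nat_lit 0x1421c1a0000007)) e
 (c (a (nat_lit 0x1c000000000003)) e e))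
 (c (a (nat_lit 0x3c42ed39247)) e
 (c z e
 (c (a (nat_lit 0xfb0b1f1d207)) e
 (c (a (nat_lit 0x6e080525284)) e
 (c (a (nat_lit 0xa052d2f2e4)) e
 (c (a (nat_lit 0x16e040404084)) e
 (c (a (nat_lit 0x60a09082)) e
 (c (b (nat_lit 0x121fb1fe1)) e
 (c (a (nat_lit 0x157597202005)) e
 (c (a (nat_lit 0x162ba0000006)) e e))))))))))))))))))))
 (c (a (nat_lit 0x20202021))
 (c (a (nat_lit 0x2039f666))
 (c (a (nat_lit 0x10100f916b0507))
 (c (a (nat_lit 0x14f7d89e99bc1407)) e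
 (c z e
 (c z e
 (c (a (nat_lit 0x19712ecf8cad0d09)) e
 (c (a (nat_lit 0x1af02e314c0fe628)) e
 (c z e
 (c (a (nat_lit 0x18964e8000000007)) e e)))))))
 (c z e
 (c z e
 (c (a (nat_lit 0x15511110450b67))
 (c z e
 (c (a (nat_lit 0x12ae36ad20000009)) e e))
 (c (b (nat_lit 0x1ec41899ff6e5))
 (c (a (nat_lit 0x715a62000000007)) e e)
 (c z e
 (c z e
 (c (a (nat_lit 0x1ef62949e7ad26)) e
 (c (a (nat_lit 0x144e4a17794966)) e
 (c (a (nat_lit 0xfb052160e8268)) e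
 (c z e
 (c (a (nat_lit 0xcf3f3ad600008)) e
 (c (a (nat_lit 0x198d8000000007)) e e)))))))))))))
 (c (a (nat_lit 0xc0d81814c8)) e
 (c (a (nat_lit 0x13130fc4a8)) e
 (c (a (nat_lit 0x1c1cf94bcb68))
 (c (a (nat_lit 0xd2792880089a8)) e
 (c (a (nat_lit 0x91426402af268)) e
 (c z e
 (c z e
 (c (a (nat_lit 0x10ae933b155229)) e e)))))
 (c (a (nat_lit 0x161a00202006))
 (c (a (nat_lit 0x11eda28267cb06)) e
 (c (a (nat_lit 0x10c5e9ef2e5967)) e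
 (c z e
 (c (a (nat_lit 0x349eafad32488)) e
 (c (b (nat_lit 0x5f078943fe8c7)) e e)))))
 (c (a (nat_lit 0x13c020202026))
 (c (b (nat_lit 0xa972112f3fe6)) e
 (c (a (nat_lit 0x60c6ecab1a168)) e e))
 (c (a (nat_lit 0x40409e41))
 (c (a (nat_lit 0x9cecbfe452b07)) e
 (c z e
 (c (a (nat_lit 0xd0e334fe00007)) e
 (c (a (nat_lit 0x1947c000000008)) e e))))
 (c (a (nat_lit 0x20681c63))
 (c (a (nat_lit 0x18d91487a62008)) e
 (c (a (nat_lit 0x14d3c3a0000008)) e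
 (c (a (nat_lit 0x11000000000008)) e e)))
 (c (a (nat_lit 0x308899f2e23))
 (c (a (nat_lit 0x15278000000005)) e e)
 (c (a (nat_lit 0xbf3f3f3efe8)) e
 (c z e
 (c (a (nat_lit 0xc4c4b4b3127)) e
 (c (a (nat_lit 0x4002033ada5)) e
 (c (a (nat_lit 0x160f63cd0a4)) e
 (c (a (nat_lit 0x1017ee08002)) e
 (c (a (nat_lit 0xa0a0809ee3)) e
 (c (a (nat_lit 0xcacccb440e5)) e
 (c (a (nat_lit 0x1494aec00006)) e e))))))))))))))))))
 (c (a (nat_lit 0x20000021))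
 (c (a (nat_lit 0x6bdddddcce7))
 (c (b (nat_lit 0xd17d1fff1c7c6))
 (c (a (nat_lit 0x136eb72785896c67)) e
 (c (a (nat_lit 0x11926bec93f66bc8)) e e))
 (c (a (nat_lit 0x15f1d8d06d2967))
 (c (a (nat_lit 0xb2d949c9cccc7e8)) e e)
 (c z e
 (c (b (nat_lit 0xf73bffff7bea6)) e
 (c (a (nat_lit 0x50b48aa421227)) e
 (c z e
 (c z e
 (c z e
 (c (b (nat_lit 0xa6b4b5ff00769)) e e)))))))))
 (c (a (nat_lit 0x1b7c5bedeca8))
 (c (a (nat_lit 0x1c321279acefc6))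
 (c (a (nat_lit 0x7d050308d026008)) e
 (c (a (nat_lit 0x17f8374f00000009)) e e))
 (c (a (nat_lit 0x1acf5c3993fb66))
 (c (a (nat_lit 0xe11a7400000000a)) e e)
 (c (a (nat_lit 0x28482c2653748)) e
 (c (a (nat_lit 0x3a1c1c0ae3109)) e
 (c z e
 (c z e
 (c z e
 (c (a (nat_lit 0xd6ded9322a009)) e
 (c (a (nat_lit 0x198fd000000009)) e e)))))))))
 (c (a (nat_lit 0x11f1aa292928))
 (c (a (nat_lit 0x3284425e79907))
 (c (a (nat_lit 0x1b88a00000000008)) e e)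
 (c (a (nat_lit 0x22042648cf8c8)) e
 (c z e
 (c z e
 (c z e
 (c (a (nat_lit 0x78d90d4c8a4e9)) e
 (c (a (nat_lit 0xaf05525200009)) e
 (c (a (nat_lit 0x10cea000000009)) e e))))))))
 (c (a (nat_lit 0x1c6020202026))
 (c (a (nat_lit 0x20c502c535e7)) e
 (c (a (nat_lit 0x60a482b7a5c9)) e
 (c z e
 (c z e
 (c (a (nat_lit 0x8ba77e787c008)) e
 (c (a (nat_lit 0x181443c0000007)) e e))))))
 (c (a (nat_lit 0xe101427041))
 (c (a (nat_lit 0xe4c2b5652589)) e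
 (c z e
 (c z e
 (c z e
 (c (a (nat_lit 0x1f2b6000000008)) e e)))))
 (c (a (nat_lit 0x197999dba104))
 (c (a (nat_lit 0x416cc82c38529)) e e)
 (c (a (nat_lit 0x1151ec50af26)) e
 (c z e
 (c (a (nat_lit 0x17d63612d2c7)) e
 (c (a (nat_lit 0x15759591b1c6)) e
 (c (a (nat_lit 0x40473024)) e
 (c (a (nat_lit 0x4cd21983)) e
 (c (a (nat_lit 0x22fb4dcfee3)) e
 (c (a (nat_lit 0x2a465f064)) e
 (c (a (nat_lit 0x180616fbd24)) e
 (c (a (nat_lit 0xdcbc2003)) e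
 (c (a (nat_lit 0x15a0000003)) e e)))))))))))))))))
 C134)))) Tr.c Tr.e (nat_lit 0) C.cx C.cy
noncomputable def C136 : Tr := beta% (fun (c : Nat → Tr → Tr → Tr) (e : Tr) (z : Nat) (a b : Nat → Nat) =>
 (c (a (nat_lit 0x20202021))
 (c (a (nat_lit 0x202001))
 (c (a (nat_lit 0x15202020202145))
 (c (a (nat_lit 0x2032ca8c319725))
 (c z e
 (c (a (nat_lit 0xfcb10e4c8b0713b88)) e
 (c z e
 (c (a (nat_lit 0x4e226884a871075e8)) e e))))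
 (c (a (nat_lit 0x252446680932c8)) e
 (c z e
 (c z e
 (c z e
 (c z e
 (c (a (nat_lit 0xcf2f18947d673c8)) e
 (c (a (nat_lit 0xc8a8685384fe648)) e
 (c z e
 (c (a (nat_lit 0x381d4d1a3038388)) e
 (c (a (nat_lit 0x34c178480200008)) e e)))))))))))
 (c (b (nat_lit 0x1737373738bfe4))
 (c z e
 (c z e
 (c z e
 (c z e
 (c z e
 (c z e
 (c z e
 (c z e
 (c z e
 (c (a (nat_lit 0x733218040000009)) e e))))))))))
 (c (a (nat_lit 0x157575d4cae466)) e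
 (c (b (nat_lit 0x1575cd3fffe026)) e
 (c z e
 (c z e
 (c (b (nat_lit 0x17bfe909046206))
 (c (a (nat_lit 0x10cb8a6a6b2f2908)) e
 (c (a (nat_lit 0x507ad9047200008)) e e))
 (c (a (nat_lit 0x1471b25281b584))
 (c (a (nat_lit 0xcc9261e0000007)) e e)
 (c (a (nat_lit 0x882e2e0429185)) e
 (c (a (nat_lit 0x565652754f045)) e
 (c (a (nat_lit 0x3962ee92c4586)) e
 (c (a (nat_lit 0x1714b1922f8c67)) e
 (c z e
 (c z e
 (c (a (nat_lit 0x11adf7f8a40406)) e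
 (c (a (nat_lit 0xa1414e0200006)) e
 (c (a (nat_lit 0x1e2a6000000006)) e e)))))))))))))))))
 (c (a (nat_lit 0x2020202001))
 (c (a (nat_lit 0x11f1f250ad2306))
 (c (a (nat_lit 0x2105e6c7b2bc28))
 (c (a (nat_lit 0x1e242a1c2a54f362a)) e e)
 (c z e
 (c z e
 (c z e
 (c z e
 (c z e
 (c z e
 (c (b (nat_lit 0x74145a708b7bfe9)) e e))))))))
 (c z e
 (c z e
 (c z e
 (c z e
 (c (b (nat_lit 0xadffff00a5325))
 (c (a (nat_lit 0x10e9bc4d37ea6008)) e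
 (c (a (nat_lit 0x8da8de8c0000009)) e e))
 (c (a (nat_lit 0x102b2786bc6fa5))
 (c (a (nat_lit 0x1991046000000008)) e e)
 (c (b (nat_lit 0x12cc375c3ffa84)) e
 (c z e
 (c (a (nat_lit 0x12f378ba930f87)) e
 (c (a (nat_lit 0xff1128e28f128)) e
 (c z e
 (c z e
 (c (a (nat_lit 0x443add0824008)) e
 (c (a (nat_lit 0xf99ae40000008)) e e)))))))))))))))
 (c (nat_lit 1)
 (c z e
 (c z e
 (c z e
 (c z e
 (c (b (nat_lit 0x1ff0908f2dd406))
 (c (a (nat_lit 0x11775395eae00008)) e e)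
 (c z e
 (c z e
 (c z e
 (c z e
 (c z e
 (c z e
 (c z e
 (c (a (nat_lit 0x1e0ff9d5600007)) e e)))))))))))))
 (c (a (nat_lit 0x20203148))
 (c z e
 (c (a (nat_lit 0x193c14d3d08167))
 (c (a (nat_lit 0x13126cea0989094b)) e e)
 (c (b (nat_lit 0x942b21fffe0c5)) e
 (c z e
 (c z e
 (c z e
 (c z e
 (c z e
 (c (a (nat_lit 0x9434042d02028)) e e)))))))))
 (c (a (nat_lit 0x2020318bc8))
 (c (a (nat_lit 0xfed804733cd46))
 (c (a (nat_lit 0x128e8d8a286b0869)) e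
 (c (a (nat_lit 0x1b97f0b233d5d4ea)) e e))
 (c (a (nat_lit 0xc490b91b5c608)) e
 (c z e
 (c z e
 (c z e
 (c z e
 (c (a (nat_lit 0xb45a2a813ca48)) e
 (c (b (nat_lit 0x2c0e0b11fe049)) e e))))))))
 (c (a (nat_lit 0x2032117168))
 (c (a (nat_lit 0x2e6931bd013a7)) e
 (c z e
 (c z e
 (c z e
 (c z e
 (c (a (nat_lit 0x3e1a8668a9488)) e
 (c (b (nat_lit 0x787387fffffe8)) e e)))))))
 (c (a (nat_lit 0x75939392a27))
 (c (a (nat_lit 0x13b30f076c09a7)) e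
 (c (b (nat_lit 0x113fffec6a7607)) e
 (c (b (nat_lit 0xf4dfe8ce2ee7)) e
 (c (b (nat_lit 0x7ffffe848dae7)) e e))))
 (c (a (nat_lit 0x111454c5e527))
 (c (a (nat_lit 0x5024a876d7227)) e
 (c (a (nat_lit 0x2a58a1271aac8)) e
 (c (a (nat_lit 0x8847254e27b67)) e e)))
 (c (a (nat_lit 0x1554a0202006))
 (c (b (nat_lit 0x1fe44869c753e8)) e
 (c z e
 (c z e
 (c (a (nat_lit 0xd6cd945e00009)) e e))))
 (c (a (nat_lit 0x148020202026))
 (c (a (nat_lit 0x82e57784d4b27)) e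
 (c (a (nat_lit 0xc4d53eb432009)) e e))
 (c (a (nat_lit 0x2020203664))
 (c (a (nat_lit 0xefdeb61200008)) e
 (c (a (nat_lit 0x1024a00000000a)) e e))
 (c (a (nat_lit 0x4040971804))
 (c (a (nat_lit 0x10600000000007)) e e)
 (c (a (nat_lit 0x3842a2f70a6)) e
 (c z e
 (c (a (nat_lit 0xb9b699250c7)) e
 (c (a (nat_lit 0x126089294947)) e
 (c (a (nat_lit 0x44141844901)) e
 (c (a (nat_lit 0x121241ee1)) e
 (c (a (nat_lit 0x1656b75a8004)) e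
 (c (a (nat_lit 0x173799292005)) e
 (c (a (nat_lit 0x159720200005)) e e)))))))))))))))))))))
 C135)) Tr.c Tr.e (nat_lit 0) C.cx C.cy
noncomputable def C137 : Tr := beta% (fun (c : Nat → Tr → Tr → Tr) (e : Tr) (z : Nat) (a b : Nat → Nat) =>
 (c (nat_lit 1)
 (c (a (nat_lit 0x1b364040202026))
 (c (a (nat_lit 0x2004023e18c76c7))
 (c (a (nat_lit 0x1c797633150ef73ec8)) e
 (c z e
 (c z e
 (c z e
 (c z e
 (c z e
 (c (a (nat_lit 0x16ba3c1b0d60000009)) e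
 (c (a (nat_lit 0xf528840000000000a)) e e))))))))
 (c z e
 (c z e
 (c z e
 (c z e
 (c z e
 (c (a (nat_lit 0x45232ec0400dac9)) e
 (c (a (nat_lit 0x94c49e440994469)) e
 (c (a (nat_lit 0x7c76543750403ea)) e
 (c z e
 (c (a (nat_lit 0x222906d22e2200a)) e e)))))))))))
 (c (a (nat_lit 0x13402020202047))
 (c z e
 (c z e
 (c z e
 (c z e
 (c z e
 (c (a (nat_lit 0x68a28c5c633070b)) e
 (c (a (nat_lit 0x907270431a5648b)) e e)))))))
 (c (a (nat_lit 0x1656565674e0a6))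
 (c z e
 (c z e
 (c z e
 (c z e
 (c (a (nat_lit 0xa4aa90718e984ea)) e e)))))
 (c (b (nat_lit 0x103031dfffffe5)) e
 (c (b (nat_lit 0x181873dfffe787)) e
 (c z e
 (c (a (nat_lit 0x10d7ee934f4e28))
 (c (b (nat_lit 0x1869dfea64810289)) e
 (c (b (nat_lit 0x5dff14401a2c008)) e
 (c (a (nat_lit 0x540743e0000008)) e e)))
 (c (b (nat_lit 0x111fea03e36006))
 (c (a (nat_lit 0x165d2b1e5c00007)) e
 (c (a (nat_lit 0xcd1cc4000000008)) e e))
 (c (a (nat_lit 0x134949ea00e965)) e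
 (c (a (nat_lit 0xc2a8a40855186)) e
 (c (a (nat_lit 0x5050c67ab9147)) e
 (c z e
 (c z e
 (c z e
 (c (a (nat_lit 0x9905b37810127)) e
 (c (a (nat_lit 0xf5a3600402007)) e
 (c (a (nat_lit 0x1a2ca020000007)) e
 (c (a (nat_lit 0x19000000000006)) e e))))))))))))))))))
 (c (a (nat_lit 0x2040404021))
 (c (a (nat_lit 0x14f4d4d4f280e4))
 (c z e
 (c z e
 (c z e
 (c z e
 (c z e
 (c (a (nat_lit 0x1188ea4b9b8cc5aa)) e e))))))
 (c (b (nat_lit 0x1070723fffffe5)) e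
 (c z e
 (c z e
 (c z e
 (c (a (nat_lit 0x828330d466ac6))
 (c (b (nat_lit 0xebfe788e7502529)) e
 (c (a (nat_lit 0x52e6bd68ec00009)) e e))
 (c (a (nat_lit 0xb225c4242fa6))
 (c (a (nat_lit 0x820f28780000008)) e e)
 (c (a (nat_lit 0x1325e565872886)) e
 (c (a (nat_lit 0xf8f91ee2dee46)) e
 (c z e
 (c z e
 (c z e
 (c z e
 (c (a (nat_lit 0x5627fcd202028)) e
 (c (a (nat_lit 0x27fcd60200008)) e
 (c (a (nat_lit 0x1fe04000000008)) e e))))))))))))))))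
 (c (a (nat_lit 0x20202021))
 (c z e
 (c z e
 (c z e
 (c z e
 (c (a (nat_lit 0x18d839293d5c5))
 (c (a (nat_lit 0x2f2ecc9f9870008)) e
 (c (a (nat_lit 0x1af678bba0000008)) e e))
 (c (b (nat_lit 0xb9fe9ecfcff25))
 (c (a (nat_lit 0x111cd24000000007)) e e)
 (c z e
 (c z e
 (c z e
 (c z e
 (c z e
 (c z e
 (c (a (nat_lit 0x522f5b123c007)) e
 (c (a (nat_lit 0xd3eed40000007)) e e))))))))))))))
 (c (a (nat_lit 0x20002001))
 (c (a (nat_lit 0x18a4824240a7a6))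
 (c (a (nat_lit 0x7492b4731cacc29)) e
 (c (a (nat_lit 0xa4d6c51cb2828ab)) e e))
 (c (a (nat_lit 0xa00c0e0ced7e5))
 (c (a (nat_lit 0xece134dca09ea0b)) e
 (c (a (nat_lit 0xf348f8b0a0bc8ac)) e e))
 (c (a (nat_lit 0x40476eb4a6))
 (c (a (nat_lit 0x12ee4988a9e8a68b)) e
 (c (a (nat_lit 0x1a678568a2820009)) e
 (c (a (nat_lit 0xa76b35a0000008)) e e)))
 (c (a (nat_lit 0x204206a6d468))
 (c (a (nat_lit 0x122e528e6a200008)) e e)
 (c z e
 (c z e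
 (c z e
 (c (a (nat_lit 0xb958f0ccb0f29)) e
 (c (a (nat_lit 0x15e7a0c0224e48)) e
 (c (a (nat_lit 0x10ab096f241f27)) e
 (c z e
 (c (a (nat_lit 0xaf6e9e0600006)) e
 (c (a (nat_lit 0x19c66000000006)) e e)))))))))))))
 (c (a (nat_lit 0x2011c8))
 (c (a (nat_lit 0x20604069f585))
 (c (a (nat_lit 0x12f8d4d44d0dab69)) e
 (c (a (nat_lit 0x1814728e0fccb32b)) e
 (c (a (nat_lit 0x14b2ceb133b0200a)) e e)))
 (c (a (nat_lit 0xb0b0b1017d9c7))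
 (c (a (nat_lit 0x1471acf02cd0096b)) e
 (c (a (nat_lit 0x116d10d22a00000b)) e
 (c (a (nat_lit 0xe5451600000000a)) e e)))
 (c (a (nat_lit 0x1a1c50a37e668))
 (c (a (nat_lit 0x159b7eaf80000009)) e e)
 (c z e
 (c z e
 (c z e
 (c (a (nat_lit 0x1589a2e189a208)) e
 (c (a (nat_lit 0x802202093c128)) e
 (c (a (nat_lit 0x2e02202926689)) e
 (c (a (nat_lit 0x3220ed575e009)) e
 (c (a (nat_lit 0x1a9d36a0000007)) e e)))))))))))
 (c (a (nat_lit 0x150bc8))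
 (c (b (nat_lit 0x204adff5a6))
 (c (a (nat_lit 0x1f70be9cd96b8008)) e
 (c (a (nat_lit 0xc56dc4fc0000009)) e e))
 (c (a (nat_lit 0x8d056b7770b47))
 (c (a (nat_lit 0xbb2e62000000009)) e e)
 (c z e
 (c z e
 (c z e
 (c (b (nat_lit 0x184340da5fe006)) e
 (c (a (nat_lit 0x2816124e1720a)) e
 (c (b (nat_lit 0x806e6b35fffe8)) e
 (c (a (nat_lit 0x261397d400009)) e
 (c (a (nat_lit 0x3744000000006)) e e))))))))))
 (c (a (nat_lit 0x8687a7a3a27))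
 (c (a (nat_lit 0x1291d4924c6c67))
 (c (a (nat_lit 0x1625e00000000007)) e e)
 (c (a (nat_lit 0x1432720babb208)) e
 (c (a (nat_lit 0x1852eb11951167)) e
 (c (b (nat_lit 0x27ffff3e45825)) e
 (c (a (nat_lit 0x1410240c1b48a)) e
 (c z e
 (c (a (nat_lit 0x140ca1502600a)) e e)))))))
 (c (a (nat_lit 0xaf77a9a0da7))
 (c (a (nat_lit 0x10d2576ed31747)) e
 (c (a (nat_lit 0x56a8e0a6dd2c8)) e
 (c (a (nat_lit 0x24664e5a6b109)) e
 (c (b (nat_lit 0x1fffe1e273310a)) e e))))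
 (c (a (nat_lit 0x14d6d8ebeb27))
 (c (a (nat_lit 0x509c8aa2ad348)) e
 (c (a (nat_lit 0x88a0cce380688)) e e))
 (c (a (nat_lit 0x1a4665e5a5a5)) e
 (c (a (nat_lit 0x1061c1212142))
 (c (a (nat_lit 0x3b517e820c009)) e
 (c (a (nat_lit 0x1a5a86a000000a)) e e))
 (c (a (nat_lit 0x20404076c4))
 (c (a (nat_lit 0x1023000000000a)) e e)
 (c (a (nat_lit 0x5253136d706)) e
 (c (a (nat_lit 0x8285636d7a9)) e
 (c (a (nat_lit 0xf0e2c52f167)) e
 (c (a (nat_lit 0x10af0f2f4bc6)) e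
 (c (a (nat_lit 0x4c261e221a1)) e
 (c (a (nat_lit 0xc1416001)) e
 (c (a (nat_lit 0xe1c17241)) e
 (c (a (nat_lit 0x16565638a064)) e
 (c (a (nat_lit 0x16564c402004)) e
 (c (a (nat_lit 0x10e600000005)) e e))))))))))))))))))))))) Tr.c Tr.e (nat_lit 0) C.cx C.cy
noncomputable def C138 : Tr := beta% (fun (c : Nat → Tr → Tr → Tr) (e : Tr) (z : Nat) (a b : Nat → Nat) =>
 (c (a (nat_lit 0x8080808081))
 (c (a (nat_lit 0x14690909090785))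
 (c (a (nat_lit 0xbcab02e3195d666))
 (c z e
 (c (a (nat_lit 0x7c26522404388b129)) e
 (c (a (nat_lit 0xe3e0808282e6d7e9)) e e)))
 (c z e
 (c z e
 (c z e
 (c z e
 (c (a (nat_lit 0x828284b4b1728a8)) e
 (c (a (nat_lit 0x9ccd48ef82d2c47)) e
 (c (a (nat_lit 0x40c261720c48907)) e
 (c z e
 (c (a (nat_lit 0xa3db384c4600007)) e
 (c (a (nat_lit 0x1bf1c1c000000007)) e e)))))))))))
 (c (a (nat_lit 0x1f1f3f5f6f2003))
 (c z e
 (c z e
 (c z e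
 (c z e
 (c (a (nat_lit 0x9c9090d13492789)) e
 (c z e
 (c z e
 (c z e
 (c (a (nat_lit 0x1fba08a3e0000007)) e
 (c (a (nat_lit 0x19e6c00000000008)) e e))))))))))
 (c (a (nat_lit 0x1b3b5e178a81e5))
 (c z e
 (c z e
 (c (a (nat_lit 0x54f32f75b7f2c08)) e e)))
 (c (b (nat_lit 0x1c5effffffffe4))
 (c z e
 (c z e
 (c z e
 (c (a (nat_lit 0x14e4b72d6c460f08)) e e))))
 (c z e
 (c (a (nat_lit 0x16b51636bd5c46))
 (c (a (nat_lit 0x18cd6dc9c7ea51c8)) e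
 (c (a (nat_lit 0x1353b26d3270e008)) e e))
 (c (a (nat_lit 0x580a1f89876c5))
 (c (a (nat_lit 0x11f08af20a800007)) e
 (c (a (nat_lit 0x1f3a9aa000000007)) e e))
 (c (a (nat_lit 0xb779f9d83345))
 (c (a (nat_lit 0x150de00000000006)) e e)
 (c (a (nat_lit 0x14191855222024)) e
 (c (a (nat_lit 0x1817f66c06e585)) e
 (c (a (nat_lit 0x1d3c7ab2694026)) e
 (c (a (nat_lit 0x183c5bb1aceda6)) e
 (c (a (nat_lit 0x138fcea9c7c006)) e
 (c (a (nat_lit 0x17b42161602004)) e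
 (c (a (nat_lit 0x1e6b2b0aa52004)) e
 (c (a (nat_lit 0x16f6ab00000003)) e e))))))))))))))))
 (c (a (nat_lit 0x8080808081))
 (c (a (nat_lit 0x141436ef2980e4))
 (c (a (nat_lit 0x18d736b5f79e3f27)) e
 (c z e
 (c z e
 (c (a (nat_lit 0xa4a6ad2112dca89)) e
 (c (a (nat_lit 0x6a96b94560b6948)) e
 (c (a (nat_lit 0x849d1f6aa2443e7)) e
 (c z e
 (c (a (nat_lit 0x1414cf4746a00008)) e
 (c (a (nat_lit 0x1309e2c000000008)) e
 (c (a (nat_lit 0x12e0000000000007)) e e))))))))))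
 (c (a (nat_lit 0x11f40d66e22246)) e
 (c z e
 (c (a (nat_lit 0x126704e4e22de5))
 (c z e
 (c (a (nat_lit 0x183251112eca3429)) e e))
 (c (a (nat_lit 0x2248041f71905))
 (c (a (nat_lit 0xf55f3724e3c87c7)) e
 (c (a (nat_lit 0xe723154cee00008)) e e))
 (c (a (nat_lit 0x440421856b8e5))
 (c (a (nat_lit 0xa297888c0000007)) e
 (c (a (nat_lit 0x9f6800000000007)) e e))
 (c (a (nat_lit 0x2b14f81693c5)) e
 (c (a (nat_lit 0x68f1251eb0025)) e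
 (c (a (nat_lit 0xd0dcea930a006)) e
 (c (a (nat_lit 0x13b676b8af4da7)) e
 (c z e
 (c (a (nat_lit 0x75285a5228006)) e
 (c (a (nat_lit 0x13862685606026)) e
 (c (a (nat_lit 0x1939d501600004)) e
 (c (a (nat_lit 0x1609e000000005)) e e)))))))))))))))
 (c (a (nat_lit 0x8080808081))
 (c (a (nat_lit 0x1916882807c7c5))
 (c (a (nat_lit 0x82b51f1eb1852c7)) e
 (c (a (nat_lit 0x78cceac524926c9)) e e))
 (c (a (nat_lit 0x1a0100c0406485))
 (c (a (nat_lit 0xcce8e932a452649)) e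
 (c (a (nat_lit 0x1052d6ae494b0a4a)) e
 (c (a (nat_lit 0x1a79d1c88c921449)) e e)))
 (c (a (nat_lit 0x322a1a2126003))
 (c (a (nat_lit 0x179af2edb1ae26a9)) e
 (c (a (nat_lit 0x1f774e54720c6f29)) e
 (c (a (nat_lit 0x1f2399d781800007)) e e)))
 (c (a (nat_lit 0xa04048b2b1c4))
 (c (a (nat_lit 0x17ccaaf39666e007)) e
 (c (a (nat_lit 0xb4bb86f20000008)) e e))
 (c (a (nat_lit 0x284c9847a4))
 (c (a (nat_lit 0x8b1872000000008)) e e)
 (c (a (nat_lit 0xdba7a7fde03)) e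
 (c z e
 (c z e
 (c (a (nat_lit 0xace5a69883245)) e
 (c (a (nat_lit 0xa7391e5ed35e5)) e
 (c (a (nat_lit 0x8a8a60a1a4565)) e
 (c (a (nat_lit 0x261c7d0802006)) e
 (c (a (nat_lit 0x11b81040000006)) e
 (c (a (nat_lit 0x1f600000000004)) e e))))))))))))))
 (c (a (nat_lit 0x8080a0a0a1))
 (c (a (nat_lit 0x60401410156c1))
 (c (a (nat_lit 0x11541ab4d288f7c7)) e
 (c (a (nat_lit 0x18dcd795ee4fd129)) e
 (c (a (nat_lit 0x106deb2a0ef00629)) e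
 (c (a (nat_lit 0x16f3d03bb4600008)) e
 (c (a (nat_lit 0x104eee4000000008)) e e)))))
 (c (a (nat_lit 0xc06080635564))
 (c (a (nat_lit 0x116e4ce9e8ea4f8a)) e
 (c (a (nat_lit 0x118d6c4ccea9800a)) e
 (c (a (nat_lit 0x16b212f460000009)) e
 (c (a (nat_lit 0x1fd0c00000000007)) e e))))
 (c (a (nat_lit 0x20254e3485))
 (c (a (nat_lit 0xc8f7595e3c00008)) e
 (c (a (nat_lit 0xeb3ae6000000009)) e e))
 (c (a (nat_lit 0x8083514fcb45))
 (c (a (nat_lit 0x194e200000000008)) e e)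
 (c (a (nat_lit 0x5886f312d0986)) e
 (c z e
 (c (a (nat_lit 0x96c0e41a07166)) e
 (c (a (nat_lit 0x38522c020d267)) e
 (c (a (nat_lit 0x8482062277766)) e
 (c (a (nat_lit 0x9c600f332c025)) e
 (c (a (nat_lit 0x13357fb0e00006)) e
 (c (a (nat_lit 0x12ee8000000006)) e e))))))))))))
 (c (a (nat_lit 0x2020203806))
 (c (a (nat_lit 0x406040908fc4))
 (c (a (nat_lit 0x124f6bed0cec2788)) e
 (c (a (nat_lit 0x18f5771eec600008)) e
 (c (a (nat_lit 0x1596bb8000000007)) e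
 (c (a (nat_lit 0x1300000000000006)) e e))))
 (c (a (nat_lit 0x20242c124705))
 (c (a (nat_lit 0xcedb768a0000008)) e
 (c (a (nat_lit 0x14d8c00000000008)) e e))
 (c (a (nat_lit 0x55416f1f0e005))
 (c (a (nat_lit 0x14c0000000000007)) e e)
 (c (a (nat_lit 0x13b2d351eb4245)) e
 (c (a (nat_lit 0x1afb3755771f66)) e
 (c (a (nat_lit 0x12facc43dc1365)) e
 (c (a (nat_lit 0x846c2003914e6)) e
 (c (a (nat_lit 0x80423203133a7)) e
 (c (a (nat_lit 0x13c3005b898005)) e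
 (c (a (nat_lit 0x1d3cbba0000005)) e e))))))))))
 (c (a (nat_lit 0x12121338105))
 (c (a (nat_lit 0xdd575f612e8a4))
 (c (a (nat_lit 0xb71444000000006)) e
 (c (a (nat_lit 0x1000000000000007)) e e))
 (c (a (nat_lit 0x17f8381414d3c6)) e
 (c (a (nat_lit 0x1cfb3ecbd49905)) e
 (c (a (nat_lit 0xbea8801ed54c6)) e
 (c (a (nat_lit 0x19ae44b6309405)) e
 (c (a (nat_lit 0x2a06026471288)) e
 (c (a (nat_lit 0x5e2e465bc7747)) e
 (c (a (nat_lit 0x1e9cc15c00006)) e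
 (c (a (nat_lit 0x7004000000001)) e e)))))))))
 (c (a (nat_lit 0x18988fd24f63))
 (c (a (nat_lit 0x15716e17975506)) e
 (c (a (nat_lit 0x6a765ea8a1027)) e
 (c (a (nat_lit 0x248f2f7b57e6)) e
 (c (a (nat_lit 0x22c6a7867b07)) e
 (c (a (nat_lit 0xa184a4149468)) e
 (c (a (nat_lit 0x32448b78fc008)) e
 (c (a (nat_lit 0x1631bbe0000006)) e
 (c (a (nat_lit 0x11c00000000004)) e e))))))))
 (c (b (nat_lit 0x11857fe7b063))
 (c (a (nat_lit 0xad4ceb516f86)) e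
 (c (a (nat_lit 0x3c607e6b448)) e
 (c z e
 (c (a (nat_lit 0x3255198584588)) e
 (c (a (nat_lit 0x5c8d672e00008)) e e)))))
 (c (b (nat_lit 0x101ffaf832e4))
 (c (a (nat_lit 0x243a5e631e288)) e
 (c (a (nat_lit 0x5068932cac749)) e e))
 (c (a (nat_lit 0x9274b47462))
 (c (a (nat_lit 0x82adfdfac8247)) e
 (c (a (nat_lit 0x6737424a00009)) e
 (c (a (nat_lit 0x15eca000000009)) e e)))
 (c (a (nat_lit 0x82242022241))
 (c (a (nat_lit 0x16f78440000008)) e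
 (c (a (nat_lit 0x1d400000000008)) e e))
 (c (a (nat_lit 0x20a0a11261)) e
 (c (a (nat_lit 0x202048fdc2)) e
 (c (a (nat_lit 0xd541e73bc1)) e
 (c (a (nat_lit 0xf1a1835d3a1)) e
 (c (a (nat_lit 0x60802c04001)) e
 (c (a (nat_lit 0x8a580406001)) e
 (c (a (nat_lit 0x6e1a1c061a1)) e
 (c (a (nat_lit 0x18160814221)) e
 (c (a (nat_lit 0x1a06222e201)) e
 (c (a (nat_lit 0xc0400001)) e
 (c (nat_lit 1) e e))))))))))))))))))))))) Tr.c Tr.e (nat_lit 0) C.cx C.cy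
noncomputable def C139 : Tr := beta% (fun (c : Nat → Tr → Tr → Tr) (e : Tr) (z : Nat) (a b : Nat → Nat) =>
 (c (a (nat_lit 0x8080808081))
 (c (a (nat_lit 0x1617092f2e726))
 (c (a (nat_lit 0x163a3957d654b226))
 (c z e
 (c (a (nat_lit 0xd1278f4ee0d082728)) e
 (c (a (nat_lit 0xb8c322d8a27a62ac9)) e
 (c (a (nat_lit 0x1511f7b6af6e743a68)) e
 (c (a (nat_lit 0x10d1b22f8db0131328)) e
 (c (a (nat_lit 0x9eb8c70337f8d2928)) e e))))))
 (c (a (nat_lit 0x1417b3740caa2766))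
 (c (a (nat_lit 0x1337d832cf8d8c2b89)) e
 (c (a (nat_lit 0x14f8f6d28eea2decaa)) e
 (c z e
 (c z e
 (c (a (nat_lit 0xf71312f54d4eb8729)) e
 (c z e
 (c (a (nat_lit 0x86562f42d66212029)) e
 (c (a (nat_lit 0x2c5f2306b83400009)) e
 (c (a (nat_lit 0x853b1a90000000009)) e e)))))))))
 (c (a (nat_lit 0x13e99ad58846ab05))
 (c (a (nat_lit 0x1eaf12b04cf08f0e89)) e
 (c z e
 (c z e
 (c z e
 (c z e
 (c (a (nat_lit 0xa63c7d2d14e032009)) e
 (c (a (nat_lit 0x86b14b3a8e0000009)) e e)))))))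
 (c (a (nat_lit 0x2063a281a6d206))
 (c z e
 (c z e
 (c z e
 (c z e
 (c (a (nat_lit 0xeacab0fb42a200009)) e e)))))
 (c (a (nat_lit 0x20222505781b67))
 (c (a (nat_lit 0x12987e362a4c512a9)) e e)
 (c (a (nat_lit 0x2027ce99bb9a07))
 (c (a (nat_lit 0x824834385e652c5cb)) e
 (c (a (nat_lit 0x164f923278bdc0000a)) e e))
 (c (a (nat_lit 0x43ae8e56d6b467)) e
 (c (a (nat_lit 0x52888d50d026347)) e
 (c (a (nat_lit 0xd2bb6350745c927)) e
 (c (a (nat_lit 0x86e3068a2e52367)) e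
 (c (a (nat_lit 0x5042402a2e1b8a8)) e
 (c (a (nat_lit 0x320a2026197b749)) e
 (c (a (nat_lit 0xe02341dc5183a9)) e
 (c (a (nat_lit 0x1a1e8f42bc00009)) e
 (c (a (nat_lit 0x4e4398000000008)) e e)))))))))))))))
 (c (a (nat_lit 0x3925615290847))
 (c (a (nat_lit 0x15b4f47291cd6ee6))
 (c (a (nat_lit 0x1e5ede75b453d3f1a8)) e
 (c z e
 (c z e
 (c z e
 (c (a (nat_lit 0x12f0edebf3cdcaaa49)) e
 (c z e
 (c z e
 (c (a (nat_lit 0x8d175b4e680000009)) e e))))))))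
 (c (a (nat_lit 0x750cf0d66279166))
 (c z e
 (c z e
 (c z e
 (c z e
 (c z e
 (c (a (nat_lit 0x30669caf2c840000a)) e
 (c (a (nat_lit 0xdd1754ba00000000a)) e e)))))))
 (c (a (nat_lit 0x21c1622204d369)) e
 (c z e
 (c z e
 (c z e
 (c (a (nat_lit 0xc8c303592662188)) e
 (c (a (nat_lit 0x80f1011e22180c8)) e
 (c (a (nat_lit 0xad06fc583013fe8)) e
 (c (a (nat_lit 0x6652363a350e029)) e e))))))))))
 (c (a (nat_lit 0x1453b6a766c6c7))
 (c (a (nat_lit 0x5c5a4842141d0e7))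
 (c z e
 (c z e
 (c z e
 (c z e
 (c z e
 (c (a (nat_lit 0x1010729e0dc0000009)) e e))))))
 (c z e
 (c z e
 (c z e
 (c z e
 (c (a (nat_lit 0x94ccf9f12e224e8)) e
 (c (a (nat_lit 0x70530294260b529)) e
 (c (a (nat_lit 0x711cbe4030b6509)) e
 (c (a (nat_lit 0x11c304c53c45a409)) e e)))))))))
 (c (a (nat_lit 0x12f0ee2d8d8d86))
 (c z e
 (c z e
 (c z e
 (c z e
 (c (a (nat_lit 0x6a6a6e9464376c9)) e
 (c (a (nat_lit 0xc6f342e281f75a8)) e e))))))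
 (c (a (nat_lit 0x1a4bab8b8b86c4))
 (c (a (nat_lit 0x4948903e34b0fc7))
 (c (a (nat_lit 0x463858dd217434009)) e
 (c (a (nat_lit 0x6a86ed64ba000000b)) e e))
 (c (a (nat_lit 0xfeaa8a82a2fd789))
 (c (a (nat_lit 0xc317de8c00000000b)) e e)
 (c (a (nat_lit 0xd6b4bed0ccffb49)) e
 (c (a (nat_lit 0x7a6686704d66d69)) e
 (c (a (nat_lit 0x283c3e09349e1c9)) e
 (c z e
 (c z e
 (c (a (nat_lit 0x114da0882000009)) e
 (c (a (nat_lit 0x18dee66000000009)) e e)))))))))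
 (c (b (nat_lit 0x19797979963fe4))
 (c (a (nat_lit 0xd4bcb8bafb7bfe8))
 (c (a (nat_lit 0xc382480000000000a)) e e)
 (c (a (nat_lit 0xa8a8aea70161a0a)) e
 (c (a (nat_lit 0x4252568f692f129)) e
 (c (a (nat_lit 0x244875150e7e3e9)) e
 (c z e
 (c z e
 (c (a (nat_lit 0x16dd2ee100000009)) e
 (c (a (nat_lit 0x14e660000000000a)) e e))))))))
 (c (a (nat_lit 0x161616b6900e86))
 (c (a (nat_lit 0x988e74b34f016a9)) e
 (c (a (nat_lit 0x3a12375aa0fe7a9)) e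
 (c (a (nat_lit 0x26631f72a83e049)) e
 (c z e
 (c z e
 (c (a (nat_lit 0x1107e0800000000a)) e
 (c (a (nat_lit 0x1c60000000000008)) e e)))))))
 (c (a (nat_lit 0x13d574fd3f7be5))
 (c (a (nat_lit 0x2225630650884a8)) e
 (c (a (nat_lit 0x7721326a9a82ae9)) e
 (c (a (nat_lit 0x18d1b2ea48c98008)) e
 (c (a (nat_lit 0x52351c320000008)) e e))))
 (c (a (nat_lit 0x1034f535b4d327))
 (c (a (nat_lit 0x13f2e7486b4ce728)) e
 (c (a (nat_lit 0x148b064baa000008)) e e))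
 (c (a (nat_lit 0x1d5dde5e1adac6))
 (c (a (nat_lit 0x1283ce4860000007)) e e)
 (c (a (nat_lit 0x1ddefe7e5a78a5)) e
 (c (a (nat_lit 0x1d3bfac6e12043)) e
 (c (a (nat_lit 0x14945433730ae6)) e
 (c (a (nat_lit 0xcccb2524982e7)) e
 (c (a (nat_lit 0x102ffbd9589408)) e
 (c (a (nat_lit 0xd6e4cf32aed86)) e
 (c (a (nat_lit 0x128fdc0c312d45)) e
 (c (a (nat_lit 0xd39a9aea56005)) e
 (c (a (nat_lit 0x1d8d8940000005)) e
 (c (a (nat_lit 0x10c00000000003)) e e))))))))))))))))))))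
 (c (a (nat_lit 0x8080808081))
 (c (a (nat_lit 0x11913367266666))
 (c (a (nat_lit 0xe08c90880207144)) e
 (c (a (nat_lit 0x202018180e35187)) e
 (c z e
 (c z e
 (c z e
 (c z e
 (c (a (nat_lit 0xc4e391252e26067)) e
 (c (a (nat_lit 0xf2a32b183e23847)) e
 (c (a (nat_lit 0xdad92c483f3dc87)) e e)))))))))
 (c (a (nat_lit 0x14f608a8a8a8a6))
 (c (a (nat_lit 0x3e120c1810e1047))
 (c z e
 (c z e
 (c (a (nat_lit 0x3c1c0e1c32049bc29)) e e)))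
 (c z e
 (c z e
 (c z e
 (c z e
 (c (a (nat_lit 0x5e947c9e9a3d489)) e
 (c (a (nat_lit 0x82b11d2e48beae8)) e
 (c (a (nat_lit 0xbb4f567b58d1028)) e
 (c z e
 (c z e
 (c (a (nat_lit 0x2f9144e0000009)) e e)))))))))))
 (c (a (nat_lit 0x1b826242626085))
 (c z e
 (c z e
 (c z e
 (c z e
 (c (a (nat_lit 0x14934f0e8f38b4e8)) e e)))))
 (c (b (nat_lit 0x19d9d9fa171fe4))
 (c z e
 (c (a (nat_lit 0x86787480dcdb3ea))
 (c (a (nat_lit 0xbdb4840000000000b)) e e)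
 (c z e
 (c z e
 (c z e
 (c z e
 (c z e
 (c z e
 (c (a (nat_lit 0x1546c00000000009)) e e)))))))))
 (c (a (nat_lit 0x145455b38b8445))
 (c (a (nat_lit 0xa89ea1210145329))
 (c (a (nat_lit 0x1363e000000000000a)) e e)
 (c z e
 (c z e
 (c z e
 (c z e
 (c z e
 (c (a (nat_lit 0x14cc21c000000009)) e
 (c (a (nat_lit 0x13a0000000000008)) e e))))))))
 (c (a (nat_lit 0x1535d2b0ca4dc6)) e
 (c (a (nat_lit 0x15d55f733d1a46))
 (c (a (nat_lit 0x6d0cf0e470728a8)) e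
 (c (a (nat_lit 0x10f00e49a7728b48)) e
 (c (a (nat_lit 0x1b7aa96a2c600007)) e e)))
 (c (a (nat_lit 0x73d2b9d1a5a46))
 (c (a (nat_lit 0xe6a4b88dd488007)) e
 (c (a (nat_lit 0xb6cd28de0000008)) e e))
 (c (b (nat_lit 0x153ff5b5d5d3c5)) e
 (c (a (nat_lit 0x1050b0902867c5)) e
 (c (a (nat_lit 0x19b9d932114325)) e
 (c (a (nat_lit 0x1d7d3cbab02c26)) e
 (c (a (nat_lit 0x1312d2ac28a347)) e
 (c z e
 (c (a (nat_lit 0xf4b91ebe605e6)) e
 (c (a (nat_lit 0xad0eae5452526)) e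
 (c (a (nat_lit 0x178ba040200005)) e
 (c (a (nat_lit 0x17206000000004)) e e))))))))))))))))))
 C138))) Tr.c Tr.e (nat_lit 0) C.cx C.cy
noncomputable def C140 : Tr := beta% (fun (c : Nat → Tr → Tr → Tr) (e : Tr) (z : Nat) (a b : Nat → Nat) =>
 (c (a (nat_lit 0x8080808170482))
 (c z e
 (c z e
 (c z e
 (c z e
 (c z e
 (c z e
 (c z e
 (c z e
 (c z e
 (c z e
 (c z e
 (c (a (nat_lit 0x14d4539394b51587)) e
 (c z e
 (c (a (nat_lit 0x4021402244fb26)) e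
 (c (a (nat_lit 0x2648240247732c5)) e e)))))))))))))))
 (c (a (nat_lit 0x1010110e9e9e5))
 (c (a (nat_lit 0x1191b657d473b206))
 (c z e
 (c z e
 (c z e
 (c z e
 (c (a (nat_lit 0x1db7f9db95387b5b67)) e
 (c (a (nat_lit 0xa48cb0c8e52382948)) e
 (c (a (nat_lit 0x703a549946fc940a8)) e e)))))))
 (c (a (nat_lit 0xc70526f12aeeec6))
 (c z e
 (c (a (nat_lit 0xecff4b12c68856a49)) e
 (c z e
 (c z e
 (c z e
 (c (a (nat_lit 0x366060e7009648209)) e e))))))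
 (c (a (nat_lit 0x160ff0311492f085))
 (c (a (nat_lit 0xbd5b04b09092868c8)) e
 (c z e
 (c z e
 (c z e
 (c z e
 (c (a (nat_lit 0x13aae88b4d0cad0548)) e e))))))
 (c (a (nat_lit 0x146d4ace3cba1cc4))
 (c z e
 (c z e
 (c z e
 (c (a (nat_lit 0xc5550e762098c1048)) e e))))
 (c (a (nat_lit 0xc06043e3443a65))
 (c z e
 (c (a (nat_lit 0xed5f164c548ea5649)) e
 (c (a (nat_lit 0x19d3c72a0aa6919769)) e e)))
 (c (a (nat_lit 0x60602144ef7646))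
 (c (a (nat_lit 0x726a382030385924a)) e
 (c (a (nat_lit 0x116ac8a92b8e11e00a)) e e))
 (c (a (nat_lit 0x504e7cd28b89546)) e
 (c (a (nat_lit 0x5e608aad0056906)) e
 (c (a (nat_lit 0x15f8b6fb55997646)) e
 (c (a (nat_lit 0x104e732c11cf7046)) e
 (c (a (nat_lit 0xfce897173153386)) e
 (c (a (nat_lit 0x3406122c1c21c08)) e
 (c (a (nat_lit 0x41202282fc1668)) e
 (c (a (nat_lit 0x24162a656662008)) e
 (c (a (nat_lit 0x7c911d6a0000007)) e e)))))))))))))))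
 (c (a (nat_lit 0x7e7f819796fa4))
 (c (b (nat_lit 0x80f1ff390d08e45)) e
 (c (a (nat_lit 0x80a8f52308eed46))
 (c z e
 (c z e
 (c z e
 (c (a (nat_lit 0x1492fa8fa8c10f8e28)) e e))))
 (c (a (nat_lit 0xde8183fd836d9c4))
 (c z e
 (c z e
 (c (a (nat_lit 0x1b3b3d6ec1a10df1a7)) e e)))
 (c (a (nat_lit 0x5a5c76645ac1de6))
 (c (a (nat_lit 0x10ef2da4e686e60d28)) e e)
 (c (a (nat_lit 0xb48eacf0d159826))
 (c (a (nat_lit 0x724a364256570a3ea)) e e)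
 (c (a (nat_lit 0x72a4a7278969466)) e
 (c (a (nat_lit 0x103131b90faf4dc6)) e
 (c (a (nat_lit 0x110f79d1f06d6e66)) e
 (c (a (nat_lit 0xb2db20d4a09e6e6)) e
 (c (a (nat_lit 0x281a363a342b268)) e
 (c (a (nat_lit 0xe0420180e9f4a8)) e
 (c (a (nat_lit 0x1e162e4d0124368)) e e))))))))))))
 (c (b (nat_lit 0x2f65ffb4bc924))
 (c (a (nat_lit 0x6d31902e89e905)) e
 (c (a (nat_lit 0x25c806e46514a6))
 (c z e
 (c (a (nat_lit 0x1b5ae8ea610b831c07)) e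
 (c (a (nat_lit 0x768e7c381026935c8)) e e)))
 (c z e
 (c z e
 (c z e
 (c (a (nat_lit 0x104fd5b46f2f6cc6)) e
 (c (a (nat_lit 0x8d8915dcc6b21e5)) e
 (c (a (nat_lit 0x3478727e542b547)) e
 (c (a (nat_lit 0x143c403c39301e8)) e e)))))))))
 (c (b (nat_lit 0x17fffcebc92924))
 (c (a (nat_lit 0x23c90a853eeec4)) e
 (c z e
 (c z e
 (c (a (nat_lit 0x4e2f42789aae8c6)) e
 (c (a (nat_lit 0xab3d06febc606a6)) e
 (c (a (nat_lit 0x16eeb67329465ae6)) e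
 (c (a (nat_lit 0x131775ac2bae12a6)) e
 (c (a (nat_lit 0xbaba9699fca8c47)) e
 (c (a (nat_lit 0x6a3e4b979c9e2c7)) e e)))))))))
 (c (a (nat_lit 0x53093b0f11103))
 (c (a (nat_lit 0x2ae888c6ae9d3a5)) e
 (c (a (nat_lit 0x102c5c52407ff26))
 (c (a (nat_lit 0x6684c748440000009)) e
 (c (a (nat_lit 0xad08dc0000000000a)) e e))
 (c (a (nat_lit 0x5a8276768cdd167))
 (c (a (nat_lit 0x1489e0000000000009)) e e)
 (c (a (nat_lit 0x84927894be4fca7)) e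
 (c (a (nat_lit 0x62848cc423a10a7)) e
 (c z e
 (c z e
 (c (a (nat_lit 0x662f25145836008)) e
 (c (a (nat_lit 0xb2f202a0000008)) e
 (c (a (nat_lit 0x1df4e00000000007)) e e))))))))))
 (c (a (nat_lit 0x199edebebed202))
 (c (a (nat_lit 0x809294928d25746))
 (c (a (nat_lit 0x7ca53c2e000000008)) e
 (c (a (nat_lit 0x15f340000000000009)) e e))
 (c (a (nat_lit 0x8c8a8c829cf5528))
 (c (a (nat_lit 0x1ba000000000000008)) e e)
 (c (a (nat_lit 0x785c66a4bd06f27)) e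
 (c (a (nat_lit 0x7666b8b71aee847)) e
 (c (a (nat_lit 0x6890bd46c6c22e7)) e
 (c z e
 (c (a (nat_lit 0x8bbdecd61200007)) e
 (c (a (nat_lit 0x1435860000000008)) e
 (c (a (nat_lit 0x16a0000000000007)) e e)))))))))
 (c (a (nat_lit 0x17d7f7f8142003))
 (c (a (nat_lit 0x9498887ad6ebfc7)) e
 (c (a (nat_lit 0x7a585aad5b5fec7)) e
 (c (a (nat_lit 0x584ea11f3080707)) e
 (c (a (nat_lit 0x2a9746ee7c18ac7)) e
 (c (a (nat_lit 0xa158cea88e58008)) e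
 (c (a (nat_lit 0xe5145c020000008)) e
 (c (a (nat_lit 0x1866000000000008)) e e)))))))
 (c (a (nat_lit 0x1151573095cea2))
 (c (a (nat_lit 0x324a410e3188b26)) e
 (c (a (nat_lit 0xa0831f62a8db4e7)) e
 (c (a (nat_lit 0x893106d27524747)) e
 (c (a (nat_lit 0x16ca6b8bc7000008)) e
 (c (a (nat_lit 0x10c8022000000008)) e
 (c (a (nat_lit 0x1a00000000000006)) e e))))))
 (c (a (nat_lit 0x15b6f83a9a19a4))
 (c (a (nat_lit 0x1076dbc5d2ba9826)) e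
 (c (a (nat_lit 0x109228283308a007)) e e))
 (c (a (nat_lit 0x1677ba79d95944))
 (c (a (nat_lit 0x102643d1e5a00006)) e e)
 (c (a (nat_lit 0x1939f9f9b99986)) e
 (c z e
 (c (a (nat_lit 0x1795f5b4b1af63)) e
 (c (a (nat_lit 0x19d9b957f6c3e4)) e
 (c (a (nat_lit 0x179735f4cce044)) e
 (c z e
 (c (a (nat_lit 0x2ef4329cd9e82)) e
 (c (a (nat_lit 0xc0026aa7b46e2)) e e)))))))))))))))))))) Tr.c Tr.e (nat_lit 0) C.cx C.cy
noncomputable def C142 : Tr := beta% (fun (c : Nat → Tr → Tr → Tr) (e : Tr) (z : Nat) (a b : Nat → Nat) =>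
 (c (a (nat_lit 0x404041))
 (c (a (nat_lit 0x20203346))
 (c (a (nat_lit 0xe5c6c8c8002))
 (c z e
 (c (a (nat_lit 0x13200000000004)) e e))
 (c (a (nat_lit 0x7ea48b3a064)) e
 (c (a (nat_lit 0x9dd7bfc8044)) e
 (c (a (nat_lit 0x113ebcafe606)) e
 (c (a (nat_lit 0x5d2d1206026)) e
 (c (a (nat_lit 0x10a0444ee046)) e
 (c (a (nat_lit 0x11aaca53e027)) e
 (c (a (nat_lit 0x1602135c005)) e
 (c (a (nat_lit 0x1a7e0000001)) e e)))))))))
 (c (a (nat_lit 0x336546))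
 (c (a (nat_lit 0x100ed6156e65)) e
 (c (a (nat_lit 0xb51ee4ea966)) e
 (c (a (nat_lit 0xebd4e6b6307)) e
 (c (a (nat_lit 0x14724361a267)) e
 (c (a (nat_lit 0x5f3510f0007)) e
 (c (a (nat_lit 0x7c51b68e027)) e
 (c (a (nat_lit 0x239a000006)) e
 (c (a (nat_lit 0x1d8000000004)) e e))))))))
 (c (a (nat_lit 0x215b5d265))
 (c (b (nat_lit 0x199a9feb4e83)) e
 (c z e
 (c z e
 (c z e
 (c (a (nat_lit 0x5d0ac038008)) e
 (c (a (nat_lit 0x133460000007)) e e))))))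
 (c (a (nat_lit 0x14d4d4e906))
 (c (a (nat_lit 0xd4b6c0a5b67)) e
 (c (a (nat_lit 0x96a8a910c68)) e e))
 (c (a (nat_lit 0x1131202005))
 (c (a (nat_lit 0x8f467e04867)) e
 (c (a (nat_lit 0x8ab760fe007)) e
 (c (a (nat_lit 0x59120000007)) e e)))
 (c (a (nat_lit 0x1320202005))
 (c (a (nat_lit 0x24f9200005)) e
 (c (a (nat_lit 0xa000000001)) e e))
 (c (a (nat_lit 0x80408001)) e
 (c (a (nat_lit 0x60203a43)) e
 (c (a (nat_lit 0x611862)) e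
 (c (a (nat_lit 0x1e161d3c1)) e
 (c (a (nat_lit 0x20c3c421)) e
 (c (a (nat_lit 0x240414381)) e
 (c (a (nat_lit 0x20220241)) e
 (c (a (nat_lit 0x40f941)) e
 (c (a (nat_lit 0x20a0bac1)) e
 (c (a (nat_lit 0x604001)) e
 (c (a (nat_lit 0x80000001)) e e)))))))))))))))))
 (c (nat_lit 1)
 (c (a (nat_lit 0x11931007a3))
 (c (a (nat_lit 0x362d1915144)) e
 (c (a (nat_lit 0x52cd0908ca6)) e
 (c (a (nat_lit 0x1ed43688b206)) e
 (c (a (nat_lit 0x14a5c8b1ce46)) e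
 (c (a (nat_lit 0x14080b8ee047)) e
 (c (a (nat_lit 0x28dfa0d8007)) e
 (c (a (nat_lit 0x105920000006)) e e)))))))
 (c (a (nat_lit 0xadff4f104))
 (c (a (nat_lit 0x34828275067)) e
 (c (a (nat_lit 0x34465661689)) e
 (c (a (nat_lit 0x270bdd4588)) e
 (c (a (nat_lit 0x14e56ab2288)) e
 (c (a (nat_lit 0xa104e200008)) e
 (c (a (nat_lit 0x168000000006)) e e))))))
 (c (a (nat_lit 0x1b0202005))
 (c (a (nat_lit 0x5252871cf08)) e
 (c (a (nat_lit 0x68b186e23a8)) e e))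
 (c (a (nat_lit 0x1160202005))
 (c (a (nat_lit 0x15a284e32087)) e
 (c (a (nat_lit 0x13e3a6800006)) e e))
 (c (a (nat_lit 0x40604001))
 (c (a (nat_lit 0x6280000001)) e e)
 (c (a (nat_lit 0x202f77e6)) e
 (c (a (nat_lit 0x317125)) e
 (c (a (nat_lit 0xb33535325)) e
 (c (a (nat_lit 0x5236340a1)) e
 (c (a (nat_lit 0x100101c401)) e
 (c (a (nat_lit 0x836181)) e
 (c (a (nat_lit 0x210140a1)) e
 (c (a (nat_lit 0x13f4b44001)) e
 (c (a (nat_lit 0x1130e06002)) e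
 (c (a (nat_lit 0x1c20200002)) e e)))))))))))))))
 (c (nat_lit 1)
 (c (a (nat_lit 0xacb206001))
 (c (a (nat_lit 0x20204059267)) e
 (c (a (nat_lit 0x224079fb968)) e
 (c (a (nat_lit 0x40678c20a28)) e
 (c (a (nat_lit 0x7b2ab248008)) e
 (c (a (nat_lit 0x12ff00000006)) e e)))))
 (c (a (nat_lit 0x1120c02001))
 (c (a (nat_lit 0x2a5fddcea08)) e
 (c (a (nat_lit 0x4d770cd8029)) e
 (c (a (nat_lit 0x11d284000009)) e e)))
 (c (a (nat_lit 0x408001))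
 (c (a (nat_lit 0x1e3a98202007)) e
 (c (a (nat_lit 0x17d2c0000007)) e e))
 (c (a (nat_lit 0x202030c5))
 (c (a (nat_lit 0x112000000006)) e e)
 (c (a (nat_lit 0x14fd85826)) e
 (c (a (nat_lit 0x4f91918e6)) e
 (c (a (nat_lit 0x1191919166)) e
 (c (a (nat_lit 0x1f9f606024)) e
 (c (a (nat_lit 0x80810201)) e
 (c (a (nat_lit 0xa1c1c1)) e
 (c (a (nat_lit 0xf9131a2a1)) e
 (c (a (nat_lit 0xd23c08121)) e
 (c (a (nat_lit 0x1080602002)) e
 (c (a (nat_lit 0x1300000001)) e e))))))))))))))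
 (c (a (nat_lit 0x202021))
 (c (a (nat_lit 0x202001))
 (c (a (nat_lit 0x65d3ac021e6)) e
 (c (a (nat_lit 0x10f00701a008)) e
 (c (a (nat_lit 0x1be740000007)) e e)))
 (c (a (nat_lit 0x202050c5))
 (c (a (nat_lit 0x14cb61a00008)) e
 (c (a (nat_lit 0x170000000007)) e e))
 (c (a (nat_lit 0x30f0c5)) e
 (c z e
 (c (a (nat_lit 0x1a1a1a19e6)) e
 (c (a (nat_lit 0x1090802025)) e
 (c (a (nat_lit 0x60404061)) e
 (c (a (nat_lit 0x40604041)) e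
 (c (a (nat_lit 0x1717576003)) e
 (c (a (nat_lit 0x1000204024)) e
 (c (a (nat_lit 0x204033c3)) e
 (c (a (nat_lit 0x140400001)) e e))))))))))))
 (c (a (nat_lit 0x202021))
 (c (a (nat_lit 0x50b004))
 (c (a (nat_lit 0x118160000006)) e e)
 (c (a (nat_lit 0xd1edede86)) e
 (c (a (nat_lit 0x1070100e64)) e
 (c (a (nat_lit 0xa04c3e001)) e
 (c (a (nat_lit 0x2c0e1e261)) e
 (c (a (nat_lit 0x220658501)) e
 (c (a (nat_lit 0x1352d2a4a3)) e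
 (c (a (nat_lit 0x19a6632624)) e
 (c (a (nat_lit 0xe80edd9e2)) e
 (c (a (nat_lit 0xe1806001)) e
 (c (a (nat_lit 0x240000001)) e e)))))))))))
 (c (a (nat_lit 0x202021))
 (c (a (nat_lit 0x12121211e6)) e
 (c (a (nat_lit 0x1a9a91b144)) e
 (c (a (nat_lit 0x3e200e061)) e
 (c (a (nat_lit 0x160806081)) e
 (c (a (nat_lit 0x19d9d9d485)) e
 (c (a (nat_lit 0x15ab8a2f25)) e
 (c (a (nat_lit 0x160c19d01)) e
 (c (a (nat_lit 0x40c0b102)) e
 (c (a (nat_lit 0x420600001)) e e)))))))))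
 (c (a (nat_lit 0x202021))
 (c (a (nat_lit 0x40a101)) e
 (c (a (nat_lit 0x60a181)) e
 (c (a (nat_lit 0x1e5e5e6625)) e
 (c (a (nat_lit 0xe60603043)) e
 (c (a (nat_lit 0xe1004021)) e
 (c (a (nat_lit 0x40e68741)) e
 (c (a (nat_lit 0x200202001)) e
 (c (a (nat_lit 0x20000001)) e e))))))))
 (c (a (nat_lit 0x202021))
 (c (a (nat_lit 0x1bdbfc0024)) e
 (c (a (nat_lit 0x1900a034a3)) e
 (c (a (nat_lit 0x881c2a541)) e
 (c (a (nat_lit 0x100a04021)) e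
 (c (a (nat_lit 0x80002001)) e
 (c (a (nat_lit 0x20200001)) e e))))))
 (c (a (nat_lit 0x202021))
 (c (a (nat_lit 0x202021)) e
 (c (a (nat_lit 0x20202021)) e
 (c (a (nat_lit 0x20202021)) e
 (c (a (nat_lit 0x20202001)) e
 (c (a (nat_lit 0x20000001)) e e)))))
 (c (a (nat_lit 0x202021))
 (c (a (nat_lit 0x20202021)) e
 (c (a (nat_lit 0x20202021)) e
 (c (a (nat_lit 0x20200001)) e e)))
 (c (a (nat_lit 0x202021))
 (c (a (nat_lit 0x20202001)) e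
 (c (a (nat_lit 0x20000001)) e e))
 (c (a (nat_lit 0x202021)) e
 (c (a (nat_lit 0x202001)) e
 (c (a (nat_lit 0x202021)) e
 (c (a (nat_lit 0x202021)) e
 (c (a (nat_lit 0x202021)) e
 (c (a (nat_lit 0xa1)) e
 (c (a (nat_lit 0x4041)) e
 (c (a (nat_lit 0x61)) e
 (c (a (nat_lit 0x4001)) e
 (c (nat_lit 1) e
 (c (a (nat_lit 0x602001)) e
 (c (a (nat_lit 0x400001)) e
 (c (a (nat_lit 0xc06001)) e e))))))))))))))))))))))))) Tr.c Tr.e (nat_lit 0) C.cx C.cy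
noncomputable def C143 : Tr := beta% (fun (c : Nat → Tr → Tr → Tr) (e : Tr) (z : Nat) (a b : Nat → Nat) =>
 (c (a (nat_lit 0x404041))
 (c (a (nat_lit 0x20202021))
 (c (a (nat_lit 0x10cb8bb00fe3))
 (c (a (nat_lit 0x20e91c26aa084)) e
 (c (a (nat_lit 0x16bb8590e9b1a6)) e
 (c (a (nat_lit 0x10c4ab41a822a6)) e
 (c (a (nat_lit 0x80a236585885)) e
 (c (a (nat_lit 0xeca5c59cd4005)) e
 (c (a (nat_lit 0x4b08d80000005)) e
 (c (a (nat_lit 0x1d200000000004)) e e)))))))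
 (c (a (nat_lit 0x1bd838583825))
 (c (a (nat_lit 0x10e2a825c76067)) e
 (c (a (nat_lit 0x30c14a85e726)) e
 (c (a (nat_lit 0xa042e6e962927)) e
 (c (a (nat_lit 0x12b8f832600007)) e e))))
 (c (a (nat_lit 0x18b8d8b8d8c4))
 (c (a (nat_lit 0xca34462219c47)) e
 (c (a (nat_lit 0xf709072afa008)) e e))
 (c (a (nat_lit 0x1bdbdc1bd943))
 (c (a (nat_lit 0xd939a48800006)) e
 (c (a (nat_lit 0x12700000000008)) e e))
 (c (a (nat_lit 0x163636550884))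
 (c (a (nat_lit 0x12000000000005)) e e)
 (c (a (nat_lit 0xc0c5ef8ad25)) e
 (c (a (nat_lit 0xbba51917026)) e
 (c (a (nat_lit 0x1c9b5b544786)) e
 (c (a (nat_lit 0x1211d1d16007)) e
 (c (a (nat_lit 0x18b8b9cf6126)) e
 (c (a (nat_lit 0x2471d413a4)) e
 (c (a (nat_lit 0x31e0602004)) e
 (c (a (nat_lit 0x260000001)) e e)))))))))))))
 (c (nat_lit 1)
 (c (a (nat_lit 0xc0bebcb0b41))
 (c (b (nat_lit 0x632cac31fe9e5)) e
 (c (a (nat_lit 0x18ae66a7d20027)) e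
 (c (a (nat_lit 0xba3d1fa064007)) e
 (c (a (nat_lit 0xf2e91e0000007)) e e))))
 (c (a (nat_lit 0x4a385e73621))
 (c (a (nat_lit 0x1421d89b44c286)) e
 (c (a (nat_lit 0x18eb828400008)) e e))
 (c (a (nat_lit 0x607211adc5))
 (c (a (nat_lit 0xcf08740000008)) e
 (c (a (nat_lit 0x10a00000000008)) e e))
 (c (a (nat_lit 0xdedf04d80a7)) e
 (c z e
 (c (a (nat_lit 0x9d1b2100a47)) e
 (c (a (nat_lit 0x1d5dfdf58067)) e
 (c (a (nat_lit 0x14343425c0a8)) e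
 (c (a (nat_lit 0x18d8fbc04387)) e
 (c (a (nat_lit 0xbc7f71245)) e
 (c (a (nat_lit 0x3200200003)) e
 (c (a (nat_lit 0x6000000001)) e e))))))))))))
 (c (a (nat_lit 0x21))
 (c (a (nat_lit 0x162756b41))
 (c (b (nat_lit 0x1ffffa4a64a004)) e
 (c (a (nat_lit 0x354da0000006)) e e))
 (c (a (nat_lit 0x162057a8003))
 (c (a (nat_lit 0x13e94000000007)) e e)
 (c (b (nat_lit 0xe54dfffffe5)) e
 (c z e
 (c (a (nat_lit 0xdcfcff23466)) e
 (c (a (nat_lit 0x1bbbb9498207)) e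
 (c (a (nat_lit 0x189830e020a7)) e
 (c (a (nat_lit 0x169867c02a07)) e
 (c (a (nat_lit 0xea1209bc004)) e
 (c (a (nat_lit 0xe0000001)) e e))))))))))
 (c (a (nat_lit 0x40402041))
 (c (a (nat_lit 0x10704f2e0d06))
 (c (a (nat_lit 0x18e00000000004)) e e)
 (c (a (nat_lit 0x163b9c16ae06)) e
 (c (a (nat_lit 0x18579f59ec26)) e
 (c (a (nat_lit 0x326ccb2a006)) e
 (c (a (nat_lit 0x88c8de3f1e7)) e
 (c (a (nat_lit 0x15a314573826)) e
 (c (a (nat_lit 0x15c629d49226)) e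
 (c (a (nat_lit 0x5220400004)) e
 (c (a (nat_lit 0x114000000004)) e e)))))))))
 (c (a (nat_lit 0x39c5))
 (c (a (nat_lit 0x17971373d9a5)) e
 (c (a (nat_lit 0x7aa70cee347)) e
 (c (a (nat_lit 0x4475406c0c7)) e
 (c (a (nat_lit 0xc1b412025)) e
 (c (b (nat_lit 0x1dfeac6b948)) e
 (c z e
 (c (b (nat_lit 0x1fe260000001)) e e)))))))
 (c (a (nat_lit 0x203b7585))
 (c (a (nat_lit 0x10303849e9c6)) e
 (c (a (nat_lit 0x9154fe84046)) e
 (c (a (nat_lit 0x1ac998d2d07)) e e)))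
 (c (a (nat_lit 0x35736f506))
 (c (a (nat_lit 0x552eb6ac4e6)) e
 (c (a (nat_lit 0x16dc8f2d11a7)) e
 (c (a (nat_lit 0x1530a9274007)) e
 (c (a (nat_lit 0x170860000006)) e e))))
 (c (a (nat_lit 0x1797910006))
 (c (a (nat_lit 0x1f31dbd411e6)) e
 (c (a (nat_lit 0x18cb4fc00006)) e e))
 (c (a (nat_lit 0x1535202005))
 (c (b (nat_lit 0x1ff800000001)) e e)
 (c (a (nat_lit 0x14e0202005)) e
 (c (a (nat_lit 0xa0604041)) e
 (c (a (nat_lit 0x1b7b3b2201)) e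
 (c (a (nat_lit 0x1c5c62a303)) e
 (c (a (nat_lit 0x16c020c3e2)) e
 (c (a (nat_lit 0x204342e1)) e
 (c (a (nat_lit 0xc08041)) e
 (c (a (nat_lit 0x60604021)) e
 (c (a (nat_lit 0x161216001)) e
 (c (a (nat_lit 0xb6c214001)) e
 (c (a (nat_lit 0xae0000001)) e e))))))))))))))))))))
 (c (a (nat_lit 0x202021))
 (c (a (nat_lit 0x2001))
 (c (a (nat_lit 0x1618161c201))
 (c (a (nat_lit 0x11ac47008f8005)) e
 (c (a (nat_lit 0x11c28573c56206)) e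
 (c (a (nat_lit 0x26b504600006)) e
 (c (a (nat_lit 0xc528000000006)) e e))))
 (c (a (nat_lit 0x822e9b21))
 (c (b (nat_lit 0x1feef6afe26006)) e
 (c (a (nat_lit 0xd50e960000008)) e e))
 (c (a (nat_lit 0x5258581bce3))
 (c (a (nat_lit 0x1165c000000007)) e e)
 (c (b (nat_lit 0x10b090345fe6)) e
 (c z e
 (c (a (nat_lit 0x121232944446)) e
 (c (a (nat_lit 0xf8f91002267)) e
 (c (a (nat_lit 0x16968b402307)) e
 (c (a (nat_lit 0x15352026a006)) e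
 (c (a (nat_lit 0x10c2302c001)) e
 (c (a (nat_lit 0x1e0a0000001)) e e)))))))))))
 (c (a (nat_lit 0x20002021))
 (c (a (nat_lit 0x410d5aa002))
 (c (a (nat_lit 0x16b2fde2600005)) e
 (c (a (nat_lit 0x18516000000007)) e e))
 (c (a (nat_lit 0x15770ecf6e06))
 (c (a (nat_lit 0x1c000000000006)) e e)
 (c (a (nat_lit 0xe8f72d149e6)) e
 (c z e
 (c (a (nat_lit 0x728b146c007)) e
 (c (a (nat_lit 0x1877e8a69007)) e
 (c (a (nat_lit 0x134ca1205ae7)) e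
 (c (a (nat_lit 0x16e060406c27)) e
 (c (a (nat_lit 0x28ac9c00001)) e
 (c (a (nat_lit 0x14000000001)) e e))))))))))
 (c (a (nat_lit 0x1885))
 (c (a (nat_lit 0xf4d71b18026)) e
 (c (b (nat_lit 0x143b3bcc3fe6)) e
 (c z e
 (c (b (nat_lit 0x1ff930a288c6)) e
 (c (a (nat_lit 0x1665301447c7)) e
 (c (b (nat_lit 0x1fe4e7fb2007)) e
 (c (a (nat_lit 0x6c05e4a6007)) e
 (c (a (nat_lit 0x4f320000006)) e e))))))))
 (c (a (nat_lit 0x20397945))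
 (c (b (nat_lit 0x153336ffffe5)) e
 (c z e
 (c z e
 (c (a (nat_lit 0x294c4db187)) e
 (c (a (nat_lit 0x2670d247e9)) e
 (c (b (nat_lit 0x1ffe98000008)) e
 (c (a (nat_lit 0x1bc000000006)) e e)))))))
 (c (a (nat_lit 0x8d3d25247))
 (c (a (nat_lit 0x1c9efe2de986)) e e)
 (c (a (nat_lit 0x18d8d704e6))
 (c (a (nat_lit 0x114cd2108646)) e
 (c (a (nat_lit 0xe2f70d1adc7)) e
 (c (a (nat_lit 0x18dcac000007)) e e)))
 (c (a (nat_lit 0x1535402005))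
 (c (a (nat_lit 0x23f2f10005)) e
 (c (a (nat_lit 0x160400000006)) e e))
 (c (a (nat_lit 0x1440202005))
 (c (a (nat_lit 0x1fa000000003)) e e)
 (c (a (nat_lit 0x40806001)) e
 (c (a (nat_lit 0x206f01)) e
 (c (a (nat_lit 0x4080e041)) e
 (c (a (nat_lit 0xe0a0c0c1)) e
 (c (a (nat_lit 0x1e40602003)) e
 (c (a (nat_lit 0x160402001)) e
 (c (a (nat_lit 0x8061)) e
 (c (a (nat_lit 0x20606101)) e
 (c (a (nat_lit 0x806041)) e
 (c (a (nat_lit 0x200001)) e e))))))))))))))))))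
 C142))) Tr.c Tr.e (nat_lit 0) C.cx C.cy
noncomputable def C144 : Tr := beta% (fun (c : Nat → Tr → Tr → Tr) (e : Tr) (z : Nat) (a b : Nat → Nat) =>
 (c (a (nat_lit 0x2021))
 (c (a (nat_lit 0xeeeeeef1523))
 (c (a (nat_lit 0xfeff490f33c83)) e
 (c (a (nat_lit 0x245c12898b8c5))
 (c (a (nat_lit 0x19868e6000000006)) e e)
 (c (a (nat_lit 0x10b070f2b2aea7)) e
 (c (a (nat_lit 0xb2dcdce4cd067)) e
 (c (a (nat_lit 0x58ba920568f06)) e
 (c (a (nat_lit 0x56684f62701e7)) e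
 (c (a (nat_lit 0x6443749612307)) e
 (c (a (nat_lit 0x6f80e03800007)) e
 (c (a (nat_lit 0x1e8d0000000007)) e e)))))))))
 (c (a (nat_lit 0xdedee534904))
 (c (a (nat_lit 0x5890bef10a747)) e
 (c z e
 (c (a (nat_lit 0x15981b050a18e7)) e
 (c (b (nat_lit 0x11ef7fffe50847)) e
 (c (b (nat_lit 0x1ef65ffa7051e6)) e
 (c (a (nat_lit 0x352f104a70008)) e
 (c (a (nat_lit 0x11e8e4a0000008)) e
 (c (a (nat_lit 0x14200000000007)) e e))))))))
 (c (a (nat_lit 0xf7071111107)) e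
 (c (a (nat_lit 0x15d858589646))
 (c (a (nat_lit 0x767506bcc66c7)) e
 (c (a (nat_lit 0xa79b7526931c7)) e e))
 (c (a (nat_lit 0x16189615f5e5))
 (c (a (nat_lit 0x168ca4a20903c6)) e
 (c (a (nat_lit 0x11830382000008)) e e))
 (c (a (nat_lit 0x187656563305))
 (c (a (nat_lit 0xcc1420000003)) e e)
 (c (a (nat_lit 0x18d8d8b20da4)) e
 (c (a (nat_lit 0x706f2f26e06)) e
 (c (a (nat_lit 0xcdf1d9cd707)) e
 (c (a (nat_lit 0x1a9a79791648)) e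
 (c (a (nat_lit 0x102e8eada7e7)) e
 (c (a (nat_lit 0x101409ac2)) e
 (c (a (nat_lit 0x141604dfb03)) e
 (c (a (nat_lit 0x3419dfc8002)) e
 (c (a (nat_lit 0x82a0000001)) e e)))))))))))))))
 (c (nat_lit 1)
 (c (a (nat_lit 0xf302ced0d26))
 (c (a (nat_lit 0xc2ff879a9a8e6)) e
 (c (a (nat_lit 0xf14f706869148)) e
 (c (a (nat_lit 0xe30c326294ec8)) e
 (c (a (nat_lit 0x14c1068d519248)) e
 (c (b (nat_lit 0x121fe7f011a5a7)) e
 (c (a (nat_lit 0x104a6b4aa00008)) e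
 (c (a (nat_lit 0x1b4aa000000007)) e e)))))))
 (c (a (nat_lit 0x13b3737371e8))
 (c (a (nat_lit 0x15370968b4fbe8)) e
 (c (a (nat_lit 0x1a6386161fe6c8)) e
 (c (a (nat_lit 0x1a18df308ad09)) e e)))
 (c (a (nat_lit 0x1b1c7b5b5b46))
 (c (a (nat_lit 0x1cb509268e027)) e e)
 (c (a (nat_lit 0x1cd716f71044))
 (c (a (nat_lit 0xc8a3126a02006)) e
 (c (a (nat_lit 0x2d0ec80000006)) e e))
 (c (a (nat_lit 0x102fefa30103))
 (c (a (nat_lit 0x11a1a000000001)) e e)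
 (c (a (nat_lit 0x8a8b1916607)) e
 (c (a (nat_lit 0xcb2f38f6c67)) e
 (c (a (nat_lit 0xbf2f0aeee28)) e
 (c (a (nat_lit 0x1656f6d7f108)) e
 (c (a (nat_lit 0x1353532ce567)) e
 (c (a (nat_lit 0x16040405d04)) e
 (c (a (nat_lit 0x60605d3d04)) e
 (c (a (nat_lit 0x40121400001)) e
 (c (a (nat_lit 0x6000000001)) e e))))))))))))))
 (c (a (nat_lit 0x20202001))
 (c (a (nat_lit 0x169352d2d2a6))
 (c (a (nat_lit 0x104ae97235a0c7)) e
 (c (a (nat_lit 0x7c40bd1814568)) e e))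
 (c (a (nat_lit 0x170eae6ea1c3))
 (c (a (nat_lit 0xde7f487234587)) e
 (c (a (nat_lit 0xa324bc8a56008)) e
 (c (a (nat_lit 0x16a7abe0000007)) e e)))
 (c (a (nat_lit 0x1c7c7d42a2a2))
 (c (a (nat_lit 0x12abd384600006)) e
 (c (a (nat_lit 0x9d22000000006)) e e))
 (c (a (nat_lit 0x5454bf027e6))
 (c (a (nat_lit 0x1d000000000004)) e e)
 (c (b (nat_lit 0xd32fff98306)) e
 (c (a (nat_lit 0x151056efe967)) e
 (c (a (nat_lit 0x2ef8f904e48)) e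
 (c (a (nat_lit 0x17d9fa576b88)) e
 (c (a (nat_lit 0xc71ce0d8028)) e
 (c (a (nat_lit 0x1de020406045)) e
 (c (a (nat_lit 0x203012001)) e
 (c (a (nat_lit 0x40000001)) e e))))))))))))
 (c (a (nat_lit 0x20202021))
 (c (a (nat_lit 0x17b7594103c1))
 (c (a (nat_lit 0xeb1e9c080c5)) e
 (c (a (nat_lit 0x68a3807600006)) e
 (c (a (nat_lit 0x14aa2000000006)) e e)))
 (c (a (nat_lit 0x1757d17b4b24))
 (c (a (nat_lit 0x470c3e0000007)) e
 (c (a (nat_lit 0x10600000000007)) e e))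
 (c (a (nat_lit 0x11900ca4e286)) e
 (c z e
 (c (a (nat_lit 0x6a868e7d767)) e
 (c (a (nat_lit 0x7171afc08c7)) e
 (c (a (nat_lit 0x1678dcd3eca8)) e
 (c (a (nat_lit 0xdb18e07a428)) e
 (c (a (nat_lit 0x1ca0444403c5)) e
 (c (b (nat_lit 0x1ffc80400004)) e e))))))))))
 (c (nat_lit 1)
 (c (a (nat_lit 0x161339dd2ce4))
 (c (a (nat_lit 0x1d008000000004)) e e)
 (c (a (nat_lit 0x17d951cf6a06)) e
 (c (a (nat_lit 0xbedebe8dc86)) e
 (c (a (nat_lit 0x261c3bdd566)) e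
 (c (a (nat_lit 0x445528a2467)) e
 (c z e
 (c (a (nat_lit 0x1b76f1608287)) e
 (c (a (nat_lit 0x50650704004)) e
 (c (a (nat_lit 0xe0000001)) e e)))))))))
 (c (a (nat_lit 0x20202021))
 (c (a (nat_lit 0x189454ca0664)) e
 (c (a (nat_lit 0xf2e5894c505)) e
 (c (a (nat_lit 0x1c1293127a6)) e
 (c (a (nat_lit 0x8ad8f396c27)) e
 (c z e
 (c z e
 (c (a (nat_lit 0x8bcf4000006)) e e)))))))
 (c (a (nat_lit 0x20203ac5))
 (c (a (nat_lit 0xcd2d1efcae6)) e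
 (c (a (nat_lit 0x496086046)) e
 (c (b (nat_lit 0x1433ac77fe7)) e
 (c z e
 (c (a (nat_lit 0xa0fd02ea008)) e
 (c (a (nat_lit 0x12df60000005)) e e))))))
 (c (a (nat_lit 0x1bbae5))
 (c (a (nat_lit 0x4e876af27e6)) e
 (c (a (nat_lit 0x95ad82ee027)) e
 (c (a (nat_lit 0xfb2110d8ce9)) e
 (c (a (nat_lit 0xd7030200007)) e
 (c (a (nat_lit 0x12000000001)) e e)))))
 (c (a (nat_lit 0x3413b067))
 (c (a (nat_lit 0xf15af436ae7)) e
 (c (a (nat_lit 0x1d7a31346008)) e e))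
 (c (a (nat_lit 0x19da39f268))
 (c (a (nat_lit 0x15884ea00008)) e e)
 (c (a (nat_lit 0x121207c006)) e
 (c (a (nat_lit 0x1260202025)) e
 (c (a (nat_lit 0x204040a1)) e
 (c (a (nat_lit 0xeeeef1524)) e
 (c (a (nat_lit 0x1091009303)) e
 (c (a (nat_lit 0x180e0a221)) e
 (c (a (nat_lit 0x100808101)) e
 (c (a (nat_lit 0x10c0404002)) e
 (c (a (nat_lit 0x604101)) e
 (c (a (nat_lit 0x302404001)) e
 (c (a (nat_lit 0x12c6400004)) e e)))))))))))))))))))))) Tr.c Tr.e (nat_lit 0) C.cx C.cy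
noncomputable def C145 : Tr := beta% (fun (c : Nat → Tr → Tr → Tr) (e : Tr) (z : Nat) (a b : Nat → Nat) =>
 (c (a (nat_lit 0x20202021))
 (c (a (nat_lit 0x1f1f128f8f86))
 (c (a (nat_lit 0xfb11713b4b266))
 (c z e
 (c z e
 (c z e
 (c z e
 (c (a (nat_lit 0x1b79346d00000006)) e e)))))
 (c (a (nat_lit 0x39732b46d4746))
 (c (a (nat_lit 0x290845c080b086)) e
 (c (a (nat_lit 0x1677a76084d1f567)) e
 (c (a (nat_lit 0x11cc32b3f4c00007)) e e)))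
 (c (a (nat_lit 0x2e5e0a238386))
 (c (a (nat_lit 0x1dcec9a0ce516006)) e e)
 (c (b (nat_lit 0x1f3ffc60405585)) e
 (c (a (nat_lit 0x173d53133312c6)) e
 (c z e
 (c (a (nat_lit 0x1433333272faa7)) e
 (c (a (nat_lit 0x868e9a976ea08)) e
 (c (a (nat_lit 0x5a484102242e8)) e
 (c (a (nat_lit 0x8ccba9388a007)) e e))))))))))
 (c (a (nat_lit 0x128f65214146))
 (c (a (nat_lit 0x39792a4062c5))
 (c (a (nat_lit 0x427a4c0614818c6)) e
 (c (a (nat_lit 0x13caa32667f0c008)) e e))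
 (c (a (nat_lit 0x75a8640202f07))
 (c (a (nat_lit 0x1fd850b379a00007)) e e)
 (c (a (nat_lit 0x1160606d3887))
 (c (a (nat_lit 0x156b400000000008)) e e)
 (c z e
 (c z e
 (c (a (nat_lit 0x256709e07708)) e
 (c z e
 (c (a (nat_lit 0x3cfce98cfe787)) e
 (c (a (nat_lit 0x667bc4b200008)) e e)))))))))
 (c (a (nat_lit 0x14c020202025))
 (c (a (nat_lit 0x114340216d2e27)) e
 (c z e
 (c z e
 (c z e
 (c (b (nat_lit 0x6c633123fffe6)) e
 (c (a (nat_lit 0x7e853474662c8)) e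
 (c (b (nat_lit 0x8cb5ff0052007)) e
 (c (a (nat_lit 0x1e5d9000000007)) e e))))))))
 (c (a (nat_lit 0x4040405ae3))
 (c (a (nat_lit 0xfcfd1dd9bee87)) e
 (c (a (nat_lit 0x847bad8209686)) e
 (c z e
 (c z e
 (c z e
 (c (a (nat_lit 0x17c8c645c00008)) e
 (c (a (nat_lit 0x1bc4c000000007)) e e)))))))
 (c (a (nat_lit 0xa0a0af7324))
 (c (a (nat_lit 0x1e160249a0027)) e
 (c z e
 (c z e
 (c z e
 (c (a (nat_lit 0x17846820000007)) e e)))))
 (c (a (nat_lit 0xc3090906e07)) e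
 (c z e
 (c (a (nat_lit 0x16b291110fc6))
 (c (a (nat_lit 0xd16000000002)) e e)
 (c (a (nat_lit 0x182bcb609483)) e
 (c (a (nat_lit 0xa2a3473d0a7)) e
 (c z e
 (c (a (nat_lit 0x1050d3d151c8)) e
 (c (b (nat_lit 0x3729d89fe5)) e
 (c (a (nat_lit 0x18eb9a402005)) e
 (c (a (nat_lit 0xb9a60204045)) e
 (c (a (nat_lit 0x1a6020404005)) e
 (c (a (nat_lit 0x160000001)) e e)))))))))))))))))
 (c (a (nat_lit 0x40404041))
 (c (a (nat_lit 0x102444444446))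
 (c (a (nat_lit 0x10ae0380404884))
 (c z e
 (c (a (nat_lit 0xfca8d83b2e00007)) e e))
 (c (a (nat_lit 0xd22c1202af367))
 (c (a (nat_lit 0x160c606b20000008)) e e)
 (c (a (nat_lit 0xd67a7e870ef87))
 (c (a (nat_lit 0x17a0000000000007)) e e)
 (c z e
 (c z e
 (c (a (nat_lit 0x3a8eb469c4248)) e
 (c (a (nat_lit 0x84c283b8342c8)) e
 (c (a (nat_lit 0x84379a864c008)) e
 (c (a (nat_lit 0x11a69e0000008)) e e)))))))))
 (c (a (nat_lit 0x406060bf63))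
 (c (a (nat_lit 0x2e7e931f9fbc7))
 (c (a (nat_lit 0x1be0b24000000006)) e e)
 (c z e
 (c z e
 (c z e
 (c z e
 (c (a (nat_lit 0xaeb920c6426e9)) e
 (c (a (nat_lit 0x612b4ca000008)) e
 (c (a (nat_lit 0x164ea000000008)) e e))))))))
 (c (a (nat_lit 0xa0a0a9efb04)) e
 (c (a (nat_lit 0x2536b2c86e6)) e
 (c z e
 (c (a (nat_lit 0x1f9934541145))
 (c (a (nat_lit 0x5f832e3200004)) e e)
 (c (a (nat_lit 0x12f0704f0c46)) e
 (c (a (nat_lit 0xf8f949166e7)) e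
 (c (a (nat_lit 0x88d94914f28)) e
 (c z e
 (c z e
 (c (a (nat_lit 0xc34dba02005)) e
 (c (a (nat_lit 0x153c20402885)) e
 (c (a (nat_lit 0x1c004028a8a5)) e
 (c (a (nat_lit 0x825c0800001)) e
 (c (a (nat_lit 0x8000000001)) e e))))))))))))))))
 (c (a (nat_lit 0x20202021))
 (c (a (nat_lit 0x11b191b4acc4))
 (c (a (nat_lit 0x1a60c2f540306)) e
 (c z e
 (c z e
 (c z e
 (c (a (nat_lit 0x155bd2a5a930e7)) e
 (c (a (nat_lit 0x1852f2c9c98007)) e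
 (c (a (nat_lit 0xdb21f20000005)) e
 (c (a (nat_lit 0x1de00000000005)) e e))))))))
 (c (a (nat_lit 0x123f99597045)) e
 (c z e
 (c (a (nat_lit 0x19720e4e2ba5))
 (c (b (nat_lit 0x1ffff2cde0c026)) e
 (c (a (nat_lit 0x851086c00007)) e e))
 (c (a (nat_lit 0x172b6b20a003))
 (c (a (nat_lit 0x11b4a0000004)) e e)
 (c (a (nat_lit 0xa6a71b12606)) e
 (c (a (nat_lit 0xf565a314a46)) e
 (c (a (nat_lit 0x1531ff17b2c7)) e
 (c z e
 (c (a (nat_lit 0xe50786b4ae8)) e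
 (c (a (nat_lit 0x413e0202007)) e
 (c (a (nat_lit 0x13c020202be7)) e
 (c (a (nat_lit 0x606057c005)) e
 (c (a (nat_lit 0x140000001)) e e))))))))))))))
 (c (a (nat_lit 0x20202001))
 (c (a (nat_lit 0x1a7a9a999767)) e
 (c (a (nat_lit 0x18c9666643c5)) e
 (c (a (nat_lit 0x1aeb4b014263))
 (c (a (nat_lit 0x54935e9424007)) e
 (c (a (nat_lit 0x9d52920000007)) e e))
 (c (b (nat_lit 0x6e6c6127fe4))
 (c (a (nat_lit 0x3706000000004)) e e)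
 (c (a (nat_lit 0xc4ff3f04ce7)) e
 (c (a (nat_lit 0x1634b2ec0647)) e
 (c (a (nat_lit 0x682f6327367)) e
 (c z e
 (c (a (nat_lit 0x1edaff94b367)) e
 (c (a (nat_lit 0x68f80403346)) e
 (c (a (nat_lit 0xf6020337346)) e
 (c (a (nat_lit 0xe0c00001)) e
 (c (a (nat_lit 0x2000000001)) e e)))))))))))))
 (c (a (nat_lit 0x40404041))
 (c (a (nat_lit 0x168aaa2120a2))
 (c (a (nat_lit 0x10658f4580c0e6)) e
 (c (a (nat_lit 0x3b7eb69436007)) e
 (c (a (nat_lit 0x1c5244a0000006)) e e)))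
 (c (a (nat_lit 0x1332ee9e6004))
 (c (a (nat_lit 0x182e4d83000007)) e
 (c (a (nat_lit 0x1c2ec000000007)) e e))
 (c (a (nat_lit 0x1f1fd3d2b424))
 (c (a (nat_lit 0x10e00000000005)) e e)
 (c z e
 (c (a (nat_lit 0xaaac5e4f007)) e
 (c z e
 (c z e
 (c (a (nat_lit 0xe92b0f0cc68)) e
 (c (a (nat_lit 0x1e20a0802004)) e
 (c (a (nat_lit 0x50403006001)) e
 (c (a (nat_lit 0x80460000001)) e e)))))))))))
 (c (a (nat_lit 0x40402021))
 (c (a (nat_lit 0x18165fd87444))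
 (c (a (nat_lit 0x17702020000005)) e
 (c (a (nat_lit 0x12e00000000006)) e e))
 (c (a (nat_lit 0x137d7d725146)) e
 (c z e
 (c z e
 (c (a (nat_lit 0x70ee53e2546)) e
 (c z e
 (c z e
 (c (a (nat_lit 0x8eb76b06a6)) e
 (c (a (nat_lit 0x89a01400005)) e e)))))))))
 (c (a (nat_lit 0x40402021))
 (c (a (nat_lit 0x100f8b6ae126)) e
 (c (a (nat_lit 0xa2bd186cea6)) e
 (c (a (nat_lit 0x98e206f9386)) e
 (c (a (nat_lit 0x12e4ccc925c6)) e
 (c (a (nat_lit 0xcf6f6591728)) e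
 (c z e
 (c (a (nat_lit 0x712130c0007)) e
 (c (a (nat_lit 0x1b6fa0000005)) e e))))))))
 (c (a (nat_lit 0x20202021))
 (c (a (nat_lit 0x7dc0dbc523)) e
 (c (a (nat_lit 0x14a31f3e8645)) e
 (c (b (nat_lit 0xc6f4fd01fe6)) e
 (c z e
 (c (a (nat_lit 0xe6fd1cf8f29)) e
 (c (a (nat_lit 0xf342ca00007)) e e))))))
 (c (a (nat_lit 0x20203bc5))
 (c (a (nat_lit 0x1459454025)) e
 (c (a (nat_lit 0x584d02801a7)) e e))
 (c (a (nat_lit 0x203d5be5))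
 (c (b (nat_lit 0xf8b76633fe6)) e
 (c z e
 (c z e
 (c (a (nat_lit 0x2000000001)) e e))))
 (c (a (nat_lit 0x210b0a347)) e
 (c (a (nat_lit 0x19596ca947)) e
 (c (a (nat_lit 0x175085a5a5)) e
 (c (a (nat_lit 0x15c0202024)) e
 (c (a (nat_lit 0x20402021)) e
 (c (a (nat_lit 0x202038a3)) e
 (c (a (nat_lit 0x40209ea3)) e
 (c (b (nat_lit 0x20407fe1)) e
 (c (a (nat_lit 0x1a31ceeee5)) e
 (c (a (nat_lit 0x17c0402082)) e
 (c (a (nat_lit 0x20c06121)) e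
 (c (a (nat_lit 0x1080808001)) e
 (c (a (nat_lit 0x1ac0000003)) e e)))))))))))))))))))))))) Tr.c Tr.e (nat_lit 0) C.cx C.cy
noncomputable def C146 : Tr := beta% (fun (c : Nat → Tr → Tr → Tr) (e : Tr) (z : Nat) (a b : Nat → Nat) =>
 (c (a (nat_lit 0x20202021))
 (c (a (nat_lit 0x17f8ea42a2a6))
 (c (b (nat_lit 0x1ffffe09f6e4a3))
 (c (a (nat_lit 0x124c9e4c2551206)) e
 (c (a (nat_lit 0x3b08d8867ed4008)) e e))
 (c (a (nat_lit 0x4fe89ad303ec6))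
 (c (a (nat_lit 0xf52ca2347200009)) e e)
 (c z e
 (c z e
 (c z e
 (c z e
 (c z e
 (c (b (nat_lit 0x1ffffffec26028)) e
 (c (a (nat_lit 0x2d7b86a00008)) e e)))))))))
 (c (a (nat_lit 0x1c6020202026))
 (c (a (nat_lit 0x82a4b0b377f67))
 (c (a (nat_lit 0x1d2ba60580000008)) e e)
 (c z e
 (c z e
 (c z e
 (c z e
 (c z e
 (c (a (nat_lit 0x33e07406008)) e
 (c (a (nat_lit 0x1defed00000008)) e e))))))))
 (c (a (nat_lit 0x202059c4))
 (c z e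
 (c z e
 (c z e
 (c z e
 (c z e
 (c z e
 (c (a (nat_lit 0x1727c000000008)) e e)))))))
 (c (b (nat_lit 0x4020dff8a3)) e
 (c (a (nat_lit 0x753f3d5d665)) e
 (c z e
 (c (a (nat_lit 0x16d932926125)) e
 (c (a (nat_lit 0x100c97ef0ec6)) e
 (c (a (nat_lit 0x954533388a7)) e
 (c z e
 (c z e
 (c z e
 (c (b (nat_lit 0x1ff665602006)) e
 (c (a (nat_lit 0x166560202006)) e
 (c (a (nat_lit 0x1580c0402004)) e
 (c (a (nat_lit 0x6a100000001)) e e))))))))))))))))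
 (c (a (nat_lit 0x2021))
 (c (a (nat_lit 0xcccccccd264))
 (c (a (nat_lit 0x2084cf11ada6)) e
 (c (a (nat_lit 0x4f178982087)) e
 (c z e
 (c (a (nat_lit 0x1055afcff4aa08)) e
 (c (a (nat_lit 0xf6f5bd221c868)) e
 (c (a (nat_lit 0xf6298dba58a67)) e
 (c (a (nat_lit 0xfd39902e00006)) e
 (c (a (nat_lit 0x270e000000006)) e e))))))))
 (c (b (nat_lit 0x2e2a3dfe001))
 (c z e
 (c z e
 (c z e
 (c z e
 (c z e
 (c (a (nat_lit 0x12d244e0000008)) e e))))))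
 (c z e
 (c (a (nat_lit 0x14d6b6d715a7))
 (c (a (nat_lit 0x9f531282c8ba8)) e
 (c (a (nat_lit 0x184909d02aa008)) e e))
 (c (a (nat_lit 0x14145211f0a6))
 (c (a (nat_lit 0x701f55c00006)) e e)
 (c (a (nat_lit 0x11f0d6356d87)) e
 (c (a (nat_lit 0x73277610206)) e
 (c (a (nat_lit 0x1618708ef027)) e
 (c z e
 (c z e
 (c (a (nat_lit 0x3fa3ec02006)) e
 (c (a (nat_lit 0x1a7f00203326)) e
 (c (a (nat_lit 0x1f0040333326)) e
 (c (a (nat_lit 0x13a0e0800002)) e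
 (c (a (nat_lit 0x20000000001)) e e)))))))))))))))
 (c (nat_lit 1)
 (c (a (nat_lit 0x15d5f6377824)) e
 (c z e
 (c (a (nat_lit 0x14ee8928e045))
 (c (b (nat_lit 0x12d3dfed880287)) e
 (c (a (nat_lit 0x184c8d50200007)) e e))
 (c (a (nat_lit 0x1532d9d22f46))
 (c (a (nat_lit 0x152a5480000006)) e e)
 (c (a (nat_lit 0xb3231b1aa67)) e
 (c (a (nat_lit 0x1798bc14c347)) e
 (c (a (nat_lit 0xdcc8a47d3a7)) e
 (c z e
 (c z e
 (c (a (nat_lit 0x947493f3c6)) e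
 (c (a (nat_lit 0x3830100c1)) e
 (c (a (nat_lit 0x22140e06001)) e
 (c (a (nat_lit 0x60000001)) e e)))))))))))))
 (c (a (nat_lit 0x40404061))
 (c (a (nat_lit 0xed02b6b6044))
 (c (b (nat_lit 0x1ff08380e0e0c7)) e
 (c (a (nat_lit 0x114a040244a308)) e e))
 (c (a (nat_lit 0x1ab53c12e4a5))
 (c (a (nat_lit 0x1f48668b442007)) e
 (c (a (nat_lit 0x13901860000007)) e e))
 (c (a (nat_lit 0xa90258481a6))
 (c (a (nat_lit 0x123f0000000005)) e e)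
 (c (a (nat_lit 0x12d0306e4026)) e
 (c (a (nat_lit 0x137130042c46)) e
 (c (a (nat_lit 0x15320a4e0ac6)) e
 (c z e
 (c z e
 (c (a (nat_lit 0x160d5130d066)) e
 (c (a (nat_lit 0x32461820021)) e
 (c (a (nat_lit 0xe46c0e00001)) e
 (c (a (nat_lit 0x5c000000001)) e e))))))))))))
 (c (a (nat_lit 0xa0a0a0c1))
 (c (a (nat_lit 0xdd14fefce85))
 (c (a (nat_lit 0x1acd4da0800003)) e
 (c (a (nat_lit 0xdd60000000005)) e e))
 (c (a (nat_lit 0x143393b28fa6))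
 (c (a (nat_lit 0x11000000000006)) e e)
 (c (a (nat_lit 0x1b7939260226)) e
 (c (a (nat_lit 0x1dd444c20545)) e
 (c (a (nat_lit 0x1e3f1cd9ee46)) e
 (c (a (nat_lit 0x665ef4c72c8)) e
 (c (b (nat_lit 0x9d85ffcba07)) e
 (c (a (nat_lit 0x118ed59714a7)) e
 (c (b (nat_lit 0x1ff2f9884005)) e
 (c (a (nat_lit 0x174ee0000005)) e e))))))))))
 (c (a (nat_lit 0x202021))
 (c (a (nat_lit 0x1715f60f6e86)) e
 (c z e
 (c (a (nat_lit 0x6ec2a273e05)) e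
 (c (a (nat_lit 0x16708caf6004)) e
 (c (a (nat_lit 0xb11d5d873e7)) e
 (c z e
 (c (a (nat_lit 0xf0dee304f48)) e
 (c (a (nat_lit 0xd7e58800005)) e e))))))))
 (c (nat_lit 1)
 (c (a (nat_lit 0x16685307065)) e
 (c (a (nat_lit 0x2a04c5b8065)) e
 (c (a (nat_lit 0x187e1ace4746)) e
 (c z e
 (c z e
 (c (a (nat_lit 0x1cf9b9b8a007)) e e))))))
 (c (a (nat_lit 0x20402041))
 (c (a (nat_lit 0x606b5ece005)) e
 (c (a (nat_lit 0xbca2c8815a5)) e e))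
 (c (a (nat_lit 0x20203d45))
 (c (a (nat_lit 0x6d903404603)) e e)
 (c (a (nat_lit 0x1cbca4)) e
 (c (a (nat_lit 0x7f1314aa7))
 (c (a (nat_lit 0xf9160000006)) e e)
 (c (a (nat_lit 0x19b9b32ea7)) e
 (c (a (nat_lit 0x1252406065)) e
 (c (a (nat_lit 0x11e0202025)) e
 (c (a (nat_lit 0xa0604021)) e
 (c (a (nat_lit 0x20203164)) e
 (c (a (nat_lit 0x406071a2)) e
 (c (a (nat_lit 0x40521802)) e
 (c (a (nat_lit 0x11d32120c3)) e
 (c (a (nat_lit 0x12a0804003)) e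
 (c (a (nat_lit 0x60802021)) e
 (c (a (nat_lit 0x1300200003)) e e))))))))))))))))))))))) Tr.c Tr.e (nat_lit 0) C.cx C.cy
noncomputable def C147 : Tr := beta% (fun (c : Nat → Tr → Tr → Tr) (e : Tr) (z : Nat) (a b : Nat → Nat) =>
 (c (nat_lit 1)
 (c (a (nat_lit 0x105070676568))
 (c (b (nat_lit 0x144e9fedc54706))
 (c (a (nat_lit 0x116c8527088d2486)) e
 (c (a (nat_lit 0x110d6b69ef651008)) e e))
 (c (a (nat_lit 0xeab5890f32c66))
 (c (a (nat_lit 0x10caad6ee688e009)) e e)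
 (c z e
 (c (a (nat_lit 0x45b904247fe6)) e
 (c (a (nat_lit 0xc152925fbbf26)) e
 (c z e
 (c z e
 (c (a (nat_lit 0x9096a913ceb88)) e
 (c (a (nat_lit 0x90e31bc0a0008)) e e)))))))))
 (c (a (nat_lit 0x1dff4e6a8a87))
 (c (a (nat_lit 0x410aa0a4a7427))
 (c (a (nat_lit 0xc7433cb46e00008)) e
 (c (a (nat_lit 0xbb0ac0000000008)) e e))
 (c (b (nat_lit 0x1ff48100674788)) e
 (c (a (nat_lit 0x489e5696bfe88)) e
 (c z e
 (c z e
 (c z e
 (c (a (nat_lit 0x81217598e4729)) e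
 (c (a (nat_lit 0x10753969c00009)) e e))))))))
 (c (a (nat_lit 0x1ec020202026))
 (c (a (nat_lit 0x14c127e9896c68)) e
 (c z e
 (c z e
 (c z e
 (c z e
 (c (a (nat_lit 0xfbbb691e9e009)) e
 (c (a (nat_lit 0x164fe9c0000009)) e e)))))))
 (c (a (nat_lit 0x2040205624))
 (c (a (nat_lit 0x23e203584b07)) e
 (c (a (nat_lit 0x23244f05f628)) e
 (c z e
 (c z e
 (c (a (nat_lit 0x151a7168800008)) e
 (c (a (nat_lit 0x108bc000000008)) e e))))))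
 (c (a (nat_lit 0x56565b69805))
 (c (a (nat_lit 0x62918466e368)) e
 (c z e
 (c z e
 (c (a (nat_lit 0x1166e460000008)) e e))))
 (c (b (nat_lit 0x589bffb62c5)) e
 (c z e
 (c (a (nat_lit 0x8b4bb1413c5)) e
 (c (a (nat_lit 0x14fddaba9806)) e
 (c (a (nat_lit 0x16d9b9ba5d27)) e
 (c (a (nat_lit 0xced18dcb6c7)) e
 (c (b (nat_lit 0x1599fffe3)) e
 (c (a (nat_lit 0x1b5e57155565)) e
 (c (a (nat_lit 0xb1e3852501)) e
 (c (a (nat_lit 0xd8141a18121)) e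
 (c (a (nat_lit 0xe0600001)) e
 (c (nat_lit 1) e e)))))))))))))))))
 (c (nat_lit 1)
 (c (a (nat_lit 0x114020202026))
 (c (a (nat_lit 0x202049f89225))
 (c z e
 (c (a (nat_lit 0x1651200000000007)) e e))
 (c (a (nat_lit 0x2085afad36a7)) e
 (c (a (nat_lit 0x2c319058d7c7)) e
 (c z e
 (c (a (nat_lit 0x7ab2efd51c2e8)) e
 (c z e
 (c (a (nat_lit 0x46d9aa4a28007)) e
 (c (a (nat_lit 0x216a400000007)) e e))))))))
 (c (a (nat_lit 0x40404052e4))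
 (c (a (nat_lit 0x20e6c72873c9)) e
 (c z e
 (c z e
 (c z e
 (c z e
 (c (a (nat_lit 0x114a6241800009)) e
 (c (a (nat_lit 0x16216000000008)) e e)))))))
 (c (a (nat_lit 0x666667155a5))
 (c z e
 (c z e
 (c z e
 (c z e
 (c (a (nat_lit 0x148d4360000008)) e
 (c (a (nat_lit 0x19600000000007)) e e))))))
 (c (a (nat_lit 0x9e9ead3cb06)) e
 (c (a (nat_lit 0x147638961467))
 (c (a (nat_lit 0x1502ea68246008)) e e)
 (c z e
 (c (a (nat_lit 0x147c3c2ea806)) e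
 (c (a (nat_lit 0xf510a654667)) e
 (c (a (nat_lit 0x108e4b0c3bc7)) e
 (c (a (nat_lit 0x583eaf292e8)) e
 (c z e
 (c (b (nat_lit 0x1ffffb403c45)) e
 (c (a (nat_lit 0x31d602e4e46)) e
 (c (a (nat_lit 0x1e63c0204005)) e
 (c (a (nat_lit 0x1be020000002)) e e)))))))))))))))
 (c (nat_lit 1)
 (c (a (nat_lit 0xa0b0119267))
 (c z e
 (c z e
 (c z e
 (c z e
 (c z e
 (c (a (nat_lit 0x1a849220000006)) e e))))))
 (c (a (nat_lit 0x11d1b21c7286)) e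
 (c z e
 (c z e
 (c z e
 (c (a (nat_lit 0x13b0b0908066)) e
 (c (a (nat_lit 0x198ad8d88505)) e
 (c (a (nat_lit 0x8484861f127)) e
 (c z e
 (c z e
 (c (b (nat_lit 0xb21fe18183)) e
 (c (b (nat_lit 0x1ff080202028)) e
 (c (a (nat_lit 0x106020200008)) e
 (c (nat_lit 1) e e))))))))))))))
 (c (a (nat_lit 0x40404041))
 (c (a (nat_lit 0x12951e754344))
 (c (a (nat_lit 0x2ea110561a406)) e
 (c (a (nat_lit 0x17b15c66472ae6)) e e))
 (c (a (nat_lit 0xd72af492946))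
 (c (a (nat_lit 0x5b526468a6587)) e e)
 (c z e
 (c (a (nat_lit 0x1431110a6006)) e
 (c (a (nat_lit 0x1b1394210145)) e
 (c (a (nat_lit 0x189897e98146)) e
 (c z e
 (c (a (nat_lit 0x44971b4f327)) e
 (c (a (nat_lit 0x16a5d93a79c4)) e
 (c (a (nat_lit 0x74dcdb43426)) e
 (c (a (nat_lit 0xee461a10001)) e
 (c (a (nat_lit 0x10060000001)) e e))))))))))))
 (c (a (nat_lit 0x20202021))
 (c (a (nat_lit 0x1854b373b3a5))
 (c (a (nat_lit 0x17c2e7e5622005)) e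
 (c (a (nat_lit 0x33ca80000004)) e e))
 (c (a (nat_lit 0x1590b0f10fe6))
 (c (a (nat_lit 0x5f08000000003)) e e)
 (c (a (nat_lit 0x1595d5ec4826)) e
 (c (a (nat_lit 0x18b8f8f2e8c5)) e
 (c z e
 (c z e
 (c (b (nat_lit 0xbac59bff847)) e
 (c (a (nat_lit 0xf6b65587706)) e
 (c (a (nat_lit 0x25508bcbc6)) e
 (c (b (nat_lit 0x1ff3a0a00004)) e e))))))))))
 (c (nat_lit 1)
 (c (a (nat_lit 0xdf2326c0905)) e
 (c z e
 (c (a (nat_lit 0x11cca2428066)) e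
 (c (a (nat_lit 0x120586ee0064)) e
 (c (a (nat_lit 0x165d9e308567)) e
 (c z e
 (c z e
 (c (a (nat_lit 0xeeafaf12006)) e e))))))))
 (c (a (nat_lit 0x20202021))
 (c (a (nat_lit 0x136b61002ee5)) e
 (c (a (nat_lit 0xd5373fe4505)) e
 (c (a (nat_lit 0x101176102086)) e
 (c z e
 (c (a (nat_lit 0x381854674a7)) e
 (c (a (nat_lit 0x1313cf3e4ee6)) e e))))))
 (c (a (nat_lit 0x21))
 (c (a (nat_lit 0x1393f4c6e1e4)) e
 (c (a (nat_lit 0xcabb9120844)) e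
 (c (a (nat_lit 0x121204059a6)) e
 (c (a (nat_lit 0x10040532926)) e e))))
 (c (a (nat_lit 0x2021))
 (c (a (nat_lit 0xce9c07ae4)) e
 (c (b (nat_lit 0x564c279bfe6)) e e))
 (c (a (nat_lit 0x20003f64))
 (c z e
 (c (a (nat_lit 0x611de432007)) e
 (c (a (nat_lit 0x1d8ac0000005)) e e)))
 (c (a (nat_lit 0x171944))
 (c (a (nat_lit 0x9c034000007)) e
 (c (a (nat_lit 0x4000000001)) e e))
 (c (a (nat_lit 0x8b0b0f0e7)) e
 (c (a (nat_lit 0x1e5edef146)) e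
 (c (a (nat_lit 0x14d4e02025)) e
 (c (a (nat_lit 0x14e0202005)) e
 (c (a (nat_lit 0x80402001)) e
 (c (a (nat_lit 0x202033c4)) e
 (c (a (nat_lit 0x20205245)) e
 (c (a (nat_lit 0x588484)) e
 (c (a (nat_lit 0x750666025)) e
 (c (a (nat_lit 0x1046602025)) e
 (c (a (nat_lit 0x18c0202003)) e
 (c (a (nat_lit 0x20000001)) e e)))))))))))))))))))))))) Tr.c Tr.e (nat_lit 0) C.cx C.cy
noncomputable def C148 : Tr := beta% (fun (c : Nat → Tr → Tr → Tr) (e : Tr) (z : Nat) (a b : Nat → Nat) =>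
 (c (a (nat_lit 0xe0e0e0e0e1))
 (c (a (nat_lit 0x15d5d5d5d45983))
 (c z e
 (c (a (nat_lit 0x5e5c8a8ae34bcc6))
 (c (a (nat_lit 0x380c2844101e9f249)) e
 (c (a (nat_lit 0x22a22260870b7229)) e
 (c (a (nat_lit 0x382e1e2290ad60bc9)) e e)))
 (c z e
 (c (a (nat_lit 0x4a4ad0ccceef2a7))
 (c (a (nat_lit 0x46425c49185000009)) e e)
 (c (a (nat_lit 0x9da5718fedd4e86)) e
 (c (a (nat_lit 0x8ecedd1f12b4bc7)) e
 (c (a (nat_lit 0xc4d2c70a9a76447)) e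
 (c (a (nat_lit 0xae98c98a8056a67)) e
 (c (a (nat_lit 0x96f7649e8ea0be7)) e
 (c (a (nat_lit 0x159bec87b30b6006)) e
 (c (a (nat_lit 0x1f896344a0000006)) e e)))))))))))
 (c (a (nat_lit 0x197979779a8405))
 (c (a (nat_lit 0x5062628ee1a7e67))
 (c (a (nat_lit 0xc1a140e0e4caf0aa)) e e)
 (c z e
 (c z e
 (c z e
 (c z e
 (c z e
 (c (a (nat_lit 0xa2dfe47a522c5a8)) e
 (c (a (nat_lit 0x1033484546aa4128)) e
 (c (a (nat_lit 0x1a2ac61294e00007)) e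
 (c (a (nat_lit 0x16a346a000000006)) e e))))))))))
 (c (b (nat_lit 0x1377dfffffffe4)) e
 (c (a (nat_lit 0x1f51363163e565))
 (c (a (nat_lit 0xe0df1138fcd69a8)) e
 (c (a (nat_lit 0xfb45675f2909069)) e
 (c z e
 (c (a (nat_lit 0x180fa70a2ca96428)) e
 (c (a (nat_lit 0x19024668a2824348)) e e)))))
 (c (a (nat_lit 0x165ad9190a0005))
 (c (a (nat_lit 0x11d0cd71ae0df108)) e e)
 (c z e
 (c (a (nat_lit 0x140c0be5402f25))
 (c (a (nat_lit 0x60b70aa2ca72007)) e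
 (c (a (nat_lit 0x1d9ffb7220000006)) e e))
 (c (a (nat_lit 0x2040405a37a4)) e
 (c (a (nat_lit 0x805157571504)) e
 (c (a (nat_lit 0x72b4a8df6a5)) e
 (c (a (nat_lit 0x23a3c46ff425)) e
 (c (a (nat_lit 0xf31f1f9757246)) e
 (c z e
 (c (b (nat_lit 0x1ff09cfee04104)) e
 (c (a (nat_lit 0xf1090ceca6007)) e e)))))))))))))))
 (c (a (nat_lit 0x20002001))
 (c (a (nat_lit 0x1e9e993d6c0006))
 (c (a (nat_lit 0x5c606a88ef17428))
 (c (a (nat_lit 0x2c3a362446eb505c9)) e e)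
 (c z e
 (c z e
 (c z e
 (c z e
 (c z e
 (c z e
 (c (a (nat_lit 0xed082452d80a008)) e
 (c (a (nat_lit 0xec4241140000008)) e e)))))))))
 (c z e
 (c z e
 (c z e
 (c z e
 (c (a (nat_lit 0x948d60215d9a6))
 (c (a (nat_lit 0x110f4c2ea8200008)) e e)
 (c z e
 (c (a (nat_lit 0x5314667044665)) e
 (c (a (nat_lit 0xd23246f4a5bc5)) e
 (c (a (nat_lit 0x2a30344a99127)) e
 (c (a (nat_lit 0xc8d4f32b37008)) e e)))))))))))
 (c (a (nat_lit 0x200030c7))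
 (c z e
 (c z e
 (c z e
 (c z e
 (c z e
 (c z e
 (c (b (nat_lit 0x2125d6f7bfe5)) e
 (c (a (nat_lit 0x126b0d124c7)) e e))))))))
 (c (a (nat_lit 0x20203430c7))
 (c (a (nat_lit 0x16292a724f4005))
 (c (a (nat_lit 0xf2fd0ebabc80948)) e
 (c (a (nat_lit 0x11f0cdcca9c889ca)) e
 (c z e
 (c (a (nat_lit 0x1a39ee2fbb902008)) e
 (c (a (nat_lit 0x1106abe920000008)) e e)))))
 (c (a (nat_lit 0xe6c2ab09eae26))
 (c (a (nat_lit 0x102d8c6c69898d0a)) e e)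
 (c z e
 (c (a (nat_lit 0x6e88eac233447)) e
 (c (a (nat_lit 0xc50ef72ce6b26)) e
 (c z e
 (c z e
 (c (b (nat_lit 0x1ff58c4cc4a626)) e
 (c (b (nat_lit 0x12cd4aeb7fffe7)) e
 (c z e
 (c (a (nat_lit 0x9910a7c800007)) e
 (c (a (nat_lit 0x10a8c000000008)) e e))))))))))))
 (c (a (nat_lit 0x16178b0d0c7))
 (c (b (nat_lit 0x3e2c5bff38027))
 (c (a (nat_lit 0x9c9b1ea88ae0b48)) e e)
 (c z e
 (c z e
 (c z e
 (c z e
 (c z e
 (c (a (nat_lit 0x11cab311b550e7)) e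
 (c z e
 (c z e
 (c (a (nat_lit 0xa8ad4a0000008)) e e))))))))))
 (c (a (nat_lit 0x2ff0302407))
 (c z e
 (c z e
 (c z e
 (c z e
 (c (b (nat_lit 0x283ff3872806)) e e)))))
 (c (a (nat_lit 0x115191a6e6c7))
 (c (a (nat_lit 0x117493b213be86)) e
 (c (a (nat_lit 0x2e5c7c70a5067)) e
 (c z e
 (c z e
 (c (a (nat_lit 0x92653d5f4e5c7)) e e)))))
 (c (a (nat_lit 0xdb141212126))
 (c (a (nat_lit 0x24a36166f9a7)) e
 (c z e
 (c z e
 (c (b (nat_lit 0x1fe87ced6261a8)) e e))))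
 (c (a (nat_lit 0x18e020202005))
 (c (a (nat_lit 0xa263d18ba2e8)) e
 (c z e
 (c (a (nat_lit 0x5338a6520e009)) e
 (c (a (nat_lit 0x1279c620000008)) e e))))
 (c (a (nat_lit 0x2020203404))
 (c (a (nat_lit 0xbff54c5220287)) e
 (c (a (nat_lit 0x10c94422200009)) e
 (c (a (nat_lit 0x14452000000008)) e e)))
 (c (a (nat_lit 0x282828c9485))
 (c (a (nat_lit 0x1704a0e0000007)) e
 (c (a (nat_lit 0x11a00000000006)) e e))
 (c (a (nat_lit 0xbcbce52cd87)) e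
 (c z e
 (c (a (nat_lit 0x91236703725)) e
 (c (a (nat_lit 0x1a9733553346)) e
 (c (a (nat_lit 0x126a8a8ac725)) e
 (c (a (nat_lit 0xa0a0405304)) e
 (c (a (nat_lit 0x804052ef64)) e
 (c (a (nat_lit 0x1521450b0c4)) e
 (c (a (nat_lit 0xb41a1c18001)) e
 (c (a (nat_lit 0x60000001)) e e)))))))))))))))))))))) Tr.c Tr.e (nat_lit 0) C.cx C.cy
noncomputable def C149 : Tr := beta% (fun (c : Nat → Tr → Tr → Tr) (e : Tr) (z : Nat) (a b : Nat → Nat) =>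
 (c (a (nat_lit 0x202021))
 (c (a (nat_lit 0x60404061)) C148
 (c (a (nat_lit 0x20202021))
 (c (a (nat_lit 0x2020203047))
 (c (a (nat_lit 0x1dd112d1622905))
 (c (a (nat_lit 0x88889ae12f42f67)) e
 (c z e
 (c z e
 (c (a (nat_lit 0x1377773236b11049)) e
 (c (a (nat_lit 0x15d8b55370d09369)) e
 (c z e
 (c z e
 (c (a (nat_lit 0x1207673029200008)) e
 (c (a (nat_lit 0xd29d52000000007)) e e)))))))))
 (c z e
 (c z e
 (c (b (nat_lit 0x13979fea290007))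
 (c (a (nat_lit 0x12f7169574b52ca9)) e e)
 (c (a (nat_lit 0xc0cd007442908)) e
 (c (a (nat_lit 0xd9858733eabe6)) e
 (c z e
 (c (a (nat_lit 0x146466a7c7a925)) e
 (c (a (nat_lit 0x9eb50ec906a06)) e
 (c (a (nat_lit 0x584c70a3163e7)) e
 (c (a (nat_lit 0x1493fa7e9fe4c7)) e e)))))))))))
 (c (a (nat_lit 0x2020321048)) e
 (c (a (nat_lit 0x304dac09)) e
 (c (a (nat_lit 0x79f7b984ba8))
 (c (a (nat_lit 0x4e3657e66988))
 (c (a (nat_lit 0xb6f704e68472549)) e e)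
 (c z e
 (c z e
 (c z e
 (c (a (nat_lit 0x72768cdec52c9)) e
 (c z e
 (c z e
 (c (a (nat_lit 0x1554fcd80dcc89)) e e))))))))
 (c (a (nat_lit 0x18b8f5a86868))
 (c z e
 (c z e
 (c z e
 (c z e
 (c z e
 (c z e
 (c (a (nat_lit 0xd1b7c136ee009)) e e)))))))
 (c (a (nat_lit 0x1d7d60202006))
 (c (b (nat_lit 0x1ffff3644e6025)) e e)
 (c (a (nat_lit 0x1d8020202006)) e
 (c (a (nat_lit 0x40402032c5))
 (c (b (nat_lit 0x672bffb022367)) e
 (c z e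
 (c (a (nat_lit 0x915285a00008)) e
 (c (a (nat_lit 0x1c514000000007)) e e))))
 (c (a (nat_lit 0x202032b485))
 (c (a (nat_lit 0x2c104726c008)) e
 (c (a (nat_lit 0xd75a460000008)) e
 (c (a (nat_lit 0x13000000000008)) e e)))
 (c (a (nat_lit 0xe0e0e330947))
 (c (a (nat_lit 0x19868000000007)) e e)
 (c (a (nat_lit 0x12351635b2c8)) e
 (c z e
 (c z e
 (c z e
 (c (a (nat_lit 0x74c44e2d5e5)) e
 (c (a (nat_lit 0x631202b0a26)) e
 (c (a (nat_lit 0x12544c2b4b66)) e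
 (c (a (nat_lit 0x120020202025)) e
 (c (a (nat_lit 0x1c2400001)) e
 (c (a (nat_lit 0x2000000001)) e e))))))))))))))))))))
 (c (a (nat_lit 0x20202021))
 (c (a (nat_lit 0x2039fa0d47)) e
 (c (a (nat_lit 0x3abad467c8)) e
 (c (a (nat_lit 0x1edf13a02007)) e
 (c (a (nat_lit 0x1e3ac0202026)) e
 (c (a (nat_lit 0x19e020202026)) e
 (c (a (nat_lit 0x2020203005)) e
 (c (a (nat_lit 0x20204b7026)) e
 (c (a (nat_lit 0xa4dadbd31c7)) e
 (c z e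
 (c z e
 (c z e
 (c z e
 (c z e
 (c z e
 (c z e
 (c (b (nat_lit 0x1fffe1a140a1)) e
 (c (b (nat_lit 0x1fe1a220a001)) e
 (c (a (nat_lit 0xa100000001)) e e))))))))))))))))))
 C147)))
 (c (a (nat_lit 0x202021))
 (c (nat_lit 1)
 (c (a (nat_lit 0x1c1c1d6d6a5))
 (c (a (nat_lit 0x17f5b4f4f41625))
 (c z e
 (c z e
 (c z e
 (c (a (nat_lit 0x1874ea14d0d08f27)) e
 (c (a (nat_lit 0x1b144ef29377f787)) e
 (c (a (nat_lit 0xd094a86ca6dd167)) e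
 (c (a (nat_lit 0xe110e5052aaa007)) e e)))))))
 (c z e
 (c z e
 (c (a (nat_lit 0x11b3a884a06346))
 (c (a (nat_lit 0x14d373500f068728)) e
 (c (a (nat_lit 0x15f2543174448508)) e e))
 (c (a (nat_lit 0x126e29ca7c9d45))
 (c (a (nat_lit 0x1298555ea5444007)) e e)
 (c (b (nat_lit 0x421833cbfe964))
 (c (a (nat_lit 0xf7b27c000000006)) e e)
 (c (a (nat_lit 0xecf6ff0ca8fc6)) e
 (c (a (nat_lit 0x11f2b256323165)) e
 (c (a (nat_lit 0x9ce4eaa84d226)) e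
 (c (a (nat_lit 0x9284889ec3526)) e
 (c (a (nat_lit 0x7c884b1e04306)) e e)))))))))))
 (c (a (nat_lit 0x6070ef28a8)) e
 (c (a (nat_lit 0x310d29e348)) e
 (c (a (nat_lit 0x1b3b148a4a47))
 (c (a (nat_lit 0x50e7162004ae7))
 (c (a (nat_lit 0x123d6e246d87e007)) e e)
 (c z e
 (c z e
 (c (a (nat_lit 0x62027727d9f87)) e
 (c (a (nat_lit 0x260666bf2abc8)) e
 (c z e
 (c (a (nat_lit 0x16b8980f287148)) e
 (c (a (nat_lit 0xc4b7027254009)) e e))))))))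
 (c (a (nat_lit 0x131305454546))
 (c z e
 (c z e
 (c (a (nat_lit 0x4a7eed7db8007)) e
 (c (a (nat_lit 0x1a4e9f3e94a28)) e
 (c z e
 (c (a (nat_lit 0xe576ab1d1ad08)) e
 (c (a (nat_lit 0x10f5a065400008)) e e)))))))
 (c (a (nat_lit 0x1a8020202025))
 (c (a (nat_lit 0x2063e07966)) e
 (c (b (nat_lit 0x165adce1ff106)) e
 (c z e
 (c z e
 (c (a (nat_lit 0x78290c4040008)) e
 (c (a (nat_lit 0x1382e2e0000008)) e e))))))
 (c (a (nat_lit 0x2020203184))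
 (c z e
 (c (a (nat_lit 0x69572e86042a7)) e e))
 (c (a (nat_lit 0x9c9c9db2e04))
 (c (a (nat_lit 0x1a228f848b67e7)) e
 (c z e
 (c (a (nat_lit 0x18848dc0000006)) e
 (c (a (nat_lit 0xc00000000001)) e e))))
 (c (a (nat_lit 0x1a7a7a9cb6c5))
 (c (a (nat_lit 0x1e7cd80cc00005)) e
 (c (a (nat_lit 0x1eba0000000005)) e e))
 (c (a (nat_lit 0x14123393cea6))
 (c (a (nat_lit 0x10200000000005)) e e)
 (c (a (nat_lit 0x197530b0adc5)) e
 (c (a (nat_lit 0xceab957fd86)) e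
 (c (a (nat_lit 0x871f0d0cde7)) e
 (c (a (nat_lit 0x1734948ef1e6)) e
 (c (a (nat_lit 0x1bf120317164)) e
 (c (a (nat_lit 0x60806001)) e
 (c (a (nat_lit 0x20606001)) e
 (c (a (nat_lit 0x181a1a0a001)) e
 (c (a (nat_lit 0x24120000001)) e e)))))))))))))))))))
 (c (a (nat_lit 0x20202021))
 (c (a (nat_lit 0x250504845a8)) e
 (c (a (nat_lit 0x18b8af4482a8)) e
 (c (a (nat_lit 0x1bf860202026))
 (c (a (nat_lit 0x99102a105f0e8))
 (c (a (nat_lit 0x1bb18269c8200008)) e e)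
 (c z e
 (c z e
 (c z e
 (c z e
 (c z e
 (c (a (nat_lit 0xcdf1b7510a5c8)) e
 (c (a (nat_lit 0xef6b188600009)) e e))))))))
 (c (a (nat_lit 0x17e020202006))
 (c z e
 (c z e
 (c z e
 (c z e
 (c z e
 (c (a (nat_lit 0x13912fad06e009)) e
 (c (a (nat_lit 0x14294640000009)) e e)))))))
 (c (a (nat_lit 0x2020203a64))
 (c (a (nat_lit 0x264e02300d5a7)) e
 (c z e
 (c z e
 (c z e
 (c (a (nat_lit 0xa902723400009)) e e)))))
 (c (a (nat_lit 0x2020981346)) e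
 (c (a (nat_lit 0x1295f5f66e87)) e
 (c z e
 (c (a (nat_lit 0x1f1b00a040e6)) e
 (c (a (nat_lit 0x480d5b6d5c6)) e
 (c z e
 (c z e
 (c (b (nat_lit 0x1521dfecab65)) e
 (c z e
 (c (b (nat_lit 0x1ff434943405)) e
 (c (a (nat_lit 0x3e1618001)) e
 (c (a (nat_lit 0x5a2a1600001)) e
 (c (a (nat_lit 0x18000000001)) e e))))))))))))))))))
 C146))
 (c (a (nat_lit 0x202021)) C145
 (c (a (nat_lit 0x404041)) C144
 C143))))) Tr.c Tr.e (nat_lit 0) C.cx C.cy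
noncomputable def C150 : Tr := beta% (fun (c : Nat → Tr → Tr → Tr) (e : Tr) (z : Nat) (a b : Nat → Nat) =>
 (c (a (nat_lit 0x20202021))
 (c (a (nat_lit 0x10d027676767))
 (c (a (nat_lit 0x3e2c042edf085))
 (c z e
 (c (a (nat_lit 0x11f72ee000000008)) e e))
 (c (a (nat_lit 0x481c0266b1247))
 (c (a (nat_lit 0x1708200000000009)) e e)
 (c (a (nat_lit 0xa022e2a55168)) e
 (c (a (nat_lit 0x2182a9f032e8)) e
 (c z e
 (c z e
 (c (a (nat_lit 0x107bb61c2ce8c7)) e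
 (c (a (nat_lit 0x1b307786800007)) e
 (c (a (nat_lit 0x10718000000007)) e e)))))))))
 (c (a (nat_lit 0x112020202027))
 (c (a (nat_lit 0x21e54a5268)) e
 (c (a (nat_lit 0x22c3060e7709)) e
 (c z e
 (c z e
 (c z e
 (c (a (nat_lit 0xb1352ca25c009)) e
 (c (a (nat_lit 0x115104e0000009)) e e)))))))
 (c (a (nat_lit 0x60604035a4))
 (c (a (nat_lit 0xa203e6049848)) e
 (c (a (nat_lit 0x6c2ff81c5188)) e
 (c z e
 (c z e
 (c (a (nat_lit 0x5dce103200008)) e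
 (c (a (nat_lit 0x1a80a000000007)) e e))))))
 (c (b (nat_lit 0xa33fffe1))
 (c (a (nat_lit 0xbae126aab67c8)) e
 (c z e
 (c z e
 (c (a (nat_lit 0x541d800000004)) e
 (c (a (nat_lit 0x16800000000004)) e e)))))
 (c (a (nat_lit 0x10124c6c66c5)) e
 (c z e
 (c (a (nat_lit 0x1c1dfe5c5b84)) e
 (c (a (nat_lit 0x1b3b9b618003)) e
 (c (a (nat_lit 0x812158a3)) e
 (c (a (nat_lit 0x60980dc3)) e
 (c (b (nat_lit 0x25bff165)) e
 (c (a (nat_lit 0x4294515d1c5)) e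
 (c (b (nat_lit 0x3bffeb4b204)) e
 (c (a (nat_lit 0x12b389898984)) e
 (c (a (nat_lit 0x1f6040600002)) e
 (c (a (nat_lit 0x2000000001)) e e))))))))))))))))
 (c (nat_lit 1)
 (c (a (nat_lit 0x40404050a4))
 (c (a (nat_lit 0x2022c7a890a7)) e
 (c (a (nat_lit 0xe80d3767c7)) e
 (c (b (nat_lit 0x46bae57bfe528)) e
 (c z e
 (c z e
 (c (a (nat_lit 0x112fe6a7000008)) e
 (c (a (nat_lit 0x10404000000007)) e e)))))))
 (c (a (nat_lit 0x2020320505))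
 (c (a (nat_lit 0x18d56babb92e6)) e
 (c z e
 (c z e
 (c z e
 (c (a (nat_lit 0x15c04060000008)) e e)))))
 (c (a (nat_lit 0x111216362146)) e
 (c z e
 (c z e
 (c (a (nat_lit 0x1d3cbc9be064)) e
 (c (a (nat_lit 0x766e8c2c6e1)) e
 (c (b (nat_lit 0x2036ffe5)) e
 (c (a (nat_lit 0xb6b6b851127)) e
 (c (a (nat_lit 0x60c054d206)) e
 (c (a (nat_lit 0x8337d32b26)) e
 (c (b (nat_lit 0x1ff1ebc3c2c6)) e
 (c (a (nat_lit 0x1e9040402005)) e
 (c (a (nat_lit 0x102020000005)) e e))))))))))))))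
 (c (a (nat_lit 0x20404041))
 (c (a (nat_lit 0x1a5b1b7e65a5))
 (c (a (nat_lit 0x56648b0602307)) e
 (c (a (nat_lit 0xcd11a228166c7)) e e))
 (c (a (nat_lit 0x5312c8aea86))
 (c (a (nat_lit 0x1a6d86c1412e87)) e e)
 (c z e
 (c (a (nat_lit 0xffcdcbc6664)) e
 (c (a (nat_lit 0x1c1b9b6043a4)) e
 (c (a (nat_lit 0x36224d2c5a2)) e
 (c (a (nat_lit 0x1414352b0d86)) e
 (c (a (nat_lit 0xad2b4782005)) e
 (c (a (nat_lit 0x5e3fa2e44)) e
 (c (a (nat_lit 0xb4bd7ac6b65)) e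
 (c (a (nat_lit 0x1744a28284)) e
 (c (a (nat_lit 0x1481c0200004)) e
 (c (a (nat_lit 0xe2000000001)) e e)))))))))))))
 (c (a (nat_lit 0x40404041))
 (c (a (nat_lit 0x10eecfaf8fa6))
 (c (a (nat_lit 0xb7561226c63e6)) e
 (c (a (nat_lit 0x1b63a52da00006)) e e))
 (c (a (nat_lit 0x99919191906))
 (c (a (nat_lit 0x237360000004)) e e)
 (c (a (nat_lit 0x18b87963a2a4)) e
 (c (a (nat_lit 0x52645c40001)) e
 (c (a (nat_lit 0x1bbbbb766f46)) e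
 (c (b (nat_lit 0xaacf574ffe7)) e
 (c (a (nat_lit 0x1252b26503e7)) e
 (c (a (nat_lit 0x1c7503cc17c5)) e
 (c (a (nat_lit 0x110a92b77985)) e
 (c (b (nat_lit 0x1fff05620004)) e
 (c (a (nat_lit 0x122180000004)) e e)))))))))))
 (c (a (nat_lit 0x20202021))
 (c (a (nat_lit 0x1e9e9eff5f04)) e
 (c (a (nat_lit 0x17b81837f285)) e
 (c (a (nat_lit 0x12f312afad45)) e
 (c (a (nat_lit 0x1edb1b9d43a6)) e
 (c z e
 (c z e
 (c (a (nat_lit 0x9c8e460f386)) e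
 (c z e
 (c (b (nat_lit 0x1fe379e00004)) e e)))))))))
 (c (a (nat_lit 0x202021))
 (c (a (nat_lit 0x11b1b163e0e5)) e
 (c (a (nat_lit 0x19f0e9aa6066)) e
 (c (a (nat_lit 0x161a1ca464a6)) e
 (c z e
 (c (a (nat_lit 0xee4244851a5)) e
 (c (a (nat_lit 0x123210948905)) e e))))))
 (c (a (nat_lit 0x20202001))
 (c (a (nat_lit 0xf7edf0da9e4)) e
 (c (a (nat_lit 0xb3d3d0efa44)) e
 (c (a (nat_lit 0x4a42040b0e5)) e
 (c (a (nat_lit 0x3e020546a25)) e e))))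
 (c (a (nat_lit 0x20204041))
 (c (a (nat_lit 0xa782e55b243)) e
 (c (a (nat_lit 0x1a141a11087)) e
 (c (a (nat_lit 0x608096b8c8)) e
 (c z e
 (c (a (nat_lit 0xebaa0000006)) e e)))))
 (c (a (nat_lit 0x20202041))
 (c (a (nat_lit 0x20c0a0bae7)) e
 (c (a (nat_lit 0xe0c0f688c7)) e
 (c (b (nat_lit 0x1fe697000007)) e
 (c (nat_lit 1) e e))))
 (c (a (nat_lit 0x202036a3))
 (c (a (nat_lit 0x889b1e02006)) e
 (c (a (nat_lit 0x2100000001)) e e))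
 (c (a (nat_lit 0x20339825))
 (c (a (nat_lit 0x2000000001)) e e)
 (c (a (nat_lit 0x4aff22ea6)) e
 (c (a (nat_lit 0x181c356025)) e
 (c (a (nat_lit 0x1914402005)) e
 (c (a (nat_lit 0x1440202025)) e
 (c (a (nat_lit 0x80404081)) e
 (c (a (nat_lit 0x20203ce4)) e
 (c (a (nat_lit 0x81b9c1)) e
 (c (a (nat_lit 0x2022001)) e
 (c (a (nat_lit 0x1a60202024)) e
 (c (a (nat_lit 0x414180c1)) e
 (c (a (nat_lit 0x400001)) e e))))))))))))))))))))))) Tr.c Tr.e (nat_lit 0) C.cx C.cy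
noncomputable def C151 : Tr := beta% (fun (c : Nat → Tr → Tr → Tr) (e : Tr) (z : Nat) (a b : Nat → Nat) =>
 (c (nat_lit 1)
 (c (a (nat_lit 0x20002001))
 (c (a (nat_lit 0x15e02020202005))
 (c (a (nat_lit 0x202243626a11a6))
 (c z e
 (c (a (nat_lit 0x164babc70c0bb11748)) e e))
 (c (a (nat_lit 0x1a343a608f048))
 (c (a (nat_lit 0x625e1e4438467716a)) e
 (c (a (nat_lit 0x502e5c545a46e366a)) e e))
 (c z e
 (c z e
 (c z e
 (c z e
 (c z e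
 (c z e
 (c z e
 (c (a (nat_lit 0x7ecf8c6e428e628)) e
 (c (a (nat_lit 0x147febe266000007)) e
 (c (a (nat_lit 0xab4a04000000007)) e e))))))))))))
 (c (a (nat_lit 0x17d7b7b7b572e5))
 (c (a (nat_lit 0x2e1c26585a97389))
 (c (a (nat_lit 0x441a261e26385726b)) e e)
 (c z e
 (c z e
 (c z e
 (c z e
 (c z e
 (c z e
 (c z e
 (c (a (nat_lit 0x1c3584468d4b6008)) e
 (c (a (nat_lit 0x1bf883cac0000007)) e
 (c (a (nat_lit 0x1360600000000008)) e e)))))))))))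
 (c (a (nat_lit 0x1bbbbf7b5c22a6)) e
 (c (b (nat_lit 0x1b1c74599fef26))
 (c z e
 (c z e
 (c z e
 (c (a (nat_lit 0xc5a2a46ea27e109)) e e))))
 (c z e
 (c z e
 (c z e
 (c (a (nat_lit 0x1024c64660b1e5)) e
 (c (a (nat_lit 0x50545413966e4)) e
 (c (a (nat_lit 0x4846d2de05c45)) e
 (c (a (nat_lit 0x466462430ca46)) e
 (c (a (nat_lit 0xf5433b152d2a7)) e e))))))))))))
 (c (a (nat_lit 0x40202001))
 (c (a (nat_lit 0x1030306f2d00e7))
 (c (a (nat_lit 0x4454a08edf79f88))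
 (c (a (nat_lit 0x4a4c4a6a6a65c9109)) e
 (c (a (nat_lit 0x8a648630816ee72ca)) e e))
 (c z e
 (c z e
 (c z e
 (c z e
 (c z e
 (c z e
 (c z e
 (c (a (nat_lit 0x1f987835db400007)) e
 (c (a (nat_lit 0x1742a4a000000008)) e e))))))))))
 (c z e
 (c z e
 (c z e
 (c z e
 (c z e
 (c z e
 (c z e
 (c (a (nat_lit 0xfb16544cc0427)) e
 (c (a (nat_lit 0x1f276bd5e8d406)) e
 (c (a (nat_lit 0xc2eb250704e48)) e e)))))))))))
 (c (a (nat_lit 0x20400001)) e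
 (c (a (nat_lit 0x20202031c8))
 (c (a (nat_lit 0x66528e2a73e26))
 (c z e
 (c (a (nat_lit 0x1ad9bc58710e09ca)) e e))
 (c (a (nat_lit 0xece44c375b2c7))
 (c (a (nat_lit 0x19dd395353ae2e0a)) e e)
 (c z e
 (c z e
 (c z e
 (c z e
 (c z e
 (c (a (nat_lit 0x1a940050da2066)) e
 (c (a (nat_lit 0xe838a4191a027)) e
 (c z e
 (c z e
 (c (a (nat_lit 0x181cb100000008)) e e))))))))))))
 (c (a (nat_lit 0x202033ae88))
 (c (a (nat_lit 0x926c02595f867))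
 (c (a (nat_lit 0x112c8b102a6c6ca9)) e e)
 (c z e
 (c z e
 (c z e
 (c z e
 (c z e
 (c (b (nat_lit 0xca4821648dfe7)) e
 (c (b (nat_lit 0x52026da1fe747)) e e))))))))
 (c (a (nat_lit 0x20332fcee8)) e
 (c (a (nat_lit 0x3879d80327)) e
 (c (a (nat_lit 0xf5193802007)) e
 (c (a (nat_lit 0x1b9920202026)) e
 (c (a (nat_lit 0x18e020202026))
 (c (a (nat_lit 0x124b284812469)) e
 (c (a (nat_lit 0x93c0c8644a009)) e
 (c (a (nat_lit 0x192d8200000009)) e e)))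
 (c (a (nat_lit 0x20202038c5))
 (c (a (nat_lit 0xcb322a2a00008)) e
 (c (a (nat_lit 0x18404000000008)) e e))
 (c (a (nat_lit 0x202038d445)) e
 (c (a (nat_lit 0x20ecf60d26)) e
 (c z e
 (c z e
 (c z e
 (c (a (nat_lit 0x14c082e30024)) e
 (c (a (nat_lit 0x421c2436001)) e
 (c z e
 (c (a (nat_lit 0x193968404004)) e
 (c (a (nat_lit 0x1984e0200004)) e
 (c (a (nat_lit 0x12e000000002)) e e))))))))))))))))))))))
 (c (a (nat_lit 0x404021))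
 (c (a (nat_lit 0x40404021))
 (c (a (nat_lit 0x15b5f3324cc706))
 (c (a (nat_lit 0x7ebab0d2cd5b607))
 (c z e
 (c (a (nat_lit 0x9eda6a9ac285f9208)) e e))
 (c z e
 (c z e
 (c z e
 (c z e
 (c z e
 (c z e
 (c z e
 (c (a (nat_lit 0x1037d18e00000007)) e
 (c (a (nat_lit 0x11c9000000000006)) e e))))))))))
 (c z e
 (c z e
 (c z e
 (c z e
 (c z e
 (c z e
 (c z e
 (c (a (nat_lit 0x1162c3ed0b6a86)) e
 (c (a (nat_lit 0x177d97a9165)) e
 (c (a (nat_lit 0x10bb9517a673e6)) e e)))))))))))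
 (c (a (nat_lit 0x2020203148)) e
 (c (a (nat_lit 0x20314e08)) e
 (c (a (nat_lit 0x203818b468)) e
 (c (a (nat_lit 0x38b510e368)) e
 (c (a (nat_lit 0xfb02c402008)) e
 (c (a (nat_lit 0x18bd80202006)) e
 (c (a (nat_lit 0x164020202006)) e
 (c (a (nat_lit 0x2020203745))
 (c z e
 (c (b (nat_lit 0x1ff83767200008)) e
 (c (a (nat_lit 0x11cc0000000008)) e e)))
 (c (a (nat_lit 0x1818198c545))
 (c (a (nat_lit 0x14e2e1a0000008)) e
 (c (a (nat_lit 0x1c200000000001)) e e))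
 (c (a (nat_lit 0x6875111af46)) e
 (c z e
 (c z e
 (c z e
 (c z e
 (c (a (nat_lit 0x96113cd2003)) e
 (c z e
 (c (a (nat_lit 0xc1141a18186)) e
 (c (a (nat_lit 0x1f6040202005)) e
 (c (a (nat_lit 0x2e0a0000001)) e e))))))))))))))))))))
 (c (a (nat_lit 0x20404041))
 (c (a (nat_lit 0x20203adbe6))
 (c z e
 (c z e
 (c z e
 (c z e
 (c z e
 (c z e
 (c (b (nat_lit 0x11490890dfffe6)) e
 (c (b (nat_lit 0x146fbf7fffffe4)) e
 (c z e
 (c z e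
 (c z e
 (c z e
 (c (a (nat_lit 0x13598000000005)) e e)))))))))))))
 (c (a (nat_lit 0x203cfd9648)) e
 (c z e
 (c (a (nat_lit 0x1474eea1e168)) e
 (c (a (nat_lit 0x10cde1002007)) e
 (c (a (nat_lit 0x1a2020202006)) e
 (c (a (nat_lit 0x202034a5)) e
 (c (a (nat_lit 0x2054c985)) e
 (c z e
 (c z e
 (c z e
 (c z e
 (c z e
 (c z e
 (c z e
 (c z e
 (c (a (nat_lit 0x14ee0c488886)) e
 (c (a (nat_lit 0x160040200004)) e
 (c (a (nat_lit 0x6000000001)) e e)))))))))))))))))))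
 (c (a (nat_lit 0x20202021))
 (c (a (nat_lit 0x31050900748))
 (c (a (nat_lit 0xa7154b42b26c7))
 (c (a (nat_lit 0x10728be7c0418c47)) e
 (c (a (nat_lit 0x14cac8c1620d6fe8)) e e))
 (c (b (nat_lit 0x1ab6fff1ec8bc7))
 (c (a (nat_lit 0x11f0a6d2f3ee8728)) e e)
 (c z e
 (c (b (nat_lit 0xf6e3ffb466ae6)) e
 (c z e
 (c z e
 (c z e
 (c (a (nat_lit 0xace900f6bf868)) e e))))))))
 (c (a (nat_lit 0x1f1f9eee2c48))
 (c (a (nat_lit 0x1f7894d9eecf66))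
 (c (a (nat_lit 0xf45f4cecd832008)) e
 (c (a (nat_lit 0x18cc8f8ac0000009)) e e))
 (c (a (nat_lit 0xb4d33ae45cfa7))
 (c (a (nat_lit 0x6d54a4000000009)) e e)
 (c (b (nat_lit 0x31fe7a34374c8)) e
 (c z e
 (c z e
 (c z e
 (c (a (nat_lit 0xceed22d33ad69)) e
 (c (a (nat_lit 0x11562f11684009)) e
 (c (b (nat_lit 0x10ffeae0000009)) e e)))))))))
 (c (a (nat_lit 0x1a5a89a5c5c7))
 (c (a (nat_lit 0xf147a4c99787)) e
 (c z e
 (c z e
 (c z e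
 (c z e
 (c (b (nat_lit 0x31ffff449a469)) e
 (c (a (nat_lit 0x13eb3dee200008)) e e)))))))
 (c (a (nat_lit 0x1e0020202006))
 (c (a (nat_lit 0x5a0a30364f2c8)) e
 (c z e
 (c z e
 (c z e
 (c (a (nat_lit 0x4cdfa65a68008)) e
 (c (a (nat_lit 0x1bab0920000007)) e e))))))
 (c (a (nat_lit 0x40202031a5))
 (c (a (nat_lit 0x1e70850c4a848)) e
 (c (b (nat_lit 0x689983fe7a5e9)) e e))
 (c (b (nat_lit 0x343851ff7c2)) e
 (c (b (nat_lit 0x263ff4b465)) e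
 (c (a (nat_lit 0xf9333937227)) e
 (c (a (nat_lit 0x10f4d3d3d066)) e
 (c (a (nat_lit 0xff393939327)) e
 (c (a (nat_lit 0x2020b0e7)) e
 (c (a (nat_lit 0x2020b02f67)) e
 (c z e
 (c (a (nat_lit 0x100e154403c5)) e
 (c (a (nat_lit 0xa91e0402705)) e
 (c (a (nat_lit 0x18e747270005)) e
 (c (a (nat_lit 0x34040000001)) e e)))))))))))))))))
 C150))))) Tr.c Tr.e (nat_lit 0) C.cx C.cy
noncomputable def C152 : Tr := beta% (fun (c : Nat → Tr → Tr → Tr) (e : Tr) (z : Nat) (a b : Nat → Nat) =>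
 (c (nat_lit 1)
 (c (a (nat_lit 0x129160c0202026))
 (c (a (nat_lit 0x40202244019866))
 (c z e
 (c (a (nat_lit 0x1473eaace88cebb0e9))
 (c (a (nat_lit 0x156b66e6c3400000000b)) e e)
 (c z e
 (c (a (nat_lit 0x686c8099075d216e8)) e e))))
 (c (a (nat_lit 0x4223a1606df028))
 (c (a (nat_lit 0x1c12b308ce65ac3dc9)) e e)
 (c z e
 (c z e
 (c z e
 (c z e
 (c z e
 (c z e
 (c (a (nat_lit 0x7ca86a65487c609)) e
 (c (a (nat_lit 0xa47687705280ae9)) e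
 (c (a (nat_lit 0x709f4aee724c008)) e
 (c (a (nat_lit 0xdb45ae3a0000008)) e e))))))))))))
 (c (a (nat_lit 0x1e602020202006))
 (c (a (nat_lit 0x1e2c0e1a625b369))
 (c (a (nat_lit 0x108c45a660e64f5289)) e e)
 (c z e
 (c z e
 (c z e
 (c z e
 (c z e
 (c z e
 (c z e
 (c z e
 (c (a (nat_lit 0x110afae527000008)) e
 (c (a (nat_lit 0xc51c04000000009)) e e)))))))))))
 (c (b (nat_lit 0x12080c13fffe1)) e
 (c (b (nat_lit 0x17575affeba005)) e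
 (c (b (nat_lit 0x1b1cbfffffe2a5)) e
 (c z e
 (c z e
 (c z e
 (c (a (nat_lit 0x1e6588a88183e4)) e
 (c (a (nat_lit 0x199919302ec005)) e
 (c (a (nat_lit 0xfcff070407a05)) e
 (c (a (nat_lit 0x1b39d614955a46)) e
 (c z e
 (c z e
 (c z e
 (c z e
 (c (a (nat_lit 0x15168b40000007)) e e)))))))))))))))))
 (c (a (nat_lit 0x40202001))
 (c (a (nat_lit 0x189898989703c4))
 (c (a (nat_lit 0x440416946df9187))
 (c (a (nat_lit 0x4e4628243e52872e8)) e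
 (c z e
 (c (a (nat_lit 0x2a0460344b56746e8)) e e)))
 (c z e
 (c z e
 (c z e
 (c z e
 (c z e
 (c z e
 (c z e
 (c z e
 (c (a (nat_lit 0x1c5d684260000007)) e
 (c (a (nat_lit 0x1163400000000008)) e e)))))))))))
 (c (a (nat_lit 0x1b1b1f3c7389e6)) e
 (c (b (nat_lit 0x169a95cfaedfe6)) e
 (c z e
 (c z e
 (c z e
 (c z e
 (c z e
 (c z e
 (c (a (nat_lit 0x117425862da8e6)) e
 (c (a (nat_lit 0x9252584a2b248)) e e)))))))))))
 (c (a (nat_lit 0x2040402021)) e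
 (c (a (nat_lit 0x2020202021))
 (c (a (nat_lit 0x19fa6e4c4c71e5))
 (c z e
 (c (a (nat_lit 0x141c9318954a69c9)) e e))
 (c (a (nat_lit 0x6416120e1d167))
 (c (a (nat_lit 0x1f175ef9d190aa49)) e
 (c (a (nat_lit 0x15bf39f0698f854a)) e e))
 (c (a (nat_lit 0x802021d0cf47)) e
 (c z e
 (c z e
 (c z e
 (c z e
 (c (a (nat_lit 0x6b1cb428a90c6)) e
 (c (a (nat_lit 0xa680303a09187)) e
 (c (b (nat_lit 0x1c16120dff888)) e
 (c z e
 (c (a (nat_lit 0x105051cca00008)) e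
 (c (a (nat_lit 0x118a6000000007)) e e)))))))))))))
 (c (a (nat_lit 0x2020203307))
 (c (a (nat_lit 0x22060805302c4))
 (c (a (nat_lit 0x10b730efd0688ec8)) e
 (c (a (nat_lit 0x16d1efad702d6f8a)) e e))
 (c (b (nat_lit 0x40607e5fffe4)) e
 (c z e
 (c z e
 (c z e
 (c z e
 (c (a (nat_lit 0x8aa634330e086)) e
 (c (a (nat_lit 0x400e02048f088)) e
 (c (a (nat_lit 0x52283421cca28)) e
 (c z e
 (c (a (nat_lit 0x1ad93580000007)) e e)))))))))))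
 (c (a (nat_lit 0x202032cbc7))
 (c (b (nat_lit 0x6060e2909fe6))
 (c (a (nat_lit 0x1527cccf5808a007)) e
 (c (a (nat_lit 0x7acd36aa0000008)) e e))
 (c (a (nat_lit 0x84f101f16a006))
 (c (a (nat_lit 0xcda074000000007)) e e)
 (c (b (nat_lit 0xe909fbffff306)) e
 (c z e
 (c z e
 (c (a (nat_lit 0x9a44378bb0046)) e
 (c (a (nat_lit 0x32102702c9d88)) e
 (c z e
 (c (a (nat_lit 0xc8ed072400009)) e e)))))))))
 (c (a (nat_lit 0x3cfa76c6))
 (c (a (nat_lit 0x1837bcdfb19565)) e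
 (c (b (nat_lit 0x1a52b3ffea71e5)) e
 (c z e
 (c z e
 (c (b (nat_lit 0x180a51fe354e7)) e
 (c (b (nat_lit 0x806905b23fe8)) e
 (c (a (nat_lit 0x42217ede2a008)) e
 (c (a (nat_lit 0x609f620000008)) e
 (c (a (nat_lit 0x18e00000000004)) e e)))))))))
 (c (a (nat_lit 0x33759162a6))
 (c (a (nat_lit 0x7e56dea2a5266)) e
 (c z e
 (c z e
 (c z e
 (c (a (nat_lit 0x848952a4c029)) e
 (c z e
 (c (a (nat_lit 0xf764000000008)) e e)))))))
 (c (a (nat_lit 0x1154f1a200c6))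
 (c (b (nat_lit 0x3fe55fe611a7)) e e)
 (c (a (nat_lit 0x110ea220c0c6))
 (c z e
 (c (a (nat_lit 0x4ec7d33d52688)) e
 (c (a (nat_lit 0xbaf5228600009)) e e)))
 (c (a (nat_lit 0x19c020202005))
 (c (a (nat_lit 0x6ca96c7420008)) e
 (c (a (nat_lit 0xb972560000009)) e e))
 (c (a (nat_lit 0x2020203d84))
 (c (a (nat_lit 0x1f056000000008)) e e)
 (c (a (nat_lit 0x20203d8404)) e
 (c (a (nat_lit 0x1595f9191c07)) e
 (c (a (nat_lit 0x12fbcf39d165)) e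
 (c z e
 (c (a (nat_lit 0x1bd02847a1a3)) e
 (c (a (nat_lit 0x1f61c10081c1)) e
 (c (a (nat_lit 0xc081e001)) e
 (c (a (nat_lit 0x18b99999e142)) e
 (c (a (nat_lit 0x17f86be02002)) e
 (c (a (nat_lit 0x120640000003)) e e))))))))))))))))))))))) Tr.c Tr.e (nat_lit 0) C.cx C.cy
noncomputable def C153 : Tr := beta% (fun (c : Nat → Tr → Tr → Tr) (e : Tr) (z : Nat) (a b : Nat → Nat) =>
 (c (nat_lit 1)
 (c (a (nat_lit 0x1676764a8a87))
 (c (a (nat_lit 0x15284607053365))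
 (c z e
 (c (a (nat_lit 0x1cdbda3080000007)) e
 (c (a (nat_lit 0x17e8400000000008)) e e)))
 (c (a (nat_lit 0xc6362e3d175c6))
 (c (a (nat_lit 0xf32c64000000009)) e e)
 (c (a (nat_lit 0x8e3418feb5fc6)) e
 (c (a (nat_lit 0x6002666971da7)) e
 (c (a (nat_lit 0xa100a20591e9)) e
 (c z e
 (c (a (nat_lit 0xb8d0f8d50eb48)) e
 (c (a (nat_lit 0x14f691fba8a007)) e
 (c (a (nat_lit 0x138c48e0000008)) e e)))))))))
 (c (a (nat_lit 0x1cfced6d6d67))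
 (c (a (nat_lit 0x40c064aa5267))
 (c (a (nat_lit 0x1385000000000009)) e e)
 (c (a (nat_lit 0x1a0234426f2c9)) e
 (c (a (nat_lit 0x20256b74b6c9)) e
 (c (a (nat_lit 0x184058b756c0a)) e
 (c z e
 (c (a (nat_lit 0x9d1b336d00869)) e
 (c (a (nat_lit 0xeb07407000009)) e
 (c (a (nat_lit 0x18ed2000000009)) e e))))))))
 (c (a (nat_lit 0x1d0040202026))
 (c (a (nat_lit 0x434289b19ca7)) e
 (c (b (nat_lit 0x1fffe54290a268)) e
 (c z e
 (c z e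
 (c (a (nat_lit 0x28f112481e008)) e
 (c (a (nat_lit 0x17b2a440000006)) e e))))))
 (c (a (nat_lit 0x2c221618001))
 (c (a (nat_lit 0x9706d1da7adc8)) e
 (c (a (nat_lit 0x8a93ed3a7c7a9)) e
 (c z e
 (c (a (nat_lit 0x4338201400008)) e
 (c (a (nat_lit 0x1b80c000000007)) e e)))))
 (c (a (nat_lit 0x52512d265e4))
 (c (a (nat_lit 0x556ea84e60829)) e
 (c z e
 (c (a (nat_lit 0x198e1140000005)) e
 (c (a (nat_lit 0x9000000000001)) e e))))
 (c (b (nat_lit 0x18185fffe044)) e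
 (c (a (nat_lit 0x182686860004)) e
 (c (a (nat_lit 0x1bfc5d022083)) e
 (c (a (nat_lit 0x2244343e1)) e
 (c (a (nat_lit 0x140c1036001)) e
 (c (a (nat_lit 0x161416057a4)) e
 (c (a (nat_lit 0x262a058dee4)) e
 (c (a (nat_lit 0x2af15468e4)) e
 (c (a (nat_lit 0x197f971777a4)) e
 (c (a (nat_lit 0x11604121a002)) e
 (c (a (nat_lit 0x80000001)) e e))))))))))))))))
 (c (nat_lit 1)
 (c (a (nat_lit 0x1e0020202025))
 (c (a (nat_lit 0x16020264bb386)) e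
 (c (a (nat_lit 0x2243852a7688)) e
 (c (a (nat_lit 0x276b0a71abc8)) e
 (c (a (nat_lit 0x74ad1bb136a69)) e
 (c z e
 (c (a (nat_lit 0xcf3766dc78008)) e
 (c (a (nat_lit 0x127485e0000008)) e
 (c (a (nat_lit 0x1da00000000007)) e e))))))))
 (c (a (nat_lit 0x181c140e261))
 (c (a (nat_lit 0x2042c03468)) e
 (c (a (nat_lit 0x549ebd1a90b89)) e
 (c z e
 (c z e
 (c (a (nat_lit 0xc11a362200008)) e
 (c (a (nat_lit 0x19254000000007)) e e))))))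
 (c (a (nat_lit 0xbebec1205a5))
 (c (a (nat_lit 0x9cb71272a07a9)) e
 (c (a (nat_lit 0xd3833a5e9b409)) e
 (c z e
 (c (a (nat_lit 0x10e1a280000008)) e e))))
 (c (a (nat_lit 0x131312725247))
 (c (a (nat_lit 0x1c6ec1afb1e5e8)) e e)
 (c z e
 (c (a (nat_lit 0x1343c3a1e024)) e
 (c (a (nat_lit 0x98a2a858121)) e
 (c (a (nat_lit 0x12223c601)) e
 (c (a (nat_lit 0x123665ae1)) e
 (c (a (nat_lit 0x1e2805ede64)) e
 (c (a (nat_lit 0x1c321a361)) e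
 (c (a (nat_lit 0x123312f33384)) e
 (c (a (nat_lit 0x4630548e6a1)) e
 (c (a (nat_lit 0x61400001)) e
 (c (nat_lit 1) e e)))))))))))))))
 (c (a (nat_lit 0x40404041))
 (c (a (nat_lit 0x4040990022))
 (c (a (nat_lit 0x6e64864523ae6)) e
 (c (a (nat_lit 0x15f2aef357af26)) e
 (c z e
 (c (a (nat_lit 0x1a72fc81c18006)) e
 (c (a (nat_lit 0x180b4460000006)) e
 (c (a (nat_lit 0x14200000000005)) e e))))))
 (c (a (nat_lit 0x14292b9a424))
 (c (a (nat_lit 0x10d66ee207d007)) e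
 (c z e
 (c (a (nat_lit 0x102c8447200007)) e e)))
 (c z e
 (c (a (nat_lit 0xc8ed3330e44)) e
 (c (a (nat_lit 0x134def036001)) e
 (c (a (nat_lit 0x1a120c115a3)) e
 (c (a (nat_lit 0x5176e085)) e
 (c (a (nat_lit 0xd6d904a2066)) e
 (c (a (nat_lit 0x8990b05523)) e
 (c (a (nat_lit 0xd0dac5e83)) e
 (c (a (nat_lit 0x1508fea2a64)) e
 (c (a (nat_lit 0x1a5921814002)) e
 (c (a (nat_lit 0x1821a0000002)) e e)))))))))))))
 (c (a (nat_lit 0x80808081))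
 (c (a (nat_lit 0x11fa9d9d5ce5))
 (c (a (nat_lit 0x1ba760e06c4d86)) e
 (c (a (nat_lit 0x1cedc178148006)) e
 (c (a (nat_lit 0x10302e20000006)) e e)))
 (c (a (nat_lit 0xcbdfd9cfd06))
 (c (a (nat_lit 0xc791b1ca00005)) e
 (c (a (nat_lit 0x1d1ce000000002)) e e))
 (c (a (nat_lit 0x1b1b9a9abaa6)) e
 (c (a (nat_lit 0x6a6c641a121)) e
 (c (a (nat_lit 0x13f41413d206)) e
 (c (b (nat_lit 0xf2f77317fe7)) e
 (c (a (nat_lit 0x10af4fc6a2c7)) e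
 (c (a (nat_lit 0x1a32a8c8b485)) e
 (c (a (nat_lit 0x106726d47205)) e
 (c (a (nat_lit 0x1ae0f55312c5)) e
 (c (a (nat_lit 0x1b0b81800003)) e
 (c (a (nat_lit 0x144000000002)) e e))))))))))))
 (c (a (nat_lit 0x20202021))
 (c (a (nat_lit 0x1efefdbdbde5))
 (c (a (nat_lit 0x9205f60000003)) e e)
 (c (a (nat_lit 0x2e1a405e6a1)) e
 (c (a (nat_lit 0xa0a3f4a1e3)) e
 (c (a (nat_lit 0x1b7b7b984606)) e
 (c (a (nat_lit 0x1059d9aa66e7)) e
 (c z e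
 (c (a (nat_lit 0x102968612a06)) e
 (c (a (nat_lit 0xc67e7e8f146)) e
 (c (b (nat_lit 0x1fe05110e005)) e
 (c (a (nat_lit 0x13a060000003)) e e))))))))))
 (c (a (nat_lit 0x200001))
 (c (a (nat_lit 0x1bfc1c1be3e3)) e
 (c (a (nat_lit 0x18b8789321e5)) e
 (c (a (nat_lit 0x1cdc1bf16046)) e
 (c z e
 (c (a (nat_lit 0x10f2e22107e5)) e
 (c (a (nat_lit 0x112868439266)) e
 (c (a (nat_lit 0x2023926ae6)) e
 (c (b (nat_lit 0x1fe05e000004)) e e))))))))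
 (c (a (nat_lit 0x60606061))
 (c (a (nat_lit 0x1f35940d90e5)) e
 (c (a (nat_lit 0x96b0ad0f106)) e
 (c (a (nat_lit 0x39110686865)) e
 (c (a (nat_lit 0xa696100fe44)) e
 (c (a (nat_lit 0x4a0608f7065)) e
 (c (a (nat_lit 0x10b05eb0a004)) e
 (c (a (nat_lit 0x3c80000003)) e e)))))))
 (c (a (nat_lit 0x2021))
 (c (a (nat_lit 0x52d252d423)) e
 (c (a (nat_lit 0x11b872c3e1c3)) e
 (c (a (nat_lit 0x8020405d06)) e
 (c (a (nat_lit 0x203d8726)) e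
 (c (a (nat_lit 0x36600006)) e
 (c (a (nat_lit 0x4000000001)) e e))))))
 (c (a (nat_lit 0x60608081))
 (c (a (nat_lit 0xe162a08001)) e
 (c (a (nat_lit 0x68906e32801)) e
 (c (a (nat_lit 0x6051202004)) e
 (c (a (nat_lit 0x6040000001)) e e))))
 (c (nat_lit 1)
 (c (a (nat_lit 0x58807803026)) e
 (c (a (nat_lit 0x40e0a00001)) e
 (c (a (nat_lit 0x2000000001)) e e)))
 (c (a (nat_lit 0x20203164))
 (c (a (nat_lit 0x4020000001)) e e)
 (c (a (nat_lit 0x20309064)) e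
 (c (a (nat_lit 0x70b0ea44)) e
 (c (a (nat_lit 0x105089c024)) e
 (c (a (nat_lit 0x106fa02004)) e
 (c (a (nat_lit 0x1fe0202003)) e
 (c (a (nat_lit 0x120e08021)) e
 (c (a (nat_lit 0xc0605921)) e
 (c (a (nat_lit 0x282a0e2e1)) e
 (c (a (nat_lit 0xc0808121)) e
 (c (a (nat_lit 0xa061)) e
 (c (a (nat_lit 0x604001)) e
 (c (a (nat_lit 0x20000001)) e e)))))))))))))))))))))))) Tr.c Tr.e (nat_lit 0) C.cx C.cy
noncomputable def C154 : Tr := beta% (fun (c : Nat → Tr → Tr → Tr) (e : Tr) (z : Nat) (a b : Nat → Nat) =>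
 (c (a (nat_lit 0x20202021))
 (c (a (nat_lit 0x2020202021))
 (c (a (nat_lit 0x1ffffffcb9e964))
 (c (a (nat_lit 0x2c1c5e5e5e71027)) e
 (c z e
 (c z e
 (c (a (nat_lit 0xc0b907855cdb309)) e
 (c z e
 (c z e
 (c (a (nat_lit 0x12f17ab392cc4a48)) e
 (c (a (nat_lit 0x19a179f0484ba807)) e
 (c z e
 (c (a (nat_lit 0x17a2214000000007)) e e))))))))))
 (c z e
 (c z e
 (c z e
 (c z e
 (c z e
 (c (a (nat_lit 0xe136fc9a9a285)) e
 (c (a (nat_lit 0x1a4bae05c63585)) e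
 (c z e
 (c (a (nat_lit 0x2c6e6f28e68c6)) e
 (c (a (nat_lit 0x13f09c518ca5a6)) e
 (c z e
 (c z e
 (c (a (nat_lit 0x12f2b41a8de007)) e
 (c (a (nat_lit 0x1152cca0000007)) e e)))))))))))))))
 (c (a (nat_lit 0x4040404041))
 (c z e
 (c z e
 (c z e
 (c z e
 (c z e
 (c z e
 (c z e
 (c z e
 (c (a (nat_lit 0x12cff7ad6ceee7)) e
 (c (a (nat_lit 0x12bf19782fc787)) e
 (c z e
 (c z e
 (c (a (nat_lit 0x11f34fcb600008)) e e)))))))))))))
 (c (a (nat_lit 0x38c7))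
 (c z e
 (c z e
 (c z e
 (c z e
 (c z e
 (c z e
 (c z e
 (c (a (nat_lit 0x1328a80f90c907)) e e))))))))
 (c (a (nat_lit 0x20203918e7))
 (c (a (nat_lit 0x1093e16504cb87))
 (c (a (nat_lit 0x151372e8f4b48a08)) e e)
 (c z e
 (c z e
 (c z e
 (c z e
 (c z e
 (c (a (nat_lit 0x6a321c92e50a8)) e
 (c (a (nat_lit 0x2a185da07a728)) e e))))))))
 (c (a (nat_lit 0x203534d128)) e
 (c z e
 (c (a (nat_lit 0x11932f802007))
 (c (a (nat_lit 0x11230c370ff446)) e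
 (c (a (nat_lit 0x344d4391acf67)) e
 (c z e
 (c z e
 (c (a (nat_lit 0x8b45cb483e008)) e e)))))
 (c (a (nat_lit 0x11d1a0202006))
 (c (a (nat_lit 0x4478acd06b288)) e
 (c z e
 (c (b (nat_lit 0x1fe95ff6c80208)) e
 (c (b (nat_lit 0x161ff442a00008)) e e))))
 (c (a (nat_lit 0x116020202006))
 (c (a (nat_lit 0xcc394f27e408)) e
 (c (a (nat_lit 0x1274fc4fc54008)) e
 (c (a (nat_lit 0x152a0440000009)) e e)))
 (c (a (nat_lit 0x20203ca4))
 (c (b (nat_lit 0x1ff84682600008)) e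
 (c (a (nat_lit 0x11a42000000008)) e e))
 (c (a (nat_lit 0x20202ed2a5))
 (c (a (nat_lit 0x3200000000001)) e e)
 (c (a (nat_lit 0xe0e10f332c8)) e
 (c z e
 (c (a (nat_lit 0x1cd272925346)) e
 (c (a (nat_lit 0x6240910002)) e
 (c (a (nat_lit 0x5c0a220c421)) e
 (c (a (nat_lit 0x14f53435e003)) e
 (c (a (nat_lit 0x19054fa16003)) e
 (c (a (nat_lit 0x14d773f32945)) e
 (c (a (nat_lit 0x1834aa000005)) e
 (c (a (nat_lit 0x154000000004)) e e)))))))))))))))))))))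
 (c (a (nat_lit 0x20202021))
 (c (a (nat_lit 0x20202038c6))
 (c (a (nat_lit 0x10a8c96969c005))
 (c (a (nat_lit 0x306e72655e36527)) e
 (c (a (nat_lit 0xc0f8e7069c6ea48)) e
 (c (a (nat_lit 0x131259e9c86d0028)) e
 (c z e
 (c z e
 (c z e
 (c (a (nat_lit 0xa79b15380000006)) e
 (c (a (nat_lit 0x1055000000000006)) e e))))))))
 (c z e
 (c z e
 (c z e
 (c z e
 (c z e
 (c (b (nat_lit 0x12eba726433fe6)) e
 (c (a (nat_lit 0x552a48021e1c6)) e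
 (c (a (nat_lit 0x16cba9ccdbcfe6)) e
 (c (a (nat_lit 0x10723211b46007)) e
 (c z e
 (c (a (nat_lit 0x1016995675c008)) e
 (c (a (nat_lit 0xed08740000007)) e e)))))))))))))
 (c (a (nat_lit 0x2038b887))
 (c z e
 (c z e
 (c z e
 (c z e
 (c z e
 (c (a (nat_lit 0x124df150e730a7)) e
 (c (a (nat_lit 0x6c8a68c4f55a7)) e e)))))))
 (c (a (nat_lit 0x2035958ec8)) e
 (c (a (nat_lit 0x37373044e8)) e
 (c (a (nat_lit 0x10d0cb226268)) e
 (c (a (nat_lit 0x11d580202006))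
 (c (a (nat_lit 0x285b829e4c946)) e
 (c (a (nat_lit 0xc54f2d3b3be48)) e e))
 (c (a (nat_lit 0x1c0020202005))
 (c (a (nat_lit 0x7c8ea8d1a2288)) e
 (c (a (nat_lit 0x3653397eaa129)) e
 (c (a (nat_lit 0xc7db933292008)) e
 (c (a (nat_lit 0xad62480000009)) e e))))
 (c (a (nat_lit 0x2020203104))
 (c (a (nat_lit 0x7312be902e3a9)) e
 (c (a (nat_lit 0x150ba9e4c00009)) e
 (c (a (nat_lit 0x13680000000009)) e e)))
 (c (a (nat_lit 0x10303139b925))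
 (c (a (nat_lit 0x1dedc7e0000007)) e
 (c (a (nat_lit 0x1c600000000006)) e e))
 (c (a (nat_lit 0x9f23b1b73e7)) e
 (c z e
 (c (a (nat_lit 0x17b5b6161627)) e
 (c (a (nat_lit 0x2020d405)) e
 (c (a (nat_lit 0x20d40005)) e
 (c (a (nat_lit 0xa8c52aa8004)) e
 (c (a (nat_lit 0x13070ce56004)) e
 (c (a (nat_lit 0x14a5e180e002)) e
 (c (a (nat_lit 0x8638180c001)) e
 (c (a (nat_lit 0x6a060000001)) e e)))))))))))))))))))
 (c (a (nat_lit 0x20202001))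
 (c (a (nat_lit 0x3435f1f1e87))
 (c z e
 (c z e
 (c z e
 (c z e
 (c (a (nat_lit 0xd880692c360c6)) e
 (c z e
 (c (a (nat_lit 0x708aa8bf5f927)) e e)))))))
 (c (a (nat_lit 0x55050500869))
 (c (a (nat_lit 0x11b48e0ed08bc7))
 (c (a (nat_lit 0x8e64b950fc46188)) e
 (c (a (nat_lit 0xf931a9387c00009)) e
 (c (a (nat_lit 0x1abcee2000000009)) e e)))
 (c (a (nat_lit 0xd124ff111f128))
 (c (a (nat_lit 0xe9110858000000a)) e e)
 (c (a (nat_lit 0x87cf59cb9faa7)) e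
 (c (a (nat_lit 0x84a4623c3bba8)) e
 (c z e
 (c z e
 (c (a (nat_lit 0xc72d6f9109b48)) e
 (c (a (nat_lit 0xa71aeeced6429)) e
 (c (a (nat_lit 0x18f4e78b800009)) e e)))))))))
 (c (a (nat_lit 0x1bdbdbaaa8c8))
 (c (a (nat_lit 0xce8f470c74c47))
 (c (a (nat_lit 0x1f3fc9c000000008)) e e)
 (c (a (nat_lit 0x3c848c3c8b1e8)) e
 (c (a (nat_lit 0x8096327567be8)) e
 (c z e
 (c z e
 (c z e
 (c (a (nat_lit 0xbcdb231e74009)) e
 (c (a (nat_lit 0x10cbec40000009)) e e))))))))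
 (c (a (nat_lit 0x10b223e02007))
 (c (a (nat_lit 0x30a265885be6)) e
 (c (b (nat_lit 0x25fffe101fa49)) e
 (c z e
 (c z e
 (c (a (nat_lit 0x3087b16278488)) e
 (c (a (nat_lit 0x1178c25c00008)) e e))))))
 (c (a (nat_lit 0x19a020202026))
 (c (a (nat_lit 0x208260d5c509)) e
 (c (a (nat_lit 0x26504398ae58a)) e
 (c z e
 (c (a (nat_lit 0x36304540a009)) e
 (c (a (nat_lit 0x1107c38000000a)) e e)))))
 (c (a (nat_lit 0x20207183))
 (c (a (nat_lit 0x4041c4ec3e049)) e e)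
 (c (b (nat_lit 0x141c4dfe5e1)) e
 (c (a (nat_lit 0x163852925206)) e
 (c (a (nat_lit 0x10d9b99996e7)) e
 (c (a (nat_lit 0x123696141267)) e
 (c (a (nat_lit 0x141313131326)) e
 (c (a (nat_lit 0x2040f7c3)) e
 (c (a (nat_lit 0x4061585803)) e
 (c (a (nat_lit 0x60a6cc70c4)) e
 (c (a (nat_lit 0x85306ce4)) e
 (c (a (nat_lit 0xe63cfcfce3)) e
 (c (a (nat_lit 0x1560600003)) e
 (c (a (nat_lit 0x2000000001)) e e))))))))))))))))))
 C153)))) Tr.c Tr.e (nat_lit 0) C.cx C.cy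
noncomputable def C155 : Tr := beta% (fun (c : Nat → Tr → Tr → Tr) (e : Tr) (z : Nat) (a b : Nat → Nat) =>
 (c (a (nat_lit 0x20000001))
 (c (a (nat_lit 0x16174b7f5e786))
 (c (a (nat_lit 0xaea34ee0827e3e5))
 (c z e
 (c z e
 (c z e
 (c z e
 (c z e
 (c (a (nat_lit 0xdea2b91145aafad68)) e
 (c z e
 (c z e
 (c (a (nat_lit 0x19f40df4716b484007)) e e)))))))))
 (c z e
 (c z e
 (c z e
 (c (a (nat_lit 0x20222d2b9f3c47))
 (c (a (nat_lit 0xb5ab6cd286af8b9a8)) e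
 (c z e
 (c z e
 (c z e
 (c (a (nat_lit 0x19baf7000000000008)) e e)))))
 (c (a (nat_lit 0x204547306fad48))
 (c (a (nat_lit 0x10a9a907eaeb3caa0a)) e e)
 (c (a (nat_lit 0x2225e929c6b108))
 (c z e
 (c (a (nat_lit 0xdd589000000000008)) e e))
 (c (a (nat_lit 0xaec5017cfb2d427)) e
 (c (a (nat_lit 0xaee32b38faf2aa7)) e
 (c z e
 (c z e
 (c z e
 (c (a (nat_lit 0x2c1e323b8f26329)) e
 (c (a (nat_lit 0x5e34b790b400009)) e
 (c (a (nat_lit 0x3025a6000000008)) e e)))))))))))))))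
 (c (a (nat_lit 0x10f115085a548)) e
 (c (a (nat_lit 0x10509022c26268)) e
 (c (a (nat_lit 0x1c2a6340202026))
 (c z e
 (c z e
 (c z e
 (c z e
 (c (a (nat_lit 0x1e421e64241fcc9)) e e)))))
 (c (a (nat_lit 0x13204020404205))
 (c z e
 (c (a (nat_lit 0xe070546476a308a))
 (c (a (nat_lit 0x86c3326a00000000c)) e e)
 (c z e
 (c (a (nat_lit 0x405260344d205aa)) e
 (c (a (nat_lit 0x3c38323f56402ea)) e
 (c z e
 (c z e
 (c (a (nat_lit 0x2b1de05a1600009)) e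
 (c (a (nat_lit 0xcf363000000000a)) e e)))))))))
 (c (a (nat_lit 0xa8a8a8aaf9806))
 (c (a (nat_lit 0xbeb2b0beb74da29))
 (c (a (nat_lit 0xa714380000000000b)) e e)
 (c (a (nat_lit 0x7474827697011ab)) e
 (c (a (nat_lit 0x407224a1ed7fc89)) e
 (c (b (nat_lit 0x20e43187087fea)) e
 (c z e
 (c z e
 (c (a (nat_lit 0xc5089e06000000a)) e
 (c (a (nat_lit 0x1cc9e0000000000a)) e e))))))))
 (c (a (nat_lit 0xaeb0b6dd4c027))
 (c (a (nat_lit 0xcedcd0b7b188fe9)) e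
 (c z e
 (c z e
 (c z e
 (c z e
 (c (a (nat_lit 0x132420600000000a)) e e))))))
 (c (a (nat_lit 0xdae2f59cda987))
 (c (a (nat_lit 0x1a2700cc7a502a9)) e
 (c (a (nat_lit 0x83cb5ae27256a69)) e e))
 (c z e
 (c z e
 (c (a (nat_lit 0x1064e444402027)) e
 (c (a (nat_lit 0x10ee8e408101e5)) e
 (c (a (nat_lit 0x1ede7e3ebe7f25)) e
 (c (a (nat_lit 0x1adadfda578007)) e
 (c (a (nat_lit 0x4c5b1110ecc69)) e
 (c (a (nat_lit 0xcebce50ec8ce7)) e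
 (c z e
 (c (a (nat_lit 0x13d8f031486006)) e
 (c (a (nat_lit 0x195088e0000006)) e
 (c (a (nat_lit 0x1e600000000004)) e e))))))))))))))))))))
 (c (a (nat_lit 0x20000001))
 (c (a (nat_lit 0x13d45580202027))
 (c (a (nat_lit 0x7e262a280247027)) e e)
 (c (a (nat_lit 0x1b332020202027)) e
 (c (a (nat_lit 0x112020202020e7)) e
 (c (b (nat_lit 0x2014164bfe5c1)) e
 (c (a (nat_lit 0x14d4d536794747)) e
 (c (b (nat_lit 0x9eb1ff55fffe7)) e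
 (c z e
 (c z e
 (c z e
 (c (a (nat_lit 0x1ef111ac40a066)) e
 (c (a (nat_lit 0x1453734acbd7e6)) e
 (c z e
 (c z e
 (c z e
 (c z e
 (c z e
 (c (a (nat_lit 0x9d18780200007)) e
 (c (a (nat_lit 0x18e78000000007)) e e))))))))))))))))))
 (c (a (nat_lit 0x40202001))
 (c (a (nat_lit 0x10202020202086)) e
 (c (b (nat_lit 0xc4c4c4c5ff187)) e
 (c (b (nat_lit 0xeaeb23ff26047)) e
 (c z e
 (c z e
 (c z e
 (c z e
 (c z e
 (c z e
 (c z e
 (c z e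
 (c z e
 (c z e
 (c z e
 (c z e
 (c (a (nat_lit 0x3984020000008)) e e))))))))))))))))
 (c (a (nat_lit 0x2040402021))
 (c (a (nat_lit 0x16767fb99eab06)) e e)
 (c (a (nat_lit 0x2020002001))
 (c z e
 (c (a (nat_lit 0xc5184844022c7))
 (c (a (nat_lit 0x12983a3c53adeeaa)) e
 (c (a (nat_lit 0x13d6fd76cf8bcfab)) e
 (c (a (nat_lit 0x1474912bcacb87ab)) e e)))
 (c (a (nat_lit 0xdc0402022f087))
 (c (a (nat_lit 0x161fba744e5110ea)) e e)
 (c (a (nat_lit 0x20202314b447))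
 (c (a (nat_lit 0x132b46a820c62009)) e e)
 (c z e
 (c z e
 (c z e
 (c z e
 (c (a (nat_lit 0x49a6aa1626268)) e
 (c (b (nat_lit 0x1608a604e5bfe8)) e
 (c (a (nat_lit 0x3e11b7b36f2e8)) e
 (c (a (nat_lit 0x8339c4c202006)) e
 (c (a (nat_lit 0xf53a620000007)) e e)))))))))))))
 (c (a (nat_lit 0x6060404041))
 (c (a (nat_lit 0x1aa08080404ac5))
 (c (a (nat_lit 0x107074f06eec69c9)) e
 (c (a (nat_lit 0x119470aeeb0dcbab)) e
 (c (a (nat_lit 0x1cd6f37111d4b0ca)) e e)))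
 (c (a (nat_lit 0x40204045f346))
 (c (a (nat_lit 0x15b1efcb900d734b)) e e)
 (c (a (nat_lit 0x202022267788))
 (c (a (nat_lit 0x14f2b9174ba00009)) e
 (c (a (nat_lit 0x127f344000000009)) e e))
 (c z e
 (c z e
 (c z e
 (c (a (nat_lit 0x796c8c1e02848)) e
 (c (a (nat_lit 0x160803c0403668)) e
 (c (a (nat_lit 0x5048021805a88)) e
 (c (a (nat_lit 0x16257d97d7e48)) e
 (c (a (nat_lit 0x1011f40ce00008)) e e)))))))))))
 (c (a (nat_lit 0x2020203b67))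
 (c (a (nat_lit 0x2021e87cc6))
 (c z e
 (c (a (nat_lit 0xda84bd18800000a)) e e))
 (c (a (nat_lit 0x548a81293a7))
 (c (a (nat_lit 0x6e71324e0000009)) e e)
 (c (a (nat_lit 0x868ac949580a7)) e
 (c z e
 (c z e
 (c (a (nat_lit 0x169166a02e8ba7)) e
 (c (a (nat_lit 0x744a06035b048)) e
 (c (a (nat_lit 0x3c10181924ec9)) e e))))))))
 (c (a (nat_lit 0x20365067))
 (c (a (nat_lit 0xc5957f6f92dc5))
 (c (a (nat_lit 0x790648000000007)) e e)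
 (c (b (nat_lit 0x12f0f08e1fe847)) e
 (c z e
 (c z e
 (c (a (nat_lit 0xf63c6196c1706)) e
 (c (a (nat_lit 0xe0202506196a)) e
 (c (b (nat_lit 0x363826c10bfe9)) e
 (c (a (nat_lit 0x3e4129ba00009)) e
 (c (a (nat_lit 0x19b40000000006)) e e)))))))))
 (c (a (nat_lit 0x397fd966))
 (c (a (nat_lit 0xf11a8cd6df6c7)) e
 (c z e
 (c z e
 (c z e
 (c (b (nat_lit 0x1fffe3a4dccc4a)) e
 (c z e
 (c (a (nat_lit 0x76811a000000a)) e
 (c (a (nat_lit 0x15a00000000007)) e e))))))))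
 (c (a (nat_lit 0x2bd02ca147)) e
 (c (b (nat_lit 0x13543fe02006)) e
 (c (a (nat_lit 0x104040402026))
 (c (a (nat_lit 0x5a93d5688a209)) e
 (c (a (nat_lit 0x9bcbca600000a)) e e))
 (c (a (nat_lit 0x10a080604022))
 (c (a (nat_lit 0x111082a000000a)) e e)
 (c (a (nat_lit 0x2020203a45)) e
 (c (a (nat_lit 0x20377abf48)) e
 (c (a (nat_lit 0x123290bf53a7)) e
 (c z e
 (c (a (nat_lit 0x4da04c4c466)) e
 (c (a (nat_lit 0x15a060202026)) e
 (c (a (nat_lit 0x7e0812162e1)) e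
 (c (a (nat_lit 0x1216264e001)) e
 (c (a (nat_lit 0x1d1d5d796083)) e
 (c (a (nat_lit 0x1bdc40600003)) e
 (c (a (nat_lit 0x1c6000000003)) e e))))))))))))))))))))))))) Tr.c Tr.e (nat_lit 0) C.cx C.cy
noncomputable def C156 : Tr := beta% (fun (c : Nat → Tr → Tr → Tr) (e : Tr) (z : Nat) (a b : Nat → Nat) =>
 (c (a (nat_lit 0x6060606061))
 (c (a (nat_lit 0x1e1e3e3e31e003))
 (c (a (nat_lit 0xc32ecaa8b30f787))
 (c z e
 (c (a (nat_lit 0xaaac7662e548c6009)) e e))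
 (c z e
 (c z e
 (c (a (nat_lit 0x9cb6b6ed7d2cb49)) e
 (c z e
 (c z e
 (c (a (nat_lit 0x7c94a534406c108)) e
 (c z e
 (c (a (nat_lit 0x17d246a2a0000008)) e
 (c (a (nat_lit 0x1204800000000009)) e e))))))))))
 (c (a (nat_lit 0x14545d92052046)) e
 (c (b (nat_lit 0x11b5ecbfffffe6)) e
 (c z e
 (c (a (nat_lit 0x822a2a2a398e6)) e
 (c (a (nat_lit 0x61204259d526))
 (c (a (nat_lit 0x1612c9104000008)) e
 (c (a (nat_lit 0x103233c000000008)) e e))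
 (c (a (nat_lit 0x160631a95f546))
 (c (a (nat_lit 0xe7c000000000006)) e e)
 (c z e
 (c (a (nat_lit 0xf191d5cedad66)) e
 (c (a (nat_lit 0xd8ff08c898528)) e
 (c z e
 (c (a (nat_lit 0x199475ef4ec6a6)) e
 (c (a (nat_lit 0x14f6afef878786)) e
 (c (a (nat_lit 0x1d506fc0402005)) e
 (c (a (nat_lit 0x1fbe8020000004)) e e)))))))))))))))
 (c (a (nat_lit 0x6060406041))
 (c (a (nat_lit 0x1b1c72ee6d4c26)) e
 (c (a (nat_lit 0x1bb611512f2f27))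
 (c (a (nat_lit 0xa519591b629e5c9)) e
 (c (a (nat_lit 0xf9515990f0accca)) e
 (c (a (nat_lit 0xfd4b26c07cb2eaa)) e
 (c (a (nat_lit 0x13ef0b058c6dc80a)) e e))))
 (c (a (nat_lit 0x1721c0a0606485))
 (c (a (nat_lit 0x161d3fb77277b2a9)) e
 (c (a (nat_lit 0x16144feb6eeaab4a)) e e))
 (c (a (nat_lit 0xa080851405))
 (c (a (nat_lit 0x1275cc8aae8da7c8)) e
 (c (a (nat_lit 0x1e4b521dee600008)) e e))
 (c (a (nat_lit 0x6044b259c5))
 (c (a (nat_lit 0x4af560660000008)) e e)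
 (c (a (nat_lit 0x969ae3c3e3fe5)) e
 (c z e
 (c (a (nat_lit 0x1355773693ce67)) e
 (c (a (nat_lit 0xc6df2ece104a6)) e
 (c (a (nat_lit 0xd13958a62a606)) e
 (c (a (nat_lit 0xacf6313f7a004)) e
 (c (a (nat_lit 0xdabee516e8b67)) e
 (c (a (nat_lit 0x72bf266600006)) e
 (c (a (nat_lit 0x11ec8000000006)) e e))))))))))))))
 (c (a (nat_lit 0x4040404041))
 (c (a (nat_lit 0x12e0c080602024))
 (c (a (nat_lit 0x1355b59f56738727)) e
 (c (a (nat_lit 0xc6e91ae0c6848ea)) e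
 (c (a (nat_lit 0x1618136fefd67529)) e
 (c (a (nat_lit 0x14708daf91ed6009)) e
 (c (a (nat_lit 0x1272b2b280000008)) e e)))))
 (c (a (nat_lit 0x9e684e4635321))
 (c (a (nat_lit 0x14d75350cdedaf4a)) e
 (c (a (nat_lit 0x104d6a4aeaab084b)) e
 (c (a (nat_lit 0x12ef120f6c00000a)) e
 (c (a (nat_lit 0x1592ac2000000009)) e e))))
 (c (a (nat_lit 0x60402045bc65))
 (c (a (nat_lit 0x128aee1309a5a009)) e
 (c (a (nat_lit 0x9f3b7ace0000009)) e e))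
 (c (a (nat_lit 0x8060819f1905))
 (c (a (nat_lit 0x10cfe80000000009)) e e)
 (c (a (nat_lit 0x82ca52b58ac6)) e
 (c z e
 (c (a (nat_lit 0x56bd3728041e6)) e
 (c (a (nat_lit 0x13fadeac820005)) e
 (c (a (nat_lit 0x11119160422866)) e
 (c (a (nat_lit 0x424e9409a4125)) e
 (c (a (nat_lit 0xb6cce5528a007)) e
 (c (a (nat_lit 0x10b22c80000007)) e
 (c (a (nat_lit 0x16c00000000005)) e e)))))))))))))
 (c (a (nat_lit 0x6060606061))
 (c (a (nat_lit 0x202020203385))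
 (c (a (nat_lit 0x11ce8c2bed0b1009)) e
 (c (a (nat_lit 0x1e94d856154d6009)) e
 (c (a (nat_lit 0xed2d02ee0000009)) e
 (c (a (nat_lit 0x1e90200000000008)) e e))))
 (c (a (nat_lit 0x20226cb066))
 (c (a (nat_lit 0x10b7901f0a600008)) e
 (c (a (nat_lit 0x168df2a000000009)) e e))
 (c (a (nat_lit 0x2f6f36536e85))
 (c (a (nat_lit 0x1670e00000000008)) e e)
 (c (a (nat_lit 0x133a37f9f30ea6)) e
 (c z e
 (c (a (nat_lit 0x770914760d426)) e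
 (c (a (nat_lit 0x84948a0203567)) e
 (c (a (nat_lit 0xdede843c036e7)) e
 (c (a (nat_lit 0x7874040271806)) e
 (c (a (nat_lit 0x5e9cb39e00006)) e
 (c (a (nat_lit 0x1c2fe000000005)) e e)))))))))))
 (c (a (nat_lit 0x20001985))
 (c (a (nat_lit 0x6acbadcdbe64))
 (c z e
 (c (a (nat_lit 0xe70a00000000007)) e e))
 (c (a (nat_lit 0xbec2e670a9666))
 (c (a (nat_lit 0x1d60000000000006)) e e)
 (c z e
 (c z e
 (c (a (nat_lit 0x62fc6206dd406)) e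
 (c (a (nat_lit 0xe4a64e033bf07)) e
 (c (a (nat_lit 0x4c404c2495ee8)) e
 (c (a (nat_lit 0xa6e0bd072c006)) e
 (c (a (nat_lit 0x1df01d80000003)) e
 (c (a (nat_lit 0x5e00000000001)) e e))))))))))
 (c (a (nat_lit 0xa8a8a90e245))
 (c (a (nat_lit 0xe6d0ac9b291c7)) e
 (c (a (nat_lit 0xd8e660f78de47)) e
 (c z e
 (c (a (nat_lit 0x782416db94fc6)) e
 (c (a (nat_lit 0x180e14586f1e9)) e
 (c (a (nat_lit 0x1428324942b09)) e
 (c (a (nat_lit 0x15f9d33f600007)) e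
 (c (a (nat_lit 0x1b074000000006)) e e))))))))
 (c (a (nat_lit 0x1f5f4faf8584))
 (c (a (nat_lit 0x985e5f054d607)) e
 (c z e
 (c (a (nat_lit 0x22a7ec66bdc8)) e
 (c (a (nat_lit 0x1a40848d17309)) e
 (c (a (nat_lit 0x62828b4ed2009)) e
 (c z e
 (c (a (nat_lit 0x1e800000000005)) e e)))))))
 (c (a (nat_lit 0x1a2bc600b564)) e
 (c (a (nat_lit 0xa58adf4cf84))
 (c (a (nat_lit 0x6a9ecf8f88b28)) e
 (c (a (nat_lit 0x88d5d9e066009)) e
 (c (a (nat_lit 0x81209e000000a)) e e)))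
 (c (a (nat_lit 0x1e52016100c2))
 (c (a (nat_lit 0x870b0c2800009)) e
 (c (a (nat_lit 0x152b000000000a)) e e))
 (c (a (nat_lit 0x1a60e0404001))
 (c (a (nat_lit 0x1e800000000007)) e e)
 (c (a (nat_lit 0x4060405463)) e
 (c (a (nat_lit 0x20770ce2)) e
 (c (a (nat_lit 0xa8a4bf5c2)) e
 (c (a (nat_lit 0x197834b481)) e
 (c (a (nat_lit 0x185c1806001)) e
 (c (a (nat_lit 0x6c2a0e0a0c1)) e
 (c (a (nat_lit 0x3e2012261c1)) e
 (c (a (nat_lit 0x6040c12001)) e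
 (c (a (nat_lit 0x121008001)) e
 (c (a (nat_lit 0x80c0000001)) e e)))))))))))))))))))))) Tr.c Tr.e (nat_lit 0) C.cx C.cy
noncomputable def C157 : Tr := beta% (fun (c : Nat → Tr → Tr → Tr) (e : Tr) (z : Nat) (a b : Nat → Nat) =>
 (c (a (nat_lit 0x2020202021))
 (c (a (nat_lit 0x121213a981566))
 (c (a (nat_lit 0xa8aef9e916d8c86))
 (c z e
 (c z e
 (c z e
 (c z e
 (c (a (nat_lit 0x18363674f3fd1a35e8)) e
 (c (a (nat_lit 0x78707286fd119e9c9)) e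
 (c (b (nat_lit 0x64360eb10eb66dfe9)) e
 (c (a (nat_lit 0x54258b918f60dc808)) e
 (c (a (nat_lit 0x91e9692ccaa3c408)) e e)))))))))
 (c z e
 (c z e
 (c z e
 (c (a (nat_lit 0x40202185463a68))
 (c z e
 (c (a (nat_lit 0x14bffccc8bcdec7e4a)) e
 (c z e
 (c (a (nat_lit 0x1b3087cd2a6b800009)) e e))))
 (c (a (nat_lit 0x202063c5799008))
 (c (a (nat_lit 0x9eb25644484ca36cb)) e
 (c z e
 (c (a (nat_lit 0x132aadccef60000009)) e e)))
 (c (a (nat_lit 0x8267aad07ad647))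
 (c (a (nat_lit 0x10856eb31b12800009)) e
 (c (a (nat_lit 0x12fbe4d0000000008)) e e))
 (c (a (nat_lit 0xbb06fb376f14787)) e
 (c (a (nat_lit 0x12d1d6938fa60847)) e
 (c (a (nat_lit 0x10d1536dc5898987)) e
 (c z e
 (c (a (nat_lit 0x301c041a1a1d48a)) e
 (c (a (nat_lit 0x200a0424378d1ea)) e
 (c (a (nat_lit 0xc0c14653e3400a)) e
 (c (a (nat_lit 0x81ee35c0000009)) e
 (c (a (nat_lit 0x134a800000000005)) e e))))))))))))))))
 (c (a (nat_lit 0x2033b694e707)) e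
 (c (a (nat_lit 0x12dd08e04e4a8)) e
 (c (a (nat_lit 0x179955a4634347)) e
 (c (a (nat_lit 0x12852420202026))
 (c z e
 (c (a (nat_lit 0x63889a7084c12c9))
 (c (a (nat_lit 0x92d575d28c000000b)) e
 (c (a (nat_lit 0x9515060000000000c)) e e))
 (c (a (nat_lit 0x122a66c8ab2bb029)) e
 (c (a (nat_lit 0x3a3038541e3934a)) e
 (c (a (nat_lit 0x16182210056454a)) e
 (c z e
 (c z e
 (c (a (nat_lit 0x262b895a4a2600a)) e
 (c (a (nat_lit 0x2d61842c000000a)) e e)))))))))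
 (c (a (nat_lit 0x10a64605e606c3))
 (c (a (nat_lit 0x180aca09ec6fdac8))
 (c (a (nat_lit 0xe52db84c00000000a)) e
 (c (a (nat_lit 0x1f586000000000000b)) e e))
 (c (a (nat_lit 0xa0989aa6a70fc4a)) e
 (c (a (nat_lit 0x54507862833b42a)) e
 (c (b (nat_lit 0x1fe082a2f1c765ea)) e
 (c z e
 (c z e
 (c (a (nat_lit 0x51318cb2220000a)) e
 (c (a (nat_lit 0xe30a4600000000b)) e e))))))))
 (c (b (nat_lit 0x2020203ff026))
 (c (a (nat_lit 0xa2a2a898ebabd49)) e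
 (c (a (nat_lit 0x3236263f10d11aa)) e
 (c z e
 (c z e
 (c z e
 (c (a (nat_lit 0xf9929804000000a)) e
 (c (a (nat_lit 0x1244c0000000000b)) e e)))))))
 (c (a (nat_lit 0x4848527d1c667))
 (c (a (nat_lit 0x2e06170e82d0749)) e
 (c (a (nat_lit 0x4a474ab6565c44a)) e
 (c z e
 (c z e
 (c (a (nat_lit 0x186ae3800000000a)) e e)))))
 (c (a (nat_lit 0x868a9b06d4c88))
 (c (a (nat_lit 0x9758b430528ea09)) e e)
 (c z e
 (c z e
 (c (a (nat_lit 0x1b313110ceee67)) e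
 (c (a (nat_lit 0x13f3b3b392f127)) e
 (c (a (nat_lit 0x14f4f7f7734327)) e
 (c (a (nat_lit 0x7a7b33270cda9)) e
 (c (a (nat_lit 0x10b02d6dea6a67)) e
 (c (a (nat_lit 0x154ff0c9c9a9a6)) e
 (c (a (nat_lit 0x18faccececcca5)) e
 (c (a (nat_lit 0x1c80e0e0600004)) e e)))))))))))))))))))
 (c (a (nat_lit 0x4040404041))
 (c (a (nat_lit 0x2187a99aa2966))
 (c z e
 (c z e
 (c z e
 (c z e
 (c z e
 (c z e
 (c z e
 (c z e
 (c (a (nat_lit 0xd50739cc96b7a67)) e e)))))))))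
 (c (a (nat_lit 0x147672c0c02027))
 (c (a (nat_lit 0x1ce733384c43d26))
 (c (a (nat_lit 0x1a320dafc464eba968)) e e)
 (c z e
 (c z e
 (c z e
 (c z e
 (c z e
 (c z e
 (c z e
 (c z e
 (c z e
 (c (a (nat_lit 0x2a410734340000a)) e e)))))))))))
 (c (a (nat_lit 0x15b34020202026))
 (c z e
 (c z e
 (c z e
 (c z e
 (c z e
 (c (a (nat_lit 0xe1aa6885bb04307)) e e))))))
 (c (a (nat_lit 0x15802020202046))
 (c z e
 (c (a (nat_lit 0xb8ca90a2dbcfac9))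
 (c (a (nat_lit 0xa8bf847e00000000b)) e e)
 (c (a (nat_lit 0x1849acaf31d83fa9)) e
 (c z e
 (c z e
 (c z e
 (c z e
 (c (a (nat_lit 0x475b82480a00009)) e
 (c (a (nat_lit 0xdf082400000000a)) e e)))))))))
 (c (a (nat_lit 0x12f2f2d2f32005))
 (c (a (nat_lit 0xa09492a332e74a9))
 (c (a (nat_lit 0x9132360000000000a)) e e)
 (c (a (nat_lit 0xdedf094f79f1b0a)) e
 (c z e
 (c z e
 (c z e
 (c z e
 (c (a (nat_lit 0x1d9deec080000009)) e
 (c (a (nat_lit 0x1806a0000000000a)) e e))))))))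
 (c (a (nat_lit 0x111111b3a80406))
 (c z e
 (c z e
 (c z e
 (c z e
 (c z e
 (c (a (nat_lit 0x1cf3c02000000009)) e e))))))
 (c (b (nat_lit 0xf508d7ffff906)) e
 (c z e
 (c z e
 (c z e
 (c (a (nat_lit 0x126dadadab0a47)) e
 (c (a (nat_lit 0x16d6d6d6540b07)) e
 (c (b (nat_lit 0x1757771483dfe7)) e
 (c z e
 (c z e
 (c (a (nat_lit 0x10cc6a87272727)) e
 (c (a (nat_lit 0x14ada060202005)) e
 (c (a (nat_lit 0x1ac02020000004)) e e))))))))))))))))))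
 (c (a (nat_lit 0x4040404041))
 (c (a (nat_lit 0x16354323232325))
 (c (a (nat_lit 0x1347a80e20989825))
 (c z e
 (c z e
 (c (a (nat_lit 0x13e228e0e06ac447a7)) e
 (c (a (nat_lit 0x9aa2948aac8e9704a)) e e))))
 (c z e
 (c z e
 (c z e
 (c z e
 (c (b (nat_lit 0x4043fe48b8c9628)) e
 (c (a (nat_lit 0xa484df9b0b0bb27)) e
 (c (a (nat_lit 0x2591e945f34407)) e
 (c z e
 (c (a (nat_lit 0x9088e7765830008)) e
 (c (a (nat_lit 0xa78544180000008)) e e)))))))))))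
 (c (a (nat_lit 0x11814141414006))
 (c z e
 (c z e
 (c z e
 (c z e
 (c z e
 (c z e
 (c z e
 (c z e
 (c (a (nat_lit 0xb4e300602600009)) e
 (c (a (nat_lit 0x18f8c44000000009)) e e))))))))))
 (c (b (nat_lit 0x2060a23fffe1)) e
 (c (a (nat_lit 0x1b9b9cf58ca305))
 (c z e
 (c z e
 (c z e
 (c z e
 (c z e
 (c z e
 (c (a (nat_lit 0x19c5e0e000000008)) e e)))))))
 (c (b (nat_lit 0x12532cdfffffe6))
 (c (a (nat_lit 0x549b22fd4301aa8)) e e)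
 (c z e
 (c (a (nat_lit 0x22e3a4b6d646))
 (c (a (nat_lit 0x850662a2a85c008)) e
 (c (a (nat_lit 0x16910e0ae0000008)) e e))
 (c (a (nat_lit 0x6c5e7bbdb5ae6))
 (c (a (nat_lit 0x12e96be000000007)) e e)
 (c z e
 (c (a (nat_lit 0xbf090704ac5e7)) e
 (c (a (nat_lit 0x1796f71328c287)) e
 (c (a (nat_lit 0x13d4736d8ba7e8)) e
 (c z e
 (c (a (nat_lit 0x132f0e60422226)) e
 (c (a (nat_lit 0x1e9d2124e504c5)) e
 (c (a (nat_lit 0x182a6020200005)) e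
 (c (a (nat_lit 0x14c02000000004)) e e)))))))))))))))))
 C156)))) Tr.c Tr.e (nat_lit 0) C.cx C.cy
noncomputable def C158 : Tr := beta% (fun (c : Nat → Tr → Tr → Tr) (e : Tr) (z : Nat) (a b : Nat → Nat) =>
 (c (a (nat_lit 0x1a5a5a5a5a5e41))
 (c z e
 (c (a (nat_lit 0x5c5c5c667b2f5e5))
 (c z e
 (c z e
 (c z e
 (c z e
 (c z e
 (c (a (nat_lit 0x7a6e76769896d7808)) e
 (c (a (nat_lit 0x6472645072c315528)) e
 (c (a (nat_lit 0x3e2e241b52ebaafc7)) e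
 (c z e
 (c z e
 (c z e
 (c (a (nat_lit 0x165b6ac38000000008)) e
 (c (a (nat_lit 0x10c380000000000009)) e e)))))))))))))
 (c (a (nat_lit 0x7a7a88acbea3b85))
 (c z e
 (c z e
 (c z e
 (c z e
 (c (a (nat_lit 0x7a7872b68cb523168)) e
 (c (a (nat_lit 0x5e5634727536c81e8)) e
 (c z e
 (c z e
 (c z e
 (c (a (nat_lit 0x19cac58c4040000007)) e
 (c (a (nat_lit 0x190962c00000000008)) e e)))))))))))
 (c (a (nat_lit 0x5e6cb0aa90838e5)) e
 (c (a (nat_lit 0x747688888069525)) e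
 (c (a (nat_lit 0x120cee0be88df363))
 (c z e
 (c (a (nat_lit 0x8a810b2e7c041a4e8)) e
 (c (a (nat_lit 0x5125649a0c7232048)) e
 (c (a (nat_lit 0x13518dc6a68807a508)) e e))))
 (c (a (nat_lit 0x9c80605a48199a3))
 (c z e
 (c (a (nat_lit 0xd51cdc685e466efa9)) e
 (c (a (nat_lit 0x16d66767686744a008)) e e)))
 (c (a (nat_lit 0x50403e34026d144))
 (c (a (nat_lit 0x158fc728c6684eaa28)) e
 (c (a (nat_lit 0x176568440a08000008)) e e))
 (c z e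
 (c (a (nat_lit 0x151471722b879fa4)) e
 (c (a (nat_lit 0xceb4b4a06a55425)) e
 (c z e
 (c (a (nat_lit 0x80868e223eeb605)) e
 (c (a (nat_lit 0x60e0618087f706)) e
 (c (a (nat_lit 0x1a1c262212397e7)) e
 (c (a (nat_lit 0x27d254d827a003)) e e))))))))))))))))
 (c (a (nat_lit 0x2c2c2c2d325c5))
 (c (a (nat_lit 0x52525c8b3726fc6))
 (c z e
 (c z e
 (c z e
 (c z e
 (c (a (nat_lit 0x1773f0b2d26f9bf948)) e
 (c (a (nat_lit 0x9066628496f94d829))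
 (c (a (nat_lit 0x1084000000000000000b)) e e)
 (c (a (nat_lit 0x5648383ea6b112469)) e
 (c (a (nat_lit 0x1a20056d6b3306408)) e
 (c (a (nat_lit 0x7849aac652a87a488)) e
 (c z e
 (c z e
 (c (a (nat_lit 0x178d03a00000000009)) e e))))))))))))
 (c (a (nat_lit 0x5e6285028ed0ba8))
 (c z e
 (c z e
 (c z e
 (c z e
 (c z e
 (c (a (nat_lit 0x6e6c6cc3d154a2169)) e e))))))
 (c z e
 (c z e
 (c (a (nat_lit 0x1721414106f211e5))
 (c (a (nat_lit 0x86911da04654524c8)) e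
 (c (a (nat_lit 0xa8c958c03636605ca)) e
 (c (a (nat_lit 0xaf76d626444e3484a)) e
 (c (a (nat_lit 0x17d0c8c5a9e886a009)) e e))))
 (c (a (nat_lit 0x804040208517c7))
 (c (a (nat_lit 0xdbaf549c3a6495749)) e
 (c (a (nat_lit 0x130f27c56767cd4f4b)) e
 (c (a (nat_lit 0x12480466e705c0000a)) e e)))
 (c (a (nat_lit 0x26245e4036e36e6))
 (c (a (nat_lit 0x1deca94d3274f1e009)) e e)
 (c (a (nat_lit 0xe908e91adf00085)) e
 (c (a (nat_lit 0x1897b6d552b556a7)) e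
 (c z e
 (c z e
 (c (a (nat_lit 0x102ec06154377806)) e
 (c (a (nat_lit 0x80202021c3b18a)) e
 (c (a (nat_lit 0xa1026164b2a809)) e
 (c (a (nat_lit 0x142f09177800008)) e
 (c (a (nat_lit 0x12d2e9a000000006)) e e))))))))))))))))
 (c (a (nat_lit 0x2c2c2d82a0865))
 (c z e
 (c z e
 (c z e
 (c (a (nat_lit 0x5e161c52645bf46))
 (c z e
 (c (a (nat_lit 0x1b593423e3a52a6ec9)) e
 (c z e
 (c (a (nat_lit 0x14e5c54b292d600008)) e e))))
 (c (a (nat_lit 0x7e7036651722ae6))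
 (c (a (nat_lit 0x909c46222c686d7ca)) e e)
 (c (a (nat_lit 0x96d12d09553b346)) e
 (c z e
 (c (a (nat_lit 0x10efcf6cec4d2bc7)) e
 (c z e
 (c z e
 (c (a (nat_lit 0x4e0a02425461708)) e
 (c (a (nat_lit 0x1a14125ecd63dc8)) e e))))))))))))
 (c (a (nat_lit 0x2c2ef7009c9a5))
 (c (a (nat_lit 0x1804d16d593cec6))
 (c z e
 (c z e
 (c z e
 (c (a (nat_lit 0x11ec0d2c4a4788aba9)) e
 (c z e
 (c (a (nat_lit 0x1b5d7547a8fd6da007)) e e))))))
 (c z e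
 (c z e
 (c z e
 (c z e
 (c z e
 (c (a (nat_lit 0xf2e7aecefce0d06)) e e)))))))
 (c (b (nat_lit 0x2f1ffef89a705))
 (c z e
 (c z e
 (c z e
 (c z e
 (c (a (nat_lit 0x10303531eeab2967)) e
 (c (a (nat_lit 0xab28ccde743a3e7)) e
 (c z e
 (c z e
 (c (a (nat_lit 0x264a467599806e8)) e e)))))))))
 (c (a (nat_lit 0x1215196ba66665))
 (c z e
 (c (a (nat_lit 0x6086b4ca8aa1027))
 (c z e
 (c (a (nat_lit 0x84d97d1600000000a)) e e))
 (c (a (nat_lit 0x2e4a7e5058a5187))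
 (c (a (nat_lit 0x7b0a800000000000a)) e e)
 (c (a (nat_lit 0xc2fad4c514dd4e7)) e
 (c (a (nat_lit 0x8264767c8057f08)) e
 (c z e
 (c (a (nat_lit 0x1c404a570622049)) e
 (c (a (nat_lit 0x969ea7eff662528)) e
 (c (a (nat_lit 0x44b07000e00009)) e
 (c (a (nat_lit 0x8be956000000008)) e e))))))))))
 (c (a (nat_lit 0x1c7dbaba9a7a63))
 (c (a (nat_lit 0x3a6670727ab1be6))
 (c z e
 (c (a (nat_lit 0xed32ea0000000000a)) e e))
 (c (a (nat_lit 0x9aa2a2a4b4fb9a8))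
 (c (a (nat_lit 0x196c4000000000000a)) e e)
 (c (a (nat_lit 0xf4ccaacb5355fa7)) e
 (c (a (nat_lit 0xc4d2df9f17f5807)) e
 (c (a (nat_lit 0x567aba8b06d0928)) e
 (c z e
 (c (a (nat_lit 0xa48bafface22008)) e
 (c (a (nat_lit 0x9b3b5a540000009)) e
 (c (a (nat_lit 0x136c000000000009)) e e)))))))))
 (c (a (nat_lit 0x8c6e6e6c70541))
 (c (a (nat_lit 0x6a68666a72c3128)) e
 (c (a (nat_lit 0x2822222068531c9)) e
 (c (a (nat_lit 0x767ab51de1b1547)) e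
 (c (a (nat_lit 0x6e906fc3d07e487)) e
 (c z e
 (c (a (nat_lit 0x16cd0a4e0200009)) e
 (c (a (nat_lit 0x143764e000000009)) e
 (c (a (nat_lit 0x1bc0000000000008)) e e))))))))
 (c (a (nat_lit 0xa0c0a0ab1043))
 (c (a (nat_lit 0x14160c206c9d108)) e
 (c (a (nat_lit 0x8eb86fad7786ca7)) e
 (c z e
 (c z e
 (c (a (nat_lit 0xe71e941e0000009)) e
 (c (a (nat_lit 0x1927c00000000009)) e e))))))
 (c (a (nat_lit 0x7a7a8eb4ff0c5))
 (c (a (nat_lit 0x106bd48e468a2ea7)) e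
 (c (a (nat_lit 0xf77b6c2c6ca6d47)) e
 (c z e
 (c (a (nat_lit 0x1b25c1a000000008)) e e))))
 (c (a (nat_lit 0xc8e51d655d545))
 (c (a (nat_lit 0xe50e505a4a68007)) e e)
 (c z e
 (c (a (nat_lit 0xb90700f4eae25)) e
 (c (a (nat_lit 0x1130900fef8dc5)) e
 (c (a (nat_lit 0x169615f5b40ee5)) e
 (c (a (nat_lit 0x10b0904eab2005)) e
 (c (a (nat_lit 0x11910e6c2c2d84)) e
 (c (a (nat_lit 0x1cb6b232755503)) e e))))))))))))))))))) Tr.c Tr.e (nat_lit 0) C.cx C.cy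
noncomputable def C159 : Tr := beta% (fun (c : Nat → Tr → Tr → Tr) (e : Tr) (z : Nat) (a b : Nat → Nat) =>
 (c (a (nat_lit 0x404041))
 (c (nat_lit 1)
 (c (a (nat_lit 0xa0a0a0a0a1)) C158
 C157)
 (c (a (nat_lit 0x20202021)) C155
 (c (a (nat_lit 0x20202021))
 (c (a (nat_lit 0x20002001))
 (c (a (nat_lit 0x15756020202025))
 (c (a (nat_lit 0x200a084a773f165))
 (c z e
 (c (a (nat_lit 0x15b52dadc7ec92b2e8)) e e))
 (c (a (nat_lit 0x104304b6e4f7607))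
 (c (a (nat_lit 0x11cb0ca0e52ce7e989))
 (c (a (nat_lit 0x1c68c74200000000000a)) e e) e)
 (c z e
 (c z e
 (c z e
 (c z e
 (c z e
 (c z e
 (c z e
 (c z e
 (c (a (nat_lit 0x50b379968e48008)) e
 (c (a (nat_lit 0x6eabea460000008)) e e))))))))))))
 (c (a (nat_lit 0x1d002020202146))
 (c (a (nat_lit 0xe82466edf0bfc7))
 (c (a (nat_lit 0xacd60c2a9e665b6e9)) e e)
 (c z e
 (c z e
 (c z e
 (c z e
 (c z e
 (c z e
 (c z e
 (c z e
 (c (a (nat_lit 0x8e95521a0200009)) e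
 (c (a (nat_lit 0xa1a414000000009)) e e)))))))))))
 (c (a (nat_lit 0x18789898980a65)) e
 (c (a (nat_lit 0x1a1a1b1aefa5a6)) e
 (c z e
 (c z e
 (c z e
 (c z e
 (c (a (nat_lit 0x146464c4c046e6)) e
 (c (a (nat_lit 0xdac4c2267b346)) e
 (c (a (nat_lit 0xc0c3031faf146)) e
 (c (a (nat_lit 0x101a97964fd427)) e
 (c z e
 (c z e
 (c z e
 (c (a (nat_lit 0x94c31f1e5a007)) e
 (c (a (nat_lit 0x12b86c40000007)) e e)))))))))))))))))
 (c (nat_lit 1)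
 (c (a (nat_lit 0x1a1a1a1a1890e5))
 (c (a (nat_lit 0x208024646792c8))
 (c (a (nat_lit 0x701a183e4c4e67a09)) e e)
 (c z e
 (c z e
 (c z e
 (c z e
 (c z e
 (c z e
 (c (b (nat_lit 0x1bf8bffdc968d608)) e
 (c z e
 (c (a (nat_lit 0x3d3224040000009)) e
 (c (a (nat_lit 0x1482000000000009)) e e)))))))))))
 (c (a (nat_lit 0x1c5c5fbcf74187)) e
 (c z e
 (c z e
 (c z e
 (c z e
 (c z e
 (c (a (nat_lit 0x56a98860c3026)) e
 (c z e
 (c (a (nat_lit 0x10d00dee8fe907)) e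
 (c (a (nat_lit 0x12505153510e08)) e
 (c z e
 (c z e
 (c z e
 (c (a (nat_lit 0xcf0184ae00008)) e e)))))))))))))))
 (c (a (nat_lit 0x2020202021)) e
 (c (a (nat_lit 0x204001))
 (c z e
 (c (a (nat_lit 0x1a92cce3c0e147))
 (c (a (nat_lit 0x181cdbd470906caa)) e
 (c (a (nat_lit 0x197434510d2aec2b)) e e))
 (c (a (nat_lit 0x186b8bf14b2ce6)) e
 (c z e
 (c z e
 (c z e
 (c z e
 (c (a (nat_lit 0x702741c48648)) e
 (c (a (nat_lit 0x1d6ce384c1d247)) e e)))))))))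
 (c (a (nat_lit 0x20202039c7))
 (c (a (nat_lit 0xfef66c0225487))
 (c (a (nat_lit 0x1a5f3755f72f55e8)) e
 (c (a (nat_lit 0x1794110d2d4dd16a)) e e))
 (c (a (nat_lit 0xca6a026baf627)) e
 (c z e
 (c z e
 (c z e
 (c z e
 (c (a (nat_lit 0x8cac4636d7787)) e
 (c (a (nat_lit 0x4a1c02096a068)) e
 (c (a (nat_lit 0x9e024ffec4067)) e e)))))))))
 (c (a (nat_lit 0x20203d1967))
 (c (a (nat_lit 0xc2aa6b132628)) e
 (c z e
 (c z e
 (c z e
 (c z e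
 (c (b (nat_lit 0x106080231fe1c9)) e
 (c (b (nat_lit 0xb01a47bbffbc7)) e e)))))))
 (c (a (nat_lit 0x203a963547)) e
 (c z e
 (c (a (nat_lit 0x18bc7aa02006))
 (c (a (nat_lit 0x3a1ae147204c7)) e
 (c z e
 (c z e
 (c (b (nat_lit 0x1fe666b2e0c00a)) e e))))
 (c (a (nat_lit 0x147460202006))
 (c z e
 (c (a (nat_lit 0x48def99ac23a9)) e e))
 (c (a (nat_lit 0x150020202006))
 (c (a (nat_lit 0x8caf927c16009)) e
 (c (a (nat_lit 0xe5a056000000a)) e e))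
 (c (a (nat_lit 0x20202035c5))
 (c (a (nat_lit 0x1fa46000000009)) e e)
 (c (a (nat_lit 0x202035b265)) e
 (c (a (nat_lit 0x7e7f0f57347)) e
 (c z e
 (c (a (nat_lit 0x5b8e489a9a7)) e
 (c (a (nat_lit 0x1e6be0202066)) e
 (c (a (nat_lit 0x17c02040c0a5)) e
 (c (a (nat_lit 0x10401e001)) e
 (c (a (nat_lit 0x10f9d8554a01)) e
 (c (a (nat_lit 0x111110ac8005)) e
 (c (a (nat_lit 0x18ab60000005)) e e))))))))))))))))))))))
 C154)))
 (c (a (nat_lit 0x202021))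
 (c (a (nat_lit 0x20202021))
 (c (a (nat_lit 0x20202001))
 (c (a (nat_lit 0x178fa78a92684))
 (c z e
 (c (a (nat_lit 0x1fd4fead4441c823)) e
 (c z e
 (c z e
 (c (a (nat_lit 0x1436d0f055f5665))
 (c (a (nat_lit 0x12b3c7086772eb3727)) e e)
 (c (a (nat_lit 0x8498d1136f578a6)) e
 (c (a (nat_lit 0x5c8a8ca2677d546)) e
 (c z e
 (c z e
 (c (a (nat_lit 0x76868c943621766)) e
 (c (a (nat_lit 0x5e928a364950ce6)) e
 (c (a (nat_lit 0x606c4034af86887)) e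
 (c (a (nat_lit 0x1c222c75020e008)) e
 (c (a (nat_lit 0x7ad9954e0000007)) e
 (c (a (nat_lit 0xed7e00000000006)) e e)))))))))))))))
 (c (a (nat_lit 0x1798b788a74746))
 (c (a (nat_lit 0x1245e6c6c12a4004)) e
 (c z e
 (c z e
 (c z e
 (c z e
 (c z e
 (c z e
 (c (a (nat_lit 0x66a0b4b48037548)) e
 (c z e
 (c (a (nat_lit 0xdee0a087f065068)) e
 (c (a (nat_lit 0x106b0813782c0828)) e e)))))))))))
 (c (a (nat_lit 0x19d762c0202025))
 (c (a (nat_lit 0x4a56820e1b57086)) e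
 (c z e
 (c z e
 (c z e
 (c z e
 (c (a (nat_lit 0x444d80a25e9f8a8)) e
 (c z e
 (c (a (nat_lit 0x1508c526466385a8)) e e))))))))
 (c (a (nat_lit 0x13602020202025))
 (c z e
 (c z e
 (c z e
 (c z e
 (c (a (nat_lit 0x481e12243d64a07)) e
 (c (a (nat_lit 0x200e28196662148)) e e))))))
 (c (b (nat_lit 0x1f1efeff1fe243))
 (c z e
 (c z e
 (c z e
 (c (a (nat_lit 0x7c8a8f99bac00a7)) e
 (c (a (nat_lit 0x7ea7213940c63a8)) e e)))))
 (c (a (nat_lit 0x13b3b4948bb045))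
 (c (a (nat_lit 0xb0b4ceb54903908))
 (c (a (nat_lit 0x156540000000000009)) e e)
 (c z e
 (c (a (nat_lit 0x3804b4ad3a38408)) e
 (c z e
 (c z e
 (c z e
 (c (a (nat_lit 0x196902c000000008)) e
 (c (a (nat_lit 0x10a0000000000007)) e e))))))))
 (c (b (nat_lit 0x1212d555dfe725))
 (c (a (nat_lit 0xd8f2897f829a668)) e
 (c (a (nat_lit 0xf29799d27e64048)) e
 (c (a (nat_lit 0x95e38aa41802528)) e e)))
 (c z e
 (c z e
 (c (b (nat_lit 0x1e325feb6060c3)) e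
 (c (a (nat_lit 0x108bcb40614004)) e
 (c (a (nat_lit 0x189555f9d803a2)) e
 (c (a (nat_lit 0x1e3e5eddf73144)) e
 (c (a (nat_lit 0x14b595354e4ca6)) e
 (c (a (nat_lit 0x15365654335287)) e
 (c (a (nat_lit 0xd6db531f4f325)) e
 (c (a (nat_lit 0xcfc55fb7841c4)) e
 (c (a (nat_lit 0x1835380b400005)) e
 (c (a (nat_lit 0x166cc000000005)) e e)))))))))))))))))))
 C152)
 C151)
 C149))) Tr.c Tr.e (nat_lit 0) C.cx C.cy
noncomputable def C160 : Tr := beta% (fun (c : Nat → Tr → Tr → Tr) (e : Tr) (z : Nat) (a b : Nat → Nat) =>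
 (c (a (nat_lit 0x21))
 (c (a (nat_lit 0x65cfc5c4b85))
 (c (a (nat_lit 0x1054a3a463e464))
 (c z e
 (c z e
 (c (a (nat_lit 0x71804c000000007)) e e)))
 (c (a (nat_lit 0x150c45e3238ee5))
 (c (a (nat_lit 0x1ad856a6e0000007)) e e)
 (c (a (nat_lit 0x10f183e61a58e4)) e
 (c (a (nat_lit 0xaae620c6cfec5)) e
 (c (a (nat_lit 0x345870321b086)) e
 (c (a (nat_lit 0x76b8508512826)) e
 (c (a (nat_lit 0xd7112b57195a6)) e
 (c (a (nat_lit 0x8d34fae0f4786)) e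
 (c (a (nat_lit 0x10ed2685600007)) e
 (c (a (nat_lit 0x1d83c000000006)) e e))))))))))
 (c (a (nat_lit 0x1aba1a284846))
 (c (a (nat_lit 0x11c544c5071305))
 (c (a (nat_lit 0x1234c46000000007)) e e)
 (c (a (nat_lit 0xa2483e6ae5506)) e
 (c (a (nat_lit 0x122a48892db87)) e
 (c (a (nat_lit 0x4c50527933cc8)) e
 (c z e
 (c (a (nat_lit 0xef03999ffb927)) e
 (c (a (nat_lit 0x94c6cf0268008)) e
 (c (a (nat_lit 0x12f24a00000008)) e e))))))))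
 (c (a (nat_lit 0x1cdd29494945))
 (c (a (nat_lit 0x221a382e45526)) e
 (c (a (nat_lit 0x2060e4aab6e7)) e
 (c z e
 (c z e
 (c (a (nat_lit 0x67116be14a666)) e
 (c (a (nat_lit 0x1198b58dc00006)) e
 (c (a (nat_lit 0xc702000000006)) e e)))))))
 (c (a (nat_lit 0x168282828285))
 (c (a (nat_lit 0x6066a46152ba7)) e
 (c (a (nat_lit 0x3268638084388)) e
 (c (a (nat_lit 0x6697c750f8567)) e
 (c (a (nat_lit 0x6d2920160a006)) e
 (c (a (nat_lit 0x1e0c61a0000006)) e e)))))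
 (c (a (nat_lit 0x10b0b0b0ca63))
 (c (a (nat_lit 0x547dcd0c10667)) e
 (c (a (nat_lit 0x3d6b3abc38568)) e
 (c (a (nat_lit 0x1d2ec8e2000007)) e
 (c (a (nat_lit 0x1a63e000000006)) e e))))
 (c (a (nat_lit 0x1cbcbcd66343))
 (c (a (nat_lit 0x18d6532466a006)) e
 (c (a (nat_lit 0x1b100240000006)) e
 (c (a (nat_lit 0x17a00000000005)) e e)))
 (c (a (nat_lit 0x14d4e807ed44))
 (c (a (nat_lit 0x19e5e000000005)) e e)
 (c (a (nat_lit 0x593937918a4)) e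
 (c (a (nat_lit 0x6c852b2d2c3)) e
 (c (a (nat_lit 0x143dddfe1e23)) e
 (c (a (nat_lit 0x4060b201)) e
 (c (a (nat_lit 0x2068dc22)) e
 (c (a (nat_lit 0x20891c98c2)) e
 (c (a (nat_lit 0x2712b0b2b61)) e
 (c (a (nat_lit 0x5c060804021)) e
 (c (a (nat_lit 0x40200001)) e
 (c (nat_lit 1) e e)))))))))))))))))
 (c (a (nat_lit 0x40404041))
 (c (a (nat_lit 0x1393c9696965))
 (c (a (nat_lit 0x202060493be4)) e
 (c (a (nat_lit 0x720896f56fea5)) e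
 (c (a (nat_lit 0x980558ed3bba5)) e
 (c (a (nat_lit 0x34445ca500ee8)) e
 (c z e
 (c (a (nat_lit 0x74a4f130d0527)) e
 (c (a (nat_lit 0xbf0d3c7200007)) e
 (c (a (nat_lit 0x1dcd4000000007)) e e))))))))
 (c (a (nat_lit 0x13c080808085))
 (c (a (nat_lit 0xc48384e95b06)) e
 (c (a (nat_lit 0x8b018381af986)) e
 (c (a (nat_lit 0x3c70df2eec5e8)) e
 (c z e
 (c (a (nat_lit 0x2c95007c12007)) e
 (c (a (nat_lit 0x1a39ec40000006)) e e))))))
 (c (a (nat_lit 0x40c0c11041))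
 (c (a (nat_lit 0x92aac7aa52be7)) e
 (c (a (nat_lit 0x88c18ce650268)) e
 (c z e
 (c (a (nat_lit 0x122be362e00006)) e
 (c (a (nat_lit 0x17618000000005)) e e)))))
 (c (a (nat_lit 0x14d4d4f8f4a3))
 (c (a (nat_lit 0xe7897a0406967)) e e)
 (c (a (nat_lit 0x10b0b0b0b1e6)) e
 (c (a (nat_lit 0xf2f2fd383c4)) e
 (c (a (nat_lit 0x1eb014d4b444)) e
 (c (a (nat_lit 0xef3b3b3b3c4)) e
 (c (a (nat_lit 0xf4f8faff003)) e
 (c (a (nat_lit 0x20a0b743)) e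
 (c (a (nat_lit 0x40570fa3)) e
 (c (a (nat_lit 0x8fde208041)) e
 (c (a (nat_lit 0xfbf01414481)) e
 (c (a (nat_lit 0x10e1e2222002)) e
 (c (a (nat_lit 0x40000001)) e e)))))))))))))))
 (c (a (nat_lit 0x20202021))
 (c (a (nat_lit 0x1d3d5cfc80c1))
 (c (a (nat_lit 0x1e2a282605466)) e
 (c (a (nat_lit 0x3a72584338f66)) e
 (c (a (nat_lit 0x78ccfd80440e6)) e
 (c (a (nat_lit 0x54a5028038387)) e
 (c (b (nat_lit 0x1ff820e0400006)) e
 (c (a (nat_lit 0x1581c000000005)) e e))))))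
 (c (a (nat_lit 0xe0c0d41962))
 (c (a (nat_lit 0xf2ccde8b2e766)) e
 (c (a (nat_lit 0x1b5f77758a18a6)) e
 (c (a (nat_lit 0x108a8c4483c007)) e
 (c (a (nat_lit 0x1182e680000004)) e e))))
 (c (a (nat_lit 0xacacb713204))
 (c (a (nat_lit 0x1c4ac080ca4386)) e e)
 (c (a (nat_lit 0x10b171747425)) e
 (c (a (nat_lit 0x84a7371f183)) e
 (c (a (nat_lit 0x17fc9c7c9c84)) e
 (c (a (nat_lit 0xa8aad2ef2e1)) e
 (c (a (nat_lit 0x185898f96104)) e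
 (c (a (nat_lit 0x142d11dc2)) e
 (c (a (nat_lit 0xf7d9e9b22)) e
 (c (a (nat_lit 0x1919ea8a82)) e
 (c (a (nat_lit 0x1c5f0140c021)) e
 (c (a (nat_lit 0x120401e00002)) e
 (c (a (nat_lit 0x48000000001)) e e))))))))))))))
 (c (a (nat_lit 0x20202021))
 (c (a (nat_lit 0x8e931911364))
 (c (a (nat_lit 0xffc0fc1a30ba4)) e
 (c (a (nat_lit 0x15666081082586)) e
 (c (a (nat_lit 0x10d4c483a00005)) e
 (c (a (nat_lit 0xaf4000000001)) e e))))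
 (c (a (nat_lit 0x7d010127245))
 (c (a (nat_lit 0xe8120b1484005)) e
 (c (a (nat_lit 0x18b59a0000003)) e e))
 (c (a (nat_lit 0x1afcdf3f1f44)) e
 (c (a (nat_lit 0x1075b5d5b503)) e
 (c (a (nat_lit 0x11b1b1d1b185)) e
 (c (a (nat_lit 0x929f1b0e346)) e
 (c (a (nat_lit 0x155575a46585)) e
 (c (a (nat_lit 0x1b7b4e478223)) e
 (c (a (nat_lit 0x1b670042cba3)) e
 (c (a (nat_lit 0x560604c1823)) e
 (c (a (nat_lit 0x20199d8e002)) e
 (c (a (nat_lit 0xc1c0000001)) e e))))))))))))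
 (c (a (nat_lit 0x20202021))
 (c (a (nat_lit 0x1292b514f4e4))
 (c z e
 (c (a (nat_lit 0x1cc000000002)) e e))
 (c (a (nat_lit 0x19fe7e7e7e84)) e
 (c (a (nat_lit 0xdf878cd0c21)) e
 (c (a (nat_lit 0x113131714b05)) e
 (c (a (nat_lit 0xfb7174aa886)) e
 (c (b (nat_lit 0x100304ffffe4)) e
 (c (a (nat_lit 0x1573712ecee5)) e
 (c (a (nat_lit 0x19120fc06dc4)) e
 (c (a (nat_lit 0x4c0409b4d83)) e
 (c (a (nat_lit 0x21dbe00002)) e
 (c (a (nat_lit 0x2000000001)) e e)))))))))))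
 (c (nat_lit 1)
 (c (a (nat_lit 0xe1014140a1)) e
 (c (a (nat_lit 0x193939b965e4)) e
 (c (a (nat_lit 0x1ebebeb40485)) e
 (c z e
 (c (a (nat_lit 0x195b4eaca83)) e
 (c (a (nat_lit 0x1595908025a4)) e
 (c (a (nat_lit 0x9e0202b1363)) e
 (c (a (nat_lit 0x6035b38002)) e
 (c (a (nat_lit 0x4360000001)) e e)))))))))
 (c (nat_lit 1)
 (c (a (nat_lit 0x1717370fe3a4)) e
 (c (a (nat_lit 0x170705670ae5)) e
 (c (b (nat_lit 0x1ff57273f3a4)) e
 (c (a (nat_lit 0x10462c001)) e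
 (c (a (nat_lit 0x444e52001)) e
 (c (a (nat_lit 0x88829206001)) e
 (c (a (nat_lit 0xfc960600001)) e
 (c (a (nat_lit 0x90000000001)) e e))))))))
 (c (a (nat_lit 0x2021))
 (c (a (nat_lit 0x707285223)) e
 (c (a (nat_lit 0x493f16a2b63)) e
 (c (a (nat_lit 0x16381e101)) e
 (c (a (nat_lit 0xe0607162)) e
 (c (a (nat_lit 0x1c040406001)) e
 (c (a (nat_lit 0x4000000001)) e e))))))
 (c (a (nat_lit 0x202021))
 (c (a (nat_lit 0x100616a81)) e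
 (c (a (nat_lit 0x8a70200e001)) e
 (c (a (nat_lit 0x2202040ddc2)) e
 (c (a (nat_lit 0x2020200001)) e
 (c (a (nat_lit 0x2000000001)) e e)))))
 (c (nat_lit 1)
 (c (a (nat_lit 0x422e0803643)) e
 (c (a (nat_lit 0x206080c001)) e
 (c (a (nat_lit 0x20000001)) e e)))
 (c (a (nat_lit 0x202021))
 (c (a (nat_lit 0x4040200001)) e
 (c (a (nat_lit 0x4000000001)) e e))
 (c (a (nat_lit 0x404053c2)) e
 (c (a (nat_lit 0x4053d3e2)) e
 (c (a (nat_lit 0xa1d945522)) e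
 (c (a (nat_lit 0x118bad4263)) e
 (c (a (nat_lit 0x19db65a5c2)) e
 (c (a (nat_lit 0x170080a0a2)) e
 (c (a (nat_lit 0x604041)) e
 (c (a (nat_lit 0x4041)) e
 (c (a (nat_lit 0x80a08041)) e
 (c (a (nat_lit 0x20003482)) e
 (c (a (nat_lit 0x144a22)) e
 (c (a (nat_lit 0x213e00001)) e e)))))))))))))))))))))))) Tr.c Tr.e (nat_lit 0) C.cx C.cy
noncomputable def C161 : Tr := beta% (fun (c : Nat → Tr → Tr → Tr) (e : Tr) (z : Nat) (a b : Nat → Nat) =>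
 (c (a (nat_lit 0x20202021))
 (c (a (nat_lit 0x2020202021))
 (c (a (nat_lit 0x17b5959372f2e6))
 (c (a (nat_lit 0x12333615335c2fa6)) e
 (c z e
 (c (a (nat_lit 0x15d613d64cb2f287)) e
 (c (a (nat_lit 0x18d65dd011d54e47)) e
 (c z e
 (c (a (nat_lit 0x178b511334b44a87)) e
 (c (a (nat_lit 0x15b00eb06a000007)) e
 (c (a (nat_lit 0x1e774a2000000006)) e e))))))))
 (c (a (nat_lit 0x1445e060402044))
 (c (a (nat_lit 0xdb16ee974cceae7)) e
 (c (a (nat_lit 0x1cfad593b87577e8)) e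
 (c z e
 (c z e
 (c z e
 (c (a (nat_lit 0x10cd6c8b60000007)) e e))))))
 (c (a (nat_lit 0x1b19595bdbaae5))
 (c (a (nat_lit 0x11cecb4e6ed04fc8)) e
 (c (a (nat_lit 0xc850a71a44d2588)) e
 (c z e
 (c z e
 (c (a (nat_lit 0x16d8aea000000007)) e e)))))
 (c (a (nat_lit 0xe8e8fd188eec6))
 (c z e
 (c z e
 (c (a (nat_lit 0x1fda9cea20000007)) e
 (c (a (nat_lit 0x14b2200000000007)) e e))))
 (c z e
 (c z e
 (c (a (nat_lit 0xd530fae0aa646)) e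
 (c (a (nat_lit 0x11edce07204005)) e
 (c (a (nat_lit 0x15f649e040d7c4)) e
 (c (a (nat_lit 0x1e57ee0c4b8aa5)) e
 (c z e
 (c (a (nat_lit 0xc36eb149ae66)) e
 (c (a (nat_lit 0x3dfe40600003)) e
 (c (a (nat_lit 0x1daf0000000004)) e e))))))))))))))
 (c (a (nat_lit 0x2020203066))
 (c (a (nat_lit 0x102f0f102d81e6))
 (c (a (nat_lit 0xe6d8b958d496c07)) e
 (c (a (nat_lit 0x1ab495f93518d8e8)) e
 (c z e
 (c z e
 (c z e
 (c (a (nat_lit 0x12b88fc000000007)) e e))))))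
 (c (a (nat_lit 0x1bbbbcdef08006))
 (c (a (nat_lit 0x163158fa9ddc1728)) e
 (c z e
 (c z e
 (c z e
 (c (a (nat_lit 0x1d11200000000008)) e e)))))
 (c (b (nat_lit 0x195dbfffffffe4)) e
 (c z e
 (c z e
 (c (a (nat_lit 0x11f32fea4ae066)) e
 (c (a (nat_lit 0x1fd7e9aa406124)) e
 (c (a (nat_lit 0xc68aac8f4ae86)) e
 (c (a (nat_lit 0x1131f012512126)) e e)))))))))
 (c (a (nat_lit 0x8080911106))
 (c (a (nat_lit 0x11d1cf6ec60066))
 (c (a (nat_lit 0xd2d9255754fe787)) e e)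
 (c z e
 (c z e
 (c z e
 (c (a (nat_lit 0x103a88e8051706)) e
 (c (a (nat_lit 0x194925c8331506)) e
 (c (a (nat_lit 0x448ea90ebab27)) e
 (c (b (nat_lit 0x6060c30277fe7)) e
 (c z e
 (c z e
 (c (a (nat_lit 0x156a6000000007)) e e)))))))))))
 (c (a (nat_lit 0x16171514a87))
 (c z e
 (c z e
 (c z e
 (c (b (nat_lit 0x225a3ffed56e7)) e e))))
 (c (a (nat_lit 0x39186ba1e6)) e
 (c (a (nat_lit 0x1656ad454546))
 (c (a (nat_lit 0x16b0d3dd2f6985)) e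
 (c (a (nat_lit 0xaefb24f8e9e67)) e e))
 (c (a (nat_lit 0x139087e7e7e5))
 (c (a (nat_lit 0x2452566e9b368)) e
 (c (a (nat_lit 0x36425abb04789)) e
 (c (a (nat_lit 0x1c62f5287c1a8)) e
 (c (a (nat_lit 0x72c59e4a00008)) e e))))
 (c (a (nat_lit 0x10e020202004))
 (c (a (nat_lit 0x2a49169c7c087)) e
 (c (a (nat_lit 0x8bf52f1e3e007)) e
 (c (a (nat_lit 0x108fa640000008)) e e)))
 (c (a (nat_lit 0x202038c3))
 (c (a (nat_lit 0xbb0c604000007)) e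
 (c (a (nat_lit 0x1e68e000000006)) e e))
 (c (a (nat_lit 0x2058fee3))
 (c (a (nat_lit 0x14a00000000004)) e e)
 (c (a (nat_lit 0x28fdb9b94c5)) e
 (c (a (nat_lit 0x137f3f385645)) e
 (c (a (nat_lit 0x11a140202004)) e
 (c (a (nat_lit 0x160402059a4)) e
 (c (a (nat_lit 0x202059a084)) e
 (c (a (nat_lit 0x3639ba40483)) e
 (c (a (nat_lit 0x124d14d52022)) e
 (c (a (nat_lit 0x66384464021)) e e))))))))))))))))))
 (c (nat_lit 1)
 (c (a (nat_lit 0x4040509085))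
 (c (a (nat_lit 0x1bbbdbbfbaaf63))
 (c z e
 (c (a (nat_lit 0xd0fd58eed6e2c47)) e
 (c (a (nat_lit 0x119a376cee8e5387)) e
 (c (a (nat_lit 0x11ed6b4da9e4e007)) e e))))
 (c (a (nat_lit 0xe0e151507e606))
 (c (a (nat_lit 0x84d4d4bcc90a9a8)) e
 (c z e
 (c (a (nat_lit 0xfa870ce84200008)) e e)))
 (c (b (nat_lit 0x139a1ffa0b84e6)) e
 (c (a (nat_lit 0x11ee4f2f8ab486)) e
 (c (a (nat_lit 0xe08e748b5e045)) e
 (c (a (nat_lit 0xccb8a33402025)) e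
 (c (a (nat_lit 0xb6bd30d447165)) e
 (c (a (nat_lit 0x6afe9ead06845)) e
 (c (a (nat_lit 0x149213542f1046)) e
 (c z e
 (c (a (nat_lit 0x83612ec000006)) e
 (c (a (nat_lit 0x182b8000000005)) e e))))))))))))
 (c (a (nat_lit 0x1a1b1b1b167))
 (c (a (nat_lit 0xf71d02ae8ec46))
 (c (a (nat_lit 0xe70accdf94b8ac7)) e
 (c (a (nat_lit 0x1bcb161bcda88008)) e
 (c (a (nat_lit 0x8eefb8660000008)) e e)))
 (c (a (nat_lit 0x12b2af8d8f5247))
 (c (a (nat_lit 0x9f91b35c9200008)) e e)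
 (c (a (nat_lit 0xbe7eb49712626)) e
 (c (a (nat_lit 0x112f7078020945)) e
 (c (a (nat_lit 0x988352d2d1de6)) e
 (c (a (nat_lit 0x22404c5702fc7)) e
 (c (a (nat_lit 0xcce935696c6c7)) e
 (c (a (nat_lit 0xd117ad3e24f47)) e
 (c (a (nat_lit 0xa332da4470008)) e
 (c (a (nat_lit 0x11524140000007)) e e))))))))))
 (c (a (nat_lit 0x454f4b4a8e7))
 (c (a (nat_lit 0x9f73272fa9286))
 (c (a (nat_lit 0x1554f60800000007)) e e)
 (c (a (nat_lit 0x969d2d9864d26)) e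
 (c (a (nat_lit 0xbf957c58cbe86)) e
 (c z e
 (c (b (nat_lit 0x13f1dffbf9c026)) e
 (c (a (nat_lit 0xbedf150b15ae8)) e
 (c (a (nat_lit 0x9ef8c50164988)) e
 (c (a (nat_lit 0x13714e0f800008)) e e))))))))
 (c (a (nat_lit 0x1fbf1f2aa6c6))
 (c (a (nat_lit 0x903b822e28aa5)) e
 (c (a (nat_lit 0x7db86c5690d26)) e
 (c z e
 (c z e
 (c (a (nat_lit 0x7a7278cb648a8)) e
 (c (a (nat_lit 0x403ea70644008)) e e))))))
 (c (a (nat_lit 0xd30e7032326))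
 (c (a (nat_lit 0xae504870439c6)) e
 (c (a (nat_lit 0x3e3e74656b9e8)) e
 (c (a (nat_lit 0x43448df761c8)) e
 (c (a (nat_lit 0x1a14856004168)) e
 (c (a (nat_lit 0x22ab320400008)) e e)))))
 (c (a (nat_lit 0x1043e3e40405))
 (c (a (nat_lit 0xa3a4b0718408)) e
 (c (a (nat_lit 0x223ed53654009)) e
 (c (a (nat_lit 0x3341d6800a008)) e
 (c (a (nat_lit 0x13d8c5a0000008)) e e))))
 (c (a (nat_lit 0x5054565dde2))
 (c (a (nat_lit 0x4e910a6212268)) e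
 (c (a (nat_lit 0x9fc86c0800008)) e
 (c (a (nat_lit 0x1b248000000008)) e e)))
 (c (a (nat_lit 0xacacaf0eb84))
 (c (a (nat_lit 0x13216160000008)) e
 (c (a (nat_lit 0x1ac00000000005)) e e))
 (c (a (nat_lit 0x4a8d25254e5)) e
 (c (a (nat_lit 0xf917171d0c8)) e
 (c (a (nat_lit 0xf3171b1b1a5)) e
 (c (a (nat_lit 0x464648001)) e
 (c (a (nat_lit 0x686a6809503)) e
 (c (a (nat_lit 0x6a680b50a23)) e
 (c (a (nat_lit 0x1246399a6002)) e
 (c (a (nat_lit 0x19f616963583)) e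
 (c (a (nat_lit 0x142e1402001)) e
 (c (a (nat_lit 0x42140000001)) e e))))))))))))))))))
 C160))) Tr.c Tr.e (nat_lit 0) C.cx C.cy
noncomputable def C162 : Tr := beta% (fun (c : Nat → Tr → Tr → Tr) (e : Tr) (z : Nat) (a b : Nat → Nat) =>
 (c (a (nat_lit 0x20002001))
 (c (a (nat_lit 0x1bfcbccaeaeae4))
 (c z e
 (c z e
 (c z e
 (c (a (nat_lit 0x40667094890f207))
 (c (a (nat_lit 0x5e766c6884b649de8)) e
 (c (a (nat_lit 0xb48a7ea6caa308009)) e e))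
 (c z e
 (c z e
 (c (a (nat_lit 0xc6c3213d5b33f26)) e
 (c (a (nat_lit 0x5896b0b072d34a7)) e
 (c z e
 (c z e
 (c (a (nat_lit 0x8a46c5a0fa2a3c7)) e e)))))))))))
 (c (a (nat_lit 0x13b3c020202025)) e
 (c (a (nat_lit 0x120020202040a5))
 (c z e
 (c z e
 (c z e
 (c z e
 (c (a (nat_lit 0x2618366140027)) e
 (c z e
 (c z e
 (c (a (nat_lit 0x7adf62dac5269c7)) e e))))))))
 (c (a (nat_lit 0xcccccccef72a5))
 (c (a (nat_lit 0x6c4a98b8b52d467))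
 (c z e
 (c (a (nat_lit 0xf13cdd6e000000009)) e e))
 (c (a (nat_lit 0x82ded31539e5568))
 (c (a (nat_lit 0x18150ee00000000009)) e e)
 (c (a (nat_lit 0x5894af110da45e7)) e
 (c (a (nat_lit 0x17f8d9bd7f46f947)) e
 (c (a (nat_lit 0x6a748966204c608)) e
 (c z e
 (c z e
 (c (a (nat_lit 0x12ad20e120000008)) e
 (c (a (nat_lit 0x1de2000000000007)) e e)))))))))
 (c (a (nat_lit 0x11717192582665))
 (c (a (nat_lit 0xdebb010b20c7108)) e
 (c z e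
 (c (a (nat_lit 0x17385fb713985167)) e
 (c z e
 (c z e
 (c z e
 (c (a (nat_lit 0x1587254000000008)) e e)))))))
 (c (b (nat_lit 0x13539fffffffe3)) e
 (c (a (nat_lit 0x10a891e9e22565))
 (c (a (nat_lit 0x179c2e928ed24d46)) e
 (c (a (nat_lit 0x11a265e5644545a8)) e e))
 (c (a (nat_lit 0x3325a4c86a84))
 (c (a (nat_lit 0x1576b8cf95cf6005)) e e)
 (c (b (nat_lit 0x187fffffebe043)) e
 (c (b (nat_lit 0xd0c7ff1a0ae44)) e
 (c (a (nat_lit 0x1110d609f9f0a4)) e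
 (c (a (nat_lit 0xbae36718a07a5)) e
 (c z e
 (c (a (nat_lit 0x1554b4aeb57864)) e
 (c (a (nat_lit 0x19fa187dbe9ec6)) e
 (c (a (nat_lit 0xc0a8fd090e826)) e
 (c (a (nat_lit 0xb307148e00006)) e
 (c (a (nat_lit 0x1ff0e000000005)) e e))))))))))))))))))
 (c (a (nat_lit 0x2020202021))
 (c (a (nat_lit 0x19276767676865))
 (c (a (nat_lit 0xfd2ab07cfcfdb65))
 (c z e
 (c z e
 (c (a (nat_lit 0x180a567a42b3750a8)) e
 (c (a (nat_lit 0x9aa6a66ed918c2009)) e e))))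
 (c z e
 (c z e
 (c (a (nat_lit 0xaac0b8ddb7bb8c8)) e
 (c z e
 (c (a (nat_lit 0x88c9150ea59e8c8)) e
 (c z e
 (c (a (nat_lit 0x13d3ed6fb44762e7)) e e))))))))
 (c (b (nat_lit 0x206060bff782)) e
 (c (b (nat_lit 0xf2f335ff0c286)) e
 (c (a (nat_lit 0x1eded4fd910a46))
 (c (a (nat_lit 0xab0106fcbcb6cc9)) e
 (c z e
 (c z e
 (c z e
 (c (a (nat_lit 0x1413d1356d8b8008)) e e)))))
 (c z e
 (c z e
 (c z e
 (c (a (nat_lit 0x9863077d11ca4)) e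
 (c z e
 (c (b (nat_lit 0x5963fe501a2c6)) e
 (c (a (nat_lit 0x1f5cf8383858e7)) e
 (c z e
 (c (a (nat_lit 0xff070ad349666)) e
 (c z e
 (c (a (nat_lit 0xa4a5014490007)) e
 (c (a (nat_lit 0xc720b40000007)) e e))))))))))))))))
 (c (nat_lit 1)
 (c (a (nat_lit 0xf8f9f1b7b8145)) e
 (c (b (nat_lit 0xf3c1ff67fffe6)) e e))
 (c (a (nat_lit 0xc0c0c0c0c1))
 (c (a (nat_lit 0x1a0cd1ce28e905))
 (c (a (nat_lit 0xf8cf874bc1e7ca6)) e
 (c (a (nat_lit 0xb6f9030ce6f8da9)) e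
 (c z e
 (c (a (nat_lit 0xb50a993ef6768e8)) e
 (c (a (nat_lit 0x1368acc8c6c682e8)) e e)))))
 (c (a (nat_lit 0x101c12f4c3e005))
 (c (a (nat_lit 0x1052904faf6f4d09)) e
 (c (a (nat_lit 0x19bb541c9b29cf69)) e
 (c (a (nat_lit 0x134b77b2682a6d09)) e e)))
 (c (a (nat_lit 0x1d1895a80c6a25)) e
 (c (a (nat_lit 0x116cce09154a64))
 (c (a (nat_lit 0x1e378ad015a8a007)) e
 (c (a (nat_lit 0x11086eea60000008)) e e))
 (c (a (nat_lit 0x12186324b5405))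
 (c (a (nat_lit 0xa72870000000006)) e e)
 (c z e
 (c z e
 (c (a (nat_lit 0x467f027c04566)) e
 (c (a (nat_lit 0xc157048464006)) e
 (c (a (nat_lit 0x10171314127b86)) e
 (c (a (nat_lit 0xa01eee3d78005)) e
 (c (a (nat_lit 0x5cbe9d3c44006)) e e))))))))))))
 (c (a (nat_lit 0x6060606061))
 (c (a (nat_lit 0x1494b446e023c5))
 (c (a (nat_lit 0x142c740d8f750e67)) e
 (c (a (nat_lit 0x1b5ef7f6d1381128)) e
 (c (a (nat_lit 0x16d91411725beee8)) e e)))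
 (c (a (nat_lit 0xc2d2683e1f566))
 (c (a (nat_lit 0xfadccc86e889009)) e e)
 (c (a (nat_lit 0x72300211733e6)) e
 (c (a (nat_lit 0x442a4b8964026)) e
 (c (a (nat_lit 0x425fa39602a86)) e
 (c z e
 (c (a (nat_lit 0xa9ed6ab27dde6)) e
 (c (a (nat_lit 0x116aa8002d74e6)) e
 (c (a (nat_lit 0xa68c052927146)) e
 (c (a (nat_lit 0x3e3d212b04b86)) e e))))))))))
 (c (a (nat_lit 0x20202030e6))
 (c (a (nat_lit 0x3e05070723e06))
 (c (a (nat_lit 0x110a2df60af6a8e7)) e e)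
 (c z e
 (c z e
 (c z e
 (c z e
 (c (a (nat_lit 0x2b2214021a168)) e
 (c (b (nat_lit 0x1141a0c0a2bfe8)) e e)))))))
 (c (a (nat_lit 0xe0e0f40d26))
 (c (a (nat_lit 0x3e3de51c73064)) e
 (c (b (nat_lit 0x13faf2f49ff545)) e
 (c z e
 (c z e
 (c (a (nat_lit 0x2280a0d5e725)) e
 (c (b (nat_lit 0x6c4830d3ffb27)) e
 (c z e
 (c (a (nat_lit 0x1a72131a00007)) e
 (c (a (nat_lit 0x1186e000000006)) e e)))))))))
 (c (a (nat_lit 0x4243919d805))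
 (c (a (nat_lit 0x1332f163fada65)) e
 (c z e
 (c z e
 (c (a (nat_lit 0x412062639208)) e
 (c z e
 (c z e
 (c (a (nat_lit 0x76831a0000008)) e
 (c (a (nat_lit 0x1d000000000005)) e e))))))))
 (c (a (nat_lit 0x37838372605))
 (c (a (nat_lit 0x26226b0e9326)) e
 (c z e
 (c z e
 (c (b (nat_lit 0x1fffe8af1942a8)) e e))))
 (c (a (nat_lit 0x127252818185)) e
 (c (a (nat_lit 0x1bfca0202004))
 (c (a (nat_lit 0x5111e7e0cc387)) e
 (c (a (nat_lit 0x6cdf2a3c00009)) e e))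
 (c (a (nat_lit 0x1e2020202024))
 (c (a (nat_lit 0xc952300000008)) e e)
 (c (a (nat_lit 0x2020203404)) e
 (c (b (nat_lit 0x20203ff245)) e
 (c (a (nat_lit 0x10908e978fe6)) e
 (c (a (nat_lit 0xdac50cd2d26)) e
 (c (b (nat_lit 0x1ffe20406083)) e
 (c (a (nat_lit 0x1de020606be3)) e
 (c (a (nat_lit 0x60573422)) e
 (c (a (nat_lit 0x56f3e142)) e
 (c (a (nat_lit 0xb36d54c0003)) e e)))))))))))))))))))))) Tr.c Tr.e (nat_lit 0) C.cx C.cy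
noncomputable def C163 : Tr := beta% (fun (c : Nat → Tr → Tr → Tr) (e : Tr) (z : Nat) (a b : Nat → Nat) =>
 (c (a (nat_lit 0x2020202021))
 (c (a (nat_lit 0x17394f3a64646))
 (c z e
 (c z e
 (c z e
 (c z e
 (c z e
 (c z e
 (c z e
 (c (a (nat_lit 0xa69b1b1f12752e7)) e
 (c (a (nat_lit 0x56586294349d508)) e
 (c (a (nat_lit 0x567c8a3acd6e6a8)) e e))))))))))
 (c (a (nat_lit 0x1030ae86c6c6c8))
 (c z e
 (c z e
 (c z e
 (c z e
 (c z e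
 (c z e
 (c (a (nat_lit 0x142246605e41549)) e e)))))))
 (c (a (nat_lit 0x165260c0202026)) e
 (c (a (nat_lit 0x13e02020202606))
 (c (a (nat_lit 0x8e29c14c8a9da7))
 (c z e
 (c (a (nat_lit 0xfee37303f00000009)) e e))
 (c (a (nat_lit 0x7a6a3e5e90ed4e9))
 (c (a (nat_lit 0xdb0af4ac00000000a)) e e)
 (c z e
 (c z e
 (c z e
 (c z e
 (c z e
 (c (a (nat_lit 0x8f515a262200008)) e
 (c (a (nat_lit 0x1011626000000009)) e e)))))))))
 (c (b (nat_lit 0x2040419fffe1))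
 (c (a (nat_lit 0xdeccbf272152d88))
 (c (a (nat_lit 0xf9225400000000009)) e e)
 (c z e
 (c z e
 (c z e
 (c z e
 (c z e
 (c (a (nat_lit 0x15d925e180000008)) e
 (c (a (nat_lit 0x1664000000000009)) e e))))))))
 (c (a (nat_lit 0xfeff0d8150006))
 (c z e
 (c (a (nat_lit 0xf5af6b9f2118a48)) e e))
 (c (b (nat_lit 0xbedbff9fffda5)) e
 (c z e
 (c z e
 (c (a (nat_lit 0x80ff7d1d0ccc6)) e
 (c (a (nat_lit 0xfd0b1504c8a86)) e
 (c (a (nat_lit 0x143455b5104626)) e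
 (c z e
 (c z e
 (c z e
 (c z e
 (c (a (nat_lit 0x1875a061206004)) e
 (c (a (nat_lit 0x16a0e0c0000004)) e e))))))))))))))))))
 (c (a (nat_lit 0x2040404041))
 (c (a (nat_lit 0x1411c020202025)) e
 (c (a (nat_lit 0x1f802020202de5))
 (c z e
 (c z e
 (c z e
 (c z e
 (c (b (nat_lit 0x465e43feef80087)) e e)))))
 (c (b (nat_lit 0x10141c37fffe1)) e
 (c (b (nat_lit 0x173758ffe70005)) e
 (c (b (nat_lit 0x13f5badfffffe5)) e
 (c z e
 (c z e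
 (c z e
 (c z e
 (c z e
 (c z e
 (c z e
 (c z e
 (c z e
 (c z e
 (c (a (nat_lit 0x14b076a0200004)) e e))))))))))))))))
 (c (a (nat_lit 0x2040402021))
 (c (b (nat_lit 0x204060bff821))
 (c z e
 (c z e
 (c z e
 (c z e
 (c z e
 (c z e
 (c (a (nat_lit 0x6ce799a567ca67)) e e)))))))
 (c (a (nat_lit 0xb8bb954ce2786)) e
 (c z e
 (c z e
 (c z e
 (c z e
 (c z e
 (c z e
 (c z e
 (c z e
 (c z e
 (c z e
 (c (b (nat_lit 0x3d9bfffffe5)) e e)))))))))))))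
 (c (a (nat_lit 0xe0e0e0e0e1))
 (c (a (nat_lit 0xe90f10ded0ae6))
 (c z e
 (c (a (nat_lit 0x10307a9eb6727ac8)) e
 (c z e
 (c (a (nat_lit 0xd0f94e8d46a0548)) e e))))
 (c (a (nat_lit 0x1917b16fab0b06))
 (c (a (nat_lit 0xe565e9415773128)) e
 (c (a (nat_lit 0x13f8f3f95c3348c9)) e
 (c (a (nat_lit 0x1411aeb4cd072869)) e e)))
 (c (a (nat_lit 0x134c8a02a202e6))
 (c (a (nat_lit 0xbac2ff2ef6808e9)) e e)
 (c (a (nat_lit 0x1a040404132c6)) e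
 (c (a (nat_lit 0x202021349646))
 (c (a (nat_lit 0xe33782620000007)) e e)
 (c (a (nat_lit 0x20d45609c6)) e
 (c z e
 (c (a (nat_lit 0xf08fb1d890205)) e
 (c (a (nat_lit 0xb319446c02146)) e
 (c (a (nat_lit 0xb742f8966e606)) e
 (c (a (nat_lit 0x15c380aae04004)) e
 (c (a (nat_lit 0x1432d7d9fb4b85)) e e))))))))))))
 (c (a (nat_lit 0x2020202021))
 (c (a (nat_lit 0x10c40040402004))
 (c (a (nat_lit 0xd758fd6ceee3067)) e
 (c (a (nat_lit 0x1554b89350ee1309)) e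
 (c (a (nat_lit 0xb900c2a08a73209)) e
 (c (a (nat_lit 0x15b4b35317902008)) e e))))
 (c (a (nat_lit 0x108120e0e0d743))
 (c (a (nat_lit 0x185bd7144e9671c9)) e
 (c (a (nat_lit 0x1410ecaaee8ea9aa)) e e))
 (c (a (nat_lit 0xc020404a93c4))
 (c (a (nat_lit 0x11cb696b6f244008)) e
 (c (a (nat_lit 0x12ec1c1380000008)) e e))
 (c (a (nat_lit 0x2040658b3545))
 (c (a (nat_lit 0x8d3e76000000008)) e e)
 (c (a (nat_lit 0x307ebf94525)) e
 (c z e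
 (c (a (nat_lit 0x5b35f14808005)) e
 (c (a (nat_lit 0x8da75e9a026a5)) e
 (c (a (nat_lit 0x1f9a7a608ea9a5)) e
 (c (a (nat_lit 0x8040256afec5)) e e))))))))))
 (c (a (nat_lit 0x4040404041))
 (c (a (nat_lit 0x2060835d22))
 (c (a (nat_lit 0x1e78168e11cdd9e7)) e e)
 (c (a (nat_lit 0x2020231866))
 (c (a (nat_lit 0xe96755c29600007)) e
 (c (a (nat_lit 0x1256ef4000000008)) e e))
 (c (a (nat_lit 0x42830156ad46))
 (c (a (nat_lit 0x1668e00000000007)) e e)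
 (c z e
 (c z e
 (c (a (nat_lit 0x1b93286418c06)) e
 (c (a (nat_lit 0xd09c5a02031a7)) e
 (c (a (nat_lit 0xb4763e4671927)) e
 (c (b (nat_lit 0x88d7ffe20e025)) e
 (c (a (nat_lit 0xef29f4c800006)) e
 (c (a (nat_lit 0x18b2c000000006)) e e)))))))))))
 (c (a (nat_lit 0x2020203f25))
 (c (a (nat_lit 0x4646b0c4b3305)) e
 (c (a (nat_lit 0xf1c3d57f98c04)) e
 (c z e
 (c z e
 (c (a (nat_lit 0x73a2881993364)) e
 (c (a (nat_lit 0x46321e0261228)) e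
 (c z e
 (c (a (nat_lit 0x6e38452358004)) e
 (c (a (nat_lit 0xf510f80000005)) e e)))))))))
 (c (a (nat_lit 0x20202bd005))
 (c (a (nat_lit 0x17135188b3b8c5)) e
 (c (a (nat_lit 0xae5832aecb686)) e
 (c z e
 (c (a (nat_lit 0x782c9dbf525)) e
 (c z e
 (c z e
 (c (a (nat_lit 0x90b8c93200008)) e
 (c (a (nat_lit 0x17ea8000000006)) e e))))))))
 (c (a (nat_lit 0x1414e930985))
 (c (b (nat_lit 0x260dfe9568705)) e
 (c z e
 (c z e
 (c z e
 (c z e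
 (c z e
 (c (a (nat_lit 0x1aa00000000005)) e e)))))))
 (c (a (nat_lit 0x674158e6205)) e
 (c (a (nat_lit 0x1214cee02025))
 (c (a (nat_lit 0x424c850900688)) e
 (c (a (nat_lit 0x42a7292836009)) e
 (c (a (nat_lit 0x957ec40000009)) e e)))
 (c (a (nat_lit 0x12ae20202025))
 (c (a (nat_lit 0x11d655a3200008)) e
 (c (a (nat_lit 0x1cee6000000009)) e e))
 (c (a (nat_lit 0x1b8020202024)) e
 (c (a (nat_lit 0x202033e5)) e
 (c (a (nat_lit 0x2031a445)) e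
 (c (a (nat_lit 0x309b5d4d223)) e
 (c (a (nat_lit 0x9fe624c3e4)) e
 (c (a (nat_lit 0x1be1a0402004)) e
 (c (a (nat_lit 0xc61e0606001)) e
 (c (a (nat_lit 0x3210120a001)) e
 (c (a (nat_lit 0x7e827c2a3e1)) e
 (c (a (nat_lit 0x9898302a001)) e
 (c (a (nat_lit 0x680e0000001)) e e)))))))))))))))))))))))) Tr.c Tr.e (nat_lit 0) C.cx C.cy
noncomputable def C164 : Tr := beta% (fun (c : Nat → Tr → Tr → Tr) (e : Tr) (z : Nat) (a b : Nat → Nat) =>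
 (c (a (nat_lit 0x20202021))
 (c (a (nat_lit 0x2020202021))
 (c (a (nat_lit 0x1e1e1f7fc74c4))
 (c z e
 (c z e
 (c z e
 (c z e
 (c (a (nat_lit 0x300e0c332f6ab05))
 (c z e
 (c (a (nat_lit 0xf7d97e98786eae988)) e
 (c (a (nat_lit 0x19b6e60223a40ae948)) e
 (c (a (nat_lit 0x1362c0e22063600008)) e e))))
 (c (a (nat_lit 0x120e164456b9d05))
 (c (a (nat_lit 0x15cfa9e9e7cc2afe48)) e e)
 (c (a (nat_lit 0x14201e273f345e5)) e
 (c z e
 (c z e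
 (c z e
 (c (a (nat_lit 0x9c9c6ab0e2415c5)) e
 (c (a (nat_lit 0x3212163a180b347)) e
 (c (a (nat_lit 0xa120234d7ed867)) e
 (c (a (nat_lit 0x525042ad0e8a008)) e
 (c (a (nat_lit 0x928aa12a0000007)) e e)))))))))))))))
 (c (a (nat_lit 0x16172951124e6))
 (c z e
 (c z e
 (c z e
 (c z e
 (c z e
 (c z e
 (c z e
 (c (a (nat_lit 0x98729ce8d6a70a6)) e
 (c z e
 (c (a (nat_lit 0x50465e684a69e28)) e e))))))))))
 (c (a (nat_lit 0x178faf50564e6))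
 (c z e
 (c z e
 (c z e
 (c z e
 (c z e
 (c z e
 (c (a (nat_lit 0x47083969a90947)) e
 (c (a (nat_lit 0x525560a63e86607)) e e))))))))
 (c (a (nat_lit 0x1adc93c6050506))
 (c z e
 (c z e
 (c z e
 (c z e
 (c z e
 (c (a (nat_lit 0x2a822e103451948)) e e))))))
 (c (a (nat_lit 0x1e79c621616165))
 (c (a (nat_lit 0x54a562f88b25206))
 (c (a (nat_lit 0xa8ae6666effd948e7)) e
 (c (a (nat_lit 0x5448488908a800009)) e e))
 (c (a (nat_lit 0x4ac7a3870b9c47))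
 (c (a (nat_lit 0x80e901b2900000009)) e e)
 (c (a (nat_lit 0xa8b0769cad2cfe8)) e
 (c (a (nat_lit 0x6e547ca2a973a27)) e
 (c z e
 (c z e
 (c (a (nat_lit 0x405799884b987e7)) e
 (c (a (nat_lit 0x306cdb545a18008)) e
 (c (a (nat_lit 0xb8b7043e0000009)) e e)))))))))
 (c (a (nat_lit 0x14002020202aa5))
 (c (a (nat_lit 0x84887e7ab8b5dc7))
 (c (a (nat_lit 0x98a11830000000009)) e e)
 (c (a (nat_lit 0x625858728eb5009)) e
 (c z e
 (c z e
 (c z e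
 (c z e
 (c (a (nat_lit 0x7ce5ba881c00008)) e
 (c (a (nat_lit 0xcf524e000000009)) e e))))))))
 (c (a (nat_lit 0x16161619d81e4))
 (c z e
 (c (a (nat_lit 0xa2bcf2d3412f508)) e
 (c z e
 (c z e
 (c z e
 (c (a (nat_lit 0x1318e7a080000008)) e
 (c (a (nat_lit 0x1465200000000009)) e e)))))))
 (c (a (nat_lit 0x181a350638025))
 (c (a (nat_lit 0x9a52fb6752a2826)) e
 (c (a (nat_lit 0x9cd5f8da8e50027)) e e))
 (c (a (nat_lit 0x1a35326d0eb65))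
 (c (a (nat_lit 0x9daebc48340e5c7)) e e)
 (c z e
 (c (a (nat_lit 0x16f377f4d49025)) e
 (c (a (nat_lit 0x133a15f56ac9e4)) e
 (c (a (nat_lit 0x16b494743410a5)) e
 (c (a (nat_lit 0x1edebebe51ae65)) e
 (c (a (nat_lit 0x1bfbfbb7f7cd86)) e
 (c (a (nat_lit 0x1614d2b0d30c24)) e
 (c (b (nat_lit 0x10ac88cddfe243)) e
 (c (a (nat_lit 0x1d599e91930f63)) e
 (c (a (nat_lit 0xdd2c603c00003)) e
 (c (a (nat_lit 0x10626000000003)) e e))))))))))))))))))))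
 C163)
 (c (nat_lit 1) C162
 (c (nat_lit 1)
 (c (a (nat_lit 0x4040404041))
 (c (a (nat_lit 0x101010101069e4))
 (c z e
 (c z e
 (c z e
 (c (a (nat_lit 0x848074cd56f08c7)) e
 (c (a (nat_lit 0xd4d5018513208c7)) e
 (c (a (nat_lit 0xaaab0a990e50ba7)) e
 (c (a (nat_lit 0xa6fe9f549ada787)) e
 (c (a (nat_lit 0x19524aaca8692d46)) e e))))))))
 (c (b (nat_lit 0x15555bfff1a065))
 (c z e
 (c z e
 (c z e
 (c (a (nat_lit 0x469d5b3ec028f28)) e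
 (c z e
 (c (a (nat_lit 0x643390f2c03c0a7)) e
 (c (a (nat_lit 0x921f0c4e38167e8)) e e)))))))
 (c (b (nat_lit 0x125edfffffffe4))
 (c z e
 (c z e
 (c z e
 (c z e
 (c (a (nat_lit 0x47774c92140ea07)) e e)))))
 (c (a (nat_lit 0x18ce2ed0c92a85))
 (c (a (nat_lit 0x13b72fee6ead9128)) e
 (c z e
 (c z e
 (c (a (nat_lit 0x17cef34e8e66e247)) e
 (c (a (nat_lit 0x12ed53b250c00007)) e e)))))
 (c (a (nat_lit 0x102aa749648be5))
 (c (a (nat_lit 0x102b45f3090bd027)) e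
 (c z e
 (c z e
 (c (a (nat_lit 0x1fee785680000007)) e e))))
 (c (a (nat_lit 0xc28f1efeb4165)) e
 (c (a (nat_lit 0x192115a8cbc24)) e
 (c (a (nat_lit 0xcac75e8d4ade4)) e
 (c z e
 (c (a (nat_lit 0x2010e096f53c4)) e
 (c (a (nat_lit 0xdd06ef20f8ba5)) e
 (c (a (nat_lit 0x906a9c9f308a5)) e
 (c (a (nat_lit 0xf50f0ed0b7266)) e
 (c (a (nat_lit 0x8e8e8e93044e6)) e
 (c (a (nat_lit 0x1ebedf96e00005)) e
 (c (a (nat_lit 0x10a8a000000005)) e e))))))))))))))))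
 (c (a (nat_lit 0x2020202021))
 (c (a (nat_lit 0x1159135349c786)) e
 (c z e
 (c (a (nat_lit 0x164e89a9900005))
 (c (a (nat_lit 0x18167332b2f2b169)) e e)
 (c (a (nat_lit 0x9041137fca025)) e
 (c z e
 (c z e
 (c z e
 (c z e
 (c (b (nat_lit 0x729fe5260326)) e
 (c (a (nat_lit 0x11826f06c12065)) e
 (c (a (nat_lit 0x9ccec4c9180c7)) e
 (c z e
 (c (a (nat_lit 0x70690c0602006)) e e)))))))))))))
 (c (a (nat_lit 0xa0a0a0a0a1))
 (c (a (nat_lit 0x15ba5413e22884))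
 (c (a (nat_lit 0x60aa587f22ac567)) e
 (c (a (nat_lit 0x1db595fc39768f48)) e
 (c z e
 (c (a (nat_lit 0xbdbac0b62f54827)) e e))))
 (c (a (nat_lit 0x12b0b13207e066))
 (c (a (nat_lit 0x171495b8998ebbc8)) e e)
 (c z e
 (c z e
 (c z e
 (c z e
 (c (b (nat_lit 0x1ffff9a04e97c4)) e
 (c (a (nat_lit 0x1def66f2783225)) e
 (c (a (nat_lit 0x1027476de12265)) e e)))))))))
 (c (a (nat_lit 0x20202030a6))
 (c (a (nat_lit 0x147458e2a5e5e5))
 (c (a (nat_lit 0xc6ccc70abb211e7)) e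
 (c (a (nat_lit 0x1054904955132808)) e e))
 (c z e
 (c z e
 (c (a (nat_lit 0xed11c1ead2006)) e
 (c (a (nat_lit 0x5f09360219126)) e
 (c (a (nat_lit 0x14d8480572fb26)) e
 (c (a (nat_lit 0xaac4c09955227)) e
 (c (a (nat_lit 0x765250e32e1e7)) e e))))))))
 (c (a (nat_lit 0x2020309086))
 (c z e
 (c z e
 (c z e
 (c (a (nat_lit 0x7304dafe81446)) e
 (c z e
 (c (a (nat_lit 0x402a473106e86)) e
 (c (a (nat_lit 0xc0a8df3662547)) e e)))))))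
 (c (a (nat_lit 0x1a1bad60f06)) e
 (c (a (nat_lit 0x63594ce07e6))
 (c (b (nat_lit 0x96affef918e66)) e
 (c (a (nat_lit 0x4c60aac2d3667)) e
 (c z e
 (c z e
 (c (a (nat_lit 0x8072b308461c8)) e e)))))
 (c (a (nat_lit 0x10d1cac4c4c6))
 (c (a (nat_lit 0xa8aed4f94b6c7)) e
 (c z e
 (c (a (nat_lit 0x126917e506b27)) e
 (c (b (nat_lit 0x1ff19e4fc04007)) e e))))
 (c (a (nat_lit 0x1f1f87a7a7a4))
 (c z e
 (c (b (nat_lit 0x1ff1dff5b66527)) e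
 (c (a (nat_lit 0x18da73cec00007)) e e)))
 (c (a (nat_lit 0x18a020202004))
 (c (a (nat_lit 0xec83c29a3a007)) e
 (c (a (nat_lit 0x1cb3a5e0000007)) e e))
 (c (a (nat_lit 0x20203184))
 (c (a (nat_lit 0x1e1a000000001)) e e)
 (c (a (nat_lit 0x202031a4a4)) e
 (c (a (nat_lit 0xcccd2b3d566)) e
 (c (a (nat_lit 0x15d393f731c5)) e
 (c (a (nat_lit 0xcb0c0604fa2)) e
 (c (a (nat_lit 0x8c020287303)) e
 (c (a (nat_lit 0x2032a983)) e
 (c (a (nat_lit 0xa0b3aaa023)) e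
 (c (a (nat_lit 0x1c2c0c053e1)) e
 (c (a (nat_lit 0x16d616502002)) e e))))))))))))))))))))
 C161)))) Tr.c Tr.e (nat_lit 0) C.cx C.cy
noncomputable def C165 : Tr := beta% (fun (c : Nat → Tr → Tr → Tr) (e : Tr) (z : Nat) (a b : Nat → Nat) =>
 (c (a (nat_lit 0x4040404041))
 (c (a (nat_lit 0x11208080808004))
 (c (a (nat_lit 0x108b30e38184b825))
 (c z e
 (c (a (nat_lit 0x5a146e2210a76e708)) e e))
 (c (a (nat_lit 0x60561a042541f27))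
 (c (a (nat_lit 0x3a82261e4f0c40009)) e e)
 (c z e
 (c z e
 (c z e
 (c z e
 (c (a (nat_lit 0x5872568524307e8)) e
 (c (a (nat_lit 0xe4c5aeaed234887)) e
 (c (a (nat_lit 0xbbf14c6e9000007)) e
 (c (a (nat_lit 0x12f3032000000008)) e e))))))))))
 (c (b (nat_lit 0x17d7d7d7ffe685)) e
 (c (a (nat_lit 0xc8c934bc62006))
 (c z e
 (c z e
 (c z e
 (c (b (nat_lit 0x15ef901fe8af3548)) e
 (c z e
 (c z e
 (c (a (nat_lit 0x16294a0000000007)) e e)))))))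
 (c (b (nat_lit 0xb19ffffffffe5)) e
 (c (b (nat_lit 0x104a665fe041c6)) e
 (c (a (nat_lit 0x42616142f566))
 (c (b (nat_lit 0x5fe79ad943e007)) e
 (c (a (nat_lit 0x6b27d1100000008)) e e))
 (c (a (nat_lit 0x3e3434537b106))
 (c (a (nat_lit 0x161a6ca000000007)) e e)
 (c (a (nat_lit 0x202477104d86)) e
 (c (a (nat_lit 0x7ebf93836c486)) e
 (c (a (nat_lit 0xaf1b2f1268107)) e
 (c z e
 (c (a (nat_lit 0x147b2c644a2d05)) e
 (c (a (nat_lit 0x1889458bae60c5)) e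
 (c (a (nat_lit 0xdcb1153e64685)) e
 (c (a (nat_lit 0x8d57b00200004)) e
 (c (a (nat_lit 0x180d6000000005)) e e))))))))))))))))
 (c (a (nat_lit 0xe0e0e0e0e1))
 (c (a (nat_lit 0x17575b544b2b25))
 (c z e
 (c z e
 (c z e
 (c z e
 (c (a (nat_lit 0xb07fcaf306caca8)) e
 (c (a (nat_lit 0x87d326c0b0cc5a8)) e e))))))
 (c (a (nat_lit 0x1152ab6a296827))
 (c (a (nat_lit 0x9cbb79851d1cca8)) e
 (c (a (nat_lit 0xcd4f9f87795b329)) e
 (c (a (nat_lit 0x111356b18f4ceb69)) e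
 (c (a (nat_lit 0xdb8eece8950f2e9)) e
 (c (a (nat_lit 0x19aa6b49106ae009)) e e)))))
 (c (a (nat_lit 0x19710e6e456566))
 (c (a (nat_lit 0xc8ed21090eeeca9)) e
 (c (a (nat_lit 0x14dc9717f4526ec9)) e e))
 (c (a (nat_lit 0x152be261c185a3))
 (c (a (nat_lit 0x122dae8aa4a82988)) e e)
 (c (a (nat_lit 0x2804040215365))
 (c (a (nat_lit 0x1304347b05000007)) e
 (c (a (nat_lit 0xabad08000000008)) e e))
 (c (a (nat_lit 0x40404193b325))
 (c (a (nat_lit 0x1acb000000000007)) e e)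
 (c (a (nat_lit 0x60463e78b785)) e
 (c (a (nat_lit 0x9ad557510c9c6)) e
 (c (a (nat_lit 0x14b7da154ca786)) e
 (c (a (nat_lit 0xcd6d9b50d2946)) e
 (c (a (nat_lit 0xc71abc0a822c5)) e
 (c (a (nat_lit 0x116ba7ef92b545)) e
 (c (a (nat_lit 0x13b017998e2005)) e
 (c (a (nat_lit 0xd952bc0000005)) e e))))))))))))))
 (c (a (nat_lit 0x808080a0a1))
 (c (a (nat_lit 0x1183a181402005))
 (c (a (nat_lit 0x62bcd6bf20b0ba7)) e
 (c (a (nat_lit 0xa4e8f334e4ce709)) e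
 (c (a (nat_lit 0x13793d3551f097e8)) e
 (c (a (nat_lit 0x1557d2f0b5f76fe8)) e
 (c (a (nat_lit 0xe6a4d502bc00008)) e e)))))
 (c (a (nat_lit 0x19e12080604004))
 (c (a (nat_lit 0x1397fb36130e52e9)) e
 (c (a (nat_lit 0x11f4306cccce6fca)) e
 (c (a (nat_lit 0x1c58537a19730009)) e
 (c (a (nat_lit 0xd90120be0000009)) e e))))
 (c (a (nat_lit 0x321e0e06177a2))
 (c (a (nat_lit 0x1c366e0ff56f8a08)) e
 (c (a (nat_lit 0xc662cf108000009)) e e))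
 (c (a (nat_lit 0x20402041d385))
 (c (a (nat_lit 0xa36f66920000008)) e e)
 (c (a (nat_lit 0x2384d737c5)) e
 (c z e
 (c (a (nat_lit 0x8b0ff9d598445)) e
 (c (a (nat_lit 0xcb597b2e7e3e5)) e
 (c (a (nat_lit 0x13d554f3e0c265)) e
 (c (a (nat_lit 0x1574546e627ce4)) e
 (c (a (nat_lit 0x62649ab32a2c6)) e
 (c (a (nat_lit 0x133697efc00006)) e
 (c (a (nat_lit 0x1e306000000005)) e e)))))))))))))
 (c (a (nat_lit 0x6060606061))
 (c (a (nat_lit 0x4a1a0e161a1c1))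
 (c (a (nat_lit 0x1456322eee320d08)) e
 (c (a (nat_lit 0x18944e3150b1ac29)) e
 (c (a (nat_lit 0xf6bd10fc7e00009)) e
 (c (a (nat_lit 0x15188e4000000008)) e e))))
 (c (a (nat_lit 0x40202061f625))
 (c (a (nat_lit 0x186b32ad55076008)) e
 (c (a (nat_lit 0x9f46ece40000009)) e e))
 (c (a (nat_lit 0x20202050ca25))
 (c (a (nat_lit 0x1b346bc000000008)) e e)
 (c (a (nat_lit 0x51858f6f64bc5)) e
 (c z e
 (c (a (nat_lit 0x4b0d978cda585)) e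
 (c (a (nat_lit 0x11b898d4c02105)) e
 (c (a (nat_lit 0x1e9dde4f2903a5)) e
 (c (a (nat_lit 0x10b0f1e023c045)) e
 (c (a (nat_lit 0xdae53762ba006)) e
 (c (a (nat_lit 0x913a4e0000005)) e
 (c (a (nat_lit 0x1d800000000004)) e e))))))))))))
 (c (a (nat_lit 0xc0c0c0c0c01))
 (c (a (nat_lit 0xe101676ef483))
 (c z e
 (c (a (nat_lit 0x1cfcbd8000000006)) e e))
 (c (a (nat_lit 0xb302e6e84a685))
 (c (a (nat_lit 0x154b200000000007)) e e)
 (c z e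
 (c z e
 (c (a (nat_lit 0x12b6e09267605)) e
 (c (a (nat_lit 0xd2ecd45e05826)) e
 (c (a (nat_lit 0xc0aadc76335e6)) e
 (c (a (nat_lit 0x2c3e401a19227)) e
 (c (a (nat_lit 0xb53d5eea00005)) e
 (c (a (nat_lit 0x190ee000000004)) e e))))))))))
 (c (a (nat_lit 0x20002001))
 (c (a (nat_lit 0xd2d4c474652e6)) e
 (c (a (nat_lit 0xac884e44971a7)) e
 (c (a (nat_lit 0x80d222c6e1c47)) e
 (c (b (nat_lit 0x3fe0412b9406)) e
 (c (a (nat_lit 0x23c464cb9227)) e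
 (c (a (nat_lit 0x818523229b48)) e
 (c (a (nat_lit 0xc13b16c384007)) e
 (c (a (nat_lit 0x10510220000006)) e
 (c (a (nat_lit 0x1dc00000000005)) e e)))))))))
 (c (a (nat_lit 0x3e3e3e82061))
 (c (a (nat_lit 0xd68678534fe06)) e
 (c (a (nat_lit 0x60021cc9c3d07)) e
 (c (b (nat_lit 0x1fffe795bd0f26)) e
 (c (a (nat_lit 0x184280ab4e8)) e
 (c (a (nat_lit 0x54bab4adc5028)) e
 (c z e
 (c (a (nat_lit 0x19e6e000000006)) e e)))))))
 (c (a (nat_lit 0x1d3d3e76c523))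
 (c (a (nat_lit 0x2024afd19187)) e e)
 (c (a (nat_lit 0x11f310678d84))
 (c (a (nat_lit 0x2062827b17228)) e
 (c (a (nat_lit 0x3e6499393e429)) e
 (c (a (nat_lit 0x98ad8acc00009)) e e)))
 (c (a (nat_lit 0x12b047262624))
 (c (a (nat_lit 0x4cbf5f4e28008)) e
 (c (a (nat_lit 0xf1d0e80000009)) e e))
 (c (a (nat_lit 0x58660604001))
 (c (a (nat_lit 0x1e2a2000000008)) e e)
 (c (a (nat_lit 0x6c0a0e04021)) e
 (c (a (nat_lit 0x4060407902)) e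
 (c (a (nat_lit 0x602078ec42)) e
 (c (a (nat_lit 0x17514d261)) e
 (c (a (nat_lit 0x322a08001)) e
 (c (a (nat_lit 0x40620c08001)) e
 (c (a (nat_lit 0x680c0c0c001)) e
 (c (a (nat_lit 0x20408001)) e
 (c (a (nat_lit 0x1e180a0a001)) e
 (c (a (nat_lit 0x2c200a00001)) e
 (c (a (nat_lit 0x1e000000001)) e e))))))))))))))))))))))) Tr.c Tr.e (nat_lit 0) C.cx C.cy
noncomputable def C166 : Tr := beta% (fun (c : Nat → Tr → Tr → Tr) (e : Tr) (z : Nat) (a b : Nat → Nat) =>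
 (c (a (nat_lit 0x4040404041))
 (c (a (nat_lit 0x2222222365a85))
 (c (a (nat_lit 0x3a3a44891ab4786))
 (c z e
 (c z e
 (c z e
 (c z e
 (c z e
 (c z e
 (c (a (nat_lit 0xc0b8a03d0f81426e8)) e
 (c (a (nat_lit 0x9038159db3dd2a847)) e
 (c (a (nat_lit 0x60316c8c5e82625a8)) e e)))))))))
 (c (b (nat_lit 0x5661ff868afac47)) e
 (c z e
 (c z e
 (c (a (nat_lit 0x1a42a18163955946))
 (c z e
 (c (a (nat_lit 0x13975f1aa5a5c86849)) e e))
 (c (a (nat_lit 0xe0402023869d27))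
 (c (a (nat_lit 0x1299990b0b0a0d9689)) e
 (c (a (nat_lit 0x1e5badeaafefb8574a)) e e))
 (c (a (nat_lit 0x6062c481703247))
 (c z e
 (c (a (nat_lit 0xb0509516860000009)) e e))
 (c (a (nat_lit 0x34489a94bd10206)) e
 (c (a (nat_lit 0x16193659159032a6)) e
 (c (a (nat_lit 0x17b457d4a82a98a6)) e
 (c z e
 (c (a (nat_lit 0x127340a10e6bcbc6)) e
 (c (a (nat_lit 0x140606021c5126a)) e
 (c z e
 (c (a (nat_lit 0x223cfd23dc00008)) e
 (c (a (nat_lit 0x17b3e90000000005)) e e))))))))))))))))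
 (c (a (nat_lit 0x20203c9e98a6))
 (c z e
 (c z e
 (c z e
 (c z e
 (c (a (nat_lit 0x2a2010529570828)) e
 (c z e
 (c z e
 (c z e
 (c z e
 (c z e
 (c (a (nat_lit 0x2218020c241b2aa)) e e)))))))))))
 (c (a (nat_lit 0x4051f42de407)) e
 (c (a (nat_lit 0x174b70f458527))
 (c z e
 (c z e
 (c z e
 (c z e
 (c z e
 (c z e
 (c z e
 (c (a (nat_lit 0x3c56c6af13fe008)) e e))))))))
 (c (a (nat_lit 0x10309143e20207))
 (c z e
 (c (a (nat_lit 0x3653a4984282ce8))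
 (c (a (nat_lit 0x7c84eb7b666e0000a)) e
 (c (a (nat_lit 0x94932cf800000000b)) e e))
 (c (a (nat_lit 0x5b84ec84b6eb608)) e
 (c (a (nat_lit 0x14aae82b6f0a6dc8)) e
 (c (a (nat_lit 0x12141a22220712a)) e
 (c z e
 (c z e
 (c (b (nat_lit 0x2019ff04be1408a)) e
 (c (a (nat_lit 0x165154f41c0000a)) e e)))))))))
 (c (a (nat_lit 0x13caa6e6c6c6c6))
 (c (a (nat_lit 0xcbe4f8eefd55947))
 (c (a (nat_lit 0x7f2d65be4c0000009)) e
 (c (a (nat_lit 0xd138d60000000000b)) e e))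
 (c (a (nat_lit 0xeea49096bce13a9)) e
 (c (a (nat_lit 0x826e76969cdbc49)) e
 (c z e
 (c z e
 (c z e
 (c (a (nat_lit 0x2c2d08f6581200a)) e
 (c (a (nat_lit 0xa151584e000000a)) e
 (c (a (nat_lit 0x13ec40000000000a)) e e)))))))))
 (c (a (nat_lit 0x6402020203005))
 (c (a (nat_lit 0xdac6c8e918fdf48)) e
 (c (a (nat_lit 0x66728a8a9b2f8a9)) e
 (c (a (nat_lit 0x6688a293b6e2ac9)) e
 (c z e
 (c z e
 (c (a (nat_lit 0x1541de840800009)) e
 (c (a (nat_lit 0x11f5c4800000000a)) e e)))))))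
 (c (b (nat_lit 0x2020203ffd66))
 (c (a (nat_lit 0x1c3e16491ea7c08)) e
 (c z e
 (c z e
 (c z e
 (c (a (nat_lit 0x199fd063c0000009)) e
 (c (a (nat_lit 0x168720000000000a)) e e))))))
 (c (a (nat_lit 0x12121a7b20687))
 (c (a (nat_lit 0x785f30520a204e9)) e e)
 (c (a (nat_lit 0x1826752870627)) e
 (c z e
 (c (a (nat_lit 0x43085854503e7)) e
 (c (a (nat_lit 0x172c2beb6b4b07)) e
 (c (a (nat_lit 0x1a19d9d9d96b86)) e
 (c (a (nat_lit 0x787933310efe8)) e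
 (c (a (nat_lit 0x12f2f250914d46)) e
 (c (a (nat_lit 0x1d7c359a725205)) e
 (c (a (nat_lit 0x17d1160d8d6e25)) e
 (c (a (nat_lit 0x7f1e181616004)) e
 (c (a (nat_lit 0x10602020000004)) e e))))))))))))))))))))
 (c (a (nat_lit 0x2020202021))
 (c (a (nat_lit 0x28291f2716786))
 (c z e
 (c z e
 (c z e
 (c z e
 (c z e
 (c z e
 (c z e
 (c (b (nat_lit 0x9f0fffff4960366)) e
 (c z e
 (c (a (nat_lit 0x7c9af748eb7d3c7)) e e))))))))))
 (c (a (nat_lit 0x175555206e6e7))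
 (c (a (nat_lit 0x34308f1c7a9c807))
 (c (a (nat_lit 0xf322c88eb0260c808)) e
 (c z e
 (c (a (nat_lit 0x108bc7c3a086ecc268)) e
 (c (a (nat_lit 0x1a5ed7b5b63a33f989)) e e))))
 (c z e
 (c z e
 (c z e
 (c z e
 (c z e
 (c z e
 (c z e
 (c z e
 (c z e
 (c (a (nat_lit 0x7e52a9c1e236009)) e e)))))))))))
 (c (a (nat_lit 0x11d1cb63030307)) e
 (c (a (nat_lit 0x161627e4040406))
 (c z e
 (c (b (nat_lit 0x1fef4a0549afbf08))
 (c (a (nat_lit 0x88ccf3568e000000a)) e e)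
 (c (a (nat_lit 0xab405c849ecece9)) e
 (c z e
 (c z e
 (c z e
 (c z e
 (c (a (nat_lit 0x3c350934442a009)) e
 (c (a (nat_lit 0x4325802c0000009)) e e)))))))))
 (c (a (nat_lit 0x1d204040204005))
 (c (a (nat_lit 0x96b2a8a8f34d108))
 (c (a (nat_lit 0xa6cd1c3c000000009)) e e)
 (c (a (nat_lit 0x15cb8baf9214fb49)) e
 (c z e
 (c z e
 (c z e
 (c z e
 (c (a (nat_lit 0x391b5a640e00009)) e
 (c (a (nat_lit 0x179f654000000009)) e e))))))))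
 (c (b (nat_lit 0x161636365fe0e3))
 (c (a (nat_lit 0x4e4e827e8f02f09)) e
 (c z e
 (c z e
 (c z e
 (c z e
 (c (a (nat_lit 0x10f4880080000009)) e
 (c (a (nat_lit 0x10c3a0000000000a)) e e)))))))
 (c (a (nat_lit 0xe0dee55f38005))
 (c (a (nat_lit 0xa68a9f23211a807)) e e)
 (c z e
 (c z e
 (c z e
 (c (a (nat_lit 0x16d93110d24f06)) e
 (c (a (nat_lit 0x1bb3d3b3f38e46)) e
 (c (a (nat_lit 0x1b9b9d1cafc026)) e
 (c z e
 (c z e
 (c (a (nat_lit 0x1573d2ca4a4a46)) e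
 (c (a (nat_lit 0x159382c2824245)) e
 (c (a (nat_lit 0x10e02020200005)) e e))))))))))))))))))
 (c (a (nat_lit 0x4040404041))
 (c (a (nat_lit 0x1716d026e6e6e6))
 (c (a (nat_lit 0x29eb0f0a21b965)) e
 (c z e
 (c z e
 (c z e
 (c z e
 (c z e
 (c z e
 (c (a (nat_lit 0x9672c32c9051087)) e
 (c z e
 (c (a (nat_lit 0x68c05f13b028147)) e
 (c (a (nat_lit 0x6c8322b00a00008)) e e)))))))))))
 (c (a (nat_lit 0x17f48020202025))
 (c z e
 (c z e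
 (c z e
 (c z e
 (c z e
 (c (b (nat_lit 0x2c1b717ff80ae6)) e
 (c (a (nat_lit 0x68b09288536c2c8)) e
 (c z e
 (c (a (nat_lit 0x329519584622008)) e
 (c (a (nat_lit 0x6d00d01c0000009)) e e))))))))))
 (c (a (nat_lit 0x1900808080a0a5))
 (c z e
 (c (a (nat_lit 0x3a5c5276b364b49))
 (c (a (nat_lit 0x14eec8c8c000000009)) e e)
 (c z e
 (c z e
 (c z e
 (c z e
 (c z e
 (c (b (nat_lit 0x1fecbb04a3600008)) e
 (c (a (nat_lit 0x1974418000000008)) e e)))))))))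
 (c (a (nat_lit 0x155555555164e5))
 (c (a (nat_lit 0x7c7876a704d6849))
 (c (a (nat_lit 0xdb105400000000008)) e e)
 (c z e
 (c z e
 (c z e
 (c z e
 (c z e
 (c (a (nat_lit 0xbb3e683e0000008)) e
 (c (a (nat_lit 0x1d41a00000000007)) e e))))))))
 (c (a (nat_lit 0x14b4b4d48947e5)) e
 (c (b (nat_lit 0x1bd1fffffffe1)) e
 (c (b (nat_lit 0xa7fee0ee97e25))
 (c (a (nat_lit 0xfce5cc792d08707)) e
 (c (a (nat_lit 0x1d384e7b37000007)) e e))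
 (c (a (nat_lit 0x19e643c61add85))
 (c (a (nat_lit 0xc8eb1ad40000007)) e e)
 (c z e
 (c (a (nat_lit 0x188db7fdfad25)) e
 (c (a (nat_lit 0x10195b79f24026)) e
 (c (a (nat_lit 0x1393740de366a7)) e
 (c z e
 (c (a (nat_lit 0x17312855e6c625)) e
 (c (a (nat_lit 0x14abb98a89e6a5)) e
 (c (a (nat_lit 0xc198aa9c36005)) e
 (c (a (nat_lit 0x1c2d4660000005)) e e)))))))))))))))))
 C165)))) Tr.c Tr.e (nat_lit 0) C.cx C.cy
noncomputable def C167 : Tr := beta% (fun (c : Nat → Tr → Tr → Tr) (e : Tr) (z : Nat) (a b : Nat → Nat) =>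
 (c z
 (c (a (nat_lit 0x46555b5b5b5bda3)) e
 (c (a (nat_lit 0x476767676b5986))
 (c z e
 (c z e
 (c z e
 (c z e
 (c (a (nat_lit 0xc79ee8a6f144a4887)) e
 (c (a (nat_lit 0xd48e9290a8c68d968)) e
 (c (a (nat_lit 0xb0b0b8bcb0b345f28)) e
 (c (a (nat_lit 0x2e2432141108eda08)) e
 (c (a (nat_lit 0x8a86864b30724c6a8)) e
 (c z e
 (c z e
 (c (a (nat_lit 0x38fb2468240000009)) e
 (c (a (nat_lit 0x14f6a4600000000009)) e e)))))))))))))
 (c (a (nat_lit 0x8c8c8ca34b630c4))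
 (c z e
 (c z e
 (c z e
 (c z e
 (c (a (nat_lit 0x7c6c6e7aca56d9068)) e
 (c (a (nat_lit 0x5a6664507cb9392e8)) e
 (c (a (nat_lit 0x48442e20a3012c628)) e
 (c z e
 (c z e
 (c z e
 (c (a (nat_lit 0x17ffce04a000000008)) e
 (c (a (nat_lit 0x14e4a0000000000009)) e e))))))))))))
 (c (a (nat_lit 0xdedf1597d97b564))
 (c z e
 (c z e
 (c z e
 (c z e
 (c (a (nat_lit 0x90c08f014151d0867)) e
 (c (a (nat_lit 0x606054f7116a722e8)) e e))))))
 (c z e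
 (c (a (nat_lit 0xe5030cb640389a3))
 (c z e
 (c z e
 (c (a (nat_lit 0x323d456a880a641a8)) e
 (c (a (nat_lit 0x6b6160fa6c5472608)) e
 (c (a (nat_lit 0x16c8c5c528e9458008)) e e)))))
 (c (a (nat_lit 0x14552fce2d8c49c3))
 (c z e
 (c (a (nat_lit 0x50fd46ee5e463e7a9)) e
 (c (a (nat_lit 0xc10aec443e522a3c9)) e
 (c (a (nat_lit 0x112f65280786600008)) e e))))
 (c (a (nat_lit 0x100a48c86780be83))
 (c (a (nat_lit 0x153a732869a82ab508)) e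
 (c (a (nat_lit 0x130fa3044345c4c009)) e
 (c (a (nat_lit 0x1ae2ece0ee40000007)) e e)))
 (c z e
 (c (a (nat_lit 0x1130d02ccae40044)) e
 (c (a (nat_lit 0x1514912ecce4a004)) e
 (c z e
 (c (a (nat_lit 0x100dd59522009ca4)) e
 (c (a (nat_lit 0x324456363405605)) e
 (c (a (nat_lit 0xf30b0d233a15ca3)) e
 (c (a (nat_lit 0x222228363c051a6)) e e))))))))))))))))
 (c (a (nat_lit 0x58585858594e4))
 (c (a (nat_lit 0x202020244f109a7))
 (c z e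
 (c z e
 (c z e
 (c z e
 (c (a (nat_lit 0xe698707c8c72671c9))
 (c z e
 (c (a (nat_lit 0x4e950a840000000000b)) e e))
 (c (a (nat_lit 0x867a606c807f37649))
 (c (a (nat_lit 0xdbb466000000000000a)) e e)
 (c (a (nat_lit 0x8876747254df2f409)) e
 (c (a (nat_lit 0x222c120580c7f4ec8)) e
 (c (a (nat_lit 0x3a621ffa603a726e8)) e
 (c z e
 (c z e
 (c (a (nat_lit 0x15780cc46000000009)) e
 (c (a (nat_lit 0x10046000000000000a)) e e)))))))))))))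
 (c (b (nat_lit 0x222231ff1e7b267)) e
 (c z e
 (c z e
 (c (a (nat_lit 0x218416100231046))
 (c z e
 (c (a (nat_lit 0x6c7b0f1c8a1e3e4ea)) e
 (c (a (nat_lit 0x32a732a40e2c2a46a)) e
 (c (a (nat_lit 0x18d7730644a6e2a509)) e e))))
 (c (a (nat_lit 0x1760a04020416ba6))
 (c (a (nat_lit 0x85039f2c84545e8a9)) e
 (c (a (nat_lit 0xa30cca5a425a64cab)) e
 (c (a (nat_lit 0x17b52886484666e00a)) e e)))
 (c (a (nat_lit 0x221c1c1a06556e6))
 (c (a (nat_lit 0x12adc5646768ece8aa)) e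
 (c (a (nat_lit 0x14c4c323e823e0000a)) e e))
 (c (a (nat_lit 0xd0c906d2829a5e5)) e
 (c (a (nat_lit 0x1a5a38b5d2c79886)) e
 (c z e
 (c z e
 (c (a (nat_lit 0xd730b042076bd26)) e
 (c (a (nat_lit 0x26060402026d548)) e
 (c (a (nat_lit 0x80e14200843aa9)) e
 (c (a (nat_lit 0xc130afcfd6c008)) e
 (c (a (nat_lit 0xaf1aee660000006)) e e))))))))))))))))
 (c (a (nat_lit 0x14141415768a4))
 (c z e
 (c z e
 (c z e
 (c (a (nat_lit 0x530201e9775685))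
 (c z e
 (c (a (nat_lit 0xcb3cecc422381e5a9)) e
 (c (a (nat_lit 0x128e37278c42091429)) e
 (c (a (nat_lit 0xed129a84948ebe008)) e e))))
 (c (a (nat_lit 0x1068c3e041b537e6))
 (c (a (nat_lit 0x19fc7dca28651319a8)) e
 (c (a (nat_lit 0x1396a907286e36746a)) e e))
 (c (a (nat_lit 0x28089c8e75263e6)) e
 (c z e
 (c z e
 (c z e
 (c (b (nat_lit 0xc4a831fe44fb567)) e
 (c (a (nat_lit 0x136da262ad187de6)) e
 (c (a (nat_lit 0x160e10042e81169)) e e))))))))))))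
 (c (a (nat_lit 0x2c2c2d7d065e5))
 (c (a (nat_lit 0xde1a14395b634c6))
 (c z e
 (c z e
 (c z e
 (c (a (nat_lit 0x124ca729898646a649)) e
 (c z e
 (c (a (nat_lit 0x114c6de602a1cb08a8)) e e))))))
 (c z e
 (c z e
 (c z e
 (c z e
 (c z e
 (c (a (nat_lit 0x16b0132d2f13f646)) e
 (c (a (nat_lit 0x13e8ce64753ddea6)) e
 (c z e
 (c (a (nat_lit 0x4a240c4268453c8)) e
 (c (a (nat_lit 0x2c2424426520f49)) e e)))))))))))
 (c (a (nat_lit 0x2c2d4f4e48885))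
 (c (a (nat_lit 0x202494d5752ba6))
 (c z e
 (c (a (nat_lit 0x138a4bc4a8072d4388)) e
 (c (a (nat_lit 0x1f93ced8270560aa07)) e e)))
 (c z e
 (c z e
 (c z e
 (c z e
 (c z e
 (c (a (nat_lit 0xce6fd9df9198ce6)) e e)))))))
 (c (a (nat_lit 0x2f5d8f6cbe6a5))
 (c z e
 (c (a (nat_lit 0x6cc0e70eeaaef27))
 (c z e
 (c (a (nat_lit 0x5e62c13eb6000000a)) e e))
 (c (a (nat_lit 0x87cc0e060bb406))
 (c (a (nat_lit 0x6a9b027000000000a)) e e)
 (c (a (nat_lit 0x94ded0a4bd04b07)) e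
 (c (a (nat_lit 0xdcf2c2ed04cca87)) e
 (c z e
 (c z e
 (c (a (nat_lit 0x308e7aa3a5c64c8)) e
 (c (b (nat_lit 0x13fec9e3d80c008)) e
 (c (a (nat_lit 0x4a85db420000008)) e e))))))))))
 (c (a (nat_lit 0x139998106dcda4))
 (c (a (nat_lit 0x92e70904f549ac5))
 (c z e
 (c (a (nat_lit 0x66b708a800000000a)) e e))
 (c (a (nat_lit 0xb6c2c0c0d50fae7))
 (c (a (nat_lit 0x10986a80000000000a)) e e)
 (c (a (nat_lit 0xe8fed4dd0785367)) e
 (c (a (nat_lit 0x64545e72ca29148)) e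
 (c (a (nat_lit 0xd8d73ba277f3ce7)) e
 (c z e
 (c (a (nat_lit 0x56ac4da5feb2288)) e
 (c (a (nat_lit 0x6a8f3b584600009)) e
 (c (a (nat_lit 0x6b5cca000000009)) e e)))))))))
 (c (a (nat_lit 0x118e8d2d2d0d03))
 (c (a (nat_lit 0xccceccceed1f5a7))
 (c (a (nat_lit 0x1366a0000000000009)) e e)
 (c (a (nat_lit 0x846e6e8892c9048)) e
 (c (a (nat_lit 0x8c76c3130bdb867)) e
 (c (a (nat_lit 0x386e6686e106368)) e
 (c z e
 (c (a (nat_lit 0x1e0ecd064a0a009)) e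
 (c (a (nat_lit 0x7d4168420000009)) e
 (c (a (nat_lit 0x186dc00000000009)) e e))))))))
 (c (a (nat_lit 0xc0c0809503))
 (c (a (nat_lit 0x221a262034232a8)) e
 (c (a (nat_lit 0x749eb65395f1ac7)) e
 (c z e
 (c z e
 (c (a (nat_lit 0x36db3a8c1e00009)) e
 (c (a (nat_lit 0x161a672000000009)) e e))))))
 (c (a (nat_lit 0x383a383b3f624))
 (c (a (nat_lit 0xe8fe7d3a8a743c7)) e
 (c (a (nat_lit 0x1beb58b404e438e7)) e
 (c z e
 (c (a (nat_lit 0x16f7a34120000008)) e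
 (c (a (nat_lit 0x1d22c00000000008)) e e)))))
 (c (a (nat_lit 0x6e6e7af304f25))
 (c (a (nat_lit 0xb4df305082fe747)) e e)
 (c (a (nat_lit 0x13d63b7e9cdc25)) e
 (c (a (nat_lit 0x98eb18f8eee85)) e
 (c (a (nat_lit 0x17fab8f6965605)) e
 (c (a (nat_lit 0x11709090909006)) e
 (c (a (nat_lit 0x1332f2d2f1ea45)) e
 (c z e
 (c (a (nat_lit 0x19d935729170c3)) e
 (c (a (nat_lit 0x118dab89e908c3)) e e)))))))))))))))))))) Tr.c Tr.e (nat_lit 0) C.cx C.cy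
noncomputable def C168 : Tr := beta% (fun (c : Nat → Tr → Tr → Tr) (e : Tr) (z : Nat) (a b : Nat → Nat) =>
 (c (a (nat_lit 0x2020202021))
 (c (a (nat_lit 0x16124acacacac3))
 (c z e
 (c (a (nat_lit 0xcee8603810057e5))
 (c (a (nat_lit 0x424e6e383e912e428)) e e)
 (c (a (nat_lit 0x1071aceaeafe9f26)) e
 (c (a (nat_lit 0x50749e9cbb26f67)) e
 (c z e
 (c (a (nat_lit 0x4ed751107efec05)) e
 (c (a (nat_lit 0xc3e362e3f02467)) e
 (c (a (nat_lit 0x7498700c61a8965)) e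
 (c (a (nat_lit 0x92c7579efc94005)) e
 (c (a (nat_lit 0x9ee14e5c0000006)) e e))))))))))
 (c (a (nat_lit 0x1985c5e5e602a3))
 (c (a (nat_lit 0x11cf6d8ded54fa06)) e
 (c (a (nat_lit 0x7c607e78d511068)) e
 (c z e
 (c (a (nat_lit 0x844ecd0f3d458e6)) e
 (c z e
 (c (a (nat_lit 0x48565aa9186c3a8)) e
 (c (a (nat_lit 0xd51087efce06826)) e
 (c (a (nat_lit 0x3e713c3c2200007)) e
 (c (a (nat_lit 0xf5ba62000000007)) e e)))))))))
 (c (a (nat_lit 0x10b0d0d0cb0824))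
 (c (a (nat_lit 0x90b8bd152b38d87)) e
 (c (a (nat_lit 0x208892d206c167)) e
 (c z e
 (c (a (nat_lit 0x1397509624eff166)) e
 (c (a (nat_lit 0x1230d25af090b827)) e
 (c (a (nat_lit 0xf8aa8734bca8007)) e
 (c (a (nat_lit 0x1b19d53260000006)) e
 (c (a (nat_lit 0x1bc9000000000006)) e e))))))))
 (c (b (nat_lit 0x828359feb8344))
 (c (a (nat_lit 0x6a7304e4aa729a7)) e
 (c z e
 (c z e
 (c (a (nat_lit 0x112d19ea11ce2b87)) e e))))
 (c (b (nat_lit 0x6d47fed832104))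
 (c (a (nat_lit 0x362c59103aca6c6)) e e)
 (c (a (nat_lit 0x18b37764406323))
 (c (a (nat_lit 0xb81b1d6fbab62c5)) e
 (c (a (nat_lit 0x10a72bee86800007)) e e))
 (c (a (nat_lit 0x9624020217d64)) e
 (c (a (nat_lit 0x1404042504a65)) e
 (c (a (nat_lit 0xc0a2b0aac905)) e
 (c (a (nat_lit 0x80bb67410a1c5)) e
 (c z e
 (c (b (nat_lit 0x17b2925fe5a0e4)) e
 (c (a (nat_lit 0x1c3c20a0222003)) e
 (c (a (nat_lit 0x1be04021c02123)) e e))))))))))))))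
 (c (a (nat_lit 0xe0e0e0e0e1))
 (c (a (nat_lit 0x11b1d1d1ee68c3))
 (c z e
 (c (a (nat_lit 0x768098a1050ec47)) e
 (c (a (nat_lit 0xb6b2ad858599766)) e
 (c (a (nat_lit 0xa0acf53b91bfb06)) e
 (c (a (nat_lit 0x1e865cf972e84a6)) e
 (c (a (nat_lit 0x505b0122ae44787)) e
 (c (a (nat_lit 0x828316d24270007)) e
 (c (a (nat_lit 0x853a7a260000007)) e
 (c (a (nat_lit 0x16e6a00000000007)) e e)))))))))
 (c (a (nat_lit 0x15d5d9cd494ae4))
 (c z e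
 (c (a (nat_lit 0x688ce0fedabd208)) e
 (c (a (nat_lit 0x7ed10edab90f087)) e
 (c (a (nat_lit 0x110e30ae914f1087)) e
 (c (a (nat_lit 0xfb89654b2b3ec87)) e
 (c (a (nat_lit 0x5cab12b0b600007)) e
 (c (a (nat_lit 0x17ef68e000000007)) e
 (c (a (nat_lit 0x1300000000000006)) e e))))))))
 (c (a (nat_lit 0xfd1ec8ccd67a5))
 (c (a (nat_lit 0x7eeee120ef5b467)) e
 (c (a (nat_lit 0x11f319b61c3aaf87)) e
 (c (a (nat_lit 0xc7812d837537167)) e e)))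
 (c (a (nat_lit 0x1f7516b7b37364))
 (c (a (nat_lit 0x90e562c2da3ab46)) e
 (c (a (nat_lit 0x17b99a164bb90ac6)) e e))
 (c (a (nat_lit 0x2930a4a0a47a2)) e
 (c (a (nat_lit 0x320a0a0805e83)) e
 (c (a (nat_lit 0x808082d1e944)) e
 (c (a (nat_lit 0x42426b6d06764)) e
 (c (a (nat_lit 0xc2ff693eb88a5)) e
 (c (a (nat_lit 0x179d1dbdbc5ae6)) e
 (c (a (nat_lit 0x1393940e0d6ca4)) e
 (c (a (nat_lit 0x1b7c71b83b76a3)) e
 (c z e
 (c z e
 (c (a (nat_lit 0x1328c000000003)) e e)))))))))))))))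
 (c (a (nat_lit 0x2001))
 (c (a (nat_lit 0x10b0c505864644))
 (c z e
 (c (a (nat_lit 0xa0dd1d013706fe7)) e
 (c z e
 (c (a (nat_lit 0x1455d5f3f27937e6)) e
 (c z e
 (c z e
 (c (a (nat_lit 0x1cb2c00000000005)) e e)))))))
 (c (a (nat_lit 0x1089ca4ac70705))
 (c (a (nat_lit 0x1133b7197652cba7)) e
 (c (a (nat_lit 0xeb092504cab0fa8)) e
 (c (a (nat_lit 0x10ceefacaf31cb68)) e
 (c (a (nat_lit 0x19d333f3f0000007)) e e))))
 (c (a (nat_lit 0x88ff312d2d302))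
 (c (a (nat_lit 0xefa2f2a680c3166)) e
 (c (a (nat_lit 0xc0ec90bb06b0007)) e e))
 (c (a (nat_lit 0xe16101211161))
 (c z e
 (c (a (nat_lit 0x9d16a4000000007)) e e))
 (c (a (nat_lit 0x404020647083))
 (c (a (nat_lit 0x1328200000000006)) e e)
 (c (a (nat_lit 0xe0e0e3738f343)) e
 (c (a (nat_lit 0x80d13b26c8d84)) e
 (c (a (nat_lit 0x84d30714eebe4)) e
 (c (a (nat_lit 0x131abd9b9aa003)) e
 (c (a (nat_lit 0x171a3a5901d7a2)) e
 (c (a (nat_lit 0x5a5a5c4ef3464)) e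
 (c (a (nat_lit 0x11f2111b504004)) e
 (c (a (nat_lit 0x19173600000003)) e e)))))))))))))
 (c (nat_lit 1)
 (c (a (nat_lit 0x1d41c303230342))
 (c z e
 (c (a (nat_lit 0x13d4518b6db24e87)) e
 (c (a (nat_lit 0xeefcb30ac460007)) e e)))
 (c (a (nat_lit 0x2a1e1c260c1))
 (c (a (nat_lit 0x10aa85ea8bcc0567)) e
 (c (a (nat_lit 0x128995960d400007)) e
 (c (a (nat_lit 0xefdd3c000000006)) e e)))
 (c (a (nat_lit 0x4060a0e15a42))
 (c (a (nat_lit 0xcbcb76aa0000006)) e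
 (c (a (nat_lit 0x126a400000000007)) e e))
 (c (a (nat_lit 0x4081534f03)) e
 (c (a (nat_lit 0xb2f100d4bac85)) e
 (c (a (nat_lit 0x12433b1a7850a3)) e
 (c (a (nat_lit 0x161a59b82403)) e
 (c (a (nat_lit 0x1d5dbd9aef0803)) e
 (c (a (nat_lit 0x117192d4403903)) e
 (c (a (nat_lit 0xc162e6f48004)) e
 (c (a (nat_lit 0xcee7234800004)) e
 (c (a (nat_lit 0x134da000000003)) e e))))))))))))
 (c (a (nat_lit 0x11d1d1d1d1c1))
 (c (a (nat_lit 0x12080c1002ec1)) e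
 (c (a (nat_lit 0x1031525041a3c1)) e
 (c (a (nat_lit 0x1070d6fbd70002)) e
 (c z e
 (c (a (nat_lit 0xb45673d43423)) e
 (c (a (nat_lit 0x13977184c20e3)) e
 (c (a (nat_lit 0x1512931288c003)) e
 (c (a (nat_lit 0x8e92b4a807dc3)) e
 (c z e
 (c (a (nat_lit 0xb54ab20000003)) e e))))))))))
 (c (a (nat_lit 0x1c1c1c1c1a1))
 (c z e
 (c (a (nat_lit 0x1d9cb44ee174c3)) e
 (c (a (nat_lit 0x9c8e7e1ae79a4)) e
 (c (a (nat_lit 0x202991d464)) e
 (c (a (nat_lit 0x5f0b92f1bc4)) e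
 (c (a (nat_lit 0x4e871b08d0c85)) e
 (c (a (nat_lit 0x4549932865824)) e
 (c (a (nat_lit 0xd4f5400c00004)) e e))))))))
 (c (a (nat_lit 0x4e4e4e4e041))
 (c (a (nat_lit 0xdcbc946e739c4)) e
 (c (a (nat_lit 0x5a3e0220ed745)) e
 (c (a (nat_lit 0x24280cdee9205)) e
 (c (a (nat_lit 0x236acba75765)) e
 (c (a (nat_lit 0x76eeff0501fc6)) e
 (c z e
 (c (a (nat_lit 0xff28800000005)) e e)))))))
 (c (a (nat_lit 0xa6a6a684021))
 (c (a (nat_lit 0x640202a593904)) e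
 (c (a (nat_lit 0x220261174d4a5)) e
 (c (a (nat_lit 0x4484bad345e06)) e
 (c z e
 (c (a (nat_lit 0x119217f5200005)) e
 (c (a (nat_lit 0x118a2000000005)) e e))))))
 (c (a (nat_lit 0x1a3a389801a1))
 (c (a (nat_lit 0x3a3a607a7d246)) e
 (c (a (nat_lit 0x222c4c8533527)) e
 (c (a (nat_lit 0xa2b4c5acec007)) e
 (c (a (nat_lit 0x1153b480000006)) e e))))
 (c (a (nat_lit 0x18182e0604a2))
 (c (a (nat_lit 0xc38a9574c1c6)) e
 (c (a (nat_lit 0xb103f2fa00007)) e e))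
 (c (a (nat_lit 0x108e0e0dcdc4))
 (c (a (nat_lit 0x7b125e0000007)) e e)
 (c (a (nat_lit 0x1a1c7b1b5b42)) e
 (c (a (nat_lit 0x2080e0e0e1)) e
 (c (a (nat_lit 0x20208301)) e
 (c (a (nat_lit 0x20834981)) e
 (c (a (nat_lit 0x121e4ab3481)) e
 (c (a (nat_lit 0x1a8513121)) e
 (c (a (nat_lit 0x12a5090d121)) e
 (c (a (nat_lit 0x5a60686e1)) e
 (c (a (nat_lit 0x20004121)) e
 (c (a (nat_lit 0xa121a14001)) e
 (c (a (nat_lit 0x2060000001)) e e))))))))))))))))))))))) Tr.c Tr.e (nat_lit 0) C.cx C.cy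
noncomputable def C169 : Tr := beta% (fun (c : Nat → Tr → Tr → Tr) (e : Tr) (z : Nat) (a b : Nat → Nat) =>
 (c (a (nat_lit 0x2020202021))
 (c (a (nat_lit 0x1616170d0cfa4))
 (c z e
 (c z e
 (c z e
 (c (a (nat_lit 0x8262866c0f7985)) e
 (c (a (nat_lit 0x26121a75393e345)) e
 (c z e
 (c z e
 (c (a (nat_lit 0x14b151ec6d5f7de4)) e
 (c z e
 (c (a (nat_lit 0xc464aad2e0f7c25)) e
 (c (a (nat_lit 0x343e404a3e7d147)) e
 (c (b (nat_lit 0x2a301bfe4903b07)) e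
 (c z e
 (c (a (nat_lit 0x1a02af1a0000006)) e
 (c (a (nat_lit 0x102ba00000000006)) e e)))))))))))))))
 (c (a (nat_lit 0x3233656f18785))
 (c (a (nat_lit 0x48265cb0e6b92a5)) e
 (c z e
 (c z e
 (c (a (nat_lit 0x3515bbfb861425)) e
 (c z e
 (c z e
 (c z e
 (c (a (nat_lit 0x848aa4f18d6cfa6)) e
 (c z e
 (c z e
 (c (a (nat_lit 0x6e7a749b3350648)) e e)))))))))))
 (c (a (nat_lit 0x175f54ce5e5e5))
 (c z e
 (c z e
 (c z e
 (c z e
 (c z e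
 (c z e
 (c (a (nat_lit 0xb49ebacebf525)) e e)))))))
 (c (a (nat_lit 0x1453b3e5a32325))
 (c z e
 (c (a (nat_lit 0x1a1912aa4c81286))
 (c z e
 (c (a (nat_lit 0x14995d586000000008)) e e))
 (c (a (nat_lit 0x92c1b68ab2bb067)) e
 (c (a (nat_lit 0x13ce6e3170b677c6)) e
 (c (a (nat_lit 0x1422704c9c812c6)) e
 (c (a (nat_lit 0x147088d277c9526)) e
 (c z e
 (c (a (nat_lit 0x364c434bbe983a7)) e
 (c (a (nat_lit 0x2c5ec9223e00008)) e e)))))))))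
 (c (a (nat_lit 0x16980949494944))
 (c (a (nat_lit 0x952af8eedb8f7e6))
 (c z e
 (c (a (nat_lit 0x12f970e00000000008)) e e))
 (c (a (nat_lit 0xefece2dd53598a7)) e
 (c (a (nat_lit 0xaeaca301132ef27)) e
 (c (a (nat_lit 0xb8ad5ba337d5366)) e
 (c (a (nat_lit 0x26ef1b0afae0146)) e
 (c (a (nat_lit 0x5696e26a231a706)) e
 (c (a (nat_lit 0x8cc35dc6be60007)) e
 (c (a (nat_lit 0x7cb1163a0000008)) e e))))))))
 (c (a (nat_lit 0x1224c4c4c4e4e4))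
 (c (a (nat_lit 0x16e6a96b0c08d167)) e
 (c (a (nat_lit 0x4e6e98d43dbef86)) e
 (c z e
 (c z e
 (c z e
 (c (a (nat_lit 0x15435e8e2000007)) e
 (c (a (nat_lit 0xd30e42000000008)) e e)))))))
 (c (a (nat_lit 0x96969698c14e4))
 (c (a (nat_lit 0x3e526e3896bb006)) e
 (c (a (nat_lit 0xa1027d4241aa6c6)) e
 (c (a (nat_lit 0xdc94f6b3107a486)) e
 (c z e
 (c (a (nat_lit 0x14764c6320000007)) e
 (c (a (nat_lit 0x1065400000000008)) e e))))))
 (c (a (nat_lit 0x363638af40364))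
 (c (a (nat_lit 0xd08f148a8e6e886)) e
 (c z e
 (c (a (nat_lit 0x1d66d56b85c00006)) e
 (c (a (nat_lit 0x1607436000000007)) e e))))
 (c (a (nat_lit 0xaeb4a1b8af204))
 (c (a (nat_lit 0x10772aebe943c006)) e e)
 (c z e
 (c (a (nat_lit 0x6a84cb4b30a4)) e
 (c (a (nat_lit 0x11f01373559525)) e
 (c (a (nat_lit 0x1034b4b77729a5)) e
 (c (a (nat_lit 0xf0f14b4032464)) e
 (c (a (nat_lit 0x11745412b1cec5)) e
 (c (a (nat_lit 0x11712faeabec05)) e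
 (c (a (nat_lit 0x164d4d21e223a3)) e
 (c (a (nat_lit 0x100f8445034003)) e
 (c (a (nat_lit 0x1be56380000002)) e e)))))))))))))))))))
 (c (a (nat_lit 0x2020202021))
 (c (a (nat_lit 0x5d0d04be84845))
 (c z e
 (c z e
 (c z e
 (c (a (nat_lit 0x347ef0c4726b325)) e
 (c z e
 (c z e
 (c (a (nat_lit 0x56967a98c5024c6)) e
 (c (a (nat_lit 0x50685894e06b4e6)) e
 (c z e
 (c (a (nat_lit 0x2e7ab44fb982726)) e
 (c (a (nat_lit 0x5eac89f72604006)) e e)))))))))))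
 (c (a (nat_lit 0x1dbc6fcacacac5))
 (c z e
 (c z e
 (c (a (nat_lit 0x6ecaa6847eafc47)) e
 (c z e
 (c z e
 (c (a (nat_lit 0x886a9758b249906)) e
 (c z e
 (c z e
 (c (a (nat_lit 0xac56595d3236307)) e
 (c (a (nat_lit 0xe6b471c0c00007)) e e))))))))))
 (c (a (nat_lit 0x1adbaf0a0a0a04))
 (c (a (nat_lit 0xa948e6a2d76f5a5)) e
 (c (a (nat_lit 0xa4a0b6becb47c47)) e
 (c z e
 (c (a (nat_lit 0x62bae7152a65d06)) e
 (c (a (nat_lit 0x2668728e0cff3a7)) e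
 (c z e
 (c z e
 (c (a (nat_lit 0x201291062a24008)) e
 (c (a (nat_lit 0x296798160000007)) e e)))))))))
 (c (a (nat_lit 0x1023a3c3c3c004))
 (c (a (nat_lit 0x668e8c7af30cae7)) e
 (c (a (nat_lit 0x343222e932c6da7)) e
 (c z e
 (c (a (nat_lit 0x72fb2c614126ca7)) e
 (c (a (nat_lit 0xc2e65f252206d87)) e
 (c (a (nat_lit 0x15a9a74cb792c8a6)) e
 (c (a (nat_lit 0xb17bb0c4ae00007)) e
 (c (a (nat_lit 0x15cec16000000007)) e e))))))))
 (c (a (nat_lit 0x147494b4b34523))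
 (c (a (nat_lit 0x100931e6bfb9ec5)) e
 (c (b (nat_lit 0x4a0f1feeb258c6)) e
 (c z e
 (c z e
 (c z e
 (c (a (nat_lit 0x111d8d21e0000006)) e
 (c (a (nat_lit 0x10c5400000000007)) e e)))))))
 (c (a (nat_lit 0x15f5f616ad0cc3))
 (c (a (nat_lit 0x12b22f92daf35187)) e
 (c z e
 (c (a (nat_lit 0x409918506230727)) e
 (c z e
 (c (a (nat_lit 0x1726646000000007)) e e)))))
 (c (a (nat_lit 0x19fa991b5ef423))
 (c (a (nat_lit 0x68e95b02849e786)) e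
 (c (a (nat_lit 0xd1407e74586a007)) e e))
 (c (a (nat_lit 0xd4a303620dc82))
 (c (a (nat_lit 0x1c6a8f6b6a200006)) e e)
 (c (a (nat_lit 0x2640043cad204)) e
 (c (a (nat_lit 0x48104ab92b064)) e
 (c (a (nat_lit 0x82ef3fd397024)) e
 (c (a (nat_lit 0x12f43695ef2d06)) e
 (c z e
 (c (a (nat_lit 0x1cbc9c161cbd23)) e
 (c (a (nat_lit 0x10904d70d12ca4)) e
 (c z e
 (c z e
 (c (a (nat_lit 0x1a6d8000000003)) e e))))))))))))))))))
 C168))) Tr.c Tr.e (nat_lit 0) C.cx C.cy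
noncomputable def C170 : Tr := beta% (fun (c : Nat → Tr → Tr → Tr) (e : Tr) (z : Nat) (a : Nat → Nat) =>
 (c z
 (c (a (nat_lit 0x10323232329d486))
 (c z e
 (c z e
 (c z e
 (c z e
 (c z e
 (c (a (nat_lit 0xa07e6a648286771a8)) e
 (c (a (nat_lit 0x94767a7e9644ad588)) e
 (c (a (nat_lit 0x1214200c088c4d408)) e
 (c (a (nat_lit 0x8484ac47de7088be7)) e
 (c z e
 (c z e
 (c (a (nat_lit 0x495996c65a0000008)) e
 (c (a (nat_lit 0xf50c4400000000009)) e e)))))))))))))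
 (c (a (nat_lit 0x4c4c4c52d58c7c6))
 (c z e
 (c z e
 (c z e
 (c z e
 (c z e
 (c z e
 (c z e
 (c z e
 (c z e
 (c z e
 (c (a (nat_lit 0x127565e3e000000009)) e e)))))))))))
 (c (a (nat_lit 0x3e3e52cb5674486))
 (c z e
 (c z e
 (c z e
 (c z e
 (c z e
 (c z e
 (c (a (nat_lit 0x7011684c323a22568)) e e)))))))
 (c z e
 (c (a (nat_lit 0x2499e8480e0a2e5))
 (c z e
 (c (a (nat_lit 0x90bc97e348d608528)) e
 (c (a (nat_lit 0x8e6583933e363e2a8)) e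
 (c (a (nat_lit 0x5fa113765c4262388)) e
 (c (a (nat_lit 0x1e44c2218a09c4c008)) e e)))))
 (c (a (nat_lit 0x6fc8221c0404265))
 (c (a (nat_lit 0x9281357b047674728)) e
 (c (a (nat_lit 0xaf2bc74e9870b4f29)) e
 (c (a (nat_lit 0xe1553e6a546e7c609)) e e)))
 (c (a (nat_lit 0x1c6201a18180a845))
 (c (a (nat_lit 0x103e568a076ace9aa8)) e
 (c (a (nat_lit 0x16f5e64585cb064009)) e e))
 (c (a (nat_lit 0xeae0dad8b895064))
 (c (a (nat_lit 0x1463a16184a1400008)) e e)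
 (c (a (nat_lit 0x1ddd9d5ad4b18204)) e
 (c (a (nat_lit 0x153513d172476565)) e
 (c (a (nat_lit 0x1ef9b91c69a83185)) e
 (c (a (nat_lit 0xbcb30eba20034a5)) e
 (c (a (nat_lit 0x2c9462362403845)) e
 (c (a (nat_lit 0x96727e88dc05ea5)) e
 (c (a (nat_lit 0x80a98b8a693487)) e
 (c z e
 (c (a (nat_lit 0xd94084000000005)) e e)))))))))))))))))
 (c (a (nat_lit 0x58585858594c3))
 (c (a (nat_lit 0x8e8e9ccae051125)) e
 (c z e
 (c z e
 (c (a (nat_lit 0x2aacbe9290bd286))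
 (c z e
 (c (a (nat_lit 0x128bee686de784c5e8)) e
 (c (a (nat_lit 0xf9289ba704cc67228)) e
 (c (a (nat_lit 0x1babde558d7153ef67)) e e))))
 (c (a (nat_lit 0x80ca6e18042b925))
 (c z e
 (c (a (nat_lit 0xe0f712784c60bf309)) e
 (c (a (nat_lit 0x1657e946ab2e6c2008)) e e)))
 (c (a (nat_lit 0x86302e5c2cb5765))
 (c (a (nat_lit 0x10f50948298af74d28)) e e)
 (c z e
 (c z e
 (c (a (nat_lit 0x17d6f574e5627145)) e
 (c (a (nat_lit 0x15f636e4e2481f45)) e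
 (c (a (nat_lit 0x1335ec23214a78a5)) e
 (c (a (nat_lit 0x4c2c302602511c7)) e
 (c (a (nat_lit 0x161a2a261457c47)) e e)))))))))))))
 (c (a (nat_lit 0x5858585931223))
 (c (a (nat_lit 0x9100665c210b705))
 (c z e
 (c z e
 (c z e
 (c (a (nat_lit 0x153eece94b09ca24a7)) e e))))
 (c (a (nat_lit 0xa42a0a28c391766))
 (c z e
 (c (a (nat_lit 0x1cff346ca44b6ae287)) e
 (c (a (nat_lit 0x1b132ceacccd68ac88)) e
 (c (a (nat_lit 0x1109816beb43884168)) e e))))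
 (c (a (nat_lit 0x82383af1519fc05)) e
 (c (a (nat_lit 0x100efe96c7411e5))
 (c z e
 (c (a (nat_lit 0xfb16ae4ecf294ee08)) e e))
 (c z e
 (c z e
 (c (a (nat_lit 0x17585387d3559c45)) e
 (c (a (nat_lit 0x11ad40cb64f2dd85)) e
 (c (a (nat_lit 0x924e6a3848ef326)) e
 (c (a (nat_lit 0x8546843ac74cfc5)) e
 (c (a (nat_lit 0x241414061e530e8)) e e)))))))))))
 (c (a (nat_lit 0x2c2c2da9a0384))
 (c (a (nat_lit 0x2204022b8133825)) e
 (c (a (nat_lit 0x40416c8e306a66))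
 (c z e
 (c (a (nat_lit 0x114b9050f11b8f0e08)) e
 (c (a (nat_lit 0x1c78c6448a8302848)) e e)))
 (c z e
 (c z e
 (c z e
 (c z e
 (c (a (nat_lit 0x184501ab9f9c3e85)) e
 (c (a (nat_lit 0x5e023890ed3d426)) e
 (c (a (nat_lit 0x2e303c3a7e6f867)) e e)))))))))
 (c (a (nat_lit 0x3031bfbf66b84))
 (c (a (nat_lit 0x7e7ecb878b9cd25)) e
 (c (a (nat_lit 0x5482e70714d49a6))
 (c z e
 (c z e
 (c (a (nat_lit 0x913b22b0000000008)) e e)))
 (c (a (nat_lit 0xb7235d7ceeed645))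
 (c (a (nat_lit 0xa8cda3e6bc0000008)) e e)
 (c (a (nat_lit 0x1195dad210f61ae5)) e
 (c (a (nat_lit 0x82eec6baed130e6)) e
 (c (a (nat_lit 0x9042b915571a6a6)) e
 (c (a (nat_lit 0x360cab695d41d46)) e
 (c (a (nat_lit 0xe326e78695fa67)) e
 (c (a (nat_lit 0x1e3454cfe7c82a7)) e
 (c (a (nat_lit 0x5a3c35c31a00007)) e e))))))))))
 (c (a (nat_lit 0x5bb77166ced03))
 (c z e
 (c (a (nat_lit 0xb4b6a89696b9126))
 (c (a (nat_lit 0xb90f5e86000000009)) e e)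
 (c (a (nat_lit 0x9ed0b2a4c3056a6)) e
 (c (a (nat_lit 0xd8eccaf947de046)) e
 (c (a (nat_lit 0x84ff2987c429b26)) e
 (c (a (nat_lit 0x2a56b0e86d0e7e7)) e
 (c (a (nat_lit 0x2a74b62b8bde967)) e
 (c (a (nat_lit 0x3a626d1b262c008)) e
 (c (a (nat_lit 0x7e3738aa0000008)) e e)))))))))
 (c (a (nat_lit 0x108e0e66e6e6e4))
 (c (a (nat_lit 0xc2b4b0b2a8d9366))
 (c (a (nat_lit 0xeb225a00000000008)) e e)
 (c (a (nat_lit 0x1210f011761a5446)) e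
 (c (a (nat_lit 0xc4faff7feecb5e6)) e
 (c (a (nat_lit 0x94b5357ac36f9e6)) e
 (c z e
 (c (a (nat_lit 0x4e4a5f89d280467)) e
 (c (a (nat_lit 0x1c811b1e2800008)) e
 (c (a (nat_lit 0x575cb0000000008)) e e))))))))
 (c (a (nat_lit 0xbd5b615b581))
 (c (a (nat_lit 0xf8ced7655f97f64)) e
 (c (a (nat_lit 0xd0d92d509705b46)) e
 (c (a (nat_lit 0x4ccac83c6dca6c6)) e
 (c z e
 (c (a (nat_lit 0x3c38bf2e682e008)) e
 (c (a (nat_lit 0x9f2368460000008)) e e))))))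
 (c (a (nat_lit 0x1a64666467b63))
 (c (a (nat_lit 0xf523367ee65a7c6)) e
 (c (a (nat_lit 0x10b166aac962e6c7)) e
 (c (a (nat_lit 0x148f7626cb694d87)) e
 (c (a (nat_lit 0x495b7c3c3e00007)) e
 (c (a (nat_lit 0x108d40e000000008)) e e)))))
 (c (a (nat_lit 0x406060959663))
 (c (a (nat_lit 0x146aad51a5cc1d46)) e
 (c (a (nat_lit 0x14fbb472d1126007)) e
 (c (a (nat_lit 0x19dd68a6e0000007)) e e)))
 (c (a (nat_lit 0xeeeef19ba35c4)) e
 (c (a (nat_lit 0x9ccf314f09024)) e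
 (c (a (nat_lit 0x8b7fa55d49444)) e
 (c (a (nat_lit 0x185cd878785824)) e
 (c (a (nat_lit 0x1631b191719184)) e e)))))))))))))))) Tr.c Tr.e (nat_lit 0) C.cx
noncomputable def C171 : Tr := beta% (fun (c : Nat → Tr → Tr → Tr) (e : Tr) (z : Nat) (a : Nat → Nat) =>
 (c (a (nat_lit 0x4040404041))
 (c z
 (c z e
 (c (a (nat_lit 0x6e16b6b6b6b7725))
 (c z e
 (c z e
 (c z e
 (c z e
 (c z e
 (c z e
 (c (a (nat_lit 0xa48e8e909a9e73088)) e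
 (c (a (nat_lit 0x4a46426428291dd67)) e
 (c (a (nat_lit 0x8a8490921fa058407)) e
 (c z e
 (c (a (nat_lit 0x8a848d1e448494628)) e
 (c (a (nat_lit 0x6c55c5b89a4600008)) e
 (c (a (nat_lit 0x6b0d1432000000009)) e e)))))))))))))
 (c (a (nat_lit 0xc64646465414a4))
 (c z e
 (c z e
 (c z e
 (c z e
 (c z e
 (c (a (nat_lit 0x16094a2aaa49b33847)) e
 (c (a (nat_lit 0x7a686a4a4cf5bfe87)) e
 (c z e
 (c z e
 (c z e
 (c (a (nat_lit 0x593386ba360000008)) e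
 (c (a (nat_lit 0xe1144200000000009)) e e))))))))))))
 (c (a (nat_lit 0xb2b2b2bb6767084))
 (c z e
 (c z e
 (c z e
 (c z e
 (c z e
 (c (a (nat_lit 0x6c74784ad7a1b66a7)) e
 (c (a (nat_lit 0x8e92085c2d1050887)) e
 (c z e
 (c z e
 (c (a (nat_lit 0x181d70258000000007)) e e))))))))))
 (c z e
 (c z e
 (c (a (nat_lit 0x19d5364bc8a82763))
 (c z e
 (c (a (nat_lit 0x6a2f358b125c425e8)) e
 (c (a (nat_lit 0x33099b365a6482428)) e e)))
 (c (a (nat_lit 0x15af85046423c163))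
 (c (a (nat_lit 0x40e70ec65a606c808)) e
 (c (a (nat_lit 0x12fcf6058744e9a708)) e e))
 (c (a (nat_lit 0x1a306c2b4b49aa23))
 (c (a (nat_lit 0x1c5784a361e3628007)) e
 (c (a (nat_lit 0x1a044843e4c0000007)) e e))
 (c (a (nat_lit 0x1cfc7bfbf9754843)) e
 (c z e
 (c (a (nat_lit 0x10d0afef0ee54445)) e
 (c z e
 (c (a (nat_lit 0x153538d71212e003)) e
 (c (a (nat_lit 0x1233f3b41732c143)) e
 (c (a (nat_lit 0x280618b21a04da1)) e e))))))))))))))))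
 C170)
 (c (a (nat_lit 0x2020202021))
 (c (a (nat_lit 0x5656565657d42))
 (c (a (nat_lit 0x3c3c3e5990b7d63))
 (c z e
 (c z e
 (c z e
 (c z e
 (c z e
 (c z e
 (c z e
 (c (a (nat_lit 0x769e7e6aaf6748965)) e e))))))))
 (c (a (nat_lit 0x4a4a58fab0917a5))
 (c z e
 (c z e
 (c z e
 (c z e
 (c (a (nat_lit 0xb096dcc89a434bb27)) e
 (c (a (nat_lit 0x14d5dc6d8db8bd6c67)) e
 (c (a (nat_lit 0x7a66548c7f489c607)) e e)))))))
 (c (a (nat_lit 0x505eda969c9b7a5))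
 (c z e
 (c z e
 (c z e
 (c z e
 (c z e
 (c z e
 (c (a (nat_lit 0x65e2b466ea0a82647)) e e)))))))
 (c z e
 (c (a (nat_lit 0xd05240121033d24)) e
 (c (a (nat_lit 0xcae0524412e5c02))
 (c z e
 (c (a (nat_lit 0x11dcd90c2b2e6ebb08)) e
 (c (a (nat_lit 0x119304634428836008)) e e)))
 (c (a (nat_lit 0x200e0c0c081b625))
 (c (a (nat_lit 0x1514e786a6a59268a7)) e
 (c (a (nat_lit 0x1705c66647a6800008)) e e))
 (c z e
 (c z e
 (c z e
 (c z e
 (c z e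
 (c (a (nat_lit 0x121a100c02350e7)) e
 (c (a (nat_lit 0x18161c220861c27)) e
 (c (a (nat_lit 0x4449e7a1b66004)) e e)))))))))))))))
 (c (a (nat_lit 0x2c2c2c2d5da44))
 (c (a (nat_lit 0x666e82d8293b085)) e
 (c z e
 (c z e
 (c (a (nat_lit 0x60e9a5eafc1e85))
 (c z e
 (c (a (nat_lit 0x12cdeb14a703a50648)) e
 (c (a (nat_lit 0x7a5538922e121ab68)) e
 (c (a (nat_lit 0xd328034563268008)) e e))))
 (c (a (nat_lit 0x2274240837378a5))
 (c (a (nat_lit 0x90f0ea788466e92c8)) e e)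
 (c z e
 (c z e
 (c z e
 (c (a (nat_lit 0x16d2f14ba464afc5)) e
 (c (a (nat_lit 0x12b20982268a52a5)) e
 (c (a (nat_lit 0x116e6240886eb0e5)) e
 (c (a (nat_lit 0x261c1e0630a17a8)) e
 (c (a (nat_lit 0x2c3a282079cce27)) e e)))))))))))))
 (c (a (nat_lit 0x1616171d40ae5))
 (c z e
 (c z e
 (c z e
 (c z e
 (c z e
 (c z e
 (c (a (nat_lit 0x1c27434cb0d634c5)) e
 (c (a (nat_lit 0x7202baaf0f44c85)) e
 (c z e
 (c (a (nat_lit 0x260202322023c07)) e e))))))))))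
 (c (a (nat_lit 0x1617496c982c5))
 (c z e
 (c z e
 (c z e
 (c z e
 (c (a (nat_lit 0x132d442e7425c2e5)) e
 (c z e
 (c (a (nat_lit 0x848f38dcce913a6)) e
 (c (a (nat_lit 0x36ac7a888185a26)) e e))))))))
 (c (a (nat_lit 0x193749204e245))
 (c (a (nat_lit 0x5c82f118f498746)) e
 (c (a (nat_lit 0x266c992ee80cc5)) e
 (c (a (nat_lit 0x2af7b3abceb066)) e
 (c (a (nat_lit 0x18ff37d5b83b3be5)) e
 (c (a (nat_lit 0x1049d133d2df3665)) e
 (c (a (nat_lit 0x1e2c5062506d167)) e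
 (c (a (nat_lit 0x2445c4cb30c027)) e
 (c (a (nat_lit 0x2e2a2d774a1e7)) e
 (c (a (nat_lit 0x142eab44e626008)) e
 (c (a (nat_lit 0x2a63db040000007)) e e))))))))))
 (c (a (nat_lit 0x1c7df9a4848484))
 (c (a (nat_lit 0x706ae2b2a293505))
 (c z e
 (c (a (nat_lit 0xbcef2ed0000000009)) e e))
 (c (a (nat_lit 0xab1af2d4cf157a7))
 (c (a (nat_lit 0x103609800000000009)) e e)
 (c (a (nat_lit 0x746c5a568a9b087)) e
 (c (a (nat_lit 0x5a746ca2f6c37c7)) e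
 (c z e
 (c z e
 (c (a (nat_lit 0x56787d81e8864c7)) e
 (c (a (nat_lit 0x4ed525403a00008)) e
 (c (a (nat_lit 0x8d48bc000000008)) e e)))))))))
 (c (a (nat_lit 0x132fe2a2c2c2e4))
 (c (a (nat_lit 0xecce9294bd60c26)) e
 (c (a (nat_lit 0x15cef0741bb6b886)) e
 (c z e
 (c (a (nat_lit 0x3c96eefaa524326)) e
 (c z e
 (c (a (nat_lit 0x64413dd6663e007)) e
 (c (a (nat_lit 0xb8fd282e0000008)) e e)))))))
 (c (a (nat_lit 0xb2020202034c4))
 (c (a (nat_lit 0x483c8860de13ae5)) e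
 (c (a (nat_lit 0x609af0bf8c376c6)) e
 (c z e
 (c z e
 (c (a (nat_lit 0x3f5f86b84e00007)) e
 (c (a (nat_lit 0x1310c54000000008)) e e))))))
 (c (a (nat_lit 0x20203acd84))
 (c (a (nat_lit 0x9302a36e7422a26)) e
 (c (a (nat_lit 0x1733be4cc78e4b06)) e
 (c z e
 (c (a (nat_lit 0x118e01e360000008)) e e))))
 (c (a (nat_lit 0x21daede984)) e
 (c (a (nat_lit 0x586728d8b4ae5)) e
 (c (a (nat_lit 0x43c52aded2ce4)) e
 (c (a (nat_lit 0x1f5611712fefe4)) e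
 (c (a (nat_lit 0x10efcfafafaf45)) e
 (c (a (nat_lit 0x15d5755554a604)) e e)))))))))))))))
 C169))) Tr.c Tr.e (nat_lit 0) C.cx
noncomputable def C173 : Tr := beta% (fun (c : Nat → Tr → Tr → Tr) (e : Tr) (z : Nat) (a b : Nat → Nat) =>
 (c (a (nat_lit 0x2021))
 (c (a (nat_lit 0x202021))
 (c (a (nat_lit 0x40606001)) e
 (c (a (nat_lit 0x281e0a001)) e
 (c (a (nat_lit 0x8100a041)) e
 (c (a (nat_lit 0x1e0c3a001)) e
 (c (a (nat_lit 0x1210fdfc6)) e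
 (c (a (nat_lit 0x20f37d7c8)) e
 (c (a (nat_lit 0xb333335e6)) e e)))))))
 (c (a (nat_lit 0x2041))
 (c (a (nat_lit 0x604410041)) e
 (c (a (nat_lit 0x883a2e101)) e
 (c (a (nat_lit 0x40203246)) e
 (c (a (nat_lit 0x72f3428)) e e))))
 (c (a (nat_lit 0x4041))
 (c (a (nat_lit 0x20205b25)) e
 (c (a (nat_lit 0x53bfc7)) e e))
 (c (a (nat_lit 0x2021))
 (c (a (nat_lit 0x2cfcd027)) e
 (c z e
 (c (a (nat_lit 0x104b29e9e9)) e
 (c (a (nat_lit 0x1ef3000007)) e e))))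
 (c (a (nat_lit 0x404021))
 (c (a (nat_lit 0x6486a11e9)) e
 (c (a (nat_lit 0x808314009)) e
 (c (a (nat_lit 0x1360000006)) e e)))
 (c (a (nat_lit 0xe1c001))
 (c (a (nat_lit 0x3ee00006)) e e)
 (c z e
 (c z e
 (c (a (nat_lit 0x1ce02006)) e
 (c (a (nat_lit 0x1002001)) e
 (c (a (nat_lit 0x6021)) e
 (c (a (nat_lit 0x14404002)) e
 (c (a (nat_lit 0xe02001)) e
 (c (a (nat_lit 0xe04001)) e
 (c (a (nat_lit 0xa02001)) e
 (c (a (nat_lit 0x604001)) e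
 (c (a (nat_lit 0x204001)) e e)))))))))))))))))
 (c (a (nat_lit 0x21))
 (c (a (nat_lit 0x4041))
 (c (a (nat_lit 0x48340a001)) e
 (c (a (nat_lit 0x868212041)) e
 (c (a (nat_lit 0x40203527)) e
 (c (a (nat_lit 0x29f6fae7)) e e))))
 (c (a (nat_lit 0x4081))
 (c (a (nat_lit 0x20203b26)) e
 (c (a (nat_lit 0x26d3b8e8)) e e))
 (c (a (nat_lit 0x3c01))
 (c (a (nat_lit 0xef6e9a08)) e e)
 (c (b (nat_lit 0x1fffe1)) e
 (c z e
 (c z e
 (c (a (nat_lit 0x1ce02026)) e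
 (c (a (nat_lit 0x2041)) e
 (c (a (nat_lit 0xe14001)) e
 (c (a (nat_lit 0x6006001)) e
 (c (a (nat_lit 0x3204001)) e
 (c (a (nat_lit 0x3c04001)) e
 (c (a (nat_lit 0x2a06001)) e
 (c (a (nat_lit 0x1c04001)) e
 (c (a (nat_lit 0x2006021)) e
 (c (a (nat_lit 0xe00001)) e e))))))))))))))))
 (c (a (nat_lit 0x2021))
 (c (a (nat_lit 0x23c1))
 (c (a (nat_lit 0x1202034a6)) e
 (c (a (nat_lit 0xf545628)) e e))
 (c z
 (c (a (nat_lit 0x62dcfb3e9)) e e)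
 (c z e
 (c z e
 (c (a (nat_lit 0x1e202006)) e
 (c (a (nat_lit 0x602021)) e
 (c (a (nat_lit 0x60a001)) e
 (c (a (nat_lit 0xa02041)) e
 (c (nat_lit 1) e
 (c (a (nat_lit 0x6041)) e
 (c (a (nat_lit 0x402001)) e
 (c (a (nat_lit 0x41)) e
 (c (a (nat_lit 0x41)) e
 (c (a (nat_lit 0x4001)) e e))))))))))))))
 (c (a (nat_lit 0x2021))
 (c z
 (c (a (nat_lit 0xc4e52cb88)) e e)
 (c z e
 (c (a (nat_lit 0x11402007)) e
 (c (a (nat_lit 0x21)) e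
 (c (a (nat_lit 0x4041)) e
 (c (a (nat_lit 0x2001)) e
 (c (a (nat_lit 0x202061)) e
 (c (nat_lit 1) e
 (c (a (nat_lit 0x1406001)) e
 (c (a (nat_lit 0xc00001)) e
 (c (a (nat_lit 0x606001)) e
 (c (a (nat_lit 0x204021)) e
 (c (a (nat_lit 0x200001)) e e)))))))))))))
 (c (a (nat_lit 0x2021))
 (c (a (nat_lit 0x11000006)) e
 (c (a (nat_lit 0x402001)) e
 (c (a (nat_lit 0x202001)) e
 (c (a (nat_lit 0x402001)) e
 (c (a (nat_lit 0x2001)) e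
 (c (a (nat_lit 0x2001)) e
 (c (a (nat_lit 0x4080a1)) e
 (c (a (nat_lit 0x6001)) e
 (c (a (nat_lit 0x406021)) e
 (c (a (nat_lit 0x400061)) e
 (c (a (nat_lit 0x2001)) e e)))))))))))
 (c (a (nat_lit 0x2021))
 (c (a (nat_lit 0x202001)) e
 (c (a (nat_lit 0x2021)) e
 (c (nat_lit 1) e
 (c (a (nat_lit 0x204001)) e
 (c (a (nat_lit 0x802001)) e
 (c (a (nat_lit 0x808081)) e
 (c (a (nat_lit 0xa061)) e
 (c (nat_lit 1) e
 (c (a (nat_lit 0x2041)) e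
 (c (a (nat_lit 0x200001)) e e))))))))))
 (c (a (nat_lit 0x2021))
 (c (a (nat_lit 0x202021)) e
 (c (a (nat_lit 0x202021)) e
 (c (a (nat_lit 0x202021)) e
 (c (a (nat_lit 0x202021)) e
 (c (a (nat_lit 0x202021)) e
 (c (a (nat_lit 0x202021)) e
 (c (a (nat_lit 0x202021)) e
 (c (a (nat_lit 0x202001)) e e))))))))
 (c (a (nat_lit 0x2021))
 (c (a (nat_lit 0x202021)) e
 (c (a (nat_lit 0x202021)) e
 (c (a (nat_lit 0x202021)) e
 (c (a (nat_lit 0x202021)) e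
 (c (a (nat_lit 0x202021)) e
 (c (a (nat_lit 0x202021)) e
 (c (a (nat_lit 0x200001)) e e)))))))
 (c (a (nat_lit 0x2021))
 (c (a (nat_lit 0x202021)) e
 (c (a (nat_lit 0x202021)) e
 (c (a (nat_lit 0x202021)) e
 (c (a (nat_lit 0x202021)) e
 (c (a (nat_lit 0x202001)) e e)))))
 (c (a (nat_lit 0x2021))
 (c (a (nat_lit 0x202021)) e
 (c (a (nat_lit 0x202021)) e
 (c (a (nat_lit 0x202021)) e
 (c (a (nat_lit 0x200001)) e e))))
 (c (a (nat_lit 0x2021))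
 (c (a (nat_lit 0x202021)) e
 (c (a (nat_lit 0x202001)) e e))
 (c (a (nat_lit 0x2021))
 (c (a (nat_lit 0x200001)) e e)
 (c (a (nat_lit 0x2021)) e
 (c (a (nat_lit 0x2021)) e
 (c (a (nat_lit 0x2021)) e
 (c (a (nat_lit 0x2021)) e
 (c (a (nat_lit 0x2021)) e
 (c (a (nat_lit 0x2021)) e
 (c (a (nat_lit 0x2021)) e
 (c (a (nat_lit 0x2021)) e
 (c (a (nat_lit 0x2021)) e
 (c (a (nat_lit 0x2041)) e
 (c z e
 (c (a (nat_lit 0x2081)) e e))))))))))))))))))))))))) Tr.c Tr.e (nat_lit 0) C.cx C.cy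
noncomputable def C174 : Tr := beta% (fun (c : Nat → Tr → Tr → Tr) (e : Tr) (z : Nat) (a b : Nat → Nat) =>
 (c (a (nat_lit 0x2021))
 (c (nat_lit 1)
 (c (a (nat_lit 0x931312e2))
 (c (a (nat_lit 0x1a7333935302)) e
 (c (a (nat_lit 0x1d7415147422)) e
 (c (a (nat_lit 0x1373b433d342)) e
 (c (a (nat_lit 0x13b3f44a4002)) e
 (c (a (nat_lit 0x1bca00000002)) e e)))))
 (c (a (nat_lit 0xe0e221c1))
 (c (a (nat_lit 0x152142620102)) e
 (c (a (nat_lit 0x2c366294261)) e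
 (c (a (nat_lit 0x86a87c00001)) e
 (c (a (nat_lit 0x28000000001)) e e))))
 (c (a (nat_lit 0xa0c100c1))
 (c (a (nat_lit 0x2a1e4a14001)) e
 (c (a (nat_lit 0xac660000001)) e e))
 (c (a (nat_lit 0x220e18001))
 (c (a (nat_lit 0x4a000000001)) e e)
 (c (a (nat_lit 0x806081)) e
 (c (a (nat_lit 0x806041)) e
 (c (a (nat_lit 0x2060e0c1)) e
 (c (a (nat_lit 0x8101e001)) e
 (c (a (nat_lit 0x202076a3)) e
 (c (a (nat_lit 0x1e020b305)) e
 (c (b (nat_lit 0xf30155fe1)) e e)))))))))))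
 (c (nat_lit 1)
 (c (a (nat_lit 0x20a0e061))
 (c (a (nat_lit 0xe162638101)) e
 (c (a (nat_lit 0x3836a220001)) e
 (c (a (nat_lit 0x98960000001)) e e)))
 (c (a (nat_lit 0x80206001))
 (c (a (nat_lit 0x28841e00001)) e
 (c (a (nat_lit 0x122000000001)) e e))
 (c (a (nat_lit 0x402c34001)) e
 (c (a (nat_lit 0x1212041)) e
 (c (a (nat_lit 0x80a001)) e
 (c (a (nat_lit 0x60c1e001)) e
 (c (a (nat_lit 0x202074c4)) e
 (c (a (nat_lit 0x28020d545)) e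
 (c (a (nat_lit 0x20209a04)) e e)))))))))
 (c (nat_lit 1)
 (c (a (nat_lit 0xc060c081))
 (c (a (nat_lit 0x3c060000001)) e e)
 (c (a (nat_lit 0x341c24001)) e
 (c (a (nat_lit 0xe0a001)) e
 (c (a (nat_lit 0xa0e14001)) e
 (c (a (nat_lit 0x202fde66)) e
 (c (a (nat_lit 0xa7332e8)) e
 (c (a (nat_lit 0x56ecd9926)) e e)))))))
 (c (a (nat_lit 0x2041))
 (c (a (nat_lit 0x2c2216001)) e
 (c (a (nat_lit 0x363a14001)) e
 (c (a (nat_lit 0x20203407)) e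
 (c (a (nat_lit 0x2cb6b548)) e
 (c z e
 (c z e
 (c (a (nat_lit 0x1266202006)) e
 (c (a (nat_lit 0x1400001)) e e))))))))
 (c (a (nat_lit 0x202021))
 (c (a (nat_lit 0x20203125)) e
 (c (a (nat_lit 0x6d719968)) e
 (c z e
 (c z e
 (c (a (nat_lit 0x1b5da02006)) e
 (c (a (nat_lit 0x12a0202007)) e
 (c (a (nat_lit 0x40000001)) e e)))))))
 (c (a (nat_lit 0x2021))
 (c (a (nat_lit 0xf113247c8)) e
 (c z e
 (c (a (nat_lit 0x1650882968)) e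
 (c (a (nat_lit 0x360368026)) e
 (c (a (nat_lit 0x36600006)) e e)))))
 (c (a (nat_lit 0x202021))
 (c (a (nat_lit 0x105220a467)) e
 (c (a (nat_lit 0x1c002035c7)) e
 (c (a (nat_lit 0x203ac006)) e
 (c (a (nat_lit 0x200000001)) e e))))
 (c (a (nat_lit 0x202021))
 (c (a (nat_lit 0x2f7805)) e
 (c (a (nat_lit 0x20200001)) e e))
 (c (a (nat_lit 0x202021))
 (c (a (nat_lit 0x20000001)) e e)
 (c (a (nat_lit 0x6021)) e
 (c (a (nat_lit 0x203646)) e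
 (c z e
 (c (a (nat_lit 0x1da02006)) e
 (c (a (nat_lit 0xc02001)) e
 (c (a (nat_lit 0x808021)) e
 (c (a (nat_lit 0x13202002)) e
 (c (a (nat_lit 0x2001)) e
 (c (a (nat_lit 0x2041)) e
 (c (a (nat_lit 0x2041)) e
 (c (a (nat_lit 0x2001)) e e))))))))))))))))))))
 (c (a (nat_lit 0x2021))
 (c (a (nat_lit 0x2001))
 (c (a (nat_lit 0x20806041))
 (c (a (nat_lit 0x408120a041)) e
 (c (a (nat_lit 0x143e1200001)) e
 (c (a (nat_lit 0x34000000001)) e e)))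
 (c (a (nat_lit 0x10080a021))
 (c (a (nat_lit 0x74120000001)) e e)
 (c (a (nat_lit 0x2a1e1a001)) e
 (c (a (nat_lit 0x20806001)) e
 (c (a (nat_lit 0x6080a001)) e
 (c (a (nat_lit 0x60a14001)) e
 (c (a (nat_lit 0x525209065)) e
 (c (a (nat_lit 0x15002060e3)) e
 (c (b (nat_lit 0x101e35fe1)) e e)))))))))
 (c (a (nat_lit 0x21))
 (c (a (nat_lit 0x100e0e041))
 (c (a (nat_lit 0xa000000001)) e e)
 (c (a (nat_lit 0x422e1e001)) e
 (c (a (nat_lit 0x20c08001)) e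
 (c (a (nat_lit 0x160e18141)) e
 (c (a (nat_lit 0x20301ec6)) e
 (c (a (nat_lit 0xcd363868)) e
 (c (a (nat_lit 0x19a34b6c5)) e e)))))))
 (c (a (nat_lit 0x4041))
 (c (a (nat_lit 0x304616001)) e
 (c (a (nat_lit 0x363a0c081)) e
 (c (a (nat_lit 0x202031e7)) e
 (c (a (nat_lit 0xa332d68)) e e))))
 (c (a (nat_lit 0x202021))
 (c (a (nat_lit 0x20203e86)) e
 (c (a (nat_lit 0x2033d508)) e
 (c z e
 (c z e
 (c (a (nat_lit 0x1702e0c026)) e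
 (c (a (nat_lit 0x42200001)) e e))))))
 (c (a (nat_lit 0x202021))
 (c (a (nat_lit 0x393b1b07)) e
 (c z e
 (c (a (nat_lit 0x651602028)) e
 (c (a (nat_lit 0x14c5402007)) e
 (c (a (nat_lit 0x40000001)) e e)))))
 (c (a (nat_lit 0x202021))
 (c (a (nat_lit 0x1315403786)) e
 (c (a (nat_lit 0x1860309aa7)) e
 (c (a (nat_lit 0x3ae00006)) e e)))
 (c (a (nat_lit 0x606021))
 (c (a (nat_lit 0x3ba006)) e
 (c (a (nat_lit 0x20000001)) e e))
 (c (a (nat_lit 0x406021)) e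
 (c z e
 (c z e
 (c (a (nat_lit 0x1ba02006)) e
 (c (a (nat_lit 0x1c02001)) e
 (c (a (nat_lit 0xe0c001)) e
 (c (a (nat_lit 0x15402003)) e
 (c (a (nat_lit 0x400001)) e
 (c (a (nat_lit 0x404001)) e
 (c (a (nat_lit 0x204001)) e
 (c (a (nat_lit 0x202021)) e
 (c (a (nat_lit 0x200001)) e e)))))))))))))))))))
 C173))) Tr.c Tr.e (nat_lit 0) C.cx C.cy
noncomputable def C175 : Tr := beta% (fun (c : Nat → Tr → Tr → Tr) (e : Tr) (z : Nat) (a b : Nat → Nat) =>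
 (c (a (nat_lit 0x404041))
 (c (a (nat_lit 0x54c8e8c5))
 (c z e
 (c (a (nat_lit 0x10ab6b6ba909)) e
 (c z e
 (c z e
 (c z e
 (c (a (nat_lit 0xae54d36a067)) e
 (c (a (nat_lit 0x13c647022008)) e e)))))))
 (c (a (nat_lit 0x1180202026))
 (c (a (nat_lit 0x11b3cf48ca48)) e
 (c (a (nat_lit 0x112fea0885c9)) e
 (c (a (nat_lit 0x183af3108927)) e
 (c z e
 (c (a (nat_lit 0x9131925e188)) e
 (c (a (nat_lit 0x33901800007)) e e))))))
 (c (a (nat_lit 0x2031bc26))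
 (c (a (nat_lit 0x1b0e6e2e4e27)) e
 (c (a (nat_lit 0x10a871d1a988)) e
 (c (a (nat_lit 0x61324e3a3a9)) e
 (c (a (nat_lit 0x1a3fec640008)) e
 (c (a (nat_lit 0x1a8480000008)) e e)))))
 (c (a (nat_lit 0x205572e5))
 (c (a (nat_lit 0x917a8ae986)) e
 (c (a (nat_lit 0x12e2c18180a9)) e
 (c (a (nat_lit 0x1f2581e00008)) e
 (c (a (nat_lit 0x18a000000006)) e e))))
 (c (a (nat_lit 0x26787c221))
 (c (a (nat_lit 0x1515a1208005)) e
 (c (a (nat_lit 0x146720000006)) e e))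
 (c (a (nat_lit 0x1a1412181))
 (c (a (nat_lit 0x156000000003)) e e)
 (c (a (nat_lit 0x16262c101)) e
 (c (a (nat_lit 0xa0c140e1)) e
 (c (a (nat_lit 0x8101a1e1)) e
 (c (a (nat_lit 0xc10301)) e
 (c (a (nat_lit 0x2243e1)) e
 (c (a (nat_lit 0xa4f21f727)) e
 (c (b (nat_lit 0x255b3fe6)) e e)))))))))))))
 (c (a (nat_lit 0x202021))
 (c (a (nat_lit 0x20203524))
 (c (a (nat_lit 0x1405c6c6a686)) e
 (c (a (nat_lit 0x174f8ded8c46)) e
 (c (a (nat_lit 0xf6ed20d6586)) e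
 (c (a (nat_lit 0x23262818168)) e
 (c (a (nat_lit 0x1dba8581e007)) e
 (c (a (nat_lit 0x172480000007)) e e))))))
 (c (a (nat_lit 0x554da5))
 (c (a (nat_lit 0x1e7ab6358dc5)) e
 (c (a (nat_lit 0x1575db2b2706)) e
 (c (a (nat_lit 0x122161818089)) e
 (c (a (nat_lit 0x1ae561e00008)) e
 (c (a (nat_lit 0x196000000005)) e e)))))
 (c (a (nat_lit 0x2254561e1))
 (c (a (nat_lit 0x104940804046)) e
 (c (a (nat_lit 0x10b101e16005)) e
 (c (a (nat_lit 0x12e5e0000006)) e e)))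
 (c (a (nat_lit 0x443ec44e1))
 (c (a (nat_lit 0xff2eae00001)) e
 (c (a (nat_lit 0x1d8000000002)) e e))
 (c (a (nat_lit 0x60e0a0e1)) e
 (c (a (nat_lit 0x160e0e0e1)) e
 (c (a (nat_lit 0xe120e1c1)) e
 (c (a (nat_lit 0x4120e1e1)) e
 (c (a (nat_lit 0x24b302)) e
 (c (a (nat_lit 0x830041)) e
 (c (a (nat_lit 0x1213d87)) e e)))))))))))
 (c (a (nat_lit 0x2021))
 (c (a (nat_lit 0xa1e140c1))
 (c (a (nat_lit 0x1534e0806044)) e
 (c (a (nat_lit 0x1fcb4120c024)) e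
 (c (a (nat_lit 0x15f6a281e003)) e
 (c (a (nat_lit 0x1dc900000004)) e e))))
 (c (a (nat_lit 0x2e2836081))
 (c (a (nat_lit 0x12a384050042)) e
 (c (a (nat_lit 0x12b1b0c00001)) e
 (c (a (nat_lit 0x1ae000000002)) e e)))
 (c (a (nat_lit 0x4e324a001))
 (c (a (nat_lit 0xfa940000001)) e e)
 (c (a (nat_lit 0x606101)) e
 (c (a (nat_lit 0x6040e0c1)) e
 (c (a (nat_lit 0x610241)) e
 (c (a (nat_lit 0x207be4)) e
 (c (a (nat_lit 0x22120e1)) e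
 (c (b (nat_lit 0xc0e4bfe1)) e
 (c z e
 (c (b (nat_lit 0x139ffa9a45)) e
 (c (b (nat_lit 0x1fe1a00001)) e e))))))))))))
 (c (a (nat_lit 0x202021))
 (c (a (nat_lit 0x342a0c001))
 (c (a (nat_lit 0x463c4e08001)) e
 (c (a (nat_lit 0xe68a0000001)) e e))
 (c (a (nat_lit 0x301830001))
 (c (a (nat_lit 0xa0000000001)) e e)
 (c (a (nat_lit 0x8100e2c1)) e
 (c (a (nat_lit 0xe161a1)) e
 (c (a (nat_lit 0x2fdba6)) e
 (c (a (nat_lit 0xd1616e8)) e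
 (c (b (nat_lit 0x3b69dffe5)) e
 (c z e
 (c (a (nat_lit 0x6a0203267)) e
 (c (a (nat_lit 0x16a5402006)) e
 (c (a (nat_lit 0x40000001)) e e)))))))))))
 (c (a (nat_lit 0x4041))
 (c (a (nat_lit 0x14142a001)) e
 (c (a (nat_lit 0x221e22001)) e
 (c (a (nat_lit 0x20405785)) e
 (c (a (nat_lit 0x32351508)) e
 (c z e
 (c z e
 (c (a (nat_lit 0x14aaa03825)) e
 (c (b (nat_lit 0x1fe2815ae1)) e
 (c (a (nat_lit 0x35800005)) e e)))))))))
 (c (a (nat_lit 0x202021))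
 (c (a (nat_lit 0x646c6fea4)) e
 (c (a (nat_lit 0x297fafae8)) e
 (c z e
 (c z e
 (c (a (nat_lit 0x1860203085)) e
 (c (a (nat_lit 0x20203fe3)) e
 (c (a (nat_lit 0x3eeca004)) e
 (c (a (nat_lit 0x40000001)) e e))))))))
 (c (a (nat_lit 0x202021))
 (c (a (nat_lit 0x1435b59048)) e
 (c z e
 (c (a (nat_lit 0x1bd892a8c8)) e
 (c (a (nat_lit 0x1b402080a8)) e
 (c (a (nat_lit 0x34c8f8e4)) e
 (c (a (nat_lit 0x40400001)) e e))))))
 (c (a (nat_lit 0x202021))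
 (c (a (nat_lit 0x13d2314028)) e
 (c (a (nat_lit 0x1fbbd30407)) e
 (c (a (nat_lit 0x16e5402026)) e
 (c (a (nat_lit 0x60406001)) e
 (c (a (nat_lit 0x20000001)) e e)))))
 (c (a (nat_lit 0x202021))
 (c (a (nat_lit 0xe12e2e327)) e
 (c (a (nat_lit 0x203b64)) e
 (c (a (nat_lit 0x200001)) e e)))
 (c (a (nat_lit 0x202021))
 (c (a (nat_lit 0x20202001)) e
 (c (a (nat_lit 0x20000001)) e e))
 (c (a (nat_lit 0x202021)) e
 (c (a (nat_lit 0x202001)) e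
 (c (a (nat_lit 0x2041)) e
 (c (a (nat_lit 0x4037a1)) e
 (c z e
 (c (a (nat_lit 0x14c02026)) e
 (c (a (nat_lit 0x41)) e
 (c (a (nat_lit 0x4181)) e
 (c (a (nat_lit 0x4161)) e
 (c (a (nat_lit 0x61)) e
 (c (a (nat_lit 0x61)) e
 (c (a (nat_lit 0x2001)) e e))))))))))))))))))))))) Tr.c Tr.e (nat_lit 0) C.cx C.cy
noncomputable def C176 : Tr := beta% (fun (c : Nat → Tr → Tr → Tr) (e : Tr) (z : Nat) (a b : Nat → Nat) =>
 (c (a (nat_lit 0x2021))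
 (c (a (nat_lit 0x202021))
 (c (b (nat_lit 0x37575fe5))
 (c (a (nat_lit 0x55111110d65))
 (c (a (nat_lit 0xd466a7b5bf324)) e e)
 (c z e
 (c z e
 (c (a (nat_lit 0x1534141a7926)) e
 (c (a (nat_lit 0xc4b931063c6)) e
 (c (a (nat_lit 0xa5d79096025)) e
 (c (a (nat_lit 0xcd60a0a10a6)) e
 (c (a (nat_lit 0x90747805706)) e
 (c (a (nat_lit 0x8ddecb02003)) e
 (c (a (nat_lit 0x2b500000002)) e e))))))))))
 (c z e
 (c (a (nat_lit 0x3c002024))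
 (c z e
 (c z e
 (c z e
 (c z e
 (c (a (nat_lit 0xbaaf71cc147)) e
 (c (b (nat_lit 0x185feb21a008)) e e))))))
 (c (a (nat_lit 0x17a0202004))
 (c (a (nat_lit 0x1331adea4687)) e
 (c (a (nat_lit 0x1baee08ba0c6)) e
 (c z e
 (c (a (nat_lit 0x9b4fe2842a7)) e
 (c (b (nat_lit 0x1ffae3600006)) e e)))))
 (c (a (nat_lit 0x20203564))
 (c (a (nat_lit 0xd8817ad4586)) e
 (c (a (nat_lit 0x5b024c2c2c8)) e
 (c (a (nat_lit 0xf5ea8424007)) e
 (c (a (nat_lit 0x12e5e0000008)) e e))))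
 (c (a (nat_lit 0x957524))
 (c (a (nat_lit 0x1201618180c8)) e
 (c (a (nat_lit 0x17a561600008)) e
 (c (a (nat_lit 0x116000000006)) e e)))
 (c (a (nat_lit 0x11231a0a2))
 (c (a (nat_lit 0x108460000006)) e e)
 (c (a (nat_lit 0x14626a1)) e
 (c (a (nat_lit 0x989e080a1)) e
 (c (a (nat_lit 0xc08080a1)) e
 (c (a (nat_lit 0x8080c3a1)) e
 (c (a (nat_lit 0xc261)) e
 (c (a (nat_lit 0xf8fafd645)) e
 (c (a (nat_lit 0x7ed3073a6)) e
 (c (b (nat_lit 0xe1013fe1)) e e)))))))))))))))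
 C175)
 (c (a (nat_lit 0x2021))
 (c (a (nat_lit 0x202021))
 (c (a (nat_lit 0x14c0202023))
 (c (a (nat_lit 0x189650b35365)) e
 (c (a (nat_lit 0x16f236f64e66)) e
 (c (a (nat_lit 0x141b96466466)) e
 (c (a (nat_lit 0x1a3c4805ec06)) e
 (c (a (nat_lit 0x1164d6a54046)) e
 (c (a (nat_lit 0xd09dc98025)) e
 (c (a (nat_lit 0x19f505000005)) e e)))))))
 (c (a (nat_lit 0x20203524))
 (c (a (nat_lit 0x105499796986)) e
 (c (a (nat_lit 0x1c372cc4c4c7)) e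
 (c (a (nat_lit 0x1a93caaee2c7)) e
 (c (a (nat_lit 0x6b463816168)) e
 (c (a (nat_lit 0x1f1b07e18007)) e
 (c (a (nat_lit 0x16e660000007)) e e))))))
 (c (a (nat_lit 0x20352fe4))
 (c (a (nat_lit 0x12a565856406)) e
 (c (a (nat_lit 0x1353fb0b0865)) e
 (c (a (nat_lit 0x128161818088)) e
 (c (a (nat_lit 0x1d82c1800007)) e
 (c (a (nat_lit 0x11e000000005)) e e)))))
 (c (a (nat_lit 0x26220e1))
 (c (a (nat_lit 0x114a40608025)) e
 (c (a (nat_lit 0x131362010004)) e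
 (c (a (nat_lit 0x128a00000004)) e e)))
 (c (a (nat_lit 0x2a1c38001))
 (c (a (nat_lit 0xa4a04a00001)) e
 (c (a (nat_lit 0x56000000001)) e e))
 (c (a (nat_lit 0x202a2e1)) e
 (c (a (nat_lit 0x60810161)) e
 (c (a (nat_lit 0x20e100e1)) e
 (c (a (nat_lit 0x160a0a1)) e
 (c (a (nat_lit 0x2080c1)) e
 (c (a (nat_lit 0x1575757685)) e
 (c (a (nat_lit 0xab272fa46)) e
 (c (a (nat_lit 0x405ce024)) e e)))))))))))))
 (c (a (nat_lit 0x202021))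
 (c (a (nat_lit 0x20355084))
 (c (a (nat_lit 0xd577d0d0ac5)) e
 (c (a (nat_lit 0x19fc05a58446)) e
 (c (a (nat_lit 0x15a8cd658446)) e
 (c (a (nat_lit 0x1543c18180a8)) e
 (c (a (nat_lit 0x1ae2c1800007)) e
 (c (a (nat_lit 0x19e000000004)) e e))))))
 (c (a (nat_lit 0x41e1a081))
 (c (a (nat_lit 0x11c960404026)) e
 (c (a (nat_lit 0x12edc0e0e025)) e
 (c (a (nat_lit 0x1b9c22c1c004)) e
 (c (a (nat_lit 0x1f2e20000004)) e e))))
 (c (a (nat_lit 0x1e1c26041))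
 (c (a (nat_lit 0x114243850042)) e
 (c (a (nat_lit 0x129150e00001)) e
 (c (a (nat_lit 0x40000000001)) e e)))
 (c (a (nat_lit 0x4e2c5a001))
 (c (a (nat_lit 0x1167e0000001)) e e)
 (c (a (nat_lit 0x2081a281)) e
 (c (a (nat_lit 0x40a1c1c1)) e
 (c (a (nat_lit 0x40e141c1)) e
 (c (a (nat_lit 0xa0810141)) e
 (c (a (nat_lit 0x1cbffffd65)) e
 (c (a (nat_lit 0x1515113d45)) e
 (c (a (nat_lit 0x1e7d18126)) e e)))))))))))
 (c (a (nat_lit 0x202021))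
 (c (a (nat_lit 0xa0c10001))
 (c (a (nat_lit 0x14a080a08023)) e
 (c (a (nat_lit 0x223e7298161)) e
 (c (a (nat_lit 0x82828400001)) e
 (c (a (nat_lit 0x24000000001)) e e))))
 (c (a (nat_lit 0x101028121))
 (c (a (nat_lit 0x484cb820001)) e
 (c (a (nat_lit 0x132f40000001)) e e))
 (c (a (nat_lit 0x321e38041))
 (c (a (nat_lit 0x82000000001)) e e)
 (c (a (nat_lit 0xc181e1)) e
 (c (a (nat_lit 0x1408041)) e
 (c (a (nat_lit 0xc0a041)) e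
 (c (a (nat_lit 0x203565)) e
 (c (a (nat_lit 0xe1202081)) e
 (c (a (nat_lit 0x16040f9c4)) e e)))))))))
 (c (a (nat_lit 0x202021))
 (c (a (nat_lit 0xa060a021))
 (c (a (nat_lit 0xc2c0a00001)) e
 (c (a (nat_lit 0x94000000001)) e e))
 (c (a (nat_lit 0x2a18400a1)) e
 (c (a (nat_lit 0x2830101)) e
 (c (a (nat_lit 0xe0e001)) e
 (c (a (nat_lit 0x2027f827)) e
 (c (a (nat_lit 0x313b7b48)) e
 (c (a (nat_lit 0x5a7a6f46)) e
 (c z e
 (c z e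
 (c (a (nat_lit 0x1701600001)) e e))))))))))
 (c (a (nat_lit 0x2041))
 (c (a (nat_lit 0x24262e021)) e
 (c (a (nat_lit 0x2e2218001)) e
 (c (a (nat_lit 0x40405f85)) e
 (c (a (nat_lit 0x31779d88)) e
 (c z e
 (c z e
 (c z e
 (c (a (nat_lit 0x1be7c7c006)) e
 (c (a (nat_lit 0x60000001)) e e)))))))))
 (c (a (nat_lit 0x202021))
 (c (a (nat_lit 0x20203025)) e
 (c (a (nat_lit 0x3339b9c8)) e
 (c z e
 (c z e
 (c z e
 (c (b (nat_lit 0x1fe0566d43)) e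
 (c (a (nat_lit 0x31a00005)) e e)))))))
 (c (nat_lit 1)
 (c (a (nat_lit 0x1234543128)) e
 (c z e
 (c z e
 (c (a (nat_lit 0x17a02330c7)) e
 (c (a (nat_lit 0x27d66006)) e
 (c (nat_lit 1) e e))))))
 (c (a (nat_lit 0x2021))
 (c z e
 (c (a (nat_lit 0x1440202008)) e
 (c (a (nat_lit 0x3ec02024)) e
 (c (a (nat_lit 0x20400001)) e e))))
 (c (a (nat_lit 0x202021))
 (c (a (nat_lit 0x19664026a6)) e
 (c (a (nat_lit 0x480602001)) e
 (c (a (nat_lit 0x200000001)) e e)))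
 (c (a (nat_lit 0x202021))
 (c (a (nat_lit 0x20200001)) e e)
 (c (a (nat_lit 0x404021)) e
 (c (b (nat_lit 0x205fe1)) e
 (c (b (nat_lit 0x5fffe1)) e
 (c z e
 (c (a (nat_lit 0x18402006)) e
 (c (a (nat_lit 0x804001)) e
 (c (a (nat_lit 0xc0a081)) e
 (c (a (nat_lit 0x4061)) e
 (c (a (nat_lit 0x81)) e
 (c (a (nat_lit 0x6081)) e
 (c (a (nat_lit 0x2041)) e
 (c (a (nat_lit 0x200001)) e e))))))))))))))))))))))
 C174))) Tr.c Tr.e (nat_lit 0) C.cx C.cy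
noncomputable def C177 : Tr := beta% (fun (c : Nat → Tr → Tr → Tr) (e : Tr) (z : Nat) (a b : Nat → Nat) =>
 (c (a (nat_lit 0x404041))
 (c z e
 (c (a (nat_lit 0x10602006))
 (c z e
 (c z e
 (c z e
 (c z e
 (c (a (nat_lit 0x134ebb7ac068)) e
 (c (b (nat_lit 0x17ffedc20007)) e e))))))
 (c (a (nat_lit 0x1c80202005))
 (c (a (nat_lit 0x193bf8d02707)) e
 (c (a (nat_lit 0x1b5a07894928)) e
 (c z e
 (c (a (nat_lit 0x6d6db874028)) e
 (c (b (nat_lit 0x1dffe9e00006)) e e)))))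
 (c (a (nat_lit 0x20305ac6))
 (c (a (nat_lit 0xc4a749226c8)) e
 (c z e
 (c (a (nat_lit 0x15fcdc470007)) e
 (c (a (nat_lit 0x179260000007)) e e))))
 (c (a (nat_lit 0x205514a5)) e
 (c (b (nat_lit 0x1ff2f1a043)) e
 (c (a (nat_lit 0x222220161)) e
 (c (a (nat_lit 0x764c401)) e
 (c (a (nat_lit 0x100c12041)) e
 (c (a (nat_lit 0x6060c101)) e
 (c (a (nat_lit 0x100a12001)) e
 (c (a (nat_lit 0x20203005)) e
 (c (a (nat_lit 0x32ba5de5)) e e)))))))))))))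
 (c (a (nat_lit 0x202021))
 (c (a (nat_lit 0x15c0202005))
 (c (a (nat_lit 0x14ac0c0e4a86)) e
 (c (a (nat_lit 0x19b8392d6ac6)) e
 (c (a (nat_lit 0x171671952626)) e
 (c z e
 (c (a (nat_lit 0x3f0adc50148)) e
 (c (a (nat_lit 0x16714da00006)) e e))))))
 (c (a (nat_lit 0x20203505))
 (c (a (nat_lit 0x15544d8d8d26)) e
 (c (a (nat_lit 0xcaa706a62c8)) e
 (c (a (nat_lit 0xb7a43c742c8)) e
 (c (a (nat_lit 0x1a7807816008)) e
 (c (a (nat_lit 0x1a8b80000007)) e e)))))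
 (c (a (nat_lit 0x2054a0a3))
 (c (a (nat_lit 0x1e51baa2e046)) e
 (c (a (nat_lit 0x19852300e028)) e
 (c (a (nat_lit 0x17c2e1800008)) e
 (c (a (nat_lit 0x12a000000006)) e e))))
 (c (a (nat_lit 0xac6be1c1))
 (c (a (nat_lit 0x12d30180c005)) e
 (c (a (nat_lit 0x1529c0000005)) e e))
 (c (a (nat_lit 0x41412081)) e
 (c (a (nat_lit 0x14262a001)) e
 (c (a (nat_lit 0x341e1e0a1)) e
 (c (a (nat_lit 0x40e12061)) e
 (c (a (nat_lit 0x402043e1)) e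
 (c (a (nat_lit 0x11718047c5)) e
 (c (a (nat_lit 0x8080c001)) e
 (c z e
 (c (a (nat_lit 0x47515fbe4)) e
 (c (b (nat_lit 0x1fe2c00001)) e e))))))))))))))
 (c (a (nat_lit 0x202021))
 (c (a (nat_lit 0x350a84))
 (c (a (nat_lit 0x17f556152a84)) e
 (c (a (nat_lit 0x15344dc582c6)) e
 (c (a (nat_lit 0x1802c32300e7)) e
 (c (a (nat_lit 0x1cc2c1600007)) e
 (c (a (nat_lit 0x174000000004)) e e)))))
 (c (a (nat_lit 0x4e4c0c1))
 (c (a (nat_lit 0x1167a0808046)) e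
 (c (a (nat_lit 0x1c7cc5840004)) e
 (c (a (nat_lit 0x1aae80000004)) e e)))
 (c (a (nat_lit 0x7045006a1))
 (c (a (nat_lit 0x16966e200001)) e
 (c (a (nat_lit 0xd6000000001)) e e))
 (c (a (nat_lit 0xa0a04001)) e
 (c (a (nat_lit 0xc0408001)) e
 (c (a (nat_lit 0xe0e06021)) e
 (c (a (nat_lit 0x20403a44)) e
 (c (a (nat_lit 0x4038e2)) e
 (c (a (nat_lit 0x20306ce4)) e
 (c z e
 (c (a (nat_lit 0x8b04140a3)) e
 (c (a (nat_lit 0x12b4c04004)) e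
 (c (a (nat_lit 0x20000001)) e e)))))))))))))
 (c (a (nat_lit 0x202021))
 (c (a (nat_lit 0x2e1e3e1a1))
 (c (a (nat_lit 0x11218343e062)) e
 (c (a (nat_lit 0x15338f400001)) e
 (c (a (nat_lit 0x38000000001)) e e)))
 (c (a (nat_lit 0xb270561a1))
 (c (a (nat_lit 0x1f0c60000001)) e e)
 (c (a (nat_lit 0x84a3c0c1)) e
 (c (a (nat_lit 0x140c0c001)) e
 (c (a (nat_lit 0x2027f4e7)) e
 (c (a (nat_lit 0x2b995948)) e
 (c (a (nat_lit 0xa78787386)) e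
 (c z e
 (c (a (nat_lit 0x124d803286)) e
 (c (a (nat_lit 0x144060c083)) e
 (c (a (nat_lit 0x32a00005)) e e)))))))))))
 (c (a (nat_lit 0x204041))
 (c (a (nat_lit 0x3a263c1e1))
 (c (a (nat_lit 0x50000000001)) e e)
 (c (a (nat_lit 0x261e32041)) e
 (c (a (nat_lit 0x20203e66)) e
 (c (a (nat_lit 0x2f529268)) e
 (c z e
 (c z e
 (c (a (nat_lit 0x9a3403026)) e
 (c (a (nat_lit 0x1480402025)) e
 (c (a (nat_lit 0x3514c004)) e
 (c (a (nat_lit 0x20000001)) e e))))))))))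
 (c (a (nat_lit 0x202021))
 (c (a (nat_lit 0x402059e4)) e
 (c (a (nat_lit 0x31795948)) e
 (c z e
 (c z e
 (c (a (nat_lit 0x1549003f05)) e
 (c (a (nat_lit 0x110042c466)) e
 (c (a (nat_lit 0x2a912045)) e
 (c (a (nat_lit 0x400001)) e e))))))))
 (c (a (nat_lit 0x202021))
 (c (a (nat_lit 0x14569691a8)) e
 (c z e
 (c z e
 (c (a (nat_lit 0x15a1602026)) e
 (c (a (nat_lit 0x35402324)) e
 (c (a (nat_lit 0x80604001)) e
 (c (a (nat_lit 0x20000001)) e e)))))))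
 (c (nat_lit 1)
 (c z e
 (c (a (nat_lit 0x13c59921a6)) e
 (c (a (nat_lit 0x912e04027)) e
 (c (a (nat_lit 0x61ee01)) e
 (c (a (nat_lit 0x40200001)) e e)))))
 (c (a (nat_lit 0x202001))
 (c (a (nat_lit 0x11d6f58d67)) e
 (c (a (nat_lit 0x1e06040a1)) e
 (c (a (nat_lit 0x20404001)) e
 (c (a (nat_lit 0x20000001)) e e))))
 (c (a (nat_lit 0x202021))
 (c (a (nat_lit 0x20202021)) e
 (c (a (nat_lit 0x20200001)) e e))
 (c (a (nat_lit 0x202021))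
 (c (a (nat_lit 0x20000001)) e e)
 (c (a (nat_lit 0x202021)) e
 (c (a (nat_lit 0x202001)) e
 (c (a (nat_lit 0x2021)) e
 (c (a (nat_lit 0x204081)) e
 (c z e
 (c (a (nat_lit 0x13a00006)) e
 (c (a (nat_lit 0x200021)) e
 (c (a (nat_lit 0x4021)) e
 (c (a (nat_lit 0x2001)) e
 (c (a (nat_lit 0x4001)) e
 (c (a (nat_lit 0x200021)) e
 (c (a (nat_lit 0x200001)) e e)))))))))))))))))))))))) Tr.c Tr.e (nat_lit 0) C.cx C.cy
noncomputable def C178 : Tr := beta% (fun (c : Nat → Tr → Tr → Tr) (e : Tr) (z : Nat) (a b : Nat → Nat) =>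
 (c (a (nat_lit 0x202021))
 (c (a (nat_lit 0x7f742c4c7))
 (c z e
 (c z e
 (c z e
 (c z e
 (c z e
 (c (a (nat_lit 0xf727121cb87)) e
 (c (a (nat_lit 0x3ceb79a9228)) e
 (c z e
 (c (a (nat_lit 0x1120000006)) e e)))))))))
 (c z e
 (c (a (nat_lit 0x5b0402006))
 (c (a (nat_lit 0x1a1d3fb1cb07)) e
 (c (a (nat_lit 0x1ad7d5cd4308)) e e))
 (c (a (nat_lit 0x1180202006))
 (c (a (nat_lit 0xc340d498047)) e e)
 (c (a (nat_lit 0x202ed946))
 (c z e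
 (c (a (nat_lit 0x13092421800a)) e
 (c (a (nat_lit 0x140d80000008)) e e)))
 (c (a (nat_lit 0x351525))
 (c (a (nat_lit 0x170601600008)) e
 (c (a (nat_lit 0x100000000008)) e e))
 (c (a (nat_lit 0x73735366)) e
 (c (b (nat_lit 0x1fe347c421)) e
 (c (a (nat_lit 0x846484a1)) e
 (c (a (nat_lit 0x81c2a1)) e
 (c (a (nat_lit 0x816121)) e
 (c (a (nat_lit 0x203fc5)) e
 (c (a (nat_lit 0x7df2026)) e
 (c z e
 (c (a (nat_lit 0x1cc9816147)) e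
 (c (a (nat_lit 0x501400001)) e e))))))))))))))))
 (c (a (nat_lit 0x202021))
 (c (a (nat_lit 0xdb3c7e7e6))
 (c (a (nat_lit 0x1556f1ee8d26)) e
 (c (a (nat_lit 0x1396d74d0c67)) e
 (c (a (nat_lit 0x1370300dcea7)) e e)))
 (c (a (nat_lit 0x15a0202006))
 (c (a (nat_lit 0x15154a6a29e7)) e
 (c (a (nat_lit 0x1c77149d6107)) e
 (c z e
 (c z e
 (c (a (nat_lit 0x68d9800006)) e e)))))
 (c (a (nat_lit 0x20203525))
 (c (a (nat_lit 0x104fdc0d4567)) e e)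
 (c (a (nat_lit 0x215821a2))
 (c (a (nat_lit 0x15e161806029)) e
 (c (a (nat_lit 0x1162a1000009)) e e))
 (c (a (nat_lit 0x32120083))
 (c (a (nat_lit 0x14e9a0000005)) e e)
 (c (a (nat_lit 0x1a12001)) e
 (c (a (nat_lit 0x21c20161)) e
 (c (a (nat_lit 0x20412201)) e
 (c (a (nat_lit 0x205464)) e
 (c (a (nat_lit 0x1416038a5)) e
 (c (a (nat_lit 0x405064a6)) e
 (c z e
 (c (a (nat_lit 0x19e2604164)) e
 (c (a (nat_lit 0xbe008004)) e
 (c (a (nat_lit 0x1ca0000004)) e e)))))))))))))))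
 (c (a (nat_lit 0x202021))
 (c (a (nat_lit 0x40203504))
 (c (a (nat_lit 0x1707ed2b0aa5)) e
 (c (a (nat_lit 0xccbb28b8607)) e
 (c (a (nat_lit 0x6d543e2c168)) e
 (c (a (nat_lit 0xd77a4616007)) e
 (c (a (nat_lit 0x1049a0000007)) e e)))))
 (c (a (nat_lit 0x20352d45))
 (c (a (nat_lit 0xff22d858367)) e
 (c (a (nat_lit 0x160261818089)) e
 (c (a (nat_lit 0x17c2c1800008)) e
 (c (a (nat_lit 0x1a8000000005)) e e))))
 (c (a (nat_lit 0x8587e101))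
 (c (a (nat_lit 0xfd04160e005)) e
 (c (a (nat_lit 0x102840000005)) e e))
 (c (a (nat_lit 0xa1012001))
 (c (a (nat_lit 0x122000000002)) e e)
 (c (a (nat_lit 0x1e1e2c021)) e
 (c (a (nat_lit 0xa18181)) e
 (c (a (nat_lit 0x20205d04)) e
 (c (a (nat_lit 0x13b3c02a43)) e
 (c (a (nat_lit 0x40388b64)) e
 (c z e
 (c (a (nat_lit 0x1e17624085)) e
 (c (a (nat_lit 0x40dd43)) e
 (c (a (nat_lit 0x3e000004)) e e)))))))))))))
 (c (a (nat_lit 0x202021))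
 (c (a (nat_lit 0x84e48121))
 (c (a (nat_lit 0x138500604046)) e
 (c (a (nat_lit 0x14d123a36004)) e
 (c (a (nat_lit 0x102880000004)) e e)))
 (c (a (nat_lit 0x6e471abc1))
 (c (a (nat_lit 0x1bd72f600001)) e
 (c (a (nat_lit 0x110000000001)) e e))
 (c (a (nat_lit 0xe1e2a081)) e
 (c (a (nat_lit 0x8100e1)) e
 (c (a (nat_lit 0x202fdfc6)) e
 (c (a (nat_lit 0x3ccd69688)) e
 (c (a (nat_lit 0xe99f9f566)) e
 (c z e
 (c (a (nat_lit 0x1249606505)) e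
 (c (a (nat_lit 0x1280499d64)) e
 (c (a (nat_lit 0xc71250005)) e
 (c (a (nat_lit 0x80000001)) e e))))))))))))
 (c (a (nat_lit 0x2021))
 (c (a (nat_lit 0x4a264e301))
 (c (a (nat_lit 0xe6420000001)) e e)
 (c (a (nat_lit 0x401a32001)) e
 (c (a (nat_lit 0x20203a86)) e
 (c (a (nat_lit 0x2ff8d8c8)) e
 (c z e
 (c z e
 (c (b (nat_lit 0x16ffe0a003)) e
 (c (a (nat_lit 0x2e16001)) e
 (c (a (nat_lit 0x1f004184)) e
 (c (a (nat_lit 0x40c00001)) e e))))))))))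
 (c (a (nat_lit 0x202021))
 (c (a (nat_lit 0x20203025)) e
 (c (a (nat_lit 0x2d111108)) e
 (c z e
 (c z e
 (c (b (nat_lit 0x12ffe076e3)) e
 (c (a (nat_lit 0x160e078c1)) e
 (c (a (nat_lit 0x3f08f2025)) e
 (c (a (nat_lit 0x402001)) e
 (c (a (nat_lit 0x60000001)) e e)))))))))
 (c (a (nat_lit 0x202021))
 (c (a (nat_lit 0x1135151068)) e
 (c z e
 (c (a (nat_lit 0x1f1dfe7768)) e
 (c (a (nat_lit 0x1adcbf1546)) e
 (c (a (nat_lit 0x14b7058006)) e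
 (c (a (nat_lit 0xc101)) e
 (c (a (nat_lit 0x600001)) e e)))))))
 (c (a (nat_lit 0x202021))
 (c (a (nat_lit 0x1d3c3cb207)) e
 (c (a (nat_lit 0x1717983828)) e
 (c (a (nat_lit 0x12136f8027)) e
 (c (a (nat_lit 0x40004001)) e
 (c (a (nat_lit 0x404001)) e
 (c (a (nat_lit 0x60000001)) e e))))))
 (c (a (nat_lit 0x202021))
 (c (a (nat_lit 0x1798366f67)) e
 (c (a (nat_lit 0x1500c0e042)) e
 (c (a (nat_lit 0x40606021)) e
 (c (a (nat_lit 0x120600001)) e e))))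
 (c (a (nat_lit 0x202021))
 (c (a (nat_lit 0x202021)) e
 (c (a (nat_lit 0x20202001)) e
 (c (a (nat_lit 0x20000001)) e e)))
 (c (a (nat_lit 0x202021))
 (c (a (nat_lit 0x20200001)) e e)
 (c (a (nat_lit 0x202021)) e
 (c (a (nat_lit 0x202021)) e
 (c (a (nat_lit 0x61)) e
 (c (a (nat_lit 0x2041)) e
 (c (a (nat_lit 0x203306)) e
 (c z e
 (c (a (nat_lit 0x15802006)) e
 (c (a (nat_lit 0x400021)) e
 (c (a (nat_lit 0x204061)) e
 (c (a (nat_lit 0x4021)) e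
 (c (a (nat_lit 0x4061)) e
 (c (a (nat_lit 0x4001)) e e)))))))))))))))))))))))) Tr.c Tr.e (nat_lit 0) C.cx C.cy
noncomputable def C179 : Tr := beta% (fun (c : Nat → Tr → Tr → Tr) (e : Tr) (z : Nat) (a b : Nat → Nat) =>
 (c (a (nat_lit 0x202021))
 (c (nat_lit 1)
 (c (a (nat_lit 0x5b04b2b2b23))
 (c (a (nat_lit 0x1859190b2b2b23)) e
 (c (a (nat_lit 0x127a02e2e2e2e5)) e
 (c (a (nat_lit 0x1b02e30302f845)) e
 (c (a (nat_lit 0x5c18181921ca6)) e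
 (c (a (nat_lit 0x1a0e0c735c287)) e
 (c (a (nat_lit 0x7c653e724e466)) e
 (c (a (nat_lit 0xc533064e66585)) e
 (c (a (nat_lit 0x1288c5c8838006)) e e))))))))
 (c (a (nat_lit 0x152020202004))
 (c (a (nat_lit 0x12418020202ca6))
 (c z e
 (c (a (nat_lit 0x1143a00000000007)) e e))
 (c (a (nat_lit 0x260c0e02b39e7)) e
 (c (a (nat_lit 0xc02032dbf787)) e
 (c (a (nat_lit 0x362e9574bc448)) e
 (c (a (nat_lit 0xdad5adb72e487)) e
 (c (a (nat_lit 0x344514740a2c7)) e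
 (c (a (nat_lit 0x87cf1e3000006)) e e)))))))
 (c (a (nat_lit 0x1822200e0e1))
 (c (a (nat_lit 0x1602029f72486)) e
 (c (a (nat_lit 0x202dd0c20f27)) e
 (c z e
 (c z e
 (c (a (nat_lit 0x275213274007)) e
 (c (a (nat_lit 0x6d4ab80000007)) e e))))))
 (c (a (nat_lit 0x60206061))
 (c (a (nat_lit 0x82ad98f68ed27)) e
 (c z e
 (c (a (nat_lit 0x116124a8ea4568)) e
 (c (a (nat_lit 0x255022e00007)) e e))))
 (c (a (nat_lit 0x4040607a23))
 (c (a (nat_lit 0x16474bc88b5226)) e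
 (c (b (nat_lit 0x1ff295bdee2006)) e
 (c (a (nat_lit 0x3d509c0000006)) e e)))
 (c (a (nat_lit 0x8c8f84d7625))
 (c (a (nat_lit 0xe895c4c00006)) e
 (c (a (nat_lit 0x1210e000000006)) e e))
 (c (a (nat_lit 0x678123f5e85))
 (c (a (nat_lit 0x200000000001)) e e)
 (c z e
 (c (a (nat_lit 0xed2722e2ee7)) e
 (c (a (nat_lit 0x11f1d30fcd67)) e
 (c (a (nat_lit 0xeaff7774a67)) e
 (c (a (nat_lit 0x10f19188e887)) e
 (c (a (nat_lit 0x153500202025)) e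
 (c (a (nat_lit 0x1b0020202005)) e
 (c (a (nat_lit 0x40000001)) e e)))))))))))))))
 (c (a (nat_lit 0x20202021))
 (c (a (nat_lit 0x20e0c08001))
 (c (a (nat_lit 0x98181802892c5)) e
 (c (a (nat_lit 0xc0c0e7123867)) e
 (c (a (nat_lit 0x4a4aad97149a8)) e
 (c (a (nat_lit 0x84a52b3096308)) e
 (c z e
 (c (a (nat_lit 0x1c192f2d6006)) e e))))))
 (c (a (nat_lit 0x1616a0602062))
 (c (a (nat_lit 0x4a4ac572d4f67)) e
 (c z e
 (c z e
 (c z e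
 (c (b (nat_lit 0x1ff550e8600008)) e e)))))
 (c (a (nat_lit 0x20402030c4))
 (c z e
 (c z e
 (c z e
 (c (a (nat_lit 0xad89be0000007)) e e))))
 (c (a (nat_lit 0x7a7aeec50e7)) e
 (c z e
 (c z e
 (c z e
 (c (a (nat_lit 0xe13135014a8)) e
 (c (a (nat_lit 0x1c1cdf199048)) e
 (c (a (nat_lit 0x16d6bb8a4928)) e
 (c (a (nat_lit 0xd7028868508)) e
 (c (a (nat_lit 0x1ea020202026)) e
 (c (a (nat_lit 0xe181200001)) e
 (c (a (nat_lit 0x4000000001)) e e))))))))))))))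
 (c (a (nat_lit 0x200001))
 (c (a (nat_lit 0x2040609623))
 (c (a (nat_lit 0x386666264ba27)) e e)
 (c (a (nat_lit 0x23e1b387)) e
 (c z e
 (c z e
 (c z e
 (c z e
 (c (a (nat_lit 0x125539b5ace8)) e
 (c (a (nat_lit 0x1356af83e2a8)) e
 (c (a (nat_lit 0x14136aa908e8)) e
 (c (a (nat_lit 0x18eaa5036107)) e
 (c (a (nat_lit 0x2162216001)) e
 (c (a (nat_lit 0x80000001)) e e))))))))))))
 (c (a (nat_lit 0x40404041))
 (c (a (nat_lit 0xbcdafd90b07)) e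
 (c z e
 (c z e
 (c (a (nat_lit 0x1b385192dec7)) e
 (c z e
 (c z e
 (c z e
 (c (a (nat_lit 0x196d68258ce8)) e
 (c (a (nat_lit 0x18c5c5855927)) e
 (c (a (nat_lit 0x8182000001)) e
 (c (a (nat_lit 0x2000000001)) e e)))))))))))
 (c (a (nat_lit 0x1524))
 (c (a (nat_lit 0x9d97494b546)) e
 (c (a (nat_lit 0xaca0e6ad087)) e
 (c (a (nat_lit 0xd910f8c8d47)) e
 (c z e
 (c z e
 (c z e
 (c (a (nat_lit 0xa472577bba8)) e
 (c (a (nat_lit 0x1f07e48dc005)) e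
 (c (a (nat_lit 0x1420e0000001)) e e)))))))))
 (c (a (nat_lit 0x388aa5))
 (c (a (nat_lit 0x6e7f20e2706)) e
 (c (a (nat_lit 0xd12d38d1247)) e
 (c z e
 (c z e
 (c (a (nat_lit 0x8fbac007046)) e
 (c (a (nat_lit 0x10202b8bc027)) e
 (c (a (nat_lit 0x1aaf79c00005)) e
 (c (a (nat_lit 0x13a000000003)) e e))))))))
 (c (a (nat_lit 0x3d6a8605))
 (c (a (nat_lit 0xb970080bfa5)) e
 (c z e
 (c (a (nat_lit 0x100f342aa047)) e
 (c (b (nat_lit 0x5090c1a1fe7)) e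
 (c (a (nat_lit 0x2577476008)) e
 (c (a (nat_lit 0x3120000007)) e e))))))
 (c z e
 (c (a (nat_lit 0x1658b03026))
 (c (a (nat_lit 0xa4f71db4367)) e
 (c (a (nat_lit 0x30f9bc8a008)) e e))
 (c (a (nat_lit 0x1300202025))
 (c (a (nat_lit 0xdf228a00008)) e e)
 (c (b (nat_lit 0x1fe02dd306)) e
 (c (a (nat_lit 0x20555544)) e
 (c (a (nat_lit 0xa0c0e1)) e
 (c (a (nat_lit 0x606081)) e
 (c (a (nat_lit 0x6040e0c1)) e
 (c (a (nat_lit 0x20606101)) e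
 (c (a (nat_lit 0x1515151685)) e
 (c (a (nat_lit 0xab24b51e6)) e
 (c (a (nat_lit 0x1fd1bef9c5)) e e)))))))))))))))))))
 (c (a (nat_lit 0x202021))
 (c (a (nat_lit 0x20202021))
 (c (a (nat_lit 0x167660602001))
 (c (a (nat_lit 0x3a38384209ac4)) e
 (c (a (nat_lit 0x403ec778db9c5)) e
 (c (a (nat_lit 0x96c39d1f01207)) e
 (c (a (nat_lit 0xc6a5892940f67)) e
 (c z e
 (c (a (nat_lit 0x2ed156b200006)) e e))))))
 (c (a (nat_lit 0x4040405304))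
 (c (a (nat_lit 0x4c6e925c3f888)) e
 (c z e
 (c z e
 (c z e
 (c (a (nat_lit 0x187e2fa0000007)) e e)))))
 (c (a (nat_lit 0x121218f5bfa6)) e
 (c (a (nat_lit 0xfd335d73b47)) e
 (c z e
 (c z e
 (c (a (nat_lit 0x1455320c7148)) e
 (c (a (nat_lit 0xf0be9508b08)) e
 (c (a (nat_lit 0x120eb0c8e508)) e
 (c (a (nat_lit 0xdd2a6814048)) e
 (c (a (nat_lit 0x1fb06866e0a6)) e
 (c (a (nat_lit 0x104020402005)) e
 (c (a (nat_lit 0x22160000001)) e e)))))))))))))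
 (c (a (nat_lit 0x40402021))
 (c (a (nat_lit 0x7c7cb4c1766))
 (c (a (nat_lit 0x70544a7906ba8)) e e)
 (c (a (nat_lit 0x9eacdcfd489)) e
 (c z e
 (c z e
 (c z e
 (c (a (nat_lit 0x11b132708ae9)) e
 (c (a (nat_lit 0x106db0c824a9)) e
 (c (a (nat_lit 0x14b2ca64e928)) e
 (c (a (nat_lit 0x1a2988640948)) e
 (c (a (nat_lit 0xba563c03a87)) e
 (c (a (nat_lit 0x82e1e00001)) e
 (c (a (nat_lit 0xc000000001)) e e))))))))))))
 (c (a (nat_lit 0x1525))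
 (c z e
 (c z e
 (c z e
 (c z e
 (c z e
 (c z e
 (c z e
 (c (a (nat_lit 0x1e7ef4722647)) e
 (c (a (nat_lit 0x1e1ec5a005)) e
 (c (a (nat_lit 0x18120000001)) e e))))))))))
 (c (a (nat_lit 0x7a7b25246))
 (c z e
 (c z e
 (c z e
 (c z e
 (c z e
 (c z e
 (c (b (nat_lit 0x9e8343fec67)) e
 (c (a (nat_lit 0x121cb6400005)) e
 (c (a (nat_lit 0x1e8000000003)) e e)))))))))
 (c (a (nat_lit 0x671920748)) e
 (c z e
 (c (a (nat_lit 0xad9a02025))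
 (c z e
 (c (a (nat_lit 0xd2dd4066348)) e
 (c (b (nat_lit 0x127ffff94008)) e e)))
 (c (a (nat_lit 0x1c20202025))
 (c (a (nat_lit 0x908dacca167)) e
 (c (a (nat_lit 0x33ffa600008)) e e))
 (c (b (nat_lit 0x1fe02c76e6))
 (c (a (nat_lit 0x114940000009)) e e)
 (c (a (nat_lit 0xe36241)) e
 (c (a (nat_lit 0x35959565)) e
 (c (a (nat_lit 0x100c061)) e
 (c (a (nat_lit 0xc0e0c001)) e
 (c (a (nat_lit 0x204061)) e
 (c (a (nat_lit 0x20205c03)) e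
 (c (a (nat_lit 0x145b06f3c6)) e
 (c (a (nat_lit 0xf0fe03d85)) e e)))))))))))))))))
 (c (a (nat_lit 0x404041))
 (c (a (nat_lit 0x1524))
 (c (a (nat_lit 0x7070aaf1926))
 (c (a (nat_lit 0x306ab7fed7aa6)) e e)
 (c z e
 (c z e
 (c z e
 (c z e
 (c (a (nat_lit 0x18fa970f2d08)) e
 (c (a (nat_lit 0x120ae8ca2367)) e
 (c (a (nat_lit 0x1686a9e95106)) e
 (c (a (nat_lit 0x2b641158a7)) e
 (c (a (nat_lit 0x17e56049e005)) e
 (c (a (nat_lit 0x8120000001)) e e)))))))))))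
 (c (b (nat_lit 0x20355fe5))
 (c z e
 (c z e
 (c z e
 (c z e
 (c z e
 (c (a (nat_lit 0x80310250768)) e
 (c (a (nat_lit 0x2288e8b1528)) e
 (c z e
 (c (a (nat_lit 0xe35800005)) e
 (c (a (nat_lit 0x4000000001)) e e))))))))))
 (c z e
 (c z e
 (c (a (nat_lit 0xcb22b0b07)) e
 (c (a (nat_lit 0x1bc0202025))
 (c z e
 (c (a (nat_lit 0x5fc3fe6c448)) e
 (c (b (nat_lit 0x171fee400008)) e e)))
 (c (b (nat_lit 0x1fe02e7906))
 (c (a (nat_lit 0x3764da3a008)) e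
 (c (a (nat_lit 0x17a980000009)) e e))
 (c (a (nat_lit 0x757585))
 (c (a (nat_lit 0x1b0000000007)) e e)
 (c (a (nat_lit 0x54f4f4e6)) e
 (c (a (nat_lit 0x101a30341)) e
 (c (a (nat_lit 0x41010181)) e
 (c (a (nat_lit 0x20a0a161)) e
 (c (a (nat_lit 0x205363)) e
 (c (a (nat_lit 0x203fc5)) e
 (c (a (nat_lit 0x3ab1187)) e e)))))))))))))))
 C178)))) Tr.c Tr.e (nat_lit 0) C.cx C.cy
noncomputable def C180 : Tr := beta% (fun (c : Nat → Tr → Tr → Tr) (e : Tr) (z : Nat) (a b : Nat → Nat) =>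
 (c (a (nat_lit 0x202021))
 (c (b (nat_lit 0x20355fe4))
 (c (a (nat_lit 0xf50938f3647))
 (c (a (nat_lit 0xfb6bcbecd8006)) e
 (c (a (nat_lit 0xcb76d60000007)) e e))
 (c (a (nat_lit 0xcee0b12b3a8))
 (c (a (nat_lit 0x1287c000000007)) e e)
 (c z e
 (c z e
 (c z e
 (c (a (nat_lit 0x12e86b4722e7)) e
 (c (b (nat_lit 0x242921ffb67)) e
 (c z e
 (c (a (nat_lit 0xc779600006)) e
 (c (a (nat_lit 0x15c000000002)) e e))))))))))
 (c z
 (c (a (nat_lit 0xc4cf2303228))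
 (c (a (nat_lit 0x1c200000000004)) e e)
 (c z e
 (c z e
 (c (a (nat_lit 0x128f6c4cac49)) e
 (c (a (nat_lit 0x158fd2ce5f08)) e
 (c (a (nat_lit 0x6af6b507629)) e e))))))
 (c z e
 (c (a (nat_lit 0x13b802005))
 (c (a (nat_lit 0x13ae37cfa067)) e e)
 (c (a (nat_lit 0x1ac0202025))
 (c z e
 (c (a (nat_lit 0x2900ba160ca)) e
 (c (a (nat_lit 0x1687c6600009)) e e)))
 (c (a (nat_lit 0x202e3886))
 (c (a (nat_lit 0x18d9ace32008)) e
 (c (a (nat_lit 0x19c8e0000009)) e e))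
 (c (a (nat_lit 0x20555565))
 (c (a (nat_lit 0x1a8000000007)) e e)
 (c z e
 (c (a (nat_lit 0x82688641)) e
 (c (a (nat_lit 0x15b6004082)) e
 (c (a (nat_lit 0x909095903)) e
 (c (a (nat_lit 0x4f1c03185)) e
 (c (a (nat_lit 0x9a9127806)) e
 (c z e
 (c (a (nat_lit 0xf916fa707)) e
 (c (a (nat_lit 0x1952602005)) e
 (c (a (nat_lit 0x1160000006)) e e)))))))))))))))))
 (c (nat_lit 1)
 (c (a (nat_lit 0x1dbdb48ac6))
 (c (a (nat_lit 0x161616fb4f46)) e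
 (c z e
 (c z e
 (c (a (nat_lit 0x9a849c93728)) e
 (c (a (nat_lit 0x84887f13588)) e
 (c (a (nat_lit 0xb66ccb5e7c8)) e e))))))
 (c (a (nat_lit 0x151b29a986))
 (c (a (nat_lit 0x135f168ead27)) e
 (c (a (nat_lit 0x184ff12c4048)) e e))
 (c (a (nat_lit 0x1300202026))
 (c (a (nat_lit 0x94988259568)) e
 (c z e
 (c (a (nat_lit 0x406f981c049)) e
 (c (a (nat_lit 0xa1144200009)) e e))))
 (c (a (nat_lit 0x2021b6a5))
 (c (a (nat_lit 0x4f52542a1c9)) e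
 (c (a (nat_lit 0x130c82a0c00a)) e
 (c (a (nat_lit 0x1f2a20000008)) e e)))
 (c (a (nat_lit 0x36b1e4))
 (c (a (nat_lit 0x1c85e1600008)) e
 (c (a (nat_lit 0x194000000007)) e e))
 (c (a (nat_lit 0x31f1f1e6)) e
 (c z e
 (c (a (nat_lit 0x80e06041)) e
 (c (a (nat_lit 0x202430001)) e
 (c (a (nat_lit 0xf16417125)) e
 (c (a (nat_lit 0x14402f1365)) e
 (c z e
 (c (a (nat_lit 0x13c1e02006)) e
 (c (a (nat_lit 0x170040c002)) e
 (c (a (nat_lit 0x83400001)) e e)))))))))))))))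
 (c (nat_lit 1)
 (c (a (nat_lit 0x1f20604024))
 (c (a (nat_lit 0x1a93aeb16005)) e
 (c (a (nat_lit 0x16bbb993c746)) e
 (c z e
 (c (a (nat_lit 0xa4ffe67c147)) e
 (c (a (nat_lit 0x51e2b400007)) e e)))))
 (c (a (nat_lit 0x40203525))
 (c (a (nat_lit 0x1492992fa767)) e
 (c (a (nat_lit 0xbb0c4c1e1a9)) e
 (c (a (nat_lit 0x534a1a0e009)) e
 (c (a (nat_lit 0x1fc480000008)) e e))))
 (c (a (nat_lit 0x20b700e3))
 (c (a (nat_lit 0x1124a180a029)) e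
 (c (a (nat_lit 0x16e281000009)) e
 (c (a (nat_lit 0x1f2000000005)) e e)))
 (c (a (nat_lit 0x11918043))
 (c (a (nat_lit 0x1f9040000004)) e e)
 (c (a (nat_lit 0xe807e041)) e
 (c (a (nat_lit 0x121610081)) e
 (c (a (nat_lit 0xe080c061)) e
 (c (a (nat_lit 0xe5546e005)) e
 (c (a (nat_lit 0x20c03e83)) e
 (c z e
 (c (a (nat_lit 0x1290521366)) e
 (c (a (nat_lit 0x828001)) e
 (c (a (nat_lit 0x44a04001)) e
 (c (a (nat_lit 0x680000001)) e e))))))))))))))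
 (c (a (nat_lit 0x21))
 (c (a (nat_lit 0x40753004))
 (c (a (nat_lit 0x112c4d6564c6)) e
 (c (a (nat_lit 0x1403e1a1e0a8)) e
 (c (a (nat_lit 0x1aa2e2400007)) e
 (c (a (nat_lit 0x188000000004)) e e))))
 (c (a (nat_lit 0x278ae5e1))
 (c (a (nat_lit 0x12d323614005)) e
 (c (a (nat_lit 0x1369a0000005)) e e))
 (c (a (nat_lit 0xa0f7d542))
 (c (a (nat_lit 0x122000000002)) e e)
 (c (a (nat_lit 0x202432001)) e
 (c (a (nat_lit 0x202fd146)) e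
 (c (a (nat_lit 0x305dddc7)) e
 (c (a (nat_lit 0x1b5bfc1a06)) e
 (c z e
 (c (a (nat_lit 0x1a12f29864)) e
 (c (a (nat_lit 0x540a16001)) e
 (c (a (nat_lit 0x4e2a0c1)) e
 (c (a (nat_lit 0x22000001)) e e))))))))))))
 (c (a (nat_lit 0x2021))
 (c (a (nat_lit 0x4e387c2c1))
 (c (a (nat_lit 0x112f24c00001)) e
 (c (a (nat_lit 0xf2000000001)) e e))
 (c (a (nat_lit 0x5a244a001)) e
 (c (a (nat_lit 0x52263b5a1)) e
 (c (a (nat_lit 0x3979f9c7)) e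
 (c z e
 (c z e
 (c (a (nat_lit 0x1a1837f9a6)) e
 (c (a (nat_lit 0x120803a64)) e
 (c (a (nat_lit 0x80f6e3)) e
 (c (a (nat_lit 0x46180e001)) e
 (c (a (nat_lit 0x60000001)) e e)))))))))))
 (c (a (nat_lit 0x202021))
 (c (a (nat_lit 0x100e10b41)) e
 (c (a (nat_lit 0x30507068)) e
 (c z e
 (c z e
 (c (a (nat_lit 0x1773d3b785)) e
 (c (a (nat_lit 0x806fb403)) e
 (c (a (nat_lit 0x5013e003)) e
 (c (a (nat_lit 0x10e0204043)) e
 (c (a (nat_lit 0x1f80600001)) e e)))))))))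
 (c (a (nat_lit 0x2021))
 (c (a (nat_lit 0x1272929008)) e
 (c z e
 (c (a (nat_lit 0x1594d4d1c8)) e
 (c (a (nat_lit 0xe1a0e081)) e
 (c (a (nat_lit 0x15b7979786)) e
 (c (a (nat_lit 0x1d60202045)) e
 (c (a (nat_lit 0x12060a001)) e
 (c (nat_lit 1) e e))))))))
 (c (a (nat_lit 0x202021))
 (c (a (nat_lit 0x18f8b8b588)) e
 (c (a (nat_lit 0x405eff42)) e
 (c (a (nat_lit 0x16575750a7)) e
 (c (a (nat_lit 0x1480408062)) e
 (c (a (nat_lit 0x20204021)) e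
 (c (a (nat_lit 0x400001)) e e))))))
 (c (a (nat_lit 0x202021))
 (c (a (nat_lit 0x16b7373127)) e
 (c (a (nat_lit 0x1320202083)) e
 (c (a (nat_lit 0x6060c1)) e
 (c (a (nat_lit 0x404001)) e
 (c (a (nat_lit 0x40000001)) e e)))))
 (c (a (nat_lit 0x202021))
 (c (a (nat_lit 0x202021)) e
 (c (a (nat_lit 0x20202021)) e
 (c (a (nat_lit 0x20200001)) e e)))
 (c (a (nat_lit 0x202021))
 (c (a (nat_lit 0x20202001)) e
 (c (a (nat_lit 0x20000001)) e e))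
 (c (a (nat_lit 0x202021)) e
 (c (a (nat_lit 0x202021)) e
 (c (a (nat_lit 0x202021)) e
 (c (a (nat_lit 0x41)) e
 (c (a (nat_lit 0x4021)) e
 (c (a (nat_lit 0x203ee5)) e
 (c z e
 (c (a (nat_lit 0x11602026)) e
 (c (nat_lit 1) e
 (c (a (nat_lit 0x406021)) e
 (c (a (nat_lit 0x2001)) e
 (c (a (nat_lit 0x2021)) e
 (c (a (nat_lit 0x400001)) e e))))))))))))))))))))))))) Tr.c Tr.e (nat_lit 0) C.cx C.cy
noncomputable def C181 : Tr := beta% (fun (c : Nat → Tr → Tr → Tr) (e : Tr) (z : Nat) (a b : Nat → Nat) =>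
 (c (a (nat_lit 0x202021))
 (c (a (nat_lit 0x20202021))
 (c (a (nat_lit 0x12b2d2d52a04))
 (c (a (nat_lit 0x56babcb5e7f22))
 (c z e
 (c (a (nat_lit 0x1a7ac8a90f2aa48)) e
 (c (a (nat_lit 0x155ad89b4e800007)) e
 (c (a (nat_lit 0x126e2e2000000007)) e e))))
 (c (a (nat_lit 0xc2a2a20359586))
 (c (a (nat_lit 0x8509236d94bc008)) e
 (c (a (nat_lit 0xaad1168c0000009)) e e))
 (c (a (nat_lit 0xb0a62006cfe87))
 (c (a (nat_lit 0x102a058000000007)) e e)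
 (c (a (nat_lit 0x5c420202db388)) e
 (c (a (nat_lit 0x1a200a541d628)) e
 (c (a (nat_lit 0x12cf552bbb8ca7)) e
 (c (a (nat_lit 0xed00c08b10987)) e e)))))))
 (c (a (nat_lit 0xd1ceb6b62e6))
 (c (a (nat_lit 0x52aaac9c9d6c8))
 (c (a (nat_lit 0xa157cff89400007)) e
 (c (a (nat_lit 0xa7ab2e000000008)) e e))
 (c (a (nat_lit 0x5c7a686745229))
 (c (a (nat_lit 0x3fe00000000007)) e e)
 (c (a (nat_lit 0x565a592b25429)) e
 (c (a (nat_lit 0x302cbc8505249)) e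
 (c (a (nat_lit 0x74e89f0294409)) e e)))))
 (c (a (nat_lit 0x3a3032001))
 (c (a (nat_lit 0x383a1be949fa7)) e
 (c (a (nat_lit 0x300dcf989c288)) e e))
 (c (a (nat_lit 0x12180c001))
 (c (b (nat_lit 0x3f0513fe02048)) e
 (c z e
 (c z e
 (c (b (nat_lit 0x1ffffff8e38007)) e e))))
 (c (a (nat_lit 0x2e3228241c1))
 (c z e
 (c (a (nat_lit 0x11cef1eafc3128)) e
 (c (a (nat_lit 0x1c88d433000008)) e e)))
 (c (a (nat_lit 0x181819d9ada6))
 (c (a (nat_lit 0x4c869f3a74008)) e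
 (c (a (nat_lit 0x10d4b5c0000008)) e e))
 (c (a (nat_lit 0xa8c918cdf07))
 (c (a (nat_lit 0x17f04000000007)) e e)
 (c z e
 (c z e
 (c (a (nat_lit 0xf34b2cf8bc8)) e
 (c (a (nat_lit 0x112f52cd2b68)) e
 (c (a (nat_lit 0x18f8f912e166)) e
 (c (a (nat_lit 0x60c0537403)) e
 (c (a (nat_lit 0x1c40684c1)) e
 (c (a (nat_lit 0x6121000001)) e
 (c (a (nat_lit 0x2000000001)) e e))))))))))))))))
 (c (a (nat_lit 0x40404041))
 (c (a (nat_lit 0x152040402005))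
 (c (a (nat_lit 0x8c8c0e03814c6))
 (c (a (nat_lit 0x1501a48120000005)) e
 (c (a (nat_lit 0x1cba800000000005)) e e))
 (c (a (nat_lit 0xe004054783b27))
 (c (a (nat_lit 0x11c0000000000007)) e e)
 (c (a (nat_lit 0xc028bcce2948)) e
 (c (a (nat_lit 0x5715890b50908)) e e))))
 (c (a (nat_lit 0x1422280a001))
 (c (a (nat_lit 0x52155dc9891a7)) e e)
 (c (a (nat_lit 0x2040203225)) e
 (c (a (nat_lit 0x7c7cb6f5146)) e
 (c (a (nat_lit 0x909ee0d5228)) e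
 (c z e
 (c z e
 (c z e
 (c (a (nat_lit 0x13b2738d0789)) e
 (c (a (nat_lit 0x1534d4abc029)) e
 (c (a (nat_lit 0x122d95cb50e8)) e
 (c (a (nat_lit 0xa4a20355547)) e
 (c (a (nat_lit 0x121c201a001)) e
 (c (a (nat_lit 0x80000001)) e e))))))))))))))
 (c (a (nat_lit 0x40404041))
 (c (a (nat_lit 0x19b9a06081a2))
 (c (b (nat_lit 0x11eb6c1fe56187)) e e)
 (c (a (nat_lit 0x2021a13088)) e
 (c z e
 (c z e
 (c z e
 (c z e
 (c z e
 (c z e
 (c z e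
 (c (a (nat_lit 0x18b1aaa1acc8)) e
 (c (a (nat_lit 0x11638038f8e7)) e
 (c (a (nat_lit 0xe1e0a00001)) e
 (c (a (nat_lit 0xc000000001)) e e)))))))))))))
 (c (a (nat_lit 0x606080c1))
 (c (a (nat_lit 0x285c5c9fea7)) e
 (c z e
 (c z e
 (c z e
 (c z e
 (c z e
 (c z e
 (c z e
 (c (a (nat_lit 0x1b96638115e8)) e
 (c (a (nat_lit 0x11a120d56007)) e
 (c (a (nat_lit 0x1c0000001)) e e)))))))))))
 (c (a (nat_lit 0x20204081))
 (c z e
 (c (a (nat_lit 0x8f18eccc008)) e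
 (c (a (nat_lit 0x1f3a1ae043a7)) e
 (c z e
 (c z e
 (c z e
 (c z e
 (c (a (nat_lit 0xe84402372e8)) e
 (c (a (nat_lit 0x13c080200005)) e
 (c (a (nat_lit 0x2000000001)) e e))))))))))
 (c (a (nat_lit 0x20203b87))
 (c (a (nat_lit 0x1614733230a6)) e
 (c (a (nat_lit 0x12d09590c6e7)) e
 (c z e
 (c z e
 (c z e
 (c (a (nat_lit 0x10b1c3f6c048)) e
 (c (a (nat_lit 0x1d61c0354007)) e
 (c (a (nat_lit 0xd60000001)) e e))))))))
 (c (a (nat_lit 0x203b8b47))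
 (c (a (nat_lit 0x102eafcae2e7)) e
 (c (b (nat_lit 0xf591fffffc7)) e
 (c z e
 (c (a (nat_lit 0x74c91042a88)) e
 (c (b (nat_lit 0x1fe45a518e27)) e
 (c (a (nat_lit 0x96455e00008)) e
 (c (a (nat_lit 0x1e2000000004)) e e)))))))
 (c (a (nat_lit 0xdfc1936c7))
 (c (b (nat_lit 0x6953ff83927)) e e)
 (c z e
 (c (a (nat_lit 0x1f3e802005)) e
 (c (a (nat_lit 0x1ca0202025)) e
 (c (a (nat_lit 0x203ec3)) e
 (c (a (nat_lit 0x11f2006064)) e
 (c (a (nat_lit 0x1a0e001)) e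
 (c (a (nat_lit 0x60608001)) e
 (c (a (nat_lit 0x180c02001)) e
 (c (a (nat_lit 0x120c061a1)) e
 (c (a (nat_lit 0x1a121e121)) e
 (c (a (nat_lit 0x20203267)) e e)))))))))))))))))))
 (c (a (nat_lit 0x404041))
 (c (a (nat_lit 0x40404041))
 (c (a (nat_lit 0xa0c0c04001))
 (c (a (nat_lit 0x1100e0e0d584e4)) e
 (c (a (nat_lit 0x1a1a1ba2e8f86)) e
 (c (a (nat_lit 0xa0bc4fb22347)) e
 (c (a (nat_lit 0xef4771c581467)) e e))))
 (c (a (nat_lit 0x18180203c24))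
 (c (a (nat_lit 0x5a5b590a9e267)) e e)
 (c (a (nat_lit 0x1c1c83287e5)) e
 (c (a (nat_lit 0xbecd1927e27)) e
 (c z e
 (c z e
 (c z e
 (c (a (nat_lit 0xe7836092a08)) e
 (c (a (nat_lit 0x181d958a66a8)) e
 (c (a (nat_lit 0x13acafe80708)) e
 (c (a (nat_lit 0xa2a31c9e7c8)) e
 (c (a (nat_lit 0x105040202025)) e
 (c (a (nat_lit 0x104020200005)) e
 (c (a (nat_lit 0x16000000001)) e e))))))))))))))
 (c (a (nat_lit 0x60606041))
 (c (a (nat_lit 0x202021fc87))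
 (c (a (nat_lit 0x9b439270b9c86)) e e)
 (c (a (nat_lit 0x9eace74d389)) e
 (c z e
 (c z e
 (c z e
 (c z e
 (c (a (nat_lit 0x973cf6565a9)) e
 (c (a (nat_lit 0x15d3eb070429)) e
 (c (a (nat_lit 0x1df62f29cd88)) e
 (c (a (nat_lit 0xfd10e0b2d48)) e
 (c (a (nat_lit 0x13a020202006)) e
 (c (a (nat_lit 0x1c140000001)) e e))))))))))))
 (c (a (nat_lit 0x40404041))
 (c z e
 (c z e
 (c z e
 (c z e
 (c z e
 (c z e
 (c z e
 (c z e
 (c (a (nat_lit 0x1069cdcdd5e9)) e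
 (c (a (nat_lit 0x1e746b400003)) e
 (c (a (nat_lit 0x128000000002)) e e)))))))))))
 (c (a (nat_lit 0x20203525))
 (c z e
 (c z e
 (c z e
 (c z e
 (c z e
 (c z e
 (c z e
 (c (a (nat_lit 0xf6dd3b54008)) e
 (c (a (nat_lit 0x104020000006)) e e)))))))))
 (c (a (nat_lit 0x203b8567))
 (c z e
 (c z e
 (c z e
 (c z e
 (c z e
 (c z e
 (c (a (nat_lit 0x4a3f3400008)) e
 (c (a (nat_lit 0x1ca000000004)) e e))))))))
 (c (a (nat_lit 0xafdf1aae8))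
 (c (a (nat_lit 0x92bedef1308)) e
 (c z e
 (c z e
 (c z e
 (c z e
 (c (a (nat_lit 0xbfda0000007)) e e))))))
 (c z e
 (c (a (nat_lit 0xd38002005))
 (c (b (nat_lit 0x2dff8f44048)) e
 (c (a (nat_lit 0x545d89c009)) e e))
 (c (a (nat_lit 0x1c00200025))
 (c (a (nat_lit 0x10f0a8600009)) e e)
 (c (a (nat_lit 0x202dd307)) e
 (c (a (nat_lit 0x2030b0a7)) e
 (c (a (nat_lit 0x60e0c021)) e
 (c (a (nat_lit 0x60c0c001)) e
 (c (a (nat_lit 0xc0804001)) e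
 (c (a (nat_lit 0x20203be4)) e
 (c (a (nat_lit 0xc0c0c001)) e
 (c (a (nat_lit 0x2eaebcc6)) e e)))))))))))))))))
 (c (a (nat_lit 0x202021))
 (c (a (nat_lit 0x20202001))
 (c (a (nat_lit 0x1e1e5b02827))
 (c (a (nat_lit 0x1063e4f8ed32e5)) e e)
 (c z e
 (c z e
 (c z e
 (c z e
 (c z e
 (c (a (nat_lit 0x119186e5c6a8)) e
 (c (a (nat_lit 0x1d4427c789e7)) e
 (c (a (nat_lit 0x17626cc95007)) e
 (c (a (nat_lit 0xb72690afa86)) e
 (c (a (nat_lit 0x1f0060400004)) e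
 (c (a (nat_lit 0x8000000001)) e e))))))))))))
 (c (a (nat_lit 0x20203525))
 (c (a (nat_lit 0xdf1d2af1169))
 (c z e
 (c (a (nat_lit 0xdab92ebe0000a)) e e))
 (c (a (nat_lit 0x14342ef31b49))
 (c (a (nat_lit 0xd16a9c0000009)) e e)
 (c z e
 (c z e
 (c z e
 (c (a (nat_lit 0x138eeb4b24e8)) e
 (c (b (nat_lit 0x1e402b66bfe7)) e
 (c z e
 (c (a (nat_lit 0x134f5b872006)) e
 (c (a (nat_lit 0x140b60000003)) e e))))))))))
 (c (a (nat_lit 0x20355525))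
 (c (a (nat_lit 0xaa60a1c2d28))
 (c (a (nat_lit 0x18472000000006)) e e)
 (c z e
 (c z e
 (c z e
 (c (a (nat_lit 0x161a0be729c8)) e
 (c (b (nat_lit 0xa044edff328)) e e))))))
 (c (a (nat_lit 0x36372007)) e
 (c z e
 (c (a (nat_lit 0x573a02005))
 (c z e
 (c (a (nat_lit 0x7695f276029)) e
 (c (b (nat_lit 0x1311dfe88009)) e e)))
 (c (a (nat_lit 0x1620202025))
 (c (a (nat_lit 0x73bafc56148)) e
 (c (a (nat_lit 0x18166ba00009)) e e))
 (c (a (nat_lit 0x2d37a6))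
 (c (a (nat_lit 0x122780000009)) e e)
 (c (a (nat_lit 0x20555565)) e
 (c (b (nat_lit 0x1ff5b59545)) e
 (c (a (nat_lit 0xc140a0c1)) e
 (c (a (nat_lit 0xa08060e1)) e
 (c (a (nat_lit 0x8060a241)) e
 (c (a (nat_lit 0x20203ca7)) e
 (c (a (nat_lit 0x279c8bc7)) e
 (c z e
 (c (a (nat_lit 0x163187e7e8)) e
 (c (a (nat_lit 0x1380200007)) e e))))))))))))))))))
 C180)))) Tr.c Tr.e (nat_lit 0) C.cx C.cy
noncomputable def C182 : Tr := beta% (fun (c : Nat → Tr → Tr → Tr) (e : Tr) (z : Nat) (a b : Nat → Nat) =>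
 (c (a (nat_lit 0x40404041))
 (c (a (nat_lit 0x15745494c002))
 (c (a (nat_lit 0xae40180481765))
 (c (a (nat_lit 0x806270b4c8d5468)) e
 (c (a (nat_lit 0x5e5e8ea8b31110a)) e
 (c (a (nat_lit 0xa7071939a0ce009)) e e)))
 (c (a (nat_lit 0x74903c1405bc7))
 (c (a (nat_lit 0x688eb8c8fb1e88a)) e
 (c (a (nat_lit 0xbcc7078acc0000a)) e e))
 (c (a (nat_lit 0x5a92602a13388))
 (c (a (nat_lit 0xfb1b6ed20000008)) e e)
 (c (a (nat_lit 0x6302e021f0e9)) e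
 (c (a (nat_lit 0x450443379a87)) e
 (c (a (nat_lit 0x3e40269a05388)) e
 (c (a (nat_lit 0x2278a484551a8)) e e)))))))
 (c (a (nat_lit 0x105050514b86))
 (c (a (nat_lit 0xac522a110d668))
 (c (a (nat_lit 0xa8eb14a520b2008)) e
 (c (a (nat_lit 0x2cab7ec00000009)) e e))
 (c (a (nat_lit 0x4c584636b722a))
 (c (a (nat_lit 0x2e742000000008)) e e)
 (c (a (nat_lit 0x342c043ae12aa)) e
 (c (a (nat_lit 0x42406cfb01249)) e
 (c (a (nat_lit 0x44e91cf326889)) e e)))))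
 (c (a (nat_lit 0x10504f2f2c68))
 (c (a (nat_lit 0x469e9ecb3d269))
 (c (a (nat_lit 0x3a000000000007)) e e) e)
 (c (a (nat_lit 0xec1e1018001)) e
 (c (a (nat_lit 0x22282e22181))
 (c z e
 (c z e
 (c (a (nat_lit 0x5f9c7866d8008)) e e)))
 (c (a (nat_lit 0x40404057c3))
 (c (a (nat_lit 0x15c9c8230a8728)) e
 (c (a (nat_lit 0x1fbc19d6800007)) e e))
 (c (a (nat_lit 0x6060d916be6))
 (c (a (nat_lit 0x11158de0000007)) e
 (c (a (nat_lit 0x1a000000000006)) e e))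
 (c (a (nat_lit 0x388ea4b3548)) e
 (c z e
 (c z e
 (c (a (nat_lit 0x187bd9337048)) e
 (c (a (nat_lit 0x1eb997129007)) e
 (c (a (nat_lit 0x1945003d5da4)) e
 (c (a (nat_lit 0x484644729a1)) e
 (c (a (nat_lit 0x80c28001)) e
 (c (a (nat_lit 0x80000001)) e e))))))))))))))))
 (c (a (nat_lit 0x40404021))
 (c (a (nat_lit 0x2b96c6c67a4))
 (c (a (nat_lit 0x994118d1a38c6))
 (c z e
 (c (a (nat_lit 0x897ec8000000007)) e e))
 (c (a (nat_lit 0xc0d86abc9b467))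
 (c (a (nat_lit 0x1792600000000006)) e e)
 (c (a (nat_lit 0x5234483993848)) e
 (c (a (nat_lit 0x1c805d3f4e9c8)) e e))))
 (c (a (nat_lit 0x12e261c100e1))
 (c (a (nat_lit 0x1086eb87331d46)) e e)
 (c (a (nat_lit 0x3999c0a061)) e
 (c (a (nat_lit 0x4040405be4))
 (c (b (nat_lit 0x1273e6669fffe7)) e e)
 (c (b (nat_lit 0x3bdfffe3)) e
 (c (a (nat_lit 0xcd09839f527))
 (c (a (nat_lit 0x10cb0000000004)) e e)
 (c z e
 (c z e
 (c z e
 (c z e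
 (c (a (nat_lit 0x1352b4aac788)) e
 (c (a (nat_lit 0x102500202c87)) e
 (c (a (nat_lit 0x9e02038d7a6)) e
 (c (a (nat_lit 0x142040200004)) e
 (c (a (nat_lit 0x14000000001)) e e)))))))))))))))
 (c (a (nat_lit 0x40404041))
 (c (a (nat_lit 0xa0a0a0a1))
 (c (a (nat_lit 0x6d02ecc2f08e6)) e e)
 (c (a (nat_lit 0x80860205063))
 (c (a (nat_lit 0x18d73189d0cac8)) e
 (c (a (nat_lit 0x118ac5eeea0588)) e e))
 (c (b (nat_lit 0x21fffec7))
 (c (a (nat_lit 0xfeadde155ce66)) e e)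
 (c (b (nat_lit 0x21ffffcee67)) e
 (c z e
 (c z e
 (c (a (nat_lit 0x18d7c9f0d208)) e
 (c (a (nat_lit 0x1df35d7d3108)) e
 (c z e
 (c (a (nat_lit 0xcd089c3a008)) e
 (c (a (nat_lit 0x12a5002055c7)) e
 (c (a (nat_lit 0x9a02058c006)) e
 (c (a (nat_lit 0xc060000001)) e e)))))))))))))
 (c (a (nat_lit 0x40202021))
 (c (a (nat_lit 0xa2a570e3a45))
 (c (a (nat_lit 0x1152e14ac8c2a6)) e
 (c (b (nat_lit 0x154b0c5d7fee27)) e e))
 (c (a (nat_lit 0x1075707a5ee7))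
 (c (a (nat_lit 0xa2470a44722e8)) e e)
 (c z e
 (c z e
 (c (a (nat_lit 0x11723067efe8)) e
 (c (a (nat_lit 0xf90ebef51a8)) e
 (c (a (nat_lit 0x174cd254c2e8)) e
 (c z e
 (c (a (nat_lit 0xe51cec10088)) e
 (c (a (nat_lit 0x1a2de196f6c6)) e
 (c (a (nat_lit 0x18e060800005)) e
 (c (a (nat_lit 0x2000000001)) e e))))))))))))
 (c (a (nat_lit 0x202021))
 (c (a (nat_lit 0x118690b38e66))
 (c (a (nat_lit 0xd4b4bd3662005)) e e)
 (c (a (nat_lit 0x41211ce4ae6)) e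
 (c (a (nat_lit 0x1cdd52abe325)) e
 (c (a (nat_lit 0xf09c7958526)) e
 (c (a (nat_lit 0x9e887099407)) e
 (c (a (nat_lit 0x102c6d0e4688)) e
 (c z e
 (c (a (nat_lit 0x141709c04327)) e
 (c (a (nat_lit 0x16c120202005)) e
 (c (a (nat_lit 0x11a100000001)) e e))))))))))
 (c (a (nat_lit 0x40404041))
 (c (a (nat_lit 0x15e9e8806583)) e
 (c (a (nat_lit 0x19f1c6cad8c4)) e
 (c (a (nat_lit 0x122dbc5ad985)) e
 (c (a (nat_lit 0x8e909f44c07)) e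
 (c (a (nat_lit 0x74dd30bac28)) e
 (c (a (nat_lit 0xdefee8af3c8)) e
 (c (a (nat_lit 0x112e20206c27)) e
 (c (a (nat_lit 0x112be2800003)) e
 (c (a (nat_lit 0x118000000002)) e e)))))))))
 (c (a (nat_lit 0x36a5))
 (c (a (nat_lit 0x106d8d6780c5)) e
 (c (b (nat_lit 0x15726dfffb86)) e
 (c (a (nat_lit 0x4c5f0ee50a7)) e
 (c (a (nat_lit 0x72bd4f5e687)) e
 (c (a (nat_lit 0x88bb2178028)) e
 (c (a (nat_lit 0x8a8110f4006)) e
 (c (a (nat_lit 0x1ed140000005)) e e)))))))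
 (c (a (nat_lit 0x383245))
 (c (a (nat_lit 0x4c3282dd267)) e
 (c (a (nat_lit 0x48c55f6b9a7)) e
 (c (a (nat_lit 0x226aa4470a8)) e e)))
 (c (a (nat_lit 0x6b1714e47))
 (c (a (nat_lit 0x48b474d58c7)) e
 (c (a (nat_lit 0x465250a7389)) e e))
 (c (a (nat_lit 0x1615f0aa27))
 (c (a (nat_lit 0xe4990980828)) e e)
 (c (a (nat_lit 0x108feeaea8)) e
 (c (a (nat_lit 0x1460202004)) e
 (c (a (nat_lit 0x1313131224)) e
 (c (a (nat_lit 0xaeb606021)) e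
 (c (a (nat_lit 0x1320602001)) e
 (c (a (nat_lit 0x206080a1)) e
 (c (a (nat_lit 0x2001)) e
 (c (a (nat_lit 0x40402001)) e
 (c (a (nat_lit 0x40403c83)) e
 (c (a (nat_lit 0x760358c24)) e e))))))))))))))))))))) Tr.c Tr.e (nat_lit 0) C.cx C.cy
noncomputable def C183 : Tr := beta% (fun (c : Nat → Tr → Tr → Tr) (e : Tr) (z : Nat) (a b : Nat → Nat) =>
 (c z
 (c (nat_lit 1)
 (c (a (nat_lit 0x20202021))
 (c (a (nat_lit 0x16767410b0a6))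
 (c (a (nat_lit 0x1130d1b16f8f06)) e
 (c (a (nat_lit 0xb6a55c8e10045))
 (c (a (nat_lit 0x19b67696b7bd9967)) e e)
 (c (a (nat_lit 0x10b06d2a602505))
 (c (a (nat_lit 0x1553d0ad2d712be7)) e
 (c z e
 (c (a (nat_lit 0x110b22a044800007)) e
 (c (a (nat_lit 0xcf3c06000000007)) e e))))
 (c (a (nat_lit 0x1400672a24a005))
 (c (a (nat_lit 0x107206e7928cc007)) e
 (c (a (nat_lit 0x1a909136c0000007)) e e))
 (c (a (nat_lit 0x18af32d590cdc6)) e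
 (c (a (nat_lit 0x120e3151cff7a6)) e
 (c (a (nat_lit 0x13115414791586)) e
 (c (a (nat_lit 0xdaacdd4322826)) e
 (c (a (nat_lit 0xe8c74b2aed526)) e
 (c (a (nat_lit 0xf9194ae9ec886)) e
 (c (a (nat_lit 0x174fe91d47e006)) e e)))))))))))
 (c (a (nat_lit 0x13ecad2d2d26))
 (c (a (nat_lit 0x112802211445))
 (c (a (nat_lit 0x10104f1013f315a8)) e e)
 (c (a (nat_lit 0x150f0a80258266))
 (c (a (nat_lit 0x124f9114f3d47f29)) e e)
 (c z e
 (c z e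
 (c z e
 (c (a (nat_lit 0x4403866cd047)) e
 (c (b (nat_lit 0x1fe2553ad134e6)) e e)))))))
 (c (a (nat_lit 0xa2a2a02e1))
 (c (a (nat_lit 0x111e7404057a6))
 (c (a (nat_lit 0x11edafaf26f54be7)) e
 (c (a (nat_lit 0x7478d9207200008)) e e))
 (c (a (nat_lit 0x426c1a0259888))
 (c (a (nat_lit 0x4d3f4ae0000007)) e e)
 (c z e
 (c (a (nat_lit 0x26a5969356c7)) e
 (c (a (nat_lit 0x26b80deab5e7)) e
 (c z e
 (c z e
 (c z e
 (c (a (nat_lit 0x293a7c0000008)) e e)))))))))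
 (c (a (nat_lit 0x121212306f63))
 (c (a (nat_lit 0xa2320203a9867)) e
 (c (a (nat_lit 0x548869215aec8)) e
 (c (a (nat_lit 0x501724fcd4d47)) e
 (c z e
 (c z e
 (c z e
 (c (a (nat_lit 0xcb16a85000008)) e
 (c (a (nat_lit 0x11492000000008)) e e))))))))
 (c (a (nat_lit 0x1494943431c6))
 (c (a (nat_lit 0x44b7956f82967)) e
 (c (a (nat_lit 0xe3efd9fd03007)) e
 (c z e
 (c z e
 (c (a (nat_lit 0x15ca06ef6a2008)) e
 (c (a (nat_lit 0x10886820000008)) e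
 (c (a (nat_lit 0x19400000000006)) e e)))))))
 (c (a (nat_lit 0x121070707065))
 (c (a (nat_lit 0x16549d1a1745a5)) e
 (c z e
 (c (a (nat_lit 0x97b29e5a32146)) e
 (c (a (nat_lit 0x1a41e8ec200006)) e
 (c (a (nat_lit 0x144a4000000004)) e e)))))
 (c (a (nat_lit 0x137373737365))
 (c (a (nat_lit 0x6ec5043616007)) e
 (c (a (nat_lit 0x148c64e5004007)) e
 (c (a (nat_lit 0x10ad2dc0000006)) e
 (c (a (nat_lit 0x15000000000004)) e e))))
 (c (a (nat_lit 0xc0a0e10261))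
 (c (a (nat_lit 0x828d7c2600005)) e
 (c (a (nat_lit 0xe93e000000006)) e e))
 (c (b (nat_lit 0x4055bff445))
 (c (a (nat_lit 0x12e00000000005)) e e)
 (c (a (nat_lit 0x691d1d553e6)) e
 (c (a (nat_lit 0x111032cfcb27)) e
 (c (a (nat_lit 0x1dffff3d58a7)) e
 (c (a (nat_lit 0x17548d07a785)) e
 (c (a (nat_lit 0x1a2b004033a4)) e
 (c (a (nat_lit 0xb004033b3c4)) e
 (c (a (nat_lit 0x6020406021)) e
 (c (a (nat_lit 0x24281200001)) e
 (c (a (nat_lit 0xc000000001)) e e))))))))))))))))))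
 C182)
 C181)
 (c z C179
 (c (a (nat_lit 0x2021))
 (c (a (nat_lit 0x202021))
 (c (a (nat_lit 0x40202041))
 (c (a (nat_lit 0x5a585656561))
 (c (a (nat_lit 0x1816480a972e3)) e
 (c (a (nat_lit 0x1636405c1d766)) e
 (c (a (nat_lit 0x1c58f6f66f945)) e
 (c (a (nat_lit 0x1914e764ad286)) e
 (c z e
 (c (a (nat_lit 0xbf56a20000004)) e e))))))
 (c (a (nat_lit 0x4c4c4c4dde4))
 (c (a (nat_lit 0x7c74a42d730c7)) e
 (c z e
 (c z e
 (c z e
 (c (a (nat_lit 0x10866000000007)) e e)))))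
 (c (b (nat_lit 0x3fffff25)) e
 (c (a (nat_lit 0x11dd5b391fa6)) e
 (c z e
 (c (a (nat_lit 0x13dd32e851c6)) e
 (c (a (nat_lit 0x100a878c2b07)) e
 (c (a (nat_lit 0xf46357669c6)) e
 (c (a (nat_lit 0x1113ae232666)) e
 (c (a (nat_lit 0xd10a3834546)) e
 (c (a (nat_lit 0x11c1c1c03345)) e
 (c (a (nat_lit 0x140e0400001)) e
 (c (a (nat_lit 0xc000000001)) e e)))))))))))))
 (c (a (nat_lit 0x1524))
 (c (a (nat_lit 0x5658b2cdac7))
 (c (a (nat_lit 0x70927356f56a7)) e e)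
 (c z e
 (c z e
 (c z e
 (c (a (nat_lit 0x12520a4cd168)) e
 (c (a (nat_lit 0x146fb6758b48)) e
 (c (a (nat_lit 0x89074832007)) e
 (c (a (nat_lit 0x137766828287)) e
 (c (a (nat_lit 0x1929443480a6)) e
 (c (a (nat_lit 0x2c2e0978006)) e
 (c (a (nat_lit 0x140a0000001)) e e)))))))))))
 (c (b (nat_lit 0x20353fe4))
 (c z e
 (c z e
 (c z e
 (c z e
 (c z e
 (c z e
 (c (a (nat_lit 0x13089caa2c66)) e
 (c (b (nat_lit 0x966113ff9c6)) e
 (c (a (nat_lit 0xc35800004)) e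
 (c (a (nat_lit 0x8000000001)) e e))))))))))
 (c (a (nat_lit 0x5f4938587))
 (c z e
 (c z e
 (c z e
 (c z e
 (c z e
 (c (a (nat_lit 0x8516b402f67)) e
 (c (b (nat_lit 0x113ff54006)) e
 (c (a (nat_lit 0x83d80000004)) e e))))))))
 (c z e
 (c (a (nat_lit 0x56802004))
 (c (a (nat_lit 0x10526fefb706)) e
 (c z e
 (c (b (nat_lit 0x11ec9ffa22a7)) e
 (c (b (nat_lit 0x1b9ffdea8006)) e e))))
 (c (a (nat_lit 0x15c0202004))
 (c (b (nat_lit 0x7f13fffe2c6)) e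
 (c (a (nat_lit 0x7d02f48a288)) e
 (c (a (nat_lit 0x1b773ea00006)) e e)))
 (c (a (nat_lit 0x2adfc4))
 (c (a (nat_lit 0x1ed651c22007)) e
 (c (a (nat_lit 0x190b60000008)) e e))
 (c (a (nat_lit 0x20995902))
 (c (a (nat_lit 0x110000000007)) e e)
 (c (a (nat_lit 0x35b5b5a4)) e
 (c (a (nat_lit 0x161a12041)) e
 (c (a (nat_lit 0x60404001)) e
 (c (a (nat_lit 0xc0802001)) e
 (c (a (nat_lit 0xe0a04041)) e
 (c (a (nat_lit 0x1050505cc5)) e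
 (c (a (nat_lit 0x82d457386)) e
 (c (a (nat_lit 0x63402001)) e e)))))))))))))))))
 (c (a (nat_lit 0x404041))
 (c (a (nat_lit 0x20353524))
 (c (a (nat_lit 0x30547101067))
 (c (a (nat_lit 0x684cc6cf95546)) e e)
 (c z e
 (c z e
 (c z e
 (c (a (nat_lit 0x110a6a7289c8)) e
 (c (a (nat_lit 0xc2a7266a788)) e
 (c (a (nat_lit 0x93b77031066)) e
 (c (a (nat_lit 0x1c1ab06a4da6)) e
 (c (a (nat_lit 0x7f05444d646)) e
 (c (a (nat_lit 0x1c091e00006)) e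
 (c (a (nat_lit 0x10000000001)) e e)))))))))))
 (c (a (nat_lit 0xc7ef4c9e8))
 (c z e
 (c z e
 (c z e
 (c z e
 (c z e
 (c z e
 (c z e
 (c z e
 (c (a (nat_lit 0x55c0000006)) e e)))))))))
 (c z e
 (c (a (nat_lit 0x4f5602005))
 (c (a (nat_lit 0x1b1d2f4e25e7)) e
 (c (a (nat_lit 0x172e0c0644e8)) e e))
 (c (a (nat_lit 0x1840202025))
 (c (a (nat_lit 0x17132f996026)) e
 (c z e
 (c (b (nat_lit 0x71ff209e268)) e
 (c (a (nat_lit 0x71122e00007)) e e))))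
 (c (a (nat_lit 0x2f59c6))
 (c (b (nat_lit 0x7947fec07c8)) e
 (c (a (nat_lit 0x1af349634009)) e
 (c (a (nat_lit 0x170fa0000008)) e e)))
 (c (a (nat_lit 0x555545))
 (c (a (nat_lit 0x1d8901e00008)) e
 (c (a (nat_lit 0x136000000008)) e e))
 (c (a (nat_lit 0x51311105)) e
 (c (a (nat_lit 0x485244a21)) e
 (c (a (nat_lit 0xbcd20c001)) e
 (c (a (nat_lit 0xa0606021)) e
 (c (a (nat_lit 0x20804241)) e
 (c (a (nat_lit 0x2182a1)) e
 (c (a (nat_lit 0x9ce4a3b67)) e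
 (c (a (nat_lit 0x22d18d07)) e e)))))))))))))))
 C177))
 C176)))) Tr.c Tr.e (nat_lit 0) C.cx C.cy
noncomputable def C184 : Tr := beta% (fun (c : Nat → Tr → Tr → Tr) (e : Tr) (z : Nat) (a b : Nat → Nat) =>
 (c (nat_lit 1)
 (c (a (nat_lit 0x7d715cbe6))
 (c (a (nat_lit 0x6d0b0be32a6)) e
 (c z e
 (c z e
 (c (a (nat_lit 0x10a825c5a5a8)) e
 (c (a (nat_lit 0x1bac0c309b07)) e
 (c (a (nat_lit 0x1ea848bb8a8)) e e))))))
 (c z e
 (c (a (nat_lit 0xcffc06045))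
 (c z e
 (c z e
 (c (b (nat_lit 0x5489ff74069)) e
 (c (a (nat_lit 0x7a9d9822009)) e e))))
 (c (a (nat_lit 0x1ec0202025))
 (c (a (nat_lit 0x4a5d828e0c8)) e
 (c (a (nat_lit 0x6b9b7e2e129)) e
 (c (a (nat_lit 0x11f3c5c00009)) e e)))
 (c (a (nat_lit 0x2021b685))
 (c (a (nat_lit 0x117d07218008)) e
 (c (a (nat_lit 0x10832000000a)) e e))
 (c (a (nat_lit 0x203552c5))
 (c (a (nat_lit 0x10a000000007)) e e)
 (c z e
 (c (a (nat_lit 0x402814001)) e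
 (c (a (nat_lit 0x1231e02023)) e
 (c (a (nat_lit 0xd7640a164)) e
 (c (b (nat_lit 0x14e0205fe4)) e
 (c z e
 (c (a (nat_lit 0x1674b9d9a6)) e
 (c (b (nat_lit 0x1fe2a18001)) e
 (c (a (nat_lit 0x2e0c02001)) e
 (c (a (nat_lit 0x160000001)) e e))))))))))))))))
 (c (nat_lit 1)
 (c (a (nat_lit 0x19da8eae85))
 (c (a (nat_lit 0xe56d02a0aa6)) e
 (c (a (nat_lit 0x17116e6cc107)) e e))
 (c (a (nat_lit 0x1aa0202005))
 (c (a (nat_lit 0x110ecfe9a487)) e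
 (c z e
 (c (b (nat_lit 0x73ffb24a029)) e
 (c (a (nat_lit 0x61022a0000a)) e e))))
 (c (a (nat_lit 0x2020b565))
 (c (a (nat_lit 0x655c4830169)) e
 (c (a (nat_lit 0x1ffa46012009)) e
 (c (a (nat_lit 0x13e540000009)) e e)))
 (c (a (nat_lit 0x95a063))
 (c (a (nat_lit 0x1d67a1800008)) e
 (c (a (nat_lit 0x1f4000000006)) e e))
 (c (a (nat_lit 0x37b7b786)) e
 (c z e
 (c (a (nat_lit 0x6c620bb41)) e
 (c (a (nat_lit 0x31112023)) e
 (c (b (nat_lit 0x161ffe1)) e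
 (c z e
 (c z e
 (c (a (nat_lit 0x540c18261)) e
 (c (a (nat_lit 0x20a04001)) e
 (c (a (nat_lit 0x200001)) e e))))))))))))))
 (c (nat_lit 1)
 (c (a (nat_lit 0x40203524))
 (c (a (nat_lit 0xfb235774566)) e
 (c (a (nat_lit 0xd74f021e188)) e
 (c (a (nat_lit 0x5d70180c008)) e
 (c (a (nat_lit 0x1a2160000008)) e e))))
 (c (a (nat_lit 0x61394722))
 (c (a (nat_lit 0x1c6422e10028)) e
 (c (a (nat_lit 0x1382a1200009)) e e))
 (c (a (nat_lit 0x9272a023))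
 (c (a (nat_lit 0x1349e0000005)) e e)
 (c (a (nat_lit 0x5a423e061)) e
 (c (a (nat_lit 0x4047f3a7)) e
 (c (a (nat_lit 0x29549487)) e
 (c (a (nat_lit 0x17fa3a5746)) e
 (c z e
 (c (a (nat_lit 0x1572d2f586)) e
 (c (b (nat_lit 0x1fe060b742)) e
 (c (a (nat_lit 0x1414001)) e
 (c (a (nat_lit 0x604001)) e
 (c (a (nat_lit 0xba0000001)) e e)))))))))))))
 (c (a (nat_lit 0x2001))
 (c (a (nat_lit 0x854822e1))
 (c (a (nat_lit 0x14f581e0c004)) e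
 (c (a (nat_lit 0x174c40000004)) e e))
 (c (a (nat_lit 0x504678001))
 (c (a (nat_lit 0x178000000002)) e e)
 (c (a (nat_lit 0x201825b03)) e
 (c (a (nat_lit 0x35993906)) e
 (c z e
 (c z e
 (c (a (nat_lit 0x13105052c6)) e
 (c (a (nat_lit 0x201a001)) e
 (c (a (nat_lit 0x382414001)) e
 (c (a (nat_lit 0x1d61e16001)) e
 (c (a (nat_lit 0x1fe0a00001)) e e)))))))))))
 (c (a (nat_lit 0x202041))
 (c (a (nat_lit 0x48440bbe2)) e
 (c (a (nat_lit 0x3819d9a7)) e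
 (c z e
 (c z e
 (c (a (nat_lit 0x1b18797c06)) e
 (c (b (nat_lit 0x1fe09afb83)) e
 (c (a (nat_lit 0x7b293c764)) e
 (c (a (nat_lit 0x10e0202003)) e
 (c (a (nat_lit 0x1e100e001)) e
 (c (a (nat_lit 0x20000001)) e e))))))))))
 (c (nat_lit 1)
 (c (a (nat_lit 0x1a3b5b36e7)) e
 (c z e
 (c z e
 (c (a (nat_lit 0x2e1214161)) e
 (c (a (nat_lit 0x1b7e1e38e6)) e
 (c (a (nat_lit 0x1a80a04025)) e
 (c (a (nat_lit 0xe0207083)) e
 (c (a (nat_lit 0x340400001)) e e))))))))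
 (c (a (nat_lit 0x404061))
 (c z e
 (c (a (nat_lit 0x36101c261)) e
 (c (a (nat_lit 0x15b7170427)) e
 (c (a (nat_lit 0x1960202001)) e
 (c (a (nat_lit 0x4021)) e
 (c (a (nat_lit 0x208001)) e
 (c (nat_lit 1) e e)))))))
 (c (a (nat_lit 0x202021))
 (c (a (nat_lit 0x13ddbdba65)) e
 (c (a (nat_lit 0x4020a1)) e
 (c (a (nat_lit 0x2000a001)) e
 (c (a (nat_lit 0x424541)) e
 (c (a (nat_lit 0x400001)) e e)))))
 (c (a (nat_lit 0x202021))
 (c (a (nat_lit 0x20202021)) e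
 (c (a (nat_lit 0x20202021)) e
 (c (a (nat_lit 0x20202001)) e
 (c (a (nat_lit 0x20000001)) e e))))
 (c (a (nat_lit 0x202021))
 (c (a (nat_lit 0x20202021)) e
 (c (a (nat_lit 0x20200001)) e e))
 (c (a (nat_lit 0x202021))
 (c (a (nat_lit 0x20000001)) e e)
 (c (a (nat_lit 0x202021)) e
 (c (a (nat_lit 0x202001)) e
 (c (a (nat_lit 0x202021)) e
 (c (a (nat_lit 0x202021)) e
 (c (a (nat_lit 0x4041)) e
 (c (b (nat_lit 0x3ff6e5)) e
 (c z e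
 (c (a (nat_lit 0x1be02005)) e
 (c (a (nat_lit 0x2001)) e
 (c (a (nat_lit 0xa06001)) e
 (c (a (nat_lit 0x1606001)) e
 (c (a (nat_lit 0x1204001)) e e)))))))))))))))))))))))) Tr.c Tr.e (nat_lit 0) C.cx C.cy
noncomputable def C185 : Tr := beta% (fun (c : Nat → Tr → Tr → Tr) (e : Tr) (z : Nat) (a b : Nat → Nat) =>
 (c (a (nat_lit 0x202021))
 (c (a (nat_lit 0x20202021))
 (c (a (nat_lit 0x60b2d2c2))
 (c (a (nat_lit 0x92908eb3701c5))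
 (c z e
 (c (a (nat_lit 0x438000000000004)) e e))
 (c (a (nat_lit 0x20202ec3d167)) e
 (c (a (nat_lit 0x209327b4aa07)) e
 (c (b (nat_lit 0x2989fffe3e066)) e e))))
 (c (a (nat_lit 0x1a2a2a701))
 (c (a (nat_lit 0x281cfec910668)) e e)
 (c (a (nat_lit 0xdaddbfc3a65)) e
 (c (a (nat_lit 0x193db3ebed24)) e
 (c z e
 (c z e
 (c z e
 (c z e
 (c z e
 (c (a (nat_lit 0x1a9830282008)) e
 (c (a (nat_lit 0x194444242006)) e
 (c (a (nat_lit 0xa04057f7e5)) e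
 (c (a (nat_lit 0x50321206001)) e
 (c (a (nat_lit 0x160e0000001)) e e))))))))))))))
 (c (a (nat_lit 0x20402021))
 (c (a (nat_lit 0x202073c5))
 (c (a (nat_lit 0x37cbe37208046)) e e)
 (c (a (nat_lit 0x1235b8f7d868)) e
 (c z e
 (c z e
 (c z e
 (c z e
 (c z e
 (c (a (nat_lit 0x1396100480a9)) e
 (c (a (nat_lit 0x14b01062a029)) e
 (c (a (nat_lit 0x1e56b3416fe8)) e
 (c (a (nat_lit 0x94940394b27)) e
 (c (a (nat_lit 0x621a00001)) e
 (c (a (nat_lit 0x36000000001)) e e)))))))))))))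
 (c (a (nat_lit 0x20404021))
 (c z e
 (c z e
 (c z e
 (c z e
 (c z e
 (c z e
 (c z e
 (c z e
 (c z e
 (c (a (nat_lit 0x720a27a4007)) e
 (c (a (nat_lit 0x1551c0000004)) e e)))))))))))
 (c (a (nat_lit 0x20200001))
 (c z e
 (c z e
 (c z e
 (c z e
 (c z e
 (c z e
 (c z e
 (c (a (nat_lit 0x1604a94fda47)) e
 (c (a (nat_lit 0x1a89a9800004)) e
 (c (a (nat_lit 0x2000000001)) e e))))))))))
 (c (a (nat_lit 0x20203c27))
 (c z e
 (c z e
 (c z e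
 (c z e
 (c z e
 (c z e
 (c (a (nat_lit 0x1460c0ebe006)) e
 (c (a (nat_lit 0x904e0000001)) e e))))))))
 (c (a (nat_lit 0x203c2be7))
 (c (a (nat_lit 0x18d2f3af33e7)) e
 (c (b (nat_lit 0xd7c7ff2d807)) e
 (c z e
 (c z e
 (c z e
 (c (a (nat_lit 0x6ab3d600007)) e
 (c (a (nat_lit 0x150000000005)) e e)))))))
 (c (a (nat_lit 0x138f4a807))
 (c (b (nat_lit 0xd1c5ffb3dc7)) e e)
 (c z e
 (c (a (nat_lit 0x1adae02025)) e
 (c (a (nat_lit 0x1900202025)) e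
 (c (a (nat_lit 0x2035c4)) e
 (c (a (nat_lit 0xa34381)) e
 (c (a (nat_lit 0x1a280e1)) e
 (c (a (nat_lit 0x61212001)) e
 (c (a (nat_lit 0x60a0c401)) e
 (c (a (nat_lit 0x428321)) e
 (c (b (nat_lit 0x80bfe1)) e
 (c z e
 (c z e
 (c (a (nat_lit 0x1240200007)) e e))))))))))))))))))))
 (c (nat_lit 1)
 (c (a (nat_lit 0x40406081))
 (c (a (nat_lit 0x84855b21905))
 (c (a (nat_lit 0x1ad68d4cb8d544)) e e)
 (c z e
 (c z e
 (c z e
 (c z e
 (c z e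
 (c z e
 (c (a (nat_lit 0x127428e02048)) e
 (c (a (nat_lit 0x130b80202388)) e
 (c (a (nat_lit 0x11f1c740c2a7)) e
 (c (a (nat_lit 0xfd280604005)) e
 (c (a (nat_lit 0x126020000005)) e e))))))))))))
 (c (a (nat_lit 0x20204061))
 (c z e
 (c (a (nat_lit 0xc2aeaa7f5a8))
 (c (a (nat_lit 0xcf49e8b000008)) e e)
 (c z e
 (c z e
 (c z e
 (c z e
 (c (a (nat_lit 0xeb3e3e5ece8)) e
 (c (a (nat_lit 0x1e6024a22c08)) e
 (c z e
 (c (a (nat_lit 0x16e4a0400006)) e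
 (c (a (nat_lit 0x11c000000004)) e e)))))))))))
 (c (a (nat_lit 0x203525))
 (c (a (nat_lit 0x483c3a7f928))
 (c (a (nat_lit 0x1bfa8a00000005)) e e)
 (c z e
 (c z e
 (c z e
 (c (a (nat_lit 0x1f991547a408)) e
 (c (b (nat_lit 0x15b185f7ffe7)) e
 (c z e
 (c (a (nat_lit 0x15f455726006)) e
 (c (a (nat_lit 0x16c9a0000004)) e e)))))))))
 (c (a (nat_lit 0x3c8567))
 (c z e
 (c z e
 (c z e
 (c z e
 (c z e
 (c z e
 (c (a (nat_lit 0x14b24fc00008)) e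
 (c (a (nat_lit 0xa000000001)) e e))))))))
 (c z e
 (c z e
 (c (a (nat_lit 0xc50ea6a67))
 (c (a (nat_lit 0x655fe7d06a8)) e
 (c (a (nat_lit 0x44a31e3e00a)) e e))
 (c (a (nat_lit 0x1e00202025))
 (c (a (nat_lit 0xd3545a00009)) e e)
 (c (a (nat_lit 0x202035a5)) e
 (c (a (nat_lit 0xf65643)) e
 (c (a (nat_lit 0x204a340a1)) e
 (c (a (nat_lit 0x261a0a001)) e
 (c (a (nat_lit 0x16961575c2)) e
 (c (a (nat_lit 0x202033a5)) e
 (c (a (nat_lit 0x3af3de05)) e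
 (c z e
 (c (a (nat_lit 0x17b8509087)) e
 (c (a (nat_lit 0x1f60402005)) e
 (c (a (nat_lit 0x360000001)) e e)))))))))))))))))))
 (c (a (nat_lit 0x202021))
 (c (a (nat_lit 0x20203524))
 (c (a (nat_lit 0x17cfaf4d8ee5))
 (c (a (nat_lit 0x22e85c72cc05)) e
 (c (a (nat_lit 0x26b565800006)) e e))
 (c (a (nat_lit 0x40c20250a8))
 (c (a (nat_lit 0x159501a0000005)) e e)
 (c (a (nat_lit 0x4868693d368)) e
 (c z e
 (c z e
 (c (a (nat_lit 0x1c150564c2e7)) e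
 (c (a (nat_lit 0x10a0646ac188)) e
 (c (a (nat_lit 0x13a5cfa9d87)) e e))))))))
 (c (b (nat_lit 0x353fe5))
 (c (a (nat_lit 0x3e2a6375fe7))
 (c (a (nat_lit 0x1fec2000000003)) e e)
 (c z e
 (c z e
 (c (a (nat_lit 0x111047c6e729)) e
 (c (a (nat_lit 0x17cfc9032968)) e
 (c (a (nat_lit 0x100ab01f4e9)) e e))))))
 (c (a (nat_lit 0x6bf6ae3c7)) e
 (c z e
 (c (a (nat_lit 0x33e02025))
 (c z e
 (c (a (nat_lit 0x6687e682029)) e
 (c (a (nat_lit 0x89c12084009)) e e)))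
 (c (a (nat_lit 0x1640202025))
 (c (a (nat_lit 0x8b1d4046008)) e
 (c (a (nat_lit 0x18bb68200009)) e e))
 (c (a (nat_lit 0x202e1886))
 (c (a (nat_lit 0x168480000009)) e e)
 (c (a (nat_lit 0x351505)) e
 (c z e
 (c (a (nat_lit 0x342010041)) e
 (c (a (nat_lit 0x11b1802064)) e
 (c (a (nat_lit 0x23e3c5ac5)) e
 (c (a (nat_lit 0x1ffc596024)) e
 (c z e
 (c (a (nat_lit 0x1bd6967667)) e
 (c (a (nat_lit 0x520404121)) e
 (c (a (nat_lit 0x600001)) e e)))))))))))))))))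
 C184)))) Tr.c Tr.e (nat_lit 0) C.cx C.cy
noncomputable def C186 : Tr := beta% (fun (c : Nat → Tr → Tr → Tr) (e : Tr) (z : Nat) (a b : Nat → Nat) =>
 (c (a (nat_lit 0x20202021))
 (c (a (nat_lit 0x356f6d20927))
 (c (a (nat_lit 0xd2ded6f90c566))
 (c (a (nat_lit 0x147a5c9656507406)) e
 (c z e
 (c z e
 (c (a (nat_lit 0xe714d8feced28a9)) e
 (c (a (nat_lit 0x11b136d8326c8f88)) e
 (c z e
 (c z e
 (c (a (nat_lit 0x1267e00000000007)) e e))))))))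
 (c z e
 (c z e
 (c (a (nat_lit 0xe7867cbafeb08))
 (c z e
 (c (a (nat_lit 0x10aecb0d4ac0000a)) e
 (c (a (nat_lit 0x124c4a4000000009)) e e)))
 (c (a (nat_lit 0x12712609ac6988))
 (c (a (nat_lit 0x13aed40ce0000008)) e
 (c (a (nat_lit 0x140fe00000000007)) e e))
 (c (a (nat_lit 0xdb006c912ce47)) e
 (c (a (nat_lit 0xf3089940cd547)) e
 (c (a (nat_lit 0x5e6a3236e5147)) e
 (c (a (nat_lit 0x648a8d2758667)) e
 (c (a (nat_lit 0x42a4e38409387)) e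
 (c (b (nat_lit 0xbb4cb9ff3e127)) e e)))))))))))
 (c (a (nat_lit 0x15750e670728)) e
 (c (b (nat_lit 0x151fe0402026)) e
 (c (a (nat_lit 0x23c3836001))
 (c (a (nat_lit 0x72b4181097cc8)) e
 (c (a (nat_lit 0x14241a7753809)) e
 (c (b (nat_lit 0x1ff2321cfd0888)) e
 (c z e
 (c z e
 (c z e
 (c (a (nat_lit 0x104d3449088009)) e
 (c (a (nat_lit 0x119f8f20000008)) e e))))))))
 (c (b (nat_lit 0x22201f93fe2))
 (c (a (nat_lit 0x1c042cc12ab68)) e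
 (c (a (nat_lit 0x2854b70c46589)) e
 (c z e
 (c z e
 (c (a (nat_lit 0x18134787924dc9)) e
 (c (a (nat_lit 0x183aad2e800008)) e
 (c (a (nat_lit 0x15c7c000000008)) e e)))))))
 (c (a (nat_lit 0x11b1b0d08cc7))
 (c (a (nat_lit 0xdb457e0917027)) e
 (c z e
 (c (b (nat_lit 0x87ff803630048)) e
 (c (a (nat_lit 0x112dc3700ca007)) e
 (c (a (nat_lit 0x1f0323c0000008)) e
 (c (a (nat_lit 0x12000000000007)) e e))))))
 (c (a (nat_lit 0x1391f1f1f207))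
 (c z e
 (c (b (nat_lit 0x161aad04635fe8)) e
 (c (a (nat_lit 0x14b574b3800007)) e
 (c (a (nat_lit 0x14696000000006)) e e))))
 (c (a (nat_lit 0x1e3044521))
 (c (a (nat_lit 0x13614a94402006)) e
 (c (a (nat_lit 0x4d5db00000007)) e e))
 (c (a (nat_lit 0x40419b99585))
 (c (a (nat_lit 0x108ca000000007)) e e)
 (c (a (nat_lit 0x18670f0d307)) e
 (c (a (nat_lit 0xab5b5b615e8)) e
 (c z e
 (c (a (nat_lit 0xfd337a9c7e7)) e
 (c (a (nat_lit 0xd9664002c26)) e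
 (c (a (nat_lit 0x1663e02c2c46)) e
 (c (a (nat_lit 0x1e104e281)) e
 (c (a (nat_lit 0x121006001)) e
 (c (a (nat_lit 0x140000001)) e e))))))))))))))))))
 (c (a (nat_lit 0x20204041))
 (c (a (nat_lit 0x17c2c0202006))
 (c (a (nat_lit 0x8562ca0696946))
 (c (a (nat_lit 0x12f28e8ef59a5128)) e e)
 (c (a (nat_lit 0xe4fa980857d07)) e
 (c z e
 (c z e
 (c z e
 (c (a (nat_lit 0x2c29299e0f68)) e
 (c (b (nat_lit 0x1fe5ec73466688)) e e)))))))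
 (c (a (nat_lit 0x1e40a080bac3))
 (c (a (nat_lit 0x7aa25856b5a48))
 (c (a (nat_lit 0xd2ef8b18ed40b69)) e e) e)
 (c (a (nat_lit 0xa4a4a9d25c5))
 (c (a (nat_lit 0x56200420cf10a))
 (c (a (nat_lit 0x93699a000000007)) e e) e)
 (c (a (nat_lit 0x1b5b55b5c4c6)) e
 (c z e
 (c (a (nat_lit 0x3c589098001))
 (c z e
 (c (a (nat_lit 0x17ee8ea7088009)) e e))
 (c (a (nat_lit 0x101034950c86))
 (c (a (nat_lit 0x19f35b27800008)) e
 (c (a (nat_lit 0xf14c000000008)) e e))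
 (c (b (nat_lit 0x2e85fecb5e8))
 (c (a (nat_lit 0x1c800000000006)) e e)
 (c z e
 (c z e
 (c z e
 (c (a (nat_lit 0x1a1eb68d6d88)) e
 (c (a (nat_lit 0x1d2dc0294927)) e
 (c (a (nat_lit 0x128060404025)) e
 (c (a (nat_lit 0x4820202e1a1)) e
 (c (a (nat_lit 0x28201000001)) e
 (c (a (nat_lit 0x2000000001)) e e)))))))))))))))))
 (c (a (nat_lit 0x202001))
 (c (a (nat_lit 0x363839b2023))
 (c (a (nat_lit 0x1700e062fe5ea5))
 (c (a (nat_lit 0xad1a9e434060007)) e e)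
 (c (a (nat_lit 0x421e1c1ca10e9)) e e))
 (c (a (nat_lit 0x6712aaac586)) e
 (c z e
 (c (a (nat_lit 0x22a2e467c1)) e
 (c (a (nat_lit 0x20d1920003)) e
 (c (a (nat_lit 0x1597dc9cb927))
 (c (a (nat_lit 0x105a6a00000008)) e e)
 (c z e
 (c z e
 (c z e
 (c z e
 (c z e
 (c (a (nat_lit 0x18d3202aaaa7)) e
 (c (a (nat_lit 0x10e040202026)) e
 (c (a (nat_lit 0x41c201e001)) e
 (c (a (nat_lit 0x120000001)) e e)))))))))))))))
 (c (a (nat_lit 0x2001))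
 (c (a (nat_lit 0x1d3bdbfbfbe5)) e
 (c (a (nat_lit 0x1c7c7d9d1be8))
 (c z e
 (c (a (nat_lit 0x122c91c8ec68ea)) e e))
 (c (a (nat_lit 0xa2a4eeab7e5))
 (c (b (nat_lit 0x1ff2a4ad5fe548)) e e)
 (c (a (nat_lit 0x141e624b1a8)) e
 (c z e
 (c z e
 (c (a (nat_lit 0xaf75823eee9)) e
 (c (a (nat_lit 0xb5af1575529)) e
 (c z e
 (c z e
 (c (a (nat_lit 0x16d960c02047)) e
 (c (a (nat_lit 0x1961004e2e27)) e
 (c (a (nat_lit 0x1b8460a00002)) e
 (c (a (nat_lit 0x8000000001)) e e))))))))))))))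
 (c (a (nat_lit 0x40404041))
 (c (a (nat_lit 0xacad191b1a7))
 (c (a (nat_lit 0x10433465674828)) e
 (c (a (nat_lit 0x418a608b6c388)) e e))
 (c (a (nat_lit 0x11395b573847))
 (c (a (nat_lit 0xb05c915246648)) e e)
 (c z e
 (c z e
 (c (a (nat_lit 0xf6fb18d2649)) e
 (c (a (nat_lit 0x12d69b0d7c48)) e
 (c (a (nat_lit 0xdf22d945209)) e
 (c z e
 (c z e
 (c (a (nat_lit 0x1d1d72478747)) e
 (c (a (nat_lit 0x1ac484c02006)) e
 (c (a (nat_lit 0x14a60000001)) e e))))))))))))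
 (c (a (nat_lit 0x20202021))
 (c (a (nat_lit 0xaea05095007))
 (c (a (nat_lit 0x1958af2c138885)) e e)
 (c z e
 (c (a (nat_lit 0x64a72c7e807)) e
 (c (a (nat_lit 0x8d128a84f07)) e
 (c (a (nat_lit 0x186ff025dda7)) e
 (c (a (nat_lit 0x92e2c706d69)) e
 (c z e
 (c z e
 (c (a (nat_lit 0xd1541404027)) e
 (c (a (nat_lit 0x134020200007)) e
 (c (a (nat_lit 0x2000000001)) e e)))))))))))
 (c (a (nat_lit 0x20000021))
 (c (a (nat_lit 0xc6d95afeee5)) e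
 (c (a (nat_lit 0x95b27e90285)) e
 (c (a (nat_lit 0x168cec8708e6)) e
 (c (a (nat_lit 0x3e3a2e3b3e8)) e
 (c (a (nat_lit 0x4e649b1a4a9)) e
 (c z e
 (c (a (nat_lit 0xbd1a8c22229)) e
 (c (a (nat_lit 0x1522a067c007)) e
 (c (a (nat_lit 0x2b8e0000005)) e e)))))))))
 (c (a (nat_lit 0x20204061))
 (c (a (nat_lit 0x11cb2c068446)) e
 (c (a (nat_lit 0x1491ef8548a7)) e
 (c (a (nat_lit 0xa87e1f5f147)) e
 (c (a (nat_lit 0x2aa78dddf87)) e
 (c z e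
 (c (a (nat_lit 0xeef7346ed28)) e
 (c (b (nat_lit 0x1ffa40c00005)) e e)))))))
 (c (a (nat_lit 0x20203986))
 (c (a (nat_lit 0x15d4ec8fc046)) e
 (c (a (nat_lit 0x643114e3267)) e
 (c (b (nat_lit 0x50c53fbffe7)) e e)))
 (c (a (nat_lit 0x5459fff06))
 (c (a (nat_lit 0x20ed677b67)) e
 (c (a (nat_lit 0x30d31a77b08)) e e))
 (c z
 (c (a (nat_lit 0x7ab251031c9)) e e)
 (c z e
 (c (a (nat_lit 0x1149a02006)) e
 (c (a (nat_lit 0x1d60404024)) e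
 (c (a (nat_lit 0x2c2620381)) e
 (c (a (nat_lit 0x1777218202)) e
 (c (a (nat_lit 0x1900a1a3a2)) e
 (c (a (nat_lit 0x810221)) e
 (c (a (nat_lit 0xa1a001)) e
 (c (a (nat_lit 0x62808001)) e
 (c (a (nat_lit 0x5426261a1)) e e)))))))))))))))))))))) Tr.c Tr.e (nat_lit 0) C.cx C.cy
noncomputable def C187 : Tr := beta% (fun (c : Nat → Tr → Tr → Tr) (e : Tr) (z : Nat) (a b : Nat → Nat) =>
 (c (nat_lit 1)
 (c (a (nat_lit 0x22230d06cc8))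
 (c (a (nat_lit 0xbee0e8ed10fc6))
 (c (a (nat_lit 0xaaed6ba336e4947)) e
 (c z e
 (c z e
 (c (a (nat_lit 0x13b1524f522fcf8a)) e
 (c (a (nat_lit 0x1af6965b9bf60e69)) e
 (c (a (nat_lit 0x12ef9592d0666bc7)) e
 (c z e
 (c (a (nat_lit 0xfd4878000000007)) e
 (c (a (nat_lit 0x1b60000000000006)) e e)))))))))
 (c z e
 (c z e
 (c (a (nat_lit 0xa143306ea2e29))
 (c z e
 (c z e
 (c (a (nat_lit 0x13f630ecc0000009)) e e)))
 (c (a (nat_lit 0x199bd68752f308))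
 (c (a (nat_lit 0x180f4ad2aa200009)) e
 (c (a (nat_lit 0x1df0f36000000008)) e e))
 (c (a (nat_lit 0xf8fb0c208b507)) e
 (c (a (nat_lit 0x155658cf7f54c7)) e
 (c (a (nat_lit 0x6a5e5c566f607)) e
 (c (a (nat_lit 0x5a448899b9787)) e
 (c (a (nat_lit 0x3c4acaef22468)) e
 (c (a (nat_lit 0x86eb30805cac8)) e e)))))))))))
 (c z e
 (c (a (nat_lit 0x1ffeacc02027)) e
 (c (a (nat_lit 0x13efef0eeee8))
 (c z e
 (c z e
 (c (b (nat_lit 0x5dfe8ec98b348)) e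
 (c z e
 (c z e
 (c z e
 (c (a (nat_lit 0x135834788e2bc9)) e
 (c (a (nat_lit 0x5f07ac9400009)) e e))))))))
 (c (a (nat_lit 0x621c0e142c1))
 (c (a (nat_lit 0x5c4683335b267)) e
 (c (a (nat_lit 0x36e157e7bc147)) e
 (c z e
 (c z e
 (c (a (nat_lit 0x10b16b84056d49)) e
 (c (a (nat_lit 0x10a84f05c64009)) e
 (c (a (nat_lit 0x11dc2800000008)) e e)))))))
 (c (a (nat_lit 0x13937373cc04))
 (c (b (nat_lit 0x13ca33529fea26)) e
 (c z e
 (c (b (nat_lit 0x2431ff30240a8)) e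
 (c (a (nat_lit 0x16322710b78de6)) e
 (c (a (nat_lit 0x3b6a4e3400008)) e
 (c (a (nat_lit 0x1b276000000008)) e e))))))
 (c (a (nat_lit 0x15b5b4f45187))
 (c z e
 (c (b (nat_lit 0xc8bfff1078008)) e
 (c (a (nat_lit 0x1e24ef0c254008)) e
 (c (a (nat_lit 0x172e2640000008)) e
 (c (a (nat_lit 0x11a00000000007)) e e)))))
 (c (a (nat_lit 0x15ee6ececf04))
 (c (a (nat_lit 0x16724766e58087)) e
 (c (b (nat_lit 0x1ff23b12000007)) e
 (c (a (nat_lit 0x1a7f0000000005)) e e)))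
 (c (a (nat_lit 0x20e1c19883))
 (c (a (nat_lit 0xad06ae0000007)) e
 (c (a (nat_lit 0x1ee00000000004)) e e))
 (c (a (nat_lit 0x4a5179a9806)) e
 (c (a (nat_lit 0x70f74b5f388)) e
 (c z e
 (c z e
 (c (a (nat_lit 0x112ef3e48386)) e
 (c (a (nat_lit 0xdd101202d26)) e
 (c (a (nat_lit 0x1101202d2d46)) e
 (c (a (nat_lit 0x1c1c3e341)) e
 (c (a (nat_lit 0x140e00001)) e
 (c (nat_lit 1) e e)))))))))))))))))))
 (c (a (nat_lit 0x202021))
 (c (a (nat_lit 0x1675cf8e0e07))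
 (c (a (nat_lit 0x1854d3af23cb86))
 (c (a (nat_lit 0x1291d28e0acd0a87)) e e)
 (c z e
 (c z e
 (c z e
 (c z e
 (c z e
 (c (a (nat_lit 0x94346f7d58bc7)) e e)))))))
 (c (a (nat_lit 0x19e4a0202026))
 (c (a (nat_lit 0xe0e24e1815267)) e
 (c (b (nat_lit 0x66eac3ff14a27))
 (c (a (nat_lit 0xdaa28fa74e00009)) e e) e))
 (c (a (nat_lit 0x160040205244))
 (c (a (nat_lit 0x428e323023e48)) e e)
 (c (a (nat_lit 0x20205220e4)) e
 (c (a (nat_lit 0x1030314ee024)) e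
 (c z e
 (c (a (nat_lit 0x2030323e1))
 (c (a (nat_lit 0x18526b11202007)) e
 (c (a (nat_lit 0x1b741aa0000007)) e e))
 (c (b (nat_lit 0x2035bffec6))
 (c (a (nat_lit 0x7b40000000006)) e e)
 (c z e
 (c z e
 (c z e
 (c z e
 (c (a (nat_lit 0x18718d0108a7)) e
 (c (a (nat_lit 0x11ac2027e7e7)) e
 (c (a (nat_lit 0x110040202045)) e
 (c (a (nat_lit 0x3414120e001)) e
 (c (a (nat_lit 0x2060000001)) e e)))))))))))))))))
 (c (nat_lit 1)
 (c (a (nat_lit 0x10c0404041c3))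
 (c (a (nat_lit 0xde4a041615066))
 (c (a (nat_lit 0x80768ac073746e7)) e
 (c (a (nat_lit 0xe0d311117000008)) e e))
 (c (a (nat_lit 0x6238021c2d1c8))
 (c (a (nat_lit 0xbaf739400000008)) e e) e))
 (c (a (nat_lit 0x2060b722a3))
 (c (a (nat_lit 0x68063608ff028)) e e)
 (c (a (nat_lit 0x44d4e8de4a1)) e
 (c (a (nat_lit 0xce204232441)) e
 (c (a (nat_lit 0x1c3448001)) e
 (c (a (nat_lit 0xa2a53145825))
 (c (a (nat_lit 0xd32fe50e00007)) e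
 (c (a (nat_lit 0x1d0000000007)) e e))
 (c (b (nat_lit 0x277dffa3466))
 (c (a (nat_lit 0x1f800000000006)) e e)
 (c z e
 (c z e
 (c z e
 (c z e
 (c (a (nat_lit 0x1abfcea2c305)) e
 (c (a (nat_lit 0x1025e0202006)) e
 (c (a (nat_lit 0x1720a0602004)) e
 (c (a (nat_lit 0x423e1000001)) e
 (c (a (nat_lit 0x2c000000001)) e e))))))))))))))))
 (c (a (nat_lit 0x20202021))
 (c (a (nat_lit 0x13a2fcc0b64))
 (c (a (nat_lit 0x3b7a1e04c4e5)) e e)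
 (c z e
 (c (a (nat_lit 0x1e3e7e7e7ee4))
 (c (b (nat_lit 0x74d7ba740bfe7)) e e)
 (c (a (nat_lit 0x204464dee5)) e
 (c z e
 (c z e
 (c (a (nat_lit 0x1012922aa2a8)) e
 (c (a (nat_lit 0x1071f30af308)) e
 (c (a (nat_lit 0x14f670f90f28)) e
 (c z e
 (c z e
 (c (a (nat_lit 0x1f1fca6cece6)) e
 (c (a (nat_lit 0x158020604006)) e
 (c (a (nat_lit 0x2e0000001)) e e))))))))))))))
 (c (a (nat_lit 0x80606061))
 (c (a (nat_lit 0x179798d8d7a6))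
 (c (a (nat_lit 0xb282470e48588)) e
 (c (a (nat_lit 0xdaa73a6874728)) e e))
 (c (a (nat_lit 0xa6b335191e7))
 (c (a (nat_lit 0x1f170eb89d5f86)) e e)
 (c z e
 (c z e
 (c (a (nat_lit 0x19baf4a76607)) e
 (c (a (nat_lit 0x16f0cd2beaa7)) e
 (c (a (nat_lit 0x7c5ef6ed4c8)) e
 (c (a (nat_lit 0xf5752d49008)) e
 (c z e
 (c z e
 (c (a (nat_lit 0x142dc2602027)) e
 (c (a (nat_lit 0x1d0100200004)) e
 (c (a (nat_lit 0x5a000000001)) e e)))))))))))))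
 (c (nat_lit 1)
 (c (a (nat_lit 0xeb328ce4ae5))
 (c (a (nat_lit 0x14de978161a023)) e e)
 (c z e
 (c (a (nat_lit 0xa704be784c6)) e
 (c (a (nat_lit 0x1bf3ef8a0ac5)) e
 (c (a (nat_lit 0x1b571354c785)) e
 (c (a (nat_lit 0x867ce8c5088)) e
 (c z e
 (c z e
 (c (a (nat_lit 0x6dab0cdad66)) e
 (c (a (nat_lit 0x1ca543c04005)) e
 (c (a (nat_lit 0x1223c0000002)) e e)))))))))))
 (c (nat_lit 1)
 (c z e
 (c (a (nat_lit 0x1b8fc185a8a5)) e
 (c (a (nat_lit 0x10c246e6c365)) e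
 (c (a (nat_lit 0x16bb1b4837a5)) e
 (c (a (nat_lit 0xbacc972fe87)) e
 (c z e
 (c z e
 (c (a (nat_lit 0x731eb6dad86)) e
 (c (a (nat_lit 0x144c21000004)) e e)))))))))
 (c (nat_lit 1)
 (c (a (nat_lit 0x132c2c4f2445)) e
 (c (a (nat_lit 0x10103180a0c6)) e
 (c (a (nat_lit 0x122c4525c546)) e
 (c (a (nat_lit 0x2e28283f307)) e
 (c (a (nat_lit 0x2c6891c3787)) e e)))))
 (c (a (nat_lit 0x40406021))
 (c (a (nat_lit 0x1977c9e927c5)) e
 (c (a (nat_lit 0x6c5450659e5)) e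
 (c (a (nat_lit 0x3826d5546)) e
 (c (b (nat_lit 0x619fe87927)) e e))))
 (c (a (nat_lit 0x3bc5))
 (c (a (nat_lit 0x10228031463)) e
 (c (a (nat_lit 0xfc003a25)) e e))
 (c (a (nat_lit 0x203d5be5))
 (c (a (nat_lit 0x4e38b005d87)) e e)
 (c (a (nat_lit 0x105ab81146)) e
 (c z e
 (c (a (nat_lit 0x1ed957b786)) e
 (c (a (nat_lit 0x1b00402023)) e
 (c (a (nat_lit 0x1151513143)) e
 (c (a (nat_lit 0x402120e1)) e
 (c (a (nat_lit 0xc0e1e0e1)) e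
 (c (a (nat_lit 0xa0c101)) e
 (c (a (nat_lit 0x80a101)) e
 (c (a (nat_lit 0x20205624)) e
 (c (a (nat_lit 0x3620a4)) e e))))))))))))))))))))))) Tr.c Tr.e (nat_lit 0) C.cx C.cy
noncomputable def C188 : Tr := beta% (fun (c : Nat → Tr → Tr → Tr) (e : Tr) (z : Nat) (a b : Nat → Nat) =>
 (c (nat_lit 1)
 (c (a (nat_lit 0x20202021))
 (c (a (nat_lit 0x203644))
 (c (a (nat_lit 0x140ff030304942))
 (c z e
 (c (a (nat_lit 0x7e7e80b0cd58ee6))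
 (c (a (nat_lit 0x60565c4685af92d28)) e
 (c (a (nat_lit 0x4050344ad902ca709)) e e))
 (c (a (nat_lit 0x7878b6c95ebabc6)) e
 (c z e
 (c (a (nat_lit 0x14d398503274d186)) e e)))))
 (c (a (nat_lit 0x1b7bbc7cbaa3e3))
 (c (a (nat_lit 0x9292b52ba9635c7))
 (c (a (nat_lit 0x48462a5f4172a8a29)) e e)
 (c z e
 (c z e
 (c (a (nat_lit 0xc10ed6dee4c2d89)) e
 (c (a (nat_lit 0x12706eefee100ec9)) e
 (c (a (nat_lit 0x1599d4f351afeee7)) e
 (c (a (nat_lit 0x17cbebea45264467)) e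
 (c (a (nat_lit 0x1a97148fc7600006)) e e))))))))
 (c (b (nat_lit 0x10b0d0fff59804))
 (c z e
 (c z e
 (c z e
 (c z e
 (c (a (nat_lit 0x112f662580eb6387)) e
 (c z e
 (c (a (nat_lit 0x13cf6f0a40000007)) e e)))))))
 (c (b (nat_lit 0x19799ff02ae044))
 (c z e
 (c z e
 (c (a (nat_lit 0x18788d6fcbd46b07)) e
 (c (a (nat_lit 0x172e8ee417244606)) e
 (c z e
 (c (a (nat_lit 0xe11508000000007)) e e))))))
 (c (a (nat_lit 0x119134130e8046))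
 (c (a (nat_lit 0x1dbf189b189dcfe6)) e e)
 (c (a (nat_lit 0x1196104926a025)) e
 (c (a (nat_lit 0x154fa5002067c4)) e
 (c (a (nat_lit 0x10220020388964)) e
 (c (a (nat_lit 0x2eccd4b8bd185)) e
 (c (a (nat_lit 0x463e2a33a8ac4)) e
 (c (a (nat_lit 0x262a2bb585784)) e
 (c (a (nat_lit 0xa6c985435a265)) e
 (c (a (nat_lit 0x1016146e110026)) e e)))))))))))))
 (c (a (nat_lit 0x202035b5a6))
 (c (a (nat_lit 0xe2e56b2b27285))
 (c (a (nat_lit 0x606ead070ce68e8))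
 (c (a (nat_lit 0x4a224f0b7ca6a2309)) e e)
 (c z e
 (c z e
 (c (a (nat_lit 0x12f130706e108dea)) e
 (c (a (nat_lit 0x116f2e0d4fcf0c6a)) e
 (c (a (nat_lit 0x172c8c6debc84448)) e
 (c (a (nat_lit 0x12f9776942848006)) e
 (c (a (nat_lit 0x15bb568560000006)) e
 (c (a (nat_lit 0x1b32800000000006)) e e)))))))))
 (c z e
 (c z e
 (c (a (nat_lit 0x1396f8b6a02868))
 (c z e
 (c z e
 (c (a (nat_lit 0x114b0c8b26a00009)) e e)))
 (c (a (nat_lit 0x11d0d08dc5cd48))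
 (c (a (nat_lit 0x1c7a3290f8cc8008)) e
 (c (a (nat_lit 0x112ba84800000009)) e e))
 (c (a (nat_lit 0x145660e0209a85)) e
 (c (a (nat_lit 0x48989ca62b067)) e
 (c (a (nat_lit 0x9a6a686e79dc5)) e
 (c (a (nat_lit 0x2c281e8a99aa6)) e
 (c (a (nat_lit 0x3c3c76eae5127)) e
 (c (a (nat_lit 0xb6ed959204b47)) e e)))))))))))
 (c (a (nat_lit 0x20219d88f26))
 (c z e
 (c z e
 (c z e
 (c z e
 (c z e
 (c z e
 (c (a (nat_lit 0x72727e5e7b2e7)) e
 (c (b (nat_lit 0x2a1853ff06367)) e e))))))))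
 (c (a (nat_lit 0x2f02f894807))
 (c z e
 (c z e
 (c z e
 (c z e
 (c z e
 (c (a (nat_lit 0x1117adb41515e6)) e
 (c (b (nat_lit 0x6cf5ff04563e6)) e e)))))))
 (c (a (nat_lit 0x100f6a890907))
 (c z e
 (c z e
 (c (a (nat_lit 0x2ce82f6db627)) e
 (c z e
 (c z e
 (c z e
 (c (a (nat_lit 0xcaecd4d704528)) e
 (c (b (nat_lit 0xabfedf3450008)) e e))))))))
 (c (a (nat_lit 0x166908280805))
 (c (b (nat_lit 0x1ff2cef93677c6)) e
 (c (a (nat_lit 0x2472343d43e5)) e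
 (c z e
 (c z e
 (c (a (nat_lit 0x495ee6b03c707)) e
 (c (a (nat_lit 0x1476eebb64c747)) e
 (c (a (nat_lit 0xe9f163000008)) e e)))))))
 (c (a (nat_lit 0x1ed413f3f403))
 (c (a (nat_lit 0xc41477168a4a5)) e
 (c z e
 (c (b (nat_lit 0x1a3e61ff0e707)) e
 (c (a (nat_lit 0x1cd0c13fd761c5)) e
 (c (a (nat_lit 0x9a35648804007)) e
 (c (a (nat_lit 0xc1e86a0000007)) e e))))))
 (c (a (nat_lit 0xf8f0eefa221))
 (c z e
 (c (b (nat_lit 0x3d61ffff96286)) e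
 (c (a (nat_lit 0x75c86d082e066)) e
 (c (a (nat_lit 0x3530be3e00007)) e
 (c (a (nat_lit 0x18878000000007)) e e)))))
 (c (a (nat_lit 0x135314ae4441))
 (c (a (nat_lit 0x19c8784c052026)) e
 (c (a (nat_lit 0x988d62c648006)) e
 (c (a (nat_lit 0x102a2460000007)) e e)))
 (c (a (nat_lit 0x12143888821))
 (c (a (nat_lit 0xb5a9309000005)) e
 (c (a (nat_lit 0x11e56000000005)) e e))
 (c (a (nat_lit 0xc202e421))
 (c (a (nat_lit 0x5000000000001)) e e)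
 (c (a (nat_lit 0x6e6f595b966)) e
 (c (a (nat_lit 0xc0c0fb18f87)) e
 (c z e
 (c (a (nat_lit 0x109613eceba6)) e
 (c (a (nat_lit 0x17d082802005)) e
 (c (a (nat_lit 0x108280202b85)) e
 (c (a (nat_lit 0x50040373744)) e
 (c (a (nat_lit 0x2040806001)) e
 (c (a (nat_lit 0x60000001)) e e))))))))))))))))))))
 C187)
 (c (nat_lit 1) C186
 (c (a (nat_lit 0x202021))
 (c (nat_lit 1)
 (c (a (nat_lit 0xbe020205203))
 (c (a (nat_lit 0x116ce0606055c4))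
 (c z e
 (c (a (nat_lit 0x845a82bac92f648)) e
 (c (a (nat_lit 0x9cc8a1396360007)) e e)))
 (c (a (nat_lit 0xd23804056f6e6))
 (c (a (nat_lit 0x6e7ad0db3570729)) e
 (c (a (nat_lit 0x98c515c93000009)) e e))
 (c (b (nat_lit 0x1fe8e700205da7))
 (c (a (nat_lit 0xc1cd81860000007)) e e)
 (c (a (nat_lit 0x27a322af54e7)) e
 (c (b (nat_lit 0x1fffe028e87c07)) e
 (c (a (nat_lit 0x270e8719e6)) e
 (c (b (nat_lit 0x1ff454fa7411e6)) e e)))))))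
 (c (a (nat_lit 0x202057c164))
 (c (a (nat_lit 0x60f0f0ef1d607))
 (c (a (nat_lit 0x60b8bf0f3c44009)) e
 (c (a (nat_lit 0x9eb77acc000000a)) e e))
 (c (a (nat_lit 0x684c16051d649))
 (c (a (nat_lit 0x1d3486000000009)) e e)
 (c (a (nat_lit 0x3e160257189c9)) e
 (c (a (nat_lit 0x41c4c8e97109)) e
 (c (a (nat_lit 0x82c720284ed89)) e e)))))
 (c (a (nat_lit 0x111bb6b6d025))
 (c (a (nat_lit 0x70c8c59da16e8)) e e)
 (c (a (nat_lit 0x761a2e180e1)) e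
 (c (a (nat_lit 0x5260b2c0f41))
 (c z e
 (c z e
 (c (a (nat_lit 0x13232529044009)) e e)))
 (c (a (nat_lit 0x40556f82622))
 (c (b (nat_lit 0x1109bddfe50107)) e
 (c (a (nat_lit 0xaf06bc3400008)) e e))
 (c (a (nat_lit 0x687a8283307))
 (c (a (nat_lit 0x9760300000007)) e e)
 (c z e
 (c z e
 (c z e
 (c z e
 (c (a (nat_lit 0x16f46f0ac7c8)) e
 (c (a (nat_lit 0x15c020202ae6)) e
 (c (a (nat_lit 0x404055b5a5)) e
 (c (a (nat_lit 0xc10361e001)) e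
 (c (a (nat_lit 0x6140000001)) e e))))))))))))))))
 (c (a (nat_lit 0x20202021))
 (c (a (nat_lit 0x31863838045))
 (c (a (nat_lit 0xa6a686a73327))
 (c (a (nat_lit 0x10eff59c65800007)) e
 (c (a (nat_lit 0x8576ae000000009)) e e))
 (c (a (nat_lit 0x449a98d380f29))
 (c (a (nat_lit 0x1104c00000000009)) e e)
 (c (a (nat_lit 0x2888a55270f09)) e
 (c (a (nat_lit 0x4a9d822a20748)) e e))))
 (c (a (nat_lit 0x156060826265))
 (c (a (nat_lit 0x602bdfd41488)) e e)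
 (c (a (nat_lit 0x28a0a93c1)) e
 (c (a (nat_lit 0xbcc95cde144)) e
 (c (a (nat_lit 0x13d474941c08)) e
 (c z e
 (c z e
 (c z e
 (c z e
 (c z e
 (c (a (nat_lit 0x14cc8640c348)) e
 (c (a (nat_lit 0x15a080587866)) e
 (c (a (nat_lit 0x7a4c281c0c1)) e
 (c (a (nat_lit 0xc1000001)) e
 (c (a (nat_lit 0x2000000001)) e e)))))))))))))))
 (c (a (nat_lit 0x20202021))
 (c (a (nat_lit 0x616181c4e1))
 (c (a (nat_lit 0x6d9193845a046)) e e)
 (c (a (nat_lit 0x202e4f3666)) e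
 (c z e
 (c z e
 (c z e
 (c z e
 (c z e
 (c z e
 (c z e
 (c (a (nat_lit 0x11120ee50169)) e
 (c (a (nat_lit 0xb07002076a8)) e
 (c (a (nat_lit 0xda020588007)) e
 (c (a (nat_lit 0x100000001)) e e)))))))))))))
 (c (a (nat_lit 0x60606061))
 (c (a (nat_lit 0xaeaeac9a66)) e
 (c z e
 (c z e
 (c z e
 (c z e
 (c z e
 (c z e
 (c z e
 (c z e
 (c (a (nat_lit 0x1040606bab67)) e
 (c (a (nat_lit 0x91313400004)) e
 (c (a (nat_lit 0x16000000001)) e e))))))))))))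
 (c (nat_lit 1)
 (c z e
 (c z e
 (c (a (nat_lit 0x1497530b4028)) e
 (c z e
 (c z e
 (c z e
 (c z e
 (c z e
 (c (a (nat_lit 0xd693ae12004)) e
 (c (a (nat_lit 0x1120000004)) e e))))))))))
 (c (nat_lit 1)
 (c (a (nat_lit 0x17da78684786)) e
 (c (a (nat_lit 0x16f347224007)) e
 (c z e
 (c z e
 (c z e
 (c z e
 (c (a (nat_lit 0x1616e08070c7)) e
 (c (a (nat_lit 0x106b80400006)) e
 (c (a (nat_lit 0xc6000000001)) e e)))))))))
 (c (a (nat_lit 0x17c6))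
 (c (a (nat_lit 0x1948c485e1c6)) e
 (c (a (nat_lit 0xa0a70ebacc8)) e
 (c z e
 (c z e
 (c (a (nat_lit 0x3a84b50c048)) e
 (c (a (nat_lit 0x1cf83fb48006)) e
 (c (a (nat_lit 0x116d60000005)) e e)))))))
 (c (a (nat_lit 0x20397386))
 (c (b (nat_lit 0x164d5d1ff7a6)) e e)
 (c z e
 (c z e
 (c (a (nat_lit 0x116dc02046)) e
 (c (a (nat_lit 0x1ac0202005)) e
 (c (a (nat_lit 0x202031e4)) e
 (c (a (nat_lit 0xa303e1)) e
 (c (a (nat_lit 0x981020001)) e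
 (c (a (nat_lit 0xe0e0a081)) e
 (c (a (nat_lit 0x60c0a301)) e
 (c (a (nat_lit 0xc1e001)) e
 (c (a (nat_lit 0x203167)) e e)))))))))))))))))))
 C185)))) Tr.c Tr.e (nat_lit 0) C.cx C.cy

end Pool.Agent.Work.MP_82fd4a_nt.P.H
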