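import Pool.Agent.Work.MP_82fd4a_nt.P.Dx

set_option autoImplicit false
set_option linter.all false
set_option maxRecDepth 100000

namespace Pool.Agent.Work.MP_82fd4a_nt.P.H
open Y Y.Tr

noncomputable def C189 : Tr := beta% (fun (c : Nat → Tr → Tr → Tr) (e : Tr) (z : Nat) (a b : Nat → Nat) =>
 (c (nat_lit 1)
 (c (a (nat_lit 0x152944))
 (c (a (nat_lit 0x16161655466)) e
 (c (a (nat_lit 0x1ee2f979c87)) e
 (c z e
 (c z e
 (c (a (nat_lit 0x1a1e06a9c447)) e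
 (c (a (nat_lit 0x6a04981f168)) e
 (c (a (nat_lit 0x3882ff93267)) e
 (c (a (nat_lit 0xdfacde00006)) e
 (c (a (nat_lit 0x12000000001)) e e)))))))))
 (c (a (nat_lit 0x4b4524707))
 (c (a (nat_lit 0xb12f71e9087)) e
 (c z e
 (c z e
 (c (a (nat_lit 0x1d9072e83828)) e
 (c (a (nat_lit 0x98a450cf4a9)) e
 (c (a (nat_lit 0x90d1a8fe008)) e e))))))
 (c z e
 (c (a (nat_lit 0x59004025))
 (c z e
 (c (a (nat_lit 0x946dd344029)) e
 (c (a (nat_lit 0x8d730868009)) e e)))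
 (c (a (nat_lit 0x1b40202005))
 (c (a (nat_lit 0x531f7e20128)) e
 (c (a (nat_lit 0x14b2a4600009)) e e))
 (c (a (nat_lit 0x20f5c5))
 (c (a (nat_lit 0x148620000008)) e e)
 (c (a (nat_lit 0x34f265)) e
 (c (b (nat_lit 0x1ff5959545)) e
 (c (a (nat_lit 0x101810061)) e
 (c (a (nat_lit 0xd50402025)) e
 (c (a (nat_lit 0x241810021)) e
 (c z e
 (c z e
 (c (b (nat_lit 0x1fe1319103)) e
 (c (a (nat_lit 0x120a08001)) e
 (c (a (nat_lit 0x4a1600001)) e e))))))))))))))))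
 (c (nat_lit 1)
 (c (a (nat_lit 0x1b3a4c2786))
 (c (a (nat_lit 0x16b6da12ac26)) e
 (c z e
 (c z e
 (c (a (nat_lit 0x92aa7ce51a8)) e
 (c (a (nat_lit 0x8e5cd3ecc28)) e
 (c (a (nat_lit 0xe1e11000007)) e e))))))
 (c (a (nat_lit 0xd5602005)) e
 (c (a (nat_lit 0x14a0402025))
 (c z e
 (c (a (nat_lit 0x2f36f0540aa)) e
 (c (a (nat_lit 0x139aaba00009)) e e)))
 (c (a (nat_lit 0x20203805))
 (c (a (nat_lit 0x13e88380e009)) e
 (c (a (nat_lit 0x1ea980000008)) e e))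
 (c (b (nat_lit 0x60b5bfe3))
 (c (a (nat_lit 0x198000000006)) e e)
 (c (a (nat_lit 0x12929286)) e
 (c (a (nat_lit 0x3e2c200a1)) e
 (c (a (nat_lit 0xef4a62024)) e
 (c (b (nat_lit 0x325fe4)) e
 (c z e
 (c z e
 (c (b (nat_lit 0x1fe1411c42)) e
 (c (a (nat_lit 0x60e10001)) e
 (c (a (nat_lit 0xc04001)) e
 (c (a (nat_lit 0x40000001)) e e)))))))))))))))
 (c (nat_lit 1)
 (c (a (nat_lit 0x1760402004))
 (c (a (nat_lit 0x4c6a8875467)) e e)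
 (c (a (nat_lit 0x20207b45))
 (c (a (nat_lit 0xb1bcba9c4c8)) e
 (c (a (nat_lit 0x195625224009)) e
 (c (a (nat_lit 0x10c3a0000009)) e e)))
 (c (a (nat_lit 0x2042d245))
 (c (a (nat_lit 0x13a5e1600008)) e
 (c (a (nat_lit 0x10c000000007)) e e))
 (c (a (nat_lit 0x11d1b186)) e
 (c z e
 (c (a (nat_lit 0x1e9745447)) e
 (c (a (nat_lit 0x919191106)) e
 (c z e
 (c z e
 (c (b (nat_lit 0x1fe1a24101)) e
 (c (a (nat_lit 0x41e140c1)) e
 (c (a (nat_lit 0x260a061e1)) e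
 (c (a (nat_lit 0x1660400002)) e e)))))))))))))
 (c (a (nat_lit 0x2021))
 (c (a (nat_lit 0x42078ce1))
 (c (a (nat_lit 0x1c0342e10027)) e
 (c (a (nat_lit 0x176441600008)) e e))
 (c (a (nat_lit 0x32b32043))
 (c (a (nat_lit 0x158a80000005)) e e)
 (c (a (nat_lit 0xc0a0d406)) e
 (c (a (nat_lit 0x1ef525206)) e
 (c z e
 (c z e
 (c z e
 (c (b (nat_lit 0x1fe4e18001)) e
 (c (a (nat_lit 0x262616001)) e
 (c (a (nat_lit 0x21614001)) e
 (c (a (nat_lit 0x28120a001)) e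
 (c (a (nat_lit 0x40000001)) e e))))))))))))
 (c (a (nat_lit 0x202021))
 (c (a (nat_lit 0x806072e3))
 (c (a (nat_lit 0x116000000002)) e e)
 (c (a (nat_lit 0x3072d2a7)) e
 (c z e
 (c z e
 (c z e
 (c (a (nat_lit 0xb3a3a35a6)) e
 (c (a (nat_lit 0x17b7d7f1c5)) e
 (c (a (nat_lit 0x1940802042)) e
 (c (a (nat_lit 0x1a0414101)) e
 (c (a (nat_lit 0x600001)) e e))))))))))
 (c (nat_lit 1)
 (c (a (nat_lit 0x1475d5d067)) e
 (c z e
 (c z e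
 (c (a (nat_lit 0x133b5b2ee6)) e
 (c (a (nat_lit 0x1cbdbf2ee6)) e
 (c (a (nat_lit 0x1840808062)) e
 (c (a (nat_lit 0xc09f21)) e
 (c (a (nat_lit 0x80e14001)) e
 (c (nat_lit 1) e e)))))))))
 (c (a (nat_lit 0x202021))
 (c z e
 (c (a (nat_lit 0x10122fefe8)) e
 (c (a (nat_lit 0x3d8005)) e
 (c (a (nat_lit 0x10e0404082)) e
 (c (a (nat_lit 0x20600001)) e
 (c (a (nat_lit 0x40210141)) e
 (c (a (nat_lit 0x6a0400001)) e e)))))))
 (c (a (nat_lit 0x202021))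
 (c (a (nat_lit 0xe1e061)) e
 (c (a (nat_lit 0x140608001)) e
 (c (a (nat_lit 0x407202)) e
 (c (a (nat_lit 0x6100c1)) e
 (c (a (nat_lit 0x500802001)) e
 (c (a (nat_lit 0x160000001)) e e))))))
 (c (a (nat_lit 0x202021))
 (c (a (nat_lit 0x200001)) e
 (c (a (nat_lit 0x40202021)) e
 (c (a (nat_lit 0x20202021)) e
 (c (a (nat_lit 0x20200001)) e e))))
 (c (a (nat_lit 0x202021))
 (c (a (nat_lit 0x20202021)) e
 (c (a (nat_lit 0x20202001)) e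
 (c (a (nat_lit 0x20000001)) e e)))
 (c (a (nat_lit 0x202021))
 (c (a (nat_lit 0x20200001)) e e)
 (c (a (nat_lit 0x202021)) e
 (c (a (nat_lit 0x202001)) e
 (c (a (nat_lit 0x200001)) e
 (c (a (nat_lit 0x402041)) e
 (c (a (nat_lit 0x2021)) e
 (c (b (nat_lit 0x5fe1)) e
 (c (b (nat_lit 0x1ff625)) e
 (c z e
 (c (a (nat_lit 0x15e02005)) e
 (c (a (nat_lit 0x2001)) e
 (c (a (nat_lit 0xe0a001)) e
 (c (a (nat_lit 0x1602021)) e
 (c (a (nat_lit 0x600001)) e e))))))))))))))))))))))))) Tr.c Tr.e (nat_lit 0) C.cx C.cy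
noncomputable def C190 : Tr := beta% (fun (c : Nat → Tr → Tr → Tr) (e : Tr) (z : Nat) (a b : Nat → Nat) =>
 (c (a (nat_lit 0x202021))
 (c (a (nat_lit 0x20202001))
 (c (a (nat_lit 0x1131c301a101))
 (c (a (nat_lit 0x2856570133324))
 (c z e
 (c (a (nat_lit 0xfb94a2000000007)) e e))
 (c (a (nat_lit 0xd2d97581f2046))
 (c (a (nat_lit 0x1725a00000000007)) e e)
 (c (b (nat_lit 0x24d5a735fffe7)) e
 (c (b (nat_lit 0x90aebdfe07ba7)) e e))))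
 (c (a (nat_lit 0x1393b3b3a065))
 (c (a (nat_lit 0x1e6c7512093c7)) e e)
 (c (a (nat_lit 0x44451d21765)) e
 (c (a (nat_lit 0xf91ad0918e5)) e
 (c z e
 (c z e
 (c z e
 (c z e
 (c z e
 (c z e
 (c (a (nat_lit 0x184debe0e0e7)) e
 (c (a (nat_lit 0x1fe04140ec23)) e
 (c (a (nat_lit 0x82e1f837e2)) e
 (c (a (nat_lit 0x28120c00001)) e
 (c (a (nat_lit 0x2000000001)) e e)))))))))))))))
 (c (a (nat_lit 0x20202021))
 (c (a (nat_lit 0x2a403e221))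
 (c (a (nat_lit 0x1e252a159a106)) e e)
 (c z e
 (c z e
 (c z e
 (c z e
 (c z e
 (c z e
 (c z e
 (c (a (nat_lit 0x1357d34de029)) e
 (c (a (nat_lit 0x1ad2b0c941a8)) e
 (c (a (nat_lit 0xf6080769145)) e
 (c (a (nat_lit 0x20545818001)) e
 (c (a (nat_lit 0x6100000001)) e e)))))))))))))
 (c (a (nat_lit 0x40202041))
 (c z e
 (c z e
 (c z e
 (c z e
 (c z e
 (c z e
 (c z e
 (c z e
 (c z e
 (c (b (nat_lit 0x57ffff93886)) e
 (c (a (nat_lit 0x15c080c00006)) e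
 (c (a (nat_lit 0x2000000001)) e e))))))))))))
 (c (a (nat_lit 0x2001))
 (c (a (nat_lit 0x8b08d91d825))
 (c (a (nat_lit 0xf30eab069a006)) e
 (c (a (nat_lit 0x36cd480000005)) e e))
 (c (a (nat_lit 0xd6aa83bbaa6))
 (c (a (nat_lit 0x3d0e000000005)) e e)
 (c z e
 (c z e
 (c z e
 (c z e
 (c z e
 (c (b (nat_lit 0x12363fed8ba8)) e
 (c (a (nat_lit 0x196084e0e006)) e
 (c (a (nat_lit 0x43040000004)) e e))))))))))
 (c (a (nat_lit 0x204061))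
 (c (a (nat_lit 0x4846b6b50c7))
 (c (a (nat_lit 0x17200000000004)) e e)
 (c z e
 (c z e
 (c z e
 (c z e
 (c z e
 (c (a (nat_lit 0x1b78a7e04d67)) e
 (c (b (nat_lit 0x1ff2af200004)) e
 (c (a (nat_lit 0x1c4000000001)) e e)))))))))
 (c (a (nat_lit 0x20203866))
 (c (b (nat_lit 0x1b6e4a8b1fe5)) e
 (c (b (nat_lit 0x1fe239ffffe6)) e
 (c z e
 (c z e
 (c z e
 (c (a (nat_lit 0xc6a30a74009)) e
 (c (a (nat_lit 0x8b7e0000005)) e e)))))))
 (c (a (nat_lit 0x2039ee26))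
 (c (b (nat_lit 0xeaed6dff007)) e e)
 (c z e
 (c z e
 (c (a (nat_lit 0x35402005)) e
 (c (a (nat_lit 0x1480202005)) e
 (c (a (nat_lit 0xc0810821)) e
 (c (a (nat_lit 0xc36001)) e
 (c (a (nat_lit 0x60c16061)) e
 (c (a (nat_lit 0x61614261)) e
 (c (a (nat_lit 0xc0a34281)) e
 (c (a (nat_lit 0xc18001)) e
 (c z e
 (c z e
 (c (b (nat_lit 0x1fe1a18001)) e
 (c (a (nat_lit 0xa0000001)) e e)))))))))))))))))))))
 (c (a (nat_lit 0x202021))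
 (c (a (nat_lit 0x20200001))
 (c (a (nat_lit 0x60a0a0bfc4))
 (c (a (nat_lit 0x1240f7008024)) e e)
 (c z e
 (c z e
 (c (a (nat_lit 0x11b406e20126)) e
 (c (b (nat_lit 0x86262dffc27)) e
 (c z e
 (c z e
 (c z e
 (c (a (nat_lit 0x1c35b3c02048)) e
 (c (a (nat_lit 0x11ee6e404627)) e
 (c (a (nat_lit 0xe0c0b89864)) e
 (c (a (nat_lit 0x1a322600001)) e
 (c (a (nat_lit 0x2000000001)) e e)))))))))))))
 (c (a (nat_lit 0x40404041))
 (c z e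
 (c (a (nat_lit 0x17f083204126))
 (c (a (nat_lit 0x424ddd8a46007)) e
 (c (a (nat_lit 0x5735080000008)) e e))
 (c (b (nat_lit 0x9228ddff267))
 (c (a (nat_lit 0x3ec000000004)) e e)
 (c (b (nat_lit 0xd0f9ff852c7)) e
 (c z e
 (c z e
 (c z e
 (c z e
 (c (a (nat_lit 0x1ed4a7609ae8)) e
 (c (a (nat_lit 0x4d203a6007)) e
 (c (a (nat_lit 0x24320000001)) e e)))))))))))
 (c (nat_lit 1)
 (c (a (nat_lit 0xe0100423de5))
 (c (b (nat_lit 0x1ff84381600006)) e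
 (c (a (nat_lit 0x1ae20000000007)) e e))
 (c (a (nat_lit 0x3a30409d028))
 (c (a (nat_lit 0x17c00000000004)) e e)
 (c z e
 (c z e
 (c z e
 (c z e
 (c z e
 (c (a (nat_lit 0x1665c2a463c8)) e
 (c (a (nat_lit 0x1330a4e00004)) e
 (c (a (nat_lit 0x22000000001)) e e))))))))))
 (c (a (nat_lit 0x20203cc7))
 (c (a (nat_lit 0x730748ba9c6)) e
 (c z e
 (c z e
 (c z e
 (c z e
 (c z e
 (c (a (nat_lit 0x16c9e20da007)) e
 (c (a (nat_lit 0x1507a0000005)) e e))))))))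
 (c (a (nat_lit 0x203cc9a7))
 (c z e
 (c z e
 (c z e
 (c z e
 (c z e
 (c (a (nat_lit 0x140d16000007)) e
 (c (a (nat_lit 0xa0000000001)) e e)))))))
 (c (a (nat_lit 0x1f0ee08a8)) e
 (c z e
 (c (a (nat_lit 0x61a402025)) e
 (c (a (nat_lit 0x1840200005)) e
 (c (a (nat_lit 0x20203424)) e
 (c (a (nat_lit 0x2e264e1)) e
 (c (a (nat_lit 0x3e2814001)) e
 (c (a (nat_lit 0x121610001)) e
 (c (a (nat_lit 0x16240e001)) e
 (c (a (nat_lit 0x20203465)) e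
 (c z e
 (c z e
 (c (a (nat_lit 0x19ea004025)) e
 (c (a (nat_lit 0x1020200004)) e e)))))))))))))))))))
 (c (a (nat_lit 0x202021))
 (c (a (nat_lit 0x20202021))
 (c (a (nat_lit 0x196080202004))
 (c z e
 (c (a (nat_lit 0x21ba8d02a005)) e
 (c (a (nat_lit 0x136e6640000005)) e e)))
 (c (a (nat_lit 0x8e0d3682))
 (c (b (nat_lit 0x1fe9fd65000005)) e
 (c (a (nat_lit 0xd576000000005)) e e))
 (c (a (nat_lit 0xe0e527f9a7)) e
 (c (a (nat_lit 0x56787d170c8)) e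
 (c z e
 (c z e
 (c (a (nat_lit 0xf5403040a68)) e
 (c (a (nat_lit 0x158121c023a8)) e
 (c (a (nat_lit 0x13a84dca5147)) e
 (c (a (nat_lit 0x157580200005)) e
 (c (a (nat_lit 0x8000000001)) e e)))))))))))
 (c (a (nat_lit 0x20003525))
 (c (a (nat_lit 0x181815b86))
 (c (a (nat_lit 0x1dc0820000004)) e
 (c (a (nat_lit 0x11200000000004)) e e))
 (c (a (nat_lit 0x3e4a3d07788)) e
 (c z e
 (c z e
 (c (a (nat_lit 0x11db15cc0ae8)) e
 (c (a (nat_lit 0x1c0803b14568)) e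
 (c (a (nat_lit 0x1f7750921b27)) e
 (c (b (nat_lit 0x1ff298a90006)) e
 (c (a (nat_lit 0x3000000006)) e e)))))))))
 (c (b (nat_lit 0x203c9fe7))
 (c (a (nat_lit 0x1a32e775007)) e
 (c z e
 (c z e
 (c z e
 (c (a (nat_lit 0x82f31887069)) e
 (c (a (nat_lit 0xf2551170b28)) e
 (c (a (nat_lit 0x1818bec00006)) e
 (c (a (nat_lit 0x12000000001)) e e))))))))
 (c (b (nat_lit 0x3379fe128))
 (c z e
 (c z e
 (c z e
 (c z e
 (c z e
 (c (a (nat_lit 0x165880000007)) e e))))))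
 (c z e
 (c (a (nat_lit 0x9dbee6e66))
 (c (b (nat_lit 0x51ff851e048)) e
 (c (a (nat_lit 0x55bb5a34009)) e e))
 (c (a (nat_lit 0x1f40202025))
 (c (a (nat_lit 0x11ecc3800009)) e e)
 (c (a (nat_lit 0x20203505)) e
 (c (a (nat_lit 0x203514e5)) e
 (c (a (nat_lit 0x160c001)) e
 (c (a (nat_lit 0x100e0c001)) e
 (c (a (nat_lit 0x2d8db326)) e
 (c (a (nat_lit 0x6034e005)) e
 (c z e
 (c z e
 (c (b (nat_lit 0x1fe3a20181)) e
 (c (a (nat_lit 0x140604001)) e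
 (c (a (nat_lit 0xe0000001)) e e))))))))))))))))))
 C189)))) Tr.c Tr.e (nat_lit 0) C.cx C.cy
noncomputable def C191 : Tr := beta% (fun (c : Nat → Tr → Tr → Tr) (e : Tr) (z : Nat) (a b : Nat → Nat) =>
 (c (a (nat_lit 0x20202021))
 (c (a (nat_lit 0x2c2d857d347))
 (c (a (nat_lit 0xc4b0fb2181486))
 (c (a (nat_lit 0x14347d1a76553186)) e
 (c z e
 (c z e
 (c z e
 (c (a (nat_lit 0x17ef0f74738c7108)) e
 (c (a (nat_lit 0x10b2361854b30ac7)) e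
 (c (a (nat_lit 0xfae382606000007)) e e)))))))
 (c z e
 (c z e
 (c z e
 (c (a (nat_lit 0xeb1ef43864d08))
 (c (a (nat_lit 0x174c7498ab000008)) e
 (c (a (nat_lit 0x1259aee000000008)) e e))
 (c (a (nat_lit 0x1b51d2075a12e6))
 (c (a (nat_lit 0x19e9e00000000006)) e e)
 (c (a (nat_lit 0xacd6e91ac8cc7)) e
 (c z e
 (c (a (nat_lit 0x5648a0cd84fc7)) e
 (c (a (nat_lit 0x386acf32f2667)) e
 (c (b (nat_lit 0xaa9557fe02867)) e e)))))))))))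
 (c z e
 (c (a (nat_lit 0x12546c22e2e8)) e
 (c (a (nat_lit 0x128020202006)) e
 (c (a (nat_lit 0xa80402035a3))
 (c (b (nat_lit 0x1ff181055c6ac7)) e
 (c (a (nat_lit 0xd46491c9516a8)) e
 (c z e
 (c z e
 (c z e
 (c (a (nat_lit 0x2f62b87e58009)) e
 (c (a (nat_lit 0x11438260000009)) e e)))))))
 (c (b (nat_lit 0x20201fcdfe3))
 (c (b (nat_lit 0x20ac1a3fef06)) e
 (c z e
 (c z e
 (c (a (nat_lit 0x81007872f4709)) e
 (c (a (nat_lit 0xeb34808e00009)) e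
 (c (a (nat_lit 0x15056000000007)) e e))))))
 (c (a (nat_lit 0x183838770ec6))
 (c z e
 (c z e
 (c (a (nat_lit 0x993120d062009)) e
 (c (a (nat_lit 0x1b510a20000008)) e
 (c (a (nat_lit 0x14c00000000007)) e e)))))
 (c z e
 (c (a (nat_lit 0x5859ebf3ea4))
 (c (a (nat_lit 0x11300640000007)) e
 (c (a (nat_lit 0x11800000000006)) e e))
 (c (a (nat_lit 0xe7e8a83586)) e
 (c (a (nat_lit 0x5c56ff2d968)) e
 (c z e
 (c z e
 (c (a (nat_lit 0x959af802467)) e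
 (c (a (nat_lit 0x19af80246467)) e
 (c (a (nat_lit 0x166020202026)) e
 (c (a (nat_lit 0x1c16160e1)) e
 (c (a (nat_lit 0xc0800001)) e
 (c (a (nat_lit 0x2000000001)) e e)))))))))))))))))))
 (c (a (nat_lit 0x20202021))
 (c (a (nat_lit 0x11b26ca2c1e8)) e
 (c (a (nat_lit 0x152402002027)) e
 (c (a (nat_lit 0x1c20a0408a23)) e
 (c (b (nat_lit 0x20591fe5)) e
 (c (b (nat_lit 0x173a1fffffe5)) e
 (c z e
 (c z e
 (c z e
 (c z e
 (c z e
 (c z e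
 (c z e
 (c (a (nat_lit 0x1cfb65406027)) e
 (c (a (nat_lit 0x1b44e0202007)) e
 (c (a (nat_lit 0x13a040404005)) e
 (c (a (nat_lit 0x26321c0e001)) e
 (c (a (nat_lit 0x300e0000001)) e e)))))))))))))))))
 (c (a (nat_lit 0x20202021))
 (c (a (nat_lit 0x1c4120a0bc42))
 (c (a (nat_lit 0x2be0c5a792a6))
 (c (a (nat_lit 0xa49906e729be6a7)) e
 (c (a (nat_lit 0x1234f17f74800008)) e e))
 (c (a (nat_lit 0x4083533427))
 (c (a (nat_lit 0x11ee5d8f40000008)) e e) e))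
 (c (a (nat_lit 0x6040b6c1a4))
 (c (a (nat_lit 0xa282b0ff32027))
 (c (a (nat_lit 0x1334ace000000007)) e e) e)
 (c (a (nat_lit 0x418ef2ec305)) e
 (c z e
 (c z e
 (c z e
 (c z e
 (c z e
 (c z e
 (c z e
 (c z e
 (c z e
 (c (a (nat_lit 0x104300202027)) e
 (c (b (nat_lit 0x177fe0608044)) e
 (c (b (nat_lit 0x1fe1c2000001)) e
 (c (a (nat_lit 0x2000000001)) e e))))))))))))))))
 (c (a (nat_lit 0x20202021))
 (c (a (nat_lit 0x1edf3fdfe0c4))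
 (c (a (nat_lit 0x776d717a05685)) e e)
 (c z e
 (c z e
 (c z e
 (c z e
 (c z e
 (c z e
 (c z e
 (c z e
 (c z e
 (c z e
 (c (a (nat_lit 0x1aaba0c06066)) e
 (c (a (nat_lit 0x1660c0404005)) e
 (c (a (nat_lit 0x921c0000001)) e e))))))))))))))
 (c (a (nat_lit 0x20202021))
 (c (a (nat_lit 0xf2f35f5f8a7))
 (c z e
 (c (a (nat_lit 0x74e31a9ac8b69)) e e))
 (c (a (nat_lit 0xe9251329728))
 (c (a (nat_lit 0xd9acb1e176948)) e e)
 (c z e
 (c z e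
 (c z e
 (c (a (nat_lit 0xab0908a22c9)) e
 (c (a (nat_lit 0xc6fd2a92b69)) e
 (c z e
 (c z e
 (c z e
 (c (a (nat_lit 0xbb6482403e8)) e
 (c (a (nat_lit 0x1ae060200007)) e
 (c (a (nat_lit 0x6000000001)) e e)))))))))))))
 (c (nat_lit 1)
 (c (a (nat_lit 0x666682d7227))
 (c (a (nat_lit 0x6e0756e0684a7)) e e)
 (c z e
 (c z e
 (c (a (nat_lit 0x15defb4fae88)) e
 (c (a (nat_lit 0x10ceeb4989c9)) e
 (c (a (nat_lit 0xba43171dd08)) e
 (c z e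
 (c z e
 (c (b (nat_lit 0x1ff44faa4047)) e
 (c (a (nat_lit 0x12a981e02007)) e
 (c (a (nat_lit 0x1fa080000005)) e e)))))))))))
 (c (a (nat_lit 0x20204061))
 (c z e
 (c z e
 (c (a (nat_lit 0x1dd3a8204467)) e
 (c (a (nat_lit 0xd4a09eb1428)) e
 (c (a (nat_lit 0x92b6c1731a8)) e
 (c z e
 (c z e
 (c (b (nat_lit 0x199fffece045)) e
 (c (a (nat_lit 0xb91eba00006)) e e)))))))))
 (c (a (nat_lit 0x404080e1))
 (c (a (nat_lit 0x1d3385e06006)) e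
 (c (a (nat_lit 0x15880125a007)) e
 (c (a (nat_lit 0x183657115146)) e
 (c (b (nat_lit 0x1229c7bfeb47)) e e))))
 (c (a (nat_lit 0x204041))
 (c (a (nat_lit 0xfcfdcc18045)) e
 (c (a (nat_lit 0x1e1c30105986)) e
 (c (a (nat_lit 0xdae6cfa9407)) e e)))
 (c (a (nat_lit 0x20203b06))
 (c (a (nat_lit 0x2c20122f6e6)) e
 (c (b (nat_lit 0x9d64dfe6)) e e))
 (c (a (nat_lit 0x203c9526))
 (c (b (nat_lit 0x302445ff029)) e e)
 (c (a (nat_lit 0x36130e67)) e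
 (c z e
 (c (a (nat_lit 0x142f49e9e6)) e
 (c (a (nat_lit 0x15c0604024)) e
 (c (a (nat_lit 0x40203723)) e
 (c (a (nat_lit 0xc0a2a001)) e
 (c (a (nat_lit 0x17a0204024)) e
 (c (a (nat_lit 0xe0c261)) e
 (c (a (nat_lit 0xe24221)) e
 (c (a (nat_lit 0x20407645)) e e)))))))))))))))))))))) Tr.c Tr.e (nat_lit 0) C.cx C.cy
noncomputable def C192 : Tr := beta% (fun (c : Nat → Tr → Tr → Tr) (e : Tr) (z : Nat) (a b : Nat → Nat) =>
 (c (nat_lit 1)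
 (c (a (nat_lit 0x1ffe67))
 (c (a (nat_lit 0x70746692a1186))
 (c (a (nat_lit 0x8ca2e7614cdab28))
 (c (a (nat_lit 0x58486f111ad2e0389)) e e)
 (c z e
 (c z e
 (c z e
 (c (a (nat_lit 0x1bdad4757939342a)) e
 (c (a (nat_lit 0x16eb2cb04f6d4929)) e
 (c (a (nat_lit 0xd0ceada02c34008)) e
 (c z e
 (c (a (nat_lit 0x17b6200000000007)) e e)))))))))
 (c z e
 (c z e
 (c z e
 (c (a (nat_lit 0x13f937f1a52a09))
 (c z e
 (c (a (nat_lit 0x194f8beb0000000a)) e e))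
 (c (a (nat_lit 0x1e999171c453c7))
 (c (a (nat_lit 0x1dd0af2000000007)) e e)
 (c (a (nat_lit 0xb6aedd16a4fe7)) e
 (c z e
 (c (a (nat_lit 0x8e8e78bb378a7)) e
 (c (a (nat_lit 0x4224918e8328)) e
 (c (b (nat_lit 0x7ea5573bfe028)) e e)))))))))))
 (c (a (nat_lit 0x3c79b329)) e
 (c z e
 (c (a (nat_lit 0x113189602029)) e
 (c (a (nat_lit 0x146643c3c3a7))
 (c z e
 (c (b (nat_lit 0x1fe649b6c90489)) e
 (c z e
 (c z e
 (c z e
 (c (a (nat_lit 0xaee3b0b6587c9)) e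
 (c (a (nat_lit 0x56e844c00009)) e e)))))))
 (c (a (nat_lit 0x1020c0604ce4))
 (c (a (nat_lit 0xb4db509ebc027)) e
 (c z e
 (c z e
 (c (a (nat_lit 0x56454c8236e09)) e
 (c (a (nat_lit 0xb753caa692009)) e
 (c (a (nat_lit 0x1bd82540000008)) e e))))))
 (c (b (nat_lit 0x120c0bc1fe4))
 (c z e
 (c z e
 (c (a (nat_lit 0x3fa1475a66129)) e
 (c (a (nat_lit 0x186d0b24200009)) e
 (c (a (nat_lit 0x11ebc000000008)) e e)))))
 (c (a (nat_lit 0x167675f54fc7)) e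
 (c (a (nat_lit 0x1e81c281e464))
 (c (b (nat_lit 0x1ffabb68e00007)) e
 (c (a (nat_lit 0x1aafe000000007)) e e))
 (c (a (nat_lit 0x2c2ea0a9587))
 (c (a (nat_lit 0x5600000000001)) e e)
 (c (a (nat_lit 0x6cb92f896a8)) e
 (c z e
 (c z e
 (c z e
 (c (a (nat_lit 0xa902aa02628)) e
 (c (a (nat_lit 0x104ac0264648)) e
 (c (a (nat_lit 0x122020404066)) e
 (c (a (nat_lit 0x2c3826001)) e
 (c (a (nat_lit 0x340000001)) e e)))))))))))))))))))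
 (c (nat_lit 1)
 (c z e
 (c (a (nat_lit 0x1cba89c10028)) e
 (c (a (nat_lit 0x16e782002007)) e
 (c (a (nat_lit 0x1dc0604052c4)) e
 (c (b (nat_lit 0x604056dfe4)) e
 (c z e
 (c z e
 (c (a (nat_lit 0x4a4aaeb1467))
 (c (a (nat_lit 0x206d1e0000007)) e e)
 (c z e
 (c z e
 (c z e
 (c z e
 (c z e
 (c z e
 (c z e
 (c (a (nat_lit 0x11a040202026)) e
 (c (a (nat_lit 0x324e2600001)) e
 (c (a (nat_lit 0x26000000001)) e e))))))))))))))))))
 (c (nat_lit 1)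
 (c (a (nat_lit 0x166460202006))
 (c (a (nat_lit 0x4f6a441818106))
 (c z e
 (c (a (nat_lit 0x16cd49abb335c009)) e e))
 (c (a (nat_lit 0x86ec360603a07))
 (c (a (nat_lit 0xca706d0b1000009)) e e) e))
 (c (a (nat_lit 0x132040202125))
 (c (a (nat_lit 0xe25a0604a9c07))
 (c (a (nat_lit 0xbe04a95e0000007)) e e) e)
 (c (a (nat_lit 0xc0809b24c3)) e
 (c (b (nat_lit 0x1618dfe5e081)) e
 (c z e
 (c z e
 (c (a (nat_lit 0x5c90d32cf68))
 (c (a (nat_lit 0x14524000000008)) e e)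
 (c z e
 (c z e
 (c z e
 (c z e
 (c z e
 (c z e
 (c (a (nat_lit 0x154100204046)) e
 (c (a (nat_lit 0x18c7a441e001)) e
 (c (a (nat_lit 0x26140000001)) e e))))))))))))))))
 (c (nat_lit 1)
 (c (a (nat_lit 0x4020d442c3))
 (c (a (nat_lit 0x148100a0c10024)) e e)
 (c (a (nat_lit 0x107af6163146)) e
 (c z e
 (c z e
 (c z e
 (c z e
 (c z e
 (c z e
 (c (a (nat_lit 0xc88ec8c51e9)) e
 (c z e
 (c z e
 (c z e
 (c (a (nat_lit 0x1800e0202026)) e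
 (c (a (nat_lit 0x17c382400001)) e
 (c (nat_lit 1) e e)))))))))))))))
 (c (a (nat_lit 0x20202021))
 (c z e
 (c (a (nat_lit 0x12d2d6965c88))
 (c (a (nat_lit 0x992ec45e4e7c9)) e e)
 (c z e
 (c z e
 (c z e
 (c (a (nat_lit 0x156d49c2a208)) e
 (c (a (nat_lit 0x1571d1cea768)) e
 (c (b (nat_lit 0xac7583ff428)) e
 (c z e
 (c z e
 (c z e
 (c (a (nat_lit 0x112cc02d2008)) e
 (c (a (nat_lit 0x2c0000001)) e e)))))))))))))
 (c (nat_lit 1)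
 (c (a (nat_lit 0xf310e9792a6))
 (c (a (nat_lit 0x178ae0e1a18327)) e e)
 (c z e
 (c z e
 (c (a (nat_lit 0x1db5f30604c7)) e
 (c (a (nat_lit 0x14af294704e6)) e
 (c (a (nat_lit 0x1996152d8de7)) e
 (c z e
 (c z e
 (c z e
 (c (a (nat_lit 0x1cbf10de367)) e
 (c (a (nat_lit 0x129a6be00007)) e e)))))))))))
 (c (a (nat_lit 0x806060a1))
 (c z e
 (c z e
 (c (a (nat_lit 0x1e77498dab46)) e
 (c (a (nat_lit 0x18aaef4726a6)) e
 (c (a (nat_lit 0x131c9e7931a7)) e e)))))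
 (c (a (nat_lit 0x20000021))
 (c (a (nat_lit 0x132f61e24005)) e
 (c (a (nat_lit 0x118aaae64187)) e
 (c (a (nat_lit 0x1b9a74eb2b06)) e e)))
 (c (a (nat_lit 0x40606021))
 (c (a (nat_lit 0x1979f04180a5)) e
 (c (a (nat_lit 0x1af54201c445)) e
 (c (a (nat_lit 0x1a18618b006)) e
 (c (b (nat_lit 0x746e51ff127)) e e))))
 (c (a (nat_lit 0x2001))
 (c (a (nat_lit 0x4060625106)) e
 (c (a (nat_lit 0xc2c3a2b0a8)) e e))
 (c (a (nat_lit 0x20203de6))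
 (c (b (nat_lit 0xbcb01f25fe6)) e e)
 (c (a (nat_lit 0x1db1c5)) e
 (c z e
 (c z e
 (c (a (nat_lit 0x1ff7f31306)) e
 (c (a (nat_lit 0x1e80602003)) e
 (c (a (nat_lit 0x140004581)) e
 (c (a (nat_lit 0x40648361)) e
 (c (a (nat_lit 0x1626041)) e
 (c (a (nat_lit 0x1412801)) e
 (c (a (nat_lit 0x202056e6)) e
 (c (a (nat_lit 0x368306)) e e))))))))))))))))))))))) Tr.c Tr.e (nat_lit 0) C.cx C.cy
noncomputable def C193 : Tr := beta% (fun (c : Nat → Tr → Tr → Tr) (e : Tr) (z : Nat) (a b : Nat → Nat) =>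
 (c (nat_lit 1)
 (c (nat_lit 1)
 (c (a (nat_lit 0x4040404041))
 (c (a (nat_lit 0x14542f2f4eccc4))
 (c (a (nat_lit 0x2e8a8a8a8b4dbc5))
 (c z e
 (c (a (nat_lit 0x1c16141a363e91249)) e
 (c (a (nat_lit 0x625e64b296c3c5988)) e
 (c (a (nat_lit 0x5a62b67ea301648e8)) e e))))
 (c (a (nat_lit 0xa0e0e0e54df0c8))
 (c (a (nat_lit 0x282628343697a126a)) e e)
 (c (a (nat_lit 0x4a4c6ab0c52caa8)) e
 (c (a (nat_lit 0x8cf36bab8d310c7)) e
 (c z e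
 (c (a (nat_lit 0xe72b18d6b6b0a88)) e
 (c (a (nat_lit 0x10f02c908cac6ac8)) e
 (c (a (nat_lit 0xf0af5e9ece96948)) e
 (c (a (nat_lit 0x1d1f523251b1ed67)) e e)))))))))
 (c (a (nat_lit 0x1c618242a0df44))
 (c (a (nat_lit 0x28284262e52ed69))
 (c (a (nat_lit 0x282a2a245b20f08cb)) e e)
 (c z e
 (c z e
 (c z e
 (c (a (nat_lit 0x19d935d33371b34a)) e
 (c (a (nat_lit 0xf8c108c0b4a8a0a)) e
 (c (a (nat_lit 0x103d6f908b4b0d29)) e
 (c (a (nat_lit 0x1cf290efcfa90008)) e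
 (c (a (nat_lit 0x1491ecad40000007)) e
 (c (a (nat_lit 0x11a1200000000005)) e e))))))))))
 (c (a (nat_lit 0x9ca0b0b315785))
 (c z e
 (c z e
 (c z e
 (c z e
 (c z e
 (c z e
 (c (a (nat_lit 0x16f5f2728aa00008)) e
 (c (a (nat_lit 0x1d6bba2000000006)) e e))))))))
 (c (b (nat_lit 0x17d8af1fffffe5))
 (c z e
 (c z e
 (c z e
 (c z e
 (c z e
 (c (a (nat_lit 0x157337b800000008)) e
 (c (a (nat_lit 0x101a600000000007)) e e)))))))
 (c z e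
 (c (a (nat_lit 0xdd1f0cae1e027)) e
 (c (a (nat_lit 0x16b5cea3803266))
 (c (a (nat_lit 0xd8cd01067600007)) e e)
 (c (a (nat_lit 0x16cf0120325946)) e
 (c (a (nat_lit 0x10b2b272d5b606)) e
 (c (a (nat_lit 0x1a7274605dda6)) e
 (c (a (nat_lit 0xa040404cd287)) e
 (c (a (nat_lit 0x2e3065e9c2a86)) e
 (c (a (nat_lit 0x96a100f8566a8)) e e)))))))))))))
 (c (a (nat_lit 0x2020203088))
 (c (a (nat_lit 0xb6bcc87f845e5))
 (c (a (nat_lit 0x50687eeb5730d49))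
 (c (a (nat_lit 0x564e3c77977af904a)) e e)
 (c z e
 (c z e
 (c z e
 (c (a (nat_lit 0x1674b310f032b28b)) e
 (c (a (nat_lit 0xed32aeb0c0aa9ea)) e
 (c (a (nat_lit 0x1126c76587a4232a)) e
 (c (a (nat_lit 0xfb192b569200008)) e
 (c (a (nat_lit 0x15b6f66000000007)) e e)))))))))
 (c z e
 (c z e
 (c z e
 (c (a (nat_lit 0x1c9c1c17ce8008))
 (c z e
 (c (a (nat_lit 0x12f30f4c0a20000a)) e e))
 (c (a (nat_lit 0x13f7b18035a9c7))
 (c (a (nat_lit 0x13f06e2a60000008)) e e)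
 (c (a (nat_lit 0xbeaeaebd00648)) e
 (c z e
 (c (a (nat_lit 0x444a562eddaa7)) e
 (c (a (nat_lit 0x6040465acec8)) e
 (c (b (nat_lit 0x64a909b133fe8)) e e)))))))))))
 (c (a (nat_lit 0x2020306fc8))
 (c z e
 (c z e
 (c z e
 (c z e
 (c z e
 (c z e
 (c z e
 (c (b (nat_lit 0x5a7ab1d3fffe6)) e e))))))))
 (c (a (nat_lit 0x2038132a28))
 (c z e
 (c z e
 (c z e
 (c z e
 (c z e
 (c z e
 (c (a (nat_lit 0x9733b4f6363a7)) e e)))))))
 (c z e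
 (c (a (nat_lit 0x128ca8a6e6e8))
 (c z e
 (c (a (nat_lit 0xa68a786b5c609)) e
 (c z e
 (c z e
 (c z e
 (c (a (nat_lit 0x180d95070520e8)) e
 (c (a (nat_lit 0x668f5db44c008)) e e)))))))
 (c (a (nat_lit 0x1986c3230306))
 (c (a (nat_lit 0x23aa52032407)) e
 (c z e
 (c z e
 (c (a (nat_lit 0x1e5a673f60208)) e
 (c (a (nat_lit 0x69311e20e028)) e
 (c (a (nat_lit 0x2af101000009)) e e))))))
 (c (a (nat_lit 0x19e120608362))
 (c z e
 (c z e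
 (c (a (nat_lit 0x8a46f3af0c008)) e
 (c (a (nat_lit 0xac894d1808008)) e
 (c (a (nat_lit 0x1310640000009)) e e)))))
 (c (a (nat_lit 0x116fcef76341))
 (c (b (nat_lit 0x6fcffffffe065)) e
 (c (a (nat_lit 0x17d1734b25e027)) e
 (c (a (nat_lit 0x1bac46600007)) e e)))
 (c (a (nat_lit 0xbecf2f0c341))
 (c (a (nat_lit 0x117269a5424007)) e
 (c (a (nat_lit 0x16c48220000008)) e e))
 (c (a (nat_lit 0xd11f3c22762))
 (c (a (nat_lit 0x1c060000000003)) e e)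
 (c (a (nat_lit 0x24a4d027)) e
 (c (a (nat_lit 0xc6cae53f088)) e
 (c z e
 (c z e
 (c (a (nat_lit 0x1590ab410007)) e
 (c (a (nat_lit 0x10ab81202927)) e
 (c (a (nat_lit 0x16e240323206)) e
 (c (a (nat_lit 0x24182e12161)) e
 (c (a (nat_lit 0x320a00001)) e
 (c (nat_lit 1) e e)))))))))))))))))))))
 C192)
 (c (nat_lit 1) C191
 (c (a (nat_lit 0x202021))
 (c (a (nat_lit 0x20202021))
 (c (a (nat_lit 0x132845218185))
 (c (a (nat_lit 0x308bc0404544))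
 (c z e
 (c (a (nat_lit 0x1b7629b16e4e48c7)) e e))
 (c (a (nat_lit 0x4b8040a45386))
 (c (a (nat_lit 0x148c0f8b0f4ab008)) e e)
 (c z e
 (c z e
 (c z e
 (c (a (nat_lit 0x16ee7152540026)) e
 (c (a (nat_lit 0xe3077148d5626)) e
 (c (b (nat_lit 0xe911155bfeca6)) e e))))))))
 (c (a (nat_lit 0x16a080604183))
 (c (a (nat_lit 0x9406021ea3187))
 (c (a (nat_lit 0xdce2990d2508908)) e e)
 (c z e
 (c z e
 (c z e
 (c z e
 (c (b (nat_lit 0xa3053777ff808)) e e))))))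
 (c (a (nat_lit 0x404154e342)) e
 (c (a (nat_lit 0x352aeacac4)) e
 (c z e
 (c (a (nat_lit 0x12d2f4746b65))
 (c z e
 (c (b (nat_lit 0x183fffe7436007)) e e))
 (c (a (nat_lit 0xe6f90505d26))
 (c (b (nat_lit 0x1ff5e800600006)) e e)
 (c z e
 (c z e
 (c z e
 (c z e
 (c (a (nat_lit 0x1375728aa428)) e
 (c (a (nat_lit 0x100a80202027)) e
 (c (a (nat_lit 0x144020202866)) e
 (c (a (nat_lit 0x202050d0a5)) e
 (c (a (nat_lit 0xe161200001)) e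
 (c (a (nat_lit 0x2000000001)) e e)))))))))))))))))
 (c (a (nat_lit 0x20202021))
 (c (a (nat_lit 0x140a24a2381))
 (c (a (nat_lit 0x42728679299c6))
 (c (a (nat_lit 0xc8952bb54c6a007)) e
 (c (a (nat_lit 0x2e9106500000009)) e e))
 (c (a (nat_lit 0x105080cf054a8))
 (c (a (nat_lit 0xe3fa70000000007)) e e) e))
 (c (a (nat_lit 0x197edfbfbd27))
 (c (a (nat_lit 0x5a74cce572bc8)) e e)
 (c z e
 (c z e
 (c z e
 (c z e
 (c z e
 (c z e
 (c z e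
 (c z e
 (c z e
 (c (a (nat_lit 0x1120202025e7)) e
 (c (a (nat_lit 0x40a0d75705)) e
 (c (a (nat_lit 0x161e120c001)) e
 (c (a (nat_lit 0xe0000001)) e e)))))))))))))))
 (c (a (nat_lit 0x40404041))
 (c (a (nat_lit 0x139393b3b0e4))
 (c (a (nat_lit 0x9294998c04fa6)) e e)
 (c z e
 (c z e
 (c z e
 (c z e
 (c z e
 (c z e
 (c z e
 (c z e
 (c z e
 (c (a (nat_lit 0x15816048e8e6)) e
 (c (b (nat_lit 0x1ff9624241e2)) e
 (c (a (nat_lit 0x110201400001)) e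
 (c (nat_lit 1) e e))))))))))))))
 (c (a (nat_lit 0x20202021))
 (c z e
 (c z e
 (c z e
 (c z e
 (c z e
 (c z e
 (c z e
 (c z e
 (c z e
 (c (b (nat_lit 0xbb03fffe027)) e
 (c (b (nat_lit 0x1abfe0e0c006)) e
 (c (a (nat_lit 0x405c0000001)) e e))))))))))))
 (c (a (nat_lit 0x202041))
 (c z e
 (c z e
 (c z e
 (c z e
 (c z e
 (c z e
 (c z e
 (c z e
 (c (a (nat_lit 0x1bbc0808046)) e
 (c (a (nat_lit 0x194383600006)) e
 (c (nat_lit 1) e e)))))))))))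
 (c (a (nat_lit 0x20402001))
 (c z e
 (c (a (nat_lit 0x16ba5520a007)) e
 (c z e
 (c (a (nat_lit 0xaa126919e47)) e
 (c (a (nat_lit 0x9ac565987a8)) e
 (c z e
 (c (a (nat_lit 0x1c39f8260248)) e
 (c (a (nat_lit 0x1166e3e02006)) e
 (c (a (nat_lit 0x1e8200000001)) e e)))))))))
 (c (a (nat_lit 0x8080a0a1))
 (c (a (nat_lit 0x1e77e48341e6)) e
 (c (a (nat_lit 0x1b21c4266886)) e
 (c (a (nat_lit 0x5854b750f88)) e
 (c (a (nat_lit 0x424cd2e1068)) e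
 (c z e
 (c (a (nat_lit 0x108ef405aa08)) e
 (c (b (nat_lit 0x1ff620a00005)) e e)))))))
 (c (a (nat_lit 0x20203a06))
 (c (b (nat_lit 0x1538568b9fe6)) e e)
 (c (a (nat_lit 0x203af466))
 (c (a (nat_lit 0x121f18e29e7)) e
 (c (a (nat_lit 0xce168bffc8)) e e))
 (c (a (nat_lit 0x4b2f3efe8))
 (c (a (nat_lit 0x409ec13aee9)) e e)
 (c z e
 (c (a (nat_lit 0x1fbe476005)) e
 (c (a (nat_lit 0x1260202005)) e
 (c (a (nat_lit 0xa0a08041)) e
 (c (a (nat_lit 0x10101a001)) e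
 (c (a (nat_lit 0x12080e001)) e
 (c (a (nat_lit 0xe120e1)) e
 (c (a (nat_lit 0x1818140a1)) e
 (c (a (nat_lit 0x202031a5)) e e)))))))))))))))))))
 C190)))) Tr.c Tr.e (nat_lit 0) C.cx C.cy
noncomputable def C194 : Tr := beta% (fun (c : Nat → Tr → Tr → Tr) (e : Tr) (z : Nat) (a b : Nat → Nat) =>
 (c (a (nat_lit 0x20202021))
 (c (a (nat_lit 0x203b9bb5e7))
 (c z e
 (c z e
 (c z e
 (c z e
 (c z e
 (c z e
 (c (a (nat_lit 0x48d32d885a6c6)) e e)))))))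
 (c z e
 (c (a (nat_lit 0x1738f0e5a408)) e
 (c (a (nat_lit 0x150ce6602026)) e
 (c (a (nat_lit 0x1ee080404083)) e
 (c (a (nat_lit 0x18d83838e322))
 (c z e
 (c z e
 (c z e
 (c z e
 (c (a (nat_lit 0x9a8000000004)) e e)))))
 (c (a (nat_lit 0x155555b2f184)) e
 (c (a (nat_lit 0xf73f3f3ec66))
 (c (a (nat_lit 0x1542e6a6600008)) e e)
 (c (b (nat_lit 0x465133fed46)) e
 (c (a (nat_lit 0x7d0d6965b47)) e
 (c z e
 (c z e
 (c z e
 (c z e
 (c z e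
 (c (a (nat_lit 0x19ce4421a1a6)) e
 (c (a (nat_lit 0x196520202005)) e
 (c (a (nat_lit 0x120040000003)) e e))))))))))))))))))
 (c (a (nat_lit 0x20202021))
 (c (a (nat_lit 0xff1a74564a7))
 (c z e
 (c (a (nat_lit 0xbfb86008026))
 (c (a (nat_lit 0x1850cbce3211e008)) e e) e))
 (c (a (nat_lit 0x16e822c02026))
 (c (b (nat_lit 0x1ff60560404fc7))
 (c (a (nat_lit 0x14af4b1050e00007)) e e) e)
 (c (a (nat_lit 0x190060204164)) e
 (c (b (nat_lit 0x321a218bfe1))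
 (c (a (nat_lit 0x46464c734ce88)) e
 (c (a (nat_lit 0x812616ae6be8)) e e))
 (c (a (nat_lit 0x1a9a7e074222))
 (c (a (nat_lit 0x4f6a90a2067)) e e)
 (c z e
 (c (a (nat_lit 0xd4d53936f07))
 (c (a (nat_lit 0x1a70e820000008)) e e)
 (c z e
 (c z e
 (c z e
 (c z e
 (c (a (nat_lit 0x24320d269e6)) e
 (c (a (nat_lit 0x207321e005)) e
 (c z e
 (c (a (nat_lit 0x13e420202025)) e
 (c (a (nat_lit 0x102060400003)) e
 (c (a (nat_lit 0x12000000001)) e e)))))))))))))))))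
 (c (a (nat_lit 0x20202021))
 (c (a (nat_lit 0x19c080604003))
 (c (a (nat_lit 0x13454020206c86)) e e)
 (c (a (nat_lit 0x804093a1e3)) e
 (c (a (nat_lit 0x16367734e004))
 (c (a (nat_lit 0x1105abe80c066)) e
 (c (a (nat_lit 0x76c71cd026068)) e e))
 (c (a (nat_lit 0x11b010100b66))
 (c (b (nat_lit 0xd745fe9c56367)) e e)
 (c z e
 (c z e
 (c z e
 (c z e
 (c (a (nat_lit 0x189da560c3c5)) e
 (c (a (nat_lit 0x3a0a6871148)) e
 (c (a (nat_lit 0x1a080348627)) e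
 (c (a (nat_lit 0x3a39829c6e7)) e
 (c (a (nat_lit 0x9546c3e3e7)) e
 (c (a (nat_lit 0x1162e0202007)) e
 (c (a (nat_lit 0x162040000004)) e e)))))))))))))))
 (c (a (nat_lit 0x20202021))
 (c (a (nat_lit 0xaf02d8d8d66))
 (c z e
 (c (a (nat_lit 0xc2bf00ae6e028)) e
 (c (b (nat_lit 0x60caed310ffe7)) e e)))
 (c (a (nat_lit 0x1251f1f1f147))
 (c (a (nat_lit 0x157a149b02aa47)) e
 (c (a (nat_lit 0xacf34afe4ca48)) e e))
 (c (a (nat_lit 0x343525254c6))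
 (c (b (nat_lit 0x8c5f27fe6dfe7)) e e)
 (c z e
 (c z e
 (c z e
 (c (a (nat_lit 0x1f030544a205)) e
 (c (a (nat_lit 0x1616b6960b07)) e
 (c (b (nat_lit 0xb2b3c1ff7e7)) e
 (c (a (nat_lit 0x104f003852a6)) e
 (c z e
 (c z e
 (c (a (nat_lit 0x3c0e00001)) e e)))))))))))))
 (c (a (nat_lit 0x20000001))
 (c (a (nat_lit 0x127278d2c264))
 (c (a (nat_lit 0x5f424a04080c6)) e
 (c (a (nat_lit 0x14c7e302e16467)) e e))
 (c (a (nat_lit 0x1093aeccefa6))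
 (c (a (nat_lit 0x1484c1c422c286)) e e)
 (c z e
 (c z e
 (c (a (nat_lit 0x9686e967184)) e
 (c (a (nat_lit 0x1677fa7907c6)) e
 (c (a (nat_lit 0x183a18e980c6)) e
 (c (a (nat_lit 0x3026c6dd2e7)) e
 (c (a (nat_lit 0x1114611fffa5)) e
 (c (a (nat_lit 0xc63726f31a6)) e e))))))))))
 (c (a (nat_lit 0x20202021))
 (c (a (nat_lit 0xd901f127404))
 (c (a (nat_lit 0x11e5c706086004)) e e)
 (c z e
 (c (a (nat_lit 0x1a680f2e7044)) e
 (c (b (nat_lit 0x1fe8c878a003)) e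
 (c (a (nat_lit 0x1817f8614226)) e
 (c (a (nat_lit 0xa9615f7f3c5)) e
 (c (a (nat_lit 0xc37e9c5b26)) e
 (c (a (nat_lit 0xa0b23a63426)) e
 (c (a (nat_lit 0x11ea309e7086)) e e)))))))))
 (c (a (nat_lit 0x20202021))
 (c (a (nat_lit 0x15ce36b6d444)) e
 (c (a (nat_lit 0x7d898bfa184)) e
 (c (a (nat_lit 0x1191906947c6)) e
 (c (a (nat_lit 0x1b100ae60624)) e
 (c z e
 (c (a (nat_lit 0x505ae2b70e8)) e
 (c (a (nat_lit 0x866642f5327)) e e)))))))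
 (c (a (nat_lit 0x202001))
 (c (a (nat_lit 0x13b3b2610065)) e
 (c (a (nat_lit 0x1832c080e105)) e
 (c (a (nat_lit 0x1a282f26926)) e
 (c (a (nat_lit 0x1898f8d21246)) e e))))
 (c (a (nat_lit 0x20404021))
 (c (a (nat_lit 0x6412080b283)) e
 (c (a (nat_lit 0x12d415afdf65)) e e))
 (c (a (nat_lit 0x20202001))
 (c (a (nat_lit 0x7a040c190a6)) e
 (c z e
 (c z e
 (c (a (nat_lit 0xbfb80400006)) e
 (c (a (nat_lit 0x152000000005)) e e)))))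
 (c (a (nat_lit 0x20201ee4))
 (c z e
 (c (a (nat_lit 0x5803d864006)) e
 (c (a (nat_lit 0xfd6a0000005)) e e)))
 (c (a (nat_lit 0x806128c1))
 (c (a (nat_lit 0x148046c00004)) e
 (c (a (nat_lit 0x146000000003)) e e))
 (c (a (nat_lit 0xb50f7f546)) e
 (c (a (nat_lit 0x10d7b530a6)) e
 (c (a (nat_lit 0x124fae4ba6)) e
 (c (a (nat_lit 0x1760602002)) e
 (c (a (nat_lit 0x1006060c1)) e
 (c (a (nat_lit 0x120e14001)) e
 (c (a (nat_lit 0xa0080e001)) e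
 (c (a (nat_lit 0xe0e001)) e
 (c (b (nat_lit 0x2120bfe1)) e
 (c (b (nat_lit 0x1e19fffe1)) e e))))))))))))))))))))))) Tr.c Tr.e (nat_lit 0) C.cx C.cy
noncomputable def C195 : Tr := beta% (fun (c : Nat → Tr → Tr → Tr) (e : Tr) (z : Nat) (a b : Nat → Nat) =>
 (c (nat_lit 1)
 (c (a (nat_lit 0x2020202021))
 (c (a (nat_lit 0x15d5d5cbcbeb44))
 (c (a (nat_lit 0x265672747489147))
 (c z e
 (c (a (nat_lit 0x4c442c285684e7969)) e
 (c (a (nat_lit 0x5c5a5078a8bcf7fa9)) e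
 (c (a (nat_lit 0x48446cb29aaef9549)) e e))))
 (c (a (nat_lit 0x22024243693189))
 (c (a (nat_lit 0x220e0c161e428b3eb)) e e)
 (c (a (nat_lit 0x104c70970b5d908)) e
 (c (a (nat_lit 0x1e58d153830efc8)) e
 (c z e
 (c z e
 (c (a (nat_lit 0xed1ae2c73cc2a89)) e
 (c (a (nat_lit 0x112f6cb8ab4bcb29)) e
 (c (a (nat_lit 0xb8b140826e7cae9)) e
 (c (a (nat_lit 0x100d91ec0aaa2008)) e e))))))))))
 (c (a (nat_lit 0x1efef6b6d12b26))
 (c (a (nat_lit 0x41024348f59629))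
 (c (a (nat_lit 0x10121414326748e2b)) e e)
 (c z e
 (c z e
 (c z e
 (c z e
 (c (a (nat_lit 0x17b4325ad2ed4faa)) e
 (c (a (nat_lit 0x12ef3cb0adab6c4a)) e
 (c z e
 (c (a (nat_lit 0x791e86705e00009)) e
 (c (a (nat_lit 0x1063208000000008)) e e))))))))))
 (c (a (nat_lit 0x146c8ccce5b1c6))
 (c z e
 (c z e
 (c z e
 (c z e
 (c z e
 (c z e
 (c z e
 (c (a (nat_lit 0x1167a3a6e0000009)) e e))))))))
 (c (a (nat_lit 0x18d919d4d90a66))
 (c z e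
 (c z e
 (c z e
 (c z e
 (c z e
 (c z e
 (c (a (nat_lit 0x102bcda000000009)) e e)))))))
 (c z e
 (c z e
 (c (a (nat_lit 0xb334f09a16007)) e
 (c (a (nat_lit 0x140e88c02050e7)) e
 (c (a (nat_lit 0xf2a2841110f67)) e
 (c (a (nat_lit 0xa5051106fd6c7)) e
 (c (a (nat_lit 0x40a160a79727)) e
 (c (a (nat_lit 0x300e10916ed47)) e
 (c (a (nat_lit 0xa2b2e95108028)) e e)))))))))))))
 (c (nat_lit 1)
 (c (a (nat_lit 0x14c62646642666))
 (c (a (nat_lit 0x142e5ac75be1be8))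
 (c (a (nat_lit 0x221e182a5b0ed6b2a)) e e)
 (c z e
 (c z e
 (c z e
 (c z e
 (c (a (nat_lit 0xfcff54c0acd88ca)) e
 (c (a (nat_lit 0xe950bc8a8e9444a)) e
 (c z e
 (c (a (nat_lit 0x146c8bc6c0000007)) e e)))))))))
 (c z e
 (c z e
 (c z e
 (c z e
 (c (a (nat_lit 0x13947e54009967)) e
 (c (a (nat_lit 0x155d56427b5ba7)) e
 (c z e
 (c (a (nat_lit 0x20e1a2c89627)) e
 (c (a (nat_lit 0x2060a44d3788)) e
 (c (a (nat_lit 0x545d07bdf41a7)) e e)))))))))))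
 (c (a (nat_lit 0x10a8))
 (c z e
 (c z e
 (c z e
 (c z e
 (c z e
 (c z e
 (c z e
 (c (a (nat_lit 0x4c8c3e1c2006)) e e))))))))
 (c (a (nat_lit 0x2020326f28))
 (c z e
 (c z e
 (c z e
 (c z e
 (c z e
 (c (a (nat_lit 0x116d4e5c0d51e7)) e
 (c (a (nat_lit 0x6ca70f103e048)) e e)))))))
 (c (a (nat_lit 0x19b54cc8)) e
 (c z e
 (c (a (nat_lit 0x18fbd00b49e7))
 (c z e
 (c z e
 (c z e
 (c z e
 (c (a (nat_lit 0xec66ab2374488)) e
 (c (b (nat_lit 0x1ffff772a12008)) e e))))))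
 (c (a (nat_lit 0x1744e2c02006))
 (c z e
 (c z e
 (c z e
 (c (a (nat_lit 0x7c7b989ae4228)) e
 (c (a (nat_lit 0x6f6eca00008)) e e)))))
 (c (a (nat_lit 0x1e41a0604482))
 (c z e
 (c (b (nat_lit 0x4aa731e5fe0c7)) e
 (c (a (nat_lit 0x10a668a5e30008)) e e)))
 (c (a (nat_lit 0x240a167c3c1))
 (c (a (nat_lit 0x4c45107c08028)) e
 (c (a (nat_lit 0x55889e0a00008)) e e))
 (c (a (nat_lit 0x12729756c122))
 (c (a (nat_lit 0x2f5e0e0000006)) e e)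
 (c (a (nat_lit 0x51656b63244)) e
 (c (a (nat_lit 0x6e707e85b66)) e
 (c z e
 (c z e
 (c z e
 (c (a (nat_lit 0x124a67204007)) e
 (c (a (nat_lit 0x14ce20602de6)) e
 (c (a (nat_lit 0x1cfc807c9c85)) e
 (c (a (nat_lit 0x16381814001)) e
 (c (a (nat_lit 0x80000001)) e e)))))))))))))))))))))
 (c (a (nat_lit 0x20202021))
 (c (a (nat_lit 0x1047))
 (c (a (nat_lit 0x969914cec79c5))
 (c (a (nat_lit 0x4044968f1f22727)) e
 (c z e
 (c z e
 (c z e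
 (c z e
 (c (a (nat_lit 0x1abcefd5b75052c8)) e
 (c (a (nat_lit 0xecf2cad51c38508)) e
 (c (a (nat_lit 0xbd2b34e4c400007)) e
 (c (a (nat_lit 0x1bd9e88000000005)) e e)))))))))
 (c z e
 (c z e
 (c z e
 (c z e
 (c (a (nat_lit 0x8172ec0ea42c7)) e
 (c (a (nat_lit 0x172d89eaabefc7)) e
 (c z e
 (c (a (nat_lit 0x8346a4ba2046)) e
 (c (a (nat_lit 0xa3253b377126)) e
 (c (a (nat_lit 0x4c5302b038027)) e e)))))))))))
 (c (a (nat_lit 0x202031eea8)) e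
 (c (a (nat_lit 0x203b97cf48)) e
 (c (a (nat_lit 0x39db7306a8)) e
 (c (b (nat_lit 0x1a3a9fe2e187)) e
 (c (a (nat_lit 0x1484c2c02006))
 (c z e
 (c z e
 (c z e
 (c z e
 (c (a (nat_lit 0x7ed49f24707a9)) e
 (c (a (nat_lit 0x117998ca400007)) e e))))))
 (c (a (nat_lit 0x880a0205783))
 (c z e
 (c z e
 (c z e
 (c (a (nat_lit 0x5d3cc28c2e009)) e
 (c (a (nat_lit 0x191ee6e0000007)) e e)))))
 (c (b (nat_lit 0xa0405c7fe3))
 (c z e
 (c z e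
 (c (a (nat_lit 0x168891a9000007)) e
 (c (a (nat_lit 0x16c80000000004)) e e))))
 (c (a (nat_lit 0x1718385810c6))
 (c (a (nat_lit 0x10ed7d54c4c007)) e
 (c (a (nat_lit 0x13b6a940000008)) e e))
 (c (a (nat_lit 0x1084c4e2a3c5))
 (c (a (nat_lit 0x1d864000000005)) e e)
 (c (a (nat_lit 0x202345652e6)) e
 (c z e
 (c z e
 (c z e
 (c z e
 (c (a (nat_lit 0x9b76dc08467)) e
 (c (a (nat_lit 0x172d80246487)) e
 (c (a (nat_lit 0x14a342024226)) e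
 (c (a (nat_lit 0x11e101000002)) e
 (c (a (nat_lit 0x2000000001)) e e))))))))))))))))))))
 C194))) Tr.c Tr.e (nat_lit 0) C.cx C.cy
noncomputable def C196 : Tr := beta% (fun (c : Nat → Tr → Tr → Tr) (e : Tr) (z : Nat) (a b : Nat → Nat) =>
 (c (a (nat_lit 0x20202001))
 (c (a (nat_lit 0x134a2a0a002024))
 (c (a (nat_lit 0x7a4af309132b9a6))
 (c z e
 (c (a (nat_lit 0x10edce4a2bcff2de49)) e
 (c z e
 (c (a (nat_lit 0x18364e92c6b49d149)) e e))))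
 (c (a (nat_lit 0x5870888e90af2a9))
 (c (a (nat_lit 0x687c3e4c566ee132a)) e e)
 (c (a (nat_lit 0xa0442488f13408)) e
 (c (a (nat_lit 0x141256bb414ab28)) e
 (c z e
 (c z e
 (c z e
 (c (a (nat_lit 0xc0caa0874c72689)) e
 (c (a (nat_lit 0xae928d547044909)) e
 (c (a (nat_lit 0x12b16df84cf10c88)) e
 (c (a (nat_lit 0x13070929a9400007)) e e)))))))))))
 (c (a (nat_lit 0x12d2b2abc86025))
 (c (a (nat_lit 0x436464e7f6fce8))
 (c (a (nat_lit 0x2a0e160814528946a)) e e)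
 (c z e
 (c z e
 (c z e
 (c z e
 (c z e
 (c z e
 (c z e
 (c (a (nat_lit 0x13e6b8084ac42008)) e
 (c (a (nat_lit 0x8b446a780000007)) e e))))))))))
 (c (a (nat_lit 0x159590908fc806))
 (c z e
 (c z e
 (c z e
 (c z e
 (c z e
 (c z e
 (c z e
 (c (b (nat_lit 0x1ffa6b8c09200008)) e e))))))))
 (c z e
 (c z e
 (c z e
 (c z e
 (c z e
 (c (a (nat_lit 0x122c674020d146)) e
 (c (a (nat_lit 0xde8d1a2b27466)) e
 (c (a (nat_lit 0x3e8492909f107)) e e)))))))))))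
 (c (a (nat_lit 0x20202001))
 (c (a (nat_lit 0x1a9a95554e6b05))
 (c (a (nat_lit 0x2e405a6706e14a7)) e
 (c z e
 (c z e
 (c z e
 (c z e
 (c z e
 (c z e
 (c z e
 (c (a (nat_lit 0xd359f1a4000006)) e
 (c (a (nat_lit 0xe30a4e000000006)) e e))))))))))
 (c z e
 (c z e
 (c z e
 (c z e
 (c z e
 (c z e
 (c z e
 (c (a (nat_lit 0x18122f4df1b126)) e
 (c (a (nat_lit 0x3a060e384fb46)) e
 (c (a (nat_lit 0x5872a0cd868a6)) e
 (c (a (nat_lit 0xaacae174f2007)) e e))))))))))))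
 (c (a (nat_lit 0x20202001))
 (c z e
 (c z e
 (c z e
 (c z e
 (c z e
 (c z e
 (c z e
 (c (a (nat_lit 0x143519bb7f4885)) e
 (c (a (nat_lit 0x90e8f95539e65)) e
 (c (a (nat_lit 0x107317af8ea7e6)) e e))))))))))
 (c (a (nat_lit 0x2020203686))
 (c z e
 (c z e
 (c z e
 (c (b (nat_lit 0x6eb4dd2949fe6))
 (c (a (nat_lit 0x125459d1a0000007)) e
 (c (a (nat_lit 0x102c000000000007)) e e))
 (c (a (nat_lit 0x96bb070728006)) e
 (c z e
 (c (a (nat_lit 0xe8d8db0cee006)) e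
 (c z e
 (c z e
 (c z e
 (c z e
 (c (a (nat_lit 0x174ccc80000006)) e e))))))))))))
 (c (a (nat_lit 0x203db3c6))
 (c (a (nat_lit 0x627c3a42255c7))
 (c (a (nat_lit 0x1efb9d378f70cc87)) e e)
 (c (a (nat_lit 0x1e2b330df3e485))
 (c z e
 (c (a (nat_lit 0xfb3afcee0000008)) e e))
 (c (a (nat_lit 0x223c412e8c007))
 (c (a (nat_lit 0x19ef8e0000000007)) e e)
 (c (b (nat_lit 0x102914affe4c7)) e
 (c z e
 (c z e
 (c z e
 (c z e
 (c z e
 (c (a (nat_lit 0xb8a591a400005)) e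
 (c (a (nat_lit 0x1067a000000006)) e e)))))))))))
 (c (a (nat_lit 0x3e3f44a67a7))
 (c (a (nat_lit 0x1abbdd333a1586))
 (c z e
 (c (a (nat_lit 0x114fed2000000008)) e e))
 (c (a (nat_lit 0x18f8f257159827))
 (c (a (nat_lit 0x1b8e400000000007)) e e)
 (c z e
 (c z e
 (c z e
 (c z e
 (c z e
 (c z e
 (c (a (nat_lit 0x3f5dd00000006)) e
 (c (a (nat_lit 0x11800000000006)) e e))))))))))
 (c (a (nat_lit 0xa71bb741026))
 (c (a (nat_lit 0x10b3ab536c8fe6)) e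
 (c (a (nat_lit 0x173131d1d5d806)) e
 (c z e
 (c z e
 (c z e
 (c (a (nat_lit 0x268950c70227)) e
 (c (a (nat_lit 0x1fb0a4000006)) e e)))))))
 (c (a (nat_lit 0x973ab47c526))
 (c (a (nat_lit 0x15a65493f4c9a5)) e
 (c z e
 (c z e
 (c z e
 (c (a (nat_lit 0x424736d038007)) e
 (c (a (nat_lit 0xc9241c0000007)) e e))))))
 (c (a (nat_lit 0x112826612125))
 (c z e
 (c z e
 (c (a (nat_lit 0x8cb1b4da56227)) e e)))
 (c (a (nat_lit 0x1aa160a0c1a1))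
 (c (a (nat_lit 0x522631cab6086)) e
 (c (a (nat_lit 0x508952e804007)) e
 (c (a (nat_lit 0x71f27a0000006)) e e)))
 (c (a (nat_lit 0x181010221a1))
 (c (b (nat_lit 0x31ff820200005)) e
 (c (a (nat_lit 0x17d80000000005)) e e))
 (c (b (nat_lit 0x3e41bdff682)) e
 (c (a (nat_lit 0xc3252527164)) e
 (c (a (nat_lit 0x80815d7d345)) e
 (c (a (nat_lit 0x11724fef0ec5)) e
 (c (a (nat_lit 0x10300cecca85)) e
 (c z e
 (c (a (nat_lit 0x40060a06041)) e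
 (c (a (nat_lit 0x40205143)) e
 (c (a (nat_lit 0x7180517163)) e
 (c (a (nat_lit 0x6060400001)) e
 (c (a (nat_lit 0x2000000001)) e e))))))))))))))))))))))) Tr.c Tr.e (nat_lit 0) C.cx C.cy
noncomputable def C197 : Tr := beta% (fun (c : Nat → Tr → Tr → Tr) (e : Tr) (z : Nat) (a b : Nat → Nat) =>
 (c (a (nat_lit 0x202021))
 (c (a (nat_lit 0x20203524))
 (c (a (nat_lit 0xa0a02036c3)) e
 (c (a (nat_lit 0x20202397a7)) e
 (c (a (nat_lit 0x5eacefa1527)) e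
 (c z e
 (c z e
 (c (a (nat_lit 0x1e2620706007)) e
 (c (a (nat_lit 0x14a0e9190707)) e
 (c (a (nat_lit 0x6e9b8828005)) e
 (c (a (nat_lit 0x134a80000004)) e e)))))))))
 (c (a (nat_lit 0x186466))
 (c (a (nat_lit 0x1e728909627)) e
 (c z e
 (c z e
 (c z e
 (c (a (nat_lit 0xacdad43b0e9)) e
 (c (a (nat_lit 0xd47762738e8)) e
 (c (a (nat_lit 0x8d3af200007)) e
 (c (a (nat_lit 0x1f2000000003)) e e))))))))
 (c (a (nat_lit 0x8d94ccaa7)) e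
 (c z e
 (c (a (nat_lit 0xcde6bcbc6))
 (c (a (nat_lit 0xd0f9a1b83c8)) e
 (c (a (nat_lit 0x4757c842009)) e e))
 (c (a (nat_lit 0x14a0202026))
 (c (a (nat_lit 0x18b865c00008)) e e)
 (c (a (nat_lit 0x2030fb66)) e
 (c (a (nat_lit 0x207f95e3)) e
 (c (a (nat_lit 0x195154b23)) e
 (c (a (nat_lit 0x7d4204082)) e
 (c (a (nat_lit 0x220f361)) e
 (c z e
 (c z e
 (c (b (nat_lit 0x1fe2220261)) e
 (c (a (nat_lit 0x404001)) e
 (c (a (nat_lit 0x20e04001)) e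
 (c (a (nat_lit 0xa0000001)) e e)))))))))))))))))
 (c (nat_lit 1)
 (c (a (nat_lit 0x5d6f5e726))
 (c (a (nat_lit 0x8cf4f53ad87)) e
 (c z e
 (c z e
 (c z e
 (c (a (nat_lit 0x8e4e02810c9)) e
 (c (a (nat_lit 0xd166cd8c007)) e
 (c (a (nat_lit 0x18fd00000006)) e e)))))))
 (c z e
 (c (a (nat_lit 0x12402025)) e
 (c (a (nat_lit 0x1460202005))
 (c (a (nat_lit 0x2e435a12029)) e
 (c (a (nat_lit 0x771a1c0000a)) e e))
 (c (a (nat_lit 0x20203505))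
 (c (a (nat_lit 0x1c22a0000008)) e e)
 (c (a (nat_lit 0x20350fa5)) e
 (c (a (nat_lit 0x3595bc85)) e
 (c (a (nat_lit 0x180e18121)) e
 (c (b (nat_lit 0x9fa825fe4)) e
 (c z e
 (c z e
 (c (b (nat_lit 0x1fe181a1e1)) e
 (c (a (nat_lit 0x610001)) e
 (c (a (nat_lit 0xa1602001)) e
 (c (a (nat_lit 0x180400001)) e e)))))))))))))))
 (c (nat_lit 1)
 (c (a (nat_lit 0xc544ecea6))
 (c (a (nat_lit 0xff06fceb387)) e e)
 (c (a (nat_lit 0x14a0202005)) e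
 (c (a (nat_lit 0x20219665))
 (c (a (nat_lit 0x89dc8418008)) e
 (c (a (nat_lit 0x10834000000a)) e e))
 (c (a (nat_lit 0x20553285))
 (c (a (nat_lit 0x144000000006)) e e)
 (c (a (nat_lit 0xa11f5a7)) e
 (c (a (nat_lit 0xc727fbfa7)) e
 (c (a (nat_lit 0x6bbd4b3c6)) e
 (c z e
 (c z e
 (c (b (nat_lit 0x1fe2028221)) e
 (c (a (nat_lit 0x2226001)) e
 (c (a (nat_lit 0x1ba0404002)) e
 (c (a (nat_lit 0x160a04001)) e
 (c (a (nat_lit 0x20000001)) e e))))))))))))))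
 (c (a (nat_lit 0x2021))
 (c (a (nat_lit 0x205b24))
 (c (a (nat_lit 0xa5b68e7a387)) e
 (c (a (nat_lit 0x14d10460a009)) e e))
 (c (a (nat_lit 0x224720e1))
 (c (a (nat_lit 0x152421000009)) e
 (c (a (nat_lit 0x128000000007)) e e))
 (c (a (nat_lit 0x30d0d826)) e
 (c z e
 (c z e
 (c z e
 (c z e
 (c (b (nat_lit 0x1fe5222001)) e
 (c (a (nat_lit 0x1c7c1e78c4)) e
 (c (a (nat_lit 0x28161a101)) e
 (c (a (nat_lit 0x40e11ba1)) e
 (c (a (nat_lit 0xa00001)) e e))))))))))))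
 (c (a (nat_lit 0x202021))
 (c (a (nat_lit 0x31719ec3))
 (c (a (nat_lit 0x10c560000005)) e e)
 (c (a (nat_lit 0x454fcbc86)) e
 (c z e
 (c z e
 (c z e
 (c (b (nat_lit 0x1fe5a0c041)) e
 (c (a (nat_lit 0x34350e0c4)) e
 (c (a (nat_lit 0xc0404001)) e
 (c (a (nat_lit 0x5e30267a1)) e
 (c (a (nat_lit 0xa06001)) e
 (c (a (nat_lit 0x20000001)) e e)))))))))))
 (c (a (nat_lit 0x200001))
 (c (a (nat_lit 0x111332ef47)) e
 (c z e
 (c z e
 (c (a (nat_lit 0x381e001)) e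
 (c (a (nat_lit 0x13f3d999a6)) e
 (c (a (nat_lit 0x81a5c1)) e
 (c (a (nat_lit 0xc3c561)) e
 (c (a (nat_lit 0x1451481)) e
 (c (a (nat_lit 0x400001)) e e)))))))))
 (c (a (nat_lit 0x202021))
 (c z e
 (c (b (nat_lit 0x1fe24141c1)) e
 (c (a (nat_lit 0x1a1a1a0026)) e
 (c (a (nat_lit 0x1a0c02001)) e
 (c (a (nat_lit 0x60002001)) e
 (c (a (nat_lit 0x408182c1)) e
 (c (a (nat_lit 0x340002001)) e
 (c (a (nat_lit 0x80000001)) e e))))))))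
 (c (a (nat_lit 0x202021))
 (c (a (nat_lit 0x60c16001)) e
 (c (a (nat_lit 0x80c12001)) e
 (c (a (nat_lit 0x40412161)) e
 (c (a (nat_lit 0xa04001)) e
 (c (a (nat_lit 0x420804021)) e
 (c (a (nat_lit 0x240600001)) e e))))))
 (c (a (nat_lit 0x202021))
 (c (a (nat_lit 0x202021)) e
 (c (a (nat_lit 0x20202021)) e
 (c (a (nat_lit 0x20202021)) e
 (c (a (nat_lit 0x20202001)) e
 (c (a (nat_lit 0x20000001)) e e)))))
 (c (a (nat_lit 0x202021))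
 (c (a (nat_lit 0x20202021)) e
 (c (a (nat_lit 0x20202021)) e
 (c (a (nat_lit 0x20200001)) e e)))
 (c (a (nat_lit 0x202021))
 (c (a (nat_lit 0x20202001)) e
 (c (a (nat_lit 0x20000001)) e e))
 (c (a (nat_lit 0x202021)) e
 (c (a (nat_lit 0x202021)) e
 (c (a (nat_lit 0x202021)) e
 (c (a (nat_lit 0x202021)) e
 (c (a (nat_lit 0x202021)) e
 (c (nat_lit 1) e
 (c (b (nat_lit 0x7fe1)) e
 (c (b (nat_lit 0x1ff365)) e
 (c z e
 (c (a (nat_lit 0x13402005)) e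
 (c (a (nat_lit 0x800001)) e
 (c (a (nat_lit 0x806001)) e
 (c (a (nat_lit 0xc04001)) e e))))))))))))))))))))))))) Tr.c Tr.e (nat_lit 0) C.cx C.cy
noncomputable def C198 : Tr := beta% (fun (c : Nat → Tr → Tr → Tr) (e : Tr) (z : Nat) (a b : Nat → Nat) =>
 (c (a (nat_lit 0x202021))
 (c (a (nat_lit 0x40402021))
 (c (a (nat_lit 0xc0e141e1c1))
 (c (a (nat_lit 0xa802165d4b4e4)) e
 (c (a (nat_lit 0x1a60a0ff5f5c6))
 (c (a (nat_lit 0x14c1844000000007)) e e)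
 (c z e
 (c z e
 (c z e
 (c (b (nat_lit 0x16b81fea347b47)) e
 (c z e
 (c (a (nat_lit 0x4279325c00008)) e
 (c (a (nat_lit 0x14512000000007)) e e)))))))))
 (c (a (nat_lit 0x1a9afb3b00c4))
 (c (a (nat_lit 0x2224f2524247))
 (c (a (nat_lit 0x1d0e00000000003)) e e) e)
 (c z e
 (c z e
 (c z e
 (c z e
 (c z e
 (c (a (nat_lit 0x15351afe3ea7)) e
 (c (a (nat_lit 0x77cbcbf3a08)) e
 (c z e
 (c (a (nat_lit 0x773ca2680e8)) e
 (c (a (nat_lit 0x186540202027)) e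
 (c (a (nat_lit 0x14c020606c65)) e
 (c (a (nat_lit 0x4e0b86003)) e
 (c (a (nat_lit 0x30040000001)) e e)))))))))))))))
 (c (a (nat_lit 0x40402021))
 (c (a (nat_lit 0xfb0b1390764))
 (c (a (nat_lit 0x304f092225166)) e e)
 (c z e
 (c z e
 (c z e
 (c (a (nat_lit 0x55534e560e6)) e
 (c (a (nat_lit 0xc6c5210d368)) e
 (c z e
 (c z e
 (c z e
 (c (a (nat_lit 0x1abe175149a8)) e
 (c (a (nat_lit 0x1b0040e02606)) e
 (c (a (nat_lit 0xa5a07880c4)) e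
 (c (a (nat_lit 0x26383000001)) e
 (c (nat_lit 1) e e))))))))))))))
 (c (a (nat_lit 0x40404041))
 (c z e
 (c z e
 (c z e
 (c (b (nat_lit 0xa6a6adff607)) e
 (c z e
 (c z e
 (c z e
 (c z e
 (c z e
 (c (b (nat_lit 0x1f5fffe04064)) e
 (c (b (nat_lit 0x1fe1a2a24001)) e
 (c (a (nat_lit 0x10180000001)) e e))))))))))))
 (c (a (nat_lit 0x60404041))
 (c (a (nat_lit 0x1edfa060c4))
 (c (b (nat_lit 0xe6be9fe86406)) e
 (c (b (nat_lit 0x1f47fe4400007)) e e))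
 (c (a (nat_lit 0x181888ec53a6))
 (c (a (nat_lit 0x11931a0000006)) e e)
 (c z e
 (c z e
 (c z e
 (c z e
 (c z e
 (c z e
 (c (a (nat_lit 0x136aebe06025)) e
 (c (a (nat_lit 0x6c0800001)) e
 (c (a (nat_lit 0x170000000004)) e e)))))))))))
 (c (a (nat_lit 0x8060a141))
 (c (a (nat_lit 0x16e787b8bb05))
 (c (a (nat_lit 0x1aed8000000006)) e e)
 (c z e
 (c z e
 (c z e
 (c z e
 (c z e
 (c z e
 (c (b (nat_lit 0x1dbffae62004)) e
 (c (a (nat_lit 0xdaa0000004)) e e)))))))))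
 (c (a (nat_lit 0x40404061))
 (c (a (nat_lit 0xdb4b34d0926)) e
 (c (a (nat_lit 0x184fd088a105)) e
 (c z e
 (c z e
 (c z e
 (c z e
 (c (b (nat_lit 0x13dff0000005)) e e)))))))
 (c (a (nat_lit 0x20203b66))
 (c (a (nat_lit 0x11133351e027)) e
 (c z e
 (c z e
 (c z e
 (c z e
 (c (a (nat_lit 0x17c0000005)) e e))))))
 (c (a (nat_lit 0x203c5586))
 (c (b (nat_lit 0xb675ffff786)) e
 (c (a (nat_lit 0x30eab079429)) e e))
 (c (a (nat_lit 0x38b6cdc8))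
 (c (a (nat_lit 0x369e772b389)) e e)
 (c z e
 (c (a (nat_lit 0x1438202005)) e
 (c (a (nat_lit 0x1380202025)) e
 (c (a (nat_lit 0x8040c241)) e
 (c (a (nat_lit 0xc1c161)) e
 (c (a (nat_lit 0xe1a1c141)) e
 (c (a (nat_lit 0x18240c061)) e
 (c (a (nat_lit 0x20203c46)) e
 (c z e
 (c z e
 (c (a (nat_lit 0x1edf402025)) e
 (c (a (nat_lit 0x1f60200005)) e e)))))))))))))))))))))
 (c (a (nat_lit 0x202021))
 (c (nat_lit 1)
 (c (a (nat_lit 0x221c201f623))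
 (c (a (nat_lit 0x265250152c626)) e
 (c z e
 (c (b (nat_lit 0xddff3a2a4d326)) e
 (c z e
 (c (a (nat_lit 0x1e38b62c402005)) e
 (c (a (nat_lit 0x1f98cc40000006)) e e))))))
 (c z e
 (c z e
 (c (a (nat_lit 0x1151f0d0b084)) e
 (c (a (nat_lit 0x341412112c3)) e
 (c (a (nat_lit 0xc0c15b677a7)) e
 (c z e
 (c z e
 (c z e
 (c (a (nat_lit 0x116eef27c028)) e
 (c (a (nat_lit 0x5184d416002)) e
 (c (a (nat_lit 0x1ad845e0a002)) e
 (c (a (nat_lit 0x110420000003)) e e)))))))))))))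
 (c (a (nat_lit 0x20404041))
 (c z e
 (c (a (nat_lit 0x7e19d85742))
 (c (a (nat_lit 0x5646870c6c1c8)) e
 (c (a (nat_lit 0xa909b27800008)) e e))
 (c (a (nat_lit 0x4051b1ae26))
 (c (a (nat_lit 0x14a6de60000006)) e e)
 (c (b (nat_lit 0xc8c965ff1e6)) e
 (c z e
 (c z e
 (c z e
 (c z e
 (c (a (nat_lit 0x1b9c1b6020e8)) e
 (c (a (nat_lit 0x9409551c204)) e
 (c (a (nat_lit 0x35741400001)) e
 (c (a (nat_lit 0x142000000001)) e e))))))))))))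
 (c (a (nat_lit 0x20000021))
 (c (a (nat_lit 0x23a2229e21))
 (c (a (nat_lit 0x2410e0402007)) e
 (c (a (nat_lit 0x101fc260000007)) e e))
 (c (a (nat_lit 0x2089d745))
 (c (a (nat_lit 0x16cb2000000007)) e e)
 (c z e
 (c z e
 (c z e
 (c z e
 (c z e
 (c (b (nat_lit 0x1231bfe101e9)) e
 (c (a (nat_lit 0x1f85c0e02006)) e
 (c (a (nat_lit 0x3b7c0000001)) e e))))))))))
 (c (a (nat_lit 0x20402041))
 (c (a (nat_lit 0x19998c771205))
 (c (a (nat_lit 0x12000000000006)) e e)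
 (c z e
 (c z e
 (c z e
 (c z e
 (c z e
 (c (a (nat_lit 0xd0e0aec5088)) e
 (c (a (nat_lit 0x129ec0400005)) e
 (c (a (nat_lit 0x1ea000000005)) e e)))))))))
 (c (a (nat_lit 0x1a66))
 (c z e
 (c z e
 (c z e
 (c z e
 (c z e
 (c (a (nat_lit 0x1e94fefb4008)) e
 (c (a (nat_lit 0x2fd20000004)) e e)))))))
 (c (a (nat_lit 0x3c1006))
 (c (b (nat_lit 0xa3b9bff366)) e e)
 (c (a (nat_lit 0xa37356ee8)) e
 (c z e
 (c (a (nat_lit 0x109bc02025)) e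
 (c (a (nat_lit 0x1b00202025)) e
 (c (a (nat_lit 0xa040e081)) e
 (c (a (nat_lit 0x2a0a1e1)) e
 (c (a (nat_lit 0x281a161)) e
 (c (a (nat_lit 0x501a0a001)) e
 (c (a (nat_lit 0x20203284)) e
 (c z e
 (c z e
 (c (a (nat_lit 0x160e0c1)) e
 (c (a (nat_lit 0x1a140e001)) e
 (c (a (nat_lit 0x80000001)) e e))))))))))))))))))))
 (c (a (nat_lit 0x202021))
 (c (a (nat_lit 0x40404021))
 (c (a (nat_lit 0x512f2eade1))
 (c z e
 (c (a (nat_lit 0x4c709363a065)) e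
 (c (b (nat_lit 0x7ff880a00005)) e e)))
 (c (a (nat_lit 0x160c0e001))
 (c (a (nat_lit 0x8e7b0c4004005)) e
 (c (b (nat_lit 0x1ff70f40000006)) e e))
 (c (a (nat_lit 0x60e0a001))
 (c (a (nat_lit 0xbb76000000004)) e e)
 (c (a (nat_lit 0x11304f70dfa6)) e
 (c z e
 (c z e
 (c z e
 (c (a (nat_lit 0x19778ca1e028)) e
 (c (a (nat_lit 0x165702e02047)) e
 (c (a (nat_lit 0x9be00a02003)) e
 (c (a (nat_lit 0x1c4040000003)) e e)))))))))))
 (c (a (nat_lit 0x40404041))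
 (c (a (nat_lit 0x22142a24041))
 (c (a (nat_lit 0xee070e0200005)) e
 (c (a (nat_lit 0x171f4000000005)) e e))
 (c (a (nat_lit 0x105061e883a6))
 (c (a (nat_lit 0x14800000000006)) e e)
 (c (a (nat_lit 0x6060d513227)) e
 (c z e
 (c z e
 (c (a (nat_lit 0xe7128e42c49)) e
 (c (a (nat_lit 0x160a462513e8)) e
 (c (a (nat_lit 0x154385452928)) e
 (c (a (nat_lit 0xfdc1c00002)) e
 (c (a (nat_lit 0x1ca000000002)) e e))))))))))
 (c (a (nat_lit 0x20203d47))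
 (c (a (nat_lit 0x5c5c5b00405)) e
 (c z e
 (c z e
 (c z e
 (c z e
 (c (a (nat_lit 0x812ad95c708)) e
 (c (a (nat_lit 0x1ed49978e007)) e
 (c (a (nat_lit 0x134040000006)) e e))))))))
 (c (a (nat_lit 0x203d41e7))
 (c z e
 (c z e
 (c z e
 (c z e
 (c z e
 (c (a (nat_lit 0xef352e00009)) e
 (c (a (nat_lit 0x168000000006)) e e)))))))
 (c (a (nat_lit 0x11a48728)) e
 (c z e
 (c (a (nat_lit 0x5b1802026)) e
 (c (a (nat_lit 0x1060202026)) e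
 (c (a (nat_lit 0x202034c4)) e
 (c (a (nat_lit 0x101c221)) e
 (c (a (nat_lit 0xe1412001)) e
 (c (a (nat_lit 0xa0806001)) e
 (c (a (nat_lit 0x61039241)) e
 (c z e
 (c z e
 (c (b (nat_lit 0x1fe1a0c001)) e
 (c (a (nat_lit 0x1c0c02021)) e
 (c (a (nat_lit 0xc0400001)) e e))))))))))))))))))
 C197)))) Tr.c Tr.e (nat_lit 0) C.cx C.cy
noncomputable def C199 : Tr := beta% (fun (c : Nat → Tr → Tr → Tr) (e : Tr) (z : Nat) (a b : Nat → Nat) =>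
 (c (nat_lit 1)
 (c (a (nat_lit 0x1799b2c96966))
 (c (a (nat_lit 0x1846f0f20a6a45))
 (c z e
 (c (a (nat_lit 0xccf4d8612afa4a7)) e
 (c (a (nat_lit 0x188065de12790026)) e e)))
 (c (b (nat_lit 0x1ffff06440d2c5))
 (c (a (nat_lit 0x7ab87532bc4aa08)) e
 (c (a (nat_lit 0xaa09205234646a8)) e e))
 (c z e
 (c z e
 (c z e
 (c z e
 (c (a (nat_lit 0x147212d52d30e7)) e
 (c (a (nat_lit 0xba98ae85569a7)) e e))))))))
 (c (a (nat_lit 0x1706c0202026))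
 (c (a (nat_lit 0x3bc2e02976c6))
 (c (a (nat_lit 0x70815ababc992e8)) e e)
 (c z e
 (c z e
 (c z e
 (c z e
 (c (a (nat_lit 0xe70130f228488)) e e))))))
 (c (a (nat_lit 0x1de020202064))
 (c (a (nat_lit 0xfbcb4e0a43505))
 (c (a (nat_lit 0x870014640000007)) e e)
 (c z e
 (c z e
 (c z e
 (c (b (nat_lit 0x1178ce7adff3e7)) e e)))))
 (c (a (nat_lit 0x202095e322)) e
 (c (a (nat_lit 0x5c16118fe3)) e
 (c z e
 (c z e
 (c z e
 (c z e
 (c z e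
 (c z e
 (c z e
 (c (a (nat_lit 0x2bb9aa0c0a5)) e
 (c (a (nat_lit 0x1afa00202085)) e
 (c (a (nat_lit 0x19e020408ce5)) e
 (c (a (nat_lit 0x71a0cc8004)) e
 (c (a (nat_lit 0x1020c0000002)) e e)))))))))))))))))
 (c (a (nat_lit 0x40606041))
 (c (a (nat_lit 0x1640202020a4))
 (c (a (nat_lit 0x1582e301852ac7))
 (c (a (nat_lit 0x7d8ad3327d645a7)) e
 (c (a (nat_lit 0x1b11fb9271800008)) e e))
 (c (a (nat_lit 0xb25e444711587))
 (c (a (nat_lit 0xcda3b4ce0000008)) e e) e))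
 (c (a (nat_lit 0xa4864841))
 (c (a (nat_lit 0x9c7c40a960b47))
 (c (a (nat_lit 0xe30e4e000000008)) e e) e)
 (c (a (nat_lit 0x13d913f3ed47)) e
 (c z e
 (c z e
 (c z e
 (c z e
 (c z e
 (c z e
 (c z e
 (c z e
 (c (a (nat_lit 0x11ec62a02047)) e
 (c (a (nat_lit 0x1885402066a6)) e
 (c (a (nat_lit 0xa14c0cd2cc5)) e
 (c (a (nat_lit 0x1b00c0400003)) e
 (c (a (nat_lit 0x16000000001)) e e))))))))))))))))
 (c (a (nat_lit 0x40202021))
 (c (a (nat_lit 0x127292b2a165))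
 (c (a (nat_lit 0xe688c146ac3c6)) e e)
 (c z e
 (c z e
 (c z e
 (c z e
 (c z e
 (c z e
 (c z e
 (c z e
 (c z e
 (c z e
 (c (a (nat_lit 0x1df26ba02026)) e
 (c (a (nat_lit 0x126ba0202006)) e
 (c (a (nat_lit 0x16c020000005)) e e))))))))))))))
 (c (a (nat_lit 0x40404041))
 (c z e
 (c z e
 (c z e
 (c z e
 (c z e
 (c z e
 (c z e
 (c z e
 (c z e
 (c z e
 (c (b (nat_lit 0x173fe0202027)) e
 (c (a (nat_lit 0x522a00001)) e
 (c (a (nat_lit 0x12000000001)) e e)))))))))))))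
 (c (a (nat_lit 0x40404041))
 (c z e
 (c z e
 (c z e
 (c z e
 (c z e
 (c z e
 (c z e
 (c z e
 (c (b (nat_lit 0x1ff587a3a3a6)) e
 (c (a (nat_lit 0x120420202006)) e
 (c (a (nat_lit 0x1dc060000003)) e e)))))))))))
 (c (a (nat_lit 0x20202081))
 (c (a (nat_lit 0xfaae1507046))
 (c (a (nat_lit 0x77c2d80000006)) e e)
 (c z e
 (c z e
 (c (a (nat_lit 0x827a040b167)) e
 (c (b (nat_lit 0x64065dff0e7)) e
 (c z e
 (c z e
 (c (a (nat_lit 0x31afc04006)) e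
 (c (a (nat_lit 0x16dd6bc00006)) e e)))))))))
 (c (a (nat_lit 0x60404081))
 (c (a (nat_lit 0x10720d4504e7)) e
 (c (a (nat_lit 0x1735c5896026)) e
 (c (b (nat_lit 0x100122bfed46)) e
 (c (b (nat_lit 0xa8a9fe750c7)) e
 (c z e
 (c z e
 (c (a (nat_lit 0xbd2f9a96006)) e e)))))))
 (c (a (nat_lit 0x202041))
 (c (a (nat_lit 0x1e0272884004)) e
 (c (a (nat_lit 0x1295542aeb67)) e
 (c z e
 (c z e
 (c z e
 (c (b (nat_lit 0x1ffff9800005)) e e))))))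
 (c (a (nat_lit 0x20203c46))
 (c (a (nat_lit 0x156663e06265)) e
 (c (b (nat_lit 0xc4dbb7fffe7)) e e))
 (c (a (nat_lit 0x203df646))
 (c (a (nat_lit 0x3c44ae63d88)) e e)
 (c (a (nat_lit 0x2718e6b07)) e
 (c z e
 (c (a (nat_lit 0x19f80d2d26)) e
 (c (a (nat_lit 0x1600202025)) e
 (c (a (nat_lit 0x8060a101)) e
 (c (a (nat_lit 0x40c162e1)) e
 (c (a (nat_lit 0xe12e61)) e
 (c (a (nat_lit 0x19e0808082)) e
 (c (a (nat_lit 0x203a66)) e
 (c z e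
 (c z e
 (c (a (nat_lit 0x1087602007)) e
 (c (a (nat_lit 0x1d60000005)) e e)))))))))))))))))))))))) Tr.c Tr.e (nat_lit 0) C.cx C.cy
noncomputable def C200 : Tr := beta% (fun (c : Nat → Tr → Tr → Tr) (e : Tr) (z : Nat) (a b : Nat → Nat) =>
 (c (a (nat_lit 0x40202021))
 (c (a (nat_lit 0x20357446))
 (c (a (nat_lit 0xf4aaab70d2d85))
 (c (a (nat_lit 0x12d17057141433e6)) e
 (c z e
 (c z e
 (c z e
 (c z e
 (c (a (nat_lit 0x1469e94aa08eab07)) e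
 (c (a (nat_lit 0xc6c12a890862007)) e
 (c (a (nat_lit 0x113171a9a0000007)) e e))))))))
 (c z e
 (c z e
 (c z e
 (c z e
 (c (b (nat_lit 0xfdea201bfffe5)) e
 (c (a (nat_lit 0x1285c5a9ad6946)) e
 (c (a (nat_lit 0x9ac0e1145a8e7)) e
 (c z e
 (c (a (nat_lit 0xab50de804e346)) e
 (c (b (nat_lit 0xd6b28685ff8a7)) e e)))))))))))
 (c (a (nat_lit 0x203af6b028)) e
 (c (a (nat_lit 0x3cd46b8468)) e
 (c (a (nat_lit 0x125168c26248)) e
 (c (a (nat_lit 0x152560202026)) e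
 (c (a (nat_lit 0xc6020203465))
 (c (b (nat_lit 0x8070da1fffe5)) e
 (c z e
 (c z e
 (c z e
 (c (a (nat_lit 0x24fb68016008)) e
 (c (a (nat_lit 0x151c580000008)) e e))))))
 (c (a (nat_lit 0x2020349205))
 (c z e
 (c z e
 (c z e
 (c (a (nat_lit 0x63daa27000008)) e
 (c (a (nat_lit 0x1cc1e000000006)) e e)))))
 (c (a (nat_lit 0x7071130c5e6))
 (c z e
 (c z e
 (c (a (nat_lit 0x14af2400000007)) e
 (c (a (nat_lit 0x18e00000000006)) e e))))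
 (c (a (nat_lit 0x1434f4f4f487))
 (c (a (nat_lit 0x1e489fcd200007)) e
 (c (a (nat_lit 0x12554000000007)) e e))
 (c (a (nat_lit 0x5a5a5a5b647))
 (c (a (nat_lit 0x1ae00000000004)) e e)
 (c (a (nat_lit 0x108f2f3ff4a7)) e
 (c z e
 (c z e
 (c z e
 (c z e
 (c (a (nat_lit 0xb91e0204167)) e
 (c (a (nat_lit 0x11a020214147)) e
 (c (a (nat_lit 0xfaff4e02005)) e
 (c (a (nat_lit 0x11e0000003)) e e)))))))))))))))))))
 (c (a (nat_lit 0x40404041))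
 (c z e
 (c (a (nat_lit 0x1cbcac602028)) e
 (c (a (nat_lit 0x16a5c0202027)) e
 (c (a (nat_lit 0x1a6020203205)) e
 (c (a (nat_lit 0x2020378a85)) e
 (c z e
 (c z e
 (c z e
 (c z e
 (c z e
 (c z e
 (c z e
 (c z e
 (c z e
 (c (a (nat_lit 0x61824343a1)) e
 (c (a (nat_lit 0x221e1a161)) e
 (c (a (nat_lit 0x14f975000005)) e
 (c (a (nat_lit 0x118000000003)) e e))))))))))))))))))
 (c (a (nat_lit 0x40404041))
 (c (a (nat_lit 0x14a5c0202026))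
 (c (b (nat_lit 0x1ffff02045d3c5))
 (c (a (nat_lit 0x4c56741a2431088)) e
 (c (a (nat_lit 0xcb06aebaccf4009)) e e))
 (c (a (nat_lit 0x53908df03528))
 (c (a (nat_lit 0x1e17da9c14a00008)) e e) e))
 (c (a (nat_lit 0x142020203525))
 (c (b (nat_lit 0x1ff30325ebffe7))
 (c (a (nat_lit 0xed0d3aa60000007)) e e) e)
 (c (a (nat_lit 0x207d38a5)) e
 (c (b (nat_lit 0x2e9d2ab3fe6)) e
 (c z e
 (c z e
 (c z e
 (c z e
 (c z e
 (c z e
 (c z e
 (c z e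
 (c z e
 (c (a (nat_lit 0x104ca1814e06)) e
 (c (a (nat_lit 0x16a4f50ce005)) e
 (c (a (nat_lit 0x5060000004)) e e))))))))))))))))
 (c (a (nat_lit 0x20202021))
 (c (a (nat_lit 0x6060b59604))
 (c (b (nat_lit 0x11e02020dfffe6)) e e)
 (c (a (nat_lit 0x14f51fbfe306)) e
 (c z e
 (c z e
 (c z e
 (c z e
 (c z e
 (c z e
 (c z e
 (c z e
 (c z e
 (c z e
 (c (b (nat_lit 0x93b1fe02026)) e
 (c (a (nat_lit 0x1b0040200006)) e
 (c (a (nat_lit 0x1c000000001)) e e)))))))))))))))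
 (c (a (nat_lit 0x40404041))
 (c z e
 (c z e
 (c z e
 (c z e
 (c z e
 (c z e
 (c z e
 (c z e
 (c z e
 (c z e
 (c z e
 (c (a (nat_lit 0xf2b81818001)) e
 (c (a (nat_lit 0x8e0c0000001)) e e)))))))))))))
 (c (a (nat_lit 0x40404041))
 (c z e
 (c z e
 (c z e
 (c z e
 (c (a (nat_lit 0xf50946120e8)) e
 (c (a (nat_lit 0xe322925a8a8)) e
 (c z e
 (c z e
 (c z e
 (c (a (nat_lit 0x590910ac567)) e
 (c (a (nat_lit 0x1475aa800006)) e e)))))))))))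
 (c (a (nat_lit 0x40202021))
 (c z e
 (c z e
 (c z e
 (c (a (nat_lit 0x151b80402107)) e
 (c (b (nat_lit 0x1540c0a17fe7)) e e)))))
 (c (a (nat_lit 0x60406081))
 (c z e
 (c z e
 (c (b (nat_lit 0x1620a181dfe7)) e
 (c (a (nat_lit 0x11b1b14b60c7)) e e))))
 (c (a (nat_lit 0x202001))
 (c (b (nat_lit 0x15c12149bfe6)) e
 (c (a (nat_lit 0x1495bf805226)) e e))
 (c (a (nat_lit 0x20200001))
 (c (a (nat_lit 0x13526aae8045)) e
 (c (a (nat_lit 0x82c72e59b46)) e e))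
 (c (a (nat_lit 0x20203de6))
 (c (a (nat_lit 0xdf56f06e086)) e e)
 (c (a (nat_lit 0x203df185)) e
 (c (a (nat_lit 0x3ab48cc6)) e
 (c z e
 (c (a (nat_lit 0x1b758e6e66)) e
 (c (a (nat_lit 0x19a0200004)) e
 (c (a (nat_lit 0x202034e5)) e
 (c (a (nat_lit 0x40808661)) e
 (c (a (nat_lit 0xa0c14221)) e
 (c (a (nat_lit 0x1c0e16041)) e
 (c (a (nat_lit 0x20203247)) e e)))))))))))))))))))))) Tr.c Tr.e (nat_lit 0) C.cx C.cy
noncomputable def C201 : Tr := beta% (fun (c : Nat → Tr → Tr → Tr) (e : Tr) (z : Nat) (a b : Nat → Nat) =>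
 (c (a (nat_lit 0x20404041))
 (c (a (nat_lit 0x20203088))
 (c (a (nat_lit 0x12f30f6f7eb0a6))
 (c (a (nat_lit 0x86a6909f07329e8))
 (c (a (nat_lit 0x72cc7c9b25ad79788)) e e)
 (c z e
 (c z e
 (c z e
 (c z e
 (c (a (nat_lit 0x11ef09c907c40ae9)) e
 (c (a (nat_lit 0x1506278a24e84369)) e
 (c (a (nat_lit 0x118ff034c9a00008)) e e))))))))
 (c z e
 (c z e
 (c z e
 (c z e
 (c (a (nat_lit 0x128b0ac1034028)) e
 (c (a (nat_lit 0x16330266902127)) e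
 (c (a (nat_lit 0x12446aeb2d8007)) e
 (c z e
 (c (a (nat_lit 0x248904b096347)) e
 (c (a (nat_lit 0xcf8d432ba2027)) e e)))))))))))
 (c (a (nat_lit 0x2020324fc9)) e
 (c (a (nat_lit 0x203cb6ada9)) e
 (c z e
 (c (a (nat_lit 0x116ca8002029)) e
 (c (a (nat_lit 0x16a820202027))
 (c z e
 (c z e
 (c z e
 (c z e
 (c (b (nat_lit 0x1fe8dff2e5a029)) e
 (c (b (nat_lit 0x1ffff284200009)) e e))))))
 (c (a (nat_lit 0x720402035e6))
 (c z e
 (c z e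
 (c z e
 (c (a (nat_lit 0xdb01608228009)) e
 (c (a (nat_lit 0x1ed2a9a0000008)) e e)))))
 (c (a (nat_lit 0x2020360866))
 (c z e
 (c z e
 (c (b (nat_lit 0x1fffd905c00007)) e
 (c (a (nat_lit 0x1742c000000007)) e e))))
 (c (a (nat_lit 0xe8e90f0ed68))
 (c (a (nat_lit 0x50e8877a7c008)) e
 (c (a (nat_lit 0x1929e9a0000009)) e e))
 (c (a (nat_lit 0x1657b7d5d4a6))
 (c (a (nat_lit 0x1066e000000007)) e e)
 (c (a (nat_lit 0x74b6b8b95a8)) e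
 (c z e
 (c z e
 (c z e
 (c z e
 (c (a (nat_lit 0x18100c602248)) e
 (c (a (nat_lit 0x1fd8a0246467)) e
 (c (a (nat_lit 0x198105402007)) e
 (c (b (nat_lit 0x1ff2a0800003)) e
 (c (a (nat_lit 0x28000000001)) e e))))))))))))))))))))
 (c (a (nat_lit 0x40404041))
 (c (a (nat_lit 0x2032b22c08)) e
 (c z e
 (c (a (nat_lit 0x1cfdce43e3e8)) e
 (c (a (nat_lit 0x17a840202027)) e
 (c (a (nat_lit 0x13c020203006)) e
 (c (b (nat_lit 0x2020331fe6)) e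
 (c z e
 (c z e
 (c z e
 (c z e
 (c z e
 (c z e
 (c z e
 (c z e
 (c z e
 (c z e
 (c (b (nat_lit 0x11dfe0202007)) e
 (c (b (nat_lit 0x1fe100000001)) e e))))))))))))))))))
 (c (a (nat_lit 0x20202021))
 (c (a (nat_lit 0x1110a5c02008)) e
 (c (a (nat_lit 0x174940202027))
 (c (b (nat_lit 0x1ff884c161ed67))
 (c (a (nat_lit 0xa6e6f0914200007)) e e) e)
 (c (a (nat_lit 0x1f4020205725)) e
 (c (a (nat_lit 0x202039a9e6)) e
 (c z e
 (c z e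
 (c z e
 (c z e
 (c z e
 (c z e
 (c z e
 (c z e
 (c z e
 (c z e
 (c (b (nat_lit 0x14053fe02026)) e
 (c (a (nat_lit 0x1500e0600004)) e
 (c (a (nat_lit 0x44000000001)) e e)))))))))))))))))
 (c (a (nat_lit 0x20202021))
 (c (a (nat_lit 0x146020202b85))
 (c (a (nat_lit 0xb89e0c0754025)) e e)
 (c (a (nat_lit 0x20207d6245)) e
 (c (b (nat_lit 0x9302ea97fe6)) e
 (c z e
 (c z e
 (c z e
 (c z e
 (c z e
 (c z e
 (c z e
 (c z e
 (c z e
 (c (a (nat_lit 0x7f90907047)) e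
 (c (a (nat_lit 0x1e4040402006)) e
 (c (a (nat_lit 0xa4420000001)) e e)))))))))))))))
 (c (a (nat_lit 0x40404041))
 (c (b (nat_lit 0x17175ff78045)) e
 (c z e
 (c z e
 (c z e
 (c z e
 (c z e
 (c z e
 (c z e
 (c z e
 (c z e
 (c z e
 (c z e
 (c (a (nat_lit 0x11aa81400007)) e e)))))))))))))
 (c (a (nat_lit 0x40404041))
 (c z e
 (c z e
 (c z e
 (c z e
 (c (a (nat_lit 0xe701189e5a8)) e
 (c (a (nat_lit 0x1677944fcc68)) e e))))))
 (c (a (nat_lit 0x406060a1))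
 (c z e
 (c z e
 (c z e
 (c (a (nat_lit 0x11934a004047)) e
 (c (a (nat_lit 0x12518d8d8ce8)) e e)))))
 (c (a (nat_lit 0x20202021))
 (c z e
 (c (a (nat_lit 0x18faf1e3e107)) e
 (c (a (nat_lit 0x188ea42500a7)) e
 (c (a (nat_lit 0x120db06b04a7)) e e))))
 (c (a (nat_lit 0x60806001))
 (c (a (nat_lit 0x1309e041e0a6)) e
 (c (a (nat_lit 0x180f2f8141e6)) e e))
 (c (a (nat_lit 0x20204021))
 (c (a (nat_lit 0x153148486184)) e
 (c (a (nat_lit 0x11d316ed73a6)) e e))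
 (c (a (nat_lit 0x40402021))
 (c (a (nat_lit 0x361c2f167)) e e)
 (c (a (nat_lit 0x20203066))
 (c z e
 (c z e
 (c (a (nat_lit 0x93580000006)) e e)))
 (c (a (nat_lit 0x203dfc64))
 (c (a (nat_lit 0x139aa6c00005)) e
 (c (a (nat_lit 0x162000000004)) e e))
 (c (a (nat_lit 0x89775f167)) e
 (c z e
 (c (a (nat_lit 0x122daa4a47)) e
 (c (a (nat_lit 0x1a60402004)) e
 (c (a (nat_lit 0x202036a5)) e
 (c (a (nat_lit 0x4303a1)) e
 (c (a (nat_lit 0x182a241)) e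
 (c (a (nat_lit 0xe0e14061)) e
 (c (a (nat_lit 0x2a1426)) e e))))))))))))))))))))))) Tr.c Tr.e (nat_lit 0) C.cx C.cy
noncomputable def C202 : Tr := beta% (fun (c : Nat → Tr → Tr → Tr) (e : Tr) (z : Nat) (a b : Nat → Nat) =>
 (c (nat_lit 1)
 (c (a (nat_lit 0x20000001)) e
 (c (a (nat_lit 0x202030c9)) e
 (c (a (nat_lit 0x10abe9)) e
 (c (a (nat_lit 0x2036d6ef29)) e
 (c z e
 (c (a (nat_lit 0x165950c02028)) e
 (c (a (nat_lit 0x13a580202007)) e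
 (c (a (nat_lit 0x17a040203b85)) e
 (c (a (nat_lit 0x21c1fd3525)) e
 (c (a (nat_lit 0xd2d37f9c9c6)) e
 (c z e
 (c z e
 (c z e
 (c z e
 (c z e
 (c z e
 (c z e
 (c z e
 (c (a (nat_lit 0x19a120202007)) e
 (c (a (nat_lit 0x3c0000001)) e e))))))))))))))))))))
 (c (a (nat_lit 0x20202021))
 (c (a (nat_lit 0x202019b7c7)) e
 (c (a (nat_lit 0x35b5ce69)) e
 (c z e
 (c (a (nat_lit 0x112dab418109)) e
 (c (a (nat_lit 0x154d82002007)) e
 (c (a (nat_lit 0x1d80402020e5)) e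
 (c (b (nat_lit 0x1a1423fffe1)) e
 (c z e
 (c z e
 (c z e
 (c z e
 (c z e
 (c z e
 (c z e
 (c z e
 (c z e
 (c (a (nat_lit 0x15cfe0202027)) e
 (c (a (nat_lit 0x1fa020200006)) e
 (c (a (nat_lit 0x14000000001)) e e)))))))))))))))))))
 (c (nat_lit 1)
 (c z e
 (c (a (nat_lit 0x135349a26269)) e
 (c (a (nat_lit 0x12ac60202027)) e
 (c (a (nat_lit 0x1680202020c6))
 (c (a (nat_lit 0x6cda4c5aad1c7)) e
 (c (a (nat_lit 0x10664f99befc27)) e e))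
 (c (b (nat_lit 0x221a1d7ffe3))
 (c (a (nat_lit 0x59116d84f0087)) e e)
 (c (b (nat_lit 0x1afb1ff3a043)) e
 (c z e
 (c z e
 (c z e
 (c z e
 (c z e
 (c (a (nat_lit 0x10526043fe06)) e
 (c (a (nat_lit 0xfa0441e09e6)) e
 (c z e
 (c (a (nat_lit 0x11a4763c3c6)) e
 (c (a (nat_lit 0x16a3e0202006)) e
 (c (a (nat_lit 0x1de040000003)) e e)))))))))))))))))
 (c (a (nat_lit 0x20202021))
 (c (a (nat_lit 0x16cca0202026)) e
 (c (a (nat_lit 0x1a6020202026))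
 (c z e
 (c (b (nat_lit 0x1fffffe1716c29)) e
 (c (b (nat_lit 0x1fffef55374a69)) e e)))
 (c (b (nat_lit 0xa0813dffe3))
 (c (b (nat_lit 0xaffe15394af08)) e
 (c (a (nat_lit 0x5486c90454c89)) e e))
 (c (a (nat_lit 0x11d2b20f6106))
 (c (a (nat_lit 0xe8dbe53612028)) e e)
 (c z e
 (c z e
 (c z e
 (c z e
 (c z e
 (c (a (nat_lit 0x1ebf60c13dc5)) e
 (c (a (nat_lit 0x7c02045f3a7)) e
 (c (a (nat_lit 0x408633ea47)) e
 (c z e
 (c (a (nat_lit 0xcbc6fd4cd07)) e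
 (c (a (nat_lit 0x172a87e00007)) e e)))))))))))))))
 (c (a (nat_lit 0x20202021))
 (c (a (nat_lit 0x20562163))
 (c z e
 (c (a (nat_lit 0x5804c935552c8)) e e))
 (c (a (nat_lit 0x191c7bdb34a7))
 (c (a (nat_lit 0x119ab71baf1d07)) e e)
 (c (a (nat_lit 0xf2d6d8e5187)) e
 (c z e
 (c z e
 (c z e
 (c z e
 (c (a (nat_lit 0x11a220202006)) e
 (c (a (nat_lit 0x18d6d6b6d306)) e
 (c (a (nat_lit 0x2020277607)) e
 (c (a (nat_lit 0x80b6bb4b468)) e e)))))))))))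
 (c (a (nat_lit 0x20200001))
 (c (a (nat_lit 0x34360d065))
 (c (a (nat_lit 0x563508c80a086)) e
 (c (a (nat_lit 0x534edcac30ae7)) e e))
 (c (a (nat_lit 0x8492b18cf86))
 (c (a (nat_lit 0x1aaca5e3a2a667)) e e)
 (c z e
 (c z e
 (c z e
 (c (a (nat_lit 0x1ebddd1dfdc7)) e
 (c (a (nat_lit 0xfcf742da908)) e
 (c (a (nat_lit 0x18ff9fd9f886)) e
 (c (a (nat_lit 0x16161118f86)) e
 (c (a (nat_lit 0x567074f9287)) e e))))))))))
 (c (a (nat_lit 0x40404061))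
 (c (a (nat_lit 0xcb27c363266))
 (c (a (nat_lit 0x11e487a90f89a7)) e e)
 (c z e
 (c z e
 (c (a (nat_lit 0x1f8741c76004)) e
 (c (b (nat_lit 0x18b73710dfe6)) e
 (c (a (nat_lit 0xbb1d2abc887)) e
 (c (a (nat_lit 0xff80cb1c005)) e
 (c (a (nat_lit 0x4472a075286)) e
 (c (a (nat_lit 0x7a728a9f0c8)) e e)))))))))
 (c (a (nat_lit 0x60404041))
 (c z e
 (c (a (nat_lit 0x166125308a64)) e
 (c (a (nat_lit 0x1071924e0426)) e
 (c (b (nat_lit 0x14f353407fe6)) e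
 (c z e
 (c (a (nat_lit 0x17171f8ff607)) e
 (c (a (nat_lit 0xc6a83ca5887)) e e)))))))
 (c (a (nat_lit 0x40606081))
 (c (a (nat_lit 0x1313d3cd6005)) e
 (c (a (nat_lit 0x191911406246)) e
 (c (b (nat_lit 0x4a4a3135fe6)) e e)))
 (c (a (nat_lit 0x60606081))
 (c (a (nat_lit 0x12aca1042004)) e
 (c (a (nat_lit 0xdcff06b62c7)) e e))
 (c (a (nat_lit 0x20200001))
 (c (a (nat_lit 0x144962e7a445)) e
 (c z e
 (c z e
 (c (a (nat_lit 0xccfda108007)) e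
 (c (a (nat_lit 0x11d6a0000005)) e e)))))
 (c (a (nat_lit 0x20202001))
 (c z e
 (c (b (nat_lit 0x1febd4ba7787)) e
 (c (a (nat_lit 0xe06f8e00006)) e
 (c (a (nat_lit 0x2000000001)) e e))))
 (c (a (nat_lit 0x60402001))
 (c (a (nat_lit 0x7c536002007)) e
 (c (a (nat_lit 0xaa140000001)) e e))
 (c (a (nat_lit 0x2036d924))
 (c (a (nat_lit 0x2000000001)) e e)
 (c (a (nat_lit 0xad6973746)) e
 (c z e
 (c (a (nat_lit 0x107087a786)) e
 (c (a (nat_lit 0x1200202025)) e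
 (c (a (nat_lit 0x6060aaa1)) e
 (c (a (nat_lit 0xe42001)) e
 (c (a (nat_lit 0xc101c081)) e
 (c (a (nat_lit 0x203ee5)) e
 (c (a (nat_lit 0x203f1425)) e e)))))))))))))))))))))))) Tr.c Tr.e (nat_lit 0) C.cx C.cy
noncomputable def C203 : Tr := beta% (fun (c : Nat → Tr → Tr → Tr) (e : Tr) (z : Nat) (a b : Nat → Nat) =>
 (c (a (nat_lit 0x2020202021))
 (c (a (nat_lit 0x36a78f50aa805))
 (c z e
 (c z e
 (c z e
 (c z e
 (c (a (nat_lit 0xc3c6e7a7e77846))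
 (c (a (nat_lit 0x76f2c07e78eb4bec8)) e e)
 (c (a (nat_lit 0x7490ad14f329867))
 (c (a (nat_lit 0x1ab5b1f0303b520008)) e e)
 (c (a (nat_lit 0x688260889b4e827)) e
 (c (a (nat_lit 0xc140f79dceeb405)) e
 (c (a (nat_lit 0xdcff1f62dd088e6)) e
 (c z e
 (c z e
 (c z e
 (c (a (nat_lit 0x1c527d589c22007)) e
 (c (a (nat_lit 0xa9312c820000007)) e
 (c (a (nat_lit 0x578600000000006)) e e)))))))))))))))
 (c (a (nat_lit 0xbb38ec5844447))
 (c (a (nat_lit 0x4ade8e40143dd86)) e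
 (c z e
 (c z e
 (c z e
 (c z e
 (c z e
 (c z e
 (c (a (nat_lit 0x2e5c70745c27569)) e e))))))))
 (c (a (nat_lit 0x15cd0481e1e006)) e
 (c (a (nat_lit 0x1ccaeaeae0e0a5)) e
 (c (a (nat_lit 0x1858384e8e0505))
 (c z e
 (c z e
 (c z e
 (c (a (nat_lit 0x7c8288cb068f0e9)) e
 (c (a (nat_lit 0x624ca33210a6a49)) e e)))))
 (c (a (nat_lit 0x16b6b1918a6a06))
 (c z e
 (c (a (nat_lit 0x122f4df63a4c7509)) e
 (c (a (nat_lit 0x8ccf298277a5368)) e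
 (c (b (nat_lit 0x540b17fe686e3c9)) e e))))
 (c (a (nat_lit 0x144eef949807a6))
 (c (a (nat_lit 0x10c8b02e2c024d68)) e
 (c (a (nat_lit 0x9f1308e0730ac28)) e e))
 (c (a (nat_lit 0xdee5139145905))
 (c (a (nat_lit 0x6516ce9c5276647)) e
 (c (a (nat_lit 0x1dc245442383c468)) e e))
 (c (a (nat_lit 0x9eb3ab732c4a5))
 (c (a (nat_lit 0xa9f31017d90005)) e e)
 (c z e
 (c (a (nat_lit 0x13902ca0202185)) e
 (c (a (nat_lit 0x1a6c45c58857c3)) e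
 (c (a (nat_lit 0x15b3d855c7ac65)) e
 (c (a (nat_lit 0xef113f0f10127)) e
 (c (a (nat_lit 0xaad33b5916325)) e
 (c (a (nat_lit 0x84f33bd1d3c85)) e
 (c (a (nat_lit 0xdf034d4f4aa66)) e e)))))))))))))))))
 (c (a (nat_lit 0x2020202021))
 (c (a (nat_lit 0x10a861c1010027))
 (c (a (nat_lit 0x6c421c5a28f90e7))
 (c (a (nat_lit 0x1b79d62e4f8dd3bae8))
 (c z e
 (c (a (nat_lit 0xb9088a403006000000b)) e e)) e)
 (c z e
 (c z e
 (c z e
 (c z e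
 (c z e
 (c z e
 (c z e
 (c z e
 (c z e
 (c (b (nat_lit 0x12d47fea71878008)) e e)))))))))))
 (c (a (nat_lit 0x1fcaaa8a898026)) e
 (c (a (nat_lit 0x1c7c5c752d4046)) e
 (c (b (nat_lit 0x13d3ec6c7fffe7)) e
 (c z e
 (c z e
 (c z e
 (c z e
 (c z e
 (c (a (nat_lit 0x13cbc7e340e627)) e
 (c (a (nat_lit 0x1068b6a36fce66)) e e)))))))))))
 (c (nat_lit 1)
 (c (a (nat_lit 0x19f9f9fa574686)) e e)
 (c (a (nat_lit 0x2020202021)) e
 (c (a (nat_lit 0x20202001))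
 (c z e
 (c z e
 (c z e
 (c (a (nat_lit 0x3cb42a6196fe6))
 (c (a (nat_lit 0x13f7acfa0c600008)) e
 (c (a (nat_lit 0x186cd5c000000008)) e e))
 (c (a (nat_lit 0xa880bddb2f306))
 (c (a (nat_lit 0xdd5400000000007)) e e)
 (c z e
 (c z e
 (c z e
 (c z e
 (c z e
 (c z e
 (c (a (nat_lit 0x15dafeb3a00007)) e
 (c (a (nat_lit 0x19404000000005)) e e)))))))))))))
 (c (a (nat_lit 0x20202031a8))
 (c z e
 (c (a (nat_lit 0x14d0a6eaace9c7))
 (c z e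
 (c (a (nat_lit 0x11edf2d22c20000a)) e e))
 (c (a (nat_lit 0x9c042c97cb8a7))
 (c (a (nat_lit 0x911ee0b80000009)) e
 (c (a (nat_lit 0x1429c00000000009)) e e))
 (c (a (nat_lit 0xe9fe92a607))
 (c (a (nat_lit 0x10c0000000000007)) e e)
 (c z e
 (c z e
 (c z e
 (c z e
 (c z e
 (c (a (nat_lit 0x2c70bf12007)) e
 (c (a (nat_lit 0x5ab1220000007)) e
 (c (a (nat_lit 0x1d600000000006)) e e))))))))))))
 (c (a (nat_lit 0x2020334648))
 (c (b (nat_lit 0x36040241ff9a6))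
 (c z e
 (c (a (nat_lit 0x11d27e4f80000008)) e
 (c (a (nat_lit 0x1112c00000000008)) e e)))
 (c (a (nat_lit 0xaeb4eadd52e28))
 (c (a (nat_lit 0xc3764e000000008)) e e)
 (c z e
 (c z e
 (c z e
 (c z e
 (c z e
 (c z e
 (c (a (nat_lit 0x20efc400008)) e
 (c (a (nat_lit 0x1bf1a000000007)) e e))))))))))
 (c (a (nat_lit 0x1616f948c67))
 (c (a (nat_lit 0x8a88fd8ce6406)) e
 (c (a (nat_lit 0xcf2b030ac1d47)) e
 (c z e
 (c z e
 (c z e
 (c (a (nat_lit 0x1c1c84d374be8)) e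
 (c (a (nat_lit 0x5c20f91e72009)) e e)))))))
 (c (a (nat_lit 0x3af582e85c7))
 (c (a (nat_lit 0xccf2eef16afc7)) e
 (c z e
 (c z e
 (c z e
 (c (a (nat_lit 0x402873aa4a068)) e
 (c (a (nat_lit 0xc7f262200009)) e e))))))
 (c (a (nat_lit 0xc7e9522c006)) e
 (c (a (nat_lit 0x13abe2c02026)) e
 (c (a (nat_lit 0x13a0202020e5))
 (c (b (nat_lit 0x9ffff1c06008)) e
 (c (a (nat_lit 0x15672a60000009)) e e))
 (c (a (nat_lit 0xc0816e0521))
 (c (a (nat_lit 0x175e2000000005)) e e)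
 (c (a (nat_lit 0x12b2b7b79767)) e
 (c (a (nat_lit 0x388aecedc26)) e
 (c (a (nat_lit 0x787c2defa85)) e
 (c (a (nat_lit 0x88777b46fc6)) e
 (c z e
 (c z e
 (c (a (nat_lit 0x1441e0604004)) e
 (c (a (nat_lit 0x138542608001)) e
 (c (a (nat_lit 0xa67e3a10001)) e
 (c (a (nat_lit 0x4e080000001)) e e)))))))))))))))))))))))) Tr.c Tr.e (nat_lit 0) C.cx C.cy
noncomputable def C204 : Tr := beta% (fun (c : Nat → Tr → Tr → Tr) (e : Tr) (z : Nat) (a b : Nat → Nat) =>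
 (c (nat_lit 1)
 (c (a (nat_lit 0x20202021)) C203
 (c (a (nat_lit 0x20202021))
 (c (a (nat_lit 0x2020202021))
 (c (a (nat_lit 0x1aec0bebed2205))
 (c (a (nat_lit 0x6e4ec4e4e945c26))
 (c z e
 (c (a (nat_lit 0x15c2a6c0a7e4931f48))
 (c (a (nat_lit 0x19ae6b02a0000000000a)) e e) e))
 (c z e
 (c z e
 (c z e
 (c z e
 (c z e
 (c z e
 (c z e
 (c z e
 (c (a (nat_lit 0x160f4f75e74e87e8)) e
 (c (a (nat_lit 0x13254fa806400008)) e e)))))))))))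
 (c (a (nat_lit 0x10b0b0b20b2007))
 (c z e
 (c z e
 (c z e
 (c z e
 (c z e
 (c z e
 (c z e
 (c z e
 (c z e
 (c (a (nat_lit 0x32ef9800000005)) e e))))))))))
 (c z e
 (c z e
 (c z e
 (c z e
 (c z e
 (c z e
 (c z e
 (c (a (nat_lit 0x1c754e28773506)) e
 (c (a (nat_lit 0xe371553b03fc6)) e e)))))))))))
 (c (a (nat_lit 0x2040404041))
 (c (a (nat_lit 0x1c3c58f908aa87)) e e)
 (c (a (nat_lit 0x2020404041)) e
 (c (a (nat_lit 0x3129)) e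
 (c (a (nat_lit 0x332c69)) e
 (c (a (nat_lit 0x144b4789)) e
 (c z e
 (c (b (nat_lit 0x1032265fe008)) e
 (c (a (nat_lit 0x1427a0202007)) e
 (c (a (nat_lit 0x1ba0402037c5))
 (c z e
 (c (a (nat_lit 0xd90c84f60e009)) e e))
 (c (a (nat_lit 0x202037e125))
 (c (b (nat_lit 0xa7ff220a00008)) e
 (c (a (nat_lit 0xc30e000000008)) e e))
 (c (a (nat_lit 0x523232c5))
 (c (a (nat_lit 0x16e00000000001)) e e)
 (c z e
 (c z e
 (c z e
 (c z e
 (c z e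
 (c z e
 (c (a (nat_lit 0x17930a802026)) e
 (c (a (nat_lit 0x12ea60202026)) e
 (c (a (nat_lit 0x14c060400005)) e
 (c (a (nat_lit 0x2000000001)) e e))))))))))))))))))))))
 C202))
 (c (a (nat_lit 0x202021))
 (c (a (nat_lit 0x20202021))
 (c (a (nat_lit 0x202001))
 (c (a (nat_lit 0x17d7d7dc8dc503))
 (c (a (nat_lit 0x12026e6e6e6f565)) e
 (c (a (nat_lit 0x26070727f236e7))
 (c (a (nat_lit 0x140a180826145d02a)) e e)
 (c z e
 (c z e
 (c z e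
 (c z e
 (c (a (nat_lit 0x11aeb10cb1564da7)) e
 (c (a (nat_lit 0xaec2a338e09aae8)) e
 (c (a (nat_lit 0x11d6bb1a6d6e6fc7)) e
 (c (a (nat_lit 0x86e10e487e3c007)) e
 (c (a (nat_lit 0x610c543e0000007)) e e)))))))))))
 (c (a (nat_lit 0x199995758d8d66))
 (c (a (nat_lit 0x16346c88a91dd08))
 (c (a (nat_lit 0xa18023004611d88a)) e e)
 (c z e
 (c z e
 (c z e
 (c z e
 (c (a (nat_lit 0x12149393704ced69)) e
 (c (a (nat_lit 0xfcf36c9a7c8c349)) e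
 (c (a (nat_lit 0x10cd2b46c926e4a9)) e
 (c (a (nat_lit 0xdb480f286800007)) e
 (c (a (nat_lit 0x1cea8a4000000007)) e e))))))))))
 (c z e
 (c z e
 (c z e
 (c z e
 (c (a (nat_lit 0x989d0d0e02786)) e
 (c (a (nat_lit 0xd31504029c9e6)) e
 (c (a (nat_lit 0x1130e94989ccc6)) e
 (c (a (nat_lit 0x1e604243b4b404)) e
 (c (a (nat_lit 0x12747a64656a6)) e
 (c (a (nat_lit 0xa03c3c5b24ba6)) e e))))))))))))
 (c (a (nat_lit 0x2040404041))
 (c (a (nat_lit 0x164e0e49885ae6))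
 (c (a (nat_lit 0x2440544e7cdd0e9))
 (c (a (nat_lit 0x2214401444bb22b0a)) e e)
 (c z e
 (c z e
 (c z e
 (c z e
 (c (a (nat_lit 0x1a3cd70e0d8b2829)) e
 (c (b (nat_lit 0x179da628093fe5c9)) e
 (c (a (nat_lit 0x10ce4b8fade78008)) e e))))))))
 (c z e
 (c z e
 (c z e
 (c z e
 (c (a (nat_lit 0x551eaa5602288)) e
 (c (a (nat_lit 0x11c9646021c608)) e
 (c (a (nat_lit 0x156b2045292a67)) e
 (c z e
 (c (a (nat_lit 0x286e82b71f747)) e
 (c (a (nat_lit 0x82991f095b847)) e e)))))))))))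
 (c (a (nat_lit 0x2020203108)) e
 (c (a (nat_lit 0x2020347028)) e
 (c (a (nat_lit 0x2038704748)) e
 (c z e
 (c (a (nat_lit 0x1cbcf1a9e9e7))
 (c z e
 (c z e
 (c z e
 (c z e
 (c (a (nat_lit 0x523e9c5352a09)) e
 (c (b (nat_lit 0xbffff6448009)) e e))))))
 (c (a (nat_lit 0x198520202026))
 (c z e
 (c z e
 (c z e
 (c (b (nat_lit 0x1475ff1e4c029)) e
 (c (b (nat_lit 0x1ffff2c5a00009)) e e)))))
 (c (a (nat_lit 0xb80202036c5))
 (c z e
 (c z e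
 (c (a (nat_lit 0x13e4dfaba04008)) e
 (c (a (nat_lit 0x27b81c0000008)) e e))))
 (c (a (nat_lit 0x202056c045))
 (c (a (nat_lit 0xaac34c3220027)) e
 (c (a (nat_lit 0x6100441600009)) e e))
 (c (a (nat_lit 0x143437f86342))
 (c (a (nat_lit 0x1cebe1a0000007)) e e)
 (c (a (nat_lit 0x3cc9d5d7d25)) e
 (c z e
 (c z e
 (c z e
 (c z e
 (c (a (nat_lit 0xd3030e44627)) e
 (c (a (nat_lit 0x17b980440406)) e
 (c (a (nat_lit 0x1584c0202026)) e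
 (c (a (nat_lit 0x12c020402004)) e
 (c (a (nat_lit 0x42c0000001)) e e)))))))))))))))))))))
 C201)
 (c (a (nat_lit 0x202021)) C200
 (c (a (nat_lit 0x202021)) C199
 C198))))) Tr.c Tr.e (nat_lit 0) C.cx C.cy
noncomputable def C205 : Tr := beta% (fun (c : Nat → Tr → Tr → Tr) (e : Tr) (z : Nat) (a b : Nat → Nat) =>
 (c (a (nat_lit 0x20202021))
 (c (a (nat_lit 0x20202036e6))
 (c z e
 (c z e
 (c z e
 (c z e
 (c z e
 (c z e
 (c (a (nat_lit 0x11d28548c8c026)) e e)))))))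
 (c (a (nat_lit 0x2036f967)) e
 (c (a (nat_lit 0x203293ccc8)) e
 (c (a (nat_lit 0x3511cf0408)) e
 (c (a (nat_lit 0x10b650c02007)) e
 (c (a (nat_lit 0x182d00202026))
 (c (a (nat_lit 0x468cff1016046)) e e)
 (c (a (nat_lit 0x1b4020202045))
 (c (b (nat_lit 0x1cc33db989fe6)) e e)
 (c (a (nat_lit 0x121216420a1))
 (c z e
 (c (a (nat_lit 0x750b826e00008)) e e))
 (c (b (nat_lit 0x666891ff2e3))
 (c (b (nat_lit 0x1ff821e0000007)) e
 (c (a (nat_lit 0x18400000000007)) e e))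
 (c (a (nat_lit 0x84a72b41267)) e
 (c z e
 (c z e
 (c z e
 (c (b (nat_lit 0x1ff100404025)) e
 (c (a (nat_lit 0x112060604045)) e
 (c (b (nat_lit 0xc5dac4bffe5)) e
 (c (a (nat_lit 0x152c8c402006)) e
 (c (a (nat_lit 0x125205204006)) e
 (c (a (nat_lit 0x19a020000005)) e e)))))))))))))))))))
 (c (a (nat_lit 0x20202021))
 (c (a (nat_lit 0x2036174dc7)) e
 (c (a (nat_lit 0x47899d067e8)) e
 (c (a (nat_lit 0x16d3ae840408)) e
 (c (a (nat_lit 0x15f400202026))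
 (c (a (nat_lit 0x5b295ee80ec64)) e
 (c (a (nat_lit 0x392d9095e666)) e e))
 (c (a (nat_lit 0x194040202065))
 (c (a (nat_lit 0x9c26ff1008026)) e e)
 (c (b (nat_lit 0x10021763fe1))
 (c (a (nat_lit 0x8330ce606308)) e e)
 (c (a (nat_lit 0x14b4d514a6e4)) e
 (c z e
 (c z e
 (c z e
 (c z e
 (c (a (nat_lit 0x11ada002005)) e
 (c (a (nat_lit 0x1b3a60405545)) e
 (c (a (nat_lit 0x1a4020552fc5)) e
 (c (a (nat_lit 0x808928fea46)) e
 (c (b (nat_lit 0x1ff04ae04025)) e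
 (c (a (nat_lit 0x108b20200005)) e e)))))))))))))))))
 (c (nat_lit 1)
 (c (a (nat_lit 0x1273aa63c3c7)) e
 (c (a (nat_lit 0x1a9460202026))
 (c z e
 (c (a (nat_lit 0x15098640559dc7)) e
 (c (b (nat_lit 0x1fffffe689be08)) e e)))
 (c (a (nat_lit 0x150020202006))
 (c (a (nat_lit 0x1a8e0088c76026)) e
 (c (b (nat_lit 0x1fffe20bb4dfe8)) e e))
 (c (a (nat_lit 0x10f0b0f065c3))
 (c (a (nat_lit 0x2c5cb55a10028)) e e)
 (c (a (nat_lit 0x179797b64465)) e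
 (c z e
 (c z e
 (c z e
 (c z e
 (c (a (nat_lit 0x1ae560c07123)) e
 (c (a (nat_lit 0x823405180a3)) e
 (c (a (nat_lit 0x4024805605)) e
 (c (a (nat_lit 0x6120cb7386)) e
 (c (a (nat_lit 0x342ed35b846)) e e))))))))))))))
 (c (a (nat_lit 0x40404041))
 (c (a (nat_lit 0x150020202005))
 (c (a (nat_lit 0x1e0432040d1c6)) e
 (c (a (nat_lit 0x14400228e5827)) e
 (c (a (nat_lit 0x202186885688)) e e)))
 (c (a (nat_lit 0x2e2e338a003))
 (c (a (nat_lit 0x6018386edbda7)) e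
 (c (a (nat_lit 0x9aa8b97ba5d68)) e e))
 (c (a (nat_lit 0xf502f6e0006))
 (c (a (nat_lit 0x76712ac404368)) e e)
 (c (a (nat_lit 0x1ab999997825)) e
 (c z e
 (c z e
 (c z e
 (c (a (nat_lit 0x1210500fefe6)) e
 (c (a (nat_lit 0xa22c262a001)) e
 (c (a (nat_lit 0x242c2606001)) e
 (c (a (nat_lit 0x60804074a4)) e
 (c (a (nat_lit 0x20402a7225)) e
 (c (a (nat_lit 0xd8d97df7885)) e e)))))))))))))
 (c (a (nat_lit 0x20202021))
 (c (a (nat_lit 0xd35104663))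
 (c (a (nat_lit 0x584c5c8b10ae5)) e
 (c (a (nat_lit 0x5a328cf500927)) e e))
 (c (a (nat_lit 0x383a75fa4))
 (c (a (nat_lit 0x85ad96c89c486)) e e)
 (c z e
 (c z e
 (c z e
 (c (a (nat_lit 0x12b171717147)) e
 (c (a (nat_lit 0x12729afb0e27)) e
 (c (a (nat_lit 0x1c7c7c75c0a6)) e
 (c (a (nat_lit 0x1656b67fef22)) e
 (c (a (nat_lit 0xa081205266)) e
 (c (a (nat_lit 0x221c1d3f026)) e e)))))))))))
 (c (nat_lit 1)
 (c (a (nat_lit 0x9696991ae05))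
 (c (a (nat_lit 0x1c34606a2d5ae6)) e e)
 (c z e
 (c z e
 (c (a (nat_lit 0x110364240404)) e
 (c (a (nat_lit 0x3c3e220c1)) e
 (c (a (nat_lit 0xf4f71e4e287)) e
 (c (a (nat_lit 0xe57a9898005)) e
 (c (a (nat_lit 0x12f293f99de3)) e
 (c (a (nat_lit 0xb6969c6d626)) e e)))))))))
 (c (a (nat_lit 0x20202021))
 (c z e
 (c (a (nat_lit 0x1b6e6f4f4ec4)) e
 (c (a (nat_lit 0x10f1b4d4a3c4)) e
 (c (a (nat_lit 0x1333533320a6)) e
 (c (a (nat_lit 0x30db57564c6)) e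
 (c (a (nat_lit 0xb6c95ec4c06)) e
 (c (a (nat_lit 0x12b2cee90666)) e e)))))))
 (c (a (nat_lit 0x202001))
 (c (a (nat_lit 0x1a1e199c202)) e
 (c (a (nat_lit 0x133333238026)) e
 (c (b (nat_lit 0x1adb37175fe5)) e
 (c z e
 (c z e
 (c z e
 (c z e
 (c (b (nat_lit 0x1ffea0600004)) e
 (c (a (nat_lit 0x1e4000000004)) e e)))))))))
 (c (a (nat_lit 0x2021))
 (c (a (nat_lit 0x191900c10003)) e
 (c (a (nat_lit 0x1798b92fe005)) e
 (c z e
 (c z e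
 (c z e
 (c (b (nat_lit 0x1fe1f1a02004)) e
 (c (a (nat_lit 0x79a20000001)) e e)))))))
 (c (a (nat_lit 0x20200021))
 (c (a (nat_lit 0x243e3a97544)) e
 (c z e
 (c z e
 (c (a (nat_lit 0xbaf4031abc6)) e
 (c (a (nat_lit 0x1d402be00005)) e
 (c (a (nat_lit 0x2000000001)) e e))))))
 (c (a (nat_lit 0x20202021))
 (c z e
 (c (a (nat_lit 0xf33c2036be5)) e
 (c (a (nat_lit 0x116020402005)) e
 (c (a (nat_lit 0x6080000001)) e e))))
 (c (a (nat_lit 0x20202021))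
 (c (a (nat_lit 0xd22e36032e5)) e
 (c (a (nat_lit 0x20a0800001)) e
 (c (a (nat_lit 0x2000000001)) e e)))
 (c (a (nat_lit 0x40404061))
 (c (a (nat_lit 0x4020000001)) e e)
 (c (a (nat_lit 0x20203404)) e
 (c (a (nat_lit 0x20341864)) e
 (c (a (nat_lit 0xaaf90a826)) e
 (c (a (nat_lit 0x197b8a8a85)) e
 (c (a (nat_lit 0x1120202025)) e
 (c (a (nat_lit 0xc0408001)) e
 (c (a (nat_lit 0x60406001)) e
 (c (a (nat_lit 0x1214140c1)) e
 (c (a (nat_lit 0x20203045)) e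
 (c (b (nat_lit 0x1ff029c5)) e e)))))))))))))))))))))))) Tr.c Tr.e (nat_lit 0) C.cx C.cy
noncomputable def C206 : Tr := beta% (fun (c : Nat → Tr → Tr → Tr) (e : Tr) (z : Nat) (a b : Nat → Nat) =>
 (c (a (nat_lit 0x20202021))
 (c (a (nat_lit 0x20002001))
 (c (a (nat_lit 0x5a5af17f5c946))
 (c (a (nat_lit 0x18589b5c3d78af44)) e
 (c z e
 (c z e
 (c z e
 (c (a (nat_lit 0x20646788469206)) e
 (c (a (nat_lit 0x1e042460d50d687))
 (c z e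
 (c (a (nat_lit 0x112e2cccce8ec0000a)) e e))
 (c (a (nat_lit 0x3a42a07ed321fa7)) e
 (c (a (nat_lit 0x7ed0ffd77935646)) e
 (c (a (nat_lit 0x7c90d902e0e6b67)) e
 (c z e
 (c z e
 (c z e
 (c (b (nat_lit 0xac5cc7f3edfffe6)) e
 (c (b (nat_lit 0x602ceb0dfe00008)) e
 (c (a (nat_lit 0x2c1f10000000008)) e e)))))))))))))))
 (c (a (nat_lit 0x213de590867a7)) e
 (c (a (nat_lit 0x115d7860c02027)) e
 (c (a (nat_lit 0x118f6563c3c027)) e
 (c (b (nat_lit 0x1ba7a7a7a07fe6))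
 (c z e
 (c z e
 (c z e
 (c (a (nat_lit 0x175275587659de68)) e
 (c (a (nat_lit 0x72db17073e7e9a8)) e e)))))
 (c (a (nat_lit 0x19f9fa13b250e6))
 (c z e
 (c (a (nat_lit 0xed06f729872730a)) e
 (c (a (nat_lit 0xb88ac930ec914a9)) e
 (c (a (nat_lit 0xa08c8f364e66a29)) e e))))
 (c (a (nat_lit 0x187b1393754f86))
 (c (a (nat_lit 0x16d5335c33bc9008)) e
 (c (a (nat_lit 0xfed144c5f32c928)) e
 (c (a (nat_lit 0xe74740b24c0c4a8)) e e)))
 (c (a (nat_lit 0xd05661a1870c5))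
 (c (a (nat_lit 0x383257bca6164e7)) e
 (c (a (nat_lit 0x38dd24d41a08288)) e e))
 (c (a (nat_lit 0x363aa124ca626))
 (c (a (nat_lit 0x1e2a8d0101a86a07)) e e)
 (c z e
 (c z e
 (c (a (nat_lit 0x114a87c1816006)) e
 (c (a (nat_lit 0x11ef0f8f4fc106)) e
 (c (a (nat_lit 0x13f43c57f493c7)) e
 (c (a (nat_lit 0x1b9ddedf9bcba6)) e
 (c (a (nat_lit 0x20b09d7db3f65)) e
 (c (a (nat_lit 0x948af91537d06)) e e)))))))))))))))))
 (c (a (nat_lit 0x2020202021))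
 (c (a (nat_lit 0xff60ee0202027)) e
 (c (a (nat_lit 0x1c30c020202427)) e
 (c (b (nat_lit 0x18c787879fffe7)) e
 (c (a (nat_lit 0x1212122fc32006)) e
 (c (a (nat_lit 0x1354ad2d0928a7)) e e)))))
 (c (a (nat_lit 0x2020202021))
 (c (a (nat_lit 0x1c002020286585)) e
 (c (b (nat_lit 0x19fa1a3fffffe4)) e e))
 (c (a (nat_lit 0x2020404021)) e
 (c (nat_lit 1)
 (c z e
 (c z e
 (c z e
 (c (a (nat_lit 0x388cc6044b0c6))
 (c (a (nat_lit 0x170cee0615074008)) e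
 (c (a (nat_lit 0x148e8d1880000008)) e e))
 (c (a (nat_lit 0xcce4209980b46))
 (c (a (nat_lit 0xa589bc000000007)) e e)
 (c z e
 (c z e
 (c z e
 (c z e
 (c z e
 (c z e
 (c (a (nat_lit 0x1e8c99c604006)) e
 (c (a (nat_lit 0x10d12e20000007)) e e)))))))))))))
 (c (a (nat_lit 0x4040404041))
 (c z e
 (c (a (nat_lit 0x14b170202466a6))
 (c z e
 (c (a (nat_lit 0x18d20ed555ee600a)) e e))
 (c (a (nat_lit 0x769c026f0bee6))
 (c (a (nat_lit 0xac71058eb800009)) e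
 (c (a (nat_lit 0xa90910000000009)) e e))
 (c (a (nat_lit 0x4e022e8eef6e7))
 (c (a (nat_lit 0x1413200000000007)) e e)
 (c z e
 (c z e
 (c z e
 (c z e
 (c z e
 (c (a (nat_lit 0x27848973d547)) e
 (c (a (nat_lit 0xa652ede600007)) e
 (c (a (nat_lit 0x19204000000005)) e e))))))))))))
 (c (a (nat_lit 0x2020203807))
 (c (a (nat_lit 0x1fa6e060413dc4))
 (c z e
 (c (a (nat_lit 0x94cce75ea400009)) e e))
 (c (a (nat_lit 0x2802060d07e46))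
 (c (a (nat_lit 0xa8cd44400000008)) e e)
 (c (a (nat_lit 0x14148eb758f47))
 (c (a (nat_lit 0x1ae0000000000007)) e e)
 (c z e
 (c z e
 (c z e
 (c z e
 (c (b (nat_lit 0x1fffffe73e1c48)) e
 (c (b (nat_lit 0x1ff2b21bc007)) e
 (c (a (nat_lit 0xcd5eb00000008)) e
 (c (a (nat_lit 0x15c00000000007)) e e)))))))))))
 (c (a (nat_lit 0x20202df486))
 (c (a (nat_lit 0x42524459523e6)) e
 (c (a (nat_lit 0x2c387f0a82a67)) e
 (c z e
 (c z e
 (c z e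
 (c (a (nat_lit 0x8250028b45228)) e
 (c (a (nat_lit 0x6e4c5adf88cc9)) e
 (c z e
 (c (a (nat_lit 0x18408000000002)) e e)))))))))
 (c (a (nat_lit 0x6069b129a7))
 (c (a (nat_lit 0x6e6ab4a4af1a7)) e
 (c z e
 (c z e
 (c z e
 (c (a (nat_lit 0x16366b442027)) e
 (c (a (nat_lit 0x882ecd4c92009)) e e))))))
 (c (b (nat_lit 0x1277d29fe6)) e
 (c (a (nat_lit 0xbba76e02006)) e
 (c (a (nat_lit 0x10d160202006))
 (c (b (nat_lit 0x5a51fe5144048)) e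
 (c (a (nat_lit 0x143854adc00009)) e e))
 (c (a (nat_lit 0x128020202086))
 (c (a (nat_lit 0x118a2420000009)) e e)
 (c (a (nat_lit 0x203838f865)) e
 (c (a (nat_lit 0xf0f11f1d8a7)) e
 (c (a (nat_lit 0x2c0404c12c6)) e
 (c (a (nat_lit 0x1618873ec06)) e
 (c z e
 (c z e
 (c z e
 (c (a (nat_lit 0x1402a0802003)) e
 (c (a (nat_lit 0xb2363210001)) e
 (c (a (nat_lit 0x302a1200001)) e
 (c (a (nat_lit 0x18000000001)) e e))))))))))))))))))))))))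
 (c (a (nat_lit 0x40404041))
 (c (a (nat_lit 0x2020202021))
 (c (a (nat_lit 0x1fd3a8e8c8cee5))
 (c (a (nat_lit 0x3c48528ca6a9745)) e
 (c (a (nat_lit 0xdc584848711f727))
 (c (a (nat_lit 0x1f4c48e8e9844f1448))
 (c (a (nat_lit 0x162ae80140000000000a)) e e)
 (c (a (nat_lit 0x11c3728960606fb408)) e e))
 (c z e
 (c z e
 (c z e
 (c z e
 (c z e
 (c z e
 (c z e
 (c z e
 (c (a (nat_lit 0x971cbb7b5a2a007)) e
 (c (a (nat_lit 0x2625a6880000007)) e e))))))))))))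
 (c (a (nat_lit 0x10e323232c0026))
 (c (a (nat_lit 0x2c0c3a98ad07328))
 (c (a (nat_lit 0x4e302226085a3f329)) e e)
 (c z e
 (c z e
 (c z e
 (c z e
 (c z e
 (c z e
 (c z e
 (c z e
 (c (a (nat_lit 0x190b626d80a00008)) e
 (c (a (nat_lit 0x1118c4000000006)) e e)))))))))))
 (c (a (nat_lit 0xe8e6e94470006)) e
 (c (b (nat_lit 0x14544cccffe126)) e
 (c z e
 (c z e
 (c z e
 (c z e
 (c z e
 (c (b (nat_lit 0xcaf539fe1c026)) e
 (c (a (nat_lit 0xa73152060cb85)) e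
 (c (a (nat_lit 0x13f49070915167)) e e))))))))))))
 (c (a (nat_lit 0x2040404021))
 (c (a (nat_lit 0x11b1b1b9d3a026))
 (c (a (nat_lit 0x1042bcd9b16dbe7))
 (c (a (nat_lit 0x3c28301e562e7b049)) e e)
 (c z e
 (c z e
 (c z e
 (c z e
 (c z e
 (c z e
 (c z e
 (c z e
 (c (a (nat_lit 0x11e12d8120000007)) e
 (c (a (nat_lit 0x1be1e00000000004)) e e)))))))))))
 (c z e
 (c z e
 (c z e
 (c z e
 (c z e
 (c z e
 (c z e
 (c z e
 (c (a (nat_lit 0x1633c3080cd167)) e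
 (c (a (nat_lit 0x11694dcc8fc868)) e e)))))))))))
 (c (a (nat_lit 0x4040404041)) e
 (c (a (nat_lit 0x4040404021)) e
 (c (a (nat_lit 0x20202037e7)) e
 (c (a (nat_lit 0x20203eb627)) e
 (c (a (nat_lit 0x10954b47)) e
 (c z e
 (c (a (nat_lit 0xa9049a02027)) e
 (c (a (nat_lit 0x186d00202006)) e
 (c (a (nat_lit 0x1b40202036c5))
 (c (b (nat_lit 0x11af7ffa410007)) e
 (c (a (nat_lit 0x10c4cfe0000008)) e e))
 (c (a (nat_lit 0x202036e085))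
 (c (a (nat_lit 0x9b2000000005)) e e)
 (c (a (nat_lit 0x2b2b35a5)) e
 (c z e
 (c z e
 (c z e
 (c z e
 (c z e
 (c z e
 (c (a (nat_lit 0xe9410202006)) e
 (c (a (nat_lit 0x130f20202006)) e
 (c (a (nat_lit 0x1d2020000005)) e e))))))))))))))))))))))
 (c (a (nat_lit 0x20202001))
 (c (a (nat_lit 0x2020202001))
 (c (a (nat_lit 0xfcfd25269ea26))
 (c (a (nat_lit 0x6c888ed6ae9b027))
 (c z e
 (c (a (nat_lit 0x4e424830405e69049)) e e))
 (c z e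
 (c z e
 (c z e
 (c z e
 (c (a (nat_lit 0xa51863f2f288927)) e
 (c z e
 (c z e
 (c z e
 (c (a (nat_lit 0x1d318ac000000006)) e e))))))))))
 (c z e
 (c z e
 (c z e
 (c z e
 (c z e
 (c z e
 (c z e
 (c z e
 (c (a (nat_lit 0x156466e851b066)) e
 (c (a (nat_lit 0x7082a366cc2e7)) e e)))))))))))
 (c (a (nat_lit 0x4040404041)) e
 (c (a (nat_lit 0x20202036e7)) e
 (c (a (nat_lit 0x20203759c7)) e
 (c (a (nat_lit 0x2035910da8)) e
 (c (a (nat_lit 0x15f86ec267)) e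
 (c (a (nat_lit 0x13170c002007)) e
 (c (a (nat_lit 0x15cc00202006)) e
 (c (a (nat_lit 0x1620202034e5))
 (c z e
 (c (a (nat_lit 0x1b8ef9ede48008)) e e))
 (c (a (nat_lit 0x2020351565))
 (c (b (nat_lit 0x1ffff122a00007)) e
 (c (a (nat_lit 0x16bd2000000006)) e e))
 (c (a (nat_lit 0x205d9df025))
 (c (a (nat_lit 0x18400000000003)) e e)
 (c z e
 (c z e
 (c z e
 (c z e
 (c z e
 (c z e
 (c z e
 (c (a (nat_lit 0x990a0202007)) e
 (c (a (nat_lit 0x1f0020200006)) e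
 (c (a (nat_lit 0x2000000001)) e e)))))))))))))))))))))
 C205)))) Tr.c Tr.e (nat_lit 0) C.cx C.cy
noncomputable def C207 : Tr := beta% (fun (c : Nat → Tr → Tr → Tr) (e : Tr) (z : Nat) (a b : Nat → Nat) =>
 (c (a (nat_lit 0x2020202021))
 (c (a (nat_lit 0x16e959125e5e6))
 (c z e
 (c z e
 (c z e
 (c z e
 (c z e
 (c z e
 (c z e
 (c (a (nat_lit 0x8534cd8ce0de106)) e e))))))))
 (c (a (nat_lit 0x18ff5c00202006))
 (c z e
 (c z e
 (c z e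
 (c z e
 (c z e
 (c z e
 (c z e
 (c z e
 (c (a (nat_lit 0xb8b4ced9469e068)) e e)))))))))
 (c (a (nat_lit 0x120c4020202146))
 (c z e
 (c z e
 (c z e
 (c z e
 (c (a (nat_lit 0x146728e284802648)) e e)))))
 (c (a (nat_lit 0x11652525262026)) e
 (c (a (nat_lit 0x17f7f9baaf61c5))
 (c z e
 (c z e
 (c (a (nat_lit 0xa2ad3d51f1269c8)) e e)))
 (c (b (nat_lit 0x13f3efcfdfe206))
 (c z e
 (c z e
 (c (a (nat_lit 0xaa9981d7a1e61e7)) e e)))
 (c z e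
 (c z e
 (c z e
 (c z e
 (c z e
 (c z e
 (c z e
 (c z e
 (c (a (nat_lit 0x11886c92b76ea6)) e e)))))))))))))))
 (c (a (nat_lit 0x2020202021))
 (c (a (nat_lit 0x138da343434865))
 (c z e
 (c z e
 (c z e
 (c z e
 (c z e
 (c (a (nat_lit 0x5152f088a004947)) e e))))))
 (c (a (nat_lit 0x16214141420005)) e
 (c (a (nat_lit 0x1918fadadb0225))
 (c z e
 (c z e
 (c (a (nat_lit 0x2454e88af887088)) e e)))
 (c (a (nat_lit 0x13b3b494a5e826)) e e))))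
 (c (a (nat_lit 0x2020202021))
 (c (a (nat_lit 0x1cfcfed4748ea4)) e
 (c (b (nat_lit 0x11b36d6d7fe046)) e
 (c z e
 (c z e
 (c z e
 (c z e
 (c z e
 (c z e
 (c z e
 (c z e
 (c z e
 (c z e
 (c z e
 (c (a (nat_lit 0x11a0c040402005)) e e))))))))))))))
 (c (a (nat_lit 0x2020202021))
 (c z e
 (c z e
 (c z e
 (c (a (nat_lit 0x4096b5c080a4))
 (c (a (nat_lit 0x51369e2eacc82c7)) e
 (c (a (nat_lit 0x1eb164d9cf000007)) e e))
 (c (a (nat_lit 0x135d500a2af04))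
 (c (a (nat_lit 0x4a270e940000007)) e e)
 (c (a (nat_lit 0x10d068cc304a45)) e
 (c z e
 (c z e
 (c z e
 (c z e
 (c z e
 (c (a (nat_lit 0x40678d9062a6)) e
 (c (a (nat_lit 0xb72584da00006)) e
 (c (a (nat_lit 0x1ef56000000005)) e e))))))))))))))
 (c (a (nat_lit 0x4040404041))
 (c z e
 (c (a (nat_lit 0xd44500c0d0e3))
 (c (a (nat_lit 0x1390caadc6a76809)) e
 (c (a (nat_lit 0x18b6b48b93750da9)) e
 (c (a (nat_lit 0x1456cdafaea00008)) e e)))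
 (c (a (nat_lit 0x14e32080d12183))
 (c (a (nat_lit 0x12f0475d9c24a007)) e
 (c (a (nat_lit 0x5650ed4a0000008)) e e))
 (c (a (nat_lit 0x1a0404882f684))
 (c (a (nat_lit 0xf0e14a000000007)) e e)
 (c (a (nat_lit 0x28286e5a7f2c6)) e
 (c z e
 (c z e
 (c z e
 (c z e
 (c (a (nat_lit 0x1c52a8a93c3c85)) e
 (c (a (nat_lit 0xccaacd1894007)) e
 (c (a (nat_lit 0x13171080000006)) e
 (c (a (nat_lit 0x1a600000000004)) e e)))))))))))))
 (c (nat_lit 1)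
 (c (a (nat_lit 0x1f88e2e1e76601))
 (c (a (nat_lit 0x130a0ba808688f88)) e
 (c (a (nat_lit 0x1cd5ec94d48fe008)) e
 (c (a (nat_lit 0x1725b08ac0000007)) e e)))
 (c (a (nat_lit 0x943008565d5c1))
 (c (a (nat_lit 0x1588593c4b600007)) e
 (c (a (nat_lit 0x45dd4a000000007)) e e))
 (c (a (nat_lit 0x402060655ea4))
 (c (a (nat_lit 0x1d7f200000000005)) e e)
 (c (a (nat_lit 0x8c5cc11b5d3e4)) e
 (c z e
 (c z e
 (c (a (nat_lit 0x1f03224e0bb25)) e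
 (c (a (nat_lit 0x10324f88e039c6)) e
 (c (a (nat_lit 0x345428146f087)) e
 (c (a (nat_lit 0xc8da67de00005)) e
 (c (a (nat_lit 0x1e68a000000004)) e e)))))))))))
 (c (a (nat_lit 0x9e9e9e9ea01))
 (c (a (nat_lit 0x1514d555389303)) e
 (c (a (nat_lit 0xb6bcc0ff2cec4)) e
 (c z e
 (c z e
 (c z e
 (c (a (nat_lit 0x13372f2030dfa6)) e
 (c (a (nat_lit 0x4e4238244f0e8)) e
 (c (a (nat_lit 0x8a706c6f04007)) e e))))))))
 (c (a (nat_lit 0x1010105b125))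
 (c (a (nat_lit 0xdee0e0fa475e4)) e
 (c z e
 (c z e
 (c z e
 (c (a (nat_lit 0x347e92a6fd1c7)) e
 (c (a (nat_lit 0xb4feb0fbe77e7)) e
 (c (a (nat_lit 0x14c986d9600006)) e
 (c (a (nat_lit 0x11e50000000005)) e e))))))))
 (c (a (nat_lit 0x2e2f0bffc64))
 (c z e
 (c z e
 (c z e
 (c z e
 (c z e
 (c (a (nat_lit 0x7c91320000007)) e
 (c (a (nat_lit 0x10e00000000005)) e e)))))))
 (c (a (nat_lit 0xb4a11f18906)) e
 (c (a (nat_lit 0xd751d4bcbc5))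
 (c (a (nat_lit 0x107412efe2ddc6)) e
 (c (a (nat_lit 0xd4ff0ad49a008)) e e))
 (c (a (nat_lit 0x1156c0202004))
 (c (a (nat_lit 0x1356f306a00007)) e e)
 (c (a (nat_lit 0x164020202024)) e
 (c (a (nat_lit 0xe6e0e2eee81)) e
 (c (a (nat_lit 0x1a7a608104a1)) e
 (c (a (nat_lit 0x3a0404095a4)) e
 (c (a (nat_lit 0x20556a44)) e
 (c (a (nat_lit 0x8c93e12f2a4)) e
 (c z e
 (c (a (nat_lit 0x1740a0402003)) e
 (c (a (nat_lit 0x644422263a1)) e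
 (c (a (nat_lit 0x1a04040a001)) e
 (c (a (nat_lit 0x40000001)) e e)))))))))))))))))))))))) Tr.c Tr.e (nat_lit 0) C.cx C.cy
noncomputable def C208 : Tr := beta% (fun (c : Nat → Tr → Tr → Tr) (e : Tr) (z : Nat) (a b : Nat → Nat) =>
 (c (a (nat_lit 0x2020202021))
 (c (a (nat_lit 0xc8c8c8c8c8421))
 (c z e
 (c (a (nat_lit 0x1212120eaf7face3))
 (c z e
 (c z e
 (c z e
 (c z e
 (c z e
 (c z e
 (c z e
 (c z e
 (c z e
 (c (a (nat_lit 0x24266062a8692a247)) e e))))))))))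
 (c (a (nat_lit 0x1f3f3898bd708b22))
 (c z e
 (c z e
 (c z e
 (c z e
 (c z e
 (c z e
 (c z e
 (c z e
 (c (a (nat_lit 0x28bc923e5f6232007)) e e)))))))))
 (c z e
 (c z e
 (c z e
 (c z e
 (c z e
 (c z e
 (c z e
 (c z e
 (c (a (nat_lit 0x15b6361555361667)) e
 (c z e
 (c (a (nat_lit 0x438283e027b8e4)) e
 (c (a (nat_lit 0x1e202a16023b505)) e e)))))))))))))))
 (c (a (nat_lit 0x2a2a2a2a71ae4))
 (c (a (nat_lit 0x10504f4f750f6e86))
 (c z e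
 (c z e
 (c z e
 (c z e
 (c (a (nat_lit 0x157a371979ee2d3487)) e e)))))
 (c z e
 (c z e
 (c z e
 (c (a (nat_lit 0x16a36122e1e70b43))
 (c z e
 (c z e
 (c z e
 (c (a (nat_lit 0x1013a8a94c7067e008)) e
 (c (a (nat_lit 0x19a7890d09a0000008)) e e)))))
 (c (a (nat_lit 0xbc10180ec6ff0a4))
 (c (a (nat_lit 0x18fb77736a4d37f287)) e
 (c (a (nat_lit 0x1938337151f2b75889)) e e))
 (c (a (nat_lit 0x30222c2e34858c5)) e
 (c (a (nat_lit 0x54626ada7534a45)) e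
 (c (a (nat_lit 0x4c633f1795c9b84)) e
 (c (a (nat_lit 0xc595eba7d79b824)) e
 (c z e
 (c (a (nat_lit 0xa2ba78950ec09e6)) e
 (c (a (nat_lit 0x6c788a6e91339a7)) e
 (c (a (nat_lit 0x303a583a6f06548)) e
 (c (a (nat_lit 0x5e7456693c00007)) e e)))))))))))))))
 (c (a (nat_lit 0x181818a331145))
 (c z e
 (c z e
 (c z e
 (c z e
 (c z e
 (c z e
 (c z e
 (c (b (nat_lit 0x580bff52d8c67c5)) e
 (c (a (nat_lit 0x990bbfdd00db365)) e
 (c z e
 (c (a (nat_lit 0xf2a080cecc77166)) e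
 (c (a (nat_lit 0x7064649eb095107)) e e))))))))))))
 (c (a (nat_lit 0x1616b14f323c5))
 (c z e
 (c z e
 (c z e
 (c z e
 (c z e
 (c z e
 (c (a (nat_lit 0x4a2ee7ad7d06605)) e
 (c z e
 (c z e
 (c (a (nat_lit 0x1e56ff17f1371205)) e e))))))))))
 (c (a (nat_lit 0x4cd9856e72725))
 (c z e
 (c z e
 (c z e
 (c z e
 (c z e
 (c z e
 (c (a (nat_lit 0x13ca6f7a946c51a5)) e e)))))))
 (c (a (nat_lit 0xb4bd303a3a3a5))
 (c z e
 (c z e
 (c z e
 (c (a (nat_lit 0xaabedacf1f50b26)) e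
 (c (a (nat_lit 0x824acb2d30a2666)) e
 (c (a (nat_lit 0x969d534ac16b066)) e e))))))
 (c (a (nat_lit 0xc722848282304))
 (c z e
 (c (a (nat_lit 0xdb2f15031963d87)) e
 (c (a (nat_lit 0x13eeca28f556ffe6)) e
 (c (a (nat_lit 0x72b4fd637fc7846)) e
 (c (a (nat_lit 0x165480ad2a66087)) e
 (c z e
 (c z e
 (c (a (nat_lit 0x18dfdc45a0000006)) e e))))))))
 (c (a (nat_lit 0x142a4a4a46c524))
 (c (a (nat_lit 0x706e767c5ed10a7)) e
 (c (a (nat_lit 0x84746854b3571a7)) e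
 (c (a (nat_lit 0x48642a8ae71cf27)) e e)))
 (c (a (nat_lit 0x103018a280e001))
 (c (a (nat_lit 0x701c30339cac8c5)) e
 (c (a (nat_lit 0x90483f09a3c6886)) e
 (c (a (nat_lit 0x505d0cac325eda7)) e e)))
 (c (a (nat_lit 0xe106745acdaa2))
 (c (a (nat_lit 0x44384f112e1ae46)) e e)
 (c (a (nat_lit 0xdcbf1f4b3ae64)) e
 (c z e
 (c z e
 (c (a (nat_lit 0xb302aaaaa8a64)) e
 (c (a (nat_lit 0x1b55d5f5b5a464)) e
 (c (a (nat_lit 0x13f4139393c5a4)) e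
 (c (a (nat_lit 0xa690aabccfda2)) e
 (c (a (nat_lit 0x3a44c64edf0e3)) e
 (c (a (nat_lit 0x1a9c3cb6e7643)) e
 (c z e
 (c (a (nat_lit 0xccc80000001)) e e)))))))))))))))))))))
 (c (nat_lit 1)
 (c (a (nat_lit 0x161616bd13086))
 (c (a (nat_lit 0x11d05075b1512ec6))
 (c z e
 (c z e
 (c z e
 (c z e
 (c (a (nat_lit 0x11f010b12c28092f28)) e
 (c z e
 (c (a (nat_lit 0x1bcf330732cab50e87)) e e)))))))
 (c z e
 (c z e
 (c z e
 (c (a (nat_lit 0x20e184ead78764))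
 (c z e
 (c z e
 (c z e
 (c (a (nat_lit 0xfaa890b1069e00009)) e e))))
 (c (a (nat_lit 0xe0c021e4e752a7))
 (c z e
 (c (a (nat_lit 0x14d2f071527434600a)) e
 (c z e
 (c (a (nat_lit 0xc6ed6800000000008)) e e))))
 (c (a (nat_lit 0x60e0e5c44d5227)) e
 (c (a (nat_lit 0x8747342bcc86)) e
 (c (a (nat_lit 0x2c9c991948f5886)) e
 (c z e
 (c z e
 (c z e
 (c (a (nat_lit 0x181834470896047)) e
 (c (a (nat_lit 0x465846cd8446008)) e
 (c (a (nat_lit 0x542233200000008)) e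
 (c (a (nat_lit 0x1305e00000000005)) e e))))))))))))))))
 (c (a (nat_lit 0x1616b1330a3e7)) e
 (c (a (nat_lit 0x16f76b4446467)) e
 (c (a (nat_lit 0xdd3f464c46467)) e
 (c (a (nat_lit 0x12350666666166))
 (c z e
 (c z e
 (c z e
 (c (a (nat_lit 0x569e82a2d245148)) e
 (c (a (nat_lit 0x8c98ef168c556c8)) e e)))))
 (c (b (nat_lit 0x13442424209fe6))
 (c z e
 (c (a (nat_lit 0x908c948cbb02e8a)) e
 (c (a (nat_lit 0xc0b478f3730edc8)) e
 (c (a (nat_lit 0xc2e933a51f148e8)) e e))))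
 (c (a (nat_lit 0x13939470af7166))
 (c (a (nat_lit 0x8e9490a6e0ad469)) e
 (c (a (nat_lit 0x846682e4dfed968)) e
 (c (a (nat_lit 0xb4a2c8a5f0ca0a8)) e e)))
 (c (a (nat_lit 0x4862180f76fa5))
 (c (a (nat_lit 0x2e3026d5b474427)) e
 (c (a (nat_lit 0x3a2c23ac7228128)) e e))
 (c (a (nat_lit 0xa45259f55cae5))
 (c (a (nat_lit 0x723de7880830867)) e e)
 (c z e
 (c z e
 (c z e
 (c (a (nat_lit 0x162e6dee6e4e66)) e
 (c (a (nat_lit 0xd2cf3332caa67)) e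
 (c (a (nat_lit 0x12d313332eeb67)) e
 (c (a (nat_lit 0x3c42e64ef98a4)) e
 (c (a (nat_lit 0x4a52549f685)) e e)))))))))))))))))
 C207))) Tr.c Tr.e (nat_lit 0) C.cx C.cy
noncomputable def C209 : Tr := beta% (fun (c : Nat → Tr → Tr → Tr) (e : Tr) (z : Nat) (a b : Nat → Nat) =>
 (c (a (nat_lit 0x202021))
 (c (a (nat_lit 0x20202021))
 (c (a (nat_lit 0x153580606042))
 (c (a (nat_lit 0x561660200002)) e e)
 (c (a (nat_lit 0x10201f622)) e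
 (c (a (nat_lit 0x202025d466)) e
 (c z e
 (c z e
 (c z e
 (c (a (nat_lit 0x167402204d27)) e
 (c (a (nat_lit 0x1f4ccd2dcfc7)) e
 (c (a (nat_lit 0x54898800002)) e
 (c (a (nat_lit 0x2000000001)) e e))))))))))
 (c (a (nat_lit 0x201667))
 (c (a (nat_lit 0x4060881b25)) e
 (c (a (nat_lit 0x50a6fd45487)) e
 (c z e
 (c z e
 (c z e
 (c (a (nat_lit 0x18312ad4e068)) e
 (c (a (nat_lit 0x19e94348e007)) e
 (c (a (nat_lit 0x116020000005)) e e))))))))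
 (c (a (nat_lit 0x20366627))
 (c (a (nat_lit 0x7ed6fd050a7)) e
 (c z e
 (c z e
 (c z e
 (c (a (nat_lit 0x81398124e28)) e
 (c (a (nat_lit 0x18bb7ea00007)) e
 (c (a (nat_lit 0x1e0000000006)) e e)))))))
 (c (a (nat_lit 0x55ffa2bc6)) e
 (c z e
 (c (b (nat_lit 0x104e3fe026)) e
 (c (a (nat_lit 0x1a60202005)) e
 (c (a (nat_lit 0x40203464)) e
 (c (a (nat_lit 0xe0b3e082)) e
 (c (a (nat_lit 0x1226001)) e
 (c (a (nat_lit 0x1640fb5c63)) e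
 (c z e
 (c (a (nat_lit 0x1f3e5ebf24)) e
 (c (a (nat_lit 0x616081)) e
 (c (a (nat_lit 0x40e060e1)) e
 (c (a (nat_lit 0x6120e1)) e
 (c (a (nat_lit 0x200001)) e e)))))))))))))))))
 (c (nat_lit 1)
 (c (a (nat_lit 0x20338566))
 (c (a (nat_lit 0xe0e2e3e6ee4)) e
 (c (a (nat_lit 0x5929b3ddd46)) e
 (c z e
 (c z e
 (c (a (nat_lit 0x6d209035068)) e
 (c (a (nat_lit 0x1163112d8947)) e
 (c (a (nat_lit 0xa8fbd800006)) e
 (c (a (nat_lit 0x1bc000000003)) e e))))))))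
 (c z
 (c (a (nat_lit 0x8d1d69adf67)) e
 (c z e
 (c z e
 (c (a (nat_lit 0x104a27f41e09)) e
 (c (a (nat_lit 0xa8b754ce009)) e
 (c (a (nat_lit 0x1afee0000007)) e e))))))
 (c z e
 (c (a (nat_lit 0xe74802005))
 (c (a (nat_lit 0x60ab086e1a9)) e
 (c (a (nat_lit 0x65a7ca68009)) e e))
 (c (a (nat_lit 0x1880202005))
 (c (a (nat_lit 0x16d941200008)) e e)
 (c (a (nat_lit 0x202f79e6)) e
 (c (a (nat_lit 0x20359a25)) e
 (c (a (nat_lit 0x3a4465e1)) e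
 (c (a (nat_lit 0x1a731659e3)) e
 (c z e
 (c (b (nat_lit 0x1fe0c385a1)) e
 (c (a (nat_lit 0x20e42301)) e
 (c (a (nat_lit 0x1c10001)) e
 (c (a (nat_lit 0xa120c341)) e
 (c (a (nat_lit 0xc0c10001)) e
 (c (nat_lit 1) e e))))))))))))))))
 (c (nat_lit 1)
 (c (a (nat_lit 0xb116f4d66))
 (c (a (nat_lit 0x7ef4dd19187)) e
 (c z e
 (c z e
 (c (a (nat_lit 0x4a975d222a9)) e
 (c (a (nat_lit 0xeb694a00008)) e
 (c (a (nat_lit 0x11e000000007)) e e))))))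
 (c (a (nat_lit 0x151654b4a7)) e
 (c (a (nat_lit 0x1120202004))
 (c (a (nat_lit 0x129eaf8e20a8)) e
 (c (a (nat_lit 0x11ee2500000a)) e e))
 (c (a (nat_lit 0x20205505))
 (c (a (nat_lit 0x14c2a0000009)) e e)
 (c (a (nat_lit 0x27747807)) e
 (c z e
 (c (a (nat_lit 0xdd1d1d1a7)) e
 (c z e
 (c (a (nat_lit 0x1939195945)) e
 (c (a (nat_lit 0x1026521)) e
 (c (a (nat_lit 0x12f373d584)) e
 (c (a (nat_lit 0x101a28001)) e
 (c (a (nat_lit 0x1a0e0e041)) e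
 (c (a (nat_lit 0x60400001)) e e))))))))))))))
 (c (a (nat_lit 0x2021))
 (c (a (nat_lit 0x17a0404002))
 (c z e
 (c (a (nat_lit 0x5db30244189)) e
 (c (a (nat_lit 0x1d9609200008)) e e)))
 (c (a (nat_lit 0x202054c5))
 (c (a (nat_lit 0x1ab4e7816009)) e
 (c (a (nat_lit 0x1084e000000a)) e e))
 (c (a (nat_lit 0x2a92a6))
 (c (a (nat_lit 0x1cc000000006)) e e)
 (c z e
 (c z e
 (c z e
 (c (a (nat_lit 0x1afababa85)) e
 (c (a (nat_lit 0x302c2a001)) e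
 (c (a (nat_lit 0x1bdbbb8004)) e
 (c (a (nat_lit 0x18a0606ca3)) e
 (c (a (nat_lit 0x20609943)) e
 (c (a (nat_lit 0x21006001)) e
 (c (a (nat_lit 0x40000001)) e e)))))))))))))
 (c (a (nat_lit 0x202021))
 (c (a (nat_lit 0x202ab2e5))
 (c (a (nat_lit 0x1f4b21600007)) e
 (c (a (nat_lit 0x148000000007)) e e))
 (c (a (nat_lit 0x3ed91b087)) e
 (c z e
 (c z e
 (c (a (nat_lit 0x1c9c3c5be5)) e
 (c (a (nat_lit 0x322c1c001)) e
 (c (a (nat_lit 0x11d1712004)) e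
 (c (a (nat_lit 0x154040a123)) e
 (c (a (nat_lit 0x20613be3)) e
 (c (a (nat_lit 0x21820221)) e
 (c (a (nat_lit 0x600001)) e e)))))))))))
 (c (nat_lit 1)
 (c (a (nat_lit 0xb52725227)) e
 (c z e
 (c (a (nat_lit 0x1a7a7a7a68)) e
 (c (a (nat_lit 0x80a05843)) e
 (c (a (nat_lit 0x80962da3)) e
 (c (a (nat_lit 0x19802042c4)) e
 (c (a (nat_lit 0x621481)) e
 (c (a (nat_lit 0x20c28f01)) e
 (c (a (nat_lit 0x600001)) e
 (c (a (nat_lit 0x20000001)) e e))))))))))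
 (c (a (nat_lit 0x202021))
 (c (a (nat_lit 0x1212121207)) e
 (c (a (nat_lit 0x16181e1)) e
 (c (a (nat_lit 0xe0c041)) e
 (c (a (nat_lit 0x608201)) e
 (c (a (nat_lit 0x60e08001)) e
 (c (a (nat_lit 0x1a040b302)) e
 (c (a (nat_lit 0xa0202021)) e
 (c (a (nat_lit 0x200001)) e e))))))))
 (c (a (nat_lit 0x202021))
 (c (a (nat_lit 0x160e021)) e
 (c (a (nat_lit 0xa040a321)) e
 (c (a (nat_lit 0x8100c301)) e
 (c (a (nat_lit 0x21c06001)) e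
 (c (a (nat_lit 0x1202001)) e
 (c (a (nat_lit 0x140608001)) e
 (c (a (nat_lit 0x40000001)) e e)))))))
 (c (a (nat_lit 0x202021))
 (c (a (nat_lit 0x202021)) e
 (c (a (nat_lit 0x20202021)) e
 (c (a (nat_lit 0x20202001)) e
 (c (a (nat_lit 0x20202021)) e
 (c (a (nat_lit 0x20200001)) e e)))))
 (c (a (nat_lit 0x202021))
 (c (a (nat_lit 0x20202001)) e
 (c (a (nat_lit 0x20202021)) e
 (c (a (nat_lit 0x20202001)) e
 (c (a (nat_lit 0x20000001)) e e))))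
 (c (a (nat_lit 0x202021))
 (c (a (nat_lit 0x20202021)) e
 (c (a (nat_lit 0x20200001)) e e))
 (c (a (nat_lit 0x202021))
 (c (a (nat_lit 0x20000001)) e e)
 (c (a (nat_lit 0x202001)) e
 (c (a (nat_lit 0x202021)) e
 (c (a (nat_lit 0x202021)) e
 (c (a (nat_lit 0x202001)) e
 (c (a (nat_lit 0x202021)) e
 (c (a (nat_lit 0xa1)) e
 (c (a (nat_lit 0x6021)) e
 (c (a (nat_lit 0x33a3)) e
 (c z e
 (c (a (nat_lit 0x13002003)) e
 (c (a (nat_lit 0xa00001)) e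
 (c (a (nat_lit 0xe08021)) e
 (c (a (nat_lit 0x1000001)) e e)))))))))))))))))))))))))) Tr.c Tr.e (nat_lit 0) C.cx C.cy
noncomputable def C210 : Tr := beta% (fun (c : Nat → Tr → Tr → Tr) (e : Tr) (z : Nat) (a b : Nat → Nat) =>
 (c (a (nat_lit 0x202021))
 (c (nat_lit 1)
 (c (a (nat_lit 0x104c8c710ac4))
 (c (a (nat_lit 0xacb3012286024)) e
 (c z e
 (c z e
 (c (b (nat_lit 0xf9ff65735f406)) e
 (c (a (nat_lit 0x11983347e24066)) e
 (c (a (nat_lit 0x8e7dc6d600005)) e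
 (c (a (nat_lit 0x1d130000000005)) e e)))))))
 (c z e
 (c (a (nat_lit 0x1122a0402003)) e
 (c (a (nat_lit 0x322c2630001))
 (c (a (nat_lit 0x1252dac2688007)) e
 (c (a (nat_lit 0xf94e040000008)) e e))
 (c (a (nat_lit 0x220e161e281))
 (c (a (nat_lit 0x10260000000007)) e e)
 (c (a (nat_lit 0x18b877ea4484)) e
 (c (a (nat_lit 0x54491d27727)) e
 (c (a (nat_lit 0xf1b092ade8)) e
 (c z e
 (c z e
 (c (a (nat_lit 0x14aac0808205)) e
 (c (a (nat_lit 0x108060608064)) e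
 (c (a (nat_lit 0x121000001)) e
 (c (nat_lit 1) e e))))))))))))))
 (c (nat_lit 1)
 (c (a (nat_lit 0x18ba18987864)) e
 (c (a (nat_lit 0x1708c2a44001))
 (c (b (nat_lit 0x1ffffff206af27)) e
 (c (a (nat_lit 0x9ca5a4806c008)) e e))
 (c (a (nat_lit 0x6071f1d1a6))
 (c (a (nat_lit 0x11734c86400007)) e
 (c (a (nat_lit 0x12286000000008)) e e))
 (c (b (nat_lit 0x103070929fe4))
 (c (a (nat_lit 0x1ea00000000006)) e e)
 (c z e
 (c z e
 (c z e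
 (c z e
 (c z e
 (c (a (nat_lit 0x7fc409e004)) e
 (c (a (nat_lit 0x1da243424002)) e
 (c (a (nat_lit 0x2e0000001)) e e))))))))))))
 (c (a (nat_lit 0x20202021))
 (c (a (nat_lit 0x4e10381c081))
 (c (a (nat_lit 0x173a83a38022)) e
 (c (a (nat_lit 0x3531320800006)) e e))
 (c (a (nat_lit 0x287a5658001))
 (c (a (nat_lit 0x16a7a540000007)) e e)
 (c (b (nat_lit 0x10d0a07feba6)) e
 (c z e
 (c z e
 (c z e
 (c z e
 (c z e
 (c (b (nat_lit 0xdb83fe06046)) e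
 (c (a (nat_lit 0x182040200006)) e
 (c (a (nat_lit 0x2000000001)) e e)))))))))))
 (c (a (nat_lit 0x40808181))
 (c (a (nat_lit 0x1b5b20905184))
 (c (a (nat_lit 0x1ffb8000000004)) e e)
 (c (a (nat_lit 0x7070d197326)) e
 (c z e
 (c z e
 (c z e
 (c z e
 (c z e
 (c (a (nat_lit 0x535c04005)) e
 (c (a (nat_lit 0x14c180000003)) e e)))))))))
 (c (a (nat_lit 0x40406061))
 (c (a (nat_lit 0x96e524eef27)) e
 (c z e
 (c (a (nat_lit 0x7a668f24ac8)) e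
 (c (a (nat_lit 0xe8e6d330a68)) e
 (c z e
 (c z e
 (c (b (nat_lit 0x1ff122400005)) e e)))))))
 (c (a (nat_lit 0x203c66))
 (c (a (nat_lit 0xbb1722be027)) e
 (c (a (nat_lit 0xe10d9eb4d87)) e
 (c (a (nat_lit 0xee6bdeb01c7)) e e)))
 (c (a (nat_lit 0x203d5c86))
 (c (a (nat_lit 0x3c27f4dde46)) e
 (c (a (nat_lit 0x148a787d909)) e e))
 (c z
 (c (a (nat_lit 0x44684eeb4e9)) e e)
 (c z e
 (c (a (nat_lit 0x1d4dc02005)) e
 (c (a (nat_lit 0x1260202004)) e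
 (c (a (nat_lit 0x120a08021)) e
 (c (a (nat_lit 0x1c3ca0a123)) e
 (c (a (nat_lit 0x1080e06b23)) e
 (c (a (nat_lit 0xe075d3c3)) e
 (c z e
 (c (a (nat_lit 0x123171b185)) e
 (c (a (nat_lit 0x1616001)) e
 (c (a (nat_lit 0x383410021)) e
 (c (a (nat_lit 0x501200001)) e e))))))))))))))))))))
 (c (nat_lit 1)
 (c (a (nat_lit 0x40202021))
 (c (a (nat_lit 0x461a0808061))
 (c (a (nat_lit 0x12806b46108ec4)) e
 (c (b (nat_lit 0x1fef5ff2b3e925)) e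
 (c (a (nat_lit 0x104d2081e0a006)) e
 (c (a (nat_lit 0x1473d0a0000006)) e e))))
 (c (a (nat_lit 0x3a10281a081))
 (c (a (nat_lit 0x160a9b940a045)) e
 (c (a (nat_lit 0x17a97420400007)) e e))
 (c (a (nat_lit 0x21c12121a1))
 (c (a (nat_lit 0x58c740000004)) e e)
 (c (a (nat_lit 0x119180402905)) e
 (c z e
 (c z e
 (c z e
 (c z e
 (c (a (nat_lit 0x16179760a028)) e
 (c (a (nat_lit 0x19b6e0a06024)) e
 (c (a (nat_lit 0x1700e0600004)) e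
 (c (a (nat_lit 0x34000000001)) e e))))))))))))
 (c (a (nat_lit 0x20202001))
 (c (a (nat_lit 0x182a28321))
 (c (a (nat_lit 0x16863ec1004004)) e
 (c (a (nat_lit 0xf5f2f40000006)) e e))
 (c (a (nat_lit 0x1dddc06080c5))
 (c (a (nat_lit 0x182b2000000006)) e e)
 (c (a (nat_lit 0xc4c6c6df206)) e
 (c z e
 (c z e
 (c z e
 (c z e
 (c (a (nat_lit 0xe30650021a9)) e
 (c (a (nat_lit 0x17478047c006)) e
 (c (a (nat_lit 0x3e0000001)) e e))))))))))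
 (c (nat_lit 1)
 (c (a (nat_lit 0x407b2ae4)) e
 (c (a (nat_lit 0xa2a7254f966)) e
 (c z e
 (c z e
 (c z e
 (c z e
 (c (a (nat_lit 0x120dca658d08)) e
 (c (a (nat_lit 0x101360200006)) e
 (c (a (nat_lit 0x184000000005)) e e)))))))))
 (c (a (nat_lit 0x20203a46))
 (c (a (nat_lit 0xa71d1d3be47)) e
 (c z e
 (c z e
 (c z e
 (c z e
 (c (a (nat_lit 0x2ec14ae0009)) e
 (c (a (nat_lit 0x110a60000008)) e e)))))))
 (c (a (nat_lit 0x203be606)) e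
 (c (a (nat_lit 0x3eea6707)) e
 (c z e
 (c (a (nat_lit 0x1713a02005)) e
 (c (a (nat_lit 0x12e0202005)) e
 (c (a (nat_lit 0x40208701)) e
 (c (a (nat_lit 0x60822001)) e
 (c (a (nat_lit 0x6a1228001)) e
 (c (a (nat_lit 0x101615a4)) e
 (c z e
 (c (a (nat_lit 0x80040a161)) e
 (c (a (nat_lit 0xc060c101)) e
 (c (a (nat_lit 0x1204001)) e
 (c (a (nat_lit 0x120202001)) e
 (c (nat_lit 1) e e)))))))))))))))))))
 C209))) Tr.c Tr.e (nat_lit 0) C.cx C.cy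
noncomputable def C211 : Tr := beta% (fun (c : Nat → Tr → Tr → Tr) (e : Tr) (z : Nat) (a b : Nat → Nat) =>
 (c (a (nat_lit 0x202021))
 (c (a (nat_lit 0xb59b7ecace7))
 (c z e
 (c z e
 (c z e
 (c z e
 (c z e
 (c (a (nat_lit 0x1c9d16999db5c7)) e
 (c (a (nat_lit 0x1152b0517153e7)) e
 (c (a (nat_lit 0x485a5458673e9)) e
 (c (a (nat_lit 0x84c492b1d2be8)) e
 (c (a (nat_lit 0x32264b1e742e9)) e e))))))))))
 (c (a (nat_lit 0x18b6e704a3a8))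
 (c z e
 (c z e
 (c z e
 (c z e
 (c z e
 (c z e
 (c (a (nat_lit 0x463e3c5764069)) e e)))))))
 (c (a (nat_lit 0x1a02a0202026))
 (c (a (nat_lit 0x23464e0622207))
 (c (a (nat_lit 0x110b41e5c4c00007)) e e)
 (c z e
 (c z e
 (c z e
 (c (a (nat_lit 0x7484595c007)) e
 (c (b (nat_lit 0xe28373dfe169)) e
 (c (a (nat_lit 0x105584d6926c9)) e
 (c (a (nat_lit 0x411b306400009)) e e))))))))
 (c (a (nat_lit 0x1e6040404163))
 (c z e
 (c z e
 (c z e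
 (c (a (nat_lit 0x7a145f9724068)) e e))))
 (c (a (nat_lit 0x60606af683))
 (c (a (nat_lit 0x4e5c0821737c7)) e
 (c z e
 (c (b (nat_lit 0x3e79d9fffffe8)) e e)))
 (c (a (nat_lit 0x12d5d57594c7))
 (c z e
 (c (a (nat_lit 0x1b9b9723a0a788)) e e))
 (c z e
 (c z e
 (c (a (nat_lit 0x1af67615f1e6)) e
 (c (a (nat_lit 0x15d5959190a6)) e
 (c (a (nat_lit 0x64656341628)) e
 (c z e
 (c z e
 (c (a (nat_lit 0x3f012328907)) e
 (c (a (nat_lit 0x123657442026)) e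
 (c (a (nat_lit 0x165724202026)) e
 (c (a (nat_lit 0x134040200006)) e
 (c (a (nat_lit 0x104000000004)) e e))))))))))))))))))
 (c (a (nat_lit 0x40404041))
 (c (a (nat_lit 0x1549e9052527))
 (c (a (nat_lit 0x1098b326e5c5e6))
 (c (a (nat_lit 0x2f1a1c5baf02da5)) e
 (c (a (nat_lit 0x190b036be90c0007)) e e))
 (c (a (nat_lit 0x133c460180a987))
 (c (a (nat_lit 0x1a3da6286dc00007)) e e)
 (c z e
 (c z e
 (c z e
 (c (a (nat_lit 0x4f9552aea047)) e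
 (c z e
 (c (b (nat_lit 0x1309fe28029)) e
 (c (a (nat_lit 0x94d1a8c00009)) e e)))))))))
 (c (a (nat_lit 0x1420606080a4))
 (c (a (nat_lit 0x1ea6e0c0a8c007))
 (c (a (nat_lit 0x11c0e383c0000008)) e e)
 (c z e
 (c z e
 (c z e
 (c (b (nat_lit 0x2c541f59fe2a9)) e
 (c (b (nat_lit 0x12191bfe5a1ca)) e
 (c (b (nat_lit 0x3d3ffea22400a)) e
 (c (a (nat_lit 0x144d092000000a)) e e))))))))
 (c (a (nat_lit 0x60a1523923)) e
 (c (a (nat_lit 0xf3c53525266)) e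
 (c z e
 (c z e
 (c (a (nat_lit 0x13abcb2b0706)) e
 (c (a (nat_lit 0x199878500ac5)) e
 (c (a (nat_lit 0xbabb8763108)) e
 (c z e
 (c z e
 (c z e
 (c z e
 (c (a (nat_lit 0xf1142002287)) e
 (c (a (nat_lit 0x112200214007)) e
 (c (a (nat_lit 0x17c0e0000002)) e e))))))))))))))))
 (c (a (nat_lit 0x2021))
 (c (a (nat_lit 0x12d2f3330b24))
 (c (a (nat_lit 0x168a5253cc2005)) e
 (c z e
 (c z e
 (c z e
 (c z e
 (c (b (nat_lit 0x5b15fe9a6c6a9)) e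
 (c (a (nat_lit 0x114aae84a00008)) e
 (c (a (nat_lit 0x18492000000008)) e e))))))))
 (c (b (nat_lit 0x10d7bff023a5)) e
 (c z e
 (c z e
 (c (a (nat_lit 0x13f02fefede7))
 (c (a (nat_lit 0x1e4e8d25200006)) e e)
 (c (a (nat_lit 0x1715f5ad88e5)) e
 (c (a (nat_lit 0xfafbcbb9e47)) e
 (c (a (nat_lit 0xa323233d1e8)) e
 (c z e
 (c z e
 (c z e
 (c z e
 (c (a (nat_lit 0x17e200602027)) e
 (c (a (nat_lit 0x1d4360400003)) e
 (c (a (nat_lit 0x110000000001)) e e)))))))))))))))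
 (c (a (nat_lit 0x20202001))
 (c z e
 (c z e
 (c (a (nat_lit 0x116848482065))
 (c (b (nat_lit 0x1ffd1fffea4627)) e
 (c (b (nat_lit 0x16a4bfed600007)) e e))
 (c (a (nat_lit 0x1bdb5b135365))
 (c (a (nat_lit 0x10531980000005)) e e)
 (c (b (nat_lit 0x242303ff167)) e
 (c z e
 (c z e
 (c z e
 (c z e
 (c z e
 (c z e
 (c (a (nat_lit 0x1ea220402005)) e
 (c (a (nat_lit 0x1021a0000002)) e e)))))))))))))
 (c (a (nat_lit 0x20204061))
 (c (a (nat_lit 0x14f453b3d005))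
 (c z e
 (c (b (nat_lit 0x1ffffb5fe08567)) e
 (c (a (nat_lit 0xdda94a5400006)) e e)))
 (c (a (nat_lit 0x1b7e5d01ddc3))
 (c (b (nat_lit 0x134fff66a8006)) e
 (c (a (nat_lit 0xd31cee0000007)) e e))
 (c (a (nat_lit 0x5c583ecf206))
 (c (a (nat_lit 0x17866000000007)) e e)
 (c z e
 (c z e
 (c z e
 (c z e
 (c z e
 (c z e
 (c z e
 (c (b (nat_lit 0x1ff840600003)) e e)))))))))))
 (c (a (nat_lit 0x60606081))
 (c (a (nat_lit 0x1231ea76c824))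
 (c (b (nat_lit 0x1ffff8c9800005)) e
 (c (a (nat_lit 0x10ea8000000007)) e e))
 (c (a (nat_lit 0xfcf11d1b487))
 (c (a (nat_lit 0x12a00000000006)) e e)
 (c z e
 (c z e
 (c (a (nat_lit 0x14fa7a492c27)) e
 (c (a (nat_lit 0x54510d12348)) e e))))))
 (c (a (nat_lit 0x40404041))
 (c (a (nat_lit 0xbd691960d46)) e
 (c z e
 (c (a (nat_lit 0xc1572c07246)) e
 (c (a (nat_lit 0x1f9cca06a006)) e
 (c (a (nat_lit 0x100f1a749688)) e e)))))
 (c (a (nat_lit 0xc0c0a0a1))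
 (c (b (nat_lit 0x1fed0827d324)) e
 (c (a (nat_lit 0x928c0908006)) e
 (c (a (nat_lit 0x118cca6e4007)) e e)))
 (c (a (nat_lit 0x80806061))
 (c (a (nat_lit 0x11005ab4c8c5)) e
 (c (a (nat_lit 0x1258dec4fd46)) e e))
 (c (a (nat_lit 0x20203e26))
 (c (a (nat_lit 0xbd0064cbb27)) e
 (c z e
 (c z e
 (c (a (nat_lit 0x1b7fc0000006)) e e))))
 (c (a (nat_lit 0x1e5e45)) e
 (c (a (nat_lit 0xcb2114bc9)) e
 (c z e
 (c (a (nat_lit 0x1c32d25247)) e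
 (c (a (nat_lit 0x1060404023)) e
 (c (a (nat_lit 0x100e0a081)) e
 (c (a (nat_lit 0x404095c3)) e
 (c (a (nat_lit 0xe1224f81)) e
 (c (a (nat_lit 0x10330e4e46)) e
 (c z e
 (c (a (nat_lit 0x17d6d70764)) e
 (c (a (nat_lit 0x82a021)) e
 (c (a (nat_lit 0x1120800004)) e e)))))))))))))))))))))))) Tr.c Tr.e (nat_lit 0) C.cx C.cy
noncomputable def C212 : Tr := beta% (fun (c : Nat → Tr → Tr → Tr) (e : Tr) (z : Nat) (a b : Nat → Nat) =>
 (c (a (nat_lit 0x20202021))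
 (c (a (nat_lit 0x2020203586))
 (c (a (nat_lit 0x1b793a989736a6))
 (c (a (nat_lit 0x11f1f23193f40f47)) e
 (c z e
 (c z e
 (c z e
 (c z e
 (c z e
 (c (a (nat_lit 0x1bd073705171a907)) e
 (c (a (nat_lit 0x139492d98d200007)) e
 (c (a (nat_lit 0x197f784000000006)) e e)))))))))
 (c z e
 (c z e
 (c z e
 (c z e
 (c z e
 (c (a (nat_lit 0x10a140c52e8003)) e
 (c (a (nat_lit 0x844674a1a2404)) e
 (c (a (nat_lit 0x9753e75dbae05)) e
 (c (a (nat_lit 0x1455f7b9196826)) e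
 (c (a (nat_lit 0x14571e56540026)) e e)))))))))))
 (c (a (nat_lit 0x2020339028)) e
 (c (a (nat_lit 0x203eb70948)) e
 (c z e
 (c (b (nat_lit 0x116d1fe02028)) e
 (c (a (nat_lit 0x1b2320202006)) e
 (c (a (nat_lit 0xde0a06032c3)) e
 (c (a (nat_lit 0x6060669205))
 (c (b (nat_lit 0x11bb9f101fe707)) e
 (c z e
 (c (a (nat_lit 0x532ea86400008)) e
 (c (a (nat_lit 0x10816000000008)) e e))))
 (c (a (nat_lit 0xe8eae77d5a6))
 (c (a (nat_lit 0x7b2c75f0fa006)) e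
 (c (a (nat_lit 0x1867e700000008)) e
 (c (a (nat_lit 0x14e00000000002)) e e)))
 (c (a (nat_lit 0x139358b84f67))
 (c (a (nat_lit 0x11862000000007)) e e)
 (c (a (nat_lit 0x1192f7114f07)) e
 (c z e
 (c z e
 (c z e
 (c z e
 (c z e
 (c (a (nat_lit 0x1496e8684865)) e
 (c (a (nat_lit 0x1d808080c0a4)) e
 (c (a (nat_lit 0x3e1e00001)) e
 (c (a (nat_lit 0x2000000001)) e e))))))))))))))))))))
 (c (a (nat_lit 0x40404041))
 (c (a (nat_lit 0x203b360648)) e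
 (c (a (nat_lit 0x3b36678529)) e
 (c (a (nat_lit 0x10cfe1202029)) e
 (c (a (nat_lit 0x18e2a0202027)) e
 (c (a (nat_lit 0x102020202225)) e
 (c (a (nat_lit 0x96969db7e06)) e
 (c (a (nat_lit 0x141553589367)) e
 (c z e
 (c z e
 (c (a (nat_lit 0x161d45c16865)) e
 (c (a (nat_lit 0x882d0725227)) e
 (c z e
 (c z e
 (c z e
 (c z e
 (c (a (nat_lit 0x106141404005)) e
 (c (a (nat_lit 0x86fa4418001)) e
 (c (a (nat_lit 0x13a2c0000001)) e e))))))))))))))))))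
 (c (a (nat_lit 0x20202021))
 (c (a (nat_lit 0x15b5a822e108)) e
 (c (a (nat_lit 0x1b8624002027))
 (c (b (nat_lit 0x1ff04460202028))
 (c (a (nat_lit 0x111aa300c3a00008)) e e)
 (c z e
 (c z e
 (c z e
 (c z e
 (c z e
 (c (b (nat_lit 0x1ffff39fe480aa)) e
 (c (a (nat_lit 0x18700700000a)) e e))))))))
 (c (a (nat_lit 0x198040202b64)) e
 (c (a (nat_lit 0x40404e1445)) e
 (c (a (nat_lit 0xe4ade9805)) e
 (c z e
 (c z e
 (c (a (nat_lit 0x12f7cc0981c6)) e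
 (c (a (nat_lit 0xc49735170c8)) e
 (c z e
 (c z e
 (c z e
 (c z e
 (c z e
 (c (a (nat_lit 0x1470e0c02027)) e
 (c (a (nat_lit 0x10e020200007)) e
 (c (a (nat_lit 0x8000000001)) e e)))))))))))))))))
 (c (a (nat_lit 0x20204041))
 (c (a (nat_lit 0x1aa080607502))
 (c (a (nat_lit 0x13e8c044e38026))
 (c (a (nat_lit 0x1744692360000006)) e e)
 (c z e
 (c z e
 (c z e
 (c z e
 (c z e
 (c (a (nat_lit 0xc52b14d074008)) e
 (c (a (nat_lit 0x10cd28e0000008)) e e))))))))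
 (c (b (nat_lit 0x20205ff065)) e
 (c z e
 (c z e
 (c z e
 (c z e
 (c (a (nat_lit 0xac7cd6d7388)) e
 (c (a (nat_lit 0x670775a5308)) e
 (c z e
 (c z e
 (c z e
 (c z e
 (c (a (nat_lit 0x1529244447)) e
 (c (a (nat_lit 0x110500202007)) e
 (c (a (nat_lit 0x138020000005)) e e)))))))))))))))
 (c (a (nat_lit 0x20202021))
 (c (b (nat_lit 0xacf1ff44565)) e
 (c z e
 (c z e
 (c (a (nat_lit 0x95307250106))
 (c (a (nat_lit 0x70df2a000006)) e e) e))))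
 (c (a (nat_lit 0x40404041))
 (c z e
 (c (a (nat_lit 0xcf529e7c386))
 (c (b (nat_lit 0x1c4dbfffe26587)) e
 (c (a (nat_lit 0xa7d4a6e00008)) e e))
 (c (a (nat_lit 0x108aef6c2987))
 (c (a (nat_lit 0x5b70560000008)) e e) e)))
 (c (a (nat_lit 0x60604041))
 (c (a (nat_lit 0x1bf17655c125))
 (c (a (nat_lit 0x1e4bea06672006)) e
 (c (a (nat_lit 0x33da720000006)) e e))
 (c (a (nat_lit 0xeb952ee7c66))
 (c (a (nat_lit 0x1e068000000007)) e e)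
 (c z e
 (c z e
 (c (a (nat_lit 0x18df54a062e6)) e
 (c (b (nat_lit 0xc62f0d2dfe6)) e
 (c (b (nat_lit 0x847f5bff6a8)) e e)))))))
 (c (a (nat_lit 0x206081))
 (c (a (nat_lit 0x1c5d3d5d6e86))
 (c (a (nat_lit 0x1ae00000000004)) e e)
 (c z e
 (c (a (nat_lit 0x592284565c6)) e
 (c (a (nat_lit 0x1ca5a2218045)) e
 (c (a (nat_lit 0xeb4fcd5b307)) e e)))))
 (c (a (nat_lit 0x40604061))
 (c (a (nat_lit 0x2ec26a571e6)) e
 (c (a (nat_lit 0x1ba3413b3025)) e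
 (c (b (nat_lit 0xe4cd9733fe6)) e e)))
 (c (a (nat_lit 0x20202001))
 (c (a (nat_lit 0xae7eb356224)) e
 (c (a (nat_lit 0x1a0b114dcb86)) e e))
 (c (a (nat_lit 0x202021))
 (c (a (nat_lit 0x3aa116721e6)) e e)
 (c (a (nat_lit 0x20203ea5)) e
 (c (a (nat_lit 0x1898a5))
 (c (b (nat_lit 0x1fe036e00006)) e
 (c (a (nat_lit 0x6000000001)) e e))
 (c (a (nat_lit 0xd17574ea8)) e
 (c z e
 (c (a (nat_lit 0x12a868c8c7)) e
 (c (b (nat_lit 0x1fe0a04001)) e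
 (c (a (nat_lit 0x40203423)) e
 (c (a (nat_lit 0x205365)) e
 (c (a (nat_lit 0x3353e5)) e
 (c (b (nat_lit 0x323fe5)) e
 (c z e
 (c (a (nat_lit 0x1f04402025)) e
 (c (a (nat_lit 0x1020402003)) e
 (c (a (nat_lit 0x20000001)) e e)))))))))))))))))))))))))) Tr.c Tr.e (nat_lit 0) C.cx C.cy
noncomputable def C213 : Tr := beta% (fun (c : Nat → Tr → Tr → Tr) (e : Tr) (z : Nat) (a b : Nat → Nat) =>
 (c (a (nat_lit 0x20202021))
 (c (a (nat_lit 0x2020202021))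
 (c (a (nat_lit 0x1ef89c7d4e61a6))
 (c (a (nat_lit 0x98a2b0a0b8fb3e8))
 (c (a (nat_lit 0x86a8c474570d76b88)) e e)
 (c z e
 (c z e
 (c z e
 (c z e
 (c (a (nat_lit 0x86db289c4622369)) e
 (c z e
 (c (a (nat_lit 0x1c19ee0e186a4008)) e
 (c (a (nat_lit 0xf45a8d000000008)) e e)))))))))
 (c z e
 (c z e
 (c z e
 (c z e
 (c z e
 (c z e
 (c (a (nat_lit 0x15484ae2e6cce7)) e
 (c (a (nat_lit 0x103dafb63c62e6)) e
 (c (a (nat_lit 0x138c2c7307ebc7)) e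
 (c (a (nat_lit 0x13b077f3ee2f88)) e e)))))))))))
 (c (a (nat_lit 0x2020203229)) e
 (c (a (nat_lit 0x2033edc9)) e
 (c (a (nat_lit 0x2038b3c7e9)) e
 (c z e
 (c (a (nat_lit 0x1e5ca9e02008)) e
 (c (a (nat_lit 0x1a2460202027)) e
 (c (a (nat_lit 0x88060405184))
 (c (b (nat_lit 0x28cd322cdfe8)) e
 (c z e
 (c (b (nat_lit 0x11835fe721e009)) e
 (c (a (nat_lit 0x11aa0220000009)) e e))))
 (c (a (nat_lit 0x2020243b86))
 (c (a (nat_lit 0x1e6e850b0b8a48)) e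
 (c (a (nat_lit 0x1d817f09000007)) e
 (c (a (nat_lit 0x142000000007)) e e)))
 (c (a (nat_lit 0x105090de7ce7))
 (c (a (nat_lit 0xbfb24a0000007)) e
 (c (a (nat_lit 0x14000000000008)) e e))
 (c (a (nat_lit 0xb4c3111af29)) e
 (c z e
 (c z e
 (c z e
 (c z e
 (c z e
 (c z e
 (c (a (nat_lit 0x11cbea650508)) e
 (c (a (nat_lit 0x1bd5a1e02006)) e
 (c (a (nat_lit 0x1721c0000006)) e e))))))))))))))))))))
 (c (a (nat_lit 0x40402041))
 (c (a (nat_lit 0x20203c9b87))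
 (c z e
 (c z e
 (c z e
 (c z e
 (c z e
 (c (b (nat_lit 0x141064a9ffe007)) e
 (c (a (nat_lit 0x19529212b1b028)) e e)))))))
 (c (a (nat_lit 0x203a56e9c9)) e
 (c z e
 (c (a (nat_lit 0x118b62a02029)) e
 (c (a (nat_lit 0x1d4660202007)) e
 (c (a (nat_lit 0x15e040402c85)) e
 (c (a (nat_lit 0x606069d8a6)) e
 (c (b (nat_lit 0x22fff656e7)) e
 (c z e
 (c z e
 (c z e
 (c z e
 (c z e
 (c z e
 (c z e
 (c z e
 (c (a (nat_lit 0x12ad21002007)) e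
 (c (a (nat_lit 0x1a6220200006)) e
 (c (a (nat_lit 0x1e8000000002)) e e)))))))))))))))))))
 (c (nat_lit 1)
 (c (a (nat_lit 0x1a396d26a8)) e
 (c (a (nat_lit 0x13b2c7220109)) e
 (c (a (nat_lit 0x1d0964002007)) e
 (c (a (nat_lit 0x1cc0202023c5)) e
 (c (a (nat_lit 0x2020277226)) e
 (c (b (nat_lit 0x5ff3b5a6)) e
 (c z e
 (c z e
 (c z e
 (c z e
 (c z e
 (c z e
 (c z e
 (c z e
 (c (a (nat_lit 0x1ff8e7202006)) e
 (c (a (nat_lit 0x18e720202006)) e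
 (c (a (nat_lit 0x1c60a0000004)) e e)))))))))))))))))
 (c (nat_lit 1)
 (c (a (nat_lit 0x1787e0202006))
 (c z e
 (c z e
 (c z e
 (c z e
 (c z e
 (c z e
 (c z e
 (c (a (nat_lit 0x25be27600008)) e e))))))))
 (c (a (nat_lit 0x19e020202425)) e
 (c (a (nat_lit 0x2020263086)) e
 (c (a (nat_lit 0x467e60f3027)) e
 (c z e
 (c z e
 (c z e
 (c z e
 (c z e
 (c z e
 (c z e
 (c z e
 (c z e
 (c (a (nat_lit 0x7a93cc0c07)) e
 (c (a (nat_lit 0x1d2f80200006)) e e)))))))))))))))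
 (c (a (nat_lit 0x20202021))
 (c (b (nat_lit 0x1fe02f901467)) e
 (c (b (nat_lit 0x7679ffb17c6)) e e))
 (c (a (nat_lit 0x40404041))
 (c z e
 (c z e
 (c z e
 (c z e
 (c z e
 (c z e
 (c z e
 (c (a (nat_lit 0x16b4c8e4ede6)) e
 (c (a (nat_lit 0x9c8062455a7)) e e)))))))))
 (c (a (nat_lit 0x20000001))
 (c (a (nat_lit 0xf9113e7c5a6))
 (c (b (nat_lit 0xa7bdfef818486)) e
 (c (b (nat_lit 0x77ff2e0c00007)) e e))
 (c (a (nat_lit 0x12368aa9d0e7))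
 (c (a (nat_lit 0x7d85e0000007)) e e)
 (c z e
 (c z e
 (c z e
 (c z e
 (c (b (nat_lit 0x136e6e6edfe7)) e
 (c (a (nat_lit 0x7c8ca205487)) e e))))))))
 (c (a (nat_lit 0xa0808081))
 (c (a (nat_lit 0x14ae4e7270a7))
 (c (a (nat_lit 0x1063c000000007)) e e)
 (c z e
 (c (a (nat_lit 0x117eccc04366)) e
 (c (a (nat_lit 0x11ef02c5e006)) e
 (c (a (nat_lit 0xf3014ef0828)) e e)))))
 (c (a (nat_lit 0x80a0a0c1))
 (c (a (nat_lit 0xab126806286)) e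
 (c (a (nat_lit 0xf186d4aec86)) e
 (c (a (nat_lit 0x10cb6b8a0307)) e e)))
 (c (a (nat_lit 0x20202021))
 (c (a (nat_lit 0x1d71716ae005)) e
 (c (a (nat_lit 0x1149ea0a2587)) e e))
 (c (a (nat_lit 0x20202041))
 (c (a (nat_lit 0x46b8bb42a5)) e e)
 (c (a (nat_lit 0x2021))
 (c z e
 (c z e
 (c (b (nat_lit 0x1ff020200004)) e
 (c (a (nat_lit 0x190000000003)) e e))))
 (c (a (nat_lit 0x20201845))
 (c (a (nat_lit 0x80a33202007)) e
 (c (a (nat_lit 0x320000001)) e e))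
 (c (a (nat_lit 0xd8d9a9867))
 (c (a (nat_lit 0x1b0000000005)) e e)
 (c (a (nat_lit 0x494710707)) e
 (c z e
 (c (a (nat_lit 0x1a04c42426)) e
 (c (a (nat_lit 0x1480e08001)) e
 (c (a (nat_lit 0x40203ae2)) e
 (c (a (nat_lit 0x202031e6)) e
 (c (a (nat_lit 0x2033b806)) e
 (c z e
 (c z e
 (c (a (nat_lit 0x17f6202026)) e
 (c (a (nat_lit 0x1620200006)) e e)))))))))))))))))))))))))) Tr.c Tr.e (nat_lit 0) C.cx C.cy
noncomputable def C214 : Tr := beta% (fun (c : Nat → Tr → Tr → Tr) (e : Tr) (z : Nat) (a b : Nat → Nat) =>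
 (c (nat_lit 1)
 (c (nat_lit 1)
 (c (a (nat_lit 0x202001))
 (c (a (nat_lit 0x140d6d4d495124))
 (c z e
 (c (a (nat_lit 0x5c5ce6ccbd4d506))
 (c (a (nat_lit 0x126ac5690ac582d268)) e
 (c z e
 (c (a (nat_lit 0x18421e32105523ae9)) e e)))
 (c z e
 (c z e
 (c z e
 (c z e
 (c (a (nat_lit 0xf93f47db16f90e6)) e
 (c z e
 (c (a (nat_lit 0xb6e2f581030eea7)) e
 (c (a (nat_lit 0x17e8f76fb1f00ca6)) e
 (c (a (nat_lit 0xbba099168600006)) e
 (c (a (nat_lit 0x2f96b8000000005)) e e))))))))))))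
 (c (a (nat_lit 0x1b5b5b539e3ce5))
 (c (a (nat_lit 0x3cdec0b922b9ba7))
 (c (a (nat_lit 0x401826381e023930a)) e e)
 (c z e
 (c z e
 (c z e
 (c z e
 (c z e
 (c z e
 (c (a (nat_lit 0x7e9116704050629)) e
 (c (a (nat_lit 0x10b2e3a78d8dc008)) e
 (c (a (nat_lit 0x13e0846300000008)) e e))))))))))
 (c (a (nat_lit 0x189970fabb3205)) e
 (c z e
 (c z e
 (c z e
 (c z e
 (c z e
 (c (a (nat_lit 0x1fc8884ee021c6)) e
 (c (a (nat_lit 0xd6cfe42c46d45)) e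
 (c (a (nat_lit 0xd5ea3664b4a45)) e
 (c (a (nat_lit 0x1d151712546ee6)) e e))))))))))))
 (c (a (nat_lit 0x2020202021))
 (c (a (nat_lit 0x12b2ae72302747))
 (c (a (nat_lit 0x989294c086f7888))
 (c (a (nat_lit 0x1a2028300a16b32ca)) e e)
 (c z e
 (c z e
 (c z e
 (c z e
 (c z e
 (c z e
 (c (a (nat_lit 0xf576b2324a96029)) e
 (c (a (nat_lit 0x18e700cc96200008)) e
 (c (a (nat_lit 0x1f20c34000000006)) e e))))))))))
 (c z e
 (c z e
 (c z e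
 (c z e
 (c z e
 (c z e
 (c (b (nat_lit 0x1ff68e29406387)) e
 (c (a (nat_lit 0x14ee0a42482c67)) e
 (c (b (nat_lit 0xf9209466bffe7)) e
 (c (a (nat_lit 0x17b06fb72b67c8)) e e)))))))))))
 (c (a (nat_lit 0x20202001)) e
 (c (a (nat_lit 0x3428)) e
 (c (a (nat_lit 0x146b48)) e
 (c (a (nat_lit 0x20320b4548)) e
 (c (a (nat_lit 0x3b78092227)) e
 (c (a (nat_lit 0x169425202007)) e
 (c (a (nat_lit 0x1a03a0202006))
 (c z e
 (c z e
 (c (a (nat_lit 0xa98f4af2742c8)) e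
 (c (a (nat_lit 0x76536a2000008)) e e))))
 (c (a (nat_lit 0x1aa040406da3))
 (c (a (nat_lit 0x10d93d2dc46707)) e
 (c (a (nat_lit 0x15b92b88614008)) e
 (c (b (nat_lit 0x1ff10620000007)) e e)))
 (c (a (nat_lit 0x2021d3a6))
 (c (b (nat_lit 0x18bff283c00006)) e
 (c (a (nat_lit 0xf332000000006)) e e))
 (c (a (nat_lit 0x222252e1027))
 (c (a (nat_lit 0x12c00000000004)) e e)
 (c z e
 (c z e
 (c z e
 (c z e
 (c z e
 (c z e
 (c (a (nat_lit 0x68e94402006)) e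
 (c (a (nat_lit 0xe9460202006)) e
 (c (a (nat_lit 0x1601e1c00006)) e
 (c (a (nat_lit 0x24000000001)) e e))))))))))))))))))))))
 C213)
 (c (a (nat_lit 0x202021)) C212
 (c (a (nat_lit 0x202021)) C211
 (c (a (nat_lit 0x202021))
 (c (a (nat_lit 0x2021))
 (c (a (nat_lit 0x1920c0e12141))
 (c (a (nat_lit 0x17cd8022a02244)) e
 (c (a (nat_lit 0x1284c420898a66))
 (c (a (nat_lit 0x1902260720000007)) e e)
 (c z e
 (c z e
 (c z e
 (c z e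
 (c (b (nat_lit 0xcb977ff48225)) e
 (c (a (nat_lit 0x5088e840c008)) e
 (c (a (nat_lit 0x16eb87e0000008)) e e)))))))))
 (c (a (nat_lit 0x1afafb7defa3))
 (c (a (nat_lit 0xc0789f4178146)) e
 (c z e
 (c z e
 (c z e
 (c (b (nat_lit 0xce75f1feb08e8)) e
 (c (b (nat_lit 0x1b13febe402a9)) e
 (c (a (nat_lit 0x1f844d21800009)) e
 (c (a (nat_lit 0x17738000000008)) e e))))))))
 (c (a (nat_lit 0x10f0f1b1afc7)) e
 (c z e
 (c z e
 (c (a (nat_lit 0x130faf8f6f66))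
 (c (a (nat_lit 0x1760c200a00007)) e e)
 (c (a (nat_lit 0x122987e58001)) e
 (c (a (nat_lit 0x4e4ca093245)) e
 (c (a (nat_lit 0x5a5b35411a8)) e
 (c z e
 (c z e
 (c (a (nat_lit 0xe54b4e68686)) e
 (c (a (nat_lit 0x1c5d00206025)) e
 (c (a (nat_lit 0x1ce040804025)) e
 (c (a (nat_lit 0x6701000001)) e
 (c (a (nat_lit 0x5e000000001)) e e))))))))))))))))
 (c (nat_lit 1)
 (c (a (nat_lit 0x131366268a84))
 (c (a (nat_lit 0x220426427607)) e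
 (c z e
 (c z e
 (c z e
 (c (b (nat_lit 0x11bfec678148)) e
 (c (b (nat_lit 0x1d9ff64963e008)) e
 (c (a (nat_lit 0xeb0e5e0000008)) e
 (c (a (nat_lit 0x1fa00000000007)) e e))))))))
 (c z e
 (c z e
 (c (a (nat_lit 0x1161a1e1c1c5))
 (c (b (nat_lit 0x1ffffffecc4525)) e
 (c (a (nat_lit 0x7513c88a00007)) e e))
 (c (a (nat_lit 0x1a98d8583644))
 (c (a (nat_lit 0x190c61a0000004)) e e)
 (c (a (nat_lit 0x201fffe8f45)) e
 (c (a (nat_lit 0x10909e5b9c07)) e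
 (c (a (nat_lit 0x64ccf11f209)) e
 (c z e
 (c z e
 (c (a (nat_lit 0x4b285a30007)) e
 (c (a (nat_lit 0x12c5e3402707)) e
 (c (a (nat_lit 0x174ce04de005)) e
 (c (a (nat_lit 0x2c0000001)) e e))))))))))))))
 (c (nat_lit 1)
 (c z e
 (c (a (nat_lit 0x1175104fd063)) e
 (c (a (nat_lit 0xb4f4c0e4001))
 (c (b (nat_lit 0x327fe5eb8007)) e
 (c (a (nat_lit 0x160f3620000008)) e e))
 (c (a (nat_lit 0x403070ad86))
 (c (a (nat_lit 0x1447c000000007)) e e)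
 (c (b (nat_lit 0x66671ffefa7)) e
 (c z e
 (c z e
 (c z e
 (c z e
 (c (a (nat_lit 0x14deef886066)) e
 (c (a (nat_lit 0x1dae48002026)) e
 (c (a (nat_lit 0x1c4fe0200005)) e
 (c (a (nat_lit 0x1f8000000004)) e e)))))))))))))
 (c (nat_lit 1)
 (c (a (nat_lit 0xdcb86ea0321))
 (c (a (nat_lit 0x8b7300a08506)) e
 (c (b (nat_lit 0x247ff780c006)) e
 (c (a (nat_lit 0xd7a2940000007)) e e)))
 (c (a (nat_lit 0xd072da20001))
 (c (b (nat_lit 0x1ffff4a2200007)) e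
 (c (a (nat_lit 0x170ee000000008)) e e))
 (c (b (nat_lit 0x14d514ffffe6))
 (c (a (nat_lit 0x1ec00000000005)) e e)
 (c z e
 (c z e
 (c z e
 (c z e
 (c z e
 (c z e
 (c (a (nat_lit 0x10e020402006)) e
 (c (a (nat_lit 0x187c20000004)) e e)))))))))))
 (c (nat_lit 1)
 (c (a (nat_lit 0x424e35cee83))
 (c (a (nat_lit 0x31e3c0000006)) e
 (c (a (nat_lit 0x1fa00000000006)) e e))
 (c (a (nat_lit 0x1393af8fd6c7)) e
 (c z e
 (c z e
 (c (a (nat_lit 0x9121492ab07)) e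
 (c z e
 (c z e
 (c z e
 (c (a (nat_lit 0xa4eb2c00005)) e e)))))))))
 (c (a (nat_lit 0x80608081))
 (c (a (nat_lit 0x16f2f54ecc6)) e
 (c z e
 (c (a (nat_lit 0x111b0ffb73e6)) e
 (c (a (nat_lit 0x1892ae227687)) e e))))
 (c (a (nat_lit 0x40402041))
 (c (a (nat_lit 0x6aaf2934a86)) e
 (c (a (nat_lit 0x8ea304d43a7)) e
 (c (a (nat_lit 0x156eb4dc1067)) e e)))
 (c (a (nat_lit 0x20203ca6))
 (c (a (nat_lit 0x13b941c205)) e
 (c (a (nat_lit 0x8089322aac8)) e e))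
 (c (a (nat_lit 0x1e3ca6))
 (c (a (nat_lit 0x4e5a5257549)) e e)
 (c (a (nat_lit 0x3e1e0a67)) e
 (c z e
 (c (a (nat_lit 0x17b1f04c67)) e
 (c (a (nat_lit 0x1900604043)) e
 (c (a (nat_lit 0xe080a001)) e
 (c (a (nat_lit 0x1050409183)) e
 (c (a (nat_lit 0x22422001)) e
 (c (a (nat_lit 0x162414041)) e
 (c z e
 (c (a (nat_lit 0x7a0608081)) e
 (c (a (nat_lit 0xc0a001)) e
 (c (a (nat_lit 0x343a0e001)) e
 (c (a (nat_lit 0xea0000001)) e e))))))))))))))))))))))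
 C210))))) Tr.c Tr.e (nat_lit 0) C.cx C.cy
noncomputable def C215 : Tr := beta% (fun (c : Nat → Tr → Tr → Tr) (e : Tr) (z : Nat) (a b : Nat → Nat) =>
 (c (a (nat_lit 0x202001))
 (c (a (nat_lit 0x20202001))
 (c (b (nat_lit 0x12322cdfed4406))
 (c (a (nat_lit 0x90a6e2bb0cf3c47))
 (c z e
 (c (a (nat_lit 0x504472102242077c9)) e
 (c (a (nat_lit 0xc8ea58685f4940007)) e e)))
 (c z e
 (c z e
 (c z e
 (c z e
 (c z e
 (c z e
 (c z e
 (c (a (nat_lit 0xa7254b8f0a00007)) e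
 (c (a (nat_lit 0x140e694000000007)) e e))))))))))
 (c z e
 (c z e
 (c z e
 (c z e
 (c z e
 (c z e
 (c z e
 (c (a (nat_lit 0xc3b300348a067)) e
 (c (a (nat_lit 0x11ec46c9052728)) e
 (c (a (nat_lit 0x1d533a359206e7)) e e)))))))))))
 (c (a (nat_lit 0x40404001)) e
 (c (a (nat_lit 0x20203f08)) e
 (c (a (nat_lit 0x20316da9)) e
 (c (a (nat_lit 0x203b0fc869)) e
 (c z e
 (c (a (nat_lit 0x1bfbca404048)) e
 (c (a (nat_lit 0x15e180202007)) e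
 (c (a (nat_lit 0x9a040405664))
 (c z e
 (c (a (nat_lit 0x1b65553dc0e008)) e
 (c (a (nat_lit 0x8531100000008)) e e)))
 (c (a (nat_lit 0x20202b73e5))
 (c (b (nat_lit 0x1ffff7a3c00007)) e
 (c (a (nat_lit 0xd322000000007)) e e))
 (c (a (nat_lit 0x1e1e7aad727))
 (c (a (nat_lit 0x8200000000001)) e e)
 (c z e
 (c z e
 (c z e
 (c z e
 (c z e
 (c z e
 (c z e
 (c (a (nat_lit 0x95067602008)) e
 (c (a (nat_lit 0x106760200008)) e
 (c (a (nat_lit 0x1d4000000006)) e e)))))))))))))))))))))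
 (c (a (nat_lit 0x20404041))
 (c (a (nat_lit 0x20203f07))
 (c z e
 (c z e
 (c z e
 (c z e
 (c z e
 (c z e
 (c (a (nat_lit 0x1dbb4f874387c7)) e
 (c z e
 (c z e
 (c z e
 (c z e
 (c (a (nat_lit 0xb2f51506d2009)) e
 (c (a (nat_lit 0x11108920000008)) e e)))))))))))))
 (c (a (nat_lit 0x20203efac8)) e
 (c (a (nat_lit 0x203c190c69)) e
 (c z e
 (c (a (nat_lit 0x126f85808009)) e
 (c (a (nat_lit 0x1a27a1e02007)) e
 (c (a (nat_lit 0x152040404084))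
 (c (a (nat_lit 0x4cb0a3af22268)) e e)
 (c (a (nat_lit 0x61437183)) e
 (c z e
 (c z e
 (c z e
 (c z e
 (c z e
 (c z e
 (c z e
 (c z e
 (c z e
 (c (a (nat_lit 0x119165c02007)) e
 (c (a (nat_lit 0x15c440000007)) e e)))))))))))))))))))
 (c (a (nat_lit 0x20202021))
 (c (a (nat_lit 0x1af8cce8)) e
 (c z e
 (c (a (nat_lit 0x150ea7a22129)) e
 (c (a (nat_lit 0x1d8b64002007)) e
 (c (a (nat_lit 0x1a0040202105)) e
 (c (b (nat_lit 0xc0611d7fe3)) e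
 (c (b (nat_lit 0x5fe37267)) e
 (c z e
 (c z e
 (c z e
 (c z e
 (c z e
 (c z e
 (c z e
 (c z e
 (c z e
 (c (a (nat_lit 0x18a1c0200005)) e e)))))))))))))))))
 (c (a (nat_lit 0x20202021))
 (c (a (nat_lit 0x18f6cb03a3a8)) e
 (c (a (nat_lit 0x16e980202007)) e
 (c (a (nat_lit 0x10c020202006))
 (c (b (nat_lit 0x145a5fe2c972a7)) e e)
 (c (b (nat_lit 0x6040719fe5)) e
 (c (b (nat_lit 0x506dffffba6)) e e)))))
 (c (nat_lit 1)
 (c (a (nat_lit 0x1440202020c5))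
 (c z e
 (c (a (nat_lit 0x7df4c6e761e27)) e e))
 (c (a (nat_lit 0x4040d801a3))
 (c (a (nat_lit 0x1740e64ab62127)) e
 (c (a (nat_lit 0xb49ca6c63b109)) e e))
 (c (a (nat_lit 0x3c74686b027)) e
 (c z e
 (c z e
 (c z e
 (c z e
 (c z e
 (c z e
 (c (a (nat_lit 0x1e1429005e45)) e
 (c (a (nat_lit 0xa24a06fda46)) e e)))))))))))
 (c (a (nat_lit 0x60606061))
 (c (a (nat_lit 0x14142817086))
 (c (a (nat_lit 0x8222f2120027)) e e)
 (c z e
 (c z e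
 (c z e
 (c z e
 (c z e
 (c z e
 (c (a (nat_lit 0x15d14c0c6fc6)) e
 (c (a (nat_lit 0xa0a88679845)) e
 (c (a (nat_lit 0x241e1c47087)) e e))))))))))
 (c (a (nat_lit 0xa0808081))
 (c z e
 (c z e
 (c z e
 (c z e
 (c z e
 (c z e
 (c (a (nat_lit 0x14d21313a007)) e
 (c (a (nat_lit 0x105638f22905)) e
 (c (a (nat_lit 0x80e10171c7)) e e)))))))))
 (c (a (nat_lit 0x80808081))
 (c z e
 (c z e
 (c z e
 (c z e
 (c z e
 (c z e
 (c (a (nat_lit 0xf0968519366)) e e)))))))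
 (c (a (nat_lit 0x80a0a0a1))
 (c z e
 (c (a (nat_lit 0x1c35e220a006)) e
 (c (b (nat_lit 0x19dabdf91fe6)) e
 (c z e
 (c z e
 (c (a (nat_lit 0x744c870e5c7)) e e))))))
 (c (a (nat_lit 0x606060a1))
 (c (a (nat_lit 0x17fedf993005)) e
 (c (a (nat_lit 0x1ad9194505e6)) e e))
 (c (a (nat_lit 0x21))
 (c (a (nat_lit 0x8767687606)) e
 (c z e
 (c z e
 (c z e
 (c (a (nat_lit 0x106342800007)) e
 (c (a (nat_lit 0x2000000001)) e e))))))
 (c (a (nat_lit 0x40404021))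
 (c z e
 (c z e
 (c (a (nat_lit 0xf8f7e602007)) e
 (c (a (nat_lit 0x11c080000003)) e e))))
 (c (a (nat_lit 0x20202021))
 (c (a (nat_lit 0xc8952003f66)) e
 (c (a (nat_lit 0x1e0080400003)) e
 (c (a (nat_lit 0xc000000001)) e e)))
 (c (a (nat_lit 0x20203147))
 (c (a (nat_lit 0x2020000001)) e e)
 (c (a (nat_lit 0x1148e7)) e
 (c (a (nat_lit 0x85a51e947)) e
 (c z e
 (c (a (nat_lit 0x1a6888a8a6)) e
 (c (a (nat_lit 0x1208001)) e
 (c (a (nat_lit 0x12060a601)) e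
 (c (a (nat_lit 0xc2c0c1)) e
 (c (a (nat_lit 0x20203e66)) e
 (c (a (nat_lit 0x303123fe7)) e e)))))))))))))))))))))))) Tr.c Tr.e (nat_lit 0) C.cx C.cy
noncomputable def C216 : Tr := beta% (fun (c : Nat → Tr → Tr → Tr) (e : Tr) (z : Nat) (a b : Nat → Nat) =>
 (c (a (nat_lit 0x2020202021))
 (c (a (nat_lit 0x1617737d16985))
 (c (a (nat_lit 0xf4eb372902fce25)) e
 (c z e
 (c z e
 (c z e
 (c z e
 (c z e
 (c (a (nat_lit 0x4a4a665e84676c7)) e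
 (c (a (nat_lit 0x5c98b531010acc6)) e
 (c (a (nat_lit 0xa4bb5cf328d2946)) e
 (c (a (nat_lit 0x8b1b14e0a86c546)) e
 (c z e
 (c z e
 (c (a (nat_lit 0x1d0df8b4fc3f8825)) e
 (c (a (nat_lit 0x9667949c2a00007)) e
 (c (a (nat_lit 0xb6bfec000000006)) e e)))))))))))))))
 (c (a (nat_lit 0x174962fa86727))
 (c z e
 (c z e
 (c z e
 (c z e
 (c z e
 (c z e
 (c z e
 (c (a (nat_lit 0x6abf07329a664c8)) e
 (c z e
 (c z e
 (c z e
 (c z e
 (c (b (nat_lit 0x919ffee40000008)) e e)))))))))))))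
 (c (a (nat_lit 0x10558da1602027)) e
 (c (a (nat_lit 0x1d7049a5454026))
 (c z e
 (c z e
 (c z e
 (c z e
 (c z e
 (c (a (nat_lit 0x5c26481423f6308)) e e))))))
 (c (b (nat_lit 0x18eacaaaa11fe5)) e
 (c (a (nat_lit 0x1313130f2a5606))
 (c z e
 (c z e
 (c (a (nat_lit 0x823e26b8a330268)) e e)))
 (c (a (nat_lit 0xf51eceaf8d766))
 (c z e
 (c (a (nat_lit 0xb89e96cd4402549)) e e))
 (c z e
 (c z e
 (c z e
 (c z e
 (c (a (nat_lit 0x1f9ccf47610246)) e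
 (c (a (nat_lit 0x1bae2ce706c166)) e
 (c (a (nat_lit 0x18f915d5b10006)) e
 (c (a (nat_lit 0x106eaf500ceb47)) e
 (c (a (nat_lit 0x4e8ea555254a6)) e e))))))))))))))))
 (c (a (nat_lit 0x4040404041))
 (c (a (nat_lit 0x1754ca20c02027))
 (c (a (nat_lit 0x8b02461c0212d87))
 (c (a (nat_lit 0x1abb1a3452f0b255c8))
 (c z e
 (c (a (nat_lit 0xa0e720ac5c664c0000b)) e e))
 (c (a (nat_lit 0x1433ef0c6dea6bd36a))
 (c (a (nat_lit 0x9f28a05a5c2c000000c)) e e)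
 (c z e
 (c (a (nat_lit 0xf24c2c5673d0ee8a9)) e e))))
 (c (a (nat_lit 0x6864325830cdb68))
 (c (a (nat_lit 0x1833305149a9eb27ca))
 (c (a (nat_lit 0x118945e601c00000000c)) e e) e)
 (c z e
 (c z e
 (c z e
 (c z e
 (c z e
 (c z e
 (c z e
 (c z e
 (c (a (nat_lit 0x1cf6d80db27b4e28)) e
 (c (b (nat_lit 0x59ffff203400009)) e e))))))))))))
 (c (a (nat_lit 0x1247c342a2a028))
 (c (a (nat_lit 0x901452d66741328))
 (c (a (nat_lit 0x17f4b166c72284f489)) e e)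
 (c z e
 (c z e
 (c z e
 (c z e
 (c z e
 (c z e
 (c z e
 (c z e
 (c (a (nat_lit 0xae9606d10848009)) e
 (c (a (nat_lit 0x46b5c2320000009)) e e)))))))))))
 (c (b (nat_lit 0x10074747415fe7)) e
 (c (a (nat_lit 0x8e8c8e280f047)) e
 (c (a (nat_lit 0x1071c9ca373da7)) e
 (c z e
 (c z e
 (c z e
 (c z e
 (c z e
 (c (a (nat_lit 0x14c86780c345c8)) e
 (c (a (nat_lit 0x10cf2e8cebac68)) e e))))))))))))
 (c (a (nat_lit 0x20202001))
 (c (b (nat_lit 0x1b6f2f2f287fe5))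
 (c (a (nat_lit 0x2303c185a29488))
 (c (a (nat_lit 0x152ea8a7c225497b47)) e e)
 (c z e
 (c z e
 (c z e
 (c z e
 (c z e
 (c z e
 (c z e
 (c z e
 (c (a (nat_lit 0xea2732be2600008)) e
 (c (a (nat_lit 0xf5b410000000008)) e e)))))))))))
 (c (a (nat_lit 0x115151eca5ef87)) e
 (c (a (nat_lit 0x16b8118db9f807)) e
 (c z e
 (c z e
 (c z e
 (c z e
 (c z e
 (c z e
 (c (a (nat_lit 0x16a8cf460083a8)) e
 (c (a (nat_lit 0x10967266056288)) e e)))))))))))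
 (c (a (nat_lit 0x2040404041)) e
 (c (a (nat_lit 0x2020202021)) e
 (c (a (nat_lit 0x2020202021))
 (c z e
 (c z e
 (c z e
 (c z e
 (c z e
 (c z e
 (c z e
 (c z e
 (c z e
 (c z e
 (c (a (nat_lit 0x11478080800007)) e e)))))))))))
 (c (a (nat_lit 0x203d07))
 (c z e
 (c (a (nat_lit 0x1b73d14d0e32c6))
 (c (a (nat_lit 0x52b32c460000008)) e e)
 (c (a (nat_lit 0x130aec96b620e6)) e
 (c z e
 (c z e
 (c z e
 (c z e
 (c z e
 (c z e
 (c (a (nat_lit 0x14936860000008)) e e))))))))))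
 (c (a (nat_lit 0x201cf127))
 (c (a (nat_lit 0x365442407f366)) e
 (c (a (nat_lit 0x4456aeec53107)) e
 (c z e
 (c z e
 (c z e
 (c z e
 (c (b (nat_lit 0xae6e77affe2e9)) e
 (c (a (nat_lit 0xc366b5000008)) e
 (c (a (nat_lit 0x11ea6000000006)) e e)))))))))
 (c (a (nat_lit 0x3bd687a7))
 (c z e
 (c z e
 (c z e
 (c z e
 (c z e
 (c z e
 (c (a (nat_lit 0x9ab9f40000008)) e
 (c (a (nat_lit 0x1a400000000004)) e e))))))))
 (c (a (nat_lit 0x1871a7a327)) e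
 (c (a (nat_lit 0x108ee5616007)) e
 (c (a (nat_lit 0x1a0702a02006))
 (c (a (nat_lit 0x78ae60130a3e8)) e
 (c (a (nat_lit 0x86612e9e00009)) e e))
 (c (a (nat_lit 0x15a020202124))
 (c (a (nat_lit 0x67f2720000008)) e e)
 (c (a (nat_lit 0xe080e84821)) e
 (c (a (nat_lit 0x9898c4c7b67)) e
 (c (a (nat_lit 0x36201105c27)) e
 (c z e
 (c z e
 (c z e
 (c z e
 (c z e
 (c (a (nat_lit 0x161180420045)) e
 (c (a (nat_lit 0x114040400005)) e
 (c (nat_lit 1) e e))))))))))))))))))))))))) Tr.c Tr.e (nat_lit 0) C.cx C.cy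
noncomputable def C217 : Tr := beta% (fun (c : Nat → Tr → Tr → Tr) (e : Tr) (z : Nat) (a b : Nat → Nat) =>
 (c (a (nat_lit 0x40404041))
 (c (a (nat_lit 0x2020202021))
 (c z e
 (c z e
 (c z e
 (c z e
 (c z e
 (c z e
 (c (b (nat_lit 0xdfbf1a2279fe6)) e
 (c z e
 (c z e
 (c z e
 (c z e
 (c z e
 (c (a (nat_lit 0xcafd086200007)) e e)))))))))))))
 (c (a (nat_lit 0x20203e08))
 (c z e
 (c z e
 (c z e
 (c z e
 (c z e
 (c (b (nat_lit 0x126cc3c33fffe7)) e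
 (c (a (nat_lit 0x10ec9048950107)) e e)))))))
 (c (a (nat_lit 0x20203e7bc8)) e
 (c (a (nat_lit 0x203a930ae9)) e
 (c z e
 (c (a (nat_lit 0x1b7a47a02008)) e
 (c (a (nat_lit 0x17c6e0202027))
 (c (a (nat_lit 0x1044ac9d99708)) e e)
 (c (a (nat_lit 0x1a2020202045))
 (c z e
 (c (a (nat_lit 0x572e82920800a)) e e))
 (c (a (nat_lit 0x20a17a63))
 (c (b (nat_lit 0x12bff300c00008)) e
 (c (a (nat_lit 0x108b4000000009)) e e))
 (c (a (nat_lit 0x64a8af307))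
 (c (a (nat_lit 0x11c00000000005)) e e)
 (c z e
 (c z e
 (c z e
 (c z e
 (c (a (nat_lit 0x189b4b09cbe5)) e
 (c (a (nat_lit 0x1cd4aeb52ca6)) e
 (c z e
 (c (a (nat_lit 0x1dde3891eea6)) e e))))))))))))))))))
 (c (a (nat_lit 0x20204041))
 (c (a (nat_lit 0x20203e1b87))
 (c z e
 (c z e
 (c z e
 (c z e
 (c z e
 (c (a (nat_lit 0x166dcb8b812b48)) e e))))))
 (c (a (nat_lit 0x2039f88d29)) e
 (c (a (nat_lit 0x3bb60ee549)) e
 (c (a (nat_lit 0x11f0a8c10009)) e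
 (c (a (nat_lit 0x1bee44002027))
 (c (b (nat_lit 0x1fffffffe0b649)) e e)
 (c (a (nat_lit 0x1d8020202065))
 (c (a (nat_lit 0xa363ffb1e0a9)) e e)
 (c (a (nat_lit 0x60609f56a4)) e
 (c (a (nat_lit 0x9e9ea2a3167)) e
 (c z e
 (c z e
 (c z e
 (c z e
 (c (a (nat_lit 0x19d070a04026)) e
 (c (a (nat_lit 0x10d140a09dc6)) e
 (c (a (nat_lit 0x1140605e1e06)) e e)))))))))))))))
 (c (a (nat_lit 0x20202021))
 (c (a (nat_lit 0x2f9782ce708)) e
 (c (a (nat_lit 0x1670c9a26269)) e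
 (c (a (nat_lit 0x1aaf80202027))
 (c (b (nat_lit 0x11c842bfe46467)) e
 (c (b (nat_lit 0x1ffffff5c8d666)) e e))
 (c (a (nat_lit 0x16a020202026))
 (c (a (nat_lit 0x8307eb31d29c7)) e e)
 (c (a (nat_lit 0xa08e736004)) e
 (c (b (nat_lit 0x9cadffff706)) e
 (c z e
 (c z e
 (c z e
 (c z e
 (c (a (nat_lit 0x1e0504e02206)) e
 (c (a (nat_lit 0x14b48088d444)) e
 (c (a (nat_lit 0x66040867aa5)) e
 (c (a (nat_lit 0x20665adaa5)) e e))))))))))))))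
 (c (a (nat_lit 0x20202021))
 (c (a (nat_lit 0x1aafa0202026))
 (c (b (nat_lit 0x1fffe1a168b8c5)) e
 (c (a (nat_lit 0x12305a6e8f308)) e
 (c (b (nat_lit 0x1fffffe3c93d48)) e e)))
 (c (a (nat_lit 0x102020202027))
 (c (a (nat_lit 0x58480c30cda87)) e
 (c (a (nat_lit 0x3e729e748f109)) e e))
 (c (b (nat_lit 0x8080b55fe4))
 (c (a (nat_lit 0xd8e6f1cc83428)) e e)
 (c (a (nat_lit 0x18787898d927)) e
 (c z e
 (c z e
 (c z e
 (c z e
 (c (a (nat_lit 0x1cc485002026)) e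
 (c (a (nat_lit 0x143620604084)) e
 (c (a (nat_lit 0x13a06060c004)) e
 (c (a (nat_lit 0x20205d65)) e
 (c (b (nat_lit 0x3fee97c6)) e e)))))))))))))
 (c (nat_lit 1)
 (c (a (nat_lit 0x40407480e3))
 (c (a (nat_lit 0x642a309145246)) e
 (c (a (nat_lit 0x102fcaf45ede07)) e e))
 (c (a (nat_lit 0x64a7061866))
 (c (a (nat_lit 0xfc87192c0cfe7)) e e)
 (c z e
 (c z e
 (c z e
 (c z e
 (c (a (nat_lit 0x165034937368)) e
 (c (a (nat_lit 0x1abbb6f06046)) e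
 (c (a (nat_lit 0x136060e125c4)) e
 (c (a (nat_lit 0x1a0f0a542)) e
 (c (a (nat_lit 0x20a05387)) e e)))))))))))
 (c (a (nat_lit 0x20404061))
 (c (a (nat_lit 0x1e1e0cf10c6))
 (c (a (nat_lit 0x159fc86087b1a6)) e e)
 (c z e
 (c z e
 (c z e
 (c (a (nat_lit 0x1ea505c0c006)) e
 (c (b (nat_lit 0xf10f634dfe7)) e
 (c (b (nat_lit 0x10ce8b4b5fe7)) e
 (c (a (nat_lit 0xecf2f25d8a4)) e
 (c (a (nat_lit 0x1bf597138665)) e e)))))))))
 (c (a (nat_lit 0x20202021))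
 (c z e
 (c z e
 (c (a (nat_lit 0x1fc607a4e106)) e
 (c (a (nat_lit 0x179873d300c6)) e
 (c (a (nat_lit 0xdf2764fc588)) e
 (c z e
 (c (a (nat_lit 0x1abaf39390e6)) e e)))))))
 (c (a (nat_lit 0x202001))
 (c (a (nat_lit 0x14a7c8272046)) e
 (c (a (nat_lit 0x123270066007)) e
 (c (a (nat_lit 0x18f614f46807)) e
 (c z e
 (c z e
 (c z e
 (c z e
 (c (b (nat_lit 0x1ffff9006005)) e
 (c (a (nat_lit 0x957a0000005)) e e)))))))))
 (c (a (nat_lit 0x60404061))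
 (c (a (nat_lit 0x186e48406005)) e
 (c (a (nat_lit 0xef292ebab47)) e
 (c z e
 (c z e
 (c z e
 (c (a (nat_lit 0x144924074045)) e
 (c (b (nat_lit 0x1ffc7be00003)) e
 (c (a (nat_lit 0x1d0000000002)) e e))))))))
 (c (a (nat_lit 0x200001))
 (c (a (nat_lit 0xbadee555745)) e
 (c z e
 (c z e
 (c (a (nat_lit 0xf6fd221b387)) e
 (c (a (nat_lit 0xf924f802007)) e
 (c (a (nat_lit 0x10c0c0000001)) e e))))))
 (c (a (nat_lit 0x20202001))
 (c z e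
 (c (a (nat_lit 0xb6eb6a48026)) e
 (c (a (nat_lit 0x9d204605326)) e
 (c (a (nat_lit 0x176040200003)) e
 (c (a (nat_lit 0x2000000001)) e e)))))
 (c (a (nat_lit 0x20002021))
 (c (a (nat_lit 0x38920403086)) e
 (c (a (nat_lit 0x1740c0806002)) e
 (c (a (nat_lit 0x40000001)) e e)))
 (c (a (nat_lit 0x20202001))
 (c (a (nat_lit 0x6020200001)) e
 (c (a (nat_lit 0x2000000001)) e e))
 (c (a (nat_lit 0x20203c06)) e
 (c (a (nat_lit 0x203c3206)) e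
 (c (a (nat_lit 0x8f6f1eb07)) e
 (c z e
 (c (a (nat_lit 0x19abc72726)) e
 (c (a (nat_lit 0x1280202004)) e
 (c (a (nat_lit 0xa020a0e1)) e
 (c (a (nat_lit 0x100e1a201)) e
 (c (a (nat_lit 0x203906)) e
 (c (a (nat_lit 0x2828ef1c7)) e e)))))))))))))))))))))))) Tr.c Tr.e (nat_lit 0) C.cx C.cy
noncomputable def C218 : Tr := beta% (fun (c : Nat → Tr → Tr → Tr) (e : Tr) (z : Nat) (a b : Nat → Nat) =>
 (c (a (nat_lit 0x20202021))
 (c (a (nat_lit 0x2020202021))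
 (c (a (nat_lit 0x2037132ea7))
 (c (a (nat_lit 0xe29a837382eaa05))
 (c z e
 (c z e
 (c z e
 (c z e
 (c z e
 (c (a (nat_lit 0xcea68496cc7f00ae9)) e
 (c (a (nat_lit 0x15476a920fc38ce768)) e
 (c z e
 (c (a (nat_lit 0x4f7e76b8a2b2804c8)) e e)))))))))
 (c z e
 (c z e
 (c z e
 (c z e
 (c (a (nat_lit 0x3c1e04347da5028)) e
 (c (a (nat_lit 0x241c5ab2dcf7aa7))
 (c z e
 (c (a (nat_lit 0x772deea2000000008)) e
 (c (a (nat_lit 0x161620000000000008)) e e)))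
 (c (a (nat_lit 0x507ad4e3614c7)) e
 (c (a (nat_lit 0x82b71f0f47434c7)) e
 (c z e
 (c z e
 (c z e
 (c z e
 (c z e
 (c (a (nat_lit 0x340a79500000009)) e
 (c (a (nat_lit 0x18a7e00000000005)) e e))))))))))))))))
 (c (a (nat_lit 0x2021e3e7688e8)) e
 (c (a (nat_lit 0x112538ec524c9)) e
 (c (a (nat_lit 0x1b7c3341a02028)) e
 (c (a (nat_lit 0x12a84583c3c028)) e
 (c (b (nat_lit 0x1960202048dfe5))
 (c z e
 (c z e
 (c z e
 (c (b (nat_lit 0x3a2220413ffe98a)) e e))))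
 (c (a (nat_lit 0xf8f922b4bf227))
 (c z e
 (c (a (nat_lit 0xf6d6c2bb66e876a)) e
 (c (a (nat_lit 0xee76d7e68ca072a)) e e)))
 (c (a (nat_lit 0x9ca2748553f87))
 (c (a (nat_lit 0x521a274ed80c029)) e
 (c (b (nat_lit 0x1e29886a1dfe1aa)) e e))
 (c z e
 (c z e
 (c z e
 (c z e
 (c z e
 (c z e
 (c (a (nat_lit 0x5a551f19109c9)) e
 (c (a (nat_lit 0x1c6e8f0a05746)) e e))))))))))))))))
 (c (nat_lit 1)
 (c (a (nat_lit 0x1100f8b04c4c9)) e
 (c (a (nat_lit 0x1bbb5120202009)) e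
 (c (a (nat_lit 0x1ee9a120404008)) e
 (c (b (nat_lit 0x122020203fffe7)) e
 (c (a (nat_lit 0x15f5f8b10fb5e7)) e
 (c (b (nat_lit 0xa8bffffecb308)) e e))))))
 (c (a (nat_lit 0x20202001))
 (c (a (nat_lit 0x1b65a020202047)) e
 (c (a (nat_lit 0x174bebebe5a0a7)) e
 (c (a (nat_lit 0x159598310f13e7)) e e)))
 (c (a (nat_lit 0x20202021))
 (c (a (nat_lit 0x11d1d707c330c6)) e e)
 (c (a (nat_lit 0x200001)) e
 (c (nat_lit 1)
 (c z e
 (c z e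
 (c z e
 (c z e
 (c z e
 (c z e
 (c z e
 (c z e
 (c z e
 (c z e
 (c (a (nat_lit 0x16fe6e71406007)) e e)))))))))))
 (c (nat_lit 1)
 (c z e
 (c (a (nat_lit 0x1c86c040a1cca7))
 (c (a (nat_lit 0x132d8d1aa6e00009)) e e)
 (c (a (nat_lit 0x6c080a4d35787)) e
 (c z e
 (c z e
 (c z e
 (c z e
 (c z e
 (c z e
 (c z e
 (c (a (nat_lit 0x19802000000007)) e e)))))))))))
 (c (a (nat_lit 0x201828))
 (c (a (nat_lit 0x11456e90cef9e5))
 (c (a (nat_lit 0x1dc9da0b60000006)) e e)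
 (c z e
 (c z e
 (c z e
 (c z e
 (c z e
 (c (a (nat_lit 0xbd18c85f93a09)) e
 (c (a (nat_lit 0xc6651313da009)) e
 (c (a (nat_lit 0x18680260000006)) e e)))))))))
 (c (a (nat_lit 0x2016ad88))
 (c z e
 (c z e
 (c z e
 (c z e
 (c z e
 (c z e
 (c (a (nat_lit 0x926ce1880000a)) e
 (c (a (nat_lit 0x11e8c000000007)) e e))))))))
 (c (a (nat_lit 0x356e46a8)) e
 (c z e
 (c (b (nat_lit 0x108cffe02008))
 (c (a (nat_lit 0x7098a36a7f269)) e
 (c (a (nat_lit 0x7c871ac66000b)) e e))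
 (c (a (nat_lit 0x1580e0202007))
 (c (a (nat_lit 0xad34fe420000a)) e e)
 (c (a (nat_lit 0x15c100a19441)) e
 (c (b (nat_lit 0x1fe037779988)) e
 (c (a (nat_lit 0x44441e4f967)) e
 (c z e
 (c z e
 (c z e
 (c z e
 (c z e
 (c (a (nat_lit 0x16c4204021e7)) e
 (c (a (nat_lit 0x1fc1610dc004)) e
 (c (a (nat_lit 0x120000001)) e e))))))))))))))))))))))))
 (c (nat_lit 1)
 (c (nat_lit 1)
 (c (a (nat_lit 0x1ebccea0202026))
 (c (a (nat_lit 0x81b65e502e89705))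
 (c z e
 (c (a (nat_lit 0x1b3e57d1e82f4e2d08))
 (c (a (nat_lit 0xe7effa984434000000a)) e e) e))
 (c (a (nat_lit 0x2e3c646e4ab5027))
 (c (a (nat_lit 0x19f9f123a585a4c669))
 (c (a (nat_lit 0x11d6268461800000000b)) e e) e)
 (c z e
 (c z e
 (c z e
 (c z e
 (c z e
 (c z e
 (c z e
 (c z e
 (c (a (nat_lit 0x947ab4e72f8c2e8)) e
 (c (a (nat_lit 0x685a6b428600009)) e e))))))))))))
 (c (a (nat_lit 0x1065e020202108))
 (c (a (nat_lit 0xc2e542426812c8))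
 (c (a (nat_lit 0x1b92a6216303272309))
 (c (a (nat_lit 0x1065c60140000000000b)) e e) e)
 (c z e
 (c z e
 (c z e
 (c z e
 (c z e
 (c z e
 (c z e
 (c z e
 (c (b (nat_lit 0x85406dff0404009)) e
 (c (a (nat_lit 0x18f3eda980000008)) e e)))))))))))
 (c (a (nat_lit 0x12e6e6e6e7e607)) e
 (c (b (nat_lit 0x18d8d91ff70de5)) e
 (c z e
 (c z e
 (c z e
 (c z e
 (c z e
 (c z e
 (c (a (nat_lit 0x15eb71a28028a7)) e
 (c (a (nat_lit 0x1abd1c97b8f008)) e e))))))))))))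
 (c (a (nat_lit 0x20202021))
 (c (a (nat_lit 0x1746262629eb26))
 (c (a (nat_lit 0x8a0728acbdf507))
 (c (a (nat_lit 0x156d25a5e651e7ad88)) e e)
 (c z e
 (c z e
 (c z e
 (c z e
 (c z e
 (c z e
 (c z e
 (c z e
 (c (b (nat_lit 0x14449fe820600009)) e
 (c (a (nat_lit 0x130060c000000009)) e e)))))))))))
 (c (b (nat_lit 0x153557ffffffe6)) e
 (c z e
 (c z e
 (c z e
 (c z e
 (c z e
 (c z e
 (c z e
 (c (a (nat_lit 0xd2fd4c7e78469)) e
 (c (a (nat_lit 0x16db316eaa6d69)) e e)))))))))))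
 (c (a (nat_lit 0x2020202021)) e
 (c (a (nat_lit 0x402001)) e
 (c (nat_lit 1) e
 (c (a (nat_lit 0x2020203109)) e
 (c (a (nat_lit 0x2020397268)) e
 (c (a (nat_lit 0x203976a7e8)) e
 (c z e
 (c (a (nat_lit 0x120f66202008)) e
 (c (a (nat_lit 0x1ae820202007))
 (c (a (nat_lit 0xd1f4df2de82e8)) e
 (c (a (nat_lit 0xe0a7789e0000a)) e e))
 (c (a (nat_lit 0x122020202d46))
 (c (a (nat_lit 0x9dba620000009)) e e)
 (c (a (nat_lit 0x20202d5906)) e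
 (c (b (nat_lit 0xc0dff29dc7)) e
 (c z e
 (c z e
 (c z e
 (c z e
 (c z e
 (c z e
 (c (a (nat_lit 0xc7ecaa4a486)) e
 (c (a (nat_lit 0x1d0900200006)) e e))))))))))))))))))))))
 (c (a (nat_lit 0x20202021))
 (c (a (nat_lit 0x4040202021))
 (c (a (nat_lit 0xdededf010eaa5))
 (c (a (nat_lit 0xe272c511915b3a6))
 (c z e
 (c (a (nat_lit 0x727868b27a3e0f148)) e e))
 (c z e
 (c z e
 (c z e
 (c z e
 (c z e
 (c z e
 (c z e
 (c z e
 (c (a (nat_lit 0x79d44280000006)) e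
 (c (a (nat_lit 0x1620400000000006)) e e)))))))))))
 (c z e
 (c z e
 (c z e
 (c z e
 (c z e
 (c z e
 (c z e
 (c z e
 (c (a (nat_lit 0x1da6504a64668)) e
 (c (a (nat_lit 0x102545660742a9)) e e)))))))))))
 (c (a (nat_lit 0x6060606061)) e
 (c (a (nat_lit 0x2020404041)) e
 (c (a (nat_lit 0x2020203e68)) e
 (c (a (nat_lit 0x202030ebe9)) e
 (c (a (nat_lit 0x20312ea649)) e
 (c z e
 (c (a (nat_lit 0x161527a18188)) e
 (c (a (nat_lit 0x17c560202007)) e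
 (c (a (nat_lit 0x154020203a05))
 (c (b (nat_lit 0xf9ffff2420008)) e
 (c (a (nat_lit 0x11487260000008)) e e))
 (c (a (nat_lit 0x20202d56c6))
 (c (a (nat_lit 0x3700000000005)) e e)
 (c (a (nat_lit 0x202ad0dc47)) e
 (c z e
 (c z e
 (c z e
 (c z e
 (c z e
 (c z e
 (c z e
 (c (a (nat_lit 0x25b80202008)) e
 (c (a (nat_lit 0x1b6020000008)) e e)))))))))))))))))))))
 C217)))) Tr.c Tr.e (nat_lit 0) C.cx C.cy
noncomputable def C219 : Tr := beta% (fun (c : Nat → Tr → Tr → Tr) (e : Tr) (z : Nat) (a b : Nat → Nat) =>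
 (c (nat_lit 1)
 (c (a (nat_lit 0x2020203430c7))
 (c (a (nat_lit 0x96985e811170d06))
 (c (a (nat_lit 0x32587aaac536f6967))
 (c z e
 (c z e
 (c z e
 (c z e
 (c (a (nat_lit 0x4a462c2c4e5ccd044ca)) e e)))))
 (c z e
 (c z e
 (c z e
 (c z e
 (c (a (nat_lit 0x1452af4eb2758c1d29)) e
 (c (a (nat_lit 0x110dc8c90f06098769)) e
 (c (a (nat_lit 0x783a29eec478948c8)) e e))))))))
 (c z e
 (c z e
 (c z e
 (c z e
 (c (a (nat_lit 0x883614066cb1ee8))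
 (c z e
 (c z e
 (c (a (nat_lit 0x1d8683adf20d000009)) e
 (c (a (nat_lit 0x9ad0dd22000000009)) e e))))
 (c (a (nat_lit 0x900e2262293b887))
 (c z e
 (c (b (nat_lit 0x85fe874e9e0000009)) e
 (c (a (nat_lit 0x26d10e00000000009)) e e)))
 (c (a (nat_lit 0x263c92a4d933027)) e
 (c (a (nat_lit 0x74b4db1ed500547)) e
 (c (a (nat_lit 0x1092144cef052707)) e
 (c z e
 (c z e
 (c z e
 (c z e
 (c (a (nat_lit 0x141c7a8b340000a)) e
 (c (a (nat_lit 0x1662e02000000005)) e e))))))))))))))))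
 (c (a (nat_lit 0x20203ab77128)) e
 (c (a (nat_lit 0x203b5db5a568)) e
 (c (a (nat_lit 0x10f50cc0403a9)) e
 (c (a (nat_lit 0x15d7d121602028)) e
 (c (a (nat_lit 0x1daf26a68680c7))
 (c z e
 (c z e
 (c (a (nat_lit 0x5c4250221837a29)) e
 (c (a (nat_lit 0x2e363c4e65965a9)) e e))))
 (c (a (nat_lit 0x1b2a2a2a4303a6))
 (c z e
 (c (a (nat_lit 0x304a3a5671450aa)) e
 (c (a (nat_lit 0x6c6a88977c6f0aa)) e e)))
 (c (a (nat_lit 0x3434421a41067))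
 (c (a (nat_lit 0x5430081599023e9)) e
 (c (a (nat_lit 0x3014176ca00e30a)) e e))
 (c (a (nat_lit 0x1a20162aa1088)) e
 (c z e
 (c z e
 (c z e
 (c z e
 (c (a (nat_lit 0x1f35b53575cc48)) e
 (c (a (nat_lit 0xe8cd8b8d7f369)) e
 (c (a (nat_lit 0xf519515f2c005)) e
 (c (a (nat_lit 0x13369134a0e165)) e e)))))))))))))))))
 (c (a (nat_lit 0x2020202021))
 (c (a (nat_lit 0x203879f1c607)) e
 (c (a (nat_lit 0x110714c04c489)) e
 (c (a (nat_lit 0x15780cc0602028)) e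
 (c (a (nat_lit 0x1068e100202048)) e
 (c (a (nat_lit 0x1605a5a5a6a2e7)) e
 (c (a (nat_lit 0xeaeaed10dc587)) e
 (c (a (nat_lit 0x7c8a76aef1187)) e e)))))))
 (c (a (nat_lit 0x4040404021))
 (c (a (nat_lit 0x195a8e80602027)) e
 (c (a (nat_lit 0x1ccca020202007)) e
 (c (a (nat_lit 0x19a04020426006)) e
 (c (b (nat_lit 0x133333549fe8c6)) e
 (c (b (nat_lit 0x113151bfe8e227)) e e)))))
 (c (a (nat_lit 0x2020202021))
 (c (a (nat_lit 0x11848484802006))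
 (c (a (nat_lit 0x8452d8a25ad75c7))
 (c (a (nat_lit 0x96546c786262cd488)) e
 (c (a (nat_lit 0xf0ff04a87f13dd889)) e e))
 (c z e
 (c z e
 (c z e
 (c z e
 (c z e
 (c (a (nat_lit 0x3c9052df50464c8)) e e)))))))
 (c (a (nat_lit 0x19393fd06863e6)) e
 (c (b (nat_lit 0x10916b9fffffe7)) e
 (c z e
 (c z e
 (c z e
 (c z e
 (c z e
 (c z e
 (c z e
 (c z e
 (c z e
 (c z e
 (c z e
 (c (a (nat_lit 0x1bc92800600006)) e
 (c (a (nat_lit 0x1067a000000006)) e e))))))))))))))))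
 (c (a (nat_lit 0x2020204041))
 (c (a (nat_lit 0x1b3b569209a5c6)) e
 (c z e
 (c z e
 (c z e
 (c z e
 (c (a (nat_lit 0xc8aaaa669d5a7)) e
 (c z e
 (c z e
 (c z e
 (c z e
 (c z e
 (c (a (nat_lit 0x1a15353ccdcda6)) e
 (c (a (nat_lit 0xeaefe40402005)) e
 (c (a (nat_lit 0x101f6040000005)) e
 (c (a (nat_lit 0x1e200000000005)) e e)))))))))))))))
 (c (a (nat_lit 0x202021))
 (c z e
 (c z e
 (c (a (nat_lit 0x1033c0e0202466))
 (c (a (nat_lit 0xeb0e7b036ece3e9)) e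
 (c (a (nat_lit 0x9436df30960000a)) e e))
 (c (a (nat_lit 0x14612060446d86))
 (c (a (nat_lit 0x6f5d2ec00000009)) e e)
 (c (a (nat_lit 0x50469ad957906)) e
 (c z e
 (c z e
 (c z e
 (c z e
 (c z e
 (c (a (nat_lit 0xe542a7c806026)) e
 (c (a (nat_lit 0x13a9fc20200006)) e
 (c (a (nat_lit 0x1d93c000000006)) e e)))))))))))))
 (c (a (nat_lit 0x2020202021))
 (c (a (nat_lit 0x11492060402026))
 (c z e
 (c (a (nat_lit 0x1af7f1f1f0124caa)) e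
 (c (a (nat_lit 0x1797d1f32f000009)) e e)))
 (c (a (nat_lit 0x126080404060a6))
 (c (a (nat_lit 0x1d8e0fcd9608c009)) e
 (c (a (nat_lit 0x1cb7b45780000009)) e e))
 (c (a (nat_lit 0xc06045055345))
 (c (a (nat_lit 0x14b433c000000008)) e e)
 (c (a (nat_lit 0xecf2f2f961f65)) e
 (c z e
 (c z e
 (c z e
 (c z e
 (c (a (nat_lit 0xd125322a58027)) e
 (c (a (nat_lit 0x5e8b239a04006)) e
 (c (a (nat_lit 0x1ec0c040000004)) e
 (c (a (nat_lit 0x400000000001)) e e))))))))))))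
 (c (a (nat_lit 0x4040202021))
 (c (a (nat_lit 0x161c182b682))
 (c (a (nat_lit 0x78da31a07600006)) e
 (c (a (nat_lit 0x13a60f4000000007)) e e))
 (c (a (nat_lit 0x66726c8e97105))
 (c (a (nat_lit 0xdbf800000000006)) e e)
 (c z e
 (c z e
 (c z e
 (c z e
 (c (a (nat_lit 0xed27549a47988)) e
 (c (a (nat_lit 0xfee4ac6053648)) e
 (c (a (nat_lit 0x17280584e00006)) e
 (c (a (nat_lit 0x18632000000003)) e e))))))))))
 (c (a (nat_lit 0x2020203bc6))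
 (c (a (nat_lit 0x1474b4af0f7425))
 (c (a (nat_lit 0x1280000000000006)) e e)
 (c z e
 (c z e
 (c z e
 (c z e
 (c z e
 (c (a (nat_lit 0x6eae74293c008)) e
 (c (a (nat_lit 0x1396c6a0000006)) e
 (c (a (nat_lit 0x1e600000000005)) e e)))))))))
 (c (a (nat_lit 0x1bec86))
 (c z e
 (c z e
 (c z e
 (c z e
 (c z e
 (c z e
 (c (a (nat_lit 0x1c0fa000000006)) e e)))))))
 (c (a (nat_lit 0x2038d50085)) e
 (c (a (nat_lit 0x10b6f7514e87)) e
 (c (a (nat_lit 0x197bd28e6dc7)) e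
 (c (a (nat_lit 0x154a40202006)) e
 (c (a (nat_lit 0x1420202022c5)) e
 (c (a (nat_lit 0x20c16201)) e
 (c (a (nat_lit 0x20203126)) e
 (c (a (nat_lit 0xc030f786)) e
 (c (a (nat_lit 0x787b0330907)) e
 (c z e
 (c z e
 (c (a (nat_lit 0x140020404046)) e
 (c (a (nat_lit 0x1c101c121)) e
 (c (a (nat_lit 0x180e00001)) e
 (c (a (nat_lit 0x2000000001)) e e)))))))))))))))))))))))))) Tr.c Tr.e (nat_lit 0) C.cx C.cy
noncomputable def C220 : Tr := beta% (fun (c : Nat → Tr → Tr → Tr) (e : Tr) (z : Nat) (a b : Nat → Nat) =>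
 (c (a (nat_lit 0x202021))
 (c (a (nat_lit 0x20202021))
 (c (a (nat_lit 0x8080808081))
 (c z
 (c (a (nat_lit 0x6f53fdfdfdfdfc2))
 (c z e
 (c z e
 (c z e
 (c z e
 (c z e
 (c z e
 (c z e
 (c (a (nat_lit 0x56626468625453187)) e
 (c (a (nat_lit 0x68746234304383186)) e
 (c (a (nat_lit 0x245e3a1c1eb1054e6)) e
 (c z e
 (c z e
 (c z e
 (c (a (nat_lit 0xb15f707a000000007)) e e))))))))))))))
 (c (a (nat_lit 0x2020200a2b2a5))
 (c (a (nat_lit 0x9692a4acbcaee7007))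
 (c z e
 (c z e
 (c z e
 (c z e
 (c (a (nat_lit 0x4296c05c327e8ed1849)) e
 (c (a (nat_lit 0xa6be664e6c8a6780a6a)) e e))))))
 (c z e
 (c z e
 (c z e
 (c z e
 (c (a (nat_lit 0xfcfceafae4dcf3308)) e
 (c (a (nat_lit 0xc6c0d6bebea35fd48)) e
 (c (a (nat_lit 0x52421014111d16ca8)) e
 (c (a (nat_lit 0x6e503a2aa912fc1e8)) e e)))))))))
 (c (a (nat_lit 0x8c8e94ee9f46904))
 (c z e
 (c z e
 (c z e
 (c z e
 (c z e
 (c (a (nat_lit 0x948e7a5c5aef7f028)) e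
 (c (a (nat_lit 0x804a3c2ecd0cd8368)) e e)))))))
 (c (a (nat_lit 0x747cc8eb1625444)) e
 (c z e
 (c z e
 (c (a (nat_lit 0x1ab76ee1c08bd083))
 (c z e
 (c (a (nat_lit 0x97695d02ca9ea4e89)) e
 (c (a (nat_lit 0x1a1951e6ed117085e8)) e
 (c (a (nat_lit 0x1615aa3170ccc00008)) e e))))
 (c (a (nat_lit 0x15a68100a602e064))
 (c (a (nat_lit 0x1fde36516eedb29968)) e
 (c (a (nat_lit 0x112d6566a567e50009)) e
 (c (a (nat_lit 0x16ea8a8728c0000008)) e e)))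
 (c z e
 (c (a (nat_lit 0x928f30d288289a3)) e
 (c (a (nat_lit 0x14397cbe32690324)) e
 (c z e
 (c (a (nat_lit 0xfd01091e022f6c5)) e
 (c (a (nat_lit 0x745692609805625)) e
 (c (a (nat_lit 0x6a7c7e9e8235306)) e
 (c (a (nat_lit 0x20a2438303bc26)) e e))))))))))))))))
 (c (a (nat_lit 0x202020203c85))
 (c (a (nat_lit 0x4a4a4c244b116a6))
 (c (a (nat_lit 0x7e94b6e4fb1f8cf47))
 (c z e
 (c z e
 (c z e
 (c z e
 (c (a (nat_lit 0x2a644824485a8b0952a)) e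
 (c (a (nat_lit 0xd67e6c76966bbcf200a)) e e))))))
 (c z e
 (c z e
 (c z e
 (c z e
 (c (a (nat_lit 0x11d2f14ef112b3f549)) e
 (c (a (nat_lit 0xecd8c0b2a70edd449)) e
 (c (a (nat_lit 0x3616160d04b246229)) e
 (c (a (nat_lit 0x6e564df4d4f014148)) e e)))))))))
 (c (b (nat_lit 0x5c5e39ffff06d07)) e
 (c z e
 (c z e
 (c z e
 (c (a (nat_lit 0xdf202c062e8d146))
 (c z e
 (c z e
 (c (a (nat_lit 0x114b8423288924800a)) e e)))
 (c (a (nat_lit 0x144642842421d126))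
 (c z e
 (c (a (nat_lit 0x1ce30205d389200009)) e e))
 (c (a (nat_lit 0x5a2e70aa8a5b406)) e
 (c (a (nat_lit 0x135757d8d5347026)) e
 (c z e
 (c z e
 (c z e
 (c z e
 (c (a (nat_lit 0x14102a26185346a)) e
 (c (b (nat_lit 0x1fe1482848328009)) e
 (c (a (nat_lit 0x18c507c100000005)) e e))))))))))))))))
 (c (a (nat_lit 0x202020339206)) e
 (c (a (nat_lit 0x20203bdaf1c6))
 (c z e
 (c z e
 (c z e
 (c z e
 (c z e
 (c z e
 (c (a (nat_lit 0x1f29a8478cd0a2c7)) e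
 (c (b (nat_lit 0x14cd7ff894c5e726)) e e))))))))
 (c (a (nat_lit 0x2c2d9ff54a766))
 (c z e
 (c z e
 (c z e
 (c z e
 (c z e
 (c (a (nat_lit 0x48312c5a56602e7)) e
 (c z e
 (c z e
 (c (a (nat_lit 0x1420a4a4637cfc8)) e e)))))))))
 (c (a (nat_lit 0x57176b10806c7))
 (c z e
 (c z e
 (c z e
 (c (a (nat_lit 0x8cf90b00c8a8a27)) e
 (c (a (nat_lit 0x139defbf47107c46)) e e)))))
 (c (a (nat_lit 0x197ed9ec6b2b26))
 (c z e
 (c z e
 (c (a (nat_lit 0x8d1ae09cd096b08)) e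
 (c (a (nat_lit 0x102ced31edadd1e8)) e e))))
 (c (a (nat_lit 0x19d4a3636360e5))
 (c (a (nat_lit 0x11b6b735db9cd987)) e
 (c (a (nat_lit 0x484834464435109)) e
 (c (a (nat_lit 0x627ab4c6877f308)) e e)))
 (c (a (nat_lit 0x10402020210045))
 (c (a (nat_lit 0x8c381c062f871c7)) e
 (c (a (nat_lit 0xb68e6a71f39bea7)) e e))
 (c (a (nat_lit 0x4041c2225225))
 (c (a (nat_lit 0x16d4d0d9f3f909e6)) e
 (c (a (nat_lit 0x112f56fd6a6368e7)) e e))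
 (c (a (nat_lit 0x2a32908f8d9e5)) e
 (c z e
 (c z e
 (c z e
 (c (a (nat_lit 0x1c1c14b496f606)) e
 (c (a (nat_lit 0x114a09ec0b47e6)) e
 (c (a (nat_lit 0xa08db350f6a43)) e
 (c (a (nat_lit 0x110b66a1f6a3)) e
 (c (a (nat_lit 0x8e644018bd324)) e
 (c (a (nat_lit 0x110f0c76de3584)) e e))))))))))))))))))))
 C219)
 C218)
 (c (nat_lit 1)
 (c (a (nat_lit 0x20202021)) C216
 (c (nat_lit 1)
 (c (a (nat_lit 0x2020202021))
 (c (a (nat_lit 0x1a4b8464646026))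
 (c (a (nat_lit 0x14c501e4c1aaf666))
 (c z e
 (c (a (nat_lit 0x138d8bc98869e98d29))
 (c (a (nat_lit 0x166f662663600000000b)) e e)
 (c z e
 (c (a (nat_lit 0x8a3c74a0af207cf08)) e e))))
 (c (a (nat_lit 0x42052825ef1428))
 (c (a (nat_lit 0x1c18926b0e4aecb609))
 (c (a (nat_lit 0x158909e320000000000b)) e e) e)
 (c z e
 (c z e
 (c z e
 (c z e
 (c z e
 (c z e
 (c z e
 (c (a (nat_lit 0x1095505a6facb208)) e
 (c (a (nat_lit 0x104f6ce34c268008)) e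
 (c (a (nat_lit 0x862916100000007)) e e))))))))))))
 (c (a (nat_lit 0x1ccdadad844926))
 (c (b (nat_lit 0x37ff02db1b434c8))
 (c (a (nat_lit 0x1af3a8eac92caef869)) e e)
 (c z e
 (c z e
 (c z e
 (c z e
 (c z e
 (c z e
 (c z e
 (c (a (nat_lit 0x10ac4f64a7e586e9)) e
 (c (b (nat_lit 0x1cecbfefa6c00008)) e
 (c (a (nat_lit 0x1a92410000000008)) e e)))))))))))
 (c (a (nat_lit 0x13d3d52bed5d66)) e
 (c (a (nat_lit 0xaaaa447f091c7)) e
 (c z e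
 (c z e
 (c z e
 (c z e
 (c z e
 (c (a (nat_lit 0x186988c26124e8)) e
 (c (a (nat_lit 0x104cad09777d66)) e
 (c (a (nat_lit 0xfd674314fb4c7)) e e))))))))))))
 (c (a (nat_lit 0x20202001))
 (c (a (nat_lit 0x1fbfbfb675ba06))
 (c (a (nat_lit 0xc725c9a92c5ae8))
 (c (a (nat_lit 0x4a282a2a3e242f68a)) e e)
 (c z e
 (c z e
 (c z e
 (c z e
 (c z e
 (c z e
 (c z e
 (c (b (nat_lit 0x1cf49ff149aaa008)) e
 (c (a (nat_lit 0x144a2f2480000008)) e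
 (c (a (nat_lit 0x12a3000000000008)) e e)))))))))))
 (c z e
 (c z e
 (c z e
 (c z e
 (c z e
 (c z e
 (c z e
 (c (a (nat_lit 0x116fafa7e0e268)) e
 (c (a (nat_lit 0xfaff1c62768c8)) e
 (c (a (nat_lit 0x147530ef714b69)) e e)))))))))))
 (c (a (nat_lit 0x20402021)) e
 (c (nat_lit 1) e
 (c (a (nat_lit 0x2020203189)) e
 (c (a (nat_lit 0x1188c9)) e
 (c (a (nat_lit 0x203f974928)) e
 (c z e
 (c (a (nat_lit 0x134f24002008)) e
 (c (a (nat_lit 0x1843a0202007))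
 (c z e
 (c (b (nat_lit 0x89457ffeba609)) e
 (c (b (nat_lit 0xa76dfeb200008)) e e)))
 (c (a (nat_lit 0x1d60402048c4))
 (c (b (nat_lit 0x19c07ff163e008)) e
 (c (a (nat_lit 0x11819ce0000007)) e e))
 (c (a (nat_lit 0x2020227446))
 (c (a (nat_lit 0x1162c000000008)) e e)
 (c (a (nat_lit 0x2347d088)) e
 (c z e
 (c z e
 (c z e
 (c z e
 (c z e
 (c z e
 (c (a (nat_lit 0x163f00a88045)) e
 (c (a (nat_lit 0x1101e1e02006)) e
 (c (a (nat_lit 0x72360000001)) e e))))))))))))))))))))))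
 C215))
 C214))) Tr.c Tr.e (nat_lit 0) C.cx C.cy
noncomputable def C221 : Tr := beta% (fun (c : Nat → Tr → Tr → Tr) (e : Tr) (z : Nat) (a b : Nat → Nat) =>
 (c (nat_lit 1)
 (c (a (nat_lit 0x2e2f6b7ecc7))
 (c (a (nat_lit 0x12725e2dc826c5)) e
 (c z e
 (c z e
 (c (a (nat_lit 0x1d51b5a7c59125)) e
 (c (a (nat_lit 0x104e55d4ac09e6)) e
 (c (a (nat_lit 0x868694c34d8e6)) e
 (c (a (nat_lit 0xb4c16d1f8ec27)) e
 (c (a (nat_lit 0x469afcdc27068)) e e))))))))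
 (c (a (nat_lit 0x14f1cb0408)) e
 (c (a (nat_lit 0x1a5cec202007)) e
 (c (a (nat_lit 0x150d20402026))
 (c (a (nat_lit 0x1110b3b9587226)) e
 (c (a (nat_lit 0x52305e5b01729)) e
 (c z e
 (c (b (nat_lit 0x267fff007a248)) e
 (c (a (nat_lit 0xc807225800009)) e e)))))
 (c (a (nat_lit 0x198020202024))
 (c (a (nat_lit 0x263c4104f63e9)) e
 (c z e
 (c (a (nat_lit 0x74f8cb802008)) e
 (c (a (nat_lit 0x9f5a2e0000009)) e e))))
 (c (a (nat_lit 0x15f5f615ed65))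
 (c (a (nat_lit 0x25916d50b49c7)) e
 (c (a (nat_lit 0x120e4d01800008)) e
 (c (a (nat_lit 0x13054000000008)) e e)))
 (c (a (nat_lit 0x107069c84ce5))
 (c (a (nat_lit 0x10e7e020000007)) e
 (c (a (nat_lit 0x1c000000000006)) e e))
 (c (a (nat_lit 0x9ec52b8f406)) e
 (c z e
 (c (a (nat_lit 0x152c2018183)) e
 (c (a (nat_lit 0x118080406003)) e
 (c (a (nat_lit 0x4020203425)) e
 (c (a (nat_lit 0x6040547465)) e
 (c (a (nat_lit 0x7e2058a02e1)) e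
 (c (a (nat_lit 0x1afb5abb3584)) e e)))))))))))))))
 (c (nat_lit 1)
 (c (a (nat_lit 0x140caa022227)) e
 (c (a (nat_lit 0x198e80202006))
 (c (a (nat_lit 0x4448ae8c33106)) e
 (c (a (nat_lit 0xcac91a6addea7)) e e))
 (c (a (nat_lit 0x1b80202020a5))
 (c (a (nat_lit 0x7306f8eb942a7)) e
 (c (a (nat_lit 0x8492df86848e9)) e e))
 (c (b (nat_lit 0x2040fb3fe1))
 (c (b (nat_lit 0xe119ebfe44f68)) e e)
 (c (a (nat_lit 0x15353555b246)) e
 (c z e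
 (c z e
 (c (a (nat_lit 0x47beb0aeb63)) e
 (c (a (nat_lit 0x10a0c0604083)) e
 (c (a (nat_lit 0x1a1032341c1)) e
 (c (a (nat_lit 0x2c2a22301)) e
 (c (a (nat_lit 0x402038e4)) e
 (c (a (nat_lit 0x40591944)) e
 (c z e
 (c (b (nat_lit 0x1fe423e00001)) e
 (c (a (nat_lit 0x2000000001)) e e))))))))))))))))
 (c (a (nat_lit 0x40404041))
 (c (a (nat_lit 0x1e4020202004))
 (c (a (nat_lit 0x82282e0e21166)) e
 (c (a (nat_lit 0x3c3e562e0f367)) e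
 (c (a (nat_lit 0x223a7906584a7)) e e)))
 (c (a (nat_lit 0x76726fb4143))
 (c (a (nat_lit 0xacb892c30d067)) e
 (c (a (nat_lit 0xe6ef5ce272908)) e e))
 (c (a (nat_lit 0x26267e81c64))
 (c (a (nat_lit 0xa4ec601c47688)) e e)
 (c z e
 (c z e
 (c z e
 (c (a (nat_lit 0x10c220a1e203)) e
 (c (a (nat_lit 0x4c0c5464101)) e
 (c (a (nat_lit 0x5c5e22001)) e
 (c (a (nat_lit 0xa0a06050a4)) e
 (c (a (nat_lit 0x43c3b089a4)) e
 (c z e
 (c (a (nat_lit 0xa514c6bc005)) e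
 (c (a (nat_lit 0x1822c0000003)) e e))))))))))))))
 (c (a (nat_lit 0x40404041))
 (c (a (nat_lit 0xcb072351305))
 (c (a (nat_lit 0xbec9029738586)) e
 (c (a (nat_lit 0x15da1128473ae7)) e e))
 (c (a (nat_lit 0xf3011d43367))
 (c (a (nat_lit 0x172aa0667507c8)) e e)
 (c z e
 (c (a (nat_lit 0x3f1aa486804)) e
 (c (a (nat_lit 0x1391b1b19186)) e
 (c (a (nat_lit 0x8a8b0707067)) e
 (c (a (nat_lit 0x1393d4340006)) e
 (c (a (nat_lit 0xa141107702)) e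
 (c (a (nat_lit 0x410fd5c6e2)) e
 (c z e
 (c (a (nat_lit 0xa300e20c023)) e
 (c (a (nat_lit 0x10aea0a00003)) e
 (c (a (nat_lit 0x1b8000000002)) e e)))))))))))))
 (c (a (nat_lit 0x40202021))
 (c (a (nat_lit 0x11193b7a7a46))
 (c (a (nat_lit 0x8602572848007)) e e)
 (c z e
 (c (a (nat_lit 0x1202420100c3)) e
 (c (a (nat_lit 0x7c30909a001)) e
 (c (a (nat_lit 0xef65a5a6547)) e
 (c (b (nat_lit 0x6e711ffeb26)) e
 (c (a (nat_lit 0x10f0b0b18f66)) e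
 (c z e
 (c (a (nat_lit 0x58162224001)) e
 (c (a (nat_lit 0x1c7e4810001)) e
 (c (a (nat_lit 0x4a0e0000001)) e e)))))))))))
 (c (a (nat_lit 0x202021))
 (c (a (nat_lit 0x11c1c140e002)) e
 (c (a (nat_lit 0x17f7d7f78105)) e
 (c (b (nat_lit 0x1bbbbbb3bfe6)) e
 (c z e
 (c z e
 (c z e
 (c (a (nat_lit 0x1140404003)) e
 (c (a (nat_lit 0x13016080e023)) e
 (c (a (nat_lit 0x76481800001)) e
 (c (a (nat_lit 0x3e000000001)) e e))))))))))
 (c (a (nat_lit 0x20202021))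
 (c (a (nat_lit 0x16b6d6adc005)) e
 (c (a (nat_lit 0x182fd00ca946)) e
 (c z e
 (c z e
 (c (a (nat_lit 0xe395d2d2004)) e
 (c (a (nat_lit 0x19fdce00afe4)) e
 (c (a (nat_lit 0x1e8de0408004)) e
 (c (a (nat_lit 0xe0000001)) e e))))))))
 (c (a (nat_lit 0x2001))
 (c (a (nat_lit 0x164c6cd258e4)) e
 (c z e
 (c (a (nat_lit 0x61598ef4004)) e
 (c (a (nat_lit 0x1c7e59b82005)) e
 (c (a (nat_lit 0xfad4c4033c6)) e
 (c (a (nat_lit 0x9c060400001)) e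
 (c (a (nat_lit 0x4000000001)) e e)))))))
 (c (a (nat_lit 0x20204041))
 (c (b (nat_lit 0x1feffdc1e001)) e
 (c (a (nat_lit 0xcd089006044)) e
 (c (a (nat_lit 0xf8880205ae4)) e
 (c (a (nat_lit 0x26282a32001)) e
 (c (a (nat_lit 0x20000001)) e e)))))
 (c (a (nat_lit 0x20202021))
 (c (a (nat_lit 0x583c0203045)) e
 (c (a (nat_lit 0x4080c08041)) e
 (c (a (nat_lit 0x60600001)) e
 (c (a (nat_lit 0x4000000001)) e e))))
 (c (a (nat_lit 0x202021))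
 (c (a (nat_lit 0x6080402001)) e
 (c (a (nat_lit 0x12080000001)) e e))
 (c (a (nat_lit 0x80606061))
 (c (a (nat_lit 0x4000000001)) e e)
 (c (a (nat_lit 0x202030c4)) e
 (c (a (nat_lit 0x202034c4)) e
 (c (a (nat_lit 0x706d16545)) e
 (c (a (nat_lit 0xa7508c785)) e
 (c (a (nat_lit 0x1305858585)) e
 (c (a (nat_lit 0x140c06001)) e
 (c (a (nat_lit 0x600040a1)) e
 (c (a (nat_lit 0x60a10221)) e
 (c (a (nat_lit 0x2033a4)) e
 (c (a (nat_lit 0x338be4)) e e))))))))))))))))))))))) Tr.c Tr.e (nat_lit 0) C.cx C.cy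
noncomputable def C222 : Tr := beta% (fun (c : Nat → Tr → Tr → Tr) (e : Tr) (z : Nat) (a b : Nat → Nat) =>
 (c (a (nat_lit 0x20202021))
 (c (a (nat_lit 0x4040404041))
 (c z e
 (c z e
 (c (a (nat_lit 0x168741e1a04365))
 (c (a (nat_lit 0x126f76ccb4d6d828)) e
 (c z e
 (c z e
 (c z e
 (c (a (nat_lit 0xe508d2580000007)) e e)))))
 (c (a (nat_lit 0x10ee4e30b58006))
 (c z e
 (c z e
 (c z e
 (c (a (nat_lit 0x1350cfc000000008)) e e))))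
 (c z e
 (c z e
 (c (a (nat_lit 0xaba5ff857cd66)) e
 (c z e
 (c (a (nat_lit 0x14ed798700c8a5)) e
 (c (a (nat_lit 0xdf12cc7aa03a7)) e
 (c z e
 (c z e
 (c (a (nat_lit 0x9b526e46006)) e e)))))))))))))
 (c (a (nat_lit 0x2001))
 (c (a (nat_lit 0x1faf2342e040a4))
 (c (a (nat_lit 0x1e7e63b79beac766)) e
 (c (a (nat_lit 0x170efd2c95d334e9)) e
 (c z e
 (c z e
 (c z e
 (c (a (nat_lit 0x1c6113e5e0000006)) e e))))))
 (c (a (nat_lit 0x15f3735453c007))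
 (c (a (nat_lit 0x131f8b1859591569)) e
 (c z e
 (c z e
 (c z e
 (c (a (nat_lit 0x10f269a000000009)) e e)))))
 (c (b (nat_lit 0xd0cb1ffffffe5)) e
 (c z e
 (c z e
 (c z e
 (c (a (nat_lit 0x11f7fe40803bc5)) e
 (c (a (nat_lit 0x5e783a42b9847)) e
 (c (a (nat_lit 0x1a520bb56ecec6)) e
 (c z e
 (c z e
 (c (a (nat_lit 0xcf72f24200007)) e e))))))))))))
 (c (a (nat_lit 0x20202039a7))
 (c (a (nat_lit 0x10b0aff3908206))
 (c (a (nat_lit 0xee90b4fb40fcca8)) e e)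
 (c z e
 (c z e
 (c z e
 (c (a (nat_lit 0x40812802064e7)) e
 (c (a (nat_lit 0xb1646c1c78367)) e
 (c (a (nat_lit 0xca485683408e8)) e
 (c (a (nat_lit 0x6e82f559e6947)) e
 (c z e
 (c z e
 (c (a (nat_lit 0x1eb7c940000007)) e e)))))))))))
 (c (a (nat_lit 0x20203975e7))
 (c z e
 (c z e
 (c z e
 (c (a (nat_lit 0xae05bf9f2d5c6)) e
 (c z e
 (c z e
 (c z e
 (c z e
 (c z e
 (c (a (nat_lit 0x1deb0000000005)) e e))))))))))
 (c (a (nat_lit 0x405471a528)) e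
 (c (a (nat_lit 0x49413e6a608)) e
 (c (a (nat_lit 0x1e1fca288887))
 (c (a (nat_lit 0xc6d2c0e0f3e28)) e
 (c z e
 (c (a (nat_lit 0x245e797a94409)) e
 (c (b (nat_lit 0x1fe73496614009)) e e))))
 (c (a (nat_lit 0x18c6e3836366))
 (c (a (nat_lit 0x23857de74328)) e
 (c (a (nat_lit 0x164bc05672029)) e
 (c (a (nat_lit 0x6da7148400009)) e e)))
 (c (a (nat_lit 0x100020202024))
 (c (b (nat_lit 0x177fdff2c26007)) e
 (c (a (nat_lit 0x12a5e500000009)) e e))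
 (c (a (nat_lit 0x204097c4))
 (c (a (nat_lit 0x10a30000000008)) e e)
 (c (a (nat_lit 0x43a90b9186)) e
 (c z e
 (c z e
 (c (a (nat_lit 0x10ed09696826)) e
 (c (a (nat_lit 0x50181603666)) e
 (c (a (nat_lit 0x18160366046)) e
 (c (a (nat_lit 0x1c05360a086)) e
 (c (b (nat_lit 0x1642bfea25)) e
 (c z e
 (c (a (nat_lit 0x60000001)) e e))))))))))))))))))))
 (c (a (nat_lit 0x20202021))
 (c (a (nat_lit 0x2020203946))
 (c (a (nat_lit 0x1da08060880321))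
 (c z e
 (c (a (nat_lit 0xd984a35f0d15428)) e
 (c (a (nat_lit 0x9f18d2b698a68c8)) e
 (c z e
 (c z e
 (c (a (nat_lit 0xbf4eb2000000006)) e e))))))
 (c (a (nat_lit 0xdededf1f2a887))
 (c (a (nat_lit 0x1365ad8eed704f29)) e e)
 (c (b (nat_lit 0x82832bfef45c7)) e
 (c z e
 (c z e
 (c (a (nat_lit 0x14d3d0ee91c006)) e
 (c (a (nat_lit 0x15307339d88085)) e
 (c (a (nat_lit 0x140abae7551e5)) e
 (c (a (nat_lit 0x826e7cab2a127)) e e)))))))))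
 (c (a (nat_lit 0x202039ba07))
 (c (a (nat_lit 0xef8fdbe45a026))
 (c (a (nat_lit 0x5edad6cd094c548)) e e)
 (c z e
 (c z e
 (c z e
 (c (a (nat_lit 0x11f4109428b247)) e
 (c (a (nat_lit 0xb6aefae099d27)) e
 (c (a (nat_lit 0x464a5b5b5af08)) e
 (c (a (nat_lit 0x92ab5bef098c8)) e e))))))))
 (c (a (nat_lit 0x19b5eec8)) e
 (c (a (nat_lit 0x33146be328)) e
 (c (a (nat_lit 0x13354de64468)) e
 (c (a (nat_lit 0x1ed10b63a3a6))
 (c (a (nat_lit 0x3e429aa7bfda8)) e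
 (c z e
 (c (a (nat_lit 0x32433b2c4a029)) e
 (c (a (nat_lit 0x6337883200009)) e e))))
 (c (a (nat_lit 0x15a020202044))
 (c (a (nat_lit 0x45eef3680028)) e
 (c (a (nat_lit 0x271932a002009)) e
 (c (a (nat_lit 0xe738860000009)) e e)))
 (c (a (nat_lit 0xc0c0c2c7324))
 (c (a (nat_lit 0xf1629c1000008)) e
 (c (a (nat_lit 0x12660000000009)) e e))
 (c (a (nat_lit 0x4c4edd0f7e5))
 (c (a (nat_lit 0x16e00000000006)) e e)
 (c z e
 (c z e
 (c (a (nat_lit 0x6b164e4c4e4)) e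
 (c (a (nat_lit 0x1940604024c3)) e
 (c (a (nat_lit 0x20427744)) e
 (c (a (nat_lit 0x62370724)) e
 (c (a (nat_lit 0xfbed74c3)) e
 (c (a (nat_lit 0x110096b063)) e e)))))))))))))))))
 C221))) Tr.c Tr.e (nat_lit 0) C.cx C.cy
noncomputable def C223 : Tr := beta% (fun (c : Nat → Tr → Tr → Tr) (e : Tr) (z : Nat) (a b : Nat → Nat) =>
 (c (nat_lit 1)
 (c (a (nat_lit 0x20002001))
 (c (a (nat_lit 0x17452cca58586))
 (c z e
 (c z e
 (c z e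
 (c z e
 (c z e
 (c z e
 (c z e
 (c (a (nat_lit 0xe2bf378316b6cc6)) e e))))))))
 (c (a (nat_lit 0x1b7a4d00202027)) e
 (c (a (nat_lit 0x11c7c222222027)) e
 (c (a (nat_lit 0x13870707026e26)) e
 (c (a (nat_lit 0x7e7ea8490fb06)) e
 (c (a (nat_lit 0x6c6c50c702ce7)) e e))))))
 (c (a (nat_lit 0x2020202021))
 (c (a (nat_lit 0x10c64242424007)) e
 (c (a (nat_lit 0x106868688449e7)) e
 (c (a (nat_lit 0x1292954b7a7ee6)) e e)))
 (c (a (nat_lit 0x2020202021))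
 (c (a (nat_lit 0x1030380ed27ec5)) e
 (c (a (nat_lit 0x13d7b835facbc7)) e e))
 (c (nat_lit 1) e
 (c (a (nat_lit 0x4040404041)) e
 (c (nat_lit 1) e
 (c (a (nat_lit 0x1947))
 (c z e
 (c z e
 (c z e
 (c z e
 (c z e
 (c z e
 (c z e
 (c (a (nat_lit 0x114e70622ea007)) e
 (c (a (nat_lit 0x1a7e8aa0000005)) e e)))))))))
 (c (a (nat_lit 0x2012cda7))
 (c z e
 (c z e
 (c z e
 (c z e
 (c z e
 (c z e
 (c (a (nat_lit 0x5c3e2b2600009)) e
 (c (a (nat_lit 0x1d4dc000000005)) e e))))))))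
 (c (a (nat_lit 0x328e0507))
 (c z e
 (c z e
 (c z e
 (c z e
 (c z e
 (c z e
 (c (a (nat_lit 0x1ca00000000006)) e e)))))))
 (c (a (nat_lit 0x11d1aaa8006)) e
 (c (a (nat_lit 0x1cfd6a602026))
 (c (a (nat_lit 0x78d552be47168)) e
 (c (a (nat_lit 0xa90adf2ea8009)) e e))
 (c (a (nat_lit 0x194780202026))
 (c (a (nat_lit 0x10edbb27800008)) e e)
 (c (a (nat_lit 0x1bc020202724)) e
 (c (a (nat_lit 0x202021f686)) e
 (c (a (nat_lit 0xa0a0992f987)) e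
 (c z e
 (c z e
 (c z e
 (c (a (nat_lit 0x1ab200c02986)) e
 (c (a (nat_lit 0x12610049c646)) e
 (c z e
 (c (a (nat_lit 0x1748f602005)) e e))))))))))))))))))))))
 (c (a (nat_lit 0x20202021))
 (c (a (nat_lit 0x2020202021))
 (c (a (nat_lit 0x108aaaaaa52ae4))
 (c (a (nat_lit 0xc0bf06f52b57a46)) e
 (c z e
 (c z e
 (c z e
 (c z e
 (c (a (nat_lit 0x1417b1f60f7ae707)) e
 (c (a (nat_lit 0x744e6e3f161a848)) e
 (c (a (nat_lit 0xa7815f92e67c166)) e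
 (c z e
 (c z e
 (c (a (nat_lit 0x1484c8c000000006)) e e)))))))))))
 (c (a (nat_lit 0x1151528dcda626))
 (c z e
 (c z e
 (c z e
 (c z e
 (c (a (nat_lit 0x9a2428336e02aa8)) e
 (c z e
 (c (a (nat_lit 0x9ed979b85a18028)) e e)))))))
 (c (b (nat_lit 0x13d6941ff380c6)) e
 (c z e
 (c z e
 (c z e
 (c z e
 (c z e
 (c z e
 (c z e
 (c (a (nat_lit 0x1271b691957607)) e e)))))))))))
 (c (a (nat_lit 0x4040404041))
 (c (b (nat_lit 0x10b2b2106dffe7)) e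
 (c z e
 (c z e
 (c (a (nat_lit 0x12b543e4c54ce6)) e
 (c z e
 (c z e
 (c z e
 (c z e
 (c z e
 (c (a (nat_lit 0xe0c78570da6)) e e))))))))))
 (c (a (nat_lit 0x2020202021))
 (c z e
 (c (a (nat_lit 0xc1047a6826347))
 (c (a (nat_lit 0x172f3911bcb64aa9)) e e)
 (c z e
 (c z e
 (c z e
 (c z e
 (c z e
 (c (a (nat_lit 0x472ab42260fa7)) e
 (c (a (nat_lit 0x14f18ecd700028)) e e)))))))))
 (c (a (nat_lit 0x2020404041))
 (c (a (nat_lit 0x1262a2b160c025))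
 (c (a (nat_lit 0x110b5279fb4ede47)) e e)
 (c z e
 (c z e
 (c z e
 (c z e
 (c z e
 (c (a (nat_lit 0x10590e05f03c67)) e
 (c (a (nat_lit 0xe2b2bc9c81368)) e e))))))))
 (c (a (nat_lit 0x2020203967)) e
 (c (a (nat_lit 0x3952e7)) e
 (c (a (nat_lit 0x37ba2507)) e
 (c (a (nat_lit 0x17956522c7)) e
 (c (a (nat_lit 0xf51e2602027)) e
 (c (a (nat_lit 0x164380202026))
 (c (b (nat_lit 0x352dfffec22c8)) e
 (c (a (nat_lit 0x17b6eb89800008)) e e))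
 (c (a (nat_lit 0x1f40204034e3))
 (c (a (nat_lit 0x1180c080000008)) e e)
 (c (a (nat_lit 0x2020255c85)) e
 (c (a (nat_lit 0x6e6ec7a7c66)) e
 (c z e
 (c z e
 (c z e
 (c (a (nat_lit 0x1181e0234446)) e
 (c (a (nat_lit 0x40b01643)) e
 (c (a (nat_lit 0x10154772c23)) e
 (c z e
 (c (a (nat_lit 0x81a0a00001)) e e)))))))))))))))))))))
 C222))) Tr.c Tr.e (nat_lit 0) C.cx C.cy
noncomputable def C224 : Tr := beta% (fun (c : Nat → Tr → Tr → Tr) (e : Tr) (z : Nat) (a b : Nat → Nat) =>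
 (c (a (nat_lit 0x2020202021))
 (c (a (nat_lit 0x404040544ea6))
 (c (a (nat_lit 0x42426e5cbf56f45))
 (c z e
 (c z e
 (c z e
 (c z e
 (c z e
 (c z e
 (c (a (nat_lit 0x15d08ce6515f674767)) e
 (c (a (nat_lit 0x4418366b6c18a6127)) e e))))))))
 (c z e
 (c z e
 (c z e
 (c z e
 (c z e
 (c z e
 (c (a (nat_lit 0x563a44605778d66)) e
 (c (a (nat_lit 0x866ab6bb7ea0bc6)) e
 (c (a (nat_lit 0x76b0a730c2189e6)) e
 (c z e
 (c z e
 (c z e
 (c z e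
 (c z e
 (c (a (nat_lit 0x1462406000000005)) e e))))))))))))))))
 (c (a (nat_lit 0x20306d07e8)) e
 (c (a (nat_lit 0x203351cae368))
 (c z e
 (c z e
 (c z e
 (c z e
 (c z e
 (c z e
 (c (b (nat_lit 0x40085fff31fffe8)) e e)))))))
 (c (a (nat_lit 0x11533aba4e428)) e
 (c (a (nat_lit 0x1251cba5440408)) e
 (c (a (nat_lit 0x10a7e0c0202427))
 (c z e
 (c z e
 (c (a (nat_lit 0x8cb48e564d3c028)) e e)))
 (c (a (nat_lit 0x1c60202033b225)) e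
 (c (a (nat_lit 0x282828d6c57e6))
 (c (a (nat_lit 0x5a44489c7d6a3a8)) e
 (c (a (nat_lit 0x2a3ab1854058188)) e e))
 (c (a (nat_lit 0x20a626cc3a67)) e
 (c z e
 (c z e
 (c z e
 (c z e
 (c z e
 (c z e
 (c (a (nat_lit 0x1bcba066407a04)) e
 (c (a (nat_lit 0x108608e33f2e84)) e e)))))))))))))))))
 (c (a (nat_lit 0x4040202021))
 (c (a (nat_lit 0x203db9b00547)) e
 (c (a (nat_lit 0x113d26bc4a4a9)) e
 (c (a (nat_lit 0x1f3acb00802028)) e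
 (c (a (nat_lit 0x11a882002020c8)) e
 (c (a (nat_lit 0x1b00202024eb06)) e
 (c (a (nat_lit 0x3a3a526edf527)) e
 (c (a (nat_lit 0x20254ab87a67)) e e)))))))
 (c (a (nat_lit 0x40202001))
 (c (a (nat_lit 0x1dff4e60202027))
 (c z e
 (c z e
 (c z e
 (c z e
 (c z e
 (c (a (nat_lit 0x707c8eec0e6dc07)) e e))))))
 (c (a (nat_lit 0x1e89c100202207)) e
 (c (a (nat_lit 0x13c02020260466)) e
 (c (a (nat_lit 0x1616163d16b906)) e
 (c (b (nat_lit 0xf309ff394cc27)) e e)))))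
 (c (a (nat_lit 0x6080806061))
 (c (a (nat_lit 0x1200202021e005))
 (c (a (nat_lit 0x842612040e59327))
 (c z e
 (c (a (nat_lit 0x15a72140a70efdbae7)) e e))
 (c z e
 (c z e
 (c z e
 (c z e
 (c z e
 (c (a (nat_lit 0x82206f2d6e0e5e8)) e e)))))))
 (c (a (nat_lit 0xc6c706eca7147)) e
 (c z e
 (c z e
 (c z e
 (c z e
 (c z e
 (c z e
 (c z e
 (c z e
 (c z e
 (c z e
 (c (a (nat_lit 0x14a020ff980be5)) e e)))))))))))))
 (c (a (nat_lit 0x4040202021))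
 (c (a (nat_lit 0xdcdcf4bcf9127)) e e)
 (c (a (nat_lit 0x4040202021)) e
 (c (a (nat_lit 0x4040202021))
 (c z e
 (c z e
 (c z e
 (c z e
 (c z e
 (c z e
 (c z e
 (c z e
 (c z e
 (c z e
 (c (a (nat_lit 0x1d7b6fc0000008)) e e)))))))))))
 (c (a (nat_lit 0x20002001))
 (c (a (nat_lit 0x18e4a0602064e6)) e
 (c z e
 (c z e
 (c z e
 (c z e
 (c z e
 (c z e
 (c z e
 (c (a (nat_lit 0x174ceeec000007)) e
 (c (a (nat_lit 0x1c96a000000004)) e e))))))))))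
 (c (a (nat_lit 0x200034e7))
 (c z e
 (c z e
 (c z e
 (c z e
 (c z e
 (c z e
 (c (a (nat_lit 0x9896829f24009)) e
 (c (a (nat_lit 0x1f9db500000006)) e
 (c (a (nat_lit 0x1ea00000000004)) e e)))))))))
 (c (a (nat_lit 0x202014eb07))
 (c (a (nat_lit 0x8c4c445a69047)) e
 (c z e
 (c z e
 (c z e
 (c z e
 (c (a (nat_lit 0x1c1e410600009)) e
 (c (a (nat_lit 0x1a8d4000000005)) e e)))))))
 (c (a (nat_lit 0x203eb56326)) e
 (c z e
 (c (a (nat_lit 0x1e3b4f2a8a87)) e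
 (c (a (nat_lit 0x194700202006)) e
 (c (a (nat_lit 0xd8020203b25)) e
 (c (a (nat_lit 0x2020389f05)) e
 (c (a (nat_lit 0x2b2e5d66)) e
 (c z e
 (c z e
 (c z e
 (c z e
 (c z e
 (c (b (nat_lit 0x19233fe04027)) e
 (c (a (nat_lit 0x182060c00004)) e e))))))))))))))))))))))))) Tr.c Tr.e (nat_lit 0) C.cx C.cy
noncomputable def C225 : Tr := beta% (fun (c : Nat → Tr → Tr → Tr) (e : Tr) (z : Nat) (a b : Nat → Nat) =>
 (c (a (nat_lit 0x4040404041))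
 (c (a (nat_lit 0x132722aa58588))
 (c z e
 (c z e
 (c z e
 (c z e
 (c z e
 (c z e
 (c (a (nat_lit 0xa17b0f4af33cb27)) e e)))))))
 (c (a (nat_lit 0x1b39e840202028)) e
 (c (a (nat_lit 0x1e8fc541616027)) e
 (c (a (nat_lit 0x1d08e8e8e64026))
 (c (a (nat_lit 0x1a647e7ed31b0e9)) e e)
 (c (a (nat_lit 0x12323231d12d47)) e
 (c (b (nat_lit 0x6c7281ff067c7)) e
 (c z e
 (c z e
 (c z e
 (c z e
 (c z e
 (c z e
 (c z e
 (c z e
 (c z e
 (c z e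
 (c (a (nat_lit 0x9f63763000006)) e e)))))))))))))))))
 (c (a (nat_lit 0x2020202021))
 (c (a (nat_lit 0x1007c303030087))
 (c (a (nat_lit 0x8cc604043c170c6))
 (c z e
 (c (a (nat_lit 0x6a765a583a107bbe8)) e
 (c (a (nat_lit 0x6a82463a0c310e008)) e e)))
 (c (a (nat_lit 0x6c243c3402c9fe8))
 (c (a (nat_lit 0xbca8b86e6a592eb09)) e e)
 (c z e
 (c z e
 (c z e
 (c z e
 (c (b (nat_lit 0x28944e3115e7fe8)) e
 (c (a (nat_lit 0xd2a07dfb0cf8148)) e e))))))))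
 (c (a (nat_lit 0x13894949442047))
 (c (a (nat_lit 0x4410140e50e13c9))
 (c (a (nat_lit 0x1aff6ae988d72ce007)) e e)
 (c z e
 (c z e
 (c z e
 (c z e
 (c (a (nat_lit 0x9ae461b3484e009)) e e))))))
 (c (b (nat_lit 0x11b1b30dffe9e7)) e
 (c (b (nat_lit 0x197fbfffffffe5)) e
 (c z e
 (c z e
 (c z e
 (c z e
 (c z e
 (c z e
 (c z e
 (c z e
 (c (a (nat_lit 0x1f256116761ee5)) e
 (c (a (nat_lit 0x2e034f4dda005)) e
 (c (a (nat_lit 0x7521256a38006)) e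
 (c (a (nat_lit 0x10d0c9a0000007)) e e))))))))))))))))
 (c (a (nat_lit 0x2020404041))
 (c (a (nat_lit 0x159595b0aae846)) e
 (c (b (nat_lit 0x14748edfe642e7)) e
 (c z e
 (c z e
 (c z e
 (c (a (nat_lit 0x1210e101004ea6))
 (c (a (nat_lit 0x1796b6000000008)) e e)
 (c (b (nat_lit 0xc64649feef4a7)) e
 (c z e
 (c z e
 (c z e
 (c z e
 (c z e
 (c (a (nat_lit 0x1b79d79bfc7507)) e
 (c (a (nat_lit 0x18949d0ee00006)) e
 (c (a (nat_lit 0x134de000000006)) e e)))))))))))))))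
 (c (a (nat_lit 0x4040404041))
 (c z e
 (c z e
 (c z e
 (c (a (nat_lit 0x11f840c0404c46)) e
 (c (a (nat_lit 0x1be447a8f55fa6)) e
 (c z e
 (c z e
 (c z e
 (c z e
 (c z e
 (c (a (nat_lit 0x8eaaecd1953e7)) e
 (c (a (nat_lit 0xa4e6c78a9c007)) e
 (c (a (nat_lit 0x152ce2a0000005)) e e)))))))))))))
 (c (a (nat_lit 0x4040404041))
 (c z e
 (c (a (nat_lit 0x1f576060402026))
 (c (a (nat_lit 0x129a70d6af780989)) e
 (c (a (nat_lit 0x144ff4700cc0000a)) e e))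
 (c (a (nat_lit 0x17606042828766))
 (c (a (nat_lit 0x1175b32ba0000009)) e e)
 (c (a (nat_lit 0xb2b6bef2c1285)) e
 (c z e
 (c z e
 (c z e
 (c z e
 (c (a (nat_lit 0xd9255d2a94007)) e
 (c (a (nat_lit 0x3c765b1250507)) e
 (c (a (nat_lit 0x11634240800004)) e
 (c (a (nat_lit 0x18ac8000000001)) e e))))))))))))
 (c (a (nat_lit 0x6060606061))
 (c (a (nat_lit 0x17e08080a08085))
 (c (a (nat_lit 0xecaea07d165a007)) e
 (c (a (nat_lit 0x1bfa75d760000007)) e e))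
 (c (a (nat_lit 0x418121994023))
 (c (a (nat_lit 0x16dc724000000007)) e e)
 (c z e
 (c z e
 (c z e
 (c z e
 (c z e
 (c (b (nat_lit 0x5b06fbfe02427)) e
 (c (a (nat_lit 0x14caac74802005)) e
 (c (a (nat_lit 0x13f64900000005)) e e))))))))))
 (c (a (nat_lit 0xa0c0c0e0e1))
 (c (a (nat_lit 0x12f333544e2445))
 (c (a (nat_lit 0x1fee200000000006)) e e)
 (c z e
 (c z e
 (c z e
 (c z e
 (c z e
 (c (a (nat_lit 0x70a6fc6231c28)) e
 (c (a (nat_lit 0xfb4b4e4c00006)) e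
 (c (a (nat_lit 0x1fb02000000006)) e e)))))))))
 (c (a (nat_lit 0x20202033c6))
 (c (a (nat_lit 0x12118caceb5207)) e
 (c z e
 (c z e
 (c z e
 (c z e
 (c z e
 (c (a (nat_lit 0x108e0400000006)) e e)))))))
 (c (a (nat_lit 0x202034ab86))
 (c z e
 (c z e
 (c z e
 (c z e
 (c z e
 (c (a (nat_lit 0x126a8000000007)) e e))))))
 (c (a (nat_lit 0x30ae8046)) e
 (c (a (nat_lit 0xf57d6ad4b27)) e
 (c (a (nat_lit 0x13f26600e0e6)) e
 (c (a (nat_lit 0x1fe900202025)) e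
 (c (a (nat_lit 0x1a20204040c3)) e
 (c (a (nat_lit 0x20413522)) e
 (c (a (nat_lit 0x20215526)) e
 (c (a (nat_lit 0x585a63adea6)) e
 (c z e
 (c z e
 (c z e
 (c (a (nat_lit 0x17c020202006)) e
 (c (a (nat_lit 0x82e3216001)) e
 (c (a (nat_lit 0x3a300000001)) e e)))))))))))))))))))))))) Tr.c Tr.e (nat_lit 0) C.cx C.cy
noncomputable def C226 : Tr := beta% (fun (c : Nat → Tr → Tr → Tr) (e : Tr) (z : Nat) (a b : Nat → Nat) =>
 (c (a (nat_lit 0x4040404041))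
 (c z
 (c (a (nat_lit 0xe7507310707304))
 (c z e
 (c (a (nat_lit 0x10ad8c0bcd4c0aebe7))
 (c z e
 (c z e
 (c z e
 (c z e
 (c z e
 (c (a (nat_lit 0x5ac9832c847c90ae8a9)) e
 (c (a (nat_lit 0x119bd50688a74aebd2e9)) e e)))))))
 (c z e
 (c z e
 (c z e
 (c z e
 (c z e
 (c z e
 (c (a (nat_lit 0x527e7458463c55d27)) e
 (c (a (nat_lit 0x8c7ab272645fadb26)) e
 (c z e
 (c z e
 (c (a (nat_lit 0x3a68593b2cb834008)) e e)))))))))))))
 (c (a (nat_lit 0x7416807e80a3066))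
 (c (a (nat_lit 0x15311012739095b687))
 (c z e
 (c z e
 (c z e
 (c z e
 (c z e
 (c (a (nat_lit 0x48849c3c3a4a52510cb)) e
 (c (a (nat_lit 0x1170446385c8892e200a)) e e)))))))
 (c z e
 (c z e
 (c z e
 (c z e
 (c z e
 (c z e
 (c (a (nat_lit 0x50382820160f2b149)) e
 (c (a (nat_lit 0x4a48363a29049ea49)) e e)))))))))
 (c (a (nat_lit 0x5804040466d1325))
 (c z e
 (c z e
 (c z e
 (c z e
 (c z e
 (c z e
 (c (a (nat_lit 0xb68454402bc78f6c8)) e e)))))))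
 (c (a (nat_lit 0x1c1c2290e12c5a5)) e
 (c (a (nat_lit 0x7488bceb462a3a5)) e
 (c z e
 (c z e
 (c (a (nat_lit 0xf384b6180a9c005))
 (c (a (nat_lit 0x3104cea87e726a9aa)) e
 (c (a (nat_lit 0x1611af472866eae7aa)) e e))
 (c (a (nat_lit 0x174d63426b61c065))
 (c (a (nat_lit 0x15b3a244c320c24008)) e
 (c (a (nat_lit 0x186064018080000008)) e e))
 (c (a (nat_lit 0x10c685cec504a665)) e
 (c (a (nat_lit 0xe2e580eab87c0c5)) e
 (c z e
 (c (a (nat_lit 0x14901030d160e046)) e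
 (c (a (nat_lit 0x1b1a3f9c55340085)) e
 (c (a (nat_lit 0x72ef15152b06025)) e
 (c (a (nat_lit 0x82e423e27b05)) e e))))))))))))))))
 (c z
 (c (a (nat_lit 0x644444462a5a67))
 (c (a (nat_lit 0x8c708cccd51b3d547))
 (c z e
 (c z e
 (c z e
 (c z e
 (c (a (nat_lit 0x186d087e4484aafdda9)) e
 (c (a (nat_lit 0x93246c7086848bc2e2a)) e e))))))
 (c z e
 (c z e
 (c z e
 (c z e
 (c z e
 (c z e
 (c (a (nat_lit 0x7e322a141dead52e9)) e
 (c (b (nat_lit 0x160a10130c1861fea)) e e)))))))))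
 (c (a (nat_lit 0x1414165ab7c1e07)) e
 (c z e
 (c z e
 (c z e
 (c z e
 (c z e
 (c (a (nat_lit 0x1586a042e2c1e507))
 (c (a (nat_lit 0x130823c2c262600009)) e e)
 (c (a (nat_lit 0x18cb9111109146c6)) e
 (c z e
 (c z e
 (c z e
 (c z e
 (c z e
 (c z e
 (c z e
 (c (a (nat_lit 0xf128c6000000005)) e e)))))))))))))))))
 (c (a (nat_lit 0x202020203fa6)) e
 (c (a (nat_lit 0x2020203f16e6))
 (c z e
 (c z e
 (c z e
 (c z e
 (c z e
 (c z e
 (c z e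
 (c (a (nat_lit 0x1b2802c363e340a8)) e e))))))))
 (c (a (nat_lit 0x20203a548827))
 (c (a (nat_lit 0x808263bbd02cc7)) e
 (c (a (nat_lit 0x42253d4eb43287)) e
 (c z e
 (c z e
 (c z e
 (c z e
 (c (a (nat_lit 0x170c72701add2926)) e e)))))))
 (c (a (nat_lit 0x222387910a767))
 (c (a (nat_lit 0x7c7ac6f5af82c07)) e e)
 (c (a (nat_lit 0x231d44be5a4e7)) e
 (c (a (nat_lit 0x14d2ef45e54547))
 (c z e
 (c (a (nat_lit 0xbcd6dec102d8b09)) e
 (c (a (nat_lit 0x7a8e7ed4b67fd29)) e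
 (c (b (nat_lit 0x2e103bffff8e9a9)) e e))))
 (c (a (nat_lit 0x1af240202022c5))
 (c (a (nat_lit 0x5864364646316e8)) e
 (c (a (nat_lit 0x563a546e1564f68)) e e))
 (c (a (nat_lit 0x160040202afc04))
 (c (a (nat_lit 0xd6e9089f706e067)) e e)
 (c (a (nat_lit 0x202022e83566))
 (c (a (nat_lit 0xac74ef2c060e5c8)) e e)
 (c (a (nat_lit 0x5a5e94e7b9c86)) e
 (c z e
 (c z e
 (c (a (nat_lit 0xb10704c0bed28)) e
 (c (a (nat_lit 0x1a19d171339187)) e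
 (c (a (nat_lit 0x11e120a5614126)) e
 (c (a (nat_lit 0x3a1f4c40389c4)) e
 (c (a (nat_lit 0x11a180a70e44)) e
 (c (a (nat_lit 0x1767470d74dd24)) e e))))))))))))))))))))
 (c (a (nat_lit 0x2020000001))
 (c (a (nat_lit 0x20200017c7))
 (c (a (nat_lit 0x1818183a4cc9087))
 (c z e
 (c z e
 (c z e
 (c z e
 (c z e
 (c z e
 (c z e
 (c (a (nat_lit 0x907a1033b0d6f24c8)) e
 (c (a (nat_lit 0x3c20298a2684043a9)) e e)))))))))
 (c (b (nat_lit 0x525263ff4153148)) e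
 (c z e
 (c z e
 (c z e
 (c z e
 (c z e
 (c (a (nat_lit 0xdc0c107a50bf207)) e
 (c (a (nat_lit 0x9c96e5093b08847)) e
 (c z e
 (c z e
 (c z e
 (c z e
 (c z e
 (c z e
 (c (a (nat_lit 0x1c7e61c0e0000005)) e e))))))))))))))))
 (c (a (nat_lit 0x202020383348)) e
 (c (a (nat_lit 0x2030eee929)) e
 (c (a (nat_lit 0x20312fe8c2e9)) e
 (c (a (nat_lit 0x110b0abc46369))
 (c z e
 (c z e
 (c z e
 (c z e
 (c (b (nat_lit 0x19064c7fe2894308)) e e)))))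
 (c (a (nat_lit 0x1694ace0202028)) e
 (c (a (nat_lit 0x15852020202327)) e
 (c (a (nat_lit 0xde0202053be85))
 (c (a (nat_lit 0x464c4238452cb09)) e
 (c (a (nat_lit 0x34302e3972444ea)) e e))
 (c (a (nat_lit 0x2020a3465128))
 (c (a (nat_lit 0x3a4247081c2002a)) e e)
 (c (a (nat_lit 0x1616487d417a8)) e
 (c z e
 (c z e
 (c z e
 (c z e
 (c z e
 (c (a (nat_lit 0x1927a628a968c7)) e e))))))))))))))))
 (c (nat_lit 1)
 (c (a (nat_lit 0x20203c783007)) e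
 (c (a (nat_lit 0x3ffef30708)) e
 (c (a (nat_lit 0x111b069448489)) e
 (c (b (nat_lit 0x1b9ab05fe02028)) e
 (c (a (nat_lit 0x1c4fc1c1a1a027)) e
 (c (a (nat_lit 0x10e4040403a727)) e
 (c (a (nat_lit 0x3e3e4652a5227)) e e)))))))
 C225)))) Tr.c Tr.e (nat_lit 0) C.cx C.cy
noncomputable def C227 : Tr := beta% (fun (c : Nat → Tr → Tr → Tr) (e : Tr) (z : Nat) (a b : Nat → Nat) =>
 (c (a (nat_lit 0x4040404041))
 (c (a (nat_lit 0x19382845456566))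
 (c (a (nat_lit 0x19debf3bfb5b7ac7))
 (c z e
 (c (a (nat_lit 0xccdacab098a0bf868)) e
 (c (a (nat_lit 0x11d431aeed0c5351a8)) e
 (c (a (nat_lit 0x18f49a155770c00008)) e e))))
 (c (a (nat_lit 0x98f27a1c2611086))
 (c (a (nat_lit 0x1c2a40242a28832e9)) e
 (c (a (nat_lit 0x1373b2ad2d5477c009)) e e))
 (c (a (nat_lit 0x4e4e64302e67368))
 (c (a (nat_lit 0x1998136beff1400008)) e e)
 (c z e
 (c z e
 (c (a (nat_lit 0xceb0f58ac073167)) e
 (c (a (nat_lit 0x324c742422996a8)) e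
 (c (a (nat_lit 0x89087e613ce56c7)) e
 (c (a (nat_lit 0x10e6e33345eb6467)) e
 (c (a (nat_lit 0x97015d7e8c00007)) e e))))))))))
 (c (a (nat_lit 0x15ee27e40400a6))
 (c (a (nat_lit 0xac92504a5ad7a67))
 (c (a (nat_lit 0x52b2705c4c69da388)) e
 (c (a (nat_lit 0x195b319052b8000009)) e e))
 (c (a (nat_lit 0x9c98787cb35b409))
 (c (a (nat_lit 0x1f776fee8e00000009)) e e)
 (c z e
 (c z e
 (c z e
 (c (a (nat_lit 0x1e52361ca11c4a9)) e
 (c (a (nat_lit 0xa86a487910b22a8)) e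
 (c (a (nat_lit 0x8228a3aa9448007)) e
 (c (a (nat_lit 0xa0d156320000008)) e e)))))))))
 (c (a (nat_lit 0x114aaaaaa740c6))
 (c (a (nat_lit 0xa66e9acf7d2d5a8)) e
 (c z e
 (c z e
 (c z e
 (c (a (nat_lit 0x945a5ab1428aa09)) e
 (c (a (nat_lit 0xb8aed2a740eeba8)) e
 (c (a (nat_lit 0x1892d4d552400007)) e
 (c (a (nat_lit 0x1818e26000000007)) e e))))))))
 (c (a (nat_lit 0x1a3a5cf66ec9c5))
 (c z e
 (c z e
 (c z e
 (c (a (nat_lit 0x929ec332a0eaae9)) e e))))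
 (c (b (nat_lit 0x507b43fffffe5))
 (c (a (nat_lit 0x2e185578440d526)) e
 (c (b (nat_lit 0x3c1cdbff1f7cb67)) e e))
 (c z e
 (c z e
 (c (a (nat_lit 0x3210020207007)) e
 (c (a (nat_lit 0x1002021d16507)) e
 (c (a (nat_lit 0x3e3e736eb4327)) e
 (c z e
 (c z e
 (c (a (nat_lit 0x13a5802021a486)) e
 (c (a (nat_lit 0x1580802111cf24)) e
 (c (a (nat_lit 0x102ff09917cf25)) e
 (c (a (nat_lit 0x949f288c00005)) e
 (c (a (nat_lit 0x16136000000004)) e e)))))))))))))))))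
 (c (a (nat_lit 0xc0c0c0c0c1))
 (c (a (nat_lit 0x1048c8c8c56025))
 (c (a (nat_lit 0x88524c6298b95a6)) e
 (c (a (nat_lit 0xaca0aacf4bd3788))
 (c (a (nat_lit 0x1ef3d46d0000000008)) e e)
 (c z e
 (c z e
 (c z e
 (c (a (nat_lit 0x387e4cfb26f8828)) e
 (c (a (nat_lit 0x927e711b2a80a28)) e
 (c (a (nat_lit 0x30630a7a3000008)) e
 (c (a (nat_lit 0xb30a40000000008)) e e)))))))))
 (c (a (nat_lit 0x1272928f2644a6))
 (c (a (nat_lit 0x6e76b30d4d6d648)) e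
 (c z e
 (c z e
 (c z e
 (c (a (nat_lit 0xe0cf6561593d2e9)) e
 (c (a (nat_lit 0x8298991cd2a8009)) e
 (c (a (nat_lit 0x13318faec0000008)) e
 (c (a (nat_lit 0x1328400000000008)) e e))))))))
 (c (b (nat_lit 0x19395fffffffe4)) e
 (c z e
 (c z e
 (c (a (nat_lit 0x180421e22e82))
 (c (a (nat_lit 0x11cd2d4440000007)) e e)
 (c (a (nat_lit 0x2e040202191e5)) e
 (c (a (nat_lit 0x4242428716966)) e
 (c (a (nat_lit 0x6668b308a03e7)) e
 (c z e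
 (c z e
 (c (a (nat_lit 0x8e4a0212293c5)) e
 (c (a (nat_lit 0xcc849699ad405)) e
 (c (a (nat_lit 0xa0b6b7caae005)) e
 (c (a (nat_lit 0x123311e0000005)) e e)))))))))))))))
 (c (a (nat_lit 0x4040204041))
 (c (a (nat_lit 0x1a3a3369a7a4c5))
 (c (a (nat_lit 0x36467c9d02ad0e7)) e
 (c z e
 (c (a (nat_lit 0xd8efd4852efcf67)) e
 (c (a (nat_lit 0xa924df994521628)) e
 (c (a (nat_lit 0xc2f3db191f32bc8)) e
 (c (a (nat_lit 0xb77b55c76a00007)) e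
 (c (a (nat_lit 0x1fb5ae6000000007)) e
 (c (a (nat_lit 0x1220000000000006)) e e))))))))
 (c z e
 (c z e
 (c (a (nat_lit 0x5d84642220001))
 (c (a (nat_lit 0xd31ea2f2e04c008)) e
 (c (a (nat_lit 0x17d53caf60000008)) e e))
 (c (a (nat_lit 0xe060404054e5))
 (c (a (nat_lit 0x16dbab0000000007)) e e)
 (c (a (nat_lit 0xc2c0c0bf976c5)) e
 (c (a (nat_lit 0x52f2f12110b46)) e
 (c (a (nat_lit 0xd4b95948a27c6)) e
 (c z e
 (c (a (nat_lit 0x185bf3ae2b0045)) e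
 (c (a (nat_lit 0xe2a2907e795e6)) e
 (c (a (nat_lit 0x58361207d23c5)) e
 (c (a (nat_lit 0x18f695f9800005)) e
 (c (a (nat_lit 0xb004000000001)) e e))))))))))))))
 (c (a (nat_lit 0x2020202021))
 (c z e
 (c (a (nat_lit 0x2336bc584e481))
 (c (a (nat_lit 0x1109afe94f53f288)) e
 (c (a (nat_lit 0x40f6a6d71488009)) e e))
 (c (a (nat_lit 0x1183a1a26101c1))
 (c (a (nat_lit 0x130d0e9046000008)) e
 (c (a (nat_lit 0x191af10000000008)) e e))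
 (c (a (nat_lit 0x10701115578a23))
 (c (a (nat_lit 0x1a6c800000000007)) e e)
 (c (a (nat_lit 0x13f4142e473705)) e
 (c z e
 (c z e
 (c z e
 (c (a (nat_lit 0x17190b0512105)) e
 (c (a (nat_lit 0xaca2e30bd0c25)) e
 (c (a (nat_lit 0x2668955624005)) e
 (c (a (nat_lit 0x113cc0c0000003)) e e))))))))))))
 (c (a (nat_lit 0x20002001))
 (c (a (nat_lit 0x8a6e30384a421))
 (c (a (nat_lit 0x1a6f25e753f626c5)) e
 (c (a (nat_lit 0xc23e2b209000007)) e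
 (c (a (nat_lit 0x7556c0000000006)) e e)))
 (c (a (nat_lit 0x1404100c07883))
 (c (a (nat_lit 0xac59f8c00000006)) e
 (c (a (nat_lit 0x128ee00000000007)) e e))
 (c (a (nat_lit 0x1232d314e17063)) e
 (c z e
 (c z e
 (c (a (nat_lit 0x2a471b0724966)) e
 (c z e
 (c z e
 (c (a (nat_lit 0xb94303a7a71e4)) e
 (c (a (nat_lit 0xa46b108a00004)) e
 (c (a (nat_lit 0xc30c000000003)) e e)))))))))))
 (c (a (nat_lit 0x2020202021))
 (c (a (nat_lit 0xc0c0d8e023)) e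
 (c (a (nat_lit 0x1a3a3a5b788f65)) e
 (c z e
 (c (a (nat_lit 0x54c0d4bee9925)) e
 (c (a (nat_lit 0x6a887b0f5c026)) e
 (c (a (nat_lit 0x691237ef5106)) e
 (c z e
 (c (a (nat_lit 0x77b4f99406004)) e
 (c (a (nat_lit 0x1aef6080000004)) e e)))))))))
 (c (a (nat_lit 0x2020202021))
 (c (a (nat_lit 0x15d4d472a82964)) e
 (c (a (nat_lit 0x526a7002092e6)) e
 (c (a (nat_lit 0x6466660908fc6)) e
 (c (a (nat_lit 0xc0c0274153c7)) e
 (c z e
 (c z e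
 (c (a (nat_lit 0x186d0e26200005)) e
 (c (a (nat_lit 0x1cefe000000004)) e e))))))))
 (c (a (nat_lit 0x6080608021))
 (c (a (nat_lit 0x4a60020461066)) e
 (c (a (nat_lit 0xc06608a3b3ee6)) e
 (c (a (nat_lit 0xe2266fd69ce7)) e
 (c z e
 (c z e
 (c (a (nat_lit 0x1b2ee840000005)) e e))))))
 (c (a (nat_lit 0x1272727316a4))
 (c (a (nat_lit 0xee90c16bd9686)) e
 (c (a (nat_lit 0x3450811132da8)) e
 (c z e
 (c z e
 (c (a (nat_lit 0x11a56000000006)) e e)))))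
 (c (a (nat_lit 0x1abaabbf9144))
 (c (a (nat_lit 0x545f53cb53087)) e e)
 (c (a (nat_lit 0x136d11d08ee6)) e
 (c (a (nat_lit 0xe12d2107066)) e
 (c (a (nat_lit 0x10a6a080a0a3)) e
 (c (a (nat_lit 0x168040204001)) e
 (c (a (nat_lit 0x40412001)) e
 (c (a (nat_lit 0x20a07023)) e
 (c (a (nat_lit 0x2634272b1c3)) e
 (c (a (nat_lit 0xe8dbe3d3d43)) e
 (c (a (nat_lit 0x61795f61623)) e
 (c (a (nat_lit 0x5c04040a041)) e
 (c (a (nat_lit 0x142a3e341a1)) e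
 (c (a (nat_lit 0x1c401c00001)) e
 (c (a (nat_lit 0x26000000001)) e e)))))))))))))))))))))))) Tr.c Tr.e (nat_lit 0) C.cx C.cy
noncomputable def C228 : Tr := beta% (fun (c : Nat → Tr → Tr → Tr) (e : Tr) (z : Nat) (a b : Nat → Nat) =>
 (c (a (nat_lit 0x2020002001))
 (c z
 (c (a (nat_lit 0x5c020202c312b65))
 (c z e
 (c z e
 (c z e
 (c z e
 (c z e
 (c z e
 (c (a (nat_lit 0xa692fee5065091b07)) e
 (c (a (nat_lit 0x583c462a5e39625e7)) e e))))))))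
 (c (a (nat_lit 0x141414d75535ee6)) e
 (c (a (nat_lit 0x3030db330370f26)) e
 (c z e
 (c z e
 (c z e
 (c z e
 (c z e
 (c z e
 (c z e
 (c z e
 (c z e
 (c (a (nat_lit 0x6c7aa46a5a05407)) e
 (c (a (nat_lit 0x6a8e7c868407727)) e e))))))))))))))
 (c (a (nat_lit 0x202020203a06))
 (c (a (nat_lit 0x18183a88bc997a7)) e
 (c z e
 (c z e
 (c z e
 (c z e
 (c z e
 (c z e
 (c z e
 (c (a (nat_lit 0x129439f4cc69a086)) e
 (c (a (nat_lit 0x101795656387e106)) e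
 (c (a (nat_lit 0x1bb8b7e740cc3f86)) e e)))))))))))
 (c (a (nat_lit 0x20202039f6c6)) e
 (c (a (nat_lit 0x2036f3a7e7))
 (c (a (nat_lit 0x6e77049a0e05c6)) e
 (c z e
 (c z e
 (c z e
 (c z e
 (c z e
 (c (a (nat_lit 0xbc4e5d36f9022e7)) e e)))))))
 (c (a (nat_lit 0x203333aca387))
 (c z e
 (c z e
 (c z e
 (c z e
 (c (a (nat_lit 0xae8e6fd718a5646)) e e)))))
 (c (a (nat_lit 0x170f14b230307))
 (c z e
 (c z e
 (c z e
 (c z e
 (c (a (nat_lit 0x34d2e10e7ce4f07)) e e)))))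
 (c (a (nat_lit 0x1dd892e4042426)) e
 (c (a (nat_lit 0x1f10a020205925)) e
 (c (a (nat_lit 0x82020202e15e6))
 (c (b (nat_lit 0x4c4a52730dfe608)) e e)
 (c (a (nat_lit 0x20202e16d266))
 (c (a (nat_lit 0xa8dd4ec632d71a6)) e e)
 (c (a (nat_lit 0x1a1af57743fc6)) e
 (c z e
 (c z e
 (c z e
 (c z e
 (c (a (nat_lit 0x1ddd07a3c6c686)) e e))))))))))))))))
 (c (a (nat_lit 0x2020002021))
 (c (a (nat_lit 0x202020397665))
 (c z e
 (c z e
 (c z e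
 (c z e
 (c z e
 (c z e
 (c z e
 (c z e
 (c z e
 (c (a (nat_lit 0x15b66b514f0ab1c5)) e
 (c (a (nat_lit 0xf4b8b682d745626)) e e)))))))))))
 (c (a (nat_lit 0x202032f22ac7))
 (c z e
 (c z e
 (c z e
 (c z e
 (c z e
 (c z e
 (c (a (nat_lit 0xb6ea5ab6633d087)) e
 (c z e
 (c (a (nat_lit 0x7ea2c10d3166a06)) e e)))))))))
 (c (a (nat_lit 0x2032b2a86387)) e
 (c (a (nat_lit 0x17495f0c684a7)) e
 (c (a (nat_lit 0x1c9f5587070706))
 (c (a (nat_lit 0x3828c2866ce1387)) e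
 (c z e
 (c z e
 (c z e
 (c z e
 (c z e
 (c z e
 (c (a (nat_lit 0x13047fd21200008)) e e))))))))
 (c (a (nat_lit 0x108b0282828006))
 (c z e
 (c (a (nat_lit 0x11c2e325a2e18f48)) e e))
 (c (a (nat_lit 0x1605254542ae45)) e
 (c (a (nat_lit 0x1a1a281cc52e6))
 (c (a (nat_lit 0x544627746ace427)) e e)
 (c (a (nat_lit 0x38383af1750c6)) e
 (c z e
 (c z e
 (c (a (nat_lit 0xcf1f1f00fb047)) e
 (c z e
 (c z e
 (c z e
 (c z e
 (c z e
 (c (a (nat_lit 0x1046238060c044)) e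
 (c (a (nat_lit 0x194e4242200002)) e
 (c (a (nat_lit 0x17a04000000001)) e e))))))))))))))))))))
 (c (a (nat_lit 0x2020202021))
 (c (a (nat_lit 0xacadd3fd4afc6))
 (c z e
 (c z e
 (c z e
 (c z e
 (c z e
 (c z e
 (c z e
 (c (a (nat_lit 0x954ef322d770706)) e e))))))))
 (c (a (nat_lit 0x77c9d2f8c8c87)) e
 (c (a (nat_lit 0x15b80f67052527))
 (c z e
 (c (a (nat_lit 0x98f6be909353ca8))
 (c (a (nat_lit 0xdfd57ae8acb600009)) e e)
 (c z e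
 (c z e
 (c z e
 (c z e
 (c z e
 (c (b (nat_lit 0x4c4ffe951286349)) e
 (c (a (nat_lit 0x8a6907084200009)) e e)))))))))
 (c (a (nat_lit 0x10490262626026))
 (c (a (nat_lit 0x7066a89cc5dda07))
 (c (a (nat_lit 0x1c9b66a60580000007)) e e)
 (c z e
 (c z e
 (c z e
 (c z e
 (c z e
 (c (a (nat_lit 0xf688c982f2b4008)) e
 (c (a (nat_lit 0xd51512120000008)) e e))))))))
 (c (b (nat_lit 0x1124242422dfe5)) e
 (c (a (nat_lit 0x19b9b9d6563344)) e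
 (c (a (nat_lit 0xef0ad9973c6c5))
 (c (a (nat_lit 0x783f8f53369a2e7)) e e)
 (c z e
 (c z e
 (c (a (nat_lit 0x7946409149ae5)) e
 (c (a (nat_lit 0x9c1e9ed708b06)) e
 (c z e
 (c z e
 (c z e
 (c z e
 (c z e
 (c (a (nat_lit 0xb239181e12005)) e
 (c (a (nat_lit 0x51fe080000004)) e
 (c (a (nat_lit 0x1f600000000004)) e e)))))))))))))))))))
 C227)))) Tr.c Tr.e (nat_lit 0) C.cx C.cy
noncomputable def C229 : Tr := beta% (fun (c : Nat → Tr → Tr → Tr) (e : Tr) (z : Nat) (a b : Nat → Nat) =>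
 (c z
 (c (a (nat_lit 0x1e008d0d57d53524))
 (c (a (nat_lit 0xeb091cfcfaf90ee86)) e
 (c z e
 (c z e
 (c z e
 (c z e
 (c z e
 (c z e
 (c z e
 (c z e
 (c (a (nat_lit 0x628080866e76454e7)) e
 (c z e
 (c z e
 (c (a (nat_lit 0x285090717b5cbe4c8)) e
 (c (a (nat_lit 0x489155f7c06600008)) e
 (c (a (nat_lit 0x2c538a8c000000009)) e e)))))))))))))))
 (c (b (nat_lit 0x2281fe422e2f1a5))
 (c z e
 (c z e
 (c z e
 (c z e
 (c z e
 (c z e
 (c z e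
 (c (a (nat_lit 0x2a461e0a1c10030a9)) e
 (c (a (nat_lit 0x2a301c1e2a0904449)) e e)))))))))
 (c (a (nat_lit 0x80320202024d825))
 (c z e
 (c z e
 (c z e
 (c z e
 (c z e
 (c z e
 (c (a (nat_lit 0x3c866c5660217f768)) e e)))))))
 (c (a (nat_lit 0x2a2a2a2a7d5f5c5))
 (c z e
 (c z e
 (c z e
 (c z e
 (c z e
 (c (a (nat_lit 0x9872546e376f02c88)) e e))))))
 (c (a (nat_lit 0x32324ac7090e305)) e
 (c (a (nat_lit 0xf8fd49711496025)) e
 (c z e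
 (c z e
 (c (a (nat_lit 0x10da7142612aa245))
 (c (a (nat_lit 0x1b35112465e2a303e8)) e
 (c (a (nat_lit 0x1f3e62ada1c0e00007)) e e))
 (c (a (nat_lit 0x177344838cc4a725)) e
 (c (a (nat_lit 0x17e8e79109060205)) e
 (c z e
 (c (a (nat_lit 0xff330cf6eee6066)) e
 (c (a (nat_lit 0x1690f18e8b08c7a6)) e
 (c (a (nat_lit 0x59376d293b49245)) e
 (c (a (nat_lit 0x46143430311e4)) e e))))))))))))))))
 (c z
 (c (a (nat_lit 0xd4184c464709b66))
 (c z e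
 (c z e
 (c z e
 (c z e
 (c z e
 (c z e
 (c z e
 (c (a (nat_lit 0xb4522a4826472e9e8)) e e))))))))
 (c (a (nat_lit 0x180202026707ca7)) e
 (c (a (nat_lit 0x1a1a1a8cf788fc7)) e
 (c z e
 (c z e
 (c z e
 (c z e
 (c z e
 (c z e
 (c z e
 (c z e
 (c z e
 (c (a (nat_lit 0x153416d60ac80027)) e
 (c z e
 (c z e
 (c (a (nat_lit 0x15e664ee5047e006)) e e))))))))))))))))
 (c z
 (c (a (nat_lit 0x4646464cdf20de6)) e
 (c z e
 (c z e
 (c z e
 (c z e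
 (c z e
 (c z e
 (c z e
 (c z e
 (c z e
 (c (a (nat_lit 0x1476d88ea464ce47)) e e)))))))))))
 (c (a (nat_lit 0x20202030a6))
 (c z e
 (c z e
 (c z e
 (c (a (nat_lit 0x6a40207841d3027))
 (c (a (nat_lit 0xc87eda9e2a9d01209)) e e)
 (c z e
 (c z e
 (c z e
 (c (b (nat_lit 0x83bebbfe7c1e387)) e e))))))))
 (c (a (nat_lit 0x20202030ae66))
 (c (a (nat_lit 0x360e0c0219729c7))
 (c z e
 (c (a (nat_lit 0x1818f120c886c70828)) e
 (c (a (nat_lit 0x157128e5456c0ac5a8)) e e)))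
 (c (a (nat_lit 0x3824041b88eae87))
 (c (a (nat_lit 0x104ae185a827eb09c9)) e
 (c (a (nat_lit 0x168f63ea6cd1972809)) e
 (c z e
 (c z e
 (c z e
 (c (a (nat_lit 0xa1009800000000009)) e e))))))
 (c z e
 (c z e
 (c z e
 (c (a (nat_lit 0x154ce842638c0927)) e
 (c (a (nat_lit 0x1aaf40e28cdbce66)) e
 (c (a (nat_lit 0xb276065eed44827)) e
 (c (a (nat_lit 0x7eb47ecf4786ba6)) e
 (c z e
 (c z e
 (c z e
 (c (a (nat_lit 0x1a0eca8000000005)) e e)))))))))))))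
 (c (a (nat_lit 0x1616172918c87))
 (c (a (nat_lit 0x301a1864d91ada7))
 (c z e
 (c (a (nat_lit 0xa86a7e9f1152c0809)) e e))
 (c z e
 (c z e
 (c z e
 (c (a (nat_lit 0x10789e892ebfba26)) e
 (c (a (nat_lit 0x146de98a3c1a5ca7)) e
 (c (a (nat_lit 0xac4a38d13b58da8)) e
 (c z e
 (c z e
 (c z e
 (c z e
 (c (a (nat_lit 0x1161e00000000007)) e e))))))))))))
 (c (a (nat_lit 0x5a5b8fb1149a6))
 (c (a (nat_lit 0x3cdf91e2943e6a5))
 (c z e
 (c (a (nat_lit 0xa675117f7aa400009)) e e)) e)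
 (c (a (nat_lit 0x2d8f4f2c74766))
 (c z e
 (c z e
 (c (a (nat_lit 0xf6f8f8f36af6d28)) e e)))
 (c (a (nat_lit 0x10540e00202025))
 (c (a (nat_lit 0xe686da9b0126b06)) e
 (c (a (nat_lit 0x4ea4a4f70c61427)) e e))
 (c (b (nat_lit 0x131fe040402dc3))
 (c (a (nat_lit 0xaf1953807d38026)) e e)
 (c (a (nat_lit 0x2020277f04))
 (c (a (nat_lit 0x12eee7b0b2c365a7)) e e)
 (c (a (nat_lit 0x36363656b5106)) e
 (c (a (nat_lit 0x7e7e9eff55686)) e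
 (c z e
 (c z e
 (c z e
 (c (a (nat_lit 0x1a1a8443a88845)) e
 (c (a (nat_lit 0x17616105a56505)) e
 (c (a (nat_lit 0x6e4f774337283)) e
 (c (a (nat_lit 0xb0afaf8e9683)) e e))))))))))))))))))))) Tr.c Tr.e (nat_lit 0) C.cx C.cy
noncomputable def C230 : Tr := beta% (fun (c : Nat → Tr → Tr → Tr) (e : Tr) (z : Nat) (a : Nat → Nat) =>
 (c z
 (c (a (nat_lit 0xccf4a4201a1bc44))
 (c z e
 (c z e
 (c z e
 (c z e
 (c z e
 (c z e
 (c z e
 (c z e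
 (c (a (nat_lit 0x406c4c66c069d08c6)) e
 (c z e
 (c z e
 (c z e
 (c (a (nat_lit 0x6ee5136e560000008)) e e)))))))))))))
 (c (a (nat_lit 0xa068020202cde45))
 (c z e
 (c z e
 (c z e
 (c z e
 (c z e
 (c z e
 (c (a (nat_lit 0xd6f2b660c8fa7fd66)) e
 (c z e
 (c (a (nat_lit 0x8e728c56e375676a7)) e e)))))))))
 (c (a (nat_lit 0x60141414e9b8bc5)) e
 (c (a (nat_lit 0x1414255fb8fad85))
 (c z e
 (c z e
 (c z e
 (c z e
 (c z e
 (c (a (nat_lit 0x7c5e713896aac2848)) e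
 (c (a (nat_lit 0x485caf2ab0d0885a8)) e e)))))))
 (c (a (nat_lit 0x1012f34ec6d2945))
 (c z e
 (c (a (nat_lit 0xa10353559df119a47)) e
 (c (a (nat_lit 0xe0f158f8faa5a8e07)) e e)))
 (c z e
 (c z e
 (c z e
 (c z e
 (c (a (nat_lit 0x12d26b6a2bcae9e6)) e
 (c z e
 (c z e
 (c (a (nat_lit 0x1434b7d76d46c9c4)) e
 (c z e
 (c (a (nat_lit 0xf9050903132d6c6)) e e)))))))))))))))
 (c z
 (c (a (nat_lit 0xa2383a3a24fda64))
 (c z e
 (c z e
 (c z e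
 (c z e
 (c z e
 (c (a (nat_lit 0x1405a544e3414168e7)) e e))))))
 (c (a (nat_lit 0x10f0f0eff91aab45)) e
 (c (a (nat_lit 0xaab9072f7e6c5c5)) e
 (c z e
 (c (a (nat_lit 0xacc15eeb345c024))
 (c z e
 (c z e
 (c (a (nat_lit 0xa4dcf110366eb4b88)) e e)))
 (c z e
 (c z e
 (c z e
 (c z e
 (c (a (nat_lit 0x18d97a1817ed6ba5)) e
 (c (a (nat_lit 0x1f371e3d7722e004)) e
 (c (a (nat_lit 0x1a9a9b79da170ce6)) e e))))))))))))
 (c z
 (c (a (nat_lit 0xf2f2eb04e8ba9a6))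
 (c z e
 (c z e
 (c z e
 (c z e
 (c z e
 (c z e
 (c (a (nat_lit 0x844d4542ca946e5c8)) e
 (c (a (nat_lit 0x39153a9a90443e008)) e e))))))))
 (c z e
 (c (a (nat_lit 0x1e6f950d6047f704))
 (c (a (nat_lit 0xc49ab23aff5740967)) e
 (c (a (nat_lit 0x12f22a37f9f4954be8)) e e))
 (c (a (nat_lit 0xb0ee2a5331139e4))
 (c (a (nat_lit 0x8e62bf167ace74a08)) e
 (c (a (nat_lit 0x75014cc4ba76eb208)) e e))
 (c (a (nat_lit 0xc66480d568beb65)) e
 (c (a (nat_lit 0x1233d4bc95bb77a5)) e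
 (c z e
 (c z e
 (c (a (nat_lit 0x116b35cdf26300c5)) e
 (c (a (nat_lit 0x92f0b30c5a12c66)) e
 (c (a (nat_lit 0xc28ce8662223aa6)) e e)))))))))))
 (c (a (nat_lit 0x5454545455103))
 (c (a (nat_lit 0x644a3e160e192e6)) e
 (c (a (nat_lit 0x4a1a0202111eaa6)) e
 (c (a (nat_lit 0x1608061126bc886))
 (c z e
 (c z e
 (c z e
 (c z e
 (c (a (nat_lit 0x13f089400000000008)) e e)))))
 (c (a (nat_lit 0x8c8c9bb91ae47e6)) e
 (c z e
 (c (a (nat_lit 0x7b7312d67c8ee66)) e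
 (c (a (nat_lit 0x150daa0546498ea6)) e
 (c (a (nat_lit 0xbc98603a829b0e6)) e
 (c (a (nat_lit 0xb042668c4b3ed85)) e
 (c (a (nat_lit 0x22348a84a2b77a6)) e
 (c z e
 (c (a (nat_lit 0xef073d1341a8007)) e
 (c (a (nat_lit 0xd9c02c140000004)) e
 (c (a (nat_lit 0x1c41600000000004)) e e))))))))))))))
 (c (a (nat_lit 0x5a5a5a5b17563))
 (c (a (nat_lit 0x1e0808082306c05)) e
 (c (a (nat_lit 0x4040e0fded90945))
 (c (a (nat_lit 0xc09678d2d13efe5c8)) e e)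
 (c (a (nat_lit 0x2a2a89672a86245)) e
 (c z e
 (c (a (nat_lit 0x8ef4f0c09ec1486)) e
 (c (a (nat_lit 0xc4ac7a545324b86)) e
 (c (a (nat_lit 0x116d63a2d8dc2dc5)) e
 (c (a (nat_lit 0xb282153d3d24aa5)) e
 (c (a (nat_lit 0x242676689d053c7)) e e)))))))))
 (c (a (nat_lit 0x6c6c6d43651a4))
 (c z e
 (c z e
 (c z e
 (c (a (nat_lit 0x17b91513b4985f66)) e
 (c (a (nat_lit 0x122e2ccd359909a6)) e
 (c (a (nat_lit 0xd89490cbdee8f26)) e
 (c (a (nat_lit 0x88668348c6ade86)) e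
 (c (a (nat_lit 0x146880ed33887)) e e))))))))
 (c (a (nat_lit 0x17171abcfd97a5)) e
 (c (a (nat_lit 0x12aed313afafa5))
 (c z e
 (c z e
 (c (a (nat_lit 0xbce7492f16e7046)) e e)))
 (c (a (nat_lit 0x157a5d3a5a7a65))
 (c (a (nat_lit 0xb0cd08e718a0f06)) e
 (c z e
 (c z e
 (c (a (nat_lit 0xf90cd75bdf36be7)) e
 (c (a (nat_lit 0xbaef131c5200008)) e e)))))
 (c (a (nat_lit 0x12945454545525))
 (c (a (nat_lit 0x110d2be812b8b906)) e
 (c (a (nat_lit 0xd0a6831f9f4d2e7)) e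
 (c (a (nat_lit 0x9e7ce520ec78008)) e
 (c (a (nat_lit 0xfd2f4c700000008)) e e))))
 (c (a (nat_lit 0x16163656585dc4))
 (c (a (nat_lit 0xc4beef12d4ec887)) e
 (c (a (nat_lit 0xb76deef8ac00007)) e
 (c (a (nat_lit 0x1c5de6a000000007)) e e)))
 (c (a (nat_lit 0xf0f2f333e7b83))
 (c (a (nat_lit 0xcf5e7c440000007)) e
 (c (a (nat_lit 0x10c2600000000008)) e e))
 (c (a (nat_lit 0x8e8ec787776c4)) e
 (c z e
 (c z e
 (c z e
 (c z e
 (c z e
 (c (a (nat_lit 0x4448425041c02)) e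
 (c (a (nat_lit 0x60c037be22)) e
 (c (a (nat_lit 0x6a8071f12e002)) e e)))))))))))))))))))))) Tr.c Tr.e (nat_lit 0) C.cx
noncomputable def C231 : Tr := beta% (fun (c : Nat → Tr → Tr → Tr) (e : Tr) (z : Nat) (a : Nat → Nat) =>
 (c z
 (c z e
 (c (a (nat_lit 0x16b6b6a665c73063))
 (c z e
 (c z e
 (c z e
 (c z e
 (c z e
 (c z e
 (c z e
 (c z e
 (c z e
 (c z e
 (c z e
 (c (a (nat_lit 0x92686e8ef6d50dc46)) e
 (c (a (nat_lit 0x241616264853074a7)) e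
 (c (a (nat_lit 0x4044508f1d9590467)) e
 (c (a (nat_lit 0x585c5885609400008)) e e)))))))))))))))
 (c (a (nat_lit 0x1919032f2c68e902))
 (c z e
 (c z e
 (c z e
 (c z e
 (c z e
 (c z e
 (c z e
 (c z e
 (c z e
 (c (a (nat_lit 0xa4a2aed8d2c6d9d06)) e
 (c (a (nat_lit 0x20202c4c407106ca7)) e
 (c (a (nat_lit 0x1210243e3f41566a7)) e e))))))))))))
 (c (a (nat_lit 0x1482aab3ad4d6d62))
 (c z e
 (c z e
 (c z e
 (c z e
 (c z e
 (c z e
 (c z e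
 (c z e
 (c (a (nat_lit 0x5e6678627670d35c7)) e
 (c (a (nat_lit 0x4a565e707add3b4a7)) e
 (c (a (nat_lit 0x140e423f039f12367)) e
 (c (a (nat_lit 0x6482af01447400008)) e e))))))))))))
 (c z
 (c z e
 (c z e
 (c z e
 (c z e
 (c z e
 (c (a (nat_lit 0x74866852847e89827)) e
 (c (a (nat_lit 0x544844585e5ce7368)) e
 (c z e
 (c (a (nat_lit 0x1a3c3648bd0c78608)) e
 (c (a (nat_lit 0x363e46ef48703a008)) e
 (c (a (nat_lit 0x56831b4c340000008)) e e)))))))))))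
 (c (a (nat_lit 0xf92731313133883))
 (c z e
 (c z e
 (c z e
 (c (a (nat_lit 0x6c769c90b48a8d407)) e
 (c (a (nat_lit 0x6270687c6c8721307)) e
 (c (a (nat_lit 0x7c808c80831b3ab67)) e
 (c (a (nat_lit 0x727c60753190c0da7)) e
 (c z e
 (c z e
 (c (a (nat_lit 0xc97b7638000000007)) e e))))))))))
 (c z e
 (c z e
 (c (a (nat_lit 0x1a1a1a3a78d7f6c5)) e
 (c (a (nat_lit 0x1414949473333325)) e
 (c (a (nat_lit 0x10f1b170d0d0d0c6)) e
 (c z e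
 (c z e
 (c z e
 (c z e
 (c z e
 (c (a (nat_lit 0x18d858b95918f8c6)) e e)))))))))))))))))
 (c z
 (c (a (nat_lit 0x16d6c06606f13044))
 (c z e
 (c z e
 (c z e
 (c z e
 (c z e
 (c z e
 (c z e
 (c z e
 (c z e
 (c z e
 (c z e
 (c (a (nat_lit 0x383c70f6dadb8a927)) e
 (c (a (nat_lit 0x1c1c38664cef08808)) e
 (c (a (nat_lit 0x26408d17654a42008)) e
 (c (a (nat_lit 0x2422472c6a0000009)) e e)))))))))))))))
 (c (a (nat_lit 0x1c11189731717184))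
 (c z e
 (c z e
 (c z e
 (c z e
 (c z e
 (c z e
 (c z e
 (c z e
 (c (a (nat_lit 0x68747c6a78945d2a8)) e
 (c z e
 (c (a (nat_lit 0x3e7743054fc8c5ca7)) e e)))))))))))
 (c (a (nat_lit 0x52c7003a3e3ca03))
 (c z e
 (c z e
 (c z e
 (c z e
 (c z e
 (c z e
 (c (a (nat_lit 0xf456e8b494ea3dde6)) e
 (c z e
 (c (a (nat_lit 0x689e989c341755a27)) e e)))))))))
 (c (a (nat_lit 0x3c3448484883c84))
 (c z e
 (c z e
 (c z e
 (c (a (nat_lit 0xe6b508f0d54b1a9a8)) e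
 (c z e
 (c (a (nat_lit 0xac7446889c37c1f27)) e
 (c z e
 (c z e
 (c z e
 (c (a (nat_lit 0x704b23c4c86800008)) e e))))))))))
 (c (a (nat_lit 0x32484a666f2b084))
 (c z e
 (c z e
 (c z e
 (c z e
 (c (a (nat_lit 0x666042746552f01a7)) e
 (c z e
 (c (a (nat_lit 0x9e6e3a91ccf94d6a7)) e e)))))))
 (c (a (nat_lit 0xeceeef398b02c24))
 (c z e
 (c z e
 (c z e
 (c z e
 (c (a (nat_lit 0xc2ec7fba5516ed967)) e
 (c (a (nat_lit 0x8236d660d8c510668)) e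
 (c z e
 (c (a (nat_lit 0x13f991aa4000000007)) e e))))))))
 (c (a (nat_lit 0xf2f2fd08c882165))
 (c (a (nat_lit 0x343e36321ad17c707)) e
 (c (a (nat_lit 0x7058245fb148daac8)) e
 (c (a (nat_lit 0x6a48330f24944a8c8)) e
 (c (a (nat_lit 0x7654eb54dcad34fc8)) e
 (c (a (nat_lit 0x49334d2c50e8a008)) e e)))))
 (c z e
 (c (a (nat_lit 0xdefb02d05e54865)) e
 (c (a (nat_lit 0xdf0cfac2bed8d66))
 (c z e
 (c (a (nat_lit 0x16589a69c000000007)) e e))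
 (c (a (nat_lit 0x1c19d271f5353325)) e
 (c (a (nat_lit 0x1a5352f613ef8ea5)) e
 (c (a (nat_lit 0x1a3adf7d195050e4)) e
 (c (a (nat_lit 0x12f3737167654525)) e
 (c z e
 (c (a (nat_lit 0x101191b11191d0e5)) e e))))))))))))))))
 C230))) Tr.c Tr.e (nat_lit 0) C.cx
noncomputable def C232 : Tr := beta% (fun (c : Nat → Tr → Tr → Tr) (e : Tr) (z : Nat) (a b : Nat → Nat) =>
 (c (a (nat_lit 0x202021))
 (c (a (nat_lit 0x20203366))
 (c (a (nat_lit 0x40a0c080a1)) e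
 (c (a (nat_lit 0x20504044)) e
 (c (a (nat_lit 0x8701a1447c7)) e
 (c z e
 (c (a (nat_lit 0x1450d42d0007)) e
 (c (a (nat_lit 0x10d048f12067)) e
 (c (a (nat_lit 0x1ee020b18005)) e
 (c (a (nat_lit 0x54c0000002)) e e))))))))
 (c (a (nat_lit 0x203322e7))
 (c (a (nat_lit 0xa0bd3d81845)) e
 (c z e
 (c z e
 (c (a (nat_lit 0x131f5424a667)) e
 (c (a (nat_lit 0xbe670b16a67)) e
 (c (a (nat_lit 0x8a7f2a00007)) e
 (c (nat_lit 1) e e)))))))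
 (c (a (nat_lit 0x851913187)) e
 (c z e
 (c (a (nat_lit 0x97165e5e7)) e
 (c (a (nat_lit 0x1680202006)) e
 (c (a (nat_lit 0x20203444)) e
 (c (a (nat_lit 0x40552043)) e
 (c (b (nat_lit 0x40a0dfe1)) e
 (c z e
 (c (a (nat_lit 0xa42a282e1)) e
 (c (a (nat_lit 0x60406021)) e
 (c (a (nat_lit 0x1006001)) e
 (c (a (nat_lit 0x181004001)) e
 (c (a (nat_lit 0x1a0a04041)) e
 (c (a (nat_lit 0x60400001)) e e))))))))))))))))
 (c (nat_lit 1)
 (c (a (nat_lit 0x276028c26))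
 (c (a (nat_lit 0x5c8f4b87f64)) e
 (c z e
 (c z e
 (c (a (nat_lit 0x102bca8a1587)) e
 (c (a (nat_lit 0x62450c9a008)) e
 (c (a (nat_lit 0x5b0c0000006)) e e))))))
 (c z e
 (c (a (nat_lit 0xc97cbebe7))
 (c (a (nat_lit 0xc2bd11107e8)) e
 (c (a (nat_lit 0xf9adfc48008)) e e))
 (c (a (nat_lit 0x1880200006))
 (c (a (nat_lit 0x1bae20e00007)) e e)
 (c (a (nat_lit 0x202fba46)) e
 (c (a (nat_lit 0x3d5c06)) e
 (c (a (nat_lit 0x151f1d0a4)) e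
 (c z e
 (c (a (nat_lit 0x1bdafb9b83)) e
 (c (a (nat_lit 0xa163a1)) e
 (c (a (nat_lit 0x10f171e163)) e
 (c (a (nat_lit 0x10c2410143)) e
 (c (a (nat_lit 0x4e0a18221)) e
 (c (a (nat_lit 0x204001)) e
 (c (nat_lit 1) e e)))))))))))))))
 (c (a (nat_lit 0x2021))
 (c (a (nat_lit 0xdd92dada6))
 (c z e
 (c (a (nat_lit 0x425f52aa2c9)) e
 (c (a (nat_lit 0xcd32ce64008)) e e)))
 (c (a (nat_lit 0x17a0202006))
 (c (a (nat_lit 0x230eaa220a9)) e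
 (c (a (nat_lit 0x138b44800009)) e e))
 (c (a (nat_lit 0x202034e5))
 (c (a (nat_lit 0x229c0000001)) e e)
 (c (a (nat_lit 0x20351485)) e
 (c z e
 (c z e
 (c (a (nat_lit 0xae404a061)) e
 (c (a (nat_lit 0x36202a001)) e
 (c (a (nat_lit 0x1534f4c003)) e
 (c (a (nat_lit 0x1bc0608023)) e
 (c (a (nat_lit 0xe0405024)) e
 (c (a (nat_lit 0x100e9a1)) e
 (c (a (nat_lit 0xc0600001)) e e)))))))))))))
 (c (a (nat_lit 0x202021))
 (c (a (nat_lit 0x20203504))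
 (c (a (nat_lit 0x1e8ceb216006)) e
 (c (a (nat_lit 0x122ae0000007)) e e))
 (c (a (nat_lit 0x20959585))
 (c (a (nat_lit 0x13c000000005)) e e)
 (c z e
 (c z e
 (c (a (nat_lit 0x380c1a201)) e
 (c (a (nat_lit 0x6e81)) e
 (c (a (nat_lit 0x1e9f5ec002)) e
 (c (a (nat_lit 0x19e0402003)) e
 (c (a (nat_lit 0x600207044)) e
 (c (a (nat_lit 0xc04521)) e
 (c (a (nat_lit 0x4001)) e
 (c (a (nat_lit 0x20000001)) e e))))))))))))
 (c (nat_lit 1)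
 (c z e
 (c z e
 (c (a (nat_lit 0x1131313127)) e
 (c (a (nat_lit 0x60a0a001)) e
 (c (a (nat_lit 0x1e1e3e0784)) e
 (c (a (nat_lit 0x1e00202003)) e
 (c (a (nat_lit 0xa0404161)) e
 (c (a (nat_lit 0x203053141)) e
 (c (a (nat_lit 0x64a4e1)) e
 (c (a (nat_lit 0x200001)) e e))))))))))
 (c (a (nat_lit 0x202021))
 (c (a (nat_lit 0x13f3d3f3e6)) e
 (c (a (nat_lit 0xa20401)) e
 (c (a (nat_lit 0x1212041)) e
 (c (a (nat_lit 0x1000602022)) e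
 (c (a (nat_lit 0x1440e02002)) e
 (c (a (nat_lit 0x8e100a0e1)) e
 (c (a (nat_lit 0x40202341)) e
 (c (a (nat_lit 0x81026001)) e
 (c (nat_lit 1) e e)))))))))
 (c (a (nat_lit 0x202021))
 (c (a (nat_lit 0x425062021)) e
 (c (a (nat_lit 0x14100c4e1)) e
 (c (a (nat_lit 0x1fc0206082)) e
 (c (a (nat_lit 0x804121)) e
 (c (a (nat_lit 0x40e161)) e
 (c (a (nat_lit 0x40a021)) e
 (c (a (nat_lit 0x1c1600001)) e e)))))))
 (c (a (nat_lit 0x202021))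
 (c (a (nat_lit 0x2021)) e
 (c (a (nat_lit 0x202021)) e
 (c (a (nat_lit 0x20202021)) e
 (c (a (nat_lit 0x20202021)) e
 (c (a (nat_lit 0x20202001)) e
 (c (a (nat_lit 0x20000001)) e e))))))
 (c (a (nat_lit 0x202021))
 (c (a (nat_lit 0x20202021)) e
 (c (a (nat_lit 0x20202021)) e
 (c (a (nat_lit 0x20202021)) e
 (c (a (nat_lit 0x20200001)) e e))))
 (c (a (nat_lit 0x202021))
 (c (a (nat_lit 0x20202021)) e
 (c (a (nat_lit 0x20202001)) e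
 (c (a (nat_lit 0x20000001)) e e)))
 (c (a (nat_lit 0x202021))
 (c (a (nat_lit 0x20200001)) e e)
 (c (a (nat_lit 0x202021)) e
 (c (a (nat_lit 0x202021)) e
 (c (a (nat_lit 0x202021)) e
 (c (a (nat_lit 0x202021)) e
 (c (a (nat_lit 0x202021)) e
 (c (nat_lit 1) e
 (c (a (nat_lit 0x81)) e
 (c (a (nat_lit 0x4041)) e
 (c (a (nat_lit 0x36a6)) e
 (c z e
 (c (a (nat_lit 0x16a02026)) e
 (c (a (nat_lit 0xa02041)) e
 (c (a (nat_lit 0x4001)) e e))))))))))))))))))))))))) Tr.c Tr.e (nat_lit 0) C.cx C.cy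
noncomputable def C233 : Tr := beta% (fun (c : Nat → Tr → Tr → Tr) (e : Tr) (z : Nat) (a b : Nat → Nat) =>
 (c (a (nat_lit 0x202021))
 (c (nat_lit 1)
 (c (a (nat_lit 0x141e0e1a1))
 (c (a (nat_lit 0x2a28287ea1144)) e
 (c z e
 (c z e
 (c z e
 (c (a (nat_lit 0x3312c4d46045)) e
 (c (a (nat_lit 0x124120c5e02007)) e
 (c (a (nat_lit 0x10886840000007)) e e)))))))
 (c z e
 (c (a (nat_lit 0x1c0180a02002)) e
 (c (a (nat_lit 0x5c2c0e100c1))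
 (c (a (nat_lit 0x6cfb2aedafa6)) e
 (c (a (nat_lit 0x152081800006)) e e))
 (c (a (nat_lit 0x14741454e2e2))
 (c (a (nat_lit 0x12ee2260000006)) e e)
 (c (a (nat_lit 0x1a5a5a4f20a3)) e
 (c (a (nat_lit 0x12d12cccd146)) e
 (c (a (nat_lit 0x202f30d287)) e
 (c (a (nat_lit 0x2153514f367)) e
 (c z e
 (c z e
 (c (a (nat_lit 0x115105a56565)) e
 (c (a (nat_lit 0x170060202004)) e
 (c (a (nat_lit 0x26060000001)) e e))))))))))))))
 (c (nat_lit 1)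
 (c (a (nat_lit 0x1b77f4747405))
 (c z e
 (c (a (nat_lit 0x1b62c7333f9e07)) e e))
 (c (a (nat_lit 0x11812060c103))
 (c (a (nat_lit 0x22c5906f02e7)) e
 (c (a (nat_lit 0x3c5d12b870848)) e
 (c (b (nat_lit 0x1ff4f8e2600007)) e e)))
 (c (a (nat_lit 0x807211f1a5))
 (c (a (nat_lit 0x68e34ca44a006)) e
 (c (a (nat_lit 0x159249a0000007)) e e))
 (c (a (nat_lit 0x1d9edf80e002))
 (c (a (nat_lit 0x13c50000000007)) e e)
 (c (a (nat_lit 0x1bf500c0a005)) e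
 (c (a (nat_lit 0xcae18147f67)) e
 (c (a (nat_lit 0x5ee13f93188)) e
 (c z e
 (c z e
 (c z e
 (c (a (nat_lit 0x15c0a0806004)) e
 (c (a (nat_lit 0x2380600001)) e
 (c (a (nat_lit 0x32000000001)) e e)))))))))))))
 (c (a (nat_lit 0x20202021))
 (c (a (nat_lit 0x1224182a141))
 (c (a (nat_lit 0xf4100d28180c3)) e
 (c (a (nat_lit 0x496cee7a2e003)) e
 (c (a (nat_lit 0x1073c9e0000006)) e e)))
 (c (a (nat_lit 0x1c222e2a301))
 (c (a (nat_lit 0x10a91020600005)) e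
 (c (a (nat_lit 0x1b4f6000000006)) e e))
 (c (a (nat_lit 0x141080404005))
 (c (a (nat_lit 0x17000000000004)) e e)
 (c (a (nat_lit 0x856b576e5)) e
 (c (a (nat_lit 0x14525257648)) e
 (c (a (nat_lit 0x4e4e8904849)) e
 (c z e
 (c z e
 (c (a (nat_lit 0x12c587e28368)) e
 (c (a (nat_lit 0xc1560214006)) e
 (c (a (nat_lit 0x142020000006)) e e)))))))))))
 (c (a (nat_lit 0x202041))
 (c (a (nat_lit 0x15d5c080a003))
 (c (a (nat_lit 0x140ce580000004)) e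
 (c (a (nat_lit 0x1b400000000004)) e e))
 (c (a (nat_lit 0x564a4d047c4)) e
 (c (a (nat_lit 0x46bcacaf506)) e
 (c z e
 (c z e
 (c z e
 (c z e
 (c (a (nat_lit 0x1c6f67876765)) e
 (c (a (nat_lit 0x104020200004)) e e)))))))))
 (c (a (nat_lit 0x20000001))
 (c (a (nat_lit 0x7088e90ec65)) e
 (c z e
 (c (a (nat_lit 0x149531ab3667)) e
 (c (a (nat_lit 0x11f16e102c67)) e
 (c z e
 (c z e
 (c (a (nat_lit 0x1360a1822006)) e e)))))))
 (c (a (nat_lit 0x402041))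
 (c (a (nat_lit 0x15d63dd54ee6)) e
 (c (a (nat_lit 0x7d77a4aa9a5)) e
 (c (a (nat_lit 0x19d08a0aa026)) e
 (c (a (nat_lit 0xd4291492227)) e e))))
 (c (a (nat_lit 0x20001e45))
 (c (a (nat_lit 0x1f08212162)) e
 (c (a (nat_lit 0x581f4824e46)) e e))
 (c (a (nat_lit 0x1fde45))
 (c (a (nat_lit 0x26a0b08f967)) e e)
 (c (a (nat_lit 0x3c5c2b26)) e
 (c z e
 (c (a (nat_lit 0x11fe4ecec6)) e
 (c (a (nat_lit 0x1f20202025)) e
 (c (a (nat_lit 0x8040e021)) e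
 (c (a (nat_lit 0x8340c0e1)) e
 (c (a (nat_lit 0x16240c021)) e
 (c z e
 (c (a (nat_lit 0xe0804001)) e
 (c (a (nat_lit 0x616221)) e
 (c (a (nat_lit 0x16241e001)) e
 (c (a (nat_lit 0x181802001)) e
 (c (a (nat_lit 0x1a0000001)) e e)))))))))))))))))))))
 (c (a (nat_lit 0x202021))
 (c (a (nat_lit 0x20202021))
 (c (a (nat_lit 0x16c787274702))
 (c (a (nat_lit 0xd42420ab38d64)) e
 (c (a (nat_lit 0x18a2c7b50d0825)) e
 (c (a (nat_lit 0x4a0bc544b6ac4)) e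
 (c (a (nat_lit 0x9bf6a8000005)) e e))))
 (c (a (nat_lit 0x12141012181))
 (c (a (nat_lit 0x1644750c80a083)) e
 (c (a (nat_lit 0x6d79380c0a005)) e
 (c (a (nat_lit 0x1371acc0000006)) e e)))
 (c (a (nat_lit 0xc1e100e081))
 (c (a (nat_lit 0x8b0aa20800004)) e
 (c (a (nat_lit 0x144e4000000006)) e e))
 (c (a (nat_lit 0x165280202024))
 (c (a (nat_lit 0x13400000000005)) e e)
 (c (a (nat_lit 0xd050d0b803)) e
 (c (a (nat_lit 0x7487777bee6)) e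
 (c (a (nat_lit 0x5d595993527)) e
 (c z e
 (c z e
 (c (a (nat_lit 0x1003ab202045)) e
 (c (a (nat_lit 0x73660806004)) e
 (c (a (nat_lit 0x160020000004)) e e))))))))))))
 (c (a (nat_lit 0x40202021))
 (c (a (nat_lit 0xe180e1a1))
 (c (a (nat_lit 0x1764026140c083)) e
 (c (a (nat_lit 0x136eee40800005)) e
 (c (a (nat_lit 0x10c84000000005)) e e)))
 (c (a (nat_lit 0x1afb00606044))
 (c (a (nat_lit 0x1a2e2720000005)) e
 (c (a (nat_lit 0x1c600000000005)) e e))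
 (c (a (nat_lit 0x1e2c2218121)) e
 (c (a (nat_lit 0x40409127)) e
 (c (a (nat_lit 0x3a9cb7071c7)) e
 (c (a (nat_lit 0xd54d7338808)) e
 (c z e
 (c (a (nat_lit 0x13b033442008)) e
 (c (b (nat_lit 0x1ffa0360e0c2)) e
 (c (a (nat_lit 0x196200400002)) e
 (c (a (nat_lit 0x38000000001)) e e)))))))))))
 (c (nat_lit 1)
 (c (a (nat_lit 0x100e0e0d603)) e
 (c (a (nat_lit 0x8080bb8be4)) e
 (c (a (nat_lit 0x5a5a5ef5547)) e
 (c z e
 (c z e
 (c z e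
 (c (a (nat_lit 0xf106b002068)) e
 (c (a (nat_lit 0x10d060402005)) e
 (c (a (nat_lit 0x106020000005)) e e)))))))))
 (c (a (nat_lit 0x20202021))
 (c (a (nat_lit 0x11f37b9a5365)) e
 (c z e
 (c z e
 (c z e
 (c z e
 (c (a (nat_lit 0x128e14ee7068)) e
 (c (b (nat_lit 0x1ffe80400005)) e e)))))))
 (c (a (nat_lit 0x20203ce5))
 (c z e
 (c z e
 (c (a (nat_lit 0x108c742c4367)) e e)))
 (c (a (nat_lit 0x28311e106))
 (c (a (nat_lit 0x2e450e845e6)) e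
 (c (a (nat_lit 0xe4a8227129)) e e))
 (c (a (nat_lit 0x77b66ec27))
 (c (a (nat_lit 0x42ceb156ce8)) e e)
 (c z e
 (c (a (nat_lit 0x153c02006)) e
 (c (a (nat_lit 0x12a0202026)) e
 (c (a (nat_lit 0x203942)) e
 (c (a (nat_lit 0x406001)) e
 (c (b (nat_lit 0xa11ff1c1)) e
 (c z e
 (c (a (nat_lit 0x1fe0606122)) e
 (c (a (nat_lit 0x20e061)) e
 (c (a (nat_lit 0xc06081)) e
 (c (a (nat_lit 0xe0406021)) e
 (c (a (nat_lit 0x200001)) e e)))))))))))))))))))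
 (c (nat_lit 1)
 (c (a (nat_lit 0x20202021))
 (c (a (nat_lit 0xc1c1a20241)) e
 (c (a (nat_lit 0x41010061)) e
 (c (a (nat_lit 0x6080c13823)) e
 (c (a (nat_lit 0x20513646)) e
 (c (a (nat_lit 0x44949918d47)) e
 (c (a (nat_lit 0x1ddddf720867)) e
 (c (a (nat_lit 0x17d835c56387)) e
 (c (a (nat_lit 0x118f27c0c147)) e
 (c (a (nat_lit 0x24255eaa003)) e
 (c (a (nat_lit 0x12f4c0000002)) e e))))))))))
 (c (nat_lit 1)
 (c (a (nat_lit 0x282e3628001)) e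
 (c (a (nat_lit 0x4060883ae5)) e
 (c (a (nat_lit 0x5cb54b8aee7)) e
 (c z e
 (c z e
 (c (a (nat_lit 0x1afdf52875e7)) e
 (c (a (nat_lit 0x1db3a9a8cda7)) e
 (c (a (nat_lit 0x136020a00004)) e
 (c (nat_lit 1) e e)))))))))
 (c (a (nat_lit 0x20203a84))
 (c (a (nat_lit 0x304ad8c5a65)) e
 (c z e
 (c z e
 (c z e
 (c (a (nat_lit 0x150d32f5d487)) e
 (c (a (nat_lit 0x16ec37932006)) e
 (c (a (nat_lit 0x198240000002)) e e)))))))
 (c (a (nat_lit 0x203db224))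
 (c z e
 (c (a (nat_lit 0x157735b0b647)) e
 (c (a (nat_lit 0x52c4c88d748)) e e)))
 (c (a (nat_lit 0xb5bbb7f46))
 (c (a (nat_lit 0x768a8081328)) e
 (c (a (nat_lit 0x74987708c09)) e e))
 (c (a (nat_lit 0x16767609a7))
 (c (a (nat_lit 0x126efbf30727)) e e)
 (c (a (nat_lit 0x871654547)) e
 (c (a (nat_lit 0x1820202006)) e
 (c (a (nat_lit 0x40203403)) e
 (c (a (nat_lit 0x2029d063)) e
 (c (a (nat_lit 0x6070b043)) e
 (c z e
 (c (a (nat_lit 0x560c0c1a1)) e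
 (c (a (nat_lit 0x2020e281)) e
 (c (a (nat_lit 0xc121a1)) e
 (c (a (nat_lit 0xa10201)) e
 (c (a (nat_lit 0xc080a001)) e
 (c (nat_lit 1) e e))))))))))))))))))
 C232)))) Tr.c Tr.e (nat_lit 0) C.cx C.cy
noncomputable def C234 : Tr := beta% (fun (c : Nat → Tr → Tr → Tr) (e : Tr) (z : Nat) (a b : Nat → Nat) =>
 (c (a (nat_lit 0x40404041))
 (c (a (nat_lit 0x19fb8989c9c7))
 (c (a (nat_lit 0x1395bb58ef2f26))
 (c z e
 (c (a (nat_lit 0x9d320404306a027)) e e))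
 (c (a (nat_lit 0x5fbf66eea0646))
 (c (a (nat_lit 0x1be321414822a007)) e e)
 (c z e
 (c z e
 (c z e
 (c z e
 (c (a (nat_lit 0x120ecacdcb2047)) e
 (c (a (nat_lit 0x727e698e94668)) e
 (c (b (nat_lit 0x1ffffff0e58008)) e e)))))))))
 (c (a (nat_lit 0x1b6600808085))
 (c (a (nat_lit 0x1976154be44026)) e
 (c z e
 (c z e
 (c z e
 (c (a (nat_lit 0x118b8f229b4027)) e
 (c z e
 (c (a (nat_lit 0x5a391cac74269)) e
 (c (b (nat_lit 0x11ffffeca00008)) e e))))))))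
 (c (a (nat_lit 0x1760c080acc4))
 (c z e
 (c z e
 (c z e
 (c (b (nat_lit 0x2e5e455ffffe9)) e e))))
 (c (a (nat_lit 0x9a9499956a4)) e
 (c (a (nat_lit 0xab16e2ccac7))
 (c (a (nat_lit 0xf080ab243ebe7)) e e)
 (c z e
 (c (a (nat_lit 0x1231e8c86825)) e
 (c (a (nat_lit 0x11e040202004)) e
 (c (a (nat_lit 0x6058f8e004)) e
 (c (a (nat_lit 0x11d1ded77027)) e
 (c (a (nat_lit 0xf7539575c68)) e
 (c (a (nat_lit 0x156e18b69206)) e
 (c z e
 (c (a (nat_lit 0x1bb2e0e0e104)) e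
 (c (a (nat_lit 0x120020406024)) e
 (c (a (nat_lit 0x1e362600001)) e
 (c (a (nat_lit 0x14000000001)) e e)))))))))))))))))
 (c (a (nat_lit 0x20202021))
 (c (a (nat_lit 0x1be36242f8e1))
 (c (a (nat_lit 0xad2c9e220c025)) e
 (c z e
 (c z e
 (c z e
 (c z e
 (c z e
 (c (a (nat_lit 0x5ae59cb43e007)) e
 (c (a (nat_lit 0xf36a960000007)) e e))))))))
 (c (a (nat_lit 0x1818183e3aa5))
 (c z e
 (c z e
 (c z e
 (c z e
 (c z e
 (c (a (nat_lit 0x11097266200008)) e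
 (c (a (nat_lit 0x17588000000007)) e e)))))))
 (c z e
 (c z e
 (c (a (nat_lit 0x1e7bf9797966))
 (c (a (nat_lit 0xa10eacdc36007)) e
 (c (a (nat_lit 0x6a8de80000005)) e e))
 (c (a (nat_lit 0x16a241c0e003)) e
 (c (a (nat_lit 0x603d3ceee4)) e
 (c (a (nat_lit 0x96972cf5427)) e
 (c z e
 (c z e
 (c z e
 (c z e
 (c (a (nat_lit 0x15256b8bc466)) e
 (c (a (nat_lit 0x31c5d402004)) e
 (c (a (nat_lit 0x1d0020000004)) e e)))))))))))))))
 (c (a (nat_lit 0x60606061))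
 (c (a (nat_lit 0xf6f904faf26))
 (c z e
 (c z e
 (c z e
 (c z e
 (c z e
 (c (a (nat_lit 0x1388c180000006)) e
 (c (a (nat_lit 0x17e00000000005)) e e)))))))
 (c z e
 (c (a (nat_lit 0x1c92e0e06084))
 (c (a (nat_lit 0x8b22b04630e67)) e
 (c (a (nat_lit 0x2ed552760006)) e e))
 (c (a (nat_lit 0x19a8a8688824))
 (c (a (nat_lit 0x5277223400006)) e e)
 (c (a (nat_lit 0xe07e1e1224)) e
 (c (a (nat_lit 0x747efad96a6)) e
 (c (a (nat_lit 0xb72745a4d27)) e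
 (c z e
 (c (a (nat_lit 0xb4d354e8c88)) e
 (c (a (nat_lit 0x1c3a60203786)) e
 (c (a (nat_lit 0xa0020379b26)) e e)))))))))))
 (c (nat_lit 1)
 (c (a (nat_lit 0x10d28feff065))
 (c (a (nat_lit 0xcd48cdd56ea65)) e
 (c (a (nat_lit 0x1b84333f258366)) e
 (c (a (nat_lit 0x5f9147562c006)) e e)))
 (c (a (nat_lit 0x178281c1e103))
 (c (a (nat_lit 0x1a135eaae1a506)) e
 (c (a (nat_lit 0xb52d063800007)) e e))
 (c (a (nat_lit 0x100e120f883))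
 (c (a (nat_lit 0x111a6560000006)) e e)
 (c (a (nat_lit 0xf4f58321206)) e
 (c z e
 (c z e
 (c (a (nat_lit 0xf95b570a827)) e
 (c (a (nat_lit 0xbac10ec8c88)) e
 (c (a (nat_lit 0x1d5b40408e85)) e
 (c (a (nat_lit 0xc60206655c6)) e e))))))))))
 (c (a (nat_lit 0x20202021))
 (c (a (nat_lit 0x1d3c3c598001))
 (c (a (nat_lit 0x1aa6f064810005)) e
 (c (a (nat_lit 0xff8a9e0000006)) e e))
 (c (a (nat_lit 0x13b3f7dbea64))
 (c (a (nat_lit 0x11c58000000007)) e e)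
 (c (b (nat_lit 0xe533fef1586)) e
 (c z e
 (c (a (nat_lit 0xdd1124d6967)) e
 (c (a (nat_lit 0x10518f494ae7)) e
 (c (a (nat_lit 0xd0abaf91227)) e
 (c (a (nat_lit 0x349c161b246)) e
 (c (a (nat_lit 0x86591564b86)) e e)))))))))
 (c (a (nat_lit 0x20202021))
 (c (a (nat_lit 0x1231d1f09205)) e
 (c z e
 (c (a (nat_lit 0x105071480827)) e
 (c (a (nat_lit 0x1111cf6bea27)) e
 (c (a (nat_lit 0xfad5535aa27)) e
 (c (a (nat_lit 0x464926d70a8)) e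
 (c (a (nat_lit 0x48640265267)) e e)))))))
 (c (a (nat_lit 0x202001))
 (c (a (nat_lit 0x1616774b30a6)) e
 (c (a (nat_lit 0x487a08c59c5)) e
 (c (a (nat_lit 0x5a0aa560165)) e
 (c (a (nat_lit 0x5a8722f4c07)) e e))))
 (c (a (nat_lit 0x20202021))
 (c (a (nat_lit 0x6c2e3b1a005)) e
 (c (a (nat_lit 0x16b7798eabe6)) e
 (c z e
 (c z e
 (c (b (nat_lit 0x1ff5ad85e005)) e
 (c (a (nat_lit 0x14cb80000005)) e e))))))
 (c (a (nat_lit 0x202021))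
 (c (a (nat_lit 0x2ef910b0286)) e
 (c z e
 (c (a (nat_lit 0xcf034739687)) e
 (c (b (nat_lit 0x1ff100400004)) e
 (c (a (nat_lit 0x10a000000004)) e e)))))
 (c (a (nat_lit 0x20203045))
 (c (a (nat_lit 0x10bfe4a13925)) e
 (c (a (nat_lit 0x1933128c6005)) e
 (c (a (nat_lit 0x1a50e0000004)) e e)))
 (c (a (nat_lit 0x2025ba64))
 (c (a (nat_lit 0x11c407a00005)) e
 (c (a (nat_lit 0x168000000004)) e e))
 (c (a (nat_lit 0xc525c5ea6)) e
 (c (a (nat_lit 0x13399f8fc6)) e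
 (c (a (nat_lit 0x1058c8e8e6)) e
 (c (a (nat_lit 0x1fa0202025)) e
 (c (a (nat_lit 0x120205722)) e
 (c (a (nat_lit 0x40b7b5a2)) e
 (c (b (nat_lit 0x1c0a05fe1)) e
 (c z e
 (c (a (nat_lit 0x1380204063)) e
 (c (a (nat_lit 0x16001)) e
 (c (a (nat_lit 0x42012001)) e
 (c (a (nat_lit 0x5c0000001)) e e)))))))))))))))))))))))) Tr.c Tr.e (nat_lit 0) C.cx C.cy
noncomputable def C235 : Tr := beta% (fun (c : Nat → Tr → Tr → Tr) (e : Tr) (z : Nat) (a b : Nat → Nat) =>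
 (c (nat_lit 1)
 (c (nat_lit 1)
 (c (a (nat_lit 0xfcfda9fb325))
 (c (a (nat_lit 0x1151550a10b2e5)) e
 (c (a (nat_lit 0x13d92a967736a6))
 (c (a (nat_lit 0xe1a150ec6e7c847)) e
 (c (a (nat_lit 0xc0ed424c62042c7)) e
 (c z e
 (c z e
 (c (a (nat_lit 0x490a74000000007)) e e)))))
 (c z e
 (c (a (nat_lit 0x95b760203bc5)) e
 (c (a (nat_lit 0xd777ae0608944)) e
 (c (a (nat_lit 0x17d5fc54747ae5)) e
 (c (a (nat_lit 0xe6e70cbc8b346)) e
 (c z e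
 (c (a (nat_lit 0x14b172d06f1206)) e
 (c (b (nat_lit 0x400a262317fe7)) e
 (c (a (nat_lit 0x22165f1838007)) e
 (c (a (nat_lit 0x18f3b620000006)) e
 (c (a (nat_lit 0x14c00000000004)) e e)))))))))))))
 (c (a (nat_lit 0x75297694927))
 (c z e
 (c z e
 (c z e
 (c z e
 (c (a (nat_lit 0xdb4ac320dd167)) e
 (c (a (nat_lit 0xf52ce2c35ed67)) e
 (c z e
 (c (a (nat_lit 0xc72d3aefdd727)) e
 (c (a (nat_lit 0x3c58654f1e808)) e
 (c (a (nat_lit 0xd8db450600008)) e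
 (c (a (nat_lit 0x15182000000007)) e e)))))))))))
 (c (a (nat_lit 0x147ac2a16166))
 (c z e
 (c z e
 (c z e
 (c z e
 (c (a (nat_lit 0x15732fb229c267)) e
 (c (a (nat_lit 0x18516e7078e026)) e e))))))
 (c (a (nat_lit 0x19d08b0b0b05))
 (c z e
 (c z e
 (c (a (nat_lit 0x95020e905b267)) e
 (c (b (nat_lit 0x6dfe9a5302348)) e
 (c (a (nat_lit 0xc4255045e209)) e e)))))
 (c (a (nat_lit 0x146100a0ab64))
 (c (a (nat_lit 0x6c618b0b17ca5)) e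
 (c (a (nat_lit 0x93105e05a75a6)) e
 (c (b (nat_lit 0x4c8235db3dfe7)) e e)))
 (c (a (nat_lit 0xdcd6d7872a4))
 (c (a (nat_lit 0x13ac0369b3e0e5)) e
 (c (a (nat_lit 0x823f16441e228)) e e))
 (c (a (nat_lit 0x94eb1900b45))
 (c (a (nat_lit 0xb8d4fc1225086)) e
 (c (a (nat_lit 0x1382e107872008)) e e))
 (c z e
 (c (a (nat_lit 0x12120fafafa6)) e
 (c (a (nat_lit 0x1340e0802003)) e
 (c (a (nat_lit 0x203b9b8e04)) e
 (c (a (nat_lit 0x9c9fe577946)) e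
 (c (a (nat_lit 0xf36404d7425)) e
 (c (a (nat_lit 0x19c3d117b285)) e
 (c (b (nat_lit 0x1fe8b5cb6b24)) e
 (c (b (nat_lit 0x1ff520802003)) e
 (c (a (nat_lit 0x15a120c02003)) e
 (c (a (nat_lit 0x64280000001)) e e))))))))))))))))))
 C234)
 (c (nat_lit 1)
 (c (a (nat_lit 0x40404041))
 (c (a (nat_lit 0x1731ab8b8b83))
 (c (a (nat_lit 0x75a0922e30324)) e
 (c (a (nat_lit 0x1e17e903a3e405)) e
 (c z e
 (c z e
 (c z e
 (c (a (nat_lit 0x6361c27501e7)) e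
 (c (b (nat_lit 0x5a08791bfe026)) e
 (c (a (nat_lit 0x3217aaac68107)) e
 (c (a (nat_lit 0x1988c46200007)) e e)))))))))
 (c (a (nat_lit 0x1d81214181a2))
 (c (a (nat_lit 0x150b2364244026)) e
 (c z e
 (c z e
 (c z e
 (c (b (nat_lit 0x34160b31fe068)) e
 (c (b (nat_lit 0x36abf3fef0987)) e
 (c (a (nat_lit 0x1be8969608008)) e
 (c (a (nat_lit 0x1aab0880000008)) e e))))))))
 (c (a (nat_lit 0x96969900903)) e
 (c (a (nat_lit 0x123232d13146)) e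
 (c z e
 (c (a (nat_lit 0x15f54d0d0ce4))
 (c (a (nat_lit 0x1703d13a092005)) e
 (c (b (nat_lit 0x1fe2d900000005)) e e))
 (c (a (nat_lit 0x12e1c1e12043))
 (c (a (nat_lit 0x1364000000004)) e e)
 (c (a (nat_lit 0x80f655a4c2)) e
 (c (a (nat_lit 0x1cfcfd437804)) e
 (c (b (nat_lit 0x646105ff307)) e
 (c (a (nat_lit 0x109838383848)) e
 (c (a (nat_lit 0x1612fa17cd06)) e
 (c (a (nat_lit 0xb3e0b83e3e5)) e
 (c (a (nat_lit 0x1a07a0204045)) e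
 (c (a (nat_lit 0x1e0020604003)) e
 (c (a (nat_lit 0x80000001)) e e))))))))))))))))
 (c (nat_lit 1)
 (c (a (nat_lit 0xe123e1c0a1))
 (c (a (nat_lit 0x1ea08060642204)) e
 (c z e
 (c z e
 (c z e
 (c z e
 (c (b (nat_lit 0x250bfe604a168)) e
 (c (a (nat_lit 0x10460622400009)) e
 (c (a (nat_lit 0x14abe000000007)) e e))))))))
 (c z e
 (c z e
 (c (a (nat_lit 0x192a00e0e0e4))
 (c (b (nat_lit 0x1fffffefd91905)) e
 (c (b (nat_lit 0x1ffffffacda006)) e e))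
 (c (a (nat_lit 0x118120602043))
 (c (a (nat_lit 0x4df464600006)) e e)
 (c (a (nat_lit 0x100befed324)) e
 (c (a (nat_lit 0x19b9d9956c45)) e
 (c (a (nat_lit 0xb6972b27d87)) e
 (c z e
 (c z e
 (c z e
 (c (a (nat_lit 0x7d1a7a181a6)) e
 (c (a (nat_lit 0x102620204026)) e
 (c (a (nat_lit 0x182040200004)) e
 (c (nat_lit 1) e e)))))))))))))))
 (c (nat_lit 1)
 (c z e
 (c (a (nat_lit 0xfb080402004)) e
 (c (a (nat_lit 0x10e040402004))
 (c (a (nat_lit 0x214d1107ad47)) e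
 (c (a (nat_lit 0x4d7582600008)) e e))
 (c (a (nat_lit 0x4050908c45))
 (c (a (nat_lit 0xa7208a0000007)) e e)
 (c (b (nat_lit 0x19d9d96edfe4)) e
 (c z e
 (c z e
 (c z e
 (c z e
 (c z e
 (c z e
 (c (a (nat_lit 0x1a8020202005)) e
 (c (a (nat_lit 0x6080000001)) e e)))))))))))))
 (c (a (nat_lit 0x20202021))
 (c (a (nat_lit 0x12a0e0a0a0c2))
 (c (a (nat_lit 0xcc152eb37a625)) e
 (c (a (nat_lit 0x2423126162c6)) e
 (c (a (nat_lit 0x4e59024e00007)) e e)))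
 (c (a (nat_lit 0x3846301e001))
 (c (a (nat_lit 0x6a2d806006006)) e
 (c (a (nat_lit 0xf7f0d60000007)) e e))
 (c (b (nat_lit 0x13f3f4205fe5))
 (c (a (nat_lit 0x14a54000000007)) e e)
 (c (b (nat_lit 0x18922f9feaa5)) e e))))
 (c (a (nat_lit 0x20202021))
 (c (a (nat_lit 0x323a2220401))
 (c (a (nat_lit 0x5f48840200005)) e
 (c (a (nat_lit 0x1206e000000007)) e e))
 (c (a (nat_lit 0x11cde36a0025))
 (c (a (nat_lit 0x19200000000005)) e e)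
 (c (a (nat_lit 0x84dcdedb087)) e
 (c z e
 (c (a (nat_lit 0xa8b2ef1c267)) e
 (c (a (nat_lit 0x9adfe8cc4c7)) e
 (c (a (nat_lit 0x117b37b7b488)) e
 (c (a (nat_lit 0x1be9a9c69666)) e e))))))))
 (c (a (nat_lit 0x20202021))
 (c (a (nat_lit 0xf50b6f595e5)) e
 (c z e
 (c (a (nat_lit 0x121231ebef67)) e
 (c (a (nat_lit 0x1d5d7c6c21e6)) e
 (c (a (nat_lit 0xe6e19329dc7)) e
 (c (a (nat_lit 0xc5095957309)) e
 (c (a (nat_lit 0x106d6f326c47)) e e)))))))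
 (c (a (nat_lit 0x202001))
 (c (a (nat_lit 0x1adafab95906)) e
 (c (a (nat_lit 0x4a3eb11cb26)) e
 (c (a (nat_lit 0xaf16a9307e6)) e
 (c z e
 (c z e
 (c z e
 (c (a (nat_lit 0x1e280000001)) e e)))))))
 (c (a (nat_lit 0x20202021))
 (c (a (nat_lit 0x34390f00005)) e
 (c (a (nat_lit 0xcecfc931aa6)) e e))
 (c (a (nat_lit 0x1f25))
 (c (a (nat_lit 0x9700eedd6a6)) e
 (c z e
 (c z e
 (c (a (nat_lit 0x7c00000004)) e e))))
 (c (a (nat_lit 0x20305025))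
 (c z e
 (c (a (nat_lit 0xe796ca00006)) e
 (c (a (nat_lit 0x1aa000000005)) e e)))
 (c (a (nat_lit 0x12d9595528))
 (c (a (nat_lit 0x1669a0000008)) e e)
 (c (a (nat_lit 0x1b9b934c27)) e
 (c (a (nat_lit 0xa55874746)) e
 (c (a (nat_lit 0x10c0202026)) e
 (c (a (nat_lit 0xc060c161)) e
 (c (a (nat_lit 0x1a2008041)) e
 (c (a (nat_lit 0x806241)) e
 (c z e
 (c (a (nat_lit 0x1100206063)) e
 (c (a (nat_lit 0x404021)) e
 (c (a (nat_lit 0x18220c001)) e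
 (c (a (nat_lit 0x4c1800001)) e e))))))))))))))))))))))
 C233))) Tr.c Tr.e (nat_lit 0) C.cx C.cy
noncomputable def C236 : Tr := beta% (fun (c : Nat → Tr → Tr → Tr) (e : Tr) (z : Nat) (a b : Nat → Nat) =>
 (c (a (nat_lit 0x20202021))
 (c (a (nat_lit 0x45d57450587))
 (c z e
 (c z e
 (c z e
 (c z e
 (c z e
 (c z e
 (c z e
 (c z e
 (c z e
 (c z e
 (c (a (nat_lit 0x17bac000000007)) e e)))))))))))
 (c (a (nat_lit 0x10d260808088)) e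
 (c (a (nat_lit 0x15ab60202025)) e
 (c (a (nat_lit 0x142020202525))
 (c (a (nat_lit 0x6aa0061207566)) e e)
 (c (a (nat_lit 0x525050a5285))
 (c (a (nat_lit 0xe1c9513338267)) e e)
 (c (a (nat_lit 0x1214b4d77447))
 (c (a (nat_lit 0xc720b80c7c908)) e e)
 (c z e
 (c (a (nat_lit 0x8f684042405)) e
 (c (a (nat_lit 0x12c060602005)) e
 (c (a (nat_lit 0xacad8f8d687)) e
 (c (a (nat_lit 0x121518f79968)) e
 (c (b (nat_lit 0x5ffe836f706)) e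
 (c z e
 (c z e
 (c (a (nat_lit 0x12d2f3e1c186)) e
 (c (a (nat_lit 0x117260602006)) e
 (c (a (nat_lit 0x12a060000006)) e e)))))))))))))))))
 (c (a (nat_lit 0x20202021))
 (c (a (nat_lit 0x1dc2a1a1a1a4))
 (c z e
 (c z e
 (c z e
 (c z e
 (c z e
 (c z e
 (c (a (nat_lit 0x56717aa62a4c8)) e
 (c (a (nat_lit 0x12838a42600008)) e e))))))))
 (c (a (nat_lit 0x1ca0a0a10d43))
 (c (a (nat_lit 0x1636738cab4f48)) e
 (c (b (nat_lit 0x13924541667fe8)) e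
 (c z e
 (c z e
 (c z e
 (c (a (nat_lit 0x4d12e88650009)) e
 (c (a (nat_lit 0x197bd320000007)) e e)))))))
 (c (a (nat_lit 0x20206531c5))
 (c (b (nat_lit 0x13a520e29fe027)) e
 (c z e
 (c z e
 (c z e
 (c (a (nat_lit 0x1e526647000008)) e
 (c (a (nat_lit 0x12012000000005)) e e))))))
 (c (a (nat_lit 0x6a96c302766)) e
 (c z e
 (c (a (nat_lit 0xe3748a86805)) e
 (c (a (nat_lit 0x1d20a0404044)) e
 (c (a (nat_lit 0x202706f008)) e
 (c (a (nat_lit 0x1e5a79027a8)) e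
 (c z e
 (c z e
 (c (a (nat_lit 0x122c4284ca87)) e
 (c (a (nat_lit 0x1ae7ac378b46)) e
 (c (a (nat_lit 0xd31bd10a2a6)) e
 (c (a (nat_lit 0xe9446e00007)) e e)))))))))))))))
 (c (a (nat_lit 0x20202021))
 (c (a (nat_lit 0xa8a8a8db145))
 (c (a (nat_lit 0x18f909a86a8186)) e
 (c (a (nat_lit 0x17a88508a1a727)) e
 (c z e
 (c z e
 (c z e
 (c (a (nat_lit 0x115aed26000007)) e
 (c (a (nat_lit 0x1d6b0000000006)) e e)))))))
 (c (a (nat_lit 0x157596de5886))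
 (c (a (nat_lit 0x14ac12eb689666)) e
 (c z e
 (c z e
 (c (a (nat_lit 0x12a5e464836009)) e
 (c (a (nat_lit 0x17296540000008)) e
 (c (a (nat_lit 0x12600000000007)) e e))))))
 (c z e
 (c (a (nat_lit 0xd5866260605)) e
 (c (a (nat_lit 0x14c24221e005)) e
 (c (a (nat_lit 0x8085310d1a7)) e
 (c (a (nat_lit 0xcf8f6d857a7)) e
 (c z e
 (c z e
 (c (a (nat_lit 0xbf843bd0004)) e
 (c (a (nat_lit 0xd43310186c5)) e
 (c (a (nat_lit 0x3206166d4a5)) e e))))))))))))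
 (c (a (nat_lit 0x40404041))
 (c (a (nat_lit 0x8ab73cd4c65))
 (c (a (nat_lit 0x5a7e488174445)) e
 (c z e
 (c z e
 (c (a (nat_lit 0x157391a5a00006)) e
 (c (a (nat_lit 0x1164a000000007)) e e)))))
 (c (a (nat_lit 0x137f70705045))
 (c (a (nat_lit 0x65a0d890262a7)) e
 (c (a (nat_lit 0x12c07307a44007)) e e))
 (c (a (nat_lit 0x1223a3838065))
 (c (a (nat_lit 0x7b8e01400006)) e e)
 (c (a (nat_lit 0x989765310e6)) e
 (c (a (nat_lit 0xf1c3552b486)) e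
 (c (a (nat_lit 0x1cd5f9997507)) e
 (c z e
 (c (a (nat_lit 0x183d75f17685)) e
 (c (a (nat_lit 0x176880618224)) e
 (c (a (nat_lit 0x3c182025cc6)) e
 (c (a (nat_lit 0x383e4314607)) e e)))))))))))
 (c (a (nat_lit 0x40404041))
 (c (a (nat_lit 0x1869692906a4))
 (c (a (nat_lit 0x1bed690822e1e6)) e
 (c (a (nat_lit 0x4975769600006)) e e))
 (c (a (nat_lit 0xf2f1a3980e5))
 (c (a (nat_lit 0xe31a480000007)) e e)
 (c (b (nat_lit 0xf5bbfe72b26)) e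
 (c z e
 (c (a (nat_lit 0xf1071ec4546)) e
 (c (a (nat_lit 0x10f3ae8061a5)) e
 (c (a (nat_lit 0x17642105c083)) e
 (c (a (nat_lit 0x202049d6a6)) e
 (c (a (nat_lit 0x5250ad0abe7)) e e)))))))))
 (c (a (nat_lit 0x2021))
 (c (a (nat_lit 0xb34550f7185))
 (c (a (nat_lit 0x1a02c000000005)) e e)
 (c z e
 (c (a (nat_lit 0xef0116a2a27)) e
 (c (a (nat_lit 0xe72ee40e165)) e
 (c (a (nat_lit 0x44211922006)) e
 (c (a (nat_lit 0xdcdbaf1cee7)) e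
 (c (a (nat_lit 0x8a5e047d1a6)) e e)))))))
 (c (a (nat_lit 0x404041))
 (c (a (nat_lit 0x14d8b9cfd046)) e
 (c (a (nat_lit 0xc601825165)) e
 (c (a (nat_lit 0x50081b02645)) e
 (c (a (nat_lit 0x1636bdea88c6)) e
 (c z e
 (c z e
 (c (a (nat_lit 0xf7413b38006)) e
 (c (a (nat_lit 0x64140000001)) e e))))))))
 (c (a (nat_lit 0x20202021))
 (c (a (nat_lit 0x1d5454d7e003)) e
 (c (a (nat_lit 0x14b575d78be6)) e
 (c z e
 (c z e
 (c (b (nat_lit 0x1ffd038440a3)) e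
 (c (a (nat_lit 0x1c8320600003)) e
 (c (a (nat_lit 0xaa000000001)) e e)))))))
 (c (a (nat_lit 0x202021))
 (c (a (nat_lit 0x13e6cb744da6)) e
 (c z e
 (c (a (nat_lit 0x551a4a629c6)) e
 (c (a (nat_lit 0x17c103e02005)) e
 (c (a (nat_lit 0x2240000001)) e e)))))
 (c (a (nat_lit 0x40404041))
 (c (a (nat_lit 0x1afd5b7a5c47)) e
 (c (a (nat_lit 0x8023b3c5)) e
 (c (a (nat_lit 0x96800800001)) e
 (c (a (nat_lit 0x42000000001)) e e))))
 (c (a (nat_lit 0x21))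
 (c (a (nat_lit 0x9220c02003)) e
 (c (a (nat_lit 0x114020000001)) e e))
 (c (a (nat_lit 0x2026d065))
 (c (a (nat_lit 0x6000000001)) e e)
 (c (a (nat_lit 0x88c329786)) e
 (c (a (nat_lit 0x80e7364c6)) e
 (c (a (nat_lit 0xef5e72726)) e
 (c (a (nat_lit 0x1d60202025)) e
 (c (a (nat_lit 0x204001)) e
 (c (a (nat_lit 0x20403b44)) e
 (c (a (nat_lit 0x3b0184)) e
 (c z e
 (c (b (nat_lit 0x1cdfe02024)) e
 (c (a (nat_lit 0x80c0a081)) e
 (c (a (nat_lit 0x40a00001)) e e)))))))))))))))))))))))) Tr.c Tr.e (nat_lit 0) C.cx C.cy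
noncomputable def C237 : Tr := beta% (fun (c : Nat → Tr → Tr → Tr) (e : Tr) (z : Nat) (a b : Nat → Nat) =>
 (c (a (nat_lit 0x40404041))
 (c (a (nat_lit 0x20202001))
 (c (a (nat_lit 0x1c18db18f8b8a5))
 (c (a (nat_lit 0x1272727190f4d3e6)) e
 (c (a (nat_lit 0xaaaa9e88c6f5147))
 (c (a (nat_lit 0x888ab27e850e70009)) e e)
 (c (a (nat_lit 0x10cdec13f37052e7)) e
 (c (a (nat_lit 0x12109dba54b14be6)) e
 (c (a (nat_lit 0xb52111289e8ad07)) e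
 (c (a (nat_lit 0xaab316a260688c7)) e
 (c (a (nat_lit 0xa906ac926e928c7)) e
 (c (a (nat_lit 0x1ed4b0f237ea4006)) e
 (c (a (nat_lit 0x174a910fa0000006)) e e)))))))))
 (c (a (nat_lit 0x4f282c2a2bae4))
 (c (a (nat_lit 0xd0e6d2db2d14f48))
 (c (a (nat_lit 0xcd1ad6d3546000009)) e e)
 (c (a (nat_lit 0xd0b50b22f70ac69)) e
 (c z e
 (c z e
 (c z e
 (c (a (nat_lit 0x164fca2686ecc968)) e
 (c (a (nat_lit 0xcfceff610600007)) e e)))))))
 (c (a (nat_lit 0x1dee4dcdb768a4))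
 (c z e
 (c z e
 (c z e
 (c (a (nat_lit 0x100cc76882016668)) e e))))
 (c (b (nat_lit 0x203ff84a06))
 (c (a (nat_lit 0x112befebf2490b07)) e
 (c (a (nat_lit 0x132bebb30b872708)) e
 (c (a (nat_lit 0x13821e6c73a9c366)) e e)))
 (c (a (nat_lit 0xd3051bcdeb565))
 (c (a (nat_lit 0x5858f70e344c687)) e
 (c (a (nat_lit 0x74d5b82a7c2a007)) e e))
 (c (a (nat_lit 0x9a16d30468425)) e
 (c (a (nat_lit 0x1254a3c20483)) e
 (c (a (nat_lit 0xcd0c12041b143)) e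
 (c (a (nat_lit 0x160606997a2263)) e
 (c (a (nat_lit 0x4f8998e6062e4)) e
 (c (a (nat_lit 0x1aad9614abf625)) e
 (c (a (nat_lit 0x11d2d1d15376a7)) e
 (c (a (nat_lit 0xba50552d48065)) e
 (c (a (nat_lit 0x1070be0f600005)) e
 (c (a (nat_lit 0x1ffd4000000004)) e e)))))))))))))))
 (c (a (nat_lit 0x10a7))
 (c (a (nat_lit 0x4e020202718e6))
 (c (a (nat_lit 0x1875d3dd7b17de47)) e
 (c (a (nat_lit 0xfd2b8133893ac09)) e
 (c z e
 (c z e
 (c (a (nat_lit 0x19b034aed0f5d769)) e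
 (c (a (nat_lit 0x10690605ed290009)) e
 (c (a (nat_lit 0x194a2cee20000008)) e e)))))))
 (c (a (nat_lit 0x4e4e4ed372ea7)) e
 (c (b (nat_lit 0x203dff5d45fe8))
 (c (a (nat_lit 0x1044f1aa8aad6028)) e e)
 (c z e
 (c (a (nat_lit 0x54f3189a84008)) e
 (c (a (nat_lit 0x19c86240404b86)) e
 (c (a (nat_lit 0x1b8ecb8bafe025)) e
 (c (a (nat_lit 0xcf279b0334006)) e
 (c z e
 (c z e
 (c (a (nat_lit 0x133774cdde3847)) e
 (c (a (nat_lit 0xe2dc8bbcfc006)) e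
 (c (a (nat_lit 0x1bd61600000006)) e e)))))))))))))
 (c (a (nat_lit 0x202030a987))
 (c (b (nat_lit 0xb4c3ff5ffe265))
 (c (a (nat_lit 0xa24b52ba9e76927)) e e)
 (c z e
 (c z e
 (c z e
 (c (a (nat_lit 0xc2c1167862046)) e
 (c z e
 (c z e
 (c z e
 (c (b (nat_lit 0x102ea38baddfe7)) e
 (c (a (nat_lit 0x947ec2d6bd069)) e
 (c (a (nat_lit 0x50b114ca00008)) e
 (c (a (nat_lit 0x162bc000000007)) e e))))))))))))
 (c (a (nat_lit 0x1819072c607))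
 (c z e
 (c (a (nat_lit 0x1cd847ccc988c7))
 (c (a (nat_lit 0x1e339edb37400007)) e
 (c (a (nat_lit 0xf742a8000000006)) e e))
 (c (a (nat_lit 0xd00e8d722c3c7)) e
 (c z e
 (c z e
 (c z e
 (c (a (nat_lit 0xa0cefadd0f287)) e
 (c (a (nat_lit 0x726486a8453c8)) e e))))))))
 (c (a (nat_lit 0xf02a8643a7))
 (c (a (nat_lit 0x120fec886fc926))
 (c z e
 (c (a (nat_lit 0x13a9400000000006)) e e))
 (c (a (nat_lit 0x1aae2e521f4586)) e
 (c z e
 (c z e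
 (c (a (nat_lit 0x84844c7eeb348)) e
 (c (a (nat_lit 0x74aac2d93d868)) e
 (c (a (nat_lit 0xcb5fc143ef0e7)) e e)))))))
 (c (a (nat_lit 0x159c0d45a5a6))
 (c (a (nat_lit 0x8431691c9e2e6)) e
 (c z e
 (c (a (nat_lit 0x162610359e6)) e
 (c (a (nat_lit 0x1e1c266332d48)) e
 (c (a (nat_lit 0x4e08713354868)) e
 (c (a (nat_lit 0x468ea9367e008)) e e))))))
 (c (a (nat_lit 0x1c2cc6e6c6c5))
 (c (a (nat_lit 0xd11e969e42f25)) e
 (c (a (nat_lit 0x121ac41198e86)) e e))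
 (c (a (nat_lit 0x1e8060406003))
 (c (a (nat_lit 0x4582b3650047)) e
 (c z e
 (c (a (nat_lit 0x3aa5225a2c008)) e
 (c (a (nat_lit 0x11b305c0000007)) e e))))
 (c (a (nat_lit 0x6a6a6a5bfc4))
 (c (a (nat_lit 0x101dd281aa0887)) e
 (c (a (nat_lit 0x18992121800008)) e
 (c (a (nat_lit 0x10a04000000007)) e e)))
 (c (a (nat_lit 0xa4a4a10c6e6))
 (c (a (nat_lit 0x19c8a160000007)) e
 (c (a (nat_lit 0x1d800000000006)) e e))
 (c (a (nat_lit 0x10d49b34f406)) e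
 (c (a (nat_lit 0x1a1d79d9d9c7)) e
 (c (a (nat_lit 0x1143030308c5)) e
 (c (a (nat_lit 0x2020567b03)) e
 (c (a (nat_lit 0x202b4db324)) e
 (c (a (nat_lit 0xc4ee33c6e4)) e
 (c (a (nat_lit 0x129dc40403)) e
 (c (a (nat_lit 0xf7aa0e10123)) e
 (c (a (nat_lit 0x19e0a0804003)) e
 (c (a (nat_lit 0x100c0000001)) e e))))))))))))))))))))
 (c (a (nat_lit 0x40404041))
 (c (a (nat_lit 0x2020302d07))
 (c (a (nat_lit 0x202b2bb2e5))
 (c z e
 (c (a (nat_lit 0xcd250bd348642e8)) e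
 (c z e
 (c (a (nat_lit 0x15270223454285e8)) e
 (c (a (nat_lit 0xc0fea6ef4d76828)) e
 (c (a (nat_lit 0x905c6b1eb200008)) e
 (c (a (nat_lit 0x78ebce000000006)) e e)))))))
 (c (a (nat_lit 0xd3093796fc007)) e
 (c z e
 (c z e
 (c (a (nat_lit 0x1615b353802207)) e
 (c (a (nat_lit 0x14b391780f17e6)) e
 (c (a (nat_lit 0x146f2f52fa8025)) e
 (c z e
 (c z e
 (c (a (nat_lit 0x59106432723e7)) e
 (c (a (nat_lit 0x1a386737ad6026)) e
 (c (a (nat_lit 0x74194ef400006)) e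
 (c (a (nat_lit 0x15b28000000006)) e e)))))))))))))
 (c (a (nat_lit 0x4243814e768))
 (c z e
 (c z e
 (c z e
 (c z e
 (c (a (nat_lit 0xf93570b6ef967)) e
 (c z e
 (c z e
 (c z e
 (c z e
 (c (a (nat_lit 0xd8cf414326009)) e
 (c (a (nat_lit 0xc30ce20000009)) e
 (c (a (nat_lit 0x1d600000000007)) e e))))))))))))
 (c z e
 (c (a (nat_lit 0x17ecc4e2a2c7)) e
 (c (a (nat_lit 0x154980a0a0a6))
 (c z e
 (c (a (nat_lit 0x3ebe960877448)) e
 (c (a (nat_lit 0x1c222c4b586a8)) e e)))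
 (c (a (nat_lit 0x188aeacaca65))
 (c (a (nat_lit 0x6c4c263c0b3c8)) e
 (c (a (nat_lit 0x3c7a4b64f6888)) e e))
 (c (a (nat_lit 0x1231d21cbbe4))
 (c (a (nat_lit 0xb0797a4ccc728)) e e)
 (c (a (nat_lit 0x1c5c595fce66)) e
 (c z e
 (c (a (nat_lit 0x613a0a0a045)) e
 (c (a (nat_lit 0x130060202785)) e
 (c (a (nat_lit 0x20264839a7)) e
 (c (a (nat_lit 0x21f27407)) e
 (c (a (nat_lit 0x1e030b264c7)) e
 (c z e
 (c (a (nat_lit 0x1369a725e5e7)) e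
 (c (a (nat_lit 0x1e4a60402024)) e
 (c (a (nat_lit 0x1600e0600003)) e
 (c (a (nat_lit 0x1e000000001)) e e)))))))))))))))))))
 C236))) Tr.c Tr.e (nat_lit 0) C.cx C.cy
noncomputable def C238 : Tr := beta% (fun (c : Nat → Tr → Tr → Tr) (e : Tr) (z : Nat) (a b : Nat → Nat) =>
 (c (a (nat_lit 0x2001))
 (c (a (nat_lit 0x3bf72487))
 (c z e
 (c z e
 (c z e
 (c z e
 (c z e
 (c z e
 (c z e
 (c z e
 (c z e
 (c z e
 (c (a (nat_lit 0x10d44fe0000008)) e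
 (c (a (nat_lit 0x11400000000006)) e e))))))))))))
 (c z e
 (c (b (nat_lit 0x156b7fe0a0a8)) e
 (c (a (nat_lit 0x13e9c0202026)) e
 (c (a (nat_lit 0x1f0040204084))
 (c (a (nat_lit 0xa00682a207367)) e e)
 (c (a (nat_lit 0x40207051a4))
 (c (a (nat_lit 0x5a6146b624509)) e e)
 (c (a (nat_lit 0x20a235b1c4)) e
 (c z e
 (c (a (nat_lit 0xed9b40d0ce5)) e
 (c (a (nat_lit 0x104d69ea0a26)) e
 (c (a (nat_lit 0x1273535354c8)) e
 (c (a (nat_lit 0x7e7272d5726)) e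
 (c z e
 (c z e
 (c z e
 (c (a (nat_lit 0x11b40c602006)) e
 (c (a (nat_lit 0x144ca0200006)) e e)))))))))))))))))
 (c (a (nat_lit 0x40404041))
 (c (a (nat_lit 0x135201602007)) e
 (c (a (nat_lit 0x1b0a41616165))
 (c z e
 (c (a (nat_lit 0x146de5a2604008)) e
 (c z e
 (c z e
 (c z e
 (c z e
 (c (a (nat_lit 0xfb073c7000009)) e e)))))))
 (c (a (nat_lit 0x11a020202505))
 (c (a (nat_lit 0x1f3cabe3826726)) e
 (c z e
 (c z e
 (c z e
 (c (a (nat_lit 0x39f6a602e008)) e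
 (c (a (nat_lit 0x7750440000008)) e e))))))
 (c (b (nat_lit 0x60209ff5e4)) e
 (c z e
 (c z e
 (c (a (nat_lit 0x19dd1c189886)) e
 (c (a (nat_lit 0xb4af07071e7)) e
 (c (a (nat_lit 0xb077551f546)) e
 (c z e
 (c z e
 (c (b (nat_lit 0x3ffffff7a5)) e
 (c (a (nat_lit 0xc4027b87d06)) e e)))))))))))))
 (c (a (nat_lit 0x40404041))
 (c (a (nat_lit 0x132040204d03))
 (c (a (nat_lit 0x144f27a2e48006)) e
 (c (a (nat_lit 0x1d5048ab60ede6)) e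
 (c z e
 (c z e
 (c z e
 (c (a (nat_lit 0x28a13a7418008)) e
 (c (a (nat_lit 0x1118c740000008)) e e)))))))
 (c (a (nat_lit 0x303030b31c5))
 (c (b (nat_lit 0x18ce4ca59a7fe5)) e
 (c z e
 (c z e
 (c (a (nat_lit 0x65127a504e3c9)) e
 (c (a (nat_lit 0x17d629c3600008)) e
 (c (a (nat_lit 0x18648000000008)) e e))))))
 (c (a (nat_lit 0xc51d73c9845)) e
 (c z e
 (c (a (nat_lit 0x191ddb1716e6)) e
 (c (a (nat_lit 0xb2a10506f27)) e
 (c (a (nat_lit 0xa0e900fed48)) e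
 (c z e
 (c z e
 (c z e
 (c (a (nat_lit 0x5042146b487)) e
 (c (a (nat_lit 0x30026b491e7)) e e))))))))))))
 (c (a (nat_lit 0x20202021))
 (c (a (nat_lit 0x4a4c9b7b604))
 (c (a (nat_lit 0x106bd007b6f624)) e
 (c z e
 (c z e
 (c (b (nat_lit 0x13ade243dfe007)) e
 (c (a (nat_lit 0x18888320000007)) e
 (c (a (nat_lit 0x15600000000005)) e e))))))
 (c z e
 (c (a (nat_lit 0x7b371aa4805))
 (c (b (nat_lit 0x105fef6e412006)) e e)
 (c (a (nat_lit 0x9c8d10eab66)) e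
 (c (a (nat_lit 0xf35f110f246)) e
 (c (a (nat_lit 0x18d636133327)) e
 (c z e
 (c (a (nat_lit 0xe1133ee8ea5)) e
 (c (a (nat_lit 0x141f29a15d23)) e
 (c (a (nat_lit 0x2c02023bf86)) e
 (c (a (nat_lit 0x3e3e5b3b007)) e e)))))))))))
 (c (a (nat_lit 0x40404041))
 (c (a (nat_lit 0xeb08f6ba9e5))
 (c (a (nat_lit 0x3fed3496a8526)) e
 (c (a (nat_lit 0x1d906bedc40007)) e e))
 (c (a (nat_lit 0x181615555125))
 (c (a (nat_lit 0x2ce70a3600007)) e e)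
 (c (a (nat_lit 0xf5777953326)) e
 (c z e
 (c z e
 (c z e
 (c (a (nat_lit 0x1de30443c0a2)) e
 (c (a (nat_lit 0x60639f05)) e
 (c (a (nat_lit 0x4041cf9be6)) e e)))))))))
 (c (a (nat_lit 0x21))
 (c (a (nat_lit 0xe5092512f85))
 (c (a (nat_lit 0x167a8240000005)) e e)
 (c z e
 (c (a (nat_lit 0x1350ce88ca27)) e
 (c (a (nat_lit 0xbb02d02c505)) e
 (c (a (nat_lit 0x4838b75a027)) e
 (c (a (nat_lit 0xf8f9955cde7)) e
 (c (a (nat_lit 0xfa7a7592f85)) e e)))))))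
 (c (a (nat_lit 0x80a0a081))
 (c (a (nat_lit 0x108eed07e9c7)) e
 (c (a (nat_lit 0xcfe7c3c3da5)) e
 (c (a (nat_lit 0x100e2e6f41e5)) e
 (c (a (nat_lit 0x12d2d3602407)) e
 (c z e
 (c z e
 (c z e
 (c (a (nat_lit 0x1793c6e00005)) e e))))))))
 (c (a (nat_lit 0x2021))
 (c (a (nat_lit 0x12d132d263c4)) e
 (c (a (nat_lit 0x133393cb6c26)) e
 (c z e
 (c z e
 (c z e
 (c (a (nat_lit 0x108f8be22005)) e
 (c (a (nat_lit 0x19ca40000005)) e e)))))))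
 (c (a (nat_lit 0x60606061))
 (c (a (nat_lit 0x192120f2b745)) e
 (c z e
 (c z e
 (c (a (nat_lit 0x1513c2a807c6)) e
 (c (a (nat_lit 0x110020400006)) e
 (c (a (nat_lit 0x2000000001)) e e))))))
 (c (a (nat_lit 0x2001))
 (c z e
 (c (a (nat_lit 0x18baa5aded45)) e
 (c (a (nat_lit 0x14e020402005)) e
 (c (a (nat_lit 0x2020000001)) e e))))
 (c (a (nat_lit 0x40404041))
 (c (a (nat_lit 0x5074fa050a5)) e
 (c (a (nat_lit 0x6300200001)) e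
 (c (a (nat_lit 0x30000000001)) e e)))
 (c (a (nat_lit 0x20203625))
 (c (a (nat_lit 0x148020000001)) e e)
 (c (a (nat_lit 0x2a2b8b3e5)) e
 (c (a (nat_lit 0x5d38e91c6)) e
 (c z e
 (c (a (nat_lit 0x1376c9e9c6)) e
 (c (a (nat_lit 0x19c0200005)) e
 (c (a (nat_lit 0xa00061a1)) e
 (c (a (nat_lit 0x2055a4)) e
 (c (a (nat_lit 0x2035d224)) e
 (c z e
 (c (a (nat_lit 0x11eea06044)) e
 (c (a (nat_lit 0x1ca0602003)) e
 (c (a (nat_lit 0x100000001)) e e))))))))))))))))))))))))) Tr.c Tr.e (nat_lit 0) C.cx C.cy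
noncomputable def C239 : Tr := beta% (fun (c : Nat → Tr → Tr → Tr) (e : Tr) (z : Nat) (a b : Nat → Nat) =>
 (c (a (nat_lit 0x20202021))
 (c (a (nat_lit 0x20000001))
 (c (a (nat_lit 0x18586bf4840225))
 (c (a (nat_lit 0xad1b1d18d101f86))
 (c z e
 (c z e
 (c (a (nat_lit 0x8482886103b298008)) e
 (c (a (nat_lit 0xe6aadb46f20000009)) e e))))
 (c z e
 (c z e
 (c (a (nat_lit 0xb2e509492ce6f49)) e
 (c (a (nat_lit 0x6ab0fd1ac88c749)) e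
 (c (a (nat_lit 0xd9898588d868c47)) e
 (c z e
 (c (a (nat_lit 0x95288a5480b6488)) e
 (c (a (nat_lit 0x108d818f71800007)) e
 (c (a (nat_lit 0x1e40442000000006)) e e))))))))))
 (c (a (nat_lit 0x1361cb44214006))
 (c z e
 (c z e
 (c z e
 (c z e
 (c z e
 (c z e
 (c (a (nat_lit 0x17aad26b6ea96009)) e e)))))))
 (c (a (nat_lit 0x336456201e085)) e
 (c (a (nat_lit 0x4a10022429827))
 (c z e
 (c (a (nat_lit 0x174cace7f069a6e9)) e
 (c (a (nat_lit 0xa2d2812890b8689)) e e)))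
 (c (a (nat_lit 0x5470a7073bd86))
 (c (a (nat_lit 0x78ac66ed424c288)) e
 (c (a (nat_lit 0x32630df25a360e8)) e e))
 (c (a (nat_lit 0xcec872fdf2a86))
 (c (a (nat_lit 0xc7068e5ca448007)) e e)
 (c z e
 (c (a (nat_lit 0x4bc20a13425)) e
 (c (a (nat_lit 0x5801011e4c85)) e
 (c (a (nat_lit 0x1a343c392c6a85)) e
 (c (a (nat_lit 0x11f0b0d4eecae7)) e
 (c z e
 (c (a (nat_lit 0x384c4a735c026)) e
 (c (a (nat_lit 0xa6a6bb2e5e007)) e
 (c (a (nat_lit 0x1192cd00000007)) e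
 (c (a (nat_lit 0x17200000000005)) e e))))))))))))))))
 (c (a (nat_lit 0x20202001))
 (c (a (nat_lit 0xbf1ebea08ac86))
 (c (a (nat_lit 0xc0d4e4d918ef029))
 (c (a (nat_lit 0x106eec4cf905200009)) e e)
 (c z e
 (c z e
 (c z e
 (c z e
 (c (a (nat_lit 0x1070cb6b46ede9ea)) e
 (c (a (nat_lit 0x11166ad06aa00009)) e e)))))))
 (c (a (nat_lit 0x865648404d248)) e
 (c (b (nat_lit 0x2619fe5fdb868)) e
 (c z e
 (c z e
 (c (a (nat_lit 0x36e10c60065e8)) e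
 (c (a (nat_lit 0x10cca722864768)) e
 (c z e
 (c z e
 (c z e
 (c z e
 (c (a (nat_lit 0xac38f8dddc1e6)) e
 (c (a (nat_lit 0x119290ed400008)) e
 (c (a (nat_lit 0x11e74000000007)) e e))))))))))))))
 (c (a (nat_lit 0x2020203c47))
 (c (b (nat_lit 0x644a41ffffa26)) e
 (c z e
 (c z e
 (c z e
 (c z e
 (c z e
 (c z e
 (c z e
 (c z e
 (c z e
 (c (a (nat_lit 0xd2a7578cf4008)) e
 (c (a (nat_lit 0xb916ac0000008)) e e))))))))))))
 (c (a (nat_lit 0x20203c93e7))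
 (c z e
 (c (a (nat_lit 0xc9c1acd565988))
 (c z e
 (c (a (nat_lit 0x13f31509c0000009)) e e))
 (c (a (nat_lit 0x9d2874c7f7048))
 (c (a (nat_lit 0x15ad66e000000008)) e e)
 (c z e
 (c z e
 (c z e
 (c (a (nat_lit 0xf072328e6b0a8)) e
 (c (a (nat_lit 0xb717d71180d07)) e e))))))))
 (c (a (nat_lit 0x464778d6868))
 (c (a (nat_lit 0xd70ac09f81787))
 (c (a (nat_lit 0x15c8d7932b200006)) e
 (c (a (nat_lit 0xed3620000000007)) e e))
 (c (a (nat_lit 0xd07500b4e3388))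
 (c (a (nat_lit 0x1841000000000006)) e e)
 (c z e
 (c z e
 (c (a (nat_lit 0x9e94aa829d049)) e
 (c (a (nat_lit 0xcccf1901c6f08)) e
 (c (a (nat_lit 0x8e84cf56b0f29)) e e)))))))
 (c (a (nat_lit 0x3303088c448))
 (c (a (nat_lit 0x74b05d0d98c87)) e
 (c z e
 (c z e
 (c (a (nat_lit 0x15f8a84afa9687)) e
 (c (a (nat_lit 0x144da9d4abd788)) e
 (c (a (nat_lit 0xf717aa7dacda8)) e e))))))
 (c (a (nat_lit 0x1b9d4b636347))
 (c z e
 (c (b (nat_lit 0x49ffe2679e68)) e e))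
 (c (a (nat_lit 0x1528c1412146))
 (c (a (nat_lit 0x241e440f7a608)) e
 (c z e
 (c (a (nat_lit 0x5c898740222c8)) e
 (c (a (nat_lit 0x7588c00400008)) e e))))
 (c (a (nat_lit 0x1d4040204024))
 (c (a (nat_lit 0xbedd72aa14b48)) e
 (c (a (nat_lit 0x571ae22220009)) e
 (c (a (nat_lit 0x1f3617e0000006)) e e)))
 (c (a (nat_lit 0x80888a8fde5))
 (c (a (nat_lit 0x1a9f9380800006)) e
 (c (a (nat_lit 0x158b6000000008)) e e))
 (c (a (nat_lit 0xe8eb2385227))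
 (c (a (nat_lit 0x19c00000000006)) e e)
 (c z e
 (c (a (nat_lit 0x3bc0c4566e5)) e
 (c (a (nat_lit 0x1646802024c5)) e
 (c (a (nat_lit 0x1ac04193fe83)) e
 (c (a (nat_lit 0x4527bea5)) e
 (c z e
 (c (a (nat_lit 0x3c550a5e5c6)) e
 (c (b (nat_lit 0x1ff5e0602005)) e
 (c (a (nat_lit 0x15e080200005)) e
 (c (a (nat_lit 0x54000000001)) e e)))))))))))))))))))))
 (c (a (nat_lit 0x40404041))
 (c (a (nat_lit 0x2020203c26))
 (c (a (nat_lit 0x112702204d8043))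
 (c (a (nat_lit 0xcabaed0fb78ec66)) e
 (c (a (nat_lit 0xc70f0ac57f0a768)) e
 (c z e
 (c z e
 (c (a (nat_lit 0x1e6fe4a5c92de7a8)) e
 (c (a (nat_lit 0x1fae6fe48fe6a007)) e
 (c (a (nat_lit 0x1d28bf8d00000006)) e e)))))))
 (c (b (nat_lit 0xba9e8b3bfffe6))
 (c z e
 (c z e
 (c z e
 (c z e
 (c z e
 (c (a (nat_lit 0xb3b00000000007)) e e))))))
 (c z e
 (c z e
 (c (a (nat_lit 0x15f51cb76f8027)) e
 (c (a (nat_lit 0x1095f1c0604066)) e
 (c (a (nat_lit 0x1832a3408aa006)) e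
 (c z e
 (c z e
 (c z e
 (c (a (nat_lit 0xf0df15112cfc8)) e
 (c (b (nat_lit 0x1feab293546006)) e
 (c (a (nat_lit 0x10730aa0000007)) e
 (c (a (nat_lit 0x10a00000000006)) e e))))))))))))))
 (c (a (nat_lit 0x20203f9ac7))
 (c z e
 (c z e
 (c z e
 (c z e
 (c z e
 (c z e
 (c z e
 (c z e
 (c z e
 (c z e
 (c (a (nat_lit 0xd93f7ae000008)) e
 (c (a (nat_lit 0x128a2000000008)) e e))))))))))))
 (c (a (nat_lit 0x2034f0e308)) e
 (c z e
 (c (a (nat_lit 0x1e9f502bebe7))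
 (c z e
 (c z e
 (c (a (nat_lit 0x6a245c5e515c9)) e e)))
 (c (a (nat_lit 0x1087c4646467))
 (c (a (nat_lit 0x732a9a04aff86)) e
 (c (a (nat_lit 0x8383c1777e47)) e e))
 (c (a (nat_lit 0x108040202c05))
 (c (a (nat_lit 0x12762bf32f227)) e e)
 (c (a (nat_lit 0x602077faa4)) e
 (c z e
 (c z e
 (c z e
 (c (a (nat_lit 0xe684f6f76c5)) e
 (c (a (nat_lit 0x260802213e7)) e
 (c (a (nat_lit 0x6021f3ccc7)) e
 (c z e
 (c z e
 (c (a (nat_lit 0x17130f674747)) e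
 (c (a (nat_lit 0x179040202006)) e
 (c (a (nat_lit 0x106040000006)) e e)))))))))))))))))))
 C238))) Tr.c Tr.e (nat_lit 0) C.cx C.cy
noncomputable def C240 : Tr := beta% (fun (c : Nat → Tr → Tr → Tr) (e : Tr) (z : Nat) (a : Nat → Nat) =>
 (c (a (nat_lit 0x202001))
 (c (a (nat_lit 0x112807070701c4))
 (c z e
 (c (a (nat_lit 0x4e323604058f5e5))
 (c z e
 (c z e
 (c (a (nat_lit 0x6e3c6a46b85285f27)) e
 (c (a (nat_lit 0xa8c6acb8a0c1469c9)) e e))))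
 (c z e
 (c z e
 (c z e
 (c (a (nat_lit 0x80cea90b0fb2d66)) e
 (c z e
 (c (a (nat_lit 0xdb6b6d975e03de5)) e
 (c (a (nat_lit 0xb6d6dcdd1f4f366)) e
 (c (a (nat_lit 0x7cae92690ae0b66)) e
 (c z e
 (c (a (nat_lit 0xa8a12a460000006)) e e))))))))))))
 (c (a (nat_lit 0x1d9b5b5b46b364))
 (c (a (nat_lit 0x1453356f71470a6))
 (c z e
 (c z e
 (c (a (nat_lit 0x42a10182420f31c9)) e
 (c (a (nat_lit 0xe2c6c8accf70c400a)) e e))))
 (c z e
 (c z e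
 (c (a (nat_lit 0xb6c2a8b4f128e89)) e
 (c (a (nat_lit 0x1331f37a5cbb7468)) e
 (c (a (nat_lit 0x11923a97d70c72a7)) e
 (c z e
 (c (a (nat_lit 0xb2bad3db2ae2fa7)) e
 (c (a (nat_lit 0xeeaa8ee2cf3ac87)) e
 (c (a (nat_lit 0x1bf19d9cafe00006)) e
 (c (a (nat_lit 0x121e074000000006)) e e)))))))))))
 (c (a (nat_lit 0x1dddddd2f52a64))
 (c z e
 (c z e
 (c z e
 (c (a (nat_lit 0x1e145f5e9e3eac8)) e
 (c (a (nat_lit 0x1e38c66908b44e8)) e e)))))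
 (c (a (nat_lit 0x14f521cbc940e4))
 (c z e
 (c (a (nat_lit 0x109ec7267f28d68)) e e))
 (c (a (nat_lit 0x150fd2925030c6))
 (c z e
 (c z e
 (c (a (nat_lit 0x12c8ee0d8d2be628)) e e)))
 (c (a (nat_lit 0x7720f7679de84))
 (c (a (nat_lit 0x15e8c57405a8a7e7)) e
 (c (a (nat_lit 0xe8a940992f72e46)) e e))
 (c (a (nat_lit 0x11902b6a6c28c4)) e
 (c z e
 (c (a (nat_lit 0xdb0fd76c52404)) e
 (c (a (nat_lit 0xf13f2a1c10125)) e
 (c (a (nat_lit 0x14b20321c1d244)) e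
 (c (a (nat_lit 0x18b1109096cec5)) e
 (c (a (nat_lit 0x1439b9b35396e6)) e
 (c z e
 (c z e
 (c (a (nat_lit 0x13d45b17eba005)) e
 (c (a (nat_lit 0x151bcc40000005)) e e)))))))))))))))))
 (c (a (nat_lit 0x20000001))
 (c (a (nat_lit 0x1454544c712726))
 (c (a (nat_lit 0x7f0d7b7f6cebfe6))
 (c (a (nat_lit 0x34184a50660c33b28)) e
 (c z e
 (c z e
 (c (a (nat_lit 0xe6ecbcef76f60000a)) e
 (c (a (nat_lit 0x161034150000000009)) e e)))))
 (c z e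
 (c z e
 (c (a (nat_lit 0x12b0953bbd799589)) e
 (c (a (nat_lit 0xe0db4b89bf1d069)) e
 (c (a (nat_lit 0xacbf1114a284868)) e
 (c z e
 (c (a (nat_lit 0xd88bb2b674bab28)) e
 (c (a (nat_lit 0x13d1ac291bb4c007)) e
 (c (a (nat_lit 0x10124b8980000007)) e
 (c (a (nat_lit 0x1806400000000006)) e e)))))))))))
 (c z e
 (c z e
 (c (a (nat_lit 0x17bb9977b89aa7))
 (c z e
 (c z e
 (c (a (nat_lit 0xe8a8d6a7067ea89)) e e)))
 (c (a (nat_lit 0xda88e30110e86))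
 (c (a (nat_lit 0x1a2252656ace0228)) e
 (c (a (nat_lit 0x5a929d3bd4b04e8)) e e))
 (c (a (nat_lit 0x1433acd2521f25))
 (c (a (nat_lit 0x34e536b6624c527)) e e)
 (c z e
 (c (a (nat_lit 0xeac814802005)) e
 (c (a (nat_lit 0xb6ddce0a056e5)) e
 (c (a (nat_lit 0xa39e6871a4f25)) e
 (c (a (nat_lit 0x115293106e6c67)) e
 (c z e
 (c z e
 (c (a (nat_lit 0xacb6d932be7c7)) e
 (c (a (nat_lit 0x12149f28600006)) e
 (c (a (nat_lit 0x170b0000000006)) e e))))))))))))))))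
 (c (a (nat_lit 0x2040404041))
 (c z e
 (c (a (nat_lit 0x8938de7045165)) e
 (c (a (nat_lit 0x403216466d4a7)) e
 (c z e
 (c z e
 (c z e
 (c (a (nat_lit 0x971ac07e025e7)) e
 (c z e
 (c z e
 (c z e
 (c z e
 (c z e
 (c (a (nat_lit 0x156bef994ae007)) e
 (c (a (nat_lit 0x10734e80000007)) e e))))))))))))))
 (c (a (nat_lit 0x202001))
 (c (a (nat_lit 0x1d37f1302d7924)) e e)
 (c (a (nat_lit 0x16c6))
 (c z e
 (c z e
 (c (a (nat_lit 0x98aa320a91c27))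
 (c (a (nat_lit 0x65eedaba0000006)) e e)
 (c z e
 (c z e
 (c z e
 (c (a (nat_lit 0xe5148e42c72c7)) e
 (c (a (nat_lit 0x164e0142d8cba6)) e e))))))))
 (c (a (nat_lit 0x2016ac46))
 (c (a (nat_lit 0x864c422063147))
 (c z e
 (c (a (nat_lit 0x1c355186e0000007)) e e))
 (c (a (nat_lit 0x5e5a1463094e7))
 (c (a (nat_lit 0x11c8826000000007)) e e)
 (c z e
 (c z e
 (c z e
 (c (a (nat_lit 0x104c47ebb2ce67)) e
 (c (a (nat_lit 0x742a2cc069028)) e e)))))))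
 (c (a (nat_lit 0x2627cd7c766))
 (c (a (nat_lit 0x582a7a5ba6a06)) e
 (c z e
 (c z e
 (c (a (nat_lit 0x67745c3e914a6)) e
 (c (a (nat_lit 0xee94827b14c27)) e
 (c (a (nat_lit 0xa064eb2acfee7)) e e))))))
 (c (a (nat_lit 0x7bf7e52246)) e
 (c (a (nat_lit 0x1450c8042426))
 (c (a (nat_lit 0x222e866883587)) e
 (c z e
 (c (a (nat_lit 0xe4cf972de46e7)) e
 (c (a (nat_lit 0x4a91171202008)) e e))))
 (c (a (nat_lit 0x1a4a63434345))
 (c (a (nat_lit 0xcb174b5744aa7)) e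
 (c (a (nat_lit 0x6acb395c52448)) e
 (c (a (nat_lit 0xaa91263200008)) e e)))
 (c (a (nat_lit 0x1ee0402040c3))
 (c (a (nat_lit 0x136bf592008006)) e
 (c (a (nat_lit 0x103ea8a0000007)) e e))
 (c (a (nat_lit 0x202075e4))
 (c (a (nat_lit 0x10e18000000007)) e e)
 (c (a (nat_lit 0xa8a90157446)) e
 (c z e
 (c (a (nat_lit 0xd72f3f051e6)) e
 (c (a (nat_lit 0x11aea0a75304)) e
 (c (a (nat_lit 0x13656c37f724)) e
 (c z e
 (c (a (nat_lit 0xeb4d4ab4aa5)) e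
 (c (a (nat_lit 0x139441a04044)) e
 (c (a (nat_lit 0x140160400004)) e
 (c (a (nat_lit 0xa40c0000001)) e e))))))))))))))))))))))) Tr.c Tr.e (nat_lit 0) C.cx
noncomputable def C241 : Tr := beta% (fun (c : Nat → Tr → Tr → Tr) (e : Tr) (z : Nat) (a b : Nat → Nat) =>
 (c (a (nat_lit 0x20202021))
 (c (a (nat_lit 0x20201e7966))
 (c z e
 (c z e
 (c z e
 (c z e
 (c z e
 (c z e
 (c z e
 (c z e
 (c z e
 (c z e
 (c z e
 (c (a (nat_lit 0x13e72000000005)) e e))))))))))))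
 (c (a (nat_lit 0x1b188648)) e
 (c z e
 (c (a (nat_lit 0x10ce61802028)) e
 (c (a (nat_lit 0x114600202006)) e
 (c (a (nat_lit 0xf2020203445))
 (c (b (nat_lit 0x1fe0a112e5a729)) e e)
 (c (a (nat_lit 0x2020545285)) e e)))))))
 (c (a (nat_lit 0x20202021))
 (c (a (nat_lit 0x351d0878548)) e
 (c (b (nat_lit 0x17ecbfe0a0a8)) e
 (c (a (nat_lit 0x11a720202026)) e
 (c (a (nat_lit 0xa40202052c5)) e
 (c (a (nat_lit 0x2020787085)) e
 (c (a (nat_lit 0x949bd1bde45)) e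
 (c z e
 (c z e
 (c z e
 (c z e
 (c z e
 (c z e
 (c (a (nat_lit 0xda1a0833ce5)) e
 (c (a (nat_lit 0x402e5bf4905)) e e))))))))))))))
 (c (nat_lit 1)
 (c (a (nat_lit 0x19ffa0402023))
 (c z e
 (c (a (nat_lit 0x3b26a80404266)) e
 (c z e
 (c z e
 (c z e
 (c z e
 (c (a (nat_lit 0xe94d3a5800008)) e e)))))))
 (c (a (nat_lit 0x134020203bc5))
 (c (a (nat_lit 0x1a5666e9a8e906)) e
 (c (a (nat_lit 0x116deae84ca488)) e
 (c z e
 (c z e
 (c (b (nat_lit 0x1ff8de6942e008)) e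
 (c (a (nat_lit 0x197b6860000008)) e e))))))
 (c (a (nat_lit 0x20203c12c5))
 (c (a (nat_lit 0xe4a0aab32be47)) e e)
 (c (a (nat_lit 0x42953317846)) e
 (c z e
 (c (a (nat_lit 0xf2ed7f09307)) e
 (c (a (nat_lit 0x157fb85b17c7)) e
 (c z e
 (c z e
 (c (a (nat_lit 0x110685452226)) e
 (c (a (nat_lit 0x8c646205445)) e
 (c (a (nat_lit 0x1a1a026f067)) e
 (c (a (nat_lit 0x1a026f093a7)) e e)))))))))))))
 (c (a (nat_lit 0x20202021))
 (c (a (nat_lit 0x20203d9ac4))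
 (c (a (nat_lit 0x16866aa8f014a5)) e
 (c (a (nat_lit 0xaaaa95dbdb4e6)) e
 (c z e
 (c z e
 (c (a (nat_lit 0x139849e2400007)) e
 (c (a (nat_lit 0x12a90000000007)) e e))))))
 (c (a (nat_lit 0xe3b12f1366))
 (c (a (nat_lit 0x3c50c97c90547)) e e)
 (c z e
 (c z e
 (c (a (nat_lit 0x93046866a07)) e
 (c (a (nat_lit 0x102c6c8d8ac8)) e
 (c z e
 (c (a (nat_lit 0x8b52f6faf85)) e
 (c (a (nat_lit 0x1a6222426a81)) e
 (c (a (nat_lit 0x626a6c158e4)) e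
 (c (a (nat_lit 0x20463aa6)) e e)))))))))))
 (c (a (nat_lit 0x60404041))
 (c (a (nat_lit 0xf38f89b0765))
 (c (a (nat_lit 0xa085d90ca8be6)) e e)
 (c z e
 (c z e
 (c z e
 (c z e
 (c z e
 (c (a (nat_lit 0x16414100a043)) e
 (c (a (nat_lit 0x7c787407de4)) e
 (c (a (nat_lit 0x6282d1bd05)) e
 (c (a (nat_lit 0x3d279fb45)) e e))))))))))
 (c (a (nat_lit 0x20204041))
 (c (a (nat_lit 0x151e51f09005))
 (c (a (nat_lit 0x5db3e21600005)) e e)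
 (c z e
 (c z e
 (c z e
 (c z e
 (c (a (nat_lit 0xd2d3693eb47)) e
 (c (a (nat_lit 0xa4a66cd9bc5)) e e)))))))
 (c (a (nat_lit 0x20404041))
 (c z e
 (c (a (nat_lit 0x1f3063e3d0a5)) e
 (c (b (nat_lit 0x1fe444b34046)) e
 (c (a (nat_lit 0x1c7cbd29c286)) e
 (c z e
 (c z e
 (c z e
 (c z e
 (c (a (nat_lit 0x132060000005)) e e)))))))))
 (c (a (nat_lit 0x20202021))
 (c (a (nat_lit 0xcd97cbcae44)) e
 (c (a (nat_lit 0x1313f400e566)) e
 (c z e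
 (c z e
 (c z e
 (c z e
 (c (a (nat_lit 0x102927200006)) e
 (c (a (nat_lit 0x112000000003)) e e))))))))
 (c (a (nat_lit 0x20202021))
 (c (a (nat_lit 0x5c1a26c57e4)) e
 (c z e
 (c z e
 (c z e
 (c (a (nat_lit 0x17d361a02006)) e
 (c (a (nat_lit 0x6a040000001)) e e))))))
 (c (a (nat_lit 0x20202021))
 (c z e
 (c z e
 (c (a (nat_lit 0xbc66ec03506)) e
 (c (a (nat_lit 0x240a00001)) e
 (c (a (nat_lit 0x2000000001)) e e)))))
 (c (a (nat_lit 0x20202021))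
 (c (a (nat_lit 0xc40a02031e4)) e
 (c (a (nat_lit 0x120a0e001)) e
 (c (a (nat_lit 0x20000001)) e e)))
 (c (a (nat_lit 0x20202021))
 (c (a (nat_lit 0x4020200001)) e
 (c (a (nat_lit 0x2000000001)) e e))
 (c (a (nat_lit 0x20203e85)) e
 (c (a (nat_lit 0x203eaae5)) e
 (c (a (nat_lit 0x7b70d3166)) e
 (c z e
 (c (a (nat_lit 0x15be492925)) e
 (c (a (nat_lit 0x1520202005)) e
 (c (a (nat_lit 0x202033a5)) e
 (c (a (nat_lit 0x3392a5)) e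
 (c (a (nat_lit 0x33b2bf45)) e
 (c z e
 (c (a (nat_lit 0x10dd802025)) e
 (c (a (nat_lit 0x1d80200005)) e e))))))))))))))))))))))))) Tr.c Tr.e (nat_lit 0) C.cx C.cy
noncomputable def C242 : Tr := beta% (fun (c : Nat → Tr → Tr → Tr) (e : Tr) (z : Nat) (a b : Nat → Nat) =>
 (c (a (nat_lit 0x20000001))
 (c (a (nat_lit 0x2020202021))
 (c (a (nat_lit 0x134f2644644446))
 (c (a (nat_lit 0x7aaa9e820403205))
 (c z e
 (c (a (nat_lit 0x10f0ab6aaaa9ebeba8)) e e))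
 (c (a (nat_lit 0x6e6878420f057c7))
 (c (a (nat_lit 0x10cc0bea484aaaaa29))
 (c (a (nat_lit 0x1b9549ca44400000000a)) e e)
 (c z e
 (c z e
 (c z e
 (c z e
 (c (a (nat_lit 0x15b372f62f40000009)) e e))))))
 (c z e
 (c z e
 (c z e
 (c z e
 (c (a (nat_lit 0xf0ef01adbd771c7)) e
 (c z e
 (c z e
 (c (a (nat_lit 0x17b176310cbfb4a7)) e
 (c (a (nat_lit 0x14729207d1efe8c7)) e
 (c (a (nat_lit 0xeccc65201a00007)) e e))))))))))))
 (c (a (nat_lit 0x1205a4e4e4e067))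
 (c (a (nat_lit 0x32626c9ca700e08))
 (c (a (nat_lit 0x1a99f1ce16995632a8)) e
 (c z e
 (c z e
 (c z e
 (c (a (nat_lit 0xf6fce0db00de0000b)) e
 (c (a (nat_lit 0x12af2fcd0000000009)) e e))))))
 (c z e
 (c z e
 (c z e
 (c (a (nat_lit 0x4c6c70a916c6a6a)) e
 (c (a (nat_lit 0x7096cd1ac0bcd69)) e
 (c z e
 (c z e
 (c (a (nat_lit 0xcf149cb58309568)) e
 (c (a (nat_lit 0xc08464bb1a60008)) e
 (c (a (nat_lit 0xdeaf7c1c0000007)) e e)))))))))))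
 (c (a (nat_lit 0x1311d1b1a908c5)) e
 (c (a (nat_lit 0x149494a6aacf65)) e
 (c z e
 (c (a (nat_lit 0x100d6ff32f7827))
 (c z e
 (c (a (nat_lit 0x1a559fb20aeaed08)) e e))
 (c (a (nat_lit 0x2a86bc6108786))
 (c (a (nat_lit 0x4d34802e3212068)) e e)
 (c z e
 (c z e
 (c (a (nat_lit 0xbf40fadc02067)) e
 (c (a (nat_lit 0x11ccad4120a8e7)) e
 (c (a (nat_lit 0x1e3e8e28b26ba6)) e
 (c (a (nat_lit 0x109070ef04a608)) e
 (c z e
 (c z e
 (c z e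
 (c (a (nat_lit 0xcef98a7200007)) e e)))))))))))))))))
 (c (a (nat_lit 0x20000001))
 (c (a (nat_lit 0x19ba9a7a8ab485))
 (c (a (nat_lit 0xa076eb2b270f247))
 (c z e
 (c z e
 (c z e
 (c z e
 (c (a (nat_lit 0x1672b0b4f2e000000a)) e
 (c (a (nat_lit 0x13acad000000000008)) e e))))))
 (c z e
 (c z e
 (c z e
 (c (a (nat_lit 0xa8b8d71f451d12a)) e
 (c (a (nat_lit 0xeaf957577f50968)) e
 (c z e
 (c z e
 (c (a (nat_lit 0x12eaf0a971142da8)) e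
 (c (a (nat_lit 0xc5749164a800007)) e
 (c (a (nat_lit 0x1b8160e000000006)) e e)))))))))))
 (c (b (nat_lit 0x1dfdfdffffffe6))
 (c z e
 (c z e
 (c z e
 (c (a (nat_lit 0x859676bd37c069)) e
 (c (a (nat_lit 0x52402903cc8e629)) e e)))))
 (c z e
 (c z e
 (c (a (nat_lit 0xa7012145d9927))
 (c z e
 (c (a (nat_lit 0x121467ad72d0e8e9)) e e))
 (c (a (nat_lit 0x40421c7a6d0a7))
 (c (b (nat_lit 0x146246f5c6ffffe8)) e e)
 (c z e
 (c z e
 (c (a (nat_lit 0x13f07f71402967)) e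
 (c (a (nat_lit 0xfde55222ceb07)) e
 (c (a (nat_lit 0x171291abeaab68)) e
 (c z e
 (c z e
 (c z e
 (c (a (nat_lit 0xef2f570e66007)) e
 (c (a (nat_lit 0x1779caa0000007)) e e))))))))))))))))
 (c (a (nat_lit 0x2020000001)) e
 (c (a (nat_lit 0x20202001)) e
 (c (a (nat_lit 0x20000001)) e
 (c (a (nat_lit 0x20001907))
 (c z e
 (c (a (nat_lit 0x128e692369bd87))
 (c (a (nat_lit 0x141c998820000007)) e e)
 (c z e
 (c z e
 (c z e
 (c z e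
 (c (a (nat_lit 0x9ac905586e488)) e e)))))))
 (c (a (nat_lit 0x20158f67))
 (c (a (nat_lit 0x32180202193a7)) e
 (c z e
 (c z e
 (c z e
 (c (a (nat_lit 0x251d391266b67)) e
 (c (a (nat_lit 0xce985ea447748)) e e))))))
 (c (a (nat_lit 0x3e16a467)) e
 (c z e
 (c (b (nat_lit 0x126b039fe007))
 (c z e
 (c (a (nat_lit 0x3a90ad211a8e9)) e
 (c (a (nat_lit 0x4c7271123c009)) e e)))
 (c (a (nat_lit 0x150600202026))
 (c (a (nat_lit 0xdf379aafb0607)) e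
 (c (a (nat_lit 0x16d8f8ac200008)) e e))
 (c (a (nat_lit 0xbc020203425))
 (c (a (nat_lit 0x1694e440000007)) e e)
 (c (a (nat_lit 0x4020345e45)) e
 (c z e
 (c z e
 (c (a (nat_lit 0xe53590cfb86)) e
 (c (a (nat_lit 0x86e8250a5a6)) e
 (c z e
 (c z e
 (c (a (nat_lit 0x180c0f622206)) e
 (c (a (nat_lit 0x13dac0402005)) e
 (c (a (nat_lit 0x1b2080400005)) e
 (c (a (nat_lit 0x32000000001)) e e)))))))))))))))))))))))
 (c (a (nat_lit 0x20202021))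
 (c (nat_lit 1)
 (c (a (nat_lit 0x12f2f2ee31a2e5))
 (c z e
 (c z e
 (c z e
 (c z e
 (c (a (nat_lit 0xb8c91bf53782c28)) e
 (c (a (nat_lit 0xe2cd439b8902667)) e
 (c z e
 (c z e
 (c (a (nat_lit 0x1cdeb69b1ed70006)) e
 (c (a (nat_lit 0x17392e4720000006)) e
 (c (a (nat_lit 0x16e0e00000000005)) e e)))))))))))
 (c z e
 (c z e
 (c z e
 (c (a (nat_lit 0x4c425c8c992a7))
 (c (a (nat_lit 0x91147e9abcc4288)) e
 (c (a (nat_lit 0x1c6dce5dde07eaa8)) e e))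
 (c (b (nat_lit 0x1247ff40c87))
 (c (a (nat_lit 0x304b06945634208)) e e)
 (c z e
 (c z e
 (c (a (nat_lit 0x9d84fc1258747)) e
 (c (a (nat_lit 0x138b2585a64327)) e
 (c (a (nat_lit 0x1eb23556dcc706)) e
 (c z e
 (c z e
 (c (a (nat_lit 0x195df4adae4565)) e
 (c (a (nat_lit 0x10ac28a4800006)) e
 (c (a (nat_lit 0x17482000000005)) e e))))))))))))))))
 (c (nat_lit 1)
 (c z e
 (c z e
 (c z e
 (c z e
 (c z e
 (c z e
 (c z e
 (c z e
 (c z e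
 (c z e
 (c z e
 (c z e
 (c (a (nat_lit 0x1296cde8002006)) e
 (c (a (nat_lit 0x16c02020000006)) e e))))))))))))))
 (c (a (nat_lit 0x2020202021)) e
 (c (a (nat_lit 0x1f07)) e
 (c (a (nat_lit 0x20203eca47))
 (c (b (nat_lit 0x69e774bbfecc6))
 (c z e
 (c (a (nat_lit 0x10882aa460000008)) e e))
 (c (a (nat_lit 0xc6de725a93648))
 (c (a (nat_lit 0xa1887c000000007)) e e)
 (c z e
 (c z e
 (c z e
 (c (b (nat_lit 0x5cda5e892dfe8)) e
 (c (b (nat_lit 0x1149aa3c9ff828)) e e)))))))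
 (c (a (nat_lit 0x1dbb2c27))
 (c (a (nat_lit 0x8a2e765744e07)) e
 (c z e
 (c z e
 (c z e
 (c (a (nat_lit 0x197413b27556a8)) e
 (c (a (nat_lit 0x1265f1f5af3267)) e e))))))
 (c (a (nat_lit 0x1e1d4be2c7)) e
 (c (a (nat_lit 0xc31aa202027)) e
 (c (a (nat_lit 0x1105c0202026))
 (c z e
 (c (a (nat_lit 0x243d90ac5a1c9)) e
 (c (a (nat_lit 0xa19ac0d800008)) e e)))
 (c (a (nat_lit 0xc6020203945))
 (c (b (nat_lit 0x1ff124c9e06008)) e
 (c (a (nat_lit 0x1eea6ae0000008)) e e))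
 (c (a (nat_lit 0x202cd046))
 (c (a (nat_lit 0x15d66000000005)) e e)
 (c (a (nat_lit 0x34baf526)) e
 (c z e
 (c (a (nat_lit 0xda578b2ba4)) e
 (c (a (nat_lit 0xe4ba04054c4)) e
 (c (a (nat_lit 0x440e1065f06)) e
 (c z e
 (c z e
 (c (a (nat_lit 0x8550cc2e207)) e
 (c (a (nat_lit 0x132ae1202007)) e
 (c (a (nat_lit 0x17a220000006)) e e)))))))))))))))))))))
 (c (a (nat_lit 0x20202021))
 (c (a (nat_lit 0x2020202021))
 (c (a (nat_lit 0xa09ea43c03425))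
 (c z e
 (c (a (nat_lit 0xbccaf7030edf028)) e
 (c z e
 (c z e
 (c z e
 (c (a (nat_lit 0x1166e360a326c148)) e e))))))
 (c z e
 (c z e
 (c z e
 (c z e
 (c z e
 (c (a (nat_lit 0x179f9a642143a6)) e
 (c (a (nat_lit 0x108ec706060c07)) e
 (c z e
 (c z e
 (c z e
 (c (a (nat_lit 0x244ab0cd0287)) e
 (c (a (nat_lit 0x1171f6ec200007)) e
 (c (a (nat_lit 0x102aa000000007)) e e))))))))))))))
 (c (a (nat_lit 0x2020203e67))
 (c z e
 (c z e
 (c z e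
 (c z e
 (c z e
 (c (b (nat_lit 0x112da1855fffe7)) e
 (c z e
 (c z e
 (c z e
 (c z e
 (c z e
 (c (a (nat_lit 0xa108800000008)) e e))))))))))))
 (c (a (nat_lit 0x2020312ce8)) e
 (c (a (nat_lit 0x2039ca6508)) e
 (c z e
 (c (a (nat_lit 0x1ada09210027))
 (c z e
 (c (b (nat_lit 0x2027fe300b528)) e e))
 (c (a (nat_lit 0x1288a2002026))
 (c (b (nat_lit 0x23fe5606cd028)) e
 (c (b (nat_lit 0x1fe3a23d564b88)) e e))
 (c (a (nat_lit 0xd2060203665)) e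
 (c (a (nat_lit 0x2000369565))
 (c (a (nat_lit 0x13c69740200007)) e
 (c (a (nat_lit 0x1ad7a000000007)) e e))
 (c (a (nat_lit 0x60615955747))
 (c (a (nat_lit 0x10e00000000005)) e e)
 (c z e
 (c (a (nat_lit 0x13731def4b86)) e
 (c (a (nat_lit 0xbf0002033e6)) e
 (c (a (nat_lit 0x11a58bf59d46)) e
 (c z e
 (c z e
 (c z e
 (c (a (nat_lit 0x171811202026)) e
 (c (a (nat_lit 0x185120200006)) e e)))))))))))))))))))
 C241)))) Tr.c Tr.e (nat_lit 0) C.cx C.cy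
noncomputable def C243 : Tr := beta% (fun (c : Nat → Tr → Tr → Tr) (e : Tr) (z : Nat) (a b : Nat → Nat) =>
 (c (a (nat_lit 0x20202001))
 (c (b (nat_lit 0x20203ff3ab44))
 (c z e
 (c z e
 (c z e
 (c z e
 (c z e
 (c (a (nat_lit 0x54844ca275edbe5)) e
 (c (a (nat_lit 0x40028c909d61264)) e
 (c z e
 (c z e
 (c z e
 (c z e
 (c (a (nat_lit 0x141151ae926b9205)) e
 (c (a (nat_lit 0xecf27f16538ec65)) e
 (c (a (nat_lit 0xc8443de65a24005)) e e))))))))))))))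
 (c (a (nat_lit 0x16173136ae7e6)) e
 (c (a (nat_lit 0x170b991486726)) e
 (c (a (nat_lit 0xf180fe8662626))
 (c z e
 (c z e
 (c z e
 (c z e
 (c (b (nat_lit 0x13c6d73ff2e0b905)) e
 (c (a (nat_lit 0x7c744846024bf07)) e
 (c (a (nat_lit 0x380e240e072e6e8)) e e)))))))
 (c (a (nat_lit 0x11c402c0202005)) e
 (c (a (nat_lit 0xe85e585d30002))
 (c z e
 (c z e
 (c z e
 (c (a (nat_lit 0x1c0c12173420147)) e
 (c (a (nat_lit 0x16261744100a928)) e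
 (c (a (nat_lit 0x420835106f16527)) e e))))))
 (c (a (nat_lit 0x8282d4d4c5265))
 (c (a (nat_lit 0x73349e18ba59007)) e
 (c (a (nat_lit 0x12aae40e69270027)) e
 (c (a (nat_lit 0xa41eaf70c07e4a7)) e e)))
 (c (a (nat_lit 0xbabb110966925))
 (c z e
 (c (a (nat_lit 0x6863d48a5c44147)) e e))
 (c (a (nat_lit 0xb6f4ef5890245))
 (c (a (nat_lit 0x3560844c3a28407)) e
 (c (a (nat_lit 0x1a4621c481216008)) e e))
 (c z e
 (c z e
 (c z e
 (c z e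
 (c z e
 (c (a (nat_lit 0x16d49915daeec5)) e
 (c (a (nat_lit 0x2485a6aef1a5)) e
 (c (a (nat_lit 0xc4d6e76d972c5)) e e)))))))))))))))))
 (c (a (nat_lit 0x2020000001))
 (c (a (nat_lit 0x21c9b8e6aaa06))
 (c (a (nat_lit 0x106cf36f6e054586))
 (c z e
 (c (a (nat_lit 0x11b3b14d6c8d4aac89))
 (c (a (nat_lit 0xe319ff3cb2a8680000a)) e e)
 (c z e
 (c (a (nat_lit 0xb05a34226c90f91a8)) e
 (c (a (nat_lit 0x8078525ed6f7413e8)) e e)))))
 (c (a (nat_lit 0xb91ef1466a03fc7))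
 (c (a (nat_lit 0x17d651d010aaed2fa9))
 (c (a (nat_lit 0x6d08ac70702a000000b)) e e) e)
 (c z e
 (c z e
 (c z e
 (c z e
 (c z e
 (c z e
 (c z e
 (c z e
 (c (a (nat_lit 0x13b0ec6b04ccb068)) e
 (c (a (nat_lit 0x14aeafa416602007)) e e))))))))))))
 (c (a (nat_lit 0xe520bc5c58588))
 (c (a (nat_lit 0xc8d59b3c1dcdec7))
 (c (a (nat_lit 0x1f7bb6f34eb254cee8)) e e)
 (c z e
 (c z e
 (c z e
 (c z e
 (c z e
 (c z e
 (c z e
 (c z e
 (c (a (nat_lit 0x1c10b0ccacd187e8)) e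
 (c (a (nat_lit 0x14daf435c0800007)) e e)))))))))))
 (c (a (nat_lit 0x1f276602e2e026)) e
 (c (a (nat_lit 0x1af615d5e64964)) e
 (c (b (nat_lit 0xb8b70dfeaac25)) e
 (c z e
 (c z e
 (c z e
 (c z e
 (c z e
 (c (a (nat_lit 0xc92cd49c06167)) e
 (c (a (nat_lit 0x10ea6ac46362c7)) e
 (c (b (nat_lit 0x1212128c2c3fe7)) e e)))))))))))))
 (c (nat_lit 1)
 (c (a (nat_lit 0x17e18180202005))
 (c (a (nat_lit 0x5d2a9edf091ae06)) e
 (c z e
 (c z e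
 (c z e
 (c z e
 (c z e
 (c (a (nat_lit 0x88f6c9175c75327)) e
 (c z e
 (c z e
 (c (a (nat_lit 0x29a5a830e06007)) e
 (c (a (nat_lit 0x1a096b80a0000006)) e e)))))))))))
 (c (b (nat_lit 0x36320811fffe1)) e
 (c (a (nat_lit 0x145456f4545166)) e
 (c (a (nat_lit 0x143451342c6706)) e
 (c z e
 (c z e
 (c z e
 (c z e
 (c z e
 (c (a (nat_lit 0x5e854cc2082c7)) e
 (c (a (nat_lit 0x109c73ca244647)) e e)))))))))))
 (c (a (nat_lit 0x2020202021))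
 (c (a (nat_lit 0xfaf7a086735c3)) e e)
 (c (a (nat_lit 0x2020202021)) e
 (c (nat_lit 1) e
 (c (a (nat_lit 0x202021))
 (c z e
 (c (a (nat_lit 0x1bd0a5e6004705))
 (c (a (nat_lit 0x9c52a16a4e00007)) e
 (c (a (nat_lit 0x1d9c164000000007)) e e))
 (c (a (nat_lit 0x86343202a36e6))
 (c (a (nat_lit 0x14edc00000000006)) e e)
 (c z e
 (c z e
 (c z e
 (c z e
 (c z e
 (c z e
 (c (a (nat_lit 0x110d0a09000007)) e e))))))))))
 (c (a (nat_lit 0x200017c6))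
 (c (a (nat_lit 0x1320404062e023)) e
 (c (a (nat_lit 0x1014222c73366)) e
 (c z e
 (c z e
 (c z e
 (c z e
 (c z e
 (c (a (nat_lit 0x1822644d68006)) e
 (c (a (nat_lit 0xd3826e0000005)) e
 (c (a (nat_lit 0x1fc00000000004)) e e))))))))))
 (c (a (nat_lit 0x201e2d66))
 (c (a (nat_lit 0x50bdd288b04)) e
 (c z e
 (c z e
 (c z e
 (c z e
 (c z e
 (c (a (nat_lit 0xcea2976000007)) e
 (c (a (nat_lit 0x18a56000000005)) e e))))))))
 (c (a (nat_lit 0x203aad85c6))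
 (c z e
 (c z e
 (c z e
 (c z e
 (c z e
 (c (a (nat_lit 0xeaab620000008)) e e))))))
 (c (a (nat_lit 0x116d9cbe545)) e
 (c (a (nat_lit 0xf524a46c566))
 (c (a (nat_lit 0xd32c8d4a47407)) e
 (c (a (nat_lit 0x11aaf5cb48c008)) e e))
 (c (a (nat_lit 0x15c7c2c02005))
 (c (a (nat_lit 0x4f26682400007)) e e)
 (c (a (nat_lit 0x4c0202033c5)) e
 (c (a (nat_lit 0x202033b2e5)) e
 (c (a (nat_lit 0x3435190dce5)) e
 (c (a (nat_lit 0x8efcf75c8e6)) e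
 (c z e
 (c z e
 (c z e
 (c (a (nat_lit 0x134a8b4c2c04)) e
 (c (b (nat_lit 0x1fffe4a362a1)) e
 (c (a (nat_lit 0x1e1204001)) e
 (c (a (nat_lit 0x30140000001)) e e))))))))))))))))))))))))) Tr.c Tr.e (nat_lit 0) C.cx C.cy
noncomputable def C244 : Tr := beta% (fun (c : Nat → Tr → Tr → Tr) (e : Tr) (z : Nat) (a b : Nat → Nat) =>
 (c (a (nat_lit 0x40404041))
 (c (a (nat_lit 0x2020203e66))
 (c z e
 (c z e
 (c z e
 (c z e
 (c z e
 (c (a (nat_lit 0xe372d0f26e0e7)) e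
 (c z e
 (c z e
 (c z e
 (c z e
 (c z e
 (c (a (nat_lit 0x13740ea0000006)) e e))))))))))))
 (c (a (nat_lit 0x20203eda87)) e
 (c (a (nat_lit 0x203d70e6a8)) e
 (c (a (nat_lit 0x1371442188)) e
 (c (a (nat_lit 0x11d082202008)) e
 (c (a (nat_lit 0x19ce80202005))
 (c (a (nat_lit 0x22c2425aafa8)) e
 (c (a (nat_lit 0xe0c495e625e9)) e e))
 (c (a (nat_lit 0x1be020204044)) e
 (c (a (nat_lit 0x202020b305))
 (c z e
 (c (a (nat_lit 0x164c8000000009)) e e))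
 (c (a (nat_lit 0x54177c1d47))
 (c (a (nat_lit 0x17200000000004)) e e)
 (c z e
 (c z e
 (c z e
 (c (a (nat_lit 0x14643bdc2f65)) e
 (c (b (nat_lit 0x1ffa1b014064)) e
 (c z e
 (c (a (nat_lit 0x12ec8c482906)) e e))))))))))))))))
 (c (a (nat_lit 0x20202021))
 (c (a (nat_lit 0x4041e5c29c7))
 (c (a (nat_lit 0x78a538d0baa06))
 (c (a (nat_lit 0x103ebb02c3c64de5)) e e)
 (c z e
 (c z e
 (c z e
 (c z e
 (c (a (nat_lit 0x1d5f39af1e9906)) e e))))))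
 (c (a (nat_lit 0x27eb3c9e688)) e
 (c (a (nat_lit 0x112f02e02008)) e
 (c (a (nat_lit 0x122480202026))
 (c (a (nat_lit 0x14d9db73609f45)) e e)
 (c (a (nat_lit 0x17e040204004))
 (c (a (nat_lit 0x4a383112d4f88)) e e)
 (c (b (nat_lit 0x20207ff225)) e
 (c z e
 (c z e
 (c z e
 (c z e
 (c z e
 (c (b (nat_lit 0x181fe0b37323)) e
 (c (b (nat_lit 0x1fe2c1832001)) e
 (c (a (nat_lit 0x34202026001)) e
 (c (a (nat_lit 0x1b9bdb9b9bc5)) e e)))))))))))))))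
 (c (a (nat_lit 0x20202021))
 (c (b (nat_lit 0x1a067fe02027))
 (c z e
 (c (b (nat_lit 0x1ffc587dc12be4)) e e))
 (c (a (nat_lit 0x1cb820202025))
 (c (a (nat_lit 0x51be78106ab45)) e
 (c (a (nat_lit 0x2c6e6e1011408)) e e))
 (c (a (nat_lit 0x1ba0604065a4))
 (c (a (nat_lit 0x263210142f228)) e e)
 (c (b (nat_lit 0x20203ff0a5)) e
 (c z e
 (c z e
 (c z e
 (c z e
 (c z e
 (c (b (nat_lit 0x163fe1002003)) e
 (c (a (nat_lit 0x6662242c4a1)) e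
 (c (a (nat_lit 0x32080e26001)) e
 (c (a (nat_lit 0x402054e4)) e e)))))))))))))
 (c (a (nat_lit 0x40404041))
 (c (a (nat_lit 0x1ec040202a04))
 (c (a (nat_lit 0x1c23a3a625e025)) e
 (c (a (nat_lit 0x15538c49b7d966)) e
 (c z e
 (c z e
 (c z e
 (c (a (nat_lit 0xc1145c0000007)) e e))))))
 (c (a (nat_lit 0x60404ab6e5))
 (c (a (nat_lit 0x5a322674bf048)) e e)
 (c (a (nat_lit 0x5e78c553866)) e
 (c z e
 (c z e
 (c z e
 (c z e
 (c (a (nat_lit 0x1270b1096427)) e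
 (c (a (nat_lit 0x131483c02025)) e
 (c (a (nat_lit 0x1483c0202805)) e
 (c (a (nat_lit 0x720202fb704)) e e)))))))))))
 (c (a (nat_lit 0x20202021))
 (c (a (nat_lit 0x289ad315165))
 (c (a (nat_lit 0x868ca536cc987)) e e)
 (c z e
 (c z e
 (c z e
 (c z e
 (c z e
 (c (a (nat_lit 0xed2c1616146)) e
 (c (a (nat_lit 0x10e020202225)) e
 (c (a (nat_lit 0x6e6e6c272a5)) e e)))))))))
 (c (a (nat_lit 0x40404041))
 (c z e
 (c z e
 (c z e
 (c (a (nat_lit 0x1533136b6aa7)) e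
 (c (a (nat_lit 0x121114948707)) e
 (c (a (nat_lit 0x122d16564947)) e
 (c (a (nat_lit 0x16b030411cc4)) e
 (c z e
 (c z e
 (c z e
 (c (a (nat_lit 0x19e7e0000004)) e e)))))))))))
 (c (a (nat_lit 0x202021))
 (c z e
 (c (a (nat_lit 0x108e6ea32027)) e
 (c (a (nat_lit 0x1cf66bebce46)) e
 (c z e
 (c z e
 (c z e
 (c z e
 (c z e
 (c (a (nat_lit 0x1da200001)) e
 (c (nat_lit 1) e e))))))))))
 (c (nat_lit 1)
 (c (a (nat_lit 0x1771a3030025)) e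
 (c (a (nat_lit 0x1cf7173366c6)) e
 (c z e
 (c z e
 (c z e
 (c z e
 (c (a (nat_lit 0x12a983802006)) e
 (c (a (nat_lit 0x420000001)) e e))))))))
 (c (a (nat_lit 0x40202021))
 (c (a (nat_lit 0x8363c795c4)) e
 (c z e
 (c z e
 (c z e
 (c (a (nat_lit 0x10cf6ba034c6)) e
 (c (a (nat_lit 0x18e140600001)) e
 (c (a (nat_lit 0x2000000001)) e e)))))))
 (c (a (nat_lit 0x20202021))
 (c z e
 (c z e
 (c (a (nat_lit 0x1f1ee0415e04)) e
 (c (a (nat_lit 0x420a0c06001)) e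
 (c (a (nat_lit 0x60000001)) e e)))))
 (c (a (nat_lit 0x40404041))
 (c (a (nat_lit 0x86840203025)) e
 (c (a (nat_lit 0x260e0406041)) e
 (c (a (nat_lit 0x40400001)) e
 (c (a (nat_lit 0x2000000001)) e e))))
 (c (a (nat_lit 0x20404041))
 (c (a (nat_lit 0xa040402001)) e
 (c (a (nat_lit 0x6040000001)) e e))
 (c (a (nat_lit 0x20202021))
 (c (a (nat_lit 0x2000000001)) e e)
 (c (a (nat_lit 0x20203be5)) e
 (c (a (nat_lit 0x203beae5)) e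
 (c (a (nat_lit 0x8562db0e6)) e
 (c z e
 (c (a (nat_lit 0xd33c32325)) e
 (c (a (nat_lit 0x10a0200005)) e
 (c (a (nat_lit 0xa0406001)) e
 (c (a (nat_lit 0x202032c5)) e
 (c (a (nat_lit 0x86871d646)) e e))))))))))))))))))))))) Tr.c Tr.e (nat_lit 0) C.cx C.cy
noncomputable def C245 : Tr := beta% (fun (c : Nat → Tr → Tr → Tr) (e : Tr) (z : Nat) (a b : Nat → Nat) =>
 (c (a (nat_lit 0x20202021))
 (c (nat_lit 1)
 (c (a (nat_lit 0x173d2c9a6a6a6))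
 (c (a (nat_lit 0x649ac8ecea39385)) e
 (c (a (nat_lit 0x1a5b50bc0a8a9e7))
 (c (a (nat_lit 0x11d5d54c62240b20c8))
 (c (a (nat_lit 0x54e31e6c4014000000a)) e e) e)
 (c z e
 (c z e
 (c z e
 (c z e
 (c z e
 (c (a (nat_lit 0xed26e168fb08f67)) e
 (c z e
 (c z e
 (c (a (nat_lit 0x10d12c9250f45367)) e
 (c (a (nat_lit 0xa6a870413818007)) e e))))))))))))
 (c (a (nat_lit 0x1afb0dc4040407))
 (c (b (nat_lit 0x31d7fe6e5ea38a7))
 (c (a (nat_lit 0x16d5cc8401a7602f08)) e e)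
 (c z e
 (c z e
 (c z e
 (c z e
 (c z e
 (c z e
 (c z e
 (c z e
 (c (a (nat_lit 0xf4bfaaae4d18568)) e
 (c (a (nat_lit 0xa706183c0200008)) e e)))))))))))
 (c (a (nat_lit 0x1ba30020202106)) e
 (c (b (nat_lit 0x120a8a6a9fe045)) e
 (c (b (nat_lit 0xd6d581fed2005)) e
 (c z e
 (c z e
 (c z e
 (c z e
 (c z e
 (c (a (nat_lit 0x8edb0d1806807)) e
 (c (a (nat_lit 0x1071f327ad0867)) e e))))))))))))
 (c (a (nat_lit 0x40000001))
 (c (a (nat_lit 0x19016020202066))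
 (c (a (nat_lit 0xba04020e4ac53a7))
 (c (a (nat_lit 0x158f898206a4984707)) e
 (c z e
 (c (a (nat_lit 0x168bac22b0c94feca8)) e e)))
 (c z e
 (c z e
 (c z e
 (c z e
 (c z e
 (c (a (nat_lit 0x90442eff56bc2a8)) e
 (c z e
 (c z e
 (c (a (nat_lit 0xb1ac451d5406007)) e
 (c (a (nat_lit 0x19a2126040000007)) e e)))))))))))
 (c (b (nat_lit 0x15e2c2029fe003))
 (c z e
 (c z e
 (c z e
 (c z e
 (c (b (nat_lit 0x623c17fec52a1e9)) e e)))))
 (c (a (nat_lit 0x141416d376cb27)) e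
 (c z e
 (c z e
 (c z e
 (c z e
 (c z e
 (c z e
 (c (a (nat_lit 0x10fad1ac63c5a8)) e
 (c (a (nat_lit 0x12adcc48e727e9)) e e)))))))))))
 (c (a (nat_lit 0x2020202021))
 (c (b (nat_lit 0x18785dbff04085)) e e)
 (c (a (nat_lit 0x2020404021)) e
 (c (a (nat_lit 0x2020202021)) e
 (c (a (nat_lit 0x4040404041)) e
 (c (a (nat_lit 0x2020203527)) e
 (c (a (nat_lit 0x203baf47)) e
 (c (a (nat_lit 0x1b4e2547)) e
 (c z e
 (c (a (nat_lit 0x151168646447))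
 (c (a (nat_lit 0xb288d724d3288)) e
 (c (a (nat_lit 0xc4bf23488c009)) e e))
 (c (a (nat_lit 0x164640202026))
 (c (a (nat_lit 0x237dca4a00007)) e e)
 (c (a (nat_lit 0xb8040203705)) e
 (c (b (nat_lit 0x203ffe05)) e
 (c (a (nat_lit 0xd8d88975986)) e
 (c z e
 (c z e
 (c z e
 (c z e
 (c z e
 (c (a (nat_lit 0xf9354202026)) e
 (c (a (nat_lit 0x131400202006)) e
 (c (a (nat_lit 0x140020000006)) e e)))))))))))))))))))))))
 (c (a (nat_lit 0x20202021))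
 (c (a (nat_lit 0x2020000001))
 (c (a (nat_lit 0x142c2c2c1d584))
 (c (a (nat_lit 0x2546096b7ccd65)) e
 (c z e
 (c z e
 (c z e
 (c z e
 (c (a (nat_lit 0x16828492846ed1e6)) e
 (c (a (nat_lit 0x5e350c70aaf0786)) e
 (c (b (nat_lit 0x234679fef1586c6)) e
 (c z e
 (c (b (nat_lit 0x7ffe6e00200006)) e
 (c (a (nat_lit 0xda220000000006)) e e)))))))))))
 (c (a (nat_lit 0x1a5a5a59bca306))
 (c z e
 (c z e
 (c z e
 (c z e
 (c (a (nat_lit 0xc0d8b5218d06de8)) e e)))))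
 (c (a (nat_lit 0x1257921dad6866))
 (c z e
 (c z e
 (c z e
 (c (a (nat_lit 0x9e7467890cd2408)) e e))))
 (c z e
 (c z e
 (c z e
 (c z e
 (c z e
 (c z e
 (c (a (nat_lit 0xeaaf34344c8e7)) e
 (c (a (nat_lit 0x121a70aed2f487)) e
 (c z e
 (c z e
 (c z e
 (c z e
 (c (a (nat_lit 0x1d818040000006)) e e))))))))))))))))
 (c (a (nat_lit 0x4040404041)) e
 (c (a (nat_lit 0x6060606061)) e
 (c (a (nat_lit 0x2020202021)) e
 (c (a (nat_lit 0x2020203ec7)) e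
 (c (a (nat_lit 0x12cf27))
 (c (a (nat_lit 0x990e040228b06)) e
 (c z e
 (c z e
 (c z e
 (c z e
 (c (b (nat_lit 0xa04446c1ff068)) e e))))))
 (c (a (nat_lit 0x3b99c7c7)) e
 (c (a (nat_lit 0x1a90282267)) e
 (c (a (nat_lit 0x1cbaac612126)) e
 (c (a (nat_lit 0x11e580202026))
 (c (a (nat_lit 0x36c3b1cbe84e7)) e
 (c (a (nat_lit 0x6f051a8000009)) e e))
 (c (a (nat_lit 0xb8020203505))
 (c (a (nat_lit 0x110a4360000008)) e e)
 (c (a (nat_lit 0x20202a9ae6)) e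
 (c (b (nat_lit 0x203ff2ef07)) e
 (c z e
 (c z e
 (c z e
 (c z e
 (c z e
 (c z e
 (c (a (nat_lit 0x188dfee02006)) e
 (c (a (nat_lit 0xe1f00200006)) e e)))))))))))))))))))))
 (c (a (nat_lit 0x20202021))
 (c (a (nat_lit 0x2020202021))
 (c z e
 (c z e
 (c z e
 (c z e
 (c z e
 (c z e
 (c (b (nat_lit 0x171ff2f68060c6)) e
 (c z e
 (c (a (nat_lit 0x129a016344cae5)) e
 (c z e
 (c z e
 (c z e
 (c (a (nat_lit 0x78bab50876007)) e
 (c (a (nat_lit 0x1ad9f240000006)) e e))))))))))))))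
 (c (a (nat_lit 0x2040404021))
 (c z e
 (c z e
 (c z e
 (c z e
 (c z e
 (c z e
 (c (a (nat_lit 0x148d2686802d27)) e
 (c z e
 (c z e
 (c z e
 (c z e
 (c (a (nat_lit 0x15d3feee600007)) e e))))))))))))
 (c (a (nat_lit 0x2020001ec7)) e
 (c (a (nat_lit 0x2020310928)) e
 (c (a (nat_lit 0x203c5a89c7)) e
 (c z e
 (c (a (nat_lit 0x141b6c602006)) e
 (c (a (nat_lit 0x10c600202026)) e
 (c (a (nat_lit 0x19e060202604))
 (c (a (nat_lit 0x22587f1402008)) e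
 (c (a (nat_lit 0x16136a20000009)) e e))
 (c (a (nat_lit 0x20433585))
 (c (a (nat_lit 0x16a46000000007)) e e)
 (c z e
 (c z e
 (c z e
 (c z e
 (c z e
 (c z e
 (c z e
 (c z e
 (c (a (nat_lit 0x3d87b804005)) e e)))))))))))))))))))
 C244)))) Tr.c Tr.e (nat_lit 0) C.cx C.cy
noncomputable def C246 : Tr := beta% (fun (c : Nat → Tr → Tr → Tr) (e : Tr) (z : Nat) (a b : Nat → Nat) =>
 (c (a (nat_lit 0x2020202021))
 (c (a (nat_lit 0x2020203485))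
 (c (a (nat_lit 0x505052ae399af44))
 (c z e
 (c z e
 (c z e
 (c z e
 (c z e
 (c z e
 (c (a (nat_lit 0xe50adab4a85680a28)) e
 (c z e
 (c (a (nat_lit 0x684235ba2e5e506c7)) e e)))))))))
 (c z e
 (c z e
 (c z e
 (c z e
 (c z e
 (c (a (nat_lit 0x17922de5e5e09585))
 (c z e
 (c (a (nat_lit 0x170228c5d0e0c00008)) e e))
 (c (a (nat_lit 0x283e2a1c1433f06)) e
 (c (a (nat_lit 0x1e0c0e101719626)) e
 (c (a (nat_lit 0x104eb1cabf102c45)) e
 (c (a (nat_lit 0x9abcbace3c85246)) e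
 (c z e
 (c z e
 (c z e
 (c (a (nat_lit 0xe0c461a1504008)) e
 (c (a (nat_lit 0xed8e66120000005)) e
 (c (a (nat_lit 0x1ce5200000000005)) e e)))))))))))))))))
 (c (a (nat_lit 0x20200ff087)) e
 (c (a (nat_lit 0x3738b147)) e
 (c (a (nat_lit 0x202155bd3c5a7))
 (c z e
 (c z e
 (c z e
 (c z e
 (c z e
 (c (a (nat_lit 0x11aa1c9b0f474fa6)) e e))))))
 (c (a (nat_lit 0x2173c6fa4e4e7)) e
 (c (a (nat_lit 0x1277ab00202027)) e
 (c (a (nat_lit 0x132e80202023c6))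
 (c z e
 (c (a (nat_lit 0xaec0747bc75d607)) e e))
 (c (a (nat_lit 0x1c4020202d8ea5))
 (c (a (nat_lit 0xd28e46304ec3107)) e
 (c (a (nat_lit 0x80864078ff69148)) e e))
 (c (a (nat_lit 0x20226847d586))
 (c (a (nat_lit 0x7a4068a11602288)) e e)
 (c z e
 (c z e
 (c z e
 (c z e
 (c z e
 (c (a (nat_lit 0x1d9556137171c7)) e
 (c (a (nat_lit 0xf5247e809a785)) e
 (c (a (nat_lit 0xb610122c095a5)) e e)))))))))))))))))
 (c (a (nat_lit 0x2020202021))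
 (c (a (nat_lit 0x20203a18eda6))
 (c z e
 (c z e
 (c z e
 (c z e
 (c z e
 (c z e
 (c z e
 (c (a (nat_lit 0xa6e3f1ab090046)) e e))))))))
 (c (a (nat_lit 0x2038bcf20667))
 (c z e
 (c z e
 (c z e
 (c z e
 (c z e
 (c z e
 (c (a (nat_lit 0x252ed649040367)) e e)))))))
 (c (a (nat_lit 0x2183dd248e8e7)) e
 (c (a (nat_lit 0x15f90960202007)) e
 (c (a (nat_lit 0x1a69c0202020e6)) e
 (c (b (nat_lit 0x12a020203fffe5)) e
 (c (a (nat_lit 0xc4c2f7b1713a5)) e e)))))))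
 (c (a (nat_lit 0x2020202021))
 (c (a (nat_lit 0x21b1f95294946)) e
 (c (a (nat_lit 0xcf48a60202027)) e
 (c (a (nat_lit 0x17c8a020202026)) e
 (c (a (nat_lit 0xe2020204054a5)) e
 (c (b (nat_lit 0xfefeffffa4246)) e
 (c (a (nat_lit 0x7892df80c30e6))
 (c (a (nat_lit 0x16976b6cd2340fa6)) e e) e))))))
 (c (nat_lit 1)
 (c (a (nat_lit 0x12ca26262621a6))
 (c (a (nat_lit 0x60344802163d066)) e
 (c (a (nat_lit 0x8a621e6a358d8e7))
 (c (a (nat_lit 0x1617968d6d50f85368)) e e)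
 (c z e
 (c z e
 (c z e
 (c z e
 (c (a (nat_lit 0x4337cc8e519b06)) e e)))))))
 (c (b (nat_lit 0x1fceeecedfe8e5))
 (c z e
 (c z e
 (c z e
 (c z e
 (c z e
 (c (a (nat_lit 0x4983760d6d0028)) e e))))))
 (c (a (nat_lit 0x10907089ed6006)) e e)))
 (c (a (nat_lit 0x2020202021))
 (c (a (nat_lit 0x1c3c3c2934e024)) e
 (c z e
 (c z e
 (c z e
 (c z e
 (c (a (nat_lit 0x2032b32acfe5)) e
 (c z e
 (c z e
 (c z e
 (c z e
 (c z e
 (c z e
 (c z e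
 (c (a (nat_lit 0x12a74b01000005)) e e))))))))))))))
 (c (a (nat_lit 0x2020202021))
 (c z e
 (c z e
 (c z e
 (c z e
 (c (a (nat_lit 0x1f05917458fbc4)) e
 (c z e
 (c (a (nat_lit 0xb4cd14fafb4c7)) e
 (c z e
 (c z e
 (c z e
 (c z e
 (c (a (nat_lit 0x19d8ced28dc006)) e
 (c (a (nat_lit 0x15e04020000005)) e e)))))))))))))
 (c (a (nat_lit 0x2020202021))
 (c z e
 (c (a (nat_lit 0x13654060420026))
 (c (a (nat_lit 0x16db6d2a0d50c748)) e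
 (c (a (nat_lit 0x14ca852866200009)) e e))
 (c (a (nat_lit 0x184320a787e0e4))
 (c (a (nat_lit 0x10a3f47960000006)) e e)
 (c (b (nat_lit 0x920f2ffffffe3)) e
 (c z e
 (c z e
 (c z e
 (c z e
 (c z e
 (c (a (nat_lit 0x1297b2f5d2f2c6)) e
 (c (a (nat_lit 0x13a0a040400004)) e
 (c (a (nat_lit 0x2204000000001)) e e))))))))))))
 (c (a (nat_lit 0x2020202021))
 (c (a (nat_lit 0x100aaaa4006085))
 (c z e
 (c (a (nat_lit 0x102b458700000007)) e e))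
 (c (a (nat_lit 0x1090c381618825))
 (c (a (nat_lit 0xcabb36000000006)) e e)
 (c (a (nat_lit 0x1b8e6acb689165)) e
 (c z e
 (c z e
 (c z e
 (c z e
 (c (b (nat_lit 0xa90cf1fe06007)) e
 (c (a (nat_lit 0x15ca8304224006)) e
 (c (a (nat_lit 0x142503c0000005)) e e))))))))))
 (c (a (nat_lit 0x4040404041))
 (c (a (nat_lit 0x10e3e3e4867cc4))
 (c (a (nat_lit 0x148e200000000006)) e e)
 (c z e
 (c z e
 (c z e
 (c z e
 (c z e
 (c (a (nat_lit 0xc125101c05b27)) e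
 (c (a (nat_lit 0x1330cb05c00006)) e
 (c (a (nat_lit 0x10a56000000006)) e e)))))))))
 (c (a (nat_lit 0x15a4))
 (c (a (nat_lit 0x1e1ffcbf3b5404)) e
 (c z e
 (c z e
 (c z e
 (c z e
 (c (a (nat_lit 0x3e8a925d16008)) e
 (c (a (nat_lit 0x17744760000005)) e e)))))))
 (c (a (nat_lit 0x2020375c04)) e
 (c (a (nat_lit 0x3c3cfd4cc65))
 (c z e
 (c (a (nat_lit 0x991d695b5f0a8)) e e))
 (c (a (nat_lit 0x1096f952ab86))
 (c (a (nat_lit 0x82e6ed1ebe4a8)) e e)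
 (c (a (nat_lit 0x14fa5264a4a5)) e
 (c (a (nat_lit 0x189204848465)) e
 (c (a (nat_lit 0x18e020202044)) e
 (c (a (nat_lit 0x2020205ae4)) e
 (c (a (nat_lit 0x40204db2e5)) e
 (c (a (nat_lit 0x5052bce73e6)) e
 (c z e
 (c z e
 (c z e
 (c (a (nat_lit 0x1b0d4d608085)) e
 (c (a (nat_lit 0x19ba00202004)) e
 (c (a (nat_lit 0x1a0020000004)) e e)))))))))))))))))))))))))) Tr.c Tr.e (nat_lit 0) C.cx C.cy
noncomputable def C247 : Tr := beta% (fun (c : Nat → Tr → Tr → Tr) (e : Tr) (z : Nat) (a b : Nat → Nat) =>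
 (c (a (nat_lit 0x20202021))
 (c (a (nat_lit 0x2020202021))
 (c z
 (c (a (nat_lit 0x28611a8888888a3)) e
 (c (a (nat_lit 0x598222222e72063))
 (c z e
 (c z e
 (c z e
 (c z e
 (c z e
 (c z e
 (c z e
 (c (a (nat_lit 0x6ca46e0c180d559e6)) e
 (c (a (nat_lit 0x2c363608166f1d5c7)) e e)))))))))
 (c (a (nat_lit 0x1746e6e6ef440f63))
 (c z e
 (c z e
 (c z e
 (c z e
 (c z e
 (c z e
 (c z e
 (c (a (nat_lit 0x6c382614209b06307)) e e))))))))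
 (c z e
 (c z e
 (c z e
 (c z e
 (c (a (nat_lit 0x9576ee0a0674723)) e
 (c z e
 (c z e
 (c z e
 (c z e
 (c z e
 (c (a (nat_lit 0xd50718d0a280024)) e
 (c (a (nat_lit 0x38df11431712d43)) e
 (c (a (nat_lit 0x80ea36b60fa9a2)) e e))))))))))))))))
 (c z
 (c (a (nat_lit 0xcc14141444097c5))
 (c z e
 (c z e
 (c z e
 (c z e
 (c z e
 (c z e
 (c z e
 (c (a (nat_lit 0x180dc8c4e41b1e5d26)) e
 (c (a (nat_lit 0x56781a26ef0a824a7)) e e)))))))))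
 (c (a (nat_lit 0x464646cc1b9cd25))
 (c z e
 (c z e
 (c z e
 (c z e
 (c z e
 (c (a (nat_lit 0x15ed3150b0e0d0b388)) e e))))))
 (c z e
 (c z e
 (c z e
 (c z e
 (c (a (nat_lit 0x1f328484e6868185))
 (c z e
 (c (a (nat_lit 0x1858a0c3c809c2e008)) e e))
 (c (a (nat_lit 0x14024523818122e5)) e
 (c (a (nat_lit 0x446c383a360de04)) e
 (c z e
 (c z e
 (c (a (nat_lit 0xd2dce110480f1e6)) e
 (c (a (nat_lit 0xbabcdcbcae633e7)) e
 (c z e
 (c (a (nat_lit 0x181e3434282b1a8)) e e)))))))))))))))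
 (c (a (nat_lit 0x1a1a1a1a1b824))
 (c z e
 (c z e
 (c z e
 (c z e
 (c z e
 (c z e
 (c z e
 (c z e
 (c (a (nat_lit 0x7abc9e9af7000c6)) e
 (c (a (nat_lit 0xe0b8c28ec0b31a6)) e
 (c (a (nat_lit 0xd0c75ce03eb9126)) e
 (c z e
 (c (a (nat_lit 0xb8fcb04a08ed2e6)) e e)))))))))))))
 (c (a (nat_lit 0x2020295785))
 (c z e
 (c z e
 (c z e
 (c z e
 (c z e
 (c z e
 (c z e
 (c (a (nat_lit 0xa4869ebfa832786)) e
 (c z e
 (c z e
 (c (a (nat_lit 0x5ae2905a4321687)) e e)))))))))))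
 (c (a (nat_lit 0x161616ad1ad26))
 (c z e
 (c z e
 (c z e
 (c z e
 (c z e
 (c (a (nat_lit 0x7e962d7e6a22aa5)) e
 (c z e
 (c z e
 (c (b (nat_lit 0x11c11ff74eeaa546)) e e)))))))))
 (c (a (nat_lit 0x1e1ed94ace366))
 (c z e
 (c z e
 (c z e
 (c z e
 (c z e
 (c (a (nat_lit 0x90667a93094a146)) e
 (c z e
 (c z e
 (c (a (nat_lit 0x26c506dce2c8928)) e e)))))))))
 (c (a (nat_lit 0x34cf42ca4c4c6))
 (c z e
 (c z e
 (c (a (nat_lit 0x26724a8566aee7)) e e)))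
 (c (a (nat_lit 0x1b18fa46262625))
 (c z e
 (c (a (nat_lit 0x40b8ce60a263da6)) e
 (c (a (nat_lit 0x3e5666b6613ee07)) e e)))
 (c (a (nat_lit 0x15374020202204))
 (c (a (nat_lit 0x1133472143642f25)) e
 (c (a (nat_lit 0xccccc66895454a6)) e
 (c (a (nat_lit 0x44baa291ece4aa6)) e e)))
 (c (a (nat_lit 0x1f00202023f063))
 (c (a (nat_lit 0x7aa4426c9930d46)) e e)
 (c (a (nat_lit 0x202629caf684))
 (c (a (nat_lit 0x86710f2e221e0a6)) e e)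
 (c z e
 (c z e
 (c z e
 (c z e
 (c (a (nat_lit 0xc300b6b690766)) e
 (c (a (nat_lit 0x1e2b6b622202c4)) e
 (c (a (nat_lit 0x1675e2c2850ae3)) e
 (c (a (nat_lit 0x1bc888ab511ea3)) e
 (c (a (nat_lit 0x5254689703944)) e e))))))))))))))))))))
 C246)
 (c (a (nat_lit 0x20202021))
 (c (a (nat_lit 0x2020202021))
 (c (a (nat_lit 0x2020203bd3a5))
 (c z
 (c z e
 (c z e
 (c z e
 (c z e
 (c z e
 (c z e
 (c (a (nat_lit 0x16cd87c9e969880d27)) e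
 (c z e
 (c (a (nat_lit 0x5645ac6690787e687)) e
 (c (a (nat_lit 0x1b2648524e321a008)) e e))))))))))
 (c z e
 (c z e
 (c z e
 (c z e
 (c (a (nat_lit 0x20632022867ac6)) e
 (c (a (nat_lit 0xf23822680525de5)) e
 (c (a (nat_lit 0x2404262c4b12dc6)) e
 (c (a (nat_lit 0x20445478ff38926)) e
 (c (a (nat_lit 0x8290af7d8a840a5)) e
 (c z e
 (c z e
 (c z e
 (c z e
 (c (a (nat_lit 0x161c1e271000008)) e e)))))))))))))))
 (c (a (nat_lit 0x203c362c47)) e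
 (c (a (nat_lit 0x199d138587)) e
 (c (a (nat_lit 0x217dff5c90787)) e
 (c (a (nat_lit 0x125809c261a1a7)) e
 (c (a (nat_lit 0x17e88160202246)) e
 (c (a (nat_lit 0x1f8040205cef04))
 (c z e
 (c (a (nat_lit 0xd0d8c302c6bac48)) e
 (c (a (nat_lit 0x143657b49e775ae8)) e e)))
 (c (a (nat_lit 0x2021f1ee9645))
 (c (a (nat_lit 0x66844c75eabdb26)) e
 (c (a (nat_lit 0x8e526dceaae63c8)) e e))
 (c (a (nat_lit 0x66a1995de9605))
 (c (a (nat_lit 0x4e5b46a86826168)) e e)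
 (c z e
 (c z e
 (c z e
 (c z e
 (c z e
 (c (a (nat_lit 0x17d954749569c6)) e
 (c (a (nat_lit 0x7802021c11265)) e
 (c (a (nat_lit 0x58586660ed166)) e e)))))))))))))))))
 (c (a (nat_lit 0x4040404041))
 (c (a (nat_lit 0x2021ad9ce0807)) e
 (c (a (nat_lit 0x10ff00a648489)) e
 (c (a (nat_lit 0x12546940802028)) e
 (c (a (nat_lit 0x1825c020202007)) e
 (c (b (nat_lit 0x136040207fffe5)) e
 (c (a (nat_lit 0xc0c0eb12dea07)) e e))))))
 (c (a (nat_lit 0x2020202021))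
 (c (a (nat_lit 0x11f96e80202027)) e
 (c (a (nat_lit 0x17a46100202027))
 (c z e
 (c z e
 (c z e
 (c z e
 (c (a (nat_lit 0xc683e3022672a9)) e e)))))
 (c (a (nat_lit 0xfe0404046b4c5)) e
 (c (a (nat_lit 0x10505052f56707)) e e))))
 (c (a (nat_lit 0x2020202021))
 (c (b (nat_lit 0x1e4100207fffe3)) e
 (c (a (nat_lit 0xe0df885484586)) e e))
 (c (nat_lit 1) e
 (c (a (nat_lit 0x2020202021)) e
 (c (a (nat_lit 0x2020202021))
 (c z e
 (c (a (nat_lit 0x1bfb3d89a7e726))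
 (c (a (nat_lit 0x1f93b14d36868008)) e
 (c (a (nat_lit 0x144e6cad80000009)) e e))
 (c (a (nat_lit 0x1f8d20a0807f05)) e
 (c z e
 (c z e
 (c z e
 (c z e
 (c z e
 (c z e
 (c (a (nat_lit 0xae6ea34a4e008)) e
 (c (a (nat_lit 0x11d50fc0000008)) e e)))))))))))
 (c (a (nat_lit 0x2020200001))
 (c (a (nat_lit 0x9f3232021c505))
 (c (a (nat_lit 0xab74990c4a00006)) e
 (c (a (nat_lit 0x1309a90000000007)) e e))
 (c (a (nat_lit 0xe804020c0fdc6))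
 (c (a (nat_lit 0x1397000000000006)) e e)
 (c z e
 (c z e
 (c z e
 (c z e
 (c z e
 (c (a (nat_lit 0x199d9546c359e7)) e
 (c (a (nat_lit 0x114c25c2c00007)) e
 (c (a (nat_lit 0x15846000000006)) e e))))))))))
 (c (a (nat_lit 0x200036e7))
 (c (a (nat_lit 0x5c5c7e6913966))
 (c (a (nat_lit 0x1200000000000006)) e e)
 (c z e
 (c z e
 (c z e
 (c z e
 (c z e
 (c (a (nat_lit 0x8ad842210e008)) e
 (c (a (nat_lit 0x156b66a0000007)) e
 (c (a (nat_lit 0x14200000000005)) e e)))))))))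
 (c (a (nat_lit 0x2036c687))
 (c z e
 (c z e
 (c z e
 (c z e
 (c z e
 (c (a (nat_lit 0xe0b2d7b000009)) e
 (c (a (nat_lit 0x12c70000000006)) e e)))))))
 (c (a (nat_lit 0x366de566)) e
 (c z e
 (c (a (nat_lit 0x18d60e688887)) e
 (c (a (nat_lit 0x10e840202006)) e
 (c (a (nat_lit 0x100020203a05)) e
 (c (a (nat_lit 0x2034db25)) e
 (c (a (nat_lit 0x298d9686)) e
 (c z e
 (c z e
 (c z e
 (c z e
 (c z e
 (c (a (nat_lit 0x1376e4846465)) e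
 (c (a (nat_lit 0x12a040200005)) e
 (c (a (nat_lit 0x12000000001)) e e)))))))))))))))))))))))))
 C245))) Tr.c Tr.e (nat_lit 0) C.cx C.cy
noncomputable def C248 : Tr := beta% (fun (c : Nat → Tr → Tr → Tr) (e : Tr) (z : Nat) (a b : Nat → Nat) =>
 (c (a (nat_lit 0x20202021))
 (c (a (nat_lit 0x20203bfd46))
 (c (a (nat_lit 0x40a0f8ddbae3))
 (c (a (nat_lit 0xccbe6d66f252045)) e
 (c (a (nat_lit 0xd4a530aa7028027)) e e))
 (c z e
 (c z e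
 (c z e
 (c (a (nat_lit 0x128d0caf3da5c6)) e
 (c (a (nat_lit 0x1619d95b66f9a6)) e
 (c (a (nat_lit 0x443449512b547)) e
 (c (a (nat_lit 0x6254f13ac7607)) e e))))))))
 (c (a (nat_lit 0x203ad144a8)) e
 (c z e
 (c (b (nat_lit 0xff15fe02008)) e
 (c (a (nat_lit 0x136220202006))
 (c (a (nat_lit 0x6a2c4628bd149)) e
 (c z e
 (c (a (nat_lit 0x624f315694349)) e
 (c (a (nat_lit 0x102ffec4600009)) e e))))
 (c (a (nat_lit 0x1e40a0812002))
 (c (a (nat_lit 0x21340a2384e8)) e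
 (c (a (nat_lit 0x388e0460e009)) e
 (c (a (nat_lit 0x1013ca00000008)) e e)))
 (c (a (nat_lit 0xfafafcfba65))
 (c (a (nat_lit 0x14caa400200008)) e
 (c (a (nat_lit 0x1b272000000008)) e e))
 (c (a (nat_lit 0x5052a32ec86))
 (c (a (nat_lit 0x18600000000005)) e e)
 (c z e
 (c z e
 (c (a (nat_lit 0x150060406045)) e
 (c (a (nat_lit 0x6060807523)) e
 (c (a (nat_lit 0x810075d2c3)) e
 (c (a (nat_lit 0x20405266)) e
 (c (a (nat_lit 0x1616113a946)) e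
 (c z e
 (c (b (nat_lit 0x1ff244400006)) e e)))))))))))))))))
 (c (nat_lit 1)
 (c (a (nat_lit 0x1c0b274407)) e
 (c (a (nat_lit 0x152d06228288)) e
 (c (a (nat_lit 0x148680202026))
 (c (a (nat_lit 0x2c32a450553e7)) e
 (c (a (nat_lit 0x829abaa7e6c28)) e e))
 (c (a (nat_lit 0x1100202047a4))
 (c (a (nat_lit 0xc30b0bdd1e8c8)) e e)
 (c (b (nat_lit 0x205ff145)) e
 (c z e
 (c z e
 (c z e
 (c (a (nat_lit 0x1e4120802044)) e
 (c (a (nat_lit 0x224262e301)) e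
 (c (a (nat_lit 0x2a2a222e1)) e
 (c (a (nat_lit 0x20203086)) e
 (c (a (nat_lit 0x204050ada6)) e
 (c z e
 (c (b (nat_lit 0x1ff2ad202005)) e
 (c (a (nat_lit 0x1006c0000006)) e e))))))))))))))))
 (c (a (nat_lit 0x20202021))
 (c (a (nat_lit 0x1cac81210105))
 (c (a (nat_lit 0xf948601006285)) e
 (c (a (nat_lit 0x120b4b81633786)) e
 (c (a (nat_lit 0x66485c54cb1c7)) e e)))
 (c (a (nat_lit 0x1380402044a5))
 (c (a (nat_lit 0x26301e14074a8)) e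
 (c (a (nat_lit 0x5e7a58ff56828)) e e))
 (c (a (nat_lit 0x40204a75e5))
 (c (a (nat_lit 0x11b1bf95ad58c7)) e e)
 (c z e
 (c z e
 (c z e
 (c (a (nat_lit 0x1a579797b7a7)) e
 (c (a (nat_lit 0x28a5e70001)) e
 (c (a (nat_lit 0x6c362e14001)) e
 (c (a (nat_lit 0x6060403625)) e
 (c (a (nat_lit 0x22201d7e705)) e
 (c z e
 (c (a (nat_lit 0x29887c62545)) e
 (c (a (nat_lit 0x1403a1000005)) e e))))))))))))))
 (c (a (nat_lit 0x40404041))
 (c (a (nat_lit 0x20202b54a4))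
 (c (a (nat_lit 0x6c5c6c69b1dc6)) e
 (c (a (nat_lit 0x6c5d2ee6b6547)) e e))
 (c (a (nat_lit 0x266ed14c7e6))
 (c (a (nat_lit 0x113bb063725b47)) e e)
 (c z e
 (c z e
 (c (a (nat_lit 0x1570d13130e7)) e
 (c (a (nat_lit 0x14753cdcdca6)) e
 (c (a (nat_lit 0x1292d33280a5)) e
 (c (a (nat_lit 0x60402055c5)) e
 (c (a (nat_lit 0xa0807622e5)) e
 (c z e
 (c (b (nat_lit 0x1ff2e0410005)) e
 (c (a (nat_lit 0x132021402005)) e
 (c (a (nat_lit 0x175700000001)) e e)))))))))))))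
 (c (a (nat_lit 0x40404041))
 (c (a (nat_lit 0xd123853b3a6))
 (c (a (nat_lit 0x10a7020b4d0307)) e
 (c (a (nat_lit 0x10a40ee9400008)) e e))
 (c z e
 (c (a (nat_lit 0x14d111311107)) e
 (c (a (nat_lit 0x1191f1f1ea26)) e
 (c (a (nat_lit 0xf32fad9d6a7)) e
 (c (a (nat_lit 0xb4c14549087)) e
 (c (a (nat_lit 0xcacacb94dc6)) e
 (c z e
 (c (a (nat_lit 0x59ee8278825)) e
 (c (a (nat_lit 0x174080406025)) e
 (c (a (nat_lit 0x7c184200001)) e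
 (c (a (nat_lit 0x2000000001)) e e))))))))))))
 (c (a (nat_lit 0x202001))
 (c (a (nat_lit 0x1c94d514b465))
 (c (a (nat_lit 0x14308000000003)) e e)
 (c (a (nat_lit 0x167696d64cc5)) e
 (c (a (nat_lit 0x1858584fe2e6)) e
 (c z e
 (c z e
 (c z e
 (c (b (nat_lit 0x1ff764e0a005)) e
 (c (a (nat_lit 0x1764e0a04045)) e
 (c (a (nat_lit 0x13e2e0a0a003)) e
 (c (a (nat_lit 0x8c100000001)) e e))))))))))
 (c (nat_lit 1)
 (c (a (nat_lit 0x14d4f4d0c385)) e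
 (c (a (nat_lit 0x118e0e0b69a7)) e
 (c z e
 (c z e
 (c (a (nat_lit 0x3702685e146)) e
 (c (a (nat_lit 0x1086c6420006)) e
 (c (a (nat_lit 0x1e9da9c03524)) e
 (c (a (nat_lit 0x10c0c0200003)) e
 (c (a (nat_lit 0x28000000001)) e e)))))))))
 (c (a (nat_lit 0x20202021))
 (c (a (nat_lit 0x1a03c3fdece4)) e
 (c z e
 (c (a (nat_lit 0xeb550904ec7)) e
 (c (a (nat_lit 0x198726066065)) e
 (c (a (nat_lit 0x76645a03245)) e
 (c (a (nat_lit 0x260a10001)) e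
 (c (a (nat_lit 0x12060000001)) e e)))))))
 (c (a (nat_lit 0x80606061))
 (c (b (nat_lit 0x1ff885246084)) e
 (c (a (nat_lit 0x18c5a4604005)) e
 (c (a (nat_lit 0xa2840403ae4)) e
 (c (a (nat_lit 0x20a0408021)) e
 (c (a (nat_lit 0x4040400001)) e
 (c (a (nat_lit 0x2000000001)) e e))))))
 (c (a (nat_lit 0x21))
 (c (a (nat_lit 0x42381603045)) e
 (c (a (nat_lit 0xa0606001)) e
 (c (a (nat_lit 0x14100404001)) e
 (c (a (nat_lit 0x1c080000001)) e e))))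
 (c (a (nat_lit 0x40404041))
 (c (a (nat_lit 0x15e060404021)) e
 (c (a (nat_lit 0x8080200001)) e
 (c (a (nat_lit 0x6000000001)) e e)))
 (c (a (nat_lit 0x20202021))
 (c (a (nat_lit 0x4020000001)) e e)
 (c (a (nat_lit 0x40404061)) e
 (c (a (nat_lit 0x20203ce4)) e
 (c (a (nat_lit 0x2c2d136a5)) e
 (c (a (nat_lit 0x6951a6c85)) e
 (c z e
 (c (a (nat_lit 0x17908ccca6)) e
 (c (a (nat_lit 0x1e40202003)) e
 (c (a (nat_lit 0x60e1)) e
 (c (a (nat_lit 0x202031c5)) e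
 (c (a (nat_lit 0x31c2c5)) e e))))))))))))))))))))))) Tr.c Tr.e (nat_lit 0) C.cx C.cy
noncomputable def C249 : Tr := beta% (fun (c : Nat → Tr → Tr → Tr) (e : Tr) (z : Nat) (a : Nat → Nat) =>
 (c (nat_lit 1)
 (c (a (nat_lit 0x2040404041))
 (c z e
 (c z e
 (c (a (nat_lit 0xf98e0e0404005))
 (c (a (nat_lit 0x1c0d43b869efd947)) e
 (c z e
 (c z e
 (c z e
 (c (a (nat_lit 0x1ab2d40ee4600007)) e e)))))
 (c (a (nat_lit 0x1600c060404605))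
 (c z e
 (c z e
 (c (a (nat_lit 0x18b2056ab74b0008)) e
 (c (a (nat_lit 0x16b8d87460000007)) e e))))
 (c (a (nat_lit 0x6462609b0e406))
 (c z e
 (c z e
 (c (a (nat_lit 0x101e0ba000000007)) e e)))
 (c z e
 (c z e
 (c z e
 (c (a (nat_lit 0xf0e766c4aaac7)) e
 (c (a (nat_lit 0xadaf166a047a6)) e
 (c (a (nat_lit 0xc87a968af9227)) e
 (c (a (nat_lit 0x1a5a19b93eb9e7)) e
 (c (a (nat_lit 0x100a58d8b10b26)) e
 (c (a (nat_lit 0x4f39365e00006)) e e))))))))))))))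
 (c (nat_lit 1)
 (c (a (nat_lit 0x112fa66662e2c6))
 (c (a (nat_lit 0xe544da06e8ee127)) e
 (c (a (nat_lit 0xf0ae1364449c549)) e
 (c z e
 (c (a (nat_lit 0xbcb650046187a8)) e
 (c z e
 (c (a (nat_lit 0x1608232303600008)) e
 (c (a (nat_lit 0x16471a0000000005)) e e)))))))
 (c (a (nat_lit 0x1720c040204826))
 (c (a (nat_lit 0xdc65c65b0abf0c9)) e
 (c z e
 (c z e
 (c z e
 (c (a (nat_lit 0x10cce58520000008)) e e)))))
 (c (a (nat_lit 0x1211b1969ea126))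
 (c z e
 (c z e
 (c z e
 (c (a (nat_lit 0x5857a0000000007)) e e))))
 (c z e
 (c z e
 (c (a (nat_lit 0x62d18744e2bc7)) e
 (c (a (nat_lit 0xc7d39108c2b87)) e
 (c (a (nat_lit 0x1c94ad80407566)) e
 (c (a (nat_lit 0x14713265f14ae7)) e
 (c z e
 (c z e
 (c (a (nat_lit 0xcb9bb952a4007)) e
 (c (a (nat_lit 0x18dc6b00000007)) e e)))))))))))))
 (c (a (nat_lit 0x4040606061))
 (c (a (nat_lit 0xae8c8871fd143))
 (c (a (nat_lit 0x4eda4a769b3e948)) e e)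
 (c z e
 (c z e
 (c z e
 (c (a (nat_lit 0x567586e88ebc7)) e
 (c (a (nat_lit 0x4d5ee2b699247)) e
 (c (a (nat_lit 0x18d0f009b159e7)) e
 (c (a (nat_lit 0x16130f332b2147)) e
 (c z e
 (c z e
 (c (a (nat_lit 0xf304840200007)) e e)))))))))))
 (c (a (nat_lit 0x203b67))
 (c z e
 (c z e
 (c z e
 (c (a (nat_lit 0x55520414e98e7)) e
 (c z e
 (c z e
 (c z e
 (c z e
 (c (a (nat_lit 0xd8e35fcb9a007)) e
 (c (a (nat_lit 0x15008040000005)) e e))))))))))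
 (c (a (nat_lit 0x202037d5c7)) e
 (c (a (nat_lit 0x1a1b1f242e8)) e
 (c (a (nat_lit 0x3322f04a488))
 (c (a (nat_lit 0xd93354fbc5847)) e
 (c z e
 (c z e
 (c (a (nat_lit 0x3e78916f64189)) e e))))
 (c (a (nat_lit 0x1a9bc9898987))
 (c (a (nat_lit 0x3c3e6a8ffaa88)) e
 (c z e
 (c (a (nat_lit 0x3c77731a5c009)) e e)))
 (c (a (nat_lit 0x1ce725858586))
 (c (a (nat_lit 0x54b36822e82a8)) e
 (c (a (nat_lit 0xa38ef28600009)) e e))
 (c (a (nat_lit 0x1540e0208c43))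
 (c (a (nat_lit 0x17118280000008)) e e)
 (c (a (nat_lit 0x605e60772e6)) e
 (c z e
 (c z e
 (c z e
 (c (a (nat_lit 0x1ce060406005)) e
 (c (a (nat_lit 0x20202036c6)) e
 (c (a (nat_lit 0x80a0772186)) e
 (c (a (nat_lit 0x7620b826)) e
 (c (a (nat_lit 0x3f5a43bc5e6)) e e)))))))))))))))))))
 (c (a (nat_lit 0x20202021))
 (c (a (nat_lit 0x2020204041))
 (c (a (nat_lit 0x1fa0c020203623))
 (c z e
 (c (a (nat_lit 0xc6495234d6506a8)) e
 (c z e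
 (c z e
 (c z e
 (c (a (nat_lit 0x1325414440000007)) e e))))))
 (c (a (nat_lit 0x602020675586))
 (c (a (nat_lit 0x593c1c885c645c9)) e
 (c z e
 (c z e
 (c z e
 (c (a (nat_lit 0x19d0d70000000006)) e e)))))
 (c (a (nat_lit 0x505c8d5e926)) e
 (c z e
 (c z e
 (c (a (nat_lit 0x8766e100807e7)) e
 (c (a (nat_lit 0x1c6c6a608082e6)) e
 (c (a (nat_lit 0xbe6c3432cffe5)) e
 (c (a (nat_lit 0x10eec78a6fa406)) e
 (c z e
 (c z e
 (c (a (nat_lit 0x135d9bcd600006)) e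
 (c (a (nat_lit 0x1e4e8000000006)) e e)))))))))))))
 (c (a (nat_lit 0x2020203ba7))
 (c (a (nat_lit 0x7ecccf1b434a6))
 (c (a (nat_lit 0x19a4490d49e70a28)) e e)
 (c z e
 (c z e
 (c z e
 (c (a (nat_lit 0xcc59dece28065)) e
 (c (a (nat_lit 0x32ef2e9286006)) e
 (c (a (nat_lit 0x9c564a799ac47)) e
 (c (a (nat_lit 0xa46290d93c7c8)) e
 (c z e
 (c z e
 (c (a (nat_lit 0x10f24720000008)) e e)))))))))))
 (c (a (nat_lit 0x20203b74a7)) e
 (c (a (nat_lit 0x101171686e8)) e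
 (c (a (nat_lit 0x195b6c5e3e8)) e
 (c (a (nat_lit 0x10522643e2e8))
 (c (a (nat_lit 0x5462586e6d109)) e
 (c z e
 (c (a (nat_lit 0x3c566308a056a)) e e)))
 (c (a (nat_lit 0x1cacca062626))
 (c (a (nat_lit 0x5652cb6c8cc48)) e
 (c (a (nat_lit 0x1e3f24824c08a)) e
 (c (a (nat_lit 0x79971c9800009)) e e)))
 (c (a (nat_lit 0x1b40402080c3))
 (c (a (nat_lit 0x452e766e06009)) e
 (c (a (nat_lit 0x1368a48000000a)) e e))
 (c (a (nat_lit 0x7a7a7c7f9a5))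
 (c (a (nat_lit 0x13e46000000008)) e e)
 (c z e
 (c z e
 (c z e
 (c (a (nat_lit 0x194020202005)) e
 (c (a (nat_lit 0x20403644)) e
 (c (a (nat_lit 0x2025bd26)) e
 (c (a (nat_lit 0x2020b84626)) e
 (c (a (nat_lit 0x3237ae929a6)) e e)))))))))))))))))
 C248))) Tr.c Tr.e (nat_lit 0) C.cx
noncomputable def C250 : Tr := beta% (fun (c : Nat → Tr → Tr → Tr) (e : Tr) (z : Nat) (a b : Nat → Nat) =>
 (c (a (nat_lit 0x20202021))
 (c (a (nat_lit 0x4040404041))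
 (c (a (nat_lit 0x2032eee542a6))
 (c z e
 (c z e
 (c z e
 (c z e
 (c z e
 (c z e
 (c z e
 (c (a (nat_lit 0xf1436b014234705)) e e))))))))
 (c (a (nat_lit 0x1110fe7c40408)) e
 (c (a (nat_lit 0x177381c0202027)) e
 (c (a (nat_lit 0x1e84c200203066)) e
 (c (a (nat_lit 0x280202032ed86)) e
 (c (a (nat_lit 0xa2a2a3df95526)) e
 (c (a (nat_lit 0x7475c78797a06)) e e)))))))
 (c (a (nat_lit 0x20202021))
 (c (a (nat_lit 0x1a9c09c2626267))
 (c z e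
 (c z e
 (c z e
 (c z e
 (c z e
 (c z e
 (c z e
 (c z e
 (c (a (nat_lit 0x724f2b53d50eb67)) e e)))))))))
 (c (b (nat_lit 0x1bbfe0202023e7)) e
 (c (a (nat_lit 0x1002020515c45)) e
 (c (a (nat_lit 0x6868c91b72926)) e e))))
 (c (a (nat_lit 0x202001))
 (c (a (nat_lit 0xa060be6c04))
 (c (a (nat_lit 0x4648042e4b36f27)) e
 (c z e
 (c z e
 (c z e
 (c z e
 (c z e
 (c (a (nat_lit 0x606a788f4ef09c9)) e
 (c (a (nat_lit 0x3278fd673a9a8c8)) e e))))))))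
 (c (a (nat_lit 0x9292fd06aa587))
 (c z e
 (c z e
 (c z e
 (c z e
 (c z e
 (c (b (nat_lit 0x8871ebfe4c165e8)) e e))))))
 (c z e
 (c z e
 (c z e
 (c z e
 (c z e
 (c z e
 (c z e
 (c z e
 (c z e
 (c z e
 (c (a (nat_lit 0x1406cb93d2a727)) e e)))))))))))))
 (c (a (nat_lit 0x202001)) e
 (c (nat_lit 1) e
 (c (nat_lit 1) e
 (c (nat_lit 1)
 (c z e
 (c z e
 (c z e
 (c z e
 (c z e
 (c z e
 (c z e
 (c z e
 (c (a (nat_lit 0xeb201c1400006)) e e)))))))))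
 (c (a (nat_lit 0x200037a7))
 (c z e
 (c z e
 (c z e
 (c z e
 (c z e
 (c z e
 (c (a (nat_lit 0x1bfccc44bc6007)) e
 (c (a (nat_lit 0x1480a040000006)) e e))))))))
 (c (a (nat_lit 0x20176c27))
 (c (a (nat_lit 0xb4605c5033487)) e
 (c z e
 (c z e
 (c z e
 (c z e
 (c z e
 (c (a (nat_lit 0x12464000000007)) e e)))))))
 (c (a (nat_lit 0x30ac0027)) e
 (c z e
 (c (a (nat_lit 0x14d1a2002007)) e
 (c (a (nat_lit 0x1b2260202026)) e
 (c (a (nat_lit 0x20020203aa6)) e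
 (c (a (nat_lit 0x2020383ac6)) e
 (c z e
 (c z e
 (c z e
 (c (a (nat_lit 0x1b3996c724e6)) e
 (c (a (nat_lit 0x15906320ce86)) e e))))))))))))))))))))
 (c (a (nat_lit 0x20202021))
 (c (nat_lit 1)
 (c (a (nat_lit 0x1ce9ac2c0c03a5))
 (c z e
 (c z e
 (c z e
 (c z e
 (c z e
 (c (a (nat_lit 0x18806632325b2e7)) e
 (c (a (nat_lit 0xb6c892b08dd6186)) e e)))))))
 (c (b (nat_lit 0xe1514f51fefa5)) e
 (c (a (nat_lit 0x115156a9576b46))
 (c z e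
 (c z e
 (c z e
 (c (a (nat_lit 0xde323665d12b628)) e e)))) e)))
 (c (a (nat_lit 0x4040404041))
 (c (a (nat_lit 0x16d6dc1391e006)) e
 (c z e
 (c z e
 (c (a (nat_lit 0x6738620402206)) e
 (c (a (nat_lit 0xc86c424a57de7)) e
 (c z e
 (c z e
 (c z e
 (c z e
 (c (a (nat_lit 0x12498b2687e8e8)) e
 (c (a (nat_lit 0x1255d1926e89c7)) e e)))))))))))
 (c (a (nat_lit 0x4040404041))
 (c z e
 (c z e
 (c z e
 (c z e
 (c z e
 (c z e
 (c z e
 (c z e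
 (c (a (nat_lit 0x128ece47486548)) e e)))))))))
 (c (a (nat_lit 0x2020202021))
 (c (a (nat_lit 0x9434060203dc6))
 (c (a (nat_lit 0xcc74f8c727fed67)) e e)
 (c z e
 (c z e
 (c z e
 (c z e
 (c z e
 (c z e
 (c (a (nat_lit 0x16f797b5c7e7a7)) e e))))))))
 (c (nat_lit 1) e
 (c (a (nat_lit 0x1487)) e
 (c (a (nat_lit 0x2020361107))
 (c z e
 (c z e
 (c z e
 (c z e
 (c z e
 (c z e
 (c (a (nat_lit 0xc2d6b3da00007)) e e)))))))
 (c (a (nat_lit 0x2038328227)) e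
 (c (a (nat_lit 0x694f8088827)) e
 (c (a (nat_lit 0xcb120c02007))
 (c (b (nat_lit 0xc6f1a9ebffc67)) e
 (c (a (nat_lit 0x88d91cb66c009)) e e))
 (c (a (nat_lit 0x190120202006))
 (c (a (nat_lit 0x912e841e00008)) e e)
 (c (a (nat_lit 0x16040209503)) e
 (c (a (nat_lit 0x20202558a6)) e
 (c z e
 (c z e
 (c z e
 (c (a (nat_lit 0x18cc01606065)) e
 (c (a (nat_lit 0x174240606264)) e
 (c (a (nat_lit 0xc04040f2a5)) e e)))))))))))))))))))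
 C249))) Tr.c Tr.e (nat_lit 0) C.cx C.cy
noncomputable def C251 : Tr := beta% (fun (c : Nat → Tr → Tr → Tr) (e : Tr) (z : Nat) (a b : Nat → Nat) =>
 (c (a (nat_lit 0x6060606061))
 (c (a (nat_lit 0x203f5f4e6807))
 (c z e
 (c z e
 (c z e
 (c z e
 (c z e
 (c z e
 (c (a (nat_lit 0x6270d9685640267)) e
 (c z e
 (c z e
 (c z e
 (c (a (nat_lit 0xa28efd4dd236248)) e e)))))))))))
 (c (a (nat_lit 0x1311107856569)) e
 (c (a (nat_lit 0x1cfc0841002028)) e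
 (c (a (nat_lit 0x19c28020202127)) e
 (c (a (nat_lit 0x5e0202046dc86)) e
 (c (a (nat_lit 0x92929ef7c3527))
 (c (a (nat_lit 0xceef1d1444bb308)) e e) e))))))
 (c (nat_lit 1)
 (c (a (nat_lit 0x1c1ca9c5052527))
 (c (a (nat_lit 0x18b53a53e994f3e5))
 (c z e
 (c (a (nat_lit 0x102a0704a6a263e7e8)) e e))
 (c (a (nat_lit 0x1ea62c0a34277a8))
 (c (a (nat_lit 0x9cf508f074b5477a8)) e
 (c (b (nat_lit 0x118ce8dfe26cd8a008)) e e))
 (c z e
 (c z e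
 (c z e
 (c (a (nat_lit 0xa0751f3cfe84048)) e
 (c (a (nat_lit 0x489e9a8026c1368)) e
 (c (a (nat_lit 0xacc26a332eb6268)) e e))))))))
 (c (a (nat_lit 0x14ca0847474508))
 (c (a (nat_lit 0xb6720e3002f3f28))
 (c (a (nat_lit 0x19b7fa4951fbce91c7)) e e)
 (c z e
 (c z e
 (c z e
 (c z e
 (c (a (nat_lit 0x42a4a21da1245e9)) e e))))))
 (c (b (nat_lit 0x19c0a0611fe004))
 (c z e
 (c z e
 (c z e
 (c z e
 (c (a (nat_lit 0xa10837c1a6aa248)) e e)))))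
 (c (b (nat_lit 0x17d7da9ffc40c6)) e
 (c z e
 (c z e
 (c z e
 (c (a (nat_lit 0xdcb0d0bca14c7))
 (c (a (nat_lit 0x12c7c00000000008)) e e)
 (c z e
 (c z e
 (c z e
 (c z e
 (c (a (nat_lit 0x12e869236c4b07)) e e)))))))))))))
 (c (a (nat_lit 0x200001))
 (c (a (nat_lit 0x12ae0e0e08cdc6))
 (c (a (nat_lit 0xda3c240c213d3e7)) e
 (c z e
 (c z e
 (c z e
 (c z e
 (c (a (nat_lit 0x8484495b0698869)) e e))))))
 (c (a (nat_lit 0x1151516c0f4667)) e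
 (c z e
 (c z e
 (c z e
 (c z e
 (c z e
 (c z e
 (c z e
 (c z e
 (c z e
 (c z e
 (c z e
 (c (a (nat_lit 0x15581414cdc007)) e e))))))))))))))
 (c (nat_lit 1)
 (c z e
 (c z e
 (c z e
 (c z e
 (c (a (nat_lit 0x171f6465abece6)) e
 (c z e
 (c z e
 (c z e
 (c z e
 (c z e
 (c z e
 (c (a (nat_lit 0x12141ab89ff4e7)) e
 (c (a (nat_lit 0xa304e2b000007)) e
 (c (a (nat_lit 0x10a64000000006)) e e))))))))))))))
 (c (nat_lit 1)
 (c z e
 (c z e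
 (c z e
 (c (a (nat_lit 0x10c2e323238427)) e
 (c z e
 (c z e
 (c z e
 (c z e
 (c z e
 (c (a (nat_lit 0x1577da53d7d7c7)) e
 (c (a (nat_lit 0x92a161002004)) e
 (c (a (nat_lit 0x1342c140000004)) e
 (c (a (nat_lit 0xaa00000000001)) e e)))))))))))))
 (c (a (nat_lit 0x4040404041))
 (c (a (nat_lit 0x1e362808452346))
 (c (a (nat_lit 0xaefec8a47f20467)) e
 (c (a (nat_lit 0x17d5cd898ba00008)) e e))
 (c (a (nat_lit 0x15e787c4a3c4c7))
 (c (a (nat_lit 0x1a152c9340000007)) e e)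
 (c z e
 (c z e
 (c z e
 (c z e
 (c z e
 (c z e
 (c (a (nat_lit 0x36ed2642e2e6)) e
 (c (a (nat_lit 0x140a8400200006)) e
 (c (a (nat_lit 0x1b876000000005)) e e)))))))))))
 (c (a (nat_lit 0x20004021))
 (c (a (nat_lit 0x1a5cc322eb4e23))
 (c (a (nat_lit 0x1b95934000000006)) e e)
 (c z e
 (c z e
 (c z e
 (c z e
 (c z e
 (c z e
 (c (a (nat_lit 0x3b7f7ef62e005)) e
 (c (a (nat_lit 0x10b106a0000006)) e e)))))))))
 (c (nat_lit 1)
 (c z e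
 (c z e
 (c z e
 (c z e
 (c z e
 (c z e
 (c (a (nat_lit 0xf30c7600005)) e e)))))))
 (c (a (nat_lit 0x2020203067))
 (c (a (nat_lit 0xa49c061ebda07)) e
 (c z e
 (c z e
 (c z e
 (c z e
 (c (a (nat_lit 0x1ce62600000006)) e e))))))
 (c (a (nat_lit 0x202030aba7))
 (c z e
 (c (a (nat_lit 0x620b17d69089)) e e))
 (c (a (nat_lit 0x181926d4067))
 (c (a (nat_lit 0x164d0508b27a9)) e e)
 (c (a (nat_lit 0x7f51045e407)) e
 (c (a (nat_lit 0x153066a4e4e7)) e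
 (c (a (nat_lit 0x15e280202006)) e
 (c (a (nat_lit 0x4e020205465)) e
 (c (a (nat_lit 0x202a3c66)) e
 (c (a (nat_lit 0x444489273e7)) e
 (c z e
 (c z e
 (c z e
 (c z e
 (c (a (nat_lit 0x1162c3202027)) e
 (c (a (nat_lit 0x163940200004)) e
 (c (a (nat_lit 0x192000000004)) e e))))))))))))))))))))))))) Tr.c Tr.e (nat_lit 0) C.cx C.cy
noncomputable def C252 : Tr := beta% (fun (c : Nat → Tr → Tr → Tr) (e : Tr) (z : Nat) (a : Nat → Nat) =>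
 (c z
 (c (a (nat_lit 0x13e49857ae8d2d24))
 (c z e
 (c (a (nat_lit 0x105570ebcaeccd0ca6))
 (c z e
 (c z e
 (c z e
 (c z e
 (c z e
 (c z e
 (c (a (nat_lit 0x44d724ca3c6e6486629)) e e)))))))
 (c z e
 (c z e
 (c z e
 (c z e
 (c z e
 (c z e
 (c z e
 (c (a (nat_lit 0x4c766c8e66505da06)) e
 (c (a (nat_lit 0x1042586e523b81806)) e e)))))))))))
 (c (a (nat_lit 0x3f3978180203825))
 (c (a (nat_lit 0x1c9a8f2d71329155a6))
 (c z e
 (c z e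
 (c z e
 (c z e
 (c z e
 (c z e
 (c (a (nat_lit 0xf75f186884cb06bb8a9)) e e)))))))
 (c z e
 (c z e
 (c z e
 (c z e
 (c z e
 (c z e
 (c (a (nat_lit 0x427c6256121a1fc08)) e
 (c (a (nat_lit 0x325050282643675a8)) e
 (c (a (nat_lit 0x2c684442319764588)) e e))))))))))
 (c (a (nat_lit 0x164c2020203db9a5))
 (c z e
 (c z e
 (c z e
 (c z e
 (c z e
 (c (a (nat_lit 0x96e2aa847a7281168)) e
 (c (a (nat_lit 0x72ac74383a38cd1c8)) e
 (c z e
 (c z e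
 (c (a (nat_lit 0x9c72667cc8c34a448)) e e))))))))))
 (c (a (nat_lit 0x960202033ffd345))
 (c z e
 (c z e
 (c z e
 (c z e
 (c z e
 (c (a (nat_lit 0x16cf86e1e3880761a7)) e e))))))
 (c (a (nat_lit 0x7a7a912980fc025))
 (c z e
 (c z e
 (c z e
 (c (a (nat_lit 0x5c86c6789396b6ce8)) e e))))
 (c (a (nat_lit 0xbec2fd3cb664ae6))
 (c z e
 (c z e
 (c z e
 (c z e
 (c z e
 (c (a (nat_lit 0xb39d854f1d32dc008)) e e))))))
 (c z e
 (c z e
 (c (a (nat_lit 0xe10cac201c10026))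
 (c (a (nat_lit 0x1b77f0a0a0456682c7)) e
 (c (a (nat_lit 0xcf22241e2e3000008)) e e))
 (c (a (nat_lit 0x19d8666604846725)) e
 (c (a (nat_lit 0x1b896c4a4a4922a5)) e
 (c z e
 (c (a (nat_lit 0xe8d8eeeae904026)) e
 (c (a (nat_lit 0x1535fa3772ed88e5)) e
 (c (a (nat_lit 0xc37daf4b734f4c5)) e
 (c (a (nat_lit 0xe0a6ed87047464)) e e))))))))))))))))
 (c z
 (c (a (nat_lit 0xf6340c02031f326))
 (c (a (nat_lit 0x1a2880ca358aff7bc5))
 (c z e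
 (c z e
 (c z e
 (c z e
 (c z e
 (c (a (nat_lit 0x4c389a5668747a637ca)) e e))))))
 (c z e
 (c z e
 (c z e
 (c z e
 (c z e
 (c z e
 (c (a (nat_lit 0x526e3c1e122300d09)) e
 (c (a (nat_lit 0x602a18083b76407e9)) e e)))))))))
 (c (a (nat_lit 0x520202034b15347)) e
 (c (a (nat_lit 0x18181afd5123847)) e
 (c z e
 (c z e
 (c z e
 (c z e
 (c (a (nat_lit 0x187a658240416187))
 (c (a (nat_lit 0x1e2dec24a52884a008)) e e)
 (c (a (nat_lit 0x1a66814062628327)) e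
 (c z e
 (c z e
 (c z e
 (c (a (nat_lit 0x1b7add18b1f241c7)) e
 (c z e
 (c z e
 (c (a (nat_lit 0x868718608268006)) e
 (c (a (nat_lit 0x698e1a300000005)) e e)))))))))))))))))
 (c z
 (c (a (nat_lit 0x2e2e31a720c8e26)) e
 (c z e
 (c z e
 (c z e
 (c z e
 (c z e
 (c z e
 (c z e
 (c z e
 (c z e
 (c z e
 (c (a (nat_lit 0x12d12eafcac51b08)) e e))))))))))))
 (c (a (nat_lit 0x20203167)) e
 (c (a (nat_lit 0x202020331167))
 (c (a (nat_lit 0x560a148e833e707))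
 (c z e
 (c (a (nat_lit 0x1abf13cd7dcea8eb68)) e e))
 (c z e
 (c z e
 (c z e
 (c z e
 (c (a (nat_lit 0x136643234ba4c2e7)) e
 (c (a (nat_lit 0x18f30bf8f1296a86)) e
 (c z e
 (c z e
 (c z e
 (c z e
 (c z e
 (c (a (nat_lit 0x1f2fc0e000000005)) e e)))))))))))))
 (c (a (nat_lit 0x203dfc2ce7))
 (c (a (nat_lit 0x4726d33f595a26)) e
 (c z e
 (c z e
 (c z e
 (c z e
 (c (a (nat_lit 0x14b14e4f90b147c7)) e e))))))
 (c (a (nat_lit 0x2223a1a2b05a7))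
 (c z e
 (c z e
 (c z e
 (c z e
 (c z e
 (c z e
 (c z e
 (c (a (nat_lit 0xa931ba62a7e3a9)) e e))))))))
 (c (a (nat_lit 0x21d558e8605a7)) e
 (c (a (nat_lit 0x1adccc00c02006))
 (c (a (nat_lit 0x10d49caeed485066)) e
 (c (a (nat_lit 0xb912f70298d98c7)) e e))
 (c (a (nat_lit 0x14a7a0c0c0cec6))
 (c (a (nat_lit 0x970f34f8fb1e826)) e e)
 (c (a (nat_lit 0x60020202f9c06))
 (c (a (nat_lit 0xa87e7b85d00e447)) e e)
 (c (a (nat_lit 0x20202f9c9ca6)) e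
 (c z e
 (c z e
 (c z e
 (c z e
 (c (a (nat_lit 0x1bbee74763a426)) e
 (c (a (nat_lit 0x1b43c3e0208326)) e
 (c (a (nat_lit 0x113142244e1304)) e
 (c (a (nat_lit 0x1129aa8ff27ba5)) e e))))))))))))))))))))) Tr.c Tr.e (nat_lit 0) C.cx

end Pool.Agent.Work.MP_82fd4a_nt.P.H
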