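import Pool.Agent.Work.MP_82fd4a_nt.P.Dx

set_option autoImplicit false
set_option linter.all false
set_option maxRecDepth 100000

namespace Pool.Agent.Work.MP_82fd4a_nt.P.H
open Y Y.Tr

noncomputable def C254 : Tr := beta% (fun (c : Nat → Tr → Tr → Tr) (e : Tr) (z : Nat) (a b : Nat → Nat) =>
 (c (a (nat_lit 0x4040404041))
 (c (a (nat_lit 0x1b0d1e4c4c4c7))
 (c (a (nat_lit 0x113215d3529252a8))
 (c z e
 (c (a (nat_lit 0x15569655126e0df5c8)) e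
 (c (a (nat_lit 0xf9437554f6d72ae48)) e e)))
 (c (a (nat_lit 0x87514cb68caeda7))
 (c (a (nat_lit 0x106468c90064091688)) e
 (c (a (nat_lit 0xeb211ca88ad9232e9)) e e))
 (c (a (nat_lit 0x126c6e8d8a4c9e27))
 (c (a (nat_lit 0x135b714daae48c2008)) e e)
 (c (a (nat_lit 0x80964cb6b6cb2a8)) e
 (c z e
 (c z e
 (c (a (nat_lit 0x58aae2e44c2f867)) e
 (c (a (nat_lit 0x56a0c05c552ac28)) e
 (c (a (nat_lit 0x9d749e5d6633947)) e
 (c (a (nat_lit 0x78569504a248008)) e e))))))))))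
 (c (a (nat_lit 0x12536805040408))
 (c (a (nat_lit 0xd7729c7a4c7fa87))
 (c (a (nat_lit 0x106ca83c4a54e1728)) e
 (c (a (nat_lit 0xf96320aaed3d50009)) e e))
 (c (a (nat_lit 0xac8e8476850f6e9))
 (c (a (nat_lit 0x1ab8af4cce6d200009)) e e)
 (c z e
 (c z e
 (c z e
 (c (a (nat_lit 0x3c68683c0a97369)) e
 (c z e
 (c (a (nat_lit 0x15cee554edaee6e8)) e
 (c (b (nat_lit 0xd4dfff7c6800008)) e e)))))))))
 (c (a (nat_lit 0x15cb6a6a6a6567))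
 (c (a (nat_lit 0x9c805a60ef211c8))
 (c (a (nat_lit 0x122a44a0a420000008)) e e)
 (c z e
 (c z e
 (c z e
 (c (a (nat_lit 0x725a4c107956d29)) e
 (c (a (nat_lit 0xd69634a0a7632c8)) e
 (c (a (nat_lit 0xec76a85966a6008)) e
 (c (a (nat_lit 0x1bcbee25e0000008)) e e))))))))
 (c (a (nat_lit 0x11ceaeaec60766))
 (c z e
 (c z e
 (c z e
 (c (a (nat_lit 0x96a490dd3af4f09)) e e))))
 (c (a (nat_lit 0x1252578c494105))
 (c (a (nat_lit 0x161a163938b4307)) e e)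
 (c z e
 (c z e
 (c z e
 (c (a (nat_lit 0x6a1204020b8c7)) e
 (c (a (nat_lit 0x2a24224b04568)) e
 (c (a (nat_lit 0x6e72a96ab0368)) e
 (c z e
 (c (a (nat_lit 0x23544e5a3e5c7)) e
 (c (a (nat_lit 0x136223a2442827)) e
 (c (a (nat_lit 0x4a80509110ac6)) e
 (c (a (nat_lit 0xac7cbd4070006)) e
 (c (a (nat_lit 0xdf22ce0000006)) e
 (c (a (nat_lit 0x14e00000000004)) e e))))))))))))))))))
 (c (a (nat_lit 0x4040404041))
 (c (a (nat_lit 0x19910f2b4b6626))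
 (c (a (nat_lit 0x1b8f2b0a6cd4f8e6)) e
 (c (a (nat_lit 0xa896808ee559e08))
 (c (a (nat_lit 0x116b4849c800000009)) e e)
 (c z e
 (c (a (nat_lit 0xb702fb51a8d4567)) e
 (c z e
 (c (a (nat_lit 0x384e8438c12efa8)) e
 (c (a (nat_lit 0x7c8a6256d734c48)) e
 (c (a (nat_lit 0xc054d5091050008)) e
 (c (a (nat_lit 0x109bdb47a0000007)) e e)))))))))
 (c (a (nat_lit 0x12ef6f6f85a006))
 (c (a (nat_lit 0x543e48a125e76e8))
 (c (a (nat_lit 0x1ceaed474000000007)) e e)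
 (c z e
 (c z e
 (c z e
 (c (a (nat_lit 0x8ae08b7b81b9169)) e
 (c (a (nat_lit 0xa462f48790e8a49)) e
 (c (a (nat_lit 0x530234ec5e00009)) e
 (c (a (nat_lit 0x1226836000000009)) e e))))))))
 (c (a (nat_lit 0x1777776e2c2006)) e
 (c z e
 (c z e
 (c z e
 (c (a (nat_lit 0x1183e060402985)) e
 (c (a (nat_lit 0x221414123d167)) e
 (c (a (nat_lit 0x688e8eebdc787)) e
 (c z e
 (c z e
 (c z e
 (c (a (nat_lit 0x112302c3a44d87)) e
 (c (a (nat_lit 0x504a647ba2706)) e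
 (c (a (nat_lit 0x86a2b93200006)) e
 (c (a (nat_lit 0x53e0000000001)) e e))))))))))))))))
 (c (a (nat_lit 0x6060606061))
 (c (a (nat_lit 0x18d8d8ee64c0a5))
 (c (a (nat_lit 0x26264e46dd06ea7)) e
 (c z e
 (c z e
 (c (a (nat_lit 0xe74c445816d168)) e
 (c (a (nat_lit 0x7c72a9610ae0d49)) e
 (c (a (nat_lit 0x96b927a99b06008)) e
 (c (a (nat_lit 0x13b8d7d860000007)) e
 (c (a (nat_lit 0x1468200000000008)) e e))))))))
 (c z e
 (c z e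
 (c z e
 (c (a (nat_lit 0x1d654120806744))
 (c (a (nat_lit 0x1631f02700000008)) e e)
 (c (a (nat_lit 0x11ad2cecd232e4)) e
 (c (a (nat_lit 0x9ac0c2b8ed6e6)) e
 (c (a (nat_lit 0x9ee0e33f2ebc7)) e
 (c z e
 (c z e
 (c (a (nat_lit 0xa358a07c7af86)) e
 (c (a (nat_lit 0x1cd16f0f16f346)) e
 (c (a (nat_lit 0x940409f68e004)) e
 (c (a (nat_lit 0xd965620000004)) e
 (c (a (nat_lit 0x400000000001)) e e)))))))))))))))
 (c (a (nat_lit 0x2020202021))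
 (c z e
 (c (a (nat_lit 0x187e9c5181a163)) e
 (c (a (nat_lit 0x1b642100606024))
 (c (a (nat_lit 0x579ceee4f474008)) e
 (c (a (nat_lit 0x1aff9cf300000008)) e e))
 (c (a (nat_lit 0x1f314f98ea6862))
 (c (a (nat_lit 0x1634a90000000008)) e e)
 (c (a (nat_lit 0x1e1dde1b8a7065)) e
 (c z e
 (c z e
 (c z e
 (c z e
 (c (a (nat_lit 0x3b0294b0c0966)) e
 (c (a (nat_lit 0x1e57b97a77f7c6)) e
 (c (a (nat_lit 0x1ce361c00002)) e
 (c (a (nat_lit 0x1b41e000000002)) e e)))))))))))))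
 (c (a (nat_lit 0x2020202021))
 (c (a (nat_lit 0x7d96b2463e561))
 (c (a (nat_lit 0x7f4e889e40cad26)) e
 (c (a (nat_lit 0x1f2be943d2eac007)) e
 (c (a (nat_lit 0x10cd33ea20000007)) e e)))
 (c (a (nat_lit 0x1c2c038382ca61))
 (c (a (nat_lit 0x1683e38f08800007)) e
 (c (a (nat_lit 0xdd5efc000000007)) e e))
 (c (a (nat_lit 0x14b373f0732844))
 (c (a (nat_lit 0x1646800000000007)) e e)
 (c z e
 (c z e
 (c z e
 (c (a (nat_lit 0x3b1b2535206)) e e)))))))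
 (c (a (nat_lit 0x2020202021))
 (c (a (nat_lit 0x8080810132e4)) e
 (c (a (nat_lit 0x141090931ae044)) e
 (c z e
 (c z e
 (c (a (nat_lit 0x85c5446f32a6)) e
 (c (a (nat_lit 0x1e092147a5586)) e
 (c z e
 (c (a (nat_lit 0xb0cd58e2f4c05)) e
 (c (a (nat_lit 0x859eb06c00004)) e e)))))))))
 (c (a (nat_lit 0x4040202021))
 (c (a (nat_lit 0x1435557cd08bc4)) e
 (c (a (nat_lit 0x5ae593441a465)) e
 (c (a (nat_lit 0xe7993d3205f85)) e
 (c (a (nat_lit 0x883a4009b9b85)) e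
 (c z e
 (c z e
 (c (a (nat_lit 0x4fe4950e8e005)) e
 (c (a (nat_lit 0x1da8e880000005)) e e))))))))
 (c (a (nat_lit 0x6080808061))
 (c (a (nat_lit 0x95010a0412fa5)) e
 (c (a (nat_lit 0x9294560437487)) e
 (c (a (nat_lit 0x2c1a1c3a7b0e8)) e e)))
 (c (a (nat_lit 0x2020203a03))
 (c (a (nat_lit 0x5c5e202c83087)) e
 (c (a (nat_lit 0x201236a16f708)) e
 (c z e
 (c z e
 (c (a (nat_lit 0xdb4e460000006)) e e)))))
 (c (a (nat_lit 0x3c3c3d25fc4))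
 (c (a (nat_lit 0xc1c3ee9248c8)) e e)
 (c (a (nat_lit 0x11b1ad754d46)) e
 (c (a (nat_lit 0x15d0b8b17026)) e
 (c (a (nat_lit 0x43445a42425)) e
 (c (a (nat_lit 0x102060202025)) e
 (c (a (nat_lit 0x2c08041c001)) e
 (c (a (nat_lit 0x2020405a04)) e
 (c (a (nat_lit 0xe100f80b04)) e
 (c (a (nat_lit 0x5a5b14aa925)) e
 (c z e
 (c (a (nat_lit 0x104a28484845)) e
 (c (a (nat_lit 0x1a010282a201)) e
 (c (a (nat_lit 0xe36340c001)) e
 (c (a (nat_lit 0x36220000001)) e e)))))))))))))))))))))))) Tr.c Tr.e (nat_lit 0) C.cx C.cy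
noncomputable def C255 : Tr := beta% (fun (c : Nat → Tr → Tr → Tr) (e : Tr) (z : Nat) (a b : Nat → Nat) =>
 (c (a (nat_lit 0x2020000001))
 (c z
 (c (a (nat_lit 0x1105e160203f5965))
 (c z e
 (c z e
 (c z e
 (c z e
 (c z e
 (c z e
 (c (a (nat_lit 0x408e9b6cf13ab2527)) e
 (c (a (nat_lit 0x56461c121c2607208)) e
 (c (a (nat_lit 0x764230227bd916987)) e e)))))))))
 (c (a (nat_lit 0x320202035303167)) e
 (c (a (nat_lit 0x1c1c1d0ef4c9667)) e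
 (c z e
 (c z e
 (c z e
 (c z e
 (c z e
 (c z e
 (c z e
 (c (a (nat_lit 0x1b905a793741e0e5)) e
 (c z e
 (c (a (nat_lit 0x11d172724f6ba627)) e e)))))))))))))
 (c z
 (c (a (nat_lit 0x8080b32d8ff407))
 (c z e
 (c z e
 (c z e
 (c z e
 (c z e
 (c (a (nat_lit 0xf56babd4fa6ab0ae8)) e e)))))) e)
 (c (a (nat_lit 0x2020203667)) e
 (c (a (nat_lit 0x2020381287))
 (c (a (nat_lit 0x220c90fc250e027))
 (c (a (nat_lit 0xc520b8bcd08ec69e8)) e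
 (c (a (nat_lit 0x182ce7a26508050088)) e
 (c z e
 (c z e
 (c (a (nat_lit 0x1f564a2dc8e54d06e7)) e e)))))
 (c z e
 (c z e
 (c z e
 (c z e
 (c z e
 (c (a (nat_lit 0xd48a4a3d0e80427)) e
 (c z e
 (c z e
 (c z e
 (c z e
 (c z e
 (c (a (nat_lit 0x142a006000000006)) e e)))))))))))))
 (c (a (nat_lit 0x2031cf2648)) e
 (c (a (nat_lit 0x203edb69e327)) e
 (c (a (nat_lit 0x1112905020208)) e
 (c (a (nat_lit 0x13d0c4c0202027)) e
 (c (a (nat_lit 0xac2a0202031a7)) e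
 (c (a (nat_lit 0x1202020325347))
 (c (a (nat_lit 0xd0d66347081f1c6)) e e)
 (c (a (nat_lit 0x202032539247)) e
 (c z e
 (c z e
 (c z e
 (c (a (nat_lit 0xeb19433a98728)) e
 (c (a (nat_lit 0x15fb3a05c123c7)) e e))))))))))))))))
 (c (a (nat_lit 0x4040404041))
 (c (a (nat_lit 0x20202032e6))
 (c (a (nat_lit 0x1010604456491c7))
 (c z e
 (c z e
 (c z e
 (c z e
 (c z e
 (c (a (nat_lit 0x6e67424c7eb8b0d67)) e e))))))
 (c z e
 (c z e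
 (c z e
 (c z e
 (c z e
 (c z e
 (c z e
 (c z e
 (c z e
 (c (a (nat_lit 0xbcb8a6601c811c7)) e e)))))))))))
 (c (a (nat_lit 0x2020203251c7))
 (c z e
 (c z e
 (c z e
 (c z e
 (c z e
 (c z e
 (c z e
 (c z e
 (c (a (nat_lit 0x1709c7ae09c207a7)) e e)))))))))
 (c (a (nat_lit 0x3eb9e747))
 (c z e
 (c z e
 (c z e
 (c z e
 (c z e
 (c z e
 (c z e
 (c (b (nat_lit 0x1e6b159ffffffe7)) e e))))))))
 (c (a (nat_lit 0x203fdeede5e7))
 (c z e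
 (c z e
 (c z e
 (c z e
 (c (b (nat_lit 0x422c8bffb030287)) e e)))))
 (c (a (nat_lit 0x23d5a09e44467))
 (c z e
 (c z e
 (c z e
 (c (a (nat_lit 0x5c4673e0c2d8907)) e e))))
 (c (a (nat_lit 0x164e65a0202027)) e
 (c (a (nat_lit 0x1926a101011766)) e
 (c (a (nat_lit 0x50020203976e6)) e
 (c (a (nat_lit 0x121213bbb1ce6))
 (c (a (nat_lit 0x945c9d8e850c407)) e e)
 (c z e
 (c z e
 (c z e
 (c z e
 (c z e
 (c z e
 (c z e
 (c z e
 (c z e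
 (c (b (nat_lit 0x12107fe0602004)) e
 (c (a (nat_lit 0x19414080000003)) e e))))))))))))))))))))
 (c (a (nat_lit 0x2020202021))
 (c (a (nat_lit 0x1a1a1bc5eaba6))
 (c z e
 (c z e
 (c z e
 (c z e
 (c z e
 (c z e
 (c (a (nat_lit 0x2c042a6cba0f46)) e
 (c z e
 (c (a (nat_lit 0x163697bf79f79506)) e e)))))))))
 (c (a (nat_lit 0x203d9ee827a7)) e
 (c (a (nat_lit 0x1311207a4c3e8)) e
 (c (a (nat_lit 0x1257e300202027))
 (c (a (nat_lit 0x84b062065547427))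
 (c (a (nat_lit 0xa91caa44443800008)) e e)
 (c z e
 (c (b (nat_lit 0x67ff20dbbc2e7)) e
 (c z e
 (c z e
 (c z e
 (c z e
 (c (b (nat_lit 0x165a1fe7e3800008)) e e))))))))
 (c (a (nat_lit 0x1147c6c6c6c347)) e
 (c (a (nat_lit 0xb804040741764)) e
 (c (a (nat_lit 0x6a6a9c6d52866)) e
 (c z e
 (c z e
 (c z e
 (c (a (nat_lit 0xef24336df1d65)) e
 (c (a (nat_lit 0x1531b637381687)) e
 (c z e
 (c z e
 (c z e
 (c z e
 (c (a (nat_lit 0xe95a929096845)) e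
 (c (a (nat_lit 0x1ce2c282400004)) e e))))))))))))))))))
 C254)))) Tr.c Tr.e (nat_lit 0) C.cx C.cy
noncomputable def C256 : Tr := beta% (fun (c : Nat → Tr → Tr → Tr) (e : Tr) (z : Nat) (a : Nat → Nat) =>
 (c z
 (c (a (nat_lit 0x163620f32eccca44))
 (c z e
 (c z e
 (c z e
 (c z e
 (c z e
 (c z e
 (c z e
 (c z e
 (c z e
 (c z e
 (c (a (nat_lit 0x6624b6c0da7e43d66)) e
 (c (a (nat_lit 0x121248b678811a7c8)) e e))))))))))))
 (c (a (nat_lit 0xbb1169166c62626))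
 (c z e
 (c z e
 (c z e
 (c z e
 (c z e
 (c z e
 (c z e
 (c z e
 (c (a (nat_lit 0x222c3018061831249)) e e)))))))))
 (c (a (nat_lit 0xe518900c0203e86))
 (c z e
 (c z e
 (c z e
 (c z e
 (c z e
 (c z e
 (c (a (nat_lit 0x7020784c323e0d808)) e e)))))))
 (c (a (nat_lit 0xde4c06060711fe6))
 (c z e
 (c z e
 (c z e
 (c z e
 (c z e
 (c (a (nat_lit 0xa57cee72907b70907)) e
 (c z e
 (c (a (nat_lit 0x10072361c7268b6fa7)) e e))))))))
 (c (a (nat_lit 0x5c101026d154946))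
 (c z e
 (c z e
 (c z e
 (c z e
 (c z e
 (c z e
 (c (a (nat_lit 0x7034269560b8bc848)) e e)))))))
 (c (a (nat_lit 0x48484cfd6c5a206))
 (c z e
 (c z e
 (c z e
 (c z e
 (c z e
 (c (a (nat_lit 0x9acdfdc3a733f1068)) e e))))))
 (c z e
 (c z e
 (c z e
 (c (a (nat_lit 0x147473a0c0416146)) e
 (c (a (nat_lit 0x1958258525e5e3c6)) e
 (c (a (nat_lit 0x1f0c6becc9262946)) e
 (c z e
 (c z e
 (c z e
 (c z e
 (c (a (nat_lit 0x979f6dc563657a4)) e e)))))))))))))))))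
 (c z
 (c (a (nat_lit 0xc0b27e1612134a7))
 (c z e
 (c z e
 (c z e
 (c z e
 (c z e
 (c z e
 (c z e
 (c (a (nat_lit 0x1118f34a48e8a8bfc7)) e
 (c (a (nat_lit 0x364c201a1a4f58129)) e e)))))))))
 (c (a (nat_lit 0x94180202031f0c8))
 (c z e
 (c z e
 (c z e
 (c z e
 (c z e
 (c z e
 (c (a (nat_lit 0xaefe946272396d689)) e e)))))))
 (c (a (nat_lit 0x802020371e9a27)) e
 (c (a (nat_lit 0x26283d8599878a7)) e e))))
 (c z
 (c (a (nat_lit 0x3e0808090acebc7)) e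
 (c (a (nat_lit 0x484a4b759f2cda7)) e
 (c z e
 (c z e
 (c z e
 (c z e
 (c z e
 (c z e
 (c z e
 (c z e
 (c (a (nat_lit 0x1b997edf91804047)) e e)))))))))))
 (c z
 (c z e
 (c z e
 (c z e
 (c z e
 (c z e
 (c z e
 (c z e
 (c (a (nat_lit 0x1e258c640e1e1a8)) e e))))))))
 (c (a (nat_lit 0x2020202032a7))
 (c (a (nat_lit 0x586e1c121419ca7))
 (c (a (nat_lit 0xacf712caa6a09e988)) e
 (c (a (nat_lit 0xc500da660a7a482a9)) e
 (c (a (nat_lit 0x10f06b2724e5a687e9)) e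
 (c z e
 (c z e
 (c z e
 (c (a (nat_lit 0x1466876925e0000008)) e e)))))))
 (c (a (nat_lit 0x5816121a0b00888))
 (c (a (nat_lit 0x10b2c8e0aa48686a49)) e
 (c z e
 (c z e
 (c z e
 (c z e
 (c (a (nat_lit 0xd6bd58ae000000008)) e e))))))
 (c (a (nat_lit 0x3a4e283724a2828)) e
 (c z e
 (c z e
 (c z e
 (c (a (nat_lit 0x1147436104068808)) e
 (c (a (nat_lit 0xc6584e0a6307487)) e
 (c z e
 (c z e
 (c z e
 (c z e
 (c (a (nat_lit 0x10c7a42240000007)) e e)))))))))))))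
 (c (a (nat_lit 0x20202032b067))
 (c (a (nat_lit 0x3a282a2a5b80c27))
 (c z e
 (c (a (nat_lit 0xe4d06e9471050c4a9)) e
 (c z e
 (c z e
 (c z e
 (c (a (nat_lit 0x17be4cc00000000008)) e e))))))
 (c (a (nat_lit 0x48204e8100d85e8)) e
 (c z e
 (c z e
 (c z e
 (c (a (nat_lit 0x160c250221ee2c87)) e
 (c (a (nat_lit 0xceb444530763288)) e
 (c z e
 (c z e
 (c z e
 (c z e
 (c (a (nat_lit 0xcd5a26000000007)) e e))))))))))))
 (c (a (nat_lit 0x40405a17c8c7)) e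
 (c (a (nat_lit 0x203a914ae447)) e
 (c (a (nat_lit 0x43bbbaac14146)) e
 (c (a (nat_lit 0x15f88722020206))
 (c (a (nat_lit 0x10f0f9f7f79368e6)) e e)
 (c (a (nat_lit 0xd82e101011066))
 (c (a (nat_lit 0x102d684590b00067)) e
 (c (a (nat_lit 0x106503650c68c7a8)) e e))
 (c (a (nat_lit 0x180a0a0c87067)) e
 (c (a (nat_lit 0xc0c0e890ae27)) e
 (c z e
 (c z e
 (c z e
 (c z e
 (c (a (nat_lit 0x18bb21a1814426)) e
 (c (a (nat_lit 0x1a60e0e0634206)) e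
 (c (a (nat_lit 0x68685716c8dc4)) e e))))))))))))))))))))) Tr.c Tr.e (nat_lit 0) C.cx
noncomputable def C257 : Tr := beta% (fun (c : Nat → Tr → Tr → Tr) (e : Tr) (z : Nat) (a b : Nat → Nat) =>
 (c z
 (c (a (nat_lit 0xa84e02020383125))
 (c z e
 (c z e
 (c z e
 (c z e
 (c z e
 (c (a (nat_lit 0x53627244285a080e7)) e
 (c (a (nat_lit 0x72aa86626286075c7)) e
 (c (a (nat_lit 0x928c401e47b5b5de7)) e
 (c (a (nat_lit 0x38280e184ef136b48)) e e)))))))))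
 (c (a (nat_lit 0x8428282b7f9f505))
 (c z e
 (c z e
 (c z e
 (c z e
 (c z e
 (c (a (nat_lit 0x3616241031b549c88)) e e))))))
 (c (a (nat_lit 0x14142b049ea0026)) e
 (c (a (nat_lit 0x7075ad072c9c045))
 (c z e
 (c z e
 (c (a (nat_lit 0x6226c6502a8ffad48)) e
 (c z e
 (c (a (nat_lit 0x445790e7f0e88a528)) e e)))))
 (c z e
 (c z e
 (c z e
 (c z e
 (c z e
 (c z e
 (c (a (nat_lit 0x1efb3eff5c99c3a5)) e e)))))))))))
 (c z
 (c (a (nat_lit 0xe4e4e4cf1ad2866))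
 (c z e
 (c z e
 (c z e
 (c z e
 (c (a (nat_lit 0x90ca9f26978ccf847)) e
 (c (a (nat_lit 0xcad4cea35f7558de8)) e e))))))
 (c (a (nat_lit 0x12f451f5aea2c0a6)) e
 (c z e
 (c (a (nat_lit 0xa296843202a11c5))
 (c (a (nat_lit 0xc4d488ed6f135ce28)) e e)
 (c (a (nat_lit 0xb8a83682f160445)) e
 (c (a (nat_lit 0x6a34566d18d4766)) e
 (c z e
 (c z e
 (c (a (nat_lit 0xcafcef2eac80006)) e
 (c (a (nat_lit 0x114e164e31a20006)) e
 (c (a (nat_lit 0x990a92cc4c10406)) e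
 (c (a (nat_lit 0x16d4d654357616c8)) e e))))))))))))
 (c z
 (c (a (nat_lit 0x10128d8b61002285))
 (c z e
 (c (a (nat_lit 0xed57ed0a9891770c7)) e
 (c (a (nat_lit 0x159e304aad3514b6a7)) e
 (c (a (nat_lit 0x10ed8a50112fd02dc8)) e
 (c z e
 (c z e
 (c (a (nat_lit 0x3d20dc9c240200008)) e
 (c (a (nat_lit 0x127a3489e000000007)) e e))))))))
 (c (a (nat_lit 0x7e582e1c020b427))
 (c (a (nat_lit 0x165c37acc9386df307)) e
 (c (a (nat_lit 0x12104bd06d8fcfefe9)) e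
 (c (a (nat_lit 0x10e5cbd1282bea8d68)) e
 (c z e
 (c z e
 (c (a (nat_lit 0x19373164c0c0000008)) e
 (c (a (nat_lit 0x13d16c000000000008)) e e)))))))
 (c (a (nat_lit 0x4a0802020b348a7))
 (c (a (nat_lit 0xd2c2ed1efb394b508)) e
 (c z e
 (c z e
 (c z e
 (c (a (nat_lit 0x1e7bce88a000000008)) e e)))))
 (c (b (nat_lit 0x8020213444dfe7))
 (c z e
 (c z e
 (c z e
 (c (a (nat_lit 0x106be9e00000000009)) e e))))
 (c (a (nat_lit 0x5a5873a2b46c4a7)) e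
 (c z e
 (c (a (nat_lit 0x475c9e603a5aae7)) e
 (c (a (nat_lit 0x11c5834180e60447)) e
 (c (a (nat_lit 0x112985ef96215c25)) e
 (c (a (nat_lit 0xe063a844003607)) e
 (c z e
 (c z e
 (c (a (nat_lit 0x18874b6080400005)) e
 (c (a (nat_lit 0xeb720a000000004)) e e))))))))))))))
 (c (a (nat_lit 0x202020203224))
 (c (a (nat_lit 0x340c02020237886))
 (c z e
 (c (a (nat_lit 0x14cef3ebdc37fabd68)) e
 (c z e
 (c z e
 (c z e
 (c (a (nat_lit 0x1fd7f081e000000007)) e e))))))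
 (c (a (nat_lit 0x6021e20371a947))
 (c (a (nat_lit 0x78b0728acec71ea49)) e
 (c z e
 (c z e
 (c z e
 (c (a (nat_lit 0x126fea400000000009)) e e)))))
 (c (a (nat_lit 0x22a2c4d7a84686)) e
 (c z e
 (c z e
 (c (a (nat_lit 0x1b80701c0223e26)) e
 (c (a (nat_lit 0x1b4b8820425b93a6)) e
 (c (a (nat_lit 0xf8c2c083cb39a86)) e
 (c (a (nat_lit 0xa163efcbd77de7)) e
 (c z e
 (c z e
 (c (a (nat_lit 0x124380c060000005)) e e))))))))))))
 (c (a (nat_lit 0x2c2c2c2cc30e5))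
 (c (a (nat_lit 0x2438dadcd50a5e6)) e
 (c z e
 (c z e
 (c z e
 (c (a (nat_lit 0xe916c0a4ab64be7)) e
 (c (a (nat_lit 0x16cde523f1b60a86)) e
 (c (a (nat_lit 0xa4906ebef116a07)) e
 (c (a (nat_lit 0x8204664d906aa8)) e e))))))))
 (c (a (nat_lit 0x11d1d1dc9836e6))
 (c z e
 (c z e
 (c z e
 (c z e
 (c (a (nat_lit 0x169232763b74ea47)) e
 (c z e
 (c (a (nat_lit 0x443e3d0f04c4028)) e e)))))))
 (c (a (nat_lit 0xf4f4ff410ed06)) e
 (c (a (nat_lit 0x1cd89f5d7abaa6))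
 (c (a (nat_lit 0x1394f79d16d916e6)) e
 (c (a (nat_lit 0xdd13b3251aef567)) e e))
 (c (a (nat_lit 0xa11d190505046))
 (c (a (nat_lit 0x6f78aa7040a1ae6)) e
 (c (a (nat_lit 0x6c7a38145911588)) e
 (c (a (nat_lit 0xc0e8a4bd39a2b08)) e
 (c (a (nat_lit 0x199f5b1c6e800008)) e e))))
 (c (a (nat_lit 0x16f4b232325924))
 (c (a (nat_lit 0x16b02e101b181c07)) e
 (c (a (nat_lit 0xd48ac75b0aaa008)) e
 (c (a (nat_lit 0x14cf542740000008)) e e)))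
 (c (a (nat_lit 0x6e404042b3b24))
 (c (a (nat_lit 0xae793e946200007)) e
 (c (a (nat_lit 0x15d743c000000007)) e e))
 (c (a (nat_lit 0xa0a0cd7db124))
 (c (a (nat_lit 0x18e1800000000006)) e e)
 (c z e
 (c z e
 (c (a (nat_lit 0x11e080c100c3)) e
 (c (a (nat_lit 0x1342a34322c263)) e
 (c z e
 (c z e
 (c (a (nat_lit 0x6060617383)) e
 (c (a (nat_lit 0xa2a0a4bfe1123)) e e))))))))))))))))))))) Tr.c Tr.e (nat_lit 0) C.cx C.cy
noncomputable def C258 : Tr := beta% (fun (c : Nat → Tr → Tr → Tr) (e : Tr) (z : Nat) (a b : Nat → Nat) =>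
 (c z
 (c (a (nat_lit 0x10d0d0d0d0c5c803))
 (c z e
 (c (a (nat_lit 0x1071111113f813d345)) e
 (c z e
 (c z e
 (c z e
 (c z e
 (c z e
 (c z e
 (c z e
 (c z e
 (c z e
 (c z e
 (c z e
 (c z e
 (c (a (nat_lit 0x30323634406ccfbc7)) e
 (c (a (nat_lit 0xb8bcbcbabef1cace8)) e
 (c (a (nat_lit 0x16d6f6f75c7b200007)) e e)))))))))))))))))
 (c (a (nat_lit 0x14d4d4d4c9084ce4))
 (c (a (nat_lit 0xf8f8fb4185452d066))
 (c z e
 (c z e
 (c z e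
 (c z e
 (c z e
 (c z e
 (c z e
 (c (a (nat_lit 0x907e34261b9ea288808)) e e))))))))
 (c z e
 (c z e
 (c z e
 (c (a (nat_lit 0xd06e663e4dfd26c86)) e
 (c (a (nat_lit 0x8074545071551abc6)) e
 (c z e
 (c z e
 (c z e
 (c z e
 (c z e
 (c (a (nat_lit 0x9e922e386f78d8ea6)) e
 (c (a (nat_lit 0x56502e345eb2819e7)) e
 (c (a (nat_lit 0x1c24284eb3273f128)) e
 (c z e
 (c (a (nat_lit 0xb2c2c503680000008)) e e))))))))))))))))
 (c (a (nat_lit 0x145454538e0da423))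
 (c z e
 (c z e
 (c z e
 (c z e
 (c z e
 (c z e
 (c z e
 (c z e
 (c (a (nat_lit 0x1070f03031f2113427)) e
 (c z e
 (c (a (nat_lit 0x421a1c368254859a7)) e
 (c (a (nat_lit 0x221216325036fd2a8)) e e))))))))))))
 (c (a (nat_lit 0x19f9e476fd703043))
 (c z e
 (c z e
 (c z e
 (c z e
 (c z e
 (c z e
 (c z e
 (c z e
 (c (a (nat_lit 0xaaa2aadaa090954c7)) e e)))))))))
 (c (a (nat_lit 0x162dda3915555544))
 (c z e
 (c z e
 (c z e
 (c z e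
 (c z e
 (c z e
 (c z e
 (c (a (nat_lit 0x362a303a363ccd109)) e
 (c z e
 (c (a (nat_lit 0x203e4846c91c94449)) e
 (c (a (nat_lit 0x5c78a1092a4800009)) e e)))))))))))
 (c (a (nat_lit 0xb532eeb6b6b8ba4))
 (c (a (nat_lit 0x434ebc6e3462b4626)) e
 (c (a (nat_lit 0x10302b8808cb6f0f47)) e
 (c z e
 (c z e
 (c z e
 (c (a (nat_lit 0x6c8a7a7e7a7d21628)) e
 (c (a (nat_lit 0x6a685e4852fd8b248)) e
 (c (a (nat_lit 0x305a3c44d728a0968)) e
 (c (a (nat_lit 0x3c4438e322723a008)) e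
 (c (a (nat_lit 0x8ed5474c3c0000008)) e e))))))))))
 (c (a (nat_lit 0x155c967151717663))
 (c z e
 (c z e
 (c (a (nat_lit 0x8c847cbe7e8a67b27)) e
 (c (a (nat_lit 0x606c886c62a74b927)) e
 (c z e
 (c (a (nat_lit 0x60342434d2f71ace8)) e
 (c (a (nat_lit 0x6c2c5b39ab292b127)) e
 (c (a (nat_lit 0x787789faca8800007)) e
 (c (a (nat_lit 0xad06e824000000008)) e e)))))))))
 (c (a (nat_lit 0x1f39395979750003))
 (c (a (nat_lit 0x24182c3c2c08471c7)) e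
 (c (a (nat_lit 0xc2cccaccbad3996e8)) e
 (c z e
 (c (a (nat_lit 0xac9878a759d90afc8)) e
 (c (a (nat_lit 0x6e4a550dbd4110808)) e
 (c (a (nat_lit 0x101ccf3a7eb6a0008)) e
 (c (a (nat_lit 0x38f35c3c4e0000008)) e
 (c (a (nat_lit 0x1092c0600000000008)) e e))))))))
 (c (a (nat_lit 0x1adadadafb37d7c6))
 (c z e
 (c z e
 (c (a (nat_lit 0x82868906ceaca4bc9)) e
 (c (a (nat_lit 0xbead6b3f4534fc9a8)) e e))))
 (c (a (nat_lit 0x14b4d595b433f3e6)) e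
 (c (a (nat_lit 0x1454951414141407))
 (c (a (nat_lit 0x11399f5cb4504f2627)) e e)
 (c (a (nat_lit 0x1afd3b7b7b7b7b46))
 (c (a (nat_lit 0x14bdb4040180000007)) e
 (c (a (nat_lit 0x141047e00000000008)) e e))
 (c (a (nat_lit 0x199616363615d365)) e
 (c z e
 (c (a (nat_lit 0x155595b4b4692664)) e
 (c z e
 (c (a (nat_lit 0x1dfdfdfd3dbd9d47)) e e)))))))))))))))))
 (c z
 (c (a (nat_lit 0x19f9f9f20989b0a4))
 (c z e
 (c z e
 (c z e
 (c z e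
 (c (a (nat_lit 0x3020021570ba6a627)) e
 (c z e
 (c z e
 (c z e
 (c z e
 (c z e
 (c z e
 (c (a (nat_lit 0x800c146b66d2c7687)) e e))))))))))))
 (c (b (nat_lit 0x9696fb0bfe080a5))
 (c z e
 (c z e
 (c z e
 (c z e
 (c z e
 (c z e
 (c z e
 (c z e
 (c (a (nat_lit 0xd1053d2aece749547)) e
 (c (a (nat_lit 0xc8f6a7130cc268d47)) e e))))))))))
 (c (a (nat_lit 0x4ed906cc1818185))
 (c z e
 (c z e
 (c z e
 (c z e
 (c z e
 (c z e
 (c z e
 (c (a (nat_lit 0x1086ca4fea0d2a7387)) e e))))))))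
 (c (a (nat_lit 0xbd4080060607065))
 (c z e
 (c z e
 (c z e
 (c z e
 (c z e
 (c (a (nat_lit 0x6896a242ccdc97c87)) e
 (c z e
 (c (a (nat_lit 0x3c3a3c1c070ae6e68)) e e))))))))
 (c (a (nat_lit 0xb856161618c1b85))
 (c (a (nat_lit 0x1eb26b4accb2b493a7)) e
 (c (a (nat_lit 0x154e4acaadd69496e8)) e
 (c z e
 (c z e
 (c (a (nat_lit 0x70eaba7aba95ba8a7)) e
 (c z e
 (c (a (nat_lit 0x8c481c10312cfed28)) e
 (c (a (nat_lit 0xca70725292f120f88)) e e))))))))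
 (c (a (nat_lit 0xb66262650bb6445))
 (c z e
 (c z e
 (c z e
 (c (a (nat_lit 0x5cb099288d421bba7)) e
 (c z e
 (c (a (nat_lit 0x64841ab4898b0f248)) e
 (c (a (nat_lit 0xfcb85a8b9db184008)) e e)))))))
 (c (a (nat_lit 0xf4f4f99dec84645))
 (c (a (nat_lit 0x263a567e6a6e91188)) e
 (c z e
 (c z e
 (c z e
 (c (a (nat_lit 0x501681b78b0700c48)) e
 (c (a (nat_lit 0x2c475149cff000007)) e
 (c (a (nat_lit 0x41a21670000000007)) e e)))))))
 (c z e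
 (c z e
 (c z e
 (c (a (nat_lit 0x1b9979ee2dcef226))
 (c (a (nat_lit 0x168c43418000000007)) e e)
 (c (a (nat_lit 0x10d1a5e5a6a58146)) e
 (c (a (nat_lit 0x1468c8698a64a3e6)) e e)))))))))))))
 (c z
 (c (a (nat_lit 0x6d210ca62e28285))
 (c z e
 (c z e
 (c z e
 (c z e
 (c z e
 (c z e
 (c (a (nat_lit 0x1408e4b49b1b11ac7)) e
 (c z e
 (c (a (nat_lit 0x224e58343e5a83767)) e
 (c (a (nat_lit 0xeeceeaf8b6548dd26)) e e))))))))))
 (c (a (nat_lit 0xac9e70383839527))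
 (c z e
 (c z e
 (c z e
 (c z e
 (c z e
 (c z e
 (c (a (nat_lit 0x12d7be35e80e5660e6)) e e)))))))
 (c (a (nat_lit 0xae3e08080b71c06)) e
 (c (a (nat_lit 0x3c0202196768ac6))
 (c z e
 (c z e
 (c z e
 (c (a (nat_lit 0x42a494ed12ba60608)) e
 (c (a (nat_lit 0x702a424a74551c7c8)) e
 (c z e
 (c (a (nat_lit 0x86503ea3ab1d30668)) e e)))))))
 (c (a (nat_lit 0x20203674888ec6))
 (c z e
 (c z e
 (c (a (nat_lit 0x8ca6d588da268d088)) e
 (c z e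
 (c z e
 (c (a (nat_lit 0x2814728b613864248)) e e))))))
 (c z e
 (c z e
 (c z e
 (c z e
 (c (a (nat_lit 0x1195d54b28ab69a7)) e
 (c z e
 (c (a (nat_lit 0x1025c3a58483a2e7)) e
 (c z e
 (c z e
 (c z e
 (c (a (nat_lit 0x74806e84e2f90a5)) e e))))))))))))))))
 C257)))) Tr.c Tr.e (nat_lit 0) C.cx C.cy
noncomputable def C259 : Tr := beta% (fun (c : Nat → Tr → Tr → Tr) (e : Tr) (z : Nat) (a b : Nat → Nat) =>
 (c (nat_lit 1)
 (c (a (nat_lit 0x2a2b6e38406))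
 (c (a (nat_lit 0x8292fe614b4e4)) e
 (c (a (nat_lit 0x96d0590e7b2a5)) e
 (c z e
 (c z e
 (c z e
 (c (a (nat_lit 0x86b4d0bc93387)) e
 (c (a (nat_lit 0x9090d4eb22f07)) e e)))))))
 (c (a (nat_lit 0x27e6e6a6406))
 (c (a (nat_lit 0xbfa182669ae64)) e
 (c z e
 (c z e
 (c (a (nat_lit 0x428e782617a67)) e
 (c (a (nat_lit 0xa6e8ac49e90a7)) e
 (c (a (nat_lit 0xad10af42cc567)) e e))))))
 (c (a (nat_lit 0x1e2f4903a3a6))
 (c (a (nat_lit 0x9abf1cc03cde5)) e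
 (c (a (nat_lit 0x4a9c70603bfa7)) e e))
 (c (a (nat_lit 0x951e5454545))
 (c (a (nat_lit 0xd09aac6dccc27)) e e)
 (c (a (nat_lit 0x190020202624))
 (c z e
 (c z e
 (c (a (nat_lit 0x1f094bc0000006)) e e)))
 (c (a (nat_lit 0xd2e2e314da5))
 (c (a (nat_lit 0x100ac5e1000007)) e
 (c (a (nat_lit 0x12c58000000007)) e e))
 (c (a (nat_lit 0xc2c5070b246))
 (c (a (nat_lit 0x17600000000004)) e e)
 (c z e
 (c (a (nat_lit 0x1c7af753f3e4)) e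
 (c (a (nat_lit 0x1d2e60a0a062)) e
 (c (a (nat_lit 0xde060a09d22)) e
 (c (a (nat_lit 0x60806b32c3)) e
 (c (a (nat_lit 0x48d07603)) e
 (c z e
 (c (b (nat_lit 0x1fe051c04001)) e
 (c (a (nat_lit 0x14e0800001)) e
 (c (a (nat_lit 0x146000000001)) e e)))))))))))))))))
 (c (a (nat_lit 0x60404061))
 (c (a (nat_lit 0x15972cc48485))
 (c (a (nat_lit 0x1f94f5c7a9a864)) e
 (c (a (nat_lit 0x143713b40c2be5)) e
 (c (a (nat_lit 0x106d4c66c572e5)) e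
 (c (a (nat_lit 0x2070204b90966)) e
 (c (a (nat_lit 0xecacade72f406)) e
 (c (a (nat_lit 0xf0c0bd0694006)) e e))))))
 (c (a (nat_lit 0x135506464645))
 (c (a (nat_lit 0x365c602429c66)) e
 (c (a (nat_lit 0x825a30194ad27)) e e))
 (c (a (nat_lit 0x106020202505))
 (c (a (nat_lit 0x583c3dac9e726)) e e)
 (c (a (nat_lit 0x404073d663))
 (c z e
 (c (a (nat_lit 0x18ac2543800008)) e
 (c (a (nat_lit 0x12c22000000003)) e e)))
 (c (a (nat_lit 0xe2e3093f3c5))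
 (c (a (nat_lit 0x121145c0000006)) e
 (c (a (nat_lit 0x18200000000005)) e e))
 (c (a (nat_lit 0xe1435563546)) e
 (c (a (nat_lit 0x193b9d5bbb85)) e
 (c (a (nat_lit 0x1112d1111105)) e
 (c (a (nat_lit 0x1c0240c07bc1)) e
 (c (a (nat_lit 0x100804df262)) e
 (c (a (nat_lit 0xaeaf1b3f883)) e
 (c z e
 (c (a (nat_lit 0x52993024042)) e
 (c (a (nat_lit 0xb14c4210002)) e
 (c (a (nat_lit 0x16c340000002)) e e)))))))))))))))
 (c (nat_lit 1)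
 (c (a (nat_lit 0x1cc3432321a3))
 (c (a (nat_lit 0x202081209686)) e
 (c (a (nat_lit 0xc1c0ccd84ba6)) e e))
 (c (a (nat_lit 0x202034e7c3))
 (c (a (nat_lit 0x403b2e543e927)) e e)
 (c (a (nat_lit 0xd0fb2513026)) e
 (c z e
 (c (a (nat_lit 0x1b1859f817e5)) e
 (c (a (nat_lit 0x1b9edb5b1ae4)) e
 (c (a (nat_lit 0x1472b2b29245)) e
 (c (a (nat_lit 0x3a361439d81)) e
 (c (a (nat_lit 0xa0208dd902)) e
 (c z e
 (c (b (nat_lit 0x1fe4d0806282)) e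
 (c (a (nat_lit 0x954a246c182)) e
 (c (a (nat_lit 0x1865e5400002)) e
 (c (a (nat_lit 0x14000000001)) e e))))))))))))))
 (c (a (nat_lit 0x20202021))
 (c (a (nat_lit 0x62933aed084))
 (c (a (nat_lit 0x52be9e2ec7265)) e
 (c (a (nat_lit 0x114887ef09e007)) e e))
 (c z e
 (c (a (nat_lit 0x1dddbfbdfde5)) e
 (c (a (nat_lit 0x137553b39385)) e
 (c (a (nat_lit 0xb8ab2929086)) e
 (c (a (nat_lit 0xdedf7550d26)) e
 (c (a (nat_lit 0x1e81a14e7b02)) e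
 (c z e
 (c (a (nat_lit 0x36b11a0a0c3)) e
 (c (a (nat_lit 0xa30c0202683)) e
 (c (a (nat_lit 0x10e020406003)) e
 (c (a (nat_lit 0x22060000001)) e e))))))))))))
 (c (a (nat_lit 0x202021))
 (c (a (nat_lit 0xf2f504f2f05)) e
 (c (a (nat_lit 0x1ade9b3ada64)) e
 (c (a (nat_lit 0x1472b2b28205)) e
 (c (a (nat_lit 0x1cfd1cf7c505)) e
 (c z e
 (c (b (nat_lit 0x7ff3d71344)) e
 (c (b (nat_lit 0x1fe531a06002)) e
 (c (a (nat_lit 0x6b401006182)) e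
 (c (a (nat_lit 0x1420a081c002)) e
 (c (a (nat_lit 0xc6ba7400001)) e
 (c (a (nat_lit 0x42000000001)) e e)))))))))))
 (c (a (nat_lit 0x21))
 (c (a (nat_lit 0x106ececea6e4)) e
 (c (a (nat_lit 0x171757280245)) e
 (c z e
 (c z e
 (c (b (nat_lit 0x1feb17c02002)) e
 (c (a (nat_lit 0xdba80e78202)) e
 (c (a (nat_lit 0x1043a2c0a803)) e
 (c (a (nat_lit 0x94def4d8001)) e
 (c (a (nat_lit 0x2e260000001)) e e)))))))))
 (c (a (nat_lit 0x20202021))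
 (c (a (nat_lit 0x1e81c1a587e3)) e
 (c z e
 (c (b (nat_lit 0x1fe996a08102)) e
 (c (a (nat_lit 0x9d700c14002)) e
 (c (a (nat_lit 0x15a48180be02)) e
 (c (a (nat_lit 0x20a0e0e0a1)) e
 (c (a (nat_lit 0xa0600001)) e
 (c (a (nat_lit 0x6000000001)) e e))))))))
 (c (a (nat_lit 0x20202001))
 (c (a (nat_lit 0xb8d708a2a83)) e
 (c (a (nat_lit 0xcb980604082)) e
 (c (a (nat_lit 0xce0a020d2a3)) e
 (c (a (nat_lit 0x120404040e1)) e
 (c (a (nat_lit 0x4080808001)) e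
 (c (a (nat_lit 0x20000001)) e e))))))
 (c (a (nat_lit 0x20202021))
 (c (a (nat_lit 0x6e0a0207443)) e
 (c (a (nat_lit 0x2060602061)) e
 (c (a (nat_lit 0x20402001)) e
 (c (a (nat_lit 0x2040200001)) e
 (c (nat_lit 1) e e)))))
 (c (a (nat_lit 0x20202021))
 (c (a (nat_lit 0x40680204021)) e
 (c (a (nat_lit 0xce040802001)) e
 (c (a (nat_lit 0x8060000001)) e e)))
 (c (a (nat_lit 0x20202021))
 (c (a (nat_lit 0x2040200001)) e
 (c (a (nat_lit 0x6000000001)) e e))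
 (c (a (nat_lit 0x60606061)) e
 (c (a (nat_lit 0x20202021)) e
 (c (a (nat_lit 0xccccccb01)) e
 (c (a (nat_lit 0x404033ce2)) e
 (c (a (nat_lit 0xe0c410c5)) e
 (c (a (nat_lit 0x3e7340385)) e
 (c (a (nat_lit 0x592620205)) e
 (c (a (nat_lit 0x1080202025)) e
 (c (a (nat_lit 0xa0808021)) e
 (c (a (nat_lit 0xe0e029a1)) e
 (c (a (nat_lit 0x40251462)) e e))))))))))))))))))))))) Tr.c Tr.e (nat_lit 0) C.cx C.cy
noncomputable def C260 : Tr := beta% (fun (c : Nat → Tr → Tr → Tr) (e : Tr) (z : Nat) (a b : Nat → Nat) =>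
 (c (a (nat_lit 0x40202041))
 (c (a (nat_lit 0x6060606061))
 (c (a (nat_lit 0x19795bf8383625))
 (c z e
 (c (a (nat_lit 0x139435fed5146e26)) e
 (c (a (nat_lit 0xcab158e09456e26)) e
 (c (a (nat_lit 0x86a83e8c83367c7)) e
 (c (a (nat_lit 0x7a60544d58ae267)) e
 (c (a (nat_lit 0x7e7065729486787)) e
 (c (a (nat_lit 0xeaa79f3506d73e6)) e
 (c (a (nat_lit 0xd3b53eb34ca6006)) e e))))))))
 (c (a (nat_lit 0xd740aeae94626))
 (c (a (nat_lit 0x11317e5552671666)) e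
 (c (a (nat_lit 0x7b64fea208c0a07)) e
 (c (a (nat_lit 0xa2466c47186e448)) e
 (c (a (nat_lit 0x726a4532d068568)) e
 (c (a (nat_lit 0x801953a8b0a06e7)) e
 (c (a (nat_lit 0x10d7a8ea3c96587)) e
 (c (a (nat_lit 0xb1d6471e7c00006)) e e)))))))
 (c (a (nat_lit 0x11870746806065))
 (c (a (nat_lit 0x12abe6e10a2289c6)) e
 (c (a (nat_lit 0x4ad4d12e2cc2e27)) e
 (c z e
 (c z e
 (c (a (nat_lit 0x2d542811a9a007)) e
 (c (a (nat_lit 0x186b2ebc0000006)) e e))))))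
 (c (a (nat_lit 0x1c3a6420404963))
 (c (a (nat_lit 0xc0d7126c9282787)) e
 (c z e
 (c (a (nat_lit 0x1dd0a3a1a88e0607)) e
 (c (a (nat_lit 0x1474725ff0600006)) e e))))
 (c (a (nat_lit 0x126366a048a063))
 (c (a (nat_lit 0x1ea0232d142aeea6)) e
 (c (a (nat_lit 0xc834850cb472007)) e
 (c (a (nat_lit 0x7a550c640000007)) e e)))
 (c (a (nat_lit 0xfb0f0f74ba124))
 (c z e
 (c (a (nat_lit 0x552a9c000000007)) e e))
 (c (a (nat_lit 0x9a9b1a88a37a4))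
 (c (a (nat_lit 0x15c7a00000000006)) e e)
 (c z e
 (c (a (nat_lit 0x1232139a12f385)) e
 (c (a (nat_lit 0x1e5322dc560e4)) e
 (c (a (nat_lit 0x330592b6e28e4)) e
 (c (a (nat_lit 0xdf050b26f8ec5)) e
 (c (a (nat_lit 0x22b8054044)) e
 (c (a (nat_lit 0x5a711a842e005)) e e))))))))))))))
 (c (a (nat_lit 0x2020002021))
 (c (a (nat_lit 0x1208c90925c5c6))
 (c (a (nat_lit 0x92e6e6922107366)) e
 (c (a (nat_lit 0x10522aa0314687a7)) e
 (c (a (nat_lit 0x9e603f1edc1c208)) e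
 (c (a (nat_lit 0xa849f36a7c4c547)) e
 (c z e
 (c (a (nat_lit 0x1318e7e229270007)) e
 (c (a (nat_lit 0x1240a8a3a0000007)) e e)))))))
 (c (a (nat_lit 0x1830c3002023e4))
 (c (a (nat_lit 0x1551a939277334a7)) e
 (c z e
 (c z e
 (c z e
 (c (a (nat_lit 0x1017c90e2a800007)) e e)))))
 (c (a (nat_lit 0x18230340440324))
 (c z e
 (c z e
 (c (a (nat_lit 0x1820630dd7b58007)) e
 (c (a (nat_lit 0x960d4b400000007)) e e))))
 (c (a (nat_lit 0x1070705336e3c5)) e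
 (c (a (nat_lit 0x18181afa497a05))
 (c (a (nat_lit 0x113d9f8b20000006)) e e)
 (c z e
 (c z e
 (c (a (nat_lit 0x5b2afc727cbc5)) e
 (c (a (nat_lit 0x124f9372651b25)) e
 (c (a (nat_lit 0x16989bf71a33e6)) e
 (c (a (nat_lit 0x14d6b6d917b6e7)) e
 (c (a (nat_lit 0x6069109c922c6)) e e))))))))))))
 (c (a (nat_lit 0x4040404041))
 (c (a (nat_lit 0x1206c68068a002))
 (c (a (nat_lit 0xc4975a8ab71db26)) e
 (c z e
 (c z e
 (c z e
 (c (a (nat_lit 0x138cf7a9c0000007)) e e)))))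
 (c (a (nat_lit 0x201c1c263b3a5)) e
 (c (b (nat_lit 0x403fffee5125)) e
 (c z e
 (c (a (nat_lit 0x50f3416cfb5c6)) e
 (c z e
 (c (b (nat_lit 0xa701ff5ee7585)) e
 (c (a (nat_lit 0x17139b1576ad06)) e
 (c z e
 (c z e
 (c (a (nat_lit 0x2b0ad85028006)) e
 (c (a (nat_lit 0x10ad8280000006)) e e))))))))))))
 (c (a (nat_lit 0x20002001))
 (c (a (nat_lit 0x8c8c9acb46145))
 (c (a (nat_lit 0x9363bb33872ef25)) e e)
 (c z e
 (c z e
 (c (a (nat_lit 0x16981c0020de25)) e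
 (c z e
 (c z e
 (c z e
 (c z e
 (c (b (nat_lit 0xb303ffb9b0e66)) e
 (c (a (nat_lit 0x190a5e8ec00006)) e
 (c (a (nat_lit 0x16bf8000000005)) e e)))))))))))
 (c (a (nat_lit 0x20202036e5))
 (c (a (nat_lit 0xb4b9f7f5d6024)) e
 (c (a (nat_lit 0x8cb1b0214105)) e
 (c (a (nat_lit 0x10dbb720868b64)) e
 (c (a (nat_lit 0x105090702885c6)) e
 (c z e
 (c z e
 (c (a (nat_lit 0x74dd1c86cfd66)) e
 (c (a (nat_lit 0xc53506ddbe006)) e
 (c (a (nat_lit 0x1b290520000004)) e e)))))))))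
 (c (a (nat_lit 0x3a3a3b57006))
 (c (a (nat_lit 0xad26fbbe90084)) e
 (c (a (nat_lit 0x13b0d7360c6c05)) e
 (c z e
 (c z e
 (c (a (nat_lit 0x149933ae409ac6)) e
 (c (a (nat_lit 0x1c1bad139de0e6)) e
 (c (a (nat_lit 0x1b14957de00006)) e
 (c (a (nat_lit 0x13802000000002)) e e))))))))
 (c (a (nat_lit 0x3a3b10e8a46))
 (c (a (nat_lit 0x16983d92aebd45)) e
 (c (a (nat_lit 0xef02eee70cca7)) e
 (c (a (nat_lit 0x9f091b2057246)) e
 (c (a (nat_lit 0xdadae6c127ac7)) e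
 (c (a (nat_lit 0x7478852c80008)) e
 (c (a (nat_lit 0x1040fda0000006)) e e))))))
 (c (a (nat_lit 0x746f18de8e6))
 (c z e
 (c (a (nat_lit 0x284c363f20e48)) e e))
 (c (a (nat_lit 0x33351e7a7a5))
 (c (a (nat_lit 0xa8886772abbc6)) e
 (c (a (nat_lit 0xc8c77506d6007)) e e))
 (c (a (nat_lit 0x19de28688884))
 (c (a (nat_lit 0xf22464600006)) e e)
 (c (a (nat_lit 0x1520602025c4)) e
 (c (a (nat_lit 0x2020967922)) e
 (c (a (nat_lit 0x1999b0318723)) e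
 (c (a (nat_lit 0x1489eb0b4204)) e
 (c (a (nat_lit 0x1afd11eb4b43)) e
 (c (a (nat_lit 0x11a6e0202923)) e
 (c (a (nat_lit 0x3836044d2e4)) e
 (c (a (nat_lit 0x2042ff6c03)) e
 (c (a (nat_lit 0x6f05b0e4)) e e)))))))))))))))))))
 (c (a (nat_lit 0x60606061))
 (c (a (nat_lit 0x20002001))
 (c (a (nat_lit 0x105123614120e2))
 (c z e
 (c (a (nat_lit 0x11a9a3d6a747c5c6)) e
 (c (a (nat_lit 0x3023bd144232486)) e
 (c (a (nat_lit 0xafe6f71cbcbeca6)) e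
 (c (a (nat_lit 0x157405a1896e8825)) e
 (c (a (nat_lit 0x1126a28566000006)) e
 (c (a (nat_lit 0x142144000000002)) e e)))))))
 (c (a (nat_lit 0x1f662040607882))
 (c (a (nat_lit 0x11c95f2710afcd86)) e
 (c z e
 (c z e
 (c z e
 (c (a (nat_lit 0x15e5752d80000006)) e e)))))
 (c (a (nat_lit 0x6e08060bba242)) e
 (c (a (nat_lit 0x13b39397b8ce85)) e
 (c z e
 (c z e
 (c (a (nat_lit 0xc74db598a6964)) e
 (c (a (nat_lit 0xb70c9856688e5)) e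
 (c (a (nat_lit 0x15af92a74262e5)) e
 (c (a (nat_lit 0xe2f8f4c502966)) e
 (c (a (nat_lit 0x1898789a581a87)) e
 (c (a (nat_lit 0xff0988e6be005)) e e))))))))))))
 (c (a (nat_lit 0x6060606061))
 (c (a (nat_lit 0x521c1a1914023))
 (c (a (nat_lit 0xad906e7f52483a6)) e e)
 (c z e
 (c z e
 (c z e
 (c z e
 (c (a (nat_lit 0x4c5f87b4f2c85)) e
 (c (a (nat_lit 0x6ed6f47c93166)) e
 (c (a (nat_lit 0x1536ee65ef00a6)) e
 (c z e
 (c z e
 (c (a (nat_lit 0x11fbd64e000006)) e e)))))))))))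
 (c (a (nat_lit 0x2020203026))
 (c z e
 (c z e
 (c z e
 (c (a (nat_lit 0x24ea0c879666)) e
 (c z e
 (c z e
 (c z e
 (c z e
 (c (a (nat_lit 0x137a367eb64007)) e
 (c (a (nat_lit 0x136024e0000006)) e e))))))))))
 (c (a (nat_lit 0x1212137fb05))
 (c z e
 (c (a (nat_lit 0x20ee9b858526)) e
 (c z e
 (c z e
 (c z e
 (c (a (nat_lit 0x7e5e62801b2a7)) e
 (c z e
 (c (a (nat_lit 0x14d65e15c00007)) e
 (c (a (nat_lit 0x108e6000000005)) e e)))))))))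
 (c (a (nat_lit 0x2e2f0916587))
 (c (b (nat_lit 0x1c6b5695fe286)) e
 (c (a (nat_lit 0x12dc7b1631d386)) e
 (c z e
 (c z e
 (c z e
 (c (a (nat_lit 0xf0df1ca056006)) e
 (c (a (nat_lit 0x179c17a0000007)) e
 (c (a (nat_lit 0x13400000000005)) e e))))))))
 (c (a (nat_lit 0x47f97ca25e6))
 (c (a (nat_lit 0xf9457f35173a6)) e
 (c z e
 (c (a (nat_lit 0x4e7c7a81d7068)) e
 (c (a (nat_lit 0x6e447398e42c8)) e
 (c z e
 (c (a (nat_lit 0x14934000000008)) e e))))))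
 (c (a (nat_lit 0x12740702c2c6))
 (c (a (nat_lit 0x787e70c52a767)) e
 (c (a (nat_lit 0x645897e6d6828)) e
 (c (a (nat_lit 0x1ec3b8f2ae007)) e e)))
 (c (a (nat_lit 0x9f305858585))
 (c (a (nat_lit 0x403d1c4c64128)) e
 (c (a (nat_lit 0x67baaa7200008)) e e))
 (c (a (nat_lit 0x1ec262626284))
 (c (a (nat_lit 0x14e22100000007)) e e)
 (c (a (nat_lit 0x109090911462)) e
 (c (a (nat_lit 0x19393bdbfc87)) e
 (c (a (nat_lit 0x1dd8993b7545)) e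
 (c (a (nat_lit 0xe50c821c183)) e
 (c (a (nat_lit 0x1d4be0202002)) e
 (c (a (nat_lit 0x19c080e09961)) e
 (c (a (nat_lit 0x402310a4)) e
 (c (a (nat_lit 0x8043510aa4)) e e)))))))))))))))))
 (c (nat_lit 1)
 (c (a (nat_lit 0x2020203085))
 (c (a (nat_lit 0x1e1e1fafc67c1))
 (c z e
 (c (a (nat_lit 0x625b367a1234747)) e e))
 (c z e
 (c z e
 (c z e
 (c (a (nat_lit 0x4a567ed081925)) e
 (c (a (nat_lit 0xe30596e4ca005)) e
 (c (a (nat_lit 0x14f87533743526)) e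
 (c (a (nat_lit 0x1c254128dcbf44)) e
 (c (a (nat_lit 0xce6d27877bba6)) e e)))))))))
 (c (a (nat_lit 0x20203069e6))
 (c (a (nat_lit 0xcceb0ed542de6))
 (c z e
 (c (a (nat_lit 0x138d91cca0000008)) e e))
 (c (a (nat_lit 0x869664a570ae7))
 (c (a (nat_lit 0xfb769c000000007)) e e)
 (c z e
 (c z e
 (c z e
 (c (a (nat_lit 0x1433d596b59ee7)) e
 (c (a (nat_lit 0x104e9457f75087)) e e)))))))
 (c (a (nat_lit 0x3233cfe8966))
 (c (a (nat_lit 0x1604572c5c5a7)) e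
 (c z e
 (c z e
 (c z e
 (c (a (nat_lit 0xa4d2c2b6dda47)) e
 (c (a (nat_lit 0x1050556fc18ea6)) e e))))))
 (c (a (nat_lit 0x3afd862246)) e
 (c (a (nat_lit 0x117487426266))
 (c (a (nat_lit 0xeb7cc27a4f666)) e e)
 (c (a (nat_lit 0x16bbe8888884))
 (c z e
 (c (a (nat_lit 0x26579d282e128)) e
 (c (a (nat_lit 0x11c7aee4000008)) e e)))
 (c (a (nat_lit 0x1b47272726e4))
 (c (a (nat_lit 0x3b3e7a2202007)) e
 (c (a (nat_lit 0x12cf83e0000007)) e e))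
 (c (a (nat_lit 0x1a1c360e901))
 (c (a (nat_lit 0x10438000000006)) e e)
 (c (a (nat_lit 0x282b8191d24)) e
 (c z e
 (c (a (nat_lit 0x15519351d1c5)) e
 (c (b (nat_lit 0x1ff920204001)) e
 (c (a (nat_lit 0xe20a0c0d902)) e
 (c (a (nat_lit 0x40404c9263)) e
 (c (a (nat_lit 0x100cd52f303)) e
 (c z e
 (c (b (nat_lit 0x1fe5e6838001)) e
 (c (a (nat_lit 0x20a0000001)) e e))))))))))))))))))
 C259)))) Tr.c Tr.e (nat_lit 0) C.cx C.cy
noncomputable def C261 : Tr := beta% (fun (c : Nat → Tr → Tr → Tr) (e : Tr) (z : Nat) (a b : Nat → Nat) =>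
 (c (a (nat_lit 0x20002001))
 (c (a (nat_lit 0xa3810caeaeae4))
 (c z e
 (c (a (nat_lit 0x302640c3642b86))
 (c (a (nat_lit 0xac78a06c78a6d9cc8)) e
 (c (a (nat_lit 0xd4b09ab6d1413ca68)) e e))
 (c (a (nat_lit 0x4385298030c025)) e
 (c (a (nat_lit 0xf1270f858c48025)) e
 (c (a (nat_lit 0xe3e9436c8a0c9a5)) e
 (c (a (nat_lit 0x12d29eb00b2f7f25)) e
 (c (a (nat_lit 0x5ace4c3878a14c6)) e
 (c (a (nat_lit 0x78344c92b54a4c6)) e
 (c (a (nat_lit 0x3c54b6e31f06006)) e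
 (c (a (nat_lit 0x24751399611a605)) e
 (c (a (nat_lit 0x575056603400006)) e e)))))))))))
 (c (a (nat_lit 0x182726462620e4))
 (c (a (nat_lit 0x10a221e404e72d27))
 (c (a (nat_lit 0x8a8e4a4080d7c0a68)) e e)
 (c (a (nat_lit 0x1e06983eef03666)) e
 (c z e
 (c z e
 (c (a (nat_lit 0xdf0d08e0b929dc8)) e
 (c (a (nat_lit 0xdad26642b925527)) e
 (c (a (nat_lit 0x6a38427d7c2f927)) e
 (c (a (nat_lit 0x665941f5a030da6)) e e))))))))
 (c (a (nat_lit 0x1481616181f922))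
 (c z e
 (c z e
 (c z e
 (c (a (nat_lit 0x116c43c82d718fc7)) e
 (c (a (nat_lit 0xd67cf4f904f6467)) e
 (c (a (nat_lit 0x49c9dc0f05c2e7)) e
 (c z e
 (c z e
 (c (a (nat_lit 0x7f682000000005)) e e)))))))))
 (c (a (nat_lit 0x17d7d7f83dce84))
 (c z e
 (c (a (nat_lit 0x109051745842ea27)) e
 (c (a (nat_lit 0x1dd2cf7899228486)) e
 (c (a (nat_lit 0x1615b2efe5636866)) e
 (c z e
 (c z e
 (c (a (nat_lit 0x18b133a960000006)) e
 (c (a (nat_lit 0xb1200000000004)) e e))))))))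
 (c (a (nat_lit 0x1757777d6f4324))
 (c (a (nat_lit 0xacdefb8ace96ba6)) e
 (c (a (nat_lit 0x8066f9283484be7)) e
 (c z e
 (c z e
 (c (a (nat_lit 0x120e46d12b600007)) e
 (c (a (nat_lit 0x11b16aa000000007)) e
 (c (a (nat_lit 0x1920000000000005)) e e)))))))
 (c (a (nat_lit 0x11d53cf22c4c64))
 (c (a (nat_lit 0xab0968cefae10c7)) e
 (c z e
 (c (a (nat_lit 0x15e0284889428007)) e
 (c (a (nat_lit 0x1e4c3cd180000006)) e
 (c (a (nat_lit 0x1fac200000000006)) e e)))))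
 (c (a (nat_lit 0xdb08240202f44))
 (c (a (nat_lit 0x111048a50b23c366)) e
 (c (a (nat_lit 0x128a79526000006)) e e))
 (c (a (nat_lit 0x112340e61829a4))
 (c (a (nat_lit 0x11ad7e64c0000005)) e e)
 (c (a (nat_lit 0x8470f780eeb45)) e
 (c (a (nat_lit 0x950f9b22fec65)) e
 (c (a (nat_lit 0xed06e8d2c6b66)) e
 (c (a (nat_lit 0x1552f2f331f206)) e
 (c (a (nat_lit 0xd4d8ef3132024)) e
 (c (a (nat_lit 0xe0f53b3b88c24)) e
 (c (a (nat_lit 0x8ed2d3245c2c4)) e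
 (c (b (nat_lit 0xd4d97803fe003)) e e))))))))))))))))
 (c (a (nat_lit 0x2020002021))
 (c (a (nat_lit 0x10d1d191ab6204))
 (c (a (nat_lit 0x3e4a6e78816ec86)) e
 (c (a (nat_lit 0x68929cc785432a7)) e
 (c z e
 (c (a (nat_lit 0x2e408a0234c7108)) e
 (c (a (nat_lit 0xeb2f00cf0facfe8)) e
 (c (a (nat_lit 0xc2744c6f02e4728)) e
 (c (a (nat_lit 0x302e252a434a027)) e e)))))))
 (c (a (nat_lit 0x11f1f9ceeda526))
 (c z e
 (c z e
 (c z e
 (c z e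
 (c (a (nat_lit 0xaed2d38bb84c848)) e
 (c (a (nat_lit 0xccd1ef990e7ce48)) e e))))))
 (c (b (nat_lit 0x19da1fffffffe4)) e
 (c (a (nat_lit 0x188e704cc02005))
 (c (a (nat_lit 0x9919bf8a228ab87)) e
 (c z e
 (c z e
 (c (b (nat_lit 0x16bfea47a988c008)) e e))))
 (c (a (nat_lit 0xffa0480202ee4))
 (c (a (nat_lit 0xe3a26ee4c6ff1c7)) e
 (c (a (nat_lit 0x1fb30a0c0e718b88)) e
 (c (a (nat_lit 0x6722a108aa00008)) e e)))
 (c (a (nat_lit 0x360a08062b1e7))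
 (c (a (nat_lit 0x13062487a9646008)) e
 (c (a (nat_lit 0x1bed7bd740000007)) e e))
 (c (a (nat_lit 0x806123756b07))
 (c (a (nat_lit 0xd564ac000000007)) e e)
 (c (a (nat_lit 0x6cc0c7e31cc67)) e
 (c z e
 (c (a (nat_lit 0x4576d2645a527)) e
 (c (a (nat_lit 0x1585a564836067)) e
 (c (a (nat_lit 0x17d79b58ae0c45)) e
 (c (a (nat_lit 0x3e6881ac6a5)) e
 (c (a (nat_lit 0x749cb5e4a0025)) e e))))))))))))))
 (c (a (nat_lit 0x4040204041))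
 (c (a (nat_lit 0xe912d4e2d2a06))
 (c z e
 (c (a (nat_lit 0x1f5856d040b6d766)) e
 (c (a (nat_lit 0xc6ae18139ef2387)) e
 (c (a (nat_lit 0x7a827704bce0d48)) e
 (c (a (nat_lit 0xc66d15303a5eac7)) e e)))))
 (c z e
 (c (a (nat_lit 0x109284c2a2a005)) e
 (c (a (nat_lit 0x1f14d2f3f02da5))
 (c (a (nat_lit 0x1b8d5adbf03334a7)) e
 (c z e
 (c z e
 (c (a (nat_lit 0x1245600000000007)) e e))))
 (c (a (nat_lit 0x112f3036c5dc05)) e
 (c (a (nat_lit 0xb4beb8af00f07))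
 (c (a (nat_lit 0x15c9e00000000007)) e e)
 (c z e
 (c z e
 (c (a (nat_lit 0x8f1700be42a66)) e
 (c (a (nat_lit 0x18f79c55d2eee6)) e
 (c (a (nat_lit 0x175897d7b54d47)) e
 (c (b (nat_lit 0xf627553ffe7c5)) e e))))))))))))
 (c (a (nat_lit 0x4040404041))
 (c (a (nat_lit 0x1b10c4a0606503))
 (c (a (nat_lit 0x3a7858ba5641866)) e e)
 (c (a (nat_lit 0x7828182a27826))
 (c (a (nat_lit 0xec869edd5692768)) e
 (c (a (nat_lit 0x40027362ea7c988)) e e))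
 (c (a (nat_lit 0x3e2e38676c946))
 (c (a (nat_lit 0x649b83675b0ab67)) e e)
 (c (a (nat_lit 0x545e6b6115226)) e
 (c z e
 (c z e
 (c (a (nat_lit 0x1231b50b1389e6)) e
 (c (a (nat_lit 0xef24af18f6026)) e
 (c z e
 (c z e
 (c z e
 (c (a (nat_lit 0x1a126640400005)) e
 (c (a (nat_lit 0x18460000000005)) e e)))))))))))))
 (c (a (nat_lit 0x2020202021))
 (c (a (nat_lit 0x9482a6a3091c5))
 (c (a (nat_lit 0x4e8275106468666)) e
 (c (a (nat_lit 0x4c7cfb187c56727)) e e))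
 (c (a (nat_lit 0xcb00595970fe5))
 (c (a (nat_lit 0xf2f59cf2dc9a007)) e e)
 (c z e
 (c (a (nat_lit 0x246502948686)) e
 (c (a (nat_lit 0x1022133eaa266)) e
 (c (a (nat_lit 0x788d34c08eac7)) e
 (c (a (nat_lit 0xb536e2e494347)) e
 (c z e
 (c z e
 (c (a (nat_lit 0xc9a46e6e66005)) e
 (c (a (nat_lit 0x13802020000005)) e e)))))))))))
 (c (a (nat_lit 0x20002001))
 (c (a (nat_lit 0x18139777f5f426))
 (c (a (nat_lit 0x18daf85a0ac00006)) e e)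
 (c (a (nat_lit 0x31210ea00e684)) e
 (c (a (nat_lit 0x1010ec406ca0c4)) e
 (c (a (nat_lit 0xb09c890caf326)) e
 (c (a (nat_lit 0xac84f4fd4ac06)) e
 (c (a (nat_lit 0xbea51f0c8a867)) e
 (c z e
 (c (a (nat_lit 0x10d30880268706)) e
 (c (a (nat_lit 0x1e938c8c800005)) e
 (c (a (nat_lit 0x1e202000000003)) e e))))))))))
 (c (a (nat_lit 0x80808096c5))
 (c (a (nat_lit 0x22240e0209405)) e
 (c (a (nat_lit 0x7c66263d51da5)) e
 (c (a (nat_lit 0xc8b8e5bf5ad06)) e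
 (c z e
 (c z e
 (c (a (nat_lit 0x3c4a140249807)) e
 (c (a (nat_lit 0x174b49c04f2005)) e
 (c (a (nat_lit 0xb346700000005)) e
 (c (a (nat_lit 0x1b000000000004)) e e)))))))))
 (c (a (nat_lit 0x4a4a4ba6d45))
 (c (a (nat_lit 0xbec4c46b21b05)) e
 (c z e
 (c z e
 (c (a (nat_lit 0x4887e8136c27)) e
 (c (a (nat_lit 0x40a3a3fc8828)) e
 (c (a (nat_lit 0xb6cb159800007)) e
 (c (a (nat_lit 0x1e086000000005)) e e)))))))
 (c (a (nat_lit 0x7a7a730d205))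
 (c z e
 (c (a (nat_lit 0x2648666f5a8)) e
 (c (a (nat_lit 0x638534a58967)) e e)))
 (c (a (nat_lit 0x6c252120625))
 (c (a (nat_lit 0x5a98b0c3b7386)) e
 (c (a (nat_lit 0xaadbbd7928e07)) e e))
 (c (a (nat_lit 0xd0cdc14145))
 (c (a (nat_lit 0x5d387a3842007)) e e)
 (c (a (nat_lit 0x1258c0404044)) e
 (c (a (nat_lit 0x184020203044)) e
 (c (a (nat_lit 0x202b11c4)) e
 (c (a (nat_lit 0x9494ef22de5)) e
 (c (a (nat_lit 0x48fd64da644)) e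
 (c (a (nat_lit 0xe318b698985)) e
 (c (a (nat_lit 0x10a4a0a0c664)) e
 (c (a (nat_lit 0x10a0c1378002)) e
 (c (a (nat_lit 0x28339a0ed82)) e
 (c (a (nat_lit 0xdf94c92e803)) e e)))))))))))))))))))))) Tr.c Tr.e (nat_lit 0) C.cx C.cy
noncomputable def C262 : Tr := beta% (fun (c : Nat → Tr → Tr → Tr) (e : Tr) (z : Nat) (a b : Nat → Nat) =>
 (c (a (nat_lit 0x20002001))
 (c (a (nat_lit 0x134bf53882805))
 (c (a (nat_lit 0x62f589d30cb4c4)) e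
 (c (a (nat_lit 0x25164e0607b0e7))
 (c (a (nat_lit 0x15f28fb14b4d351dc8)) e e)
 (c z e
 (c (a (nat_lit 0x8d397339cd626a6)) e
 (c (a (nat_lit 0xb0b75702f2accc7)) e
 (c (a (nat_lit 0x96c0bb8b1ec5206)) e
 (c z e
 (c (a (nat_lit 0x3c3c3c466a1d228)) e
 (c (a (nat_lit 0xc89b25c8c16fb06)) e
 (c (a (nat_lit 0x4c7ab64e8c690a7)) e
 (c (a (nat_lit 0xa0eda256406e007)) e e)))))))))))
 (c (a (nat_lit 0x6b164c0404046))
 (c (a (nat_lit 0x6b76de667ae5167))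
 (c (a (nat_lit 0x7692784a5684eb069)) e e)
 (c z e
 (c z e
 (c z e
 (c z e
 (c (a (nat_lit 0x9ae2c87651119e8)) e
 (c (a (nat_lit 0x8454524e6f869e8)) e e)))))))
 (c (a (nat_lit 0x14c761a1a1a005))
 (c z e
 (c z e
 (c (a (nat_lit 0x1a285e4a3c3f348)) e
 (c z e
 (c (b (nat_lit 0x11137ff2988fc067)) e e)))))
 (c (a (nat_lit 0xf284828c892c3))
 (c z e
 (c (a (nat_lit 0xbabacb1d19ac328)) e
 (c (a (nat_lit 0x10d3d26ef46aa9a8)) e
 (c z e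
 (c z e
 (c z e
 (c (a (nat_lit 0x2982575a3c00006)) e
 (c (a (nat_lit 0x52db80000000005)) e e))))))))
 (c (a (nat_lit 0x1898989a59f506))
 (c (a (nat_lit 0x8684a6b73444908)) e
 (c (a (nat_lit 0xb2b0b9706452968)) e
 (c z e
 (c z e
 (c (a (nat_lit 0x12a80e270684e008)) e
 (c (a (nat_lit 0x9d39c0780000007)) e
 (c (a (nat_lit 0x196e200000000007)) e e)))))))
 (c (a (nat_lit 0x103054188d6685))
 (c (a (nat_lit 0x104ed9ef0cd572e7)) e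
 (c z e
 (c z e
 (c (a (nat_lit 0x15f6adb689800007)) e
 (c (a (nat_lit 0xe5dcce000000007)) e
 (c (a (nat_lit 0x1900000000000006)) e e))))))
 (c (a (nat_lit 0xb0c9087002085))
 (c z e
 (c (a (nat_lit 0x1bc263652662e008)) e e))
 (c (a (nat_lit 0x11d869c306d5e4))
 (c (a (nat_lit 0x472bf7a3c00006)) e e)
 (c (a (nat_lit 0xdc669f3190ee5)) e
 (c (a (nat_lit 0x647d199302f25)) e
 (c (a (nat_lit 0xdd1f3cf300e07)) e
 (c z e
 (c (a (nat_lit 0x17aef8f392b125)) e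
 (c (a (nat_lit 0x5cfae0cec9245)) e
 (c (a (nat_lit 0x8e807876a52a6)) e
 (c (a (nat_lit 0x5e5656850a306)) e e))))))))))))))))
 (c (a (nat_lit 0x20002001))
 (c (a (nat_lit 0x170181a1616024))
 (c (a (nat_lit 0x20802182ea17c5)) e
 (c (a (nat_lit 0x60202473ece7))
 (c (a (nat_lit 0x444804463703e6687)) e e)
 (c z e
 (c (a (nat_lit 0x55f20cc97558e7)) e
 (c (a (nat_lit 0x46604e545059029)) e
 (c (a (nat_lit 0xf4e4a276bfddb27)) e
 (c (a (nat_lit 0x445052397f67047)) e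
 (c (b (nat_lit 0x4a42524fa5fe507)) e e))))))))
 (c (a (nat_lit 0x19b6967690caa5)) e
 (c (a (nat_lit 0x127257af0b8445)) e
 (c z e
 (c z e
 (c (a (nat_lit 0x102de9652307c5))
 (c (a (nat_lit 0x161d3313672b6427)) e
 (c (a (nat_lit 0x14b06d8e26e00008)) e e))
 (c (a (nat_lit 0x4c2c1e0e498e6))
 (c (a (nat_lit 0x11cb17a5a0000007)) e e)
 (c (a (nat_lit 0x2c3a3c67047e7)) e
 (c z e
 (c z e
 (c (a (nat_lit 0x117773f2710687)) e
 (c (a (nat_lit 0x1b5472900dcd86)) e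
 (c (a (nat_lit 0x7254425b1c126)) e
 (c (a (nat_lit 0x62566d2c20386)) e e))))))))))))))
 (c (a (nat_lit 0x2020202021))
 (c (a (nat_lit 0x13b393c9656684))
 (c z e
 (c z e
 (c (a (nat_lit 0x120344dec8d8807)) e
 (c z e
 (c (a (nat_lit 0x70fd13e8c206066)) e e)))))
 (c z e
 (c z e
 (c (a (nat_lit 0x18beb72f06e004))
 (c (a (nat_lit 0x12d402238264e806)) e e)
 (c (a (nat_lit 0x1c144c88433224)) e
 (c (a (nat_lit 0x6634306ea37c5))
 (c (a (nat_lit 0x10dd8f8000000007)) e e)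
 (c z e
 (c z e
 (c z e
 (c z e
 (c (a (nat_lit 0x1b1ab8f631f4c7)) e
 (c (a (nat_lit 0x18d189b6bcc245)) e e))))))))))))
 (c (a (nat_lit 0x4040404041))
 (c z e
 (c (a (nat_lit 0x1b524bab0b84e4))
 (c z e
 (c (a (nat_lit 0x13f19097df9673e7)) e e))
 (c (a (nat_lit 0x16d78f6fe13024))
 (c (a (nat_lit 0x11e7b199aef79145)) e e)
 (c (a (nat_lit 0x1209d0a1e9e084)) e
 (c z e
 (c z e
 (c (a (nat_lit 0x82b0996975ae6)) e
 (c (a (nat_lit 0x569951616eb26)) e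
 (c z e
 (c z e
 (c z e
 (c z e
 (c (a (nat_lit 0x14d0ae40000006)) e e)))))))))))))
 (c (a (nat_lit 0x4040404041))
 (c (a (nat_lit 0x1e1018f72dd3e3))
 (c (a (nat_lit 0x88714e94ba6e026)) e
 (c (a (nat_lit 0x108e28edd2cd85e7)) e e))
 (c (a (nat_lit 0x17f92a26518364))
 (c (a (nat_lit 0x5e3ec9dd9e7e1a6)) e e)
 (c z e
 (c z e
 (c (a (nat_lit 0x1e4c4a150d766)) e
 (c (a (nat_lit 0x464e554b89506)) e
 (c (a (nat_lit 0x5685152b08b47)) e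
 (c z e
 (c z e
 (c z e
 (c (a (nat_lit 0x10cf92ea600007)) e
 (c (a (nat_lit 0x1b712000000006)) e e))))))))))))
 (c (a (nat_lit 0x2020002021))
 (c (a (nat_lit 0x1f25c4d5778c43)) e
 (c z e
 (c (a (nat_lit 0x35b5cc61de43)) e
 (c (a (nat_lit 0x1e2412087b2c6)) e
 (c (a (nat_lit 0x402e2069370c6)) e
 (c (a (nat_lit 0x3a56890aba2e7)) e
 (c z e
 (c z e
 (c (a (nat_lit 0x13912aa8256006)) e
 (c (a (nat_lit 0x1aee64c0000005)) e
 (c (a (nat_lit 0x13600000000004)) e e)))))))))))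
 (c (a (nat_lit 0x2020202021))
 (c (a (nat_lit 0x83742a0c078c1)) e
 (c (a (nat_lit 0x90767a5623c65)) e
 (c (a (nat_lit 0x3e40381b1f1c6)) e
 (c z e
 (c z e
 (c z e
 (c (a (nat_lit 0x96a84c0403187)) e
 (c (a (nat_lit 0x14a928a6c00006)) e
 (c (a (nat_lit 0x10072000000004)) e e)))))))))
 (c (a (nat_lit 0x20202035a4))
 (c (a (nat_lit 0xdf1ada3ce3c24)) e
 (c z e
 (c z e
 (c z e
 (c (a (nat_lit 0x20e1828370c9)) e
 (c (a (nat_lit 0x9096a28b0c008)) e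
 (c (a (nat_lit 0x1129c2e0000005)) e e)))))))
 (c (a (nat_lit 0x202036cfc4))
 (c z e
 (c z e
 (c (a (nat_lit 0xc263956267)) e e)))
 (c (a (nat_lit 0x405cd41044))
 (c (a (nat_lit 0x74a151cf8b925)) e
 (c (a (nat_lit 0x82a307d508da7)) e e))
 (c (b (nat_lit 0x2714ca7bfe5))
 (c (a (nat_lit 0x1c75527a381c7)) e e)
 (c (a (nat_lit 0x140fee632305)) e
 (c (a (nat_lit 0x175600202004)) e
 (c (a (nat_lit 0x14c020202a24)) e
 (c (a (nat_lit 0x203438c3)) e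
 (c (a (nat_lit 0x8e913357624)) e
 (c z e
 (c (a (nat_lit 0x113272ce0e45)) e
 (c (a (nat_lit 0x117340416063)) e
 (c (a (nat_lit 0x12e041202b43)) e
 (c (a (nat_lit 0xaec2b5652c3)) e e)))))))))))))))))))))) Tr.c Tr.e (nat_lit 0) C.cx C.cy
noncomputable def C263 : Tr := beta% (fun (c : Nat → Tr → Tr → Tr) (e : Tr) (z : Nat) (a b : Nat → Nat) =>
 (c (a (nat_lit 0x20002001))
 (c (b (nat_lit 0x203ff06a23a6))
 (c (a (nat_lit 0x6ea6c0df20ce8c6)) e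
 (c z e
 (c z e
 (c z e
 (c (a (nat_lit 0xf2c2a7c4d31c7a6)) e
 (c (a (nat_lit 0xd4ceeae346fa8e6)) e
 (c z e
 (c z e
 (c (a (nat_lit 0xceb0ace8e4d3266)) e
 (c (a (nat_lit 0xbc76da909b3f1e6)) e
 (c (a (nat_lit 0x665c650436483a7)) e e)))))))))))
 (c (a (nat_lit 0x16d930ac64607)) e
 (c (b (nat_lit 0x17be7fe0202026))
 (c z e
 (c z e
 (c z e
 (c (a (nat_lit 0x385f56ee44b0367)) e e))))
 (c (a (nat_lit 0x16008020202945)) e
 (c (a (nat_lit 0x60040203ed804))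
 (c (a (nat_lit 0x34968cd1c0e28c7)) e
 (c (a (nat_lit 0xa68c9914d8644e8)) e
 (c z e
 (c z e
 (c z e
 (c (b (nat_lit 0x1ff08c98e5a00007)) e
 (c (a (nat_lit 0x1f98ae8000000006)) e e)))))))
 (c (a (nat_lit 0x787a7b8f8f625))
 (c (a (nat_lit 0x10cc6d596d9034c7)) e
 (c z e
 (c z e
 (c z e
 (c (a (nat_lit 0xbeab26900000008)) e
 (c (a (nat_lit 0x14b0c00000000006)) e e))))))
 (c (a (nat_lit 0x98f1dbd9713e5)) e
 (c z e
 (c z e
 (c (a (nat_lit 0x9ed6eb27156c6)) e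
 (c (a (nat_lit 0xc2cb02f312b27)) e
 (c z e
 (c z e
 (c (a (nat_lit 0x5f026c2006046)) e
 (c (a (nat_lit 0x1fed0380602c45)) e
 (c (a (nat_lit 0x19e6e0809822a4)) e e))))))))))))))))
 (c (a (nat_lit 0x2020202021))
 (c (a (nat_lit 0x17ff91cae9a9a5))
 (c (a (nat_lit 0x11e8ccec87e525e5)) e
 (c (a (nat_lit 0x32402a241c05227)) e
 (c z e
 (c z e
 (c z e
 (c (a (nat_lit 0x3c42aa445cab767)) e
 (c (a (nat_lit 0x7ca672ba8903587)) e
 (c (a (nat_lit 0xa6728684930a427)) e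
 (c (a (nat_lit 0xf0f0a4486d8a6c6)) e e)))))))))
 (c (a (nat_lit 0x14ecec0b4b4986))
 (c (a (nat_lit 0x30421c3e02c70e7)) e
 (c z e
 (c z e
 (c z e
 (c z e
 (c (a (nat_lit 0x342e5e31e4eeda8)) e e))))))
 (c (a (nat_lit 0xb7190d12ac003)) e
 (c (a (nat_lit 0x12d2d7f773d9c5))
 (c z e
 (c z e
 (c z e
 (c z e
 (c z e
 (c (a (nat_lit 0x154ff84620000007)) e e))))))
 (c z e
 (c z e
 (c (a (nat_lit 0x16b5bb04605ac5))
 (c (a (nat_lit 0x15d0f11386000007)) e e)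
 (c z e
 (c z e
 (c z e
 (c z e
 (c (a (nat_lit 0x14f9f775518266)) e
 (c (a (nat_lit 0x19f4d0eca80ec5)) e
 (c (a (nat_lit 0x1a55f20d743125)) e e))))))))))))))
 (c (a (nat_lit 0x20002001))
 (c (a (nat_lit 0x196eaeaea2a103))
 (c z e
 (c z e
 (c z e
 (c z e
 (c z e
 (c (a (nat_lit 0x3420116ea688788)) e e))))))
 (c (a (nat_lit 0x193939714c15a4)) e
 (c z e
 (c z e
 (c z e
 (c z e
 (c z e
 (c z e
 (c z e
 (c z e
 (c z e
 (c (a (nat_lit 0xc9c8564e0d65)) e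
 (c (a (nat_lit 0x5e4524a498065)) e e)))))))))))))
 (c (a (nat_lit 0x4040404041))
 (c (a (nat_lit 0x1959761615e4a5))
 (c z e
 (c z e
 (c z e
 (c (a (nat_lit 0xfb0bdfaaed98066)) e e))))
 (c z e
 (c z e
 (c z e
 (c z e
 (c z e
 (c z e
 (c z e
 (c z e
 (c z e
 (c z e
 (c z e
 (c (a (nat_lit 0xffe06a6c00005)) e
 (c (a (nat_lit 0x17402000000005)) e e))))))))))))))
 (c (a (nat_lit 0x4040404041))
 (c (a (nat_lit 0x12b136aa0f8e25))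
 (c (a (nat_lit 0x8f4925791b33046)) e
 (c (a (nat_lit 0x77097efcecb0c07)) e
 (c (a (nat_lit 0x1611578c11aa4447)) e e)))
 (c (a (nat_lit 0xeb3e4e78b6206))
 (c (a (nat_lit 0xbd26dc8c729eaa7)) e e)
 (c z e
 (c z e
 (c z e
 (c (a (nat_lit 0x2e4e5a7361506)) e
 (c (a (nat_lit 0x949f17938fc26)) e
 (c z e
 (c z e
 (c z e
 (c (a (nat_lit 0xe512ef52ae007)) e
 (c (a (nat_lit 0x10ae8a60000007)) e
 (c (a (nat_lit 0x10a00000000005)) e e)))))))))))))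
 (c (a (nat_lit 0x20002001))
 (c (a (nat_lit 0x19a06051e72404))
 (c (a (nat_lit 0xeb4a8298c4f4505)) e e)
 (c z e
 (c z e
 (c z e
 (c (a (nat_lit 0x5652461289ba5)) e
 (c (a (nat_lit 0x6860bad11aee7)) e
 (c z e
 (c z e
 (c (a (nat_lit 0x599d8e6ad0625)) e
 (c (a (nat_lit 0x1b5a68c8000005)) e
 (c (a (nat_lit 0x12c0e000000005)) e e)))))))))))
 (c (a (nat_lit 0x4040404041))
 (c z e
 (c (a (nat_lit 0x16d0f0af204a44)) e
 (c z e
 (c z e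
 (c z e
 (c z e
 (c (a (nat_lit 0x11f95b95014f45)) e
 (c (a (nat_lit 0x16592b72478004)) e
 (c (a (nat_lit 0x17a94820000004)) e e)))))))))
 (c (a (nat_lit 0x202021))
 (c (a (nat_lit 0x105393c6030e84)) e
 (c (a (nat_lit 0xeef2d0ab05106)) e
 (c z e
 (c z e
 (c z e
 (c (a (nat_lit 0x9c9b12f0bdcc7)) e
 (c (a (nat_lit 0x20ba42a00003)) e e)))))))
 (c (a (nat_lit 0x202033a5)) e
 (c (a (nat_lit 0x13e925))
 (c (a (nat_lit 0x684c48ff5cc86)) e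
 (c (a (nat_lit 0x4c40f7a6fdfa7)) e e))
 (c (a (nat_lit 0x44458ada7c5))
 (c (a (nat_lit 0x2b9d70df0766)) e e)
 (c (a (nat_lit 0x8f84dcb4205)) e
 (c (a (nat_lit 0x1db331886865)) e
 (c (a (nat_lit 0x13b060202004)) e
 (c (a (nat_lit 0x10c040203ca4)) e
 (c (a (nat_lit 0x203c7be4)) e
 (c (a (nat_lit 0x64654945da5)) e
 (c z e
 (c (a (nat_lit 0xe8e57a1a1a5)) e
 (c (a (nat_lit 0xcb620202245)) e
 (c (a (nat_lit 0x17818163a2c5)) e
 (c (a (nat_lit 0x9e9db142b62)) e e))))))))))))))))))))))) Tr.c Tr.e (nat_lit 0) C.cx C.cy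
noncomputable def C264 : Tr := beta% (fun (c : Nat → Tr → Tr → Tr) (e : Tr) (z : Nat) (a b : Nat → Nat) =>
 (c (a (nat_lit 0x2020202021))
 (c z
 (c (a (nat_lit 0xc4b4b4b54133c82)) e
 (c (a (nat_lit 0xb4b4b7130f7f884))
 (c z e
 (c z e
 (c z e
 (c z e
 (c z e
 (c (a (nat_lit 0x8b7fc056ac069a047)) e e))))))
 (c (a (nat_lit 0x14545737773dda65)) e
 (c z e
 (c z e
 (c z e
 (c z e
 (c z e
 (c (a (nat_lit 0x6c4c3870227f304)) e
 (c z e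
 (c z e
 (c z e
 (c z e
 (c (a (nat_lit 0x324242362607027)) e
 (c (a (nat_lit 0x5848385c6c7f7c6)) e e)))))))))))))))
 (c (a (nat_lit 0x202020203166))
 (c z e
 (c z e
 (c z e
 (c z e
 (c z e
 (c z e
 (c z e
 (c z e
 (c (a (nat_lit 0xbadb106a4550dc5)) e e)))))))))
 (c (a (nat_lit 0x20203e7365))
 (c z e
 (c z e
 (c z e
 (c z e
 (c z e
 (c (a (nat_lit 0x61eeb4ae88a5925)) e
 (c z e
 (c (a (nat_lit 0x1c3e1758eed62504)) e e))))))))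
 (c (a (nat_lit 0x2038724946))
 (c z e
 (c z e
 (c z e
 (c z e
 (c z e
 (c (a (nat_lit 0x8c2ee70c4c18025)) e
 (c (a (nat_lit 0xe316e9145878866)) e
 (c z e
 (c z e
 (c z e
 (c z e
 (c (a (nat_lit 0x442e2f260000007)) e e))))))))))))
 (c (a (nat_lit 0x203532246406))
 (c z e
 (c z e
 (c z e
 (c z e
 (c (b (nat_lit 0x50c1d7fe4eb8dc5)) e
 (c (b (nat_lit 0x12bdd9bffac4e0c4)) e e))))))
 (c (a (nat_lit 0x175d6288564e6))
 (c z e
 (c z e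
 (c z e
 (c (b (nat_lit 0x122a5fffe4858005)) e
 (c (a (nat_lit 0x8ca6548082415a7)) e
 (c (a (nat_lit 0x602a3c541841387)) e e))))))
 (c (a (nat_lit 0x1148e4a3630306))
 (c z e
 (c z e
 (c z e
 (c (a (nat_lit 0x2e70aea4bd84d27)) e e))))
 (c (a (nat_lit 0x1eea26c4e4fc04))
 (c (a (nat_lit 0x37022e22c8a4805)) e e)
 (c (a (nat_lit 0x1c040205793e4))
 (c (a (nat_lit 0x1826402b273e0a6)) e e)
 (c (a (nat_lit 0x20202e8d7565))
 (c (a (nat_lit 0x2a0b1c9a144c407)) e e)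
 (c (a (nat_lit 0x36391d1392a45)) e
 (c z e
 (c z e
 (c z e
 (c z e
 (c (a (nat_lit 0x17e122a6622002)) e
 (c z e
 (c z e
 (c (a (nat_lit 0x5e50425a6b224)) e e)))))))))))))))))))
 (c (a (nat_lit 0x20000001))
 (c (a (nat_lit 0x2020203e7465))
 (c (a (nat_lit 0xa0410364b26684))
 (c z e
 (c z e
 (c z e
 (c z e
 (c z e
 (c (a (nat_lit 0x1c58ae29cac98708c7)) e e))))))
 (c (a (nat_lit 0x22428df8f1de05))
 (c z e
 (c z e
 (c z e
 (c (a (nat_lit 0x1a34e1ca8a022ee7c7)) e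
 (c (a (nat_lit 0x1e9b914fb0ce2f2d88)) e
 (c (a (nat_lit 0x91308490eec4527c8)) e e))))))
 (c z e
 (c z e
 (c z e
 (c (a (nat_lit 0x1249a9e4215957a6)) e
 (c (a (nat_lit 0x2950522cb27ec5)) e
 (c z e
 (c z e
 (c z e
 (c z e
 (c (a (nat_lit 0x709ee852b982887)) e e))))))))))))
 (c (a (nat_lit 0x202032aec807))
 (c (a (nat_lit 0x2a129cd8eb74de6))
 (c z e
 (c z e
 (c z e
 (c (a (nat_lit 0x1d6b2f062337508887)) e
 (c (a (nat_lit 0x14312acecf70adab69)) e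
 (c (a (nat_lit 0x150248928ce8e529a8)) e e))))))
 (c z e
 (c z e
 (c z e
 (c (a (nat_lit 0x9110bcc7a737387)) e
 (c (a (nat_lit 0x13aa102dedf97b06)) e
 (c z e
 (c (a (nat_lit 0x16b06ece31498066)) e
 (c z e
 (c (a (nat_lit 0xf0a2cedcbea92a7)) e
 (c (a (nat_lit 0x8ca890a34a98288)) e e)))))))))))
 (c (a (nat_lit 0x20316f86c427)) e
 (c (a (nat_lit 0x17772e5650507)) e
 (c (b (nat_lit 0x138f1fe0202027)) e
 (c (a (nat_lit 0x14832020202c65))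
 (c z e
 (c (a (nat_lit 0x6676c596d4d3148)) e
 (c (a (nat_lit 0x50b178cad448268)) e
 (c z e
 (c z e
 (c z e
 (c (a (nat_lit 0x166965c2c0000008)) e e)))))))
 (c (a (nat_lit 0x8a080609c9de4))
 (c (a (nat_lit 0x866a703c833c627)) e
 (c z e
 (c z e
 (c z e
 (c (a (nat_lit 0x7794993a7400007)) e
 (c (a (nat_lit 0x1809422000000007)) e e))))))
 (c (a (nat_lit 0x6664bd9f7dbe5)) e
 (c z e
 (c z e
 (c (a (nat_lit 0x8e92facd0cd26)) e
 (c (a (nat_lit 0x12fa393d3855e6)) e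
 (c z e
 (c z e
 (c z e
 (c (a (nat_lit 0xe58acae07c885)) e
 (c (a (nat_lit 0x114546c06130c5)) e e)))))))))))))))))
 C263))) Tr.c Tr.e (nat_lit 0) C.cx C.cy
noncomputable def C265 : Tr := beta% (fun (c : Nat → Tr → Tr → Tr) (e : Tr) (z : Nat) (a b : Nat → Nat) =>
 (c (a (nat_lit 0x2020002021))
 (c (a (nat_lit 0x20203d3bcee5))
 (c (a (nat_lit 0x541c1bd76a916a4)) e
 (c z e
 (c z e
 (c z e
 (c z e
 (c (a (nat_lit 0x3f0ad929a5ca0a5)) e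
 (c z e
 (c z e
 (c z e
 (c z e
 (c (a (nat_lit 0xf27e58792ed6b47)) e e)))))))))))
 (c (a (nat_lit 0x203b1f0dea46)) e
 (c (a (nat_lit 0x174d386650507)) e
 (c (a (nat_lit 0xfd12403232327)) e
 (c (a (nat_lit 0x1140e020202625))
 (c z e
 (c (a (nat_lit 0xdda478df8541b05)) e e))
 (c (a (nat_lit 0x38060204adbe5))
 (c (a (nat_lit 0x126b8d8e2f88ea27)) e
 (c z e
 (c (b (nat_lit 0xd4fafbffff92e06)) e
 (c z e
 (c z e
 (c (a (nat_lit 0x1e9dbb8000000004)) e e))))))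
 (c (a (nat_lit 0x646294e5572c6))
 (c (b (nat_lit 0x4054fdfff4b0285)) e e)
 (c (a (nat_lit 0x7878ff757b3e6)) e
 (c z e
 (c z e
 (c (a (nat_lit 0xcae8d5530ea07)) e
 (c z e
 (c z e
 (c z e
 (c z e
 (c (a (nat_lit 0x1f162802de0c5)) e e))))))))))))))))
 (c (a (nat_lit 0x2020202021))
 (c (a (nat_lit 0x16a3247a66666))
 (c (b (nat_lit 0x1616bfecaf8c4be5)) e
 (c (a (nat_lit 0x1467742ae86bcc86))
 (c (a (nat_lit 0x1b506f11ac06ad0f27)) e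
 (c (a (nat_lit 0x1474856a60ef0d0e67)) e e))
 (c (a (nat_lit 0xe76a25052695a7)) e
 (c z e
 (c (b (nat_lit 0x3835ffff58d5ec5)) e
 (c z e
 (c (a (nat_lit 0x26a3b4d97a039c5)) e
 (c (a (nat_lit 0x1328b87654ce906)) e
 (c (a (nat_lit 0x14152a892902b546)) e e)))))))))
 (c (a (nat_lit 0x11d4a826262627))
 (c (a (nat_lit 0xcb489c5c6c2bd86)) e
 (c z e
 (c z e
 (c z e
 (c z e
 (c (a (nat_lit 0x2c784a62214cc08)) e
 (c (a (nat_lit 0x10adab4914856c87)) e e)))))))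
 (c (a (nat_lit 0x1387c9a9898086))
 (c z e
 (c z e
 (c z e
 (c z e
 (c (a (nat_lit 0x8048520e645b128)) e e)))))
 (c (a (nat_lit 0x11329252460e05)) e
 (c (b (nat_lit 0xf0eb05ff4f465))
 (c (a (nat_lit 0x66a92929fab6666)) e e)
 (c z e
 (c z e
 (c z e
 (c z e
 (c z e
 (c z e
 (c z e
 (c (a (nat_lit 0x19cd11b4cd9205)) e e)))))))))))))
 (c (a (nat_lit 0x2020002021))
 (c (a (nat_lit 0x110bea4a4a4005))
 (c (a (nat_lit 0xcf1820620423745)) e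
 (c z e
 (c z e
 (c z e
 (c z e
 (c (a (nat_lit 0xc401e27409c748)) e
 (c (a (nat_lit 0x6602511e1ab06c7)) e e)))))))
 (c (b (nat_lit 0x244142dfffe1)) e
 (c (b (nat_lit 0x18b8989ff1aa25)) e
 (c (b (nat_lit 0xed07ff253a405)) e
 (c z e
 (c z e
 (c (a (nat_lit 0x650a4586c4f85))
 (c (a (nat_lit 0x1d96a00000000006)) e e)
 (c z e
 (c z e
 (c z e
 (c z e
 (c z e
 (c (a (nat_lit 0x1b81c25548c385)) e
 (c z e
 (c z e
 (c (a (nat_lit 0x1e692000000005)) e e))))))))))))))))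
 (c (a (nat_lit 0x4040404041))
 (c (a (nat_lit 0x14745469f0ca45))
 (c (a (nat_lit 0x6a465e6530fb246)) e e) e)
 (c (a (nat_lit 0x4040404041))
 (c z e
 (c z e
 (c z e
 (c z e
 (c z e
 (c z e
 (c z e
 (c z e
 (c z e
 (c z e
 (c (a (nat_lit 0x1e3d1515d53483)) e
 (c (a (nat_lit 0x114163a0c00002)) e e))))))))))))
 (c (a (nat_lit 0x2020202021))
 (c z e
 (c z e
 (c z e
 (c z e
 (c z e
 (c (a (nat_lit 0x200c18c4df426)) e
 (c z e
 (c z e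
 (c (a (nat_lit 0x646944849a965)) e
 (c (a (nat_lit 0x1b434602c004)) e
 (c (a (nat_lit 0x1ba40380000004)) e e)))))))))))
 (c (a (nat_lit 0x4040404041))
 (c (a (nat_lit 0x128a2ac0404304)) e
 (c z e
 (c z e
 (c z e
 (c z e
 (c z e
 (c z e
 (c (a (nat_lit 0x1996dddef04e04)) e
 (c (a (nat_lit 0xf35f726a00004)) e e)))))))))
 (c (nat_lit 1)
 (c (a (nat_lit 0x1af252d3e0c904)) e
 (c z e
 (c (a (nat_lit 0xdaecb548088a5)) e
 (c z e
 (c z e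
 (c z e
 (c (a (nat_lit 0x847f76fc2c004)) e e)))))))
 (c (a (nat_lit 0x2020204021))
 (c (a (nat_lit 0x133656a4235ae4)) e e)
 (c (a (nat_lit 0x20202030c5))
 (c (a (nat_lit 0x1398a6c04a2da5)) e
 (c (a (nat_lit 0x7630a55159207)) e
 (c z e
 (c z e
 (c (a (nat_lit 0x1c408540000005)) e e)))))
 (c (a (nat_lit 0x20312925))
 (c (a (nat_lit 0x2325cfca1347)) e e)
 (c (a (nat_lit 0xe0f94a2324)) e
 (c (a (nat_lit 0xd1830ae0925)) e
 (c (a (nat_lit 0x128b08644445)) e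
 (c (a (nat_lit 0x1a9040002003)) e
 (c (a (nat_lit 0x1fe0202060a2)) e
 (c (b (nat_lit 0x203ffba4)) e
 (c (a (nat_lit 0x4a484abb086)) e
 (c z e
 (c (a (nat_lit 0x20ff9d2eac5)) e
 (c z e
 (c z e
 (c (a (nat_lit 0x128a8b200005)) e e)))))))))))))))))))))))) Tr.c Tr.e (nat_lit 0) C.cx C.cy
noncomputable def C266 : Tr := beta% (fun (c : Nat → Tr → Tr → Tr) (e : Tr) (z : Nat) (a b : Nat → Nat) =>
 (c z
 (c (a (nat_lit 0xbcbc0d0f227e7e3)) e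
 (c (a (nat_lit 0xe22579766a6a6a4))
 (c z e
 (c z e
 (c z e
 (c z e
 (c z e
 (c z e
 (c z e
 (c z e
 (c (a (nat_lit 0x122c583e160a3f7e6)) e
 (c (a (nat_lit 0x2e26563a402b48ea7)) e
 (c (a (nat_lit 0x44b33ad27d39e1566)) e
 (c (a (nat_lit 0x5a8e905eeccfea827)) e e))))))))))))
 (c (a (nat_lit 0x43f398020203aa3))
 (c z e
 (c z e
 (c z e
 (c z e
 (c z e
 (c z e
 (c z e
 (c z e
 (c z e
 (c (a (nat_lit 0x99009878711ae7c86)) e e))))))))))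
 (c (a (nat_lit 0xbc80060202cd0a4))
 (c z e
 (c z e
 (c z e
 (c z e
 (c z e
 (c z e
 (c z e
 (c z e
 (c (a (nat_lit 0x14e4c72bae233e6446)) e e)))))))))
 (c (a (nat_lit 0x1a6c6bec0b30b603)) e
 (c z e
 (c z e
 (c z e
 (c z e
 (c z e
 (c (a (nat_lit 0x18dd73736c6a8ba4)) e
 (c (a (nat_lit 0x110a8a66e767a685)) e
 (c z e
 (c (a (nat_lit 0x102d2deee84665a5)) e
 (c z e
 (c (a (nat_lit 0x66b30e84de56303)) e e))))))))))))))))
 (c z
 (c (a (nat_lit 0x1a546100405ac4))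
 (c z e
 (c z e
 (c z e
 (c z e
 (c z e
 (c z e
 (c z e
 (c z e
 (c (a (nat_lit 0x40541622061cd10e7)) e
 (c (a (nat_lit 0x1c2c2220111e6c528)) e e))))))))))
 (c (a (nat_lit 0x150aa06020364825))
 (c z e
 (c z e
 (c z e
 (c z e
 (c z e
 (c z e
 (c (a (nat_lit 0x129426a547477cd5e7)) e
 (c (a (nat_lit 0xe42e34445f05a2e67)) e e))))))))
 (c (a (nat_lit 0x90060205713f9e5)) e
 (c (a (nat_lit 0x94909100cd8c425)) e
 (c z e
 (c z e
 (c z e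
 (c z e
 (c z e
 (c z e
 (c z e
 (c z e
 (c z e
 (c z e
 (c z e
 (c (a (nat_lit 0x1f6caca04454324)) e
 (c (a (nat_lit 0x15e9c8e342200004)) e e)))))))))))))))))
 (c z
 (c (a (nat_lit 0xb44e4a4d6e8c9a4))
 (c z e
 (c z e
 (c z e
 (c z e
 (c z e
 (c z e
 (c (a (nat_lit 0xe8c274988ce4cf987)) e
 (c (a (nat_lit 0x62202226706134807)) e e))))))))
 (c (a (nat_lit 0x6e6a6d7f5ee4c65)) e
 (c z e
 (c z e
 (c z e
 (c z e
 (c z e
 (c z e
 (c z e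
 (c (a (nat_lit 0xe11ed558de165a5)) e
 (c (a (nat_lit 0xf0cd18f53896026)) e
 (c (a (nat_lit 0x10557416f62aa026)) e
 (c (a (nat_lit 0xb3095b7ecc8b406)) e e)))))))))))))
 (c z
 (c (a (nat_lit 0x9494d502ccd5806)) e
 (c z e
 (c z e
 (c z e
 (c z e
 (c z e
 (c z e
 (c (a (nat_lit 0x114b3311eed03166)) e
 (c (a (nat_lit 0xb7b5b5cced14de5)) e
 (c (a (nat_lit 0x11b0d1d550e02826)) e
 (c (a (nat_lit 0x11b376df2be07ae6)) e e)))))))))))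
 (c (a (nat_lit 0x202020203425))
 (c (a (nat_lit 0x340e17631e405)) e
 (c z e
 (c z e
 (c z e
 (c z e
 (c z e
 (c (a (nat_lit 0x14c84922e42360e5)) e
 (c (a (nat_lit 0x9caa9a1a2293226)) e
 (c (a (nat_lit 0xf2e3026c3ad0806)) e e)))))))))
 (c (a (nat_lit 0x2020341605))
 (c z e
 (c z e
 (c z e
 (c z e
 (c z e
 (c (a (nat_lit 0x1c8121a7a3a34825)) e
 (c (b (nat_lit 0x82bfffe9f77065)) e
 (c z e
 (c z e
 (c z e
 (c z e
 (c (a (nat_lit 0x9d6660000000005)) e e))))))))))))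
 (c (a (nat_lit 0x1616171322666))
 (c z e
 (c z e
 (c z e
 (c (a (nat_lit 0xc10a22d85ab1505)) e
 (c (a (nat_lit 0x1aedf2b0b49c9b85)) e
 (c (b (nat_lit 0x7019fe8f90fb066)) e
 (c (a (nat_lit 0x8218751cc4ca027)) e e)))))))
 (c (a (nat_lit 0x16173eba86446))
 (c z e
 (c z e
 (c (a (nat_lit 0xecf0e3194bdb3e5)) e e)))
 (c (a (nat_lit 0x2cfb1a7212125))
 (c (a (nat_lit 0x54eced40a67ca65)) e
 (c z e
 (c (a (nat_lit 0xa4f8f50ada89fa5)) e e)))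
 (c (a (nat_lit 0x1013c4c1e1e1e5))
 (c (a (nat_lit 0xf8ed3716a2ecea5)) e e)
 (c (a (nat_lit 0x12ca2262626d64))
 (c (a (nat_lit 0xcaf8ce77a1ac5a5)) e
 (c (a (nat_lit 0x198c4bcc51e8d006)) e e))
 (c (a (nat_lit 0x9e2c2626d5d84)) e
 (c (a (nat_lit 0x602025adf465))
 (c z e
 (c (a (nat_lit 0x1233a00000000007)) e e))
 (c (a (nat_lit 0x9494e3518d9c6))
 (c (a (nat_lit 0x1680000000000005)) e e)
 (c z e
 (c z e
 (c (a (nat_lit 0xbb21409898125)) e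
 (c (a (nat_lit 0x13352aaac262e5)) e
 (c (a (nat_lit 0x13e9696141a245)) e e)))))))))))))))))))) Tr.c Tr.e (nat_lit 0) C.cx C.cy
noncomputable def C267 : Tr := beta% (fun (c : Nat → Tr → Tr → Tr) (e : Tr) (z : Nat) (a b : Nat → Nat) =>
 (c (a (nat_lit 0x20202021))
 (c (nat_lit 1) C266
 (c (a (nat_lit 0x2020202021))
 (c z
 (c (a (nat_lit 0x1f6d83e0205e9003))
 (c z e
 (c z e
 (c z e
 (c z e
 (c z e
 (c z e
 (c z e
 (c z e
 (c (a (nat_lit 0x46260c141f1064647)) e e)))))))))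
 (c (a (nat_lit 0x520a08092e8aec5)) e
 (c (a (nat_lit 0x262427730ed7f25)) e
 (c z e
 (c z e
 (c z e
 (c z e
 (c z e
 (c z e
 (c z e
 (c (a (nat_lit 0x1215f4f46f074065)) e
 (c (a (nat_lit 0xfef8f8dd1e7c026)) e
 (c (a (nat_lit 0x1231b338338b0506)) e e)))))))))))))
 (c z
 (c (a (nat_lit 0xbebcbf9b03274e5)) e e)
 (c (a (nat_lit 0x2020203646)) e
 (c (a (nat_lit 0x20203cf486))
 (c z e
 (c z e
 (c z e
 (c z e
 (c z e
 (c z e
 (c z e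
 (c (a (nat_lit 0x1a99102c52c76046)) e e))))))))
 (c (a (nat_lit 0x2034d0a427)) e
 (c (a (nat_lit 0x16174f2a663c7)) e
 (c (a (nat_lit 0x17688c5a2e2e7))
 (c z e
 (c (a (nat_lit 0x6090a8aca2cd488)) e e))
 (c (a (nat_lit 0x15b144a0404046)) e
 (c (a (nat_lit 0x15e4a202021605)) e
 (c (a (nat_lit 0x500e0a0da7b05)) e
 (c (a (nat_lit 0x60406d2e15c6)) e
 (c z e
 (c z e
 (c z e
 (c z e
 (c (a (nat_lit 0x13efa6e92483e6)) e e))))))))))))))))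
 (c (a (nat_lit 0x2020202021))
 (c (a (nat_lit 0x202020203d45))
 (c z e
 (c z e
 (c z e
 (c z e
 (c z e
 (c z e
 (c z e
 (c z e
 (c z e
 (c (b (nat_lit 0x164fea5fe40ca5)) e e))))))))))
 (c (a (nat_lit 0x20202038f3e6)) e
 (c (a (nat_lit 0x202032aee5c7))
 (c z e
 (c z e
 (c z e
 (c z e
 (c z e
 (c z e
 (c (a (nat_lit 0xd446c71ab836007)) e e)))))))
 (c (a (nat_lit 0x16177d4468587)) e
 (c (a (nat_lit 0x1775265246467)) e
 (c (b (nat_lit 0x12275fe0808087)) e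
 (c (a (nat_lit 0x16840020202b05))
 (c (a (nat_lit 0x3920565e98c0046)) e e)
 (c (b (nat_lit 0x40a0205ff824)) e
 (c (a (nat_lit 0x343434b8c9086)) e e)))))))))
 C265)))
 (c (a (nat_lit 0x40404041)) C264
 (c (a (nat_lit 0x20202021))
 (c (a (nat_lit 0x2020202021))
 (c (a (nat_lit 0x1c1c1d62fe6a4))
 (c z e
 (c z e
 (c z e
 (c z e
 (c (a (nat_lit 0x10726f6dcf905a85)) e
 (c (a (nat_lit 0x7a3a361ce142d05)) e
 (c z e
 (c z e
 (c z e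
 (c z e
 (c z e
 (c (a (nat_lit 0x98a89a93aebee26)) e
 (c (a (nat_lit 0x6c6644a39220007)) e e)))))))))))))
 (c (a (nat_lit 0xc0dd9c8fc625))
 (c (a (nat_lit 0x62588f20a914e45))
 (c z e
 (c z e
 (c (a (nat_lit 0x156c26c2428ba8a967)) e e)))
 (c z e
 (c z e
 (c (a (nat_lit 0x5128df14e1c30e6)) e
 (c (a (nat_lit 0x6288971efec6a67)) e
 (c (a (nat_lit 0x74b8c6e105191c6)) e
 (c z e
 (c z e
 (c (a (nat_lit 0xd496c1627698dc6)) e
 (c (a (nat_lit 0xb6c36674baa2a86)) e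
 (c (a (nat_lit 0xa87465b25c46527)) e e)))))))))))
 (c (a (nat_lit 0x2d8fd2c0a6a45))
 (c (a (nat_lit 0x2d4f8c09297326)) e
 (c z e
 (c z e
 (c z e
 (c z e
 (c z e
 (c (a (nat_lit 0xcd0e5c9ecc8f687)) e
 (c (a (nat_lit 0xa8224c804447aa7)) e e))))))))
 (c (a (nat_lit 0x13102402424246))
 (c z e
 (c z e
 (c z e
 (c z e
 (c z e
 (c (a (nat_lit 0x4c4c105e21be7c7)) e
 (c (a (nat_lit 0xa012ac2e71801c6)) e e)))))))
 (c (a (nat_lit 0x18c3e080608004))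
 (c z e
 (c z e
 (c (a (nat_lit 0x144cebd0132a2ee7)) e
 (c (a (nat_lit 0xbca7536060e2026)) e
 (c z e
 (c z e
 (c z e
 (c (a (nat_lit 0x168b8682c0000007)) e e))))))))
 (c (a (nat_lit 0x116c0bec116e83))
 (c (a (nat_lit 0x8868509f2876647)) e
 (c (a (nat_lit 0xa470b776bcc6b87)) e
 (c z e
 (c z e
 (c z e
 (c (a (nat_lit 0x908d5efa3800006)) e
 (c (a (nat_lit 0x137d446000000006)) e e)))))))
 (c (a (nat_lit 0x221c2f4dd1702))
 (c z e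
 (c z e
 (c z e
 (c (a (nat_lit 0x5e7d2e406e1c007)) e
 (c (a (nat_lit 0xcae752840000006)) e
 (c (a (nat_lit 0x1b24600000000005)) e e))))))
 (c (a (nat_lit 0x74cd1d0eb8384))
 (c z e
 (c (a (nat_lit 0x9526bc828e3a587)) e e))
 (c z e
 (c (a (nat_lit 0xbcd8c92bc5c64)) e
 (c (a (nat_lit 0x8e80cb6567304)) e
 (c (a (nat_lit 0xf1519d9d20fa5)) e
 (c z e
 (c z e
 (c (a (nat_lit 0x1151f2b4b373c5)) e
 (c (a (nat_lit 0x886aac848f1c4)) e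
 (c (a (nat_lit 0x78ba949f2d2c4)) e e)))))))))))))))))
 C262)
 (c (a (nat_lit 0x40404041)) C261
 C260))))) Tr.c Tr.e (nat_lit 0) C.cx C.cy
noncomputable def C268 : Tr := beta% (fun (c : Nat → Tr → Tr → Tr) (e : Tr) (z : Nat) (a b : Nat → Nat) =>
 (c (a (nat_lit 0x6060606061))
 (c (a (nat_lit 0x2a2b1d5c506e6))
 (c (a (nat_lit 0x1737385bb7f97927)) e
 (c (a (nat_lit 0xa6edc9bd110d5c6))
 (c (a (nat_lit 0x4180c6c05c042e927)) e
 (c (a (nat_lit 0x1bff9efaea0c1bb247)) e e))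
 (c (a (nat_lit 0x93c711b35791d46))
 (c (a (nat_lit 0x927b2e9c7a8c26688)) e e)
 (c (a (nat_lit 0x1aaab3660b1b3d46)) e
 (c (a (nat_lit 0x58b4acc7055afa6)) e
 (c (a (nat_lit 0xdab9452fd75a286)) e
 (c (a (nat_lit 0x58a12124a422166)) e
 (c (a (nat_lit 0xd0cafedc5c61467)) e
 (c (a (nat_lit 0x12b83dac4a7689e6)) e
 (c (b (nat_lit 0x128a1febfc9fffe6)) e e))))))))))
 (c (a (nat_lit 0x1739905c62587))
 (c (a (nat_lit 0x2c8f20546048887))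
 (c (a (nat_lit 0xfa4484a4224e6b407)) e
 (c (a (nat_lit 0x8a98fc565ca8d5128)) e e))
 (c z e
 (c z e
 (c z e
 (c z e
 (c (a (nat_lit 0x267aa884541b028)) e
 (c (a (nat_lit 0x7d514c802d28f47)) e
 (c (a (nat_lit 0x68c8722d0835028)) e
 (c (a (nat_lit 0xb06a895ebe50008)) e e)))))))))
 (c (a (nat_lit 0x1518a7a8686867))
 (c (a (nat_lit 0xbaf8c0ccd971b07))
 (c (a (nat_lit 0x11ea64a56343600008)) e e)
 (c z e
 (c (a (nat_lit 0x5d448b312aba6c7)) e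
 (c z e
 (c (a (nat_lit 0x5ec6a842085da48)) e
 (c z e
 (c (a (nat_lit 0x1b0a846c65f9c7a7)) e
 (c (a (nat_lit 0x8b3c72a44000008)) e e))))))))
 (c (a (nat_lit 0x13470888686126))
 (c z e
 (c z e
 (c z e
 (c (a (nat_lit 0x96a8bea5214d0c8)) e
 (c (a (nat_lit 0xc8642c98fba01a7)) e e)))))
 (c (a (nat_lit 0x19b8b8788a6a04))
 (c (a (nat_lit 0x401014104126987)) e
 (c z e
 (c (a (nat_lit 0x4184319ab22907)) e e)))
 (c (b (nat_lit 0x807db7fffffe4))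
 (c z e
 (c (a (nat_lit 0x3634c130ec16388)) e e))
 (c z e
 (c z e
 (c (a (nat_lit 0x7f0a1406023a5)) e
 (c (a (nat_lit 0xae343a2c49c06)) e
 (c (a (nat_lit 0x3236367b64647)) e
 (c (a (nat_lit 0x9494d3b2a8b47)) e
 (c (a (nat_lit 0x423d03ed6886)) e
 (c z e
 (c (a (nat_lit 0x18414ac5ea0ee6)) e
 (c (a (nat_lit 0x3ed488cd1a506)) e
 (c (a (nat_lit 0x14d0142ca00006)) e
 (c (a (nat_lit 0x16efe000000005)) e e))))))))))))))))))
 (c (a (nat_lit 0x20002001))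
 (c (a (nat_lit 0x1cdeeb6806a6a6))
 (c (a (nat_lit 0xd780c0d476aaaa6)) e
 (c (a (nat_lit 0x13a86a088a09de67)) e
 (c z e
 (c z e
 (c z e
 (c (a (nat_lit 0x605a9268318b3e7)) e
 (c (a (nat_lit 0x873ea059208bec6)) e
 (c (a (nat_lit 0x112ea99f6e6ea6a7)) e
 (c (a (nat_lit 0x9493c2c65600007)) e e)))))))))
 (c (a (nat_lit 0x1c10310fafa526))
 (c (a (nat_lit 0x626e625e62fb088)) e
 (c z e
 (c z e
 (c z e
 (c (a (nat_lit 0x4aa08841cb73ae8)) e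
 (c (a (nat_lit 0xb486698a81a4a68)) e
 (c (a (nat_lit 0xb659fc2b2c18008)) e
 (c (a (nat_lit 0x175ce60480000008)) e e))))))))
 (c (a (nat_lit 0x16d61616058305))
 (c (a (nat_lit 0x3a2e1b06b2a2927)) e
 (c z e
 (c z e
 (c (a (nat_lit 0x664a331d0054388)) e e))))
 (c (a (nat_lit 0x13f3f40787c1a5))
 (c (a (nat_lit 0xa0c342a3ea35a7)) e e)
 (c z e
 (c z e
 (c (a (nat_lit 0x137f4a6921c1a4)) e
 (c (a (nat_lit 0x1d0220a0604f44)) e
 (c (a (nat_lit 0x3c3a383a3b0e7)) e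
 (c (b (nat_lit 0x365fffff53fe7)) e
 (c z e
 (c (a (nat_lit 0x646b466870767)) e
 (c (a (nat_lit 0x27e4263c469a6)) e
 (c (a (nat_lit 0x10626303660667)) e
 (c (a (nat_lit 0x86acc570c2005)) e
 (c (a (nat_lit 0x12759580000004)) e e))))))))))))))))
 (c (a (nat_lit 0x6060606061))
 (c (a (nat_lit 0x15fafafb0700a4))
 (c (a (nat_lit 0x686e5260c5414c6)) e
 (c z e
 (c (a (nat_lit 0x2e5685030c34a47)) e
 (c z e
 (c (a (nat_lit 0x708482e5b951028)) e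
 (c (a (nat_lit 0x929701232f329c8)) e
 (c (a (nat_lit 0xd18723d31400007)) e
 (c (a (nat_lit 0x135a478000000007)) e e))))))))
 (c (a (nat_lit 0x16d6d6ce0b85c6)) e
 (c z e
 (c z e
 (c (a (nat_lit 0x344200402024))
 (c (a (nat_lit 0x124f2a4743e00008)) e e)
 (c (a (nat_lit 0x14c260c0608764)) e
 (c (a (nat_lit 0x1351b1b15ae584)) e
 (c (a (nat_lit 0x179c7cd4efb925)) e
 (c z e
 (c z e
 (c (a (nat_lit 0x6a5b069e9c9c6)) e
 (c (a (nat_lit 0xb66989e9e9c5)) e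
 (c (a (nat_lit 0x128c0bebebebe6)) e e)))))))))))))
 (c (a (nat_lit 0x2020202021))
 (c (b (nat_lit 0x10b0bfffffffe5))
 (c (a (nat_lit 0x3a7e8d0d90c6ea6)) e e)
 (c z e
 (c (a (nat_lit 0x10f5c120602004))
 (c (a (nat_lit 0x137556cb2fee0607)) e
 (c (a (nat_lit 0x1ab900f4ba00008)) e e))
 (c (a (nat_lit 0x12e24100c10004))
 (c (a (nat_lit 0xe9c978be0000007)) e e)
 (c (b (nat_lit 0x1b79d9f9d6dfe4)) e
 (c z e
 (c z e
 (c z e
 (c (b (nat_lit 0x1ffffff8cbe665)) e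
 (c (a (nat_lit 0x5337e71d0f105)) e
 (c z e
 (c (a (nat_lit 0x13ad4d2d2d2006)) e e))))))))))))
 (c (a (nat_lit 0x2020202021))
 (c (a (nat_lit 0x3be720602001))
 (c z e
 (c (a (nat_lit 0xb19e645c26ac527)) e
 (c (a (nat_lit 0x833b02d6b600006)) e e)))
 (c (a (nat_lit 0x1ba1e1e08066a3))
 (c (a (nat_lit 0x1025a0a264822008)) e
 (c (a (nat_lit 0x19f2b4b740000006)) e e))
 (c (a (nat_lit 0x1311d090872b43))
 (c (a (nat_lit 0x1f5e0e6000000005)) e e) e)))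
 (c (a (nat_lit 0x4040404041))
 (c (a (nat_lit 0x446346c784a1))
 (c (a (nat_lit 0x1300c9a6e3e00006)) e
 (c (a (nat_lit 0xb5f2e000000005)) e e))
 (c (a (nat_lit 0x1ebe5f90f33d63)) e
 (c z e
 (c z e
 (c (b (nat_lit 0x1ffffb85457063)) e
 (c (a (nat_lit 0x3e38a2c9146)) e
 (c z e
 (c z e
 (c (a (nat_lit 0x53b6a68002)) e e)))))))))
 (c (nat_lit 1)
 (c (a (nat_lit 0x142fcf714f20a4)) e
 (c z e
 (c (a (nat_lit 0x6ced8adcda345)) e
 (c (a (nat_lit 0x8b01610076a5)) e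
 (c z e
 (c (a (nat_lit 0xc36dd3100e07)) e
 (c (a (nat_lit 0xa6bfb6f750ca5)) e
 (c (a (nat_lit 0x9380cab000005)) e e))))))))
 (c (a (nat_lit 0x4040404021))
 (c (a (nat_lit 0x2f3913602164)) e
 (c (a (nat_lit 0x139d972d20cbc5)) e
 (c (a (nat_lit 0x4c421c142f167)) e e)))
 (c (a (nat_lit 0x2020202021))
 (c (a (nat_lit 0x114dade182f945)) e
 (c (a (nat_lit 0x3c584e74e19a7)) e
 (c z e
 (c z e
 (c (a (nat_lit 0x63239a7a00005)) e e)))))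
 (c (a (nat_lit 0x3cc2))
 (c (a (nat_lit 0x4102260c73e7)) e
 (c z e
 (c z e
 (c (a (nat_lit 0x159af020000007)) e e))))
 (c (b (nat_lit 0x201ffd03)) e
 (c (a (nat_lit 0xf2f2df24d86))
 (c (a (nat_lit 0x1afe9600000007)) e
 (c (a (nat_lit 0x12c00000000006)) e e))
 (c (a (nat_lit 0x8cd5e8b4704)) e
 (c (a (nat_lit 0x4f642e02004)) e
 (c (a (nat_lit 0x176400202004)) e
 (c (a (nat_lit 0x1fe06021a241)) e
 (c (a (nat_lit 0x2040be03)) e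
 (c (a (nat_lit 0x3c3c4330644)) e
 (c z e
 (c z e
 (c (a (nat_lit 0x1e65a3e40423)) e
 (c (a (nat_lit 0x720c160e021)) e
 (c (a (nat_lit 0x101e1000001)) e
 (c (a (nat_lit 0xe000000001)) e e))))))))))))))))))))))))) Tr.c Tr.e (nat_lit 0) C.cx C.cy
noncomputable def C269 : Tr := beta% (fun (c : Nat → Tr → Tr → Tr) (e : Tr) (z : Nat) (a b : Nat → Nat) =>
 (c (a (nat_lit 0x2020202021))
 (c z
 (c (a (nat_lit 0x96bc3c180a0b625))
 (c z e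
 (c z e
 (c z e
 (c z e
 (c z e
 (c z e
 (c z e
 (c z e
 (c (a (nat_lit 0x5c3620101255149e7)) e
 (c (a (nat_lit 0x3416101e191ca8127)) e
 (c (a (nat_lit 0x221e24421580fcb47)) e
 (c (a (nat_lit 0x6072604ab96090007)) e e))))))))))))
 (c (a (nat_lit 0x6e1006020314927))
 (c z e
 (c z e
 (c z e
 (c z e
 (c z e
 (c z e
 (c (a (nat_lit 0x8ec0963a4434b7988)) e
 (c (a (nat_lit 0x104e01e0e59dfc0c87)) e e))))))))
 (c (a (nat_lit 0xa0202036906f46))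
 (c z e
 (c z e
 (c z e
 (c z e
 (c z e
 (c (a (nat_lit 0x4c761e28283f60908)) e e))))))
 (c (a (nat_lit 0x2c2c395ce90d1c6))
 (c z e
 (c z e
 (c z e
 (c (a (nat_lit 0x528eeed30a16c83e8)) e
 (c z e
 (c z e
 (c (a (nat_lit 0x6e194f96c5208e827)) e e)))))))
 (c z e
 (c z e
 (c z e
 (c z e
 (c z e
 (c z e
 (c (a (nat_lit 0x1c09c94828874026)) e
 (c (a (nat_lit 0x108eef904dd0e005)) e
 (c (a (nat_lit 0x11b070eaaaa8a4c6)) e e)))))))))))))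
 (c z
 (c (a (nat_lit 0x80202032674847))
 (c z e
 (c z e
 (c z e
 (c z e
 (c z e
 (c (a (nat_lit 0x5684f98b5abc56a08)) e e))))))
 (c (a (nat_lit 0x1c1c1d98dcb3327)) e
 (c z e
 (c z e
 (c z e
 (c z e
 (c z e
 (c z e
 (c z e
 (c (a (nat_lit 0x74e4dd671c129e6)) e
 (c (a (nat_lit 0xc6c504e2c27e787)) e
 (c (a (nat_lit 0xed67711b632e006)) e e))))))))))))
 (c z
 (c z e
 (c z e
 (c z e
 (c z e
 (c z e
 (c z e
 (c z e
 (c (a (nat_lit 0x18a9b04c2122e047)) e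
 (c (a (nat_lit 0xcd4f1680521c427)) e
 (c z e
 (c (b (nat_lit 0x16a933dfefc05466)) e e)))))))))))
 (c (a (nat_lit 0x202020203047))
 (c (a (nat_lit 0x90766280bc69826))
 (c z e
 (c (a (nat_lit 0xf338d69caeb6ba9c8)) e
 (c (a (nat_lit 0x1188c5a60142632188)) e
 (c z e
 (c (a (nat_lit 0x119f7ce7cacd2b91c6)) e
 (c (a (nat_lit 0x14eb2823c86846c008)) e
 (c (a (nat_lit 0x19ee938d0b60000007)) e e)))))))
 (c (a (nat_lit 0x382e488e1512787))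
 (c (a (nat_lit 0x1f18c92ed0508f66a7)) e
 (c z e
 (c z e
 (c z e
 (c z e
 (c (a (nat_lit 0x127007a72000000008)) e e))))))
 (c z e
 (c z e
 (c z e
 (c (a (nat_lit 0x25682c4c4a889c6)) e
 (c (a (nat_lit 0x12a768a6458aa567)) e
 (c z e
 (c z e
 (c z e
 (c z e
 (c (a (nat_lit 0x5038728099d8008)) e
 (c (a (nat_lit 0x1c7e318340000005)) e e)))))))))))))
 (c (a (nat_lit 0x202020302c27))
 (c z e
 (c z e
 (c z e
 (c z e
 (c z e
 (c (a (nat_lit 0xdc161e25022a267)) e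
 (c (a (nat_lit 0x76aa33e126421e6)) e e)))))))
 (c (a (nat_lit 0x202037332427))
 (c z e
 (c z e
 (c z e
 (c z e
 (c (b (nat_lit 0xe64dffa56708aa6)) e e)))))
 (c (a (nat_lit 0x16179aa23c2e7)) e
 (c (a (nat_lit 0x2de3623006066)) e
 (c (b (nat_lit 0x1bb57fe0202026))
 (c z e
 (c (a (nat_lit 0x19698b0fba4145)) e e))
 (c (a (nat_lit 0xb806020203ac6))
 (c (a (nat_lit 0x10292ce632cc4186)) e
 (c (a (nat_lit 0xae9c46c9b7ede26)) e e))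
 (c (a (nat_lit 0xa080609b3806)) e
 (c (a (nat_lit 0x101013bd8f9a6)) e
 (c z e
 (c z e
 (c z e
 (c (a (nat_lit 0x169d3c3aa7a2a6)) e
 (c (a (nat_lit 0x1bdad946a1e326)) e
 (c z e
 (c z e
 (c z e
 (c (a (nat_lit 0x23061218003)) e
 (c (a (nat_lit 0x1b20a0000002)) e e))))))))))))))))))))))
 (c (a (nat_lit 0x4040202021))
 (c z
 (c (a (nat_lit 0x8080ba476767a5)) e
 (c z e
 (c z e
 (c z e
 (c z e
 (c z e
 (c z e
 (c z e
 (c z e
 (c (a (nat_lit 0xd5c3656e92380c5)) e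
 (c (a (nat_lit 0x1835555248a5aea6)) e
 (c (a (nat_lit 0x162b6bf74cc14f45)) e
 (c (a (nat_lit 0xaacecabc8e6b487)) e e)))))))))))))
 (c (a (nat_lit 0x202020203186))
 (c z e
 (c (a (nat_lit 0x8040282e1643c88)) e
 (c z e
 (c z e
 (c z e
 (c z e
 (c z e
 (c z e
 (c (a (nat_lit 0x129c928cd00beb86)) e e)))))))))
 (c (a (nat_lit 0x202020383806))
 (c (a (nat_lit 0x5c363e2c536a587))
 (c z e
 (c z e
 (c z e
 (c (a (nat_lit 0xecd38742aee314ac8)) e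
 (c (a (nat_lit 0x11c9e6e808eae82649)) e
 (c (a (nat_lit 0x1754cf8aefc7a00008)) e
 (c (a (nat_lit 0x154e8e490000000008)) e e)))))))
 (c z e
 (c z e
 (c z e
 (c z e
 (c (a (nat_lit 0x10828301686ee6c7)) e
 (c (a (nat_lit 0x6c7e5ea32c8c147)) e
 (c z e
 (c z e
 (c z e
 (c z e
 (c (a (nat_lit 0x362a264db000008)) e e))))))))))))
 (c (a (nat_lit 0x202035334447)) e
 (c (a (nat_lit 0x1617531a2e287)) e
 (c (a (nat_lit 0x173aa23e2c2c7)) e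
 (c (a (nat_lit 0x179622e0202026))
 (c (a (nat_lit 0x5c9b66a2322caa5)) e e)
 (c (a (nat_lit 0xe8180e0e0fce6))
 (c (a (nat_lit 0x5278501e4437767)) e
 (c (a (nat_lit 0x8452140f86aa0e7)) e e))
 (c (a (nat_lit 0x8040405f0f66))
 (c (a (nat_lit 0xeedaa7ebb445246)) e e)
 (c (a (nat_lit 0x20203f100de6)) e
 (c z e
 (c z e
 (c z e
 (c z e
 (c z e
 (c z e
 (c z e
 (c z e
 (c (a (nat_lit 0x1dd2f8cb88c884)) e
 (c (a (nat_lit 0xa9063a0600004)) e e))))))))))))))))))))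
 (c (a (nat_lit 0x2020202021))
 (c (a (nat_lit 0x303030310f785))
 (c (a (nat_lit 0x70743a382be54c3)) e
 (c (a (nat_lit 0x28080a286fc8e87))
 (c z e
 (c z e
 (c z e
 (c z e
 (c z e
 (c (a (nat_lit 0x132a24ea0d69000008)) e
 (c (a (nat_lit 0x12e8aae82000000008)) e e)))))))
 (c z e
 (c z e
 (c z e
 (c z e
 (c (a (nat_lit 0x40222347fdb0a5)) e
 (c (a (nat_lit 0xa90837947372a4)) e
 (c (a (nat_lit 0x139415b330b212a6)) e
 (c z e
 (c z e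
 (c (a (nat_lit 0x58584e486316589)) e e))))))))))))
 (c (a (nat_lit 0x16161729264e7))
 (c z e
 (c z e
 (c z e
 (c z e
 (c z e
 (c (a (nat_lit 0x60c06b902ea367)) e e))))))
 (c (a (nat_lit 0x1617395856507))
 (c z e
 (c z e
 (c z e
 (c z e
 (c z e
 (c (a (nat_lit 0xc87365aed50adc7)) e e))))))
 (c (b (nat_lit 0x1febb101016167)) e
 (c (b (nat_lit 0x16f01fe0202026)) e
 (c (a (nat_lit 0x1a818040204025)) e
 (c (a (nat_lit 0x2636343665245))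
 (c (a (nat_lit 0x68606e53237e687)) e e)
 (c (a (nat_lit 0x1c1c1ea38cc65))
 (c (a (nat_lit 0x443b22540e20028)) e e)
 (c z e
 (c z e
 (c (a (nat_lit 0x936102fd0b385)) e
 (c (a (nat_lit 0x18971719da9a07)) e
 (c z e
 (c z e
 (c z e
 (c z e
 (c (a (nat_lit 0x17dd96a6e6c704)) e
 (c (a (nat_lit 0x177060c0a08004)) e
 (c (a (nat_lit 0x10008040000004)) e e)))))))))))))))))))
 C268)))) Tr.c Tr.e (nat_lit 0) C.cx C.cy
noncomputable def C270 : Tr := beta% (fun (c : Nat → Tr → Tr → Tr) (e : Tr) (z : Nat) (a b : Nat → Nat) =>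
 (c z
 (c (a (nat_lit 0x1030302ad6b22503))
 (c z e
 (c z e
 (c z e
 (c z e
 (c z e
 (c z e
 (c z e
 (c z e
 (c z e
 (c z e
 (c z e
 (c z e
 (c z e
 (c (a (nat_lit 0x1a286ac31ca6a0568)) e e))))))))))))))
 (c (a (nat_lit 0x8a8b3d7aee120c5))
 (c z e
 (c z e
 (c z e
 (c z e
 (c z e
 (c z e
 (c z e
 (c z e
 (c z e
 (c (a (nat_lit 0x342218622a2c21428)) e
 (c z e
 (c z e
 (c z e
 (c (a (nat_lit 0x3e50b74662000000a)) e e))))))))))))))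
 (c (a (nat_lit 0x116d90aa0802005))
 (c z e
 (c z e
 (c z e
 (c z e
 (c z e
 (c z e
 (c z e
 (c (a (nat_lit 0x118b6aafa9abe756c6)) e
 (c (a (nat_lit 0x2e2a54625826efd87)) e e)))))))))
 (c (a (nat_lit 0xa2e45e0e0c0d366))
 (c z e
 (c z e
 (c z e
 (c z e
 (c z e
 (c z e
 (c (a (nat_lit 0xed7f12cc72665c707)) e
 (c (a (nat_lit 0x110d2942c22eeb7f87)) e
 (c (a (nat_lit 0x50b62a3040669b288)) e e)))))))))
 (c (a (nat_lit 0xb6441e1c1ccb326))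
 (c (a (nat_lit 0x180e6bef30d1599707)) e
 (c z e
 (c z e
 (c z e
 (c (a (nat_lit 0x808e92727c611d3a7)) e
 (c z e
 (c (a (nat_lit 0xd496501ebbb3e3207)) e
 (c (a (nat_lit 0xb82e123288b32a908)) e e))))))))
 (c (a (nat_lit 0x4c161414b9164a6))
 (c z e
 (c z e
 (c z e
 (c z e
 (c z e
 (c (a (nat_lit 0x60304723293e98bc8)) e e))))))
 (c (a (nat_lit 0x6c6a6d115e723e6))
 (c z e
 (c (a (nat_lit 0x2a3a7eb35cda9d028)) e
 (c z e
 (c (a (nat_lit 0x9c788070c26e5d548)) e e))))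
 (c (a (nat_lit 0x8082c7048472027)) e
 (c z e
 (c z e
 (c (a (nat_lit 0x1233b3e62623c4a6)) e
 (c z e
 (c z e
 (c z e
 (c (b (nat_lit 0x15959fffedcb4ca6)) e
 (c (a (nat_lit 0x7cdb0ef4aee2d65)) e e))))))))))))))))
 (c z
 (c (a (nat_lit 0x57d5d4ea2214145))
 (c z e
 (c z e
 (c z e
 (c z e
 (c z e
 (c z e
 (c z e
 (c z e
 (c (a (nat_lit 0x1610461e1604412e8)) e
 (c (a (nat_lit 0x1a324e3a2a217e8c8)) e e))))))))))
 (c (a (nat_lit 0x986a26020203148)) e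
 (c (a (nat_lit 0xae0e0a0a0b61707)) e
 (c (a (nat_lit 0x1c1c1c271d10bc7)) e
 (c (a (nat_lit 0x1a1a1b08faa6867)) e
 (c z e
 (c z e
 (c z e
 (c z e
 (c z e
 (c z e
 (c z e
 (c (a (nat_lit 0x1edbde3de8a5c0c6)) e e)))))))))))))
 (c z
 (c (a (nat_lit 0x661002020324887))
 (c z e
 (c z e
 (c z e
 (c z e
 (c z e
 (c (a (nat_lit 0xe2f4663c9330c8907)) e
 (c (a (nat_lit 0x76b8926872744b427)) e
 (c (a (nat_lit 0x2c5e300e11b6f1847)) e e))))))))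
 (c (a (nat_lit 0x2e2624279334c07)) e
 (c (a (nat_lit 0x787683ad18b2687)) e
 (c z e
 (c z e
 (c z e
 (c z e
 (c z e
 (c z e
 (c z e
 (c z e
 (c (a (nat_lit 0x19ae99788c0440c6)) e e))))))))))))
 (c z
 (c (a (nat_lit 0x5e5e5ef178e8c46))
 (c z e
 (c z e
 (c z e
 (c z e
 (c z e
 (c (a (nat_lit 0x928a545fd258d0347)) e e))))))
 (c z e
 (c z e
 (c z e
 (c z e
 (c z e
 (c z e
 (c z e
 (c z e
 (c z e
 (c (a (nat_lit 0x1f0aea2d4f2181e7)) e e)))))))))))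
 (c z
 (c (a (nat_lit 0x1a73fc9220eb0b85))
 (c z e
 (c (a (nat_lit 0x6d353ce8483688848)) e
 (c (a (nat_lit 0x11724e06036162c0c8)) e
 (c z e
 (c z e
 (c (a (nat_lit 0x90bd39066e8d04b07)) e
 (c (a (nat_lit 0x232f048c5e3200007)) e
 (c (a (nat_lit 0x548b8eba000000007)) e e))))))))
 (c (a (nat_lit 0x52922c1a60314a7))
 (c (a (nat_lit 0xcf3ef63c18a672548)) e
 (c (a (nat_lit 0x17756bafe52c4186c9)) e
 (c z e
 (c z e
 (c z e
 (c (a (nat_lit 0x1494e46a05e0000008)) e e))))))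
 (c z e
 (c z e
 (c z e
 (c (a (nat_lit 0x1827f076343eba6)) e
 (c (a (nat_lit 0x2f3872541a70967)) e
 (c (a (nat_lit 0x11e70583c163e987)) e
 (c (a (nat_lit 0xac6e833c7c27166)) e
 (c (a (nat_lit 0x6269eb4aa11287)) e
 (c z e
 (c z e
 (c (a (nat_lit 0x15330920a0200006)) e e)))))))))))))
 (c (a (nat_lit 0x202020203b26))
 (c (a (nat_lit 0x441a0432027b627))
 (c z e
 (c z e
 (c z e
 (c z e
 (c z e
 (c (a (nat_lit 0x1333b249a000000007)) e e))))))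
 (c (b (nat_lit 0x4845fe5b03b0de7)) e
 (c z e
 (c z e
 (c z e
 (c (a (nat_lit 0x3746280c0c26307)) e
 (c (a (nat_lit 0x19e84841834a7707)) e
 (c z e
 (c z e
 (c (a (nat_lit 0x283048766cb14e9)) e
 (c z e
 (c (a (nat_lit 0xb16cca200000006)) e e))))))))))))
 (c (a (nat_lit 0x2020203bb886))
 (c z e
 (c z e
 (c z e
 (c z e
 (c (a (nat_lit 0xa77c582c556bde6)) e e)))))
 (c (a (nat_lit 0x202035a9e3e7)) e
 (c (a (nat_lit 0x2c2da35a42246))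
 (c z e
 (c (a (nat_lit 0xc5632987bdbee66)) e e))
 (c (a (nat_lit 0x2d7f5e3430306)) e
 (c (a (nat_lit 0x15b3e080404045))
 (c (a (nat_lit 0x1088648512cc26)) e
 (c (a (nat_lit 0x61444e22705e547)) e e))
 (c (a (nat_lit 0x12602020205f05))
 (c (a (nat_lit 0x1e70efceeb91fba7)) e e)
 (c (a (nat_lit 0x2a2a28291fde6))
 (c z e
 (c (a (nat_lit 0x13874e8000000007)) e e))
 (c (a (nat_lit 0x402053ffdae6))
 (c (a (nat_lit 0x1b91800000000005)) e e)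
 (c z e
 (c z e
 (c z e
 (c z e
 (c (a (nat_lit 0x137363036241e6)) e
 (c z e
 (c z e
 (c z e
 (c (a (nat_lit 0x1f9afcc4a00002)) e e)))))))))))))))))))))))) Tr.c Tr.e (nat_lit 0) C.cx C.cy
noncomputable def C271 : Tr := beta% (fun (c : Nat → Tr → Tr → Tr) (e : Tr) (z : Nat) (a b : Nat → Nat) =>
 (c z
 (c (a (nat_lit 0x6a6020020203b06))
 (c z e
 (c z e
 (c z e
 (c z e
 (c z e
 (c (a (nat_lit 0x4b0fa6d052b3dc7c6)) e
 (c z e
 (c (a (nat_lit 0x789a905c4a7b0bcc7)) e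
 (c (a (nat_lit 0x3c483a2e3866db628)) e
 (c (a (nat_lit 0x3450363420f97cf48)) e e))))))))))
 (c (a (nat_lit 0x9a10020203b2b66))
 (c z e
 (c z e
 (c z e
 (c z e
 (c z e
 (c (a (nat_lit 0xe4c2a063468f31e8)) e e))))))
 (c (a (nat_lit 0x20101025b264446))
 (c z e
 (c z e
 (c z e
 (c z e
 (c (a (nat_lit 0x984a02363f2ef5208)) e
 (c z e
 (c (a (nat_lit 0xe160e2ad31e882c9)) e
 (c (a (nat_lit 0x200e0ea320bc58009)) e e))))))))
 (c (a (nat_lit 0xa0a0d8c4238146)) e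
 (c z e
 (c z e
 (c z e
 (c z e
 (c z e
 (c z e
 (c z e
 (c z e
 (c z e
 (c z e
 (c (a (nat_lit 0x43224093dcd3e3)) e e)))))))))))))))
 (c z
 (c (a (nat_lit 0x7694949697727c4))
 (c z e
 (c z e
 (c z e
 (c z e
 (c z e
 (c (a (nat_lit 0xa0966e4ec1a58b207)) e
 (c (a (nat_lit 0x624e42435edcaa388)) e
 (c (a (nat_lit 0x10040f3e9cb434288)) e e))))))))
 (c (b (nat_lit 0xdedf0bfffffffe5))
 (c z e
 (c z e
 (c z e
 (c (a (nat_lit 0xfae8def8d53710f69)) e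
 (c (a (nat_lit 0xb86c6c9d8bbb0aa68)) e
 (c (a (nat_lit 0x26101d9bcee032308)) e e))))))
 (c (a (nat_lit 0x12d62d732c052105)) e
 (c z e
 (c (a (nat_lit 0x2a283c483a69024)) e
 (c (a (nat_lit 0x632306d9394425))
 (c z e
 (c (a (nat_lit 0x1e8e06a7ece9400008)) e e))
 (c z e
 (c z e
 (c z e
 (c z e
 (c (a (nat_lit 0x1c77792a6a4a4765)) e
 (c (a (nat_lit 0xecf0dcdaceef028)) e
 (c z e
 (c (a (nat_lit 0x2040ee303ead44)) e e))))))))))))))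
 (c z
 (c (a (nat_lit 0xf93f00c68a06005)) e
 (c (a (nat_lit 0x154eaa4842402186))
 (c (a (nat_lit 0xdb195f105020f8ba7)) e
 (c (a (nat_lit 0x159b37ac5930fc71c8)) e
 (c (a (nat_lit 0x1415286f17ed4b8c08)) e
 (c z e
 (c (a (nat_lit 0x24b9756cb008a2027)) e
 (c (a (nat_lit 0x3939a0fe321000008)) e
 (c (a (nat_lit 0xaf6b5092000000008)) e e)))))))
 (c (a (nat_lit 0x42400c06020f407))
 (c (a (nat_lit 0xa8a478b2d4d6c5128)) e
 (c z e
 (c z e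
 (c z e
 (c (a (nat_lit 0x1f7d90a90600000008)) e e)))))
 (c (a (nat_lit 0x3a0606040f36327))
 (c z e
 (c z e
 (c z e
 (c (a (nat_lit 0x1cf859322000000008)) e e))))
 (c (a (nat_lit 0x2626263b726a3c7)) e
 (c z e
 (c (a (nat_lit 0x5e6d9896705c907)) e
 (c (a (nat_lit 0x2b4a7860545ab07)) e
 (c (a (nat_lit 0x132544c3e768e087)) e
 (c (a (nat_lit 0x2e1e328f0806926)) e
 (c (a (nat_lit 0x8c9afb56f2f1227)) e
 (c (a (nat_lit 0x10d6ddd677981ce7)) e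
 (c (a (nat_lit 0x8b243422241e006)) e
 (c (a (nat_lit 0x1061604060000006)) e e))))))))))))))
 (c z
 (c (a (nat_lit 0x15f0088860203644))
 (c z e
 (c (a (nat_lit 0xd3068cfc7f42b6de8)) e
 (c (a (nat_lit 0x1a2a03f70e1108a547)) e
 (c z e
 (c z e
 (c (a (nat_lit 0x7bbb4e6a080000007)) e
 (c (a (nat_lit 0x183dce800000000007)) e e)))))))
 (c (a (nat_lit 0x3206020206513c7))
 (c (a (nat_lit 0xfaad58b393115d8a8)) e
 (c z e
 (c z e
 (c z e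
 (c (a (nat_lit 0x116b2aa68000000009)) e e)))))
 (c (a (nat_lit 0x402282a3908227))
 (c (a (nat_lit 0xe6e46e88eeeb64987)) e e)
 (c (a (nat_lit 0x264c4c593c12247)) e
 (c z e
 (c (a (nat_lit 0x22271a160602427)) e
 (c (a (nat_lit 0x3d4444460e4ac07)) e
 (c (a (nat_lit 0x18082827476c4c27)) e
 (c (a (nat_lit 0x242e4a7ed6a1947)) e
 (c z e
 (c (a (nat_lit 0x98c4d6c8d50f808)) e
 (c (a (nat_lit 0x1438eb310a800004)) e
 (c (a (nat_lit 0x12a5854000000004)) e e)))))))))))))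
 (c (a (nat_lit 0x5858585859b24))
 (c (a (nat_lit 0x40250587eeb965)) e
 (c z e
 (c z e
 (c z e
 (c (a (nat_lit 0xf8e928dcc2cb6c7)) e
 (c (a (nat_lit 0x12db736b4a93fa66)) e
 (c (a (nat_lit 0xba7a662e66a5047)) e
 (c (a (nat_lit 0x262a3c487f0f208)) e
 (c z e
 (c z e
 (c (a (nat_lit 0x6c83e6620000004)) e e)))))))))))
 (c (a (nat_lit 0xcccccccd21206))
 (c z e
 (c z e
 (c z e
 (c (a (nat_lit 0x12b3595656fed607)) e
 (c z e
 (c z e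
 (c z e
 (c z e
 (c z e
 (c (a (nat_lit 0x7d8c10000000006)) e e))))))))))
 (c (a (nat_lit 0xbebebf1136ca6))
 (c z e
 (c z e
 (c z e
 (c (a (nat_lit 0x116eae52dd90e9a6)) e e))))
 (c (a (nat_lit 0xdadadf10d0d27))
 (c (a (nat_lit 0xbcbed0e300d2d07)) e e)
 (c (a (nat_lit 0x161677f514b4a6))
 (c (a (nat_lit 0xb6cdd4eedcccc26)) e
 (c (a (nat_lit 0x7f212ebe74b3447)) e
 (c (a (nat_lit 0xceb4d48e6491608)) e
 (c (a (nat_lit 0x165b3eb7532d0008)) e e))))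
 (c (a (nat_lit 0x11fe5938787865))
 (c (a (nat_lit 0x1016f04cf0527ec7)) e
 (c (a (nat_lit 0x11302aceafd5abe8)) e
 (c (a (nat_lit 0x16f8cfee8aa00008)) e e)))
 (c (a (nat_lit 0x1861a060409583))
 (c (a (nat_lit 0x1c522b6eb649e006)) e
 (c (a (nat_lit 0x10a761e200000008)) e e))
 (c (a (nat_lit 0x1a060608b1504))
 (c (a (nat_lit 0x1ae1612000000006)) e e)
 (c (a (nat_lit 0x17b7b7bd1f9ce6)) e
 (c (a (nat_lit 0x1676791b1a1a27)) e
 (c (a (nat_lit 0x7b1c342e2e3)) e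
 (c (a (nat_lit 0xf18aacd4d2d03)) e
 (c (a (nat_lit 0x1a2ceced0cec83)) e
 (c z e
 (c z e
 (c (a (nat_lit 0x6c6e706e79063)) e e))))))))))))))))))))) Tr.c Tr.e (nat_lit 0) C.cx C.cy
noncomputable def C272 : Tr := beta% (fun (c : Nat → Tr → Tr → Tr) (e : Tr) (z : Nat) (a : Nat → Nat) =>
 (c z
 (c (a (nat_lit 0x12525252525241a3))
 (c z
 (c z e
 (c (a (nat_lit 0x1ab8381737577879f785)) e e))
 (c (a (nat_lit 0x98acaaaaaae90cc66))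
 (c z e
 (c z e
 (c z e
 (c z e
 (c z e
 (c z e
 (c z e
 (c (a (nat_lit 0x908a887c6642517cc48)) e e))))))))
 (c (a (nat_lit 0x98888889878cdf165)) e
 (c (a (nat_lit 0xe4e4eb953f231f4e5))
 (c z e
 (c z e
 (c z e
 (c z e
 (c (a (nat_lit 0x32383c1e103ae35d408)) e e)))))
 (c z e
 (c (a (nat_lit 0x72807a685e5c631e6)) e
 (c z e
 (c z e
 (c z e
 (c z e
 (c z e
 (c z e
 (c z e
 (c z e
 (c (a (nat_lit 0x383238424260ab087)) e
 (c z e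
 (c (a (nat_lit 0x1111719191d4756008)) e e)))))))))))))))))
 (c z
 (c (a (nat_lit 0xf8f2f2f38bcf413c6))
 (c z e
 (c z e
 (c z e
 (c z e
 (c z e
 (c z e
 (c z e
 (c (a (nat_lit 0x9a98866820299a60788)) e e))))))))
 (c (a (nat_lit 0x5e5e61374cf4fcb07)) e
 (c z e
 (c z e
 (c (a (nat_lit 0x546c2424020916787)) e
 (c (a (nat_lit 0xd454523c2a59ccde6)) e
 (c z e
 (c z e
 (c z e
 (c (a (nat_lit 0x12b2f454d3f1f4b5a7)) e
 (c (a (nat_lit 0xc2d6d6baacb10cce7)) e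
 (c (a (nat_lit 0xc2c8ac2e388dded26)) e
 (c (a (nat_lit 0xb8a2943e74f7aace6)) e e)))))))))))))
 (c (a (nat_lit 0x88888889287c4c3))
 (c z e
 (c z e
 (c z e
 (c (a (nat_lit 0xde60aeca29a8a0486)) e
 (c z e
 (c z e
 (c z e
 (c z e
 (c z e
 (c z e
 (c (a (nat_lit 0xf0d6787cbf84f4ea6)) e
 (c (a (nat_lit 0x3a3a142670b4459c7)) e e))))))))))))
 (c (a (nat_lit 0x1a1a1a163a5cad23)) e
 (c (a (nat_lit 0x10b0ab1532b09085))
 (c z e
 (c z e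
 (c z e
 (c z e
 (c z e
 (c z e
 (c z e
 (c (a (nat_lit 0x7a7a6e9492829db48)) e
 (c z e
 (c (a (nat_lit 0x3c44788e855fdd4c8)) e e))))))))))
 (c (a (nat_lit 0xa28994eeb4b4b44))
 (c (a (nat_lit 0x405ddeb8684e99146)) e
 (c (a (nat_lit 0xa75b5cb888a903187)) e
 (c (a (nat_lit 0x11684904e549080907)) e
 (c z e
 (c z e
 (c (a (nat_lit 0x6a80a47c747e81388)) e
 (c (a (nat_lit 0x68907c5e5c64f5908)) e
 (c (a (nat_lit 0x4c28563a32cb18f88)) e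
 (c (a (nat_lit 0x2c72b06f87ef168c7)) e
 (c (a (nat_lit 0x62b0ef2f0a3400008)) e e))))))))))
 (c (a (nat_lit 0xc5d156a880807e4))
 (c (a (nat_lit 0x81888a522c68fa4c6)) e
 (c (a (nat_lit 0x10aac5c425cba6eb87)) e
 (c z e
 (c (a (nat_lit 0x4244649c2e5073087)) e
 (c (a (nat_lit 0x70848c66768d4b488)) e
 (c (a (nat_lit 0x50743a303cd105828)) e
 (c (a (nat_lit 0x5c7a3233339bcfe87)) e
 (c (a (nat_lit 0xa4dea3b5e54ad0007)) e
 (c (a (nat_lit 0x8ecb0ebc2c0000008)) e e)))))))))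
 (c (a (nat_lit 0x1ad933b3d3f385e3))
 (c z e
 (c z e
 (c z e
 (c z e
 (c (a (nat_lit 0x5e3a38369700ec929)) e
 (c (a (nat_lit 0x361c0cdd4eece0ac8)) e
 (c (a (nat_lit 0x481edf38484600008)) e
 (c (a (nat_lit 0xbd090e08000000008)) e e))))))))
 (c (a (nat_lit 0x1b9abababb1a15e6))
 (c (a (nat_lit 0xd4d2a49eee7ff29c7)) e
 (c z e
 (c z e
 (c (a (nat_lit 0xdd08cb95318d3f5a8)) e
 (c (a (nat_lit 0xe68d46f5070306008)) e e)))))
 (c (a (nat_lit 0x1616161796751566))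
 (c (a (nat_lit 0x989aa6b901acc2647)) e e)
 (c (a (nat_lit 0x197a1a9a79397967))
 (c (a (nat_lit 0xacb5136112baa8ae8)) e e)
 (c (a (nat_lit 0x11d2b2f232525247))
 (c (a (nat_lit 0x70b13ca6341200008)) e
 (c (a (nat_lit 0x155df4aa0000000008)) e e))
 (c (a (nat_lit 0x1171b050b0b09026))
 (c (a (nat_lit 0x111127e00000000008)) e e)
 (c (a (nat_lit 0x190df110d06da1a3)) e
 (c (a (nat_lit 0x12141413f08e6004)) e
 (c (a (nat_lit 0x1fffffffff7c3c27)) e e))))))))))))))))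
 (c z
 (c (a (nat_lit 0x15757575783410e4))
 (c (a (nat_lit 0xbababf558118f2ba6)) e
 (c z e
 (c z e
 (c z e
 (c z e
 (c z e
 (c z e
 (c z e
 (c z e
 (c z e
 (c z e
 (c (a (nat_lit 0x6a78020a55568c747)) e
 (c (a (nat_lit 0x8a742a56d11a94e47)) e e)))))))))))))
 (c (a (nat_lit 0x3c3c3d189a50026)) e
 (c (a (nat_lit 0x4a4b694ca61a1a5)) e
 (c (a (nat_lit 0x109a09e3c3e3c5))
 (c z e
 (c z e
 (c z e
 (c z e
 (c z e
 (c z e
 (c (a (nat_lit 0x8886b29a8e8677468)) e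
 (c (a (nat_lit 0x2a465a38142336828)) e e))))))))
 (c (a (nat_lit 0x13594540402055e5))
 (c (a (nat_lit 0x5daccc6c72c117307)) e
 (c (a (nat_lit 0x11138807084c3331c8)) e
 (c z e
 (c z e
 (c (a (nat_lit 0x9511d93ecb16f5f26)) e
 (c (a (nat_lit 0xb56542808e264f386)) e
 (c (a (nat_lit 0x7080260e0c36b91a8)) e
 (c (a (nat_lit 0x429a2a16182ced228)) e
 (c (a (nat_lit 0x6c9e3e22093a74008)) e e)))))))))
 (c (a (nat_lit 0x94502e1818bb0e6))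
 (c (a (nat_lit 0x180a65e305ebcdf1c7)) e
 (c z e
 (c z e
 (c z e
 (c (a (nat_lit 0x144640943f2c48527)) e
 (c (a (nat_lit 0x604a4008907f7cb88)) e
 (c (a (nat_lit 0xfa9a5a3255a79f5e8)) e
 (c (a (nat_lit 0xea4e4a51949a00008)) e e))))))))
 (c (a (nat_lit 0x4c363636d908246))
 (c (a (nat_lit 0x62344476d94539167)) e e)
 (c (a (nat_lit 0xe8e8e9a5e0b4a46)) e
 (c z e
 (c z e
 (c (a (nat_lit 0xd52ce4ec7e7e807))
 (c (a (nat_lit 0xb6654080a0000007)) e e)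
 (c (a (nat_lit 0x110cad06462624e7)) e
 (c (a (nat_lit 0x13d4c72707268126)) e
 (c z e
 (c z e
 (c (a (nat_lit 0xfcfd12f2c4bebc7)) e
 (c (a (nat_lit 0x95208063014323)) e
 (c (a (nat_lit 0x1ca707ad6bcdd223)) e e))))))))))))))))))
 (c z
 (c (a (nat_lit 0x5c5d7f027e302a5))
 (c z e
 (c z e
 (c z e
 (c z e
 (c z e
 (c z e
 (c z e
 (c z e
 (c z e
 (c z e
 (c (a (nat_lit 0x584a4a9a707821227)) e e)))))))))))
 (c (a (nat_lit 0x83811ea45858586)) e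
 (c (a (nat_lit 0xbafa4e040205ca6))
 (c z e
 (c z e
 (c z e
 (c z e
 (c z e
 (c z e
 (c (a (nat_lit 0x64666e565e7ff5528)) e e)))))))
 (c (a (nat_lit 0xac220e0a0b93386))
 (c (a (nat_lit 0x178bc88a6c52ed7447)) e
 (c (a (nat_lit 0x15c364a77b5419d3a7)) e
 (c z e
 (c (a (nat_lit 0x6264a48cf53ecc608)) e
 (c (a (nat_lit 0x70c228288a4043d47)) e
 (c (a (nat_lit 0xd044563877ff00d27)) e
 (c (a (nat_lit 0x80846814a3edf5907)) e
 (c (a (nat_lit 0x642612148b4f026a8)) e e))))))))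
 (c (a (nat_lit 0x280404078510906))
 (c z e
 (c z e
 (c (a (nat_lit 0x429c751da8da14808)) e
 (c (a (nat_lit 0xae582a7632133d7a8)) e
 (c z e
 (c (a (nat_lit 0x18220470835f2c688)) e e))))))
 (c (a (nat_lit 0x1c1c23a50a76b26)) e
 (c z e
 (c z e
 (c z e
 (c (a (nat_lit 0x137294b3ea274967)) e
 (c z e
 (c z e
 (c (a (nat_lit 0x12e825e7c3a12027)) e
 (c z e
 (c z e
 (c (a (nat_lit 0xb6687076d7856c4)) e e))))))))))))))))
 C271)))) Tr.c Tr.e (nat_lit 0) C.cx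
noncomputable def C273 : Tr := beta% (fun (c : Nat → Tr → Tr → Tr) (e : Tr) (z : Nat) (a b : Nat → Nat) =>
 (c (a (nat_lit 0x20002001))
 (c (a (nat_lit 0x5febf27c9e9e4))
 (c z e
 (c z e
 (c (a (nat_lit 0x7484808aa87d366)) e
 (c z e
 (c z e
 (c (a (nat_lit 0x40846482363dc06)) e
 (c (a (nat_lit 0x6c70d44a4b18dc5)) e
 (c (a (nat_lit 0x2688544964a2b06)) e
 (c (a (nat_lit 0x8a2a532c843c006)) e
 (c z e
 (c (a (nat_lit 0x1192e00000000006)) e e)))))))))))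
 (c (a (nat_lit 0x1cfd68a807e7e5))
 (c (a (nat_lit 0x8e6ea6b09ac50c6)) e
 (c z e
 (c z e
 (c z e
 (c (a (nat_lit 0xa4d4de68459db86)) e
 (c (a (nat_lit 0x82d0885cd8b7046)) e
 (c (a (nat_lit 0xeca0779880a2206)) e
 (c (a (nat_lit 0xb5b312b65e00006)) e e))))))))
 (c (a (nat_lit 0x161cd656362023))
 (c z e
 (c (a (nat_lit 0x84663edc10092a6)) e
 (c (a (nat_lit 0x7c5d10245afc326)) e
 (c (a (nat_lit 0x2e7e0a195676287)) e
 (c (a (nat_lit 0x10e0a24b81c52626)) e e)))))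
 (c (a (nat_lit 0x136d8d8d848504))
 (c (a (nat_lit 0x14a804ec0c1d4024)) e
 (c (a (nat_lit 0x48385e495298866)) e
 (c (a (nat_lit 0x160835eebebc2e6)) e
 (c z e
 (c z e
 (c (a (nat_lit 0x1161626000000006)) e e))))))
 (c (a (nat_lit 0xbabb12866a504))
 (c (a (nat_lit 0x425a50bdf2ae245)) e e)
 (c (a (nat_lit 0x14746eab8fc343))
 (c (a (nat_lit 0x8d5d24da8ec4546)) e
 (c (a (nat_lit 0x1cb3d390cc400006)) e e))
 (c (a (nat_lit 0x15ee4e3245a543))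
 (c (a (nat_lit 0xfb3166a60000005)) e e)
 (c (a (nat_lit 0x15350c45c5a562)) e
 (c (a (nat_lit 0x1954f1d1b16023)) e
 (c (a (nat_lit 0x1d5a3a3b1f1f83)) e
 (c (a (nat_lit 0x11717173d350e6)) e
 (c (a (nat_lit 0x64648b56bcb64)) e
 (c z e
 (c (a (nat_lit 0xedc464489464)) e
 (c (a (nat_lit 0xe44a468b4a664)) e
 (c (a (nat_lit 0xc6c508e800004)) e e))))))))))))))))
 (c (a (nat_lit 0x4040404041))
 (c (a (nat_lit 0x14ec8eeeeee063))
 (c z e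
 (c z e
 (c (a (nat_lit 0x1fca538a5814ad25)) e
 (c z e
 (c (a (nat_lit 0xa23c685e8988fe6)) e
 (c (a (nat_lit 0x308680d598fd086)) e
 (c (a (nat_lit 0x1171b7d8b10aa006)) e
 (c (a (nat_lit 0x1925afc260000006)) e e))))))))
 (c (a (nat_lit 0x1e3ebebeb3b064))
 (c (a (nat_lit 0xa09ea8bad3149e7)) e
 (c (a (nat_lit 0xd6ff05373ee30c7)) e
 (c (a (nat_lit 0xd2fd1788c731686)) e
 (c z e
 (c z e
 (c (a (nat_lit 0x1491b7f66c800007)) e
 (c (a (nat_lit 0x95429a000000007)) e e)))))))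
 (c (a (nat_lit 0x1232322909ab84))
 (c z e
 (c z e
 (c z e
 (c z e
 (c (a (nat_lit 0x104d694620000006)) e
 (c (a (nat_lit 0x13e6000000000005)) e e))))))
 (c (b (nat_lit 0xe595fffffffe3)) e
 (c (a (nat_lit 0x122a88ece08063))
 (c (a (nat_lit 0x2716da748c32006)) e
 (c (a (nat_lit 0x1ad7ae2840000006)) e e))
 (c (a (nat_lit 0x12a10860e06022)) e
 (c (a (nat_lit 0xe6080c073c1)) e
 (c (a (nat_lit 0x1f9c3c1cf24c43)) e
 (c (a (nat_lit 0xf4f4f526bc9c5)) e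
 (c z e
 (c (a (nat_lit 0x76dcdab90d5c4)) e
 (c (a (nat_lit 0xa4a26111a70a3)) e
 (c (a (nat_lit 0x704ea6f6a7884)) e
 (c (a (nat_lit 0xcb236f2102004)) e
 (c (a (nat_lit 0x791a3e0000003)) e e)))))))))))))))
 (c (a (nat_lit 0x4040404041))
 (c (a (nat_lit 0x1030304c692b44))
 (c (a (nat_lit 0x76789c62d31a9e5)) e
 (c (a (nat_lit 0x6ea26a854a648e6)) e
 (c (a (nat_lit 0xbe6ad95a9a74c26)) e
 (c z e
 (c (a (nat_lit 0xa91896d0f450006)) e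
 (c (a (nat_lit 0x15514f0a00000006)) e
 (c (a (nat_lit 0x1609e00000000005)) e e)))))))
 (c (a (nat_lit 0x1f3f2cae7463e3))
 (c (a (nat_lit 0x7e4c11721464b85)) e
 (c z e
 (c z e
 (c (a (nat_lit 0x1b844d7105400006)) e
 (c (a (nat_lit 0x13102fa000000005)) e e)))))
 (c (a (nat_lit 0x13c927a8802024))
 (c (a (nat_lit 0xa78d8e500ec0385)) e
 (c (a (nat_lit 0x116020644664e007)) e e))
 (c (a (nat_lit 0x172ea760202062)) e
 (c (a (nat_lit 0x1fb0e2c2217221)) e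
 (c (a (nat_lit 0x1472d2f3198e43)) e
 (c (a (nat_lit 0x1c3c3ef06e0a83)) e
 (c z e
 (c (a (nat_lit 0x20830bf11164)) e
 (c z e
 (c z e
 (c (a (nat_lit 0xf12d2f1b1d1a4)) e e))))))))))))
 (c (a (nat_lit 0x20002001))
 (c (a (nat_lit 0x16eb3235519162))
 (c z e
 (c (a (nat_lit 0x61d72a8a80f6ca5)) e e))
 (c (a (nat_lit 0x1264f0a1a0c001))
 (c (a (nat_lit 0xdd063c0a503c046)) e e)
 (c (a (nat_lit 0x6b68908484101)) e
 (c (a (nat_lit 0x1c7918f8f52643)) e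
 (c (a (nat_lit 0x10d0910f85ade3)) e
 (c (a (nat_lit 0x10a94cac4b6be4)) e
 (c (a (nat_lit 0xaefcca8a7b262)) e
 (c (a (nat_lit 0x2a1e06e129083)) e e))))))))
 (c (a (nat_lit 0x4040404041))
 (c (a (nat_lit 0x2278080604121))
 (c (a (nat_lit 0x15e7c12643e10005)) e e)
 (c (a (nat_lit 0x1750504fe045a2)) e
 (c (a (nat_lit 0x1adaba90c534e3)) e
 (c z e
 (c (a (nat_lit 0x62f9176b841)) e
 (c (a (nat_lit 0x2343c5e66fa1)) e
 (c (a (nat_lit 0x2040a92a7524)) e e)))))))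
 (c (a (nat_lit 0x20002001))
 (c z e
 (c (a (nat_lit 0x15809073332f83)) e
 (c (b (nat_lit 0x23ff0afa969c3)) e
 (c (a (nat_lit 0x3f63680c4e741)) e
 (c (a (nat_lit 0x1a18565667125)) e
 (c (a (nat_lit 0x1666cd1d6b365)) e
 (c (a (nat_lit 0xa6a6f5d0eea63)) e
 (c (a (nat_lit 0x3b0e4602003)) e e))))))))
 (c (a (nat_lit 0x2020202021))
 (c (a (nat_lit 0x1032b2d2cb23)) e
 (c (a (nat_lit 0xd73f3f28aa003)) e
 (c (a (nat_lit 0xa0a0a82a07d83)) e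
 (c (a (nat_lit 0x42d09a94ed704)) e
 (c z e
 (c z e
 (c (a (nat_lit 0x108f50b000003)) e
 (c (a (nat_lit 0x12558000000002)) e e))))))))
 (c (a (nat_lit 0x1c1c1c1c1c1))
 (c (a (nat_lit 0xfaf8e2e0391e3)) e
 (c (a (nat_lit 0x58bacaaf038e4)) e
 (c z e
 (c z e
 (c (a (nat_lit 0x29cb556a4003)) e
 (c (a (nat_lit 0x16393380000002)) e e))))))
 (c (a (nat_lit 0x1dbdbdbdbda1))
 (c (a (nat_lit 0x72807a9f1d3e4)) e
 (c z e
 (c (a (nat_lit 0x7694d0efaf885)) e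
 (c (a (nat_lit 0x1215d70fa00005)) e
 (c (a (nat_lit 0x1b4ee000000004)) e e)))))
 (c (a (nat_lit 0x199999998903))
 (c (a (nat_lit 0x40444870c37c6)) e
 (c (a (nat_lit 0x1454771ddfe006)) e
 (c (a (nat_lit 0x18de1440000005)) e
 (c (a (nat_lit 0x13a00000000004)) e e))))
 (c (a (nat_lit 0x15d5d5d15123))
 (c (a (nat_lit 0x18589af4800005)) e
 (c (a (nat_lit 0x15ad4000000004)) e e))
 (c (a (nat_lit 0x2020805a62)) e
 (c (b (nat_lit 0x43f9bfe2)) e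
 (c (a (nat_lit 0x459802002)) e
 (c (a (nat_lit 0x4da20002002)) e
 (c (a (nat_lit 0x1b20c0e0c022)) e
 (c (a (nat_lit 0x6080604001)) e
 (c (a (nat_lit 0x18160402ee1)) e
 (c (a (nat_lit 0xceb8b3a8d41)) e
 (c (a (nat_lit 0xc6c1b6e2de1)) e
 (c (b (nat_lit 0x1fed60202021)) e
 (c (a (nat_lit 0xdc080a06001)) e
 (c (a (nat_lit 0xa060000001)) e e)))))))))))))))))))))))) Tr.c Tr.e (nat_lit 0) C.cx C.cy
noncomputable def C274 : Tr := beta% (fun (c : Nat → Tr → Tr → Tr) (e : Tr) (z : Nat) (a : Nat → Nat) =>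
 (c (a (nat_lit 0x20002001))
 (c (a (nat_lit 0x12525252524ba3))
 (c z e
 (c (a (nat_lit 0x34140808044b546)) e
 (c (a (nat_lit 0xbc68363b9e5cba3)) e
 (c (a (nat_lit 0x827676e558e3805)) e
 (c (a (nat_lit 0x3c40605c44490a6)) e
 (c z e
 (c (a (nat_lit 0xa066385282835c5)) e
 (c z e
 (c z e
 (c z e
 (c (a (nat_lit 0x56346246342d746)) e
 (c (a (nat_lit 0x383e36343653008)) e
 (c (a (nat_lit 0x138d6cce34774005)) e e)))))))))))))
 (c (a (nat_lit 0xaaaaaaaba9a04))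
 (c (a (nat_lit 0x221018184162686)) e
 (c (a (nat_lit 0x1618524772721e6)) e
 (c (a (nat_lit 0x23c35d4c88e526)) e
 (c z e
 (c (a (nat_lit 0x7bcee098e0c4d06)) e
 (c (a (nat_lit 0x1703a3a80a6e8b46)) e
 (c (a (nat_lit 0xaeaf49777bd4fe5)) e
 (c (a (nat_lit 0x8cd4ecdf0a9a946)) e
 (c z e
 (c (a (nat_lit 0x3670a82e252c746)) e
 (c (a (nat_lit 0x40523c3e4b34348)) e
 (c (a (nat_lit 0x124e4f2fb9c00006)) e e))))))))))))
 (c (a (nat_lit 0x16161702ec345))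
 (c (a (nat_lit 0xd6d8c9156b2b5e5)) e
 (c z e
 (c z e
 (c z e
 (c (a (nat_lit 0x5e3e667d38b4306)) e
 (c z e
 (c z e
 (c z e
 (c (a (nat_lit 0xd4c6504d7852fa6)) e
 (c (a (nat_lit 0x60445a6b346c008)) e
 (c (a (nat_lit 0x9ad323a60000006)) e e)))))))))))
 (c (a (nat_lit 0x20321c84c404))
 (c z e
 (c (a (nat_lit 0xecbadb68ed0b046)) e
 (c (a (nat_lit 0x80b67b62e916866)) e
 (c z e
 (c z e
 (c z e
 (c (a (nat_lit 0xa50ac86e7387f25)) e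
 (c (a (nat_lit 0x5244212a0a76187)) e e))))))))
 (c (a (nat_lit 0x72086744c4c4))
 (c (a (nat_lit 0x585102907c74906)) e
 (c (a (nat_lit 0x3f74ff0ccae4045)) e
 (c z e
 (c (a (nat_lit 0x240ebc721c4bc66)) e
 (c (a (nat_lit 0x3896324c79166)) e
 (c (a (nat_lit 0x509a566abd5ace6)) e
 (c (a (nat_lit 0x7c59c838cc22006)) e e)))))))
 (c (a (nat_lit 0x17d2a20402003))
 (c (a (nat_lit 0x15f699b715737946)) e
 (c (a (nat_lit 0x2a86434026f306)) e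
 (c (a (nat_lit 0x4480460e8746ba6)) e
 (c (a (nat_lit 0x6aa27ad17d86766)) e
 (c (a (nat_lit 0x4828af5534e45a6)) e
 (c (a (nat_lit 0x49d87ebc4000006)) e e))))))
 (c (a (nat_lit 0xaa7c040203883))
 (c (a (nat_lit 0x663624243a211e6)) e
 (c (a (nat_lit 0x6e36264f68a2506)) e e))
 (c (a (nat_lit 0x5202020322944))
 (c (a (nat_lit 0x3c344f266a7c146)) e
 (c (a (nat_lit 0x7281795660443a6)) e
 (c z e
 (c (a (nat_lit 0x1370870000000006)) e e))))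
 (c (a (nat_lit 0x22224d6cbed84))
 (c z e
 (c (a (nat_lit 0x1072270420000007)) e
 (c (a (nat_lit 0x1f00400000000005)) e e)))
 (c (a (nat_lit 0x686d8b090ece4))
 (c (a (nat_lit 0x1c7ca84000000005)) e
 (c (a (nat_lit 0x16a0000000000005)) e e))
 (c (a (nat_lit 0x59d351712f304)) e
 (c (a (nat_lit 0x151313127293e6)) e
 (c (a (nat_lit 0x175796587b5845)) e
 (c (a (nat_lit 0x10ec2c77ec0383)) e
 (c (a (nat_lit 0xf2f7a8e668663)) e
 (c (a (nat_lit 0x8d42800a08063)) e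
 (c (a (nat_lit 0x1df1c9ea0a0a03)) e
 (c (a (nat_lit 0x100040c0404022)) e e))))))))))))))))))
 (c (a (nat_lit 0x4040404041))
 (c (a (nat_lit 0x9494956b68c64))
 (c z e
 (c (a (nat_lit 0xa8a8d4ff16d77e4)) e
 (c (a (nat_lit 0x8892c8d0dd03525)) e
 (c (a (nat_lit 0x229e7e7c5a73225)) e
 (c z e
 (c (a (nat_lit 0x6484d700f92c8c5)) e
 (c z e
 (c (a (nat_lit 0x1090b2156a8a27c5)) e
 (c z e
 (c (a (nat_lit 0xc70a766cab2a045)) e
 (c (a (nat_lit 0x906458776c0c006)) e e)))))))))))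
 (c (a (nat_lit 0x808e740304a5))
 (c z e
 (c (a (nat_lit 0x52f33b3569c9fc5)) e
 (c (a (nat_lit 0x6270565474e7066)) e
 (c (a (nat_lit 0xa282c4dd072ec86)) e
 (c (a (nat_lit 0x3ecb6137d4e2e05)) e
 (c (a (nat_lit 0x4a85376c96860a5)) e
 (c (a (nat_lit 0xa8fd68c68c14345)) e
 (c (a (nat_lit 0xbf2b10da4be80c5)) e
 (c (a (nat_lit 0x1ef48eaff585c6e5)) e
 (c (a (nat_lit 0x98968b482400006)) e
 (c (a (nat_lit 0x10edb56000000006)) e e)))))))))))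
 (c (a (nat_lit 0x40d57c7082825))
 (c (a (nat_lit 0x82a08e9ac6b12e6)) e
 (c z e
 (c z e
 (c z e
 (c (a (nat_lit 0xc6ab66d88a586c6)) e
 (c (a (nat_lit 0x51db28943e39a25)) e
 (c (a (nat_lit 0xb09e4a2e466b0c6)) e e)))))))
 (c (a (nat_lit 0x11e864a5252524))
 (c z e
 (c z e
 (c (a (nat_lit 0x5a6a703482d1226)) e
 (c (a (nat_lit 0xb6b47d04db82fe6)) e
 (c (a (nat_lit 0xb26318e664a42c5)) e
 (c (a (nat_lit 0x5318aa0e3f66305)) e e))))))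
 (c (a (nat_lit 0x15b0cd0caca003))
 (c (a (nat_lit 0x42422236404d226)) e
 (c (a (nat_lit 0x181e12081b42847)) e
 (c (a (nat_lit 0x32182231aad0ac6)) e
 (c (a (nat_lit 0xa86e8bb5325af05)) e e))))
 (c (a (nat_lit 0x127110d0c4e0e3))
 (c (a (nat_lit 0x340a021af14a9c6)) e
 (c (a (nat_lit 0x20c1fa13714026)) e
 (c (a (nat_lit 0x4c5b3f0c9a805a6)) e e)))
 (c (a (nat_lit 0x13b33330cc20c2))
 (c z e
 (c (a (nat_lit 0x66b7590ea472006)) e e))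
 (c (a (nat_lit 0x1e7e7cdbf64ca3)) e
 (c (a (nat_lit 0x156e0dcb41e1c3)) e
 (c (a (nat_lit 0x13530d8a09f103)) e
 (c (a (nat_lit 0x9a7088548f9c4)) e
 (c (a (nat_lit 0xa2b0b0e164785)) e
 (c (a (nat_lit 0x20207024a6a4)) e
 (c (a (nat_lit 0x407024c6ae84)) e
 (c (a (nat_lit 0x3004c6eed144)) e
 (c (a (nat_lit 0x12e789b19416c4)) e
 (c (a (nat_lit 0xfd1d99c2f8004)) e
 (c (a (nat_lit 0xef70ca0000004)) e
 (c (a (nat_lit 0x14e00000000003)) e e)))))))))))))))))))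
 C273))) Tr.c Tr.e (nat_lit 0) C.cx
noncomputable def C275 : Tr := beta% (fun (c : Nat → Tr → Tr → Tr) (e : Tr) (z : Nat) (a b : Nat → Nat) =>
 (c z
 (c (a (nat_lit 0x58a95cb27a5c5c2)) e
 (c (a (nat_lit 0x104a4340a0202e64))
 (c z e
 (c z e
 (c z e
 (c z e
 (c z e
 (c z e
 (c z e
 (c z e
 (c z e
 (c (a (nat_lit 0x3234261a0d3c864a7)) e
 (c (a (nat_lit 0x9aa4725ca7eeca006)) e e)))))))))))
 (c (a (nat_lit 0x983e2a22232ac04)) e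
 (c z e
 (c (a (nat_lit 0x1313131b397f0023)) e
 (c (a (nat_lit 0x1272763574ebe7e4)) e
 (c z e
 (c z e
 (c z e
 (c z e
 (c z e
 (c z e
 (c (a (nat_lit 0x1439d6566262a003)) e
 (c (b (nat_lit 0x11af903fe5664744)) e
 (c (a (nat_lit 0x608bd17289b503)) e e)))))))))))))))
 (c z
 (c (a (nat_lit 0x10442040203da9a3))
 (c z e
 (c z e
 (c z e
 (c z e
 (c z e
 (c z e
 (c z e
 (c z e
 (c z e
 (c (a (nat_lit 0x4a5a52433ec854427)) e
 (c z e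
 (c (a (nat_lit 0x1345e7c4e000000007)) e e))))))))))))
 (c (a (nat_lit 0x321c1c1f1e744e5)) e
 (c (a (nat_lit 0x787677608842004))
 (c z e
 (c z e
 (c z e
 (c z e
 (c z e
 (c z e
 (c z e
 (c (a (nat_lit 0x1a455478506200007)) e e))))))))
 (c z e
 (c z e
 (c (a (nat_lit 0x1084a6088c240784))
 (c z e
 (c (a (nat_lit 0x125ba9e98968134fc6)) e e))
 (c z e
 (c z e
 (c z e
 (c (a (nat_lit 0x1aac9f54372ba084)) e
 (c (a (nat_lit 0xb9b33762a6b6024)) e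
 (c (a (nat_lit 0x175354ab8baab0c5)) e
 (c (b (nat_lit 0xb0e3fffeeb00685)) e e)))))))))))))
 (c z
 (c (a (nat_lit 0x8082830cba9f185)) e
 (c z e
 (c z e
 (c z e
 (c (a (nat_lit 0x92ab4794ed80384)) e
 (c (a (nat_lit 0xb4fd04e538887c5)) e
 (c z e
 (c (a (nat_lit 0x10ebb10727848385)) e
 (c (a (nat_lit 0x9b30aca29024065)) e
 (c (a (nat_lit 0x1309aa6908408025)) e
 (c (a (nat_lit 0x1010b8d8bcf046a4)) e
 (c (a (nat_lit 0x195ebe3b9ab813c5)) e e))))))))))))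
 (c z
 (c (a (nat_lit 0x142e0d8de2a032e4)) e
 (c (a (nat_lit 0xb8b08c3038c5d45))
 (c z e
 (c z e
 (c z e
 (c (a (nat_lit 0xd32efeb4a45440a07)) e
 (c (a (nat_lit 0x150c4849c6a5058007)) e e)))))
 (c z e
 (c z e
 (c z e
 (c (a (nat_lit 0x23fd47e19b3a03)) e
 (c (a (nat_lit 0x8df51aeb5715684)) e
 (c (a (nat_lit 0x132caaef28aaa6c5)) e
 (c (a (nat_lit 0xeca1834efa18de4)) e
 (c z e
 (c z e
 (c (a (nat_lit 0x424c365662710c7)) e
 (c (a (nat_lit 0x1fd2705468e00004)) e e)))))))))))))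
 (c (a (nat_lit 0x202020203684))
 (c z e
 (c z e
 (c z e
 (c z e
 (c (a (nat_lit 0x5766a48b1cab24)) e
 (c (a (nat_lit 0x1c8f0be3f05dcb83)) e
 (c (a (nat_lit 0x11ef12e935954143)) e
 (c z e
 (c z e
 (c z e
 (c (a (nat_lit 0x9492bcbaeb72007)) e e)))))))))))
 (c (a (nat_lit 0x2020203fd1a4))
 (c z e
 (c z e
 (c z e
 (c z e
 (c (a (nat_lit 0xc93afc98f7be9e4)) e
 (c (a (nat_lit 0x1571e405ac2c6c64)) e
 (c z e
 (c (a (nat_lit 0x1c2825cbd3368e5)) e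
 (c (a (nat_lit 0x180c5091108c027)) e e)))))))))
 (c (b (nat_lit 0x202037e1dfe5))
 (c (a (nat_lit 0x364a4c312ced1e5)) e
 (c (a (nat_lit 0xbca6718b5185485)) e
 (c (a (nat_lit 0x1e0c90729487586)) e
 (c z e
 (c z e
 (c (a (nat_lit 0x7a78698d751af86)) e
 (c (a (nat_lit 0x5225a1e5b0c6566)) e e)))))))
 (c (a (nat_lit 0x2a2bb90a3c024))
 (c z e
 (c z e
 (c (a (nat_lit 0x56ed3c2ea08e4)) e
 (c z e
 (c (a (nat_lit 0x424c73027326025)) e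
 (c (a (nat_lit 0x60d1610078343c6)) e e))))))
 (c (a (nat_lit 0x2dcd363a14144))
 (c z e
 (c (a (nat_lit 0x8a53696a428744)) e
 (c (a (nat_lit 0x587074b438ad9c5)) e e)))
 (c (a (nat_lit 0x1e0cc800e0a0a3))
 (c (a (nat_lit 0x6554aebed4cd9e4)) e
 (c (a (nat_lit 0x8cc0da92f5fc625)) e e))
 (c (a (nat_lit 0x5a3e060405024))
 (c (a (nat_lit 0x8c9c54e1565e245)) e e)
 (c (a (nat_lit 0x480a0a0b0cfe4))
 (c (a (nat_lit 0xcfc48fceb400005)) e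
 (c (a (nat_lit 0x1506e98000000006)) e e))
 (c (a (nat_lit 0x2035d4f8a4)) e
 (c (a (nat_lit 0x4040f8f310ae5)) e
 (c (a (nat_lit 0x954b457715145)) e
 (c (a (nat_lit 0x17557e2504e5a3)) e
 (c (a (nat_lit 0xc30236383e464)) e
 (c (a (nat_lit 0x10036364044304)) e
 (c (a (nat_lit 0xfcfd173ef0e62)) e e)))))))))))))))))))) Tr.c Tr.e (nat_lit 0) C.cx C.cy
noncomputable def C276 : Tr := beta% (fun (c : Nat → Tr → Tr → Tr) (e : Tr) (z : Nat) (a : Nat → Nat) =>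
 (c z
 (c (a (nat_lit 0x62636f0e8c10023))
 (c z e
 (c z e
 (c z e
 (c z e
 (c z e
 (c z e
 (c z e
 (c z e
 (c z e
 (c (a (nat_lit 0x4656345a40483d926)) e
 (c (a (nat_lit 0x3e2038866e1a23826)) e e)))))))))))
 (c (a (nat_lit 0x19d6fc560402024))
 (c z e
 (c z e
 (c z e
 (c z e
 (c z e
 (c z e
 (c z e
 (c z e
 (c (a (nat_lit 0x5c464230443d28747)) e
 (c (a (nat_lit 0x1e0c62541e575e6c7)) e e))))))))))
 (c (a (nat_lit 0x529c56060607465))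
 (c z e
 (c z e
 (c z e
 (c z e
 (c (a (nat_lit 0x2cac6644046f14027)) e
 (c (a (nat_lit 0xa0e4be2e1e24a7d46)) e
 (c (a (nat_lit 0xff3a7070667db9b06)) e
 (c (a (nat_lit 0x4242361e2d9478a07)) e e))))))))
 (c (a (nat_lit 0x19254886063fd783))
 (c z e
 (c z e
 (c z e
 (c (a (nat_lit 0x566e66708d2ca88a7)) e
 (c (a (nat_lit 0x8c7e6416a0b9faca6)) e
 (c (a (nat_lit 0x9884526c815f00c07)) e
 (c (a (nat_lit 0x480c261d08b49c7a7)) e e)))))))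
 (c (a (nat_lit 0xac5a4e4f9715be3))
 (c z e
 (c z e
 (c z e
 (c (a (nat_lit 0x38280c4c79329ec87)) e e))))
 (c (a (nat_lit 0xdad4d58d350e024))
 (c z e
 (c (a (nat_lit 0x3276d1a16708e6e07)) e e))
 (c z e
 (c z e
 (c z e
 (c z e
 (c z e
 (c (a (nat_lit 0x170fd0ce0c2b47c5)) e
 (c (a (nat_lit 0x116eaeeced810485)) e
 (c z e
 (c (a (nat_lit 0x1d1bdd98920a9324)) e e)))))))))))))))
 (c z
 (c (a (nat_lit 0xf08c281010112a4))
 (c z e
 (c z e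
 (c z e
 (c z e
 (c z e
 (c z e
 (c z e
 (c z e
 (c z e
 (c (a (nat_lit 0x227e48364d72cd006)) e e))))))))))
 (c (a (nat_lit 0x722226222340b25))
 (c z e
 (c z e
 (c z e
 (c z e
 (c z e
 (c z e
 (c z e
 (c z e
 (c z e
 (c z e
 (c (a (nat_lit 0x10c5c6c3a000000008)) e e)))))))))))
 (c (a (nat_lit 0x86c0b8b98cc6a04))
 (c z e
 (c z e
 (c z e
 (c z e
 (c (a (nat_lit 0x9e602646577c52147)) e e)))))
 (c (a (nat_lit 0x1292325b90b3c504)) e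
 (c z e
 (c z e
 (c z e
 (c z e
 (c z e
 (c z e
 (c (a (nat_lit 0x13f1b30a30ae5005)) e
 (c (a (nat_lit 0x1cfb4c3a4c2f04e4)) e e))))))))))))
 (c z
 (c (a (nat_lit 0xb6c6c2c5e5a5c04)) e
 (c (a (nat_lit 0xd6d2d53114f66a5)) e
 (c (a (nat_lit 0xb4d10f153ac39a5)) e
 (c z e
 (c z e
 (c (a (nat_lit 0x7d8ed564c030324)) e
 (c z e
 (c z e
 (c z e
 (c z e
 (c (a (nat_lit 0x10547493fb9407a4)) e
 (c z e
 (c (a (nat_lit 0x12f79c56eeeab285)) e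
 (c (a (nat_lit 0x145d7b0a2423c3a4)) e
 (c (a (nat_lit 0x19d786a080200004)) e
 (c (a (nat_lit 0x1746602000000004)) e e))))))))))))))))
 (c z
 (c z e
 (c (a (nat_lit 0x122609eca08f0b45)) e
 (c (a (nat_lit 0x24363c387077025)) e
 (c z e
 (c z e
 (c z e
 (c z e
 (c (a (nat_lit 0x7b58f6cf0c52864)) e
 (c z e
 (c (a (nat_lit 0x968383978d3e044)) e
 (c z e
 (c z e
 (c (a (nat_lit 0x18bc17cc6986c004)) e
 (c (a (nat_lit 0x1833e862e0000004)) e e))))))))))))))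
 (c z
 (c (a (nat_lit 0x12507a08f875d64)) e
 (c z e
 (c z e
 (c z e
 (c z e
 (c (a (nat_lit 0x50e7582c085e905)) e
 (c (a (nat_lit 0xd74e28340a3c765)) e
 (c (a (nat_lit 0x14a1e2a6c24064a5)) e
 (c (a (nat_lit 0x89ed0ca9c8b646)) e
 (c z e
 (c (a (nat_lit 0xa6b2c4c0badd767)) e e)))))))))))
 (c (a (nat_lit 0x606060607404))
 (c z e
 (c z e
 (c z e
 (c z e
 (c (a (nat_lit 0x104d2d8683c039a5)) e
 (c (a (nat_lit 0x1333eec58034fb05)) e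
 (c (a (nat_lit 0x1772302150d48dc5)) e
 (c (a (nat_lit 0x544614b6fd1ce06)) e e))))))))
 (c (a (nat_lit 0x2020203c4684))
 (c z e
 (c z e
 (c z e
 (c (a (nat_lit 0x5a265626296ea45)) e
 (c z e
 (c z e
 (c (a (nat_lit 0x18145ed52ac0d86)) e e)))))))
 (c (a (nat_lit 0x2a2a2b7ef22c4))
 (c z e
 (c z e
 (c (a (nat_lit 0x84c469d82d6264)) e
 (c z e
 (c z e
 (c (a (nat_lit 0xe5f09e5b2a2025)) e e))))))
 (c (a (nat_lit 0x2c2dab302a4a4))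
 (c z e
 (c z e
 (c z e
 (c z e
 (c (a (nat_lit 0x7af32ed612ca886)) e e)))))
 (c (a (nat_lit 0x2ba260303c3c4))
 (c (a (nat_lit 0xe1f84ba66631a4)) e
 (c (a (nat_lit 0xefdd70eeb0a725)) e
 (c (a (nat_lit 0x13574aab070c50a5)) e e)))
 (c (a (nat_lit 0x1a0aa5e7676743))
 (c (a (nat_lit 0x8f9afced105c845)) e e)
 (c (a (nat_lit 0x8a3e504e4f323))
 (c (a (nat_lit 0xb2b4ec971e46006)) e
 (c (a (nat_lit 0x1a14ce6c60000006)) e e))
 (c (a (nat_lit 0x61a0e0ef5f03))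
 (c (a (nat_lit 0x160aa4a000000005)) e e)
 (c (a (nat_lit 0x302c2ca0df2c5)) e
 (c (a (nat_lit 0x90910351a1685)) e
 (c (a (nat_lit 0x842bf52e4664)) e
 (c z e
 (c (a (nat_lit 0xbd52e26a72164)) e
 (c (a (nat_lit 0x158ee727c1c0c4)) e
 (c z e
 (c z e
 (c (a (nat_lit 0x1f08c4e0602002)) e
 (c (a (nat_lit 0x166ee2e0000001)) e e)))))))))))))))))))))))) Tr.c Tr.e (nat_lit 0) C.cx
noncomputable def C277 : Tr := beta% (fun (c : Nat → Tr → Tr → Tr) (e : Tr) (z : Nat) (a b : Nat → Nat) =>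
 (c (a (nat_lit 0x20002001))
 (c z
 (c z e
 (c (a (nat_lit 0x86868740caa8003)) e
 (c (a (nat_lit 0x405fbf0d01c1c2))
 (c z e
 (c z e
 (c z e
 (c z e
 (c z e
 (c z e
 (c z e
 (c z e
 (c z e
 (c z e
 (c (a (nat_lit 0x2c466c623a843f0e7)) e e)))))))))))
 (c (a (nat_lit 0x26f22aa3838363))
 (c z e
 (c z e
 (c z e
 (c z e
 (c z e
 (c z e
 (c z e
 (c z e
 (c z e
 (c (a (nat_lit 0x8ae0584e645dd09a6)) e e))))))))))
 (c (a (nat_lit 0x5409c5c5858903)) e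
 (c (a (nat_lit 0x17918b89c9cb9542)) e
 (c z e
 (c (b (nat_lit 0x1170d0dff72fa043)) e
 (c (a (nat_lit 0x6274c6f72f20944)) e
 (c z e
 (c (a (nat_lit 0xf1158578e0e2864)) e
 (c (a (nat_lit 0x119897ce4e482484)) e
 (c (a (nat_lit 0x13b2e96963e180c4)) e
 (c (a (nat_lit 0x116caca8074742c5)) e
 (c (a (nat_lit 0x1a7995d5e868e504)) e
 (c (a (nat_lit 0x154fafcfc5a2c544)) e e))))))))))))))))
 C276)
 (c (a (nat_lit 0x2020002021)) C275
 (c (a (nat_lit 0x2020002001))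
 (c z
 (c z e
 (c (a (nat_lit 0x868687028e6e645)) e
 (c (a (nat_lit 0x9c9f02661a02384)) e
 (c (a (nat_lit 0xef88564c048c3c3)) e
 (c z e
 (c z e
 (c z e
 (c z e
 (c z e
 (c z e
 (c z e
 (c (a (nat_lit 0xf911351cf6feb65)) e
 (c (a (nat_lit 0x75cdd5b5c31d3c4)) e
 (c (a (nat_lit 0x5508d8fa5cb7943)) e e))))))))))))))
 (c z
 (c (a (nat_lit 0xc6c9b6ea9c70924)) e
 (c (a (nat_lit 0x1059c806c10375c4))
 (c z e
 (c z e
 (c z e
 (c z e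
 (c z e
 (c (a (nat_lit 0x992ea64c78528a608)) e
 (c (a (nat_lit 0x1dee54c9afe9800007)) e e)))))))
 (c (a (nat_lit 0x19a82301e38ae244)) e
 (c (a (nat_lit 0x1c0a0636d7aa584)) e
 (c (a (nat_lit 0x1292f418d6535165)) e
 (c z e
 (c (a (nat_lit 0x471656508adeea4)) e
 (c (a (nat_lit 0x11e5060b0d292404)) e
 (c (a (nat_lit 0x3e5ed51cb014dc4)) e
 (c z e
 (c (a (nat_lit 0x121353d93b1034e5)) e
 (c z e
 (c (a (nat_lit 0x222048102e0b9e6)) e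
 (c z e
 (c (a (nat_lit 0x19ec088000000004)) e e)))))))))))))))
 (c (a (nat_lit 0x404040405ce3))
 (c (a (nat_lit 0x522a081e023b025))
 (c z e
 (c z e
 (c z e
 (c z e
 (c (a (nat_lit 0xc770b46480b4c2c67)) e
 (c (a (nat_lit 0x10eda828c767a64007)) e e))))))
 (c (a (nat_lit 0x4c0c201c414aa45))
 (c z e
 (c z e
 (c (a (nat_lit 0x114bc92605c7c6c727)) e
 (c (a (nat_lit 0x1444408304a8a64487)) e e))))
 (c (b (nat_lit 0x2142fff4cb6ba5)) e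
 (c z e
 (c (a (nat_lit 0x2631cb87d0f1a5)) e
 (c (a (nat_lit 0x3ad86046db0dd25)) e
 (c (a (nat_lit 0xfa6a4ec6dd7e585)) e
 (c (a (nat_lit 0xe8cd6d5df0a8d45)) e
 (c z e
 (c z e
 (c (a (nat_lit 0x2a3e201e1c35128)) e
 (c (a (nat_lit 0x1045e9a8ca7e8006)) e e))))))))))))
 (c (a (nat_lit 0x202020373004))
 (c (a (nat_lit 0xe0c0402b978d84)) e
 (c z e
 (c z e
 (c z e
 (c z e
 (c (a (nat_lit 0xc68886633b02505)) e
 (c (a (nat_lit 0xfada17afc4735c4)) e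
 (c z e
 (c (a (nat_lit 0x67c86266376066)) e
 (c z e
 (c (a (nat_lit 0x504064750400007)) e e)))))))))))
 (c (a (nat_lit 0x2020334d4145))
 (c z e
 (c (a (nat_lit 0x3e40204b06deb66)) e
 (c (a (nat_lit 0x5a2e7a8d74c6cc6)) e
 (c z e
 (c z e
 (c z e
 (c (a (nat_lit 0x9e548306b674b86)) e
 (c (a (nat_lit 0x5e78d08d1a427e7)) e e))))))))
 (c (a (nat_lit 0x203203824145))
 (c z e
 (c (a (nat_lit 0x3e18d6d0be8b1e6)) e
 (c z e
 (c z e
 (c (a (nat_lit 0x5c5a6b42fc264c6)) e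
 (c (a (nat_lit 0x4c4519302454be6)) e
 (c (a (nat_lit 0x3eb0d3164c742a7)) e e)))))))
 (c (a (nat_lit 0x2b52fa4a02004))
 (c z e
 (c z e
 (c (a (nat_lit 0x6ec7229276c58a5)) e
 (c (a (nat_lit 0x78729a7a80815e6)) e
 (c (a (nat_lit 0x7658c69c90a1685)) e
 (c (a (nat_lit 0x507914142e1e007)) e e))))))
 (c (a (nat_lit 0x1672446100e0e4))
 (c (a (nat_lit 0xf9b378848d70684)) e
 (c (a (nat_lit 0x9eca705c990eb86)) e
 (c (a (nat_lit 0x3c363e5c3742126)) e e)))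
 (c (a (nat_lit 0x4c4e0202030e4))
 (c (a (nat_lit 0xe8865e79e4f61c5)) e
 (c (a (nat_lit 0x8e5c550b8c2c0e6)) e e))
 (c (a (nat_lit 0x4c0202030e724))
 (c z e
 (c z e
 (c (a (nat_lit 0x3d4286000000006)) e e)))
 (c (a (nat_lit 0x80809187c6a4))
 (c (a (nat_lit 0xd4c7e0860000005)) e
 (c (a (nat_lit 0x1e9ca00000000005)) e e))
 (c (a (nat_lit 0xa4a5590d0f085)) e
 (c (a (nat_lit 0xf9b96b6f69725)) e
 (c (a (nat_lit 0x196fd0921372e4)) e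
 (c z e
 (c z e
 (c (a (nat_lit 0x127695120f6f02)) e
 (c z e
 (c (a (nat_lit 0x13314fefcfcfc3)) e e)))))))))))))))))))
 C274)))) Tr.c Tr.e (nat_lit 0) C.cx C.cy
noncomputable def C278 : Tr := beta% (fun (c : Nat → Tr → Tr → Tr) (e : Tr) (z : Nat) (a b : Nat → Nat) =>
 (c z
 (c (a (nat_lit 0x7ff1306e2422223))
 (c z e
 (c z e
 (c z e
 (c z e
 (c z e
 (c z e
 (c z e
 (c (a (nat_lit 0x12f41612cdcb73fd05)) e
 (c z e
 (c (a (nat_lit 0x1e2450322c27074e7)) e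
 (c (a (nat_lit 0x46548e5e38a37e7a7)) e e)))))))))))
 (c (a (nat_lit 0x2a52160202033c6))
 (c z e
 (c z e
 (c z e
 (c z e
 (c z e
 (c (a (nat_lit 0x388cd0800a2ebfe26)) e
 (c (a (nat_lit 0x2a543e222835153a8)) e
 (c (a (nat_lit 0x28442824273117168)) e e))))))))
 (c (a (nat_lit 0x6e08121011fc0e5))
 (c (a (nat_lit 0x14ee0d903336d2d047)) e
 (c z e
 (c z e
 (c z e
 (c (a (nat_lit 0x98ce401a688762c27)) e
 (c (a (nat_lit 0xb846081e514f411a7)) e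
 (c (a (nat_lit 0x521e3846a949baa87)) e e)))))))
 (c (b (nat_lit 0x22141415e3fffe5))
 (c z e
 (c z e
 (c z e
 (c (a (nat_lit 0xae8e2e9e8c18a3807)) e
 (c z e
 (c (a (nat_lit 0x8201ab4df90b43e7)) e e))))))
 (c (a (nat_lit 0x3232411e282e266))
 (c z e
 (c z e
 (c (a (nat_lit 0x8ac88c96530d9f007)) e e)))
 (c z e
 (c (a (nat_lit 0x494466708276586))
 (c z e
 (c z e
 (c (a (nat_lit 0x2ca15278443c00007)) e e)))
 (c (a (nat_lit 0x1bed2d4e8e4c8b86))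
 (c (a (nat_lit 0x10d58e4544a5636007)) e
 (c (a (nat_lit 0x14182a42e540000007)) e e))
 (c (a (nat_lit 0x1a5c1d9ebc589625))
 (c (a (nat_lit 0x1ceee283a000000006)) e e)
 (c z e
 (c (a (nat_lit 0x191b78f5908e30a5)) e
 (c z e
 (c z e
 (c (a (nat_lit 0x1936d67856ce7705)) e e))))))))))))))
 (c z
 (c (a (nat_lit 0x100a6b4b4b57f084))
 (c z e
 (c z e
 (c z e
 (c z e
 (c z e
 (c (a (nat_lit 0x486a402a125715447)) e
 (c (a (nat_lit 0x6a382a16296d769c7)) e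
 (c (a (nat_lit 0x4a38224ba7511e3a7)) e e))))))))
 (c (a (nat_lit 0xf73b3955bed0284))
 (c z e
 (c z e
 (c z e
 (c z e
 (c (a (nat_lit 0x96724652791b0c8e8)) e
 (c (a (nat_lit 0x380a040aef3c66048)) e
 (c (a (nat_lit 0x282e37111afc42248)) e e)))))))
 (c (a (nat_lit 0x1474781b50106b24))
 (c z e
 (c z e
 (c (a (nat_lit 0xaa76a4440d0bd2ba7)) e
 (c (a (nat_lit 0x5a1e2e3a8908fc748)) e
 (c (a (nat_lit 0xc1a12bb1a8a24188)) e
 (c (a (nat_lit 0x202ce525105c2e288)) e e))))))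
 (c z e
 (c (a (nat_lit 0x14384df1ebad7024))
 (c z e
 (c (a (nat_lit 0x4c5b1976882b58d07)) e e))
 (c (a (nat_lit 0x1089ac4e4f70afc5))
 (c z e
 (c (a (nat_lit 0xbd465c18323e20008)) e
 (c (a (nat_lit 0x1b17c6486480000007)) e e)))
 (c (a (nat_lit 0x1273d5d739d43345))
 (c (a (nat_lit 0x1ccb8405c683c00007)) e
 (c (a (nat_lit 0x176705a5e000000007)) e e))
 (c z e
 (c (a (nat_lit 0xf1072906dca49c6)) e
 (c (a (nat_lit 0x1817d8d167422524)) e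
 (c (a (nat_lit 0x141230cf0d4e2e46)) e
 (c (a (nat_lit 0x1b5a79b8d9381a27)) e e))))))))))))
 (c z
 (c (a (nat_lit 0x18381b94702bc564)) e
 (c (a (nat_lit 0x1357ada927414005))
 (c z e
 (c (a (nat_lit 0xd51fa1027f0083807)) e
 (c (a (nat_lit 0xdb811aa8cd4ec26c7)) e
 (c z e
 (c z e
 (c (a (nat_lit 0x384925a69e1e28007)) e e))))))
 (c (a (nat_lit 0x13eac726a0202285))
 (c z e
 (c (a (nat_lit 0x124e8f850c2f0ad0c7)) e
 (c z e
 (c (a (nat_lit 0x101f3b1e345a7c287)) e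
 (c (a (nat_lit 0x1ae9065a3c3400008)) e
 (c (a (nat_lit 0x9f771c9a000000007)) e e))))))
 (c (a (nat_lit 0x3c2a04100217266))
 (c (a (nat_lit 0xa4aca8925e5305247)) e
 (c (a (nat_lit 0x78a45e182d092a927)) e
 (c (a (nat_lit 0x1216ad4590f7898007)) e e)))
 (c (a (nat_lit 0x6a52605e8190906))
 (c z e
 (c (a (nat_lit 0x168721c2a743800007)) e
 (c (a (nat_lit 0x11458363a000000007)) e e)))
 (c (a (nat_lit 0x162424352c40486)) e
 (c (a (nat_lit 0x6464776a8082906)) e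
 (c (a (nat_lit 0x504f72808ca4b06)) e
 (c (a (nat_lit 0xb104652669ea66)) e
 (c (a (nat_lit 0x1c4122c70cb1c1c5)) e
 (c (a (nat_lit 0x4856a0c90482ba6)) e
 (c (a (nat_lit 0xf741a1eb3b576a6)) e
 (c (a (nat_lit 0xdb4dc080768e7a5)) e
 (c (a (nat_lit 0xdb500c101600005)) e e))))))))))))))
 (c z
 (c (a (nat_lit 0x13eb47a7e2802024)) e
 (c (a (nat_lit 0x10c822a280203804))
 (c (a (nat_lit 0x104ecb75ed952cd107)) e
 (c z e
 (c z e
 (c z e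
 (c (a (nat_lit 0x14ba2b0ae700000007)) e e)))))
 (c (a (nat_lit 0x240202020a57166)) e
 (c (a (nat_lit 0x3234585e7550146)) e
 (c z e
 (c (a (nat_lit 0x382a312c0610086)) e
 (c (a (nat_lit 0x467180668044ba6)) e
 (c (a (nat_lit 0x717e667c66a26c6)) e
 (c (a (nat_lit 0x1301a4c469a42f26)) e
 (c (a (nat_lit 0x47cc5970b19c85)) e
 (c (a (nat_lit 0xb2c504e4e6ed2c7)) e
 (c (a (nat_lit 0x23ea98acb498004)) e
 (c (a (nat_lit 0x1500c1a200000004)) e e)))))))))))))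
 (c z
 (c (a (nat_lit 0x6a322e2e59dd143)) e
 (c (a (nat_lit 0x109091b23573f506)) e
 (c z e
 (c z e
 (c (a (nat_lit 0xd4eedb12f4e6e06)) e
 (c (a (nat_lit 0x14355c3ab3f0f545)) e
 (c (a (nat_lit 0x98cebeb056673e6)) e
 (c (a (nat_lit 0xcedaead8d9d1926)) e
 (c (a (nat_lit 0x929e9c84e0cf4a7)) e
 (c z e
 (c (a (nat_lit 0xe050a123c00005)) e e)))))))))))
 (c (a (nat_lit 0x12525252525525))
 (c z e
 (c z e
 (c z e
 (c (a (nat_lit 0xb4b6b8e4ccd1147)) e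
 (c (a (nat_lit 0xe2e51af2eee56e7)) e
 (c z e
 (c (a (nat_lit 0xa08a9c5595a77c6)) e
 (c z e
 (c (a (nat_lit 0xdacd2919318a007)) e
 (c (a (nat_lit 0x4b12aa280000006)) e e))))))))))
 (c (a (nat_lit 0xd2d2d2d2fd145))
 (c z e
 (c (a (nat_lit 0xe0dac4f6faf1026)) e
 (c (a (nat_lit 0xb6a6b4cac92caa6)) e
 (c (a (nat_lit 0xacbcb6aacd0ace6)) e e))))
 (c (a (nat_lit 0xe0e0e10b20d86))
 (c (a (nat_lit 0x17d6f87c3d3f3985)) e
 (c (a (nat_lit 0xb2b8b6d30cccc07)) e e))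
 (c (a (nat_lit 0x1ababfbc99d9e5))
 (c (a (nat_lit 0x9ea4b132beb2d26)) e
 (c (a (nat_lit 0xacc9616d26e7706)) e
 (c (a (nat_lit 0xd3814189411d206)) e
 (c (a (nat_lit 0x12f476dc764fa927)) e
 (c z e
 (c z e
 (c (a (nat_lit 0x1220000000000005)) e e)))))))
 (c (a (nat_lit 0x13f2d593135345))
 (c (a (nat_lit 0xe51f853efb80d06)) e
 (c (a (nat_lit 0xc10d0ac35ed9527)) e
 (c (a (nat_lit 0x163678f34beb2007)) e e)))
 (c (a (nat_lit 0x2dc862706e6c2))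
 (c (a (nat_lit 0x123a52b92ad5aa05)) e
 (c (a (nat_lit 0xf314c0403c00007)) e e))
 (c (a (nat_lit 0x15212160c11cc2))
 (c (a (nat_lit 0x1a2da060e0000006)) e e)
 (c (a (nat_lit 0x1232323235b465)) e
 (c (a (nat_lit 0x16b6b6ba59b9a6)) e
 (c (b (nat_lit 0x5ffaa0e16361)) e
 (c z e
 (c (a (nat_lit 0x1ee3478b8b4bc1)) e e)))))))))))))))))) Tr.c Tr.e (nat_lit 0) C.cx C.cy
noncomputable def C279 : Tr := beta% (fun (c : Nat → Tr → Tr → Tr) (e : Tr) (z : Nat) (a b : Nat → Nat) =>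
 (c z
 (c z
 (c z e
 (c (a (nat_lit 0x19fa9777d6967697dac5)) e
 (c z e
 (c z e
 (c z e
 (c z e
 (c z e
 (c z e
 (c z e
 (c z e
 (c (a (nat_lit 0x76787a76747a8f272e8)) e
 (c z e
 (c z e
 (c z e
 (c z e
 (c (a (nat_lit 0xbce7b2b400000000008)) e e))))))))))))))))
 (c (a (nat_lit 0xbcdafaeeeeef9dac5))
 (c (a (nat_lit 0x16327230b09071733186)) e
 (c z e
 (c z e
 (c z e
 (c z e
 (c z e
 (c z e
 (c (a (nat_lit 0x6e7268665c4634473a8)) e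
 (c z e
 (c (a (nat_lit 0x888e8c868a973946ba8)) e e))))))))))
 (c (a (nat_lit 0x3644363637510a865)) e
 (c (a (nat_lit 0x8c7e808192b8b6c45))
 (c z e
 (c z e
 (c z e
 (c z e
 (c (a (nat_lit 0x26202222100828c7168)) e
 (c z e
 (c (a (nat_lit 0x38322c3254d71b62368)) e
 (c z e
 (c (a (nat_lit 0x322e3e6ea10e5440209)) e e)))))))))
 (c z e
 (c z e
 (c z e
 (c z e
 (c z e
 (c z e
 (c z e
 (c z e
 (c z e
 (c z e
 (c (a (nat_lit 0x485e4e5c6864973e6)) e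
 (c (a (nat_lit 0xcecad0d6d4d6e3228)) e
 (c (a (nat_lit 0xfaff0507070b2d488)) e e)))))))))))))))))
 (c z
 (c (a (nat_lit 0x848c8484851d2cc46)) e
 (c (a (nat_lit 0x605c5c5dd1a0ff386)) e
 (c (a (nat_lit 0x444449d108b4c4966))
 (c z e
 (c z e
 (c z e
 (c z e
 (c (a (nat_lit 0x100826341e1e5cc1408)) e e)))))
 (c z e
 (c (a (nat_lit 0x3ea2a6523c0a17846)) e
 (c (a (nat_lit 0x949a46461202718e6)) e
 (c z e
 (c z e
 (c z e
 (c z e
 (c z e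
 (c (a (nat_lit 0x109272710aeb6fff86)) e
 (c (a (nat_lit 0x7c7a665a1e348f206)) e
 (c (a (nat_lit 0x201c24324e9d0ff67)) e e))))))))))))))
 (c (a (nat_lit 0x202020203aa022))
 (c (a (nat_lit 0x3232350aca96cab86)) e
 (c z e
 (c z e
 (c (a (nat_lit 0xc8844e788a1f3e566)) e
 (c z e
 (c z e
 (c z e
 (c z e
 (c z e
 (c z e
 (c (a (nat_lit 0x1091b00c4c0ef7f146)) e
 (c (a (nat_lit 0xd094ac3c7141f0b25)) e
 (c (a (nat_lit 0x364a505ac12f7fc07)) e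
 (c (a (nat_lit 0x4e5254629131f4568)) e
 (c (a (nat_lit 0xa8acb8c4ef8400008)) e e)))))))))))))))
 (c (b (nat_lit 0x2020203fffffe1)) e
 (c (a (nat_lit 0x1353535118d49344))
 (c z e
 (c z e
 (c z e
 (c z e
 (c z e
 (c z e
 (c (a (nat_lit 0x13d3f191337413b307)) e
 (c (a (nat_lit 0xfcd2d2d318f8df1c7)) e
 (c (a (nat_lit 0x5e505262886c73188)) e
 (c (a (nat_lit 0x1a121e34423ee12c8)) e
 (c (a (nat_lit 0xa4b2d4f95599989a8)) e e)))))))))))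
 (c (a (nat_lit 0xbabae182cedcde4))
 (c z e
 (c (a (nat_lit 0x8c971d228e8ca4fe7)) e
 (c (a (nat_lit 0x758e9cc28ca4f2806)) e
 (c z e
 (c z e
 (c z e
 (c (a (nat_lit 0xb8db0ed0a2bce3767)) e
 (c (a (nat_lit 0x8eb85e9c8c894f387)) e
 (c (a (nat_lit 0x862856967b14fae67)) e
 (c (a (nat_lit 0x5694fd6d92f842007)) e e))))))))))
 (c (a (nat_lit 0xaf43db2ae2cccc4))
 (c (a (nat_lit 0x6a7f68665636967c6)) e
 (c (a (nat_lit 0xd7b4faaa7ec898e26)) e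
 (c z e
 (c z e
 (c (a (nat_lit 0xb0b6e4dc9eb8c7c07)) e
 (c (a (nat_lit 0x7ab8ba767c9b455c7)) e
 (c (a (nat_lit 0x68567e5c5106ddc67)) e
 (c (a (nat_lit 0x748ec49f571b10b07)) e
 (c (a (nat_lit 0x9aeb478cc85e00007)) e e)))))))))
 (c (a (nat_lit 0xd36a988e8c8e8a4))
 (c z e
 (c z e
 (c (a (nat_lit 0x748e6c5c66849b2c7)) e
 (c (a (nat_lit 0x565e585c585af35e8)) e
 (c (a (nat_lit 0x7a8c766670eb57768)) e
 (c (a (nat_lit 0x6eb4725d97bbff867)) e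
 (c (a (nat_lit 0x5262394750dc58007)) e
 (c (a (nat_lit 0xcf579d443e0000007)) e e))))))))
 (c (a (nat_lit 0x13f373737373d126))
 (c z e
 (c z e
 (c z e
 (c (a (nat_lit 0xd8d2dcb144d512da8)) e
 (c (a (nat_lit 0xf8eaa334c90af8ea8)) e e)))))
 (c (a (nat_lit 0xf8f4f4f506e2e06))
 (c (a (nat_lit 0x645e546670ab02707)) e
 (c (a (nat_lit 0xaa9ea6a3178ace868)) e
 (c (a (nat_lit 0x7a7a88a8ef2284a08)) e
 (c (a (nat_lit 0xfae57dbfe38122007)) e e))))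
 (c (a (nat_lit 0x137373f493b31347))
 (c (a (nat_lit 0x8e8c86d320c286908)) e
 (c (a (nat_lit 0xe8e75395a500e4848)) e e))
 (c (a (nat_lit 0xff0111030507067))
 (c (a (nat_lit 0xc2df15dcf0aa3e007)) e
 (c (a (nat_lit 0xe2ed990e9a0000008)) e e))
 (c (a (nat_lit 0x14b694f535957566))
 (c (a (nat_lit 0x159f1c6c8000000007)) e e)
 (c (a (nat_lit 0x194bced13110ed23)) e
 (c z e
 (c (a (nat_lit 0x1151717171908de7)) e e))))))))))))))))) Tr.c Tr.e (nat_lit 0) C.cx C.cy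
noncomputable def C280 : Tr := beta% (fun (c : Nat → Tr → Tr → Tr) (e : Tr) (z : Nat) (a : Nat → Nat) =>
 (c z
 (c (a (nat_lit 0x1fdfdfdfdfdfd0e1))
 (c z e
 (c z e
 (c z e
 (c z e
 (c z e
 (c z e
 (c z e
 (c z e
 (c z e
 (c z e
 (c z e
 (c z e
 (c z e
 (c z e
 (c (a (nat_lit 0x968c94c6b6f977f25)) e e)))))))))))))))
 (c (a (nat_lit 0x4a4a4a4a4b1a043))
 (c z e
 (c z e
 (c z e
 (c z e
 (c z e
 (c z e
 (c z e
 (c z e
 (c z e
 (c z e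
 (c z e
 (c z e
 (c z e
 (c (a (nat_lit 0x52485c64b36180606)) e
 (c (a (nat_lit 0x4c626670a5b200006)) e e)))))))))))))))
 (c (a (nat_lit 0x2a2a2a2b06081a3)) e
 (c (a (nat_lit 0x646465807c788e2))
 (c z e
 (c z e
 (c z e
 (c z e
 (c z e
 (c z e
 (c z e
 (c z e
 (c z e
 (c z e
 (c z e
 (c (a (nat_lit 0x72707aab507800007)) e e))))))))))))
 (c (a (nat_lit 0x40419d4c64c6c82)) e
 (c (a (nat_lit 0x138af24c5654523)) e
 (c (a (nat_lit 0x174de08464444403)) e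
 (c z e
 (c z e
 (c (a (nat_lit 0xbcbad9030108e64)) e
 (c z e
 (c z e
 (c z e
 (c z e
 (c z e
 (c (a (nat_lit 0x1855b5f5cf8f0ac4)) e e))))))))))))))))
 (c z
 (c (a (nat_lit 0x464646479042402)) e
 (c (a (nat_lit 0x2a2a2b262a20043)) e
 (c (a (nat_lit 0xb2b3a0fcfa94962)) e
 (c (a (nat_lit 0x2d235a7c786c6c2)) e
 (c (a (nat_lit 0x194dc3a242222483)) e
 (c z e
 (c z e
 (c z e
 (c z e
 (c z e
 (c z e
 (c z e
 (c z e
 (c z e
 (c (a (nat_lit 0x11d2f2b1b3118f84)) e e)))))))))))))))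
 (c z
 (c z e
 (c (a (nat_lit 0xb2c4cd307268681))
 (c z e
 (c z e
 (c z e
 (c z e
 (c z e
 (c z e
 (c z e
 (c (a (nat_lit 0x3228523c2e2eb32c6)) e
 (c (a (nat_lit 0xc164a3a12196c9e6)) e e)))))))))
 (c (a (nat_lit 0x383c32423e3f103)) e
 (c z e
 (c (a (nat_lit 0x3a4646630018023)) e
 (c z e
 (c z e
 (c (a (nat_lit 0xc332bea0bac0b64)) e
 (c z e
 (c z e
 (c z e
 (c (a (nat_lit 0x1212724f6eceef45)) e
 (c (a (nat_lit 0x10f06f8f6f2f6c45)) e e)))))))))))))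
 (c z
 (c (a (nat_lit 0x52848e848485044)) e
 (c z e
 (c z e
 (c z e
 (c z e
 (c z e
 (c z e
 (c z e
 (c z e
 (c z e
 (c (a (nat_lit 0x14d5322eaf2f6fc4)) e
 (c (a (nat_lit 0x11b0cff010102f86)) e
 (c (a (nat_lit 0x1d9a5b1b9bd99d44)) e e)))))))))))))
 (c z e
 (c z e
 (c z
 (c z e
 (c z e
 (c z e
 (c z e
 (c z e
 (c z e
 (c (a (nat_lit 0x70786e9ea837264)) e
 (c (a (nat_lit 0xb4ad1324dd8d6a4)) e
 (c z e
 (c (a (nat_lit 0x143551bc7492d944)) e e))))))))))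
 (c z
 (c z e
 (c z e
 (c z e
 (c z e
 (c z e
 (c (a (nat_lit 0x104ff2b351301be4)) e
 (c (a (nat_lit 0x4caebeb67198b24)) e
 (c z e
 (c (a (nat_lit 0xdad6c718ace1425)) e e)))))))))
 (c (a (nat_lit 0x1e9e9e9e9e8fa2))
 (c z e
 (c z e
 (c z e
 (c z e
 (c z e
 (c (a (nat_lit 0x9ebab0b4ed0d784)) e
 (c (a (nat_lit 0x6460645878af266)) e
 (c (a (nat_lit 0xbcc4b0b4dd26005)) e e))))))))
 (c (a (nat_lit 0xcacacacb16be4))
 (c z e
 (c z e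
 (c z e
 (c z e
 (c (a (nat_lit 0x10f2b4fa989ed0c4)) e
 (c (a (nat_lit 0x82888a9ed3464a6)) e e))))))
 (c (a (nat_lit 0xc8c8c914aed04))
 (c z e
 (c z e
 (c z e
 (c (a (nat_lit 0x9cd6e6d558a7105)) e
 (c (a (nat_lit 0x9a88acf1706a006)) e e)))))
 (c (a (nat_lit 0x11b1b550529183))
 (c z e
 (c (a (nat_lit 0x5284aac6a920fc5)) e
 (c (a (nat_lit 0xa0fcf938b4d0765)) e e)))
 (c (a (nat_lit 0x5f482ea2585a1))
 (c z e
 (c (a (nat_lit 0xdd15c9395056004)) e e))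
 (c (a (nat_lit 0x1503a864036361))
 (c (a (nat_lit 0xb36a94842000004)) e e)
 (c (a (nat_lit 0x133433b3939524)) e
 (c (a (nat_lit 0x108fefeff1b104)) e e))))))))))))))))) Tr.c Tr.e (nat_lit 0) C.cx
noncomputable def C281 : Tr := beta% (fun (c : Nat → Tr → Tr → Tr) (e : Tr) (z : Nat) (a : Nat → Nat) =>
 (c (a (nat_lit 0x20002001))
 (c z
 (c z e
 (c z
 (c z e
 (c z
 (c (a (nat_lit 0xdf2712f8fae4e4f4f24)) e e)
 (c (a (nat_lit 0x629c50545654550a3)) e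
 (c (a (nat_lit 0x886c7072727504724)) e e)))) e))
 (c z
 (c z
 (c z e
 (c (a (nat_lit 0x110f6f309070505fc4))
 (c (a (nat_lit 0x1716f2f2d0d0d131f465)) e e)
 (c (a (nat_lit 0x4e303a30302f7ce04)) e
 (c (a (nat_lit 0x303834343504404e5)) e
 (c z e
 (c z e
 (c z e
 (c z e
 (c z e
 (c z e
 (c z e
 (c z e
 (c z e
 (c z e
 (c z e
 (c z e
 (c (a (nat_lit 0x13331373b3b3d3f787)) e e)))))))))))))))))
 (c z
 (c (a (nat_lit 0xeed8e0e0dcddd7b24)) e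
 (c (a (nat_lit 0x605c5e5c5d6f1cc05)) e
 (c (a (nat_lit 0x5c5e5c5daed4aebe5)) e
 (c z e
 (c z e
 (c z e
 (c z e
 (c z e
 (c z e
 (c z e
 (c z e
 (c z e
 (c z e
 (c (a (nat_lit 0x6a70787e8ca2fbd85)) e
 (c z e
 (c (a (nat_lit 0x8a8e92a0a4a4df427)) e e))))))))))))))))
 (c (a (nat_lit 0xaeaeaeaeaeae1a1))
 (c (a (nat_lit 0x5e5858596efeb31a4)) e
 (c z e
 (c z e
 (c z e
 (c z e
 (c z e
 (c z e
 (c z e
 (c z e
 (c z e
 (c z e
 (c z e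
 (c (a (nat_lit 0x4a48605c5a90bd346)) e
 (c (a (nat_lit 0x3e4c4a465276ef927)) e
 (c (a (nat_lit 0x9c9a98a0a4d546007)) e e)))))))))))))))
 (c (a (nat_lit 0x14343434343a2a82))
 (c z e
 (c z e
 (c z e
 (c z e
 (c z e
 (c z e
 (c z e
 (c z e
 (c z e
 (c z e
 (c z e
 (c z e
 (c (a (nat_lit 0x5a5a5c606e993a4e8)) e
 (c (a (nat_lit 0x868a8e94c52800007)) e e))))))))))))))
 (c (a (nat_lit 0x15d5f5f5f5b43523))
 (c z e
 (c (a (nat_lit 0x1e26364e5308563c6)) e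
 (c z e
 (c z e
 (c z e
 (c z e
 (c z e
 (c z e
 (c z e
 (c (a (nat_lit 0x4e524456667695be6)) e
 (c (a (nat_lit 0xc4cad4eef56197f67)) e
 (c (a (nat_lit 0xb4b6b8c0efbcb0008)) e
 (c (a (nat_lit 0xf4f6f32f580000007)) e e)))))))))))))
 (c (a (nat_lit 0xb8b8b9733eb0e23)) e
 (c (a (nat_lit 0xcacbc1b2d6f8f23)) e
 (c (a (nat_lit 0x85695c84aeacaa3))
 (c z e
 (c z e
 (c z e
 (c (a (nat_lit 0xbab8b2b0d68cb1a06)) e
 (c (a (nat_lit 0x727084805680d9287)) e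
 (c (a (nat_lit 0x7e86d87c979b65d26)) e e))))))
 (c (a (nat_lit 0x1915f575d5d5d645))
 (c z e
 (c z e
 (c (a (nat_lit 0xe6eadb0adad17b5c7)) e
 (c (a (nat_lit 0xc8d0eabcc146f6ce7)) e e))))
 (c (a (nat_lit 0x1e7d5dfddddffa64))
 (c z e
 (c (a (nat_lit 0x84867c8284fb3e8c7)) e e))
 (c (a (nat_lit 0x1050707111903026))
 (c (a (nat_lit 0x7876726eaf0094747)) e
 (c (a (nat_lit 0xdad2e33d7336dada7)) e e))
 (c (a (nat_lit 0xf4f6f508f2f8fc6)) e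
 (c (a (nat_lit 0x16363875f6b71705)) e
 (c z e
 (c z e
 (c (a (nat_lit 0xfb0105050504f06)) e
 (c (a (nat_lit 0x1656767696751486)) e e)))))))))))))))))
 C280))
 (c (a (nat_lit 0x2020202021))
 (c z C279
 (c z
 (c (a (nat_lit 0xa6a6a6a6a716cc3))
 (c (a (nat_lit 0x8a7a787b2726d6c25)) e
 (c (a (nat_lit 0x6664677d550b14986)) e
 (c z e
 (c z e
 (c (a (nat_lit 0xc2ee2a281209a6925)) e
 (c z e
 (c z e
 (c z e
 (c z e
 (c z e
 (c z e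
 (c (a (nat_lit 0x6c767e040e655e846)) e
 (c z e
 (c z e
 (c z e
 (c (a (nat_lit 0x30547072ade200007)) e e))))))))))))))))
 (c (a (nat_lit 0x242424250e5e1e5))
 (c z e
 (c z e
 (c z e
 (c z e
 (c z e
 (c z e
 (c z e
 (c z e
 (c z e
 (c z e
 (c (a (nat_lit 0xdcb02808998ece526)) e e)))))))))))
 (c (a (nat_lit 0x202021d0ec34024)) e
 (c (a (nat_lit 0x606f7426446464))
 (c z e
 (c z e
 (c z e
 (c z e
 (c z e
 (c z e
 (c z e
 (c (a (nat_lit 0x5c686c96742e47787)) e e))))))))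
 (c (a (nat_lit 0xaf023a4444425))
 (c z e
 (c (a (nat_lit 0x73254a708aa0f9207)) e
 (c (a (nat_lit 0x1466a8e48446725ae6)) e
 (c z e
 (c z e
 (c z e
 (c (a (nat_lit 0xa6f2fc5e407483746)) e
 (c (a (nat_lit 0x7a8b445c34323dac6)) e
 (c (a (nat_lit 0x5a90824e180b347a7)) e e)))))))))
 (c (a (nat_lit 0x1754c62362c2cd05))
 (c (a (nat_lit 0xd5c8827038a45d166)) e
 (c z e
 (c z e
 (c z e
 (c z e
 (c (a (nat_lit 0x5a6c5e2622aec7467)) e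
 (c (a (nat_lit 0x61026c3e444979627)) e
 (c z e
 (c (a (nat_lit 0x141caec7c840000007)) e e)))))))))
 (c (a (nat_lit 0x140528c8487cbe64))
 (c z e
 (c z e
 (c z e
 (c (a (nat_lit 0xa3294663e2b069c7)) e
 (c (a (nat_lit 0x72863c545577729c7)) e
 (c z e
 (c z e
 (c (a (nat_lit 0x122365028000000008)) e e))))))))
 (c (a (nat_lit 0xa2acaaab110e9e6))
 (c (a (nat_lit 0xc2beb8cc438bbf0e6)) e e)
 (c (a (nat_lit 0x88868b0718ded66)) e
 (c z e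
 (c (a (nat_lit 0x870f390904a2a46)) e
 (c (a (nat_lit 0x11743150eacaeae6)) e
 (c (a (nat_lit 0x1bb5f5490949e4c5)) e
 (c z e
 (c (a (nat_lit 0x13edee0f4b424006)) e
 (c (a (nat_lit 0x10923291cdea8a46)) e e))))))))))))))))
 (c z
 (c (a (nat_lit 0x424243c0c244204)) e
 (c (a (nat_lit 0x32334a9c2c06065))
 (c z e
 (c z e
 (c z e
 (c z e
 (c z e
 (c z e
 (c z e
 (c z e
 (c z e
 (c (a (nat_lit 0x50505e8e644c495a7)) e e))))))))))
 (c (a (nat_lit 0x239194902828284))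
 (c z e
 (c z e
 (c z e
 (c z e
 (c z e
 (c z e
 (c (a (nat_lit 0x3c647452423a33507)) e
 (c (a (nat_lit 0x583a725442434d8c7)) e e))))))))
 (c (a (nat_lit 0xecd02c1a1415565))
 (c z e
 (c (a (nat_lit 0x15d4cc6f6ff79275a7)) e
 (c z e
 (c (a (nat_lit 0x20a4a8c66d45493a7)) e
 (c z e
 (c (a (nat_lit 0xdafe5c5c426fd1546)) e
 (c (a (nat_lit 0xf87e64805c695d886)) e
 (c (a (nat_lit 0x1cb670300e9feb686)) e
 (c z e
 (c (a (nat_lit 0x1112090362a0000007)) e e))))))))))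
 (c (a (nat_lit 0x7a321a10113e9c5))
 (c z e
 (c z e
 (c z e
 (c (a (nat_lit 0xe78ab4630c58c9f06)) e
 (c (a (nat_lit 0xd41e1a2c3150c6046)) e
 (c (a (nat_lit 0x503234354f07b9d26)) e
 (c (a (nat_lit 0x6a4a3a40457f80b87)) e e)))))))
 (c (a (nat_lit 0x8a989899d316d45))
 (c z e
 (c z e
 (c z e
 (c (a (nat_lit 0x5ae2846ce9d949546)) e e))))
 (c (a (nat_lit 0xbcbccb6f14f2de6)) e
 (c z e
 (c z e
 (c (a (nat_lit 0x14f292f372cc4a26)) e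
 (c z e
 (c (a (nat_lit 0x195a592be703a545)) e
 (c z e
 (c z e
 (c (a (nat_lit 0x1e3c9afbda935445)) e e)))))))))))))))
 C278)))
 C277))) Tr.c Tr.e (nat_lit 0) C.cx
noncomputable def C283 : Tr := beta% (fun (c : Nat → Tr → Tr → Tr) (e : Tr) (z : Nat) (a b : Nat → Nat) =>
 (c (a (nat_lit 0x2021))
 (c (a (nat_lit 0x202021))
 (c (a (nat_lit 0x20204021))
 (c (a (nat_lit 0x2000000001)) e e)
 (c (a (nat_lit 0x1e1404001)) e
 (c (a (nat_lit 0x60c081)) e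
 (c (a (nat_lit 0x4103c281)) e
 (c (a (nat_lit 0x40436021)) e
 (c (a (nat_lit 0x203865)) e
 (c (a (nat_lit 0x7e0b0c425)) e
 (c (b (nat_lit 0x1f7fffe4)) e e))))))))
 (c (a (nat_lit 0x2021))
 (c (a (nat_lit 0x382012001)) e
 (c (a (nat_lit 0x101026001)) e
 (c (a (nat_lit 0x22181e161)) e
 (c (a (nat_lit 0x202e1e66)) e
 (c (a (nat_lit 0x1298b848)) e
 (c (a (nat_lit 0x991f02d46)) e e))))))
 (c (a (nat_lit 0x202021))
 (c (a (nat_lit 0xa1a161)) e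
 (c (a (nat_lit 0x203566)) e
 (c (a (nat_lit 0x6436b147)) e e)))
 (c (nat_lit 1)
 (c (a (nat_lit 0x20225d66)) e
 (c z e
 (c z e
 (c (a (nat_lit 0x162302a007)) e
 (c (nat_lit 1) e e)))))
 (c (a (nat_lit 0x204041))
 (c z e
 (c (a (nat_lit 0x18aea9bf26)) e
 (c (a (nat_lit 0xc1b000006)) e e)))
 (c (a (nat_lit 0x402041))
 (c (a (nat_lit 0x203bc006)) e
 (c (a (nat_lit 0xa0000001)) e e))
 (c (a (nat_lit 0x2030c7)) e
 (c (a (nat_lit 0x360446)) e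
 (c z e
 (c (a (nat_lit 0x18602005)) e
 (c (a (nat_lit 0x2001)) e
 (c z e
 (c (a (nat_lit 0x204001)) e
 (c (a (nat_lit 0x400001)) e
 (c (a (nat_lit 0x2001)) e
 (c (a (nat_lit 0x202001)) e
 (c (a (nat_lit 0x4021)) e
 (c (a (nat_lit 0x200001)) e e))))))))))))))))))
 (c (a (nat_lit 0x21))
 (c (a (nat_lit 0x4021))
 (c (a (nat_lit 0x261806001)) e
 (c (a (nat_lit 0x38380c001)) e
 (c (a (nat_lit 0x44500e021)) e
 (c (a (nat_lit 0x804e1fc6)) e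
 (c (a (nat_lit 0x343bb7a7)) e
 (c (a (nat_lit 0x80f9d6d66)) e e))))))
 (c (a (nat_lit 0x2061))
 (c (a (nat_lit 0x1a1408001)) e
 (c (a (nat_lit 0x202030a8)) e
 (c (a (nat_lit 0x26d07868)) e e)))
 (c (a (nat_lit 0x2061))
 (c (a (nat_lit 0x2035c827)) e e)
 (c (a (nat_lit 0x4021))
 (c z e
 (c (a (nat_lit 0xfd0716009)) e
 (c (a (nat_lit 0x1460000006)) e e)))
 (c z
 (c (a (nat_lit 0x13d4800007)) e e)
 (c (b (nat_lit 0x3c7fe5)) e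
 (c z e
 (c (a (nat_lit 0x19002025)) e
 (c (a (nat_lit 0x808001)) e
 (c (a (nat_lit 0x5004001)) e
 (c (a (nat_lit 0x2a04001)) e
 (c (a (nat_lit 0x2004001)) e
 (c (a (nat_lit 0x1604001)) e
 (c (a (nat_lit 0x1a06001)) e
 (c (a (nat_lit 0x1e02001)) e
 (c (a (nat_lit 0x1a04001)) e e))))))))))))))))
 (c (a (nat_lit 0x2021))
 (c (a (nat_lit 0x202001))
 (c (a (nat_lit 0x1414181)) e
 (c (a (nat_lit 0x100203e47)) e
 (c (b (nat_lit 0x3ffe96c7)) e e)))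
 (c (a (nat_lit 0x203ea2))
 (c (a (nat_lit 0x82e7868)) e e)
 (c (b (nat_lit 0x1ff746)) e
 (c z e
 (c z e
 (c (a (nat_lit 0x1ba02005)) e
 (c (a (nat_lit 0x202081)) e
 (c (a (nat_lit 0x2001)) e
 (c (a (nat_lit 0x81)) e
 (c (a (nat_lit 0x20a1)) e
 (c (a (nat_lit 0x81)) e
 (c (a (nat_lit 0x81)) e
 (c (a (nat_lit 0xa1)) e
 (c (a (nat_lit 0x2061)) e
 (c (a (nat_lit 0x200001)) e e)))))))))))))))
 (c (a (nat_lit 0x2021))
 (c z
 (c (a (nat_lit 0x5125753e7)) e e)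
 (c z e
 (c z e
 (c (a (nat_lit 0x1fa02025)) e
 (c (a (nat_lit 0x4001)) e
 (c (a (nat_lit 0x402001)) e
 (c (a (nat_lit 0x2001)) e
 (c (nat_lit 1) e
 (c (a (nat_lit 0x602001)) e
 (c (a (nat_lit 0x400001)) e
 (c (a (nat_lit 0x202081)) e
 (c (a (nat_lit 0x4061)) e
 (c (a (nat_lit 0x4001)) e e)))))))))))))
 (c (a (nat_lit 0x2021))
 (c z e
 (c (a (nat_lit 0x11402006)) e
 (c (a (nat_lit 0x200001)) e
 (c (nat_lit 1) e
 (c (a (nat_lit 0x202001)) e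
 (c (a (nat_lit 0x2001)) e
 (c (a (nat_lit 0x2021)) e
 (c (a (nat_lit 0x20c1)) e
 (c (a (nat_lit 0x8061)) e
 (c (a (nat_lit 0x81)) e
 (c (a (nat_lit 0x21)) e
 (c (a (nat_lit 0x200001)) e e))))))))))))
 (c (a (nat_lit 0x2021))
 (c (a (nat_lit 0x2001)) e
 (c (a (nat_lit 0x41)) e
 (c (a (nat_lit 0x202061)) e
 (c (a (nat_lit 0x4101)) e
 (c (a (nat_lit 0x4061)) e
 (c (a (nat_lit 0x2161)) e
 (c (a (nat_lit 0x6221)) e
 (c (a (nat_lit 0x8161)) e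
 (c (a (nat_lit 0x161)) e
 (c (a (nat_lit 0x4001)) e e))))))))))
 (c (a (nat_lit 0x2021))
 (c (a (nat_lit 0x202021)) e
 (c (a (nat_lit 0x202021)) e
 (c (a (nat_lit 0x202021)) e
 (c (a (nat_lit 0x202021)) e
 (c (a (nat_lit 0x202021)) e
 (c (a (nat_lit 0x202021)) e
 (c (a (nat_lit 0x202021)) e
 (c (a (nat_lit 0x202021)) e
 (c (a (nat_lit 0x200001)) e e)))))))))
 (c (a (nat_lit 0x2021))
 (c (a (nat_lit 0x202021)) e
 (c (a (nat_lit 0x202021)) e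
 (c (a (nat_lit 0x202021)) e
 (c (a (nat_lit 0x202021)) e
 (c (a (nat_lit 0x202021)) e
 (c (a (nat_lit 0x202021)) e
 (c (a (nat_lit 0x202001)) e e)))))))
 (c (a (nat_lit 0x2021))
 (c (a (nat_lit 0x202021)) e
 (c (a (nat_lit 0x202021)) e
 (c (a (nat_lit 0x202021)) e
 (c (a (nat_lit 0x202021)) e
 (c (a (nat_lit 0x202021)) e
 (c (a (nat_lit 0x200001)) e e))))))
 (c (a (nat_lit 0x2021))
 (c (a (nat_lit 0x202021)) e
 (c (a (nat_lit 0x202021)) e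
 (c (a (nat_lit 0x202021)) e
 (c (a (nat_lit 0x202001)) e e))))
 (c (a (nat_lit 0x2021))
 (c (a (nat_lit 0x202021)) e
 (c (a (nat_lit 0x202021)) e
 (c (a (nat_lit 0x200001)) e e)))
 (c (a (nat_lit 0x2021))
 (c (a (nat_lit 0x202001)) e e)
 (c (a (nat_lit 0x2021)) e
 (c (a (nat_lit 0x2021)) e
 (c (a (nat_lit 0x2021)) e
 (c (a (nat_lit 0x2021)) e
 (c (a (nat_lit 0x2021)) e
 (c (a (nat_lit 0x2021)) e
 (c (a (nat_lit 0x2021)) e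
 (c (a (nat_lit 0x2021)) e
 (c (a (nat_lit 0x2021)) e
 (c (a (nat_lit 0x2021)) e
 (c (a (nat_lit 0x2021)) e
 (c z e
 (c (a (nat_lit 0x3287)) e e)))))))))))))))))))))))))) Tr.c Tr.e (nat_lit 0) C.cx C.cy
noncomputable def C284 : Tr := beta% (fun (c : Nat → Tr → Tr → Tr) (e : Tr) (z : Nat) (a b : Nat → Nat) =>
 (c (a (nat_lit 0x2021))
 (c (a (nat_lit 0x202021))
 (c (a (nat_lit 0x3a3a19e2))
 (c (a (nat_lit 0x1f7b7a7a59e2)) e
 (c (a (nat_lit 0x1c1cdc7b9aa2)) e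
 (c (a (nat_lit 0x1d3c1bbafa62)) e
 (c (a (nat_lit 0x1bdc1b1a8d02)) e
 (c (a (nat_lit 0x1bbbed600002)) e
 (c (a (nat_lit 0x15e000000003)) e e))))))
 (c (a (nat_lit 0x120e24101))
 (c (a (nat_lit 0x30206e423a1)) e
 (c (a (nat_lit 0x223c76562a1)) e
 (c (a (nat_lit 0x547e9856001)) e
 (c (a (nat_lit 0x1a300000001)) e e))))
 (c (a (nat_lit 0x1008100a1))
 (c (a (nat_lit 0x14202e480c1)) e
 (c (a (nat_lit 0x92685c00001)) e
 (c (a (nat_lit 0x4000000001)) e e)))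
 (c (a (nat_lit 0x180e10001))
 (c (a (nat_lit 0x66280000001)) e e)
 (c (a (nat_lit 0xa060a1)) e
 (c (a (nat_lit 0x80808041)) e
 (c (a (nat_lit 0x80a0e021)) e
 (c (a (nat_lit 0x21218121)) e
 (c (a (nat_lit 0x2a12160e1)) e
 (c (a (nat_lit 0x20211504)) e
 (c (b (nat_lit 0x222145fe4)) e
 (c (b (nat_lit 0x345fef04)) e e))))))))))))
 (c (a (nat_lit 0x200001))
 (c (a (nat_lit 0x60616081))
 (c (a (nat_lit 0x61a2a2c101)) e
 (c (a (nat_lit 0xe305c7a141)) e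
 (c (a (nat_lit 0x7c826800001)) e
 (c (a (nat_lit 0x16000000001)) e e))))
 (c (a (nat_lit 0x20c06021))
 (c (a (nat_lit 0x18307414001)) e
 (c (a (nat_lit 0xc8c60000001)) e e))
 (c (a (nat_lit 0x40322c081))
 (c (a (nat_lit 0x78000000001)) e e)
 (c (a (nat_lit 0x1e16181)) e
 (c (a (nat_lit 0x20c0a021)) e
 (c (a (nat_lit 0x2101c0e1)) e
 (c (a (nat_lit 0x80c2a261)) e
 (c (a (nat_lit 0x408849a1)) e
 (c (a (nat_lit 0x83cd81)) e
 (c (a (nat_lit 0x121b1d264)) e e))))))))))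
 (c (nat_lit 1)
 (c (a (nat_lit 0x2040c041))
 (c (a (nat_lit 0x2220800001)) e
 (c (a (nat_lit 0x7a000000001)) e e))
 (c (a (nat_lit 0x3a1e28001)) e
 (c (a (nat_lit 0x120c001)) e
 (c (a (nat_lit 0xa10021)) e
 (c (a (nat_lit 0x40c26101)) e
 (c (a (nat_lit 0x211065)) e
 (c (b (nat_lit 0x83e35fe1)) e
 (c (b (nat_lit 0x407ff565)) e e))))))))
 (c (a (nat_lit 0x2021))
 (c (a (nat_lit 0x281c08001)) e
 (c (a (nat_lit 0x30320e001)) e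
 (c (a (nat_lit 0x42280e001)) e
 (c (a (nat_lit 0x20273b27)) e
 (c (a (nat_lit 0xa773488)) e
 (c (b (nat_lit 0x93cc9fe6)) e
 (c z e
 (c (a (nat_lit 0x1163c02006)) e
 (c (a (nat_lit 0x2e0000001)) e e)))))))))
 (c (a (nat_lit 0x202021))
 (c (a (nat_lit 0x80c161)) e
 (c (a (nat_lit 0x2030a6)) e
 (c z e
 (c z e
 (c z e
 (c (a (nat_lit 0x14dc62a146)) e
 (c (a (nat_lit 0x1ca1600006)) e e)))))))
 (c (nat_lit 1)
 (c (a (nat_lit 0x10e5050c8)) e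
 (c z e
 (c z e
 (c (a (nat_lit 0x1120235087)) e
 (c (a (nat_lit 0x22368006)) e
 (c (a (nat_lit 0x20000001)) e e))))))
 (c (a (nat_lit 0x202021))
 (c z e
 (c (a (nat_lit 0x11af6f4027)) e
 (c (a (nat_lit 0xa0405783)) e
 (c (a (nat_lit 0x60400001)) e e))))
 (c (a (nat_lit 0x404021))
 (c (a (nat_lit 0x1840202706)) e
 (c (a (nat_lit 0x20c04001)) e
 (c (nat_lit 1) e e)))
 (c (a (nat_lit 0x202021))
 (c (a (nat_lit 0x20200001)) e e)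
 (c (a (nat_lit 0x404041)) e
 (c (a (nat_lit 0x203d86)) e
 (c (a (nat_lit 0x1d8de6)) e
 (c z e
 (c (a (nat_lit 0x1ba02005)) e
 (c (a (nat_lit 0x204001)) e
 (c (a (nat_lit 0x204001)) e
 (c (a (nat_lit 0x400001)) e
 (c (a (nat_lit 0x802001)) e
 (c (a (nat_lit 0x204001)) e
 (c (a (nat_lit 0x404021)) e
 (c (a (nat_lit 0x400001)) e e)))))))))))))))))))))
 (c (a (nat_lit 0x2021))
 (c (a (nat_lit 0x202001))
 (c (a (nat_lit 0x806061))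
 (c (a (nat_lit 0x2080a10061)) e
 (c (a (nat_lit 0x81a320e001)) e
 (c (a (nat_lit 0x20280000001)) e e)))
 (c (a (nat_lit 0xc0a041))
 (c (a (nat_lit 0x63a0a00001)) e
 (c (a (nat_lit 0x7c000000001)) e e))
 (c (a (nat_lit 0x1c141e001)) e
 (c (a (nat_lit 0x80a0a1)) e
 (c (a (nat_lit 0x2060a0a1)) e
 (c (a (nat_lit 0x20e160c1)) e
 (c (a (nat_lit 0x67c041)) e
 (c (a (nat_lit 0x20203504)) e
 (c (a (nat_lit 0x7e05501a4)) e
 (c (a (nat_lit 0x5530b704)) e e))))))))))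
 (c (nat_lit 1)
 (c (a (nat_lit 0x404061))
 (c (a (nat_lit 0x30040000001)) e e)
 (c (a (nat_lit 0x362810001)) e
 (c (a (nat_lit 0x100a101)) e
 (c (a (nat_lit 0xc160a1)) e
 (c (a (nat_lit 0x6c0001)) e
 (c (a (nat_lit 0x2132c4)) e
 (c (a (nat_lit 0x184be3d243)) e
 (c (b (nat_lit 0x611ff4c2)) e e))))))))
 (c (a (nat_lit 0x4041))
 (c (a (nat_lit 0x322e10001)) e
 (c (a (nat_lit 0x201e10001)) e
 (c (a (nat_lit 0x1818421c1)) e
 (c (a (nat_lit 0x202738e7)) e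
 (c (a (nat_lit 0xd56d0a8)) e
 (c (b (nat_lit 0x309fed87)) e e))))))
 (c (a (nat_lit 0x202001))
 (c (a (nat_lit 0x141812081)) e
 (c (a (nat_lit 0x2035c7)) e
 (c (a (nat_lit 0x2a33d2e8)) e
 (c z e
 (c z e
 (c (a (nat_lit 0x150200a006)) e
 (c (a (nat_lit 0x120000001)) e e)))))))
 (c (nat_lit 1)
 (c (a (nat_lit 0x803838c7)) e
 (c z e
 (c z e
 (c (a (nat_lit 0xdbcea327)) e
 (c (a (nat_lit 0x1d4b400007)) e e)))))
 (c (a (nat_lit 0x402021))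
 (c z e
 (c (a (nat_lit 0x13da202c27)) e
 (c (a (nat_lit 0x12e03b0006)) e
 (c (nat_lit 1) e e))))
 (c (a (nat_lit 0x402021))
 (c (a (nat_lit 0x1000202527)) e
 (c (a (nat_lit 0x40600001)) e e))
 (c (a (nat_lit 0x200021))
 (c (a (nat_lit 0x20000001)) e e)
 (c (a (nat_lit 0x203fe6)) e
 (c (a (nat_lit 0x100787)) e
 (c z e
 (c (a (nat_lit 0x19c02005)) e
 (c (a (nat_lit 0x204041)) e
 (c (a (nat_lit 0x1fa00002)) e
 (c (a (nat_lit 0x2001)) e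
 (c (a (nat_lit 0x2001)) e
 (c (a (nat_lit 0x4021)) e
 (c (a (nat_lit 0x2061)) e
 (c (a (nat_lit 0x2001)) e e)))))))))))))))))))
 C283))) Tr.c Tr.e (nat_lit 0) C.cx C.cy
noncomputable def C285 : Tr := beta% (fun (c : Nat → Tr → Tr → Tr) (e : Tr) (z : Nat) (a b : Nat → Nat) =>
 (c (a (nat_lit 0x202021))
 (c (a (nat_lit 0x15bc692902))
 (c (a (nat_lit 0x1f54ef31f1e5)) e
 (c (a (nat_lit 0x1cf5f7d60666)) e
 (c (a (nat_lit 0x161676664686)) e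
 (c (a (nat_lit 0x1514e6222026)) e
 (c (a (nat_lit 0x1d93742647a5)) e
 (c (b (nat_lit 0x40fff66104)) e
 (c (b (nat_lit 0x107ff0aae005)) e e)))))))
 (c (a (nat_lit 0x15204054c4))
 (c (a (nat_lit 0x17b939aa8a66)) e
 (c (a (nat_lit 0x17d864e4e4c7)) e
 (c (a (nat_lit 0x148a42c2e2a7)) e
 (c (a (nat_lit 0x14ba50ec6546)) e
 (c (a (nat_lit 0x13701e2ae5a5)) e
 (c (a (nat_lit 0x107287c00007)) e e))))))
 (c (a (nat_lit 0x2034b0c4))
 (c (a (nat_lit 0x154545454446)) e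
 (c (a (nat_lit 0x10e965856466)) e
 (c (a (nat_lit 0x1805ac856466)) e
 (c (a (nat_lit 0x1ed595eb0004)) e
 (c (a (nat_lit 0x1626e0000007)) e e)))))
 (c (a (nat_lit 0xc0c0c0a1))
 (c (a (nat_lit 0x158d60808084)) e
 (c (a (nat_lit 0x1b5be261c023)) e
 (c (a (nat_lit 0x1ddbe1a00003)) e
 (c (a (nat_lit 0x194000000005)) e e))))
 (c (a (nat_lit 0x221420021))
 (c (a (nat_lit 0xaa907830001)) e
 (c (a (nat_lit 0x98640000001)) e e))
 (c (a (nat_lit 0x2024281))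
 (c (a (nat_lit 0x6000000001)) e e)
 (c (a (nat_lit 0x60c0a1)) e
 (c (a (nat_lit 0xa0e061)) e
 (c (a (nat_lit 0x1e140e1)) e
 (c (a (nat_lit 0x6040c1)) e
 (c (a (nat_lit 0x204040a1)) e
 (c (a (nat_lit 0xacacadb26)) e
 (c (a (nat_lit 0x569516467)) e
 (c (b (nat_lit 0x6b67fe026)) e e))))))))))))))
 (c (nat_lit 1)
 (c (a (nat_lit 0x2034d4a4))
 (c (a (nat_lit 0x17584e2dcda5)) e
 (c (a (nat_lit 0x1d4d85a58566)) e
 (c (a (nat_lit 0x112585e56546)) e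
 (c (a (nat_lit 0x17088ca56546)) e
 (c (a (nat_lit 0x1a6ee582c006)) e
 (c (a (nat_lit 0x110600000007)) e e))))))
 (c (a (nat_lit 0x18141a061))
 (c (a (nat_lit 0x14b0c1208045)) e
 (c (a (nat_lit 0x173101a0a0c5)) e
 (c (a (nat_lit 0x11114140e025)) e
 (c (a (nat_lit 0x10f120a00005)) e
 (c (a (nat_lit 0x13c000000006)) e e)))))
 (c (a (nat_lit 0x18141c001))
 (c (a (nat_lit 0x1c30904e0c1)) e
 (c (a (nat_lit 0xa0e528b6001)) e
 (c (a (nat_lit 0x284c0000001)) e e)))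
 (c (a (nat_lit 0x381a3a001))
 (c (a (nat_lit 0xecdc5800001)) e
 (c (a (nat_lit 0x72000000001)) e e))
 (c (a (nat_lit 0x41a1e261)) e
 (c (a (nat_lit 0x4040c061)) e
 (c (a (nat_lit 0x1012121)) e
 (c (a (nat_lit 0x43012141)) e
 (c (a (nat_lit 0x20602061)) e
 (c (a (nat_lit 0x20203ae4)) e
 (c (a (nat_lit 0x9a9b083a6)) e
 (c (a (nat_lit 0x997eb0906)) e e))))))))))))
 (c (a (nat_lit 0x202021))
 (c (a (nat_lit 0x40808081))
 (c (a (nat_lit 0x101e3220281)) e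
 (c (a (nat_lit 0x103274682e1)) e
 (c (a (nat_lit 0x36668e5a001)) e
 (c (a (nat_lit 0xc3e0000001)) e e))))
 (c (a (nat_lit 0x60224201))
 (c (a (nat_lit 0x10306c721c1)) e
 (c (a (nat_lit 0xb8b2d400001)) e
 (c (a (nat_lit 0x20000000001)) e e)))
 (c (a (nat_lit 0x1a1a320c1))
 (c (a (nat_lit 0xac680000001)) e e)
 (c (a (nat_lit 0x1a1e2a1)) e
 (c (a (nat_lit 0x1014161)) e
 (c (a (nat_lit 0x140e121)) e
 (c (a (nat_lit 0x4260e1a1)) e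
 (c (a (nat_lit 0x208020c1)) e
 (c (b (nat_lit 0x639fe1)) e
 (c (b (nat_lit 0x15557ff4c5)) e e))))))))))
 (c (a (nat_lit 0x202021))
 (c (a (nat_lit 0x40a061))
 (c (a (nat_lit 0xa122606001)) e
 (c (a (nat_lit 0x4c540000001)) e e))
 (c (a (nat_lit 0x2c1a30001))
 (c (a (nat_lit 0x6e000000001)) e e)
 (c (a (nat_lit 0x20161a1)) e
 (c (a (nat_lit 0x100a081)) e
 (c (a (nat_lit 0xa060e1)) e
 (c (a (nat_lit 0x20203005)) e
 (c (b (nat_lit 0x302e15fe1)) e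
 (c (b (nat_lit 0xffffe1)) e
 (c z e
 (c (b (nat_lit 0x1fff1ee004)) e
 (c (a (nat_lit 0x20000001)) e e)))))))))))
 (c (a (nat_lit 0x2041))
 (c (a (nat_lit 0x262226041)) e
 (c (a (nat_lit 0x2a3416001)) e
 (c (a (nat_lit 0x363c14001)) e
 (c (a (nat_lit 0x202e1e06)) e
 (c (a (nat_lit 0x3136b6e8)) e
 (c (a (nat_lit 0xe5e1effc5)) e
 (c z e
 (c (b (nat_lit 0x1ffeafa005)) e
 (c (a (nat_lit 0x140b600006)) e e)))))))))
 (c (a (nat_lit 0x202021))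
 (c (a (nat_lit 0x61216121)) e
 (c (a (nat_lit 0x203026)) e
 (c z e
 (c z e
 (c z e
 (c (b (nat_lit 0x1fe0308284)) e
 (c (a (nat_lit 0x3ec54004)) e
 (c (a (nat_lit 0x20000001)) e e))))))))
 (c (a (nat_lit 0x202021))
 (c (a (nat_lit 0x2d0322f48)) e
 (c z e
 (c z e
 (c (a (nat_lit 0x1de0203105)) e
 (c (a (nat_lit 0x1fcf8008c5)) e
 (c (a (nat_lit 0x20a00001)) e e))))))
 (c (a (nat_lit 0x2021))
 (c z e
 (c (a (nat_lit 0x1cd5f5e028)) e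
 (c (a (nat_lit 0x1ba7c02006)) e
 (c (a (nat_lit 0x280602001)) e
 (c (a (nat_lit 0x20000001)) e e)))))
 (c (a (nat_lit 0x202021))
 (c (a (nat_lit 0x12174022c7)) e
 (c (a (nat_lit 0xe081e021)) e
 (c (a (nat_lit 0x20200001)) e e)))
 (c (a (nat_lit 0x202021))
 (c (a (nat_lit 0x20202001)) e
 (c (a (nat_lit 0x40000001)) e e))
 (c (a (nat_lit 0x404041)) e
 (c (a (nat_lit 0x204041)) e
 (c (a (nat_lit 0x3366)) e
 (c (b (nat_lit 0x12dfe4)) e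
 (c z e
 (c (a (nat_lit 0x15202025)) e
 (c (a (nat_lit 0x604041)) e
 (c (a (nat_lit 0x2041)) e
 (c (a (nat_lit 0x2041)) e
 (c (a (nat_lit 0x4021)) e
 (c (a (nat_lit 0x6061)) e
 (c (a (nat_lit 0x202001)) e e))))))))))))))))))))))) Tr.c Tr.e (nat_lit 0) C.cx C.cy
noncomputable def C286 : Tr := beta% (fun (c : Nat → Tr → Tr → Tr) (e : Tr) (z : Nat) (a b : Nat → Nat) =>
 (c (a (nat_lit 0x402021))
 (c z e
 (c (a (nat_lit 0x1027a02106))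
 (c (a (nat_lit 0x1b9596088628)) e
 (c (a (nat_lit 0x1110cb468689)) e
 (c z e
 (c z e
 (c (b (nat_lit 0x833ffe5a366)) e
 (c (a (nat_lit 0x11da176b8007)) e e))))))
 (c (a (nat_lit 0x6a031bbe6))
 (c (a (nat_lit 0x16534e2e0e07)) e
 (c (a (nat_lit 0x11488c68c8c8)) e
 (c (a (nat_lit 0x115289ca8708)) e
 (c (a (nat_lit 0xa55d30e2727)) e
 (c (a (nat_lit 0x161708a00008)) e e)))))
 (c (a (nat_lit 0x2054ad65))
 (c (a (nat_lit 0x17f7eaaa86e6)) e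
 (c (a (nat_lit 0x1b8a6c858367)) e
 (c (a (nat_lit 0x1442c2c16008)) e
 (c (a (nat_lit 0x186680000008)) e e))))
 (c (a (nat_lit 0x20a2a4121))
 (c (a (nat_lit 0x14f4e1610025)) e
 (c (a (nat_lit 0x14f520e00005)) e
 (c (a (nat_lit 0x19a000000006)) e e)))
 (c (a (nat_lit 0x618080c1))
 (c (a (nat_lit 0x1000e0000003)) e e)
 (c (a (nat_lit 0xe0c0e1)) e
 (c (a (nat_lit 0x1010181)) e
 (c (a (nat_lit 0x61e181c1)) e
 (c (a (nat_lit 0x60c101)) e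
 (c (a (nat_lit 0x808161)) e
 (c (a (nat_lit 0x203164)) e
 (c (a (nat_lit 0xa6f46b227)) e
 (c (a (nat_lit 0x7861d2666)) e e))))))))))))))
 (c (a (nat_lit 0x202021))
 (c (a (nat_lit 0x1580203484))
 (c (a (nat_lit 0xfd0e76706e6)) e
 (c (a (nat_lit 0x12aac70706e7)) e
 (c (a (nat_lit 0x1977ac05c546)) e
 (c (a (nat_lit 0x10bab06ca566)) e
 (c (a (nat_lit 0x8110522c167)) e
 (c (a (nat_lit 0x1f70c5a00007)) e e))))))
 (c (a (nat_lit 0x2054b0c5))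
 (c (a (nat_lit 0x1c0daaca8886)) e
 (c (a (nat_lit 0x110fe5c56447)) e
 (c (a (nat_lit 0x1a870ca58467)) e
 (c (a (nat_lit 0x1402c2c16008)) e
 (c (a (nat_lit 0x12e4a0000008)) e e)))))
 (c (a (nat_lit 0xc2022121))
 (c (a (nat_lit 0x17c6c0804026)) e
 (c (a (nat_lit 0x1b5ba2e26104)) e
 (c (a (nat_lit 0x1d5b41000004)) e
 (c (a (nat_lit 0x106000000006)) e e))))
 (c (a (nat_lit 0x542ca2681))
 (c (a (nat_lit 0x140dd2c84001)) e
 (c (a (nat_lit 0x1447c0000001)) e e))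
 (c (a (nat_lit 0x6160c121))
 (c (a (nat_lit 0x2000000001)) e e)
 (c (a (nat_lit 0x100e080a1)) e
 (c (a (nat_lit 0x60e14121)) e
 (c (a (nat_lit 0x281a261)) e
 (c (a (nat_lit 0x1c0614141)) e
 (c (a (nat_lit 0x822001)) e
 (c (a (nat_lit 0x212201e1)) e
 (c (a (nat_lit 0xa0dadb647)) e e))))))))))))
 (c (nat_lit 1)
 (c (a (nat_lit 0xc0e08041))
 (c (a (nat_lit 0x14cce1406044)) e
 (c (a (nat_lit 0x19a6a1206065)) e
 (c (a (nat_lit 0x19faa2e18023)) e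
 (c (a (nat_lit 0x19da61400003)) e
 (c (a (nat_lit 0x1ce000000004)) e e)))))
 (c (a (nat_lit 0x61612081))
 (c (a (nat_lit 0x284eac46141)) e
 (c (a (nat_lit 0x8abb1290001)) e
 (c (a (nat_lit 0x14620000001)) e e)))
 (c (a (nat_lit 0x281c30061))
 (c (a (nat_lit 0xb8b06000001)) e
 (c (a (nat_lit 0x62000000001)) e e))
 (c (a (nat_lit 0x1a121e1)) e
 (c (a (nat_lit 0xc08121)) e
 (c (a (nat_lit 0xc0e0e1a1)) e
 (c (a (nat_lit 0x2812301)) e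
 (c (a (nat_lit 0x2040d282)) e
 (c (a (nat_lit 0x263830181)) e
 (c (a (nat_lit 0x1c5cb35545)) e
 (c z e
 (c (a (nat_lit 0x8b7178005)) e
 (c (nat_lit 1) e e)))))))))))))
 (c (a (nat_lit 0x202021))
 (c (a (nat_lit 0x242404041))
 (c (a (nat_lit 0x263a3c1a041)) e
 (c (a (nat_lit 0x86706a00001)) e
 (c (a (nat_lit 0x10000000001)) e e)))
 (c (a (nat_lit 0x2a1c26001))
 (c (a (nat_lit 0xac4e0000001)) e e)
 (c (a (nat_lit 0x1c16221)) e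
 (c (a (nat_lit 0xa0c161)) e
 (c (a (nat_lit 0x10141c1)) e
 (c (a (nat_lit 0x409884)) e
 (c (a (nat_lit 0x1a3a5a92e5)) e
 (c (b (nat_lit 0x242ffffe1)) e
 (c z e
 (c (b (nat_lit 0x1fe1605263)) e
 (c (a (nat_lit 0x14800004)) e e)))))))))))
 (c (a (nat_lit 0x2041))
 (c (a (nat_lit 0x281426081))
 (c (a (nat_lit 0x2c000000001)) e e)
 (c (a (nat_lit 0x24242c001)) e
 (c (a (nat_lit 0x262212001)) e
 (c (a (nat_lit 0x202e19e6)) e
 (c (a (nat_lit 0x309390e8)) e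
 (c (a (nat_lit 0xe514bd067)) e
 (c z e
 (c (b (nat_lit 0x1fe97c70e5)) e
 (c (a (nat_lit 0x8b185c006)) e
 (c (a (nat_lit 0x16e0000005)) e e))))))))))
 (c (a (nat_lit 0x200001))
 (c (a (nat_lit 0x1408181)) e
 (c (a (nat_lit 0x203825)) e
 (c (a (nat_lit 0x36193688)) e
 (c z e
 (c z e
 (c (b (nat_lit 0x1fe1076001)) e
 (c (a (nat_lit 0x34c04204)) e
 (c (a (nat_lit 0x1920200002)) e e))))))))
 (c (a (nat_lit 0x202021))
 (c (a (nat_lit 0x27031b048)) e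
 (c z e
 (c z e
 (c (a (nat_lit 0x17f22e4007)) e
 (c (a (nat_lit 0x1775802005)) e
 (c (a (nat_lit 0x1a20202003)) e
 (c (a (nat_lit 0x20000001)) e e)))))))
 (c (a (nat_lit 0x202021))
 (c z e
 (c (a (nat_lit 0x1171b2c549)) e
 (c (a (nat_lit 0x11f6602007)) e
 (c (a (nat_lit 0x203584)) e
 (c (a (nat_lit 0x600001)) e e)))))
 (c (a (nat_lit 0x404021))
 (c (a (nat_lit 0x1597f6a927)) e
 (c (a (nat_lit 0x16402026a5)) e
 (c (a (nat_lit 0x4001)) e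
 (c (a (nat_lit 0x20000001)) e e))))
 (c (a (nat_lit 0x202021))
 (c (a (nat_lit 0x20202021)) e
 (c (a (nat_lit 0x20200001)) e e))
 (c (a (nat_lit 0x202021))
 (c (a (nat_lit 0x20000001)) e e)
 (c (a (nat_lit 0x202021)) e
 (c (a (nat_lit 0x202001)) e
 (c (a (nat_lit 0x1546)) e
 (c (b (nat_lit 0x385fe5)) e
 (c z e
 (c (a (nat_lit 0x1e602004)) e
 (c (a (nat_lit 0xa1)) e
 (c (a (nat_lit 0x20a1)) e
 (c (a (nat_lit 0x81)) e
 (c (a (nat_lit 0x2061)) e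
 (c (a (nat_lit 0x21)) e
 (c (a (nat_lit 0x200001)) e e)))))))))))))))))))))))) Tr.c Tr.e (nat_lit 0) C.cx C.cy
noncomputable def C287 : Tr := beta% (fun (c : Nat → Tr → Tr → Tr) (e : Tr) (z : Nat) (a b : Nat → Nat) =>
 (c (a (nat_lit 0x202021))
 (c (a (nat_lit 0x731264247))
 (c z e
 (c z e
 (c z e
 (c z e
 (c z e
 (c z e
 (c z e
 (c (b (nat_lit 0x185fe34006)) e
 (c (a (nat_lit 0x15140000005)) e e)))))))))
 (c z e
 (c (a (nat_lit 0x1f6dc02025))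
 (c (a (nat_lit 0x8ee92e28007)) e
 (c (a (nat_lit 0x1238516de668)) e
 (c z e
 (c z e
 (c (a (nat_lit 0x122dba02007)) e e)))))
 (c (a (nat_lit 0x640305a86))
 (c (a (nat_lit 0x112bf30d6d67)) e
 (c (a (nat_lit 0xc0ed44cc948)) e
 (c z e
 (c (a (nat_lit 0x3f513000007)) e e))))
 (c (a (nat_lit 0x2034b445))
 (c (a (nat_lit 0x190ef8aa8a26)) e e)
 (c (b (nat_lit 0x1ff1d1a003))
 (c (a (nat_lit 0x1292e9c00003)) e e)
 (c (a (nat_lit 0xc1a1e121)) e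
 (c (a (nat_lit 0xc6c4c441)) e
 (c (a (nat_lit 0x181c281)) e
 (c (a (nat_lit 0x20c0a1)) e
 (c (a (nat_lit 0x4080a0a1)) e
 (c (a (nat_lit 0x4080a0a1)) e
 (c (a (nat_lit 0x80808001)) e
 (c (a (nat_lit 0x2b6b7b06)) e e))))))))))))))
 (c (a (nat_lit 0x202021))
 (c (a (nat_lit 0x1a0b202025))
 (c (a (nat_lit 0x18b44dca8a06)) e
 (c (a (nat_lit 0xf8d7129c687)) e
 (c z e
 (c (a (nat_lit 0xdf26c32c6c7)) e
 (c (a (nat_lit 0x6333ca6a2c7)) e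
 (c (a (nat_lit 0x6b534266007)) e e))))))
 (c (a (nat_lit 0x1420203485))
 (c (a (nat_lit 0xd93aaa6e6c7)) e
 (c (a (nat_lit 0x128c07848448)) e
 (c (a (nat_lit 0x18df9cec8567)) e
 (c (a (nat_lit 0xf1a0302c168)) e
 (c (a (nat_lit 0x12b2e5c00008)) e e)))))
 (c (a (nat_lit 0x2034ad45))
 (c (a (nat_lit 0x19b62b0a86e6)) e
 (c (a (nat_lit 0x1e8cacc58367)) e
 (c (a (nat_lit 0x11616160c009)) e
 (c (a (nat_lit 0x12a5c0000008)) e e))))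
 (c (a (nat_lit 0x2e9aa8021))
 (c (a (nat_lit 0x1d74e1612025)) e
 (c (a (nat_lit 0x14f560e00005)) e e))
 (c (a (nat_lit 0x12141c101))
 (c (a (nat_lit 0x1060c0000003)) e e)
 (c (a (nat_lit 0xc1010001)) e
 (c (a (nat_lit 0x40e0c101)) e
 (c (a (nat_lit 0x16121c1)) e
 (c (a (nat_lit 0x10100a061)) e
 (c (a (nat_lit 0xe2e2e31c4)) e
 (c (a (nat_lit 0x1373775124)) e
 (c (a (nat_lit 0x7a9867485)) e
 (c z e
 (c (a (nat_lit 0x591e84006)) e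
 (c (a (nat_lit 0x1360000005)) e e)))))))))))))))
 (c (a (nat_lit 0x202021))
 (c (a (nat_lit 0x348c84))
 (c (a (nat_lit 0x114845452346)) e
 (c (a (nat_lit 0x16d0e5c54346)) e
 (c (a (nat_lit 0x18cdacc5c366)) e
 (c (a (nat_lit 0x1d02a2c16007)) e
 (c (a (nat_lit 0x18c4c0000007)) e e)))))
 (c (a (nat_lit 0x41610061))
 (c (a (nat_lit 0x16a4c0a06046)) e
 (c (a (nat_lit 0x126a222160a5)) e
 (c (a (nat_lit 0x159361000004)) e
 (c (a (nat_lit 0x110000000006)) e e))))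
 (c (a (nat_lit 0x4028c46c1))
 (c (a (nat_lit 0x146f560a0001)) e
 (c (a (nat_lit 0x10e840000001)) e e))
 (c (a (nat_lit 0xc12181))
 (c (a (nat_lit 0x16000000001)) e e)
 (c (a (nat_lit 0xa0c0a141)) e
 (c (a (nat_lit 0x1212101)) e
 (c (a (nat_lit 0x3218281)) e
 (c (a (nat_lit 0x20c10301)) e
 (c (a (nat_lit 0x17b7b817e4)) e
 (c (a (nat_lit 0x1818383dc6)) e
 (c z e
 (c (b (nat_lit 0x1ff3c10083)) e
 (c (a (nat_lit 0x1e34a00004)) e e)))))))))))))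
 (c (a (nat_lit 0x202021))
 (c (a (nat_lit 0x80c2a181))
 (c (a (nat_lit 0xa106c38181)) e
 (c (a (nat_lit 0xa2b8e65c001)) e
 (c (a (nat_lit 0x16220000001)) e e)))
 (c (a (nat_lit 0x7c5c26001))
 (c (a (nat_lit 0x114ec8400001)) e
 (c (a (nat_lit 0x68000000001)) e e))
 (c (a (nat_lit 0x16121e1)) e
 (c (a (nat_lit 0x2040e0c1)) e
 (c (a (nat_lit 0x10060c1)) e
 (c (a (nat_lit 0x206059e4)) e
 (c (a (nat_lit 0x16161849a5)) e
 (c (b (nat_lit 0x29dffca3)) e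
 (c z e
 (c (b (nat_lit 0x1fe823e0e1)) e
 (c (a (nat_lit 0x1514802004)) e
 (c (a (nat_lit 0x1340000002)) e e))))))))))))
 (c (a (nat_lit 0x204041))
 (c (a (nat_lit 0x1c162c1a1))
 (c (a (nat_lit 0x681e0000001)) e e)
 (c (a (nat_lit 0x263836081)) e
 (c (a (nat_lit 0x343e2e001)) e
 (c (a (nat_lit 0x202e1aa6)) e
 (c (a (nat_lit 0x13059d788)) e
 (c (a (nat_lit 0xd104bf027)) e
 (c z e
 (c (b (nat_lit 0x1fe3018001)) e
 (c (a (nat_lit 0x15002024)) e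
 (c (a (nat_lit 0xc0a00001)) e e))))))))))
 (c (a (nat_lit 0x202001))
 (c (a (nat_lit 0x140a161)) e
 (c (a (nat_lit 0x202039c5)) e
 (c z e
 (c z e
 (c z e
 (c (b (nat_lit 0x1fe4c450e1)) e
 (c (a (nat_lit 0x1275002044)) e
 (c (a (nat_lit 0x61008001)) e
 (c (a (nat_lit 0x1260000002)) e e)))))))))
 (c (a (nat_lit 0x202021))
 (c (a (nat_lit 0x38ff19068)) e
 (c z e
 (c z e
 (c (a (nat_lit 0xeb35382a7)) e
 (c (a (nat_lit 0x1b9b678026)) e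
 (c (a (nat_lit 0x1220002225)) e
 (c (a (nat_lit 0x20400001)) e e)))))))
 (c (a (nat_lit 0x21))
 (c z e
 (c (a (nat_lit 0x1152728bc9)) e
 (c (a (nat_lit 0x189895e007)) e
 (c (a (nat_lit 0x80804001)) e
 (c (a (nat_lit 0x40404001)) e
 (c (a (nat_lit 0x120000001)) e e))))))
 (c (a (nat_lit 0x202001))
 (c (a (nat_lit 0x18d8d78fa7)) e
 (c (a (nat_lit 0x1422e61)) e
 (c (a (nat_lit 0x804001)) e
 (c (a (nat_lit 0x200001)) e e))))
 (c (a (nat_lit 0x202021))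
 (c (a (nat_lit 0x20002021)) e
 (c (a (nat_lit 0x20402001)) e
 (c (a (nat_lit 0x20000001)) e e)))
 (c (a (nat_lit 0x402021))
 (c (a (nat_lit 0x40200001)) e e)
 (c (a (nat_lit 0x202021)) e
 (c (nat_lit 1) e
 (c (a (nat_lit 0x202001)) e
 (c (a (nat_lit 0x15e6)) e
 (c (a (nat_lit 0x35e7e6)) e
 (c z e
 (c (a (nat_lit 0x1f402004)) e
 (c (nat_lit 1) e
 (c (a (nat_lit 0x2001)) e
 (c (a (nat_lit 0x202021)) e
 (c (a (nat_lit 0x2041)) e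
 (c (a (nat_lit 0x2001)) e e)))))))))))))))))))))))) Tr.c Tr.e (nat_lit 0) C.cx C.cy
noncomputable def C288 : Tr := beta% (fun (c : Nat → Tr → Tr → Tr) (e : Tr) (z : Nat) (a b : Nat → Nat) =>
 (c z
 (c (a (nat_lit 0x202021))
 (c (a (nat_lit 0x20202021))
 (c (a (nat_lit 0x1dddfdddfdc1))
 (c z e
 (c (a (nat_lit 0x3c3edc1c4f604)) e
 (c (a (nat_lit 0x3c951e73fd924)) e
 (c (a (nat_lit 0x16382c3d07946)) e
 (c (a (nat_lit 0x4e568ab7e0886)) e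
 (c (a (nat_lit 0x157abe99c00006)) e e))))))
 (c (a (nat_lit 0x40402021))
 (c (a (nat_lit 0x262323625426)) e
 (c (a (nat_lit 0x669660a631028)) e e))
 (c (a (nat_lit 0x20203b63))
 (c (b (nat_lit 0x3674edff8cd07)) e e)
 (c (a (nat_lit 0x1818befbfe5))
 (c z e
 (c (a (nat_lit 0x2d0a580000008)) e
 (c (a (nat_lit 0x1a200000000007)) e e)))
 (c (a (nat_lit 0x8ee2fb86e26))
 (c (a (nat_lit 0x1e28a000000006)) e e)
 (c (a (nat_lit 0x1b7c9f1af9e7)) e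
 (c (a (nat_lit 0xe104c496967)) e
 (c (a (nat_lit 0x12c9ebef0946)) e
 (c (a (nat_lit 0x11102684e306)) e
 (c (a (nat_lit 0xf1446a6a465)) e
 (c (a (nat_lit 0x142706c6a043)) e
 (c (a (nat_lit 0x6060a06001)) e
 (c (a (nat_lit 0x4040000001)) e e)))))))))))))
 (c (a (nat_lit 0x20404041))
 (c (a (nat_lit 0x202039c4))
 (c (a (nat_lit 0x78687e2a6fa47)) e e)
 (c (a (nat_lit 0x486098c3608)) e
 (c z e
 (c z e
 (c z e
 (c (a (nat_lit 0x1a10f02dea28)) e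
 (c (a (nat_lit 0x17086c0706e7)) e
 (c (a (nat_lit 0x122be483a7e7)) e
 (c (a (nat_lit 0x987e2e05e26)) e
 (c (a (nat_lit 0x1e1e1e031a7)) e
 (c (a (nat_lit 0xe1a1200001)) e
 (c (a (nat_lit 0xa000000001)) e e))))))))))))
 (c (a (nat_lit 0x20203484))
 (c (a (nat_lit 0xbcd13173da7)) e
 (c z e
 (c z e
 (c z e
 (c z e
 (c z e
 (c (a (nat_lit 0x1b06e28c2de6)) e
 (c (a (nat_lit 0xb809336a6)) e
 (c (a (nat_lit 0x8a921dc0003)) e
 (c (a (nat_lit 0x8080000001)) e e))))))))))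
 (c (a (nat_lit 0x149304))
 (c z e
 (c (a (nat_lit 0xfce9050b0e7)) e
 (c (a (nat_lit 0x10f0738cf088)) e
 (c z e
 (c z e
 (c (a (nat_lit 0x2014ca41667)) e
 (c (b (nat_lit 0x18cb4dffea05)) e
 (c (a (nat_lit 0xa4119400003)) e
 (c (a (nat_lit 0x10000000001)) e e)))))))))
 (c (a (nat_lit 0x5aff1a165))
 (c (a (nat_lit 0x627c54cd087)) e
 (c (a (nat_lit 0xd6dcdf3ace8)) e
 (c z e
 (c (a (nat_lit 0xd2cc2941287)) e
 (c (a (nat_lit 0x146b208d16e7)) e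
 (c (a (nat_lit 0x2c00b4c006)) e
 (c (a (nat_lit 0x9640000003)) e e)))))))
 (c (a (nat_lit 0x1b59551427))
 (c (a (nat_lit 0x19391d1899c7)) e
 (c z e
 (c z e
 (c (a (nat_lit 0x1894153fa9a7)) e
 (c (a (nat_lit 0x1dce30400007)) e e)))))
 (c (a (nat_lit 0x1163e1c1c5))
 (c (b (nat_lit 0x54c908c9fe7)) e
 (c (b (nat_lit 0x6f394ffe088)) e
 (c (a (nat_lit 0x12f737c2c007)) e e)))
 (c (a (nat_lit 0xa002adf44))
 (c (b (nat_lit 0x16377fe66207)) e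
 (c (a (nat_lit 0x1bf188800008)) e e))
 (c (a (nat_lit 0x2034b484))
 (c (a (nat_lit 0x16c5c0000008)) e e)
 (c (a (nat_lit 0x35d5d5a4)) e
 (c (a (nat_lit 0x61008061)) e
 (c (a (nat_lit 0x20406081)) e
 (c (a (nat_lit 0x40602041)) e
 (c (a (nat_lit 0x404021)) e
 (c (a (nat_lit 0x20602021)) e
 (c (a (nat_lit 0xd8d8d9903)) e
 (c (a (nat_lit 0x32d907125)) e
 (c (a (nat_lit 0xf5272e4e5)) e e))))))))))))))))))
 (c (nat_lit 1)
 (c (a (nat_lit 0x20203484))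
 (c (a (nat_lit 0x3e3e60753c7))
 (c (a (nat_lit 0x114d4c8d7efda6)) e e)
 (c (a (nat_lit 0xa8e35ff5c28)) e
 (c z e
 (c z e
 (c (a (nat_lit 0x1a91aa2b2c68)) e
 (c (a (nat_lit 0x19309b10c8c7)) e
 (c (a (nat_lit 0xcde58c9e0a5)) e
 (c (a (nat_lit 0x141aebe94826)) e
 (c (a (nat_lit 0x5a1c048d2e7)) e
 (c (a (nat_lit 0x4e4e0998006)) e
 (c (a (nat_lit 0x14100000001)) e e)))))))))))
 (c (b (nat_lit 0x26105fe6))
 (c z e
 (c z e
 (c z e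
 (c z e
 (c z e
 (c z e
 (c z e
 (c (b (nat_lit 0x892ce9fe387)) e
 (c (a (nat_lit 0x96d16e00005)) e
 (c (a (nat_lit 0xa000000001)) e e))))))))))
 (c z e
 (c z e
 (c (a (nat_lit 0x1083402026))
 (c (a (nat_lit 0x195e563cc007)) e
 (c (a (nat_lit 0x54c5766e0e8)) e e))
 (c (a (nat_lit 0x3802f3966))
 (c (a (nat_lit 0x13b9bbd3cee7)) e
 (c (b (nat_lit 0x19d85feb45e8)) e
 (c (a (nat_lit 0x10eea5a00009)) e e)))
 (c (a (nat_lit 0x2054d4e5))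
 (c (a (nat_lit 0x1622c3c16008)) e
 (c (a (nat_lit 0x12e600000009)) e e))
 (c (a (nat_lit 0x31515145))
 (c (a (nat_lit 0x132000000007)) e e)
 (c (a (nat_lit 0x282e26101)) e
 (c (a (nat_lit 0xb0da0c0e1)) e
 (c (a (nat_lit 0x60a08121)) e
 (c (a (nat_lit 0x60a080a1)) e
 (c (a (nat_lit 0x608141)) e
 (c (a (nat_lit 0x203704)) e
 (c (a (nat_lit 0x4871527)) e
 (c (a (nat_lit 0x2530a5a7)) e e))))))))))))))))
 C287))
 (c z
 (c (a (nat_lit 0x202021))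
 (c (a (nat_lit 0x203b6022))
 (c (a (nat_lit 0x8e8ee363125))
 (c (a (nat_lit 0x74a66f03271e5)) e e)
 (c (a (nat_lit 0xbb0b1b6b2e7)) e
 (c z e
 (c (a (nat_lit 0x1bb3f6fcfc86)) e
 (c (a (nat_lit 0xe2ef5514f06)) e
 (c (a (nat_lit 0x14fe1b637865)) e
 (c (a (nat_lit 0x19d9e7824445)) e
 (c (a (nat_lit 0x66144019de6)) e
 (c (a (nat_lit 0x7a5c769d905)) e
 (c (a (nat_lit 0x800d8e00004)) e
 (c (a (nat_lit 0x2000000001)) e e)))))))))))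
 (c (a (nat_lit 0xb966b0707))
 (c z e
 (c z e
 (c z e
 (c z e
 (c z e
 (c z e
 (c z e
 (c z e
 (c (a (nat_lit 0x3680000005)) e e)))))))))
 (c z e
 (c (a (nat_lit 0x1729c62625))
 (c (a (nat_lit 0x1978362605e6)) e
 (c (a (nat_lit 0x14b6abae2407)) e
 (c (a (nat_lit 0xe116e810267)) e
 (c (a (nat_lit 0x66ad3204467)) e
 (c (a (nat_lit 0x5795386a007)) e e)))))
 (c (a (nat_lit 0x6002014a4))
 (c (a (nat_lit 0x13ec32854546)) e
 (c (a (nat_lit 0x14f72748c547)) e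
 (c (b (nat_lit 0xdf9dfe2c167)) e
 (c (a (nat_lit 0x1e1946400007)) e e))))
 (c (a (nat_lit 0x4074d484))
 (c (a (nat_lit 0x1b054c656526)) e
 (c (a (nat_lit 0x15256361e007)) e
 (c (a (nat_lit 0x1c8620000007)) e e)))
 (c (a (nat_lit 0xf211e0c2))
 (c (a (nat_lit 0x153502800004)) e
 (c (a (nat_lit 0x17e000000005)) e e))
 (c (a (nat_lit 0x410605a1)) e
 (c (a (nat_lit 0x5c6804061)) e
 (c (a (nat_lit 0xc0a101)) e
 (c (a (nat_lit 0x20604061)) e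
 (c (a (nat_lit 0x206101)) e
 (c (a (nat_lit 0x20a181)) e
 (c (a (nat_lit 0x808083026)) e
 (c (a (nat_lit 0x80d554966)) e
 (c (b (nat_lit 0x8183fffe5)) e e))))))))))))))))
 C286)
 (c z C285
 C284)))) Tr.c Tr.e (nat_lit 0) C.cx C.cy
noncomputable def C289 : Tr := beta% (fun (c : Nat → Tr → Tr → Tr) (e : Tr) (z : Nat) (a b : Nat → Nat) =>
 (c (a (nat_lit 0x202021))
 (c (b (nat_lit 0x2034bfe4))
 (c z e
 (c z e
 (c z e
 (c z e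
 (c z e
 (c (b (nat_lit 0x1289f1ffea26)) e
 (c (b (nat_lit 0x51ffb7487)) e
 (c (b (nat_lit 0x127d2e1fffe6)) e
 (c (a (nat_lit 0x493bc00004)) e
 (c (nat_lit 1) e e))))))))))
 (c z e
 (c z e
 (c (a (nat_lit 0x13eb43a385))
 (c (a (nat_lit 0x1ab99a168107)) e
 (c (a (nat_lit 0x875386a4067)) e e))
 (c (a (nat_lit 0x4c02ed906))
 (c (a (nat_lit 0x168bf993b147)) e e)
 (c (a (nat_lit 0x72791b1a6))
 (c (a (nat_lit 0x1d690dc48007)) e
 (c (a (nat_lit 0x13e800000009)) e e))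
 (c (a (nat_lit 0x53331306))
 (c (a (nat_lit 0x194000000007)) e e)
 (c (a (nat_lit 0x304676681)) e
 (c (a (nat_lit 0x4846401)) e
 (c (a (nat_lit 0x816141)) e
 (c (a (nat_lit 0x20812101)) e
 (c (a (nat_lit 0x60a100e1)) e
 (c (a (nat_lit 0xe100a1c1)) e
 (c (a (nat_lit 0xf88b7e66)) e
 (c z e
 (c (a (nat_lit 0xbc402006)) e
 (c (a (nat_lit 0x1b60000006)) e e)))))))))))))))))
 (c (a (nat_lit 0x202021))
 (c z e
 (c (a (nat_lit 0x13c8c06066))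
 (c (a (nat_lit 0xcb6798b8707)) e
 (c (a (nat_lit 0x1198f1e98768)) e
 (c z e
 (c z e
 (c (a (nat_lit 0x86c77478008)) e e)))))
 (c (a (nat_lit 0xf60203485))
 (c (a (nat_lit 0x1fd934eaea66)) e
 (c (a (nat_lit 0x16f73e11aa67)) e
 (c z e
 (c (a (nat_lit 0x8bcc8600008)) e e))))
 (c (a (nat_lit 0x349425))
 (c (a (nat_lit 0x16ea98ca8a26)) e e)
 (c (a (nat_lit 0x52522023))
 (c (a (nat_lit 0x14d502800005)) e e)
 (c (a (nat_lit 0x262624081)) e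
 (c (a (nat_lit 0xc0e18101)) e
 (c (a (nat_lit 0x1410201)) e
 (c (a (nat_lit 0x60a08041)) e
 (c (a (nat_lit 0x402042a1)) e
 (c (a (nat_lit 0x1595804f45)) e
 (c (a (nat_lit 0x1d3df09c64)) e
 (c z e
 (c (b (nat_lit 0x1fe0e180a1)) e
 (c (a (nat_lit 0x1d7de00004)) e e)))))))))))))))
 (c (a (nat_lit 0x2001))
 (c (a (nat_lit 0xee02034a4))
 (c (a (nat_lit 0xf318a054546)) e
 (c (a (nat_lit 0x160d69662507)) e
 (c (a (nat_lit 0x116d492642a7)) e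
 (c (a (nat_lit 0xed94443a167)) e
 (c (a (nat_lit 0xa7d47800007)) e e)))))
 (c (a (nat_lit 0x20348945))
 (c (a (nat_lit 0x1777aaaa64e6)) e
 (c (a (nat_lit 0x17e9ace5c287)) e
 (c (a (nat_lit 0x10616160c009)) e
 (c (a (nat_lit 0x1b0780000008)) e e))))
 (c (a (nat_lit 0x4a0a40a1))
 (c (a (nat_lit 0x10f0e1810025)) e
 (c (a (nat_lit 0x1090e0c00005)) e
 (c (a (nat_lit 0x1d8000000006)) e e)))
 (c (a (nat_lit 0x120a081))
 (c (a (nat_lit 0x106120000003)) e e)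
 (c (a (nat_lit 0x20a1a021)) e
 (c (a (nat_lit 0x1012181)) e
 (c (a (nat_lit 0x241c3c1)) e
 (c (a (nat_lit 0x40407343)) e
 (c (a (nat_lit 0x133337e8c5)) e
 (c (a (nat_lit 0x187ad35dc6)) e
 (c z e
 (c (b (nat_lit 0x1ff0a04003)) e
 (c (a (nat_lit 0x108f002005)) e
 (c (a (nat_lit 0x1400000001)) e e))))))))))))))
 (c (a (nat_lit 0x202021))
 (c (a (nat_lit 0xc08001))
 (c (a (nat_lit 0x14e300606025)) e
 (c (a (nat_lit 0x197a2be82402)) e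
 (c (a (nat_lit 0x114ce1400003)) e
 (c (a (nat_lit 0x19e000000005)) e e))))
 (c (a (nat_lit 0x4a2edc7c1))
 (c (a (nat_lit 0x154d37ea2001)) e
 (c (a (nat_lit 0xda5c0000001)) e e))
 (c (a (nat_lit 0x4141a221))
 (c (a (nat_lit 0x6000000001)) e e)
 (c (a (nat_lit 0x21c1e121)) e
 (c (a (nat_lit 0xe18121)) e
 (c (a (nat_lit 0x403065)) e
 (c (a (nat_lit 0x1478b8b505)) e
 (c (a (nat_lit 0xe6c0f145)) e
 (c z e
 (c (b (nat_lit 0x1ff3006003)) e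
 (c (a (nat_lit 0x13ef402025)) e
 (c (a (nat_lit 0x200800001)) e e))))))))))))
 (c (a (nat_lit 0x2041))
 (c (a (nat_lit 0x28182c0c1))
 (c (a (nat_lit 0x6e662000001)) e
 (c (a (nat_lit 0x5a000000001)) e e))
 (c (a (nat_lit 0x16222c0e1)) e
 (c (a (nat_lit 0x140e321a1)) e
 (c (a (nat_lit 0x202e3de6)) e
 (c (a (nat_lit 0x2cd5b328)) e
 (c (a (nat_lit 0x10584e7846)) e
 (c z e
 (c (b (nat_lit 0x1fe1005763)) e
 (c (a (nat_lit 0x1fdf204024)) e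
 (c (a (nat_lit 0x2a1008001)) e
 (c (nat_lit 1) e e)))))))))))
 (c (a (nat_lit 0x202021))
 (c (a (nat_lit 0x4140c161)) e
 (c (a (nat_lit 0x202033c6)) e
 (c z e
 (c z e
 (c z e
 (c (a (nat_lit 0x3f7b7f8e5)) e
 (c (a (nat_lit 0xf70820065)) e
 (c (a (nat_lit 0x80a021)) e
 (c (a (nat_lit 0x800001)) e e)))))))))
 (c (a (nat_lit 0x202021))
 (c (a (nat_lit 0x62f312fe8)) e
 (c z e
 (c z e
 (c (a (nat_lit 0x1398787107)) e
 (c (a (nat_lit 0x10302c4507)) e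
 (c (a (nat_lit 0x1e80a06003)) e
 (c (a (nat_lit 0x20808001)) e
 (c (a (nat_lit 0x20000001)) e e))))))))
 (c (a (nat_lit 0x202021))
 (c z e
 (c (a (nat_lit 0x1d3fbfb628)) e
 (c (a (nat_lit 0x19797586e7)) e
 (c (a (nat_lit 0x300206021)) e
 (c (a (nat_lit 0x40406041)) e
 (c (a (nat_lit 0x400001)) e e))))))
 (c (a (nat_lit 0x404041))
 (c (a (nat_lit 0x18183649e7)) e
 (c (a (nat_lit 0x540806001)) e
 (c (a (nat_lit 0x604041)) e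
 (c (a (nat_lit 0x20004001)) e
 (c (a (nat_lit 0x1200000003)) e e)))))
 (c (a (nat_lit 0x202021))
 (c (a (nat_lit 0x20202021)) e
 (c (a (nat_lit 0x20202021)) e
 (c (a (nat_lit 0x20200001)) e e)))
 (c (a (nat_lit 0x202021))
 (c (a (nat_lit 0x20202001)) e
 (c (a (nat_lit 0x20000001)) e e))
 (c (a (nat_lit 0x202021)) e
 (c (a (nat_lit 0x202021)) e
 (c (a (nat_lit 0x202021)) e
 (c (a (nat_lit 0x200041)) e
 (c (a (nat_lit 0x3f45)) e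
 (c (a (nat_lit 0x3026e6)) e
 (c z e
 (c (a (nat_lit 0x18402004)) e
 (c (a (nat_lit 0x804021)) e
 (c (a (nat_lit 0x402001)) e
 (c (a (nat_lit 0x21)) e
 (c (a (nat_lit 0x204021)) e
 (c (a (nat_lit 0x200001)) e e))))))))))))))))))))))))) Tr.c Tr.e (nat_lit 0) C.cx C.cy
noncomputable def C290 : Tr := beta% (fun (c : Nat → Tr → Tr → Tr) (e : Tr) (z : Nat) (a b : Nat → Nat) =>
 (c (a (nat_lit 0x20202021))
 (c (a (nat_lit 0x34a9292922))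
 (c z e
 (c z e
 (c (a (nat_lit 0x1a05a5c504a4a3)) e
 (c (a (nat_lit 0x340c0c0a0b1e6)) e
 (c (a (nat_lit 0x1e280c0af7bc6)) e
 (c (a (nat_lit 0x4c260d027a1c6)) e
 (c (a (nat_lit 0x2426b89508ae6)) e
 (c (a (nat_lit 0xaecb4a8496666)) e e))))))))
 (c (a (nat_lit 0x14a020202004))
 (c z e
 (c (a (nat_lit 0x18181a0203766))
 (c (a (nat_lit 0x1041200000000007)) e e)
 (c (a (nat_lit 0x202020283648)) e
 (c (a (nat_lit 0x320602e3b2867)) e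
 (c (a (nat_lit 0x5429032658667)) e
 (c (a (nat_lit 0xc4695ba71ad07)) e e))))))
 (c (a (nat_lit 0x161a1a04041))
 (c (a (nat_lit 0x160a0202b7786)) e
 (c (a (nat_lit 0x40202db041c7)) e
 (c (a (nat_lit 0x1a1aad1836567)) e e)))
 (c (a (nat_lit 0x40406001))
 (c (a (nat_lit 0x2030d40ec306)) e
 (c z e
 (c z e
 (c z e
 (c (a (nat_lit 0x18df9c60000006)) e e)))))
 (c (a (nat_lit 0x40202001))
 (c z e
 (c (b (nat_lit 0x75ff106a828c6)) e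
 (c (a (nat_lit 0x1048e943e00007)) e
 (c (a (nat_lit 0x5112000000005)) e e))))
 (c (a (nat_lit 0x2020203e65))
 (c (a (nat_lit 0xc55f48a3a004)) e
 (c (a (nat_lit 0x126e68a0000006)) e
 (c (a (nat_lit 0x12800000000004)) e e)))
 (c (a (nat_lit 0x2028f12c66))
 (c (a (nat_lit 0x10a7a000000004)) e e)
 (c (a (nat_lit 0x70f3450ace7)) e
 (c z e
 (c (a (nat_lit 0x16938fce2a87)) e
 (c (a (nat_lit 0x1753ba94ed87)) e
 (c (a (nat_lit 0x1bfc1c30f0c6)) e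
 (c (a (nat_lit 0xa0c0a0a0c1)) e
 (c (a (nat_lit 0x4060c0a021)) e
 (c (a (nat_lit 0x20a0800001)) e
 (c (a (nat_lit 0x6000000001)) e e))))))))))))))))
 (c (a (nat_lit 0x20202021))
 (c (a (nat_lit 0xa0e0e0e0e1))
 (c (a (nat_lit 0xc45c5e06053c3)) e
 (c (a (nat_lit 0x608060223028)) e
 (c (a (nat_lit 0x202024132a88)) e
 (c (a (nat_lit 0x1c164f1082148)) e
 (c (a (nat_lit 0x54975ec6b8887)) e
 (c (b (nat_lit 0x1fec920e8e50a8)) e e))))))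
 (c (a (nat_lit 0x1636a0806062))
 (c (a (nat_lit 0x100e0e5328c07)) e
 (c (a (nat_lit 0x303eadac82c88)) e
 (c (a (nat_lit 0xa458eaf0b7fc8)) e e)))
 (c (a (nat_lit 0xc0e0e12001))
 (c (b (nat_lit 0x5a89affe2a3a8)) e e)
 (c (a (nat_lit 0x2020203c45))
 (c z e
 (c (a (nat_lit 0x1ed0c150a8008)) e
 (c (a (nat_lit 0x8f1bc60000007)) e e)))
 (c (a (nat_lit 0x26269aab447))
 (c (b (nat_lit 0x31ff084400007)) e
 (c (a (nat_lit 0x4788000000007)) e e))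
 (c (a (nat_lit 0x6aaccf14e68))
 (c (a (nat_lit 0x1c800000000006)) e e)
 (c z e
 (c z e
 (c (a (nat_lit 0x183bdab3ec08)) e
 (c (a (nat_lit 0x1b9819d28d08)) e
 (c (a (nat_lit 0xdd0f0eceb87)) e
 (c (a (nat_lit 0x140e1a12101)) e
 (c (a (nat_lit 0xc181c08001)) e
 (c (a (nat_lit 0x80a0000001)) e e))))))))))))))
 (c (a (nat_lit 0x20202021))
 (c (a (nat_lit 0x4060606081))
 (c (a (nat_lit 0x203a72409784)) e
 (c (a (nat_lit 0xf721dc8571c47)) e e))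
 (c (a (nat_lit 0x20203c25)) e
 (c (a (nat_lit 0x3232af17d86)) e
 (c z e
 (c z e
 (c z e
 (c z e
 (c z e
 (c (a (nat_lit 0x1473d40a2808)) e
 (c (a (nat_lit 0x112aaaa5c367)) e
 (c (a (nat_lit 0xa102014121)) e
 (c (a (nat_lit 0xe0400001)) e
 (c (a (nat_lit 0xf0000000001)) e e)))))))))))))
 (c (a (nat_lit 0x40404041))
 (c (a (nat_lit 0x202fbc2ea4))
 (c (a (nat_lit 0x17606345e48767)) e e)
 (c z e
 (c z e
 (c z e
 (c (a (nat_lit 0xbaf8d39d0c8)) e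
 (c z e
 (c z e
 (c (a (nat_lit 0x18d7ef470508)) e
 (c (a (nat_lit 0x122d4644a5e7)) e
 (c (a (nat_lit 0x16122c18001)) e
 (c (a (nat_lit 0x2080000001)) e e)))))))))))
 (c (a (nat_lit 0x20202021))
 (c z e
 (c (a (nat_lit 0x1cd6f18ceda6)) e
 (c (a (nat_lit 0x102bf1645246)) e
 (c (a (nat_lit 0xa8e7070e987)) e
 (c z e
 (c (a (nat_lit 0x7d0e8a18567)) e
 (c (a (nat_lit 0x16d0ef28baa7)) e
 (c (a (nat_lit 0x1c0de0665e26)) e
 (c (a (nat_lit 0x158020200005)) e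
 (c (a (nat_lit 0x4000000001)) e e))))))))))
 (c (a (nat_lit 0x2034a4))
 (c (a (nat_lit 0x1997144e1ae4)) e
 (c (a (nat_lit 0x644c5039027)) e
 (c (a (nat_lit 0x84bef75b5e7)) e
 (c z e
 (c (a (nat_lit 0x86fd50823e7)) e
 (c (a (nat_lit 0x1c1ccdf8ea86)) e
 (c (a (nat_lit 0x15e503e14007)) e
 (c (a (nat_lit 0x132020000005)) e e))))))))
 (c (a (nat_lit 0x20384125))
 (c (a (nat_lit 0x2c2caa73046)) e
 (c (a (nat_lit 0x32badce34c7)) e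
 (c z e
 (c (a (nat_lit 0x103cda379187)) e
 (c (b (nat_lit 0x1803706ffe7)) e
 (c (a (nat_lit 0x30893200006)) e
 (c (a (nat_lit 0x146000000005)) e e)))))))
 (c (a (nat_lit 0xad9c86666))
 (c (a (nat_lit 0x71adddb946)) e
 (c z e
 (c z e
 (c (b (nat_lit 0x3ad595fe008)) e
 (c (a (nat_lit 0x8dec0000006)) e e)))))
 (c z e
 (c (a (nat_lit 0x1269602004))
 (c (a (nat_lit 0x7e71a866008)) e e)
 (c (a (nat_lit 0x1e02dd2e6)) e
 (c (a (nat_lit 0x2034b4a4)) e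
 (c (a (nat_lit 0x20604061)) e
 (c (a (nat_lit 0x404021)) e
 (c (a (nat_lit 0x40a081)) e
 (c (a (nat_lit 0x60606061)) e
 (c (a (nat_lit 0x20402021)) e
 (c (a (nat_lit 0x20203be5)) e
 (c (a (nat_lit 0x2f9c0485)) e
 (c (b (nat_lit 0xf5ba45fe5)) e e))))))))))))))))))))) Tr.c Tr.e (nat_lit 0) C.cx C.cy
noncomputable def C291 : Tr := beta% (fun (c : Nat → Tr → Tr → Tr) (e : Tr) (z : Nat) (a b : Nat → Nat) =>
 (c z
 (c (a (nat_lit 0x202021)) C290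
 (c (a (nat_lit 0x202021))
 (c (a (nat_lit 0x40402021))
 (c (a (nat_lit 0x15b620402001))
 (c (a (nat_lit 0x6868683c31e44)) e
 (c (a (nat_lit 0xc0c0c132da66)) e
 (c (a (nat_lit 0xc0c35d752e06)) e
 (c (a (nat_lit 0x3437109041367)) e
 (c (a (nat_lit 0x40828c8e93e27)) e
 (c (a (nat_lit 0xb4c8fb0f0c008)) e e))))))
 (c (a (nat_lit 0xa100a0c0e1))
 (c (a (nat_lit 0x404634b5ed06)) e
 (c (a (nat_lit 0x72afc6c9008e8)) e e))
 (c (a (nat_lit 0x181c201e2c1))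
 (c (b (nat_lit 0x74d6de8fff608)) e e)
 (c (a (nat_lit 0x282a602d167))
 (c z e
 (c (a (nat_lit 0x4a43147200009)) e
 (c (a (nat_lit 0xf37c000000008)) e e)))
 (c (a (nat_lit 0x3a70ad419c7))
 (c (b (nat_lit 0x1ff5a740000007)) e
 (c (a (nat_lit 0x11e00000000008)) e e))
 (c (a (nat_lit 0x12d4da5b1348)) e
 (c z e
 (c (a (nat_lit 0x13132d6788e8)) e
 (c (a (nat_lit 0x1af495ab68a8)) e
 (c (a (nat_lit 0x1dfdbb2fcd67)) e
 (c (a (nat_lit 0x5b0ce0d66c5)) e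
 (c (a (nat_lit 0x1b20a0a08062)) e
 (c (a (nat_lit 0x14181200001)) e
 (c (a (nat_lit 0x4000000001)) e e))))))))))))))
 (c (a (nat_lit 0x40202041))
 (c (a (nat_lit 0x363a3c44761))
 (c (a (nat_lit 0x3e869c7e451c7)) e e)
 (c (a (nat_lit 0x5686bc87d87)) e
 (c z e
 (c z e
 (c z e
 (c z e
 (c (a (nat_lit 0x19f44f066509)) e
 (c (a (nat_lit 0x10eca8c524e9)) e
 (c (a (nat_lit 0x106f6a27c588)) e
 (c (a (nat_lit 0x17cca840e005)) e
 (c (a (nat_lit 0xe26341a001)) e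
 (c (a (nat_lit 0x1c180000001)) e e))))))))))))
 (c (a (nat_lit 0x40404021))
 (c (a (nat_lit 0x7684d6d5108)) e
 (c z e
 (c z e
 (c z e
 (c z e
 (c z e
 (c z e
 (c (a (nat_lit 0x14e387e516a8)) e
 (c (a (nat_lit 0x28524249f27)) e
 (c (a (nat_lit 0xa1e2000001)) e
 (c (a (nat_lit 0xc000000001)) e e)))))))))))
 (c (a (nat_lit 0x1485))
 (c z e
 (c (a (nat_lit 0x1112706beee8)) e
 (c (a (nat_lit 0x1bfad1740e47)) e
 (c z e
 (c z e
 (c (a (nat_lit 0x1660a6943007)) e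
 (c (a (nat_lit 0x1673a88ceb47)) e
 (c (a (nat_lit 0xf0e12646006)) e
 (c (a (nat_lit 0x1ca060000003)) e e)))))))))
 (c (a (nat_lit 0x348b45))
 (c (a (nat_lit 0xb874a8699e7)) e
 (c (a (nat_lit 0x6eaa96fd7a8)) e
 (c z e
 (c z e
 (c (a (nat_lit 0x7f28d23e9c8)) e
 (c (a (nat_lit 0x1ee037844487)) e
 (c (a (nat_lit 0x51109400006)) e
 (c (a (nat_lit 0xe000000001)) e e))))))))
 (c (a (nat_lit 0x893ac8687))
 (c (a (nat_lit 0x82e2cb02cc8)) e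
 (c z e
 (c z e
 (c (a (nat_lit 0xfcc0a647e68)) e
 (c (a (nat_lit 0x4d665858008)) e e)))))
 (c z e
 (c (a (nat_lit 0x19c6a02005))
 (c (b (nat_lit 0x8d7c99fe0a8)) e
 (c (b (nat_lit 0xf7ff5086009)) e e))
 (c (a (nat_lit 0x5602c7686))
 (c (a (nat_lit 0x475a7c00009)) e e)
 (c (a (nat_lit 0x349485)) e
 (c (a (nat_lit 0x35353505)) e
 (c (a (nat_lit 0x604081)) e
 (c (a (nat_lit 0xc0e08081)) e
 (c (a (nat_lit 0x20604061)) e
 (c (a (nat_lit 0x2060a081)) e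
 (c (a (nat_lit 0x6020c1)) e
 (c (a (nat_lit 0x26e032e6)) e
 (c (a (nat_lit 0x9eaf5f4a6)) e e))))))))))))))))))
 (c (a (nat_lit 0x404041))
 (c (a (nat_lit 0x40202001))
 (c (a (nat_lit 0x20205c24))
 (c (a (nat_lit 0x112ee5e82b9b85)) e e)
 (c (a (nat_lit 0xaaaaeef1808)) e
 (c z e
 (c z e
 (c z e
 (c (a (nat_lit 0x11f0af4a0949)) e
 (c (a (nat_lit 0x184f8c0be727)) e
 (c (a (nat_lit 0x1548a4c3a627)) e
 (c (a (nat_lit 0xb08c2e150a7)) e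
 (c (a (nat_lit 0x6c221603107)) e
 (c (a (nat_lit 0x8121000001)) e
 (c (a (nat_lit 0x4000000001)) e e))))))))))))
 (c (a (nat_lit 0x20203485))
 (c z e
 (c z e
 (c z e
 (c z e
 (c z e
 (c (a (nat_lit 0x1a693a6d9227)) e
 (c (a (nat_lit 0x16cf692e3727)) e
 (c (a (nat_lit 0x4f380ff9d85)) e
 (c (a (nat_lit 0xce2c37ee004)) e
 (c (a (nat_lit 0x100000001)) e e))))))))))
 (c (a (nat_lit 0x148565))
 (c z e
 (c z e
 (c z e
 (c z e
 (c z e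
 (c z e
 (c z e
 (c (b (nat_lit 0x1fe0fce00004)) e
 (c (a (nat_lit 0x1e000000001)) e e)))))))))
 (c z e
 (c z e
 (c (a (nat_lit 0x11af4f6f68))
 (c (a (nat_lit 0x147cdd80c528)) e e)
 (c (a (nat_lit 0x3202e78a6))
 (c (b (nat_lit 0x19fffff30647)) e
 (c (a (nat_lit 0xe3089e00009)) e e))
 (c (a (nat_lit 0x2054b4a5))
 (c (a (nat_lit 0x13a620000009)) e e)
 (c (b (nat_lit 0x1ff0505046)) e
 (c (a (nat_lit 0xc20321)) e
 (c (a (nat_lit 0x40e0a101)) e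
 (c (a (nat_lit 0x406080a1)) e
 (c (a (nat_lit 0x80c080a1)) e
 (c (a (nat_lit 0x4082c1)) e
 (c (a (nat_lit 0x207dc4)) e
 (c (a (nat_lit 0x468083427)) e e))))))))))))))))
 C289)))
 C288)) Tr.c Tr.e (nat_lit 0) C.cx C.cy
noncomputable def C292 : Tr := beta% (fun (c : Nat → Tr → Tr → Tr) (e : Tr) (z : Nat) (a b : Nat → Nat) =>
 (c (nat_lit 1)
 (c (a (nat_lit 0xa34982945))
 (c (a (nat_lit 0x444ac6cf606)) e
 (c z e
 (c z e
 (c (a (nat_lit 0x1453ab6c6747)) e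
 (c (a (nat_lit 0x1feb094e1a47)) e
 (c (a (nat_lit 0x5e86490b4e8)) e
 (c z e
 (c (a (nat_lit 0x13b8c0000004)) e e))))))))
 (c z e
 (c (a (nat_lit 0x14a7802006))
 (c (a (nat_lit 0x1cb876cd0047)) e
 (c (a (nat_lit 0x94bc2427d68)) e e))
 (c (a (nat_lit 0xfa021b605))
 (c (a (nat_lit 0xcaa0dfd6a47)) e
 (c (a (nat_lit 0x10bc19ea2408)) e
 (c (a (nat_lit 0x12f2c6200009)) e e)))
 (c (a (nat_lit 0x34b485))
 (c (a (nat_lit 0x14eb05016008)) e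
 (c (a (nat_lit 0x140620000009)) e e))
 (c (a (nat_lit 0x32f2f2c6))
 (c (a (nat_lit 0x13c000000007)) e e)
 (c z e
 (c (a (nat_lit 0xc120e001)) e
 (c (a (nat_lit 0x101006001)) e
 (c (a (nat_lit 0x1a39f9b8a3)) e
 (c (b (nat_lit 0x135a6f3fe5)) e
 (c (a (nat_lit 0x1fba301b26)) e
 (c z e
 (c (b (nat_lit 0x1ff616dd84)) e
 (c (a (nat_lit 0x2473f8001)) e
 (c (a (nat_lit 0x20000001)) e e))))))))))))))))
 (c (a (nat_lit 0x202021))
 (c (a (nat_lit 0x1507402025))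
 (c (a (nat_lit 0xf75fc3028e5)) e
 (c (a (nat_lit 0xbb24e6703c7)) e
 (c (b (nat_lit 0x1110dfe40107)) e
 (c (b (nat_lit 0xb8ef67fe0e7)) e
 (c (a (nat_lit 0x50fff6b8007)) e e)))))
 (c (a (nat_lit 0xd20203485))
 (c (a (nat_lit 0x1a122dac2bc6)) e
 (c (a (nat_lit 0x1d9372af2707)) e
 (c (a (nat_lit 0xc7f634301c8)) e
 (c (a (nat_lit 0x59f66800008)) e e))))
 (c (a (nat_lit 0x20572e64))
 (c (a (nat_lit 0x130b38a623a6)) e
 (c (a (nat_lit 0x192b43616008)) e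
 (c (a (nat_lit 0x1a0680000008)) e e)))
 (c (a (nat_lit 0x52520043))
 (c (a (nat_lit 0x111102800005)) e
 (c (a (nat_lit 0x19c000000006)) e e))
 (c (a (nat_lit 0xc181a001)) e
 (c (a (nat_lit 0x1e1816001)) e
 (c (a (nat_lit 0x14201a2a1)) e
 (c (a (nat_lit 0x1e241c081)) e
 (c (b (nat_lit 0xe9546ffe5)) e
 (c (a (nat_lit 0xeacc47745)) e
 (c z e
 (c (b (nat_lit 0x1fe42121c1)) e
 (c (a (nat_lit 0x2100a021)) e
 (c (a (nat_lit 0x100c00001)) e e))))))))))))))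
 (c (a (nat_lit 0x202021))
 (c (a (nat_lit 0x407465c4))
 (c (a (nat_lit 0x17f6d5146624)) e
 (c (a (nat_lit 0x1df7796b65c5)) e
 (c (a (nat_lit 0x14e161c12008)) e
 (c (a (nat_lit 0x11c680000007)) e e))))
 (c (a (nat_lit 0x2b2b0001))
 (c (a (nat_lit 0x1b1b03452004)) e
 (c (a (nat_lit 0x1d3ae7600004)) e
 (c (a (nat_lit 0x180000000006)) e e)))
 (c (a (nat_lit 0x60f75682))
 (c (a (nat_lit 0x1080c0000003)) e e)
 (c (a (nat_lit 0x100c0e001)) e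
 (c (a (nat_lit 0x606001)) e
 (c (a (nat_lit 0x142221381)) e
 (c (b (nat_lit 0x7edebfe4)) e
 (c (b (nat_lit 0x5ff0a3)) e
 (c z e
 (c (b (nat_lit 0x1fe3424001)) e
 (c (a (nat_lit 0x1e2008001)) e
 (c (a (nat_lit 0x421c0e001)) e
 (c (a (nat_lit 0x60000001)) e e)))))))))))))
 (c (a (nat_lit 0x2021))
 (c (a (nat_lit 0x443452001))
 (c (a (nat_lit 0x11ea08a2c001)) e
 (c (a (nat_lit 0x144720000001)) e e))
 (c (a (nat_lit 0x28202c001))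
 (c (a (nat_lit 0x22000000001)) e e)
 (c (a (nat_lit 0x321c22001)) e
 (c (a (nat_lit 0x203c3d85)) e
 (c (a (nat_lit 0x373a5367)) e
 (c (a (nat_lit 0x1050a2f806)) e
 (c z e
 (c (b (nat_lit 0x1ff1513105)) e
 (c (a (nat_lit 0x725c100c1)) e
 (c (a (nat_lit 0xda100a021)) e
 (c (a (nat_lit 0x820e00001)) e e)))))))))))
 (c (nat_lit 1)
 (c (a (nat_lit 0x2120a0a1)) e
 (c (a (nat_lit 0x1e2011881)) e
 (c (a (nat_lit 0x3a3a93c7)) e
 (c z e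
 (c z e
 (c (b (nat_lit 0x1ff8183825)) e
 (c (a (nat_lit 0x15b6164fe4)) e
 (c (a (nat_lit 0xb81a04001)) e
 (c (a (nat_lit 0x1801402002)) e
 (c (a (nat_lit 0x880000001)) e e))))))))))
 (c (a (nat_lit 0x202021))
 (c (a (nat_lit 0xa5f5f7c07)) e
 (c z e
 (c z e
 (c (a (nat_lit 0x310d0a326)) e
 (c (a (nat_lit 0x1c5c7c5606)) e
 (c (a (nat_lit 0x1b60202025)) e
 (c (a (nat_lit 0x40e0a081)) e
 (c (a (nat_lit 0x320600001)) e e))))))))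
 (c (a (nat_lit 0x202021))
 (c z e
 (c (b (nat_lit 0x11ffac025)) e
 (c (a (nat_lit 0x1191b1a9a7)) e
 (c (a (nat_lit 0x206041)) e
 (c (a (nat_lit 0x40402001)) e
 (c (a (nat_lit 0xe060c001)) e
 (c (a (nat_lit 0xc0000001)) e e)))))))
 (c (a (nat_lit 0x202021))
 (c (a (nat_lit 0x1ababad5c6)) e
 (c (a (nat_lit 0xa0602001)) e
 (c (a (nat_lit 0x20604021)) e
 (c (a (nat_lit 0x1680204023)) e
 (c (a (nat_lit 0x320e00001)) e e)))))
 (c (a (nat_lit 0x202021))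
 (c (a (nat_lit 0x20202021)) e
 (c (a (nat_lit 0x20202021)) e
 (c (a (nat_lit 0x20202001)) e
 (c (a (nat_lit 0x20000001)) e e))))
 (c (a (nat_lit 0x202021))
 (c (a (nat_lit 0x20202021)) e
 (c (a (nat_lit 0x20200001)) e e))
 (c (a (nat_lit 0x202021))
 (c (a (nat_lit 0x20000001)) e e)
 (c (a (nat_lit 0x202021)) e
 (c (a (nat_lit 0x202021)) e
 (c (a (nat_lit 0x200001)) e
 (c (a (nat_lit 0x200001)) e
 (c (a (nat_lit 0x32c6)) e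
 (c (a (nat_lit 0x12a5e6)) e
 (c z e
 (c (a (nat_lit 0x17802004)) e
 (c (a (nat_lit 0x806001)) e
 (c (a (nat_lit 0x1400001)) e
 (c (a (nat_lit 0x602001)) e
 (c (a (nat_lit 0x602001)) e e)))))))))))))))))))))))) Tr.c Tr.e (nat_lit 0) C.cx C.cy
noncomputable def C293 : Tr := beta% (fun (c : Nat → Tr → Tr → Tr) (e : Tr) (z : Nat) (a b : Nat → Nat) =>
 (c (a (nat_lit 0x202021))
 (c (a (nat_lit 0x20202021))
 (c (a (nat_lit 0x4040402021))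
 (c (a (nat_lit 0x1e10101011166)) e
 (c (a (nat_lit 0x404040367227)) e
 (c (a (nat_lit 0x202059b8b4a7)) e
 (c (a (nat_lit 0x2817bac80a047)) e
 (c (a (nat_lit 0xa7a52e90cf7c7)) e e)))))
 (c (a (nat_lit 0xb4bc0c02001))
 (c (a (nat_lit 0x4040581429e7)) e
 (c (a (nat_lit 0x4a65f9fd46248)) e e))
 (c (a (nat_lit 0x2060204b81))
 (c (a (nat_lit 0x9eeff736581c8)) e e)
 (c (a (nat_lit 0x3e3e9a6bce5)) e
 (c (a (nat_lit 0x7684dd5b4a7))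
 (c (b (nat_lit 0x1ff07de5c00007)) e
 (c (a (nat_lit 0x18390000000008)) e e))
 (c (a (nat_lit 0xe31f6d73988))
 (c (a (nat_lit 0x1d800000000007)) e e)
 (c z e
 (c z e
 (c z e
 (c (a (nat_lit 0xc300d6963c9)) e
 (c (a (nat_lit 0x16ee760fcde8)) e
 (c (a (nat_lit 0x1a1ba0e0a042)) e
 (c (a (nat_lit 0x1b80a0802002)) e
 (c (a (nat_lit 0x180c0000001)) e e))))))))))))))
 (c (a (nat_lit 0x60606061))
 (c (a (nat_lit 0xe100404381))
 (c (a (nat_lit 0x3e3ee30e38047)) e e)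
 (c (a (nat_lit 0x23064377a7)) e
 (c z e
 (c z e
 (c z e
 (c z e
 (c z e
 (c z e
 (c z e
 (c (a (nat_lit 0xb8c33ccecc8)) e
 (c (a (nat_lit 0x42383426101)) e
 (c (a (nat_lit 0x2c2c1600001)) e
 (c (a (nat_lit 0x1a000000001)) e e)))))))))))))
 (c (a (nat_lit 0x20202021))
 (c (a (nat_lit 0xed1f7569b27)) e
 (c z e
 (c z e
 (c z e
 (c z e
 (c z e
 (c z e
 (c z e
 (c (a (nat_lit 0x12ccae4b89c8)) e
 (c (a (nat_lit 0x17571720c002)) e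
 (c (a (nat_lit 0x1e0c0000001)) e e)))))))))))
 (c (a (nat_lit 0x40406061))
 (c z e
 (c z e
 (c z e
 (c z e
 (c z e
 (c z e
 (c z e
 (c (a (nat_lit 0x168a8f6bb628)) e
 (c (a (nat_lit 0x1d2dc0400005)) e
 (c (a (nat_lit 0x1b2000000004)) e e))))))))))
 (c (a (nat_lit 0x20203485))
 (c (a (nat_lit 0x171ab9004566)) e
 (c (a (nat_lit 0x1a3c2525f407)) e
 (c z e
 (c z e
 (c z e
 (c (a (nat_lit 0x670ac0fc1c8)) e
 (c (a (nat_lit 0x10886d89a008)) e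
 (c (a (nat_lit 0x1a6040000005)) e e))))))))
 (c (a (nat_lit 0x203b6527))
 (c (a (nat_lit 0xdc9ab8c71a8)) e
 (c (a (nat_lit 0x6ac8a30f708)) e
 (c z e
 (c z e
 (c z e
 (c (b (nat_lit 0x1fe8fa400007)) e
 (c (a (nat_lit 0x164000000005)) e e)))))))
 (c (a (nat_lit 0x251638068))
 (c (b (nat_lit 0x3ffff7b847)) e e)
 (c z e
 (c (a (nat_lit 0x1167402026))
 (c (b (nat_lit 0x1fee33e60009)) e e)
 (c (a (nat_lit 0x3202dd2e7)) e
 (c (a (nat_lit 0x2030b0a7)) e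
 (c (a (nat_lit 0xa0e0e001)) e
 (c (a (nat_lit 0x80606001)) e
 (c (a (nat_lit 0xe0804001)) e
 (c (a (nat_lit 0x80602001)) e
 (c (a (nat_lit 0xe0404161)) e
 (c (a (nat_lit 0x202053a4)) e e)))))))))))))))))
 (c (a (nat_lit 0x202021))
 (c (a (nat_lit 0x20202021))
 (c (a (nat_lit 0x2020203446))
 (c (a (nat_lit 0x9107ba4a68605)) e e)
 (c z e
 (c z e
 (c z e
 (c z e
 (c z e
 (c (a (nat_lit 0xeb48cc40308)) e
 (c (a (nat_lit 0x13ecabc44328)) e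
 (c (a (nat_lit 0x15f60e49ecc7)) e
 (c (a (nat_lit 0x1a12aaa8e1a6)) e
 (c (a (nat_lit 0x100020202005)) e
 (c (a (nat_lit 0xe0a0000001)) e e))))))))))))
 (c (a (nat_lit 0x40404041))
 (c z e
 (c (a (nat_lit 0xaaa8cea1129))
 (c (a (nat_lit 0xf72d428e00009)) e e)
 (c z e
 (c z e
 (c z e
 (c (a (nat_lit 0x128b8f850028)) e
 (c (a (nat_lit 0x133187c54a28)) e
 (c z e
 (c (a (nat_lit 0x112ae9a53b27)) e
 (c (a (nat_lit 0x16d6d6800002)) e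
 (c (a (nat_lit 0x4000000001)) e e)))))))))))
 (c (a (nat_lit 0x20203485))
 (c (a (nat_lit 0xaebe8d61c87))
 (c (a (nat_lit 0x13ae24a0000006)) e e)
 (c z e
 (c z e
 (c z e
 (c (a (nat_lit 0x15b7dbabebe8)) e
 (c (a (nat_lit 0x1af78f5b6727)) e
 (c z e
 (c (a (nat_lit 0x86ac7d06007)) e
 (c (a (nat_lit 0x1ae0e0000003)) e e)))))))))
 (c (a (nat_lit 0x14b025)) e
 (c z e
 (c z e
 (c (a (nat_lit 0x1da5c02005))
 (c (b (nat_lit 0x90f5affe088)) e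
 (c (b (nat_lit 0x4f11fe3a00a)) e e))
 (c (a (nat_lit 0x4e02d1746))
 (c (a (nat_lit 0x198ea6e00009)) e e)
 (c (a (nat_lit 0x2054b4a5)) e
 (c (b (nat_lit 0x1ff5555485)) e
 (c (a (nat_lit 0xc0c06001)) e
 (c (a (nat_lit 0x60a02001)) e
 (c (a (nat_lit 0xc0a02001)) e
 (c (a (nat_lit 0x160c02241)) e
 (c (a (nat_lit 0x20203107)) e
 (c (a (nat_lit 0x31b41d06)) e
 (c z e
 (c (a (nat_lit 0x11fb002006)) e
 (c (a (nat_lit 0x1b00000006)) e e)))))))))))))))))))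
 (c (a (nat_lit 0x202021))
 (c (a (nat_lit 0x20203484))
 (c (a (nat_lit 0xbc9ab8b7187))
 (c (a (nat_lit 0xa6e12f7f58aa6)) e
 (c (a (nat_lit 0x687914a000007)) e e))
 (c (a (nat_lit 0x2a70a927847))
 (c (b (nat_lit 0x1ff46be0000006)) e e)
 (c z e
 (c z e
 (c (a (nat_lit 0xd1737408047)) e
 (c (a (nat_lit 0x1179afce24c6)) e
 (c (b (nat_lit 0x18e324807fe7)) e
 (c z e
 (c (a (nat_lit 0x1ba303928005)) e
 (c (a (nat_lit 0x163620000002)) e e))))))))))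
 (c (a (nat_lit 0x2034a7e5))
 (c (a (nat_lit 0x7884df536a7))
 (c (a (nat_lit 0x11aa6000000005)) e e)
 (c z e
 (c z e
 (c (a (nat_lit 0x1678ee496ae8)) e
 (c (a (nat_lit 0x1bbc30c72ea7)) e
 (c (a (nat_lit 0x9c9b0c4d7a8)) e e))))))
 (c (a (nat_lit 0x511882027)) e
 (c z e
 (c (a (nat_lit 0x1769404025))
 (c (a (nat_lit 0xf18d3c3adc7)) e
 (c z e
 (c (a (nat_lit 0x66b91a3c009)) e e)))
 (c (a (nat_lit 0x5e02e3846))
 (c (a (nat_lit 0x105756310627)) e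
 (c (a (nat_lit 0x10d0c9800009)) e e))
 (c (a (nat_lit 0x20349485))
 (c (a (nat_lit 0x1205e0000009)) e e)
 (c z e
 (c (a (nat_lit 0xe20827e1)) e
 (c (a (nat_lit 0x1616004002)) e
 (c (a (nat_lit 0x60a0a001)) e
 (c (a (nat_lit 0xc0807281)) e
 (c (b (nat_lit 0x39c05fe4)) e
 (c (b (nat_lit 0x12f81ff726)) e
 (c z e
 (c (b (nat_lit 0x1ff210a025)) e
 (c (a (nat_lit 0x1148600006)) e e)))))))))))))))))
 C292)))) Tr.c Tr.e (nat_lit 0) C.cx C.cy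
noncomputable def C294 : Tr := beta% (fun (c : Nat → Tr → Tr → Tr) (e : Tr) (z : Nat) (a b : Nat → Nat) =>
 (c (a (nat_lit 0x20202021))
 (c (a (nat_lit 0x16d8789b8ac5))
 (c (a (nat_lit 0x1800a0c06d6d84))
 (c z e
 (c (a (nat_lit 0x98bed11503e1f27)) e
 (c (a (nat_lit 0xfeb4c8e1468e007)) e e)))
 (c (a (nat_lit 0xd7886c5b7b786))
 (c (a (nat_lit 0x7292aaed37b6ba8)) e
 (c (a (nat_lit 0x8cc749a8ca00008)) e
 (c (a (nat_lit 0x7eb3b6000000007)) e e)))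
 (c (a (nat_lit 0x1969204092b286))
 (c (a (nat_lit 0x14cb0580a0000007)) e e)
 (c (a (nat_lit 0x262020299927)) e
 (c (a (nat_lit 0x363a2e02b7887)) e
 (c (a (nat_lit 0x565002c8db107)) e
 (c (a (nat_lit 0x4a4c9cebf1027)) e
 (c (a (nat_lit 0x32cd1ef434c07)) e e))))))))
 (c (a (nat_lit 0x8b043230027))
 (c (a (nat_lit 0xd525271f1f1c7))
 (c (a (nat_lit 0x709da7bdca92007)) e
 (c (b (nat_lit 0x1fe8d08800000009)) e
 (c (a (nat_lit 0x57a00000000007)) e e)))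
 (c (a (nat_lit 0x365c5c58590e9))
 (c (a (nat_lit 0x357e72000000008)) e e)
 (c (a (nat_lit 0x464e4e4f07889)) e
 (c (a (nat_lit 0x261c1492a5369)) e
 (c (a (nat_lit 0x4e0ce9413efe8)) e e)))))
 (c (a (nat_lit 0x1e2080808044))
 (c (a (nat_lit 0x16160802b7168))
 (c (a (nat_lit 0xb7c00000000003)) e e)
 (c (a (nat_lit 0x2c04039bc4fc8)) e
 (c (a (nat_lit 0x22151b2d05b88)) e e)))
 (c (a (nat_lit 0xa0a0a0a1))
 (c (a (nat_lit 0x340b89d654047)) e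
 (c z e
 (c z e
 (c z e
 (c (a (nat_lit 0xa63f24ea00009)) e e)))))
 (c (a (nat_lit 0x1a0e080e1))
 (c z e
 (c z e
 (c (a (nat_lit 0x1cd9d32fcb4008)) e
 (c (a (nat_lit 0x17482a40000007)) e e))))
 (c (a (nat_lit 0xa0e162e1))
 (c (a (nat_lit 0x6f08c260161c7)) e
 (c (a (nat_lit 0xe567701600007)) e
 (c (a (nat_lit 0x162ee000000006)) e e)))
 (c (a (nat_lit 0x22023447))
 (c (a (nat_lit 0x1d3c25c0000006)) e
 (c (a (nat_lit 0x1a800000000006)) e e))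
 (c (a (nat_lit 0x1640bf3ee08)) e
 (c z e
 (c z e
 (c (a (nat_lit 0x14b778746cc8)) e
 (c (a (nat_lit 0x1d98b8cf8447)) e
 (c (a (nat_lit 0x607a7a84)) e
 (c (a (nat_lit 0x180020202025)) e
 (c (a (nat_lit 0x2101a0c001)) e
 (c (a (nat_lit 0x6080000001)) e e))))))))))))))))
 (c (nat_lit 1)
 (c (a (nat_lit 0x1ca080806065))
 (c (a (nat_lit 0x24280e0203406))
 (c (a (nat_lit 0x330a343a1e00005)) e
 (c (a (nat_lit 0x11f6014000000006)) e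
 (c (a (nat_lit 0x1360000000000005)) e e)))
 (c (a (nat_lit 0xa040402f3ee8))
 (c (a (nat_lit 0x1f64800000000007)) e e)
 (c (a (nat_lit 0x20202107b469)) e
 (c (a (nat_lit 0x52406d9380a28)) e
 (c (a (nat_lit 0x79992c40528)) e e)))))
 (c (a (nat_lit 0x1412121a1))
 (c (a (nat_lit 0x2808084ae7548))
 (c (a (nat_lit 0x1980000000000005)) e e)
 (c (a (nat_lit 0x21aa197961e8)) e e))
 (c (a (nat_lit 0x41a0c1a1e1))
 (c (b (nat_lit 0x4df75a5fffe8)) e e)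
 (c (a (nat_lit 0xc0a1a0e1)) e
 (c (a (nat_lit 0x46486265c27))
 (c (a (nat_lit 0x6cd738661e007)) e
 (c (a (nat_lit 0x151f4e0000008)) e e))
 (c (a (nat_lit 0x2a4aa943088))
 (c (a (nat_lit 0x130ec000000008)) e e)
 (c z e
 (c z e
 (c z e
 (c (a (nat_lit 0xf4f702a65ea)) e
 (c (a (nat_lit 0x104e6e0789a9)) e
 (c (a (nat_lit 0x122020323207)) e
 (c (a (nat_lit 0x261a1a0e001)) e
 (c (a (nat_lit 0x2c180600001)) e
 (c (a (nat_lit 0x8000000001)) e e)))))))))))))))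
 (c (a (nat_lit 0x40404041))
 (c (a (nat_lit 0x1919a06080a2))
 (c (a (nat_lit 0x2e34b3c2f8085)) e e)
 (c (a (nat_lit 0xe10199a1)) e
 (c z e
 (c z e
 (c z e
 (c z e
 (c z e
 (c z e
 (c z e
 (c (a (nat_lit 0x108bc9a5e6a9)) e
 (c (a (nat_lit 0x8e020325247)) e
 (c (a (nat_lit 0x10122c20001)) e
 (c (a (nat_lit 0x8100000001)) e e)))))))))))))
 (c (a (nat_lit 0x40404041))
 (c (a (nat_lit 0x2ce170a5)) e
 (c z e
 (c z e
 (c z e
 (c (a (nat_lit 0xe901541ec29)) e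
 (c z e
 (c z e
 (c z e
 (c (a (nat_lit 0x128f6b208589)) e
 (c (a (nat_lit 0x1180c0f31307)) e
 (c (a (nat_lit 0x162000001)) e
 (c (a (nat_lit 0x4000000001)) e e))))))))))))
 (c (a (nat_lit 0x40606041))
 (c z e
 (c z e
 (c (a (nat_lit 0xe59f8d56027)) e
 (c (a (nat_lit 0x8aab2868bc7)) e
 (c z e
 (c z e
 (c z e
 (c (a (nat_lit 0x14f90d202268)) e
 (c (a (nat_lit 0x1e4f80292006)) e
 (c (a (nat_lit 0x198020000004)) e e))))))))))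
 (c (a (nat_lit 0x40606041))
 (c (a (nat_lit 0x352d70daf05)) e
 (c (a (nat_lit 0xc3009cc4345)) e
 (c (a (nat_lit 0xc2bf0b02547)) e
 (c z e
 (c z e
 (c (a (nat_lit 0x70ccb40b088)) e
 (c (a (nat_lit 0x1251e2802de8)) e
 (c (a (nat_lit 0x166060200006)) e
 (c (a (nat_lit 0x5e000000001)) e e)))))))))
 (c (a (nat_lit 0x20203b67))
 (c (a (nat_lit 0x1e74ef1d2884)) e
 (c (a (nat_lit 0xf6f5d971027)) e
 (c z e
 (c z e
 (c (a (nat_lit 0x127716dfa028)) e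
 (c (a (nat_lit 0x1d2d40690007)) e
 (c (a (nat_lit 0x1ae060000003)) e e)))))))
 (c (a (nat_lit 0x2030c588))
 (c (a (nat_lit 0x4c272adf687)) e
 (c (a (nat_lit 0x7af341c3d68)) e
 (c z e
 (c z e
 (c (a (nat_lit 0xaeb9c000007)) e
 (c (a (nat_lit 0x1c000000001)) e e))))))
 (c (a (nat_lit 0xa91300d28))
 (c (a (nat_lit 0x29689116a8)) e e)
 (c z e
 (c (a (nat_lit 0x176f2b6b66)) e
 (c (a (nat_lit 0xda02036c4)) e
 (c (a (nat_lit 0x1b9b804045)) e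
 (c (a (nat_lit 0x1fa0202044)) e
 (c (a (nat_lit 0x8040c0a1)) e
 (c (a (nat_lit 0x80e101)) e
 (c (a (nat_lit 0x2060a1)) e
 (c (a (nat_lit 0x804261)) e
 (c (a (nat_lit 0x20203646)) e
 (c (a (nat_lit 0x362f26)) e e))))))))))))))))))))) Tr.c Tr.e (nat_lit 0) C.cx C.cy
noncomputable def C295 : Tr := beta% (fun (c : Nat → Tr → Tr → Tr) (e : Tr) (z : Nat) (a b : Nat → Nat) =>
 (c (a (nat_lit 0x20202021))
 (c (a (nat_lit 0x1a39fb1b1b46))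
 (c (a (nat_lit 0x3f02040404d65))
 (c (a (nat_lit 0x1ae5cdd3f6567286)) e
 (c (a (nat_lit 0x88a4b2cce6e19c9)) e
 (c (a (nat_lit 0x907c92a4ab187a9)) e
 (c (a (nat_lit 0x11e9e7e80a000009)) e e))))
 (c (a (nat_lit 0xbae4920237b67))
 (c (a (nat_lit 0x7c5e74968cc710a)) e
 (c (a (nat_lit 0x8c7c6cc52a9e00a)) e
 (c (a (nat_lit 0x168a2b33e0000009)) e e)))
 (c (a (nat_lit 0x67cab25c1d9e7))
 (c (a (nat_lit 0x1578cdd629000008)) e e)
 (c (a (nat_lit 0x314be2003aa7)) e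
 (c (a (nat_lit 0xa6ea06c49067)) e
 (c (a (nat_lit 0x4827e1cd5d47)) e
 (c (a (nat_lit 0x122c2c4025149)) e
 (c (a (nat_lit 0x2ea735237a007)) e e))))))))
 (c (a (nat_lit 0x1232d2d40a07))
 (c (a (nat_lit 0x9d220825fde07))
 (c (a (nat_lit 0x7cb2768c59dc948)) e
 (c (b (nat_lit 0x17fee11a9400009)) e
 (c (b (nat_lit 0x1fe3b46000000008)) e e)))
 (c (a (nat_lit 0x88967a7cf5409))
 (c (a (nat_lit 0x23932920000009)) e e)
 (c (a (nat_lit 0x3c702424fd8c9)) e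
 (c (a (nat_lit 0x24e3254c1369)) e
 (c (a (nat_lit 0x24446f731449)) e e)))))
 (c (a (nat_lit 0x10706c0c0a88))
 (c (a (nat_lit 0x3896968cbb009))
 (c (a (nat_lit 0x11d7aa000000006)) e e)
 (c (a (nat_lit 0x72ae9af787e09)) e e))
 (c (a (nat_lit 0x176040402025))
 (c (a (nat_lit 0x9292dd759c3e8)) e e)
 (c (a (nat_lit 0x40e14100e1))
 (c z e
 (c z e
 (c (a (nat_lit 0xa11c50545a609)) e
 (c (a (nat_lit 0x261ed4c00006)) e e))))
 (c (a (nat_lit 0x12120c261))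
 (c (a (nat_lit 0x169398ae2946e7)) e
 (c (a (nat_lit 0x14a08624202009)) e
 (c (a (nat_lit 0x510c720000008)) e e)))
 (c (a (nat_lit 0x2060fde3))
 (c (b (nat_lit 0x1fe51161c00007)) e
 (c (a (nat_lit 0x13740000000007)) e e))
 (c (a (nat_lit 0x2e0ff9c7))
 (c (a (nat_lit 0x19c00000000005)) e e)
 (c z e
 (c z e
 (c z e
 (c (a (nat_lit 0x13dc5a37d147)) e
 (c (a (nat_lit 0x10c060604084)) e
 (c (a (nat_lit 0xe14181e1)) e
 (c (a (nat_lit 0xc060e141)) e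
 (c (a (nat_lit 0xa0400001)) e
 (c (nat_lit 1) e e)))))))))))))))))
 (c (a (nat_lit 0x20202021))
 (c (a (nat_lit 0x1462626244))
 (c (a (nat_lit 0x122d0d0c2c3726))
 (c (a (nat_lit 0x16f56bb252066006)) e
 (c (a (nat_lit 0xaee176900000007)) e
 (c (a (nat_lit 0x8b8200000000006)) e e)))
 (c (a (nat_lit 0x1c6a666177407))
 (c (a (nat_lit 0x79005a000000007)) e e)
 (c (a (nat_lit 0x4c363632150a8)) e
 (c (a (nat_lit 0x200224031b2c8)) e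
 (c (b (nat_lit 0x25a3579fffe8)) e e)))))
 (c (a (nat_lit 0x182080802003))
 (c (a (nat_lit 0x3e40027205d66))
 (c (a (nat_lit 0xd1c00000000005)) e e)
 (c (a (nat_lit 0x2a14ae7b4b628)) e e))
 (c (a (nat_lit 0xd919808001))
 (c (a (nat_lit 0x42bea92388808)) e e)
 (c (a (nat_lit 0x4080a08021)) e
 (c (a (nat_lit 0x81812481)) e
 (c (a (nat_lit 0x27c83446))
 (c (a (nat_lit 0x75c7260000007)) e
 (c (a (nat_lit 0x17c00000000006)) e e))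
 (c (a (nat_lit 0x610b85e1167)) e
 (c z e
 (c z e
 (c z e
 (c (a (nat_lit 0xbac504a47a9)) e
 (c (a (nat_lit 0x1090c0202c07)) e
 (c (a (nat_lit 0x10c0202c0b67)) e
 (c (a (nat_lit 0xa0a1414001)) e
 (c (a (nat_lit 0x60000001)) e e)))))))))))))))
 (c (a (nat_lit 0x20202021))
 (c (a (nat_lit 0x60802001))
 (c (a (nat_lit 0xdc6163196aba5)) e e)
 (c (a (nat_lit 0x1030a0606082))
 (c z e
 (c (a (nat_lit 0x1031288c8b85a8)) e e))
 (c (a (nat_lit 0xc101a1e3a1))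
 (c (a (nat_lit 0xe4249f4c82027)) e e)
 (c (b (nat_lit 0x2021fff567)) e
 (c z e
 (c z e
 (c (a (nat_lit 0x12f498a80de8)) e
 (c (a (nat_lit 0xd912d900ae9)) e
 (c z e
 (c (a (nat_lit 0xcd3cd0bc748)) e
 (c (a (nat_lit 0x110260202c07)) e
 (c (a (nat_lit 0x4a0203811c6)) e
 (c (a (nat_lit 0x8121600001)) e
 (c (a (nat_lit 0x2000000001)) e e))))))))))))))
 (c (a (nat_lit 0x20202021))
 (c (a (nat_lit 0x1777777778a5))
 (c (a (nat_lit 0x1d7d3788ecebc6)) e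
 (c (a (nat_lit 0x19164a87ae61a7)) e e))
 (c (a (nat_lit 0x14f4ff162d26))
 (c (b (nat_lit 0x116ec78f7fe7e7)) e e)
 (c z e
 (c z e
 (c (a (nat_lit 0x108dd00ae588)) e
 (c (a (nat_lit 0xcd19cf27807)) e
 (c (a (nat_lit 0xb514c0daba8)) e
 (c z e
 (c (a (nat_lit 0xd8f316b6008)) e
 (c (a (nat_lit 0x72ba0e07087)) e
 (c (a (nat_lit 0x15c040d8a006)) e
 (c (a (nat_lit 0x4080000001)) e e))))))))))))
 (c (a (nat_lit 0x2001))
 (c (a (nat_lit 0xf368b6bcd65))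
 (c (a (nat_lit 0x16a4628265c6e4)) e e)
 (c z e
 (c (a (nat_lit 0x17dbbba22884)) e
 (c (a (nat_lit 0x26624c67266)) e
 (c (a (nat_lit 0x725c6e6d426)) e
 (c (a (nat_lit 0xd58593cb967)) e
 (c z e
 (c (a (nat_lit 0xed079c94007)) e
 (c (b (nat_lit 0x1ff100602026)) e
 (c (a (nat_lit 0x112060200006)) e
 (c (a (nat_lit 0xa2000000001)) e e)))))))))))
 (c (a (nat_lit 0x202021))
 (c (a (nat_lit 0x144cc363a3)) e
 (c (a (nat_lit 0x1fd2e0c087e3)) e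
 (c (a (nat_lit 0x116cecc39f85)) e
 (c (a (nat_lit 0x5a62191cdc6)) e
 (c (a (nat_lit 0xa0a93589027)) e
 (c z e
 (c (a (nat_lit 0x173a5844a047)) e
 (c (b (nat_lit 0x1ffbc1616002)) e
 (c (a (nat_lit 0x1ae040000002)) e e)))))))))
 (c (a (nat_lit 0x2001))
 (c (a (nat_lit 0x134a296936e3)) e
 (c (a (nat_lit 0x104fa183a005)) e
 (c (a (nat_lit 0x180230ff826)) e
 (c (a (nat_lit 0x3c4a5d36b27)) e
 (c z e
 (c (a (nat_lit 0x1277aa8027e7)) e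
 (c (a (nat_lit 0x118040200005)) e
 (c (a (nat_lit 0x16000000001)) e e))))))))
 (c (a (nat_lit 0x20203805))
 (c (a (nat_lit 0x3c3a321b386)) e
 (c (a (nat_lit 0x24126f2b167)) e
 (c (b (nat_lit 0x2c21752dfe7)) e
 (c z e
 (c (a (nat_lit 0xcb1c6406006)) e
 (c (a (nat_lit 0x1b4080000004)) e e))))))
 (c (a (nat_lit 0x2038f8a5))
 (c (a (nat_lit 0x4030f31e06)) e
 (c (a (nat_lit 0x528c4f708)) e e))
 (c (a (nat_lit 0x711510b07))
 (c (a (nat_lit 0x70cc77031c8)) e e)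
 (c z e
 (c (a (nat_lit 0x15d04e8e86)) e
 (c (a (nat_lit 0x18b7777605)) e
 (c (a (nat_lit 0x1313004384)) e
 (c (a (nat_lit 0x1ea0404023)) e
 (c (a (nat_lit 0xe020c041)) e
 (c (a (nat_lit 0x40806021)) e
 (c (a (nat_lit 0x20202021)) e
 (c (a (nat_lit 0x4062e1)) e
 (c (b (nat_lit 0x82ffe1)) e
 (c (b (nat_lit 0x12535fe7a3)) e e)))))))))))))))))))))) Tr.c Tr.e (nat_lit 0) C.cx C.cy
noncomputable def C296 : Tr := beta% (fun (c : Nat → Tr → Tr → Tr) (e : Tr) (z : Nat) (a b : Nat → Nat) =>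
 (c (a (nat_lit 0x202021))
 (c (a (nat_lit 0x14b164))
 (c (a (nat_lit 0x1e1c18b98e5)) e
 (c (a (nat_lit 0x3c4e871d447)) e
 (c z e
 (c (a (nat_lit 0x1cbcb3a92c47)) e
 (c (a (nat_lit 0x155846e28867)) e
 (c (a (nat_lit 0x362468192c8)) e
 (c z e
 (c (b (nat_lit 0x1ff942200003)) e
 (c (a (nat_lit 0x12e000000003)) e e)))))))))
 (c (a (nat_lit 0xd377849c6))
 (c (a (nat_lit 0x7a89195f347)) e
 (c z e
 (c z e
 (c (a (nat_lit 0x198b29aa1aa8)) e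
 (c (a (nat_lit 0xaaa64737d49)) e e)))))
 (c z e
 (c (a (nat_lit 0x1f49002025))
 (c z e
 (c (a (nat_lit 0xa93fd366568)) e
 (c (a (nat_lit 0xbf4dc83c009)) e e)))
 (c (a (nat_lit 0xb6021b605))
 (c (a (nat_lit 0x7956b054188)) e
 (c (a (nat_lit 0x1bba26e00009)) e e))
 (c (a (nat_lit 0x2034b4a5))
 (c (a (nat_lit 0x160420000009)) e e)
 (c z e
 (c (a (nat_lit 0x3a2c28001)) e
 (c (a (nat_lit 0x1272004003)) e
 (c (a (nat_lit 0x60403463)) e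
 (c (b (nat_lit 0xbb030ffe5)) e
 (c (a (nat_lit 0x133389efa6)) e
 (c z e
 (c (b (nat_lit 0x1fe0626001)) e
 (c (a (nat_lit 0x3c2806021)) e
 (c (a (nat_lit 0x3e0800001)) e e))))))))))))))))
 (c (nat_lit 1)
 (c (a (nat_lit 0xe70080626))
 (c (a (nat_lit 0x84d91b3b3a6)) e
 (c z e
 (c z e
 (c (a (nat_lit 0xe30abfb17c7)) e
 (c (a (nat_lit 0x502e990c449)) e e)))))
 (c (a (nat_lit 0x1ce6602005))
 (c (a (nat_lit 0x14f79cade027)) e
 (c (a (nat_lit 0xd586d00c2e8)) e e))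
 (c (a (nat_lit 0x70020b505))
 (c (a (nat_lit 0x1995a6f8ed67)) e
 (c (a (nat_lit 0x9548ac66169)) e
 (c (a (nat_lit 0x183aa6a00009)) e e)))
 (c (a (nat_lit 0x783704))
 (c (a (nat_lit 0x16c906c10008)) e
 (c (a (nat_lit 0x198660000009)) e e))
 (c (a (nat_lit 0x30303007))
 (c (a (nat_lit 0x1c4000000006)) e e)
 (c z e
 (c (a (nat_lit 0x666610001)) e
 (c (a (nat_lit 0x1a120b041)) e
 (c (a (nat_lit 0x147675eea6)) e
 (c (a (nat_lit 0xf0e875186)) e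
 (c z e
 (c (b (nat_lit 0x1fe1013de2)) e
 (c (a (nat_lit 0x121016001)) e
 (c (a (nat_lit 0x420204001)) e
 (c (a (nat_lit 0x1c0000001)) e e)))))))))))))))
 (c (nat_lit 1)
 (c (a (nat_lit 0x520203484))
 (c (a (nat_lit 0x143b92ca6a45)) e
 (c (a (nat_lit 0x148e6bcb25e7)) e
 (c (a (nat_lit 0x71ae9a160c8)) e
 (c (a (nat_lit 0xa1782600008)) e e))))
 (c (a (nat_lit 0x20348cc5))
 (c (a (nat_lit 0x1c8f790b0686)) e
 (c (a (nat_lit 0x11e241c10009)) e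
 (c (a (nat_lit 0x1f84c0000008)) e e)))
 (c (a (nat_lit 0x12120023))
 (c (a (nat_lit 0x1edc45e00004)) e e)
 (c (a (nat_lit 0x948274221)) e
 (c (a (nat_lit 0xd2c810021)) e
 (c (a (nat_lit 0x606051e3)) e
 (c (a (nat_lit 0x101895a7c5)) e
 (c (a (nat_lit 0x1212e9d046)) e
 (c z e
 (c (b (nat_lit 0x1fe303e1e1)) e
 (c (a (nat_lit 0x101c04141)) e
 (c (a (nat_lit 0x22061c161)) e
 (c (a (nat_lit 0x200001)) e e)))))))))))))
 (c (a (nat_lit 0x2001))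
 (c (a (nat_lit 0x2b6b01e1))
 (c (a (nat_lit 0x14f4a201e024)) e
 (c (a (nat_lit 0x16b602000004)) e
 (c (a (nat_lit 0x12a000000005)) e e)))
 (c (a (nat_lit 0x624258001))
 (c (a (nat_lit 0x15c300000003)) e e)
 (c (a (nat_lit 0x3a3c48001)) e
 (c (a (nat_lit 0x202e31a6)) e
 (c (a (nat_lit 0x31f3cfe7)) e
 (c (a (nat_lit 0x199b53bb26)) e
 (c z e
 (c (b (nat_lit 0x1fe5822001)) e
 (c (a (nat_lit 0x1655f586a4)) e
 (c (a (nat_lit 0x1e60a04003)) e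
 (c (a (nat_lit 0x2c180a001)) e
 (c (a (nat_lit 0x1a0000001)) e e))))))))))))
 (c (a (nat_lit 0x202021))
 (c (a (nat_lit 0x7c8808001))
 (c (a (nat_lit 0x3e000000001)) e e)
 (c (a (nat_lit 0xa0a05ce3)) e
 (c (a (nat_lit 0x32962e86)) e
 (c z e
 (c z e
 (c (b (nat_lit 0x1fe0e08221)) e
 (c (a (nat_lit 0x13539407a4)) e
 (c (a (nat_lit 0x13a4408001)) e
 (c (a (nat_lit 0x380806021)) e
 (c (a (nat_lit 0xa0600001)) e e))))))))))
 (c (nat_lit 1)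
 (c (a (nat_lit 0x6b5563427)) e
 (c z e
 (c z e
 (c (a (nat_lit 0x5b4d4a885)) e
 (c (a (nat_lit 0xf6f7442c6)) e
 (c (a (nat_lit 0xa80203304)) e
 (c (a (nat_lit 0xa0a0c1a1)) e
 (c (a (nat_lit 0x404001)) e
 (c (nat_lit 1) e e)))))))))
 (c (a (nat_lit 0x2021))
 (c z e
 (c (a (nat_lit 0x1abe9e9ea7)) e
 (c (a (nat_lit 0x19d9d9edc7)) e
 (c (a (nat_lit 0xc0604021)) e
 (c (a (nat_lit 0x6121e1)) e
 (c (a (nat_lit 0x60214101)) e
 (c (a (nat_lit 0x800001)) e e)))))))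
 (c (a (nat_lit 0x202021))
 (c (a (nat_lit 0x1e5e5e7325)) e
 (c (a (nat_lit 0x1fc0202004)) e
 (c (a (nat_lit 0x2602040a1)) e
 (c (a (nat_lit 0x80616161)) e
 (c (a (nat_lit 0x404001)) e
 (c (a (nat_lit 0x20000001)) e e))))))
 (c (a (nat_lit 0x202021))
 (c (a (nat_lit 0x202021)) e
 (c (a (nat_lit 0x20202001)) e
 (c (a (nat_lit 0x20202021)) e
 (c (a (nat_lit 0x20200001)) e e))))
 (c (a (nat_lit 0x202021))
 (c (a (nat_lit 0x20202021)) e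
 (c (a (nat_lit 0x20202001)) e
 (c (a (nat_lit 0x20000001)) e e)))
 (c (a (nat_lit 0x202021))
 (c (a (nat_lit 0x20200001)) e e)
 (c (a (nat_lit 0x202001)) e
 (c (a (nat_lit 0x202021)) e
 (c (a (nat_lit 0x202001)) e
 (c (a (nat_lit 0x202001)) e
 (c (a (nat_lit 0x21)) e
 (c (a (nat_lit 0x3aa5)) e
 (c (a (nat_lit 0x1ac545)) e
 (c z e
 (c (a (nat_lit 0x14202003)) e
 (c (a (nat_lit 0x600001)) e
 (c (a (nat_lit 0x1002001)) e
 (c (a (nat_lit 0xa04021)) e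
 (c (a (nat_lit 0x400001)) e e))))))))))))))))))))))))) Tr.c Tr.e (nat_lit 0) C.cx C.cy
noncomputable def C297 : Tr := beta% (fun (c : Nat → Tr → Tr → Tr) (e : Tr) (z : Nat) (a b : Nat → Nat) =>
 (c (a (nat_lit 0x404041))
 (c (a (nat_lit 0x20202021))
 (c (a (nat_lit 0x605271a2))
 (c (a (nat_lit 0x202022627385))
 (c (a (nat_lit 0x1cd700a9c3400002)) e
 (c (a (nat_lit 0x38206000000004)) e
 (c (a (nat_lit 0x340000000000001)) e e)))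
 (c (a (nat_lit 0x202020b5e1a7))
 (c (a (nat_lit 0xf9600000000002)) e e)
 (c (a (nat_lit 0x202093642f07)) e
 (c (b (nat_lit 0x103378421dfe6)) e
 (c (a (nat_lit 0x139e08141a0a6)) e e)))))
 (c (a (nat_lit 0x41c1a0e161))
 (c (a (nat_lit 0x100202e415708)) e
 (c (a (nat_lit 0x284bd525aa128)) e
 (c z e
 (c z e
 (c z e
 (c (a (nat_lit 0xc8d9837400008)) e e))))))
 (c (a (nat_lit 0x2080616421))
 (c (b (nat_lit 0x4cf4cb0677fe8)) e e)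
 (c (a (nat_lit 0x80850617e4)) e
 (c (a (nat_lit 0xc8ece598625)) e
 (c z e
 (c (a (nat_lit 0x101173d1d928)) e
 (c z e
 (c z e
 (c z e
 (c (a (nat_lit 0x134785a02008)) e
 (c (a (nat_lit 0xf20405f1f05)) e
 (c (a (nat_lit 0x2a26281c041)) e
 (c (a (nat_lit 0x16161400001)) e
 (c (a (nat_lit 0x12000000001)) e e)))))))))))))))
 (c (a (nat_lit 0x20202021))
 (c (a (nat_lit 0xe1c1410361))
 (c (a (nat_lit 0x3437005b70027)) e
 (c z e
 (c z e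
 (c z e
 (c (b (nat_lit 0x1ffffff7184008)) e
 (c (b (nat_lit 0x1ffff320000007)) e e))))))
 (c (b (nat_lit 0x26141ffaa6)) e
 (c z e
 (c z e
 (c (a (nat_lit 0xdcf2c0c1a68)) e
 (c (a (nat_lit 0x6c74c330e29)) e
 (c z e
 (c z e
 (c (a (nat_lit 0x1e9d76f26309)) e
 (c (a (nat_lit 0x13084680e2e9)) e
 (c (a (nat_lit 0xc020388a67)) e
 (c (a (nat_lit 0x241c3612001)) e
 (c (a (nat_lit 0x1e120000001)) e e)))))))))))))
 (c (a (nat_lit 0x60606001))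
 (c (a (nat_lit 0xc73736f8a07)) e
 (c z e
 (c z e
 (c z e
 (c z e
 (c z e
 (c z e
 (c z e
 (c z e
 (c (a (nat_lit 0xf0dc05915a7)) e
 (c (a (nat_lit 0x16c484600006)) e
 (c (a (nat_lit 0x10000000001)) e e))))))))))))
 (c (a (nat_lit 0x40202041))
 (c (a (nat_lit 0x68540225a86))
 (c (b (nat_lit 0x1ff9f389850005)) e
 (c (b (nat_lit 0x1ff30840000005)) e e))
 (c (a (nat_lit 0x62343f0e5e8))
 (c (a (nat_lit 0x376000000003)) e e)
 (c z e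
 (c z e
 (c z e
 (c z e
 (c z e
 (c z e
 (c (a (nat_lit 0x138982772006)) e
 (c (a (nat_lit 0x300000001)) e e))))))))))
 (c (nat_lit 1)
 (c (a (nat_lit 0x30570e622a7)) e
 (c z e
 (c z e
 (c z e
 (c z e
 (c z e
 (c (a (nat_lit 0x15d74c4793c8)) e
 (c (a (nat_lit 0x15c040200005)) e
 (c (a (nat_lit 0xa000000001)) e e)))))))))
 (c (a (nat_lit 0x20203c07))
 (c (a (nat_lit 0x12eb296aaae7)) e
 (c (a (nat_lit 0x9a9d0aea728)) e
 (c z e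
 (c z e
 (c z e
 (c (a (nat_lit 0x1a6e00490007)) e
 (c (a (nat_lit 0x1cc0000003)) e e)))))))
 (c (a (nat_lit 0x203ee8c7))
 (c (b (nat_lit 0x786ecbff347)) e
 (c z e
 (c z e
 (c z e
 (c (a (nat_lit 0x42919200007)) e
 (c (a (nat_lit 0x1f4000000004)) e e))))))
 (c (a (nat_lit 0xf9d9b5427)) e
 (c z e
 (c (a (nat_lit 0x1feb602005)) e
 (c (a (nat_lit 0x1540203d64)) e
 (c (a (nat_lit 0x20e243a1)) e
 (c (a (nat_lit 0xe16001)) e
 (c (a (nat_lit 0xc1a14001)) e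
 (c (a (nat_lit 0x1a0a08001)) e
 (c (a (nat_lit 0x1208081e1)) e
 (c (a (nat_lit 0x20fb82)) e
 (c (a (nat_lit 0xd6d506205)) e
 (c z e
 (c (a (nat_lit 0x1cc0402004)) e
 (c (a (nat_lit 0x20000001)) e e)))))))))))))))))))))
 (c (nat_lit 1)
 (c (nat_lit 1)
 (c (a (nat_lit 0xa2a2a2a5ae5))
 (c (a (nat_lit 0x1313146c73b245)) e
 (c z e
 (c z e
 (c (a (nat_lit 0x23ba4c274426)) e
 (c (a (nat_lit 0x188cabedc00006)) e
 (c (a (nat_lit 0x11eb8000000004)) e e))))))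
 (c (a (nat_lit 0x14b83efdd947)) e
 (c z e
 (c (a (nat_lit 0xed0c6402a26)) e
 (c (a (nat_lit 0x421a1643148)) e
 (c (a (nat_lit 0x5a8ec780fc8)) e
 (c z e
 (c (a (nat_lit 0xa7009e561c9)) e
 (c (b (nat_lit 0x1f361460bfe8)) e
 (c (a (nat_lit 0x1231f1e405a7)) e
 (c (a (nat_lit 0x101020404025)) e
 (c (a (nat_lit 0x102040200005)) e
 (c (a (nat_lit 0x14000000001)) e e)))))))))))))
 (c (a (nat_lit 0x40402021))
 (c z e
 (c (a (nat_lit 0x1f6e24c10d66))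
 (c (a (nat_lit 0x6c5322e62e008)) e
 (c (a (nat_lit 0xcb39620000008)) e e))
 (c (a (nat_lit 0x5c348899ce8))
 (c (a (nat_lit 0x16a000000006)) e e)
 (c z e
 (c z e
 (c z e
 (c (a (nat_lit 0xc7210654009)) e
 (c (b (nat_lit 0x97008ffffe9)) e
 (c z e
 (c (a (nat_lit 0x182022402007)) e
 (c (a (nat_lit 0x11f1a0000004)) e e)))))))))))
 (c (a (nat_lit 0x202001))
 (c (a (nat_lit 0x3210022b467))
 (c (a (nat_lit 0x3152cc2e00004)) e
 (c (a (nat_lit 0xdb60000000004)) e e))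
 (c (a (nat_lit 0x4c3a5f63088))
 (c (a (nat_lit 0x19000000000004)) e e)
 (c z e
 (c z e
 (c z e
 (c (a (nat_lit 0x1af931c1e808)) e
 (c z e
 (c z e
 (c (a (nat_lit 0x108504c00005)) e
 (c (a (nat_lit 0x26000000001)) e e))))))))))
 (c (a (nat_lit 0x1485))
 (c (a (nat_lit 0x42532068707)) e
 (c z e
 (c (a (nat_lit 0x154cf633b448)) e
 (c z e
 (c z e
 (c z e
 (c (a (nat_lit 0x155424cde008)) e
 (c (a (nat_lit 0x148040000006)) e e))))))))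
 (c (a (nat_lit 0x1c4227))
 (c (a (nat_lit 0x16aac9ecb747)) e
 (c (a (nat_lit 0x58b8e0f9a28)) e
 (c z e
 (c z e
 (c (a (nat_lit 0x125f240ed88)) e
 (c (a (nat_lit 0x13688f200007)) e
 (c (a (nat_lit 0x152000000006)) e e)))))))
 (c z
 (c (a (nat_lit 0x7cecc1dbbc7)) e
 (c z e
 (c z e
 (c (b (nat_lit 0x1ff93a118008)) e
 (c (a (nat_lit 0x12b7a0000007)) e e)))))
 (c z e
 (c (a (nat_lit 0x16eda02005))
 (c (b (nat_lit 0x1ff63423e009)) e e)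
 (c (a (nat_lit 0xbc02034a5)) e
 (c (a (nat_lit 0x54b4a5)) e
 (c (a (nat_lit 0x1c302a121)) e
 (c (a (nat_lit 0x1a1610001)) e
 (c (a (nat_lit 0x121006001)) e
 (c (a (nat_lit 0x1c0e061c1)) e
 (c (a (nat_lit 0x20203765)) e
 (c (a (nat_lit 0xee4c9706)) e
 (c z e
 (c (a (nat_lit 0x174c604025)) e
 (c (a (nat_lit 0x18a0400004)) e e)))))))))))))))))))
 (c (a (nat_lit 0x202021))
 (c (a (nat_lit 0x20202021))
 (c (a (nat_lit 0x1c8c8cecf025))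
 (c (a (nat_lit 0x228b885250a5)) e
 (c (b (nat_lit 0x141bffc2a4005)) e
 (c (b (nat_lit 0x7fff900000005)) e e)))
 (c (b (nat_lit 0x1fe020237a86))
 (c (b (nat_lit 0x1ffff4c3800006)) e
 (c (b (nat_lit 0x1ffee000000006)) e e))
 (c (a (nat_lit 0x21062d9807))
 (c (a (nat_lit 0x1d400000000005)) e e)
 (c z e
 (c z e
 (c (a (nat_lit 0xc306d8a42c8)) e
 (c (a (nat_lit 0x1db9348847e7)) e
 (c (b (nat_lit 0x152fcf9ff647)) e
 (c z e
 (c (a (nat_lit 0x15a8e0200005)) e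
 (c (a (nat_lit 0x118000000004)) e e)))))))))))
 (c (a (nat_lit 0x202034a5))
 (c (a (nat_lit 0x2141a4d187))
 (c (a (nat_lit 0x32c400000005)) e e)
 (c (a (nat_lit 0x5a687305608)) e
 (c z e
 (c z e
 (c (a (nat_lit 0x12793b27a208)) e
 (c (a (nat_lit 0x1609e508c3e8)) e
 (c z e
 (c z e
 (c (a (nat_lit 0x1b2940000004)) e e)))))))))
 (c (a (nat_lit 0x14a1c5))
 (c (a (nat_lit 0x9eaf3dade87)) e
 (c z e
 (c z e
 (c z e
 (c (a (nat_lit 0x68b6c041289)) e e)))))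
 (c (a (nat_lit 0x75067e428)) e
 (c z e
 (c (a (nat_lit 0x1de9c02204))
 (c (b (nat_lit 0x6c9113fe028)) e
 (c (a (nat_lit 0x6d81846c009)) e e))
 (c (a (nat_lit 0x4802e1826))
 (c (a (nat_lit 0x135646200009)) e e)
 (c (a (nat_lit 0x349485)) e
 (c z e
 (c (a (nat_lit 0x241a12001)) e
 (c (a (nat_lit 0x1191602004)) e
 (c (a (nat_lit 0xa080e521)) e
 (c (a (nat_lit 0xdd4d4acc7)) e
 (c (a (nat_lit 0x1d5d484dc6)) e
 (c z e
 (c (b (nat_lit 0x1fe0805aa3)) e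
 (c (a (nat_lit 0x79c002)) e
 (c (a (nat_lit 0xe0000001)) e e))))))))))))))))))
 C296)))) Tr.c Tr.e (nat_lit 0) C.cx C.cy
noncomputable def C298 : Tr := beta% (fun (c : Nat → Tr → Tr → Tr) (e : Tr) (z : Nat) (a b : Nat → Nat) =>
 (c (a (nat_lit 0x20202021))
 (c (b (nat_lit 0x1fffe0804021))
 (c (a (nat_lit 0x167146a0405525))
 (c (a (nat_lit 0x132e69ebe96a55c6)) e
 (c (a (nat_lit 0x11ed0eebac957a48)) e
 (c (a (nat_lit 0x12b34c0f7a7b7767)) e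
 (c (a (nat_lit 0x162be8132e200007)) e e))))
 (c (a (nat_lit 0x44e216034f4e7))
 (c (a (nat_lit 0xd4f0c8cf238fb29)) e
 (c (a (nat_lit 0x162c0dd39d932009)) e
 (c (a (nat_lit 0xf4cf953c0000008)) e e)))
 (c (b (nat_lit 0x1fffffe02038a6))
 (c (a (nat_lit 0xacaaf90ab600008)) e e)
 (c (a (nat_lit 0x714945c89aa7)) e
 (c (a (nat_lit 0x7260795d547)) e
 (c (b (nat_lit 0x1fe1e04db1eda6)) e
 (c (b (nat_lit 0x1ffff83b08e025)) e e)))))))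
 (c (a (nat_lit 0x13b2f2fc7344))
 (c (a (nat_lit 0x1d5f5a1a1dddc7))
 (c (a (nat_lit 0xd0b6a6d33d68569)) e
 (c (a (nat_lit 0xaaa8cb6cc00000a)) e
 (c (a (nat_lit 0x153e7c2000000008)) e e)))
 (c (a (nat_lit 0xba28040499229))
 (c (a (nat_lit 0x365f2c880000009)) e e)
 (c (a (nat_lit 0x56300824eb629)) e
 (c (a (nat_lit 0x2e02129da0848)) e
 (c (b (nat_lit 0x60215001dfe8)) e e)))))
 (c (a (nat_lit 0x11bbf6d6efa5))
 (c (b (nat_lit 0x4bfec6b7b5aa8))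
 (c (a (nat_lit 0x1790b3e000000006)) e e)
 (c (b (nat_lit 0x2ffe65dfbd128)) e e))
 (c (a (nat_lit 0x185858583825))
 (c (a (nat_lit 0xa798f660d1c7)) e e)
 (c (a (nat_lit 0x121664505a1)) e
 (c (a (nat_lit 0x40e141da42))
 (c z e
 (c (b (nat_lit 0x1d6d7fe7c18007)) e
 (c (b (nat_lit 0x1fffff40000006)) e e)))
 (c (b (nat_lit 0x406930ffe4))
 (c (a (nat_lit 0x16cc0382a00007)) e
 (c (a (nat_lit 0x1103a000000006)) e e))
 (c (a (nat_lit 0x5ab0c0772e7))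
 (c (a (nat_lit 0x1c000000000003)) e e)
 (c z e
 (c z e
 (c z e
 (c (a (nat_lit 0x163290a8c428)) e
 (c (a (nat_lit 0x1ab320203526)) e
 (c (a (nat_lit 0x130020353526)) e
 (c (a (nat_lit 0x1b4020202026)) e
 (c (a (nat_lit 0x121e1200001)) e
 (c (a (nat_lit 0x8000000001)) e e)))))))))))))))))
 (c (a (nat_lit 0x20202021))
 (c (a (nat_lit 0x7d207c7c346))
 (c (a (nat_lit 0x1f0b0b0d0d206))
 (c (a (nat_lit 0x112baeb6d9c3c007)) e
 (c (a (nat_lit 0x98af68a40000009)) e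
 (c (a (nat_lit 0x10db000000000007)) e e)))
 (c (a (nat_lit 0x1898989ad3729))
 (c (a (nat_lit 0x31a4e000000009)) e e)
 (c (a (nat_lit 0x266c7ea176ee9)) e
 (c (b (nat_lit 0xa5483d05bfe8)) e
 (c (b (nat_lit 0x50034007fe1e8)) e e)))))
 (c (a (nat_lit 0x148040624205))
 (c (a (nat_lit 0x242404ddf2c08))
 (c (a (nat_lit 0xd8e00000000004)) e e)
 (c (a (nat_lit 0x342e850c9c5ca)) e e))
 (c (a (nat_lit 0x249272841))
 (c (a (nat_lit 0x259120a18028)) e e)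
 (c (a (nat_lit 0x181c1e23184)) e
 (c (a (nat_lit 0x10129f12124)) e
 (c (b (nat_lit 0x8ffe33325)) e
 (c z e
 (c z e
 (c z e
 (c z e
 (c (a (nat_lit 0xdf147a3e289)) e
 (c (a (nat_lit 0x14e2802a6a68)) e
 (c (a (nat_lit 0x222a2418241)) e
 (c (a (nat_lit 0x2203024001)) e
 (c (a (nat_lit 0xa0000001)) e e)))))))))))))))
 (c (a (nat_lit 0x40404041))
 (c (a (nat_lit 0x1c181c10141))
 (c (a (nat_lit 0x80033324a8386)) e e)
 (c (a (nat_lit 0x2120a0b962)) e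
 (c (a (nat_lit 0x2044c85165)) e
 (c z e
 (c z e
 (c z e
 (c z e
 (c z e
 (c z e
 (c z e
 (c (a (nat_lit 0x13e4c0202c68)) e
 (c (a (nat_lit 0x9402038f4c7)) e
 (c (a (nat_lit 0x18201e00001)) e
 (c (a (nat_lit 0x10000000001)) e e))))))))))))))
 (c (a (nat_lit 0x60404041))
 (c (a (nat_lit 0x203c5e0025)) e
 (c z e
 (c z e
 (c z e
 (c z e
 (c z e
 (c z e
 (c z e
 (c z e
 (c (a (nat_lit 0x1903e0404c07)) e
 (c (a (nat_lit 0xbc4c4f74006)) e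
 (c (a (nat_lit 0x60e0000001)) e e))))))))))))
 (c (a (nat_lit 0x61))
 (c z e
 (c z e
 (c z e
 (c z e
 (c z e
 (c z e
 (c z e
 (c (a (nat_lit 0xb921169c1a8)) e
 (c (a (nat_lit 0x17ac494f6e84)) e
 (c (a (nat_lit 0x18a162e00002)) e
 (c (a (nat_lit 0x2000000001)) e e)))))))))))
 (c (a (nat_lit 0x20402001))
 (c z e
 (c (a (nat_lit 0x114f922040a7)) e
 (c (a (nat_lit 0x11fa0c4e8fa7)) e
 (c z e
 (c z e
 (c z e
 (c (a (nat_lit 0xa3090a643e9)) e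
 (c (a (nat_lit 0x2f660c0a005)) e
 (c (a (nat_lit 0x150020000005)) e e)))))))))
 (c (nat_lit 1)
 (c (a (nat_lit 0x1151e4a4c866)) e
 (c (a (nat_lit 0x1ac588e62626)) e
 (c (b (nat_lit 0x3a3e63ff4a7)) e
 (c z e
 (c z e
 (c (a (nat_lit 0xdf28c004ae8)) e
 (c (b (nat_lit 0x1ffca3a00001)) e
 (c (a (nat_lit 0x4000000001)) e e))))))))
 (c (a (nat_lit 0x20203946))
 (c (b (nat_lit 0x15f606ed9fe5)) e
 (c (a (nat_lit 0x26173ed19e7)) e
 (c z e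
 (c z e
 (c (b (nat_lit 0x1ff2d5808007)) e
 (c (a (nat_lit 0x15c2c0000004)) e e))))))
 (c (a (nat_lit 0x203a3186))
 (c (a (nat_lit 0xa051f37167)) e e)
 (c (a (nat_lit 0x3c3340c6)) e
 (c z e
 (c (a (nat_lit 0x1245e02005)) e
 (c (a (nat_lit 0x1af5b59563)) e
 (c (a (nat_lit 0x60416101)) e
 (c (a (nat_lit 0x1e1016001)) e
 (c (a (nat_lit 0x221414021)) e
 (c (a (nat_lit 0x20a06041)) e
 (c (a (nat_lit 0x4054c2)) e
 (c (b (nat_lit 0x743fe2)) e e)))))))))))))))))))) Tr.c Tr.e (nat_lit 0) C.cx C.cy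
noncomputable def C299 : Tr := beta% (fun (c : Nat → Tr → Tr → Tr) (e : Tr) (z : Nat) (a b : Nat → Nat) =>
 (c (a (nat_lit 0x20204021))
 (c (a (nat_lit 0x156f8fed0d08))
 (c (b (nat_lit 0x1cf6b85fe04026))
 (c (a (nat_lit 0x181cb35136d5f207)) e
 (c (a (nat_lit 0x1eb3531552f45809)) e e))
 (c (a (nat_lit 0xfb1d065827368))
 (c (a (nat_lit 0x116c8caace6dafca)) e e)
 (c z e
 (c z e
 (c z e
 (c (b (nat_lit 0xcbff46346f626)) e
 (c (a (nat_lit 0x1ae60b94759b67)) e e)))))))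
 (c (a (nat_lit 0x1f1e9ddddd48))
 (c (a (nat_lit 0x272c0c04a16a8))
 (c (a (nat_lit 0x1476f27c4fae7508)) e e)
 (c z e
 (c z e
 (c z e
 (c (a (nat_lit 0x2710e6a761c69)) e e)))))
 (c (a (nat_lit 0x18d878793107)) e
 (c z e
 (c z e
 (c (a (nat_lit 0x2a44545a1)) e
 (c (a (nat_lit 0xa0a15023))
 (c (a (nat_lit 0x1185c4e4810009)) e
 (c (a (nat_lit 0xdf89e00000007)) e e))
 (c (a (nat_lit 0x4647273b1c7))
 (c (a (nat_lit 0x112b6000000007)) e e)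
 (c (a (nat_lit 0x408abef3bc8)) e
 (c z e
 (c z e
 (c z e
 (c (a (nat_lit 0x105c42a06026)) e
 (c (a (nat_lit 0x1ba200402006)) e
 (c (a (nat_lit 0x13624100a003)) e
 (c (a (nat_lit 0x102b02408001)) e
 (c (a (nat_lit 0x11e560000001)) e e)))))))))))))))))
 (c (a (nat_lit 0x40606021))
 (c (a (nat_lit 0x158a2a13e1e4))
 (c (a (nat_lit 0x21004190d086))
 (c (a (nat_lit 0x1572718482a784a7)) e e)
 (c z e
 (c z e
 (c z e
 (c (a (nat_lit 0x76445af71c8)) e e)))))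
 (c z e
 (c z e
 (c (b (nat_lit 0x1fe303616001)) e
 (c (a (nat_lit 0x20e0c15122)) e
 (c (a (nat_lit 0x24673046))
 (c (a (nat_lit 0xd95f7ed600008)) e
 (c (a (nat_lit 0x49be000000007)) e e))
 (c (a (nat_lit 0x267cdb0afe8))
 (c (a (nat_lit 0x1a400000000005)) e e)
 (c z e
 (c z e
 (c z e
 (c z e
 (c (a (nat_lit 0x712c0404007)) e
 (c (a (nat_lit 0x12e020202007)) e
 (c (a (nat_lit 0x623038021)) e
 (c (a (nat_lit 0x70282200001)) e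
 (c (a (nat_lit 0x14000000001)) e e))))))))))))))))
 (c (a (nat_lit 0x40404001))
 (c (a (nat_lit 0x1e8202812081))
 (c (a (nat_lit 0xc4c7cbba0a9e6)) e e)
 (c (a (nat_lit 0x1010b1606003))
 (c z e
 (c (a (nat_lit 0xb860e50c80229)) e e))
 (c (a (nat_lit 0xc141617a63))
 (c (a (nat_lit 0x31d6ab0a047)) e e)
 (c (a (nat_lit 0x2022437fc6)) e
 (c z e
 (c z e
 (c z e
 (c (a (nat_lit 0x96c7086ec0a)) e
 (c z e
 (c z e
 (c z e
 (c (a (nat_lit 0x1662a024b1a8)) e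
 (c (a (nat_lit 0x52049386007)) e
 (c (a (nat_lit 0xe140000001)) e e))))))))))))))
 (c (a (nat_lit 0x60606041))
 (c (a (nat_lit 0x1b7b7a5a7b45))
 (c (a (nat_lit 0x105284dee76607)) e
 (c (b (nat_lit 0xfa39a47a47fe8)) e e))
 (c (a (nat_lit 0x1171799a1a07))
 (c (a (nat_lit 0x2f3c6aa050208)) e e)
 (c z e
 (c z e
 (c z e
 (c (a (nat_lit 0x1491d86e42a8)) e
 (c (a (nat_lit 0xb8d52e9ef49)) e
 (c z e
 (c z e
 (c (a (nat_lit 0x3372c26267)) e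
 (c (a (nat_lit 0x1b55929b7b04)) e
 (c (a (nat_lit 0x1f6722c00001)) e
 (c (a (nat_lit 0x8000000001)) e e)))))))))))))
 (c (a (nat_lit 0x40404021))
 (c (a (nat_lit 0x11961ebe3765))
 (c (a (nat_lit 0x1061257923a765)) e e)
 (c z e
 (c z e
 (c (a (nat_lit 0xf2e1025c548)) e
 (c (a (nat_lit 0x10548aa9e3a7)) e
 (c (a (nat_lit 0xd07f551b4e8)) e
 (c z e
 (c z e
 (c (a (nat_lit 0xcb3d686827)) e
 (c (a (nat_lit 0x11400402007)) e
 (c (a (nat_lit 0x142020000007)) e e)))))))))))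
 (c (a (nat_lit 0x20202001))
 (c z e
 (c (a (nat_lit 0x15b91a804026)) e
 (c (a (nat_lit 0xe7106204087)) e
 (c (a (nat_lit 0x110663624a27)) e
 (c (a (nat_lit 0x426aab2fa68)) e
 (c z e
 (c z e
 (c (b (nat_lit 0x1ffcc8ef8006)) e
 (c (a (nat_lit 0x178c61000006)) e
 (c (a (nat_lit 0x14000000001)) e e))))))))))
 (c (a (nat_lit 0x20202001))
 (c (a (nat_lit 0x19fba3c364c5)) e
 (c (a (nat_lit 0x14468362e387)) e
 (c (a (nat_lit 0x5a543063806)) e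
 (c (a (nat_lit 0x565876ef9e7)) e
 (c z e
 (c z e
 (c (a (nat_lit 0x11d673336006)) e e)))))))
 (c (a (nat_lit 0x80808041))
 (c (a (nat_lit 0x104f84438265)) e
 (c (a (nat_lit 0x3a221a23a06)) e
 (c (a (nat_lit 0x1e060be9a66)) e e)))
 (c (a (nat_lit 0x203a46))
 (c (a (nat_lit 0x180a22ddac5)) e
 (c (a (nat_lit 0x5244e427)) e e))
 (c (a (nat_lit 0x203bd566))
 (c (a (nat_lit 0x1a366c11089)) e e)
 (c (a (nat_lit 0xa9311cee8)) e
 (c z e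
 (c (a (nat_lit 0x1a15b55547)) e
 (c (a (nat_lit 0x114fcfc685)) e
 (c (a (nat_lit 0x13532081c4)) e
 (c (a (nat_lit 0x1bc040c0a3)) e
 (c (a (nat_lit 0x21424161)) e
 (c (a (nat_lit 0xa0c001)) e
 (c (a (nat_lit 0x6090e1)) e
 (c (a (nat_lit 0x40417545)) e
 (c (a (nat_lit 0xc0c512e87)) e e)))))))))))))))))))))) Tr.c Tr.e (nat_lit 0) C.cx C.cy
noncomputable def C300 : Tr := beta% (fun (c : Nat → Tr → Tr → Tr) (e : Tr) (z : Nat) (a b : Nat → Nat) =>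
 (c (a (nat_lit 0x20202021))
 (c (a (nat_lit 0x3f18b0b6a67))
 (c z e
 (c z e
 (c z e
 (c z e
 (c z e
 (c z e
 (c z e
 (c (b (nat_lit 0x90d1ffcac6027)) e e))))))))
 (c (a (nat_lit 0x1b2faf6cece7)) e
 (c (b (nat_lit 0x1fffe2006121))
 (c (a (nat_lit 0x65263c065f5a8))
 (c (a (nat_lit 0x1eaaf207cd600007)) e e) e)
 (c (a (nat_lit 0x11e12163a3c1)) e
 (c (a (nat_lit 0x12d2d2f2ed46)) e
 (c z e
 (c (a (nat_lit 0x1e1a2014241))
 (c (a (nat_lit 0x17722ba1a041a7)) e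
 (c (b (nat_lit 0x1ff28e63c00005)) e
 (c (a (nat_lit 0x3d66000000004)) e e)))
 (c (a (nat_lit 0x80e1215362))
 (c (a (nat_lit 0x792f60000005)) e
 (c (a (nat_lit 0x16200000000004)) e e))
 (c (a (nat_lit 0x3293d286)) e
 (c (b (nat_lit 0x1fffeef667)) e
 (c z e
 (c z e
 (c z e
 (c (a (nat_lit 0x128a4a2807e7)) e
 (c (a (nat_lit 0x4d3c0402026)) e
 (c (a (nat_lit 0x13c040202026)) e
 (c (a (nat_lit 0x441a0800001)) e
 (c (a (nat_lit 0x2000000001)) e e))))))))))))))))))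
 (c (a (nat_lit 0x20202021))
 (c (a (nat_lit 0x112b40402904))
 (c (a (nat_lit 0x3862e3639466))
 (c (a (nat_lit 0xbd3ad6a0be85de7)) e e)
 (c (a (nat_lit 0x100aa0c0275548))
 (c (a (nat_lit 0x1cfa3b5176200008)) e e)
 (c z e
 (c z e
 (c z e
 (c z e
 (c (a (nat_lit 0x62efbd5e3ef07)) e e)))))))
 (c (a (nat_lit 0x14aeeef3af06))
 (c (a (nat_lit 0xde1a0661593a8))
 (c (a (nat_lit 0xe76ce8f60000007)) e e)
 (c z e
 (c z e
 (c z e
 (c (a (nat_lit 0x74aeecb12e6c9)) e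
 (c (a (nat_lit 0x49a7bd6a3c868)) e e))))))
 (c (a (nat_lit 0x147475d5efc6)) e
 (c (a (nat_lit 0x1ee0e1816002)) e
 (c (a (nat_lit 0xa1e1a0e1c1)) e
 (c (a (nat_lit 0x100e1426021))
 (c (a (nat_lit 0x15c1494b242008)) e
 (c (a (nat_lit 0x4e32e0000007)) e e))
 (c (b (nat_lit 0x2c2d85ffe26))
 (c (a (nat_lit 0x9d2000000005)) e e)
 (c (a (nat_lit 0x6afce32cd47)) e
 (c z e
 (c z e
 (c (a (nat_lit 0xeb2705a0fe8)) e
 (c (a (nat_lit 0x60033a4a4e7)) e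
 (c (b (nat_lit 0x1ffdc0402046)) e
 (c (a (nat_lit 0x1dc040204066)) e
 (c (a (nat_lit 0xe262c001)) e
 (c (nat_lit 1) e e))))))))))))))))
 (c (a (nat_lit 0x20202021))
 (c (a (nat_lit 0x975908eac85))
 (c (a (nat_lit 0x30c17522ec8c6)) e
 (c z e
 (c z e
 (c (b (nat_lit 0x1fff439839b0a6)) e
 (c (a (nat_lit 0x10eb28e7ca8628)) e
 (c (a (nat_lit 0x16858924098187)) e e))))))
 (c z e
 (c (b (nat_lit 0x1fe222c0c001))
 (c (a (nat_lit 0x4c30416c1a027)) e e)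
 (c (a (nat_lit 0x107070707185))
 (c z e
 (c z e
 (c (a (nat_lit 0x533b60000006)) e e)))
 (c (a (nat_lit 0xc2c2e4ef767))
 (c (a (nat_lit 0x169232aac00007)) e
 (c (a (nat_lit 0x8526000000005)) e e))
 (c (a (nat_lit 0x6f1b95bf9e7))
 (c (a (nat_lit 0x7000000000001)) e e)
 (c z e
 (c (a (nat_lit 0xf51afabe468)) e
 (c (a (nat_lit 0x127275f118e8)) e
 (c (a (nat_lit 0xf520d39adc8)) e
 (c (a (nat_lit 0xae05c294127)) e
 (c (a (nat_lit 0x1f003802408)) e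
 (c (a (nat_lit 0x1ae2a02aaaa7)) e
 (c (a (nat_lit 0x140060200004)) e
 (c (a (nat_lit 0x2000000001)) e e)))))))))))))))
 (c (a (nat_lit 0x40404041))
 (c (a (nat_lit 0x145454545446))
 (c (b (nat_lit 0xf90b01fee6e27)) e
 (c (a (nat_lit 0x1717c36bcf2687)) e e))
 (c (a (nat_lit 0xeceeeeef1a6))
 (c (a (nat_lit 0x1a2d85ab06c7e6)) e
 (c (a (nat_lit 0x883370c8ea67)) e e))
 (c (a (nat_lit 0x38393b46b06))
 (c (a (nat_lit 0xdb034fc096fc6)) e e)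
 (c z e
 (c z e
 (c (a (nat_lit 0x128bcd40a247)) e
 (c (a (nat_lit 0x19db7dfa7067)) e
 (c (b (nat_lit 0x106cff1ffde7)) e
 (c z e
 (c z e
 (c (b (nat_lit 0x1ffdc4758046)) e
 (c (a (nat_lit 0x9c055c06006)) e
 (c (a (nat_lit 0x14d560000006)) e e)))))))))))))
 (c (a (nat_lit 0x20202021))
 (c (a (nat_lit 0xb4b5435cda4))
 (c (a (nat_lit 0xc04140f0a745)) e
 (c (a (nat_lit 0xd96cd7a3749a5)) e e))
 (c (a (nat_lit 0x1175d5b3f9e6))
 (c (a (nat_lit 0x2d1670a6e005)) e e)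
 (c z e
 (c (a (nat_lit 0x108f7123e3c7)) e
 (c (a (nat_lit 0xd912acaa786)) e
 (c (a (nat_lit 0x12af0f062647)) e
 (c z e
 (c z e
 (c z e
 (c (b (nat_lit 0x1ff188e3e3a5)) e
 (c (a (nat_lit 0x14c3a0200004)) e
 (c (a (nat_lit 0x1c8000000001)) e e))))))))))))
 (c (a (nat_lit 0x20202021))
 (c (a (nat_lit 0x143313be0925))
 (c (a (nat_lit 0x16e9340dc00003)) e e)
 (c (a (nat_lit 0x1672d6004385)) e
 (c (a (nat_lit 0x1399084b83e5)) e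
 (c (a (nat_lit 0x1c2b0ea3c545)) e
 (c (a (nat_lit 0x2f6361838c6)) e
 (c z e
 (c (a (nat_lit 0x452105351e7)) e
 (c (a (nat_lit 0xae6494a7387)) e
 (c (a (nat_lit 0xcb196744006)) e
 (c (a (nat_lit 0x27040000004)) e e))))))))))
 (c (a (nat_lit 0x40404041))
 (c (a (nat_lit 0xb5140402004)) e
 (c (a (nat_lit 0x1beaaa630345)) e
 (c (a (nat_lit 0x1431c0606744)) e
 (c (a (nat_lit 0x1e17aca02)) e
 (c (a (nat_lit 0x608785f346)) e
 (c (a (nat_lit 0x371cfd74f27)) e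
 (c (a (nat_lit 0xe0890560bc7)) e e)))))))
 (c (a (nat_lit 0x80a0a0a1))
 (c (a (nat_lit 0x10e960206065)) e
 (c (a (nat_lit 0x381a4a29ac1)) e
 (c (a (nat_lit 0x40805265)) e
 (c (a (nat_lit 0x4e5689c5)) e
 (c (a (nat_lit 0x50a09118ee7)) e
 (c (a (nat_lit 0x10ad7c314007)) e e))))))
 (c (nat_lit 1)
 (c (a (nat_lit 0x26242209da3)) e
 (c (a (nat_lit 0x1e1e02bd845)) e
 (c (b (nat_lit 0x6023dff727)) e e)))
 (c (a (nat_lit 0x20203d25))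
 (c (a (nat_lit 0xdec10608945)) e e)
 (c (a (nat_lit 0x203c67c4))
 (c z e
 (c (b (nat_lit 0x1ffdd3400006)) e
 (c (a (nat_lit 0x146000000007)) e e)))
 (c (a (nat_lit 0xff610ed86))
 (c (a (nat_lit 0x16b840000005)) e e)
 (c (a (nat_lit 0x14b2105007)) e
 (c (a (nat_lit 0x1d76963625)) e
 (c (a (nat_lit 0x1d9c7c5c63)) e
 (c (a (nat_lit 0x12081e2e1)) e
 (c (a (nat_lit 0x1000404023)) e
 (c (a (nat_lit 0x161414001)) e
 (c (a (nat_lit 0xa0a06001)) e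
 (c (a (nat_lit 0xa0802101)) e
 (c (a (nat_lit 0x2220301a1)) e
 (c (a (nat_lit 0x1171916e05)) e e))))))))))))))))))))))) Tr.c Tr.e (nat_lit 0) C.cx C.cy
noncomputable def C301 : Tr := beta% (fun (c : Nat → Tr → Tr → Tr) (e : Tr) (z : Nat) (a b : Nat → Nat) =>
 (c (a (nat_lit 0x2020202021))
 (c (a (nat_lit 0x14cb8b8b8b8ba2))
 (c z e
 (c (a (nat_lit 0x6a6a6c6ccedf7e5))
 (c (a (nat_lit 0x3e3e443c3255092c8)) e
 (c (a (nat_lit 0x827a8e669357b3ec8)) e e))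
 (c (a (nat_lit 0x5e5e5e8e73067c6)) e
 (c (a (nat_lit 0xfcfd2f1f19176e6)) e
 (c z e
 (c z e
 (c z e
 (c (a (nat_lit 0x6a4b26264a40386)) e
 (c (a (nat_lit 0x16a7880887664625)) e e)))))))))
 (c (a (nat_lit 0x1a244a525a041))
 (c (a (nat_lit 0x7e7e7e9cbd39367))
 (c (a (nat_lit 0x404c3e2e4ebf4eb89)) e e)
 (c (a (nat_lit 0x6464a2cf1cbd0c8)) e
 (c z e
 (c z e
 (c (a (nat_lit 0x1112b1b28dcfada8)) e
 (c (a (nat_lit 0xf0d19a9c8c70847)) e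
 (c (a (nat_lit 0x89ae5e402814247)) e
 (c (a (nat_lit 0x170a62a200608006)) e
 (c z e
 (c (a (nat_lit 0x4e7600000000001)) e e))))))))))
 (c (a (nat_lit 0x1999da1a417f02)) e
 (c (a (nat_lit 0x1131514fb02d26))
 (c (a (nat_lit 0xc2b8cb0ed0c0ba8)) e
 (c (a (nat_lit 0x106fb7190f4f6f48)) e
 (c (a (nat_lit 0x165c52b48930f567)) e
 (c z e
 (c z e
 (c (a (nat_lit 0xc8eb48de0000007)) e
 (c (a (nat_lit 0x13f0600000000006)) e e)))))))
 (c (a (nat_lit 0x10707356b3e805))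
 (c (a (nat_lit 0xb8c106d0e2d4a67)) e
 (c z e
 (c z e
 (c (a (nat_lit 0x175f9ef7b5a00006)) e e))))
 (c (a (nat_lit 0x1bb152718082c4))
 (c z e
 (c z e
 (c (a (nat_lit 0x2fb6c0c0000004)) e e)))
 (c (a (nat_lit 0x911d121011184)) e
 (c (a (nat_lit 0x1231002151d2c4)) e
 (c (a (nat_lit 0x10d0b090909284)) e
 (c (a (nat_lit 0x28040410156c4)) e
 (c (a (nat_lit 0x608080961044)) e
 (c (a (nat_lit 0x2a2a2d74f2024)) e
 (c (b (nat_lit 0xa0f56f3fe8a4)) e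
 (c (a (nat_lit 0xd77b42f4de885)) e
 (c (a (nat_lit 0x1bb83aafa00005)) e e)))))))))))))))
 (c (a (nat_lit 0x2035a6))
 (c (a (nat_lit 0xd4d6d6d8ef0a5))
 (c (a (nat_lit 0x62627096cce72e8))
 (c (a (nat_lit 0x4e3e2c48916aacaa9)) e e)
 (c z e
 (c z e
 (c z e
 (c (a (nat_lit 0x135375ceef4f6d89)) e
 (c (a (nat_lit 0x105dcae7e84bc5e8)) e
 (c (a (nat_lit 0x12e425828320c108)) e
 (c (a (nat_lit 0x150d052b80c00006)) e
 (c (a (nat_lit 0x13302e4000000006)) e e)))))))))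
 (c (b (nat_lit 0x5254a3feed2c6))
 (c z e
 (c z e
 (c z e
 (c z e
 (c z e
 (c z e
 (c (a (nat_lit 0x15f3af8ec0000007)) e
 (c (a (nat_lit 0x1109000000000007)) e e))))))))
 (c (b (nat_lit 0x7919fffffffe5)) e
 (c z e
 (c (a (nat_lit 0x1fbfddd5eb8006))
 (c (a (nat_lit 0xbaaa88a8512c6e8)) e
 (c (a (nat_lit 0x1451f0ce30800008)) e e))
 (c (a (nat_lit 0x14f40be0326086))
 (c (a (nat_lit 0x10c9ebc7e0000007)) e e)
 (c (a (nat_lit 0x13965231b2a3e6)) e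
 (c (a (nat_lit 0x16604080681424)) e
 (c (a (nat_lit 0x2a2e283304d25)) e
 (c (a (nat_lit 0x40202712c906)) e
 (c (a (nat_lit 0x1e1e831942286)) e
 (c (a (nat_lit 0xcafd809d4a007)) e e))))))))))))
 (c (a (nat_lit 0x2020358c66))
 (c (b (nat_lit 0xeaebff2dfffe5)) e
 (c z e
 (c z e
 (c z e
 (c z e
 (c z e
 (c (a (nat_lit 0x1288684b6728c6)) e
 (c (b (nat_lit 0x100e0a91ff7e6)) e
 (c (b (nat_lit 0x206785f81fe6)) e e)))))))))
 (c (a (nat_lit 0x46472eb4b07))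
 (c (a (nat_lit 0xf56d2c87b8fc6))
 (c z e
 (c (a (nat_lit 0x1d52f27451525189)) e e))
 (c (a (nat_lit 0x11908a6809a027))
 (c (a (nat_lit 0x1e9d7cfffc358c08)) e e)
 (c z e
 (c z e
 (c z e
 (c (a (nat_lit 0xeb214916ecd26)) e
 (c (a (nat_lit 0x100ff66a4af3c6)) e
 (c (b (nat_lit 0x5a8e8ffe6d8a7)) e
 (c z e
 (c z e
 (c (a (nat_lit 0x1478d8c0000007)) e
 (c (a (nat_lit 0x11c00000000006)) e e))))))))))))
 (c (a (nat_lit 0x3d32625c5a7))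
 (c (a (nat_lit 0xead027146e307))
 (c (a (nat_lit 0x197838ced48c68e6)) e e)
 (c z e
 (c z e
 (c (a (nat_lit 0x1146617118b8e7)) e
 (c (a (nat_lit 0x10b1597d68d87)) e
 (c (a (nat_lit 0x9d771beb349c7)) e
 (c z e
 (c z e
 (c (a (nat_lit 0x10fa1271c00007)) e
 (c (a (nat_lit 0x181ec000000006)) e e))))))))))
 (c (a (nat_lit 0x19a384624225))
 (c (a (nat_lit 0x9a028c5704ac7)) e
 (c (a (nat_lit 0x1c2602f66c8386)) e
 (c z e
 (c z e
 (c z e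
 (c (b (nat_lit 0x1ffff1e4dfe806)) e
 (c (a (nat_lit 0x905f9d44a0007)) e e)))))))
 (c (a (nat_lit 0x1fdb51d191a3))
 (c (a (nat_lit 0x46a30560f764)) e
 (c z e
 (c z e
 (c (b (nat_lit 0x1febf2ffeba086)) e
 (c (b (nat_lit 0x1ff0f98e8b2346)) e
 (c (a (nat_lit 0x232b2e4000007)) e e))))))
 (c (a (nat_lit 0x169272729164))
 (c z e
 (c z e
 (c (a (nat_lit 0xa48bbc2240027)) e
 (c (a (nat_lit 0x95ae32600c007)) e
 (c (a (nat_lit 0x1b5023e0000007)) e e)))))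
 (c (a (nat_lit 0x14b4b4d28a64))
 (c (a (nat_lit 0xc75c95581a1e6)) e
 (c (a (nat_lit 0x10e0c2c100a027)) e
 (c (a (nat_lit 0x10432321000007)) e
 (c (a (nat_lit 0x1961e000000006)) e e))))
 (c (a (nat_lit 0x11c1e20342e3))
 (c (a (nat_lit 0x1ed37423c1c003)) e
 (c (a (nat_lit 0x145fe960000001)) e
 (c (a (nat_lit 0xb200000000001)) e e)))
 (c (a (nat_lit 0x20c20242a1)) e
 (c (a (nat_lit 0x6060a2a1)) e
 (c (a (nat_lit 0x20409083)) e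
 (c (a (nat_lit 0xf5676989a06)) e
 (c (a (nat_lit 0x16b437f970e6)) e
 (c (a (nat_lit 0xd14b7a68685)) e
 (c (a (nat_lit 0xe3120202845)) e
 (c (a (nat_lit 0x112020286845)) e
 (c (a (nat_lit 0xc040e040a1)) e
 (c (a (nat_lit 0x80400001)) e
 (c (a (nat_lit 0x4000000001)) e e)))))))))))))))))))))) Tr.c Tr.e (nat_lit 0) C.cx C.cy
noncomputable def C302 : Tr := beta% (fun (c : Nat → Tr → Tr → Tr) (e : Tr) (z : Nat) (a b : Nat → Nat) =>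
 (c (nat_lit 1)
 (c (nat_lit 1) C301
 (c (a (nat_lit 0x20202001))
 (c (a (nat_lit 0x20203f73a6))
 (c (a (nat_lit 0xa0a2e6b7836a5))
 (c (a (nat_lit 0x929cc7193f68ba7))
 (c (a (nat_lit 0x5e445a8faccee6468)) e e)
 (c z e
 (c z e
 (c (a (nat_lit 0x1351733131d1902a)) e
 (c (a (nat_lit 0x11728b6d8f2baaa9)) e
 (c (a (nat_lit 0x12e6a60828e3a128)) e
 (c (a (nat_lit 0x711866da0c06006)) e
 (c z e
 (c (a (nat_lit 0x15d2e00000000006)) e e)))))))))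
 (c z e
 (c z e
 (c (a (nat_lit 0x11f59594202be9))
 (c z e
 (c z e
 (c (a (nat_lit 0x114eee4b8960000a)) e e)))
 (c (a (nat_lit 0x1473b2ecc4eb28))
 (c (a (nat_lit 0x195094cc3dc9c008)) e
 (c (a (nat_lit 0x1e7c757880000008)) e e))
 (c (a (nat_lit 0x11b2b050a32827)) e
 (c (a (nat_lit 0xeacad2dc47147)) e
 (c (a (nat_lit 0x20363b93c4763)) e
 (c (a (nat_lit 0x7a7a7a8cb7146)) e
 (c (a (nat_lit 0x4021086657e7)) e
 (c (a (nat_lit 0x283696a60d408)) e e)))))))))))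
 (c (a (nat_lit 0x2036ceeee8))
 (c z e
 (c z e
 (c z e
 (c z e
 (c z e
 (c z e
 (c z e
 (c (b (nat_lit 0x6a56dbff1a107)) e e))))))))
 (c z e
 (c (a (nat_lit 0x1790f1ab2b28))
 (c z e
 (c z e
 (c (b (nat_lit 0x7c1bfe9b2d169)) e
 (c z e
 (c z e
 (c z e
 (c z e
 (c (a (nat_lit 0x986910e66000a)) e e))))))))
 (c (a (nat_lit 0x10f150906be6))
 (c (b (nat_lit 0x1fe640abf3ef27)) e
 (c (a (nat_lit 0x768745411eee8)) e
 (c z e
 (c z e
 (c z e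
 (c (b (nat_lit 0xaf718dfe8c708)) e
 (c (a (nat_lit 0x5133487400009)) e e)))))))
 (c (a (nat_lit 0x1bb95954d506))
 (c (a (nat_lit 0x7f46becad64c7)) e
 (c z e
 (c z e
 (c (b (nat_lit 0xc0fdff6698808)) e
 (c (a (nat_lit 0xefcf2ca650008)) e
 (c (a (nat_lit 0x10d12260000009)) e e))))))
 (c (a (nat_lit 0x1252502faea7))
 (c z e
 (c z e
 (c (b (nat_lit 0xc7ff33024c148)) e
 (c (a (nat_lit 0x14695164600008)) e
 (c (a (nat_lit 0x1ce7a000000008)) e e)))))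
 (c (a (nat_lit 0x116303234345))
 (c (b (nat_lit 0x49ff62740e027)) e
 (c (b (nat_lit 0x1fe6b4c2408006)) e
 (c (b (nat_lit 0x1ff5e600000006)) e e)))
 (c (a (nat_lit 0x3050261a1))
 (c (a (nat_lit 0x114afa2e00005)) e
 (c (a (nat_lit 0x13044000000005)) e e))
 (c (a (nat_lit 0xa1017de3)) e
 (c (a (nat_lit 0x2e2f1935847)) e
 (c (a (nat_lit 0xaabb3177748)) e
 (c z e
 (c z e
 (c (a (nat_lit 0x1e9dd7c02de6)) e
 (c (a (nat_lit 0x1dd7c02e0e06)) e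
 (c (a (nat_lit 0x11a020202026)) e
 (c (a (nat_lit 0x80e0e0c001)) e
 (c (a (nat_lit 0xe0000001)) e e)))))))))))))))))))
 C300))
 (c (a (nat_lit 0x202001))
 (c (a (nat_lit 0x20204001))
 (c (a (nat_lit 0x3a3b6b332a7))
 (c (a (nat_lit 0xfafb092b45226))
 (c (a (nat_lit 0x19db1e9efe7adc46)) e
 (c z e
 (c z e
 (c (a (nat_lit 0xeaeef308f8c8ae9)) e
 (c (a (nat_lit 0x1b4dd53e336d8507)) e
 (c (a (nat_lit 0xaefb0f2a9432266)) e
 (c (a (nat_lit 0x13ae8c25a2600006)) e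
 (c (a (nat_lit 0xff1054000000006)) e e))))))))
 (c z e
 (c z e
 (c (a (nat_lit 0x1138d747d1cda8))
 (c z e
 (c (a (nat_lit 0x11ee2eeb4dc8600a)) e
 (c (a (nat_lit 0x1e7cf1f2a0000008)) e e)))
 (c (a (nat_lit 0x18d87823cdce07))
 (c (a (nat_lit 0x18794ffecbe00007)) e
 (c (a (nat_lit 0x14ceb0a000000007)) e e))
 (c (a (nat_lit 0xed2b365897b66)) e
 (c (a (nat_lit 0x1333948ed729c6)) e
 (c (a (nat_lit 0xecf128e439005)) e
 (c (b (nat_lit 0xd0c4f111ff4e6)) e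
 (c (a (nat_lit 0x464a90e95b5e7)) e
 (c (a (nat_lit 0x82c33ca0f6fe7)) e e)))))))))))
 (c z e
 (c z e
 (c (a (nat_lit 0x1fdedd9d72e5))
 (c (a (nat_lit 0x2704300c49688))
 (c (a (nat_lit 0x1348a2c8c8e00008)) e e)
 (c (b (nat_lit 0x15fe0816f5709)) e
 (c (b (nat_lit 0x1ffff292bc49c8)) e
 (c z e
 (c z e
 (c z e
 (c z e
 (c (a (nat_lit 0x61f592e400009)) e e))))))))
 (c (a (nat_lit 0x10d1110e6d07))
 (c (a (nat_lit 0x3026045526ba8)) e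
 (c (a (nat_lit 0x55410fa905148)) e
 (c z e
 (c z e
 (c z e
 (c (a (nat_lit 0x1192698b490009)) e
 (c (a (nat_lit 0x129046a0000009)) e e)))))))
 (c (a (nat_lit 0x15350d0d0d06))
 (c (b (nat_lit 0x12c28842ffec07)) e
 (c z e
 (c z e
 (c (b (nat_lit 0x59ff6a1c8e2a7)) e
 (c (a (nat_lit 0x19952527000007)) e
 (c (a (nat_lit 0x19428000000008)) e e))))))
 (c (a (nat_lit 0x1b5333333326))
 (c z e
 (c z e
 (c (a (nat_lit 0xf578a812007)) e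
 (c (a (nat_lit 0x2f0e840000007)) e
 (c (a (nat_lit 0x15400000000006)) e e)))))
 (c (a (nat_lit 0x1a24262c1))
 (c (a (nat_lit 0x1d0050120a0a7)) e
 (c (a (nat_lit 0x2999fe9a00005)) e
 (c (a (nat_lit 0x4574000000003)) e e)))
 (c (a (nat_lit 0x1a2427401))
 (c (a (nat_lit 0xb7a4e40000005)) e
 (c (a (nat_lit 0x1d400000000004)) e e))
 (c (a (nat_lit 0x1212a6b16e6)) e
 (c (a (nat_lit 0x205cff371e8)) e
 (c z e
 (c z e
 (c (a (nat_lit 0x1796374a5107)) e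
 (c (a (nat_lit 0x17fa202dcdc6)) e
 (c (a (nat_lit 0x18e020202025)) e
 (c (a (nat_lit 0xc140c001)) e
 (c (a (nat_lit 0x61e0600001)) e
 (c (a (nat_lit 0xe000000001)) e e)))))))))))))))))))
 C299)
 (c (a (nat_lit 0x202021)) C298
 C297)))) Tr.c Tr.e (nat_lit 0) C.cx C.cy
noncomputable def C303 : Tr := beta% (fun (c : Nat → Tr → Tr → Tr) (e : Tr) (z : Nat) (a b : Nat → Nat) =>
 (c (nat_lit 1)
 (c (a (nat_lit 0x1484))
 (c (a (nat_lit 0x18484041ae4)) e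
 (c (a (nat_lit 0xa1e1e91826)) e
 (c (a (nat_lit 0x666693154a7)) e
 (c z e
 (c (a (nat_lit 0x121e7f6b8867)) e
 (c (a (nat_lit 0x1345a18f41e7)) e
 (c (a (nat_lit 0x198d86e3bfc7)) e
 (c (a (nat_lit 0xab8588da006)) e
 (c (a (nat_lit 0x1c2100000003)) e e)))))))))
 (c (a (nat_lit 0x349945))
 (c (a (nat_lit 0x22123ac6)) e
 (c z e
 (c z e
 (c (a (nat_lit 0x15da4ac5ca08)) e
 (c (a (nat_lit 0x3c828c09169)) e
 (c (a (nat_lit 0xf83e8b92dc8)) e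
 (c (a (nat_lit 0x8de25200006)) e
 (c (a (nat_lit 0x1dc000000003)) e e))))))))
 (c (a (nat_lit 0x893afe6e7)) e
 (c z e
 (c (a (nat_lit 0x1264802006))
 (c (a (nat_lit 0x82b768e4028)) e
 (c (a (nat_lit 0x87a36e38009)) e e))
 (c (a (nat_lit 0xce020f545))
 (c (a (nat_lit 0x10ea63600009)) e e)
 (c (a (nat_lit 0x20349465)) e
 (c (b (nat_lit 0x1ff5355485)) e
 (c (a (nat_lit 0x2e2216001)) e
 (c (a (nat_lit 0x1b3a804283)) e
 (c (b (nat_lit 0x187e99ffe4)) e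
 (c (a (nat_lit 0x102ee2ad26)) e
 (c z e
 (c (b (nat_lit 0x1fe020f862)) e
 (c (a (nat_lit 0x120c06001)) e
 (c (a (nat_lit 0xe04001)) e
 (c (a (nat_lit 0x2a0000001)) e e)))))))))))))))))
 (c (a (nat_lit 0x202021))
 (c (b (nat_lit 0x34debfe4))
 (c (a (nat_lit 0x2a923465)) e
 (c z e
 (c z e
 (c (a (nat_lit 0x144725283d87)) e
 (c (a (nat_lit 0xf29a18e92c8)) e
 (c (a (nat_lit 0x802b855e007)) e
 (c (a (nat_lit 0x1e81a0000005)) e e)))))))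
 (c z e
 (c (a (nat_lit 0x1062402006))
 (c (a (nat_lit 0xc2e8c611bc8)) e e)
 (c (a (nat_lit 0x700203485))
 (c (a (nat_lit 0x31502a280c9)) e
 (c (a (nat_lit 0x10e842c0000a)) e e))
 (c (a (nat_lit 0x20549085))
 (c (a (nat_lit 0x176520000008)) e e)
 (c (a (nat_lit 0x131312c6)) e
 (c (a (nat_lit 0x3a2a08001)) e
 (c (a (nat_lit 0x1d5cc02003)) e
 (c (b (nat_lit 0x175d5cdfe4)) e
 (c (b (nat_lit 0x14947ff205)) e
 (c z e
 (c (b (nat_lit 0x1fe523a021)) e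
 (c (a (nat_lit 0x44240a001)) e
 (c (a (nat_lit 0x3a1604021)) e
 (c (a (nat_lit 0x260600001)) e e)))))))))))))))
 (c (a (nat_lit 0x202021))
 (c (a (nat_lit 0x1d82a02004))
 (c (a (nat_lit 0x14ccebea4026)) e
 (c (a (nat_lit 0x9ae50091087)) e e))
 (c (a (nat_lit 0x3402074a5))
 (c (a (nat_lit 0x1b1cfd1d76e6)) e e)
 (c (a (nat_lit 0x20548d25))
 (c (a (nat_lit 0x1e42c4a16008)) e
 (c (a (nat_lit 0x1d6680000008)) e e))
 (c (a (nat_lit 0xbedede65))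
 (c (a (nat_lit 0x128000000006)) e e)
 (c (a (nat_lit 0x503c16001)) e
 (c (a (nat_lit 0x1efe208e42)) e
 (c (b (nat_lit 0x1012f25fe5)) e
 (c (b (nat_lit 0x112fbfe783)) e
 (c z e
 (c (b (nat_lit 0x1ff7d675a2)) e
 (c (a (nat_lit 0x340e08001)) e
 (c (a (nat_lit 0x160e04001)) e
 (c (a (nat_lit 0x160804001)) e
 (c (a (nat_lit 0x20000001)) e e))))))))))))))
 (c (a (nat_lit 0x2021))
 (c (a (nat_lit 0x547384))
 (c (a (nat_lit 0x126eda2ac9c5)) e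
 (c (a (nat_lit 0x1e88c462a007)) e
 (c (a (nat_lit 0x198300000007)) e e)))
 (c (a (nat_lit 0x54748063))
 (c (a (nat_lit 0x167542c00005)) e
 (c (a (nat_lit 0x162000000005)) e e))
 (c (a (nat_lit 0x16b2930001)) e
 (c (a (nat_lit 0x201ee32c6)) e
 (c (a (nat_lit 0x24f51ab47)) e
 (c (a (nat_lit 0x1072c612c6)) e
 (c z e
 (c (b (nat_lit 0x1fe4410021)) e
 (c (a (nat_lit 0x14d4742404)) e
 (c (a (nat_lit 0x182081a462)) e
 (c (a (nat_lit 0xa20221)) e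
 (c (a (nat_lit 0x400001)) e e))))))))))))
 (c (nat_lit 1)
 (c (a (nat_lit 0x101006001))
 (c (a (nat_lit 0x104080000003)) e e)
 (c (a (nat_lit 0x40a09344)) e
 (c (a (nat_lit 0x2f13c726)) e
 (c z e
 (c z e
 (c (b (nat_lit 0x1fe1808161)) e
 (c (a (nat_lit 0x100856001)) e
 (c (a (nat_lit 0x12c0402003)) e
 (c (a (nat_lit 0x1a0a0b3a2)) e
 (c (a (nat_lit 0x806001)) e
 (c (nat_lit 1) e e)))))))))))
 (c (nat_lit 1)
 (c (a (nat_lit 0x537399326)) e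
 (c z e
 (c z e
 (c (b (nat_lit 0x1fe7c48161)) e
 (c (a (nat_lit 0x1d5d3d4ec6)) e
 (c (a (nat_lit 0x1a60608004)) e
 (c (a (nat_lit 0xc63026401)) e
 (c (a (nat_lit 0xa1005802)) e
 (c (a (nat_lit 0x400001)) e e)))))))))
 (c (a (nat_lit 0x202021))
 (c z e
 (c (a (nat_lit 0x1518585868)) e
 (c (a (nat_lit 0x20606001)) e
 (c (a (nat_lit 0x1004001)) e
 (c (a (nat_lit 0x1c0600001)) e
 (c (a (nat_lit 0x181c5a1)) e
 (c (a (nat_lit 0x40a001)) e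
 (c (a (nat_lit 0x20000001)) e e))))))))
 (c (a (nat_lit 0x202021))
 (c (a (nat_lit 0x42224081)) e
 (c (a (nat_lit 0x1520814361)) e
 (c (a (nat_lit 0x4081c1)) e
 (c (a (nat_lit 0x212141)) e
 (c (a (nat_lit 0xa0c121)) e
 (c (a (nat_lit 0x800001)) e e))))))
 (c (a (nat_lit 0x202021))
 (c (a (nat_lit 0x202021)) e
 (c (a (nat_lit 0x20202021)) e
 (c (a (nat_lit 0x20202021)) e
 (c (a (nat_lit 0x20202001)) e
 (c (a (nat_lit 0x20000001)) e e)))))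
 (c (a (nat_lit 0x202021))
 (c (a (nat_lit 0x20202021)) e
 (c (a (nat_lit 0x20202021)) e
 (c (a (nat_lit 0x20200001)) e e)))
 (c (a (nat_lit 0x202021))
 (c (a (nat_lit 0x20202001)) e
 (c (a (nat_lit 0x20000001)) e e))
 (c (a (nat_lit 0x202021)) e
 (c (a (nat_lit 0x202021)) e
 (c (a (nat_lit 0x202021)) e
 (c (a (nat_lit 0x202021)) e
 (c (a (nat_lit 0x204041)) e
 (c (nat_lit 1) e
 (c (a (nat_lit 0x3de5)) e
 (c (a (nat_lit 0x3e02e5)) e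
 (c z e
 (c (a (nat_lit 0x13a04002)) e
 (c (a (nat_lit 0xc0a001)) e
 (c (a (nat_lit 0x1a02001)) e
 (c (a (nat_lit 0x1202001)) e e))))))))))))))))))))))))) Tr.c Tr.e (nat_lit 0) C.cx C.cy
noncomputable def C304 : Tr := beta% (fun (c : Nat → Tr → Tr → Tr) (e : Tr) (z : Nat) (a b : Nat → Nat) =>
 (c (a (nat_lit 0x202021))
 (c (a (nat_lit 0x40402021))
 (c (a (nat_lit 0x44464a815a4))
 (c (a (nat_lit 0x5254ea850c885)) e
 (c z e
 (c z e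
 (c (b (nat_lit 0x195fede6426d45)) e
 (c (a (nat_lit 0x11ed9ca7e36006)) e
 (c (a (nat_lit 0x13adae0000004)) e e))))))
 (c (a (nat_lit 0xdf352548ea7)) e
 (c z e
 (c (a (nat_lit 0xc7226e6e6c6)) e
 (c (a (nat_lit 0x166060404445)) e
 (c (a (nat_lit 0x2e2ec8e16c7)) e
 (c (a (nat_lit 0x50f30320d68)) e
 (c z e
 (c (a (nat_lit 0x16b5d493a008)) e
 (c (a (nat_lit 0x106f2f27c2a8)) e
 (c (a (nat_lit 0x20605a5aa4)) e
 (c (a (nat_lit 0x141622001)) e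
 (c (a (nat_lit 0xc0000001)) e e)))))))))))))
 (c (a (nat_lit 0x200001))
 (c z e
 (c (a (nat_lit 0x19b5e041e485))
 (c (b (nat_lit 0x1feaf07cadc627)) e
 (c (a (nat_lit 0x7eeba67c00008)) e e))
 (c (a (nat_lit 0xc0051d1d6e6))
 (c (a (nat_lit 0x1127eec0000006)) e e)
 (c (b (nat_lit 0x9291d5fffe5)) e
 (c z e
 (c z e
 (c z e
 (c (b (nat_lit 0x1354f3c5dfe9)) e
 (c (a (nat_lit 0x1453b4aaaeaa)) e
 (c (a (nat_lit 0xb1bc0381807)) e
 (c (a (nat_lit 0x1e6060400004)) e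
 (c (a (nat_lit 0xc000000001)) e e))))))))))))
 (c (a (nat_lit 0x20404041))
 (c (a (nat_lit 0xfc0402639a4))
 (c (b (nat_lit 0x15bff8b846c004)) e
 (c (b (nat_lit 0x1ff733c0000005)) e e))
 (c (a (nat_lit 0x56546c67b66))
 (c (a (nat_lit 0xe50a000000005)) e e)
 (c z e
 (c z e
 (c z e
 (c z e
 (c z e
 (c z e
 (c (a (nat_lit 0x1e2204330006)) e
 (c (a (nat_lit 0x5a60000003)) e e))))))))))
 (c (a (nat_lit 0xe0e121e1))
 (c (a (nat_lit 0xbabc0d64bc5))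
 (c (a (nat_lit 0x16800000000003)) e e)
 (c z e
 (c (a (nat_lit 0x12557a376f27)) e
 (c z e
 (c z e
 (c z e
 (c (a (nat_lit 0x185844e02ea7)) e
 (c (a (nat_lit 0x122787400005)) e
 (c (a (nat_lit 0x2000000001)) e e)))))))))
 (c (a (nat_lit 0x20203ca7))
 (c (a (nat_lit 0x6ecc6015745)) e
 (c (a (nat_lit 0x9abd8580e07)) e
 (c z e
 (c z e
 (c (a (nat_lit 0xcece235026)) e
 (c (a (nat_lit 0x192fe12bc007)) e
 (c (a (nat_lit 0xcc0e0000001)) e e)))))))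
 (c (a (nat_lit 0x3f89e7))
 (c (a (nat_lit 0x6e6ec093088)) e
 (c z e
 (c z e
 (c (b (nat_lit 0x1fe6ab576f68)) e
 (c (a (nat_lit 0x1a97f2800006)) e
 (c (a (nat_lit 0x1dc000000004)) e e))))))
 (c (a (nat_lit 0x5728f6ae8)) e
 (c z e
 (c (a (nat_lit 0x12a5c02006)) e
 (c (a (nat_lit 0x1580605444)) e
 (c (a (nat_lit 0x2c3018001)) e
 (c (a (nat_lit 0x122222041)) e
 (c (a (nat_lit 0x2212101c1)) e
 (c (a (nat_lit 0x609b82)) e
 (c (a (nat_lit 0x613ba1c2)) e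
 (c (b (nat_lit 0x9b615fe2)) e
 (c z e
 (c (a (nat_lit 0x1b61008043)) e
 (c (a (nat_lit 0x160e0e001)) e
 (c (a (nat_lit 0x20000001)) e e))))))))))))))))))))
 (c (a (nat_lit 0x202021))
 (c (a (nat_lit 0x20202021))
 (c (a (nat_lit 0x1e8a66a6a683))
 (c z e
 (c (a (nat_lit 0x21093be1e224)) e
 (c (a (nat_lit 0x2052c2c00006)) e e)))
 (c (a (nat_lit 0x82619874a1))
 (c (a (nat_lit 0x1fbb488763e005)) e
 (c (a (nat_lit 0x102f2800000007)) e e))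
 (c (a (nat_lit 0x2a282803066))
 (c (a (nat_lit 0x1c82c000000005)) e e)
 (c (a (nat_lit 0x6a6a791d807)) e
 (c z e
 (c z e
 (c (a (nat_lit 0xc3917eae048)) e
 (c (b (nat_lit 0x1415eedfffe8)) e
 (c (a (nat_lit 0xf55880544a8)) e
 (c (a (nat_lit 0x16c580202007)) e
 (c (a (nat_lit 0x15c020000005)) e e)))))))))))
 (c (a (nat_lit 0x20202021))
 (c (a (nat_lit 0x202604bf24))
 (c (a (nat_lit 0x14c05323600005)) e
 (c (a (nat_lit 0x179b4000000005)) e e))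
 (c (a (nat_lit 0x606c0237567))
 (c (a (nat_lit 0x17a00000000004)) e e)
 (c (a (nat_lit 0x1e225ae11e8)) e
 (c z e
 (c z e
 (c (a (nat_lit 0xfb24c614589)) e
 (c (a (nat_lit 0x102ce6a26449)) e
 (c (a (nat_lit 0x16c66362e2a8)) e
 (c (a (nat_lit 0x1fc720400005)) e
 (c (a (nat_lit 0x1ba000000003)) e e))))))))))
 (c (a (nat_lit 0x1485))
 (c (a (nat_lit 0x40404d3d46)) e
 (c z e
 (c z e
 (c z e
 (c (a (nat_lit 0x1b98d7d24788)) e
 (c (a (nat_lit 0xf4fc3ea9ce8)) e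
 (c (a (nat_lit 0x1f68a9a5e007)) e
 (c (a (nat_lit 0x132760000005)) e e))))))))
 (c (a (nat_lit 0x203c6227))
 (c z e
 (c z e
 (c z e
 (c z e
 (c z e
 (c (a (nat_lit 0xf8953600007)) e
 (c (a (nat_lit 0x106000000005)) e e)))))))
 (c (a (nat_lit 0x85b87e448))
 (c (a (nat_lit 0xd51cc10b148)) e
 (c z e
 (c z e
 (c z e
 (c (a (nat_lit 0x106e40000008)) e e)))))
 (c z e
 (c (a (nat_lit 0x1651402005))
 (c (a (nat_lit 0x95558638008)) e e)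
 (c (a (nat_lit 0xf60203485)) e
 (c (a (nat_lit 0x2054b4a5)) e
 (c (a (nat_lit 0x61e24001)) e
 (c (a (nat_lit 0x2a1602001)) e
 (c (a (nat_lit 0x2412060e1)) e
 (c (a (nat_lit 0xd98346dc7)) e
 (c (a (nat_lit 0x1b76089186)) e
 (c z e
 (c (b (nat_lit 0x1fe1c06001)) e
 (c (a (nat_lit 0x1c0c06021)) e
 (c (a (nat_lit 0x381a00001)) e e))))))))))))))))))
 C303))) Tr.c Tr.e (nat_lit 0) C.cx C.cy
noncomputable def C305 : Tr := beta% (fun (c : Nat → Tr → Tr → Tr) (e : Tr) (z : Nat) (a b : Nat → Nat) =>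
 (c (a (nat_lit 0x20202021))
 (c (a (nat_lit 0x166e8f636186))
 (c (b (nat_lit 0x12106f3fe0a026))
 (c (a (nat_lit 0x1050950aad12cc06)) e
 (c (a (nat_lit 0x11520f2e4e89ece8)) e e))
 (c (a (nat_lit 0x1156aa05205587))
 (c (a (nat_lit 0x199a1a76501a93c8)) e e)
 (c z e
 (c z e
 (c z e
 (c (a (nat_lit 0x50b9299b654a6)) e
 (c (a (nat_lit 0x868b16fd24027)) e e)))))))
 (c (a (nat_lit 0x1775d490f0e6))
 (c (a (nat_lit 0x14b0232099bbe7))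
 (c (a (nat_lit 0x1358b6505afb3868)) e e)
 (c z e
 (c z e
 (c (a (nat_lit 0x24e4fd39cbca8)) e
 (c (a (nat_lit 0x666a16da0067)) e
 (c z e
 (c z e
 (c z e
 (c (a (nat_lit 0xc2edb49c00009)) e e)))))))))
 (c (a (nat_lit 0x1520e0f46002)) e
 (c (a (nat_lit 0xe7893939245)) e
 (c (a (nat_lit 0x135212321205)) e
 (c (a (nat_lit 0x1595f6567763))
 (c (a (nat_lit 0x180b9c8fe56026)) e e)
 (c (a (nat_lit 0x20e0f126))
 (c (b (nat_lit 0x1ff66fc1410007)) e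
 (c (a (nat_lit 0x124500c0000008)) e e))
 (c (a (nat_lit 0xb6ecf56f1c7))
 (c (a (nat_lit 0x12a2c000000005)) e e)
 (c z e
 (c (a (nat_lit 0xb5058b59288)) e
 (c z e
 (c z e
 (c (a (nat_lit 0x1e7ac0a36026)) e
 (c (a (nat_lit 0x1a0080203766)) e
 (c (a (nat_lit 0x8020377786)) e
 (c (a (nat_lit 0xe121e1c001)) e
 (c (a (nat_lit 0x4100000001)) e e)))))))))))))))))
 (c (a (nat_lit 0x20202021))
 (c (a (nat_lit 0x120e6e4fa085))
 (c (a (nat_lit 0x1cd61554df3ec6))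
 (c (a (nat_lit 0xa8ca88cd0ea6528)) e
 (c (a (nat_lit 0x13497dde87000008)) e e))
 (c (b (nat_lit 0x77fee8e0e58e8))
 (c (a (nat_lit 0x7a8ec1e0000008)) e e)
 (c (a (nat_lit 0x764022274a9a9)) e
 (c (a (nat_lit 0xead6cba1d37e8)) e
 (c (b (nat_lit 0x26050fb0bdfe7)) e
 (c z e
 (c z e
 (c z e
 (c (a (nat_lit 0x8518a20000009)) e e)))))))))
 (c z e
 (c z e
 (c (a (nat_lit 0x163637777667))
 (c z e
 (c (b (nat_lit 0xd311fe5659fe9)) e e))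
 (c (a (nat_lit 0x282a4247966))
 (c (b (nat_lit 0x16c28503bfffe8)) e e)
 (c (b (nat_lit 0x1bff4ed26)) e
 (c z e
 (c z e
 (c (a (nat_lit 0xe32d6f85389)) e
 (c z e
 (c z e
 (c (a (nat_lit 0x10a6c24029c8)) e
 (c (a (nat_lit 0xd4480339367)) e
 (c (a (nat_lit 0x20241c12021)) e
 (c (a (nat_lit 0x4160600001)) e
 (c (a (nat_lit 0x2000000001)) e e))))))))))))))))
 (c (a (nat_lit 0x40404041))
 (c (a (nat_lit 0x8834342a441))
 (c (a (nat_lit 0x100a100352026)) e e)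
 (c (a (nat_lit 0x20c1015023)) e
 (c (a (nat_lit 0x21c27786)) e
 (c z e
 (c z e
 (c (a (nat_lit 0x15fb1ad7b828)) e
 (c z e
 (c z e
 (c z e
 (c z e
 (c (a (nat_lit 0x14d7c057d806)) e
 (c (a (nat_lit 0x183c3ab8f81)) e
 (c (b (nat_lit 0x1ff90140e002)) e
 (c (a (nat_lit 0x102080000002)) e e))))))))))))))
 (c (a (nat_lit 0x60606061))
 (c (a (nat_lit 0xbabb9395606)) e
 (c z e
 (c z e
 (c z e
 (c (a (nat_lit 0x12545dbab8a8)) e
 (c z e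
 (c z e
 (c z e
 (c z e
 (c z e
 (c (a (nat_lit 0x17cdad8dad87)) e
 (c (a (nat_lit 0x5c1200001)) e
 (c (a (nat_lit 0x2000000001)) e e)))))))))))))
 (c (a (nat_lit 0x202021))
 (c z e
 (c (a (nat_lit 0x15bbb73599a7))
 (c (a (nat_lit 0x1505ee46c00008)) e e)
 (c z e
 (c z e
 (c z e
 (c (a (nat_lit 0xd0a1910b1e8)) e
 (c z e
 (c z e
 (c (b (nat_lit 0x1fffff02a2e5)) e
 (c (a (nat_lit 0x6f203c06006)) e
 (c (a (nat_lit 0x122020000005)) e e)))))))))))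
 (c (a (nat_lit 0x40606041))
 (c (a (nat_lit 0x177292334d66))
 (c (a (nat_lit 0x15142ba0000005)) e e)
 (c z e
 (c z e
 (c (a (nat_lit 0xf43c249fc86)) e
 (c (a (nat_lit 0x5a5a82bf988)) e
 (c z e
 (c z e
 (c (a (nat_lit 0x1319e4404026)) e
 (c (a (nat_lit 0x142040200006)) e
 (c (a (nat_lit 0x38000000001)) e e))))))))))
 (c (a (nat_lit 0x40404041))
 (c (a (nat_lit 0xf956a02c066)) e
 (c (a (nat_lit 0x11c2e0a380e6)) e
 (c (a (nat_lit 0x1c0880fb887)) e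
 (c (a (nat_lit 0x8e9d035ba27)) e
 (c z e
 (c z e
 (c (a (nat_lit 0x13ee004d8006)) e
 (c (a (nat_lit 0x174c0000005)) e e))))))))
 (c (a (nat_lit 0x606061))
 (c (a (nat_lit 0xe0d59e14584)) e
 (c (b (nat_lit 0x1dfe482effe5)) e e))
 (c (a (nat_lit 0x1aa6))
 (c (a (nat_lit 0x8cd0f221f25)) e
 (c (a (nat_lit 0x504b1e5a027)) e e))
 (c (a (nat_lit 0x203c5486))
 (c (a (nat_lit 0x140ee6074e8)) e e)
 (c (a (nat_lit 0x95d1a1487)) e
 (c z e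
 (c (a (nat_lit 0x156c4bc826)) e
 (c (a (nat_lit 0x13d1f1d1c4)) e
 (c (a (nat_lit 0x221a20001)) e
 (c (a (nat_lit 0x19010301a1)) e
 (c (a (nat_lit 0x806001)) e
 (c (a (nat_lit 0xa06361)) e
 (c (a (nat_lit 0x205a05)) e
 (c (a (nat_lit 0x141b4ed85)) e
 (c z e
 (c (a (nat_lit 0x19b6084006)) e
 (c (a (nat_lit 0x1b80000005)) e e)))))))))))))))))))))))) Tr.c Tr.e (nat_lit 0) C.cx C.cy
noncomputable def C306 : Tr := beta% (fun (c : Nat → Tr → Tr → Tr) (e : Tr) (z : Nat) (a b : Nat → Nat) =>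
 (c (a (nat_lit 0x2021))
 (c (a (nat_lit 0x2020348de6))
 (c (a (nat_lit 0x12525176f26985))
 (c (a (nat_lit 0x16f8381d1b78f7a6)) e
 (c z e
 (c z e
 (c z e
 (c (a (nat_lit 0x1a1acbd137920727)) e
 (c (a (nat_lit 0x1c85f7cd4c6de766)) e
 (c (b (nat_lit 0x10378fbf3fe30006)) e
 (c z e
 (c (a (nat_lit 0x19cae00000000005)) e e)))))))))
 (c z e
 (c z e
 (c z e
 (c (b (nat_lit 0xd8ed1ef3fffe7))
 (c (a (nat_lit 0x13f28b32774be008)) e
 (c (a (nat_lit 0x142a90ade0000008)) e e))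
 (c (b (nat_lit 0x66da4457ff2a5))
 (c (a (nat_lit 0x144745e000000006)) e e)
 (c (a (nat_lit 0x15b454d5bbc7e6)) e
 (c z e
 (c (a (nat_lit 0x1a7b374df2a542)) e
 (c (a (nat_lit 0x202060255406)) e
 (c (a (nat_lit 0xfd2b094824b46)) e e)))))))))))
 (c (a (nat_lit 0x203f1655a8)) e
 (c (a (nat_lit 0x1bcf8e4508)) e
 (c (a (nat_lit 0x122c6b202008)) e
 (c (a (nat_lit 0x11b5e0e06003))
 (c (b (nat_lit 0x1fffefa067d107)) e
 (c (b (nat_lit 0x1ff743eabcbfc7)) e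
 (c z e
 (c z e
 (c z e
 (c z e
 (c (a (nat_lit 0x3b84440800008)) e e)))))))
 (c (a (nat_lit 0x1bf615950784))
 (c (b (nat_lit 0xf25a3a6147fe6)) e
 (c z e
 (c z e
 (c z e
 (c (a (nat_lit 0x10cf8fa2e42008)) e
 (c (a (nat_lit 0x153027c0000008)) e e))))))
 (c (a (nat_lit 0x183855343426))
 (c z e
 (c z e
 (c z e
 (c (a (nat_lit 0x10e9a903200008)) e
 (c (a (nat_lit 0x10258000000008)) e e)))))
 (c (a (nat_lit 0x1210b0b0b0a8))
 (c z e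
 (c (b (nat_lit 0x1fe7f4cfe7a008)) e e))
 (c (a (nat_lit 0x323c245a1))
 (c (a (nat_lit 0x24773e5200005)) e
 (c (a (nat_lit 0xabe2000000004)) e e))
 (c (a (nat_lit 0x20274794a6)) e
 (c (a (nat_lit 0x82cacf36f87)) e
 (c z e
 (c z e
 (c z e
 (c (a (nat_lit 0xa68d12403e7)) e
 (c (a (nat_lit 0x9da60202006)) e
 (c (a (nat_lit 0x1a6040402006)) e
 (c (a (nat_lit 0x202a1408001)) e
 (c (a (nat_lit 0x3c1a0000001)) e e)))))))))))))))))))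
 (c (a (nat_lit 0x20202021))
 (c z e
 (c z e
 (c (a (nat_lit 0x1aad67a021e5)) e
 (c (b (nat_lit 0x52060551fe6)) e
 (c z e
 (c z e
 (c (a (nat_lit 0x11f200606006))
 (c (b (nat_lit 0x35515fe78167)) e
 (c (a (nat_lit 0xd0ab226000008)) e e))
 (c (a (nat_lit 0x2029aad467))
 (c (a (nat_lit 0x924960000006)) e e)
 (c (a (nat_lit 0xb928efd9aa7)) e
 (c z e
 (c z e
 (c z e
 (c z e
 (c (a (nat_lit 0x153e0620007)) e
 (c (a (nat_lit 0x140020202027)) e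
 (c (a (nat_lit 0x3a68641c041)) e
 (c (a (nat_lit 0x2a341400001)) e
 (c (a (nat_lit 0x1c000000001)) e e))))))))))))))))))
 (c (a (nat_lit 0x20202021))
 (c (a (nat_lit 0x1d8fc0602104))
 (c (b (nat_lit 0x1fffe320807585))
 (c (a (nat_lit 0xd29acd004506a47)) e e) e)
 (c (a (nat_lit 0x1aef6f34e1e5)) e
 (c z e
 (c z e
 (c (a (nat_lit 0x30222a761)) e
 (c (b (nat_lit 0x1fe021a1b226)) e
 (c (a (nat_lit 0x48acc144d47)) e
 (c z e
 (c z e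
 (c z e
 (c z e
 (c z e
 (c z e
 (c (a (nat_lit 0x861c3856801)) e
 (c (a (nat_lit 0x60663a001)) e
 (c (a (nat_lit 0x120000001)) e e))))))))))))))))
 (c (a (nat_lit 0x40404041))
 (c (a (nat_lit 0x14f535754484))
 (c (a (nat_lit 0xaf13150411086))
 (c (a (nat_lit 0x16dae9e000000006)) e e) e)
 (c z e
 (c (a (nat_lit 0x100e091a3)) e
 (c z e
 (c z e
 (c z e
 (c z e
 (c z e
 (c z e
 (c z e
 (c z e
 (c z e
 (c (a (nat_lit 0x1444c1018142)) e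
 (c (a (nat_lit 0x8c505400001)) e
 (c (nat_lit 1) e e)))))))))))))))
 (c (a (nat_lit 0x20202041))
 (c (a (nat_lit 0x181838385865))
 (c z e
 (c (a (nat_lit 0x124ff498e6c648)) e e))
 (c (a (nat_lit 0x16b6be3dbd47))
 (c (a (nat_lit 0x114abf4ef0cea8)) e e)
 (c z e
 (c z e
 (c z e
 (c z e
 (c (b (nat_lit 0x18f7be8ebfe8)) e
 (c z e
 (c z e
 (c z e
 (c (b (nat_lit 0x1fea7a006027)) e
 (c (b (nat_lit 0x1ff440c04006)) e
 (c (a (nat_lit 0x1080a0000006)) e e)))))))))))))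
 (c (a (nat_lit 0x60606081))
 (c (a (nat_lit 0x10f271553466))
 (c (a (nat_lit 0x35899ca8ebe6)) e e)
 (c z e
 (c z e
 (c z e
 (c (a (nat_lit 0x1371b76685e8)) e
 (c (a (nat_lit 0x1175cb6827e8)) e
 (c z e
 (c z e
 (c z e
 (c (b (nat_lit 0x1ff1c4404046)) e
 (c (a (nat_lit 0x1c4b00200005)) e
 (c (a (nat_lit 0x156000000004)) e e))))))))))))
 (c (a (nat_lit 0x2021))
 (c z e
 (c z e
 (c z e
 (c (a (nat_lit 0xb99c40404c7)) e
 (c (a (nat_lit 0x1fcaaac88d67)) e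
 (c z e
 (c z e
 (c z e
 (c (a (nat_lit 0x183290b12006)) e
 (c (a (nat_lit 0x3020000006)) e e))))))))))
 (c (a (nat_lit 0x40404061))
 (c (a (nat_lit 0x12b3fbe04026)) e
 (c (a (nat_lit 0x113a8040c027)) e
 (c (a (nat_lit 0x15e1822163c7)) e
 (c (a (nat_lit 0x15f010355766)) e e))))
 (c (a (nat_lit 0x40808081))
 (c (a (nat_lit 0x19a4e4e3e206)) e
 (c (a (nat_lit 0x1655248661a5)) e
 (c (a (nat_lit 0x60a2023206)) e e)))
 (c (a (nat_lit 0x20000001))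
 (c (a (nat_lit 0xbc0c70b5663)) e
 (c (a (nat_lit 0x20809387)) e e))
 (c (a (nat_lit 0x20001c46))
 (c (a (nat_lit 0x1b5f56e30002)) e e)
 (c (a (nat_lit 0x203ab405)) e
 (c (a (nat_lit 0xa1d5bb5c7)) e
 (c z e
 (c (a (nat_lit 0x1aaeee6e46)) e
 (c (a (nat_lit 0x1ad69639c3)) e
 (c (a (nat_lit 0x460581)) e
 (c (a (nat_lit 0x143a2e1)) e
 (c (a (nat_lit 0xa1c141)) e
 (c (a (nat_lit 0x804261)) e
 (c (a (nat_lit 0x207ba4)) e
 (c (a (nat_lit 0x1515187a07)) e e))))))))))))))))))))))) Tr.c Tr.e (nat_lit 0) C.cx C.cy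
noncomputable def C307 : Tr := beta% (fun (c : Nat → Tr → Tr → Tr) (e : Tr) (z : Nat) (a b : Nat → Nat) =>
 (c (a (nat_lit 0x20200001))
 (c (a (nat_lit 0x346e6e88)) e
 (c z e
 (c (a (nat_lit 0x1b0d8de10008)) e
 (c (a (nat_lit 0xab6a7802065)) e
 (c (a (nat_lit 0x15c060810144)) e
 (c z e
 (c (a (nat_lit 0x10cfcfcfcfc8)) e
 (c (a (nat_lit 0x2a42824aa81))
 (c (a (nat_lit 0xc489441e00006)) e
 (c (a (nat_lit 0x4d4c000000006)) e e))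
 (c (a (nat_lit 0x272773a7))
 (c (a (nat_lit 0x15e00000000004)) e e)
 (c (a (nat_lit 0x1a66dd3f068)) e
 (c z e
 (c z e
 (c z e
 (c z e
 (c z e
 (c (a (nat_lit 0x55100604065)) e
 (c (a (nat_lit 0x10e040404005)) e
 (c (a (nat_lit 0x2a3c0000001)) e e))))))))))))))))))
 (c (a (nat_lit 0x40402041))
 (c (a (nat_lit 0x1df4522e0e07))
 (c z e
 (c (a (nat_lit 0x7736b63002f08))
 (c (a (nat_lit 0x1589e46808a72009)) e e) e))
 (c (a (nat_lit 0x19f935b5b628))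
 (c (a (nat_lit 0x94e2200287488))
 (c (a (nat_lit 0x144240e42e400006)) e e)
 (c z e
 (c z e
 (c z e
 (c (a (nat_lit 0x103838ba5f52a)) e
 (c (b (nat_lit 0x1fe7ee4e94870a)) e e))))))
 (c (a (nat_lit 0x15b07072ed27)) e
 (c z e
 (c z e
 (c (a (nat_lit 0x1331312e004))
 (c (a (nat_lit 0x19390b06c7c5a9)) e
 (c (a (nat_lit 0x15d144e8800008)) e e))
 (c (a (nat_lit 0x3434fb35566))
 (c (a (nat_lit 0x1bf58ac0000007)) e e)
 (c (a (nat_lit 0x528ac0eb1a8)) e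
 (c z e
 (c z e
 (c (a (nat_lit 0x84a2b2b30c9)) e
 (c (a (nat_lit 0x170320366ae7)) e
 (c z e
 (c z e
 (c (a (nat_lit 0x16a040404026)) e
 (c (a (nat_lit 0x3c0a00001)) e
 (c (a (nat_lit 0x28000000001)) e e)))))))))))))))))
 (c (a (nat_lit 0x20200021))
 (c (a (nat_lit 0x14edcdd02dc6))
 (c (a (nat_lit 0x1080e09a6b44)) e
 (c z e
 (c z e
 (c (a (nat_lit 0x1e4c467ad90a9)) e
 (c (b (nat_lit 0x1fe3aa121c5207)) e
 (c (b (nat_lit 0x1ff686150065e7)) e e))))))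
 (c z e
 (c z e
 (c (a (nat_lit 0x18b8b8d93ae6))
 (c z e
 (c z e
 (c (a (nat_lit 0x162c0b07a00008)) e e)))
 (c (a (nat_lit 0x10124273a65))
 (c (a (nat_lit 0x1fec9741e44007)) e
 (c (b (nat_lit 0x1ff98cc0000005)) e e))
 (c (a (nat_lit 0x5cc18dd5b47))
 (c (a (nat_lit 0xd782000000005)) e e)
 (c z e
 (c z e
 (c (a (nat_lit 0x12b24c4c2c29)) e
 (c (a (nat_lit 0xaa4cb4b5049)) e
 (c (a (nat_lit 0x2e2603e9987)) e
 (c z e
 (c (b (nat_lit 0x1ff269658567)) e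
 (c (a (nat_lit 0x1a0820402006)) e
 (c (a (nat_lit 0x1280a0000004)) e e)))))))))))))))
 (c (a (nat_lit 0x40402001))
 (c (a (nat_lit 0x1676d6d6b6a5)) e
 (c (a (nat_lit 0x17d7d7f7d8c5))
 (c (a (nat_lit 0x44a84d5a3e067)) e
 (c (a (nat_lit 0x15b279f5ea08c8)) e e))
 (c (a (nat_lit 0xa8a9999b4c6))
 (c (a (nat_lit 0xf325cf593c8e7)) e e)
 (c z e
 (c z e
 (c z e
 (c (a (nat_lit 0x1cfa17977208)) e
 (c (a (nat_lit 0x12cceceda088)) e
 (c z e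
 (c z e
 (c z e
 (c (b (nat_lit 0x1ffa50542a27)) e
 (c (a (nat_lit 0x155400200006)) e
 (c (nat_lit 1) e e))))))))))))))
 (c (a (nat_lit 0x40402001))
 (c (a (nat_lit 0x806ce3ffa3))
 (c (a (nat_lit 0x1a67ea121a7e5)) e
 (c (a (nat_lit 0xcf74a8624e2e7)) e e))
 (c (a (nat_lit 0xd6ef09291c7))
 (c (a (nat_lit 0x194ac789046487)) e e)
 (c z e
 (c z e
 (c (a (nat_lit 0x1475ca836327)) e
 (c (a (nat_lit 0x1973946e29a8)) e
 (c z e
 (c z e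
 (c z e
 (c z e
 (c (a (nat_lit 0xbab30274006)) e
 (c (a (nat_lit 0x1437a0000005)) e e))))))))))))
 (c (a (nat_lit 0x40402021))
 (c (a (nat_lit 0x10929454cca6))
 (c (a (nat_lit 0x29d3c747c005)) e e)
 (c z e
 (c (a (nat_lit 0x16d9adc301e7)) e
 (c (a (nat_lit 0x108484840067)) e
 (c (a (nat_lit 0xe72b72e50e7)) e
 (c z e
 (c (a (nat_lit 0x2a310eed268)) e
 (c (a (nat_lit 0xf7046adf3a7)) e e))))))))
 (c (a (nat_lit 0x20200001))
 (c (a (nat_lit 0x1ddca4c02005)) e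
 (c (a (nat_lit 0x1e0767642086)) e
 (c (a (nat_lit 0x142fa6c082a5)) e
 (c z e
 (c (a (nat_lit 0x15d7373ab406)) e
 (c (a (nat_lit 0x24250eed3c8)) e
 (c (a (nat_lit 0xa4b4790d5c8)) e e)))))))
 (c (a (nat_lit 0x80a08061))
 (c (a (nat_lit 0x1794eba464e5)) e
 (c (a (nat_lit 0x1771a2e2a5a5)) e
 (c (a (nat_lit 0x10729109a24)) e
 (c (a (nat_lit 0x262b192aa46)) e
 (c (a (nat_lit 0x4650ae671e8)) e
 (c (a (nat_lit 0xe2d2c57af28)) e e))))))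
 (c (a (nat_lit 0x40200001))
 (c (a (nat_lit 0x362a289fa63)) e
 (c (a (nat_lit 0xa1262af0a5)) e
 (c (b (nat_lit 0x6e94dfe7fe5)) e e)))
 (c (a (nat_lit 0x20202021))
 (c (a (nat_lit 0xf11f2e44ea5)) e e)
 (c (a (nat_lit 0x201d65))
 (c z e
 (c (b (nat_lit 0x113ff8b90005)) e
 (c (b (nat_lit 0x1ff580000004)) e e)))
 (c (a (nat_lit 0x203508e5))
 (c (a (nat_lit 0x110068200005)) e
 (c (a (nat_lit 0x1ea000000004)) e e))
 (c (a (nat_lit 0xa50cf4cc8)) e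
 (c z e
 (c (a (nat_lit 0x1a0fb03026)) e
 (c (a (nat_lit 0x9e1606461)) e
 (c (a (nat_lit 0x238541)) e
 (c (a (nat_lit 0x1a3e061)) e
 (c (a (nat_lit 0xe1a16001)) e
 (c (a (nat_lit 0x120c08261)) e
 (c (a (nat_lit 0x100c1d0e2)) e
 (c (a (nat_lit 0x40647ea4)) e e))))))))))))))))))))))) Tr.c Tr.e (nat_lit 0) C.cx C.cy
noncomputable def C308 : Tr := beta% (fun (c : Nat → Tr → Tr → Tr) (e : Tr) (z : Nat) (a b : Nat → Nat) =>
 (c (a (nat_lit 0x4060604041))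
 (c (a (nat_lit 0x10706b8ba7a7a4))
 (c (a (nat_lit 0x306a6a6c6c6d245))
 (c z e
 (c z e
 (c (a (nat_lit 0x5a564e54724a9d948)) e
 (c (a (nat_lit 0x7c7482a272a4dd7e8)) e e))))
 (c (a (nat_lit 0xa26282828a3407))
 (c (a (nat_lit 0x64484452543697c89)) e
 (c (a (nat_lit 0x6c706874509327b2a)) e e))
 (c (a (nat_lit 0x80747474f37bb27)) e
 (c (a (nat_lit 0xd0f131a9813f4c7))
 (c (a (nat_lit 0xe0a0caf7f2be00009)) e
 (c (a (nat_lit 0x16b333776000000009)) e e))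
 (c (a (nat_lit 0x6f11a3a3bee4ba7)) e
 (c (a (nat_lit 0x26ed2ae69c44107)) e
 (c (a (nat_lit 0x1272500b4f4ab087)) e
 (c (a (nat_lit 0x645c2d5810322a8)) e
 (c (a (nat_lit 0xe4eba4a0a278847)) e
 (c z e
 (c z e
 (c (a (nat_lit 0xce1e00000000001)) e e))))))))))))
 (c (a (nat_lit 0x1503e424444045))
 (c (a (nat_lit 0x5e60606099559e8))
 (c (a (nat_lit 0x4c4654483c573bb6a)) e e)
 (c (a (nat_lit 0x8888c501879d509)) e
 (c z e
 (c z e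
 (c z e
 (c (a (nat_lit 0xdac6cd16a28a749)) e
 (c (a (nat_lit 0xcab5c28a8848449)) e
 (c (a (nat_lit 0x1c3e73af8a494988)) e
 (c (a (nat_lit 0xe50e68663600007)) e
 (c (a (nat_lit 0x1788634000000006)) e e))))))))))
 (c (a (nat_lit 0xbcc2ccd00b9e3))
 (c z e
 (c z e
 (c z e
 (c z e
 (c z e
 (c z e
 (c z e
 (c (a (nat_lit 0x1c0eaf09e0000006)) e
 (c (a (nat_lit 0x1354e00000000004)) e e)))))))))
 (c (a (nat_lit 0x193959565313e5))
 (c z e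
 (c (a (nat_lit 0xcadad1112cd4b6a)) e
 (c z e
 (c z e
 (c z e
 (c (a (nat_lit 0x16938f74f4000008)) e
 (c (a (nat_lit 0x148b12a000000007)) e e)))))))
 (c (a (nat_lit 0x13d3d57f598126))
 (c (a (nat_lit 0xe0988510aa9a649)) e
 (c z e
 (c z e
 (c (a (nat_lit 0x147354700d8de008)) e
 (c (a (nat_lit 0x1cdd054ee0000006)) e
 (c (a (nat_lit 0x1326800000000006)) e e))))))
 (c z e
 (c (a (nat_lit 0x1810b628403006))
 (c (a (nat_lit 0x11298c0dd3c3e007)) e e)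
 (c (a (nat_lit 0x103691a0311526)) e
 (c (a (nat_lit 0x15b19090143426)) e
 (c (a (nat_lit 0xdf75891717224)) e
 (c (a (nat_lit 0x4060604077e6)) e
 (c (a (nat_lit 0xc1212177ee26)) e
 (c (b (nat_lit 0xa0a117501fe6)) e
 (c (b (nat_lit 0x465d16ae3bfe7)) e
 (c (a (nat_lit 0xaf633b0a70007)) e e)))))))))))))))
 (c (a (nat_lit 0x4060604021))
 (c (a (nat_lit 0x40444a4c0b645))
 (c (a (nat_lit 0x46465e649cd9149))
 (c (a (nat_lit 0x464e3e3a3edf52eea)) e e)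
 (c z e
 (c z e
 (c z e
 (c z e
 (c (a (nat_lit 0xc50b487a6a482a9)) e
 (c (a (nat_lit 0x179ecf8c47aa6989)) e
 (c (a (nat_lit 0x1a35756d6d8c8008)) e
 (c (a (nat_lit 0x134baa07c0000007)) e
 (c (a (nat_lit 0x11a5000000000005)) e e))))))))))
 (c (a (nat_lit 0xacb0b6a1c58e6))
 (c z e
 (c z e
 (c z e
 (c z e
 (c z e
 (c z e
 (c z e
 (c (a (nat_lit 0xb93070000000008)) e e))))))))
 (c (b (nat_lit 0x17579fffffffe5)) e
 (c z e
 (c z e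
 (c (a (nat_lit 0x141d4ac1677646))
 (c (a (nat_lit 0x14cf51d7c6c00007)) e e)
 (c (a (nat_lit 0x1570f1f053d468)) e
 (c z e
 (c (a (nat_lit 0x80242e260f446)) e
 (c (a (nat_lit 0xe0c0c0c5d048)) e
 (c (a (nat_lit 0x343438cd6e087)) e
 (c (a (nat_lit 0x1011f69b0353e8)) e e))))))))))))
 (c (a (nat_lit 0x20201068))
 (c (b (nat_lit 0x9ea87b3535fe6)) e
 (c z e
 (c z e
 (c z e
 (c z e
 (c z e
 (c z e
 (c (a (nat_lit 0xb4304c2169a06)) e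
 (c (a (nat_lit 0x1212106740068)) e e)))))))))
 (c (a (nat_lit 0x2033ca68))
 (c z e
 (c (a (nat_lit 0x12976be4cb4c28))
 (c (a (nat_lit 0x122a27e64725c46b)) e e)
 (c z e
 (c z e
 (c z e
 (c (a (nat_lit 0x148f33f7b28767)) e
 (c (b (nat_lit 0x8728519fffe7)) e
 (c z e
 (c z e
 (c z e
 (c (a (nat_lit 0xfa6599aa00007)) e
 (c (a (nat_lit 0x16d1c000000007)) e e))))))))))))
 (c (a (nat_lit 0x4041b2cabc8))
 (c (a (nat_lit 0xe27c8e291eee8))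
 (c (a (nat_lit 0x12ae0628ec28a6e8)) e e)
 (c z e
 (c z e
 (c (a (nat_lit 0x212d0e7339468)) e
 (c (a (nat_lit 0x6e383478dd248)) e
 (c (a (nat_lit 0xc9af85108e68)) e
 (c z e
 (c z e
 (c (a (nat_lit 0x1e723cf7b86008)) e
 (c (a (nat_lit 0x11893100000008)) e
 (c (a (nat_lit 0x16400000000007)) e e)))))))))))
 (c (a (nat_lit 0x1d226060488)) e
 (c (a (nat_lit 0x1e34528eaea7))
 (c (a (nat_lit 0xeb648b38d4a46)) e
 (c z e
 (c z e
 (c z e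
 (c (a (nat_lit 0x7018acdd8efa8)) e
 (c (b (nat_lit 0x39fee1486a009)) e e))))))
 (c (a (nat_lit 0x1250ceeeeee7))
 (c z e
 (c z e
 (c (b (nat_lit 0x1fef4cfe96ce08)) e
 (c (a (nat_lit 0x2c5b9a5c54169)) e
 (c (b (nat_lit 0x1ff60fc5a00009)) e e)))))
 (c (a (nat_lit 0x17f4b494d306))
 (c (a (nat_lit 0x832ebaa193387)) e
 (c (a (nat_lit 0xdcb19cd09a288)) e
 (c (a (nat_lit 0x612c6e5a12009)) e e)))
 (c (a (nat_lit 0x10d0d2926083))
 (c (a (nat_lit 0x1f10cf62010026)) e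
 (c (a (nat_lit 0x1b47a4a1800007)) e
 (c (a (nat_lit 0x1d202000000007)) e e)))
 (c (a (nat_lit 0x176949e140e3))
 (c (a (nat_lit 0x1c8a2380000004)) e e)
 (c (a (nat_lit 0x2038247c1)) e
 (c (a (nat_lit 0x7476848b7a5)) e
 (c (a (nat_lit 0x3870ef2b487)) e
 (c (a (nat_lit 0x143194784c47)) e
 (c z e
 (c (a (nat_lit 0xc3044602847)) e
 (c (a (nat_lit 0x104920284847)) e
 (c (a (nat_lit 0x1b2121818042)) e
 (c (a (nat_lit 0x343e1606001)) e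
 (c (a (nat_lit 0x1a0c0000001)) e e)))))))))))))))))))))) Tr.c Tr.e (nat_lit 0) C.cx C.cy
noncomputable def C309 : Tr := beta% (fun (c : Nat → Tr → Tr → Tr) (e : Tr) (z : Nat) (a b : Nat → Nat) =>
 (c (a (nat_lit 0x200001))
 (c (a (nat_lit 0x20200001)) C308
 (c (a (nat_lit 0x40402001))
 (c (a (nat_lit 0x20203fc7))
 (c (a (nat_lit 0x94989a5f6d765))
 (c (a (nat_lit 0x788892a8f326c48))
 (c (a (nat_lit 0xc09e9e9f55e5afce8)) e e)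
 (c z e
 (c z e
 (c z e
 (c (a (nat_lit 0x10f1cfab4b6f0b8a)) e
 (c (a (nat_lit 0x1456256c082366a8)) e
 (c (a (nat_lit 0x1c1050ed160646e8)) e
 (c (a (nat_lit 0x13db123751400007)) e
 (c (a (nat_lit 0x15152fc000000006)) e e)))))))))
 (c z e
 (c z e
 (c z e
 (c (b (nat_lit 0x1052b0726ddfe9))
 (c z e
 (c (a (nat_lit 0x1c3231f3eca00009)) e e))
 (c (b (nat_lit 0x1d85dc80df7fe5))
 (c (a (nat_lit 0x937b70c40000006)) e e)
 (c (a (nat_lit 0x107272d2d36fe8)) e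
 (c z e
 (c (a (nat_lit 0x12930e8c48a024)) e
 (c (a (nat_lit 0x22080823e6966)) e
 (c (a (nat_lit 0xad2f2f9932306)) e e)))))))))))
 (c (a (nat_lit 0x202031a9e9))
 (c z e
 (c z e
 (c z e
 (c z e
 (c z e
 (c z e
 (c z e
 (c (b (nat_lit 0x10107a3fffffe5)) e e))))))))
 (c (a (nat_lit 0x2039af2e29)) e
 (c z e
 (c (a (nat_lit 0x142ccd25a5a9))
 (c z e
 (c (b (nat_lit 0x1fffe5d8e328)) e
 (c z e
 (c z e
 (c z e
 (c z e
 (c (a (nat_lit 0x6af79d8c6e009)) e e)))))))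
 (c (a (nat_lit 0x1f5711714d46))
 (c (a (nat_lit 0x42ea1e05047)) e
 (c z e
 (c z e
 (c z e
 (c (b (nat_lit 0x1ff1acb3c123a9)) e
 (c (a (nat_lit 0x6133ba5c00009)) e e))))))
 (c (a (nat_lit 0x1c39d9d7d6e7))
 (c z e
 (c z e
 (c z e
 (c (a (nat_lit 0x8b146c501800a)) e
 (c (a (nat_lit 0x149684c0000009)) e e)))))
 (c z e
 (c (a (nat_lit 0x1b02c4a18003))
 (c (b (nat_lit 0x1fedd10700a005)) e
 (c (b (nat_lit 0x1ffa5560000005)) e e))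
 (c (a (nat_lit 0x4c727fd01))
 (c (a (nat_lit 0x11634000000003)) e e)
 (c (a (nat_lit 0x292993e7)) e
 (c (a (nat_lit 0xcccf0559928)) e
 (c z e
 (c z e
 (c z e
 (c (a (nat_lit 0x1a6b55466687)) e
 (c (a (nat_lit 0xa1de0602006)) e
 (c (a (nat_lit 0x1dc020202006)) e
 (c (a (nat_lit 0x747c1200001)) e
 (c (a (nat_lit 0x40000000001)) e e))))))))))))))))))))
 C307))
 (c (a (nat_lit 0x202021)) C306
 (c (a (nat_lit 0x202021)) C305
 (c (a (nat_lit 0x202021))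
 (c (a (nat_lit 0x20202021))
 (c (a (nat_lit 0x11f1c1c1e1e4))
 (c (a (nat_lit 0x3ebabeaaab4a5))
 (c z e
 (c (a (nat_lit 0x4ab301a0000007)) e e))
 (c (a (nat_lit 0x20a08024f167))
 (c (a (nat_lit 0xff1c04000000007)) e e)
 (c (b (nat_lit 0x567cbb88c3fe7)) e
 (c (b (nat_lit 0x9c9d6fddfe566)) e
 (c (b (nat_lit 0x6aad5007fffe6)) e
 (c z e
 (c z e
 (c (a (nat_lit 0x19282983000006)) e
 (c (a (nat_lit 0x11c44000000008)) e e)))))))))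
 (c (a (nat_lit 0x1b4040402044))
 (c (a (nat_lit 0x4060629b4247)) e
 (c (a (nat_lit 0x2774f8224008)) e e))
 (c (a (nat_lit 0x4100c082a1)) e
 (c (a (nat_lit 0x14d4d6755c85))
 (c z e
 (c (a (nat_lit 0x188fa384a20947)) e e))
 (c (a (nat_lit 0x365052dd325))
 (c (a (nat_lit 0x7263009c56125)) e e)
 (c (a (nat_lit 0x13351516b287)) e
 (c (a (nat_lit 0xf4ed4062446)) e
 (c (a (nat_lit 0x4062faed2e7)) e
 (c (a (nat_lit 0xf5ada5af508)) e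
 (c z e
 (c (a (nat_lit 0xdb06e0b45a8)) e
 (c (a (nat_lit 0x1086c0202ac6)) e
 (c (a (nat_lit 0xd6020357565)) e
 (c (a (nat_lit 0x1c1808001)) e
 (c (a (nat_lit 0x20120000001)) e e)))))))))))))))
 (c (a (nat_lit 0x20202021))
 (c (a (nat_lit 0xa0c11ce2))
 (c (a (nat_lit 0x80807ec02f06)) e
 (c z e
 (c z e
 (c z e
 (c (b (nat_lit 0x5fffff14852c7)) e
 (c (b (nat_lit 0xfffff4200007)) e e))))))
 (c (a (nat_lit 0x80e1bbd7786)) e
 (c z e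
 (c z e
 (c (a (nat_lit 0xb1108e063a6)) e
 (c (a (nat_lit 0xc69b8bb7f27)) e
 (c (b (nat_lit 0x40a7ffa7508)) e
 (c z e
 (c z e
 (c (a (nat_lit 0x1ef96f692648)) e
 (c (a (nat_lit 0x148040312fe7)) e
 (c (a (nat_lit 0x1e1c0e021)) e
 (c (a (nat_lit 0x181a0e00001)) e
 (c (a (nat_lit 0xa000000001)) e e))))))))))))))
 (c (a (nat_lit 0x20202021))
 (c (a (nat_lit 0x7520e6d0dc7)) e
 (c z e
 (c (a (nat_lit 0x17ac712047c5)) e
 (c (b (nat_lit 0x5e8f09fee06)) e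
 (c (a (nat_lit 0x13363effa327)) e
 (c z e
 (c z e
 (c z e
 (c z e
 (c (b (nat_lit 0x1fffffffe321)) e
 (c (a (nat_lit 0xfb1a0568007)) e
 (c (a (nat_lit 0x1f2020000004)) e e))))))))))))
 (c (a (nat_lit 0x60608081))
 (c (a (nat_lit 0x1d861e807063))
 (c (b (nat_lit 0x1ff5bfef6b4565)) e
 (c (b (nat_lit 0x185ffa28c00005)) e e))
 (c (a (nat_lit 0x6cc23c61746))
 (c (a (nat_lit 0xa130400000005)) e e)
 (c (a (nat_lit 0x144bef931626)) e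
 (c z e
 (c z e
 (c (a (nat_lit 0x9b14dece589)) e
 (c z e
 (c z e
 (c (a (nat_lit 0x1b8f01236265)) e
 (c (a (nat_lit 0x154766c00005)) e
 (c (a (nat_lit 0x2000000001)) e e)))))))))))
 (c (a (nat_lit 0x202021))
 (c (a (nat_lit 0x920c0d370c5))
 (c (a (nat_lit 0x17610000000003)) e e)
 (c z e
 (c (a (nat_lit 0x1557172f30a7)) e
 (c (a (nat_lit 0xd2e0df1bcc7)) e
 (c (a (nat_lit 0x12b274bc1008)) e
 (c z e
 (c (a (nat_lit 0x13199863e088)) e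
 (c (a (nat_lit 0x9f0c3c02006)) e
 (c (a (nat_lit 0x1ac060000005)) e e)))))))))
 (c (a (nat_lit 0x80806081))
 (c (a (nat_lit 0x30b56210824)) e
 (c (b (nat_lit 0x1fe1c7f86004)) e
 (c (a (nat_lit 0x2802751d2e7)) e
 (c z e
 (c z e
 (c (a (nat_lit 0x10528de124c9)) e
 (c (a (nat_lit 0x1c8360200005)) e
 (c (a (nat_lit 0xe000000001)) e e))))))))
 (c (a (nat_lit 0x2039c6))
 (c (b (nat_lit 0xfb4144affe6)) e
 (c z e
 (c z e
 (c z e
 (c (b (nat_lit 0x1febb9804007)) e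
 (c (a (nat_lit 0x6e0000001)) e e))))))
 (c (a (nat_lit 0x3ab9c6))
 (c z e
 (c (a (nat_lit 0x2e548a4baa9)) e e))
 (c (a (nat_lit 0xd1433cd28))
 (c (a (nat_lit 0x56c24f31569)) e e)
 (c z e
 (c (a (nat_lit 0x1245402006)) e
 (c (a (nat_lit 0x1700a04003)) e
 (c (a (nat_lit 0x1fbf8083e4)) e
 (c (a (nat_lit 0x1c20408004)) e
 (c (a (nat_lit 0xe1404061)) e
 (c (a (nat_lit 0x120a0c201)) e
 (c (b (nat_lit 0xc1023fe1)) e
 (c (a (nat_lit 0xbaba5fb25)) e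
 (c z e
 (c (b (nat_lit 0x1ff1002025)) e
 (c (a (nat_lit 0x1120200005)) e e)))))))))))))))))))))
 C304))))) Tr.c Tr.e (nat_lit 0) C.cx C.cy
noncomputable def C310 : Tr := beta% (fun (c : Nat → Tr → Tr → Tr) (e : Tr) (z : Nat) (a b : Nat → Nat) =>
 (c (nat_lit 1)
 (c (a (nat_lit 0x6d2d0af2c47))
 (c (a (nat_lit 0x1ebe4d390d67a5))
 (c (a (nat_lit 0x10a78865a889cb47)) e
 (c (a (nat_lit 0x1132702f4c3b3447)) e
 (c z e
 (c (a (nat_lit 0xb999c4860000007)) e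
 (c (a (nat_lit 0x164be00000000007)) e e)))))
 (c z e
 (c z e
 (c (a (nat_lit 0x12d1a1854c0c07)) e
 (c (a (nat_lit 0xef347ef7034e7)) e
 (c z e
 (c z e
 (c (a (nat_lit 0x504e50bca7308)) e
 (c (a (nat_lit 0x72ecacede2528)) e e)))))))))
 (c (a (nat_lit 0x1b5816b00f48))
 (c (a (nat_lit 0xdf8b1e6a075a7))
 (c (a (nat_lit 0x1153c449cbe6a007)) e e)
 (c z e
 (c z e
 (c z e
 (c (a (nat_lit 0xdae0e0ddb5668)) e
 (c (a (nat_lit 0xb63d13be999c8)) e e))))))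
 (c (a (nat_lit 0x14d72d6acac6)) e
 (c (a (nat_lit 0x128c8c8c85a6))
 (c (a (nat_lit 0x4c481e4c99967)) e
 (c (a (nat_lit 0x363e2a993a2e8)) e
 (c z e
 (c z e
 (c z e
 (c (a (nat_lit 0x10742660000008)) e e))))))
 (c (a (nat_lit 0x19796ba9c9a5))
 (c (a (nat_lit 0x5802950836427)) e
 (c z e
 (c z e
 (c (a (nat_lit 0x15a341e1000009)) e
 (c (a (nat_lit 0x1dab6000000007)) e e)))))
 (c (a (nat_lit 0x1289c80807e6))
 (c z e
 (c (b (nat_lit 0x1a51dfe2a20008)) e e))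
 (c (a (nat_lit 0x16b6b6967625))
 (c (a (nat_lit 0x9eed045e00007)) e e)
 (c (b (nat_lit 0x3c7ffe05)) e
 (c (a (nat_lit 0xed7d4587667)) e
 (c z e
 (c (a (nat_lit 0xacf30cb2ce6)) e
 (c (a (nat_lit 0x10d68040b804)) e
 (c (a (nat_lit 0xb6041cd90a5)) e
 (c (a (nat_lit 0x6e873579025)) e
 (c (a (nat_lit 0x12c7048e885)) e
 (c (a (nat_lit 0x7d140402004)) e
 (c (a (nat_lit 0x11c060000004)) e e)))))))))))))))))
 (c (a (nat_lit 0x40404041))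
 (c (a (nat_lit 0x1f9a30adeda5))
 (c (a (nat_lit 0x985c0404757c5)) e
 (c z e
 (c z e
 (c z e
 (c (b (nat_lit 0x1fffe586a112c7)) e
 (c (b (nat_lit 0x1fed3069572a67)) e e))))))
 (c (a (nat_lit 0x144040250025)) e
 (c (a (nat_lit 0x17f7f7f7cf45))
 (c (a (nat_lit 0x847ccb3abe067)) e
 (c (a (nat_lit 0x5c9deb5606027)) e e))
 (c (a (nat_lit 0x1bfa3a3a3a05))
 (c (a (nat_lit 0x9d294ab8fa047)) e e)
 (c (a (nat_lit 0x1a19f2b2d024))
 (c (b (nat_lit 0xc9ffff3832087)) e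
 (c (b (nat_lit 0x1ffffaac000007)) e e))
 (c (a (nat_lit 0x6869315d546))
 (c (a (nat_lit 0x3f96fc0000006)) e e)
 (c z e
 (c z e
 (c (a (nat_lit 0x167ff35355c6)) e
 (c (a (nat_lit 0x19004044f925)) e
 (c (a (nat_lit 0x44f67745)) e
 (c (a (nat_lit 0xc5b6d8aee5)) e
 (c z e
 (c (a (nat_lit 0x18dad0505025)) e
 (c (a (nat_lit 0x150020400004)) e
 (c (a (nat_lit 0x2000000001)) e e))))))))))))))))
 (c (a (nat_lit 0x20202041))
 (c (a (nat_lit 0x123c37575745))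
 (c z e
 (c (a (nat_lit 0x102908054b4e07)) e
 (c (a (nat_lit 0xc290713c07047)) e e)))
 (c (a (nat_lit 0x163a4a5e001))
 (c (a (nat_lit 0x883c088fa22a6)) e
 (c (a (nat_lit 0x9678e90cf21a7)) e e))
 (c (a (nat_lit 0x58402826481))
 (c (a (nat_lit 0x8f7d2bf80d846)) e e)
 (c (a (nat_lit 0xaaab9995066)) e
 (c (a (nat_lit 0xebf9d3bfbc7))
 (c (a (nat_lit 0x174f6000000004)) e e)
 (c z e
 (c (a (nat_lit 0x169554745427)) e
 (c (a (nat_lit 0x17f737371707)) e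
 (c (a (nat_lit 0x1c5c5c5c13a6)) e
 (c (a (nat_lit 0xa0604c3045)) e
 (c (a (nat_lit 0xaca6aba4ca5)) e
 (c z e
 (c (a (nat_lit 0x5116fafc005)) e
 (c (a (nat_lit 0x188060000001)) e e))))))))))))))
 (c (a (nat_lit 0x20202021))
 (c (a (nat_lit 0xe4d2c6bd761))
 (c (a (nat_lit 0x3027689e11025)) e
 (c (a (nat_lit 0x3d301c0a9c186)) e
 (c (b (nat_lit 0x1eedbfe6c7c325)) e e)))
 (c (a (nat_lit 0x424104bada4))
 (c (a (nat_lit 0x10e4e322640426)) e e)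
 (c (a (nat_lit 0x181e1b7a7925)) e
 (c z e
 (c (a (nat_lit 0x10efd0e3a506)) e
 (c (a (nat_lit 0xff09111aa07)) e
 (c (a (nat_lit 0x1777997948a6)) e
 (c (a (nat_lit 0x1c1a171a5)) e
 (c (a (nat_lit 0xea0a39ff44)) e
 (c (a (nat_lit 0xc6d4e781344)) e
 (c (a (nat_lit 0x123297f48d06)) e e)))))))))))
 (c (a (nat_lit 0x40404041))
 (c (a (nat_lit 0x145a5a1dd8a4))
 (c (a (nat_lit 0x1f4fc0b5cf8b04)) e e)
 (c z e
 (c (a (nat_lit 0x12b313688846)) e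
 (c (a (nat_lit 0x1b5e1e5d1b03)) e
 (c (a (nat_lit 0x1c3c1bed6d06)) e
 (c (a (nat_lit 0x18b87796f9c4)) e
 (c (a (nat_lit 0x2a1e167b143)) e
 (c (a (nat_lit 0xe4e51a07324)) e
 (c (a (nat_lit 0x1a281e694e6)) e
 (c (a (nat_lit 0x1877bb942006)) e e))))))))))
 (c (a (nat_lit 0x21))
 (c (b (nat_lit 0x1fffe420e001)) e
 (c (a (nat_lit 0xf12d2d24224)) e
 (c (a (nat_lit 0x107071306004)) e
 (c (a (nat_lit 0x16694928c745)) e
 (c (a (nat_lit 0xfcf2eeeb804)) e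
 (c (a (nat_lit 0x10702f4ebf43)) e
 (c (a (nat_lit 0x302e4cad366)) e
 (c (a (nat_lit 0xe0cb1301c6)) e e))))))))
 (c (a (nat_lit 0x20404041))
 (c (a (nat_lit 0x161615c5a604)) e
 (c (a (nat_lit 0x168f80a062a5)) e
 (c (a (nat_lit 0x5e365643ae3)) e
 (c (a (nat_lit 0x363d1ef2a05)) e
 (c (a (nat_lit 0x18b8d96a75e5)) e
 (c (a (nat_lit 0xda7c9998ec5)) e e))))))
 (c (a (nat_lit 0x20202001))
 (c (a (nat_lit 0x14989893283)) e
 (c (a (nat_lit 0x6269062e4)) e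
 (c (a (nat_lit 0xeaeb032ab46)) e
 (c z e
 (c z e
 (c (a (nat_lit 0x5f124000006)) e
 (c (a (nat_lit 0x17c000000005)) e e)))))))
 (c (a (nat_lit 0x200001))
 (c (a (nat_lit 0xdcdd0a58005)) e
 (c z e
 (c z e
 (c (a (nat_lit 0x23c60c08004)) e
 (c (a (nat_lit 0x441a0000001)) e e)))))
 (c (a (nat_lit 0x20000001))
 (c z e
 (c (a (nat_lit 0x8cee0a9b107)) e
 (c (a (nat_lit 0x1b4020400006)) e
 (c (a (nat_lit 0x2000000001)) e e))))
 (c (a (nat_lit 0x40404021))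
 (c (a (nat_lit 0x1b09a0202005)) e
 (c (a (nat_lit 0x240c0000001)) e e))
 (c (a (nat_lit 0x20203b64))
 (c (a (nat_lit 0x2000000001)) e e)
 (c (a (nat_lit 0x2b18aba5)) e
 (c (a (nat_lit 0x143b149086)) e
 (c (a (nat_lit 0x176b486345)) e
 (c (a (nat_lit 0x16c0402042)) e
 (c (a (nat_lit 0xa04120c1)) e
 (c (a (nat_lit 0x221e22001)) e
 (c (a (nat_lit 0x281004001)) e
 (c (a (nat_lit 0x261208081)) e
 (c (b (nat_lit 0x20221ffe1)) e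
 (c (b (nat_lit 0x1a23fff81)) e e))))))))))))))))))))))) Tr.c Tr.e (nat_lit 0) C.cx C.cy
noncomputable def C311 : Tr := beta% (fun (c : Nat → Tr → Tr → Tr) (e : Tr) (z : Nat) (a b : Nat → Nat) =>
 (c (a (nat_lit 0x2040402021))
 (c (a (nat_lit 0x1e2e0e04448084))
 (c (a (nat_lit 0xa4e9575d5f5d5e5))
 (c z e
 (c (a (nat_lit 0x1a31130bcaf0310e87)) e
 (c (a (nat_lit 0xaabca490b4bcb16c8)) e
 (c (a (nat_lit 0x688a7ab2ec9ced528)) e e))))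
 (c (a (nat_lit 0x2606e707071ba7))
 (c (a (nat_lit 0xceea7652887e11528)) e
 (c (a (nat_lit 0xc09e9a908a5cddbca)) e e))
 (c (a (nat_lit 0x242464648d3a88)) e
 (c (a (nat_lit 0x2438acafb9db0e7))
 (c z e
 (c (a (nat_lit 0x11b0ee90f4e000000a)) e e))
 (c (a (nat_lit 0x567b337f6f57168))
 (c (a (nat_lit 0x1ed4cef34000000008)) e e)
 (c z e
 (c z e
 (c z e
 (c (a (nat_lit 0x68543d1e5042269)) e
 (c (a (nat_lit 0x158f7392cc2a4947)) e
 (c z e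
 (c (a (nat_lit 0x73214000000004)) e e))))))))))))
 (c (a (nat_lit 0x15556bec0b2b26))
 (c (a (nat_lit 0x2080a0a0ca3a48))
 (c (a (nat_lit 0x342616201204117ea)) e e)
 (c z e
 (c z e
 (c z e
 (c z e
 (c z e
 (c z e
 (c z e
 (c (a (nat_lit 0x10856dc584024009)) e
 (c (a (nat_lit 0x5d1c78260000008)) e e))))))))))
 (c (a (nat_lit 0x120949698982c6))
 (c z e
 (c z e
 (c z e
 (c z e
 (c z e
 (c z e
 (c z e
 (c (a (nat_lit 0xa55abe944400008)) e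
 (c (a (nat_lit 0x146e866000000007)) e e)))))))))
 (c (a (nat_lit 0x11d1f1f20d2d26))
 (c z e
 (c (a (nat_lit 0x11f0d21494fdb1ca)) e
 (c z e
 (c z e
 (c z e
 (c (a (nat_lit 0x1429e7458687400a)) e
 (c (a (nat_lit 0x173af4f280000007)) e e)))))))
 (c (a (nat_lit 0x1292b2cf5668a6))
 (c (a (nat_lit 0x1352130db7afef29)) e
 (c z e
 (c z e
 (c z e
 (c (a (nat_lit 0x1d6e1046a8600008)) e
 (c (a (nat_lit 0x119cae000000006)) e e))))))
 (c z e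
 (c z e
 (c (a (nat_lit 0x1235174b0152e6)) e
 (c (a (nat_lit 0x1374b00151d206)) e
 (c (a (nat_lit 0x13afb2d0cf0f26)) e
 (c (a (nat_lit 0xb370b470be3)) e
 (c (a (nat_lit 0x344a585867ea6)) e
 (c (a (nat_lit 0x4a5252532ef67)) e
 (c (a (nat_lit 0x627c8736ea167)) e
 (c (a (nat_lit 0x9e9d67a8fe467)) e e)))))))))))))))
 (c (a (nat_lit 0x2040402001))
 (c (a (nat_lit 0x1f2949a9e9e105))
 (c (a (nat_lit 0x6061e1e50ad048))
 (c (a (nat_lit 0x4c34381c22134f6a9)) e e)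
 (c z e
 (c z e
 (c z e
 (c z e
 (c z e
 (c z e
 (c z e
 (c (a (nat_lit 0x199cf6681200007)) e
 (c (a (nat_lit 0x1bf862a000000006)) e e))))))))))
 (c (a (nat_lit 0xb6b8baba6f927)) e
 (c (a (nat_lit 0x78789872c9228)) e
 (c z e
 (c z e
 (c z e
 (c z e
 (c z e
 (c (a (nat_lit 0x143f6281e1c087)) e
 (c (a (nat_lit 0x1da12140a12b07)) e
 (c (a (nat_lit 0xcaa8a6bd5b926)) e
 (c (b (nat_lit 0xdcf8f52137fe8)) e e))))))))))))
 (c (a (nat_lit 0x40200001))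
 (c (b (nat_lit 0x2a2c3bff72fa6)) e
 (c z e
 (c z e
 (c z e
 (c z e
 (c z e
 (c z e
 (c (a (nat_lit 0x2d83b9f1abc65)) e
 (c (a (nat_lit 0x2080c103b168)) e e)))))))))
 (c (a (nat_lit 0x202030c8))
 (c z e
 (c (a (nat_lit 0xc548ee66546a8))
 (c (a (nat_lit 0xab0e9272465834b)) e e)
 (c z e
 (c z e
 (c z e
 (c (a (nat_lit 0xed0f03113ee87)) e
 (c (b (nat_lit 0x3a1ca6d773fe6)) e
 (c z e
 (c z e
 (c z e
 (c (a (nat_lit 0x908c14a934007)) e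
 (c (a (nat_lit 0x1851cce0000007)) e e))))))))))))
 (c (a (nat_lit 0x2020348808))
 (c (a (nat_lit 0x138d2043c2da87))
 (c (a (nat_lit 0x14eac8c4c5e6a249)) e e)
 (c z e
 (c z e
 (c z e
 (c (b (nat_lit 0x1fed90d16cb8a7)) e
 (c (a (nat_lit 0x14c6bf0339726)) e
 (c z e
 (c z e
 (c (a (nat_lit 0x1a590619e1ad08)) e
 (c (a (nat_lit 0xe647637200007)) e
 (c (a (nat_lit 0x12ebe000000008)) e e)))))))))))
 (c (a (nat_lit 0x320523e8)) e
 (c z e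
 (c z e
 (c (a (nat_lit 0x1f778ce7a805))
 (c (b (nat_lit 0x1fe608e0641667)) e
 (c (b (nat_lit 0x1fe501de47c688)) e e))
 (c (a (nat_lit 0x15e06080e0e4))
 (c (a (nat_lit 0xbae7da944e186)) e
 (c (a (nat_lit 0xfdf9c86e24007)) e
 (c (a (nat_lit 0x1070c2c0000008)) e e)))
 (c (a (nat_lit 0xd4db393a002))
 (c (a (nat_lit 0x15742681e00006)) e e)
 (c (b (nat_lit 0x1ff171d1b104)) e
 (c (a (nat_lit 0x1a2c3022901)) e
 (c (a (nat_lit 0x32332529c26)) e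
 (c (a (nat_lit 0x9a9a490b0a6)) e
 (c z e
 (c z e
 (c (a (nat_lit 0x1638c0404085)) e
 (c (a (nat_lit 0x18802040a0a5)) e
 (c (a (nat_lit 0x3e2e50321)) e
 (c (a (nat_lit 0xc0e00001)) e
 (c (a (nat_lit 0x2000000001)) e e))))))))))))))))))))))) Tr.c Tr.e (nat_lit 0) C.cx C.cy
noncomputable def C312 : Tr := beta% (fun (c : Nat → Tr → Tr → Tr) (e : Tr) (z : Nat) (a b : Nat → Nat) =>
 (c (a (nat_lit 0x2040402021))
 (c (a (nat_lit 0x10f0a724802005))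
 (c (a (nat_lit 0x3448d115233d3a5))
 (c z e
 (c (a (nat_lit 0x1dded076eb68b010a7)) e
 (c z e
 (c z e
 (c (a (nat_lit 0x10ac4e2e8e97937108)) e e)))))
 (c (a (nat_lit 0x2791e302e2e2e6))
 (c (a (nat_lit 0x15664be4a0a2e38028)) e e)
 (c (a (nat_lit 0x418768c888b927))
 (c (a (nat_lit 0x9e8c8c807a6297749)) e e)
 (c (a (nat_lit 0x3a26364c530cde8))
 (c z e
 (c (a (nat_lit 0xcf0cdcb339300000a)) e e))
 (c (a (nat_lit 0xe367071014f028)) e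
 (c z e
 (c z e
 (c z e
 (c (a (nat_lit 0x808e6e2ff088568)) e
 (c (a (nat_lit 0x10f10cb8ee0ae8e7)) e
 (c (a (nat_lit 0xe07eaf668c26006)) e
 (c (a (nat_lit 0x8610c7a0000005)) e e))))))))))))
 (c (a (nat_lit 0x1b6b6b80806085))
 (c (a (nat_lit 0x1218666666665b87)) e
 (c z e
 (c z e
 (c z e
 (c z e
 (c z e
 (c z e
 (c z e
 (c z e
 (c (a (nat_lit 0x1b86fa8741600007)) e
 (c (a (nat_lit 0xc7e408000000006)) e e)))))))))))
 (c (a (nat_lit 0x13d3cecece0de6))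
 (c z e
 (c z e
 (c z e
 (c z e
 (c z e
 (c z e
 (c z e
 (c (a (nat_lit 0x6cb720ca8232008)) e
 (c (a (nat_lit 0x46f322640000007)) e e)))))))))
 (c (a (nat_lit 0x16ee8eaeae8fe6))
 (c z e
 (c (a (nat_lit 0x94a48c78cca120a)) e
 (c z e
 (c z e
 (c (a (nat_lit 0xa415a141022029)) e
 (c (a (nat_lit 0x87deda7c5e486c9)) e
 (c (a (nat_lit 0x1ff48bef84800007)) e e)))))))
 (c (a (nat_lit 0xeaeaecef9abe5))
 (c (a (nat_lit 0xcec6a4e4b718c49)) e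
 (c z e
 (c z e
 (c z e
 (c (a (nat_lit 0x14c9e507a3440009)) e
 (c (a (nat_lit 0x16818a2220000007)) e e))))))
 (c z e
 (c z e
 (c z e
 (c (a (nat_lit 0x7d8c867802084)) e
 (c (a (nat_lit 0x106b2ae4a12045)) e
 (c (a (nat_lit 0x16555838a4ca03)) e
 (c z e
 (c (a (nat_lit 0x868c8e90931a6)) e
 (c (a (nat_lit 0x1171f3947af5e5)) e
 (c (a (nat_lit 0x4181ca12c926)) e e)))))))))))))))
 (c (a (nat_lit 0x2020202021))
 (c (a (nat_lit 0x1a5aa20262a263))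
 (c (a (nat_lit 0x1600c0c0808f28e6))
 (c z e
 (c (a (nat_lit 0x13cc89cbe2c6befc27)) e e))
 (c z e
 (c z e
 (c z e
 (c (a (nat_lit 0xa304fd3f453cee8)) e
 (c (a (nat_lit 0x603a59068a2bac7)) e
 (c z e
 (c z e
 (c (a (nat_lit 0x1484294d05a2e007)) e
 (c (a (nat_lit 0x168d02140000006)) e
 (c (a (nat_lit 0xf73000000000005)) e e)))))))))))
 (c (a (nat_lit 0x1b3494b4d4b7c6)) e
 (c (b (nat_lit 0x4080a0fffba4)) e
 (c z e
 (c (b (nat_lit 0x299fed9d7867)) e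
 (c z e
 (c z e
 (c z e
 (c (a (nat_lit 0xdcfb36302c288)) e
 (c (a (nat_lit 0x17fec080802087)) e
 (c (a (nat_lit 0x108141612101a8)) e
 (c (a (nat_lit 0xe30107058e9a6)) e e))))))))))))
 (c (a (nat_lit 0x20202001))
 (c (a (nat_lit 0x5858585869046))
 (c z e
 (c (a (nat_lit 0xa090aed52b38e49))
 (c (a (nat_lit 0x164e972e6000000009)) e e)
 (c z e
 (c z e
 (c z e
 (c (a (nat_lit 0xd35e9c7888a4528)) e e))))))
 (c (b (nat_lit 0x767887ff80b45))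
 (c (a (nat_lit 0x646aaef51adc6c9))
 (c (a (nat_lit 0x1c996d200000000008)) e e)
 (c z e
 (c z e
 (c (a (nat_lit 0x10544feae7a9e609)) e
 (c (a (nat_lit 0x1666a38424e12289)) e e)))))
 (c z e
 (c z e
 (c (a (nat_lit 0x76ea3287106c5))
 (c z e
 (c (a (nat_lit 0x3665edc0000006)) e e))
 (c (a (nat_lit 0x1ee5925db32464)) e
 (c z e
 (c (a (nat_lit 0xef1ef6dcd6aa7)) e
 (c (a (nat_lit 0x19832323873984)) e
 (c (b (nat_lit 0xf7090d27fffe5)) e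
 (c z e
 (c z e
 (c (a (nat_lit 0x70d10c0602005)) e
 (c (a (nat_lit 0xd310020000005)) e
 (c (a (nat_lit 0x10a00000000005)) e e)))))))))))))))
 (c (a (nat_lit 0x2020202021))
 (c (a (nat_lit 0x1d7e4f370fe724))
 (c (a (nat_lit 0x86df254d8aaaa87)) e
 (c z e
 (c z e
 (c (a (nat_lit 0xe34ab0726890ba8)) e
 (c (a (nat_lit 0x1e70f33412cae007)) e e)))))
 (c (a (nat_lit 0xeec32c7c3a4a6))
 (c (a (nat_lit 0xecf548d6b07c8c9)) e e)
 (c (a (nat_lit 0x1c3c05c0439624)) e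
 (c (a (nat_lit 0xb43206bd56fe5))
 (c z e
 (c (a (nat_lit 0xaf5474000000006)) e e))
 (c (a (nat_lit 0x3208616393644)) e
 (c (a (nat_lit 0xbadd4f55315c5)) e
 (c (a (nat_lit 0xaf236d1117445)) e
 (c (a (nat_lit 0x482255405c5)) e
 (c (a (nat_lit 0x1f5cd979095745)) e
 (c z e
 (c (a (nat_lit 0xa7aa07c9f166)) e
 (c (a (nat_lit 0x12b2914bc00006)) e
 (c (a (nat_lit 0x17eb0000000005)) e e)))))))))))))
 (c (a (nat_lit 0x20203786))
 (c (a (nat_lit 0x9f240402590c5))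
 (c (a (nat_lit 0x175f35f4ee8a09e7)) e e)
 (c (b (nat_lit 0x1bc2828adbbfe5)) e
 (c (a (nat_lit 0x80c75b3b4da5))
 (c (a (nat_lit 0xb352e9000000006)) e e)
 (c (a (nat_lit 0x455737b2e025)) e
 (c (a (nat_lit 0x2988c4065486)) e
 (c (a (nat_lit 0x124f8d8d3a8ee5)) e
 (c (a (nat_lit 0x9a7e9d6305286)) e
 (c z e
 (c (a (nat_lit 0x66bab22150287)) e
 (c (a (nat_lit 0x76f4100fb8005)) e
 (c (a (nat_lit 0x19136be0000006)) e
 (c (a (nat_lit 0x1dc00000000004)) e e))))))))))))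
 (c (a (nat_lit 0x20203742a6))
 (c (a (nat_lit 0xa2a2a2b740926))
 (c z e
 (c (a (nat_lit 0x115cb5e6c0000006)) e
 (c (a (nat_lit 0x12a6c00000000007)) e e)))
 (c (a (nat_lit 0x728ea5b734025)) e
 (c (b (nat_lit 0x187878ffffffe4)) e
 (c z e
 (c z e
 (c z e
 (c z e
 (c z e
 (c (a (nat_lit 0x9a84692a00007)) e
 (c (a (nat_lit 0x15406000000004)) e e))))))))))
 (c (a (nat_lit 0x2020d1590c5))
 (c (a (nat_lit 0x548081f6e80c4)) e
 (c (b (nat_lit 0x26245869ff105)) e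
 (c z e
 (c z e
 (c z e
 (c (a (nat_lit 0x2e5e8f6bcfcc6)) e
 (c (a (nat_lit 0xbcc7687018007)) e
 (c (a (nat_lit 0x43b6e0000006)) e e))))))))
 (c (a (nat_lit 0x6b54af6485))
 (c (a (nat_lit 0x9cb2b8998e725)) e
 (c z e
 (c z e
 (c (a (nat_lit 0x5ad6546df7526)) e
 (c (a (nat_lit 0x7c12c37aca5c7)) e
 (c (a (nat_lit 0x3543201c00007)) e
 (c (a (nat_lit 0xf58e000000007)) e e)))))))
 (c (a (nat_lit 0x123853a822e5))
 (c (a (nat_lit 0xcc89c32119a6)) e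
 (c (a (nat_lit 0x62743e1d36927)) e e))
 (c (a (nat_lit 0x1cb5ca802004))
 (c (a (nat_lit 0x6844656476186)) e
 (c (a (nat_lit 0xacb7731830147)) e
 (c (a (nat_lit 0xf779125600007)) e e)))
 (c (a (nat_lit 0x18a040206063))
 (c (a (nat_lit 0x6e975c3a12006)) e
 (c (a (nat_lit 0xb946500000007)) e e))
 (c (a (nat_lit 0x4a49c3c5bc2))
 (c (a (nat_lit 0x16864000000006)) e e)
 (c (a (nat_lit 0x12f696b6b665)) e
 (c (a (nat_lit 0x4020203cc4)) e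
 (c (a (nat_lit 0x20205a6f84)) e
 (c (a (nat_lit 0x21d7efc804)) e
 (c (a (nat_lit 0xad04e4c4b26)) e
 (c (a (nat_lit 0x16cc44646484)) e
 (c (a (nat_lit 0x1fa060c12242)) e
 (c (a (nat_lit 0x80e381a1)) e
 (c (a (nat_lit 0x61602001)) e
 (c (a (nat_lit 0x40000001)) e e))))))))))))))))))))))) Tr.c Tr.e (nat_lit 0) C.cx C.cy
noncomputable def C313 : Tr := beta% (fun (c : Nat → Tr → Tr → Tr) (e : Tr) (z : Nat) (a b : Nat → Nat) =>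
 (c (a (nat_lit 0x20202021))
 (c (a (nat_lit 0x18181818181))
 (c (a (nat_lit 0x267b0b046c343))
 (c z e
 (c z e
 (c z e
 (c z e
 (c z e
 (c (a (nat_lit 0xb0beeededae9885)) e
 (c (a (nat_lit 0x11f2324a284d28a4)) e
 (c z e
 (c z e
 (c (a (nat_lit 0x1c1852443e1d086)) e
 (c (a (nat_lit 0x1058645e2a79265)) e
 (c (a (nat_lit 0x5a7294421f786e5)) e
 (c z e
 (c (a (nat_lit 0x15ddd00ca0000005)) e e))))))))))))))
 (c (a (nat_lit 0xc30500643a125))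
 (c (a (nat_lit 0xca603b187d35324)) e
 (c z e
 (c z e
 (c (a (nat_lit 0x4060566872752c7))
 (c (a (nat_lit 0x585c4c685850c7129)) e
 (c (a (nat_lit 0xca82d69a913324009)) e e))
 (c (a (nat_lit 0xc48609ec1e9fe6)) e
 (c z e
 (c (a (nat_lit 0xb0fc6bf17366745)) e
 (c (a (nat_lit 0x1c0e444036174a8)) e
 (c (a (nat_lit 0x1c7e5c601136767)) e
 (c (a (nat_lit 0xb882922bcc76466)) e
 (c (a (nat_lit 0x183847d19feb04e5)) e e)))))))))))
 (c (a (nat_lit 0x15140a24e04024))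
 (c z e
 (c (a (nat_lit 0x1b5ed29292527ac7)) e
 (c z e
 (c z e
 (c z e
 (c z e
 (c z e
 (c z e
 (c z e
 (c (a (nat_lit 0x68cc5726340c006)) e
 (c (a (nat_lit 0x1364c68120000006)) e e)))))))))))
 (c (a (nat_lit 0x1fcc2c02022163))
 (c (a (nat_lit 0x541490929aa5b85)) e
 (c (a (nat_lit 0xc62907ad6e1406)) e
 (c z e
 (c z e
 (c (a (nat_lit 0x88bd02f4e062d46)) e
 (c (a (nat_lit 0x1c641e43982a466)) e
 (c z e
 (c z e
 (c (a (nat_lit 0xb25731404200005)) e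
 (c (a (nat_lit 0x14fc0ee000000004)) e e))))))))))
 (c (a (nat_lit 0x14b48161616103))
 (c (a (nat_lit 0x445c5eba76b90c6)) e
 (c (a (nat_lit 0x28329a5e60d5447)) e
 (c z e
 (c (a (nat_lit 0x7c627ac70cca647)) e
 (c (a (nat_lit 0x221e5f6a4e2a227)) e
 (c (a (nat_lit 0x305dd0da3810087)) e
 (c (a (nat_lit 0x71caec8c8012006)) e
 (c (a (nat_lit 0xc7381c040000006)) e
 (c (a (nat_lit 0x11a4400000000006)) e e)))))))))
 (c (a (nat_lit 0x845c5c5e5d165))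
 (c (a (nat_lit 0x86c2b0a0c8c5327)) e
 (c (a (nat_lit 0x6a82587b0890d08)) e
 (c (a (nat_lit 0xac9d0908b498766)) e
 (c (b (nat_lit 0x467b55fe8852407)) e
 (c (a (nat_lit 0x55668c52843a2c7)) e
 (c (a (nat_lit 0x1769eaee23400006)) e e))))))
 (c (a (nat_lit 0x808080c99aee5))
 (c (a (nat_lit 0x14cbe872f072a926)) e
 (c (a (nat_lit 0xba85077550b6806)) e
 (c (a (nat_lit 0x5770aac67242a27)) e e)))
 (c (a (nat_lit 0x80833b2b63a4))
 (c (a (nat_lit 0xa57fa2a4040345)) e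
 (c (a (nat_lit 0x1aad20a0a0824126)) e
 (c (a (nat_lit 0x1741c1c483600006)) e e)))
 (c (a (nat_lit 0x2b8ac64a004)) e
 (c (a (nat_lit 0x5302a0603a3c5)) e
 (c (a (nat_lit 0x1fafc9c282a044)) e
 (c (a (nat_lit 0x1164e505c5a043)) e
 (c (a (nat_lit 0x1a9adae84807e3)) e
 (c (a (nat_lit 0x10b0d0d0d0f105)) e
 (c (a (nat_lit 0xdf151f4b5c0c1)) e
 (c (a (nat_lit 0x14141a1eb7884)) e
 (c (a (nat_lit 0x888c912bfea04)) e
 (c (a (nat_lit 0x14d4fe75a00004)) e e))))))))))))))))))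
 C312)
 (c (a (nat_lit 0x20200001)) C311
 (c (nat_lit 1)
 (c (a (nat_lit 0x202021))
 (c (a (nat_lit 0x4c4e4e50293c5))
 (c (a (nat_lit 0x90a4a6dcb197b66)) e
 (c z e
 (c z e
 (c z e
 (c z e
 (c z e
 (c z e
 (c z e
 (c (a (nat_lit 0x2b5e60220000006)) e
 (c (a (nat_lit 0x1141400000000006)) e e))))))))))
 (c (a (nat_lit 0x2e2e4e4a8d168)) e
 (c z e
 (c z e
 (c z e
 (c z e
 (c z e
 (c z e
 (c (a (nat_lit 0x110100e0c0a1e8)) e
 (c (b (nat_lit 0x2a1c183d61fe5)) e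
 (c (a (nat_lit 0x1638d9dc6ea086)) e e)))))))))))
 (c (a (nat_lit 0x2020203048)) e
 (c (a (nat_lit 0x20104848)) e
 (c (a (nat_lit 0x20381472e8)) e
 (c (a (nat_lit 0x58abeb22a8)) e
 (c (a (nat_lit 0x191633416007)) e
 (c (a (nat_lit 0x1f344be6a7a5))
 (c z e
 (c z e
 (c z e
 (c z e
 (c (a (nat_lit 0x87812a0a00007)) e e)))))
 (c (b (nat_lit 0x14e5a5285fe4)) e
 (c (a (nat_lit 0xdd27332ef84))
 (c (b (nat_lit 0x1abfeca5644046)) e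
 (c (a (nat_lit 0x1d3dff0b000005)) e e))
 (c (a (nat_lit 0x113394c442c2))
 (c (a (nat_lit 0x139cc80000003)) e e)
 (c (a (nat_lit 0xc0a09083)) e
 (c (a (nat_lit 0x2021031346)) e
 (c (a (nat_lit 0x58aeb0f9868)) e
 (c z e
 (c z e
 (c z e
 (c (a (nat_lit 0xdaeb4e06028)) e
 (c (a (nat_lit 0xeb4c0402028)) e
 (c (a (nat_lit 0x14c040202008)) e
 (c (a (nat_lit 0x142500000001)) e e))))))))))))))))))))
 (c (a (nat_lit 0x20202021))
 (c (a (nat_lit 0x202038ee26))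
 (c z e
 (c (a (nat_lit 0xab0b12bc924e8))
 (c (a (nat_lit 0x19bc574fceefa989)) e
 (c z e
 (c z e
 (c z e
 (c (a (nat_lit 0x17b587ecc0000008)) e e)))))
 (c z e
 (c z e
 (c z e
 (c (a (nat_lit 0xa80602285fb07)) e
 (c z e
 (c z e
 (c z e
 (c (a (nat_lit 0xfec0ed1c6ac47)) e e))))))))))
 (c (a (nat_lit 0x42436d3f308))
 (c (b (nat_lit 0x1432ed7febc2c7))
 (c (a (nat_lit 0x102f4a65e806c8a9)) e
 (c z e
 (c z e
 (c (a (nat_lit 0xa2f309128a00009)) e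
 (c (a (nat_lit 0x10ec2bc000000008)) e e)))))
 (c z e
 (c z e
 (c (a (nat_lit 0x1b7413a73538c8)) e
 (c (a (nat_lit 0x771d7273f06c7)) e
 (c z e
 (c z e
 (c z e
 (c (a (nat_lit 0x7454debd47349)) e e)))))))))
 (c z e
 (c (b (nat_lit 0x1b91bfe34007)) e
 (c (a (nat_lit 0x12ae8a03c3c6))
 (c z e
 (c (b (nat_lit 0x153aa543845fe7)) e
 (c z e
 (c z e
 (c z e
 (c (a (nat_lit 0xf12b83200008)) e e))))))
 (c (a (nat_lit 0x10a8a888a6a5))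
 (c (a (nat_lit 0x1ce6012a90f0c6)) e
 (c z e
 (c z e
 (c z e
 (c (a (nat_lit 0x12096060000008)) e e)))))
 (c (a (nat_lit 0x1696770822e3)) e
 (c (a (nat_lit 0x189cbcdcb786))
 (c (b (nat_lit 0x3bff0ce858007)) e
 (c (a (nat_lit 0x11db8f60000007)) e e))
 (c (a (nat_lit 0x2c384a50721))
 (c (a (nat_lit 0x1e4c2000000005)) e e)
 (c (a (nat_lit 0x40494973a7)) e
 (c z e
 (c z e
 (c (b (nat_lit 0x1ff2e0a10745)) e
 (c (b (nat_lit 0x1262e3697fe5)) e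
 (c (a (nat_lit 0x1373fa0400a5)) e
 (c (a (nat_lit 0x1456892aa766)) e
 (c (a (nat_lit 0x1ec1c0e0e0e5)) e
 (c (a (nat_lit 0xe4120a00001)) e
 (c (nat_lit 1) e e)))))))))))))))))))
 C310))))) Tr.c Tr.e (nat_lit 0) C.cx C.cy
noncomputable def C314 : Tr := beta% (fun (c : Nat → Tr → Tr → Tr) (e : Tr) (z : Nat) (a b : Nat → Nat) =>
 (c (a (nat_lit 0x202021))
 (c (a (nat_lit 0x20202021))
 (c (a (nat_lit 0x78783a38381)) e
 (c (a (nat_lit 0x40607ce4)) e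
 (c (a (nat_lit 0x202910e6)) e
 (c z e
 (c z e
 (c (a (nat_lit 0x15962f84cb28)) e
 (c (a (nat_lit 0x12344b88ac27)) e
 (c (a (nat_lit 0x1745e401a107)) e
 (c (a (nat_lit 0x136080800004)) e
 (c (a (nat_lit 0x14000000001)) e e))))))))))
 (c (a (nat_lit 0x201485))
 (c (a (nat_lit 0x2040427006)) e
 (c (a (nat_lit 0x8e90a757d67)) e
 (c z e
 (c z e
 (c (a (nat_lit 0x152b6f6ea168)) e
 (c (a (nat_lit 0x10cdcb4ee348)) e
 (c (a (nat_lit 0x1f97b2a4c007)) e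
 (c (a (nat_lit 0x178040000005)) e e))))))))
 (c (a (nat_lit 0x20382aa6))
 (c (a (nat_lit 0x6e72bf2d787)) e
 (c z e
 (c z e
 (c z e
 (c z e
 (c (a (nat_lit 0x13f04fe00007)) e
 (c (a (nat_lit 0x1d2000000004)) e e)))))))
 (c (a (nat_lit 0xa18eca707)) e
 (c z e
 (c (a (nat_lit 0x110d002006))
 (c (a (nat_lit 0x7237252008)) e e)
 (c (a (nat_lit 0xc2030fb26)) e
 (c (a (nat_lit 0x9514c3)) e
 (c (a (nat_lit 0x2101e0e1)) e
 (c (a (nat_lit 0x160c14061)) e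
 (c (a (nat_lit 0x1111112004)) e
 (c (a (nat_lit 0x125260b225)) e
 (c z e
 (c (b (nat_lit 0x1fe1a16121)) e
 (c (a (nat_lit 0x2006040c1)) e
 (c (a (nat_lit 0x20a061)) e
 (c (a (nat_lit 0x600001)) e e)))))))))))))))))
 (c (a (nat_lit 0x202021))
 (c (a (nat_lit 0x34b6e4))
 (c (a (nat_lit 0x6060b5dd04)) e
 (c (a (nat_lit 0x94cd152b7a7)) e
 (c z e
 (c (a (nat_lit 0x1518abac2ac7)) e
 (c (a (nat_lit 0x7bbf320bae7)) e
 (c (a (nat_lit 0x14ec310393c7)) e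
 (c (a (nat_lit 0x145daac00006)) e
 (c (a (nat_lit 0x18000000001)) e e))))))))
 (c (a (nat_lit 0xc1712cae7))
 (c (a (nat_lit 0x11785cbed927)) e
 (c z e
 (c z e
 (c (a (nat_lit 0x124c23aaf6e9)) e
 (c (a (nat_lit 0x1859069e4008)) e e)))))
 (c z e
 (c (a (nat_lit 0x1c47402005))
 (c (a (nat_lit 0x7464bb18029)) e
 (c (a (nat_lit 0x2ab31c1e00a)) e e))
 (c (a (nat_lit 0xb602034a5))
 (c (a (nat_lit 0x159b66200008)) e e)
 (c (a (nat_lit 0x349085)) e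
 (c (a (nat_lit 0x35353505)) e
 (c (a (nat_lit 0x10120a181)) e
 (c (b (nat_lit 0x17574a3fe5)) e
 (c (b (nat_lit 0x16769ff624)) e
 (c z e
 (c (b (nat_lit 0x1fe6a1c681)) e
 (c (a (nat_lit 0x2602203a1)) e
 (c (a (nat_lit 0x20c2a1)) e
 (c (a (nat_lit 0x406001)) e
 (c (a (nat_lit 0x20000001)) e e))))))))))))))))
 (c (nat_lit 1)
 (c (a (nat_lit 0x120d8948e7))
 (c (a (nat_lit 0x177f5af69106)) e
 (c z e
 (c z e
 (c (a (nat_lit 0x8f568598208)) e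
 (c (a (nat_lit 0xc83d2200008)) e e)))))
 (c (a (nat_lit 0x1763a02025))
 (c (a (nat_lit 0x13ba39a03707)) e e)
 (c (a (nat_lit 0x5e02195c5))
 (c (a (nat_lit 0x71f57260188)) e
 (c (a (nat_lit 0x17d9e5a00009)) e e))
 (c (a (nat_lit 0x2054ad45))
 (c (a (nat_lit 0x1ce580000008)) e e)
 (c (a (nat_lit 0x11717146)) e
 (c (a (nat_lit 0x80809003)) e
 (c (b (nat_lit 0x1d1ce05fe4)) e
 (c (b (nat_lit 0x1621fffe1)) e
 (c z e
 (c (b (nat_lit 0x1fe561c141)) e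
 (c (a (nat_lit 0x2c0a0c001)) e
 (c (a (nat_lit 0xc081e1)) e
 (c (a (nat_lit 0x806761)) e
 (c (a (nat_lit 0xa00001)) e e))))))))))))))
 (c (a (nat_lit 0x204041))
 (c (a (nat_lit 0x420205484))
 (c (a (nat_lit 0xa096a356986)) e
 (c (a (nat_lit 0x12b3958400c8)) e
 (c (a (nat_lit 0x19b543c00008)) e e)))
 (c (a (nat_lit 0x208c2e1))
 (c (a (nat_lit 0x18986460a008)) e
 (c (a (nat_lit 0x1a63e0000009)) e e))
 (c (a (nat_lit 0x11f1f145))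
 (c (a (nat_lit 0x15a000000006)) e e)
 (c (a (nat_lit 0x9697051a7)) e
 (c (a (nat_lit 0x9d5fdb466)) e
 (c (b (nat_lit 0x8507ff025)) e
 (c z e
 (c (b (nat_lit 0x1fe4232001)) e
 (c (a (nat_lit 0x173716c9a5)) e
 (c (a (nat_lit 0x8806053e3)) e
 (c (a (nat_lit 0xa040d9c3)) e
 (c (a (nat_lit 0xa06001)) e
 (c (a (nat_lit 0x20000001)) e e)))))))))))))
 (c (a (nat_lit 0x202021))
 (c (a (nat_lit 0x51b18023))
 (c (a (nat_lit 0x14c2a0a00007)) e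
 (c (a (nat_lit 0x1f4000000004)) e e))
 (c (a (nat_lit 0x20405605)) e
 (c (a (nat_lit 0x12323330e8)) e
 (c z e
 (c z e
 (c (a (nat_lit 0xcb5d5b5a6)) e
 (c (a (nat_lit 0x381218061)) e
 (c (a (nat_lit 0x80a180c1)) e
 (c (a (nat_lit 0x4040f6a2)) e
 (c (a (nat_lit 0x60c08101)) e
 (c (a (nat_lit 0x400001)) e e)))))))))))
 (c (nat_lit 1)
 (c (a (nat_lit 0x6971ab606)) e
 (c z e
 (c z e
 (c (b (nat_lit 0x1fe46301e1)) e
 (c (a (nat_lit 0x1413f3e626)) e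
 (c (a (nat_lit 0x15a0804002)) e
 (c (a (nat_lit 0x120c14461)) e
 (c (a (nat_lit 0x8044e661)) e
 (c (a (nat_lit 0x40a001)) e
 (c (nat_lit 1) e e))))))))))
 (c (a (nat_lit 0x202021))
 (c z e
 (c (b (nat_lit 0x1fe4a1a3a1)) e
 (c (a (nat_lit 0x1010100026)) e
 (c (a (nat_lit 0x407143)) e
 (c (a (nat_lit 0x60804041)) e
 (c (a (nat_lit 0x80200001)) e
 (c (a (nat_lit 0x20e06061)) e
 (c (a (nat_lit 0x100200001)) e e))))))))
 (c (a (nat_lit 0x202021))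
 (c (a (nat_lit 0x261a021)) e
 (c (a (nat_lit 0x220a0e1)) e
 (c (a (nat_lit 0x3e12063c1)) e
 (c (a (nat_lit 0x40c061)) e
 (c (a (nat_lit 0x6040c1)) e
 (c (a (nat_lit 0xa060a001)) e
 (c (a (nat_lit 0x20000001)) e e)))))))
 (c (a (nat_lit 0x202021))
 (c (a (nat_lit 0x2021)) e
 (c (a (nat_lit 0x202021)) e
 (c (a (nat_lit 0x20202021)) e
 (c (a (nat_lit 0x20202021)) e
 (c (a (nat_lit 0x20200001)) e e)))))
 (c (a (nat_lit 0x202021))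
 (c (a (nat_lit 0x20202021)) e
 (c (a (nat_lit 0x20202021)) e
 (c (a (nat_lit 0x20202001)) e
 (c (a (nat_lit 0x20000001)) e e))))
 (c (a (nat_lit 0x202021))
 (c (a (nat_lit 0x20202021)) e
 (c (a (nat_lit 0x20200001)) e e))
 (c (a (nat_lit 0x202021))
 (c (a (nat_lit 0x20000001)) e e)
 (c (a (nat_lit 0x202021)) e
 (c (a (nat_lit 0x202021)) e
 (c (a (nat_lit 0x202021)) e
 (c (a (nat_lit 0x202021)) e
 (c (nat_lit 1) e
 (c (a (nat_lit 0x21)) e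
 (c (a (nat_lit 0x2036e5)) e
 (c (a (nat_lit 0x16c2e5)) e
 (c z e
 (c (a (nat_lit 0x16c02002)) e
 (c (nat_lit 1) e
 (c (a (nat_lit 0x402021)) e
 (c (a (nat_lit 0x200001)) e e)))))))))))))))))))))))))) Tr.c Tr.e (nat_lit 0) C.cx C.cy
noncomputable def C315 : Tr := beta% (fun (c : Nat → Tr → Tr → Tr) (e : Tr) (z : Nat) (a b : Nat → Nat) =>
 (c (a (nat_lit 0x202021))
 (c (a (nat_lit 0x20202021))
 (c (a (nat_lit 0x606266652a4))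
 (c (a (nat_lit 0xd2d1cfd20a084)) e
 (c z e
 (c z e
 (c z e
 (c (a (nat_lit 0x84331434201e7)) e
 (c (a (nat_lit 0x1cd8dc20400005)) e
 (c (a (nat_lit 0x1a566000000005)) e e)))))))
 (c z e
 (c z e
 (c (a (nat_lit 0xa5047674746))
 (c (b (nat_lit 0x1fff5fe5416006)) e
 (c (a (nat_lit 0x1b41e040000006)) e e))
 (c (a (nat_lit 0x126040202005)) e
 (c (a (nat_lit 0x12b2926bdac5)) e
 (c (b (nat_lit 0x404119ff1e7)) e
 (c z e
 (c z e
 (c (a (nat_lit 0x1f3efb5a4b67)) e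
 (c (a (nat_lit 0x1fc200605844)) e
 (c (a (nat_lit 0x6080789864)) e
 (c (a (nat_lit 0x101000001)) e
 (c (a (nat_lit 0x2000000001)) e e))))))))))))))
 (c (a (nat_lit 0x20404041))
 (c z e
 (c (a (nat_lit 0x17b402632326))
 (c (b (nat_lit 0x1ffffff1770ce7)) e
 (c (b (nat_lit 0x1ffff971c68008)) e e))
 (c (a (nat_lit 0x11a051d1d1c6))
 (c (a (nat_lit 0x304e84a00007)) e
 (c (a (nat_lit 0x162000000003)) e e))
 (c (b (nat_lit 0x1f1ebfa0bfe4))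
 (c (a (nat_lit 0x16c00000000003)) e e)
 (c z e
 (c z e
 (c z e
 (c z e
 (c (a (nat_lit 0x12f1514d0009)) e
 (c (a (nat_lit 0x40904845)) e
 (c (a (nat_lit 0x162c0a001)) e
 (c (a (nat_lit 0x200000001)) e e))))))))))))
 (c (a (nat_lit 0x40404041))
 (c (a (nat_lit 0x1ca080408003))
 (c (a (nat_lit 0x646eb2a880321)) e
 (c (a (nat_lit 0x921ddc0e00005)) e e))
 (c (a (nat_lit 0xc0c0c09904))
 (c (a (nat_lit 0x10dd8ec0000005)) e e)
 (c (a (nat_lit 0xe4ea0681b06)) e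
 (c z e
 (c z e
 (c z e
 (c z e
 (c z e
 (c (a (nat_lit 0x125aa553d3a6)) e
 (c (a (nat_lit 0x156020200006)) e
 (c (a (nat_lit 0x2000000001)) e e)))))))))))
 (c (a (nat_lit 0x60402001))
 (c (a (nat_lit 0xe0e20229925))
 (c (a (nat_lit 0x1d6e6000000004)) e e)
 (c (a (nat_lit 0x5e62650eaa7)) e
 (c z e
 (c z e
 (c z e
 (c z e
 (c (a (nat_lit 0xdad13496508)) e
 (c (b (nat_lit 0x1ff0ae20c005)) e
 (c (a (nat_lit 0x106d40000005)) e e)))))))))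
 (c (a (nat_lit 0x20204041))
 (c (a (nat_lit 0xcaf95eface6)) e
 (c (a (nat_lit 0xb0e70872247)) e
 (c z e
 (c z e
 (c z e
 (c (a (nat_lit 0x11778be04ac8)) e
 (c (a (nat_lit 0x10a3a3a00007)) e
 (c (a (nat_lit 0x2000000001)) e e))))))))
 (c (a (nat_lit 0x20203bc6))
 (c (b (nat_lit 0x83999b57fe5)) e
 (c (a (nat_lit 0xb8b5b6799c7)) e
 (c z e
 (c z e
 (c (b (nat_lit 0x1ffadd2ce006)) e
 (c (a (nat_lit 0x53520000004)) e e))))))
 (c (a (nat_lit 0x203cb7c6))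
 (c (a (nat_lit 0x44490d3ce27)) e e)
 (c (a (nat_lit 0x156de227)) e
 (c z e
 (c (a (nat_lit 0x11a8802006)) e
 (c (a (nat_lit 0x1ac2020084)) e
 (c (a (nat_lit 0x1677232461)) e
 (c (a (nat_lit 0x120e361)) e
 (c (a (nat_lit 0x2080e1a1)) e
 (c (a (nat_lit 0xe0a261)) e
 (c (b (nat_lit 0xca3fe1)) e
 (c z e
 (c (a (nat_lit 0x1b40606023)) e
 (c (a (nat_lit 0xe140a021)) e
 (c (a (nat_lit 0x1e0a00001)) e e))))))))))))))))))))
 (c (a (nat_lit 0x202021))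
 (c (a (nat_lit 0x20202021))
 (c (a (nat_lit 0x1d1643e3c3c4))
 (c z e
 (c (b (nat_lit 0x1fffffffe18021)) e
 (c (b (nat_lit 0x1ffffff8a8e002)) e e)))
 (c (a (nat_lit 0x116040202025))
 (c (a (nat_lit 0x87090f270181)) e
 (c (a (nat_lit 0x33cd20400007)) e e))
 (c (a (nat_lit 0x1a2a141c261))
 (c (a (nat_lit 0x17466020000006)) e
 (c (a (nat_lit 0x16e00000000004)) e e))
 (c (a (nat_lit 0xe8ea0409ae5)) e
 (c z e
 (c z e
 (c z e
 (c z e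
 (c (a (nat_lit 0x161575602328)) e
 (c (a (nat_lit 0x883614001)) e
 (c (a (nat_lit 0x98520800001)) e
 (c (a (nat_lit 0x44000000001)) e e))))))))))))
 (c (a (nat_lit 0x60606041))
 (c (a (nat_lit 0x14241e001))
 (c (a (nat_lit 0x116aa100a04005)) e
 (c (a (nat_lit 0x16296840000007)) e e))
 (c (a (nat_lit 0x103020404706))
 (c (a (nat_lit 0x14684000000006)) e e)
 (c (a (nat_lit 0x80b66585)) e
 (c z e
 (c z e
 (c z e
 (c z e
 (c (a (nat_lit 0x1cbcee41a7a8)) e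
 (c (a (nat_lit 0x116d202d6006)) e
 (c (a (nat_lit 0x100000001)) e e))))))))))
 (c (a (nat_lit 0xa0806081))
 (c (a (nat_lit 0x120e19902)) e
 (c (a (nat_lit 0x105191f13d26)) e
 (c z e
 (c z e
 (c z e
 (c z e
 (c (a (nat_lit 0x16fa9970b807)) e
 (c (a (nat_lit 0xcdaa0800004)) e
 (c (a (nat_lit 0x164000000004)) e e)))))))))
 (c (a (nat_lit 0x20203d27))
 (c (a (nat_lit 0xb8f8ad749a6)) e
 (c z e
 (c z e
 (c z e
 (c z e
 (c (a (nat_lit 0xe47e3744008)) e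
 (c (a (nat_lit 0x18ae80000005)) e e)))))))
 (c (a (nat_lit 0x203003e8))
 (c (b (nat_lit 0x56b51bff347)) e
 (c (b (nat_lit 0x8ce3ff4c908)) e
 (c z e
 (c z e
 (c (a (nat_lit 0x1679ba800007)) e
 (c (a (nat_lit 0x24000000001)) e e))))))
 (c (a (nat_lit 0x1c306927))
 (c (b (nat_lit 0x9ff9265fa7)) e e)
 (c z e
 (c (a (nat_lit 0x1e55e02005)) e
 (c (a (nat_lit 0x1500202a05)) e
 (c (a (nat_lit 0x81626c81)) e
 (c (a (nat_lit 0xa061c1)) e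
 (c (a (nat_lit 0xe06021)) e
 (c (a (nat_lit 0x203145)) e
 (c (a (nat_lit 0x2035c944)) e
 (c z e
 (c (a (nat_lit 0x18c0804043)) e
 (c (a (nat_lit 0x120606001)) e
 (c (a (nat_lit 0xe0c02001)) e
 (c (a (nat_lit 0xc0000001)) e e)))))))))))))))))))
 C314))) Tr.c Tr.e (nat_lit 0) C.cx C.cy
noncomputable def C316 : Tr := beta% (fun (c : Nat → Tr → Tr → Tr) (e : Tr) (z : Nat) (a b : Nat → Nat) =>
 (c (a (nat_lit 0x202021))
 (c (nat_lit 1)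
 (c z e
 (c (a (nat_lit 0x116d2da0e0e7))
 (c z e
 (c z e
 (c z e
 (c z e
 (c z e
 (c z e
 (c z e
 (c z e
 (c (b (nat_lit 0x7dffffb844009)) e e)))))))))
 (c (a (nat_lit 0x167820402004)) e
 (c (a (nat_lit 0x15e040252124)) e
 (c (a (nat_lit 0x348a8aaa64)) e
 (c (a (nat_lit 0x1170f0f0f047))
 (c (a (nat_lit 0x178c2832604947)) e e)
 (c (a (nat_lit 0x2080805ec3))
 (c z e
 (c (b (nat_lit 0x1ffff9ac000005)) e e))
 (c (a (nat_lit 0x1b3d5d7f7c26))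
 (c (a (nat_lit 0x1982a140000005)) e e)
 (c z e
 (c (a (nat_lit 0x16995652b7a6)) e
 (c z e
 (c z e
 (c z e
 (c (a (nat_lit 0x1796a0202006)) e
 (c (a (nat_lit 0x16a020203526)) e
 (c (a (nat_lit 0x2040353526)) e
 (c (a (nat_lit 0x3160200004)) e
 (c (a (nat_lit 0x110000000004)) e e))))))))))))))))))
 (c (a (nat_lit 0x202001))
 (c (a (nat_lit 0x1a95e8e8e8e5))
 (c (a (nat_lit 0x109d21202a9227))
 (c (a (nat_lit 0x706931030067588)) e e)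
 (c z e
 (c z e
 (c z e
 (c (a (nat_lit 0x78af12ee780a9)) e
 (c z e
 (c z e
 (c z e
 (c (b (nat_lit 0x1fe997c9000009)) e e)))))))))
 (c (a (nat_lit 0x17804040a005))
 (c (b (nat_lit 0xfdfe9ead17168))
 (c (a (nat_lit 0x9302be460000009)) e e) e)
 (c z e
 (c z e
 (c (a (nat_lit 0xf0f0f0f1228))
 (c (a (nat_lit 0xb11ee068923a8)) e e)
 (c (a (nat_lit 0xe8e8e94eb87)) e
 (c z e
 (c (a (nat_lit 0x147ece68e066)) e
 (c (a (nat_lit 0x13effc789708)) e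
 (c z e
 (c z e
 (c z e
 (c (a (nat_lit 0x1f5320e03427)) e
 (c (a (nat_lit 0x1320e0345427)) e
 (c (a (nat_lit 0x3480402005)) e
 (c (a (nat_lit 0x142020000005)) e e))))))))))))))))
 (c (a (nat_lit 0x20202021))
 (c (a (nat_lit 0x1c1c37d801a3))
 (c (a (nat_lit 0x2afb454202045))
 (c (a (nat_lit 0x1d3186c000000006)) e e) e)
 (c z e
 (c z e
 (c z e
 (c z e
 (c (a (nat_lit 0x12747210cee8)) e
 (c (a (nat_lit 0x983d08f56e7)) e
 (c z e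
 (c z e
 (c z e
 (c z e
 (c z e
 (c (b (nat_lit 0x113fe0202027)) e
 (c (a (nat_lit 0x2e2c1600001)) e
 (c (a (nat_lit 0x18000000001)) e e)))))))))))))))
 (c (a (nat_lit 0x20202021))
 (c z e
 (c z e
 (c z e
 (c z e
 (c (a (nat_lit 0xac552d2cf47)) e
 (c (a (nat_lit 0x68c96500d67)) e
 (c z e
 (c z e
 (c z e
 (c z e
 (c (b (nat_lit 0x1ff983840047)) e
 (c (a (nat_lit 0x194020202007)) e
 (c (a (nat_lit 0x1c0000001)) e e)))))))))))))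
 (c (a (nat_lit 0x20202021))
 (c z e
 (c (a (nat_lit 0x16eeea202585))
 (c (b (nat_lit 0x1ff45fee204007)) e
 (c (a (nat_lit 0x10a7e780000008)) e e))
 (c (b (nat_lit 0x100d4a9ff6a6))
 (c (a (nat_lit 0x114b2000000005)) e e)
 (c z e
 (c z e
 (c (a (nat_lit 0x15fa332fe047)) e
 (c z e
 (c z e
 (c z e
 (c (b (nat_lit 0x1fffa3808024)) e
 (c (a (nat_lit 0x1f6360200004)) e
 (c (a (nat_lit 0x130000000001)) e e))))))))))))
 (c (a (nat_lit 0x20404021))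
 (c (a (nat_lit 0xf4aa0cabde4))
 (c (b (nat_lit 0xc5ff3c1000004)) e
 (c (a (nat_lit 0x1365a000000006)) e e))
 (c (a (nat_lit 0x1875b95fd486))
 (c (a (nat_lit 0x18000000000002)) e e)
 (c z e
 (c (a (nat_lit 0xd31cd4040e7)) e
 (c (a (nat_lit 0x1f55d507a326)) e
 (c z e
 (c z e
 (c z e
 (c (a (nat_lit 0x172aba04006)) e
 (c (a (nat_lit 0x1ed120000005)) e e))))))))))
 (c (a (nat_lit 0x40402001))
 (c (a (nat_lit 0xd50748da5a6)) e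
 (c (a (nat_lit 0xd355000e447)) e
 (c (a (nat_lit 0xe02410df0e6)) e
 (c (a (nat_lit 0x14b2bc0faca6)) e e))))
 (c (a (nat_lit 0x204061))
 (c (a (nat_lit 0x14e1217da0a4)) e
 (c (a (nat_lit 0x9a9d162c306)) e e))
 (c (a (nat_lit 0x40406081))
 (c (a (nat_lit 0x13d3eb6e6005)) e
 (c (a (nat_lit 0x404a543df67)) e e))
 (c (a (nat_lit 0x20203da6))
 (c (a (nat_lit 0x3a3a3009886)) e e)
 (c (a (nat_lit 0x1d4985)) e
 (c z e
 (c z e
 (c (a (nat_lit 0x1dd2eb6b65)) e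
 (c (a (nat_lit 0x1200202063)) e
 (c (a (nat_lit 0x20a1c1)) e
 (c (a (nat_lit 0x810001)) e
 (c (a (nat_lit 0x8060c1)) e
 (c (b (nat_lit 0x40c1dfe1)) e
 (c (b (nat_lit 0x122ffffe1)) e
 (c z e
 (c (a (nat_lit 0xe73604024)) e
 (c (a (nat_lit 0x1340200004)) e e)))))))))))))))))))))))
 (c (nat_lit 1)
 (c (a (nat_lit 0x20200001))
 (c (a (nat_lit 0x14e080806043))
 (c (a (nat_lit 0x15c0402027cfa6))
 (c (a (nat_lit 0x430cd0cc4f8a406)) e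
 (c (a (nat_lit 0xf0e926869c00008)) e e))
 (c (b (nat_lit 0x81ff1f0f8fe07))
 (c (a (nat_lit 0xc37e7a4e0000008)) e e)
 (c (b (nat_lit 0x9fe2924f0026)) e
 (c (a (nat_lit 0x100f17f558a027)) e
 (c (a (nat_lit 0xbf31033ec04c7)) e
 (c z e
 (c z e
 (c (a (nat_lit 0x10d5f4f08b6007)) e
 (c (a (nat_lit 0x18fb4440000007)) e e)))))))))
 (c (a (nat_lit 0x11516ecec1c3))
 (c (a (nat_lit 0x4241c6d99d07))
 (c (a (nat_lit 0x1761e02000000007)) e e)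
 (c (a (nat_lit 0x660a332d2068)) e
 (c z e
 (c z e
 (c z e
 (c z e
 (c z e
 (c (a (nat_lit 0x14238000000008)) e e))))))))
 (c (a (nat_lit 0x1ddd5d5d7945)) e
 (c (a (nat_lit 0x11b1b1d1d6a7))
 (c z e
 (c (a (nat_lit 0x12363249092728)) e e))
 (c (a (nat_lit 0x1494b4bd2f06))
 (c (a (nat_lit 0x11e4a1236124a8)) e e)
 (c (a (nat_lit 0x15f5fa533327)) e
 (c (a (nat_lit 0xb9a6221c1c5)) e
 (c (a (nat_lit 0x1e9194d4b5a6)) e
 (c (a (nat_lit 0x383912ff1e8)) e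
 (c z e
 (c z e
 (c (a (nat_lit 0x53b40602047)) e
 (c (a (nat_lit 0x1b20602027e7)) e
 (c (a (nat_lit 0x100205f5f25)) e
 (c (a (nat_lit 0x3141600001)) e
 (c (a (nat_lit 0x86000000001)) e e))))))))))))))))
 (c (a (nat_lit 0x200001))
 (c (a (nat_lit 0xe4e6e9edee3))
 (c (a (nat_lit 0x40205c3e8e26)) e
 (c z e
 (c z e
 (c z e
 (c z e
 (c (b (nat_lit 0xbbff38d044008)) e
 (c (a (nat_lit 0x93391a0000006)) e e)))))))
 (c z e
 (c z e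
 (c z e
 (c z e
 (c (a (nat_lit 0x12e86fefcd27)) e
 (c (b (nat_lit 0x5c5b3dffba7)) e
 (c z e
 (c z e
 (c z e
 (c (a (nat_lit 0x13a9602029c8)) e
 (c (a (nat_lit 0x12c040337067)) e
 (c (a (nat_lit 0x12c1a20001)) e
 (c (a (nat_lit 0x40060000001)) e e))))))))))))))
 (c (a (nat_lit 0x20202021))
 (c z e
 (c z e
 (c (a (nat_lit 0x1296e0602026)) e
 (c (a (nat_lit 0x174070706fe6)) e
 (c (b (nat_lit 0x4644b9ff347)) e
 (c z e
 (c z e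
 (c z e
 (c z e
 (c z e
 (c (b (nat_lit 0x1ffff1517164)) e
 (c (b (nat_lit 0x1fe180e00001)) e
 (c (a (nat_lit 0x6000000001)) e e)))))))))))))
 (c (a (nat_lit 0x20202001))
 (c (a (nat_lit 0x136e82622225))
 (c (b (nat_lit 0x1ff3f6e9a68405)) e
 (c (b (nat_lit 0xcc7ff9c30005)) e e))
 (c (a (nat_lit 0x19e1e2a2c3a5))
 (c (b (nat_lit 0x1fe9b261400006)) e
 (c (a (nat_lit 0x1d0d6000000006)) e e))
 (c (a (nat_lit 0x848082454c6))
 (c (a (nat_lit 0xe600000000001)) e e)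
 (c z e
 (c z e
 (c (a (nat_lit 0x9323c162f08)) e
 (c z e
 (c z e
 (c (b (nat_lit 0x133fffe444e1)) e
 (c (a (nat_lit 0xe034d4ba001)) e
 (c (a (nat_lit 0x1c060000001)) e e)))))))))))
 (c (nat_lit 1)
 (c (a (nat_lit 0xc0a0a0fc25))
 (c (a (nat_lit 0xafb8100000004)) e
 (c (a (nat_lit 0x19c00000000004)) e e))
 (c (a (nat_lit 0xbac26b027a7)) e
 (c z e
 (c (a (nat_lit 0xeb4aae12d67)) e
 (c (a (nat_lit 0xdc94ac9f108)) e
 (c z e
 (c z e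
 (c (b (nat_lit 0x1ff6c1c04004)) e
 (c (a (nat_lit 0x130e2d600005)) e
 (c (a (nat_lit 0xc6000000001)) e e))))))))))
 (c (a (nat_lit 0xa06060a1))
 (c (a (nat_lit 0xff33f122da5)) e
 (c (a (nat_lit 0xbb16a2606e7)) e
 (c (a (nat_lit 0xe40414b1206)) e
 (c (a (nat_lit 0x686cd4ffd27)) e
 (c z e
 (c z e
 (c (a (nat_lit 0x6b4c82c4006)) e
 (c (a (nat_lit 0x1ce620000002)) e e))))))))
 (c (a (nat_lit 0x202021))
 (c (a (nat_lit 0xfe056d6a905)) e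
 (c (a (nat_lit 0x82e11cd0107)) e e))
 (c (a (nat_lit 0x20203c06))
 (c (b (nat_lit 0xab007dff626)) e
 (c (a (nat_lit 0xa29d347c187)) e e))
 (c (a (nat_lit 0x1d9886))
 (c (a (nat_lit 0x263cae03788)) e e)
 (c (a (nat_lit 0xd9a789287)) e
 (c z e
 (c (a (nat_lit 0x1f4c402025)) e
 (c (a (nat_lit 0x1a0dedede5)) e
 (c (a (nat_lit 0xc0a06001)) e
 (c (a (nat_lit 0xba080e2e1)) e
 (c (a (nat_lit 0x6100e1)) e
 (c (a (nat_lit 0xa07803)) e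
 (c (b (nat_lit 0x571fe3)) e
 (c z e
 (c (a (nat_lit 0x1100402005)) e
 (c (a (nat_lit 0x4a220c001)) e
 (c (a (nat_lit 0xa0000001)) e e))))))))))))))))))))))
 C315))) Tr.c Tr.e (nat_lit 0) C.cx C.cy
noncomputable def C317 : Tr := beta% (fun (c : Nat → Tr → Tr → Tr) (e : Tr) (z : Nat) (a b : Nat → Nat) =>
 (c (a (nat_lit 0x20202021))
 (c (a (nat_lit 0x2020203546))
 (c (a (nat_lit 0x121210326b67c5))
 (c (a (nat_lit 0x1677d7b69a5c1ae6)) e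
 (c z e
 (c z e
 (c z e
 (c z e
 (c (b (nat_lit 0xbb5042a6cdfe7a7)) e
 (c (a (nat_lit 0x1f80ac3f65aa23a6)) e
 (c (a (nat_lit 0x13363c7387400006)) e
 (c (a (nat_lit 0x9f103c000000006)) e e)))))))))
 (c z e
 (c z e
 (c z e
 (c z e
 (c z e
 (c (a (nat_lit 0x12e061838d60c5)) e
 (c (a (nat_lit 0xcb131315305a6)) e
 (c (a (nat_lit 0x4a464e4a3b6a4)) e
 (c (a (nat_lit 0x19d7d85b2f4c84)) e
 (c (a (nat_lit 0x155a9a742a2005)) e e)))))))))))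
 (c (a (nat_lit 0x20336a28)) e
 (c (a (nat_lit 0x20390d2c68)) e
 (c z e
 (c (a (nat_lit 0x1db0d0802007)) e
 (c (a (nat_lit 0x106e00402005))
 (c (b (nat_lit 0xf5ffcfbc7fd66)) e
 (c z e
 (c z e
 (c z e
 (c z e
 (c (b (nat_lit 0x1ffe5d88e00007)) e e))))))
 (c (a (nat_lit 0x1029898a4005)) e
 (c (a (nat_lit 0x16160eaaeaa5))
 (c z e
 (c z e
 (c (a (nat_lit 0x11d77c400004)) e
 (c (a (nat_lit 0x112e000000002)) e e))))
 (c (a (nat_lit 0x10a1414100e4))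
 (c (a (nat_lit 0x43efd5c36005)) e
 (c (a (nat_lit 0x16aa6ac0000006)) e e))
 (c (a (nat_lit 0xc0a0c112e4))
 (c (a (nat_lit 0x1fd8000000002)) e e)
 (c (a (nat_lit 0xb3373980866)) e
 (c z e
 (c z e
 (c z e
 (c z e
 (c (a (nat_lit 0x75400802025)) e
 (c (a (nat_lit 0x1440c0408065)) e
 (c (a (nat_lit 0x6e0e0a1c001)) e
 (c (a (nat_lit 0x140600001)) e
 (c (a (nat_lit 0x4000000001)) e e))))))))))))))))))))
 (c (a (nat_lit 0x20202021))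
 (c (a (nat_lit 0x15ccace8)) e
 (c z e
 (c z e
 (c (a (nat_lit 0x18bac0402125)) e
 (c (b (nat_lit 0x14c7e7f0ffe6)) e
 (c z e
 (c z e
 (c (a (nat_lit 0xdceb1f2f487))
 (c (a (nat_lit 0xb52162a200007)) e e)
 (c z e
 (c z e
 (c z e
 (c z e
 (c z e
 (c z e
 (c (b (nat_lit 0x15dfe0e08003)) e
 (c (a (nat_lit 0x58442a220e1)) e
 (c (a (nat_lit 0x3e221a04001)) e
 (c (a (nat_lit 0xc140000001)) e e))))))))))))))))))
 (c (a (nat_lit 0x20202021))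
 (c (a (nat_lit 0x10ae2d402027)) e
 (c (a (nat_lit 0x144e60202006)) e
 (c (a (nat_lit 0x10402043e1c6)) e
 (c (a (nat_lit 0x4588ea180a5)) e
 (c z e
 (c z e
 (c z e
 (c z e
 (c z e
 (c z e
 (c z e
 (c z e
 (c z e
 (c z e
 (c (b (nat_lit 0x14bfffe04025)) e
 (c (b (nat_lit 0x1fe301600001)) e
 (c (a (nat_lit 0xc000000001)) e e)))))))))))))))))
 (c (a (nat_lit 0x20202021))
 (c (b (nat_lit 0x1940a0a13fe4))
 (c (a (nat_lit 0x1326064712e045)) e e)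
 (c z e
 (c z e
 (c z e
 (c z e
 (c z e
 (c z e
 (c z e
 (c z e
 (c z e
 (c z e
 (c z e
 (c (b (nat_lit 0x1ff8dfe58025)) e
 (c (b (nat_lit 0x18dfe0402005)) e
 (c (a (nat_lit 0x160000001)) e e)))))))))))))))
 (c (a (nat_lit 0x40404041))
 (c (a (nat_lit 0x1e9efedeae24)) e
 (c (a (nat_lit 0x20608096e6)) e
 (c z e
 (c z e
 (c z e
 (c z e
 (c z e
 (c z e
 (c (b (nat_lit 0x320b19ff9c8)) e
 (c z e
 (c z e
 (c (b (nat_lit 0x1ff080602025)) e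
 (c (a (nat_lit 0x108040200005)) e
 (c (nat_lit 1) e e))))))))))))))
 (c (a (nat_lit 0x40404041))
 (c (a (nat_lit 0x888a8d263e5))
 (c (a (nat_lit 0x21521e61a025)) e e)
 (c z e
 (c z e
 (c z e
 (c z e
 (c z e
 (c z e
 (c (a (nat_lit 0x4c4afd0ab48)) e
 (c z e
 (c z e
 (c (b (nat_lit 0x5ff3806006)) e
 (c (b (nat_lit 0x1ff740000005)) e e))))))))))))
 (c (a (nat_lit 0x20202021))
 (c (a (nat_lit 0xbf02c2beca6))
 (c (b (nat_lit 0x165e3ffc474005)) e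
 (c (a (nat_lit 0x108a4680000007)) e e))
 (c (a (nat_lit 0x118f4bafe647))
 (c (a (nat_lit 0x10660000000005)) e e)
 (c z e
 (c (a (nat_lit 0x12958a602047)) e
 (c (a (nat_lit 0x1b3230c34006)) e e)))))
 (c (a (nat_lit 0x60404041))
 (c (a (nat_lit 0x1292988e2926)) e
 (c z e
 (c (a (nat_lit 0x1eb152b28f45)) e
 (c (a (nat_lit 0x1554144de3e6)) e e))))
 (c (a (nat_lit 0x202001))
 (c (a (nat_lit 0xd5310d07b44)) e
 (c (a (nat_lit 0x1d7abeed2be5)) e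
 (c (a (nat_lit 0x19b22b8b2c66)) e e)))
 (c (a (nat_lit 0x20202001))
 (c (a (nat_lit 0x1291c5eb46a4)) e
 (c (a (nat_lit 0xe2b8e560085)) e e))
 (c (a (nat_lit 0x20204061))
 (c (a (nat_lit 0x1979d9d289e4)) e e)
 (c (a (nat_lit 0x20203d85)) e
 (c (a (nat_lit 0x2031e9e5))
 (c (a (nat_lit 0xbf1cd000006)) e e)
 (c z e
 (c z e
 (c (a (nat_lit 0x1805e02025)) e
 (c (a (nat_lit 0x16a0200083)) e
 (c (a (nat_lit 0xc08200e1)) e
 (c (a (nat_lit 0x161c0c001)) e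
 (c (a (nat_lit 0x1a040a181)) e
 (c (a (nat_lit 0xe1226001)) e
 (c (b (nat_lit 0x1814921fe2)) e
 (c z e
 (c (a (nat_lit 0x1740202005)) e
 (c (a (nat_lit 0x160000001)) e e)))))))))))))))))))))))))) Tr.c Tr.e (nat_lit 0) C.cx C.cy

end Pool.Agent.Work.MP_82fd4a_nt.P.H
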