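import Pool.Agent.Work.MP_82fd4a_nt.P.Dx

set_option autoImplicit false
set_option linter.all false
set_option maxRecDepth 100000

namespace Pool.Agent.Work.MP_82fd4a_nt.P.H
open Y Y.Tr

noncomputable def C318 : Tr := beta% (fun (c : Nat → Tr → Tr → Tr) (e : Tr) (z : Nat) (a b : Nat → Nat) =>
 (c (a (nat_lit 0x20404001))
 (c (a (nat_lit 0x2040608021))
 (c (a (nat_lit 0xe4e4e87924005))
 (c (a (nat_lit 0x6a8aa0989d19a67))
 (c (a (nat_lit 0x8a62805472b797588)) e e)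
 (c z e
 (c z e
 (c z e
 (c z e
 (c z e
 (c z e
 (c (a (nat_lit 0x24ff1d8e6c2a007)) e
 (c (a (nat_lit 0x2775a260000006)) e
 (c (a (nat_lit 0x1270200000000006)) e e))))))))))
 (c z e
 (c z e
 (c z e
 (c z e
 (c z e
 (c z e
 (c (a (nat_lit 0x116c4e4e8ef406)) e
 (c (a (nat_lit 0x17b81859775b26)) e
 (c (a (nat_lit 0xe2e2e50d8c1a5)) e
 (c (a (nat_lit 0xeff3f71864045)) e e)))))))))))
 (c (a (nat_lit 0x20203089)) e
 (c (a (nat_lit 0x2020324849)) e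
 (c (a (nat_lit 0x2034cb6a69)) e
 (c z e
 (c (a (nat_lit 0x156f2ec02008)) e
 (c (b (nat_lit 0x134b60203fe6)) e
 (c (a (nat_lit 0x1cd2522dca46))
 (c z e
 (c z e
 (c (a (nat_lit 0x10ce6d1ae54007)) e
 (c (b (nat_lit 0x1ffc67e0000007)) e e))))
 (c (a (nat_lit 0x10f0efefcfa8))
 (c (a (nat_lit 0x117159d110e768)) e
 (c (a (nat_lit 0x106dade6800009)) e e))
 (c (a (nat_lit 0x166969a08084))
 (c (a (nat_lit 0xc318480000006)) e e)
 (c (a (nat_lit 0x2028687047)) e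
 (c z e
 (c z e
 (c z e
 (c z e
 (c z e
 (c (a (nat_lit 0x1469cd202026)) e
 (c (a (nat_lit 0x1319e0402065)) e
 (c (a (nat_lit 0x19e040404005)) e
 (c (a (nat_lit 0xe0000001)) e e))))))))))))))))))))
 (c (a (nat_lit 0x20202021))
 (c (a (nat_lit 0x2020394e07)) e
 (c (a (nat_lit 0x20324bab49)) e
 (c z e
 (c (a (nat_lit 0x178bac602008)) e
 (c (a (nat_lit 0x10f340202026)) e
 (c (a (nat_lit 0x14e02025a005)) e
 (c z e
 (c (a (nat_lit 0x1e1dfdfdbbe6))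
 (c (a (nat_lit 0x98e9295a5c007)) e
 (c (a (nat_lit 0x3355340000007)) e e))
 (c (a (nat_lit 0x12121413c45))
 (c (a (nat_lit 0x110a000000005)) e e)
 (c z e
 (c z e
 (c z e
 (c z e
 (c z e
 (c z e
 (c z e
 (c (b (nat_lit 0x133fffe04025)) e
 (c (b (nat_lit 0x1fe2a1800001)) e
 (c (a (nat_lit 0x14000000001)) e e)))))))))))))))))))
 (c (a (nat_lit 0x20202021))
 (c z e
 (c z e
 (c (a (nat_lit 0x16f4e0202206)) e
 (c (a (nat_lit 0x1620202f8ac6)) e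
 (c z e
 (c z e
 (c (a (nat_lit 0xb6d2d2dd467))
 (c (b (nat_lit 0x1ff56903800008)) e e)
 (c z e
 (c z e
 (c z e
 (c z e
 (c z e
 (c z e
 (c z e
 (c (a (nat_lit 0x3ae7476767)) e
 (c (a (nat_lit 0x138020202007)) e
 (c (a (nat_lit 0x1c0000001)) e e)))))))))))))))))
 (c (a (nat_lit 0x20202021))
 (c (a (nat_lit 0x14f8e0202005))
 (c (a (nat_lit 0x4b2e0202042c7)) e
 (c z e
 (c z e
 (c z e
 (c (a (nat_lit 0x62c22d2a88a88)) e
 (c (b (nat_lit 0x1ffff6858e2b88)) e e))))))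
 (c (b (nat_lit 0x1580203fe0a6)) e
 (c z e
 (c z e
 (c (a (nat_lit 0x1293b3b3bb67))
 (c z e
 (c (b (nat_lit 0x135fff37c00007)) e e))
 (c (a (nat_lit 0x1555575f1f27))
 (c (a (nat_lit 0x1504a60000005)) e e)
 (c z e
 (c z e
 (c z e
 (c (a (nat_lit 0x1ddb0bc84f27)) e
 (c (a (nat_lit 0x7e04026d3a8)) e
 (c z e
 (c z e
 (c (a (nat_lit 0x212a0202028)) e
 (c (a (nat_lit 0x12a020200008)) e
 (c (a (nat_lit 0xe000000001)) e e))))))))))))))))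
 (c (a (nat_lit 0x40404021))
 (c (a (nat_lit 0x11111151c065)) e
 (c z e
 (c z e
 (c z e
 (c z e
 (c z e
 (c z e
 (c z e
 (c z e
 (c (a (nat_lit 0x612046d667)) e
 (c z e
 (c z e
 (c (b (nat_lit 0x1fffc3836006)) e
 (c (a (nat_lit 0x1c6020000006)) e e))))))))))))))
 (c (a (nat_lit 0x202021))
 (c (a (nat_lit 0x4040405065))
 (c (a (nat_lit 0x1a164909324a6)) e
 (c (a (nat_lit 0x4479232a44527)) e e))
 (c (a (nat_lit 0x9e9ea177f46))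
 (c (a (nat_lit 0x23114e7908646)) e e)
 (c z e
 (c z e
 (c z e
 (c (a (nat_lit 0x173473112e88)) e
 (c z e
 (c (a (nat_lit 0x17fa7a4cc5c6)) e
 (c (b (nat_lit 0x1f1e147feea3)) e e)))))))))
 (c (a (nat_lit 0x60606061))
 (c (a (nat_lit 0x6062d91cb26))
 (c (a (nat_lit 0x10f4aa99a9c325)) e e)
 (c z e
 (c z e
 (c z e
 (c (a (nat_lit 0x10b272704be8)) e
 (c z e
 (c z e
 (c (a (nat_lit 0x245c9941125)) e
 (c (a (nat_lit 0x1414f694f6e7)) e e)))))))))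
 (c (a (nat_lit 0x20202021))
 (c z e
 (c (a (nat_lit 0x13f08f464688)) e
 (c (a (nat_lit 0x128d852503a6)) e
 (c (a (nat_lit 0x1b5c1feeb2c6)) e
 (c z e
 (c (a (nat_lit 0x1616b6bda005)) e
 (c (a (nat_lit 0x989ab6ad427)) e
 (c (a (nat_lit 0x1030177d0de7)) e e))))))))
 (c (a (nat_lit 0xa0c0c081))
 (c (a (nat_lit 0x1df2e08a4004)) e
 (c (a (nat_lit 0xfd5564488a6)) e
 (c (a (nat_lit 0x1150066bcc26)) e
 (c z e
 (c (b (nat_lit 0x16dadb09dfe6)) e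
 (c (b (nat_lit 0xbc84edff266)) e e))))))
 (c (a (nat_lit 0x2021))
 (c (a (nat_lit 0x1f7b83010cc3)) e
 (c (a (nat_lit 0xd8d4d772005)) e e))
 (c (a (nat_lit 0x20202021))
 (c (a (nat_lit 0x149494e08765)) e e)
 (c (a (nat_lit 0x20404021))
 (c z e
 (c z e
 (c (a (nat_lit 0x112a40200007)) e
 (c (a (nat_lit 0x2000000001)) e e))))
 (c (a (nat_lit 0x441))
 (c (a (nat_lit 0x103660606006)) e
 (c (a (nat_lit 0x2100000001)) e e))
 (c (a (nat_lit 0x203c3705))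
 (c (a (nat_lit 0x4000000001)) e e)
 (c (a (nat_lit 0x6d0cf6ae7)) e
 (c z e
 (c (a (nat_lit 0x19c9804025)) e
 (c (a (nat_lit 0x12a0202044)) e
 (c (a (nat_lit 0x4021c001)) e
 (c (a (nat_lit 0x242016021)) e
 (c (a (nat_lit 0x1e1818001)) e
 (c (a (nat_lit 0x20205a04)) e
 (c (a (nat_lit 0x269266)) e e)))))))))))))))))))))))) Tr.c Tr.e (nat_lit 0) C.cx C.cy
noncomputable def C319 : Tr := beta% (fun (c : Nat → Tr → Tr → Tr) (e : Tr) (z : Nat) (a b : Nat → Nat) =>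
 (c (nat_lit 1)
 (c (a (nat_lit 0x7273733b288))
 (c (a (nat_lit 0x18773cce7f4cc6))
 (c (a (nat_lit 0x15db6d0eeb557287)) e
 (c z e
 (c z e
 (c (a (nat_lit 0xfb39dfd0cc00008)) e
 (c (a (nat_lit 0xf948b8000000008)) e e)))))
 (c z e
 (c z e
 (c (a (nat_lit 0x8dcb146ac0ea8)) e
 (c (a (nat_lit 0x1407e9022cedc8)) e
 (c z e
 (c z e
 (c (a (nat_lit 0x9872b49124aa9)) e
 (c (a (nat_lit 0xa32b953ef5e68)) e e)))))))))
 (c z e
 (c z e
 (c (a (nat_lit 0x1290e6464647))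
 (c (a (nat_lit 0x32f7a5093b86)) e
 (c (a (nat_lit 0x2c8306d9bda7)) e
 (c z e
 (c z e
 (c z e
 (c (b (nat_lit 0x1feaf143a00009)) e e))))))
 (c (a (nat_lit 0x18cacaaac206))
 (c (a (nat_lit 0x1a0e1e8722488)) e
 (c z e
 (c z e
 (c (a (nat_lit 0x6912a4504200a)) e
 (c (a (nat_lit 0x1790a6e0000009)) e e)))))
 (c z e
 (c z e
 (c (a (nat_lit 0xe4e4e4e5108)) e
 (c (a (nat_lit 0x6caed724cc8)) e
 (c z e
 (c z e
 (c (a (nat_lit 0x1c0903202046)) e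
 (c (a (nat_lit 0x62300405406)) e
 (c (a (nat_lit 0x2a02033c946)) e
 (c z e
 (c (a (nat_lit 0x4778e0dcdc6)) e
 (c (a (nat_lit 0x1340a0200005)) e
 (c (a (nat_lit 0x7c000000001)) e e))))))))))))))))))
 (c (a (nat_lit 0x20202021))
 (c (a (nat_lit 0x189291894928))
 (c (a (nat_lit 0xfb51511a1e026))
 (c (a (nat_lit 0x1ffd430251452005)) e e)
 (c z e
 (c z e
 (c z e
 (c z e
 (c (a (nat_lit 0xa285857915948)) e e))))))
 (c (a (nat_lit 0x1112250504a7)) e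
 (c (a (nat_lit 0x15e02022c006))
 (c (a (nat_lit 0x6a8e188f784e8)) e
 (c (a (nat_lit 0x56794df4fc108)) e e))
 (c (a (nat_lit 0x1f5f5edcd5c6))
 (c (a (nat_lit 0x5abb9dd0362c8)) e e)
 (c z e
 (c (a (nat_lit 0xe6e6b6c3387))
 (c (a (nat_lit 0x60958c8200007)) e e)
 (c z e
 (c z e
 (c z e
 (c (a (nat_lit 0x1a1140402046)) e
 (c (a (nat_lit 0x114020205086)) e
 (c (a (nat_lit 0x203075e6)) e
 (c z e
 (c z e
 (c (b (nat_lit 0x1ff840602004)) e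
 (c (a (nat_lit 0x1920a0000004)) e e))))))))))))))))
 (c (a (nat_lit 0x20202021))
 (c (a (nat_lit 0x1b2020250105))
 (c z e
 (c (b (nat_lit 0x3c79fe135dca7)) e e))
 (c (a (nat_lit 0x105572f32ec7))
 (c (a (nat_lit 0x12c0cbb4d66f07)) e
 (c (a (nat_lit 0x66aee7343e709)) e e))
 (c (a (nat_lit 0x16b333534b05)) e
 (c z e
 (c (a (nat_lit 0xe0f169c0b88))
 (c (a (nat_lit 0xd1da7e0000005)) e e)
 (c z e
 (c z e
 (c z e
 (c (a (nat_lit 0x157272926a47)) e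
 (c (a (nat_lit 0x2020409b85)) e
 (c (a (nat_lit 0x2020271547)) e e)))))))))))
 (c (nat_lit 1)
 (c (a (nat_lit 0x102e3a201e1))
 (c (a (nat_lit 0x401e04eac3066)) e
 (c (a (nat_lit 0x4e1d56de94dc7)) e e))
 (c (a (nat_lit 0x2020605de5))
 (c (a (nat_lit 0x1f469806502e7)) e e)
 (c (a (nat_lit 0x9696c998be6)) e
 (c z e
 (c z e
 (c (a (nat_lit 0x131130704d28)) e
 (c (a (nat_lit 0x100f536fcda8)) e
 (c (a (nat_lit 0x171778f12046)) e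
 (c (a (nat_lit 0xe24240bf45)) e
 (c (a (nat_lit 0x465c510ea26)) e
 (c (a (nat_lit 0xa8aab52b767)) e e)))))))))))
 (c (nat_lit 1)
 (c (a (nat_lit 0x14144700785))
 (c (a (nat_lit 0x1d13c060a805e5)) e e)
 (c z e
 (c z e
 (c (a (nat_lit 0x15b1efc92907)) e
 (c (a (nat_lit 0x108f6f6be848)) e
 (c (a (nat_lit 0xdf3f3f3ebe7)) e
 (c (a (nat_lit 0x1232e2824605)) e
 (c (a (nat_lit 0xf2f6ea87164)) e
 (c (a (nat_lit 0xa2a2c28b786)) e
 (c (a (nat_lit 0xc2b0ef66c87)) e e))))))))))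
 (c (nat_lit 1)
 (c z e
 (c (a (nat_lit 0x1bd7b6b12d07)) e
 (c (a (nat_lit 0x124b0c6be225)) e
 (c (a (nat_lit 0x104f0f00c0e6)) e
 (c z e
 (c (a (nat_lit 0x1abafb192986)) e
 (c (a (nat_lit 0x1d3dbe13b7c5)) e
 (c (b (nat_lit 0x602453ffd06)) e e))))))))
 (c (a (nat_lit 0x202021))
 (c (a (nat_lit 0x11d0d085c005)) e
 (c (a (nat_lit 0x1ab9b286a4e6)) e
 (c (a (nat_lit 0x128ec56568a6)) e
 (c (b (nat_lit 0x52554f5dfe6)) e
 (c (a (nat_lit 0x1090b2a3cc87)) e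
 (c (a (nat_lit 0x9c024150886)) e e))))))
 (c (a (nat_lit 0x202001))
 (c (a (nat_lit 0x155226660ac4)) e
 (c (a (nat_lit 0x16646528264)) e
 (c (b (nat_lit 0x1676dfffe0e7)) e
 (c z e
 (c z e
 (c (a (nat_lit 0x3f71c67e005)) e
 (c (a (nat_lit 0xfb220000005)) e e)))))))
 (c (nat_lit 1)
 (c (a (nat_lit 0x1a5d3d4da485)) e
 (c z e
 (c z e
 (c (b (nat_lit 0x1feb807b5885)) e
 (c (a (nat_lit 0x16a105800004)) e
 (c (a (nat_lit 0x2000000001)) e e))))))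
 (c (a (nat_lit 0x40202021))
 (c z e
 (c (b (nat_lit 0x1ffff245cca7)) e
 (c (a (nat_lit 0xe37ea402006)) e
 (c (a (nat_lit 0x1d8120000001)) e e))))
 (c (nat_lit 1)
 (c (a (nat_lit 0x28556319dc7)) e
 (c (a (nat_lit 0x102040200004)) e
 (c (nat_lit 1) e e)))
 (c (a (nat_lit 0x20203665))
 (c (a (nat_lit 0xc040000001)) e e)
 (c (a (nat_lit 0x203699e5)) e
 (c z e
 (c z e
 (c (a (nat_lit 0x1feca72705)) e
 (c (a (nat_lit 0x16804020a3)) e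
 (c (a (nat_lit 0x404243e1)) e
 (c (a (nat_lit 0x122e101)) e
 (c (a (nat_lit 0xe14081)) e
 (c (a (nat_lit 0x20405e64)) e
 (c (a (nat_lit 0x405e6024)) e e))))))))))))))))))))))) Tr.c Tr.e (nat_lit 0) C.cx C.cy
noncomputable def C320 : Tr := beta% (fun (c : Nat → Tr → Tr → Tr) (e : Tr) (z : Nat) (a b : Nat → Nat) =>
 (c (a (nat_lit 0x2040200001))
 (c (a (nat_lit 0x1b99d94b8ae727))
 (c (b (nat_lit 0x8229ff0e050f2a6))
 (c z e
 (c z e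
 (c z e
 (c z e
 (c (a (nat_lit 0x80cc9274bc7f10ca9)) e e)))))
 (c z e
 (c z e
 (c z e
 (c (a (nat_lit 0x214768aab55489))
 (c (a (nat_lit 0xfae122eb0cec0000a)) e e)
 (c z e
 (c z e
 (c z e
 (c z e
 (c (a (nat_lit 0x10cb4dee5c314da9)) e e))))))))))
 (c (a (nat_lit 0x18d769c8604027)) e
 (c (a (nat_lit 0x1608c8c1616047)) e
 (c z e
 (c (a (nat_lit 0x16ef6f8fad3547))
 (c (a (nat_lit 0x12afcf6ff79036ea)) e
 (c z e
 (c z e
 (c z e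
 (c z e
 (c (a (nat_lit 0x1e2f47eb00e00009)) e e))))))
 (c z e
 (c z e
 (c z e
 (c z e
 (c (a (nat_lit 0xf75b26ee624a7)) e
 (c (a (nat_lit 0x158d5168c68086)) e
 (c z e
 (c z e
 (c (a (nat_lit 0x16b4753535ca27)) e
 (c (a (nat_lit 0xa8e6e75941487)) e e)))))))))))))))
 (c (nat_lit 1)
 (c (a (nat_lit 0x166b8ba4026286)) e e)
 (c (a (nat_lit 0x2020202021))
 (c z e
 (c (a (nat_lit 0x135393accbb646))
 (c (a (nat_lit 0xbaace7414d4f12a))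
 (c (a (nat_lit 0x141211aaa00000000a)) e e)
 (c z e
 (c z e
 (c z e
 (c (a (nat_lit 0xd9988286b69e1ca)) e e)))))
 (c z e
 (c z e
 (c z e
 (c (a (nat_lit 0x25ea73772bf05))
 (c (a (nat_lit 0xf30a54620000007)) e e)
 (c z e
 (c z e
 (c z e
 (c (a (nat_lit 0x15979874d04167)) e
 (c z e
 (c z e
 (c z e
 (c (a (nat_lit 0x12edd669c00007)) e
 (c (a (nat_lit 0x1f996000000006)) e e)))))))))))))))
 (c (a (nat_lit 0x2001))
 (c (a (nat_lit 0x133347cc8663a6))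
 (c (a (nat_lit 0xacf349ab3fa0a88)) e
 (c z e
 (c z e
 (c (a (nat_lit 0x146f974c6b0cea49)) e
 (c (a (nat_lit 0x142ecb4d8fa9a869)) e e)))))
 (c z e
 (c z e
 (c (a (nat_lit 0xaa8608042d4e6))
 (c (a (nat_lit 0x18b796d03c6ba007)) e
 (c (a (nat_lit 0x17170d8d40000008)) e e))
 (c (a (nat_lit 0x92060619432e6))
 (c (a (nat_lit 0x1e51292000000007)) e e)
 (c z e
 (c z e
 (c (a (nat_lit 0xbcf900dd3ca28)) e
 (c (b (nat_lit 0xd71f2cd5fffe7)) e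
 (c z e
 (c z e
 (c (a (nat_lit 0x15abb335e82007)) e
 (c (a (nat_lit 0xff76dc0000007)) e
 (c (a (nat_lit 0x12e00000000006)) e e))))))))))))))
 (c (a (nat_lit 0x2020202021))
 (c (a (nat_lit 0xc317603e06326))
 (c (a (nat_lit 0xdce738f0d2a47c9)) e e)
 (c z e
 (c (a (nat_lit 0xb406042b071a7))
 (c (a (nat_lit 0x16347a1ff0800008)) e
 (c (a (nat_lit 0x1577bac000000008)) e e))
 (c (a (nat_lit 0xa081eecfd267))
 (c (a (nat_lit 0x12aa600000000007)) e e)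
 (c z e
 (c (a (nat_lit 0x2f90b0072807)) e
 (c z e
 (c z e
 (c z e
 (c (b (nat_lit 0x3fffe1e0d508)) e
 (c (a (nat_lit 0xf33d74ca00008)) e
 (c (a (nat_lit 0x11aaa000000008)) e e))))))))))))
 (c (a (nat_lit 0x2031a7))
 (c (a (nat_lit 0x7202020207846))
 (c z e
 (c (a (nat_lit 0xaf98cf1c0800008)) e
 (c (a (nat_lit 0x1b356d6000000008)) e e)))
 (c (a (nat_lit 0x464c4c4ea9028))
 (c (a (nat_lit 0x1464eb0060000008)) e e)
 (c (a (nat_lit 0x20272a114a67)) e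
 (c z e
 (c z e
 (c z e
 (c z e
 (c z e
 (c (a (nat_lit 0x325672b1e8008)) e
 (c (a (nat_lit 0x16138de0000007)) e
 (c (a (nat_lit 0x16c00000000005)) e e)))))))))))
 (c (a (nat_lit 0x2020322de6))
 (c (a (nat_lit 0x3c3a504bb0406)) e
 (c (b (nat_lit 0x21a218dfe306)) e
 (c z e
 (c z e
 (c z e
 (c (a (nat_lit 0x7c361a6d16b28)) e
 (c (a (nat_lit 0xbca09f452a809)) e
 (c (a (nat_lit 0x18506baa00008)) e
 (c (a (nat_lit 0x13efa000000003)) e e)))))))))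
 (c (a (nat_lit 0x80975b34a6))
 (c (a (nat_lit 0x3232506843106)) e
 (c z e
 (c z e
 (c (a (nat_lit 0x3874d672554e7)) e
 (c (a (nat_lit 0x26ac830d671c8)) e
 (c (a (nat_lit 0x7c6329203a009)) e
 (c (a (nat_lit 0x507b340000009)) e
 (c (a (nat_lit 0x1e000000000003)) e e))))))))
 (c (a (nat_lit 0x5cdbb52426)) e
 (c (a (nat_lit 0x108e0bc301c7))
 (c (b (nat_lit 0x2a25fe6768be8)) e e)
 (c (a (nat_lit 0x102bc2c02026))
 (c (a (nat_lit 0x7642c11e30108)) e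
 (c (a (nat_lit 0xbf23266c00009)) e e))
 (c (a (nat_lit 0x1480402060a5))
 (c (a (nat_lit 0x184da720000008)) e e)
 (c (a (nat_lit 0x139396161608)) e
 (c (a (nat_lit 0x55d6363cc4)) e
 (c (a (nat_lit 0x20419085)) e
 (c (a (nat_lit 0x20708d85)) e
 (c (a (nat_lit 0x14f65d5d1946)) e
 (c z e
 (c (a (nat_lit 0x10ef606080a4)) e
 (c (a (nat_lit 0x1d60406081a3)) e
 (c (a (nat_lit 0xc0c441c1)) e
 (c (a (nat_lit 0x1c1600001)) e
 (c (a (nat_lit 0x2000000001)) e e)))))))))))))))))))))))) Tr.c Tr.e (nat_lit 0) C.cx C.cy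
noncomputable def C321 : Tr := beta% (fun (c : Nat → Tr → Tr → Tr) (e : Tr) (z : Nat) (a b : Nat → Nat) =>
 (c (a (nat_lit 0x40404041))
 (c (a (nat_lit 0x20202001))
 (c (a (nat_lit 0x1a1aa52716605))
 (c (a (nat_lit 0x32346bd6a8a6023)) e
 (c z e
 (c z e
 (c (a (nat_lit 0xd81640fed7db7c4))
 (c z e
 (c (a (nat_lit 0x1314f2cdacc7e8ef48)) e e))
 (c (a (nat_lit 0x46124c74fb5fa64))
 (c (a (nat_lit 0x14348c2ce7886fdac7)) e e)
 (c (a (nat_lit 0x4e4e64e0c4c7426)) e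
 (c (a (nat_lit 0xa6a8cf0090af566)) e
 (c z e
 (c (a (nat_lit 0x90d2df136364c05)) e
 (c (a (nat_lit 0xcebf2be34ceea65)) e
 (c z e
 (c (a (nat_lit 0x2442545c2c0dce7)) e
 (c (a (nat_lit 0x20181aac2d40327)) e
 (c (a (nat_lit 0xbacf38ee9200008)) e
 (c (a (nat_lit 0x626530000000007)) e e)))))))))))))))
 (c (a (nat_lit 0x16ed150c68527)) e
 (c (a (nat_lit 0x15f877e78643e7)) e
 (c (a (nat_lit 0x1a398f6ae5e5e6))
 (c z e
 (c (b (nat_lit 0x15fe94b2d899048))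
 (c (a (nat_lit 0x9e9e96db14dcd8bca)) e e)
 (c z e
 (c z e
 (c z e
 (c (a (nat_lit 0xa668b29a536eae8)) e
 (c z e
 (c z e
 (c z e
 (c (a (nat_lit 0xf98b06a40000008)) e e))))))))))
 (c (a (nat_lit 0x14c9c9c4c16166))
 (c (a (nat_lit 0x2c4e9cf4b0bb487))
 (c (a (nat_lit 0x54628eb528f850009)) e e)
 (c z e
 (c z e
 (c (a (nat_lit 0xce9e8ce4dabd108)) e
 (c (a (nat_lit 0x44526c8b8a3a508)) e
 (c z e
 (c z e
 (c (a (nat_lit 0x8ab32ac26600008)) e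
 (c (a (nat_lit 0x17aba86000000007)) e e)))))))))
 (c (a (nat_lit 0x1b1b10d0ebcb05))
 (c z e
 (c z e
 (c (a (nat_lit 0x989aef529d41048)) e
 (c (a (nat_lit 0x6294fbb490de968)) e e))))
 (c (a (nat_lit 0xc272747477246))
 (c (a (nat_lit 0x1858ecb4ba936e07)) e
 (c (a (nat_lit 0xc466b303728a868)) e
 (c (a (nat_lit 0x247dd2928650c48)) e e)))
 (c (a (nat_lit 0x2043550c85))
 (c (a (nat_lit 0x242add425230367)) e
 (c (a (nat_lit 0x374ae30080e1a8)) e e))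
 (c (a (nat_lit 0x255591a9e5))
 (c (a (nat_lit 0x132061e0e1622088)) e e)
 (c z e
 (c (a (nat_lit 0xc3472d085c4c6)) e
 (c (a (nat_lit 0x18f40fc24260e5)) e
 (c (a (nat_lit 0x10ae6e4c050506)) e
 (c (a (nat_lit 0x141495b5b3b3a8)) e
 (c (a (nat_lit 0x10d0f151518645)) e
 (c (a (nat_lit 0x364a4e511bee4)) e
 (c (a (nat_lit 0x3274749d07e65)) e
 (c (a (nat_lit 0xecef053ad6006)) e e))))))))))))))))))
 C320)
 (c (a (nat_lit 0x20200001))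
 (c (a (nat_lit 0x2040402021))
 (c (a (nat_lit 0x1857cdad88a8c6))
 (c (a (nat_lit 0x566aef0d1797945))
 (c z e
 (c z e
 (c z e
 (c z e
 (c (a (nat_lit 0xd0b2b8e48f4500d88)) e e)))))
 (c (a (nat_lit 0x283686c2c4c51c8)) e
 (c z e
 (c z e
 (c (b (nat_lit 0x1fe6872a58d8df48)) e
 (c z e
 (c z e
 (c z e
 (c z e
 (c (a (nat_lit 0x5e8e7b26ae6a5c9)) e
 (c (b (nat_lit 0xd987ffc34262007)) e e)))))))))))
 (c z e
 (c z e
 (c z e
 (c (a (nat_lit 0x969898652cce7))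
 (c (a (nat_lit 0xeee50552df36f6a)) e
 (c z e
 (c z e
 (c z e
 (c z e
 (c (a (nat_lit 0x1ea98be2a0000008)) e e))))))
 (c z e
 (c z e
 (c z e
 (c z e
 (c (a (nat_lit 0x16f41461c94727)) e
 (c (a (nat_lit 0x1212d694ef2fe6)) e
 (c z e
 (c z e
 (c (a (nat_lit 0xcb0724fd2a887)) e
 (c (a (nat_lit 0xb4b8d12d18fa8)) e e)))))))))))))))
 (c (a (nat_lit 0x4060604001)) e
 (c (a (nat_lit 0x20400001)) e
 (c (a (nat_lit 0x20204021)) e
 (c (a (nat_lit 0x20203a28))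
 (c (a (nat_lit 0x12352be18148c8))
 (c (a (nat_lit 0xad1cc6864e4060a)) e e)
 (c z e
 (c z e
 (c z e
 (c z e
 (c (b (nat_lit 0x1d3ee242b9fe8)) e
 (c z e
 (c z e
 (c z e
 (c (a (nat_lit 0x9ec2bf9992009)) e
 (c (a (nat_lit 0x1896f240000009)) e e)))))))))))
 (c (a (nat_lit 0x20203d6a48)) e
 (c (a (nat_lit 0x3fd75227)) e
 (c z e
 (c z e
 (c (a (nat_lit 0x16cf40202066))
 (c (b (nat_lit 0x1fffe6d542c309)) e e)
 (c z e
 (c z e
 (c z e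
 (c (a (nat_lit 0xd2d30b0d7a8)) e
 (c (a (nat_lit 0xb8ba9d73567)) e
 (c z e
 (c z e
 (c z e
 (c (a (nat_lit 0x166ba0802006)) e
 (c (a (nat_lit 0x1922e2208045)) e
 (c (a (nat_lit 0x128da160c002)) e
 (c (a (nat_lit 0x1f83a0000001)) e e))))))))))))))))))))))
 (c (a (nat_lit 0x20202021))
 (c (a (nat_lit 0x20202021)) e
 (c (a (nat_lit 0x2040406061)) e
 (c (a (nat_lit 0x18e8)) e
 (c (a (nat_lit 0x20203cb128)) e
 (c (a (nat_lit 0x20376d4c29)) e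
 (c z e
 (c z e
 (c (a (nat_lit 0x12ca002020c6)) e
 (c (a (nat_lit 0x168d6d4decc6)) e
 (c z e
 (c z e
 (c z e
 (c z e
 (c z e
 (c z e
 (c z e
 (c z e
 (c z e
 (c (a (nat_lit 0x6b4c0202026)) e
 (c (a (nat_lit 0x14c020200006)) e
 (c (a (nat_lit 0x16000000001)) e e)))))))))))))))))))))
 (c (a (nat_lit 0x20202021))
 (c (a (nat_lit 0x20202038e7))
 (c z e
 (c (a (nat_lit 0x1cfe3f7f2ce208)) e
 (c z e
 (c z e
 (c z e
 (c (a (nat_lit 0xc6a6241c15467)) e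
 (c (a (nat_lit 0xba261423dda87)) e
 (c z e
 (c z e
 (c (a (nat_lit 0x12ae1035fbc4a7)) e e))))))))))
 (c (a (nat_lit 0x2038f028))
 (c (b (nat_lit 0x155352cc5fe6e8))
 (c (a (nat_lit 0x108ecf0c87098b2a)) e
 (c z e
 (c z e
 (c z e
 (c (a (nat_lit 0x1138f61160000009)) e e)))))
 (c z e
 (c z e
 (c z e
 (c (a (nat_lit 0x112980c4acf508)) e
 (c z e
 (c z e
 (c z e
 (c (a (nat_lit 0xb494f5987b169)) e e)))))))))
 (c (a (nat_lit 0x2035b02f69)) e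
 (c z e
 (c z e
 (c (a (nat_lit 0x17344ecced07))
 (c (a (nat_lit 0x167266e8c2e027)) e
 (c z e
 (c z e
 (c z e
 (c (a (nat_lit 0x39ed22c00009)) e e)))))
 (c (a (nat_lit 0x128e0e0e0c47)) e
 (c z e
 (c z e
 (c (a (nat_lit 0x7878fcfd6e7)) e
 (c z e
 (c z e
 (c z e
 (c (a (nat_lit 0xf5d80c0a285)) e
 (c (b (nat_lit 0x1aa2a27fffe5)) e
 (c z e
 (c (a (nat_lit 0x1edd945ab465)) e
 (c (a (nat_lit 0x1360a0a08004)) e
 (c (a (nat_lit 0x160000001)) e e)))))))))))))))))))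
 C319))))) Tr.c Tr.e (nat_lit 0) C.cx C.cy
noncomputable def C322 : Tr := beta% (fun (c : Nat → Tr → Tr → Tr) (e : Tr) (z : Nat) (a b : Nat → Nat) =>
 (c (nat_lit 1)
 (c (a (nat_lit 0x2036d226))
 (c (b (nat_lit 0x1261818930dfe5))
 (c (a (nat_lit 0x1ed89632972496a6)) e
 (c z e
 (c z e
 (c z e
 (c (a (nat_lit 0xb0394ed60000007)) e e)))))
 (c (a (nat_lit 0x8282df32fa627)) e
 (c z e
 (c z e
 (c (a (nat_lit 0x9d4e122204fe7)) e
 (c z e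
 (c z e
 (c z e
 (c (a (nat_lit 0xf4edbf7b5b267)) e e)))))))))
 (c (a (nat_lit 0x20306cebe8)) e
 (c (a (nat_lit 0x532ece84a8)) e
 (c (a (nat_lit 0x101374466667))
 (c (a (nat_lit 0x3bd0d4caecb06)) e
 (c (a (nat_lit 0x1167122885d926)) e
 (c z e
 (c z e
 (c z e
 (c (b (nat_lit 0x3dffff907c008)) e e))))))
 (c (a (nat_lit 0x1c9401614145))
 (c (a (nat_lit 0xe48163863807)) e
 (c z e
 (c z e
 (c z e
 (c (a (nat_lit 0x1d04fc3a00009)) e e)))))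
 (c (b (nat_lit 0x12404043ffe5)) e
 (c z e
 (c z e
 (c (a (nat_lit 0x5454d8cf127)) e
 (c z e
 (c z e
 (c (a (nat_lit 0x95ee0602505)) e
 (c (a (nat_lit 0xf6020229546)) e
 (c (a (nat_lit 0x2022b54da6)) e
 (c (a (nat_lit 0x2952d86c6)) e
 (c z e
 (c (a (nat_lit 0x1e2da0604005)) e
 (c (a (nat_lit 0x1b4060000004)) e e))))))))))))))))))
 (c (nat_lit 1)
 (c (a (nat_lit 0x211acebc627)) e
 (c (a (nat_lit 0x104aaa626268)) e
 (c (a (nat_lit 0xe3080202006))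
 (c (a (nat_lit 0xd25c6218b5507)) e
 (c (a (nat_lit 0x5480757ffeaa7)) e e))
 (c (a (nat_lit 0x198666658325))
 (c (a (nat_lit 0xa4d55313d25e7)) e
 (c (a (nat_lit 0x6cacfd3aba3e8)) e e))
 (c (a (nat_lit 0x191916af6444))
 (c (a (nat_lit 0xa3375d64d2067)) e e)
 (c (a (nat_lit 0x15f6b6b695a6))
 (c (a (nat_lit 0xcd1ee0fe36007)) e
 (c (a (nat_lit 0x15690800000008)) e e))
 (c (a (nat_lit 0x6080fec4))
 (c (a (nat_lit 0x49b0000000004)) e e)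
 (c z e
 (c z e
 (c (a (nat_lit 0x3d4c0604045)) e
 (c (a (nat_lit 0x1540e0202045)) e
 (c (a (nat_lit 0xc060c3a001)) e
 (c (a (nat_lit 0x20403345)) e
 (c (a (nat_lit 0x1813370a5)) e
 (c (a (nat_lit 0x20322f6d45)) e e)))))))))))))))
 (c (a (nat_lit 0x20202021))
 (c (a (nat_lit 0x1051c0606025))
 (c (a (nat_lit 0x7e1e1403245)) e
 (c (a (nat_lit 0x381e0402459c7)) e
 (c (a (nat_lit 0xa040652990e8)) e e)))
 (c (a (nat_lit 0x10e020228066))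
 (c (a (nat_lit 0x381818071cd27)) e
 (c (a (nat_lit 0x363e9edb1e188)) e e))
 (c (a (nat_lit 0x1111113067c6))
 (c (a (nat_lit 0x3aa2d3c810147)) e
 (c (a (nat_lit 0xd323bed05e3a8)) e e))
 (c (a (nat_lit 0x13719191a966))
 (c (b (nat_lit 0x1776cdbfe2a7c7)) e e)
 (c (a (nat_lit 0xaeb2b2af726))
 (c (a (nat_lit 0x14e547c0200007)) e e)
 (c z e
 (c z e
 (c z e
 (c (a (nat_lit 0x13e060406025)) e
 (c (a (nat_lit 0x1422100c121)) e
 (c (a (nat_lit 0xc1422001)) e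
 (c (a (nat_lit 0x20405e04)) e
 (c (a (nat_lit 0x202792c6)) e
 (c (a (nat_lit 0x807f6f6c005)) e e))))))))))))))
 (c (a (nat_lit 0x20202021))
 (c (a (nat_lit 0x146a2a2a24))
 (c (a (nat_lit 0x3836221e25026)) e
 (c (a (nat_lit 0x343c18bf02ba7)) e
 (c (a (nat_lit 0x96656dd092de6)) e e)))
 (c (a (nat_lit 0x1f4101252541))
 (c (a (nat_lit 0xa605dd4436526)) e e)
 (c (a (nat_lit 0x40809604)) e
 (c z e
 (c z e
 (c (a (nat_lit 0x1250d110f0e7)) e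
 (c (a (nat_lit 0x1393dc5c5447)) e
 (c (a (nat_lit 0x183838508026)) e
 (c (a (nat_lit 0x61818021)) e
 (c (a (nat_lit 0xa0e181c6c1)) e
 (c (a (nat_lit 0x4a4a4a55465)) e
 (c (a (nat_lit 0x62466d5c505)) e e))))))))))))
 (c (a (nat_lit 0x20202021))
 (c (a (nat_lit 0x60a11762))
 (c (a (nat_lit 0x51c9e0404965)) e
 (c (a (nat_lit 0xcb962e1cb23e7)) e e))
 (c (a (nat_lit 0x137373765426))
 (c (a (nat_lit 0x1c0142cc434007)) e e)
 (c z e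
 (c (a (nat_lit 0x141597b454c4)) e
 (c (a (nat_lit 0xfcff0100907)) e
 (c (a (nat_lit 0xdadb02823c7)) e
 (c (a (nat_lit 0x1171a1414045)) e
 (c (a (nat_lit 0x806093a3)) e
 (c (a (nat_lit 0x12d3134aefe5)) e
 (c (a (nat_lit 0x76046dda6e4)) e e))))))))))
 (c (a (nat_lit 0x20202021))
 (c (a (nat_lit 0x11d1d3523206))
 (c (a (nat_lit 0x1ead5c6200005)) e e)
 (c (a (nat_lit 0x19db7b7b1ac5)) e
 (c (a (nat_lit 0x6c870ef2c42)) e
 (c (b (nat_lit 0x1bfb9bc07fe5)) e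
 (c (b (nat_lit 0x387ff83905)) e
 (c (a (nat_lit 0x51434172002)) e
 (c (a (nat_lit 0xe6e8e683205)) e
 (c (a (nat_lit 0x3e44b362305)) e
 (c z e
 (c (a (nat_lit 0x470c0400005)) e
 (c (a (nat_lit 0x108000000005)) e e)))))))))))
 (c (a (nat_lit 0x202001))
 (c (a (nat_lit 0x187cdcbc41e4)) e
 (c (a (nat_lit 0x16d6b6a60286)) e
 (c (a (nat_lit 0x1773a04505e5)) e
 (c (a (nat_lit 0x10747b7b61a6)) e
 (c (a (nat_lit 0x103050436826)) e
 (c (a (nat_lit 0x142f83504dc5)) e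
 (c z e
 (c (b (nat_lit 0x1fe297a20002)) e
 (c (a (nat_lit 0x1676e0000002)) e e)))))))))
 (c (a (nat_lit 0x20202021))
 (c (a (nat_lit 0x181800a04a63)) e
 (c (a (nat_lit 0x4666732124)) e
 (c (a (nat_lit 0x1434342c69a7)) e
 (c z e
 (c z e
 (c (a (nat_lit 0x15d300f5d5a5)) e
 (c (a (nat_lit 0x122020200005)) e
 (c (a (nat_lit 0x4000000001)) e e))))))))
 (c (nat_lit 1)
 (c (a (nat_lit 0x115191e6e685)) e
 (c z e
 (c z e
 (c (a (nat_lit 0x101b68e079c5)) e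
 (c (a (nat_lit 0x1b68e0202005)) e
 (c (a (nat_lit 0x20000001)) e e))))))
 (c (nat_lit 1)
 (c z e
 (c (a (nat_lit 0x69802e0a005)) e
 (c (a (nat_lit 0x1642e0203345)) e
 (c (a (nat_lit 0x4080800001)) e
 (c (nat_lit 1) e e)))))
 (c (nat_lit 1)
 (c (a (nat_lit 0xb2040403045)) e
 (c (a (nat_lit 0x40c100a001)) e
 (c (a (nat_lit 0x60000001)) e e)))
 (c (a (nat_lit 0x40202021))
 (c (a (nat_lit 0xe040200001)) e
 (c (a (nat_lit 0x2000000001)) e e))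
 (c (a (nat_lit 0x20202001)) e
 (c (a (nat_lit 0x404037e4)) e
 (c (a (nat_lit 0x605828e4)) e
 (c (a (nat_lit 0x133f36b245)) e
 (c (a (nat_lit 0x1eee056564)) e
 (c (a (nat_lit 0x1120202003)) e
 (c (a (nat_lit 0xc0c04001)) e
 (c (a (nat_lit 0x120206061)) e
 (c (a (nat_lit 0x60e041)) e
 (c (b (nat_lit 0x809fe1)) e
 (c (b (nat_lit 0x15fffefe1)) e e)))))))))))))))))))))))) Tr.c Tr.e (nat_lit 0) C.cx C.cy
noncomputable def C323 : Tr := beta% (fun (c : Nat → Tr → Tr → Tr) (e : Tr) (z : Nat) (a b : Nat → Nat) =>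
 (c (a (nat_lit 0x40404041))
 (c (a (nat_lit 0x2020202021))
 (c (a (nat_lit 0x1ebe7d0a0a0505))
 (c (a (nat_lit 0xd404c512141d283)) e
 (c (a (nat_lit 0xe541c482cc13e6))
 (c (a (nat_lit 0x173609c66946a286a8))
 (c (a (nat_lit 0x1055cb2760e00000000a)) e e) e)
 (c z e
 (c z e
 (c z e
 (c z e
 (c z e
 (c z e
 (c z e
 (c z e
 (c (b (nat_lit 0xa846efffda7a307)) e
 (c (a (nat_lit 0x1cb1441400007)) e e))))))))))))
 (c (a (nat_lit 0x1d3aeb6b4181a6))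
 (c (a (nat_lit 0x3e064ca8acf53a7))
 (c (a (nat_lit 0x1648c4a807c1028888)) e e)
 (c z e
 (c z e
 (c z e
 (c z e
 (c z e
 (c z e
 (c z e
 (c z e
 (c (a (nat_lit 0x839d2dadb606007)) e
 (c (a (nat_lit 0x61289e5a0000008)) e e)))))))))))
 (c (b (nat_lit 0x198a8a82ffe026)) e
 (c z e
 (c z e
 (c z e
 (c z e
 (c z e
 (c z e
 (c z e
 (c (a (nat_lit 0x1270cc62e0a006)) e
 (c (a (nat_lit 0x1853928d64a2c6)) e e))))))))))))
 (c (a (nat_lit 0x4060606021))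
 (c (a (nat_lit 0x18ec8c8280e0e6))
 (c (a (nat_lit 0x602e12d077fa66)) e
 (c z e
 (c z e
 (c z e
 (c z e
 (c z e
 (c z e
 (c z e
 (c z e
 (c (a (nat_lit 0x106b456b42e00008)) e
 (c (a (nat_lit 0x14c0e38000000007)) e e)))))))))))
 (c z e
 (c z e
 (c z e
 (c z e
 (c z e
 (c z e
 (c z e
 (c z e
 (c (a (nat_lit 0x196b4ea3408246)) e
 (c (a (nat_lit 0x15d6f5aecbaaa7)) e e)))))))))))
 (c (a (nat_lit 0x2020202021)) e
 (c (a (nat_lit 0x2020202021)) e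
 (c (a (nat_lit 0x2020202021)) e
 (c (a (nat_lit 0x2020203807))
 (c z e
 (c z e
 (c z e
 (c z e
 (c z e
 (c z e
 (c z e
 (c z e
 (c z e
 (c (a (nat_lit 0xb7ddde0000007)) e e))))))))))
 (c (a (nat_lit 0x20203c3c45))
 (c (b (nat_lit 0xe1413b3bfffe3)) e
 (c z e
 (c z e
 (c z e
 (c z e
 (c z e
 (c z e
 (c (a (nat_lit 0x7086efbe00008)) e e))))))))
 (c (a (nat_lit 0x14156f46)) e
 (c z e
 (c (a (nat_lit 0x1c74f0a04026)) e
 (c (a (nat_lit 0x1ed620402045))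
 (c (b (nat_lit 0x1dff2440800e7)) e
 (c (a (nat_lit 0xd9ca7aac00008)) e e))
 (c (a (nat_lit 0x180020204005))
 (c (a (nat_lit 0x13a08600000008)) e e)
 (c (b (nat_lit 0x3ff5f584)) e
 (c (b (nat_lit 0x1feaaaaa9625)) e
 (c (b (nat_lit 0x205ff6e5)) e
 (c z e
 (c z e
 (c z e
 (c z e
 (c z e
 (c (b (nat_lit 0x1f7fe0404024)) e
 (c (a (nat_lit 0xa0600001)) e
 (c (a (nat_lit 0x8000000001)) e e)))))))))))))))))))))))
 (c (a (nat_lit 0x20202001))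
 (c (a (nat_lit 0x2020404021))
 (c (a (nat_lit 0x16d6ce0e0de7c5))
 (c (a (nat_lit 0x10fa5a585d7b1925))
 (c z e
 (c z e
 (c (a (nat_lit 0xa44a64546459ad048)) e e)))
 (c z e
 (c z e
 (c z e
 (c z e
 (c z e
 (c z e
 (c z e
 (c z e
 (c (a (nat_lit 0x1b57722e20000006)) e e))))))))))
 (c z e
 (c z e
 (c z e
 (c z e
 (c z e
 (c z e
 (c z e
 (c (a (nat_lit 0x10538ba2426086)) e
 (c (a (nat_lit 0x1ccaa969cdcbe5)) e
 (c (a (nat_lit 0xe51b26aa98006)) e e)))))))))))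
 (c (a (nat_lit 0x2020202001))
 (c z e
 (c z e
 (c z e
 (c z e
 (c z e
 (c z e
 (c z e
 (c (a (nat_lit 0x100c72cdafeca7)) e
 (c (a (nat_lit 0x89f98c9c986)) e e)))))))))
 (c (a (nat_lit 0x202001)) e
 (c (a (nat_lit 0x2020203727)) e
 (c (a (nat_lit 0x20203df0e7))
 (c z e
 (c z e
 (c z e
 (c z e
 (c z e
 (c z e
 (c z e
 (c z e
 (c (a (nat_lit 0x66571f5a00008)) e e)))))))))
 (c (a (nat_lit 0x31cfce07))
 (c (a (nat_lit 0x1413139d8b0086))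
 (c (a (nat_lit 0x1087a00000000006)) e e) e)
 (c z e
 (c (a (nat_lit 0x10ccca402027)) e
 (c (a (nat_lit 0x16ae20606085)) e
 (c (a (nat_lit 0x1e0020208024))
 (c (a (nat_lit 0x568d2a700a007)) e
 (c (a (nat_lit 0xe366840000007)) e e))
 (c (a (nat_lit 0x6091d19144))
 (c (a (nat_lit 0x1da8000000003)) e e)
 (c z e
 (c (a (nat_lit 0xa6a77f97ea6)) e
 (c z e
 (c z e
 (c (b (nat_lit 0x1fffffe2a0e1)) e
 (c (b (nat_lit 0x1620a157fe1)) e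
 (c (a (nat_lit 0x1ebf3fce6825)) e
 (c (a (nat_lit 0x1b9c4ac48485)) e
 (c (a (nat_lit 0x17c680202005)) e
 (c (a (nat_lit 0x198020000003)) e e)))))))))))))))))))))
 (c (a (nat_lit 0x20000001))
 (c (a (nat_lit 0x2020000001))
 (c z e
 (c (a (nat_lit 0x1571b70f6cc027)) e
 (c z e
 (c z e
 (c z e
 (c (a (nat_lit 0x19d13e2d4060e5)) e
 (c (a (nat_lit 0x8ed840020b786)) e
 (c z e
 (c z e
 (c (a (nat_lit 0xd300bb93755c7)) e e))))))))))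
 (c (a (nat_lit 0x20202036c7))
 (c (a (nat_lit 0x147b70d1a90847))
 (c (a (nat_lit 0x12f04fb18ec9a789)) e
 (c z e
 (c z e
 (c z e
 (c (a (nat_lit 0xd09081169c00009)) e e)))))
 (c z e
 (c z e
 (c z e
 (c (a (nat_lit 0x37c2f046213c7)) e
 (c z e
 (c z e
 (c z e
 (c (a (nat_lit 0x112fd0f93cc928)) e e)))))))))
 (c (a (nat_lit 0x20201730c7)) e
 (c (a (nat_lit 0x20340e4de8)) e
 (c z e
 (c (a (nat_lit 0x11731186e6e7))
 (c (a (nat_lit 0x4089ea8cc80c4)) e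
 (c z e
 (c z e
 (c z e
 (c (a (nat_lit 0x5637cdb446008)) e e)))))
 (c (a (nat_lit 0x134f40404045)) e
 (c (a (nat_lit 0x18e06040a004)) e
 (c (b (nat_lit 0xf4f51ffffe2))
 (c (a (nat_lit 0x1fc7b825a00006)) e
 (c (a (nat_lit 0x1ee7a000000007)) e e))
 (c (a (nat_lit 0x10f999b99ae5))
 (c (a (nat_lit 0x15e00000000003)) e e)
 (c z e
 (c z e
 (c z e
 (c (a (nat_lit 0xd95a6608065)) e
 (c (a (nat_lit 0x1525e0202c25)) e
 (c (a (nat_lit 0xb8060782e24)) e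
 (c (a (nat_lit 0x1c1f9efefe4)) e
 (c (a (nat_lit 0x65ed4608064)) e
 (c (a (nat_lit 0x14e040600003)) e
 (c (a (nat_lit 0x2000000001)) e e))))))))))))))))))))
 C322)))) Tr.c Tr.e (nat_lit 0) C.cx C.cy
noncomputable def C324 : Tr := beta% (fun (c : Nat → Tr → Tr → Tr) (e : Tr) (z : Nat) (a b : Nat → Nat) =>
 (c (a (nat_lit 0x2020002021))
 (c (a (nat_lit 0x202038bf7d85))
 (c (a (nat_lit 0x54525781fd49643))
 (c z e
 (c z e
 (c z e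
 (c z e
 (c z e
 (c z e
 (c z e
 (c z e
 (c z e
 (c (a (nat_lit 0x1e34cc6a4726400007)) e e))))))))))
 (c z e
 (c z e
 (c (a (nat_lit 0xaa589ec0a467146))
 (c z e
 (c (a (nat_lit 0x136dca2968e54388c9)) e e))
 (c (a (nat_lit 0x380e0e56d4f1785))
 (c (a (nat_lit 0x1d3256b22c0bb3f9c7)) e e)
 (c (a (nat_lit 0x4008041ee8ad6c6)) e
 (c (a (nat_lit 0x8060878aacb726)) e
 (c (a (nat_lit 0x1610a275efbd2a5)) e
 (c (a (nat_lit 0x2a707aa51cb4d06)) e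
 (c z e
 (c (a (nat_lit 0xe87f195d12909a6)) e
 (c z e
 (c (b (nat_lit 0x4a363e4f33feba7)) e
 (c (a (nat_lit 0xb4a6e393326c008)) e
 (c (a (nat_lit 0xc121d020000008)) e e)))))))))))))))
 (c (a (nat_lit 0x203276b545c7)) e
 (c z e
 (c (a (nat_lit 0xfb1d187064468))
 (c z e
 (c (a (nat_lit 0xa548aaea7c5288))
 (c (a (nat_lit 0xc6a0c8e4f5531cf8a)) e e)
 (c z e
 (c z e
 (c z e
 (c (a (nat_lit 0xe71b053d4aa2fe8)) e
 (c z e
 (c z e
 (c z e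
 (c (a (nat_lit 0xacb332f66e00009)) e e))))))))))
 (c (a (nat_lit 0x115269c90543a7))
 (c (a (nat_lit 0x36e8f31fdf07c87))
 (c (a (nat_lit 0x486a90bf05474e669)) e e)
 (c z e
 (c z e
 (c (a (nat_lit 0xaf7292b312b6288)) e
 (c (a (nat_lit 0x10066c0e8bcc0888)) e
 (c (a (nat_lit 0x2345c4b1c0a2e9)) e
 (c z e
 (c z e
 (c (a (nat_lit 0x15fa3d7340000007)) e e)))))))))
 (c (a (nat_lit 0x1f0d4d46c58206))
 (c z e
 (c z e
 (c (a (nat_lit 0x1cf0d23fbaa3bac8)) e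
 (c (a (nat_lit 0xaceec742f4cd408)) e e))))
 (c (a (nat_lit 0x14d74ff02bd146))
 (c (a (nat_lit 0x11108deb5d8ecf47)) e
 (c (a (nat_lit 0x11cdedf86d5eb728)) e
 (c (a (nat_lit 0xd247314ae0fef28)) e e)))
 (c (a (nat_lit 0x9e08040735445))
 (c (a (nat_lit 0x101e186516782a8)) e
 (c (a (nat_lit 0x1016d146861e0e8)) e e))
 (c (a (nat_lit 0x40209512b3a5))
 (c (a (nat_lit 0x3712d48c3638587)) e e)
 (c z e
 (c z e
 (c (a (nat_lit 0xb6f110e634326)) e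
 (c (a (nat_lit 0x17d99756f008e6)) e
 (c (a (nat_lit 0x12119593d3d1c8)) e
 (c (a (nat_lit 0x1cdc9cdcf4d626)) e
 (c (a (nat_lit 0x2080e0a97805)) e
 (c (a (nat_lit 0x5ce6baf1d94a5)) e
 (c (a (nat_lit 0x11b07239950dc6)) e e))))))))))))))))))
 (c (a (nat_lit 0x4040402021))
 (c z e
 (c (a (nat_lit 0x1a5a1924646028)) e
 (c (a (nat_lit 0x1b7c8ccbc44447)) e
 (c (a (nat_lit 0x1e6d8d874463a7)) e e))))
 (c (a (nat_lit 0x4040404021))
 (c (a (nat_lit 0x15f5c989624026)) e e)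
 (c (a (nat_lit 0x4040404041))
 (c z e
 (c (a (nat_lit 0x132dcdcdcc0cc8))
 (c (a (nat_lit 0xdae6df296d5542a))
 (c (a (nat_lit 0x10f5ef93aac000000a)) e e)
 (c z e
 (c z e
 (c z e
 (c (a (nat_lit 0xeab93ada6a706ea)) e e)))))
 (c z e
 (c z e
 (c z e
 (c (a (nat_lit 0x10514e85492846))
 (c (a (nat_lit 0xe968d8ae7e00007)) e e)
 (c z e
 (c z e
 (c z e
 (c (a (nat_lit 0xc2a102f69a067)) e
 (c z e
 (c z e
 (c z e
 (c (a (nat_lit 0x1715d87beec007)) e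
 (c (a (nat_lit 0x1497cdc0000007)) e e)))))))))))))))
 (c (nat_lit 1)
 (c (a (nat_lit 0x1f7f7fbb1b0cc6))
 (c (a (nat_lit 0x100bd3f63cf4d768))
 (c (a (nat_lit 0x140d37458000000008)) e e)
 (c z e
 (c z e
 (c z e
 (c (a (nat_lit 0x1554768f494e0ba9)) e e)))))
 (c z e
 (c z e
 (c (a (nat_lit 0x9fa46c043d806))
 (c (a (nat_lit 0x157569eb0a712588)) e
 (c (a (nat_lit 0x11c7ebebca800009)) e e))
 (c (a (nat_lit 0x1a074083f71806))
 (c (a (nat_lit 0xd51f10a40000008)) e e)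
 (c z e
 (c z e
 (c z e
 (c (b (nat_lit 0xeef948f6cffe7)) e
 (c z e
 (c z e
 (c (a (nat_lit 0x123f6cb39728a7)) e
 (c (a (nat_lit 0x11c88ce7600008)) e
 (c (a (nat_lit 0x1a560000000006)) e e))))))))))))))
 (c (a (nat_lit 0x4040404041))
 (c z e
 (c z e
 (c (a (nat_lit 0x184de060c234c6))
 (c (a (nat_lit 0x136daaeb9669e009)) e
 (c (a (nat_lit 0x13af2f7780000009)) e e))
 (c (a (nat_lit 0xe60c080d17ae6))
 (c (a (nat_lit 0x1170b60000000008)) e e)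
 (c z e
 (c z e
 (c z e
 (c z e
 (c z e
 (c z e
 (c (a (nat_lit 0x8492f3ae40007)) e
 (c (a (nat_lit 0x9762060000006)) e e))))))))))))
 (c (a (nat_lit 0x6060606061))
 (c z e
 (c (a (nat_lit 0x7a0402060b166))
 (c (a (nat_lit 0x1475ec92e3000008)) e
 (c (a (nat_lit 0x19b06c6000000009)) e e))
 (c (a (nat_lit 0x202020471307))
 (c (a (nat_lit 0x11c9a00000000008)) e e)
 (c z e
 (c z e
 (c z e
 (c z e
 (c z e
 (c (a (nat_lit 0x36543054730e9)) e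
 (c (a (nat_lit 0xf0bb12b000008)) e
 (c (a (nat_lit 0x16d1e000000005)) e e)))))))))))
 (c (a (nat_lit 0x2020203665))
 (c (a (nat_lit 0x1a36262425246)) e
 (c (a (nat_lit 0x3e2e3c49500e6)) e
 (c z e
 (c z e
 (c z e
 (c (a (nat_lit 0xc2fe9202a1708)) e
 (c (a (nat_lit 0x74768a62d17c9)) e
 (c (a (nat_lit 0x5a2a505d02009)) e
 (c (a (nat_lit 0x1c7ba860000003)) e
 (c (a (nat_lit 0x13000000000003)) e e))))))))))
 (c (a (nat_lit 0x2020367fc5))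
 (c (a (nat_lit 0x1616767f3cf024)) e
 (c z e
 (c z e
 (c z e
 (c (a (nat_lit 0x6c6c82c142988)) e
 (c (a (nat_lit 0x40565eed1e469)) e
 (c (a (nat_lit 0x7c4c87cc00008)) e
 (c (a (nat_lit 0x19c7e000000004)) e e))))))))
 (c (a (nat_lit 0x2038571126)) e
 (c z e
 (c (a (nat_lit 0x101650002026)) e
 (c (a (nat_lit 0x1615c0402045))
 (c (a (nat_lit 0x18f9b80ac00008)) e e)
 (c (a (nat_lit 0xe440ff01026)) e
 (c (a (nat_lit 0x14d4f7979787)) e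
 (c (a (nat_lit 0x4e0204031a5)) e
 (c (a (nat_lit 0x2051b545)) e
 (c (a (nat_lit 0x767ab522ee6)) e
 (c z e
 (c z e
 (c (a (nat_lit 0x1f1201006024)) e
 (c (a (nat_lit 0x11a0c0602024)) e
 (c (a (nat_lit 0x7434080a001)) e
 (c (a (nat_lit 0x12040000001)) e e))))))))))))))))))))))))) Tr.c Tr.e (nat_lit 0) C.cx C.cy
noncomputable def C325 : Tr := beta% (fun (c : Nat → Tr → Tr → Tr) (e : Tr) (z : Nat) (a b : Nat → Nat) =>
 (c (a (nat_lit 0x20202001))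
 (c (a (nat_lit 0x1bfadec5656025))
 (c z e
 (c z e
 (c z e
 (c z e
 (c z e
 (c (b (nat_lit 0x9cad6dfeaa690c6)) e e))))))
 (c (a (nat_lit 0x1a5b8eeee5c025)) e
 (c (a (nat_lit 0x17090aa0a08045)) e
 (c z e
 (c z e
 (c z e
 (c z e
 (c z e
 (c z e
 (c z e
 (c z e
 (c z e
 (c (a (nat_lit 0x1d3613b3ef53c5)) e
 (c z e
 (c z e
 (c (a (nat_lit 0x6703c4580a005)) e
 (c (a (nat_lit 0xa504280000006)) e
 (c (a (nat_lit 0x1bc00000000005)) e e))))))))))))))))))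
 (c (a (nat_lit 0x2020000001))
 (c (a (nat_lit 0x1d7334caaaaaa4))
 (c (a (nat_lit 0x202f922bbd1be6)) e
 (c z e
 (c z e
 (c (a (nat_lit 0x6a20e2e0bcb3088)) e
 (c (a (nat_lit 0x3ca4bef437594e7)) e
 (c z e
 (c z e
 (c (a (nat_lit 0xce9ac5029eb2508)) e e))))))))
 (c (a (nat_lit 0x13b56f6f6f4826)) e
 (c z e
 (c z e
 (c z e
 (c (a (nat_lit 0x102d7309238445))
 (c (a (nat_lit 0x19ac79a6c5256006)) e e)
 (c z e
 (c (a (nat_lit 0x13c7acef4c55e5)) e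
 (c (a (nat_lit 0x62a8db114af45)) e
 (c (a (nat_lit 0xc2ceed1708e06)) e
 (c z e
 (c z e
 (c z e
 (c (a (nat_lit 0xb56101a17a906)) e
 (c (a (nat_lit 0x1bb5dfcec00006)) e
 (c (a (nat_lit 0x140d2000000006)) e e))))))))))))))))
 (c (nat_lit 1)
 (c (a (nat_lit 0x171292b2a8f0c5))
 (c (a (nat_lit 0xa4d8b708eb57087)) e
 (c z e
 (c z e
 (c z e
 (c (a (nat_lit 0xb8e92520de8a6e8)) e e)))))
 (c z e
 (c z e
 (c (a (nat_lit 0x116bd400806545))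
 (c (a (nat_lit 0x142fd586c26ac9e7)) e
 (c (a (nat_lit 0x116ee5256e074008)) e e))
 (c (a (nat_lit 0x2e9e020229566))
 (c (a (nat_lit 0x13c98af687400007)) e e)
 (c (a (nat_lit 0xa20202477a786)) e
 (c (a (nat_lit 0x3a3a8990b6e66)) e
 (c z e
 (c (a (nat_lit 0x7518aea47ab47)) e
 (c z e
 (c z e
 (c (a (nat_lit 0xccc5d3054f426)) e
 (c (a (nat_lit 0x8b10aad066007)) e
 (c (a (nat_lit 0x116b06a0000007)) e
 (c (a (nat_lit 0x11400000000005)) e e)))))))))))))))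
 (c (a (nat_lit 0x4040404041))
 (c z e
 (c z e
 (c (a (nat_lit 0x85d40404161e4))
 (c (a (nat_lit 0xccdc9490810a588)) e
 (c (a (nat_lit 0x1453515553600008)) e e))
 (c (a (nat_lit 0x1d0020a06080c4))
 (c (a (nat_lit 0x1c977f5220000007)) e
 (c (a (nat_lit 0x1ad1a00000000007)) e e))
 (c (a (nat_lit 0x404060a27ce4)) e
 (c z e
 (c z e
 (c z e
 (c z e
 (c z e
 (c (a (nat_lit 0x8aeb30f766646)) e
 (c (a (nat_lit 0x1478f5b0400006)) e
 (c (a (nat_lit 0x15692000000006)) e e)))))))))))))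
 (c (nat_lit 1)
 (c (a (nat_lit 0x1918c06040c0c4))
 (c (a (nat_lit 0x106ceaa9e5c72b48)) e
 (c (a (nat_lit 0x1af8958ef2d70fc8)) e
 (c (a (nat_lit 0x161b7717d1600007)) e e)))
 (c (a (nat_lit 0x1c60a080606064))
 (c (a (nat_lit 0x102ca8ebcbc56008)) e
 (c (a (nat_lit 0x10cf510a60000008)) e e))
 (c (a (nat_lit 0x2a161a2e361))
 (c (a (nat_lit 0x1c566aa000000006)) e e)
 (c (a (nat_lit 0x204080a257a5)) e
 (c z e
 (c z e
 (c z e
 (c (a (nat_lit 0x951d8d1276006)) e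
 (c (a (nat_lit 0x9715125012806)) e
 (c (a (nat_lit 0x1233b0c9c22005)) e
 (c (a (nat_lit 0x183607a0000005)) e
 (c (a (nat_lit 0x1ce00000000004)) e e))))))))))))
 (c (nat_lit 1)
 (c z e
 (c (a (nat_lit 0x1a24468aaa2a1)) e
 (c (a (nat_lit 0x6e7e8297adb63)) e
 (c z e
 (c z e
 (c (a (nat_lit 0xd1558c7002e46)) e
 (c (a (nat_lit 0xa8d0d072471c7)) e
 (c (a (nat_lit 0x1816f16c2a9c66)) e
 (c (a (nat_lit 0x144382c0e00001)) e e)))))))))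
 (c (a (nat_lit 0x4040404021))
 (c (a (nat_lit 0x1252d33438af23)) e
 (c (a (nat_lit 0x13f3f45af7b025)) e
 (c z e
 (c z e
 (c (a (nat_lit 0x226a7a3a6f067)) e
 (c (a (nat_lit 0x549cde910ba67)) e
 (c (a (nat_lit 0xc6ea82330c006)) e
 (c (a (nat_lit 0x136ec040000004)) e
 (c (a (nat_lit 0x1ca00000000003)) e e)))))))))
 (c (b (nat_lit 0x20203ff744))
 (c (a (nat_lit 0x125296b7341625)) e
 (c z e
 (c z e
 (c z e
 (c z e
 (c (a (nat_lit 0xaa5e850e00007)) e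
 (c (a (nat_lit 0x1c1cc000000003)) e e)))))))
 (c (a (nat_lit 0xe8e947875e5))
 (c (a (nat_lit 0x836d12aff1e6)) e
 (c (a (nat_lit 0x4896f8b8b7268)) e e))
 (c (a (nat_lit 0xbca1793eb85))
 (c (a (nat_lit 0x3ec68e763f247)) e e)
 (c (a (nat_lit 0x119a3f4eeee4))
 (c (a (nat_lit 0x11b75834e90007)) e e)
 (c (a (nat_lit 0x1112e1a121a1)) e
 (c (a (nat_lit 0x1149a989c942)) e
 (c (a (nat_lit 0x1cbcc0e0e101)) e
 (c (a (nat_lit 0x1d010141cca1)) e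
 (c (a (nat_lit 0x20a12b10e1)) e
 (c (a (nat_lit 0x141ed12f1a1)) e
 (c (a (nat_lit 0x1738b9393924)) e
 (c (a (nat_lit 0x381416001)) e
 (c (a (nat_lit 0x3e1a260e021)) e
 (c (a (nat_lit 0xc100404001)) e
 (c (a (nat_lit 0x1a060200001)) e
 (c (a (nat_lit 0x6000000001)) e e)))))))))))))))))))))))) Tr.c Tr.e (nat_lit 0) C.cx C.cy
noncomputable def C326 : Tr := beta% (fun (c : Nat → Tr → Tr → Tr) (e : Tr) (z : Nat) (a b : Nat → Nat) =>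
 (c (a (nat_lit 0x2020202021))
 (c z
 (c z e
 (c (a (nat_lit 0x7cb8b8828283543)) e
 (c (a (nat_lit 0x11918b2b0ad80662)) e
 (c (a (nat_lit 0x19933312ef480502)) e
 (c z e
 (c z e
 (c z e
 (c z e
 (c z e
 (c z e
 (c z e
 (c (a (nat_lit 0x17577877b6769786)) e
 (c z e
 (c z e
 (c (a (nat_lit 0x6294b0946e37784)) e
 (c (a (nat_lit 0x1e447658589d464)) e e))))))))))))))))
 (c (a (nat_lit 0xa0a0a0a0b301))
 (c (a (nat_lit 0xfefef0eeef3ae86))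
 (c z e
 (c z e
 (c z e
 (c z e
 (c z e
 (c z e
 (c z e
 (c (a (nat_lit 0xe6b09284af60bea27)) e e))))))))
 (c (a (nat_lit 0x844644470668565))
 (c z e
 (c z e
 (c z e
 (c z e
 (c z e
 (c (a (nat_lit 0x9c8262c2b2ccfb468)) e e))))))
 (c z e
 (c z e
 (c (a (nat_lit 0xd66c5e3602335e5))
 (c z e
 (c (a (nat_lit 0xb2bca509460e288c8)) e
 (c z e
 (c (a (nat_lit 0x1779f922c454966807)) e
 (c (a (nat_lit 0x118e23e48da8c00008)) e e)))))
 (c (a (nat_lit 0x10896841a1019663))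
 (c z e
 (c z e
 (c (a (nat_lit 0x19f906616319692007)) e e)))
 (c (a (nat_lit 0x13b1700f4f4f7884)) e
 (c (a (nat_lit 0x544e50484849945)) e
 (c (a (nat_lit 0x282426962942e45)) e
 (c (a (nat_lit 0x3434a48d731eb65)) e
 (c z e
 (c (a (nat_lit 0x100bf94e052f2485)) e
 (c (a (nat_lit 0x62c2a282366fd06)) e
 (c (a (nat_lit 0x4446665c3e81108)) e
 (c (a (nat_lit 0x80947e768f4e007)) e
 (c (a (nat_lit 0x1dd125a380000004)) e e))))))))))))))))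
 (c (a (nat_lit 0x202020245604))
 (c z e
 (c z e
 (c z e
 (c z e
 (c z e
 (c z e
 (c (a (nat_lit 0x880e12522106ac4)) e
 (c (a (nat_lit 0x484a9563ddfc784)) e
 (c (b (nat_lit 0x39ffc3e72ab44)) e
 (c z e
 (c z e
 (c (a (nat_lit 0x6a72748ca0ff927)) e
 (c z e
 (c (a (nat_lit 0x889c90a72c00007)) e e))))))))))))))
 (c (a (nat_lit 0x20202a506fa5))
 (c z e
 (c z e
 (c z e
 (c z e
 (c z e
 (c (a (nat_lit 0x114f2eed98166c65)) e
 (c (a (nat_lit 0x84826d190e82845)) e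
 (c (a (nat_lit 0x2a12d1467a326a5)) e
 (c (a (nat_lit 0x12923c3b9b74d145)) e
 (c z e
 (c z e
 (c z e
 (c (a (nat_lit 0x464c65680000006)) e e)))))))))))))
 (c (a (nat_lit 0x1616af19125c5))
 (c (a (nat_lit 0x178fd1eb8b36b424)) e
 (c z e
 (c z e
 (c z e
 (c z e
 (c (a (nat_lit 0xa467acafa956ee5)) e
 (c (a (nat_lit 0x1740afe51882605)) e
 (c (a (nat_lit 0x986ae2f092a9287)) e
 (c (a (nat_lit 0x691196e70ae1d46)) e e)))))))))
 (c (a (nat_lit 0x1697170a56565))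
 (c z e
 (c z e
 (c z e
 (c (a (nat_lit 0x6cd70b6cad0f186)) e
 (c (a (nat_lit 0x13d63d9df71b95e5)) e
 (c z e
 (c z e
 (c z e
 (c (a (nat_lit 0xa4aea9313686007)) e e)))))))))
 (c (a (nat_lit 0x108a7c8c2c26e4))
 (c z e
 (c z e
 (c (a (nat_lit 0x56a6d0d48730ca6)) e
 (c (a (nat_lit 0x92911f0350b6906)) e e))))
 (c (a (nat_lit 0x125d3c7c7572a3))
 (c z e
 (c (a (nat_lit 0x5c786c583e510c7)) e
 (c (a (nat_lit 0x48bab8502d33626)) e
 (c z e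
 (c z e
 (c (a (nat_lit 0x5c3abb56d850007)) e e))))))
 (c (a (nat_lit 0x10727fcb8b4b62))
 (c (a (nat_lit 0xbc3e1a242d6b825)) e
 (c (a (nat_lit 0x5c5e282317a05a6)) e
 (c (a (nat_lit 0x743451acf216726)) e
 (c (a (nat_lit 0x8a9de2d88524987)) e e))))
 (c (a (nat_lit 0x1c9caecc2c77c1))
 (c (a (nat_lit 0x783c34771a4a446)) e
 (c (a (nat_lit 0x6c8339ba445ee06)) e e))
 (c (a (nat_lit 0x1e75d5d55af562))
 (c (a (nat_lit 0xcfdb521e7cfe645)) e e)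
 (c z e
 (c z e
 (c (a (nat_lit 0xf71d02e8e8e65)) e
 (c (a (nat_lit 0x100e8f0f2f09a5)) e
 (c (a (nat_lit 0x1476d716764043)) e
 (c (a (nat_lit 0x1a3b18d91898a1)) e
 (c (a (nat_lit 0xb494928ca5ba1)) e
 (c (a (nat_lit 0x1414961c5f803)) e
 (c (a (nat_lit 0x52d070a1c0723)) e
 (c (a (nat_lit 0x1af4b7b5000003)) e e)))))))))))))))))))))
 (c (nat_lit 1)
 (c (a (nat_lit 0x1a1a1a1aa1685))
 (c (a (nat_lit 0x1875f5d5ff97f945))
 (c z e
 (c z e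
 (c z e
 (c z e
 (c (a (nat_lit 0xc906c4ccce7820668)) e
 (c (a (nat_lit 0x14104e700ae54a5008)) e
 (c (a (nat_lit 0x17f5088e838c6c53c7)) e e)))))))
 (c z e
 (c z e
 (c z e
 (c (a (nat_lit 0x905e4e4c5f92da5))
 (c (a (nat_lit 0x118e062aab0064ec08)) e
 (c z e
 (c z e
 (c (a (nat_lit 0x17fdc187d95eeb8007)) e e))))
 (c (a (nat_lit 0x285a0c041b4d1c5))
 (c z e
 (c z e
 (c (a (nat_lit 0x180945a65a4ec00008)) e e)))
 (c (a (nat_lit 0xe06020206837c6)) e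
 (c (a (nat_lit 0x21204300d4cbe6)) e
 (c (a (nat_lit 0x1e208a72f32c9a6)) e
 (c (a (nat_lit 0x92fce973a912be6)) e
 (c (a (nat_lit 0x135113f2d3d1e866)) e
 (c z e
 (c (a (nat_lit 0x5a6e58385756467)) e
 (c (a (nat_lit 0x6a64907d175a328)) e
 (c (a (nat_lit 0x3832303d1e00008)) e
 (c (a (nat_lit 0x1868e18000000005)) e e))))))))))))))))
 (c (a (nat_lit 0x22222349e5be6)) e
 (c (a (nat_lit 0x202ef2b224e7)) e
 (c (a (nat_lit 0x16e93b3668627)) e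
 (c (a (nat_lit 0xaeef0a5e5e367))
 (c (a (nat_lit 0x5ad2fb0d159cee7))
 (c (a (nat_lit 0xd64a8ee7198957e28)) e e)
 (c z e
 (c z e
 (c (a (nat_lit 0x78b91a6894b67a8)) e
 (c (a (nat_lit 0xef0ebad8f4c4968)) e
 (c z e
 (c z e
 (c z e
 (c (a (nat_lit 0xe2f179dccc00008)) e e)))))))))
 (c (a (nat_lit 0x151daacaa12005))
 (c z e
 (c z e
 (c (a (nat_lit 0xd934e48dc6c2067)) e
 (c (a (nat_lit 0x98e725ced483f07)) e e))))
 (c (a (nat_lit 0x102b8c0a098767))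
 (c (a (nat_lit 0xacaed4a0db553e7)) e
 (c (a (nat_lit 0xf0c88ab9132b968)) e
 (c (a (nat_lit 0x9e9c84d4d542ee8)) e e)))
 (c (a (nat_lit 0x40920c0e0f325))
 (c (a (nat_lit 0x44021612cdb4de7)) e
 (c (a (nat_lit 0x381614779282308)) e e))
 (c (a (nat_lit 0x4008040528aa5))
 (c (a (nat_lit 0x464239bc9044347)) e e)
 (c z e
 (c z e
 (c z e
 (c (a (nat_lit 0x16d737b514ada6)) e
 (c (a (nat_lit 0xeaef434100de7)) e
 (c (a (nat_lit 0x19b8f8d8b4b327)) e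
 (c (a (nat_lit 0x120c0a0607da4)) e
 (c (a (nat_lit 0x80a5a0af3305)) e
 (c (a (nat_lit 0x7ccccf6ba7365)) e e))))))))))))))))))
 (c (nat_lit 1)
 (c (a (nat_lit 0x2c2d5be3b4745))
 (c z e
 (c z e
 (c z e
 (c z e
 (c z e
 (c z e
 (c z e
 (c (a (nat_lit 0xa4e7014346e91c6)) e e))))))))
 (c (a (nat_lit 0x1701352a5c5c7)) e
 (c (a (nat_lit 0x13973b25454026)) e
 (c (a (nat_lit 0x1dfd6a6a41c025)) e
 (c (a (nat_lit 0x1fac2dc3430045)) e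
 (c (a (nat_lit 0x18180fafe743a5))
 (c z e
 (c z e
 (c (a (nat_lit 0x230d91292b10c8)) e e)))
 (c (a (nat_lit 0x11408080919fe4))
 (c (a (nat_lit 0x121017c8e6d2207)) e e)
 (c z e
 (c z e
 (c z e
 (c z e
 (c z e
 (c z e
 (c (a (nat_lit 0x1b7232b290a245)) e
 (c (a (nat_lit 0x4080c1413ee4)) e
 (c (a (nat_lit 0x3030b05b26565)) e e))))))))))))))))
 C325)))) Tr.c Tr.e (nat_lit 0) C.cx C.cy
noncomputable def C328 : Tr := beta% (fun (c : Nat → Tr → Tr → Tr) (e : Tr) (z : Nat) (a b : Nat → Nat) =>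
 (c (nat_lit 1)
 (c (a (nat_lit 0x203484))
 (c (a (nat_lit 0x2040403544)) e
 (c (a (nat_lit 0x2020299646)) e
 (c (a (nat_lit 0x2451ff65ac7)) e
 (c z e
 (c (a (nat_lit 0x1953be8b0707)) e
 (c (a (nat_lit 0xf336bd6a527)) e
 (c (a (nat_lit 0x1b8acb85a007)) e
 (c (a (nat_lit 0x12c260000005)) e e))))))))
 (c (a (nat_lit 0x388da6))
 (c (a (nat_lit 0xe4462d7087)) e
 (c z e
 (c z e
 (c (a (nat_lit 0xbd4ccc870e9)) e
 (c (a (nat_lit 0x137195c79928)) e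
 (c (a (nat_lit 0x17d67b800007)) e
 (c (a (nat_lit 0x10c000000004)) e e)))))))
 (c (a (nat_lit 0x372878107)) e
 (c z e
 (c (a (nat_lit 0x10ed002026))
 (c (a (nat_lit 0xa1373e1a008)) e e)
 (c (a (nat_lit 0xc202f79a6)) e
 (c (a (nat_lit 0x2054ed24)) e
 (c (a (nat_lit 0x132124182)) e
 (c (a (nat_lit 0x193947c544)) e
 (c (a (nat_lit 0x204630e5)) e
 (c z e
 (c (b (nat_lit 0x1fed84e761)) e
 (c (a (nat_lit 0x9c1246041)) e
 (c (a (nat_lit 0x160c001)) e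
 (c (a (nat_lit 0x1c080a041)) e
 (c (a (nat_lit 0x600001)) e e))))))))))))))))
 (c (nat_lit 1)
 (c (a (nat_lit 0x3340b2286))
 (c (a (nat_lit 0x1cbd62d8ce6)) e
 (c z e
 (c z e
 (c (a (nat_lit 0x14ada3ee5288)) e
 (c (a (nat_lit 0x1b194b9ca007)) e
 (c (a (nat_lit 0x137360000007)) e e))))))
 (c z e
 (c (a (nat_lit 0x1b46402025))
 (c (a (nat_lit 0x8a9f642c3a9)) e
 (c (a (nat_lit 0xa5f99a82009)) e e))
 (c (a (nat_lit 0xa60203485))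
 (c (a (nat_lit 0x147c88600008)) e e)
 (c (a (nat_lit 0x2ed8f546)) e
 (c z e
 (c (a (nat_lit 0x1c2248201)) e
 (c (a (nat_lit 0xf91e629a5)) e
 (c z e
 (c (a (nat_lit 0xf36b413a4)) e
 (c (a (nat_lit 0x1862610021)) e
 (c (a (nat_lit 0x281814141)) e
 (c (a (nat_lit 0x2012280c1)) e
 (c (a (nat_lit 0x804001)) e
 (c (nat_lit 1) e e)))))))))))))))
 (c (a (nat_lit 0x2021))
 (c (a (nat_lit 0x1944402004)) e
 (c (a (nat_lit 0x6a0205465))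
 (c (a (nat_lit 0x13d7f947c168)) e
 (c (a (nat_lit 0x1a5e28000009)) e e))
 (c (a (nat_lit 0x349425))
 (c (a (nat_lit 0x11e3e0000009)) e e)
 (c z e
 (c z e
 (c (b (nat_lit 0x6569fee26)) e
 (c z e
 (c (b (nat_lit 0x1ff3d3d262)) e
 (c (a (nat_lit 0x1aba9be164)) e
 (c (a (nat_lit 0x401e0c081)) e
 (c (a (nat_lit 0x203bc4)) e
 (c (a (nat_lit 0x40c0b081)) e
 (c (a (nat_lit 0x600001)) e e)))))))))))))
 (c (nat_lit 1)
 (c (a (nat_lit 0x160e081))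
 (c (a (nat_lit 0xcffc5602007)) e
 (c (a (nat_lit 0x1223c0000009)) e e))
 (c (a (nat_lit 0x2aeaf106))
 (c (a (nat_lit 0x1ea000000006)) e e)
 (c z e
 (c z e
 (c z e
 (c (a (nat_lit 0x211b1b186)) e
 (c (a (nat_lit 0x1555750024)) e
 (c (a (nat_lit 0x6c1210241)) e
 (c (a (nat_lit 0x40409823)) e
 (c (a (nat_lit 0x21430141)) e
 (c (a (nat_lit 0xc06001)) e
 (c (a (nat_lit 0x40000001)) e e))))))))))))
 (c (a (nat_lit 0x202021))
 (c (a (nat_lit 0xf8f93cbc6)) e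
 (c z e
 (c z e
 (c (a (nat_lit 0xb3afafac6)) e
 (c (a (nat_lit 0x18240e041)) e
 (c (a (nat_lit 0x11c0a04042)) e
 (c (a (nat_lit 0x2a1826921)) e
 (c (a (nat_lit 0x802de1)) e
 (c (a (nat_lit 0x400021)) e
 (c (a (nat_lit 0x400001)) e e))))))))))
 (c (a (nat_lit 0x202021))
 (c z e
 (c (b (nat_lit 0x1fe241c481)) e
 (c (a (nat_lit 0x15d5f5e026)) e
 (c (a (nat_lit 0x21806001)) e
 (c (a (nat_lit 0x6040e121)) e
 (c (a (nat_lit 0x20c040c1)) e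
 (c (a (nat_lit 0x60a020a1)) e
 (c (a (nat_lit 0x20004001)) e
 (c (a (nat_lit 0x20000001)) e e)))))))))
 (c (a (nat_lit 0x202021))
 (c (a (nat_lit 0x2c30021)) e
 (c (a (nat_lit 0x22e10041)) e
 (c (a (nat_lit 0x1c1c0e001)) e
 (c (a (nat_lit 0x140613a41)) e
 (c (a (nat_lit 0x1e08021)) e
 (c (a (nat_lit 0x1c0c08041)) e
 (c (a (nat_lit 0x40400001)) e e)))))))
 (c (a (nat_lit 0x202021))
 (c (a (nat_lit 0x21)) e
 (c (a (nat_lit 0x2021)) e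
 (c (a (nat_lit 0x202021)) e
 (c (a (nat_lit 0x20202021)) e
 (c (a (nat_lit 0x20202001)) e
 (c (a (nat_lit 0x20000001)) e e))))))
 (c (a (nat_lit 0x202021))
 (c (a (nat_lit 0x202021)) e
 (c (a (nat_lit 0x20202021)) e
 (c (a (nat_lit 0x20202021)) e
 (c (a (nat_lit 0x20200001)) e e))))
 (c (a (nat_lit 0x202021))
 (c (a (nat_lit 0x20202021)) e
 (c (a (nat_lit 0x20202001)) e
 (c (a (nat_lit 0x20000001)) e e)))
 (c (a (nat_lit 0x202021))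
 (c (a (nat_lit 0x20200001)) e e)
 (c (a (nat_lit 0x202021)) e
 (c (a (nat_lit 0x202021)) e
 (c (a (nat_lit 0x202021)) e
 (c (a (nat_lit 0x202021)) e
 (c (nat_lit 1) e
 (c (a (nat_lit 0x21)) e
 (c (a (nat_lit 0x41)) e
 (c (a (nat_lit 0x3825)) e
 (c z e
 (c z e
 (c (a (nat_lit 0x17e02002)) e
 (c (a (nat_lit 0x2021)) e
 (c (a (nat_lit 0x2001)) e e))))))))))))))))))))))))) Tr.c Tr.e (nat_lit 0) C.cx C.cy
noncomputable def C329 : Tr := beta% (fun (c : Nat → Tr → Tr → Tr) (e : Tr) (z : Nat) (a b : Nat → Nat) =>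
 (c (a (nat_lit 0x202021))
 (c (a (nat_lit 0x40404041))
 (c (a (nat_lit 0x52525263745))
 (c (a (nat_lit 0x92f34f6f6cd24)) e
 (c z e
 (c z e
 (c z e
 (c (a (nat_lit 0xb944e61c24207)) e
 (c (a (nat_lit 0x13746d01608006)) e
 (c (a (nat_lit 0x12acca60000006)) e e)))))))
 (c z e
 (c z e
 (c (a (nat_lit 0x876b147a7a6))
 (c (b (nat_lit 0x1ff9699fe420c7)) e
 (c (a (nat_lit 0x1b2de041e00008)) e e))
 (c (a (nat_lit 0x114a00202006))
 (c (a (nat_lit 0x46bd5a0000001)) e e)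
 (c (a (nat_lit 0x1147e7e4a006)) e
 (c (a (nat_lit 0x107060202d65)) e
 (c (a (nat_lit 0x202f3070e8)) e
 (c z e
 (c z e
 (c (a (nat_lit 0x153772e04004)) e
 (c (a (nat_lit 0x133300404b24)) e
 (c (a (nat_lit 0x12e06045a004)) e
 (c (a (nat_lit 0xe0000001)) e e))))))))))))))
 (c (a (nat_lit 0x20402021))
 (c z e
 (c z e
 (c (a (nat_lit 0x110549292907))
 (c (b (nat_lit 0x879ff2892006)) e
 (c (a (nat_lit 0x5b34520000007)) e e))
 (c (a (nat_lit 0x14a040404025))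
 (c (a (nat_lit 0x19210000000006)) e e)
 (c (a (nat_lit 0x129280404566)) e
 (c z e
 (c z e
 (c z e
 (c z e
 (c (a (nat_lit 0x1629c34281e6)) e
 (c (a (nat_lit 0x1866410d6c83)) e
 (c (a (nat_lit 0x2e1e00001)) e
 (c (a (nat_lit 0x2000000001)) e e)))))))))))))
 (c (a (nat_lit 0x40404021))
 (c (a (nat_lit 0x1089c0406045))
 (c (b (nat_lit 0x1fffe9b8a120c4)) e
 (c (a (nat_lit 0x1400e5a0804007)) e
 (c (a (nat_lit 0xf26f80000006)) e e)))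
 (c (a (nat_lit 0x13a060804045))
 (c (a (nat_lit 0x1129ef40400006)) e
 (c (a (nat_lit 0x1d5ec000000005)) e e))
 (c (a (nat_lit 0x1d3da0606565))
 (c (a (nat_lit 0x1f200000000004)) e e)
 (c (b (nat_lit 0x1fe5accfb727)) e
 (c z e
 (c z e
 (c z e
 (c z e
 (c (b (nat_lit 0x17c5897fe026)) e
 (c (a (nat_lit 0x147c2a6a4005)) e
 (c (a (nat_lit 0x120020000005)) e e)))))))))))
 (c (a (nat_lit 0x808080c1))
 (c (a (nat_lit 0x1d3d40406484))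
 (c (a (nat_lit 0x13bd4ea0000004)) e
 (c (a (nat_lit 0x1c200000000003)) e e))
 (c (a (nat_lit 0x2020645786)) e
 (c (a (nat_lit 0x76a72fb47)) e
 (c z e
 (c z e
 (c z e
 (c z e
 (c (b (nat_lit 0x1ff8b06b0241)) e
 (c (a (nat_lit 0x11c7e2400001)) e
 (c (a (nat_lit 0x66000000001)) e e))))))))))
 (c (a (nat_lit 0x40204021))
 (c (a (nat_lit 0x5c5e5f99445)) e
 (c z e
 (c (a (nat_lit 0x10f5352309c7)) e
 (c (a (nat_lit 0x18991082ef87)) e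
 (c z e
 (c z e
 (c (a (nat_lit 0x1a58729f6005)) e
 (c (a (nat_lit 0x8d020000005)) e e))))))))
 (c (a (nat_lit 0x406080a1))
 (c (a (nat_lit 0xa2c15ac4427)) e
 (c (a (nat_lit 0x6b0ce8543a7)) e
 (c (a (nat_lit 0x1bb0b192b1e7)) e e)))
 (c (a (nat_lit 0x20203d06))
 (c (a (nat_lit 0x9a7a6003406)) e
 (c (a (nat_lit 0x94a7725e927)) e e))
 (c (a (nat_lit 0x203e9986))
 (c (a (nat_lit 0x3c5088bbe88)) e e)
 (c (a (nat_lit 0x8f08d49e8)) e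
 (c z e
 (c (a (nat_lit 0x10e7002006)) e
 (c (a (nat_lit 0x1be0402024)) e
 (c (a (nat_lit 0x1020122c1)) e
 (c (a (nat_lit 0x6100e001)) e
 (c (a (nat_lit 0x202035e5)) e
 (c (a (nat_lit 0x5cb889026)) e
 (c z e
 (c (a (nat_lit 0x3f3202025)) e
 (c (a (nat_lit 0x1300202025)) e
 (c (a (nat_lit 0x121406001)) e
 (c (a (nat_lit 0xe0000001)) e e)))))))))))))))))))))
 (c (a (nat_lit 0x202021))
 (c (a (nat_lit 0x2021))
 (c (a (nat_lit 0x8d1a2020225))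
 (c z e
 (c z e
 (c (b (nat_lit 0x1fffe5b403e244)) e
 (c (b (nat_lit 0x1ff4f3e0c00006)) e e))))
 (c (a (nat_lit 0x108040202026))
 (c (a (nat_lit 0x4e2c45ec221c3)) e
 (c (a (nat_lit 0x3fad500c04006)) e
 (c (a (nat_lit 0x11eb6420000007)) e e)))
 (c (a (nat_lit 0x68202c0e1a1))
 (c (a (nat_lit 0x1d606800200005)) e
 (c (a (nat_lit 0x1727c000000006)) e e))
 (c (a (nat_lit 0x1dbde0a0a024))
 (c (a (nat_lit 0x1fc00000000003)) e e)
 (c (a (nat_lit 0x22e2e2f107)) e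
 (c z e
 (c z e
 (c z e
 (c (a (nat_lit 0x1a7697358028)) e
 (c (a (nat_lit 0x1924208003)) e
 (c (a (nat_lit 0x1e0901e04003)) e
 (c (a (nat_lit 0x126240000002)) e e))))))))))))
 (c (a (nat_lit 0x80606081))
 (c (a (nat_lit 0xe2c3632461))
 (c (a (nat_lit 0xa958820e0e044)) e
 (c (a (nat_lit 0x1fb0d120600006)) e e))
 (c (a (nat_lit 0x107080404026))
 (c (a (nat_lit 0xe90a860000006)) e
 (c (a (nat_lit 0x10800000000005)) e e))
 (c (a (nat_lit 0x408057c5)) e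
 (c (a (nat_lit 0x2040447248)) e
 (c z e
 (c z e
 (c z e
 (c (a (nat_lit 0x12f2f2c481a9)) e
 (c (a (nat_lit 0x7b760c04025)) e
 (c (a (nat_lit 0x176080400005)) e
 (c (a (nat_lit 0x12000000001)) e e)))))))))))
 (c (a (nat_lit 0x80606081))
 (c (a (nat_lit 0x8040809e63)) e
 (c (a (nat_lit 0x40976125)) e
 (c (a (nat_lit 0x80848b3028)) e
 (c z e
 (c z e
 (c z e
 (c z e
 (c (b (nat_lit 0x1ffffdc94001)) e
 (c (a (nat_lit 0x1140a0000006)) e e)))))))))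
 (c (a (nat_lit 0x404080a1))
 (c (a (nat_lit 0x5252ce33f85)) e
 (c z e
 (c z e
 (c z e
 (c z e
 (c z e
 (c (a (nat_lit 0xec814600006)) e
 (c (a (nat_lit 0x1dc000000004)) e e))))))))
 (c (a (nat_lit 0x203ba6))
 (c (a (nat_lit 0x4de3fc3a046)) e
 (c (a (nat_lit 0x571f5535587)) e
 (c z e
 (c z e
 (c z e
 (c (a (nat_lit 0x55140000005)) e e))))))
 (c (a (nat_lit 0x203cb666))
 (c (b (nat_lit 0x3c3fff17fe7)) e e)
 (c (a (nat_lit 0x1aafe3c7)) e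
 (c z e
 (c (a (nat_lit 0x102b402026)) e
 (c (a (nat_lit 0x11e0202045)) e
 (c (a (nat_lit 0x822341)) e
 (c (a (nat_lit 0x1e80202024)) e
 (c (a (nat_lit 0x40203625)) e
 (c (a (nat_lit 0x20358b85)) e
 (c z e
 (c (a (nat_lit 0x192f2f2f45)) e
 (c (a (nat_lit 0x60a0c1)) e
 (c (a (nat_lit 0xc0c0a1)) e
 (c (a (nat_lit 0x20400001)) e e)))))))))))))))))))
 (c (a (nat_lit 0x202021))
 (c (a (nat_lit 0x20202021))
 (c (a (nat_lit 0x15b6e0406042))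
 (c (a (nat_lit 0x1aababc0602003)) e e)
 (c (a (nat_lit 0x10362e401)) e
 (c (a (nat_lit 0x81015e63)) e
 (c (a (nat_lit 0x20205310e7)) e
 (c (a (nat_lit 0x20b07d63567)) e
 (c z e
 (c (a (nat_lit 0x12b13201e008)) e
 (c (a (nat_lit 0xf9068a0c0e8)) e
 (c (a (nat_lit 0x182de3606003)) e
 (c (a (nat_lit 0x1b2140000002)) e e))))))))))
 (c (a (nat_lit 0x20400001))
 (c (a (nat_lit 0x40c12131e3)) e
 (c (a (nat_lit 0x60a0ccbc45)) e
 (c (a (nat_lit 0x1618cd2a748)) e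
 (c z e
 (c z e
 (c z e
 (c (a (nat_lit 0x14edc46204c8)) e
 (c (a (nat_lit 0xc3501200005)) e
 (c (a (nat_lit 0x148000000005)) e e)))))))))
 (c (a (nat_lit 0x20203647))
 (c (a (nat_lit 0x24242cad306)) e
 (c z e
 (c z e
 (c z e
 (c z e
 (c (a (nat_lit 0x1c7d07736007)) e
 (c (a (nat_lit 0x158200000006)) e e)))))))
 (c (a (nat_lit 0x20392647))
 (c z e
 (c z e
 (c z e
 (c z e
 (c z e
 (c (a (nat_lit 0x1b2000000006)) e e))))))
 (c (a (nat_lit 0x14d6c766)) e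
 (c z e
 (c (a (nat_lit 0x1fd4c80806)) e
 (c (a (nat_lit 0x18e0202a85)) e
 (c (a (nat_lit 0x1a260c181)) e
 (c (a (nat_lit 0x20e18241)) e
 (c (a (nat_lit 0x1028141)) e
 (c (b (nat_lit 0x607ffa24)) e
 (c z e
 (c (b (nat_lit 0x1fffe366a1)) e
 (c (a (nat_lit 0x616241)) e
 (c (a (nat_lit 0xa06101)) e
 (c (a (nat_lit 0x40a001)) e
 (c (a (nat_lit 0x20000001)) e e))))))))))))))))))
 C328)))) Tr.c Tr.e (nat_lit 0) C.cx C.cy
noncomputable def C330 : Tr := beta% (fun (c : Nat → Tr → Tr → Tr) (e : Tr) (z : Nat) (a b : Nat → Nat) =>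
 (c (a (nat_lit 0x20202021))
 (c (a (nat_lit 0xa0b6304446))
 (c (a (nat_lit 0xa884ff28e2ce5))
 (c z e
 (c (a (nat_lit 0xcb3da687674567)) e
 (c z e
 (c (a (nat_lit 0x198162c5854807e7)) e e))))
 (c z e
 (c z e
 (c z e
 (c (a (nat_lit 0x16c363e828cc66)) e
 (c z e
 (c (a (nat_lit 0xacc1a13340666)) e
 (c z e
 (c z e
 (c z e
 (c (a (nat_lit 0x114e33b08da008)) e
 (c (a (nat_lit 0x1255bec0000006)) e e))))))))))))
 (c (a (nat_lit 0x454f10aa788)) e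
 (c (a (nat_lit 0x1950c460a0a7)) e
 (c (a (nat_lit 0x15eee0202064)) e
 (c (a (nat_lit 0x11606065c0a4))
 (c z e
 (c z e
 (c (b (nat_lit 0xea4a7cd929fe7)) e e)))
 (c z e
 (c z e
 (c z e
 (c z e
 (c (a (nat_lit 0x175af8719126)) e
 (c (a (nat_lit 0x1493f5d5ba68)) e
 (c (a (nat_lit 0x4024cb22d68)) e
 (c (a (nat_lit 0x3ebb78f2d66)) e
 (c z e
 (c z e
 (c (a (nat_lit 0x1066a2002327)) e
 (c (a (nat_lit 0x1a0780264005)) e
 (c (a (nat_lit 0x1220a0000001)) e e))))))))))))))))))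
 (c (a (nat_lit 0x20202021))
 (c z e
 (c (a (nat_lit 0x1bf2c7e02026))
 (c (a (nat_lit 0x185542428b2ba8))
 (c (a (nat_lit 0x1d1e95a848200008)) e e)
 (c z e
 (c z e
 (c z e
 (c z e
 (c z e
 (c (b (nat_lit 0x5093ff185a769)) e
 (c (b (nat_lit 0x1ffffff4c00007)) e e))))))))
 (c (a (nat_lit 0x19c020408085)) e
 (c z e
 (c z e
 (c z e
 (c z e
 (c (a (nat_lit 0x14560ac38306)) e
 (c (a (nat_lit 0x12c76ccc7866)) e
 (c z e
 (c z e
 (c z e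
 (c z e
 (c z e
 (c (a (nat_lit 0x13c52024a4a7)) e
 (c (a (nat_lit 0x1040e0800002)) e
 (c (a (nat_lit 0xc000000001)) e e)))))))))))))))))
 (c (a (nat_lit 0x40404041))
 (c (a (nat_lit 0x164040402084))
 (c (a (nat_lit 0x17a020450a0026))
 (c (a (nat_lit 0x19f3e72540000006)) e e)
 (c z e
 (c z e
 (c z e
 (c z e
 (c z e
 (c (a (nat_lit 0x9a3fdd0ef2008)) e
 (c (a (nat_lit 0x12f3e240000008)) e e))))))))
 (c z e
 (c z e
 (c z e
 (c z e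
 (c (a (nat_lit 0xb93f3028246)) e
 (c (a (nat_lit 0x13d332b29488)) e
 (c (a (nat_lit 0x9452e116e88)) e
 (c z e
 (c z e
 (c z e
 (c z e
 (c (a (nat_lit 0xc99a1402027)) e
 (c (a (nat_lit 0x198140202007)) e
 (c (a (nat_lit 0x134040000003)) e e)))))))))))))))
 (c (a (nat_lit 0x40404021))
 (c z e
 (c z e
 (c z e
 (c (a (nat_lit 0x4f2a4406047)) e
 (c z e
 (c z e
 (c z e
 (c z e
 (c z e
 (c z e
 (c z e
 (c (b (nat_lit 0x1ff1ffe3c027)) e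
 (c (a (nat_lit 0x11c020200007)) e
 (c (a (nat_lit 0xc000000001)) e e))))))))))))))
 (c (a (nat_lit 0x20202041))
 (c z e
 (c (b (nat_lit 0x1ff407c0a086))
 (c (b (nat_lit 0x1fee575fe28027)) e
 (c (b (nat_lit 0x11af1fe6800008)) e e))
 (c (a (nat_lit 0x17c8006031c6))
 (c (a (nat_lit 0x973b40000004)) e e)
 (c (b (nat_lit 0x16effffff866)) e
 (c z e
 (c z e
 (c z e
 (c z e
 (c z e
 (c z e
 (c (a (nat_lit 0x14e361c06002)) e
 (c (a (nat_lit 0x3e1e0000001)) e e))))))))))))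
 (c (a (nat_lit 0x20404021))
 (c (a (nat_lit 0x1727c0607645))
 (c (b (nat_lit 0xb83fe9402005)) e
 (c (a (nat_lit 0x1c90cbe0000006)) e e))
 (c (a (nat_lit 0x1088cada5746))
 (c (a (nat_lit 0x146a6000000006)) e e) e))
 (c (a (nat_lit 0x60404041))
 (c (a (nat_lit 0x96b4fd23006))
 (c (a (nat_lit 0x19400000000003)) e e)
 (c z e
 (c z e
 (c (a (nat_lit 0x15f4cee5c007)) e
 (c (a (nat_lit 0xe4fd26d4ce7)) e e)))))
 (c (a (nat_lit 0x60606041))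
 (c (a (nat_lit 0x1ebab9402c46)) e
 (c (a (nat_lit 0x13d2c1576d85)) e
 (c (a (nat_lit 0x18cffa700346)) e
 (c z e
 (c z e
 (c (a (nat_lit 0xb0d2812aa28)) e e))))))
 (c (a (nat_lit 0x60606081))
 (c (a (nat_lit 0x17ce6c8ac8c5)) e
 (c (a (nat_lit 0x1331ad52e346)) e e))
 (c (a (nat_lit 0x20202001))
 (c (a (nat_lit 0x1272b5242266)) e e)
 (c (a (nat_lit 0x1e05))
 (c z e
 (c z e
 (c (a (nat_lit 0x1067e0000007)) e e)))
 (c (a (nat_lit 0x203c2ac4))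
 (c (a (nat_lit 0x11c427400006)) e
 (c (a (nat_lit 0x1ee000000003)) e e))
 (c (a (nat_lit 0x3d95747c7)) e
 (c z e
 (c (a (nat_lit 0x1540602025)) e
 (c (a (nat_lit 0x540a0c0e1)) e
 (c (a (nat_lit 0x20a0a261)) e
 (c (a (nat_lit 0x3c0205344)) e
 (c (a (nat_lit 0x3b422c021)) e
 (c (a (nat_lit 0x13d392bd65)) e
 (c z e
 (c (a (nat_lit 0x1358b1d186)) e
 (c (a (nat_lit 0x1c20602004)) e
 (c (a (nat_lit 0x840000001)) e e))))))))))))))))))))))))) Tr.c Tr.e (nat_lit 0) C.cx C.cy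
noncomputable def C331 : Tr := beta% (fun (c : Nat → Tr → Tr → Tr) (e : Tr) (z : Nat) (a b : Nat → Nat) =>
 (c (a (nat_lit 0x20202021))
 (c (a (nat_lit 0x2040404021))
 (c (a (nat_lit 0x1c1b5b7cdb1866))
 (c (a (nat_lit 0x15761615f57875c7))
 (c z e
 (c (a (nat_lit 0xccdcb4aca0d15ed08)) e e))
 (c z e
 (c z e
 (c z e
 (c (a (nat_lit 0xdff78d58b503447)) e
 (c z e
 (c (a (nat_lit 0xcd74931cecef107)) e
 (c (a (nat_lit 0xc6e745134ac2007)) e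
 (c (a (nat_lit 0x9910fcb80000007)) e
 (c (a (nat_lit 0x1dcfe00000000006)) e e))))))))))
 (c z e
 (c z e
 (c z e
 (c z e
 (c z e
 (c (a (nat_lit 0x1233a120897cc4)) e
 (c (a (nat_lit 0xde5450a7233e5)) e
 (c (a (nat_lit 0x209eeb10ec505)) e
 (c (a (nat_lit 0x1336b8d9961d45)) e
 (c (a (nat_lit 0x195bfbdab5bf46)) e
 (c z e
 (c z e
 (c (a (nat_lit 0x64afee0800005)) e
 (c (a (nat_lit 0x140f4000000006)) e e)))))))))))))))
 (c (a (nat_lit 0x2020203088))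
 (c (a (nat_lit 0x50ba8202afd66))
 (c (a (nat_lit 0x10b1b03857193088))
 (c (a (nat_lit 0xa8bab1243a0000009)) e e) e)
 (c z e
 (c z e
 (c z e
 (c z e
 (c z e
 (c z e
 (c z e
 (c z e
 (c z e
 (c z e
 (c (a (nat_lit 0x30a1862e50006)) e
 (c (a (nat_lit 0xf564f00000006)) e e)))))))))))))
 (c (a (nat_lit 0x20203085a8)) e
 (c (a (nat_lit 0x203ff6cd67)) e
 (c (a (nat_lit 0x30eb878288)) e
 (c z e
 (c (a (nat_lit 0x169240404005))
 (c z e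
 (c z e
 (c z e
 (c z e
 (c (a (nat_lit 0x2b0c360c00009)) e e)))))
 (c (b (nat_lit 0x156b4b4bffe5))
 (c (a (nat_lit 0x11b16b902282c7)) e
 (c z e
 (c z e
 (c (a (nat_lit 0x166ea620000008)) e e))))
 (c (a (nat_lit 0x1cbc8e0d9964))
 (c z e
 (c (b (nat_lit 0x1ff29d0b200007)) e
 (c (a (nat_lit 0x1529a000000008)) e e)))
 (c (a (nat_lit 0x1b57b8dadbc6))
 (c (a (nat_lit 0x1c72a780000007)) e
 (c (a (nat_lit 0x11600000000007)) e e))
 (c (a (nat_lit 0x13919417f967)) e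
 (c z e
 (c z e
 (c (a (nat_lit 0x14bb68ca5845)) e
 (c (a (nat_lit 0x120daeaf4c85)) e
 (c z e
 (c (a (nat_lit 0x1d79c58180e2)) e
 (c (a (nat_lit 0x13a3e0c06002)) e
 (c (a (nat_lit 0x98382a0a001)) e
 (c (a (nat_lit 0x4c340000001)) e e))))))))))))))))))))
 (c (a (nat_lit 0x40404041))
 (c (a (nat_lit 0x20203fce47))
 (c (b (nat_lit 0x86505b11feb06))
 (c (a (nat_lit 0xb26cf33b54831e7)) e e)
 (c z e
 (c z e
 (c z e
 (c z e
 (c z e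
 (c z e
 (c z e
 (c z e
 (c z e
 (c z e
 (c (a (nat_lit 0x21b097e00007)) e
 (c (a (nat_lit 0x1b7ec000000006)) e e)))))))))))))
 (c (a (nat_lit 0x2036ed8809)) e
 (c z e
 (c (a (nat_lit 0x1b4f65c02028)) e
 (c (a (nat_lit 0x18ada02020e6)) e
 (c (a (nat_lit 0x740c1106047)) e
 (c z e
 (c z e
 (c z e
 (c z e
 (c z e
 (c (a (nat_lit 0x5a5e8aa96e8)) e
 (c (a (nat_lit 0x422e4b08de8)) e
 (c z e
 (c z e
 (c (a (nat_lit 0x199969a04005)) e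
 (c (a (nat_lit 0x1b0c80406005)) e
 (c (a (nat_lit 0x19c0c1000004)) e
 (c (nat_lit 1) e e)))))))))))))))))))
 (c (a (nat_lit 0x40402021))
 (c (a (nat_lit 0x36ec89a348)) e
 (c z e
 (c (a (nat_lit 0x1e3b87c02066)) e
 (c (a (nat_lit 0x15002022e026)) e
 (c z e
 (c z e
 (c z e
 (c z e
 (c z e
 (c z e
 (c z e
 (c z e
 (c z e
 (c z e
 (c (b (nat_lit 0x99b927fe027)) e
 (c (a (nat_lit 0x1b9260202007)) e
 (c (a (nat_lit 0x126020000007)) e e)))))))))))))))))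
 (c (a (nat_lit 0x40406061))
 (c (a (nat_lit 0x195000202045))
 (c (a (nat_lit 0x91c65c74a4026))
 (c (a (nat_lit 0xf71672a23e00007)) e e)
 (c z e
 (c z e
 (c z e
 (c z e
 (c z e
 (c z e
 (c (a (nat_lit 0x318cc3c00009)) e e))))))))
 (c z e
 (c z e
 (c z e
 (c z e
 (c z e
 (c (a (nat_lit 0xa73566322e6)) e
 (c (a (nat_lit 0x9eab3b3b7e8)) e
 (c z e
 (c z e
 (c z e
 (c z e
 (c z e
 (c (b (nat_lit 0x1ff7bfe16027)) e
 (c (a (nat_lit 0x17a040200007)) e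
 (c (a (nat_lit 0x9a000000001)) e e))))))))))))))))
 (c (a (nat_lit 0x20202021))
 (c z e
 (c z e
 (c z e
 (c z e
 (c z e
 (c z e
 (c z e
 (c z e
 (c z e
 (c z e
 (c z e
 (c z e
 (c (b (nat_lit 0x1fe878002006)) e
 (c (a (nat_lit 0x102c00000007)) e e))))))))))))))
 (c (a (nat_lit 0x20202021))
 (c (a (nat_lit 0x84666765246))
 (c (b (nat_lit 0x747e1f25fe646)) e e)
 (c z e
 (c z e
 (c z e
 (c z e
 (c z e
 (c z e
 (c (a (nat_lit 0x68262718145)) e e))))))))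
 (c (a (nat_lit 0x40404041))
 (c (b (nat_lit 0x1ff72da38385))
 (c (b (nat_lit 0x20519fe6c026)) e
 (c (b (nat_lit 0xcb3bfe8c00007)) e e))
 (c (a (nat_lit 0x10ea6acaec87))
 (c (a (nat_lit 0x12ceada0000006)) e e)
 (c z e
 (c z e
 (c (a (nat_lit 0x14dd9c712026)) e e)))))
 (c (a (nat_lit 0x20404041))
 (c (a (nat_lit 0x10b2f2f08e06))
 (c (a (nat_lit 0x1148c000000005)) e e)
 (c z e
 (c (a (nat_lit 0x10bc1d440006)) e
 (c (a (nat_lit 0x17f79725c006)) e e))))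
 (c (a (nat_lit 0x40404041))
 (c (b (nat_lit 0xf5ffd2b2a46)) e
 (c (a (nat_lit 0x76760f0c5)) e
 (c (a (nat_lit 0x157553b56de7)) e e)))
 (c (a (nat_lit 0x20202001))
 (c (a (nat_lit 0x11510d804605)) e
 (c (a (nat_lit 0x1a8f682ac006)) e e))
 (c (a (nat_lit 0x40404041))
 (c (a (nat_lit 0x11f2130d4165)) e e)
 (c (a (nat_lit 0x40404041))
 (c z e
 (c z e
 (c (a (nat_lit 0x1d2d20200006)) e
 (c (a (nat_lit 0x2000000001)) e e))))
 (c (a (nat_lit 0x2026c1))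
 (c (a (nat_lit 0xb4b33002006)) e
 (c (a (nat_lit 0xa420000001)) e e))
 (c (a (nat_lit 0x12b2b9b9e7))
 (c (a (nat_lit 0x12a000000006)) e e)
 (c (a (nat_lit 0x4b2526687)) e
 (c z e
 (c (a (nat_lit 0x1f8a202025)) e
 (c (a (nat_lit 0x14002020c4)) e
 (c (a (nat_lit 0xa380c1)) e
 (c (a (nat_lit 0x605943)) e
 (c (a (nat_lit 0x1e80408023)) e
 (c (b (nat_lit 0x407ffd25)) e
 (c z e
 (c (b (nat_lit 0x1ff2c02025)) e
 (c (a (nat_lit 0x12c0200005)) e e)))))))))))))))))))))))))) Tr.c Tr.e (nat_lit 0) C.cx C.cy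
noncomputable def C332 : Tr := beta% (fun (c : Nat → Tr → Tr → Tr) (e : Tr) (z : Nat) (a b : Nat → Nat) =>
 (c (a (nat_lit 0x40404021))
 (c (a (nat_lit 0x2020404021))
 (c (a (nat_lit 0x192eaeac740bc6))
 (c (a (nat_lit 0xeaeaff0af317aa7))
 (c (a (nat_lit 0xa49eb6b2866ad3868)) e e)
 (c z e
 (c z e
 (c z e
 (c z e
 (c z e
 (c z e
 (c z e
 (c (a (nat_lit 0x33bf5d3da400007)) e
 (c (a (nat_lit 0x1206844000000007)) e e))))))))))
 (c z e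
 (c z e
 (c z e
 (c z e
 (c z e
 (c z e
 (c (a (nat_lit 0x11f9f24123e2e7)) e
 (c (a (nat_lit 0x1af56c27a9ca27)) e
 (c (a (nat_lit 0x170dca89ab05e7)) e
 (c (a (nat_lit 0x16af4f344e04a7)) e e)))))))))))
 (c (a (nat_lit 0x6060808061)) e
 (c (a (nat_lit 0x2020203aa8)) e
 (c (a (nat_lit 0x20203b0aa8)) e
 (c (a (nat_lit 0x20310ac849)) e
 (c z e
 (c (a (nat_lit 0x142f0b002028)) e
 (c (a (nat_lit 0x191165c5c166)) e
 (c (a (nat_lit 0x106484806006))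
 (c z e
 (c (b (nat_lit 0x1e5fffe9c30008)) e
 (c (a (nat_lit 0x252e360000008)) e e)))
 (c (a (nat_lit 0x1414101010e6))
 (c (a (nat_lit 0x1f65367200007)) e
 (c (a (nat_lit 0x1ac94000000007)) e e))
 (c (a (nat_lit 0x3e686883707))
 (c (a (nat_lit 0xa00000000001)) e e)
 (c z e
 (c z e
 (c z e
 (c z e
 (c z e
 (c z e
 (c (a (nat_lit 0xd914b44e208)) e
 (c (a (nat_lit 0x1e7605e02027)) e
 (c (a (nat_lit 0x1605e0200007)) e
 (c (a (nat_lit 0x172000000005)) e e)))))))))))))))))))))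
 (c (a (nat_lit 0x60406061))
 (c (a (nat_lit 0x2020203a27))
 (c z e
 (c z e
 (c z e
 (c z e
 (c z e
 (c z e
 (c z e
 (c z e
 (c z e
 (c z e
 (c z e
 (c z e
 (c (a (nat_lit 0x3fc2300000004)) e e)))))))))))))
 (c (a (nat_lit 0x20203d8fa8)) e
 (c (a (nat_lit 0x2033698629)) e
 (c z e
 (c (a (nat_lit 0x144d05e02008)) e
 (c (a (nat_lit 0x1e7d00202045)) e
 (c (a (nat_lit 0x1a8060bba004)) e
 (c z e
 (c z e
 (c z e
 (c z e
 (c z e
 (c z e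
 (c z e
 (c z e
 (c z e
 (c z e
 (c (a (nat_lit 0x14af40202006)) e
 (c (a (nat_lit 0x1ea040000005)) e e)))))))))))))))))))
 (c (a (nat_lit 0x20202021))
 (c (a (nat_lit 0x374f4ea8)) e
 (c z e
 (c (a (nat_lit 0x1b6f0ea20008)) e
 (c (a (nat_lit 0x12cf04002127)) e
 (c (b (nat_lit 0x15e04046ffe6)) e
 (c z e
 (c z e
 (c z e
 (c z e
 (c z e
 (c z e
 (c z e
 (c z e
 (c z e
 (c z e
 (c (b (nat_lit 0x1ff4ffe02027)) e
 (c (a (nat_lit 0x14e020200007)) e e)))))))))))))))))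
 (c (a (nat_lit 0x20202021))
 (c (a (nat_lit 0x1289eb010107)) e
 (c (a (nat_lit 0x11b5e0202046)) e
 (c (a (nat_lit 0x17002022e026)) e
 (c z e
 (c z e
 (c z e
 (c z e
 (c z e
 (c z e
 (c z e
 (c z e
 (c z e
 (c z e
 (c z e
 (c (b (nat_lit 0x1ffb80202007)) e
 (c (a (nat_lit 0x1b8020000007)) e e))))))))))))))))
 (c (a (nat_lit 0x40404041))
 (c (a (nat_lit 0x9403f1f3f06)) e
 (c z e
 (c z e
 (c z e
 (c z e
 (c z e
 (c z e
 (c z e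
 (c z e
 (c (a (nat_lit 0x94a00205107)) e e))))))))))
 (c (a (nat_lit 0x60606061))
 (c (a (nat_lit 0x383838390a7))
 (c (a (nat_lit 0xcc430a680adc6)) e e)
 (c z e
 (c z e
 (c z e
 (c z e
 (c z e
 (c z e
 (c (b (nat_lit 0x13f640a37fe6)) e
 (c (b (nat_lit 0x17e2653fe4c6)) e e)))))))))
 (c (a (nat_lit 0x20202021))
 (c z e
 (c z e
 (c z e
 (c z e
 (c z e
 (c z e
 (c z e
 (c (b (nat_lit 0x1fef87b7c1a3)) e
 (c (a (nat_lit 0x7c9aaa83ac7)) e e)))))))))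
 (c (a (nat_lit 0x40404041))
 (c z e
 (c z e
 (c (a (nat_lit 0x1dd8b3a02187)) e
 (c (b (nat_lit 0x1bbe2b03bfe6)) e
 (c z e
 (c z e
 (c (a (nat_lit 0x50525859226)) e
 (c (a (nat_lit 0x7a70709b048)) e e))))))))
 (c (a (nat_lit 0x40606041))
 (c (a (nat_lit 0x14522ea02387)) e
 (c (a (nat_lit 0x810e7674427)) e
 (c (a (nat_lit 0x15ac4c41e987)) e e)))
 (c (a (nat_lit 0x20202021))
 (c (a (nat_lit 0x1248a8c04026)) e
 (c (a (nat_lit 0x16fa29c9a105)) e e))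
 (c (a (nat_lit 0x40202021))
 (c (a (nat_lit 0x103030354e06)) e e)
 (c (a (nat_lit 0x202001))
 (c z e
 (c z e
 (c (a (nat_lit 0xe51e0204007)) e
 (c (a (nat_lit 0x1f0040000003)) e e))))
 (c (a (nat_lit 0x40c1))
 (c (a (nat_lit 0x4a533415ba7)) e
 (c (a (nat_lit 0x172140a00002)) e
 (c (nat_lit 1) e e)))
 (c (a (nat_lit 0x202030c6))
 (c (a (nat_lit 0x2020000001)) e e)
 (c (a (nat_lit 0x2030cb46)) e
 (c z e
 (c z e
 (c (a (nat_lit 0x1667402025)) e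
 (c (a (nat_lit 0x1ce04020a3)) e
 (c (a (nat_lit 0x224001)) e
 (c (a (nat_lit 0x122418081)) e
 (c (a (nat_lit 0x40203506)) e e))))))))))))))))))))))) Tr.c Tr.e (nat_lit 0) C.cx C.cy
noncomputable def C333 : Tr := beta% (fun (c : Nat → Tr → Tr → Tr) (e : Tr) (z : Nat) (a b : Nat → Nat) =>
 (c (a (nat_lit 0x202021))
 (c (a (nat_lit 0x20202021))
 (c (a (nat_lit 0x2020202021))
 (c (a (nat_lit 0x12124929242444))
 (c z e
 (c (a (nat_lit 0x7c8ee4c2acab1c6))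
 (c (a (nat_lit 0x10b30b48268a234e28)) e e)
 (c z e
 (c z e
 (c z e
 (c z e
 (c (a (nat_lit 0x8eb303092ba4b46)) e
 (c z e
 (c z e
 (c (a (nat_lit 0xa72b1b8d3ac0d06)) e
 (c (a (nat_lit 0x86e9d0e4c262006)) e
 (c (a (nat_lit 0x16e8338f20000004)) e e))))))))))))
 (c (a (nat_lit 0x1991b1aa8a84e6))
 (c (a (nat_lit 0x14d9d713535bb6e6))
 (c (a (nat_lit 0x192fc9c74da38ccc68)) e
 (c (a (nat_lit 0x7a223c58140e115a9)) e e))
 (c z e
 (c z e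
 (c z e
 (c z e
 (c z e
 (c z e
 (c z e
 (c (a (nat_lit 0xdb2d0adeb668b68)) e
 (c (a (nat_lit 0x11d6c64822800008)) e
 (c (a (nat_lit 0x1085c20000000008)) e e)))))))))))
 (c (a (nat_lit 0x13332e2e46f7c6)) e
 (c z e
 (c z e
 (c z e
 (c z e
 (c z e
 (c (a (nat_lit 0x11caad2c002026)) e
 (c (a (nat_lit 0x1174b5e3a38606)) e
 (c (a (nat_lit 0x153523e368c865)) e
 (c (a (nat_lit 0x12ee4e47a7aec6)) e e))))))))))))
 (c (a (nat_lit 0x4040404021))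
 (c (b (nat_lit 0x161608687ff5a6))
 (c (a (nat_lit 0x889e8a8ab07b367))
 (c (a (nat_lit 0xc86e4cb25c542fb08)) e e)
 (c z e
 (c z e
 (c z e
 (c z e
 (c (a (nat_lit 0x627aa5078e9e389)) e
 (c z e
 (c z e
 (c (a (nat_lit 0x174c4f4da831c008)) e
 (c (a (nat_lit 0x15e785c0a0000008)) e
 (c (a (nat_lit 0x1be0200000000007)) e e)))))))))))
 (c z e
 (c z e
 (c z e
 (c z e
 (c z e
 (c z e
 (c (a (nat_lit 0xad59c2de02247)) e
 (c (a (nat_lit 0xbf02be1a1e308)) e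
 (c (a (nat_lit 0x1ab5c8e2a221a7)) e
 (c (a (nat_lit 0x106a88276a24c8)) e e)))))))))))
 (c (a (nat_lit 0x4040202021)) e
 (c (a (nat_lit 0x2020202021)) e
 (c (a (nat_lit 0x20202033e7)) e
 (c (a (nat_lit 0x202033c9a7)) e
 (c (a (nat_lit 0x15abab07)) e
 (c z e
 (c (a (nat_lit 0x1fae4a402006)) e
 (c (a (nat_lit 0x120d80202025))
 (c z e
 (c (a (nat_lit 0x4f1f810a10088)) e
 (c (a (nat_lit 0x78e1ca1e00007)) e e)))
 (c (a (nat_lit 0x1d802040a0a4))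
 (c (a (nat_lit 0x10382cc2e02007)) e
 (c (a (nat_lit 0x1b2748e0000007)) e e))
 (c (a (nat_lit 0x7879999b144))
 (c (a (nat_lit 0x126e6000000005)) e e)
 (c z e
 (c z e
 (c z e
 (c z e
 (c z e
 (c z e
 (c (a (nat_lit 0x12d1f3002006)) e
 (c (a (nat_lit 0x11d300202006)) e
 (c (a (nat_lit 0x130020202006)) e
 (c (a (nat_lit 0x6040000001)) e e))))))))))))))))))))))
 C332)
 (c (a (nat_lit 0x202021)) C331
 (c (a (nat_lit 0x202021)) C330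
 (c (a (nat_lit 0x202021))
 (c (a (nat_lit 0x20202021))
 (c (a (nat_lit 0x17544e66c6c5))
 (c (a (nat_lit 0x135dc763a2b8c4))
 (c z e
 (c (a (nat_lit 0xa158c2e4cee2007)) e e))
 (c (a (nat_lit 0x1529a1002bb127))
 (c (a (nat_lit 0x1492ae6a68600008)) e e)
 (c z e
 (c z e
 (c z e
 (c z e
 (c z e
 (c (b (nat_lit 0x1ff0db96c845a6)) e
 (c (a (nat_lit 0x2b13c2800007)) e e)))))))))
 (c (a (nat_lit 0x11a020202025))
 (c (a (nat_lit 0x1181abaf9b9467))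
 (c (a (nat_lit 0x16ac26e4a0000008)) e e)
 (c z e
 (c z e
 (c z e
 (c z e
 (c (b (nat_lit 0x151ffffff2e6e6)) e
 (c (b (nat_lit 0x3b5fff684c006)) e
 (c (a (nat_lit 0x1170a7c0000008)) e e))))))))
 (c z e
 (c z e
 (c z e
 (c z e
 (c (a (nat_lit 0x15b2022201e5)) e
 (c (a (nat_lit 0x17258aeaa545)) e
 (c (a (nat_lit 0x1cfcfcbca764)) e
 (c z e
 (c z e
 (c z e
 (c (a (nat_lit 0xbd14945a106)) e
 (c (a (nat_lit 0x10e8c5202a86)) e
 (c (a (nat_lit 0x116a002a8005)) e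
 (c (a (nat_lit 0xe0000001)) e e))))))))))))))))
 (c (a (nat_lit 0x20202021))
 (c (a (nat_lit 0x1bfbfbfc1645))
 (c (a (nat_lit 0x12a8f7dd8e706))
 (c (a (nat_lit 0x1267e52000000006)) e e)
 (c z e
 (c z e
 (c z e
 (c z e
 (c (b (nat_lit 0x63ffff123e208)) e
 (c (a (nat_lit 0x1ce49dc4600007)) e
 (c (a (nat_lit 0x1429a000000008)) e e))))))))
 (c z e
 (c z e
 (c z e
 (c z e
 (c (a (nat_lit 0x190ff5956ea6)) e
 (c (a (nat_lit 0x158c0be6aac6)) e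
 (c (a (nat_lit 0x6c6b09215a8)) e
 (c z e
 (c z e
 (c z e
 (c (a (nat_lit 0x1df5e5a02a67)) e
 (c (a (nat_lit 0x15e5a02a6a67)) e
 (c (b (nat_lit 0x1fe0c1200001)) e
 (c (a (nat_lit 0x2000000001)) e e)))))))))))))))
 (c (a (nat_lit 0x40404041))
 (c z e
 (c z e
 (c z e
 (c (a (nat_lit 0x124128e86847))
 (c (a (nat_lit 0x3851a0000005)) e e)
 (c z e
 (c z e
 (c z e
 (c z e
 (c z e
 (c z e
 (c (a (nat_lit 0xe1043e02127)) e
 (c (a (nat_lit 0x1144e2020007)) e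
 (c (a (nat_lit 0x166040000004)) e e)))))))))))))
 (c (a (nat_lit 0x60606061))
 (c (b (nat_lit 0x1ff1a20222e5))
 (c z e
 (c (b (nat_lit 0x1ffffffff22023)) e e))
 (c (a (nat_lit 0x12e080404006))
 (c (b (nat_lit 0x104fff800a004)) e
 (c (b (nat_lit 0x1ff06b00000007)) e e))
 (c (b (nat_lit 0x1230b0ffe0a5))
 (c (a (nat_lit 0x1d876000000005)) e e)
 (c z e
 (c z e
 (c z e
 (c z e
 (c z e
 (c z e
 (c (a (nat_lit 0x55b8605c5a6)) e
 (c (a (nat_lit 0x1d0760200006)) e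
 (c (a (nat_lit 0xaa000000001)) e e))))))))))))
 (c (a (nat_lit 0x20202041))
 (c (a (nat_lit 0xdc5a7a1c1e1))
 (c (a (nat_lit 0x1300ae60400005)) e
 (c (a (nat_lit 0x178d2000000006)) e e))
 (c (a (nat_lit 0x1b9b8288f845))
 (c (a (nat_lit 0x15000000000004)) e e)
 (c z e
 (c z e
 (c (a (nat_lit 0xfd0d14ae007)) e
 (c (a (nat_lit 0x96a389026c8)) e
 (c z e
 (c z e
 (c (a (nat_lit 0x96e30a70007)) e
 (c (a (nat_lit 0x1b1020000006)) e e))))))))))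
 (c (a (nat_lit 0x606060a1))
 (c (a (nat_lit 0x5c7cd303f04)) e
 (c z e
 (c z e
 (c (b (nat_lit 0x11d4d3407fe7)) e e))))
 (c (a (nat_lit 0x20402001))
 (c (b (nat_lit 0xe7ff1b16e06)) e
 (c (a (nat_lit 0x4672f50a2e7)) e
 (c (a (nat_lit 0xff7974d8ae7)) e e)))
 (c (a (nat_lit 0x40204041))
 (c (a (nat_lit 0x112fda606005)) e
 (c (a (nat_lit 0x13af48c4ed47)) e e))
 (c (a (nat_lit 0x20203de6))
 (c (a (nat_lit 0x76864003687)) e e)
 (c (a (nat_lit 0x203df7a5)) e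
 (c (a (nat_lit 0x8f9b9f4e7))
 (c (a (nat_lit 0x1f2b60000006)) e e)
 (c z e
 (c (a (nat_lit 0x13aeab4767)) e
 (c (a (nat_lit 0x1b40202024)) e
 (c (a (nat_lit 0xa120c0e1)) e
 (c (a (nat_lit 0x1020608002)) e
 (c (a (nat_lit 0x2c280c8a1)) e
 (c z e
 (c z e
 (c (b (nat_lit 0x1b9fe04001)) e
 (c (a (nat_lit 0x10200a021)) e
 (c (a (nat_lit 0x241000001)) e e))))))))))))))))))))))
 C329))))) Tr.c Tr.e (nat_lit 0) C.cx C.cy
noncomputable def C334 : Tr := beta% (fun (c : Nat → Tr → Tr → Tr) (e : Tr) (z : Nat) (a b : Nat → Nat) =>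
 (c (a (nat_lit 0x20404021))
 (c (a (nat_lit 0x2040404021))
 (c (a (nat_lit 0x16968525270925))
 (c (a (nat_lit 0xa6f71d671f7b426)) e
 (c z e
 (c z e
 (c z e
 (c z e
 (c z e
 (c z e
 (c z e
 (c z e
 (c (a (nat_lit 0xc407143c0000007)) e
 (c (a (nat_lit 0x11e7000000000007)) e e)))))))))))
 (c z e
 (c z e
 (c z e
 (c z e
 (c z e
 (c z e
 (c z e
 (c z e
 (c (a (nat_lit 0x3f466a9ec0787)) e
 (c (a (nat_lit 0x16af512fac2808)) e e)))))))))))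
 (c (a (nat_lit 0x4080606021)) e
 (c (a (nat_lit 0x4060604021)) e
 (c (a (nat_lit 0x2020203c28)) e
 (c (a (nat_lit 0x203beae8)) e
 (c (a (nat_lit 0x3e95d088)) e
 (c (a (nat_lit 0x3993ae0268)) e
 (c (a (nat_lit 0x18d16b202008)) e
 (c (a (nat_lit 0x176e802020c6)) e
 (c (a (nat_lit 0x1f6060218125))
 (c (b (nat_lit 0x187fffe8012008)) e
 (c (b (nat_lit 0x10bfecc0000008)) e e))
 (c (a (nat_lit 0x10125855047))
 (c (a (nat_lit 0x33e000000001)) e e)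
 (c z e
 (c z e
 (c z e
 (c z e
 (c z e
 (c z e
 (c z e
 (c z e
 (c (a (nat_lit 0x65941a18007)) e
 (c (a (nat_lit 0x17e020000007)) e e)))))))))))))))))))))
 (c (a (nat_lit 0x20202021))
 (c (a (nat_lit 0x2060402021)) e
 (c (a (nat_lit 0x2020203b48)) e
 (c (a (nat_lit 0x20203f10a8)) e
 (c (a (nat_lit 0x20380d09a9)) e
 (c z e
 (c (a (nat_lit 0x1851ebe12048)) e
 (c (a (nat_lit 0x154ce3c02026)) e
 (c (a (nat_lit 0x12604040a005)) e e))))))))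
 (c (a (nat_lit 0x20202021))
 (c (a (nat_lit 0x201b5207)) e
 (c (a (nat_lit 0x2034cf0e29)) e
 (c (a (nat_lit 0x354aeae429)) e
 (c (a (nat_lit 0x16902de20008)) e
 (c (a (nat_lit 0x10d004002027))
 (c (a (nat_lit 0x36338e214025)) e e)
 (c (b (nat_lit 0x1161212bbfe6)) e
 (c z e
 (c z e
 (c z e
 (c z e
 (c z e
 (c z e
 (c (a (nat_lit 0x16a7e7e07cc6)) e
 (c z e
 (c z e
 (c z e
 (c (a (nat_lit 0x11cc0402005)) e
 (c (a (nat_lit 0x1cc020000005)) e e))))))))))))))))))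
 (c (a (nat_lit 0x40404041))
 (c z e
 (c z e
 (c (a (nat_lit 0x110ce0202007)) e
 (c (a (nat_lit 0x18402024a006)) e e))))
 (c (nat_lit 1)
 (c (a (nat_lit 0x113ec0202065)) e
 (c (a (nat_lit 0x1a802022e046))
 (c (a (nat_lit 0x1489028c4947e6)) e e)
 (c (a (nat_lit 0x72e4c8a9446))
 (c (a (nat_lit 0x92626b3888048)) e e)
 (c z e
 (c z e
 (c z e
 (c z e
 (c z e
 (c z e
 (c (a (nat_lit 0x108a20208165)) e
 (c (b (nat_lit 0x14004102ffe4)) e e)))))))))))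
 (c (a (nat_lit 0x40404041))
 (c (a (nat_lit 0x101212133c5))
 (c (a (nat_lit 0x3c852e5f1ac24)) e
 (c (a (nat_lit 0x409c4cd073a27)) e e))
 (c (a (nat_lit 0x80923b66))
 (c (a (nat_lit 0xf09984fbed3e7)) e e)
 (c z e
 (c z e
 (c z e
 (c z e
 (c z e
 (c (a (nat_lit 0x1615816166e4)) e
 (c (a (nat_lit 0x144060879244)) e
 (c (a (nat_lit 0x4b0ef874105)) e
 (c (b (nat_lit 0x8241dffde6)) e e)))))))))))
 (c (a (nat_lit 0x80606081))
 (c (a (nat_lit 0xc6c717778e6))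
 (c (a (nat_lit 0xebfb82b9a4b06)) e e)
 (c z e
 (c z e
 (c z e
 (c z e
 (c z e
 (c (a (nat_lit 0x1c3757922286)) e
 (c (a (nat_lit 0x12523001c044)) e
 (c (a (nat_lit 0xf6f4f6f50c5)) e
 (c (a (nat_lit 0x28100e552c7)) e e))))))))))
 (c (a (nat_lit 0x20202021))
 (c z e
 (c z e
 (c z e
 (c z e
 (c z e
 (c z e
 (c (a (nat_lit 0x80808009966)) e
 (c (a (nat_lit 0xeaa8a9baee6)) e e))))))))
 (c (a (nat_lit 0x402021)) e
 (c (a (nat_lit 0x20000001))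
 (c (a (nat_lit 0x179858cda585)) e
 (c (a (nat_lit 0x120e09e9c007)) e
 (c z e
 (c z e
 (c z e
 (c z e
 (c (a (nat_lit 0xe98a8600003)) e
 (c (a (nat_lit 0x136000000003)) e e))))))))
 (c (a (nat_lit 0x60402021))
 (c (a (nat_lit 0x1453f4044b46)) e
 (c z e
 (c z e
 (c z e
 (c (a (nat_lit 0xff1c0602007)) e
 (c (a (nat_lit 0x700000001)) e e))))))
 (c (a (nat_lit 0x2061))
 (c z e
 (c z e
 (c (a (nat_lit 0x46b709fe07)) e
 (c (a (nat_lit 0x242600001)) e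
 (c (nat_lit 1) e e)))))
 (c (a (nat_lit 0x40202021))
 (c (a (nat_lit 0x363690830a7)) e
 (c (a (nat_lit 0x1e221a001)) e
 (c (a (nat_lit 0x40000001)) e e)))
 (c (a (nat_lit 0x40404041))
 (c (a (nat_lit 0x4060200001)) e
 (c (a (nat_lit 0x4000000001)) e e))
 (c (a (nat_lit 0x20203426)) e
 (c (a (nat_lit 0x142dc6)) e
 (c (a (nat_lit 0x7924f2bc7)) e
 (c z e
 (c (a (nat_lit 0x1b6a202005)) e
 (c (a (nat_lit 0x1420202044)) e
 (c (a (nat_lit 0x616201)) e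
 (c (a (nat_lit 0x202032c6)) e
 (c (a (nat_lit 0x32c046)) e e)))))))))))))))))))))))) Tr.c Tr.e (nat_lit 0) C.cx C.cy
noncomputable def C335 : Tr := beta% (fun (c : Nat → Tr → Tr → Tr) (e : Tr) (z : Nat) (a b : Nat → Nat) =>
 (c (a (nat_lit 0x20202021))
 (c (a (nat_lit 0x20202001))
 (c (a (nat_lit 0x4040514f8fc5))
 (c (a (nat_lit 0x9696b4db7eb8ba4)) e
 (c z e
 (c z e
 (c z e
 (c (a (nat_lit 0x1182e040b57de4e4))
 (c (a (nat_lit 0x1b764fade288279347)) e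
 (c z e
 (c (a (nat_lit 0x172aa46122aae8c0c8)) e e)))
 (c (a (nat_lit 0x4210042878511e6)) e
 (c (a (nat_lit 0xd6a2bb033aa11c4)) e
 (c z e
 (c (a (nat_lit 0x66c2c318bd211c5)) e
 (c (a (nat_lit 0xc4af0923b130ae5)) e
 (c z e
 (c z e
 (c (a (nat_lit 0x8ad4f59137c0025)) e
 (c (b (nat_lit 0x4c466b4427fe007)) e
 (c (a (nat_lit 0x707075260000007)) e e)))))))))))))))
 (c (a (nat_lit 0x203cfd3dea66)) e
 (c (a (nat_lit 0x176771606c587)) e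
 (c (a (nat_lit 0x1393d1e4e2a027)) e
 (c (a (nat_lit 0x19b92d092400a6))
 (c z e
 (c z e
 (c z e
 (c z e
 (c (a (nat_lit 0x1c4e3e7709542a8)) e e)))))
 (c (a (nat_lit 0x18ec8c88a76b26))
 (c z e
 (c z e
 (c z e
 (c (a (nat_lit 0x422c1cb73c78e88)) e e))))
 (c (a (nat_lit 0x117b88c91ffe84))
 (c z e
 (c (a (nat_lit 0xc107148f399a528)) e
 (c (a (nat_lit 0x8074390ae024129)) e e)))
 (c (a (nat_lit 0x6e1e210ce1385))
 (c (a (nat_lit 0x1877fbbac7c59505)) e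
 (c (a (nat_lit 0x4a71f67ed04e2e7)) e e))
 (c (a (nat_lit 0x1818827b0c8c6))
 (c (a (nat_lit 0x45e6d0a852463c7)) e e)
 (c z e
 (c z e
 (c z e
 (c z e
 (c z e
 (c (a (nat_lit 0x14b373940f8c47)) e
 (c (a (nat_lit 0x6121c1cdb1e4)) e
 (c (a (nat_lit 0x1ed4d6fd41ae4)) e
 (c (a (nat_lit 0xf2f50d2d66bc5)) e e))))))))))))))))))
 (c (a (nat_lit 0x2040200001))
 (c z e
 (c (a (nat_lit 0x1eba9885044028)) e
 (c (a (nat_lit 0x19184ac7a02027)) e e)))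
 (c (a (nat_lit 0x20202001))
 (c (b (nat_lit 0x102e81803fffe6)) e e)
 (c (a (nat_lit 0x2040202021)) e
 (c (nat_lit 1) e
 (c (a (nat_lit 0x2020202021))
 (c z e
 (c z e
 (c z e
 (c z e
 (c z e
 (c z e
 (c z e
 (c z e
 (c z e
 (c z e
 (c z e
 (c (a (nat_lit 0x1e204020000004)) e e))))))))))))
 (c (a (nat_lit 0x202021))
 (c z e
 (c z e
 (c z e
 (c z e
 (c z e
 (c z e
 (c z e
 (c z e
 (c z e
 (c (a (nat_lit 0xccfb365400008)) e
 (c (a (nat_lit 0x18ae2000000008)) e e)))))))))))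
 (c (a (nat_lit 0x32a7))
 (c (a (nat_lit 0x9e034b8d21084))
 (c z e
 (c (a (nat_lit 0xdf5200000000006)) e e))
 (c (b (nat_lit 0xd1719381ff025)) e
 (c z e
 (c z e
 (c z e
 (c z e
 (c z e
 (c z e
 (c (a (nat_lit 0x10f62bc0000006)) e
 (c (a (nat_lit 0x14800000000005)) e e))))))))))
 (c (a (nat_lit 0x201b4f86))
 (c (a (nat_lit 0xbcbcbc9c27406)) e
 (c z e
 (c z e
 (c z e
 (c z e
 (c (a (nat_lit 0x586e33f22c0a8)) e
 (c (a (nat_lit 0x74527b0000009)) e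
 (c (a (nat_lit 0x1f5e6000000003)) e e))))))))
 (c (a (nat_lit 0x112bca27)) e
 (c (a (nat_lit 0xf36b2a6207)) e
 (c (a (nat_lit 0x1c39142441a6)) e
 (c (a (nat_lit 0x122f02c02026))
 (c (a (nat_lit 0x8c7764a800008)) e e)
 (c (a (nat_lit 0x17c020204065)) e
 (c (a (nat_lit 0x117174141ce7)) e
 (c (a (nat_lit 0x2802050a626)) e
 (c (a (nat_lit 0x4050e69426)) e
 (c z e
 (c z e
 (c z e
 (c z e
 (c (a (nat_lit 0x1a95202022e4)) e
 (c (a (nat_lit 0x14c040434004)) e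
 (c (a (nat_lit 0x10040000001)) e e))))))))))))))))))))))))
 (c (a (nat_lit 0x20200001))
 (c (a (nat_lit 0x2040402021))
 (c (a (nat_lit 0x1dd41426464146))
 (c (a (nat_lit 0x18072ccc8092b9c5))
 (c z e
 (c (a (nat_lit 0x1bbefc1190b1b24be8))
 (c (a (nat_lit 0x6700d66a722c000000b)) e e) e))
 (c (a (nat_lit 0x65852be9f079e7))
 (c (a (nat_lit 0x19fb71af0d2a65a789))
 (c (a (nat_lit 0x13f3e929a2e00000000b)) e e) e)
 (c z e
 (c z e
 (c z e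
 (c z e
 (c z e
 (c z e
 (c z e
 (c z e
 (c (b (nat_lit 0x11b0711fe6914be8)) e
 (c (b (nat_lit 0x12bfffffed400006)) e e))))))))))))
 (c (a (nat_lit 0x179709e9e04067))
 (c (b (nat_lit 0xbfecf5f35c7767))
 (c (a (nat_lit 0x1c148fea87262611e9))
 (c (a (nat_lit 0x1c8e90c420000000000a)) e e) e)
 (c z e
 (c z e
 (c z e
 (c z e
 (c z e
 (c z e
 (c z e
 (c z e
 (c (b (nat_lit 0x9da5fffeaa44009)) e
 (c (b (nat_lit 0x10445fe0a0000009)) e e)))))))))))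
 (c (a (nat_lit 0x168aeae3638007)) e
 (c z e
 (c z e
 (c z e
 (c z e
 (c z e
 (c z e
 (c z e
 (c (a (nat_lit 0x10f14d66abc988)) e
 (c (a (nat_lit 0x1ed679f3486b67)) e e))))))))))))
 (c (a (nat_lit 0x4060604001))
 (c (a (nat_lit 0x10eb4b6665a5a8))
 (c (a (nat_lit 0x276e9077b13407))
 (c (a (nat_lit 0x16f20bc8eaeb6e01a8)) e e)
 (c z e
 (c z e
 (c z e
 (c z e
 (c z e
 (c z e
 (c z e
 (c z e
 (c (b (nat_lit 0x1a223fe821800009)) e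
 (c (a (nat_lit 0x14c9a04000000009)) e e)))))))))))
 (c z e
 (c z e
 (c z e
 (c z e
 (c z e
 (c z e
 (c z e
 (c z e
 (c (a (nat_lit 0xe295263a02108)) e
 (c (a (nat_lit 0x171eb3ec08c428)) e e)))))))))))
 (c (a (nat_lit 0x2080600001)) e
 (c (a (nat_lit 0x20202001)) e
 (c (a (nat_lit 0x4040404041)) e
 (c (a (nat_lit 0x20202034c8)) e
 (c (a (nat_lit 0x202034a968)) e
 (c (a (nat_lit 0x20312a6948)) e
 (c z e
 (c z e
 (c (a (nat_lit 0x16f180202066))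
 (c (b (nat_lit 0x418bfffe741a8)) e
 (c (b (nat_lit 0xcd09fedc00008)) e e))
 (c (a (nat_lit 0x138020206066))
 (c (a (nat_lit 0x12a18c40000007)) e e)
 (c z e
 (c z e
 (c z e
 (c z e
 (c z e
 (c z e
 (c z e
 (c z e
 (c (a (nat_lit 0x1c41c0248066)) e
 (c (a (nat_lit 0x16a101200002)) e e))))))))))))))))))))))
 C334))) Tr.c Tr.e (nat_lit 0) C.cx C.cy
noncomputable def C336 : Tr := beta% (fun (c : Nat → Tr → Tr → Tr) (e : Tr) (z : Nat) (a b : Nat → Nat) =>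
 (c (a (nat_lit 0x20202021))
 (c (a (nat_lit 0x2020203d07))
 (c (a (nat_lit 0x16d1e060408025))
 (c (a (nat_lit 0xf4f87984afa6407)) e e)
 (c (b (nat_lit 0x1ce848b6ffffe6)) e
 (c z e
 (c z e
 (c z e
 (c z e
 (c z e
 (c z e
 (c (a (nat_lit 0x94af0b3138588)) e e)))))))))
 (c (a (nat_lit 0x203d5488)) e
 (c (a (nat_lit 0x2037d11009)) e
 (c z e
 (c (a (nat_lit 0x13b271c20008)) e
 (c (a (nat_lit 0x1450c4002007)) e
 (c z e
 (c z e
 (c (a (nat_lit 0xf52f2f2d4e7)) e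
 (c z e
 (c z e
 (c z e
 (c (a (nat_lit 0x177221004066)) e
 (c (a (nat_lit 0x1220e0205566)) e
 (c (a (nat_lit 0xe020557826)) e e)))))))))))))))
 (c (a (nat_lit 0x40404041))
 (c (a (nat_lit 0x20336cab88)) e
 (c (a (nat_lit 0x356dad6489)) e
 (c z e
 (c (a (nat_lit 0x117140202007))
 (c (b (nat_lit 0x11fec11f3d467)) e
 (c (b (nat_lit 0x1fffe528f300a9)) e e))
 (c (b (nat_lit 0x1aa043a43fe6))
 (c (a (nat_lit 0x24589f3e84029)) e e)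
 (c z e
 (c z e
 (c z e
 (c z e
 (c z e
 (c (a (nat_lit 0x15f6c1003086)) e
 (c (a (nat_lit 0x1660c0305046)) e
 (c (a (nat_lit 0x181810382e1)) e
 (c (a (nat_lit 0x42828001)) e
 (c (a (nat_lit 0x12125291fd04)) e e)))))))))))))))
 (c (a (nat_lit 0x40404041))
 (c (a (nat_lit 0x154cad22c2c8)) e
 (c (a (nat_lit 0x135540202007))
 (c (a (nat_lit 0x5a366a5c8fa07)) e
 (c (b (nat_lit 0x4bfffe65296e8)) e e))
 (c (a (nat_lit 0x11a020226007))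
 (c (b (nat_lit 0x1fe2a42e9925a8)) e
 (c (a (nat_lit 0x5070d1b0a0089)) e e))
 (c (a (nat_lit 0x18f8f8f74ca7))
 (c (b (nat_lit 0x76991ad7feb89)) e e)
 (c z e
 (c z e
 (c z e
 (c z e
 (c (a (nat_lit 0x114680a04007)) e
 (c (a (nat_lit 0x1ac300402005)) e
 (c (a (nat_lit 0x1e25e2820001)) e
 (c (a (nat_lit 0x6020405b84)) e
 (c (a (nat_lit 0x40202739e6)) e
 (c (a (nat_lit 0x141485b1146)) e e))))))))))))))
 (c (a (nat_lit 0x20202021))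
 (c (a (nat_lit 0x152080832066))
 (c (a (nat_lit 0x12b294ef2e8025)) e
 (c (a (nat_lit 0x88b8e4887fa47)) e e))
 (c (b (nat_lit 0x1ffd0d8560e4))
 (c (a (nat_lit 0x5e8448eea9108)) e e)
 (c z e
 (c z e
 (c z e
 (c z e
 (c z e
 (c (a (nat_lit 0x1b7a19316006)) e
 (c (a (nat_lit 0x1fc24222c621)) e
 (c (a (nat_lit 0x40e2848741)) e
 (c (a (nat_lit 0x608097a4)) e
 (c (a (nat_lit 0xc12146f2c6)) e e))))))))))))
 (c (a (nat_lit 0x40404041))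
 (c (a (nat_lit 0x86a2926ffa5))
 (c (a (nat_lit 0xc655bcb02b686)) e
 (c (a (nat_lit 0xb3b7e0d92e9a7)) e e))
 (c (a (nat_lit 0x807e5d5cac7))
 (c (a (nat_lit 0x101345a3838068)) e e)
 (c z e
 (c z e
 (c (a (nat_lit 0x12706fefaf88)) e
 (c (a (nat_lit 0xf6f12ad2928)) e
 (c (b (nat_lit 0x1f3e9670ffe6)) e
 (c (a (nat_lit 0x8c163026001)) e
 (c (a (nat_lit 0x151534a61c45)) e
 (c (a (nat_lit 0x8c507d309a6)) e e))))))))))
 (c (a (nat_lit 0x40404041))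
 (c (a (nat_lit 0x727d0caa947))
 (c (a (nat_lit 0x106020a360e007)) e e)
 (c z e
 (c (a (nat_lit 0x170a88a8c326)) e
 (c (b (nat_lit 0x124fceae9fe6)) e
 (c (a (nat_lit 0xdd5b5cd0867)) e
 (c z e
 (c (a (nat_lit 0xf6fafc93385)) e
 (c (a (nat_lit 0x10d0b093b145)) e
 (c z e
 (c (a (nat_lit 0x6b70e1e005)) e
 (c (a (nat_lit 0x188f00000005)) e e)))))))))))
 (c (a (nat_lit 0x202001))
 (c (a (nat_lit 0x1d3c7cbb8e05)) e
 (c (a (nat_lit 0x12f2f2886007)) e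
 (c (a (nat_lit 0x11536e844847)) e
 (c z e
 (c z e
 (c z e
 (c z e
 (c (b (nat_lit 0x1fffa1b06262)) e
 (c (a (nat_lit 0x12a0e6e00003)) e
 (c (nat_lit 1) e e))))))))))
 (c (a (nat_lit 0x80808081))
 (c (a (nat_lit 0x1b59f3c965c5)) e
 (c (b (nat_lit 0x13b7270cbfe5)) e
 (c z e
 (c z e
 (c z e
 (c (a (nat_lit 0x123fca01b1e6)) e
 (c (a (nat_lit 0x16e8a0202006)) e
 (c (a (nat_lit 0x8100000001)) e e))))))))
 (c (a (nat_lit 0x20202021))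
 (c (a (nat_lit 0x1474d54a27e6)) e
 (c z e
 (c z e
 (c (a (nat_lit 0xbb3300b0027)) e
 (c (a (nat_lit 0x8250b405347)) e
 (c (a (nat_lit 0x8140600001)) e
 (c (a (nat_lit 0x6000000001)) e e)))))))
 (c (a (nat_lit 0x20202021))
 (c z e
 (c (b (nat_lit 0x1ff731a0a005)) e
 (c (a (nat_lit 0xb0844631246)) e
 (c (a (nat_lit 0x20e040c001)) e
 (c (a (nat_lit 0x60a0000001)) e e)))))
 (c (a (nat_lit 0x20202021))
 (c (a (nat_lit 0x6a8a0603ea5)) e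
 (c (a (nat_lit 0x61c0e0c061)) e
 (c (a (nat_lit 0x120600001)) e
 (c (a (nat_lit 0x2000000001)) e e))))
 (c (a (nat_lit 0x40404041))
 (c (a (nat_lit 0x136040202002)) e
 (c (a (nat_lit 0xa040000001)) e e))
 (c (a (nat_lit 0x40404021))
 (c (a (nat_lit 0x2000000001)) e e)
 (c (a (nat_lit 0x20203866)) e
 (c (a (nat_lit 0x2829ad666)) e
 (c (a (nat_lit 0x5516f4b67)) e
 (c z e
 (c (a (nat_lit 0x134ba02006)) e
 (c (a (nat_lit 0x1740202005)) e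
 (c (a (nat_lit 0x847a06001)) e
 (c (a (nat_lit 0xae360a001)) e
 (c (a (nat_lit 0x924227ba1)) e
 (c (a (nat_lit 0xf8f1b5142)) e e)))))))))))))))))))))))) Tr.c Tr.e (nat_lit 0) C.cx C.cy
noncomputable def C337 : Tr := beta% (fun (c : Nat → Tr → Tr → Tr) (e : Tr) (z : Nat) (a b : Nat → Nat) =>
 (c (nat_lit 1)
 (c (nat_lit 1)
 (c (a (nat_lit 0x202020359526))
 (c (a (nat_lit 0x8844468e6130565))
 (c z e
 (c z e
 (c z e
 (c z e
 (c z e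
 (c z e
 (c (a (nat_lit 0x13b34b65b336e667a8)) e
 (c (a (nat_lit 0xce644f3daa78707a7)) e
 (c (a (nat_lit 0x2c2d58c87e4e427a8)) e e)))))))))
 (c z e
 (c z e
 (c z e
 (c z e
 (c z e
 (c (a (nat_lit 0xe0406422469167)) e
 (c (a (nat_lit 0x60c5880452b1a7)) e
 (c (a (nat_lit 0x44c10cc3cdbd1a6)) e
 (c z e
 (c z e
 (c z e
 (c z e
 (c z e
 (c (a (nat_lit 0x2034889b6c00009)) e
 (c (a (nat_lit 0x1442c0a000000006)) e e))))))))))))))))
 (c (a (nat_lit 0x2038561608)) e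
 (c (a (nat_lit 0x3e3ebce748)) e
 (c z e
 (c (a (nat_lit 0x19da1b6ac92568)) e
 (c (a (nat_lit 0x1b73c98821a067)) e
 (c z e
 (c (a (nat_lit 0xc6f04e5169286))
 (c (a (nat_lit 0x7280584add2a048)) e
 (c (a (nat_lit 0x5a404782ee103a9)) e e))
 (c (a (nat_lit 0xd8666d7937c46))
 (c (a (nat_lit 0x2c3d1a8e2a3e409)) e e)
 (c z e
 (c z e
 (c z e
 (c z e
 (c z e
 (c z e
 (c (a (nat_lit 0x1c1692701b226)) e
 (c (a (nat_lit 0x27ea20d15d66)) e e)))))))))))))))))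
 (c (a (nat_lit 0x20200001))
 (c (a (nat_lit 0x203815552648)) e e)
 (c (a (nat_lit 0x2040404021))
 (c (a (nat_lit 0x1ffc3903e3e028)) e e)
 (c (a (nat_lit 0x40200001)) e
 (c (nat_lit 1) e
 (c (nat_lit 1)
 (c z e
 (c z e
 (c z e
 (c z e
 (c z e
 (c z e
 (c z e
 (c z e
 (c z e
 (c z e
 (c z e
 (c (a (nat_lit 0x1833f4d2800007)) e e))))))))))))
 (c (nat_lit 1)
 (c z e
 (c z e
 (c z e
 (c z e
 (c z e
 (c z e
 (c z e
 (c z e
 (c z e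
 (c (a (nat_lit 0x106e8992216008)) e
 (c (a (nat_lit 0x1d57f060000008)) e e)))))))))))
 (c (a (nat_lit 0x200001))
 (c (a (nat_lit 0x18e060e0f1c384))
 (c (a (nat_lit 0x11ebe972a4000007)) e
 (c (a (nat_lit 0x19361c8000000007)) e e))
 (c (a (nat_lit 0x9cd0ff3859246))
 (c (a (nat_lit 0x15f4e00000000007)) e e)
 (c z e
 (c z e
 (c z e
 (c z e
 (c z e
 (c z e
 (c (a (nat_lit 0x1c0ccd65200006)) e
 (c (a (nat_lit 0x1dd06000000005)) e e))))))))))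
 (c (a (nat_lit 0x2020203bc7))
 (c (a (nat_lit 0x19b9ba7477ce66)) e
 (c z e
 (c z e
 (c z e
 (c z e
 (c z e
 (c z e
 (c (a (nat_lit 0xf18d040000005)) e e))))))))
 (c (a (nat_lit 0x2020316a68)) e
 (c (a (nat_lit 0x2033ab09e8)) e
 (c z e
 (c z e
 (c (a (nat_lit 0x1d0920402046)) e
 (c (a (nat_lit 0x20037775728)) e
 (c (a (nat_lit 0xa0a04e4f846)) e
 (c (a (nat_lit 0x5602053a926)) e
 (c z e
 (c z e
 (c z e
 (c z e
 (c z e
 (c (a (nat_lit 0x1223e2a8e8e5)) e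
 (c (a (nat_lit 0x106141200001)) e
 (c (nat_lit 1) e e)))))))))))))))))))))))))
 (c (a (nat_lit 0x20202021))
 (c (a (nat_lit 0x2020202021))
 (c (a (nat_lit 0x1716f0f058587)) e
 (c (a (nat_lit 0x1d197725050028)) e
 (c (a (nat_lit 0x1937e7a7a02007)) e
 (c (a (nat_lit 0x1e8c4c4704a027)) e e))))
 (c (a (nat_lit 0x4060606021))
 (c (a (nat_lit 0x1d3aec0c024047)) e e)
 (c (a (nat_lit 0x2020202021)) e
 (c (a (nat_lit 0x202001)) e
 (c (nat_lit 1) e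
 (c (a (nat_lit 0x6060606041)) e
 (c (a (nat_lit 0x20202032e8))
 (c (a (nat_lit 0x106ac629a28026))
 (c (a (nat_lit 0x12b6b94960000007)) e e) e)
 (c (a (nat_lit 0x20203bd2e7)) e
 (c (a (nat_lit 0x2033ac49e8)) e
 (c z e
 (c (a (nat_lit 0x1f37f2c02007)) e
 (c (a (nat_lit 0x128f20202027))
 (c (a (nat_lit 0xccf5647a00009)) e e)
 (c (b (nat_lit 0x1d4020205fe6)) e
 (c z e
 (c z e
 (c z e
 (c z e
 (c z e
 (c z e
 (c z e
 (c z e
 (c (a (nat_lit 0x1aea20402005)) e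
 (c (a (nat_lit 0x144040000004)) e e)))))))))))))))))))))))
 (c (a (nat_lit 0x40404041))
 (c (a (nat_lit 0x4040404041))
 (c (a (nat_lit 0x12eaaa8501c026))
 (c (a (nat_lit 0x968d16fb296ba06)) e
 (c z e
 (c z e
 (c z e
 (c z e
 (c z e
 (c z e
 (c z e
 (c z e
 (c z e
 (c (a (nat_lit 0x181404a000000007)) e e)))))))))))
 (c z e
 (c z e
 (c z e
 (c z e
 (c z e
 (c z e
 (c z e
 (c z e
 (c z e
 (c (a (nat_lit 0xf8f71ab2a2928)) e e)))))))))))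
 (c (a (nat_lit 0x4040404041)) e
 (c (a (nat_lit 0x6060604041)) e
 (c (a (nat_lit 0x4040606061)) e
 (c (a (nat_lit 0x2020203da8)) e
 (c (a (nat_lit 0x2020352bc8))
 (c (b (nat_lit 0xbc06372fff405))
 (c (a (nat_lit 0x593268000000007)) e e) e)
 (c (a (nat_lit 0x2035f14b68)) e
 (c z e
 (c z e
 (c (a (nat_lit 0x10ac40202027))
 (c (b (nat_lit 0x8d5ffffe52128)) e
 (c (b (nat_lit 0x117fffe5c00009)) e e))
 (c (a (nat_lit 0x1a6020206006))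
 (c (a (nat_lit 0x15a2a5c0000007)) e e)
 (c z e
 (c z e
 (c z e
 (c z e
 (c z e
 (c (a (nat_lit 0x111d90802006)) e
 (c (b (nat_lit 0x1d30203fe006)) e
 (c z e
 (c z e
 (c (b (nat_lit 0x1fe3c1400001)) e
 (c (a (nat_lit 0x34000000001)) e e))))))))))))))))))))))
 (c (a (nat_lit 0x20202021))
 (c (a (nat_lit 0x2020202021)) e
 (c (a (nat_lit 0x2040404001)) e
 (c (a (nat_lit 0x2020203d68)) e
 (c (a (nat_lit 0x2020304929)) e
 (c (a (nat_lit 0x203fb64f08)) e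
 (c z e
 (c z e
 (c (a (nat_lit 0x1a9320202006)) e
 (c (a (nat_lit 0x128020206006))
 (c (a (nat_lit 0x13a86fcb028008)) e
 (c (a (nat_lit 0x109286a0000009)) e e))
 (c (a (nat_lit 0x4a13536cc6))
 (c (a (nat_lit 0x1202e000000008)) e e)
 (c z e
 (c z e
 (c z e
 (c z e
 (c (a (nat_lit 0x104ea0402a46)) e
 (c (a (nat_lit 0x1d40c0b49225)) e
 (c (a (nat_lit 0x3428d948705)) e
 (c z e
 (c (a (nat_lit 0x101e60e08003)) e
 (c (a (nat_lit 0x1e6060000003)) e e))))))))))))))))))))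
 C336))))) Tr.c Tr.e (nat_lit 0) C.cx C.cy
noncomputable def C338 : Tr := beta% (fun (c : Nat → Tr → Tr → Tr) (e : Tr) (z : Nat) (a b : Nat → Nat) =>
 (c (a (nat_lit 0x2020202021))
 (c (a (nat_lit 0x202032d230e7)) e
 (c (a (nat_lit 0x2023a3a3787a8))
 (c z e
 (c z e
 (c z e
 (c z e
 (c z e
 (c z e
 (c (b (nat_lit 0x14cc55dff42fca07)) e e)))))))
 (c z e
 (c (a (nat_lit 0x12155423e2a028)) e
 (c (a (nat_lit 0x19b8a565604027)) e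
 (c (a (nat_lit 0x1f2d2d29886247)) e e))))))
 (c (a (nat_lit 0x4040404021))
 (c z e
 (c (a (nat_lit 0x153610a322e028)) e
 (c (a (nat_lit 0x19572725204027)) e
 (c (a (nat_lit 0x1989c9c4c4a027)) e
 (c z e
 (c z e
 (c z e
 (c z e
 (c z e
 (c z e
 (c z e
 (c z e
 (c z e
 (c z e
 (c z e
 (c z e
 (c (a (nat_lit 0x1540a040200005)) e e)))))))))))))))))
 (c (a (nat_lit 0x2020000001))
 (c (a (nat_lit 0x13f20525002026)) e
 (c z e
 (c z e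
 (c z e
 (c z e
 (c z e
 (c z e
 (c (a (nat_lit 0x9eac429b1ad07))
 (c (a (nat_lit 0x1040000000000008)) e e)
 (c (a (nat_lit 0x9830850d15407)) e
 (c z e
 (c z e
 (c z e
 (c z e
 (c z e
 (c (a (nat_lit 0x19b4ede1a14006)) e
 (c (a (nat_lit 0x13ece080000006)) e
 (c (a (nat_lit 0x19800000000005)) e e)))))))))))))))))
 (c (a (nat_lit 0x2020002021))
 (c z e
 (c z e
 (c z e
 (c z e
 (c z e
 (c z e
 (c z e
 (c z e
 (c z e
 (c z e
 (c z e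
 (c z e
 (c (a (nat_lit 0xeb5ff33b39387)) e
 (c (a (nat_lit 0x557c060200006)) e
 (c (a (nat_lit 0x17606000000006)) e e)))))))))))))))
 (c (a (nat_lit 0x200001))
 (c z e
 (c z e
 (c z e
 (c (a (nat_lit 0x1133c0a0713186))
 (c (a (nat_lit 0x11b1f1b3c9000009)) e
 (c (a (nat_lit 0x14d8702000000009)) e e))
 (c (a (nat_lit 0x142fd415157c46))
 (c (a (nat_lit 0x19ed600000000008)) e e)
 (c z e
 (c z e
 (c z e
 (c z e
 (c z e
 (c (a (nat_lit 0xd2e6f500d0d08)) e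
 (c (a (nat_lit 0xad1f920e04005)) e
 (c (a (nat_lit 0x11204040000005)) e
 (c (nat_lit 1) e e))))))))))))))
 (c (a (nat_lit 0x2020202021))
 (c (a (nat_lit 0x9576c60204046)) e
 (c (a (nat_lit 0x1eae8060404046))
 (c (a (nat_lit 0x16197091aef5e929)) e
 (c (a (nat_lit 0x100d30ebca80000a)) e e))
 (c (a (nat_lit 0x1c8100c4e54525))
 (c (a (nat_lit 0x133d8ff0a0000008)) e
 (c (a (nat_lit 0x12a4c00000000009)) e e))
 (c (a (nat_lit 0x20404080d066))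
 (c (a (nat_lit 0x1fc0000000000005)) e e)
 (c z e
 (c z e
 (c z e
 (c z e
 (c (a (nat_lit 0x5ef1294802007)) e
 (c (a (nat_lit 0xd90b4348a4a47)) e
 (c (a (nat_lit 0x18cd80e0400005)) e
 (c (a (nat_lit 0x1a40a000000004)) e e))))))))))))
 (c (a (nat_lit 0x2020000001))
 (c (a (nat_lit 0x1081c0e0618423))
 (c (a (nat_lit 0x19cca5884b83a007)) e
 (c (a (nat_lit 0x18cd8f0e40000007)) e e))
 (c (a (nat_lit 0x2bdbc668b2fa2))
 (c (a (nat_lit 0x14342e2000000006)) e e)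
 (c z e
 (c z e
 (c z e
 (c z e
 (c z e
 (c (a (nat_lit 0x173937f365cd67)) e
 (c (a (nat_lit 0x1380cb6382e005)) e
 (c (a (nat_lit 0x50a140000004)) e
 (c (a (nat_lit 0x1ea00000000003)) e e)))))))))))
 (c (a (nat_lit 0x2020202021))
 (c (a (nat_lit 0x127232d0f19324)) e
 (c (a (nat_lit 0xdce2e5170f226)) e
 (c z e
 (c z e
 (c z e
 (c z e
 (c (a (nat_lit 0xa8e4e64a21128)) e
 (c (a (nat_lit 0xca99460a00005)) e
 (c (a (nat_lit 0x1b13c000000005)) e e)))))))))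
 (c (a (nat_lit 0x2020203826))
 (c (a (nat_lit 0x14d4f4f714df46)) e
 (c z e
 (c z e
 (c z e
 (c z e
 (c z e
 (c (a (nat_lit 0x1657ed40000006)) e
 (c (a (nat_lit 0x15a00000000005)) e e))))))))
 (c (a (nat_lit 0x20203b0866))
 (c (b (nat_lit 0xa7fe04d9dd647)) e
 (c (a (nat_lit 0x6824a7df7b6a8)) e e))
 (c (a (nat_lit 0x38397da2f85))
 (c (a (nat_lit 0xe79f3851c0e7)) e e)
 (c (a (nat_lit 0x8b2744a6266)) e
 (c (a (nat_lit 0xb91aae1e0a6)) e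
 (c (a (nat_lit 0x1f5640402345)) e
 (c (a (nat_lit 0x13e02020a0a5)) e
 (c (a (nat_lit 0x4125c4e1)) e
 (c (a (nat_lit 0xc30443c1)) e
 (c (a (nat_lit 0x1563230601)) e
 (c (a (nat_lit 0x13b43432f385)) e
 (c z e
 (c (a (nat_lit 0xd018241e161)) e
 (c (a (nat_lit 0x1e0c1a141)) e
 (c (a (nat_lit 0xa1610001)) e
 (c (a (nat_lit 0x40000001)) e e))))))))))))))))))))))))) Tr.c Tr.e (nat_lit 0) C.cx C.cy
noncomputable def C339 : Tr := beta% (fun (c : Nat → Tr → Tr → Tr) (e : Tr) (z : Nat) (a b : Nat → Nat) =>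
 (c (a (nat_lit 0x6060606061))
 (c z
 (c (a (nat_lit 0x48516b63474f503))
 (c z e
 (c z e
 (c z e
 (c z e
 (c z e
 (c z e
 (c z e
 (c z e
 (c (a (nat_lit 0x1e3a442c1c121d186)) e e)))))))))
 (c (a (nat_lit 0x22afefed6db164))
 (c (a (nat_lit 0x94b0babcc0aeab1e7))
 (c z e
 (c z e
 (c z e
 (c z e
 (c z e
 (c (a (nat_lit 0x1e9ae22c204a7c35a09)) e e))))))
 (c z e
 (c z e
 (c z e
 (c z e
 (c z e
 (c (a (nat_lit 0x7ebea6c2a65845328)) e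
 (c (a (nat_lit 0xbab87456381fd74c7)) e
 (c (a (nat_lit 0x98cea26043879e6a7)) e e)))))))))
 (c (a (nat_lit 0x927e8a303473dc3))
 (c z e
 (c z e
 (c z e
 (c z e
 (c z e
 (c z e
 (c (a (nat_lit 0x6434280a0902c2bc8)) e e)))))))
 (c (a (nat_lit 0x16f8ae142c364f42))
 (c z e
 (c z e
 (c z e
 (c z e
 (c z e
 (c z e
 (c z e
 (c (a (nat_lit 0x6239ba30a9206e647)) e e))))))))
 (c z e
 (c z e
 (c z e
 (c (a (nat_lit 0xe19e7e6888720c3))
 (c z e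
 (c (a (nat_lit 0x1f5a15ec48070a2808)) e
 (c (a (nat_lit 0x1ed46fcb254a600007)) e e)))
 (c z e
 (c z e
 (c z e
 (c z e
 (c (a (nat_lit 0x16d616f311602025)) e
 (c (a (nat_lit 0x1354318ae7478025)) e
 (c z e
 (c (a (nat_lit 0x52346e9a94836c5)) e e))))))))))))))))
 (c z
 (c (a (nat_lit 0x226a6c14167f0e5))
 (c (a (nat_lit 0x6a80849ea88d23587))
 (c z e
 (c z e
 (c z e
 (c z e
 (c (a (nat_lit 0x1266a85c488c94bf7a9)) e
 (c (a (nat_lit 0x790a3436406a35b51e9)) e e))))))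
 (c z e
 (c z e
 (c z e
 (c z e
 (c z e
 (c (a (nat_lit 0x18b9b3310b277b52c8)) e
 (c (a (nat_lit 0x1043e1a2a1553166c8)) e
 (c (a (nat_lit 0x5c322e27d0f058028)) e e)))))))))
 (c z e
 (c z e
 (c z e
 (c z e
 (c z e
 (c (a (nat_lit 0x13480462c460e025))
 (c z e
 (c (a (nat_lit 0x10ccc54202a322000a)) e
 (c (a (nat_lit 0x1b48e5426900000008)) e e)))
 (c (a (nat_lit 0xdb654bc78d28705)) e
 (c (a (nat_lit 0x115091d00e693326)) e
 (c z e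
 (c (a (nat_lit 0x12f312f0e9c08887)) e
 (c z e
 (c z e
 (c z e
 (c (a (nat_lit 0x4e46b8bcb2b98e9)) e
 (c (a (nat_lit 0x16314cc720c00005)) e
 (c (a (nat_lit 0x16b2066000000005)) e e)))))))))))))))))
 (c (a (nat_lit 0x202020203365)) e
 (c (a (nat_lit 0x2020203e19c5))
 (c z e
 (c z e
 (c z e
 (c z e
 (c z e
 (c z e
 (c z e
 (c (a (nat_lit 0x1f7ab3cccc6e2326)) e e))))))))
 (c (a (nat_lit 0x20203b3792c6))
 (c (a (nat_lit 0x9ca4427eecefa46))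
 (c z e
 (c z e
 (c z e
 (c (a (nat_lit 0x1a2f69128fa90a6f69)) e
 (c (a (nat_lit 0x16697377ac4a64c008)) e e)))))
 (c z e
 (c z e
 (c z e
 (c z e
 (c z e
 (c z e
 (c (a (nat_lit 0x1d13cd341cb77b07)) e
 (c (a (nat_lit 0xfc8ab71accd3988)) e e)))))))))
 (c (a (nat_lit 0x2c2d63ad98aa6)) e
 (c (a (nat_lit 0x2d0777469a846))
 (c z e
 (c z e
 (c z e
 (c z e
 (c z e
 (c (a (nat_lit 0x28788e6319283c8)) e e))))))
 (c (a (nat_lit 0x109154e5440306))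
 (c (a (nat_lit 0xc8d4faff110abe8)) e
 (c (a (nat_lit 0xad553f4f5673707)) e
 (c (a (nat_lit 0x3e46827c185b9c8)) e e)))
 (c (a (nat_lit 0x121ba5452846e4))
 (c (a (nat_lit 0x825e1a2a0811ae7)) e
 (c (a (nat_lit 0x403e34200924b48)) e e))
 (c (a (nat_lit 0x12806309e7a663))
 (c (a (nat_lit 0x82665c310ce0067)) e
 (c (a (nat_lit 0xead2a9e3b042227)) e e))
 (c (a (nat_lit 0x21c8c5053d43))
 (c (a (nat_lit 0xb8bb2d024210627)) e e)
 (c z e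
 (c z e
 (c z e
 (c z e
 (c (a (nat_lit 0x1d3c7e5ebe9ac6)) e
 (c (a (nat_lit 0x1911513eca843)) e
 (c (a (nat_lit 0x11d5140d088283)) e
 (c (a (nat_lit 0x1412ad88e32e43)) e
 (c (a (nat_lit 0xf49e540ab17a3)) e
 (c (a (nat_lit 0x118facb26c6004)) e e)))))))))))))))))))))
 (c (a (nat_lit 0x2020202021))
 (c (a (nat_lit 0x2020203986))
 (c (a (nat_lit 0xbec04c50d0d7865))
 (c (a (nat_lit 0x464c86caa34fd9046))
 (c z e
 (c z e
 (c z e
 (c z e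
 (c (a (nat_lit 0x708c66386e8ca3616e9)) e e)))))
 (c z e
 (c z e
 (c z e
 (c z e
 (c z e
 (c (a (nat_lit 0x1f16958d26bb355208)) e
 (c (a (nat_lit 0x6c52362941364e7a8)) e
 (c (a (nat_lit 0x321423a6ca824e4e8)) e e)))))))))
 (c z e
 (c z e
 (c z e
 (c z e
 (c z e
 (c (a (nat_lit 0x8e361640268ff25))
 (c z e
 (c (a (nat_lit 0x1af962422a20400008)) e
 (c (a (nat_lit 0x11e0e1aa4000000008)) e e)))
 (c (a (nat_lit 0x201e3c764e33687)) e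
 (c (a (nat_lit 0x6e7eb6cc731f167)) e
 (c z e
 (c z e
 (c z e
 (c z e
 (c z e
 (c (b (nat_lit 0x29fe707c8b2800a)) e e)))))))))))))))
 (c (a (nat_lit 0x2020203d3ce7))
 (c z e
 (c z e
 (c z e
 (c z e
 (c z e
 (c z e
 (c z e
 (c z e
 (c (a (nat_lit 0x11b3ef33f8b08028)) e e)))))))))
 (c (a (nat_lit 0x20203b195708)) e
 (c (a (nat_lit 0x39fa776788)) e
 (c (a (nat_lit 0x2185ad9c98848)) e
 (c (a (nat_lit 0x16367748c86588)) e
 (c (a (nat_lit 0x1652698985c4e7))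
 (c z e
 (c (a (nat_lit 0x2c5a44341819749)) e
 (c (b (nat_lit 0x261dfe180b141ea)) e e)))
 (c (a (nat_lit 0x12c54a4200aae6))
 (c (a (nat_lit 0x9c544c1a0b79428)) e
 (c (b (nat_lit 0x301e140d0e81fea)) e e))
 (c (a (nat_lit 0x648e260b3dd65))
 (c (b (nat_lit 0x4e3e415d05fe1e8)) e e)
 (c z e
 (c z e
 (c z e
 (c z e
 (c z e
 (c z e
 (c (a (nat_lit 0x100c0e0cee22e6)) e
 (c (a (nat_lit 0x1175b3762051c5)) e e)))))))))))))))))
 C338))) Tr.c Tr.e (nat_lit 0) C.cx C.cy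
noncomputable def C340 : Tr := beta% (fun (c : Nat → Tr → Tr → Tr) (e : Tr) (z : Nat) (a b : Nat → Nat) =>
 (c (a (nat_lit 0x20202021))
 (c (a (nat_lit 0x1b3386))
 (c (a (nat_lit 0x1292b2df34c024))
 (c (a (nat_lit 0x198c7843ba664825)) e e)
 (c z e
 (c z e
 (c z e
 (c (a (nat_lit 0x152c4a47a07c85)) e
 (c (a (nat_lit 0x46c83ee83dbe5)) e
 (c (a (nat_lit 0xc48ee3ed01646)) e
 (c (a (nat_lit 0xa46ef22f4fc7)) e e))))))))
 (c (a (nat_lit 0x20342d2c08)) e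
 (c z e
 (c (a (nat_lit 0x1a789b01e1e6))
 (c (a (nat_lit 0x1228af296e7386)) e
 (c (a (nat_lit 0x4122642a5c08)) e e))
 (c (a (nat_lit 0x1e5760202025))
 (c (a (nat_lit 0x342466778d108)) e
 (c z e
 (c (a (nat_lit 0x20371ca224149)) e
 (c (a (nat_lit 0x5d89d05e00008)) e e))))
 (c (a (nat_lit 0x1a4e8e8e6e46))
 (c z e
 (c (a (nat_lit 0x2ad1abe0c008)) e
 (c (a (nat_lit 0x1175cbc0000008)) e e)))
 (c (a (nat_lit 0x74767275685))
 (c (a (nat_lit 0x2996ca3e00007)) e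
 (c (a (nat_lit 0x174da000000007)) e e))
 (c (a (nat_lit 0x4a8c8d3f526))
 (c (a (nat_lit 0x19600000000005)) e e)
 (c z e
 (c z e
 (c (a (nat_lit 0x106aa9c04026)) e
 (c (a (nat_lit 0x14f340203185)) e
 (c (a (nat_lit 0x1340203191a5)) e
 (c (a (nat_lit 0x608060d204)) e
 (c (a (nat_lit 0x20318fc4)) e
 (c (a (nat_lit 0xc8cb5148905)) e e))))))))))))))))
 (c (nat_lit 1)
 (c (a (nat_lit 0x558dae04c7)) e
 (c (a (nat_lit 0x1a70f0202007)) e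
 (c (a (nat_lit 0xdd3c0202026))
 (c (a (nat_lit 0x9e40ba92b9067)) e
 (c (a (nat_lit 0x287e7cdf93708)) e e))
 (c (b (nat_lit 0x188040641fe5))
 (c (b (nat_lit 0x4048a14131fe8)) e e)
 (c z e
 (c z e
 (c z e
 (c z e
 (c (a (nat_lit 0x160dc0402026)) e
 (c (a (nat_lit 0x1b6080404025)) e
 (c (a (nat_lit 0x64322c0e001)) e
 (c (a (nat_lit 0x61006001)) e
 (c (a (nat_lit 0x4040203425)) e
 (c (a (nat_lit 0x2053cf45)) e e))))))))))))))
 (c (a (nat_lit 0x20202021))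
 (c (a (nat_lit 0x179360202025))
 (c (a (nat_lit 0x1a1452e681c084)) e
 (c (a (nat_lit 0x1beeaec0c96305)) e e))
 (c (a (nat_lit 0x14c1a1a44086))
 (c (a (nat_lit 0x68668c66a9067)) e
 (c (a (nat_lit 0x5c8a48f4efe08)) e e))
 (c (a (nat_lit 0x86888411ca4))
 (c (a (nat_lit 0x9e4b4cf20a327)) e e)
 (c z e
 (c z e
 (c z e
 (c z e
 (c (a (nat_lit 0x30825c54181)) e
 (c (a (nat_lit 0x6e3e3822361)) e
 (c (a (nat_lit 0x61c28221)) e
 (c (a (nat_lit 0x80a09ca3)) e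
 (c (b (nat_lit 0x1fe787b8a463)) e e))))))))))))
 (c (nat_lit 1)
 (c (a (nat_lit 0x692ac69a24))
 (c (a (nat_lit 0x382c2d0888066)) e
 (c (a (nat_lit 0x663182cd4f5c7)) e e))
 (c (a (nat_lit 0x242626d7666))
 (c (a (nat_lit 0x4588e54ee8267)) e e)
 (c z e
 (c z e
 (c (a (nat_lit 0x11b1f02fefc7)) e
 (c (a (nat_lit 0x14b2fa7a6f67)) e
 (c (a (nat_lit 0x16f6b731a006)) e
 (c (a (nat_lit 0x5448221e381)) e
 (c (a (nat_lit 0x2c120a1f682)) e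
 (c (a (nat_lit 0xd0c6d16ada3)) e
 (c z e
 (c (b (nat_lit 0x1ff0a2622001)) e
 (c (a (nat_lit 0xba080000001)) e e)))))))))))))
 (c (a (nat_lit 0x40404041))
 (c (a (nat_lit 0x4040a308546))
 (c (a (nat_lit 0x1fccb1a58200c6)) e e)
 (c z e
 (c (a (nat_lit 0x1b9a73f29246)) e
 (c (a (nat_lit 0x12cf6f0eeec7)) e
 (c (a (nat_lit 0x12d9d9ceeec7)) e
 (c (a (nat_lit 0x113123ce6025)) e
 (c (a (nat_lit 0x32283019043)) e
 (c (a (nat_lit 0x10aff1a48065)) e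
 (c z e
 (c (b (nat_lit 0x1ff3363b3a41)) e
 (c (a (nat_lit 0x160c00001)) e
 (c (a (nat_lit 0x2000000001)) e e))))))))))))
 (c (a (nat_lit 0x20202021))
 (c (a (nat_lit 0x142ace6e4e46)) e
 (c (a (nat_lit 0xa187877e005)) e
 (c (a (nat_lit 0x1fbf9f98c186)) e
 (c z e
 (c z e
 (c z e
 (c z e
 (c (b (nat_lit 0x1fee92874423)) e
 (c (a (nat_lit 0xf576720a002)) e
 (c (a (nat_lit 0x120380000003)) e e))))))))))
 (c (a (nat_lit 0x40404041))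
 (c (a (nat_lit 0x177777222025)) e
 (c (a (nat_lit 0x1855a54522a5)) e
 (c z e
 (c z e
 (c z e
 (c (a (nat_lit 0xb306ea02005)) e
 (c (a (nat_lit 0x110ee0204e85)) e
 (c (a (nat_lit 0x600e0a00001)) e
 (c (nat_lit 1) e e)))))))))
 (c (a (nat_lit 0x20202021))
 (c (a (nat_lit 0x1636b69148c5)) e
 (c z e
 (c z e
 (c (a (nat_lit 0xdeb601e003)) e
 (c (a (nat_lit 0xf6b00e05f24)) e
 (c (a (nat_lit 0x4060a08001)) e
 (c (a (nat_lit 0x40000001)) e e)))))))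
 (c (a (nat_lit 0x2021))
 (c z e
 (c (a (nat_lit 0xb74e20a123)) e
 (c (a (nat_lit 0x56340209005)) e
 (c (a (nat_lit 0x206040c081)) e
 (c (a (nat_lit 0x40200001)) e
 (c (a (nat_lit 0x4000000001)) e e))))))
 (c (a (nat_lit 0x20202021))
 (c (a (nat_lit 0x301e0203085)) e
 (c (a (nat_lit 0xe14080a001)) e
 (c (a (nat_lit 0x60602001)) e
 (c (a (nat_lit 0x40000001)) e e))))
 (c (a (nat_lit 0x202021))
 (c (a (nat_lit 0xc060602021)) e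
 (c (a (nat_lit 0xc0a0400001)) e
 (c (a (nat_lit 0x8000000001)) e e)))
 (c (a (nat_lit 0x20202021))
 (c (a (nat_lit 0x6020000001)) e e)
 (c (a (nat_lit 0x80808081)) e
 (c (a (nat_lit 0x20203c04)) e
 (c (a (nat_lit 0x405c3e04)) e
 (c (a (nat_lit 0x371728ae5)) e
 (c z e
 (c (a (nat_lit 0x1eefa02024)) e
 (c (a (nat_lit 0x1f00202003)) e
 (c (a (nat_lit 0x323806001)) e
 (c (a (nat_lit 0x60203825)) e
 (c (b (nat_lit 0x40585fe5)) e e))))))))))))))))))))))) Tr.c Tr.e (nat_lit 0) C.cx C.cy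
noncomputable def C341 : Tr := beta% (fun (c : Nat → Tr → Tr → Tr) (e : Tr) (z : Nat) (a b : Nat → Nat) =>
 (c (a (nat_lit 0x20202021))
 (c (a (nat_lit 0x202021))
 (c (a (nat_lit 0x14722969442065))
 (c (a (nat_lit 0x13cf91731336f686)) e
 (c z e
 (c z e
 (c z e
 (c z e
 (c z e
 (c z e
 (c (a (nat_lit 0x6297409cbaee8e7)) e
 (c z e
 (c z e
 (c (a (nat_lit 0x15b736e2a0000006)) e e)))))))))))
 (c (a (nat_lit 0x108b4b482324e7)) e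
 (c z e
 (c z e
 (c z e
 (c z e
 (c z e
 (c z e
 (c z e
 (c z e
 (c (a (nat_lit 0x1913f5f551af47)) e e)))))))))))
 (c (a (nat_lit 0x4040404041)) e
 (c (a (nat_lit 0x4040402021))
 (c z e
 (c z e
 (c z e
 (c z e
 (c z e
 (c z e
 (c z e
 (c z e
 (c (a (nat_lit 0xf9fbb2ac3cac7)) e e)))))))))
 (c (a (nat_lit 0x2020404021))
 (c (a (nat_lit 0x8118b4040a046))
 (c (a (nat_lit 0x145634783b90e987)) e
 (c (a (nat_lit 0x1b2273d9c5293328)) e e))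
 (c z e
 (c z e
 (c z e
 (c z e
 (c z e
 (c z e
 (c (a (nat_lit 0xbd249e726a7e8)) e e))))))))
 (c (a (nat_lit 0x4040404041)) e
 (c (a (nat_lit 0x20202034c7))
 (c (b (nat_lit 0xbea02235d5fe5))
 (c (a (nat_lit 0x11b739c9c0000006)) e e) e)
 (c (a (nat_lit 0x2020359086)) e
 (c (a (nat_lit 0x2034af65a7))
 (c (a (nat_lit 0x1ab77f3b1e9f06)) e e)
 (c (b (nat_lit 0x15edc4dfe7)) e
 (c (a (nat_lit 0x114fc5e02027))
 (c (b (nat_lit 0xa29383fe24888)) e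
 (c (a (nat_lit 0x511ea6aa38009)) e e))
 (c (a (nat_lit 0x114c60202046))
 (c (a (nat_lit 0x1cdc48a1600007)) e e)
 (c (b (nat_lit 0x17c020207fe5)) e
 (c (a (nat_lit 0xe0e6a63786)) e
 (c z e
 (c z e
 (c z e
 (c (a (nat_lit 0x1b002f828704)) e
 (c (b (nat_lit 0x1ff9c0691fe3)) e
 (c (b (nat_lit 0x11c5259fffe4)) e
 (c z e
 (c (a (nat_lit 0x12c0a0602004)) e
 (c (a (nat_lit 0x48140000001)) e e))))))))))))))))))))))
 (c (a (nat_lit 0x20202021))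
 (c (a (nat_lit 0x2040404021))
 (c z e
 (c z e
 (c z e
 (c (a (nat_lit 0x1699a720226666)) e
 (c (a (nat_lit 0x13adcb6d6fc947)) e
 (c z e
 (c z e
 (c z e
 (c z e
 (c (a (nat_lit 0x126b0c48286807)) e
 (c z e
 (c z e
 (c (a (nat_lit 0x7cd4f716462a6)) e e)))))))))))))
 (c (a (nat_lit 0x4040404021))
 (c z e
 (c (a (nat_lit 0x13578860214007))
 (c (a (nat_lit 0x150eed8a12306a49)) e e)
 (c z e
 (c z e
 (c z e
 (c z e
 (c z e
 (c (b (nat_lit 0x13782f3ff27a66)) e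
 (c (a (nat_lit 0x138f75eeb46067)) e e)))))))))
 (c (a (nat_lit 0x2001))
 (c (a (nat_lit 0x17ad21414502c6))
 (c (a (nat_lit 0x16f7d04fd3447987)) e e)
 (c z e
 (c z e
 (c z e
 (c z e
 (c z e
 (c (a (nat_lit 0x6edc663249308)) e
 (c (a (nat_lit 0x1a6aaba7956da7)) e e))))))))
 (c (a (nat_lit 0x2020203aa7)) e
 (c (a (nat_lit 0x20203a8cc7)) e
 (c (a (nat_lit 0x2039556767)) e
 (c (a (nat_lit 0x1bf5a76407)) e
 (c (a (nat_lit 0x193103a02027)) e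
 (c (a (nat_lit 0x18acc0202025))
 (c (a (nat_lit 0x5106db7646128)) e
 (c (a (nat_lit 0x689d443000009)) e e))
 (c (a (nat_lit 0x1da020408004))
 (c (a (nat_lit 0xddac560000007)) e e)
 (c (a (nat_lit 0x4a4a76770c7)) e
 (c z e
 (c (a (nat_lit 0xcf1df74745)) e
 (c z e
 (c (a (nat_lit 0x16eb86e02226)) e
 (c (a (nat_lit 0xb66e0223066)) e
 (c (a (nat_lit 0x9c0209b8525)) e
 (c (a (nat_lit 0x5444a065)) e e))))))))))))))))))
 (c (nat_lit 1)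
 (c (a (nat_lit 0x2020202021))
 (c (a (nat_lit 0x1cdea020202044))
 (c (a (nat_lit 0x118e266638c38c65)) e
 (c (a (nat_lit 0x1ef1ca9535d78bc7)) e e))
 (c (a (nat_lit 0x1704e02044c026))
 (c (a (nat_lit 0x122acb2ff3aa7268)) e e)
 (c z e
 (c z e
 (c z e
 (c z e
 (c (a (nat_lit 0xc914de9ecd3c6)) e
 (c (a (nat_lit 0x30021a50db426)) e
 (c (a (nat_lit 0x4c7e930ed2006)) e e)))))))))
 (c (a (nat_lit 0x2020203ae7))
 (c (a (nat_lit 0x11f13135b3ab26))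
 (c (a (nat_lit 0x11ed9018eab57407)) e e)
 (c z e
 (c z e
 (c z e
 (c z e
 (c (a (nat_lit 0x110b4c26efcc07)) e
 (c (a (nat_lit 0x642a808720e88)) e
 (c (a (nat_lit 0x264062a5522c8)) e e))))))))
 (c (a (nat_lit 0x20203ab2a7)) e
 (c (a (nat_lit 0x33ae8d88)) e
 (c (a (nat_lit 0xbc18f667a7)) e
 (c z e
 (c (a (nat_lit 0x12b0eb274747))
 (c z e
 (c (a (nat_lit 0x1a8adf3c56069)) e
 (c (a (nat_lit 0x80df967400009)) e e)))
 (c (a (nat_lit 0x188020404005))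
 (c (a (nat_lit 0xbc618a4a06008)) e
 (c (a (nat_lit 0x11dec860000008)) e e))
 (c (a (nat_lit 0x14145859206))
 (c (a (nat_lit 0x1f44e000000007)) e e)
 (c z e
 (c z e
 (c z e
 (c (a (nat_lit 0x162aa0604046)) e
 (c (a (nat_lit 0x14e020202025)) e
 (c (a (nat_lit 0x8040409364)) e
 (c (a (nat_lit 0x402091f324)) e
 (c (a (nat_lit 0x6b529e04)) e e)))))))))))))))))
 C340)))) Tr.c Tr.e (nat_lit 0) C.cx C.cy
noncomputable def C342 : Tr := beta% (fun (c : Nat → Tr → Tr → Tr) (e : Tr) (z : Nat) (a b : Nat → Nat) =>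
 (c (a (nat_lit 0x20202021))
 (c (nat_lit 1)
 (c (a (nat_lit 0x2020203485))
 (c (a (nat_lit 0x18181e249e0fc04))
 (c z e
 (c z e
 (c z e
 (c z e
 (c z e
 (c z e
 (c (a (nat_lit 0xb0d2e0d22cc1987a7)) e
 (c (a (nat_lit 0x72824640054432be6)) e e))))))))
 (c z e
 (c z e
 (c z e
 (c z e
 (c z e
 (c z e
 (c (a (nat_lit 0x1c2822627023605)) e
 (c (a (nat_lit 0xf6eee0e4a76c825)) e
 (c (b (nat_lit 0xdcbd3dfeef0e2c4)) e
 (c (a (nat_lit 0x11d694ebc52be445)) e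
 (c z e
 (c z e
 (c z e
 (c (a (nat_lit 0x485a826079ea007)) e
 (c (a (nat_lit 0x1b4ea1e140000004)) e e))))))))))))))))
 (c (a (nat_lit 0x60606072afa7))
 (c z e
 (c z e
 (c z e
 (c z e
 (c z e
 (c z e
 (c z e
 (c z e
 (c (b (nat_lit 0x8b31fed4d6650c6)) e e)))))))))
 (c (a (nat_lit 0x20203dfbb707)) e
 (c (a (nat_lit 0x203f9e578747)) e
 (c (a (nat_lit 0x23c3b5ac9e747)) e
 (c (a (nat_lit 0x1332b160c02047)) e
 (c (a (nat_lit 0x195ac6a56746e6)) e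
 (c z e
 (c (a (nat_lit 0x212483b66a06))
 (c (a (nat_lit 0x24586d60b664428)) e e)
 (c z e
 (c z e
 (c z e
 (c z e
 (c z e
 (c z e
 (c (a (nat_lit 0x169714b32f2844)) e
 (c (a (nat_lit 0x1df99610e38003)) e e)))))))))))))))))
 (c (a (nat_lit 0x2020202021))
 (c (a (nat_lit 0x202036f2f327)) e
 (c (a (nat_lit 0x2023fdcb8e7a8)) e
 (c z e
 (c (a (nat_lit 0x16f372a3818028)) e
 (c (a (nat_lit 0x15f5832320e007)) e
 (c (a (nat_lit 0x16e5c724640b07)) e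
 (c (a (nat_lit 0x34341a16cbaa7)) e e)))))))
 (c (a (nat_lit 0x40404021))
 (c (a (nat_lit 0x111f0acc3e3e8))
 (c z e
 (c z e
 (c z e
 (c z e
 (c z e
 (c z e
 (c (a (nat_lit 0x4cba7c784ab90c8)) e e)))))))
 (c (a (nat_lit 0x1d9a4fe221c028)) e
 (c (a (nat_lit 0x1b7928a4c22007)) e
 (c (a (nat_lit 0x158565634269a7)) e e))))
 (c (a (nat_lit 0x4060402021))
 (c (b (nat_lit 0x13cfa4e3205fe6)) e
 (c (a (nat_lit 0x10296aa7e70b68)) e e))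
 (c (a (nat_lit 0x2020202021))
 (c (a (nat_lit 0x1c7c75f5db95a6)) e e)
 (c (a (nat_lit 0x2020202021)) e
 (c (nat_lit 1) e
 (c (a (nat_lit 0x20202021))
 (c (a (nat_lit 0x1304a0c0404125))
 (c (a (nat_lit 0x190132f52a40006)) e
 (c (a (nat_lit 0x11cb553180000007)) e e))
 (c (a (nat_lit 0x17a6c180c0ee04))
 (c (a (nat_lit 0x5b84e6000000007)) e e)
 (c z e
 (c z e
 (c z e
 (c z e
 (c z e
 (c z e
 (c (a (nat_lit 0x1168e8f4cb2006)) e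
 (c (a (nat_lit 0xc7174e0000005)) e e))))))))))
 (c (a (nat_lit 0x2020004021))
 (c (a (nat_lit 0x1090504faecd26))
 (c (a (nat_lit 0x11e8200000000006)) e e)
 (c z e
 (c z e
 (c z e
 (c z e
 (c z e
 (c z e
 (c (a (nat_lit 0x1deabb0da00006)) e
 (c (a (nat_lit 0xc19a000000005)) e e)))))))))
 (c (a (nat_lit 0x1e46))
 (c z e
 (c z e
 (c z e
 (c z e
 (c z e
 (c z e
 (c (a (nat_lit 0x13782ee0000006)) e e)))))))
 (c (a (nat_lit 0x2030a727)) e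
 (c (a (nat_lit 0x38d2ed06)) e
 (c (b (nat_lit 0x5be18ce7fe6)) e
 (c (a (nat_lit 0x19d4eee02006)) e
 (c (a (nat_lit 0x120d402025c6)) e
 (c (a (nat_lit 0x18202028e7e5)) e
 (c (a (nat_lit 0x8084c47fa6)) e
 (c z e
 (c z e
 (c z e
 (c z e
 (c z e
 (c z e
 (c (a (nat_lit 0x11064060c003)) e
 (c (a (nat_lit 0x14c0c0000001)) e e)))))))))))))))))))))))))
 (c (a (nat_lit 0x20202021))
 (c (a (nat_lit 0x2020202021))
 (c (a (nat_lit 0x161704dae65c6))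
 (c z e
 (c z e
 (c z e
 (c z e
 (c z e
 (c z e
 (c z e
 (c (a (nat_lit 0xbd00fb955f268e6)) e e))))))))
 (c (a (nat_lit 0x21edbb888a8a7)) e
 (c (a (nat_lit 0x16d30ce3e3e027)) e
 (c (a (nat_lit 0x1d1c6b67a28006))
 (c z e
 (c z e
 (c z e
 (c (a (nat_lit 0x6ae565437072e8)) e e))))
 (c (a (nat_lit 0x18a769e2626386)) e e)))))
 (c (a (nat_lit 0x2020202021))
 (c (a (nat_lit 0x112fec046461e8)) e
 (c (a (nat_lit 0x1b584c4c446027)) e e))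
 (c (a (nat_lit 0x2020202021))
 (c (a (nat_lit 0x12c92a82e2e686)) e e)
 (c (a (nat_lit 0x2020202021)) e
 (c (a (nat_lit 0x2020202021)) e
 (c (a (nat_lit 0x4040404041)) e
 (c (nat_lit 1)
 (c (a (nat_lit 0x1129e920434006))
 (c (a (nat_lit 0x15375a7e6a800006)) e e) e)
 (c (a (nat_lit 0x20202037c6))
 (c z e
 (c z e
 (c z e
 (c z e
 (c z e
 (c z e
 (c z e
 (c (a (nat_lit 0x1733e640000005)) e e))))))))
 (c (a (nat_lit 0x20203eb0a6))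
 (c z e
 (c z e
 (c z e
 (c z e
 (c z e
 (c z e
 (c (a (nat_lit 0x1a038000000006)) e e)))))))
 (c (a (nat_lit 0x3228a827)) e
 (c z e
 (c (a (nat_lit 0x1dd92fe02026))
 (c (b (nat_lit 0x2ffeff5880008)) e e)
 (c (a (nat_lit 0x1dd860202045)) e
 (c (a (nat_lit 0x18406062e045)) e
 (c (a (nat_lit 0x50502627046)) e
 (c z e
 (c z e
 (c z e
 (c z e
 (c z e
 (c z e
 (c (a (nat_lit 0x102bac202026)) e
 (c (a (nat_lit 0x191860200005)) e e)))))))))))))))))))))))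
 C341))) Tr.c Tr.e (nat_lit 0) C.cx C.cy
noncomputable def C343 : Tr := beta% (fun (c : Nat → Tr → Tr → Tr) (e : Tr) (z : Nat) (a b : Nat → Nat) =>
 (c (nat_lit 1)
 (c (a (nat_lit 0x202020308f27))
 (c z e
 (c z e
 (c z e
 (c z e
 (c z e
 (c z e
 (c z e
 (c z e
 (c (a (nat_lit 0x15706b2aed909287)) e e)))))))))
 (c (a (nat_lit 0x20203a389408))
 (c z e
 (c z e
 (c z e
 (c z e
 (c z e
 (c z e
 (c (b (nat_lit 0x136ac77fe7107028)) e e)))))))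
 (c (a (nat_lit 0x203b591266e8)) e
 (c z e
 (c (a (nat_lit 0x11701002a2a048)) e
 (c (a (nat_lit 0x177744e4e0c027)) e e))))))
 (c (a (nat_lit 0x2020202021))
 (c (a (nat_lit 0x203c9b32e5e7)) e
 (c z e
 (c (a (nat_lit 0x1958d4a4828028)) e
 (c (a (nat_lit 0x18560525204027)) e
 (c z e
 (c z e
 (c z e
 (c z e
 (c z e
 (c z e
 (c z e
 (c z e
 (c z e
 (c z e
 (c z e
 (c z e
 (c (a (nat_lit 0x1700a040202005)) e e)))))))))))))))))
 (c (a (nat_lit 0x2020202021))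
 (c (a (nat_lit 0x1a188c42828027)) e
 (c (a (nat_lit 0x114fe8c6c46468)) e
 (c z e
 (c z e
 (c z e
 (c z e
 (c z e
 (c z e
 (c (a (nat_lit 0xcc9a4ca33cec7)) e
 (c z e
 (c z e
 (c z e
 (c z e
 (c z e
 (c (a (nat_lit 0xff16403e3e386)) e
 (c (a (nat_lit 0x1b408161000005)) e e))))))))))))))))
 (c (a (nat_lit 0x4040404021))
 (c z e
 (c z e
 (c z e
 (c z e
 (c z e
 (c z e
 (c z e
 (c z e
 (c z e
 (c z e
 (c z e
 (c z e
 (c z e
 (c (a (nat_lit 0x7090990c92008)) e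
 (c (a (nat_lit 0xef02f60000007)) e e)))))))))))))))
 (c (nat_lit 1)
 (c z e
 (c z e
 (c z e
 (c (a (nat_lit 0x9029a0406ce7))
 (c (a (nat_lit 0xa961073d4a80009)) e
 (c (a (nat_lit 0x19395d5560000009)) e e))
 (c (a (nat_lit 0x1209c2024eee87))
 (c (a (nat_lit 0x1afcd1e000000008)) e e)
 (c z e
 (c (a (nat_lit 0x6c708b056ab67)) e
 (c z e
 (c z e
 (c z e
 (c (a (nat_lit 0x116cac8c6e4c68)) e
 (c (a (nat_lit 0x18d8583bf85827)) e
 (c (a (nat_lit 0x7eb2fa3600001)) e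
 (c (a (nat_lit 0x1e20000000001)) e e))))))))))))))
 (c (a (nat_lit 0x2020202021))
 (c z e
 (c z e
 (c (a (nat_lit 0x13c4c061412107))
 (c (a (nat_lit 0xa4e76732ae00009)) e
 (c (a (nat_lit 0x1a1ecc0000000009)) e e))
 (c (a (nat_lit 0x13a0c044046885))
 (c (a (nat_lit 0x1708600000000008)) e e)
 (c z e
 (c z e
 (c z e
 (c z e
 (c z e
 (c (a (nat_lit 0xb8e70130e0ee8)) e
 (c (a (nat_lit 0x50bb7e403a006)) e
 (c (a (nat_lit 0x814c0c0000006)) e e))))))))))))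
 (c (a (nat_lit 0x2020202021))
 (c (a (nat_lit 0x168420c0404085))
 (c (a (nat_lit 0x13380d09e9d12547)) e
 (c (a (nat_lit 0x1207a666c6000009)) e e))
 (c (a (nat_lit 0x10e92780c1a344))
 (c (a (nat_lit 0x1eda5b2f60000007)) e e)
 (c z e
 (c z e
 (c z e
 (c z e
 (c z e
 (c z e
 (c (a (nat_lit 0x64b5017326fc6)) e
 (c (b (nat_lit 0x1fe5d525800005)) e
 (c (a (nat_lit 0x1c1f4000000004)) e e)))))))))))
 (c (a (nat_lit 0x20000001))
 (c (a (nat_lit 0x16d6767595b1a5))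
 (c (a (nat_lit 0x10d245a000000006)) e e)
 (c (a (nat_lit 0x1353b3f4140926)) e
 (c z e
 (c z e
 (c z e
 (c z e
 (c z e
 (c (a (nat_lit 0x6b1dcdb014005)) e
 (c (a (nat_lit 0x155acd00000006)) e e)))))))))
 (c (a (nat_lit 0x808080a0a1))
 (c (a (nat_lit 0x13331334ed2d86)) e
 (c z e
 (c z e
 (c z e
 (c z e
 (c z e
 (c (a (nat_lit 0x8935443c00006)) e
 (c (a (nat_lit 0x1e6fe000000006)) e e))))))))
 (c (a (nat_lit 0x20202033c6))
 (c (a (nat_lit 0x949a0a0283b47)) e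
 (c (a (nat_lit 0xc28034aba58e8)) e e))
 (c (a (nat_lit 0x145066))
 (c (a (nat_lit 0xd882bbfdbd5a7)) e e)
 (c (a (nat_lit 0x2034d105c6))
 (c (a (nat_lit 0x2844d30c7e709)) e e)
 (c (a (nat_lit 0x8f6330ce246)) e
 (c (a (nat_lit 0x12afac406046)) e
 (c (a (nat_lit 0x1c55c02020e5)) e
 (c (a (nat_lit 0x15a02020c0a5)) e
 (c (b (nat_lit 0x1fe020207585)) e
 (c (a (nat_lit 0x12181d72245)) e
 (c (a (nat_lit 0x242764322c5)) e
 (c z e
 (c z e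
 (c (a (nat_lit 0x1a5861408002)) e
 (c (a (nat_lit 0x19e2e0c0e002)) e
 (c (a (nat_lit 0x8a0a0e00001)) e
 (c (a (nat_lit 0x1a000000001)) e e)))))))))))))))))))))))))) Tr.c Tr.e (nat_lit 0) C.cx C.cy
noncomputable def C344 : Tr := beta% (fun (c : Nat → Tr → Tr → Tr) (e : Tr) (z : Nat) (a b : Nat → Nat) =>
 (c (a (nat_lit 0x2020202021))
 (c z
 (c (a (nat_lit 0x17c033b11673d764))
 (c z e
 (c (a (nat_lit 0x171d797cdcbb59f826))
 (c z e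
 (c z e
 (c z e
 (c z e
 (c z e
 (c z e
 (c (a (nat_lit 0x2aa550f43238303e4c9)) e e))))))) e))
 (c (b (nat_lit 0x1f3ffd37fd5e04))
 (c (a (nat_lit 0x12cd8ff150efeeaf67))
 (c z e
 (c z e
 (c z e
 (c z e
 (c z e
 (c (a (nat_lit 0x7e4953b05a3a588c869)) e
 (c (a (nat_lit 0xb9e99e78444e68754a9)) e
 (c (a (nat_lit 0xed20924e382c2400009)) e e))))))))
 (c z e
 (c z e
 (c z e
 (c z e
 (c z e
 (c z e
 (c (a (nat_lit 0x3e766a44520e037c8)) e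
 (c (a (nat_lit 0x3a4c4c382c130c829)) e e)))))))))
 (c (a (nat_lit 0xf0a20402141d724))
 (c z e
 (c z e
 (c z e
 (c z e
 (c z e
 (c z e
 (c (a (nat_lit 0x669a6a5816290f708)) e e)))))))
 (c (a (nat_lit 0xa85e6a808744e24)) e
 (c (a (nat_lit 0xaebcc57bb876024))
 (c z e
 (c z e
 (c z e
 (c (a (nat_lit 0x5a602016b716be629)) e e))))
 (c z e
 (c z e
 (c z e
 (c (a (nat_lit 0xf2fab10716a08e5))
 (c (a (nat_lit 0x1272b6086243820228)) e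
 (c (a (nat_lit 0x1137a9038140400008)) e e))
 (c (a (nat_lit 0xd68f41647452204)) e
 (c z e
 (c z e
 (c z e
 (c (a (nat_lit 0x1433528e88a463e6)) e
 (c z e
 (c (a (nat_lit 0xb080827a6c4bfa4)) e e))))))))))))))))
 (c z
 (c (a (nat_lit 0xf018887e827f2e6))
 (c (a (nat_lit 0x6670929ed290b5427))
 (c z e
 (c z e
 (c z e
 (c z e
 (c z e
 (c (a (nat_lit 0x166ccc281c20222f14a)) e
 (c (a (nat_lit 0x15d2c8a2e3c445cd4009)) e e)))))))
 (c z e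
 (c z e
 (c z e
 (c z e
 (c z e
 (c z e
 (c (a (nat_lit 0xe0f82838141bc9948)) e
 (c (a (nat_lit 0x461a08140f065016a)) e e)))))))))
 (c (a (nat_lit 0x4c1e1e06048f4e7)) e
 (c z e
 (c z e
 (c z e
 (c z e
 (c z e
 (c (a (nat_lit 0x14e32362632160a6))
 (c (a (nat_lit 0x1031074061c3016009)) e
 (c (a (nat_lit 0x10e7234344a0000009)) e e))
 (c (a (nat_lit 0x1757f75836342ca6)) e
 (c z e
 (c z e
 (c z e
 (c z e
 (c z e
 (c z e
 (c (a (nat_lit 0x11d8afd0c6a14005)) e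
 (c (a (nat_lit 0x1c53d4e5c0000005)) e e)))))))))))))))))
 (c z e
 (c (a (nat_lit 0x2020202036e6))
 (c z e
 (c z e
 (c z e
 (c z e
 (c z e
 (c z e
 (c z e
 (c (a (nat_lit 0x1014108a43414847)) e
 (c z e
 (c (a (nat_lit 0x1c9733c6c70e9447)) e e))))))))))
 (c (a (nat_lit 0x2020203cb326)) e
 (c (a (nat_lit 0x2020379391e7)) e
 (c (a (nat_lit 0x203cf9d62a06)) e
 (c (a (nat_lit 0x23392f1c766c7)) e
 (c (a (nat_lit 0x149e7ea5e34785))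
 (c (a (nat_lit 0xcf3adec13291706)) e
 (c (a (nat_lit 0xbcc6aeec828f887)) e
 (c z e
 (c (a (nat_lit 0x792dda3cfead27)) e e))))
 (c (a (nat_lit 0xf90e02026e645))
 (c (a (nat_lit 0xaac4bec4475ebc7)) e
 (c (a (nat_lit 0xc4e0e86f12ea248)) e e))
 (c (a (nat_lit 0xd03c3cae934c5))
 (c (a (nat_lit 0x1878d1f6fa408707)) e e)
 (c z e
 (c z e
 (c z e
 (c z e
 (c z e
 (c (a (nat_lit 0x647ae3041a284)) e
 (c (a (nat_lit 0x72df021020144)) e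
 (c (a (nat_lit 0x173e236280c003)) e
 (c (a (nat_lit 0x1bc0424220e223)) e
 (c (a (nat_lit 0x2aa01842e6001)) e e)))))))))))))))))))))
 (c (a (nat_lit 0x20000001))
 (c z
 (c (a (nat_lit 0x7644443e3935e45))
 (c z e
 (c z e
 (c z e
 (c z e
 (c z e
 (c z e
 (c z e
 (c (a (nat_lit 0xc6767e3a3cc312be8)) e
 (c (a (nat_lit 0x3c1e1617588834149)) e e)))))))))
 (c z e
 (c z e
 (c z e
 (c z e
 (c z e
 (c z e
 (c (a (nat_lit 0x138102f3ec975a44))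
 (c (a (nat_lit 0x1aaae6a82c84200008)) e e)
 (c (a (nat_lit 0xfaff45ad3b0d906)) e
 (c z e
 (c (a (nat_lit 0x1032b20f46c0a167)) e
 (c z e
 (c z e
 (c z e
 (c z e
 (c (a (nat_lit 0x1567a120c0600006)) e
 (c (a (nat_lit 0x1dc3612000000004)) e e)))))))))))))))))
 (c (a (nat_lit 0x202020203028)) e
 (c (a (nat_lit 0x202030cf88)) e
 (c (a (nat_lit 0x203f5c14e8)) e
 (c (a (nat_lit 0x203b7a18c7c8)) e
 (c z e
 (c (a (nat_lit 0x11ed0f20606008)) e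
 (c (a (nat_lit 0x1eefe0e0e34046))
 (c (a (nat_lit 0xbef4c10eb1044a7)) e
 (c (a (nat_lit 0x987e6a7a75d0a69)) e e))
 (c z e
 (c z e
 (c z e
 (c z e
 (c z e
 (c z e
 (c z e
 (c (a (nat_lit 0x19ae0b2f2e8e86)) e
 (c (a (nat_lit 0x1973bc3ada6625)) e e)))))))))))))))))
 C343))) Tr.c Tr.e (nat_lit 0) C.cx C.cy
noncomputable def C345 : Tr := beta% (fun (c : Nat → Tr → Tr → Tr) (e : Tr) (z : Nat) (a b : Nat → Nat) =>
 (c (a (nat_lit 0x2020202021))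
 (c (a (nat_lit 0x1769589460626)) e
 (c (a (nat_lit 0x193851e94765a7))
 (c z e
 (c (a (nat_lit 0x72b2a25e7ecb7e8))
 (c (a (nat_lit 0xb3349a9a489e00009)) e e)
 (c z e
 (c (a (nat_lit 0x16b5bf810d9fec6)) e
 (c z e
 (c z e
 (c z e
 (c (a (nat_lit 0x5c54549302843a9)) e
 (c (a (nat_lit 0x7e8caf045400009)) e e)))))))))
 (c (a (nat_lit 0x1b77276760e0c5))
 (c (a (nat_lit 0xa4c63a769ff3747))
 (c (a (nat_lit 0x102806658480000008)) e e)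
 (c z e
 (c z e
 (c z e
 (c z e
 (c z e
 (c (a (nat_lit 0x6aa49faab852007)) e
 (c (a (nat_lit 0x14d2340640000007)) e e))))))))
 (c (a (nat_lit 0x1f8fcfc9694d65)) e
 (c z e
 (c z e
 (c z e
 (c z e
 (c (a (nat_lit 0x118883e0228e46)) e
 (c (a (nat_lit 0xe89c8eebd0da6)) e
 (c (a (nat_lit 0x110ff81b5406c6)) e
 (c z e
 (c z e
 (c z e
 (c (a (nat_lit 0x143392b02a4d84)) e
 (c (a (nat_lit 0x1f1d590dc9e003)) e
 (c (a (nat_lit 0x15afe280000003)) e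
 (c (a (nat_lit 0x1ac00000000002)) e e))))))))))))))))))
 (c (a (nat_lit 0xe0e0e0e0e1))
 (c (a (nat_lit 0x1c5b9109662605))
 (c (a (nat_lit 0xfeee9650a9f1ca4)) e
 (c (a (nat_lit 0x9650148eaf15f47)) e
 (c z e
 (c (a (nat_lit 0xa9bf778fe5ddc06)) e
 (c z e
 (c z e
 (c (a (nat_lit 0x1e5e68811c6c6a8)) e
 (c (a (nat_lit 0x546085606e48008)) e
 (c (a (nat_lit 0x748736320000008)) e e)))))))))
 (c (a (nat_lit 0x1f8a4a43c3a285))
 (c (a (nat_lit 0x50187a993bddd27)) e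
 (c z e
 (c z e
 (c z e
 (c z e
 (c (a (nat_lit 0x866e40cf6cec908)) e
 (c (a (nat_lit 0xf8af4ef8cc00008)) e
 (c (a (nat_lit 0xd98234000000007)) e e))))))))
 (c z e
 (c z e
 (c z e
 (c z e
 (c (a (nat_lit 0x116b03a3838066)) e
 (c (a (nat_lit 0x158686868176a5)) e
 (c (a (nat_lit 0x80807f0747046)) e
 (c z e
 (c z e
 (c z e
 (c (a (nat_lit 0xfd015b051cd25)) e
 (c (a (nat_lit 0xaf64bcee56044)) e
 (c (a (nat_lit 0x1a70b305000004)) e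
 (c (a (nat_lit 0x19ae0000000004)) e e))))))))))))))))
 (c (a (nat_lit 0x2001))
 (c (a (nat_lit 0x10706ced097045))
 (c (a (nat_lit 0x3c4c6ee2cbcb526)) e
 (c z e
 (c z e
 (c z e
 (c (a (nat_lit 0x94e50742cee8c28)) e
 (c (a (nat_lit 0xc8b8ed5d18aa007)) e
 (c (a (nat_lit 0x12b656af80000007)) e
 (c (a (nat_lit 0x1327800000000007)) e e))))))))
 (c z e
 (c z e
 (c (a (nat_lit 0x12dd98a402025))
 (c (a (nat_lit 0xa075308cb2bc468)) e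
 (c (a (nat_lit 0x129c71154c000008)) e e))
 (c (a (nat_lit 0x12dcaaa02031a5))
 (c (a (nat_lit 0x1615772a40000007)) e e)
 (c (a (nat_lit 0x1d792fcfdab205)) e
 (c (a (nat_lit 0x7ebec09491066)) e
 (c (a (nat_lit 0xaaa4a93f8ace6)) e
 (c z e
 (c z e
 (c (a (nat_lit 0x135dd22eed8d85)) e
 (c (a (nat_lit 0x1448a584242de5)) e
 (c (a (nat_lit 0x1d5774d4b40004)) e e)))))))))))))
 (c (a (nat_lit 0x2020202021))
 (c z e
 (c z e
 (c (a (nat_lit 0x175cc0e0404025))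
 (c (a (nat_lit 0x12b1f69fbc0b2007)) e
 (c (a (nat_lit 0xc75784ca0000008)) e e))
 (c (a (nat_lit 0x1fc10043a3a065))
 (c (a (nat_lit 0x175367e000000007)) e e)
 (c (a (nat_lit 0x1737173087ec05)) e
 (c z e
 (c z e
 (c z e
 (c z e
 (c (a (nat_lit 0x64c2c30f3b106)) e
 (c (a (nat_lit 0xfeff4d774d046)) e
 (c (a (nat_lit 0x85257a9400005)) e
 (c (a (nat_lit 0x172e4000000005)) e e)))))))))))))
 (c (nat_lit 1)
 (c (a (nat_lit 0x7774301e1a1e3))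
 (c (a (nat_lit 0x1a25a427e9ab06)) e
 (c (a (nat_lit 0x107705492f090007)) e e))
 (c (a (nat_lit 0x1e0120a08040a4))
 (c (a (nat_lit 0x1a48c7cce5200007)) e
 (c (a (nat_lit 0x14b18e0000000006)) e e))
 (c (a (nat_lit 0xfc302234704a1)) e
 (c z e
 (c z e
 (c z e
 (c z e
 (c z e
 (c (a (nat_lit 0xf624ccff294e4)) e
 (c (b (nat_lit 0x1fe59052ab4003)) e e))))))))))
 (c (a (nat_lit 0x4040404021))
 (c (a (nat_lit 0x72404e3014481)) e
 (c (a (nat_lit 0x443c20aa4a001)) e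
 (c z e
 (c z e
 (c z e
 (c z e
 (c z e
 (c (a (nat_lit 0x4dd34efac004)) e
 (c (a (nat_lit 0x1477350d800005)) e
 (c (a (nat_lit 0x10e78000000005)) e e))))))))))
 (c (nat_lit 1)
 (c (a (nat_lit 0x17777896fa00c2)) e
 (c z e
 (c (a (nat_lit 0xf9b9e1b605944)) e
 (c (a (nat_lit 0x41a181063486)) e
 (c (a (nat_lit 0x2f09479b918e6)) e
 (c z e
 (c (a (nat_lit 0x4490b90e18005)) e
 (c (a (nat_lit 0x1537af40000005)) e e))))))))
 (c (a (nat_lit 0x2020202021))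
 (c (a (nat_lit 0x3ad9240202fe4)) e
 (c (a (nat_lit 0x5668400423047)) e
 (c (a (nat_lit 0x36343e60e30c7)) e e)))
 (c (a (nat_lit 0x2020203803))
 (c (a (nat_lit 0x15b473f3bd5ec5)) e
 (c (a (nat_lit 0x3a4a42dfbdb66)) e e))
 (c (a (nat_lit 0xc0c0dabd83))
 (c (a (nat_lit 0x40506ba1c3026)) e e)
 (c (a (nat_lit 0x404c37a002)) e
 (c (a (nat_lit 0x10d2726ec444))
 (c (a (nat_lit 0x16100000000007)) e e)
 (c (a (nat_lit 0x1aba13412163)) e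
 (c (a (nat_lit 0x18f260202103)) e
 (c (a (nat_lit 0x11a02020c003)) e
 (c (a (nat_lit 0x202031e5)) e
 (c (b (nat_lit 0x2031ffe5)) e
 (c (b (nat_lit 0xc0d2bfe1a5)) e
 (c z e
 (c (b (nat_lit 0x10ffe0202005)) e
 (c (b (nat_lit 0x1fe1c1212081)) e
 (c (a (nat_lit 0xc0c04001)) e
 (c (a (nat_lit 0x20000001)) e e)))))))))))))))))))))))) Tr.c Tr.e (nat_lit 0) C.cx C.cy
noncomputable def C346 : Tr := beta% (fun (c : Nat → Tr → Tr → Tr) (e : Tr) (z : Nat) (a b : Nat → Nat) =>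
 (c (a (nat_lit 0x6060606061))
 (c z
 (c (a (nat_lit 0x1c7c60d1ac199704))
 (c z e
 (c z e
 (c z e
 (c z e
 (c z e
 (c z e
 (c z e
 (c z e
 (c z e
 (c z e
 (c z e
 (c (a (nat_lit 0x1e1c4898847f0c6e8)) e e))))))))))))
 (c (a (nat_lit 0xd6912b10ccc1046))
 (c z e
 (c z e
 (c z e
 (c z e
 (c z e
 (c z e
 (c z e
 (c z e
 (c (a (nat_lit 0x322a544a3c3c11529)) e e)))))))))
 (c (b (nat_lit 0x1b85fe2c0232404))
 (c z e
 (c z e
 (c z e
 (c z e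
 (c z e
 (c z e
 (c (a (nat_lit 0xb6b122f4e666d3a87)) e e)))))))
 (c (a (nat_lit 0x945e26244447485))
 (c z e
 (c z e
 (c z e
 (c z e
 (c z e
 (c z e
 (c z e
 (c z e
 (c z e
 (c z e
 (c (a (nat_lit 0xf51f324a000000009)) e e)))))))))))
 (c (a (nat_lit 0x70626680895e765)) e
 (c z e
 (c z e
 (c z e
 (c z e
 (c (a (nat_lit 0x34ebf233e586a4)) e
 (c (a (nat_lit 0x196d937567686724)) e
 (c z e
 (c z e
 (c (a (nat_lit 0x151171b06803e186)) e e))))))))))))))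
 (c z
 (c (b (nat_lit 0xd947fe10029a8e5))
 (c z e
 (c z e
 (c z e
 (c z e
 (c z e
 (c z e
 (c z e
 (c (a (nat_lit 0x78d4842a620a2f767)) e e))))))))
 (c (a (nat_lit 0x10e720e0c38318e6)) e
 (c (a (nat_lit 0x3612122824bd127)) e e)))
 (c z
 (c (a (nat_lit 0xca46462424973c6)) e
 (c z e
 (c z e
 (c z e
 (c z e
 (c z e
 (c z e
 (c z e
 (c z e
 (c z e
 (c (a (nat_lit 0x1494d5912c404067)) e e)))))))))))
 (c z
 (c z e
 (c z e
 (c z e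
 (c (a (nat_lit 0xb6181e1b0e8cd86)) e e))))
 (c (a (nat_lit 0x2020202031a6))
 (c z e
 (c z e
 (c z e
 (c z e
 (c z e
 (c z e
 (c (a (nat_lit 0x12953cd584402546)) e
 (c (a (nat_lit 0xeb3f0c320656f87)) e e))))))))
 (c (a (nat_lit 0x20202031afa6))
 (c z e
 (c z e
 (c z e
 (c z e
 (c (a (nat_lit 0x2beaa661e791c7)) e
 (c z e
 (c z e
 (c (b (nat_lit 0x3a13ffff3ae25a7)) e e))))))))
 (c (a (nat_lit 0x20203713b046))
 (c (a (nat_lit 0x707ab4fb6248026)) e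
 (c z e
 (c z e
 (c (a (nat_lit 0xf91906c6eb0cdc8)) e
 (c z e
 (c z e
 (c (a (nat_lit 0xac96a511e59b5c7)) e e)))))))
 (c (a (nat_lit 0x203ab5b366c6))
 (c z e
 (c z e
 (c z e
 (c (a (nat_lit 0x4e4ea8ca7891408)) e e))))
 (c (a (nat_lit 0x63896b623e3e5)) e
 (c (a (nat_lit 0xa4bd023c3c865))
 (c (a (nat_lit 0x84aec4deea67107)) e
 (c (a (nat_lit 0x12767c3c6bfbb5c7)) e e))
 (c (a (nat_lit 0x1b33604032ae43))
 (c (b (nat_lit 0xe3130a88f4fdfe7)) e e)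
 (c z e
 (c z e
 (c z e
 (c z e
 (c z e
 (c (a (nat_lit 0x1b294928c92905)) e
 (c (a (nat_lit 0x60462c845aa41)) e
 (c z e
 (c (a (nat_lit 0x1153133454c1a3)) e
 (c (b (nat_lit 0x68549ed7fffe1)) e e)))))))))))))))))))))
 (c (a (nat_lit 0x2020202021))
 (c z
 (c (a (nat_lit 0x1490a1e029083d64))
 (c z e
 (c z e
 (c z e
 (c z e
 (c z e
 (c z e
 (c z e
 (c (a (nat_lit 0xb0845496706e03c46)) e
 (c (a (nat_lit 0x5c5646664f6130767)) e e)))))))))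
 (c (a (nat_lit 0xc41e1e524b0ce06)) e
 (c (a (nat_lit 0x161648510036a66)) e
 (c z e
 (c z e
 (c z e
 (c z e
 (c z e
 (c z e
 (c (a (nat_lit 0xbad312f4ce8a245)) e
 (c (a (nat_lit 0xd32110e6cc34026)) e e)))))))))))
 (c z
 (c (a (nat_lit 0x3c3c383cb572986)) e e)
 (c (a (nat_lit 0x202020203f25))
 (c z e
 (c z e
 (c z e
 (c z e
 (c z e
 (c z e
 (c z e
 (c (a (nat_lit 0xc3263436689a0a7)) e
 (c z e
 (c (a (nat_lit 0x14147f798b90e066)) e e))))))))))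
 (c (a (nat_lit 0x20203572e6))
 (c z e
 (c z e
 (c z e
 (c z e
 (c z e
 (c z e
 (c (a (nat_lit 0x1aed47247768e086)) e e)))))))
 (c (a (nat_lit 0x20203190cf07))
 (c z e
 (c z e
 (c z e
 (c z e
 (c (a (nat_lit 0x6b0338d6ba9a686)) e e)))))
 (c (a (nat_lit 0xc0de5b178566)) e
 (c (a (nat_lit 0x1712bebe2e2e7)) e
 (c (a (nat_lit 0x11500d60202506)) e
 (c (a (nat_lit 0x137560404ccb05)) e
 (c (a (nat_lit 0x7e101074637a6))
 (c (a (nat_lit 0xacb71f5e8d209c6)) e e)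
 (c z e
 (c z e
 (c z e
 (c z e
 (c z e
 (c z e
 (c (a (nat_lit 0x19e0e047e64004)) e e)))))))))))))))))
 (c (a (nat_lit 0x2020202021))
 (c (a (nat_lit 0x202020203325))
 (c z e
 (c z e
 (c z e
 (c z e
 (c z e
 (c z e
 (c z e
 (c z e
 (c (a (nat_lit 0x852737108b469a5)) e
 (c z e
 (c (a (nat_lit 0x1a3a3676b2dc6c46)) e e)))))))))))
 (c (a (nat_lit 0x20202031b186)) e
 (c (a (nat_lit 0x202032304a07)) e
 (c (a (nat_lit 0x1617532f2a747))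
 (c z e
 (c z e
 (c z e
 (c z e
 (c (a (nat_lit 0xef832532e298f46)) e e)))))
 (c (a (nat_lit 0x1714c4cc44447)) e
 (c (a (nat_lit 0x1f1959a8e8e5a6)) e
 (c (a (nat_lit 0x1dbc67c7c40125))
 (c (a (nat_lit 0xdd3753314f8ade6)) e e)
 (c (a (nat_lit 0x1cc84a67063aa5)) e
 (c (a (nat_lit 0x4042342ad9fe6)) e e)))))))))
 (c (a (nat_lit 0x2020202021))
 (c (a (nat_lit 0x1212130f18986))
 (c (a (nat_lit 0xa12050da248424)) e
 (c z e
 (c z e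
 (c z e
 (c z e
 (c z e
 (c z e
 (c (a (nat_lit 0xa07ea6c49c97446)) e e))))))))
 (c (a (nat_lit 0x2033d2884427)) e
 (c (a (nat_lit 0x176536fa5e407))
 (c z e
 (c z e
 (c z e
 (c z e
 (c (b (nat_lit 0x9e59ff389ac8347)) e e)))))
 (c (a (nat_lit 0x19daf305a5a286))
 (c (a (nat_lit 0x34788a0838c3547)) e
 (c z e
 (c z e
 (c z e
 (c z e
 (c z e
 (c z e
 (c (a (nat_lit 0xe11110a85a00008)) e e))))))))
 (c (b (nat_lit 0x1b5a4565807fe5)) e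
 (c (a (nat_lit 0x19a5e5e3204ea5)) e
 (c z e
 (c z e
 (c z e
 (c z e
 (c (a (nat_lit 0x118d2e1679f5a6)) e
 (c z e
 (c z e
 (c z e
 (c z e
 (c z e
 (c (a (nat_lit 0xbec3783c3e3c4)) e
 (c (a (nat_lit 0x8338040400004)) e
 (c (a (nat_lit 0x13404000000004)) e e)))))))))))))))))))
 C345))))) Tr.c Tr.e (nat_lit 0) C.cx C.cy
noncomputable def C347 : Tr := beta% (fun (c : Nat → Tr → Tr → Tr) (e : Tr) (z : Nat) (a b : Nat → Nat) =>
 (c z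
 (c (a (nat_lit 0x12323225a5e08f04))
 (c z e
 (c z e
 (c z e
 (c z e
 (c z e
 (c z e
 (c z e
 (c z e
 (c z e
 (c z e
 (c z e
 (c (a (nat_lit 0x74221c8bbd6147f86)) e
 (c (a (nat_lit 0x604856a0aa9181e07)) e e)))))))))))))
 (c (a (nat_lit 0x169690fdf6f03024))
 (c z e
 (c z e
 (c z e
 (c z e
 (c z e
 (c z e
 (c z e
 (c z e
 (c z e
 (c (a (nat_lit 0x664e96c0e8b46d247)) e e))))))))))
 (c (a (nat_lit 0x4aab534c4648763)) e
 (c (a (nat_lit 0xe3227a30304e504))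
 (c z e
 (c z e
 (c z e
 (c z e
 (c z e
 (c z e
 (c z e
 (c z e
 (c z e
 (c z e
 (c (a (nat_lit 0x6af508fe280000008)) e e)))))))))))
 (c (a (nat_lit 0x7c4c5e5c7c7dcc4))
 (c z e
 (c z e
 (c z e
 (c z e
 (c (a (nat_lit 0x603e342e8eeb83947)) e
 (c z e
 (c (a (nat_lit 0x3052824e83645da07)) e e)))))))
 (c (a (nat_lit 0x7c52526e7154024))
 (c z e
 (c (a (nat_lit 0xba90972107e945347)) e
 (c z e
 (c z e
 (c z e
 (c z e
 (c (a (nat_lit 0xccb6ce372d7344007)) e e)))))))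
 (c (a (nat_lit 0xd2d2e8f384ca004))
 (c z e
 (c z e
 (c z e
 (c z e
 (c z e
 (c z e
 (c (a (nat_lit 0x18fc54f0a000000007)) e e)))))))
 (c z e
 (c z e
 (c (a (nat_lit 0x154b2e86929c984)) e
 (c (a (nat_lit 0x1410850545a5a644)) e
 (c z e
 (c z e
 (c (a (nat_lit 0x1313131270238125)) e
 (c z e
 (c (b (nat_lit 0x17d2f27fe1e024e4)) e e))))))))))))))))
 (c z
 (c (a (nat_lit 0xa319c1561003743))
 (c z e
 (c z e
 (c z e
 (c z e
 (c z e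
 (c z e
 (c (a (nat_lit 0x221e768a8e848f0e7)) e
 (c z e
 (c (a (nat_lit 0x2c4e887468de7bb86)) e e)))))))))
 (c (a (nat_lit 0x11f652202049c8c4)) e
 (c (a (nat_lit 0x926804024e475a5)) e
 (c (a (nat_lit 0x621616625b5c985))
 (c z e
 (c z e
 (c z e
 (c (a (nat_lit 0x72e8d4bd875a770e7)) e
 (c (a (nat_lit 0x4c1a1620ad5ab0e47)) e e)))))
 (c (a (nat_lit 0x10125079225a045))
 (c z e
 (c z e
 (c (a (nat_lit 0xa6c70fe729195fc87)) e e)))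
 (c z e
 (c z e
 (c z e
 (c z e
 (c z e
 (c z e
 (c (a (nat_lit 0x11f31ab8d28ae864)) e
 (c (b (nat_lit 0x1012f21fe7c1c0a5)) e e)))))))))))))
 (c z
 (c (a (nat_lit 0x1737292904c497c3))
 (c z e
 (c z e
 (c z e
 (c z e
 (c z e
 (c (a (nat_lit 0x47467c645c6488227)) e e))))))
 (c (a (nat_lit 0xc662623838c93a5))
 (c z e
 (c z e
 (c z e
 (c z e
 (c z e
 (c (a (nat_lit 0x78d1049a40b449d26)) e e))))))
 (c (a (nat_lit 0x868660cd17b44c5)) e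
 (c z e
 (c z e
 (c z e
 (c z e
 (c z e
 (c z e
 (c (a (nat_lit 0xc8bb1510c89a025)) e
 (c (a (nat_lit 0x195c7d9ab932e785)) e
 (c (a (nat_lit 0x191716350f0fcb05)) e e))))))))))))
 (c z
 (c (a (nat_lit 0x12928fafd7efb4c4)) e
 (c z e
 (c z e
 (c (a (nat_lit 0x14dd351661ddb03))
 (c (a (nat_lit 0xd0d4a07c94fd506a7)) e e)
 (c (a (nat_lit 0x134f40c7d52da064))
 (c z e
 (c (a (nat_lit 0x4a8ad01080fee96a7)) e e))
 (c z e
 (c z e
 (c z e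
 (c z e
 (c (a (nat_lit 0x193339b875e78004)) e
 (c (a (nat_lit 0x1254b7112c2079c3)) e
 (c (a (nat_lit 0x4854aed1129c285)) e
 (c (a (nat_lit 0x4270866a5853066)) e e)))))))))))))
 (c z
 (c z e
 (c (a (nat_lit 0x12d473458022b065))
 (c z e
 (c (a (nat_lit 0xf714f6a8b560f4ee8)) e e))
 (c (a (nat_lit 0x102d45a242f99225))
 (c (a (nat_lit 0x11936e2d32cf917c07)) e e)
 (c (a (nat_lit 0xe626282f3a96de5)) e
 (c (a (nat_lit 0x32323b36cce2325)) e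
 (c z e
 (c (a (nat_lit 0x47b1dbdcb2b8064)) e
 (c (a (nat_lit 0x1410536b672025c5)) e
 (c (a (nat_lit 0x11958f4da1e1d385)) e
 (c (a (nat_lit 0xde8cd2969083585)) e e))))))))))
 (c (a (nat_lit 0x202020203743))
 (c (a (nat_lit 0xe4d806040e15ba4)) e
 (c (a (nat_lit 0xca368e90a17b885)) e
 (c (a (nat_lit 0x3436363d1730e05)) e
 (c z e
 (c z e
 (c (a (nat_lit 0x72113485844024)) e
 (c (a (nat_lit 0x16da7f25424233a4)) e
 (c (a (nat_lit 0x14164fee28ae7205)) e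
 (c (a (nat_lit 0x968a7c5a5905466)) e e)))))))))
 (c (a (nat_lit 0x202020381963))
 (c (a (nat_lit 0x368e90929d06625)) e
 (c z e
 (c z e
 (c z e
 (c (a (nat_lit 0x1318afee7115f465)) e
 (c (a (nat_lit 0x1db5ceef539cf085)) e
 (c (a (nat_lit 0x12f112109f125125)) e
 (c (a (nat_lit 0x86929cc30f43126)) e
 (c (b (nat_lit 0x121c15fe2bb05a7)) e e)))))))))
 (c (a (nat_lit 0x13f20ee4))
 (c z e
 (c z e
 (c z e
 (c (a (nat_lit 0x486268ace0c7486)) e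
 (c (a (nat_lit 0x563456a0ed1c6c6)) e
 (c z e
 (c (a (nat_lit 0x44684f80fb113a6)) e e)))))))
 (c (a (nat_lit 0x4e4f10c694164)) e
 (c (a (nat_lit 0xb8684b3c02002))
 (c (a (nat_lit 0x1c44a8ccc928365)) e
 (c (a (nat_lit 0xaad2b3fba1a2a5)) e e))
 (c (a (nat_lit 0xc8ce6c303b4e1))
 (c z e
 (c z e
 (c (a (nat_lit 0xf11ac3c9e91ef46)) e
 (c (a (nat_lit 0xa0ccef0c4e00007)) e e))))
 (c (a (nat_lit 0xac92526597761))
 (c (a (nat_lit 0xe8a6a6904aef366)) e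
 (c (a (nat_lit 0x16159d7efbd64006)) e
 (c (a (nat_lit 0xe70ada680000007)) e e)))
 (c (a (nat_lit 0x38302e5655644))
 (c (a (nat_lit 0x7a8b00624600007)) e
 (c (a (nat_lit 0x1012e30000000007)) e e))
 (c (a (nat_lit 0x46467c81949c4))
 (c (a (nat_lit 0x1302200000000006)) e e)
 (c z e
 (c z e
 (c (a (nat_lit 0x1df232322c303)) e
 (c (a (nat_lit 0x1cc100c0608083)) e
 (c z e
 (c z e
 (c (a (nat_lit 0x2634368259bc1)) e
 (c (a (nat_lit 0x60c582f924a1)) e e))))))))))))))))))))))) Tr.c Tr.e (nat_lit 0) C.cx C.cy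
noncomputable def C348 : Tr := beta% (fun (c : Nat → Tr → Tr → Tr) (e : Tr) (z : Nat) (a b : Nat → Nat) =>
 (c (nat_lit 1)
 (c (a (nat_lit 0x202021))
 (c (a (nat_lit 0x60e1412061)) e
 (c (a (nat_lit 0x206095a4)) e
 (c (a (nat_lit 0x21de07a6)) e
 (c (a (nat_lit 0x6ca10f2c928)) e
 (c z e
 (c (a (nat_lit 0x11b2f38cf228)) e
 (c (a (nat_lit 0x1352a1e12507)) e
 (c (a (nat_lit 0x40113600003)) e
 (c (a (nat_lit 0x14a000000002)) e e)))))))))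
 (c (a (nat_lit 0x35e7))
 (c (a (nat_lit 0x204470c6)) e
 (c (a (nat_lit 0x4069813f2c8)) e
 (c z e
 (c z e
 (c (a (nat_lit 0x1c7e1e5eec47)) e
 (c (a (nat_lit 0x1406e9e98008)) e
 (c (a (nat_lit 0x1a0620000004)) e e)))))))
 (c (a (nat_lit 0x2038c527)) e
 (c (a (nat_lit 0xbd99af7c7)) e
 (c z e
 (c (a (nat_lit 0x10be202006)) e
 (c (a (nat_lit 0x1dc02024c6)) e
 (c (a (nat_lit 0x60501403)) e
 (c (a (nat_lit 0x60754103)) e
 (c z e
 (c z e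
 (c (a (nat_lit 0x178362a181)) e
 (c (a (nat_lit 0x141c0e041)) e
 (c (a (nat_lit 0x2a180e041)) e
 (c (a (nat_lit 0x1a1208021)) e
 (c (a (nat_lit 0x120a04001)) e
 (c (nat_lit 1) e e)))))))))))))))))
 (c (a (nat_lit 0x202021))
 (c (a (nat_lit 0x12e2e7))
 (c (a (nat_lit 0x202050b105)) e
 (c (a (nat_lit 0x755dcd89f07)) e
 (c z e
 (c z e
 (c (a (nat_lit 0x1014b63bf687)) e
 (c (a (nat_lit 0x90895200007)) e
 (c (a (nat_lit 0x1e0000000004)) e e)))))))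
 (c (a (nat_lit 0x2d1e468c8)) e
 (c z e
 (c (a (nat_lit 0x771c18187)) e
 (c (a (nat_lit 0x104027ed07)) e
 (c (b (nat_lit 0x1fe03d1f06)) e
 (c (a (nat_lit 0x115dbbbe43)) e
 (c z e
 (c z e
 (c (a (nat_lit 0x142344a481)) e
 (c (a (nat_lit 0x42230361)) e
 (c (a (nat_lit 0x20c264c1)) e
 (c (a (nat_lit 0x12263a1)) e
 (c (a (nat_lit 0x40c0c0e1)) e
 (c (a (nat_lit 0x200001)) e e)))))))))))))))
 (c (a (nat_lit 0x4041))
 (c z e
 (c (a (nat_lit 0xa5ee02006))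
 (c (a (nat_lit 0x82b160c6329)) e
 (c (a (nat_lit 0x107d9da6a009)) e e))
 (c (a (nat_lit 0x1080202527))
 (c (a (nat_lit 0x11a788000008)) e e)
 (c (a (nat_lit 0x2c3147)) e
 (c z e
 (c z e
 (c z e
 (c (a (nat_lit 0x1065e6a001)) e
 (c (a (nat_lit 0x906e5e2e1)) e
 (c (a (nat_lit 0x1002052121)) e
 (c (a (nat_lit 0x2080db43)) e
 (c (a (nat_lit 0x281a18021)) e
 (c (a (nat_lit 0x8160c001)) e
 (c (a (nat_lit 0x20000001)) e e))))))))))))))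
 (c (nat_lit 1)
 (c (a (nat_lit 0x1020202546))
 (c (a (nat_lit 0xfb6530ee2a6)) e
 (c (a (nat_lit 0x10b26a800008)) e e))
 (c (a (nat_lit 0x4a9506))
 (c (a (nat_lit 0x140760000008)) e e)
 (c z e
 (c z e
 (c z e
 (c (a (nat_lit 0x4012161c1)) e
 (c (a (nat_lit 0x1a9c3be082)) e
 (c (a (nat_lit 0x19610060c3)) e
 (c (a (nat_lit 0x1c0e10221)) e
 (c (a (nat_lit 0x60e203e1)) e
 (c (a (nat_lit 0x61c1e1)) e
 (c (a (nat_lit 0x200001)) e e))))))))))))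
 (c (nat_lit 1)
 (c (a (nat_lit 0x2e337326))
 (c (a (nat_lit 0x194000000005)) e e)
 (c z e
 (c z e
 (c (a (nat_lit 0x802e48121)) e
 (c (a (nat_lit 0x1b5b5b4d86)) e
 (c (a (nat_lit 0x1380804023)) e
 (c (a (nat_lit 0x1c100c041)) e
 (c (a (nat_lit 0x261c12a21)) e
 (c (a (nat_lit 0x20808061)) e
 (c (a (nat_lit 0xa02001)) e
 (c (nat_lit 1) e e)))))))))))
 (c (a (nat_lit 0x202021))
 (c z e
 (c (a (nat_lit 0x12b2b2b2a8)) e
 (c (a (nat_lit 0x1797d7e025)) e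
 (c (a (nat_lit 0x160e19f41)) e
 (c (a (nat_lit 0xa0c08321)) e
 (c (a (nat_lit 0x1e0c0e201)) e
 (c (a (nat_lit 0x40a261)) e
 (c (a (nat_lit 0x20214181)) e
 (c (a (nat_lit 0x400001)) e e)))))))))
 (c (a (nat_lit 0x202021))
 (c (a (nat_lit 0x2c380c1)) e
 (c (a (nat_lit 0x2180b9e2)) e
 (c (a (nat_lit 0x462e08081)) e
 (c (a (nat_lit 0x1c1c0c0e1)) e
 (c (a (nat_lit 0x60c06361)) e
 (c (a (nat_lit 0xa202a1)) e
 (c (a (nat_lit 0x20e0e001)) e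
 (c (a (nat_lit 0x20000001)) e e))))))))
 (c (a (nat_lit 0x200001))
 (c (a (nat_lit 0x200001)) e
 (c (a (nat_lit 0x40402021)) e
 (c (a (nat_lit 0x20202021)) e
 (c (a (nat_lit 0x20402021)) e
 (c (a (nat_lit 0x40402001)) e
 (c (a (nat_lit 0x20200001)) e e))))))
 (c (a (nat_lit 0x202021))
 (c (a (nat_lit 0x20202021)) e
 (c (a (nat_lit 0x20404041)) e
 (c (a (nat_lit 0x40404021)) e
 (c (a (nat_lit 0x20202001)) e
 (c (a (nat_lit 0x20000001)) e e)))))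
 (c (a (nat_lit 0x202021))
 (c (a (nat_lit 0x20202021)) e
 (c (a (nat_lit 0x20202021)) e
 (c (a (nat_lit 0x20200001)) e e)))
 (c (a (nat_lit 0x202021))
 (c (a (nat_lit 0x20202001)) e
 (c (a (nat_lit 0x20000001)) e e))
 (c (a (nat_lit 0x202021)) e
 (c (a (nat_lit 0x202041)) e
 (c (a (nat_lit 0x204041)) e
 (c (a (nat_lit 0x404041)) e
 (c (a (nat_lit 0x202041)) e
 (c (a (nat_lit 0x204041)) e
 (c (a (nat_lit 0x404001)) e
 (c (a (nat_lit 0x21)) e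
 (c (a (nat_lit 0x30c5)) e
 (c z e
 (c z e
 (c (a (nat_lit 0x1d002006)) e
 (c (a (nat_lit 0x202021)) e
 (c (a (nat_lit 0x200001)) e e)))))))))))))))))))))))))) Tr.c Tr.e (nat_lit 0) C.cx C.cy
noncomputable def C349 : Tr := beta% (fun (c : Nat → Tr → Tr → Tr) (e : Tr) (z : Nat) (a b : Nat → Nat) =>
 (c (a (nat_lit 0x202021))
 (c (a (nat_lit 0x20202021))
 (c (a (nat_lit 0x60606bf025))
 (c (a (nat_lit 0x12cccc8ca94024)) e
 (c z e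
 (c z e
 (c z e
 (c z e
 (c (a (nat_lit 0x5adfe00e08025)) e
 (c (a (nat_lit 0x1db92e41000006)) e
 (c (a (nat_lit 0x11a08000000007)) e e))))))))
 (c z e
 (c z e
 (c (a (nat_lit 0x1b6f80402005))
 (c z e
 (c (b (nat_lit 0x1ffffffad98003)) e e))
 (c (a (nat_lit 0x1ea040402004))
 (c (b (nat_lit 0x11ff1a1000004)) e e)
 (c (a (nat_lit 0x1716b635c003)) e
 (c (a (nat_lit 0x143100404005)) e
 (c (a (nat_lit 0x6040809705)) e
 (c (a (nat_lit 0x181917414e8)) e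
 (c z e
 (c z e
 (c z e
 (c (a (nat_lit 0x142020602025)) e
 (c (a (nat_lit 0xa420a00001)) e
 (c (a (nat_lit 0x32000000001)) e e)))))))))))))))
 (c (a (nat_lit 0x40402021))
 (c z e
 (c (a (nat_lit 0x188f8424e4c6))
 (c (b (nat_lit 0xf1ffff1ad0ea8)) e e)
 (c (a (nat_lit 0xe0132927246))
 (c (a (nat_lit 0x1467db6328926)) e
 (c (a (nat_lit 0xbc2dce5000007)) e e))
 (c (a (nat_lit 0x3c2424460a1))
 (c (a (nat_lit 0x332060000006)) e e)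
 (c (b (nat_lit 0x1756c2dfe346)) e
 (c (a (nat_lit 0x127272525027)) e
 (c (a (nat_lit 0x5050d2bd109)) e
 (c z e
 (c z e
 (c z e
 (c z e
 (c (a (nat_lit 0x126aa1004005)) e
 (c (a (nat_lit 0x160180000004)) e e)))))))))))))
 (c (nat_lit 1)
 (c (a (nat_lit 0x15a1e1618183))
 (c (a (nat_lit 0xc31aea1e921a4)) e
 (c (a (nat_lit 0x4095b2636184)) e
 (c (a (nat_lit 0x6f21440c00006)) e e)))
 (c (a (nat_lit 0x5e6a4c422a1))
 (c (a (nat_lit 0x1106840a04006)) e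
 (c (a (nat_lit 0x102e67e0000007)) e e))
 (c (a (nat_lit 0x1d3da0806065))
 (c (a (nat_lit 0x1767c000000006)) e e)
 (c (a (nat_lit 0x2f2ff01f04)) e
 (c (a (nat_lit 0x2f10d707)) e
 (c (a (nat_lit 0x2c9aa4bf389)) e
 (c z e
 (c z e
 (c z e
 (c (a (nat_lit 0x196b4da523e8)) e
 (c (a (nat_lit 0xed382a00007)) e e)))))))))))
 (c (a (nat_lit 0x606080a1))
 (c (a (nat_lit 0x17d7a0604004))
 (c (a (nat_lit 0x172bebe0200005)) e
 (c (a (nat_lit 0x1de66000000005)) e e))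
 (c (a (nat_lit 0x50725a4a1e1)) e
 (c (b (nat_lit 0x404e7ff7c6)) e e)))
 (c (a (nat_lit 0x20404041))
 (c (a (nat_lit 0xe0e0ec9f04)) e
 (c (a (nat_lit 0x44b6e7271a7)) e e))
 (c (a (nat_lit 0x606081))
 (c z e
 (c (a (nat_lit 0x1171d2472468)) e
 (c (a (nat_lit 0x11316de3c668)) e
 (c (b (nat_lit 0xd2dcabff828)) e e))))
 (c (a (nat_lit 0x40402021))
 (c (a (nat_lit 0x126949ca2905)) e
 (c (a (nat_lit 0x124bc8291207)) e e))
 (c (a (nat_lit 0x20203f86))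
 (c (a (nat_lit 0x7ee554cd2c6)) e e)
 (c (a (nat_lit 0x2030a926)) e
 (c z e
 (c z e
 (c (a (nat_lit 0x8d3e1e1e6)) e
 (c (a (nat_lit 0x1220202006)) e
 (c (a (nat_lit 0x20403745)) e
 (c (a (nat_lit 0x40577fc5)) e
 (c z e
 (c z e
 (c (a (nat_lit 0x1de0204024)) e
 (c (a (nat_lit 0xa2e1c021)) e
 (c (a (nat_lit 0x261a08041)) e
 (c (a (nat_lit 0x2e1000001)) e e)))))))))))))))))))))
 (c (a (nat_lit 0x202021))
 (c (a (nat_lit 0x40404041))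
 (c (a (nat_lit 0x1dddb3735324))
 (c (a (nat_lit 0x924a7ab465ee6)) e
 (c (a (nat_lit 0x80247261da667)) e
 (c z e
 (c (b (nat_lit 0x27ff9c3414007)) e e))))
 (c (a (nat_lit 0x128080402044))
 (c (a (nat_lit 0x16c4058c12046)) e
 (c (a (nat_lit 0x27bc01204027)) e
 (c (a (nat_lit 0x3645a0400007)) e e)))
 (c (a (nat_lit 0x52281030001))
 (c (a (nat_lit 0x1f10140402006)) e
 (c (a (nat_lit 0x11e76420000007)) e e))
 (c (a (nat_lit 0x1fdfe080a004))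
 (c (a (nat_lit 0x18482000000005)) e e)
 (c (a (nat_lit 0x19d5ddb39c2)) e
 (c (a (nat_lit 0xc4c6c4c5088)) e
 (c (a (nat_lit 0x202f73b3e8)) e
 (c z e
 (c z e
 (c z e
 (c (a (nat_lit 0x120725e02026)) e
 (c (a (nat_lit 0x14a240e00002)) e
 (c (a (nat_lit 0x170000000004)) e e)))))))))))))
 (c (a (nat_lit 0x80808081))
 (c (a (nat_lit 0x18303a38561))
 (c (a (nat_lit 0x1bc0e0c0a080a5)) e
 (c (a (nat_lit 0x1112afc0c06006)) e e))
 (c (a (nat_lit 0x1e5e20606025))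
 (c (a (nat_lit 0x152f4f80400006)) e
 (c (a (nat_lit 0x18880000000006)) e e))
 (c (a (nat_lit 0x9e5e38361)) e
 (c (a (nat_lit 0xe08100fb44)) e
 (c (a (nat_lit 0x2b4eb587)) e
 (c (a (nat_lit 0x208b1133169)) e
 (c z e
 (c z e
 (c (a (nat_lit 0x1bb136b27246)) e
 (c (b (nat_lit 0x1ff140e02004)) e
 (c (a (nat_lit 0x118080000004)) e e)))))))))))
 (c (a (nat_lit 0x21))
 (c (a (nat_lit 0x42301214001)) e
 (c (a (nat_lit 0x16121411603)) e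
 (c (a (nat_lit 0x402046fee6)) e
 (c (b (nat_lit 0x465fe6d1a8)) e
 (c z e
 (c z e
 (c z e
 (c (a (nat_lit 0x1919f72221e5)) e
 (c (a (nat_lit 0x19b6c0600005)) e e)))))))))
 (c (a (nat_lit 0x40404041))
 (c (a (nat_lit 0xa0609080c4)) e
 (c (a (nat_lit 0x40408351247)) e
 (c z e
 (c z e
 (c z e
 (c z e
 (c (b (nat_lit 0x41ff7c14005)) e e)))))))
 (c (a (nat_lit 0x4080a1))
 (c z e
 (c z e
 (c (a (nat_lit 0x183ba54fb7a7)) e e)))
 (c (a (nat_lit 0x20203da6))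
 (c (a (nat_lit 0xf70b42eeec6)) e
 (c (b (nat_lit 0x14487be91fe7)) e e))
 (c (a (nat_lit 0x203f2466))
 (c (a (nat_lit 0x236f621ae8)) e e)
 (c (a (nat_lit 0x694644748)) e
 (c z e
 (c (a (nat_lit 0x197a02026)) e
 (c (a (nat_lit 0x17a0202026)) e
 (c (a (nat_lit 0xa08161)) e
 (c (a (nat_lit 0x1064aa9a1)) e
 (c z e
 (c z e
 (c (a (nat_lit 0x14e0202024)) e
 (c (a (nat_lit 0xa0804001)) e
 (c (a (nat_lit 0x1c100c041)) e
 (c (a (nat_lit 0x321e04001)) e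
 (c (a (nat_lit 0x1a0000001)) e e))))))))))))))))))))
 (c (a (nat_lit 0x202021))
 (c (a (nat_lit 0x40404021))
 (c (a (nat_lit 0x18340e0c2c1))
 (c z e
 (c (a (nat_lit 0x14610180c00004)) e e))
 (c (a (nat_lit 0x4c46727e1)) e
 (c (a (nat_lit 0x222c468e1)) e
 (c (a (nat_lit 0x20203107)) e
 (c (a (nat_lit 0x20204476e7)) e
 (c (a (nat_lit 0x433d5374b68)) e
 (c z e
 (c (a (nat_lit 0x16f6356be4a8)) e
 (c (a (nat_lit 0x106a47a8c505)) e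
 (c (a (nat_lit 0x17cf2aa00004)) e
 (c (a (nat_lit 0x15a000000002)) e e)))))))))))
 (c (a (nat_lit 0x20200001))
 (c (a (nat_lit 0x28223e3c441)) e
 (c (a (nat_lit 0x203261e42)) e
 (c (a (nat_lit 0x20202890a8)) e
 (c (a (nat_lit 0x68c6a995b48)) e
 (c z e
 (c z e
 (c (a (nat_lit 0x10d24de06069)) e
 (c (a (nat_lit 0x196fe4214005)) e
 (c (a (nat_lit 0x1e0060000004)) e e)))))))))
 (c (a (nat_lit 0x40200001))
 (c (a (nat_lit 0x6080c87445)) e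
 (c (a (nat_lit 0x3e416387287)) e
 (c z e
 (c z e
 (c z e
 (c (a (nat_lit 0x1e5675aa4c48)) e
 (c (a (nat_lit 0x149381200005)) e e)))))))
 (c (a (nat_lit 0x203d25))
 (c z e
 (c (a (nat_lit 0xc90b26b8ae8)) e
 (c (a (nat_lit 0x11a54f72e568)) e e)))
 (c (a (nat_lit 0x203f1fa5))
 (c (a (nat_lit 0xd106eed94c7)) e
 (c (a (nat_lit 0x606ecc6f3a9)) e e))
 (c z
 (c (a (nat_lit 0x4112816cfa8)) e e)
 (c z e
 (c (a (nat_lit 0x870402007)) e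
 (c (a (nat_lit 0x1e40202026)) e
 (c (a (nat_lit 0x207a44)) e
 (c (a (nat_lit 0x3baf64)) e
 (c z e
 (c z e
 (c (b (nat_lit 0x1fe0e0a221)) e
 (c (a (nat_lit 0x818341)) e
 (c (a (nat_lit 0x410401)) e
 (c (a (nat_lit 0x81e341)) e
 (c (a (nat_lit 0x60400001)) e e))))))))))))))))))
 C348)))) Tr.c Tr.e (nat_lit 0) C.cx C.cy
noncomputable def C350 : Tr := beta% (fun (c : Nat → Tr → Tr → Tr) (e : Tr) (z : Nat) (a b : Nat → Nat) =>
 (c (a (nat_lit 0x20202021))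
 (c (a (nat_lit 0x20203be4a4))
 (c (a (nat_lit 0x383838b11ad45))
 (c z e
 (c (a (nat_lit 0x218ad80e8621a7)) e
 (c (a (nat_lit 0x49d54eb02e6fa6)) e
 (c (a (nat_lit 0x19b901e66a2303a6)) e
 (c (a (nat_lit 0xd322b1c1695b0c5)) e e)))))
 (c (a (nat_lit 0x1417799186ea5))
 (c (a (nat_lit 0x206b4cbe723c648)) e
 (c z e
 (c z e
 (c (a (nat_lit 0xe85af14b62be007)) e
 (c (a (nat_lit 0xb28f347c0000007)) e e)))))
 (c z e
 (c z e
 (c (a (nat_lit 0xe538629860606)) e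
 (c (a (nat_lit 0x17e2e18d441945)) e
 (c (a (nat_lit 0x8c4a51bee6004)) e
 (c z e
 (c z e
 (c (a (nat_lit 0x868e1e58a3e87)) e
 (c (a (nat_lit 0x8c5adf2f90206)) e
 (c (a (nat_lit 0x4e645f0600007)) e
 (c (a (nat_lit 0x1e00a000000001)) e e)))))))))))))
 (c (a (nat_lit 0x20302b2087))
 (c z e
 (c z e
 (c z e
 (c z e
 (c (a (nat_lit 0xac46f8432b2e7)) e
 (c z e
 (c z e
 (c z e
 (c z e
 (c (a (nat_lit 0xbc8fab24d4008)) e
 (c (a (nat_lit 0x70c9020000008)) e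
 (c (a (nat_lit 0x13400000000005)) e e))))))))))))
 (c z e
 (c (b (nat_lit 0x15dfffe06067)) e
 (c (a (nat_lit 0x1ff700604064))
 (c z e
 (c (a (nat_lit 0x5753962a2e007)) e
 (c (a (nat_lit 0x8920965854b67)) e e)))
 (c (a (nat_lit 0x114040246524))
 (c (a (nat_lit 0x10910422a40e07)) e
 (c (a (nat_lit 0xe67a4d025c008)) e e))
 (c (a (nat_lit 0x551532b743))
 (c (a (nat_lit 0xb28536880a687)) e e)
 (c z e
 (c z e
 (c (a (nat_lit 0x123331f1d1c6)) e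
 (c (a (nat_lit 0x2e07bbbafc5)) e
 (c (a (nat_lit 0xc8c6c8c7346)) e
 (c (a (nat_lit 0x202f9cfcc5)) e
 (c (b (nat_lit 0x4fdd3d1fe5)) e
 (c z e
 (c (a (nat_lit 0x13d3e56565a6)) e
 (c (b (nat_lit 0x1cdfe0206045)) e
 (c (a (nat_lit 0x21c2600001)) e
 (c (a (nat_lit 0x2000000001)) e e)))))))))))))))))))
 (c (a (nat_lit 0x20202021))
 (c (a (nat_lit 0x8349148a948)) e
 (c z e
 (c (a (nat_lit 0x1b6bc0804063)) e
 (c (a (nat_lit 0x1dadadadfda5)) e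
 (c (a (nat_lit 0xa7d6cfe72a5))
 (c (b (nat_lit 0x1d0a6902c65fe7)) e e)
 (c z e
 (c z e
 (c (a (nat_lit 0x10a7e4440405)) e
 (c (a (nat_lit 0x440b918c005)) e
 (c (b (nat_lit 0x127272675fe7)) e
 (c (a (nat_lit 0x6a8f3b0b5e8)) e
 (c (a (nat_lit 0xace2a6cd3c7)) e
 (c z e
 (c z e
 (c (b (nat_lit 0x1aefdfe02026)) e
 (c (b (nat_lit 0x1f7fe0402005)) e
 (c (a (nat_lit 0x160000001)) e e)))))))))))))))))
 (c (a (nat_lit 0x20202041))
 (c (b (nat_lit 0x1b3fe2826223))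
 (c z e
 (c z e
 (c z e
 (c z e
 (c z e
 (c z e
 (c z e
 (c (a (nat_lit 0x1b97f164000007)) e e))))))))
 (c (a (nat_lit 0x56040405765)) e
 (c z e
 (c z e
 (c z e
 (c (a (nat_lit 0x1192a50463e5)) e
 (c (a (nat_lit 0x11605cfcf925)) e
 (c (b (nat_lit 0x1bdbbbc07fe5)) e
 (c z e
 (c z e
 (c z e
 (c z e
 (c z e
 (c (a (nat_lit 0x104d82602027)) e
 (c (a (nat_lit 0x1b04c0200006)) e e)))))))))))))))
 (c (a (nat_lit 0x60606061))
 (c (a (nat_lit 0x191939385a25)) e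
 (c z e
 (c z e
 (c (a (nat_lit 0x1a3f26456544))
 (c (b (nat_lit 0x1ffffff2778006)) e e)
 (c (a (nat_lit 0xe211e3dfd85)) e
 (c (a (nat_lit 0x18397a2cc003)) e
 (c (b (nat_lit 0x140323ffa47)) e
 (c z e
 (c z e
 (c (a (nat_lit 0x2031804cc5)) e
 (c (b (nat_lit 0xbfe119cca4)) e e)))))))))))
 (c (nat_lit 1)
 (c z e
 (c (a (nat_lit 0x8384e4a8aa2))
 (c (b (nat_lit 0x1fed1ff300e4a7)) e
 (c (b (nat_lit 0x55ffcf242c007)) e e))
 (c (a (nat_lit 0x16e622e3e4c1))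
 (c (b (nat_lit 0xfff4a0a00006)) e e)
 (c (a (nat_lit 0x1d3d1d4aea65)) e
 (c z e
 (c z e
 (c z e
 (c (a (nat_lit 0xbb7126d2727)) e
 (c (a (nat_lit 0x1b44dfc0a8e4)) e
 (c (a (nat_lit 0x22fe064b285)) e e))))))))))
 (c (a (nat_lit 0x40606021))
 (c (a (nat_lit 0x14a24120e062))
 (c (a (nat_lit 0x19440381002027)) e
 (c (a (nat_lit 0x108e1da0a00006)) e e))
 (c (a (nat_lit 0x321c141d942))
 (c (a (nat_lit 0x101fe5a0000006)) e e)
 (c (b (nat_lit 0x11f1f3dffe06)) e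
 (c z e
 (c z e
 (c (a (nat_lit 0x14b87793ce28)) e
 (c (a (nat_lit 0x1372720e4968)) e
 (c (a (nat_lit 0x1c04bc27c66)) e
 (c (a (nat_lit 0x449a5527bc7)) e e)))))))))
 (c (a (nat_lit 0x40404021))
 (c (a (nat_lit 0xaaae48cbb65))
 (c (a (nat_lit 0x18658000000005)) e e)
 (c (a (nat_lit 0x38ef3da96c7)) e
 (c z e
 (c (a (nat_lit 0xbf2af078027)) e
 (c (a (nat_lit 0x16f518328c28)) e
 (c (a (nat_lit 0xc4bd1aceb48)) e
 (c (a (nat_lit 0x727528e7a26)) e e)))))))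
 (c (a (nat_lit 0x406021))
 (c z e
 (c (a (nat_lit 0x14b8152043a7)) e
 (c (a (nat_lit 0x19337395a006)) e
 (c (a (nat_lit 0x646fa6f8a87)) e e))))
 (c (a (nat_lit 0x40404041))
 (c (a (nat_lit 0x14c080e28003)) e
 (c (a (nat_lit 0x13f434aae0e6)) e
 (c z e
 (c z e
 (c z e
 (c (a (nat_lit 0x1584e00006)) e e))))))
 (c (a (nat_lit 0x40202061))
 (c (a (nat_lit 0x119abb5e2a26)) e
 (c z e
 (c z e
 (c (b (nat_lit 0xe5ff0002005)) e
 (c (a (nat_lit 0x171fe0000004)) e e)))))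
 (c (a (nat_lit 0x202041))
 (c z e
 (c (b (nat_lit 0x1ff1a120a4e6)) e
 (c (a (nat_lit 0x126807c00006)) e
 (c (a (nat_lit 0x20000000001)) e e))))
 (c (a (nat_lit 0x20202081))
 (c (a (nat_lit 0x138d28202005)) e
 (c (a (nat_lit 0x1540a0000004)) e e))
 (c (a (nat_lit 0x2032afc5))
 (c (a (nat_lit 0x6000000001)) e e)
 (c (a (nat_lit 0x4d08f97c6)) e
 (c z e
 (c (a (nat_lit 0xfb9c6a6a6)) e
 (c (a (nat_lit 0x1320202026)) e
 (c (a (nat_lit 0x40c0a0e1)) e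
 (c (a (nat_lit 0xc0e0d163)) e
 (c z e
 (c z e
 (c (a (nat_lit 0x1620406022)) e
 (c (a (nat_lit 0xc120e021)) e
 (c (a (nat_lit 0xe0a00001)) e e))))))))))))))))))))))))) Tr.c Tr.e (nat_lit 0) C.cx C.cy
noncomputable def C351 : Tr := beta% (fun (c : Nat → Tr → Tr → Tr) (e : Tr) (z : Nat) (a b : Nat → Nat) =>
 (c (a (nat_lit 0x20202021))
 (c (a (nat_lit 0x2033e96008))
 (c z e
 (c z e
 (c z e
 (c z e
 (c z e
 (c z e
 (c z e
 (c z e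
 (c z e
 (c z e
 (c (a (nat_lit 0x4055340000008)) e
 (c (a (nat_lit 0x200000000001)) e e))))))))))))
 (c z e
 (c z e
 (c (a (nat_lit 0x126600202046)) e
 (c (a (nat_lit 0x16f3d3b5d866))
 (c (a (nat_lit 0xcf491f0256828)) e e)
 (c (a (nat_lit 0xbee0e324e07))
 (c (b (nat_lit 0x528503fffe289)) e e)
 (c z e
 (c z e
 (c (a (nat_lit 0x1942616120a4)) e
 (c (a (nat_lit 0x405b9ba866)) e
 (c (b (nat_lit 0xa8a987ff008)) e
 (c (a (nat_lit 0x3a3a76d5187)) e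
 (c z e
 (c z e
 (c z e
 (c (a (nat_lit 0xe1617c02027)) e
 (c (a (nat_lit 0x15f720200007)) e e)))))))))))))))))
 (c (a (nat_lit 0x808080a1))
 (c (b (nat_lit 0x1dd0dfe04047)) e
 (c (a (nat_lit 0x13d1f2929287))
 (c z e
 (c (a (nat_lit 0x19117126830509)) e
 (c z e
 (c z e
 (c z e
 (c z e
 (c (a (nat_lit 0x11be358ce00009)) e e)))))))
 (c (a (nat_lit 0x54020205326))
 (c (a (nat_lit 0xef2c3a6a3a028)) e
 (c z e
 (c z e
 (c z e
 (c (a (nat_lit 0xb354ca6c80009)) e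
 (c (a (nat_lit 0x14aca3a0000008)) e e))))))
 (c (a (nat_lit 0x343457252c6)) e
 (c z e
 (c z e
 (c (a (nat_lit 0x1cce20402005)) e
 (c (b (nat_lit 0xe607a5a5fe5)) e
 (c (b (nat_lit 0x686ae1ff888)) e
 (c z e
 (c z e
 (c (b (nat_lit 0x1ffef6405226)) e
 (c (a (nat_lit 0x136f242d4027)) e e)))))))))))))
 (c (a (nat_lit 0x40402021))
 (c (a (nat_lit 0x183434345505))
 (c (a (nat_lit 0xe2e0ac7681208)) e
 (c (b (nat_lit 0x116d8465745fe8)) e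
 (c z e
 (c z e
 (c z e
 (c (a (nat_lit 0xa947b72d1e008)) e
 (c (a (nat_lit 0x193b85a0000007)) e e)))))))
 (c (a (nat_lit 0xf6f8fd773c6))
 (c (b (nat_lit 0x1a6a8bf5ffec07)) e
 (c z e
 (c z e
 (c (a (nat_lit 0x1d9b38868684a8)) e
 (c (a (nat_lit 0xfb5eac6c00008)) e
 (c (a (nat_lit 0x1ca90000000008)) e e))))))
 (c z e
 (c z e
 (c (a (nat_lit 0x161c3736d686)) e
 (c (a (nat_lit 0x16317f7f59c6)) e
 (c (a (nat_lit 0x6e6f30d0c28)) e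
 (c z e
 (c z e
 (c (a (nat_lit 0x1657325f685)) e
 (c (b (nat_lit 0x1feae09131c5)) e
 (c (a (nat_lit 0x5604888fbe6)) e e))))))))))))
 (c (a (nat_lit 0x40404041))
 (c (a (nat_lit 0xc8cfb74d6e5))
 (c (a (nat_lit 0x8c96996502aa6)) e
 (c z e
 (c z e
 (c (b (nat_lit 0x136bc104ffe008)) e
 (c (a (nat_lit 0x14044220000008)) e
 (c (a (nat_lit 0x14e00000000006)) e e))))))
 (c z e
 (c (a (nat_lit 0x14f0b2f2b2a5))
 (c (b (nat_lit 0x11ffeec30a0007)) e e)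
 (c (a (nat_lit 0x12981ab9ebc4)) e
 (c (b (nat_lit 0x66673bfeb07)) e
 (c (a (nat_lit 0x8732f30f008)) e
 (c z e
 (c (a (nat_lit 0xd4ff32cca47)) e
 (c (a (nat_lit 0x8f7c9408084)) e
 (c (a (nat_lit 0x60320411166)) e
 (c (a (nat_lit 0x22161a5d088)) e e)))))))))))
 (c (a (nat_lit 0x60404041))
 (c (a (nat_lit 0x11789716b684))
 (c (b (nat_lit 0x1ff14482014208)) e
 (c (a (nat_lit 0x18e5a705e16008)) e e))
 (c (a (nat_lit 0x100b8aca44e3))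
 (c (a (nat_lit 0xf0ba82200006)) e e)
 (c (b (nat_lit 0x98975dfe5e7)) e
 (c z e
 (c z e
 (c (a (nat_lit 0x1334f653ed27)) e
 (c (a (nat_lit 0xbb16887e005)) e
 (c (a (nat_lit 0x1301406308c4)) e
 (c (a (nat_lit 0x204116a7)) e e)))))))))
 (c (a (nat_lit 0x8080a0a1))
 (c (a (nat_lit 0x26271b20ee5))
 (c (a (nat_lit 0xc5061c0000005)) e e)
 (c z e
 (c z e
 (c (a (nat_lit 0x15b7bb0e20a6)) e
 (c (a (nat_lit 0xd90fd304086)) e
 (c (a (nat_lit 0x8271411ada7)) e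
 (c (a (nat_lit 0x5c5e75ffa45)) e e)))))))
 (c (a (nat_lit 0x404021))
 (c z e
 (c (a (nat_lit 0x1bd9dd696967)) e
 (c (a (nat_lit 0xe557325a146)) e
 (c (a (nat_lit 0xfeed5eee027)) e
 (c z e
 (c z e
 (c z e
 (c (a (nat_lit 0xd3799e00004)) e e))))))))
 (c (a (nat_lit 0x202001))
 (c (a (nat_lit 0xd3492526f45)) e
 (c (a (nat_lit 0x17b595cdc826)) e
 (c z e
 (c z e
 (c z e
 (c (b (nat_lit 0x1ffd01008004)) e
 (c (a (nat_lit 0x1c2020000004)) e e)))))))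
 (c (a (nat_lit 0x20404021))
 (c (a (nat_lit 0x106d0d13cde7)) e
 (c z e
 (c z e
 (c (a (nat_lit 0xbdbe2044446)) e
 (c (a (nat_lit 0x19e020200006)) e
 (c (a (nat_lit 0x2000000001)) e e))))))
 (c (a (nat_lit 0x20202021))
 (c z e
 (c (a (nat_lit 0x31c0402026)) e
 (c (a (nat_lit 0x170160a0a005)) e
 (c (a (nat_lit 0xc80a0000001)) e e))))
 (c (a (nat_lit 0x202021))
 (c (a (nat_lit 0x98320403026)) e
 (c (a (nat_lit 0x2281400001)) e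
 (c (nat_lit 1) e e)))
 (c (a (nat_lit 0x20203d65))
 (c (a (nat_lit 0x6040000001)) e e)
 (c (a (nat_lit 0x1d7465)) e
 (c (a (nat_lit 0x6d512f4e6)) e
 (c z e
 (c (a (nat_lit 0x1438696966)) e
 (c (a (nat_lit 0x1e00202045)) e
 (c (a (nat_lit 0x201a23ac1)) e
 (c (a (nat_lit 0x1598ce1)) e
 (c z e
 (c z e
 (c (b (nat_lit 0x1fe0e26181)) e
 (c (a (nat_lit 0xa08001)) e
 (c (a (nat_lit 0x80000001)) e e))))))))))))))))))))))))) Tr.c Tr.e (nat_lit 0) C.cx C.cy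
noncomputable def C352 : Tr := beta% (fun (c : Nat → Tr → Tr → Tr) (e : Tr) (z : Nat) (a b : Nat → Nat) =>
 (c (a (nat_lit 0x20204041))
 (c (a (nat_lit 0x2020404021))
 (c (a (nat_lit 0x108f0e4e4dcdc7))
 (c (a (nat_lit 0x1697d7d7d7369a47)) e
 (c z e
 (c z e
 (c (a (nat_lit 0x84ac9b06c486628)) e
 (c (a (nat_lit 0x7ea114d8d03e748)) e
 (c (a (nat_lit 0xd3670d86c4ccee7)) e
 (c (a (nat_lit 0x15b1182db20dd147)) e
 (c (a (nat_lit 0x11f3ceb070f2a747)) e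
 (c (a (nat_lit 0xd2bcdf5ac800007)) e
 (c (a (nat_lit 0x1f5cd28000000006)) e
 (c (a (nat_lit 0x1160000000000006)) e e)))))))))))
 (c (a (nat_lit 0x15204040402064))
 (c (a (nat_lit 0x10b0d1cfb73acbc8))
 (c (a (nat_lit 0xf104b50cd9d66e009)) e e)
 (c (a (nat_lit 0x133231397e947969)) e
 (c z e
 (c z e
 (c z e
 (c z e
 (c (a (nat_lit 0x109463ed5669c008)) e e)))))))
 (c (a (nat_lit 0x480c060407024))
 (c z e
 (c z e
 (c z e
 (c (a (nat_lit 0x10596f464720e288)) e e))))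
 (c (a (nat_lit 0xa020204413e7))
 (c z e
 (c (a (nat_lit 0xf71a6cdd0452709)) e
 (c (a (nat_lit 0xea4a794a50901a8)) e e)))
 (c (a (nat_lit 0x9092f9dbe36c5))
 (c (a (nat_lit 0x1e41067bce258687)) e
 (c (a (nat_lit 0x27f91a67ea2847)) e e))
 (c (a (nat_lit 0xfd395bdd38b25)) e
 (c (b (nat_lit 0x1ffff54860e0a5)) e
 (c (a (nat_lit 0xb3084c04027a5)) e
 (c (a (nat_lit 0x1484034412b9a4)) e
 (c (a (nat_lit 0x392b30f9a44a4)) e
 (c (a (nat_lit 0x1536769df48d46)) e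
 (c z e
 (c (a (nat_lit 0xb2e86c39fa5e5)) e
 (c (a (nat_lit 0x120e0b7c094006)) e
 (c (a (nat_lit 0x17b512e0000006)) e
 (c (a (nat_lit 0x11200000000003)) e e))))))))))))))))
 (c (a (nat_lit 0x2040404041))
 (c (a (nat_lit 0x40e04020de05))
 (c (a (nat_lit 0xe10ae7339d05b88))
 (c (a (nat_lit 0x118a73ae1f45600008)) e e)
 (c (a (nat_lit 0xc6b50b530764cca)) e
 (c z e
 (c z e
 (c z e
 (c (a (nat_lit 0x193c2c8eb3d1ad89)) e
 (c (a (nat_lit 0x14c92c7409000009)) e e)))))))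
 (c (a (nat_lit 0x602020285107)) e
 (c (a (nat_lit 0x4c4c4cdddbea8)) e
 (c z e
 (c z e
 (c (b (nat_lit 0x19ff98640a107)) e
 (c (b (nat_lit 0x1ff8c8802031e6)) e
 (c z e
 (c z e
 (c z e
 (c z e
 (c (b (nat_lit 0x1ffffff0a7a003)) e
 (c (b (nat_lit 0x3bfef54600007)) e
 (c (a (nat_lit 0x1adf0000000006)) e e))))))))))))))
 (c (a (nat_lit 0x2020203247))
 (c (a (nat_lit 0x5c5e5eb5326c7)) e
 (c z e
 (c z e
 (c z e
 (c z e
 (c z e
 (c z e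
 (c z e
 (c z e
 (c z e
 (c (a (nat_lit 0x3a74ff12a6009)) e
 (c (a (nat_lit 0xe35ad80000008)) e e))))))))))))
 (c (a (nat_lit 0x326a27))
 (c z e
 (c (a (nat_lit 0x9d57266ed2588))
 (c z e
 (c (a (nat_lit 0x14f3f26800000008)) e e))
 (c (b (nat_lit 0x100b01a6c97fe8))
 (c (a (nat_lit 0x1284838000000008)) e e)
 (c z e
 (c z e
 (c z e
 (c (a (nat_lit 0xf2c2d4a9a9e07)) e
 (c (a (nat_lit 0x68fce518e3588)) e e))))))))
 (c (a (nat_lit 0x30652248))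
 (c (a (nat_lit 0x11d1320db21f46))
 (c (a (nat_lit 0xbca2cd028a00007)) e
 (c (a (nat_lit 0x101eb8e000000006)) e e))
 (c (a (nat_lit 0x10ee8a2af49227))
 (c (a (nat_lit 0x1b71600000000006)) e e)
 (c z e
 (c z e
 (c (a (nat_lit 0x6cb44c6953548)) e
 (c (a (nat_lit 0x5e607aaac5169)) e
 (c (a (nat_lit 0x84b76957770c8)) e e)))))))
 (c (a (nat_lit 0x4b8f3eb46c7))
 (c (a (nat_lit 0x88966ea57a987)) e
 (c z e
 (c z e
 (c (a (nat_lit 0x3e423a6a532e8)) e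
 (c (a (nat_lit 0xc65056b5d9988)) e
 (c (a (nat_lit 0x62b2c36ddc848)) e e))))))
 (c (a (nat_lit 0x15f1e8242427))
 (c (b (nat_lit 0x45ffa4d866726)) e
 (c (a (nat_lit 0x866507007447)) e e))
 (c (a (nat_lit 0x1ef2b0300ee5))
 (c (a (nat_lit 0x5c34cc1b24ae6)) e e)
 (c (a (nat_lit 0x1df85835caa4))
 (c z e
 (c (a (nat_lit 0x101e9860c7e008)) e
 (c (a (nat_lit 0x11310740000007)) e e)))
 (c (a (nat_lit 0x14d4cd6e8b25))
 (c (a (nat_lit 0x1cf4e464200007)) e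
 (c (a (nat_lit 0x15c64000000008)) e e))
 (c (a (nat_lit 0xe0e50b06f67))
 (c (a (nat_lit 0x1ae00000000006)) e e)
 (c z e
 (c (a (nat_lit 0x102fd0305046)) e
 (c (b (nat_lit 0x1fe040203045)) e
 (c (a (nat_lit 0x20306c05)) e
 (c (a (nat_lit 0x6090ec6b45)) e
 (c z e
 (c (a (nat_lit 0x1573928fafa5)) e
 (c (a (nat_lit 0x1fb740c0a042)) e
 (c (a (nat_lit 0x178140c00002)) e
 (c (a (nat_lit 0xe000000001)) e e)))))))))))))))))))))
 (c (a (nat_lit 0x40606061))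
 (c (a (nat_lit 0x200039e7))
 (c (a (nat_lit 0x80202023d486))
 (c (a (nat_lit 0x845a8ceb4132d47)) e
 (c (a (nat_lit 0x769f2513aaf8749)) e
 (c z e
 (c z e
 (c (a (nat_lit 0x11c08a6348ac2c68)) e
 (c (a (nat_lit 0x12c8664baa474009)) e
 (c (a (nat_lit 0xfcc520920000008)) e e)))))))
 (c (a (nat_lit 0x20202cd21547)) e
 (c z e
 (c z e
 (c z e
 (c (a (nat_lit 0x115a883a44107)) e
 (c (a (nat_lit 0x128420e1080827)) e
 (c z e
 (c z e
 (c z e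
 (c (a (nat_lit 0x3cbc9ce574008)) e
 (c (b (nat_lit 0x13ff15894a007)) e
 (c (a (nat_lit 0xbd24c20000008)) e
 (c (a (nat_lit 0x18a00000000006)) e e))))))))))))))
 (c (a (nat_lit 0x20203d2988))
 (c z e
 (c z e
 (c z e
 (c z e
 (c z e
 (c z e
 (c z e
 (c z e
 (c z e
 (c (a (nat_lit 0x9692b536ac8aa)) e
 (c (a (nat_lit 0x769b2aca0000a)) e
 (c (a (nat_lit 0x134ee000000009)) e e))))))))))))
 (c (a (nat_lit 0x203cefa368)) e
 (c z e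
 (c z e
 (c (a (nat_lit 0x1244c0202026))
 (c (b (nat_lit 0x1ff50e420c1c27)) e
 (c (a (nat_lit 0x3424362a71609)) e e))
 (c (a (nat_lit 0x17919194c006))
 (c (a (nat_lit 0x68de9d8fa8228)) e e)
 (c (a (nat_lit 0x12928f0fcaa7)) e
 (c z e
 (c z e
 (c (a (nat_lit 0x83ec361a041)) e
 (c (a (nat_lit 0x3e0c0c0ff44)) e
 (c (a (nat_lit 0x2020279f26)) e
 (c (a (nat_lit 0x2207f228)) e
 (c z e
 (c z e
 (c (b (nat_lit 0x1ffe2ae6c6c6)) e
 (c (a (nat_lit 0x178440202006)) e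
 (c (a (nat_lit 0x106040000004)) e e)))))))))))))))))))
 C351))) Tr.c Tr.e (nat_lit 0) C.cx C.cy
noncomputable def C353 : Tr := beta% (fun (c : Nat → Tr → Tr → Tr) (e : Tr) (z : Nat) (a b : Nat → Nat) =>
 (c (nat_lit 1)
 (c (a (nat_lit 0x202030c8a8))
 (c z e
 (c z e
 (c z e
 (c z e
 (c z e
 (c z e
 (c z e
 (c z e
 (c z e
 (c z e
 (c (a (nat_lit 0xc03767c00007)) e
 (c (a (nat_lit 0x1fbec000000006)) e e))))))))))))
 (c (a (nat_lit 0x368b41c9)) e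
 (c z e
 (c z e
 (c (a (nat_lit 0x1302802021a6)) e
 (c (a (nat_lit 0xfcc0c10d8e6))
 (c (a (nat_lit 0x12502d78ed62a8)) e e)
 (c (a (nat_lit 0x3a2e37c35c6)) e
 (c z e
 (c z e
 (c (a (nat_lit 0x1411c0202066)) e
 (c (a (nat_lit 0xa61a8c8f147)) e
 (c (a (nat_lit 0x101009fb565)) e
 (c z e
 (c z e
 (c z e
 (c z e
 (c (a (nat_lit 0x6ff88e26007)) e e)))))))))))))))))
 (c (nat_lit 1)
 (c z e
 (c (a (nat_lit 0x1448e5858589))
 (c z e
 (c (a (nat_lit 0x109e11eb0aa0a9)) e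
 (c z e
 (c z e
 (c z e
 (c z e
 (c (a (nat_lit 0x6acd951ea600a)) e e)))))))
 (c (a (nat_lit 0x182e20402045))
 (c (a (nat_lit 0x1b90aaa4816008)) e
 (c z e
 (c z e
 (c z e
 (c z e
 (c (a (nat_lit 0x105b7d8b400009)) e e))))))
 (c (a (nat_lit 0x46040425ca6)) e
 (c z e
 (c z e
 (c z e
 (c (a (nat_lit 0x15b4ceae8e88)) e
 (c (a (nat_lit 0x188020206b86)) e
 (c z e
 (c z e
 (c z e
 (c (a (nat_lit 0xbc6e02595c8)) e e)))))))))))))
 (c (a (nat_lit 0x60606081))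
 (c (b (nat_lit 0x1ff4b2123263))
 (c (a (nat_lit 0x9f82e07c58607)) e
 (c (a (nat_lit 0x11eb03e020c028)) e
 (c z e
 (c z e
 (c z e
 (c (a (nat_lit 0xfa02d9dceee48)) e
 (c (a (nat_lit 0x36f97c8000009)) e e)))))))
 (c (a (nat_lit 0x922020236e6))
 (c (a (nat_lit 0x1cade4c7a04027)) e
 (c z e
 (c z e
 (c z e
 (c (a (nat_lit 0xa171ff80a0008)) e
 (c (a (nat_lit 0x16fc2a40000009)) e e))))))
 (c (a (nat_lit 0x80829193a6)) e
 (c z e
 (c z e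
 (c (a (nat_lit 0x1233a888a8c7)) e
 (c (a (nat_lit 0x1630bedefac8)) e
 (c z e
 (c z e
 (c z e
 (c (a (nat_lit 0xdeac52031c7)) e
 (c (a (nat_lit 0x46200291648)) e e))))))))))))
 (c (nat_lit 1)
 (c (a (nat_lit 0xa0a11d1ba5))
 (c (a (nat_lit 0xd04262711d066)) e
 (c z e
 (c z e
 (c (a (nat_lit 0x969b0a663c048)) e
 (c (a (nat_lit 0x127565c2800008)) e
 (c (a (nat_lit 0x1ca62000000008)) e e))))))
 (c z e
 (c z e
 (c (a (nat_lit 0x151cacac2c46)) e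
 (c (a (nat_lit 0xf2751d0f127)) e
 (c (a (nat_lit 0xe76553311e8)) e
 (c z e
 (c z e
 (c (a (nat_lit 0x153a8a004365)) e
 (c (a (nat_lit 0xac2a02192a6)) e
 (c (a (nat_lit 0x1e0816b9b87)) e e)))))))))))
 (c (a (nat_lit 0x20202021))
 (c z e
 (c (a (nat_lit 0xfb4e2e2a286))
 (c (a (nat_lit 0x11cda627a28008)) e e)
 (c (a (nat_lit 0x120934f4f727)) e
 (c z e
 (c z e
 (c z e
 (c (a (nat_lit 0x17f7e1814005)) e
 (c (a (nat_lit 0xb4020203006)) e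
 (c (a (nat_lit 0x2040302ae6)) e e)))))))))
 (c (nat_lit 1)
 (c (a (nat_lit 0x15234bce31a5))
 (c (a (nat_lit 0x3689e1c00005)) e e)
 (c z e
 (c z e
 (c z e
 (c (a (nat_lit 0x5062831e5e7)) e
 (c (a (nat_lit 0x166b9e58dac6)) e
 (c (a (nat_lit 0x565a60f7426)) e e)))))))
 (c (a (nat_lit 0x40808041))
 (c z e
 (c (a (nat_lit 0x107617e12127)) e
 (c (a (nat_lit 0x199b78330607)) e
 (c (b (nat_lit 0x100ab1ab5fe7)) e
 (c z e
 (c z e
 (c z e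
 (c (a (nat_lit 0x15700b00c005)) e e))))))))
 (c (a (nat_lit 0x2001))
 (c (a (nat_lit 0x1ade79b94d05)) e
 (c (a (nat_lit 0x128d4d42e6a7)) e
 (c z e
 (c z e
 (c z e
 (c (a (nat_lit 0x11626b820145)) e
 (c (a (nat_lit 0x51501e00004)) e
 (c (a (nat_lit 0x148000000004)) e e))))))))
 (c (a (nat_lit 0x40204041))
 (c (a (nat_lit 0x1355d5d6b1c6)) e
 (c z e
 (c z e
 (c (a (nat_lit 0xab1d1a24d67)) e
 (c (a (nat_lit 0x109062a02007)) e
 (c (a (nat_lit 0x13c020000005)) e e))))))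
 (c (a (nat_lit 0x20204061))
 (c z e
 (c (a (nat_lit 0x1092d6210006)) e
 (c (a (nat_lit 0x181ba8e03986)) e
 (c (a (nat_lit 0x1fe040200002)) e
 (c (a (nat_lit 0x2000000001)) e e)))))
 (c (a (nat_lit 0x20202041))
 (c (a (nat_lit 0x34e2047dc85)) e
 (c (a (nat_lit 0x1b40a0604002)) e
 (c (a (nat_lit 0x80000001)) e e)))
 (c (a (nat_lit 0x20200001))
 (c (a (nat_lit 0x1ae040200002)) e
 (c (a (nat_lit 0xa000000001)) e e))
 (c (a (nat_lit 0x20203086)) e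
 (c (a (nat_lit 0x36373cc86)) e
 (c (a (nat_lit 0x9128d4e87)) e
 (c z e
 (c (a (nat_lit 0x13d80c8c86)) e
 (c (a (nat_lit 0x1700202025)) e
 (c (a (nat_lit 0x203cc5)) e
 (c (a (nat_lit 0x202e9346)) e
 (c z e
 (c z e
 (c (a (nat_lit 0x1140202006)) e
 (c (a (nat_lit 0x501a00001)) e e))))))))))))))))))))))))) Tr.c Tr.e (nat_lit 0) C.cx C.cy
noncomputable def C354 : Tr := beta% (fun (c : Nat → Tr → Tr → Tr) (e : Tr) (z : Nat) (a b : Nat → Nat) =>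
 (c (a (nat_lit 0x40404021))
 (c (a (nat_lit 0x404001))
 (c (a (nat_lit 0x17978c89e9c1c6))
 (c (a (nat_lit 0x92ef25311ae7067))
 (c z e
 (c (a (nat_lit 0xc527c68020685189)) e
 (c z e
 (c (a (nat_lit 0xc8c4a0d134e40000a)) e e))))
 (c z e
 (c z e
 (c (a (nat_lit 0xaac0df053d06baa)) e
 (c (a (nat_lit 0x9eb923bdb4fe9c9)) e
 (c (a (nat_lit 0x866f5b069446088)) e
 (c z e
 (c z e
 (c (a (nat_lit 0x1120c3e68fea4008)) e
 (c (a (nat_lit 0xae942d420000006)) e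
 (c (a (nat_lit 0x1280600000000006)) e e)))))))))))
 (c z e
 (c (a (nat_lit 0x1fd31060404285)) e
 (c (a (nat_lit 0xdcba04041ff26))
 (c z e
 (c (a (nat_lit 0x15d4324cb1d3c88a)) e
 (c (a (nat_lit 0xc48eaebd42827ca)) e e)))
 (c (a (nat_lit 0xe840b34db37e6))
 (c (a (nat_lit 0x15280826ac28e1e9)) e
 (c (a (nat_lit 0x9070811b3848449)) e e))
 (c (a (nat_lit 0x1c308381c3d66))
 (c (a (nat_lit 0x6c497876184a4a7)) e e)
 (c z e
 (c z e
 (c (a (nat_lit 0x12f515e1c7d1a7)) e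
 (c (a (nat_lit 0xdaeca69b3a567)) e
 (c (a (nat_lit 0x1535779891cd47)) e
 (c z e
 (c z e
 (c (a (nat_lit 0x104d2ecf17c948)) e
 (c (a (nat_lit 0x1294548ea00008)) e
 (c (a (nat_lit 0x16cba000000007)) e e))))))))))))))))
 (c (a (nat_lit 0x40404001))
 (c (a (nat_lit 0x1e6e7380604185))
 (c (a (nat_lit 0x102f11d0979936a9))
 (c (a (nat_lit 0x96987c6e93263e00a)) e e)
 (c z e
 (c z e
 (c z e
 (c z e
 (c z e
 (c (a (nat_lit 0x1331efec5188e00a)) e e)))))))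
 (c (a (nat_lit 0x1291c8c8c8f047)) e
 (c (b (nat_lit 0x4a1819fe71589)) e
 (c z e
 (c z e
 (c z e
 (c z e
 (c z e
 (c z e
 (c z e
 (c z e
 (c z e
 (c (a (nat_lit 0x72e49f7c78008)) e
 (c (a (nat_lit 0x1ae940a0000006)) e e))))))))))))))
 (c (a (nat_lit 0x2040404001))
 (c (a (nat_lit 0xf4aeb0b0d7167)) e
 (c z e
 (c z e
 (c z e
 (c z e
 (c z e
 (c z e
 (c z e
 (c z e
 (c z e
 (c z e
 (c (a (nat_lit 0x13781cb1200007)) e e))))))))))))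
 (c (a (nat_lit 0x2020203328))
 (c z e
 (c (a (nat_lit 0x137739f8a5d6c9))
 (c z e
 (c (a (nat_lit 0x1a32b616eca0000a)) e e))
 (c (a (nat_lit 0x872af07125489))
 (c (a (nat_lit 0xdf2ca8600000009)) e e)
 (c z e
 (c z e
 (c z e
 (c z e
 (c (a (nat_lit 0x10eeb65f5733a8)) e e))))))))
 (c (a (nat_lit 0x3305a8))
 (c (a (nat_lit 0x5e5662284d488))
 (c (a (nat_lit 0x1ceca9d3cf4b0007)) e
 (c (a (nat_lit 0x19a8524480000008)) e e))
 (c (a (nat_lit 0xeafa668b81788))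
 (c (a (nat_lit 0xb11446000000008)) e e)
 (c z e
 (c z e
 (c z e
 (c (a (nat_lit 0x13ca6e738f5a68)) e
 (c (a (nat_lit 0xb496d122e37c9)) e e)))))))
 (c (a (nat_lit 0x2829a930a68))
 (c (a (nat_lit 0x5e224a2c9d4a8)) e
 (c z e
 (c z e
 (c (a (nat_lit 0x5ed75242e4e08)) e
 (c (a (nat_lit 0xc52aacbd12f89)) e
 (c (a (nat_lit 0xf46ed8d6e9ce9)) e e))))))
 (c (a (nat_lit 0x17b1a7e2a8)) e
 (c (a (nat_lit 0x12aa25c02008)) e
 (c (a (nat_lit 0x180bc9898506))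
 (c z e
 (c (a (nat_lit 0xbf0b98d80c6c9)) e
 (c (a (nat_lit 0xccfb184e00009)) e e)))
 (c (a (nat_lit 0xf8dedebb347))
 (c (a (nat_lit 0x1138eb0aa62008)) e
 (c (a (nat_lit 0x16b1c680000009)) e e))
 (c (a (nat_lit 0x68688d071e7))
 (c (a (nat_lit 0x1de6a000000008)) e e)
 (c z e
 (c z e
 (c (a (nat_lit 0xdd0a02022c6)) e
 (c (a (nat_lit 0x10802022d786)) e
 (c (a (nat_lit 0x235799e6)) e
 (c z e
 (c z e
 (c (a (nat_lit 0x11327488c8c7)) e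
 (c (a (nat_lit 0x1377a0202006)) e
 (c (a (nat_lit 0x178020000006)) e e)))))))))))))))))))))
 (c (a (nat_lit 0x60404041))
 (c (a (nat_lit 0x4040202021))
 (c (a (nat_lit 0x139bc08081d2a3))
 (c (a (nat_lit 0xd8f4c95783c76c7)) e
 (c (a (nat_lit 0xceab176714d4f09)) e
 (c z e
 (c z e
 (c z e
 (c (a (nat_lit 0x1f72e3e382eac028)) e
 (c (a (nat_lit 0xe136b0da7e00008)) e e)))))))
 (c (a (nat_lit 0xa2040404a1b66)) e
 (c z e
 (c z e
 (c z e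
 (c z e
 (c (a (nat_lit 0x118f8800c02268)) e
 (c z e
 (c z e
 (c z e
 (c z e
 (c (a (nat_lit 0x1a768b49407e8)) e
 (c (a (nat_lit 0x132f5a8ea00008)) e
 (c (a (nat_lit 0x18f7c000000007)) e e))))))))))))))
 (c (a (nat_lit 0x2020203ac8))
 (c z e
 (c z e
 (c z e
 (c z e
 (c z e
 (c z e
 (c z e
 (c z e
 (c z e
 (c z e
 (c (a (nat_lit 0x1056954072009)) e
 (c (a (nat_lit 0xef1af40000009)) e e))))))))))))
 (c (a (nat_lit 0x201b09a8)) e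
 (c (a (nat_lit 0x3cc5c188)) e
 (c z e
 (c (a (nat_lit 0x110961804048))
 (c z e
 (c (a (nat_lit 0x4c644a434c9)) e e))
 (c (a (nat_lit 0x188bc0402025))
 (c (a (nat_lit 0x8cde13d6887)) e e)
 (c (a (nat_lit 0x620202072c6)) e
 (c z e
 (c z e
 (c z e
 (c (a (nat_lit 0x197d8b4b2ca6)) e
 (c (a (nat_lit 0x1260202069c6)) e
 (c (a (nat_lit 0x202044ff87)) e
 (c z e
 (c z e
 (c z e
 (c (a (nat_lit 0x1d768cc26267)) e
 (c (a (nat_lit 0x144a80200007)) e e)))))))))))))))))))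
 C353))) Tr.c Tr.e (nat_lit 0) C.cx C.cy
noncomputable def C355 : Tr := beta% (fun (c : Nat → Tr → Tr → Tr) (e : Tr) (z : Nat) (a b : Nat → Nat) =>
 (c (a (nat_lit 0x2020202021))
 (c (a (nat_lit 0x106a66a5e5c345))
 (c z e
 (c (a (nat_lit 0x40806a3c02b7726))
 (c (a (nat_lit 0x12f070cbaaa968a808)) e
 (c z e
 (c (a (nat_lit 0x1c112c0c4d12870ae7)) e
 (c z e
 (c (a (nat_lit 0x1091d0b00c72cf0009)) e e)))))
 (c z e
 (c z e
 (c z e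
 (c (a (nat_lit 0x60366a3ab8c9187)) e
 (c (a (nat_lit 0xa68680dee702f66)) e
 (c (a (nat_lit 0x11c03a9b38188825)) e
 (c z e
 (c (a (nat_lit 0xccbeeef07315226)) e
 (c (a (nat_lit 0xd69d10912a963e6)) e
 (c (a (nat_lit 0xb6eaff645200006)) e e))))))))))))
 (c (a (nat_lit 0x18d151918a2c86))
 (c (a (nat_lit 0x9c9ee0f8f9b5547))
 (c (a (nat_lit 0x1793ec2b8c2d2a65c8)) e
 (c z e
 (c (a (nat_lit 0x443c424a221e1f6c9)) e
 (c z e
 (c (a (nat_lit 0x1312f08d73d060000a)) e e)))))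
 (c z e
 (c z e
 (c z e
 (c (a (nat_lit 0xb0e0b0e14f85429)) e
 (c (a (nat_lit 0x948ec33f594ae88)) e
 (c z e
 (c z e
 (c (a (nat_lit 0x1032302d4b2d8ba8)) e
 (c (a (nat_lit 0xf92d28cad85a008)) e
 (c (a (nat_lit 0x10557022e0000008)) e e)))))))))))
 (c (a (nat_lit 0x13129288910aa5))
 (c z e
 (c z e
 (c z e
 (c z e
 (c z e
 (c z e
 (c z e
 (c (a (nat_lit 0x13e8c6c4a821c308)) e e))))))))
 (c (a (nat_lit 0x1a5a10b9b38005)) e
 (c z e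
 (c (a (nat_lit 0x54e71c0202325))
 (c (a (nat_lit 0x85364c22ae948c8)) e
 (c (a (nat_lit 0x158863a6abe88628)) e e))
 (c (a (nat_lit 0xdf0a0226a13e5))
 (c (a (nat_lit 0x12a84c54652c01e6)) e e)
 (c z e
 (c z e
 (c (a (nat_lit 0xc2e1a76a20226)) e
 (c (a (nat_lit 0xb76f3a02042c6)) e
 (c (a (nat_lit 0x1c192e29446926)) e
 (c (b (nat_lit 0x12ef8fdfe4c1e7)) e
 (c z e
 (c z e
 (c (a (nat_lit 0x100faab43508a6)) e
 (c (a (nat_lit 0x134e97ec800006)) e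
 (c (a (nat_lit 0x1ab6c000000005)) e e))))))))))))))))))
 (c (a (nat_lit 0x2020202001))
 (c (a (nat_lit 0xf70504a494947))
 (c (a (nat_lit 0x70893b5f7b3eec7))
 (c z e
 (c z e
 (c z e
 (c (a (nat_lit 0xecd8d0b6ed5aec00b)) e
 (c (a (nat_lit 0x10ce6b0f2e0000000a)) e e)))))
 (c z e
 (c z e
 (c (a (nat_lit 0x100e8ff0173b75aa)) e
 (c (a (nat_lit 0xbaa0b7094546f2a)) e
 (c (a (nat_lit 0x5274a304e67e689)) e
 (c z e
 (c z e
 (c (a (nat_lit 0x104d066467c96569)) e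
 (c (a (nat_lit 0x1bf3280a67800008)) e
 (c (a (nat_lit 0x134e024000000008)) e e)))))))))))
 (c z e
 (c z e
 (c (a (nat_lit 0x1d3fdfb5759867))
 (c z e
 (c z e
 (c (a (nat_lit 0x11abecce2fb1c7ea)) e e)))
 (c (a (nat_lit 0xa8c02898e1107))
 (c (a (nat_lit 0x12f1250eea8b07c9)) e
 (c (a (nat_lit 0x1cacef9235764ae9)) e e))
 (c (a (nat_lit 0x10a0a72d7e1ce6))
 (c (a (nat_lit 0x132cb27976432647)) e e)
 (c z e
 (c z e
 (c (a (nat_lit 0x10dcdcb0a0e627)) e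
 (c (a (nat_lit 0x18b8f6a68bf567)) e
 (c (a (nat_lit 0x1010ccc7eb8448)) e
 (c z e
 (c z e
 (c z e
 (c (a (nat_lit 0x114c0f75e9e008)) e
 (c (a (nat_lit 0xe116c00000008)) e e))))))))))))))))
 (c (a (nat_lit 0x40000001))
 (c z e
 (c (a (nat_lit 0x11711200404006)) e
 (c (a (nat_lit 0xa8aa02021d2c7)) e
 (c z e
 (c z e
 (c z e
 (c z e
 (c z e
 (c z e
 (c z e
 (c z e
 (c z e
 (c z e
 (c (a (nat_lit 0xef2502f400008)) e e))))))))))))))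
 (c (nat_lit 1)
 (c (a (nat_lit 0xecda505057186)) e e)
 (c (nat_lit 1)
 (c z e
 (c z e
 (c (a (nat_lit 0x96f2903a05208))
 (c (a (nat_lit 0x1c4a992ec9000007)) e e)
 (c z e
 (c z e
 (c z e
 (c z e
 (c (a (nat_lit 0x180d46c32faa48)) e e))))))))
 (c (a (nat_lit 0x200033e7))
 (c (a (nat_lit 0x10ec8823c0f107))
 (c (a (nat_lit 0xe5364e7c9c60467)) e
 (c (a (nat_lit 0x1228cc2cc2c00008)) e e))
 (c (a (nat_lit 0x926a3810830a8))
 (c (a (nat_lit 0x1a1879a680000007)) e e)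
 (c z e
 (c z e
 (c z e
 (c (a (nat_lit 0x531c8a5ea0ec8)) e
 (c (a (nat_lit 0x134fcf0c766d68)) e e)))))))
 (c (a (nat_lit 0x20203068c7))
 (c (a (nat_lit 0x4214020c25167)) e
 (c z e
 (c z e
 (c (a (nat_lit 0x29d243004c07)) e
 (c (a (nat_lit 0x28da60102fcc7)) e
 (c (a (nat_lit 0xfa7068fd33a08)) e e))))))
 (c (a (nat_lit 0x2034eca2c7)) e
 (c z e
 (c (a (nat_lit 0x15278483c3c7))
 (c z e
 (c (a (nat_lit 0x5abfab7308808)) e
 (c (a (nat_lit 0x98ef052054009)) e e)))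
 (c (a (nat_lit 0x14e8a5a585a5))
 (c (a (nat_lit 0x8bc7ccfc602c7)) e
 (c (a (nat_lit 0xd709084000009)) e e))
 (c (a (nat_lit 0x52020207d45))
 (c (a (nat_lit 0x1635e380000008)) e e)
 (c (a (nat_lit 0x7a7aa719307)) e
 (c z e
 (c z e
 (c (a (nat_lit 0xdd0e0202386)) e
 (c (a (nat_lit 0x10e020265366)) e
 (c (a (nat_lit 0x1a1a83552e6)) e
 (c z e
 (c (a (nat_lit 0x8b81665e5e6)) e
 (c (a (nat_lit 0x11f0a0202026)) e
 (c (a (nat_lit 0x108020200006)) e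
 (c (nat_lit 1) e e)))))))))))))))))))))))) Tr.c Tr.e (nat_lit 0) C.cx C.cy
noncomputable def C356 : Tr := beta% (fun (c : Nat → Tr → Tr → Tr) (e : Tr) (z : Nat) (a b : Nat → Nat) =>
 (c (a (nat_lit 0x40404041))
 (c (a (nat_lit 0x2040404041))
 (c (a (nat_lit 0x5c247e7fbb785))
 (c (a (nat_lit 0x9cb6c0fefcb7347)) e e)
 (c z e
 (c z e
 (c z e
 (c z e
 (c z e
 (c z e
 (c z e
 (c z e
 (c z e
 (c z e
 (c z e
 (c (a (nat_lit 0x4baf8ee002006)) e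
 (c (a (nat_lit 0x14130700000007)) e e))))))))))))))
 (c (a (nat_lit 0x2020202021))
 (c z e
 (c z e
 (c z e
 (c z e
 (c z e
 (c z e
 (c z e
 (c z e
 (c z e
 (c z e
 (c z e
 (c (a (nat_lit 0x18919b34400008)) e e))))))))))))
 (c (a (nat_lit 0x20202030a9)) e
 (c (a (nat_lit 0x2020308229)) e
 (c (a (nat_lit 0x3db0c9e8)) e
 (c z e
 (c (a (nat_lit 0x1a6ac7a10008)) e
 (c (a (nat_lit 0x1daf87c06085)) e
 (c (a (nat_lit 0x52020205226)) e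
 (c (b (nat_lit 0x3ff33a47))
 (c (a (nat_lit 0x1503a000000008)) e e)
 (c z e
 (c z e
 (c (b (nat_lit 0x1ff3b8536ba5)) e
 (c (a (nat_lit 0x1300c06423)) e e))))))))))))))
 (c (a (nat_lit 0x20202021))
 (c (a (nat_lit 0x20203068)) e
 (c (a (nat_lit 0x2020324869)) e
 (c (a (nat_lit 0x38c620e9)) e
 (c z e
 (c z e
 (c (a (nat_lit 0x182420402065)) e
 (c (b (nat_lit 0x926e6fff3a6)) e e)))))))
 (c (a (nat_lit 0x60606061))
 (c (a (nat_lit 0x203b70e788)) e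
 (c z e
 (c z e
 (c (a (nat_lit 0x1d8340404005)) e
 (c (a (nat_lit 0x34020265a26)) e
 (c (a (nat_lit 0x22242921707)) e
 (c z e
 (c z e
 (c z e
 (c z e
 (c z e
 (c z e
 (c (a (nat_lit 0x1200406080a4)) e
 (c (a (nat_lit 0x204074a6)) e e))))))))))))))
 (c (a (nat_lit 0x40404041))
 (c (b (nat_lit 0x13819fe2a2a8))
 (c z e
 (c (b (nat_lit 0x1ff3710865c5a8)) e
 (c z e
 (c z e
 (c z e
 (c z e
 (c (a (nat_lit 0x9c495edc72009)) e e)))))))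
 (c (a (nat_lit 0x833208060c5))
 (c (a (nat_lit 0xc362e80a06047)) e
 (c (a (nat_lit 0x151730a6404068)) e
 (c z e
 (c z e
 (c z e
 (c (a (nat_lit 0x3bb3d8aa00009)) e e))))))
 (c (a (nat_lit 0x6a0202274c6))
 (c (a (nat_lit 0xfcfa08a58da26)) e e)
 (c (a (nat_lit 0x22c2cb9067)) e
 (c z e
 (c z e
 (c (a (nat_lit 0xbad510cac69)) e
 (c z e
 (c z e
 (c z e
 (c (a (nat_lit 0x1288a0402026)) e
 (c (a (nat_lit 0x1100604087a5)) e
 (c (a (nat_lit 0x20211148)) e e)))))))))))))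
 (c (a (nat_lit 0x202021))
 (c (a (nat_lit 0xa8020205f25))
 (c (a (nat_lit 0x1794e709a7fb46)) e
 (c (a (nat_lit 0x1b8ba9e8d19087)) e
 (c z e
 (c z e
 (c (a (nat_lit 0x8923904c3a008)) e
 (c (a (nat_lit 0x19aea5c0000008)) e e))))))
 (c (a (nat_lit 0x20214df187))
 (c (a (nat_lit 0x461e2c15005a8)) e e)
 (c z e
 (c z e
 (c (a (nat_lit 0x86b5066e648)) e
 (c (a (nat_lit 0x15fc11f20fa8)) e
 (c z e
 (c z e
 (c (a (nat_lit 0x31080c0a065)) e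
 (c (a (nat_lit 0x16a6e6c04dc5)) e
 (c (a (nat_lit 0xc0a06e3145)) e e)))))))))))
 (c (a (nat_lit 0xa0a0a0a1))
 (c (a (nat_lit 0x202c9093c6))
 (c (a (nat_lit 0x282223b25e547)) e e)
 (c z e
 (c z e
 (c z e
 (c z e
 (c z e
 (c (a (nat_lit 0x1b1fe1408024)) e
 (c (a (nat_lit 0x16e767404ce5)) e
 (c (a (nat_lit 0x80606d3f05)) e e)))))))))
 (c (a (nat_lit 0x80808081))
 (c (a (nat_lit 0x9707321a226))
 (c (a (nat_lit 0xd9dc31024005)) e e)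
 (c z e
 (c z e
 (c z e
 (c z e
 (c (a (nat_lit 0xbe95291aaa7)) e
 (c (a (nat_lit 0xe8eaeb37a45)) e e)))))))
 (c (a (nat_lit 0x404021))
 (c z e
 (c z e
 (c (a (nat_lit 0x48c4928006)) e
 (c (b (nat_lit 0xdab123fe1a7)) e
 (c z e
 (c z e
 (c z e
 (c z e
 (c (a (nat_lit 0x78b83800001)) e
 (c (a (nat_lit 0x8c000000001)) e e))))))))))
 (c (a (nat_lit 0x60608081))
 (c (a (nat_lit 0x538a3840203)) e
 (c (a (nat_lit 0x12b05048e0e7)) e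
 (c z e
 (c z e
 (c z e
 (c z e
 (c (a (nat_lit 0x130020802005)) e
 (c (a (nat_lit 0xe0000001)) e e))))))))
 (c (a (nat_lit 0xa0808061))
 (c (a (nat_lit 0x17b17164e726)) e
 (c z e
 (c z e
 (c z e
 (c (a (nat_lit 0x1373b3e054a7)) e
 (c (a (nat_lit 0x380c00001)) e
 (c (a (nat_lit 0x22000000001)) e e)))))))
 (c (a (nat_lit 0x202021))
 (c z e
 (c z e
 (c (b (nat_lit 0x1fe05d809e45)) e
 (c (a (nat_lit 0x463838001)) e
 (c (a (nat_lit 0xa0000001)) e e)))))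
 (c (a (nat_lit 0x60606061))
 (c (a (nat_lit 0x667c8003925)) e
 (c (a (nat_lit 0x26182a201)) e
 (c (a (nat_lit 0xc0c00001)) e
 (c (a (nat_lit 0x2000000001)) e e))))
 (c (a (nat_lit 0x40402001))
 (c (a (nat_lit 0x1e8020202004)) e
 (c (a (nat_lit 0xa040000001)) e e))
 (c (a (nat_lit 0x20202021))
 (c (a (nat_lit 0x2000000001)) e e)
 (c (a (nat_lit 0x20203427)) e
 (c (a (nat_lit 0x7a7bbca67)) e
 (c (a (nat_lit 0x79baa6bc7)) e
 (c z e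
 (c (a (nat_lit 0x183f2ecea5)) e
 (c (a (nat_lit 0x1060202045)) e
 (c (a (nat_lit 0x20003226)) e
 (c (a (nat_lit 0x321ee6)) e
 (c z e
 (c z e
 (c (a (nat_lit 0xff1a02007)) e e)))))))))))))))))))))))))) Tr.c Tr.e (nat_lit 0) C.cx C.cy
noncomputable def C357 : Tr := beta% (fun (c : Nat → Tr → Tr → Tr) (e : Tr) (z : Nat) (a b : Nat → Nat) =>
 (c (a (nat_lit 0x20200001))
 (c (a (nat_lit 0x2040200001))
 (c (a (nat_lit 0x174ad08e78787))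
 (c (a (nat_lit 0x12b3987a2942f385))
 (c z e
 (c (a (nat_lit 0x123c7890ed2b6aca88))
 (c (a (nat_lit 0x4295ad3a9294420000a)) e e) e))
 (c (a (nat_lit 0x86dd28ec1893f87))
 (c (a (nat_lit 0x191a150deb49674629))
 (c (a (nat_lit 0x4327167a8228000000b)) e e)
 (c z e
 (c z e
 (c z e
 (c z e
 (c (a (nat_lit 0x1cfbd71abdb5800009)) e e))))))
 (c z e
 (c z e
 (c z e
 (c z e
 (c (a (nat_lit 0xfcfb06d95da1288)) e
 (c z e
 (c z e
 (c z e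
 (c (a (nat_lit 0x13966cee056e2cc8)) e
 (c (a (nat_lit 0x1067a5248ac02008)) e e))))))))))))
 (c (a (nat_lit 0x118cea052522c9))
 (c (a (nat_lit 0x42888ea46769da8))
 (c (a (nat_lit 0x1ad7ac488928496809))
 (c (a (nat_lit 0x191c8d0cc3c00000000a)) e e)
 (c z e
 (c z e
 (c z e
 (c z e
 (c (a (nat_lit 0x144f8dafcce0000009)) e e))))))
 (c z e
 (c z e
 (c z e
 (c z e
 (c (a (nat_lit 0x10b00f553f7af989)) e
 (c z e
 (c z e
 (c z e
 (c (a (nat_lit 0x1a3396c88ac82529)) e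
 (c (a (nat_lit 0x13508d0e81e00009)) e e)))))))))))
 (c (a (nat_lit 0x122847c6e025a7)) e
 (c (a (nat_lit 0x1a5a9a90f3f566)) e
 (c z e
 (c z e
 (c (a (nat_lit 0x51252ec039147))
 (c (a (nat_lit 0x8ea38ce2e270248)) e e)
 (c z e
 (c z e
 (c z e
 (c (a (nat_lit 0x9efb1e6002448)) e
 (c (a (nat_lit 0x1bbff0a90862a7)) e
 (c (a (nat_lit 0x1a72f3534f2308)) e
 (c z e
 (c z e
 (c z e
 (c (a (nat_lit 0x10af6db5eb2008)) e e)))))))))))))))))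
 (c (a (nat_lit 0x20402001))
 (c (a (nat_lit 0x10eb2c0c070768))
 (c (a (nat_lit 0x163a2cc2cd24c28))
 (c (a (nat_lit 0x18cae687c9ec47c568)) e
 (c z e
 (c z e
 (c z e
 (c (a (nat_lit 0x1c3b1715f89a40000a)) e e)))))
 (c z e
 (c z e
 (c z e
 (c (a (nat_lit 0x688a8a80dd0ce4b)) e
 (c (a (nat_lit 0x566a84d143744e9)) e
 (c (a (nat_lit 0x1476edbd92b0989)) e
 (c z e
 (c z e
 (c (a (nat_lit 0xe13e74168c2e009)) e
 (c (a (nat_lit 0x1ff2e8e060000008)) e e)))))))))))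
 (c z e
 (c z e
 (c z e
 (c (a (nat_lit 0xb6ff0efcb5208))
 (c z e
 (c (a (nat_lit 0x14d1eda9300dccea)) e e))
 (c (a (nat_lit 0x10514ca3f078e7))
 (c (a (nat_lit 0x19df0f573cae66a8)) e e)
 (c z e
 (c z e
 (c z e
 (c (a (nat_lit 0x111794d28507c8)) e
 (c (a (nat_lit 0x1210b1a9a687a9)) e
 (c z e
 (c z e
 (c z e
 (c z e
 (c (a (nat_lit 0x1b7434aca00008)) e e))))))))))))))))
 (c (a (nat_lit 0x4040200001)) e
 (c (a (nat_lit 0x20202001)) e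
 (c (a (nat_lit 0x20202001)) e
 (c (a (nat_lit 0x4040404021))
 (c z e
 (c (a (nat_lit 0x168f4202606328))
 (c (a (nat_lit 0x15f3905304000008)) e e)
 (c z e
 (c z e
 (c z e
 (c z e
 (c (a (nat_lit 0x89677a4798f89)) e e)))))))
 (c (a (nat_lit 0x20203668))
 (c (a (nat_lit 0x166042c06100a6))
 (c (a (nat_lit 0x11eab4a8a0000006)) e e)
 (c z e
 (c z e
 (c z e
 (c (a (nat_lit 0xc79553916367)) e
 (c (a (nat_lit 0xbf06d25cd02c9)) e e))))))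
 (c (a (nat_lit 0x20396828)) e
 (c (a (nat_lit 0x3d880348)) e
 (c z e
 (c (b (nat_lit 0x13a55fe02028))
 (c (a (nat_lit 0x687d552252f28)) e
 (c (a (nat_lit 0xc4ffb78ea4009)) e e))
 (c (a (nat_lit 0x1f86004020a5))
 (c (a (nat_lit 0x3923063a00009)) e e)
 (c (a (nat_lit 0x8020205087)) e
 (c z e
 (c z e
 (c z e
 (c (a (nat_lit 0x14b932831167)) e
 (c z e
 (c z e
 (c z e
 (c (b (nat_lit 0x1132ffe02007)) e
 (c (b (nat_lit 0x131fe0202007)) e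
 (c (a (nat_lit 0x56320000001)) e e)))))))))))))))))))))))
 (c (a (nat_lit 0x20202021))
 (c (a (nat_lit 0x202001))
 (c (a (nat_lit 0x1559798e86c7a5))
 (c (a (nat_lit 0xda9d394f694f686)) e
 (c z e
 (c z e
 (c z e
 (c (a (nat_lit 0x64748c9d77090e9)) e
 (c (a (nat_lit 0x625636df0e92328)) e
 (c z e
 (c z e
 (c z e
 (c (a (nat_lit 0x1bcc852886800007)) e
 (c (a (nat_lit 0x1ee620a000000005)) e e)))))))))))
 (c z e
 (c z e
 (c z e
 (c (a (nat_lit 0x8ca70ef30d806))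
 (c (a (nat_lit 0x1eadb6276c328b09)) e
 (c (a (nat_lit 0xd13866c91914349)) e e))
 (c (a (nat_lit 0x203e2854a7247))
 (c (a (nat_lit 0x15672bf20e8d4548)) e e)
 (c z e
 (c z e
 (c z e
 (c (a (nat_lit 0xb512f83450788)) e
 (c (a (nat_lit 0x16f44f2a6ba8a8)) e
 (c z e
 (c z e
 (c z e
 (c (a (nat_lit 0x16f36da9c74007)) e
 (c (a (nat_lit 0x1df164e0000006)) e e))))))))))))))))
 (c (a (nat_lit 0x2040404041))
 (c z e
 (c z e
 (c z e
 (c z e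
 (c z e
 (c z e
 (c z e
 (c z e
 (c z e
 (c z e
 (c z e
 (c z e
 (c z e
 (c (b (nat_lit 0x14bd7fe0a00006)) e e))))))))))))))
 (c (a (nat_lit 0x2020202021)) e
 (c (a (nat_lit 0x2001)) e
 (c (a (nat_lit 0x2020203928))
 (c (b (nat_lit 0x14955b5b2dffe7))
 (c z e
 (c (a (nat_lit 0x1132c82642e00009)) e e))
 (c (b (nat_lit 0x9bbda007fe627))
 (c (b (nat_lit 0x1ea1ffe3c0000008)) e e)
 (c z e
 (c z e
 (c z e
 (c z e
 (c (b (nat_lit 0x990c347343fe9)) e e)))))))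
 (c (a (nat_lit 0x202035a7e8))
 (c (a (nat_lit 0xac9e42381f448))
 (c (a (nat_lit 0x12b64be000000006)) e e)
 (c z e
 (c z e
 (c z e
 (c (a (nat_lit 0x7bb130661b848)) e
 (c (b (nat_lit 0x196c222d3ff728)) e e))))))
 (c (a (nat_lit 0x3029a4c9)) e
 (c z e
 (c z e
 (c (a (nat_lit 0x1c6260402105))
 (c (b (nat_lit 0x1fee599fe18028)) e
 (c (a (nat_lit 0x85cec07000009)) e e))
 (c (a (nat_lit 0x3604020b646))
 (c (a (nat_lit 0x1f4a0460000008)) e e)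
 (c (a (nat_lit 0x2025d09567)) e
 (c z e
 (c z e
 (c (a (nat_lit 0x5ae122061e6)) e
 (c (a (nat_lit 0xd5160436e46)) e
 (c z e
 (c z e
 (c z e
 (c (a (nat_lit 0x1018f9214147)) e
 (c (a (nat_lit 0x17d800200007)) e e)))))))))))))))))))))
 C356))) Tr.c Tr.e (nat_lit 0) C.cx C.cy
noncomputable def C358 : Tr := beta% (fun (c : Nat → Tr → Tr → Tr) (e : Tr) (z : Nat) (a b : Nat → Nat) =>
 (c (nat_lit 1)
 (c (a (nat_lit 0x20202021))
 (c (a (nat_lit 0x20202001))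
 (c (a (nat_lit 0x20202031c7a5))
 (c (a (nat_lit 0xac92a6ccd31e964)) e
 (c z e
 (c z e
 (c z e
 (c z e
 (c z e
 (c (a (nat_lit 0x11c5c52e0616d584)) e
 (c (a (nat_lit 0xc0698b085af644)) e
 (c (a (nat_lit 0x84e5a4ec871125)) e
 (c (a (nat_lit 0xb8bca0f8e396fa5)) e
 (c (a (nat_lit 0xa084d291ae4ef64)) e
 (c z e
 (c (a (nat_lit 0xd880c8c2f8db306)) e
 (c z e
 (c (a (nat_lit 0x566a8871a400006)) e e)))))))))))))))
 (c (a (nat_lit 0x2020368ca847))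
 (c z e
 (c z e
 (c z e
 (c z e
 (c z e
 (c z e
 (c z e
 (c (a (nat_lit 0x9ab898d8911cd06)) e e))))))))
 (c (a (nat_lit 0x35b2ee6587))
 (c z e
 (c z e
 (c z e
 (c z e
 (c z e
 (c z e
 (c (b (nat_lit 0x785711ffa088346)) e e)))))))
 (c (a (nat_lit 0x173336fc7c587))
 (c z e
 (c z e
 (c z e
 (c z e
 (c z e
 (c (b (nat_lit 0xab7ff225816006)) e e))))))
 (c (a (nat_lit 0x1d1e32ce2b8686))
 (c z e
 (c z e
 (c z e
 (c (a (nat_lit 0x340476a29e7d247)) e e))))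
 (c (a (nat_lit 0x108a080561a746)) e
 (c (a (nat_lit 0xa252a204d39e5)) e
 (c (a (nat_lit 0x4e4e04f3afec5))
 (c (a (nat_lit 0x6a8a9ad53628b66)) e
 (c (a (nat_lit 0x461a41320840148)) e e))
 (c (b (nat_lit 0x5a0aebafedfe5))
 (c (a (nat_lit 0x1a2d204e44120a8)) e e)
 (c z e
 (c z e
 (c z e
 (c z e
 (c z e
 (c (a (nat_lit 0x104f2eef2f6a06)) e
 (c (a (nat_lit 0x1c10be40d3784)) e
 (c (a (nat_lit 0x8715214ff57c4)) e e)))))))))))))))))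
 (c (a (nat_lit 0x40200001))
 (c (a (nat_lit 0x3c724bc8a7)) e
 (c z e
 (c (a (nat_lit 0x1b128d4563e028)) e
 (c (a (nat_lit 0x1a2f6e6d06e847)) e
 (c (a (nat_lit 0x9c8a9e3acb227)) e
 (c z e
 (c z e
 (c z e
 (c z e
 (c z e
 (c z e
 (c z e
 (c (a (nat_lit 0x1cfa6e713161a7)) e e)))))))))))))
 (c (nat_lit 1)
 (c (a (nat_lit 0x1c1b14a483c027)) e
 (c (b (nat_lit 0x1a3fe6803fffe6)) e
 (c (a (nat_lit 0x12b3144cee11a7)) e
 (c (a (nat_lit 0x12f2ecd517cf67)) e e))))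
 (c (a (nat_lit 0x4040404041))
 (c (a (nat_lit 0xf6e50c1a6b465)) e e)
 (c (a (nat_lit 0x20200001)) e
 (c (nat_lit 1) e
 (c (a (nat_lit 0x202021))
 (c z e
 (c (a (nat_lit 0x9d3b0c5e5c5c7))
 (c (a (nat_lit 0xf908c888aa28008)) e
 (c (a (nat_lit 0x1c7e93f020000008)) e e))
 (c (a (nat_lit 0x1ae880604085e6))
 (c (a (nat_lit 0x1406418000000007)) e e) e)))
 (c (a (nat_lit 0x2040202021))
 (c (a (nat_lit 0x9f1010060a7e4)) e
 (c (a (nat_lit 0x1080c040e74dc5)) e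
 (c z e
 (c z e
 (c z e
 (c z e
 (c z e
 (c z e
 (c (a (nat_lit 0x1c19522a800006)) e
 (c (a (nat_lit 0x1647c000000006)) e e))))))))))
 (c (a (nat_lit 0x3c67))
 (c (a (nat_lit 0x282274d5b2004)) e
 (c z e
 (c z e
 (c z e
 (c z e
 (c z e
 (c (a (nat_lit 0x76e4466936008)) e
 (c (a (nat_lit 0x10658500000007)) e
 (c (a (nat_lit 0x1f000000000002)) e e)))))))))
 (c (a (nat_lit 0x20203fa507))
 (c z e
 (c z e
 (c z e
 (c z e
 (c z e
 (c (a (nat_lit 0x987a810800009)) e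
 (c (a (nat_lit 0x13008000000004)) e e)))))))
 (c (a (nat_lit 0x2038c66287)) e
 (c z e
 (c (a (nat_lit 0x128a63e18027)) e
 (c (a (nat_lit 0x14c7a5602025)) e
 (c (a (nat_lit 0x201010171e6)) e
 (c (a (nat_lit 0x202002f1be6)) e
 (c (a (nat_lit 0x16027ee5047)) e
 (c z e
 (c z e
 (c z e
 (c z e
 (c z e
 (c (a (nat_lit 0x147860e12123)) e
 (c (a (nat_lit 0x17c080400003)) e
 (c (nat_lit 1) e e)))))))))))))))))))))))))
 C357)
 (c (nat_lit 1)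
 (c (nat_lit 1) C355
 C354)
 (c (a (nat_lit 0x202021)) C352
 (c (a (nat_lit 0x202021)) C350
 (c (a (nat_lit 0x202021))
 (c (a (nat_lit 0x20202021))
 (c (a (nat_lit 0x1c38e90a4a46))
 (c (a (nat_lit 0xc29b24bc5a5a6)) e
 (c (a (nat_lit 0x83c0ea1204a27))
 (c (a (nat_lit 0x109bcd704f040007)) e e)
 (c z e
 (c z e
 (c z e
 (c z e
 (c z e
 (c (a (nat_lit 0x8e4ee786b4427)) e
 (c (b (nat_lit 0x2fff5b2430007)) e e)))))))))
 (c (a (nat_lit 0x120a0d2d2d26))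
 (c (a (nat_lit 0x14ce2581498668))
 (c (a (nat_lit 0x1cf17572c5800007)) e e)
 (c z e
 (c z e
 (c z e
 (c z e
 (c z e
 (c (b (nat_lit 0x1fe3b01fe16029)) e
 (c (a (nat_lit 0x4928c43000009)) e e))))))))
 (c (a (nat_lit 0xd0dcdcdf0c5)) e
 (c (a (nat_lit 0x60484b7ea25)) e
 (c z e
 (c z e
 (c (a (nat_lit 0x18874947c6a3)) e
 (c (a (nat_lit 0x4e0d5f5ee43)) e
 (c (a (nat_lit 0x155555404005)) e
 (c (a (nat_lit 0x149e49893885)) e
 (c (b (nat_lit 0x202cdff1c8)) e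
 (c (b (nat_lit 0xa75fffd5a66)) e
 (c z e
 (c (a (nat_lit 0x75229a52527)) e
 (c (a (nat_lit 0x1a2920202026)) e
 (c (a (nat_lit 0x126080600005)) e
 (c (a (nat_lit 0x3c000000001)) e e)))))))))))))))))
 (c (a (nat_lit 0x20202041))
 (c (a (nat_lit 0xcef6f6f7ba6))
 (c (a (nat_lit 0x12e9a78bc90067))
 (c (a (nat_lit 0x16fb922660000006)) e e)
 (c z e
 (c z e
 (c z e
 (c z e
 (c z e
 (c (a (nat_lit 0x1ba86e5604008)) e
 (c (a (nat_lit 0x11aca4a0000009)) e e))))))))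
 (c z e
 (c z e
 (c z e
 (c (a (nat_lit 0x14a860402006))
 (c (b (nat_lit 0x1ffffff04ba007)) e e)
 (c (a (nat_lit 0x1100fefedde5)) e
 (c (a (nat_lit 0x1abadacce003)) e
 (c (a (nat_lit 0x17d560e0e146)) e
 (c z e
 (c z e
 (c z e
 (c z e
 (c (a (nat_lit 0x104da04026a8)) e
 (c (a (nat_lit 0x1b46a026a007)) e
 (c (a (nat_lit 0x8160000001)) e e)))))))))))))))
 (c (a (nat_lit 0x40404041))
 (c z e
 (c z e
 (c (a (nat_lit 0x14adc18100e5))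
 (c z e
 (c (b (nat_lit 0x1ffffe47e6c008)) e e))
 (c (a (nat_lit 0x64050505046))
 (c (b (nat_lit 0x1fe050a4400007)) e e)
 (c (b (nat_lit 0x17165615dfe4)) e
 (c z e
 (c z e
 (c z e
 (c z e
 (c z e
 (c z e
 (c z e
 (c (a (nat_lit 0x1f6542000006)) e e)))))))))))))
 (c (a (nat_lit 0x40404041))
 (c (a (nat_lit 0x13008423c3e4))
 (c (a (nat_lit 0x361ac07a3d3c6)) e e)
 (c (a (nat_lit 0x348a4438201))
 (c (a (nat_lit 0x1a082f3416045)) e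
 (c (b (nat_lit 0x39ff122600008)) e e))
 (c (a (nat_lit 0x103030606085))
 (c (a (nat_lit 0x1f18260000007)) e e)
 (c (a (nat_lit 0x15d562e2c326)) e e))))
 (c (a (nat_lit 0x20202021))
 (c (a (nat_lit 0x624e3c22001))
 (c (a (nat_lit 0xa5a8860e04004)) e
 (c (a (nat_lit 0x16fc0b60000006)) e e))
 (c (a (nat_lit 0x165680606085))
 (c (a (nat_lit 0x11a2e000000007)) e e)
 (c (a (nat_lit 0x43b2b5fc46)) e
 (c z e
 (c z e
 (c z e
 (c (a (nat_lit 0xaaddd71d1a8)) e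
 (c (a (nat_lit 0xaf062ca5387)) e e))))))))
 (c (nat_lit 1)
 (c (a (nat_lit 0x40a10d7124)) e
 (c (a (nat_lit 0x80ff3d59827)) e
 (c z e
 (c (a (nat_lit 0x13d638d04067)) e
 (c (b (nat_lit 0x11f499511fe7)) e
 (c (a (nat_lit 0x342cfab3129)) e
 (c (b (nat_lit 0xb511ff8b887)) e e)))))))
 (c (a (nat_lit 0x404021))
 (c z e
 (c (b (nat_lit 0x1e5fffe62966)) e
 (c (a (nat_lit 0x1355780ee027)) e e)))
 (c (a (nat_lit 0x40404001))
 (c (a (nat_lit 0x92d89750005)) e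
 (c (a (nat_lit 0xeea7547a606)) e e))
 (c (a (nat_lit 0x20404061))
 (c (a (nat_lit 0x17b1af8f9706)) e e)
 (c (a (nat_lit 0x20203fe5))
 (c z e
 (c (a (nat_lit 0xf1679aaa007)) e
 (c (a (nat_lit 0x114760000008)) e e)))
 (c (a (nat_lit 0x203c5864))
 (c (a (nat_lit 0x9b126000006)) e
 (c (a (nat_lit 0x138000000007)) e e))
 (c (a (nat_lit 0xbbfff7667)) e
 (c z e
 (c (a (nat_lit 0xd50e86867)) e
 (c (a (nat_lit 0x10e0202026)) e
 (c (a (nat_lit 0x1a0203065)) e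
 (c (a (nat_lit 0x2050a625)) e
 (c z e
 (c z e
 (c (a (nat_lit 0x13a0606061)) e
 (c (a (nat_lit 0x1010021)) e
 (c (a (nat_lit 0x121c08001)) e
 (c (a (nat_lit 0x220000001)) e e)))))))))))))))))))))))
 C349)))))) Tr.c Tr.e (nat_lit 0) C.cx C.cy
noncomputable def C359 : Tr := beta% (fun (c : Nat → Tr → Tr → Tr) (e : Tr) (z : Nat) (a b : Nat → Nat) =>
 (c (a (nat_lit 0x20202021))
 (c (a (nat_lit 0x2020202021)) e
 (c (a (nat_lit 0x20203029)) e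
 (c (a (nat_lit 0x202031c649)) e
 (c (a (nat_lit 0x203fd44768)) e
 (c z e
 (c z e
 (c (a (nat_lit 0x1c4b60402025)) e
 (c (a (nat_lit 0x1b2d8d8df0e5))
 (c z e
 (c (a (nat_lit 0x1655c98000000a)) e e))
 (c (a (nat_lit 0x73173b5e07))
 (c (a (nat_lit 0x1d494000000008)) e e)
 (c z e
 (c z e
 (c z e
 (c z e
 (c z e
 (c z e
 (c (b (nat_lit 0x60405ff065)) e e))))))))))))))))
 (c (a (nat_lit 0x20202021))
 (c (a (nat_lit 0x20203048a8))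
 (c (a (nat_lit 0x765e852bc8bc5))
 (c (a (nat_lit 0x1287852d61604027)) e e)
 (c z e
 (c z e
 (c z e
 (c z e
 (c (a (nat_lit 0x13ce4beea22c68)) e e))))))
 (c (a (nat_lit 0x203acaa5a9)) e
 (c z e
 (c (a (nat_lit 0x1dcfe2002008)) e
 (c (a (nat_lit 0x170e20606005)) e
 (c (a (nat_lit 0xe80404115a5)) e
 (c z e
 (c z e
 (c z e
 (c z e
 (c z e
 (c z e
 (c (b (nat_lit 0x1ff4a2c34081)) e
 (c (a (nat_lit 0x14020205ae5)) e
 (c (a (nat_lit 0x404d9546)) e e)))))))))))))))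
 (c (a (nat_lit 0x60606061))
 (c (a (nat_lit 0x3ca8292488)) e
 (c z e
 (c (a (nat_lit 0x155420606005)) e
 (c (a (nat_lit 0x17a1a1ac62e5)) e
 (c z e
 (c z e
 (c z e
 (c z e
 (c z e
 (c z e
 (c (b (nat_lit 0x1fee8c2b4861)) e
 (c (a (nat_lit 0x4c301a0e0a1)) e
 (c (b (nat_lit 0x1a1a21fe1)) e e)))))))))))))
 (c (a (nat_lit 0x40404041))
 (c (a (nat_lit 0xf9780202045))
 (c (a (nat_lit 0xcd64922e303a6)) e
 (c (a (nat_lit 0x1d9cb4ea663606)) e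
 (c z e
 (c z e
 (c z e
 (c (b (nat_lit 0x1ff63ea9200008)) e e))))))
 (c (a (nat_lit 0x1c8040247205))
 (c (a (nat_lit 0x8c744e3651508)) e e)
 (c (a (nat_lit 0x25458bb0e6)) e
 (c z e
 (c z e
 (c z e
 (c z e
 (c z e
 (c (a (nat_lit 0x16894ea0e044)) e
 (c (a (nat_lit 0x117d01008363)) e
 (c (a (nat_lit 0x460e0a0f0e6)) e e)))))))))))
 (c (a (nat_lit 0x20202021))
 (c (a (nat_lit 0xa0a8ab1704))
 (c (a (nat_lit 0xb2a494c3f0e07)) e e)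
 (c z e
 (c z e
 (c z e
 (c z e
 (c z e
 (c (a (nat_lit 0x1adf918e0de6)) e
 (c (a (nat_lit 0x123d80a14763)) e
 (c (a (nat_lit 0x146d6d61d365)) e e)))))))))
 (c (a (nat_lit 0x80808081))
 (c z e
 (c z e
 (c z e
 (c z e
 (c z e
 (c (a (nat_lit 0xb2c13b38b67)) e
 (c (a (nat_lit 0x1cd656c87425)) e
 (c z e
 (c z e
 (c z e
 (c (a (nat_lit 0x145d60400004)) e
 (c (a (nat_lit 0x1d2000000004)) e e))))))))))))
 (c (a (nat_lit 0x404001))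
 (c z e
 (c z e
 (c z e
 (c z e
 (c z e
 (c z e
 (c z e
 (c z e
 (c (a (nat_lit 0x1e10a0e02006)) e
 (c (a (nat_lit 0x61c0000001)) e e))))))))))
 (c (nat_lit 1)
 (c (a (nat_lit 0x170e83c04005)) e
 (c (a (nat_lit 0x1192508b2727)) e
 (c z e
 (c z e
 (c z e
 (c z e
 (c (a (nat_lit 0x125381c20f47)) e
 (c (a (nat_lit 0x17e040200005)) e
 (c (a (nat_lit 0xe000000001)) e e)))))))))
 (c (a (nat_lit 0x40402021))
 (c (a (nat_lit 0x1290100fe7a6)) e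
 (c z e
 (c z e
 (c z e
 (c (a (nat_lit 0x10124602d6c6)) e
 (c (a (nat_lit 0x14c1c0c06002)) e
 (c (a (nat_lit 0x14120000001)) e e)))))))
 (c (a (nat_lit 0x40202021))
 (c z e
 (c z e
 (c (a (nat_lit 0x18dca0205fe5)) e
 (c (a (nat_lit 0x1612282a1)) e
 (c (a (nat_lit 0x100a00001)) e
 (c (nat_lit 1) e e))))))
 (c (a (nat_lit 0x60604041))
 (c (a (nat_lit 0x68760203046)) e
 (c (a (nat_lit 0x282c3a541)) e
 (c (a (nat_lit 0x80a12001)) e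
 (c (a (nat_lit 0xa0000001)) e e))))
 (c (a (nat_lit 0x60604061))
 (c (a (nat_lit 0xc0a0406041)) e
 (c (a (nat_lit 0x12060600001)) e
 (c (a (nat_lit 0x2000000001)) e e)))
 (c (a (nat_lit 0x40402041))
 (c (a (nat_lit 0x2020000001)) e e)
 (c (nat_lit 1) e
 (c (a (nat_lit 0x20203107)) e
 (c (a (nat_lit 0x20310267)) e
 (c (a (nat_lit 0x758298be7)) e
 (c z e
 (c (a (nat_lit 0x731608085)) e
 (c (a (nat_lit 0x10e0202025)) e
 (c (a (nat_lit 0x20a181)) e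
 (c (a (nat_lit 0x707071d65)) e e))))))))))))))))))))))) Tr.c Tr.e (nat_lit 0) C.cx C.cy
noncomputable def C360 : Tr := beta% (fun (c : Nat → Tr → Tr → Tr) (e : Tr) (z : Nat) (a b : Nat → Nat) =>
 (c (a (nat_lit 0x40404041))
 (c (a (nat_lit 0x2020202021))
 (c (a (nat_lit 0x202020203a26))
 (c (a (nat_lit 0x9090407cef1f484))
 (c z e
 (c z e
 (c z e
 (c z e
 (c z e
 (c z e
 (c (a (nat_lit 0xa55edc2e569074267)) e
 (c z e
 (c (a (nat_lit 0x322a2f8e4a4868408)) e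
 (c z e
 (c (a (nat_lit 0x231af692dc3a00008)) e e)))))))))))
 (c z e
 (c z e
 (c z e
 (c z e
 (c z e
 (c z e
 (c (a (nat_lit 0x140e4c741a41706)) e
 (c (a (nat_lit 0x1670ba6a6afdea5)) e
 (c z e
 (c z e
 (c z e
 (c z e
 (c z e
 (c (a (nat_lit 0x364c786a5fe4008)) e
 (c (a (nat_lit 0x1ffd6ca360000005)) e
 (c (a (nat_lit 0x1224a00000000006)) e e)))))))))))))))))
 (c (a (nat_lit 0x202035aba8)) e
 (c (a (nat_lit 0x114bc969)) e
 (c (a (nat_lit 0x2021eb8d4c888)) e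
 (c z e
 (c (a (nat_lit 0x1892ec02c22028)) e
 (c (a (nat_lit 0x1a37caa8044c66)) e
 (c (a (nat_lit 0xb6163e06d18c6))
 (c (a (nat_lit 0x17108a8c087458c7)) e
 (c (a (nat_lit 0x706c3e575452489)) e e))
 (c (a (nat_lit 0x303020cf91ee6))
 (c (a (nat_lit 0x4c2047283c02189)) e e)
 (c z e
 (c z e
 (c z e
 (c z e
 (c z e
 (c z e
 (c (a (nat_lit 0x1c0eba7a491c84)) e
 (c (a (nat_lit 0xb4ff028b27045)) e e)))))))))))))))))
 (c (a (nat_lit 0x2020200001))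
 (c (a (nat_lit 0x20203a110aa8))
 (c z e
 (c z e
 (c z e
 (c z e
 (c z e
 (c z e
 (c z e
 (c z e
 (c (a (nat_lit 0xae8e733262e2a08)) e e)))))))))
 (c (a (nat_lit 0x3f57d1c6a9)) e
 (c z e
 (c (a (nat_lit 0x162fe802a2a029)) e
 (c (a (nat_lit 0x1109e54540cac8)) e
 (c (a (nat_lit 0x100c0d68f18f48)) e e))))))
 (c (a (nat_lit 0x4040404041))
 (c z e
 (c z e
 (c (a (nat_lit 0x138ac8a8a3c408)) e
 (c (a (nat_lit 0x11ee2e254df367)) e e))))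
 (c (a (nat_lit 0x6060606061))
 (c (b (nat_lit 0x176a43e03fffe6)) e e)
 (c (nat_lit 1) e
 (c (a (nat_lit 0x4040404041)) e
 (c (a (nat_lit 0x6060606061)) e
 (c (a (nat_lit 0x4060604041))
 (c (a (nat_lit 0x116a49c4e48466))
 (c (a (nat_lit 0x139311a84d044007)) e
 (c (a (nat_lit 0x15ee47c800000008)) e e))
 (c (a (nat_lit 0x1dd48160e13085))
 (c (a (nat_lit 0x88dd0e000000007)) e e)
 (c z e
 (c z e
 (c z e
 (c z e
 (c z e
 (c z e
 (c (a (nat_lit 0x15df2dc5e02007)) e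
 (c (a (nat_lit 0x12ca0360000008)) e e))))))))))
 (c (a (nat_lit 0x2020204041))
 (c (a (nat_lit 0x9604060e133e5))
 (c (a (nat_lit 0x1bb3600000000006)) e e)
 (c z e
 (c z e
 (c z e
 (c z e
 (c z e
 (c z e
 (c (a (nat_lit 0x108fe845800008)) e
 (c (a (nat_lit 0x1a056000000007)) e e)))))))))
 (c (a (nat_lit 0x20001548))
 (c z e
 (c z e
 (c z e
 (c z e
 (c z e
 (c z e
 (c (a (nat_lit 0x1ff068c0000007)) e e)))))))
 (c (a (nat_lit 0x202036c1c8)) e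
 (c (a (nat_lit 0x3144e208)) e
 (c z e
 (c z e
 (c (a (nat_lit 0x196d20402525)) e
 (c (a (nat_lit 0x84040203a65)) e
 (c (a (nat_lit 0x202026d027)) e
 (c z e
 (c z e
 (c z e
 (c z e
 (c z e
 (c z e
 (c (a (nat_lit 0x1bd2a0c06004)) e
 (c (a (nat_lit 0x128060000004)) e e)))))))))))))))))))))))))
 (c (a (nat_lit 0x20202021))
 (c (nat_lit 1)
 (c (a (nat_lit 0x203e37ee0846)) e
 (c z e
 (c (a (nat_lit 0x134e68e3e3e008)) e
 (c (a (nat_lit 0x180ca969442de7)) e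
 (c (b (nat_lit 0x9c1e71ff72aa6)) e e)))))
 (c (a (nat_lit 0x2060606021))
 (c (a (nat_lit 0x1d16f0a5452028)) e
 (c (b (nat_lit 0x17c32040289fe7)) e
 (c (a (nat_lit 0x13f2b3ec71ad28)) e e)))
 (c (a (nat_lit 0x4040202021))
 (c (b (nat_lit 0x13d012bfedc446)) e e)
 (c (a (nat_lit 0x4040404041)) e
 (c (nat_lit 1) e
 (c (a (nat_lit 0x6060608061)) e
 (c (a (nat_lit 0x2040404041)) e
 (c (a (nat_lit 0x20203508)) e
 (c (a (nat_lit 0x2020384668)) e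
 (c (a (nat_lit 0x35c68268)) e
 (c z e
 (c (a (nat_lit 0x126a03602028)) e
 (c (a (nat_lit 0x13e680202026)) e
 (c (a (nat_lit 0x32020217107)) e
 (c (a (nat_lit 0x58580bf99e6)) e
 (c z e
 (c z e
 (c z e
 (c z e
 (c z e
 (c z e
 (c z e
 (c (a (nat_lit 0x1a7560200006)) e e)))))))))))))))))))))))
 (c (a (nat_lit 0x20202021))
 (c (a (nat_lit 0x4040404041))
 (c (a (nat_lit 0x106889898420c6))
 (c z e
 (c z e
 (c z e
 (c z e
 (c z e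
 (c (a (nat_lit 0xacc47f44fb5c7)) e
 (c z e
 (c z e
 (c z e
 (c z e
 (c (a (nat_lit 0x1009702240000006)) e e)))))))))))
 (c (a (nat_lit 0x17183831c62367)) e
 (c (a (nat_lit 0x10326c0b4c85a7)) e
 (c z e
 (c z e
 (c z e
 (c z e
 (c z e
 (c z e
 (c z e
 (c z e
 (c z e
 (c z e
 (c z e
 (c z e
 (c (a (nat_lit 0xa6e1083400007)) e e))))))))))))))))
 (c (a (nat_lit 0x2040404041)) e
 (c (a (nat_lit 0x6060606061)) e
 (c (a (nat_lit 0x2020204041)) e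
 (c (a (nat_lit 0x6060604041)) e
 (c (a (nat_lit 0x2020203468)) e
 (c (a (nat_lit 0x2020376828)) e
 (c (a (nat_lit 0x3daae6a8)) e
 (c z e
 (c (a (nat_lit 0x1288a4602028)) e
 (c (a (nat_lit 0x1225c0202046))
 (c (b (nat_lit 0x1ffcaa65000008)) e e)
 (c (a (nat_lit 0x800202076e5)) e
 (c (b (nat_lit 0x203feb1087)) e e)))))))))))))
 (c (a (nat_lit 0x20202021))
 (c (a (nat_lit 0x2020202021)) e
 (c (a (nat_lit 0x2040404021)) e
 (c (a (nat_lit 0x4040204041)) e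
 (c (a (nat_lit 0x2020203029)) e
 (c (a (nat_lit 0x2020342768)) e
 (c (a (nat_lit 0x2039ef0768)) e
 (c z e
 (c z e
 (c (a (nat_lit 0x1c1100202065)) e
 (c (a (nat_lit 0x1200404060a5))
 (c (a (nat_lit 0x182f41e0000009)) e e) e))))))))))
 C359))))) Tr.c Tr.e (nat_lit 0) C.cx C.cy
noncomputable def C361 : Tr := beta% (fun (c : Nat → Tr → Tr → Tr) (e : Tr) (z : Nat) (a b : Nat → Nat) =>
 (c (nat_lit 1)
 (c z
 (c (a (nat_lit 0x14e61dbe92d2d2e3)) e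
 (c (a (nat_lit 0x28b30585a5c5a5))
 (c z e
 (c z e
 (c z e
 (c z e
 (c z e
 (c z e
 (c z e
 (c (a (nat_lit 0x3ce74aa6061c178c6)) e
 (c (a (nat_lit 0x4864807c263631b07)) e
 (c (a (nat_lit 0x788e8e5a67b302cc7)) e e))))))))))
 (c (a (nat_lit 0x10f58686607b80e3))
 (c z e
 (c z e
 (c z e
 (c z e
 (c z e
 (c (a (nat_lit 0x48a8a4805848c9487)) e
 (c (a (nat_lit 0x7acc763e4e3999667)) e
 (c (a (nat_lit 0x7c9274462cd15d947)) e e))))))))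
 (c (a (nat_lit 0x128a2a23cb8c4543))
 (c z e
 (c z e
 (c z e
 (c z e
 (c (a (nat_lit 0x50dce2b2227547027)) e
 (c (a (nat_lit 0x102b28242359ccc3c7)) e
 (c (a (nat_lit 0xb68e3430a4daa72c7)) e e)))))))
 (c (a (nat_lit 0x1cfcf6d0f1b66643)) e
 (c z e
 (c z e
 (c z e
 (c (a (nat_lit 0x1554680a023c344))
 (c z e
 (c (a (nat_lit 0x105205e66441600007)) e e))
 (c z e
 (c z e
 (c z e
 (c z e
 (c (b (nat_lit 0x1494969feb212024)) e e))))))))))))))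
 (c z
 (c (a (nat_lit 0x770c1c0c04081c5))
 (c (a (nat_lit 0x6e889cdec2acb3386))
 (c z e
 (c z e
 (c z e
 (c z e
 (c z e
 (c (a (nat_lit 0x242478786e6c8673809)) e e))))))
 (c z e
 (c z e
 (c z e
 (c z e
 (c z e
 (c z e
 (c (a (nat_lit 0xdb7abe5a54228ba67)) e
 (c (a (nat_lit 0x1b13b702a77c1de0c6)) e e)))))))))
 (c (a (nat_lit 0x10c3e3e0ab22f546)) e
 (c z e
 (c z e
 (c z e
 (c z e
 (c z e
 (c (a (nat_lit 0x1548a14165a0a146))
 (c (a (nat_lit 0x1cd62ea6c400e1a007)) e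
 (c (a (nat_lit 0x19a822632300000008)) e e))
 (c (a (nat_lit 0x1567a4ef05e701a5)) e
 (c z e
 (c z e
 (c z e
 (c z e
 (c z e
 (c z e
 (c z e
 (c (a (nat_lit 0x165a1603e0000004)) e e)))))))))))))))))
 (c z
 (c z e
 (c z e
 (c z e
 (c z e
 (c z e
 (c z e
 (c z e
 (c z e
 (c (a (nat_lit 0xb2a3308232b13e6)) e e)))))))))
 (c (a (nat_lit 0x20202038e5))
 (c z e
 (c z e
 (c z e
 (c z e
 (c z e
 (c z e
 (c z e
 (c (a (nat_lit 0xb4c63e2687764c6)) e e))))))))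
 (c (a (nat_lit 0x2020200c50a6))
 (c z e
 (c z e
 (c z e
 (c z e
 (c z e
 (c (a (nat_lit 0xc2869863085ec47)) e
 (c (a (nat_lit 0x768a4738a088f46)) e
 (c z e
 (c z e
 (c (a (nat_lit 0x7046f910b361cc7)) e e))))))))))
 (c (a (nat_lit 0x808097dc14c6)) e
 (c (a (nat_lit 0x2c2d79a9347c6)) e
 (c (a (nat_lit 0x2dc78d8282826))
 (c z e
 (c z e
 (c z e
 (c (b (nat_lit 0xe33fe3a1853168)) e e))))
 (c (a (nat_lit 0xaed55818181c5))
 (c (a (nat_lit 0x712128643846626)) e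
 (c (a (nat_lit 0x102eaeaee5c4d206)) e e))
 (c (a (nat_lit 0x1451e5e5c78864))
 (c (a (nat_lit 0x186c823e2a27367)) e e)
 (c (a (nat_lit 0x13e70cf0aaf124)) e
 (c z e
 (c z e
 (c z e
 (c z e
 (c z e
 (c (a (nat_lit 0x191864a3c968a4)) e
 (c (a (nat_lit 0x14c10045650024)) e
 (c (a (nat_lit 0x885d15046b803)) e
 (c (a (nat_lit 0x9c920719d83)) e e))))))))))))))))))))
 (c (a (nat_lit 0x4040404041))
 (c z
 (c (a (nat_lit 0x1122a2a041e5da45))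
 (c z e
 (c z e
 (c z e
 (c z e
 (c z e
 (c z e
 (c z e
 (c (a (nat_lit 0x166d05c7046def26e7)) e
 (c (b (nat_lit 0x5e4c162d8bfffe5e8)) e e)))))))))
 (c z e
 (c z e
 (c z e
 (c z e
 (c z e
 (c z e
 (c (a (nat_lit 0x361c1118820c5e5)) e
 (c (a (nat_lit 0x8625087a3615ac5)) e
 (c z e
 (c z e
 (c z e
 (c z e
 (c z e
 (c z e
 (c (a (nat_lit 0x10ad16a662600006)) e
 (c (a (nat_lit 0xed8440000000006)) e e)))))))))))))))))
 (c (a (nat_lit 0x2020201c27)) e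
 (c (a (nat_lit 0x2030ab88)) e
 (c (a (nat_lit 0x202038d3b0c8)) e
 (c (a (nat_lit 0x2036138d6468)) e
 (c z e
 (c (a (nat_lit 0x130aaa40c0c028)) e
 (c (a (nat_lit 0xff340402047c6))
 (c (a (nat_lit 0x11b8d02487030d47)) e
 (c (a (nat_lit 0xf8e2b26a749bba8)) e e))
 (c (a (nat_lit 0x108525264ad266))
 (c (b (nat_lit 0x84aa5c8ca523fe8)) e e)
 (c z e
 (c z e
 (c z e
 (c z e
 (c z e
 (c z e
 (c (a (nat_lit 0x16e5e3074242a6)) e
 (c (a (nat_lit 0xd019320e11204)) e e)))))))))))))))))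
 (c (a (nat_lit 0x2020202021))
 (c (a (nat_lit 0x2020203e7ba6)) e
 (c (a (nat_lit 0x202039b5d008)) e
 (c (a (nat_lit 0x2035d30e0568)) e
 (c (a (nat_lit 0x21a183027c7a8)) e
 (c (a (nat_lit 0x14706942c2c028)) e
 (c (a (nat_lit 0x1a74accca8f287)) e
 (c (a (nat_lit 0x16454a407bce86)) e e)))))))
 (c (a (nat_lit 0x8080808061))
 (c (a (nat_lit 0x3b77724767)) e
 (c z e
 (c (a (nat_lit 0x1412eb82828008)) e
 (c (a (nat_lit 0x12cac565604347)) e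
 (c (a (nat_lit 0x1df2524b0ba806)) e
 (c (b (nat_lit 0x993a3bffde305)) e e))))))
 (c (a (nat_lit 0x2020202021))
 (c (a (nat_lit 0x145531a7878507)) e
 (c (a (nat_lit 0x173029e9e4e027)) e
 (c (a (nat_lit 0x1610302ae88c87)) e e)))
 (c (nat_lit 1)
 (c (a (nat_lit 0x152f4f2a25c6a6)) e e)
 (c (a (nat_lit 0x2020202021))
 (c z e
 (c z e
 (c z e
 (c z e
 (c z e
 (c z e
 (c z e
 (c (a (nat_lit 0xbcc73775450e8)) e
 (c z e
 (c z e
 (c z e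
 (c z e
 (c (a (nat_lit 0x1b68ecc8a00006)) e
 (c (a (nat_lit 0xf902000000004)) e e))))))))))))))
 (c (nat_lit 1)
 (c z e
 (c z e
 (c z e
 (c z e
 (c z e
 (c z e
 (c z e
 (c z e
 (c z e
 (c z e
 (c (a (nat_lit 0x107780e0c0c005)) e
 (c (a (nat_lit 0x16e06040000005)) e e))))))))))))
 (c (nat_lit 1)
 (c (a (nat_lit 0x1305a060402006))
 (c (a (nat_lit 0x16beaeeba6648126)) e
 (c (a (nat_lit 0x122a6684e3800008)) e e))
 (c (a (nat_lit 0x1821a181e1a005))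
 (c (a (nat_lit 0x11ec714d20000007)) e e)
 (c z e
 (c z e
 (c z e
 (c z e
 (c z e
 (c z e
 (c (a (nat_lit 0xdb94781a261c6)) e
 (c (a (nat_lit 0x17e60040800006)) e
 (c (a (nat_lit 0x15606000000004)) e e)))))))))))
 (c (a (nat_lit 0x2020202021))
 (c (a (nat_lit 0x545a302c2ad41))
 (c (a (nat_lit 0x11bdcfc000000006)) e e)
 (c z e
 (c z e
 (c z e
 (c z e
 (c z e
 (c z e
 (c (a (nat_lit 0x1a55ef410005)) e
 (c (a (nat_lit 0x13712700000006)) e e)))))))))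
 (c (nat_lit 1)
 (c z e
 (c z e
 (c z e
 (c z e
 (c z e
 (c z e
 (c (b (nat_lit 0x1ff82e68400006)) e e)))))))
 (c (a (nat_lit 0x20202031a6)) e
 (c (a (nat_lit 0x20203228a6))
 (c z e
 (c (a (nat_lit 0x1c4f4749096c8)) e e))
 (c (a (nat_lit 0x32c8e086))
 (c (a (nat_lit 0x5c9b2a8b685e8)) e e)
 (c (b (nat_lit 0x5f127e4dfe6)) e
 (c (a (nat_lit 0x12c967602026)) e
 (c (a (nat_lit 0x102c00202025)) e
 (c (a (nat_lit 0x182040208124)) e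
 (c (a (nat_lit 0x20411f64)) e
 (c (a (nat_lit 0x4c4e5547f85)) e
 (c z e
 (c z e
 (c z e
 (c z e
 (c (b (nat_lit 0x10bfe0402025)) e
 (c (a (nat_lit 0x480a00001)) e
 (c (a (nat_lit 0x42000000001)) e e)))))))))))))))))))))))))))) Tr.c Tr.e (nat_lit 0) C.cx C.cy
noncomputable def C362 : Tr := beta% (fun (c : Nat → Tr → Tr → Tr) (e : Tr) (z : Nat) (a b : Nat → Nat) =>
 (c (a (nat_lit 0x40404041))
 (c (a (nat_lit 0x2020203088))
 (c (a (nat_lit 0x1240206299a004))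
 (c (a (nat_lit 0x1cd823aea8888ac6)) e e)
 (c z e
 (c z e
 (c z e
 (c z e
 (c (a (nat_lit 0xaf2734d0e2087)) e
 (c (b (nat_lit 0x111feca5fd67a6)) e
 (c (a (nat_lit 0x86266afdbe247)) e e))))))))
 (c (a (nat_lit 0x2020308729)) e
 (c (a (nat_lit 0x20342bc3e9)) e
 (c z e
 (c z e
 (c (a (nat_lit 0x1a4b46260606))
 (c z e
 (c (a (nat_lit 0x485b2aea6830a)) e
 (c (a (nat_lit 0x9ceb5e5c0000a)) e e)))
 (c (a (nat_lit 0xce040403d65))
 (c (a (nat_lit 0x89d3369e06008)) e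
 (c (a (nat_lit 0x112e844000000a)) e e))
 (c (a (nat_lit 0x5052970b5c7))
 (c (a (nat_lit 0x15428000000009)) e e)
 (c z e
 (c z e
 (c z e
 (c (a (nat_lit 0x1bad09e02006)) e
 (c (a (nat_lit 0x19f380204005)) e
 (c (a (nat_lit 0xa0060405046)) e
 (c (a (nat_lit 0x2020302d86)) e e)))))))))))))))
 (c (a (nat_lit 0x20202021))
 (c (a (nat_lit 0x203c4704a8)) e
 (c z e
 (c z e
 (c (a (nat_lit 0x1a5240202005)) e
 (c (a (nat_lit 0x13402020a665)) e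
 (c z e
 (c z e
 (c z e
 (c z e
 (c (a (nat_lit 0x1710a0c08006)) e
 (c (a (nat_lit 0x10a100a02006)) e
 (c (a (nat_lit 0x523e0809924)) e
 (c (a (nat_lit 0x1604066d346)) e e)))))))))))))
 (c (a (nat_lit 0x20202021))
 (c (a (nat_lit 0x1bd1e7802007)) e
 (c (a (nat_lit 0x1e53e0606006))
 (c (a (nat_lit 0x16183b4368e206)) e
 (c (a (nat_lit 0x64768c20793c9)) e e))
 (c (a (nat_lit 0x11c464470a86))
 (c (a (nat_lit 0xaefe6f695d6c8)) e e)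
 (c z e
 (c z e
 (c z e
 (c z e
 (c (a (nat_lit 0x167544632003)) e
 (c (a (nat_lit 0x14e66320c0e3)) e
 (c (a (nat_lit 0x4e200e071e3)) e
 (c (a (nat_lit 0x1e18165f025)) e e)))))))))))
 (c (a (nat_lit 0x80808081))
 (c (a (nat_lit 0x112040244825))
 (c (a (nat_lit 0x3e62465065ec7)) e
 (c (a (nat_lit 0x3238129aa5029)) e e))
 (c (a (nat_lit 0x1254f5558e5))
 (c (a (nat_lit 0x7028e4711a7a9)) e e)
 (c z e
 (c z e
 (c z e
 (c (a (nat_lit 0x12f2d5755208)) e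
 (c (a (nat_lit 0x125011ce6107)) e
 (c (a (nat_lit 0x70520a0bb04)) e
 (c (a (nat_lit 0x220404d1205)) e
 (c z e
 (c z e
 (c (a (nat_lit 0xd1282008004)) e
 (c (a (nat_lit 0x13c321000004)) e
 (c (a (nat_lit 0x112000000001)) e e))))))))))))))
 (c (a (nat_lit 0x60606061))
 (c (a (nat_lit 0xa4bced37a46))
 (c (a (nat_lit 0x8350dd549b2a7)) e e)
 (c z e
 (c z e
 (c (a (nat_lit 0x1b9b79591548)) e
 (c (a (nat_lit 0x14d659d66da8)) e
 (c (a (nat_lit 0xdb1b719b547)) e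
 (c (a (nat_lit 0xa88a8b97f05)) e
 (c z e
 (c z e
 (c (a (nat_lit 0x87763a02005)) e
 (c (a (nat_lit 0x18a4e0404005)) e
 (c (a (nat_lit 0x12a060000003)) e e))))))))))))
 (c (a (nat_lit 0x404021))
 (c z e
 (c (a (nat_lit 0x102bcd0cec08)) e
 (c (a (nat_lit 0x1071b1adcac8)) e
 (c z e
 (c z e
 (c z e
 (c z e
 (c (a (nat_lit 0x133d96806005)) e
 (c (a (nat_lit 0x1df6e120ece5)) e
 (c (a (nat_lit 0x154040400004)) e
 (c (nat_lit 1) e e)))))))))))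
 (c (a (nat_lit 0x40404041))
 (c (a (nat_lit 0x1a7f7f500265)) e
 (c (a (nat_lit 0x195691cf0827)) e
 (c z e
 (c z e
 (c z e
 (c (a (nat_lit 0x17bcf8b04006)) e
 (c (a (nat_lit 0x1dd991403446)) e
 (c (a (nat_lit 0x14e060402004)) e
 (c (a (nat_lit 0x160a0000001)) e e)))))))))
 (c (a (nat_lit 0x40404041))
 (c (a (nat_lit 0x112fcfd20706)) e
 (c z e
 (c z e
 (c (a (nat_lit 0xd38d086c005)) e
 (c (a (nat_lit 0xca883203066)) e
 (c (a (nat_lit 0x10a040202004)) e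
 (c (a (nat_lit 0x20c0800001)) e
 (c (a (nat_lit 0x2000000001)) e e))))))))
 (c (a (nat_lit 0x20202021))
 (c z e
 (c (a (nat_lit 0xdba11408025)) e
 (c (a (nat_lit 0xc8840203026)) e
 (c (a (nat_lit 0x6080a0e181)) e
 (c (a (nat_lit 0x6100c10001)) e
 (c (a (nat_lit 0x80000001)) e e))))))
 (c (a (nat_lit 0x40404041))
 (c (a (nat_lit 0x68460203066)) e
 (c (a (nat_lit 0x101c1a0a001)) e
 (c (a (nat_lit 0xc0e0a06001)) e
 (c (a (nat_lit 0x4080000001)) e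
 (c (a (nat_lit 0x4000000001)) e e)))))
 (c (a (nat_lit 0x20200001))
 (c (a (nat_lit 0x4080602041)) e
 (c (a (nat_lit 0x120e0a06001)) e
 (c (a (nat_lit 0xa040000001)) e e)))
 (c (a (nat_lit 0x60606061))
 (c (a (nat_lit 0xa080400001)) e
 (c (a (nat_lit 0x6000000001)) e e))
 (c (a (nat_lit 0x20202021)) e
 (c (a (nat_lit 0x60606061)) e
 (c (a (nat_lit 0x202031e7)) e
 (c (a (nat_lit 0x2031e547)) e
 (c (a (nat_lit 0x435e966a7)) e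
 (c z e
 (c (a (nat_lit 0x120c66c6c6)) e
 (c (a (nat_lit 0x16a0202024)) e
 (c (a (nat_lit 0xc0a07883)) e
 (c (a (nat_lit 0x141445026)) e e))))))))))))))))))))))) Tr.c Tr.e (nat_lit 0) C.cx C.cy
noncomputable def C363 : Tr := beta% (fun (c : Nat → Tr → Tr → Tr) (e : Tr) (z : Nat) (a b : Nat → Nat) =>
 (c (a (nat_lit 0x20202021))
 (c (nat_lit 1)
 (c (a (nat_lit 0x2020306a25e7)) e
 (c (a (nat_lit 0x203df5ed2568)) e
 (c (a (nat_lit 0x7d590cc2aeae9))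
 (c z e
 (c z e
 (c z e
 (c z e
 (c z e
 (c z e
 (c (a (nat_lit 0x7666345ee4510a9)) e e)))))))
 (c (a (nat_lit 0x174f05810021a8)) e
 (c (a (nat_lit 0x18a6802026d446)) e
 (c (a (nat_lit 0x6e0406dfdb765)) e
 (c (a (nat_lit 0x2369a91407)) e e)))))))
 (c (a (nat_lit 0x4040404021))
 (c z e
 (c (a (nat_lit 0x102c2664a4a3aa)) e
 (c (a (nat_lit 0x15280705030888)) e e)))
 (c (a (nat_lit 0x40402001))
 (c (a (nat_lit 0x1ce4e3e3e020c6)) e e)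
 (c (nat_lit 1) e
 (c (nat_lit 1) e
 (c (a (nat_lit 0x2020204041)) e
 (c (a (nat_lit 0x4040404041)) e
 (c (a (nat_lit 0x20000001))
 (c z e
 (c z e
 (c z e
 (c z e
 (c z e
 (c z e
 (c z e
 (c (a (nat_lit 0x1c562484e00007)) e e))))))))
 (c (a (nat_lit 0x20001448))
 (c z e
 (c z e
 (c z e
 (c z e
 (c z e
 (c z e
 (c (a (nat_lit 0x1c1a61a0000007)) e e)))))))
 (c (a (nat_lit 0x2035c4e8)) e
 (c (a (nat_lit 0x2032474108)) e
 (c z e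
 (c (a (nat_lit 0x1287c1c02028)) e
 (c (a (nat_lit 0x1822c0202e46)) e
 (c (a (nat_lit 0x80202bda26)) e
 (c (a (nat_lit 0x25ed1387)) e e))))))))))))))))
 (c (a (nat_lit 0x40404041))
 (c (a (nat_lit 0x2020404041))
 (c (a (nat_lit 0x15522965e5e327))
 (c z e
 (c z e
 (c z e
 (c z e
 (c z e
 (c (a (nat_lit 0x8056c2d05b22947)) e e))))))
 (c (a (nat_lit 0x108949e9e6a588)) e
 (c (a (nat_lit 0xc4d0f87d045c7)) e e)))
 (c (a (nat_lit 0x6080808081))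
 (c (a (nat_lit 0x10b1d30d070027)) e e)
 (c (a (nat_lit 0x6060604041)) e
 (c (a (nat_lit 0x204021)) e
 (c (a (nat_lit 0x4040402021)) e
 (c (nat_lit 1) e
 (c (a (nat_lit 0x2020203508)) e
 (c (a (nat_lit 0x20384768))
 (c (b (nat_lit 0x9e7280b3ff207)) e e)
 (c (a (nat_lit 0x38c9c028)) e
 (c z e
 (c z e
 (c (a (nat_lit 0x1c2300202046)) e
 (c (a (nat_lit 0x2002022dd46)) e
 (c z e
 (c z e
 (c z e
 (c z e
 (c (b (nat_lit 0x1afff859e3)) e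
 (c (b (nat_lit 0xcbfe589ffe1)) e e)))))))))))))))))))
 (c (a (nat_lit 0x40404041))
 (c (a (nat_lit 0x2040404041))
 (c z e
 (c z e
 (c z e
 (c (b (nat_lit 0x1ffff8c021c205)) e
 (c (a (nat_lit 0x429c4a4e5da86)) e
 (c z e
 (c z e
 (c z e
 (c z e
 (c (a (nat_lit 0x13328ea9e542e8)) e
 (c (a (nat_lit 0x1c3878d2309288)) e
 (c z e
 (c (a (nat_lit 0x342e68e8071c6)) e e)))))))))))))
 (c (a (nat_lit 0x6060606061))
 (c z e
 (c z e
 (c z e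
 (c z e
 (c z e
 (c z e
 (c z e
 (c z e
 (c (a (nat_lit 0x13b6536d04cda8)) e e)))))))))
 (c (a (nat_lit 0x4040608081))
 (c (a (nat_lit 0x10cf2b46870027))
 (c (a (nat_lit 0xd651728ef512ce8)) e e) e)
 (c (a (nat_lit 0x6060606041)) e
 (c (a (nat_lit 0x20202039c8))
 (c z e
 (c z e
 (c z e
 (c z e
 (c z e
 (c z e
 (c z e
 (c z e
 (c (b (nat_lit 0x1ffee0a0000005)) e e)))))))))
 (c (a (nat_lit 0x202037c928)) e
 (c (a (nat_lit 0x2030474169)) e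
 (c (a (nat_lit 0x1ecce22168)) e
 (c z e
 (c (a (nat_lit 0x18c540202026))
 (c (a (nat_lit 0x575b5a2e00009)) e e)
 (c (a (nat_lit 0x10e040402ca4)) e
 (c z e
 (c z e
 (c z e
 (c z e
 (c (b (nat_lit 0x149fffe02005)) e
 (c (b (nat_lit 0x1fe0a0203786)) e
 (c (a (nat_lit 0x120a097ee86)) e e))))))))))))))))))
 (c (a (nat_lit 0x20202021))
 (c (a (nat_lit 0x202021))
 (c (a (nat_lit 0xb52b283802105))
 (c z e
 (c (a (nat_lit 0x1ad266ffc48bcd88)) e e))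
 (c (a (nat_lit 0x1c57650061c206))
 (c (a (nat_lit 0xf467ac50bc96629)) e e)
 (c z e
 (c z e
 (c z e
 (c z e
 (c z e
 (c (a (nat_lit 0x7d6b3c6661147)) e
 (c (a (nat_lit 0x1c1a5828908b87)) e e)))))))))
 (c (a (nat_lit 0x6060608081))
 (c (a (nat_lit 0x17e9a041218006))
 (c (a (nat_lit 0x45024e5240265a9)) e e)
 (c z e
 (c z e
 (c z e
 (c z e
 (c z e
 (c (a (nat_lit 0x90b2722e97029)) e
 (c (a (nat_lit 0x10cccc084c0449)) e e))))))))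
 (c (a (nat_lit 0x2020203049)) e
 (c (a (nat_lit 0x1d0da8)) e
 (c (a (nat_lit 0x126d6509)) e
 (c (a (nat_lit 0x93aba5c329)) e
 (c z e
 (c (a (nat_lit 0x184ecc688887))
 (c (a (nat_lit 0x6afdde8a420a9)) e
 (c (a (nat_lit 0xa7cf2a520000a)) e e))
 (c (a (nat_lit 0x1c8f0f0f17e5))
 (c (a (nat_lit 0x1b73c280000009)) e e)
 (c (a (nat_lit 0xe02c163be6)) e
 (c z e
 (c z e
 (c z e
 (c (a (nat_lit 0x1b2c40a080c6)) e
 (c (a (nat_lit 0x176020206145)) e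
 (c (b (nat_lit 0x1fe08104fac3)) e
 (c (a (nat_lit 0x20835446)) e e)))))))))))))))))
 C362))))) Tr.c Tr.e (nat_lit 0) C.cx C.cy
noncomputable def C364 : Tr := beta% (fun (c : Nat → Tr → Tr → Tr) (e : Tr) (z : Nat) (a b : Nat → Nat) =>
 (c (nat_lit 1)
 (c z
 (c (a (nat_lit 0xcece130aea9e8a5))
 (c z e
 (c z e
 (c z e
 (c z e
 (c z e
 (c z e
 (c z e
 (c z e
 (c z e
 (c z e
 (c (a (nat_lit 0x6c40b4d4e29483a86)) e e)))))))))))
 (c (a (nat_lit 0xe505ffd8b29ed66))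
 (c z e
 (c z e
 (c z e
 (c z e
 (c z e
 (c z e
 (c z e
 (c (a (nat_lit 0xdef1e9b9169cae807)) e
 (c (a (nat_lit 0x122a4040160811009)) e
 (c (a (nat_lit 0x384e6c624c436e9e9)) e e))))))))))
 (c (a (nat_lit 0xb73512180232fa6))
 (c z e
 (c z e
 (c z e
 (c z e
 (c z e
 (c z e
 (c (a (nat_lit 0x3a6ed25c204a49ac8)) e e)))))))
 (c (a (nat_lit 0x1a2f204040b26fa5))
 (c z e
 (c z e
 (c z e
 (c z e
 (c z e
 (c (a (nat_lit 0x44c6d254387b9eaa8)) e e))))))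
 (c (a (nat_lit 0x16a8288987a9cac5)) e
 (c (b (nat_lit 0x1cbcddff3b8f1fe5)) e e))))))
 (c z
 (c (a (nat_lit 0xf7050c1202100c7)) e
 (c (a (nat_lit 0x19ca402021ecc9e7)) e
 (c (b (nat_lit 0xa8464822afff747)) e e)))
 (c z
 (c (a (nat_lit 0x14824243fa0a8fa6)) e e)
 (c z e
 (c (a (nat_lit 0x2020202034a8))
 (c z e
 (c z e
 (c z e
 (c z e
 (c z e
 (c z e
 (c (a (nat_lit 0x1852d230cdce4007)) e e)))))))
 (c (a (nat_lit 0x202020364d68)) e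
 (c (a (nat_lit 0x20203bd1aa68)) e
 (c (a (nat_lit 0x203e0fcd84e8)) e
 (c z e
 (c (a (nat_lit 0x18d0c7a0c02287)) e
 (c (a (nat_lit 0x16ec804026c8c6)) e
 (c z e
 (c z e
 (c z e
 (c z e
 (c z e
 (c z e
 (c (a (nat_lit 0x1fb4e0802043e6)) e
 (c (a (nat_lit 0x15214100e443e6)) e
 (c (a (nat_lit 0x3c3230a89b145)) e e))))))))))))))))))))
 (c (nat_lit 1)
 (c z
 (c (a (nat_lit 0x15e884e24120a626))
 (c z e
 (c z e
 (c z e
 (c z e
 (c z e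
 (c z e
 (c z e
 (c (a (nat_lit 0x52de5a3a18531acc8)) e e))))))))
 (c (a (nat_lit 0x8c1a1a126883d87)) e e))
 (c z e
 (c (a (nat_lit 0x202020203989)) e
 (c (a (nat_lit 0x2020203acda9)) e
 (c (a (nat_lit 0x2020324ba7ca)) e
 (c (a (nat_lit 0x20316ae702aa)) e
 (c z e
 (c (a (nat_lit 0x156a0680606049)) e
 (c (a (nat_lit 0x16a3e02022c567)) e e)))))))))
 (c (nat_lit 1)
 (c (a (nat_lit 0x202020203648))
 (c z e
 (c z e
 (c z e
 (c z e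
 (c z e
 (c z e
 (c z e
 (c z e
 (c z e
 (c (b (nat_lit 0x1e1211bfea2862c7)) e e))))))))))
 (c (a (nat_lit 0x202020372ea9)) e
 (c (a (nat_lit 0x20203f94ebe9)) e
 (c (a (nat_lit 0x20316c67c36a)) e
 (c z e
 (c (a (nat_lit 0x19eb8780202029)) e
 (c (a (nat_lit 0x106860202168e8)) e e)))))))
 (c (a (nat_lit 0xa0a0a0a0a1))
 (c (a (nat_lit 0x2020306c06e9)) e
 (c (a (nat_lit 0x12132cd07848a)) e
 (c z e
 (c z e
 (c (b (nat_lit 0x13eb24e4ffe5a8)) e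
 (c (a (nat_lit 0x13866901b06a07)) e e))))))
 (c (a (nat_lit 0x2020202021))
 (c z e
 (c z e
 (c (a (nat_lit 0x172d6787828068)) e e)))
 (c (a (nat_lit 0x2020404041))
 (c (a (nat_lit 0x1e336d6984a067)) e e)
 (c (a (nat_lit 0x2020202021))
 (c z e
 (c z e
 (c z e
 (c z e
 (c z e
 (c z e
 (c z e
 (c z e
 (c z e
 (c z e
 (c z e
 (c z e
 (c (a (nat_lit 0x128940e0a08006)) e
 (c (a (nat_lit 0x10a06020000005)) e e))))))))))))))
 (c (a (nat_lit 0x6060606061))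
 (c z e
 (c z e
 (c z e
 (c z e
 (c z e
 (c z e
 (c z e
 (c z e
 (c z e
 (c z e
 (c z e
 (c (a (nat_lit 0xbb4e0e0800006)) e
 (c (a (nat_lit 0x14a06000000006)) e e)))))))))))))
 (c (a (nat_lit 0xc0c0c0c0c1))
 (c z e
 (c z e
 (c z e
 (c z e
 (c z e
 (c z e
 (c z e
 (c z e
 (c z e
 (c (a (nat_lit 0x8f4b0ea29e007)) e
 (c (a (nat_lit 0x160e8100000006)) e e)))))))))))
 (c (a (nat_lit 0x608080a0a1))
 (c (a (nat_lit 0x11e14100a02006))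
 (c (a (nat_lit 0x191294ebc0000007)) e e)
 (c z e
 (c z e
 (c z e
 (c z e
 (c z e
 (c z e
 (c z e
 (c (a (nat_lit 0x123566c00006)) e e)))))))))
 (c (nat_lit 1) e
 (c (a (nat_lit 0x80c0c0e021)) e
 (c (a (nat_lit 0x2020203688))
 (c z e
 (c (a (nat_lit 0x4842552171a49)) e e))
 (c (a (nat_lit 0x202036e828))
 (c (a (nat_lit 0x20e659d68f49)) e e)
 (c (a (nat_lit 0x3324c028)) e
 (c z e
 (c (a (nat_lit 0x156703006068)) e
 (c (a (nat_lit 0x1b2b40a08186)) e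
 (c (a (nat_lit 0x14e020218345)) e
 (c (a (nat_lit 0x7c7c8a9db26)) e
 (c z e
 (c z e
 (c z e
 (c z e
 (c z e
 (c (a (nat_lit 0x1d2040202006)) e
 (c (a (nat_lit 0x921c0000001)) e e)))))))))))))))))))))))))))) Tr.c Tr.e (nat_lit 0) C.cx C.cy
noncomputable def C365 : Tr := beta% (fun (c : Nat → Tr → Tr → Tr) (e : Tr) (z : Nat) (a b : Nat → Nat) =>
 (c (a (nat_lit 0x8080808081))
 (c (a (nat_lit 0x2030ac0382c8)) e
 (c (a (nat_lit 0x132af4824e3e9)) e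
 (c (a (nat_lit 0x108ce6040402c9))
 (c (a (nat_lit 0x5a54702c5a953c9))
 (c (a (nat_lit 0xe196e6c2908a00008)) e e)
 (c z e
 (c z e
 (c z e
 (c z e
 (c z e
 (c z e
 (c (a (nat_lit 0x14138e8b06000009)) e e))))))))
 (c (b (nat_lit 0x114a6545405fe7)) e
 (c (a (nat_lit 0x1bd07069036ba6)) e
 (c z e
 (c z e
 (c z e
 (c z e
 (c (a (nat_lit 0xcc98808073388)) e
 (c (a (nat_lit 0xc4aeb4ff66ba8)) e
 (c z e
 (c z e
 (c z e
 (c z e
 (c (a (nat_lit 0x13c88322c02024)) e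
 (c (a (nat_lit 0x11236260600003)) e e)))))))))))))))))
 (c (a (nat_lit 0x4040404041))
 (c (a (nat_lit 0x13710b85a3c288))
 (c (a (nat_lit 0xe6a354fc3e8b486))
 (c (a (nat_lit 0x286236984e1e59847)) e
 (c (a (nat_lit 0x16b31fd093515a4008)) e e))
 (c (a (nat_lit 0x4c82625854b1569))
 (c (a (nat_lit 0xc56ed4d4969800009)) e e)
 (c z e
 (c z e
 (c z e
 (c z e
 (c z e
 (c (a (nat_lit 0x15f0ccbbf7b0ea28)) e
 (c (a (nat_lit 0xfccb9d9c7600008)) e e)))))))))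
 (c (a (nat_lit 0x118d2a4865e4e8))
 (c (a (nat_lit 0x4e3416526137649))
 (c (a (nat_lit 0x17ae29864580000008)) e e)
 (c z e
 (c z e
 (c z e
 (c z e
 (c z e
 (c (a (nat_lit 0x188e5ce93c8f6009)) e
 (c (a (nat_lit 0x167b6847e0000009)) e e))))))))
 (c (a (nat_lit 0x17b1312c2782e7)) e
 (c z e
 (c z e
 (c z e
 (c z e
 (c (a (nat_lit 0x126ca342e30067)) e
 (c (a (nat_lit 0x136a0a47474767)) e
 (c z e
 (c z e
 (c z e
 (c z e
 (c (a (nat_lit 0x6f195b55b3226)) e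
 (c (a (nat_lit 0xbd3f41f668005)) e
 (c (a (nat_lit 0x18f90ae0000005)) e
 (c (a (nat_lit 0x1a000000000004)) e e)))))))))))))))))
 (c (a (nat_lit 0x2020202021))
 (c (a (nat_lit 0x108a6a6565e186))
 (c (a (nat_lit 0x1e1212374597a07)) e
 (c z e
 (c z e
 (c z e
 (c z e
 (c (a (nat_lit 0x6c4e407b18c66c9)) e
 (c (a (nat_lit 0x15346d188e400008)) e
 (c (a (nat_lit 0x1251652000000008)) e e))))))))
 (c z e
 (c z e
 (c z e
 (c z e
 (c (a (nat_lit 0x1eb5cc82e34326)) e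
 (c (a (nat_lit 0x1ab167e76a77c6)) e
 (c (a (nat_lit 0x10af703011ada7)) e
 (c z e
 (c z e
 (c z e
 (c z e
 (c (a (nat_lit 0x1bda769ab65647)) e
 (c (a (nat_lit 0x10c0e080600005)) e
 (c (a (nat_lit 0x8e18000000001)) e e)))))))))))))))
 (c (a (nat_lit 0x2020202021))
 (c z e
 (c z e
 (c z e
 (c (a (nat_lit 0xcd2a101616087)) e
 (c z e
 (c z e
 (c z e
 (c z e
 (c z e
 (c z e
 (c z e
 (c (a (nat_lit 0xdced650b08007)) e
 (c (b (nat_lit 0x1ff72080000005)) e e)))))))))))))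
 (c (a (nat_lit 0x2020202021))
 (c z e
 (c (a (nat_lit 0x9341004060c6))
 (c (a (nat_lit 0x11d8b06990674008)) e
 (c (a (nat_lit 0x130a0e67c0000009)) e e))
 (c (a (nat_lit 0x1701406040a026))
 (c (a (nat_lit 0x534250000000008)) e e)
 (c z e
 (c z e
 (c z e
 (c z e
 (c z e
 (c z e
 (c z e
 (c (b (nat_lit 0x1ffda0c00004)) e e)))))))))))
 (c (nat_lit 1)
 (c (a (nat_lit 0x16a16060602125))
 (c (a (nat_lit 0x16fbcdee87800006)) e
 (c (a (nat_lit 0x1916e80000000007)) e e))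
 (c (a (nat_lit 0xf8ccc4cf25ee5))
 (c (a (nat_lit 0x1063400000000008)) e e) e))
 (c (a (nat_lit 0x4040404041))
 (c (a (nat_lit 0x161615fabb4f85)) e
 (c z e
 (c z e
 (c (a (nat_lit 0xa90464e0fe06)) e e))))
 (c (a (nat_lit 0x2040404021))
 (c z e
 (c (a (nat_lit 0x1096372ce07587)) e
 (c (a (nat_lit 0x52825a5e99568)) e e)))
 (c (a (nat_lit 0x4040404041))
 (c (a (nat_lit 0x1111714ce9bbc7)) e
 (c (a (nat_lit 0x28343222651e9)) e e))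
 (c (a (nat_lit 0x2020203f66))
 (c (a (nat_lit 0x12263477519e8)) e e)
 (c (a (nat_lit 0x37e286)) e
 (c (b (nat_lit 0x12213fe6))
 (c (a (nat_lit 0x1b7fd9e0000008)) e
 (c (a (nat_lit 0x19a00000000006)) e e))
 (c (b (nat_lit 0x592842ffe6)) e
 (c (a (nat_lit 0x19e903802006)) e
 (c (a (nat_lit 0x122620202045)) e
 (c (a (nat_lit 0x17602020c1c3)) e
 (c (a (nat_lit 0x20207186)) e
 (c (a (nat_lit 0x4040b1c286)) e
 (c z e
 (c z e
 (c z e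
 (c (a (nat_lit 0x11a662c08022)) e
 (c (a (nat_lit 0x10a8c0e00001)) e
 (c (a (nat_lit 0x6e000000001)) e e))))))))))))))))))))))))) Tr.c Tr.e (nat_lit 0) C.cx C.cy
noncomputable def C366 : Tr := beta% (fun (c : Nat → Tr → Tr → Tr) (e : Tr) (z : Nat) (a b : Nat → Nat) =>
 (c (a (nat_lit 0x2020202021))
 (c z
 (c (a (nat_lit 0xdadadb0a603a845))
 (c z e
 (c z e
 (c z e
 (c z e
 (c z e
 (c z e
 (c z e
 (c z e
 (c z e
 (c z e
 (c (a (nat_lit 0x8a7e69595b4ecc726)) e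
 (c z e
 (c z e
 (c (a (nat_lit 0x384a8efdad7358969)) e e))))))))))))))
 (c (a (nat_lit 0xc6c78d7748a2987))
 (c z e
 (c z e
 (c z e
 (c z e
 (c z e
 (c z e
 (c z e
 (c z e
 (c (a (nat_lit 0x28d307a1087a7a6e7)) e e)))))))))
 (c (a (nat_lit 0x21fddd5a1602a86)) e
 (c (a (nat_lit 0x1431e9a0c0212a07)) e
 (c (a (nat_lit 0x146b80402260cc06)) e
 (c (a (nat_lit 0x1548488a896d80c6)) e e))))))
 (c z
 (c (a (nat_lit 0x25a3490e1a10547)) e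
 (c (a (nat_lit 0x1bb06cc020252ac8)) e
 (c (a (nat_lit 0x18e5604022145247)) e
 (c (a (nat_lit 0x5834344c568d3e8)) e
 (c z e
 (c z e
 (c z e
 (c z e
 (c z e
 (c z e
 (c z e
 (c z e
 (c (a (nat_lit 0x1d1e3f1bf40e0888)) e e)))))))))))))
 (c z
 (c (a (nat_lit 0x1f92a1c1abf77766)) e
 (c (a (nat_lit 0x12c565663851fde7)) e e))
 (c z
 (c z e
 (c z e
 (c z e
 (c z e
 (c z e
 (c z e
 (c z e
 (c z e
 (c z e
 (c (a (nat_lit 0x5b228a507004029)) e e))))))))))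
 (c z e
 (c (a (nat_lit 0x20203888))
 (c z e
 (c z e
 (c z e
 (c z e
 (c z e
 (c (a (nat_lit 0x48b04904e90ae8)) e e))))))
 (c (a (nat_lit 0x20202038ce08)) e
 (c (a (nat_lit 0x202030a7a609)) e
 (c (b (nat_lit 0x1429249fe8)) e
 (c z e
 (c (a (nat_lit 0x1cac0741e1e547)) e
 (c (a (nat_lit 0x134aa0a0876aa6)) e
 (c (a (nat_lit 0x5602023855107)) e
 (c z e
 (c z e
 (c z e
 (c z e
 (c z e
 (c (a (nat_lit 0x10ac60a060a0a7)) e
 (c (a (nat_lit 0x17602060e0c486)) e e))))))))))))))))))))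
 (c (a (nat_lit 0x2020000001))
 (c z
 (c (a (nat_lit 0x132ec9e160238926))
 (c z e
 (c z e
 (c z e
 (c z e
 (c z e
 (c z e
 (c z e
 (c z e
 (c (a (nat_lit 0x5a503e20241f52de8)) e
 (c (a (nat_lit 0x463a201a0b04b0a88)) e e))))))))))
 (c (a (nat_lit 0x1048e0e0460c2ce7)) e
 (c (a (nat_lit 0x7c14142ee497227)) e e)))
 (c z
 (c (a (nat_lit 0x441010426067048)) e e)
 (c z e
 (c (a (nat_lit 0x2020201a08)) e
 (c (a (nat_lit 0x20201b8dc8)) e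
 (c (a (nat_lit 0x202031aa0609)) e
 (c (a (nat_lit 0x2031e644c169)) e
 (c (a (nat_lit 0x2176ba6808088)) e
 (c (a (nat_lit 0x14498520e0e328)) e
 (c (a (nat_lit 0x166840402c19a6)) e
 (c (a (nat_lit 0x54141472f7947)) e e)))))))))))
 (c (a (nat_lit 0x2020202021))
 (c z
 (c (a (nat_lit 0x484892a0a58f0a6))
 (c z e
 (c z e
 (c z e
 (c z e
 (c z e
 (c (a (nat_lit 0xe660b1ed285534207)) e e))))))
 (c z e
 (c z e
 (c z e
 (c z e
 (c z e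
 (c z e
 (c z e
 (c z e
 (c (a (nat_lit 0xa718aaae4036267)) e e))))))))))
 (c (a (nat_lit 0x202020203248))
 (c z e
 (c z e
 (c z e
 (c z e
 (c z e
 (c z e
 (c z e
 (c z e
 (c (b (nat_lit 0x1c54c79fed2e04a7)) e e)))))))))
 (c (a (nat_lit 0x202020352c88)) e
 (c (a (nat_lit 0x2020312bc7e9)) e
 (c (a (nat_lit 0x2021fb2aae528)) e
 (c (a (nat_lit 0x21d6f0c656568)) e
 (c (a (nat_lit 0x122b25a0202268)) e
 (c (a (nat_lit 0x174d40402d31a6)) e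
 (c (a (nat_lit 0x3402027495067)) e e)))))))))
 (c (a (nat_lit 0x2020202021))
 (c (a (nat_lit 0x20202031ac67))
 (c z e
 (c z e
 (c z e
 (c z e
 (c z e
 (c z e
 (c z e
 (c z e
 (c (b (nat_lit 0xf4cd79ff86a1b06)) e e)))))))))
 (c (a (nat_lit 0x202030ab63c9)) e
 (c (a (nat_lit 0x20312c8662e9))
 (c z e
 (c z e
 (c z e
 (c z e
 (c (b (nat_lit 0xaa7a77ff5486368)) e e)))))
 (c z e
 (c (a (nat_lit 0x1d92cb864643c8)) e
 (c (b (nat_lit 0x102620203fe707)) e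
 (c (a (nat_lit 0x1005a7a1f93386)) e
 (c z e
 (c z e
 (c z e
 (c z e
 (c z e
 (c z e
 (c z e
 (c z e
 (c z e
 (c z e
 (c (a (nat_lit 0xf64aa69a4c001)) e e))))))))))))))))))
 C365))))) Tr.c Tr.e (nat_lit 0) C.cx C.cy
noncomputable def C367 : Tr := beta% (fun (c : Nat → Tr → Tr → Tr) (e : Tr) (z : Nat) (a b : Nat → Nat) =>
 (c z
 (c (b (nat_lit 0x175757575f637fe4))
 (c z e
 (c z e
 (c z e
 (c z e
 (c z e
 (c z e
 (c z e
 (c z e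
 (c z e
 (c z e
 (c (a (nat_lit 0x848a5642359daad66)) e e)))))))))))
 (c (a (nat_lit 0x2e2e2f027a58007))
 (c z e
 (c z e
 (c z e
 (c z e
 (c z e
 (c z e
 (c z e
 (c z e
 (c z e
 (c (a (nat_lit 0x142f71b276976f0c67)) e e))))))))))
 (c (a (nat_lit 0x262754f6da0a0c6)) e
 (c (a (nat_lit 0x3a952b618182e6)) e
 (c (a (nat_lit 0x110cc60181622107))
 (c z e
 (c z e
 (c z e
 (c z e
 (c (a (nat_lit 0x1a1a160e0c4075149)) e e)))))
 (c (a (nat_lit 0x12f109a5c7452c46))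
 (c z e
 (c z e
 (c z e
 (c z e
 (c z e
 (c z e
 (c z e
 (c (a (nat_lit 0xa8364e5b289400009)) e e))))))))
 (c (a (nat_lit 0x10a8e8ea49ed4786)) e
 (c z e
 (c z e
 (c z e
 (c z e
 (c z e
 (c z e
 (c z e
 (c z e
 (c (a (nat_lit 0x14f4b791e860a0a6)) e
 (c z e
 (c (a (nat_lit 0x1055a30363628204)) e
 (c (a (nat_lit 0x148403e481c02004)) e e)))))))))))))))))))
 (c z
 (c (a (nat_lit 0x7a7b7900d448406)) e
 (c (a (nat_lit 0x1912a48802026c7)) e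
 (c (a (nat_lit 0x132ea7e020232e87))
 (c z e
 (c z e
 (c z e
 (c z e
 (c z e
 (c (a (nat_lit 0x9ce694983653069a8)) e e))))))
 (c (a (nat_lit 0x10294140866ef766)) e
 (c (a (nat_lit 0xb2161676ef10c06)) e
 (c z e
 (c z e
 (c z e
 (c z e
 (c z e
 (c z e
 (c z e
 (c (a (nat_lit 0x1e5353f40d48e4e7)) e e)))))))))))))
 (c z
 (c (a (nat_lit 0x19922e20402c4ca5))
 (c z e
 (c z e
 (c z e
 (c z e
 (c z e
 (c z e
 (c z e
 (c (a (nat_lit 0x4b16ae663a379d927)) e e))))))))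
 (c (a (nat_lit 0x1db0c0c0a6bc9b25)) e
 (c (a (nat_lit 0xb03c3c8a68d1bc6))
 (c z e
 (c z e
 (c z e
 (c (a (nat_lit 0x16ab2890cf0d824f88)) e e))))
 (c (b (nat_lit 0x8684c2cdffc4826)) e
 (c z e
 (c z e
 (c z e
 (c z e
 (c z e
 (c z e
 (c z e
 (c (a (nat_lit 0x1a58f69026222346)) e e))))))))))))
 (c z
 (c (a (nat_lit 0x144e8e89be132ba5))
 (c z e
 (c z e
 (c z e
 (c z e
 (c z e
 (c z e
 (c (a (nat_lit 0x7a5278073888ac7e8)) e e)))))))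
 (c (b (nat_lit 0x14544e7d3fefffe6))
 (c z e
 (c z e
 (c z e
 (c z e
 (c (a (nat_lit 0x50402c4d087266829)) e
 (c (a (nat_lit 0x68323f20e0c8be669)) e e))))))
 (c z e
 (c z e
 (c z e
 (c z e
 (c z e
 (c z e
 (c (b (nat_lit 0xf961fffeb03e1a6)) e
 (c (a (nat_lit 0x11cb6c4cc9cd6027)) e
 (c (a (nat_lit 0x176f7caefc28ce65)) e
 (c z e
 (c z e
 (c z e
 (c (a (nat_lit 0x1687e986a6200005)) e e)))))))))))))))
 (c z
 (c z e
 (c z e
 (c (a (nat_lit 0x7a9c8c3204257c7))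
 (c (a (nat_lit 0x112d8caa06ce2ba929)) e e)
 (c (a (nat_lit 0xac7604162b54247)) e
 (c (a (nat_lit 0x3e041a276a4a147)) e
 (c z e
 (c z e
 (c z e
 (c z e
 (c (a (nat_lit 0x10cc8f710a267206)) e e))))))))))
 (c z
 (c (a (nat_lit 0x133bf8c7e02202e5))
 (c z e
 (c (a (nat_lit 0xfb20bcd86b0f1eea9)) e e))
 (c (a (nat_lit 0xb09a2a02145f2c7))
 (c (a (nat_lit 0x124eeea51130ebb3e9)) e e)
 (c (a (nat_lit 0x14a06061824d3326)) e
 (c z e
 (c z e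
 (c z e
 (c (a (nat_lit 0xee9330e0634506)) e
 (c (a (nat_lit 0xb4e0ccaa7c031c7)) e
 (c (a (nat_lit 0x46546a5e2a5d528)) e e)))))))))
 (c (a (nat_lit 0x2020202036e6))
 (c (a (nat_lit 0x924c8c9a9d659c6)) e
 (c z e
 (c z e
 (c z e
 (c (a (nat_lit 0x7eaf323204587c6)) e
 (c (a (nat_lit 0x80a87646565b2a8)) e
 (c (a (nat_lit 0xb07a726e3d26ea8)) e
 (c (a (nat_lit 0x4854564f31c1bc8)) e e))))))))
 (c (a (nat_lit 0x20202036a9a6)) e
 (c (a (nat_lit 0x202035a865a6)) e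
 (c (a (nat_lit 0x545558d05c0c5)) e
 (c (a (nat_lit 0x57885e6810105))
 (c (a (nat_lit 0x427768b0ac1ab06)) e e)
 (c (a (nat_lit 0x1303e5c0202405))
 (c z e
 (c (a (nat_lit 0x1c9732ecb1fcb748)) e
 (c (a (nat_lit 0xfd1a66825e00009)) e e)))
 (c (a (nat_lit 0x1657ce4e1657a4))
 (c (a (nat_lit 0x10efa7ef8f094008)) e
 (c (a (nat_lit 0x1ee9abe760000008)) e e))
 (c (a (nat_lit 0x461c1a52591c6))
 (c (a (nat_lit 0x1cb3042000000006)) e e)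
 (c (a (nat_lit 0x14144e753ea66)) e
 (c z e
 (c z e
 (c z e
 (c (a (nat_lit 0x132160e060e0e5)) e
 (c z e
 (c (a (nat_lit 0x1e0c7a7c1df02)) e
 (c (a (nat_lit 0x1e1406e17e3)) e e))))))))))))))))))))))) Tr.c Tr.e (nat_lit 0) C.cx C.cy
noncomputable def C368 : Tr := beta% (fun (c : Nat → Tr → Tr → Tr) (e : Tr) (z : Nat) (a b : Nat → Nat) =>
 (c (a (nat_lit 0x80808081))
 (c (a (nat_lit 0x20002001))
 (c z
 (c (a (nat_lit 0x16d6d6d6d6d6c0c2))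
 (c z e
 (c (a (nat_lit 0xd4f109092b3ba9565)) e
 (c (a (nat_lit 0x726e6ea6f348dae25)) e
 (c z e
 (c z e
 (c z e
 (c z e
 (c z e
 (c z e
 (c z e
 (c z e
 (c z e
 (c z e
 (c z e
 (c (a (nat_lit 0x242834404874ed846)) e
 (c z e
 (c (a (nat_lit 0xb2c0dadcdd6de6006)) e e)))))))))))))))))
 (c (a (nat_lit 0x1e5e5e5e5e5281c3))
 (c (a (nat_lit 0xff1717455fd37d706))
 (c z e
 (c z e
 (c z e
 (c z e
 (c z e
 (c z e
 (c z e
 (c (a (nat_lit 0xdadec8ae3a7ff92f248)) e e))))))))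
 (c z e
 (c z e
 (c z e
 (c z e
 (c z e
 (c z e
 (c z e
 (c z e
 (c z e
 (c (a (nat_lit 0xaaccd69488836f666)) e
 (c (a (nat_lit 0x606a540e12595eb47)) e
 (c (a (nat_lit 0xdcbcc69ab791df2a6)) e
 (c (a (nat_lit 0x2e3c4a589d29cf468)) e e))))))))))))))
 (c (a (nat_lit 0x5e5e5e5f124c2e4))
 (c z e
 (c z e
 (c z e
 (c z e
 (c z e
 (c z e
 (c z e
 (c z e
 (c z e
 (c z e
 (c (a (nat_lit 0xb09e1e168d8acf4a6)) e e)))))))))))
 (c (a (nat_lit 0xc2c2c3ef077e023)) e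
 (c (a (nat_lit 0x787951e6dc02043))
 (c z e
 (c z e
 (c z e
 (c z e
 (c z e
 (c z e
 (c z e
 (c (a (nat_lit 0x2462344c54521b787)) e e))))))))
 (c (a (nat_lit 0x11693686282a344))
 (c z e
 (c z e
 (c (a (nat_lit 0x1551f24d0b2bc9dde7)) e
 (c z e
 (c (a (nat_lit 0x78368e36207069346)) e
 (c z e
 (c (a (nat_lit 0x24263444263c63088)) e
 (c z e
 (c (a (nat_lit 0x2cc8b8beefb3391a7)) e
 (c (a (nat_lit 0x74c126d0da3e00008)) e e))))))))))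
 (c (a (nat_lit 0x189a1b0822e40064))
 (c z e
 (c (a (nat_lit 0x1334eeac8e68169707)) e
 (c z e
 (c z e
 (c z e
 (c (a (nat_lit 0x4044404c24b48dd87)) e
 (c (a (nat_lit 0x20a6646a0c4997b07)) e
 (c z e
 (c (a (nat_lit 0x15dd312de560000007)) e e)))))))))
 (c (a (nat_lit 0x119b0ece706caf03))
 (c z e
 (c z e
 (c z e
 (c z e
 (c (a (nat_lit 0x70b43c364d2399967)) e
 (c (a (nat_lit 0xa83c422048eb18c08)) e
 (c z e
 (c (a (nat_lit 0x190b49414000000007)) e e))))))))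
 (c (a (nat_lit 0x120ececf4d8e4905)) e
 (c (a (nat_lit 0xa8a8b2c122da5a4)) e
 (c z e
 (c z e
 (c (a (nat_lit 0x856ceae8e6eec45)) e
 (c (a (nat_lit 0x132b0b0acb0927e5)) e
 (c (a (nat_lit 0x18581816d6cd8044)) e e)))))))))))))))
 C367)
 C366)
 (c (a (nat_lit 0x20202021)) C364
 (c (a (nat_lit 0x40404041))
 (c (nat_lit 1)
 (c z
 (c (a (nat_lit 0x7622220a102d105))
 (c z e
 (c z e
 (c z e
 (c z e
 (c z e
 (c z e
 (c z e
 (c (a (nat_lit 0xc6904e70c6a19afa6)) e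
 (c (a (nat_lit 0x4e322027148082768)) e e)))))))))
 (c z e
 (c z e
 (c z e
 (c z e
 (c z e
 (c z e
 (c z e
 (c (a (nat_lit 0x184847e4420510c6)) e
 (c (a (nat_lit 0x16f891d2eeb45c05)) e
 (c (a (nat_lit 0x16d0f596c0a09005)) e e)))))))))))
 (c (a (nat_lit 0x202020203d68)) e
 (c (a (nat_lit 0x2020203cad08)) e
 (c (a (nat_lit 0x2020352c6829)) e
 (c (a (nat_lit 0x20318b26c3a9)) e
 (c z e
 (c (a (nat_lit 0x1ded2a8564a3a8)) e
 (c (a (nat_lit 0x1268c483226687)) e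
 (c (a (nat_lit 0x7e081814952e6))
 (c (a (nat_lit 0x62562a311ca8d68)) e e) e)))))))))
 (c (a (nat_lit 0x2020200001))
 (c (a (nat_lit 0x2020203a6d88)) e
 (c (a (nat_lit 0x2020318b674a)) e
 (c (a (nat_lit 0x2031aac6436a)) e
 (c z e
 (c z e
 (c (a (nat_lit 0x156700202248c7)) e e))))))
 (c (a (nat_lit 0x20202001))
 (c (a (nat_lit 0x10113ee892409)) e
 (c z e
 (c (a (nat_lit 0x1ef5aa63628029)) e
 (c (a (nat_lit 0x12c684e4c12988)) e e))))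
 (c (a (nat_lit 0x10121010101))
 (c (a (nat_lit 0x11eae521c14029)) e
 (c (a (nat_lit 0x18cceb88a42088)) e
 (c (a (nat_lit 0x122e4e26678a27)) e e)))
 (c (nat_lit 1)
 (c (a (nat_lit 0x1290706be704c7)) e e)
 (c (nat_lit 1) e
 (c (nat_lit 1) e
 (c (a (nat_lit 0x20000001))
 (c z e
 (c z e
 (c z e
 (c z e
 (c z e
 (c z e
 (c z e
 (c z e
 (c z e
 (c (a (nat_lit 0xe340525a00008)) e e))))))))))
 (c (a (nat_lit 0x2040002001))
 (c z e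
 (c z e
 (c z e
 (c z e
 (c z e
 (c z e
 (c z e
 (c (a (nat_lit 0x83927c2802007)) e
 (c (a (nat_lit 0x1786a120000007)) e e)))))))))
 (c (a (nat_lit 0x8080808081))
 (c z e
 (c z e
 (c z e
 (c z e
 (c z e
 (c z e
 (c (a (nat_lit 0x9095100200007)) e e)))))))
 (c (a (nat_lit 0x20202038c8)) e
 (c (a (nat_lit 0x2020390608)) e
 (c (b (nat_lit 0x39c6bfe8)) e
 (c z e
 (c (a (nat_lit 0x192661602028)) e
 (c (a (nat_lit 0x1501202020c6)) e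
 (c (a (nat_lit 0x2a04044dc65)) e
 (c (a (nat_lit 0x8061a79187)) e
 (c z e
 (c z e
 (c z e
 (c z e
 (c z e
 (c z e
 (c (a (nat_lit 0x1dc620600007)) e e)))))))))))))))))))))))))
 C363)))) Tr.c Tr.e (nat_lit 0) C.cx C.cy
noncomputable def C369 : Tr := beta% (fun (c : Nat → Tr → Tr → Tr) (e : Tr) (z : Nat) (a b : Nat → Nat) =>
 (c (a (nat_lit 0x202021))
 (c (a (nat_lit 0x20184186))
 (c (a (nat_lit 0x442ae317cc5))
 (c (a (nat_lit 0x1245a5c30781e007)) e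
 (c (a (nat_lit 0x1976b30c20000006)) e e))
 (c (a (nat_lit 0x1e0a8ea55e766))
 (c (a (nat_lit 0x7bfc32000000005)) e e)
 (c z e
 (c z e
 (c z e
 (c (a (nat_lit 0x13b214b4105be8)) e
 (c (a (nat_lit 0x887c8ab500de8)) e e)))))))
 (c (a (nat_lit 0x10113c5a368))
 (c (a (nat_lit 0x3858f90e7c5c6))
 (c (a (nat_lit 0x18c3200000000005)) e e)
 (c z e
 (c z e
 (c (a (nat_lit 0xec93209c12a67)) e
 (c (a (nat_lit 0xd767a33ce3ac7)) e
 (c (a (nat_lit 0x90b736e4c14c8)) e e))))))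
 (c (a (nat_lit 0x33274501c8)) e
 (c (a (nat_lit 0x1804ea832327)) e
 (c (a (nat_lit 0x39d60202005))
 (c z e
 (c z e
 (c (a (nat_lit 0x1554996a000008)) e e)))
 (c (a (nat_lit 0x17e929292b26))
 (c (a (nat_lit 0x3551c5cc7e007)) e
 (c (a (nat_lit 0x147b4dc0000008)) e e))
 (c (a (nat_lit 0xeaeb2f57566))
 (c (a (nat_lit 0x1604c000000007)) e e)
 (c z e
 (c z e
 (c (a (nat_lit 0x1c5fe4a02004)) e
 (c (a (nat_lit 0x1022a0402065)) e
 (c (a (nat_lit 0x4c04040d884)) e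
 (c (a (nat_lit 0x4077f984)) e
 (c z e
 (c z e
 (c (a (nat_lit 0x49110f6002)) e
 (c (a (nat_lit 0x3c0000001)) e e)))))))))))))))))
 (c (nat_lit 1)
 (c (a (nat_lit 0x739f86e2426))
 (c (a (nat_lit 0x650ae8ce52366)) e
 (c z e
 (c z e
 (c (a (nat_lit 0x10c9c7a2861e07)) e
 (c (a (nat_lit 0x705c3a4702f28)) e
 (c (a (nat_lit 0xbd0cad3faa607)) e e))))))
 (c (a (nat_lit 0x19596ce40407))
 (c (a (nat_lit 0x1ad9ff536a2a66)) e
 (c (a (nat_lit 0x7c8e6c40074e8)) e e))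
 (c (a (nat_lit 0xa53c0202026))
 (c (a (nat_lit 0xf8827e278f3a7)) e e)
 (c (a (nat_lit 0x13e0202029e6))
 (c z e
 (c (a (nat_lit 0x555b28562e009)) e
 (c (a (nat_lit 0x1c786c60000007)) e e)))
 (c (a (nat_lit 0x545459a1665))
 (c (a (nat_lit 0x1d54e920c00007)) e
 (c (a (nat_lit 0x16456000000008)) e e))
 (c (a (nat_lit 0x9ec34f535a7))
 (c (a (nat_lit 0x1ce00000000004)) e e)
 (c z e
 (c (a (nat_lit 0x14d576d595a6)) e
 (c (b (nat_lit 0x1ff4e2c24122)) e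
 (c (a (nat_lit 0xa0221a0d403)) e
 (c (a (nat_lit 0x424032cb664)) e
 (c z e
 (c z e
 (c (a (nat_lit 0x91c8240e123)) e
 (c (a (nat_lit 0x1b2120400003)) e
 (c (a (nat_lit 0x48000000001)) e e))))))))))))))))
 (c (a (nat_lit 0x60606061))
 (c (a (nat_lit 0xfb020c0a005))
 (c (a (nat_lit 0x145e5a1c477c5)) e
 (c (a (nat_lit 0x301c200853528)) e e))
 (c (a (nat_lit 0x11e100e303a6))
 (c (a (nat_lit 0x303e22e0672e8)) e e)
 (c (a (nat_lit 0xacaae9895e5)) e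
 (c z e
 (c z e
 (c (a (nat_lit 0x10f1d190f0e7)) e
 (c (a (nat_lit 0x1fff7e5e5e26)) e
 (c (a (nat_lit 0x9e0e06097a3)) e
 (c (a (nat_lit 0xa0606c3504)) e
 (c z e
 (c z e
 (c (a (nat_lit 0x831206020a4)) e
 (c (a (nat_lit 0x1180e0a0c004)) e
 (c (a (nat_lit 0x4060000001)) e e))))))))))))))
 (c (nat_lit 1)
 (c (a (nat_lit 0x1e4aed28a64))
 (c (a (nat_lit 0x5e4f06b13fa66)) e e)
 (c z e
 (c z e
 (c (a (nat_lit 0x135413f35347)) e
 (c (a (nat_lit 0x133319d9d3e7)) e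
 (c (a (nat_lit 0xd6cf6564ac7)) e
 (c (a (nat_lit 0x727e8689564)) e
 (c z e
 (c z e
 (c (a (nat_lit 0x5bf80604003)) e
 (c (a (nat_lit 0x10a100404004)) e
 (c (a (nat_lit 0xa64c0a00001)) e
 (c (a (nat_lit 0x3e000000001)) e e)))))))))))))
 (c (a (nat_lit 0x404001))
 (c z e
 (c (a (nat_lit 0xd155533f386)) e
 (c (a (nat_lit 0x13b39312ebe7)) e
 (c (a (nat_lit 0x1675f95349e7)) e
 (c z e
 (c z e
 (c z e
 (c (a (nat_lit 0xd94eb2980a5)) e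
 (c (a (nat_lit 0x146a89004b65)) e
 (c (a (nat_lit 0xa1e2610001)) e
 (c (a (nat_lit 0xc0000001)) e e)))))))))))
 (c (a (nat_lit 0x60606061))
 (c (a (nat_lit 0x13b3d1f1caa4)) e
 (c (a (nat_lit 0x11d171498627)) e
 (c z e
 (c z e
 (c z e
 (c (a (nat_lit 0x89763020004)) e
 (c (a (nat_lit 0x192500402624)) e
 (c (a (nat_lit 0xe0c1a0e1)) e
 (c (a (nat_lit 0x14941000001)) e
 (c (a (nat_lit 0x68000000001)) e e))))))))))
 (c (a (nat_lit 0x40404041))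
 (c (a (nat_lit 0x138f4f2625c5)) e
 (c z e
 (c z e
 (c (a (nat_lit 0xa3844404084)) e
 (c (a (nat_lit 0x182440209aa4)) e
 (c (a (nat_lit 0x14861424161)) e
 (c (a (nat_lit 0x4e140608001)) e
 (c (a (nat_lit 0x40000001)) e e))))))))
 (c (a (nat_lit 0x20202021))
 (c z e
 (c (a (nat_lit 0xcb904804064)) e
 (c (a (nat_lit 0xca2a0205025)) e
 (c (a (nat_lit 0x26200c0c001)) e
 (c (a (nat_lit 0xe020402001)) e
 (c (a (nat_lit 0x12140000001)) e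
 (c (a (nat_lit 0xe000000001)) e e)))))))
 (c (nat_lit 1)
 (c (a (nat_lit 0x62120203005)) e
 (c (a (nat_lit 0x3c14142e1a1)) e
 (c (a (nat_lit 0x10180e121)) e
 (c (a (nat_lit 0x80802001)) e
 (c (a (nat_lit 0x2040000001)) e e)))))
 (c (a (nat_lit 0x80806061))
 (c (a (nat_lit 0x1a0a0a0a061)) e
 (c (a (nat_lit 0xa0c1006041)) e
 (c (a (nat_lit 0xa100400001)) e
 (c (a (nat_lit 0xc000000001)) e e))))
 (c (a (nat_lit 0x202021))
 (c (a (nat_lit 0x2060202001)) e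
 (c (a (nat_lit 0x8020000001)) e e))
 (c (nat_lit 1)
 (c (nat_lit 1) e e)
 (c (a (nat_lit 0x80808081)) e
 (c (a (nat_lit 0x40404041)) e
 (c (a (nat_lit 0x40406041)) e
 (c (a (nat_lit 0x60605124)) e
 (c (a (nat_lit 0x16165b3c6)) e
 (c z e
 (c (a (nat_lit 0x775826266)) e
 (c (a (nat_lit 0x1340202006)) e
 (c (a (nat_lit 0x48200df21)) e
 (c (a (nat_lit 0xa0681563)) e e))))))))))))))))))))))) Tr.c Tr.e (nat_lit 0) C.cx C.cy
noncomputable def C370 : Tr := beta% (fun (c : Nat → Tr → Tr → Tr) (e : Tr) (z : Nat) (a b : Nat → Nat) =>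
 (c (a (nat_lit 0x40404041))
 (c (a (nat_lit 0x2040404041))
 (c (a (nat_lit 0x84872402751a3))
 (c z e
 (c (a (nat_lit 0x783a7a83be56546)) e
 (c z e
 (c (b (nat_lit 0x102c3bfe2a35008)) e
 (c (a (nat_lit 0x25006184dccd66)) e
 (c (a (nat_lit 0x7e2602279e40227)) e
 (c (a (nat_lit 0x4380912d848367)) e
 (c (a (nat_lit 0xc8c3fbe69af4a26)) e e))))))))
 (c (a (nat_lit 0xad0d4ab6aa926))
 (c z e
 (c z e
 (c (a (nat_lit 0x62de10168120c08)) e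
 (c z e
 (c (a (nat_lit 0x542a5900ae3c4c9)) e e)))))
 (c z e
 (c (a (nat_lit 0x1c363a556e4e45)) e
 (c (a (nat_lit 0x3da7a0c08082))
 (c z e
 (c (a (nat_lit 0x1a6361646a054428)) e
 (c (b (nat_lit 0xbc5fffd05800007)) e e)))
 (c (a (nat_lit 0x38140c0a0d106))
 (c (a (nat_lit 0x15c4e166e4414008)) e
 (c (a (nat_lit 0x106a1c6be0000007)) e e))
 (c (a (nat_lit 0x1812126570c66))
 (c (a (nat_lit 0x119bc96000000006)) e e)
 (c z e
 (c z e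
 (c (a (nat_lit 0x101a13cd6aa727)) e
 (c (a (nat_lit 0x14eeae0a852007)) e
 (c (a (nat_lit 0x1db9174fa46086)) e
 (c (a (nat_lit 0x5a08101554ee5)) e
 (c (a (nat_lit 0x2c32377914765)) e e))))))))))))))
 (c (nat_lit 1)
 (c z e
 (c z e
 (c (a (nat_lit 0x1f59c2e0806125)) e
 (c (a (nat_lit 0x1264e120a181e4)) e
 (c (a (nat_lit 0x193817fbd80766)) e
 (c z e
 (c z e
 (c z e
 (c (b (nat_lit 0xcd353bfe980e7)) e
 (c (a (nat_lit 0x137391b108e688)) e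
 (c (a (nat_lit 0x14b2f5f1915328)) e
 (c (a (nat_lit 0x5aa4ed9510b27)) e e))))))))))))
 (c (a (nat_lit 0x2020204041))
 (c (a (nat_lit 0x1068e0a0202026))
 (c (a (nat_lit 0x52681514162a047)) e e)
 (c (a (nat_lit 0x11816040208006)) e
 (c (b (nat_lit 0x14040409ff4a6)) e e)))
 (c (a (nat_lit 0x20000001))
 (c (a (nat_lit 0x4a24243ab1a24)) e
 (c z e
 (c z e
 (c z e
 (c z e
 (c z e
 (c z e
 (c z e
 (c z e
 (c (a (nat_lit 0xb4ca971094007)) e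
 (c (a (nat_lit 0x164fcfa0000006)) e e)))))))))))
 (c (a (nat_lit 0xa0a0a0a0a1))
 (c z e
 (c (a (nat_lit 0x20bf70262005)) e
 (c (a (nat_lit 0x65d2d68c4c245)) e
 (c z e
 (c z e
 (c z e
 (c z e
 (c (a (nat_lit 0xe8e182bc88ba7)) e
 (c (b (nat_lit 0x1ff14544a00006)) e
 (c (a (nat_lit 0x19004000000005)) e e))))))))))
 (c (a (nat_lit 0x20202030c7))
 (c (a (nat_lit 0x694ee60e32184)) e
 (c (a (nat_lit 0x1126408f8a2f45)) e
 (c z e
 (c z e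
 (c z e
 (c (a (nat_lit 0xb72b549efe708)) e
 (c (a (nat_lit 0xcb20949372008)) e
 (c (a (nat_lit 0x1b25c5c0000006)) e e))))))))
 (c (a (nat_lit 0x202033c667))
 (c (a (nat_lit 0x10ef0ef0ea1645)) e
 (c z e
 (c z e
 (c z e
 (c (a (nat_lit 0x159bdafb9874e8)) e
 (c (a (nat_lit 0xe0aebb5200008)) e
 (c (a (nat_lit 0x13e06000000005)) e e)))))))
 (c (a (nat_lit 0x20362cabe6)) e
 (c z e
 (c (a (nat_lit 0x16bc186a09e6)) e
 (c (a (nat_lit 0x119b60402005)) e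
 (c (a (nat_lit 0x1e2383434e85)) e
 (c (a (nat_lit 0xaca404bdac4)) e
 (c (a (nat_lit 0x9e4ecb24fc5)) e
 (c z e
 (c (a (nat_lit 0x2fccd4625e3)) e
 (c (a (nat_lit 0x16c800a04103)) e
 (c (a (nat_lit 0x20040207b45)) e
 (c (a (nat_lit 0x20209b5045)) e e)))))))))))))))))))
 (c (nat_lit 1)
 (c (a (nat_lit 0x2020002021))
 (c (a (nat_lit 0xf90cc0ba90905))
 (c z e
 (c z e
 (c z e
 (c (a (nat_lit 0x12a9deb72fc87dc6)) e e))))
 (c (a (nat_lit 0x1fede140202065))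
 (c (a (nat_lit 0xfa4a1d4c4894728)) e e)
 (c (a (nat_lit 0x1ac2804020f624)) e
 (c (a (nat_lit 0xe6d4d4d908025)) e
 (c z e
 (c z e
 (c z e
 (c (a (nat_lit 0xc68bad5e3c786)) e
 (c (a (nat_lit 0x913eeec21e3a7)) e
 (c (a (nat_lit 0x1a755509278e87)) e
 (c (a (nat_lit 0x14541413dbd3e7)) e
 (c (a (nat_lit 0xb4b52dcf027c6)) e e))))))))))))
 (c (a (nat_lit 0x2020204041))
 (c (a (nat_lit 0x12814020206b85))
 (c (a (nat_lit 0x6639029e5e4a408)) e e)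
 (c z e
 (c z e
 (c z e
 (c z e
 (c z e
 (c (a (nat_lit 0xe9dde8d29b847)) e
 (c (a (nat_lit 0x1858b6294dcd88)) e e))))))))
 (c (a (nat_lit 0x2040404041)) e
 (c (a (nat_lit 0x2020203127))
 (c z e
 (c z e
 (c z e
 (c z e
 (c z e
 (c z e
 (c z e
 (c (b (nat_lit 0x1fecd7bae56006)) e
 (c (a (nat_lit 0xe502620000006)) e e)))))))))
 (c (a (nat_lit 0x2020372d47))
 (c (a (nat_lit 0x324ca11a245c7)) e
 (c z e
 (c z e
 (c z e
 (c z e
 (c z e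
 (c (a (nat_lit 0xf0c114c400008)) e
 (c (a (nat_lit 0x1caac000000006)) e e))))))))
 (c (a (nat_lit 0x20308a63c8))
 (c (a (nat_lit 0x7c8af8cb02de7)) e
 (c z e
 (c z e
 (c z e
 (c z e
 (c (a (nat_lit 0x120ffca0000008)) e
 (c (a (nat_lit 0x15600000000005)) e e)))))))
 (c (a (nat_lit 0x33c564a0547)) e
 (c (a (nat_lit 0x1535c8838387))
 (c (a (nat_lit 0x8e88c9ac847c8)) e
 (c (a (nat_lit 0x566f78da52009)) e e))
 (c (a (nat_lit 0xc9204a48486))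
 (c (a (nat_lit 0x11208c2c00008)) e e)
 (c (a (nat_lit 0x13a6c6c6c926)) e
 (c (a (nat_lit 0xcec6f13b1c7)) e
 (c (a (nat_lit 0x16b638347426)) e
 (c z e
 (c (a (nat_lit 0x1ff8b3919165)) e
 (c (a (nat_lit 0x1ce880404103)) e
 (c (a (nat_lit 0x4402040b2c4)) e
 (c (a (nat_lit 0x40727224)) e e)))))))))))))))))
 (c (a (nat_lit 0x20202021))
 (c (a (nat_lit 0x4040404041))
 (c (a (nat_lit 0x2006040b0b203))
 (c (a (nat_lit 0x7d2f063a526a5a6)) e e)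
 (c z e
 (c z e
 (c z e
 (c z e
 (c z e
 (c (b (nat_lit 0x18f5ffe4e4a9c6)) e
 (c (a (nat_lit 0x13314f4045a026)) e
 (c (a (nat_lit 0xb8d2b7071aaa8)) e e)))))))))
 (c (a (nat_lit 0x2020203887))
 (c z e
 (c (a (nat_lit 0x789cae8eeda68))
 (c (a (nat_lit 0xc0cf207a0000009)) e e)
 (c z e
 (c z e
 (c z e
 (c z e
 (c (a (nat_lit 0xa49c8ecf371c8)) e e)))))))
 (c (a (nat_lit 0x2020316dc7))
 (c (a (nat_lit 0xe120621287c8))
 (c (a (nat_lit 0x19b025c000000005)) e e)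
 (c z e
 (c z e
 (c z e
 (c (a (nat_lit 0x1fee91c4e34807)) e
 (c (a (nat_lit 0xead2e11a52f68)) e e))))))
 (c (a (nat_lit 0x31cf23a8)) e
 (c z e
 (c z e
 (c (a (nat_lit 0xe56e0402005))
 (c (a (nat_lit 0x2e5b689e76068)) e
 (c (a (nat_lit 0x13d391e5400009)) e e))
 (c (a (nat_lit 0x190060403905))
 (c (a (nat_lit 0x1dfec4a0000007)) e e)
 (c (a (nat_lit 0xced105678a7)) e
 (c z e
 (c z e
 (c (a (nat_lit 0x1fb0c2202005)) e
 (c (a (nat_lit 0x10a220202005)) e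
 (c (a (nat_lit 0x48060407664)) e
 (c (a (nat_lit 0x60402ab085)) e
 (c z e
 (c z e
 (c (b (nat_lit 0x1ffa01800002)) e e))))))))))))))))))
 C369)))) Tr.c Tr.e (nat_lit 0) C.cx C.cy
noncomputable def C371 : Tr := beta% (fun (c : Nat → Tr → Tr → Tr) (e : Tr) (z : Nat) (a b : Nat → Nat) =>
 (c (a (nat_lit 0x202001))
 (c (a (nat_lit 0x2d258d029c9a5))
 (c (a (nat_lit 0x14545bb715565806)) e
 (c (a (nat_lit 0x2a904d46a78927))
 (c (a (nat_lit 0x124d19f4753a975b68)) e e)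
 (c z e
 (c (a (nat_lit 0x1a50988e2ce6a0e6)) e
 (c (a (nat_lit 0x3c6b149e7218027)) e
 (c (a (nat_lit 0x78e4c100c02d506)) e
 (c z e
 (c (a (nat_lit 0xd0a2243736aff26)) e
 (c (a (nat_lit 0x3c2a96d6a4a92e7)) e
 (c (a (nat_lit 0x20ef0d97fdcc06)) e
 (c (a (nat_lit 0x38a7aa66f236007)) e e)))))))))))
 (c (a (nat_lit 0x16fe92afcfcbe6))
 (c (a (nat_lit 0x129d3d8dcdef5267))
 (c (a (nat_lit 0xd5cb4f094b2ddb808)) e
 (c (a (nat_lit 0x1126e6a868e828686a)) e e))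
 (c z e
 (c z e
 (c z e
 (c z e
 (c (a (nat_lit 0x6850b84c6d295a8)) e
 (c (a (nat_lit 0x7850249ae083f48)) e e)))))))
 (c (a (nat_lit 0x1169cacaa7e2e6)) e
 (c (a (nat_lit 0xb0d8d8acad1e6))
 (c z e
 (c (a (nat_lit 0x9e9d32eb00e8ac8)) e
 (c (a (nat_lit 0xa52691088718f68)) e
 (c z e
 (c z e
 (c z e
 (c (a (nat_lit 0x7502f89c4a00008)) e
 (c (a (nat_lit 0xfbb06c000000007)) e e))))))))
 (c (a (nat_lit 0x197950c9f241a5))
 (c (a (nat_lit 0x466a9cbd0a92628)) e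
 (c (a (nat_lit 0x80a2dad95e9a608)) e
 (c z e
 (c z e
 (c (a (nat_lit 0xcad6d45b0a60008)) e
 (c (a (nat_lit 0x143213ace0000008)) e
 (c (a (nat_lit 0x1708000000000007)) e e)))))))
 (c (a (nat_lit 0x1007a870852325))
 (c (a (nat_lit 0xe2a33287636428)) e
 (c z e
 (c z e
 (c (a (nat_lit 0x1973036f85a00008)) e
 (c (a (nat_lit 0x1529e62000000008)) e
 (c (a (nat_lit 0x16e0000000000005)) e e))))))
 (c (a (nat_lit 0xf851d69c56564))
 (c z e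
 (c (a (nat_lit 0x1c738948cea5c008)) e e))
 (c (a (nat_lit 0x54080409726))
 (c (a (nat_lit 0x6c5099143200007)) e e)
 (c (a (nat_lit 0x3c18166d20747)) e
 (c (a (nat_lit 0x12106f1c806a7)) e
 (c (a (nat_lit 0x811fd730faf47)) e
 (c z e
 (c (a (nat_lit 0x140b6ac98ae9c7)) e
 (c (a (nat_lit 0xda8d25d5d0e84)) e
 (c (a (nat_lit 0x5aa4ff008cfa5)) e
 (c (a (nat_lit 0x974d4a653e084)) e e))))))))))))))))
 (c (a (nat_lit 0x2040404041))
 (c (a (nat_lit 0x144cad2d29a006))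
 (c (a (nat_lit 0x198a41612284dfc6))
 (c (a (nat_lit 0x13e9626464d1a62707)) e
 (c (a (nat_lit 0x14e6270b138b2f90c7)) e e))
 (c z e
 (c z e
 (c z e
 (c (a (nat_lit 0x102c963a6329b48)) e
 (c (a (nat_lit 0x5ec6847ae50b709)) e
 (c (a (nat_lit 0x3c163e6a9f0e909)) e e)))))))
 (c (a (nat_lit 0xccdd18ac481a7))
 (c z e
 (c z e
 (c z e
 (c z e
 (c (b (nat_lit 0x7c362ee78d13fe9)) e e)))))
 (c (b (nat_lit 0x1c7c7ffff7bfe6)) e
 (c z e
 (c (a (nat_lit 0x83b06a442445))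
 (c z e
 (c z e
 (c (a (nat_lit 0x108be8e70967400a)) e e)))
 (c (a (nat_lit 0x482160807266))
 (c (a (nat_lit 0x11bc89e6c7eb4529)) e
 (c (a (nat_lit 0x11070528c5c0000a)) e e))
 (c (a (nat_lit 0x1e0402105d168))
 (c (a (nat_lit 0x122eb74a60000008)) e e)
 (c (a (nat_lit 0x322e7ced7f528)) e
 (c z e
 (c z e
 (c (a (nat_lit 0xe76776d29c5a8)) e
 (c (a (nat_lit 0x112ca8c7050068)) e
 (c (a (nat_lit 0x120a494aab73e7)) e
 (c (a (nat_lit 0x6a487491a0926)) e e))))))))))))))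
 (c (a (nat_lit 0x6060606061))
 (c (a (nat_lit 0x173a9ef8349005)) e
 (c z e
 (c z e
 (c (a (nat_lit 0x102f63a1c1c1a5)) e
 (c (a (nat_lit 0x1b73d2d4978b86)) e
 (c (a (nat_lit 0xb2accd2703347))
 (c (a (nat_lit 0xcd72bc000000008)) e e)
 (c z e
 (c z e
 (c z e
 (c z e
 (c (a (nat_lit 0x10d55a732d4528)) e
 (c (a (nat_lit 0x1cbfd07f2b01e6)) e e))))))))))))
 (c (a (nat_lit 0x2001))
 (c (a (nat_lit 0xaf06c63404026)) e
 (c (a (nat_lit 0x17b3a1002026e6))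
 (c z e
 (c (a (nat_lit 0x6022366d5884669)) e e))
 (c (a (nat_lit 0x641008184b947))
 (c (a (nat_lit 0xcea45bf18b84b07)) e e)
 (c (b (nat_lit 0x3a35fedb92a27)) e
 (c z e
 (c z e
 (c (a (nat_lit 0x1efb2b788e567)) e
 (c (b (nat_lit 0x549f0879fe488)) e
 (c z e
 (c z e
 (c z e
 (c (a (nat_lit 0xbccbb20404006)) e
 (c (a (nat_lit 0xcbb0020000006)) e e)))))))))))))
 (c (a (nat_lit 0x16181816161))
 (c (a (nat_lit 0x12a04026a9a285))
 (c (a (nat_lit 0x4c2e76492c4c268)) e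
 (c (b (nat_lit 0x1894857b15fe1a8)) e e))
 (c (a (nat_lit 0xc8b90b3ceeea6))
 (c (b (nat_lit 0x8cb0f3d9fe3bfe7)) e e)
 (c z e
 (c z e
 (c (a (nat_lit 0x4e6a6e1592da7)) e
 (c (a (nat_lit 0x30347530b4928)) e
 (c (a (nat_lit 0x32ab6ce4f0528)) e
 (c z e
 (c z e
 (c (a (nat_lit 0xc0e9c8920e066)) e
 (c (a (nat_lit 0xe1c48e0a00006)) e
 (c (a (nat_lit 0x1a884000000006)) e e))))))))))))
 (c (nat_lit 1)
 (c (a (nat_lit 0xcb04387284025)) e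
 (c z e
 (c (a (nat_lit 0x15d21084402725)) e
 (c (a (nat_lit 0xaee05e35abba5)) e
 (c (a (nat_lit 0x7a589092a5647)) e
 (c (a (nat_lit 0x60b2cf1b0a348)) e
 (c z e
 (c (a (nat_lit 0xc391fc9820087)) e
 (c (a (nat_lit 0xbd1030402e007)) e
 (c (a (nat_lit 0x1ea28240000006)) e e))))))))))
 (c (a (nat_lit 0x6060404041))
 (c (a (nat_lit 0x1974f020814164)) e
 (c (a (nat_lit 0xc8aa0a0809b45)) e
 (c (b (nat_lit 0x8a5c6bfe79247)) e
 (c z e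
 (c z e
 (c z e
 (c (a (nat_lit 0x105baf60209da7)) e
 (c (a (nat_lit 0x136747e6600007)) e
 (c (a (nat_lit 0x1eb4a000000003)) e e)))))))))
 (c (a (nat_lit 0x2020203de5))
 (c (a (nat_lit 0x8c74788adf7c5)) e
 (c z e
 (c z e
 (c z e
 (c (a (nat_lit 0x230344055689)) e
 (c (a (nat_lit 0xb2ad32b188008)) e
 (c (a (nat_lit 0xbbe6aa0000005)) e e)))))))
 (c (a (nat_lit 0x4040522566))
 (c z e
 (c (a (nat_lit 0x220478ecfb348)) e
 (c (b (nat_lit 0x1fe268255f0908)) e e)))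
 (c (a (nat_lit 0x2a2af16f485))
 (c (b (nat_lit 0x1fe046ac0d1927)) e
 (c (a (nat_lit 0x3e3c5f14c49c9)) e e))
 (c (b (nat_lit 0x185768b1fe5))
 (c (a (nat_lit 0x104ba69e50348)) e e)
 (c (a (nat_lit 0x71978c02005)) e
 (c (a (nat_lit 0x12d8a06022c5)) e
 (c (a (nat_lit 0x1620202023c5)) e
 (c (a (nat_lit 0x6020441005)) e
 (c (a (nat_lit 0x479f90c4)) e
 (c z e
 (c (a (nat_lit 0x7938a892925)) e
 (c (a (nat_lit 0xa61a0203725)) e
 (c (b (nat_lit 0x1a020575fe5)) e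
 (c (a (nat_lit 0x3033a216a45)) e e)))))))))))))))))))))) Tr.c Tr.e (nat_lit 0) C.cx C.cy
noncomputable def C372 : Tr := beta% (fun (c : Nat → Tr → Tr → Tr) (e : Tr) (z : Nat) (a b : Nat → Nat) =>
 (c (a (nat_lit 0x4040404041))
 (c (a (nat_lit 0x20215146d86e7))
 (c (a (nat_lit 0x4023178c4caa26))
 (c z e
 (c z e
 (c z e
 (c (a (nat_lit 0x1631b471f57190cdc9)) e
 (c (a (nat_lit 0x1b92129999d34e0fa8)) e e)))))
 (c z e
 (c z e
 (c (b (nat_lit 0x19fecf6cbd0ffe7))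
 (c z e
 (c (a (nat_lit 0x1085c72648a5800009)) e
 (c (a (nat_lit 0x1a7e56750000000008)) e e)))
 (c (a (nat_lit 0x464a7b28e67e368)) e
 (c (a (nat_lit 0x5cccc2f29d309c7)) e
 (c z e
 (c z e
 (c (a (nat_lit 0x741e34bf02663c8)) e
 (c (a (nat_lit 0x281c77067a94908)) e
 (c (a (nat_lit 0x4a5c9d3438601e9)) e e)))))))))))
 (c z e
 (c (a (nat_lit 0x15f52966e6e508)) e
 (c (b (nat_lit 0x11bfe3231fe566))
 (c z e
 (c (a (nat_lit 0xfcfed6bf52f31e9)) e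
 (c (a (nat_lit 0x126f1310122c8b49)) e
 (c z e
 (c z e
 (c z e
 (c z e
 (c (a (nat_lit 0x1daf2c2400000009)) e e))))))))
 (c (a (nat_lit 0x11f2f2cc4b5886))
 (c (a (nat_lit 0x86585ea0732a149)) e
 (c (a (nat_lit 0xa0b4c6bb42329e9)) e
 (c z e
 (c z e
 (c z e
 (c (a (nat_lit 0x11e58bb787000008)) e
 (c (a (nat_lit 0x1478c92000000008)) e e)))))))
 (c (a (nat_lit 0xc6c462cd942c6))
 (c (a (nat_lit 0x13808aee8daf2ec7)) e
 (c z e
 (c z e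
 (c (a (nat_lit 0xe4f5d54bee92008)) e
 (c (a (nat_lit 0x1c19de4f80000008)) e
 (c (a (nat_lit 0x1747e00000000008)) e e))))))
 (c z e
 (c z e
 (c (a (nat_lit 0x2ac22628b367)) e
 (c (a (nat_lit 0x9c144ed56f0e7)) e
 (c (a (nat_lit 0x7caf1936f0ea8)) e
 (c z e
 (c z e
 (c (a (nat_lit 0x140bd12a21ef86)) e
 (c (a (nat_lit 0x10f64f47b4b106)) e
 (c (a (nat_lit 0x8a52147e61027)) e e))))))))))))))))
 (c (a (nat_lit 0x20000001))
 (c (a (nat_lit 0x19572cec4c2746))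
 (c (a (nat_lit 0x99b2c4221e025c6))
 (c (a (nat_lit 0xb932a84078f29b347)) e e)
 (c z e
 (c z e
 (c z e
 (c z e
 (c (a (nat_lit 0x442862385097489)) e
 (c (a (nat_lit 0x6c5a629ca2e3249)) e e)))))))
 (c (a (nat_lit 0x10a888c8a504e7)) e
 (c (a (nat_lit 0xaeb8cc7ef3527)) e
 (c z e
 (c z e
 (c (a (nat_lit 0x4865404402006))
 (c z e
 (c (a (nat_lit 0x1efc5931f32ae009)) e e))
 (c (a (nat_lit 0x6d26362a3aa26))
 (c (a (nat_lit 0x1b524c5544600008)) e e)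
 (c (a (nat_lit 0x5a1e565a63388)) e
 (c z e
 (c z e
 (c z e
 (c (a (nat_lit 0xfba144f6d2aa8)) e
 (c (a (nat_lit 0x1ed349c94a2887)) e
 (c (a (nat_lit 0x12a928a987e147)) e e))))))))))))))
 (c (a (nat_lit 0x202001))
 (c (a (nat_lit 0x1e5f3f1a302965)) e
 (c z e
 (c z e
 (c z e
 (c (a (nat_lit 0x11b6e7254287c6)) e
 (c (a (nat_lit 0x130342a4ca6ee6))
 (c (a (nat_lit 0x7ab71a980000009)) e e) e))))))
 (c (nat_lit 1)
 (c z e
 (c (a (nat_lit 0x1a5b1c304c0aa7))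
 (c z e
 (c (a (nat_lit 0x82646c5f02c440a)) e e))
 (c (a (nat_lit 0x105046c5e345c7))
 (c (a (nat_lit 0x64946f145a5e568)) e e)
 (c (a (nat_lit 0x1c87c5cb6989a6)) e
 (c z e
 (c z e
 (c z e
 (c (a (nat_lit 0x9078a71f3aee8)) e
 (c z e
 (c z e
 (c z e
 (c z e
 (c (a (nat_lit 0x1757e6c7600006)) e e)))))))))))))
 (c (a (nat_lit 0x20002001))
 (c (a (nat_lit 0xcf143e94843c6))
 (c (b (nat_lit 0x5017fee47b22148)) e
 (c (a (nat_lit 0x3e02f6d9c6745a8)) e e))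
 (c (a (nat_lit 0x1c096eabc2c666))
 (c (a (nat_lit 0x74bf11a37714b67)) e e)
 (c z e
 (c z e
 (c z e
 (c (a (nat_lit 0x3448283917388)) e
 (c (a (nat_lit 0x7858bf8ba9728)) e
 (c z e
 (c z e
 (c z e
 (c (a (nat_lit 0x11af0d93862008)) e
 (c (a (nat_lit 0x1553ed00000008)) e e))))))))))))
 (c (a (nat_lit 0x4040404041))
 (c (a (nat_lit 0x1e7d430452aa44))
 (c (a (nat_lit 0xd89ea326b862326)) e e)
 (c z e
 (c z e
 (c (a (nat_lit 0x2ada8c2a2fac6)) e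
 (c (a (nat_lit 0x6c461a20d7b27)) e
 (c (a (nat_lit 0x5254d72572ea8)) e
 (c z e
 (c z e
 (c (a (nat_lit 0x8b50ee2468187)) e
 (c (a (nat_lit 0x1811e585400007)) e
 (c (a (nat_lit 0x19c0a000000006)) e e)))))))))))
 (c (nat_lit 1)
 (c z e
 (c (a (nat_lit 0xff7c88082f145)) e
 (c (a (nat_lit 0xf684362807dc6)) e
 (c z e
 (c z e
 (c z e
 (c (a (nat_lit 0x9cd51a821a468)) e
 (c (a (nat_lit 0xa12a220e1e007)) e
 (c (a (nat_lit 0x10e06040000007)) e e)))))))))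
 (c (a (nat_lit 0x10101012121))
 (c (a (nat_lit 0x126d8a8c4b7845)) e
 (c z e
 (c z e
 (c z e
 (c z e
 (c (a (nat_lit 0x5e5ca480370a9)) e
 (c (a (nat_lit 0x11b9bbc1200005)) e e)))))))
 (c (a (nat_lit 0x2020203745))
 (c z e
 (c z e
 (c (a (nat_lit 0x830426249389)) e e)))
 (c (a (nat_lit 0x2020383345))
 (c (a (nat_lit 0x22021e9d32e47)) e
 (c (a (nat_lit 0x34304eb154f89)) e e))
 (c (a (nat_lit 0xe0ffb4e705))
 (c (a (nat_lit 0x14206b109c449)) e e)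
 (c (b (nat_lit 0x1c1fe23fe4)) e
 (c (a (nat_lit 0x120eefaa4a47)) e
 (c (a (nat_lit 0xff320202065)) e
 (c (a (nat_lit 0x13002020ef05)) e
 (c (a (nat_lit 0x20679366)) e
 (c z e
 (c z e
 (c (a (nat_lit 0xcf70a4767e6)) e
 (c (a (nat_lit 0x1ec54020a725)) e
 (c (a (nat_lit 0x741a2a936c5)) e e)))))))))))))))))))))) Tr.c Tr.e (nat_lit 0) C.cx C.cy
noncomputable def C373 : Tr := beta% (fun (c : Nat → Tr → Tr → Tr) (e : Tr) (z : Nat) (a b : Nat → Nat) =>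
 (c (a (nat_lit 0x20200001))
 (c (a (nat_lit 0x2020201667))
 (c (a (nat_lit 0xbc64ed5ca84fe05))
 (c z e
 (c (a (nat_lit 0xe6e8d6b2ed3eecb29))
 (c (a (nat_lit 0x707a666686adf52258a)) e e)
 (c z e
 (c z e
 (c z e
 (c z e
 (c (a (nat_lit 0x1450ec93ef3010e8c8)) e e)))))))
 (c (a (nat_lit 0x32a62245bdc86))
 (c (a (nat_lit 0x1191cccd9675cf8e69))
 (c (a (nat_lit 0x2c2a24263302be3e3ab)) e e)
 (c z e
 (c z e
 (c z e
 (c z e
 (c (a (nat_lit 0x102f5a2f30af888569)) e e))))))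
 (c z e
 (c z e
 (c z e
 (c z e
 (c (a (nat_lit 0xa08a369c4510d27)) e
 (c z e
 (c z e
 (c z e
 (c z e
 (c (a (nat_lit 0x8e5c76c65c85c48)) e e))))))))))))
 (c (a (nat_lit 0x202034eac8))
 (c (a (nat_lit 0x2361286a765487))
 (c (a (nat_lit 0x172e6eb53f158fc8c8)) e
 (c z e
 (c z e
 (c z e
 (c (a (nat_lit 0x1cb6d1cb8f4ead4aca)) e
 (c (a (nat_lit 0xc1364682aa5620049)) e e))))))
 (c z e
 (c z e
 (c z e
 (c (a (nat_lit 0x86787078276b5a8))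
 (c z e
 (c (a (nat_lit 0x169aec8f48c0000008)) e e))
 (c (a (nat_lit 0x647ea6f4e9256a7)) e
 (c z e
 (c z e
 (c z e
 (c (a (nat_lit 0xed0a28127e86b48)) e
 (c (a (nat_lit 0x8e8484b6d597109)) e e)))))))))))
 (c (a (nat_lit 0x20203b5028c8)) e
 (c (a (nat_lit 0x203fb365e648)) e
 (c (a (nat_lit 0x1134a84436369)) e
 (c (a (nat_lit 0x1b6724640403e8))
 (c z e
 (c (a (nat_lit 0x5876747d2e6258a)) e
 (c z e
 (c z e
 (c z e
 (c z e
 (c (a (nat_lit 0x1516f348c7000009)) e e)))))))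
 (c (a (nat_lit 0x134280606071a6))
 (c (a (nat_lit 0x8aba86745a872e8)) e
 (c z e
 (c z e
 (c z e
 (c (a (nat_lit 0x3ab1391fb256008)) e
 (c (a (nat_lit 0x13f10d04c0000009)) e e))))))
 (c (a (nat_lit 0x40e0e1e81187)) e
 (c z e
 (c z e
 (c (a (nat_lit 0xdd4b666cf47)) e
 (c (a (nat_lit 0xdd1534f534ee8)) e
 (c z e
 (c z e
 (c z e
 (c z e
 (c (a (nat_lit 0x13e6ae212766e6)) e e)))))))))))))))))
 (c (a (nat_lit 0x2020202021))
 (c (a (nat_lit 0x20203d33ed27))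
 (c (a (nat_lit 0x80686919595046))
 (c z e
 (c z e
 (c z e
 (c z e
 (c (a (nat_lit 0x18fc2beef9330b8da8)) e
 (c (a (nat_lit 0x1665248aeb28a4a468)) e e))))))
 (c z e
 (c z e
 (c z e
 (c (a (nat_lit 0xab3cb8d1a375227))
 (c (a (nat_lit 0x1ad18c8bab49400008)) e
 (c (a (nat_lit 0x170166e4e000000008)) e e))
 (c (a (nat_lit 0x1eadd2589b39cde6)) e
 (c z e
 (c z e
 (c z e
 (c (a (nat_lit 0x1b6883ef8b783b27)) e
 (c (a (nat_lit 0x524e72778c94768)) e e)))))))))))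
 (c (a (nat_lit 0x2021e952de808)) e
 (c z e
 (c (b (nat_lit 0x19523fe10100a8)) e
 (c (b (nat_lit 0x14dfe26221d005))
 (c (a (nat_lit 0x267288289d26989)) e
 (c (b (nat_lit 0x2e9c3a83228ffe9)) e
 (c z e
 (c z e
 (c z e
 (c z e
 (c (a (nat_lit 0x1897882780000008)) e e)))))))
 (c (a (nat_lit 0x24060416f1946))
 (c (a (nat_lit 0x1daea0e8ff851287)) e
 (c z e
 (c z e
 (c z e
 (c (a (nat_lit 0xaa93317a6000008)) e
 (c (a (nat_lit 0x1335668000000007)) e e))))))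
 (c (a (nat_lit 0x3a3a56b303107)) e
 (c z e
 (c z e
 (c (a (nat_lit 0x66cd3cf4c32c7)) e
 (c (a (nat_lit 0xb6f8d30f07028)) e
 (c z e
 (c z e
 (c z e
 (c (a (nat_lit 0x17bd35c0405026)) e
 (c (a (nat_lit 0x1d55e0407052e6)) e e))))))))))))))))
 (c (a (nat_lit 0x4040404041))
 (c (a (nat_lit 0x219b40ca72627)) e
 (c (a (nat_lit 0x18d084a221a048)) e
 (c (a (nat_lit 0x18e628e6e26da6)) e
 (c (a (nat_lit 0x1190d32d931e26)) e e))))
 (c (nat_lit 1)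
 (c (a (nat_lit 0x170e8faf8cc6c6)) e
 (c (a (nat_lit 0xfb1512f1032c7)) e e))
 (c (nat_lit 1)
 (c (a (nat_lit 0xe0e0c71740a87)) e
 (c z e
 (c z e
 (c z e
 (c z e
 (c z e
 (c z e
 (c z e
 (c z e
 (c z e
 (c z e
 (c z e
 (c z e
 (c (a (nat_lit 0xbdec5c0000006)) e e))))))))))))))
 (c (a (nat_lit 0x2020202021))
 (c (a (nat_lit 0xe0c2f13662727))
 (c z e
 (c (a (nat_lit 0x76784ef6f914889)) e e))
 (c (a (nat_lit 0x1338bf49a6aae7))
 (c (a (nat_lit 0x102b63291082508)) e e)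
 (c z e
 (c z e
 (c z e
 (c z e
 (c (a (nat_lit 0x66565eb4cb4a8)) e
 (c z e
 (c z e
 (c z e
 (c z e
 (c (a (nat_lit 0x1697314e000008)) e
 (c (a (nat_lit 0x18a66000000007)) e e)))))))))))))
 (c (a (nat_lit 0x2040404041))
 (c (a (nat_lit 0x17ff8343ad23c6))
 (c (a (nat_lit 0x1216f338d1d23646)) e e)
 (c z e
 (c z e
 (c z e
 (c (b (nat_lit 0x139ff00ae439a5)) e
 (c (a (nat_lit 0x524e4c80a73e8)) e
 (c z e
 (c z e
 (c z e
 (c (a (nat_lit 0x150b0e1204007)) e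
 (c (a (nat_lit 0xfd02040000007)) e e)))))))))))
 (c (a (nat_lit 0x20000001))
 (c z e
 (c z e
 (c z e
 (c z e
 (c z e
 (c z e
 (c z e
 (c (a (nat_lit 0xb2b5048876647)) e
 (c (a (nat_lit 0xa7444c2400006)) e e)))))))))
 (c (a (nat_lit 0x202021))
 (c (a (nat_lit 0x14c8f0902164e4)) e
 (c z e
 (c z e
 (c z e
 (c z e
 (c z e
 (c (a (nat_lit 0x11e1614c40a005)) e e)))))))
 (c (a (nat_lit 0x101212120e1)) e
 (c (a (nat_lit 0x20202033e7))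
 (c z e
 (c (a (nat_lit 0x6c5238df42628)) e e))
 (c (a (nat_lit 0x20144407))
 (c (a (nat_lit 0xc04852a33548)) e e)
 (c (a (nat_lit 0x203080c007)) e
 (c z e
 (c (a (nat_lit 0x13c3a3c04047)) e
 (c (a (nat_lit 0x1a1bc04031a4)) e
 (c (a (nat_lit 0x700202490e6)) e
 (c (a (nat_lit 0x6a6a86f14a7)) e
 (c z e
 (c z e
 (c (a (nat_lit 0x94fd560a127)) e
 (c (a (nat_lit 0xf14a0206367)) e e))))))))))))))))))))))) Tr.c Tr.e (nat_lit 0) C.cx C.cy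
noncomputable def C374 : Tr := beta% (fun (c : Nat → Tr → Tr → Tr) (e : Tr) (z : Nat) (a b : Nat → Nat) =>
 (c (a (nat_lit 0x2020202021))
 (c z
 (c (a (nat_lit 0xd8d8d81f3d509a4)) e
 (c (a (nat_lit 0x80803b3d3e0c0c5)) e
 (c (a (nat_lit 0x164d6d000202265)) e
 (c (a (nat_lit 0x9f2116060228825))
 (c z e
 (c z e
 (c z e
 (c z e
 (c z e
 (c z e
 (c (a (nat_lit 0x9508f0a82684af1e7)) e e)))))))
 (c (a (nat_lit 0x1c36e7874a222be4))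
 (c z e
 (c z e
 (c z e
 (c z e
 (c (a (nat_lit 0x11ec6dcf16b2fdf9c6)) e
 (c z e
 (c (a (nat_lit 0x74b4466506f4fdc27)) e e)))))))
 (c (a (nat_lit 0x128acaac06086605)) e
 (c (a (nat_lit 0xe4e2f6db0e36025)) e
 (c z e
 (c z e
 (c z e
 (c z e
 (c z e
 (c z e
 (c (a (nat_lit 0x12f1d24e8e482606)) e e))))))))))))))
 (c z
 (c (a (nat_lit 0x8317df8c1802b85))
 (c z e
 (c z e
 (c z e
 (c z e
 (c z e
 (c z e
 (c z e
 (c (a (nat_lit 0x5e632f2c805c72327)) e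
 (c (a (nat_lit 0x2c5088485626776e8)) e
 (c z e
 (c (a (nat_lit 0x2c74665c191681148)) e e)))))))))))
 (c (a (nat_lit 0x1f3df2e04024d9c6)) e
 (c (a (nat_lit 0x1189e0c0a54dd386)) e
 (c (a (nat_lit 0xf25e5c8e6cbfd66)) e
 (c z e
 (c z e
 (c z e
 (c z e
 (c z e
 (c z e
 (c z e
 (c z e
 (c (a (nat_lit 0x1c1e7c1acf71ea47)) e e)))))))))))))
 (c z
 (c (a (nat_lit 0xe85c16140d185c6))
 (c z e
 (c z e
 (c z e
 (c z e
 (c z e
 (c z e
 (c z e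
 (c z e
 (c (a (nat_lit 0x343e3e1baa62feb68)) e e)))))))))
 (c (a (nat_lit 0xc46c6a357b382a6)) e e))
 (c z
 (c (b (nat_lit 0x787855ff00626c6)) e e)
 (c z
 (c z e
 (c z e
 (c z e
 (c z e
 (c z e
 (c z e
 (c (a (nat_lit 0xc97116c4081a766)) e
 (c (a (nat_lit 0x183594d105629187)) e
 (c (a (nat_lit 0xaa9690a01e0b2c8)) e e)))))))))
 (c (a (nat_lit 0x1010101011307)) e
 (c (a (nat_lit 0x202020326cc7)) e
 (c (a (nat_lit 0x20203dab2827)) e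
 (c (a (nat_lit 0x4041b9246a286)) e
 (c (a (nat_lit 0x41c34a6c3a3a6)) e
 (c (a (nat_lit 0x1167c4004024e6)) e
 (c (a (nat_lit 0x130d45c58f0f25)) e
 (c (a (nat_lit 0x80040294a3e65))
 (c z e
 (c (a (nat_lit 0x19f5f74000000008)) e e))
 (c (a (nat_lit 0x626098bf13647))
 (c (a (nat_lit 0x104e800000000007)) e e) e))))))))))))))
 (c (nat_lit 1)
 (c z
 (c (a (nat_lit 0xbb64ee2c0256a85))
 (c z e
 (c z e
 (c z e
 (c z e
 (c z e
 (c z e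
 (c z e
 (c (a (nat_lit 0x60b6d87a48664d467)) e
 (c (a (nat_lit 0x2c40301c0439c40a8)) e e)))))))))
 (c (a (nat_lit 0x1668420083f17386)) e
 (c (a (nat_lit 0x8e5050850375846))
 (c z e
 (c z e
 (c z e
 (c z e
 (c (a (nat_lit 0x722c4ad9a274f8489)) e e))))) e)))
 (c z
 (c (a (nat_lit 0xd29c9a89b978d66)) e e)
 (c z e
 (c (a (nat_lit 0x1608)) e
 (c (a (nat_lit 0x194b68)) e
 (c (a (nat_lit 0x20203169c3e9)) e
 (c (a (nat_lit 0x10112c523e289)) e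
 (c z e
 (c (a (nat_lit 0x13e9e281816388)) e
 (c (a (nat_lit 0xaa340806c1466)) e
 (c (a (nat_lit 0x3822207ee3627)) e e)))))))))))
 (c (nat_lit 1)
 (c z e
 (c (a (nat_lit 0x202020203188)) e
 (c (a (nat_lit 0x20202032ebe8)) e
 (c (a (nat_lit 0x3f952768))
 (c z e
 (c z e
 (c z e
 (c z e
 (c (a (nat_lit 0x14925cd48106088)) e e)))))
 (c (a (nat_lit 0x1e92246428)) e
 (c z e
 (c (a (nat_lit 0x1069c2c0e0c028)) e
 (c (a (nat_lit 0x146020c0a190c6)) e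
 (c (a (nat_lit 0x1204022b63986)) e e)))))))))
 (c (a (nat_lit 0x8080808081))
 (c (a (nat_lit 0x202020318a87)) e
 (c (a (nat_lit 0x202038f008e8)) e
 (c (a (nat_lit 0x203d94270528)) e
 (c z e
 (c z e
 (c (a (nat_lit 0x14472363408566))
 (c (a (nat_lit 0x10ea867334d2a27)) e
 (c z e
 (c z e
 (c z e
 (c z e
 (c (a (nat_lit 0x17d4b9e4c0000007)) e e))))))
 (c (a (nat_lit 0x628a867a83bc6)) e
 (c (b (nat_lit 0x363447fef9027)) e e))))))))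
 (c (a (nat_lit 0x2020202021))
 (c (a (nat_lit 0x350f47c487)) e
 (c z e
 (c (a (nat_lit 0x17916523838168)) e
 (c (a (nat_lit 0x12edcd0d0981e7)) e
 (c (a (nat_lit 0x118d0f6763f546)) e e)))))
 (c (nat_lit 1)
 (c (a (nat_lit 0x1ab704e2626047)) e
 (c (b (nat_lit 0x10472868443fe7)) e
 (c (a (nat_lit 0x1312926f04a667)) e
 (c (b (nat_lit 0xe702b7fef32c6)) e
 (c z e
 (c z e
 (c z e
 (c z e
 (c z e
 (c z e
 (c z e
 (c z e
 (c z e
 (c z e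
 (c z e
 (c (a (nat_lit 0x1ba14080000004)) e e))))))))))))))))
 (c (a (nat_lit 0x2020202021))
 (c (a (nat_lit 0xcf03007a4dbc5))
 (c (a (nat_lit 0x9c06323cc7c4e06)) e e)
 (c z e
 (c z e
 (c z e
 (c z e
 (c z e
 (c z e
 (c z e
 (c z e
 (c z e
 (c z e
 (c z e
 (c z e
 (c (a (nat_lit 0x10c02060400006)) e e))))))))))))))
 (c (a (nat_lit 0x20000001))
 (c z e
 (c z e
 (c z e
 (c z e
 (c z e
 (c z e
 (c z e
 (c z e
 (c z e
 (c z e
 (c z e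
 (c (b (nat_lit 0x1ff52040a04005)) e
 (c (a (nat_lit 0x1560a0c0000005)) e e)))))))))))))
 (c (a (nat_lit 0x6060606061))
 (c z e
 (c z e
 (c z e
 (c z e
 (c z e
 (c z e
 (c z e
 (c z e
 (c z e
 (c z e
 (c (a (nat_lit 0x19a3a0600005)) e e)))))))))))
 (c (a (nat_lit 0x6060606061)) e
 (c (a (nat_lit 0x4040404041)) e
 (c (a (nat_lit 0x101414140c1)) e
 (c (a (nat_lit 0xa0a0a0a0a1))
 (c z e
 (c (a (nat_lit 0xaec6d0c969968)) e e))
 (c (a (nat_lit 0x2020203007))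
 (c (a (nat_lit 0x24609d1da8007)) e e)
 (c (a (nat_lit 0x20201881a6)) e
 (c (a (nat_lit 0x17002026)) e
 (c z e
 (c (a (nat_lit 0x1b6424602006)) e
 (c (a (nat_lit 0x11b280202844)) e
 (c (b (nat_lit 0x12204027ffe4)) e
 (c (a (nat_lit 0x282848031c6)) e e)))))))))))))))))))))) Tr.c Tr.e (nat_lit 0) C.cx C.cy
noncomputable def C375 : Tr := beta% (fun (c : Nat → Tr → Tr → Tr) (e : Tr) (z : Nat) (a b : Nat → Nat) =>
 (c (a (nat_lit 0xa0a0a0a0a1))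
 (c (a (nat_lit 0x202020203a86)) e
 (c (a (nat_lit 0x202020320c08)) e
 (c (a (nat_lit 0x80809fd6a608)) e
 (c (a (nat_lit 0x2021b96056588)) e
 (c z e
 (c (a (nat_lit 0x110ea361c1a028)) e
 (c (a (nat_lit 0x1f87e68643d986)) e
 (c (a (nat_lit 0x3c4444470aec7))
 (c (a (nat_lit 0x34744d3260225c9)) e e)
 (c z e
 (c z e
 (c z e
 (c z e
 (c z e
 (c z e
 (c z e
 (c z e
 (c z e
 (c (a (nat_lit 0x5d607c0604025)) e
 (c (a (nat_lit 0x15e7c0a0600005)) e e)))))))))))))))))))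
 (c (a (nat_lit 0x2020202021))
 (c (a (nat_lit 0x20203b328307))
 (c (a (nat_lit 0x80e1a470c0c327))
 (c z e
 (c (a (nat_lit 0x262313d2de7234048)) e
 (c z e
 (c (a (nat_lit 0x187485850685e2a8a8)) e
 (c (a (nat_lit 0xd096cfa8c6aae8007)) e e)))))
 (c z e
 (c z e
 (c z e
 (c z e
 (c z e
 (c (a (nat_lit 0x76022aa128ac6e7)) e
 (c (a (nat_lit 0x8c90bb4ac05c868)) e e))))))))
 (c (a (nat_lit 0x203e796705e8)) e
 (c z e
 (c (a (nat_lit 0x19ec0422c2a028)) e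
 (c (b (nat_lit 0x1287854520ffe7)) e
 (c (a (nat_lit 0x102dcea843d226)) e
 (c z e
 (c z e
 (c z e
 (c (a (nat_lit 0xf5c53b4765027)) e
 (c (a (nat_lit 0x108c4cadab1308)) e
 (c z e
 (c z e
 (c z e
 (c z e
 (c (a (nat_lit 0x1da78c63838507)) e
 (c (a (nat_lit 0xc15a3a3838006)) e
 (c (a (nat_lit 0x12808020000006)) e e))))))))))))))))))
 (c (nat_lit 1)
 (c (a (nat_lit 0xb290c624a3c8)) e
 (c (a (nat_lit 0x12b005e4a422e9))
 (c (a (nat_lit 0x1e36382802c3369))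
 (c (a (nat_lit 0x17d76ee8ab47600007)) e e)
 (c z e
 (c z e
 (c z e
 (c z e
 (c z e
 (c (a (nat_lit 0xecb2596c4ea040a)) e
 (c (a (nat_lit 0xaccb5a963e0000a)) e e))))))))
 (c (a (nat_lit 0x1c1392f0ebe2e7)) e
 (c (a (nat_lit 0x1e995930a78626)) e
 (c z e
 (c z e
 (c z e
 (c (a (nat_lit 0xb9c4c24008046)) e
 (c (a (nat_lit 0x144aa6870060e7)) e
 (c z e
 (c z e
 (c z e
 (c z e
 (c z e
 (c (a (nat_lit 0x16317353f1f007)) e
 (c (a (nat_lit 0xc93f687400005)) e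
 (c (a (nat_lit 0x1b6f2000000005)) e e)))))))))))))))))
 (c (nat_lit 1)
 (c (a (nat_lit 0x1123c5452020e6))
 (c (a (nat_lit 0x220e04049f07967)) e
 (c z e
 (c z e
 (c z e
 (c z e
 (c z e
 (c (a (nat_lit 0x10c3d87359a8c008)) e
 (c (a (nat_lit 0x116b4c2100000009)) e e))))))))
 (c (b (nat_lit 0x10b010061fffe6)) e
 (c z e
 (c z e
 (c z e
 (c z e
 (c (a (nat_lit 0x10462421c161a7)) e
 (c (a (nat_lit 0x11afad476768a7)) e
 (c z e
 (c z e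
 (c z e
 (c z e
 (c z e
 (c (a (nat_lit 0x1915b29693e007)) e
 (c (a (nat_lit 0x1205eac0000005)) e e)))))))))))))))
 (c (a (nat_lit 0x20000001))
 (c (b (nat_lit 0x11918e1fffffe6)) e
 (c z e
 (c z e
 (c (b (nat_lit 0x1ff8928120c0e6)) e e))))
 (c (a (nat_lit 0xe0e0e0e0e1))
 (c z e
 (c (b (nat_lit 0x1fef90e0a04105))
 (c (a (nat_lit 0x5134ca9c6e6e389)) e
 (c (a (nat_lit 0xc91504ea6e00009)) e e))
 (c (a (nat_lit 0x11956180814045))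
 (c (a (nat_lit 0xc907284e0000008)) e e) e)))
 (c (a (nat_lit 0x2001))
 (c (a (nat_lit 0x183361410224e4))
 (c (a (nat_lit 0x128b888705226008)) e
 (c (a (nat_lit 0x1973f0c620000008)) e e))
 (c (a (nat_lit 0x1fe9c888a6b4e5))
 (c (a (nat_lit 0x13d1a42000000008)) e e) e))
 (c (a (nat_lit 0xa0a0a0a0a1))
 (c (a (nat_lit 0xe2f10ab53da25))
 (c (a (nat_lit 0x15c3000000000006)) e e)
 (c z e
 (c z e
 (c (b (nat_lit 0x1ffff97fe0e0e5)) e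
 (c (b (nat_lit 0x1fec7fef8c9b27)) e
 (c z e
 (c (a (nat_lit 0x38132a2ff25)) e e)))))))
 (c (a (nat_lit 0xc101010081))
 (c z e
 (c (a (nat_lit 0x58fb42f64e007)) e
 (c (a (nat_lit 0xa926ee6c5bb87)) e e)))
 (c (a (nat_lit 0x2020202021))
 (c (a (nat_lit 0x16fb97b5805306)) e
 (c (a (nat_lit 0x9aa2ae968f728)) e e))
 (c (nat_lit 1)
 (c (a (nat_lit 0x22e425701ce7)) e e)
 (c (a (nat_lit 0x2020203366))
 (c z e
 (c z e
 (c (a (nat_lit 0x14d774a0000008)) e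
 (c (a (nat_lit 0x16a00000000005)) e e))))
 (c (a (nat_lit 0x11e3c6))
 (c (a (nat_lit 0xe4e900dc00009)) e
 (c (a (nat_lit 0x1c340000000006)) e e))
 (c (a (nat_lit 0x2038cac3e6)) e
 (c (b (nat_lit 0x17c9a2dfe6)) e
 (c z e
 (c (a (nat_lit 0x162840202005)) e
 (c (a (nat_lit 0x1160a0410004)) e
 (c (a (nat_lit 0x60408030c6)) e
 (c z e
 (c z e
 (c z e
 (c (b (nat_lit 0x103fe0204066)) e
 (c (b (nat_lit 0x1fffe240c001)) e
 (c (a (nat_lit 0x160000001)) e e)))))))))))))))))))))))))) Tr.c Tr.e (nat_lit 0) C.cx C.cy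
noncomputable def C376 : Tr := beta% (fun (c : Nat → Tr → Tr → Tr) (e : Tr) (z : Nat) (a b : Nat → Nat) =>
 (c (a (nat_lit 0x2020202021))
 (c z
 (c (b (nat_lit 0x2020203ff2eaa3))
 (c (a (nat_lit 0xc0c0e92d372edae06)) e
 (c z e
 (c z e
 (c z e
 (c z e
 (c z e
 (c z e
 (c z e
 (c (a (nat_lit 0x44165460913ab2386)) e
 (c z e
 (c z e
 (c (a (nat_lit 0x6a681c34890a88968)) e e))))))))))))
 (c (a (nat_lit 0x3a3a3bc8d09c047))
 (c z e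
 (c z e
 (c z e
 (c z e
 (c z e
 (c z e
 (c z e
 (c z e
 (c (a (nat_lit 0x906a8cdf528e640e7)) e e)))))))))
 (c (a (nat_lit 0x101147028a06027))
 (c z e
 (c z e
 (c z e
 (c z e
 (c z e
 (c z e
 (c z e
 (c (a (nat_lit 0x129114f6172faedd07)) e e))))))))
 (c (b (nat_lit 0x1ff631e8e0c062c7)) e
 (c (a (nat_lit 0x16f40a8261e3a6a7))
 (c z e
 (c z e
 (c z e
 (c z e
 (c (a (nat_lit 0x3a5056423c766b309)) e e)))))
 (c (a (nat_lit 0x102a24e3c5874be7)) e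
 (c (a (nat_lit 0xa450506cad00367)) e
 (c (a (nat_lit 0x1050523577092127)) e e))))))))
 (c z
 (c (b (nat_lit 0x1213088657fe028)) e
 (c (b (nat_lit 0x1ff0284440202349)) e
 (c (a (nat_lit 0x1fb40ac0c0a35128)) e
 (c (a (nat_lit 0x1643a14023ebf207)) e
 (c (a (nat_lit 0x9c6a68a4dedd8c7)) e e)))))
 (c z
 (c (a (nat_lit 0x1ad0464020271f07)) e
 (c (a (nat_lit 0xd02c0404275ede8)) e
 (c (a (nat_lit 0x600e1061d71ede7)) e e)))
 (c z
 (c (a (nat_lit 0x4c44442908ea9e7))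
 (c z e
 (c z e
 (c z e
 (c z e
 (c z e
 (c (a (nat_lit 0x84442662531c50409)) e e))))))
 (c z e
 (c z e
 (c z e
 (c z e
 (c z e
 (c z e
 (c z e
 (c (a (nat_lit 0xaa906b184e3e049)) e e)))))))))
 (c z e
 (c z e
 (c (a (nat_lit 0x202020203b28)) e
 (c (a (nat_lit 0x2020203caa88)) e
 (c (a (nat_lit 0x170ac2a8)) e
 (c (a (nat_lit 0x20354a816088)) e
 (c z e
 (c z e
 (c (a (nat_lit 0x14e620a068f546))
 (c z e
 (c (a (nat_lit 0x128986a8a000000a)) e e))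
 (c (a (nat_lit 0x38020268cfc87))
 (c (a (nat_lit 0x110240a000000008)) e e) e))))))))))))))
 (c (nat_lit 1)
 (c z
 (c (a (nat_lit 0x1548dc7628123c6))
 (c z e
 (c z e
 (c z e
 (c z e
 (c z e
 (c z e
 (c z e
 (c z e
 (c (a (nat_lit 0x1e4a3a30140427288)) e
 (c (a (nat_lit 0x323a30162009b2aa8)) e e))))))))))
 (c (a (nat_lit 0x11e7e2c060234aa8))
 (c z e
 (c z e
 (c z e
 (c z e
 (c z e
 (c z e
 (c (a (nat_lit 0xaacf00b25c8ab5489)) e e)))))))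
 (c (a (nat_lit 0xce220e0227088a7)) e
 (c (a (nat_lit 0x442c2c4eb287a47)) e e))))
 (c z
 (c (a (nat_lit 0xd22e10108f9cf07)) e
 (c (a (nat_lit 0x2822225550ad0e8)) e e))
 (c z e
 (c z
 (c z e
 (c z e
 (c z e
 (c z e
 (c z e
 (c z e
 (c z e
 (c (b (nat_lit 0x134aa7bfffffea08)) e e))))))))
 (c (a (nat_lit 0x202020203e28)) e
 (c (a (nat_lit 0x2020203026e9)) e
 (c (a (nat_lit 0x202034a42149)) e
 (c (a (nat_lit 0x2021ccbe320c8)) e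
 (c z e
 (c (a (nat_lit 0x14e58060202288)) e
 (c (a (nat_lit 0x9e0c020261347)) e
 (c (a (nat_lit 0x1002026337707)) e e))))))))))))
 (c (nat_lit 1)
 (c z
 (c (a (nat_lit 0x1808086b369cac6))
 (c z e
 (c z e
 (c z e
 (c z e
 (c z e
 (c z e
 (c (a (nat_lit 0xa6564cb8a52ec05a7)) e e)))))))
 (c z e
 (c z e
 (c z e
 (c z e
 (c z e
 (c z e
 (c z e
 (c z e
 (c z e
 (c (a (nat_lit 0x12f972b34fe1c027)) e e)))))))))))
 (c z e
 (c (a (nat_lit 0x2020202031a8)) e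
 (c (a (nat_lit 0x202020368d88)) e
 (c (a (nat_lit 0x20203ed18328)) e
 (c (a (nat_lit 0x203ca9e4e2a8)) e
 (c (a (nat_lit 0x2132c0340a0a8)) e
 (c (b (nat_lit 0x10ea9fe04023c8)) e
 (c (a (nat_lit 0xa00c04028f8a7))
 (c (a (nat_lit 0x10f2d7c70d54c227)) e e)
 (c (a (nat_lit 0x180e0e9bb5a07)) e e))))))))))
 C375)))) Tr.c Tr.e (nat_lit 0) C.cx C.cy
noncomputable def C377 : Tr := beta% (fun (c : Nat → Tr → Tr → Tr) (e : Tr) (z : Nat) (a b : Nat → Nat) =>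
 (c z
 (c (a (nat_lit 0x1e1e1e1e1ff4425))
 (c (a (nat_lit 0x62545684db0ab8847))
 (c z e
 (c z e
 (c z e
 (c z e
 (c z e
 (c z e
 (c z e
 (c (a (nat_lit 0xb2b09c78366baad4da9)) e
 (c (a (nat_lit 0x624a325251ecfe946a8)) e e)))))))))
 (c z e
 (c z e
 (c z e
 (c z e
 (c z e
 (c z e
 (c z e
 (c z e
 (c z e
 (c (a (nat_lit 0x2708078b47d572c6)) e
 (c (a (nat_lit 0x7e808e3248b9c0c28)) e e))))))))))))
 (c (a (nat_lit 0x2020203f48c527)) e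
 (c (a (nat_lit 0x1a1a1baed07e027)) e
 (c (a (nat_lit 0x2039516821a1a7)) e
 (c (b (nat_lit 0x1ffe9468a26263a7))
 (c z e
 (c z e
 (c z e
 (c z e
 (c z e
 (c (a (nat_lit 0x549ac4d2b28528cc8)) e e))))))
 (c (a (nat_lit 0x11cda802c1a262e8)) e
 (c (a (nat_lit 0x150b428244ec3766)) e
 (c (a (nat_lit 0x17523233d5b96bc7)) e e))))))))
 (c z
 (c (a (nat_lit 0x1a1a1b6e7842007)) e
 (c (a (nat_lit 0x1c1d147a4808088))
 (c z e
 (c z e
 (c z e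
 (c z e
 (c z e
 (c z e
 (c z e
 (c (a (nat_lit 0x607ea308b60e46b28)) e e))))))))
 (c (a (nat_lit 0x30c9e4602021e8)) e
 (c (a (nat_lit 0x13caa400a06227a8)) e
 (c (a (nat_lit 0x1cef07c3cadc7026)) e
 (c (a (nat_lit 0x541c1c5b20aec27)) e e))))))
 (c z
 (c (a (nat_lit 0x1d6ad67a0202e86))
 (c z e
 (c z e
 (c z e
 (c z e
 (c z e
 (c z e
 (c z e
 (c z e
 (c (a (nat_lit 0x4454303a3a16d71a8)) e e)))))))))
 (c (a (nat_lit 0x161246e04025fd47)) e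
 (c (a (nat_lit 0xb43c16146f1ca87)) e
 (c (a (nat_lit 0x542222850c5e847)) e
 (c z e
 (c z e
 (c z e
 (c z e
 (c z e
 (c z e
 (c z e
 (c (a (nat_lit 0x1472347125a08107)) e e))))))))))))
 (c z
 (c (a (nat_lit 0xe64a3c3a1558966))
 (c z e
 (c z e
 (c z e
 (c z e
 (c z e
 (c z e
 (c (a (nat_lit 0x446c2a402b3c14e28)) e
 (c (b (nat_lit 0x561c4bffb654f8628)) e e))))))))
 (c (a (nat_lit 0x1593f3d15d722366)) e
 (c (b (nat_lit 0x808e7f8bfffffe6)) e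
 (c z e
 (c z e
 (c z e
 (c z e
 (c z e
 (c z e
 (c (b (nat_lit 0xfb3dfffe461a327)) e
 (c (a (nat_lit 0x1c4e2dccc688a847)) e
 (c z e
 (c z e
 (c (a (nat_lit 0x17cad6b4d8ae1e05)) e e))))))))))))))
 (c z
 (c (b (nat_lit 0xe6fb03ff39fffe5)) e
 (c z e
 (c z e
 (c (a (nat_lit 0x165c3c0c101d268)) e
 (c (a (nat_lit 0x362012263544248)) e
 (c z e
 (c z e
 (c z e
 (c z e
 (c (a (nat_lit 0x142484c363c26508)) e
 (c (a (nat_lit 0xa4b8d5131d31787)) e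
 (c z e
 (c z e
 (c (a (nat_lit 0xb758741c2600004)) e e))))))))))))))
 (c z
 (c z e
 (c (a (nat_lit 0xcd12b24c061c8c7))
 (c (a (nat_lit 0x16baaef968f612d209)) e e)
 (c (a (nat_lit 0x1f542080824a1fa6)) e
 (c z e
 (c z e
 (c z e
 (c z e
 (c (a (nat_lit 0x93d131330e53567)) e
 (c (a (nat_lit 0x8e467488588b0a8)) e e)))))))))
 (c z
 (c (a (nat_lit 0x10296500214a9966))
 (c (a (nat_lit 0x1530910d928fd1d2c8)) e e)
 (c z e
 (c z e
 (c z e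
 (c (a (nat_lit 0x477722806126)) e
 (c z e
 (c (a (nat_lit 0xcb06ccbc92e9de8)) e
 (c (a (nat_lit 0x584e58587ce38c9)) e e))))))))
 (c (a (nat_lit 0x202020203347)) e
 (c (a (nat_lit 0x2020203f6b06)) e
 (c (a (nat_lit 0x20203b6e8046))
 (c (a (nat_lit 0x8240c9910ec386)) e e)
 (c (a (nat_lit 0x4041e29050206))
 (c (a (nat_lit 0x2e310a3c42147)) e e)
 (c (a (nat_lit 0x43627a4616166)) e
 (c (a (nat_lit 0x10e924e1c18486))
 (c (a (nat_lit 0x16d9934807380c68)) e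
 (c (a (nat_lit 0x19f8e46446400009)) e e))
 (c (a (nat_lit 0x1bcc21202b7164))
 (c (a (nat_lit 0x11c2206040000009)) e e)
 (c (a (nat_lit 0x3204045e77826)) e
 (c (a (nat_lit 0x2025ac9d6ee6)) e
 (c z e
 (c z e
 (c z e
 (c (a (nat_lit 0x1ba0606100c0c5)) e
 (c (a (nat_lit 0x30161e437a2)) e
 (c (a (nat_lit 0x8060a14633e4)) e e))))))))))))))))))))))) Tr.c Tr.e (nat_lit 0) C.cx C.cy
noncomputable def C378 : Tr := beta% (fun (c : Nat → Tr → Tr → Tr) (e : Tr) (z : Nat) (a b : Nat → Nat) =>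
 (c (a (nat_lit 0x60606061))
 (c (nat_lit 1)
 (c z
 (c z
 (c z e
 (c (a (nat_lit 0x585a8a7e7eaae74e6))
 (c z e
 (c z e
 (c z e
 (c z e
 (c z e
 (c z e
 (c z e
 (c z e
 (c z e
 (c z e
 (c (a (nat_lit 0x506c563c2e3c5514c28)) e
 (c (a (nat_lit 0x48a85650544cff3cc28)) e
 (c z e
 (c (a (nat_lit 0x12dad1cd25a000000008)) e e))))))))))))))
 (c (a (nat_lit 0x1e361e1e5efd0e8e6)) e
 (c (a (nat_lit 0x865c5cd16f432f0c5)) e
 (c (a (nat_lit 0xc4c4e37164d4df565)) e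
 (c z e
 (c z e
 (c z e
 (c z e
 (c z e
 (c (a (nat_lit 0x1b1b5b3bbc5f1b7aa6)) e
 (c z e
 (c z e
 (c z e
 (c (a (nat_lit 0x8101628342e55467)) e
 (c (a (nat_lit 0x6e707e8c8e889b0a8)) e e))))))))))))))))
 (c (a (nat_lit 0xc0c0c0c0c0d8e4))
 (c (a (nat_lit 0x5262585886d92eb27))
 (c z e
 (c z e
 (c z e
 (c z e
 (c z e
 (c z e
 (c z e
 (c z e
 (c (a (nat_lit 0x7864544c4837b6e4848)) e
 (c z e
 (c z e
 (c (a (nat_lit 0xa25c5a4a3a9f1292009)) e e))))))))))))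
 (c (a (nat_lit 0x382e2e9587bb898a7))
 (c z e
 (c z e
 (c z e
 (c z e
 (c z e
 (c z e
 (c z e
 (c (a (nat_lit 0x5622445c4160f170e48)) e e))))))))
 (c z e
 (c z e
 (c z e
 (c z e
 (c z e
 (c z e
 (c z e
 (c z e
 (c (a (nat_lit 0x6e62969454766d067)) e
 (c (a (nat_lit 0x3c5a5a4a141459388)) e
 (c (b (nat_lit 0x989682affe5f39ce7)) e
 (c (a (nat_lit 0x10142a384282f5b09)) e e))))))))))))))
 (c (a (nat_lit 0x202020203b0065))
 (c z e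
 (c z e
 (c z e
 (c z e
 (c z e
 (c z e
 (c z e
 (c z e
 (c (a (nat_lit 0x9696d2c498c14d3a6)) e
 (c (a (nat_lit 0xa8f4d892849f70be6)) e
 (c z e
 (c (b (nat_lit 0x948e91fe833770927)) e e))))))))))))
 (c (a (nat_lit 0x1a1a1a1be66cb84))
 (c z e
 (c z e
 (c z e
 (c z e
 (c z e
 (c z e
 (c z e
 (c z e
 (c z e
 (c (a (nat_lit 0xd2cc7a80dbb2c63e7)) e e))))))))))
 (c (a (nat_lit 0x2a2a2b44ec74025))
 (c z e
 (c z e
 (c z e
 (c z e
 (c z e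
 (c z e
 (c (a (nat_lit 0xd704a0e6e0f0e10c7)) e
 (c z e
 (c z e
 (c (a (nat_lit 0x13eeeedaff34911d87)) e e))))))))))
 (c (a (nat_lit 0x20391527e22245))
 (c z e
 (c z e
 (c z e
 (c z e
 (c z e
 (c (a (nat_lit 0x7a4894bc88a89d6c7)) e
 (c (a (nat_lit 0x46c6fb4cf883a9b46)) e e)))))))
 (c (a (nat_lit 0x19030cd45434386))
 (c z e
 (c (a (nat_lit 0xef5346e4d6c305a28)) e
 (c z e
 (c z e
 (c (a (nat_lit 0xbedcc2fe8131c3666)) e
 (c (a (nat_lit 0x9c6b08929210cfda6)) e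
 (c z e
 (c (a (nat_lit 0x32a6ca6228792f068)) e
 (c (a (nat_lit 0xd177d8b4644600008)) e e)))))))))
 (c (a (nat_lit 0x197a730928c9a685))
 (c (a (nat_lit 0xd0e4a29296af132a8)) e
 (c z e
 (c z e
 (c z e
 (c z e
 (c z e
 (c (a (nat_lit 0x10b1e6a123908fe008)) e
 (c (a (nat_lit 0x1b1f06a1a140000008)) e e))))))))
 (c (a (nat_lit 0x10320eceaf0c0cc6)) e
 (c (a (nat_lit 0x136c2c2e0bd0e745)) e
 (c (a (nat_lit 0x1232b574ba9291c6)) e
 (c z e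
 (c z e
 (c (a (nat_lit 0xe9e8e9110d02d25)) e
 (c (a (nat_lit 0x11294acaa86783a6)) e
 (c (a (nat_lit 0x199b1b1913d30046)) e e))))))))))))))))
 C377)
 C376)
 (c (a (nat_lit 0x20202021)) C374
 (c (a (nat_lit 0x80808081))
 (c (nat_lit 1)
 (c z
 (c (a (nat_lit 0x16a966e182a7f503))
 (c z e
 (c z e
 (c z e
 (c z e
 (c z e
 (c z e
 (c z e
 (c z e
 (c (a (nat_lit 0x264c2a22274644967)) e e)))))))))
 (c (a (nat_lit 0x201816144f278a5)) e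
 (c (a (nat_lit 0xbcbca9038dcda25))
 (c z e
 (c z e
 (c z e
 (c z e
 (c (a (nat_lit 0x53efc1dd0c8b128a7)) e e)))))
 (c z e
 (c z e
 (c z e
 (c z e
 (c z e
 (c z e
 (c z e
 (c z e
 (c z e
 (c (a (nat_lit 0xd0d8dd2f00c6006)) e
 (c (b (nat_lit 0x7c8325ff0868325)) e e))))))))))))))
 (c z e
 (c (a (nat_lit 0xe0e0e0e0fb47)) e
 (c (a (nat_lit 0x1bcae7)) e
 (c (a (nat_lit 0x202032c9c308))
 (c z e
 (c z e
 (c z e
 (c z e
 (c z e
 (c (a (nat_lit 0x1cb73ede6f594566)) e e))))))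
 (c (a (nat_lit 0x12cba4e308)) e
 (c (a (nat_lit 0x112e463228228)) e
 (c (a (nat_lit 0x134a228160a1c7)) e
 (c (b (nat_lit 0x163fe3004677a5)) e
 (c (a (nat_lit 0x1812125afb866)) e
 (c (a (nat_lit 0x4042288d9327)) e e)))))))))))
 C373)
 (c (a (nat_lit 0x20202021))
 (c (nat_lit 1)
 (c (a (nat_lit 0x20348fa5))
 (c (a (nat_lit 0x463c9e16030ede4)) e
 (c (a (nat_lit 0x287e0e22c510c86))
 (c (a (nat_lit 0xdcaa8b3906ccfc9e8))
 (c (a (nat_lit 0x3e381a41a3ea3e1a229)) e e)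
 (c z e
 (c z e
 (c z e
 (c (a (nat_lit 0x1392ae8ecc4ccd49a9)) e
 (c (a (nat_lit 0xc30caeb4dcc250348)) e
 (c (a (nat_lit 0x1646270a42a080c008)) e e)))))))
 (c z e
 (c z e
 (c z e
 (c (a (nat_lit 0x9e823a2a0fa3806)) e
 (c (a (nat_lit 0xb29ecedaffddc65)) e
 (c z e
 (c (a (nat_lit 0xa5939d0c6a1f625)) e
 (c (a (nat_lit 0x12124b85eaf34c66)) e
 (c (a (nat_lit 0x1471670b71331f86)) e
 (c (a (nat_lit 0x30303c4c532aaa8)) e e))))))))))))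
 (c (a (nat_lit 0x4040553109e7))
 (c (a (nat_lit 0x702c347d10c4cc7))
 (c (a (nat_lit 0x945cdd30b4a854448)) e
 (c z e
 (c z e
 (c (a (nat_lit 0x11cc8c2cab4c69c8ea)) e
 (c (a (nat_lit 0x11ac4b0a6acbe8e78a)) e
 (c (a (nat_lit 0x134727b0cbc30382a8)) e
 (c (a (nat_lit 0x12d25b0d4709000007)) e e)))))))
 (c z e
 (c z e
 (c (a (nat_lit 0xc393794b7791b67))
 (c z e
 (c z e
 (c (a (nat_lit 0x128bad0b8800000009)) e e)))
 (c (a (nat_lit 0x5a3a5a44f7047c8))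
 (c z e
 (c (a (nat_lit 0x11086865a000000009)) e e))
 (c (a (nat_lit 0x26c17b35b94f826)) e
 (c z e
 (c z e
 (c (a (nat_lit 0x9a9046651082ae8)) e
 (c (a (nat_lit 0xa63034daaac92c8)) e
 (c (a (nat_lit 0x3c408a6b62b44c9)) e e)))))))))))
 (c (a (nat_lit 0x20306d058527)) e
 (c z e
 (c (a (nat_lit 0x16af24440402e7))
 (c z e
 (c z e
 (c (a (nat_lit 0xdf7912b8dd9ec48)) e
 (c z e
 (c z e
 (c z e
 (c z e
 (c (a (nat_lit 0x895704603a00009)) e e))))))))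
 (c (a (nat_lit 0x1fd394947054c5))
 (c (a (nat_lit 0xb8e89e851b38ba8)) e
 (c (a (nat_lit 0x13508b543bccece8)) e
 (c z e
 (c z e
 (c z e
 (c (a (nat_lit 0x16298d0e14a8c008)) e
 (c (a (nat_lit 0x11abcae380000009)) e e)))))))
 (c (a (nat_lit 0x5232321275026))
 (c (a (nat_lit 0x1cc80278b47453e6)) e
 (c z e
 (c z e
 (c (a (nat_lit 0x7a9a8b3aee7e3a8)) e
 (c (a (nat_lit 0xfd5337a07000007)) e
 (c (a (nat_lit 0x10aea4e000000008)) e e))))))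
 (c (a (nat_lit 0x68666cab38446)) e
 (c z e
 (c (a (nat_lit 0x309d32623cb26)) e
 (c (a (nat_lit 0x68fe32a149606)) e
 (c (a (nat_lit 0xc45ec114f0c67)) e
 (c z e
 (c z e
 (c z e
 (c (a (nat_lit 0xdf04b6b2aabc6)) e
 (c (a (nat_lit 0x166ccc6bed6c45)) e e)))))))))))))))))
 C372)
 (c (nat_lit 1) C371
 C370)))))) Tr.c Tr.e (nat_lit 0) C.cx C.cy
noncomputable def C379 : Tr := beta% (fun (c : Nat → Tr → Tr → Tr) (e : Tr) (z : Nat) (a b : Nat → Nat) =>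
 (c (a (nat_lit 0x20002001))
 (c (a (nat_lit 0xe0f495036506))
 (c z e
 (c z e
 (c z e
 (c z e
 (c z e
 (c z e
 (c z e
 (c z e
 (c z e
 (c z e
 (c (a (nat_lit 0x18557f6000000006)) e e)))))))))))
 (c z e
 (c (a (nat_lit 0x146c65448462a7)) e
 (c (b (nat_lit 0x16356d8d66ffe5))
 (c (a (nat_lit 0x188e41c2e6a0dd05)) e
 (c (a (nat_lit 0x628c9c7a4595487)) e
 (c (a (nat_lit 0x3e5a402168d2528)) e e)))
 (c (a (nat_lit 0x1ef9391467e005))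
 (c (a (nat_lit 0x70767066a736c28)) e e)
 (c (a (nat_lit 0x104f6fad454565))
 (c (a (nat_lit 0x5a512ae4b48e8e8)) e e)
 (c z e
 (c (a (nat_lit 0x17b9afec204024)) e
 (c (a (nat_lit 0x1a35714fefc245)) e
 (c (a (nat_lit 0x1fdbba9a8f0865)) e
 (c (a (nat_lit 0x15f555b5b0c9a6)) e
 (c (a (nat_lit 0x5c5c69459bc04)) e
 (c z e
 (c z e
 (c (a (nat_lit 0x86b6cb014d505)) e
 (c (a (nat_lit 0x4309f2696004)) e
 (c (a (nat_lit 0x4323200000003)) e e)))))))))))))))))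
 (c (a (nat_lit 0x4040404041))
 (c (a (nat_lit 0x18746344442266))
 (c (a (nat_lit 0xc28690a0aaa71a5)) e
 (c z e
 (c z e
 (c z e
 (c z e
 (c z e
 (c z e
 (c (a (nat_lit 0x590470a21400008)) e e))))))))
 (c (a (nat_lit 0x1bb716f6f00985))
 (c z e
 (c (a (nat_lit 0x158e5092181a4de8)) e
 (c (a (nat_lit 0xa0c6c754672de7)) e
 (c z e
 (c z e
 (c z e
 (c (a (nat_lit 0x1c05522300000008)) e e)))))))
 (c (a (nat_lit 0x15109089cc0ea5))
 (c (a (nat_lit 0xead8afd1432cfa6)) e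
 (c z e
 (c z e
 (c z e
 (c (a (nat_lit 0xc38f1cec2200007)) e
 (c (a (nat_lit 0xc57052000000007)) e e))))))
 (c (b (nat_lit 0x12f2d371f3dfe5)) e
 (c z e
 (c z e
 (c (a (nat_lit 0x14c9a301818005)) e
 (c (a (nat_lit 0x15ef4dce0060e5)) e
 (c (a (nat_lit 0x1372f3ee11a926)) e
 (c z e
 (c z e
 (c (a (nat_lit 0x29a19333a5c24)) e
 (c (a (nat_lit 0x847c4c8895365)) e
 (c (a (nat_lit 0x62027893eaf44)) e
 (c (a (nat_lit 0x271345ec00003)) e e)))))))))))))))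
 (c (a (nat_lit 0x80a0a0a0a1))
 (c (a (nat_lit 0x12d110ed862305))
 (c (a (nat_lit 0x4c3c4e3865629c7)) e
 (c (a (nat_lit 0x5c9880d3fb412a7)) e
 (c z e
 (c z e
 (c z e
 (c (a (nat_lit 0xf9114f5ce000008)) e
 (c (a (nat_lit 0x169c8b4000000007)) e e)))))))
 (c (a (nat_lit 0x1939328c87c5c5))
 (c (a (nat_lit 0x4448a2f9db0d146)) e
 (c z e
 (c z e
 (c (a (nat_lit 0xdf6115b5500e007)) e
 (c (a (nat_lit 0x1ddbdd6fe0000007)) e
 (c (a (nat_lit 0x1587600000000007)) e e))))))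
 (c z e
 (c (a (nat_lit 0x124c0a68202025)) e
 (c (a (nat_lit 0xab5656201a204)) e
 (c (a (nat_lit 0x196b2808855364)) e
 (c (a (nat_lit 0x1fbe3e30f2cb85)) e
 (c z e
 (c z e
 (c (a (nat_lit 0x7b3d0f5cdd745)) e
 (c (a (nat_lit 0xd4aef4750cc05)) e
 (c (a (nat_lit 0x388002964d165)) e e))))))))))))
 (c (a (nat_lit 0xa0a0a0a0a1))
 (c (a (nat_lit 0x174a0f6a6f2c43))
 (c (a (nat_lit 0x2e4447ed2096e65)) e
 (c z e
 (c z e
 (c (a (nat_lit 0x11ab47cd81400007)) e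
 (c (a (nat_lit 0x190c084000000006)) e e)))))
 (c (a (nat_lit 0x150c90aba807c4))
 (c (a (nat_lit 0x20d12c707464388)) e
 (c (a (nat_lit 0x17e7880d49e46008)) e e))
 (c (a (nat_lit 0xbe6bda3426001))
 (c (a (nat_lit 0x8acbff666600006)) e e)
 (c (a (nat_lit 0x101350900fa364)) e
 (c (a (nat_lit 0x1efc3c1835ed24)) e
 (c (a (nat_lit 0x120f8f884585a5)) e
 (c z e
 (c (a (nat_lit 0x203e884499d61)) e e))))))))
 (c (a (nat_lit 0x4040404041))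
 (c (a (nat_lit 0x156b07a0a32382))
 (c (a (nat_lit 0x6b82825a5838107)) e
 (c (a (nat_lit 0x1892f10e86600007)) e e))
 (c (a (nat_lit 0x124f22a2c42062))
 (c (a (nat_lit 0x11143024a0000007)) e e)
 (c (a (nat_lit 0x1674d4b4ce4825)) e
 (c z e
 (c z e
 (c (a (nat_lit 0x1f4c849ca181)) e
 (c (a (nat_lit 0xc08041a031c5)) e
 (c (a (nat_lit 0x112ddbccf07422)) e
 (c (a (nat_lit 0x37e63e91547e1)) e
 (c (a (nat_lit 0x18a162c8618001)) e e))))))))))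
 (c (a (nat_lit 0x1a1a1a1a1a1))
 (c (a (nat_lit 0x127555b5a3c863))
 (c (a (nat_lit 0x1a34c2c000000005)) e e)
 (c z e
 (c z e
 (c (a (nat_lit 0x26f9b1779902)) e
 (c (a (nat_lit 0xc27110507ee5)) e
 (c (a (nat_lit 0x67117190d6c6)) e
 (c (a (nat_lit 0x811122c9a6ba3)) e e)))))))
 (c (a (nat_lit 0x101212120e1))
 (c z e
 (c (a (nat_lit 0x10fd3902f6305)) e
 (c (a (nat_lit 0xb6eec0bc05a05)) e
 (c (a (nat_lit 0x6ac90700fdae6)) e
 (c z e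
 (c z e
 (c z e
 (c (a (nat_lit 0x9ba2b40000005)) e e))))))))
 (c (a (nat_lit 0x2001))
 (c (a (nat_lit 0x3b285a0a0b722)) e
 (c (a (nat_lit 0x44d30f0b05a65)) e
 (c z e
 (c z e
 (c z e
 (c (a (nat_lit 0xa4e91ace00004)) e
 (c (a (nat_lit 0x1d11c000000003)) e e)))))))
 (c (a (nat_lit 0x2001))
 (c (a (nat_lit 0x2a84868cafa85)) e
 (c z e
 (c z e
 (c (a (nat_lit 0xf0ff8358d6006)) e
 (c (a (nat_lit 0xad30820000006)) e
 (c (a (nat_lit 0x15e00000000005)) e e))))))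
 (c (a (nat_lit 0x2001))
 (c z e
 (c (a (nat_lit 0x9a9ca2c783987)) e
 (c (a (nat_lit 0x16d77bbd000006)) e
 (c (a (nat_lit 0x1287c000000004)) e e))))
 (c (a (nat_lit 0x8080808101))
 (c (a (nat_lit 0xdadce0ed1e007)) e
 (c (a (nat_lit 0x1558a040000003)) e
 (c (a (nat_lit 0x18600000000003)) e e)))
 (c (a (nat_lit 0x202032d4a3)) e
 (c (a (nat_lit 0x40498a99c4)) e
 (c (a (nat_lit 0x94a5980e4)) e
 (c (a (nat_lit 0x7a8b7e02004)) e
 (c (a (nat_lit 0x9b8e0402004)) e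
 (c (a (nat_lit 0x18e060202044)) e
 (c (a (nat_lit 0x14020608421)) e
 (c (a (nat_lit 0xcec8d0ef4a2)) e
 (c z e
 (c (a (nat_lit 0x14f6fcd231e2)) e
 (c (a (nat_lit 0x99560a0a001)) e
 (c (a (nat_lit 0x166140c00001)) e
 (c (a (nat_lit 0xa000000001)) e e))))))))))))))))))))))))) Tr.c Tr.e (nat_lit 0) C.cx C.cy
noncomputable def C380 : Tr := beta% (fun (c : Nat → Tr → Tr → Tr) (e : Tr) (z : Nat) (a b : Nat → Nat) =>
 (c (a (nat_lit 0xa0a0a0a0a1))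
 (c z
 (c (a (nat_lit 0x15f3b9b7f1cff024)) e
 (c (a (nat_lit 0x42a261e0205366))
 (c (a (nat_lit 0x139178b0331806b847)) e
 (c z e
 (c z e
 (c z e
 (c z e
 (c (a (nat_lit 0x4d27187850bcb88e8)) e
 (c (a (nat_lit 0x1d5a598c5b2e600007)) e e)))))))
 (c (a (nat_lit 0xae6c18101578085))
 (c z e
 (c z e
 (c z e
 (c (a (nat_lit 0x6f0e462eb8566ccc8)) e e))))
 (c (a (nat_lit 0x6e3a363955b2826))
 (c (a (nat_lit 0x104504e684c8e382e7)) e
 (c (a (nat_lit 0xb8ee7e914e4884808)) e e))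
 (c (a (nat_lit 0x342e431a7a32706)) e
 (c (a (nat_lit 0x849dbc6e2266bc5)) e
 (c (a (nat_lit 0x1064616428a806)) e
 (c (a (nat_lit 0x108300e3a8284226)) e
 (c (b (nat_lit 0xac7eff9779fe885)) e
 (c (a (nat_lit 0x7ce37d7e1606445)) e
 (c (a (nat_lit 0x13fcbd19534ee385)) e
 (c z e
 (c (a (nat_lit 0x481210100c0f367)) e e)))))))))))))
 (c (a (nat_lit 0x2020203745))
 (c (a (nat_lit 0xc1202080443a07))
 (c (a (nat_lit 0x66ee7082aaa318ac7)) e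
 (c (a (nat_lit 0x1308e92de795e76168)) e
 (c z e
 (c z e
 (c (a (nat_lit 0xf78cf8ecb4faf77a8)) e
 (c (a (nat_lit 0xe1207e527e827e009)) e
 (c (a (nat_lit 0x168b216624c0000008)) e e)))))))
 (c (a (nat_lit 0x2c04080861786c7))
 (c z e
 (c z e
 (c z e
 (c z e
 (c (a (nat_lit 0x1d63898cd997200008)) e e)))))
 (c (a (nat_lit 0x40622451e9c828)) e
 (c z e
 (c z e
 (c (a (nat_lit 0xc7c3048caab8f07)) e
 (c (a (nat_lit 0x18c7050687e7ac47)) e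
 (c (a (nat_lit 0xa884e6f2c314847)) e
 (c z e
 (c z e
 (c (a (nat_lit 0x10147a3826819c8)) e
 (c (b (nat_lit 0x1fe3c366845e8007)) e
 (c (a (nat_lit 0x1aa0c0c0a0000005)) e e)))))))))))))
 (c (a (nat_lit 0x202020322b86))
 (c (a (nat_lit 0x948e90bcc507666)) e
 (c z e
 (c z e
 (c z e
 (c z e
 (c z e
 (c (b (nat_lit 0x8ed1fefd3a383e6)) e
 (c z e
 (c z e
 (c z e
 (c (a (nat_lit 0x203464973800008)) e e)))))))))))
 (c (a (nat_lit 0x202039b6a346))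
 (c z e
 (c (a (nat_lit 0x3ad89123b0aef27)) e
 (c (a (nat_lit 0xba6f108786e32c7)) e
 (c z e
 (c z e
 (c z e
 (c (b (nat_lit 0x6270ecc703ffd66)) e
 (c (a (nat_lit 0x2a5a6a3718284c8)) e e))))))))
 (c (a (nat_lit 0x3906c5a3c6))
 (c (a (nat_lit 0x3e264548c6948c7)) e
 (c (a (nat_lit 0x4a5958ce76d6947)) e
 (c z e
 (c z e
 (c (a (nat_lit 0x742b99be748e0c6)) e
 (c (a (nat_lit 0x6d0568fc3cc56e6)) e
 (c (a (nat_lit 0x547251600230188)) e e)))))))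
 (c (a (nat_lit 0x38d39c8a0e065))
 (c (a (nat_lit 0x9adaf57b1090a06)) e
 (c z e
 (c (a (nat_lit 0xa3c521c1e25148)) e
 (c (a (nat_lit 0x7ea8be66a593607)) e
 (c (a (nat_lit 0x684a56650e769e8)) e
 (c (a (nat_lit 0x463d44582212008)) e e))))))
 (c (a (nat_lit 0xc1b6620802065))
 (c (a (nat_lit 0x892116746709a06)) e
 (c (a (nat_lit 0x86b04a4c93be9e7)) e e))
 (c (a (nat_lit 0x628404023d125))
 (c (a (nat_lit 0x944a52618c505a7)) e e)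
 (c (a (nat_lit 0x8202164f472a5))
 (c z e
 (c (a (nat_lit 0x875346d66c00008)) e
 (c (a (nat_lit 0xf59322000000006)) e e)))
 (c (a (nat_lit 0x62629fab89565))
 (c (a (nat_lit 0xec5d0a320000007)) e
 (c (a (nat_lit 0x1dfe000000000006)) e e))
 (c (a (nat_lit 0xa3f0b00f8e06)) e
 (c (b (nat_lit 0x1ff937b6d43445)) e
 (c (a (nat_lit 0x14b3f2b2323a26)) e
 (c (a (nat_lit 0xba92828782405)) e
 (c (a (nat_lit 0x94828786444c5)) e
 (c (a (nat_lit 0x7c817c3844045)) e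
 (c z e
 (c (a (nat_lit 0x176323e0202025)) e
 (c (a (nat_lit 0xd70c1c120a003)) e
 (c (a (nat_lit 0x1fc14060000002)) e e))))))))))))))))))))
 (c (a (nat_lit 0x20002001))
 (c (a (nat_lit 0x56565657eff04))
 (c (a (nat_lit 0x6e5a646e8f44565))
 (c z e
 (c z e
 (c z e
 (c (a (nat_lit 0xebc5945ca6b27c046)) e
 (c (a (nat_lit 0x1e24e3a56dc866a5a6)) e
 (c (a (nat_lit 0x11a24023e422600007)) e e))))))
 (c (a (nat_lit 0xa2aaaacb26289a6)) e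
 (c z e
 (c z e
 (c (a (nat_lit 0x7366ca94b89c0c5)) e
 (c (a (nat_lit 0x134181c0a80495e5)) e
 (c (a (nat_lit 0x3e1e2e3679763a5)) e
 (c (a (nat_lit 0x6a709c9d0a32287)) e
 (c z e
 (c (a (nat_lit 0x48a15ec087454a6)) e
 (c (a (nat_lit 0x7afce4cd021c487)) e
 (c (a (nat_lit 0xc2c8dc8bd400006)) e e))))))))))))
 (c (a (nat_lit 0x16161708f4387))
 (c z e
 (c z e
 (c z e
 (c z e
 (c z e
 (c z e
 (c z e
 (c z e
 (c z e
 (c z e
 (c (a (nat_lit 0x15d1917ba0000007)) e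
 (c (a (nat_lit 0x1188c00000000005)) e e))))))))))))
 (c (a (nat_lit 0x2c2de9ee78846)) e
 (c (a (nat_lit 0x7a4ca7868646)) e
 (c (a (nat_lit 0x16bfeda746c005))
 (c z e
 (c (a (nat_lit 0x1c1428320837dc8)) e
 (c (a (nat_lit 0x100e24181945308)) e e)))
 (c (a (nat_lit 0x100a6625e12165))
 (c (a (nat_lit 0x162e26062cf11c8)) e
 (c (a (nat_lit 0x3222061785349a8)) e e))
 (c (a (nat_lit 0x12a6e6632ecda4))
 (c (a (nat_lit 0x40443349e494547)) e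
 (c (a (nat_lit 0x1016e584764a208)) e e))
 (c (a (nat_lit 0x7e7d11b313025)) e
 (c z e
 (c (a (nat_lit 0xbd3f535939366)) e
 (c (a (nat_lit 0x12f43332b2acc6)) e
 (c (a (nat_lit 0x10afafef2f2e46)) e
 (c (a (nat_lit 0x161e200d50385)) e
 (c (a (nat_lit 0x3e3e2b7058205)) e
 (c z e
 (c (a (nat_lit 0x236e582014245)) e
 (c (a (nat_lit 0x17c662e1a2a1c5)) e
 (c (a (nat_lit 0x15c7e2a3600003)) e
 (c (a (nat_lit 0x11838000000001)) e e)))))))))))))))))))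
 C379))) Tr.c Tr.e (nat_lit 0) C.cx C.cy

end Pool.Agent.Work.MP_82fd4a_nt.P.H
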