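import Pool.Agent.Work.MP_82fd4a_nt.P.Dx

set_option autoImplicit false
set_option linter.all false
set_option maxRecDepth 100000

namespace Pool.Agent.Work.MP_82fd4a_nt.P.H
open Y Y.Tr

noncomputable def C381 : Tr := beta% (fun (c : Nat → Tr → Tr → Tr) (e : Tr) (z : Nat) (a b : Nat → Nat) =>
 (c z
 (c (a (nat_lit 0x110723e3c5ec1483))
 (c z e
 (c z e
 (c z e
 (c z e
 (c z e
 (c z e
 (c z e
 (c z e
 (c z e
 (c z e
 (c z e
 (c (a (nat_lit 0x1b6ae703e000000007)) e e))))))))))))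
 (c (a (nat_lit 0x967a7a76db06005))
 (c z e
 (c z e
 (c z e
 (c (a (nat_lit 0x12d1ae747efa6d7547)) e
 (c (a (nat_lit 0xb46a573aa1107c988)) e
 (c z e
 (c z e
 (c z e
 (c (a (nat_lit 0x26448724facc72008)) e
 (c (a (nat_lit 0x570661fab00000007)) e
 (c (a (nat_lit 0x1304c6a00000000007)) e e)))))))))))
 (c z e
 (c z e
 (c (a (nat_lit 0xf8ff04441c98825))
 (c z e
 (c z e
 (c (a (nat_lit 0x1046aa04ebc504e768)) e e)))
 (c (a (nat_lit 0x14fb218a9a08c9a4)) e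
 (c (a (nat_lit 0x144486110064a984)) e
 (c z e
 (c z e
 (c (a (nat_lit 0xf0bb14d30f0e065)) e
 (c (a (nat_lit 0x90d4f9353cca005)) e
 (c (a (nat_lit 0x11f41dbb52890ba5)) e
 (c z e
 (c z e
 (c z e
 (c (a (nat_lit 0x1f97d56c6aa00004)) e e))))))))))))))))
 (c z
 (c (a (nat_lit 0xaeae910d0826085))
 (c z e
 (c z e
 (c z e
 (c (a (nat_lit 0x847ac0e9267254448)) e
 (c z e
 (c (a (nat_lit 0x8272fe6f742e7cfc7)) e
 (c z e
 (c z e
 (c z e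
 (c (a (nat_lit 0x9c1d8c82000000007)) e e))))))))))
 (c z e
 (c (a (nat_lit 0x1453f12700225245)) e
 (c (a (nat_lit 0xe69e080434d78c6))
 (c z e
 (c (a (nat_lit 0xa2dc929b029a126e9)) e e))
 (c (a (nat_lit 0x15412529b7eac125))
 (c (a (nat_lit 0x12650e06c985666348)) e
 (c (a (nat_lit 0x725e74a31090822e8)) e e))
 (c (a (nat_lit 0xf6fadbe8c0f12a5)) e
 (c z e
 (c (a (nat_lit 0x75be66970c6cd85)) e
 (c (a (nat_lit 0x128c2f2fc9e40366)) e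
 (c (b (nat_lit 0x8cdd62cb17fe565)) e
 (c (a (nat_lit 0x141dbb1c3c3cede6)) e
 (c z e
 (c z e
 (c (a (nat_lit 0x12cefae4a583c005)) e
 (c (a (nat_lit 0xbf7a20160000005)) e
 (c (a (nat_lit 0x16e0e00000000005)) e e))))))))))))))))
 (c z
 (c (a (nat_lit 0xb48b10922e02ac4))
 (c (a (nat_lit 0x62668e4c849ccf107)) e
 (c z e
 (c z e
 (c z e
 (c z e
 (c (a (nat_lit 0xeb6988bea4b34e9c8)) e
 (c (a (nat_lit 0x11dd6f8790e8a00008)) e e)))))))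
 (c (a (nat_lit 0x9ca42832024de46)) e
 (c (a (nat_lit 0xc03036364fdaea6)) e
 (c z e
 (c z e
 (c z e
 (c (a (nat_lit 0x7324aa7ec4bac87)) e
 (c z e
 (c z e
 (c z e
 (c z e
 (c (a (nat_lit 0x5862225e6a5bc68)) e
 (c (a (nat_lit 0x10a02080c0600006)) e e)))))))))))))
 (c (a (nat_lit 0x20202036a6))
 (c (a (nat_lit 0xc234300442d5185)) e
 (c z e
 (c z e
 (c z e
 (c z e
 (c z e
 (c (b (nat_lit 0xa73cedfe9778786)) e
 (c z e
 (c z e
 (c z e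
 (c z e
 (c (a (nat_lit 0x1bc0640380000005)) e e))))))))))))
 (c (a (nat_lit 0x202020370cc6))
 (c z e
 (c (a (nat_lit 0x4a424a306f0cc08))
 (c z e
 (c (a (nat_lit 0x14296dae4960000009)) e e))
 (c (a (nat_lit 0x222c02606b12988)) e
 (c z e
 (c z e
 (c z e
 (c z e
 (c (a (nat_lit 0x3246387a5566ac8)) e e))))))))
 (c (a (nat_lit 0x202030c24047))
 (c (a (nat_lit 0x14260c130700d07))
 (c (a (nat_lit 0x19086801c4c0600007)) e
 (c (a (nat_lit 0x15d36b632000000007)) e e))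
 (c (a (nat_lit 0x381007816918d67)) e
 (c z e
 (c z e
 (c z e
 (c (a (nat_lit 0x8a706f02c0506a8)) e
 (c (a (nat_lit 0x725b22e5d092a08)) e e)))))))
 (c (a (nat_lit 0x2c2d2ae0460e6))
 (c (a (nat_lit 0x8027311247e0e6)) e
 (c z e
 (c z e
 (c (a (nat_lit 0x1378d93b8f0ab466)) e
 (c (a (nat_lit 0x16f32d9deb9f56a6)) e
 (c (a (nat_lit 0x4266b38e4032048)) e e))))))
 (c (a (nat_lit 0x131ce43008046))
 (c z e
 (c (a (nat_lit 0x837dbcecb08fec6)) e e))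
 (c (a (nat_lit 0x12880700802385))
 (c (a (nat_lit 0x9b28c8c88f8cb06)) e e)
 (c (a (nat_lit 0x76780202471a5))
 (c z e
 (c z e
 (c (a (nat_lit 0x1f0811a6a0000008)) e e)))
 (c (a (nat_lit 0x7e0202491f6c5))
 (c (a (nat_lit 0x5f3e3ff66800006)) e
 (c (a (nat_lit 0x184a2f6000000007)) e e))
 (c (a (nat_lit 0x236e512c26)) e
 (c z e
 (c (a (nat_lit 0xefb3d3938b7a6)) e
 (c (a (nat_lit 0x16be6e4cc848e4)) e
 (c (a (nat_lit 0x1c4c6b0646f2a4)) e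
 (c (a (nat_lit 0xc0ac6269247a4)) e
 (c z e
 (c z e
 (c (a (nat_lit 0xa76abe70706c4)) e
 (c (a (nat_lit 0x10052181600004)) e
 (c (a (nat_lit 0x14208000000002)) e e))))))))))))))))))))))) Tr.c Tr.e (nat_lit 0) C.cx C.cy
noncomputable def C382 : Tr := beta% (fun (c : Nat → Tr → Tr → Tr) (e : Tr) (z : Nat) (a b : Nat → Nat) =>
 (c z
 (c (a (nat_lit 0xc0de2d65224064))
 (c z e
 (c z e
 (c z e
 (c z e
 (c z e
 (c z e
 (c z e
 (c z e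
 (c z e
 (c (a (nat_lit 0x18201022181c03567)) e
 (c (a (nat_lit 0x140626181c044d407)) e
 (c (a (nat_lit 0x1e264a44265c77387)) e e))))))))))))
 (c (a (nat_lit 0x34a8e341a105a6))
 (c z e
 (c z e
 (c z e
 (c z e
 (c z e
 (c z e
 (c z e
 (c (a (nat_lit 0xb0907eac761e37e06)) e
 (c (a (nat_lit 0x3856341c240b5c887)) e
 (c (a (nat_lit 0x20281e100a3982b48)) e e))))))))))
 (c (a (nat_lit 0x1bb9efe4e3acf2c5))
 (c z e
 (c z e
 (c z e
 (c z e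
 (c z e
 (c z e
 (c (a (nat_lit 0x13884c6d8d9451fd46)) e
 (c z e
 (c z e
 (c z e
 (c (a (nat_lit 0xd70ea4b8480000008)) e e)))))))))))
 (c (a (nat_lit 0x1be8e964f1f03e04))
 (c z e
 (c z e
 (c z e
 (c (a (nat_lit 0x466c7277674154b87)) e
 (c (a (nat_lit 0x4474283e828e89107)) e
 (c z e
 (c z e
 (c (b (nat_lit 0x1a33fe4136983e2e8)) e e))))))))
 (c (a (nat_lit 0x645858be285d345)) e
 (c (b (nat_lit 0xfafb4561a993fe5)) e
 (c z e
 (c z e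
 (c z e
 (c z e
 (c z e
 (c z e
 (c z e
 (c z e
 (c (a (nat_lit 0x17d8df1f6c2e0ca5)) e
 (c (a (nat_lit 0x84604e66d453783)) e e))))))))))))))))
 (c z
 (c (a (nat_lit 0x13c621c0604304a6))
 (c z e
 (c (a (nat_lit 0x827a711191a5aef07)) e
 (c z e
 (c z e
 (c z e
 (c z e
 (c (a (nat_lit 0xc2ec94c6bec89d7c7)) e
 (c z e
 (c z e
 (c z e
 (c z e
 (c (a (nat_lit 0xffd6b6ba580000008)) e e))))))))))))
 (c (a (nat_lit 0x1444c2c2abb7dde5))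
 (c (a (nat_lit 0xba9c8f93d1eedab87)) e
 (c z e
 (c z e
 (c z e
 (c (a (nat_lit 0xaa7e526b5cc0ae5e9)) e
 (c (a (nat_lit 0x124d276423741849a7)) e
 (c z e
 (c z e
 (c z e
 (c (a (nat_lit 0x22305c2f2a4600009)) e
 (c (a (nat_lit 0x18c9a544a000000009)) e e)))))))))))
 (c (a (nat_lit 0x687874c535a7965)) e
 (c z e
 (c z e
 (c (a (nat_lit 0xdaed0b4a949e506))
 (c (a (nat_lit 0x1447c82687270a0329)) e
 (c (a (nat_lit 0xfd091aecf11e68b68)) e e))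
 (c (a (nat_lit 0xa4cf0a5c2028026))
 (c (a (nat_lit 0x392872225c5c3c547)) e e)
 (c z e
 (c z e
 (c z e
 (c (a (nat_lit 0x1b7156bb662d80c5)) e
 (c (b (nat_lit 0x16f7bcadaa9fe926)) e
 (c z e
 (c z e
 (c z e
 (c z e
 (c (a (nat_lit 0xd34f5e340000005)) e e)))))))))))))))))
 (c z
 (c (a (nat_lit 0x564a4ae1ddad564))
 (c z e
 (c z e
 (c z e
 (c z e
 (c (a (nat_lit 0xa4565905587898448)) e
 (c (a (nat_lit 0x8a2c301ec90e60107)) e
 (c z e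
 (c z e
 (c z e
 (c (a (nat_lit 0x487c730c680000008)) e e))))))))))
 (c z e
 (c z e
 (c z e
 (c (a (nat_lit 0x426f59d2dab21a4))
 (c (a (nat_lit 0x12e7c828cb4ca92648)) e e)
 (c (a (nat_lit 0x9b04fcb308c6406)) e
 (c z e
 (c z e
 (c (a (nat_lit 0xd92162f67a7c026)) e
 (c (a (nat_lit 0x17b9b32babb02106)) e
 (c (a (nat_lit 0x1b93b52fb3d021c6)) e
 (c (b (nat_lit 0xc30ffffef8caae6)) e
 (c z e
 (c z e
 (c (a (nat_lit 0x1ed502a3c0600005)) e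
 (c (a (nat_lit 0x1865e3c000000005)) e e))))))))))))))))
 (c z
 (c z e
 (c z e
 (c z e
 (c z e
 (c z e
 (c z e
 (c z e
 (c z e
 (c z e
 (c (b (nat_lit 0x114cf81ff554a8c6)) e
 (c z e
 (c z e
 (c (a (nat_lit 0x999956721004004)) e
 (c (a (nat_lit 0x1a5587c0a0000004)) e e))))))))))))))
 (c z
 (c z e
 (c z e
 (c z e
 (c z e
 (c z e
 (c (a (nat_lit 0x32632645ce0425)) e e))))))
 (c (a (nat_lit 0x202020203387)) e
 (c (a (nat_lit 0x202020334247))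
 (c (a (nat_lit 0x541840206f23b46))
 (c z e
 (c (a (nat_lit 0x19f08deae560000008)) e e))
 (c (a (nat_lit 0x5e66529ef91b4c7)) e
 (c z e
 (c z e
 (c z e
 (c z e
 (c (a (nat_lit 0x6a764b8f68a4be8)) e e)))))))
 (c (a (nat_lit 0x80809eebe1a6))
 (c (a (nat_lit 0x3e22451ab7f3765)) e
 (c z e
 (c z e
 (c z e
 (c (a (nat_lit 0x87273936b6992a6)) e
 (c (a (nat_lit 0x8a6547a26e80987)) e e))))))
 (c (a (nat_lit 0x161716821e127)) e
 (c (a (nat_lit 0x1722362412107))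
 (c (a (nat_lit 0x3c70d880b079086)) e e)
 (c (a (nat_lit 0x1b456421c167a6)) e
 (c (a (nat_lit 0x80580202c5665))
 (c z e
 (c (a (nat_lit 0xb50a92900000008)) e e))
 (c (a (nat_lit 0x3606047ed1006))
 (c (a (nat_lit 0x1046a34000000007)) e e)
 (c (a (nat_lit 0x202058b2cf087)) e
 (c z e
 (c z e
 (c (a (nat_lit 0x90db4c2810426)) e
 (c (a (nat_lit 0xdf502a1244226)) e
 (c z e
 (c z e
 (c z e
 (c (a (nat_lit 0x1161090140c003)) e
 (c (a (nat_lit 0x1d16100000002)) e e)))))))))))))))))))))))) Tr.c Tr.e (nat_lit 0) C.cx C.cy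
noncomputable def C383 : Tr := beta% (fun (c : Nat → Tr → Tr → Tr) (e : Tr) (z : Nat) (a b : Nat → Nat) =>
 (c z
 (c (a (nat_lit 0x2020203fe6e146)) e
 (c (a (nat_lit 0x1c1c1d88802a047)) e
 (c (a (nat_lit 0xc0d64ae420c0a7))
 (c z e
 (c z e
 (c z e
 (c z e
 (c z e
 (c z e
 (c z e
 (c (a (nat_lit 0x3c8038362c3635208)) e e))))))))
 (c (b (nat_lit 0x1ff7acc361008307))
 (c z e
 (c z e
 (c z e
 (c z e
 (c z e
 (c z e
 (c (a (nat_lit 0xe364c202e14cdb68)) e e)))))))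
 (c (a (nat_lit 0x1eb0e4a281c4a7c7)) e
 (c (a (nat_lit 0xf83038369b68b86)) e
 (c (a (nat_lit 0x564654db60a31e6))
 (c (a (nat_lit 0x527e91a7d1acf4f68)) e e)
 (c z e
 (c z e
 (c z e
 (c z e
 (c z e
 (c z e
 (c z e
 (c z e
 (c z e
 (c (a (nat_lit 0x405c2a2440f7325)) e e)))))))))))))))))
 (c z
 (c (a (nat_lit 0x3a3be0f25006025))
 (c z e
 (c z e
 (c z e
 (c z e
 (c z e
 (c z e
 (c z e
 (c z e
 (c (a (nat_lit 0x948a58585a70678e7)) e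
 (c (a (nat_lit 0x3e283a92424a5f1a8)) e e))))))))))
 (c (a (nat_lit 0xd5330620802846))
 (c z e
 (c z e
 (c z e
 (c z e
 (c z e
 (c z e
 (c z e
 (c (a (nat_lit 0x26323012220f32709)) e
 (c (a (nat_lit 0x3e4c8c463c7cd9269)) e e)))))))))
 (c (a (nat_lit 0xc2820e0a063b227))
 (c (a (nat_lit 0x61f0622880b8f9687)) e
 (c z e
 (c z e
 (c z e
 (c z e
 (c (a (nat_lit 0x76a68a14126b9d6a8)) e
 (c (a (nat_lit 0x443c1232209b06629)) e e)))))))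
 (c (a (nat_lit 0x78342c205d021a7))
 (c z e
 (c z e
 (c z e
 (c (a (nat_lit 0xf6b7547f28af81b27)) e e))))
 (c (a (nat_lit 0x161a226b34742c7)) e
 (c z e
 (c z e
 (c z e
 (c z e
 (c z e
 (c z e
 (c z e
 (c z e
 (c (b (nat_lit 0x15f7535ff08f2a66)) e
 (c (a (nat_lit 0x1eed21e6688f5fa4)) e
 (c (a (nat_lit 0xae567a74ab32a65)) e e))))))))))))))))
 (c z
 (c (a (nat_lit 0x52ac2c1814190a6))
 (c z e
 (c z e
 (c z e
 (c z e
 (c (a (nat_lit 0x1954d480928892547)) e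
 (c (a (nat_lit 0x409a8c4a161a19627)) e
 (c (a (nat_lit 0x5e7c4828145f911a7)) e
 (c (a (nat_lit 0x2a3424362b6e947c8)) e e))))))))
 (c (a (nat_lit 0x1e28cc0b889f8b25))
 (c z e
 (c z e
 (c z e
 (c z e
 (c z e
 (c (a (nat_lit 0x5e6a20246506fa7a9)) e
 (c (a (nat_lit 0x5a1430332d288c4e9)) e e)))))))
 (c (a (nat_lit 0x6e78848d0244086)) e
 (c z e
 (c z e
 (c z e
 (c z e
 (c z e
 (c z e
 (c (a (nat_lit 0x64c90e7862060c7)) e
 (c (a (nat_lit 0x11d42c2ae442c4a7)) e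
 (c z e
 (c z e
 (c (a (nat_lit 0x154a08714d2c07c5)) e e))))))))))))))
 (c z
 (c (a (nat_lit 0x13b7f959f439b0a4))
 (c z e
 (c z e
 (c z e
 (c z e
 (c (a (nat_lit 0x3670522c59a0f8408)) e
 (c (a (nat_lit 0x8e5a0e491f12922e8)) e
 (c (a (nat_lit 0x2e1010a9b45c50228)) e e)))))))
 (c (b (nat_lit 0x121477ffffffffe5)) e
 (c z e
 (c (a (nat_lit 0x1147cb69a022c3a6)) e
 (c (a (nat_lit 0x1c3618223a457c7))
 (c z e
 (c (a (nat_lit 0x12f709254887858008)) e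
 (c (a (nat_lit 0x190667868560000008)) e e)))
 (c z e
 (c z e
 (c z e
 (c (b (nat_lit 0x2a3397fe4c0e287)) e
 (c (a (nat_lit 0x6b92505e323c6e7)) e
 (c (a (nat_lit 0x1c882d4aeacbcde7)) e
 (c z e
 (c (a (nat_lit 0x146bd35b57cc4c25)) e e)))))))))))))
 (c z
 (c z e
 (c z e
 (c (a (nat_lit 0xd50c86200a1cd46)) e
 (c (a (nat_lit 0x96480a0c208bd46)) e
 (c z e
 (c z e
 (c z e
 (c z e
 (c (a (nat_lit 0x12f862827c11127)) e e)))))))))
 (c z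
 (c (a (nat_lit 0x1612468360e23165))
 (c (a (nat_lit 0x13d9f2995638169b27)) e e)
 (c z e
 (c z e
 (c z e
 (c z e
 (c z e
 (c (a (nat_lit 0xff53978368e7f67)) e
 (c (a (nat_lit 0x70a8b8b098e1b48)) e e))))))))
 (c z e
 (c (a (nat_lit 0x202020203226)) e
 (c (a (nat_lit 0x20202034e7a6))
 (c z e
 (c (a (nat_lit 0x12503884c558726)) e
 (c (a (nat_lit 0x40461e9b03246c7)) e e)))
 (c (a (nat_lit 0xc0c0d765c1c6))
 (c (a (nat_lit 0x361c4c492c409e6)) e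
 (c z e
 (c z e
 (c z e
 (c z e
 (c (a (nat_lit 0x1c367bb80000008)) e
 (c (a (nat_lit 0x19c9400000000005)) e e)))))))
 (c (a (nat_lit 0x2c2d106e34226)) e
 (c z e
 (c (a (nat_lit 0x1a8fc44180c4a5))
 (c (a (nat_lit 0xe9443e100600008)) e e)
 (c (a (nat_lit 0x148640e047d1e4)) e
 (c (a (nat_lit 0x34040478cd625)) e
 (c (a (nat_lit 0x5858787304485)) e
 (c z e
 (c z e
 (c (a (nat_lit 0x5f8e1c263c284)) e
 (c (a (nat_lit 0x17602040804024)) e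
 (c (a (nat_lit 0x42e181805742)) e
 (c (a (nat_lit 0x12140e0ac7c63)) e e))))))))))))))))))))))) Tr.c Tr.e (nat_lit 0) C.cx C.cy
noncomputable def C384 : Tr := beta% (fun (c : Nat → Tr → Tr → Tr) (e : Tr) (z : Nat) (a b : Nat → Nat) =>
 (c z
 (c (a (nat_lit 0x1777630a76d1f1b803))
 (c (a (nat_lit 0x10d233b45192b2b252c4)) e e)
 (c (a (nat_lit 0x54422a5a3e3c79106))
 (c z e
 (c z e
 (c z e
 (c z e
 (c z e
 (c z e
 (c z e
 (c z e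
 (c z e
 (c z e
 (c (a (nat_lit 0x4e54784c34303c3d448)) e
 (c (a (nat_lit 0x4662ca5a484e3b73888)) e e))))))))))))
 (c (a (nat_lit 0x500e2a0402555b046))
 (c z e
 (c z e
 (c z e
 (c z e
 (c z e
 (c z e
 (c z e
 (c z e
 (c z e
 (c (a (nat_lit 0x62a8685a4a62b9f16c7)) e
 (c (a (nat_lit 0x468e4246666b9358a28)) e e)))))))))))
 (c (a (nat_lit 0x324e32328d7eb2ae6))
 (c z e
 (c z e
 (c z e
 (c z e
 (c z e
 (c z e
 (c (a (nat_lit 0x38302a1e283910c33e8)) e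
 (c (a (nat_lit 0x7062424c6111216ca48)) e
 (c (a (nat_lit 0x42282426367d1686329)) e e)))))))))
 (c (a (nat_lit 0xa69494ab2ee8aac06))
 (c z e
 (c z e
 (c z e
 (c z e
 (c z e
 (c z e
 (c z e
 (c (a (nat_lit 0x36304072910ca8402c9)) e e))))))))
 (c z e
 (c z e
 (c z e
 (c z e
 (c z e
 (c z e
 (c z e
 (c z e
 (c (a (nat_lit 0xed13a1bd474202f04)) e
 (c (a (nat_lit 0x161a3a4c5e6c5b846)) e
 (c (a (nat_lit 0xb8c8ccfb170efd5a7)) e e))))))))))))))))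
 (c z
 (c (a (nat_lit 0x4c323c2a2658e5127))
 (c z e
 (c z e
 (c z e
 (c z e
 (c z e
 (c z e
 (c z e
 (c z e
 (c (a (nat_lit 0x7cce8a665c4e4fd94c7)) e
 (c z e
 (c z e
 (c (a (nat_lit 0xa1208a82466151c50a8)) e
 (c z e
 (c (a (nat_lit 0xe9487c5848000000009)) e e))))))))))))))
 (c (a (nat_lit 0x301e0c0a77b787327))
 (c z e
 (c z e
 (c z e
 (c z e
 (c z e
 (c z e
 (c z e
 (c (a (nat_lit 0xae522e364e170ef6d28)) e e))))))))
 (c (a (nat_lit 0x2614144d0aa87c7a8))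
 (c z e
 (c z e
 (c z e
 (c z e
 (c z e
 (c (a (nat_lit 0x9e6e3848348686650c9)) e
 (c z e
 (c z e
 (c (a (nat_lit 0x68625224fbc390c6548)) e e)))))))))
 (c z e
 (c z e
 (c z e
 (c z e
 (c z e
 (c z e
 (c z e
 (c z e
 (c (a (nat_lit 0xf745a36d58a089d26)) e
 (c (a (nat_lit 0x7ca29088d25c2d627)) e
 (c (a (nat_lit 0x181a3068746ad5de8)) e e))))))))))))))
 (c (a (nat_lit 0x101010101011406))
 (c (a (nat_lit 0x382624611ab8c3007)) e
 (c z e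
 (c z e
 (c z e
 (c z e
 (c z e
 (c z e
 (c z e
 (c (a (nat_lit 0x1fcb2bad2cca2e33a6)) e
 (c (a (nat_lit 0xb6b6e6d89aaab5886)) e
 (c (a (nat_lit 0x80aa9696324cd9727)) e e)))))))))))
 (c (a (nat_lit 0x202020202106425))
 (c z e
 (c z e
 (c z e
 (c z e
 (c z e
 (c z e
 (c z e
 (c (a (nat_lit 0xf2e4be9aaaaf65586)) e
 (c (a (nat_lit 0xbab2aaa0b0a11cb27)) e e)))))))))
 (c (a (nat_lit 0x202020304b6265))
 (c z e
 (c z e
 (c z e
 (c z e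
 (c z e
 (c z e
 (c z e
 (c (a (nat_lit 0xfaf460e0b5bcc8d26)) e e))))))))
 (c (a (nat_lit 0x202032aae2a1a6))
 (c z e
 (c z e
 (c z e
 (c z e
 (c z e
 (c z e
 (c z e
 (c (a (nat_lit 0x48407ea12c5c841e7)) e
 (c z e
 (c z e
 (c z e
 (c (a (nat_lit 0x3846891a000000009)) e e))))))))))))
 (c (a (nat_lit 0x2a2b5d42a46a546))
 (c z e
 (c z e
 (c z e
 (c (a (nat_lit 0x12e4056a04ca266947)) e
 (c (a (nat_lit 0x28488c670a50af826)) e
 (c z e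
 (c z e
 (c (a (nat_lit 0x749ced18ac7c759c8)) e
 (c (a (nat_lit 0x8f1781deb23c4e008)) e e)))))))))
 (c (a (nat_lit 0x4d71329a7c767c6))
 (c z e
 (c z e
 (c z e
 (c z e
 (c z e
 (c z e
 (c z e
 (c (a (nat_lit 0xc9072042263c00009)) e e))))))))
 (c (a (nat_lit 0x172d4ca9a949a666)) e
 (c (a (nat_lit 0x1df7cf4eb1f00c24))
 (c (a (nat_lit 0x80121a18144527506)) e
 (c z e
 (c (a (nat_lit 0xb470727838a52cc08)) e e)))
 (c (a (nat_lit 0x10cf0f72f273adc6)) e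
 (c (a (nat_lit 0x12d2d536d8d5d426)) e
 (c z e
 (c z e
 (c (a (nat_lit 0xcb16cedcdc98726)) e
 (c (b (nat_lit 0x10ec6d6d4affe206)) e e))))))))))))))))) Tr.c Tr.e (nat_lit 0) C.cx C.cy
noncomputable def C386 : Tr := beta% (fun (c : Nat → Tr → Tr → Tr) (e : Tr) (z : Nat) (a b : Nat → Nat) =>
 (c z
 (c (a (nat_lit 0xfc534f4704f5443))
 (c z e
 (c (a (nat_lit 0x829b0c8e749ca8967)) e
 (c z e
 (c z e
 (c (a (nat_lit 0x647d92ea8a6280206)) e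
 (c z e
 (c (a (nat_lit 0x7e6c9c48462877426)) e
 (c (a (nat_lit 0x4c2230340833324c6)) e
 (c z e
 (c z e
 (c (a (nat_lit 0x381b060e040800007)) e e)))))))))))
 (c (a (nat_lit 0x6ecbcd2c8d5ec4))
 (c (a (nat_lit 0xb3ded486c6e0e15a6)) e
 (c (a (nat_lit 0x192a07ec6bf37cb1c6)) e
 (c z e
 (c z e
 (c (a (nat_lit 0x425a5a4e2436353c7)) e
 (c (a (nat_lit 0x427068221a3f1ec67)) e
 (c (a (nat_lit 0x38561e1e0d0cf2847)) e
 (c (a (nat_lit 0x7e626c4873169cc07)) e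
 (c (a (nat_lit 0x52700e5863ca74006)) e e)))))))))
 (c (a (nat_lit 0x3e72525e6304084))
 (c z e
 (c z e
 (c z e
 (c (a (nat_lit 0x5d0ea22c5866b47e6)) e
 (c (a (nat_lit 0xeeac4c6ea530e0506)) e e)))))
 (c (a (nat_lit 0x1032324552b82a4)) e
 (c (a (nat_lit 0xc2c4d79aa2c6404)) e
 (c (a (nat_lit 0x364976af00e0e44))
 (c z e
 (c z e
 (c (a (nat_lit 0x270a3e3a54382c007)) e e)))
 (c (a (nat_lit 0x7b70c0ccacb1344))
 (c (a (nat_lit 0x7353bc5a3aa066426)) e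
 (c (a (nat_lit 0x13848441e463400007)) e e))
 (c (a (nat_lit 0x198ccf8f511a05c4)) e
 (c (b (nat_lit 0x849cb0d115fffe5)) e
 (c (a (nat_lit 0xbab8db1a7038305)) e
 (c (a (nat_lit 0xc2f1385e2814185)) e
 (c (a (nat_lit 0x131a8a2822a3a1a4)) e
 (c (a (nat_lit 0x1fcb89852867eb24)) e e)))))))))))))
 (c z
 (c (a (nat_lit 0x16b437f87378fbe3))
 (c z e
 (c z e
 (c z e
 (c z e
 (c (a (nat_lit 0x543e7048668b67166)) e
 (c (a (nat_lit 0x3a8620106796f2346)) e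
 (c (a (nat_lit 0x401a1e2479063a1e7)) e e)))))))
 (c (a (nat_lit 0x1112741526e422e4))
 (c z e
 (c z e
 (c (a (nat_lit 0x128f9c36b29760a966)) e
 (c (a (nat_lit 0x8ed6aea8bd0898ac7)) e
 (c z e
 (c (a (nat_lit 0x523230eb42be30307)) e e))))))
 (c (a (nat_lit 0x1c9c78579c4c8564))
 (c z e
 (c (a (nat_lit 0xd31ee5439270fdf07)) e e))
 (c (a (nat_lit 0x19554d4eea814144))
 (c z e
 (c z e
 (c z e
 (c (a (nat_lit 0xdcf722be96c662007)) e e))))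
 (c z
 (c (a (nat_lit 0x9af3b51e9ab887265)) e
 (c (a (nat_lit 0x9dc33236746c9a6c6)) e
 (c (a (nat_lit 0x1b7d484906e7600006)) e e)))
 (c (a (nat_lit 0x665e066a0415b43))
 (c (a (nat_lit 0xbb9c7c327c764a006)) e
 (c (a (nat_lit 0x18a923056700000006)) e e))
 (c (a (nat_lit 0xba6ad6dc9be0083)) e
 (c (a (nat_lit 0x8ca6ff013c306a5)) e
 (c z e
 (c (a (nat_lit 0xb66b6a7c5a96904)) e
 (c (a (nat_lit 0xab848a709c834e4)) e
 (c (a (nat_lit 0x13a4d29716542f84)) e e))))))))))))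
 (c z
 (c (a (nat_lit 0x11108fa824a4c024)) e
 (c z e
 (c (a (nat_lit 0x12288625a0202085)) e
 (c z e
 (c (a (nat_lit 0xac04060616e7583))
 (c (a (nat_lit 0x118ac8050ba6a00007)) e e)
 (c (a (nat_lit 0x626468b48ba1703)) e
 (c (a (nat_lit 0xdcd8f117af7bba4)) e
 (c z e
 (c (a (nat_lit 0xcdd7d475343bc4)) e
 (c (a (nat_lit 0x3e88dd0504db465)) e
 (c (a (nat_lit 0x489b1518fd3f545)) e
 (c (a (nat_lit 0x3c666e7d2520b04)) e e))))))))))))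
 (c z
 (c (a (nat_lit 0x136e2964a0202064)) e
 (c (a (nat_lit 0x166c004020209c84))
 (c (a (nat_lit 0x70a25e92e72474868)) e
 (c (a (nat_lit 0xdc88b2a92c8292808)) e e))
 (c (a (nat_lit 0x4c0808060b16a44)) e
 (c (a (nat_lit 0xe060619f7043c3)) e
 (c z e
 (c (a (nat_lit 0x70297560fde7204)) e
 (c (a (nat_lit 0x374f62fdddc9b24)) e
 (c (a (nat_lit 0x5480a9371cf5385)) e e))))))))
 (c z
 (c (a (nat_lit 0xec08020619e90c3)) e
 (c (a (nat_lit 0x5a56587382f56c4)) e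
 (c z e
 (c (a (nat_lit 0xb4a349076e89de4)) e
 (c (a (nat_lit 0x5451b60713fe64)) e
 (c (a (nat_lit 0xa292d473210b2e5)) e
 (c (a (nat_lit 0x2e927ad2c6b1246)) e e)))))))
 (c z
 (c (a (nat_lit 0xa040ee66efd662)) e
 (c (a (nat_lit 0xab826df98b63)) e
 (c (a (nat_lit 0x64a14990f00a03)) e
 (c (a (nat_lit 0x504476bcc4c5ea4)) e
 (c (a (nat_lit 0x6e9700f339ab304)) e
 (c (a (nat_lit 0x52f0f8faf7b3545)) e
 (c z e
 (c (a (nat_lit 0x80788470628fce6)) e e))))))))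
 (c (a (nat_lit 0x2c2c2c2c2dac4))
 (c z e
 (c (a (nat_lit 0x3c166ed08e913a4)) e
 (c (a (nat_lit 0x46689c60bf4cbc5)) e
 (c z e
 (c z e
 (c (a (nat_lit 0x60686c6299a68c6)) e
 (c (a (nat_lit 0x80868c5c8df8006)) e e)))))))
 (c (a (nat_lit 0x181818191a2a5))
 (c (a (nat_lit 0x8711f10cde6ca3)) e
 (c (a (nat_lit 0x1454305344aa845)) e
 (c z e
 (c (a (nat_lit 0xb6ab2fff557c145)) e
 (c (a (nat_lit 0x608a9eeffd88506)) e
 (c (a (nat_lit 0x5c4e60792600007)) e e))))))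
 (c (a (nat_lit 0x2e2e2f7a46744))
 (c z e
 (c (a (nat_lit 0x6a7ef6d6ccbb046)) e
 (c (a (nat_lit 0xe545b75f7053026)) e e)))
 (c (a (nat_lit 0x2e2f48687c3e4))
 (c z e
 (c (a (nat_lit 0xa524f302544a666)) e e))
 (c (a (nat_lit 0x6178a09862564))
 (c (a (nat_lit 0x1a94d6a562a48005)) e e)
 (c (a (nat_lit 0x10630461406204)) e
 (c (a (nat_lit 0x113f80e04d8701)) e
 (c (a (nat_lit 0x15a7476b012142)) e
 (c (a (nat_lit 0xeaed4a1612041)) e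
 (c (a (nat_lit 0xfd64183c3e3a1)) e
 (c (a (nat_lit 0x148080a1c9aa01)) e e)))))))))))))))))) Tr.c Tr.e (nat_lit 0) C.cx C.cy
noncomputable def C387 : Tr := beta% (fun (c : Nat → Tr → Tr → Tr) (e : Tr) (z : Nat) (a b : Nat → Nat) =>
 (c z
 (c z
 (c (a (nat_lit 0xf6baecc2b551ef603)) e
 (c (a (nat_lit 0x424e3a34bb149f325)) e
 (c (a (nat_lit 0x1c1208a1fed32ee24)) e
 (c z e
 (c z e
 (c z e
 (c z e
 (c z e
 (c z e
 (c z e
 (c z e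
 (c z e
 (c (a (nat_lit 0xc8d8d4e0f43c4b945)) e
 (c (a (nat_lit 0xc20343a4a569b5e6)) e e))))))))))))))
 (c (a (nat_lit 0x404040404056a5))
 (c (a (nat_lit 0x967a758bc32dd5b04)) e
 (c z e
 (c z e
 (c z e
 (c z e
 (c z e
 (c z e
 (c z e
 (c z e
 (c z e
 (c (a (nat_lit 0x193858b527457abf45)) e
 (c (a (nat_lit 0x135290d12bcd5deda5)) e
 (c z e
 (c z e
 (c (a (nat_lit 0x383e52646a91d8008)) e e)))))))))))))))
 (c (a (nat_lit 0x60606060732285))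
 (c z e
 (c z e
 (c z e
 (c z e
 (c z e
 (c z e
 (c z e
 (c z e
 (c z e
 (c (a (nat_lit 0x8898ac5482f146b46)) e e))))))))))
 (c (a (nat_lit 0x20202031634185))
 (c z e
 (c z e
 (c z e
 (c z e
 (c z e
 (c z e
 (c z e
 (c z e
 (c z e
 (c z e
 (c (a (nat_lit 0x365676caa94e8c027)) e e)))))))))))
 (c (a (nat_lit 0x202038a9626405)) e
 (c (a (nat_lit 0x1213109e2842406))
 (c z e
 (c z e
 (c z e
 (c z e
 (c z e
 (c (a (nat_lit 0x4a266cae924c3fe66)) e e))))))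
 (c (a (nat_lit 0x7168e1a3634446)) e
 (c (b (nat_lit 0x1f05dfe544c700a5))
 (c z e
 (c (a (nat_lit 0x1e424290067cc3926)) e
 (c (a (nat_lit 0x4288e0634e905066)) e
 (c (a (nat_lit 0x68ee2e80b3eefcba6)) e e))))
 (c (a (nat_lit 0xb624727b04934e3))
 (c z e
 (c (a (nat_lit 0x749caaa8e17d074e6)) e e))
 (c (a (nat_lit 0x20786f36cf1da24))
 (c (a (nat_lit 0x3e462e6c6550a8406)) e e)
 (c (a (nat_lit 0x52509490b114a65)) e
 (c z e
 (c z e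
 (c z e
 (c z e
 (c z e
 (c (a (nat_lit 0x17072701804041a3)) e e)))))))))))))))))
 (c z
 (c (a (nat_lit 0x4040404051a185))
 (c z e
 (c z e
 (c z e
 (c z e
 (c z e
 (c z e
 (c z e
 (c z e
 (c z e
 (c z e
 (c z e
 (c z e
 (c (a (nat_lit 0x625e48577382c4ee6)) e e)))))))))))))
 (c (a (nat_lit 0x12121213a238145))
 (c z e
 (c z e
 (c z e
 (c z e
 (c z e
 (c (a (nat_lit 0x662c5e6a1f66f6c06)) e
 (c z e
 (c z e
 (c z e
 (c z e
 (c z e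
 (c (a (nat_lit 0x54585f292fc298687)) e e))))))))))))
 (c (a (nat_lit 0xc0c0d785838045))
 (c z e
 (c z e
 (c z e
 (c z e
 (c z e
 (c z e
 (c z e
 (c z e
 (c z e
 (c z e
 (c (a (nat_lit 0x3832e6cf544c4a2a7)) e e)))))))))))
 (c (a (nat_lit 0x2627aeca5c4e425))
 (c z e
 (c z e
 (c z e
 (c z e
 (c z e
 (c z e
 (c (a (nat_lit 0x8e7476684a667d1e6)) e
 (c z e
 (c (a (nat_lit 0x2e0e6c6a585269d86)) e e)))))))))
 (c (a (nat_lit 0xd228c2c2a264a6))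
 (c z e
 (c z e
 (c z e
 (c z e
 (c z e
 (c (a (nat_lit 0x6242787a5039a5ea6)) e
 (c (a (nat_lit 0x22745c524236bd0e7)) e e)))))))
 (c (a (nat_lit 0x1308212161238146))
 (c z e
 (c (a (nat_lit 0x1a322c3808cca1527)) e e))
 (c (a (nat_lit 0xf08494adcc6e3c3))
 (c z e
 (c z e
 (c z e
 (c z e
 (c z e
 (c z e
 (c (a (nat_lit 0x17ed4863c000000006)) e e)))))))
 (c (a (nat_lit 0x30040542b2d3be3)) e
 (c (a (nat_lit 0xcacdb9676da2b84)) e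
 (c z e
 (c z e
 (c (a (nat_lit 0x10b53ef18cad65c4)) e
 (c (a (nat_lit 0x10554e8c08222025)) e
 (c (a (nat_lit 0x1892708dcc4503e5)) e
 (c (a (nat_lit 0x16585a99a8c92664)) e e)))))))))))))))
 (c z
 (c (a (nat_lit 0x262627e26428003))
 (c z e
 (c z e
 (c z e
 (c z e
 (c z e
 (c z e
 (c z e
 (c z e
 (c z e
 (c z e
 (c z e
 (c (a (nat_lit 0x3a388281785e242e7)) e e))))))))))))
 (c (a (nat_lit 0x1e1f0e8a6a10024))
 (c z e
 (c z e
 (c z e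
 (c (a (nat_lit 0xacc29f5aced6c2a67)) e
 (c z e
 (c z e
 (c z e
 (c (a (nat_lit 0x5462408e621047ce6)) e
 (c (a (nat_lit 0x28164288303a071e7)) e
 (c (a (nat_lit 0xe1422682606198c6)) e
 (c (a (nat_lit 0x2a52412e0a0416008)) e e)))))))))))
 (c (a (nat_lit 0x7a9c6607a5c6a3))
 (c z e
 (c z e
 (c z e
 (c z e
 (c z e
 (c (a (nat_lit 0x707a883c260a3f807)) e
 (c (a (nat_lit 0xaebc30462437a5de6)) e
 (c (a (nat_lit 0x502c6a302c5728907)) e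
 (c (a (nat_lit 0x2507e1c6e59aa766)) e e)))))))))
 (c (a (nat_lit 0x176e23c302838305))
 (c z e
 (c z e
 (c z e
 (c z e
 (c z e
 (c (a (nat_lit 0x6a8e66746704da907)) e e))))))
 (c (a (nat_lit 0x106b0c6d2e3652a4))
 (c z e
 (c z e
 (c (a (nat_lit 0x1b0e2b86960e888986)) e
 (c z e
 (c z e
 (c z e
 (c z e
 (c (a (nat_lit 0x1ca443e44000000007)) e e))))))))
 (c (a (nat_lit 0xa8a8a8c90468024)) e
 (c (a (nat_lit 0x8282a344dc9ce04)) e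
 (c z e
 (c (a (nat_lit 0x6b54d4aafea8a24)) e
 (c (a (nat_lit 0x1612eff832b329c4)) e
 (c (a (nat_lit 0x112e15f0902a8024)) e
 (c (a (nat_lit 0x109572cde7444425)) e
 (c (a (nat_lit 0x10925311a988c885)) e
 (c (a (nat_lit 0x6d4ac0668cdc743)) e
 (c z e
 (c (a (nat_lit 0x600e34b07ce56e3)) e e))))))))))))))))
 C386)))) Tr.c Tr.e (nat_lit 0) C.cx C.cy
noncomputable def C388 : Tr := beta% (fun (c : Nat → Tr → Tr → Tr) (e : Tr) (z : Nat) (a : Nat → Nat) =>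
 (c z
 (c z
 (c (a (nat_lit 0xeced0f311afd1515064)) e e)
 (c (a (nat_lit 0xa6a77676be9287464))
 (c z e
 (c z e
 (c z e
 (c z e
 (c z e
 (c z e
 (c z e
 (c z e
 (c z e
 (c z e
 (c z e
 (c (a (nat_lit 0x3e445a984a46381d348)) e
 (c (a (nat_lit 0x9eaaeef8988473cefe7)) e e)))))))))))))
 (c (a (nat_lit 0x30e81c2c0a0283fe5))
 (c z e
 (c z e
 (c z e
 (c z e
 (c z e
 (c z e
 (c z e
 (c z e
 (c z e
 (c z e
 (c (a (nat_lit 0x263864322e221d46da8)) e e)))))))))))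
 (c (a (nat_lit 0x3408140602474c3e6))
 (c z e
 (c z e
 (c z e
 (c z e
 (c z e
 (c z e
 (c z e
 (c (a (nat_lit 0x3c4c44363e44b4c70e8)) e
 (c (a (nat_lit 0x4c6c4e525a429d849e8)) e
 (c (a (nat_lit 0x2c442a2624570482469)) e e))))))))))
 (c (a (nat_lit 0x88928884b3b4d2e65))
 (c z e
 (c z e
 (c z e
 (c z e
 (c z e
 (c z e
 (c z e
 (c (a (nat_lit 0x7660567aa8e78aaa6a8)) e e))))))))
 (c z e
 (c z e
 (c z e
 (c z e
 (c z e
 (c z e
 (c z e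
 (c z e
 (c z e
 (c (a (nat_lit 0x82708abc96988f065)) e e)))))))))))))))
 (c z
 (c (a (nat_lit 0x32be3a3c2e2695b65)) e
 (c (a (nat_lit 0x10a241e0a028399206))
 (c z e
 (c z e
 (c z e
 (c z e
 (c z e
 (c z e
 (c z e
 (c z e
 (c z e
 (c z e
 (c (a (nat_lit 0x6a9a4e3e2a4312c4968)) e
 (c z e
 (c (a (nat_lit 0x1536ed2745a000000008)) e e)))))))))))))
 (c (a (nat_lit 0x140a06043b147e687)) e
 (c (a (nat_lit 0x80a08456302eaca6)) e
 (c z e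
 (c z e
 (c z e
 (c z e
 (c z e
 (c z e
 (c z e
 (c z e
 (c (a (nat_lit 0xa7171ed6eb50245e5)) e e)))))))))))))
 (c z
 (c (a (nat_lit 0x4824120e978ac7105)) e
 (c (a (nat_lit 0x241e1e5f2a6a86be7)) e
 (c z e
 (c z e
 (c z e
 (c z e
 (c z e
 (c z e
 (c z e
 (c z e
 (c z e
 (c (a (nat_lit 0xc6e0decaee90adde5)) e
 (c (a (nat_lit 0x122442585c6ee5487)) e e)))))))))))))
 (c (a (nat_lit 0x80808080809244))
 (c z e
 (c z e
 (c z e
 (c z e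
 (c z e
 (c z e
 (c z e
 (c z e
 (c z e
 (c (a (nat_lit 0xa8b2a2d0868313ba6)) e
 (c (a (nat_lit 0x9e8cb8b098cf17d86)) e
 (c (a (nat_lit 0x4858606c76b0c3668)) e e))))))))))))
 (c (a (nat_lit 0x40404040510224))
 (c z e
 (c z e
 (c z e
 (c z e
 (c z e
 (c z e
 (c (a (nat_lit 0x18f00b248528f48c85)) e
 (c z e
 (c (a (nat_lit 0xd8a8b0b2910188d06)) e
 (c (a (nat_lit 0x9892fcc2e55ff2ce5)) e
 (c z e
 (c z e
 (c (a (nat_lit 0x2e2e364a795400008)) e e)))))))))))))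
 (c (a (nat_lit 0x20202034c9a0e5))
 (c z e
 (c z e
 (c z e
 (c z e
 (c (a (nat_lit 0x7d82806e98f0b6486)) e
 (c (a (nat_lit 0x15438364e76b840346)) e
 (c z e
 (c z e
 (c z e
 (c (a (nat_lit 0x548264e4fd5a325a7)) e
 (c z e
 (c (a (nat_lit 0x18263459140000008)) e e))))))))))))
 (c (a (nat_lit 0x202021eb465a685))
 (c z e
 (c z e
 (c z e
 (c z e
 (c (a (nat_lit 0x10810505c267256746)) e
 (c z e
 (c z e
 (c z e
 (c z e
 (c z e
 (c (a (nat_lit 0x5476a7ce000000007)) e e)))))))))))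
 (c (a (nat_lit 0x405c7162e4a445))
 (c z e
 (c z e
 (c (a (nat_lit 0x5e54872a24a33fa46)) e
 (c (a (nat_lit 0x303e3a2e6d06b68e6)) e e))))
 (c (a (nat_lit 0x695aa08a908c8e6)) e
 (c (a (nat_lit 0x170d86060565e4e5))
 (c (a (nat_lit 0x4c8a1e1a1e2e317c5)) e
 (c (a (nat_lit 0x6c6466645e5699567)) e
 (c z e
 (c (a (nat_lit 0x5882301408415cdc7)) e
 (c (a (nat_lit 0xd4fa5e06692ce2006)) e
 (c (a (nat_lit 0x107341a20040000007)) e e))))))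
 (c (a (nat_lit 0x15f2933314532f65))
 (c (a (nat_lit 0x5c5654544e2d58807)) e e)
 (c (a (nat_lit 0x15f65658ba5717e5)) e
 (c (a (nat_lit 0x10f0f335b3d35345)) e
 (c z e
 (c (a (nat_lit 0x11dbfa79fa3a2fe4)) e
 (c (a (nat_lit 0x1edd7d3dfdf4a784)) e e))))))))))))))))) Tr.c Tr.e (nat_lit 0) C.cx
noncomputable def C389 : Tr := beta% (fun (c : Nat → Tr → Tr → Tr) (e : Tr) (z : Nat) (a b : Nat → Nat) =>
 (c (a (nat_lit 0x202021))
 (c (a (nat_lit 0x202001))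
 (c (a (nat_lit 0xc0a0806001)) e
 (c (a (nat_lit 0x4100a0a001)) e
 (c (a (nat_lit 0x4060405ee5)) e
 (c (a (nat_lit 0x2030d226)) e
 (c (a (nat_lit 0x395b07a6)) e
 (c z e
 (c (a (nat_lit 0x1312d462c0e7)) e
 (c (b (nat_lit 0x1fe993098003)) e
 (c (a (nat_lit 0x18c980000003)) e e)))))))))
 (c (a (nat_lit 0x202021))
 (c (a (nat_lit 0x60c0e0a1)) e
 (c (a (nat_lit 0x40405c9965)) e
 (c (a (nat_lit 0x3872ef56e67)) e
 (c z e
 (c z e
 (c (a (nat_lit 0x19bbcf804787)) e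
 (c (a (nat_lit 0xe36a1400003)) e
 (c (a (nat_lit 0x156000000003)) e e))))))))
 (c (a (nat_lit 0x20203944))
 (c (a (nat_lit 0x2038919586)) e
 (c z e
 (c z e
 (c z e
 (c (a (nat_lit 0x1d8f94a66006)) e
 (c (a (nat_lit 0x12af80000006)) e e))))))
 (c (a (nat_lit 0x2026d246))
 (c (a (nat_lit 0x1354f7b27de6)) e
 (c (a (nat_lit 0x7b3d070d607)) e e))
 (c (a (nat_lit 0x2792c206))
 (c (a (nat_lit 0x18ba0e4919c6)) e e)
 (c z e
 (c (a (nat_lit 0x12a9802026)) e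
 (c (a (nat_lit 0x10a0202885)) e
 (c (a (nat_lit 0x30ca64)) e
 (c (a (nat_lit 0x67830d0c3)) e
 (c z e
 (c (a (nat_lit 0x618120e1)) e
 (c (a (nat_lit 0x12120e021)) e
 (c (a (nat_lit 0x101406041)) e
 (c (a (nat_lit 0x200c06021)) e
 (c (a (nat_lit 0xe0a06021)) e
 (c (a (nat_lit 0x60400001)) e e)))))))))))))))))
 (c (nat_lit 1)
 (c (a (nat_lit 0x202032e6))
 (c (a (nat_lit 0x20203084)) e
 (c (a (nat_lit 0x202a340ba6)) e
 (c (a (nat_lit 0x4a9d9ed31a7)) e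
 (c z e
 (c (a (nat_lit 0x1e991ad82027)) e
 (c (a (nat_lit 0x13ab43e86006)) e
 (c (a (nat_lit 0x19cb40000003)) e e)))))))
 (c (a (nat_lit 0x20356847))
 (c (a (nat_lit 0x14b7cd6fe86)) e
 (c z e
 (c z e
 (c (a (nat_lit 0x9d1588c53e7)) e
 (c (a (nat_lit 0xd563d800006)) e
 (c (a (nat_lit 0x14e000000004)) e e))))))
 (c (a (nat_lit 0x87cbc3006)) e
 (c z e
 (c (a (nat_lit 0x11e9402006)) e
 (c (a (nat_lit 0x1220202ec5)) e
 (c (a (nat_lit 0x60936564)) e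
 (c (b (nat_lit 0xffffe1)) e
 (c z e
 (c (b (nat_lit 0x1fe1a0a0e1)) e
 (c (a (nat_lit 0x1e0606021)) e
 (c (a (nat_lit 0x20e14101)) e
 (c (a (nat_lit 0xc120e101)) e
 (c (a (nat_lit 0x60804101)) e
 (c (a (nat_lit 0x40406001)) e
 (c (a (nat_lit 0x20000001)) e e))))))))))))))))
 (c (a (nat_lit 0x202021))
 (c (a (nat_lit 0x17e68246))
 (c (a (nat_lit 0x3618365c65)) e
 (c z e
 (c z e
 (c (a (nat_lit 0x8ebbbaf0007)) e
 (c (a (nat_lit 0x197b80000005)) e e)))))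
 (c z e
 (c (a (nat_lit 0x12ea402006))
 (c (a (nat_lit 0x18fb38c46007)) e e)
 (c (a (nat_lit 0x9c02e1846)) e
 (c (a (nat_lit 0x5493c5)) e
 (c (a (nat_lit 0x12f25184)) e
 (c z e
 (c (a (nat_lit 0xa3026001)) e
 (c (a (nat_lit 0x15957552c4)) e
 (c (a (nat_lit 0x1e05e181a2)) e
 (c (a (nat_lit 0x8e0c26061)) e
 (c (a (nat_lit 0x6100c101)) e
 (c (a (nat_lit 0x2c0a0a001)) e
 (c (a (nat_lit 0x40800001)) e e))))))))))))))
 (c (nat_lit 1)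
 (c (a (nat_lit 0x156cc30305))
 (c (a (nat_lit 0x10d2d6652526)) e
 (c (a (nat_lit 0x1693b6e90007)) e e))
 (c (a (nat_lit 0x15a0203485))
 (c (a (nat_lit 0xcf3cb200007)) e e)
 (c (a (nat_lit 0x2054d465)) e
 (c z e
 (c z e
 (c (b (nat_lit 0x1fe18161c1)) e
 (c (a (nat_lit 0x1292d2a7c3)) e
 (c (a (nat_lit 0xd22e24181)) e
 (c (a (nat_lit 0x121c06f41)) e
 (c (a (nat_lit 0xc16184e1)) e
 (c (a (nat_lit 0x4082a521)) e
 (c (a (nat_lit 0x200e1c001)) e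
 (c (a (nat_lit 0x20000001)) e e)))))))))))))
 (c (a (nat_lit 0x202001))
 (c (a (nat_lit 0x349424))
 (c (a (nat_lit 0x148660000006)) e e)
 (c z e
 (c z e
 (c (a (nat_lit 0x1e7edebea5)) e
 (c (a (nat_lit 0x16f6f6eae5)) e
 (c (a (nat_lit 0x15a0204fa3)) e
 (c (a (nat_lit 0x40c17d41)) e
 (c (a (nat_lit 0x80824321)) e
 (c (a (nat_lit 0x20616141)) e
 (c (a (nat_lit 0x40a04021)) e
 (c (a (nat_lit 0x20200001)) e e)))))))))))
 (c (a (nat_lit 0x202021))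
 (c z e
 (c (a (nat_lit 0x1f7fdfdfe5)) e
 (c (a (nat_lit 0x61014061)) e
 (c (a (nat_lit 0x181208021)) e
 (c (a (nat_lit 0x460e0c461)) e
 (c (a (nat_lit 0x40c0e441)) e
 (c (a (nat_lit 0x20620201)) e
 (c (a (nat_lit 0x208060c1)) e
 (c (a (nat_lit 0x40204001)) e
 (c (a (nat_lit 0x20000001)) e e))))))))))
 (c (a (nat_lit 0x404041))
 (c (a (nat_lit 0x4141a041)) e
 (c (a (nat_lit 0x13e1a06e82)) e
 (c (a (nat_lit 0xd6280c021)) e
 (c (a (nat_lit 0x3620045c1)) e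
 (c (a (nat_lit 0x28203ebe1)) e
 (c (a (nat_lit 0x20804041)) e
 (c (a (nat_lit 0x12120a041)) e
 (c (a (nat_lit 0x180400001)) e e))))))))
 (c (nat_lit 1)
 (c (nat_lit 1) e
 (c (a (nat_lit 0x20202001)) e
 (c (a (nat_lit 0x20202021)) e
 (c (a (nat_lit 0x20202021)) e
 (c (a (nat_lit 0x20202021)) e
 (c (a (nat_lit 0x20202001)) e
 (c (a (nat_lit 0x20000001)) e e)))))))
 (c (a (nat_lit 0x202021))
 (c (a (nat_lit 0x20202021)) e
 (c (a (nat_lit 0x40404041)) e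
 (c (a (nat_lit 0x20202021)) e
 (c (a (nat_lit 0x20202021)) e
 (c (a (nat_lit 0x20200001)) e e)))))
 (c (a (nat_lit 0x202021))
 (c (a (nat_lit 0x20202021)) e
 (c (a (nat_lit 0x40404021)) e
 (c (a (nat_lit 0x40202001)) e
 (c (a (nat_lit 0x20000001)) e e))))
 (c (a (nat_lit 0x202021))
 (c (a (nat_lit 0x20202021)) e
 (c (a (nat_lit 0x20200001)) e e))
 (c (a (nat_lit 0x202021))
 (c (a (nat_lit 0x20000001)) e e)
 (c (a (nat_lit 0x202021)) e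
 (c (a (nat_lit 0x202021)) e
 (c (a (nat_lit 0x202021)) e
 (c (a (nat_lit 0x202021)) e
 (c (a (nat_lit 0x202021)) e
 (c (a (nat_lit 0x202021)) e
 (c (a (nat_lit 0x202001)) e
 (c (a (nat_lit 0x200021)) e
 (c (a (nat_lit 0x30e6)) e
 (c (a (nat_lit 0x10e846)) e
 (c z e
 (c (a (nat_lit 0x10802005)) e
 (c (a (nat_lit 0x2001)) e e)))))))))))))))))))))))))) Tr.c Tr.e (nat_lit 0) C.cx C.cy
noncomputable def C390 : Tr := beta% (fun (c : Nat → Tr → Tr → Tr) (e : Tr) (z : Nat) (a b : Nat → Nat) =>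
 (c (a (nat_lit 0x202021))
 (c (a (nat_lit 0x20202021))
 (c (a (nat_lit 0x32127dd8c1))
 (c (a (nat_lit 0x187797b7b66a43)) e
 (c z e
 (c z e
 (c (a (nat_lit 0x17b7a7e8ec8225)) e
 (c (a (nat_lit 0x170e4aabd2c6e5)) e
 (c (a (nat_lit 0xc0a51a786c045)) e
 (c (a (nat_lit 0xda7ec0a12005)) e
 (c (a (nat_lit 0x11088040000007)) e e))))))))
 (c z e
 (c z e
 (c (a (nat_lit 0x11ab4b2b0b05))
 (c z e
 (c (a (nat_lit 0x30795ad35345)) e
 (c (a (nat_lit 0x38dca1600005)) e e)))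
 (c (a (nat_lit 0x2c3e1a1a101))
 (c (a (nat_lit 0x19e32240402006)) e
 (c (a (nat_lit 0xf142180000006)) e e))
 (c (a (nat_lit 0x1352524e8002))
 (c (a (nat_lit 0x1240a000000005)) e e)
 (c (a (nat_lit 0x1170c0608044)) e
 (c (a (nat_lit 0x48f712cab81)) e
 (c (a (nat_lit 0xa080603025)) e
 (c (a (nat_lit 0x22210543227)) e
 (c (a (nat_lit 0xaaff0f0124)) e
 (c (a (nat_lit 0x10bacbabcbc5)) e
 (c (a (nat_lit 0x1e60a0a08084)) e
 (c (a (nat_lit 0x80a04001)) e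
 (c (a (nat_lit 0xc0000001)) e e)))))))))))))))
 (c (a (nat_lit 0x20200001))
 (c z e
 (c (a (nat_lit 0x16a884e62625))
 (c (a (nat_lit 0x1673fe9e70d366)) e
 (c (b (nat_lit 0xa1ffbd2115567)) e e))
 (c (a (nat_lit 0x4a0d21211e5))
 (c (a (nat_lit 0x2d118a696906)) e
 (c (a (nat_lit 0x10248545626007)) e
 (c (a (nat_lit 0x11d210a0000007)) e e)))
 (c (a (nat_lit 0x842c2c38041))
 (c (a (nat_lit 0x180a9500600004)) e
 (c (a (nat_lit 0x1a4d6000000007)) e e))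
 (c (b (nat_lit 0x17d4e0a0dfe5))
 (c (a (nat_lit 0x14600000000006)) e e)
 (c (a (nat_lit 0x670118644a1)) e
 (c (a (nat_lit 0x58501618021)) e
 (c (a (nat_lit 0x7a7b8971ea7)) e
 (c z e
 (c z e
 (c z e
 (c (a (nat_lit 0x196286004025)) e
 (c (a (nat_lit 0x11c140400002)) e
 (c (nat_lit 1) e e))))))))))))))
 (c (a (nat_lit 0x20000001))
 (c (a (nat_lit 0x36763838261))
 (c (a (nat_lit 0x340a4302e464)) e
 (c (a (nat_lit 0x1c42ec4746a604)) e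
 (c (b (nat_lit 0x177fedc3416005)) e
 (c (a (nat_lit 0x318580000004)) e e))))
 (c (a (nat_lit 0x5e242e2a5a1))
 (c (a (nat_lit 0xb9c0f636320e4)) e
 (c (a (nat_lit 0x196fb061e00005)) e
 (c (a (nat_lit 0x1341e000000005)) e e)))
 (c (a (nat_lit 0x1a7aa0a0e0e4))
 (c (a (nat_lit 0x10ee4740000005)) e
 (c (a (nat_lit 0x13e00000000004)) e e))
 (c (a (nat_lit 0xbce11cd78a1)) e
 (c (a (nat_lit 0x806061f244)) e
 (c (a (nat_lit 0x202e505407)) e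
 (c z e
 (c z e
 (c z e
 (c z e
 (c (a (nat_lit 0x1c6f70602006)) e e)))))))))))
 (c (nat_lit 1)
 (c (a (nat_lit 0x1a5a60c0c003))
 (c (a (nat_lit 0x142d2da0a04004)) e
 (c (a (nat_lit 0x1c9c2da0000003)) e e))
 (c (a (nat_lit 0x8650260e001)) e
 (c (a (nat_lit 0x68645030341)) e
 (c (a (nat_lit 0x204f1035e6)) e
 (c (a (nat_lit 0x1efaf32ee47)) e
 (c z e
 (c (a (nat_lit 0xd2e3d9e7767)) e
 (c (b (nat_lit 0x1ff24c6e78e4)) e
 (c (a (nat_lit 0xc898b1066a5)) e e)))))))))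
 (c (a (nat_lit 0x40404041))
 (c (a (nat_lit 0x4030180a061)) e
 (c (a (nat_lit 0x2e7452c5)) e
 (c (a (nat_lit 0x3b2b2d512e6)) e
 (c z e
 (c (a (nat_lit 0x1817779562e7)) e
 (c (a (nat_lit 0xb0bba1170e7)) e
 (c (a (nat_lit 0x527436bf286)) e
 (c (a (nat_lit 0xd0971cc4006)) e e))))))))
 (c (a (nat_lit 0x404021))
 (c (a (nat_lit 0xaed552dac5)) e
 (c z e
 (c (a (nat_lit 0x1a793b706967)) e
 (c (a (nat_lit 0xbed1086c528)) e
 (c (a (nat_lit 0xc2c32c9fda7)) e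
 (c (a (nat_lit 0xe8d87990c47)) e e))))))
 (c (a (nat_lit 0x20402021))
 (c (a (nat_lit 0x1311f2634346)) e
 (c (a (nat_lit 0x17b86fa1a426)) e
 (c (a (nat_lit 0xaeaca6a3227)) e e)))
 (c (a (nat_lit 0x20202001))
 (c (a (nat_lit 0x1726e0abe485)) e
 (c z e
 (c z e
 (c (a (nat_lit 0x14b800200006)) e
 (c (a (nat_lit 0x114000000004)) e e)))))
 (c (a (nat_lit 0x20203065))
 (c z e
 (c (a (nat_lit 0xed7aae64006)) e
 (c (a (nat_lit 0x10c2a0000006)) e e)))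
 (c (a (nat_lit 0x9f04))
 (c (a (nat_lit 0x18258be00004)) e
 (c (a (nat_lit 0x130000000005)) e e))
 (c (a (nat_lit 0x474b329e6)) e
 (c (a (nat_lit 0x1bba30ede6)) e
 (c (a (nat_lit 0x19ea216165)) e
 (c (a (nat_lit 0x11c0402324)) e
 (c (a (nat_lit 0x14218eba1)) e
 (c (b (nat_lit 0x3160d5fe1)) e
 (c z e
 (c (b (nat_lit 0x1fe1200001)) e
 (c (a (nat_lit 0x141210021)) e
 (c (a (nat_lit 0x1e2004021)) e
 (c (a (nat_lit 0x522002001)) e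
 (c (a (nat_lit 0x240000001)) e e))))))))))))))))))))))
 (c (a (nat_lit 0x202021))
 (c (a (nat_lit 0x40404041))
 (c (a (nat_lit 0x1bf008884823))
 (c (a (nat_lit 0xa2707f3aa2424)) e
 (c (a (nat_lit 0x38551a7034366)) e
 (c (a (nat_lit 0x57a9abca0ae4)) e
 (c (a (nat_lit 0x198db1a36361a4)) e
 (c (a (nat_lit 0x11086f30000005)) e e)))))
 (c (a (nat_lit 0x1d40e0604002))
 (c (a (nat_lit 0x5906804080c6)) e
 (c (a (nat_lit 0x1064e520606067)) e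
 (c (a (nat_lit 0xcbb1342a1e004)) e
 (c (a (nat_lit 0xe3ddf20000005)) e e))))
 (c (a (nat_lit 0x3e161218061))
 (c (a (nat_lit 0x1e3c6262e22022)) e
 (c (a (nat_lit 0x166a2760600005)) e
 (c (a (nat_lit 0x1f9e8000000005)) e e)))
 (c (a (nat_lit 0x1b3b20a10003))
 (c (a (nat_lit 0x16eda6e0000004)) e
 (c (a (nat_lit 0x11800000000006)) e e))
 (c (a (nat_lit 0x7e282a0e001)) e
 (c (a (nat_lit 0x102a2c0a0a1)) e
 (c (a (nat_lit 0x2020203066)) e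
 (c (a (nat_lit 0x141549cb567)) e
 (c z e
 (c z e
 (c (a (nat_lit 0x1142c3a12126)) e
 (c (a (nat_lit 0xcf980c04003)) e
 (c (a (nat_lit 0x194060000003)) e e)))))))))))))
 (c (a (nat_lit 0xa0a0a0a1))
 (c (a (nat_lit 0xae6a6e6cd41))
 (c (a (nat_lit 0x14852080c10126)) e
 (c (a (nat_lit 0x15d37362c361e5)) e
 (c z e
 (c (a (nat_lit 0x104fa000000005)) e e))))
 (c (a (nat_lit 0x10b0c06080a5))
 (c (a (nat_lit 0x125191e1c08005)) e
 (c (a (nat_lit 0x15926a00000005)) e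
 (c (a (nat_lit 0x13400000000006)) e e)))
 (c (a (nat_lit 0x8deaaa9501)) e
 (c (a (nat_lit 0x2e3cc2b61)) e
 (c (a (nat_lit 0xa0c11c44)) e
 (c (a (nat_lit 0x2d90f027)) e
 (c (a (nat_lit 0x28b3433d368)) e
 (c z e
 (c z e
 (c (b (nat_lit 0x1ff020806024)) e
 (c (a (nat_lit 0x106060800004)) e
 (c (a (nat_lit 0xc000000001)) e e))))))))))))
 (c (a (nat_lit 0x2021))
 (c (a (nat_lit 0x4820120c081)) e
 (c (a (nat_lit 0x26242630181)) e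
 (c (a (nat_lit 0xc32422a021)) e
 (c (a (nat_lit 0x8056d6c7e5)) e
 (c (a (nat_lit 0x6e4e49f427)) e
 (c z e
 (c z e
 (c z e
 (c (b (nat_lit 0x1d9fe1404004)) e
 (c (a (nat_lit 0x23a0000001)) e e))))))))))
 (c (a (nat_lit 0x40404041))
 (c (a (nat_lit 0x161a1814001)) e
 (c (a (nat_lit 0x8040704764)) e
 (c (a (nat_lit 0x65191a7b9e6)) e e)))
 (c (a (nat_lit 0x20406061))
 (c (a (nat_lit 0xf2f73597a26)) e
 (c z e
 (c (a (nat_lit 0x1635ba6628a7)) e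
 (c (a (nat_lit 0x171fda0cf6e7)) e
 (c (a (nat_lit 0x12d6759b1d47)) e e)))))
 (c (a (nat_lit 0x60404041))
 (c (b (nat_lit 0x18fffb238025)) e
 (c (a (nat_lit 0x2ff2182efa5)) e
 (c (a (nat_lit 0xe045913cbc7)) e e)))
 (c (a (nat_lit 0x20203ee5))
 (c (a (nat_lit 0xf862721f986)) e e)
 (c (a (nat_lit 0x203ffce4)) e
 (c (a (nat_lit 0xdd650abe7))
 (c (a (nat_lit 0x1707c0000007)) e e)
 (c z e
 (c (a (nat_lit 0x1e15a7e7e5)) e
 (c (a (nat_lit 0x1b80202924)) e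
 (c (a (nat_lit 0x20529223)) e
 (c (a (nat_lit 0x1f452d2e3)) e
 (c z e
 (c (a (nat_lit 0x1cc0e04022)) e
 (c (a (nat_lit 0x340c04001)) e
 (c (a (nat_lit 0x1a1404101)) e
 (c (a (nat_lit 0x401204021)) e
 (c (a (nat_lit 0x40600001)) e e))))))))))))))))))))
 (c (a (nat_lit 0x202021))
 (c (a (nat_lit 0x20000021))
 (c (a (nat_lit 0x64724a72b21)) e
 (c (a (nat_lit 0xc4a2a76a1)) e
 (c (a (nat_lit 0x6121aeb041)) e
 (c (a (nat_lit 0x14e501081)) e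
 (c (a (nat_lit 0xe12156a4)) e
 (c (a (nat_lit 0x2d4ff0a7)) e
 (c (a (nat_lit 0x4b133d35207)) e
 (c z e
 (c (b (nat_lit 0x127fe9e5e525)) e
 (c (b (nat_lit 0x1ff2b48a2003)) e
 (c (a (nat_lit 0x13ea60000003)) e e)))))))))))
 (c (a (nat_lit 0x20200001))
 (c (a (nat_lit 0x80c16746c1)) e
 (c (a (nat_lit 0x1a28f3050a1)) e
 (c (a (nat_lit 0xa0c0dce5)) e
 (c (a (nat_lit 0x4040619107)) e
 (c (a (nat_lit 0x2d6e7cb3e7)) e
 (c z e
 (c z e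
 (c (b (nat_lit 0x1ffff5c96724)) e
 (c (b (nat_lit 0x1ffaa4e00002)) e
 (c (a (nat_lit 0x15c000000002)) e e))))))))))
 (c (a (nat_lit 0x80606061))
 (c (a (nat_lit 0x107c8ca00a1)) e
 (c (a (nat_lit 0x60a0907246)) e
 (c (a (nat_lit 0x30983adf167)) e
 (c z e
 (c z e
 (c z e
 (c (a (nat_lit 0x7cd55202005)) e
 (c (a (nat_lit 0x1c72a0000005)) e e))))))))
 (c (a (nat_lit 0x20402001))
 (c (a (nat_lit 0x2050ae86c6)) e
 (c z e
 (c (a (nat_lit 0x13f289a44847)) e e)))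
 (c (a (nat_lit 0x20203ea4))
 (c (a (nat_lit 0x7123346cac6)) e
 (c (a (nat_lit 0x14cb8dfafe86)) e e))
 (c (a (nat_lit 0x20289146))
 (c (a (nat_lit 0x2ceeaf3a7)) e e)
 (c (a (nat_lit 0xe2f188d66)) e
 (c z e
 (c (a (nat_lit 0x1249202026)) e
 (c (a (nat_lit 0x1220202805)) e
 (c (a (nat_lit 0x205030e4)) e
 (c (a (nat_lit 0xb08aac04)) e
 (c z e
 (c (b (nat_lit 0x1fe3c100e1)) e
 (c (a (nat_lit 0x3a0c0a081)) e
 (c (a (nat_lit 0x406721)) e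
 (c (a (nat_lit 0x40c5cda1)) e
 (c (a (nat_lit 0x40a08001)) e
 (c (a (nat_lit 0x20000001)) e e)))))))))))))))))))
 C389)))) Tr.c Tr.e (nat_lit 0) C.cx C.cy
noncomputable def C391 : Tr := beta% (fun (c : Nat → Tr → Tr → Tr) (e : Tr) (z : Nat) (a b : Nat → Nat) =>
 (c (nat_lit 1)
 (c (a (nat_lit 0xc526f6d2d25))
 (c (a (nat_lit 0xb4dee148c0c05))
 (c z e
 (c (a (nat_lit 0x84b343f2fd06905)) e
 (c z e
 (c (a (nat_lit 0x105d90a400000005)) e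
 (c (a (nat_lit 0x1126c00000000006)) e e)))))
 (c z e
 (c z e
 (c (a (nat_lit 0x1dee6df38943a5)) e
 (c (a (nat_lit 0x13b5d2febe7445)) e
 (c (a (nat_lit 0x16d8bb9b389866)) e
 (c z e
 (c (a (nat_lit 0x324c7361989a6)) e
 (c (a (nat_lit 0x36423b2d301e6)) e
 (c (a (nat_lit 0x16f7b1f8a00005)) e
 (c (a (nat_lit 0x1891a000000004)) e e)))))))))))
 (c (b (nat_lit 0x17c49fe02005))
 (c (a (nat_lit 0x3b7c660a0a087))
 (c (a (nat_lit 0x1d0e5cdcc612007)) e e)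
 (c z e
 (c z e
 (c z e
 (c z e
 (c (a (nat_lit 0x206a50d963c7)) e e))))))
 (c (a (nat_lit 0x1c68c06051c2))
 (c z e
 (c z e
 (c z e
 (c z e
 (c z e
 (c z e
 (c (a (nat_lit 0x3339c2200007)) e e)))))))
 (c (a (nat_lit 0x72080887a24))
 (c z e
 (c (b (nat_lit 0x175b69c59fffe5)) e
 (c z e
 (c z e
 (c z e
 (c (a (nat_lit 0x17d5c0a0000007)) e e))))))
 (c (a (nat_lit 0x2e30b9981e4))
 (c (a (nat_lit 0x102383014be086)) e
 (c (b (nat_lit 0x14519fffe4e006)) e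
 (c z e
 (c (a (nat_lit 0x19c861e1c00007)) e
 (c (a (nat_lit 0x1f20a000000007)) e e)))))
 (c (a (nat_lit 0xfafd3ae8e06))
 (c (b (nat_lit 0xf3ff205a7c946)) e e)
 (c (a (nat_lit 0x7f8c746e6a4))
 (c (b (nat_lit 0x8bff099800004)) e e)
 (c (a (nat_lit 0x1500458582c4)) e
 (c (a (nat_lit 0x139373676404)) e
 (c (a (nat_lit 0x14f500606084)) e
 (c (a (nat_lit 0x3812160fac2)) e
 (c (a (nat_lit 0x25457065)) e
 (c (a (nat_lit 0x388a8f3c385)) e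
 (c (a (nat_lit 0x92974640405)) e
 (c (b (nat_lit 0x5707fe02005)) e
 (c (a (nat_lit 0x106020200005)) e
 (c (a (nat_lit 0x2e100000001)) e e)))))))))))))))))
 (c (a (nat_lit 0x20202021))
 (c (b (nat_lit 0x177fe7a78d83))
 (c (a (nat_lit 0x1b278181818006))
 (c (a (nat_lit 0x15eb500e82e00006)) e e)
 (c z e
 (c z e
 (c z e
 (c (a (nat_lit 0xf3389ec40a4c7)) e
 (c (b (nat_lit 0x1fe68ef5a7c547)) e
 (c (b (nat_lit 0x1ffffeffe1c046)) e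
 (c (a (nat_lit 0x2b74d42000008)) e e))))))))
 (c (a (nat_lit 0xc98183e3a45)) e
 (c z e
 (c z e
 (c (a (nat_lit 0x1bbb46a62624))
 (c (b (nat_lit 0x1ffaed98dd3ae6)) e
 (c (b (nat_lit 0x1ffffcb0a00006)) e e))
 (c (a (nat_lit 0x12a83736f585))
 (c (a (nat_lit 0x14b6d880000005)) e e)
 (c (a (nat_lit 0x100ff166a003)) e
 (c (a (nat_lit 0x1a188403e525)) e
 (c z e
 (c (a (nat_lit 0x404def3ec7)) e
 (c (a (nat_lit 0x22439105c7)) e
 (c (a (nat_lit 0x2237425a007)) e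
 (c z e
 (c (a (nat_lit 0x1445c0202007)) e
 (c (a (nat_lit 0x170020200005)) e
 (c (nat_lit 1) e e))))))))))))))))
 (c (a (nat_lit 0x20202021))
 (c (a (nat_lit 0xd8d8ff1aec6)) e
 (c z e
 (c (a (nat_lit 0x1cff22a24224)) e
 (c (a (nat_lit 0xfa1d1b19185))
 (c (a (nat_lit 0x563199e90005)) e
 (c (a (nat_lit 0x38f50a0000007)) e e))
 (c (a (nat_lit 0x1d1bfbb669a3))
 (c (a (nat_lit 0x114ba000000007)) e e)
 (c z e
 (c (a (nat_lit 0x43d9d1e05a1)) e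
 (c (b (nat_lit 0x20579fff66)) e
 (c (a (nat_lit 0x651d2b81887)) e
 (c z e
 (c z e
 (c z e
 (c (a (nat_lit 0x11e462002006)) e
 (c (a (nat_lit 0x124040000003)) e e))))))))))))))
 (c (a (nat_lit 0x20202021))
 (c (a (nat_lit 0xdd107268684))
 (c (a (nat_lit 0x9e77de968cc85)) e
 (c (a (nat_lit 0x115cc86a889a6)) e
 (c (b (nat_lit 0xe3fed3658c985)) e
 (c (b (nat_lit 0xbbff3aa400006)) e e))))
 (c (a (nat_lit 0x1560c0402004))
 (c (a (nat_lit 0x10af8601a100e6)) e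
 (c (a (nat_lit 0xc30e7a7010006)) e
 (c (a (nat_lit 0xee9480000006)) e e)))
 (c (a (nat_lit 0x82343a3ea81))
 (c (a (nat_lit 0x8c63260c00005)) e
 (c (a (nat_lit 0x110b2000000007)) e e))
 (c (a (nat_lit 0x177460a0a105))
 (c (a (nat_lit 0x18800000000005)) e e)
 (c (a (nat_lit 0xd4cad1762)) e
 (c (a (nat_lit 0x39199f26)) e
 (c (a (nat_lit 0x44ff05311e7)) e
 (c z e
 (c (b (nat_lit 0x1fe5e7467125)) e
 (c (a (nat_lit 0xcf08fba4a85)) e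
 (c (a (nat_lit 0xfcf19aa0885)) e e)))))))))))
 (c (nat_lit 1)
 (c (a (nat_lit 0x32343416141))
 (c (a (nat_lit 0x18e5e0e0a02025)) e
 (c (a (nat_lit 0x116646c0200006)) e
 (c (a (nat_lit 0xf3fa000000003)) e e)))
 (c (a (nat_lit 0x1292a0404024))
 (c (a (nat_lit 0xfb004c0000005)) e
 (c (a (nat_lit 0x1c800000000005)) e e))
 (c (a (nat_lit 0xc43cb8927e1)) e
 (c (a (nat_lit 0x14174f53f85)) e
 (c (a (nat_lit 0x2ef6f71ee67)) e
 (c z e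
 (c (a (nat_lit 0x1413d2914ca7)) e
 (c (a (nat_lit 0x340c54036e5)) e
 (c (a (nat_lit 0x32562ae38c6)) e
 (c (a (nat_lit 0x14f23dd42006)) e e))))))))))
 (c (a (nat_lit 0x40404041))
 (c (a (nat_lit 0xa1a2c280a1)) e
 (c (a (nat_lit 0x6c6f5bbb705)) e
 (c (a (nat_lit 0x7db9dfd5dc5)) e
 (c z e
 (c z e
 (c (a (nat_lit 0x1c5dfdcc2045)) e
 (c (a (nat_lit 0x202529f0a6)) e
 (c (a (nat_lit 0x205ca128466)) e e))))))))
 (c (a (nat_lit 0x402001))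
 (c (a (nat_lit 0x76ed2115186)) e
 (c z e
 (c (a (nat_lit 0x1c3adb51a0e6)) e
 (c (a (nat_lit 0x13d43d1504c7)) e
 (c (a (nat_lit 0xe503cf2d527)) e
 (c (a (nat_lit 0x9e8a64bd406)) e e))))))
 (c (a (nat_lit 0x80808061))
 (c (a (nat_lit 0x135292e8cc26)) e
 (c (a (nat_lit 0x1edf9ff24686)) e
 (c (b (nat_lit 0x14b538fff546)) e
 (c z e
 (c z e
 (c (b (nat_lit 0x1ff602200004)) e
 (c (a (nat_lit 0x13c000000004)) e e)))))))
 (c (a (nat_lit 0x60604041))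
 (c (a (nat_lit 0x183849d18f65)) e
 (c z e
 (c z e
 (c (a (nat_lit 0x13f7d1466004)) e
 (c (a (nat_lit 0x1e2aa0000004)) e e)))))
 (c (a (nat_lit 0x40406081))
 (c z e
 (c (b (nat_lit 0x1ff8ca8201a5)) e
 (c (a (nat_lit 0x164565400005)) e
 (c (a (nat_lit 0x13e000000004)) e e))))
 (c (a (nat_lit 0x2022c1))
 (c (a (nat_lit 0x13304a8fa003)) e
 (c (a (nat_lit 0x1ae020000004)) e e))
 (c (a (nat_lit 0x202c7d05))
 (c (a (nat_lit 0x2000000001)) e e)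
 (c (a (nat_lit 0x309318966)) e
 (c (a (nat_lit 0xbf3ec26c6)) e
 (c (a (nat_lit 0x1aab204045)) e
 (c (a (nat_lit 0x15a0202024)) e
 (c (a (nat_lit 0x202030e4)) e
 (c (b (nat_lit 0x2030dfe4)) e
 (c z e
 (c (a (nat_lit 0x14a0202024)) e
 (c (a (nat_lit 0xa0a06041)) e
 (c (a (nat_lit 0x8080c0a1)) e
 (c (a (nat_lit 0x60600001)) e e)))))))))))))))))))))))) Tr.c Tr.e (nat_lit 0) C.cx C.cy
noncomputable def C392 : Tr := beta% (fun (c : Nat → Tr → Tr → Tr) (e : Tr) (z : Nat) (a b : Nat → Nat) =>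
 (c (a (nat_lit 0x20202021))
 (c (a (nat_lit 0x7a7b04a4866))
 (c (a (nat_lit 0xa0bced2d8aaa6))
 (c (a (nat_lit 0x28ca7a8ec31c7e6)) e
 (c (a (nat_lit 0x2c68e0dd06429c7)) e
 (c z e
 (c (a (nat_lit 0x2cd716923c00007)) e
 (c (a (nat_lit 0x6d0c4c000000007)) e
 (c (a (nat_lit 0x11e0000000000007)) e e))))))
 (c z e
 (c z e
 (c (a (nat_lit 0x14bf0fcdb5e306)) e
 (c (a (nat_lit 0x1a068b265457e6)) e
 (c (a (nat_lit 0xfcfb3b135b107)) e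
 (c z e
 (c z e
 (c (a (nat_lit 0x341e3e30ad268)) e
 (c (a (nat_lit 0xe4c3365cca007)) e
 (c (a (nat_lit 0x1c0118c0000003)) e
 (c (a (nat_lit 0x1e600000000003)) e e))))))))))))
 (c z e
 (c (b (nat_lit 0x10a15fe10107)) e
 (c (a (nat_lit 0x1ecb40404fe4))
 (c z e
 (c (a (nat_lit 0xe7476a8e6e047)) e
 (c z e
 (c z e
 (c z e
 (c (a (nat_lit 0x11bc64200008)) e e))))))
 (c (a (nat_lit 0x82060711d64))
 (c (a (nat_lit 0x1c1d8583020c06)) e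
 (c (b (nat_lit 0x1eacaabfe68027)) e
 (c z e
 (c (b (nat_lit 0xe95ffffe26008)) e
 (c (a (nat_lit 0x496a220000008)) e e)))))
 (c (a (nat_lit 0xa75af304a06))
 (c (a (nat_lit 0x1251aa7c48e547)) e e)
 (c z e
 (c (a (nat_lit 0xa3c67672724)) e
 (c (a (nat_lit 0x198efb3b0f05)) e
 (c (b (nat_lit 0x107070707fe5)) e
 (c (a (nat_lit 0x9cb4927da83)) e
 (c (a (nat_lit 0x402700f645)) e
 (c (a (nat_lit 0x6e87659c5)) e
 (c (a (nat_lit 0x6a7ae904346)) e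
 (c z e
 (c (a (nat_lit 0x1634e0202025)) e
 (c (a (nat_lit 0x150020200005)) e
 (c (a (nat_lit 0x16000000001)) e e))))))))))))))))))
 (c (a (nat_lit 0x20202021))
 (c (b (nat_lit 0x10c0ffe08086))
 (c z e
 (c z e
 (c z e
 (c z e
 (c z e
 (c (a (nat_lit 0xbc616bbca4327)) e e))))))
 (c (a (nat_lit 0xe2deeceb4a5)) e
 (c (a (nat_lit 0x76060731424)) e
 (c z e
 (c z e
 (c (a (nat_lit 0x11b071513127))
 (c (a (nat_lit 0x5a152e8600007)) e e)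
 (c (a (nat_lit 0x100dd7d5784)) e
 (c (a (nat_lit 0x1373536783a5)) e
 (c z e
 (c (a (nat_lit 0x524b572ff66)) e
 (c (a (nat_lit 0x78763cd9b46)) e
 (c (a (nat_lit 0xa42ab48d46)) e
 (c z e
 (c z e
 (c (a (nat_lit 0x13f2c0202006)) e
 (c (a (nat_lit 0x12c020000006)) e e))))))))))))))))
 (c (a (nat_lit 0x40404041))
 (c (a (nat_lit 0x84020325403)) e
 (c z e
 (c z e
 (c (a (nat_lit 0x18a7a2e28284))
 (c (a (nat_lit 0x276338e4b6d27)) e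
 (c (b (nat_lit 0x1fffff0fa00006)) e e))
 (c (a (nat_lit 0x8c0fe1dfaa4))
 (c (a (nat_lit 0xad84a20000007)) e e)
 (c (b (nat_lit 0xf3071469fe3)) e
 (c (a (nat_lit 0x10ad8d4d3004)) e
 (c z e
 (c (a (nat_lit 0x22a92aab427)) e
 (c z e
 (c (b (nat_lit 0x59fed625566)) e
 (c (b (nat_lit 0x1feb60537fe6)) e
 (c (a (nat_lit 0xba174878026)) e e)))))))))))))
 (c (a (nat_lit 0x20202021))
 (c z e
 (c (a (nat_lit 0x191595751505))
 (c (a (nat_lit 0x79c98949ba766)) e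
 (c (a (nat_lit 0x11743d9589a807)) e e))
 (c (a (nat_lit 0x1c50140c001))
 (c (a (nat_lit 0x19cae361004007)) e
 (c (a (nat_lit 0x1310320000007)) e e))
 (c (a (nat_lit 0x12b1b18de0a3))
 (c (a (nat_lit 0x19856000000005)) e e)
 (c (a (nat_lit 0x1130a080c245)) e
 (c (a (nat_lit 0x8ea3c1cdf26)) e
 (c z e
 (c z e
 (c (b (nat_lit 0x1ffffc408023)) e
 (c (b (nat_lit 0x1fee2f405444)) e
 (c (a (nat_lit 0x1010c9537e45)) e
 (c (a (nat_lit 0x16ef59922005)) e e))))))))))))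
 (c (a (nat_lit 0x20404021))
 (c (a (nat_lit 0x4e0a100c001))
 (c (a (nat_lit 0x16d15c4700c024)) e
 (c (a (nat_lit 0x12b18221002006)) e
 (c (a (nat_lit 0x151c3360000005)) e e)))
 (c (a (nat_lit 0x421e1c281c1))
 (c (a (nat_lit 0x10836680200006)) e
 (c (a (nat_lit 0x11e66000000007)) e e))
 (c (a (nat_lit 0x1390606084e5))
 (c (a (nat_lit 0x1a600000000004)) e e)
 (c (a (nat_lit 0x4110f57585)) e
 (c (a (nat_lit 0x6d8db3b1d46)) e
 (c z e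
 (c (a (nat_lit 0x129295f08ce7)) e
 (c (b (nat_lit 0x1ff100452284)) e
 (c (a (nat_lit 0x5410601ba66)) e
 (c (a (nat_lit 0x6c907338767)) e e))))))))))
 (c (a (nat_lit 0x40404041))
 (c (a (nat_lit 0x1777a100e022))
 (c (a (nat_lit 0x180ea600000003)) e
 (c (a (nat_lit 0x10000000000004)) e e))
 (c (a (nat_lit 0x120eaceb066)) e
 (c (a (nat_lit 0x1eaec10b526)) e
 (c z e
 (c (a (nat_lit 0x13d638b28c87)) e
 (c (a (nat_lit 0xf91cf6b6067)) e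
 (c (a (nat_lit 0x1320a0cc3e84)) e
 (c (a (nat_lit 0x597db944)) e e))))))))
 (c (a (nat_lit 0x404021))
 (c (a (nat_lit 0x2cb6f6e5146)) e
 (c z e
 (c (a (nat_lit 0x15f3b9c862a6)) e
 (c (a (nat_lit 0x11f51a5563a7)) e
 (c (a (nat_lit 0xe4c9708af27)) e
 (c (a (nat_lit 0x6e58652e506)) e
 (c z e
 (c (b (nat_lit 0x1ff4e0200005)) e
 (c (a (nat_lit 0x14e000000005)) e e)))))))))
 (c (a (nat_lit 0x40404041))
 (c (a (nat_lit 0x17753b4303a5)) e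
 (c (a (nat_lit 0xd736feca026)) e
 (c z e
 (c z e
 (c z e
 (c (b (nat_lit 0x1fe731802004)) e
 (c (a (nat_lit 0x1791e0000004)) e e)))))))
 (c (a (nat_lit 0x40404021))
 (c (a (nat_lit 0x14b2f3096b46)) e
 (c z e
 (c z e
 (c (a (nat_lit 0x1f74464e4c5)) e
 (c (a (nat_lit 0x1a47e7e00005)) e
 (c (nat_lit 1) e e))))))
 (c (nat_lit 1)
 (c z e
 (c (b (nat_lit 0x1ff628a06ae5)) e
 (c (a (nat_lit 0x189107c04005)) e
 (c (a (nat_lit 0x1a0000001)) e e))))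
 (c (a (nat_lit 0x21))
 (c (a (nat_lit 0x326fa06023)) e
 (c (a (nat_lit 0x180180400002)) e
 (c (a (nat_lit 0x28000000001)) e e)))
 (c (a (nat_lit 0x20203424))
 (c (a (nat_lit 0xa040000001)) e e)
 (c (a (nat_lit 0x202a3325)) e
 (c (a (nat_lit 0x44e584f25)) e
 (c (a (nat_lit 0xd92ae0886)) e
 (c (a (nat_lit 0x14aa006065)) e
 (c (a (nat_lit 0x1360604024)) e
 (c (a (nat_lit 0x1a1206701)) e
 (c (a (nat_lit 0x1c9c7e1da3)) e
 (c z e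
 (c (a (nat_lit 0x20140e081)) e
 (c (a (nat_lit 0x18100a021)) e
 (c (a (nat_lit 0x1a1604001)) e
 (c (a (nat_lit 0x160000001)) e e))))))))))))))))))))))))) Tr.c Tr.e (nat_lit 0) C.cx C.cy
noncomputable def C393 : Tr := beta% (fun (c : Nat → Tr → Tr → Tr) (e : Tr) (z : Nat) (a b : Nat → Nat) =>
 (c (a (nat_lit 0x40404041))
 (c z e
 (c (b (nat_lit 0x17c45fe3e3e7))
 (c z e
 (c (a (nat_lit 0x12f08e4aa46028)) e
 (c z e
 (c z e
 (c z e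
 (c z e
 (c (b (nat_lit 0x1fffffb60aa008)) e e)))))))
 (c (a (nat_lit 0x1f66204032c4))
 (c (a (nat_lit 0x126a8f2323e207)) e
 (c z e
 (c z e
 (c z e
 (c (a (nat_lit 0x74e5383c38a08)) e
 (c (a (nat_lit 0x56c9e2e00008)) e e))))))
 (c (a (nat_lit 0x76444785164)) e
 (c z e
 (c z e
 (c (a (nat_lit 0x15e080c02003)) e
 (c (a (nat_lit 0x809a5a2204)) e
 (c (b (nat_lit 0x105050709fe5)) e
 (c (b (nat_lit 0xbfe6e6d3a7)) e
 (c (a (nat_lit 0x202a79ee86)) e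
 (c (a (nat_lit 0xd579bdd405)) e
 (c (a (nat_lit 0x2a70b619865)) e
 (c (b (nat_lit 0x86a85b11fe6)) e
 (c (a (nat_lit 0xc071282c026)) e e)))))))))))))))
 (c (nat_lit 1)
 (c (a (nat_lit 0x70b87c7d0e4))
 (c (a (nat_lit 0x179433ea4c2986)) e
 (c (a (nat_lit 0x169c2ba80180c6)) e
 (c z e
 (c z e
 (c z e
 (c (b (nat_lit 0x1fe3e770046407)) e
 (c (a (nat_lit 0xb7479ce800006)) e e)))))))
 (c (a (nat_lit 0x11a1619abc84))
 (c (a (nat_lit 0x17362985e34226)) e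
 (c z e
 (c z e
 (c (b (nat_lit 0xc705fef018887)) e
 (c (a (nat_lit 0x13f0fe0cc74006)) e
 (c (a (nat_lit 0x13f62d80000007)) e e))))))
 (c z e
 (c z e
 (c (a (nat_lit 0x146881006004))
 (c (a (nat_lit 0x5e13209000007)) e e)
 (c (a (nat_lit 0x11f01716f586)) e
 (c (a (nat_lit 0x1312f2ece8a6)) e
 (c z e
 (c z e
 (c z e
 (c (b (nat_lit 0x159fe200aa44)) e
 (c (b (nat_lit 0x1fe2c0b37443)) e
 (c (a (nat_lit 0x4022629406)) e
 (c (a (nat_lit 0xd6fcff0c006)) e e))))))))))))))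
 (c (a (nat_lit 0x20202021))
 (c (a (nat_lit 0x30318c04))
 (c (a (nat_lit 0x1384e5260ec285)) e
 (c z e
 (c z e
 (c (a (nat_lit 0xcf12821016246)) e
 (c (a (nat_lit 0x11e12121000007)) e
 (c (a (nat_lit 0x166ea000000006)) e e))))))
 (c z e
 (c (a (nat_lit 0x174102c10103))
 (c (b (nat_lit 0x1ff60646c56667)) e
 (c (b (nat_lit 0x1ffff584200006)) e e))
 (c (a (nat_lit 0xdae706f8a03))
 (c (a (nat_lit 0x9d9cc0000004)) e e)
 (c (b (nat_lit 0x13d333685fe3)) e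
 (c (a (nat_lit 0x605b10f8ea7)) e
 (c z e
 (c z e
 (c (b (nat_lit 0x13dfe1c0a002)) e
 (c (a (nat_lit 0x20a0605a24)) e
 (c (a (nat_lit 0x61a04d3cc5)) e
 (c (a (nat_lit 0x9c96c50ab87)) e e))))))))))))
 (c (nat_lit 1)
 (c (a (nat_lit 0x1a6380a08001))
 (c z e
 (c (b (nat_lit 0x1ffff5c7e606c5)) e
 (c (b (nat_lit 0x8edffca00004)) e e)))
 (c (a (nat_lit 0x403e140a001))
 (c (a (nat_lit 0x15c022a2202007)) e
 (c (a (nat_lit 0x1d6eaa0000007)) e e))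
 (c (b (nat_lit 0x1ada9a671fe4))
 (c (a (nat_lit 0x15896000000006)) e e)
 (c (b (nat_lit 0xbac3ffff345)) e
 (c z e
 (c z e
 (c (a (nat_lit 0x103a1a002004)) e
 (c (a (nat_lit 0x1171a0805843)) e
 (c (a (nat_lit 0x940a0893da4)) e
 (c (a (nat_lit 0xe0e54f9a85)) e e))))))))))
 (c (a (nat_lit 0x20202021))
 (c (a (nat_lit 0x442c2c16021))
 (c (a (nat_lit 0x1069020400004)) e
 (c (a (nat_lit 0x10464000000007)) e e))
 (c (a (nat_lit 0x98810508ce6))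
 (c (a (nat_lit 0x18400000000005)) e e)
 (c z e
 (c z e
 (c (a (nat_lit 0xdd232ede0c5)) e
 (c (a (nat_lit 0x18bb38be25a3)) e
 (c (a (nat_lit 0xe040685b44)) e
 (c (a (nat_lit 0x2047fb2f04)) e
 (c z e
 (c (a (nat_lit 0x95c88600004)) e
 (c (a (nat_lit 0x144000000004)) e e)))))))))))
 (c (a (nat_lit 0x402001))
 (c (a (nat_lit 0x771f2505246)) e
 (c z e
 (c (a (nat_lit 0x1dda3eb24b46)) e
 (c (b (nat_lit 0x52977107fe6)) e
 (c (a (nat_lit 0x1050558e06e6)) e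
 (c (a (nat_lit 0x5448195d565)) e
 (c z e
 (c (b (nat_lit 0x1fe2c4a14001)) e
 (c (a (nat_lit 0xa0000001)) e e)))))))))
 (c (a (nat_lit 0x20202021))
 (c (a (nat_lit 0x10ef31270726)) e
 (c (a (nat_lit 0xd31728bc446)) e
 (c z e
 (c z e
 (c z e
 (c (a (nat_lit 0xdb541a5c442)) e
 (c (a (nat_lit 0x1160a1400002)) e
 (c (nat_lit 1) e e))))))))
 (c (a (nat_lit 0x40404041))
 (c (a (nat_lit 0x1454342ee786)) e
 (c z e
 (c z e
 (c (b (nat_lit 0x1ff6bee04884)) e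
 (c (a (nat_lit 0x16bf00408004)) e
 (c (a (nat_lit 0x16e000000004)) e e))))))
 (c (nat_lit 1)
 (c z e
 (c (a (nat_lit 0x2c77e610024)) e
 (c (a (nat_lit 0x35de0402ba4)) e
 (c (a (nat_lit 0x126020200004)) e
 (c (nat_lit 1) e e)))))
 (c (a (nat_lit 0x40202021))
 (c (a (nat_lit 0x5c5e0203085)) e
 (c (a (nat_lit 0x262826001)) e
 (c (a (nat_lit 0x2080000001)) e e)))
 (c (a (nat_lit 0x20202021))
 (c (a (nat_lit 0x48020200001)) e
 (c (a (nat_lit 0x2000000001)) e e))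
 (c (a (nat_lit 0x200013a4)) e
 (c (a (nat_lit 0xa0aa7705)) e
 (c (a (nat_lit 0x5ead10a66)) e
 (c (a (nat_lit 0xaf12a85e6)) e
 (c (a (nat_lit 0x1aad440405)) e
 (c (a (nat_lit 0x12a0202044)) e
 (c (a (nat_lit 0xe0a24241)) e
 (c (a (nat_lit 0x90a48e961)) e
 (c z e
 (c (a (nat_lit 0x22418181)) e
 (c (a (nat_lit 0xc0606021)) e
 (c (a (nat_lit 0x60600001)) e e)))))))))))))))))))))))) Tr.c Tr.e (nat_lit 0) C.cx C.cy
noncomputable def C394 : Tr := beta% (fun (c : Nat → Tr → Tr → Tr) (e : Tr) (z : Nat) (a b : Nat → Nat) =>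
 (c (a (nat_lit 0x2021))
 (c (a (nat_lit 0x2020404021))
 (c (a (nat_lit 0x15757252525246))
 (c (a (nat_lit 0x10b1b1b1b1717127)) e
 (c z e
 (c (a (nat_lit 0x9ee6d8dad122e47)) e
 (c (a (nat_lit 0x80d0cccd16c6bc7)) e
 (c (a (nat_lit 0x6cbcbf0cacb64a7)) e
 (c (a (nat_lit 0x1512f5cf37d113c6)) e
 (c z e
 (c z e
 (c (a (nat_lit 0xed0adbabc2f8006)) e
 (c (a (nat_lit 0x1791764d60000006)) e
 (c (a (nat_lit 0x172d600000000006)) e e)))))))))))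
 (c (a (nat_lit 0x19802040202045))
 (c (a (nat_lit 0x181356b4179bee86))
 (c (a (nat_lit 0xa2dea26a785fd6027)) e
 (c (a (nat_lit 0xcca09ad30cd000009)) e e))
 (c (a (nat_lit 0x10906ff0b5b27488))
 (c (a (nat_lit 0xb0b10b26820000009)) e e) e))
 (c (a (nat_lit 0x2dba0a080a121))
 (c (a (nat_lit 0x12933259773797a7)) e e)
 (c (a (nat_lit 0xa080aa2ae001))
 (c z e
 (c (a (nat_lit 0x14f0530a52520a88)) e
 (c (a (nat_lit 0x7ada4ae7aaa67a7)) e e)))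
 (c (b (nat_lit 0x3a3a3f0ffe0a3))
 (c (a (nat_lit 0x15b660476e926286)) e
 (c (a (nat_lit 0x1ac0aab25ee48aa6)) e e))
 (c (a (nat_lit 0x9494b67b26925)) e
 (c z e
 (c (a (nat_lit 0x1e2d12823a3e5)) e
 (c (a (nat_lit 0xdfc52a0a0cae4)) e
 (c (a (nat_lit 0xc4242a3520624)) e
 (c (a (nat_lit 0x14bcdcd832d405)) e
 (c z e
 (c (a (nat_lit 0x8ac0766e2b504)) e
 (c (a (nat_lit 0xda887ca5d4004)) e
 (c (a (nat_lit 0x1918dafd400004)) e
 (c (a (nat_lit 0x122a4000000004)) e e))))))))))))))))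
 (c (a (nat_lit 0x20202001))
 (c (a (nat_lit 0x2610102a441))
 (c (a (nat_lit 0xe12af7354b7b326)) e
 (c (a (nat_lit 0xa090a2bafce90e9))
 (c (a (nat_lit 0xcd2f1082000000009)) e e)
 (c z e
 (c z e
 (c z e
 (c z e
 (c (a (nat_lit 0xc71622969e3e009)) e
 (c (b (nat_lit 0x57ff06a40000008)) e e))))))))
 (c (a (nat_lit 0x15606040a16f43))
 (c (a (nat_lit 0xc4c53f5d9974a28))
 (c (a (nat_lit 0x16efa5800000000008)) e e) e)
 (c (b (nat_lit 0x20203ffdc7)) e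
 (c z e
 (c z e
 (c z e
 (c (a (nat_lit 0x572a6e4c7e6)) e
 (c (a (nat_lit 0x45f7b5412f985)) e
 (c z e
 (c z e
 (c z e
 (c (a (nat_lit 0xc6842f1068a6)) e
 (c (a (nat_lit 0xf6ad8bde02005)) e
 (c (a (nat_lit 0x14f16020000004)) e
 (c (a (nat_lit 0x11600000000004)) e e)))))))))))))))
 (c (a (nat_lit 0x2020204041))
 (c (a (nat_lit 0x404040207e85))
 (c (a (nat_lit 0x64a0a316fe8a987)) e e)
 (c z e
 (c z e
 (c z e
 (c z e
 (c z e
 (c z e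
 (c z e
 (c z e
 (c z e
 (c (a (nat_lit 0x729b73db971a7)) e
 (c (a (nat_lit 0x1030564b200007)) e
 (c (a (nat_lit 0x106b4000000007)) e e)))))))))))))
 (c (a (nat_lit 0x203fc5))
 (c z e
 (c (a (nat_lit 0xb76fb99889026))
 (c z e
 (c (b (nat_lit 0x1c9c17bfece00007)) e e))
 (c (a (nat_lit 0x9740d82f3e6e6))
 (c (a (nat_lit 0x1e79e304a0000006)) e e)
 (c z e
 (c z e
 (c z e
 (c (a (nat_lit 0x1226c1c08f3087)) e
 (c (a (nat_lit 0x3ecd231b4ee47)) e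
 (c z e
 (c (a (nat_lit 0x40ad12e89c007)) e
 (c (a (nat_lit 0xad0e7a0000007)) e
 (c (a (nat_lit 0x12a00000000006)) e e))))))))))))
 (c (a (nat_lit 0x20203fa9c5))
 (c (a (nat_lit 0x11672067e8b7c4))
 (c z e
 (c (a (nat_lit 0x1101e707e0000007)) e e))
 (c (a (nat_lit 0x9e3c4a24b1426))
 (c (a (nat_lit 0x596728000000005)) e e)
 (c z e
 (c z e
 (c (a (nat_lit 0x4e70b62c958a7)) e
 (c (a (nat_lit 0x568e58bd79827)) e
 (c (a (nat_lit 0x9ce11d629ae47)) e e)))))))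
 (c (a (nat_lit 0x444542e4b66))
 (c (a (nat_lit 0x28362a4a933c6)) e
 (c z e
 (c z e
 (c (a (nat_lit 0x27132d17e125)) e
 (c (a (nat_lit 0x42a43e2c8f5e7)) e
 (c (a (nat_lit 0xc26eba3b218a7)) e e))))))
 (c (a (nat_lit 0x3f15cf8645)) e
 (c (a (nat_lit 0x160c6944c4c6))
 (c (a (nat_lit 0xa224ce50390e5)) e
 (c (a (nat_lit 0x5335a6e8deac6)) e e))
 (c (a (nat_lit 0x154be7e7c584))
 (c (a (nat_lit 0x1238518da76f26)) e
 (c z e
 (c (a (nat_lit 0x591cf06800007)) e e)))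
 (c (a (nat_lit 0x1a54f512c644))
 (c (a (nat_lit 0xdf200a2440007)) e
 (c (a (nat_lit 0x1669e700000007)) e e))
 (c (a (nat_lit 0x14747595b585))
 (c (a (nat_lit 0x11862000000007)) e e)
 (c z e
 (c (a (nat_lit 0x15f656765664)) e
 (c (a (nat_lit 0x14180c162c1)) e
 (c (a (nat_lit 0x6061428701)) e
 (c (a (nat_lit 0x408057e3)) e
 (c (a (nat_lit 0x20977323)) e
 (c (a (nat_lit 0x44f813b3e3)) e
 (c (a (nat_lit 0x128ece8e83)) e
 (c (a (nat_lit 0x11432100a001)) e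
 (c (a (nat_lit 0x14080000001)) e e)))))))))))))))))))))
 (c (a (nat_lit 0x20202021))
 (c (a (nat_lit 0x2020202021))
 (c (a (nat_lit 0x1a08080a0c021))
 (c (a (nat_lit 0x8e768890e31f106)) e
 (c (a (nat_lit 0x96acbf15014ede8))
 (c (a (nat_lit 0x12d40a600000000008)) e e)
 (c (a (nat_lit 0x10abadb575d297c7)) e
 (c z e
 (c z e
 (c (a (nat_lit 0x1a7152122eeae787)) e
 (c (a (nat_lit 0x1d7575f307200007)) e
 (c (a (nat_lit 0x8536f4000000006)) e e))))))))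
 (c (a (nat_lit 0x20202034e7))
 (c (a (nat_lit 0xeeeb3aa7ef3cf68)) e
 (c z e
 (c z e
 (c z e
 (c (a (nat_lit 0x1f0e90cdaa290008)) e e)))))
 (c (b (nat_lit 0x20203ff4f0c7)) e
 (c z e
 (c z e
 (c (a (nat_lit 0x68250032265e6)) e
 (c (b (nat_lit 0x1ff0c34062b726)) e
 (c (a (nat_lit 0xe21ca2bd55486)) e
 (c z e
 (c z e
 (c (a (nat_lit 0x1c750ef09b727)) e
 (c (a (nat_lit 0x2238f915aae86)) e
 (c (a (nat_lit 0x3a72879000006)) e
 (c (a (nat_lit 0x1a802000000005)) e e))))))))))))))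
 (c (a (nat_lit 0x2020203027))
 (c (a (nat_lit 0x2025928947))
 (c (b (nat_lit 0x9ca495eaeceffe7)) e
 (c z e
 (c z e
 (c z e
 (c (a (nat_lit 0x12f8b53dfd000006)) e e)))))
 (c z e
 (c z e
 (c z e
 (c (a (nat_lit 0x97091e9a0e047)) e
 (c z e
 (c z e
 (c z e
 (c z e
 (c (a (nat_lit 0x84d3190ba15c8)) e
 (c (b (nat_lit 0x1fe6acd2346008)) e
 (c (a (nat_lit 0x1a7c9a20000007)) e
 (c (a (nat_lit 0x1d800000000006)) e e)))))))))))))
 (c (a (nat_lit 0x2020336527))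
 (c z e
 (c z e
 (c z e
 (c z e
 (c z e
 (c z e
 (c z e
 (c z e
 (c z e
 (c (a (nat_lit 0x427ee50400008)) e
 (c (a (nat_lit 0x12cbe000000008)) e e)))))))))))
 (c (a (nat_lit 0x203aa442a7)) e
 (c z e
 (c (a (nat_lit 0x1ff5714e8e86))
 (c (a (nat_lit 0x361b8d4a63006)) e
 (c (a (nat_lit 0x907ef264a5da7)) e e))
 (c (a (nat_lit 0x14d16feff2a6))
 (c (a (nat_lit 0x384a4a3603fa8)) e
 (c (a (nat_lit 0xb1051be1ea3c8)) e e))
 (c (a (nat_lit 0xf0d1396a626))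
 (c (a (nat_lit 0x80915c7628ce8)) e e)
 (c z e
 (c z e
 (c (a (nat_lit 0x58281a261)) e
 (c (a (nat_lit 0x163a2628141)) e
 (c (a (nat_lit 0xa1614121)) e
 (c (a (nat_lit 0x2020203fc6)) e
 (c (a (nat_lit 0x20203fd6a6)) e
 (c (a (nat_lit 0x9df9690a6)) e
 (c z e
 (c (b (nat_lit 0x1ff2c6e6c6c5)) e
 (c (a (nat_lit 0x1820a0200004)) e
 (c (a (nat_lit 0x36000000001)) e e))))))))))))))))))))
 (c (a (nat_lit 0x20202041))
 (c (a (nat_lit 0x202038c346))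
 (c (a (nat_lit 0x2023cc87b406))
 (c (a (nat_lit 0x2b15e647cc18a5)) e
 (c (b (nat_lit 0x2ea1fffea92e4a6)) e
 (c z e
 (c z e
 (c (a (nat_lit 0x4edf32ac0000007)) e e)))))
 (c z e
 (c z e
 (c z e
 (c (a (nat_lit 0x332ab436088e7)) e
 (c z e
 (c z e
 (c z e
 (c z e
 (c (a (nat_lit 0xa894eafb6f487)) e
 (c (a (nat_lit 0x7c9b1f7a00007)) e
 (c (a (nat_lit 0x4000000001)) e e))))))))))))
 (c (a (nat_lit 0x15436007)) e
 (c (a (nat_lit 0x3d044e4c4a8)) e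
 (c (a (nat_lit 0x128943802006)) e
 (c (a (nat_lit 0x1045a0202885))
 (c (a (nat_lit 0x3293ed0b2667)) e e)
 (c (a (nat_lit 0xa206073b784))
 (c (a (nat_lit 0x133897cd992687)) e e)
 (c z e
 (c z e
 (c (a (nat_lit 0x3f560a04004)) e
 (c (a (nat_lit 0xaa05b9b9b85)) e
 (c (a (nat_lit 0x10505fb81046)) e
 (c (a (nat_lit 0x2020205405)) e
 (c (a (nat_lit 0x2027914a26)) e
 (c (a (nat_lit 0x77109b446)) e
 (c z e
 (c z e
 (c (a (nat_lit 0xa34b1602006)) e e)))))))))))))))))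
 C393)))) Tr.c Tr.e (nat_lit 0) C.cx C.cy
noncomputable def C395 : Tr := beta% (fun (c : Nat → Tr → Tr → Tr) (e : Tr) (z : Nat) (a b : Nat → Nat) =>
 (c (a (nat_lit 0x20202021))
 (c (b (nat_lit 0x1a1fffe20206))
 (c (a (nat_lit 0x1b45a6e8a4a46)) e
 (c (a (nat_lit 0x1e36cda7458227)) e
 (c z e
 (c z e
 (c z e
 (c (b (nat_lit 0x12d6807ff560a6)) e
 (c (b (nat_lit 0xbfebdb242007)) e e)))))))
 (c (a (nat_lit 0xf4942e2fc04))
 (c (a (nat_lit 0x102c888401e027)) e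
 (c (a (nat_lit 0x1f1ab58be54267)) e
 (c z e
 (c z e
 (c (a (nat_lit 0xf8e5ddf25a927)) e
 (c (a (nat_lit 0x4f35504200008)) e e))))))
 (c (a (nat_lit 0x300405a14e4))
 (c (a (nat_lit 0x10ef6d68435367)) e
 (c z e
 (c z e
 (c z e
 (c (a (nat_lit 0x39984e0000008)) e e)))))
 (c z e
 (c z e
 (c (a (nat_lit 0x13304e4eaea6)) e
 (c (a (nat_lit 0x114d7b1aef45)) e
 (c (a (nat_lit 0xd2d10b0c787)) e
 (c z e
 (c z e
 (c (a (nat_lit 0x1202e2402026)) e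
 (c (a (nat_lit 0x16060405985)) e
 (c (a (nat_lit 0x20e02691a7)) e
 (c (a (nat_lit 0x14086f20567)) e e))))))))))))))
 (c (nat_lit 1)
 (c (a (nat_lit 0x7c0203031a4))
 (c (a (nat_lit 0x106ea787487865)) e
 (c (a (nat_lit 0xe26c568f2c826)) e
 (c z e
 (c (a (nat_lit 0xf7dbbb3e2e006)) e
 (c (a (nat_lit 0x49447a2006007)) e
 (c (a (nat_lit 0x1e1546c0000007)) e e))))))
 (c (a (nat_lit 0x1a1d2300a65))
 (c (a (nat_lit 0xeca0ed6dafec5)) e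
 (c z e
 (c z e
 (c (a (nat_lit 0x1f90ca84c00007)) e
 (c (a (nat_lit 0x19278000000008)) e e)))))
 (c z e
 (c (a (nat_lit 0x134e2dcc6be4)) e
 (c (a (nat_lit 0x98a1a1913a1)) e
 (c (a (nat_lit 0xaaa926face7)) e
 (c z e
 (c z e
 (c (a (nat_lit 0x1545c4e08024)) e
 (c (a (nat_lit 0x2c0c140df62)) e
 (c (a (nat_lit 0x4040299245)) e
 (c (a (nat_lit 0x7c7ac70b706)) e e))))))))))))
 (c (a (nat_lit 0x40404041))
 (c (a (nat_lit 0x1018f6159524))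
 (c (a (nat_lit 0xc6867775185e5)) e
 (c z e
 (c z e
 (c (a (nat_lit 0x1911ea00000006)) e
 (c (a (nat_lit 0x12600000000005)) e e)))))
 (c (a (nat_lit 0x1503a1e0a083))
 (c (a (nat_lit 0x57a26c240a268)) e
 (c (b (nat_lit 0x1db17fea400006)) e e))
 (c (a (nat_lit 0x142b2c488141))
 (c (a (nat_lit 0x11973c80000005)) e e)
 (c (b (nat_lit 0x707115fea86)) e
 (c (a (nat_lit 0x61151105107)) e
 (c z e
 (c (a (nat_lit 0x10c8e4c483e4)) e
 (c (a (nat_lit 0x8e080a052c3)) e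
 (c (a (nat_lit 0x6060251625)) e
 (c (a (nat_lit 0x464493a5045)) e
 (c z e
 (c (a (nat_lit 0x496a4000005)) e
 (c (a (nat_lit 0x118000000005)) e e)))))))))))))
 (c (nat_lit 1)
 (c (a (nat_lit 0x3a3e120ebc1))
 (c (a (nat_lit 0x1ac06120c02007)) e
 (c (b (nat_lit 0x1ff689a0000006)) e e))
 (c (a (nat_lit 0x504f1d24cc6))
 (c (a (nat_lit 0x1e2da000000006)) e e)
 (c z e
 (c z e
 (c (a (nat_lit 0x159232b17146)) e
 (c (a (nat_lit 0x1576f756e464)) e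
 (c (a (nat_lit 0x4080445d04)) e
 (c (a (nat_lit 0xb4b2bd26da6)) e
 (c z e
 (c (b (nat_lit 0x1ff360602004)) e
 (c (a (nat_lit 0x14e0e0000004)) e e)))))))))))
 (c (a (nat_lit 0x40604041))
 (c (a (nat_lit 0xd1652519226))
 (c (a (nat_lit 0x16400000000004)) e e)
 (c z e
 (c (a (nat_lit 0x14d334cb25e6)) e
 (c (b (nat_lit 0x122f0f0ffe6)) e
 (c (a (nat_lit 0x1d9dde4d0a05)) e
 (c (a (nat_lit 0x1750319a4d25)) e
 (c z e
 (c (a (nat_lit 0x93a606ccc24)) e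
 (c (a (nat_lit 0x1a2040a00004)) e
 (c (a (nat_lit 0x2000000001)) e e))))))))))
 (c (a (nat_lit 0x2001))
 (c (a (nat_lit 0x100f500787a6)) e
 (c (a (nat_lit 0x1738d8d3a006)) e
 (c (b (nat_lit 0x13b3d3ffe866)) e
 (c z e
 (c z e
 (c (a (nat_lit 0xa3740c02b65)) e
 (c (a (nat_lit 0x178100402005)) e
 (c (a (nat_lit 0x6040000001)) e e))))))))
 (c (a (nat_lit 0x40406041))
 (c (a (nat_lit 0x12d2f2c1c946)) e
 (c z e
 (c z e
 (c (b (nat_lit 0x1ff8e8930004)) e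
 (c (a (nat_lit 0xb836a003345)) e
 (c (a (nat_lit 0x4101000001)) e
 (c (nat_lit 1) e e)))))))
 (c (a (nat_lit 0x404041))
 (c z e
 (c (a (nat_lit 0x35e22e18064)) e
 (c (a (nat_lit 0x1e0320403fc4)) e
 (c (a (nat_lit 0x2060606001)) e
 (c (a (nat_lit 0x4040000001)) e e)))))
 (c (nat_lit 1)
 (c (a (nat_lit 0x7a0a0207085)) e
 (c (a (nat_lit 0xa0e0c120e1)) e
 (c (a (nat_lit 0x80200001)) e
 (c (nat_lit 1) e e))))
 (c (a (nat_lit 0x40202021))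
 (c (a (nat_lit 0x4040402001)) e
 (c (a (nat_lit 0x6040000001)) e e))
 (c (a (nat_lit 0x20202021))
 (c (a (nat_lit 0x2000000001)) e e)
 (c (a (nat_lit 0x20203884)) e
 (c (a (nat_lit 0x2038bf64)) e
 (c (a (nat_lit 0x1adf16645)) e
 (c (a (nat_lit 0x1bbf13efa5)) e
 (c (a (nat_lit 0x1186622225)) e
 (c (a (nat_lit 0x1120202063)) e
 (c (a (nat_lit 0x141426461)) e
 (c (a (nat_lit 0x20e28081)) e
 (c z e
 (c (a (nat_lit 0x5a32160a1)) e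
 (c (a (nat_lit 0x260e04001)) e
 (c (a (nat_lit 0xa0000001)) e e)))))))))))))))))))))))) Tr.c Tr.e (nat_lit 0) C.cx C.cy
noncomputable def C396 : Tr := beta% (fun (c : Nat → Tr → Tr → Tr) (e : Tr) (z : Nat) (a b : Nat → Nat) =>
 (c (a (nat_lit 0x20202021))
 (c (a (nat_lit 0x2020202021))
 (c (a (nat_lit 0x4010060abe1))
 (c (a (nat_lit 0x13743252fc7d7a06)) e
 (c (a (nat_lit 0x118e6fb59a0c2c68))
 (c (a (nat_lit 0xed1d58a2000000009)) e e)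
 (c z e
 (c z e
 (c z e
 (c z e
 (c (a (nat_lit 0xe22f7842120c007)) e e)))))))
 (c (a (nat_lit 0x1740a040a6d523))
 (c (a (nat_lit 0xa6b4e92c5246b09))
 (c (a (nat_lit 0xe7465200000000009)) e e) e)
 (c (b (nat_lit 0x20409fff8023)) e
 (c z e
 (c z e
 (c z e
 (c z e
 (c z e
 (c z e
 (c z e
 (c z e
 (c (b (nat_lit 0x2449fe8b0f147)) e
 (c (a (nat_lit 0xb8a8b70486008)) e
 (c (a (nat_lit 0x1415cfc0000007)) e
 (c (a (nat_lit 0x18000000000005)) e e)))))))))))))))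
 (c (a (nat_lit 0x6060606061))
 (c (a (nat_lit 0x404040eeb3c5))
 (c (a (nat_lit 0x116fbc61608eada7)) e e)
 (c z e
 (c z e
 (c z e
 (c z e
 (c z e
 (c z e
 (c z e
 (c z e
 (c z e
 (c (b (nat_lit 0x3fe74bbb4087)) e
 (c (a (nat_lit 0xbaed130600008)) e
 (c (a (nat_lit 0x1185c000000007)) e e)))))))))))))
 (c (a (nat_lit 0x20202030e7))
 (c z e
 (c z e
 (c z e
 (c z e
 (c z e
 (c z e
 (c z e
 (c z e
 (c z e
 (c (a (nat_lit 0xc92b81acce008)) e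
 (c (a (nat_lit 0x15fc2f60000008)) e e)))))))))))
 (c (a (nat_lit 0x202010c2a7)) e
 (c (a (nat_lit 0x203aa90666)) e
 (c z e
 (c (a (nat_lit 0x1d8481602026))
 (c (a (nat_lit 0x620e465403987)) e
 (c (b (nat_lit 0x1fffe863f0c5c8)) e e))
 (c (a (nat_lit 0x19a7e0806003))
 (c (a (nat_lit 0x54a0b5145c288)) e e)
 (c z e
 (c z e
 (c z e
 (c (a (nat_lit 0xfb090301005)) e
 (c (a (nat_lit 0x961a0a116e1)) e
 (c (b (nat_lit 0x100a12bbfe1)) e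
 (c (b (nat_lit 0x20dfff05)) e
 (c z e
 (c z e
 (c z e
 (c (a (nat_lit 0x1c31b3808005)) e e)))))))))))))))))))
 (c (nat_lit 1)
 (c (a (nat_lit 0x2020203a06))
 (c (a (nat_lit 0x3c3c475f184c4))
 (c (a (nat_lit 0x66d20290184f5c6)) e e)
 (c (a (nat_lit 0x3a52a48e57ca7))
 (c (a (nat_lit 0x135c0ce9906dc388)) e e)
 (c z e
 (c z e
 (c z e
 (c z e
 (c (a (nat_lit 0x10e868a80b0928)) e
 (c z e
 (c z e
 (c z e
 (c (b (nat_lit 0x1fe2c85588c006)) e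
 (c (a (nat_lit 0xff24c80000007)) e
 (c (a (nat_lit 0x16e00000000005)) e e)))))))))))))
 (c (a (nat_lit 0x203d8627))
 (c (a (nat_lit 0x76be3e4d93307))
 (c (a (nat_lit 0x1168c4a689e023a8)) e e)
 (c z e
 (c z e
 (c z e
 (c (a (nat_lit 0xf0be32423d268)) e
 (c (a (nat_lit 0xdc6a7480ed3e8)) e
 (c z e
 (c z e
 (c z e
 (c (a (nat_lit 0x18959f72a00008)) e
 (c (a (nat_lit 0x140e2000000008)) e e)))))))))))
 (c (a (nat_lit 0x3c252227)) e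
 (c z e
 (c (a (nat_lit 0x148862206066)) e
 (c (a (nat_lit 0x10abea8a8f06))
 (c (a (nat_lit 0x8c969678038a8)) e
 (c (a (nat_lit 0x94dcf35f08628)) e e))
 (c (a (nat_lit 0x7e06073d204))
 (c (a (nat_lit 0x10179e8747ca87)) e e)
 (c z e
 (c z e
 (c (a (nat_lit 0xf986dcd8d85)) e
 (c (a (nat_lit 0x15a060406284)) e
 (c (a (nat_lit 0x602040fb64)) e
 (c (a (nat_lit 0x20411b96c4)) e
 (c z e
 (c (b (nat_lit 0x1fe1604034c6)) e
 (c (b (nat_lit 0x12020349fe6)) e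
 (c (a (nat_lit 0x5c5da210146)) e e)))))))))))))))))
 (c (a (nat_lit 0x60606061))
 (c (a (nat_lit 0x3a3b54482c7))
 (c (a (nat_lit 0xca345cb9d1486))
 (c (a (nat_lit 0xdaac906a62f5126)) e e)
 (c z e
 (c z e
 (c (b (nat_lit 0x1ff0a946cb0a27)) e
 (c (a (nat_lit 0x13262626940326)) e
 (c (a (nat_lit 0x1b5a9d977dbe47)) e
 (c z e
 (c z e
 (c (a (nat_lit 0x128a6b4d526007)) e
 (c (a (nat_lit 0x1b187ce0000006)) e
 (c (a (nat_lit 0x12000000000004)) e e)))))))))))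
 (c (b (nat_lit 0x1f20bfe2a7)) e
 (c (b (nat_lit 0x1da65fe14146))
 (c (a (nat_lit 0x633ce6de34067)) e
 (c z e
 (c z e
 (c z e
 (c z e
 (c (b (nat_lit 0x7ff04c036009)) e e))))))
 (c (b (nat_lit 0xeffe0607444))
 (c z e
 (c z e
 (c (a (nat_lit 0xb74980d090b88)) e e)))
 (c (a (nat_lit 0xb28e8fef0a4))
 (c (a (nat_lit 0x1075af27ba2be7)) e
 (c (a (nat_lit 0x1214edc548aea8)) e e))
 (c (a (nat_lit 0x1052f352f147))
 (c (a (nat_lit 0x11e98504486428)) e e)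
 (c z e
 (c (a (nat_lit 0x17f29251f1c5)) e
 (c (a (nat_lit 0x8e481a141e1)) e
 (c (a (nat_lit 0x15151c3c3f06)) e
 (c (a (nat_lit 0xaaab63e6105)) e
 (c z e
 (c (a (nat_lit 0x121603a02566)) e
 (c (a (nat_lit 0xb01e022b607)) e
 (c (a (nat_lit 0x20d431c7)) e
 (c (a (nat_lit 0x384378da007)) e e))))))))))))))))
 C395)))) Tr.c Tr.e (nat_lit 0) C.cx C.cy
noncomputable def C397 : Tr := beta% (fun (c : Nat → Tr → Tr → Tr) (e : Tr) (z : Nat) (a b : Nat → Nat) =>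
 (c (a (nat_lit 0x2020204001))
 (c (a (nat_lit 0x1d3e1cdcc461a5))
 (c (a (nat_lit 0x6494a1535b69446))
 (c z e
 (c z e
 (c z e
 (c (a (nat_lit 0xd0cecebaa4f10cdca)) e e))))
 (c z e
 (c z e
 (c (a (nat_lit 0xbef0c0b6cba5849)) e
 (c (a (nat_lit 0x4c725c550d45288)) e
 (c (a (nat_lit 0x82b6f15146fd607)) e
 (c z e
 (c z e
 (c z e
 (c (a (nat_lit 0x6a911038aa3c008)) e
 (c (a (nat_lit 0x6538c0300000008)) e e)))))))))))
 (c z e
 (c z e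
 (c (a (nat_lit 0x17660664e4c4e6))
 (c z e
 (c z e
 (c (a (nat_lit 0x15772d5070b15289)) e e)))
 (c (a (nat_lit 0x116881004070c3))
 (c (a (nat_lit 0xef04fe4cc29ab68)) e
 (c (a (nat_lit 0x19176e919397eb88)) e e))
 (c (a (nat_lit 0x402022871a65))
 (c (a (nat_lit 0x90c886dab30c5e7)) e e)
 (c (b (nat_lit 0x4063bff4b786)) e
 (c z e
 (c z e
 (c (a (nat_lit 0x11bc3c2fc0aca6)) e
 (c (a (nat_lit 0x1656346b48c8c7)) e
 (c z e
 (c z e
 (c z e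
 (c (a (nat_lit 0x104fce8df6aa27)) e
 (c (a (nat_lit 0x1211704c800007)) e
 (c (a (nat_lit 0x11278000000006)) e e)))))))))))))))))
 (c (nat_lit 1)
 (c z e
 (c (a (nat_lit 0x14408300402026)) e
 (c (a (nat_lit 0x16c5e261822002)) e
 (c (b (nat_lit 0x560e0dd1fec64)) e
 (c (a (nat_lit 0x2022c487b7c5)) e
 (c z e
 (c z e
 (c z e
 (c z e
 (c z e
 (c z e
 (c z e
 (c z e
 (c (a (nat_lit 0x13b3b3b4ee8007)) e
 (c (a (nat_lit 0x16b6aca0000006)) e e)))))))))))))))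
 (c (a (nat_lit 0x6060606061))
 (c (a (nat_lit 0x395c060204003))
 (c z e
 (c (a (nat_lit 0x1413123572fa2e89)) e
 (c z e
 (c z e
 (c z e
 (c z e
 (c (a (nat_lit 0x9cb6a11a0000008)) e e)))))))
 (c (a (nat_lit 0x784c4c4c47b46))
 (c (a (nat_lit 0x108f4f71976c0a89)) e
 (c z e
 (c z e
 (c z e
 (c (a (nat_lit 0x16e84af08da00009)) e
 (c (a (nat_lit 0x12505fa000000007)) e e))))))
 (c (a (nat_lit 0x68677573aa085)) e
 (c z e
 (c z e
 (c (b (nat_lit 0x1feae721964706)) e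
 (c (a (nat_lit 0x849669bc8a686)) e
 (c z e
 (c z e
 (c z e
 (c (a (nat_lit 0x15faf64db215c5)) e
 (c (a (nat_lit 0x10eeb20f0be766)) e e))))))))))))
 (c (nat_lit 1)
 (c (a (nat_lit 0x282e2e9508006))
 (c (a (nat_lit 0xf62a4381367ab66)) e
 (c z e
 (c z e
 (c (a (nat_lit 0xbabb75a8602a007)) e
 (c (a (nat_lit 0x142c765060000007)) e
 (c (a (nat_lit 0x1ffd000000000006)) e e))))))
 (c z e
 (c (a (nat_lit 0xb2e9248e3a0c7))
 (c (a (nat_lit 0x10f44fd470254007)) e e)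
 (c (a (nat_lit 0xdb347a460b887)) e
 (c (a (nat_lit 0x10a7a64156b167)) e
 (c (a (nat_lit 0xcad08fc56cdc7)) e
 (c z e
 (c (b (nat_lit 0x1ff186c326eda7)) e
 (c (a (nat_lit 0x152a690bd55127)) e
 (c (a (nat_lit 0x3d0b917b368c7)) e
 (c (a (nat_lit 0x10b95857e62007)) e e)))))))))))
 (c (a (nat_lit 0x20000001))
 (c (a (nat_lit 0x10d064e240c0e6))
 (c (a (nat_lit 0x3696b14cf52d206)) e
 (c (a (nat_lit 0x571d04ed7470007)) e e))
 (c (a (nat_lit 0x1367e320202da6))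
 (c (a (nat_lit 0xe2cca5504000007)) e
 (c (a (nat_lit 0x1d1b7c6000000007)) e e))
 (c (a (nat_lit 0x9038240cb5ea6))
 (c (a (nat_lit 0x102ce00000000007)) e e)
 (c z e
 (c z e
 (c (a (nat_lit 0x55c080c1226)) e
 (c (a (nat_lit 0x319f54ca87a46)) e
 (c (a (nat_lit 0x1d54f5bb516926)) e e))))))))
 (c (a (nat_lit 0x2020203c65))
 (c (a (nat_lit 0xf67006054a084)) e
 (c (a (nat_lit 0x640204fc83b45)) e
 (c z e
 (c z e
 (c (a (nat_lit 0xfc759918790a5)) e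
 (c (a (nat_lit 0xa70ec254bc867)) e e))))))
 (c (a (nat_lit 0x1b88e5))
 (c (a (nat_lit 0xa08a1005b0a5)) e
 (c z e
 (c (a (nat_lit 0x14c71159525)) e
 (c z e
 (c z e
 (c z e
 (c (a (nat_lit 0x9a1f456c00006)) e
 (c (a (nat_lit 0x1992e000000005)) e e))))))))
 (c (a (nat_lit 0x1a1b6470506))
 (c (a (nat_lit 0x1620787aa7126)) e
 (c (a (nat_lit 0x2829507fef66)) e
 (c z e
 (c z e
 (c (a (nat_lit 0x15d67e6279e006)) e
 (c (a (nat_lit 0xfa87aa0000006)) e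
 (c (a (nat_lit 0x1d800000000004)) e e)))))))
 (c (a (nat_lit 0x2b9e64524e6))
 (c (a (nat_lit 0xf5698dbddaf26)) e
 (c z e
 (c z e
 (c (a (nat_lit 0x28ef168c00007)) e
 (c (a (nat_lit 0xcb0c000000007)) e e)))))
 (c (a (nat_lit 0x1a2aa6454545))
 (c (a (nat_lit 0x8c9ca55a9ea87)) e
 (c (a (nat_lit 0x7a878b5e60008)) e e))
 (c (a (nat_lit 0x1eab20802002))
 (c (a (nat_lit 0x579fb24e00007)) e e)
 (c (a (nat_lit 0x11c0e0c32a41)) e
 (c (a (nat_lit 0x787b252ce65)) e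
 (c (a (nat_lit 0x1d7474d4b445)) e
 (c (a (nat_lit 0x1031706ff003)) e
 (c (a (nat_lit 0x28080407022)) e
 (c (a (nat_lit 0x20202413e4)) e
 (c (a (nat_lit 0x4044d450e4)) e
 (c (a (nat_lit 0x688d08ec905)) e
 (c (a (nat_lit 0xa9a974baba4)) e
 (c (a (nat_lit 0x1dd740604003)) e
 (c (a (nat_lit 0x172040000003)) e e))))))))))))))))))))))) Tr.c Tr.e (nat_lit 0) C.cx C.cy
noncomputable def C398 : Tr := beta% (fun (c : Nat → Tr → Tr → Tr) (e : Tr) (z : Nat) (a b : Nat → Nat) =>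
 (c (a (nat_lit 0x60606061))
 (c (nat_lit 1)
 (c (a (nat_lit 0x1f06929c84844))
 (c z e
 (c (a (nat_lit 0x7294aca25e41006)) e
 (c z e
 (c (a (nat_lit 0x9688a6e0f0fd086)) e
 (c (a (nat_lit 0x6a9644c28a7d266)) e
 (c (a (nat_lit 0x7e7a547e6306e26)) e
 (c (a (nat_lit 0xa6d886c342eecc5)) e
 (c (a (nat_lit 0xfad6af74f8da965)) e
 (c (a (nat_lit 0xd6f9794b32770e5)) e
 (c z e
 (c (a (nat_lit 0x12aea9662b34ed25)) e e)))))))))))
 (c (a (nat_lit 0x140d8e07c7c066))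
 (c (a (nat_lit 0x9cc0d0a029a3766))
 (c z e
 (c z e
 (c z e
 (c z e
 (c (a (nat_lit 0xf508e0d09936c0008)) e e)))))
 (c z e
 (c z e
 (c z e
 (c (a (nat_lit 0xac6cbe8cf9bdda7)) e
 (c (a (nat_lit 0xfa78cd45c9d7506)) e
 (c (a (nat_lit 0x703488d6a899167)) e
 (c z e
 (c z e
 (c (a (nat_lit 0x130f0d9a4d688427)) e
 (c (a (nat_lit 0xd885dd225000007)) e e)))))))))))
 (c (b (nat_lit 0x1355f333205fe4))
 (c z e
 (c z e
 (c (a (nat_lit 0x24e040c58fb6a8)) e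
 (c (a (nat_lit 0x23008405502388)) e
 (c z e
 (c z e
 (c z e
 (c (a (nat_lit 0x452430d63a4a3a7)) e e))))))))
 (c (a (nat_lit 0x1452926d2a41a5))
 (c (a (nat_lit 0x104dd31356939087))
 (c z e
 (c (a (nat_lit 0x1253514d1500000009)) e e))
 (c (a (nat_lit 0x6e42ff592f08b88))
 (c (a (nat_lit 0x1e37ac31e000000008)) e e)
 (c z e
 (c z e
 (c z e
 (c (a (nat_lit 0xd4acad956058927)) e
 (c (a (nat_lit 0x6e79124c68049e7)) e e)))))))
 (c (a (nat_lit 0x10152b4b868665))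
 (c (a (nat_lit 0x51018569727e5c7)) e
 (c z e
 (c z e
 (c (a (nat_lit 0x10d2cbd3ce0b2fa8)) e
 (c (a (nat_lit 0x1c8cebf28cccae67)) e
 (c (a (nat_lit 0x1d725b8f7a706006)) e e))))))
 (c (a (nat_lit 0x1726c7270383a4))
 (c (a (nat_lit 0xb8bb2a8a02488c7)) e
 (c (a (nat_lit 0xd54ab22844acb27)) e
 (c (a (nat_lit 0x1106eb036609aa27)) e e)))
 (c (a (nat_lit 0x5c24160609b21))
 (c z e
 (c (a (nat_lit 0xb7a65cd6da38e26)) e e))
 (c (a (nat_lit 0x282424485d404)) e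
 (c (a (nat_lit 0x9494db11c1344)) e
 (c (a (nat_lit 0x4accb4914205)) e
 (c (a (nat_lit 0x768118e602045)) e
 (c (a (nat_lit 0x8f28fa9c4a005)) e
 (c (a (nat_lit 0x18956fd00d0965)) e
 (c (a (nat_lit 0x1537d8770d8905)) e
 (c (a (nat_lit 0xbcbce2c6c9226)) e
 (c (a (nat_lit 0x1014f131bcf705)) e
 (c (a (nat_lit 0x17b4149fcce005)) e
 (c (a (nat_lit 0x19fa72e0000005)) e
 (c (a (nat_lit 0x1e400000000003)) e e)))))))))))))))))))
 C397)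
 (c (a (nat_lit 0x40404001))
 (c (a (nat_lit 0x406001))
 (c (a (nat_lit 0x1a5a1a0a646445))
 (c (a (nat_lit 0x106e77575735b2c6))
 (c z e
 (c z e
 (c (a (nat_lit 0x403c3a225c2417268)) e
 (c (a (nat_lit 0xc8b0a484c702c8009)) e e))))
 (c z e
 (c z e
 (c (a (nat_lit 0x136f9a383e1e1688)) e
 (c (a (nat_lit 0x6a5efd93bb791c7)) e
 (c (a (nat_lit 0xdb2f1d74bd190a6)) e
 (c z e
 (c z e
 (c (a (nat_lit 0xa28e7a5d0524bc7)) e
 (c (a (nat_lit 0x14f7e17a12c00006)) e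
 (c (a (nat_lit 0x175927e000000006)) e e)))))))))))
 (c z e
 (c (a (nat_lit 0x16a042e0402026)) e
 (c (a (nat_lit 0x1604c3e3446a02))
 (c z e
 (c z e
 (c (a (nat_lit 0x10c9ec4c2e13ed89)) e e)))
 (c (a (nat_lit 0x420404e725ee4))
 (c (a (nat_lit 0x181d0b4eaa56e027)) e
 (c (a (nat_lit 0x13276cabf60aa648)) e e))
 (c (a (nat_lit 0x218632bfc5)) e
 (c z e
 (c z e
 (c (a (nat_lit 0x90f524e01c767)) e
 (c (a (nat_lit 0x1419d661ad6d06)) e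
 (c (a (nat_lit 0x13d2134c4a0407)) e
 (c z e
 (c z e
 (c (a (nat_lit 0x1a5c18139db6c6)) e
 (c (a (nat_lit 0x10cde87265c006)) e
 (c (a (nat_lit 0x13eeabe0000006)) e
 (c (a (nat_lit 0x15600000000003)) e e)))))))))))))))))
 (c (a (nat_lit 0x2020404001))
 (c (a (nat_lit 0x18a02060202026))
 (c (a (nat_lit 0x158bad2aad2e91c8))
 (c (a (nat_lit 0x9ca064c828e7704e8)) e
 (c (a (nat_lit 0xd0c72abd5f5e00009)) e e))
 (c (a (nat_lit 0x10b2ce9232790d49))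
 (c (a (nat_lit 0x1416b83cd180000009)) e e) e))
 (c (a (nat_lit 0x296a0c06106e4))
 (c (a (nat_lit 0xe4b6bedf2ea4a29))
 (c (a (nat_lit 0x1419fbeb8000000008)) e e) e)
 (c (a (nat_lit 0x8c8686a0a9b86)) e
 (c z e
 (c z e
 (c z e
 (c z e
 (c z e
 (c z e
 (c z e
 (c z e
 (c z e
 (c (a (nat_lit 0xc504a94a76747)) e
 (c (a (nat_lit 0x11e68040400006)) e
 (c (a (nat_lit 0x19204000000004)) e e)))))))))))))))
 (c (a (nat_lit 0x6080808041))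
 (c (a (nat_lit 0xac0202021d5e5))
 (c (a (nat_lit 0x12f22e543619cf07)) e e)
 (c z e
 (c z e
 (c z e
 (c z e
 (c z e
 (c z e
 (c z e
 (c z e
 (c z e
 (c z e
 (c (a (nat_lit 0x16161cdda72006)) e
 (c (a (nat_lit 0xf152020000006)) e e)))))))))))))
 (c (a (nat_lit 0x406001))
 (c z e
 (c z e
 (c (a (nat_lit 0xdb3702de032e8))
 (c (a (nat_lit 0x1af9940cc7a00008)) e e)
 (c z e
 (c z e
 (c z e
 (c z e
 (c (b (nat_lit 0xf64ffe3518fe8)) e e))))))))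
 (c (a (nat_lit 0x20202030c7))
 (c (a (nat_lit 0x146ce746004526))
 (c (a (nat_lit 0x70d02ec9171a747)) e
 (c (a (nat_lit 0x10662a3589800008)) e e))
 (c (a (nat_lit 0xeec8b04845367))
 (c (a (nat_lit 0xb27d185c0000008)) e e)
 (c z e
 (c z e
 (c z e
 (c (a (nat_lit 0x80e8ca8b0cde8)) e
 (c (a (nat_lit 0x8ebe933963227)) e e)))))))
 (c (a (nat_lit 0x20203a8a46))
 (c (a (nat_lit 0x162e84aa605ea5)) e
 (c z e
 (c z e
 (c (a (nat_lit 0x64af06348c7)) e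
 (c (b (nat_lit 0x1fe9f567c57247)) e
 (c (a (nat_lit 0xa8c47cc45b5a8)) e e))))))
 (c (a (nat_lit 0x120b2887)) e
 (c z e
 (c (a (nat_lit 0x1c2c6a84c4c7))
 (c z e
 (c z e
 (c (a (nat_lit 0x748502c836009)) e e)))
 (c (a (nat_lit 0x126b48282005))
 (c (a (nat_lit 0x72c568081a368)) e
 (c (a (nat_lit 0x9766e46400009)) e e))
 (c (a (nat_lit 0x1933f3eaec05))
 (c (a (nat_lit 0x15b58480000008)) e e)
 (c z e
 (c z e
 (c (a (nat_lit 0x125292927266)) e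
 (c (a (nat_lit 0x1c0e060b302)) e
 (c (a (nat_lit 0x2020229865)) e
 (c (a (nat_lit 0x42787905)) e
 (c (a (nat_lit 0x3616d905)) e
 (c z e
 (c (a (nat_lit 0x1414f7402025)) e
 (c (a (nat_lit 0x14d740200005)) e
 (c (a (nat_lit 0x174000000005)) e e))))))))))))))))))))))
 C396))) Tr.c Tr.e (nat_lit 0) C.cx C.cy
noncomputable def C399 : Tr := beta% (fun (c : Nat → Tr → Tr → Tr) (e : Tr) (z : Nat) (a b : Nat → Nat) =>
 (c (a (nat_lit 0x40404041))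
 (c (a (nat_lit 0x20314627))
 (c (a (nat_lit 0x441a1a6e7f405))
 (c (a (nat_lit 0x15e625a54fc6c026)) e
 (c (a (nat_lit 0x72e2d34778241e6)) e e))
 (c z e
 (c z e
 (c (a (nat_lit 0x1271b0af676847)) e
 (c (a (nat_lit 0x1f98d2b40c7d06)) e
 (c (a (nat_lit 0xaa7e72b4a79a6)) e
 (c z e
 (c z e
 (c (a (nat_lit 0x1235f199afd887)) e
 (c (a (nat_lit 0x10ce7a51400007)) e
 (c (a (nat_lit 0x106f6000000006)) e e)))))))))))
 (c (a (nat_lit 0x20358502c8)) e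
 (c z e
 (c (a (nat_lit 0x104aa88686a8))
 (c z e
 (c z e
 (c (a (nat_lit 0xb286d904bd748)) e e)))
 (c (a (nat_lit 0x1cd5f5553806))
 (c (a (nat_lit 0x5660665203008)) e
 (c (a (nat_lit 0x7993a3551bd47)) e e))
 (c (a (nat_lit 0xbc2227b8583))
 (c (a (nat_lit 0xeb1868b710d47)) e e)
 (c z e
 (c z e
 (c (a (nat_lit 0x160140c04de3)) e
 (c (a (nat_lit 0x604df15fa5)) e
 (c (a (nat_lit 0x415e1d84)) e
 (c (a (nat_lit 0x18104eee4dc4)) e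
 (c (b (nat_lit 0xf033fe0a001)) e
 (c (a (nat_lit 0x540a1028021)) e
 (c (a (nat_lit 0x8381a001)) e
 (c (b (nat_lit 0x13b494535fe3)) e e))))))))))))))))
 (c (a (nat_lit 0x40404041))
 (c (b (nat_lit 0xb6c0ffe207)) e
 (c (b (nat_lit 0x13a39fe0e0e7))
 (c (a (nat_lit 0x3896ee26c2e6)) e
 (c (a (nat_lit 0xd5ad6eba6a427)) e
 (c z e
 (c z e
 (c z e
 (c (a (nat_lit 0x66dbc9d66e008)) e e))))))
 (c (a (nat_lit 0xf2e2b0b1186))
 (c (a (nat_lit 0x19fe79b46e7f46)) e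
 (c z e
 (c z e
 (c z e
 (c (a (nat_lit 0xbd81d6ba00008)) e e)))))
 (c (a (nat_lit 0x120cacbaf4a5)) e
 (c (a (nat_lit 0xccf50909027))
 (c (a (nat_lit 0x19d3dd30b0eae7)) e e)
 (c z e
 (c (a (nat_lit 0x1edc19f9d9c6)) e
 (c (a (nat_lit 0x12b1b5354f47)) e
 (c (a (nat_lit 0x145f1b793527)) e
 (c z e
 (c (a (nat_lit 0x1885a0404004)) e
 (c (a (nat_lit 0x16c160a081c2)) e
 (c (a (nat_lit 0x20204073e4)) e
 (c (a (nat_lit 0x20251046)) e e))))))))))))))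
 (c (a (nat_lit 0x60606061))
 (c (a (nat_lit 0x17c700405044))
 (c (a (nat_lit 0x15513087876765)) e
 (c (a (nat_lit 0x8494625c63167)) e
 (c z e
 (c z e
 (c (a (nat_lit 0x8eb1c3520c747)) e
 (c (b (nat_lit 0x6debfe2800007)) e e))))))
 (c (a (nat_lit 0x5604050cec5))
 (c (a (nat_lit 0x6642445b08687)) e
 (c z e
 (c z e
 (c (a (nat_lit 0x8ffeb82e62008)) e
 (c (a (nat_lit 0x1188a2e0000008)) e e)))))
 (c z e
 (c z e
 (c (a (nat_lit 0x1eb5d5b45103)) e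
 (c (a (nat_lit 0xf4f3917ee86)) e
 (c (a (nat_lit 0xd8e10aeeba7)) e
 (c z e
 (c (b (nat_lit 0x14bfe4e0e002)) e
 (c (a (nat_lit 0x19b3ae18a62)) e
 (c (a (nat_lit 0x2062f0e4)) e
 (c (a (nat_lit 0xb4b6cb39225)) e
 (c z e
 (c (b (nat_lit 0x1ff120400003)) e
 (c (a (nat_lit 0x110000000003)) e e)))))))))))))))
 (c (nat_lit 1)
 (c (a (nat_lit 0x40514bc5a4))
 (c (a (nat_lit 0x6a68835d06865)) e
 (c z e
 (c z e
 (c (a (nat_lit 0x1663e2a2e00008)) e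
 (c (a (nat_lit 0x16466000000006)) e e)))))
 (c z e
 (c (a (nat_lit 0x1c7b1a9a39e5))
 (c (a (nat_lit 0x16aea884e00007)) e e)
 (c (a (nat_lit 0x928f0d0cd06)) e
 (c (a (nat_lit 0x137d3d34f0a6)) e
 (c z e
 (c (a (nat_lit 0x19d536f6b605)) e
 (c (a (nat_lit 0x15df5dc08b42)) e
 (c (a (nat_lit 0x261810678c3)) e
 (c (a (nat_lit 0x241e7369303)) e
 (c z e
 (c (b (nat_lit 0x1ff164e06001)) e
 (c (a (nat_lit 0x15c460000001)) e e)))))))))))))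
 (c (nat_lit 1)
 (c (a (nat_lit 0x1f33b352a663))
 (c (a (nat_lit 0x31587c6c38187)) e
 (c (a (nat_lit 0x11cd77c6000007)) e e))
 (c (a (nat_lit 0x9e9d0b04c86))
 (c (a (nat_lit 0xbb544c0000007)) e e)
 (c (a (nat_lit 0x12fa9a75d6e6)) e
 (c z e
 (c (a (nat_lit 0x13ef51d191a5)) e
 (c (a (nat_lit 0x1311027042)) e
 (c (a (nat_lit 0x1a0a0c87543)) e
 (c (a (nat_lit 0x36bcaf83403)) e
 (c z e
 (c (b (nat_lit 0x1fefc1820001)) e
 (c (a (nat_lit 0x172885000001)) e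
 (c (a (nat_lit 0x32000000001)) e e))))))))))))
 (c (a (nat_lit 0x402001))
 (c (a (nat_lit 0xd197bd69725))
 (c (a (nat_lit 0x14a86000000004)) e e)
 (c z e
 (c (a (nat_lit 0x16531711b146)) e
 (c (a (nat_lit 0x80c3a597526)) e
 (c (a (nat_lit 0x14d4f510c446)) e
 (c (a (nat_lit 0xc29c990c125)) e
 (c z e
 (c (a (nat_lit 0x9d0e1404d45)) e
 (c (a (nat_lit 0x120240402005)) e
 (c (a (nat_lit 0x40e0000001)) e e))))))))))
 (c (a (nat_lit 0x60606061))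
 (c (a (nat_lit 0x1c595d2fd025)) e
 (c (a (nat_lit 0xcf0d0d0e226)) e
 (c (b (nat_lit 0x1232745fe1c6)) e
 (c z e
 (c z e
 (c (a (nat_lit 0xa112e20a025)) e
 (c (a (nat_lit 0x10edc0604d25)) e
 (c (a (nat_lit 0xe2080a00001)) e
 (c (a (nat_lit 0xc000000001)) e e)))))))))
 (c (a (nat_lit 0x20202001))
 (c (a (nat_lit 0x1c7c7ce08325)) e
 (c z e
 (c z e
 (c (b (nat_lit 0x1ff08ba1a004)) e
 (c (a (nat_lit 0x10cbe1c0ddc4)) e
 (c (a (nat_lit 0x2101e0c001)) e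
 (c (a (nat_lit 0x6100000001)) e e)))))))
 (c (a (nat_lit 0x20202021))
 (c z e
 (c (b (nat_lit 0x1ff6abe0a003)) e
 (c (a (nat_lit 0xbe6e0805e44)) e
 (c (a (nat_lit 0x2a160806021)) e
 (c (a (nat_lit 0xc0000001)) e
 (c (a (nat_lit 0xa000000001)) e e))))))
 (c (a (nat_lit 0x40404041))
 (c (a (nat_lit 0x3620040b085)) e
 (c (a (nat_lit 0xc120a42001)) e
 (c (a (nat_lit 0x2a1e1204001)) e
 (c (a (nat_lit 0x220e0000001)) e e))))
 (c (a (nat_lit 0x80808081))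
 (c (a (nat_lit 0x940c080c041)) e
 (c (a (nat_lit 0x18120a00001)) e
 (c (a (nat_lit 0x8000000001)) e e)))
 (c (a (nat_lit 0x80606081))
 (c (a (nat_lit 0xa040000001)) e e)
 (c (a (nat_lit 0x40404041)) e
 (c (a (nat_lit 0x202031a5)) e
 (c (a (nat_lit 0x12132d3e5)) e
 (c (a (nat_lit 0x494f74805)) e
 (c (a (nat_lit 0x1799eaa725)) e
 (c (a (nat_lit 0x12c3a02025)) e
 (c (a (nat_lit 0x1c20604162)) e
 (c (a (nat_lit 0x20428741)) e
 (c (a (nat_lit 0x2227c0e1)) e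
 (c z e
 (c (a (nat_lit 0x5a2816101)) e
 (c (a (nat_lit 0x140600001)) e e))))))))))))))))))))))))) Tr.c Tr.e (nat_lit 0) C.cx C.cy
noncomputable def C400 : Tr := beta% (fun (c : Nat → Tr → Tr → Tr) (e : Tr) (z : Nat) (a b : Nat → Nat) =>
 (c (a (nat_lit 0x20202021))
 (c (a (nat_lit 0x2020202021))
 (c (a (nat_lit 0x154040a0606064))
 (c (a (nat_lit 0x1272d2905afa7526)) e
 (c (a (nat_lit 0xc4c098fd3af7148)) e
 (c z e
 (c (a (nat_lit 0x2ff50271aa8d27)) e e))))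
 (c (a (nat_lit 0x22e0202050e6))
 (c (a (nat_lit 0x13d0d4fe7afc9a08))
 (c (a (nat_lit 0x177a348de000000008)) e e)
 (c z e
 (c z e
 (c z e
 (c (b (nat_lit 0x9940a282681ffe9)) e e)))))
 (c (a (nat_lit 0x402080926aa6)) e
 (c z e
 (c z e
 (c (a (nat_lit 0x5b5548d4f2726))
 (c (a (nat_lit 0xeb0e525a0000007)) e e)
 (c z e
 (c z e
 (c z e
 (c (a (nat_lit 0x144f8d0a107067)) e
 (c z e
 (c z e
 (c (a (nat_lit 0xeeef0b7f78927)) e
 (c (a (nat_lit 0x1415bd4e600007)) e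
 (c (a (nat_lit 0x162ee000000007)) e e)))))))))))))))
 (c (a (nat_lit 0x4040404041))
 (c (a (nat_lit 0xb40a0c2be1545))
 (c (a (nat_lit 0xc6cb333f4512ae8)) e
 (c z e
 (c z e
 (c (a (nat_lit 0xe15d1c822c601a9)) e
 (c (a (nat_lit 0x15ab05e4e220e169)) e e)))))
 (c z e
 (c z e
 (c (a (nat_lit 0xcf4f3eb4cab67))
 (c z e
 (c (a (nat_lit 0x1aadd28d40000008)) e e))
 (c (a (nat_lit 0x1c974dd1b580c6))
 (c (a (nat_lit 0x126fa8e000000007)) e e)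
 (c z e
 (c z e
 (c z e
 (c (a (nat_lit 0xc50342d4d6da8)) e
 (c z e
 (c z e
 (c (a (nat_lit 0xece2f172a0008)) e
 (c (a (nat_lit 0x11524d40000008)) e
 (c (a (nat_lit 0x14600000000006)) e e))))))))))))))
 (c (a (nat_lit 0x4040404041))
 (c z e
 (c z e
 (c z e
 (c z e
 (c z e
 (c z e
 (c z e
 (c z e
 (c z e
 (c z e
 (c (a (nat_lit 0x1edb1b3ae00007)) e e)))))))))))
 (c (a (nat_lit 0x2020203247)) e
 (c (a (nat_lit 0x20203d8a46))
 (c z e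
 (c (a (nat_lit 0x686856365f1e8)) e
 (c z e
 (c z e
 (c z e
 (c (a (nat_lit 0x6e6e30a2114e8)) e e))))))
 (c (a (nat_lit 0x40552d0a67))
 (c (b (nat_lit 0x360c3dff384a7)) e
 (c z e
 (c z e
 (c z e
 (c (a (nat_lit 0xc89e883f195e8)) e e)))))
 (c (a (nat_lit 0x1a4d6ac487)) e
 (c (a (nat_lit 0x1a89c8016087)) e
 (c (a (nat_lit 0x13ab0783c405)) e
 (c (b (nat_lit 0x15c0607fe403))
 (c (a (nat_lit 0x18332320000007)) e e)
 (c z e
 (c z e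
 (c (b (nat_lit 0x1fe682218001)) e
 (c (a (nat_lit 0x8040203545)) e
 (c (a (nat_lit 0x20352d45)) e
 (c (a (nat_lit 0x98994302ba6)) e
 (c (b (nat_lit 0x1ff149a0a505)) e
 (c (a (nat_lit 0x1149a0a50005)) e
 (c (a (nat_lit 0x1260894d6004)) e e)))))))))))))))))))
 (c (nat_lit 1)
 (c (a (nat_lit 0x2020202021))
 (c (a (nat_lit 0x1e272bd7bd563))
 (c (a (nat_lit 0x92e5291aec288e6)) e
 (c (a (nat_lit 0xafc927320644ee7)) e
 (c z e
 (c (a (nat_lit 0x18d982c60ac6c9a7)) e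
 (c (a (nat_lit 0x15258ae74823a007)) e e)))))
 (c z e
 (c (b (nat_lit 0x4e924869ff785)) e
 (c (a (nat_lit 0xd4c6d65d44946))
 (c (a (nat_lit 0x72dd15965200006)) e
 (c (a (nat_lit 0x14b96de000000007)) e e))
 (c (a (nat_lit 0xc4d49f3a8c426))
 (c (a (nat_lit 0x1d67a00000000006)) e e)
 (c z e
 (c (a (nat_lit 0xab2ca21020b06)) e
 (c (a (nat_lit 0xb218223685226)) e
 (c (a (nat_lit 0xa704db10d9287)) e
 (c z e
 (c (a (nat_lit 0xb4cf2985c5087)) e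
 (c (a (nat_lit 0x1212172dc00007)) e
 (c (a (nat_lit 0x1b92e000000006)) e e)))))))))))))
 (c (a (nat_lit 0x2020203ba7))
 (c (a (nat_lit 0x9cdaace4c5b26))
 (c (a (nat_lit 0x16fc2ae38ff8a587)) e e)
 (c z e
 (c z e
 (c z e
 (c (a (nat_lit 0x818ea00409207)) e
 (c (a (nat_lit 0x10690684ac8788)) e
 (c z e
 (c z e
 (c z e
 (c (a (nat_lit 0x4eb28f8292008)) e
 (c (a (nat_lit 0x1451cfe0000008)) e
 (c (a (nat_lit 0x1f200000000004)) e e))))))))))))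
 (c (a (nat_lit 0x20203b6607)) e
 (c (a (nat_lit 0xc0d0086447))
 (c z e
 (c (a (nat_lit 0x16b5658c9773e6)) e
 (c z e
 (c z e
 (c z e
 (c (a (nat_lit 0x7254b651fb6c8)) e e))))))
 (c (a (nat_lit 0x634ae8a2927))
 (c (a (nat_lit 0xa2c82b4968be6)) e
 (c z e
 (c z e
 (c (a (nat_lit 0x7c8258b342c49)) e
 (c (a (nat_lit 0xbc9c71234c649)) e e)))))
 (c (a (nat_lit 0x17ac48276767))
 (c (a (nat_lit 0x153a782cf0b606)) e
 (c (a (nat_lit 0xa2f0e6ffd2967)) e e))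
 (c (a (nat_lit 0x19ec88686865))
 (c (a (nat_lit 0x7c8ab3308c248)) e e)
 (c (a (nat_lit 0x1b15d5d5f145))
 (c z e
 (c (a (nat_lit 0x138f0500000009)) e e))
 (c (a (nat_lit 0x11d1d2b51247))
 (c (a (nat_lit 0x17242000000008)) e e)
 (c z e
 (c (a (nat_lit 0x141d32b2b465)) e
 (c (a (nat_lit 0x156040213364)) e
 (c (a (nat_lit 0x2041339be4)) e
 (c (a (nat_lit 0x10331b9524)) e
 (c (a (nat_lit 0xf225a583)) e
 (c (b (nat_lit 0x1ffb01c1d122)) e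
 (c (a (nat_lit 0x19a080901ca2)) e
 (c (a (nat_lit 0xcecd4ad8003)) e e))))))))))))))))))
 C399))) Tr.c Tr.e (nat_lit 0) C.cx C.cy
noncomputable def C401 : Tr := beta% (fun (c : Nat → Tr → Tr → Tr) (e : Tr) (z : Nat) (a b : Nat → Nat) =>
 (c (a (nat_lit 0x4040604001))
 (c (a (nat_lit 0x11cd6d65a5a0a8))
 (c (a (nat_lit 0x60729e98d533307))
 (c z e
 (c z e
 (c z e
 (c z e
 (c (a (nat_lit 0x1b1edc383a1b9a6008)) e e)))))
 (c z e
 (c z e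
 (c z e
 (c (a (nat_lit 0xb080b0be893f4a9)) e
 (c (a (nat_lit 0x120cb0114c8e19c7)) e
 (c z e
 (c z e
 (c z e
 (c z e
 (c (a (nat_lit 0x115fd75460800007)) e e)))))))))))
 (c (b (nat_lit 0x4a5a220513fe6))
 (c z e
 (c z e
 (c z e
 (c z e
 (c z e
 (c (b (nat_lit 0x61a5dfea7967a9)) e e))))))
 (c z e
 (c z e
 (c (a (nat_lit 0x1bb151b18f0e67))
 (c z e
 (c (a (nat_lit 0x19b7562eb9f417e9)) e e))
 (c (a (nat_lit 0x2c24242e07b26))
 (c (a (nat_lit 0x1075f197df9c5147)) e e)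
 (c z e
 (c z e
 (c z e
 (c z e
 (c (a (nat_lit 0x10b27010cba528)) e
 (c z e
 (c z e
 (c z e
 (c z e
 (c (a (nat_lit 0x1592f0f0688007)) e
 (c (a (nat_lit 0x12912820000007)) e
 (c (a (nat_lit 0x12400000000006)) e e))))))))))))))))))
 (c (a (nat_lit 0x20200001))
 (c (a (nat_lit 0x1654b72808a446)) e
 (c z e
 (c (a (nat_lit 0x1ba26340602066)) e
 (c (a (nat_lit 0xe2c09f08f3b86)) e
 (c (a (nat_lit 0x808161b4ce66)) e e)))))
 (c (a (nat_lit 0x4040404041))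
 (c (a (nat_lit 0x1460e580402066))
 (c z e
 (c z e
 (c z e
 (c z e
 (c (a (nat_lit 0x1c8b76be5640589)) e e)))))
 (c (a (nat_lit 0x42640e0c39566))
 (c (a (nat_lit 0x847860a2b91a76a)) e
 (c z e
 (c z e
 (c z e
 (c (a (nat_lit 0x1312698b0cea200a)) e
 (c (a (nat_lit 0x19918fb0a0000009)) e e))))))
 (c (a (nat_lit 0x146d53fa5d19a6)) e
 (c z e
 (c z e
 (c (a (nat_lit 0x15056e7255886)) e
 (c (a (nat_lit 0x86dea87104887)) e
 (c z e
 (c z e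
 (c z e
 (c (a (nat_lit 0x126dd1ac25a027)) e
 (c (a (nat_lit 0x177dbd9fcfda86)) e e))))))))))))
 (c (a (nat_lit 0x20202001))
 (c (a (nat_lit 0x4040412cb026))
 (c (a (nat_lit 0xc61c5ee163207e7)) e
 (c z e
 (c z e
 (c (a (nat_lit 0x1a74d75537cbc768)) e
 (c (a (nat_lit 0x1754d7b44c600008)) e
 (c (a (nat_lit 0x11af6ca000000008)) e e))))))
 (c z e
 (c z e
 (c (a (nat_lit 0x1037d5c5a06067)) e
 (c (a (nat_lit 0x1475210021b5a7)) e
 (c (a (nat_lit 0x16832806d91ea7)) e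
 (c z e
 (c z e
 (c (a (nat_lit 0x63aff5decece7)) e
 (c (a (nat_lit 0xff757d3cb6907)) e
 (c (a (nat_lit 0xeaf92d0e90027)) e e)))))))))))
 (c (a (nat_lit 0x4040402001))
 (c z e
 (c (a (nat_lit 0xff248c0602087))
 (c (a (nat_lit 0xb70f0a54e038008)) e
 (c (a (nat_lit 0x1532aaeb80000009)) e e))
 (c (a (nat_lit 0x11e8e0202081c7))
 (c (a (nat_lit 0x1710ca8000000008)) e e)
 (c z e
 (c z e
 (c z e
 (c (a (nat_lit 0x386d26c01f508)) e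
 (c (a (nat_lit 0x8f3f388170528)) e e))))))))
 (c (a (nat_lit 0x6060604021))
 (c (a (nat_lit 0x15d0c0a0410685))
 (c z e
 (c (a (nat_lit 0x1b8f712000000006)) e e))
 (c (a (nat_lit 0x1140602128a546)) e
 (c z e
 (c z e
 (c z e
 (c (a (nat_lit 0x13bdbe7340b887)) e e))))))
 (c (a (nat_lit 0x2020203e66))
 (c (a (nat_lit 0xb2aed73fec5c4)) e
 (c z e
 (c (a (nat_lit 0x46bc652d95fe6)) e
 (c z e
 (c z e
 (c z e
 (c (a (nat_lit 0xccc4d0b750008)) e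
 (c (a (nat_lit 0x4b782e0000006)) e e))))))))
 (c (a (nat_lit 0x2020360607))
 (c (a (nat_lit 0x2a1e2a3e11066)) e
 (c (a (nat_lit 0x2a225266a1148)) e
 (c z e
 (c z e
 (c (a (nat_lit 0x80e5591056ec7)) e
 (c (a (nat_lit 0xacee855c00008)) e
 (c (a (nat_lit 0x10802000000007)) e e)))))))
 (c (a (nat_lit 0x2223a0724e7))
 (c (a (nat_lit 0x9eb945396f767)) e
 (c z e
 (c z e
 (c (b (nat_lit 0x1fe36cfd878008)) e
 (c (a (nat_lit 0x110c5a80000008)) e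
 (c (a (nat_lit 0x10200000000006)) e e))))))
 (c (a (nat_lit 0x1d4ce68426)) e
 (c (a (nat_lit 0x100923a1e1e7))
 (c (a (nat_lit 0x7c67594850008)) e e)
 (c (a (nat_lit 0x174620604184)) e
 (c (a (nat_lit 0xa40acf5b303)) e
 (c (a (nat_lit 0x1b3b47e9c884)) e
 (c z e
 (c (a (nat_lit 0x1235d3b31a03)) e
 (c (a (nat_lit 0x1204043bf84)) e
 (c (a (nat_lit 0x216f9645)) e
 (c (a (nat_lit 0x525ecf043a6)) e
 (c z e
 (c (a (nat_lit 0x111940404025)) e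
 (c (a (nat_lit 0x196020200005)) e
 (c (a (nat_lit 0x2000000001)) e e)))))))))))))))))))))))) Tr.c Tr.e (nat_lit 0) C.cx C.cy
noncomputable def C402 : Tr := beta% (fun (c : Nat → Tr → Tr → Tr) (e : Tr) (z : Nat) (a b : Nat → Nat) =>
 (c (a (nat_lit 0x40402021))
 (c (a (nat_lit 0x2040200001))
 (c (a (nat_lit 0x3c3d36c0c4a06))
 (c (a (nat_lit 0xaaad98f93866004))
 (c z e
 (c z e
 (c z e
 (c z e
 (c (a (nat_lit 0x198c2ad1ab4dca85a7)) e e)))))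
 (c z e
 (c z e
 (c (a (nat_lit 0x1e7680f0e32d467))
 (c (a (nat_lit 0x122f8c0992d102c868)) e
 (c (a (nat_lit 0x16cb29694aac67c369)) e e))
 (c (a (nat_lit 0xb06cb8590f31347))
 (c (a (nat_lit 0xc0c0784b12b2204e8)) e e)
 (c z e
 (c z e
 (c (a (nat_lit 0x70906a471c824c7)) e
 (c (a (nat_lit 0xe0b0e37714d20c7)) e
 (c (a (nat_lit 0x92c998f8c65b0e7)) e
 (c z e
 (c z e
 (c (a (nat_lit 0x1aa0459825e00006)) e
 (c (a (nat_lit 0x74032e000000007)) e e))))))))))))))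
 (c (a (nat_lit 0x150ababc62628))
 (c (a (nat_lit 0x1a667c8846a1068))
 (c (a (nat_lit 0x10d092ce2a88852908)) e
 (c z e
 (c z e
 (c z e
 (c z e
 (c (a (nat_lit 0x150bef292686000007)) e e))))))
 (c z e
 (c z e
 (c z e
 (c z e
 (c (a (nat_lit 0x19bb38167e3ebb47)) e
 (c z e
 (c z e
 (c z e
 (c z e
 (c (a (nat_lit 0x144bebd371822008)) e e)))))))))))
 (c (a (nat_lit 0x17cdae69088107)) e
 (c (b (nat_lit 0x1a19f2d2dfffe5))
 (c z e
 (c (b (nat_lit 0x1fffe56791d88f88))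
 (c (a (nat_lit 0x1517d2299080000008)) e e)
 (c z e
 (c z e
 (c z e
 (c (a (nat_lit 0x66403e3532b6709)) e
 (c (b (nat_lit 0x142249563477fe8)) e e)))))))
 (c (a (nat_lit 0x13b05567e70166))
 (c (a (nat_lit 0x5091217344e8528)) e
 (c z e
 (c z e
 (c (a (nat_lit 0xf0dcc4633caa8a9)) e
 (c (a (nat_lit 0x11d461fb30cd6d68)) e
 (c (a (nat_lit 0x1d0c6e51e7ce8b47)) e e))))))
 (c z e
 (c (a (nat_lit 0x154dedadad6ce6))
 (c (a (nat_lit 0x1436acbc1cbf31a6)) e e)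
 (c (a (nat_lit 0xa0a040e11345))
 (c z e
 (c z e
 (c (a (nat_lit 0x13f5eb8f20000007)) e e)))
 (c (a (nat_lit 0x2c2c3250e9086))
 (c (a (nat_lit 0x11a9e58382000008)) e
 (c (a (nat_lit 0x1c336e4000000007)) e e))
 (c (a (nat_lit 0x306319b7f8dc6))
 (c (a (nat_lit 0x1c34800000000006)) e e)
 (c z e
 (c (a (nat_lit 0xb4c7067256767)) e
 (c (a (nat_lit 0xe120f69316347)) e
 (c (a (nat_lit 0x1cd75d9df3e766)) e
 (c (a (nat_lit 0xe3676fe72d445)) e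
 (c z e
 (c (a (nat_lit 0xe0fed0d7707a7)) e
 (c (a (nat_lit 0x17d4f54f800007)) e
 (c (a (nat_lit 0x166ba000000006)) e e)))))))))))))))))))
 C401)
 (c (a (nat_lit 0x20202021))
 (c (a (nat_lit 0x2020202021))
 (c (b (nat_lit 0x12319110e87fe5))
 (c (a (nat_lit 0x9cc2bb111b57046)) e
 (c z e
 (c z e
 (c z e
 (c (a (nat_lit 0x1a2634223314a28)) e
 (c (a (nat_lit 0xccdaf23bcdba065)) e
 (c z e
 (c z e
 (c z e
 (c (a (nat_lit 0x316a82e8852006)) e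
 (c (a (nat_lit 0x17f8d78840000005)) e e)))))))))))
 (c z e
 (c z e
 (c (a (nat_lit 0x1bc26320404005)) e
 (c (a (nat_lit 0x7c6a5c90834a6))
 (c z e
 (c (a (nat_lit 0x1fb514f733d89768)) e e))
 (c (a (nat_lit 0x222228111a626))
 (c (a (nat_lit 0xbce8acdf5686fa7)) e e)
 (c z e
 (c z e
 (c z e
 (c (a (nat_lit 0xd49ed10258347)) e
 (c (a (nat_lit 0xff3162f0a6647)) e
 (c z e
 (c z e
 (c z e
 (c (a (nat_lit 0x1b7833362a6505)) e
 (c (a (nat_lit 0x18d3eee5800005)) e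
 (c (a (nat_lit 0x17a98000000005)) e e)))))))))))))))))
 (c (a (nat_lit 0x4040404041))
 (c z e
 (c z e
 (c (a (nat_lit 0x3628262827447)) e
 (c z e
 (c z e
 (c z e
 (c z e
 (c z e
 (c z e
 (c z e
 (c z e
 (c z e
 (c z e
 (c (a (nat_lit 0xb35170be30006)) e
 (c (a (nat_lit 0x1b3d2900000006)) e
 (c (a (nat_lit 0x14200000000006)) e e))))))))))))))))
 (c (a (nat_lit 0x4040404041))
 (c (a (nat_lit 0xc56020207026)) e
 (c (a (nat_lit 0x2c0202091a567)) e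
 (c z e
 (c z e
 (c z e
 (c z e
 (c z e
 (c z e
 (c z e
 (c z e
 (c z e
 (c z e
 (c (a (nat_lit 0x10527200200006)) e e)))))))))))))
 (c (a (nat_lit 0x4040404041)) e
 (c (a (nat_lit 0x20202021))
 (c z e
 (c (a (nat_lit 0x17923194096107))
 (c (a (nat_lit 0x1714e82ea8000008)) e e)
 (c z e
 (c z e
 (c z e
 (c z e
 (c (a (nat_lit 0x1a7f0e3074aa8)) e e)))))))
 (c (a (nat_lit 0x20203d66))
 (c (a (nat_lit 0xf3192a867c886)) e
 (c z e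
 (c z e
 (c z e
 (c (a (nat_lit 0xc265b124bc947)) e
 (c (a (nat_lit 0x99b1020ea1167)) e e))))))
 (c (a (nat_lit 0x20203c8d66)) e
 (c (a (nat_lit 0x203c2eab07)) e
 (c (a (nat_lit 0x5e8cea2287)) e
 (c (a (nat_lit 0x120c48a0a0a7))
 (c z e
 (c (a (nat_lit 0x4caf127042009)) e e))
 (c (a (nat_lit 0x10e5a0202145))
 (c (a (nat_lit 0xa592a64200007)) e e)
 (c (a (nat_lit 0x1240e08506c3)) e
 (c z e
 (c z e
 (c (b (nat_lit 0x1fe5e2418181)) e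
 (c (a (nat_lit 0x6020203d85)) e
 (c (a (nat_lit 0x4080bdd225)) e
 (c (a (nat_lit 0x666750f4f46)) e
 (c z e
 (c z e
 (c (a (nat_lit 0xb2b56402006)) e e)))))))))))))))))))))
 C400))) Tr.c Tr.e (nat_lit 0) C.cx C.cy
noncomputable def C403 : Tr := beta% (fun (c : Nat → Tr → Tr → Tr) (e : Tr) (z : Nat) (a b : Nat → Nat) =>
 (c (a (nat_lit 0x2020202021))
 (c (a (nat_lit 0x13d4508ba18205))
 (c z e
 (c (a (nat_lit 0x6a36e32116e71a8))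
 (c (a (nat_lit 0xa89e78c31ad2acbc9)) e e)
 (c z e
 (c z e
 (c z e
 (c (a (nat_lit 0x1bd67574da73cf47)) e
 (c z e
 (c z e
 (c z e
 (c (a (nat_lit 0x154dabe5c0000007)) e e))))))))))
 (c (a (nat_lit 0x1c787d8e49e6a6))
 (c (a (nat_lit 0x58a10f12f8d5808))
 (c (a (nat_lit 0xe8c135a1b0e4b4008)) e e)
 (c z e
 (c z e
 (c (a (nat_lit 0xc6c2a5091958ac9)) e
 (c (a (nat_lit 0x7c5696d31c7e769)) e
 (c z e
 (c z e
 (c z e
 (c (a (nat_lit 0x17d084c000000008)) e e)))))))))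
 (c z e
 (c z e
 (c (a (nat_lit 0xe04061e05b65))
 (c z e
 (c (a (nat_lit 0x7314409ec068148)) e e))
 (c (a (nat_lit 0x808141306706))
 (c (a (nat_lit 0x16890bcb0a404507)) e e)
 (c z e
 (c z e
 (c z e
 (c (a (nat_lit 0xa2bee90484487)) e
 (c z e
 (c z e
 (c (a (nat_lit 0x124da285e5eec5)) e
 (c (b (nat_lit 0x12070a6a735fe5)) e
 (c (a (nat_lit 0xaee6e97006005)) e e)))))))))))))))
 (c (a (nat_lit 0x4040404041))
 (c (a (nat_lit 0x14f4e8eb288886))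
 (c (a (nat_lit 0x4cacb4d0a4f9507)) e
 (c z e
 (c z e
 (c (a (nat_lit 0xcca2fb477b1a828)) e
 (c (a (nat_lit 0xb6d949a140d3108)) e
 (c z e
 (c z e
 (c (a (nat_lit 0xf50258420000008)) e
 (c (a (nat_lit 0x12e2200000000008)) e e)))))))))
 (c (a (nat_lit 0x1c6bce0a2a2ac6))
 (c (a (nat_lit 0x82948872f8c70c9)) e
 (c z e
 (c z e
 (c z e
 (c (a (nat_lit 0x10330dc78baba6a9)) e
 (c (a (nat_lit 0x1b1a537513e00008)) e e))))))
 (c (b (nat_lit 0x1577103d9ff5c5)) e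
 (c (a (nat_lit 0xd886a07912945))
 (c (a (nat_lit 0x1179da0c4d424646)) e
 (c (a (nat_lit 0x148c0cae0967c6a8)) e e))
 (c (a (nat_lit 0x92acc77ad4ca5))
 (c (a (nat_lit 0xd8f122ee8c34007)) e e)
 (c (a (nat_lit 0x7a8f3e6e669e5)) e
 (c (a (nat_lit 0x103f770f3cce44)) e
 (c (a (nat_lit 0x823edb5152e25)) e
 (c (a (nat_lit 0xc1213ed0bcb67)) e
 (c z e
 (c (a (nat_lit 0xf8fb314eca005)) e
 (c (a (nat_lit 0xaccaeb033f006)) e
 (c (a (nat_lit 0xbf0131ab2c9e5)) e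
 (c (a (nat_lit 0xf5239c9000005)) e e))))))))))))))
 (c (nat_lit 1)
 (c (a (nat_lit 0xc49a9c9caf705))
 (c (a (nat_lit 0xb8d6af1b87d3207)) e
 (c z e
 (c z e
 (c z e
 (c (a (nat_lit 0x1510a9b5f126a008)) e
 (c (a (nat_lit 0x11ceceec00000008)) e e))))))
 (c z e
 (c z e
 (c (a (nat_lit 0x1c7a1ef7371846)) e
 (c (a (nat_lit 0xa3304e2e59965)) e
 (c (a (nat_lit 0xee626517e4f65)) e
 (c (a (nat_lit 0x9ca12dd124da6)) e
 (c z e
 (c (a (nat_lit 0xd1770cacda086)) e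
 (c (a (nat_lit 0x14ce49cca944c6)) e
 (c (a (nat_lit 0xe29ad53ef0ba6)) e
 (c (a (nat_lit 0x3caf90f444005)) e e))))))))))))
 (c (a (nat_lit 0x202021))
 (c (a (nat_lit 0x3922ac9a5a406)) e
 (c (a (nat_lit 0x1d729103e0c045))
 (c (a (nat_lit 0x10c868ea620561e8)) e
 (c (a (nat_lit 0x113094ea86e00008)) e e))
 (c (a (nat_lit 0x113200804021a5))
 (c (a (nat_lit 0x11b73287a0000007)) e e)
 (c (a (nat_lit 0x1120804042bd45)) e
 (c (a (nat_lit 0x9c9c9c7f0ade7)) e e)))))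
 (c (a (nat_lit 0x4040404041))
 (c (a (nat_lit 0xef025e5c567e4))
 (c z e
 (c (a (nat_lit 0x1ad18bef80000006)) e e))
 (c (a (nat_lit 0x18e0a060652be4))
 (c (a (nat_lit 0x1d6e526000000005)) e e)
 (c (b (nat_lit 0x807fe3657325)) e
 (c z e
 (c z e
 (c (b (nat_lit 0x3551abebfe686)) e
 (c z e
 (c z e
 (c (a (nat_lit 0x112eed8e020005)) e
 (c (a (nat_lit 0x14b2ca00000005)) e
 (c (a (nat_lit 0x11800000000004)) e e)))))))))))
 (c (a (nat_lit 0x8080808081))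
 (c z e
 (c z e
 (c (a (nat_lit 0x98b6e605773c5)) e
 (c (a (nat_lit 0x2320ae4fff85)) e
 (c (a (nat_lit 0x5e97bb82d8f66)) e
 (c z e
 (c (a (nat_lit 0x12f4794040f9a6)) e
 (c (a (nat_lit 0x14db8beba00005)) e
 (c (a (nat_lit 0x1fa04000000004)) e e)))))))))
 (c (a (nat_lit 0x2020203166))
 (c (a (nat_lit 0xc140804356c5)) e
 (c (a (nat_lit 0x84921a9369e86)) e
 (c (a (nat_lit 0x4c425912ef327)) e
 (c z e
 (c (a (nat_lit 0x127c6a2108027)) e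
 (c (a (nat_lit 0xdedc7e133a007)) e
 (c (a (nat_lit 0x1004c0c0000005)) e
 (c (a (nat_lit 0x1b400000000002)) e e))))))))
 (c (a (nat_lit 0x2033e286))
 (c (a (nat_lit 0x8c768f1faaf86)) e
 (c z e
 (c z e
 (c (a (nat_lit 0x3e7054e526688)) e
 (c (a (nat_lit 0xbea8bd2c00008)) e
 (c (a (nat_lit 0x15316000000004)) e e))))))
 (c (a (nat_lit 0x20363b29a4))
 (c z e
 (c (a (nat_lit 0x2268b3073d088)) e e))
 (c (a (nat_lit 0x81095e88185))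
 (c (a (nat_lit 0x449fc97afe6a7)) e e)
 (c (a (nat_lit 0xb718a22c045)) e
 (c (a (nat_lit 0x198d65602524)) e
 (c (a (nat_lit 0x17608080e322)) e
 (c (a (nat_lit 0x102a643a1)) e
 (c (a (nat_lit 0xf8f90502fc4)) e
 (c (a (nat_lit 0x806071e3)) e
 (c (a (nat_lit 0x4091ac83)) e
 (c (a (nat_lit 0x141932e09e3)) e
 (c (a (nat_lit 0x8714ecccc64)) e
 (c (a (nat_lit 0x13e9c2c22262)) e
 (c (a (nat_lit 0x108160a06001)) e
 (c (a (nat_lit 0xa020000001)) e e))))))))))))))))))))))) Tr.c Tr.e (nat_lit 0) C.cx C.cy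
noncomputable def C404 : Tr := beta% (fun (c : Nat → Tr → Tr → Tr) (e : Tr) (z : Nat) (a b : Nat → Nat) =>
 (c (a (nat_lit 0x20202001))
 (c (a (nat_lit 0x6262626263682))
 (c (a (nat_lit 0x1c1c1c1c1e1f084)) e
 (c (a (nat_lit 0x3604060c0bda984))
 (c z e
 (c z e
 (c z e
 (c z e
 (c z e
 (c (a (nat_lit 0x9b0a5c2e6c74441a7)) e
 (c z e
 (c (a (nat_lit 0x5651d2444c6048427)) e
 (c (a (nat_lit 0x27e45c4a464a28007)) e e)))))))))
 (c (a (nat_lit 0x202042694658e6))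
 (c z e
 (c z e
 (c z e
 (c z e
 (c z e
 (c z e
 (c (a (nat_lit 0x61166230581c321a7)) e
 (c (a (nat_lit 0x14c3c2240602800007)) e e))))))))
 (c (a (nat_lit 0x20615d4e0a8fc4)) e
 (c (a (nat_lit 0x162596542814524)) e
 (c (a (nat_lit 0x49d88c3c022f2e4))
 (c z e
 (c (a (nat_lit 0x1088a624a161e30288)) e e))
 (c (a (nat_lit 0x1346c3e3e3e32da5)) e
 (c (a (nat_lit 0x723e3e3e2005284)) e
 (c z e
 (c (a (nat_lit 0x44503e083a637e4)) e
 (c (a (nat_lit 0x644e341c3a5f384)) e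
 (c (a (nat_lit 0x2a1e32446873105)) e
 (c (a (nat_lit 0x142a34241c37206)) e
 (c (a (nat_lit 0x6506a6e438e745)) e
 (c (a (nat_lit 0x1a444e1942005)) e e)))))))))))))))
 (c (a (nat_lit 0x1010101142b45))
 (c (a (nat_lit 0x20812f126e64))
 (c z e
 (c z e
 (c z e
 (c (a (nat_lit 0xc92eba84daba98548)) e
 (c (a (nat_lit 0x1550ebacc86c04a6a8)) e
 (c (a (nat_lit 0x14e5e4444864422528)) e
 (c z e
 (c z e
 (c (a (nat_lit 0x1da8a624c5e2c00008)) e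
 (c (a (nat_lit 0x182d2da98000000007)) e e))))))))))
 (c z e
 (c z e
 (c (a (nat_lit 0x42aee8d3a99fea5))
 (c z e
 (c (a (nat_lit 0xe2eb1a70744c9c4c9)) e
 (c (a (nat_lit 0x135af6ce6d510f8c28)) e
 (c (a (nat_lit 0x194684654fa822c007)) e e))))
 (c (a (nat_lit 0xb0e0343c9d8afc5))
 (c (a (nat_lit 0x11d82f0f6aaecea768)) e e)
 (c z e
 (c z e
 (c z e
 (c (a (nat_lit 0xa29882b0bf5e9a6)) e
 (c (a (nat_lit 0xe6e53333fb96c85)) e
 (c (a (nat_lit 0x9ac2bb290550046)) e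
 (c (a (nat_lit 0xbc84d84a3346dc6)) e
 (c (a (nat_lit 0x13596fe396ea4126)) e
 (c (a (nat_lit 0xa48cc299be00007)) e
 (c (a (nat_lit 0x17b5804000000005)) e e)))))))))))))))
 (c (a (nat_lit 0x20330f4e86))
 (c z e
 (c z e
 (c z e
 (c z e
 (c z e
 (c z e
 (c (a (nat_lit 0x1ea482c324630027)) e e)))))))
 (c (a (nat_lit 0x2c2d99fbecba5))
 (c (a (nat_lit 0x2e8a8b07436c585)) e
 (c (a (nat_lit 0x102a90ff3c2cb1e5))
 (c (a (nat_lit 0x1791e9a889c66cf348)) e e)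
 (c z e
 (c z e
 (c z e
 (c (a (nat_lit 0x9c52a30cb220006)) e
 (c (a (nat_lit 0x76b8cb323022666)) e
 (c z e
 (c (a (nat_lit 0x462c95088660d86)) e
 (c (b (nat_lit 0x4c283b37fe64427)) e e))))))))))
 (c (a (nat_lit 0x2cc7412e9e745))
 (c (a (nat_lit 0x10d2f2734f77d9c5))
 (c (a (nat_lit 0x11a668c9486fedeba7)) e e)
 (c (b (nat_lit 0x1e2a81fe1441347)) e
 (c z e
 (c (a (nat_lit 0xbad70dd9e29d585)) e
 (c (a (nat_lit 0x50a8a6ea8c69666)) e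
 (c (a (nat_lit 0x4a58c04a1e6b9e7)) e
 (c (a (nat_lit 0x64e07c3ecdfdcc6)) e
 (c (a (nat_lit 0x3a2e6e82732a4e7)) e
 (c (a (nat_lit 0x163b5e9ad84c007)) e e)))))))))
 (c (a (nat_lit 0x15da5929268405))
 (c (a (nat_lit 0x125a71b1b31b7b06)) e
 (c z e
 (c (a (nat_lit 0x187a94e82629106)) e
 (c (a (nat_lit 0x6ca0d0aa72e5a27)) e
 (c (a (nat_lit 0x8861e121b243a7)) e
 (c (a (nat_lit 0x623a244d4090627)) e
 (c (a (nat_lit 0x6cc08cc5187c587)) e e)))))))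
 (c (a (nat_lit 0xef48802e484c4))
 (c z e
 (c z e
 (c z e
 (c z e
 (c (a (nat_lit 0x728a5558f868207)) e e)))))
 (c (a (nat_lit 0x1040406525c443))
 (c (a (nat_lit 0x18ef0b16ee960ec4)) e
 (c (a (nat_lit 0x3e5c40755828946)) e
 (c (a (nat_lit 0x70903fcc866e3a6)) e
 (c z e
 (c z e
 (c (a (nat_lit 0x123830a000000006)) e e))))))
 (c (a (nat_lit 0x4e55df6b0ae41))
 (c (a (nat_lit 0x6c227166465c326)) e
 (c z e
 (c z e
 (c (a (nat_lit 0x1b2da94400000007)) e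
 (c (a (nat_lit 0x101b400000000005)) e e)))))
 (c (a (nat_lit 0x80a080a03045))
 (c (a (nat_lit 0x13dcf648769e286)) e
 (c (a (nat_lit 0x10c6e4c644400008)) e e))
 (c (a (nat_lit 0x8060c6f9ada5))
 (c (a (nat_lit 0x148e0e2740000006)) e e)
 (c (a (nat_lit 0x20249dc300ce5)) e
 (c (a (nat_lit 0x56a330ca948a6)) e
 (c (a (nat_lit 0x8344ecd4cacc6)) e
 (c (a (nat_lit 0x1f5390f0d0efe5)) e
 (c (a (nat_lit 0x186d6d4dc9edc3)) e
 (c (a (nat_lit 0x1ebeffd87fbf22)) e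
 (c (a (nat_lit 0x19ba16daba9ec3)) e
 (c (a (nat_lit 0x600a7e7b04622)) e e)))))))))))))))))))
 (c (a (nat_lit 0x2040200001))
 (c (a (nat_lit 0x12121380e2e06))
 (c (a (nat_lit 0xd4dadec7c9dd804))
 (c z e
 (c z e
 (c z e
 (c (a (nat_lit 0x167029ed2bca07e6a8)) e
 (c (a (nat_lit 0x17f2ed88af67ca8748)) e
 (c z e
 (c z e
 (c (a (nat_lit 0x1de5456546c5828008)) e e))))))))
 (c z e
 (c z e
 (c (a (nat_lit 0x216509c2d053a7))
 (c z e
 (c (a (nat_lit 0x13bcebca284d88a4a9)) e e))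
 (c (a (nat_lit 0x6890509676fdbc7))
 (c (a (nat_lit 0x1028c8e586c96543c9)) e e)
 (c z e
 (c z e
 (c (a (nat_lit 0x9696aca06938b87)) e
 (c (a (nat_lit 0xd4d8cee58f38b07)) e
 (c (a (nat_lit 0xfce70be362bc7a7)) e
 (c z e
 (c z e
 (c (a (nat_lit 0x110b44c7c9a24008)) e
 (c (a (nat_lit 0x9056251c0000008)) e
 (c (a (nat_lit 0x1563000000000006)) e e)))))))))))))))
 (c (a (nat_lit 0x203b5635c827)) e
 (c (a (nat_lit 0x219d4b4eb2987)) e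
 (c (a (nat_lit 0x116d0ca8478287))
 (c z e
 (c (a (nat_lit 0x40e12a4b99f728))
 (c (a (nat_lit 0x19be134a0d2ba00008)) e e)
 (c z e
 (c z e
 (c z e
 (c (a (nat_lit 0xc2ea846895e5168)) e
 (c (b (nat_lit 0x881ffe55948a1a8)) e e)))))))
 (c (a (nat_lit 0x1050ab49e2a086))
 (c (a (nat_lit 0x3458b6cef92e9a8)) e
 (c z e
 (c z e
 (c z e
 (c (a (nat_lit 0x9a9266411e82569)) e
 (c (a (nat_lit 0xfcc09b810438987)) e e))))))
 (c (a (nat_lit 0x1e74deed6e2da5))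
 (c (a (nat_lit 0x2a606f92a246608)) e e)
 (c z e
 (c (b (nat_lit 0x1ec15fe1a085c3))
 (c (a (nat_lit 0x3015a83a4442428)) e e)
 (c (a (nat_lit 0x18080a204b605))
 (c (a (nat_lit 0x1b2e8905c5424008)) e
 (c (a (nat_lit 0x1cdc99d120000007)) e e))
 (c (a (nat_lit 0x2046eeb79626))
 (c (a (nat_lit 0x102f096000000007)) e e)
 (c z e
 (c z e
 (c (a (nat_lit 0x9d090b0903007)) e
 (c (a (nat_lit 0x1bfc5d7e7dec06)) e
 (c (a (nat_lit 0x7a347033f1c22)) e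
 (c z e
 (c z e
 (c (a (nat_lit 0x14569653ab2006)) e
 (c (a (nat_lit 0x1413c8a0000006)) e
 (c (a (nat_lit 0x16600000000005)) e e))))))))))))))))))))
 (c (a (nat_lit 0x4040404041))
 (c (a (nat_lit 0x130ef0ec56507)) e
 (c (a (nat_lit 0x1f5b5b2baa24c7)) e
 (c (a (nat_lit 0x179671f0880266)) e
 (c (a (nat_lit 0x128eef08058006)) e
 (c z e
 (c (a (nat_lit 0x1a2421c5e466c3)) e
 (c (a (nat_lit 0x40202101f446)) e
 (c (b (nat_lit 0x227febba47)) e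
 (c z e
 (c z e
 (c z e
 (c z e
 (c z e
 (c z e
 (c z e
 (c z e
 (c (a (nat_lit 0x1cf8770b400005)) e
 (c (a (nat_lit 0x18cbc000000005)) e e))))))))))))))))))
 C403)))) Tr.c Tr.e (nat_lit 0) C.cx C.cy
noncomputable def C405 : Tr := beta% (fun (c : Nat → Tr → Tr → Tr) (e : Tr) (z : Nat) (a b : Nat → Nat) =>
 (c (nat_lit 1)
 (c (a (nat_lit 0x20202031a7))
 (c (a (nat_lit 0x3002302e332a3))
 (c (a (nat_lit 0x1a7b7132255d4045)) e e)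
 (c z e
 (c z e
 (c z e
 (c (a (nat_lit 0x1add9a118c8046)) e
 (c (a (nat_lit 0x1731ade506c306)) e
 (c (a (nat_lit 0x10086660f2a3e6)) e
 (c z e
 (c z e
 (c (a (nat_lit 0x59050f70f0007)) e
 (c (a (nat_lit 0x1cff32a0000005)) e
 (c (a (nat_lit 0x17a00000000004)) e e))))))))))))
 (c (a (nat_lit 0x2020334548)) e
 (c (a (nat_lit 0x3ca7e4a7)) e
 (c z e
 (c (a (nat_lit 0x1225e4836368))
 (c z e
 (c (a (nat_lit 0x446296981f248)) e e))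
 (c (a (nat_lit 0x1c8c80605364))
 (c (a (nat_lit 0x18b2ea4168347)) e e)
 (c z e
 (c z e
 (c z e
 (c (a (nat_lit 0x112e1371b766)) e
 (c (a (nat_lit 0x114e8057ff44)) e
 (c (a (nat_lit 0x1006b51efe4)) e
 (c (b (nat_lit 0x1fffefe42001)) e
 (c (b (nat_lit 0x1ff600c0c081)) e
 (c (a (nat_lit 0x640a0a13f03)) e
 (c (a (nat_lit 0x5a5a5f38ca4)) e e))))))))))))))))
 (c (a (nat_lit 0x20202021))
 (c (a (nat_lit 0x203c4785e7)) e
 (c z e
 (c (a (nat_lit 0x110564e24248))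
 (c (a (nat_lit 0x1288a687c505)) e e)
 (c (a (nat_lit 0x9a900203185)) e
 (c (a (nat_lit 0x102b2b343186))
 (c (a (nat_lit 0x786a8b145a688)) e e)
 (c z e
 (c z e
 (c z e
 (c (a (nat_lit 0xc8fef149447)) e
 (c z e
 (c (a (nat_lit 0x146423834304)) e
 (c (a (nat_lit 0x8a3616121a1)) e
 (c (a (nat_lit 0x2020203105)) e
 (c (b (nat_lit 0x20311fe5)) e e))))))))))))))
 (c (nat_lit 1)
 (c (a (nat_lit 0x13e565002006))
 (c (a (nat_lit 0x49468ea236405)) e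
 (c (a (nat_lit 0xeacb0a4e0a3a5)) e
 (c z e
 (c z e
 (c z e
 (c (a (nat_lit 0x48a12cd270008)) e e))))))
 (c (a (nat_lit 0x114c40405965))
 (c (a (nat_lit 0x9ec0beb69d326)) e
 (c z e
 (c z e
 (c z e
 (c (a (nat_lit 0x292f0a5000008)) e e)))))
 (c (a (nat_lit 0xb60203a7345)) e
 (c z e
 (c z e
 (c (a (nat_lit 0xe6d91709127)) e
 (c z e
 (c z e
 (c (b (nat_lit 0x1e7fe8404104)) e
 (c (b (nat_lit 0x1ff2c2416163)) e
 (c (a (nat_lit 0x8c0202032c4)) e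
 (c (a (nat_lit 0xbcbcbfe56a4)) e
 (c z e
 (c (b (nat_lit 0x1ff4e5a16003)) e
 (c (a (nat_lit 0x17c460000003)) e e)))))))))))))))
 (c (a (nat_lit 0x20202021))
 (c (a (nat_lit 0x4402039d304))
 (c (a (nat_lit 0x566ca26b1a425)) e
 (c (a (nat_lit 0x14140ebb7cb706)) e
 (c z e
 (c (a (nat_lit 0x9971c07e52007)) e
 (c (a (nat_lit 0x195fa680000006)) e e)))))
 (c (a (nat_lit 0xb0c38933026))
 (c (a (nat_lit 0x685a9d4e843a8)) e e)
 (c z e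
 (c (a (nat_lit 0x1f1c9b37f4c5)) e
 (c (a (nat_lit 0x185fde3cb4e6)) e
 (c z e
 (c (a (nat_lit 0x1290ca27c7c6)) e
 (c (a (nat_lit 0x252a0e080e3)) e
 (c (a (nat_lit 0x170e6e011064)) e
 (c (a (nat_lit 0x160a13ff2e3)) e
 (c z e
 (c (b (nat_lit 0x1ff487272703)) e
 (c (a (nat_lit 0x1b8100800002)) e
 (c (a (nat_lit 0x2000000001)) e e))))))))))))))
 (c (a (nat_lit 0xc0c0c0c1))
 (c (a (nat_lit 0x10d31251ee26))
 (c (a (nat_lit 0x7885ca8456527)) e e)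
 (c (a (nat_lit 0x1d9958145145))
 (c (b (nat_lit 0x159ffda7a00006)) e e)
 (c z e
 (c z e
 (c z e
 (c (a (nat_lit 0x147732d2b285)) e
 (c (a (nat_lit 0x176ecec07264)) e
 (c (a (nat_lit 0x80926944)) e
 (c z e
 (c (b (nat_lit 0x1ff702a383e3)) e
 (c (a (nat_lit 0x142040a0a003)) e
 (c (a (nat_lit 0x40000001)) e e))))))))))))
 (c (a (nat_lit 0x402001))
 (c (a (nat_lit 0x1493d65294c5))
 (c (a (nat_lit 0x18d40a20000004)) e e)
 (c z e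
 (c z e
 (c (a (nat_lit 0xf10f7572a67)) e
 (c (a (nat_lit 0x1ab8b8b1e746)) e
 (c (a (nat_lit 0x5c2419df844)) e
 (c z e
 (c (b (nat_lit 0xeb853c05fe5)) e
 (c (a (nat_lit 0x1854004032c5)) e
 (c (a (nat_lit 0x142160c00001)) e
 (c (a (nat_lit 0x8000000001)) e e)))))))))))
 (c (a (nat_lit 0x40404041))
 (c (b (nat_lit 0x115fe48040c4)) e
 (c (a (nat_lit 0xe108fb12a47)) e
 (c z e
 (c z e
 (c z e
 (c (b (nat_lit 0x13bcf8b49fe5)) e
 (c (a (nat_lit 0x1f7b370059a5)) e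
 (c (a (nat_lit 0x1940c040a001)) e
 (c (a (nat_lit 0x10080000001)) e e)))))))))
 (c (a (nat_lit 0x20202001))
 (c (a (nat_lit 0x1dfbfbe064e5)) e
 (c z e
 (c z e
 (c (a (nat_lit 0x3764de6e004)) e
 (c (a (nat_lit 0xce8c5003185)) e
 (c (a (nat_lit 0x16020a0a001)) e
 (c (a (nat_lit 0x8100600001)) e
 (c (a (nat_lit 0xa000000001)) e e))))))))
 (c (nat_lit 1)
 (c z e
 (c (b (nat_lit 0x1ff12820dfe4)) e
 (c (a (nat_lit 0x110860803fa4)) e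
 (c (a (nat_lit 0x20a0c06021)) e
 (c (a (nat_lit 0x100c0606001)) e
 (c (a (nat_lit 0xa040000001)) e e))))))
 (c (a (nat_lit 0x40202021))
 (c (a (nat_lit 0x4e2804030e5)) e
 (c (a (nat_lit 0x80e0c862a1)) e
 (c (a (nat_lit 0xe10043e001)) e
 (c (a (nat_lit 0xa0a0400001)) e
 (c (a (nat_lit 0x4000000001)) e e)))))
 (c (a (nat_lit 0x20202041))
 (c (a (nat_lit 0x54040404041)) e
 (c (a (nat_lit 0x4060202001)) e
 (c (a (nat_lit 0x6020000001)) e e)))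
 (c (a (nat_lit 0x20202021))
 (c (a (nat_lit 0x4020200001)) e
 (c (a (nat_lit 0x2000000001)) e e))
 (c (a (nat_lit 0x20202021)) e
 (c (a (nat_lit 0x60606061)) e
 (c (a (nat_lit 0x202036c6)) e
 (c (a (nat_lit 0x60772766)) e
 (c (a (nat_lit 0x279094486)) e
 (c z e
 (c (a (nat_lit 0x1b68202024)) e
 (c (a (nat_lit 0x8402031c4)) e
 (c (a (nat_lit 0x2031efe4)) e
 (c (a (nat_lit 0x85a37f564)) e
 (c z e
 (c (a (nat_lit 0x1754c72004)) e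
 (c (a (nat_lit 0x1b40000003)) e e)))))))))))))))))))))))))) Tr.c Tr.e (nat_lit 0) C.cx C.cy
noncomputable def C406 : Tr := beta% (fun (c : Nat → Tr → Tr → Tr) (e : Tr) (z : Nat) (a b : Nat → Nat) =>
 (c (a (nat_lit 0x20202021))
 (c (a (nat_lit 0x2020204021))
 (c (a (nat_lit 0x138d0d45654066))
 (c z e
 (c z e
 (c z e
 (c z e
 (c z e
 (c (a (nat_lit 0x154bab5912107c65)) e
 (c (a (nat_lit 0xf486cad70f7ef65)) e
 (c (a (nat_lit 0x18ca503a1a0216c5)) e e))))))))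
 (c (b (nat_lit 0x1a7ab8785fffe6)) e
 (c (a (nat_lit 0x14111608876426)) e
 (c z e
 (c z e
 (c z e
 (c z e
 (c z e
 (c z e
 (c z e
 (c z e
 (c z e
 (c z e
 (c z e
 (c z e
 (c (a (nat_lit 0x14f5f7f6878005)) e
 (c (a (nat_lit 0x1d9f6ee0000005)) e
 (c (a (nat_lit 0x10800000000005)) e e))))))))))))))))))
 (c (a (nat_lit 0x2020002021))
 (c z e
 (c z e
 (c z e
 (c z e
 (c z e
 (c z e
 (c z e
 (c z e
 (c z e
 (c z e
 (c z e
 (c z e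
 (c z e
 (c z e
 (c (a (nat_lit 0xef190eaa00007)) e
 (c (a (nat_lit 0x1accc000000006)) e e))))))))))))))))
 (c (a (nat_lit 0x20002021)) e
 (c (a (nat_lit 0xa0a0a0a0a1)) e
 (c (a (nat_lit 0x4040204041)) e
 (c (a (nat_lit 0x4040404041)) e
 (c (a (nat_lit 0x200035a7)) e
 (c (a (nat_lit 0x20201c6687)) e
 (c (a (nat_lit 0x2030640368)) e
 (c z e
 (c (a (nat_lit 0x15ea25802007))
 (c (a (nat_lit 0x7e8f710e4c007)) e e)
 (c (a (nat_lit 0x1bcce0403284)) e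
 (c (a (nat_lit 0xba0407270e4)) e
 (c z e
 (c z e
 (c (a (nat_lit 0x86560a07003)) e
 (c (a (nat_lit 0xdcb0b3361e4)) e
 (c (b (nat_lit 0xf4e767fe004)) e e))))))))))))))))))
 (c (nat_lit 1)
 (c (a (nat_lit 0x2020202021))
 (c z e
 (c (a (nat_lit 0x1ae88ac7a7ed66))
 (c (a (nat_lit 0xc8948d4cd0024e8)) e e)
 (c z e
 (c z e
 (c z e
 (c (a (nat_lit 0xf322e304888e6))
 (c (a (nat_lit 0x19e6f1a845a00007)) e e)
 (c z e
 (c z e
 (c z e
 (c (b (nat_lit 0x1273dfe8c2a4e6)) e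
 (c z e
 (c z e
 (c z e
 (c (a (nat_lit 0x110c1595c92007)) e
 (c (a (nat_lit 0xfb92cc0000007)) e
 (c (a (nat_lit 0x18c00000000006)) e e))))))))))))))))
 (c (a (nat_lit 0x20202001))
 (c (a (nat_lit 0x1058edb19ef065))
 (c (a (nat_lit 0xe6cf4f06acaeb28)) e
 (c z e
 (c z e
 (c z e
 (c (a (nat_lit 0xb7f9b52e7e16b28)) e e)))))
 (c z e
 (c z e
 (c (a (nat_lit 0x14963111aa0e27)) e
 (c (a (nat_lit 0x104b2bc78ccec7))
 (c (a (nat_lit 0xeb136c900000007)) e e)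
 (c z e
 (c z e
 (c z e
 (c (a (nat_lit 0x124eab28c96768)) e
 (c z e
 (c z e
 (c z e
 (c (a (nat_lit 0xa4832c6200008)) e
 (c (a (nat_lit 0x1cd90000000007)) e e))))))))))))))
 (c (a (nat_lit 0x8080808081)) e
 (c (a (nat_lit 0x2020202021)) e
 (c (a (nat_lit 0x2020203627))
 (c z e
 (c (a (nat_lit 0x9748f91041606)) e
 (c z e
 (c z e
 (c z e
 (c (a (nat_lit 0x13fcd46a7629c7)) e e))))))
 (c (a (nat_lit 0x202035a507))
 (c (b (nat_lit 0x461206e9ff865)) e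
 (c z e
 (c z e
 (c z e
 (c (a (nat_lit 0xd92128d819307)) e e)))))
 (c (a (nat_lit 0x1fa94827)) e
 (c z e
 (c (a (nat_lit 0x11c6e5a04027)) e
 (c (a (nat_lit 0x1872802031e4))
 (c (a (nat_lit 0x153d2c2400008)) e e)
 (c (a (nat_lit 0xac04031f184)) e
 (c z e
 (c z e
 (c (a (nat_lit 0x1efac1c04d61)) e
 (c (b (nat_lit 0x1ba2c0cfbfe1)) e
 (c (b (nat_lit 0xf28de7fffe1)) e
 (c z e
 (c (a (nat_lit 0xf4aa0211564)) e
 (c (a (nat_lit 0xa40a0b507e4)) e e)))))))))))))))))))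
 (c (a (nat_lit 0x20202021))
 (c (a (nat_lit 0x2020202021))
 (c (a (nat_lit 0x1721873c870283))
 (c (a (nat_lit 0xb108d8cade6c886)) e
 (c z e
 (c z e
 (c (a (nat_lit 0xef1554b8ba4ea87)) e
 (c (b (nat_lit 0x1d71ca0bbfe80467)) e e)))))
 (c z e
 (c z e
 (c (a (nat_lit 0x16702f92303e86))
 (c z e
 (c (a (nat_lit 0xc291048a0000008)) e e))
 (c (a (nat_lit 0x988ec8a7d4666))
 (c (a (nat_lit 0x5d5262000000006)) e e)
 (c z e
 (c z e
 (c (a (nat_lit 0xb17a762a186c7)) e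
 (c (a (nat_lit 0x19c98a626a6d47)) e
 (c z e
 (c z e
 (c (a (nat_lit 0x12f0bcb5098006)) e
 (c (a (nat_lit 0x125e6ba0000006)) e
 (c (a (nat_lit 0x12c00000000006)) e e))))))))))))))
 (c (a (nat_lit 0x4060606061))
 (c z e
 (c z e
 (c z e
 (c z e
 (c z e
 (c z e
 (c z e
 (c z e
 (c z e
 (c z e
 (c (a (nat_lit 0x1392f66f200008)) e
 (c (a (nat_lit 0x15eea000000007)) e e))))))))))))
 (c (a (nat_lit 0x11a8)) e
 (c (a (nat_lit 0x1726c7))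
 (c z e
 (c (a (nat_lit 0x4508865c68d07)) e
 (c z e
 (c z e
 (c z e
 (c (a (nat_lit 0xec7074c879767)) e e))))))
 (c (a (nat_lit 0x2829b8ce9e7))
 (c (a (nat_lit 0xb026660b189a6)) e
 (c z e
 (c z e
 (c (a (nat_lit 0x24383e1a7d029)) e
 (c (a (nat_lit 0x4e705034df189)) e e)))))
 (c (a (nat_lit 0x1eab080367)) e
 (c (a (nat_lit 0x1967c5c0e0e7)) e
 (c (a (nat_lit 0x10e9002028e5))
 (c z e
 (c (a (nat_lit 0xb7bb969600009)) e e))
 (c (a (nat_lit 0xb40404930a5))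
 (c (a (nat_lit 0xff38240000008)) e e)
 (c (a (nat_lit 0x8c8d0724f47)) e
 (c z e
 (c (a (nat_lit 0x7b700602cc4)) e
 (c (a (nat_lit 0x1640604c2084)) e
 (c (a (nat_lit 0x6471383e004)) e
 (c z e
 (c (a (nat_lit 0x158761007164)) e
 (c (a (nat_lit 0x36020287885)) e
 (c (b (nat_lit 0x6048b8bfe5)) e e))))))))))))))))))
 C405)))) Tr.c Tr.e (nat_lit 0) C.cx C.cy
noncomputable def C407 : Tr := beta% (fun (c : Nat → Tr → Tr → Tr) (e : Tr) (z : Nat) (a b : Nat → Nat) =>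
 (c (a (nat_lit 0x4040404041))
 (c (a (nat_lit 0x192e6d05))
 (c (a (nat_lit 0xd4c6a104f167ba3))
 (c z e
 (c z e
 (c z e
 (c z e
 (c (a (nat_lit 0x1395cfe5eee9ed2c27)) e e)))))
 (c z e
 (c z e
 (c z e
 (c (a (nat_lit 0x6cca06225b554a6))
 (c (a (nat_lit 0x1370af0e296a2ba848)) e e)
 (c z e
 (c z e
 (c (a (nat_lit 0x685a6a98b9182c6)) e
 (c (a (nat_lit 0xbaa8d4ebb6df006)) e
 (c (a (nat_lit 0x8ca8b53aaaa2aa6)) e
 (c z e
 (c z e
 (c z e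
 (c (b (nat_lit 0x1bfe85400000007)) e
 (c (a (nat_lit 0x1cd1200000000005)) e e)))))))))))))))
 (c (a (nat_lit 0x203a71d145e7)) e
 (c (a (nat_lit 0x215ce4ea7e7e7))
 (c z e
 (c z e
 (c z e
 (c z e
 (c z e
 (c (b (nat_lit 0xb760c5fe9026286)) e e))))))
 (c (a (nat_lit 0x1a4eadc0808046))
 (c z e
 (c z e
 (c z e
 (c z e
 (c (a (nat_lit 0x767a981a085d309)) e e)))))
 (c (a (nat_lit 0x153c608060c024))
 (c (a (nat_lit 0xa19caee973d9267)) e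
 (c z e
 (c z e
 (c z e
 (c (a (nat_lit 0x11efae0e9431c568)) e
 (c (b (nat_lit 0x80c2df3709fe768)) e e))))))
 (c (a (nat_lit 0x1f54b4993747e5))
 (c z e
 (c z e
 (c z e
 (c z e
 (c (a (nat_lit 0x13731a124788aac8)) e e)))))
 (c z e
 (c z e
 (c (a (nat_lit 0x108d29a8f57c04))
 (c z e
 (c (a (nat_lit 0x1686d18ce0000008)) e e))
 (c (a (nat_lit 0x30202d0d3d2e6))
 (c (a (nat_lit 0x698cfc000000006)) e e)
 (c z e
 (c z e
 (c z e
 (c (a (nat_lit 0x1d9b5a7ab18c26)) e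
 (c (a (nat_lit 0x16b51593d4bf25)) e
 (c z e
 (c z e
 (c (a (nat_lit 0xc6d734825c005)) e
 (c (a (nat_lit 0x13df8480000004)) e
 (c (a (nat_lit 0x1b200000000004)) e e))))))))))))))))))))
 (c (a (nat_lit 0x6080808041))
 (c z e
 (c (b (nat_lit 0x10e8a940203fe8)) e
 (c (a (nat_lit 0x1d1c7232052526)) e
 (c z e
 (c z e
 (c z e
 (c z e
 (c z e
 (c z e
 (c z e
 (c z e
 (c z e
 (c z e
 (c z e
 (c z e
 (c z e
 (c (a (nat_lit 0x1375ef27000006)) e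
 (c (a (nat_lit 0x18092000000006)) e e))))))))))))))))))
 (c (a (nat_lit 0x2020202021))
 (c (a (nat_lit 0x10926dada70746)) e e)
 (c (a (nat_lit 0x8080808081)) e
 (c (a (nat_lit 0x2020202021))
 (c (a (nat_lit 0xc66c561363585))
 (c (a (nat_lit 0xdef042c8932d727)) e
 (c z e
 (c z e
 (c z e
 (c (a (nat_lit 0xdb0546f976ca008)) e
 (c (a (nat_lit 0x108e91a940000008)) e e))))))
 (c z e
 (c z e
 (c z e
 (c (a (nat_lit 0x10f49163c0d207)) e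
 (c (a (nat_lit 0xc4c24c24c1208)) e
 (c z e
 (c z e
 (c z e
 (c (a (nat_lit 0x6d0e928c42028)) e
 (c (b (nat_lit 0x10e8a8aaa99fe8)) e e)))))))))))
 (c (a (nat_lit 0x6060404021)) e
 (c (a (nat_lit 0xc0e0e0e0e1))
 (c (a (nat_lit 0x1499edc6e60745))
 (c (a (nat_lit 0x10666906e3a22007)) e
 (c (a (nat_lit 0x1231746820000006)) e e))
 (c (a (nat_lit 0x11082080406586))
 (c (a (nat_lit 0x9fd700000000005)) e e) e))
 (c (a (nat_lit 0x2020204041))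
 (c (a (nat_lit 0x11a060806b9fe4)) e
 (c z e
 (c z e
 (c z e
 (c z e
 (c z e
 (c z e
 (c (a (nat_lit 0x1d94b40b600006)) e
 (c (a (nat_lit 0x13c98000000006)) e e)))))))))
 (c (a (nat_lit 0x20202036e7))
 (c z e
 (c (a (nat_lit 0x70768290f9068)) e
 (c z e
 (c z e
 (c z e
 (c (a (nat_lit 0x1316532b98c008)) e
 (c (a (nat_lit 0x1574c8c0000007)) e
 (c (a (nat_lit 0x18000000000006)) e e))))))))
 (c (a (nat_lit 0x20203961e7))
 (c (a (nat_lit 0x787c5ccf1af67)) e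
 (c z e
 (c z e
 (c z e
 (c (a (nat_lit 0xa0a6d52c00009)) e
 (c (a (nat_lit 0x17ea4000000006)) e e))))))
 (c (a (nat_lit 0x2030c4e1a7)) e
 (c z e
 (c (a (nat_lit 0x10e643c02027)) e
 (c (a (nat_lit 0xfc8802033a5)) e
 (c (a (nat_lit 0xc60403d1be4)) e
 (c (a (nat_lit 0x8687675b325)) e
 (c z e
 (c (a (nat_lit 0x14d36e6cd364)) e
 (c (a (nat_lit 0x64140669c84)) e
 (c (a (nat_lit 0x9c98b30a926)) e
 (c z e
 (c z e
 (c (a (nat_lit 0x15e6e0402005)) e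
 (c (a (nat_lit 0x1c6100000003)) e e))))))))))))))))))))))))) Tr.c Tr.e (nat_lit 0) C.cx C.cy
noncomputable def C408 : Tr := beta% (fun (c : Nat → Tr → Tr → Tr) (e : Tr) (z : Nat) (a b : Nat → Nat) =>
 (c (a (nat_lit 0x8080806061))
 (c (a (nat_lit 0x2020304887))
 (c (a (nat_lit 0xacb2aa7d050b225))
 (c z e
 (c z e
 (c z e
 (c z e
 (c (a (nat_lit 0x134faecba52a450509)) e
 (c (a (nat_lit 0x13308e22e607c66cc8)) e
 (c z e
 (c z e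
 (c (a (nat_lit 0x1846a4e7e883200009)) e
 (c (a (nat_lit 0x1feebe50c000000007)) e e))))))))))
 (c z e
 (c z e
 (c z e
 (c (a (nat_lit 0xe312ea880537e07))
 (c (a (nat_lit 0x109b330d09a72beb09)) e
 (c (a (nat_lit 0x18ee81c6830dc0e648)) e e))
 (c z e
 (c z e
 (c z e
 (c z e
 (c (a (nat_lit 0xd2f498b1a2ca567)) e
 (c z e
 (c z e
 (c z e
 (c (a (nat_lit 0x764c506b5200009)) e
 (c (a (nat_lit 0x1df4402000000006)) e e)))))))))))))))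
 (c (a (nat_lit 0x203c7372c8))
 (c z e
 (c z e
 (c z e
 (c z e
 (c z e
 (c z e
 (c z e
 (c (a (nat_lit 0xf304cec28078928)) e e))))))))
 (c (a (nat_lit 0x2039703026c8)) e
 (c (a (nat_lit 0x2380fcf284848)) e
 (c (a (nat_lit 0x18adee06868488))
 (c (a (nat_lit 0x3ed337694fa1d68))
 (c (a (nat_lit 0x12536faa0ca5400008)) e e)
 (c z e
 (c z e
 (c z e
 (c z e
 (c (b (nat_lit 0x8a55fe9bc273fe9)) e e))))))
 (c (b (nat_lit 0x111960407fffe5)) e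
 (c z e
 (c z e
 (c (a (nat_lit 0x887c7c6815046)) e
 (c (a (nat_lit 0x464c3a9f91c46))
 (c (a (nat_lit 0x11f03a4a80000008)) e e)
 (c z e
 (c z e
 (c z e
 (c (a (nat_lit 0x14769576d65108)) e
 (c (a (nat_lit 0x1aa05351c3eb24)) e
 (c z e
 (c z e
 (c z e
 (c (a (nat_lit 0x169c09a0e00005)) e
 (c (a (nat_lit 0x12048000000006)) e e))))))))))))))))))))
 (c (a (nat_lit 0x6060406061))
 (c (a (nat_lit 0x20304bebe448)) e
 (c z e
 (c (a (nat_lit 0x152f2f25050088)) e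
 (c (a (nat_lit 0x12510d0ce543e7)) e e))))
 (c (a (nat_lit 0xa0a0a0a0a1))
 (c (a (nat_lit 0x1a1374884742a7)) e
 (c (a (nat_lit 0x12b28dccc40287))
 (c (a (nat_lit 0x6666b4e8ecc1389))
 (c (a (nat_lit 0xbce2f7135102e2c09)) e e)
 (c z e
 (c z e
 (c z e
 (c (a (nat_lit 0xc886c2fb154a809)) e
 (c z e
 (c z e
 (c z e
 (c (a (nat_lit 0xeb66c65e0000009)) e e)))))))))
 (c z e
 (c z e
 (c z e
 (c (a (nat_lit 0x8280662b45ee5))
 (c (a (nat_lit 0x65308abaa67e1c8)) e e)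
 (c z e
 (c z e
 (c z e
 (c (a (nat_lit 0xb6f1479906be7)) e
 (c z e
 (c z e
 (c z e
 (c (a (nat_lit 0x48f0df02aa3e6)) e
 (c (a (nat_lit 0xff0126ba4e0e6)) e e)))))))))))))))
 (c (a (nat_lit 0x6060606061))
 (c (a (nat_lit 0x10ce0e09682527))
 (c (a (nat_lit 0xc81d073edb494c7)) e
 (c z e
 (c z e
 (c (a (nat_lit 0xbe88a0c32aacb69)) e
 (c (a (nat_lit 0x728e8f1514ca929)) e
 (c z e
 (c z e
 (c (a (nat_lit 0x19d534b6c8c00008)) e
 (c (a (nat_lit 0x14d6646000000008)) e e)))))))))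
 (c z e
 (c z e
 (c (a (nat_lit 0xcb3682ab74b05))
 (c z e
 (c (a (nat_lit 0x107691312e8c4869)) e e))
 (c (a (nat_lit 0x167089b6d4aba6))
 (c (a (nat_lit 0x1fb0d4937189e5a8)) e e)
 (c z e
 (c z e
 (c (a (nat_lit 0x18b2ee529d5c26)) e
 (c (a (nat_lit 0xba95774ef6b07)) e
 (c z e
 (c z e
 (c (a (nat_lit 0xd0eae1056ab47)) e
 (c (a (nat_lit 0x9080e1aa40806)) e
 (c (a (nat_lit 0xc92df2926e006)) e e))))))))))))))
 (c (a (nat_lit 0x12121212121))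
 (c (a (nat_lit 0x1f0dcde801f5c5))
 (c (a (nat_lit 0x28206a74a90f068)) e
 (c z e
 (c z e
 (c z e
 (c z e
 (c (a (nat_lit 0x12504e0ec9c00009)) e e))))))
 (c z e
 (c z e
 (c z e
 (c z e
 (c (a (nat_lit 0x1bb9b3cb82ad26)) e
 (c z e
 (c z e
 (c z e
 (c (a (nat_lit 0xd95130d29a607)) e
 (c (a (nat_lit 0x106e6aec8c8f47)) e
 (c (a (nat_lit 0x142db130b63026)) e e))))))))))))
 (c (a (nat_lit 0x4040404041))
 (c z e
 (c z e
 (c z e
 (c z e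
 (c (a (nat_lit 0x19b6d6f3949727)) e e)))))
 (c (a (nat_lit 0x4040404041))
 (c (a (nat_lit 0x18524d0484c405))
 (c (a (nat_lit 0x11dbf50b4aecc406)) e
 (c (a (nat_lit 0x18164d8c6b200007)) e e))
 (c (a (nat_lit 0x1f3845c5c4c8e5))
 (c (a (nat_lit 0x12ee2c28c0000007)) e e)
 (c z e
 (c z e
 (c z e
 (c (a (nat_lit 0x1e391bc986fe7)) e
 (c z e
 (c z e
 (c (a (nat_lit 0xb533c284d4566)) e
 (c (a (nat_lit 0x175fec09a00006)) e
 (c (a (nat_lit 0x16e18000000006)) e e)))))))))))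
 (c (a (nat_lit 0x14141414141))
 (c (a (nat_lit 0x154120c0834004)) e
 (c z e
 (c z e
 (c (a (nat_lit 0x224a364ad7526)) e
 (c (a (nat_lit 0x4266877158847)) e
 (c z e
 (c z e
 (c (a (nat_lit 0x1236eb0ca74006)) e
 (c (a (nat_lit 0x114563a0000006)) e
 (c (a (nat_lit 0x1cc00000000002)) e e))))))))))
 (c (a (nat_lit 0x8080808081))
 (c z e
 (c (a (nat_lit 0xccd6cc663b167)) e
 (c z e
 (c z e
 (c z e
 (c (a (nat_lit 0x8292da6003fe8)) e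
 (c (a (nat_lit 0xa9b93ec200006)) e
 (c (a (nat_lit 0x1727c000000006)) e e))))))))
 (c (a (nat_lit 0x2020203b66))
 (c (a (nat_lit 0xbebc925af5647)) e
 (c z e
 (c z e
 (c z e
 (c (a (nat_lit 0xbcc6ced37e009)) e
 (c (a (nat_lit 0x178ba8c0000006)) e e))))))
 (c (a (nat_lit 0x20203bc7c6))
 (c z e
 (c (a (nat_lit 0x343a80c321609)) e e))
 (c (a (nat_lit 0x203fab4026))
 (c (a (nat_lit 0x3a58d5ab68a28)) e e)
 (c (b (nat_lit 0x16ffffffe6)) e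
 (c (a (nat_lit 0x1d4a05c02006)) e
 (c (a (nat_lit 0x176640402684)) e
 (c (a (nat_lit 0x17e0a0997d42)) e
 (c (a (nat_lit 0xf2f35d6b3a4)) e
 (c z e
 (c (a (nat_lit 0x8e9c7407b64)) e
 (c (a (nat_lit 0xa0780dbcda4)) e
 (c (a (nat_lit 0x602b0292245)) e
 (c z e
 (c (a (nat_lit 0x1aada0206004)) e
 (c (a (nat_lit 0x1be0a0a00003)) e
 (c (a (nat_lit 0x2000000001)) e e)))))))))))))))))))))))))) Tr.c Tr.e (nat_lit 0) C.cx C.cy
noncomputable def C409 : Tr := beta% (fun (c : Nat → Tr → Tr → Tr) (e : Tr) (z : Nat) (a b : Nat → Nat) =>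
 (c (a (nat_lit 0x2020202021))
 (c (a (nat_lit 0x12121302aaac7))
 (c z e
 (c z e
 (c z e
 (c z e
 (c z e
 (c z e
 (c (a (nat_lit 0x1457fa393723a125)) e
 (c z e
 (c (b (nat_lit 0x1aaab83ff4c8d7e5)) e e)))))))))
 (c (a (nat_lit 0x203cb131e7e7))
 (c z e
 (c z e
 (c z e
 (c z e
 (c z e
 (c z e
 (c z e
 (c (a (nat_lit 0x8690b6da6049048)) e e))))))))
 (c (a (nat_lit 0x21e91d1c80807)) e
 (c (a (nat_lit 0x178c2be4c4c107)) e
 (c (a (nat_lit 0x171771716d8b26))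
 (c z e
 (c (a (nat_lit 0x7e3c78962affba8)) e e))
 (c (a (nat_lit 0x11456f64a421e5)) e e))))))
 (c (a (nat_lit 0x2020202021))
 (c z e
 (c (a (nat_lit 0x1f1dde4b2b23a6))
 (c (a (nat_lit 0x8100d2888139328))
 (c (a (nat_lit 0xc69284c0aee683029)) e e)
 (c z e
 (c z e
 (c z e
 (c (a (nat_lit 0xbea29b0ecc992e8)) e
 (c z e
 (c z e
 (c z e
 (c (a (nat_lit 0x9e8104ea4400009)) e e)))))))))
 (c (a (nat_lit 0x13b3cdada62586))
 (c z e
 (c z e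
 (c (a (nat_lit 0x825656a32c047)) e e)))
 (c (a (nat_lit 0x16d1916d6b2206)) e
 (c z e
 (c (a (nat_lit 0x1d7ad9b8d1fc45))
 (c (a (nat_lit 0x9891095ad29c527)) e e)
 (c z e
 (c z e
 (c z e
 (c (a (nat_lit 0x729e34c3064e6)) e
 (c z e
 (c z e
 (c z e
 (c (a (nat_lit 0x38b5051eee5)) e
 (c (a (nat_lit 0x971569d14cec5)) e e)))))))))))))))
 (c (nat_lit 1)
 (c (a (nat_lit 0x11b089898205c5))
 (c (a (nat_lit 0x970c04066effc46))
 (c (a (nat_lit 0x561a62789c3782467)) e e)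
 (c z e
 (c z e
 (c (a (nat_lit 0xe6ce96c69920a88)) e
 (c (a (nat_lit 0x7c60825ce70eb08)) e
 (c z e
 (c z e
 (c z e
 (c (a (nat_lit 0x1adfbc2d60000007)) e e)))))))))
 (c z e
 (c z e
 (c (a (nat_lit 0x100a4b68a50fc6)) e
 (c (a (nat_lit 0xe30eb04942025))
 (c (a (nat_lit 0x972af2ba54484e8)) e e)
 (c z e
 (c z e
 (c (a (nat_lit 0x249a161423bc6)) e
 (c (a (nat_lit 0xa66668d536b87)) e
 (c z e
 (c z e
 (c z e
 (c (a (nat_lit 0x1888c827f78826)) e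
 (c (a (nat_lit 0xe2d6d9d4e66c6)) e e))))))))))))))
 (c (a (nat_lit 0x8080808081))
 (c z e
 (c z e
 (c z e
 (c z e
 (c z e
 (c (a (nat_lit 0x4f1ab6dad8005)) e
 (c (b (nat_lit 0x1acf73f49fed44)) e
 (c (b (nat_lit 0xccdcdfff0f106)) e
 (c z e
 (c z e
 (c z e
 (c z e
 (c (a (nat_lit 0x14efdc7cb0a005)) e
 (c (a (nat_lit 0xb17ac00000005)) e
 (c (a (nat_lit 0x16c00000000004)) e e)))))))))))))))
 (c (a (nat_lit 0x2020202021))
 (c z e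
 (c z e
 (c z e
 (c z e
 (c (a (nat_lit 0x16f1d3736cf226)) e
 (c (b (nat_lit 0xc533ffff101c4)) e
 (c z e
 (c z e
 (c z e
 (c z e
 (c (b (nat_lit 0x1ff3d0b0504fe3)) e e)))))))))))
 (c (a (nat_lit 0x4040404041))
 (c (a (nat_lit 0xf36ef6a69ea25))
 (c (a (nat_lit 0xfe8bdcf48ac0546)) e
 (c (a (nat_lit 0xf4ade74ac50007)) e e))
 (c (a (nat_lit 0x11afc6a5656525))
 (c (a (nat_lit 0x171a10752a000006)) e e)
 (c (a (nat_lit 0x18a542c2a1c924)) e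
 (c z e
 (c z e
 (c (a (nat_lit 0x807ca167bd866)) e
 (c z e
 (c z e
 (c (a (nat_lit 0x120e230303e5)) e
 (c (a (nat_lit 0x104c6181c14005)) e
 (c (a (nat_lit 0x1680e0a0000004)) e e)))))))))))
 (c (a (nat_lit 0x2020202021))
 (c (a (nat_lit 0x18a5c382e34603))
 (c z e
 (c (a (nat_lit 0x1f25600000000005)) e e))
 (c (a (nat_lit 0x1734d4951a36e4)) e
 (c z e
 (c (a (nat_lit 0x40a506dbb2124)) e
 (c (a (nat_lit 0x405a626517506)) e
 (c z e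
 (c z e
 (c (a (nat_lit 0x8d1a627064645)) e
 (c (b (nat_lit 0x11bfe7c6c00005)) e e)))))))))
 (c (nat_lit 1)
 (c (a (nat_lit 0xccced2e2d3346)) e
 (c (a (nat_lit 0x6f11410c300e5)) e
 (c z e
 (c z e
 (c z e
 (c z e
 (c (a (nat_lit 0x14d1baad042005)) e
 (c (a (nat_lit 0x790a1e0000005)) e e))))))))
 (c (a (nat_lit 0x101212120e1))
 (c (a (nat_lit 0xe8fcf414294e6)) e e)
 (c (a (nat_lit 0x2020203de5))
 (c z e
 (c (a (nat_lit 0x322c168ad14c8)) e e))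
 (c (a (nat_lit 0x20203ea785))
 (c (a (nat_lit 0x56829f2feef67)) e e)
 (c (b (nat_lit 0x20371fffe5)) e
 (c z e
 (c (a (nat_lit 0x1c05a1a02005)) e
 (c (a (nat_lit 0x17678100d623)) e
 (c (a (nat_lit 0x64040351123)) e
 (c (a (nat_lit 0x34f16f03)) e
 (c (a (nat_lit 0x14df7dbc7924)) e
 (c (a (nat_lit 0x1b17b56ef1c3)) e
 (c (a (nat_lit 0x197750f3c923)) e
 (c z e
 (c (a (nat_lit 0x135584a06002)) e
 (c (a (nat_lit 0x1685a0604002)) e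
 (c (a (nat_lit 0xb6040000001)) e e))))))))))))))))))))))))) Tr.c Tr.e (nat_lit 0) C.cx C.cy
noncomputable def C410 : Tr := beta% (fun (c : Nat → Tr → Tr → Tr) (e : Tr) (z : Nat) (a : Nat → Nat) =>
 (c z
 (c z e
 (c (a (nat_lit 0x5a230af264643c4))
 (c z e
 (c z e
 (c z e
 (c z e
 (c z e
 (c z e
 (c z e
 (c z e
 (c z e
 (c z e
 (c (a (nat_lit 0x102e5e1c275a9e487)) e e)))))))))))
 (c (a (nat_lit 0x4b3a22204a403))
 (c z e
 (c z e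
 (c z e
 (c z e
 (c z e
 (c z e
 (c (a (nat_lit 0x3c6a8844384839e46)) e
 (c (a (nat_lit 0x48786868324abd506)) e
 (c (a (nat_lit 0x243c321c233e7c387)) e e)))))))))
 (c (a (nat_lit 0x3c8d150e12040e2))
 (c z e
 (c z e
 (c z e
 (c z e
 (c z e
 (c (a (nat_lit 0xa4de76723c49d48a6)) e
 (c z e
 (c z e
 (c (a (nat_lit 0x723a33b26054b8727)) e e)))))))))
 (c (a (nat_lit 0x8cdcda5a525d143)) e
 (c z e
 (c z e
 (c z e
 (c z e
 (c z e
 (c z e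
 (c (a (nat_lit 0x13d4959573327225)) e
 (c z e
 (c (a (nat_lit 0x11702fefece86584)) e
 (c (a (nat_lit 0x13f39390c80aed04)) e
 (c (a (nat_lit 0x1494572eb2c907c3)) e e))))))))))))))))
 (c z
 (c (a (nat_lit 0x6f6b965c4c04084))
 (c z e
 (c z e
 (c z e
 (c z e
 (c (a (nat_lit 0x78dc9b0b33b8caf07)) e
 (c z e
 (c z e
 (c (a (nat_lit 0x7723aed038725a926)) e
 (c z e
 (c (a (nat_lit 0x7268482c433880607)) e e))))))))))
 (c (a (nat_lit 0x1399268664c50404))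
 (c z e
 (c z e
 (c z e
 (c z e
 (c z e
 (c z e
 (c (a (nat_lit 0x94e0a63a34592b0e8)) e e)))))))
 (c (a (nat_lit 0xec8e8e06060b1e5))
 (c z e
 (c z e
 (c z e
 (c z e
 (c z e
 (c (a (nat_lit 0x7c9a3a20453e8e5e8)) e e))))))
 (c z e
 (c (a (nat_lit 0x170123a11f8301e4))
 (c z e
 (c z e
 (c z e
 (c z e
 (c (a (nat_lit 0x88a6b53f208872c68)) e e)))))
 (c z e
 (c z e
 (c (a (nat_lit 0x33c768e8c86785))
 (c (a (nat_lit 0x14151eae864542c286)) e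
 (c (a (nat_lit 0x108f6942c2c5800007)) e e))
 (c (a (nat_lit 0x13662a8fceaf6024)) e
 (c z e
 (c (a (nat_lit 0x19fdfd79f2314165)) e
 (c z e
 (c (a (nat_lit 0x189612325083a425)) e
 (c z e
 (c z e
 (c z e
 (c (a (nat_lit 0x12924b2120a00004)) e
 (c (a (nat_lit 0x11aac08000000004)) e e))))))))))))))))))
 (c z
 (c (a (nat_lit 0xcc2826726e41544))
 (c z e
 (c z e
 (c z e
 (c z e
 (c z e
 (c (a (nat_lit 0x9a286606a5286f387)) e
 (c (a (nat_lit 0x406e263e216ae91a7)) e e)))))))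
 (c z e
 (c z e
 (c z e
 (c z e
 (c z e
 (c z e
 (c z e
 (c (a (nat_lit 0x7352b2ac2e0f3c4)) e
 (c (a (nat_lit 0x1ed93d1977a26345)) e e))))))))))
 (c z
 (c z e
 (c z e
 (c z e
 (c z e
 (c z e
 (c z e
 (c z e
 (c (a (nat_lit 0x1891ede6a6b29625)) e
 (c (a (nat_lit 0x19fa1474e3494e85)) e
 (c (a (nat_lit 0x1973b43613e03245)) e
 (c (a (nat_lit 0xb2d127ccae0e7e5)) e
 (c z e
 (c (a (nat_lit 0x629092668ab5c67)) e e)))))))))))))
 (c (a (nat_lit 0x202020203185))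
 (c z e
 (c (a (nat_lit 0x9c8cc05060494a6)) e
 (c z e
 (c z e
 (c z e
 (c (a (nat_lit 0x769c8ef50b7b326)) e
 (c (a (nat_lit 0xe14727f38b8dc6)) e
 (c z e
 (c z e
 (c (a (nat_lit 0x20623e562e05307)) e e))))))))))
 (c (a (nat_lit 0x202020324e05))
 (c (a (nat_lit 0x1c4806102b781e6))
 (c z e
 (c z e
 (c (a (nat_lit 0x176f3141cf2aa04f07)) e e)))
 (c z e
 (c z e
 (c z e
 (c (a (nat_lit 0x4f086aa4bb00a67)) e
 (c z e
 (c (a (nat_lit 0x7edc997afb8a906)) e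
 (c z e
 (c (a (nat_lit 0x9afed90f09b6de7)) e e)))))))))
 (c (a (nat_lit 0x2c2c2dc32d165))
 (c z e
 (c z e
 (c z e
 (c z e
 (c z e
 (c z e
 (c z e
 (c (a (nat_lit 0x8ef51b7dd309347)) e e))))))))
 (c (a (nat_lit 0x161714aeb44e6))
 (c z e
 (c z e
 (c (a (nat_lit 0x8a214ab6aea2c45)) e
 (c z e
 (c (a (nat_lit 0x60e58ba381b067)) e
 (c (a (nat_lit 0x5ec12ca0680f647)) e e))))))
 (c (a (nat_lit 0x5732e1123c3c4))
 (c (a (nat_lit 0x988fc934829eaa5)) e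
 (c (a (nat_lit 0x259754c27c68ec5)) e e))
 (c (a (nat_lit 0x1cc50f05a58ec3))
 (c (a (nat_lit 0x12d7771b12980024)) e
 (c z e
 (c z e
 (c z e
 (c (a (nat_lit 0xcd871d30c600007)) e e)))))
 (c (a (nat_lit 0x4016aaa5e5142)) e
 (c (a (nat_lit 0x17d9f9befdddc4)) e
 (c z e
 (c (a (nat_lit 0x86ded95db5925)) e
 (c z e
 (c z e
 (c (a (nat_lit 0x23148818766a3)) e
 (c (a (nat_lit 0x13096308c827a3)) e
 (c z e
 (c (a (nat_lit 0xbf83715d12862)) e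
 (c (a (nat_lit 0x1150f08fad8ea4)) e
 (c (a (nat_lit 0x12d12da544e002)) e
 (c (a (nat_lit 0x18f1c0e0000001)) e e)))))))))))))))))))))))) Tr.c Tr.e (nat_lit 0) C.cx
noncomputable def C411 : Tr := beta% (fun (c : Nat → Tr → Tr → Tr) (e : Tr) (z : Nat) (a b : Nat → Nat) =>
 (c (nat_lit 1)
 (c (a (nat_lit 0x2020202021)) C410
 (c (a (nat_lit 0xa0a0a0a0a1))
 (c z
 (c (a (nat_lit 0x13d72966c30383e4))
 (c z e
 (c z e
 (c z e
 (c z e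
 (c z e
 (c z e
 (c z e
 (c (a (nat_lit 0xd15ec01254443d826)) e
 (c (a (nat_lit 0x122ba721289d0791c6)) e
 (c z e
 (c z e
 (c z e
 (c (a (nat_lit 0x1ffb91718000000007)) e e)))))))))))))
 (c (a (nat_lit 0x18a60600e1a114c5))
 (c z e
 (c z e
 (c z e
 (c z e
 (c z e
 (c z e
 (c (a (nat_lit 0x1671e366aa5c16f068)) e e)))))))
 (c z e
 (c (a (nat_lit 0xe47a7e80f2bf146))
 (c z e
 (c (a (nat_lit 0xeefea10936a4967a9)) e
 (c z e
 (c z e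
 (c z e
 (c (a (nat_lit 0xba797acca2ae40708)) e e))))))
 (c (a (nat_lit 0x547c594a8898d25))
 (c (a (nat_lit 0x1e2a1415f0258b0267)) e e)
 (c z e
 (c z e
 (c (a (nat_lit 0xe488a102b86e0a5))
 (c (a (nat_lit 0x1f39cd2d05e5840006)) e e)
 (c (a (nat_lit 0x6ec97360e21a144)) e
 (c z e
 (c z e
 (c (a (nat_lit 0x1572d2324fa74146)) e
 (c (b (nat_lit 0x1895dc36949fffe5)) e
 (c z e
 (c z e
 (c (a (nat_lit 0x89b6c0b06a0e004)) e
 (c (a (nat_lit 0x1ef02f05c0000004)) e e)))))))))))))))))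
 (c z e
 (c (a (nat_lit 0x202020203ee6)) e
 (c (a (nat_lit 0x2020203ed186))
 (c z e
 (c (a (nat_lit 0x9cd0a4b4cf270c7))
 (c (a (nat_lit 0x1ffc3897544c0eaf69)) e
 (c z e
 (c z e
 (c z e
 (c (a (nat_lit 0x158aec0b28e0000008)) e e)))))
 (c z e
 (c z e
 (c z e
 (c (a (nat_lit 0x7c42dd175908ac7)) e
 (c (a (nat_lit 0x3ac6e934f4566a7)) e
 (c z e
 (c z e
 (c (a (nat_lit 0x4c2424445f52528)) e e))))))))))
 (c (a (nat_lit 0x2020344e6d87))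
 (c (a (nat_lit 0x680a0257c4991a6))
 (c (a (nat_lit 0x104a8ac6c322e608c8)) e
 (c z e
 (c z e
 (c (a (nat_lit 0xde78b0d520a000009)) e e))))
 (c z e
 (c z e
 (c z e
 (c (a (nat_lit 0xb26096c312685c8)) e
 (c z e
 (c z e
 (c z e
 (c (b (nat_lit 0xa3fe94b19bfffe8)) e e)))))))))
 (c (a (nat_lit 0x20368e6d8587))
 (c z e
 (c z e
 (c z e
 (c (a (nat_lit 0xc2bf0322dafdb47)) e e))))
 (c (a (nat_lit 0x23c0deee62627)) e
 (c (a (nat_lit 0x13c9aa402021e6))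
 (c (a (nat_lit 0x59b180fc32d6c66)) e
 (c (a (nat_lit 0x9f1eac1288b8107)) e e))
 (c (a (nat_lit 0x1ebd60c0900b23))
 (c (a (nat_lit 0x11cb69089102b826)) e
 (c z e
 (c z e
 (c z e
 (c (a (nat_lit 0x1f91f50f60000008)) e e)))))
 (c z e
 (c z e
 (c z e
 (c (a (nat_lit 0x909115effb7a6)) e
 (c z e
 (c z e
 (c (a (nat_lit 0x115bb5d4139284)) e
 (c (a (nat_lit 0x16f18fef6f63e4)) e
 (c (a (nat_lit 0x110f8f50058244)) e
 (c z e
 (c z e
 (c (a (nat_lit 0x1fabe840400003)) e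
 (c (a (nat_lit 0x14a88000000003)) e e))))))))))))))))))))))
 (c (a (nat_lit 0x4040404041))
 (c (a (nat_lit 0x202020203545))
 (c z e
 (c z e
 (c z e
 (c z e
 (c z e
 (c z e
 (c z e
 (c z e
 (c (a (nat_lit 0x3052443c683b726)) e e)))))))))
 (c (a (nat_lit 0x202020304927)) e
 (c (a (nat_lit 0x2020350d8d07)) e
 (c (a (nat_lit 0x2036ae2ce427)) e
 (c (a (nat_lit 0x2396c2c04e4e7)) e
 (c (a (nat_lit 0x1408c8a0202207)) e
 (c (a (nat_lit 0x1293c2c2d1b145)) e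
 (c (a (nat_lit 0x13a0403e39d284)) e e))))))))
 C409)))
 (c (nat_lit 1)
 (c (a (nat_lit 0x4040404041))
 (c z
 (c (a (nat_lit 0x16e7878565c64c43))
 (c z e
 (c z e
 (c z e
 (c z e
 (c z e
 (c z e
 (c z e
 (c (a (nat_lit 0xecda24784adff08a5)) e
 (c z e
 (c (a (nat_lit 0x1a16176e8c5432027)) e e))))))))))
 (c (a (nat_lit 0x8e8e3a424259ac5)) e
 (c z e
 (c (a (nat_lit 0x161e224b4951385))
 (c z e
 (c z e
 (c z e
 (c z e
 (c z e
 (c (a (nat_lit 0x2d6e3c684c4036208)) e e))))))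
 (c (a (nat_lit 0x5038237074a2865))
 (c z e
 (c z e
 (c z e
 (c (a (nat_lit 0xcf97ab20aacea5427)) e
 (c (a (nat_lit 0x15436a49a906442008)) e e)))))
 (c z e
 (c (a (nat_lit 0xb57ca4be4c080a5)) e
 (c (a (nat_lit 0x1fc94deda3a14164)) e
 (c (a (nat_lit 0x1396762d6ae8ce24)) e
 (c (a (nat_lit 0x1c7b7168a08bf323)) e
 (c (a (nat_lit 0x15f1f050c8e1cc85)) e
 (c (b (nat_lit 0x6a50a4d3ffff024)) e
 (c (a (nat_lit 0xf94fb562ba44d85)) e
 (c z e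
 (c (a (nat_lit 0x281c24281c1b308)) e e)))))))))))))))
 (c (a (nat_lit 0x202020203a66))
 (c (a (nat_lit 0x17ebac6c09971a65))
 (c (a (nat_lit 0xa49aaea4d150eaaa8)) e
 (c z e
 (c z e
 (c z e
 (c (a (nat_lit 0x1959f330d42acf2729)) e
 (c (a (nat_lit 0xcd1c8ab25872723a9)) e
 (c z e
 (c z e
 (c z e
 (c (a (nat_lit 0x1d70a9ece820000009)) e e))))))))))
 (c z e
 (c z e
 (c z e
 (c (a (nat_lit 0x240ac5a5227167))
 (c (a (nat_lit 0x1b597e95afedae31a9)) e e)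
 (c z e
 (c z e
 (c z e
 (c (a (nat_lit 0x16d650f04b57da26)) e
 (c (a (nat_lit 0x112dd0c9c90ee7a7)) e
 (c z e
 (c (a (nat_lit 0x9c86a89a1a4fca8)) e
 (c z e
 (c (a (nat_lit 0x6a6c4a6c698a009)) e
 (c (a (nat_lit 0x1d274ba080000006)) e e)))))))))))))))
 (c (a (nat_lit 0x2020203f3186)) e
 (c (a (nat_lit 0x1ab37347))
 (c z e
 (c (a (nat_lit 0x1e66629a8f0cf67))
 (c (a (nat_lit 0x1a79944e0bcbe9efa9)) e
 (c z e
 (c z e
 (c z e
 (c (a (nat_lit 0x18b16a4c2000000008)) e e)))))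
 (c z e
 (c z e
 (c z e
 (c (b (nat_lit 0x353b37cfe0b5fe6)) e
 (c z e
 (c z e
 (c z e
 (c (a (nat_lit 0x46024a732090568)) e e))))))))))
 (c (a (nat_lit 0x22232cfeee747))
 (c (a (nat_lit 0x4c367c869cb7366))
 (c (a (nat_lit 0x19bb676a4a8a993ac7)) e
 (c z e
 (c z e
 (c (a (nat_lit 0x6884870a700000009)) e
 (c (a (nat_lit 0x1513eea00000000008)) e e)))))
 (c z e
 (c z e
 (c (a (nat_lit 0x7cbd15b5e2b6907)) e
 (c (a (nat_lit 0xd71b83f714e6f07)) e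
 (c (b (nat_lit 0x60af69fe6e1eac7)) e
 (c z e
 (c (a (nat_lit 0x9e2898a670275a8)) e
 (c (b (nat_lit 0x14407d83fe78488)) e e)))))))))
 (c (a (nat_lit 0x237b2b207e747))
 (c (a (nat_lit 0x11d33bb7f5d7b7a7))
 (c (a (nat_lit 0x17b7d5716d6dc8a008)) e e)
 (c z e
 (c z e
 (c z e
 (c z e
 (c (a (nat_lit 0x7a5c4e7a7f3ec89)) e e))))))
 (c (a (nat_lit 0x122b0ca4a403a7)) e
 (c (a (nat_lit 0x102fa2e0430445))
 (c (a (nat_lit 0x1999d46612cb7746)) e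
 (c (a (nat_lit 0x120c23e9abbaefc7)) e
 (c z e
 (c z e
 (c z e
 (c (a (nat_lit 0x1bba2f4ce0000008)) e e))))))
 (c (a (nat_lit 0x12006086c541a4))
 (c (a (nat_lit 0x3a2012634e22887)) e
 (c z e
 (c z e
 (c (a (nat_lit 0x2904c0a42400009)) e
 (c (a (nat_lit 0x1eaaadc000000008)) e e)))))
 (c z e
 (c (a (nat_lit 0x5e7c827e991a6))
 (c (a (nat_lit 0x13abe70964600009)) e e)
 (c (a (nat_lit 0x404646d5572a6)) e
 (c (a (nat_lit 0x7c9cf73504e27)) e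
 (c z e
 (c (a (nat_lit 0x117574d4b3b287)) e
 (c (a (nat_lit 0x114c4c6c42e144)) e
 (c (a (nat_lit 0x17b8582eccd084)) e
 (c (a (nat_lit 0x10d0ac6b0d8c05)) e
 (c z e
 (c (a (nat_lit 0xb66f0ca404003)) e
 (c (a (nat_lit 0x105a29e0000003)) e
 (c (a (nat_lit 0x1ee00000000002)) e e))))))))))))))))))))))
 C408)
 (c (nat_lit 1) C407
 C406)))) Tr.c Tr.e (nat_lit 0) C.cx C.cy
noncomputable def C412 : Tr := beta% (fun (c : Nat → Tr → Tr → Tr) (e : Tr) (z : Nat) (a b : Nat → Nat) =>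
 (c (nat_lit 1)
 (c (a (nat_lit 0x2020202021))
 (c (a (nat_lit 0x17876103420023))
 (c (a (nat_lit 0x9bf35e98a010ae5)) e
 (c (a (nat_lit 0x1313406dff035426)) e e))
 (c z e
 (c z e
 (c z e
 (c z e
 (c (a (nat_lit 0x9c54f1161e246)) e
 (c (a (nat_lit 0x155e9d00624e46)) e
 (c (a (nat_lit 0x1edced80902526)) e e))))))))
 (c (a (nat_lit 0x2020203068)) e
 (c (a (nat_lit 0x20203d0907)) e
 (c (a (nat_lit 0x203a69a5e7)) e
 (c z e
 (c (a (nat_lit 0x1a25c3602007)) e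
 (c (a (nat_lit 0x126900203125))
 (c (a (nat_lit 0x54e5393830127)) e
 (c (a (nat_lit 0x571d1c5400009)) e e))
 (c (a (nat_lit 0xb0020313005))
 (c (a (nat_lit 0x134da240000008)) e e)
 (c z e
 (c z e
 (c z e
 (c z e
 (c (b (nat_lit 0x5e0719fe004)) e
 (c (a (nat_lit 0x2d3e0608204)) e
 (c (a (nat_lit 0x14a04062c9c4)) e
 (c (a (nat_lit 0xf8fb0344005)) e e))))))))))))))))
 (c (nat_lit 1)
 (c (a (nat_lit 0x2020304507)) e
 (c (a (nat_lit 0x3325a3c8)) e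
 (c (a (nat_lit 0x1ea9086367)) e
 (c (a (nat_lit 0x108403610108)) e
 (c (a (nat_lit 0xdabc0203465)) e
 (c (a (nat_lit 0xce020349425)) e
 (c z e
 (c z e
 (c z e
 (c z e
 (c (b (nat_lit 0x4817fffe001)) e
 (c (a (nat_lit 0x1601a182e082)) e
 (c (a (nat_lit 0x60604030c4)) e
 (c (a (nat_lit 0xa8aaab2f125)) e e))))))))))))))
 (c (a (nat_lit 0x20202021))
 (c (a (nat_lit 0x498ec88a126))
 (c (a (nat_lit 0xa103749094325)) e
 (c z e
 (c z e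
 (c z e
 (c (b (nat_lit 0x10c3bfe3b7ec46)) e e)))))
 (c (a (nat_lit 0x12a866202007)) e
 (c (a (nat_lit 0x188d00203c05)) e
 (c (a (nat_lit 0xe00203cd745)) e
 (c z e
 (c z e
 (c z e
 (c z e
 (c (b (nat_lit 0x7ff3402004)) e
 (c (b (nat_lit 0x1ff501208664)) e
 (c (a (nat_lit 0x1441e125cdc4)) e
 (c (a (nat_lit 0x6050a11f104)) e
 (c z e
 (c z e
 (c (a (nat_lit 0x1c13c0c00002)) e
 (c (a (nat_lit 0x13e000000002)) e e))))))))))))))))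
 (c (a (nat_lit 0x20202021))
 (c (a (nat_lit 0x929e0203045))
 (c (a (nat_lit 0x74aec266653a5)) e
 (c (b (nat_lit 0x46888a3b33fe7)) e e))
 (c (a (nat_lit 0x5e02030ebc6))
 (c (a (nat_lit 0x7c9e2fa89fda7)) e e)
 (c z e
 (c z e
 (c z e
 (c z e
 (c (a (nat_lit 0x183cff346c86)) e
 (c (a (nat_lit 0xcb520608364)) e
 (c (a (nat_lit 0x1540406350c4)) e
 (c (a (nat_lit 0x8e86bf98e24)) e
 (c z e
 (c z e
 (c (a (nat_lit 0x15c040c04003)) e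
 (c (a (nat_lit 0x160000001)) e e))))))))))))))
 (c (a (nat_lit 0x60606061))
 (c (a (nat_lit 0x22518a6005))
 (c (a (nat_lit 0x7c1f6da264026)) e e)
 (c z e
 (c z e
 (c z e
 (c z e
 (c (a (nat_lit 0x1473268bccc6)) e
 (c (a (nat_lit 0x16e06044d124)) e
 (c (a (nat_lit 0x11f194128e25)) e
 (c z e
 (c z e
 (c (a (nat_lit 0x162560404023)) e
 (c (a (nat_lit 0x1780e0a00001)) e
 (c (a (nat_lit 0x2000000001)) e e)))))))))))))
 (c (a (nat_lit 0x20404041))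
 (c z e
 (c z e
 (c z e
 (c z e
 (c z e
 (c (a (nat_lit 0x119193521ba5)) e
 (c z e
 (c z e
 (c (a (nat_lit 0x14cd25c20a64)) e
 (c (a (nat_lit 0x106160c04002)) e
 (c (a (nat_lit 0x24060000001)) e e)))))))))))
 (c (a (nat_lit 0xa0a0a0a1))
 (c (a (nat_lit 0x18aa76e482c5)) e
 (c (a (nat_lit 0xf34ce4e2ca7)) e
 (c z e
 (c z e
 (c z e
 (c z e
 (c (a (nat_lit 0x130aa04045c4)) e
 (c (a (nat_lit 0x1340c0a08002)) e
 (c (a (nat_lit 0xc100600001)) e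
 (c (a (nat_lit 0x6000000001)) e e))))))))))
 (c (a (nat_lit 0x40404041))
 (c (a (nat_lit 0x1290f0f164e6)) e
 (c z e
 (c z e
 (c z e
 (c (a (nat_lit 0x130a80407ae4)) e
 (c (a (nat_lit 0x80c080c081)) e
 (c (a (nat_lit 0x8080a0a001)) e
 (c (a (nat_lit 0x4060000001)) e e))))))))
 (c (nat_lit 1)
 (c z e
 (c z e
 (c (a (nat_lit 0x9c580203045)) e
 (c (a (nat_lit 0xc0c0204001)) e
 (c (a (nat_lit 0x22180806001)) e
 (c (a (nat_lit 0x24160400001)) e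
 (c (a (nat_lit 0x12000000001)) e e)))))))
 (c (a (nat_lit 0x40402021))
 (c (a (nat_lit 0x583404030a5)) e
 (c (a (nat_lit 0xc121208421)) e
 (c (a (nat_lit 0x261a1080241)) e
 (c (a (nat_lit 0x1e180440001)) e
 (c (a (nat_lit 0x20060000001)) e e)))))
 (c (a (nat_lit 0x60606061))
 (c (a (nat_lit 0x80808080a1)) e
 (c (a (nat_lit 0x80a0a0c041)) e
 (c (a (nat_lit 0xe0e0800001)) e
 (c (a (nat_lit 0x8000000001)) e e))))
 (c (nat_lit 1)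
 (c (a (nat_lit 0x2020200001)) e
 (c (a (nat_lit 0x8040000001)) e e))
 (c (a (nat_lit 0x40404061))
 (c (a (nat_lit 0x2000000001)) e e)
 (c (a (nat_lit 0x40404041)) e
 (c (a (nat_lit 0x40404041)) e
 (c (a (nat_lit 0x202031a6)) e
 (c (a (nat_lit 0x2031a7a6)) e
 (c (a (nat_lit 0x2d44a44e6)) e
 (c z e
 (c (a (nat_lit 0x1207222225)) e
 (c (a (nat_lit 0xa20403f44)) e
 (c (a (nat_lit 0x607f7e44)) e e))))))))))))))))))))))) Tr.c Tr.e (nat_lit 0) C.cx C.cy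
noncomputable def C413 : Tr := beta% (fun (c : Nat → Tr → Tr → Tr) (e : Tr) (z : Nat) (a b : Nat → Nat) =>
 (c (nat_lit 1)
 (c (a (nat_lit 0x4040404041))
 (c (a (nat_lit 0x2020203669e5))
 (c z e
 (c z e
 (c z e
 (c z e
 (c z e
 (c z e
 (c z e
 (c z e
 (c z e
 (c z e
 (c (a (nat_lit 0x1e17d0975d6dcfe5)) e e)))))))))))
 (c (a (nat_lit 0x20378f8e67)) e
 (c (a (nat_lit 0x20352c4aa687)) e
 (c (a (nat_lit 0x2380fd0698887)) e
 (c (a (nat_lit 0x18e6c940202086)) e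
 (c (a (nat_lit 0xa3140402546a4)) e
 (c (a (nat_lit 0x12a9090fce2385))
 (c (a (nat_lit 0xd6d8b6c548aa787)) e e) e)))))))
 (c (a (nat_lit 0x4040404021))
 (c (a (nat_lit 0x2039528ee467)) e
 (c (a (nat_lit 0x219b22e084848)) e
 (c (a (nat_lit 0x122b0921002048)) e
 (c (a (nat_lit 0x1313a06043a225)) e e))))
 (c (a (nat_lit 0x20200001))
 (c (a (nat_lit 0x126a2523030027)) e
 (c (a (nat_lit 0x1856af8ba50546)) e
 (c (a (nat_lit 0x116e30cb6b87c7)) e e)))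
 (c (a (nat_lit 0x6060606061)) e
 (c (a (nat_lit 0x4040404041)) e
 (c (a (nat_lit 0x4040202021)) e
 (c (a (nat_lit 0xe0e0e0e0e1)) e
 (c (a (nat_lit 0x2020204041))
 (c z e
 (c z e
 (c z e
 (c z e
 (c z e
 (c z e
 (c z e
 (c (a (nat_lit 0x133d9829c98006)) e
 (c (a (nat_lit 0x132de040000006)) e e)))))))))
 (c (a (nat_lit 0x2020202021))
 (c z e
 (c z e
 (c z e
 (c z e
 (c z e
 (c z e
 (c (a (nat_lit 0xfbe9ea7400006)) e
 (c (a (nat_lit 0x178bc000000007)) e e))))))))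
 (c (a (nat_lit 0x2020203926)) e
 (c (a (nat_lit 0x202039a646)) e
 (c (a (nat_lit 0x203c082026)) e
 (c z e
 (c (a (nat_lit 0x1b0804e02006)) e
 (c (a (nat_lit 0xa8420203225)) e
 (c (a (nat_lit 0x480607292a5)) e e))))))))))))))))
 (c (a (nat_lit 0x60606061))
 (c (a (nat_lit 0x202021))
 (c (a (nat_lit 0x1714d89642426))
 (c z e
 (c z e
 (c z e
 (c z e
 (c z e
 (c z e
 (c z e
 (c (a (nat_lit 0x9a9434aaba09067)) e
 (c z e
 (c (b (nat_lit 0x45853fe324b1e7)) e e))))))))))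
 (c (a (nat_lit 0x10eaa3e0202187)) e
 (c (a (nat_lit 0x10ee64202a05c5)) e e)))
 (c (a (nat_lit 0x4040404041))
 (c (a (nat_lit 0x1391d05050e006)) e e)
 (c (a (nat_lit 0x4040402021)) e
 (c (a (nat_lit 0x202001)) e
 (c (a (nat_lit 0x2020202021)) e
 (c (a (nat_lit 0x4040404041)) e
 (c (a (nat_lit 0x2020202021)) e
 (c (a (nat_lit 0x20202033e7))
 (c z e
 (c z e
 (c z e
 (c z e
 (c z e
 (c z e
 (c (a (nat_lit 0x13f20060000006)) e e)))))))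
 (c (a (nat_lit 0x203682a7))
 (c z e
 (c z e
 (c z e
 (c z e
 (c z e
 (c (a (nat_lit 0x1f522000000006)) e e))))))
 (c (a (nat_lit 0x203f2ec106)) e
 (c (b (nat_lit 0x1f0c9603fe7)) e
 (c (a (nat_lit 0x104962c02007)) e
 (c (a (nat_lit 0xaa540203126)) e
 (c (a (nat_lit 0x820203d5ac5)) e e))))))))))))))
 (c (a (nat_lit 0x20202021))
 (c (a (nat_lit 0x2020202021))
 (c (a (nat_lit 0x707718242eec4))
 (c z e
 (c z e
 (c z e
 (c z e
 (c (b (nat_lit 0x341e0bfe11b8b68)) e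
 (c (a (nat_lit 0xb87a0a41af6e6c7)) e
 (c (a (nat_lit 0x680848c3b91ee47)) e
 (c (b (nat_lit 0x2e8fb1e7fe140e7)) e e))))))))
 (c z e
 (c z e
 (c z e
 (c z e
 (c z e
 (c z e
 (c z e
 (c z e
 (c z e
 (c z e
 (c (a (nat_lit 0x1954116dc8c7e7)) e
 (c (a (nat_lit 0x9a1e6f04e62c6)) e e)))))))))))))
 (c (a (nat_lit 0x8080808081)) e
 (c (a (nat_lit 0x2020202021)) e
 (c (a (nat_lit 0x2020202021)) e
 (c (a (nat_lit 0x2021)) e
 (c (a (nat_lit 0x20203327))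
 (c (a (nat_lit 0xb700c0084e025)) e
 (c (b (nat_lit 0x128ca48affe546)) e e))
 (c (a (nat_lit 0x202019e607))
 (c (a (nat_lit 0xc27282be4b0a6)) e
 (c z e
 (c z e
 (c z e
 (c z e
 (c z e
 (c (a (nat_lit 0x19850000000006)) e e)))))))
 (c (a (nat_lit 0x3f8a2307))
 (c z e
 (c z e
 (c z e
 (c z e
 (c z e
 (c (a (nat_lit 0x1d200000000006)) e e))))))
 (c z e
 (c (a (nat_lit 0x152ca2602027))
 (c (b (nat_lit 0x71fffff830007)) e e)
 (c (a (nat_lit 0x1c8960203f04)) e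
 (c (a (nat_lit 0x8a0205f5fe4)) e
 (c (a (nat_lit 0x9898ecedaa5)) e
 (c z e
 (c z e
 (c z e
 (c (a (nat_lit 0x13a56f01e2c5)) e
 (c (a (nat_lit 0x2ac402036c5)) e e))))))))))))))))))
 (c (nat_lit 1)
 (c (a (nat_lit 0x2020202021))
 (c z e
 (c z e
 (c z e
 (c z e
 (c z e
 (c z e
 (c z e
 (c (b (nat_lit 0x11909abfe185a6)) e
 (c (a (nat_lit 0x147db5508029e6)) e e)))))))))
 (c (a (nat_lit 0x2020202021))
 (c z e
 (c z e
 (c z e
 (c z e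
 (c z e
 (c z e
 (c z e
 (c (a (nat_lit 0x18759225896b68)) e e))))))))
 (c (a (nat_lit 0x4040404041)) e
 (c (a (nat_lit 0x20202039a7)) e
 (c (a (nat_lit 0x20203427e7))
 (c (a (nat_lit 0x1230065a37265)) e
 (c (a (nat_lit 0x969ce4cab3227)) e e))
 (c (a (nat_lit 0x20306785e8))
 (c (a (nat_lit 0x222991c3a7566)) e e)
 (c (a (nat_lit 0x30e6a56208)) e
 (c (a (nat_lit 0x15ed2a02e0e7))
 (c (a (nat_lit 0x6487374aa0b48)) e
 (c (a (nat_lit 0x96fd753a76009)) e e))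
 (c (a (nat_lit 0x1db467e02fa5))
 (c (a (nat_lit 0xabd9c06200007)) e e)
 (c (a (nat_lit 0xbc0202fb7c5)) e
 (c z e
 (c z e
 (c z e
 (c z e
 (c (a (nat_lit 0x12a288a02005)) e
 (c (a (nat_lit 0x5f200202024)) e
 (c (a (nat_lit 0x12e080610144)) e
 (c (a (nat_lit 0x3e3a5e71a02)) e e))))))))))))))))))
 C412))))) Tr.c Tr.e (nat_lit 0) C.cx C.cy
noncomputable def C414 : Tr := beta% (fun (c : Nat → Tr → Tr → Tr) (e : Tr) (z : Nat) (a b : Nat → Nat) =>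
 (c (nat_lit 1)
 (c z
 (c (a (nat_lit 0x1597656022620ea3))
 (c z e
 (c z e
 (c z e
 (c z e
 (c z e
 (c z e
 (c z e
 (c z e
 (c (a (nat_lit 0x5a46363241ca96ca6)) e e)))))))))
 (c (a (nat_lit 0x10c282a06068aaa5))
 (c z e
 (c z e
 (c z e
 (c z e
 (c z e
 (c z e
 (c z e
 (c (a (nat_lit 0x58423e33083840529)) e
 (c (a (nat_lit 0x383e1b0826404a409)) e e)))))))))
 (c z e
 (c z e
 (c z e
 (c z e
 (c z e
 (c z e
 (c (a (nat_lit 0x1a48e665828300a5)) e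
 (c (a (nat_lit 0x12eeee0a49a2c684)) e
 (c (a (nat_lit 0x10b3d14d4ba10005)) e
 (c (a (nat_lit 0x122cefcf2f610005)) e
 (c (a (nat_lit 0x14f7b8f4ef444025)) e
 (c (b (nat_lit 0xbd13a1ff6cb8285)) e e))))))))))))))
 (c z
 (c z e
 (c z e
 (c z e
 (c z e
 (c z e
 (c z e
 (c z e
 (c z e
 (c z e
 (c z e
 (c z e
 (c (a (nat_lit 0xcabb1aeed404e87)) e e))))))))))))
 (c (a (nat_lit 0x202020203f86))
 (c z e
 (c z e
 (c z e
 (c z e
 (c z e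
 (c z e
 (c z e
 (c (a (nat_lit 0xc73e28263818808)) e e))))))))
 (c (a (nat_lit 0x20202032c887))
 (c z e
 (c z e
 (c z e
 (c z e
 (c z e
 (c z e
 (c (a (nat_lit 0x1a72e7c7921ae0c6)) e e)))))))
 (c (a (nat_lit 0x2020382eaf47))
 (c z e
 (c z e
 (c z e
 (c z e
 (c z e
 (c (a (nat_lit 0x3a6ab5dda555226)) e e))))))
 (c (a (nat_lit 0x203850106567)) e
 (c (a (nat_lit 0x21c09cce463c7)) e
 (c (a (nat_lit 0x19cfaec2e1a5c6)) e
 (c (a (nat_lit 0x115362e06ba9e5))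
 (c (a (nat_lit 0x7288566a938e9e7)) e e)
 (c (a (nat_lit 0xd00818c68b9a5)) e
 (c z e
 (c z e
 (c z e
 (c z e
 (c z e
 (c z e
 (c (a (nat_lit 0x158b688805e586)) e
 (c (a (nat_lit 0x182c6aa2420484)) e e))))))))))))))))))
 (c (a (nat_lit 0x2020200001))
 (c (a (nat_lit 0x202020203267))
 (c z e
 (c z e
 (c z e
 (c z e
 (c z e
 (c z e
 (c z e
 (c z e
 (c (a (nat_lit 0xc3893914a7726)) e e)))))))))
 (c (a (nat_lit 0x202020314848)) e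
 (c (a (nat_lit 0x20203b504ec8)) e
 (c (a (nat_lit 0x203a6e8f4768)) e
 (c z e
 (c (a (nat_lit 0x12840580202048)) e
 (c (a (nat_lit 0x1b58a0608ae6e5)) e e)))))))
 (c (a (nat_lit 0x2020202021))
 (c (a (nat_lit 0x20203c94f147))
 (c z e
 (c z e
 (c z e
 (c z e
 (c z e
 (c z e
 (c (a (nat_lit 0x19b5167c5291eca7)) e e)))))))
 (c (a (nat_lit 0x203f14f0a6c8)) e
 (c (a (nat_lit 0x21e9311676668)) e
 (c (a (nat_lit 0x144bc9802020c8)) e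
 (c (a (nat_lit 0x14bc40604e0ba5)) e e)))))
 (c (a (nat_lit 0x40200001))
 (c (a (nat_lit 0x21fb692092847)) e
 (c (a (nat_lit 0x184face4c34008)) e
 (c (a (nat_lit 0x1a384eed0320a6)) e e)))
 (c (a (nat_lit 0x2020202021))
 (c (a (nat_lit 0x1ab9f2ef288606)) e e)
 (c (a (nat_lit 0x2020202021)) e
 (c (nat_lit 1) e
 (c (nat_lit 1)
 (c z e
 (c z e
 (c z e
 (c z e
 (c z e
 (c z e
 (c z e
 (c z e
 (c z e
 (c (b (nat_lit 0x1ff227a684e006)) e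
 (c (a (nat_lit 0x15606020000005)) e e)))))))))))
 (c (a (nat_lit 0x4040204041))
 (c z e
 (c z e
 (c z e
 (c z e
 (c z e
 (c z e
 (c z e
 (c (a (nat_lit 0x42d768728c506)) e
 (c (a (nat_lit 0xa334444000006)) e
 (c (a (nat_lit 0x1f406000000005)) e e))))))))))
 (c (nat_lit 1)
 (c z e
 (c z e
 (c z e
 (c z e
 (c z e
 (c z e
 (c (a (nat_lit 0xfad145667a006)) e
 (c (a (nat_lit 0x145b6ec0000006)) e e))))))))
 (c (a (nat_lit 0x60604001)) e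
 (c (a (nat_lit 0x2020003f66)) e
 (c (a (nat_lit 0x20300467))
 (c (a (nat_lit 0x32349b6a75148)) e e)
 (c (a (nat_lit 0x203982c026)) e
 (c (b (nat_lit 0x17413fffe6)) e
 (c (a (nat_lit 0x1de7c4602006)) e
 (c (a (nat_lit 0x1cef40403d84)) e
 (c (a (nat_lit 0xf60203dfd04)) e
 (c z e
 (c z e
 (c z e
 (c z e
 (c z e
 (c z e
 (c (a (nat_lit 0x15c4e0202006)) e
 (c (a (nat_lit 0x12e020000004)) e e))))))))))))))))))))))))))) Tr.c Tr.e (nat_lit 0) C.cx C.cy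
noncomputable def C415 : Tr := beta% (fun (c : Nat → Tr → Tr → Tr) (e : Tr) (z : Nat) (a b : Nat → Nat) =>
 (c (nat_lit 1)
 (c z
 (c (a (nat_lit 0xdf71ba2e0404065))
 (c z e
 (c z e
 (c z e
 (c z e
 (c z e
 (c z e
 (c z e
 (c (a (nat_lit 0x8d4f629488a2a1027)) e
 (c (a (nat_lit 0x4a8434100635e4888)) e e)))))))))
 (c (a (nat_lit 0x16d083a260a16c66)) e
 (c (a (nat_lit 0x1fab2b45e5da85c5)) e
 (c z e
 (c z e
 (c z e
 (c z e
 (c z e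
 (c z e
 (c z e
 (c z e
 (c (a (nat_lit 0x12f876f78a130026)) e
 (c z e
 (c z e
 (c z e
 (c z e
 (c (a (nat_lit 0x12f6e4c3a4800006)) e e)))))))))))))))))
 (c z e
 (c z
 (c z e
 (c z e
 (c z e
 (c z e
 (c z e
 (c z e
 (c z e
 (c z e
 (c (a (nat_lit 0x7102e6cc6e0afc8)) e e)))))))))
 (c (a (nat_lit 0x202020203688)) e
 (c (a (nat_lit 0x20202036ec08)) e
 (c (a (nat_lit 0x20203ef03008))
 (c z e
 (c z e
 (c z e
 (c (a (nat_lit 0x14743fbb31500ee7)) e e))))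
 (c (a (nat_lit 0x2030a6672249)) e
 (c (a (nat_lit 0x212a949c1e1e8)) e
 (c (a (nat_lit 0x1deb6d61818667)) e e)))))))))
 (c (a (nat_lit 0x4040404041))
 (c z
 (c z e
 (c z e
 (c z e
 (c z e
 (c z e
 (c z e
 (c z e
 (c z e
 (c (a (nat_lit 0x6004e8c47d1ca06)) e
 (c (a (nat_lit 0xa7af80d4c206d26)) e e))))))))))
 (c (a (nat_lit 0x808080809348))
 (c z e
 (c z e
 (c z e
 (c z e
 (c z e
 (c z e
 (c z e
 (c (b (nat_lit 0xd8f063fe511ab86)) e e))))))))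
 (c (a (nat_lit 0x20202035aa68)) e
 (c (a (nat_lit 0x20203db150c8)) e
 (c (a (nat_lit 0x203ccbcb2388)) e
 (c (a (nat_lit 0x23dcecf85c5c8)) e
 (c (a (nat_lit 0x11a7a7802023a8)) e
 (c (a (nat_lit 0x13334020311006)) e e))))))))
 (c (a (nat_lit 0x2020202021))
 (c (a (nat_lit 0x20202034ea87)) e
 (c (a (nat_lit 0x2030a98749)) e
 (c (a (nat_lit 0x2030892802c9)) e
 (c z e
 (c (a (nat_lit 0x1a6b09a0202168)) e
 (c (a (nat_lit 0x16b560402c08e6)) e e))))))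
 (c (nat_lit 1)
 (c (a (nat_lit 0x121308aa80428)) e
 (c z e
 (c (a (nat_lit 0x178d6aa3030028)) e
 (c (a (nat_lit 0x1a9c898962a126)) e e))))
 (c (nat_lit 1)
 (c (a (nat_lit 0x175251e5232047)) e
 (c z e
 (c z e
 (c z e
 (c z e
 (c z e
 (c z e
 (c z e
 (c (a (nat_lit 0x12512babca6ae7)) e e)))))))))
 (c (a (nat_lit 0x4040404041))
 (c z e
 (c z e
 (c z e
 (c z e
 (c z e
 (c z e
 (c (a (nat_lit 0xd8d0787d2af66)) e
 (c (a (nat_lit 0x1054f6360706a7)) e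
 (c z e
 (c z e
 (c z e
 (c z e
 (c (a (nat_lit 0x1f108b2b0c4c05)) e
 (c (a (nat_lit 0x1802c121400003)) e e))))))))))))))
 (c (a (nat_lit 0x2020202021))
 (c z e
 (c z e
 (c z e
 (c z e
 (c z e
 (c z e
 (c z e
 (c z e
 (c z e
 (c z e
 (c z e
 (c (a (nat_lit 0x1d92e8e6e4005)) e
 (c (a (nat_lit 0x15606080000004)) e e)))))))))))))
 (c (a (nat_lit 0x4040404041))
 (c z e
 (c z e
 (c z e
 (c z e
 (c z e
 (c z e
 (c z e
 (c z e
 (c z e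
 (c (a (nat_lit 0xb7475b5b59505)) e
 (c (a (nat_lit 0x315307400001)) e e)))))))))))
 (c (a (nat_lit 0x2020202021))
 (c (a (nat_lit 0x11ca45c5250526))
 (c (a (nat_lit 0xb5c4b2fe6800006)) e
 (c (a (nat_lit 0x166a844000000007)) e e))
 (c (a (nat_lit 0x15e200e120e185))
 (c (a (nat_lit 0x18a0200000000005)) e e)
 (c z e
 (c z e
 (c z e
 (c z e
 (c z e
 (c z e
 (c (a (nat_lit 0xaea0c90212005)) e e)))))))))
 (c (nat_lit 1)
 (c (a (nat_lit 0x11b151d1933ec5)) e e)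
 (c (a (nat_lit 0xa0c0c0c081)) e
 (c (a (nat_lit 0x4040404041))
 (c z e
 (c (a (nat_lit 0x547c44105ddc8)) e e))
 (c (a (nat_lit 0x20202038c7))
 (c (a (nat_lit 0x3e4a649f43a88)) e e)
 (c (a (nat_lit 0x2020350447)) e
 (c (a (nat_lit 0x344381e7)) e
 (c z e
 (c (a (nat_lit 0x172644a04047)) e
 (c (a (nat_lit 0x187200203185)) e
 (c (a (nat_lit 0x11e0203191c5)) e
 (c (a (nat_lit 0x9493a5b1da5)) e
 (c z e
 (c z e
 (c z e
 (c z e
 (c (b (nat_lit 0xe541fe04024)) e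
 (c (a (nat_lit 0x13e040200004)) e
 (c (nat_lit 1) e e)))))))))))))))))))))))))))) Tr.c Tr.e (nat_lit 0) C.cx C.cy
noncomputable def C416 : Tr := beta% (fun (c : Nat → Tr → Tr → Tr) (e : Tr) (z : Nat) (a b : Nat → Nat) =>
 (c (a (nat_lit 0x2020202021))
 (c (a (nat_lit 0x4040502a64a7))
 (c (a (nat_lit 0x1a7373f718d19445)) e
 (c z e
 (c z e
 (c z e
 (c z e
 (c z e
 (c z e
 (c z e
 (c z e
 (c z e
 (c z e
 (c z e
 (c (a (nat_lit 0x1491800000000005)) e e)))))))))))))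
 (c (a (nat_lit 0x203e963007e7)) e
 (c (a (nat_lit 0x23e536d686867)) e
 (c (a (nat_lit 0x1a4d6842222047)) e
 (c (a (nat_lit 0x114e67c7c764c6)) e
 (c z e
 (c z e
 (c z e
 (c z e
 (c z e
 (c z e
 (c z e
 (c (a (nat_lit 0x44221920903a5)) e
 (c z e
 (c z e
 (c z e
 (c (a (nat_lit 0x16f18eb02ea005)) e
 (c (a (nat_lit 0x116605e0000003)) e e))))))))))))))))))
 (c (a (nat_lit 0x4040404041))
 (c (a (nat_lit 0x15f9938ab0726)) e
 (c (a (nat_lit 0x1ad534ca686607))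
 (c (a (nat_lit 0x36642c1c0693408)) e
 (c z e
 (c z e
 (c z e
 (c z e
 (c z e
 (c (a (nat_lit 0x19550e49af396aa8)) e
 (c (a (nat_lit 0x184cad8d2be00008)) e e))))))))
 (c (a (nat_lit 0x1132486480c2a6)) e
 (c z e
 (c z e
 (c z e
 (c z e
 (c (a (nat_lit 0xb44963e08006)) e
 (c (a (nat_lit 0x1f74ef0a89c8c6)) e
 (c z e
 (c z e
 (c z e
 (c z e
 (c z e
 (c (a (nat_lit 0x12b31212f2d285)) e
 (c (a (nat_lit 0x140181a0800001)) e e))))))))))))))))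
 (c (a (nat_lit 0x4040404041))
 (c (a (nat_lit 0x1c9ac969406004))
 (c (a (nat_lit 0x3a1c0c062b6b206)) e
 (c z e
 (c z e
 (c z e
 (c z e
 (c z e
 (c (a (nat_lit 0xe121296bbcb2007)) e
 (c (a (nat_lit 0x12bed68980000007)) e e))))))))
 (c z e
 (c z e
 (c z e
 (c z e
 (c z e
 (c (a (nat_lit 0x176ee681808745)) e
 (c (a (nat_lit 0x15106f2f376846)) e
 (c z e
 (c z e
 (c z e
 (c z e
 (c (a (nat_lit 0x13d09230aecee6)) e
 (c (a (nat_lit 0xab0ca40c10004)) e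
 (c (a (nat_lit 0x1fd2c020000003)) e
 (c (a (nat_lit 0x13200000000003)) e e))))))))))))))))
 (c (a (nat_lit 0x4040404041))
 (c (b (nat_lit 0x13335ffffff825)) e
 (c z e
 (c z e
 (c z e
 (c z e
 (c z e
 (c z e
 (c z e
 (c z e
 (c z e
 (c z e
 (c (a (nat_lit 0x11f2d2f31372a4)) e e))))))))))))
 (c (a (nat_lit 0x4040404041))
 (c z e
 (c z e
 (c z e
 (c z e
 (c z e
 (c z e
 (c z e
 (c z e
 (c z e
 (c z e
 (c (a (nat_lit 0x4620d118da003)) e e)))))))))))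
 (c (a (nat_lit 0x2020202021))
 (c (a (nat_lit 0x3584724a48445))
 (c (a (nat_lit 0x2791840a232006)) e
 (c (a (nat_lit 0x1c9384c5c0000007)) e e))
 (c (a (nat_lit 0x17830040202146))
 (c (a (nat_lit 0x1ac584c000000006)) e e) e))
 (c (nat_lit 1)
 (c (a (nat_lit 0x19c10102a98382)) e
 (c z e
 (c z e
 (c z e
 (c z e
 (c z e
 (c (a (nat_lit 0x44aa966d70f24)) e e)))))))
 (c (a (nat_lit 0x20202001))
 (c z e
 (c z e
 (c z e
 (c z e
 (c z e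
 (c (a (nat_lit 0x928b30dcd6c45)) e e))))))
 (c (a (nat_lit 0x2001))
 (c (a (nat_lit 0xff29514a0e005)) e
 (c (a (nat_lit 0x7c9e9c2e25027)) e e))
 (c (a (nat_lit 0x202001))
 (c (a (nat_lit 0xe36444281367)) e e)
 (c (a (nat_lit 0x2020203a45))
 (c z e
 (c z e
 (c (a (nat_lit 0x16fef800000006)) e
 (c (a (nat_lit 0x1be00000000004)) e e))))
 (c (a (nat_lit 0x38c1a5))
 (c (a (nat_lit 0xd8d902d000008)) e
 (c (a (nat_lit 0x10edc000000006)) e e))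
 (c (a (nat_lit 0x203fa8e5a5)) e
 (c (b (nat_lit 0x1f28451fe5)) e
 (c (a (nat_lit 0x1f0845002005)) e
 (c (a (nat_lit 0x10aa20203484)) e
 (c (a (nat_lit 0xa402034d384)) e
 (c (a (nat_lit 0x808aca5de5)) e
 (c z e
 (c z e
 (c z e
 (c (b (nat_lit 0x1dffe3c02025)) e
 (c (b (nat_lit 0x1ffd20606002)) e
 (c (a (nat_lit 0x1c6040000002)) e e))))))))))))))))))))))))) Tr.c Tr.e (nat_lit 0) C.cx C.cy
noncomputable def C417 : Tr := beta% (fun (c : Nat → Tr → Tr → Tr) (e : Tr) (z : Nat) (a b : Nat → Nat) =>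
 (c (nat_lit 1)
 (c z
 (c (a (nat_lit 0x12b2b2b2bf2a81e3))
 (c z e
 (c z e
 (c z e
 (c z e
 (c z e
 (c z e
 (c z e
 (c z e
 (c z e
 (c z e
 (c z e
 (c z e
 (c (a (nat_lit 0x8e8c72b922c6ab067)) e e)))))))))))))
 (c (a (nat_lit 0x10121310b6a00c6))
 (c z e
 (c z e
 (c z e
 (c z e
 (c z e
 (c z e
 (c z e
 (c z e
 (c z e
 (c z e
 (c (a (nat_lit 0x561e2456aa5669049)) e e)))))))))))
 (c (a (nat_lit 0x2a2bcbb97e18025))
 (c z e
 (c z e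
 (c z e
 (c z e
 (c z e
 (c z e
 (c (a (nat_lit 0x185aae98dd391113a6)) e e)))))))
 (c (a (nat_lit 0x34b20ce22168c6))
 (c z e
 (c z e
 (c z e
 (c z e
 (c z e
 (c z e
 (c (a (nat_lit 0x96a6c0e67872414a7)) e e)))))))
 (c (a (nat_lit 0x15f4cdc42364c5c6))
 (c z e
 (c z e
 (c z e
 (c z e
 (c (a (nat_lit 0x644036080444671e9)) e e)))))
 (c (a (nat_lit 0x1d5a6a46294d13c5)) e
 (c (a (nat_lit 0x178767ab0caea025)) e
 (c z e
 (c z e
 (c z e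
 (c z e
 (c z e
 (c z e
 (c z e
 (c (b (nat_lit 0x10f0b0dfec03c167)) e
 (c (a (nat_lit 0x118fb02ee7a1e626)) e e))))))))))))))))
 (c z
 (c (a (nat_lit 0x6c6d677386665c6))
 (c z e
 (c z e
 (c z e
 (c z e
 (c z e
 (c z e
 (c z e
 (c z e
 (c (a (nat_lit 0x866cd168a01294c67)) e e)))))))))
 (c (a (nat_lit 0x35911201616787))
 (c z e
 (c z e
 (c z e
 (c z e
 (c z e
 (c z e
 (c (a (nat_lit 0xcc88d726c0385eb68)) e e)))))))
 (c (a (nat_lit 0x1b3451c0a0878727)) e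
 (c (a (nat_lit 0x1229214022229766)) e e))))
 (c z
 (c (a (nat_lit 0x152f6e6020250586)) e
 (c (a (nat_lit 0x17f4e0c0aa09d686)) e
 (c z e
 (c z e
 (c z e
 (c z e
 (c z e
 (c z e
 (c z e
 (c z e
 (c z e
 (c (a (nat_lit 0x16139453862667e7)) e
 (c z e
 (c z e
 (c z e
 (c (a (nat_lit 0x3361aa29838004)) e e))))))))))))))))
 (c z
 (c (a (nat_lit 0x15a3634fcb34c025)) e
 (c z e
 (c z e
 (c z e
 (c z e
 (c z e
 (c z e
 (c z e
 (c z e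
 (c (a (nat_lit 0x14ee51ae8668a027)) e e))))))))))
 (c z e
 (c z
 (c z e
 (c z e
 (c z e
 (c z e
 (c z e
 (c (a (nat_lit 0x504f42ee9c82947)) e e))))))
 (c (a (nat_lit 0x2020202039e7))
 (c z e
 (c z e
 (c z e
 (c z e
 (c (a (nat_lit 0x179618b36db090e7)) e e)))))
 (c (a (nat_lit 0x2020203b6be7)) e
 (c (a (nat_lit 0x20203567c667)) e
 (c (a (nat_lit 0x1213126850167)) e
 (c (a (nat_lit 0xf3a6a581a1a7)) e
 (c (a (nat_lit 0x15e6e6222226e7)) e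
 (c (a (nat_lit 0x1390e080537485))
 (c z e
 (c (a (nat_lit 0x1203438720000009)) e e))
 (c z e
 (c z e
 (c z e
 (c z e
 (c z e
 (c (a (nat_lit 0x14e463c2624366)) e
 (c (a (nat_lit 0x108a4361ca2003)) e
 (c (a (nat_lit 0x150621d4a20862)) e e)))))))))))))))))))))
 (c (nat_lit 1)
 (c z
 (c (a (nat_lit 0x57319dd8360b124))
 (c z e
 (c z e
 (c z e
 (c z e
 (c z e
 (c z e
 (c z e
 (c z e
 (c (a (nat_lit 0x1644422c143a45227)) e e)))))))))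
 (c (a (nat_lit 0x130eaec0c02766c6)) e
 (c (a (nat_lit 0xc0b40e04a6912c6))
 (c z e
 (c z e
 (c z e
 (c z e
 (c (a (nat_lit 0x1252709a852e98429)) e
 (c z e
 (c (a (nat_lit 0x306a263c533682569)) e e)))))))
 (c z e
 (c z e
 (c z e
 (c z e
 (c z e
 (c z e
 (c z e
 (c z e
 (c (a (nat_lit 0xb8c11ed6c47c706)) e
 (c (b (nat_lit 0x1559d57feaa38146)) e
 (c z e
 (c z e
 (c (a (nat_lit 0x13501248a94356c4)) e e))))))))))))))))
 (c z
 (c (a (nat_lit 0x123260404706d205)) e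
 (c z e
 (c z e
 (c z e
 (c z e
 (c z e
 (c z e
 (c z e
 (c z e
 (c (a (nat_lit 0x136f78f6fb0c4066)) e e))))))))))
 (c z
 (c z e
 (c z e
 (c z e
 (c z e
 (c z e
 (c z e
 (c z e
 (c z e
 (c (a (nat_lit 0xb8d36246520a027)) e e)))))))))
 (c z e
 (c (a (nat_lit 0x202020203447))
 (c z e
 (c z e
 (c z e
 (c z e
 (c z e
 (c (a (nat_lit 0x2408c1795960086)) e e))))))
 (c (a (nat_lit 0x20202037caa7)) e
 (c (a (nat_lit 0x20203dca4a07)) e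
 (c (a (nat_lit 0x20214086820c7)) e
 (c (a (nat_lit 0x1db09cd202006)) e
 (c (a (nat_lit 0x1e49a7a0404e66)) e
 (c (a (nat_lit 0x10ae00809d1b05)) e
 (c (a (nat_lit 0x760404e8dbfa6)) e e))))))))))))
 (c (a (nat_lit 0x4040404041))
 (c z
 (c (a (nat_lit 0xa24c4c54585fd65)) e
 (c z e
 (c z e
 (c z e
 (c z e
 (c z e
 (c z e
 (c z e
 (c z e
 (c (b (nat_lit 0x11d41ffa750ae205)) e
 (c (a (nat_lit 0x102dd35170248006)) e e)))))))))))
 (c z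
 (c z e
 (c z e
 (c z e
 (c z e
 (c z e
 (c z e
 (c z e
 (c (a (nat_lit 0x10582e44c0c18627)) e e))))))))
 (c (a (nat_lit 0x202020203267))
 (c z e
 (c z e
 (c z e
 (c z e
 (c z e
 (c z e
 (c z e
 (c (b (nat_lit 0xd2bf4389ff2e0a6)) e e))))))))
 (c (a (nat_lit 0x20202034aa07))
 (c z e
 (c z e
 (c z e
 (c z e
 (c z e
 (c z e
 (c (a (nat_lit 0x11512fc80cc38927)) e e)))))))
 (c (a (nat_lit 0x20203b0a4a87)) e
 (c (a (nat_lit 0x38ca4c03c7)) e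
 (c (a (nat_lit 0x230a888a18187)) e
 (c (a (nat_lit 0x17492b00c0a926)) e
 (c (a (nat_lit 0xc2a406071ee85)) e
 (c (a (nat_lit 0x8a3636c4c3906)) e e))))))))))
 (c (nat_lit 1)
 (c (a (nat_lit 0x202020203625)) e
 (c (a (nat_lit 0x20202032c8c7))
 (c (a (nat_lit 0xd2a62c86fdef266)) e e)
 (c (a (nat_lit 0x80809d520d87))
 (c z e
 (c z e
 (c z e
 (c z e
 (c z e
 (c (a (nat_lit 0xf4bc72eba2ce987)) e e))))))
 (c (a (nat_lit 0xe0f76da90347)) e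
 (c (a (nat_lit 0x23b0f4bc4c4c7)) e
 (c (a (nat_lit 0x11cb2640806627)) e
 (c (a (nat_lit 0x11b320405c5825)) e
 (c (a (nat_lit 0x5c020ae6b7166))
 (c (a (nat_lit 0x7074612448688a8)) e e) e))))))))
 C416))))) Tr.c Tr.e (nat_lit 0) C.cx C.cy
noncomputable def C418 : Tr := beta% (fun (c : Nat → Tr → Tr → Tr) (e : Tr) (z : Nat) (a : Nat → Nat) =>
 (c z
 (c (a (nat_lit 0x646465974f30004))
 (c z e
 (c z e
 (c z e
 (c z e
 (c z e
 (c z e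
 (c (a (nat_lit 0x454202cc8c0f90e6)) e e)))))))
 (c (a (nat_lit 0x1617771d2e02025)) e
 (c (a (nat_lit 0x1b00dc9e0202ba6))
 (c z e
 (c z e
 (c z e
 (c z e
 (c z e
 (c z e
 (c z e
 (c (a (nat_lit 0x1316ebe967969d04a6)) e e))))))))
 (c (a (nat_lit 0x12cf48c18126c626))
 (c z e
 (c z e
 (c z e
 (c z e
 (c (a (nat_lit 0x8182c1a100c6f6c8)) e e)))))
 (c (a (nat_lit 0x1331e5e1ed2af6a5)) e
 (c (a (nat_lit 0x102424304e168c85)) e
 (c z e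
 (c z e
 (c z e
 (c z e
 (c z e
 (c z e
 (c z e
 (c z e
 (c (a (nat_lit 0xcf1ef0aa7a225c6)) e e)))))))))))))))
 (c z
 (c (a (nat_lit 0x15b0938201e744))
 (c z e
 (c z e
 (c z e
 (c z e
 (c z e
 (c z e
 (c z e
 (c z e
 (c z e
 (c (a (nat_lit 0x8886d694cacaf93e6)) e e))))))))))
 (c (a (nat_lit 0x1bd8300040298865))
 (c z e
 (c z e
 (c z e
 (c z e
 (c z e
 (c z e
 (c z e
 (c (a (nat_lit 0x10ee13eee58c53bd46)) e e))))))))
 (c (a (nat_lit 0xeacc56524445825))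
 (c z e
 (c z e
 (c z e
 (c (a (nat_lit 0x61c9273128fd54267)) e
 (c (a (nat_lit 0x2c281e18180d668a8)) e e)))))
 (c (a (nat_lit 0xaa545458569d286)) e
 (c z e
 (c z e
 (c z e
 (c z e
 (c z e
 (c z e
 (c z e
 (c (a (nat_lit 0x104f2e4c2c03a346)) e
 (c (a (nat_lit 0x19dc79936a0724a5)) e
 (c z e
 (c (a (nat_lit 0x10fc6cc140610923)) e e)))))))))))))))
 (c z
 (c (a (nat_lit 0xdeac080302bbb04)) e
 (c (a (nat_lit 0x12cb8b910a5ca6c5)) e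
 (c z e
 (c z e
 (c z e
 (c z e
 (c z e
 (c z e
 (c z e
 (c (a (nat_lit 0x14dcd4d36e4a47e5)) e
 (c z e
 (c z e
 (c z e
 (c (a (nat_lit 0x104fad8f8fccac65)) e e))))))))))))))
 (c z
 (c z e
 (c z e
 (c z e
 (c z e
 (c (a (nat_lit 0x15530265a3f06605)) e
 (c z e
 (c z e
 (c z e
 (c (a (nat_lit 0xab69534cead8525)) e
 (c z e
 (c (a (nat_lit 0xb1233ee0e71f9e5)) e
 (c (a (nat_lit 0x8c98f0f6f702e66)) e e))))))))))))
 (c z
 (c z e
 (c (a (nat_lit 0x1b4742260c130c5))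
 (c (a (nat_lit 0x1b5cf72f8e3c3b8407)) e e)
 (c (a (nat_lit 0x10f003c686a56ae6)) e
 (c (a (nat_lit 0x13216201c08d6b25)) e
 (c z e
 (c z e
 (c z e
 (c (a (nat_lit 0xe5436578fa46725)) e
 (c (a (nat_lit 0x809cba8a3a6f3e6)) e
 (c z e
 (c (a (nat_lit 0x486c6c746a93087)) e e)))))))))))
 (c z
 (c (a (nat_lit 0x568a06080b22ea5))
 (c z e
 (c (a (nat_lit 0x11c92f48aae98f2828)) e e))
 (c z e
 (c z e
 (c z e
 (c (a (nat_lit 0x17181479b0cf3185)) e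
 (c (a (nat_lit 0x19b55db4098a50a5)) e
 (c (a (nat_lit 0xb0f8aa943c29586)) e
 (c (a (nat_lit 0x5232525c44c3327)) e
 (c (a (nat_lit 0xdf336b336f9fde6)) e e)))))))))
 (c (a (nat_lit 0x1945))
 (c z e
 (c z e
 (c z e
 (c (a (nat_lit 0xbac8a12943810a5)) e
 (c z e
 (c (a (nat_lit 0x4cacc5333bad7e5)) e e))))))
 (c (a (nat_lit 0x16c5e5))
 (c z e
 (c z e
 (c (a (nat_lit 0x4c5a9cb0e8bf185)) e
 (c (a (nat_lit 0x649c5468b938c45)) e e))))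
 (c (a (nat_lit 0x40405906e384))
 (c (a (nat_lit 0x21436299326d24)) e e)
 (c (a (nat_lit 0xc0d1e4a2e065))
 (c (a (nat_lit 0x12750f6b4b0aa84)) e e)
 (c (a (nat_lit 0x2d584c4218185)) e
 (c (a (nat_lit 0x1d2b4903a36fe4))
 (c (a (nat_lit 0x14d216cc33b129e6)) e
 (c (a (nat_lit 0x19d1496dc5800007)) e e))
 (c (a (nat_lit 0xf2ce0e0b9f883))
 (c (a (nat_lit 0x1508c6c2c0000006)) e e)
 (c (a (nat_lit 0x6c3e3cdce5fe5)) e
 (c z e
 (c z e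
 (c z e
 (c (a (nat_lit 0x4546120e0e105)) e
 (c (a (nat_lit 0x1400c040a0c0a5)) e
 (c (a (nat_lit 0x820a4e7e7c681)) e
 (c (a (nat_lit 0x241a18041e1)) e e)))))))))))))))))))))) Tr.c Tr.e (nat_lit 0) C.cx
noncomputable def C419 : Tr := beta% (fun (c : Nat → Tr → Tr → Tr) (e : Tr) (z : Nat) (a : Nat → Nat) =>
 (c (a (nat_lit 0x2020202021))
 (c z
 (c z
 (c z e
 (c (a (nat_lit 0x5e62607c7ab0b3284)) e
 (c (a (nat_lit 0x8c7c7e7d4135ff283)) e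
 (c z e
 (c z e
 (c z e
 (c z e
 (c z e
 (c z e
 (c z e
 (c z e
 (c z e
 (c z e
 (c z e
 (c z e
 (c z e
 (c (a (nat_lit 0x3a5a5c72746cd97e5)) e e)))))))))))))))))
 (c z
 (c (a (nat_lit 0x80789292d6dd64d85)) e
 (c (a (nat_lit 0x3c4c4ca4a70d02b46)) e
 (c z e
 (c z e
 (c z e
 (c z e
 (c z e
 (c z e
 (c z e
 (c z e
 (c z e
 (c (a (nat_lit 0x725c6a541a0c47466)) e
 (c z e
 (c (a (nat_lit 0x241e3a424e8af75e7)) e e))))))))))))))
 (c (a (nat_lit 0x7c7c7c7c7d135a1)) e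
 (c (a (nat_lit 0x3a3a3a3b1b351a2))
 (c z e
 (c z e
 (c z e
 (c z e
 (c z e
 (c z e
 (c z e
 (c z e
 (c z e
 (c z e
 (c (a (nat_lit 0x8468705e907c5f326)) e e)))))))))))
 (c (a (nat_lit 0x5e5e5f1f3a64023))
 (c z e
 (c z e
 (c z e
 (c z e
 (c z e
 (c z e
 (c z e
 (c z e
 (c z e
 (c (a (nat_lit 0x707e6c907694d7526)) e e))))))))))
 (c (a (nat_lit 0x62633b329e84864)) e
 (c (a (nat_lit 0x5b553534a67c824))
 (c z e
 (c z e
 (c z e
 (c z e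
 (c z e
 (c (a (nat_lit 0x46463a328c5b2ef06)) e
 (c z e
 (c (a (nat_lit 0x3e649c98edbd2ac26)) e e))))))))
 (c (a (nat_lit 0x14d676ad0cee8de3))
 (c z e
 (c z e
 (c z e
 (c z e
 (c (a (nat_lit 0x9e9c9a808ab91ad66)) e
 (c (a (nat_lit 0x7cbe5654629f198a6)) e e))))))
 (c (a (nat_lit 0xe0f8a29abcb7063))
 (c (a (nat_lit 0x282a2c4a24945d446)) e
 (c (a (nat_lit 0x12143e107e577f446)) e e))
 (c (a (nat_lit 0x621414703740c23)) e
 (c z e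
 (c z e
 (c z e
 (c (a (nat_lit 0x9b94bc9096986e4)) e
 (c (a (nat_lit 0x1f11af4eeeefa584)) e
 (c (a (nat_lit 0x1b1959d9ae4d8204)) e
 (c (a (nat_lit 0x1858d8992d26a864)) e e)))))))))))))))))
 (c z
 (c (a (nat_lit 0x5a5a5a5a5b3e023))
 (c (a (nat_lit 0x809092bcc506c0be6)) e
 (c z e
 (c z e
 (c z e
 (c z e
 (c z e
 (c z e
 (c z e
 (c z e
 (c z e
 (c z e
 (c (a (nat_lit 0x545c5618144f3cb47)) e
 (c (a (nat_lit 0x969caca0d36b2efa6)) e e)))))))))))))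
 (c (a (nat_lit 0xe0e0e0f30e2a65)) e
 (c (a (nat_lit 0x10101150fad4025)) e
 (c (a (nat_lit 0x809b35cc402025))
 (c z e
 (c z e
 (c z e
 (c z e
 (c z e
 (c z e
 (c z e
 (c (a (nat_lit 0x2a7f08b8a4c8456a6)) e e))))))))
 (c (a (nat_lit 0x577946e290909e6))
 (c z e
 (c z e
 (c z e
 (c z e
 (c (a (nat_lit 0xeaf0986c4242c96c7)) e
 (c (a (nat_lit 0x108a492686eb299567)) e e))))))
 (c (a (nat_lit 0x11cf0ea442434466))
 (c z e
 (c z e
 (c z e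
 (c z e
 (c z e
 (c z e
 (c z e
 (c (a (nat_lit 0x120b84070b548cc007)) e e))))))))
 (c (a (nat_lit 0x1ffe6aea8f505f44))
 (c z e
 (c z e
 (c (a (nat_lit 0x182c206cd312388c8)) e
 (c z e
 (c z e
 (c z e
 (c z e
 (c (a (nat_lit 0x16eac4e0a000000008)) e e))))))))
 (c (a (nat_lit 0x1f759579595c8fe5)) e
 (c z e
 (c z e
 (c z e
 (c z e
 (c z e
 (c z e
 (c z e
 (c (a (nat_lit 0x1cfbff9d928782a5)) e
 (c z e
 (c z e
 (c (a (nat_lit 0x15fdc60862278063)) e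
 (c (a (nat_lit 0x1064a54423a00004)) e e))))))))))))))))))))
 C418))
 C417)) Tr.c Tr.e (nat_lit 0) C.cx
noncomputable def C420 : Tr := beta% (fun (c : Nat → Tr → Tr → Tr) (e : Tr) (z : Nat) (a b : Nat → Nat) =>
 (c (nat_lit 1)
 (c (nat_lit 1) C419
 (c (nat_lit 1)
 (c (a (nat_lit 0x2020202021))
 (c z
 (c (a (nat_lit 0x14747471b4f1d2a3))
 (c z e
 (c z e
 (c z e
 (c z e
 (c z e
 (c z e
 (c z e
 (c z e
 (c z e
 (c z e
 (c z e
 (c (a (nat_lit 0x5c32306ad6727d467)) e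
 (c (a (nat_lit 0x52366ab2726295347)) e e)))))))))))))
 (c (b (nat_lit 0x3e3f4dfffe5c063)) e
 (c (a (nat_lit 0x30a749181802925))
 (c z e
 (c z e
 (c z e
 (c z e
 (c z e
 (c z e
 (c z e
 (c z e
 (c (a (nat_lit 0x3634643c3853049c8)) e e)))))))))
 (c (a (nat_lit 0x125231e2a14464c5))
 (c z e
 (c z e
 (c z e
 (c z e
 (c z e
 (c z e
 (c (a (nat_lit 0x7670ae562a310aae7)) e e)))))))
 (c (a (nat_lit 0x1572e7c745c76f44))
 (c z e
 (c z e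
 (c z e
 (c z e
 (c (a (nat_lit 0x886c2c14504ba8968)) e e)))))
 (c (a (nat_lit 0x100909482a28c005)) e
 (c z e
 (c z e
 (c z e
 (c z e
 (c z e
 (c z e
 (c z e
 (c (a (nat_lit 0x1373330caba6e1e6)) e
 (c (b (nat_lit 0xbd2529febc484a6)) e
 (c (a (nat_lit 0x1738b8cfa6e64d05)) e
 (c (a (nat_lit 0x18322121c3e06443)) e e)))))))))))))))))
 (c z
 (c (a (nat_lit 0xa11d261604046))
 (c z e
 (c z e
 (c z e
 (c z e
 (c z e
 (c z e
 (c z e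
 (c (a (nat_lit 0xbc8b8fc23a2c8c8e7)) e
 (c (a (nat_lit 0x203a76240818354a9)) e e)))))))))
 (c (a (nat_lit 0x106ecf60802202a7)) e
 (c (a (nat_lit 0x1149e1a180a0e886)) e
 (c z e
 (c z e
 (c z e
 (c z e
 (c z e
 (c z e
 (c z e
 (c z e
 (c z e
 (c (a (nat_lit 0x12d4530de7a40007)) e
 (c z e
 (c z e
 (c z e
 (c (a (nat_lit 0xcb2332500c06005)) e e)))))))))))))))))
 (c z
 (c (a (nat_lit 0x1a96a0402a6b6da5))
 (c z e
 (c z e
 (c z e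
 (c z e
 (c z e
 (c z e
 (c (a (nat_lit 0x2e72a040263557168)) e e))))))) e)
 (c z
 (c z e
 (c z e
 (c z e
 (c z e
 (c z e
 (c z e
 (c z e
 (c z e
 (c (a (nat_lit 0x1bf75bf81301c2a7)) e e)))))))))
 (c z
 (c z e
 (c z e
 (c z e
 (c z e
 (c z e
 (c z e
 (c z e
 (c z e
 (c z e
 (c z e
 (c (a (nat_lit 0xaa86a4a68e7f688)) e e)))))))))))
 (c (a (nat_lit 0x2020202036a7)) e
 (c (a (nat_lit 0x202020388b07))
 (c z e
 (c z e
 (c z e
 (c z e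
 (c (a (nat_lit 0x1253303114351207)) e e)))))
 (c (a (nat_lit 0x2020304726a8))
 (c z e
 (c z e
 (c (a (nat_lit 0xcca4b126d70d2e7)) e e)))
 (c (a (nat_lit 0x22231a6e5c1a7)) e
 (c (a (nat_lit 0x2fcac4ae30246)) e
 (c (a (nat_lit 0x106624a1a14587)) e
 (c (a (nat_lit 0x161163c3b4d585)) e
 (c z e
 (c z e
 (c z e
 (c z e
 (c z e
 (c (a (nat_lit 0x16a8c7e4e504a5)) e
 (c (a (nat_lit 0x1d7445c4416222)) e
 (c (a (nat_lit 0x13a6252223ae62)) e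
 (c (a (nat_lit 0xe0dcd2e10a6e4)) e e)))))))))))))))))))))
 C415)
 (c (a (nat_lit 0x20202021)) C414
 C413)))
 (c (a (nat_lit 0x202021)) C411
 (c (a (nat_lit 0x202021))
 (c (a (nat_lit 0x20202021)) C404
 C402)
 (c (nat_lit 1) C398
 (c (a (nat_lit 0x202021)) C394
 (c (a (nat_lit 0x202021))
 (c (a (nat_lit 0x20202021))
 (c (a (nat_lit 0x20201403))
 (c (a (nat_lit 0x4444443e3f024))
 (c z e
 (c (a (nat_lit 0x2101669628c586)) e
 (c (a (nat_lit 0x1296e5408ebda45)) e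
 (c (a (nat_lit 0x581de4a86ae505)) e
 (c (a (nat_lit 0x1c6509c365a268c5)) e
 (c (a (nat_lit 0x1c4c06ce03218005)) e
 (c (a (nat_lit 0x11ebe76360000006)) e e)))))))
 (c (a (nat_lit 0xa0a08bad3405))
 (c (a (nat_lit 0x183a2354946c827)) e
 (c (a (nat_lit 0x1a3abcbeff0cb87)) e
 (c z e
 (c (b (nat_lit 0x19a7fff04b09a306)) e
 (c z e
 (c (a (nat_lit 0x1b12d7c000000006)) e e))))))
 (c (a (nat_lit 0x1e1c98a309125)) e
 (c z e
 (c (b (nat_lit 0x1314f41fe02004)) e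
 (c (a (nat_lit 0x17512420430584)) e
 (c (a (nat_lit 0x1260c020698444)) e
 (c (a (nat_lit 0xe4f10ac6ea945)) e
 (c z e
 (c (a (nat_lit 0x9b7dd8ad150a4)) e
 (c (a (nat_lit 0x425e7470c78e6)) e
 (c (a (nat_lit 0x6a72a095ee005)) e
 (c (a (nat_lit 0x1140a040000002)) e e)))))))))))))
 (c (b (nat_lit 0x113fe5))
 (c (a (nat_lit 0x7c7cd10779746))
 (c (a (nat_lit 0x800bd920eb2d7a6)) e
 (c z e
 (c z e
 (c (a (nat_lit 0x723b4110a44a007)) e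
 (c (a (nat_lit 0x7c8b06380000007)) e
 (c (a (nat_lit 0xef7600000000007)) e e))))))
 (c z e
 (c z e
 (c (a (nat_lit 0xfded9eb8375a5)) e
 (c (a (nat_lit 0x30ae0264172a6)) e
 (c (a (nat_lit 0x14ac4c364bb5e6)) e
 (c z e
 (c z e
 (c (a (nat_lit 0x524c50764b3c7)) e
 (c (a (nat_lit 0x4672a77910927)) e
 (c (a (nat_lit 0x1e4e6baa00005)) e
 (c (a (nat_lit 0xce14000000001)) e e))))))))))))
 (c (a (nat_lit 0x203a612025))
 (c z e
 (c z e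
 (c z e
 (c z e
 (c z e
 (c z e
 (c z e
 (c z e
 (c z e
 (c (a (nat_lit 0x5569d80000005)) e
 (c (a (nat_lit 0x14c00000000004)) e e)))))))))))
 (c z e
 (c (a (nat_lit 0x12c564402005))
 (c z e
 (c (a (nat_lit 0x64991ce274727)) e
 (c (a (nat_lit 0xf47eeea6079a6)) e e)))
 (c (a (nat_lit 0xfe7e04030a3))
 (c (a (nat_lit 0x1b4cde2e0e0a6)) e
 (c (a (nat_lit 0x1595c8e10260a6)) e
 (c z e
 (c z e
 (c (b (nat_lit 0x1fec1e25800007)) e e)))))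
 (c (a (nat_lit 0x6002032a763))
 (c (a (nat_lit 0x5a443a3cc30e7)) e
 (c (a (nat_lit 0x7c7d588c7f387)) e e))
 (c (a (nat_lit 0xf597957d6a4))
 (c (b (nat_lit 0x118076dff02545)) e e)
 (c z e
 (c (a (nat_lit 0x1b1c3bdbbb84)) e
 (c (a (nat_lit 0x803b9b7b24)) e
 (c (a (nat_lit 0x1191919181a4)) e
 (c (a (nat_lit 0x4040203864)) e
 (c (a (nat_lit 0x402f9867a4)) e
 (c (a (nat_lit 0x2f9867c5a4)) e
 (c (a (nat_lit 0x1337af6e4b85)) e
 (c (a (nat_lit 0x1cec8a24a4a4)) e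
 (c (a (nat_lit 0x102b60804003)) e
 (c (a (nat_lit 0x168040000002)) e e)))))))))))))))))))
 C392)
 (c (a (nat_lit 0x202021)) C391
 C390)))))))) Tr.c Tr.e (nat_lit 0) C.cx C.cy
noncomputable def C421 : Tr := beta% (fun (c : Nat → Tr → Tr → Tr) (e : Tr) (z : Nat) (a b : Nat → Nat) =>
 (c (a (nat_lit 0x80808081))
 (c (a (nat_lit 0x20003826))
 (c (a (nat_lit 0x47864627d945))
 (c (a (nat_lit 0x31120e56a2c4346)) e
 (c (a (nat_lit 0x1625474b45600007)) e e))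
 (c (a (nat_lit 0x20040454cb2a6))
 (c (a (nat_lit 0x1486790260000005)) e e)
 (c (a (nat_lit 0x20262a2d1386)) e
 (c z e
 (c z e
 (c (a (nat_lit 0x1abb3934526dc7)) e
 (c (a (nat_lit 0xcab07054ddee7)) e e)))))))
 (c (a (nat_lit 0x203123a7))
 (c (a (nat_lit 0x3628348d36f45))
 (c (a (nat_lit 0x111e10000000005)) e e)
 (c z e
 (c z e
 (c (a (nat_lit 0xa1c36ef840c47)) e
 (c (a (nat_lit 0x1014356fa37287)) e
 (c (a (nat_lit 0xf098c70277028)) e e))))))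
 (c (a (nat_lit 0x2030a3c168)) e
 (c z e
 (c (b (nat_lit 0x197fe5a0e0e7))
 (c z e
 (c z e
 (c (a (nat_lit 0xa6d71cec62009)) e e)))
 (c (a (nat_lit 0x931a78789c6))
 (c (a (nat_lit 0x98c147e0ae7a7)) e
 (c (a (nat_lit 0x9acb0e7a00009)) e e))
 (c (a (nat_lit 0x1449292b6de6))
 (c (a (nat_lit 0x196f6620000007)) e e)
 (c z e
 (c z e
 (c z e
 (c (a (nat_lit 0x1150e0a02045)) e
 (c (a (nat_lit 0x10c0a0405785)) e
 (c (a (nat_lit 0x2020574ea5)) e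
 (c z e
 (c z e
 (c (a (nat_lit 0x60a48864581)) e
 (c (a (nat_lit 0x76361200001)) e
 (c (a (nat_lit 0x32000000001)) e e))))))))))))))))))
 (c (a (nat_lit 0x60606061))
 (c (a (nat_lit 0x2c2d12cc646))
 (c (a (nat_lit 0xa69bd52b526a4)) e
 (c z e
 (c z e
 (c (a (nat_lit 0x1fb72bc08044a6)) e
 (c (a (nat_lit 0x19790f0730be66)) e
 (c (a (nat_lit 0x7c90f84add087)) e e))))))
 (c (b (nat_lit 0x1de58e9bfe6)) e
 (c (a (nat_lit 0x1ff20d002026)) e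
 (c (a (nat_lit 0x141ae0202825))
 (c z e
 (c z e
 (c (a (nat_lit 0x116db444000008)) e e)))
 (c (a (nat_lit 0x1be020281a85))
 (c (a (nat_lit 0x1191bbea632006)) e
 (c (a (nat_lit 0xffe2c60000007)) e e))
 (c (a (nat_lit 0x5a5ac10cfa7))
 (c (a (nat_lit 0x192a4000000006)) e e)
 (c z e
 (c z e
 (c (a (nat_lit 0x11f0e1e080e3)) e
 (c (a (nat_lit 0x820c0409024)) e
 (c (a (nat_lit 0x24242117424)) e
 (c z e
 (c z e
 (c (a (nat_lit 0x14571301e163)) e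
 (c (a (nat_lit 0x155180602003)) e
 (c (a (nat_lit 0x120080000003)) e e))))))))))))))))
 (c (a (nat_lit 0x60404061))
 (c (a (nat_lit 0x108f86c18186))
 (c (a (nat_lit 0x144e51a9a4e605)) e
 (c (a (nat_lit 0x6e5e684e157a7)) e e))
 (c (a (nat_lit 0x1216a0404c05))
 (c (a (nat_lit 0xc060761914ac7)) e e)
 (c (a (nat_lit 0x17e0a0ad1365)) e
 (c z e
 (c z e
 (c z e
 (c (a (nat_lit 0x10f2b110f107)) e
 (c (a (nat_lit 0x1c206080e6a3)) e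
 (c (a (nat_lit 0xa08166f1a3)) e
 (c z e
 (c z e
 (c (b (nat_lit 0x1ff211604002)) e
 (c (a (nat_lit 0x1938e7e82762)) e
 (c (a (nat_lit 0x11c080600002)) e
 (c (a (nat_lit 0x2000000001)) e e)))))))))))))))
 (c (a (nat_lit 0x20202021))
 (c (a (nat_lit 0x174020332c04))
 (c (a (nat_lit 0x1e2e1ca110ae7)) e e)
 (c z e
 (c z e
 (c z e
 (c (a (nat_lit 0x103215755526)) e
 (c (a (nat_lit 0x114fb45430a7)) e
 (c (a (nat_lit 0x4100e73b43)) e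
 (c z e
 (c z e
 (c (b (nat_lit 0x1ffbbec06002)) e
 (c (a (nat_lit 0xff100c04003)) e
 (c (a (nat_lit 0x10e0e0402003)) e
 (c (a (nat_lit 0x50160000001)) e e)))))))))))))
 (c (a (nat_lit 0x404001))
 (c z e
 (c z e
 (c (a (nat_lit 0x10749312cf67)) e
 (c (a (nat_lit 0x17159c9c1147)) e
 (c z e
 (c z e
 (c z e
 (c (a (nat_lit 0x634f5c28303)) e
 (c (a (nat_lit 0x137480e1eea3)) e
 (c (a (nat_lit 0x16c662224001)) e
 (c (a (nat_lit 0x603e2200001)) e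
 (c (a (nat_lit 0x18000000001)) e e))))))))))))
 (c (a (nat_lit 0x40404041))
 (c (a (nat_lit 0x197cf6f6d124)) e
 (c (a (nat_lit 0x12b1512d8487)) e
 (c z e
 (c z e
 (c z e
 (c (a (nat_lit 0x13332804003)) e
 (c (a (nat_lit 0x13f420606be3)) e
 (c (a (nat_lit 0x1dc0a1008001)) e
 (c (a (nat_lit 0x34320e14001)) e
 (c (a (nat_lit 0xa080000001)) e e))))))))))
 (c (a (nat_lit 0x20202021))
 (c (a (nat_lit 0x108fefe223c6)) e
 (c z e
 (c z e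
 (c (a (nat_lit 0xb393a08003)) e
 (c (a (nat_lit 0xa6a80609b64)) e
 (c (a (nat_lit 0x90160a08001)) e
 (c (a (nat_lit 0x282a0e08021)) e
 (c (a (nat_lit 0x321c0400001)) e
 (c (a (nat_lit 0x1a000000001)) e e)))))))))
 (c (nat_lit 1)
 (c z e
 (c (a (nat_lit 0x55575606123)) e
 (c (a (nat_lit 0x52540203065)) e
 (c (a (nat_lit 0x1e2c0e0a001)) e
 (c (a (nat_lit 0x421a0a06001)) e
 (c (a (nat_lit 0x160c0602001)) e
 (c (a (nat_lit 0x12060000001)) e e)))))))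
 (c (a (nat_lit 0x20202021))
 (c (a (nat_lit 0x2c2e04030a5)) e
 (c (a (nat_lit 0x24401e16001)) e
 (c (a (nat_lit 0x340a10084c1)) e
 (c (a (nat_lit 0xa140abe161)) e
 (c (a (nat_lit 0x3c340600001)) e
 (c (a (nat_lit 0x2e000000001)) e e))))))
 (c (a (nat_lit 0x60604041))
 (c (a (nat_lit 0x60a0a06081)) e
 (c (a (nat_lit 0xe0e0c0e061)) e
 (c (a (nat_lit 0xc080c02001)) e
 (c (a (nat_lit 0x100c0000001)) e e))))
 (c (a (nat_lit 0x40404041))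
 (c (a (nat_lit 0x6060804021)) e
 (c (a (nat_lit 0x60c0200001)) e
 (c (a (nat_lit 0xa000000001)) e e)))
 (c (nat_lit 1)
 (c (a (nat_lit 0x4000000001)) e e)
 (c (a (nat_lit 0x80808081)) e
 (c (a (nat_lit 0x40404041)) e
 (c (a (nat_lit 0x6060a0a1)) e
 (c (a (nat_lit 0x60808041)) e
 (c (a (nat_lit 0x3804)) e
 (c (a (nat_lit 0x525313d65)) e
 (c z e
 (c (a (nat_lit 0xd39402025)) e
 (c (a (nat_lit 0x1960202005)) e
 (c (a (nat_lit 0x101005423)) e e))))))))))))))))))))))) Tr.c Tr.e (nat_lit 0) C.cx C.cy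
noncomputable def C422 : Tr := beta% (fun (c : Nat → Tr → Tr → Tr) (e : Tr) (z : Nat) (a b : Nat → Nat) =>
 (c (a (nat_lit 0x20202021))
 (c (a (nat_lit 0x20202021))
 (c (a (nat_lit 0x8e680a0932a42))
 (c (a (nat_lit 0x150ba60707086b25)) e
 (c (a (nat_lit 0x8d00af3b6346005)) e
 (c z e
 (c z e
 (c (a (nat_lit 0x46544e223259527)) e
 (c (a (nat_lit 0x3e903e10510e9e7)) e
 (c (a (nat_lit 0x4a241e2d329ad67)) e e)))))))
 (c (a (nat_lit 0x2a39043842026))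
 (c z e
 (c z e
 (c z e
 (c (a (nat_lit 0x9e260e08ce59a07)) e
 (c (a (nat_lit 0x885202854718168)) e e)))))
 (c z e
 (c z e
 (c (a (nat_lit 0x105280e1012143)) e
 (c (a (nat_lit 0x11ec62c123edc2))
 (c (a (nat_lit 0x15f42582a8032108)) e
 (c (a (nat_lit 0x162ce83403c00008)) e e))
 (c (a (nat_lit 0xc04020411646))
 (c (a (nat_lit 0xfcdd2e4c0000007)) e e)
 (c z e
 (c z e
 (c z e
 (c z e
 (c (a (nat_lit 0x19b651cfabc007)) e
 (c (a (nat_lit 0x1d496a2a6c7ca5)) e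
 (c (a (nat_lit 0x4652567d7e5e5)) e e))))))))))))))
 (c (a (nat_lit 0x4040404041))
 (c z e
 (c z e
 (c (a (nat_lit 0x11d08680402026)) e
 (c (a (nat_lit 0x140040c0408c05)) e
 (c (a (nat_lit 0x114524a75bc283)) e
 (c z e
 (c z e
 (c z e
 (c z e
 (c z e
 (c (a (nat_lit 0x15939211a94288)) e
 (c (a (nat_lit 0x1027d8d90e6fc6)) e e))))))))))))
 (c (a (nat_lit 0x2020204041))
 (c (a (nat_lit 0x151f90e0402045)) e
 (c (a (nat_lit 0x182ec060207426)) e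
 (c (b (nat_lit 0x1100c0a1795fe5)) e e)))
 (c (a (nat_lit 0x4040204041))
 (c (a (nat_lit 0xd2100a1580385)) e
 (c z e
 (c z e
 (c z e
 (c z e
 (c z e
 (c z e
 (c z e
 (c z e
 (c z e
 (c (a (nat_lit 0x1787f0c0600004)) e e)))))))))))
 (c (a (nat_lit 0x2020202021))
 (c z e
 (c z e
 (c (a (nat_lit 0x51856027a6)) e
 (c z e
 (c z e
 (c z e
 (c z e
 (c z e
 (c (a (nat_lit 0xdb27c712d2005)) e
 (c (a (nat_lit 0x87283a0000005)) e e))))))))))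
 (c (a (nat_lit 0x40206001))
 (c (a (nat_lit 0x8e0757162e5e4)) e
 (c (a (nat_lit 0x3fcd0c0829005)) e
 (c z e
 (c z e
 (c z e
 (c z e
 (c (a (nat_lit 0x12b97b8e6e7108)) e
 (c (a (nat_lit 0x1330c686200007)) e
 (c (a (nat_lit 0x1680e000000006)) e e)))))))))
 (c (a (nat_lit 0x20202035c6))
 (c (a (nat_lit 0x146a870045b4c5)) e
 (c z e
 (c z e
 (c z e
 (c (a (nat_lit 0xc5154909266e8)) e
 (c (a (nat_lit 0x11d6d52db6e008)) e
 (c (a (nat_lit 0x11e822e0000006)) e e)))))))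
 (c (b (nat_lit 0xe1013ff9a2)) e
 (c (b (nat_lit 0x405ff97ce4)) e
 (c z e
 (c (a (nat_lit 0x1554960b4b46)) e
 (c (a (nat_lit 0xd53a0404a05)) e
 (c (a (nat_lit 0x10e020248585)) e
 (c (a (nat_lit 0x2032771b63)) e
 (c z e
 (c z e
 (c (a (nat_lit 0x13d06040c003)) e
 (c (a (nat_lit 0x1ee080c08462)) e
 (c (a (nat_lit 0x204020f125)) e e)))))))))))))))))))
 (c (a (nat_lit 0x20202021))
 (c (a (nat_lit 0x2020202021))
 (c z e
 (c (a (nat_lit 0x67d48c0a08065)) e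
 (c (a (nat_lit 0x1626a060204f05)) e
 (c (a (nat_lit 0x96908c9dddd63)) e
 (c z e
 (c z e
 (c z e
 (c z e
 (c z e
 (c z e
 (c (a (nat_lit 0x1790d08b0728e7)) e
 (c (a (nat_lit 0xfce4e7e74ff85)) e e))))))))))))
 (c (a (nat_lit 0x2020204041))
 (c (a (nat_lit 0x12a880202028e6))
 (c (a (nat_lit 0x1143a23867c68b27)) e e) e)
 (c (a (nat_lit 0x6060406061)) e
 (c (a (nat_lit 0x2020202021))
 (c (a (nat_lit 0x1098b82954f885))
 (c (a (nat_lit 0x9534d2d05e00007)) e e)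
 (c z e
 (c z e
 (c z e
 (c z e
 (c z e
 (c z e
 (c z e
 (c (b (nat_lit 0x1fe959a0400005)) e e)))))))))
 (c (a (nat_lit 0x2020203087))
 (c z e
 (c z e
 (c z e
 (c z e
 (c z e
 (c z e
 (c (a (nat_lit 0xc93afd0ae8008)) e
 (c (a (nat_lit 0x1a190840000006)) e e))))))))
 (c (a (nat_lit 0x20203707e7))
 (c (a (nat_lit 0x2025253466)) e
 (c z e
 (c z e
 (c z e
 (c z e
 (c (a (nat_lit 0xe2c0e51400008)) e
 (c (a (nat_lit 0x14006000000006)) e e)))))))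
 (c (a (nat_lit 0x20366b24a7)) e
 (c z e
 (c (a (nat_lit 0x17baa7a02006)) e
 (c (a (nat_lit 0x12d2cb8b8b86)) e
 (c (a (nat_lit 0x122b2b2b3206)) e
 (c (a (nat_lit 0x9a8e3d00a46)) e
 (c z e
 (c z e
 (c (a (nat_lit 0x1064a0402005)) e
 (c (a (nat_lit 0x12a1c1610da3)) e
 (c (a (nat_lit 0x60404239a3)) e e)))))))))))))))))
 (c (a (nat_lit 0x40404041))
 (c (a (nat_lit 0x2020202021))
 (c (a (nat_lit 0x10e04020900364)) e
 (c z e
 (c z e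
 (c z e
 (c z e
 (c z e
 (c z e
 (c (a (nat_lit 0x1df9d50f4068a6)) e
 (c (a (nat_lit 0x120f93e92cf007)) e e)))))))))
 (c (a (nat_lit 0x6060404041))
 (c z e
 (c (a (nat_lit 0xaf45054ae5dc7))
 (c (a (nat_lit 0xeb00f9027200009)) e e)
 (c z e
 (c z e
 (c z e
 (c z e
 (c (a (nat_lit 0x1916b6aa908028)) e e)))))))
 (c (a (nat_lit 0x2020203167))
 (c (a (nat_lit 0x20020c0e5b927))
 (c (a (nat_lit 0x12b380c2e0000005)) e e)
 (c z e
 (c z e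
 (c z e
 (c (a (nat_lit 0x9b02ced078668)) e
 (c (b (nat_lit 0x172f2e2a6d9fe8)) e e))))))
 (c (a (nat_lit 0x202033e907)) e
 (c (a (nat_lit 0x203066a2e8)) e
 (c z e
 (c (a (nat_lit 0x19520b07c7c7))
 (c z e
 (c (a (nat_lit 0x7f110f0c72009)) e e))
 (c (a (nat_lit 0x16fdc04022c4))
 (c (a (nat_lit 0x10f0aae2800008)) e e)
 (c (a (nat_lit 0xa43638431c6)) e
 (c z e
 (c z e
 (c z e
 (c (a (nat_lit 0x1fb4e0402025)) e
 (c (a (nat_lit 0x14e020204fc5)) e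
 (c (a (nat_lit 0x60205f4bc4)) e
 (c z e
 (c z e
 (c (b (nat_lit 0x1d3fe8c0c001)) e e))))))))))))))))))
 C421)))) Tr.c Tr.e (nat_lit 0) C.cx C.cy
noncomputable def C423 : Tr := beta% (fun (c : Nat → Tr → Tr → Tr) (e : Tr) (z : Nat) (a b : Nat → Nat) =>
 (c (a (nat_lit 0x2020404041))
 (c (a (nat_lit 0x34512c8685))
 (c (a (nat_lit 0x1817f81cbbd99b26))
 (c z e
 (c z e
 (c (a (nat_lit 0x1b98f4ad9091332e47)) e e)))
 (c z e
 (c z e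
 (c (a (nat_lit 0x95048f38a05e026))
 (c (a (nat_lit 0xfba24286203cee4c7)) e
 (c (a (nat_lit 0x184a2aade348c00008)) e e))
 (c (a (nat_lit 0x660ca13eb2e8026)) e
 (c (a (nat_lit 0x93b9563554c5e5)) e
 (c (a (nat_lit 0x7cc0c6b47245006)) e
 (c z e
 (c (a (nat_lit 0xcea2272b72b0de6)) e
 (c (a (nat_lit 0x8c084b24df665e6)) e
 (c (a (nat_lit 0x544285326474247)) e e)))))))))))
 (c (a (nat_lit 0x41976512dede6))
 (c z e
 (c z e
 (c z e
 (c z e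
 (c z e
 (c z e
 (c (a (nat_lit 0x88ce3a90e305387)) e e)))))))
 (c (a (nat_lit 0x15d468c706e226)) e
 (c (a (nat_lit 0x17aeb4b4ab8f45))
 (c z e
 (c (a (nat_lit 0x1228aced8ed512e8)) e
 (c (a (nat_lit 0x789f0aa51688988)) e
 (c (a (nat_lit 0xb5c31d42d70d107)) e
 (c z e
 (c z e
 (c (a (nat_lit 0xdce52c6ee49c008)) e
 (c (a (nat_lit 0x19302bc400000008)) e e))))))))
 (c (a (nat_lit 0x1315554e068325))
 (c (a (nat_lit 0x46529eaadb48e08)) e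
 (c (a (nat_lit 0x68c2cb351b34468)) e
 (c z e
 (c z e
 (c (a (nat_lit 0x141132e7262b0768)) e
 (c (a (nat_lit 0x1215892e2a000008)) e
 (c (a (nat_lit 0x122562e000000008)) e e)))))))
 (c (a (nat_lit 0x1fdfe894668044))
 (c (a (nat_lit 0x9e30a65ba4b2667)) e
 (c z e
 (c z e
 (c (a (nat_lit 0x5916cc4aca68008)) e
 (c (a (nat_lit 0x15cb662620000008)) e
 (c (a (nat_lit 0x15e3800000000007)) e e))))))
 (c z e
 (c (a (nat_lit 0xd9168c0e06023))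
 (c (a (nat_lit 0x1f322a4dd0e5e006)) e e)
 (c (a (nat_lit 0x648322a21605)) e
 (c (a (nat_lit 0x1a1014d7531c6)) e
 (c (a (nat_lit 0x5e5b07250ece7)) e
 (c z e
 (c (a (nat_lit 0xd52712f8fb0a7)) e
 (c (a (nat_lit 0xd2881cbaf7065)) e
 (c (a (nat_lit 0xe277195565ae5)) e
 (c (a (nat_lit 0x34d715256d265)) e e))))))))))))))))
 (c (a (nat_lit 0x2040404041))
 (c (a (nat_lit 0x138e4b2a2a2b06))
 (c (a (nat_lit 0xe137b27e967cea6))
 (c (a (nat_lit 0x856eba9aac8f1c227)) e e)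
 (c z e
 (c z e
 (c z e
 (c z e
 (c (a (nat_lit 0x5246a08468d32a9)) e
 (c (a (nat_lit 0x2e383a427a933a9)) e e)))))))
 (c (a (nat_lit 0x104cae0e0c0507)) e
 (c (b (nat_lit 0x10d4d4dfe90026)) e
 (c z e
 (c z e
 (c (a (nat_lit 0x1f93f082c16223))
 (c z e
 (c (a (nat_lit 0x13cfe6e52b04800a)) e e))
 (c (a (nat_lit 0x10276180815d64))
 (c (a (nat_lit 0x140565ad23800009)) e e)
 (c (a (nat_lit 0x423a6ec4e5fa7)) e
 (c z e
 (c z e
 (c z e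
 (c (a (nat_lit 0xfb0d9b0af8d88)) e
 (c (a (nat_lit 0x5f2682866a807)) e
 (c (a (nat_lit 0x1762e04042d7e6)) e e))))))))))))))
 (c (a (nat_lit 0x6060606061))
 (c (b (nat_lit 0xa0f395ff08105)) e
 (c z e
 (c z e
 (c (a (nat_lit 0x4f0064645e606)) e
 (c (a (nat_lit 0x1043e080406005)) e
 (c (a (nat_lit 0x947874b2c1786))
 (c (a (nat_lit 0x407d84d00000008)) e e)
 (c z e
 (c z e
 (c z e
 (c z e
 (c (a (nat_lit 0x14f61e9cd36c88)) e
 (c (a (nat_lit 0x64e30c7830127)) e e))))))))))))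
 (c (a (nat_lit 0x4001))
 (c z e
 (c (a (nat_lit 0xef00b6403c3e7))
 (c z e
 (c (a (nat_lit 0x707a5e32bf3aec9)) e e))
 (c (a (nat_lit 0x1228c080206a26))
 (c (a (nat_lit 0x6402302f4b00d28)) e e)
 (c (b (nat_lit 0x54040215ff4a7)) e
 (c z e
 (c z e
 (c (a (nat_lit 0xc5e8ec10ab08)) e
 (c (a (nat_lit 0x636b51aa63e8)) e
 (c z e
 (c z e
 (c z e
 (c z e
 (c (a (nat_lit 0x3e4f820200006)) e e)))))))))))))
 (c (a (nat_lit 0x20202001))
 (c (a (nat_lit 0x126e01a1217085))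
 (c (a (nat_lit 0xfeff8718d5120a7)) e
 (c (b (nat_lit 0x1109a9688b6adfe8)) e e))
 (c (a (nat_lit 0xd20e08b32c025))
 (c (b (nat_lit 0x4a8f3ae5b215fe7)) e e)
 (c z e
 (c z e
 (c (b (nat_lit 0x2273fe4e072c7)) e
 (c (a (nat_lit 0x72608c95b92e7)) e
 (c (a (nat_lit 0x3c46bd32d4e48)) e
 (c z e
 (c z e
 (c z e
 (c (a (nat_lit 0xeb59a1569c007)) e
 (c (a (nat_lit 0x175baba0000007)) e e))))))))))))
 (c (a (nat_lit 0x4040404041))
 (c (a (nat_lit 0x15753ebc77e8c4))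
 (c (a (nat_lit 0xc18f78c8be88325)) e e)
 (c z e
 (c (a (nat_lit 0xe891accc40005)) e
 (c (a (nat_lit 0xe106cc220b186)) e
 (c (a (nat_lit 0xb476805e9f886)) e
 (c (a (nat_lit 0x5e62c4cd04f28)) e
 (c z e
 (c z e
 (c (a (nat_lit 0x8b12c36923c7)) e
 (c (a (nat_lit 0xcb444e5600007)) e
 (c (a (nat_lit 0x1e204000000006)) e e)))))))))))
 (c (a (nat_lit 0x4040202021))
 (c (b (nat_lit 0x1ffff7a9202004)) e
 (c (a (nat_lit 0x19709c0404305)) e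
 (c (a (nat_lit 0x14519070454f46)) e
 (c z e
 (c z e
 (c z e
 (c (a (nat_lit 0xed1df10a0e3e7)) e
 (c (a (nat_lit 0x45ee668e5a006)) e
 (c (a (nat_lit 0x1c43e380000006)) e e)))))))))
 (c (a (nat_lit 0x20202001))
 (c (a (nat_lit 0x72120808113a5)) e
 (c z e
 (c z e
 (c z e
 (c z e
 (c (a (nat_lit 0x92b0cea03f7c8)) e
 (c (a (nat_lit 0x13a89128200006)) e e)))))))
 (c (a (nat_lit 0x2040405204))
 (c z e
 (c z e
 (c (b (nat_lit 0x1fffe1c74418c8)) e e)))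
 (c (a (nat_lit 0x4040541644))
 (c (b (nat_lit 0xbfe066ecf207)) e
 (c (a (nat_lit 0x1c4c4ca3eb788)) e e))
 (c (a (nat_lit 0x2829d3dc1e4))
 (c (a (nat_lit 0x44165566be548)) e e)
 (c (a (nat_lit 0x130c930f6025)) e
 (c (a (nat_lit 0x1114340c6c66)) e
 (c (a (nat_lit 0x16f9c0402384)) e
 (c (a (nat_lit 0x19c040439144)) e
 (c (a (nat_lit 0x6044116f04)) e
 (c z e
 (c z e
 (c (a (nat_lit 0x1c9987e66663)) e
 (c (a (nat_lit 0x140301215343)) e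
 (c (a (nat_lit 0x280a0d2c383)) e e)))))))))))))))))))))) Tr.c Tr.e (nat_lit 0) C.cx C.cy
noncomputable def C424 : Tr := beta% (fun (c : Nat → Tr → Tr → Tr) (e : Tr) (z : Nat) (a b : Nat → Nat) =>
 (c (a (nat_lit 0x204001))
 (c (a (nat_lit 0xe0e0f2af6be7))
 (c (a (nat_lit 0x20060643171ae06))
 (c z e
 (c z e
 (c z e
 (c (a (nat_lit 0x1813ef105256b08f49)) e
 (c (a (nat_lit 0x10c8e4876988a66429)) e e)))))
 (c z e
 (c z e
 (c (a (nat_lit 0x3d73a155a7dd4c7))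
 (c z e
 (c z e
 (c (a (nat_lit 0x11cbcb47484000000a)) e e)))
 (c (a (nat_lit 0x7a6e40c7cb86d67))
 (c z e
 (c (a (nat_lit 0x1a6aa9094000000008)) e e))
 (c (a (nat_lit 0x96137bc960cdae6)) e
 (c (a (nat_lit 0x3b81ddfc75d8e26)) e
 (c z e
 (c (a (nat_lit 0x16918ac8fe6ecfc7)) e
 (c (a (nat_lit 0x1388249571f49487)) e
 (c (a (nat_lit 0x403c644f0648649)) e e)))))))))))
 (c (a (nat_lit 0x202118c298708)) e
 (c z e
 (c (a (nat_lit 0x128c27056562e8))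
 (c z e
 (c z e
 (c (a (nat_lit 0x137515f8fcb5f209)) e
 (c z e
 (c z e
 (c z e
 (c z e
 (c (a (nat_lit 0x5bbf6c964400009)) e e))))))))
 (c (a (nat_lit 0x13f275756cd1a6))
 (c (a (nat_lit 0xb0a86e78e6e1369)) e
 (c (a (nat_lit 0xcab4e7151152669)) e
 (c (a (nat_lit 0x16ff7755f6605a8)) e
 (c z e
 (c z e
 (c (a (nat_lit 0xb0d4a4832270009)) e
 (c (a (nat_lit 0x10c947636000000a)) e e)))))))
 (c (a (nat_lit 0x12b13144bbb645))
 (c (a (nat_lit 0xed3e366f0e59327)) e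
 (c z e
 (c z e
 (c (b (nat_lit 0x750fff1f0954948)) e
 (c (a (nat_lit 0x1655595cf0600008)) e
 (c (a (nat_lit 0x131c282000000008)) e e))))))
 (c z e
 (c z e
 (c (a (nat_lit 0x6d75920a08f05)) e
 (c (a (nat_lit 0xdcf032c539de6)) e
 (c (a (nat_lit 0x108ab21dbc3b27)) e
 (c z e
 (c z e
 (c (a (nat_lit 0x79495739292e6)) e
 (c (a (nat_lit 0x86c8581a25a84)) e
 (c (a (nat_lit 0x15f45393b9ad06)) e e))))))))))))))))
 (c (a (nat_lit 0x20000001))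
 (c (a (nat_lit 0x416ae4b6a2a26)) e
 (c (a (nat_lit 0x138c6222c2c047)) e
 (c (a (nat_lit 0xb49aacac8b027)) e
 (c z e
 (c z e
 (c z e
 (c (a (nat_lit 0xe37196080a8a5))
 (c (a (nat_lit 0x102da94488c24009)) e e)
 (c (a (nat_lit 0x6ce228d511326)) e
 (c z e
 (c z e
 (c z e
 (c z e
 (c (a (nat_lit 0xad9930b282d87)) e
 (c (a (nat_lit 0x18d24a87ad02c7)) e e))))))))))))))
 (c (a (nat_lit 0x6060606061))
 (c (a (nat_lit 0x120caeeeeb8ca6)) e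
 (c z e
 (c z e
 (c z e
 (c (a (nat_lit 0x63ed9a0a0c245)) e
 (c (a (nat_lit 0x10cc8062650fe6))
 (c (a (nat_lit 0x18ea4fdded400008)) e e) e))))))
 (c (nat_lit 1)
 (c z e
 (c z e
 (c (a (nat_lit 0xd197380602006))
 (c (b (nat_lit 0xeeebfe21b34ee87)) e e)
 (c (b (nat_lit 0x16d460615ff466)) e
 (c z e
 (c z e
 (c z e
 (c (a (nat_lit 0x82c44c9b032a8)) e
 (c z e
 (c z e
 (c z e
 (c z e
 (c (a (nat_lit 0x16f3b2d24e0008)) e e)))))))))))))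
 (c (a (nat_lit 0x20004001))
 (c (a (nat_lit 0x1b787780402005))
 (c (a (nat_lit 0xcf42029539071e7)) e
 (c (a (nat_lit 0x10a401a89092e028)) e e))
 (c (a (nat_lit 0x177685cdccb146))
 (c (a (nat_lit 0x90324ae514b8848)) e e)
 (c z e
 (c z e
 (c z e
 (c (a (nat_lit 0x106dca42811b47)) e
 (c (a (nat_lit 0xa2888cd369d48)) e
 (c z e
 (c z e
 (c z e
 (c (a (nat_lit 0x15bb14b4bc4e28)) e
 (c (a (nat_lit 0x1a94342e400008)) e e))))))))))))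
 (c (a (nat_lit 0x4040404041))
 (c (a (nat_lit 0x15cb6dabce2945))
 (c (a (nat_lit 0xe498e8dd2070926)) e e)
 (c z e
 (c z e
 (c (a (nat_lit 0xe7673a2e0c066)) e
 (c (a (nat_lit 0xeccc62406fdc6)) e
 (c (a (nat_lit 0x786e6ebb1b348)) e
 (c z e
 (c z e
 (c (a (nat_lit 0x590b3b0e72727)) e
 (c (a (nat_lit 0x123812e0c04006)) e
 (c (a (nat_lit 0x17f26040000006)) e e)))))))))))
 (c (a (nat_lit 0x6060406061))
 (c z e
 (c (a (nat_lit 0x145830606022a5)) e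
 (c (a (nat_lit 0x1bd5678802bac5)) e
 (c z e
 (c z e
 (c z e
 (c z e
 (c (a (nat_lit 0xd47f26746c6a7)) e
 (c (a (nat_lit 0x2976140400006)) e e)))))))))
 (c (a (nat_lit 0x6060606061))
 (c (a (nat_lit 0xfce00a0403604)) e
 (c z e
 (c z e
 (c z e
 (c z e
 (c z e
 (c (a (nat_lit 0x6e40db1e18006)) e e)))))))
 (c (a (nat_lit 0xe1212120c1))
 (c z e
 (c z e
 (c (b (nat_lit 0x1fffffe6da5946)) e e)))
 (c (a (nat_lit 0x2020203cc4))
 (c (a (nat_lit 0x32621a2057447)) e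
 (c (a (nat_lit 0x2c303240932e9)) e e))
 (c (a (nat_lit 0x203ff7e4))
 (c (a (nat_lit 0x38385cf5e9328)) e e)
 (c (a (nat_lit 0xb2b3247c024)) e
 (c z e
 (c (a (nat_lit 0x1d6c11c14164)) e
 (c (a (nat_lit 0xab060402c44)) e
 (c (a (nat_lit 0x80020261745)) e
 (c z e
 (c z e
 (c z e
 (c (a (nat_lit 0x141a00406605)) e
 (c (a (nat_lit 0x19802025aa45)) e e)))))))))))))))))))))) Tr.c Tr.e (nat_lit 0) C.cx C.cy
noncomputable def C425 : Tr := beta% (fun (c : Nat → Tr → Tr → Tr) (e : Tr) (z : Nat) (a b : Nat → Nat) =>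
 (c (a (nat_lit 0x20200001))
 (c z
 (c z e
 (c (a (nat_lit 0xb43aa48a0c27027))
 (c (a (nat_lit 0x10f10eab8c53cfaf49))
 (c (a (nat_lit 0x2e1e342a34272b325aa)) e
 (c (a (nat_lit 0x2642301a4d1b3f3ebea)) e e))
 (c z e
 (c z e
 (c z e
 (c z e
 (c (a (nat_lit 0x120cae336d4cc92649)) e e))))))
 (c z e
 (c z e
 (c z e
 (c z e
 (c (b (nat_lit 0x2acc7fe03394e6)) e
 (c z e
 (c z e
 (c z e
 (c z e
 (c (a (nat_lit 0x1189a265b1a04947)) e e))))))))))))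
 (c (a (nat_lit 0x202020203188))
 (c (a (nat_lit 0x24562c0c58cd287))
 (c (a (nat_lit 0x16d56eee3274752908))
 (c (a (nat_lit 0x2c402a240cf11a683e9)) e e)
 (c z e
 (c z e
 (c z e
 (c (a (nat_lit 0x1778746e892c2baaaa)) e
 (c (a (nat_lit 0x101679868f2ccb06a8)) e e))))))
 (c z e
 (c z e
 (c z e
 (c (a (nat_lit 0xd94318d2d72fac8))
 (c z e
 (c (a (nat_lit 0xf8db02a0a47a0000a)) e e))
 (c (a (nat_lit 0x7e7e62b15164b87))
 (c (a (nat_lit 0x13b0a72be880000008)) e e)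
 (c z e
 (c z e
 (c z e
 (c z e
 (c (a (nat_lit 0x7a605c6a7659329)) e e)))))))))))
 (c (a (nat_lit 0x202020316728)) e
 (c (a (nat_lit 0x20203a2cc628)) e
 (c (a (nat_lit 0x203e4c65a528)) e
 (c (a (nat_lit 0x21e6605a5c5c8))
 (c z e
 (c (a (nat_lit 0x26749a823f149aa)) e
 (c z e
 (c z e
 (c z e
 (c z e
 (c (a (nat_lit 0x134da96be665600a)) e e)))))))
 (c (b (nat_lit 0x1e279fe0202127))
 (c (a (nat_lit 0x774310e09ac12e7)) e
 (c z e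
 (c z e
 (c z e
 (c z e
 (c (a (nat_lit 0xc11cdedc7e00009)) e e))))))
 (c (a (nat_lit 0x13ebce4e529ce6)) e
 (c z e
 (c z e
 (c z e
 (c (a (nat_lit 0xebc9e1d367d47)) e
 (c z e
 (c z e
 (c z e
 (c z e
 (c (a (nat_lit 0x1776216c4f4506)) e e)))))))))))))))))
 (c (a (nat_lit 0x2020202021))
 (c (a (nat_lit 0x20202030a707))
 (c (a (nat_lit 0x3e060cb701d3cc5))
 (c z e
 (c z e
 (c z e
 (c (a (nat_lit 0x1af8b6cbc72bbca027)) e
 (c (a (nat_lit 0x11ab2b222548a543e9)) e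
 (c (a (nat_lit 0x7f060c487c8888388)) e e))))))
 (c z e
 (c z e
 (c z e
 (c (a (nat_lit 0x8ce534f70954f47))
 (c z e
 (c (a (nat_lit 0x125e49cb0b00000008)) e e))
 (c (a (nat_lit 0x917ef397a9459a6))
 (c (a (nat_lit 0x19b3b02c2000000007)) e e)
 (c z e
 (c z e
 (c z e
 (c (a (nat_lit 0x1634686548e354e7)) e
 (c (a (nat_lit 0x7464545e193aca8)) e e)))))))))))
 (c (a (nat_lit 0x2020398e4ba8)) e
 (c (a (nat_lit 0x2223c8fa906a8)) e
 (c z e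
 (c (a (nat_lit 0x1607c7844443c8))
 (c z e
 (c (a (nat_lit 0x1850b43e7342dc9)) e
 (c z e
 (c z e
 (c z e
 (c z e
 (c (a (nat_lit 0x14d0d30424e00009)) e e)))))))
 (c (a (nat_lit 0x100040c080b925))
 (c (b (nat_lit 0x46c4841e8f05fe8)) e
 (c z e
 (c z e
 (c z e
 (c (a (nat_lit 0x190240cd6640008)) e
 (c (a (nat_lit 0x1bcb09e760000008)) e e))))))
 (c (a (nat_lit 0x5676789d03266)) e
 (c z e
 (c z e
 (c (a (nat_lit 0x12e30d6d554e6)) e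
 (c (a (nat_lit 0x1233781795cbe7)) e
 (c z e
 (c z e
 (c z e
 (c (a (nat_lit 0xb0f1fbfa04305)) e
 (c (a (nat_lit 0xb53b3a0c56766)) e e))))))))))))))))
 (c (a (nat_lit 0x4040404041))
 (c (a (nat_lit 0x202184dcc0607)) e
 (c z e
 (c (a (nat_lit 0x192bc66241c088)) e
 (c (a (nat_lit 0x1678d8165596c6)) e e))))
 (c (a (nat_lit 0x2020202021))
 (c (a (nat_lit 0x182f8647876387)) e
 (c (a (nat_lit 0x13eeb1312aee67)) e e))
 (c (a (nat_lit 0x2020202021))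
 (c (a (nat_lit 0xd4fcfcb341466)) e
 (c z e
 (c z e
 (c z e
 (c z e
 (c z e
 (c z e
 (c z e
 (c z e
 (c z e
 (c z e
 (c z e
 (c z e
 (c (a (nat_lit 0x1c403600e00005)) e e))))))))))))))
 (c (a (nat_lit 0x4040204041))
 (c z e
 (c (a (nat_lit 0xf719455a80507))
 (c (a (nat_lit 0xacc281815f28f08)) e e)
 (c z e
 (c z e
 (c z e
 (c z e
 (c (a (nat_lit 0x17144dcee587c6)) e
 (c z e
 (c z e
 (c z e
 (c z e
 (c (a (nat_lit 0xa5b38ae0de007)) e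
 (c (a (nat_lit 0x1b15e080000006)) e e)))))))))))))
 (c (a (nat_lit 0x20000001))
 (c (a (nat_lit 0xed193044388e6))
 (c (a (nat_lit 0xdd270b3be4c08a6)) e e)
 (c z e
 (c z e
 (c z e
 (c (a (nat_lit 0x133a0dea4ce9c5)) e
 (c (a (nat_lit 0x1d5756c924f106)) e
 (c z e
 (c z e
 (c z e
 (c (a (nat_lit 0x5e5af5105e5e7)) e
 (c (b (nat_lit 0x1ff114c0200006)) e e)))))))))))
 (c (a (nat_lit 0x6060606061)) e
 (c (nat_lit 1)
 (c (a (nat_lit 0x178aa1a3714143)) e e)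
 (c (a (nat_lit 0xe1212120a1)) e
 (c (a (nat_lit 0x202001))
 (c z e
 (c (a (nat_lit 0x466848404d4c8)) e e))
 (c (a (nat_lit 0x20203107))
 (c (a (nat_lit 0x7874774f94927)) e e)
 (c (b (nat_lit 0x20203a9fe6)) e
 (c (a (nat_lit 0x3e3fcc0a006))
 (c (a (nat_lit 0x1cfddb20000008)) e e)
 (c z e
 (c (a (nat_lit 0x1f02a2a02006)) e
 (c (a (nat_lit 0x9ea60403364)) e
 (c (a (nat_lit 0x865e5cab306)) e
 (c z e
 (c z e
 (c z e
 (c (a (nat_lit 0xc75f5004106)) e e))))))))))))))))))))))) Tr.c Tr.e (nat_lit 0) C.cx C.cy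
noncomputable def C426 : Tr := beta% (fun (c : Nat → Tr → Tr → Tr) (e : Tr) (z : Nat) (a b : Nat → Nat) =>
 (c (a (nat_lit 0x60606061))
 (c (nat_lit 1)
 (c z
 (c (a (nat_lit 0x37724600c74a63))
 (c z e
 (c z e
 (c z e
 (c z e
 (c z e
 (c z e
 (c z e
 (c z e
 (c (a (nat_lit 0x4a4c62544c6fa8586)) e
 (c (a (nat_lit 0x164e202c151830787)) e e))))))))))
 (c (a (nat_lit 0x17ce4722044b3ca4))
 (c z e
 (c z e
 (c z e
 (c z e
 (c z e
 (c z e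
 (c z e
 (c (a (nat_lit 0x4a50282a4d664e5a8)) e
 (c z e
 (c (a (nat_lit 0x32403693329e8c588)) e e))))))))))
 (c (a (nat_lit 0xbe6c7080dd976e4))
 (c z e
 (c z e
 (c z e
 (c z e
 (c z e
 (c z e
 (c z e
 (c (a (nat_lit 0x301ea56030685cb88)) e e))))))))
 (c z e
 (c z e
 (c z e
 (c z e
 (c z e
 (c z e
 (c (a (nat_lit 0x160882c545c4e024)) e
 (c (a (nat_lit 0x15b6f99e8f6ee024)) e
 (c (a (nat_lit 0xe4fb230eb706025)) e
 (c (a (nat_lit 0x1210f0ad0fec68c6)) e e)))))))))))))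
 (c z
 (c (a (nat_lit 0xf0dadc96f37cd05)) e e)
 (c z
 (c z e
 (c z e
 (c z e
 (c z e
 (c z e
 (c z e
 (c z e
 (c z e
 (c (a (nat_lit 0x1435c82824c06348)) e e)))))))))
 (c (a (nat_lit 0x1507))
 (c z e
 (c z e
 (c z e
 (c z e
 (c z e
 (c z e
 (c (b (nat_lit 0xa33a81fe101a686)) e
 (c z e
 (c (b (nat_lit 0x104450dfffe802a5)) e e)))))))))
 (c (a (nat_lit 0x20202038c887)) e
 (c (a (nat_lit 0x2020322824a8)) e
 (c (a (nat_lit 0x1011162a22248))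
 (c z e
 (c z e
 (c z e
 (c (b (nat_lit 0xa5885ff14ec267)) e e))))
 (c z e
 (c (a (nat_lit 0x1d0c83c2a146c6))
 (c (a (nat_lit 0x8e6cccce5763fe6)) e e)
 (c (a (nat_lit 0x822e2e04ef745)) e
 (c (a (nat_lit 0x2e2a2aa10f8a6))
 (c (a (nat_lit 0x5258cd306610387)) e e) e)))))))))))
 C425)
 (c (nat_lit 1)
 (c (nat_lit 1)
 (c (a (nat_lit 0x20203f44))
 (c (a (nat_lit 0x16e8cc3100205683))
 (c z e
 (c (a (nat_lit 0x1151ef2d70369090c7)) e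
 (c z e
 (c z e
 (c z e
 (c (a (nat_lit 0xa4d7265e3a6288827)) e e))))))
 (c (a (nat_lit 0x8292a806078dc45))
 (c (a (nat_lit 0xf0d4b6a142ecfb028))
 (c (a (nat_lit 0x3c5244324109c0481e9)) e e)
 (c z e
 (c z e
 (c z e
 (c (a (nat_lit 0x10d0adaa688a4867a9)) e
 (c (a (nat_lit 0x12b6fcb2b4311205c7)) e e))))))
 (c z e
 (c z e
 (c z e
 (c (a (nat_lit 0x4e988a220c0dca6)) e
 (c (a (nat_lit 0x42b81c264968d85)) e
 (c z e
 (c (a (nat_lit 0x38c75d9cb668c45)) e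
 (c z e
 (c (a (nat_lit 0x10d22b228bceafa6)) e
 (c (a (nat_lit 0x5e28387e4a1fac7)) e e))))))))))))
 (c (a (nat_lit 0x20202035cee6))
 (c (a (nat_lit 0x4c4e0426b98f846))
 (c (a (nat_lit 0x19150dddbadaf10ac7))
 (c (a (nat_lit 0x36281a18977c2e162c9)) e e)
 (c z e
 (c z e
 (c (a (nat_lit 0x11af8beb0a2b2c898a)) e
 (c (a (nat_lit 0x183ab02c8fedadea29)) e
 (c (a (nat_lit 0x1c1b6cf07818a5c127)) e e))))))
 (c z e
 (c z e
 (c (b (nat_lit 0x2bb79fe84056a7))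
 (c z e
 (c z e
 (c (a (nat_lit 0xcd06c6c2a48e0000a)) e e)))
 (c (a (nat_lit 0x825e1e2607db947))
 (c (a (nat_lit 0xf2dc9282993860008)) e
 (c (a (nat_lit 0x10108a2b88e0000009)) e e))
 (c (a (nat_lit 0x685ac1299350d26)) e
 (c z e
 (c (a (nat_lit 0x3eaec0842a0b007)) e
 (c z e
 (c (a (nat_lit 0x1792c6e9be709a87)) e
 (c (a (nat_lit 0x3e404ea2692ecc9)) e e)))))))))))
 (c (a (nat_lit 0x808098100a86)) e
 (c (a (nat_lit 0x20336c85e687))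
 (c z e
 (c z e
 (c z e
 (c z e
 (c z e
 (c z e
 (c (a (nat_lit 0x10268fdee70ce006)) e e)))))))
 (c (a (nat_lit 0x219a9c525a5a7))
 (c z e
 (c z e
 (c (a (nat_lit 0x78cad8a8a518d69)) e
 (c z e
 (c z e
 (c z e
 (c z e
 (c (a (nat_lit 0x108ad14da483e009)) e e))))))))
 (c (a (nat_lit 0x1e876708a8a7c6))
 (c (b (nat_lit 0x1feb0d66c7519828)) e
 (c (a (nat_lit 0x16d22c6a93bb2a48)) e
 (c z e
 (c z e
 (c z e
 (c (a (nat_lit 0x9b022e3a58944a9)) e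
 (c (a (nat_lit 0x118e0c2905c00009)) e e)))))))
 (c (a (nat_lit 0x60020202050e5))
 (c (a (nat_lit 0x111246c0e6764066)) e
 (c z e
 (c z e
 (c z e
 (c (a (nat_lit 0x8d1851517e76007)) e
 (c (a (nat_lit 0x1feb8e65c0000008)) e e))))))
 (c (a (nat_lit 0xc8e4e509b7b25)) e
 (c z e
 (c z e
 (c (a (nat_lit 0x57357a0203145)) e
 (c (a (nat_lit 0xfb1c6d57e99c6)) e
 (c z e
 (c z e
 (c z e
 (c (a (nat_lit 0xe18d12aadd185)) e
 (c (a (nat_lit 0x1a936d3053b3a5)) e e)))))))))))))))))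
 C424)
 (c (nat_lit 1) C423
 C422)))) Tr.c Tr.e (nat_lit 0) C.cx C.cy
noncomputable def C427 : Tr := beta% (fun (c : Nat → Tr → Tr → Tr) (e : Tr) (z : Nat) (a b : Nat → Nat) =>
 (c (nat_lit 1)
 (c z
 (c (a (nat_lit 0x3ec32ef83004865))
 (c z e
 (c z e
 (c z e
 (c z e
 (c z e
 (c z e
 (c z e
 (c z e
 (c (a (nat_lit 0xe184026120443268)) e
 (c (a (nat_lit 0x16183a182023de488)) e e))))))))))
 (c (a (nat_lit 0x128ac800e02388c7))
 (c z e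
 (c z e
 (c z e
 (c z e
 (c z e
 (c z e
 (c (a (nat_lit 0x84aace7c3a726d1c9)) e e)))))))
 (c (a (nat_lit 0x170bc340c4cc1245)) e
 (c z e
 (c z e
 (c z e
 (c z e
 (c z e
 (c z e
 (c z e
 (c z e
 (c (a (nat_lit 0x18db1ebc94f1f246)) e
 (c z e
 (c z e
 (c z e
 (c z e
 (c (a (nat_lit 0x135165045ce22004)) e e)))))))))))))))))
 (c z
 (c (a (nat_lit 0xca5204043f6aaa6)) e e)
 (c z e
 (c z
 (c z e
 (c z e
 (c z e
 (c z e
 (c z e
 (c z e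
 (c z e
 (c (a (nat_lit 0x18bdda1486408dc7)) e e))))))))
 (c (a (nat_lit 0x202020203808)) e
 (c (a (nat_lit 0x2020203ba828)) e
 (c (a (nat_lit 0x20203242a1c9)) e
 (c (a (nat_lit 0x1e1f3c5220108)) e
 (c z e
 (c (a (nat_lit 0x1201e0e0202408)) e
 (c (a (nat_lit 0x8c6a666761da6)) e e)))))))))))
 (c (a (nat_lit 0x4040404041))
 (c z
 (c z e
 (c z e
 (c z e
 (c z e
 (c z e
 (c z e
 (c z e
 (c z e
 (c z e
 (c z e
 (c (a (nat_lit 0x14d5b812b13340e6)) e e)))))))))))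
 (c z e
 (c (a (nat_lit 0xa0a0a0a0b0c8)) e
 (c (a (nat_lit 0x15a948)) e
 (c (a (nat_lit 0x20203dcae3c8)) e
 (c (a (nat_lit 0x2021e096825e8)) e
 (c (a (nat_lit 0x230a6e381a1a8)) e
 (c (a (nat_lit 0x1d0ae24100e647)) e
 (c (a (nat_lit 0x3006040477067)) e e)))))))))
 (c (a (nat_lit 0x4040204041))
 (c (a (nat_lit 0x2020202032c7)) e
 (c (a (nat_lit 0x202020344708))
 (c z e
 (c z e
 (c z e
 (c z e
 (c z e
 (c z e
 (c (a (nat_lit 0xa27aaacfaaf51c7)) e e)))))))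
 (c (a (nat_lit 0x20203dad4728)) e
 (c (a (nat_lit 0x2223cae884728)) e
 (c z e
 (c (a (nat_lit 0x1267c4e2626208)) e
 (c (a (nat_lit 0x108789898a2d66)) e
 (c (a (nat_lit 0xe0ff0f4361706)) e e))))))))
 (c (a (nat_lit 0x4040404041))
 (c (a (nat_lit 0x203428c767)) e
 (c (a (nat_lit 0x2038ad4804a8)) e
 (c z e
 (c (b (nat_lit 0x14a51fe1010008)) e
 (c (a (nat_lit 0x1d1840e0e06464)) e e)))))
 (c (a (nat_lit 0x2020202021))
 (c (a (nat_lit 0x15d5309c76767)) e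
 (c (a (nat_lit 0x1e32ea08a8a488)) e
 (c (a (nat_lit 0x110fcf6f694767)) e
 (c (b (nat_lit 0x1bf51f3ff2e885)) e
 (c z e
 (c z e
 (c z e
 (c z e
 (c z e
 (c z e
 (c z e
 (c z e
 (c z e
 (c z e
 (c z e
 (c (a (nat_lit 0x16494040200005)) e e))))))))))))))))
 (c (a (nat_lit 0x6060606061))
 (c (a (nat_lit 0x12aed030280e86))
 (c (a (nat_lit 0x198a4020a25690e6)) e e)
 (c z e
 (c z e
 (c z e
 (c z e
 (c z e
 (c z e
 (c z e
 (c z e
 (c z e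
 (c z e
 (c z e
 (c z e
 (c (a (nat_lit 0x142c41e2020007)) e
 (c (a (nat_lit 0x15206040000006)) e e)))))))))))))))
 (c (a (nat_lit 0x2020202021))
 (c z e
 (c z e
 (c z e
 (c z e
 (c z e
 (c z e
 (c z e
 (c z e
 (c z e
 (c z e
 (c z e
 (c z e
 (c (b (nat_lit 0x1ff863c3a00005)) e e)))))))))))))
 (c (a (nat_lit 0x4040404041)) e
 (c (a (nat_lit 0x4040204041)) e
 (c (nat_lit 1) e
 (c (a (nat_lit 0x121818160e1)) e
 (c (a (nat_lit 0x8080808081))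
 (c z e
 (c (a (nat_lit 0x6ea2ae664fd68)) e e))
 (c (a (nat_lit 0x20202001))
 (c (a (nat_lit 0x3c4ca2a917427)) e e)
 (c (a (nat_lit 0x20202030c7)) e
 (c (b (nat_lit 0x20301fe7))
 (c (a (nat_lit 0x1cdc9e3b800008)) e
 (c (a (nat_lit 0x13e5e000000004)) e e))
 (c (a (nat_lit 0x203381a247)) e
 (c z e
 (c (a (nat_lit 0x1260a1202027)) e
 (c (a (nat_lit 0x6f040403d43)) e
 (c (a (nat_lit 0x7c0402e7424)) e e))))))))))))))))))))) Tr.c Tr.e (nat_lit 0) C.cx C.cy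
noncomputable def C428 : Tr := beta% (fun (c : Nat → Tr → Tr → Tr) (e : Tr) (z : Nat) (a b : Nat → Nat) =>
 (c (a (nat_lit 0x2020202021))
 (c z
 (c (a (nat_lit 0x7c220203175a9a5))
 (c z e
 (c z e
 (c z e
 (c z e
 (c z e
 (c z e
 (c z e
 (c (a (nat_lit 0x768264126964ca287)) e e)))))))) e)
 (c z e
 (c z
 (c z e
 (c z e
 (c z e
 (c z e
 (c z e
 (c z e
 (c (a (nat_lit 0x69f2d46e4cd8507)) e e)))))))
 (c (a (nat_lit 0xa0a0a0a0b448)) e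
 (c (a (nat_lit 0x2020203586e8)) e
 (c (a (nat_lit 0x202039e5c308)) e
 (c (a (nat_lit 0x22231a7a36128)) e
 (c (a (nat_lit 0x33d0ce5828287)) e
 (c (a (nat_lit 0x1ac641a1414fe7)) e e)))))))))
 (c (a (nat_lit 0x4040404041))
 (c z
 (c z e
 (c z e
 (c z e
 (c z e
 (c z e
 (c z e
 (c z e
 (c (a (nat_lit 0x18a7260cf0179826)) e
 (c z e
 (c (a (nat_lit 0x9f136fcb5c37aa6)) e e))))))))))
 (c (a (nat_lit 0x202020203dc7)) e
 (c (a (nat_lit 0x20202032a708)) e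
 (c (a (nat_lit 0x2020380c6308)) e
 (c (a (nat_lit 0x203a2844c308)) e
 (c z e
 (c (b (nat_lit 0x1a0effe0404667)) e
 (c (b (nat_lit 0x59fe0404834e7))
 (c (a (nat_lit 0x6c72c26da841168)) e e) e))))))))
 (c (nat_lit 1)
 (c (a (nat_lit 0x2020203bcac6))
 (c (a (nat_lit 0x204022c6b643e6))
 (c (a (nat_lit 0x7046281988f02a1e7)) e
 (c z e
 (c z e
 (c z e
 (c z e
 (c (a (nat_lit 0x1726e1a961e0600008)) e e))))))
 (c z e
 (c z e
 (c z e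
 (c z e
 (c z e
 (c z e
 (c z e
 (c z e
 (c z e
 (c z e
 (c z e
 (c (a (nat_lit 0x8b421e000000005)) e e)))))))))))))
 (c (a (nat_lit 0x20203b30e788)) e
 (c (a (nat_lit 0x2021c70c726c8)) e
 (c (a (nat_lit 0x21f2ce8e70708))
 (c z e
 (c (b (nat_lit 0x44fc5feb8a2be7)) e e))
 (c (a (nat_lit 0x148bc4e2c2c228)) e
 (c (a (nat_lit 0x166eababad8be6)) e
 (c z e
 (c z e
 (c z e
 (c z e
 (c z e
 (c z e
 (c z e
 (c z e
 (c z e
 (c z e
 (c (a (nat_lit 0x138dcb058605e7)) e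
 (c (a (nat_lit 0x1fb46040400005)) e e))))))))))))))))))
 (c (a (nat_lit 0x2020202021))
 (c (a (nat_lit 0x203d360be7c7)) e
 (c z e
 (c (a (nat_lit 0x1d2faae74642a8)) e
 (c (b (nat_lit 0x126caa88bfe627)) e
 (c z e
 (c z e
 (c z e
 (c z e
 (c z e
 (c z e
 (c z e
 (c z e
 (c z e
 (c z e
 (c z e
 (c (a (nat_lit 0x730ee4e4e2006)) e
 (c (a (nat_lit 0x16a2c2a0000003)) e e)))))))))))))))))
 (c (nat_lit 1)
 (c (a (nat_lit 0x18cee524240027))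
 (c (a (nat_lit 0xae4a845cc34fee6)) e
 (c z e
 (c z e
 (c z e
 (c z e
 (c z e
 (c z e
 (c (a (nat_lit 0xb307792a8800008)) e e))))))))
 (c (a (nat_lit 0x14f2b1f1eaedc7)) e
 (c z e
 (c z e
 (c z e
 (c z e
 (c z e
 (c z e
 (c z e
 (c z e
 (c z e
 (c z e
 (c z e
 (c z e
 (c (a (nat_lit 0xefd1593200006)) e e)))))))))))))))
 (c (a (nat_lit 0x4040204041)) e
 (c (a (nat_lit 0x2020202021)) e
 (c (a (nat_lit 0x20002001))
 (c (b (nat_lit 0x1ffff6e5a28405))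
 (c (a (nat_lit 0xdf28c30ec0ac407)) e
 (c (a (nat_lit 0xbff25126400008)) e e))
 (c (a (nat_lit 0x71883e0418226))
 (c (a (nat_lit 0x14a6e861c0000009)) e e) e))
 (c (nat_lit 1)
 (c (a (nat_lit 0x1d44c082442d45))
 (c (a (nat_lit 0xd54028000000006)) e e)
 (c z e
 (c z e
 (c z e
 (c z e
 (c z e
 (c (a (nat_lit 0x15684b8226b305)) e e)))))))
 (c (a (nat_lit 0x80c0c0c061)) e
 (c (a (nat_lit 0x4040406061))
 (c (a (nat_lit 0xa911330c94046)) e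
 (c (a (nat_lit 0xa0ece8821f387)) e e))
 (c (a (nat_lit 0x202001))
 (c (a (nat_lit 0x2e7c8c9699407)) e e)
 (c (a (nat_lit 0x2020202021))
 (c z e
 (c z e
 (c (a (nat_lit 0x13b27532200008)) e
 (c (a (nat_lit 0x18404000000001)) e e))))
 (c (a (nat_lit 0x201606))
 (c (a (nat_lit 0x14f49517fb0008)) e
 (c (a (nat_lit 0x14002020000004)) e
 (c (nat_lit 1) e e)))
 (c (a (nat_lit 0x20203d05e6)) e
 (c (a (nat_lit 0x203d05e366)) e
 (c z e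
 (c (a (nat_lit 0x1be4c2402006)) e
 (c (a (nat_lit 0x12e860202de4)) e
 (c (a (nat_lit 0x42020271025)) e
 (c z e
 (c z e
 (c z e
 (c z e
 (c (b (nat_lit 0x113fe3404046)) e
 (c (b (nat_lit 0x1ff7e0400003)) e e))))))))))))))))))))))))))) Tr.c Tr.e (nat_lit 0) C.cx C.cy
noncomputable def C429 : Tr := beta% (fun (c : Nat → Tr → Tr → Tr) (e : Tr) (z : Nat) (a b : Nat → Nat) =>
 (c z
 (c (a (nat_lit 0x20202020203466))
 (c (a (nat_lit 0x9e9e8e910d4799226))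
 (c z e
 (c z e
 (c z e
 (c z e
 (c z e
 (c z e
 (c z e
 (c z e
 (c (a (nat_lit 0x664c462c3a5578e4d68)) e
 (c z e
 (c z e
 (c (a (nat_lit 0x985c646646751e94009)) e e))))))))))))
 (c z e
 (c z e
 (c z e
 (c z e
 (c z e
 (c z e
 (c z e
 (c z e
 (c z e
 (c (a (nat_lit 0x72126a8078625f3e6)) e e)))))))))))
 (c (a (nat_lit 0x808080809d47c7))
 (c z e
 (c z e
 (c z e
 (c z e
 (c z e
 (c z e
 (c z e
 (c z e
 (c z e
 (c (a (nat_lit 0x10cd8baba8e9e54a27)) e e))))))))))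
 (c (a (nat_lit 0x202020382a47c7)) e
 (c (a (nat_lit 0x20203d4f0800e7))
 (c z e
 (c z e
 (c z e
 (c z e
 (c z e
 (c z e
 (c (a (nat_lit 0x10e6e4686a2aa76708)) e e)))))))
 (c (a (nat_lit 0x20320a06026268)) e
 (c (b (nat_lit 0x1ff2aba8e3222268)) e
 (c (a (nat_lit 0x1028e6428282c3e8)) e
 (c (b (nat_lit 0x16f68a8a6dffe826)) e
 (c z e
 (c z e
 (c z e
 (c z e
 (c z e
 (c z e
 (c z e
 (c z e
 (c (a (nat_lit 0x16b7bfafb847cd84)) e e)))))))))))))))))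
 (c z
 (c (a (nat_lit 0xc0c0c0d184c407)) e
 (c (b (nat_lit 0x20203b48e77fe7))
 (c z e
 (c z e
 (c z e
 (c z e
 (c z e
 (c z e
 (c z e
 (c (a (nat_lit 0xfd42f77da13608867)) e e))))))))
 (c (a (nat_lit 0x1011f5029a02027))
 (c z e
 (c z e
 (c z e
 (c z e
 (c z e
 (c z e
 (c (a (nat_lit 0x106ede7511a2ed7327)) e e)))))))
 (c (b (nat_lit 0x1ff1e90540e0a3a8)) e
 (c (a (nat_lit 0x11e9e6c26163c388)) e
 (c (a (nat_lit 0x13ae464651558966)) e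
 (c z e
 (c z e
 (c z e
 (c z e
 (c z e
 (c z e
 (c z e
 (c z e
 (c (a (nat_lit 0x112aebeae7860348)) e e)))))))))))))))
 (c z
 (c (a (nat_lit 0x38394cc6ac34346))
 (c z e
 (c z e
 (c z e
 (c z e
 (c z e
 (c z e
 (c z e
 (c (a (nat_lit 0x9aced754aa5e0ec47)) e
 (c (a (nat_lit 0xeee90274be600e586)) e e)))))))))
 (c (a (nat_lit 0x4d8f32c84a49147))
 (c z e
 (c z e
 (c z e
 (c z e
 (c z e
 (c (a (nat_lit 0xd07b27a162aa22b27)) e e))))))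
 (c (a (nat_lit 0x182e8602020a4a47))
 (c z e
 (c z e
 (c z e
 (c z e
 (c z e
 (c (b (nat_lit 0xc745022bfe3d8fc87)) e e))))))
 (c (a (nat_lit 0x19128ca8d817ce46))
 (c z e
 (c z e
 (c z e
 (c (a (nat_lit 0xbccae47c94984b4a7)) e e)))) e))))
 (c z
 (c (a (nat_lit 0x145125404027bd86))
 (c z e
 (c z e
 (c z e
 (c z e
 (c z e
 (c (a (nat_lit 0x72deeee8869e0b207)) e e))))))
 (c (a (nat_lit 0x13ca26664cb86b66)) e
 (c (b (nat_lit 0x863a65ffeffffe6)) e e)))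
 (c z
 (c (a (nat_lit 0x155295322cfd75a5))
 (c z e
 (c z e
 (c z e
 (c z e
 (c z e
 (c (a (nat_lit 0xf4f684ab917d10b28)) e e))))))
 (c z e
 (c z e
 (c z e
 (c z e
 (c z e
 (c z e
 (c z e
 (c z e
 (c z e
 (c z e
 (c z e
 (c (a (nat_lit 0x3a04736c6c0aba5)) e e)))))))))))))
 (c z e
 (c z
 (c (a (nat_lit 0x9d332a060ab7565))
 (c (a (nat_lit 0xfd1f0716cd2efc8c8)) e e) e)
 (c z e
 (c (a (nat_lit 0x1287)) e
 (c (a (nat_lit 0x2020203da4a6)) e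
 (c (a (nat_lit 0x1010113030267))
 (c (a (nat_lit 0x32066e750082826)) e e)
 (c (a (nat_lit 0x20211e342e1c7)) e
 (c (a (nat_lit 0x41967c643c3a6)) e
 (c (a (nat_lit 0x18680421414766))
 (c (a (nat_lit 0x1c5905a442600008)) e e)
 (c (a (nat_lit 0x7e5e1a16db3c5)) e
 (c (a (nat_lit 0x2e0c0cc2f3c46)) e
 (c z e
 (c z e
 (c z e
 (c z e
 (c (a (nat_lit 0x1222206080a046)) e
 (c (a (nat_lit 0x18a0612100c002)) e e))))))))))))))))))))))) Tr.c Tr.e (nat_lit 0) C.cx C.cy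
noncomputable def C430 : Tr := beta% (fun (c : Nat → Tr → Tr → Tr) (e : Tr) (z : Nat) (a b : Nat → Nat) =>
 (c (nat_lit 1)
 (c z
 (c z
 (c (a (nat_lit 0x1151482b0e2e4e5383)) e
 (c (a (nat_lit 0x9a7058847a78f5145))
 (c z e
 (c z e
 (c z e
 (c z e
 (c z e
 (c z e
 (c z e
 (c z e
 (c z e
 (c z e
 (c z e
 (c (a (nat_lit 0x2c4296524c2032a9308)) e e))))))))))))
 (c (a (nat_lit 0x6a3c582e2cfb4d745)) e
 (c (a (nat_lit 0x14341a18b0b6fb1a5)) e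
 (c z e
 (c z e
 (c z e
 (c z e
 (c z e
 (c z e
 (c z e
 (c z e
 (c z e
 (c z e
 (c (a (nat_lit 0x382842728c7285f45)) e
 (c (a (nat_lit 0x3a4c5ca8b0ba83066)) e e))))))))))))))))
 (c z
 (c (a (nat_lit 0x745c685c54d90ba26))
 (c z e
 (c z e
 (c z e
 (c z e
 (c z e
 (c z e
 (c z e
 (c z e
 (c (a (nat_lit 0x2e4e3e3c2a284b0d148)) e
 (c z e
 (c z e
 (c (a (nat_lit 0x50925458464e871e8c9)) e e))))))))))))
 (c (a (nat_lit 0x44302826c2f5273c7))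
 (c z e
 (c z e
 (c z e
 (c z e
 (c z e
 (c z e
 (c (a (nat_lit 0x70868a4c7ea6d99dca8)) e
 (c (a (nat_lit 0x985630464e7d8557b28)) e
 (c (a (nat_lit 0x4a201a2e290c5238509)) e e)))))))))
 (c z e
 (c z e
 (c z e
 (c z e
 (c z e
 (c z e
 (c z e
 (c z e
 (c z e
 (c (a (nat_lit 0x1136b9593463835746)) e
 (c (a (nat_lit 0xa6a0b48ca86445547)) e
 (c (a (nat_lit 0x2a3842687670bbf88)) e e))))))))))))))
 (c (a (nat_lit 0x181818181819a45))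
 (c z e
 (c z e
 (c z e
 (c z e
 (c z e
 (c z e
 (c z e
 (c z e
 (c (a (nat_lit 0x1b03ce87ed060f5b25)) e
 (c z e
 (c (a (nat_lit 0xb6989692362c9b247)) e e)))))))))))
 (c (a (nat_lit 0x606060607a2484))
 (c z e
 (c z e
 (c z e
 (c z e
 (c z e
 (c z e
 (c z e
 (c (a (nat_lit 0x82724c6e4c5728a26)) e
 (c z e
 (c (a (nat_lit 0xa0a29a5c549924a87)) e e))))))))))
 (c (a (nat_lit 0x1414141530bc3e5)) e
 (c (a (nat_lit 0x2020334a24a206)) e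
 (c (a (nat_lit 0x2c2d570cee7a5a6)) e
 (c (a (nat_lit 0x1b22aa944e4e466))
 (c z e
 (c z e
 (c z e
 (c z e
 (c z e
 (c z e
 (c (a (nat_lit 0x890ed8902e41110c8)) e
 (c (a (nat_lit 0x14bbd94863e5800008)) e e))))))))
 (c (a (nat_lit 0x1e8b6fa504c4a1c5))
 (c z e
 (c (a (nat_lit 0x24543e4cd963b5b47)) e e))
 (c (a (nat_lit 0x145c24a3ef681fa3))
 (c (a (nat_lit 0x6e325e2c0c852ec66)) e e)
 (c (a (nat_lit 0x721a3c888124a25)) e
 (c z e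
 (c z e
 (c z e
 (c (a (nat_lit 0xb770e0cccca4aa6)) e
 (c z e
 (c z e
 (c (a (nat_lit 0xc5130312d2f0c44)) e e))))))))))))))))))
 C429)
 (c (a (nat_lit 0x4040404041))
 (c z
 (c (a (nat_lit 0x2c2c2c2c2d2e6c5))
 (c (a (nat_lit 0xa4a6a6daf6f704ac6))
 (c z e
 (c z e
 (c z e
 (c z e
 (c z e
 (c z e
 (c z e
 (c (a (nat_lit 0x6a646e5e262932dcaa8)) e e))))))))
 (c z e
 (c z e
 (c z e
 (c z e
 (c z e
 (c z e
 (c z e
 (c (a (nat_lit 0xaab86500d69bd4ce5)) e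
 (c z e
 (c z e
 (c (a (nat_lit 0x7a766a2a44970e7e8)) e e))))))))))))
 (c (a (nat_lit 0xa0a0a0ba28e7e7)) e
 (c (a (nat_lit 0xc0c0d78bc78007)) e
 (c (a (nat_lit 0x4c4d28d2a2605c8)) e
 (c (b (nat_lit 0x1ffb516ba2a24507)) e
 (c (a (nat_lit 0x1c75cf2503a48627)) e
 (c (a (nat_lit 0x1610054526cc8a06)) e
 (c (b (nat_lit 0x134d6d6fffea0047)) e e))))))))
 (c z
 (c (a (nat_lit 0x808091e6256028)) e
 (c (a (nat_lit 0x3d2d09e0a0a8)) e
 (c (b (nat_lit 0x1ff0c8c6206062e9)) e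
 (c (a (nat_lit 0x10a805a060218089)) e
 (c (b (nat_lit 0x180e09e7e9e4bfe7)) e e)))))
 (c z
 (c (b (nat_lit 0x1ff7ad08a0404d67))
 (c z e
 (c z e
 (c z e
 (c z e
 (c z e
 (c z e
 (c z e
 (c (a (nat_lit 0x849552ea6a1cdb388)) e e))))))))
 (c (a (nat_lit 0x1bb089c04026d2c8)) e
 (c (a (nat_lit 0x1289e2020c546bc7)) e e)))
 (c z
 (c (a (nat_lit 0x1165a06044bd0766)) e e)
 (c z e
 (c z e
 (c z e
 (c (a (nat_lit 0x202020203f68)) e
 (c (a (nat_lit 0x20202037a5a8)) e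
 (c (a (nat_lit 0x20203666c268)) e
 (c (a (nat_lit 0x1011a8583a208)) e
 (c z e
 (c (a (nat_lit 0x146583a1c1c588)) e
 (c (a (nat_lit 0xe68a0806f56e6))
 (c (a (nat_lit 0x1543c0a4c0000009)) e e) e))))))))))))))
 (c (nat_lit 1)
 (c z
 (c (a (nat_lit 0x1e1f269c861c066))
 (c z e
 (c z e
 (c z e
 (c z e
 (c z e
 (c z e
 (c z e
 (c z e
 (c z e
 (c (a (nat_lit 0x161c2a36141e11088)) e e))))))))))
 (c (b (nat_lit 0x1ffb4ac820c028c7)) e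
 (c (a (nat_lit 0x1dd24be0e0266ba7)) e
 (c (a (nat_lit 0x10890360474242a6)) e
 (c z e
 (c z e
 (c z e
 (c z e
 (c z e
 (c z e
 (c z e
 (c z e
 (c (a (nat_lit 0x1cd27350a704a027)) e
 (c z e
 (c z e
 (c z e
 (c z e
 (c (a (nat_lit 0x11208b6c80600004)) e e))))))))))))))))))
 (c z
 (c (a (nat_lit 0x1bc9e5e1e1ec8e27)) e
 (c (a (nat_lit 0xd43c0c0cd5a4847))
 (c z e
 (c z e
 (c z e
 (c z e
 (c z e
 (c z e
 (c (a (nat_lit 0x262a2a40571a4e9aa)) e e))))))) e))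
 (c z e
 (c z e
 (c z e
 (c (a (nat_lit 0x202020203de8)) e
 (c (a (nat_lit 0x2020203da468)) e
 (c (a (nat_lit 0x2020376581e8)) e
 (c (a (nat_lit 0x10115e5e1a0e8)) e
 (c z e
 (c (a (nat_lit 0x178321810105a8)) e
 (c (a (nat_lit 0xb44a303177d66)) e e))))))))))))
 C428)))) Tr.c Tr.e (nat_lit 0) C.cx C.cy
noncomputable def C431 : Tr := beta% (fun (c : Nat → Tr → Tr → Tr) (e : Tr) (z : Nat) (a b : Nat → Nat) =>
 (c (a (nat_lit 0x6060606061))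
 (c (a (nat_lit 0x20203834a3e6))
 (c z e
 (c z e
 (c z e
 (c z e
 (c z e
 (c z e
 (c z e
 (c z e
 (c z e
 (c z e
 (c (a (nat_lit 0x112e6d34a0000007)) e
 (c (a (nat_lit 0x1883400000000004)) e e))))))))))))
 (c (a (nat_lit 0x14158b6254707)) e
 (c z e
 (c (a (nat_lit 0x1070c5c4040007)) e
 (c (a (nat_lit 0x1552b0706a6686)) e
 (c (a (nat_lit 0x1b9596918aa045))
 (c (a (nat_lit 0x62521d22e4be788)) e e)
 (c z e
 (c z e
 (c (a (nat_lit 0xa9f1a58344e25)) e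
 (c (a (nat_lit 0x1c9a3817574906)) e
 (c (a (nat_lit 0x102f0eaecda3e7)) e
 (c (a (nat_lit 0x2a040c23636e4)) e
 (c z e
 (c z e
 (c z e
 (c (a (nat_lit 0x167717789cb885)) e
 (c (a (nat_lit 0xaecd190c00003)) e e)))))))))))))))))
 (c (a (nat_lit 0x2020202021))
 (c z e
 (c (a (nat_lit 0x104a26a6c6c488))
 (c z e
 (c (a (nat_lit 0xf33307153f2b489)) e
 (c z e
 (c z e
 (c z e
 (c z e
 (c (a (nat_lit 0x85d4bd813c00008)) e e)))))))
 (c (a (nat_lit 0x1db93413e45625))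
 (c (a (nat_lit 0x1a6ded6cd80e2147)) e
 (c z e
 (c z e
 (c z e
 (c (a (nat_lit 0x126aa0fad2408007)) e
 (c (a (nat_lit 0x198331a200000008)) e e))))))
 (c (a (nat_lit 0x19f7574bf41a65)) e
 (c z e
 (c z e
 (c (a (nat_lit 0xb918ce280a006)) e
 (c (a (nat_lit 0x1973aa69868006)) e
 (c (a (nat_lit 0x1772f3132f27a7)) e
 (c z e
 (c z e
 (c z e
 (c (a (nat_lit 0xe4e765331ac65)) e e)))))))))))))
 (c (a (nat_lit 0x2040204041))
 (c (a (nat_lit 0xe73d1716980c5))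
 (c (a (nat_lit 0x2836242a2a3f1e8)) e
 (c (a (nat_lit 0x62384a5073a0688)) e
 (c z e
 (c z e
 (c z e
 (c (a (nat_lit 0xbeeef175c2f4008)) e
 (c (a (nat_lit 0x1e583ae8c0000007)) e e)))))))
 (c (a (nat_lit 0x122d0d0624e366))
 (c (a (nat_lit 0x6e506abbf8bb206)) e
 (c z e
 (c z e
 (c (a (nat_lit 0x650c78e798ee6c8)) e
 (c (a (nat_lit 0xe26d29a4c800008)) e
 (c (a (nat_lit 0xfbd50a000000007)) e e))))))
 (c z e
 (c z e
 (c (a (nat_lit 0x1931336640e045)) e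
 (c (a (nat_lit 0x11d46462c17465)) e
 (c (a (nat_lit 0x1af2f20fec4a66)) e
 (c z e
 (c z e
 (c z e
 (c (a (nat_lit 0x14b0f6b117c4)) e
 (c (a (nat_lit 0x1b59fc799d19e5)) e e))))))))))))
 (c (a (nat_lit 0x6060606061))
 (c (a (nat_lit 0x1979a1daedcce3))
 (c (a (nat_lit 0x161222290098986)) e
 (c (a (nat_lit 0x3622375496e91c7)) e
 (c z e
 (c (a (nat_lit 0xcb63b33fbc6c006)) e
 (c (a (nat_lit 0x1a9ab02960000006)) e
 (c (a (nat_lit 0x1305800000000006)) e e))))))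
 (c z e
 (c (a (nat_lit 0x575f948ccdc3)) e
 (c (a (nat_lit 0x2312f6d6cd2c5)) e
 (c (a (nat_lit 0x13b08daf11afa4)) e
 (c (a (nat_lit 0x1392732907c806)) e
 (c z e
 (c z e
 (c (a (nat_lit 0x4917984a46303)) e
 (c (a (nat_lit 0x137be747a6ad63)) e
 (c (a (nat_lit 0x16c2022127a0a3)) e e)))))))))))
 (c (a (nat_lit 0x2020002021))
 (c (a (nat_lit 0x11805965e32563))
 (c (a (nat_lit 0x109f92909e5e5a7)) e
 (c (a (nat_lit 0x118b4feea9646008)) e e))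
 (c (a (nat_lit 0x2df87c142f103))
 (c (a (nat_lit 0x4318f8a02e00008)) e e)
 (c (a (nat_lit 0x12edac6c6be565)) e
 (c z e
 (c z e
 (c z e
 (c (b (nat_lit 0x1fe4474164df04)) e
 (c (a (nat_lit 0x157b71986aac63)) e
 (c (a (nat_lit 0x12672e61e425e3)) e e)))))))))
 (c (a (nat_lit 0x1e1e1e1e1e1))
 (c (a (nat_lit 0xf8723e3e8b0e3))
 (c (a (nat_lit 0x16754c4240000006)) e e)
 (c z e
 (c z e
 (c z e
 (c (a (nat_lit 0x42ac48097126)) e
 (c (a (nat_lit 0x148f1f312b986)) e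
 (c (a (nat_lit 0x1387adece6e424)) e e)))))))
 (c (a (nat_lit 0x222424241e1))
 (c z e
 (c z e
 (c (b (nat_lit 0x1ff2fbc9ca3b84)) e
 (c (a (nat_lit 0x46c3312aede66)) e
 (c z e
 (c z e
 (c z e
 (c (a (nat_lit 0xb6d94ea800006)) e e))))))))
 (c (a (nat_lit 0x6060606061))
 (c (b (nat_lit 0x1ffff4a1c0cb03)) e
 (c (a (nat_lit 0x2e9a8e8a895c6)) e
 (c z e
 (c z e
 (c z e
 (c (a (nat_lit 0xa1330926ac005)) e
 (c (a (nat_lit 0x11702760000005)) e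
 (c (a (nat_lit 0x11c00000000004)) e e))))))))
 (c (a (nat_lit 0x4040404041))
 (c (a (nat_lit 0x379c1b9d5d64)) e
 (c z e
 (c z e
 (c (a (nat_lit 0xc6cccd2aecae7)) e
 (c (a (nat_lit 0xb8c3707c00006)) e
 (c (a (nat_lit 0x108c2000000006)) e e))))))
 (c (a (nat_lit 0x4040404041))
 (c z e
 (c (a (nat_lit 0x92928e929f2a8)) e
 (c (a (nat_lit 0xd0d0d0e748007)) e
 (c (a (nat_lit 0x1e270020000003)) e
 (c (a (nat_lit 0x1b800000000001)) e e)))))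
 (c (a (nat_lit 0x6060606061))
 (c (a (nat_lit 0x14f4d4d53592c7)) e
 (c (a (nat_lit 0x1febe040200003)) e
 (c (a (nat_lit 0x17402000000002)) e e)))
 (c (a (nat_lit 0x4040402301)) e
 (c (a (nat_lit 0x2020211523)) e
 (c (a (nat_lit 0x6a9e84)) e
 (c (b (nat_lit 0x1fe81bffe4)) e
 (c (a (nat_lit 0xa5e202004)) e
 (c (a (nat_lit 0xa1de0202004)) e
 (c (a (nat_lit 0x1e2020204104)) e
 (c (a (nat_lit 0x26262a477a3)) e
 (c z e
 (c z e
 (c (a (nat_lit 0x1f585804003)) e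
 (c (a (nat_lit 0x162620602003)) e
 (c (a (nat_lit 0x180080000001)) e e))))))))))))))))))))))))) Tr.c Tr.e (nat_lit 0) C.cx C.cy
noncomputable def C432 : Tr := beta% (fun (c : Nat → Tr → Tr → Tr) (e : Tr) (z : Nat) (a b : Nat → Nat) =>
 (c (a (nat_lit 0xa0a0a0a0a1))
 (c z
 (c (a (nat_lit 0x163610d211cb2a24))
 (c z e
 (c z e
 (c z e
 (c z e
 (c z e
 (c (a (nat_lit 0x2e207a239a4208607)) e
 (c z e
 (c (a (nat_lit 0x66553c6c3c5288247)) e e))))))))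
 (c (a (nat_lit 0x1a30ae4d81c02045))
 (c (a (nat_lit 0xf2e2b500e4c90c788)) e e)
 (c (a (nat_lit 0x5c7c40280207ac5))
 (c z e
 (c z e
 (c z e
 (c (a (nat_lit 0x9e79b02a36b66cb08)) e e))))
 (c (a (nat_lit 0x583c121012b1107))
 (c (a (nat_lit 0x1376e8a98d6c6dc047)) e
 (c (a (nat_lit 0x130eb789d597e14468)) e
 (c (a (nat_lit 0x72ee7c5b28a8dc908)) e e)))
 (c (b (nat_lit 0x5e1410315e5ffe6))
 (c (a (nat_lit 0x14b64784d3a8e683e7)) e
 (c (a (nat_lit 0x1ee045535888434167)) e e))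
 (c (b (nat_lit 0x464257424ffe646)) e
 (c z e
 (c (a (nat_lit 0x55529a46b702fe6)) e
 (c (a (nat_lit 0x192ba86c702be226)) e
 (c (b (nat_lit 0x560909c5a5fffe5)) e
 (c (a (nat_lit 0x8d4387550cc2ae6)) e
 (c z e
 (c (a (nat_lit 0xf73ec2c094a4f06)) e
 (c (a (nat_lit 0x13e4a562a3822005)) e e))))))))))))))
 (c z
 (c (a (nat_lit 0x1a2c064e0a19744))
 (c (a (nat_lit 0x4e4890624e88af1a8)) e
 (c z e
 (c (a (nat_lit 0x1a6f10134d6fb06a08)) e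
 (c z e
 (c z e
 (c (a (nat_lit 0xc165a0e6a4f2e4aa9)) e
 (c (a (nat_lit 0xff489260b65000009)) e e)))))))
 (c (a (nat_lit 0x341004020439607)) e
 (c (a (nat_lit 0x240202045b12ba8)) e
 (c z e
 (c z e
 (c (a (nat_lit 0x6ca51cda848a768)) e
 (c (a (nat_lit 0xa700f8969e928e8)) e
 (c z e
 (c z e
 (c z e
 (c z e
 (c (a (nat_lit 0x422674946889e68)) e
 (c (a (nat_lit 0x133cd6081a00006)) e
 (c (a (nat_lit 0x1b81006000000004)) e e))))))))))))))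
 (c (a (nat_lit 0x202020203845))
 (c (a (nat_lit 0xa270666d255d105)) e
 (c z e
 (c z e
 (c z e
 (c z e
 (c z e
 (c z e
 (c z e
 (c z e
 (c z e
 (c (a (nat_lit 0x927ae50b3df0008)) e
 (c (a (nat_lit 0x17435132e0000005)) e e))))))))))))
 (c (a (nat_lit 0x4040405fb665))
 (c z e
 (c (a (nat_lit 0x660886d01427a8))
 (c z e
 (c (a (nat_lit 0x170f2acca9e0000009)) e e))
 (c (a (nat_lit 0xb0f2b3f4bfd1687))
 (c (a (nat_lit 0x14fdcc866000000007)) e e)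
 (c z e
 (c (b (nat_lit 0x177637fec31e267)) e
 (c z e
 (c (b (nat_lit 0x99febbf48cbe066)) e
 (c (a (nat_lit 0x44ed49e3586a88)) e e))))))))
 (c (a (nat_lit 0x2032018027))
 (c (a (nat_lit 0x343a1849def8ae7))
 (c (a (nat_lit 0x12c5a362cc42800007)) e
 (c (a (nat_lit 0x1063a4e40000000008)) e e))
 (c (a (nat_lit 0x702e57a8eeaf247)) e
 (c z e
 (c z e
 (c (a (nat_lit 0xee847ee91e7ad88)) e
 (c (a (nat_lit 0x968b1b72e4c8c67)) e
 (c (a (nat_lit 0x3856763710300c9)) e e)))))))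
 (c (a (nat_lit 0x66676f9a8a005))
 (c (a (nat_lit 0x3c5ac340e592025)) e
 (c z e
 (c z e
 (c (a (nat_lit 0x52a4d6e8a8b7287)) e
 (c (a (nat_lit 0xf9129320e5ad027)) e
 (c (a (nat_lit 0x8c5e83d85e54148)) e e))))))
 (c (a (nat_lit 0x4cf7d07e100e5))
 (c z e
 (c (a (nat_lit 0x226c8c365877028)) e e))
 (c (a (nat_lit 0xa333281811884))
 (c (a (nat_lit 0x1078a82fd27ffae6)) e e)
 (c (a (nat_lit 0x8cc0302cf1b65))
 (c z e
 (c z e
 (c (a (nat_lit 0x126506c200000009)) e e)))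
 (c (a (nat_lit 0x9c0202c78f9e5))
 (c (a (nat_lit 0xb1f02de42c00006)) e
 (c (a (nat_lit 0x1eceb06000000007)) e e))
 (c (a (nat_lit 0x202ab536d466)) e
 (c z e
 (c (a (nat_lit 0xbd1b29170f107)) e
 (c (a (nat_lit 0x131691b0507d65)) e
 (c (a (nat_lit 0x11eccb6bf8c745)) e
 (c (a (nat_lit 0x725e61321a1a5)) e
 (c z e
 (c z e
 (c (a (nat_lit 0x14c383c0604025)) e
 (c (a (nat_lit 0x1bdd6160600002)) e
 (c (a (nat_lit 0x1f21a000000002)) e e)))))))))))))))))))))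
 (c (nat_lit 1)
 (c (a (nat_lit 0x608080808ee1))
 (c (a (nat_lit 0x2822282c2e1f3a6))
 (c z e
 (c (a (nat_lit 0xac38344af9e878467)) e
 (c z e
 (c z e
 (c (a (nat_lit 0x3d0a665a268626387)) e
 (c (a (nat_lit 0x14ba84816923622007)) e
 (c (a (nat_lit 0x15a5e3e74120000007)) e e)))))))
 (c (a (nat_lit 0x181e1c225748066)) e
 (c z e
 (c z e
 (c z e
 (c (a (nat_lit 0x335a54180c0c686)) e
 (c (a (nat_lit 0x18a841e101230ba6)) e
 (c (a (nat_lit 0x16313798f79c2ac6)) e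
 (c z e
 (c z e
 (c (a (nat_lit 0xe0e7c9751994087)) e
 (c (a (nat_lit 0x68aeccc6974c007)) e
 (c (a (nat_lit 0x15c76120a0000005)) e e)))))))))))))
 (c (a (nat_lit 0x2020203dbac5))
 (c z e
 (c z e
 (c z e
 (c z e
 (c z e
 (c z e
 (c z e
 (c z e
 (c z e
 (c z e
 (c (a (nat_lit 0x92e0bad15600008)) e
 (c (a (nat_lit 0x1921522000000005)) e e))))))))))))
 (c (a (nat_lit 0x2020310ca2a7)) e
 (c (b (nat_lit 0x203ff1520be5)) e
 (c z e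
 (c (a (nat_lit 0x159c8900402305))
 (c (a (nat_lit 0x3c405a4410513c8)) e
 (c (a (nat_lit 0x2c34361029029a9)) e e))
 (c (a (nat_lit 0xb9460a0537604))
 (c (a (nat_lit 0x4a3420190336528)) e e)
 (c (a (nat_lit 0xa604b54f2d525)) e
 (c z e
 (c z e
 (c (a (nat_lit 0xcf232b2b23227)) e
 (c (a (nat_lit 0x10109050100d47)) e
 (c (a (nat_lit 0x3c362e3017126)) e
 (c (a (nat_lit 0x302a2a17106c6)) e
 (c z e
 (c z e
 (c (a (nat_lit 0x2f2e8a0806086)) e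
 (c (a (nat_lit 0x12884040404006)) e
 (c (a (nat_lit 0x10404020000005)) e e)))))))))))))))))))
 C431))) Tr.c Tr.e (nat_lit 0) C.cx C.cy
noncomputable def C433 : Tr := beta% (fun (c : Nat → Tr → Tr → Tr) (e : Tr) (z : Nat) (a b : Nat → Nat) =>
 (c z
 (c (a (nat_lit 0x19ed46a403f24a43))
 (c z e
 (c z e
 (c z e
 (c z e
 (c z e
 (c (a (nat_lit 0x6b18a44c7f614c5e7)) e
 (c z e
 (c z e
 (c z e
 (c (a (nat_lit 0xe3b4b3231771ed6a6)) e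
 (c (a (nat_lit 0x7e98968ead2e6a007)) e
 (c (a (nat_lit 0x53165c30240000008)) e e))))))))))))
 (c (a (nat_lit 0x11e7c6664e483984))
 (c (a (nat_lit 0x8c529bafa564f2767)) e
 (c z e
 (c z e
 (c (a (nat_lit 0x130c266b8b367225e8)) e
 (c (a (nat_lit 0x156bc566bc6ff26988)) e
 (c z e
 (c z e
 (c z e
 (c z e
 (c (a (nat_lit 0x7248c6595e6400008)) e
 (c (a (nat_lit 0x16688322a000000009)) e e)))))))))))
 (c z e
 (c z e
 (c (a (nat_lit 0xa6b8b1381004826))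
 (c z e
 (c (a (nat_lit 0x9b3cfe6a8a4cfcea9)) e
 (c (a (nat_lit 0x173ad14d6a782e0f68)) e e)))
 (c (a (nat_lit 0x130a53a2a79d3065))
 (c (a (nat_lit 0x1271e70529abae8368)) e
 (c (a (nat_lit 0x150c83c5eed30d4b28)) e e))
 (c (a (nat_lit 0x34c8121f5854085)) e
 (c z e
 (c z e
 (c z e
 (c (a (nat_lit 0x12ac6cabed8dc726)) e
 (c (a (nat_lit 0xcac92528e65c306)) e
 (c z e
 (c z e
 (c z e
 (c (a (nat_lit 0x1df2ca4c06c58005)) e
 (c (a (nat_lit 0x1beb9042a0000004)) e e)))))))))))))))))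
 (c z
 (c (b (nat_lit 0x1ada5a5c351e1fe4))
 (c z e
 (c z e
 (c z e
 (c (a (nat_lit 0xa46ebb1979586c388)) e
 (c (a (nat_lit 0xd0729fbd499290608)) e
 (c z e
 (c z e
 (c z e
 (c (a (nat_lit 0xc8263343bb3300007)) e
 (c (a (nat_lit 0x228c59fe900000007)) e e))))))))))
 (c z e
 (c z e
 (c (a (nat_lit 0x10b210c200463826))
 (c z e
 (c z e
 (c (a (nat_lit 0x10aa6808ce0f8b0ae9)) e e)))
 (c (a (nat_lit 0xa6ee1242cb30406))
 (c (a (nat_lit 0x133c2c91f3aea985a8)) e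
 (c (a (nat_lit 0x10e3450aec4e068569)) e e))
 (c (a (nat_lit 0xf8222f0d564c125)) e
 (c z e
 (c z e
 (c (a (nat_lit 0x159d57b3b7d066a6)) e
 (c (b (nat_lit 0x146eaff4ed6a5fe6)) e
 (c (a (nat_lit 0xed179b26f4def27)) e
 (c z e
 (c z e
 (c (a (nat_lit 0x13136addc1608025)) e
 (c (a (nat_lit 0x132abf2200c00005)) e
 (c (a (nat_lit 0xaff818000000005)) e e))))))))))))))))
 (c z
 (c (a (nat_lit 0xfd533d92f4df1a5))
 (c z e
 (c z e
 (c z e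
 (c (a (nat_lit 0x85216963051c9e888)) e e))))
 (c (a (nat_lit 0x162ced64e085ab45)) e
 (c (a (nat_lit 0x10edc0a045cbba46)) e
 (c z e
 (c z e
 (c z e
 (c z e
 (c z e
 (c z e
 (c z e
 (c z e
 (c z e
 (c (a (nat_lit 0x1689a201c8e48006)) e
 (c (a (nat_lit 0x11a2824860000005)) e e))))))))))))))
 (c z
 (c (a (nat_lit 0xb8860a062cad245)) e
 (c z e
 (c z e
 (c z e
 (c z e
 (c z e
 (c (a (nat_lit 0x96870a904a88ac7)) e e)))))))
 (c (a (nat_lit 0x202020203326))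
 (c z e
 (c z e
 (c (a (nat_lit 0x5074342c9cbf788)) e
 (c z e
 (c z e
 (c z e
 (c z e
 (c (a (nat_lit 0x6052786c7a2b1c9)) e e))))))))
 (c (a (nat_lit 0x20202032e3a6))
 (c (a (nat_lit 0x462e260a17d1867))
 (c (a (nat_lit 0xb5ac1c3e0a2e08007)) e
 (c (a (nat_lit 0x1b484604c180000008)) e e))
 (c (a (nat_lit 0x221e080aef0ab48))
 (c (a (nat_lit 0x172ccd63e000000007)) e e)
 (c z e
 (c z e
 (c z e
 (c (a (nat_lit 0x12f12dec3a9287e8)) e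
 (c (a (nat_lit 0x746e690ac73a8c9)) e e)))))))
 (c (a (nat_lit 0x1bb4e225))
 (c (a (nat_lit 0x321404af835e826)) e
 (c z e
 (c z e
 (c (a (nat_lit 0x5b0920e93446a07)) e
 (c (a (nat_lit 0xd70ec685269a467)) e
 (c (a (nat_lit 0x4e2c52751a1a329)) e e))))))
 (c (a (nat_lit 0x2e2f1efc44206)) e
 (c (a (nat_lit 0x155846420a0a6)) e
 (c (a (nat_lit 0x1dc427604030e5))
 (c z e
 (c z e
 (c (a (nat_lit 0x794e5a543200009)) e e)))
 (c (a (nat_lit 0x4e8206051b825))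
 (c (a (nat_lit 0x13288fa4f5452007)) e
 (c (a (nat_lit 0x1689a5e5c0000009)) e e))
 (c (a (nat_lit 0x4a0404d509806))
 (c (a (nat_lit 0x1365052000000007)) e e)
 (c z e
 (c z e
 (c (a (nat_lit 0xb6c594a896ee5)) e
 (c (a (nat_lit 0xb98aa490e6685)) e
 (c (a (nat_lit 0x1506e5aae2e9c5)) e
 (c z e
 (c z e
 (c z e
 (c (a (nat_lit 0xdfc71e4e38004)) e
 (c (a (nat_lit 0x192d6040000004)) e e))))))))))))))))))))))) Tr.c Tr.e (nat_lit 0) C.cx C.cy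
noncomputable def C434 : Tr := beta% (fun (c : Nat → Tr → Tr → Tr) (e : Tr) (z : Nat) (a b : Nat → Nat) =>
 (c z
 (c (a (nat_lit 0x161617f27638125))
 (c z e
 (c z e
 (c z e
 (c z e
 (c z e
 (c z e
 (c z e
 (c z e
 (c z e
 (c z e
 (c (a (nat_lit 0x625e488e8e6031106)) e
 (c (a (nat_lit 0xae625acadc74b7a06)) e
 (c (a (nat_lit 0x82872f3f4f2afec47)) e e)))))))))))))
 (c (a (nat_lit 0x203d89e4a241a6))
 (c z e
 (c z e
 (c z e
 (c z e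
 (c z e
 (c z e
 (c z e
 (c (a (nat_lit 0x1a971290ed0866f426)) e
 (c (a (nat_lit 0x187014062509c2fca6)) e e)))))))))
 (c (a (nat_lit 0x1b6f4a62216ca6))
 (c z e
 (c z e
 (c z e
 (c z e
 (c z e
 (c (a (nat_lit 0x6a8ea6b0561e5f227)) e e))))))
 (c (a (nat_lit 0x1b6d0901e04ac4a6)) e
 (c (b (nat_lit 0x106868a734dfe3e5)) e
 (c (a (nat_lit 0x6876777cfd648a5)) e
 (c z e
 (c z e
 (c z e
 (c z e
 (c z e
 (c (a (nat_lit 0x1d0acb8bc8092906)) e e))))))))))))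
 (c z
 (c (a (nat_lit 0x7929c543e3cbe6))
 (c z e
 (c (a (nat_lit 0x366a4a449ae746ee8)) e
 (c z e
 (c z e
 (c z e
 (c z e
 (c (a (nat_lit 0xfd1b48baf8f88a947)) e
 (c z e
 (c z e
 (c z e
 (c z e
 (c (a (nat_lit 0x8a7f085c5c2e00009)) e e))))))))))))
 (c (a (nat_lit 0x152be841a1878507))
 (c (a (nat_lit 0x3268566739432c7e8)) e
 (c z e
 (c z e
 (c z e
 (c (a (nat_lit 0x6110b6887ff322d49)) e
 (c (a (nat_lit 0x12144e47a32a341067)) e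
 (c z e
 (c z e
 (c z e
 (c z e
 (c (a (nat_lit 0xd7fada5c520000009)) e e)))))))))))
 (c (a (nat_lit 0x122705c3dd713dc5)) e
 (c z e
 (c z e
 (c (a (nat_lit 0x11fad83e57c78e86))
 (c z e
 (c (a (nat_lit 0x1eedce2a8bb08feb09)) e e))
 (c (a (nat_lit 0x78e517283282546)) e
 (c z e
 (c z e
 (c z e
 (c z e
 (c (a (nat_lit 0x12ae0b3389a0c087)) e
 (c z e
 (c z e
 (c z e
 (c z e
 (c (a (nat_lit 0x178bd02b60c00005)) e e)))))))))))))))))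
 (c z
 (c (a (nat_lit 0xc4040e0d72e71c4))
 (c (a (nat_lit 0xa4885cf13d3c929a7)) e
 (c z e
 (c z e
 (c z e
 (c (a (nat_lit 0x11ebe648325a2db0e8)) e
 (c (a (nat_lit 0xd694382c6b0748447)) e
 (c z e
 (c z e
 (c z e
 (c (a (nat_lit 0x2276ca69466e00008)) e
 (c (a (nat_lit 0x1a6981c18000000008)) e e)))))))))))
 (c z e
 (c z e
 (c z e
 (c (a (nat_lit 0x1a0ccf35f5c49465))
 (c z e
 (c (a (nat_lit 0x1c92c36a33c8f3a1a8)) e e))
 (c (a (nat_lit 0x9eb10d28a8f8b66)) e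
 (c z e
 (c z e
 (c z e
 (c (a (nat_lit 0x14b99b370dedd106)) e
 (c (a (nat_lit 0x1191d1eb28c8a8e7)) e
 (c z e
 (c z e
 (c z e
 (c (a (nat_lit 0xf926dc380c0a006)) e
 (c (a (nat_lit 0x120d63e040000006)) e e))))))))))))))))
 (c z e
 (c z e
 (c z e
 (c (a (nat_lit 0x2020202036c7))
 (c z e
 (c (a (nat_lit 0x78a4829cf2f9787))
 (c (a (nat_lit 0x12acc4ca0340000008)) e e)
 (c z e
 (c z e
 (c z e
 (c z e
 (c (a (nat_lit 0x62b2b4379712828)) e e)))))))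
 (c (a (nat_lit 0x2020203182e7))
 (c (a (nat_lit 0x56181236381f2c6)) e
 (c z e
 (c z e
 (c z e
 (c (a (nat_lit 0x806f1af4ac76807)) e
 (c (a (nat_lit 0x5e9c80f91e5c0c8)) e e))))))
 (c (a (nat_lit 0x2020344640a7)) e
 (c (a (nat_lit 0x1a1b90362c1a7)) e
 (c z e
 (c (a (nat_lit 0x1f84a3e1412fa6))
 (c z e
 (c (a (nat_lit 0x17d073edcec00008)) e e))
 (c (a (nat_lit 0x62700a09d7ca5))
 (c (a (nat_lit 0x135a0d0940000007)) e e)
 (c (a (nat_lit 0x2c02033b3b9e6)) e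
 (c z e
 (c z e
 (c (a (nat_lit 0xa8a1236e10106)) e
 (c (a (nat_lit 0x9519620a04206)) e
 (c z e
 (c z e
 (c z e
 (c z e
 (c (b (nat_lit 0x11dffc21c00002)) e e)))))))))))))))))))))))) Tr.c Tr.e (nat_lit 0) C.cx C.cy
noncomputable def C435 : Tr := beta% (fun (c : Nat → Tr → Tr → Tr) (e : Tr) (z : Nat) (a b : Nat → Nat) =>
 (c (a (nat_lit 0x4040404041))
 (c z
 (c (a (nat_lit 0x20202020203da2))
 (c (a (nat_lit 0x1072f1d1b93c56ff64)) e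
 (c z e
 (c z e
 (c z e
 (c z e
 (c z e
 (c z e
 (c z e
 (c z e
 (c z e
 (c z e
 (c (a (nat_lit 0xc6d0d8cc483ae5cc6)) e e))))))))))))
 (c (a (nat_lit 0x2020202033c126))
 (c z e
 (c z e
 (c z e
 (c z e
 (c z e
 (c z e
 (c z e
 (c (a (nat_lit 0x2a7ada94a4a3d0f26)) e
 (c z e
 (c (a (nat_lit 0x18af2e850b8c462ae5)) e
 (c (b (nat_lit 0xf2faeffef1ab7ce87)) e e)))))))))))
 (c (a (nat_lit 0x2020203127c2e6)) e
 (c (a (nat_lit 0x20370a474286))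
 (c z e
 (c z e
 (c z e
 (c z e
 (c z e
 (c (a (nat_lit 0x6502a56e58c628e5)) e e))))))
 (c (a (nat_lit 0x20382c28832326)) e
 (c (a (nat_lit 0x302a2523232487))
 (c z e
 (c z e
 (c z e
 (c (a (nat_lit 0x349eb2fe76b2d7b47)) e e))))
 (c (a (nat_lit 0x11a8c3a3230463e7)) e
 (c (b (nat_lit 0xead2a8a533fe025)) e
 (c (a (nat_lit 0x884493232133685)) e
 (c z e
 (c z e
 (c z e
 (c z e
 (c z e
 (c z e
 (c z e
 (c z e
 (c (a (nat_lit 0x3274427979c8d43)) e e))))))))))))))))))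
 (c z
 (c (a (nat_lit 0x40404051628127))
 (c z e
 (c z e
 (c z e
 (c z e
 (c z e
 (c z e
 (c z e
 (c z e
 (c z e
 (c (a (nat_lit 0x1b118b0b8b87ae8ca5)) e e))))))))))
 (c (a (nat_lit 0x20203be782e027))
 (c z e
 (c z e
 (c z e
 (c z e
 (c z e
 (c z e
 (c z e
 (c (a (nat_lit 0x1670ad09954a6565c7)) e e))))))))
 (c (a (nat_lit 0x203d4ba821a1a7))
 (c z e
 (c z e
 (c z e
 (c z e
 (c z e
 (c (a (nat_lit 0xa2c90b8b2e4c90e47)) e
 (c (a (nat_lit 0xfd092eca487a5be27)) e e)))))))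
 (c (b (nat_lit 0x1ffa6b0700e069c7)) e
 (c (a (nat_lit 0x1fcf85c3a3a940e7))
 (c z e
 (c z e
 (c z e
 (c (a (nat_lit 0x225cc250128b04d68)) e e))))
 (c (a (nat_lit 0xae485a5920c8ec6))
 (c z e
 (c z e
 (c (a (nat_lit 0x4a62768b45520ac28)) e e))) e))))))
 (c z
 (c (a (nat_lit 0x1fb326a1c1c5))
 (c z e
 (c z e
 (c z e
 (c z e
 (c z e
 (c z e
 (c (a (nat_lit 0xccd6fb17ceb44ed07)) e
 (c (a (nat_lit 0xac9ca188fa3c34b87)) e
 (c z e
 (c z e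
 (c z e
 (c (a (nat_lit 0x3e727f367a422c009)) e e))))))))))))
 (c (a (nat_lit 0x32cd07e2e2c787))
 (c z e
 (c z e
 (c z e
 (c z e
 (c z e
 (c z e
 (c z e
 (c (a (nat_lit 0x1e644824325cf5108)) e e))))))))
 (c (b (nat_lit 0x188e3fe0804b3426)) e
 (c (a (nat_lit 0x10682908ee914646)) e e))))
 (c z
 (c (a (nat_lit 0x102b26e28264c606))
 (c z e
 (c z e
 (c z e
 (c z e
 (c z e
 (c (a (nat_lit 0x586a944838a439947)) e
 (c (a (nat_lit 0xa4828e2c269b546e7)) e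
 (c z e
 (c z e
 (c z e
 (c (a (nat_lit 0x49724e08040000008)) e e)))))))))))
 (c (b (nat_lit 0x172a0c4c57dfe785)) e
 (c (a (nat_lit 0xab075562c703445)) e e)))
 (c z e
 (c z e
 (c z e
 (c z
 (c z e
 (c z e
 (c z e
 (c z e
 (c (a (nat_lit 0xd3195a908215e46)) e e)))))
 (c (a (nat_lit 0x2020202030e7)) e
 (c (a (nat_lit 0x20202033a307)) e
 (c (a (nat_lit 0x4040572241c7)) e
 (c (a (nat_lit 0x22235832322e7)) e
 (c z e
 (c (a (nat_lit 0x1fa7c483632c06))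
 (c (a (nat_lit 0x1c4fef00c6c00007)) e e)
 (c (a (nat_lit 0x24260e091cf65)) e
 (c (a (nat_lit 0x3a2e2d0afd7a6)) e e))))))))))))))))
 (c (nat_lit 1) C434
 (c (a (nat_lit 0x2020202021)) C433
 C432)))) Tr.c Tr.e (nat_lit 0) C.cx C.cy
noncomputable def C436 : Tr := beta% (fun (c : Nat → Tr → Tr → Tr) (e : Tr) (z : Nat) (a b : Nat → Nat) =>
 (c z
 (c z
 (c (a (nat_lit 0x82426a140723fbfc5))
 (c z e
 (c z e
 (c z e
 (c z e
 (c z e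
 (c z e
 (c z e
 (c z e
 (c z e
 (c z e
 (c z e
 (c (a (nat_lit 0xaae67c86443e773cc48)) e e))))))))))))
 (c (a (nat_lit 0x6a54363515632b727))
 (c z e
 (c z e
 (c z e
 (c z e
 (c z e
 (c z e
 (c z e
 (c (a (nat_lit 0x60402e1a4850df0a769)) e
 (c (a (nat_lit 0x9646302a91fae2f4f88)) e
 (c (a (nat_lit 0x3628223b1a903c64b89)) e e)))))))))) e))
 (c (a (nat_lit 0x808080808091c8))
 (c z e
 (c z e
 (c z e
 (c z e
 (c z e
 (c z e
 (c z e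
 (c z e
 (c z e
 (c (a (nat_lit 0x673cfcc47a6ab2506)) e e))))))))))
 (c (a (nat_lit 0x2020202036c767))
 (c z e
 (c z e
 (c z e
 (c z e
 (c z e
 (c z e
 (c z e
 (c z e
 (c z e
 (c (a (nat_lit 0xcabcca84b53bc69e8)) e e))))))))))
 (c (a (nat_lit 0x2020203bcbe587)) e
 (c (a (nat_lit 0x20203208040208)) e
 (c (a (nat_lit 0x60750ca6a443a8)) e
 (c (b (nat_lit 0x1ff509e422e2c388)) e
 (c (a (nat_lit 0x13c6656323044348)) e
 (c (a (nat_lit 0xce7e1e42a505606)) e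
 (c z e
 (c z e
 (c z e
 (c z e
 (c z e
 (c z e
 (c z e
 (c (a (nat_lit 0x1982674e404062a5)) e e)))))))))))))))))
 (c z
 (c (a (nat_lit 0x8080808094c2e7))
 (c z e
 (c z e
 (c z e
 (c z e
 (c z e
 (c z e
 (c z e
 (c (a (nat_lit 0x180a4bc88769f0f1c6)) e e))))))))
 (c (a (nat_lit 0x6060607d872307)) e
 (c (a (nat_lit 0x80809fec258007))
 (c z e
 (c z e
 (c z e
 (c z e
 (c z e
 (c z e
 (c (a (nat_lit 0x178e0dfa2e68624ca7)) e e)))))))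
 (c (a (nat_lit 0x203267c3a16128)) e
 (c (b (nat_lit 0x1ff38983e221a408)) e
 (c (a (nat_lit 0x15092341e1e50548)) e
 (c (b (nat_lit 0xa26c4e7338d1fe6)) e
 (c z e
 (c z e
 (c z e
 (c z e
 (c z e
 (c z e
 (c z e
 (c z e
 (c (a (nat_lit 0x1b0582e4a1638566)) e e))))))))))))))))
 (c z
 (c (a (nat_lit 0x202021d2ee56005))
 (c z e
 (c z e
 (c z e
 (c z e
 (c z e
 (c z e
 (c z e
 (c (a (nat_lit 0xf4c510ff00b860607)) e
 (c (a (nat_lit 0x13d6538c656a4d2846)) e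
 (c (a (nat_lit 0x134bc94bb9aa8dcc07)) e e))))))))))
 (c (a (nat_lit 0x2021e7729204026))
 (c z e
 (c z e
 (c z e
 (c z e
 (c z e
 (c (a (nat_lit 0xb50cd5abb50250ae7)) e
 (c z e
 (c z e
 (c (a (nat_lit 0x889ab75a8886c8e08)) e e)))))))))
 (c (a (nat_lit 0x1fb54541a17846)) e
 (c (a (nat_lit 0x18d307a503ed0fe7)) e
 (c (a (nat_lit 0x56121a2caf36c27)) e
 (c z e
 (c z e
 (c z e
 (c z e
 (c z e
 (c z e
 (c z e
 (c z e
 (c (a (nat_lit 0x1cf8fc34e9664e86)) e e))))))))))))))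
 (c z
 (c (a (nat_lit 0x1923865c0e0ad85))
 (c z e
 (c z e
 (c z e
 (c z e
 (c z e
 (c z e
 (c (a (nat_lit 0x3474342a180c396e7)) e e)))))))
 (c (b (nat_lit 0x1735bfe0c088d926))
 (c z e
 (c z e
 (c z e
 (c z e
 (c z e
 (c z e
 (c (a (nat_lit 0x8692587c7bcd50fa9)) e e)))))))
 (c (a (nat_lit 0x94424a4e49023e7)) e
 (c z e
 (c z e
 (c z e
 (c z e
 (c z e
 (c z e
 (c z e
 (c z e
 (c z e
 (c z e
 (c (a (nat_lit 0x155442250eab4e24)) e e))))))))))))))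
 (c z
 (c (a (nat_lit 0x14c363e86785db44))
 (c z e
 (c z e
 (c z e
 (c z e
 (c z e
 (c (a (nat_lit 0x80c88024858ef6be8)) e
 (c (a (nat_lit 0x6a4e12116db8746c8)) e e)))))))
 (c (b (nat_lit 0x11327773dfe98646)) e
 (c z e
 (c z e
 (c z e
 (c z e
 (c (a (nat_lit 0x6a6040727788687))
 (c (a (nat_lit 0x1891b4656000000007)) e e) e)))))))
 (c z
 (c z e
 (c z e
 (c z e
 (c z e
 (c z e
 (c z e
 (c z e
 (c (b (nat_lit 0x283bff7106e6c46)) e e))))))))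
 (c z e
 (c z e
 (c z e
 (c (a (nat_lit 0xa0c0c0c0dd46)) e
 (c (a (nat_lit 0x2020203182a7))
 (c (a (nat_lit 0xa23cd8194a945)) e
 (c z e
 (c z e
 (c z e
 (c z e
 (c (a (nat_lit 0x4c3a5a675c00009)) e
 (c (a (nat_lit 0x2bce4c000000005)) e e)))))))
 (c (a (nat_lit 0x101011d0462a6)) e
 (c (a (nat_lit 0x3435548458386)) e
 (c z e
 (c (a (nat_lit 0x1185c361814646)) e
 (c (a (nat_lit 0x1008c1e1355d04)) e
 (c (a (nat_lit 0x2a06084c65645)) e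
 (c z e
 (c z e
 (c z e
 (c (a (nat_lit 0x5d900204021a5)) e
 (c (a (nat_lit 0x1900206061c125)) e e))))))))))))))))))))))) Tr.c Tr.e (nat_lit 0) C.cx C.cy
noncomputable def C437 : Tr := beta% (fun (c : Nat → Tr → Tr → Tr) (e : Tr) (z : Nat) (a b : Nat → Nat) =>
 (c z
 (c (a (nat_lit 0x13d3d3c9c6d34e4e23))
 (c (a (nat_lit 0xd8d8ff0d28eaff06fc4)) e e)
 (c (a (nat_lit 0x4040880e6e1c19145))
 (c z e
 (c z e
 (c z e
 (c z e
 (c z e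
 (c z e
 (c z e
 (c z e
 (c z e
 (c z e
 (c z e
 (c (a (nat_lit 0x6e76ab2092844871a28)) e
 (c (a (nat_lit 0x9ca6ecca706aa3772e8)) e e)))))))))))))
 (c (a (nat_lit 0x308218400604c74a6))
 (c z e
 (c z e
 (c z e
 (c z e
 (c z e
 (c z e
 (c z e
 (c z e
 (c z e
 (c (a (nat_lit 0x321c582c22205857607)) e
 (c (a (nat_lit 0x5278c068789271a5988)) e
 (c (a (nat_lit 0x609c8a469a6f7714008)) e e))))))))))))
 (c (a (nat_lit 0x1c0e320806d33ecc6))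
 (c z e
 (c z e
 (c z e
 (c z e
 (c z e
 (c z e
 (c (a (nat_lit 0x5e98787860588bf95a7)) e
 (c z e
 (c (a (nat_lit 0x3c762626267b2d55987)) e
 (c (a (nat_lit 0x7cc2685c90dfadc4b68)) e
 (c z e
 (c (a (nat_lit 0x141aadcfe60000000008)) e e))))))))))))
 (c (a (nat_lit 0x304028267f48c2426)) e
 (c z e
 (c z e
 (c z e
 (c z e
 (c z e
 (c z e
 (c z e
 (c z e
 (c (a (nat_lit 0x1653f775d3d1b22645)) e
 (c (a (nat_lit 0x9280a0c49eaa7b8e5)) e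
 (c (a (nat_lit 0xaac8f3317d7b798c6)) e e))))))))))))))))
 (c z
 (c (a (nat_lit 0x20a232460e04d98a6))
 (c z e
 (c z e
 (c z e
 (c z e
 (c z e
 (c z e
 (c z e
 (c z e
 (c (a (nat_lit 0x1e26542c2c20364f0a8)) e
 (c z e
 (c z e
 (c (a (nat_lit 0x5684c6666a2c64c5389)) e
 (c (a (nat_lit 0x72ac7a4c367f109c009)) e e)))))))))))))
 (c (a (nat_lit 0x12440580604fd85427))
 (c z e
 (c z e
 (c z e
 (c z e
 (c z e
 (c z e
 (c z e
 (c (a (nat_lit 0x56b85c364c768399c88)) e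
 (c (a (nat_lit 0x5c982e2e4879f684e68)) e
 (c (a (nat_lit 0x46584a3851ecc6e4cc8)) e
 (c (a (nat_lit 0xbb1494acec9fb3ccc89)) e e)))))))))))
 (c (a (nat_lit 0x2c280c0a9302c0a48))
 (c z e
 (c z e
 (c z e
 (c z e
 (c z e
 (c (a (nat_lit 0x7ef06a2256159a95568)) e
 (c (a (nat_lit 0x58503c32528d0f37528)) e
 (c (a (nat_lit 0x10ccaa4af2b334b2b9c8)) e
 (c (a (nat_lit 0x9268588053351b93588)) e e)))))))))
 (c z e
 (c z e
 (c z e
 (c z e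
 (c z e
 (c z e
 (c z e
 (c (a (nat_lit 0x146def704f8dea93a6)) e e)))))))))))
 (c z
 (c (a (nat_lit 0x88763c375dd8e7a26))
 (c z e
 (c z e
 (c z e
 (c z e
 (c z e
 (c z e
 (c z e
 (c (a (nat_lit 0x846c3e546c8e95530c8)) e e))))))))
 (c z e
 (c z e
 (c z e
 (c z e
 (c z e
 (c z e
 (c z e
 (c (a (nat_lit 0x1f5d66a92766e6eea6)) e
 (c (a (nat_lit 0x1cc648ca464509a746)) e
 (c (a (nat_lit 0x8ccee4bcd43c512e7)) e
 (c (a (nat_lit 0x8e927e94b0a883887)) e e))))))))))))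
 (c (a (nat_lit 0xe0e0e0e0e0f4c5))
 (c z e
 (c z e
 (c z e
 (c z e
 (c z e
 (c z e
 (c z e
 (c (a (nat_lit 0xe8a09a464e508b586)) e
 (c (a (nat_lit 0x1392ccac2a978f3e65)) e e)))))))))
 (c (a (nat_lit 0x101010101114645))
 (c z e
 (c z e
 (c z e
 (c z e
 (c z e
 (c z e
 (c (a (nat_lit 0x10c54201a0a4e6c727)) e
 (c (a (nat_lit 0x924c6412e6a5283a6)) e
 (c z e
 (c z e
 (c z e
 (c (a (nat_lit 0x24283026348f161aa)) e e))))))))))))
 (c (a (nat_lit 0x20202038ece4c6))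
 (c z e
 (c z e
 (c z e
 (c z e
 (c z e
 (c (a (nat_lit 0x1ba62525698d474807)) e e))))))
 (c (a (nat_lit 0xe0e0f18be78487))
 (c z e
 (c z e
 (c z e
 (c z e
 (c (a (nat_lit 0x1b910fd67e5e7758e6)) e
 (c (a (nat_lit 0x703e7eab34a894567)) e e))))))
 (c (a (nat_lit 0x203d31a925e5c6)) e
 (c (b (nat_lit 0x1ffea86964a483e6)) e
 (c (a (nat_lit 0x12ea66e2a2638266))
 (c (a (nat_lit 0x64e03a6a6a0e69dc6)) e
 (c (a (nat_lit 0x646a564c2ec443087)) e e))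
 (c (a (nat_lit 0xe10a72ab3f09fa4)) e
 (c (a (nat_lit 0xaa8891271db1385)) e
 (c z e
 (c z e
 (c (a (nat_lit 0x10125e5393932b66)) e
 (c (a (nat_lit 0xc72ad4d4e09c107)) e
 (c z e
 (c (a (nat_lit 0xef69f9b7bf3d263)) e
 (c z e
 (c z e
 (c (a (nat_lit 0x1291472747e7c002)) e e)))))))))))))))))))))) Tr.c Tr.e (nat_lit 0) C.cx C.cy
noncomputable def C438 : Tr := beta% (fun (c : Nat → Tr → Tr → Tr) (e : Tr) (z : Nat) (a b : Nat → Nat) =>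
 (c z
 (c (a (nat_lit 0xd8d8cd1702b8b24))
 (c z e
 (c z e
 (c z e
 (c (a (nat_lit 0x8c865f40867e7a7c7)) e
 (c (a (nat_lit 0x50325f44b04a3e807)) e
 (c z e
 (c z e
 (c (a (nat_lit 0xaca04048581a45946)) e
 (c (a (nat_lit 0x9c18532852728f7a6)) e
 (c (a (nat_lit 0x201e4e563cc44f4a6)) e
 (c (a (nat_lit 0x52863ffc3c3818007)) e e)))))))))))
 (c (b (nat_lit 0xebffdb28fae9c24))
 (c (a (nat_lit 0xaca77ac67c90886a7)) e
 (c z e
 (c z e
 (c z e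
 (c (a (nat_lit 0xccdd1ea4dca6a2806)) e
 (c (a (nat_lit 0x565254784e2461488)) e
 (c (a (nat_lit 0x483e664a283301328)) e
 (c z e
 (c (a (nat_lit 0x645c9c629669ca247)) e e)))))))))
 (c (a (nat_lit 0x1377e82787072de5))
 (c z e
 (c z e
 (c (a (nat_lit 0xa156d2f124ca024c7)) e
 (c (a (nat_lit 0x98a918b468944eec7)) e
 (c (a (nat_lit 0x74eabe7a6eb32a567)) e
 (c (a (nat_lit 0x7a68463a4306604c8)) e e))))))
 (c (a (nat_lit 0x3e0a201e29170e5))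
 (c z e
 (c z e
 (c (a (nat_lit 0xd6c8e8a566847c927)) e
 (c z e
 (c z e
 (c z e
 (c (a (nat_lit 0x8426768d963c00007)) e
 (c (a (nat_lit 0x1904e903a000000008)) e e))))))))
 (c (a (nat_lit 0xd8bec0e588d81e4))
 (c z e
 (c z e
 (c (a (nat_lit 0x728234ed403480167)) e
 (c z e
 (c (a (nat_lit 0x58aa59119a9282007)) e
 (c (a (nat_lit 0x1c042970740000007)) e e))))))
 (c (a (nat_lit 0x42446134d6f2ec5))
 (c (a (nat_lit 0x52247a17da349af06)) e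
 (c z e
 (c z e
 (c z e
 (c (a (nat_lit 0x12453026e000000007)) e e)))))
 (c (a (nat_lit 0x126f08d6b6aab25))
 (c z e
 (c (a (nat_lit 0x33145258406434008)) e e))
 (c (a (nat_lit 0x19c34d493341a44))
 (c (a (nat_lit 0x1b4daccb0a45600006)) e e)
 (c (a (nat_lit 0xff3133356f805e5)) e
 (c (a (nat_lit 0x13b393f777e9c5c5)) e
 (c (a (nat_lit 0xfafb34dc5832226)) e
 (c z e
 (c (a (nat_lit 0xbd0e482e021a885)) e
 (c (a (nat_lit 0x10e685240585e3a5)) e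
 (c (a (nat_lit 0x13cd28cf1188dce3)) e
 (c (a (nat_lit 0x9040a8ba3b7c0c3)) e e))))))))))))))))
 (c z
 (c (a (nat_lit 0x46a40342a691e4))
 (c z e
 (c z e
 (c z e
 (c z e
 (c (a (nat_lit 0x3c701a6a32748bc66)) e
 (c (a (nat_lit 0x61e5e18084730b67)) e
 (c (a (nat_lit 0xa4c161004fdaa387)) e e)))))))
 (c (a (nat_lit 0x1715559c0e4f8824))
 (c z e
 (c z e
 (c (a (nat_lit 0xd4e0c35ad09ce0147)) e
 (c (a (nat_lit 0x1330d6321031951b26)) e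
 (c z e
 (c (a (nat_lit 0x68582818f512640e8)) e e))))))
 (c (a (nat_lit 0x7090905cff26005))
 (c z e
 (c z e
 (c (a (nat_lit 0xe140eb5934ecf9427)) e e)))
 (c z e
 (c z e
 (c (a (nat_lit 0x80cb1102dceaa44))
 (c (a (nat_lit 0x6a974c7e607a7e447)) e
 (c (a (nat_lit 0x1e52cae6cac5400007)) e e))
 (c (a (nat_lit 0x88908cb2a05da84))
 (c (a (nat_lit 0x140462c34100000007)) e e)
 (c (a (nat_lit 0x11b27e9e5cf72685)) e
 (c z e
 (c (a (nat_lit 0xd2c2d514966c646)) e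
 (c (a (nat_lit 0xa2bd2ab8887a9a6)) e
 (c (a (nat_lit 0xe9a31b0aeabf445)) e
 (c (a (nat_lit 0x128460e0a0a0c0a5)) e
 (c (a (nat_lit 0x1081824122422fc3)) e e))))))))))))))
 (c z
 (c (a (nat_lit 0x1a9b3b506660a004))
 (c z e
 (c z e
 (c (a (nat_lit 0x949f22cc4a6a04667)) e e)))
 (c z e
 (c z e
 (c (a (nat_lit 0x1638294a81443b03))
 (c (a (nat_lit 0xae81250c68fd237c6)) e e)
 (c (a (nat_lit 0xf2cc929298cb145)) e
 (c (a (nat_lit 0x112464aa37593a63))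
 (c (a (nat_lit 0x116c4746a000000007)) e e)
 (c z e
 (c z e
 (c z e
 (c z e
 (c (a (nat_lit 0x1650daeeef25226)) e
 (c (a (nat_lit 0x20a2a3cdf06d65)) e e))))))))))))
 (c z
 (c z e
 (c (a (nat_lit 0x10cce922e0204a66))
 (c z e
 (c (a (nat_lit 0xdef88ce52d26988e9)) e e))
 (c (a (nat_lit 0x1148206040ac8f85))
 (c (a (nat_lit 0x15ef15d00285452866)) e e)
 (c (a (nat_lit 0x1340c100f3fc7604))
 (c (a (nat_lit 0x194aa9220101800007)) e e)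
 (c z e
 (c z e
 (c (a (nat_lit 0x58a1034eff6f565)) e
 (c (a (nat_lit 0x1436a08ec6a38a6)) e
 (c z e
 (c z e
 (c z e
 (c z e
 (c (a (nat_lit 0x255f1c7a0000005)) e e)))))))))))))
 (c z
 (c (a (nat_lit 0x8e80040208c7065))
 (c z e
 (c (a (nat_lit 0x16d09136bd94278627)) e e))
 (c (a (nat_lit 0x8816141b1958e85)) e
 (c z e
 (c z e
 (c (a (nat_lit 0x7d01cd83e311e25)) e
 (c (a (nat_lit 0x20de994c7161f65)) e
 (c (a (nat_lit 0x96977729a1855a6)) e e)))))))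
 (c z
 (c z e
 (c z e
 (c (a (nat_lit 0x6c7658cf5afe4)) e
 (c (a (nat_lit 0x6584e84964f3a5)) e
 (c (a (nat_lit 0x160c42d68f47485)) e
 (c (a (nat_lit 0x47ce8e2f6d38c6)) e e))))))
 (c z
 (c (a (nat_lit 0x1c6016b10e7c4)) e
 (c (a (nat_lit 0x24806c592f4b64)) e
 (c (a (nat_lit 0x342458846ab10c6)) e
 (c z e
 (c z e
 (c z e
 (c (a (nat_lit 0x8a92968e6279727)) e e)))))))
 (c (a (nat_lit 0x1245))
 (c (a (nat_lit 0x56709f11029aea4)) e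
 (c (a (nat_lit 0x122a60648d169c6)) e
 (c z e
 (c z e
 (c (a (nat_lit 0x827ca4a0d1d13e7)) e
 (c (a (nat_lit 0xbec8e8d0cde2007)) e e))))))
 (c (a (nat_lit 0x2020203402a5))
 (c z e
 (c z e
 (c (a (nat_lit 0x6e86d33294d2027)) e e)))
 (c (a (nat_lit 0x20203a672a84))
 (c (a (nat_lit 0x89b9d5c1c2e22e4)) e
 (c (a (nat_lit 0x8c9d0ab2ac3a507)) e e))
 (c (a (nat_lit 0x5657eaccd0324))
 (c (a (nat_lit 0x8d3cd0fe4020246)) e e)
 (c (a (nat_lit 0x579c84be36284)) e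
 (c (a (nat_lit 0x17a62aa2816184)) e
 (c (a (nat_lit 0xd5665e5a22263)) e
 (c (a (nat_lit 0x144343808064c3)) e
 (c (a (nat_lit 0x17b84a4bbd4221)) e
 (c z e
 (c (a (nat_lit 0x4c73920416321)) e
 (c (a (nat_lit 0x8dae045474581)) e
 (c (a (nat_lit 0xce020c202b1c2)) e
 (c (a (nat_lit 0xc1a3fefc81)) e e)))))))))))))))))))))) Tr.c Tr.e (nat_lit 0) C.cx C.cy
noncomputable def C439 : Tr := beta% (fun (c : Nat → Tr → Tr → Tr) (e : Tr) (z : Nat) (a b : Nat → Nat) =>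
 (c z
 (c (a (nat_lit 0xa0a0a0a0a0b0c6))
 (c (a (nat_lit 0x2e1617405666e0ae4)) e
 (c z e
 (c z e
 (c z e
 (c z e
 (c z e
 (c z e
 (c z e
 (c z e
 (c z e
 (c z e
 (c z e
 (c (a (nat_lit 0x64808c7883fdb3026)) e e)))))))))))))
 (c (a (nat_lit 0x404040405482c6))
 (c (a (nat_lit 0x2cac6aab91da4aa5))
 (c z e
 (c z e
 (c z e
 (c z e
 (c z e
 (c (a (nat_lit 0xa1b8907c626a3a5c1a8)) e e))))))
 (c (a (nat_lit 0x608630756120b4b46))
 (c z e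
 (c z e
 (c z e
 (c z e
 (c (a (nat_lit 0x11688884a344214184a9)) e e)))))
 (c z e
 (c z e
 (c z e
 (c (a (nat_lit 0x4e562e2852192caa7)) e
 (c z e
 (c z e
 (c z e
 (c (a (nat_lit 0x162c72e729939b2826)) e
 (c z e
 (c (a (nat_lit 0x3e2a3c40f4dd687c8)) e
 (c (a (nat_lit 0x3236365e8318f81c9)) e e)))))))))))))
 (c (a (nat_lit 0x20202034c442a6))
 (c z e
 (c z e
 (c z e
 (c z e
 (c (a (nat_lit 0x42345c24474ec87a7)) e
 (c z e
 (c z e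
 (c z e
 (c z e
 (c z e
 (c (a (nat_lit 0x4c4242eab54474308)) e e)))))))))))
 (c (a (nat_lit 0x202038870360c6)) e
 (c (a (nat_lit 0x1617ece23c504c6)) e
 (c (b (nat_lit 0x1ff126a181816467))
 (c z e
 (c z e
 (c z e
 (c z e
 (c (a (nat_lit 0x1dc13bdcd4e30b8c5)) e
 (c (a (nat_lit 0x6694662a4e2341247)) e e))))))
 (c (a (nat_lit 0x1e858565652c02e6))
 (c z e
 (c (a (nat_lit 0xa4eefcd1851d8ac47)) e
 (c z e
 (c z e
 (c z e
 (c z e
 (c (a (nat_lit 0x14f14ac5c5a0000007)) e e)))))))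
 (c (a (nat_lit 0x9e400a09d688744)) e
 (c (a (nat_lit 0x362c2f60767ad85)) e
 (c z e
 (c z e
 (c (a (nat_lit 0x128c9199aa26e785)) e
 (c (a (nat_lit 0xd6fd4ad0ac44126)) e
 (c z e
 (c z e
 (c z e
 (c z e
 (c (a (nat_lit 0xb088c26280db683)) e
 (c (a (nat_lit 0xd502a670f98a8c3)) e e)))))))))))))))))))
 (c z
 (c (a (nat_lit 0x18181819fcac323))
 (c z e
 (c z e
 (c z e
 (c z e
 (c (a (nat_lit 0x468c6e1a476914be6)) e
 (c (a (nat_lit 0x760e022e47faf85e6)) e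
 (c z e
 (c z e
 (c z e
 (c (a (nat_lit 0xa2c25832753e468e6)) e
 (c (a (nat_lit 0xb670323e610a72926)) e
 (c (a (nat_lit 0x2224267071504a0c8)) e
 (c (a (nat_lit 0x24285266b5ac08008)) e e)))))))))))))
 (c (a (nat_lit 0x2e2e2fcefca6004))
 (c (a (nat_lit 0x8a8a96c724808d386)) e
 (c z e
 (c z e
 (c (a (nat_lit 0x6c82786d2c9284948)) e
 (c (a (nat_lit 0x523e2c71d4de806a7)) e
 (c z e
 (c z e
 (c z e
 (c (a (nat_lit 0x5c363a830262520e7)) e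
 (c (a (nat_lit 0x6248584d7c32680e6)) e
 (c (a (nat_lit 0x3036625b2a2814209)) e e)))))))))))
 (c (a (nat_lit 0x5455e174a26c5e4))
 (c z e
 (c z e
 (c z e
 (c z e
 (c z e
 (c z e
 (c (a (nat_lit 0xa2b88e4c62543f867)) e e)))))))
 (c (a (nat_lit 0x1fb84766c648c5))
 (c z e
 (c z e
 (c z e
 (c z e
 (c (a (nat_lit 0x1454341750d0711907)) e
 (c (a (nat_lit 0xaeeaeed4bca7277c7)) e e))))))
 (c (a (nat_lit 0x1269a141e1a34506))
 (c z e
 (c z e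
 (c (a (nat_lit 0xcf811ee4a94cec487)) e
 (c z e
 (c z e
 (c z e
 (c z e
 (c (a (nat_lit 0x73bc6c403e0000008)) e e))))))))
 (c (a (nat_lit 0x8aa294951446884))
 (c (a (nat_lit 0xeed098815c8baa907)) e
 (c (a (nat_lit 0xec94674c88de24847)) e
 (c (a (nat_lit 0x74672244aeb60c927)) e
 (c z e
 (c z e
 (c (a (nat_lit 0xcaa44cddeef800007)) e
 (c (a (nat_lit 0x18432322e000000008)) e e)))))))
 (c (a (nat_lit 0x6c0e12a8d508944)) e
 (c z e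
 (c z e
 (c (a (nat_lit 0xb8e30ee94330c05)) e
 (c (a (nat_lit 0xc4f2cb210e88785)) e
 (c (a (nat_lit 0xfeef27086842226)) e
 (c z e
 (c (b (nat_lit 0x8d21fffe2616165)) e
 (c (a (nat_lit 0x14652a65e447e9e4)) e
 (c z e
 (c (a (nat_lit 0x126a477072323f23)) e e)))))))))))))))))
 C438))) Tr.c Tr.e (nat_lit 0) C.cx C.cy
noncomputable def C440 : Tr := beta% (fun (c : Nat → Tr → Tr → Tr) (e : Tr) (z : Nat) (a : Nat → Nat) =>
 (c z
 (c z e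
 (c (a (nat_lit 0x1e1e1f60225a18145))
 (c z e
 (c z e
 (c z e
 (c z e
 (c z e
 (c z e
 (c z e
 (c z e
 (c z e
 (c z e
 (c z e
 (c z e
 (c (a (nat_lit 0x7898a6e8b45c5a6f988)) e e)))))))))))))
 (c (a (nat_lit 0x4a4bd03862180f7a5))
 (c z e
 (c z e
 (c z e
 (c z e
 (c z e
 (c z e
 (c (a (nat_lit 0xc0410784a5a495df67)) e
 (c z e
 (c z e
 (c z e
 (c (a (nat_lit 0x4a4c76a4545a5839ac8)) e
 (c (a (nat_lit 0x5856887636521f80e28)) e e))))))))))))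
 (c (a (nat_lit 0x245a142e0a06e1c46))
 (c z e
 (c z e
 (c z e
 (c z e
 (c z e
 (c z e
 (c (a (nat_lit 0x4e64b86c70827095727)) e
 (c z e
 (c z e
 (c (a (nat_lit 0x4a74b4565242b5bd568)) e e))))))))))
 (c (a (nat_lit 0x28241c0a065d5a886))
 (c z e
 (c z e
 (c z e
 (c z e
 (c z e
 (c z e
 (c z e
 (c z e
 (c (a (nat_lit 0x36542626084d0aa2429)) e e)))))))))
 (c (a (nat_lit 0x689064591f8356cc4))
 (c z e
 (c z e
 (c z e
 (c z e
 (c (a (nat_lit 0x481e142e38633678668)) e e)))))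
 (c (a (nat_lit 0x112f6f706e480482a5)) e
 (c z e
 (c z e
 (c z e
 (c z e
 (c z e
 (c z e
 (c z e
 (c (a (nat_lit 0x128def70492848af45)) e
 (c (a (nat_lit 0x3a6878b4d2d8c1466)) e
 (c (a (nat_lit 0x7e8acd296f696db66)) e e)))))))))))))))))
 (c z
 (c (a (nat_lit 0x10117042421209425))
 (c z e
 (c z e
 (c z e
 (c z e
 (c z e
 (c z e
 (c z e
 (c z e
 (c z e
 (c z e
 (c z e
 (c z e
 (c (a (nat_lit 0x7e9ae6764a30a76e928)) e e)))))))))))))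
 (c (a (nat_lit 0x15122a260804c5067))
 (c z e
 (c z e
 (c z e
 (c z e
 (c z e
 (c z e
 (c z e
 (c (a (nat_lit 0x6a86e08a7c789881f27)) e
 (c (a (nat_lit 0x3e50943e343483b6c07)) e
 (c (a (nat_lit 0x1c122c141c1b4c9a108)) e
 (c (a (nat_lit 0xaf0926a29d1c8795488)) e e)))))))))))
 (c (a (nat_lit 0xb42a1c0804b98ed67))
 (c z e
 (c z e
 (c z e
 (c z e
 (c z e
 (c z e
 (c (a (nat_lit 0x5aa25a3a566a9c75e67)) e
 (c z e
 (c z e
 (c (a (nat_lit 0xe942889648e5cb8cda8)) e e))))))))))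
 (c (a (nat_lit 0x2c1a14107542e4ba7)) e
 (c z e
 (c z e
 (c z e
 (c z e
 (c z e
 (c z e
 (c z e
 (c (a (nat_lit 0x167133142e4c0c8086)) e
 (c (a (nat_lit 0x15543e13ce8f98e045)) e e)))))))))))))
 (c z
 (c (a (nat_lit 0x12834220a02dede326)) e
 (c (a (nat_lit 0x34261816ef5474da7))
 (c z e
 (c z e
 (c z e
 (c z e
 (c z e
 (c z e
 (c (a (nat_lit 0xac745862546ee91c908)) e e)))))))
 (c z e
 (c z e
 (c z e
 (c z e
 (c z e
 (c z e
 (c z e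
 (c (a (nat_lit 0x110f05848583a4a5e6)) e
 (c (a (nat_lit 0x162c102f2d0e206966)) e
 (c (a (nat_lit 0x98c6f4c7030a57725)) e e))))))))))))
 (c z
 (c (a (nat_lit 0x322424fdcab0d8e86)) e
 (c z e
 (c z e
 (c z e
 (c z e
 (c z e
 (c z e
 (c (a (nat_lit 0x1e5a70f308e82fd225)) e
 (c z e
 (c (a (nat_lit 0x74aca098d47471946)) e
 (c (a (nat_lit 0xcec0acf1011f2bb86)) e e)))))))))))
 (c (a (nat_lit 0x141414141415d64))
 (c z e
 (c z e
 (c z e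
 (c z e
 (c z e
 (c z e
 (c (a (nat_lit 0xf7388a36103666a86)) e
 (c (a (nat_lit 0x12a622e12269058ae6)) e
 (c z e
 (c (a (nat_lit 0xb88cb70d4f2f79a46)) e e))))))))))
 (c (a (nat_lit 0x202020203829a5))
 (c z e
 (c z e
 (c z e
 (c z e
 (c z e
 (c (a (nat_lit 0xa5d0243c4852c8546)) e
 (c (a (nat_lit 0x1aa122a1e4452bc0c6)) e
 (c (a (nat_lit 0x50568884a91a96127)) e e))))))))
 (c (a (nat_lit 0xc0c0c0da9065e6))
 (c z e
 (c z e
 (c z e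
 (c z e
 (c (a (nat_lit 0xb354a6f718ebdd566)) e
 (c z e
 (c (a (nat_lit 0x4858566763007c8e7)) e e)))))))
 (c (a (nat_lit 0x262627d70a626e6))
 (c z e
 (c z e
 (c z e
 (c (a (nat_lit 0x3e367062d7d787c26)) e e))))
 (c (a (nat_lit 0x4c4d34807874727)) e
 (c (a (nat_lit 0xd1476241610046))
 (c z e
 (c (a (nat_lit 0x5a904a4876207d266)) e
 (c (a (nat_lit 0xa01ea8626427e34c6)) e e)))
 (c (a (nat_lit 0x11c903638323c2c6))
 (c (a (nat_lit 0x5058403438621b5c7)) e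
 (c (a (nat_lit 0xdb0892f6efb0fb6c6)) e e))
 (c (a (nat_lit 0x9a3a3839557ef23)) e
 (c (a (nat_lit 0x605858a4e70a865)) e e)))))))))))))) Tr.c Tr.e (nat_lit 0) C.cx
noncomputable def C441 : Tr := beta% (fun (c : Nat → Tr → Tr → Tr) (e : Tr) (z : Nat) (a : Nat → Nat) =>
 (c z
 (c (a (nat_lit 0x5252525253d00c743))
 (c (a (nat_lit 0xcf3317137de5674f983)) e
 (c z e
 (c z e
 (c z e
 (c z e
 (c z e
 (c z e
 (c z e
 (c z e
 (c z e
 (c z e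
 (c z e
 (c z e
 (c z e
 (c z e
 (c (a (nat_lit 0x383c3c3a5ec72a26008)) e e))))))))))))))))
 (c (a (nat_lit 0xc0c0c0d661e1e1c5)) e
 (c (a (nat_lit 0x161617a41c160e085))
 (c z e
 (c z e
 (c z e
 (c z e
 (c z e
 (c z e
 (c z e
 (c z e
 (c z e
 (c z e
 (c z e
 (c (a (nat_lit 0x36444866522816173a7)) e e))))))))))))
 (c (a (nat_lit 0x2e2fea26261c095a4))
 (c z e
 (c z e
 (c z e
 (c z e
 (c z e
 (c z e
 (c z e
 (c z e
 (c z e
 (c (a (nat_lit 0x3a346a92443448b16e7)) e e))))))))))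
 (c (a (nat_lit 0x109a160a10064f665))
 (c z e
 (c z e
 (c z e
 (c z e
 (c z e
 (c z e
 (c z e
 (c z e
 (c (a (nat_lit 0x325c78422e16cfc8c27)) e
 (c (a (nat_lit 0x505c5e3016878688007)) e e))))))))))
 (c (a (nat_lit 0x1c2743c5e487ceaae4)) e
 (c z e
 (c z e
 (c z e
 (c z e
 (c z e
 (c z e
 (c z e
 (c z e
 (c (a (nat_lit 0x16b6146d6ae3e44904)) e
 (c (a (nat_lit 0x13b191166f0eaedf44)) e
 (c (a (nat_lit 0x4c325ecce0e4df625)) e e)))))))))))))))))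
 (c z
 (c (a (nat_lit 0x606074c120a1c164)) e
 (c (a (nat_lit 0x1011a21208120ae65))
 (c z e
 (c z e
 (c z e
 (c z e
 (c z e
 (c z e
 (c z e
 (c z e
 (c z e
 (c z e
 (c z e
 (c (a (nat_lit 0x3c4e72141c667d52247)) e
 (c z e
 (c (a (nat_lit 0x567702aa40000000008)) e e))))))))))))))
 (c (a (nat_lit 0xb321a08181090de5)) e
 (c (a (nat_lit 0xf61a1222187f02bc5)) e
 (c z e
 (c z e
 (c z e
 (c z e
 (c z e
 (c z e
 (c z e
 (c z e
 (c z e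
 (c z e
 (c (a (nat_lit 0x9094bf030d0f113c5)) e e)))))))))))))))
 (c z
 (c (a (nat_lit 0x3bd84e3832272c384)) e
 (c (a (nat_lit 0x18620201a14ca5c465)) e
 (c z e
 (c z e
 (c z e
 (c z e
 (c z e
 (c z e
 (c z e
 (c z e
 (c z e
 (c z e
 (c z e
 (c (a (nat_lit 0xa8edcbfbedd1f3fe4)) e
 (c (a (nat_lit 0x329ee0eeeafcf74e5)) e e)))))))))))))))
 (c z
 (c z e
 (c z e
 (c z e
 (c z e
 (c z e
 (c z e
 (c z e
 (c z e
 (c z e
 (c z e
 (c z e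
 (c (a (nat_lit 0x3a58c4eecec2ffe05)) e
 (c (a (nat_lit 0xb93983592f573bc05)) e
 (c (a (nat_lit 0x8aaebab2c8c2c5306)) e e))))))))))))))
 (c z
 (c z e
 (c z e
 (c z e
 (c z e
 (c z e
 (c z e
 (c z e
 (c z e
 (c z e
 (c z e
 (c (a (nat_lit 0x66b0f2f0f919f8f65)) e
 (c (a (nat_lit 0x609092748c7ecde66)) e
 (c (a (nat_lit 0x363e363c363e4f147)) e e)))))))))))))
 (c (a (nat_lit 0xc0e0e0e0e0f7e4))
 (c z e
 (c z e
 (c z e
 (c z e
 (c z e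
 (c z e
 (c z e
 (c z e
 (c z e
 (c (a (nat_lit 0xaed8cad6f9f300f45)) e
 (c (a (nat_lit 0x828082a0a2e3f6526)) e
 (c (a (nat_lit 0x686e74929ecdd4006)) e e))))))))))))
 (c (a (nat_lit 0x1616161617305e5))
 (c z e
 (c z e
 (c z e
 (c z e
 (c z e
 (c z e
 (c z e
 (c z e
 (c z e
 (c (a (nat_lit 0x4a4e6862890e3e3c7)) e
 (c (a (nat_lit 0x18324c60a59200006)) e e)))))))))))
 (c (a (nat_lit 0x2222222388a03a5)) e
 (c (a (nat_lit 0x1e1e1f964c444c5)) e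
 (c (a (nat_lit 0xc0d184c1a1c165))
 (c z e
 (c z e
 (c (a (nat_lit 0x3e2c263a2e20191a6)) e
 (c z e
 (c z e
 (c (a (nat_lit 0x930cb046444e36006)) e e))))))
 (c (a (nat_lit 0xd1a581c261e045))
 (c z e
 (c (a (nat_lit 0x424c5434280fd8365)) e
 (c z e
 (c z e
 (c (a (nat_lit 0x1e91e0450b48800005)) e e)))))
 (c (a (nat_lit 0x1e0483a443624104))
 (c (a (nat_lit 0x38662828257a90665)) e e)
 (c z e
 (c z e
 (c (a (nat_lit 0x11d2131a9e7b5e43)) e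
 (c (a (nat_lit 0xfb15a3e3bfe7ec3)) e
 (c (a (nat_lit 0xdf254535494b364)) e e)))))))))))))))))) Tr.c Tr.e (nat_lit 0) C.cx
noncomputable def C442 : Tr := beta% (fun (c : Nat → Tr → Tr → Tr) (e : Tr) (z : Nat) (a b : Nat → Nat) =>
 (c (nat_lit 1)
 (c (a (nat_lit 0x6060606061))
 (c z
 (c z
 (c (a (nat_lit 0x5e5e5e5e5e5e5f5a2))
 (c (a (nat_lit 0x8a8b4e9488989288641)) e
 (c (a (nat_lit 0x9ff6a69eb8acb2aca22)) e
 (c (a (nat_lit 0x12e70687c76847a8c943)) e e)))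
 (c (a (nat_lit 0x1c1c1c1c1c1d0a184))
 (c (a (nat_lit 0x14a7492988ebaf48cd23)) e
 (c (a (nat_lit 0x6a6c7874bf26f6e8c44)) e
 (c (a (nat_lit 0x8c888b7192bb37a1743)) e e)))
 (c (a (nat_lit 0x202020202140201e4)) e
 (c (a (nat_lit 0x2020202158281e224)) e
 (c z e
 (c z e
 (c z e
 (c (a (nat_lit 0x156804c5c563a08224)) e e))))))))
 C441)
 (c z C440
 (c z
 (c z
 (c (a (nat_lit 0x328e44522620fd384)) e
 (c (a (nat_lit 0x17634441009996ea65)) e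
 (c (a (nat_lit 0x3a1e0a0717f4df305)) e
 (c (a (nat_lit 0x262824f58135830c5)) e
 (c z e
 (c z e
 (c z e
 (c z e
 (c z e
 (c z e
 (c z e
 (c z e
 (c (a (nat_lit 0xc4f702fb032e0a385)) e
 (c (a (nat_lit 0x162c687e94665bec6)) e e))))))))))))))
 (c z
 (c (a (nat_lit 0x5852342be11ea5585)) e
 (c z e
 (c z e
 (c z e
 (c z e
 (c z e
 (c z e
 (c z e
 (c z e
 (c z e
 (c (a (nat_lit 0x10b55654f2c828da86)) e
 (c (a (nat_lit 0x5a5c5850562207087)) e e))))))))))))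
 (c (a (nat_lit 0x20202020203026)) e
 (c (a (nat_lit 0x202020203f6385))
 (c z e
 (c z e
 (c z e
 (c z e
 (c z e
 (c (a (nat_lit 0x168a218384670742e5)) e e))))))
 (c (a (nat_lit 0x202020346662a6)) e
 (c (a (nat_lit 0x203f4e23e546)) e
 (c (a (nat_lit 0x2a2b2c9a4858567)) e
 (c (a (nat_lit 0x19324c444846567))
 (c z e
 (c (a (nat_lit 0x8012322858026f207)) e e))
 (c (a (nat_lit 0x1584e0a100a361c6))
 (c (a (nat_lit 0x12890b6727f1b777c5)) e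
 (c z e
 (c z e
 (c z e
 (c z e
 (c (a (nat_lit 0x144dc3e48540000007)) e e))))))
 (c (a (nat_lit 0xa2066c61526ec04)) e
 (c (a (nat_lit 0x1c4042e8a0bb385)) e
 (c z e
 (c z e
 (c z e
 (c z e
 (c z e
 (c (a (nat_lit 0x154661c1a0202025)) e
 (c (a (nat_lit 0x1c4b084624846d23)) e
 (c (a (nat_lit 0xae823c1e1ca90c3)) e
 (c (a (nat_lit 0xca8c7e36db3a2e3)) e e))))))))))))))))))))
 C439)))
 (c (nat_lit 1)
 (c z C437
 C436)
 C435))
 (c (a (nat_lit 0x40404041)) C430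
 (c (nat_lit 1)
 (c (nat_lit 1)
 (c z
 (c (a (nat_lit 0xeeeeeeee3b858e3)) e
 (c (a (nat_lit 0x8282839fb5b4044)) e
 (c (a (nat_lit 0x2a2aa11ed202025))
 (c z e
 (c z e
 (c z e
 (c z e
 (c z e
 (c z e
 (c z e
 (c z e
 (c (a (nat_lit 0x1e34464a4a36393e8)) e e)))))))))
 (c (a (nat_lit 0x34f592c4846525)) e
 (c (a (nat_lit 0xb4db04222030265))
 (c z e
 (c z e
 (c z e
 (c z e
 (c (a (nat_lit 0x3afa90682a3a798e6)) e e)))))
 (c (a (nat_lit 0x13b0a9c98688a164))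
 (c z e
 (c z e
 (c z e
 (c (a (nat_lit 0x1192e92e2d76b6f927)) e e))))
 (c (a (nat_lit 0x12af2f0d700ce065)) e
 (c z e
 (c z e
 (c z e
 (c z e
 (c z e
 (c z e
 (c z e
 (c (b (nat_lit 0x1374357fe827e2e6)) e e)))))))))))))))
 (c z
 (c (a (nat_lit 0x5a5ba56f4e16005)) e
 (c (a (nat_lit 0x30cbc8a0202587)) e
 (c (a (nat_lit 0x16cfad61a1a2a527)) e
 (c (a (nat_lit 0x13b242a0a5c121c5)) e e))))
 (c z
 (c (a (nat_lit 0xf4cc8008085d6a6))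
 (c z e
 (c z e
 (c z e
 (c z e
 (c z e
 (c (a (nat_lit 0x1290e4e4260b8d787)) e
 (c z e
 (c (a (nat_lit 0x5fd1205e26a9a1987)) e e))))))))
 (c (a (nat_lit 0xf666100e0f48606)) e
 (c z e
 (c z e
 (c z e
 (c z e
 (c z e
 (c z e
 (c z e
 (c z e
 (c z e
 (c (a (nat_lit 0x15f4b5714a480687)) e e))))))))))))
 (c z
 (c (a (nat_lit 0x10ef8f87cacb0025))
 (c z e
 (c z e
 (c z e
 (c z e
 (c (a (nat_lit 0x2258c8c0626308228)) e e)))))
 (c z e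
 (c z e
 (c z e
 (c z e
 (c z e
 (c z e
 (c z e
 (c z e
 (c (a (nat_lit 0x1775f68d6e8da027)) e e))))))))))
 (c z
 (c z e
 (c z e
 (c z e
 (c z e
 (c z e
 (c z e
 (c z e
 (c z e
 (c (a (nat_lit 0x1212115071e0e2e7)) e e)))))))))
 (c z
 (c z e
 (c z e
 (c z e
 (c z e
 (c z e
 (c (a (nat_lit 0x6bad4545431706)) e
 (c z e
 (c z e
 (c (a (nat_lit 0x52c2b318db25108)) e e)))))))))
 (c (a (nat_lit 0xc0c0c0c0d787)) e
 (c (a (nat_lit 0x2020203a2647)) e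
 (c (a (nat_lit 0x20203e468126)) e
 (c (a (nat_lit 0x141508541e147)) e
 (c (a (nat_lit 0x173638281c1c7)) e
 (c (a (nat_lit 0x12c322a1e1e567)) e
 (c (a (nat_lit 0x58360608e5425))
 (c z e
 (c (a (nat_lit 0x168b90b460000008)) e e))
 (c (a (nat_lit 0x361616caf9206))
 (c (a (nat_lit 0x16886d4000000007)) e e) e))))))))))))))
 C427)
 C426)))) Tr.c Tr.e (nat_lit 0) C.cx C.cy
noncomputable def C443 : Tr := beta% (fun (c : Nat → Tr → Tr → Tr) (e : Tr) (z : Nat) (a b : Nat → Nat) =>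
 (c (nat_lit 1)
 (c (a (nat_lit 0x1c1c1dc50c3))
 (c (a (nat_lit 0x7c8e8c7820281)) e
 (c (a (nat_lit 0x10f11101e745a3)) e
 (c (b (nat_lit 0x9e9dff30a31a3)) e
 (c (a (nat_lit 0x99cb36ca1e665)) e
 (c (a (nat_lit 0x109211a822ecc5)) e
 (c (a (nat_lit 0x7e304e860b386)) e
 (c (a (nat_lit 0x151872ab92a025)) e e)))))))
 (c (a (nat_lit 0x2425a5384c4))
 (c (a (nat_lit 0x1bbbc12bac2ca2)) e
 (c z e
 (c z e
 (c (a (nat_lit 0xdef87c06c39e6)) e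
 (c (a (nat_lit 0x8d19181987126)) e e)))))
 (c (b (nat_lit 0x16a9623fe5)) e
 (c (a (nat_lit 0x10a6e3e16166))
 (c z e
 (c z e
 (c (a (nat_lit 0x54c1468010007)) e e)))
 (c (a (nat_lit 0x194e63e3d564))
 (c (a (nat_lit 0x6ec9145c30226)) e
 (c (a (nat_lit 0x151a524a000006)) e e))
 (c (a (nat_lit 0xc80a0b23344))
 (c (a (nat_lit 0x188d0bc0000005)) e e)
 (c (a (nat_lit 0x78791519026)) e
 (c z e
 (c (a (nat_lit 0x1701a2016182)) e
 (c (a (nat_lit 0x100a09561)) e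
 (c (a (nat_lit 0xa0608b59c2)) e
 (c (a (nat_lit 0x2434e3b71a2)) e
 (c z e
 (c (a (nat_lit 0x47b80a08001)) e
 (c (a (nat_lit 0x1002a0e08062)) e
 (c (a (nat_lit 0x4e180800001)) e
 (c (a (nat_lit 0x10000000001)) e e)))))))))))))))))
 (c (nat_lit 1)
 (c (a (nat_lit 0x873524ac6e4))
 (c (a (nat_lit 0x13739313f6d163)) e
 (c z e
 (c z e
 (c (a (nat_lit 0x884e1a6d32966)) e
 (c (a (nat_lit 0xf4be1a9f105c6)) e e)))))
 (c (a (nat_lit 0x1f142cc94945))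
 (c (a (nat_lit 0xeecea0b271706)) e
 (c (a (nat_lit 0xdaeb32a7c5706)) e e))
 (c (a (nat_lit 0x136840203264))
 (c (a (nat_lit 0xa8950e44a6646)) e e)
 (c (a (nat_lit 0x9202032b064))
 (c (a (nat_lit 0xfb7cc29e76005)) e
 (c (a (nat_lit 0x9b2c980000006)) e e))
 (c (a (nat_lit 0x3e3f5b49185))
 (c (a (nat_lit 0x1a492000000005)) e e)
 (c z e
 (c (a (nat_lit 0x151373335345)) e
 (c (a (nat_lit 0x400c0a0b0c1)) e
 (c (a (nat_lit 0x10148d302)) e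
 (c (a (nat_lit 0x161a9b1e762)) e
 (c z e
 (c (a (nat_lit 0x6b763010021)) e
 (c (a (nat_lit 0x17a3210080a1)) e
 (c (a (nat_lit 0x2a100604001)) e
 (c (a (nat_lit 0xa020000001)) e e)))))))))))))))
 (c (a (nat_lit 0x20202021))
 (c (a (nat_lit 0x108b884851e4))
 (c (a (nat_lit 0x421a22160f3e7)) e
 (c (a (nat_lit 0x103a38875c847)) e e))
 (c (a (nat_lit 0x7c02034cde4))
 (c (a (nat_lit 0x54807a94a7f86)) e e)
 (c (a (nat_lit 0xb4d75b26e45)) e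
 (c z e
 (c (a (nat_lit 0x179474747485)) e
 (c (a (nat_lit 0x1131515152a5)) e
 (c (a (nat_lit 0x20a0ac33e2)) e
 (c (a (nat_lit 0x2c92eb669c2)) e
 (c z e
 (c (a (nat_lit 0xb9ba22060e1)) e
 (c (a (nat_lit 0x13068585a562)) e
 (c (a (nat_lit 0x1a020606001)) e
 (c (a (nat_lit 0x60200001)) e
 (c (a (nat_lit 0x8000000001)) e e))))))))))))))
 (c (a (nat_lit 0x20202021))
 (c (a (nat_lit 0x1c1f7b69503))
 (c (a (nat_lit 0x186c3c847c81e3)) e e)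
 (c z e
 (c (a (nat_lit 0x179757573705)) e
 (c (a (nat_lit 0xc6c535352c6)) e
 (c (a (nat_lit 0x1cbcdcfba9c5)) e
 (c (a (nat_lit 0x112b4a4c49c4)) e
 (c z e
 (c (a (nat_lit 0x79a0780e021)) e
 (c (a (nat_lit 0x18700c4c9602)) e
 (c (a (nat_lit 0x460a10ab3c2)) e
 (c (a (nat_lit 0x106b5b40001)) e
 (c (a (nat_lit 0x2340000001)) e e))))))))))))
 (c (a (nat_lit 0xa08080a1))
 (c (a (nat_lit 0x15d5751595a2)) e
 (c (a (nat_lit 0x18f8f9190aa5)) e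
 (c (a (nat_lit 0x1a5a9ab82725)) e
 (c z e
 (c z e
 (c (a (nat_lit 0x858c4808001)) e
 (c (a (nat_lit 0x1a2a2080ef01)) e
 (c (a (nat_lit 0x1a06060a1)) e
 (c (a (nat_lit 0x160608080c1)) e
 (c (a (nat_lit 0x2080400001)) e
 (c (a (nat_lit 0x2000000001)) e e)))))))))))
 (c (a (nat_lit 0x20202001))
 (c (a (nat_lit 0x14b4b4c8e605)) e
 (c z e
 (c z e
 (c (a (nat_lit 0xe5fab83a281)) e
 (c (a (nat_lit 0x74280403223)) e
 (c (a (nat_lit 0x10141214081)) e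
 (c (a (nat_lit 0x8080806021)) e
 (c (a (nat_lit 0x20a0402001)) e
 (c (a (nat_lit 0x6020000001)) e e)))))))))
 (c (nat_lit 1)
 (c z e
 (c (a (nat_lit 0xd7b8600a001)) e
 (c (a (nat_lit 0x6c200203563)) e
 (c (a (nat_lit 0x10a0e0604001)) e
 (c (a (nat_lit 0x1a0e0406021)) e
 (c (a (nat_lit 0x180e0804001)) e
 (c (a (nat_lit 0xc080400001)) e
 (c (a (nat_lit 0xa000000001)) e e))))))))
 (c (nat_lit 1)
 (c (a (nat_lit 0x3c120205903)) e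
 (c (a (nat_lit 0x1c060a14001)) e
 (c (a (nat_lit 0x1c1822121e1)) e
 (c (a (nat_lit 0x1412085a021)) e
 (c (a (nat_lit 0xe6d8f480001)) e
 (c (a (nat_lit 0x1ccf40000001)) e e))))))
 (c (nat_lit 1)
 (c (a (nat_lit 0x6000402021)) e
 (c (a (nat_lit 0x2060604021)) e
 (c (a (nat_lit 0x6040402001)) e
 (c (a (nat_lit 0x4040200001)) e
 (c (a (nat_lit 0x4000000001)) e e)))))
 (c (a (nat_lit 0x20202021))
 (c (a (nat_lit 0x4040202021)) e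
 (c (a (nat_lit 0x4040202001)) e
 (c (a (nat_lit 0x6020000001)) e e)))
 (c (a (nat_lit 0x202021))
 (c (a (nat_lit 0x2020200001)) e
 (c (a (nat_lit 0x2000000001)) e e))
 (c (a (nat_lit 0x20202021)) e
 (c (a (nat_lit 0x40404041)) e
 (c (a (nat_lit 0x40406061)) e
 (c (a (nat_lit 0x60606061)) e
 (c (a (nat_lit 0x20200001)) e
 (c (a (nat_lit 0x20203244)) e
 (c (a (nat_lit 0x141336944)) e
 (c (a (nat_lit 0x3d5ebc364)) e
 (c (a (nat_lit 0x1409e18184)) e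
 (c (a (nat_lit 0x1241a184c3)) e
 (c (a (nat_lit 0x5a5525001)) e
 (c (a (nat_lit 0x28fed0561)) e e)))))))))))))))))))))))) Tr.c Tr.e (nat_lit 0) C.cx C.cy
noncomputable def C444 : Tr := beta% (fun (c : Nat → Tr → Tr → Tr) (e : Tr) (z : Nat) (a b : Nat → Nat) =>
 (c (a (nat_lit 0x60606061))
 (c (a (nat_lit 0x4040404041))
 (c (a (nat_lit 0xe8e8ed24d4d44))
 (c z e
 (c z e
 (c (a (nat_lit 0xd388768cee04585)) e
 (c (a (nat_lit 0x1208ee2c2825cb45)) e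
 (c (a (nat_lit 0xf4daeccf46c0c65)) e
 (c (a (nat_lit 0xdcbe3cfc70df0c5)) e
 (c z e
 (c (a (nat_lit 0x17f3f76660000005)) e
 (c (a (nat_lit 0x1921800000000005)) e e)))))))))
 (c (a (nat_lit 0x124f55e7e78784))
 (c (a (nat_lit 0x127289c2834963e6)) e
 (c z e
 (c z e
 (c (b (nat_lit 0x4b5ff752522fa5)) e
 (c z e
 (c (a (nat_lit 0xd52d4142da00006)) e e))))))
 (c (a (nat_lit 0x19fc21e100e9a3))
 (c (b (nat_lit 0x768117feae62bc6)) e e)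
 (c (a (nat_lit 0x1df4941414b424))
 (c z e
 (c (a (nat_lit 0xf128a066c26e4a7)) e e))
 (c (a (nat_lit 0x10f110d18fcdc3))
 (c (a (nat_lit 0x15a8836444c22006)) e e)
 (c (a (nat_lit 0x11d333504eef83)) e
 (c (a (nat_lit 0x221c1e86bb105)) e
 (c (a (nat_lit 0x1c10a2d52cd25)) e
 (c (a (nat_lit 0x23659df3532c5)) e
 (c z e
 (c (a (nat_lit 0x175cd776cf00a5)) e
 (c (a (nat_lit 0x17016482e900e3)) e
 (c (a (nat_lit 0xb0dec524aa0c3)) e
 (c (a (nat_lit 0x17155aea000003)) e e))))))))))))))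
 (c (a (nat_lit 0x2020202021))
 (c (a (nat_lit 0x19aa80a0403003))
 (c (a (nat_lit 0x12b0c1e07522a5e5)) e
 (c (b (nat_lit 0x10e4465fe968eae7)) e
 (c z e
 (c z e
 (c (a (nat_lit 0x5f8b593335d8006)) e
 (c (a (nat_lit 0x191b70ca60000006)) e e))))))
 (c (a (nat_lit 0x126cec4c5e4d64)) e
 (c z e
 (c z e
 (c (a (nat_lit 0x2241a3227006)) e
 (c (a (nat_lit 0x40268a390e86)) e
 (c (a (nat_lit 0x458c5e6ff146)) e
 (c z e
 (c z e
 (c (a (nat_lit 0x10290bc9e34027)) e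
 (c (b (nat_lit 0x19798179fffe4)) e
 (c (a (nat_lit 0x14f5552821c005)) e e))))))))))))
 (c (a (nat_lit 0x6060606061))
 (c (a (nat_lit 0x94eb0728f5004)) e
 (c z e
 (c (b (nat_lit 0x9ace9ea9ffaa4)) e
 (c (a (nat_lit 0xc8b106cf7f765)) e
 (c (a (nat_lit 0x4ea2b373bb9e5)) e e)))))
 (c (a (nat_lit 0x8080808081))
 (c (a (nat_lit 0xad1d30fa03d03))
 (c (a (nat_lit 0xb2cd9d411856005)) e
 (c (a (nat_lit 0xe78d348c0000006)) e e))
 (c (a (nat_lit 0x13d451e25d1784))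
 (c (a (nat_lit 0x1bb567e000000005)) e e)
 (c (a (nat_lit 0x1aef03f76c61e2)) e
 (c z e
 (c z e
 (c (a (nat_lit 0xb53f6b26a4166)) e
 (c z e
 (c z e
 (c (a (nat_lit 0x1780c060a02003)) e e)))))))))
 (c (a (nat_lit 0xa0a0a0a0a1))
 (c (a (nat_lit 0xfce3297754643)) e
 (c z e
 (c (a (nat_lit 0xa0be8c7f38d25)) e
 (c (a (nat_lit 0x38082108ef245)) e
 (c (a (nat_lit 0xa8b51f8102926)) e
 (c z e
 (c (a (nat_lit 0xe109b098b89c6)) e
 (c (a (nat_lit 0xd5446e6400005)) e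
 (c (a (nat_lit 0x1ca0e000000004)) e e)))))))))
 (c (a (nat_lit 0x2020203645))
 (c (a (nat_lit 0x41a100233765)) e
 (c (a (nat_lit 0x362e4ca50cfc6)) e
 (c (a (nat_lit 0x3a3c714108d66)) e
 (c z e
 (c z e
 (c (a (nat_lit 0xb90a7404a8006)) e
 (c (a (nat_lit 0x1a608020000004)) e e)))))))
 (c (a (nat_lit 0x20203b27a5))
 (c (a (nat_lit 0xd1090735db5e5)) e
 (c z e
 (c z e
 (c z e
 (c (a (nat_lit 0x11cdd5f6e00007)) e
 (c (a (nat_lit 0x13934000000004)) e e))))))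
 (c (a (nat_lit 0x29730764))
 (c z e
 (c (a (nat_lit 0x8ccae365b3ca7)) e e))
 (c (a (nat_lit 0x82e7baa22c4))
 (c (a (nat_lit 0x3a569f0d30386)) e e)
 (c (a (nat_lit 0x55f0c802003)) e
 (c (a (nat_lit 0x1c2d20202da3)) e
 (c (a (nat_lit 0xa0020439283)) e
 (c (b (nat_lit 0x22225b33fe3)) e
 (c (a (nat_lit 0xff1b86e2e84)) e
 (c (a (nat_lit 0x613a0402003)) e
 (c (a (nat_lit 0x13a040202003)) e
 (c (a (nat_lit 0x6201c20001)) e
 (c (b (nat_lit 0x26201ffffe1)) e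
 (c z e
 (c (a (nat_lit 0x122d40402001)) e
 (c (a (nat_lit 0xd2040000001)) e e)))))))))))))))))))))
 (c (a (nat_lit 0x20202021))
 (c (a (nat_lit 0x2020202021))
 (c (a (nat_lit 0xeae8e4e56b583))
 (c z e
 (c (a (nat_lit 0xae5fb9bcdcfb705)) e
 (c z e
 (c (a (nat_lit 0x18b448ee28dd2b05)) e
 (c (a (nat_lit 0x142828a645600006)) e
 (c (a (nat_lit 0x1690656000000005)) e e))))))
 (c z e
 (c z e
 (c (b (nat_lit 0x1ff04ed0f31243)) e
 (c (a (nat_lit 0x60206975d343)) e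
 (c (a (nat_lit 0x6107ce0cd0a5)) e
 (c z e
 (c (a (nat_lit 0x161c16f64ce305)) e
 (c (a (nat_lit 0x1c771b5a402925)) e
 (c (a (nat_lit 0xceeef0a0d3026)) e
 (c (b (nat_lit 0x3436371771fe4)) e
 (c (a (nat_lit 0x13737a6ea00005)) e e))))))))))))
 (c (a (nat_lit 0x4040404041))
 (c z e
 (c (a (nat_lit 0x1976bc1faa03))
 (c (a (nat_lit 0x8c9cbb93545a007)) e
 (c (a (nat_lit 0xaac54cb80000008)) e e))
 (c (a (nat_lit 0xbcb4eb0cbd326))
 (c (a (nat_lit 0x16b9ed4000000006)) e e)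
 (c (a (nat_lit 0x1515da15bfdac5)) e
 (c z e
 (c z e
 (c (a (nat_lit 0xc7b9ad504cf26)) e
 (c (a (nat_lit 0x1211b1abaca947)) e e))))))))
 (c (a (nat_lit 0xa0a0808081))
 (c (a (nat_lit 0x414061211504)) e
 (c (a (nat_lit 0x56505c2555de5))
 (c (a (nat_lit 0x116b200000000005)) e e)
 (c z e
 (c z e
 (c z e
 (c (a (nat_lit 0xc308ce684e6a7)) e e))))))
 (c (a (nat_lit 0x20202035c5))
 (c (a (nat_lit 0x125328f695af44)) e
 (c (a (nat_lit 0x10a611bff44e44)) e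
 (c (a (nat_lit 0x1a672dad56b85)) e
 (c z e
 (c z e
 (c z e
 (c (a (nat_lit 0x8d1ee4ee96006)) e
 (c (a (nat_lit 0xcb48080000004)) e
 (c (a (nat_lit 0x14200000000004)) e e)))))))))
 (c (a (nat_lit 0x202031a586))
 (c (a (nat_lit 0x1666a605784)) e
 (c (a (nat_lit 0x852988c43906)) e
 (c z e
 (c z e
 (c (a (nat_lit 0x10d395eee03207)) e
 (c (a (nat_lit 0xfd24b8c400006)) e
 (c (a (nat_lit 0x16604000000005)) e e)))))))
 (c (a (nat_lit 0x12133254286))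
 (c (a (nat_lit 0x8080c2634d366)) e
 (c z e
 (c z e
 (c (a (nat_lit 0xfb9999c35e007)) e
 (c (a (nat_lit 0x14b0ad40000007)) e
 (c (a (nat_lit 0x17e00000000005)) e e))))))
 (c (a (nat_lit 0x9f954787e4)) e
 (c (a (nat_lit 0x11aec6246465))
 (c (a (nat_lit 0xa2bbf2fe62006)) e e)
 (c (a (nat_lit 0x176620402943)) e
 (c (a (nat_lit 0xe0363b52fc2)) e
 (c (b (nat_lit 0x18d8ed6abfe3)) e
 (c (a (nat_lit 0x1ad7b751d1e5)) e
 (c (a (nat_lit 0x176100602063)) e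
 (c (a (nat_lit 0x100604071e3)) e
 (c (a (nat_lit 0x2051f243)) e
 (c (a (nat_lit 0x3111d083)) e
 (c z e
 (c (a (nat_lit 0x121e1018081)) e
 (c (a (nat_lit 0x1a0e0e00001)) e
 (c (a (nat_lit 0x2000000001)) e e))))))))))))))))))))
 (c (a (nat_lit 0x20202021))
 (c (a (nat_lit 0x20000001))
 (c (a (nat_lit 0x7606547e801)) e
 (c (a (nat_lit 0xe020e1c21ac4))
 (c z e
 (c (a (nat_lit 0xdfe702000000005)) e e))
 (c (a (nat_lit 0x6142479309c4)) e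
 (c (a (nat_lit 0x8890bb2271105)) e
 (c z e
 (c (a (nat_lit 0xa510ccd28a846)) e
 (c (a (nat_lit 0x1fd798e1e22025)) e
 (c (a (nat_lit 0x11310b11314f86)) e e))))))))
 (c (a (nat_lit 0x2016a5))
 (c (a (nat_lit 0x1a040606b9922))
 (c z e
 (c (a (nat_lit 0x1930200000000005)) e e))
 (c (a (nat_lit 0x17991986461c44)) e
 (c (a (nat_lit 0xaeb2cc81968e5)) e
 (c z e
 (c (a (nat_lit 0x12cd746d28a0a6)) e
 (c (a (nat_lit 0xfd36a23e8e886)) e e))))))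
 (c (a (nat_lit 0x20203587e5))
 (c (a (nat_lit 0xaaaa044f98fe4)) e
 (c z e
 (c z e
 (c z e
 (c (a (nat_lit 0x18529813450e26)) e e)))))
 (c (a (nat_lit 0x1415a05e266)) e
 (c (a (nat_lit 0x137e4448306))
 (c (a (nat_lit 0xc2d8b4d71ac87)) e
 (c z e
 (c z e
 (c z e
 (c (a (nat_lit 0x17cd4000000007)) e e)))))
 (c (a (nat_lit 0x1d4f0be88885))
 (c (b (nat_lit 0x766077ff90646)) e
 (c (a (nat_lit 0x5ad891a884007)) e e))
 (c (a (nat_lit 0x17d060403563))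
 (c (a (nat_lit 0x1a4f928b000005)) e e)
 (c (a (nat_lit 0x148d2d37f7e4)) e
 (c (a (nat_lit 0x15555d5d5ce6)) e
 (c z e
 (c (a (nat_lit 0x13e7e0602024)) e
 (c (a (nat_lit 0xfc060605583)) e
 (c (a (nat_lit 0x404054d3e3)) e
 (c (a (nat_lit 0x4772512dc2)) e
 (c z e
 (c (a (nat_lit 0x6a3a1616141)) e
 (c (a (nat_lit 0x3e0a0602001)) e
 (c (a (nat_lit 0x8040000001)) e e))))))))))))))))))
 C443)))) Tr.c Tr.e (nat_lit 0) C.cx C.cy
noncomputable def C445 : Tr := beta% (fun (c : Nat → Tr → Tr → Tr) (e : Tr) (z : Nat) (a b : Nat → Nat) =>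
 (c (a (nat_lit 0x2020202021))
 (c (a (nat_lit 0xa0b57eb8b2801))
 (c z e
 (c (a (nat_lit 0x14f23038fbaf2004)) e
 (c z e
 (c z e
 (c (a (nat_lit 0x1739930b27d47664)) e
 (c (a (nat_lit 0x8a6ea43042911a5)) e
 (c (a (nat_lit 0xa06c50707f54e25)) e e)))))))
 (c (a (nat_lit 0x40783c3617302))
 (c z e
 (c z e
 (c z e
 (c (a (nat_lit 0xda92060462833c6)) e
 (c (a (nat_lit 0x4e6e2e067a4f346)) e
 (c z e
 (c z e
 (c z e
 (c (b (nat_lit 0x3ff7a460000006)) e e)))))))))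
 (c (a (nat_lit 0x11737d8aeb0023))
 (c z e
 (c z e
 (c (a (nat_lit 0x12a4246b2c52a146)) e e)))
 (c z e
 (c (a (nat_lit 0x1b75b1f3921203)) e
 (c (a (nat_lit 0x8c243e2420481))
 (c (a (nat_lit 0x4f8d3ebe7032326)) e
 (c (a (nat_lit 0x16b0308ac4a3e007)) e e))
 (c (a (nat_lit 0xa0cebab8e3302))
 (c (a (nat_lit 0x10ac698522a00007)) e
 (c (a (nat_lit 0xeba66e000000006)) e e))
 (c (a (nat_lit 0xc6c0c094359e3)) e
 (c z e
 (c (b (nat_lit 0x1ffff013319065)) e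
 (c z e
 (c (a (nat_lit 0x14bab97b59d445)) e
 (c (a (nat_lit 0xbc8ccb0300b04)) e
 (c (a (nat_lit 0x6ca4dcdc91224)) e
 (c (b (nat_lit 0x74e4e44d6dfe3)) e
 (c (a (nat_lit 0x18f8f44ea00004)) e e))))))))))))))))
 (c (a (nat_lit 0x2020202021))
 (c (a (nat_lit 0x2c2f7632b2064))
 (c z e
 (c z e
 (c (a (nat_lit 0x1788ac62224811e6)) e
 (c (a (nat_lit 0x1849a22d6e00d2a5)) e
 (c (a (nat_lit 0xfa9418c215fac05)) e
 (c (b (nat_lit 0x128aab7ff5268505)) e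
 (c z e
 (c (a (nat_lit 0x140b8d9442400006)) e
 (c (a (nat_lit 0x3863e000000006)) e e)))))))))
 (c z e
 (c (a (nat_lit 0x15ab0ec9e02005)) e
 (c (a (nat_lit 0x17fd0b69a98be3))
 (c z e
 (c (a (nat_lit 0x4b2f2c7a5452408)) e e))
 (c (a (nat_lit 0x15c2818162a3c3))
 (c (a (nat_lit 0x161267a5c2848167)) e e)
 (c (a (nat_lit 0xb4b0c6cacb404)) e
 (c z e
 (c (a (nat_lit 0x6108b79a1a05)) e
 (c (a (nat_lit 0x168975856d566)) e
 (c z e
 (c (a (nat_lit 0x1d9f1f1bd9a5a6)) e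
 (c (a (nat_lit 0x11ed9257c7e524)) e
 (c (a (nat_lit 0x92db322c06384)) e
 (c (a (nat_lit 0x173c8e2a86e004)) e e))))))))))))))
 (c (a (nat_lit 0x4040404041))
 (c (a (nat_lit 0x1870b065c56584))
 (c (a (nat_lit 0x8c2e602c2f0e266)) e
 (c z e
 (c z e
 (c z e
 (c z e
 (c (a (nat_lit 0x18d54ef2aa800006)) e e))))))
 (c (a (nat_lit 0x1ea86120605264)) e
 (c (a (nat_lit 0x102208094b903)) e
 (c z e
 (c z e
 (c (a (nat_lit 0x840c0a751f65)) e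
 (c z e
 (c z e
 (c z e
 (c (a (nat_lit 0x1a7e5f54f223e6)) e
 (c (b (nat_lit 0x12f4e718e85fe5)) e
 (c (a (nat_lit 0x1b2c9e4e85ab45)) e e))))))))))))
 (c (a (nat_lit 0x2020202021))
 (c (a (nat_lit 0x10014080747103)) e
 (c z e
 (c z e
 (c z e
 (c (b (nat_lit 0x204edbfef75a6)) e
 (c z e
 (c z e
 (c z e
 (c z e
 (c z e
 (c (a (nat_lit 0x1ca02060402005)) e
 (c (a (nat_lit 0x8340c0000001)) e
 (c (a (nat_lit 0x2800000000001)) e e)))))))))))))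
 (c (a (nat_lit 0x8080808081))
 (c z e
 (c (a (nat_lit 0x1052d46b11f385))
 (c (a (nat_lit 0x18cc940640000006)) e e)
 (c z e
 (c (a (nat_lit 0xb076c8d651605)) e
 (c z e
 (c (a (nat_lit 0xcee5737d3ee26)) e
 (c z e
 (c z e
 (c (a (nat_lit 0xf4d1aebb6eb24)) e
 (c (a (nat_lit 0xd1acb6b800004)) e
 (c (a (nat_lit 0x1f002000000003)) e e)))))))))))
 (c (a (nat_lit 0x2020202021))
 (c (a (nat_lit 0xccf416c1466e3)) e
 (c (a (nat_lit 0xe40d4d889cae4)) e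
 (c (b (nat_lit 0xc3ff2c063e9e5)) e
 (c (a (nat_lit 0x203a224273066)) e
 (c (a (nat_lit 0xbaa0bf0dce906)) e
 (c z e
 (c (a (nat_lit 0xb2c310e6727e7)) e
 (c (a (nat_lit 0x9decca7e78005)) e
 (c (a (nat_lit 0x1764e040000005)) e
 (c (a (nat_lit 0x12e00000000003)) e e))))))))))
 (c (a (nat_lit 0x2020202021))
 (c (a (nat_lit 0x5b453c8c8af24)) e
 (c (a (nat_lit 0x3e802a7609e24)) e
 (c (a (nat_lit 0x9666687d5efe5)) e
 (c z e
 (c z e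
 (c (a (nat_lit 0x153a7a328a16a6)) e
 (c (a (nat_lit 0x15c5c1c0400004)) e
 (c (a (nat_lit 0x1d062000000002)) e e))))))))
 (c (a (nat_lit 0x4060806181))
 (c (a (nat_lit 0x887a9c36c73c5)) e
 (c z e
 (c z e
 (c z e
 (c (a (nat_lit 0xe10b394748007)) e
 (c (a (nat_lit 0x1186cda0000005)) e e))))))
 (c (a (nat_lit 0x1212122b8a3))
 (c z e
 (c (a (nat_lit 0x25268e547e26)) e e))
 (c (a (nat_lit 0x34346bda3c3))
 (c (a (nat_lit 0xa808f274fb7c5)) e e)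
 (c (a (nat_lit 0x10ccb2cfcae5)) e
 (c (a (nat_lit 0xc58d48b0ae4)) e
 (c (a (nat_lit 0x182c80202003)) e
 (c (a (nat_lit 0x19e06020e2c2)) e
 (c (a (nat_lit 0x302242826e1)) e
 (c (a (nat_lit 0x163676f6d704)) e
 (c (b (nat_lit 0x1fffe0c02001)) e
 (c (b (nat_lit 0x1fe0e0806141)) e
 (c (a (nat_lit 0x60a23361)) e
 (c (a (nat_lit 0x1353749d3442)) e
 (c z e
 (c (b (nat_lit 0x1ff0c0600001)) e
 (c (a (nat_lit 0x110000000001)) e e)))))))))))))))))))))))) Tr.c Tr.e (nat_lit 0) C.cx C.cy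
noncomputable def C446 : Tr := beta% (fun (c : Nat → Tr → Tr → Tr) (e : Tr) (z : Nat) (a b : Nat → Nat) =>
 (c (a (nat_lit 0x2020202021))
 (c (a (nat_lit 0x101011474d5a3))
 (c (a (nat_lit 0x1a5a5a5a5a7dbc65)) e
 (c z e
 (c z e
 (c (a (nat_lit 0x2470f2c52aa4865)) e
 (c (a (nat_lit 0x1b2220d6c1357a3)) e
 (c z e
 (c z e
 (c (a (nat_lit 0xb68a9a844c951e5)) e
 (c (a (nat_lit 0x56462e10b710065)) e
 (c (a (nat_lit 0x621c0c58ce4d065)) e e))))))))))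
 (c (a (nat_lit 0x282bf56b8f0c4)) e
 (c (a (nat_lit 0x2d228c965e5e5))
 (c z e
 (c z e
 (c z e
 (c (b (nat_lit 0xb675ffff20d3806)) e
 (c z e
 (c (a (nat_lit 0xbea8d0fb277e826)) e e))))))
 (c (a (nat_lit 0x17af2f2b8b8204))
 (c z e
 (c (a (nat_lit 0xc4e49e9e894d487)) e
 (c (a (nat_lit 0xb85ce8f0ef68a66)) e
 (c z e
 (c z e
 (c z e
 (c z e
 (c (a (nat_lit 0x8ea90ea65000007)) e e))))))))
 (c (a (nat_lit 0xdd04f2f28c364))
 (c (a (nat_lit 0x822e5262cd7b046)) e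
 (c (a (nat_lit 0x85f4b99d138b66)) e
 (c z e
 (c z e
 (c z e
 (c (a (nat_lit 0x1a5b3630f4102006)) e
 (c (a (nat_lit 0x1a6ce906c0000006)) e e)))))))
 (c (a (nat_lit 0x1c769690a6e123))
 (c z e
 (c z e
 (c z e
 (c (a (nat_lit 0xf0b772d11b82dc6)) e
 (c (a (nat_lit 0x1155898d0ae00006)) e
 (c (a (nat_lit 0x1195690000000006)) e e))))))
 (c z e
 (c (b (nat_lit 0x1fc4ffe3e02063))
 (c (a (nat_lit 0x9cdf94487290206)) e
 (c (a (nat_lit 0xa0408d388000007)) e e))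
 (c (a (nat_lit 0x267c9c6e70001))
 (c (a (nat_lit 0x22db70800000006)) e e)
 (c (a (nat_lit 0xfd0f031666762)) e
 (c (a (nat_lit 0x9a9a9d1d0f865)) e
 (c z e
 (c z e
 (c (a (nat_lit 0x225118a700a84)) e
 (c (a (nat_lit 0xcf99297f275e4)) e
 (c (a (nat_lit 0x10292ea94cad24)) e
 (c (a (nat_lit 0x4bb4430f3e002)) e
 (c (a (nat_lit 0x176cb30a400003)) e e))))))))))))))))))
 (c (a (nat_lit 0x2020202021))
 (c (a (nat_lit 0x56eaf328eae84))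
 (c (a (nat_lit 0xa70dab3abaed385)) e
 (c (b (nat_lit 0x99dfffeaf295e5))
 (c (a (nat_lit 0x113152844c2591cd07)) e e)
 (c z e
 (c z e
 (c z e
 (c (a (nat_lit 0x6a70829c8675547)) e
 (c (a (nat_lit 0x5a90547a650c6c7)) e e)))))))
 (c (a (nat_lit 0x6cc7c4a89e022))
 (c (a (nat_lit 0x445a98604c11026))
 (c (a (nat_lit 0x11cc4309e3eb274fc6)) e e)
 (c z e
 (c z e
 (c z e
 (c (a (nat_lit 0x3c6e92926fb9aa7)) e e)))))
 (c (b (nat_lit 0x1b3b3d7d5fffe4)) e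
 (c z e
 (c z e
 (c (a (nat_lit 0x1ba462c2a26284)) e
 (c (a (nat_lit 0x13208461a228e2))
 (c (a (nat_lit 0xe9843c528a20008)) e
 (c (a (nat_lit 0x15c6d3ec80000008)) e e))
 (c (a (nat_lit 0x808b5553249c4))
 (c (a (nat_lit 0x61229a000000007)) e e)
 (c z e
 (c z e
 (c z e
 (c z e
 (c (a (nat_lit 0xe2f362f4e5366)) e
 (c (a (nat_lit 0x1efc2202a96c5)) e
 (c (a (nat_lit 0x1305634dfa3b65)) e
 (c (a (nat_lit 0x4826d18ed2005)) e e))))))))))))))))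
 (c (a (nat_lit 0x2021))
 (c (a (nat_lit 0x22c04041b1e3))
 (c (a (nat_lit 0x34ce09672a42c5)) e
 (c z e
 (c z e
 (c z e
 (c (a (nat_lit 0x20d4a2852488d06)) e e)))))
 (c z e
 (c z e
 (c (a (nat_lit 0x1ad7da52f17184)) e
 (c (a (nat_lit 0x1216cd2cac8d04))
 (c (a (nat_lit 0x133b53adf1189387)) e e)
 (c (a (nat_lit 0xf05e54546d064))
 (c (a (nat_lit 0x17082c58ec600007)) e e)
 (c z e
 (c z e
 (c z e
 (c z e
 (c z e
 (c (a (nat_lit 0x1bd0bd380e8d65)) e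
 (c (a (nat_lit 0x69f9562602024)) e e)))))))))))))
 (c (a (nat_lit 0x2020202021))
 (c z e
 (c (a (nat_lit 0x1370504aa12125))
 (c z e
 (c (a (nat_lit 0x106663e864ee0a47)) e e))
 (c (a (nat_lit 0x106101e1010aa4))
 (c (a (nat_lit 0xe6944836c34d686)) e e)
 (c (a (nat_lit 0x1e100407312c3))
 (c (b (nat_lit 0x8b14affe787e826)) e e)
 (c z e
 (c z e
 (c z e
 (c (a (nat_lit 0x24288f18b2c6)) e
 (c z e
 (c z e
 (c z e
 (c z e
 (c (a (nat_lit 0x11c72760402005)) e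
 (c (a (nat_lit 0x1d3d6040000003)) e
 (c (a (nat_lit 0x1d400000000003)) e e)))))))))))))))
 (c (a (nat_lit 0x8080808081))
 (c (a (nat_lit 0x1347e0802029e4))
 (c z e
 (c (a (nat_lit 0x1074704b93304666)) e e))
 (c (a (nat_lit 0x1021e0607840e3))
 (c (a (nat_lit 0xecc6bb22b46a526)) e e)
 (c z e
 (c z e
 (c z e
 (c (a (nat_lit 0xf2ecfcdaa7426)) e
 (c (a (nat_lit 0x6c745cd948ce6)) e
 (c z e
 (c z e
 (c z e
 (c (a (nat_lit 0xb266ecf54c726)) e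
 (c (a (nat_lit 0xcf5760dc00006)) e
 (c (a (nat_lit 0x1f90a000000005)) e e)))))))))))))
 (c (a (nat_lit 0x6060606061))
 (c (a (nat_lit 0xa298a12caada3))
 (c (a (nat_lit 0x1605ffacaea70684)) e e)
 (c z e
 (c z e
 (c (a (nat_lit 0x1974786ce140a4)) e
 (c (a (nat_lit 0x167ab002205164)) e
 (c (a (nat_lit 0xf6c6cf2f4d4e6)) e
 (c z e
 (c z e
 (c (a (nat_lit 0x64c1536ced5a5)) e
 (c (a (nat_lit 0x64f10a8c7e005)) e
 (c (a (nat_lit 0x101341e0000004)) e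
 (c (a (nat_lit 0x11e00000000004)) e e))))))))))))
 (c (a (nat_lit 0x6060606061))
 (c z e
 (c (a (nat_lit 0xa6bd4b234384)) e
 (c (a (nat_lit 0xcd2ed65822005)) e
 (c z e
 (c z e
 (c z e
 (c z e
 (c (a (nat_lit 0xb15118ff5cfc5)) e
 (c (a (nat_lit 0x166f6c4c200004)) e e)))))))))
 (c (a (nat_lit 0x4040202021))
 (c (a (nat_lit 0x1f7c660a12403)) e
 (c (a (nat_lit 0x1d52b389a3cb64)) e
 (c z e
 (c z e
 (c z e
 (c z e
 (c (a (nat_lit 0xfa76d900b0005)) e e)))))))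
 (c (a (nat_lit 0x6080808061))
 (c (a (nat_lit 0x14f717f090c844)) e
 (c z e
 (c (b (nat_lit 0x1fffe5c1d56e85)) e e)))
 (c (a (nat_lit 0x60606061a1))
 (c (a (nat_lit 0xfcd88a02e1ea4)) e
 (c (a (nat_lit 0x41a123e5b027)) e e))
 (c (a (nat_lit 0x2020229983))
 (c (a (nat_lit 0x524e48a161006)) e e)
 (c (a (nat_lit 0x14f4e35c2d23)) e
 (c (a (nat_lit 0x172c58f32ba4)) e
 (c (a (nat_lit 0x551cc060604)) e
 (c (a (nat_lit 0x180c80806303)) e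
 (c (a (nat_lit 0x18608045c862)) e
 (c (a (nat_lit 0x403aef411a1)) e
 (c (a (nat_lit 0x13d697d777c3)) e
 (c (a (nat_lit 0x11b6b6175801)) e
 (c (a (nat_lit 0xe0812101)) e
 (c (a (nat_lit 0x20c1a17441)) e
 (c (a (nat_lit 0xa1a1b36ce1)) e e))))))))))))))))))))))) Tr.c Tr.e (nat_lit 0) C.cx C.cy

end Pool.Agent.Work.MP_82fd4a_nt.P.H
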