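import Pool.Agent.Work.MP_82fd4a_nt.P.Dx

set_option autoImplicit false
set_option linter.all false
set_option maxRecDepth 100000

namespace Pool.Agent.Work.MP_82fd4a_nt.P.H
open Y Y.Tr

noncomputable def C447 : Tr := beta% (fun (c : Nat → Tr → Tr → Tr) (e : Tr) (z : Nat) (a b : Nat → Nat) =>
 (c (a (nat_lit 0xc0c0c0c0c1))
 (c (a (nat_lit 0x1bc30240c04001))
 (c z e
 (c (a (nat_lit 0xd5046bcaf69c86)) e
 (c z e
 (c (a (nat_lit 0x27e98760293966)) e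
 (c z e
 (c z e
 (c (a (nat_lit 0xc316fb2b6502d07)) e e)))))))
 (c (a (nat_lit 0xd4f92928aa824))
 (c (a (nat_lit 0xe096caf11550e87)) e
 (c z e
 (c z e
 (c z e
 (c (a (nat_lit 0x110cca6c0d58e9a8)) e
 (c (a (nat_lit 0x9ea0e33966a0728)) e e))))))
 (c (a (nat_lit 0x10b1b1d0f067c5))
 (c z e
 (c z e
 (c z e
 (c z e
 (c (a (nat_lit 0xfb9b69e7f29b207)) e e)))))
 (c z e
 (c (a (nat_lit 0x138c5046252544))
 (c (a (nat_lit 0x2467872ec4603e7)) e e)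
 (c (a (nat_lit 0x13958240a0c703))
 (c (a (nat_lit 0xaf484a80ba3e008)) e
 (c (a (nat_lit 0x1d30dffb20000007)) e e))
 (c (a (nat_lit 0x124847d6d5fd24))
 (c (a (nat_lit 0x199675c000000006)) e e)
 (c (a (nat_lit 0x9c9ecec2ed2c6)) e
 (c z e
 (c z e
 (c (b (nat_lit 0x1fe30e50b10986)) e
 (c (a (nat_lit 0x72eb0d1a52565)) e
 (c z e
 (c z e
 (c (a (nat_lit 0x1e26e6e0604004)) e
 (c (a (nat_lit 0x1c3c00c0000002)) e
 (c (a (nat_lit 0x1b400000000002)) e e)))))))))))))))))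
 (c (a (nat_lit 0x20200001))
 (c (a (nat_lit 0xa4c112867c265))
 (c z e
 (c z e
 (c z e
 (c (a (nat_lit 0x1610818670147466)) e
 (c (a (nat_lit 0x9e4806d18922046)) e
 (c (a (nat_lit 0x9ad6e75540ae627)) e e))))))
 (c z e
 (c (a (nat_lit 0x110ae823022225))
 (c (a (nat_lit 0xf4ec94108f74c06)) e e)
 (c (a (nat_lit 0x1fe4020100ec03))
 (c z e
 (c z e
 (c (a (nat_lit 0x19fc5730a0000007)) e e)))
 (c (a (nat_lit 0x120e0432b3ae4))
 (c (a (nat_lit 0x12a725a7e3800008)) e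
 (c (a (nat_lit 0x18f98fa000000007)) e e))
 (c (a (nat_lit 0x8e8ec6fd0e7c6))
 (c (a (nat_lit 0x154cc00000000006)) e e)
 (c z e
 (c (a (nat_lit 0xeb83dc9a38e85)) e
 (c (a (nat_lit 0x90be10a111146)) e
 (c (a (nat_lit 0x72348eaae11c7)) e
 (c (a (nat_lit 0xa3456f3b3786)) e
 (c z e
 (c (a (nat_lit 0x8b2785adf6a46)) e
 (c (a (nat_lit 0xeb1b2eaa00007)) e
 (c (a (nat_lit 0x1e908000000006)) e e)))))))))))))))
 (c (a (nat_lit 0x2020202021))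
 (c (a (nat_lit 0x15547433806044))
 (c (a (nat_lit 0xd7b3390c896b125)) e
 (c (a (nat_lit 0x17700ece16147666)) e
 (c (b (nat_lit 0xfeb9ffad8b5d246)) e e)))
 (c (a (nat_lit 0x19a8c1204049e4))
 (c (a (nat_lit 0x867d12d93d007a6)) e
 (c (a (nat_lit 0xe2d161bb7cb6ce7)) e e))
 (c (b (nat_lit 0x96140eb931fe4))
 (c (a (nat_lit 0x6f012902d69a787)) e e)
 (c z e
 (c z e
 (c (a (nat_lit 0x14f60826a180a5)) e
 (c (a (nat_lit 0x1385e8a904d445)) e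
 (c (a (nat_lit 0x485a60b4e9107)) e
 (c z e
 (c z e
 (c (a (nat_lit 0xadb30a2c5a06)) e
 (c (a (nat_lit 0x1a1f769973a006)) e
 (c (a (nat_lit 0x11a8c5e0000006)) e
 (c (a (nat_lit 0x16c00000000003)) e e))))))))))))))
 (c (a (nat_lit 0x14141414141))
 (c (a (nat_lit 0x506028e50e141))
 (c z e
 (c (a (nat_lit 0x78395c9098500c6)) e e))
 (c (a (nat_lit 0x7e51d9feb62c1))
 (c (a (nat_lit 0x5f5694482c12006)) e e)
 (c z e
 (c (a (nat_lit 0x1496d50ec080c4)) e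
 (c (a (nat_lit 0x1492ae81c22144)) e
 (c (a (nat_lit 0x19dadab72dd6e5)) e
 (c z e
 (c z e
 (c z e
 (c (a (nat_lit 0x7efb16fcba905)) e
 (c (a (nat_lit 0x1275d265200004)) e
 (c (a (nat_lit 0x1dcd2000000004)) e e))))))))))))
 (c (a (nat_lit 0x2001))
 (c (a (nat_lit 0xe0f6d2e926704))
 (c (a (nat_lit 0x130e0d6a04200005)) e e)
 (c (a (nat_lit 0x11af8dee21e044)) e
 (c (a (nat_lit 0x12b40da18080e4)) e
 (c (a (nat_lit 0x144e909089b764)) e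
 (c (a (nat_lit 0x149a99ef76bdc5)) e
 (c z e
 (c (b (nat_lit 0x1ffff372f2eb65)) e
 (c (a (nat_lit 0x818d0f26b88a4)) e
 (c (a (nat_lit 0x1bd2152720e003)) e e)))))))))
 (c (a (nat_lit 0x2020202021))
 (c (a (nat_lit 0x110b83a22203a3)) e
 (c (a (nat_lit 0x18d0321229efe3)) e
 (c z e
 (c z e
 (c (b (nat_lit 0x1fffe789341be4)) e
 (c (b (nat_lit 0x1fe1892bed7186)) e
 (c (a (nat_lit 0x72206cfdb2424)) e e)))))))
 (c (a (nat_lit 0x2040404021))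
 (c (a (nat_lit 0x1b1b1bcd4e0904)) e
 (c z e
 (c (a (nat_lit 0x41a0605945)) e
 (c (a (nat_lit 0x1428728769fa6)) e
 (c (a (nat_lit 0x28aaf99113606)) e
 (c (a (nat_lit 0xaccbd4cc8a005)) e e))))))
 (c (a (nat_lit 0x2020404021))
 (c (a (nat_lit 0xf0ed2c1409044)) e
 (c (a (nat_lit 0x1a2c0c02032a7)) e
 (c (a (nat_lit 0x3068709124b67)) e e)))
 (c (a (nat_lit 0x203482))
 (c (a (nat_lit 0x4680889d35e26)) e
 (c z e
 (c z e
 (c (a (nat_lit 0x1097ee80000006)) e e))))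
 (c (a (nat_lit 0x109090806fc2))
 (c z e
 (c (a (nat_lit 0x98bedb0600008)) e
 (c (a (nat_lit 0x166a6000000006)) e e)))
 (c (a (nat_lit 0x11514aef29c4))
 (c (a (nat_lit 0x12154fc0000007)) e
 (c (a (nat_lit 0x17200000000005)) e e))
 (c (a (nat_lit 0x838634002)) e
 (c (a (nat_lit 0xd9ea925c5a2)) e
 (c (a (nat_lit 0x1923a0804122)) e
 (c (a (nat_lit 0x6c0c061c161)) e
 (c (a (nat_lit 0x40e0e001)) e
 (c (a (nat_lit 0x14b5351453c3)) e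
 (c (a (nat_lit 0x6862161c181)) e
 (c (a (nat_lit 0x3e0c0a0a061)) e
 (c (a (nat_lit 0xc0e0ebe1)) e
 (c (b (nat_lit 0x1e2026cdfe1)) e e)))))))))))))))))))))) Tr.c Tr.e (nat_lit 0) C.cx C.cy
noncomputable def C448 : Tr := beta% (fun (c : Nat → Tr → Tr → Tr) (e : Tr) (z : Nat) (a b : Nat → Nat) =>
 (c (nat_lit 1)
 (c z
 (c z e
 (c (a (nat_lit 0x1b6989ea29c9f124))
 (c z e
 (c z e
 (c z e
 (c (a (nat_lit 0x11323695c4e9ec6467)) e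
 (c (a (nat_lit 0xa33f2ad0bab0cc9e7)) e e)))))
 (c (a (nat_lit 0x464a4a485e9b0e4))
 (c z e
 (c z e
 (c (a (nat_lit 0x1a165e0f080fea0a67)) e
 (c (a (nat_lit 0x1117a96428a966e747)) e
 (c z e
 (c (a (nat_lit 0x2918643c56385a0a7)) e e))))))
 (c (a (nat_lit 0x381e1c1e7311304)) e
 (c (a (nat_lit 0x6a686b01b84e464)) e
 (c z e
 (c (a (nat_lit 0x3e6cc054a4a9464)) e
 (c (a (nat_lit 0x27a06667112b24)) e
 (c z e
 (c (a (nat_lit 0x6f700ae1273284)) e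
 (c (a (nat_lit 0x15f5d4accc365324)) e
 (c (a (nat_lit 0xe2d464fb805fd44)) e
 (c (a (nat_lit 0x100c569cd775d365)) e
 (c (a (nat_lit 0x16bd24d082d9e25)) e
 (c (a (nat_lit 0x151fd57047800004)) e e)))))))))))))))
 (c (a (nat_lit 0x202020203444))
 (c (a (nat_lit 0x1c262c2840b3744))
 (c z e
 (c z e
 (c z e
 (c z e
 (c (a (nat_lit 0x17ef6f4b87ec4da427)) e e)))))
 (c (a (nat_lit 0x22242230549b946)) e
 (c z e
 (c z e
 (c (a (nat_lit 0x5b007856141b8a5))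
 (c z e
 (c (a (nat_lit 0x16fd2e701b2da00007)) e e))
 (c (a (nat_lit 0x25a640e3be8364)) e
 (c z e
 (c (b (nat_lit 0x3bfbfff665c8183)) e
 (c z e
 (c (a (nat_lit 0xf6daae7e4339986)) e
 (c (a (nat_lit 0xcaa534f797dfd66)) e e)))))))))))
 (c (a (nat_lit 0x202020348cc4))
 (c (a (nat_lit 0x78787882cd129e5))
 (c z e
 (c z e
 (c z e
 (c z e
 (c (a (nat_lit 0x106f084504c784e5e7)) e e)))))
 (c z e
 (c z e
 (c z e
 (c z e
 (c z e
 (c z e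
 (c (a (nat_lit 0x78601e224302ee6)) e e))))))))
 (c (a (nat_lit 0x4c4c4d62d2d45))
 (c (a (nat_lit 0x140e9d213150f05))
 (c z e
 (c (a (nat_lit 0x153c306eb350720f88)) e
 (c (a (nat_lit 0xd75812baa01610247)) e e)))
 (c (a (nat_lit 0x52dc72bb0ad17a6))
 (c (a (nat_lit 0x1ed2ceacf0d1108928)) e e)
 (c z e
 (c z e
 (c (a (nat_lit 0x9ca4aaf0b3065c5)) e
 (c (a (nat_lit 0xc2a4a6db28d0c26)) e
 (c (a (nat_lit 0xc0b8fb0978b2766)) e
 (c (a (nat_lit 0xbaeeef154e93346)) e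
 (c z e
 (c z e
 (c (a (nat_lit 0x7a749f200000007)) e
 (c (a (nat_lit 0x12c5200000000005)) e e))))))))))))
 (c (a (nat_lit 0x2a2b8a56507a5))
 (c (a (nat_lit 0xb418524ee7574e6)) e
 (c z e
 (c z e
 (c (a (nat_lit 0x48b2d8fb431f007)) e
 (c (a (nat_lit 0x8a9b27692728807)) e
 (c (a (nat_lit 0x5af33cfd0a8c5a7)) e
 (c z e
 (c z e
 (c (a (nat_lit 0x1679f1150de00007)) e
 (c (a (nat_lit 0xf6b716000000007)) e
 (c (a (nat_lit 0x1040000000000005)) e e)))))))))))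
 (c (a (nat_lit 0x1314405866665))
 (c (a (nat_lit 0x140ccd0064ad846)) e
 (c (a (nat_lit 0xb9d2cc8e1a3726)) e
 (c (a (nat_lit 0xc330c503ad48746)) e
 (c (a (nat_lit 0x88708908e62c707)) e
 (c z e
 (c (a (nat_lit 0xafd1ce403367766)) e
 (c (a (nat_lit 0x108fcccc30c76007)) e e)))))))
 (c (a (nat_lit 0x10256404040124))
 (c (a (nat_lit 0x3ac8f888170e584)) e
 (c (a (nat_lit 0xeb9124431aca0e4)) e
 (c z e
 (c z e
 (c (a (nat_lit 0xa32484d3597eac6)) e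
 (c (a (nat_lit 0x155b37bb4f200006)) e e))))))
 (c (a (nat_lit 0x1a339c7bd123c1))
 (c (a (nat_lit 0x7e74422e5f10c85)) e
 (c (a (nat_lit 0x44608a1d3092da6)) e
 (c (a (nat_lit 0xca6a912d3718806)) e e)))
 (c (a (nat_lit 0x11745891ac0063))
 (c (a (nat_lit 0x2a440a79162a1c7)) e
 (c (a (nat_lit 0xa836b758aea0606)) e e))
 (c (a (nat_lit 0x153572b323e002))
 (c (a (nat_lit 0xb0ad42ec4c52006)) e e)
 (c (a (nat_lit 0x13cacb26a5c5c3)) e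
 (c (a (nat_lit 0x141454d4544783)) e
 (c (a (nat_lit 0x1090707156ede4)) e
 (c (a (nat_lit 0x9092df10d2a65)) e
 (c (a (nat_lit 0x1a1ea79af5b43)) e
 (c (a (nat_lit 0x69d90eba7b03)) e
 (c (a (nat_lit 0x41449f5d67463)) e
 (c (a (nat_lit 0xee9cfd02eec64)) e
 (c (a (nat_lit 0x123e3edcd7cca3)) e
 (c (a (nat_lit 0x1c9d3b4b200003)) e e))))))))))))))))))))
 (c (a (nat_lit 0x202001))
 (c (a (nat_lit 0x4c4c4c4f632c4))
 (c (a (nat_lit 0x20404082093884))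
 (c z e
 (c z e
 (c (a (nat_lit 0x117bc48866c6476ba6)) e
 (c (a (nat_lit 0x1e9992557515d8d3c7)) e e))))
 (c z e
 (c z e
 (c (a (nat_lit 0x2656fd8cd880b86))
 (c z e
 (c z e
 (c (a (nat_lit 0xe9593b00b6bc00008)) e e)))
 (c (a (nat_lit 0x4e6ec85c69291c5)) e
 (c (a (nat_lit 0x873893b940f50e5)) e
 (c (a (nat_lit 0x19477bb5fb76c7e4)) e
 (c (a (nat_lit 0x7340e8e4e8232a5)) e
 (c (a (nat_lit 0xf6ca96841962406)) e
 (c (a (nat_lit 0xd2c2ae3d1a78986)) e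
 (c (a (nat_lit 0x9af09b40cd2b6e6)) e e)))))))))))
 (c (a (nat_lit 0x20203d9557a5))
 (c z e
 (c z e
 (c z e
 (c z e
 (c z e
 (c (a (nat_lit 0x180bb359fab99ae6)) e e))))))
 (c (a (nat_lit 0x2c2d4ec2c2846))
 (c z e
 (c z e
 (c z e
 (c z e
 (c (a (nat_lit 0x122aba36dad87866)) e
 (c (a (nat_lit 0x2f012f6f6d6c8a6)) e e))))))
 (c (a (nat_lit 0x2d5498a878786))
 (c z e
 (c z e
 (c (a (nat_lit 0xb4e6e6ed0d453a8)) e
 (c z e
 (c z e
 (c z e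
 (c z e
 (c (a (nat_lit 0xbc928530901a008)) e e))))))))
 (c (a (nat_lit 0x14a9ab07c7c2a6))
 (c (a (nat_lit 0x22d4d494a97efa7)) e
 (c (a (nat_lit 0x149050125cf81927)) e
 (c z e
 (c z e
 (c z e
 (c (a (nat_lit 0x110d2ecbaf8da948)) e
 (c (a (nat_lit 0xffeb6b9ad400007)) e e)))))))
 (c (a (nat_lit 0x13f22f8f81a4a4))
 (c (a (nat_lit 0x10349a4d3e362c25)) e
 (c z e
 (c z e
 (c (a (nat_lit 0xa0c6c8bcf75ce27)) e
 (c (a (nat_lit 0xd0c536c398bc007)) e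
 (c (a (nat_lit 0x1ab91a8d80000007)) e e))))))
 (c z e
 (c z e
 (c (a (nat_lit 0x1f10f2f1702fe3)) e
 (c (a (nat_lit 0x438601b250a1)) e
 (c (a (nat_lit 0x1333331d3398e5)) e
 (c (a (nat_lit 0x129292bb57b9c6)) e
 (c z e
 (c z e
 (c (a (nat_lit 0x42e71ceafc825)) e
 (c (a (nat_lit 0x187f391b6c1064)) e
 (c (a (nat_lit 0x12eca56043e304)) e
 (c (a (nat_lit 0x1b944a4ea70004)) e e))))))))))))))))))
 (c (a (nat_lit 0x4040404041))
 (c (a (nat_lit 0x56571ee316e64))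
 (c z e
 (c z e
 (c z e
 (c z e
 (c z e
 (c z e
 (c (a (nat_lit 0x1c2d2f89cd76d866)) e e)))))))
 (c (a (nat_lit 0x5943172509085)) e
 (c (a (nat_lit 0x18cc0ecf0ee5a5))
 (c (a (nat_lit 0x854e0dd52c9f26)) e e)
 (c (a (nat_lit 0x12fddf7f266883)) e
 (c (a (nat_lit 0x12afefca0de004))
 (c (a (nat_lit 0x20021c7263133a7)) e e)
 (c z e
 (c (a (nat_lit 0x14260484802004))
 (c (a (nat_lit 0x38e51e924452228)) e
 (c (a (nat_lit 0x134ceaac46c00008)) e e))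
 (c (a (nat_lit 0x4686ac5646141))
 (c (a (nat_lit 0x12aa0c07c0000007)) e e)
 (c (a (nat_lit 0x7e828d511ce24)) e
 (c (a (nat_lit 0x12741dd24edf25)) e
 (c z e
 (c z e
 (c z e
 (c (a (nat_lit 0x45350ce6aaa45)) e
 (c z e
 (c z e
 (c (a (nat_lit 0x16e8a740600003)) e e)))))))))))))))))
 C447)))) Tr.c Tr.e (nat_lit 0) C.cx C.cy
noncomputable def C449 : Tr := beta% (fun (c : Nat → Tr → Tr → Tr) (e : Tr) (z : Nat) (a b : Nat → Nat) =>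
 (c (a (nat_lit 0x2020202021))
 (c (a (nat_lit 0xd5f18ecdad84))
 (c (a (nat_lit 0x694905904a98b43)) e
 (c z e
 (c z e
 (c (a (nat_lit 0xeac6f9494ad7986)) e
 (c (a (nat_lit 0x38a6a508cb23b66)) e
 (c (a (nat_lit 0x729942bed329e26)) e
 (c z e
 (c (a (nat_lit 0x5c74cb0b3f12c87)) e
 (c (a (nat_lit 0xf52babfdf82e006)) e e)))))))))
 (c (a (nat_lit 0x1f708eaaaa6105))
 (c (b (nat_lit 0x6971fe2829434c6))
 (c (a (nat_lit 0x101123c362c1400007)) e e)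
 (c z e
 (c (a (nat_lit 0x550f1b04a8959c7)) e
 (c (a (nat_lit 0xbab6e490335fa47)) e
 (c (a (nat_lit 0xe916d07537192c7)) e
 (c (a (nat_lit 0xd2dac3298f58ee8)) e
 (c (a (nat_lit 0xa6ab590f80f2547)) e e)))))))
 (c (b (nat_lit 0xdd772923fffe3)) e
 (c (a (nat_lit 0x1b78b8d83280a4))
 (c (a (nat_lit 0x9a743aaadfdab46)) e
 (c (a (nat_lit 0x50405683109ec28)) e
 (c z e
 (c z e
 (c z e
 (c (a (nat_lit 0x1630078000000007)) e e))))))
 (c (a (nat_lit 0x1bfbeeb2c18164))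
 (c (a (nat_lit 0x544a855ae6ecd07)) e
 (c z e
 (c z e
 (c (a (nat_lit 0x18cf306780000008)) e
 (c (a (nat_lit 0x1eaca00000000007)) e e)))))
 (c (a (nat_lit 0x11a64822c0c025))
 (c (a (nat_lit 0x4ab5026e684c248)) e
 (c (a (nat_lit 0x114c494f07600008)) e e))
 (c (a (nat_lit 0x60be148cc9744))
 (c (a (nat_lit 0x12abae4800000007)) e e)
 (c (a (nat_lit 0x1186b0d3db9464)) e
 (c (a (nat_lit 0xf5255308cce86)) e
 (c z e
 (c (a (nat_lit 0x84a48397e38c5)) e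
 (c (a (nat_lit 0x1652769c119304)) e
 (c (a (nat_lit 0x10f519cf713164)) e
 (c (a (nat_lit 0x11f76c8e2e7024)) e
 (c (a (nat_lit 0x1368e8690ac864)) e e)))))))))))))))
 (c (a (nat_lit 0x2020202021))
 (c (a (nat_lit 0x129032b287a124))
 (c (a (nat_lit 0xec321e2a2782985)) e
 (c z e
 (c z e
 (c (a (nat_lit 0x565c943aab650a7)) e
 (c (a (nat_lit 0x8cf6b6c1b9b2e27)) e
 (c (a (nat_lit 0xd8defb89c7a1227)) e e))))))
 (c z e
 (c z e
 (c (a (nat_lit 0x1dd24dc1632024))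
 (c (a (nat_lit 0x669d2ccb28a4f47)) e
 (c z e
 (c (a (nat_lit 0xbcf74ab89c00008)) e e)))
 (c (a (nat_lit 0xca38303015205))
 (c (a (nat_lit 0x970c4cb4722a008)) e
 (c (a (nat_lit 0xe8e566a20000008)) e e))
 (c (a (nat_lit 0x382c6c8555a25))
 (c (a (nat_lit 0x17f249a000000007)) e e)
 (c (a (nat_lit 0x41cb8b61c5805)) e
 (c z e
 (c (a (nat_lit 0x4c47493b21964)) e
 (c (a (nat_lit 0x52908d112c846)) e
 (c (a (nat_lit 0x1cbc1a7d270044)) e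
 (c (a (nat_lit 0x123172a7a48565)) e
 (c (a (nat_lit 0x1c3fc9c3e54424)) e
 (c (a (nat_lit 0x1da78143014004)) e
 (c (a (nat_lit 0x10a42380000003)) e e)))))))))))))))
 (c (nat_lit 1)
 (c z e
 (c (a (nat_lit 0x12d20eee642045))
 (c (a (nat_lit 0x363a5cf96cfec47)) e
 (c (a (nat_lit 0x5c69011f2abaa08)) e e))
 (c (a (nat_lit 0x100c09cc0a8a06))
 (c (a (nat_lit 0xaf633fa7131d187)) e e)
 (c (a (nat_lit 0x1a719ad9514404)) e
 (c (a (nat_lit 0x7d14dad496646))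
 (c (a (nat_lit 0x170ce00000000007)) e e)
 (c z e
 (c (a (nat_lit 0x1112ccec0c8045)) e
 (c (a (nat_lit 0x1771d0f193f4a5)) e
 (c (a (nat_lit 0xaabcc12713127)) e
 (c z e
 (c z e
 (c (a (nat_lit 0xc1e1e3e9ede04)) e e))))))))))))
 (c (nat_lit 1)
 (c (a (nat_lit 0x1428c849004383))
 (c z e
 (c (a (nat_lit 0x8724d36f94dc846)) e e))
 (c (a (nat_lit 0x145114031120c3))
 (c (a (nat_lit 0x116c3632cb47e6c6)) e e)
 (c z e
 (c z e
 (c (a (nat_lit 0xb510e20a02224)) e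
 (c (a (nat_lit 0x12710eeea12965)) e
 (c (a (nat_lit 0x13b756776b2e25)) e
 (c z e
 (c z e
 (c (a (nat_lit 0x1ca27530f6aa4)) e
 (c (a (nat_lit 0xb06fedbc92003)) e e)))))))))))
 (c (a (nat_lit 0x10101010101))
 (c (a (nat_lit 0x1a5c357ed42f63)) e
 (c z e
 (c (a (nat_lit 0x1094af84854284)) e
 (c (a (nat_lit 0x114be8690de964)) e
 (c (a (nat_lit 0xff1f347282545)) e
 (c z e
 (c (b (nat_lit 0x1fe0e1d1b91865)) e
 (c (a (nat_lit 0x8cac5d7946c03)) e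
 (c (a (nat_lit 0x6a211f3abe7e3)) e
 (c (a (nat_lit 0x1d1f68400002)) e e))))))))))
 (c (a (nat_lit 0x4040404041))
 (c (a (nat_lit 0xf770d47a95123)) e
 (c (a (nat_lit 0x108c8829252944)) e
 (c (a (nat_lit 0x1311549410b125)) e
 (c z e
 (c (a (nat_lit 0xe1e141b183)) e
 (c (a (nat_lit 0x8080896b13e6)) e
 (c (a (nat_lit 0xc0a0e9ff5682)) e
 (c (a (nat_lit 0x484c772878003)) e e))))))))
 (c (a (nat_lit 0x2040404001))
 (c (a (nat_lit 0x1553d40c522124)) e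
 (c z e
 (c (a (nat_lit 0xaec576520ca64)) e
 (c (a (nat_lit 0x1a2a3e3c591c7)) e
 (c (a (nat_lit 0x4ec4f363f70c6)) e
 (c (a (nat_lit 0x34427d02101a6)) e e))))))
 (c (a (nat_lit 0x2020202021))
 (c (a (nat_lit 0xe5033b0e0e024)) e
 (c (a (nat_lit 0x5078661205966)) e
 (c (a (nat_lit 0x30588286b3287)) e
 (c z e
 (c z e
 (c (a (nat_lit 0xcb3ab80000006)) e
 (c (a (nat_lit 0x10200000000005)) e e)))))))
 (c (a (nat_lit 0x202001))
 (c (a (nat_lit 0x64e11929a1725)) e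
 (c z e
 (c z e
 (c (a (nat_lit 0x12767550c00006)) e
 (c (a (nat_lit 0x14e98000000005)) e e)))))
 (c (a (nat_lit 0x15a2))
 (c z e
 (c (a (nat_lit 0x7274b7ad82007)) e
 (c (a (nat_lit 0x131711a0000007)) e
 (c (a (nat_lit 0x15c00000000005)) e e))))
 (c (a (nat_lit 0x1ac221))
 (c (a (nat_lit 0xdee1032600007)) e
 (c (a (nat_lit 0x130d8000000005)) e e))
 (c (a (nat_lit 0x2039332383)) e
 (c (a (nat_lit 0x12f141c003)) e
 (c (a (nat_lit 0x14f363c16163)) e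
 (c (a (nat_lit 0x1161c04027a3)) e
 (c (a (nat_lit 0x48040902b82)) e
 (c (a (nat_lit 0x7e7f7f34c22)) e
 (c (a (nat_lit 0xb53510d8d83)) e
 (c (a (nat_lit 0x142aa1002001)) e
 (c (a (nat_lit 0xdc1c181e0e1)) e
 (c (a (nat_lit 0x120a12065e1)) e
 (c (a (nat_lit 0xff02fe96002)) e e))))))))))))))))))))))) Tr.c Tr.e (nat_lit 0) C.cx C.cy
noncomputable def C450 : Tr := beta% (fun (c : Nat → Tr → Tr → Tr) (e : Tr) (z : Nat) (a b : Nat → Nat) =>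
 (c (a (nat_lit 0x20200001))
 (c z
 (c (a (nat_lit 0x1836566c4c886804))
 (c z e
 (c z e
 (c z e
 (c (a (nat_lit 0xa0b6b4cd02b892a28)) e
 (c (a (nat_lit 0x7284d714ceb864348)) e
 (c z e
 (c (a (nat_lit 0xffbb04dec69ad0b06)) e
 (c (a (nat_lit 0xae502831783820387)) e e))))))))
 (c (a (nat_lit 0x151522a280a021a5))
 (c (a (nat_lit 0xbba389552f37752c7)) e e)
 (c (a (nat_lit 0x1b8a2a4a69eb9865)) e
 (c (a (nat_lit 0x3a5832304f03825))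
 (c z e
 (c (a (nat_lit 0x188debca0af2846028)) e
 (c z e
 (c z e
 (c z e
 (c (a (nat_lit 0x192c89488ca9800008)) e e))))))
 (c (a (nat_lit 0x404545cc508486))
 (c (a (nat_lit 0x18d2a7a5b6f049c0c7)) e
 (c z e
 (c z e
 (c (a (nat_lit 0x12e6c94b87a4050008)) e e))))
 (c z e
 (c (a (nat_lit 0x3abae700bed9ca5)) e
 (c (a (nat_lit 0x102667045345665)) e
 (c (a (nat_lit 0x1844a7593b3a345)) e
 (c (b (nat_lit 0x8f09af755ffe325)) e
 (c z e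
 (c (a (nat_lit 0xe4e512167b8c025)) e
 (c (a (nat_lit 0x6a823a610a1ed86)) e
 (c (a (nat_lit 0x8e40fdbab4b7006)) e
 (c (a (nat_lit 0xc0df82b2c44a006)) e e)))))))))))))))
 (c z
 (c (a (nat_lit 0x15802060a02117c5))
 (c z e
 (c z e
 (c z e
 (c (a (nat_lit 0x110f5068c3c2e2e0a8)) e e))))
 (c (a (nat_lit 0x6060808cd08428)) e
 (c z e
 (c z e
 (c z e
 (c (a (nat_lit 0x1900cb04b595486)) e
 (c z e
 (c z e
 (c z e
 (c z e
 (c (a (nat_lit 0x14ee8c8f4e87b766)) e e)))))))))))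
 (c (a (nat_lit 0x202020203a05))
 (c (a (nat_lit 0x545658670d23205)) e
 (c z e
 (c z e
 (c z e
 (c z e
 (c z e
 (c z e
 (c (a (nat_lit 0x2c688226122db67)) e e))))))))
 (c (a (nat_lit 0x202020316906))
 (c z e
 (c (a (nat_lit 0x64e2c6af70be6))
 (c (a (nat_lit 0xb302844c86783c249)) e e)
 (c z e
 (c z e
 (c z e
 (c (a (nat_lit 0x1b6c2dee351d2746)) e
 (c (a (nat_lit 0x82c2df296792946)) e
 (c z e
 (c z e
 (c z e
 (c (a (nat_lit 0x5a4270b93c00008)) e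
 (c (a (nat_lit 0x10198c2000000006)) e e))))))))))))
 (c (a (nat_lit 0x16161712625a7))
 (c (a (nat_lit 0x6ee01a6694d7fa6))
 (c (a (nat_lit 0x13cc8687e763222207)) e
 (c (a (nat_lit 0x150dc8ec25e7860007)) e e))
 (c z e
 (c z e
 (c (a (nat_lit 0x3634773f214ab27)) e
 (c (a (nat_lit 0x88a12367792ae67)) e
 (c (a (nat_lit 0x6cf74d975ac8567)) e
 (c z e
 (c z e
 (c (a (nat_lit 0x191031b30f25c007)) e
 (c (a (nat_lit 0x82666b440000008)) e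
 (c (a (nat_lit 0x1040a00000000006)) e e)))))))))))
 (c (a (nat_lit 0x3ca2e4e526)) e
 (c (a (nat_lit 0xd5c704832325))
 (c (a (nat_lit 0x386f28987436bc6)) e
 (c z e
 (c z e
 (c z e
 (c z e
 (c (a (nat_lit 0x88df4ce4b09c007)) e e))))))
 (c (b (nat_lit 0x1003dfe0a08025))
 (c (b (nat_lit 0x1a1a31fe3a2b467)) e
 (c z e
 (c (a (nat_lit 0x64da9087bf71747)) e e)))
 (c (a (nat_lit 0x1c7238f83e0242))
 (c (a (nat_lit 0x382e741b7d8cbc7)) e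
 (c (a (nat_lit 0x64622f0888b68e8)) e e))
 (c (a (nat_lit 0x83655a3160e1))
 (c (a (nat_lit 0x94810d06de4c547)) e e)
 (c z e
 (c (a (nat_lit 0x45877d6957ba4)) e
 (c (a (nat_lit 0x2e221018818a4)) e
 (c (a (nat_lit 0x7e7aacf53aba6)) e
 (c (a (nat_lit 0x1a1a4b55836a4)) e
 (c z e
 (c (a (nat_lit 0x6f93d2938f04)) e
 (c (a (nat_lit 0x177bbabc377ea4)) e
 (c (a (nat_lit 0x17d677935ac864)) e
 (c (a (nat_lit 0xf6fedb1842005)) e e))))))))))))))))))))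
 (c (a (nat_lit 0x20200001))
 (c (a (nat_lit 0x2020202036e4))
 (c (a (nat_lit 0xa10120e5f6e804))
 (c z e
 (c z e
 (c z e
 (c z e
 (c (a (nat_lit 0xab247272443e42807)) e e)))))
 (c (a (nat_lit 0x20202426b2659e6)) e
 (c z e
 (c z e
 (c (a (nat_lit 0x69def35f31c7145))
 (c z e
 (c (a (nat_lit 0x12d99d2fd08f800007)) e e))
 (c (a (nat_lit 0x15a7d3ae974d5045)) e
 (c z e
 (c z e
 (c z e
 (c (b (nat_lit 0x194fd01fe70cefc5)) e
 (c (a (nat_lit 0x2e5848884a0b2c6)) e e)))))))))))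
 (c (a (nat_lit 0x20203baf65))
 (c z e
 (c z e
 (c z e
 (c z e
 (c z e
 (c z e
 (c (a (nat_lit 0x10ef87adf0cec0a6)) e e)))))))
 (c (a (nat_lit 0x202034ab8ae6))
 (c z e
 (c z e
 (c z e
 (c z e
 (c z e
 (c z e
 (c (a (nat_lit 0xe9080ad4876c27)) e e)))))))
 (c (a (nat_lit 0x20368e6d46e6))
 (c z e
 (c z e
 (c z e
 (c (a (nat_lit 0x12c57094acecc4c6)) e e))))
 (c (a (nat_lit 0x5ac92ac52526))
 (c z e
 (c (a (nat_lit 0x3a7a950ea949c47)) e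
 (c z e
 (c z e
 (c z e
 (c z e
 (c (a (nat_lit 0x15d9b86c46a58007)) e e)))))))
 (c (a (nat_lit 0x174e4b80602045))
 (c (a (nat_lit 0x690bacf0ed69ee5)) e
 (c z e
 (c z e
 (c z e
 (c (a (nat_lit 0xcef73cbf317ad07)) e
 (c (a (nat_lit 0x675e445eaa00007)) e e))))))
 (c (a (nat_lit 0x1f8da705922062)) e
 (c (a (nat_lit 0x13509976e9a003)) e
 (c z e
 (c (a (nat_lit 0x777d7e2a0ac82)) e
 (c (a (nat_lit 0x72726ec8e1305)) e
 (c (a (nat_lit 0xccc8c8f97eb66)) e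
 (c (a (nat_lit 0x1032533fd394e6)) e
 (c z e
 (c z e
 (c (a (nat_lit 0x193073152d0845)) e
 (c (a (nat_lit 0x1015d9ea206004)) e e)))))))))))))))))
 (c (a (nat_lit 0x2020202021))
 (c (a (nat_lit 0x2c2c2d450b1a5))
 (c z e
 (c (a (nat_lit 0x2ec309230cc49a5))
 (c (a (nat_lit 0x15d695d4ce6cc90b27)) e
 (c z e
 (c (a (nat_lit 0x10e8c4e6a7e24863e7)) e
 (c (a (nat_lit 0x144b6ac62b25000007)) e e))))
 (c z e
 (c z e
 (c z e
 (c (a (nat_lit 0x5664f92d198d7c6)) e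
 (c z e
 (c z e
 (c z e
 (c (a (nat_lit 0xdaeb3524c0dc6a7)) e e))))))))))
 (c (a (nat_lit 0x2c2d12deda8c6))
 (c (a (nat_lit 0x7a72e318b46a565)) e
 (c z e
 (c z e
 (c (a (nat_lit 0xe4a7b7ddd79f6c6)) e
 (c (a (nat_lit 0x3692fafd06c72c7)) e
 (c z e
 (c z e
 (c z e
 (c (a (nat_lit 0x15557c745ef6e747)) e e)))))))))
 (c (a (nat_lit 0x2d850d0aa2986)) e
 (c (a (nat_lit 0x1508cac5c502e6)) e
 (c (a (nat_lit 0x17ef6822a080a3))
 (c (a (nat_lit 0x4183a045899786)) e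
 (c (a (nat_lit 0x84b4526ef3fb127)) e
 (c z e
 (c z e
 (c z e
 (c (a (nat_lit 0x10792de8a0000007)) e e))))))
 (c (a (nat_lit 0x19f555532ea003))
 (c (a (nat_lit 0x702a20791cbeb27)) e
 (c z e
 (c z e
 (c z e
 (c (a (nat_lit 0x17b2e7a000000007)) e e)))))
 (c z e
 (c (a (nat_lit 0x1078f6ab6338c1)) e
 (c (a (nat_lit 0x221e16a2d1404)) e
 (c (b (nat_lit 0xf4f14fff089e5)) e
 (c z e
 (c z e
 (c (b (nat_lit 0x1ff8766cb35743)) e
 (c (a (nat_lit 0x102ea8ec300ac4)) e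
 (c (a (nat_lit 0x1a3558bc16af64)) e
 (c z e
 (c (a (nat_lit 0x1234016080a003)) e
 (c (a (nat_lit 0x1340a020000003)) e
 (c (a (nat_lit 0x2c00000000001)) e e)))))))))))))))))))
 C449)))) Tr.c Tr.e (nat_lit 0) C.cx C.cy
noncomputable def C451 : Tr := beta% (fun (c : Nat → Tr → Tr → Tr) (e : Tr) (z : Nat) (a b : Nat → Nat) =>
 (c z
 (c (a (nat_lit 0xfb16c8ba2a26024))
 (c z e
 (c z e
 (c z e
 (c (a (nat_lit 0xe8a6c6dee928c4908)) e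
 (c (a (nat_lit 0x7c7cc11346eaa27c8)) e
 (c z e
 (c z e
 (c (a (nat_lit 0x30643618311c200e8)) e
 (c (a (nat_lit 0x623222212a503c228)) e e)))))))))
 (c z e
 (c z e
 (c (a (nat_lit 0x1161c300c0470ba5))
 (c z e
 (c (a (nat_lit 0x13d62c694ed0d28468)) e
 (c z e
 (c z e
 (c (a (nat_lit 0x225d7c48547228448)) e
 (c (a (nat_lit 0x75ceba80a4b484008)) e
 (c (a (nat_lit 0x1068e686e840000008)) e e)))))))
 (c (a (nat_lit 0x521c20207739be5))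
 (c (a (nat_lit 0x17b3a8e7d1d18c0a07)) e
 (c z e
 (c z e
 (c (a (nat_lit 0x45383a7c807264348)) e
 (c (a (nat_lit 0x19e887edea27200008)) e e)))))
 (c (a (nat_lit 0xa68ae75f087d045)) e
 (c z e
 (c (a (nat_lit 0xa4ea46d55251c5)) e
 (c (a (nat_lit 0x4e98672f4d3d0c5)) e
 (c (a (nat_lit 0x909b7d52dade045)) e
 (c z e
 (c (a (nat_lit 0x15d02d492541c005)) e
 (c (a (nat_lit 0x1b3518d14b5133c4)) e
 (c (a (nat_lit 0xbad77991b6d17a5)) e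
 (c (a (nat_lit 0x16728f132bcea045)) e e)))))))))))))))
 (c z
 (c (a (nat_lit 0x1e3ea66646259063))
 (c z e
 (c z e
 (c z e
 (c z e
 (c z e
 (c (a (nat_lit 0x9a5c98d0bed1e9646)) e e))))))
 (c (a (nat_lit 0xe00a080c06574a5)) e
 (c (a (nat_lit 0x814041852db9e6))
 (c z e
 (c z e
 (c z e
 (c z e
 (c (a (nat_lit 0xd148968932389e6e7)) e e)))))
 (c z e
 (c z e
 (c z e
 (c z e
 (c z e
 (c z e
 (c (a (nat_lit 0x107266648480a067)) e
 (c z e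
 (c z e
 (c (b (nat_lit 0x40adfffe743d5a6)) e e)))))))))))))
 (c z
 (c (a (nat_lit 0x10061014a99d763))
 (c z e
 (c z e
 (c z e
 (c (a (nat_lit 0xd7141260746c52607)) e e))))
 (c (a (nat_lit 0x5c3636ccf0c33e5))
 (c (a (nat_lit 0x12b05b5536d0e8e6a7)) e
 (c z e
 (c z e
 (c (a (nat_lit 0xc51ec4cc90704e5e8)) e
 (c (a (nat_lit 0x118829ea4382e22008)) e e)))))
 (c z e
 (c z e
 (c (a (nat_lit 0x364c2268b7169c5)) e
 (c (a (nat_lit 0xac6cc6f784eeec5)) e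
 (c z e
 (c (a (nat_lit 0xbcdb14ac381c885)) e
 (c (a (nat_lit 0x9cd472a22625425)) e
 (c (a (nat_lit 0xac8aeaf502da8a6)) e
 (c z e
 (c z e
 (c (a (nat_lit 0xdf3a8a360a00005)) e
 (c (a (nat_lit 0x166b636000000005)) e e))))))))))))))
 (c (a (nat_lit 0xe0e0e0e0f824))
 (c (a (nat_lit 0x9090dee6c305265))
 (c z e
 (c (a (nat_lit 0xa37b3b12224148407)) e
 (c (a (nat_lit 0x111337646dcb8dece7)) e
 (c (a (nat_lit 0x17b50cadb44b740847)) e e))))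
 (c (a (nat_lit 0x324e1262bedb505))
 (c (a (nat_lit 0x171c19eb287cf24747)) e e)
 (c (a (nat_lit 0x16f2a12a51b3c844)) e
 (c (a (nat_lit 0x12ad9193b15199e5)) e
 (c (a (nat_lit 0x2711eac6ae3d84)) e
 (c (a (nat_lit 0x3e6e38285685406)) e
 (c (a (nat_lit 0x723a44264a8d1a6)) e
 (c (a (nat_lit 0xc1648969eaf086)) e
 (c (a (nat_lit 0x2c667a946e5b2e7)) e
 (c z e
 (c (a (nat_lit 0x122e1c246f2e007)) e
 (c (a (nat_lit 0x178b2cc800000005)) e e))))))))))))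
 (c (a (nat_lit 0x2020203707e5))
 (c (a (nat_lit 0x102bd333d45e0de5))
 (c z e
 (c (a (nat_lit 0x10c5c524c422c16248)) e e))
 (c (a (nat_lit 0x8a9aa6c166c0025)) e
 (c z e
 (c (a (nat_lit 0xcccb20908ee0d86)) e
 (c (a (nat_lit 0x137de768311c28c5)) e
 (c (a (nat_lit 0x10a6c90df35467e6)) e
 (c (a (nat_lit 0x5046ace0f536206)) e
 (c z e
 (c (a (nat_lit 0x2e7e5a795056367)) e
 (c (a (nat_lit 0x9ea4b909e400007)) e e))))))))))
 (c (b (nat_lit 0x60607ff10122))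
 (c (a (nat_lit 0x686a6c8b4ec8b86)) e e)
 (c (a (nat_lit 0x7070f50e88003))
 (c z e
 (c (a (nat_lit 0x625ab788c494b05)) e
 (c (a (nat_lit 0x1474df327ec81c5)) e
 (c z e
 (c z e
 (c (a (nat_lit 0x7c94a9826e6ea07)) e e))))))
 (c (a (nat_lit 0xb0bb750668323))
 (c (a (nat_lit 0x6461c30b1eb7444)) e
 (c z e
 (c z e
 (c (a (nat_lit 0x96ed42a9f371806)) e
 (c (a (nat_lit 0xa6795c586684007)) e e)))))
 (c (a (nat_lit 0x1bb38ce4405903))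
 (c (a (nat_lit 0x42ae403a26e7b46)) e
 (c (a (nat_lit 0xc6e678656110da7)) e e))
 (c (a (nat_lit 0xfab2581bbd883))
 (c (a (nat_lit 0x1d0dae3cded4aa86)) e e)
 (c (a (nat_lit 0x922225d1a13c3))
 (c z e
 (c (a (nat_lit 0xfd34de000000007)) e e))
 (c (a (nat_lit 0x6c6d1d1109065))
 (c (a (nat_lit 0x1854c00000000005)) e e)
 (c (a (nat_lit 0x6c8bcb8b5125)) e
 (c (a (nat_lit 0x92787703bf1a4)) e
 (c (a (nat_lit 0x726c6d0e6c4c4)) e
 (c (a (nat_lit 0x9a9bc88850223)) e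
 (c (a (nat_lit 0x7fc88c4a1e223)) e
 (c (a (nat_lit 0x10a724e3c3e384)) e
 (c (a (nat_lit 0x106bc949a970e3)) e
 (c (a (nat_lit 0x7824342b1c442)) e
 (c (a (nat_lit 0x1637549b000001)) e e)))))))))))))))))))))) Tr.c Tr.e (nat_lit 0) C.cx C.cy
noncomputable def C452 : Tr := beta% (fun (c : Nat → Tr → Tr → Tr) (e : Tr) (z : Nat) (a b : Nat → Nat) =>
 (c (nat_lit 1)
 (c (a (nat_lit 0x396bcb6645))
 (c (a (nat_lit 0xe6d90d23c4a0824)) e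
 (c z e
 (c z e
 (c (a (nat_lit 0x9c85e5a6117365)) e
 (c (a (nat_lit 0x1860b432b97a0f65)) e
 (c z e
 (c z e
 (c (a (nat_lit 0xd8a5790f37c5686)) e
 (c (a (nat_lit 0xd6f6be870b125a7)) e e)))))))))
 (c (a (nat_lit 0x17046e6c54567)) e
 (c (a (nat_lit 0x1a0869c484a2a6)) e
 (c (a (nat_lit 0xcd161816ab983))
 (c z e
 (c (a (nat_lit 0x8c886e8b7961f87)) e
 (c z e
 (c z e
 (c z e
 (c (a (nat_lit 0x8cab94500000007)) e e))))))
 (c (a (nat_lit 0xd0c0c0ed0e7c5))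
 (c (a (nat_lit 0x262422a71902c87)) e
 (c z e
 (c z e
 (c (a (nat_lit 0xad290d4a5200008)) e
 (c (a (nat_lit 0xfb345a000000008)) e e)))))
 (c z e
 (c z e
 (c (a (nat_lit 0xd17e30fb299e3)) e
 (c (a (nat_lit 0xe0e2fb00b47e6)) e
 (c z e
 (c z e
 (c (a (nat_lit 0xef572ae951c04)) e
 (c (b (nat_lit 0x11ed85515f3fe3)) e
 (c (a (nat_lit 0xe0992b842e2c4)) e
 (c z e
 (c (a (nat_lit 0x11d8e1c180c004)) e
 (c (a (nat_lit 0x18e1e0c0000004)) e e)))))))))))))))))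
 (c (a (nat_lit 0x10101010101))
 (c (a (nat_lit 0x104484640420a6))
 (c (a (nat_lit 0xa0982c10020f6a5)) e
 (c z e
 (c (a (nat_lit 0x78ae6c733afd2a6)) e
 (c z e
 (c (a (nat_lit 0xc4b538e4d1239a7)) e
 (c (a (nat_lit 0x7aa4c09f3973387)) e e))))))
 (c (b (nat_lit 0xd316f6f7fffe4)) e
 (c z e
 (c z e
 (c (a (nat_lit 0x1892d0aa802b45))
 (c z e
 (c (a (nat_lit 0x117f3abdcce00007)) e e))
 (c (a (nat_lit 0xc25c5206995a5))
 (c (a (nat_lit 0x11ee6d0460000007)) e e)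
 (c z e
 (c z e
 (c z e
 (c (a (nat_lit 0x410d151d0e025)) e
 (c (a (nat_lit 0x175859d8958904)) e
 (c (a (nat_lit 0x153695f32d8905)) e
 (c z e
 (c (a (nat_lit 0x1b574c23e362e4)) e
 (c (a (nat_lit 0x14292060200004)) e
 (c (a (nat_lit 0x13810000000003)) e e))))))))))))))))
 (c (a (nat_lit 0x2020202021))
 (c (a (nat_lit 0x1c39393752a004))
 (c (a (nat_lit 0x500a0202849b7c6)) e
 (c z e
 (c (a (nat_lit 0x26207c836e26a87)) e e)))
 (c z e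
 (c z e
 (c z e
 (c (a (nat_lit 0x9c873523a98a5))
 (c (a (nat_lit 0x14972be000000007)) e e)
 (c z e
 (c z e
 (c z e
 (c (a (nat_lit 0x11f292b32fcb86)) e
 (c z e
 (c z e
 (c z e
 (c (a (nat_lit 0x1787c404244005)) e
 (c (a (nat_lit 0x1ec0a0c0000002)) e e))))))))))))))
 (c (a (nat_lit 0xc0c0c0c0c1))
 (c (a (nat_lit 0x11716b8c028c04))
 (c (a (nat_lit 0x18222cc2a100946)) e
 (c (a (nat_lit 0xa1fc2a3a9406e6)) e e))
 (c (a (nat_lit 0x1c92d1606da3a4))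
 (c (a (nat_lit 0x614069678682aa6)) e e)
 (c z e
 (c z e
 (c z e
 (c (a (nat_lit 0xd900f0dc14605)) e
 (c (a (nat_lit 0xfaf316a8cce46)) e
 (c z e
 (c z e
 (c (a (nat_lit 0x1d44c0bca5083)) e
 (c (a (nat_lit 0x15a3c1c23088c2)) e e)))))))))))
 (c (a (nat_lit 0x2020202021))
 (c (a (nat_lit 0x12f0c087e2e023)) e
 (c z e
 (c z e
 (c (a (nat_lit 0xf902eadceae65)) e
 (c (a (nat_lit 0x1ffd1bc1aa5024)) e
 (c z e
 (c z e
 (c (b (nat_lit 0x1ff20b496daa23)) e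
 (c (a (nat_lit 0x15aead51e66d23)) e e)))))))))
 (c (nat_lit 1)
 (c z e
 (c (a (nat_lit 0x183592b084f044)) e
 (c z e
 (c z e
 (c z e
 (c (a (nat_lit 0x2300824033c5)) e
 (c (a (nat_lit 0xc074ac6869884)) e
 (c (a (nat_lit 0x28621e6b8a4e4)) e e))))))))
 (c (a (nat_lit 0xe1010100c1))
 (c (a (nat_lit 0x11f0d0438a6b84)) e
 (c z e
 (c z e
 (c (b (nat_lit 0x527ee67fff986)) e
 (c (a (nat_lit 0x82cf1d253f946)) e
 (c (a (nat_lit 0x1c7478b55e545)) e e))))))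
 (c (a (nat_lit 0x2020202021))
 (c z e
 (c (a (nat_lit 0xa0c4b4ba23666)) e
 (c z e
 (c z e
 (c z e
 (c (a (nat_lit 0x8c833e5c00006)) e
 (c (a (nat_lit 0x10ae4000000006)) e e)))))))
 (c (a (nat_lit 0x2020202001))
 (c (a (nat_lit 0x4ec8f31f09805)) e
 (c z e
 (c z e
 (c (a (nat_lit 0xa8a2e53092006)) e
 (c (a (nat_lit 0xc90aaa0000006)) e
 (c (a (nat_lit 0x18400000000004)) e e))))))
 (c (a (nat_lit 0x4040404041))
 (c z e
 (c (a (nat_lit 0xa6a4a8b31d248)) e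
 (c (a (nat_lit 0xeaf706dc00007)) e
 (c (a (nat_lit 0x15e84000000004)) e e))))
 (c (a (nat_lit 0x20202035e5))
 (c (a (nat_lit 0xdededf0322007)) e
 (c (a (nat_lit 0x117167e0000004)) e
 (c (a (nat_lit 0x12e00000000003)) e e)))
 (c (a (nat_lit 0x20203a8305)) e
 (c (a (nat_lit 0x203a830125)) e
 (c (a (nat_lit 0x1a63012125)) e
 (c (b (nat_lit 0x1901bfe02005)) e
 (c (b (nat_lit 0x7bfe0403283)) e
 (c (a (nat_lit 0x2040328f23)) e
 (c (a (nat_lit 0x8e8db37d523)) e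
 (c z e
 (c (a (nat_lit 0x1450ee81c123)) e
 (c (a (nat_lit 0x1fbac1a063e2)) e
 (c (a (nat_lit 0x10a403856023)) e e))))))))))))))))))))))) Tr.c Tr.e (nat_lit 0) C.cx C.cy
noncomputable def C453 : Tr := beta% (fun (c : Nat → Tr → Tr → Tr) (e : Tr) (z : Nat) (a b : Nat → Nat) =>
 (c (a (nat_lit 0x6060606061))
 (c z
 (c (a (nat_lit 0x11f141e1dafb24c2))
 (c z e
 (c z e
 (c z e
 (c z e
 (c z e
 (c z e
 (c z e
 (c (a (nat_lit 0xc89c40325b10ba1c6)) e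
 (c (a (nat_lit 0x5e3a404726ba065a7)) e e)))))))))
 (c z e
 (c z e
 (c z e
 (c (a (nat_lit 0x764432682ca1005))
 (c (a (nat_lit 0x1f58330c681e737047)) e
 (c (a (nat_lit 0x11720723ce6a634147)) e
 (c z e
 (c z e
 (c (a (nat_lit 0x18d5276c0d28800007)) e
 (c (a (nat_lit 0x13c206224000000007)) e e))))))
 (c z e
 (c z e
 (c z e
 (c z e
 (c (a (nat_lit 0x1894faf752e1a024)) e
 (c (a (nat_lit 0xb0e35d34a924025)) e
 (c z e
 (c z e
 (c (a (nat_lit 0xb0b5091c3c33265)) e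
 (c (a (nat_lit 0xbb29463634462a4)) e
 (c (a (nat_lit 0x10b2822241c00004)) e e))))))))))))))))
 (c z
 (c z e
 (c z e
 (c z e
 (c z e
 (c z e
 (c z e
 (c z e
 (c z e
 (c (a (nat_lit 0xc696ef12d410246)) e e)))))))))
 (c z e
 (c (a (nat_lit 0x202020203566))
 (c z e
 (c z e
 (c z e
 (c z e
 (c z e
 (c (a (nat_lit 0x5c6c647090932e7)) e
 (c (a (nat_lit 0xcebcd72d1f0ca26)) e e)))))))
 (c (a (nat_lit 0x2020203c2486))
 (c (a (nat_lit 0x42c4d830134f2c6))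
 (c (a (nat_lit 0xb94afce0acd64a707)) e e)
 (c z e
 (c z e
 (c (a (nat_lit 0x21a74d31543367)) e
 (c (a (nat_lit 0x40accf111f6f0c7)) e
 (c (a (nat_lit 0x94b4d30136f03a7)) e
 (c z e
 (c z e
 (c z e
 (c (a (nat_lit 0x847636b76800008)) e
 (c (a (nat_lit 0x1200c0e000000006)) e e)))))))))))
 (c (a (nat_lit 0x202030a32267))
 (c z e
 (c z e
 (c (a (nat_lit 0x206c96086421c6)) e e)))
 (c (a (nat_lit 0x2e2f2442280e6)) e
 (c (a (nat_lit 0x230e402a12146))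
 (c (a (nat_lit 0x54810ad6624cc66)) e e)
 (c (a (nat_lit 0x14a2e1a0204986))
 (c z e
 (c (a (nat_lit 0xacd6b49fa6d2708)) e e))
 (c (a (nat_lit 0x321c04053d2e5))
 (c (a (nat_lit 0x116aaadbb143c5c7)) e e)
 (c (a (nat_lit 0x5032336b611c5)) e
 (c z e
 (c z e
 (c (a (nat_lit 0x1716b7f8f63706)) e
 (c (a (nat_lit 0x1cf9faaf92e824)) e
 (c z e
 (c z e
 (c (b (nat_lit 0xab37fe1c18003)) e
 (c (a (nat_lit 0x164080a280a643)) e
 (c (a (nat_lit 0x12929472b84ca3)) e e))))))))))))))))))))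
 (c (a (nat_lit 0x20002001))
 (c z
 (c (a (nat_lit 0x10c080c0c2e4c024)) e
 (c z e
 (c z e
 (c z e
 (c z e
 (c z e
 (c z e
 (c z e
 (c (a (nat_lit 0xe6c52b1c2c5a9c5)) e
 (c (a (nat_lit 0xa504f0b0ee73365)) e
 (c (b (nat_lit 0x122e5ff7f5d35065)) e e)))))))))))
 (c (a (nat_lit 0x202020203866))
 (c z e
 (c z e
 (c z e
 (c z e
 (c z e
 (c z e
 (c (a (nat_lit 0x10e49ea947e6b65)) e e)))))))
 (c (a (nat_lit 0x2020203a6666))
 (c z e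
 (c z e
 (c z e
 (c z e
 (c z e
 (c (a (nat_lit 0x1a7e1ef50b34606)) e e))))))
 (c (a (nat_lit 0x202031a4c4c7)) e
 (c (a (nat_lit 0x203304e663a7)) e
 (c (a (nat_lit 0x1f606a7430326))
 (c (a (nat_lit 0x40330a76b11ee45)) e e)
 (c (a (nat_lit 0x11638300406186)) e
 (c (a (nat_lit 0x78320e0bf4342)) e
 (c (a (nat_lit 0xbea4a53520fe4))
 (c (a (nat_lit 0x8e73aeac9eba5e7)) e e)
 (c z e
 (c z e
 (c (a (nat_lit 0xece8e51b29166)) e e))))))))))))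
 (c (a (nat_lit 0x2020202021))
 (c (a (nat_lit 0x138465))
 (c z e
 (c (a (nat_lit 0x1516155ab896afa5)) e
 (c z e
 (c z e
 (c z e
 (c (a (nat_lit 0xc220e285493346)) e
 (c z e
 (c z e
 (c z e
 (c (a (nat_lit 0x7458a4a86e172a7)) e e))))))))))
 (c (a (nat_lit 0x161617aebeca6))
 (c (a (nat_lit 0xd90d4999819c5c4)) e
 (c z e
 (c z e
 (c z e
 (c (a (nat_lit 0x5e30b6f89aa3067)) e
 (c (a (nat_lit 0x36c4f8c0bd50407)) e
 (c z e
 (c z e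
 (c (a (nat_lit 0x1372fdf0cb57bba7)) e e)))))))))
 (c (a (nat_lit 0x2c2df8c8cc986))
 (c z e
 (c z e
 (c z e
 (c (a (nat_lit 0xd918a570fadc086)) e e))))
 (c (a (nat_lit 0x170c6e804e507)) e
 (c (a (nat_lit 0x1fa7c9c04061e5)) e
 (c (a (nat_lit 0xf8dc0e051a642))
 (c (a (nat_lit 0x1a5226568d4da26)) e
 (c z e
 (c z e
 (c z e
 (c (a (nat_lit 0x6b99f0680000007)) e e)))))
 (c z e
 (c z e
 (c z e
 (c (a (nat_lit 0x1332b7fa7aaa65)) e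
 (c z e
 (c z e
 (c z e
 (c (a (nat_lit 0xe22c2a13a56c2)) e
 (c (a (nat_lit 0xe0615874f0c2)) e
 (c z e
 (c z e
 (c (a (nat_lit 0x17d5d4a9c00003)) e
 (c (a (nat_lit 0x162b0000000003)) e e)))))))))))))))))))
 C452)))) Tr.c Tr.e (nat_lit 0) C.cx C.cy
noncomputable def C454 : Tr := beta% (fun (c : Nat → Tr → Tr → Tr) (e : Tr) (z : Nat) (a b : Nat → Nat) =>
 (c z
 (c (a (nat_lit 0xe6e6775f64bea44))
 (c z e
 (c z e
 (c z e
 (c z e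
 (c z e
 (c z e
 (c z e
 (c z e
 (c z e
 (c (a (nat_lit 0x26424a7c2c1e2de66)) e
 (c (a (nat_lit 0x5652648e383fad2c7)) e
 (c (a (nat_lit 0x56449aec42f5d1a86)) e
 (c (a (nat_lit 0x3c58538acc408a007)) e e)))))))))))))
 (c (a (nat_lit 0x153adb8361aba4))
 (c (a (nat_lit 0x1a4e405fd57bc7a86)) e
 (c z e
 (c z e
 (c z e
 (c (a (nat_lit 0x746c9e7ec0f120c68)) e
 (c z e
 (c z e
 (c (a (nat_lit 0x5434745e1218415e8)) e
 (c (a (nat_lit 0x24365c162c33ce4a8)) e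
 (c (a (nat_lit 0x2e3e421c2318a2529)) e e))))))))))
 (c (a (nat_lit 0x14d65742e2006005))
 (c z e
 (c z e
 (c z e
 (c z e
 (c z e
 (c (a (nat_lit 0xf39ab724388edf366)) e e))))))
 (c (a (nat_lit 0x15d7cc078241e044))
 (c z e
 (c (a (nat_lit 0x5e58df1f16a0e8e08)) e
 (c z e
 (c z e
 (c (a (nat_lit 0x183428293383163046)) e
 (c (a (nat_lit 0xe64854445322888e7)) e
 (c z e
 (c z e
 (c z e
 (c (a (nat_lit 0x1dd344096000000007)) e e))))))))))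
 (c (a (nat_lit 0x110b0b08c3808325))
 (c z e
 (c z e
 (c z e
 (c (a (nat_lit 0x12ea466c6c0ccb4827)) e
 (c (a (nat_lit 0x9c8464cb4892f6f47)) e
 (c z e
 (c z e
 (c (a (nat_lit 0x26795be2780000007)) e e))))))))
 (c (a (nat_lit 0x1c3c53722361f384))
 (c (a (nat_lit 0x46ac729094855ce48)) e
 (c z e
 (c z e
 (c z e
 (c z e
 (c (a (nat_lit 0x3510ac747a8200009)) e e))))))
 (c z e
 (c (a (nat_lit 0xd8a2ad217472a44)) e
 (c (a (nat_lit 0xcac2e590d6eadc4)) e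
 (c z e
 (c (a (nat_lit 0x167bb538d40c08c5)) e
 (c (a (nat_lit 0x179195716caa2745)) e
 (c (a (nat_lit 0x19fdbfd4a666c725)) e
 (c z e
 (c (a (nat_lit 0x166dad4e90626aa4)) e e)))))))))))))))
 (c z
 (c (a (nat_lit 0x12eb8b8181a64665))
 (c z e
 (c z e
 (c z e
 (c z e
 (c (a (nat_lit 0xcef4f1417bbd6b1c8)) e
 (c z e
 (c (a (nat_lit 0xc2aab9147eb07b627)) e
 (c (a (nat_lit 0x10586e1e0c2720168)) e
 (c z e
 (c (a (nat_lit 0x62661c1db0d0466c8)) e e))))))))))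
 (c (a (nat_lit 0x1313cb4b41c1e005)) e
 (c (a (nat_lit 0x146c4c4686c20025)) e
 (c z e
 (c (a (nat_lit 0xc476723e2479366))
 (c (a (nat_lit 0xe8f6de6e5d0ace8a8)) e
 (c z e
 (c z e
 (c z e
 (c z e
 (c (a (nat_lit 0x1246a4854580000009)) e e))))))
 (c z e
 (c z e
 (c z e
 (c z e
 (c (a (nat_lit 0xc2f8db8310b2b86)) e
 (c z e
 (c (a (nat_lit 0x11de9ed14ce0a026)) e
 (c z e
 (c (a (nat_lit 0x1f165f15515113c6)) e
 (c (a (nat_lit 0x161a01432925abc5)) e e)))))))))))))))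
 (c z
 (c z e
 (c z e
 (c z e
 (c z e
 (c z e
 (c z e
 (c z e
 (c z e
 (c (a (nat_lit 0x110d8e506feea086)) e e)))))))))
 (c z
 (c (a (nat_lit 0x1024a4e58547ca85)) e
 (c (a (nat_lit 0x16500c4aa76ece5))
 (c (a (nat_lit 0x11ac3452adccc7eaa8)) e
 (c (a (nat_lit 0x88c6a90700164c249)) e
 (c z e
 (c z e
 (c (a (nat_lit 0xfbef0d4ace4e4e428)) e e)))))
 (c z e
 (c z e
 (c z e
 (c (a (nat_lit 0x104212c04b87705)) e
 (c z e
 (c z e
 (c z e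
 (c (a (nat_lit 0x7d0d6374d471626)) e
 (c z e
 (c z e
 (c z e
 (c (a (nat_lit 0x14ac53a360000005)) e
 (c (a (nat_lit 0x170fe00000000005)) e e)))))))))))))))
 (c z
 (c (a (nat_lit 0xba181905c933a44))
 (c z e
 (c z e
 (c z e
 (c (a (nat_lit 0x1c16fa318a72e93927)) e
 (c (a (nat_lit 0x136c6c4a6786846008)) e e)))))
 (c z e
 (c z e
 (c (a (nat_lit 0x2e700ac32270ae5))
 (c z e
 (c (a (nat_lit 0x106fb18da000000008)) e e))
 (c (a (nat_lit 0xd094ad0cceeb1e6))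
 (c (a (nat_lit 0xcf1e6e00000000007)) e e)
 (c z e
 (c z e
 (c (b (nat_lit 0x9a4c789d07ff826)) e
 (c (a (nat_lit 0x4ec99bbacf1ec46)) e
 (c z e
 (c z e
 (c (a (nat_lit 0x1bcf50cd2c000006)) e
 (c (a (nat_lit 0xcb4234000000004)) e e)))))))))))))
 (c (a (nat_lit 0x2020201d26))
 (c (a (nat_lit 0x404811342e7045))
 (c (a (nat_lit 0x718f18a2a51560367)) e e)
 (c z e
 (c z e
 (c z e
 (c z e
 (c (a (nat_lit 0xc4e4989e8aa3187)) e
 (c z e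
 (c z e
 (c z e
 (c (a (nat_lit 0x5a506c84992a009)) e
 (c (a (nat_lit 0xa525a66e0000005)) e
 (c (a (nat_lit 0x1e13800000000005)) e e))))))))))))
 (c (a (nat_lit 0xa0a0a0b04287)) e
 (c (a (nat_lit 0x20203061c066))
 (c z e
 (c (a (nat_lit 0x3c685b036aea646)) e
 (c (a (nat_lit 0x10148cba9a91106)) e
 (c z e
 (c z e
 (c (a (nat_lit 0x685472b12a944a8)) e e))))))
 (c (a (nat_lit 0x12130c3620106))
 (c (a (nat_lit 0x724c71a10086c25)) e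
 (c z e
 (c z e
 (c (a (nat_lit 0xaa84dcc67b21107)) e
 (c (a (nat_lit 0x54909d1c8a3a708)) e e)))))
 (c (a (nat_lit 0x2d765a46383c6)) e
 (c (a (nat_lit 0x1781e140404526))
 (c (a (nat_lit 0x9ed48689370e828)) e e)
 (c (a (nat_lit 0x4018080547364))
 (c z e
 (c (a (nat_lit 0x1917728ea0000008)) e e))
 (c (a (nat_lit 0x1802032f25165))
 (c (a (nat_lit 0x154a49c000000007)) e e)
 (c z e
 (c (a (nat_lit 0x7b1f1b372f546)) e
 (c (a (nat_lit 0x11b0af6af3ae44)) e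
 (c (a (nat_lit 0x18b5ebdd930823)) e
 (c (a (nat_lit 0xba314ca806003)) e
 (c z e
 (c (a (nat_lit 0x168e0300406143)) e
 (c (a (nat_lit 0x1d474081a46002)) e
 (c (a (nat_lit 0x110285ab204001)) e e))))))))))))))))))))))) Tr.c Tr.e (nat_lit 0) C.cx C.cy
noncomputable def C455 : Tr := beta% (fun (c : Nat → Tr → Tr → Tr) (e : Tr) (z : Nat) (a b : Nat → Nat) =>
 (c z
 (c (a (nat_lit 0x686868e50b00444))
 (c z e
 (c z e
 (c z e
 (c (a (nat_lit 0x7a3640a3249161746)) e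
 (c z e
 (c z e
 (c z e
 (c z e
 (c z e
 (c z e
 (c z e
 (c z e
 (c (a (nat_lit 0x282850572a9246628)) e e)))))))))))))
 (c (a (nat_lit 0xa2a30cfef49a9c6))
 (c z e
 (c z e
 (c z e
 (c z e
 (c z e
 (c z e
 (c z e
 (c (a (nat_lit 0x11f3ab3f78066092e6)) e
 (c (a (nat_lit 0x603e5480483a5da08)) e e)))))))))
 (c (a (nat_lit 0x3b757626062185)) e
 (c (a (nat_lit 0x15347505e5804045))
 (c z e
 (c (a (nat_lit 0x7ea68f37595ccb328)) e
 (c z e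
 (c z e
 (c (a (nat_lit 0xd563103e38fe8fc46)) e
 (c (a (nat_lit 0x9ed8565e5aaab3047)) e
 (c z e
 (c z e
 (c z e
 (c (a (nat_lit 0x6312e276580000008)) e e))))))))))
 (c (a (nat_lit 0x195bd2b24925a084))
 (c z e
 (c z e
 (c z e
 (c (a (nat_lit 0x155508694b14230c67)) e
 (c (a (nat_lit 0x1224e52290aa6d6c67)) e
 (c (a (nat_lit 0x9a9a9546809e98c87)) e
 (c z e
 (c z e
 (c (a (nat_lit 0x11c4e6a6c000000008)) e e)))))))))
 (c (a (nat_lit 0x1955754fadc68965))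
 (c (a (nat_lit 0x1c2e7666e908259a7)) e
 (c (a (nat_lit 0xe1412aec2a5e1028)) e e))
 (c z e
 (c (a (nat_lit 0xa68820558f6c283))
 (c z e
 (c (a (nat_lit 0xb9393109ed46b67e6)) e
 (c (a (nat_lit 0xe698cc808dec8a006)) e e)))
 (c (a (nat_lit 0x9e566fc1109e663)) e
 (c z e
 (c z e
 (c z e
 (c (b (nat_lit 0x1252d4f547dfffe5)) e
 (c (a (nat_lit 0x125356eeec684466)) e
 (c z e
 (c (a (nat_lit 0x1d3c72f370102fe4)) e
 (c (a (nat_lit 0x1f2d0dc646c74443)) e e)))))))))))))))))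
 (c z
 (c (a (nat_lit 0x310adec00207504))
 (c z e
 (c z e
 (c z e
 (c z e
 (c z e
 (c z e
 (c z e
 (c z e
 (c (a (nat_lit 0x302c7c3a484370c67)) e
 (c (a (nat_lit 0x3a3a7432298f2c547)) e e))))))))))
 (c (a (nat_lit 0x1a12b222a2c605a5))
 (c z e
 (c z e
 (c z e
 (c z e
 (c z e
 (c (a (nat_lit 0x705072606c566bd27)) e
 (c z e
 (c (a (nat_lit 0x3e5e282a1f9cc29c7)) e e))))))))
 (c (a (nat_lit 0x106f6403ce8d87a4))
 (c z e
 (c z e
 (c z e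
 (c z e
 (c z e
 (c (a (nat_lit 0xc44a5e2483373eec7)) e e))))))
 (c z e
 (c z e
 (c z e
 (c z e
 (c z e
 (c z e
 (c z e
 (c z e
 (c (a (nat_lit 0x1a5bbe714ba42085)) e
 (c (b (nat_lit 0x999997fef25c445)) e
 (c z e
 (c (a (nat_lit 0x1e2fb405c62a0783)) e
 (c (a (nat_lit 0x12bb034068838022)) e e))))))))))))))))
 (c z
 (c (a (nat_lit 0x1352d050460282a4))
 (c z e
 (c z e
 (c z e
 (c z e
 (c z e
 (c (a (nat_lit 0x50764e6c349784906)) e e))))))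
 (c (b (nat_lit 0x1410905fffffffe4))
 (c z e
 (c z e
 (c z e
 (c (a (nat_lit 0x9c633f66644954147)) e e))))
 (c z e
 (c z e
 (c z e
 (c z e
 (c z e
 (c z e
 (c z e
 (c (a (nat_lit 0x11f6eeeec4862085)) e
 (c (a (nat_lit 0x1e16b69231a86645)) e
 (c z e
 (c z e
 (c z e
 (c z e
 (c (a (nat_lit 0x10fe094480000004)) e e))))))))))))))))
 (c z
 (c z e
 (c (a (nat_lit 0x1ec547a3ccce8d24))
 (c (a (nat_lit 0x1a7a14ff74102feee7)) e
 (c z e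
 (c z e
 (c z e
 (c (a (nat_lit 0x4cc98baf2c341a247)) e e)))))
 (c z e
 (c z e
 (c z e
 (c (a (nat_lit 0x98dc063c7681784)) e
 (c z e
 (c (a (nat_lit 0x5aa8f8a721183c5)) e
 (c (a (nat_lit 0x86e8e7614f62045)) e
 (c (a (nat_lit 0xbc817baf884d484)) e
 (c z e
 (c z e
 (c z e
 (c (a (nat_lit 0x1cdb4b00a0200004)) e
 (c (a (nat_lit 0x1b6b608000000004)) e e)))))))))))))))
 (c z
 (c (a (nat_lit 0x8ee65d0731f1863))
 (c z e
 (c z e
 (c z e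
 (c z e
 (c (a (nat_lit 0xdd38e10a762c40207)) e e)))))
 (c z e
 (c z e
 (c (a (nat_lit 0x30180c0e09704a5)) e
 (c (a (nat_lit 0x8a767871d6a2f65)) e
 (c z e
 (c z e
 (c (a (nat_lit 0x9d468a6760c665)) e
 (c (a (nat_lit 0x14090ff0740e0dc6)) e
 (c z e
 (c z e
 (c z e
 (c (a (nat_lit 0x180b6640e0000005)) e
 (c (a (nat_lit 0x1fab000000000004)) e e))))))))))))))
 (c z
 (c z e
 (c z e
 (c z e
 (c z e
 (c (a (nat_lit 0x1132522c69324ea5)) e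
 (c (a (nat_lit 0x9abcac8e2239006)) e e))))))
 (c (a (nat_lit 0x11a6)) e
 (c (a (nat_lit 0x2020203340a5))
 (c z e
 (c (a (nat_lit 0x445468712ed6805)) e
 (c (a (nat_lit 0x403e3d5eaadb185)) e
 (c z e
 (c z e
 (c (a (nat_lit 0x8e7a7ea2db1c567)) e e))))))
 (c (a (nat_lit 0x202032c14025))
 (c z e
 (c (a (nat_lit 0x4a454d04f92cbc5)) e
 (c z e
 (c z e
 (c (a (nat_lit 0x7478c0db16365c7)) e e)))))
 (c (a (nat_lit 0x1617aa3222285)) e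
 (c (a (nat_lit 0x2fe8322a2c305)) e
 (c (a (nat_lit 0x14040282c30885))
 (c z e
 (c (a (nat_lit 0x1115cbacefe00007)) e e))
 (c (a (nat_lit 0x7c464241b1783))
 (c (a (nat_lit 0x134928a540000007)) e e)
 (c (a (nat_lit 0x1218157b5f664)) e
 (c z e
 (c (a (nat_lit 0xb57f4d6509403)) e
 (c (a (nat_lit 0x126f506aae4343)) e
 (c (a (nat_lit 0xf108ace62e203)) e
 (c (a (nat_lit 0x1ff51c68868662)) e
 (c z e
 (c (a (nat_lit 0x1402202283ac82)) e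
 (c (a (nat_lit 0x1602264d68221)) e e))))))))))))))))))))))) Tr.c Tr.e (nat_lit 0) C.cx C.cy
noncomputable def C457 : Tr := beta% (fun (c : Nat → Tr → Tr → Tr) (e : Tr) (z : Nat) (a b : Nat → Nat) =>
 (c (a (nat_lit 0x4040404041))
 (c (a (nat_lit 0x202020203f64))
 (c z e
 (c z e
 (c z e
 (c z e
 (c z e
 (c (a (nat_lit 0x3092d468666b505)) e
 (c (a (nat_lit 0x971e8a7c7968b05)) e
 (c (a (nat_lit 0x10290a2d314f2065)) e
 (c (a (nat_lit 0xf70537c5369e8c5)) e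
 (c z e
 (c z e
 (c z e
 (c (a (nat_lit 0x172b2bc860000005)) e e)))))))))))))
 (c (a (nat_lit 0x20202031c686))
 (c z e
 (c z e
 (c z e
 (c z e
 (c z e
 (c (a (nat_lit 0x6820489f132a0e6)) e e))))))
 (c (a (nat_lit 0x202030c603e7)) e
 (c (a (nat_lit 0x203105a50367)) e
 (c (a (nat_lit 0x2d5ab46a36386)) e
 (c (a (nat_lit 0x1087c442020646)) e
 (c (a (nat_lit 0x560c06073eda4)) e
 (c (a (nat_lit 0x504444e8e7785))
 (c (a (nat_lit 0x5673625a1840167)) e e)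
 (c z e
 (c z e
 (c z e
 (c z e
 (c z e
 (c z e
 (c z e
 (c z e
 (c z e
 (c (a (nat_lit 0x15176bc0602004)) e
 (c (a (nat_lit 0x178c0060000004)) e e)))))))))))))))))))
 (c (a (nat_lit 0x4040404041))
 (c (a (nat_lit 0x20203c30d005))
 (c z e
 (c z e
 (c z e
 (c z e
 (c (a (nat_lit 0x248162679991c5)) e
 (c (a (nat_lit 0x464046b37d0a8a6)) e e))))))
 (c (a (nat_lit 0x2021eb00eca86)) e
 (c (a (nat_lit 0x9087c824e467)) e
 (c (a (nat_lit 0x13492801e0a3c6)) e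
 (c (a (nat_lit 0xd4ea5e0d37884))
 (c (a (nat_lit 0x2a4a4a1a563f2a6)) e e)
 (c (a (nat_lit 0xb89cbf454a2e5)) e
 (c z e
 (c z e
 (c z e
 (c z e
 (c z e
 (c z e
 (c z e
 (c z e
 (c z e
 (c (a (nat_lit 0x104ee162a18122)) e
 (c (a (nat_lit 0x19404140600001)) e e)))))))))))))))))
 (c (a (nat_lit 0xa0a0a0a0a1))
 (c (a (nat_lit 0xd02666252526)) e
 (c (b (nat_lit 0x17645fe1a1a006))
 (c z e
 (c z e
 (c (a (nat_lit 0x964277c4fd2b866)) e e)))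
 (c (a (nat_lit 0x164e00e0eb8023)) e
 (c z e
 (c z e
 (c z e
 (c z e
 (c z e
 (c z e
 (c z e
 (c z e
 (c z e
 (c z e
 (c z e
 (c (a (nat_lit 0x1044af91488005)) e e)))))))))))))))
 (c (a (nat_lit 0x8080808081))
 (c (a (nat_lit 0xb0a080606002))
 (c (a (nat_lit 0x10cc03a042b60d05)) e e) e)
 (c (a (nat_lit 0xa0a0a0a0a1))
 (c z e
 (c z e
 (c z e
 (c z e
 (c z e
 (c z e
 (c z e
 (c z e
 (c z e
 (c z e
 (c (a (nat_lit 0x47483a6a001)) e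
 (c (a (nat_lit 0x977c2ca00e001)) e e))))))))))))
 (c (a (nat_lit 0x6060606061))
 (c z e
 (c z e
 (c z e
 (c z e
 (c z e
 (c z e
 (c z e
 (c (b (nat_lit 0x1fee64f30a0743)) e
 (c (a (nat_lit 0xb41304744eb03)) e
 (c (a (nat_lit 0x1be9c8546722)) e e))))))))))
 (c (a (nat_lit 0x2020202021))
 (c z e
 (c z e
 (c z e
 (c z e
 (c z e
 (c z e
 (c (a (nat_lit 0x164c3978ec6a63)) e
 (c (a (nat_lit 0x10769670aa5964)) e e))))))))
 (c (a (nat_lit 0x2040202021))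
 (c z e
 (c z e
 (c z e
 (c z e
 (c z e
 (c (a (nat_lit 0x10d2300f2f2305)) e e))))))
 (c (a (nat_lit 0x2020002021))
 (c z e
 (c z e
 (c z e
 (c z e
 (c z e
 (c z e
 (c (a (nat_lit 0x16938200000003)) e
 (c (a (nat_lit 0x12400000000003)) e e))))))))
 (c (a (nat_lit 0x4040404021))
 (c (a (nat_lit 0x4f29b3afd1b64)) e
 (c z e
 (c z e
 (c z e
 (c (a (nat_lit 0x14f4baf2800006)) e
 (c (a (nat_lit 0x15910000000005)) e e))))))
 (c (a (nat_lit 0xa0a0a0a0a1))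
 (c z e
 (c z e
 (c (a (nat_lit 0x16b6d4dc388006)) e
 (c (a (nat_lit 0x14c4a060000003)) e e))))
 (c (a (nat_lit 0x4040404041))
 (c (a (nat_lit 0xe4e0d8dd0cca7)) e
 (c (a (nat_lit 0x1a734424400003)) e
 (c (a (nat_lit 0x1da02000000002)) e e)))
 (c (a (nat_lit 0x20202032c5)) e
 (c (a (nat_lit 0x202032e385)) e
 (c (a (nat_lit 0x32c360c5)) e
 (c (a (nat_lit 0x12a340a025)) e
 (c (a (nat_lit 0x126320602005)) e
 (c (a (nat_lit 0x64160203644)) e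
 (c (a (nat_lit 0x160203675a4)) e
 (c (a (nat_lit 0x3e3fa5995c4)) e e))))))))))))))))))))) Tr.c Tr.e (nat_lit 0) C.cx C.cy
noncomputable def C458 : Tr := beta% (fun (c : Nat → Tr → Tr → Tr) (e : Tr) (z : Nat) (a b : Nat → Nat) =>
 (c (a (nat_lit 0x2020202021))
 (c z
 (c (a (nat_lit 0x7e7e7f34df0c4e4))
 (c z e
 (c z e
 (c z e
 (c z e
 (c z e
 (c z e
 (c z e
 (c z e
 (c z e
 (c z e
 (c (a (nat_lit 0x84948c98e48e65a46)) e e)))))))))))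
 (c (a (nat_lit 0x203fd63f8381e4))
 (c z e
 (c z e
 (c z e
 (c z e
 (c z e
 (c z e
 (c z e
 (c z e
 (c (a (nat_lit 0x52826e92587833947)) e e)))))))))
 (c (a (nat_lit 0x76b55661203205)) e
 (c (a (nat_lit 0x183614638166e5a5))
 (c z e
 (c z e
 (c z e
 (c z e
 (c (a (nat_lit 0x163c34341a525d547)) e
 (c (a (nat_lit 0x3c6e8a1e385146667)) e e))))))
 (c (a (nat_lit 0x15b94944d103e2a4))
 (c z e
 (c z e
 (c (a (nat_lit 0x3c48607eeb5280428)) e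
 (c z e
 (c (a (nat_lit 0x302c12626d3c78c07)) e
 (c z e
 (c z e
 (c z e
 (c (a (nat_lit 0x14e3ea4c8000000007)) e e)))))))))
 (c z e
 (c z e
 (c z e
 (c z e
 (c z e
 (c z e
 (c (a (nat_lit 0xbb26b0a470545e6)) e
 (c (a (nat_lit 0x16cfaeef6a434466)) e e)))))))))))))
 (c z
 (c (a (nat_lit 0x370b6fa5250ca5))
 (c z e
 (c z e
 (c z e
 (c z e
 (c z e
 (c (a (nat_lit 0x263e20384e2d04a08)) e
 (c z e
 (c (a (nat_lit 0xbabec0ea1c5ea7a27)) e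
 (c z e
 (c (a (nat_lit 0x4ec85e6689322d087)) e e))))))))))
 (c (a (nat_lit 0x1b11f081818c8b66)) e
 (c (a (nat_lit 0x181b4a47cc4b99a4))
 (c z e
 (c z e
 (c z e
 (c z e
 (c (a (nat_lit 0x703e28a45c4bf2368)) e e))))) e)))
 (c z
 (c (a (nat_lit 0x6062080930d8de5))
 (c z e
 (c z e
 (c z e
 (c z e
 (c z e
 (c (a (nat_lit 0x84362a0a366cfb1e7)) e e))))))
 (c z e
 (c z e
 (c z e
 (c z e
 (c z e
 (c z e
 (c z e
 (c z e
 (c (a (nat_lit 0xa07c8b064e18406)) e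
 (c (a (nat_lit 0xc4cf088c705e487)) e e)))))))))))
 (c z
 (c z e
 (c z e
 (c z e
 (c z e
 (c z e
 (c z e
 (c z e
 (c z e
 (c (a (nat_lit 0x11fedcd76ba34005)) e e)))))))))
 (c z e
 (c z
 (c z e
 (c z e
 (c z e
 (c z e
 (c z e
 (c (a (nat_lit 0x169691d34b208f25)) e e))))))
 (c (a (nat_lit 0x2020202037e6))
 (c z e
 (c z e
 (c z e
 (c z e
 (c z e
 (c (b (nat_lit 0x22202a9ffee9227)) e e))))))
 (c (a (nat_lit 0x202020334206)) e
 (c (a (nat_lit 0x20203f0383c5))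
 (c (a (nat_lit 0xd0f1234171a72c5)) e e)
 (c (a (nat_lit 0x242584484c286)) e
 (c (a (nat_lit 0x2daa3a461c1e6)) e
 (c (a (nat_lit 0x1ce5a420a09625)) e
 (c (a (nat_lit 0x48440a09614a5))
 (c (a (nat_lit 0x156ac37260000006)) e e)
 (c (a (nat_lit 0x1c020304f9286)) e e))))))))))))))
 (c (a (nat_lit 0xa0a0a0a0a1))
 (c z
 (c (a (nat_lit 0x15c9cb43636e4f43))
 (c z e
 (c z e
 (c z e
 (c z e
 (c z e
 (c z e
 (c z e
 (c (a (nat_lit 0xb2eed4765c91d1485)) e e))))))))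
 (c (a (nat_lit 0x9eae2c2d5d4ec64))
 (c z e
 (c z e
 (c z e
 (c z e
 (c z e
 (c (a (nat_lit 0x369c268f0e47dc846)) e e))))))
 (c (a (nat_lit 0x8054547e804b1c5))
 (c z e
 (c z e
 (c z e
 (c z e
 (c (a (nat_lit 0x1a1020881720544a8)) e e))))) e)))
 (c z
 (c z e
 (c z e
 (c z e
 (c z e
 (c z e
 (c z e
 (c z e
 (c z e
 (c z e
 (c (a (nat_lit 0xcf1cc290463c407)) e e))))))))))
 (c z e
 (c z e
 (c (a (nat_lit 0x202020203426)) e
 (c (a (nat_lit 0x20202033e326)) e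
 (c (a (nat_lit 0x20203fa4c425)) e
 (c (a (nat_lit 0x1e1f984034065)) e
 (c (a (nat_lit 0x192e342e1a1c6)) e
 (c (a (nat_lit 0x14e160e0202b86)) e
 (c (a (nat_lit 0x2012040373725)) e
 (c (a (nat_lit 0x100202feff006))
 (c (a (nat_lit 0x19d22e2000000006)) e e) e))))))))))))
 (c (nat_lit 1)
 (c z
 (c z e
 (c z e
 (c z e
 (c z e
 (c z e
 (c z e
 (c z e
 (c z e
 (c (a (nat_lit 0xd5ef7fa342dec24)) e
 (c (a (nat_lit 0xf2c135133308085)) e e))))))))))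
 (c z
 (c z e
 (c z e
 (c z e
 (c z e
 (c z e
 (c z e
 (c (a (nat_lit 0x46cd02464e95586)) e e)))))))
 (c (a (nat_lit 0x202020203765))
 (c z e
 (c z e
 (c z e
 (c z e
 (c z e
 (c (a (nat_lit 0xd85afade94b9926)) e e))))))
 (c (a (nat_lit 0x2020203264a6)) e
 (c (a (nat_lit 0x20203d072346)) e
 (c (a (nat_lit 0x2c2d227234006)) e
 (c (a (nat_lit 0x57c6ba6210125)) e
 (c (a (nat_lit 0x11e54160203106)) e
 (c (a (nat_lit 0x2c1c020317046)) e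
 (c (a (nat_lit 0x2204051b08f46)) e e))))))))))
 C457)))) Tr.c Tr.e (nat_lit 0) C.cx C.cy
noncomputable def C459 : Tr := beta% (fun (c : Nat → Tr → Tr → Tr) (e : Tr) (z : Nat) (a b : Nat → Nat) =>
 (c z
 (c (a (nat_lit 0xc0c0c0c0d084e4))
 (c z e
 (c z e
 (c z e
 (c z e
 (c z e
 (c z e
 (c z e
 (c z e
 (c z e
 (c z e
 (c z e
 (c (a (nat_lit 0x7e7c866c66c308606)) e e))))))))))))
 (c (a (nat_lit 0x20202033e88c45)) e
 (c (a (nat_lit 0x3c3c3dbf32fc045)) e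
 (c (a (nat_lit 0x60714c0982c286)) e
 (c (a (nat_lit 0x70ab4c84430906))
 (c z e
 (c z e
 (c z e
 (c z e
 (c (a (nat_lit 0x3c523a52506663187)) e e)))))
 (c (a (nat_lit 0x188f9064444f8c85)) e
 (c (a (nat_lit 0x78a6284f0ef6c25)) e
 (c (a (nat_lit 0xa630315d215d165))
 (c (a (nat_lit 0x801c666a66195cf86)) e e)
 (c z e
 (c z e
 (c z e
 (c z e
 (c z e
 (c (a (nat_lit 0xf54cfee86a3e146)) e
 (c z e
 (c (a (nat_lit 0xcc751e80585e784)) e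
 (c z e
 (c (a (nat_lit 0x1a44a081a4e6c5c3)) e e))))))))))))))))))
 (c z
 (c (a (nat_lit 0x404050284b8024))
 (c z e
 (c z e
 (c z e
 (c z e
 (c z e
 (c z e
 (c z e
 (c z e
 (c z e
 (c z e
 (c (a (nat_lit 0x4646344c582e3f507)) e e)))))))))))
 (c (a (nat_lit 0x2e2f6110d204065)) e
 (c (a (nat_lit 0x1db74af2706ee05))
 (c z e
 (c z e
 (c z e
 (c z e
 (c z e
 (c (a (nat_lit 0xb2851e7a3c0e23006)) e
 (c z e
 (c z e
 (c (a (nat_lit 0x2e4c4c1c75350c828)) e e)))))))))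
 (c (a (nat_lit 0x1ad2f38663edad45))
 (c z e
 (c z e
 (c z e
 (c z e
 (c (a (nat_lit 0xcddada5440f50be65)) e e)))))
 (c (a (nat_lit 0xdb0056a75d53504))
 (c z e
 (c z e
 (c (a (nat_lit 0xa0fca51b10c60aec7)) e e)))
 (c z e
 (c z e
 (c z e
 (c z e
 (c z e
 (c z e
 (c z e
 (c z e
 (c z e
 (c (a (nat_lit 0x17ce00e8c0e14104)) e
 (c z e
 (c (a (nat_lit 0x1b0c26424818363)) e e)))))))))))))))))
 (c z
 (c (a (nat_lit 0x54e6d27c2c2d785))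
 (c z e
 (c z e
 (c z e
 (c z e
 (c z e
 (c z e
 (c (a (nat_lit 0xb502f48afaef67e25)) e
 (c (a (nat_lit 0x5e5a1a5e584b24a27)) e
 (c (a (nat_lit 0x3e265c5454347b967)) e e)))))))))
 (c (a (nat_lit 0x179346a0607449c5)) e
 (c (a (nat_lit 0xa09c2e2d5953545))
 (c z e
 (c z e
 (c (a (nat_lit 0x305a4750d6ba644c7)) e
 (c z e
 (c (a (nat_lit 0x3b90604e85cd48b26)) e e)))))
 (c (a (nat_lit 0x9234356d4522b45)) e
 (c z e
 (c z e
 (c z e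
 (c z e
 (c z e
 (c (a (nat_lit 0x9e9cf36c9e62405)) e
 (c z e
 (c (a (nat_lit 0x135bdc1914d18925)) e
 (c (b (nat_lit 0x13cf0d3fe904d325)) e e)))))))))))))
 (c z
 (c (a (nat_lit 0xb89470964041e84))
 (c z e
 (c z e
 (c z e
 (c z e
 (c z e
 (c (a (nat_lit 0x60684608552090667)) e
 (c (a (nat_lit 0x407226610102b4ba7)) e e)))))))
 (c z e
 (c z e
 (c z e
 (c z e
 (c z e
 (c z e
 (c z e
 (c (a (nat_lit 0xe37789bf46e49c4)) e
 (c z e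
 (c z e
 (c z e
 (c (a (nat_lit 0x12edf2acfd7c5064)) e e)))))))))))))
 (c z e
 (c z e
 (c z
 (c z e
 (c z e
 (c z e
 (c z e
 (c (a (nat_lit 0x9b256722f8a2ae5)) e e)))))
 (c z
 (c z e
 (c z e
 (c (a (nat_lit 0x6862728904f8ee5)) e e)))
 (c (a (nat_lit 0x11a5))
 (c (a (nat_lit 0xa490b0db7317a04)) e e)
 (c (a (nat_lit 0xa0a0a0b8e345))
 (c (a (nat_lit 0x321ed3008e97224)) e
 (c z e
 (c z e
 (c z e
 (c z e
 (c z e
 (c (a (nat_lit 0xf5447c000000004)) e e)))))))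
 (c (a (nat_lit 0x2c2c2dd6423a5))
 (c z e
 (c z e
 (c z e
 (c z e
 (c z e
 (c (a (nat_lit 0x13ade00000000004)) e e))))))
 (c (a (nat_lit 0x16171e3e2a125)) e
 (c (a (nat_lit 0x2d26562a0c0e5))
 (c (a (nat_lit 0x972e42140818007)) e e)
 (c (a (nat_lit 0x1fe62481413644)) e
 (c (a (nat_lit 0x5044121165564)) e
 (c (a (nat_lit 0x3006070afdea4)) e e))))))))))))))))) Tr.c Tr.e (nat_lit 0) C.cx C.cy
noncomputable def C460 : Tr := beta% (fun (c : Nat → Tr → Tr → Tr) (e : Tr) (z : Nat) (a b : Nat → Nat) =>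
 (c (a (nat_lit 0x6060606061))
 (c z
 (c z
 (c z e
 (c (a (nat_lit 0x626272582c28238a2)) e
 (c (a (nat_lit 0x4a40424a080973563)) e
 (c (a (nat_lit 0x1e2e2c0a06b0af9a3)) e e))))
 (c z
 (c (a (nat_lit 0x78a49c765243bdfe3)) e
 (c (a (nat_lit 0x704c5806050101ae5))
 (c z e
 (c z e
 (c z e
 (c z e
 (c z e
 (c z e
 (c z e
 (c (a (nat_lit 0x4e604c283028426b307)) e
 (c (a (nat_lit 0x366c3a20403da6e02a7)) e e)))))))))
 (c (a (nat_lit 0x5e541412d2e1c1485)) e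
 (c z e
 (c z e
 (c z e
 (c z e
 (c z e
 (c z e
 (c z e
 (c z e
 (c z e
 (c (a (nat_lit 0xb1431106dcda062c4)) e
 (c (a (nat_lit 0x86589eaaaea67ff25)) e
 (c z e
 (c (a (nat_lit 0x6c82bee2f8f0fff66)) e e))))))))))))))))
 (c z
 (c (a (nat_lit 0x9c9a443faf8fdad84)) e
 (c z e
 (c z e
 (c z e
 (c z e
 (c z e
 (c z e
 (c z e
 (c z e
 (c z e
 (c z e
 (c z e
 (c (a (nat_lit 0x304e6288888913f06)) e e)))))))))))))
 (c (a (nat_lit 0x282828282829aa2)) e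
 (c (a (nat_lit 0x3a3a3a3a3b24a42)) e
 (c (a (nat_lit 0x202020370ea684)) e
 (c (a (nat_lit 0x404059d0d06664))
 (c z e
 (c z e
 (c z e
 (c z e
 (c z e
 (c z e
 (c (a (nat_lit 0xac76569cd2cc9f386)) e e)))))))
 (c (a (nat_lit 0x101174bab45c5e4)) e
 (c (a (nat_lit 0x3a6b2c45a56764))
 (c z e
 (c z e
 (c (a (nat_lit 0x807ca28094909f266)) e
 (c (a (nat_lit 0x626c628c7a8ebd286)) e
 (c z e
 (c (a (nat_lit 0x76863e2e0d94909c6)) e e))))))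
 (c (a (nat_lit 0x1fab8ae0e0cc2663)) e
 (c (a (nat_lit 0x1c400a268c81044))
 (c z e
 (c (a (nat_lit 0x64688276bc5b46b06)) e e))
 (c (a (nat_lit 0x200e1a9a8320f04)) e
 (c z e
 (c z e
 (c (a (nat_lit 0x989324988e76705)) e
 (c (a (nat_lit 0xd76ee2dae8c00a5)) e
 (c (a (nat_lit 0x16ee2dce2bcb2265)) e e)))))))))))))))))
 (c z
 (c z
 (c (a (nat_lit 0x4054504a429aa9145)) e
 (c (a (nat_lit 0x38120e0e889500ac6))
 (c z e
 (c z e
 (c z e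
 (c z e
 (c z e
 (c z e
 (c (a (nat_lit 0x4846644c46561701328)) e
 (c (a (nat_lit 0x72581e1c36532d754a7)) e
 (c (a (nat_lit 0x4824101a2b349a483a8)) e e)))))))))
 (c z e
 (c z e
 (c z e
 (c z e
 (c z e
 (c z e
 (c z e
 (c z e
 (c z e
 (c z e
 (c (a (nat_lit 0x7e888a80826a59026)) e e)))))))))))))
 (c (a (nat_lit 0xa0a0a0a0a0b9c5))
 (c z e
 (c z e
 (c z e
 (c z e
 (c z e
 (c z e
 (c z e
 (c z e
 (c (a (nat_lit 0x3822f4526ebc636c5)) e e)))))))))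
 (c (a (nat_lit 0xa0a0a0a0b74a65)) e
 (c (a (nat_lit 0x60606070a92606))
 (c z e
 (c z e
 (c z e
 (c z e
 (c z e
 (c (a (nat_lit 0x16c265c8e50cac8ae5)) e e))))))
 (c (a (nat_lit 0x202037cd08e366))
 (c z e
 (c z e
 (c z e
 (c z e
 (c z e
 (c (a (nat_lit 0x887506aa68a7c4a6)) e
 (c (a (nat_lit 0xc76c82d6aef862ae6)) e e)))))))
 (c (a (nat_lit 0x10119af2ee604c6))
 (c z e
 (c z e
 (c z e
 (c z e
 (c (a (nat_lit 0x667e5a91a7e943006)) e e)))))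
 (c (a (nat_lit 0x37aedede7e7e8a6)) e
 (c (a (nat_lit 0x19ca6ae3a3a5e606))
 (c z e
 (c (a (nat_lit 0x201a121a0eb164207)) e e))
 (c (a (nat_lit 0x9ea4082eac9b285)) e e)))))))))
 C459))
 (c (a (nat_lit 0x2020202021))
 (c z
 (c (a (nat_lit 0x40404040405423))
 (c (a (nat_lit 0x928ea4a4dce51d1c4)) e
 (c z e
 (c z e
 (c z e
 (c z e
 (c z e
 (c z e
 (c z e
 (c z e
 (c z e
 (c z e
 (c (a (nat_lit 0x98b8ae9e6864a9ae6)) e
 (c (a (nat_lit 0xb0a2989682871ece6)) e e)))))))))))))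
 (c (a (nat_lit 0x404040405468a5))
 (c z e
 (c z e
 (c z e
 (c z e
 (c z e
 (c z e
 (c z e
 (c z e
 (c (a (nat_lit 0xbd10f0b2e0b1b6885)) e e)))))))))
 (c (a (nat_lit 0x808080968b4905))
 (c z e
 (c z e
 (c z e
 (c z e
 (c z e
 (c z e
 (c z e
 (c (a (nat_lit 0x7ec29e96b586e2366)) e e))))))))
 (c (a (nat_lit 0x20203249078166)) e
 (c (a (nat_lit 0x6e6f0acaba88867)) e
 (c (a (nat_lit 0x458b0904867a886)) e
 (c (a (nat_lit 0x116888032302a306)) e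
 (c (a (nat_lit 0x14144bab6f8ea5e5)) e
 (c (a (nat_lit 0xd0489ae4e51c7c5)) e e)))))))))
 (c z
 (c (a (nat_lit 0x172c6f05))
 (c z e
 (c z e
 (c z e
 (c z e
 (c z e
 (c z e
 (c z e
 (c z e
 (c (a (nat_lit 0x985a6c4aad30120a6)) e
 (c z e
 (c (a (nat_lit 0xb0a0bcac9d2c807a7)) e
 (c z e
 (c (a (nat_lit 0x646446d72d9986f28)) e e)))))))))))))
 (c (a (nat_lit 0x202039ed8ee026))
 (c z e
 (c z e
 (c z e
 (c z e
 (c z e
 (c z e
 (c (a (nat_lit 0x6290ac970e824c027)) e e)))))))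
 (c (a (nat_lit 0x6071ab4ae181a7)) e
 (c (a (nat_lit 0x31ecec438343a7)) e
 (c (a (nat_lit 0x1cf31545e4a5c486)) e
 (c (a (nat_lit 0x19160c0becca00e5)) e e))))))
 (c z
 (c (a (nat_lit 0x101186dae602045)) e
 (c (a (nat_lit 0x100a2940a0c927))
 (c z e
 (c z e
 (c z e
 (c z e
 (c z e
 (c z e
 (c z e
 (c (a (nat_lit 0x4898903e621f3ada7)) e e))))))))
 (c (a (nat_lit 0x1ab0cd6101284906)) e
 (c (a (nat_lit 0x1b1b29a71afb51e5)) e
 (c z e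
 (c z e
 (c z e
 (c z e
 (c z e
 (c z e
 (c z e
 (c (a (nat_lit 0x11d06f6de6c60027)) e
 (c z e
 (c (a (nat_lit 0xe6f7070a8484aa6)) e e))))))))))))))
 (c z
 (c (a (nat_lit 0x110aa860a0c906a6))
 (c z e
 (c z e
 (c z e
 (c z e
 (c z e
 (c (a (nat_lit 0x2834506c4a687b187)) e
 (c (a (nat_lit 0x64b4c6767a926b785)) e e)))))))
 (c (a (nat_lit 0x1bba4c6c39c88d45)) e
 (c z e
 (c z e
 (c z e
 (c z e
 (c z e
 (c z e
 (c z e
 (c z e
 (c (a (nat_lit 0x12f4cfeac8c1e026)) e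
 (c (b (nat_lit 0x12d718dff0aaeec6)) e e))))))))))))
 (c z
 (c (a (nat_lit 0x1550930c2d176f65)) e
 (c z e
 (c z e
 (c z e
 (c z e
 (c z e
 (c z e
 (c z e
 (c (b (nat_lit 0x24a737ff718a5a5)) e e)))))))))
 (c z e
 (c z e
 (c z
 (c z e
 (c z e
 (c z e
 (c (a (nat_lit 0x17147e5db1894ca4)) e e))))
 (c (a (nat_lit 0x202020203ee6)) e
 (c (a (nat_lit 0x2020203ae4e6)) e
 (c (a (nat_lit 0x202030c2e267)) e
 (c (a (nat_lit 0x20320221e047)) e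
 (c (a (nat_lit 0x2dc47c6a34366)) e
 (c (a (nat_lit 0x1a670460a0e9c6))
 (c (a (nat_lit 0x106ee3c363a00008)) e e)
 (c (a (nat_lit 0x8476040327325)) e
 (c (a (nat_lit 0x4c1212f8ff206)) e e))))))))))))))))
 C458))) Tr.c Tr.e (nat_lit 0) C.cx C.cy
noncomputable def C461 : Tr := beta% (fun (c : Nat → Tr → Tr → Tr) (e : Tr) (z : Nat) (a b : Nat → Nat) =>
 (c (a (nat_lit 0x20200001))
 (c (a (nat_lit 0x203c906448a5))
 (c z e
 (c z e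
 (c z e
 (c (a (nat_lit 0x482862b6c558866)) e e))))
 (c (a (nat_lit 0x172670525e5e7))
 (c z e
 (c (a (nat_lit 0xb70f551b299b388)) e
 (c z e
 (c z e
 (c z e
 (c z e
 (c (a (nat_lit 0x15488c4fad46c008)) e e)))))))
 (c (a (nat_lit 0x1a1108e8e8e366))
 (c (a (nat_lit 0xd3d8e8f371c0d86)) e
 (c z e
 (c z e
 (c z e
 (c z e
 (c (a (nat_lit 0xff36168c2400007)) e e))))))
 (c (a (nat_lit 0x149193130a9065)) e
 (c z e
 (c z e
 (c z e
 (c (a (nat_lit 0xdf0cdc8e8c506)) e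
 (c (a (nat_lit 0x100d08484a6406)) e
 (c z e
 (c z e
 (c z e
 (c (a (nat_lit 0xafa3056163525)) e e)))))))))))))
 (c (a (nat_lit 0x20002001))
 (c (a (nat_lit 0x1d490c0c0c0645))
 (c (a (nat_lit 0xa91b2adaf4ebcc5)) e
 (c (a (nat_lit 0x5476445452b3b87)) e
 (c z e
 (c z e
 (c z e
 (c (a (nat_lit 0x9ace8d09aefa7a7)) e
 (c (a (nat_lit 0x9ec74cba9800007)) e e)))))))
 (c (a (nat_lit 0x133572726aab45))
 (c (a (nat_lit 0xe6847c76cb6b806)) e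
 (c (a (nat_lit 0x4e625e98e362167)) e
 (c z e
 (c z e
 (c (a (nat_lit 0x7cae8d173682008)) e
 (c (a (nat_lit 0x1e58d56e40000007)) e e))))))
 (c z e
 (c z e
 (c z e
 (c (a (nat_lit 0x12ab88a08042e5)) e
 (c (a (nat_lit 0x1e5b5413cd1245)) e
 (c z e
 (c z e
 (c z e
 (c (a (nat_lit 0x6d4b37373f125)) e
 (c (a (nat_lit 0x17b65656f43685)) e
 (c (a (nat_lit 0x13b3f49193f625)) e e)))))))))))))
 (c (a (nat_lit 0x4040404041))
 (c (a (nat_lit 0x15c989c1b2a003))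
 (c (a (nat_lit 0x3408061627426e5)) e
 (c (b (nat_lit 0x1e15fe336c115a6)) e
 (c z e
 (c (a (nat_lit 0x16a534f8f754586)) e
 (c (a (nat_lit 0xb304f320a800006)) e
 (c (a (nat_lit 0x1cd4540000000005)) e e))))))
 (c z e
 (c z e
 (c (a (nat_lit 0x163b397695d5e4)) e
 (c (a (nat_lit 0x197815d5723d64)) e
 (c (a (nat_lit 0x104fafaac62606)) e
 (c z e
 (c z e
 (c (b (nat_lit 0x1ff76d49a5a023)) e
 (c (a (nat_lit 0x180e0ac6008083)) e
 (c (a (nat_lit 0x1bd50b80820202)) e e)))))))))))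
 (c (a (nat_lit 0x4040204041))
 (c z e
 (c (a (nat_lit 0x12212d40a04903))
 (c (a (nat_lit 0x18f5946e2ba3e007)) e e)
 (c (a (nat_lit 0x779f473d41284)) e
 (c z e
 (c z e
 (c z e
 (c (a (nat_lit 0x262016a3a03)) e
 (c (a (nat_lit 0x7c86931e72823)) e
 (c (a (nat_lit 0x180f380a22002)) e e)))))))))
 (c (nat_lit 1)
 (c (a (nat_lit 0x6ad60c088da42))
 (c (a (nat_lit 0x13e7456381000007)) e e)
 (c z e
 (c z e
 (c z e
 (c (a (nat_lit 0x2694d3115d44)) e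
 (c (b (nat_lit 0x1fe64d2cccfd05)) e
 (c (a (nat_lit 0x1a3bf91b391543)) e
 (c z e
 (c z e
 (c (a (nat_lit 0x17f3a706600001)) e e))))))))))
 (c (a (nat_lit 0x80a0a08061))
 (c z e
 (c z e
 (c (b (nat_lit 0x1ffff068217723)) e
 (c (a (nat_lit 0x447ae4d6dfa46)) e
 (c z e
 (c z e
 (c z e
 (c (a (nat_lit 0x8ee90cec8c005)) e
 (c (a (nat_lit 0x177cabe0000004)) e
 (c (a (nat_lit 0x10c00000000004)) e e))))))))))
 (c (a (nat_lit 0x8080808081))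
 (c (a (nat_lit 0x2b14ac06981)) e
 (c (a (nat_lit 0x86a765c55565)) e
 (c z e
 (c z e
 (c z e
 (c (a (nat_lit 0x84850efcc6885)) e
 (c (a (nat_lit 0x7193587a00004)) e
 (c (a (nat_lit 0x1fede000000004)) e e))))))))
 (c (a (nat_lit 0x8080808061))
 (c (a (nat_lit 0x1749c7bfb3dc4)) e
 (c z e
 (c z e
 (c (a (nat_lit 0xa2a2aeb10ed06)) e
 (c (a (nat_lit 0xbedcd59296005)) e
 (c (a (nat_lit 0x18d7cda0000004)) e
 (c (a (nat_lit 0x14200000000003)) e e)))))))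
 (c (nat_lit 1)
 (c z e
 (c (a (nat_lit 0x10f0f130f05366)) e
 (c (a (nat_lit 0x12b3131315d066)) e
 (c (a (nat_lit 0x14b3e040200003)) e
 (c (a (nat_lit 0x13e02000000003)) e e)))))
 (c (a (nat_lit 0x6060606061))
 (c (a (nat_lit 0x1c1c7bdb7bb906)) e
 (c (a (nat_lit 0x1b1580a0202003)) e
 (c (a (nat_lit 0x15608020000003)) e
 (c (a (nat_lit 0x2200000000001)) e e))))
 (c (a (nat_lit 0x2020202021)) e
 (c (a (nat_lit 0x2020203023)) e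
 (c (a (nat_lit 0x2020304ea3)) e
 (c (a (nat_lit 0x20302eb823)) e
 (c (a (nat_lit 0xead768163)) e
 (c (a (nat_lit 0xc8b54802003)) e
 (c (a (nat_lit 0xb5480202083)) e
 (c (a (nat_lit 0x158080818303)) e
 (c z e
 (c z e
 (c z e
 (c (a (nat_lit 0xb12c140a0a2)) e
 (c (a (nat_lit 0x1220c0400002)) e e)))))))))))))))))))))))) Tr.c Tr.e (nat_lit 0) C.cx C.cy
noncomputable def C462 : Tr := beta% (fun (c : Nat → Tr → Tr → Tr) (e : Tr) (z : Nat) (a b : Nat → Nat) =>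
 (c (a (nat_lit 0xa0a0a0a0a1))
 (c z
 (c (a (nat_lit 0x1413939469e34023)) e
 (c z e
 (c (a (nat_lit 0x1d4f3a0545846323))
 (c z e
 (c (a (nat_lit 0xdf00eaa8aec88f028)) e e))
 (c (a (nat_lit 0x84aa42060223185))
 (c z e
 (c (a (nat_lit 0x162f2cd286cf6c24c8)) e
 (c (a (nat_lit 0x184c8e6a8c7cd273e7)) e e)))
 (c (a (nat_lit 0x823422225106525))
 (c (a (nat_lit 0x14541346876382e2a7)) e
 (c (a (nat_lit 0x13504406a90e64a187)) e e))
 (c (a (nat_lit 0x4a5e549b8300004)) e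
 (c z e
 (c z e
 (c (a (nat_lit 0xa14310df17231a5)) e
 (c (a (nat_lit 0x1592f0f83812ece5)) e
 (c (a (nat_lit 0x9eaf0ce6b8b85c6)) e
 (c z e
 (c z e
 (c (a (nat_lit 0x1bfd19ea6fd0a9e4)) e
 (c (a (nat_lit 0x19b6a76ca6c00004)) e
 (c (a (nat_lit 0x15a665e000000004)) e e))))))))))))))))
 (c z
 (c (a (nat_lit 0x1e3a728685c62584))
 (c (a (nat_lit 0xe4c2a4dcce91234e7)) e
 (c z e
 (c z e
 (c z e
 (c z e
 (c z e
 (c (a (nat_lit 0x4393b2d2d12274008)) e e)))))))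
 (c (a (nat_lit 0x153741498929ce84)) e
 (c (a (nat_lit 0x50180402144b0c7)) e
 (c z e
 (c z e
 (c z e
 (c z e
 (c z e
 (c z e
 (c z e
 (c z e
 (c z e
 (c (a (nat_lit 0xaa0ddbf81996005)) e
 (c (a (nat_lit 0x1cfb74080000003)) e e))))))))))))))
 (c z
 (c (a (nat_lit 0xf656867a8311764)) e
 (c z e
 (c z e
 (c z e
 (c z e
 (c z e
 (c z e
 (c z e
 (c z e
 (c z e
 (c z e
 (c (a (nat_lit 0xb8b72880e200005)) e e))))))))))))
 (c (a (nat_lit 0x202020203605))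
 (c z e
 (c (a (nat_lit 0x21e96be8747747))
 (c z e
 (c (a (nat_lit 0x117899b2d38c600008)) e e))
 (c (a (nat_lit 0x5cb4b8a586cd3c7))
 (c (a (nat_lit 0x16153528e560000007)) e e)
 (c z e
 (c z e
 (c z e
 (c z e
 (c (a (nat_lit 0xa66cab09024b8e7)) e e))))))))
 (c (a (nat_lit 0x20202035a0c5))
 (c (a (nat_lit 0x264a3a2a3d1ea07)) e
 (c (a (nat_lit 0xa88a384fb9270a6))
 (c (a (nat_lit 0x10466503c000000007)) e e)
 (c z e
 (c z e
 (c z e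
 (c (a (nat_lit 0xda5a96d916a0ea7)) e
 (c (a (nat_lit 0x2e5892c6672e968)) e e)))))))
 (c (a (nat_lit 0x38383996ee164))
 (c (a (nat_lit 0x13266867514fba04)) e
 (c z e
 (c z e
 (c (a (nat_lit 0x18a4e6a8e707286)) e
 (c (a (nat_lit 0xb14b52cb97a91c6)) e
 (c (a (nat_lit 0x5c584a730c2c628)) e e))))))
 (c (a (nat_lit 0x585902d854305)) e
 (c (a (nat_lit 0x194c443208085)) e
 (c (a (nat_lit 0x17652542222de5))
 (c z e
 (c z e
 (c (a (nat_lit 0x553aa89e1400008)) e e)))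
 (c (a (nat_lit 0x2e3a0604bf125))
 (c (a (nat_lit 0xe5096a27062e006)) e
 (c (a (nat_lit 0x15aa474520000008)) e e))
 (c (a (nat_lit 0x4602034d9b6a5))
 (c (a (nat_lit 0x182e870000000005)) e e)
 (c z e
 (c z e
 (c (a (nat_lit 0x193f9a98579724)) e
 (c (a (nat_lit 0x13aecc8bcb8b64)) e
 (c (a (nat_lit 0x183432b2120963)) e
 (c z e
 (c z e
 (c (a (nat_lit 0x1f5c8e63a20242)) e
 (c (a (nat_lit 0x19ac0140802002)) e
 (c (a (nat_lit 0x17a200e0000001)) e e)))))))))))))))))))))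
 (c (a (nat_lit 0x4040404041))
 (c z
 (c (a (nat_lit 0x152f268b8baba843))
 (c z e
 (c (a (nat_lit 0x4e32161c38bb1c567)) e
 (c z e
 (c z e
 (c z e
 (c (a (nat_lit 0x52f318502e5832127)) e
 (c (a (nat_lit 0x1753724e8d45400006)) e e)))))))
 (c (a (nat_lit 0x6c0a3e464641ba5)) e
 (c z e
 (c z e
 (c z e
 (c z e
 (c (a (nat_lit 0x4588f69ca8aeb05)) e
 (c z e
 (c (a (nat_lit 0x1895b919f715ad65)) e
 (c z e
 (c z e
 (c (a (nat_lit 0x102f3213d4f47fa6)) e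
 (c (a (nat_lit 0xf960a2c69800005)) e
 (c (a (nat_lit 0x1ec6858000000004)) e e))))))))))))))
 (c (a (nat_lit 0x10e4))
 (c z e
 (c z e
 (c z e
 (c z e
 (c z e
 (c z e
 (c z e
 (c z e
 (c z e
 (c z e
 (c (a (nat_lit 0x543acad8e794007)) e e)))))))))))
 (c (a (nat_lit 0x20202035a905)) e
 (c (a (nat_lit 0x2020366160a6)) e
 (c (a (nat_lit 0x56571ec66e0c5)) e
 (c (a (nat_lit 0x5dd184a616144))
 (c z e
 (c (a (nat_lit 0x3048584a2c5f448)) e e))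
 (c (a (nat_lit 0x11050520202de5))
 (c (a (nat_lit 0x5884503e411fcc7)) e
 (c (a (nat_lit 0x566446673efe1a8)) e e))
 (c (a (nat_lit 0x78a00a09d3be4)) e
 (c z e
 (c z e
 (c z e
 (c (a (nat_lit 0x1597b5f6567646)) e
 (c (a (nat_lit 0x1cb5d85877f4e4)) e
 (c (a (nat_lit 0x5e7070726b025)) e
 (c z e
 (c z e
 (c z e
 (c (a (nat_lit 0x53a2ea080a0c4)) e
 (c (a (nat_lit 0x194da020200004)) e e)))))))))))))))))))
 (c (nat_lit 1)
 (c (a (nat_lit 0x16161617ad2e4))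
 (c z e
 (c z e
 (c z e
 (c z e
 (c z e
 (c z e
 (c (b (nat_lit 0xe25cdbff48286e5)) e
 (c z e
 (c z e
 (c z e
 (c (a (nat_lit 0x768ad4b76400006)) e e)))))))))))
 (c (a (nat_lit 0xc0c0df1084c6)) e
 (c (a (nat_lit 0x3de9a6c766)) e
 (c (a (nat_lit 0x57f1b0a690905)) e
 (c (a (nat_lit 0x1775c464846005))
 (c (a (nat_lit 0x46244a3e2c41147)) e e)
 (c (a (nat_lit 0x1a383777765364))
 (c (a (nat_lit 0x94563e04eda0a87)) e e)
 (c z e
 (c z e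
 (c z e
 (c (a (nat_lit 0xe9493133312e6)) e
 (c (a (nat_lit 0x12b1311130ea46)) e
 (c (a (nat_lit 0x2c2e261b6eda2)) e
 (c z e
 (c z e
 (c z e
 (c z e
 (c (a (nat_lit 0x8d2c8c124a003)) e e)))))))))))))))))
 C461)))) Tr.c Tr.e (nat_lit 0) C.cx C.cy
noncomputable def C463 : Tr := beta% (fun (c : Nat → Tr → Tr → Tr) (e : Tr) (z : Nat) (a b : Nat → Nat) =>
 (c z
 (c (a (nat_lit 0x24242425b668404)) e
 (c (a (nat_lit 0x202030e4c30186))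
 (c z e
 (c z e
 (c z e
 (c z e
 (c z e
 (c z e
 (c z e
 (c (a (nat_lit 0x18fd10adaee8e58986)) e
 (c (a (nat_lit 0x1e10cc2dec26c8e646)) e e)))))))))
 (c (a (nat_lit 0x203f10ee422145))
 (c z e
 (c z e
 (c z e
 (c z e
 (c z e
 (c z e
 (c (a (nat_lit 0xcab2926e8657058a6)) e e)))))))
 (c (a (nat_lit 0x3b90aea3a17345)) e
 (c (a (nat_lit 0x17ccc604a3ae6065))
 (c z e
 (c z e
 (c z e
 (c z e
 (c (a (nat_lit 0x261a340a068f0eac7)) e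
 (c z e
 (c (a (nat_lit 0x84b83a3d3b3aeed67)) e e)))))))
 (c (a (nat_lit 0x78565a4b009c5e5))
 (c z e
 (c z e
 (c z e
 (c z e
 (c (a (nat_lit 0x6c841a1f5828817a7)) e
 (c (a (nat_lit 0xcc302cf35b0d30f27)) e e))))))
 (c z e
 (c z e
 (c z e
 (c z e
 (c z e
 (c z e
 (c (a (nat_lit 0x12902e08e8e90306)) e e)))))))))))))
 (c z
 (c (a (nat_lit 0x384a4725e5e5))
 (c z e
 (c (a (nat_lit 0x4305e425870ff028)) e
 (c z e
 (c z e
 (c z e
 (c z e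
 (c z e
 (c (a (nat_lit 0x11ed46a5ce48a749a7)) e
 (c (a (nat_lit 0xb234529c865a1f107)) e
 (c (a (nat_lit 0x1a50c12c40409e6c7)) e
 (c z e
 (c (a (nat_lit 0x66968b30582a2c008)) e e))))))))))))
 (c (a (nat_lit 0x11cd1af06462d06))
 (c (a (nat_lit 0x2e4652666af506c88)) e
 (c z e
 (c z e
 (c z e
 (c z e
 (c (a (nat_lit 0x14716eaa67840c2e07)) e
 (c z e
 (c z e
 (c z e
 (c z e
 (c (a (nat_lit 0x807d1e862a3200009)) e e)))))))))))
 (c (a (nat_lit 0x176a08e382ed2726)) e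
 (c (a (nat_lit 0x104c2e2e3a058025))
 (c z e
 (c z e
 (c z e
 (c (a (nat_lit 0xdab09a5ac177e75c7)) e e))))
 (c (b (nat_lit 0xdb1165cf7f3dfe5))
 (c z e
 (c (a (nat_lit 0x688e99e2b883a05c9)) e e))
 (c z e
 (c (a (nat_lit 0x2ed26d47a1eba5)) e
 (c z e
 (c z e
 (c z e
 (c z e
 (c (a (nat_lit 0x141854f25ad48126)) e
 (c z e
 (c z e
 (c (a (nat_lit 0x6cf7227c0606166)) e
 (c z e
 (c (a (nat_lit 0x11c7a08061804006)) e e)))))))))))))))))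
 (c z
 (c (a (nat_lit 0x15d0ae62826924a5))
 (c z e
 (c z e
 (c z e
 (c z e
 (c (a (nat_lit 0x44a05e4a4a8d22aa8)) e
 (c (a (nat_lit 0x118e2da8822cb34b66)) e
 (c z e
 (c z e
 (c z e
 (c (a (nat_lit 0x8e78b2f0c17886007)) e
 (c (a (nat_lit 0x59fea246260000007)) e e)))))))))))
 (c (b (nat_lit 0x8c786c6303fffe6)) e
 (c z e
 (c z e
 (c (a (nat_lit 0x17bd9cb649906e85))
 (c z e
 (c (a (nat_lit 0xaf83248ed938711e8)) e e))
 (c (a (nat_lit 0xc92034510328864))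
 (c (a (nat_lit 0xacb81e492cbea0367)) e e)
 (c z e
 (c z e
 (c z e
 (c (a (nat_lit 0x17bad4d7544ea865)) e
 (c (a (nat_lit 0x135035d32b85a5a6)) e
 (c z e
 (c z e
 (c z e
 (c z e
 (c (a (nat_lit 0x1851918ec8200005)) e e))))))))))))))))
 (c z
 (c z e
 (c z e
 (c z e
 (c z e
 (c z e
 (c z e
 (c z e
 (c z e
 (c (a (nat_lit 0x100ad02e8be1e426)) e e)))))))))
 (c z
 (c z e
 (c z e
 (c z e
 (c z e
 (c z e
 (c z e
 (c (a (nat_lit 0x208cc72c946a726)) e e)))))))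
 (c z e
 (c z
 (c z e
 (c (a (nat_lit 0xcd31ed0701f3f25))
 (c (a (nat_lit 0x1d3994840923a00007)) e e)
 (c z e
 (c z e
 (c (a (nat_lit 0x625ef1197d56ee6)) e
 (c z e
 (c (a (nat_lit 0x789aeeec5ef93e7)) e e)))))))
 (c (a (nat_lit 0x202020203366))
 (c (a (nat_lit 0x83ee901944e4843)) e
 (c z e
 (c z e
 (c z e
 (c (a (nat_lit 0xab06b58d8167b06)) e
 (c (a (nat_lit 0xbceb31097fa7187)) e e))))))
 (c (a (nat_lit 0x20202034c1e6))
 (c (a (nat_lit 0x8e99f1174f57b64)) e e)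
 (c (a (nat_lit 0x60607b81e126))
 (c (a (nat_lit 0xa26e7b0330ecf05)) e e)
 (c (a (nat_lit 0x607ac0602006)) e
 (c (a (nat_lit 0x150e241610106))
 (c z e
 (c (a (nat_lit 0x1070cd2ccb098008)) e e))
 (c (a (nat_lit 0x1143a180e0cb66))
 (c (a (nat_lit 0x1554922969200007)) e e)
 (c (a (nat_lit 0x666a5c5bab725)) e
 (c z e
 (c z e
 (c z e
 (c (a (nat_lit 0x1dd9ff9c088844)) e
 (c z e
 (c z e
 (c z e
 (c z e
 (c (a (nat_lit 0x11674081086003)) e e)))))))))))))))))))))))) Tr.c Tr.e (nat_lit 0) C.cx C.cy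
noncomputable def C464 : Tr := beta% (fun (c : Nat → Tr → Tr → Tr) (e : Tr) (z : Nat) (a : Nat → Nat) =>
 (c z
 (c z
 (c (a (nat_lit 0xb2c120f4f775ab523)) e
 (c (a (nat_lit 0x3c5a4644e4e89b8a5)) e
 (c z e
 (c z e
 (c z e
 (c z e
 (c z e
 (c z e
 (c z e
 (c z e
 (c z e
 (c (a (nat_lit 0xe0e900fade0e0b2c5)) e
 (c (a (nat_lit 0x868a867e866a6d8c6)) e e)))))))))))))
 (c (a (nat_lit 0x60606060607885))
 (c z e
 (c z e
 (c z e
 (c z e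
 (c z e
 (c z e
 (c z e
 (c (a (nat_lit 0x402660745046491c6)) e
 (c z e
 (c z e
 (c z e
 (c (a (nat_lit 0xa4a2a09f02dfbec07)) e e))))))))))))
 (c (a (nat_lit 0x11e425))
 (c z e
 (c z e
 (c z e
 (c z e
 (c z e
 (c z e
 (c z e
 (c (a (nat_lit 0x767c72882c8bc3145)) e
 (c (a (nat_lit 0xa4b06c2e7ae1b6f85)) e
 (c z e
 (c (a (nat_lit 0x927e7d02e39e82727)) e e)))))))))))
 (c (a (nat_lit 0x20202030c584c6)) e
 (c (a (nat_lit 0x20203145c561e6))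
 (c z e
 (c z e
 (c z e
 (c z e
 (c z e
 (c z e
 (c (a (nat_lit 0x1152171a35b4aaf726)) e e)))))))
 (c (a (nat_lit 0x424382d8a07e806))
 (c z e
 (c z e
 (c z e
 (c z e
 (c (a (nat_lit 0x3840748466563f2a7)) e e)))))
 (c (a (nat_lit 0x37288524c4c446))
 (c z e
 (c z e
 (c (a (nat_lit 0x8262965466bcd54a7)) e
 (c (a (nat_lit 0x12423470f69f06ae6)) e e))))
 (c (a (nat_lit 0x16a5e5e3c3e58406))
 (c z e
 (c z e
 (c (a (nat_lit 0x2e306090873370a46)) e e)))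
 (c (a (nat_lit 0x2c4814b30b80d84)) e e)))))))))
 (c z
 (c (a (nat_lit 0x1414141415fc105))
 (c z e
 (c z e
 (c z e
 (c z e
 (c z e
 (c z e
 (c z e
 (c z e
 (c (a (nat_lit 0x5270308c243796345)) e
 (c z e
 (c (a (nat_lit 0x7c7e7e8c9cc900727)) e
 (c (a (nat_lit 0x848486c09742e66a7)) e e))))))))))))
 (c (a (nat_lit 0x2020203d870366)) e
 (c (a (nat_lit 0x20338685c167)) e
 (c (a (nat_lit 0x203326c621c187))
 (c z e
 (c z e
 (c z e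
 (c z e
 (c z e
 (c (a (nat_lit 0xa478a92ebe7857667)) e e))))))
 (c (a (nat_lit 0x33c824c3838687)) e
 (c (a (nat_lit 0x1747846303058467))
 (c z e
 (c z e
 (c (a (nat_lit 0x3890828ac13999067)) e e)))
 (c (a (nat_lit 0x80b6b0ffdf123a5)) e e)))))))
 (c z
 (c (a (nat_lit 0x808093c8e320a5))
 (c z e
 (c z e
 (c z e
 (c z e
 (c z e
 (c z e
 (c z e
 (c (a (nat_lit 0x506a4c5508760e267)) e
 (c z e
 (c (a (nat_lit 0x70531698fc5059847)) e e))))))))))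
 (c (a (nat_lit 0x2039ae0a62e306)) e
 (c (a (nat_lit 0x346ae8232330e6))
 (c z e
 (c z e
 (c z e
 (c z e
 (c (a (nat_lit 0xc68c4742236d7527)) e e)))))
 (c (a (nat_lit 0x15ce26e4446d3086)) e
 (c (a (nat_lit 0x4a2c3a64ab36a06))
 (c z e
 (c z e
 (c (a (nat_lit 0xb8cce948e4e88c908)) e
 (c z e
 (c z e
 (c (a (nat_lit 0x1bc6245a10baf86427)) e e))))))
 (c z e
 (c z e
 (c z e
 (c z e
 (c z e
 (c z e
 (c z e
 (c z e
 (c z e
 (c (a (nat_lit 0x1595e8688aaa6a44)) e e)))))))))))))))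
 (c z
 (c (a (nat_lit 0x3b2ecc85a5a7a5))
 (c z e
 (c z e
 (c z e
 (c z e
 (c z e
 (c z e
 (c (a (nat_lit 0xb0aeb2a28a6e9b8c6)) e e)))))))
 (c (a (nat_lit 0x146a28a32348a006)) e
 (c (a (nat_lit 0x166c91dbcf98c884)) e
 (c z e
 (c z e
 (c z e
 (c z e
 (c z e
 (c z e
 (c z e
 (c z e
 (c z e
 (c (a (nat_lit 0x1433fab796332d06)) e e)))))))))))))
 (c z
 (c (a (nat_lit 0x5c44126108820e4))
 (c z e
 (c z e
 (c z e
 (c z e
 (c (a (nat_lit 0x6a3e6e62d6893c9c7)) e e)))))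
 (c z e
 (c z e
 (c z e
 (c z e
 (c z e
 (c z e
 (c z e
 (c (a (nat_lit 0xcc92c94b4a702c5)) e e)))))))))
 (c z
 (c z e
 (c z e
 (c z e
 (c z e
 (c z e
 (c z e
 (c (a (nat_lit 0x3d0b11e882d07c5)) e
 (c z e
 (c z e
 (c z e
 (c z e
 (c z e
 (c (a (nat_lit 0x430cc02c480a004)) e e)))))))))))))
 (c z e
 (c z
 (c z e
 (c z e
 (c z e
 (c z e
 (c (a (nat_lit 0xf7073572a2ae826)) e e)))))
 (c z e
 (c (a (nat_lit 0x202020203b26)) e
 (c (a (nat_lit 0x20202030e0c7)) e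
 (c (a (nat_lit 0x202030802047)) e
 (c (a (nat_lit 0x10117a221c246)) e
 (c (a (nat_lit 0x2d88442024266)) e
 (c (a (nat_lit 0x14c08040a0c6e6)) e
 (c (a (nat_lit 0x40465a59212e5)) e e))))))))))))))))) Tr.c Tr.e (nat_lit 0) C.cx
noncomputable def C465 : Tr := beta% (fun (c : Nat → Tr → Tr → Tr) (e : Tr) (z : Nat) (a b : Nat → Nat) =>
 (c z
 (c z
 (c (a (nat_lit 0x367662562a24db2a5))
 (c z e
 (c z e
 (c z e
 (c z e
 (c z e
 (c z e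
 (c z e
 (c z e
 (c z e
 (c z e
 (c z e
 (c (a (nat_lit 0x98e33ea0ac5898a5f07)) e e))))))))))))
 (c (a (nat_lit 0x112606e0e0b35390c6))
 (c z e
 (c z e
 (c z e
 (c z e
 (c z e
 (c z e
 (c z e
 (c (a (nat_lit 0x325e442c124c6ab1168)) e
 (c (a (nat_lit 0x145c261e14453696848)) e
 (c z e
 (c (a (nat_lit 0x7ca4545eb08a7508b09)) e e)))))))))))
 (c (a (nat_lit 0x402c0608c514d8c47))
 (c z e
 (c z e
 (c z e
 (c z e
 (c z e
 (c z e
 (c (a (nat_lit 0x46584c224e80d6db4c8)) e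
 (c (a (nat_lit 0x9a704242808e9340ae8)) e e))))))))
 (c z e
 (c z e
 (c z e
 (c z e
 (c z e
 (c z e
 (c z e
 (c z e
 (c z e
 (c (a (nat_lit 0x10f15433d250c21246)) e
 (c (b (nat_lit 0x22425bfe808a8d947)) e e))))))))))))))
 (c z e
 (c (a (nat_lit 0x20202020203a46))
 (c z e
 (c z e
 (c z e
 (c z e
 (c z e
 (c z e
 (c z e
 (c z e
 (c (a (nat_lit 0x52b25078749ac14c5)) e e)))))))))
 (c (a (nat_lit 0x202020203e6846))
 (c z e
 (c z e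
 (c z e
 (c z e
 (c z e
 (c z e
 (c (a (nat_lit 0x13441343a385c4ab66)) e
 (c (a (nat_lit 0x1f24262870dc52246)) e
 (c (a (nat_lit 0x13cccbab7236388ce7)) e e)))))))))
 (c (a (nat_lit 0x20202035c8e5e7))
 (c z e
 (c z e
 (c z e
 (c z e
 (c z e
 (c z e
 (c (a (nat_lit 0x545aae7504e4dc3a7)) e e)))))))
 (c (a (nat_lit 0x80809b6d298587))
 (c z e
 (c z e
 (c z e
 (c z e
 (c (a (nat_lit 0x423c0e3e851d62947)) e e)))))
 (c (a (nat_lit 0x2c2ddcd89c7e807)) e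
 (c (b (nat_lit 0x1ffd67e7c46465c7)) e
 (c (a (nat_lit 0x1344a2e080a405a7)) e
 (c z e
 (c z e
 (c z e
 (c z e
 (c z e
 (c z e
 (c z e
 (c z e
 (c (a (nat_lit 0x1cc18a792121e4e3)) e e))))))))))))))))))
 (c z
 (c (a (nat_lit 0x404040404052a6))
 (c z e
 (c z e
 (c z e
 (c z e
 (c z e
 (c z e
 (c z e
 (c z e
 (c z e
 (c z e
 (c (a (nat_lit 0xeacadee43840a9786)) e e)))))))))))
 (c (a (nat_lit 0x2020202039c466)) e
 (c (a (nat_lit 0x2020203f0b66e6))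
 (c z e
 (c z e
 (c z e
 (c z e
 (c z e
 (c (a (nat_lit 0x1a840c264a506741c6)) e e))))))
 (c (a (nat_lit 0x20203407e561c7)) e
 (c (a (nat_lit 0x1e1f68b6845e547))
 (c z e
 (c z e
 (c z e
 (c (a (nat_lit 0x2a5472bdb77a97366)) e e))))
 (c (b (nat_lit 0x1ff7284543030707)) e
 (c (b (nat_lit 0x14031fe2224804a7)) e
 (c (a (nat_lit 0x6a340e0de562385)) e
 (c z e
 (c z e
 (c z e
 (c z e
 (c z e
 (c z e
 (c z e
 (c (a (nat_lit 0x114ae060c0c16126)) e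
 (c (a (nat_lit 0x1721e201c342e2c5)) e e)))))))))))))))))
 (c z
 (c (a (nat_lit 0x404040564aa624))
 (c z e
 (c z e
 (c z e
 (c z e
 (c z e
 (c z e
 (c z e
 (c z e
 (c z e
 (c (a (nat_lit 0x14772e0c8d5c0e8ee6)) e e))))))))))
 (c (a (nat_lit 0x303031df6eb6005)) e
 (c (a (nat_lit 0x30cb25028286))
 (c z e
 (c z e
 (c z e
 (c z e
 (c (a (nat_lit 0x5c38a546b44e16ba7)) e e)))))
 (c (a (nat_lit 0x3772cba7c69626))
 (c z e
 (c z e
 (c z e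
 (c (a (nat_lit 0x909d050f1e6679187)) e e))))
 (c (a (nat_lit 0x13aa03a343713526))
 (c z e
 (c (a (nat_lit 0x12747294bd26a4869)) e e))
 (c (a (nat_lit 0x36303c3d3520766)) e
 (c z e
 (c z e
 (c z e
 (c z e
 (c z e
 (c z e
 (c z e
 (c z e
 (c (a (nat_lit 0x1ad75640c0c082c4)) e e)))))))))))))))
 (c z
 (c (a (nat_lit 0x5a5bc9a27c08084)) e
 (c (a (nat_lit 0x2ecca321819286))
 (c z e
 (c z e
 (c z e
 (c z e
 (c (a (nat_lit 0x1151fa39f9b5369b47)) e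
 (c z e
 (c (a (nat_lit 0x5ec2807e8665d7668)) e e)))))))
 (c (a (nat_lit 0x1392480523eebd06)) e
 (c (a (nat_lit 0x460e1e1eb1c2b46))
 (c z e
 (c (a (nat_lit 0x9a4a89694cceb0688)) e e))
 (c z e
 (c z e
 (c z e
 (c z e
 (c z e
 (c z e
 (c z e
 (c z e
 (c z e
 (c (a (nat_lit 0x190484e040202205)) e
 (c (a (nat_lit 0x18fa67c7c1cfd7a3)) e e)))))))))))))))
 (c z
 (c (a (nat_lit 0x118c02604067c545))
 (c z e
 (c z e
 (c z e
 (c z e
 (c z e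
 (c (a (nat_lit 0x7ae8d06c38adcee07)) e
 (c (a (nat_lit 0xa286541c39f4f7127)) e e)))))))
 (c (a (nat_lit 0x10492ab249080765)) e e))
 (c z
 (c z e
 (c z e
 (c z e
 (c z e
 (c z e
 (c z e
 (c z e
 (c (a (nat_lit 0x12ed300db14f2b45)) e e))))))))
 (c z
 (c z e
 (c z e
 (c z e
 (c z e
 (c z e
 (c z e
 (c (a (nat_lit 0x18a45d10d10b0c6)) e e)))))))
 (c z e
 (c z e
 (c z e
 (c (a (nat_lit 0x202020203546))
 (c (a (nat_lit 0x50cb3555e0ab6c4)) e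
 (c z e
 (c z e
 (c z e
 (c z e
 (c (a (nat_lit 0x5a62685c7192008)) e
 (c (a (nat_lit 0xaef76ea20000005)) e e)))))))
 (c (a (nat_lit 0x20202037a0e6)) e
 (c (a (nat_lit 0x203ae3c185)) e
 (c (a (nat_lit 0x5657e896403a5)) e
 (c (a (nat_lit 0x57984e2e34345)) e
 (c (a (nat_lit 0x15e14040c0ea45)) e
 (c (a (nat_lit 0x9476a0a17fe84)) e e)))))))))))))))))) Tr.c Tr.e (nat_lit 0) C.cx C.cy
noncomputable def C466 : Tr := beta% (fun (c : Nat → Tr → Tr → Tr) (e : Tr) (z : Nat) (a : Nat → Nat) =>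
 (c z
 (c z e
 (c (a (nat_lit 0x4a4a4bea6ed0282a3)) e
 (c (a (nat_lit 0x2c2c7c24480807365))
 (c z e
 (c z e
 (c z e
 (c z e
 (c z e
 (c z e
 (c z e
 (c z e
 (c z e
 (c z e
 (c z e
 (c (a (nat_lit 0x8078ae724af48dc13a7)) e e))))))))))))
 (c (a (nat_lit 0x22121a400c0b31365))
 (c z e
 (c z e
 (c z e
 (c z e
 (c z e
 (c z e
 (c z e
 (c z e
 (c z e
 (c (a (nat_lit 0x6676b47e74cef7af867)) e e))))))))))
 (c (a (nat_lit 0x2c4e36161703c7565))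
 (c z e
 (c z e
 (c z e
 (c z e
 (c z e
 (c (a (nat_lit 0x385e4c584c4a3eed687)) e
 (c (a (nat_lit 0x2c382c1e30289b62467)) e
 (c z e
 (c (a (nat_lit 0x74a66e4c737bdd6a947)) e e)))))))))
 (c (a (nat_lit 0x60785a58d4c7dcb64)) e
 (c z e
 (c z e
 (c z e
 (c z e
 (c z e
 (c z e
 (c z e
 (c z e
 (c (a (nat_lit 0x151275b76feb0c57a4)) e
 (c (a (nat_lit 0x90e6f71b434b3dc05)) e e))))))))))))))))
 (c z
 (c (a (nat_lit 0x1414dc52540e092e5))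
 (c (a (nat_lit 0xd2ef20c692e8c28cce6)) e
 (c z e
 (c z e
 (c z e
 (c z e
 (c z e
 (c z e
 (c z e
 (c z e
 (c z e
 (c z e
 (c z e
 (c (a (nat_lit 0xa0b2ec82664c8f18ce8)) e e)))))))))))))
 (c (a (nat_lit 0x253e6e840c0d7f866))
 (c z e
 (c z e
 (c z e
 (c z e
 (c z e
 (c z e
 (c z e
 (c (a (nat_lit 0x5a70ae702e3476bda67)) e
 (c (a (nat_lit 0x2a2c661c182631ac8a8)) e
 (c (a (nat_lit 0x30322a2a203d2a5a988)) e
 (c (a (nat_lit 0x9cc32294b14c893dec8)) e e)))))))))))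
 (c (a (nat_lit 0x7238340606d908fe7))
 (c z e
 (c z e
 (c z e
 (c z e
 (c z e
 (c z e
 (c z e
 (c (a (nat_lit 0x88e8988288d4c0e9428)) e
 (c (a (nat_lit 0x5c743c30908adbc9187)) e
 (c (a (nat_lit 0x588c4a542447090a709)) e e))))))))))
 (c z e
 (c z e
 (c z e
 (c z e
 (c z e
 (c z e
 (c z e
 (c (a (nat_lit 0x1d4889c86daa48ad65)) e
 (c (a (nat_lit 0x14559534910f6e0086)) e
 (c (a (nat_lit 0xfef128fae6c4c24e6)) e e)))))))))))))
 (c z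
 (c (a (nat_lit 0x11e6a70100bfbb2c85)) e
 (c z e
 (c z e
 (c z e
 (c z e
 (c z e
 (c z e
 (c z e
 (c (a (nat_lit 0x1b5a542128c26726e5)) e
 (c (a (nat_lit 0x104c6347658505a8a6)) e
 (c (a (nat_lit 0x1c2cded8555640c3a5)) e
 (c (a (nat_lit 0xb34d1109191c47285)) e e))))))))))))
 (c z
 (c z e
 (c z e
 (c z e
 (c z e
 (c z e
 (c z e
 (c z e
 (c (a (nat_lit 0x16eccb2a01058869e5)) e
 (c z e
 (c (a (nat_lit 0x14bd1a3b7b8faefc65)) e
 (c (a (nat_lit 0xb48e9aa0b4fca7466)) e e)))))))))))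
 (c (a (nat_lit 0x363636363637da3))
 (c z e
 (c z e
 (c z e
 (c z e
 (c z e
 (c z e
 (c (a (nat_lit 0xab0630121a0c50546)) e
 (c (a (nat_lit 0x10a341c1e1c8c64586)) e
 (c (a (nat_lit 0x8c868e929098d7066)) e e)))))))))
 (c (a (nat_lit 0x202020203246a5))
 (c z e
 (c z e
 (c z e
 (c z e
 (c z e
 (c (a (nat_lit 0xd33a908cc2d7546a6)) e
 (c (a (nat_lit 0x110725e92c0d27c686)) e e)))))))
 (c (a (nat_lit 0x202020332ba906))
 (c z e
 (c z e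
 (c z e
 (c z e
 (c (a (nat_lit 0x3a6c76647930e0aa6)) e
 (c (a (nat_lit 0x4e4a2864e136c0706)) e e))))))
 (c (a (nat_lit 0x202035a8e604c6)) e
 (c (a (nat_lit 0x3e3faca6b68e8e6)) e
 (c (a (nat_lit 0x56c74501010465)) e
 (c (a (nat_lit 0x1144036161686945))
 (c (a (nat_lit 0x96e66c4c51067d945)) e e)
 (c (a (nat_lit 0x688290b1b3b7e44))
 (c (a (nat_lit 0x7e36505ccecdb4646)) e e)
 (c z e
 (c z e
 (c z e
 (c z e
 (c (a (nat_lit 0xf172f4e6eaaa486)) e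
 (c (a (nat_lit 0x16264525a5456485)) e
 (c z e
 (c (a (nat_lit 0x15df5e196f052001)) e e))))))))))))))))))))) Tr.c Tr.e (nat_lit 0) C.cx
noncomputable def C467 : Tr := beta% (fun (c : Nat → Tr → Tr → Tr) (e : Tr) (z : Nat) (a b : Nat → Nat) =>
 (c z
 (c (a (nat_lit 0x13939398b7d5eca3))
 (c z e
 (c z e
 (c z e
 (c (a (nat_lit 0x3a7c705b507e74747)) e
 (c (a (nat_lit 0x52321a47087c3c447)) e
 (c z e
 (c z e
 (c z e
 (c z e
 (c z e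
 (c (a (nat_lit 0x40427229d63a5e087)) e e)))))))))))
 (c (a (nat_lit 0x17777dfc98f2b2a4))
 (c z e
 (c z e
 (c z e
 (c z e
 (c z e
 (c z e
 (c (a (nat_lit 0x78766292883281368)) e
 (c (a (nat_lit 0x5a6682b45078f3148)) e e))))))))
 (c (a (nat_lit 0x5c5a2464a44ee4))
 (c z e
 (c z e
 (c z e
 (c z e
 (c (a (nat_lit 0x38386e52220641147)) e
 (c (a (nat_lit 0x62c29a6632733a487)) e e))))))
 (c (a (nat_lit 0x13ed0183232690c5))
 (c z e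
 (c (a (nat_lit 0x11934a6c535a88ea67)) e
 (c (a (nat_lit 0xa6f2e522fd98b8387)) e
 (c z e
 (c (a (nat_lit 0x10168aeb66088b3606)) e
 (c z e
 (c z e
 (c (a (nat_lit 0x737082b4440000008)) e e))))))))
 (c (a (nat_lit 0x674625faf8e9c3))
 (c (a (nat_lit 0x112a080bcfaafc6c27)) e
 (c (a (nat_lit 0x8070a0caad0696367)) e
 (c z e
 (c z e
 (c z e
 (c (a (nat_lit 0x3a805a6f688600007)) e
 (c (a (nat_lit 0x1362c060a000000008)) e e)))))))
 (c (a (nat_lit 0x461c1e9100a8be5))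
 (c (a (nat_lit 0x7a4e38ac455a5cca6)) e e)
 (c z e
 (c (a (nat_lit 0x3779ad4b311b2e4))
 (c (a (nat_lit 0x628b086652462c007)) e e)
 (c (a (nat_lit 0x14da9838b7d75225)) e
 (c (a (nat_lit 0x127050f092cca665)) e
 (c (a (nat_lit 0x1d1d9d3e4be581a5)) e
 (c z e
 (c (b (nat_lit 0x2703fffe220a405)) e
 (c (a (nat_lit 0x110ce907476767a5)) e
 (c (a (nat_lit 0x1b8be485a627e603)) e
 (c (a (nat_lit 0x720c100e3011463)) e e))))))))))))))))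
 (c z
 (c (a (nat_lit 0x827498826263045))
 (c z e
 (c z e
 (c z e
 (c z e
 (c z e
 (c (a (nat_lit 0x6a789ed05e28d3f86)) e
 (c (a (nat_lit 0x2e2e582c0e1d2f0a7)) e e)))))))
 (c (a (nat_lit 0x11726787070c8a85))
 (c z e
 (c z e
 (c z e
 (c (a (nat_lit 0x39ef72204a7a1a7e5)) e e))))
 (c (a (nat_lit 0xdea2c8c53bf7c44)) e
 (c z e
 (c z e
 (c (a (nat_lit 0x72b12d119071c4))
 (c z e
 (c (a (nat_lit 0x430a7c744e782e008)) e e))
 (c (a (nat_lit 0x17b7cbba177a3123))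
 (c (a (nat_lit 0x11f304e32560c00007)) e e)
 (c (a (nat_lit 0xa4df716f60bb1a5)) e
 (c z e
 (c z e
 (c (b (nat_lit 0x42d9ffed089cb65)) e
 (c (a (nat_lit 0x92a51ec0968cfc6)) e
 (c (a (nat_lit 0x79367a2a2c2a225)) e
 (c (a (nat_lit 0x10e50080608020c5)) e e))))))))))))))
 (c z
 (c (a (nat_lit 0x1754b7572e2865a4)) e
 (c z e
 (c z e
 (c (a (nat_lit 0x10254904c90768a4)) e
 (c (a (nat_lit 0xaa6c9aa47ca7424)) e
 (c (a (nat_lit 0x1c0c207a83696e3))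
 (c (a (nat_lit 0x130c6703c340000007)) e e)
 (c z e
 (c z e
 (c z e
 (c (a (nat_lit 0x40eeb14dcd5e65)) e
 (c z e
 (c (a (nat_lit 0x306e0e1039e7164)) e e))))))))))))
 (c z
 (c z e
 (c (a (nat_lit 0x15b02f90a16022c6))
 (c z e
 (c (a (nat_lit 0x102f0faa0f31330ec9)) e e))
 (c (a (nat_lit 0xf2fc82140231aa5))
 (c (a (nat_lit 0x1f7488b22a050de6c6)) e e)
 (c (a (nat_lit 0xec940c063d54cc5))
 (c z e
 (c (a (nat_lit 0x7d32c88c160000007)) e e))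
 (c z e
 (c z e
 (c z e
 (c (a (nat_lit 0x2724ebaa6b1086)) e
 (c z e
 (c z e
 (c (a (nat_lit 0xe2a8bcbfebed865)) e
 (c z e
 (c (a (nat_lit 0x8485b9b8ac00005)) e e)))))))))))))
 (c z
 (c (a (nat_lit 0x114826616022d985))
 (c z e
 (c (a (nat_lit 0xd144ece99d42d21c7)) e e))
 (c (a (nat_lit 0x4a3414142516ca6)) e
 (c z e
 (c z e
 (c z e
 (c (a (nat_lit 0x3ea8c4b8eeb3006)) e
 (c (a (nat_lit 0x6c92cf5d2351806)) e
 (c z e
 (c z e
 (c z e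
 (c (a (nat_lit 0xdebb3dca74004)) e
 (c (a (nat_lit 0xdecd22aa0000005)) e e))))))))))))
 (c z
 (c (a (nat_lit 0x2e484469610f064)) e
 (c z e
 (c z e
 (c (a (nat_lit 0x1ec0b4b4bab9445)) e
 (c (a (nat_lit 0x5c585cae9c77bc5)) e
 (c (a (nat_lit 0xca347e1d9fb8e5)) e e))))))
 (c z
 (c z e
 (c (a (nat_lit 0x168ec2c389bf584)) e
 (c (a (nat_lit 0x22826aa9e99705)) e
 (c z e
 (c (a (nat_lit 0x6adcdccb1721b06)) e
 (c z e
 (c (a (nat_lit 0xdb11110af6a48a6)) e e)))))))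
 (c z
 (c (a (nat_lit 0x96c0d2ef4b32f24)) e
 (c z e
 (c z e
 (c z e
 (c z e
 (c (a (nat_lit 0x8eaac4bea87f627)) e e))))))
 (c (a (nat_lit 0x202020203724))
 (c z e
 (c z e
 (c (a (nat_lit 0x5e7898a91260b47)) e e)))
 (c (a (nat_lit 0x20203764a4))
 (c (a (nat_lit 0x969b7f552154ba5)) e
 (c (a (nat_lit 0xa52b27d535323e6)) e e))
 (c (a (nat_lit 0x37e4e504))
 (c (a (nat_lit 0xd0ebe521cc56025)) e e)
 (c (a (nat_lit 0x5859845e96224)) e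
 (c (a (nat_lit 0x59764e942c2c4)) e
 (c (a (nat_lit 0x14a22660e0a304)) e
 (c (a (nat_lit 0xc9da7c7506002)) e
 (c (a (nat_lit 0x1d6505cfe02642)) e
 (c (a (nat_lit 0x117211a0e8a442)) e
 (c z e
 (c (a (nat_lit 0x11a0e8e602a182)) e
 (c (a (nat_lit 0x17188a2432481)) e
 (c (a (nat_lit 0xa05a2a323d1a2)) e e)))))))))))))))))))))) Tr.c Tr.e (nat_lit 0) C.cx C.cy
noncomputable def C468 : Tr := beta% (fun (c : Nat → Tr → Tr → Tr) (e : Tr) (z : Nat) (a b : Nat → Nat) =>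
 (c z
 (c z
 (c (a (nat_lit 0x38301405987e66a44)) e
 (c z e
 (c z e
 (c z e
 (c z e
 (c z e
 (c z e
 (c z e
 (c z e
 (c z e
 (c z e
 (c z e
 (c (a (nat_lit 0x3c62628e887ee99e6)) e
 (c z e
 (c (a (nat_lit 0x1e2e30304e5271808)) e e)))))))))))))))
 (c (a (nat_lit 0x20202020203066))
 (c (a (nat_lit 0x32356b08a6bd05a25))
 (c z e
 (c z e
 (c z e
 (c z e
 (c z e
 (c (a (nat_lit 0x6c999ca8706c365e548)) e e))))))
 (c (a (nat_lit 0x308de808d413e966))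
 (c z e
 (c z e
 (c z e
 (c z e
 (c (a (nat_lit 0x5b0eb88c722c4c18429)) e e)))))
 (c z e
 (c z e
 (c z e
 (c z e
 (c z e
 (c z e
 (c (a (nat_lit 0x7c8d4314d24c5e1e6)) e
 (c (a (nat_lit 0xad5536e8386cadf66)) e
 (c (a (nat_lit 0x114eaa8246040a5526)) e
 (c (a (nat_lit 0x48321e3a3cb083508)) e e))))))))))))
 (c (a (nat_lit 0xc0c0c0c0de0185))
 (c z e
 (c z e
 (c z e
 (c z e
 (c (a (nat_lit 0x5c464448225724767)) e
 (c z e
 (c z e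
 (c z e
 (c z e
 (c z e
 (c (a (nat_lit 0x463a424ad88936848)) e e)))))))))))
 (c (a (nat_lit 0x4040405244a346)) e
 (c (a (nat_lit 0x1c1c1dbea8424e6)) e
 (c (a (nat_lit 0x1e1f0c703e3c3c7))
 (c z e
 (c z e
 (c z e
 (c (a (nat_lit 0x1d8c2a9453b70b1686)) e
 (c z e
 (c (a (nat_lit 0x3ca8c0ba3e5a43967)) e e))))))
 (c (a (nat_lit 0x1318262a2c2c747))
 (c z e
 (c (a (nat_lit 0xaea4c6da88e2cb7c7)) e
 (c z e
 (c z e
 (c z e
 (c z e
 (c (a (nat_lit 0x17ce4faee246400007)) e e)))))))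
 (c (a (nat_lit 0x156380a0604a22e6))
 (c z e
 (c z e
 (c z e
 (c z e
 (c (a (nat_lit 0x8c8a7a14851076007)) e
 (c (a (nat_lit 0x116e83c36900000007)) e e))))))
 (c (b (nat_lit 0x20040a076633fe5))
 (c (a (nat_lit 0x2a404242c26322e86)) e e)
 (c z e
 (c z e
 (c (a (nat_lit 0x3996e4e3308c7a5)) e
 (c (a (nat_lit 0x114d0d90abc8c046)) e
 (c z e
 (c z e
 (c (a (nat_lit 0x14e040e0a0822584)) e e))))))))))))))))
 (c z
 (c (a (nat_lit 0x363636363787102))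
 (c z e
 (c (a (nat_lit 0x7c0c143c554a58205)) e
 (c z e
 (c z e
 (c z e
 (c (a (nat_lit 0x3a562a18363b167a7)) e
 (c z e
 (c z e
 (c z e
 (c (a (nat_lit 0xacc4da6a5c736c686)) e
 (c (a (nat_lit 0x9a9e3a52505d38486)) e
 (c (a (nat_lit 0x2c142024626d263e8)) e
 (c (b (nat_lit 0x1a2229fe6e83460c8)) e e)))))))))))))
 (c (a (nat_lit 0x4444444530e6aa4))
 (c z e
 (c z e
 (c z e
 (c (a (nat_lit 0x4054685a511276648)) e
 (c (a (nat_lit 0x7a56443a83e4ba747)) e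
 (c z e
 (c z e
 (c (a (nat_lit 0x7b91588108d42dda5)) e
 (c (a (nat_lit 0x8470365263108c427)) e
 (c (a (nat_lit 0x4c0e3c382f0e165e7)) e
 (c (a (nat_lit 0x162c325c650a36269)) e e)))))))))))
 (c (a (nat_lit 0x8686877b14b6624)) e
 (c (a (nat_lit 0x2035f1a4e60605))
 (c z e
 (c z e
 (c z e
 (c z e
 (c (a (nat_lit 0x10b030d0d10caf3047)) e
 (c (a (nat_lit 0xf0d94950e2d287746)) e
 (c (a (nat_lit 0xad2923f072fcb2be6)) e e)))))))
 (c (a (nat_lit 0xb1480283634726))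
 (c z e
 (c z e
 (c (a (nat_lit 0x10905af6f557357407)) e
 (c z e
 (c (a (nat_lit 0xe5ab8994ae80526e6)) e
 (c (a (nat_lit 0xaab4fa2450233b7e7)) e
 (c z e
 (c (a (nat_lit 0xf2b1baa6825800008)) e e))))))))
 (c (b (nat_lit 0x1583dfe6464fc3c5))
 (c (a (nat_lit 0x5d30e8a29ba717927)) e
 (c (a (nat_lit 0x130ee867378d2e83a7)) e
 (c z e
 (c (a (nat_lit 0x6c576eb8605065167)) e
 (c z e
 (c (a (nat_lit 0x108da584c814498008)) e
 (c (a (nat_lit 0xf7949450720000008)) e e)))))))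
 (c (a (nat_lit 0x424014157cead64))
 (c (a (nat_lit 0x1a1046a3c16e10e965)) e
 (c z e
 (c z e
 (c (a (nat_lit 0x1cc672e4d1302f8ba6)) e
 (c z e
 (c (a (nat_lit 0x13c0c0814000000008)) e e))))))
 (c z e
 (c z e
 (c (a (nat_lit 0x2b3ad11709110e5)) e
 (c (a (nat_lit 0x114acd6e31b0c625)) e
 (c (a (nat_lit 0xc8deeb14e82a226)) e
 (c z e
 (c z e
 (c (a (nat_lit 0x13b6a3c64502a484)) e
 (c (a (nat_lit 0x1c89aceb894aeb64)) e e))))))))))))))))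
 C467))) Tr.c Tr.e (nat_lit 0) C.cx C.cy
noncomputable def C469 : Tr := beta% (fun (c : Nat → Tr → Tr → Tr) (e : Tr) (z : Nat) (a : Nat → Nat) =>
 (c z
 (c (a (nat_lit 0x2020219e605a28265))
 (c z e
 (c z e
 (c z e
 (c z e
 (c z e
 (c z e
 (c z e
 (c z e
 (c z e
 (c z e
 (c z e
 (c z e
 (c (a (nat_lit 0x3e829cde4c3a0269148)) e e)))))))))))))
 (c (a (nat_lit 0x2a2bfa5a601e1dd86))
 (c z e
 (c z e
 (c z e
 (c z e
 (c z e
 (c z e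
 (c z e
 (c z e
 (c (a (nat_lit 0x1618123e14141435028)) e
 (c (a (nat_lit 0x2a1c2036241a39febe7)) e
 (c (a (nat_lit 0x84b2f0f87e872c42fa8)) e
 (c (a (nat_lit 0x56528a30189e412e689)) e e))))))))))))
 (c (a (nat_lit 0xa982c220806f94c7))
 (c z e
 (c z e
 (c z e
 (c z e
 (c z e
 (c z e
 (c z e
 (c z e
 (c z e
 (c (a (nat_lit 0x8ebaf0547422256f088)) e
 (c (a (nat_lit 0x4e78381e14453a62009)) e e)))))))))))
 (c (a (nat_lit 0x9e3a240e0ea336ce7))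
 (c z e
 (c z e
 (c z e
 (c z e
 (c z e
 (c z e
 (c z e
 (c z e
 (c (a (nat_lit 0xcce2706a5a2146f69e8)) e e)))))))))
 (c z e
 (c z e
 (c z e
 (c z e
 (c z e
 (c z e
 (c (a (nat_lit 0x161865e1c6aaa38425)) e
 (c (a (nat_lit 0x164eed6f2d866505c6)) e e))))))))))))
 (c z
 (c (a (nat_lit 0x1ce82c2c0a0724a66))
 (c z e
 (c z e
 (c z e
 (c z e
 (c z e
 (c z e
 (c z e
 (c z e
 (c z e
 (c z e
 (c z e
 (c (a (nat_lit 0x123814084c231c5c008)) e e))))))))))))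
 (c (a (nat_lit 0xb4181406071ae64e7))
 (c z e
 (c z e
 (c z e
 (c z e
 (c z e
 (c z e
 (c (a (nat_lit 0xcd1ec48496570f47a27)) e
 (c z e
 (c (a (nat_lit 0x6e54424a6cc0dd92c67)) e
 (c (a (nat_lit 0x94c24a80ac5734f0828)) e e))))))))))
 (c (a (nat_lit 0x180e0604dd1458767)) e
 (c z e
 (c z e
 (c z e
 (c z e
 (c z e
 (c z e
 (c (a (nat_lit 0x19d6b2a4e4c6880865)) e
 (c (a (nat_lit 0x16d40d2aea88c94266)) e
 (c (a (nat_lit 0x174649696aa8880aa5)) e e))))))))))))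
 (c z
 (c (a (nat_lit 0x1c1812133346aee06)) e
 (c z e
 (c z e
 (c z e
 (c z e
 (c z e
 (c z e
 (c z e
 (c (a (nat_lit 0x140d4584e1c1e7cb25)) e
 (c (a (nat_lit 0x128bf28acc0f42ebe5)) e
 (c (a (nat_lit 0xc2e4cedd18f6ffe05)) e e)))))))))))
 (c z
 (c z e
 (c z e
 (c z e
 (c z e
 (c z e
 (c z e
 (c z e
 (c (a (nat_lit 0x187b278360c46deaa5)) e
 (c (a (nat_lit 0x122968c789aa299206)) e
 (c (a (nat_lit 0x584c4a6a953efb0a6)) e
 (c (a (nat_lit 0x4e64808a9a9d10fc8)) e e)))))))))))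
 (c (a (nat_lit 0x20202020203065))
 (c z e
 (c z e
 (c z e
 (c z e
 (c z e
 (c (a (nat_lit 0xc2b12c2a524046e86)) e
 (c (a (nat_lit 0x690426323a567c946)) e
 (c (a (nat_lit 0x16a7abcb8d74162866)) e e))))))))
 (c (a (nat_lit 0x202020203f4cc5))
 (c z e
 (c z e
 (c z e
 (c z e
 (c (a (nat_lit 0xa272a47c80a50f906)) e
 (c (a (nat_lit 0x2623c3464c5909e6)) e e))))))
 (c (a (nat_lit 0xe0e0e0f9eb64c6)) e
 (c (a (nat_lit 0x40405b6545e586))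
 (c z e
 (c z e
 (c (a (nat_lit 0x1046082c3aaaa50c7)) e e)))
 (c (a (nat_lit 0x1f0923018185))
 (c z e
 (c z e
 (c (a (nat_lit 0xad2078f6d8bc49885)) e e)))
 (c (a (nat_lit 0x3ba922e3632785)) e
 (c (a (nat_lit 0x1700a0414128e705))
 (c (a (nat_lit 0x34821c582701a10c6)) e e)
 (c (a (nat_lit 0x1614322f3571d24)) e
 (c z e
 (c z e
 (c z e
 (c (a (nat_lit 0xe0f73aeaece8ae6)) e
 (c (a (nat_lit 0x955a1e240620024)) e
 (c (a (nat_lit 0x1965864304c26344)) e e))))))))))))))))))) Tr.c Tr.e (nat_lit 0) C.cx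
noncomputable def C470 : Tr := beta% (fun (c : Nat → Tr → Tr → Tr) (e : Tr) (z : Nat) (a b : Nat → Nat) =>
 (c z
 (c z
 (c z
 (c (a (nat_lit 0xef453b37b5d3f749a63)) e e)
 (c (a (nat_lit 0x18181819503a60245)) e
 (c (a (nat_lit 0x282829741e4c08065))
 (c z e
 (c z e
 (c z e
 (c z e
 (c z e
 (c z e
 (c z e
 (c z e
 (c z e
 (c z e
 (c z e
 (c (a (nat_lit 0x385a5074442490355a8)) e e))))))))))))
 (c (a (nat_lit 0x16162c10220807146))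
 (c z e
 (c z e
 (c z e
 (c z e
 (c z e
 (c z e
 (c z e
 (c z e
 (c z e
 (c (a (nat_lit 0x3a4054783a4846911a8)) e
 (c (a (nat_lit 0x6c6070744444cf3ad48)) e e)))))))))))
 (c (a (nat_lit 0x161c22160806a9846))
 (c z e
 (c z e
 (c z e
 (c z e
 (c z e
 (c z e
 (c (a (nat_lit 0x122e4636283050c3627)) e
 (c (a (nat_lit 0x3a2c461c28293549007)) e
 (c (a (nat_lit 0x3e58723c3838c75cbe8)) e
 (c z e
 (c (a (nat_lit 0x11745b0b3125e0000008)) e e)))))))))))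
 (c (a (nat_lit 0xae744e3432bcbf125))
 (c z e
 (c z e
 (c z e
 (c z e
 (c (a (nat_lit 0x3e5c3c3648406524528)) e
 (c z e
 (c z e
 (c (a (nat_lit 0x7a8a4e6eb075d37c587)) e
 (c z e
 (c (a (nat_lit 0x1dff4a24a1a000000007)) e e))))))))))
 (c (a (nat_lit 0x155716739652cf46c4)) e
 (c z e
 (c z e
 (c z e
 (c z e
 (c z e
 (c z e
 (c z e
 (c (a (nat_lit 0x13543313aaa3c32a85)) e
 (c z e
 (c (a (nat_lit 0xa8b6dd1d3d3f3bb66)) e e)))))))))))))))))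
 C469)
 (c z
 (c z
 (c (a (nat_lit 0x2a2aac3c40201f0a4))
 (c (a (nat_lit 0x145611d5f0127273f384)) e e)
 (c (a (nat_lit 0x2d7234380c0dd1585))
 (c z e
 (c z e
 (c z e
 (c z e
 (c z e
 (c z e
 (c z e
 (c z e
 (c z e
 (c z e
 (c z e
 (c (a (nat_lit 0x74ba40324297904c008)) e e))))))))))))
 (c (a (nat_lit 0x84261a0a0acf1c846))
 (c z e
 (c z e
 (c z e
 (c z e
 (c z e
 (c z e
 (c z e
 (c z e
 (c z e
 (c z e
 (c (a (nat_lit 0xaa2a242e3f844000008)) e e)))))))))))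
 (c (a (nat_lit 0x4c383a39277101385)) e
 (c z e
 (c z e
 (c z e
 (c z e
 (c z e
 (c z e
 (c z e
 (c (a (nat_lit 0x10af8ff08e6e6ba085)) e
 (c (a (nat_lit 0x19575b3b1954770064)) e
 (c (a (nat_lit 0xb4d51771131ae3685)) e e))))))))))))))
 (c z
 (c (a (nat_lit 0xc820240a071288406)) e
 (c z e
 (c z e
 (c z e
 (c z e
 (c z e
 (c z e
 (c z e
 (c (a (nat_lit 0x12638062a403ce6345)) e
 (c z e
 (c (a (nat_lit 0x13d91cdc3bd7648c05)) e e)))))))))))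
 (c z
 (c z e
 (c z e
 (c z e
 (c z e
 (c z e
 (c z e
 (c z e
 (c z e
 (c z e
 (c (a (nat_lit 0xfb214b5f3c7adff25)) e
 (c (a (nat_lit 0x6470746e688e55ea6)) e e)))))))))))
 (c (a (nat_lit 0x202020203fa5))
 (c z e
 (c z e
 (c z e
 (c z e
 (c z e
 (c z e
 (c (a (nat_lit 0x1bd087254f446642c4)) e e)))))))
 (c (a (nat_lit 0x2020202030c246))
 (c z e
 (c z e
 (c z e
 (c z e
 (c z e
 (c z e
 (c z e
 (c (a (nat_lit 0x7c7494b70936b4467)) e e))))))))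
 (c (a (nat_lit 0x2020203c6a4406))
 (c z e
 (c z e
 (c z e
 (c (a (nat_lit 0x115d656849893787c5)) e e))))
 (c (a (nat_lit 0x80809145824327)) e
 (c (a (nat_lit 0xc0d2e3a3a3a3a7))
 (c z e
 (c (a (nat_lit 0xfd1a3c563e867a8a6)) e e))
 (c (a (nat_lit 0x1643a0e12104e6)) e
 (c (b (nat_lit 0x14e33fe0c0c58226))
 (c (a (nat_lit 0x54264c3e38848d386)) e e)
 (c (a (nat_lit 0x140e5875fb3cc64)) e
 (c z e
 (c z e
 (c z e
 (c z e
 (c z e
 (c (a (nat_lit 0x127e458140a02024)) e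
 (c (a (nat_lit 0x1ea581a18140e0a4)) e
 (c (a (nat_lit 0x1828e34543a289e2)) e
 (c (a (nat_lit 0x104acd84a4a9b242)) e e))))))))))))))))))))
 C468))) Tr.c Tr.e (nat_lit 0) C.cx C.cy
noncomputable def C471 : Tr := beta% (fun (c : Nat → Tr → Tr → Tr) (e : Tr) (z : Nat) (a : Nat → Nat) =>
 (c z
 (c (a (nat_lit 0x2e2e2e2e2e2fca023))
 (c (a (nat_lit 0xf0af1d06ff97e5a11e3)) e
 (c (a (nat_lit 0x36564642e7674eb4a65)) e
 (c z e
 (c z e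
 (c z e
 (c z e
 (c z e
 (c z e
 (c z e
 (c z e
 (c z e
 (c z e
 (c z e
 (c z e
 (c z e
 (c (a (nat_lit 0x525e60646086f746448)) e e))))))))))))))))
 (c (a (nat_lit 0xa0a0a0a0bba2a2e5)) e
 (c (a (nat_lit 0xe0e0e0fdc141a025)) e
 (c (a (nat_lit 0x2e2e2fec2c3418104))
 (c z e
 (c z e
 (c z e
 (c z e
 (c z e
 (c z e
 (c z e
 (c z e
 (c z e
 (c z e
 (c (a (nat_lit 0x3870707282304499587)) e e)))))))))))
 (c (a (nat_lit 0x2e2f92361c1a0d724))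
 (c z e
 (c z e
 (c z e
 (c z e
 (c z e
 (c z e
 (c z e
 (c z e
 (c (a (nat_lit 0x424a7072363a4cb7627)) e
 (c (a (nat_lit 0x746c684c2e4a6d6aa07)) e e))))))))))
 (c (a (nat_lit 0x15e8923c4236fb7a4)) e
 (c (a (nat_lit 0x1a4d8808478644e1c5)) e
 (c (a (nat_lit 0x197679f9b61bf74544)) e
 (c z e
 (c z e
 (c z e
 (c z e
 (c z e
 (c z e
 (c (a (nat_lit 0x109191eae7c340c205)) e
 (c (a (nat_lit 0xe3333306ca9293165)) e
 (c (a (nat_lit 0x949892b6b6b4b70e6)) e e)))))))))))))))))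
 (c z
 (c (a (nat_lit 0x28282829de3234384)) e
 (c (a (nat_lit 0xa0a0b140a0808066))
 (c z e
 (c z e
 (c z e
 (c z e
 (c z e
 (c z e
 (c z e
 (c z e
 (c z e
 (c z e
 (c z e
 (c (a (nat_lit 0x1a6c6a9812068897927)) e e))))))))))))
 (c (a (nat_lit 0xa0b6a240e120d125))
 (c z e
 (c z e
 (c z e
 (c z e
 (c z e
 (c z e
 (c z e
 (c z e
 (c z e
 (c z e
 (c (a (nat_lit 0x6a6a8e2a0a2e9988227)) e e)))))))))))
 (c (a (nat_lit 0xb4820181c16cd325)) e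
 (c (a (nat_lit 0x15030202620c6dc985)) e
 (c z e
 (c z e
 (c z e
 (c z e
 (c z e
 (c z e
 (c z e
 (c z e
 (c (a (nat_lit 0x12f0afcdc80800d104)) e
 (c (a (nat_lit 0xfcf505332b152ba05)) e
 (c (a (nat_lit 0x8e92eb81556f6b8a5)) e e))))))))))))))))
 (c z
 (c (a (nat_lit 0x1c1d26241e1410fa5)) e
 (c (a (nat_lit 0x13aa1e180c09605a5)) e
 (c (a (nat_lit 0x1582a2c0a073ada705)) e
 (c z e
 (c z e
 (c z e
 (c (a (nat_lit 0xeb789686823840ec5)) e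
 (c z e
 (c z e
 (c z e
 (c z e
 (c z e
 (c (a (nat_lit 0xceacd36358faefd84)) e
 (c z e
 (c (a (nat_lit 0x52ab415b2f2f2d5a5)) e e)))))))))))))))
 (c z
 (c z e
 (c (a (nat_lit 0x2c402e2ef71ceb1c5))
 (c z e
 (c z e
 (c z e
 (c z e
 (c z e
 (c z e
 (c z e
 (c z e
 (c z e
 (c z e
 (c (a (nat_lit 0x11e344c2c00000000008)) e e)))))))))))
 (c z e
 (c z e
 (c z e
 (c z e
 (c z e
 (c z e
 (c z e
 (c (a (nat_lit 0x17d56ae8e727258544)) e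
 (c z e
 (c z e
 (c (a (nat_lit 0xc921b9a97d617d525)) e e)))))))))))))
 (c z
 (c z e
 (c z e
 (c z e
 (c z e
 (c z e
 (c z e
 (c z e
 (c z e
 (c (a (nat_lit 0x1aecafedcef00ed984)) e
 (c z e
 (c (a (nat_lit 0x30508a94929ea7426)) e
 (c (a (nat_lit 0x78bed2c2aacabf046)) e e))))))))))))
 (c z
 (c z e
 (c z e
 (c z e
 (c z e
 (c z e
 (c z e
 (c z e
 (c z e
 (c z e
 (c z e
 (c z e
 (c (a (nat_lit 0x8a929494aec8c5b66)) e e))))))))))))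
 (c (a (nat_lit 0x101010101011525))
 (c z e
 (c z e
 (c z e
 (c z e
 (c z e
 (c z e
 (c (a (nat_lit 0x40526478b1553e385)) e
 (c z e
 (c z e
 (c z e
 (c (a (nat_lit 0x68ac8a94a2cf96006)) e e)))))))))))
 (c (a (nat_lit 0x16161616177c685))
 (c z e
 (c z e
 (c z e
 (c z e
 (c z e
 (c z e
 (c z e
 (c (a (nat_lit 0xbcb50eeda4b8967a6)) e e))))))))
 (c (a (nat_lit 0x1a1a1a1be83c305)) e
 (c (a (nat_lit 0xa0a0b484a20125))
 (c z e
 (c z e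
 (c z e
 (c z e
 (c z e
 (c (a (nat_lit 0x88932696382420146)) e e))))))
 (c (a (nat_lit 0x18195c642e2e2c5))
 (c z e
 (c (a (nat_lit 0x5a4c4636282805226)) e
 (c z e
 (c z e
 (c (a (nat_lit 0x133f52c0a3b0480005)) e e)))))
 (c (a (nat_lit 0x258440403e3a3c5))
 (c (a (nat_lit 0x909ea2626443c38e5)) e
 (c (a (nat_lit 0xfb3a4e344573586c5)) e e))
 (c (a (nat_lit 0x1522c302c282c3a5)) e
 (c z e
 (c (a (nat_lit 0x122eaf365f7ebec3)) e
 (c (a (nat_lit 0x9294d92d2d2f404)) e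
 (c (a (nat_lit 0x9add31313745464)) e e)))))))))))))))))) Tr.c Tr.e (nat_lit 0) C.cx
noncomputable def C472 : Tr := beta% (fun (c : Nat → Tr → Tr → Tr) (e : Tr) (z : Nat) (a b : Nat → Nat) =>
 (c (a (nat_lit 0xa0a0a0a0a1))
 (c z
 (c z
 (c z
 (c (a (nat_lit 0x545455326054625e3c2)) e
 (c (a (nat_lit 0x444588504a5e56425e3)) e
 (c (a (nat_lit 0x39b44838564e5e66683)) e
 (c (a (nat_lit 0x1dc5a505e569e2a363e3)) e e))))
 (c (a (nat_lit 0x10101010101011644))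
 (c (a (nat_lit 0x617a4c7a8074b710a43)) e
 (c (a (nat_lit 0x1f440465a4ed35708e04)) e
 (c (a (nat_lit 0x424a484736f22288de4)) e
 (c z e
 (c z e
 (c z e
 (c z e
 (c z e
 (c z e
 (c z e
 (c z e
 (c z e
 (c z e
 (c z e
 (c z e
 (c (a (nat_lit 0x8ea2b0b4b8b509f9e46)) e e))))))))))))))))
 (c (a (nat_lit 0x20202020203d0124))
 (c (a (nat_lit 0x48445c591148b4f89a3)) e e)
 (c (a (nat_lit 0x1818181819fe221c4)) e
 (c (a (nat_lit 0x80808095a0e08064)) e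
 (c z e
 (c (a (nat_lit 0x12135a30142018264)) e
 (c (a (nat_lit 0x4feeb06c7e7836204)) e
 (c (a (nat_lit 0x1206a4452502c3a485)) e e)))))))))
 C471)
 C470)
 (c (a (nat_lit 0x2020202021))
 (c z C466
 C465)
 (c (a (nat_lit 0x2020202021)) C464
 (c (a (nat_lit 0x2020202021)) C463
 (c (a (nat_lit 0x4040404041))
 (c z
 (c (a (nat_lit 0x12e2c89892913e3))
 (c z e
 (c (a (nat_lit 0x62e0baa2db2da3286)) e
 (c z e
 (c z e
 (c z e
 (c (a (nat_lit 0x545cbe72448107187)) e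
 (c z e
 (c z e
 (c z e
 (c z e
 (c (a (nat_lit 0xb6bcee8a7f49368a6)) e
 (c (a (nat_lit 0x72711e605c3200007)) e e))))))))))))
 (c (a (nat_lit 0x15365405e5c90704))
 (c (a (nat_lit 0x464a4e831d02cab07)) e
 (c z e
 (c z e
 (c z e
 (c (a (nat_lit 0x32c452244532e89a8)) e
 (c z e
 (c (a (nat_lit 0x48224c78608116807)) e
 (c z e
 (c (a (nat_lit 0x618e809524d362bc7)) e
 (c (a (nat_lit 0xf3028f42d9d49c007)) e
 (c (a (nat_lit 0x9b98de78440000008)) e e)))))))))))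
 (c (a (nat_lit 0x9e8c7a7b6912104)) e
 (c z e
 (c z e
 (c (a (nat_lit 0xd908c8ea141ab25))
 (c (a (nat_lit 0x9bb5fe6c928978c47)) e
 (c (a (nat_lit 0x1b5f2da683fbb44e67)) e e))
 (c (a (nat_lit 0xce8e7c163569004)) e
 (c z e
 (c z e
 (c z e
 (c (a (nat_lit 0xc34128daf31ef65)) e
 (c (a (nat_lit 0x12708e55f56402a5)) e
 (c z e
 (c z e
 (c (a (nat_lit 0x11f515cb08cc0865)) e
 (c (a (nat_lit 0x12f30906ca0644c5)) e
 (c (a (nat_lit 0x1f2ba74dc3800004)) e e)))))))))))))))))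
 (c z
 (c (a (nat_lit 0x116f6f4f4e6840e4))
 (c z e
 (c z e
 (c z e
 (c (a (nat_lit 0xfa8a60e4bf2ebe528)) e
 (c (a (nat_lit 0xda6a4e953cc4f8708)) e
 (c (a (nat_lit 0xccdc58a662548b466)) e
 (c (a (nat_lit 0xb692b488fb9988de6)) e
 (c z e
 (c (a (nat_lit 0x120363c4acd28cab07)) e
 (c z e
 (c (a (nat_lit 0x14a446820000000008)) e e)))))))))))
 (c z e
 (c z e
 (c (a (nat_lit 0xeed702f210105c6))
 (c z e
 (c z e
 (c (a (nat_lit 0x118d8a87e92b0eca09)) e e)))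
 (c (a (nat_lit 0x19afc960a52f5785))
 (c (a (nat_lit 0x1975750f8d5347c508)) e
 (c (a (nat_lit 0x16da8c0cd913504bc8)) e e))
 (c (a (nat_lit 0xf46816311d30ea4)) e
 (c z e
 (c z e
 (c (a (nat_lit 0x8b6fabad35dd585)) e
 (c (a (nat_lit 0x16991a13be154885)) e
 (c (a (nat_lit 0xa2b4d918b8644c7)) e
 (c (a (nat_lit 0x12d539544c4a0ec7)) e
 (c z e
 (c z e
 (c (a (nat_lit 0x138806ee07806005)) e
 (c (a (nat_lit 0xe4d74a720000005)) e e))))))))))))))))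
 (c z
 (c z e
 (c (a (nat_lit 0x1a7972c840a205c4)) e
 (c (a (nat_lit 0x1cd76c6363a85d85)) e
 (c z e
 (c z e
 (c z e
 (c z e
 (c z e
 (c z e
 (c z e
 (c z e
 (c z e
 (c z e
 (c (a (nat_lit 0x1127ea0949e00006)) e e))))))))))))))
 (c z
 (c (a (nat_lit 0x282100c2c45324)) e e)
 (c z
 (c z e
 (c z e
 (c (a (nat_lit 0x84bb804a2345bc6)) e
 (c z e
 (c (a (nat_lit 0x9e1426b0b307027)) e
 (c z e
 (c z e
 (c (a (nat_lit 0x135234d7b63def67)) e e))))))))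
 (c (a (nat_lit 0x202020203845))
 (c (a (nat_lit 0x42403c221411327))
 (c (a (nat_lit 0x131330a0e649a2c326)) e
 (c (a (nat_lit 0x17d807286700800007)) e e))
 (c (a (nat_lit 0x44501c120729347))
 (c (a (nat_lit 0x17ef0929a2e0000007)) e e)
 (c z e
 (c z e
 (c z e
 (c (a (nat_lit 0x30b0a26c7109168)) e
 (c (a (nat_lit 0xf8eae0db7949828)) e e)))))))
 (c (a (nat_lit 0x363636377aa64))
 (c (a (nat_lit 0x8c3206029f5b245)) e
 (c z e
 (c z e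
 (c (a (nat_lit 0x58919b48cfc4926)) e
 (c (a (nat_lit 0xe729974effd3546)) e
 (c (a (nat_lit 0x6c846486b3464c8)) e e))))))
 (c (b (nat_lit 0x20203c71bfe4)) e
 (c (a (nat_lit 0x2223d65a3c365)) e
 (c (a (nat_lit 0x33cc303020205))
 (c z e
 (c z e
 (c (a (nat_lit 0xd4a97298622e008)) e e)))
 (c (a (nat_lit 0x6a282612130c5))
 (c (a (nat_lit 0x932898a87cd2427)) e
 (c (a (nat_lit 0x12b8ec0a47800008)) e e))
 (c (a (nat_lit 0x14260809031a5))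
 (c (a (nat_lit 0x13e74422a0000008)) e e)
 (c z e
 (c z e
 (c z e
 (c (a (nat_lit 0x1ffd7f35157784)) e
 (c (a (nat_lit 0x12140a8acc4844)) e
 (c z e
 (c z e
 (c z e
 (c (a (nat_lit 0x1bb4104262e283)) e
 (c (a (nat_lit 0x11ce2060800003)) e e))))))))))))))))))))))
 C462)))))) Tr.c Tr.e (nat_lit 0) C.cx C.cy
noncomputable def C473 : Tr := beta% (fun (c : Nat → Tr → Tr → Tr) (e : Tr) (z : Nat) (a b : Nat → Nat) =>
 (c (a (nat_lit 0x20200001))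
 (c (a (nat_lit 0xa0a0b3238224))
 (c z e
 (c z e
 (c z e
 (c (a (nat_lit 0x6e424aa290bd1a4)) e
 (c (a (nat_lit 0x4a286c806332604)) e
 (c z e
 (c z e
 (c z e
 (c (a (nat_lit 0x11b4700e342e8005)) e
 (c (a (nat_lit 0x15f171b360000005)) e e))))))))))
 (c (a (nat_lit 0x2a2bde6c86ba4))
 (c z e
 (c z e
 (c z e
 (c (a (nat_lit 0xaebcdcdb589a966)) e e))))
 (c (a (nat_lit 0x14c783660603))
 (c z e
 (c (a (nat_lit 0xb100b4bf0ab4d05)) e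
 (c z e
 (c z e
 (c z e
 (c (a (nat_lit 0x154ce9d486e7a005)) e e))))))
 (c (a (nat_lit 0x13c9c5a9494183))
 (c (a (nat_lit 0x5846544a04535a5)) e
 (c (a (nat_lit 0x22122c062735746)) e
 (c (a (nat_lit 0x16022a7ceb511a6)) e e)))
 (c (a (nat_lit 0x120cd4b4ca0042))
 (c (a (nat_lit 0x120a0a0897f24c6)) e
 (c (a (nat_lit 0x6566cf5bf63586)) e e))
 (c (a (nat_lit 0xed2122e0ca043))
 (c (a (nat_lit 0x7892d73346c2366)) e e)
 (c z e
 (c (a (nat_lit 0xd30902a6a6a84)) e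
 (c (a (nat_lit 0x13ae2dedadb604)) e
 (c (a (nat_lit 0x115110f1992884)) e
 (c (a (nat_lit 0x6020512f5203)) e
 (c (a (nat_lit 0x80a18d739f9c3)) e
 (c (b (nat_lit 0x1ff6d3da1912a2)) e
 (c (a (nat_lit 0x12305373503023)) e
 (c (a (nat_lit 0xbef2f0bcbd483)) e
 (c (a (nat_lit 0x197952b211c002)) e e))))))))))))))))
 (c (nat_lit 1)
 (c (b (nat_lit 0x7b27ffe9a9a3))
 (c z e
 (c z e
 (c (a (nat_lit 0x40525c6c5f23044)) e
 (c z e
 (c z e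
 (c (a (nat_lit 0x5a646a6c4326806)) e
 (c (a (nat_lit 0x1270734dcc25a004)) e e)))))))
 (c (b (nat_lit 0x11659fe40402e4))
 (c z e
 (c (a (nat_lit 0xb0c8b6acc2fbd45)) e
 (c z e
 (c z e
 (c (a (nat_lit 0x4a32608996d26e6)) e
 (c (a (nat_lit 0x72ef6f692400005)) e e))))))
 (c (a (nat_lit 0x146d70506b2a21))
 (c (a (nat_lit 0x18120c361ed3065)) e
 (c z e
 (c z e
 (c z e
 (c (a (nat_lit 0x72a520940000006)) e e)))))
 (c (a (nat_lit 0xf919a134ca0e2))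
 (c z e
 (c (a (nat_lit 0xc386f5d3f98a46)) e e))
 (c (a (nat_lit 0x1c3c3e7e5be903))
 (c (a (nat_lit 0x112d9d9a58cb6006)) e e)
 (c (b (nat_lit 0x1517771fe02023)) e
 (c (a (nat_lit 0x17cbc3c3838023)) e
 (c (a (nat_lit 0x145070707a8804)) e
 (c (a (nat_lit 0xf31f2d40b6bc5)) e
 (c z e
 (c (a (nat_lit 0x141d77bc5e59c2)) e
 (c (a (nat_lit 0x16331556d49003)) e
 (c (a (nat_lit 0x121455f3af2f23)) e
 (c (a (nat_lit 0x15fc134120e921)) e e))))))))))))))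
 (c (a (nat_lit 0x8080808081))
 (c (a (nat_lit 0x16ed68687156e1))
 (c (a (nat_lit 0x60160e04041d084)) e
 (c (a (nat_lit 0x8c848680abd7105)) e
 (c (a (nat_lit 0x9cb6cab0e2eb5e5)) e
 (c (a (nat_lit 0x202e955cbb00ae5)) e
 (c (a (nat_lit 0x3ea7c1176320004)) e
 (c (a (nat_lit 0x972ebcaa0000005)) e e))))))
 (c (a (nat_lit 0xfaeeef1920be4))
 (c (a (nat_lit 0x4046446d96e7945)) e
 (c z e
 (c z e
 (c z e
 (c (a (nat_lit 0x1affd78000000005)) e e)))))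
 (c z e
 (c (a (nat_lit 0xa5bf130ceae82)) e
 (c (a (nat_lit 0x150a6a096967a2)) e
 (c (a (nat_lit 0x13735333698824)) e
 (c (a (nat_lit 0x1979597bad4c04)) e
 (c z e
 (c (b (nat_lit 0x1ffff26363a641)) e
 (c (a (nat_lit 0x22f80e1238021)) e
 (c (a (nat_lit 0xf60a0c0402001)) e e)))))))))))
 (c (a (nat_lit 0x8080808081))
 (c (a (nat_lit 0xdedfa77c02021))
 (c z e
 (c (a (nat_lit 0x1e21aaef6a84965)) e
 (c z e
 (c (a (nat_lit 0x1fd457b780000004)) e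
 (c (a (nat_lit 0x11a9a00000000005)) e e)))))
 (c (a (nat_lit 0x1f58cdeb03c3e2))
 (c (a (nat_lit 0x36ff8eb66e60226)) e
 (c (a (nat_lit 0xc08d516a7600006)) e e))
 (c (a (nat_lit 0x1c75d3f3b37542))
 (c (a (nat_lit 0x715ae6500000005)) e e)
 (c (a (nat_lit 0x108eaed12aca42)) e
 (c (a (nat_lit 0x13b3b3c98787c4)) e
 (c z e
 (c (a (nat_lit 0x4eb6305aa61)) e
 (c z e
 (c (a (nat_lit 0x700a227c78021)) e e)))))))))
 (c (a (nat_lit 0x2020202021))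
 (c (a (nat_lit 0x1a618180609341))
 (c (a (nat_lit 0x5b32342e2008006)) e
 (c (a (nat_lit 0x13e890c3e0000006)) e e))
 (c (a (nat_lit 0x10f05010150ba2))
 (c (a (nat_lit 0x951032000000006)) e e)
 (c (a (nat_lit 0x109073702ead43)) e
 (c z e
 (c (a (nat_lit 0x284fe306e781)) e
 (c (a (nat_lit 0x2e420c181ba43)) e
 (c (a (nat_lit 0x1a3415b5f514e2)) e e)))))))
 (c (a (nat_lit 0x20202001))
 (c (a (nat_lit 0x1cfcfcf8adec22)) e
 (c z e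
 (c (a (nat_lit 0xf30d1f110b0a4)) e
 (c (a (nat_lit 0x4149e98996a4)) e
 (c (a (nat_lit 0x1cc6d0d4f7604)) e
 (c (a (nat_lit 0x988c9acd9d903)) e
 (c z e
 (c (a (nat_lit 0x5a77453c726c3)) e
 (c (a (nat_lit 0x13af9a0200002)) e
 (c (a (nat_lit 0x1a4ce000000003)) e e))))))))))
 (c (a (nat_lit 0x20002001))
 (c (a (nat_lit 0x105151b1311124)) e
 (c (a (nat_lit 0x824100403563)) e
 (c (a (nat_lit 0x23a7a5a399983)) e
 (c z e
 (c z e
 (c (a (nat_lit 0x665e6f6d36782)) e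
 (c z e
 (c (a (nat_lit 0xcdbac20000002)) e
 (c (a (nat_lit 0x1f200000000001)) e e)))))))))
 (c (a (nat_lit 0x2020202021))
 (c (a (nat_lit 0x7b69858987863)) e
 (c (a (nat_lit 0x28061c0e204c1)) e
 (c z e
 (c (a (nat_lit 0xaeaebae2a3aa2)) e
 (c (a (nat_lit 0x8e94aa8b0e503)) e
 (c (a (nat_lit 0x195f16a9000001)) e
 (c (a (nat_lit 0x11e6e000000002)) e e)))))))
 (c (a (nat_lit 0x2020202021))
 (c z e
 (c (a (nat_lit 0x1dfdfe1e5d1b24)) e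
 (c (a (nat_lit 0x1393d3d3d3f4a4)) e
 (c z e
 (c (a (nat_lit 0x17d76440000001)) e
 (c (a (nat_lit 0x13200000000001)) e e))))))
 (c (a (nat_lit 0x8080808081))
 (c (a (nat_lit 0x1cfd1d7c1a38a4)) e
 (c (a (nat_lit 0x1bdd14cf89e9e2)) e
 (c (a (nat_lit 0x134b04e0200002)) e
 (c (a (nat_lit 0x1f498000000001)) e e))))
 (c (a (nat_lit 0x10101010101)) e
 (c (a (nat_lit 0x6060606061)) e
 (c (a (nat_lit 0x4060606881)) e
 (c (a (nat_lit 0x6060689781)) e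
 (c (a (nat_lit 0x2796e821)) e
 (c (a (nat_lit 0x7b72842e1)) e
 (c (a (nat_lit 0x554e5e08061)) e
 (c (a (nat_lit 0x14c5e0804021)) e
 (c (a (nat_lit 0x58040202001)) e
 (c (b (nat_lit 0x403c3c2dfe1)) e
 (c (a (nat_lit 0xbabeae768e1)) e
 (c (a (nat_lit 0x625422363a1)) e
 (c (a (nat_lit 0x2a080e0a001)) e
 (c (a (nat_lit 0x40000001)) e e))))))))))))))))))))))))) Tr.c Tr.e (nat_lit 0) C.cx C.cy
noncomputable def C474 : Tr := beta% (fun (c : Nat → Tr → Tr → Tr) (e : Tr) (z : Nat) (a b : Nat → Nat) =>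
 (c (a (nat_lit 0x2020202021))
 (c z
 (c z e
 (c (b (nat_lit 0x1230303fe4408064))
 (c z e
 (c z e
 (c z e
 (c z e
 (c (a (nat_lit 0x425242c0bd64e0806)) e e)))))
 (c z e
 (c z e
 (c (a (nat_lit 0x1187c1a020924522)) e
 (c z e
 (c z e
 (c z e
 (c z e
 (c z e
 (c (a (nat_lit 0xb331255ade923e4)) e e)))))))))))
 (c z
 (c (a (nat_lit 0x19bd080841c12143))
 (c (a (nat_lit 0xf963612d0d1327f25)) e
 (c (a (nat_lit 0xc342f2dcdaf5c9826)) e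
 (c (a (nat_lit 0xdd830f1d37b547186)) e e)))
 (c (a (nat_lit 0x17a320e523464303))
 (c (a (nat_lit 0x126f2fad4eb55964a6)) e
 (c z e
 (c z e
 (c (a (nat_lit 0x991df562b32ca6ee6)) e
 (c z e
 (c (a (nat_lit 0xe93ac28ae12b26006)) e
 (c (a (nat_lit 0x10c2a7eba5a0000006)) e e)))))))
 (c (a (nat_lit 0x13c06461017e6882)) e
 (c (a (nat_lit 0x623888a4d429944))
 (c (a (nat_lit 0x12b1f8296af0176ac6)) e e)
 (c z e
 (c z e
 (c z e
 (c (a (nat_lit 0x9ecfa358d69b285)) e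
 (c z e
 (c z e
 (c z e
 (c (a (nat_lit 0x124f971333d45445)) e
 (c (a (nat_lit 0xab232d472d33285)) e e)))))))))))))
 (c z
 (c z e
 (c (a (nat_lit 0x4c564e508eb1305)) e
 (c (a (nat_lit 0x58acc6ed2910024)) e
 (c z e
 (c z e
 (c (a (nat_lit 0x99a1f65140ee023)) e
 (c (a (nat_lit 0x1d7e2f3b9a6e0da3)) e
 (c (a (nat_lit 0x124c34f1e5e92044)) e e))))))))
 (c z
 (c z e
 (c z e
 (c (a (nat_lit 0x2e7c8ef68566d05)) e
 (c z e
 (c (a (nat_lit 0x568c6d44867e7c5)) e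
 (c z e
 (c z e
 (c (a (nat_lit 0x1c4dcdae88e9a025)) e e))))))))
 (c (a (nat_lit 0x1d42))
 (c (a (nat_lit 0xaedc9a926a61e84)) e
 (c (a (nat_lit 0x10ec6c25a5d6d224)) e
 (c z e
 (c (a (nat_lit 0x540403000ed34a4)) e
 (c z e
 (c (a (nat_lit 0xb74af12163d2d85)) e
 (c (a (nat_lit 0xc050bb03621f065)) e e)))))))
 (c z
 (c z e
 (c (a (nat_lit 0x150dedccaf53eca4)) e
 (c z e
 (c (a (nat_lit 0x8e85495450ed224)) e
 (c (a (nat_lit 0x7a508c543865165)) e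
 (c (a (nat_lit 0x92b08e86a902706)) e e))))))
 (c (a (nat_lit 0x15d5d5d0df1761)) e
 (c (a (nat_lit 0x545558947c583))
 (c (a (nat_lit 0x5e4b5500a10ff43)) e e)
 (c (a (nat_lit 0x57be5e5624243))
 (c z e
 (c z e
 (c (a (nat_lit 0xd2a73b289a86006)) e e)))
 (c (a (nat_lit 0x2f6be504fea2))
 (c (a (nat_lit 0x1091d79aeb360f25)) e
 (c (a (nat_lit 0x5704c65c6e00006)) e e))
 (c (a (nat_lit 0x948404079dc02))
 (c (a (nat_lit 0x1467858480000005)) e e)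
 (c (a (nat_lit 0x3e0405b9cbbe3)) e
 (c (a (nat_lit 0x2222fb00fefe4)) e
 (c (a (nat_lit 0x183b5a9b1b81)) e
 (c z e
 (c z e
 (c (a (nat_lit 0x22101c0478281)) e
 (c (a (nat_lit 0x11114fd411a882)) e
 (c z e
 (c (a (nat_lit 0xd922fc6c964c2)) e
 (c (a (nat_lit 0x122fc6c4c00002)) e
 (c (a (nat_lit 0x1a242000000001)) e e))))))))))))))))))))))
 (c (a (nat_lit 0x2020202021))
 (c z
 (c z e
 (c z e
 (c (a (nat_lit 0x1031b0d0d8354b03)) e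
 (c z e
 (c z e
 (c z e
 (c z e
 (c (a (nat_lit 0xc4dccb011b4e984)) e
 (c z e
 (c (a (nat_lit 0x113478760b4a4644)) e
 (c (a (nat_lit 0x16babd11bab5b0a4)) e
 (c (b (nat_lit 0xe5aad3ff172b7a3)) e
 (c (a (nat_lit 0x1eb0ad496d492003)) e e)))))))))))))
 (c z
 (c z e
 (c z e
 (c z e
 (c (a (nat_lit 0x80c0ab226899c83)) e
 (c (a (nat_lit 0x6032ee7c71bdc83)) e
 (c (a (nat_lit 0x5f24d4719bf45e3)) e
 (c z e
 (c z e
 (c (a (nat_lit 0xbb255098a47c1e5)) e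
 (c (a (nat_lit 0xc908970ef09b1c5)) e
 (c (a (nat_lit 0x10ebc9d271d3de85)) e e)))))))))))
 (c (a (nat_lit 0x202020203f82))
 (c z e
 (c z e
 (c z e
 (c z e
 (c z e
 (c (a (nat_lit 0x3a527aad362e545)) e
 (c (a (nat_lit 0x7c9467045016145)) e
 (c z e
 (c z e
 (c (a (nat_lit 0xf4208ed2d15e005)) e e))))))))))
 (c (a (nat_lit 0xbabababb34d24))
 (c z e
 (c z e
 (c z e
 (c z e
 (c z e
 (c (a (nat_lit 0x19f3eaeaaca565e5)) e e))))))
 (c (a (nat_lit 0x9a9a9ae966ba1))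
 (c z e
 (c (a (nat_lit 0x17f919befc1c92c4)) e
 (c (a (nat_lit 0xd0e50cfce0d3544)) e
 (c (a (nat_lit 0x87a0f28d1ec0ee4)) e
 (c z e
 (c (a (nat_lit 0xa08260ca1acb165)) e e))))))
 (c (a (nat_lit 0x7676479aec001))
 (c z e
 (c z e
 (c z e
 (c (a (nat_lit 0x8296360ef13e9e5)) e
 (c (a (nat_lit 0x1b722f01ad3fa704)) e e)))))
 (c (a (nat_lit 0x9f6d0840e0a2))
 (c (a (nat_lit 0x50ef247e4e88c24)) e
 (c (a (nat_lit 0x1e28561c4af3106)) e e))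
 (c (a (nat_lit 0x1a8826c2622d43))
 (c (a (nat_lit 0x5af25ecbc3f27a5)) e e)
 (c (a (nat_lit 0xca80040567622))
 (c z e
 (c (a (nat_lit 0x890294860000005)) e e))
 (c (a (nat_lit 0x6c24238989863)) e
 (c (a (nat_lit 0xb2b37d7d7d7e4)) e
 (c (a (nat_lit 0x1ba9a7b3adac3)) e
 (c z e
 (c z e
 (c z e
 (c (a (nat_lit 0x1797d79693b2e2)) e e))))))))))))))))
 (c (a (nat_lit 0x2020202021))
 (c (a (nat_lit 0x2e2e2e2e2e001))
 (c z e
 (c (a (nat_lit 0x60627a668083225)) e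
 (c (a (nat_lit 0xe4f48ab489c3b23)) e
 (c (a (nat_lit 0xc8aca690fef1444)) e
 (c z e
 (c (a (nat_lit 0xa0838383a53b04)) e
 (c (a (nat_lit 0x78a8bce0da81124)) e
 (c (a (nat_lit 0xb2b4caf4aa710a4)) e
 (c (a (nat_lit 0xfd08e53eb068b84)) e
 (c (a (nat_lit 0x5e8fa9452726724)) e
 (c (a (nat_lit 0x8a8eb6d8c30e005)) e e)))))))))))
 (c (a (nat_lit 0x54545455dae63))
 (c (a (nat_lit 0x30665270770a905)) e
 (c (a (nat_lit 0x84749c9956fb6c5)) e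
 (c z e
 (c z e
 (c (b (nat_lit 0x1fe980caadb541e5)) e
 (c (a (nat_lit 0xfe8583712a6a7a5)) e
 (c (a (nat_lit 0xa3477d566a7cce5)) e
 (c z e
 (c (a (nat_lit 0xa9d0cebada14fe5)) e
 (c (a (nat_lit 0xe0b0b0d76400005)) e e))))))))))
 (c (a (nat_lit 0x15834124))
 (c (a (nat_lit 0x5c7458e13902b24)) e
 (c z e
 (c (a (nat_lit 0x2440c166124605)) e
 (c z e
 (c (a (nat_lit 0xc71515af76efc65)) e e)))))
 (c (a (nat_lit 0x1676c5e161))
 (c z e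
 (c (a (nat_lit 0x1a18da1d39b35884)) e
 (c z e
 (c z e
 (c z e
 (c (a (nat_lit 0xee86c33bf9364c4)) e
 (c (b (nat_lit 0x16b8ff3feba00004)) e e)))))))
 (c (a (nat_lit 0x2f21f4e8dedc1))
 (c (a (nat_lit 0x4a32e2cec28dd63)) e
 (c (a (nat_lit 0x2a56ca7228958e5)) e
 (c z e
 (c (a (nat_lit 0x1c124317333f3a5)) e
 (c (a (nat_lit 0xd686b0db5c3c005)) e e)))))
 (c (a (nat_lit 0x1ba52020807902))
 (c (a (nat_lit 0x126614041623646)) e
 (c (a (nat_lit 0x527e385743008e6)) e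
 (c (a (nat_lit 0x345e9534d0e8406)) e e)))
 (c (a (nat_lit 0x42140407b9722))
 (c (a (nat_lit 0x80345312d05a466)) e e)
 (c (a (nat_lit 0x26060fbb7efa2))
 (c z e
 (c (a (nat_lit 0x14f6aac000000006)) e e))
 (c (a (nat_lit 0x40410aeef2f24))
 (c (a (nat_lit 0x1443600000000004)) e e)
 (c (a (nat_lit 0x2708ed02fcfe4)) e
 (c (a (nat_lit 0x1bda3afababa04)) e
 (c z e
 (c (a (nat_lit 0x1615f5d46e67a2)) e
 (c (a (nat_lit 0x1c5c1ab34dedc2)) e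
 (c (a (nat_lit 0x1b184961414001)) e
 (c (a (nat_lit 0x1acc01a1206061)) e
 (c (a (nat_lit 0xae08060402001)) e e)))))))))))))))))
 C473)))) Tr.c Tr.e (nat_lit 0) C.cx C.cy
noncomputable def C475 : Tr := beta% (fun (c : Nat → Tr → Tr → Tr) (e : Tr) (z : Nat) (a b : Nat → Nat) =>
 (c z
 (c z e
 (c (a (nat_lit 0x42ab0f309e9c043))
 (c z e
 (c z e
 (c z e
 (c z e
 (c (a (nat_lit 0x4a5294644e77589c6)) e
 (c z e
 (c z e
 (c z e
 (c (a (nat_lit 0x6e36c266409517506)) e e)))))))))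
 (c (a (nat_lit 0xd708b6b02c202))
 (c z e
 (c z e
 (c (a (nat_lit 0x3254388ce4e8e95a6)) e
 (c (a (nat_lit 0x5d60fc5a99e7c0a05)) e
 (c z e
 (c (a (nat_lit 0x264434125c2d286a6)) e
 (c z e
 (c (a (nat_lit 0x2e94602adb58dc406)) e e))))))))
 (c z e
 (c z e
 (c z e
 (c z e
 (c z e
 (c z e
 (c z e
 (c z e
 (c (a (nat_lit 0xef335311c7a4063)) e
 (c (a (nat_lit 0x98acff636e6a404)) e e)))))))))))))
 (c z
 (c (a (nat_lit 0x10395bcf8f864383))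
 (c z e
 (c z e
 (c z e
 (c z e
 (c (a (nat_lit 0x66a86c6e9932869a6)) e
 (c z e
 (c z e
 (c z e
 (c (a (nat_lit 0x389c1a3048a737006)) e e)))))))))
 (c (b (nat_lit 0x16d875959fe6c124)) e
 (c z e
 (c (a (nat_lit 0xdd16726e1e14144))
 (c z e
 (c (a (nat_lit 0x9ad33850487e667c7)) e
 (c (a (nat_lit 0x1edb3d34cef7f6f8c6)) e e)))
 (c (a (nat_lit 0x1ab4d5360181b463))
 (c (a (nat_lit 0xebc2c7087898f3266)) e
 (c (a (nat_lit 0x10aaac262a920f4567)) e e))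
 (c (a (nat_lit 0x134ed02eaf929363)) e
 (c (a (nat_lit 0x7c8278829cbd264)) e
 (c z e
 (c z e
 (c (a (nat_lit 0xc115638943b2c84)) e
 (c (a (nat_lit 0x86b304f7324a2e5)) e
 (c z e
 (c z e
 (c z e
 (c (a (nat_lit 0x1e6c64d6a4e4c422)) e e)))))))))))))))
 (c z
 (c z e
 (c (a (nat_lit 0xff3502f4e2d6d85))
 (c z e
 (c z e
 (c (a (nat_lit 0x72d11ed7046428c67)) e e)))
 (c (a (nat_lit 0x1d6c6b42e0c0cc43))
 (c z e
 (c z e
 (c z e
 (c z e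
 (c z e
 (c (a (nat_lit 0xcd7af08a620000007)) e e))))))
 (c (a (nat_lit 0x1447c2008554a183))
 (c (a (nat_lit 0x13cb08258eeae72f06)) e e)
 (c (a (nat_lit 0xb8fccceb54fbc42)) e
 (c z e
 (c z e
 (c (a (nat_lit 0x10aed17d16b54ec4)) e
 (c z e
 (c (b (nat_lit 0x97e9dffeb46e5a4)) e
 (c z e
 (c (a (nat_lit 0x104c4b09c40446a5)) e e))))))))))))
 (c z
 (c (a (nat_lit 0x64ee0aaa5ca46e1)) e
 (c (a (nat_lit 0xee04260814d3963))
 (c (a (nat_lit 0x1128e74acab3882707)) e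
 (c (a (nat_lit 0x1146cd0a944cc66267)) e
 (c z e
 (c z e
 (c (a (nat_lit 0xd15682a4a49000007)) e
 (c (a (nat_lit 0x18502845c000000007)) e e))))))
 (c (a (nat_lit 0x7820c1435683883))
 (c z e
 (c z e
 (c (a (nat_lit 0x8e930678586c50007)) e e)))
 (c z e
 (c z e
 (c (a (nat_lit 0x180c1b69c20a523)) e
 (c z e
 (c (a (nat_lit 0x7eff2ec2c08a9a5)) e
 (c z e
 (c z e
 (c (a (nat_lit 0x12b592b1854fbf04)) e e)))))))))))
 (c z
 (c (a (nat_lit 0xe0e02071d60103)) e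
 (c z e
 (c (a (nat_lit 0x3e54e7023a02b64)) e
 (c (a (nat_lit 0x5ed0f8700293104)) e
 (c (a (nat_lit 0x6e780a405e5d4c5)) e
 (c (a (nat_lit 0x6e0e5484779bba5)) e
 (c z e
 (c (a (nat_lit 0x5c7a76eb01165a6)) e
 (c (a (nat_lit 0xeae94987b4fbae6)) e
 (c (a (nat_lit 0x76d54d70c0c75a6)) e
 (c (a (nat_lit 0xd30d40869068006)) e e)))))))))))
 (c z
 (c z e
 (c (a (nat_lit 0xc6e224121c0bbc4)) e
 (c (a (nat_lit 0xbe0e06340b7d8c4)) e
 (c (a (nat_lit 0x10083a13872ac84)) e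
 (c z e
 (c (a (nat_lit 0x242af6e06cabe05)) e
 (c (a (nat_lit 0x4cb4b28685129c6)) e
 (c (a (nat_lit 0xcec4c8edab38e66)) e e))))))))
 (c (a (nat_lit 0x6c6c6c6c6d701))
 (c (a (nat_lit 0x5c4c0c021106ce3)) e
 (c (a (nat_lit 0xb0767e85310b644)) e
 (c z e
 (c z e
 (c (a (nat_lit 0x3692809c8675545)) e
 (c (a (nat_lit 0x92a8d2b6c115026)) e e))))))
 (c (a (nat_lit 0x16161616a46e1))
 (c z e
 (c z e
 (c (a (nat_lit 0x3c5e8ee68b7a9a5)) e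
 (c (a (nat_lit 0x8c9b29270748a05)) e
 (c z e
 (c z e
 (c (a (nat_lit 0x746454f16c00006)) e e)))))))
 (c (a (nat_lit 0xa0a0b5e3e183))
 (c (a (nat_lit 0x240604fde103223)) e
 (c (a (nat_lit 0x2e4a9eaf5ab8b25)) e
 (c z e
 (c z e
 (c (a (nat_lit 0xaea37f43f068005)) e
 (c (a (nat_lit 0x9888ffac0000006)) e e))))))
 (c (a (nat_lit 0x2a2b04281e244))
 (c (a (nat_lit 0x5e8c7d4e628a225)) e
 (c z e
 (c z e
 (c (a (nat_lit 0xbcc2d33e9400007)) e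
 (c (a (nat_lit 0x66cb8c000000006)) e e)))))
 (c (a (nat_lit 0x14941b91125201))
 (c (a (nat_lit 0x1457bfb3f9f6b225)) e
 (c (a (nat_lit 0x950af2c4c866006)) e e))
 (c (a (nat_lit 0x3ee62e2825762))
 (c (a (nat_lit 0x14fd916fa8400005)) e e)
 (c (a (nat_lit 0xa08a8ca5512e3)) e
 (c (a (nat_lit 0x8082854745444)) e
 (c z e
 (c z e
 (c (a (nat_lit 0x104eeeedede742)) e
 (c z e
 (c (a (nat_lit 0xdcd2d0040a0e1)) e
 (c (a (nat_lit 0xccca04080c101)) e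
 (c (a (nat_lit 0xb002040c02401)) e e)))))))))))))))))))))) Tr.c Tr.e (nat_lit 0) C.cx C.cy
noncomputable def C476 : Tr := beta% (fun (c : Nat → Tr → Tr → Tr) (e : Tr) (z : Nat) (a b : Nat → Nat) =>
 (c z
 (c (a (nat_lit 0x1cdb3f626e687e3))
 (c z e
 (c z e
 (c z e
 (c z e
 (c (a (nat_lit 0x1c7c78503a90b50c6)) e
 (c z e
 (c z e
 (c z e
 (c (a (nat_lit 0x565abc566a7d25186)) e e)))))))))
 (c (a (nat_lit 0xed5f7ab4a6d6124))
 (c z e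
 (c z e
 (c z e
 (c z e
 (c (a (nat_lit 0xa7e4c5c06353b346)) e
 (c (a (nat_lit 0x82aca24e6d77e7106)) e
 (c z e
 (c (a (nat_lit 0x94c654d973531ebe7)) e e))))))))
 (c (a (nat_lit 0x64a862c90c3c183))
 (c z e
 (c z e
 (c z e
 (c z e
 (c z e
 (c z e
 (c z e
 (c z e
 (c (a (nat_lit 0x124845424000000006)) e e)))))))))
 (c z e
 (c (a (nat_lit 0xcb04fcf0de3c404))
 (c z e
 (c (a (nat_lit 0x971f50e0738dcf766)) e e))
 (c (a (nat_lit 0x32fc8c946c59c03)) e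
 (c (a (nat_lit 0x8232260e5bc8843)) e
 (c (a (nat_lit 0x665a4c7df105303)) e
 (c (a (nat_lit 0x9aa6b712c8c8ba5)) e
 (c (a (nat_lit 0x96a983231300ce4)) e
 (c (a (nat_lit 0x2f46eafed42e204)) e
 (c (a (nat_lit 0xfacd372526824a5)) e
 (c (b (nat_lit 0xad110ffe74782e5)) e
 (c z e
 (c (a (nat_lit 0x1131428842e17123)) e
 (c (a (nat_lit 0x124aeecba9e96004)) e e))))))))))))))))
 (c z
 (c (a (nat_lit 0x1cfd99fbdb99f8a3)) e
 (c (a (nat_lit 0x124ff6d44d4c0ba4)) e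
 (c (a (nat_lit 0x10506bc9a1002164))
 (c z e
 (c (a (nat_lit 0x7c44e694b5f69a727)) e e))
 (c (a (nat_lit 0x14b2d13108e90b04)) e
 (c z e
 (c z e
 (c z e
 (c z e
 (c z e
 (c (a (nat_lit 0x7afba3acf4f4944)) e
 (c (a (nat_lit 0xdd51473ae2aa0a5)) e
 (c z e
 (c (a (nat_lit 0x961a50302bd7202)) e e)))))))))))))
 (c z
 (c z e
 (c (a (nat_lit 0x11c9c64160827344))
 (c z e
 (c z e
 (c (a (nat_lit 0xc6e754786a3433886)) e
 (c z e
 (c (a (nat_lit 0xe7c96e7d39bc84006)) e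
 (c (a (nat_lit 0x16f9d7135060000007)) e e))))))
 (c (a (nat_lit 0x1269466707ce25c4)) e
 (c z e
 (c z e
 (c (a (nat_lit 0x10a6c6248f122a3)) e
 (c z e
 (c (b (nat_lit 0x6632c12ffe5a1c4)) e
 (c (a (nat_lit 0x69073caa98825e5)) e
 (c (a (nat_lit 0x16bb5232d18d2324)) e
 (c (a (nat_lit 0x1cf3f49310a89c64)) e
 (c (a (nat_lit 0x74807284bea1224)) e e))))))))))))
 (c z
 (c (a (nat_lit 0x720e0a0404f1b04))
 (c z e
 (c (a (nat_lit 0xb8447fceac4c42547)) e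
 (c z e
 (c z e
 (c z e
 (c (a (nat_lit 0x11d08be9c000000007)) e e))))))
 (c (a (nat_lit 0x542f08f0cd01145)) e
 (c z e
 (c (a (nat_lit 0xba6c7b1b3f39564)) e
 (c (a (nat_lit 0x98973b453d62264)) e
 (c z e
 (c (a (nat_lit 0xfd0f3746a496605)) e
 (c (a (nat_lit 0xdb0110866e46045)) e
 (c (a (nat_lit 0xfd0a7c6e6e06925)) e
 (c (a (nat_lit 0x138ab072afef3025)) e e))))))))))
 (c z
 (c (a (nat_lit 0x25bf3d5cbccaf43)) e
 (c (a (nat_lit 0x11886f23a0a3eb43))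
 (c z e
 (c (a (nat_lit 0x1e9128aa8720000006)) e e))
 (c (a (nat_lit 0x12b868496f1b77a3)) e
 (c z e
 (c (a (nat_lit 0x92a0c0c33f08e64)) e
 (c z e
 (c (a (nat_lit 0x4ea4dea490336a5)) e
 (c (a (nat_lit 0xbeef171af0f1925)) e e))))))))
 (c z
 (c z e
 (c z e
 (c (a (nat_lit 0x102d10718f509384)) e
 (c (a (nat_lit 0x5c50c0fbc5ccba3)) e
 (c z e
 (c (a (nat_lit 0x80d72f6d216d0c5)) e e))))))
 (c (a (nat_lit 0x2626262627ae2))
 (c z e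
 (c (a (nat_lit 0x20b1347e5f0ab03)) e
 (c (a (nat_lit 0x430200a8633825)) e
 (c (a (nat_lit 0x7040158d35a9f44)) e
 (c (a (nat_lit 0x56892f0b86f76c5)) e
 (c z e
 (c (a (nat_lit 0xb89ea476c7d8006)) e e)))))))
 (c (a (nat_lit 0x2020203e2423))
 (c (a (nat_lit 0x9cb80a42231cfc2)) e
 (c (a (nat_lit 0x261878a4af56625)) e
 (c (a (nat_lit 0x4a4a9cf11b888a5)) e
 (c z e
 (c (a (nat_lit 0x708080e7deba606)) e
 (c (a (nat_lit 0x76746e952600007)) e e))))))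
 (c (a (nat_lit 0xa0a0b2c12024))
 (c (a (nat_lit 0x6ec6d8e1b08e9e5)) e
 (c z e
 (c z e
 (c (a (nat_lit 0x82b8bf3cdc7c007)) e
 (c (a (nat_lit 0x82405d000000007)) e e)))))
 (c (a (nat_lit 0x6c6d80cc64582))
 (c z e
 (c (a (nat_lit 0xad15253ed0d8b06)) e e))
 (c (a (nat_lit 0xa92b0e4624222))
 (c (a (nat_lit 0x927b024a2c48006)) e e)
 (c (a (nat_lit 0x463e121007263)) e
 (c (a (nat_lit 0x3012120d2afa3)) e
 (c (a (nat_lit 0xc141b7d1abe2)) e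
 (c (a (nat_lit 0x6869992ef0e62)) e
 (c (a (nat_lit 0x162f8bc9cb42)) e
 (c (a (nat_lit 0x126bc8e78902c2)) e
 (c (a (nat_lit 0x104c2acc272602)) e
 (c (a (nat_lit 0x1492552b28e001)) e
 (c (a (nat_lit 0x1addf3f184ca21)) e
 (c (a (nat_lit 0x1bf18fc56ae4e1)) e
 (c (a (nat_lit 0x13f22585a00001)) e
 (c (a (nat_lit 0xcc02000000001)) e e)))))))))))))))))))))))) Tr.c Tr.e (nat_lit 0) C.cx C.cy
noncomputable def C477 : Tr := beta% (fun (c : Nat → Tr → Tr → Tr) (e : Tr) (z : Nat) (a b : Nat → Nat) =>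
 (c z
 (c (a (nat_lit 0xa2a2a2a34322e82))
 (c z e
 (c z e
 (c z e
 (c z e
 (c z e
 (c z e
 (c z e
 (c z e
 (c z e
 (c z e
 (c z e
 (c z e
 (c z e
 (c (a (nat_lit 0x2c303691340000007)) e e))))))))))))))
 (c (a (nat_lit 0x20203e95166363))
 (c z e
 (c z e
 (c z e
 (c z e
 (c z e
 (c z e
 (c z e
 (c z e
 (c (a (nat_lit 0x424266367e261f2a7)) e e)))))))))
 (c (a (nat_lit 0x1e1f9b213a52643))
 (c z e
 (c z e
 (c z e
 (c z e
 (c z e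
 (c z e
 (c z e
 (c (a (nat_lit 0x42421a90182eeb3c7)) e e))))))))
 (c (a (nat_lit 0x4e29498424b424))
 (c z e
 (c z e
 (c z e
 (c z e
 (c (a (nat_lit 0x84a4dcc42040b53e6)) e
 (c (a (nat_lit 0x76731436467d12c06)) e
 (c (a (nat_lit 0xb092d6382fdfb7e46)) e e)))))))
 (c (a (nat_lit 0x1d66c8e4a5d2efe3))
 (c z e
 (c z e
 (c z e
 (c z e
 (c (a (nat_lit 0xc94e8a4033136c826)) e
 (c (a (nat_lit 0x9a641e14ad4c9e6e7)) e e))))))
 (c (a (nat_lit 0x5e6e5e6121008c4))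
 (c z e
 (c (a (nat_lit 0x9e2a48a2a28f3eea6)) e
 (c (a (nat_lit 0x947eba7e3eba91da6)) e
 (c z e
 (c (a (nat_lit 0xb25240dd4926b8a87)) e e)))))
 (c (a (nat_lit 0x82669f7b793f2c4)) e
 (c z e
 (c (a (nat_lit 0x2300dcd8b42a184))
 (c z e
 (c (a (nat_lit 0x146c0c4d4700000007)) e e))
 (c (a (nat_lit 0x175635d851af48e4))
 (c (a (nat_lit 0x146fc8444000000006)) e e)
 (c z e
 (c z e
 (c (b (nat_lit 0x1d3314bff78c0464)) e
 (c (a (nat_lit 0x1755f297d6aad344)) e e))))))))))))))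
 (c z
 (c (a (nat_lit 0x20312cafa58603))
 (c z e
 (c z e
 (c z e
 (c z e
 (c z e
 (c z e
 (c z e
 (c z e
 (c (a (nat_lit 0x647c5e8c6e5140ae6)) e e)))))))))
 (c (a (nat_lit 0x36f69beb0c0943))
 (c z e
 (c z e
 (c z e
 (c z e
 (c z e
 (c (a (nat_lit 0x4266907e908121c66)) e
 (c (a (nat_lit 0x4864587e4c9d33586)) e e)))))))
 (c (a (nat_lit 0xb6cf2c5e7098783))
 (c z e
 (c z e
 (c z e
 (c z e
 (c (a (nat_lit 0x44c8ae4035ae76865)) e e)))))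
 (c (a (nat_lit 0x1c1ebf7f70ef60e3)) e
 (c (a (nat_lit 0x17363633f2ac60c4)) e
 (c z e
 (c z e
 (c z e
 (c z e
 (c (a (nat_lit 0x8cbaecdb0e9aae4)) e
 (c (a (nat_lit 0xa4b70f62f860424)) e e)))))))))))
 (c z
 (c (a (nat_lit 0x1094b70dee6d6ca3))
 (c z e
 (c z e
 (c z e
 (c z e
 (c z e
 (c z e
 (c (a (nat_lit 0x609cb81c19128db45)) e e)))))))
 (c (a (nat_lit 0x11f550de728f4f83))
 (c z e
 (c z e
 (c z e
 (c (a (nat_lit 0x14aac80d4aeca852a6)) e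
 (c (a (nat_lit 0x9c82c64ed4ef11326)) e
 (c (a (nat_lit 0xc2de3278a8af669a6)) e
 (c z e
 (c z e
 (c (a (nat_lit 0x9f8174ae000000006)) e e)))))))))
 (c (a (nat_lit 0x10f19189c8818044)) e
 (c z e
 (c z e
 (c (a (nat_lit 0x10006528874327c1)) e
 (c z e
 (c z e
 (c (a (nat_lit 0xae667ce5010cb23)) e
 (c (a (nat_lit 0xa2bd273eaa94ea4)) e
 (c z e
 (c (a (nat_lit 0xd3334143210c885)) e e))))))))))))
 (c z
 (c (a (nat_lit 0x169595b774f49d23)) e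
 (c z e
 (c z e
 (c (a (nat_lit 0xe04273069f9b563)) e
 (c z e
 (c z e
 (c (a (nat_lit 0xfca114fcf892b24)) e
 (c (a (nat_lit 0x3343132ce0a4203)) e
 (c (a (nat_lit 0xc2b720dad8968a5)) e
 (c (a (nat_lit 0x3bc3adb34b3ae04)) e
 (c z e
 (c (a (nat_lit 0x16586d4d4d6e0e83)) e e))))))))))))
 (c z
 (c (a (nat_lit 0x11a9a90400871ba4)) e
 (c z e
 (c z e
 (c z e
 (c (a (nat_lit 0x64f7f95b3a2d64)) e
 (c z e
 (c (a (nat_lit 0xdcf12d70a272644)) e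
 (c (b (nat_lit 0x8727adfed6ae184)) e
 (c z e
 (c (a (nat_lit 0x102a8f70efcf2e65)) e
 (c (a (nat_lit 0xa4606a0ec93e6a3)) e e)))))))))))
 (c z
 (c z e
 (c z e
 (c z e
 (c (a (nat_lit 0x296b2ccf532364)) e
 (c (a (nat_lit 0xe0ef0b031ac0b85)) e
 (c (a (nat_lit 0xbcf12fa8caa87c4)) e e))))))
 (c z
 (c z e
 (c z e
 (c z e
 (c (a (nat_lit 0x6038c2f51d61343)) e
 (c z e
 (c (a (nat_lit 0x525ce50d2aef385)) e
 (c (a (nat_lit 0xc35b979b9557865)) e e)))))))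
 (c z
 (c z e
 (c (a (nat_lit 0xe08ceff13ea6a2)) e
 (c z e
 (c (a (nat_lit 0xa0b2b0c55d4bb05)) e
 (c (a (nat_lit 0x6cb2cf271f63585)) e
 (c (a (nat_lit 0x2a545856545b406)) e e))))))
 (c (a (nat_lit 0x404040405be4))
 (c z e
 (c (a (nat_lit 0x72888fbdbb95e04)) e
 (c z e
 (c z e
 (c z e
 (c (a (nat_lit 0xaab6bc84a7fe006)) e e))))))
 (c (a (nat_lit 0xc0c0c0df6044))
 (c z e
 (c z e
 (c z e
 (c z e
 (c (a (nat_lit 0x5c6852670c00007)) e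
 (c (a (nat_lit 0x1903810000000003)) e e))))))
 (c (a (nat_lit 0x1818192a22164))
 (c z e
 (c (a (nat_lit 0xae9f1ae69ce2946)) e e))
 (c (a (nat_lit 0x2a2b2836101c4))
 (c (a (nat_lit 0xc7194ee0c6d2745)) e e)
 (c (a (nat_lit 0x2d00120816204)) e
 (c (a (nat_lit 0x1e40a062032983)) e
 (c (a (nat_lit 0x2816b2b5bd681)) e
 (c (a (nat_lit 0x29ea1a955461)) e
 (c (a (nat_lit 0x949599353a001)) e
 (c (a (nat_lit 0x97a13d904a4e1)) e
 (c (a (nat_lit 0x1eb89a046943c1)) e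
 (c (a (nat_lit 0x1334c044404001)) e
 (c (a (nat_lit 0x15a06540610001)) e e)))))))))))))))))))))) Tr.c Tr.e (nat_lit 0) C.cx C.cy
noncomputable def C478 : Tr := beta% (fun (c : Nat → Tr → Tr → Tr) (e : Tr) (z : Nat) (a : Nat → Nat) =>
 (c (nat_lit 1)
 (c z
 (c z
 (c z e
 (c z e
 (c (a (nat_lit 0x544a4442b8b2b7124)) e e)))
 (c z
 (c (a (nat_lit 0x98a28882e8e0eb684)) e
 (c z e
 (c z e
 (c z e
 (c z e
 (c z e
 (c z e
 (c z e
 (c z e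
 (c z e
 (c z e
 (c (a (nat_lit 0xbcbca8aab8f4bfde5)) e
 (c (a (nat_lit 0x503886bcd2b761245)) e
 (c (a (nat_lit 0x243e54544e5a73407)) e e))))))))))))))
 (c (a (nat_lit 0xc0c0c0c0c0c0e21))
 (c z e
 (c z e
 (c z e
 (c z e
 (c z e
 (c z e
 (c z e
 (c z e
 (c z e
 (c z e
 (c z e
 (c (a (nat_lit 0x2a525c7070a4bf766)) e
 (c (a (nat_lit 0x96a0b6ccceffc19c6)) e e)))))))))))))
 (c (a (nat_lit 0xe0e0e0e0ffe9a2)) e
 (c (a (nat_lit 0x2a2a2a2b6cc8da3)) e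
 (c (a (nat_lit 0x18181992c2c8763)) e
 (c (a (nat_lit 0x1c1dcaacb4aabc3))
 (c z e
 (c (a (nat_lit 0x1312488666c5e41a65)) e e))
 (c (a (nat_lit 0xd36707a5860464))
 (c z e
 (c z e
 (c z e
 (c (a (nat_lit 0x728860502062c70e5)) e
 (c (a (nat_lit 0xb08aaa72828b88e46)) e
 (c (a (nat_lit 0x10db290a405a7a4585)) e e))))))
 (c (a (nat_lit 0x13016261e306c623)) e
 (c (a (nat_lit 0x34185e5d0ad4ba2)) e
 (c z e
 (c z e
 (c z e
 (c (a (nat_lit 0x1937bf9e3e6da903)) e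
 (c (a (nat_lit 0x133455b5d48bcd24)) e e)))))))))))))))
 (c z
 (c (a (nat_lit 0x13d3d3d3d3d3d0c1))
 (c (a (nat_lit 0x9e8e8ec6c0c2d10e5)) e
 (c z e
 (c z e
 (c z e
 (c z e
 (c z e
 (c z e
 (c z e
 (c z e
 (c z e
 (c (a (nat_lit 0x805e767292785dac5)) e
 (c (a (nat_lit 0x586c6482e8ad697c5)) e
 (c (a (nat_lit 0x18203a40345e430a7)) e
 (c (a (nat_lit 0x28505852567f351a7)) e
 (c (a (nat_lit 0x3a3e363e4c838e007)) e e)))))))))))))))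
 (c (a (nat_lit 0x60606060617ae22))
 (c z e
 (c z e
 (c z e
 (c z e
 (c z e
 (c z e
 (c z e
 (c z e
 (c z e
 (c (a (nat_lit 0xc6a0b290949b6a506)) e
 (c (a (nat_lit 0xd4e07aeae77b3e786)) e
 (c z e
 (c z e
 (c (a (nat_lit 0x32343a428f5e00008)) e e))))))))))))))
 (c (a (nat_lit 0x20202032cc2dc4))
 (c z e
 (c z e
 (c z e
 (c z e
 (c z e
 (c z e
 (c z e
 (c z e
 (c (a (nat_lit 0x9686c898c126425c6)) e e)))))))))
 (c (a (nat_lit 0x28282952f50a624))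
 (c (a (nat_lit 0x7a604e84c664f10c5)) e
 (c (a (nat_lit 0xa0caed8d3d0da3bc5)) e
 (c z e
 (c z e
 (c z e
 (c z e
 (c z e
 (c z e
 (c (a (nat_lit 0x86bc7d3abe75889a6)) e e)))))))))
 (c (a (nat_lit 0x2030698a2545e4))
 (c z e
 (c z e
 (c z e
 (c z e
 (c z e
 (c z e
 (c (a (nat_lit 0x90b66114202ff1e26)) e
 (c (a (nat_lit 0xa046d8b2649ceb586)) e
 (c (a (nat_lit 0xa510cbe092587c006)) e e)))))))))
 (c (a (nat_lit 0xd8ac4d294986a4))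
 (c z e
 (c (a (nat_lit 0xa4965442340b00b06)) e
 (c z e
 (c (a (nat_lit 0x162a4612462411d46)) e
 (c (a (nat_lit 0x76724ca0782bd93a6)) e
 (c (a (nat_lit 0x6452865221a13cf27)) e e))))))
 (c (a (nat_lit 0x1e2aed6969edcb24))
 (c z e
 (c (a (nat_lit 0x7ea89a6c6e7709626)) e
 (c z e
 (c (a (nat_lit 0x6a3a644c731ee1106)) e
 (c (a (nat_lit 0x76b062793dab24c87)) e e)))))
 (c (a (nat_lit 0xa2e10774128be3))
 (c z e
 (c z e
 (c z e
 (c z e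
 (c z e
 (c (a (nat_lit 0x1d8ae8cd4000000006)) e e))))))
 (c (a (nat_lit 0x303a3f834ce0843)) e
 (c z e
 (c (a (nat_lit 0x31ab7b7da3b9183))
 (c (a (nat_lit 0x11b18ca9a740000007)) e e)
 (c (a (nat_lit 0x175434f8396ca6c3)) e
 (c (a (nat_lit 0x187b1dbe4dc86c84)) e
 (c (a (nat_lit 0xe2f106e05a6e025)) e
 (c (a (nat_lit 0x1717b3d273128784)) e e)))))))))))))))
 C477))
 (c (nat_lit 1)
 (c z
 (c (a (nat_lit 0x185858585852b682)) e
 (c (a (nat_lit 0xd0d0d0d1353b463))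
 (c z e
 (c z e
 (c z e
 (c (a (nat_lit 0x5c847272f50eb8ea6)) e
 (c z e
 (c z e
 (c z e
 (c z e
 (c z e
 (c z e
 (c z e
 (c (a (nat_lit 0x767a84a07b7c901e6)) e
 (c z e
 (c (a (nat_lit 0x746a74ab700000007)) e e))))))))))))))
 (c (a (nat_lit 0xbebebf7badc0cc3))
 (c z e
 (c z e
 (c z e
 (c z e
 (c z e
 (c z e
 (c z e
 (c z e
 (c z e
 (c z e
 (c (a (nat_lit 0x7078b6518e6a225c6)) e e)))))))))))
 (c (a (nat_lit 0xa4a4cf99aec6a43))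
 (c z e
 (c z e
 (c z e
 (c z e
 (c z e
 (c z e
 (c (a (nat_lit 0x4e60669446244d006)) e
 (c (a (nat_lit 0x646c86ea282adf526)) e
 (c (a (nat_lit 0xded93176a4f55fa85)) e e)))))))))
 (c (a (nat_lit 0x8621030cc2ab903))
 (c z e
 (c z e
 (c z e
 (c z e
 (c z e
 (c (a (nat_lit 0x26328e1e0c07603a6)) e
 (c (a (nat_lit 0x768cde3e238f34b86)) e
 (c z e
 (c (a (nat_lit 0x8a57346a165a00006)) e
 (c (a (nat_lit 0xd9901618000000006)) e e))))))))))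
 (c (a (nat_lit 0x938da2b0879eb62))
 (c z e
 (c z e
 (c z e
 (c (a (nat_lit 0x16482e2c0a131a626)) e
 (c (a (nat_lit 0x1e301a120506642c7)) e
 (c (a (nat_lit 0x609a280f8d6138906)) e e))))))
 (c (a (nat_lit 0x467a4aa130fad63)) e
 (c z e
 (c (a (nat_lit 0x6c73a9692f1db03)) e
 (c z e
 (c (a (nat_lit 0xdcbcbad1348c724)) e
 (c (a (nat_lit 0xc8c0e1449284744)) e
 (c (a (nat_lit 0xbcd30486767c7a5)) e
 (c (a (nat_lit 0x99a6766a7282823)) e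
 (c (a (nat_lit 0x14caeaaaeb4b2544)) e e)))))))))))))))
 (c z
 (c (a (nat_lit 0x424243493965022))
 (c z e
 (c z e
 (c z e
 (c z e
 (c (a (nat_lit 0x6a9a9cded6a72f626)) e
 (c z e
 (c z e
 (c z e
 (c z e
 (c z e
 (c z e
 (c z e
 (c z e
 (c (a (nat_lit 0x2622830a000000007)) e e))))))))))))))
 (c (a (nat_lit 0x202ccf51058564))
 (c (a (nat_lit 0x303c7874a89b47046)) e
 (c z e
 (c z e
 (c z e
 (c z e
 (c z e
 (c z e
 (c (a (nat_lit 0x8a60565620504b686)) e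
 (c (a (nat_lit 0x7c827b265466cbda6)) e
 (c (a (nat_lit 0x988ac53286eaef2c6)) e
 (c (a (nat_lit 0x586467084c1630007)) e e)))))))))))
 (c (a (nat_lit 0x3018dbcceaea23))
 (c z e
 (c z e
 (c z e
 (c z e
 (c z e
 (c (a (nat_lit 0x4630402c540631087)) e
 (c z e
 (c (a (nat_lit 0x4c4cfe1a2ceb3ee47)) e
 (c (a (nat_lit 0x8364ee58db04cf106)) e e)))))))))
 (c (a (nat_lit 0x80df0cd0c948023))
 (c z e
 (c (a (nat_lit 0xd0ac7f27415edabe7)) e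
 (c (a (nat_lit 0x6518d2c147f95f786)) e
 (c z e
 (c (a (nat_lit 0x2c403c102a4718247)) e
 (c (a (nat_lit 0x1e540c263f3e423a7)) e
 (c (a (nat_lit 0x6108203bc7a14c486)) e
 (c z e
 (c (a (nat_lit 0xc9d0b040840000006)) e e)))))))))
 (c (a (nat_lit 0xf711194ce4a6164))
 (c z e
 (c z e
 (c z e
 (c (a (nat_lit 0x10d226844576eacce6)) e
 (c (a (nat_lit 0x943e2c1f028e708c7)) e
 (c (a (nat_lit 0x82342e732b1468467)) e e))))))
 (c (a (nat_lit 0x17f79e9b5875a103))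
 (c (a (nat_lit 0x846683de6a8c7ed66)) e
 (c (a (nat_lit 0x8489388e98ad2f187)) e
 (c (a (nat_lit 0x3f9c3e375b1796c26)) e e)))
 (c z e
 (c (a (nat_lit 0x233a68481685442))
 (c (a (nat_lit 0x2c1326367c6252026)) e
 (c z e
 (c (a (nat_lit 0x17bcdf2a8920000006)) e e)))
 (c (a (nat_lit 0x1985e6032bda8f22))
 (c (a (nat_lit 0x1ad625e543c1800006)) e
 (c (a (nat_lit 0x1677f0a7c000000006)) e e))
 (c (a (nat_lit 0x26203aa2a877024))
 (c (a (nat_lit 0x160564800000000006)) e e)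
 (c (a (nat_lit 0x84a506e8df63424)) e
 (c (a (nat_lit 0x44ace4d363727c4)) e
 (c (a (nat_lit 0x2c646d1d2eee004)) e
 (c (a (nat_lit 0x60631b3916b0145)) e
 (c (a (nat_lit 0x10bafc17596b68a4)) e
 (c (a (nat_lit 0x19bad6b7ea67a964)) e
 (c (a (nat_lit 0x12eeb0e300424024)) e
 (c (a (nat_lit 0x10d2e562e2800004)) e
 (c (a (nat_lit 0x1123606000000004)) e e)))))))))))))))))))
 C476))
 (c (nat_lit 1) C475
 C474)))) Tr.c Tr.e (nat_lit 0) C.cx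
noncomputable def C479 : Tr := beta% (fun (c : Nat → Tr → Tr → Tr) (e : Tr) (z : Nat) (a b : Nat → Nat) =>
 (c z
 (c (a (nat_lit 0x121212121206261))
 (c z e
 (c z e
 (c z e
 (c z e
 (c z e
 (c z e
 (c z e
 (c z e
 (c z e
 (c z e
 (c z e
 (c (a (nat_lit 0x503e7c84edb720905)) e e))))))))))))
 (c (a (nat_lit 0x60606060e321023)) e
 (c (a (nat_lit 0x202033d14ce3e3)) e
 (c (a (nat_lit 0x203db4b78ac8e3)) e
 (c (a (nat_lit 0x154a66906469064))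
 (c z e
 (c z e
 (c z e
 (c (a (nat_lit 0xe54be9bcd0e1572a6)) e
 (c (a (nat_lit 0xab272e689adc89f06)) e
 (c (a (nat_lit 0x9c8e324a626f131a7)) e e))))))
 (c (b (nat_lit 0x13849fe2e33050e4))
 (c z e
 (c (a (nat_lit 0xb27e7232d69e9f5c6)) e e))
 (c (a (nat_lit 0x1e1c080b2f24c64))
 (c z e
 (c (a (nat_lit 0x58140c5a16ce5ff26)) e
 (c (a (nat_lit 0x6e86c86022351a546)) e e)))
 (c z e
 (c z e
 (c z e
 (c z e
 (c z e
 (c z e
 (c (a (nat_lit 0x1c3cb4d3b1a243a4)) e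
 (c (a (nat_lit 0x15ce8d6ac708a584)) e
 (c (a (nat_lit 0x108f8dca2bc8c824)) e e))))))))))))))))
 (c z
 (c (a (nat_lit 0xc4c4c4e184f6102)) e
 (c (a (nat_lit 0x1a1b094e9a08123))
 (c z e
 (c z e
 (c z e
 (c z e
 (c z e
 (c z e
 (c (a (nat_lit 0x1850745c725653466)) e e)))))))
 (c (a (nat_lit 0xeb898801807f44)) e
 (c (a (nat_lit 0x3044280409654a4))
 (c z e
 (c z e
 (c z e
 (c z e
 (c (a (nat_lit 0x644e0e3206cf0e926)) e
 (c z e
 (c z e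
 (c (a (nat_lit 0xce9367303e0000006)) e e))))))))
 (c (a (nat_lit 0x1c3006079b8cde4))
 (c z e
 (c z e
 (c (a (nat_lit 0x428ee6c8628baa705)) e e)))
 (c (a (nat_lit 0x5236372b1ae8885)) e
 (c z e
 (c z e
 (c z e
 (c z e
 (c z e
 (c (a (nat_lit 0x11d2d4198b886784)) e e))))))))))))
 (c z
 (c (a (nat_lit 0xa7277510c8cb1c3))
 (c z e
 (c z e
 (c z e
 (c z e
 (c z e
 (c (a (nat_lit 0x748098662c068d145)) e
 (c (a (nat_lit 0x86a25e82226305965)) e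
 (c (a (nat_lit 0x402a5a2c699934546)) e e))))))))
 (c (a (nat_lit 0x12f792e704d1b083))
 (c z e
 (c z e
 (c z e
 (c (a (nat_lit 0x365e443a041c29087)) e e))))
 (c (a (nat_lit 0x14f373534aaac062))
 (c z e
 (c z e
 (c (a (nat_lit 0x46c660b49c31540e6)) e
 (c (a (nat_lit 0xf0b284345850a3606)) e e))))
 (c z e
 (c z e
 (c z e
 (c z e
 (c z e
 (c z e
 (c z e
 (c (b (nat_lit 0xc8f3febea25d024)) e e)))))))))))
 (c z
 (c (a (nat_lit 0x1215d24d5d3a6922)) e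
 (c z e
 (c z e
 (c z e
 (c z e
 (c z e
 (c z e
 (c (a (nat_lit 0xedbf8738947e4a3)) e
 (c (a (nat_lit 0x11f0ae5248c52fa4)) e e)))))))))
 (c z
 (c z e
 (c z e
 (c z e
 (c z e
 (c z e
 (c (a (nat_lit 0x3e050efed436404)) e e))))))
 (c z
 (c z e
 (c z e
 (c z e
 (c z e
 (c z e
 (c (a (nat_lit 0xdcbaeb4548a8864)) e
 (c z e
 (c z e
 (c z e
 (c (a (nat_lit 0x1922c04123c84c23)) e e))))))))))
 (c z
 (c z e
 (c z e
 (c z e
 (c (a (nat_lit 0x20a7c84b8ff3e4)) e e))))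
 (c z
 (c (a (nat_lit 0xe060a0c6a97e62)) e
 (c (a (nat_lit 0x20804545dab2c3)) e
 (c z e
 (c z e
 (c (a (nat_lit 0x468edcbf03077c5)) e e)))))
 (c z
 (c z e
 (c z e
 (c z e
 (c z e
 (c z e
 (c (a (nat_lit 0x586668704c7d0a6)) e e))))))
 (c (a (nat_lit 0x202020203543))
 (c (a (nat_lit 0x2852bd2f0666023)) e e)
 (c (a (nat_lit 0x80808095e223)) e
 (c (a (nat_lit 0x565657b474183))
 (c (a (nat_lit 0xa4a131d8347a645)) e e)
 (c (a (nat_lit 0x5859642e08163)) e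
 (c (a (nat_lit 0x59541e0616203)) e
 (c (a (nat_lit 0x1521a0e242b1e3)) e
 (c (a (nat_lit 0xe021619131e3)) e
 (c (a (nat_lit 0x16282b2530d23)) e
 (c (a (nat_lit 0x42433940e6063)) e
 (c z e
 (c z e
 (c z e
 (c z e
 (c z e
 (c (a (nat_lit 0x16802040200001)) e e))))))))))))))))))))))))) Tr.c Tr.e (nat_lit 0) C.cx C.cy
noncomputable def C480 : Tr := beta% (fun (c : Nat → Tr → Tr → Tr) (e : Tr) (z : Nat) (a : Nat → Nat) =>
 (c z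
 (c z
 (c z e
 (c z e
 (c z e
 (c (a (nat_lit 0x3232163c4c16150a3)) e e))))
 (c z
 (c z e
 (c (a (nat_lit 0x2828a47c980a0d764)) e
 (c (a (nat_lit 0x2e92848c080f9dc04)) e
 (c (a (nat_lit 0x6256420608eeef405)) e
 (c (a (nat_lit 0x7a6c1c1a6c8dc4644)) e
 (c z e
 (c z e
 (c z e
 (c z e
 (c z e
 (c z e
 (c z e
 (c z e
 (c z e
 (c (a (nat_lit 0x40b8a8eafef2f3245)) e e)))))))))))))))
 (c z
 (c (a (nat_lit 0x2e183a5c0a07250c4)) e
 (c (a (nat_lit 0x5052620a0dc5b5dc4)) e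
 (c (a (nat_lit 0x56582e2f69514e725)) e e)))
 (c z
 (c (a (nat_lit 0x1c1e0404c8d101344)) e
 (c z e
 (c z e
 (c z e
 (c z e
 (c z e
 (c z e
 (c z e
 (c z e
 (c z e
 (c z e
 (c (a (nat_lit 0xaeb2faeedd0ad5be5)) e
 (c z e
 (c (a (nat_lit 0x96b0c51702e517f85)) e e))))))))))))))
 (c z e
 (c (a (nat_lit 0x1de2)) e
 (c (a (nat_lit 0x20202020330803)) e
 (c (a (nat_lit 0x808080948625e4)) e
 (c (a (nat_lit 0x727273d2c6e2b64))
 (c z e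
 (c z e
 (c z e
 (c z e
 (c z e
 (c (a (nat_lit 0x3c7c70643616033a6)) e e))))))
 (c (a (nat_lit 0x1213985446020c3))
 (c z e
 (c z e
 (c z e
 (c z e
 (c (a (nat_lit 0x9a90301e0c045f465)) e e)))))
 (c (a (nat_lit 0x510183a0e10e63))
 (c z e
 (c z e
 (c z e
 (c z e
 (c (a (nat_lit 0xd52e2418561200006)) e e)))))
 (c (a (nat_lit 0x176262422290efa3))
 (c z e
 (c z e
 (c z e
 (c (a (nat_lit 0x14a463842560000006)) e e))))
 (c (a (nat_lit 0x888e86877d85fe3)) e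
 (c (a (nat_lit 0x443235313ba07e3)) e
 (c (a (nat_lit 0x5c5d090f66d6ea4)) e
 (c z e
 (c (a (nat_lit 0x1111176e4fafa7c4)) e
 (c (a (nat_lit 0xc93e1c444a48163)) e
 (c (a (nat_lit 0x1522e584e4a1a243)) e e)))))))))))))))))))
 (c z
 (c z
 (c (a (nat_lit 0x4646089c782831242)) e
 (c (a (nat_lit 0x428eef04141fd7fe3)) e
 (c (a (nat_lit 0x364a3c0608d0dd1c5)) e
 (c (a (nat_lit 0x6e5c0e110f1b84824)) e
 (c z e
 (c z e
 (c z e
 (c z e
 (c z e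
 (c z e
 (c z e
 (c z e
 (c z e
 (c (a (nat_lit 0x4c6e889e98927f085)) e e))))))))))))))
 (c z
 (c (a (nat_lit 0x2e7ca81a155d4f844)) e
 (c (a (nat_lit 0x584c0c0b5d6195585)) e
 (c z e
 (c z e
 (c z e
 (c z e
 (c z e
 (c z e
 (c z e
 (c z e
 (c (a (nat_lit 0x13f3ded95778a3e4c4)) e
 (c (a (nat_lit 0xa50afafae6e430c44)) e
 (c (a (nat_lit 0x725676a8b0b481666)) e e)))))))))))))
 (c z
 (c z e
 (c z e
 (c z e
 (c z e
 (c z e
 (c z e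
 (c z e
 (c z e
 (c z e
 (c z e
 (c (a (nat_lit 0x6aa28c6c86e49d0a5)) e e)))))))))))
 (c (a (nat_lit 0x202020202032e4)) e
 (c (a (nat_lit 0x3030303031ded24)) e
 (c (a (nat_lit 0x20202032a90925))
 (c z e
 (c z e
 (c z e
 (c z e
 (c z e
 (c (a (nat_lit 0xb4426a825f9d4a9c5)) e e))))))
 (c (a (nat_lit 0xa0a0ba67c78545))
 (c z e
 (c (a (nat_lit 0x1070d00a23816504a6)) e
 (c (a (nat_lit 0x118dc7a76503a933a5)) e
 (c z e
 (c (a (nat_lit 0x84766c70b4f2d3585)) e e)))))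
 (c (a (nat_lit 0x2627ecaeb6747c5))
 (c z e
 (c (a (nat_lit 0x8284502e4a0c371a6)) e
 (c (a (nat_lit 0x102a874d44cc5e6c45)) e e)))
 (c (a (nat_lit 0x110a3e4412185c5))
 (c z e
 (c (a (nat_lit 0x1b8f0d8dcf5c5ff944)) e e))
 (c (a (nat_lit 0x1ca5864222edaee4))
 (c z e
 (c (a (nat_lit 0x2c40866275a05fb85)) e e))
 (c (a (nat_lit 0x686e42630b06f04)) e
 (c z e
 (c z e
 (c z e
 (c z e
 (c z e
 (c (a (nat_lit 0x1fe2416181406023)) e e)))))))))))))))))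
 (c z
 (c z
 (c (a (nat_lit 0xd8e6bcb55d4947244)) e
 (c z e
 (c z e
 (c z e
 (c z e
 (c z e
 (c z e
 (c z e
 (c z e
 (c z e
 (c z e
 (c z e
 (c (a (nat_lit 0x84aab8f906f397c85)) e
 (c (a (nat_lit 0x222a4444443c83627)) e e))))))))))))))
 (c (a (nat_lit 0x444646464647fc2))
 (c z e
 (c z e
 (c z e
 (c z e
 (c z e
 (c z e
 (c z e
 (c z e
 (c z e
 (c (a (nat_lit 0xf72936ce8c0e21ac5)) e
 (c (a (nat_lit 0x10b0eb0aa827aa7d05)) e
 (c (a (nat_lit 0x74567c8084f753566)) e e))))))))))))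
 (c (a (nat_lit 0x26262626271c562)) e
 (c (a (nat_lit 0x80808094ce0d24))
 (c z e
 (c z e
 (c z e
 (c z e
 (c z e
 (c z e
 (c z e
 (c (a (nat_lit 0x5a8cac9713f472565)) e e))))))))
 (c (a (nat_lit 0x202034ab4dc5a4)) e
 (c (a (nat_lit 0x6079ebae4787e4))
 (c z e
 (c z e
 (c z e
 (c z e
 (c (a (nat_lit 0x144e364c2e4e8b945)) e
 (c (a (nat_lit 0xa6a2beb2a694cf2a6)) e e))))))
 (c (a (nat_lit 0x1114486e3e3eaa5))
 (c (a (nat_lit 0x6e9a803890088fac5)) e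
 (c z e
 (c (a (nat_lit 0x3c2c882c6aee4f766)) e e)))
 (c (a (nat_lit 0x10a3e440a0b35084))
 (c z e
 (c (a (nat_lit 0x3a5a1e28422546be6)) e
 (c (a (nat_lit 0xb456a6da56acd7ae5)) e e)))
 (c (a (nat_lit 0xc2e081d5534b84))
 (c (a (nat_lit 0x846872924df924ce5)) e e)
 (c (a (nat_lit 0x7e688dcd95352e4)) e
 (c (a (nat_lit 0x7277e3c3b119a24)) e
 (c z e
 (c (a (nat_lit 0x1372730fd4094525)) e
 (c z e
 (c z e
 (c (a (nat_lit 0xb9c2922c1e101a3)) e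
 (c (a (nat_lit 0x1147c442e2c342a4)) e e)))))))))))))))))
 C479)))) Tr.c Tr.e (nat_lit 0) C.cx
noncomputable def C481 : Tr := beta% (fun (c : Nat → Tr → Tr → Tr) (e : Tr) (z : Nat) (a b : Nat → Nat) =>
 (c z
 (c (a (nat_lit 0xf8f8f8f99d696c1))
 (c z e
 (c z e
 (c z e
 (c (a (nat_lit 0x34406c8c6f5e78726)) e
 (c (a (nat_lit 0x80967c70adbad2a85)) e
 (c z e
 (c z e
 (c z e
 (c z e
 (c z e
 (c (a (nat_lit 0x44584874418214886)) e e)))))))))))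
 (c (a (nat_lit 0xbebebf2ae0dc5e3))
 (c z e
 (c z e
 (c z e
 (c z e
 (c z e
 (c (a (nat_lit 0x17d42fd3301633cce6)) e e))))))
 (c (a (nat_lit 0x2e2facfa4e54523))
 (c z e
 (c z e
 (c z e
 (c z e
 (c z e
 (c (a (nat_lit 0xc0a4c14cb640b4d45)) e e))))))
 (c (a (nat_lit 0x30e781e42426a4))
 (c z e
 (c z e
 (c (a (nat_lit 0x1a0eb2ce6ff598ee06)) e
 (c z e
 (c z e
 (c (a (nat_lit 0x3c22743e3c515be06)) e
 (c (a (nat_lit 0x9c8c683624a1ce966)) e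
 (c (a (nat_lit 0xba7328a6985e00007)) e e))))))))
 (c (a (nat_lit 0x12e54646a6ac4c64))
 (c z e
 (c z e
 (c z e
 (c z e
 (c z e
 (c z e
 (c (a (nat_lit 0x49084234180000007)) e e)))))))
 (c (a (nat_lit 0x423610113ddce23))
 (c z e
 (c z e
 (c z e
 (c z e
 (c z e
 (c (a (nat_lit 0x1e4509c62000000006)) e e))))))
 (c z e
 (c z e
 (c (a (nat_lit 0x8577a9737b73564)) e
 (c (a (nat_lit 0x1174b232720e6624)) e
 (c (a (nat_lit 0x10af8fcfacc3a3a5)) e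
 (c z e
 (c z e
 (c (a (nat_lit 0x1cfb8e8cacecacc3)) e
 (c (a (nat_lit 0x1184a2a2e32322a3)) e e)))))))))))))))
 (c z
 (c z
 (c z e
 (c z e
 (c z e
 (c z e
 (c z e
 (c z e
 (c (a (nat_lit 0x848e66863c1689885)) e
 (c (a (nat_lit 0x7a56466e2e7d33466)) e e))))))))
 (c (a (nat_lit 0x42c0c26054552e4))
 (c z e
 (c z e
 (c (a (nat_lit 0x264d34e23eba52566)) e
 (c (a (nat_lit 0x62d3c89c0a28d8a05)) e
 (c (a (nat_lit 0xb52ef486748b4ac85)) e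
 (c (a (nat_lit 0x12acd2ac47a79e31c5)) e e))))))
 (c (a (nat_lit 0x1126c181c1c687c4)) e
 (c (a (nat_lit 0xdee4dcdd5d02b64))
 (c (a (nat_lit 0x1b53cd2dcfd4186f46)) e e)
 (c z e
 (c z e
 (c (a (nat_lit 0x13a4fe5e7c82ba3))
 (c (a (nat_lit 0x40eb684234580e006)) e e)
 (c (a (nat_lit 0x1553af92d2d149c4)) e
 (c z e
 (c (b (nat_lit 0x185bbbdfe82ca6e4)) e
 (c z e
 (c z e
 (c (a (nat_lit 0x122e536dea8a8ac4)) e
 (c (a (nat_lit 0xd16abe646068683)) e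
 (c (a (nat_lit 0x1207218122220683)) e e)))))))))))))))
 (c z
 (c (a (nat_lit 0x12b0e689a9a9e363)) e
 (c (a (nat_lit 0x1611fb9baacbeb43))
 (c z e
 (c z e
 (c z e
 (c (a (nat_lit 0xf336d4328926dabe6)) e e))))
 (c z e
 (c z e
 (c (a (nat_lit 0xaaa03ccefb0d383)) e
 (c (a (nat_lit 0x86088cbab6e9423))
 (c (a (nat_lit 0xadb4602e1c0200006)) e e)
 (c z e
 (c (a (nat_lit 0xfb3d3ed6c016a23)) e
 (c z e
 (c z e
 (c z e
 (c z e
 (c (a (nat_lit 0xdb4aaaaad0aafa3)) e e)))))))))))))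
 (c z
 (c (a (nat_lit 0x1215352c908da004)) e
 (c z e
 (c (a (nat_lit 0x19ae916e20604ae4)) e
 (c (a (nat_lit 0xe696600402abb24)) e
 (c z e
 (c z e
 (c z e
 (c (a (nat_lit 0x23aaa5ccebb065)) e
 (c z e
 (c z e
 (c (a (nat_lit 0xaaf8c4caf7314a4)) e
 (c z e
 (c (a (nat_lit 0xf8ff316b8704004)) e e)))))))))))))
 (c z
 (c (a (nat_lit 0x1650ed8d60604a84)) e
 (c (a (nat_lit 0x98441e060467505)) e
 (c z e
 (c z e
 (c z e
 (c (a (nat_lit 0x7e8f4f3b4546e64)) e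
 (c (a (nat_lit 0xe6ea4b4fcbf5e5)) e
 (c z e
 (c z e
 (c z e
 (c (a (nat_lit 0x12e9d1311b5b8d04)) e
 (c (a (nat_lit 0xb3272fcce800004)) e
 (c (a (nat_lit 0x11f2ae4000000004)) e e)))))))))))))
 (c z
 (c (a (nat_lit 0x240414165d74fe3)) e
 (c z e
 (c z e
 (c (a (nat_lit 0xc5392faff23303)) e
 (c (a (nat_lit 0xb1eb4e0f6b5063)) e
 (c (a (nat_lit 0x4262b4eb23152c5)) e e))))))
 (c z
 (c z e
 (c (a (nat_lit 0xe68dccd09db623)) e
 (c (a (nat_lit 0x6563c46a0838c4)) e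
 (c (a (nat_lit 0xe1226b87069b24)) e
 (c (a (nat_lit 0x1cc96b2321c1bc4)) e e)))))
 (c z
 (c z e
 (c (a (nat_lit 0x21264935d764)) e e))
 (c z
 (c (a (nat_lit 0xc0c60693d66a24)) e
 (c z e
 (c (a (nat_lit 0xd8dd639109e2c65)) e e)))
 (c (a (nat_lit 0x6060606070e4))
 (c (a (nat_lit 0x94908f14f8a0dc5)) e
 (c (a (nat_lit 0x9291370d8af6da5)) e e))
 (c (a (nat_lit 0x2030c244))
 (c (a (nat_lit 0x7c988f18a2b43c5)) e e)
 (c (b (nat_lit 0x20203cbfe023)) e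
 (c (a (nat_lit 0x2c2d08242c184))
 (c (a (nat_lit 0x1edfdf0000000005)) e e)
 (c (a (nat_lit 0xf0e2a302c2c4)) e
 (c (a (nat_lit 0x1021e2420201e4)) e
 (c (a (nat_lit 0xbae6c6c8be201)) e
 (c (a (nat_lit 0x12adae70464641)) e
 (c z e
 (c z e
 (c (a (nat_lit 0x96021a0402001)) e
 (c (a (nat_lit 0x42c0a0e04001)) e
 (c (a (nat_lit 0x28060a0402001)) e e))))))))))))))))))))))) Tr.c Tr.e (nat_lit 0) C.cx C.cy
noncomputable def C482 : Tr := beta% (fun (c : Nat → Tr → Tr → Tr) (e : Tr) (z : Nat) (a b : Nat → Nat) =>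
 (c z
 (c z
 (c (a (nat_lit 0x6462644a4126baa24)) e
 (c (a (nat_lit 0x44463a35209c807e5)) e
 (c z e
 (c z e
 (c z e
 (c z e
 (c z e
 (c z e
 (c z e
 (c z e
 (c z e
 (c z e
 (c (a (nat_lit 0x707c9278786c4b725)) e
 (c (a (nat_lit 0x2e3c3868707075366)) e
 (c (a (nat_lit 0x786cd4f6e7253fb25)) e e)))))))))))))))
 (c z
 (c z e
 (c (a (nat_lit 0x50555334b4ab413e5)) e
 (c z e
 (c z e
 (c z e
 (c z e
 (c z e
 (c z e
 (c z e
 (c z e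
 (c (a (nat_lit 0xcd4364c8102e0ed65)) e
 (c (a (nat_lit 0xc4dea06c9690e74c6)) e
 (c (a (nat_lit 0x503826505464eb787)) e
 (c (a (nat_lit 0x221a323642486f528)) e e))))))))))))))
 (c (a (nat_lit 0x1414141414157a4))
 (c z e
 (c z e
 (c z e
 (c z e
 (c (a (nat_lit 0x7ca0acae887a9d2a6)) e
 (c z e
 (c z e
 (c z e
 (c (a (nat_lit 0x7a70788e746657386)) e
 (c z e
 (c (a (nat_lit 0x3c40445660ce63287)) e e)))))))))))
 (c (a (nat_lit 0x8080808096a284))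
 (c z e
 (c z e
 (c z e
 (c z e
 (c z e
 (c z e
 (c z e
 (c (a (nat_lit 0x8c988d191723e4345)) e e))))))))
 (c (a (nat_lit 0x20202033258265))
 (c z e
 (c z e
 (c z e
 (c z e
 (c z e
 (c z e
 (c z e
 (c z e
 (c (a (nat_lit 0xfb0b3fe56f833f326)) e e)))))))))
 (c (a (nat_lit 0x1c1c1df88e585e5))
 (c z e
 (c z e
 (c z e
 (c (a (nat_lit 0x183daa698b48f4e7c5)) e
 (c (a (nat_lit 0x1bca886ae89407e6c5)) e e)))))
 (c (a (nat_lit 0x1e1f1c30363a3a6))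
 (c z e
 (c z e
 (c (a (nat_lit 0xba7a849c6662a3086)) e
 (c (a (nat_lit 0x8e76967e405cc3b85)) e e))))
 (c (a (nat_lit 0xb2220020806a25))
 (c z e
 (c z e
 (c z e
 (c z e
 (c (a (nat_lit 0xa6a0d8763cc916ba6)) e
 (c (a (nat_lit 0x13f1f5c8058da00006)) e e))))))
 (c (a (nat_lit 0x11c26061210bc485))
 (c (a (nat_lit 0x4a5c485c5caf2d5e5)) e
 (c (a (nat_lit 0x2e1838365f1a9ab66)) e e))
 (c (a (nat_lit 0xa0c2243a8b0424)) e
 (c (a (nat_lit 0x2c3035cd06d4c44)) e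
 (c z e
 (c (a (nat_lit 0x4926ecd6e4de705)) e
 (c z e
 (c z e
 (c (a (nat_lit 0x19b5512a01a3e1e2)) e
 (c z e
 (c (a (nat_lit 0x146cc4066931c802)) e e))))))))))))))))))
 (c z
 (c (a (nat_lit 0x404040404050e1))
 (c z e
 (c z e
 (c z e
 (c z e
 (c z e
 (c (a (nat_lit 0x4a5a645e285255086)) e
 (c z e
 (c z e
 (c z e
 (c (a (nat_lit 0x6ac4eec07e9c65a25)) e
 (c (a (nat_lit 0x74926e12361a157a5)) e
 (c (a (nat_lit 0x60461a585484a5d86)) e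
 (c (a (nat_lit 0x2e163a3c4c9659087)) e
 (c (a (nat_lit 0xe34323e4a6d2a007)) e e))))))))))))))
 (c (a (nat_lit 0xa8a8aaacad8afe1))
 (c z e
 (c z e
 (c z e
 (c (a (nat_lit 0x3e44649e7a5bbe8e6)) e
 (c (a (nat_lit 0x686e4c404285a0906)) e
 (c z e
 (c z e
 (c z e
 (c (a (nat_lit 0x5cc6c0568825dee25)) e
 (c (a (nat_lit 0x665a1072583b22386)) e
 (c (a (nat_lit 0x481e5a5e9eb9aa667)) e e)))))))))))
 (c (a (nat_lit 0x7c7c7c7d3f28de2))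
 (c z e
 (c z e
 (c z e
 (c z e
 (c z e
 (c z e
 (c z e
 (c (a (nat_lit 0x765cb296753078886)) e
 (c (a (nat_lit 0x426e86767d308cb06)) e e)))))))))
 (c (a (nat_lit 0x2a2a2b76d6687c4))
 (c z e
 (c z e
 (c z e
 (c z e
 (c z e
 (c z e
 (c (a (nat_lit 0x90a6c08d547e74ce6)) e
 (c z e
 (c (a (nat_lit 0x687688a32a624a367)) e e)))))))))
 (c (a (nat_lit 0x203b0903666664))
 (c z e
 (c z e
 (c (a (nat_lit 0x82d6e7b76175b9286)) e
 (c z e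
 (c z e
 (c (a (nat_lit 0x88e0d73a42905dbc6)) e
 (c z e
 (c (a (nat_lit 0xd4f8b570b49456007)) e e))))))))
 (c (b (nat_lit 0xff055fe7a7b0a4))
 (c (a (nat_lit 0x78733ef8a2c7d56a6)) e
 (c (a (nat_lit 0x2922e66c7b9308b06)) e
 (c z e
 (c z e
 (c (a (nat_lit 0x727534a04a68cd467)) e
 (c (a (nat_lit 0x810aee2a52c0f2847)) e
 (c (a (nat_lit 0x17b3d5edc929c00007)) e e)))))))
 (c (a (nat_lit 0x10a36060e0ed69a4))
 (c z e
 (c z e
 (c z e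
 (c z e
 (c z e
 (c (a (nat_lit 0x7f1e4c3a3a0000007)) e e))))))
 (c (a (nat_lit 0xe041a1de0f6743)) e
 (c (a (nat_lit 0x2632574ec686744))
 (c (a (nat_lit 0x3a4642b1c23c204c6)) e e)
 (c z e
 (c (a (nat_lit 0x456502f701068a4)) e
 (c (a (nat_lit 0xf6d0cce30a80045)) e
 (c z e
 (c z e
 (c (a (nat_lit 0x13f4aa6261a0e323)) e
 (c (a (nat_lit 0x118c6968e889aa04)) e e))))))))))))))))
 C481))) Tr.c Tr.e (nat_lit 0) C.cx C.cy
noncomputable def C483 : Tr := beta% (fun (c : Nat → Tr → Tr → Tr) (e : Tr) (z : Nat) (a b : Nat → Nat) =>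
 (c z
 (c z
 (c (a (nat_lit 0x70bce8eced576dc5142)) e
 (c z e
 (c z e
 (c z e
 (c z e
 (c z e
 (c z e
 (c z e
 (c z e
 (c z e
 (c z e
 (c z e
 (c z e
 (c z e
 (c z e
 (c (a (nat_lit 0x4a58585c5084bf16467)) e e))))))))))))))))
 (c (a (nat_lit 0x16161616171c525a4)) e
 (c (a (nat_lit 0x3a3a3a3be03682083)) e
 (c z
 (c z e
 (c z e
 (c z e
 (c z e
 (c z e
 (c z e
 (c z e
 (c z e
 (c z e
 (c z e
 (c (a (nat_lit 0x24624c484a2032c9367)) e e)))))))))))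
 (c (a (nat_lit 0x262624301e1213105)) e
 (c z e
 (c z e
 (c z e
 (c z e
 (c z e
 (c z e
 (c z e
 (c z e
 (c z e
 (c z e
 (c (a (nat_lit 0x15591813b2ebabb3e4)) e
 (c (a (nat_lit 0x463c6ea2828281065)) e e)))))))))))))))))
 (c z
 (c (a (nat_lit 0x101010115046401a4)) e
 (c (a (nat_lit 0xe0e0f7e424a060c5))
 (c z e
 (c z e
 (c z e
 (c z e
 (c z e
 (c z e
 (c z e
 (c z e
 (c z e
 (c z e
 (c z e
 (c (a (nat_lit 0x4ccaaf0864291665c07)) e e))))))))))))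
 (c (a (nat_lit 0xc0c782c2406090a6))
 (c z e
 (c z e
 (c z e
 (c z e
 (c z e
 (c z e
 (c z e
 (c z e
 (c z e
 (c (a (nat_lit 0x64947eb04644583f387)) e
 (c (a (nat_lit 0xbc9eda62223661dc9a7)) e e)))))))))))
 (c (a (nat_lit 0xc8c3a280e10c5286)) e
 (c z e
 (c z e
 (c z e
 (c z e
 (c z e
 (c z e
 (c z e
 (c (a (nat_lit 0x19d20cacebaa224325)) e e))))))))))))
 (c z
 (c (a (nat_lit 0x1c1c9c22300a07345))
 (c z e
 (c z e
 (c z e
 (c z e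
 (c z e
 (c z e
 (c z e
 (c z e
 (c z e
 (c z e
 (c z e
 (c z e
 (c z e
 (c (a (nat_lit 0x467b2a622e000000008)) e e))))))))))))))
 (c (a (nat_lit 0xc7618200a0b22d66))
 (c z e
 (c z e
 (c z e
 (c z e
 (c z e
 (c z e
 (c z e
 (c z e
 (c z e
 (c z e
 (c (a (nat_lit 0x6274763c5a85f2dc007)) e e)))))))))))
 (c (a (nat_lit 0x76322606091522946)) e
 (c z e
 (c z e
 (c z e
 (c z e
 (c z e
 (c z e
 (c z e
 (c (a (nat_lit 0x13350feac78846a7a5)) e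
 (c (a (nat_lit 0x1f1408c729c924a5e4)) e e))))))))))))
 (c z
 (c (a (nat_lit 0x1c0e0c06072908ba5)) e
 (c z e
 (c z e
 (c z e
 (c z e
 (c z e
 (c z e
 (c z e
 (c (a (nat_lit 0x124c046323234365c5)) e
 (c (a (nat_lit 0x138c4b69c7c70867c5)) e
 (c (a (nat_lit 0xae7aaa8298a225504)) e
 (c (a (nat_lit 0xb8d6ff25150329386)) e e))))))))))))
 (c z
 (c z e
 (c z e
 (c z e
 (c z e
 (c z e
 (c z e
 (c z e
 (c z e
 (c (a (nat_lit 0x163990d2ef107515c4)) e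
 (c (a (nat_lit 0x15684b482a2b795e04)) e
 (c (b (nat_lit 0x4a769ffeb8d6d5b26)) e e)))))))))))
 (c z
 (c z e
 (c z e
 (c z e
 (c z e
 (c z e
 (c z e
 (c z e
 (c (a (nat_lit 0xb70ec4d6e717670e5)) e
 (c (a (nat_lit 0x9874767c7d24d2966)) e e)))))))))
 (c (a (nat_lit 0x20202020203a84))
 (c z e
 (c z e
 (c z e
 (c z e
 (c z e
 (c (a (nat_lit 0x5a1e30121e386f5e5)) e
 (c (a (nat_lit 0x66968686df6584985)) e e)))))))
 (c (a (nat_lit 0x4040404053e525)) e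
 (c (a (nat_lit 0x16161617c84c3e5))
 (c z e
 (c z e
 (c (a (nat_lit 0x80aada20584f68e05)) e
 (c (a (nat_lit 0x8ca01c525782cf565)) e e))))
 (c (a (nat_lit 0x20203f2581a1a4)) e
 (c (a (nat_lit 0x405b8501c3c3e4))
 (c z e
 (c (a (nat_lit 0xb4ee806a8c9895885)) e e))
 (c (a (nat_lit 0x114120e24266c5))
 (c (a (nat_lit 0x3c304426303235a26)) e
 (c z e
 (c (a (nat_lit 0x9c4e24186e652c8a6)) e e)))
 (c (a (nat_lit 0x1322020343680985))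
 (c z e
 (c z e
 (c (a (nat_lit 0x1b33098aa740000006)) e e)))
 (c z e
 (c z e
 (c z e
 (c z e
 (c (a (nat_lit 0x17369e4949042483)) e
 (c (a (nat_lit 0x125a450500208063)) e
 (c (a (nat_lit 0x1ae5c5a0a100e423)) e e))))))))))))))))))))) Tr.c Tr.e (nat_lit 0) C.cx C.cy
noncomputable def C484 : Tr := beta% (fun (c : Nat → Tr → Tr → Tr) (e : Tr) (z : Nat) (a b : Nat → Nat) =>
 (c z
 (c z
 (c z
 (c (a (nat_lit 0x30303031744034423e2)) e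
 (c (a (nat_lit 0x2828299e343446402a3)) e
 (c (a (nat_lit 0x1213de2418302a446a3)) e e)))
 (c z
 (c (a (nat_lit 0x40412c345c6660aaf83)) e
 (c (a (nat_lit 0x29c640424e4cdf42fe4)) e
 (c (a (nat_lit 0x1de2e3a3e3b5ee01a664)) e e)))
 (c (a (nat_lit 0x4040404040405c64))
 (c (a (nat_lit 0x11436323e3ca0ba64804)) e e)
 (c (a (nat_lit 0xe0e0e0e0e0fdc164)) e
 (c (a (nat_lit 0xa0a0a0a0b4a100e4)) e
 (c (a (nat_lit 0xe0e0e0f3a080c024)) e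
 (c (a (nat_lit 0xa0a0b501a0e08084)) e
 (c (a (nat_lit 0x2829a672424e4c264)) e
 (c (a (nat_lit 0x35e6804c6260224e4)) e
 (c (a (nat_lit 0x1d87872827e4c402e4)) e e))))))))))
 (c z
 (c (a (nat_lit 0x1a1a1a1a1a1a1b143))
 (c (a (nat_lit 0x9a7e76aeacab173d523)) e
 (c (a (nat_lit 0x11e60806e6f5fd3f2e64)) e
 (c z e
 (c z e
 (c z e
 (c z e
 (c z e
 (c z e
 (c z e
 (c z e
 (c z e
 (c z e
 (c z e
 (c z e
 (c z e
 (c (a (nat_lit 0x708090929486cd37467)) e e))))))))))))))))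
 (c (a (nat_lit 0x6060606060734225))
 (c z e
 (c z e
 (c z e
 (c z e
 (c z e
 (c z e
 (c z e
 (c z e
 (c z e
 (c z e
 (c z e
 (c z e
 (c z e
 (c z e
 (c (a (nat_lit 0x525a666c689304fe408)) e e)))))))))))))))
 (c (a (nat_lit 0x808080809320a145))
 (c z e
 (c z e
 (c z e
 (c z e
 (c z e
 (c z e
 (c z e
 (c z e
 (c z e
 (c z e
 (c z e
 (c z e
 (c z e
 (c (a (nat_lit 0x4e504e5aa32a8c2e008)) e e))))))))))))))
 (c (a (nat_lit 0x1a1a1a1b2a1c1c0e4)) e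
 (c (a (nat_lit 0x2828291c26100c0c4)) e
 (c (a (nat_lit 0x10115a56302829264)) e
 (c (a (nat_lit 0xfd6d078847a92684)) e
 (c (a (nat_lit 0x1287e4e66664e725a5)) e
 (c z e
 (c z e
 (c z e
 (c z e
 (c z e
 (c z e
 (c (a (nat_lit 0x10cdadea8584e14025)) e
 (c (a (nat_lit 0x1edfbed6ae4b67ec64)) e
 (c (a (nat_lit 0xc7110960e2b0a5aa4)) e e)))))))))))))))))
 (c z
 (c (a (nat_lit 0x2424242425642a2c4)) e
 (c (a (nat_lit 0xe0e0e0f800c0e085)) e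
 (c (a (nat_lit 0xa0a0b081a0a080a5)) e
 (c (a (nat_lit 0x6070a16120c0cae5)) e
 (c (a (nat_lit 0x70226181012b8ac5)) e
 (c (a (nat_lit 0x13e582836386c3e285)) e
 (c z e
 (c z e
 (c z e
 (c z e
 (c z e
 (c z e
 (c z e
 (c (a (nat_lit 0x1b32b44b0aa463c4c4)) e
 (c (b (nat_lit 0x9d0bfffef8bea7b64)) e
 (c (a (nat_lit 0x7674a6f8f6d4e1105)) e e))))))))))))))))
 (c z
 (c (a (nat_lit 0x1a1a1ba21c1c08064)) e
 (c (a (nat_lit 0x8091c141008073c5)) e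
 (c (a (nat_lit 0x1d162c2c121126ba5)) e
 (c (a (nat_lit 0x11e26260a07228c385)) e
 (c z e
 (c z e
 (c (a (nat_lit 0xb2c33ea27c58365a5)) e
 (c (a (nat_lit 0x496c742252102aa64)) e e))))))))
 (c z
 (c z e
 (c (a (nat_lit 0x13a6a7c4c51e7a3544)) e e))
 (c z e
 (c z e
 (c z
 (c z e
 (c z e
 (c z e
 (c z e
 (c z e
 (c z e
 (c (a (nat_lit 0x3e465a5864c11ea45)) e
 (c (a (nat_lit 0x566c606a633ec86c5)) e
 (c (a (nat_lit 0xcae6f0f13301e2a85)) e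
 (c (a (nat_lit 0xdeeaeb1eff0159c45)) e e))))))))))
 (c (a (nat_lit 0x202020202031e5))
 (c z e
 (c z e
 (c z e
 (c z e
 (c z e
 (c z e
 (c (a (nat_lit 0x114f72327e1a528fc5)) e
 (c (a (nat_lit 0x809898b8ad2878626)) e e))))))))
 (c (a (nat_lit 0xc0c0c0c0d261e5)) e
 (c (a (nat_lit 0x4040405f042184)) e
 (c (a (nat_lit 0x80809f656221e4)) e
 (c (a (nat_lit 0x1e1f382e3030305))
 (c (a (nat_lit 0xd8cf02f48e8689d84)) e
 (c (a (nat_lit 0xc6f6ba362a5ec91a5)) e e))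
 (c (a (nat_lit 0x30e0a0e0e0e225))
 (c z e
 (c z e
 (c (a (nat_lit 0x1b8fd68b1b05400004)) e e)))
 (c (a (nat_lit 0x1be2c2e2c2c56484)) e
 (c (a (nat_lit 0x78847e7f2b14fe3)) e
 (c (a (nat_lit 0xf2dce3b3d7c1ec3)) e e)))))))))))))))))
 (c z C483
 (c z
 (c z
 (c z e
 (c (a (nat_lit 0x2223162e2a0c118a4)) e
 (c (a (nat_lit 0x14682816060ceb205)) e
 (c (a (nat_lit 0x1185a4e2a34df1cb44)) e
 (c z e
 (c z e
 (c z e
 (c z e
 (c z e
 (c z e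
 (c z e
 (c z e
 (c z e
 (c (a (nat_lit 0x100fb4d0720e8eec04)) e
 (c (a (nat_lit 0x38b2d8d2c8c0bd425)) e e)))))))))))))))
 (c z
 (c (a (nat_lit 0x2e8e34321a171cb65)) e
 (c (a (nat_lit 0x11038301015d584de5))
 (c z e
 (c z e
 (c z e
 (c z e
 (c z e
 (c z e
 (c z e
 (c z e
 (c z e
 (c z e
 (c z e
 (c (a (nat_lit 0xa3209c2a84000000008)) e e))))))))))))
 (c (a (nat_lit 0x28282221530ea0c45)) e
 (c z e
 (c z e
 (c z e
 (c z e
 (c z e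
 (c z e
 (c z e
 (c (a (nat_lit 0x140ecfafcd0a4b4464)) e
 (c (a (nat_lit 0xdaceff1108d6b44c4)) e
 (c (b (nat_lit 0x890dffff1704df764)) e e)))))))))))))
 (c z
 (c (a (nat_lit 0x180e0606ed0290bc5)) e
 (c z e
 (c z e
 (c z e
 (c z e
 (c z e
 (c z e
 (c z e
 (c z e
 (c (a (nat_lit 0x1ad7ddcbd65302ada3)) e
 (c (a (nat_lit 0x1074b3d7d4cf0bddc4)) e
 (c (a (nat_lit 0x96b2ccc8c0ead3a26)) e
 (c z e
 (c (a (nat_lit 0x80aeb735231d27c06)) e e))))))))))))))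
 (c z
 (c z e
 (c z e
 (c z e
 (c z e
 (c z e
 (c z e
 (c z e
 (c z e
 (c (a (nat_lit 0x1229332e5046ca2f04)) e
 (c (a (nat_lit 0x46887682631cc5fa5)) e
 (c (a (nat_lit 0x74729c86e0d976cc6)) e e)))))))))))
 (c (a (nat_lit 0x20202020203e24))
 (c z e
 (c z e
 (c z e
 (c z e
 (c z e
 (c z e
 (c z e
 (c z e
 (c (a (nat_lit 0x48443a42eac11a5e6)) e e)))))))))
 (c (a (nat_lit 0x20202020356425)) e
 (c (a (nat_lit 0x40404050a381e6))
 (c z e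
 (c z e
 (c z e
 (c z e
 (c z e
 (c z e
 (c (a (nat_lit 0xa499453fcc8e787a6)) e e)))))))
 (c (a (nat_lit 0x1a1a1b383844466))
 (c z e
 (c z e
 (c (a (nat_lit 0x17fc074d2eb2349325)) e e)))
 (c (a (nat_lit 0x60764220a141a5))
 (c z e
 (c z e
 (c z e
 (c z e
 (c (a (nat_lit 0x11b17525a9860b6e26)) e e)))))
 (c (a (nat_lit 0x9602e0824265a5))
 (c z e
 (c (a (nat_lit 0x966e64a866a358e05)) e e))
 (c (a (nat_lit 0x17e16102a307a605))
 (c (a (nat_lit 0x404c3c22427b9e8a6)) e e)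
 (c (a (nat_lit 0x483e9e9feff1803)) e
 (c z e
 (c z e
 (c z e
 (c z e
 (c (a (nat_lit 0x17b1d44684a4a4c3)) e
 (c (a (nat_lit 0xdf022a08100e023)) e
 (c (a (nat_lit 0x1162e181218120c3)) e e)))))))))))))))))))
 C482)))) Tr.c Tr.e (nat_lit 0) C.cx C.cy
noncomputable def C485 : Tr := beta% (fun (c : Nat → Tr → Tr → Tr) (e : Tr) (z : Nat) (a b : Nat → Nat) =>
 (c z
 (c z
 (c z
 (c z e
 (c (a (nat_lit 0x3a68665054a4cb5c782)) e e))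
 (c z
 (c (a (nat_lit 0x7e74484ad511ea88702)) e e) e))
 (c z
 (c z e
 (c z e
 (c z e
 (c (a (nat_lit 0x1c1c4e585604135a3)) e e))))
 (c z
 (c z e
 (c (a (nat_lit 0x26283030581615883)) e
 (c (a (nat_lit 0x1a1a2c36060704f64)) e e)))
 (c z
 (c (a (nat_lit 0x5220546e3c3f9bae2)) e e)
 (c z e
 (c z e
 (c z e
 (c (a (nat_lit 0x181818181819ce2)) e
 (c (a (nat_lit 0xe0e0e0e0fbe3a2)) e
 (c (a (nat_lit 0x2828282960362c2)) e
 (c z e
 (c (a (nat_lit 0x4058e120e242e2)) e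
 (c (a (nat_lit 0xdc6020c161cac2)) e
 (c (a (nat_lit 0x1c61218243757ba1)) e
 (c (a (nat_lit 0xb2bec0c3b5e7aa2)) e
 (c (a (nat_lit 0xa0a2a5b3e5a9482)) e
 (c (a (nat_lit 0x86870d2316e4f23)) e e)))))))))))))))))
 (c z
 (c z
 (c z e
 (c z e
 (c (a (nat_lit 0x9898349e94687dce2)) e e)))
 (c z e
 (c z e
 (c z e
 (c z e
 (c (a (nat_lit 0x60606060607ac1)) e
 (c (a (nat_lit 0x2e2e2e2e2f20503)) e
 (c (a (nat_lit 0x1c1c1c1d683e3e3)) e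
 (c z e
 (c (a (nat_lit 0x12133c12122c3e2)) e
 (c (a (nat_lit 0x25c4323652647c2)) e
 (c (a (nat_lit 0x1e8020e22365c5e2)) e
 (c z e
 (c z e
 (c (a (nat_lit 0xa8a9555371574c2)) e
 (c (a (nat_lit 0x832d296945412e2)) e e))))))))))))))))
 (c z
 (c z e
 (c z e
 (c z e
 (c z e
 (c z e
 (c (a (nat_lit 0x28282829205c5c3)) e
 (c (a (nat_lit 0x404041544668683)) e
 (c z e
 (c (a (nat_lit 0x94a18121a07c61)) e
 (c (a (nat_lit 0x10a0c080e08feba2)) e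
 (c (a (nat_lit 0x60e0e090ce2c02)) e
 (c z e
 (c z e
 (c z e
 (c z e
 (c z e
 (c (a (nat_lit 0x19f97a15f6377783)) e e)))))))))))))))))
 (c z
 (c z e
 (c z
 (c z e
 (c z e
 (c z e
 (c z e
 (c z e
 (c z e
 (c z e
 (c z e
 (c z e
 (c z e
 (c z e
 (c (a (nat_lit 0x100c2a302c4e59326)) e
 (c (a (nat_lit 0x1c5a585e58db98005)) e e)))))))))))))
 (c z e
 (c z e
 (c (a (nat_lit 0x646465fc807cae2)) e
 (c (a (nat_lit 0x2038a3a4852522)) e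
 (c z e
 (c z e
 (c z e
 (c z e
 (c z e
 (c (a (nat_lit 0x85716d8773700a2)) e e))))))))))))
 (c z
 (c z e
 (c (a (nat_lit 0x115151514434b801))
 (c z e
 (c z e
 (c z e
 (c z e
 (c z e
 (c z e
 (c z e
 (c z e
 (c (a (nat_lit 0x1c4c384c2e54c54a5)) e e)))))))))
 (c z e
 (c (a (nat_lit 0xdadae501393b381)) e
 (c (a (nat_lit 0x53c6a9c706ee61)) e
 (c z e
 (c z e
 (c z e
 (c z e
 (c z e
 (c z e
 (c z e
 (c (b (nat_lit 0x17b6d75fe4c18182)) e e)))))))))))))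
 (c z e
 (c z e
 (c z
 (c z e
 (c (a (nat_lit 0x13b5554e4e8a43e3)) e
 (c z e
 (c (a (nat_lit 0x1429a7c120203342)) e
 (c (a (nat_lit 0xd6283624256f3e2)) e
 (c z e
 (c (a (nat_lit 0x62589922e535362)) e
 (c (a (nat_lit 0x3a5741136365002)) e
 (c (a (nat_lit 0x74d6bce926f5b03)) e e)))))))))
 (c z
 (c z e
 (c (a (nat_lit 0x15904d4e40405822)) e
 (c (a (nat_lit 0xee5a0c0207712c2)) e
 (c z e
 (c z e
 (c (a (nat_lit 0x449942b3358f2a1)) e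
 (c (a (nat_lit 0x2af868f94ee5fa1)) e
 (c z e
 (c (a (nat_lit 0x572f53853f77603)) e e)))))))))
 (c z e
 (c z e
 (c z e
 (c z
 (c (a (nat_lit 0x82888c98dbede42)) e
 (c z e
 (c (a (nat_lit 0x11d2d33757f1d784)) e e)))
 (c z
 (c (a (nat_lit 0x1292927275b4d224)) e
 (c (a (nat_lit 0xccc4c1c7618e5e2)) e e))
 (c (a (nat_lit 0x32323232337a1))
 (c z e
 (c (a (nat_lit 0xd504c6064313882)) e e))
 (c (a (nat_lit 0x40404041483a1))
 (c z e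
 (c (a (nat_lit 0xcaa2a4ed4e00004)) e e))
 (c (a (nat_lit 0x2a2a2b2418081)) e
 (c (a (nat_lit 0xa0b3a3222281)) e
 (c (a (nat_lit 0x45766e5e62621)) e
 (c (a (nat_lit 0x1524c3a4040101)) e e))))))))))))))))))))) Tr.c Tr.e (nat_lit 0) C.cx C.cy
noncomputable def C487 : Tr := beta% (fun (c : Nat → Tr → Tr → Tr) (e : Tr) (z : Nat) (a b : Nat → Nat) =>
 (c z
 (c (a (nat_lit 0x202021))
 (c (a (nat_lit 0xc0a06001)) e
 (c (a (nat_lit 0x161a04001)) e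
 (c (a (nat_lit 0x1c1e06001)) e
 (c (a (nat_lit 0xe0c06001)) e
 (c (a (nat_lit 0x20203105)) e
 (c (a (nat_lit 0x29f832e7)) e e))))))
 (c (a (nat_lit 0x2021))
 (c (a (nat_lit 0xe0c06001)) e
 (c (a (nat_lit 0x1e2e08001)) e
 (c (a (nat_lit 0x203467)) e
 (c (a (nat_lit 0x2c16f828)) e e))))
 (c (a (nat_lit 0x2021))
 (c (a (nat_lit 0x20203ec6)) e
 (c (a (nat_lit 0x20338f68)) e e))
 (c (a (nat_lit 0x202021))
 (c z e
 (c (a (nat_lit 0x1b3cbd5167)) e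
 (c (a (nat_lit 0x11ed200008)) e e)))
 (c (a (nat_lit 0x202041))
 (c (a (nat_lit 0x15ef0f4007)) e
 (c (nat_lit 1) e e))
 (c z e
 (c z e
 (c (a (nat_lit 0x18922006)) e
 (c (a (nat_lit 0x12402006)) e
 (c (a (nat_lit 0x602001)) e
 (c (a (nat_lit 0x402001)) e
 (c (a (nat_lit 0x402001)) e
 (c (a (nat_lit 0x402041)) e
 (c (a (nat_lit 0x2021)) e
 (c (a (nat_lit 0x604001)) e
 (c (a (nat_lit 0x402021)) e
 (c (a (nat_lit 0x200001)) e e)))))))))))))))))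
 (c z
 (c (a (nat_lit 0x202021))
 (c (a (nat_lit 0x41814121)) e
 (c (a (nat_lit 0x20407a03)) e
 (c (a (nat_lit 0x2216c7)) e
 (c (a (nat_lit 0x27f531a8)) e e))))
 (c (a (nat_lit 0x202021))
 (c (a (nat_lit 0x2058e7)) e
 (c (a (nat_lit 0x881afc88)) e e))
 (c (b (nat_lit 0x203fe1)) e
 (c (a (nat_lit 0x217d05))
 (c (a (nat_lit 0x106bc00008)) e e)
 (c z e
 (c (a (nat_lit 0x1bd7c026)) e
 (c (a (nat_lit 0x17a02026)) e
 (c (nat_lit 1) e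
 (c (a (nat_lit 0x2001)) e
 (c (a (nat_lit 0x204001)) e
 (c (a (nat_lit 0x400001)) e
 (c (a (nat_lit 0x602001)) e
 (c (a (nat_lit 0xa00001)) e
 (c (a (nat_lit 0xc02001)) e
 (c (a (nat_lit 0x802001)) e e)))))))))))))))
 (c (a (nat_lit 0x2021))
 (c z
 (c (a (nat_lit 0x2027b887)) e
 (c (a (nat_lit 0x673fabe28)) e e))
 (c (b (nat_lit 0x3ff246)) e
 (c z e
 (c (a (nat_lit 0x1dd9c026)) e
 (c (a (nat_lit 0x19c02026)) e
 (c (nat_lit 1) e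
 (c (a (nat_lit 0x604021)) e
 (c (nat_lit 1) e
 (c (a (nat_lit 0x400001)) e
 (c (a (nat_lit 0x802001)) e
 (c (a (nat_lit 0x604001)) e
 (c (a (nat_lit 0xa02001)) e
 (c (a (nat_lit 0x804021)) e
 (c (a (nat_lit 0x400001)) e e))))))))))))))
 (c (a (nat_lit 0x2021))
 (c z e
 (c (a (nat_lit 0x1f1b2026)) e
 (c (a (nat_lit 0x18c00026)) e
 (c (a (nat_lit 0x604081)) e
 (c (nat_lit 1) e
 (c (a (nat_lit 0x800001)) e
 (c (a (nat_lit 0x202041)) e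
 (c (a (nat_lit 0x2061)) e
 (c (a (nat_lit 0x40a1)) e
 (c (a (nat_lit 0x6041)) e
 (c (a (nat_lit 0x20a1)) e
 (c (a (nat_lit 0x2001)) e e))))))))))))
 (c (a (nat_lit 0x2021))
 (c (a (nat_lit 0x1aa02005)) e
 (c (a (nat_lit 0x202001)) e
 (c (a (nat_lit 0x400001)) e
 (c (a (nat_lit 0x202001)) e
 (c (a (nat_lit 0x41)) e
 (c (a (nat_lit 0x6021)) e
 (c (a (nat_lit 0x202061)) e
 (c (a (nat_lit 0x206021)) e
 (c (a (nat_lit 0x408001)) e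
 (c (a (nat_lit 0x402021)) e
 (c (a (nat_lit 0x400001)) e e)))))))))))
 (c (a (nat_lit 0x2021))
 (c (a (nat_lit 0x202021)) e
 (c (a (nat_lit 0x202021)) e
 (c (a (nat_lit 0x202021)) e
 (c (a (nat_lit 0x202021)) e
 (c (a (nat_lit 0x202021)) e
 (c (a (nat_lit 0x202021)) e
 (c (a (nat_lit 0x202021)) e
 (c (a (nat_lit 0x202021)) e
 (c (a (nat_lit 0x202001)) e e)))))))))
 (c (a (nat_lit 0x2021))
 (c (a (nat_lit 0x202021)) e
 (c (a (nat_lit 0x202021)) e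
 (c (a (nat_lit 0x202021)) e
 (c (a (nat_lit 0x202021)) e
 (c (a (nat_lit 0x202021)) e
 (c (a (nat_lit 0x202021)) e
 (c (a (nat_lit 0x202021)) e
 (c (a (nat_lit 0x200001)) e e))))))))
 (c (a (nat_lit 0x2021))
 (c (a (nat_lit 0x202021)) e
 (c (a (nat_lit 0x202021)) e
 (c (a (nat_lit 0x202021)) e
 (c (a (nat_lit 0x202021)) e
 (c (a (nat_lit 0x202021)) e
 (c (a (nat_lit 0x202001)) e e))))))
 (c (a (nat_lit 0x2021))
 (c (a (nat_lit 0x202021)) e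
 (c (a (nat_lit 0x202021)) e
 (c (a (nat_lit 0x202021)) e
 (c (a (nat_lit 0x202021)) e
 (c (a (nat_lit 0x200001)) e e)))))
 (c (a (nat_lit 0x2021))
 (c (a (nat_lit 0x202021)) e
 (c (a (nat_lit 0x202021)) e
 (c (a (nat_lit 0x202001)) e e)))
 (c (a (nat_lit 0x2021))
 (c (a (nat_lit 0x202021)) e
 (c (a (nat_lit 0x200001)) e e))
 (c (a (nat_lit 0x2021)) e
 (c (a (nat_lit 0x2021)) e
 (c (a (nat_lit 0x2021)) e
 (c (a (nat_lit 0x2021)) e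
 (c (a (nat_lit 0x2021)) e
 (c (a (nat_lit 0x2021)) e
 (c (a (nat_lit 0x2021)) e
 (c (a (nat_lit 0x2021)) e
 (c (a (nat_lit 0x2021)) e
 (c (a (nat_lit 0x2021)) e
 (c (a (nat_lit 0x2021)) e
 (c (a (nat_lit 0x2021)) e
 (c (a (nat_lit 0x4041)) e e))))))))))))))))))))))))) Tr.c Tr.e (nat_lit 0) C.cx C.cy
noncomputable def C488 : Tr := beta% (fun (c : Nat → Tr → Tr → Tr) (e : Tr) (z : Nat) (a b : Nat → Nat) =>
 (c z
 (c (a (nat_lit 0x202021))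
 (c (a (nat_lit 0x40406001))
 (c (a (nat_lit 0x6a6440c0a1)) e
 (c (a (nat_lit 0x1800a3e22182)) e
 (c (a (nat_lit 0x2826a232081)) e
 (c (a (nat_lit 0x8c145e12021)) e
 (c (a (nat_lit 0x121a340c001)) e
 (c (a (nat_lit 0xc160000001)) e e))))))
 (c (a (nat_lit 0xe081c121))
 (c (a (nat_lit 0x2a14a05c241)) e
 (c (a (nat_lit 0x402afa5c261)) e
 (c (a (nat_lit 0x3a367a54181)) e
 (c (a (nat_lit 0x24443c00001)) e
 (c (a (nat_lit 0x1c000000001)) e e)))))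
 (c (a (nat_lit 0xc0612041))
 (c (a (nat_lit 0x1c165a28101)) e
 (c (a (nat_lit 0x20446024001)) e
 (c (a (nat_lit 0x50260000001)) e e)))
 (c (a (nat_lit 0x80604001))
 (c (a (nat_lit 0x3c381400001)) e
 (c (a (nat_lit 0x42000000001)) e e))
 (c (a (nat_lit 0xa0608021)) e
 (c (a (nat_lit 0xa0c0c001)) e
 (c (a (nat_lit 0x40a100e1)) e
 (c (a (nat_lit 0x81218101)) e
 (c (a (nat_lit 0xa08140c1)) e
 (c (a (nat_lit 0x8087c721)) e
 (c (a (nat_lit 0x161609065)) e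
 (c (a (nat_lit 0x20376a65)) e e))))))))))))
 (c (nat_lit 1)
 (c (a (nat_lit 0x806120a1))
 (c (a (nat_lit 0xa104624161)) e
 (c (a (nat_lit 0x2c2e6848221)) e
 (c (a (nat_lit 0x24446e30001)) e
 (c (a (nat_lit 0x3e3a0000001)) e e))))
 (c (a (nat_lit 0xa0408001))
 (c (a (nat_lit 0x18304a3e081)) e
 (c (a (nat_lit 0x9aa87400001)) e
 (c (a (nat_lit 0x72000000001)) e e)))
 (c (a (nat_lit 0x1218140a1))
 (c (a (nat_lit 0x90320000001)) e e)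
 (c (a (nat_lit 0xe1010021)) e
 (c (a (nat_lit 0x12060e001)) e
 (c (a (nat_lit 0x14221c1)) e
 (c (a (nat_lit 0xa04280c1)) e
 (c (a (nat_lit 0x40488741)) e
 (c (a (nat_lit 0x20209a24)) e
 (c (a (nat_lit 0x36377dc25)) e e))))))))))
 (c (nat_lit 1)
 (c (a (nat_lit 0x60606041))
 (c (a (nat_lit 0x14181806001)) e
 (c (a (nat_lit 0x5c2c0000001)) e e))
 (c (a (nat_lit 0x100c0a001))
 (c (a (nat_lit 0x30000000001)) e e)
 (c (a (nat_lit 0x180e0c001)) e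
 (c (a (nat_lit 0x160c18001)) e
 (c (a (nat_lit 0xa2e161)) e
 (c (a (nat_lit 0xa08e0c01)) e
 (c (a (nat_lit 0x20607da4)) e
 (c (a (nat_lit 0x40966885)) e e))))))))
 (c (nat_lit 1)
 (c (a (nat_lit 0xe0a08001)) e
 (c (a (nat_lit 0x261c02001)) e
 (c (a (nat_lit 0x1a1004001)) e
 (c (a (nat_lit 0x690801)) e
 (c (a (nat_lit 0x202039c6)) e
 (c (a (nat_lit 0x80b95426)) e
 (c z e
 (c (a (nat_lit 0x1b32252506)) e
 (c (a (nat_lit 0x1a40200005)) e e)))))))))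
 (c (a (nat_lit 0x202021))
 (c (a (nat_lit 0x141204001)) e
 (c (a (nat_lit 0x180a34181)) e
 (c (a (nat_lit 0x202030a6)) e
 (c (a (nat_lit 0x2a6f94c8)) e
 (c z e
 (c (a (nat_lit 0xa32748947)) e
 (c (a (nat_lit 0xbb0a34007)) e
 (c (a (nat_lit 0x1500000006)) e e))))))))
 (c (a (nat_lit 0x202021))
 (c (a (nat_lit 0x20405fe4)) e
 (c (a (nat_lit 0x39fedea8)) e
 (c z e
 (c z e
 (c (a (nat_lit 0x10a0202467)) e
 (c (a (nat_lit 0x1200001)) e e))))))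
 (c (a (nat_lit 0x202001))
 (c z e
 (c (a (nat_lit 0x104fb064a9)) e
 (c (a (nat_lit 0xf72202007)) e
 (c (a (nat_lit 0x40806001)) e
 (c (a (nat_lit 0x40000001)) e e)))))
 (c (a (nat_lit 0x202021))
 (c (a (nat_lit 0x10510961a8)) e
 (c (a (nat_lit 0x17a0202024)) e
 (c (a (nat_lit 0x100800001)) e e)))
 (c (a (nat_lit 0x202021))
 (c (a (nat_lit 0x20202001)) e
 (c (a (nat_lit 0x20000001)) e e))
 (c (a (nat_lit 0x202021)) e
 (c (a (nat_lit 0x202021)) e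
 (c (a (nat_lit 0x2037e6)) e
 (c z e
 (c (a (nat_lit 0x17d3c006)) e
 (c (a (nat_lit 0x13c02006)) e
 (c (a (nat_lit 0x604001)) e
 (c (a (nat_lit 0x804001)) e
 (c (a (nat_lit 0x602001)) e
 (c (a (nat_lit 0x404001)) e
 (c (a (nat_lit 0x604021)) e
 (c (a (nat_lit 0x202001)) e e)))))))))))))))))))))
 (c z
 (c (a (nat_lit 0x202001))
 (c (a (nat_lit 0x20606041))
 (c (a (nat_lit 0x20a0c0a041)) e
 (c (a (nat_lit 0x6161c1c061)) e
 (c (a (nat_lit 0x12241a00001)) e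
 (c (a (nat_lit 0x18000000001)) e e))))
 (c (a (nat_lit 0x20606001))
 (c (a (nat_lit 0x1e24300a001)) e
 (c (a (nat_lit 0x6c400000001)) e e))
 (c (a (nat_lit 0x80e0e001))
 (c (a (nat_lit 0x1e000000001)) e e)
 (c (a (nat_lit 0xe0408001)) e
 (c (a (nat_lit 0x8080c021)) e
 (c (a (nat_lit 0x20a1c101)) e
 (c (a (nat_lit 0x676661)) e
 (c (a (nat_lit 0x204021)) e
 (c (a (nat_lit 0x40405624)) e
 (c (a (nat_lit 0x24254ae85)) e e))))))))))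
 (c (nat_lit 1)
 (c (a (nat_lit 0x80806001))
 (c (a (nat_lit 0x241e0600001)) e
 (c (a (nat_lit 0x46000000001)) e e))
 (c (a (nat_lit 0x1c160c001)) e
 (c (a (nat_lit 0x180c08001)) e
 (c (a (nat_lit 0xe0c1c021)) e
 (c (a (nat_lit 0x6c2a41)) e
 (c (a (nat_lit 0x12087c621)) e
 (c (a (nat_lit 0x612131e4)) e
 (c (a (nat_lit 0x20301625)) e e))))))))
 (c (a (nat_lit 0x2021))
 (c (a (nat_lit 0x14160a001)) e
 (c (a (nat_lit 0x201c06001)) e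
 (c (a (nat_lit 0x40e40241)) e
 (c (a (nat_lit 0x630161)) e
 (c (a (nat_lit 0x20203506)) e
 (c (a (nat_lit 0x20342a46)) e e))))))
 (c (nat_lit 1)
 (c (a (nat_lit 0x221a12061)) e
 (c (a (nat_lit 0xe1c260a1)) e
 (c (a (nat_lit 0x20203347)) e
 (c (a (nat_lit 0x2d77f7a8)) e
 (c z e
 (c (a (nat_lit 0x12958c66c7)) e
 (c (a (nat_lit 0x1aa7000006)) e e)))))))
 (c (a (nat_lit 0x2021))
 (c (a (nat_lit 0x203a05)) e
 (c (a (nat_lit 0xa393928)) e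
 (c z e
 (c (a (nat_lit 0x1d130c77c7)) e
 (c (a (nat_lit 0x8162de007)) e
 (c (a (nat_lit 0x1e20000006)) e e))))))
 (c (a (nat_lit 0x202001))
 (c z e
 (c (a (nat_lit 0x17d6f88008)) e
 (c (a (nat_lit 0x1672c02026)) e
 (c (a (nat_lit 0x260200001)) e e))))
 (c (a (nat_lit 0x202021))
 (c (a (nat_lit 0x1070c020a7)) e
 (c (a (nat_lit 0x1380202004)) e
 (c (a (nat_lit 0x20000001)) e e)))
 (c (a (nat_lit 0x202021))
 (c (a (nat_lit 0x20200001)) e e)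
 (c (a (nat_lit 0x202041)) e
 (c (a (nat_lit 0x3906)) e
 (c z e
 (c (a (nat_lit 0x16f46006)) e
 (c (a (nat_lit 0x14602006)) e
 (c (a (nat_lit 0x402001)) e
 (c (a (nat_lit 0x400001)) e
 (c (a (nat_lit 0x204001)) e
 (c (a (nat_lit 0x2001)) e
 (c (a (nat_lit 0x204021)) e
 (c (a (nat_lit 0x2021)) e
 (c (a (nat_lit 0x400001)) e e))))))))))))))))))))
 (c z
 (c (a (nat_lit 0x202021))
 (c (a (nat_lit 0x80602021))
 (c (a (nat_lit 0xc040000001)) e e)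
 (c (a (nat_lit 0xc0602001)) e
 (c (a (nat_lit 0xa0a0a001)) e
 (c (a (nat_lit 0x6422a1)) e
 (c (a (nat_lit 0x20638221)) e
 (c (a (nat_lit 0x1206120e1)) e
 (c (a (nat_lit 0xe10110e4)) e
 (c (a (nat_lit 0x3023e5)) e e))))))))
 (c (nat_lit 1)
 (c (a (nat_lit 0x141208001)) e
 (c (a (nat_lit 0x140c1e001)) e
 (c (a (nat_lit 0x101418001)) e
 (c (a (nat_lit 0x8140e0a1)) e
 (c (a (nat_lit 0x20203ce4)) e
 (c (a (nat_lit 0x2a4dd027)) e e))))))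
 (c (a (nat_lit 0x2021))
 (c (a (nat_lit 0x100e20121)) e
 (c (a (nat_lit 0x1a1e24161)) e
 (c (a (nat_lit 0x202037c6)) e
 (c (a (nat_lit 0xd9915c8)) e e))))
 (c (a (nat_lit 0x21))
 (c (a (nat_lit 0x20203725)) e
 (c (a (nat_lit 0x165913887)) e
 (c z e
 (c (a (nat_lit 0x1459fa6a27)) e
 (c (a (nat_lit 0x1008200008)) e e)))))
 (c (a (nat_lit 0x202021))
 (c z e
 (c (a (nat_lit 0x1976718007)) e
 (c (b (nat_lit 0x1fe0300007)) e
 (c (a (nat_lit 0x20000001)) e e))))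
 (c (a (nat_lit 0x202021))
 (c (a (nat_lit 0x138b002527)) e
 (c (a (nat_lit 0x60800001)) e e))
 (c (a (nat_lit 0x202081))
 (c (a (nat_lit 0x20000001)) e e)
 (c (a (nat_lit 0x203aa6)) e
 (c z e
 (c (a (nat_lit 0x17336006)) e
 (c (a (nat_lit 0x13802006)) e
 (c (a (nat_lit 0x2001)) e
 (c (a (nat_lit 0x604001)) e
 (c (a (nat_lit 0xa02001)) e
 (c (a (nat_lit 0x602001)) e
 (c (a (nat_lit 0x204001)) e
 (c (a (nat_lit 0x202001)) e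
 (c (a (nat_lit 0x404001)) e e))))))))))))))))))
 C487)))) Tr.c Tr.e (nat_lit 0) C.cx C.cy
noncomputable def C489 : Tr := beta% (fun (c : Nat → Tr → Tr → Tr) (e : Tr) (z : Nat) (a b : Nat → Nat) =>
 (c (nat_lit 1)
 (c (a (nat_lit 0x144e989764))
 (c (a (nat_lit 0x147c7a6e4e45)) e
 (c (a (nat_lit 0x1d1aef4383a6)) e
 (c (a (nat_lit 0x13b0cb03c3a6)) e
 (c (a (nat_lit 0x1151974b6b45)) e
 (c (a (nat_lit 0xcd39238e745)) e
 (c (a (nat_lit 0x583f1632486)) e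
 (c (b (nat_lit 0xe07bff60385)) e e)))))))
 (c (a (nat_lit 0x338c06063))
 (c (a (nat_lit 0x1ab282006046)) e
 (c (a (nat_lit 0x182921c04027)) e
 (c (a (nat_lit 0xc7082204066)) e
 (c (a (nat_lit 0x1e929f8060a5)) e
 (c (a (nat_lit 0x6fe22406046)) e
 (c (a (nat_lit 0xa77cfc02006)) e e))))))
 (c (a (nat_lit 0x1ae0404043))
 (c (a (nat_lit 0x1ea180602065)) e
 (c (a (nat_lit 0x1a6040a0a0c5)) e
 (c (a (nat_lit 0x147bc0808065)) e
 (c (a (nat_lit 0x1700e0604026)) e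
 (c (a (nat_lit 0x18ede0400006)) e e)))))
 (c (a (nat_lit 0x412120a1))
 (c (a (nat_lit 0x8502c3a281)) e
 (c (a (nat_lit 0x1ba060806045)) e
 (c (a (nat_lit 0x407e9444001)) e
 (c (a (nat_lit 0x168040000005)) e e))))
 (c (a (nat_lit 0x2080a0c1))
 (c (a (nat_lit 0x2a284624041)) e
 (c (a (nat_lit 0x36a25c00001)) e
 (c (a (nat_lit 0x42000000001)) e e)))
 (c (a (nat_lit 0x2022261))
 (c (a (nat_lit 0x2c320000001)) e e)
 (c (a (nat_lit 0x4100e1)) e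
 (c (a (nat_lit 0xe0c161)) e
 (c (a (nat_lit 0x60c0e1)) e
 (c (a (nat_lit 0x608061)) e
 (c (a (nat_lit 0x60c060a1)) e
 (c (a (nat_lit 0xc1006101)) e
 (c (a (nat_lit 0x20203005)) e
 (c (b (nat_lit 0x2fbf7fe5)) e e))))))))))))))
 (c (a (nat_lit 0x202021))
 (c (a (nat_lit 0x1520206044))
 (c (a (nat_lit 0x12a021a0a045)) e
 (c (a (nat_lit 0x148501410085)) e
 (c (a (nat_lit 0x17e0a0c14065)) e
 (c (a (nat_lit 0x115de101e064)) e
 (c (a (nat_lit 0x14a380604026)) e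
 (c (a (nat_lit 0x113080400006)) e e))))))
 (c (a (nat_lit 0xa141c0c1))
 (c (a (nat_lit 0x16a103434163)) e
 (c (a (nat_lit 0x3e810aba222)) e
 (c (a (nat_lit 0x1cc0a180c065)) e
 (c (a (nat_lit 0x7090f65c001)) e
 (c (a (nat_lit 0x13e060000005)) e e)))))
 (c (a (nat_lit 0x16181c001))
 (c (a (nat_lit 0x9832a274121)) e
 (c (a (nat_lit 0x6e62c0861a1)) e
 (c (a (nat_lit 0x3e907400001)) e
 (c (a (nat_lit 0x54000000001)) e e))))
 (c (a (nat_lit 0x40614101))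
 (c (a (nat_lit 0x286a7214001)) e
 (c (a (nat_lit 0xae640000001)) e e))
 (c (a (nat_lit 0x208160e1))
 (c (a (nat_lit 0x22000000001)) e e)
 (c (a (nat_lit 0x808100e1)) e
 (c (a (nat_lit 0xc1a161)) e
 (c (a (nat_lit 0x10181e101)) e
 (c (a (nat_lit 0x121406081)) e
 (c (a (nat_lit 0x20202001)) e
 (c (a (nat_lit 0x20207465)) e
 (c (a (nat_lit 0x3423e5)) e e))))))))))))
 (c (nat_lit 1)
 (c (a (nat_lit 0x40408041))
 (c (a (nat_lit 0x160e8a2a0e1)) e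
 (c (a (nat_lit 0x2e271e52381)) e
 (c (a (nat_lit 0x20389250141)) e
 (c (a (nat_lit 0x1c504800001)) e
 (c (a (nat_lit 0x14000000001)) e e)))))
 (c (a (nat_lit 0x80a221c1))
 (c (a (nat_lit 0x2e2aa2583c1)) e
 (c (a (nat_lit 0x388ce644001)) e
 (c (a (nat_lit 0x72640000001)) e e)))
 (c (a (nat_lit 0xe16161))
 (c (a (nat_lit 0x566e3200001)) e
 (c (a (nat_lit 0x72000000001)) e e))
 (c (a (nat_lit 0x4081c101)) e
 (c (a (nat_lit 0x20c0e081)) e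
 (c (a (nat_lit 0x10120c1)) e
 (c (a (nat_lit 0x16080e1)) e
 (c (a (nat_lit 0x40404061)) e
 (c (a (nat_lit 0x205045)) e
 (c (b (nat_lit 0x20509fe5)) e e))))))))))
 (c (nat_lit 1)
 (c (a (nat_lit 0x2020a061))
 (c (a (nat_lit 0x60c1c12041)) e
 (c (a (nat_lit 0x2e382a00001)) e
 (c (a (nat_lit 0x24000000001)) e e)))
 (c (a (nat_lit 0xa08081))
 (c (a (nat_lit 0x5a240000001)) e e)
 (c (a (nat_lit 0xc0c14001)) e
 (c (a (nat_lit 0x80612001)) e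
 (c (a (nat_lit 0x1408121)) e
 (c (a (nat_lit 0x606001)) e
 (c (a (nat_lit 0x5de3)) e
 (c (b (nat_lit 0x5e9fe3)) e
 (c z e
 (c (b (nat_lit 0x16dff86025)) e
 (c (b (nat_lit 0x1ffec00004)) e e)))))))))))
 (c (a (nat_lit 0x202021))
 (c (a (nat_lit 0x80a06021))
 (c (a (nat_lit 0xc000000001)) e e)
 (c (a (nat_lit 0x1c1814001)) e
 (c (a (nat_lit 0x202e10001)) e
 (c (a (nat_lit 0xc1812121)) e
 (c (a (nat_lit 0x40403bc4)) e
 (c (a (nat_lit 0xdcdf07226)) e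
 (c z e
 (c (a (nat_lit 0x16953d84e5)) e
 (c (b (nat_lit 0x1ffee02004)) e
 (c (a (nat_lit 0x1120000004)) e e))))))))))
 (c (a (nat_lit 0x202021))
 (c (a (nat_lit 0x141a0a001)) e
 (c (a (nat_lit 0x1e3008001)) e
 (c (a (nat_lit 0x20203006)) e
 (c (a (nat_lit 0x36dad6e8)) e
 (c z e
 (c (b (nat_lit 0x1b7ff7c026)) e
 (c (b (nat_lit 0x1ffea02024)) e
 (c (a (nat_lit 0x1a0400001)) e e))))))))
 (c (a (nat_lit 0x202021))
 (c (a (nat_lit 0x40605fe4)) e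
 (c (a (nat_lit 0x1513330e9)) e
 (c z e
 (c (a (nat_lit 0xfebf12008)) e
 (c (a (nat_lit 0x8f3802027)) e
 (c (a (nat_lit 0xa0402001)) e
 (c (a (nat_lit 0x20000001)) e e)))))))
 (c (a (nat_lit 0x202021))
 (c z e
 (c (a (nat_lit 0x1715175089)) e
 (c (a (nat_lit 0x15392c0028)) e
 (c (a (nat_lit 0x804021)) e
 (c (a (nat_lit 0x20400001)) e e)))))
 (c (a (nat_lit 0x2021))
 (c (a (nat_lit 0x13d5d4e628)) e
 (c (a (nat_lit 0x21004121)) e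
 (c (a (nat_lit 0x206001)) e
 (c (nat_lit 1) e e))))
 (c (a (nat_lit 0x202021))
 (c (a (nat_lit 0x20202021)) e
 (c (a (nat_lit 0x20200001)) e e))
 (c (a (nat_lit 0x202021))
 (c (a (nat_lit 0x20000001)) e e)
 (c (a (nat_lit 0x202021)) e
 (c (a (nat_lit 0x202021)) e
 (c (a (nat_lit 0x3d25)) e
 (c z e
 (c (a (nat_lit 0x1d3e8005)) e
 (c (a (nat_lit 0x1ea02025)) e
 (c (a (nat_lit 0x2061)) e
 (c (a (nat_lit 0x2081)) e
 (c (a (nat_lit 0x6081)) e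
 (c (a (nat_lit 0x4081)) e
 (c (a (nat_lit 0x4041)) e
 (c (a (nat_lit 0x200001)) e e)))))))))))))))))))))))) Tr.c Tr.e (nat_lit 0) C.cx C.cy
noncomputable def C490 : Tr := beta% (fun (c : Nat → Tr → Tr → Tr) (e : Tr) (z : Nat) (a b : Nat → Nat) =>
 (c (a (nat_lit 0x202021))
 (c (a (nat_lit 0x1e3e3a5dc6))
 (c z e
 (c z e
 (c z e
 (c z e
 (c z e
 (c z e
 (c z e
 (c z e
 (c (a (nat_lit 0x1160000006)) e e)))))))))
 (c z e
 (c (a (nat_lit 0xa491b1a6))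
 (c (a (nat_lit 0x13712d8908e7)) e
 (c (a (nat_lit 0x1531b1892907)) e
 (c (a (nat_lit 0xf7a7548e8e7)) e
 (c (a (nat_lit 0x675106908e7)) e
 (c (a (nat_lit 0x3feae024008)) e e)))))
 (c (a (nat_lit 0x1c80606063))
 (c (a (nat_lit 0x1b6d40804046)) e
 (c (a (nat_lit 0x1bc9e0402027)) e
 (c (a (nat_lit 0x1c0a60606026)) e
 (c (a (nat_lit 0x12c420200009)) e e))))
 (c (a (nat_lit 0xc1812081))
 (c (a (nat_lit 0x132040402026)) e
 (c (a (nat_lit 0x1200a1004005)) e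
 (c (a (nat_lit 0x160060000006)) e e)))
 (c (a (nat_lit 0x810100c1))
 (c (a (nat_lit 0x36783c00001)) e
 (c (a (nat_lit 0x50000000001)) e e))
 (c (a (nat_lit 0x20a0c0a1)) e
 (c (a (nat_lit 0xe10121)) e
 (c (a (nat_lit 0xc161e1)) e
 (c (a (nat_lit 0x2080c1)) e
 (c (a (nat_lit 0x20c0e1)) e
 (c (a (nat_lit 0x8060c1)) e
 (c (a (nat_lit 0x2040a0a1)) e
 (c (a (nat_lit 0x33a6f5c5)) e e))))))))))))))
 (c (nat_lit 1)
 (c (a (nat_lit 0x1510a02024))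
 (c (a (nat_lit 0x183103e04046)) e
 (c (a (nat_lit 0x11e704406047)) e
 (c (a (nat_lit 0x9104ae06086)) e
 (c (a (nat_lit 0xab406c060a6)) e
 (c (a (nat_lit 0x9d089004026)) e
 (c (a (nat_lit 0x6fa29002007)) e e))))))
 (c (a (nat_lit 0x11c0202025))
 (c (a (nat_lit 0x1266e0608066)) e
 (c (a (nat_lit 0x1a6d810100a6)) e
 (c (a (nat_lit 0x132320408047)) e
 (c (a (nat_lit 0x160e00606026)) e
 (c (a (nat_lit 0x1d8420200008)) e e)))))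
 (c (a (nat_lit 0x14142c001))
 (c (a (nat_lit 0x1ac10180c045)) e
 (c (a (nat_lit 0x1800a361c0e4)) e
 (c (a (nat_lit 0x11c081006005)) e
 (c (a (nat_lit 0x1da060000005)) e e))))
 (c (a (nat_lit 0xe08604e1))
 (c (a (nat_lit 0x302ec2822c1)) e
 (c (a (nat_lit 0x5cba8800001)) e
 (c (a (nat_lit 0x6c000000001)) e e)))
 (c (a (nat_lit 0x100a06001))
 (c (a (nat_lit 0x5c320000001)) e e)
 (c (a (nat_lit 0x18100e001)) e
 (c (a (nat_lit 0x60c2a301)) e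
 (c (a (nat_lit 0x80c1a141)) e
 (c (a (nat_lit 0x4040e081)) e
 (c (a (nat_lit 0x404120c1)) e
 (c (a (nat_lit 0x20205c84)) e
 (c (b (nat_lit 0x3d5fe4)) e e))))))))))))
 (c (a (nat_lit 0x21))
 (c (a (nat_lit 0x6080c041))
 (c (a (nat_lit 0x18c0a0824083)) e
 (c (a (nat_lit 0x1ac162a22024)) e
 (c (a (nat_lit 0x15c0c1e1a043)) e
 (c (a (nat_lit 0x11a060e06004)) e
 (c (a (nat_lit 0x180040000004)) e e)))))
 (c (a (nat_lit 0x141020001))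
 (c (a (nat_lit 0xd25156760c1)) e
 (c (a (nat_lit 0x5462f26e0a1)) e
 (c (a (nat_lit 0x50a28200001)) e
 (c (a (nat_lit 0x4a000000001)) e e))))
 (c (a (nat_lit 0x6080a061))
 (c (a (nat_lit 0x2e607612001)) e
 (c (a (nat_lit 0x9e660000001)) e e))
 (c (a (nat_lit 0x6040c001))
 (c (a (nat_lit 0x30000000001)) e e)
 (c (a (nat_lit 0xa080c001)) e
 (c (a (nat_lit 0x612061)) e
 (c (a (nat_lit 0x206180a1)) e
 (c (a (nat_lit 0x610121)) e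
 (c (a (nat_lit 0x2055c4)) e
 (c (b (nat_lit 0x808131fe5)) e
 (c z e
 (c (b (nat_lit 0x14bff32025)) e
 (c (b (nat_lit 0x1fff200004)) e e)))))))))))))
 (c (a (nat_lit 0x202021))
 (c (a (nat_lit 0x2e2608001))
 (c (a (nat_lit 0x3c307212041)) e
 (c (a (nat_lit 0x3e607412001)) e
 (c (a (nat_lit 0x6e3c0000001)) e e)))
 (c (a (nat_lit 0x60604001))
 (c (a (nat_lit 0x605c2800001)) e
 (c (a (nat_lit 0x60000000001)) e e))
 (c (a (nat_lit 0x141210041)) e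
 (c (a (nat_lit 0xe0c12001)) e
 (c (a (nat_lit 0x40e141e1)) e
 (c (a (nat_lit 0xe16101)) e
 (c (a (nat_lit 0x20209aa3)) e
 (c (a (nat_lit 0xd2d308646)) e
 (c z e
 (c (b (nat_lit 0x197fe06003)) e
 (c (b (nat_lit 0x1ff4a02004)) e
 (c (a (nat_lit 0x240000001)) e e))))))))))))
 (c (a (nat_lit 0x202021))
 (c (a (nat_lit 0x20a06001))
 (c (a (nat_lit 0x2e0e0000001)) e e)
 (c (a (nat_lit 0x1e1410001)) e
 (c (a (nat_lit 0x1e140c001)) e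
 (c (a (nat_lit 0x20e060c1)) e
 (c (a (nat_lit 0x20203784)) e
 (c (a (nat_lit 0x573968b66)) e
 (c z e
 (c (b (nat_lit 0x10fff02046)) e
 (c (b (nat_lit 0x1ff4e02024)) e
 (c (a (nat_lit 0x540e00001)) e e))))))))))
 (c (a (nat_lit 0x202021))
 (c (a (nat_lit 0x120a0a001)) e
 (c (a (nat_lit 0x1a160a001)) e
 (c (a (nat_lit 0x20203805)) e
 (c (a (nat_lit 0x256f9f5c8)) e
 (c z e
 (c (b (nat_lit 0x115ff18207)) e
 (c (b (nat_lit 0x1ff2c76025)) e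
 (c (a (nat_lit 0x1c40602002)) e
 (c (a (nat_lit 0x40000001)) e e)))))))))
 (c (a (nat_lit 0x202021))
 (c (a (nat_lit 0x202037a4)) e
 (c (a (nat_lit 0x190325069)) e
 (c z e
 (c (a (nat_lit 0x104c902928)) e
 (c (a (nat_lit 0x15fd524367)) e
 (c (a (nat_lit 0x2404701)) e
 (c (a (nat_lit 0x600001)) e e)))))))
 (c (a (nat_lit 0x202021))
 (c z e
 (c (a (nat_lit 0x12b0d2b209)) e
 (c (a (nat_lit 0x14b8974048)) e
 (c (a (nat_lit 0x2001)) e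
 (c (a (nat_lit 0x80406001)) e
 (c (a (nat_lit 0x40000001)) e e))))))
 (c (a (nat_lit 0x202021))
 (c (a (nat_lit 0x13b594e7a8)) e
 (c (a (nat_lit 0x1441400041)) e
 (c (a (nat_lit 0xe0006041)) e
 (c (a (nat_lit 0x600001)) e e))))
 (c (a (nat_lit 0x202021))
 (c (a (nat_lit 0x2021)) e
 (c (a (nat_lit 0x202001)) e
 (c (a (nat_lit 0x20000001)) e e)))
 (c (a (nat_lit 0x202021))
 (c (a (nat_lit 0x20200001)) e e)
 (c (a (nat_lit 0x202001)) e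
 (c (nat_lit 1) e
 (c (nat_lit 1) e
 (c (a (nat_lit 0x1ec5)) e
 (c z e
 (c (a (nat_lit 0x1e9a0005)) e
 (c (a (nat_lit 0x1a002005)) e
 (c (a (nat_lit 0x200001)) e
 (c (a (nat_lit 0x2001)) e
 (c (a (nat_lit 0x21)) e
 (c (a (nat_lit 0x21)) e
 (c (a (nat_lit 0x2001)) e e)))))))))))))))))))))))) Tr.c Tr.e (nat_lit 0) C.cx C.cy
noncomputable def C491 : Tr := beta% (fun (c : Nat → Tr → Tr → Tr) (e : Tr) (z : Nat) (a b : Nat → Nat) =>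
 (c (a (nat_lit 0x202021))
 (c (a (nat_lit 0x16f6f6ed65))
 (c z e
 (c z e
 (c z e
 (c z e
 (c z e
 (c z e
 (c (b (nat_lit 0xf4eb32f1fe6)) e
 (c (b (nat_lit 0x3e41661ffe6)) e
 (c (a (nat_lit 0xa0f6c00004)) e
 (c (a (nat_lit 0x16e000000004)) e e))))))))))
 (c (b (nat_lit 0x17d7dfe6e4))
 (c z e
 (c z e
 (c z e
 (c z e
 (c z e
 (c z e
 (c z e
 (c (a (nat_lit 0x17fa40000004)) e e))))))))
 (c (a (nat_lit 0x12965bb244)) e
 (c (a (nat_lit 0xccf1dddc6))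
 (c (a (nat_lit 0x1677f36f0ee7)) e
 (c (a (nat_lit 0x1b977b0f0f07)) e
 (c z e
 (c (a (nat_lit 0xcb53683c008)) e e))))
 (c (a (nat_lit 0x7a1a18181))
 (c (a (nat_lit 0x1d3400404026)) e e)
 (c (b (nat_lit 0x1fe20240a1))
 (c (a (nat_lit 0x1180c0a04005)) e e)
 (c (a (nat_lit 0xe0e101)) e
 (c (a (nat_lit 0x6a4e4c1)) e
 (c (a (nat_lit 0xc12121)) e
 (c (a (nat_lit 0x40a101)) e
 (c (a (nat_lit 0x606141e1)) e
 (c (a (nat_lit 0x20a101)) e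
 (c (a (nat_lit 0x20203fa4)) e
 (c (b (nat_lit 0x203fbfe4)) e e))))))))))))))
 (c (a (nat_lit 0x202021))
 (c (a (nat_lit 0xbf4f22c05))
 (c (a (nat_lit 0xd3d732ae766)) e
 (c (a (nat_lit 0x17f72d07c2c7)) e
 (c z e
 (c (a (nat_lit 0x117e1df5aca6)) e
 (c (a (nat_lit 0x105b3a51a086)) e
 (c (a (nat_lit 0x1033da5e8126)) e e))))))
 (c (a (nat_lit 0x1ffb002024))
 (c (a (nat_lit 0x13cbea002047)) e
 (c (a (nat_lit 0x18f546806087)) e
 (c (a (nat_lit 0x16f388e04067)) e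
 (c (a (nat_lit 0x1fb551e06026)) e
 (c (a (nat_lit 0x15bbf7c02007)) e e)))))
 (c (a (nat_lit 0x17a0406064))
 (c (a (nat_lit 0x17e560a0c066)) e
 (c (a (nat_lit 0x1f47c0e0c026)) e
 (c (a (nat_lit 0x17c960808026)) e
 (c (a (nat_lit 0x112ac0200008)) e e))))
 (c (a (nat_lit 0x100e18001))
 (c (a (nat_lit 0x1a2061e08024)) e
 (c (a (nat_lit 0x1120a1004005)) e
 (c (a (nat_lit 0x140020000007)) e e)))
 (c (a (nat_lit 0x80c10041))
 (c (a (nat_lit 0x30463000001)) e e)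
 (c (a (nat_lit 0xe0e10001)) e
 (c (a (nat_lit 0x60e0e041)) e
 (c (a (nat_lit 0xc1010121)) e
 (c (a (nat_lit 0xa0c06021)) e
 (c (a (nat_lit 0x60608061)) e
 (c (a (nat_lit 0x203205)) e
 (c (b (nat_lit 0x323fe5)) e
 (c z e
 (c (a (nat_lit 0x116c302a67)) e
 (c (a (nat_lit 0xb93000005)) e e)))))))))))))))
 (c (a (nat_lit 0x202021))
 (c (a (nat_lit 0x1d60404003))
 (c (a (nat_lit 0x1f3760604104)) e
 (c (a (nat_lit 0x1502c060a086)) e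
 (c (a (nat_lit 0x10e320a08066)) e
 (c (a (nat_lit 0x956c0606025)) e
 (c (a (nat_lit 0x10ca00200007)) e e)))))
 (c (a (nat_lit 0x101a1e001))
 (c (a (nat_lit 0x14a261e280a4)) e
 (c (a (nat_lit 0x196164a26124)) e
 (c (a (nat_lit 0x112060e06005)) e
 (c (a (nat_lit 0x156020000007)) e e))))
 (c (a (nat_lit 0x6068e7e1))
 (c (a (nat_lit 0x2a3b28ac421)) e
 (c (a (nat_lit 0x54b2aa00001)) e
 (c (a (nat_lit 0x42000000001)) e e)))
 (c (a (nat_lit 0x80406001))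
 (c (a (nat_lit 0x583a0000001)) e e)
 (c (a (nat_lit 0x8080a001)) e
 (c (a (nat_lit 0x80a101)) e
 (c (a (nat_lit 0x412101)) e
 (c (a (nat_lit 0x40204061)) e
 (c (a (nat_lit 0x20203ea4)) e
 (c (a (nat_lit 0x989912666)) e
 (c z e
 (c (a (nat_lit 0x1b6eb3f3e6)) e
 (c (b (nat_lit 0x1ff4a04004)) e
 (c (a (nat_lit 0x80000001)) e e))))))))))))))
 (c (a (nat_lit 0x202021))
 (c (a (nat_lit 0x100e2e141))
 (c (a (nat_lit 0x80186c66181)) e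
 (c (a (nat_lit 0x7e7906560c1)) e
 (c (a (nat_lit 0x225a5000001)) e
 (c (a (nat_lit 0x2a000000001)) e e))))
 (c (a (nat_lit 0x54480a001))
 (c (a (nat_lit 0x7caeb20e001)) e
 (c (a (nat_lit 0xe6660000001)) e e))
 (c (a (nat_lit 0x8060e041))
 (c (a (nat_lit 0x18000000001)) e e)
 (c (a (nat_lit 0xa1616021)) e
 (c (a (nat_lit 0x81a101)) e
 (c (a (nat_lit 0x10120a1)) e
 (c (a (nat_lit 0x203c63)) e
 (c (b (nat_lit 0xa2a515fe5)) e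
 (c z e
 (c (a (nat_lit 0x16edd5d366)) e
 (c (b (nat_lit 0x1ff4a02024)) e
 (c (a (nat_lit 0x1c0400001)) e e))))))))))))
 (c (a (nat_lit 0x202021))
 (c (a (nat_lit 0x60604041))
 (c (a (nat_lit 0x342c0c00001)) e
 (c (a (nat_lit 0x3a000000001)) e e))
 (c (a (nat_lit 0x141412001)) e
 (c (a (nat_lit 0x1a1a180a1)) e
 (c (a (nat_lit 0x818242a1)) e
 (c (a (nat_lit 0x204039c4)) e
 (c (a (nat_lit 0x614b7ee86)) e
 (c z e
 (c (a (nat_lit 0x1b31fa4946)) e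
 (c (b (nat_lit 0x1ff5002024)) e
 (c (a (nat_lit 0x60406001)) e
 (c (a (nat_lit 0x20000001)) e e)))))))))))
 (c (a (nat_lit 0x202021))
 (c (a (nat_lit 0xe0810001)) e
 (c (a (nat_lit 0x24140e001)) e
 (c (a (nat_lit 0x202039e5)) e
 (c (a (nat_lit 0x23295d308)) e
 (c z e
 (c (a (nat_lit 0x130dd2e8c7)) e
 (c (a (nat_lit 0x1568d45e5)) e
 (c (a (nat_lit 0x4a100e041)) e
 (c (a (nat_lit 0x200001)) e e)))))))))
 (c (a (nat_lit 0x202021))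
 (c (a (nat_lit 0x20203984)) e
 (c (a (nat_lit 0x51112b149)) e
 (c z e
 (c (a (nat_lit 0x128ff27008)) e
 (c (a (nat_lit 0x16bbf944c7)) e
 (c (a (nat_lit 0x1040402023)) e
 (c (a (nat_lit 0x2020a001)) e
 (c (a (nat_lit 0x20000001)) e e))))))))
 (c (a (nat_lit 0x202021))
 (c z e
 (c (a (nat_lit 0x14733473a9)) e
 (c (a (nat_lit 0x14f7964128)) e
 (c (a (nat_lit 0x40202001)) e
 (c (a (nat_lit 0x80a04021)) e
 (c (a (nat_lit 0x120400001)) e e))))))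
 (c (a (nat_lit 0x202001))
 (c (a (nat_lit 0x123392c828)) e
 (c (a (nat_lit 0x13e0404082)) e
 (c (a (nat_lit 0x20808081)) e
 (c (a (nat_lit 0x20604001)) e
 (c (a (nat_lit 0x6e0000001)) e e)))))
 (c (a (nat_lit 0x202021))
 (c (a (nat_lit 0x202021)) e
 (c (a (nat_lit 0x20202021)) e
 (c (a (nat_lit 0x20200001)) e e)))
 (c (a (nat_lit 0x202021))
 (c (a (nat_lit 0x20202001)) e
 (c (a (nat_lit 0x20000001)) e e))
 (c (a (nat_lit 0x202021)) e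
 (c (a (nat_lit 0x202001)) e
 (c (a (nat_lit 0x202021)) e
 (c (a (nat_lit 0x21)) e
 (c (a (nat_lit 0x1b45)) e
 (c z e
 (c (a (nat_lit 0x1b75e025)) e
 (c (a (nat_lit 0x15c02025)) e
 (c (a (nat_lit 0x2041)) e
 (c (a (nat_lit 0x4041)) e
 (c (a (nat_lit 0x202021)) e
 (c (a (nat_lit 0x2021)) e
 (c (a (nat_lit 0x200001)) e e))))))))))))))))))))))))) Tr.c Tr.e (nat_lit 0) C.cx C.cy
noncomputable def C492 : Tr := beta% (fun (c : Nat → Tr → Tr → Tr) (e : Tr) (z : Nat) (a b : Nat → Nat) =>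
 (c (nat_lit 1)
 (c (a (nat_lit 0x20202021))
 (c (a (nat_lit 0x4040404041))
 (c z e
 (c (a (nat_lit 0x202022407964)) e
 (c (a (nat_lit 0x20222099bdc4)) e
 (c (a (nat_lit 0x208065c29426)) e
 (c (a (nat_lit 0x30265835b93e5)) e
 (c (a (nat_lit 0x40d313c706006)) e e))))))
 (c (a (nat_lit 0x6060404041))
 (c (a (nat_lit 0x2022e0dbdfe4)) e
 (c (a (nat_lit 0x20a2686af1e7)) e
 (c (a (nat_lit 0x363266595a948)) e e)))
 (c (a (nat_lit 0x6080a0c0e1))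
 (c (a (nat_lit 0x620fb2c09e66)) e e)
 (c (a (nat_lit 0x2020203224))
 (c (a (nat_lit 0x8c65e312806e6)) e
 (c (b (nat_lit 0x1fea9b8aa00006)) e
 (c (a (nat_lit 0x1a9ec000000006)) e e)))
 (c (a (nat_lit 0x2222c943f05))
 (c (a (nat_lit 0x12b28ba0000005)) e
 (c (a (nat_lit 0x11400000000006)) e e))
 (c (a (nat_lit 0xccf50534de7)) e
 (c (a (nat_lit 0x16d7b994f0a7)) e
 (c (a (nat_lit 0x179ab4eaa8c6)) e
 (c (a (nat_lit 0x122deca4c4a7)) e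
 (c (a (nat_lit 0x2a222424061)) e
 (c (a (nat_lit 0xe2eaeee66a1)) e
 (c (a (nat_lit 0x2060804021)) e
 (c (a (nat_lit 0x80a0600001)) e
 (c (a (nat_lit 0x6000000001)) e e))))))))))))))
 (c (a (nat_lit 0x20202021))
 (c (a (nat_lit 0x404061))
 (c (a (nat_lit 0x20a04306da06)) e
 (c (a (nat_lit 0x24ca8dc9b187)) e
 (c (a (nat_lit 0x3460cbaa95128)) e e)))
 (c (a (nat_lit 0x2020405fc4)) e
 (c (a (nat_lit 0x2e2e4a5d049)) e
 (c (a (nat_lit 0xb6d2eb649c9)) e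
 (c z e
 (c (a (nat_lit 0xd55706a0909)) e
 (c (a (nat_lit 0x1c4e8782c248)) e
 (c (a (nat_lit 0x1bee2ac54427)) e
 (c (a (nat_lit 0x46565a50001)) e
 (c (a (nat_lit 0x1c3d9742e241)) e
 (c (a (nat_lit 0xa101406001)) e
 (c (a (nat_lit 0x100c0000001)) e e))))))))))))
 (c (a (nat_lit 0x20202021))
 (c (a (nat_lit 0xb6b6e15f626)) e
 (c (a (nat_lit 0xb6cb351d468)) e
 (c z e
 (c z e
 (c z e
 (c z e
 (c (a (nat_lit 0x134904c42a07)) e
 (c (a (nat_lit 0x2040403467)) e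
 (c (a (nat_lit 0x40202030c7)) e
 (c (a (nat_lit 0x4100a00001)) e
 (c (a (nat_lit 0xa000000001)) e e)))))))))))
 (c (a (nat_lit 0x20202041))
 (c z e
 (c (a (nat_lit 0xe6c284f74e7)) e
 (c (a (nat_lit 0x121097ecb167)) e
 (c z e
 (c (a (nat_lit 0x1c1a4f2390e6)) e
 (c (a (nat_lit 0x1e07c68d1a86)) e
 (c (a (nat_lit 0xa4a45ffc43)) e
 (c (a (nat_lit 0x405d8004)) e
 (c (a (nat_lit 0x120c0000001)) e e)))))))))
 (c (a (nat_lit 0x2020a0a1))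
 (c (a (nat_lit 0x9e567f972c6)) e
 (c (a (nat_lit 0x4c790b5f1e7)) e
 (c z e
 (c (a (nat_lit 0x19f810cdc806)) e
 (c (a (nat_lit 0x876d195e986)) e
 (c (a (nat_lit 0x13605783c3e5)) e
 (c (a (nat_lit 0x2053800004)) e
 (c (a (nat_lit 0x2000000001)) e e))))))))
 (c (a (nat_lit 0x1353743206))
 (c (a (nat_lit 0xa6cf5332e07)) e
 (c z e
 (c z e
 (c (a (nat_lit 0x1491f095a4e7)) e
 (c (b (nat_lit 0x1de3fffe005)) e
 (c (a (nat_lit 0x3580000005)) e e))))))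
 (c (a (nat_lit 0x1d1cdafd26))
 (c (a (nat_lit 0x15587d37caa7)) e
 (c (a (nat_lit 0x1135f36c0028)) e e))
 (c (a (nat_lit 0xe6b737384))
 (c (a (nat_lit 0x1f3cdde6ea06)) e
 (c (a (nat_lit 0xdee91826008)) e e))
 (c (a (nat_lit 0x6bbbbbba4))
 (c (a (nat_lit 0x1b3e83e00007)) e e)
 (c (a (nat_lit 0x1214041)) e
 (c (a (nat_lit 0xa1008001)) e
 (c (a (nat_lit 0x2021)) e
 (c (a (nat_lit 0x20400021)) e
 (c (a (nat_lit 0x40402041)) e
 (c (a (nat_lit 0x40408041)) e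
 (c (a (nat_lit 0x20404081)) e
 (c (nat_lit 1) e
 (c (a (nat_lit 0x3514f5e4)) e e))))))))))))))))))
 (c (a (nat_lit 0x202021))
 (c (a (nat_lit 0x20202021))
 (c (a (nat_lit 0x2020408081))
 (c (a (nat_lit 0x968e992f27bc4)) e
 (c (b (nat_lit 0x2c6e69ffff208)) e e))
 (c (a (nat_lit 0x6204451b28)) e
 (c (a (nat_lit 0x3a4c6928a49)) e
 (c z e
 (c z e
 (c (a (nat_lit 0x1ff02aa3e3c8)) e
 (c (a (nat_lit 0x12438463a3c7)) e
 (c (a (nat_lit 0xf20c180dba5)) e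
 (c (a (nat_lit 0x4040403487)) e
 (c (a (nat_lit 0x6040403287)) e
 (c (a (nat_lit 0xe160e00001)) e
 (c (a (nat_lit 0x8000000001)) e e))))))))))))
 (c (a (nat_lit 0x40404061))
 (c (a (nat_lit 0x727ab4eb049)) e
 (c z e
 (c z e
 (c z e
 (c z e
 (c z e
 (c (a (nat_lit 0x1fe48a80fac5)) e
 (c (b (nat_lit 0x10d1515cdfe5)) e
 (c (a (nat_lit 0x182023ae004)) e
 (c (a (nat_lit 0x100e0000001)) e e))))))))))
 (c (a (nat_lit 0x16767697a5))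
 (c z e
 (c z e
 (c z e
 (c z e
 (c z e
 (c z e
 (c (b (nat_lit 0x40321fffe6)) e
 (c (a (nat_lit 0x6e756400004)) e
 (c (a (nat_lit 0x168000000004)) e e)))))))))
 (c (a (nat_lit 0x13d3cfc908))
 (c z e
 (c z e
 (c z e
 (c z e
 (c z e
 (c z e
 (c (a (nat_lit 0xf960000005)) e e)))))))
 (c z e
 (c (b (nat_lit 0x2bffe7e45))
 (c (a (nat_lit 0x6b32cc3e3e8)) e
 (c (a (nat_lit 0x164eefe4c4a8)) e e))
 (c (a (nat_lit 0x1b59f9f9e3))
 (c (a (nat_lit 0x1f78640361c6)) e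
 (c (a (nat_lit 0x1487a0600009)) e e))
 (c (a (nat_lit 0x81420041))
 (c (a (nat_lit 0x136020000008)) e e)
 (c (a (nat_lit 0x262e24021)) e
 (c (a (nat_lit 0xb6c606001)) e
 (c (a (nat_lit 0x40804041)) e
 (c (a (nat_lit 0x60804061)) e
 (c (a (nat_lit 0x2040a021)) e
 (c (a (nat_lit 0x204081)) e
 (c (a (nat_lit 0x4080e1)) e
 (c (a (nat_lit 0x224233c8)) e e))))))))))))))))
 C491))) Tr.c Tr.e (nat_lit 0) C.cx C.cy
noncomputable def C493 : Tr := beta% (fun (c : Nat → Tr → Tr → Tr) (e : Tr) (z : Nat) (a b : Nat → Nat) =>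
 (c (a (nat_lit 0x202021))
 (c (a (nat_lit 0x203b9544))
 (c (a (nat_lit 0x124d2e865e6)) e
 (c z e
 (c z e
 (c (a (nat_lit 0x148405b76506)) e
 (c (a (nat_lit 0xea988d0a127)) e
 (c z e
 (c (a (nat_lit 0x2c32b52006)) e
 (c (a (nat_lit 0x53c0000005)) e e))))))))
 (c (a (nat_lit 0xcdb97cce6))
 (c (a (nat_lit 0x120fb56e66e7)) e
 (c (a (nat_lit 0xd33d5482668)) e
 (c z e
 (c z e
 (c (a (nat_lit 0x4c492c80069)) e e)))))
 (c (a (nat_lit 0x1a14604025))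
 (c (a (nat_lit 0x7f123e04047)) e
 (c (a (nat_lit 0x15f8e5a08087)) e
 (c z e
 (c (a (nat_lit 0x67688602009)) e e))))
 (c (a (nat_lit 0x11e0204025))
 (c (a (nat_lit 0x1401e0204027)) e
 (c (a (nat_lit 0x1220a0804027)) e e))
 (c (a (nat_lit 0x63a3c061))
 (c (a (nat_lit 0xb082b440001)) e e)
 (c (a (nat_lit 0x60a0e0c1)) e
 (c (a (nat_lit 0x10081c0e1)) e
 (c (a (nat_lit 0xe1420221)) e
 (c (a (nat_lit 0x6060a1)) e
 (c (a (nat_lit 0x20408081)) e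
 (c (a (nat_lit 0x20203fe4)) e
 (c (a (nat_lit 0x203025a5)) e
 (c z e
 (c (a (nat_lit 0x1bb193d3c6)) e
 (c (a (nat_lit 0x71de02004)) e
 (c (a (nat_lit 0x20000001)) e e))))))))))))))))
 (c (nat_lit 1)
 (c (a (nat_lit 0x17b7602024))
 (c (a (nat_lit 0xb190ea04025)) e
 (c (a (nat_lit 0x173624406086)) e
 (c (a (nat_lit 0x11fd25606046)) e
 (c (a (nat_lit 0xaf268604026)) e
 (c (a (nat_lit 0x5b568002008)) e e)))))
 (c (a (nat_lit 0x1580202025))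
 (c (a (nat_lit 0x1aa020a06086)) e
 (c (a (nat_lit 0x1841e0808047)) e
 (c (a (nat_lit 0x1fa160c06026)) e
 (c (a (nat_lit 0x152760200009)) e e))))
 (c (a (nat_lit 0x1414140a1))
 (c (a (nat_lit 0x18814261e063)) e
 (c (a (nat_lit 0x5260ec34001)) e
 (c (a (nat_lit 0x1c0020000007)) e e)))
 (c (a (nat_lit 0x806001))
 (c (a (nat_lit 0x32583e00001)) e
 (c (a (nat_lit 0x1a000000001)) e e))
 (c (a (nat_lit 0x40a14061)) e
 (c (a (nat_lit 0xe18181)) e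
 (c (a (nat_lit 0x80e141)) e
 (c (a (nat_lit 0x6080c1)) e
 (c (a (nat_lit 0x2030e5)) e
 (c (a (nat_lit 0x9c9daa925)) e
 (c z e
 (c (b (nat_lit 0x111fe80025)) e
 (c (a (nat_lit 0x11be002004)) e
 (c (a (nat_lit 0x180000001)) e e))))))))))))))
 (c (a (nat_lit 0x202021))
 (c (a (nat_lit 0x80e14001))
 (c (a (nat_lit 0x10882844341)) e
 (c (a (nat_lit 0x1d01c9088542)) e
 (c (a (nat_lit 0x2a36bc3e001)) e
 (c (a (nat_lit 0x1ec020000006)) e e))))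
 (c (a (nat_lit 0x1214a68e1))
 (c (a (nat_lit 0x404b0cce4e1)) e
 (c (a (nat_lit 0x3898c200001)) e
 (c (a (nat_lit 0x4a000000001)) e e)))
 (c (a (nat_lit 0xe0c1c121))
 (c (a (nat_lit 0x3e2c0000001)) e e)
 (c (a (nat_lit 0x2061c161)) e
 (c (a (nat_lit 0xa14261)) e
 (c (a (nat_lit 0x610041)) e
 (c (a (nat_lit 0x60605082)) e
 (c (a (nat_lit 0x31193823)) e
 (c z e
 (c (b (nat_lit 0xa3ff225c5)) e
 (c (a (nat_lit 0x129e602024)) e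
 (c (a (nat_lit 0x80804001)) e
 (c (a (nat_lit 0x40000001)) e e)))))))))))))
 (c (a (nat_lit 0x202021))
 (c (a (nat_lit 0x40a0a1))
 (c (a (nat_lit 0x182e2a08001)) e
 (c (a (nat_lit 0x502a0000001)) e e))
 (c (a (nat_lit 0x60a0a1))
 (c (a (nat_lit 0x12000000001)) e e)
 (c (a (nat_lit 0x40c14061)) e
 (c (a (nat_lit 0x61426221)) e
 (c (a (nat_lit 0x20403fa4)) e
 (c (a (nat_lit 0x2f417f526)) e
 (c z e
 (c (b (nat_lit 0x151ff52026)) e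
 (c (a (nat_lit 0x13bee02004)) e
 (c (a (nat_lit 0x201a06021)) e
 (c (a (nat_lit 0x380e00001)) e e)))))))))))
 (c (a (nat_lit 0x202021))
 (c (a (nat_lit 0x80810021)) e
 (c (a (nat_lit 0x120e16001)) e
 (c (a (nat_lit 0x20203006)) e
 (c (a (nat_lit 0x2c706ea8)) e
 (c z e
 (c (b (nat_lit 0x14fff4e026)) e
 (c (a (nat_lit 0xbfa6ae345)) e
 (c (a (nat_lit 0x100202041)) e
 (c (a (nat_lit 0x804001)) e
 (c (a (nat_lit 0x20000001)) e e))))))))))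
 (c (a (nat_lit 0x202021))
 (c (a (nat_lit 0x20203fa4)) e
 (c (a (nat_lit 0x711535269)) e
 (c z e
 (c (a (nat_lit 0x1a56ba5707)) e
 (c (a (nat_lit 0x14d894c5e7)) e
 (c (a (nat_lit 0x206001)) e
 (c (a (nat_lit 0x1412181)) e
 (c (a (nat_lit 0x80200001)) e e))))))))
 (c (a (nat_lit 0x202021))
 (c z e
 (c (a (nat_lit 0x15143532c9)) e
 (c (a (nat_lit 0x13f5d3c5a8)) e
 (c (a (nat_lit 0x2040a1e1)) e
 (c (a (nat_lit 0x400001)) e
 (c (a (nat_lit 0x61a06001)) e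
 (c (a (nat_lit 0x1c60000003)) e e)))))))
 (c (a (nat_lit 0x202021))
 (c (a (nat_lit 0x10f1f0e868)) e
 (c (a (nat_lit 0x400001)) e
 (c (a (nat_lit 0xe0a04001)) e
 (c (a (nat_lit 0x200a06021)) e
 (c (a (nat_lit 0x1c0a00001)) e e)))))
 (c (a (nat_lit 0x202021))
 (c (a (nat_lit 0x20202021)) e
 (c (a (nat_lit 0x20202021)) e
 (c (a (nat_lit 0x20202001)) e
 (c (a (nat_lit 0x20000001)) e e))))
 (c (a (nat_lit 0x202021))
 (c (a (nat_lit 0x20202021)) e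
 (c (a (nat_lit 0x20200001)) e e))
 (c (a (nat_lit 0x202021))
 (c (a (nat_lit 0x20000001)) e e)
 (c (a (nat_lit 0x202021)) e
 (c (a (nat_lit 0x202021)) e
 (c (a (nat_lit 0x202021)) e
 (c (a (nat_lit 0x202001)) e
 (c (a (nat_lit 0x1266)) e
 (c z e
 (c (a (nat_lit 0x126f2006)) e
 (c (a (nat_lit 0x1e602025)) e
 (c (a (nat_lit 0x202041)) e
 (c (a (nat_lit 0x2081)) e
 (c (a (nat_lit 0x2041)) e
 (c (a (nat_lit 0x4001)) e e)))))))))))))))))))))))) Tr.c Tr.e (nat_lit 0) C.cx C.cy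
noncomputable def C494 : Tr := beta% (fun (c : Nat → Tr → Tr → Tr) (e : Tr) (z : Nat) (a b : Nat → Nat) =>
 (c (a (nat_lit 0x202021))
 (c (a (nat_lit 0x60604041))
 (c (a (nat_lit 0x167660a0a0a1))
 (c z e
 (c (a (nat_lit 0x6060802071c7)) e
 (c (a (nat_lit 0x60608072d0a7)) e
 (c (a (nat_lit 0xc0c17f5cac46)) e
 (c (a (nat_lit 0x1014e63485287)) e
 (c (a (nat_lit 0x2ca0b32ff6c87)) e e))))))
 (c (a (nat_lit 0xc100e10101))
 (c (a (nat_lit 0x2020209367a7)) e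
 (c (b (nat_lit 0x2020963fe608)) e
 (c (a (nat_lit 0x805f5ea647c68)) e e)))
 (c (a (nat_lit 0x60a10161c1))
 (c (a (nat_lit 0x5e0d7f26ce3a7)) e e)
 (c (a (nat_lit 0x20203ce6))
 (c z e
 (c (b (nat_lit 0x2e63ff0c40008)) e
 (c (a (nat_lit 0x11fc9bc0000007)) e e)))
 (c (a (nat_lit 0x2023aed347))
 (c (a (nat_lit 0x7add404600006)) e
 (c (a (nat_lit 0x1cd38000000006)) e e))
 (c (a (nat_lit 0x8ecdc9d5d47))
 (c (a (nat_lit 0x14800000000005)) e e)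
 (c z e
 (c z e
 (c (a (nat_lit 0x1f7f1b734908)) e
 (c (a (nat_lit 0x1d1795696968)) e
 (c (a (nat_lit 0x136060606005)) e
 (c (a (nat_lit 0x10121610101)) e
 (c (a (nat_lit 0xc161c06001)) e
 (c (a (nat_lit 0xc0c0000001)) e e))))))))))))))
 (c (a (nat_lit 0x60404041))
 (c (a (nat_lit 0x1e202024241))
 (c (a (nat_lit 0x202092628046)) e
 (c (b (nat_lit 0x1a3509fffffe8)) e e))
 (c (a (nat_lit 0x20203906)) e
 (c (a (nat_lit 0x52526ed5608)) e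
 (c (a (nat_lit 0xc2d1352faa9)) e
 (c z e
 (c z e
 (c z e
 (c z e
 (c (a (nat_lit 0x13cc2c2563a9)) e
 (c (a (nat_lit 0x1209a9e7a002)) e
 (c (a (nat_lit 0xc1c24160e1)) e
 (c (a (nat_lit 0xe221400001)) e
 (c (a (nat_lit 0xa000000001)) e e)))))))))))))
 (c (a (nat_lit 0x40402021))
 (c (a (nat_lit 0x5e647ec3f87)) e
 (c (a (nat_lit 0x627f2db2d28)) e
 (c z e
 (c z e
 (c z e
 (c z e
 (c z e
 (c (a (nat_lit 0x19cd0a842429)) e
 (c (a (nat_lit 0xcb3726722c1)) e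
 (c (a (nat_lit 0x4204a22001)) e
 (c (a (nat_lit 0xa160000001)) e e)))))))))))
 (c (a (nat_lit 0x40404041))
 (c z e
 (c (a (nat_lit 0x12130f880c48)) e
 (c (a (nat_lit 0x12afed4de5e8)) e
 (c z e
 (c z e
 (c (a (nat_lit 0x1a940bc32968)) e
 (c (a (nat_lit 0xd8984e4f408)) e
 (c (a (nat_lit 0x34020405ee7)) e
 (c (a (nat_lit 0xc261800001)) e
 (c (a (nat_lit 0xa000000001)) e e))))))))))
 (c (a (nat_lit 0x40404061))
 (c (a (nat_lit 0x1cd325c099a6)) e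
 (c (a (nat_lit 0x1089678d5f87)) e
 (c z e
 (c z e
 (c (a (nat_lit 0x13efd86c91c7)) e
 (c (a (nat_lit 0x1cf5e5ae8ca7)) e
 (c (a (nat_lit 0x134040406006)) e
 (c (a (nat_lit 0xc100000001)) e e))))))))
 (c (a (nat_lit 0x3944))
 (c (a (nat_lit 0x240268d7347)) e
 (c (a (nat_lit 0x30b31b6bae8)) e
 (c z e
 (c (a (nat_lit 0x3cc49867d08)) e
 (c (b (nat_lit 0xb65d0ffe9a8)) e
 (c (a (nat_lit 0x5207ae00006)) e
 (c (a (nat_lit 0x6000000001)) e e)))))))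
 (c (a (nat_lit 0xe5432ae66))
 (c (a (nat_lit 0x2eb0b568b28)) e e)
 (c z e
 (c (a (nat_lit 0x132f58b8a5))
 (c (a (nat_lit 0x88ff3e2c009)) e e)
 (c (a (nat_lit 0xd7fdfdfc5)) e
 (c (a (nat_lit 0x262c0c1)) e
 (c (a (nat_lit 0x806081)) e
 (c (a (nat_lit 0x40a08081)) e
 (c (a (nat_lit 0x4060c1)) e
 (c (a (nat_lit 0x4080a1)) e
 (c (a (nat_lit 0x80c141)) e
 (c (a (nat_lit 0x202038e6)) e
 (c (a (nat_lit 0x447d0d007)) e e))))))))))))))))))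
 (c (a (nat_lit 0x202021))
 (c (a (nat_lit 0x40202021))
 (c (a (nat_lit 0x40604020e1))
 (c (a (nat_lit 0x8690f93526044)) e
 (c (b (nat_lit 0x8adb32e5fffe7)) e e))
 (c (a (nat_lit 0x467a7a7b747)) e
 (c (a (nat_lit 0x484874b53e8)) e
 (c z e
 (c z e
 (c z e
 (c z e
 (c (a (nat_lit 0x14ed89e464a8)) e
 (c (a (nat_lit 0x19b56e608084)) e
 (c (a (nat_lit 0x32223230001)) e
 (c (a (nat_lit 0xc101008001)) e
 (c (a (nat_lit 0xa080000001)) e e))))))))))))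
 (c (a (nat_lit 0xe0c0c0c1))
 (c (a (nat_lit 0x7878ad3abe8)) e
 (c z e
 (c z e
 (c z e
 (c z e
 (c z e
 (c z e
 (c (a (nat_lit 0x1c0e0203508)) e
 (c (a (nat_lit 0x2060a0bf67)) e
 (c (a (nat_lit 0x10262600001)) e
 (c (a (nat_lit 0x8000000001)) e e)))))))))))
 (c (a (nat_lit 0x40404061))
 (c z e
 (c z e
 (c z e
 (c z e
 (c z e
 (c z e
 (c (a (nat_lit 0x5e060b7e045)) e
 (c (a (nat_lit 0x202052c006)) e
 (c (a (nat_lit 0xa0a0000001)) e e)))))))))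
 (c (a (nat_lit 0x202059e4))
 (c z e
 (c z e
 (c z e
 (c z e
 (c z e
 (c z e
 (c (a (nat_lit 0x621aa00004)) e
 (c (a (nat_lit 0x6000000001)) e e))))))))
 (c z e
 (c (a (nat_lit 0xaf10d2ae6))
 (c (a (nat_lit 0xd8c752ea029)) e e)
 (c z e
 (c (a (nat_lit 0xd71919186))
 (c (a (nat_lit 0x10874120000a)) e e)
 (c (a (nat_lit 0x1c20181)) e
 (c (a (nat_lit 0x80e26281)) e
 (c (a (nat_lit 0x408081)) e
 (c (a (nat_lit 0x204081)) e
 (c (a (nat_lit 0x4080a061)) e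
 (c (a (nat_lit 0x404041)) e
 (c (a (nat_lit 0x4080c1)) e
 (c (a (nat_lit 0x203246)) e e))))))))))))))))
 (c (a (nat_lit 0x202021))
 (c (a (nat_lit 0x20200041))
 (c (a (nat_lit 0xacd346b3487))
 (c (a (nat_lit 0xe18b6f67b2c66)) e
 (c (a (nat_lit 0x15f09611200007)) e e))
 (c (a (nat_lit 0x78da7eeffc8))
 (c (a (nat_lit 0xad5cdc0000007)) e e)
 (c z e
 (c z e
 (c (a (nat_lit 0xafbc54424c8)) e
 (c (b (nat_lit 0x18e36401dfe8)) e
 (c z e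
 (c (a (nat_lit 0x62d8e350f64)) e
 (c (a (nat_lit 0x286a945e001)) e
 (c (a (nat_lit 0xa0e0000001)) e e))))))))))
 (c (a (nat_lit 0x202031c4))
 (c (a (nat_lit 0x925ccf828c8))
 (c (a (nat_lit 0x182a8000000006)) e e)
 (c z e
 (c z e
 (c (a (nat_lit 0x12a6452468a9)) e
 (c (a (nat_lit 0xe8c484474c8)) e
 (c z e
 (c (b (nat_lit 0x1ffff7866246)) e
 (c (a (nat_lit 0x843f800004)) e
 (c (a (nat_lit 0xe000000001)) e e)))))))))
 (c z e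
 (c (a (nat_lit 0xd54732d46))
 (c (a (nat_lit 0x58571624027)) e
 (c (a (nat_lit 0xe15b9cce048)) e e))
 (c (a (nat_lit 0xa891dbd85))
 (c (a (nat_lit 0xbdedbe78787)) e
 (c (a (nat_lit 0x143e31ebb468)) e e))
 (c (a (nat_lit 0x11ae4f8f87))
 (c (a (nat_lit 0x16a7c80c43e8)) e e)
 (c z e
 (c (b (nat_lit 0x1fe347a561)) e
 (c (a (nat_lit 0x3e444c1)) e
 (c (a (nat_lit 0x6181e1)) e
 (c (a (nat_lit 0x614181)) e
 (c (a (nat_lit 0x810161)) e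
 (c (a (nat_lit 0xa0c001)) e
 (c (a (nat_lit 0x20203906)) e
 (c z e
 (c (a (nat_lit 0xfbaeaeae7)) e
 (c (a (nat_lit 0x1404000007)) e e)))))))))))))))))
 C493)))) Tr.c Tr.e (nat_lit 0) C.cx C.cy
noncomputable def C495 : Tr := beta% (fun (c : Nat → Tr → Tr → Tr) (e : Tr) (z : Nat) (a b : Nat → Nat) =>
 (c (nat_lit 1)
 (c (a (nat_lit 0x1c0a0a0c0c1))
 (c (a (nat_lit 0x11c04040404043)) e
 (c (a (nat_lit 0x18cba080808083)) e
 (c (a (nat_lit 0x14282e2c1a1a1)) e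
 (c (a (nat_lit 0xe1418141a1)) e
 (c (a (nat_lit 0x1606080809825)) e
 (c (a (nat_lit 0x2a0e0202d5fc6)) e
 (c (a (nat_lit 0x360202f310d26)) e
 (c (a (nat_lit 0x621a7f42cc6a6)) e
 (c (a (nat_lit 0x263d89c2a006)) e e)))))))))
 (c (a (nat_lit 0x61010100a1))
 (c (a (nat_lit 0x11006060606044))
 (c z e
 (c (a (nat_lit 0x1e2a01a1a0000006)) e
 (c (a (nat_lit 0x1302600000000006)) e e)))
 (c z e
 (c (a (nat_lit 0x202020203fc6)) e
 (c (a (nat_lit 0x20202026b9c8)) e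
 (c (a (nat_lit 0x200202e9948e7)) e
 (c (a (nat_lit 0xe090d32b64c7)) e e))))))
 (c (a (nat_lit 0x18221e0a0c1))
 (c (a (nat_lit 0x202040403be5)) e
 (c (a (nat_lit 0x20a0202e3a47)) e
 (c (a (nat_lit 0x20204b596567)) e
 (c (a (nat_lit 0x4c4d12804cfa7)) e e))))
 (c (a (nat_lit 0x80406081))
 (c (a (nat_lit 0x100202d6b7b06)) e
 (c (a (nat_lit 0x2424cfd0f6867)) e
 (c z e
 (c z e
 (c (a (nat_lit 0x10d111ec000007)) e
 (c (a (nat_lit 0x11e62000000007)) e e))))))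
 (c (a (nat_lit 0x5a5a585c5e1))
 (c (a (nat_lit 0x4e1386465a127)) e
 (c (b (nat_lit 0x1ff4e32ce0e587)) e
 (c (a (nat_lit 0x186de624802007)) e
 (c (a (nat_lit 0x1d99d1c0000005)) e
 (c (a (nat_lit 0x1be00000000003)) e e)))))
 (c (a (nat_lit 0x6080a0c1))
 (c (a (nat_lit 0x10e9c4a2802026)) e
 (c (a (nat_lit 0x15e948e0200006)) e
 (c (a (nat_lit 0x1b11c000000002)) e e)))
 (c (a (nat_lit 0x20202030a7))
 (c z e
 (c (a (nat_lit 0x14400000000002)) e e))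
 (c (a (nat_lit 0xa0a8d62fc7)) e
 (c (a (nat_lit 0x3cb9a126987)) e
 (c (a (nat_lit 0xbf32de9e908)) e
 (c (a (nat_lit 0x14cfb04f0808)) e
 (c (a (nat_lit 0x15f030282827)) e
 (c (a (nat_lit 0x2080a0c141)) e
 (c (a (nat_lit 0x2080c0c0e1)) e
 (c (a (nat_lit 0x81008001)) e
 (c (a (nat_lit 0x2020000001)) e e))))))))))))))))
 (c (a (nat_lit 0x40404041))
 (c (a (nat_lit 0xc141416161))
 (c z e
 (c (a (nat_lit 0x18181a0405186)) e
 (c (a (nat_lit 0x204020247708)) e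
 (c (a (nat_lit 0x202023d36c68)) e
 (c (a (nat_lit 0x40483d67eb47)) e
 (c (a (nat_lit 0x4887809ad7947)) e e))))))
 (c (a (nat_lit 0x16f700e0e122))
 (c (a (nat_lit 0xc0c0e0281ae7)) e
 (c (a (nat_lit 0xa080881564e8)) e
 (c (a (nat_lit 0x404293fc7e1e8)) e
 (c (b (nat_lit 0x12ac0d9ff051c8)) e e))))
 (c (a (nat_lit 0x60e140c141))
 (c (a (nat_lit 0x303681b3ac147)) e
 (c (a (nat_lit 0xd25f9354748a8)) e e))
 (c (a (nat_lit 0xa0e0e06041))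
 (c z e
 (c (b (nat_lit 0x1c63b67ff060e7)) e
 (c (a (nat_lit 0x196e9c30e00007)) e e)))
 (c (a (nat_lit 0x20203088))
 (c (b (nat_lit 0x1ff18faca0c005)) e
 (c (a (nat_lit 0xd7c52c0000006)) e e))
 (c (a (nat_lit 0x8088fefcc7))
 (c (a (nat_lit 0x14a14000000005)) e e)
 (c (a (nat_lit 0x60dfd79d348)) e
 (c z e
 (c (a (nat_lit 0x155251edc869)) e
 (c (a (nat_lit 0xfb1108b4609)) e
 (c (a (nat_lit 0x1d1732e96967)) e
 (c (a (nat_lit 0x110020202045)) e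
 (c (a (nat_lit 0x10181c160c1)) e
 (c (a (nat_lit 0x80e0e00001)) e
 (c (a (nat_lit 0x2000000001)) e e)))))))))))))))
 (c (a (nat_lit 0x20200001))
 (c (a (nat_lit 0x60402021))
 (c (a (nat_lit 0x202032b6ba24)) e
 (c (a (nat_lit 0x3850beb8632a7)) e
 (c (a (nat_lit 0xaa8b84ad26647)) e e)))
 (c (a (nat_lit 0x1c22180c0c1))
 (c (b (nat_lit 0x76616368affe7)) e e)
 (c (a (nat_lit 0x20203467)) e
 (c (a (nat_lit 0x4c4c8995be7)) e
 (c z e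
 (c z e
 (c z e
 (c z e
 (c (a (nat_lit 0xf920f2ec328)) e
 (c (a (nat_lit 0x1a9272a74707)) e
 (c (a (nat_lit 0x218181a161)) e
 (c (a (nat_lit 0xc0c1606001)) e
 (c (a (nat_lit 0x20a0000001)) e e)))))))))))))
 (c (a (nat_lit 0x20202021))
 (c (a (nat_lit 0x2020203066))
 (c (a (nat_lit 0x8f13a252f4507)) e
 (c (a (nat_lit 0x555c8bda4e427)) e e))
 (c (a (nat_lit 0x22226167de7))
 (c (a (nat_lit 0x1e93fc4e6606a7)) e e)
 (c z e
 (c z e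
 (c (a (nat_lit 0x13156e2adb88)) e
 (c (a (nat_lit 0x136c6f9f4b68)) e
 (c z e
 (c (a (nat_lit 0x772888560c9)) e
 (c (a (nat_lit 0x17cacac36368)) e
 (c (a (nat_lit 0xc183232221)) e
 (c (a (nat_lit 0x101400001)) e
 (c (a (nat_lit 0x1d2000000001)) e e))))))))))))
 (c (a (nat_lit 0x40202021))
 (c (a (nat_lit 0x205fa530206))
 (c (a (nat_lit 0x17cd4b13060005)) e e)
 (c (a (nat_lit 0x99e5227a5a7)) e
 (c (a (nat_lit 0x192f86e02bc7)) e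
 (c (a (nat_lit 0x1547a7be6c66)) e
 (c (a (nat_lit 0x46bfc781346)) e
 (c (a (nat_lit 0x137b93c8a027)) e
 (c (a (nat_lit 0x13707369ea48)) e
 (c (a (nat_lit 0x104f8b63e3c7)) e
 (c (a (nat_lit 0xe12140c001)) e
 (c (a (nat_lit 0x80e0000001)) e e))))))))))
 (c (a (nat_lit 0x20202021))
 (c (a (nat_lit 0x1ace06002026)) e
 (c (a (nat_lit 0x17e7a0202246)) e
 (c (a (nat_lit 0x27a87386)) e
 (c (a (nat_lit 0xe4a8704547)) e
 (c (a (nat_lit 0x91159882a27)) e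
 (c (a (nat_lit 0xbcfb0a71907)) e
 (c (a (nat_lit 0x104b052532a7)) e
 (c (a (nat_lit 0x136040200004)) e
 (c (a (nat_lit 0x2000000001)) e e)))))))))
 (c (a (nat_lit 0x20202021))
 (c (a (nat_lit 0x2020407444)) e
 (c (a (nat_lit 0x2029279227)) e
 (c (a (nat_lit 0xa4705167c7)) e
 (c (a (nat_lit 0xc0f5d302f67)) e
 (c (a (nat_lit 0x4806f24c47)) e
 (c (a (nat_lit 0x13c6e6e8a007)) e
 (c (a (nat_lit 0x60c0000001)) e e)))))))
 (c (a (nat_lit 0x203bce24))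
 (c (a (nat_lit 0x2028e7b967)) e
 (c (a (nat_lit 0x2589106f88)) e
 (c z e
 (c (b (nat_lit 0x1fef9ed53a07)) e
 (c (a (nat_lit 0x13c1ce800007)) e
 (c (a (nat_lit 0x16e000000003)) e e))))))
 (c (a (nat_lit 0x896f4cea5))
 (c (b (nat_lit 0x4a85f59fe7)) e
 (c z e
 (c z e
 (c (a (nat_lit 0x51040000007)) e e))))
 (c (a (nat_lit 0x1097f04a66))
 (c (a (nat_lit 0x728becfa088)) e e)
 (c (a (nat_lit 0xd4c1b7b65)) e
 (c (a (nat_lit 0xbd0101005)) e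
 (c (a (nat_lit 0x206080e1)) e
 (c (a (nat_lit 0x404081)) e
 (c (a (nat_lit 0x40a0c1)) e
 (c (a (nat_lit 0x2040a101)) e
 (c (a (nat_lit 0x408060a1)) e
 (c (a (nat_lit 0x4060a1)) e
 (c (a (nat_lit 0x20203067)) e
 (c (a (nat_lit 0x3f06707)) e e))))))))))))))))))))) Tr.c Tr.e (nat_lit 0) C.cx C.cy
noncomputable def C496 : Tr := beta% (fun (c : Nat → Tr → Tr → Tr) (e : Tr) (z : Nat) (a b : Nat → Nat) =>
 (c (a (nat_lit 0x202021))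
 (c (a (nat_lit 0x20203863))
 (c (a (nat_lit 0xe0e0f2b086)) e
 (c z e
 (c z e
 (c (a (nat_lit 0x171623470c27)) e
 (c (a (nat_lit 0x140d41e98727)) e
 (c (a (nat_lit 0x20a08394c7)) e
 (c z e
 (c (a (nat_lit 0x1be496000002)) e
 (c (a (nat_lit 0x6000000001)) e e)))))))))
 (c (a (nat_lit 0xc4c73afe6)) e
 (c z e
 (c (a (nat_lit 0x1ae5638364))
 (c (a (nat_lit 0x16bfef6091c7)) e
 (c (a (nat_lit 0x154b0cf2e1a8)) e e))
 (c (a (nat_lit 0x1b4d0d3604))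
 (c (a (nat_lit 0x11cbd342e187)) e
 (c (a (nat_lit 0x1cbb00a00008)) e e))
 (c (b (nat_lit 0xe2a2ffe1))
 (c (a (nat_lit 0x178020000008)) e e)
 (c z e
 (c (a (nat_lit 0x806080a1)) e
 (c (a (nat_lit 0x402001)) e
 (c (a (nat_lit 0x80604041)) e
 (c (a (nat_lit 0x2030e3)) e
 (c (b (nat_lit 0x3d35bfe3)) e
 (c z e
 (c (a (nat_lit 0x162f33b3a6)) e
 (c (a (nat_lit 0x160a041)) e
 (c (a (nat_lit 0x1c0800001)) e e))))))))))))))))
 (c (nat_lit 1)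
 (c (a (nat_lit 0xdb631cdc5))
 (c (a (nat_lit 0x5edb3f06646)) e
 (c (a (nat_lit 0x934164461c7)) e
 (c z e
 (c z e
 (c (a (nat_lit 0x7ea11270028)) e e)))))
 (c (a (nat_lit 0x11acc04044))
 (c (a (nat_lit 0xbf645606047)) e
 (c (a (nat_lit 0x12cde2a02048)) e
 (c (a (nat_lit 0x160b4e6120e7)) e
 (c (a (nat_lit 0x95d2b602008)) e e))))
 (c (a (nat_lit 0x1fe0a0a002))
 (c (a (nat_lit 0x158120202027)) e
 (c (a (nat_lit 0x8d440806026)) e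
 (c (a (nat_lit 0x194f00200008)) e e)))
 (c (a (nat_lit 0x60c0a061))
 (c (a (nat_lit 0x10c040602006)) e
 (c (a (nat_lit 0x11e020000007)) e e))
 (c (a (nat_lit 0x100c120c1))
 (c (a (nat_lit 0x1c000000001)) e e)
 (c (a (nat_lit 0xc0a201a1)) e
 (c (a (nat_lit 0x40a0a1)) e
 (c (a (nat_lit 0x40206021)) e
 (c (a (nat_lit 0x60c0a181)) e
 (c (a (nat_lit 0x14bc5c5345)) e
 (c z e
 (c (a (nat_lit 0x1f2ef27244)) e
 (c (b (nat_lit 0x1fe0808001)) e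
 (c (a (nat_lit 0x2e2404001)) e
 (c (a (nat_lit 0x5c0000001)) e e)))))))))))))))
 (c (a (nat_lit 0x202021))
 (c (a (nat_lit 0x13c1602002))
 (c (a (nat_lit 0x1121c0602026)) e
 (c (a (nat_lit 0x18e1e0404026)) e
 (c (a (nat_lit 0x13d2638362e5)) e
 (c (a (nat_lit 0x11a500200008)) e e))))
 (c (a (nat_lit 0x1c1e1e001))
 (c (a (nat_lit 0x128181e165a3)) e
 (c (a (nat_lit 0x108041e1a006)) e
 (c (a (nat_lit 0x128040000007)) e e)))
 (c (a (nat_lit 0xa0b75622))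
 (c (a (nat_lit 0x2257aa00001)) e
 (c (a (nat_lit 0x5e000000001)) e e))
 (c (a (nat_lit 0xe0a12001)) e
 (c (a (nat_lit 0x20614161)) e
 (c (a (nat_lit 0x60a121)) e
 (c (a (nat_lit 0xc0c08061)) e
 (c (a (nat_lit 0x5d51510a5)) e
 (c z e
 (c (a (nat_lit 0x1dd9b74ee5)) e
 (c (a (nat_lit 0x13c120c002)) e
 (c (a (nat_lit 0x1e1004021)) e
 (c (a (nat_lit 0x100800001)) e e)))))))))))))
 (c (a (nat_lit 0x202021))
 (c (a (nat_lit 0x1e1a18001))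
 (c (a (nat_lit 0x30324a1e021)) e
 (c (a (nat_lit 0x46983200001)) e
 (c (a (nat_lit 0x5a000000001)) e e)))
 (c (a (nat_lit 0x80a04041))
 (c (a (nat_lit 0x50280000001)) e e)
 (c (a (nat_lit 0x141408001)) e
 (c (a (nat_lit 0xe0a081)) e
 (c (a (nat_lit 0x40e0eaa1)) e
 (c (a (nat_lit 0x2177773c6)) e
 (c z e
 (c (a (nat_lit 0x110f2f2647)) e
 (c (a (nat_lit 0x2180c0c1)) e
 (c (a (nat_lit 0x802061)) e
 (c (a (nat_lit 0x404001)) e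
 (c (a (nat_lit 0x20000001)) e e))))))))))))
 (c (a (nat_lit 0x404041))
 (c (a (nat_lit 0x80608021))
 (c (a (nat_lit 0x6000000001)) e e)
 (c (a (nat_lit 0x160e12001)) e
 (c (a (nat_lit 0x80c13a21)) e
 (c (a (nat_lit 0x43070af68)) e
 (c z e
 (c (a (nat_lit 0x1633d62c07)) e
 (c (a (nat_lit 0xb9edfb3c4)) e
 (c (a (nat_lit 0xae0204001)) e
 (c (a (nat_lit 0x80602001)) e
 (c (a (nat_lit 0xc0600001)) e e))))))))))
 (c (a (nat_lit 0x202021))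
 (c (a (nat_lit 0x100e0cb61)) e
 (c (a (nat_lit 0x89a7a9968)) e
 (c z e
 (c (a (nat_lit 0x1d9b1d7a47)) e
 (c (a (nat_lit 0x1193f3e647)) e
 (c (a (nat_lit 0x1018981)) e
 (c (a (nat_lit 0x124020c122)) e
 (c (a (nat_lit 0x408001)) e
 (c (a (nat_lit 0x20000001)) e e)))))))))
 (c (a (nat_lit 0x202021))
 (c z e
 (c (a (nat_lit 0x1f9adfb666)) e
 (c (a (nat_lit 0x17d9190008)) e
 (c (a (nat_lit 0x40608061)) e
 (c (a (nat_lit 0x4060c1e1)) e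
 (c (a (nat_lit 0x2080a0c1)) e
 (c (a (nat_lit 0x200001)) e e)))))))
 (c (a (nat_lit 0x202021))
 (c (a (nat_lit 0x15fadac025)) e
 (c (a (nat_lit 0x600001)) e
 (c (a (nat_lit 0x15402040a3)) e
 (c (a (nat_lit 0x214181)) e
 (c (a (nat_lit 0x606001)) e
 (c (a (nat_lit 0x20000001)) e e))))))
 (c (a (nat_lit 0x202021))
 (c (a (nat_lit 0x20202021)) e
 (c (a (nat_lit 0x20202021)) e
 (c (a (nat_lit 0x20202021)) e
 (c (a (nat_lit 0x20200001)) e e))))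
 (c (a (nat_lit 0x202021))
 (c (a (nat_lit 0x20202021)) e
 (c (a (nat_lit 0x20202001)) e
 (c (a (nat_lit 0x20000001)) e e)))
 (c (a (nat_lit 0x202021))
 (c (a (nat_lit 0x20200001)) e e)
 (c (a (nat_lit 0x202021)) e
 (c (a (nat_lit 0x202021)) e
 (c (a (nat_lit 0x202021)) e
 (c (a (nat_lit 0x202021)) e
 (c (a (nat_lit 0x200021)) e
 (c (a (nat_lit 0x3585)) e
 (c z e
 (c (a (nat_lit 0x158f4005)) e
 (c (a (nat_lit 0x1e802024)) e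
 (c (a (nat_lit 0x402021)) e
 (c (a (nat_lit 0x21)) e
 (c (a (nat_lit 0x2021)) e
 (c (a (nat_lit 0x200001)) e e))))))))))))))))))))))))) Tr.c Tr.e (nat_lit 0) C.cx C.cy
noncomputable def C497 : Tr := beta% (fun (c : Nat → Tr → Tr → Tr) (e : Tr) (z : Nat) (a b : Nat → Nat) =>
 (c (a (nat_lit 0x202021))
 (c (a (nat_lit 0x20202021))
 (c (a (nat_lit 0x80a0808081))
 (c z e
 (c (a (nat_lit 0x4040402037e7)) e
 (c (a (nat_lit 0x2020205e5ea7)) e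
 (c (a (nat_lit 0x202034074027)) e
 (c (a (nat_lit 0xa0b68be2e807)) e
 (c (a (nat_lit 0x13336c0eb2f6c8)) e e))))))
 (c (a (nat_lit 0xc0be1010121))
 (c (a (nat_lit 0x404040374a67)) e
 (c (a (nat_lit 0x20207e31e208)) e
 (c (b (nat_lit 0x32337dfffffe8)) e e)))
 (c (a (nat_lit 0x402060a1))
 (c (a (nat_lit 0x206f94ca0028)) e e)
 (c (a (nat_lit 0x40203102)) e
 (c (a (nat_lit 0x27071664))
 (c (a (nat_lit 0x587304a406007)) e
 (c (a (nat_lit 0xd322ec0000008)) e e))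
 (c (a (nat_lit 0xcedf192d628))
 (c (a (nat_lit 0x1c2da000000007)) e e)
 (c z e
 (c z e
 (c z e
 (c z e
 (c (a (nat_lit 0x1151d96fefe8)) e
 (c (a (nat_lit 0x22180c10081)) e
 (c (a (nat_lit 0xe081006021)) e
 (c (a (nat_lit 0x6140800001)) e
 (c (a (nat_lit 0x10000000001)) e e)))))))))))))))
 (c (a (nat_lit 0x40404041))
 (c (a (nat_lit 0x80a0608061))
 (c (a (nat_lit 0x20202f934066)) e
 (c (b (nat_lit 0x52715ffffffe8)) e e))
 (c (a (nat_lit 0xa0a0a121)) e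
 (c (a (nat_lit 0x21e17ae7)) e
 (c (a (nat_lit 0xc2c91136ba9)) e
 (c z e
 (c z e
 (c z e
 (c z e
 (c z e
 (c (a (nat_lit 0x18135aef6f68)) e
 (c (a (nat_lit 0x222c28180c1)) e
 (c (a (nat_lit 0x121a1802001)) e
 (c (a (nat_lit 0x180c0000001)) e e)))))))))))))
 (c (a (nat_lit 0x20202021))
 (c (a (nat_lit 0x2223be29aa4)) e
 (c (a (nat_lit 0x628acac50c8)) e
 (c z e
 (c z e
 (c z e
 (c z e
 (c z e
 (c z e
 (c (a (nat_lit 0xd4e724aeae9)) e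
 (c (a (nat_lit 0x15b6b6c1c082)) e
 (c (a (nat_lit 0x101c1e00001)) e
 (c (a (nat_lit 0x4000000001)) e e))))))))))))
 (c (a (nat_lit 0x20404041))
 (c z e
 (c z e
 (c z e
 (c z e
 (c z e
 (c z e
 (c z e
 (c (a (nat_lit 0x102f930b6aa8)) e
 (c (a (nat_lit 0xc141e08001)) e
 (c (a (nat_lit 0x20a0000001)) e e))))))))))
 (c (a (nat_lit 0x20200001))
 (c (a (nat_lit 0xaf08ca0e0e7)) e
 (c (a (nat_lit 0x1cf4c1604e27)) e
 (c z e
 (c z e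
 (c z e
 (c z e
 (c (a (nat_lit 0x94ded6cb168)) e
 (c (a (nat_lit 0xc1c0c00001)) e
 (c (a (nat_lit 0xc000000001)) e e)))))))))
 (c (a (nat_lit 0x202020c1))
 (c (a (nat_lit 0xac020403f06)) e
 (c (a (nat_lit 0x20266cb8e8)) e
 (c (a (nat_lit 0x4e67a5898c8)) e
 (c z e
 (c z e
 (c (b (nat_lit 0xfecf1ffe008)) e
 (c (a (nat_lit 0xc100000001)) e e)))))))
 (c (b (nat_lit 0x20365fe7))
 (c (a (nat_lit 0x20266bb308)) e
 (c (a (nat_lit 0x2a6ad152dc9)) e e))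
 (c z e
 (c z e
 (c z e
 (c (a (nat_lit 0x88175747)) e
 (c (a (nat_lit 0x40808061)) e
 (c (a (nat_lit 0x202021)) e
 (c (a (nat_lit 0x204021)) e
 (c (a (nat_lit 0x60604041)) e
 (c (a (nat_lit 0x20204041)) e
 (c (a (nat_lit 0x60c08021)) e
 (c (a (nat_lit 0x80807222)) e e))))))))))))))))))
 (c (a (nat_lit 0x202021))
 (c (a (nat_lit 0x20202021))
 (c (a (nat_lit 0xa0a0806041))
 (c (a (nat_lit 0x444449c936165)) e
 (c (a (nat_lit 0x10337ff8e8f487)) e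
 (c z e
 (c (a (nat_lit 0xe5096bf7dfa67)) e
 (c (a (nat_lit 0x7a933a8000006)) e e)))))
 (c (a (nat_lit 0x5c7682772e8)) e
 (c (a (nat_lit 0x868ee35c888)) e
 (c (a (nat_lit 0xab0180a5068)) e
 (c (a (nat_lit 0xedf65effa67)) e
 (c z e
 (c z e
 (c (a (nat_lit 0x17b9d52dc648)) e
 (c (a (nat_lit 0x1d3556698888)) e
 (c (a (nat_lit 0x1b224282c002)) e
 (c (a (nat_lit 0x201c1c08041)) e
 (c (a (nat_lit 0x120e0200001)) e
 (c (a (nat_lit 0xa000000001)) e e)))))))))))))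
 (c (a (nat_lit 0x20404041))
 (c (a (nat_lit 0xb6d10556b68)) e
 (c z e
 (c z e
 (c z e
 (c z e
 (c z e
 (c (a (nat_lit 0x18b2cf03c3c9)) e
 (c z e
 (c (a (nat_lit 0x105277980263)) e
 (c (a (nat_lit 0x1616d7006002)) e
 (c (a (nat_lit 0xe100000001)) e e)))))))))))
 (c (a (nat_lit 0x20202021))
 (c (a (nat_lit 0xe3ac0e7f566))
 (c (b (nat_lit 0xbffd49600003)) e e)
 (c z e
 (c z e
 (c z e
 (c z e
 (c z e
 (c z e
 (c (a (nat_lit 0x120f2f2dd987)) e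
 (c (a (nat_lit 0x16161a00001)) e
 (c (a (nat_lit 0xa000000001)) e e))))))))))
 (c (a (nat_lit 0x202040a1))
 (c z e
 (c (a (nat_lit 0xa9764c7f9e7)) e
 (c z e
 (c z e
 (c (a (nat_lit 0xd70588b2d87)) e
 (c z e
 (c z e
 (c (a (nat_lit 0x18120000001)) e e))))))))
 (c (a (nat_lit 0x60614fe1))
 (c (a (nat_lit 0x74022c5f667)) e
 (c (a (nat_lit 0x24566cdb0a9)) e
 (c z e
 (c (b (nat_lit 0x1fe6c5027689)) e e))))
 (c (a (nat_lit 0x10f3d02e47))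
 (c (a (nat_lit 0x44a8d798c28)) e e)
 (c z e
 (c (a (nat_lit 0x7247a3a05))
 (c (a (nat_lit 0x83e4f82c009)) e e)
 (c (a (nat_lit 0xbba5a5a46)) e
 (c (a (nat_lit 0x2e60602e1)) e
 (c (a (nat_lit 0x60804041)) e
 (c (nat_lit 1) e
 (c (a (nat_lit 0x80804041)) e
 (c (a (nat_lit 0x80806061)) e
 (c (a (nat_lit 0xa0e0a061)) e
 (c (a (nat_lit 0x202037c7)) e
 (c z e
 (c (a (nat_lit 0xad9602027)) e
 (c (a (nat_lit 0x1960200007)) e e)))))))))))))))))))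
 (c (a (nat_lit 0x202021))
 (c (a (nat_lit 0x40404041))
 (c (a (nat_lit 0x1b1d9d363625))
 (c z e
 (c (a (nat_lit 0x5cbaff6e70005)) e e))
 (c (a (nat_lit 0x54360403b47))
 (c (a (nat_lit 0x16ce16ae600005)) e e)
 (c z e
 (c z e
 (c (a (nat_lit 0x4504dc16028)) e
 (c (a (nat_lit 0x19f430cac8e8)) e
 (c (a (nat_lit 0x1cd2ea2a2d47)) e
 (c z e
 (c (a (nat_lit 0x2a30380d185)) e
 (c (a (nat_lit 0x1616b6200002)) e
 (c (a (nat_lit 0xe000000001)) e e)))))))))))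
 (c (a (nat_lit 0x41))
 (c (a (nat_lit 0x4a3636e58e7))
 (c (a (nat_lit 0x10304860000005)) e e)
 (c z e
 (c z e
 (c (a (nat_lit 0x159d95644948)) e
 (c (a (nat_lit 0x10d38dc6aa48)) e
 (c (a (nat_lit 0x14436382a5c8)) e
 (c z e
 (c (a (nat_lit 0x18fab2630003)) e
 (c (a (nat_lit 0x163640000002)) e e)))))))))
 (c (b (nat_lit 0xdfe1)) e
 (c (a (nat_lit 0x14747412c6)) e
 (c (a (nat_lit 0x1bd978dbc6))
 (c (a (nat_lit 0xb9175f205e8)) e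
 (c (a (nat_lit 0xe32b4cbca69)) e e))
 (c (a (nat_lit 0x105116f6e7))
 (c (a (nat_lit 0x13d7d80f6e08)) e
 (c (a (nat_lit 0x10193504a009)) e e))
 (c (a (nat_lit 0x8fbbbbba5))
 (c (a (nat_lit 0x114c62000009)) e e)
 (c z e
 (c (b (nat_lit 0x1fe24845c1)) e
 (c (a (nat_lit 0x1576004022)) e
 (c (a (nat_lit 0x60a14161)) e
 (c (a (nat_lit 0x8100a1)) e
 (c (a (nat_lit 0x20a10121)) e
 (c (a (nat_lit 0x19c042e4)) e
 (c z e
 (c (a (nat_lit 0x16b4123227)) e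
 (c (a (nat_lit 0x1e80402003)) e
 (c (a (nat_lit 0x20000001)) e e))))))))))))))))))
 C496)))) Tr.c Tr.e (nat_lit 0) C.cx C.cy
noncomputable def C498 : Tr := beta% (fun (c : Nat → Tr → Tr → Tr) (e : Tr) (z : Nat) (a b : Nat → Nat) =>
 (c (a (nat_lit 0x20202021))
 (c (a (nat_lit 0x1d3e1fffe265))
 (c (a (nat_lit 0x1dcce040448465))
 (c (a (nat_lit 0x1224042263e362c6)) e
 (c (a (nat_lit 0xb070606082b97a7)) e
 (c (a (nat_lit 0x12eb89cd4d508827)) e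
 (c (a (nat_lit 0x10480764a9000007)) e
 (c (a (nat_lit 0x15cd088000000005)) e e)))))
 (c (a (nat_lit 0x110846030d0c6))
 (c (a (nat_lit 0x6850e110b15d548)) e
 (c (a (nat_lit 0x6abf4cd100dc008)) e
 (c (a (nat_lit 0x1ff9f0d160000007)) e e)))
 (c (a (nat_lit 0x217e3c411b1a6))
 (c (a (nat_lit 0x151f9b6740800005)) e e)
 (c (b (nat_lit 0x1ff6e040492927)) e
 (c (a (nat_lit 0xfaa60404c1245)) e
 (c (a (nat_lit 0x1264300283ca7)) e
 (c (a (nat_lit 0x148c365305487)) e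
 (c (b (nat_lit 0x1fec44c831d0e7)) e
 (c (b (nat_lit 0x1ff1687eb028a7)) e e)))))))))
 (c (a (nat_lit 0x17fda2e2e2e6))
 (c (a (nat_lit 0xbd0d110d0d0c7))
 (c (a (nat_lit 0x1302fa98c4c0408)) e
 (c (a (nat_lit 0x79256194c200008)) e
 (c (a (nat_lit 0x1124da0000000007)) e e)))
 (c (a (nat_lit 0x1111f1f1513127))
 (c (a (nat_lit 0x57f94960000007)) e e)
 (c (a (nat_lit 0xea92929293a28)) e
 (c (a (nat_lit 0xc181818734a9)) e
 (c (a (nat_lit 0x5c5e5256cf129)) e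
 (c (a (nat_lit 0xae7e6dcf36b88)) e e))))))
 (c (a (nat_lit 0x1a0040404005))
 (c (a (nat_lit 0x140e1002030e7))
 (c (a (nat_lit 0x5387e000000004)) e e)
 (c (a (nat_lit 0x202040315c28)) e
 (c (a (nat_lit 0x303030e57d748)) e
 (c (a (nat_lit 0x4c49c794a6a87)) e e))))
 (c (b (nat_lit 0x1fe0e0a06001))
 (c (a (nat_lit 0x121c15329c347)) e
 (c (a (nat_lit 0x604b874a1b67)) e
 (c z e
 (c z e
 (c (a (nat_lit 0x16e8ef5bad8008)) e
 (c (a (nat_lit 0x11706e20000008)) e e))))))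
 (c (a (nat_lit 0x414100a001))
 (c (a (nat_lit 0x687eef107a8)) e
 (c z e
 (c z e
 (c (a (nat_lit 0xa524882200008)) e
 (c (a (nat_lit 0x14a4c000000008)) e e)))))
 (c (a (nat_lit 0x6080802001))
 (c (b (nat_lit 0x1c075ff08384c6)) e
 (c (a (nat_lit 0x1f31d4e3826006)) e
 (c (a (nat_lit 0x5f46200000005)) e e)))
 (c (a (nat_lit 0xe0c1010341))
 (c (a (nat_lit 0x19c5a100400005)) e
 (c (a (nat_lit 0x11c16000000004)) e e))
 (c (a (nat_lit 0x2025659a67))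
 (c (a (nat_lit 0x8600000000001)) e e)
 (c (a (nat_lit 0x2e5cbb50fe8)) e
 (c z e
 (c z e
 (c (a (nat_lit 0x1530aeeae368)) e
 (c (a (nat_lit 0x1b2040515104)) e
 (c (a (nat_lit 0xc0e1004021)) e
 (c (a (nat_lit 0x162414120a1)) e
 (c (a (nat_lit 0x180a0a00001)) e
 (c (a (nat_lit 0x6000000001)) e e)))))))))))))))))
 (c (a (nat_lit 0x20202021))
 (c (a (nat_lit 0x1a2060604024))
 (c (a (nat_lit 0x1718f8c321a141))
 (c (a (nat_lit 0x1b06a0e0e0202006)) e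
 (c (a (nat_lit 0x14ed216120000006)) e
 (c (a (nat_lit 0x1805a00000000003)) e e)))
 (c (a (nat_lit 0x406060203847))
 (c (a (nat_lit 0x1ca5612000000006)) e e)
 (c (a (nat_lit 0x2020202656e9)) e
 (c (a (nat_lit 0x2020216bf2a9)) e
 (c (a (nat_lit 0x228036924028)) e
 (c (a (nat_lit 0x2830c6e1c5a9)) e e))))))
 (c (a (nat_lit 0xe1010100a1))
 (c (a (nat_lit 0x8080802c3ea8))
 (c (a (nat_lit 0x1d86000000000005)) e e)
 (c (a (nat_lit 0x2020206b9429)) e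
 (c (b (nat_lit 0x202039795fe8)) e e)))
 (c (a (nat_lit 0x160e14141))
 (c (a (nat_lit 0x20408af46408)) e e)
 (c (a (nat_lit 0x16160e0c0c1)) e
 (c (a (nat_lit 0xa0a0c0a401))
 (c (b (nat_lit 0x115fffffe0a069)) e
 (c (b (nat_lit 0x1ffc3202800007)) e e))
 (c (a (nat_lit 0x23e3fba7))
 (c (a (nat_lit 0x19e48440000003)) e e)
 (c (a (nat_lit 0x186f09b1868)) e
 (c z e
 (c z e
 (c z e
 (c (a (nat_lit 0x159453ae2ca9)) e
 (c (a (nat_lit 0x160460311107)) e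
 (c (a (nat_lit 0x2c1a0c001)) e
 (c (a (nat_lit 0x30281608001)) e
 (c (a (nat_lit 0x1c0a0000001)) e e)))))))))))))))
 (c (a (nat_lit 0x40404041))
 (c (a (nat_lit 0x191960402002))
 (c (a (nat_lit 0x1a1c1c064f326))
 (c (a (nat_lit 0x1300000000000003)) e e)
 (c (a (nat_lit 0x4476dc43749e7)) e e))
 (c (a (nat_lit 0xa0c08061)) e
 (c (a (nat_lit 0xa08080b203)) e
 (c (a (nat_lit 0x20e113a8)) e
 (c z e
 (c z e
 (c z e
 (c z e
 (c z e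
 (c (a (nat_lit 0x19fdb06fca48)) e
 (c (a (nat_lit 0x1ac020313127)) e
 (c (a (nat_lit 0xe140a061)) e
 (c (a (nat_lit 0x8180c00001)) e
 (c (a (nat_lit 0x8000000001)) e e))))))))))))))
 (c (a (nat_lit 0x60606061))
 (c (a (nat_lit 0x40808201))
 (c (b (nat_lit 0x18ebbbffea08e6)) e
 (c (a (nat_lit 0xd66d1e364e089)) e e))
 (c (a (nat_lit 0x202a431b46))
 (c (a (nat_lit 0x49d4a8ec36528)) e e)
 (c z e
 (c z e
 (c (a (nat_lit 0x8cbf089e1c9)) e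
 (c (a (nat_lit 0xc6f31284c89)) e
 (c z e
 (c z e
 (c (a (nat_lit 0xd3206058289)) e
 (c (a (nat_lit 0x186080690908)) e
 (c (a (nat_lit 0x1e32521e001)) e
 (c (a (nat_lit 0x2a180000001)) e e))))))))))))
 (c (a (nat_lit 0x20202021))
 (c (a (nat_lit 0x3c2af1126))
 (c (a (nat_lit 0x1326034245a2e7)) e e)
 (c z e
 (c z e
 (c (a (nat_lit 0x1cba5ae1eaa6)) e
 (c (a (nat_lit 0x8f018acbd66)) e
 (c z e
 (c z e
 (c (a (nat_lit 0x19954fc7c2c8)) e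
 (c (a (nat_lit 0x1600404c0346)) e
 (c (a (nat_lit 0x2c101a00001)) e
 (c (a (nat_lit 0x4000000001)) e e)))))))))))
 (c (nat_lit 1)
 (c (a (nat_lit 0x1df35780fc5)) e
 (c (a (nat_lit 0x1a385944a485)) e
 (c (a (nat_lit 0x1e1a1d145)) e
 (c (b (nat_lit 0x4642bfffd26)) e
 (c z e
 (c z e
 (c (a (nat_lit 0x131a15e026e8)) e
 (c (a (nat_lit 0x11a980476007)) e
 (c (a (nat_lit 0x1e80a0000003)) e e)))))))))
 (c (a (nat_lit 0x60606061))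
 (c (a (nat_lit 0x423e1e221)) e
 (c (a (nat_lit 0x3c4cc2d5001)) e
 (c (b (nat_lit 0x2024dff727)) e
 (c z e
 (c z e
 (c (a (nat_lit 0x1159ca202a68)) e
 (c (a (nat_lit 0x150400600007)) e
 (c (a (nat_lit 0x6000000001)) e e))))))))
 (c (a (nat_lit 0x20203647))
 (c (a (nat_lit 0x72565048001)) e
 (c (a (nat_lit 0x2028a8b768)) e
 (c z e
 (c z e
 (c (a (nat_lit 0x49321402008)) e
 (c (a (nat_lit 0x1a6320000007)) e e))))))
 (c (a (nat_lit 0x2036ab07))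
 (c (a (nat_lit 0x2033159c07)) e
 (c z e
 (c z e
 (c (b (nat_lit 0x1ff1a9a00008)) e e))))
 (c z e
 (c z e
 (c (a (nat_lit 0x1a71a04024)) e
 (c (a (nat_lit 0x1fbd802006)) e
 (c (a (nat_lit 0x1a00202025)) e
 (c (a (nat_lit 0xa060a061)) e
 (c (a (nat_lit 0x40606001)) e
 (c (a (nat_lit 0x14100c0c1)) e
 (c (a (nat_lit 0x80406061)) e
 (c (a (nat_lit 0xa0a08241)) e
 (c (a (nat_lit 0x203a25)) e e))))))))))))))))))))) Tr.c Tr.e (nat_lit 0) C.cx C.cy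
noncomputable def C499 : Tr := beta% (fun (c : Nat → Tr → Tr → Tr) (e : Tr) (z : Nat) (a b : Nat → Nat) =>
 (c (nat_lit 1)
 (c (a (nat_lit 0x1b58d8d894e7))
 (c (a (nat_lit 0xe112d4a882a47))
 (c (a (nat_lit 0x10342aef2d6888a7)) e
 (c (a (nat_lit 0x16294a28e747cb29)) e
 (c (a (nat_lit 0xd6d29e7ea4c52e9)) e
 (c (a (nat_lit 0x1231a9c9c949e009)) e
 (c (a (nat_lit 0x12c9a96580000008)) e e)))))
 (c (a (nat_lit 0x18d34ea1a03607))
 (c (a (nat_lit 0x158f0b0b8b2fbb49)) e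
 (c (a (nat_lit 0x1e4eaf5353fd9809)) e
 (c (a (nat_lit 0x1ed6ece7aac00009)) e e)))
 (c (a (nat_lit 0xbadb0c926b028))
 (c (a (nat_lit 0x1893f091574a4008)) e e)
 (c (a (nat_lit 0xbee33e6e61188)) e
 (c (a (nat_lit 0xef0ad06e6edc7)) e
 (c (a (nat_lit 0x1bcad971603c06)) e
 (c (a (nat_lit 0x7e1c72022f468)) e
 (c (a (nat_lit 0xde92fc8cb53c8)) e e))))))))
 (c (a (nat_lit 0x1495799263a7))
 (c (a (nat_lit 0x84d23c3b11028))
 (c (a (nat_lit 0x114acd86a9985b88)) e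
 (c (a (nat_lit 0xb092c8a4c712009)) e
 (c (a (nat_lit 0x130441e0e0000009)) e e)))
 (c (a (nat_lit 0xfdf2ff01c1be8))
 (c (a (nat_lit 0x2a24ed0e8400009)) e e)
 (c (a (nat_lit 0x52e0604e31c8)) e
 (c (a (nat_lit 0x2cc5a62f17a8)) e
 (c (b (nat_lit 0x1fe664842b9809)) e
 (c (a (nat_lit 0x2ea87cbb59729)) e e))))))
 (c (a (nat_lit 0xff249292928))
 (c (a (nat_lit 0x10113110b0b308))
 (c (a (nat_lit 0xc0d7deba0000007)) e e)
 (c (a (nat_lit 0xc6a0a09edf609)) e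
 (c (a (nat_lit 0x8066688ce36a9)) e e)))
 (c (a (nat_lit 0x15a2e2e2e2c6))
 (c (a (nat_lit 0x10121297a1607)) e
 (c (a (nat_lit 0x24f06d4208)) e e))
 (c (a (nat_lit 0x1410120c001))
 (c (a (nat_lit 0xa2480d87de07)) e
 (c z e
 (c z e
 (c (a (nat_lit 0x1eb05ee9e12007)) e
 (c (a (nat_lit 0xab0e2e0000008)) e e)))))
 (c (a (nat_lit 0x40e0c08001))
 (c z e
 (c (a (nat_lit 0x19f2a76240e0c8)) e
 (c (b (nat_lit 0x13bfe2c0800007)) e
 (c (a (nat_lit 0x1070e000000004)) e e))))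
 (c (a (nat_lit 0x2218100a001))
 (c z e
 (c (a (nat_lit 0xc6a8ae0000001)) e
 (c (a (nat_lit 0x9800000000001)) e e)))
 (c (a (nat_lit 0x2020203385)) e
 (c (a (nat_lit 0x2b7072e7)) e
 (c z e
 (c z e
 (c (a (nat_lit 0x11f4f5546d88)) e
 (c (b (nat_lit 0x1fe297606044)) e
 (c (a (nat_lit 0xfc260e0c001)) e
 (c (a (nat_lit 0x120c0208001)) e
 (c (a (nat_lit 0x260e1008001)) e
 (c (a (nat_lit 0x80c0000001)) e e)))))))))))))))))
 (c (a (nat_lit 0x2001))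
 (c (a (nat_lit 0x97ce9694944))
 (c (b (nat_lit 0x1ff91494745445))
 (c (a (nat_lit 0x1398b1e9ad6d0466)) e
 (c (a (nat_lit 0x11b3ad8de6a00007)) e
 (c (a (nat_lit 0xa70a70000000007)) e e)))
 (c (a (nat_lit 0x258585455007))
 (c (a (nat_lit 0x1d5f2f24a0000006)) e e)
 (c (b (nat_lit 0x1fe5c5c5d292a7)) e
 (c (a (nat_lit 0x201a202b987)) e
 (c (a (nat_lit 0x47e0a0ae9528)) e
 (c (a (nat_lit 0x185c5910704c9)) e e))))))
 (c (a (nat_lit 0x176040402024))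
 (c (a (nat_lit 0xa020203a1a46))
 (c (a (nat_lit 0x154e422000000005)) e e)
 (c (a (nat_lit 0x408086665bc8)) e
 (c (a (nat_lit 0x4080c10ed308)) e e)))
 (c (a (nat_lit 0x1959406021))
 (c (a (nat_lit 0x204060cc95e8)) e e)
 (c (a (nat_lit 0x60802001)) e
 (c (a (nat_lit 0x40604001)) e
 (c (a (nat_lit 0x2020205964))
 (c (a (nat_lit 0xd2c0c0600005)) e
 (c (a (nat_lit 0x13006000000006)) e e))
 (c (a (nat_lit 0x20359c1f66)) e
 (c z e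
 (c z e
 (c z e
 (c z e
 (c (a (nat_lit 0x1f7580203466)) e
 (c (a (nat_lit 0x158020347326)) e
 (c (a (nat_lit 0x126020204024)) e
 (c (a (nat_lit 0xc120e00001)) e
 (c (nat_lit 1) e e))))))))))))))))
 (c (a (nat_lit 0x20202021))
 (c (a (nat_lit 0xe10100e0e1))
 (c (a (nat_lit 0x20315175c5)) e
 (c (a (nat_lit 0xa47514ee2aa6)) e
 (c z e
 (c (b (nat_lit 0xb6c7ff86e8027)) e
 (c (a (nat_lit 0x15cd2c8d6b3e06)) e e)))))
 (c (a (nat_lit 0xf9080202002))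
 (c (a (nat_lit 0x9b9d3770fc06)) e e)
 (c (a (nat_lit 0x2060604001)) e
 (c (a (nat_lit 0x2020205964))
 (c z e
 (c (b (nat_lit 0x1ffffaa4800005)) e e))
 (c (a (nat_lit 0x22039068))
 (c (a (nat_lit 0x2d2c80000001)) e e)
 (c (a (nat_lit 0x84db49c8de8)) e
 (c z e
 (c (a (nat_lit 0x15dd7a1431a8)) e
 (c z e
 (c (a (nat_lit 0x1111380fed28)) e
 (c (a (nat_lit 0x6fba02034a6)) e
 (c (a (nat_lit 0x1b802034ae66)) e
 (c (a (nat_lit 0x8221a0e001)) e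
 (c (a (nat_lit 0x160e0000001)) e e))))))))))))))
 (c (nat_lit 1)
 (c (a (nat_lit 0x20604001))
 (c z e
 (c (b (nat_lit 0xc2989a872dfe7)) e e))
 (c (a (nat_lit 0x2020203105))
 (c (a (nat_lit 0x137733502c8786)) e e)
 (c (a (nat_lit 0x407433f945)) e
 (c z e
 (c (a (nat_lit 0xdf00f6c8808)) e
 (c (a (nat_lit 0x18d7da5559a8)) e
 (c (a (nat_lit 0x15521f5d9347)) e
 (c z e
 (c (a (nat_lit 0x13d913ee6c28)) e
 (c (a (nat_lit 0x1648a0e02ac7)) e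
 (c (a (nat_lit 0xfc0405544e6)) e
 (c (a (nat_lit 0x121200001)) e
 (c (nat_lit 1) e e)))))))))))))
 (c (nat_lit 1)
 (c (a (nat_lit 0xa8a91d62e25))
 (c (a (nat_lit 0x7f040508eeb45)) e e)
 (c (a (nat_lit 0x60d126d6ac6)) e
 (c z e
 (c (a (nat_lit 0x1a1592e12126)) e
 (c (a (nat_lit 0x2036382d266)) e
 (c (a (nat_lit 0xc24f16b527)) e
 (c z e
 (c (a (nat_lit 0x14ba7ad08847)) e
 (c (a (nat_lit 0x1234c2241146)) e
 (c (a (nat_lit 0x128021c78006)) e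
 (c (a (nat_lit 0x16040000001)) e e)))))))))))
 (c (nat_lit 1)
 (c (a (nat_lit 0xe34924c4c25)) e
 (c (a (nat_lit 0x1a39c9a120c5)) e
 (c (a (nat_lit 0x1c60e0c04004)) e
 (c (a (nat_lit 0x80404055e6)) e
 (c (a (nat_lit 0x564c4b43567)) e
 (c z e
 (c z e
 (c (b (nat_lit 0x1ff528a06045)) e
 (c (a (nat_lit 0x1ac200400004)) e
 (c (a (nat_lit 0x1de000000003)) e e))))))))))
 (c (nat_lit 1)
 (c (a (nat_lit 0x14e0a0804044)) e
 (c (a (nat_lit 0x22222a24201)) e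
 (c (a (nat_lit 0x2043031965)) e
 (c (a (nat_lit 0x2024d447)) e
 (c (a (nat_lit 0x8cacc38eec7)) e
 (c (a (nat_lit 0xeb015298328)) e
 (c (a (nat_lit 0xf6a0402006)) e
 (c (a (nat_lit 0x168020000006)) e e))))))))
 (c (a (nat_lit 0x200001))
 (c (a (nat_lit 0x1824262a261)) e
 (c (a (nat_lit 0x2020203267)) e
 (c (a (nat_lit 0x202052f527)) e
 (c (a (nat_lit 0x4646bcf93a8)) e
 (c (a (nat_lit 0x8ebf165e0c8)) e
 (c (a (nat_lit 0x5b060600007)) e e))))))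
 (c (a (nat_lit 0x33c5))
 (c (a (nat_lit 0x2020239766)) e
 (c (a (nat_lit 0x2028d3b007)) e
 (c (a (nat_lit 0x4656cf7e248)) e e)))
 (c (a (nat_lit 0x154f25))
 (c (a (nat_lit 0x23a4d568)) e
 (c (a (nat_lit 0x609332d4829)) e e))
 (c (a (nat_lit 0xed412d1a7)) e
 (c (a (nat_lit 0x16b594f207)) e
 (c (a (nat_lit 0x19d7bcc025)) e
 (c (a (nat_lit 0x17fd0020a5)) e
 (c (a (nat_lit 0x1760202024)) e
 (c (a (nat_lit 0x60606021)) e
 (c (a (nat_lit 0x402001)) e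
 (c (a (nat_lit 0x60402061)) e
 (c (a (nat_lit 0x140c0c021)) e
 (c (a (nat_lit 0x20203944)) e
 (c (a (nat_lit 0x20394b24)) e e)))))))))))))))))))))) Tr.c Tr.e (nat_lit 0) C.cx C.cy
noncomputable def C500 : Tr := beta% (fun (c : Nat → Tr → Tr → Tr) (e : Tr) (z : Nat) (a b : Nat → Nat) =>
 (c (nat_lit 1)
 (c (a (nat_lit 0x20204021))
 (c (a (nat_lit 0x2040c0dec5)) e
 (c (a (nat_lit 0x40406ef567)) e
 (c z e
 (c (a (nat_lit 0x6f1f16a6cc8)) e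
 (c (a (nat_lit 0xe37d480e867)) e
 (c (a (nat_lit 0x178b46c62a47)) e
 (c z e
 (c (a (nat_lit 0x602745f2003)) e
 (c (a (nat_lit 0x1231e0000003)) e e)))))))))
 (c (a (nat_lit 0x40409b63))
 (c (a (nat_lit 0x2e38a785607)) e
 (c z e
 (c z e
 (c (a (nat_lit 0x1476c4282408)) e
 (c (a (nat_lit 0x8302c6f5488)) e
 (c z e
 (c (a (nat_lit 0x44d75400004)) e
 (c (a (nat_lit 0x120000000003)) e e))))))))
 (c (a (nat_lit 0x5409c4)) e
 (c (a (nat_lit 0xff17130a7))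
 (c (a (nat_lit 0xb76ecce22c8)) e
 (c (a (nat_lit 0x1d9b184a97c8)) e e))
 (c (a (nat_lit 0x1819032324))
 (c (a (nat_lit 0x1bf7f292a587)) e
 (c (a (nat_lit 0xe4d3341e009)) e e))
 (c (a (nat_lit 0x109bbbdbc5))
 (c (a (nat_lit 0x16ba83e00008)) e e)
 (c z e
 (c (a (nat_lit 0x181010001)) e
 (c (a (nat_lit 0x11f1c04043)) e
 (c (a (nat_lit 0x80606001)) e
 (c (a (nat_lit 0x40406041)) e
 (c (a (nat_lit 0x1438b45425)) e
 (c z e
 (c (a (nat_lit 0x1d3d3d3d45)) e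
 (c (a (nat_lit 0xe0810141)) e
 (c (a (nat_lit 0x802001)) e
 (c (nat_lit 1) e e)))))))))))))))))
 (c (nat_lit 1)
 (c (a (nat_lit 0x1070999784))
 (c (a (nat_lit 0x50512f26c86)) e
 (c z e
 (c z e
 (c (b (nat_lit 0x156649e4dfe7)) e
 (c (a (nat_lit 0x9c7ea8c5248)) e
 (c z e
 (c (a (nat_lit 0x140440000003)) e e)))))))
 (c z e
 (c (a (nat_lit 0x1f1604e422))
 (c (b (nat_lit 0x14ec3fe025e8)) e
 (c (a (nat_lit 0x11ac28aca708)) e e))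
 (c (a (nat_lit 0x1b8d2d4d64))
 (c (a (nat_lit 0x1e06fb6fa1c6)) e
 (c (a (nat_lit 0x141b46a00008)) e e))
 (c (a (nat_lit 0x918383826))
 (c (a (nat_lit 0x16c320000008)) e e)
 (c z e
 (c (a (nat_lit 0x565a06061)) e
 (c (a (nat_lit 0x8060e061)) e
 (c (a (nat_lit 0x20205723)) e
 (c (a (nat_lit 0xa6eb44ae5)) e
 (c z e
 (c (a (nat_lit 0x1390f0f0e6)) e
 (c (a (nat_lit 0x200818001)) e
 (c (a (nat_lit 0x61c06001)) e
 (c (a (nat_lit 0x300200001)) e e)))))))))))))))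
 (c (nat_lit 1)
 (c (a (nat_lit 0xdfd018101))
 (c (a (nat_lit 0xd3123e06026)) e
 (c (a (nat_lit 0x1a6562602027)) e
 (c (a (nat_lit 0x146ea4206046)) e
 (c (a (nat_lit 0x5f2ae402008)) e e))))
 (c (a (nat_lit 0x10410140a1))
 (c (a (nat_lit 0x14c120606025)) e
 (c (a (nat_lit 0x104100e06026)) e
 (c (a (nat_lit 0x15e940200008)) e e)))
 (c (a (nat_lit 0xe121a001))
 (c (a (nat_lit 0x123272a36001)) e
 (c (a (nat_lit 0x136020000007)) e e))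
 (c (a (nat_lit 0x281c280c1)) e
 (c (a (nat_lit 0xe8c414081)) e
 (c (a (nat_lit 0x8040e061)) e
 (c (a (nat_lit 0x4080c0e1)) e
 (c (a (nat_lit 0x31716d24)) e
 (c z e
 (c (a (nat_lit 0x16353431e6)) e
 (c (a (nat_lit 0x1e4100c121)) e
 (c (a (nat_lit 0x612201)) e
 (c (a (nat_lit 0x408001)) e
 (c (nat_lit 1) e e))))))))))))))
 (c (nat_lit 1)
 (c (a (nat_lit 0x100e0e001))
 (c (a (nat_lit 0x46202824041)) e
 (c (a (nat_lit 0x4a56961e001)) e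
 (c (a (nat_lit 0x110040000006)) e e)))
 (c (a (nat_lit 0x12120a001))
 (c (a (nat_lit 0xa2f8a400001)) e
 (c (a (nat_lit 0x5e000000001)) e e))
 (c (a (nat_lit 0x62a20041)) e
 (c (a (nat_lit 0x60c0a061)) e
 (c (a (nat_lit 0x405d02)) e
 (c (a (nat_lit 0x35959666)) e
 (c z e
 (c (a (nat_lit 0x1d3d9c1267)) e
 (c (a (nat_lit 0x1980604063)) e
 (c (a (nat_lit 0x18121c161)) e
 (c (a (nat_lit 0x404061)) e
 (c (nat_lit 1) e e))))))))))))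
 (c (a (nat_lit 0x202021))
 (c (a (nat_lit 0x808006021))
 (c (a (nat_lit 0x92540000001)) e e)
 (c (a (nat_lit 0x1a1216001)) e
 (c (a (nat_lit 0x20407d23)) e
 (c (a (nat_lit 0x30723167)) e
 (c z e
 (c (a (nat_lit 0x13b2f3ab67)) e
 (c (a (nat_lit 0xe7a7a6283)) e
 (c (a (nat_lit 0x1160202042)) e
 (c (a (nat_lit 0x6040e1a1)) e
 (c (a (nat_lit 0x606001)) e
 (c (a (nat_lit 0x60000001)) e e)))))))))))
 (c (a (nat_lit 0x21))
 (c (a (nat_lit 0x40407ca2)) e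
 (c (a (nat_lit 0x88fd0b048)) e
 (c z e
 (c (a (nat_lit 0x1e5d9e3e07)) e
 (c (a (nat_lit 0x14f59589c7)) e
 (c (a (nat_lit 0x40040e001)) e
 (c (a (nat_lit 0x20e0a001)) e
 (c (a (nat_lit 0xa0404021)) e
 (c (a (nat_lit 0x100400001)) e e)))))))))
 (c (a (nat_lit 0x202021))
 (c z e
 (c (a (nat_lit 0x1555157568)) e
 (c (a (nat_lit 0x11f2524508)) e
 (c (a (nat_lit 0x600001)) e
 (c (a (nat_lit 0x40604261)) e
 (c (a (nat_lit 0x40a0e1)) e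
 (c (a (nat_lit 0x402001)) e
 (c (a (nat_lit 0x20000001)) e e))))))))
 (c (a (nat_lit 0x202021))
 (c (a (nat_lit 0x1a5bdbc025)) e
 (c (a (nat_lit 0x19c0c0e0a2)) e
 (c (a (nat_lit 0x100806101)) e
 (c (a (nat_lit 0x20402141)) e
 (c (a (nat_lit 0x216161)) e
 (c (a (nat_lit 0x400001)) e e))))))
 (c (a (nat_lit 0x202021))
 (c (a (nat_lit 0x20002021)) e
 (c (a (nat_lit 0x202021)) e
 (c (a (nat_lit 0x20202021)) e
 (c (a (nat_lit 0x20202001)) e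
 (c (a (nat_lit 0x20000001)) e e)))))
 (c (a (nat_lit 0x202021))
 (c (a (nat_lit 0x20202021)) e
 (c (a (nat_lit 0x20202021)) e
 (c (a (nat_lit 0x20200001)) e e)))
 (c (a (nat_lit 0x202021))
 (c (a (nat_lit 0x20202001)) e
 (c (a (nat_lit 0x20000001)) e e))
 (c (a (nat_lit 0x202021)) e
 (c (a (nat_lit 0x202021)) e
 (c (a (nat_lit 0x202021)) e
 (c (a (nat_lit 0x202021)) e
 (c (nat_lit 1) e
 (c (a (nat_lit 0x202001)) e
 (c (a (nat_lit 0x3b64)) e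
 (c z e
 (c (a (nat_lit 0x1b5c2004)) e
 (c (a (nat_lit 0x1c202004)) e
 (c (a (nat_lit 0x2041)) e
 (c (a (nat_lit 0x2001)) e
 (c (a (nat_lit 0x404001)) e e))))))))))))))))))))))))) Tr.c Tr.e (nat_lit 0) C.cx C.cy
noncomputable def C501 : Tr := beta% (fun (c : Nat → Tr → Tr → Tr) (e : Tr) (z : Nat) (a b : Nat → Nat) =>
 (c (nat_lit 1)
 (c (a (nat_lit 0x20202001))
 (c (a (nat_lit 0x565858564c1))
 (c (a (nat_lit 0x9292935e86064)) e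
 (c (b (nat_lit 0x5c7701fffe128)) e
 (c z e
 (c z e
 (c (a (nat_lit 0xa4df007a24005)) e
 (c (a (nat_lit 0x12e72280000005)) e
 (c (a (nat_lit 0x3000000000001)) e e)))))))
 (c (a (nat_lit 0xd341b1a9326)) e
 (c (a (nat_lit 0x10d1fe3250c6)) e
 (c z e
 (c (a (nat_lit 0x400e06031a8)) e
 (c (a (nat_lit 0xe024f64ca8)) e
 (c (a (nat_lit 0x26b1cb16988)) e
 (c (a (nat_lit 0xbb50ec9c609)) e
 (c (a (nat_lit 0x1a33d0900489)) e
 (c (a (nat_lit 0x11afefa44448)) e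
 (c (a (nat_lit 0x13a1c1a140c2)) e
 (c (a (nat_lit 0x1a141808001)) e
 (c (a (nat_lit 0x180c0000001)) e e)))))))))))))
 (c (a (nat_lit 0xe0c0a0c1))
 (c (a (nat_lit 0xab8bf952946)) e
 (c z e
 (c z e
 (c z e
 (c z e
 (c z e
 (c (a (nat_lit 0x16d8368c2009)) e
 (c z e
 (c z e
 (c (a (nat_lit 0x2244563c221)) e
 (c (a (nat_lit 0x1191b1800004)) e
 (c (a (nat_lit 0x12000000001)) e e))))))))))))
 (c (a (nat_lit 0x202021))
 (c (a (nat_lit 0x6c180203f26))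
 (c (a (nat_lit 0x14a30be880c005)) e
 (c (a (nat_lit 0x1273f5e0000005)) e e))
 (c (a (nat_lit 0x4e3839eeea7))
 (c (a (nat_lit 0x8f18000000005)) e e)
 (c z e
 (c z e
 (c z e
 (c z e
 (c z e
 (c z e
 (c (a (nat_lit 0x32d300c003)) e
 (c (a (nat_lit 0x200e0000001)) e e))))))))))
 (c (a (nat_lit 0x402040a1))
 (c (b (nat_lit 0x1c1fd66ffe6))
 (c (a (nat_lit 0x1bc00000000002)) e e)
 (c z e
 (c (a (nat_lit 0x14ed062b0b68)) e
 (c (a (nat_lit 0x987b4d76b88)) e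
 (c z e
 (c z e
 (c z e
 (c (b (nat_lit 0x1fe383a00001)) e
 (c (a (nat_lit 0xa000000001)) e e)))))))))
 (c (a (nat_lit 0x40204081))
 (c (a (nat_lit 0x10e8c0202b07)) e
 (c (a (nat_lit 0x4a0266a7a48)) e
 (c (a (nat_lit 0x3e4d652f528)) e
 (c (a (nat_lit 0x54e17520fe8)) e
 (c z e
 (c (a (nat_lit 0x18944dec6007)) e
 (c (a (nat_lit 0x1a0040000005)) e e)))))))
 (c (b (nat_lit 0x20375fe7))
 (c (a (nat_lit 0x202c9ebb47)) e
 (c (a (nat_lit 0x1454cd0cdc9)) e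
 (c z e
 (c (a (nat_lit 0x90e34aae5e9)) e
 (c (a (nat_lit 0x3d5000007)) e
 (c (a (nat_lit 0x154000000004)) e e))))))
 (c (a (nat_lit 0x5dd24a3c7))
 (c (a (nat_lit 0x187ef10a8a8)) e
 (c z e
 (c z e
 (c (a (nat_lit 0x127ac0000007)) e e))))
 (c (a (nat_lit 0x163630afe7))
 (c (a (nat_lit 0x5ecda310029)) e e)
 (c (a (nat_lit 0x12d4b33328)) e
 (c (a (nat_lit 0x5b0101006)) e
 (c (a (nat_lit 0x1e16101)) e
 (c (a (nat_lit 0x40404001)) e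
 (c (a (nat_lit 0xa0a08001)) e
 (c (a (nat_lit 0x40404041)) e
 (c (a (nat_lit 0x20c0c001)) e
 (c (a (nat_lit 0xc1008001)) e
 (c z e
 (c (a (nat_lit 0x1ed8183827)) e
 (c (a (nat_lit 0xc02001)) e
 (c (a (nat_lit 0x80000001)) e e))))))))))))))))))))
 (c (a (nat_lit 0x200001))
 (c (a (nat_lit 0x40404021))
 (c (a (nat_lit 0x11112feaeae6))
 (c z e
 (c (b (nat_lit 0x12e99feb864326)) e e))
 (c (a (nat_lit 0x1b7420402025))
 (c (b (nat_lit 0x1b7fe868a10004)) e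
 (c (b (nat_lit 0x1ffff8a0000004)) e e))
 (c (a (nat_lit 0x5e0c0e03927))
 (c (a (nat_lit 0x12412000000003)) e e)
 (c (a (nat_lit 0x121241bf307)) e
 (c z e
 (c z e
 (c (a (nat_lit 0x1d18b52403e8)) e
 (c z e
 (c z e
 (c (a (nat_lit 0x4051a02004)) e
 (c (a (nat_lit 0x119180000004)) e e)))))))))))
 (c (a (nat_lit 0x40604061))
 (c (a (nat_lit 0x680a0a03b86))
 (c (a (nat_lit 0x30ddba5000003)) e
 (c (a (nat_lit 0x10df8000000004)) e e))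
 (c (a (nat_lit 0x101204d70a8))
 (c (a (nat_lit 0x16200000000004)) e e)
 (c z e
 (c z e
 (c z e
 (c (a (nat_lit 0x1230a9e467c9)) e
 (c z e
 (c z e
 (c (a (nat_lit 0x93a89200004)) e
 (c (a (nat_lit 0x116000000004)) e e))))))))))
 (c (a (nat_lit 0x40604081))
 (c (a (nat_lit 0xa46d4a37c7)) e
 (c z e
 (c z e
 (c z e
 (c z e
 (c z e
 (c z e
 (c (a (nat_lit 0x118040000004)) e e))))))))
 (c (b (nat_lit 0x40217fe1))
 (c (a (nat_lit 0xf0e88d053a7)) e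
 (c (a (nat_lit 0xb0a0e3dabe8)) e e))
 (c (b (nat_lit 0x6925fe005))
 (c (a (nat_lit 0x24712ea6be8)) e e)
 (c z e
 (c (b (nat_lit 0x1fe7fc1c05))
 (c (a (nat_lit 0xfbe3c25a008)) e e)
 (c z e
 (c z e
 (c (a (nat_lit 0xa08041)) e
 (c (a (nat_lit 0x1171602024)) e
 (c (a (nat_lit 0x206100c1)) e
 (c (a (nat_lit 0xa12281)) e
 (c (a (nat_lit 0x1c3c5205)) e
 (c z e
 (c (a (nat_lit 0x1875f17167)) e
 (c (a (nat_lit 0x17e0202026)) e
 (c (a (nat_lit 0x40800001)) e e))))))))))))))))))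
 C500))) Tr.c Tr.e (nat_lit 0) C.cx C.cy
noncomputable def C502 : Tr := beta% (fun (c : Nat → Tr → Tr → Tr) (e : Tr) (z : Nat) (a b : Nat → Nat) =>
 (c (a (nat_lit 0x40404021))
 (c (a (nat_lit 0x16f43554c546))
 (c (a (nat_lit 0x10bb716b0b0b06))
 (c (a (nat_lit 0x9b5ce0c6aab28c6)) e
 (c (a (nat_lit 0x11cd2b2ac8a7a728)) e
 (c (a (nat_lit 0x1677700b4ab0ffc7)) e
 (c (a (nat_lit 0x1e9ed91131f54007)) e
 (c (a (nat_lit 0x1b3b8b4da0000006)) e e)))))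
 (c (a (nat_lit 0x112b27c5856568))
 (c (a (nat_lit 0x12d0f0ca2b07d828)) e
 (c (a (nat_lit 0x13b0e76949b3cb09)) e
 (c (a (nat_lit 0x13ca280748000009)) e e)))
 (c (a (nat_lit 0x190cd03e3cae7))
 (c (a (nat_lit 0x1085666b6ee80008)) e
 (c (a (nat_lit 0x12e7ecebc0000008)) e e))
 (c (a (nat_lit 0x64b52c7472ae8)) e
 (c (a (nat_lit 0xab24aa8096346)) e
 (c (a (nat_lit 0x188e9f6fa34085)) e
 (c (a (nat_lit 0x146df7068b41c6)) e
 (c (a (nat_lit 0xa272fa640fba7)) e e))))))))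
 (c (a (nat_lit 0x14f616e76027))
 (c (a (nat_lit 0x7fe26a6ea09c6))
 (c (a (nat_lit 0xfeee84a451352a8)) e
 (c (a (nat_lit 0x1c09ce10d74d2009)) e
 (c (a (nat_lit 0xe4f4f3540000008)) e e)))
 (c (a (nat_lit 0x17ce20808c4c68))
 (c (b (nat_lit 0x1feb3b37d3800007)) e e)
 (c (a (nat_lit 0x6bc00404cab88)) e
 (c (a (nat_lit 0x106881e2a08387)) e
 (c (a (nat_lit 0xb52e90065f247)) e
 (c (b (nat_lit 0xbf620c6dff4c7)) e e))))))
 (c (a (nat_lit 0x12b2e4242427))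
 (c (a (nat_lit 0x115211d1d1d927))
 (c (a (nat_lit 0xa4558800000007)) e e)
 (c (a (nat_lit 0xd688888941428)) e
 (c (a (nat_lit 0x688066a6bfce8)) e e)))
 (c (a (nat_lit 0x1808a8a8a8a6))
 (c (a (nat_lit 0x8486875d41467)) e
 (c (b (nat_lit 0x1fffe10120f0c9)) e e))
 (c (a (nat_lit 0x145a54481))
 (c (a (nat_lit 0x160814112e149)) e e)
 (c (a (nat_lit 0x1e1814141))
 (c z e
 (c z e
 (c (a (nat_lit 0x1fab3690800007)) e e)))
 (c (a (nat_lit 0xc0a06001))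
 (c (a (nat_lit 0x1f22a0c0802006)) e
 (c (a (nat_lit 0x114a60000002)) e
 (c (a (nat_lit 0x9c00000000001)) e e)))
 (c (a (nat_lit 0x202585b1a7))
 (c (a (nat_lit 0x3088000000001)) e e)
 (c (a (nat_lit 0x1e4246a30a8)) e
 (c z e
 (c z e
 (c z e
 (c (a (nat_lit 0x10a440606027)) e
 (c (a (nat_lit 0x102020202005)) e
 (c (a (nat_lit 0x2141a243e1)) e
 (c (a (nat_lit 0x2121608001)) e
 (c (a (nat_lit 0x40e0000001)) e e)))))))))))))))))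
 (c (a (nat_lit 0x60606061))
 (c (a (nat_lit 0x113342828287))
 (c (a (nat_lit 0x16070707876786))
 (c (a (nat_lit 0x1e132f8bfeddc306)) e
 (c (a (nat_lit 0xd72927aad000008)) e
 (c (a (nat_lit 0xdb6fb0000000007)) e e)))
 (c (a (nat_lit 0x1b9a7a7afafd27))
 (c (a (nat_lit 0x67192c660000008)) e e)
 (c (a (nat_lit 0x14edcdcdf03888)) e
 (c (a (nat_lit 0x14ce2fe99c7c26)) e
 (c (a (nat_lit 0x10c907f440fc27)) e
 (c (a (nat_lit 0xb45eaeca15808)) e e))))))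
 (c (a (nat_lit 0x108020212126))
 (c (a (nat_lit 0xc02020cc30c7))
 (c (a (nat_lit 0x58042000000005)) e e)
 (c (a (nat_lit 0x202026cf9cc9)) e
 (c (a (nat_lit 0x224465087de9)) e e)))
 (c (a (nat_lit 0x1a928e961))
 (c (a (nat_lit 0x2047c2253028)) e e)
 (c (a (nat_lit 0x8363a38221)) e
 (c (a (nat_lit 0x4080809823)) e
 (c (a (nat_lit 0x2022427347))
 (c (a (nat_lit 0x2520400e00004)) e
 (c (a (nat_lit 0xe92c000000001)) e e))
 (c (a (nat_lit 0x186e70ff4c8)) e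
 (c z e
 (c z e
 (c z e
 (c z e
 (c (a (nat_lit 0x1abd406120e5)) e
 (c (a (nat_lit 0x1c604040c0a5)) e
 (c (a (nat_lit 0x1626785e1)) e
 (c (a (nat_lit 0x161600001)) e
 (c (a (nat_lit 0x2000000001)) e e))))))))))))))))
 (c (a (nat_lit 0x80808081))
 (c (a (nat_lit 0x6080a0c081))
 (c (a (nat_lit 0x202024257ba6))
 (c (a (nat_lit 0x16a4400000000005)) e e)
 (c (a (nat_lit 0x21e242376968)) e e))
 (c (a (nat_lit 0x24120e001)) e
 (c (a (nat_lit 0x818180c001)) e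
 (c (a (nat_lit 0x224519a6)) e
 (c z e
 (c z e
 (c z e
 (c z e
 (c z e
 (c z e
 (c (a (nat_lit 0x13eba1010808)) e
 (c (a (nat_lit 0x1560202e6a67)) e
 (c (a (nat_lit 0xc162416001)) e
 (c (a (nat_lit 0x80c0000001)) e e))))))))))))))
 (c (a (nat_lit 0xa0a08081))
 (c (a (nat_lit 0x10180e261)) e
 (c (a (nat_lit 0x28473127)) e
 (c z e
 (c z e
 (c z e
 (c z e
 (c z e
 (c z e
 (c z e
 (c (a (nat_lit 0xe5a202027a8)) e
 (c (a (nat_lit 0x1b416167a208)) e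
 (c (a (nat_lit 0x14261e00001)) e
 (c (a (nat_lit 0x10000000001)) e e)))))))))))))
 (c (a (nat_lit 0x40404021))
 (c (a (nat_lit 0x22602cd806)) e
 (c z e
 (c z e
 (c z e
 (c z e
 (c z e
 (c z e
 (c z e
 (c (a (nat_lit 0x11c965c2c287)) e
 (c (a (nat_lit 0x15e7c0202005)) e
 (c (a (nat_lit 0x10c0c0000004)) e e)))))))))))
 (c (a (nat_lit 0x40202021))
 (c z e
 (c z e
 (c z e
 (c z e
 (c z e
 (c z e
 (c z e
 (c (b (nat_lit 0x1ffa64404026)) e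
 (c (a (nat_lit 0x1ae4c0a00006)) e
 (c (a (nat_lit 0x104000000004)) e e))))))))))
 (c (a (nat_lit 0x40404041))
 (c (a (nat_lit 0x8db78a06064)) e
 (c (a (nat_lit 0x1c210687a7a2)) e
 (c (a (nat_lit 0x20407a26)) e
 (c (a (nat_lit 0x141654b5f27)) e
 (c z e
 (c z e
 (c (a (nat_lit 0xd3565a5a007)) e
 (c (a (nat_lit 0x19a0a0000006)) e e))))))))
 (c (nat_lit 1)
 (c (a (nat_lit 0x6a6c52603a1)) e
 (c (a (nat_lit 0x2020203b47)) e
 (c (a (nat_lit 0x2022104d68)) e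
 (c z e
 (c z e
 (c (a (nat_lit 0x95064000008)) e e))))))
 (c (a (nat_lit 0x20203506))
 (c (a (nat_lit 0x20404031c7)) e
 (c (a (nat_lit 0x2029322c68)) e e))
 (c (a (nat_lit 0x20369426)) e
 (c (a (nat_lit 0x13f7b73647)) e
 (c z e
 (c (a (nat_lit 0x1434b28307)) e
 (c (a (nat_lit 0x13f1c02027)) e
 (c (a (nat_lit 0x1ec0202025)) e
 (c (a (nat_lit 0x40a0c121)) e
 (c (a (nat_lit 0x60a0c061)) e
 (c (a (nat_lit 0x606001)) e
 (c (a (nat_lit 0xe0c0e141)) e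
 (c (a (nat_lit 0x20203666)) e e))))))))))))))))))))) Tr.c Tr.e (nat_lit 0) C.cx C.cy
noncomputable def C503 : Tr := beta% (fun (c : Nat → Tr → Tr → Tr) (e : Tr) (z : Nat) (a b : Nat → Nat) =>
 (c (nat_lit 1)
 (c (a (nat_lit 0x202031ab26))
 (c (a (nat_lit 0x4444443d22004))
 (c (a (nat_lit 0x7e7e867cdf712c6)) e
 (c z e
 (c z e
 (c (a (nat_lit 0x10725999b2d1cf88)) e
 (c (a (nat_lit 0xf9ccfb47d290927)) e
 (c (a (nat_lit 0x154f68a9e065c066)) e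
 (c (a (nat_lit 0x11cf8a8609044006)) e
 (c (a (nat_lit 0x17186d6ae0000005)) e e))))))))
 (c z e
 (c z e
 (c (a (nat_lit 0xf957890e02368))
 (c (a (nat_lit 0x13725090ce674b69)) e e)
 (c (a (nat_lit 0x1713715149e687))
 (c (a (nat_lit 0x124a89860b870009)) e
 (c (a (nat_lit 0x19f5c3f2a0000007)) e e))
 (c (b (nat_lit 0x11f191919fffe5)) e
 (c (b (nat_lit 0x81a1c15ff264)) e
 (c (a (nat_lit 0x12141a214a024)) e
 (c (b (nat_lit 0x181a1e2163fe5)) e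
 (c (a (nat_lit 0x5e60620643705)) e
 (c (a (nat_lit 0x10101844375e8)) e
 (c (a (nat_lit 0x7e7ab50c2a208)) e e))))))))))))
 (c (a (nat_lit 0x37d050a8))
 (c z e
 (c z e
 (c z e
 (c z e
 (c z e
 (c z e
 (c (b (nat_lit 0x18f91ab8325fe7)) e
 (c (a (nat_lit 0xe0e10ad4b4a08)) e
 (c (b (nat_lit 0x203fffec3068)) e e)))))))))
 (c z e
 (c (a (nat_lit 0x189435502648))
 (c (a (nat_lit 0xdecef640170c8))
 (c (a (nat_lit 0x136f2d63a6c5a008)) e e)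
 (c (a (nat_lit 0xc0f87e1e9b3e9)) e
 (c z e
 (c z e
 (c (a (nat_lit 0x5270cca06b289)) e
 (c z e
 (c z e
 (c (a (nat_lit 0x968f60c64200a)) e e))))))))
 (c (a (nat_lit 0x1415da46a747))
 (c (a (nat_lit 0x12aa404418b788)) e
 (c (a (nat_lit 0x7b06db35744a8)) e
 (c z e
 (c z e
 (c z e
 (c z e
 (c (a (nat_lit 0x73ecdc5600009)) e e)))))))
 (c (a (nat_lit 0x123669090907))
 (c (a (nat_lit 0xe1028878f4907)) e
 (c z e
 (c z e
 (c z e
 (c (a (nat_lit 0xfac9469464008)) e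
 (c (a (nat_lit 0x1db2a300000008)) e e))))))
 (c (a (nat_lit 0x1c04e4e4e4c4))
 (c z e
 (c z e
 (c z e
 (c (a (nat_lit 0xaa31660800006)) e
 (c (a (nat_lit 0x1a75e000000006)) e e)))))
 (c (a (nat_lit 0x6121206021))
 (c (a (nat_lit 0x3144e0408048)) e
 (c (a (nat_lit 0x1f810061004007)) e e))
 (c (a (nat_lit 0x80a08061)) e
 (c (a (nat_lit 0xc0c1417d02)) e
 (c (a (nat_lit 0x202ed09f86)) e
 (c (a (nat_lit 0x6262f539228)) e
 (c z e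
 (c z e
 (c (a (nat_lit 0x1cf3b0f3b3a6)) e
 (c (a (nat_lit 0x281010001)) e
 (c (a (nat_lit 0x4e3a1c141e1)) e
 (c (a (nat_lit 0x2c1e0a0c001)) e
 (c (a (nat_lit 0x6060000001)) e e)))))))))))))))))))
 (c (a (nat_lit 0x20204041))
 (c z e
 (c z e
 (c z e
 (c z e
 (c z e
 (c (a (nat_lit 0xe102a220a1)) e
 (c (a (nat_lit 0x12221e14021))
 (c (a (nat_lit 0x1d7205e0a04028)) e
 (c (a (nat_lit 0x19927305e00003)) e
 (c (a (nat_lit 0x17e26000000004)) e e)))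
 (c (a (nat_lit 0xa080a095e2))
 (c z e
 (c (a (nat_lit 0xcc00000000001)) e e))
 (c (b (nat_lit 0x20295ff6e7)) e
 (c z e
 (c z e
 (c z e
 (c z e
 (c (a (nat_lit 0x11eb20606005)) e
 (c (a (nat_lit 0x16a08060a004)) e
 (c (a (nat_lit 0x8854301a001)) e
 (c (a (nat_lit 0x603a1400001)) e
 (c (a (nat_lit 0x22000000001)) e e))))))))))))))))))
 (c (a (nat_lit 0x20404021))
 (c (a (nat_lit 0xcae916b2167))
 (c (b (nat_lit 0x1fffe0c5dd9c64))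
 (c (a (nat_lit 0x153adcd646416586)) e
 (c (a (nat_lit 0x1bb002a10081e008)) e e))
 (c z e
 (c z e
 (c z e
 (c (a (nat_lit 0x106c3404630a9)) e e)))))
 (c z e
 (c z e
 (c (a (nat_lit 0x1e1a1812061)) e
 (c (a (nat_lit 0x12100e1a001)) e
 (c (a (nat_lit 0x4080c0fde2))
 (c (a (nat_lit 0x11b460e0402008)) e
 (c (a (nat_lit 0x19a702a0000004)) e e))
 (c (a (nat_lit 0x2aec33c7))
 (c (a (nat_lit 0x1ea7a000000001)) e e)
 (c (b (nat_lit 0x5ff6bd9a07)) e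
 (c z e
 (c z e
 (c z e
 (c z e
 (c (a (nat_lit 0x10c2a1820185)) e
 (c (a (nat_lit 0x1321c3034341)) e
 (c (a (nat_lit 0x1c2014001)) e
 (c (a (nat_lit 0x80000001)) e e))))))))))))))))
 (c (a (nat_lit 0x40404021))
 (c (a (nat_lit 0x1c7c7c7c5c44))
 (c (a (nat_lit 0x907e7f9d4e506)) e
 (c z e
 (c z e
 (c z e
 (c (a (nat_lit 0xc23304e2506e8)) e e)))))
 (c (a (nat_lit 0x1070b1004023)) e
 (c (a (nat_lit 0x242c2e30261)) e
 (c (a (nat_lit 0x2020405224)) e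
 (c (b (nat_lit 0x1fe0246611e6))
 (c (a (nat_lit 0x37e420600007)) e
 (c (a (nat_lit 0x18294000000003)) e e))
 (c (a (nat_lit 0x4470b8bb0c9)) e
 (c z e
 (c (a (nat_lit 0x1275da522929)) e
 (c z e
 (c z e
 (c z e
 (c (a (nat_lit 0x1836604054c7)) e
 (c (a (nat_lit 0x16404054a727)) e
 (c (a (nat_lit 0xc220e00001)) e
 (c (a (nat_lit 0x12000000001)) e e)))))))))))))))
 (c (a (nat_lit 0x20200001))
 (c (a (nat_lit 0x11b361012141))
 (c z e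
 (c (b (nat_lit 0xd3fe7575c6e07)) e e))
 (c (a (nat_lit 0x60c19d42))
 (c (b (nat_lit 0x8d5295a55fe7)) e e)
 (c (a (nat_lit 0xa0b0f598a6)) e
 (c z e
 (c z e
 (c z e
 (c (a (nat_lit 0x1ffadc34b6c8)) e
 (c z e
 (c z e
 (c z e
 (c (a (nat_lit 0x144b014433c8)) e
 (c (a (nat_lit 0x13a028356007)) e
 (c (a (nat_lit 0xc0e0000001)) e e)))))))))))))
 (c (a (nat_lit 0x20202021))
 (c (a (nat_lit 0x6262aa81905))
 (c (a (nat_lit 0x47ec64bccf05)) e e)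
 (c (a (nat_lit 0xa2e981f54a6)) e
 (c z e
 (c (a (nat_lit 0x119571cbc748)) e
 (c (a (nat_lit 0x1c95f62bca67)) e
 (c (a (nat_lit 0x107050a32d07)) e
 (c z e
 (c z e
 (c z e
 (c (a (nat_lit 0xf91acc04046)) e
 (c (a (nat_lit 0x118ca0200006)) e
 (c (a (nat_lit 0x190000000005)) e e))))))))))))
 (c (nat_lit 1)
 (c z e
 (c z e
 (c (a (nat_lit 0x162f2b006047)) e
 (c (a (nat_lit 0x1d6fb0c462a4)) e
 (c (a (nat_lit 0x48ccc0c7567)) e
 (c z e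
 (c z e
 (c z e
 (c (a (nat_lit 0x755a0602007)) e
 (c (a (nat_lit 0x1780a0000006)) e e))))))))))
 (c (a (nat_lit 0x40202021))
 (c (a (nat_lit 0x1e7549610105)) e
 (c (a (nat_lit 0x150060606065)) e
 (c (a (nat_lit 0x401d818f8c2)) e
 (c (a (nat_lit 0xa020205447)) e
 (c (a (nat_lit 0xe105169a87)) e
 (c z e
 (c z e
 (c (a (nat_lit 0xed563000007)) e e))))))))
 (c (a (nat_lit 0x20202021))
 (c (a (nat_lit 0x203c3a46521)) e
 (c (a (nat_lit 0x1626346a521)) e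
 (c (a (nat_lit 0x2020203368)) e
 (c (a (nat_lit 0x2020308f88)) e e))))
 (c (a (nat_lit 0x20204041))
 (c (a (nat_lit 0x121214038c4)) e
 (c (a (nat_lit 0x202022d848)) e
 (c (a (nat_lit 0x2022d3fce8)) e e)))
 (c (a (nat_lit 0x36a6))
 (c (a (nat_lit 0x202245f707)) e
 (c (a (nat_lit 0x3e66cb4efa9)) e e))
 (c (b (nat_lit 0x203e7fe4)) e
 (c z e
 (c z e
 (c (a (nat_lit 0x11d273c747)) e
 (c (a (nat_lit 0x1499202166)) e
 (c (a (nat_lit 0x808001)) e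
 (c (a (nat_lit 0x60802041)) e
 (c (a (nat_lit 0x40604081)) e
 (c (a (nat_lit 0x20a0c1)) e
 (c (a (nat_lit 0x40bbc2)) e
 (c (a (nat_lit 0x237765)) e e))))))))))))))))))))))) Tr.c Tr.e (nat_lit 0) C.cx C.cy
noncomputable def C504 : Tr := beta% (fun (c : Nat → Tr → Tr → Tr) (e : Tr) (z : Nat) (a b : Nat → Nat) =>
 (c (a (nat_lit 0x21))
 (c (a (nat_lit 0x1692b393f1a7))
 (c (a (nat_lit 0x1ace798d4cd905))
 (c (a (nat_lit 0x14f48ea5a5276806)) e e)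
 (c (a (nat_lit 0x611864041aea8)) e
 (c z e
 (c (a (nat_lit 0xcaf8c26247407)) e
 (c (a (nat_lit 0xead49804b52c6)) e
 (c z e
 (c (a (nat_lit 0x1537dd11e77ae7)) e
 (c (a (nat_lit 0x90deccb8dbac8)) e e))))))))
 (c (a (nat_lit 0x1377f813a987))
 (c (a (nat_lit 0x184a25009251c8))
 (c (a (nat_lit 0x671cf0727800007)) e e)
 (c z e
 (c z e
 (c z e
 (c z e
 (c (a (nat_lit 0x58a28c58d5769)) e
 (c (a (nat_lit 0x5f14c4f792529)) e e)))))))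
 (c z e
 (c (a (nat_lit 0x13cf6f4f4f24))
 (c (a (nat_lit 0x2e2e9eb3694e7)) e
 (c (a (nat_lit 0x2cbadb88defe8)) e
 (c z e
 (c z e
 (c (a (nat_lit 0x8b2cfc4600008)) e e)))))
 (c (a (nat_lit 0x1c0e18140a1))
 (c (a (nat_lit 0x9ac55c2b34327)) e
 (c z e
 (c (a (nat_lit 0x12418a61814008)) e
 (c (b (nat_lit 0x1ffa2080000007)) e e))))
 (c (a (nat_lit 0x60a1014001))
 (c (a (nat_lit 0x1bc82ca0602028)) e
 (c (a (nat_lit 0x98a0c0400007)) e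
 (c (a (nat_lit 0x1a808000000007)) e e)))
 (c (a (nat_lit 0x4040205ae4)) e
 (c (a (nat_lit 0x20329a3fe6)) e
 (c z e
 (c z e
 (c (a (nat_lit 0x2a7f112cd27)) e
 (c (a (nat_lit 0x10a0606a06c4)) e
 (c (a (nat_lit 0x1a9add7cdca6)) e
 (c (b (nat_lit 0x1ff581c1a001)) e
 (c (a (nat_lit 0x1561e0c10021)) e
 (c (a (nat_lit 0x44281200001)) e
 (c (a (nat_lit 0x18000000001)) e e)))))))))))))))))
 (c (nat_lit 1)
 (c (a (nat_lit 0x1c3454527265))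
 (c (a (nat_lit 0xd4735e9c2c45))
 (c (a (nat_lit 0x9110d0280000006)) e e)
 (c z e
 (c z e
 (c z e
 (c (a (nat_lit 0x8f0a7146f44a7)) e
 (c (a (nat_lit 0x18ca8d27dd986)) e
 (c (a (nat_lit 0x44fa6b204007)) e e)))))))
 (c z e
 (c (a (nat_lit 0x10160a001)) e
 (c (a (nat_lit 0x612140e081))
 (c z e
 (c z e
 (c (a (nat_lit 0x16789042a00007)) e
 (c (a (nat_lit 0x136fc000000004)) e e))))
 (c (a (nat_lit 0x4060407c84))
 (c (b (nat_lit 0x135fe600402007)) e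
 (c (a (nat_lit 0x893a100000004)) e
 (c (a (nat_lit 0x12800000000001)) e e)))
 (c (a (nat_lit 0x20359d9ec6))
 (c (a (nat_lit 0xe426000000001)) e e)
 (c (a (nat_lit 0x22b568f8e87)) e
 (c z e
 (c (a (nat_lit 0x1b78f8787248)) e
 (c (a (nat_lit 0x768af32ca48)) e
 (c (b (nat_lit 0x242bc1fffe6)) e
 (c (a (nat_lit 0xfdc8d8020e7)) e
 (c (a (nat_lit 0x176880210f27)) e
 (c (a (nat_lit 0xf3120312006)) e
 (c (a (nat_lit 0xc0000001)) e e)))))))))))))))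
 (c (a (nat_lit 0x20200001))
 (c (a (nat_lit 0xa0a0a021)) e
 (c (a (nat_lit 0x42281c1c1))
 (c (b (nat_lit 0x922831ff188a7)) e e)
 (c (a (nat_lit 0x2020203405)) e
 (c (a (nat_lit 0x20327994a6))
 (c (a (nat_lit 0x33af69400006)) e
 (c (a (nat_lit 0x912000000005)) e e))
 (c (a (nat_lit 0x19336d58ce7))
 (c (a (nat_lit 0x14800000000003)) e e)
 (c z e
 (c (a (nat_lit 0x1fdd3e9e7287)) e
 (c z e
 (c z e
 (c (b (nat_lit 0xab9777fffe6)) e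
 (c (a (nat_lit 0x1c7b6de02487)) e
 (c (a (nat_lit 0x114bc029c9a7)) e
 (c (a (nat_lit 0x102040400004)) e
 (c (a (nat_lit 0xc000000001)) e e))))))))))))))
 (c (nat_lit 1)
 (c (a (nat_lit 0x20205c43))
 (c (a (nat_lit 0xa0a1b3e58ba5)) e
 (c (a (nat_lit 0x48390a1a90266)) e e))
 (c (a (nat_lit 0x6868f3eb7e5))
 (c (a (nat_lit 0xad2650ef04d66)) e e)
 (c z e
 (c (a (nat_lit 0x1496f8d56be7)) e
 (c (a (nat_lit 0x1373528a0887)) e
 (c (a (nat_lit 0x17d6b6aacac7)) e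
 (c z e
 (c (a (nat_lit 0x202a8fd087)) e
 (c (a (nat_lit 0x74774f2e005)) e
 (c (a (nat_lit 0xc92502b4b27)) e
 (c (a (nat_lit 0x197040806005)) e
 (c (a (nat_lit 0x102040000005)) e e))))))))))))
 (c (a (nat_lit 0x20202021))
 (c (a (nat_lit 0xc509d555165))
 (c (a (nat_lit 0x4e4b31aa94005)) e e)
 (c z e
 (c (a (nat_lit 0x1ada93e0c0a6)) e
 (c (a (nat_lit 0x19109084a444)) e
 (c (a (nat_lit 0xbfafafc1be6)) e
 (c z e
 (c (a (nat_lit 0x404d53d2c7)) e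
 (c (b (nat_lit 0x58afd129fe5)) e
 (c (a (nat_lit 0xcb04eab2b27)) e
 (c (a (nat_lit 0x17cfa0600005)) e e))))))))))
 (c (a (nat_lit 0x20200001))
 (c (a (nat_lit 0x16b56a40e0e4)) e
 (c (a (nat_lit 0x1f4060604064)) e
 (c (a (nat_lit 0x10c12120e1e2)) e
 (c (a (nat_lit 0x122828001)) e
 (c (a (nat_lit 0x6080803126)) e
 (c (a (nat_lit 0x2d9637e7)) e
 (c (a (nat_lit 0xa4bd7175a66)) e e)))))))
 (c (a (nat_lit 0x2001))
 (c (a (nat_lit 0x418120c001)) e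
 (c (a (nat_lit 0x1c0e18361)) e
 (c (a (nat_lit 0xe343836041)) e
 (c (a (nat_lit 0x20203487)) e
 (c (a (nat_lit 0x202558d0a7)) e
 (c (a (nat_lit 0x1e1f32e4067)) e e))))))
 (c (nat_lit 1)
 (c (a (nat_lit 0x8898a032241)) e
 (c (a (nat_lit 0x1010100b163)) e
 (c (a (nat_lit 0x20202172c7)) e
 (c (a (nat_lit 0x1c1e316a507)) e e))))
 (c (a (nat_lit 0x2001))
 (c (a (nat_lit 0x808083ff05)) e
 (c (a (nat_lit 0xa8a8c6fbf67)) e e))
 (c (a (nat_lit 0x11e4))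
 (c z e
 (c (a (nat_lit 0x1081189a007)) e
 (c (a (nat_lit 0x191200000007)) e e)))
 (c (b (nat_lit 0x60821fe1))
 (c (a (nat_lit 0x1c0023600005)) e
 (c (a (nat_lit 0x2000000001)) e e))
 (c (a (nat_lit 0x97871f645)) e
 (c (a (nat_lit 0x1290f211e7)) e
 (c (a (nat_lit 0x13179806e5)) e
 (c (a (nat_lit 0x10a0202025)) e
 (c (a (nat_lit 0xa080a061)) e
 (c (a (nat_lit 0xe0a12121)) e
 (c (a (nat_lit 0xc1616061)) e
 (c (a (nat_lit 0xc0c04001)) e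
 (c (a (nat_lit 0x40403c84)) e
 (c (a (nat_lit 0x605cd664)) e e)))))))))))))))))))))) Tr.c Tr.e (nat_lit 0) C.cx C.cy
noncomputable def C505 : Tr := beta% (fun (c : Nat → Tr → Tr → Tr) (e : Tr) (z : Nat) (a b : Nat → Nat) =>
 (c (a (nat_lit 0xa0a0a0a0a1))
 (c (a (nat_lit 0x2626282828261))
 (c z e
 (c (a (nat_lit 0xf0f2f4f6f8f91e4))
 (c z e
 (c (a (nat_lit 0x8a84868c92a31dbe8)) e
 (c (a (nat_lit 0xa08eb0b8b0d116ea8)) e e)))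
 (c (a (nat_lit 0x828282848485e05)) e
 (c z e
 (c z e
 (c (a (nat_lit 0x6e6f5da940b1264)) e
 (c z e
 (c (a (nat_lit 0x22825020c36086)) e
 (c (a (nat_lit 0x573e323628080a5)) e e)))))))))
 (c (a (nat_lit 0x2e2e4e524c4c1))
 (c (a (nat_lit 0xbab8babababff66))
 (c (a (nat_lit 0x787472726260dd6a8)) e
 (c (a (nat_lit 0x5c686c505e8f275ca)) e
 (c (a (nat_lit 0xb6d0c6c2d3071e009)) e e)))
 (c (a (nat_lit 0x66666666670d188)) e
 (c (a (nat_lit 0x868686a0cefb228)) e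
 (c z e
 (c z e
 (c (a (nat_lit 0x24643702244e5c7)) e
 (c (a (nat_lit 0x824b662c6c1e287)) e
 (c (a (nat_lit 0x17d5c42320808066)) e
 (c (a (nat_lit 0x1be7c64140c00005)) e e)))))))))
 (c (a (nat_lit 0x4080a0607bc2))
 (c (a (nat_lit 0x8a8aa2b92d355e7))
 (c (a (nat_lit 0xbca8dad9418476008)) e e)
 (c z e
 (c z e
 (c z e
 (c z e
 (c z e
 (c (a (nat_lit 0x102e01804060c006)) e
 (c (a (nat_lit 0x15e26060a0000005)) e e))))))))
 (c (a (nat_lit 0x2020207fe002))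
 (c (a (nat_lit 0x7482eefde8fd1e6)) e
 (c (a (nat_lit 0xc0dcedbcd380fe7)) e
 (c z e
 (c (a (nat_lit 0xc91496bed47ce87)) e
 (c (a (nat_lit 0x1002c6c52587a5c8)) e e)))))
 (c (b (nat_lit 0x202033a3bfe4))
 (c z e
 (c z e
 (c (a (nat_lit 0x196f6ad463733be6)) e
 (c (a (nat_lit 0x1297d6541c120006)) e e))))
 (c (a (nat_lit 0x38cd78d030324))
 (c z e
 (c z e
 (c z e
 (c (a (nat_lit 0x18100a2000000005)) e e))))
 (c (a (nat_lit 0xe70b08c6c8cc4)) e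
 (c (a (nat_lit 0x13f0684868a883)) e
 (c (a (nat_lit 0x124060a0c10202)) e
 (c (a (nat_lit 0x18228298b61)) e
 (c z e
 (c (a (nat_lit 0x9a969aa0a3583)) e
 (c (a (nat_lit 0xc0c8ced5927e3)) e
 (c (a (nat_lit 0x5c6064c1da444)) e
 (c (a (nat_lit 0x3e3e6d6e60005)) e e)))))))))))))))
 (c (a (nat_lit 0x6060808081))
 (c (a (nat_lit 0x2020203324))
 (c (a (nat_lit 0x868686867719527))
 (c (a (nat_lit 0x8882847468bb7da28)) e e)
 (c (a (nat_lit 0x7a7a989edd1d7c9)) e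
 (c z e
 (c z e
 (c z e
 (c (a (nat_lit 0x40455e3c2040208)) e
 (c (a (nat_lit 0x2f044c3c08100e8)) e
 (c (a (nat_lit 0x13a4008020202008)) e
 (c (a (nat_lit 0x1e63e080a0000005)) e e)))))))))
 (c (b (nat_lit 0x4060405ff905))
 (c z e
 (c z e
 (c z e
 (c z e
 (c z e
 (c z e
 (c (a (nat_lit 0x1bc5066806600007)) e e)))))))
 (c (a (nat_lit 0xd6d7195968f26))
 (c z e
 (c z e
 (c z e
 (c z e
 (c z e
 (c (a (nat_lit 0x16f3100d60000008)) e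
 (c (a (nat_lit 0x1746200000000007)) e e)))))))
 (c z e
 (c z e
 (c (a (nat_lit 0x8d609462b4b45))
 (c (a (nat_lit 0x108ce88ac7000007)) e e)
 (c (a (nat_lit 0x144e8eceaeaea6)) e
 (c (a (nat_lit 0x7234362a4a561)) e
 (c (a (nat_lit 0x2e463aacc6c41)) e
 (c (a (nat_lit 0x808080a0d6c4)) e
 (c (a (nat_lit 0x1e1e1e2083d06)) e
 (c (a (nat_lit 0x2424268d18626)) e e))))))))))))
 (c (a (nat_lit 0x2020203306))
 (c (b (nat_lit 0x80809ff045a6))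
 (c z e
 (c z e
 (c z e
 (c z e
 (c z e
 (c z e
 (c (a (nat_lit 0x157aefabc0000007)) e
 (c (a (nat_lit 0x1324000000000007)) e e))))))))
 (c z e
 (c z e
 (c z e
 (c z e
 (c z e
 (c (a (nat_lit 0x14004040406025)) e
 (c (a (nat_lit 0x404040c0d4c5)) e
 (c (a (nat_lit 0x20202035a7)) e
 (c (a (nat_lit 0x2020b20827)) e e))))))))))
 (c (a (nat_lit 0x202039eba6))
 (c (a (nat_lit 0x11a793d209c2e5))
 (c (a (nat_lit 0xa1f161af96f4846)) e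
 (c (a (nat_lit 0x100ed12ae8e78a09)) e
 (c z e
 (c (a (nat_lit 0xd922aec31278008)) e
 (c (a (nat_lit 0x15f3d1eda0000007)) e e)))))
 (c (b (nat_lit 0xf7290f0389fe6))
 (c (a (nat_lit 0x1b9e72af94b31028)) e e)
 (c z e
 (c (a (nat_lit 0x13d3f655258026)) e
 (c (a (nat_lit 0x1415f3f4ae42a6)) e
 (c (a (nat_lit 0x1b78383a1e63c5)) e
 (c (a (nat_lit 0x2040416b1026)) e
 (c (a (nat_lit 0x14161613a0246)) e
 (c z e
 (c z e
 (c (b (nat_lit 0x1ff36b90800006)) e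
 (c (a (nat_lit 0x18852000000006)) e e))))))))))))
 (c (a (nat_lit 0x1415904a666))
 (c (b (nat_lit 0xae90597fffe5))
 (c (a (nat_lit 0x10ececfd2b57e025)) e e)
 (c z e
 (c z e
 (c (a (nat_lit 0xb8549e1928ea7)) e
 (c (a (nat_lit 0x4082912d4cc27)) e
 (c (a (nat_lit 0xe0e9f1294047)) e
 (c (a (nat_lit 0x4b5d73f294b46)) e
 (c z e
 (c (a (nat_lit 0x13aff5112b0007)) e
 (c (a (nat_lit 0x1746bb40000006)) e e))))))))))
 (c (a (nat_lit 0x8f80f73f565))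
 (c z e
 (c z e
 (c z e
 (c (a (nat_lit 0x10445d0a70047)) e
 (c (a (nat_lit 0x50515efc0e047)) e e)))))
 (c (a (nat_lit 0x18f376768545))
 (c (a (nat_lit 0xcd7ef22a775e5)) e
 (c (a (nat_lit 0x138f2705f64a26)) e
 (c z e
 (c z e
 (c (a (nat_lit 0x6f32b2b103007)) e
 (c (a (nat_lit 0xf6c4f92482007)) e e))))))
 (c (a (nat_lit 0xf9313c2a2a5))
 (c (a (nat_lit 0x11aaaa788ca725)) e
 (c z e
 (c (a (nat_lit 0x10d984224511c6)) e
 (c (a (nat_lit 0xa8590e1e86027)) e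
 (c (a (nat_lit 0x3fdabe8600007)) e e)))))
 (c (a (nat_lit 0x106060606065))
 (c (a (nat_lit 0x109250a120c0a5)) e
 (c (a (nat_lit 0x1ad66060a080a6)) e
 (c (a (nat_lit 0x19e3c080604006)) e
 (c (a (nat_lit 0x1164e060000006)) e e))))
 (c (a (nat_lit 0x28282a8e901))
 (c (a (nat_lit 0x224249a90381)) e
 (c (a (nat_lit 0x1bc0c202e00003)) e
 (c (a (nat_lit 0x10614000000004)) e e)))
 (c (a (nat_lit 0x20418200e1)) e
 (c (a (nat_lit 0x8161a08061)) e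
 (c (a (nat_lit 0x4040205ca4)) e
 (c (a (nat_lit 0x202e5c9765)) e
 (c (a (nat_lit 0x404106b48a5)) e
 (c (a (nat_lit 0x131796b57566)) e
 (c (a (nat_lit 0x15120c8caca4)) e
 (c (a (nat_lit 0x15a06080a0a2)) e
 (c (a (nat_lit 0x60a0c261)) e
 (c (a (nat_lit 0x4040a001)) e
 (c (a (nat_lit 0x40000001)) e e)))))))))))))))))))))) Tr.c Tr.e (nat_lit 0) C.cx C.cy
noncomputable def C506 : Tr := beta% (fun (c : Nat → Tr → Tr → Tr) (e : Tr) (z : Nat) (a b : Nat → Nat) =>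
 (c (nat_lit 1)
 (c (nat_lit 1) C505
 (c (nat_lit 1)
 (c (a (nat_lit 0x2020203b86))
 (c (b (nat_lit 0x2020205ff084))
 (c (a (nat_lit 0x7e7e8878a519e27))
 (c (a (nat_lit 0x5c625a4a6cdce9348)) e e)
 (c z e
 (c z e
 (c z e
 (c (a (nat_lit 0x11ccff110fb7ac08)) e
 (c (a (nat_lit 0x57245c32300c028)) e
 (c (a (nat_lit 0x1a296600c10080a7)) e
 (c (a (nat_lit 0x1a63c3c180e00006)) e e))))))))
 (c (b (nat_lit 0x56567fff2cda7))
 (c z e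
 (c z e
 (c z e
 (c z e
 (c z e
 (c z e
 (c (a (nat_lit 0xc4930ab40000009)) e
 (c (a (nat_lit 0x1190400000000008)) e e))))))))
 (c z e
 (c z e
 (c (a (nat_lit 0xdd18e0c2b2628))
 (c z e
 (c (a (nat_lit 0x13ecc88269400009)) e e))
 (c (a (nat_lit 0x18cef00fefe326))
 (c (a (nat_lit 0x1ffab07340000006)) e e)
 (c (a (nat_lit 0x1614f4d4b4a365)) e
 (c (a (nat_lit 0x8060808077c5)) e
 (c (a (nat_lit 0x406060607ea5)) e
 (c (a (nat_lit 0x20202020f9e6)) e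
 (c (b (nat_lit 0x2020705fe7)) e
 (c (a (nat_lit 0xb4c4d99374027)) e e))))))))))))
 (c (a (nat_lit 0x3ef287))
 (c z e
 (c z e
 (c z e
 (c z e
 (c z e
 (c z e
 (c (b (nat_lit 0xc4c6c703fe326)) e
 (c (b (nat_lit 0x3a3a3a77ff086)) e
 (c (a (nat_lit 0x202022527867)) e e)))))))))
 (c (a (nat_lit 0x181990d6e48))
 (c z e
 (c z e
 (c z e
 (c z e
 (c z e
 (c (a (nat_lit 0xe4e4f990bc007)) e
 (c (a (nat_lit 0x585aa50ab4027)) e
 (c (a (nat_lit 0x7676ab14f10a8)) e e))))))))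
 (c z e
 (c (a (nat_lit 0x11ad8ecb02a8))
 (c (a (nat_lit 0x1110ac8188fbc8)) e
 (c (b (nat_lit 0x1d667fe2f54ec8)) e
 (c z e
 (c z e
 (c z e
 (c z e
 (c (a (nat_lit 0x10e61ad0064009)) e e)))))))
 (c (a (nat_lit 0xdaf11206107))
 (c (a (nat_lit 0x1a16f6ecaa6b86)) e
 (c z e
 (c z e
 (c z e
 (c (a (nat_lit 0xf4b96552d68c8)) e
 (c (a (nat_lit 0x41148c2600009)) e e))))))
 (c (a (nat_lit 0x1432aa4a4a47))
 (c z e
 (c z e
 (c z e
 (c (b (nat_lit 0x89ff59804a007)) e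
 (c (a (nat_lit 0x1aed4960000008)) e e)))))
 (c (a (nat_lit 0x222c2c16101))
 (c (a (nat_lit 0x43fd18080c7)) e
 (c (b (nat_lit 0x1ff7a12060a027)) e
 (c (a (nat_lit 0x1f4100a0a00007)) e
 (c (a (nat_lit 0x1c222000000003)) e e))))
 (c (a (nat_lit 0x4081a20141))
 (c z e
 (c z e
 (c (a (nat_lit 0x7a00000000001)) e e)))
 (c (a (nat_lit 0xc100c061)) e
 (c (a (nat_lit 0x20202057a5)) e
 (c (a (nat_lit 0x202037fca5)) e
 (c z e
 (c z e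
 (c (a (nat_lit 0x11d7f3321347)) e
 (c (a (nat_lit 0x13ca480aaaa6)) e
 (c (a (nat_lit 0x3c180a001)) e
 (c (a (nat_lit 0x3a1c0c06001)) e
 (c (a (nat_lit 0x28240800001)) e
 (c (a (nat_lit 0x1c000000001)) e e))))))))))))))))))))
 (c (a (nat_lit 0x20202021))
 (c (a (nat_lit 0x20361071e6))
 (c z e
 (c z e
 (c z e
 (c z e
 (c z e
 (c z e
 (c (a (nat_lit 0x17575b34dc85c6)) e
 (c (a (nat_lit 0x7c7cb8f170006)) e
 (c (a (nat_lit 0x10f2321a7bae87)) e e)))))))))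
 (c (a (nat_lit 0x35ef50d0a7)) e
 (c z e
 (c z e
 (c z e
 (c z e
 (c (a (nat_lit 0xe121816001))
 (c (b (nat_lit 0x95ffa01804047)) e
 (c (a (nat_lit 0x332300a06006)) e
 (c (a (nat_lit 0x14a5a120000005)) e e)))
 (c (a (nat_lit 0x12180a001)) e
 (c (a (nat_lit 0x4040205bc4)) e
 (c (a (nat_lit 0x202eb25f27)) e
 (c z e
 (c z e
 (c z e
 (c z e
 (c (a (nat_lit 0x17d082c2e245)) e
 (c (a (nat_lit 0x1c6020202004)) e
 (c (a (nat_lit 0x14160a04001)) e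
 (c (a (nat_lit 0x16060000001)) e e))))))))))))))))))
 C504)))
 (c (a (nat_lit 0x202021)) C503
 (c (a (nat_lit 0x202021)) C502
 (c (a (nat_lit 0x202021))
 (c (a (nat_lit 0x40404041))
 (c (a (nat_lit 0x92080927222))
 (c (a (nat_lit 0x76767f0d0d0c3))
 (c z e
 (c (a (nat_lit 0x1c43040480000004)) e
 (c (a (nat_lit 0x1087a00000000002)) e e)))
 (c (a (nat_lit 0x20428273c5))
 (c (a (nat_lit 0x1022804000000005)) e e)
 (c (a (nat_lit 0x2020210c9f47)) e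
 (c (a (nat_lit 0x202037471bc5)) e
 (c (a (nat_lit 0x422de2433a86)) e
 (c (b (nat_lit 0x6ec70dff40f87)) e
 (c (a (nat_lit 0x10203051372c87)) e
 (c (a (nat_lit 0x1e71c6b400007)) e e))))))))
 (c (a (nat_lit 0x120c140c0c1))
 (c (a (nat_lit 0x20202033cc27))
 (c (a (nat_lit 0x1b24400000000004)) e e)
 (c (a (nat_lit 0x2020b0355ce8)) e
 (c (a (nat_lit 0x2be8f35068)) e
 (c z e
 (c z e
 (c (a (nat_lit 0x129772f094009)) e
 (c (a (nat_lit 0x83344c0000009)) e e)))))))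
 (c (a (nat_lit 0x6060e001))
 (c (a (nat_lit 0x2126b4bda027)) e e)
 (c (a (nat_lit 0x1e1e1c16521))
 (c (b (nat_lit 0x88d7b3fe2e787)) e
 (c (a (nat_lit 0x11f1ab0546a028)) e e))
 (c (a (nat_lit 0x222556a5))
 (c (b (nat_lit 0x1a1fe74e2027e6)) e e)
 (c (a (nat_lit 0xbcdee38b286))
 (c (a (nat_lit 0xd144e60000005)) e e)
 (c (a (nat_lit 0x13b3d6128de7)) e
 (c (a (nat_lit 0xad01b58b507)) e
 (c z e
 (c z e
 (c (a (nat_lit 0x177a75d3a187)) e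
 (c (a (nat_lit 0x1300402c6bc5)) e
 (c (a (nat_lit 0x101436202a1)) e
 (c (a (nat_lit 0x1010221c001)) e
 (c (a (nat_lit 0x60000001)) e e)))))))))))))))
 (c (a (nat_lit 0x20404041))
 (c (a (nat_lit 0x12181612081))
 (c (a (nat_lit 0x20202742d247)) e
 (c (a (nat_lit 0x24486d165c1a8)) e
 (c (a (nat_lit 0x70978b4412048)) e
 (c z e
 (c z e
 (c (a (nat_lit 0x69cace7200008)) e
 (c (a (nat_lit 0x1882c000000008)) e e)))))))
 (c (a (nat_lit 0x2161610501)) e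
 (c (a (nat_lit 0x2024a07945)) e
 (c (a (nat_lit 0x1313b7b1e9e8)) e
 (c z e
 (c (a (nat_lit 0x42427c61469)) e
 (c (a (nat_lit 0x3a68c1929c9)) e
 (c z e
 (c z e
 (c (a (nat_lit 0x1a30494442c9)) e
 (c (a (nat_lit 0x1560205324c7)) e
 (c (a (nat_lit 0x543a2222001)) e
 (c (a (nat_lit 0x40201600001)) e
 (c (a (nat_lit 0xe000000001)) e e))))))))))))))
 (c (a (nat_lit 0x40402021))
 (c (a (nat_lit 0x203cfd3ec5)) e
 (c z e
 (c z e
 (c z e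
 (c z e
 (c z e
 (c z e
 (c z e
 (c z e
 (c (a (nat_lit 0x17802053d047)) e
 (c (a (nat_lit 0x1251d1a04004)) e
 (c (a (nat_lit 0x38140000001)) e e))))))))))))
 (c (a (nat_lit 0x21))
 (c (a (nat_lit 0x6240a46d166))
 (c (a (nat_lit 0x12d3f6ede8905)) e
 (c (a (nat_lit 0x511038600006)) e e))
 (c (a (nat_lit 0x66b8811cd67))
 (c (a (nat_lit 0x2b73160000006)) e e)
 (c z e
 (c z e
 (c (a (nat_lit 0x102ef2098a87)) e
 (c z e
 (c z e
 (c (a (nat_lit 0x1a3754098568)) e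
 (c (a (nat_lit 0x1f0c626faac6)) e
 (c (a (nat_lit 0x1ca0a0400004)) e
 (c (a (nat_lit 0x32000000001)) e e)))))))))))
 (c (a (nat_lit 0x40404041))
 (c (a (nat_lit 0x12ebde980da5))
 (c (a (nat_lit 0x1447a000000005)) e e)
 (c z e
 (c (b (nat_lit 0xb7fea025247)) e
 (c (a (nat_lit 0x1e2c5d86e87)) e
 (c z e
 (c z e
 (c (a (nat_lit 0x1a3894c024c8)) e
 (c (a (nat_lit 0x1daf006f8006)) e
 (c (a (nat_lit 0x1a0000001)) e e)))))))))
 (c (a (nat_lit 0x20202021))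
 (c (a (nat_lit 0x11d2f360e003)) e
 (c (a (nat_lit 0x2020403007)) e
 (c (a (nat_lit 0x2041b02728)) e
 (c z e
 (c z e
 (c (a (nat_lit 0x12922be76c69)) e
 (c (a (nat_lit 0x1d83a0400006)) e
 (c (a (nat_lit 0x2000000001)) e e))))))))
 (c (a (nat_lit 0x16e7))
 (c (a (nat_lit 0x2020203507)) e
 (c (a (nat_lit 0x2028322fc8)) e
 (c z e
 (c z e
 (c (a (nat_lit 0x156a01a2a007)) e
 (c (a (nat_lit 0x1be2c0000002)) e e))))))
 (c (a (nat_lit 0x20374767))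
 (c (a (nat_lit 0x204fdb3207)) e
 (c z e
 (c z e
 (c (a (nat_lit 0x6f3ce000007)) e e))))
 (c (a (nat_lit 0x1015b3f108)) e
 (c z e
 (c (a (nat_lit 0xc78a06023)) e
 (c (a (nat_lit 0x1574a02026)) e
 (c (a (nat_lit 0x11a0404002)) e
 (c (a (nat_lit 0xe0604001)) e
 (c (a (nat_lit 0x100808081)) e
 (c (a (nat_lit 0x40408001)) e
 (c (a (nat_lit 0x60606401)) e
 (c (a (nat_lit 0x20207385)) e
 (c z e
 (c (b (nat_lit 0x1ffe8e6e04)) e
 (c (a (nat_lit 0x10c0400004)) e e)))))))))))))))))))))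
 C501))))) Tr.c Tr.e (nat_lit 0) C.cx C.cy
noncomputable def C507 : Tr := beta% (fun (c : Nat → Tr → Tr → Tr) (e : Tr) (z : Nat) (a b : Nat → Nat) =>
 (c (nat_lit 1)
 (c (nat_lit 1)
 (c (a (nat_lit 0x100a0e0c081)) e
 (c (a (nat_lit 0x2020203266)) e
 (c (a (nat_lit 0x20203376e6)) e
 (c (a (nat_lit 0x607133e407)) e
 (c (a (nat_lit 0x72c34304808)) e
 (c (a (nat_lit 0x12148ac04468)) e
 (c (a (nat_lit 0x1873cbad4447)) e
 (c (a (nat_lit 0x15a90ea7c045)) e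
 (c (a (nat_lit 0x59ac0a00003)) e
 (c (a (nat_lit 0x1a6000000003)) e e))))))))))
 (c (a (nat_lit 0x40404041))
 (c (a (nat_lit 0x20202453a7)) e
 (c (a (nat_lit 0x4e4eddd7f27)) e
 (c z e
 (c (a (nat_lit 0xb5f7c2d6ac8)) e
 (c (a (nat_lit 0x190c70ca0b28)) e
 (c (a (nat_lit 0x10712c034188)) e
 (c (a (nat_lit 0x11c384204006)) e
 (c (a (nat_lit 0x1bae60000004)) e e))))))))
 (c (a (nat_lit 0x3445))
 (c z e
 (c z e
 (c z e
 (c z e
 (c z e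
 (c (a (nat_lit 0x1e244cc00005)) e
 (c (a (nat_lit 0x24000000001)) e e)))))))
 (c (a (nat_lit 0x2bd06365)) e
 (c (a (nat_lit 0x11f6d2cf67))
 (c z e
 (c (a (nat_lit 0xc30d3190189)) e e))
 (c (a (nat_lit 0x1a7200e0c5))
 (c (a (nat_lit 0x7f0b0820009)) e e)
 (c (a (nat_lit 0x10b8989886)) e
 (c (a (nat_lit 0x162e2a001)) e
 (c (a (nat_lit 0x8120c001)) e
 (c (a (nat_lit 0x1a7a402003)) e
 (c (a (nat_lit 0x60606241)) e
 (c (a (nat_lit 0xfb6102e04)) e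
 (c z e
 (c (a (nat_lit 0x1efadefe63)) e
 (c (a (nat_lit 0x1604001)) e
 (c (a (nat_lit 0x100404001)) e
 (c (a (nat_lit 0x60600001)) e e)))))))))))))))))
 (c (nat_lit 1)
 (c (a (nat_lit 0x203384))
 (c (a (nat_lit 0x20399365)) e
 (c (a (nat_lit 0x484b0d21447)) e
 (c z e
 (c (a (nat_lit 0x1556cb440267)) e
 (c (a (nat_lit 0x46ea726d228)) e
 (c (a (nat_lit 0x11ae07443267)) e
 (c (a (nat_lit 0xa7181200005)) e
 (c (a (nat_lit 0x1c6000000003)) e e))))))))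
 (c (a (nat_lit 0xeceda1266)) e
 (c z e
 (c (a (nat_lit 0x148f202025))
 (c z e
 (c (a (nat_lit 0x9de12a1e009)) e e))
 (c (a (nat_lit 0x135bdbbba5))
 (c (a (nat_lit 0x11af62000009)) e e)
 (c (a (nat_lit 0x15b5b5b5a6)) e
 (c (a (nat_lit 0x14100e001)) e
 (c (a (nat_lit 0x1c7c602023)) e
 (c (a (nat_lit 0x40407722)) e
 (c (a (nat_lit 0x16b9bc3225)) e
 (c z e
 (c (a (nat_lit 0x1fdd7d7d45)) e
 (c (a (nat_lit 0x382822001)) e
 (c (a (nat_lit 0x201408001)) e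
 (c (a (nat_lit 0x120604001)) e
 (c (a (nat_lit 0x40000001)) e e))))))))))))))))
 (c (nat_lit 1)
 (c (a (nat_lit 0xeb5304ec6))
 (c (a (nat_lit 0xcd3b6d68ce6)) e
 (c (a (nat_lit 0xbd13165a1c8)) e e))
 (c (a (nat_lit 0x1da4e0c084))
 (c (a (nat_lit 0x157c13002027)) e
 (c (a (nat_lit 0x1151e8002228)) e e))
 (c z
 (c (a (nat_lit 0x1481c0822027)) e e)
 (c (a (nat_lit 0x1fffffffa4))
 (c (a (nat_lit 0x1b2120000008)) e e)
 (c (a (nat_lit 0x2c2a28101)) e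
 (c (a (nat_lit 0x1ddd606042)) e
 (c (a (nat_lit 0x140e14001)) e
 (c (a (nat_lit 0x14d8d87505)) e
 (c z e
 (c (a (nat_lit 0x19f5955504)) e
 (c (a (nat_lit 0x482416201)) e
 (c (a (nat_lit 0x160e1c1c1)) e
 (c (a (nat_lit 0x608061)) e
 (c (nat_lit 1) e e))))))))))))))
 (c (nat_lit 1)
 (c (a (nat_lit 0xa08001))
 (c (a (nat_lit 0x1309c0402025)) e
 (c (a (nat_lit 0x1ca204014025)) e
 (c (a (nat_lit 0x1bf340600007)) e e)))
 (c (a (nat_lit 0xc1010001))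
 (c (a (nat_lit 0x570c8812002)) e
 (c (a (nat_lit 0x132040000008)) e e))
 (c (a (nat_lit 0xdad6e6001))
 (c (a (nat_lit 0x9e000000001)) e e)
 (c (a (nat_lit 0x1d3c806042)) e
 (c (a (nat_lit 0x40403043)) e
 (c (a (nat_lit 0x99616b6a6)) e
 (c z e
 (c (a (nat_lit 0x1d1d588305)) e
 (c (a (nat_lit 0x1340802003)) e
 (c (a (nat_lit 0xc0c08061)) e
 (c (a (nat_lit 0x120408081)) e
 (c (a (nat_lit 0x40606001)) e
 (c (nat_lit 1) e e)))))))))))))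
 (c (nat_lit 1)
 (c (a (nat_lit 0x20a06001))
 (c (a (nat_lit 0xa481800001)) e
 (c (a (nat_lit 0x14000000001)) e e))
 (c (a (nat_lit 0x24234141)) e
 (c (a (nat_lit 0x20203364)) e
 (c (a (nat_lit 0x2df06f67)) e
 (c z e
 (c (a (nat_lit 0x1f3b9ee425)) e
 (c (a (nat_lit 0xa3817e063)) e
 (c (a (nat_lit 0x604021)) e
 (c (a (nat_lit 0x40408001)) e
 (c (a (nat_lit 0x80a04001)) e
 (c (a (nat_lit 0x60200001)) e e)))))))))))
 (c (nat_lit 1)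
 (c (a (nat_lit 0x40405323)) e
 (c z e
 (c z e
 (c (a (nat_lit 0x1655765627)) e
 (c (a (nat_lit 0x1e1fbfb186)) e
 (c (a (nat_lit 0x178061c262)) e
 (c (a (nat_lit 0x41436221)) e
 (c (a (nat_lit 0x40c2c2a1)) e
 (c (a (nat_lit 0x602001)) e
 (c (nat_lit 1) e e))))))))))
 (c (a (nat_lit 0x202021))
 (c z e
 (c (b (nat_lit 0x1fffe5a6a1)) e
 (c (a (nat_lit 0x453336023)) e
 (c (a (nat_lit 0x20212001)) e
 (c (a (nat_lit 0x40a06361)) e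
 (c (a (nat_lit 0x4080c1)) e
 (c (a (nat_lit 0x406061)) e
 (c (a (nat_lit 0x80400001)) e e))))))))
 (c (a (nat_lit 0x202021))
 (c (a (nat_lit 0xc50102024)) e
 (c (a (nat_lit 0xa4061c241)) e
 (c (a (nat_lit 0x410221)) e
 (c (a (nat_lit 0x2120e1)) e
 (c (a (nat_lit 0x404061)) e
 (c (a (nat_lit 0x806001)) e
 (c (a (nat_lit 0x60000001)) e e)))))))
 (c (a (nat_lit 0x202021))
 (c (a (nat_lit 0x20202021)) e
 (c (a (nat_lit 0x20202021)) e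
 (c (a (nat_lit 0x20202021)) e
 (c (a (nat_lit 0x20202021)) e
 (c (a (nat_lit 0x20200001)) e e)))))
 (c (a (nat_lit 0x202021))
 (c (a (nat_lit 0x20202021)) e
 (c (a (nat_lit 0x20202021)) e
 (c (a (nat_lit 0x20202001)) e
 (c (a (nat_lit 0x20000001)) e e))))
 (c (a (nat_lit 0x202021))
 (c (a (nat_lit 0x20202021)) e
 (c (a (nat_lit 0x20200001)) e e))
 (c (a (nat_lit 0x202021))
 (c (a (nat_lit 0x20000001)) e e)
 (c (a (nat_lit 0x202021)) e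
 (c (a (nat_lit 0x202021)) e
 (c (a (nat_lit 0x202021)) e
 (c (a (nat_lit 0x202021)) e
 (c (a (nat_lit 0x202001)) e
 (c (a (nat_lit 0x202001)) e
 (c (a (nat_lit 0x203805)) e
 (c z e
 (c (a (nat_lit 0x180f8005)) e
 (c (a (nat_lit 0x1f002024)) e
 (c (a (nat_lit 0x200021)) e
 (c (a (nat_lit 0x2021)) e
 (c (a (nat_lit 0x200001)) e e)))))))))))))))))))))))))) Tr.c Tr.e (nat_lit 0) C.cx C.cy
noncomputable def C508 : Tr := beta% (fun (c : Nat → Tr → Tr → Tr) (e : Tr) (z : Nat) (a b : Nat → Nat) =>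
 (c (nat_lit 1)
 (c (a (nat_lit 0x200001))
 (c (a (nat_lit 0x61616161a1))
 (c (a (nat_lit 0x9c9c986f04063)) e
 (c (b (nat_lit 0x346729bf77fe7)) e
 (c z e
 (c z e
 (c (a (nat_lit 0xac077ec614026)) e
 (c (a (nat_lit 0xc182760600004)) e
 (c (a (nat_lit 0x12032000000005)) e e)))))))
 (c (a (nat_lit 0x66cd8db246)) e
 (c z e
 (c (a (nat_lit 0x20f1686866)) e
 (c (b (nat_lit 0x1ff260606085)) e
 (c (a (nat_lit 0x1460404059a5)) e
 (c (a (nat_lit 0x31997fc7)) e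
 (c z e
 (c z e
 (c (a (nat_lit 0x116e0dcd00e8)) e
 (c (a (nat_lit 0x1549e0b29243)) e
 (c (a (nat_lit 0x121410001)) e
 (c (a (nat_lit 0x12160800001)) e
 (c (a (nat_lit 0xa000000001)) e e))))))))))))))
 (c (a (nat_lit 0x20202021))
 (c z e
 (c z e
 (c (a (nat_lit 0x9eed5b59586))
 (c (a (nat_lit 0x27988b000006)) e e)
 (c (a (nat_lit 0x1f69c9c42ac5)) e
 (c z e
 (c z e
 (c z e
 (c z e
 (c z e
 (c (a (nat_lit 0x1608c8da9a87)) e
 (c (a (nat_lit 0x182212001)) e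
 (c (a (nat_lit 0xe1c0000001)) e e))))))))))))
 (c (nat_lit 1)
 (c (b (nat_lit 0x1ff5a0602044))
 (c (a (nat_lit 0xa5f82ec520e1)) e
 (c (a (nat_lit 0x106eebc6c00006)) e e))
 (c (a (nat_lit 0x1146a6a02ca6))
 (c (a (nat_lit 0x1e49c5e0000006)) e e)
 (c z e
 (c z e
 (c z e
 (c z e
 (c z e
 (c z e
 (c (a (nat_lit 0x12a30146c007)) e
 (c (a (nat_lit 0x3adac00003)) e
 (c (a (nat_lit 0x2000000001)) e e)))))))))))
 (c (a (nat_lit 0x2001))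
 (c (a (nat_lit 0xa4a20963fe4))
 (c (a (nat_lit 0xb42000000002)) e e)
 (c z e
 (c z e
 (c z e
 (c z e
 (c z e
 (c (a (nat_lit 0x137432604088)) e
 (c (a (nat_lit 0x1cae47804005)) e
 (c (a (nat_lit 0x1ea0c0000003)) e e)))))))))
 (c (a (nat_lit 0x40404061))
 (c (a (nat_lit 0x74e75d7afc5)) e
 (c (b (nat_lit 0xc5ff0a085a6)) e
 (c (b (nat_lit 0x1fe1e85ab307)) e
 (c z e
 (c z e
 (c (a (nat_lit 0x107412a02708)) e
 (c (b (nat_lit 0x1ffaa3400001)) e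
 (c (a (nat_lit 0x178000000006)) e e))))))))
 (c (a (nat_lit 0x201787))
 (c (a (nat_lit 0x262221d701)) e
 (c (a (nat_lit 0xc04867f468)) e
 (c z e
 (c z e
 (c (b (nat_lit 0x1ff520638007)) e
 (c (a (nat_lit 0x1a25c0000007)) e e))))))
 (c (a (nat_lit 0x2037cb67))
 (c (a (nat_lit 0x18190b65807)) e e)
 (c (a (nat_lit 0x10399995a8)) e
 (c z e
 (c (a (nat_lit 0x13aec02025)) e
 (c (a (nat_lit 0x1f5a402026)) e
 (c (a (nat_lit 0x2402060a1)) e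
 (c (a (nat_lit 0x6080a1)) e
 (c (a (nat_lit 0x204041)) e
 (c (a (nat_lit 0x2060a1)) e
 (c (a (nat_lit 0x203006)) e
 (c z e
 (c (b (nat_lit 0x1ff0802025)) e
 (c (a (nat_lit 0x1f00202024)) e
 (c (a (nat_lit 0x200001)) e e))))))))))))))))))))
 (c (a (nat_lit 0x202021))
 (c (nat_lit 1)
 (c (a (nat_lit 0x1cfd32713125))
 (c z e
 (c (b (nat_lit 0x1ffff2080623c6)) e
 (c (b (nat_lit 0x1ff04708820006)) e e)))
 (c (a (nat_lit 0x1b43c0402025))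
 (c (a (nat_lit 0x13a0e644a18063)) e
 (c (a (nat_lit 0x1ea13c5400005)) e e))
 (c (a (nat_lit 0x1129e9c02004))
 (c (a (nat_lit 0x18792a40000003)) e e)
 (c (a (nat_lit 0x52520607805)) e
 (c (a (nat_lit 0x2023e99787)) e
 (c z e
 (c z e
 (c z e
 (c z e
 (c (a (nat_lit 0x182c2a12081)) e
 (c (a (nat_lit 0x1c221200001)) e
 (c (a (nat_lit 0x8000000001)) e e))))))))))))
 (c (a (nat_lit 0x2001))
 (c (a (nat_lit 0x10826260a043))
 (c (a (nat_lit 0x47e6e8e818001)) e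
 (c (a (nat_lit 0x14d474e0000004)) e e))
 (c (a (nat_lit 0x50500203226))
 (c (a (nat_lit 0x1b73e000000003)) e e)
 (c (a (nat_lit 0x2020273787)) e
 (c (a (nat_lit 0x2534ee88)) e
 (c z e
 (c z e
 (c z e
 (c z e
 (c (a (nat_lit 0x10208d804004)) e
 (c (a (nat_lit 0x1a7a60000003)) e e))))))))))
 (c (nat_lit 1)
 (c (a (nat_lit 0x2020283126)) e
 (c (a (nat_lit 0x4a4eaf29bc7)) e
 (c z e
 (c z e
 (c z e
 (c z e
 (c (a (nat_lit 0x1cb628e8a767)) e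
 (c (a (nat_lit 0x1de747400005)) e
 (c (a (nat_lit 0x6000000001)) e e)))))))))
 (c (a (nat_lit 0x2020a1))
 (c z e
 (c z e
 (c z e
 (c z e
 (c z e
 (c z e
 (c (a (nat_lit 0x14c020000005)) e e)))))))
 (c (b (nat_lit 0x375fe7))
 (c (a (nat_lit 0xd869054b827)) e
 (c z e
 (c z e
 (c z e
 (c (a (nat_lit 0xfd20f600007)) e
 (c (a (nat_lit 0x176000000005)) e e))))))
 (c (b (nat_lit 0x17bfffe7)) e
 (c z e
 (c z e
 (c z e
 (c (a (nat_lit 0xc0c0a1)) e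
 (c (a (nat_lit 0xa06061)) e
 (c (a (nat_lit 0xa060e1)) e
 (c (a (nat_lit 0x80e1e441)) e
 (c (a (nat_lit 0x1b1b2025)) e
 (c z e
 (c (a (nat_lit 0x1b20204025)) e
 (c (a (nat_lit 0xa04001)) e
 (c (a (nat_lit 0xe0404001)) e
 (c (a (nat_lit 0x20000001)) e e)))))))))))))))))))
 C507))) Tr.c Tr.e (nat_lit 0) C.cx C.cy
noncomputable def C509 : Tr := beta% (fun (c : Nat → Tr → Tr → Tr) (e : Tr) (z : Nat) (a b : Nat → Nat) =>
 (c (a (nat_lit 0x20202021))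
 (c (a (nat_lit 0x79dfc1bd006))
 (c (a (nat_lit 0x66e577126c026))
 (c z e
 (c (a (nat_lit 0x12dd78d7f0abe867)) e
 (c z e
 (c (a (nat_lit 0x1169ebe94c876026)) e e))))
 (c (a (nat_lit 0xf17332d67ebe8))
 (c (a (nat_lit 0x183013124ac5ee08)) e e)
 (c z e
 (c z e
 (c z e
 (c (a (nat_lit 0x82bf3d62aebc6)) e e))))))
 (c (a (nat_lit 0x18767670a748))
 (c (a (nat_lit 0x16b4cf896c0cc8))
 (c (a (nat_lit 0x9891027a3a98b08)) e e)
 (c z e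
 (c z e
 (c z e
 (c (a (nat_lit 0xe5634e2a92047)) e
 (c z e
 (c z e
 (c z e
 (c (a (nat_lit 0xb49f9d7430009)) e e)))))))))
 (c z e
 (c z e
 (c (a (nat_lit 0x180060602003)) e
 (c (a (nat_lit 0x14140a061))
 (c (b (nat_lit 0x4cbbfffaca506)) e e)
 (c (a (nat_lit 0xc0e0e14401))
 (c (b (nat_lit 0x1b1fffffe22084)) e
 (c (a (nat_lit 0x1a24b1a3600006)) e
 (c (a (nat_lit 0x1c334000000002)) e e)))
 (c (a (nat_lit 0x202666f0a6))
 (c (a (nat_lit 0x1b03e0a0000004)) e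
 (c (a (nat_lit 0xa000000000001)) e e))
 (c (a (nat_lit 0x83252795166)) e
 (c (a (nat_lit 0xe2e31ac3767)) e
 (c z e
 (c z e
 (c (a (nat_lit 0x131d32ab64e7)) e
 (c (a (nat_lit 0x118760202767)) e
 (c (a (nat_lit 0x1d00405d5d25)) e
 (c (a (nat_lit 0x460a1e10041)) e
 (c (a (nat_lit 0x10281200001)) e
 (c (a (nat_lit 0x14000000001)) e e))))))))))))))))))
 (c (a (nat_lit 0x40404041))
 (c (a (nat_lit 0x145415228307))
 (c (a (nat_lit 0x1f16c967cdada6))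
 (c (a (nat_lit 0x65b4da70d1f8486)) e
 (c (a (nat_lit 0x1948ee0f6c226008)) e e))
 (c (a (nat_lit 0x186a68888884e8))
 (c (a (nat_lit 0xab475e883c00008)) e e)
 (c (b (nat_lit 0x7f23fe02cd528)) e
 (c (a (nat_lit 0x169b7163f6b506)) e
 (c (b (nat_lit 0x122b8046803fe7)) e
 (c z e
 (c z e
 (c z e
 (c (b (nat_lit 0x41ff4e5e00009)) e e)))))))))
 (c z e
 (c (a (nat_lit 0x140f8faf8f87)) e
 (c (a (nat_lit 0x1a20181e1)) e
 (c (a (nat_lit 0x4060607b85))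
 (c (b (nat_lit 0xd5ffbd2132005)) e e)
 (c (a (nat_lit 0x4041adfa06)) e
 (c z e
 (c z e
 (c (a (nat_lit 0xc4d789b5728)) e
 (c z e
 (c z e
 (c (a (nat_lit 0x169b50a8ca87)) e
 (c (a (nat_lit 0x18880047e7c7)) e
 (c (a (nat_lit 0xa4924c5c721)) e
 (c (a (nat_lit 0x1a221416001)) e
 (c (a (nat_lit 0x80000001)) e e))))))))))))))))
 (c (a (nat_lit 0x20202021))
 (c (a (nat_lit 0x1920a0c0a0c2))
 (c (a (nat_lit 0x133673aa690024)) e
 (c (a (nat_lit 0x4223a4e87348)) e e))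
 (c (a (nat_lit 0x262212181)) e
 (c (a (nat_lit 0xa2018208c1)) e
 (c z e
 (c z e
 (c (a (nat_lit 0x34350262267)) e
 (c z e
 (c z e
 (c z e
 (c z e
 (c z e
 (c (a (nat_lit 0x18a984c28405)) e
 (c (a (nat_lit 0x19468103c323)) e
 (c (a (nat_lit 0x1901200002)) e
 (c (a (nat_lit 0x1a6000000001)) e e)))))))))))))))
 (c (a (nat_lit 0x20202021))
 (c (a (nat_lit 0xa0a206c1)) e
 (c z e
 (c z e
 (c z e
 (c (a (nat_lit 0x7e70bcad348)) e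
 (c z e
 (c z e
 (c z e
 (c z e
 (c z e
 (c (a (nat_lit 0x13823a3aa08)) e
 (c (a (nat_lit 0x14a02046c008)) e
 (c (a (nat_lit 0x160000001)) e e)))))))))))))
 (c (a (nat_lit 0x20202021))
 (c (a (nat_lit 0xba495e2c4)) e
 (c (a (nat_lit 0x8e84ec4d866))
 (c (b (nat_lit 0xa5c7ff8e8e006)) e e)
 (c z e
 (c z e
 (c z e
 (c (a (nat_lit 0x110faeace848)) e
 (c z e
 (c z e
 (c z e
 (c (a (nat_lit 0x49071e0a045)) e
 (c (a (nat_lit 0xc55e0c00004)) e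
 (c (a (nat_lit 0x2000000001)) e e))))))))))))
 (c (nat_lit 1)
 (c (a (nat_lit 0x78b26100d26))
 (c (a (nat_lit 0x63e2d8ba00004)) e e)
 (c z e
 (c z e
 (c (a (nat_lit 0x1fdcb9056186)) e
 (c (a (nat_lit 0x18b6f7a8efe7)) e
 (c z e
 (c z e
 (c (a (nat_lit 0xa70cf46c6c8)) e
 (c (a (nat_lit 0x1148e0402007)) e
 (c (a (nat_lit 0x116020000006)) e e))))))))))
 (c (a (nat_lit 0x40406061))
 (c (a (nat_lit 0xc2ef26e8866)) e
 (c (a (nat_lit 0xcb1ade04047)) e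
 (c (a (nat_lit 0x6c331fa1a26)) e
 (c z e
 (c z e
 (c z e
 (c (a (nat_lit 0x1276b2acea47)) e
 (c (a (nat_lit 0x117fc0200005)) e e))))))))
 (c (a (nat_lit 0x20606061))
 (c (a (nat_lit 0x104040404004)) e
 (c (a (nat_lit 0x3438322c001)) e
 (c (a (nat_lit 0x282a2c0b466)) e e)))
 (c (a (nat_lit 0x20202041))
 (c (a (nat_lit 0x80a097c3)) e
 (c (a (nat_lit 0x204044b287)) e e))
 (c (a (nat_lit 0x3706))
 (c (a (nat_lit 0x204620fc26)) e e)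
 (c (a (nat_lit 0x20303885)) e
 (c z e
 (c (a (nat_lit 0x1576758e68)) e
 (c (a (nat_lit 0x13518e61c7)) e
 (c (a (nat_lit 0x1c76202026)) e
 (c (a (nat_lit 0x1800202023)) e
 (c (a (nat_lit 0x20a06021)) e
 (c (a (nat_lit 0x404021)) e
 (c (a (nat_lit 0x206361)) e
 (c (a (nat_lit 0x207045)) e
 (c z e
 (c (a (nat_lit 0x87466a6a5)) e
 (c (a (nat_lit 0x1b80200004)) e e)))))))))))))))))))))))) Tr.c Tr.e (nat_lit 0) C.cx C.cy
noncomputable def C510 : Tr := beta% (fun (c : Nat → Tr → Tr → Tr) (e : Tr) (z : Nat) (a b : Nat → Nat) =>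
 (c (a (nat_lit 0x20202021))
 (c (a (nat_lit 0x20203206))
 (c (b (nat_lit 0x20405fe771a4))
 (c (a (nat_lit 0x7272607cc0d7226)) e
 (c z e
 (c z e
 (c z e
 (c z e
 (c (a (nat_lit 0x996ca914c4c0347)) e
 (c z e
 (c z e
 (c (a (nat_lit 0x1738aaa000000006)) e
 (c (a (nat_lit 0x1c20000000000005)) e e))))))))))
 (c z e
 (c z e
 (c z e
 (c z e
 (c z e
 (c z e
 (c (a (nat_lit 0x1717d7d8182025)) e
 (c (a (nat_lit 0x13b3f414205765)) e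
 (c (a (nat_lit 0x505052023b107)) e
 (c (a (nat_lit 0x9ea2046fa4826)) e e)))))))))))
 (c (a (nat_lit 0x2030ea28))
 (c z e
 (c z e
 (c z e
 (c z e
 (c z e
 (c z e
 (c z e
 (c (b (nat_lit 0x20205ffff0a7)) e
 (c (a (nat_lit 0xa2a202696bb87)) e e)))))))))
 (c (a (nat_lit 0x20388e4e28)) e
 (c z e
 (c z e
 (c z e
 (c z e
 (c (a (nat_lit 0x173454545447))
 (c z e
 (c (b (nat_lit 0x1ae75ffed5cae7)) e
 (c (a (nat_lit 0x3e8b000007)) e e)))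
 (c (a (nat_lit 0x140a10021))
 (c (a (nat_lit 0x1904e2a0c08004)) e
 (c (a (nat_lit 0x11cbc220000002)) e
 (c (a (nat_lit 0x3e00000000001)) e e)))
 (c (a (nat_lit 0x8100cf21)) e
 (c (a (nat_lit 0x202929b6c6)) e
 (c z e
 (c z e
 (c z e
 (c z e
 (c (a (nat_lit 0x112720a0c085)) e
 (c (a (nat_lit 0x1a80c080a163)) e
 (c (a (nat_lit 0x140a2a181)) e
 (c (a (nat_lit 0xe0e00001)) e
 (c (a (nat_lit 0x2000000001)) e e))))))))))))))))))))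
 (c (a (nat_lit 0x20202021))
 (c (a (nat_lit 0x385312c8)) e
 (c z e
 (c z e
 (c z e
 (c z e
 (c z e
 (c (a (nat_lit 0x11f200202006))
 (c z e
 (c (b (nat_lit 0x1fffff3d81e006)) e
 (c (b (nat_lit 0x1ffaf980000006)) e e)))
 (c (a (nat_lit 0x162c261a001))
 (c (a (nat_lit 0x15606040200007)) e
 (c (a (nat_lit 0x11c20000000003)) e e))
 (c (b (nat_lit 0x202e3ffd26))
 (c (a (nat_lit 0x3000000000001)) e e)
 (c z e
 (c z e
 (c z e
 (c z e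
 (c z e
 (c (a (nat_lit 0x4b852b04001)) e
 (c (a (nat_lit 0x13c201612001)) e
 (c (a (nat_lit 0x34321c0c001)) e
 (c (a (nat_lit 0x36140000001)) e e))))))))))))))))))
 (c (a (nat_lit 0x20202021))
 (c z e
 (c z e
 (c z e
 (c z e
 (c (a (nat_lit 0x16161e141)) e
 (c (a (nat_lit 0x20202038a5)) e
 (c (a (nat_lit 0x264cf5c7))
 (c (a (nat_lit 0x10260280000002)) e e)
 (c z e
 (c z e
 (c z e
 (c z e
 (c z e
 (c z e
 (c z e
 (c (a (nat_lit 0x1f20a080c063)) e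
 (c (a (nat_lit 0x201000001)) e
 (c (a (nat_lit 0x2000000001)) e e)))))))))))))))))
 (c (a (nat_lit 0x20202021))
 (c z e
 (c z e
 (c (a (nat_lit 0x161612001)) e
 (c z e
 (c z e
 (c z e
 (c z e
 (c z e
 (c z e
 (c z e
 (c z e
 (c z e
 (c (a (nat_lit 0x39279fc785)) e
 (c (a (nat_lit 0x11c040402005)) e
 (c (a (nat_lit 0xe0000001)) e e)))))))))))))))
 (c (a (nat_lit 0x20202021))
 (c (a (nat_lit 0x140e14121)) e
 (c (a (nat_lit 0xa101a211c1)) e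
 (c z e
 (c z e
 (c z e
 (c z e
 (c z e
 (c z e
 (c z e
 (c z e
 (c z e
 (c (a (nat_lit 0xd0b007332e5)) e
 (c (b (nat_lit 0x1ff020400004)) e
 (c (a (nat_lit 0x4e000000001)) e e))))))))))))))
 (c (a (nat_lit 0x20202021))
 (c (a (nat_lit 0x26615ee4))
 (c (a (nat_lit 0x91cc742f06544)) e e)
 (c z e
 (c z e
 (c z e
 (c z e
 (c z e
 (c z e
 (c z e
 (c z e
 (c z e
 (c (a (nat_lit 0xb94c0826007)) e
 (c (a (nat_lit 0x1502a0000007)) e e))))))))))))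
 (c (nat_lit 1)
 (c z e
 (c z e
 (c z e
 (c z e
 (c (b (nat_lit 0x1fbffb804066)) e e)))))
 (c (a (nat_lit 0x40404041))
 (c z e
 (c (a (nat_lit 0x14532b40c0c7)) e
 (c (a (nat_lit 0x128629232345)) e
 (c (a (nat_lit 0x1677f6f71186)) e e))))
 (c (a (nat_lit 0x40402041))
 (c (a (nat_lit 0x142060808084)) e
 (c (a (nat_lit 0x8e262426381)) e
 (c (a (nat_lit 0x180a0c0d486)) e
 (c (a (nat_lit 0x1c1e1f46ca6)) e e))))
 (c (a (nat_lit 0x20202021))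
 (c (a (nat_lit 0x2020203445)) e
 (c (a (nat_lit 0x40748c26)) e
 (c (a (nat_lit 0x202a45bf87)) e e)))
 (c (a (nat_lit 0x20202021))
 (c (a (nat_lit 0x94eb97e5)) e e)
 (c (a (nat_lit 0x20203065)) e
 (c (a (nat_lit 0x20fc22))
 (c (a (nat_lit 0x117663600006)) e
 (c (a (nat_lit 0x1ae000000005)) e e))
 (c (a (nat_lit 0x670f17088)) e
 (c z e
 (c (a (nat_lit 0x1e9b1c4026)) e
 (c (a (nat_lit 0x1000602027)) e
 (c (a (nat_lit 0x808141a1)) e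
 (c (a (nat_lit 0x40c161)) e
 (c (a (nat_lit 0x20e021)) e
 (c (a (nat_lit 0x40e04201)) e
 (c (a (nat_lit 0x20b945)) e e))))))))))))))))))))))) Tr.c Tr.e (nat_lit 0) C.cx C.cy

end Pool.Agent.Work.MP_82fd4a_nt.P.H
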