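import Pool.Agent.Work.MP_82fd4a_nt.P.Dx

set_option autoImplicit false
set_option linter.all false
set_option maxRecDepth 100000

namespace Pool.Agent.Work.MP_82fd4a_nt.P.H
open Y Y.Tr

noncomputable def C511 : Tr := beta% (fun (c : Nat → Tr → Tr → Tr) (e : Tr) (z : Nat) (a b : Nat → Nat) =>
 (c (a (nat_lit 0x20202021))
 (c (a (nat_lit 0x203610e7))
 (c z e
 (c z e
 (c z e
 (c z e
 (c z e
 (c z e
 (c z e
 (c (a (nat_lit 0x40616b20f166)) e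
 (c (b (nat_lit 0x2061899ff107)) e e)))))))))
 (c (a (nat_lit 0x20308bab89)) e
 (c z e
 (c z e
 (c z e
 (c z e
 (c (a (nat_lit 0x16c484846466)) e
 (c (a (nat_lit 0x2a302e14121))
 (c (b (nat_lit 0x1fff81a0402007)) e
 (c (a (nat_lit 0x1080e040000008)) e e))
 (c (a (nat_lit 0x2020203885)) e
 (c (a (nat_lit 0x20292f5547)) e
 (c z e
 (c z e
 (c z e
 (c z e
 (c z e
 (c (a (nat_lit 0x158acced4d44)) e
 (c (a (nat_lit 0x1040c26381e2)) e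
 (c (a (nat_lit 0x2a3a00001)) e
 (c (a (nat_lit 0x2000000001)) e e)))))))))))))))))))
 (c (nat_lit 1)
 (c (a (nat_lit 0x36ef6f6d67)) e
 (c (a (nat_lit 0x132fb04d2a29))
 (c (a (nat_lit 0x552a963e38869))
 (c (a (nat_lit 0x1425e8616203e008)) e e)
 (c z e
 (c z e
 (c z e
 (c z e
 (c (a (nat_lit 0x405e707e4350a)) e e))))))
 (c z e
 (c z e
 (c z e
 (c (a (nat_lit 0x91d1d18024))
 (c z e
 (c (a (nat_lit 0x184eabc200c009)) e
 (c (a (nat_lit 0xfb08120000008)) e e)))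
 (c (a (nat_lit 0x2020203806))
 (c (a (nat_lit 0x1adbe040200007)) e
 (c (a (nat_lit 0x18c06000000007)) e e))
 (c (a (nat_lit 0x2733f387)) e
 (c z e
 (c z e
 (c (a (nat_lit 0x14d59832d448)) e
 (c (a (nat_lit 0xb7600474ac6)) e
 (c z e
 (c z e
 (c (a (nat_lit 0x11416381e001)) e
 (c (a (nat_lit 0x201010001)) e
 (c (a (nat_lit 0x220a0000001)) e e)))))))))))))))))
 (c (a (nat_lit 0x40404041))
 (c (a (nat_lit 0x195ed9da4006))
 (c (b (nat_lit 0x10bfe0c0618547)) e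
 (c z e
 (c z e
 (c z e
 (c (a (nat_lit 0x2804832d1488)) e
 (c (b (nat_lit 0x1fffe3006a5248)) e e))))))
 (c z e
 (c z e
 (c (a (nat_lit 0x120e2414001)) e
 (c (a (nat_lit 0x4040405845))
 (c (b (nat_lit 0x1399dfe660a048)) e
 (c (a (nat_lit 0x19f388e0e00007)) e
 (c (a (nat_lit 0x10e3c000000006)) e e)))
 (c (a (nat_lit 0x20266cd5c7))
 (c (a (nat_lit 0x11c16040000006)) e
 (c (a (nat_lit 0xb400000000001)) e e))
 (c (a (nat_lit 0x124acf12c88)) e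
 (c z e
 (c z e
 (c (a (nat_lit 0x144fe7478c48)) e
 (c (a (nat_lit 0x116022d7ef67)) e
 (c z e
 (c z e
 (c (a (nat_lit 0x128080202006)) e
 (c (a (nat_lit 0xdc3c1200001)) e
 (c (a (nat_lit 0x28000000001)) e e))))))))))))))))
 (c (a (nat_lit 0x20200001))
 (c (a (nat_lit 0x141e1e1a001)) e
 (c (a (nat_lit 0x3a385e48441))
 (c (a (nat_lit 0x348c694d0c7)) e e)
 (c (a (nat_lit 0x20203b25)) e
 (c (a (nat_lit 0x2828a102b87)) e
 (c (a (nat_lit 0x6ad3957b648))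
 (c (a (nat_lit 0x1d174000000006)) e e)
 (c z e
 (c z e
 (c z e
 (c z e
 (c (a (nat_lit 0xdee0e1b4d47)) e
 (c z e
 (c z e
 (c (a (nat_lit 0x1edb0402007)) e
 (c (a (nat_lit 0x120a00000007)) e e))))))))))))))
 (c (nat_lit 1)
 (c (a (nat_lit 0x4020203864))
 (c (a (nat_lit 0x1242491c341a6)) e
 (c (a (nat_lit 0x242b24be122c7)) e e))
 (c (a (nat_lit 0x20232f3246))
 (c (a (nat_lit 0x311cd83296407)) e e)
 (c z e
 (c z e
 (c (a (nat_lit 0x1394752c6768)) e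
 (c (a (nat_lit 0x14d570cd26a8)) e
 (c z e
 (c (a (nat_lit 0x12040405b46)) e
 (c (a (nat_lit 0x9a9a9b3cea7)) e
 (c z e
 (c z e
 (c (a (nat_lit 0x1c796d800006)) e e))))))))))))
 (c (nat_lit 1)
 (c (a (nat_lit 0x144577d55c5))
 (c (a (nat_lit 0xd6d031009c0e6)) e e)
 (c z e
 (c z e
 (c (a (nat_lit 0x11110be6e5e8)) e
 (c (a (nat_lit 0x16f516f0f0e8)) e
 (c z e
 (c (a (nat_lit 0x6060603a86)) e
 (c (a (nat_lit 0x3c3a3b68b66)) e e))))))))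
 (c (a (nat_lit 0x40404041))
 (c (a (nat_lit 0x163817ec09c6)) e
 (c (a (nat_lit 0x18984ae0a0a7)) e
 (c (a (nat_lit 0x198343404066)) e
 (c z e
 (c (a (nat_lit 0x1c3cbcbc7c46)) e
 (c (a (nat_lit 0x20222207846)) e
 (c (a (nat_lit 0x585c5cfb727)) e e)))))))
 (c (a (nat_lit 0x40404041))
 (c (a (nat_lit 0x1d6040204045)) e
 (c (a (nat_lit 0x1141a161a0a2)) e
 (c (a (nat_lit 0xab15976c6c1)) e
 (c (a (nat_lit 0x1d9e1dc1e282)) e
 (c (a (nat_lit 0x20204053a7)) e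
 (c (a (nat_lit 0x5e646530e88)) e e))))))
 (c (a (nat_lit 0x20202021))
 (c (a (nat_lit 0x8ca4a21e2a1)) e
 (c (a (nat_lit 0x347c82762a1)) e
 (c (a (nat_lit 0x406061d705)) e
 (c (a (nat_lit 0xa6a6a6c5367)) e e))))
 (c (a (nat_lit 0x4041))
 (c (a (nat_lit 0x16365e1e001)) e e)
 (c (nat_lit 1)
 (c z e
 (c (b (nat_lit 0xf3fffe075a6)) e
 (c (a (nat_lit 0x104182000002)) e
 (c (nat_lit 1) e e))))
 (c (a (nat_lit 0x402028c1))
 (c (a (nat_lit 0x692a0c0a004)) e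
 (c (a (nat_lit 0x114020000005)) e e))
 (c (a (nat_lit 0x10f0ff1a26))
 (c (a (nat_lit 0x10e000000005)) e e)
 (c (a (nat_lit 0xd9653f287)) e
 (c z e
 (c (a (nat_lit 0x1f33a04024)) e
 (c (a (nat_lit 0x1380202004)) e
 (c (a (nat_lit 0x160402001)) e
 (c (a (nat_lit 0x160e06001)) e
 (c (a (nat_lit 0x160406001)) e
 (c (a (nat_lit 0x20203825)) e
 (c (a (nat_lit 0x20383c65)) e e))))))))))))))))))))))) Tr.c Tr.e (nat_lit 0) C.cx C.cy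
noncomputable def C512 : Tr := beta% (fun (c : Nat → Tr → Tr → Tr) (e : Tr) (z : Nat) (a b : Nat → Nat) =>
 (c (a (nat_lit 0x4040406061))
 (c (a (nat_lit 0x19618161616164))
 (c z e
 (c (a (nat_lit 0x68f311090d13ae2))
 (c (a (nat_lit 0x1fd5f371f1f9b3b627)) e
 (c (a (nat_lit 0xac7a7478928ab348a)) e
 (c (a (nat_lit 0x8a86708c8e8ef514a)) e e)))
 (c (a (nat_lit 0xb0868486868b047))
 (c (a (nat_lit 0xc0b8a6ccbb17a3e49)) e e)
 (c (a (nat_lit 0x6864646666af107))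
 (c z e
 (c (a (nat_lit 0x1192cff5ce00000009)) e e))
 (c (a (nat_lit 0x2060b4bad510ea7)) e
 (c (a (nat_lit 0x4eeb75742ed166)) e
 (c z e
 (c z e
 (c (a (nat_lit 0x1e68c9783e120a7)) e
 (c (a (nat_lit 0x11a76b42e20100a6)) e
 (c (a (nat_lit 0x77042a1e0800006)) e
 (c (a (nat_lit 0x190a430000000005)) e e))))))))))))
 (c (a (nat_lit 0x3432363626141))
 (c (a (nat_lit 0xbababababab5be7))
 (c (a (nat_lit 0x625854546258450aa)) e
 (c (a (nat_lit 0x544e54604a508f14c)) e e))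
 (c (a (nat_lit 0x949494949717ce9)) e
 (c (a (nat_lit 0x9696c0bee14b9a9)) e
 (c z e
 (c z e
 (c z e
 (c z e
 (c (a (nat_lit 0x1535ddab49884868)) e
 (c (a (nat_lit 0x1dc125832140a006)) e
 (c (a (nat_lit 0x1c89048100000005)) e
 (c (a (nat_lit 0x1d0800000000003)) e e)))))))))))
 (c (a (nat_lit 0x8060a0a05e43))
 (c (a (nat_lit 0x5c5c70728ae1029)) e
 (c z e
 (c z e
 (c z e
 (c z e
 (c z e
 (c (a (nat_lit 0xbd10a436322c289)) e
 (c (a (nat_lit 0x149963c080400007)) e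
 (c (a (nat_lit 0x12e3404000000007)) e e)))))))))
 (c (a (nat_lit 0x20202cd325))
 (c z e
 (c (a (nat_lit 0xaecb0d034f63c69)) e
 (c z e
 (c z e
 (c z e
 (c (a (nat_lit 0x14a34782e223a009)) e
 (c (a (nat_lit 0xdee6a0a0000006)) e
 (c (a (nat_lit 0x12a3400000000007)) e e))))))))
 (c (b (nat_lit 0x80808a5bdfe5))
 (c (a (nat_lit 0x1455af325176eb27)) e
 (c (a (nat_lit 0x18533e9c544524e7)) e
 (c z e
 (c z e
 (c (a (nat_lit 0x1df8d69b51600007)) e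
 (c (a (nat_lit 0x130ae8e000000007)) e e))))))
 (c (a (nat_lit 0x26e142b0006))
 (c z e
 (c z e
 (c z e
 (c (a (nat_lit 0x13b67226c0000006)) e
 (c (a (nat_lit 0x1a70600000000006)) e e)))))
 (c z e
 (c z e
 (c (a (nat_lit 0x118f4340c0e105)) e
 (c (a (nat_lit 0x1dc060a1a1a1a4)) e
 (c (a (nat_lit 0xe42650504a5a1)) e
 (c (a (nat_lit 0xe40383656581)) e
 (c (a (nat_lit 0x11703154564941)) e
 (c (a (nat_lit 0x92949698593c6)) e
 (c (a (nat_lit 0x48727093fc646)) e e)))))))))))))))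
 (c (a (nat_lit 0x202001))
 (c (a (nat_lit 0x204060605923))
 (c (a (nat_lit 0xa4a4a4a48efbc68))
 (c (a (nat_lit 0x5e5a56525a44c92ca)) e e)
 (c (a (nat_lit 0xa0a0cac0e949a0a)) e
 (c z e
 (c z e
 (c z e
 (c z e
 (c z e
 (c (a (nat_lit 0xf9466c8c72726c9)) e
 (c (a (nat_lit 0x188263a0e0800007)) e e)))))))))
 (c (a (nat_lit 0x202020267446))
 (c z e
 (c z e
 (c z e
 (c z e
 (c z e
 (c z e
 (c z e
 (c (a (nat_lit 0x18e0c12120000008)) e e))))))))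
 (c (a (nat_lit 0x3e3e3eb104987))
 (c z e
 (c z e
 (c z e
 (c z e
 (c z e
 (c z e
 (c (a (nat_lit 0x17d8284000000008)) e e)))))))
 (c z e
 (c z e
 (c z e
 (c z e
 (c z e
 (c (a (nat_lit 0x1180c2a260c004)) e
 (c (a (nat_lit 0x804040607125)) e
 (c (a (nat_lit 0xc0204048f106)) e
 (c (a (nat_lit 0x1c1c1ea93db86)) e e))))))))))))
 (c (a (nat_lit 0x2001))
 (c (a (nat_lit 0x202102451387))
 (c z e
 (c z e
 (c z e
 (c z e
 (c z e
 (c z e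
 (c z e
 (c (a (nat_lit 0x19cf642000000007)) e
 (c (a (nat_lit 0x1680000000000006)) e e)))))))))
 (c z e
 (c z e
 (c z e
 (c z e
 (c z e
 (c z e
 (c (a (nat_lit 0x1b608060606685)) e
 (c (a (nat_lit 0x20406083b606)) e
 (c (a (nat_lit 0x3234364e91c67)) e e))))))))))
 (c (a (nat_lit 0x2020203068))
 (c z e
 (c (a (nat_lit 0x10bc32a64637e7))
 (c (a (nat_lit 0x1217b64ca9e9846a)) e e)
 (c z e
 (c z e
 (c z e
 (c (a (nat_lit 0x312be9699445)) e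
 (c (a (nat_lit 0x3002040407706)) e
 (c (a (nat_lit 0x5454565705706)) e
 (c z e
 (c z e
 (c (a (nat_lit 0x12068e7348007)) e
 (c (a (nat_lit 0x650c5c0000007)) e e))))))))))))
 (c (a (nat_lit 0x124468))
 (c (a (nat_lit 0x11aba0a4b06ba7))
 (c (a (nat_lit 0x162f880688654248)) e e)
 (c z e
 (c z e
 (c z e
 (c (a (nat_lit 0xbc4ea22f818c7)) e
 (c (a (nat_lit 0x18424c931b048)) e
 (c (a (nat_lit 0x1e92a11f4e987)) e
 (c z e
 (c z e
 (c (a (nat_lit 0x1051ebfd400007)) e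
 (c (a (nat_lit 0x1e298000000007)) e e)))))))))))
 (c (a (nat_lit 0x2034c5c6c7))
 (c z e
 (c z e
 (c z e
 (c z e
 (c (a (nat_lit 0x54c0772e30048)) e e)))))
 (c (a (nat_lit 0x39300fa806)) e
 (c z e
 (c (a (nat_lit 0x18f7d1602005))
 (c (a (nat_lit 0x24647c34032c7)) e
 (c (a (nat_lit 0x107824e16ec247)) e
 (c (a (nat_lit 0x6a658a7810028)) e e)))
 (c (a (nat_lit 0x16e040202005))
 (c (a (nat_lit 0x10616040a04027)) e
 (c (a (nat_lit 0xa58a140e04006)) e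
 (c (a (nat_lit 0x1d7b2080000007)) e e)))
 (c (a (nat_lit 0x301e2c26001))
 (c (a (nat_lit 0x188080a0600006)) e
 (c (a (nat_lit 0x1b004000000007)) e e))
 (c (a (nat_lit 0x1e102c1e021)) e
 (c (a (nat_lit 0x2020203845)) e
 (c (a (nat_lit 0x26f2fe06)) e
 (c (a (nat_lit 0x403eed93506)) e
 (c z e
 (c z e
 (c (a (nat_lit 0x1e1e20202005)) e
 (c (a (nat_lit 0x1e4040202005)) e
 (c (a (nat_lit 0x18141012021)) e
 (c (a (nat_lit 0x2e180400001)) e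
 (c (a (nat_lit 0x14000000001)) e e))))))))))))))))))))))) Tr.c Tr.e (nat_lit 0) C.cx C.cy
noncomputable def C514 : Tr := beta% (fun (c : Nat → Tr → Tr → Tr) (e : Tr) (z : Nat) (a b : Nat → Nat) =>
 (c (nat_lit 1)
 (c (a (nat_lit 0x666742fcf67))
 (c (a (nat_lit 0x13efd629d1a0e5))
 (c (a (nat_lit 0x7766c8806440026)) e
 (c (a (nat_lit 0x1f337594c44432a7)) e
 (c z e
 (c (a (nat_lit 0x12ed1e56e8600006)) e e))))
 (c z e
 (c z e
 (c (b (nat_lit 0x18fdb6e53fe346)) e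
 (c (a (nat_lit 0x12d032c8e821a6)) e
 (c z e
 (c z e
 (c (a (nat_lit 0x191f9c9213da25)) e
 (c (a (nat_lit 0x5440864cd94c8)) e e)))))))))
 (c (a (nat_lit 0x316d4d0828)) e
 (c z e
 (c (a (nat_lit 0x11d0b14242c7))
 (c z e
 (c (a (nat_lit 0xe9029c94bbb47)) e
 (c z e
 (c z e
 (c z e
 (c (a (nat_lit 0x7abb061400009)) e e))))))
 (c (a (nat_lit 0x1a3b02a225c6))
 (c (b (nat_lit 0xb47e324f11fe6)) e
 (c z e
 (c z e
 (c (a (nat_lit 0x43fc128638008)) e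
 (c (a (nat_lit 0x1b4e84a0000008)) e e)))))
 (c (a (nat_lit 0x128989898966))
 (c z e
 (c (b (nat_lit 0x185fe8c481c8)) e
 (c (b (nat_lit 0x192bdfe2c00008)) e e)))
 (c (a (nat_lit 0x140a0608101))
 (c (a (nat_lit 0x293540a02007)) e
 (c (a (nat_lit 0x6956060000007)) e e))
 (c (a (nat_lit 0x202030c6)) e
 (c (a (nat_lit 0x29318dc7)) e
 (c z e
 (c (a (nat_lit 0x121774921227)) e
 (c (a (nat_lit 0x15eac040ed65)) e
 (c (a (nat_lit 0x156081dcfc24)) e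
 (c (a (nat_lit 0x7d7c59e4)) e
 (c (a (nat_lit 0xa7818f77785)) e
 (c (a (nat_lit 0xcb688e8e822)) e
 (c (a (nat_lit 0x1d74e1200001)) e
 (c (a (nat_lit 0x134000000001)) e e))))))))))))))))))
 (c (nat_lit 1)
 (c (a (nat_lit 0x1bb7d78ecd67))
 (c (a (nat_lit 0x125755cea1e686))
 (c (a (nat_lit 0x15cfc5a249012005)) e e)
 (c z e
 (c z e
 (c z e
 (c (a (nat_lit 0x2e2252c635e47)) e
 (c (a (nat_lit 0xa83b6a8ccfb27)) e e))))))
 (c z e
 (c z e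
 (c (a (nat_lit 0x168aaa6a6a64))
 (c (a (nat_lit 0x404e472736ba7)) e e)
 (c (a (nat_lit 0x1e7dc0a0a0a2))
 (c (b (nat_lit 0x1ff5900a6981c7)) e
 (c (a (nat_lit 0x1bb3353300a006)) e
 (c (a (nat_lit 0x149b8da0000006)) e e)))
 (c (a (nat_lit 0x208080bd43))
 (c (a (nat_lit 0x84474c1a00002)) e
 (c (a (nat_lit 0x12474000000005)) e e))
 (c (b (nat_lit 0x2e5ff7e6))
 (c (a (nat_lit 0x17000000000003)) e e)
 (c z e
 (c z e
 (c (a (nat_lit 0xf1cf2512d26)) e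
 (c (a (nat_lit 0x17a260202485)) e
 (c (a (nat_lit 0x2604044b745)) e
 (c (a (nat_lit 0x166b7d245)) e
 (c (a (nat_lit 0x60931aeaea6)) e
 (c (b (nat_lit 0x1ffa22010003)) e
 (c (a (nat_lit 0x1a6140000003)) e e))))))))))))))))
 (c (a (nat_lit 0x2021))
 (c z e
 (c (a (nat_lit 0x1a02a242c283))
 (c (a (nat_lit 0xf678861861705)) e
 (c (a (nat_lit 0x15a8a909e060a6)) e e))
 (c (a (nat_lit 0x20100c0c121))
 (c (b (nat_lit 0x7ef5bbfffffe5)) e e)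
 (c (a (nat_lit 0x2020205384)) e
 (c (a (nat_lit 0x1a1aeb16a67))
 (c (a (nat_lit 0xc106a60000006)) e e)
 (c z e
 (c z e
 (c (a (nat_lit 0x15cdec2baa67)) e
 (c (a (nat_lit 0x1af776524606)) e
 (c (a (nat_lit 0x4c0404034e4)) e
 (c (a (nat_lit 0x40404615a6)) e
 (c (b (nat_lit 0x16363ffcc685)) e
 (c (a (nat_lit 0x9065b302426)) e
 (c (b (nat_lit 0x1ff3a7400006)) e e))))))))))))))
 (c (a (nat_lit 0x20202021))
 (c (a (nat_lit 0x180c0806061))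
 (c (a (nat_lit 0xc3a04783b2a5)) e
 (c (a (nat_lit 0xde7d060de3444)) e
 (c (a (nat_lit 0x77083e12d8025)) e e)))
 (c (a (nat_lit 0x20203944))
 (c (a (nat_lit 0x78948c0c052a6)) e e)
 (c (a (nat_lit 0x7474d73ef85)) e
 (c z e
 (c (a (nat_lit 0x139675136c27)) e
 (c (a (nat_lit 0x14d3b2114a47)) e
 (c (a (nat_lit 0x1f3bba982066)) e
 (c (a (nat_lit 0x164201a1a122)) e
 (c (a (nat_lit 0x2060603204)) e
 (c (a (nat_lit 0x74746c93165)) e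
 (c (a (nat_lit 0x52524eb31c6)) e e)))))))))))
 (c (a (nat_lit 0x40202021))
 (c (a (nat_lit 0x8080b12a865))
 (c (a (nat_lit 0x92a62a0516326)) e e)
 (c z e
 (c z e
 (c (a (nat_lit 0x1b983485e2e6)) e
 (c (a (nat_lit 0x102e4dc6a687)) e
 (c (a (nat_lit 0x57f5f3f1f24)) e
 (c (a (nat_lit 0x2648542a141)) e
 (c (a (nat_lit 0xe4e4e405aa4)) e
 (c (a (nat_lit 0x202026d166)) e
 (c (a (nat_lit 0xeeed4bd8d06)) e e))))))))))
 (c (a (nat_lit 0x40404041))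
 (c (a (nat_lit 0xe90cf8cac06)) e
 (c (a (nat_lit 0x15940c606066)) e
 (c (a (nat_lit 0x1f102c404004)) e
 (c (a (nat_lit 0x154586664603)) e
 (c (b (nat_lit 0x1ffffff32f23)) e
 (c (a (nat_lit 0x1bfe1e40a082)) e
 (c (a (nat_lit 0x20205625)) e
 (c (a (nat_lit 0x485253030a6)) e e))))))))
 (c (a (nat_lit 0x21))
 (c (a (nat_lit 0x16a2a0404044)) e
 (c (a (nat_lit 0x11a120c0c002)) e
 (c (a (nat_lit 0xcedb4f00081)) e
 (c (a (nat_lit 0x1d1d5d0160e2)) e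
 (c (a (nat_lit 0x4060605104)) e
 (c (a (nat_lit 0x605e5f02726)) e e))))))
 (c (a (nat_lit 0x20202021))
 (c (a (nat_lit 0x2141a0e001)) e
 (c (a (nat_lit 0x78744a561)) e
 (c (a (nat_lit 0x4020203cc5)) e
 (c (a (nat_lit 0xb4b4b54c586)) e
 (c z e
 (c (a (nat_lit 0x47d0c602005)) e
 (c (a (nat_lit 0x1d8aa0000005)) e e)))))))
 (c (a (nat_lit 0x200001))
 (c (a (nat_lit 0x81e1e2e001)) e
 (c z e
 (c z e
 (c (a (nat_lit 0xdda0e511006)) e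
 (c (a (nat_lit 0x17e0a0200004)) e
 (c (a (nat_lit 0x2000000001)) e e))))))
 (c (a (nat_lit 0x20202021))
 (c z e
 (c (b (nat_lit 0x1ff72f404e85)) e
 (c (a (nat_lit 0x19ee00402005)) e
 (c (a (nat_lit 0xc0000001)) e e))))
 (c (a (nat_lit 0x20202001))
 (c (a (nat_lit 0x143440211f24)) e
 (c (a (nat_lit 0x1240a0600002)) e
 (c (a (nat_lit 0x2000000001)) e e)))
 (c (a (nat_lit 0x20203705))
 (c (a (nat_lit 0x36020000001)) e e)
 (c (a (nat_lit 0x80976da5)) e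
 (c (a (nat_lit 0x7d8b3f106)) e
 (c (a (nat_lit 0x1e397693e6)) e
 (c (a (nat_lit 0x102a8b4005)) e
 (c (a (nat_lit 0x1558402003)) e
 (c (a (nat_lit 0x17c0602003)) e
 (c (a (nat_lit 0x180204001)) e
 (c (a (nat_lit 0x204001)) e
 (c (a (nat_lit 0x20203344)) e
 (c (a (nat_lit 0x4a4d7c7e4)) e e))))))))))))))))))))))) Tr.c Tr.e (nat_lit 0) C.cx C.cy
noncomputable def C515 : Tr := beta% (fun (c : Nat → Tr → Tr → Tr) (e : Tr) (z : Nat) (a b : Nat → Nat) =>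
 (c (a (nat_lit 0x2001))
 (c (a (nat_lit 0x1492eaa0202025))
 (c (a (nat_lit 0xc8654b5b614f542))
 (c z e
 (c (a (nat_lit 0x1753a623a1a0c04887)) e
 (c (a (nat_lit 0x13d0cf69a8688b0b68)) e e)))
 (c (a (nat_lit 0xd73db5b78751524))
 (c (a (nat_lit 0x1a4cc7c5a4838d8328))
 (c (a (nat_lit 0x1a391924e0000000000a)) e e)
 (c (a (nat_lit 0x1b5a50ef0ed5d03de9)) e
 (c (a (nat_lit 0xa8b8ae82b488af98a)) e e)))
 (c (a (nat_lit 0x14354fcfaf8fdbe6))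
 (c (a (nat_lit 0x9e7a6860866cbf6aa)) e e)
 (c (a (nat_lit 0x2e3e3a3a3cb5147))
 (c z e
 (c (a (nat_lit 0xbee8c0bb4ad00000a)) e e))
 (c (a (nat_lit 0x38386c6ea6f71e8))
 (c (a (nat_lit 0x17b1cc4cab20000008)) e e)
 (c (a (nat_lit 0x36a3831d6ec4a27)) e
 (c z e
 (c z e
 (c (a (nat_lit 0x2e46ae6fc680067)) e
 (c (a (nat_lit 0xc7d6c2f41c100c6)) e
 (c (a (nat_lit 0x11e9fd21e1002006)) e
 (c (a (nat_lit 0x17be9380a0000005)) e e))))))))))))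
 (c (a (nat_lit 0x144b6746e66667))
 (c (a (nat_lit 0x60624241a071a6))
 (c (a (nat_lit 0x19cf2debe9cf6aa988))
 (c (a (nat_lit 0x1595e3e000000000000a)) e e)
 (c (a (nat_lit 0xb492787eaa62853eb)) e e))
 (c (a (nat_lit 0x64464a4a4a83609)) e
 (c (a (nat_lit 0x5e78a0a2b915a69)) e
 (c z e
 (c z e
 (c z e
 (c z e
 (c z e
 (c (a (nat_lit 0x1cd0464d4483e248)) e
 (c (a (nat_lit 0x1cf3cfa783a00007)) e
 (c (a (nat_lit 0x134f63e000000007)) e e)))))))))))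
 (c (a (nat_lit 0x15c06060602025))
 (c (a (nat_lit 0x7676ac9aa93bbc8)) e
 (c z e
 (c z e
 (c z e
 (c z e
 (c z e
 (c z e
 (c (a (nat_lit 0x11e3f8e56100e008)) e
 (c (a (nat_lit 0x102c446060000008)) e e)))))))))
 (c (a (nat_lit 0x402020203806))
 (c z e
 (c z e
 (c z e
 (c z e
 (c z e
 (c (a (nat_lit 0x472a5e5e383046a)) e
 (c (a (nat_lit 0x771b8c520e00007)) e
 (c (a (nat_lit 0x35044000000007)) e e))))))))
 (c (a (nat_lit 0x202020532cc6))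
 (c (a (nat_lit 0x13783479f519fd88)) e
 (c z e
 (c z e
 (c z e
 (c (a (nat_lit 0x1d4c48c6c784e009)) e
 (c (a (nat_lit 0x1bda4c2a80000007)) e
 (c (a (nat_lit 0x1d01e00000000006)) e e)))))))
 (c (a (nat_lit 0x80a4318b6807))
 (c z e
 (c z e
 (c z e
 (c z e
 (c (a (nat_lit 0x10cfad6000000007)) e e)))))
 (c z e
 (c z e
 (c (a (nat_lit 0x106c4ca440c0a6)) e
 (c (a (nat_lit 0x137349e0606066)) e
 (c (a (nat_lit 0x126425e2e14145)) e
 (c (a (nat_lit 0x418666242361)) e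
 (c (a (nat_lit 0x40e101013fa4)) e
 (c (b (nat_lit 0xa4a4a8ad4ffe5)) e
 (c (a (nat_lit 0x285e5cacbfb66)) e e)))))))))))))))
 (c (a (nat_lit 0x2020202021))
 (c (a (nat_lit 0x11a06060604024))
 (c (a (nat_lit 0x22242426282b0e7))
 (c (a (nat_lit 0x6e665c4c345c45549)) e e)
 (c (a (nat_lit 0x7878cca48d39e89)) e
 (c z e
 (c z e
 (c z e
 (c z e
 (c z e
 (c z e
 (c (a (nat_lit 0x104f468360a0a008)) e
 (c (a (nat_lit 0x1de7c60040000007)) e e))))))))))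
 (c (a (nat_lit 0x402040205f45))
 (c z e
 (c z e
 (c z e
 (c z e
 (c z e
 (c z e
 (c z e
 (c (a (nat_lit 0x8b0c5a1c1800009)) e
 (c (a (nat_lit 0x1af0c0a000000007)) e e)))))))))
 (c (a (nat_lit 0x2020205e31c6))
 (c z e
 (c z e
 (c z e
 (c z e
 (c z e
 (c z e
 (c (a (nat_lit 0x1db750c340000008)) e e)))))))
 (c z e
 (c z e
 (c z e
 (c z e
 (c z e
 (c (a (nat_lit 0x164fee09e968e7)) e
 (c (a (nat_lit 0x1f6d6ec2c0a183)) e
 (c (a (nat_lit 0x20e04040d066)) e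
 (c (a (nat_lit 0x7276787b24a47)) e e))))))))))))
 (c (nat_lit 1)
 (c (a (nat_lit 0x2020202e9285))
 (c z e
 (c z e
 (c z e
 (c z e
 (c z e
 (c z e
 (c z e
 (c (a (nat_lit 0x1889e48200000008)) e
 (c (a (nat_lit 0x1385800000000007)) e e)))))))))
 (c z e
 (c z e
 (c z e
 (c z e
 (c z e
 (c z e
 (c (a (nat_lit 0x873b0a5456126)) e
 (c (a (nat_lit 0x3c1e281219066)) e
 (c (a (nat_lit 0xdd41496ded825)) e e))))))))))
 (c (a (nat_lit 0x2001))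
 (c z e
 (c z e
 (c z e
 (c z e
 (c z e
 (c (a (nat_lit 0x1297db7ab83647)) e
 (c (a (nat_lit 0xdf6b2e2037965)) e
 (c (a (nat_lit 0x5850523f3cde6)) e
 (c z e
 (c z e
 (c (a (nat_lit 0x604e600c35a07)) e
 (c (a (nat_lit 0x117149e7200006)) e e))))))))))))
 (c (a (nat_lit 0x3d67))
 (c (a (nat_lit 0x10794b8163ae07))
 (c (a (nat_lit 0x109d352f08ea8908)) e e)
 (c z e
 (c z e
 (c z e
 (c (a (nat_lit 0x169dd8f23586)) e
 (c (a (nat_lit 0x40765a1e1b807)) e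
 (c (b (nat_lit 0x28201bff5eae7)) e
 (c z e
 (c z e
 (c (a (nat_lit 0x71126363d8007)) e
 (c (a (nat_lit 0x146daac0000008)) e e)))))))))))
 (c (a (nat_lit 0x203d23e7))
 (c z e
 (c (a (nat_lit 0x545474b53b508))
 (c (a (nat_lit 0x105c4de000000006)) e e)
 (c z e
 (c z e
 (c (a (nat_lit 0x8af0c5076028)) e
 (c z e
 (c z e
 (c z e
 (c z e
 (c (a (nat_lit 0x196ca000000006)) e e))))))))))
 (c (a (nat_lit 0x20316ac927))
 (c (a (nat_lit 0x26262776be026)) e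
 (c z e
 (c z e
 (c z e
 (c z e
 (c z e
 (c z e
 (c (a (nat_lit 0x503b160000008)) e
 (c (a (nat_lit 0x15200000000003)) e e)))))))))
 (c z e
 (c (a (nat_lit 0x104a47e34067))
 (c (a (nat_lit 0xac72ef864526)) e
 (c (a (nat_lit 0x323302215007)) e e))
 (c (a (nat_lit 0x190fab002005))
 (c (a (nat_lit 0xf3e70e0604046)) e
 (c (a (nat_lit 0x10aa57224120c7)) e
 (c (a (nat_lit 0xdd35880400008)) e e)))
 (c (a (nat_lit 0x1f71c6a58544))
 (c (a (nat_lit 0x4912121206007)) e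
 (c (a (nat_lit 0x18512060000008)) e e))
 (c (a (nat_lit 0x18c120e0e003))
 (c (a (nat_lit 0x13c02000000008)) e e)
 (c (a (nat_lit 0x4224180a061)) e
 (c (a (nat_lit 0x20202038c6)) e
 (c (a (nat_lit 0x18181b92d26)) e
 (c z e
 (c z e
 (c (a (nat_lit 0x1b7173258426)) e
 (c (a (nat_lit 0x181b60404005)) e
 (c (a (nat_lit 0x1b6020402005)) e
 (c (a (nat_lit 0x20341410001)) e
 (c (a (nat_lit 0x2e040000001)) e e))))))))))))))))))))))) Tr.c Tr.e (nat_lit 0) C.cx C.cy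
noncomputable def C516 : Tr := beta% (fun (c : Nat → Tr → Tr → Tr) (e : Tr) (z : Nat) (a b : Nat → Nat) =>
 (c (a (nat_lit 0x4040404041))
 (c (b (nat_lit 0x126bab1fe88886))
 (c (a (nat_lit 0xd4d32120d4e1345))
 (c z e
 (c (a (nat_lit 0xdad0843ea062a3828)) e
 (c (a (nat_lit 0xccb6a0acb694ede89)) e e)))
 (c (a (nat_lit 0x28082c2e109b8a6)) e
 (c z e
 (c z e
 (c z e
 (c z e
 (c z e
 (c z e
 (c (a (nat_lit 0x189658354f6cc9c7)) e
 (c (a (nat_lit 0x1a3619ef84c00006)) e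
 (c (a (nat_lit 0x1eb3096000000006)) e e)))))))))))
 (c (a (nat_lit 0x19ecccacacaca5))
 (c z e
 (c z e
 (c z e
 (c z e
 (c z e
 (c z e
 (c z e
 (c (a (nat_lit 0x1089f20f69a76008)) e
 (c (a (nat_lit 0xe8b70a2c0000007)) e e)))))))))
 (c (a (nat_lit 0x202020205f44)) e
 (c z e
 (c z e
 (c z e
 (c z e
 (c z e
 (c (a (nat_lit 0x15141333717087)) e
 (c (a (nat_lit 0x152db2c842a124)) e
 (c (a (nat_lit 0xf32d2c1614224)) e e)))))))))))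
 (c (a (nat_lit 0x2040202021))
 (c (a (nat_lit 0x140e0c060e001))
 (c z e
 (c (a (nat_lit 0xc2e8c8b4d165488))
 (c (a (nat_lit 0x8cb88b326e0000009)) e e)
 (c z e
 (c (a (nat_lit 0x44ba9c1e7928027)) e
 (c z e
 (c (a (nat_lit 0x4adbacd290e00a7)) e
 (c z e
 (c (a (nat_lit 0x199866de3200007)) e
 (c (a (nat_lit 0x144bc96000000007)) e e)))))))))
 (c (b (nat_lit 0xa0a0a13ffe23))
 (c (a (nat_lit 0x869896c4fb13848))
 (c (a (nat_lit 0xd51d6060000000008)) e e)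
 (c z e
 (c z e
 (c z e
 (c (a (nat_lit 0xa35ca0bc9c3e328)) e e)))))
 (c z e
 (c z e
 (c z e
 (c (a (nat_lit 0x184ee60837fac4)) e
 (c z e
 (c (a (nat_lit 0x16ad3770a0005)) e
 (c (a (nat_lit 0x42f1463a242e4)) e
 (c (a (nat_lit 0x1131d1c90a8ea5)) e
 (c z e
 (c z e
 (c z e
 (c (a (nat_lit 0xc1f75e9a00005)) e
 (c (a (nat_lit 0x10662000000006)) e e)))))))))))))))
 (c (a (nat_lit 0x4040404041))
 (c (a (nat_lit 0x82848b3e84005))
 (c (a (nat_lit 0x3e1e5260a12caa7)) e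
 (c z e
 (c z e
 (c (a (nat_lit 0xb087f194a47eb87)) e
 (c (a (nat_lit 0x140fcda92889c2a7)) e e)))))
 (c z e
 (c z e
 (c (a (nat_lit 0xd2a406b526e45))
 (c z e
 (c (a (nat_lit 0xca7d54940000007)) e e))
 (c (a (nat_lit 0x10060a7214f0a5))
 (c (a (nat_lit 0xf7365a000000006)) e e)
 (c (a (nat_lit 0xd3096fb79d865)) e
 (c (a (nat_lit 0x14c37b2676984)) e
 (c (a (nat_lit 0x489e96201f5a5)) e
 (c (b (nat_lit 0x1cdc1b13d53fe5)) e
 (c z e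
 (c (a (nat_lit 0xae0b1e4644885)) e
 (c (a (nat_lit 0x2546403e3c005)) e
 (c (a (nat_lit 0x10212020000005)) e e)))))))))))))
 (c (a (nat_lit 0x20202001))
 (c (a (nat_lit 0x4a37408a4a4c5))
 (c (a (nat_lit 0x311136eeecbe4c7)) e e)
 (c z e
 (c z e
 (c (a (nat_lit 0x12040e7566b85)) e
 (c (b (nat_lit 0x1ffffffae2c024)) e
 (c (a (nat_lit 0x82b734d0a7306)) e
 (c (a (nat_lit 0x5cce7a2d08486)) e
 (c z e
 (c z e
 (c (b (nat_lit 0x1fe72460207a46)) e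
 (c (a (nat_lit 0x15eb24a2e00005)) e
 (c (a (nat_lit 0x1423a000000004)) e e))))))))))))
 (c (a (nat_lit 0x2020203705))
 (c z e
 (c (a (nat_lit 0xc0608087d2e6)) e
 (c (a (nat_lit 0x28282707ffdc5)) e
 (c z e
 (c (b (nat_lit 0x85ff590441fe6)) e
 (c z e
 (c z e
 (c z e
 (c (a (nat_lit 0x131887e7d9a006)) e
 (c (a (nat_lit 0x17602020000006)) e e))))))))))
 (c (a (nat_lit 0x20370925))
 (c (a (nat_lit 0x40403e3f3d3a4)) e
 (c (a (nat_lit 0x1e1c1c92af445)) e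
 (c (a (nat_lit 0xb4b495afecc84)) e
 (c z e
 (c z e
 (c (a (nat_lit 0x6888384c99787)) e
 (c (a (nat_lit 0x882c48e9a2327)) e
 (c (b (nat_lit 0x1fe563f5600006)) e
 (c (a (nat_lit 0x1c20e000000002)) e e)))))))))
 (c (a (nat_lit 0x310a48c6))
 (c (a (nat_lit 0x8484849112d85)) e
 (c z e
 (c z e
 (c (a (nat_lit 0x2e9052542f587)) e
 (c (a (nat_lit 0x303e224506a68)) e
 (c (a (nat_lit 0x2c207d2c26008)) e
 (c (a (nat_lit 0xccdf580000007)) e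
 (c (a (nat_lit 0x1c200000000002)) e e))))))))
 (c (a (nat_lit 0x110aa8c6a6))
 (c (a (nat_lit 0xa45d0f14e6e25)) e
 (c (b (nat_lit 0x1fe8ffea451d46)) e e))
 (c (a (nat_lit 0x1fd24ecb4025))
 (c (a (nat_lit 0x13607a74e09ba4)) e
 (c (a (nat_lit 0x44a47308721c7)) e e))
 (c (a (nat_lit 0x1953d72240c4))
 (c (a (nat_lit 0xa051567a24026)) e
 (c (a (nat_lit 0x857d3e1e00007)) e e))
 (c (a (nat_lit 0x10394d4d2d04))
 (c (a (nat_lit 0x1c7f2320000006)) e e)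
 (c (a (nat_lit 0x10adcdcdcda6)) e
 (c (a (nat_lit 0x2a140e0e101)) e
 (c (a (nat_lit 0x202032a4)) e
 (c (a (nat_lit 0x202052ac44)) e
 (c (a (nat_lit 0xa6b5270abe5)) e
 (c (a (nat_lit 0x153c5a95d265)) e
 (c (a (nat_lit 0x11ebe2604044)) e
 (c (a (nat_lit 0x17a4a0404003)) e
 (c (a (nat_lit 0x112060808001)) e
 (c (a (nat_lit 0x181e0a00001)) e
 (c (a (nat_lit 0x18000000001)) e e))))))))))))))))))))))) Tr.c Tr.e (nat_lit 0) C.cx C.cy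
noncomputable def C517 : Tr := beta% (fun (c : Nat → Tr → Tr → Tr) (e : Tr) (z : Nat) (a b : Nat → Nat) =>
 (c (a (nat_lit 0x4040404041))
 (c (a (nat_lit 0x60770f0de943))
 (c z e
 (c (a (nat_lit 0x3a5304a496987a3)) e
 (c z e
 (c z e
 (c z e
 (c z e
 (c (a (nat_lit 0x9c9cdd114378703)) e
 (c z e
 (c z e
 (c z e
 (c (a (nat_lit 0x9450fa848887063)) e
 (c (a (nat_lit 0x366e6c9a3d05564)) e
 (c z e
 (c (a (nat_lit 0x80710db25800005)) e e))))))))))))))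
 (c (a (nat_lit 0x178512fa8a305))
 (c (a (nat_lit 0x79668096dca6a04))
 (c z e
 (c z e
 (c z e
 (c z e
 (c (a (nat_lit 0x194d6dac2a6eb0b187)) e e)))))
 (c z e
 (c z e
 (c (a (nat_lit 0xfd494b897f737c5))
 (c (a (nat_lit 0xdec0a2a2d8827ba68)) e
 (c z e
 (c (a (nat_lit 0x1b79d9fa7df4800008)) e e)))
 (c (a (nat_lit 0x10346c5247046)) e
 (c z e
 (c (a (nat_lit 0xaeaedac7dee5385)) e
 (c (a (nat_lit 0xa8d481bb2532805)) e
 (c (a (nat_lit 0x4434a2887e4de26)) e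
 (c (a (nat_lit 0x5924fb1a7e52ca5)) e e))))))))))
 (c z e
 (c (a (nat_lit 0x12517024848465))
 (c (a (nat_lit 0x247a35b6193a43)) e
 (c (a (nat_lit 0xceaecad8e117146))
 (c (a (nat_lit 0xcecca0bafeaf80b08)) e e)
 (c z e
 (c z e
 (c (a (nat_lit 0xa8e97b9d95a4025)) e
 (c (a (nat_lit 0x22283c44573e2a6)) e
 (c (a (nat_lit 0x549064a9e0a6306)) e
 (c z e
 (c z e
 (c (a (nat_lit 0x18730de800000005)) e e))))))))))
 (c (a (nat_lit 0x185624640403e4))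
 (c (a (nat_lit 0x101190d27e4f53a4)) e
 (c z e
 (c z e
 (c (a (nat_lit 0x64c662b6e18cda6)) e
 (c (a (nat_lit 0x3a14182d2a2c6a7)) e
 (c z e
 (c (a (nat_lit 0x21d58c6ec32266)) e
 (c (a (nat_lit 0xb026e8e0e00006)) e
 (c (a (nat_lit 0x106d470000000006)) e e)))))))))
 (c (a (nat_lit 0x19adedcdcdada3))
 (c (a (nat_lit 0x889326f29ab1665)) e
 (c z e
 (c (a (nat_lit 0x118ac68abd8a8f45)) e
 (c (a (nat_lit 0x2c1c25326c427c7)) e
 (c (b (nat_lit 0x3ff2c661636687)) e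
 (c (a (nat_lit 0xa39b34db24b0006)) e
 (c (a (nat_lit 0x1f982928a0000005)) e e)))))))
 (c (a (nat_lit 0x1816141617343))
 (c (a (nat_lit 0x141543e3ec8627c6)) e
 (c (a (nat_lit 0x11c140aba74c61a6)) e
 (c (a (nat_lit 0x121924345a363e7)) e
 (c (a (nat_lit 0xd1e10141e0e047)) e
 (c (a (nat_lit 0x17a92ff085a00006)) e e)))))
 (c (a (nat_lit 0x606062b274a3))
 (c z e
 (c (a (nat_lit 0x29fa14624e243e6)) e
 (c (a (nat_lit 0x1062220141a1c007)) e e)))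
 (c (a (nat_lit 0x6262b5b9b0f03))
 (c (a (nat_lit 0x1dc404852623a286)) e e)
 (c (a (nat_lit 0x72c557c704743)) e
 (c (a (nat_lit 0x9aed34bc02004)) e
 (c (a (nat_lit 0x1e9fd607436063)) e
 (c (a (nat_lit 0x151030270706c4)) e
 (c (a (nat_lit 0x1136781817d7c4)) e
 (c (a (nat_lit 0xccd6c6aabed21)) e
 (c (a (nat_lit 0x201c161c27d23)) e
 (c (a (nat_lit 0x241e2431ded23)) e
 (c (a (nat_lit 0x9ca0a17278004)) e e))))))))))))))))))
 (c (a (nat_lit 0x20202001))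
 (c (a (nat_lit 0x122d6c04e0a0a6))
 (c (a (nat_lit 0x12c4e56d28888844))
 (c z e
 (c (a (nat_lit 0xdf08ec5a50261e228)) e
 (c (a (nat_lit 0x15b48d2e68a686ea48)) e
 (c (a (nat_lit 0x172dc66bc5242f09a7)) e
 (c z e
 (c (a (nat_lit 0x116fae2e2baf758d08)) e e))))))
 (c (a (nat_lit 0xb4eb333b210d0c6))
 (c (a (nat_lit 0x19d88d8844c301ce88))
 (c (a (nat_lit 0x1434738f22a00000000a)) e e)
 (c (a (nat_lit 0x1e52324bc8484f29a9)) e
 (c (a (nat_lit 0x130f6fee09b1ea2d69)) e e)))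
 (c (a (nat_lit 0x13b0b3522f6f6fc6))
 (c (a (nat_lit 0x19fb9570aff6d07bc8)) e e)
 (c (a (nat_lit 0xc0420201417067)) e
 (c (a (nat_lit 0x4054748e6721f27)) e
 (c (a (nat_lit 0x8452f5952308a27)) e
 (c z e
 (c z e
 (c (a (nat_lit 0x30e0c7188b49606)) e
 (c (a (nat_lit 0xd3177a96d66e266)) e
 (c (a (nat_lit 0xc904679a6e14026)) e
 (c (a (nat_lit 0x14d87b081600006)) e e))))))))))))
 (c z e
 (c (a (nat_lit 0x10ae0666666667))
 (c (a (nat_lit 0xa8ccccced31dcc7)) e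
 (c z e
 (c z e
 (c z e
 (c z e
 (c z e
 (c z e
 (c z e
 (c (a (nat_lit 0x19d7b6ed83800007)) e e)))))))))
 (c (a (nat_lit 0x1df1b191917165))
 (c z e
 (c z e
 (c z e
 (c z e
 (c z e
 (c z e
 (c (a (nat_lit 0x8d11c5709a3e007)) e
 (c (a (nat_lit 0x12ababa3c0000007)) e e))))))))
 (c (a (nat_lit 0xa0a0a080bf45))
 (c (a (nat_lit 0x1210512bb34e9868)) e
 (c z e
 (c z e
 (c z e
 (c (a (nat_lit 0x4f3888483a42289)) e
 (c (a (nat_lit 0xdfd0fcc47200007)) e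
 (c (a (nat_lit 0x12a9424000000007)) e e)))))))
 (c (a (nat_lit 0x202026f846e6))
 (c z e
 (c z e
 (c z e
 (c z e
 (c (a (nat_lit 0x1d4ecf89e0000007)) e e)))))
 (c (a (nat_lit 0x60619226e606))
 (c (a (nat_lit 0x212a669650261e7)) e
 (c (a (nat_lit 0x112043a300602029)) e e))
 (c z e
 (c (a (nat_lit 0x19e0cebe3c005)) e
 (c (a (nat_lit 0x180f6e2540c0a6)) e
 (c (a (nat_lit 0x10108b6361e105)) e
 (c z e
 (c (a (nat_lit 0x11b7f7f7d7f805)) e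
 (c (a (nat_lit 0xe08061021803)) e
 (c (a (nat_lit 0x402040922fa5)) e e)))))))))))))))
 C516))) Tr.c Tr.e (nat_lit 0) C.cx C.cy
noncomputable def C519 : Tr := beta% (fun (c : Nat → Tr → Tr → Tr) (e : Tr) (z : Nat) (a b : Nat → Nat) =>
 (c (nat_lit 1)
 (c (a (nat_lit 0x202021))
 (c (a (nat_lit 0x2040407664)) e
 (c (a (nat_lit 0x20204a19c6)) e
 (c (a (nat_lit 0x3838e2e3108)) e
 (c (a (nat_lit 0x68f920c6988)) e
 (c (a (nat_lit 0x18335e6b4927)) e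
 (c (a (nat_lit 0x155871259627)) e
 (c (a (nat_lit 0x1086e080e006)) e
 (c (a (nat_lit 0x1aa020000004)) e e))))))))
 (c (a (nat_lit 0x20203ac5))
 (c (a (nat_lit 0x24579c66)) e
 (c z e
 (c z e
 (c (a (nat_lit 0xc1df0c936c8)) e
 (c (a (nat_lit 0x147bf3921ac8)) e
 (c (a (nat_lit 0x186f81e00005)) e
 (c (a (nat_lit 0x1d0000000004)) e e)))))))
 (c (a (nat_lit 0xf957aeea6)) e
 (c (a (nat_lit 0xf97102de7))
 (c z e
 (c (a (nat_lit 0xa6e0c784169)) e e))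
 (c (a (nat_lit 0x1ccd002045))
 (c (a (nat_lit 0xb345b03e008)) e e)
 (c (a (nat_lit 0xb55bb3b26)) e
 (c (a (nat_lit 0x3232001)) e
 (c (a (nat_lit 0xc0c0e0a1)) e
 (c (a (nat_lit 0x1a7a602424)) e
 (c (a (nat_lit 0x15353735c5)) e
 (c z e
 (c (a (nat_lit 0x184bc28181)) e
 (c (a (nat_lit 0xa602060e1)) e
 (c (a (nat_lit 0x40c141)) e
 (c (a (nat_lit 0x204041)) e
 (c (a (nat_lit 0x200001)) e e))))))))))))))))
 (c (nat_lit 1)
 (c (a (nat_lit 0x205e0024))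
 (c (a (nat_lit 0x2df18f65)) e
 (c z e
 (c z e
 (c (a (nat_lit 0xea8462cf128)) e
 (c (a (nat_lit 0x1c240cb90007)) e e)))))
 (c (a (nat_lit 0xed54e0ee7))
 (c (a (nat_lit 0x129838318048)) e e)
 (c z e
 (c (a (nat_lit 0xb3bdbdba5))
 (c (a (nat_lit 0x19f983e00008)) e e)
 (c (a (nat_lit 0x1838383826)) e
 (c (a (nat_lit 0x36221e001)) e
 (c (a (nat_lit 0x1cbca04024)) e
 (c (a (nat_lit 0xdcdedf2a5)) e
 (c z e
 (c (a (nat_lit 0x1b3c75f5c4)) e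
 (c (a (nat_lit 0x1ac0c08002)) e
 (c (a (nat_lit 0x24180e021)) e
 (c (a (nat_lit 0x180c08001)) e
 (c (a (nat_lit 0x1a0a06001)) e
 (c (a (nat_lit 0x40000001)) e e)))))))))))))))
 (c (a (nat_lit 0x202021))
 (c (b (nat_lit 0x15bfe04024))
 (c (a (nat_lit 0x1a5fbee02026)) e
 (c (a (nat_lit 0xa74478220e8)) e
 (c (a (nat_lit 0x1f3f7b602007)) e e)))
 (c (a (nat_lit 0x12ba1a1a03))
 (c (a (nat_lit 0x102202a0e088)) e
 (c (a (nat_lit 0x1e1ea1400007)) e e))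
 (c (a (nat_lit 0x818260a1))
 (c (a (nat_lit 0x130020000008)) e e)
 (c (a (nat_lit 0x14545440a4)) e
 (c (a (nat_lit 0x40405863)) e
 (c (a (nat_lit 0x1a9a9cbf25)) e
 (c z e
 (c (a (nat_lit 0x159c52b284)) e
 (c (a (nat_lit 0x14a0a06043)) e
 (c (a (nat_lit 0x1a0a04581)) e
 (c (a (nat_lit 0x220a08021)) e
 (c (a (nat_lit 0x1e0408021)) e
 (c (a (nat_lit 0x40600001)) e e)))))))))))))
 (c (nat_lit 1)
 (c (a (nat_lit 0x406021))
 (c (a (nat_lit 0x123e41e0a002)) e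
 (c (a (nat_lit 0x1d0040000006)) e e))
 (c (a (nat_lit 0xe1210041))
 (c (a (nat_lit 0xb2000000001)) e e)
 (c (a (nat_lit 0xe8e803f64)) e
 (c (a (nat_lit 0x1cdf5b5e6)) e
 (c z e
 (c (a (nat_lit 0x1c7d9c39a4)) e
 (c (a (nat_lit 0x1ab6f64003)) e
 (c (a (nat_lit 0x16a0a0e021)) e
 (c (a (nat_lit 0x1c1c10001)) e
 (c (a (nat_lit 0x28100c021)) e
 (c (a (nat_lit 0xe0804001)) e
 (c (a (nat_lit 0xe0000001)) e e))))))))))))
 (c (nat_lit 1)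
 (c (a (nat_lit 0x282a05f23)) e
 (c z e
 (c z e
 (c (a (nat_lit 0x1cfd3cdca6)) e
 (c (a (nat_lit 0x1655f5c786)) e
 (c (a (nat_lit 0x10c0612002)) e
 (c (a (nat_lit 0x240e14341)) e
 (c (a (nat_lit 0x624361)) e
 (c (a (nat_lit 0x628161)) e
 (c (a (nat_lit 0x200001)) e e))))))))))
 (c (a (nat_lit 0x202021))
 (c z e
 (c (a (nat_lit 0x1212121208)) e
 (c (a (nat_lit 0x9c1212041)) e
 (c (a (nat_lit 0x160e08321)) e
 (c (a (nat_lit 0x80a08121)) e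
 (c (a (nat_lit 0x60a06021)) e
 (c (a (nat_lit 0xa0402021)) e
 (c (a (nat_lit 0xa0a06001)) e
 (c (a (nat_lit 0x60000001)) e e)))))))))
 (c (nat_lit 1)
 (c (a (nat_lit 0x1a19798044)) e
 (c (a (nat_lit 0x100a2e1)) e
 (c (a (nat_lit 0x61e301)) e
 (c (a (nat_lit 0x404081)) e
 (c (a (nat_lit 0x2060c0c1)) e
 (c (a (nat_lit 0x60a081)) e
 (c (a (nat_lit 0x400001)) e e)))))))
 (c (a (nat_lit 0x202021))
 (c (a (nat_lit 0x20202021)) e
 (c (a (nat_lit 0x20202021)) e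
 (c (a (nat_lit 0x20202021)) e
 (c (a (nat_lit 0x20202021)) e
 (c (a (nat_lit 0x20202001)) e
 (c (a (nat_lit 0x20000001)) e e))))))
 (c (a (nat_lit 0x202021))
 (c (a (nat_lit 0x20202021)) e
 (c (a (nat_lit 0x20202021)) e
 (c (a (nat_lit 0x20202021)) e
 (c (a (nat_lit 0x20200001)) e e))))
 (c (a (nat_lit 0x202021))
 (c (a (nat_lit 0x20202021)) e
 (c (a (nat_lit 0x20202001)) e
 (c (a (nat_lit 0x20000001)) e e)))
 (c (a (nat_lit 0x202021))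
 (c (a (nat_lit 0x20200001)) e e)
 (c (a (nat_lit 0x202021)) e
 (c (a (nat_lit 0x202021)) e
 (c (a (nat_lit 0x202021)) e
 (c (a (nat_lit 0x202021)) e
 (c (a (nat_lit 0x202021)) e
 (c (a (nat_lit 0x202021)) e
 (c (a (nat_lit 0x200001)) e
 (c (a (nat_lit 0x203c05)) e
 (c z e
 (c (a (nat_lit 0x1c094005)) e
 (c (a (nat_lit 0x12800024)) e
 (c (a (nat_lit 0x61)) e
 (c (a (nat_lit 0x4001)) e e))))))))))))))))))))))))) Tr.c Tr.e (nat_lit 0) C.cx C.cy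
noncomputable def C520 : Tr := beta% (fun (c : Nat → Tr → Tr → Tr) (e : Tr) (z : Nat) (a b : Nat → Nat) =>
 (c (nat_lit 1)
 (c (a (nat_lit 0x20202021))
 (c (a (nat_lit 0x61214261))
 (c (a (nat_lit 0x202025631786)) e
 (c (a (nat_lit 0x48b157e66c026)) e
 (c z e
 (c (a (nat_lit 0x6241db2e6c027)) e
 (c (a (nat_lit 0x214abe7c04048)) e
 (c (a (nat_lit 0x1f5582c0e02007)) e
 (c (a (nat_lit 0x16836260000007)) e
 (c (a (nat_lit 0x14400000000004)) e e))))))))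
 (c (a (nat_lit 0x68688b226))
 (c z e
 (c z e
 (c z e
 (c z e
 (c (a (nat_lit 0x1d741907e00006)) e
 (c (a (nat_lit 0x1356000000005)) e e))))))
 (c (a (nat_lit 0x3c3c3f1a506)) e
 (c (a (nat_lit 0x7eeb14acaa4))
 (c (a (nat_lit 0x36b268b20aa6)) e
 (c (a (nat_lit 0x1e5b84ee600005)) e e))
 (c (a (nat_lit 0xab280a08063))
 (c (a (nat_lit 0x148420a0000004)) e e)
 (c (a (nat_lit 0x1540604040c3)) e
 (c (a (nat_lit 0x443e0203206)) e
 (c (a (nat_lit 0xa0eff47128)) e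
 (c z e
 (c z e
 (c (a (nat_lit 0x17eda1604a86)) e
 (c (a (nat_lit 0x1a026034b4c5)) e
 (c (a (nat_lit 0xa100c1c001)) e
 (c (a (nat_lit 0x20000001)) e e))))))))))))))
 (c (a (nat_lit 0x20404041))
 (c z e
 (c z e
 (c (a (nat_lit 0x4c333131326))
 (c (a (nat_lit 0xc51ef729a006)) e
 (c (a (nat_lit 0x7f511a0000006)) e e))
 (c (b (nat_lit 0x154f8fe05fe5))
 (c (a (nat_lit 0x19c80000000005)) e e)
 (c z e
 (c (b (nat_lit 0x33fff0e7)) e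
 (c z e
 (c z e
 (c (a (nat_lit 0x1116f6ace428)) e
 (c (a (nat_lit 0x1957e0581406)) e
 (c (a (nat_lit 0x2a0e240a1)) e
 (c (a (nat_lit 0x181c1600001)) e
 (c (a (nat_lit 0x2000000001)) e e)))))))))))))
 (c (nat_lit 1)
 (c (a (nat_lit 0x132ec0c0c0a2))
 (c (a (nat_lit 0x11844123a0a0c4)) e
 (c (a (nat_lit 0x1146628120a005)) e
 (c (a (nat_lit 0x1f919020000005)) e e)))
 (c (a (nat_lit 0x1d020321e2a2))
 (c (a (nat_lit 0x146cb0a0a00005)) e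
 (c (a (nat_lit 0x17b02000000005)) e e))
 (c (a (nat_lit 0xfcfc0405505))
 (c (a (nat_lit 0x1fe00000000003)) e e)
 (c (a (nat_lit 0xc0c7ecf127)) e
 (c (a (nat_lit 0x28a0dcef728)) e
 (c z e
 (c z e
 (c z e
 (c (a (nat_lit 0x184f01a02c67)) e
 (c (a (nat_lit 0x1d83004f6006)) e
 (c (a (nat_lit 0x2100000001)) e e)))))))))))
 (c (a (nat_lit 0x2001))
 (c (a (nat_lit 0xf6fa0405604))
 (c (a (nat_lit 0x174fe800000004)) e
 (c (a (nat_lit 0x1f600000000002)) e e))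
 (c (a (nat_lit 0x20204911c6)) e
 (c (a (nat_lit 0x3cb2f732fa7)) e
 (c z e
 (c z e
 (c z e
 (c z e
 (c (b (nat_lit 0x1ff56f50ef25)) e
 (c (a (nat_lit 0x156eef600005)) e
 (c (nat_lit 1) e e))))))))))
 (c (a (nat_lit 0x202021))
 (c (a (nat_lit 0x6067314905)) e
 (c z e
 (c z e
 (c z e
 (c z e
 (c (a (nat_lit 0xe2e3089c3e9)) e
 (c (b (nat_lit 0x1ffa6f810005)) e
 (c (a (nat_lit 0x150040000004)) e e))))))))
 (c (a (nat_lit 0x40404041))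
 (c (a (nat_lit 0x10d550606066)) e
 (c (a (nat_lit 0xd88e6c55566)) e
 (c z e
 (c z e
 (c (a (nat_lit 0xf0e5daae727)) e
 (c (b (nat_lit 0x1ff2a0200006)) e e))))))
 (c (a (nat_lit 0x20203786))
 (c (a (nat_lit 0xbe4c4c11f84)) e
 (c (a (nat_lit 0x20911190c7)) e e))
 (c (a (nat_lit 0x20d9db06))
 (c (a (nat_lit 0x181e801be88)) e e)
 (c (a (nat_lit 0xc2f906dc8)) e
 (c (a (nat_lit 0xf126aa006)) e
 (c (a (nat_lit 0x1fd83325e6)) e
 (c (a (nat_lit 0x10ec002006)) e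
 (c (a (nat_lit 0x13c0202024)) e
 (c (a (nat_lit 0x40a080c1)) e
 (c (a (nat_lit 0x2062a1)) e
 (c (a (nat_lit 0x20205bc5)) e
 (c z e
 (c (a (nat_lit 0xb5d81a1a2)) e
 (c (a (nat_lit 0x1c406060c2)) e
 (c (a (nat_lit 0x202001)) e
 (c (a (nat_lit 0x20000001)) e e)))))))))))))))))))))
 (c (a (nat_lit 0x202021))
 (c (a (nat_lit 0x20202021))
 (c (a (nat_lit 0x737d7173724))
 (c (b (nat_lit 0x19ffe4932c6da5)) e
 (c (a (nat_lit 0x3324f09668685)) e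
 (c (b (nat_lit 0x8efff8b9c443)) e e)))
 (c (a (nat_lit 0x1320808080a3))
 (c (a (nat_lit 0x1a00a080604046)) e
 (c (a (nat_lit 0xd03020e08005)) e
 (c (a (nat_lit 0x505040000004)) e e)))
 (c (a (nat_lit 0xc2a18161))
 (c z e
 (c (a (nat_lit 0x1a6fe000000004)) e e))
 (c (a (nat_lit 0x1fbfa0606003))
 (c (a (nat_lit 0x1f800000000002)) e e)
 (c (a (nat_lit 0xa080809e23)) e
 (c (a (nat_lit 0x202f339367)) e
 (c z e
 (c z e
 (c (a (nat_lit 0x10104dac8008)) e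
 (c (a (nat_lit 0x166080533305)) e
 (c (a (nat_lit 0x3c2a2a08001)) e
 (c (a (nat_lit 0x2a1a0000001)) e e))))))))))))
 (c (a (nat_lit 0x60604041))
 (c (a (nat_lit 0x2e123a26261))
 (c (a (nat_lit 0x13c10120e0c044)) e
 (c (a (nat_lit 0x16707080a00005)) e e))
 (c (a (nat_lit 0x1f3f60808064))
 (c (a (nat_lit 0x166fe820000005)) e
 (c (a (nat_lit 0x1fc00000000003)) e e))
 (c (a (nat_lit 0x4040405be5)) e
 (c (a (nat_lit 0x202026dfa7)) e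
 (c (a (nat_lit 0x2a82eb3b6e8)) e
 (c z e
 (c z e
 (c (a (nat_lit 0x1392902421e9)) e
 (c (a (nat_lit 0x1905e06d6d66)) e
 (c (a (nat_lit 0xe8480600001)) e
 (c (a (nat_lit 0x4c000000001)) e e)))))))))))
 (c (a (nat_lit 0x80606041))
 (c (a (nat_lit 0x20203045)) e
 (c (a (nat_lit 0x4020781e25)) e
 (c (a (nat_lit 0x5052a93d527)) e
 (c z e
 (c z e
 (c z e
 (c (a (nat_lit 0xc8b3260a128)) e
 (c (a (nat_lit 0x13406d822005)) e
 (c (a (nat_lit 0x131a80000004)) e e)))))))))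
 (c (a (nat_lit 0x20000021))
 (c (a (nat_lit 0x406f937e64)) e
 (c z e
 (c z e
 (c z e
 (c z e
 (c (a (nat_lit 0x157732c62b28)) e
 (c (a (nat_lit 0x1cba50000005)) e
 (c (a (nat_lit 0x146000000004)) e e))))))))
 (c (a (nat_lit 0x20201807))
 (c (b (nat_lit 0x1ff7a92050c5)) e
 (c (a (nat_lit 0x7e9f91c1a07)) e
 (c z e
 (c z e
 (c (a (nat_lit 0xa78a0866006)) e
 (c (a (nat_lit 0x1a8060000005)) e e))))))
 (c (a (nat_lit 0x184c87))
 (c (a (nat_lit 0x6867231dce7)) e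
 (c z e
 (c z e
 (c (a (nat_lit 0x353e8800008)) e e))))
 (c (a (nat_lit 0x93b1b92c7)) e
 (c z e
 (c (a (nat_lit 0x1a71202005)) e
 (c (a (nat_lit 0x188c202025)) e
 (c (a (nat_lit 0x11e0204084)) e
 (c (a (nat_lit 0xc04161)) e
 (c (a (nat_lit 0x20203144)) e
 (c (a (nat_lit 0x28b2a5)) e
 (c z e
 (c (a (nat_lit 0x1f636160e2)) e
 (c (a (nat_lit 0x5a02080a1)) e
 (c (a (nat_lit 0xa06061)) e
 (c (a (nat_lit 0xa0400001)) e e)))))))))))))))))))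
 (c (a (nat_lit 0x202021))
 (c (a (nat_lit 0x20202021))
 (c (a (nat_lit 0x1820060a0e1)) e
 (c (a (nat_lit 0x10222a301)) e
 (c (a (nat_lit 0x20202031e7)) e
 (c (a (nat_lit 0x2020391247)) e
 (c (a (nat_lit 0x505177df887)) e
 (c (a (nat_lit 0xcb1300a0489)) e
 (c (a (nat_lit 0x1af85b48ea28)) e
 (c (a (nat_lit 0x13524ce50508)) e
 (c (a (nat_lit 0x18a2c1606004)) e
 (c (a (nat_lit 0x1560c0000001)) e e))))))))))
 (c (a (nat_lit 0x40402021))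
 (c (a (nat_lit 0x20202030a6)) e
 (c (a (nat_lit 0x2020313007)) e
 (c (a (nat_lit 0x2c2cef22b48)) e
 (c z e
 (c (a (nat_lit 0xf95d2a78889)) e
 (c z e
 (c (a (nat_lit 0x1bb66c086667)) e
 (c (a (nat_lit 0x19cd60c00005)) e
 (c (a (nat_lit 0x1a8000000004)) e e)))))))))
 (c (a (nat_lit 0x41))
 (c (a (nat_lit 0x203189da06)) e
 (c z e
 (c z e
 (c z e
 (c z e
 (c (a (nat_lit 0x1c1131b12007)) e
 (c (a (nat_lit 0x1c6e80000005)) e e)))))))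
 (c (a (nat_lit 0x3bf085))
 (c (a (nat_lit 0xd6aeb30d227)) e
 (c (a (nat_lit 0xed2329798c8)) e
 (c z e
 (c (a (nat_lit 0xff414933268)) e
 (c (a (nat_lit 0x114dad600007)) e
 (c (a (nat_lit 0x1b8000000005)) e e))))))
 (c (a (nat_lit 0xefd5cafa6))
 (c (a (nat_lit 0xf71f9fd2c27)) e
 (c z e
 (c z e
 (c (a (nat_lit 0x1e4fe0000007)) e e))))
 (c (a (nat_lit 0xe524ccb48))
 (c (a (nat_lit 0xd38fd5f45e8)) e e)
 (c (a (nat_lit 0x14d3763627)) e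
 (c (a (nat_lit 0xaf0101006)) e
 (c (a (nat_lit 0x40a1c0e1)) e
 (c (a (nat_lit 0xa0a04001)) e
 (c (a (nat_lit 0x20c5c1)) e
 (c (a (nat_lit 0x1898b95bc4)) e
 (c z e
 (c (a (nat_lit 0x1514943426)) e
 (c (a (nat_lit 0xb80406041)) e
 (c (a (nat_lit 0x8040e1)) e
 (c (a (nat_lit 0x4001)) e
 (c (a (nat_lit 0x20000001)) e e))))))))))))))))))
 C519)))) Tr.c Tr.e (nat_lit 0) C.cx C.cy
noncomputable def C521 : Tr := beta% (fun (c : Nat → Tr → Tr → Tr) (e : Tr) (z : Nat) (a b : Nat → Nat) =>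
 (c (nat_lit 1)
 (c (a (nat_lit 0x42431d35226))
 (c (b (nat_lit 0xa28901e1fffe5))
 (c z e
 (c (a (nat_lit 0x7fc078923e6c7)) e
 (c z e
 (c (a (nat_lit 0x1d522ba88cd3c847)) e
 (c (a (nat_lit 0x14cf4e2f77a5a006)) e e)))))
 (c z e
 (c z e
 (c (a (nat_lit 0xac84121f0e9e8))
 (c (a (nat_lit 0x82d15c683800007)) e
 (c (a (nat_lit 0x891e34000000008)) e e))
 (c (a (nat_lit 0x840220e724d47))
 (c (a (nat_lit 0x1682c00000000006)) e e)
 (c z e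
 (c z e
 (c (a (nat_lit 0x12d1552b364366)) e
 (c (a (nat_lit 0x1b7b7c0bb4a8c6)) e
 (c z e
 (c (a (nat_lit 0xe4daef1f18008)) e
 (c (a (nat_lit 0x1e169800000006)) e e))))))))))))
 (c z e
 (c z e
 (c (a (nat_lit 0x1dfa39cb6846))
 (c (b (nat_lit 0x1ffc412122c028)) e
 (c (b (nat_lit 0x176560805fe348)) e
 (c z e
 (c z e
 (c (b (nat_lit 0x1fea4826b2e8c8)) e
 (c (b (nat_lit 0x1ff23156070388)) e e))))))
 (c (a (nat_lit 0x18c8e8e8cb66))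
 (c (b (nat_lit 0x168a07bfffed66)) e
 (c z e
 (c z e
 (c (a (nat_lit 0xea8277f046628)) e
 (c (b (nat_lit 0x5c2503fe12009)) e e)))))
 (c (a (nat_lit 0x189b1b1b1b06))
 (c (b (nat_lit 0x846853ff164a8)) e e)
 (c (a (nat_lit 0x1e26221a141))
 (c z e
 (c (b (nat_lit 0x42f7ff803e006)) e e))
 (c (a (nat_lit 0x20213665))
 (c (a (nat_lit 0x1f9a89e6400005)) e
 (c (a (nat_lit 0x19a84000000005)) e e))
 (c (a (nat_lit 0x80a0c540a86))
 (c (a (nat_lit 0x2a00000000001)) e e)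
 (c (a (nat_lit 0xe2f534cec87)) e
 (c (a (nat_lit 0xb2d2e4e3488)) e
 (c (a (nat_lit 0x6646e924bc8)) e
 (c (b (nat_lit 0x5acbc1fffe6)) e
 (c (a (nat_lit 0xe778f464427)) e
 (c (a (nat_lit 0x138920202dc7)) e
 (c (a (nat_lit 0x1240203b7f86)) e
 (c (a (nat_lit 0x203b8fe006)) e
 (c (a (nat_lit 0x7fe0000005)) e e))))))))))))))))))
 (c (a (nat_lit 0x20404021))
 (c (a (nat_lit 0x1f7c3b31a6e7))
 (c (a (nat_lit 0x12717a24e5ca27))
 (c (b (nat_lit 0x8ffe7f32c490167)) e e)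
 (c z e
 (c z e
 (c (a (nat_lit 0x9fb6e4876a367)) e
 (c (a (nat_lit 0x1fbbbe9e7028a7)) e
 (c z e
 (c z e
 (c z e
 (c (b (nat_lit 0x19ffff5e40009)) e e)))))))))
 (c z e
 (c z e
 (c (a (nat_lit 0x1d5919393924)) e
 (c (a (nat_lit 0xeaeaeaeba87))
 (c (b (nat_lit 0x5e27ff301a8a8)) e
 (c (b (nat_lit 0x89ffe8dade648)) e e))
 (c (a (nat_lit 0x5a5a5b13087))
 (c (a (nat_lit 0x14c9f429a08347)) e e)
 (c z e
 (c z e
 (c (a (nat_lit 0x17b4f2b23427)) e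
 (c z e
 (c z e
 (c z e
 (c (a (nat_lit 0x10f58c822a67)) e
 (c (a (nat_lit 0x162be0eb0b07)) e
 (c (a (nat_lit 0x1a0141618162)) e
 (c (a (nat_lit 0x1460200005)) e e))))))))))))))))
 (c (a (nat_lit 0x40402021))
 (c z e
 (c z e
 (c z e
 (c z e
 (c z e
 (c (a (nat_lit 0x226b0e3c2e6)) e
 (c z e
 (c z e
 (c z e
 (c z e
 (c z e
 (c z e
 (c (b (nat_lit 0x10bfe981a1a7)) e
 (c (a (nat_lit 0x10a960202007)) e
 (c (a (nat_lit 0x12a020000006)) e e)))))))))))))))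
 (c (a (nat_lit 0x40404041))
 (c (a (nat_lit 0x119333333a45))
 (c (a (nat_lit 0x7e928958220e7)) e
 (c (a (nat_lit 0x6e5d3a8245828)) e
 (c z e
 (c z e
 (c (a (nat_lit 0x1013d96827a008)) e
 (c (a (nat_lit 0x11c16320000006)) e e))))))
 (c (a (nat_lit 0x3232347b6e6))
 (c (a (nat_lit 0x3cf514cce45e8)) e
 (c z e
 (c z e
 (c (a (nat_lit 0xdf18daae00008)) e
 (c (a (nat_lit 0x15e98000000006)) e e)))))
 (c z e
 (c z e
 (c (a (nat_lit 0xe3598d7f5c6)) e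
 (c (a (nat_lit 0x9448d4cf947)) e
 (c z e
 (c z e
 (c (a (nat_lit 0x7ead00f9349)) e
 (c (a (nat_lit 0x8e223938628)) e
 (c z e
 (c (a (nat_lit 0x1b8c1e1e1e8)) e
 (c (a (nat_lit 0x16e020200008)) e
 (c (a (nat_lit 0xc000000001)) e e))))))))))))))
 (c (a (nat_lit 0x40404041))
 (c (a (nat_lit 0x5658abc0aa4))
 (c (a (nat_lit 0xd2151364e2386)) e
 (c z e
 (c z e
 (c (a (nat_lit 0x11ca6440000007)) e
 (c (a (nat_lit 0x1d800000000004)) e e)))))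
 (c (a (nat_lit 0x9109eac48e5))
 (c (b (nat_lit 0x1ffff25feac1c7)) e
 (c (a (nat_lit 0x934ed0a600008)) e e))
 (c (a (nat_lit 0xc73a8c80b26))
 (c (a (nat_lit 0x15eee7e0000006)) e e)
 (c (a (nat_lit 0xa648ccfd3a7)) e
 (c (a (nat_lit 0x6adf35871e7)) e
 (c (a (nat_lit 0x11159650cf28)) e
 (c (a (nat_lit 0x1b5afd1ad268)) e
 (c (a (nat_lit 0xdad19353668)) e
 (c (a (nat_lit 0x67f0948026)) e
 (c (a (nat_lit 0xc72ae8888a7)) e
 (c (a (nat_lit 0x144c00202006)) e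
 (c (a (nat_lit 0x172080000005)) e e))))))))))))
 (c (nat_lit 1)
 (c (a (nat_lit 0x42ac1407365))
 (c (a (nat_lit 0x28505240a004)) e
 (c (a (nat_lit 0xdf0ea40000006)) e e))
 (c (a (nat_lit 0x1388ca2df486))
 (c (a (nat_lit 0x11e7e000000006)) e e)
 (c z e
 (c (a (nat_lit 0xc15553225a7)) e
 (c (a (nat_lit 0x185874d00127)) e
 (c z e
 (c z e
 (c z e
 (c (a (nat_lit 0x15155a8e4dc6)) e
 (c (a (nat_lit 0xa7fe0c00005)) e e))))))))))
 (c (a (nat_lit 0x21))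
 (c (a (nat_lit 0x8ac2877ac45))
 (c (a (nat_lit 0x1e400000000002)) e e)
 (c (a (nat_lit 0x11b53bb5c847)) e
 (c z e
 (c (a (nat_lit 0x17b41889eb27)) e
 (c z e
 (c (a (nat_lit 0x1013110f428)) e
 (c (a (nat_lit 0xb310b90f567)) e e)))))))
 (c (nat_lit 1)
 (c (a (nat_lit 0x161b55606006)) e
 (c (a (nat_lit 0x1ecff009cf25)) e
 (c z e
 (c (a (nat_lit 0x1c9c9f4c6686)) e
 (c (b (nat_lit 0x1fe027279708)) e
 (c (a (nat_lit 0x6e927b80708)) e e))))))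
 (c (a (nat_lit 0x40404021))
 (c (a (nat_lit 0x120a0d55462)) e
 (c (a (nat_lit 0x65e61385)) e
 (c (a (nat_lit 0x5c72582fb47)) e
 (c (a (nat_lit 0x2224552f1c8)) e e))))
 (c (a (nat_lit 0x40402021))
 (c (a (nat_lit 0x16173aa24)) e e)
 (c (a (nat_lit 0x20203305))
 (c z e
 (c (b (nat_lit 0x1ffb71342007)) e
 (c (a (nat_lit 0x1c8420000007)) e e)))
 (c (a (nat_lit 0x9965))
 (c (a (nat_lit 0x1f282e400005)) e
 (c (a (nat_lit 0x150000000006)) e e))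
 (c (a (nat_lit 0x6f47ab667)) e
 (c (a (nat_lit 0x1012b10c28)) e
 (c (a (nat_lit 0x108aca22e7)) e
 (c (a (nat_lit 0x1f80402025)) e
 (c (a (nat_lit 0x60403523)) e
 (c (a (nat_lit 0xa08041)) e
 (c (a (nat_lit 0xa120e1)) e
 (c (a (nat_lit 0x2034c5)) e
 (c z e
 (c (a (nat_lit 0x898e5c445)) e
 (c (a (nat_lit 0x14e1c02005)) e
 (c (a (nat_lit 0x19a0000001)) e e))))))))))))))))))))))))) Tr.c Tr.e (nat_lit 0) C.cx C.cy
noncomputable def C522 : Tr := beta% (fun (c : Nat → Tr → Tr → Tr) (e : Tr) (z : Nat) (a b : Nat → Nat) =>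
 (c (a (nat_lit 0x20202021))
 (c (a (nat_lit 0x20203cf1a7))
 (c (b (nat_lit 0x38d279dbfffe5))
 (c (a (nat_lit 0x9e9cd32f8332a27)) e
 (c z e
 (c z e
 (c (a (nat_lit 0x1932b02de9672a49)) e
 (c (a (nat_lit 0x19b0502c29696088)) e e)))))
 (c z e
 (c z e
 (c (a (nat_lit 0x103754e9a028a8))
 (c (a (nat_lit 0x12edab4d8bc78009)) e
 (c (a (nat_lit 0x1bc9b84760000008)) e e))
 (c (b (nat_lit 0x1ccb00c49fe5e7))
 (c (a (nat_lit 0x127f490000000004)) e e)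
 (c z e
 (c z e
 (c (b (nat_lit 0x1fef4e11c91f67)) e
 (c (a (nat_lit 0xe71ed509295a7)) e
 (c z e
 (c z e
 (c (a (nat_lit 0x951360e200008)) e
 (c (a (nat_lit 0x10e84000000008)) e e)))))))))))))
 (c (a (nat_lit 0x324ae9e9)) e
 (c z e
 (c (a (nat_lit 0x1674b46f0d49))
 (c (a (nat_lit 0x9dd394a47ed29)) e
 (c (a (nat_lit 0x1ab90884874b89)) e
 (c z e
 (c z e
 (c (a (nat_lit 0x5a5b2f88e7169)) e
 (c (a (nat_lit 0x90974332d6dca)) e e))))))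
 (c (a (nat_lit 0x1271506cc568))
 (c (a (nat_lit 0x19110a05c9aa47)) e
 (c z e
 (c z e
 (c (a (nat_lit 0xcdeb9783a57c8)) e
 (c (a (nat_lit 0xc749a98742b09)) e e)))))
 (c z e
 (c z e
 (c (a (nat_lit 0x60d0cecf324))
 (c (a (nat_lit 0x15aa2b29222006)) e
 (c (a (nat_lit 0x791c740000006)) e e))
 (c (a (nat_lit 0x20263206))
 (c (a (nat_lit 0x1e614000000003)) e e)
 (c z e
 (c z e
 (c (a (nat_lit 0x4cb0e51db67)) e
 (c (a (nat_lit 0x12a6edbc9f66)) e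
 (c z e
 (c (a (nat_lit 0x41c14362f66)) e
 (c (b (nat_lit 0x1b3fe0402005)) e
 (c (a (nat_lit 0x3e243e3c1)) e
 (c (b (nat_lit 0x1fe0e1400001)) e
 (c (a (nat_lit 0x2000000001)) e e)))))))))))))))))))
 (c (a (nat_lit 0x202021))
 (c z e
 (c z e
 (c z e
 (c z e
 (c z e
 (c z e
 (c (a (nat_lit 0x20203c1366)) e
 (c z e
 (c z e
 (c z e
 (c z e
 (c z e
 (c z e
 (c z e
 (c z e
 (c (a (nat_lit 0x12340e001)) e
 (c (a (nat_lit 0xe260000001)) e e)))))))))))))))))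
 (c (a (nat_lit 0x20404041))
 (c (a (nat_lit 0x112e8d416146))
 (c (a (nat_lit 0xa9423628cc466))
 (c (a (nat_lit 0xd5db5be66000006)) e e)
 (c z e
 (c z e
 (c z e
 (c (a (nat_lit 0x63b0754879e7)) e e)))))
 (c z e
 (c z e
 (c z e
 (c z e
 (c z e
 (c z e
 (c z e
 (c z e
 (c z e
 (c (a (nat_lit 0xfdae0205487)) e
 (c (a (nat_lit 0x1b002074acc7)) e
 (c z e
 (c (b (nat_lit 0x1ff5dfe02005)) e
 (c (a (nat_lit 0x15c040200005)) e
 (c (a (nat_lit 0x2000000001)) e e))))))))))))))))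
 (c (a (nat_lit 0x60606061))
 (c (b (nat_lit 0x11a11fe02004))
 (c (a (nat_lit 0x5254446584a07)) e
 (c (a (nat_lit 0x1202214459908)) e
 (c z e
 (c z e
 (c (b (nat_lit 0x1160f29fe76008)) e
 (c (a (nat_lit 0xd150fad400008)) e e))))))
 (c (a (nat_lit 0x2040405165))
 (c (b (nat_lit 0x242cc68343fe8)) e
 (c z e
 (c z e
 (c (b (nat_lit 0x9557fe763a009)) e
 (c (b (nat_lit 0x1e9feb80000008)) e e)))))
 (c z e
 (c z e
 (c (a (nat_lit 0xe3b7ed3ad46)) e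
 (c (a (nat_lit 0xb6bf5723268)) e
 (c z e
 (c z e
 (c (a (nat_lit 0x363c1403309)) e
 (c (a (nat_lit 0x2e040744449)) e
 (c (a (nat_lit 0x2032c2c2a9)) e
 (c (b (nat_lit 0x1ff1a1a0a0a9)) e
 (c (a (nat_lit 0x112120202009)) e
 (c (a (nat_lit 0x10e040000005)) e e))))))))))))))
 (c (a (nat_lit 0x40404041))
 (c (a (nat_lit 0x4020693244))
 (c (a (nat_lit 0x2810573e7e1a6)) e
 (c z e
 (c z e
 (c (a (nat_lit 0x1b946e29400007)) e
 (c (a (nat_lit 0x136d6000000005)) e e)))))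
 (c z e
 (c z e
 (c (a (nat_lit 0xb8dd534d567)) e
 (c (a (nat_lit 0x131bbb799767)) e
 (c z e
 (c z e
 (c (a (nat_lit 0x8a6c6c03947)) e
 (c (a (nat_lit 0x2020364aa7)) e
 (c z e
 (c (a (nat_lit 0x8b6ebc38347)) e
 (c (a (nat_lit 0x162c86200007)) e e))))))))))))
 (c (nat_lit 1)
 (c (a (nat_lit 0x7ed7006e705))
 (c (b (nat_lit 0x1e392bbfea4225)) e
 (c (b (nat_lit 0x8991fed400006)) e e))
 (c (a (nat_lit 0x12d616f6f6e6))
 (c (a (nat_lit 0x1c4d29e0000006)) e e)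
 (c z e
 (c z e
 (c (a (nat_lit 0x175915320467)) e e)))))
 (c (a (nat_lit 0x20404041))
 (c (a (nat_lit 0x1336d7572745))
 (c (a (nat_lit 0x14084000000004)) e e)
 (c z e
 (c z e
 (c (a (nat_lit 0x142f8f81e1e7)) e
 (c z e
 (c z e
 (c (a (nat_lit 0x5a5a5869207)) e
 (c (a (nat_lit 0x706ebb20708)) e e))))))))
 (c (nat_lit 1)
 (c (a (nat_lit 0x1658d2206046)) e
 (c (a (nat_lit 0x1a896d678745)) e
 (c (a (nat_lit 0x18a684a2a2)) e
 (c (a (nat_lit 0x11f294740004)) e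
 (c (a (nat_lit 0x2020203f06)) e
 (c (a (nat_lit 0x8686691d448)) e e))))))
 (c (a (nat_lit 0x40404041))
 (c (a (nat_lit 0xc6161a1e001)) e
 (c (b (nat_lit 0x12c1c2447fe2)) e
 (c (b (nat_lit 0xc4edfe076c4)) e
 (c (a (nat_lit 0xd2dedeb5da7)) e e))))
 (c (a (nat_lit 0x60606041))
 (c (a (nat_lit 0x141a1605cc4)) e
 (c z e
 (c z e
 (c (a (nat_lit 0xb3b4e4e4006)) e
 (c (a (nat_lit 0x1aa0a0000005)) e e)))))
 (c (a (nat_lit 0x20202021))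
 (c z e
 (c (a (nat_lit 0x10924e01c409)) e
 (c (b (nat_lit 0x1ff081800001)) e
 (c (a (nat_lit 0x2000000001)) e e))))
 (c (a (nat_lit 0x8080a041))
 (c (b (nat_lit 0x1ff1c9c02006)) e
 (c (a (nat_lit 0x140000001)) e e))
 (c (a (nat_lit 0x203a3825))
 (c (a (nat_lit 0x2000000001)) e e)
 (c (a (nat_lit 0xcb9991447)) e
 (c (a (nat_lit 0x12f30e4767)) e
 (c (a (nat_lit 0x1582a02025)) e
 (c (a (nat_lit 0x1da0802002)) e
 (c (a (nat_lit 0xc83c04021)) e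
 (c (a (nat_lit 0x160e0a001)) e
 (c (a (nat_lit 0x20203084)) e
 (c (a (nat_lit 0x20287085)) e
 (c z e
 (c (a (nat_lit 0xa12402025)) e
 (c (a (nat_lit 0x1200200005)) e e))))))))))))))))))))))))) Tr.c Tr.e (nat_lit 0) C.cx C.cy
noncomputable def C523 : Tr := beta% (fun (c : Nat → Tr → Tr → Tr) (e : Tr) (z : Nat) (a b : Nat → Nat) =>
 (c (a (nat_lit 0x202021))
 (c (nat_lit 1)
 (c (a (nat_lit 0x6060606061))
 (c (b (nat_lit 0xeaececdf19fe3))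
 (c (a (nat_lit 0x10909353d2551e05))
 (c z e
 (c (a (nat_lit 0x7c8a606a8ad316de8)) e e))
 (c z e
 (c z e
 (c (a (nat_lit 0xe8c789f3db43687)) e
 (c (a (nat_lit 0x5ec79b9668b5487)) e
 (c z e
 (c (b (nat_lit 0xd9f218fd59fe7e6)) e
 (c (a (nat_lit 0x17262fcd26e12006)) e
 (c z e
 (c (a (nat_lit 0x190a800000000005)) e e))))))))))
 (c z e
 (c z e
 (c z e
 (c z e
 (c z e
 (c (a (nat_lit 0x10c120a2828185)) e
 (c (a (nat_lit 0x1efc9cdcbd7de5)) e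
 (c (a (nat_lit 0xf705030b15185)) e
 (c (a (nat_lit 0x21c222e37923)) e
 (c (a (nat_lit 0x787c84894a005)) e
 (c (a (nat_lit 0x7e9494a499467)) e
 (c (a (nat_lit 0x12f0f35679ad27)) e
 (c (a (nat_lit 0x13567ad2400006)) e
 (c (a (nat_lit 0x19114000000005)) e e)))))))))))))))
 (c (a (nat_lit 0x2020203f87))
 (c (a (nat_lit 0xa240a81cd9406))
 (c (a (nat_lit 0x8e8898cae334e09)) e
 (c z e
 (c z e
 (c z e
 (c (a (nat_lit 0x193731b4cf8703c9)) e e)))))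
 (c z e
 (c z e
 (c z e
 (c (a (nat_lit 0x125896754d2047))
 (c (a (nat_lit 0x192ec48820000007)) e e)
 (c z e
 (c z e
 (c (a (nat_lit 0xc6cecececf3e8)) e
 (c (a (nat_lit 0x76787272df187)) e
 (c z e
 (c z e
 (c (a (nat_lit 0x4084f91280008)) e
 (c (a (nat_lit 0xb510a00000008)) e e)))))))))))))
 (c (a (nat_lit 0x20203f88c7)) e
 (c (a (nat_lit 0x3af43227)) e
 (c (a (nat_lit 0x1cb5d48767)) e
 (c (a (nat_lit 0x18b4d3e901e7))
 (c (a (nat_lit 0xab20b8ae48527)) e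
 (c z e
 (c z e
 (c (a (nat_lit 0x8d71b7a419ee7)) e e))))
 (c (b (nat_lit 0x10ad2da05fe6))
 (c z e
 (c z e
 (c z e
 (c z e
 (c (a (nat_lit 0x2d36341c00008)) e e)))))
 (c (a (nat_lit 0x1dbeb4d4d466))
 (c z e
 (c z e
 (c z e
 (c (a (nat_lit 0x114163a0000007)) e e))))
 (c (a (nat_lit 0x197373537346))
 (c (a (nat_lit 0x164e4b0a2ae507)) e
 (c (a (nat_lit 0x19cacb26000007)) e
 (c (a (nat_lit 0x1f6a6000000006)) e e)))
 (c (a (nat_lit 0x40202050a4))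
 (c (a (nat_lit 0xe4942e0000001)) e
 (c (a (nat_lit 0x8a00000000001)) e e))
 (c (a (nat_lit 0x20286c9066)) e
 (c z e
 (c (a (nat_lit 0x1152140fb1a7)) e
 (c (a (nat_lit 0x52920465026)) e
 (c (a (nat_lit 0x116e94989846)) e
 (c (a (nat_lit 0x8d252b28ca6)) e
 (c (a (nat_lit 0x16c0e0408084)) e
 (c (a (nat_lit 0x58182e2a341)) e
 (c (a (nat_lit 0x1c1224001)) e
 (c (a (nat_lit 0x1a080000001)) e e))))))))))))))))))))
 C522)
 (c (a (nat_lit 0x202021)) C521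
 (c (nat_lit 1)
 (c (a (nat_lit 0x20202021))
 (c (a (nat_lit 0x143232c46465))
 (c (a (nat_lit 0x233c040450506))
 (c (a (nat_lit 0x29350a2824b7c5)) e
 (c (a (nat_lit 0x11131672e90aa007)) e
 (c (a (nat_lit 0x1be024c5c0000006)) e e)))
 (c (a (nat_lit 0x1406c605e5e808))
 (c (a (nat_lit 0x7718f2523600008)) e e)
 (c (a (nat_lit 0x11a6e22151e085)) e
 (c (a (nat_lit 0x178a2478c78105)) e
 (c (a (nat_lit 0x18d519516a8005)) e
 (c z e
 (c z e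
 (c (b (nat_lit 0x1ffffffecc4506)) e
 (c (a (nat_lit 0x6da9663c00007)) e e)))))))))
 (c (a (nat_lit 0x1418c5e5e5e6))
 (c (a (nat_lit 0xea748094cff06))
 (c (a (nat_lit 0x12f264a1a0000007)) e e)
 (c (a (nat_lit 0x8c2c14871c106)) e
 (c (a (nat_lit 0x15afb65c51c047)) e
 (c z e
 (c z e
 (c z e
 (c (a (nat_lit 0x2d2444220e009)) e
 (c (a (nat_lit 0x1f0701e0000009)) e e))))))))
 (c (a (nat_lit 0x17a0608080a4))
 (c (a (nat_lit 0x1716fe0c202025)) e e)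
 (c (a (nat_lit 0x20202036e6))
 (c z e
 (c (b (nat_lit 0x15bfffffe1a9a3)) e e))
 (c (a (nat_lit 0x2c2c2da0c26))
 (c (a (nat_lit 0x24b500458867)) e
 (c (a (nat_lit 0x12933744264647)) e e))
 (c (a (nat_lit 0xa4a55af6ba7))
 (c (a (nat_lit 0xf7f6e6eac4006)) e e)
 (c (a (nat_lit 0xd58f28e4e47)) e
 (c (a (nat_lit 0x15680322c166)) e
 (c (a (nat_lit 0x12ab2b240426)) e
 (c z e
 (c z e
 (c (a (nat_lit 0x18723f0ea766)) e
 (c (a (nat_lit 0x194a0204507)) e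
 (c (a (nat_lit 0x148020250507)) e
 (c (a (nat_lit 0x6161822001)) e
 (c (a (nat_lit 0xc50e0000001)) e e))))))))))))))))
 (c (a (nat_lit 0x60604041))
 (c (a (nat_lit 0x1ac040482804))
 (c (a (nat_lit 0x40a062374be6)) e
 (c (a (nat_lit 0x638372b41847)) e
 (c z e
 (c z e
 (c z e
 (c z e
 (c (a (nat_lit 0x1744a1c1000009)) e
 (c (a (nat_lit 0x1d64e000000007)) e e))))))))
 (c (a (nat_lit 0x20205b46)) e
 (c (a (nat_lit 0x56560d7b806)) e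
 (c z e
 (c z e
 (c (a (nat_lit 0x168b8f6f4f46)) e
 (c (b (nat_lit 0x1906a683bfe5)) e
 (c (b (nat_lit 0x608f1ffbe8)) e
 (c z e
 (c z e
 (c (a (nat_lit 0x6562a8246a8)) e
 (c (a (nat_lit 0x14e8a026e588)) e
 (c (a (nat_lit 0x1b8040412124)) e
 (c (a (nat_lit 0x11c0c00001)) e
 (c (a (nat_lit 0x44000000001)) e e)))))))))))))))
 (c (a (nat_lit 0x40404041))
 (c (a (nat_lit 0x20405f9ba5)) e
 (c z e
 (c (b (nat_lit 0x1ff7e7e06066)) e
 (c (a (nat_lit 0x1dae75d5b5a6)) e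
 (c (a (nat_lit 0x13a0406027c5)) e
 (c z e
 (c z e
 (c z e
 (c z e
 (c z e
 (c (b (nat_lit 0x153fffe04005)) e
 (c (a (nat_lit 0x2c4e3c001)) e
 (c (a (nat_lit 0x2100000001)) e e)))))))))))))
 (c (nat_lit 1)
 (c (a (nat_lit 0x23a6c85a3e5))
 (c z e
 (c (a (nat_lit 0x252f7140c086)) e e))
 (c (a (nat_lit 0x16a7e0404046))
 (c (a (nat_lit 0x1b1b105606006)) e
 (c (a (nat_lit 0x166e08a0000007)) e e))
 (c (a (nat_lit 0x110828a0ece6))
 (c (a (nat_lit 0xe700000000004)) e e)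
 (c (a (nat_lit 0x6884f7bbf46)) e
 (c z e
 (c (a (nat_lit 0x15997a95f8c8)) e
 (c z e
 (c z e
 (c z e
 (c (a (nat_lit 0x1d2640602006)) e
 (c (a (nat_lit 0x19c221000004)) e
 (c (a (nat_lit 0xa4000000001)) e e))))))))))))
 (c (nat_lit 1)
 (c (a (nat_lit 0xfc080a0df64))
 (c (a (nat_lit 0x138c48c0400005)) e
 (c (a (nat_lit 0x11486000000006)) e e))
 (c (a (nat_lit 0x86860abd166))
 (c (a (nat_lit 0x10000000000004)) e e)
 (c z e
 (c (a (nat_lit 0xc6ff10e4948)) e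
 (c (a (nat_lit 0x1050ceec8708)) e
 (c z e
 (c z e
 (c (a (nat_lit 0x9ccf363e446)) e
 (c (a (nat_lit 0xfb087006006)) e
 (c (a (nat_lit 0x1b0040000004)) e e))))))))))
 (c (a (nat_lit 0x20202021))
 (c (a (nat_lit 0x4d7b5524)) e
 (c (a (nat_lit 0xb6ed1cf0447)) e
 (c z e
 (c (a (nat_lit 0x13d2976f9828)) e
 (c z e
 (c z e
 (c (a (nat_lit 0xb7e4dc4e026)) e
 (c (a (nat_lit 0x1e45a0200005)) e e))))))))
 (c (nat_lit 1)
 (c (a (nat_lit 0x1134b1202066)) e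
 (c (a (nat_lit 0xeea2b96b5e6)) e e))
 (c (a (nat_lit 0x202041))
 (c (a (nat_lit 0x28382234e61)) e
 (c (a (nat_lit 0x20207b67)) e e))
 (c (a (nat_lit 0x20203866))
 (c (a (nat_lit 0x20404195c7)) e e)
 (c (a (nat_lit 0x2032f605)) e
 (c z e
 (c (a (nat_lit 0x1b1c585147)) e
 (c (a (nat_lit 0x10eceba467)) e
 (c (a (nat_lit 0x17bce02045)) e
 (c (a (nat_lit 0x1d40204043)) e
 (c (a (nat_lit 0x40a0c181)) e
 (c (a (nat_lit 0x2036c6)) e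
 (c (a (nat_lit 0x2036e9a6)) e
 (c z e
 (c (a (nat_lit 0x1507e02026)) e
 (c (a (nat_lit 0x1ee0202024)) e
 (c (a (nat_lit 0x400001)) e e))))))))))))))))))))))
 C520)))) Tr.c Tr.e (nat_lit 0) C.cx C.cy
noncomputable def C524 : Tr := beta% (fun (c : Nat → Tr → Tr → Tr) (e : Tr) (z : Nat) (a b : Nat → Nat) =>
 (c (a (nat_lit 0x20202021))
 (c (a (nat_lit 0x2020203727)) e
 (c (a (nat_lit 0x20203ab128)) e
 (c (a (nat_lit 0x203f12f228)) e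
 (c z e
 (c z e
 (c z e
 (c z e
 (c (a (nat_lit 0x1fe5e5c5c5c5))
 (c (a (nat_lit 0x196c3b2c6541a6)) e
 (c (a (nat_lit 0x11ad46a2200007)) e e))
 (c (a (nat_lit 0x2020205705))
 (c (a (nat_lit 0x1d5d000000001)) e e)
 (c (a (nat_lit 0x20286e1787)) e
 (c z e
 (c z e
 (c z e
 (c z e
 (c z e
 (c z e
 (c z e
 (c (a (nat_lit 0x1f00a1408002)) e
 (c (a (nat_lit 0x3e160000001)) e e)))))))))))))))))))
 (c (a (nat_lit 0x20202021))
 (c (a (nat_lit 0x2032abab48)) e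
 (c z e
 (c z e
 (c z e
 (c z e
 (c z e
 (c (a (nat_lit 0x21e1e1f087))
 (c (a (nat_lit 0x1141012600a008)) e
 (c (a (nat_lit 0x13d68380000007)) e e))
 (c (a (nat_lit 0x2020320ee7))
 (c (a (nat_lit 0x12c04000000007)) e e)
 (c z e
 (c z e
 (c z e
 (c z e
 (c z e
 (c z e
 (c z e
 (c (b (nat_lit 0x11ffe0202026)) e
 (c (a (nat_lit 0x2a2200001)) e
 (c (a (nat_lit 0x2000000001)) e e))))))))))))))))))
 (c (a (nat_lit 0x40404041))
 (c z e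
 (c z e
 (c z e
 (c z e
 (c (a (nat_lit 0x2484849745)) e
 (c (a (nat_lit 0x2020267227))
 (c (a (nat_lit 0xe1186a0800006)) e
 (c (a (nat_lit 0x1546e000000006)) e e))
 (c (a (nat_lit 0x5a5ad1832c7))
 (c (a (nat_lit 0x10400000000002)) e e)
 (c z e
 (c z e
 (c z e
 (c (a (nat_lit 0x19924022dfe7)) e
 (c (a (nat_lit 0x122022bfd8e7)) e
 (c z e
 (c (a (nat_lit 0x1c356b4a47)) e
 (c (a (nat_lit 0x11f320202007)) e
 (c (a (nat_lit 0x132020000007)) e e))))))))))))))))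
 (c (a (nat_lit 0x40402021))
 (c z e
 (c (a (nat_lit 0x134120e0a0a4))
 (c (a (nat_lit 0x639029d747)) e
 (c (a (nat_lit 0xaeaf42e37c8a8)) e e))
 (c (a (nat_lit 0x20202030e6)) e
 (c z e
 (c z e
 (c z e
 (c z e
 (c z e
 (c z e
 (c (a (nat_lit 0x100020203647)) e
 (c (a (nat_lit 0x26262565067)) e
 (c z e
 (c (a (nat_lit 0x16306a0867)) e
 (c (a (nat_lit 0x1bb2e3400006)) e e))))))))))))))
 (c (nat_lit 1)
 (c (a (nat_lit 0x20202057c4))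
 (c (a (nat_lit 0x2c041c4f65106)) e
 (c (b (nat_lit 0xc183da4dbfe7)) e e))
 (c (a (nat_lit 0x20204cf546))
 (c (b (nat_lit 0x1c191ffffffe7)) e e)
 (c z e
 (c z e
 (c z e
 (c z e
 (c z e
 (c (a (nat_lit 0x138828414027)) e
 (c (a (nat_lit 0x12121403467)) e
 (c (a (nat_lit 0x20344387)) e e))))))))))
 (c (a (nat_lit 0x60808081))
 (c (a (nat_lit 0xe0ee959c85))
 (c (b (nat_lit 0x7ffe5895245)) e e)
 (c z e
 (c z e
 (c z e
 (c z e
 (c z e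
 (c (a (nat_lit 0x1ea92885c002)) e
 (c (a (nat_lit 0xa0a1605f85)) e e))))))))
 (c (a (nat_lit 0x20202021))
 (c z e
 (c z e
 (c z e
 (c (a (nat_lit 0x126c8d87a7a8)) e
 (c z e
 (c (a (nat_lit 0x38a2a22a021)) e
 (c (a (nat_lit 0x3c3c3a030a7)) e e)))))))
 (c (a (nat_lit 0x20200001))
 (c (a (nat_lit 0x10d169c02027)) e
 (c (a (nat_lit 0x1d4343404066)) e
 (c (a (nat_lit 0x72708f934a2)) e
 (c (a (nat_lit 0x13b595b52184)) e
 (c (a (nat_lit 0x5c601a8a461)) e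
 (c (a (nat_lit 0xa8a88541e47)) e e))))))
 (c (nat_lit 1)
 (c (a (nat_lit 0x16e565a1a002)) e
 (c (a (nat_lit 0x5a8434001)) e
 (c (a (nat_lit 0x10706fc18004)) e
 (c (a (nat_lit 0xf2f2f322847)) e e))))
 (c (a (nat_lit 0x2001))
 (c (a (nat_lit 0x36302c0b3e3)) e
 (c z e
 (c z e
 (c z e
 (c (a (nat_lit 0xafba0e00006)) e
 (c (a (nat_lit 0x122000000004)) e e))))))
 (c (a (nat_lit 0x20002081))
 (c z e
 (c z e
 (c (a (nat_lit 0x12bc20406006)) e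
 (c (a (nat_lit 0x220000001)) e e))))
 (c (nat_lit 1)
 (c (a (nat_lit 0x30ae06090a6)) e
 (c (a (nat_lit 0x15a0a0800003)) e
 (c (nat_lit 1) e e)))
 (c (a (nat_lit 0x1fc5))
 (c (a (nat_lit 0x2000000001)) e e)
 (c (a (nat_lit 0x20300c46)) e
 (c (a (nat_lit 0x8d3d1ef27)) e
 (c (a (nat_lit 0x17d6130d87)) e
 (c (a (nat_lit 0x166a602025)) e
 (c (a (nat_lit 0x14a0402024)) e
 (c (a (nat_lit 0x821e02001)) e
 (c (a (nat_lit 0x40604001)) e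
 (c (a (nat_lit 0x203705)) e
 (c (a (nat_lit 0x202bb4c6)) e e))))))))))))))))))))))) Tr.c Tr.e (nat_lit 0) C.cx C.cy
noncomputable def C525 : Tr := beta% (fun (c : Nat → Tr → Tr → Tr) (e : Tr) (z : Nat) (a b : Nat → Nat) =>
 (c (a (nat_lit 0x8080808081))
 (c (a (nat_lit 0x1b9c53a2626244))
 (c z e
 (c (a (nat_lit 0xef613d3d3945563))
 (c (a (nat_lit 0x18726c450340a94387)) e
 (c (a (nat_lit 0x1c548deb4aed8f5528)) e
 (c (a (nat_lit 0xead4da96f8bd0d2a9)) e e)))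
 (c (a (nat_lit 0x10708e0e0e0e1447)) e
 (c (a (nat_lit 0x80121e2025a7585)) e
 (c (a (nat_lit 0x323a6668c291347)) e
 (c z e
 (c (a (nat_lit 0x36028236dec9e86)) e
 (c z e
 (c z e
 (c (a (nat_lit 0x368e6b3a4816047)) e
 (c (a (nat_lit 0xab0714801a02006)) e
 (c (a (nat_lit 0x9009e6660000004)) e e))))))))))))
 (c (a (nat_lit 0x1c2de565654546))
 (c (a (nat_lit 0x18040404060d685))
 (c (a (nat_lit 0x1f13c846406c455307)) e
 (c (a (nat_lit 0xfab29aa8ac74b74ca)) e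
 (c (a (nat_lit 0xece694f8bcf51976a)) e e)))
 (c (a (nat_lit 0x88020206050f5e7)) e
 (c z e
 (c z e
 (c z e
 (c z e
 (c z e
 (c z e
 (c (a (nat_lit 0x114a52a882412108)) e
 (c (a (nat_lit 0x15946f8341000007)) e
 (c (a (nat_lit 0xf0c4c000000006)) e e)))))))))))
 (c (a (nat_lit 0x190a4a4a4a4de5))
 (c z e
 (c z e
 (c z e
 (c z e
 (c z e
 (c z e
 (c z e
 (c (a (nat_lit 0x12d466090322c008)) e
 (c (a (nat_lit 0x11e40c8160000007)) e e)))))))))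
 (c (a (nat_lit 0x202059bee4))
 (c z e
 (c z e
 (c z e
 (c z e
 (c z e
 (c z e
 (c (a (nat_lit 0x1762628560e00008)) e
 (c (a (nat_lit 0xad087e000000007)) e e))))))))
 (c (a (nat_lit 0x404068555525))
 (c z e
 (c z e
 (c z e
 (c z e
 (c z e
 (c (a (nat_lit 0xe037c4da0000007)) e
 (c (a (nat_lit 0xbce00000000006)) e e)))))))
 (c z e
 (c z e
 (c z e
 (c z e
 (c (a (nat_lit 0x15724a00808086)) e
 (c (a (nat_lit 0x1f86a7e2214184)) e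
 (c (a (nat_lit 0x222c324e921)) e
 (c (a (nat_lit 0x1cbd1d3d50e025)) e
 (c (a (nat_lit 0x119191f23386e5)) e
 (c (a (nat_lit 0x8ab4b324bdda6)) e e)))))))))))))))
 (c (a (nat_lit 0x4040404041))
 (c (a (nat_lit 0x186beb8b6b7384))
 (c (a (nat_lit 0x20406060c71046))
 (c (a (nat_lit 0xb67c70367e7281b88)) e
 (c z e
 (c z e
 (c (a (nat_lit 0xa0e8b5099cf80000a)) e e))))
 (c (a (nat_lit 0xeced373d2d57fa9)) e
 (c z e
 (c z e
 (c z e
 (c z e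
 (c z e
 (c z e
 (c (a (nat_lit 0xff189e240c0c008)) e
 (c (a (nat_lit 0x1209218060000008)) e e))))))))))
 (c (a (nat_lit 0x2020202311c6))
 (c z e
 (c z e
 (c z e
 (c z e
 (c z e
 (c z e
 (c z e
 (c (a (nat_lit 0x17450140c0600009)) e
 (c (a (nat_lit 0x19e562e000000006)) e e)))))))))
 (c (a (nat_lit 0x202271338ea6)) e
 (c z e
 (c z e
 (c z e
 (c z e
 (c z e
 (c (a (nat_lit 0x16b2cda9090907)) e
 (c (a (nat_lit 0x1562e3a0c04085)) e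
 (c (a (nat_lit 0x190968cfe021)) e
 (c (a (nat_lit 0x1ababafbaf6c46)) e e))))))))))))
 (c (a (nat_lit 0x2020202001))
 (c (a (nat_lit 0x80a2a6950885)) e
 (c z e
 (c z e
 (c z e
 (c z e
 (c z e
 (c z e
 (c (a (nat_lit 0xed049e4a484a7)) e
 (c (a (nat_lit 0x18634401e0a325)) e
 (c (a (nat_lit 0x10b4b4f52c45a6)) e e))))))))))
 (c (a (nat_lit 0x2021))
 (c z e
 (c z e
 (c z e
 (c z e
 (c z e
 (c z e
 (c (b (nat_lit 0x1b9fed24a4d686)) e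
 (c (a (nat_lit 0x7c888e8122247)) e e))))))))
 (c (a (nat_lit 0x2020203227))
 (c z e
 (c z e
 (c z e
 (c z e
 (c z e
 (c (a (nat_lit 0x18bb90c4d95127)) e
 (c (a (nat_lit 0xda8e8ae0353a8)) e
 (c z e
 (c z e
 (c z e
 (c (a (nat_lit 0xa7dcc00000008)) e e)))))))))))
 (c (a (nat_lit 0x20203589c7))
 (c z e
 (c z e
 (c z e
 (c z e
 (c z e
 (c z e
 (c z e
 (c z e
 (c z e
 (c (a (nat_lit 0x1fae6000000008)) e e))))))))))
 (c (a (nat_lit 0x203db493c6))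
 (c (a (nat_lit 0x484a5df83e046)) e
 (c z e
 (c z e
 (c z e
 (c z e
 (c z e
 (c z e
 (c z e
 (c (a (nat_lit 0x200000000001)) e e)))))))))
 (c z e
 (c z e
 (c (a (nat_lit 0x1f3a51602005))
 (c (a (nat_lit 0x12d3ece04440a7)) e
 (c (a (nat_lit 0xbb0f965c08028)) e
 (c (a (nat_lit 0x413bea1000007)) e e)))
 (c (a (nat_lit 0x1fe363a342c5))
 (c (a (nat_lit 0xe71e6a1208007)) e
 (c (a (nat_lit 0x31920e0000007)) e e))
 (c (a (nat_lit 0xae48261c181)) e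
 (c (a (nat_lit 0x1171716b3186)) e
 (c (a (nat_lit 0x204651dac6)) e
 (c (a (nat_lit 0x4049f2d6e6)) e
 (c z e
 (c z e
 (c (a (nat_lit 0xff352098807)) e
 (c (a (nat_lit 0x16d140202006)) e
 (c (a (nat_lit 0x112020202006)) e
 (c (a (nat_lit 0x1a361e18001)) e
 (c (a (nat_lit 0x18020000001)) e e))))))))))))))))))))))) Tr.c Tr.e (nat_lit 0) C.cx C.cy
noncomputable def C526 : Tr := beta% (fun (c : Nat → Tr → Tr → Tr) (e : Tr) (z : Nat) (a b : Nat → Nat) =>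
 (c (a (nat_lit 0x60404061))
 (c (a (nat_lit 0x20383187))
 (c (a (nat_lit 0x148ea770b6a085))
 (c (a (nat_lit 0xa6ed54bac8a28e7)) e
 (c z e
 (c z e
 (c (a (nat_lit 0x12cd773270276008)) e
 (c (a (nat_lit 0xe38ee8e80000007)) e e)))))
 (c z e
 (c z e
 (c (a (nat_lit 0xc53d5cca5e068)) e
 (c (a (nat_lit 0x125920e3e26847)) e
 (c z e
 (c z e
 (c (a (nat_lit 0x7c7e98ee41067)) e
 (c (a (nat_lit 0x22267294155a8)) e e)))))))))
 (c (a (nat_lit 0x2030adacc9)) e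
 (c z e
 (c (a (nat_lit 0x1b97b74f2588))
 (c z e
 (c (a (nat_lit 0xb10f16aa68468)) e
 (c z e
 (c z e
 (c z e
 (c (a (nat_lit 0x6aa179ac48009)) e e))))))
 (c (a (nat_lit 0x1e3ad6630387))
 (c (a (nat_lit 0x9ca87670353a8)) e
 (c z e
 (c z e
 (c z e
 (c (a (nat_lit 0x5bdf763c00009)) e e)))))
 (c z e
 (c (a (nat_lit 0x10ae4e4e4e48))
 (c (a (nat_lit 0x752086669e3c9)) e
 (c (a (nat_lit 0x170c0a66400009)) e e))
 (c (b (nat_lit 0x1fe0202036c6))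
 (c (a (nat_lit 0x11c08060000007)) e e)
 (c (a (nat_lit 0x2873ae87)) e
 (c z e
 (c z e
 (c (a (nat_lit 0x1651ef80a066)) e
 (c (a (nat_lit 0x767a04032e7)) e
 (c (a (nat_lit 0x7802032ea67)) e
 (c z e
 (c (a (nat_lit 0x4976eabac07)) e
 (c (a (nat_lit 0x17a60080a006)) e
 (c (a (nat_lit 0x154080000004)) e e))))))))))))))))))
 (c (nat_lit 1)
 (c (a (nat_lit 0x318ecde648)) e
 (c z e
 (c z e
 (c (a (nat_lit 0x1a1443836367))
 (c (a (nat_lit 0x4836fed14cb08)) e e)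
 (c z e
 (c (a (nat_lit 0x12d2c6a6a185))
 (c (a (nat_lit 0x179616f086a005)) e
 (c (a (nat_lit 0xd722be0000006)) e e))
 (c (a (nat_lit 0x2020443985))
 (c (a (nat_lit 0x13882000000005)) e e)
 (c z e
 (c z e
 (c (a (nat_lit 0x202bc680786)) e
 (c (b (nat_lit 0x1ff4a045e586)) e
 (c (a (nat_lit 0x1d8040203665)) e
 (c (a (nat_lit 0x2020367ec5)) e
 (c z e
 (c (a (nat_lit 0x7aeb2909067)) e
 (c (a (nat_lit 0x1301400004)) e e))))))))))))))))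
 (c (a (nat_lit 0x20202021))
 (c z e
 (c (a (nat_lit 0x156ca9a98367))
 (c (a (nat_lit 0xd488809340da7)) e
 (c (a (nat_lit 0xeaaac516f7148)) e e))
 (c (a (nat_lit 0x12e181816184))
 (c (a (nat_lit 0xd4fd57d7524c7)) e e)
 (c (a (nat_lit 0x60a0a0b1c4)) e
 (c (a (nat_lit 0x20406b33c5))
 (c (a (nat_lit 0x5e91a0d400005)) e e)
 (c z e
 (c z e
 (c z e
 (c (a (nat_lit 0x14b38d09e2e7)) e
 (c (a (nat_lit 0x1a60604040c5)) e
 (c (a (nat_lit 0x202020fb25)) e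
 (c (b (nat_lit 0x20205ff027)) e e))))))))))))
 (c (nat_lit 1)
 (c (a (nat_lit 0x80e100a001))
 (c (a (nat_lit 0xc8644204ef545)) e
 (c (a (nat_lit 0x1066c28f7c5686)) e
 (c (a (nat_lit 0x9c3f4f5e315a6)) e e)))
 (c (a (nat_lit 0x4080a0d2a2))
 (c (a (nat_lit 0x863c71b8629e6)) e e)
 (c (a (nat_lit 0xc0a102b143)) e
 (c z e
 (c z e
 (c (a (nat_lit 0x17777a1551a8)) e
 (c z e
 (c (a (nat_lit 0x1d30508c6026)) e
 (c (a (nat_lit 0x20262e1a1)) e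
 (c (a (nat_lit 0x36363603a86)) e
 (c (a (nat_lit 0x6e707143867)) e e)))))))))))
 (c (a (nat_lit 0x40404041))
 (c (a (nat_lit 0x4060f17362))
 (c (a (nat_lit 0x1e54b80419286)) e e)
 (c z e
 (c z e
 (c (a (nat_lit 0x17389cb5ad87)) e
 (c (a (nat_lit 0x10b32fcc2888)) e
 (c (a (nat_lit 0x1592d5944867)) e
 (c (a (nat_lit 0x86b498a6a21)) e
 (c (a (nat_lit 0x1dddbd00c103)) e
 (c (a (nat_lit 0x36363603047)) e
 (c (a (nat_lit 0xd6d6e1e19c7)) e e))))))))))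
 (c (a (nat_lit 0x40404041))
 (c z e
 (c (a (nat_lit 0x1374386f8a27)) e
 (c z e
 (c (a (nat_lit 0x1089a9a2a287)) e
 (c z e
 (c (a (nat_lit 0xe302fe0e0c3)) e
 (c (a (nat_lit 0x3a3a3a03067)) e
 (c (a (nat_lit 0x646a6d48ea7)) e e))))))))
 (c (a (nat_lit 0x40404041))
 (c (a (nat_lit 0x1074cb0181a6)) e
 (c (a (nat_lit 0x134363604046)) e
 (c (a (nat_lit 0x1e7055b36c62)) e
 (c (a (nat_lit 0xcb1928ea405)) e
 (c (a (nat_lit 0x322e24221)) e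
 (c (a (nat_lit 0xaaaaab1ade7)) e e))))))
 (c (a (nat_lit 0x20200001))
 (c (a (nat_lit 0x826221a001)) e
 (c (a (nat_lit 0x7aa890861)) e
 (c (b (nat_lit 0x1d9ddda17fe3)) e
 (c (a (nat_lit 0xbcbcbd5a607)) e
 (c z e
 (c (a (nat_lit 0x438a6c06006)) e
 (c (a (nat_lit 0x1525e0400006)) e
 (c (a (nat_lit 0x172000000001)) e e))))))))
 (c (a (nat_lit 0x60606061))
 (c (a (nat_lit 0xe201e0b824)) e
 (c z e
 (c z e
 (c (b (nat_lit 0x1ff56661e886)) e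
 (c (a (nat_lit 0x152681806006)) e
 (c (a (nat_lit 0x161e0000001)) e e))))))
 (c (a (nat_lit 0x20202021))
 (c z e
 (c (b (nat_lit 0x1ffffff86083)) e
 (c (a (nat_lit 0x17add90e38e5)) e
 (c (a (nat_lit 0x126020200004)) e
 (c (a (nat_lit 0x6000000001)) e e)))))
 (c (a (nat_lit 0x20000001))
 (c (a (nat_lit 0x301f732daa7)) e
 (c (a (nat_lit 0x13a080404004)) e
 (c (a (nat_lit 0x120000001)) e e)))
 (c (a (nat_lit 0x60402021))
 (c (a (nat_lit 0x1b4020200004)) e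
 (c (a (nat_lit 0xc000000001)) e e))
 (c (a (nat_lit 0x202032e6)) e
 (c (a (nat_lit 0x6e6f04f87)) e
 (c (a (nat_lit 0xa76f63167)) e
 (c (a (nat_lit 0x1cbbf750e7)) e
 (c (a (nat_lit 0x1026c02026)) e
 (c (a (nat_lit 0x1ae0202024)) e
 (c (a (nat_lit 0x608081)) e
 (c (a (nat_lit 0x608061)) e
 (c (a (nat_lit 0x20e101)) e
 (c (b (nat_lit 0x140ffe1)) e e))))))))))))))))))))))) Tr.c Tr.e (nat_lit 0) C.cx C.cy
noncomputable def C527 : Tr := beta% (fun (c : Nat → Tr → Tr → Tr) (e : Tr) (z : Nat) (a b : Nat → Nat) =>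
 (c (nat_lit 1)
 (c (a (nat_lit 0x2001))
 (c (a (nat_lit 0x11af4ea601a1a7))
 (c (a (nat_lit 0x11fb1b9f6d4dccc3))
 (c z e
 (c z e
 (c z e
 (c (a (nat_lit 0x162fe60986884bab68)) e
 (c (a (nat_lit 0x178c4cb2f437dc73e8)) e e)))))
 (c z e
 (c z e
 (c (a (nat_lit 0x2ea8404e2709aa7)) e
 (c (a (nat_lit 0x364a86a25363388)) e
 (c z e
 (c z e
 (c z e
 (c z e
 (c (a (nat_lit 0x6284ea914232788)) e
 (c (a (nat_lit 0x4e968fa44266108)) e e)))))))))))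
 (c z e
 (c z e
 (c (a (nat_lit 0x8622222221866))
 (c z e
 (c z e
 (c z e
 (c z e
 (c z e
 (c z e
 (c (a (nat_lit 0xc5388ae0a66e00a)) e e)))))))
 (c (a (nat_lit 0x202020275027))
 (c z e
 (c z e
 (c z e
 (c z e
 (c z e
 (c (a (nat_lit 0x1206a88be4e0000a)) e e))))))
 (c z e
 (c z e
 (c z e
 (c z e
 (c (a (nat_lit 0x16fdfeaf828287)) e
 (c (a (nat_lit 0x19f7ee44e302e7)) e
 (c z e
 (c z e
 (c (a (nat_lit 0x12d2f3548be0c5)) e
 (c (a (nat_lit 0x108a8e69b5366)) e e)))))))))))))))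
 (c (a (nat_lit 0x4040404021))
 (c z e
 (c z e
 (c (a (nat_lit 0x2020205edf46)) e e)))
 (c (a (nat_lit 0x2020404041))
 (c (a (nat_lit 0x204041d925)) e e)
 (c (a (nat_lit 0x20004021)) e
 (c (a (nat_lit 0x202001))
 (c z e
 (c z e
 (c z e
 (c z e
 (c z e
 (c (a (nat_lit 0x71d66d64d048)) e
 (c z e
 (c z e
 (c z e
 (c z e
 (c (a (nat_lit 0x1453368ea00009)) e e)))))))))))
 (c (a (nat_lit 0x20202034c8))
 (c z e
 (c (a (nat_lit 0xb0020204f1c48))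
 (c (a (nat_lit 0xccb302380000008)) e e)
 (c z e
 (c z e
 (c z e
 (c z e
 (c z e
 (c z e
 (c z e
 (c (a (nat_lit 0x1715ad00000009)) e e))))))))))
 (c (a (nat_lit 0x188ee7))
 (c (b (nat_lit 0x20c0c0de5fe7)) e
 (c z e
 (c z e
 (c z e
 (c z e
 (c z e
 (c z e
 (c (a (nat_lit 0x6101b7e00009)) e
 (c (a (nat_lit 0x10336000000003)) e e)))))))))
 (c (a (nat_lit 0x20302ba988)) e
 (c z e
 (c (a (nat_lit 0x1e150f602007))
 (c (a (nat_lit 0x3f819f84103a7)) e e)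
 (c z e
 (c z e
 (c z e
 (c (a (nat_lit 0x2020203386)) e
 (c (a (nat_lit 0x402051bfc6)) e
 (c z e
 (c z e
 (c z e
 (c (a (nat_lit 0xf35d46462e7)) e
 (c (a (nat_lit 0x123020202027)) e
 (c (a (nat_lit 0x1fe020202026)) e
 (c (a (nat_lit 0x181e00001)) e
 (c (nat_lit 1) e e)))))))))))))))))))))))
 (c (a (nat_lit 0x40404021))
 (c (a (nat_lit 0x6060606041)) e
 (c (a (nat_lit 0x2040406041)) e
 (c (a (nat_lit 0x2040204021)) e
 (c (a (nat_lit 0x2020203a68)) e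
 (c (a (nat_lit 0x20203daac8)) e
 (c (a (nat_lit 0x203753f188))
 (c z e
 (c z e
 (c z e
 (c z e
 (c z e
 (c z e
 (c z e
 (c z e
 (c (a (nat_lit 0x15c00000000001)) e e)))))))))
 (c z e
 (c z e
 (c z e
 (c z e
 (c z e
 (c z e
 (c (a (nat_lit 0x2c50d4a6)) e
 (c (a (nat_lit 0x12181e47e46)) e
 (c z e
 (c z e
 (c z e
 (c z e
 (c (a (nat_lit 0x11b5cb472744)) e
 (c (a (nat_lit 0x1d07c0402003)) e
 (c (a (nat_lit 0x1ca060000001)) e e)))))))))))))))))))))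
 (c (a (nat_lit 0x40404041))
 (c (a (nat_lit 0x2020202021))
 (c z e
 (c (a (nat_lit 0x16b8f9faafbd27)) e
 (c z e
 (c z e
 (c z e
 (c (a (nat_lit 0xbba0e08e38e08)) e
 (c z e
 (c z e
 (c z e
 (c (b (nat_lit 0x1ffff88526a005)) e e))))))))))
 (c (a (nat_lit 0x20203828))
 (c (b (nat_lit 0x15920f8e30dfe7))
 (c (a (nat_lit 0x90a8bd2eb22e689)) e
 (c z e
 (c z e
 (c z e
 (c (a (nat_lit 0x126ad91775600008)) e e)))))
 (c z e
 (c z e
 (c z e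
 (c (a (nat_lit 0x139a8d042b8728)) e
 (c z e
 (c z e
 (c z e
 (c (b (nat_lit 0x525e6e7713fe8)) e e)))))))))
 (c (a (nat_lit 0x20203bf388)) e
 (c (a (nat_lit 0x20348e4dc9)) e
 (c z e
 (c (a (nat_lit 0x1bfaf90bc1c8))
 (c (a (nat_lit 0x6fbd8e2604527)) e
 (c z e
 (c z e
 (c z e
 (c (a (nat_lit 0x444dfb5820009)) e e)))))
 (c z e
 (c z e
 (c z e
 (c (a (nat_lit 0x3a4c54481c1)) e
 (c z e
 (c z e
 (c z e
 (c (a (nat_lit 0xbe8ece65ac7)) e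
 (c (a (nat_lit 0x2e70094e647)) e
 (c z e
 (c z e
 (c (a (nat_lit 0x1fa1a0202026)) e
 (c (a (nat_lit 0x1740a0c00002)) e
 (c (a (nat_lit 0x4000000001)) e e))))))))))))))))))))
 C526)))) Tr.c Tr.e (nat_lit 0) C.cx C.cy
noncomputable def C528 : Tr := beta% (fun (c : Nat → Tr → Tr → Tr) (e : Tr) (z : Nat) (a b : Nat → Nat) =>
 (c (a (nat_lit 0x20202001))
 (c (a (nat_lit 0x202039519025))
 (c (a (nat_lit 0x202023ca910be3)) e
 (c (a (nat_lit 0x5658ab9af6eac05))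
 (c z e
 (c z e
 (c z e
 (c z e
 (c z e
 (c z e
 (c (a (nat_lit 0xcfd53f152b0715687)) e e)))))))
 (c z e
 (c (a (nat_lit 0x102cbb38dd6f3644)) e
 (c (a (nat_lit 0x74d61891d94b384)) e
 (c (a (nat_lit 0xf0dadcdcf504f47)) e
 (c (a (nat_lit 0x1e282870cb1bc65)) e
 (c (a (nat_lit 0x6c706e6ab327385)) e
 (c (a (nat_lit 0x8280c0c0e9429a5)) e
 (c (b (nat_lit 0x2a6bff1ec034005)) e
 (c z e
 (c z e
 (c (a (nat_lit 0x2638161e122b107)) e
 (c (a (nat_lit 0x907478d3085c008)) e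
 (c (a (nat_lit 0xe4229a20000006)) e e)))))))))))))))
 (c (a (nat_lit 0x1617650ef6587))
 (c z e
 (c z e
 (c z e
 (c z e
 (c z e
 (c z e
 (c (a (nat_lit 0x5252a50cd314a87)) e
 (c z e
 (c z e
 (c z e
 (c z e
 (c z e
 (c z e
 (c z e
 (c (a (nat_lit 0x1b60000000000005)) e e)))))))))))))))
 (c z e
 (c (a (nat_lit 0x1f1a394bc16167))
 (c (a (nat_lit 0xcfd6d8fc5b19526))
 (c z e
 (c z e
 (c (a (nat_lit 0x1194a48bf3ac5f5fe7)) e e)))
 (c (a (nat_lit 0x1295af92b25a39c7))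
 (c (a (nat_lit 0x175452af73371dbc69)) e e)
 (c z e
 (c z e
 (c (a (nat_lit 0xac4cb8ef0f152c7)) e
 (c (a (nat_lit 0xfb0d472d6b7be07)) e
 (c z e
 (c z e
 (c z e
 (c (a (nat_lit 0xd0e195728e00008)) e e))))))))))
 (c (a (nat_lit 0x10cfec22c2c3c7))
 (c (a (nat_lit 0x1270b5361adab2c6))
 (c (a (nat_lit 0x745e5048710cfc469)) e e)
 (c z e
 (c z e
 (c (a (nat_lit 0x13b3c6fdc1f1ba6)) e
 (c (a (nat_lit 0x2854185257680c8)) e
 (c z e
 (c z e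
 (c (a (nat_lit 0x6e4b48ed082e008)) e
 (c (a (nat_lit 0x796ce0a40000008)) e e)))))))))
 (c (a (nat_lit 0x16726a8a8a6a67))
 (c z e
 (c z e
 (c z e
 (c (a (nat_lit 0x3c1e1c19044ea09)) e e))))
 (c (a (nat_lit 0x1aac0bebebf264))
 (c z e
 (c (a (nat_lit 0x1edae18cd6b8eda7)) e
 (c (a (nat_lit 0xd2082b763a421e8)) e e)))
 (c (a (nat_lit 0x402020223025))
 (c (a (nat_lit 0x1a4e27e7b3a83c6)) e
 (c (a (nat_lit 0x261f92649432228)) e
 (c (a (nat_lit 0x17e6e4a43c24128)) e e)))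
 (c (a (nat_lit 0x8080a4531605))
 (c (a (nat_lit 0x1f3412462e46028)) e e)
 (c z e
 (c z e
 (c z e
 (c (a (nat_lit 0x1498d190a9a846)) e
 (c (a (nat_lit 0x13f273b3515148)) e
 (c (a (nat_lit 0x4856423c261)) e
 (c (a (nat_lit 0x6080604053a5)) e
 (c (a (nat_lit 0x1c1c1c1cd5086)) e
 (c (a (nat_lit 0x3c5c58f72a226)) e e))))))))))))))))))
 (c (nat_lit 1)
 (c z e
 (c z e
 (c z e
 (c z e
 (c (a (nat_lit 0xba080606054e5)) e
 (c (a (nat_lit 0x2020202793c7))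
 (c z e
 (c (a (nat_lit 0x18f05699f3f5ecc9)) e e))
 (c (a (nat_lit 0x2422289748ec7))
 (c (a (nat_lit 0x34358513349c1a8)) e e)
 (c z e
 (c z e
 (c z e
 (c z e
 (c z e
 (c z e
 (c (a (nat_lit 0xb02e2c447f662)) e
 (c (a (nat_lit 0x2c2c2c2ebd147)) e e)))))))))))))))
 (c (a (nat_lit 0x4040404021)) e
 (c (a (nat_lit 0x2020202021))
 (c z e
 (c (b (nat_lit 0x1014141dff743))
 (c (a (nat_lit 0xc0b4d4cf1f8f6a9))
 (c (a (nat_lit 0xf93f8b42a20000009)) e e)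
 (c z e
 (c z e
 (c z e
 (c (a (nat_lit 0xa4f17eecfea4809)) e e)))))
 (c z e
 (c z e
 (c z e
 (c (a (nat_lit 0x9c7ac86768947))
 (c (a (nat_lit 0x1ccd3da789c00007)) e e)
 (c z e
 (c z e
 (c z e
 (c (a (nat_lit 0x11aa8b6aa6e808)) e
 (c z e
 (c z e
 (c z e
 (c (a (nat_lit 0xfb516738be007)) e
 (c (a (nat_lit 0x10928800000007)) e e)))))))))))))))
 (c (a (nat_lit 0x20004001))
 (c (b (nat_lit 0x16161921fe025))
 (c (a (nat_lit 0x64647c9ecd11808))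
 (c (a (nat_lit 0x9b0ac038000000008)) e e)
 (c z e
 (c z e
 (c (a (nat_lit 0x668ea552e08ea29)) e
 (c (a (nat_lit 0x955d5774f720428)) e e)))))
 (c z e
 (c z e
 (c (a (nat_lit 0xaaa0c0301f567))
 (c z e
 (c (a (nat_lit 0x14288b48e6c00009)) e e))
 (c (a (nat_lit 0x8096081d4cc47))
 (c (a (nat_lit 0xd122aa760000008)) e e)
 (c z e
 (c z e
 (c (a (nat_lit 0x1d50cca658da7)) e
 (c (a (nat_lit 0x1e35b492af8707)) e
 (c z e
 (c z e
 (c (a (nat_lit 0x9b0f1884ea707)) e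
 (c (a (nat_lit 0x10108887800007)) e
 (c (a (nat_lit 0x14826000000006)) e e))))))))))))))
 (c (nat_lit 1)
 (c z e
 (c z e
 (c z e
 (c (a (nat_lit 0x12c06060501846))
 (c (a (nat_lit 0x1007ed4000000008)) e e)
 (c z e
 (c z e
 (c z e
 (c z e
 (c z e
 (c z e
 (c (a (nat_lit 0x10908235002006)) e
 (c (a (nat_lit 0x10c24060000006)) e
 (c (a (nat_lit 0x1e600000000002)) e e)))))))))))))
 (c (a (nat_lit 0x2020404041))
 (c z e
 (c (a (nat_lit 0x10e040204097c6))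
 (c (a (nat_lit 0xa545594a4800007)) e
 (c (a (nat_lit 0x1496ef6000000008)) e e))
 (c (a (nat_lit 0x2020204bb467))
 (c (a (nat_lit 0x1b0ec00000000007)) e e)
 (c (a (nat_lit 0x2026ea9637e7)) e
 (c z e
 (c z e
 (c z e
 (c z e
 (c z e
 (c (a (nat_lit 0x1d3ac84da00007)) e
 (c (a (nat_lit 0x16620000000007)) e e)))))))))))
 (c (a (nat_lit 0x20001e46))
 (c (a (nat_lit 0x181616100d5c6)) e
 (c (a (nat_lit 0x4242444586f26)) e
 (c (b (nat_lit 0x4a4a4dffbaae6)) e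
 (c z e
 (c z e
 (c (a (nat_lit 0xd93ef65a8aa68)) e
 (c z e
 (c (a (nat_lit 0x5c085a4f68008)) e
 (c (a (nat_lit 0x183ba0e0000003)) e
 (c (a (nat_lit 0x1ae00000000003)) e e))))))))))
 (c (a (nat_lit 0x201e5166))
 (c (a (nat_lit 0xa0a0a2a30f9e5)) e
 (c z e
 (c z e
 (c z e
 (c (a (nat_lit 0x9c9e9c9681ec8)) e
 (c (a (nat_lit 0x866668e352549)) e
 (c (a (nat_lit 0x465e610600009)) e
 (c (a (nat_lit 0x1aeec000000004)) e e))))))))
 (c (a (nat_lit 0x20350f0ba7))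
 (c z e
 (c z e
 (c z e
 (c z e
 (c z e
 (c z e
 (c (a (nat_lit 0x1c400000000003)) e e)))))))
 (c z e
 (c z e
 (c (a (nat_lit 0x12edab6705c6))
 (c (a (nat_lit 0x5db5762000008)) e e)
 (c (a (nat_lit 0x169676b6b6a8)) e
 (c (a (nat_lit 0x1800c0606023)) e
 (c (a (nat_lit 0x20100a0fe61)) e
 (c (a (nat_lit 0x20441f24)) e
 (c (a (nat_lit 0x5a5c60d93c6)) e
 (c z e
 (c (a (nat_lit 0xbef12cc2a07)) e
 (c (a (nat_lit 0xbda80402005)) e
 (c (a (nat_lit 0x1ae080404025)) e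
 (c (a (nat_lit 0x56141a04001)) e
 (c (a (nat_lit 0x2a160000001)) e e))))))))))))))))))))))))) Tr.c Tr.e (nat_lit 0) C.cx C.cy
noncomputable def C529 : Tr := beta% (fun (c : Nat → Tr → Tr → Tr) (e : Tr) (z : Nat) (a b : Nat → Nat) =>
 (c (a (nat_lit 0x40404041))
 (c (a (nat_lit 0x26270cecce7))
 (c (a (nat_lit 0xdcdd39897e045))
 (c (a (nat_lit 0x1ee7940e89455065)) e
 (c (a (nat_lit 0xe362b656be8a007)) e e))
 (c z e
 (c z e
 (c z e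
 (c z e
 (c z e
 (c (a (nat_lit 0x121638685d4e8)) e
 (c (a (nat_lit 0x7276cc67b78c8)) e e))))))))
 (c (a (nat_lit 0x393d1b02988)) e
 (c z e
 (c (a (nat_lit 0x1a732d218126))
 (c (a (nat_lit 0x426670a2852e8)) e
 (c (a (nat_lit 0x26708499f1848)) e e))
 (c (a (nat_lit 0x1973e7e7e7c6))
 (c (a (nat_lit 0x380a4310c5068)) e e)
 (c (a (nat_lit 0x16d2929291e6))
 (c (a (nat_lit 0x5d2f1ab4a64a7)) e
 (c (a (nat_lit 0x1017ad06400007)) e e))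
 (c (a (nat_lit 0x1e14061a001))
 (c (a (nat_lit 0x1aa36260000005)) e e)
 (c (b (nat_lit 0x20f17ffd66)) e
 (c z e
 (c (a (nat_lit 0x159555d110e5)) e
 (c (a (nat_lit 0x1516e0403263)) e
 (c (a (nat_lit 0x1340405210e3)) e
 (c (a (nat_lit 0x604200a001)) e
 (c (a (nat_lit 0x4080203be4)) e
 (c (a (nat_lit 0x41614e1385)) e e)))))))))))))))
 (c (a (nat_lit 0x20202021))
 (c (a (nat_lit 0x1a17d6ce2e07))
 (c (a (nat_lit 0x17f3d72f650e06)) e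
 (c (a (nat_lit 0xd9d6b00e9d6a6)) e
 (c z e
 (c z e
 (c (a (nat_lit 0x42346cb0251c8)) e
 (c (a (nat_lit 0x808916b4ece08)) e e))))))
 (c (a (nat_lit 0x12524c2c2927))
 (c (a (nat_lit 0xe8661206694a7)) e
 (c (a (nat_lit 0x8a7a828f28e88)) e
 (c (a (nat_lit 0x3282713f8d0c8)) e
 (c (a (nat_lit 0x4482d03712c08)) e
 (c (a (nat_lit 0xb9529706dc808)) e e)))))
 (c (a (nat_lit 0x1cb690908426))
 (c (a (nat_lit 0x281484d101647)) e
 (c (a (nat_lit 0x1644d94522748)) e e))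
 (c (a (nat_lit 0x104787876765))
 (c (a (nat_lit 0x10d7a2c0a6d27)) e e)
 (c (a (nat_lit 0x36383437862))
 (c (b (nat_lit 0x72bfea206006)) e
 (c (a (nat_lit 0x12009280000006)) e e))
 (c (a (nat_lit 0x8080b13084))
 (c (a (nat_lit 0x1719a000000005)) e e)
 (c z e
 (c z e
 (c (a (nat_lit 0x1e89a302c003)) e
 (c (a (nat_lit 0x3c0607534c4)) e
 (c (a (nat_lit 0xa201c08021)) e
 (c (a (nat_lit 0x2c260824001)) e
 (c (a (nat_lit 0x6040603725)) e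
 (c (a (nat_lit 0x60c05767e5)) e e))))))))))))))
 (c (a (nat_lit 0x20202021))
 (c (a (nat_lit 0x18e060404024))
 (c (a (nat_lit 0x126423a160bec3)) e
 (c (a (nat_lit 0x2a443a084bc66)) e
 (c (a (nat_lit 0x6a063f05ff586)) e
 (c (a (nat_lit 0x988605696c826)) e
 (c (a (nat_lit 0xba3f40d81c007)) e e)))))
 (c (a (nat_lit 0x4e2e285c441))
 (c (a (nat_lit 0x6a6c0663a8a06)) e
 (c (a (nat_lit 0x22243d4a5cca8)) e e))
 (c (a (nat_lit 0x301c1024641))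
 (c (a (nat_lit 0x4263905d025e7)) e e)
 (c (a (nat_lit 0x129292d7ba24))
 (c (a (nat_lit 0x91805c2000006)) e
 (c (a (nat_lit 0x1a046000000006)) e e))
 (c (a (nat_lit 0x12121615d4e6)) e
 (c (a (nat_lit 0xf50d08ece68)) e
 (c (a (nat_lit 0xc2c70505048)) e
 (c (a (nat_lit 0x11b090aa4066)) e
 (c (a (nat_lit 0x101a281e1a1)) e
 (c (a (nat_lit 0x18160c0c1a1)) e
 (c (a (nat_lit 0x2020203326)) e
 (c (a (nat_lit 0xe0e1142346)) e e))))))))))))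
 (c (a (nat_lit 0x60606061))
 (c (a (nat_lit 0x4060611f81))
 (c (a (nat_lit 0xd404137607e44)) e
 (c (a (nat_lit 0x280d8214f85a7)) e e))
 (c (a (nat_lit 0xaeacaf2f6e3))
 (c (a (nat_lit 0x7100c9a3c048)) e e)
 (c z e
 (c (a (nat_lit 0x1b5fde7d5ca6)) e
 (c (a (nat_lit 0x1170d0502907)) e
 (c (a (nat_lit 0xc6bf1312567)) e
 (c (a (nat_lit 0x2687274621)) e
 (c (a (nat_lit 0x14201612241)) e
 (c (a (nat_lit 0xd6d4d4055e5)) e
 (c (a (nat_lit 0x929295f07e5)) e e))))))))))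
 (c (nat_lit 1)
 (c (a (nat_lit 0x6a6c6f52f43))
 (c (a (nat_lit 0x1ec08f87804006)) e e)
 (c (a (nat_lit 0x1a5cbd7a98a6)) e
 (c z e
 (c (a (nat_lit 0x1291918a6a07)) e
 (c (a (nat_lit 0x970d0d0b0a6)) e
 (c (a (nat_lit 0x385a4218201)) e
 (c (a (nat_lit 0xe8e6e605345)) e
 (c (a (nat_lit 0x40405384e5)) e
 (c z e
 (c (a (nat_lit 0x35165254005)) e
 (c (a (nat_lit 0x186020000004)) e e)))))))))))
 (c (nat_lit 1)
 (c (a (nat_lit 0xed701e160c3)) e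
 (c (a (nat_lit 0x198c4c206044)) e
 (c (a (nat_lit 0x12f0cf8e4ea2)) e
 (c (a (nat_lit 0x13335433e004)) e
 (c (a (nat_lit 0x100604070a2)) e
 (c (a (nat_lit 0xd6d4d7946a5)) e
 (c z e
 (c (b (nat_lit 0x1ff62484c424)) e
 (c (a (nat_lit 0x12e040200004)) e
 (c (nat_lit 1) e e))))))))))
 (c (a (nat_lit 0x20000001))
 (c (a (nat_lit 0x17c1e201c001)) e
 (c (a (nat_lit 0x44303228181)) e
 (c (a (nat_lit 0x1e7ddda16003)) e
 (c (b (nat_lit 0x1474547d5fe5)) e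
 (c z e
 (c (a (nat_lit 0x95562402d66)) e
 (c (a (nat_lit 0x158260206006)) e
 (c (a (nat_lit 0x17a060000002)) e e))))))))
 (c (a (nat_lit 0x40404041))
 (c (a (nat_lit 0x8ab0b032001)) e
 (c z e
 (c z e
 (c (b (nat_lit 0x1ff7e26040c5)) e
 (c (a (nat_lit 0x17c26020d0a5)) e
 (c (a (nat_lit 0xa100400001)) e
 (c (a (nat_lit 0x6000000001)) e e)))))))
 (c (a (nat_lit 0x20204061))
 (c z e
 (c (b (nat_lit 0x1ff4a3e0c045)) e
 (c (a (nat_lit 0x1483c0603085)) e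
 (c (a (nat_lit 0x4060808001)) e
 (c (a (nat_lit 0x22100000001)) e e)))))
 (c (nat_lit 1)
 (c (a (nat_lit 0x9e320203005)) e
 (c (a (nat_lit 0x41a0c0c001)) e
 (c (a (nat_lit 0xa100400001)) e
 (c (a (nat_lit 0xa000000001)) e e))))
 (c (a (nat_lit 0x20202021))
 (c (a (nat_lit 0x4020402001)) e
 (c (a (nat_lit 0x4040000001)) e e))
 (c (a (nat_lit 0x40404041))
 (c (a (nat_lit 0x2000000001)) e e)
 (c (a (nat_lit 0x12e5)) e
 (c (a (nat_lit 0x2032f7e5)) e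
 (c (a (nat_lit 0x3563b2945)) e
 (c (a (nat_lit 0x1395ed0b06)) e
 (c (a (nat_lit 0x1604402025)) e
 (c (a (nat_lit 0x1060402003)) e
 (c (a (nat_lit 0x1a0602001)) e
 (c (a (nat_lit 0x140402001)) e
 (c (a (nat_lit 0xe080a0e1)) e
 (c (b (nat_lit 0x81011fe1)) e e))))))))))))))))))))))) Tr.c Tr.e (nat_lit 0) C.cx C.cy
noncomputable def C530 : Tr := beta% (fun (c : Nat → Tr → Tr → Tr) (e : Tr) (z : Nat) (a b : Nat → Nat) =>
 (c (a (nat_lit 0x40404021))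
 (c (a (nat_lit 0x4040404041))
 (c (a (nat_lit 0x17b1a7e7c76765))
 (c (a (nat_lit 0xc1054d51317d865))
 (c z e
 (c (a (nat_lit 0x196aa96b2961285b27)) e
 (c (a (nat_lit 0x4a62244a1a5c538e8)) e e)))
 (c z e
 (c z e
 (c z e
 (c z e
 (c z e
 (c (a (nat_lit 0x466aa1985c1ae86)) e
 (c z e
 (c z e
 (c z e
 (c (a (nat_lit 0x1a2668e000000006)) e e)))))))))))
 (c (a (nat_lit 0x140322e2e2c325))
 (c (a (nat_lit 0x268a8e96b0b5328))
 (c (a (nat_lit 0xacc88a8a718100f29)) e e)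
 (c z e
 (c z e
 (c z e
 (c (a (nat_lit 0x886674cd453cb29)) e
 (c (b (nat_lit 0x224ddff3240a88)) e
 (c z e
 (c (a (nat_lit 0x109173a96bc62009)) e e))))))))
 (c (a (nat_lit 0x20202057b2e5)) e
 (c z e
 (c z e
 (c (a (nat_lit 0xa89f692491465))
 (c (a (nat_lit 0x17466a0aa6c38128)) e e)
 (c z e
 (c z e
 (c (a (nat_lit 0xf729191aa4a47)) e
 (c (b (nat_lit 0x11bfebc1e065c6)) e
 (c (a (nat_lit 0x11d43466e9a6c6)) e
 (c z e
 (c (a (nat_lit 0x1c567a38998025)) e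
 (c (a (nat_lit 0x13f5d515f77d26)) e
 (c (a (nat_lit 0x13529374ed6006)) e e)))))))))))))))
 (c (a (nat_lit 0x2020202021))
 (c (b (nat_lit 0x4020205ffcc4))
 (c (a (nat_lit 0x20c71cd89d49da7))
 (c (a (nat_lit 0x66546c2b12dc803c8)) e e)
 (c z e
 (c z e
 (c (a (nat_lit 0x104eee5e9f79d5a9)) e
 (c (a (nat_lit 0x1e2e79230658a89)) e
 (c z e
 (c z e
 (c (a (nat_lit 0x12f9917066a00008)) e
 (c (a (nat_lit 0x182fa5e000000008)) e e)))))))))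
 (c z e
 (c z e
 (c (a (nat_lit 0x84b750a82fa86))
 (c (a (nat_lit 0x132fcd4caca6464a)) e
 (c (a (nat_lit 0x174c8a6ec74446aa)) e e))
 (c (a (nat_lit 0x428a548d2ef87))
 (c (a (nat_lit 0x110d780e43a1e208)) e e)
 (c z e
 (c z e
 (c (a (nat_lit 0x7b7ae69c103e7)) e
 (c (a (nat_lit 0x150909434801a7)) e
 (c z e
 (c z e
 (c (a (nat_lit 0x9a62408211727)) e
 (c (a (nat_lit 0xa894b2b110768)) e e)))))))))))))
 (c (a (nat_lit 0x2040404021)) e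
 (c (a (nat_lit 0x2060606041))
 (c z e
 (c z e
 (c z e
 (c z e
 (c z e
 (c z e
 (c z e
 (c z e
 (c z e
 (c z e
 (c (a (nat_lit 0x136e7e0f000008)) e
 (c (a (nat_lit 0x1cbde000000007)) e e))))))))))))
 (c (a (nat_lit 0x2020203ca7))
 (c (a (nat_lit 0x2a2e2e0205189))
 (c (a (nat_lit 0xe924b6b6e0f65c8)) e
 (c (a (nat_lit 0x102fe9f0c8a00009)) e e))
 (c (a (nat_lit 0x2826060b30729))
 (c (a (nat_lit 0x1a2a154780000008)) e e)
 (c z e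
 (c z e
 (c (b (nat_lit 0x1ffe0480608608)) e
 (c (a (nat_lit 0x13664503a4c469)) e
 (c z e
 (c z e
 (c (b (nat_lit 0x7fe0910fa008)) e
 (c (a (nat_lit 0x1291d1c0000008)) e e))))))))))
 (c (a (nat_lit 0x20375086))
 (c (a (nat_lit 0x180e0e0f1a327)) e
 (c z e
 (c z e
 (c (a (nat_lit 0xdfe50d2172e67)) e
 (c (a (nat_lit 0x1b57d833f130c7)) e
 (c z e
 (c z e
 (c (a (nat_lit 0x786c855200008)) e
 (c (a (nat_lit 0x11a04000000004)) e e)))))))))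
 (c (a (nat_lit 0x2031af0a07)) e
 (c (a (nat_lit 0x51ef8a2187))
 (c (b (nat_lit 0x783f8baffe3c6)) e e)
 (c (a (nat_lit 0x10cea94100e7))
 (c (a (nat_lit 0x2b0db2012787)) e
 (c (a (nat_lit 0x96a901164c169)) e e))
 (c (a (nat_lit 0x102741c1c186))
 (c (a (nat_lit 0x5c29164c16048)) e e)
 (c (a (nat_lit 0x11af0eeecdc5))
 (c (a (nat_lit 0x1367c820000006)) e e)
 (c z e
 (c (a (nat_lit 0x4020207b04)) e
 (c (a (nat_lit 0x202049d445)) e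
 (c (a (nat_lit 0x9c9ed53eea6)) e
 (c (a (nat_lit 0x9503c92ea45)) e
 (c (a (nat_lit 0xb33c0404164)) e
 (c (b (nat_lit 0x13e0c061ffe4)) e
 (c z e
 (c (a (nat_lit 0x125560204043)) e
 (c (a (nat_lit 0x152020200003)) e
 (c (a (nat_lit 0x2000000001)) e e))))))))))))))))))))))
 (c (a (nat_lit 0x20202021))
 (c (a (nat_lit 0x4040404041))
 (c (a (nat_lit 0x949514a552244))
 (c z e
 (c z e
 (c z e
 (c (a (nat_lit 0xb084ed8d8eb0b68)) e
 (c (a (nat_lit 0x2e5663804a724a8)) e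
 (c z e
 (c (a (nat_lit 0x5d5f06e46628007)) e
 (c (a (nat_lit 0x10aa48e3e0000008)) e
 (c (a (nat_lit 0x154a200000000007)) e e)))))))))
 (c (a (nat_lit 0x80a312f026086)) e
 (c z e
 (c (b (nat_lit 0x10b7a2aab65fe5))
 (c (a (nat_lit 0x1bfacdc9e985a4c8)) e
 (c (a (nat_lit 0x1fc488eac5e56028)) e e))
 (c (b (nat_lit 0xbc2a6fb3fffe6))
 (c (a (nat_lit 0x417590d21e10006)) e e)
 (c (a (nat_lit 0x76953cc4501e7)) e
 (c z e
 (c (a (nat_lit 0x15cc0620ebf0e7)) e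
 (c (a (nat_lit 0x9a4e4f2917147)) e
 (c (a (nat_lit 0x8331f1314fa7)) e
 (c (a (nat_lit 0xd549636539848)) e
 (c (a (nat_lit 0x86e6c89de8e66)) e
 (c (a (nat_lit 0x10ef8ed4068007)) e e)))))))))))))
 (c (a (nat_lit 0x20202001))
 (c (a (nat_lit 0xe1e32c645c9c6))
 (c (a (nat_lit 0xd4aca8e70cb0048)) e
 (c z e
 (c z e
 (c z e
 (c (a (nat_lit 0x1888880a514a8009)) e e)))))
 (c z e
 (c z e
 (c z e
 (c (a (nat_lit 0xb917bcd898ea8)) e
 (c z e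
 (c z e
 (c z e
 (c (a (nat_lit 0xeaa98a525667)) e e)))))))))
 (c (a (nat_lit 0x2020201947)) e
 (c (a (nat_lit 0x20203ff567))
 (c (a (nat_lit 0xf11d32ce6d8c7))
 (c (a (nat_lit 0x141ef311db47e007)) e
 (c (a (nat_lit 0x1db63bd140000008)) e e))
 (c (a (nat_lit 0xbaa442990eda7))
 (c (a (nat_lit 0xdb307e000000008)) e e)
 (c z e
 (c z e
 (c (a (nat_lit 0x73066865c928)) e
 (c (a (nat_lit 0x114404a9860f08)) e
 (c z e
 (c z e
 (c (a (nat_lit 0x6c7118ba00009)) e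
 (c (a (nat_lit 0x12ae8000000008)) e e))))))))))
 (c (a (nat_lit 0x34355975307))
 (c (a (nat_lit 0x8486c6a966546)) e
 (c z e
 (c z e
 (c (a (nat_lit 0x11f20be76fe467)) e
 (c (a (nat_lit 0xa498a48e792a8)) e
 (c z e
 (c (a (nat_lit 0x109413d7d8e008)) e
 (c (a (nat_lit 0x1cf59b00000007)) e
 (c (a (nat_lit 0x400000000001)) e e)))))))))
 (c (a (nat_lit 0x4f75954eb47))
 (c (b (nat_lit 0x103ff53fe421a5)) e
 (c z e
 (c z e
 (c z e
 (c (b (nat_lit 0xc89dffffe86e8)) e e)))))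
 (c z e
 (c (a (nat_lit 0x1e11b162e2e6))
 (c (a (nat_lit 0x375ac42272547)) e
 (c (a (nat_lit 0xff86b4d876228)) e e))
 (c (a (nat_lit 0x1181e1c1c466))
 (c (a (nat_lit 0x128a0944e12007)) e e)
 (c (a (nat_lit 0xfd4f4f4d4c5)) e
 (c (a (nat_lit 0x167676767a85)) e
 (c (a (nat_lit 0x404c7055e6)) e
 (c (a (nat_lit 0x94946348005)) e
 (c (a (nat_lit 0x19bb1f553406)) e
 (c (a (nat_lit 0x84c80217106)) e
 (c (a (nat_lit 0x1680205f6ea5)) e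
 (c (a (nat_lit 0xa0b047e566)) e
 (c (a (nat_lit 0x251e9222226)) e
 (c (a (nat_lit 0x15a420202005)) e
 (c (a (nat_lit 0x108040000003)) e e))))))))))))))))))))
 (c (a (nat_lit 0x40404041))
 (c (a (nat_lit 0x202018e6))
 (c (a (nat_lit 0x15c8006060bee5))
 (c (a (nat_lit 0x8cb70edebe7a066)) e
 (c (a (nat_lit 0x77026c643a32409)) e
 (c z e
 (c z e
 (c (a (nat_lit 0xb22a571c9a00007)) e e)))))
 (c (a (nat_lit 0x460a0a4510027))
 (c (a (nat_lit 0x1c29e54425c1e789)) e e)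
 (c z e
 (c z e
 (c (a (nat_lit 0x599d324e246c7)) e
 (c z e
 (c z e
 (c (a (nat_lit 0xa6c6ccd148d07)) e
 (c (b (nat_lit 0x1fe5468e379a46)) e e)))))))))
 (c (a (nat_lit 0x203934a7))
 (c (b (nat_lit 0x2c2e55ff160e7))
 (c (a (nat_lit 0x160a632aa467e5e8)) e e)
 (c z e
 (c z e
 (c z e
 (c z e
 (c z e
 (c (a (nat_lit 0x5ed2dd6f0dc47)) e
 (c (a (nat_lit 0x1e2640aa676e9)) e e))))))))
 (c (a (nat_lit 0x2032cfce48)) e
 (c z e
 (c (a (nat_lit 0x15f530e8c187))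
 (c (a (nat_lit 0x108f15e7a783a6)) e
 (c z e
 (c z e
 (c z e
 (c (a (nat_lit 0xc4a741e028008)) e e)))))
 (c z e
 (c z e
 (c (a (nat_lit 0x1352121231a7)) e
 (c (a (nat_lit 0x20202035a6)) e
 (c (a (nat_lit 0x202035c586)) e
 (c z e
 (c (a (nat_lit 0xe9e0fe78786)) e
 (c (a (nat_lit 0x16a880202066)) e
 (c (a (nat_lit 0x440202055a7)) e
 (c (a (nat_lit 0x20358487)) e
 (c (a (nat_lit 0x35846407)) e
 (c (a (nat_lit 0x158423c3c7)) e
 (c (a (nat_lit 0x11c080200007)) e e))))))))))))))))))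
 C529)))) Tr.c Tr.e (nat_lit 0) C.cx C.cy
noncomputable def C531 : Tr := beta% (fun (c : Nat → Tr → Tr → Tr) (e : Tr) (z : Nat) (a b : Nat → Nat) =>
 (c (a (nat_lit 0x2020002021))
 (c (a (nat_lit 0x20202030cb06))
 (c (a (nat_lit 0x12121214a6e1244))
 (c z e
 (c z e
 (c z e
 (c z e
 (c z e
 (c z e
 (c (a (nat_lit 0x1f9c0b2e50767116e7)) e
 (c z e
 (c z e
 (c (a (nat_lit 0x41a50ed0a2b23a007)) e e))))))))))
 (c (a (nat_lit 0x343436fb34c0b06))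
 (c z e
 (c z e
 (c z e
 (c z e
 (c z e
 (c z e
 (c (a (nat_lit 0xa06514bcb6fad2e68)) e e)))))))
 (c z e
 (c z e
 (c (a (nat_lit 0xe0b4e09a6fd2d06))
 (c z e
 (c z e
 (c z e
 (c z e
 (c (a (nat_lit 0x18a1c0a2c360000007)) e e)))))
 (c z e
 (c (a (nat_lit 0x460a0e0c10a7266)) e
 (c (a (nat_lit 0x1e2424222567465)) e
 (c (a (nat_lit 0x4246c49909a98e5)) e
 (c (a (nat_lit 0x68a8b2e9a100506)) e
 (c (a (nat_lit 0xdee311653646326)) e
 (c (a (nat_lit 0xd1034b2894c2026)) e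
 (c (a (nat_lit 0xe536fe6e9032026)) e
 (c (a (nat_lit 0xd6d2c4b37190848)) e
 (c (a (nat_lit 0x64103429d600007)) e
 (c (a (nat_lit 0x1c27c0c000000004)) e e))))))))))))))))
 (c (a (nat_lit 0xa0a0bd979507))
 (c z e
 (c z e
 (c z e
 (c z e
 (c z e
 (c (a (nat_lit 0x3e2e2e7494efb68))
 (c z e
 (c (a (nat_lit 0xc50ee25c000000009)) e e))
 (c (a (nat_lit 0x14126c692502e47)) e
 (c z e
 (c (a (nat_lit 0x6e869d0eca9e6a8)) e
 (c z e
 (c z e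
 (c z e
 (c z e
 (c (a (nat_lit 0xa2805000000009)) e
 (c (a (nat_lit 0x17e6c00000000007)) e e)))))))))))))))
 (c (a (nat_lit 0x10113108f4428)) e
 (c z e
 (c (a (nat_lit 0x1390af882282a8))
 (c (a (nat_lit 0x83e9430af39b2e7))
 (c (a (nat_lit 0x9c8c70726cdf8f709)) e e)
 (c z e
 (c z e
 (c z e
 (c (a (nat_lit 0x646048143c670c8)) e
 (c z e
 (c z e
 (c z e
 (c (a (nat_lit 0x3c4b210a5a00009)) e e)))))))))
 (c z e
 (c (a (nat_lit 0x12ca480804e4e7))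
 (c z e
 (c (a (nat_lit 0x159412276a0bfb68)) e
 (c (a (nat_lit 0x11eca2e7f3702dc8)) e e)))
 (c (a (nat_lit 0x32020202037e5))
 (c (a (nat_lit 0x50081a0cf9c2d87)) e
 (c (a (nat_lit 0x28261b1744c0408)) e
 (c (a (nat_lit 0xa1dcb5ee25c1e8)) e e)))
 (c (a (nat_lit 0x6040407910c5))
 (c (a (nat_lit 0x524968feea689e7)) e e)
 (c (a (nat_lit 0x209992df45)) e
 (c z e
 (c z e
 (c (a (nat_lit 0x10d195506aa687)) e
 (c (a (nat_lit 0x1536f91936d3c8)) e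
 (c (a (nat_lit 0x167292d1ceaea7)) e
 (c (a (nat_lit 0x4060403264)) e
 (c (a (nat_lit 0x20202024b6a6)) e
 (c (a (nat_lit 0x165640617efe6)) e e))))))))))))))))))
 (c (a (nat_lit 0x2020202021))
 (c (a (nat_lit 0x2021bf7d5a547))
 (c z e
 (c z e
 (c z e
 (c z e
 (c z e
 (c z e
 (c z e
 (c z e
 (c (a (nat_lit 0xb0b0f100e0de908)) e e)))))))))
 (c z e
 (c z e
 (c z e
 (c z e
 (c (a (nat_lit 0x4e04040403e06))
 (c z e
 (c (a (nat_lit 0xdece95251cc3449)) e e))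
 (c (a (nat_lit 0x2020205e1926))
 (c (a (nat_lit 0x30120d6904c25c8)) e
 (c (a (nat_lit 0x281380a934840a9)) e e))
 (c (a (nat_lit 0x28282b24f6dc7)) e
 (c z e
 (c z e
 (c z e
 (c z e
 (c z e
 (c (a (nat_lit 0x1467c86160a006)) e
 (c (a (nat_lit 0x2020e653e6)) e e)))))))))))))))
 (c (a (nat_lit 0x6060606041)) e
 (c (a (nat_lit 0x4040606041))
 (c z e
 (c (a (nat_lit 0xa64c4e4e4f7c6))
 (c (a (nat_lit 0x2e6c5654ab23e88))
 (c (a (nat_lit 0xc2e1df295a5c00008)) e e) e)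
 (c z e
 (c z e
 (c z e
 (c (a (nat_lit 0x62786e76270a8))
 (c (a (nat_lit 0x1bdf3096b38a8007)) e e)
 (c z e
 (c z e
 (c z e
 (c (a (nat_lit 0x55348c8678188)) e
 (c z e
 (c z e
 (c z e
 (c (a (nat_lit 0x123038f9f76ec7)) e
 (c (a (nat_lit 0xa12f408e00007)) e e)))))))))))))))
 (c (a (nat_lit 0x20002001))
 (c (b (nat_lit 0x204040539fe6))
 (c (a (nat_lit 0x4e5c4e7242e1348)) e
 (c z e
 (c z e
 (c z e
 (c (a (nat_lit 0x346ecb3a9c587e9)) e e)))))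
 (c (b (nat_lit 0x38396ffffffe3)) e
 (c z e
 (c (a (nat_lit 0x1298509229ca07)) e
 (c (a (nat_lit 0x682e2a0205428))
 (c (a (nat_lit 0x1d4d32d2ea200008)) e e)
 (c z e
 (c z e
 (c z e
 (c (a (nat_lit 0x2d6a826660248)) e
 (c z e
 (c z e
 (c z e
 (c (a (nat_lit 0x71bcb8a604006)) e
 (c (a (nat_lit 0x12eaa520000007)) e e))))))))))))))
 (c (a (nat_lit 0x2020202021))
 (c z e
 (c z e
 (c z e
 (c z e
 (c z e
 (c z e
 (c z e
 (c z e
 (c z e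
 (c z e
 (c (a (nat_lit 0xf189c5a3a387)) e
 (c (a (nat_lit 0x1b4c6040400006)) e
 (c (a (nat_lit 0x18602000000005)) e e)))))))))))))
 (c (a (nat_lit 0x4040404041))
 (c z e
 (c (a (nat_lit 0x99c4ae94929e5))
 (c (a (nat_lit 0x12f0b2b16ec46008)) e
 (c (a (nat_lit 0x1050b1eac0000009)) e e))
 (c (a (nat_lit 0x9a04040209186))
 (c (a (nat_lit 0x1071a88000000008)) e e)
 (c (a (nat_lit 0x402040af77a6)) e
 (c z e
 (c z e
 (c z e
 (c z e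
 (c z e
 (c (a (nat_lit 0xd77f0ae402006)) e
 (c (a (nat_lit 0x18002020000006)) e
 (c (a (nat_lit 0x600000000001)) e e))))))))))))
 (c (a (nat_lit 0x2020202021))
 (c (a (nat_lit 0x1360e0606080a4)) e
 (c (a (nat_lit 0x402020407066)) e
 (c (a (nat_lit 0xa0a0c1502ba6)) e
 (c z e
 (c z e
 (c (a (nat_lit 0xd4df0e82209a8)) e
 (c z e
 (c (a (nat_lit 0x118cc928e87e48)) e
 (c (a (nat_lit 0x138243a0400005)) e
 (c (a (nat_lit 0x150d4000000003)) e e))))))))))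
 (c (a (nat_lit 0x20001c46))
 (c (a (nat_lit 0xf6f6faff0b9a4)) e
 (c (b (nat_lit 0x4e506dff1a506)) e
 (c z e
 (c z e
 (c (a (nat_lit 0x71cf99536b207)) e
 (c (a (nat_lit 0x7868baad899c8)) e
 (c (a (nat_lit 0x6a7e8673c0008)) e
 (c (a (nat_lit 0x189123e0000005)) e
 (c (a (nat_lit 0x1a800000000004)) e e)))))))))
 (c (a (nat_lit 0x1c5686))
 (c z e
 (c z e
 (c z e
 (c z e
 (c z e
 (c (a (nat_lit 0x7466751c00009)) e
 (c (a (nat_lit 0x1edcc000000004)) e e)))))))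
 (c (a (nat_lit 0x2034ade8e7)) e
 (c z e
 (c (a (nat_lit 0x133149a02007))
 (c (a (nat_lit 0xb29195c420008)) e e)
 (c (a (nat_lit 0x126df5553526)) e
 (c (a (nat_lit 0x1ad898989887)) e
 (c (a (nat_lit 0x2e1c1a1a061)) e
 (c (a (nat_lit 0x20202035e5)) e
 (c (a (nat_lit 0x1c1c1f7e4a5)) e
 (c z e
 (c z e
 (c (a (nat_lit 0xa61b0c14105)) e
 (c (a (nat_lit 0x17fe1006044)) e
 (c (a (nat_lit 0x1fc100604024)) e
 (c (a (nat_lit 0x66100600001)) e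
 (c (a (nat_lit 0xc000000001)) e e)))))))))))))))))))))))))) Tr.c Tr.e (nat_lit 0) C.cx C.cy
noncomputable def C532 : Tr := beta% (fun (c : Nat → Tr → Tr → Tr) (e : Tr) (z : Nat) (a b : Nat → Nat) =>
 (c (a (nat_lit 0x2020202021))
 (c (a (nat_lit 0x15900e802022a5))
 (c (a (nat_lit 0x108664243474b866)) e
 (c z e
 (c z e
 (c (a (nat_lit 0xacc7890769f4e8)) e
 (c (a (nat_lit 0x6c9cae868a734c7)) e
 (c z e
 (c z e
 (c (a (nat_lit 0x6ea4889d3090be8)) e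
 (c (a (nat_lit 0xacb88d649252008)) e e)))))))))
 (c (a (nat_lit 0x146c6747474726))
 (c (a (nat_lit 0x9e80d4d0d33f5a7)) e e)
 (c (a (nat_lit 0x1a355535350004)) e
 (c (b (nat_lit 0x16121623fffe1))
 (c (a (nat_lit 0x726c4ccb069e809)) e
 (c (a (nat_lit 0x7048c95a946e809)) e
 (c z e
 (c z e
 (c (a (nat_lit 0x160b45ad04c00008)) e
 (c (a (nat_lit 0x104725e000000008)) e e))))))
 (c (a (nat_lit 0xe4e2e4d336004))
 (c (a (nat_lit 0x1443a2f03270487)) e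
 (c z e
 (c z e
 (c (a (nat_lit 0x130df3a940000007)) e
 (c (a (nat_lit 0x1089c00000000006)) e e)))))
 (c (a (nat_lit 0x141415956baa25))
 (c (a (nat_lit 0x16d9169a2bf36606)) e e)
 (c z e
 (c (a (nat_lit 0x728416493eaa6)) e
 (c (a (nat_lit 0x7014452a888c6)) e
 (c (a (nat_lit 0x54b7b71502f06)) e
 (c (a (nat_lit 0xfbfd555138126)) e
 (c (a (nat_lit 0x17ed8e2e6703e6)) e
 (c (a (nat_lit 0x566c6390e9d25)) e
 (c (a (nat_lit 0xe0dd751f95566)) e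
 (c (a (nat_lit 0x952ad74c88006)) e
 (c (a (nat_lit 0x16b16c60000006)) e
 (c (a (nat_lit 0x14400000000004)) e e)))))))))))))))))
 (c (nat_lit 1)
 (c (a (nat_lit 0x7a040404059c4))
 (c (a (nat_lit 0x66649e7ede63246)) e
 (c (a (nat_lit 0x122a24303a870e9))
 (c (a (nat_lit 0x143c4a400000000008)) e e)
 (c z e
 (c z e
 (c (a (nat_lit 0xa484a52dd8e68e7)) e e)))))
 (c (a (nat_lit 0x1414101b56123))
 (c (a (nat_lit 0x5c5c6a82936ae49))
 (c (a (nat_lit 0x18c6e0000000000008)) e e) e)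
 (c (a (nat_lit 0xc0c0c1265c006)) e
 (c (a (nat_lit 0xe8eb809214065)) e
 (c (a (nat_lit 0xeb7e880806105))
 (c (a (nat_lit 0x18342bca5266c007)) e e)
 (c (a (nat_lit 0x62260202055e7)) e
 (c z e
 (c z e
 (c (b (nat_lit 0x1ffff8a54544c7)) e
 (c z e
 (c z e
 (c z e
 (c (a (nat_lit 0x890744d34a365)) e
 (c (a (nat_lit 0xf516da8c00006)) e
 (c (a (nat_lit 0x1b6a0000000005)) e e)))))))))))))))
 (c (a (nat_lit 0x2020202021))
 (c (a (nat_lit 0xfcfcfc8152025))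
 (c (a (nat_lit 0x5c4c6e5506fa8c8)) e
 (c z e
 (c z e
 (c (a (nat_lit 0x56f9a920c476bc8)) e
 (c z e
 (c z e
 (c (a (nat_lit 0x19e3000000000006)) e e)))))))
 (c (b (nat_lit 0x1a3a7fffffffe4)) e
 (c z e
 (c (a (nat_lit 0xd89816375d223))
 (c (a (nat_lit 0x116c8a2fc8000008)) e
 (c (a (nat_lit 0x1dd7f28000000007)) e e))
 (c (a (nat_lit 0xcb2325130b463))
 (c (a (nat_lit 0x1267e00000000006)) e e)
 (c z e
 (c (a (nat_lit 0x2b6cd399c5)) e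
 (c z e
 (c z e
 (c z e
 (c (a (nat_lit 0x124eff18aa085)) e
 (c (a (nat_lit 0x40ef14ac04005)) e
 (c (a (nat_lit 0xe910020000005)) e
 (c (a (nat_lit 0x11000000000005)) e e))))))))))))))
 (c (a (nat_lit 0x2020202021))
 (c (a (nat_lit 0x525e0c060f5a4))
 (c (a (nat_lit 0x10d3d4f16d296547)) e
 (c (a (nat_lit 0x14d7102caa69ed08)) e e))
 (c (a (nat_lit 0x140a0755504))
 (c (a (nat_lit 0x1930ef0d8fd18507)) e
 (c (a (nat_lit 0x195e389e30e00007)) e e))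
 (c (a (nat_lit 0x11515353514e4))
 (c (a (nat_lit 0x15ee5268e0000006)) e
 (c (a (nat_lit 0x12c8400000000006)) e e))
 (c (a (nat_lit 0xe0e182c13061)) e
 (c (a (nat_lit 0x204040d0e5)) e
 (c (a (nat_lit 0x4848c4e9fc005)) e
 (c z e
 (c z e
 (c (a (nat_lit 0xebd1715c1cda5)) e
 (c (a (nat_lit 0x14f0f1908eaea6)) e
 (c (a (nat_lit 0xf77ef40800003)) e
 (c (a (nat_lit 0x13478000000004)) e e))))))))))))
 (c (nat_lit 1)
 (c z e
 (c (a (nat_lit 0xc5076705a1)) e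
 (c (a (nat_lit 0x604040409144)) e
 (c (a (nat_lit 0x7a7a7a7b080c5)) e
 (c (b (nat_lit 0x1393735ebfffe5)) e
 (c (a (nat_lit 0x74ebc4dc804c6)) e
 (c (b (nat_lit 0x9763ff1490e06)) e
 (c (a (nat_lit 0x13f2b26faa4a26)) e
 (c (a (nat_lit 0x1d408121208002)) e
 (c (a (nat_lit 0x161e0e0000001)) e e))))))))))
 (c (nat_lit 1)
 (c (a (nat_lit 0x262a2c2c33ae3)) e
 (c (b (nat_lit 0xa8a8a6a9dffe4)) e
 (c (b (nat_lit 0xf0f1ff964a444)) e
 (c z e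
 (c (b (nat_lit 0x149e7ffe43546)) e
 (c z e
 (c (a (nat_lit 0x64cb0a6a312a6)) e
 (c (a (nat_lit 0x452ed60200004)) e
 (c (a (nat_lit 0x1026c000000005)) e e)))))))))
 (c (a (nat_lit 0x20202032e5))
 (c (b (nat_lit 0x1171509ffff462)) e
 (c z e
 (c z e
 (c z e
 (c z e
 (c (a (nat_lit 0x14980ccfdd6006)) e
 (c (a (nat_lit 0x18274740000005)) e
 (c (a (nat_lit 0x200000000001)) e e))))))))
 (c (a (nat_lit 0x2020379165))
 (c (a (nat_lit 0x94a2bbdfcb6c4)) e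
 (c (a (nat_lit 0x6e66931b109e7)) e
 (c z e
 (c (b (nat_lit 0x227fecf00747)) e
 (c (a (nat_lit 0x11f1d059a00007)) e
 (c (a (nat_lit 0x11202000000002)) e e))))))
 (c (a (nat_lit 0x36f34825))
 (c (a (nat_lit 0x202928e414a7)) e
 (c z e
 (c z e
 (c (a (nat_lit 0x1ab75ca0000007)) e e))))
 (c (a (nat_lit 0x4f7986a4245))
 (c (a (nat_lit 0xaf6543a9bebc6)) e e)
 (c (a (nat_lit 0x10e807802005)) e
 (c (a (nat_lit 0x1cc3b5b59543)) e
 (c (a (nat_lit 0x2820120e001)) e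
 (c (a (nat_lit 0x2c14121a001)) e
 (c (a (nat_lit 0x20100616261)) e
 (c (a (nat_lit 0x140e1234001)) e
 (c (b (nat_lit 0xd6dafbfffe1)) e
 (c (a (nat_lit 0x1c1c9a38f8c4)) e
 (c (a (nat_lit 0x1bcb00408001)) e
 (c (a (nat_lit 0xce100808001)) e
 (c (a (nat_lit 0x20140c06001)) e
 (c (a (nat_lit 0xc020000001)) e e))))))))))))))))))))))) Tr.c Tr.e (nat_lit 0) C.cx C.cy
noncomputable def C533 : Tr := beta% (fun (c : Nat → Tr → Tr → Tr) (e : Tr) (z : Nat) (a b : Nat → Nat) =>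
 (c (a (nat_lit 0x2020202021))
 (c (a (nat_lit 0x202020203006))
 (c (a (nat_lit 0xb2aaaaaaab0ae66))
 (c z e
 (c (a (nat_lit 0x6a6aaecd1d9ba5727))
 (c z e
 (c z e
 (c (a (nat_lit 0x90cabad0eac52fae80a)) e
 (c (a (nat_lit 0x828ec2b628816148609)) e e))))
 (c z e
 (c z e
 (c (a (nat_lit 0x1194d813740df30827)) e
 (c z e
 (c (a (nat_lit 0x1839f805e485eccda7)) e
 (c (a (nat_lit 0xcea2685ea34ac6dc7)) e
 (c z e
 (c (a (nat_lit 0xa8b7c54f8747447e7)) e e))))))))))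
 (c (a (nat_lit 0x2828282b46de826))
 (c z e
 (c z e
 (c z e
 (c z e
 (c z e
 (c (a (nat_lit 0x12516b4c89278df5a9)) e
 (c (a (nat_lit 0x7e72352e94850ac28)) e e)))))))
 (c z e
 (c z e
 (c (a (nat_lit 0x8ea0728050496c7))
 (c (a (nat_lit 0xecb736e51b0e8c688)) e
 (c z e
 (c z e
 (c z e
 (c (a (nat_lit 0x890a08106c4c00008)) e e)))))
 (c z e
 (c (a (nat_lit 0x18905a5c5a634c5))
 (c (a (nat_lit 0x12759d2f96294b07e7)) e e)
 (c (a (nat_lit 0x380c02020205805)) e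
 (c (a (nat_lit 0x2e2c2c7a2d87165)) e
 (c (a (nat_lit 0x4a4cb29ef1408c6)) e
 (c (a (nat_lit 0xb31d074722ea666)) e
 (c z e
 (c (a (nat_lit 0xcb0560e46698406)) e
 (c z e
 (c (a (nat_lit 0x5846303a3b0e008)) e
 (c (a (nat_lit 0x194b404020000005)) e e))))))))))))))))
 (c (a (nat_lit 0x2020203d57e6))
 (c z e
 (c z e
 (c z e
 (c z e
 (c z e
 (c (a (nat_lit 0x812040204891e7))
 (c z e
 (c (a (nat_lit 0x1c71ea6e2160000008)) e e))
 (c (a (nat_lit 0xa0c062c139e686)) e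
 (c (a (nat_lit 0x6e6cb8d9110eac7)) e
 (c z e
 (c z e
 (c z e
 (c z e
 (c z e
 (c (a (nat_lit 0x141e68270600008)) e
 (c (a (nat_lit 0x119602e000000006)) e e)))))))))))))))
 (c (a (nat_lit 0x202035b2b007))
 (c z e
 (c z e
 (c z e
 (c z e
 (c z e
 (c z e
 (c z e
 (c (a (nat_lit 0x9284bb2fcd02a27)) e
 (c z e
 (c z e
 (c z e
 (c z e
 (c (b (nat_lit 0x1fffe290e0000008)) e
 (c (a (nat_lit 0x19ee400000000007)) e e))))))))))))))
 (c (a (nat_lit 0x203554d28547))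
 (c z e
 (c z e
 (c z e
 (c z e
 (c z e
 (c z e
 (c z e
 (c (a (nat_lit 0xc0ce2a4b8ab1a7)) e e))))))))
 (c (a (nat_lit 0x316d4d267a1e7))
 (c (a (nat_lit 0x15c89c4094ec7))
 (c (a (nat_lit 0xf08e6a486e912bc48)) e e)
 (c z e
 (c z e
 (c z e
 (c (a (nat_lit 0x1dde3a74914715e6)) e
 (c z e
 (c z e
 (c z e
 (c (a (nat_lit 0x94525d9be84e008)) e e)))))))))
 (c z e
 (c (a (nat_lit 0xf308babaa0707))
 (c z e
 (c (a (nat_lit 0xb9492b2ad6dfc67)) e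
 (c (a (nat_lit 0x48849a6e50932c8)) e
 (c (a (nat_lit 0xb08c448d86812c8)) e e))))
 (c (a (nat_lit 0x11806040404025))
 (c (a (nat_lit 0x880c040802a1147)) e
 (c (a (nat_lit 0xe2e12063d1e4a8)) e
 (c (b (nat_lit 0x61fe3fa756e0807)) e e)))
 (c (a (nat_lit 0x604040403725))
 (c (a (nat_lit 0x763e28174c94467)) e e)
 (c (a (nat_lit 0x4040205646a5)) e
 (c (a (nat_lit 0x303239ece5225)) e
 (c z e
 (c (a (nat_lit 0x12dd79d9d3cc66)) e
 (c z e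
 (c (a (nat_lit 0x1678173592b1a7)) e
 (c (a (nat_lit 0x1f8320a06080a2)) e
 (c (a (nat_lit 0xc020406071a4)) e
 (c (a (nat_lit 0x250048d025)) e e))))))))))))))))))
 (c (a (nat_lit 0x2020202021))
 (c (a (nat_lit 0x606071cf4d46))
 (c z e
 (c z e
 (c z e
 (c z e
 (c z e
 (c z e
 (c z e
 (c z e
 (c (a (nat_lit 0x7ad4eb0b0e9efe6)) e
 (c z e
 (c z e
 (c z e
 (c z e
 (c (a (nat_lit 0x4ab65b320000007)) e e))))))))))))))
 (c (a (nat_lit 0x2033d18f2267)) e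
 (c z e
 (c z e
 (c z e
 (c (a (nat_lit 0x1c13d0b0aa6a66))
 (c z e
 (c (a (nat_lit 0xbcc2cac38397568)) e
 (c (a (nat_lit 0x7e96892f3af8968)) e e)))
 (c (a (nat_lit 0x1008040405cc4))
 (c (a (nat_lit 0x4c1e18077cc27e7)) e
 (c (a (nat_lit 0x461e0b109a5e108)) e e))
 (c (a (nat_lit 0x4020207e9d04)) e
 (c z e
 (c z e
 (c z e
 (c z e
 (c z e
 (c (a (nat_lit 0x12d20aab21c304)) e
 (c (a (nat_lit 0x82020a0841684)) e
 (c (a (nat_lit 0xacaeaecb611a5)) e e))))))))))))))))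
 (c (a (nat_lit 0x2020202021))
 (c (a (nat_lit 0x175333063e166))
 (c z e
 (c (a (nat_lit 0x50cf32ecbe6d7e6))
 (c (a (nat_lit 0x186ab9ad690d07a688)) e
 (c (a (nat_lit 0x830e28401c2602569)) e
 (c (a (nat_lit 0x1c89ab7266e5e71ac8)) e e)))
 (c z e
 (c z e
 (c z e
 (c (a (nat_lit 0xd2d5655d46acca6)) e
 (c z e
 (c (a (nat_lit 0x6caabc966a9d247)) e
 (c (a (nat_lit 0x12b096343e985606)) e e)))))))))
 (c (a (nat_lit 0x141151e662c067))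
 (c (a (nat_lit 0x3aba363002e10e7))
 (c (a (nat_lit 0x6702aa888c5c60408)) e
 (c z e
 (c z e
 (c (a (nat_lit 0x152e4ed111f4e00009)) e e))))
 (c z e
 (c z e
 (c (a (nat_lit 0x67bf42fd1f2f168)) e
 (c (a (nat_lit 0x12f095f6502eb2c7)) e
 (c (a (nat_lit 0xb65ae6cc9c97087)) e
 (c z e
 (c (a (nat_lit 0x5636568faa42208)) e
 (c (b (nat_lit 0x7a747d52d041fe8)) e e)))))))))
 (c z e
 (c z e
 (c (a (nat_lit 0x140140e0c087e3))
 (c (a (nat_lit 0xb8b89c6d9115528)) e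
 (c (a (nat_lit 0xe0bc6fa1fb2e908)) e
 (c z e
 (c z e
 (c (b (nat_lit 0x10bbe8dfef006008)) e
 (c (a (nat_lit 0x1770a3e6c0000008)) e e))))))
 (c (a (nat_lit 0x28262428ddd64))
 (c (a (nat_lit 0x460a13a496244a7)) e
 (c z e
 (c z e
 (c (a (nat_lit 0x14c46448e3200009)) e
 (c (a (nat_lit 0x1be5844000000007)) e e)))))
 (c z e
 (c z e
 (c (a (nat_lit 0x440e33ab27a5)) e
 (c (a (nat_lit 0x70878b76a2984)) e
 (c z e
 (c z e
 (c (a (nat_lit 0x15ef2f8940ab64)) e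
 (c (a (nat_lit 0x2020205249c5)) e
 (c (a (nat_lit 0x6a6a698f04865)) e
 (c (a (nat_lit 0x4c4d72e868225)) e
 (c (a (nat_lit 0x71970c4600005)) e
 (c (a (nat_lit 0x10c64000000006)) e e))))))))))))))))))
 C532)))) Tr.c Tr.e (nat_lit 0) C.cx C.cy
noncomputable def C534 : Tr := beta% (fun (c : Nat → Tr → Tr → Tr) (e : Tr) (z : Nat) (a : Nat → Nat) =>
 (c z
 (c (a (nat_lit 0x108eeeaeaeaeb466))
 (c z e
 (c (a (nat_lit 0x5e6c6caeb5093f327))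
 (c z e
 (c z e
 (c (a (nat_lit 0x50567e7c7c9686a736a)) e
 (c (a (nat_lit 0x469c7e94904093476a9)) e e))))
 (c z e
 (c z e
 (c z e
 (c z e
 (c z e
 (c (a (nat_lit 0x118cabc9090d160c67)) e
 (c (a (nat_lit 0xbcd484826b44d3067)) e e)))))))))
 (c (a (nat_lit 0x402020203247c5))
 (c z e
 (c z e
 (c z e
 (c z e
 (c z e
 (c (a (nat_lit 0x1a70780f6fa9cdf707)) e
 (c (a (nat_lit 0x2e34441b1e82567a8)) e
 (c (a (nat_lit 0x6e623900a2aaa2628)) e e))))))))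
 (c (a (nat_lit 0x26262631a501fc4))
 (c z e
 (c z e
 (c z e
 (c z e
 (c (a (nat_lit 0x1c07ec972691ca7a47)) e
 (c z e
 (c z e
 (c z e
 (c (a (nat_lit 0x14c7a65286a0000008)) e e)))))))))
 (c z e
 (c (a (nat_lit 0x1adb3fb00f27e8c4))
 (c z e
 (c z e
 (c z e
 (c z e
 (c (a (nat_lit 0x77a5723434c696007)) e e)))))
 (c z e
 (c (a (nat_lit 0x102652f3129292c4)) e
 (c (a (nat_lit 0xb30508fefeff004)) e
 (c (a (nat_lit 0x343630302c2f884)) e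
 (c z e
 (c (a (nat_lit 0xcacf3d2342caa65)) e
 (c (a (nat_lit 0x1218f73ccbc030a5)) e
 (c (a (nat_lit 0x120f97ada544d345)) e
 (c z e
 (c (a (nat_lit 0x606c5e6062631c7)) e
 (c (a (nat_lit 0x13c8e7e0a0400004)) e e))))))))))))))))
 (c (a (nat_lit 0x202020203d84))
 (c (a (nat_lit 0x9e9c9c9fc17ccc3))
 (c z e
 (c z e
 (c z e
 (c z e
 (c z e
 (c z e
 (c (a (nat_lit 0x586c217e8e5a4c427)) e
 (c (a (nat_lit 0x883fb09864785e6e7)) e
 (c (a (nat_lit 0x37385a58565c2c008)) e e)))))))))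
 (c z e
 (c z e
 (c z e
 (c z e
 (c (a (nat_lit 0x10b8b6cacccba44)) e
 (c (a (nat_lit 0xc345e62627fb24)) e
 (c (a (nat_lit 0x225056946fe19a4)) e
 (c (a (nat_lit 0x443219189004)) e
 (c z e
 (c z e
 (c z e
 (c z e
 (c (a (nat_lit 0x12133053ae7e4006)) e
 (c (a (nat_lit 0x1f3255e080000004)) e
 (c (a (nat_lit 0x13eac00000000005)) e e))))))))))))))))
 (c (a (nat_lit 0x2020203c3884))
 (c (a (nat_lit 0x767a89a7d0a87e3))
 (c z e
 (c z e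
 (c z e
 (c z e
 (c (a (nat_lit 0xa710ceaa80ac7a828)) e
 (c (a (nat_lit 0x636e54446e60385c7)) e e))))))
 (c (a (nat_lit 0x4c3a76a46912825))
 (c z e
 (c z e
 (c z e
 (c (a (nat_lit 0x116e2ac9eaa6e8ec29)) e
 (c (a (nat_lit 0x160724a7c52565e428)) e e)))))
 (c z e
 (c z e
 (c (a (nat_lit 0x727268545506ac7)) e
 (c (a (nat_lit 0x60062664255d064)) e
 (c z e
 (c z e
 (c (a (nat_lit 0xc889097b04f4685)) e
 (c (a (nat_lit 0x9557ab25ab726a5)) e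
 (c (a (nat_lit 0x3e604234281d407)) e
 (c z e
 (c (a (nat_lit 0x382c362b3400006)) e e)))))))))))))
 (c (a (nat_lit 0x808095143085))
 (c (a (nat_lit 0x887e42551c605a5))
 (c z e
 (c z e
 (c z e
 (c (a (nat_lit 0x1878ad920dcc935827)) e e))))
 (c z e
 (c z e
 (c (a (nat_lit 0x9f6ab8ce8dcbc65))
 (c z e
 (c (a (nat_lit 0xcac71aa2000000008)) e e))
 (c (a (nat_lit 0x14a96ccbcdacf9e5)) e
 (c z e
 (c z e
 (c (a (nat_lit 0x54ae8f10a6a65c6)) e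
 (c (a (nat_lit 0x4c366e8a6e275e7)) e
 (c z e
 (c (a (nat_lit 0x13312f55b429a006)) e
 (c z e
 (c (a (nat_lit 0x1506a00000000005)) e e)))))))))))))
 (c (a (nat_lit 0x1617493f06605))
 (c z e
 (c z e
 (c z e
 (c z e
 (c z e
 (c z e
 (c (a (nat_lit 0x4a6a567226351e7)) e
 (c z e
 (c (a (nat_lit 0x78d29263cfacb46)) e e)))))))))
 (c (a (nat_lit 0x211d24ea6a225)) e
 (c (a (nat_lit 0x152b5247c7c5c5))
 (c z e
 (c (a (nat_lit 0x42809a76585d3c6)) e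
 (c (a (nat_lit 0x58428e885709366)) e
 (c (a (nat_lit 0x28303a028100267)) e
 (c (a (nat_lit 0x6c6a568f92707e7)) e
 (c (a (nat_lit 0x36304f2ef05c0a7)) e e))))))
 (c (a (nat_lit 0x453d6b6765602))
 (c (a (nat_lit 0x5a9250323031aa5)) e
 (c (a (nat_lit 0x84d2ea7c5befc25)) e
 (c (a (nat_lit 0x54801047b290966)) e
 (c (a (nat_lit 0x846e67ac6e7ef67)) e
 (c (a (nat_lit 0x6e376f2e741e007)) e e)))))
 (c (a (nat_lit 0x1332f2d29242))
 (c (a (nat_lit 0x8eba5432814c885)) e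
 (c (a (nat_lit 0xda70971550e8b86)) e e))
 (c (a (nat_lit 0x1b1aba9a9a5b22))
 (c (a (nat_lit 0x6edda31d22db265)) e e)
 (c (a (nat_lit 0x159595959616c5))
 (c (a (nat_lit 0x176708ef04c00007)) e
 (c (a (nat_lit 0x1b13cac000000007)) e e))
 (c (a (nat_lit 0xacacad051cfe3))
 (c (a (nat_lit 0x1661600000000005)) e e)
 (c (a (nat_lit 0x92eb02fcdcda5)) e
 (c (a (nat_lit 0xa702fd0303025)) e
 (c (a (nat_lit 0x153494f4b089e4)) e
 (c (a (nat_lit 0x42e2c22260a1)) e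
 (c (a (nat_lit 0x2c1e0a1a10101)) e
 (c (a (nat_lit 0x120e121015143)) e
 (c (a (nat_lit 0x4246c447482a3)) e
 (c (a (nat_lit 0x58d4655a1e003)) e e))))))))))))))))))))) Tr.c Tr.e (nat_lit 0) C.cx
noncomputable def C535 : Tr := beta% (fun (c : Nat → Tr → Tr → Tr) (e : Tr) (z : Nat) (a b : Nat → Nat) =>
 (c (nat_lit 1)
 (c (a (nat_lit 0x60606061))
 (c (a (nat_lit 0x2020202021))
 (c z
 (c z e
 (c (a (nat_lit 0x1f317371716f6e2)) e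
 (c (a (nat_lit 0xacfaf8f8f4f3aa2))
 (c z e
 (c z e
 (c z e
 (c z e
 (c z e
 (c z e
 (c (a (nat_lit 0x8c72484a21ceec606)) e
 (c z e
 (c z e
 (c z e
 (c (a (nat_lit 0x1338e86c0c0000007)) e e))))))))))) e)))
 C534)
 C533)
 (c (a (nat_lit 0x60606061)) C531
 (c (a (nat_lit 0x20202021))
 (c (a (nat_lit 0x2020202021))
 (c z e
 (c z e
 (c z e
 (c z e
 (c z e
 (c (a (nat_lit 0x202020563f45))
 (c (a (nat_lit 0x2672d5785114a68)) e e)
 (c (a (nat_lit 0x4041965f3ba5))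
 (c (a (nat_lit 0x341b00d084481e8)) e e)
 (c z e
 (c z e
 (c z e
 (c z e
 (c z e
 (c z e
 (c (a (nat_lit 0xca7707d662dc3)) e e))))))))))))))
 (c (a (nat_lit 0x4040404021))
 (c (a (nat_lit 0x13112b24646427))
 (c (a (nat_lit 0x880848525507f65))
 (c (a (nat_lit 0x19f4cbac07e566c867)) e e)
 (c z e
 (c z e
 (c z e
 (c z e
 (c z e
 (c z e
 (c z e
 (c z e
 (c z e
 (c (a (nat_lit 0xb96488a60000007)) e e)))))))))))
 (c z e
 (c z e
 (c z e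
 (c z e
 (c z e
 (c z e
 (c z e
 (c z e
 (c z e
 (c (a (nat_lit 0x171833cc45e767)) e e)))))))))))
 (c (a (nat_lit 0x2020202021)) e
 (c (a (nat_lit 0x2020202021)) e
 (c (a (nat_lit 0x2020202021))
 (c z e
 (c z e
 (c z e
 (c z e
 (c z e
 (c z e
 (c z e
 (c z e
 (c z e
 (c z e
 (c z e
 (c (a (nat_lit 0x1c339340000008)) e e))))))))))))
 (c (a (nat_lit 0x6060604041))
 (c z e
 (c (a (nat_lit 0x9498040203087))
 (c (a (nat_lit 0xc670b7123000008)) e e)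
 (c z e
 (c z e
 (c z e
 (c z e
 (c z e
 (c z e
 (c z e
 (c (a (nat_lit 0xff2738e400008)) e
 (c (a (nat_lit 0x12caa000000007)) e e)))))))))))
 (c (a (nat_lit 0x2020203966))
 (c (a (nat_lit 0x740202040ba26)) e
 (c (a (nat_lit 0x1616163bb60a6)) e
 (c z e
 (c z e
 (c z e
 (c z e
 (c z e
 (c (a (nat_lit 0x5a28464b36008)) e
 (c (a (nat_lit 0x11e2c280000005)) e e)))))))))
 (c (a (nat_lit 0x2020399326))
 (c (a (nat_lit 0x6e70809742665)) e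
 (c z e
 (c z e
 (c z e
 (c z e
 (c z e
 (c (a (nat_lit 0xac8c8b3a00008)) e
 (c (a (nat_lit 0x1fe42000000002)) e e))))))))
 (c (a (nat_lit 0x3f79f166)) e
 (c z e
 (c z e
 (c (a (nat_lit 0x138be70706e6))
 (c (b (nat_lit 0x37ff8e4000007)) e e)
 (c z e
 (c (a (nat_lit 0x15514fefcf02)) e
 (c (a (nat_lit 0x40202059a5)) e
 (c (a (nat_lit 0x20202cf106)) e
 (c z e
 (c z e
 (c z e
 (c z e
 (c (a (nat_lit 0x1e5b81c201e5)) e
 (c (a (nat_lit 0x19e040402005)) e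
 (c (a (nat_lit 0x361e0000001)) e e)))))))))))))))))))))))
 C530)))
 (c (nat_lit 1)
 (c (a (nat_lit 0x60606061)) C528
 C527)
 (c (nat_lit 1)
 (c (nat_lit 1) C525
 (c (a (nat_lit 0x40404041))
 (c (a (nat_lit 0x6060606061))
 (c (a (nat_lit 0x80808081dd43))
 (c (a (nat_lit 0xa2a4e4eac4e5ac6))
 (c (a (nat_lit 0x76704a6e7064cb668)) e
 (c z e
 (c z e
 (c (a (nat_lit 0x134f72df7480000009)) e e))))
 (c z e
 (c z e
 (c (a (nat_lit 0x7c767eb4e2e70ca)) e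
 (c z e
 (c z e
 (c z e
 (c (b (nat_lit 0x102ce3a8c381dfe8)) e
 (c (a (nat_lit 0x1446e581e0400007)) e
 (c (a (nat_lit 0x1fdb068000000005)) e e))))))))))
 (c (a (nat_lit 0xf2f2f50dac026))
 (c z e
 (c z e
 (c z e
 (c z e
 (c z e
 (c z e
 (c z e
 (c z e
 (c (a (nat_lit 0x1106600000000008)) e e)))))))))
 (c z e
 (c z e
 (c z e
 (c z e
 (c z e
 (c (a (nat_lit 0x1634aecd4d4cc7)) e
 (c (a (nat_lit 0x136dee0e0e0e47)) e
 (c (a (nat_lit 0x321222285dba2)) e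
 (c (a (nat_lit 0x120d2e9086fde4)) e e)))))))))))
 (c (a (nat_lit 0x2020404041))
 (c z e
 (c z e
 (c z e
 (c z e
 (c z e
 (c z e
 (c z e
 (c (a (nat_lit 0x1b6c0bcc0b4ae6)) e
 (c (b (nat_lit 0x17559e9fffffe3)) e e)))))))))
 (c (a (nat_lit 0x2020203908)) e
 (c (a (nat_lit 0x203969a8)) e
 (c (a (nat_lit 0x203e7635e8)) e
 (c z e
 (c z e
 (c (a (nat_lit 0x108e0be02007))
 (c z e
 (c z e
 (c z e
 (c (a (nat_lit 0x107208a6400008)) e e))))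
 (c (a (nat_lit 0x1afa51d1d167))
 (c (a (nat_lit 0x134f8b2ac96908)) e
 (c (a (nat_lit 0x19166b69a4c008)) e
 (c (a (nat_lit 0x16af44c0000008)) e e)))
 (c (a (nat_lit 0x1809a321c061))
 (c (a (nat_lit 0x1c426060400007)) e
 (c (a (nat_lit 0x1900a000000006)) e e))
 (c (a (nat_lit 0x4040205f65)) e
 (c (a (nat_lit 0x20202fdcc6)) e
 (c z e
 (c z e
 (c z e
 (c z e
 (c (a (nat_lit 0xa908cc6c547)) e
 (c (a (nat_lit 0x134c60202006)) e
 (c (a (nat_lit 0x18e020404025)) e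
 (c (a (nat_lit 0x2a461e00001)) e
 (c (a (nat_lit 0x32000000001)) e e)))))))))))))))))))))
 C524))
 C523)))) Tr.c Tr.e (nat_lit 0) C.cx C.cy
noncomputable def C536 : Tr := beta% (fun (c : Nat → Tr → Tr → Tr) (e : Tr) (z : Nat) (a b : Nat → Nat) =>
 (c (nat_lit 1)
 (c (a (nat_lit 0x202001))
 (c (a (nat_lit 0xc14120a001)) e
 (c (a (nat_lit 0x2020203406)) e
 (c (a (nat_lit 0x202090ecc7)) e
 (c (a (nat_lit 0x5e5fdff31e7)) e
 (c (a (nat_lit 0x6f6f76bace8)) e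
 (c (a (nat_lit 0x1372dc27c2a7)) e
 (c (a (nat_lit 0x16b5c92945a7)) e
 (c (a (nat_lit 0x13c040200005)) e
 (c (a (nat_lit 0x24000000001)) e e)))))))))
 (c (a (nat_lit 0x204121))
 (c (a (nat_lit 0x2020299e26)) e
 (c (a (nat_lit 0x72555c48)) e
 (c z e
 (c (a (nat_lit 0xa2d126c6a89)) e
 (c (a (nat_lit 0xc2f0f29f4e9)) e
 (c (a (nat_lit 0x142e4d6c6008)) e
 (c (a (nat_lit 0x126060000006)) e e)))))))
 (c (a (nat_lit 0x203c64a5))
 (c z e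
 (c z e
 (c z e
 (c z e
 (c (a (nat_lit 0x1d7e34400007)) e e)))))
 (c (a (nat_lit 0x17f114365))
 (c (a (nat_lit 0xfd2dd34b5e7)) e
 (c z e
 (c z e
 (c (a (nat_lit 0x1c3440000007)) e e))))
 (c (a (nat_lit 0x11574f4c27))
 (c (a (nat_lit 0xd96d4320028)) e e)
 (c (a (nat_lit 0xd79dfbfa5)) e
 (c (a (nat_lit 0xc30105046)) e
 (c (a (nat_lit 0x20a0c061)) e
 (c (a (nat_lit 0x6080b582)) e
 (c (a (nat_lit 0x1191973385)) e
 (c z e
 (c (a (nat_lit 0x1db614b485)) e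
 (c (a (nat_lit 0x12406100c2)) e
 (c (a (nat_lit 0x21024001)) e
 (c (a (nat_lit 0x14100c021)) e
 (c (a (nat_lit 0x100a0a001)) e
 (c (nat_lit 1) e e)))))))))))))))))
 (c (nat_lit 1)
 (c (a (nat_lit 0x20207f83))
 (c (a (nat_lit 0x203353c5)) e
 (c (a (nat_lit 0x14b747d7b07)) e
 (c z e
 (c (a (nat_lit 0xa306da79448)) e
 (c (a (nat_lit 0x11b831384e08)) e
 (c (a (nat_lit 0x1cf455a00007)) e
 (c (a (nat_lit 0x9a000000001)) e e)))))))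
 (c (b (nat_lit 0x3ff7bfe4)) e
 (c z e
 (c (a (nat_lit 0x1e55606004))
 (c (a (nat_lit 0x8cc30c20009)) e e)
 (c (a (nat_lit 0x115e9e9e47)) e
 (c (a (nat_lit 0x1e9edebe65)) e
 (c (a (nat_lit 0x161011982)) e
 (c (a (nat_lit 0x12322c0ae6)) e
 (c z e
 (c (a (nat_lit 0x1875359585)) e
 (c (a (nat_lit 0x1830161)) e
 (c (a (nat_lit 0x61212241)) e
 (c (a (nat_lit 0x60e20301)) e
 (c (a (nat_lit 0xc2c041)) e
 (c (a (nat_lit 0xa0c00001)) e e)))))))))))))))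
 (c (a (nat_lit 0x202021))
 (c (a (nat_lit 0xc5028ec65))
 (c (a (nat_lit 0xcd1cf924367)) e
 (c (a (nat_lit 0x17b9fb2e0a28)) e e))
 (c (a (nat_lit 0x1bc8606004))
 (c (a (nat_lit 0x141a39eae428)) e e)
 (c (a (nat_lit 0x9b3737346))
 (c (a (nat_lit 0xf9b84800008)) e e)
 (c z e
 (c (b (nat_lit 0x1fe0a0caa1)) e
 (c (a (nat_lit 0x16b6acb006)) e
 (c z e
 (c (a (nat_lit 0x15bcd67645)) e
 (c (a (nat_lit 0x1a20602003)) e
 (c (a (nat_lit 0x321006001)) e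
 (c (a (nat_lit 0x120805c42)) e
 (c (a (nat_lit 0x220208001)) e
 (c (a (nat_lit 0xc1606001)) e
 (c (a (nat_lit 0x160000001)) e e))))))))))))))
 (c (a (nat_lit 0x202021))
 (c (a (nat_lit 0x1e19f9d9c3))
 (c (a (nat_lit 0x16280a41c0e7)) e
 (c (a (nat_lit 0x9fac0800008)) e e))
 (c (a (nat_lit 0xa0a14001))
 (c (a (nat_lit 0x184020000008)) e e)
 (c (a (nat_lit 0x10b0b0b3e7)) e
 (c (a (nat_lit 0x15353d9e26)) e
 (c z e
 (c (a (nat_lit 0x1212f23166)) e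
 (c (a (nat_lit 0x1e7afac004)) e
 (c (a (nat_lit 0x740c2c001)) e
 (c (a (nat_lit 0x40605dc3)) e
 (c (a (nat_lit 0x4141e2c1)) e
 (c (a (nat_lit 0xc30021)) e
 (c (a (nat_lit 0x600001)) e e))))))))))))
 (c (a (nat_lit 0x404041))
 (c (a (nat_lit 0x20405104))
 (c (a (nat_lit 0x10000000001)) e e)
 (c z e
 (c z e
 (c (a (nat_lit 0x1a5aba5a47)) e
 (c (a (nat_lit 0x10b0704987)) e
 (c (a (nat_lit 0x14201c1)) e
 (c (a (nat_lit 0xa0c12021)) e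
 (c (a (nat_lit 0x161818201)) e
 (c (a (nat_lit 0x80c14321)) e
 (c (a (nat_lit 0x208001)) e
 (c (nat_lit 1) e e)))))))))))
 (c (a (nat_lit 0x202021))
 (c z e
 (c (a (nat_lit 0x1d5d7d5d48)) e
 (c (a (nat_lit 0x1b39f9e045)) e
 (c (a (nat_lit 0x180c001)) e
 (c (a (nat_lit 0xa1210141)) e
 (c (a (nat_lit 0xe06161a1)) e
 (c (a (nat_lit 0xa04121)) e
 (c (a (nat_lit 0xe06041)) e
 (c (a (nat_lit 0x200001)) e e)))))))))
 (c (a (nat_lit 0x202021))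
 (c (a (nat_lit 0xa8040a061)) e
 (c (a (nat_lit 0xa16061)) e
 (c (a (nat_lit 0xa123c1)) e
 (c (a (nat_lit 0x2221e1)) e
 (c (a (nat_lit 0x1014321)) e
 (c (a (nat_lit 0x1c0c2c1)) e
 (c (a (nat_lit 0xe08001)) e
 (c (a (nat_lit 0x20000001)) e e))))))))
 (c (a (nat_lit 0x202021))
 (c (a (nat_lit 0x202021)) e
 (c (a (nat_lit 0x20002021)) e
 (c (a (nat_lit 0x202021)) e
 (c (a (nat_lit 0x20202001)) e
 (c (a (nat_lit 0x20202021)) e
 (c (a (nat_lit 0x20200001)) e e))))))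
 (c (a (nat_lit 0x202021))
 (c (a (nat_lit 0x202021)) e
 (c (a (nat_lit 0x20202001)) e
 (c (a (nat_lit 0x20202021)) e
 (c (a (nat_lit 0x20202001)) e
 (c (a (nat_lit 0x20000001)) e e)))))
 (c (a (nat_lit 0x202021))
 (c (a (nat_lit 0x20202021)) e
 (c (a (nat_lit 0x20202021)) e
 (c (a (nat_lit 0x20200001)) e e)))
 (c (a (nat_lit 0x202021))
 (c (a (nat_lit 0x20202001)) e
 (c (a (nat_lit 0x20000001)) e e))
 (c (a (nat_lit 0x202021)) e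
 (c (a (nat_lit 0x202001)) e
 (c (a (nat_lit 0x202021)) e
 (c (a (nat_lit 0x202021)) e
 (c (a (nat_lit 0x202021)) e
 (c (a (nat_lit 0x21)) e
 (c (a (nat_lit 0x202021)) e
 (c (a (nat_lit 0x61)) e
 (c (a (nat_lit 0x203ba4)) e
 (c z e
 (c (a (nat_lit 0x1bb14024)) e
 (c (a (nat_lit 0x11402004)) e
 (c (a (nat_lit 0x21)) e
 (c (a (nat_lit 0x200001)) e e)))))))))))))))))))))))))) Tr.c Tr.e (nat_lit 0) C.cx C.cy
noncomputable def C537 : Tr := beta% (fun (c : Nat → Tr → Tr → Tr) (e : Tr) (z : Nat) (a b : Nat → Nat) =>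
 (c (a (nat_lit 0x202021))
 (c (a (nat_lit 0x20202021))
 (c (a (nat_lit 0x1ca020220204))
 (c (a (nat_lit 0x20404fb309e4)) e
 (c (a (nat_lit 0x16487f06b8047)) e
 (c z e
 (c (a (nat_lit 0xd0fecdfe8cb47)) e
 (c (a (nat_lit 0x2607646804148)) e
 (c (a (nat_lit 0x3d6b86e080c7)) e
 (c (a (nat_lit 0x11068140200008)) e
 (c (a (nat_lit 0x1a802000000006)) e e))))))))
 (c (a (nat_lit 0x4d2d6d7e65))
 (c z e
 (c z e
 (c z e
 (c z e
 (c z e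
 (c (a (nat_lit 0xc771020000005)) e e))))))
 (c z e
 (c (a (nat_lit 0xd949c527106))
 (c (b (nat_lit 0x13fe7f16a9027)) e
 (c (a (nat_lit 0x37aca9e7a007)) e e))
 (c (a (nat_lit 0x59721a18165))
 (c (a (nat_lit 0x4ba3064800003)) e e)
 (c (a (nat_lit 0x190020202005)) e
 (c (a (nat_lit 0x1110a0c08764)) e
 (c (a (nat_lit 0x2020405046)) e
 (c (a (nat_lit 0x4a4b47876c8)) e
 (c z e
 (c (a (nat_lit 0x145ff42b4a66)) e
 (c (a (nat_lit 0x1449204026e6)) e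
 (c (a (nat_lit 0x1220802dad85)) e
 (c (a (nat_lit 0x10080800001)) e
 (c (a (nat_lit 0x2000000001)) e e)))))))))))))))
 (c (nat_lit 1)
 (c z e
 (c z e
 (c (a (nat_lit 0x72b91d1d186))
 (c (b (nat_lit 0x1ffff22a690467)) e
 (c (b (nat_lit 0x1ffff0a4e00007)) e e))
 (c (a (nat_lit 0x14c060804045))
 (c (a (nat_lit 0xdd2180000004)) e e)
 (c (a (nat_lit 0x11d1c0c0a425)) e
 (c (b (nat_lit 0x2f900f3fe4)) e
 (c (b (nat_lit 0x20305fefc8)) e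
 (c z e
 (c z e
 (c (a (nat_lit 0x9382e614d27)) e
 (c (a (nat_lit 0x150d602d4d47)) e
 (c (a (nat_lit 0xa41e2014001)) e
 (c (a (nat_lit 0xa0000001)) e e)))))))))))))
 (c (a (nat_lit 0x61))
 (c (a (nat_lit 0x39c40604004))
 (c (b (nat_lit 0x1ff88540c22045)) e
 (c (a (nat_lit 0x5b145928460a3)) e
 (c (a (nat_lit 0x452b500e00005)) e e)))
 (c (a (nat_lit 0x1a8060806005))
 (c (a (nat_lit 0xd3f4ac1804005)) e
 (c (a (nat_lit 0x6947200000005)) e e))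
 (c (a (nat_lit 0x10b0a0808065))
 (c (a (nat_lit 0x15a8c000000005)) e e)
 (c (a (nat_lit 0x6767e7fb44)) e
 (c (a (nat_lit 0x202f1313c7)) e
 (c z e
 (c z e
 (c z e
 (c z e
 (c (a (nat_lit 0x11ef80804046)) e
 (c (a (nat_lit 0x1e6020400005)) e
 (c (nat_lit 1) e e))))))))))))
 (c (a (nat_lit 0x20204041))
 (c (a (nat_lit 0x107060804024))
 (c (a (nat_lit 0x1e684880200005)) e
 (c (a (nat_lit 0x1088c000000004)) e e))
 (c (a (nat_lit 0x604080b1c5)) e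
 (c (a (nat_lit 0x202e569e46)) e
 (c (a (nat_lit 0x2f5536d587)) e
 (c (a (nat_lit 0x13765733cd28)) e
 (c z e
 (c z e
 (c (a (nat_lit 0x10cc5829ea06)) e
 (c (a (nat_lit 0x5784160e005)) e
 (c (a (nat_lit 0x178020000005)) e e))))))))))
 (c (a (nat_lit 0x20204041))
 (c (a (nat_lit 0x6060a71125)) e
 (c (a (nat_lit 0xe331c9826)) e
 (c z e
 (c (a (nat_lit 0x1c1dfc4e26a7)) e
 (c z e
 (c z e
 (c (a (nat_lit 0x17785c70af03)) e
 (c (a (nat_lit 0x11d350200005)) e e))))))))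
 (c (a (nat_lit 0x202021))
 (c (a (nat_lit 0x117458b6e6c6)) e
 (c (a (nat_lit 0x1557d7c22027)) e
 (c (a (nat_lit 0x1a7a5e735ee7)) e e)))
 (c (a (nat_lit 0x202021))
 (c (a (nat_lit 0x1705d11e803)) e
 (c (a (nat_lit 0x24040405b27)) e
 (c (a (nat_lit 0xe0e517a5367)) e e)))
 (c (a (nat_lit 0x20203966))
 (c (a (nat_lit 0x2020475f27)) e e)
 (c (a (nat_lit 0x34cd25)) e
 (c (a (nat_lit 0x149b3958c7)) e
 (c (a (nat_lit 0x193756d127)) e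
 (c (a (nat_lit 0x12314be006)) e
 (c (a (nat_lit 0x108e802026)) e
 (c (a (nat_lit 0x1cc0202025)) e
 (c (a (nat_lit 0xa1c001)) e
 (c (a (nat_lit 0x203dc5)) e
 (c z e
 (c (a (nat_lit 0x2b7202025)) e
 (c (a (nat_lit 0x1720202005)) e
 (c (a (nat_lit 0x120a04021)) e
 (c (a (nat_lit 0x140400001)) e e)))))))))))))))))))))
 (c (a (nat_lit 0x202021))
 (c (a (nat_lit 0x2001))
 (c (a (nat_lit 0xc71b1f27264))
 (c z e
 (c (a (nat_lit 0x1fa17cd66586c6)) e e))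
 (c (a (nat_lit 0x16274140e042))
 (c (a (nat_lit 0x110ea0e080c046)) e
 (c (a (nat_lit 0xc31d2a2a0e025)) e
 (c (b (nat_lit 0x1ffff661600004)) e e)))
 (c (a (nat_lit 0x161a22021))
 (c (a (nat_lit 0x3982a1204004)) e
 (c (a (nat_lit 0x21591e0000004)) e e))
 (c (a (nat_lit 0x1070c0604044))
 (c (a (nat_lit 0x16488000000004)) e e)
 (c (a (nat_lit 0x1fe7d5d1c41)) e
 (c (a (nat_lit 0x2020403ae6)) e
 (c (a (nat_lit 0x5c5d51bd0e8)) e
 (c z e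
 (c (a (nat_lit 0x12b853edab88)) e
 (c (a (nat_lit 0x1d6bc0402e86)) e
 (c (a (nat_lit 0x1760607d1ce5)) e
 (c (a (nat_lit 0x30281a00001)) e
 (c (a (nat_lit 0x14000000001)) e e)))))))))))))
 (c (a (nat_lit 0x2001))
 (c (a (nat_lit 0x1500c1e1a0e2))
 (c (a (nat_lit 0x1f2826a0c0e0a4)) e
 (c (a (nat_lit 0xa71312160a005)) e e))
 (c (a (nat_lit 0x107080804025))
 (c (a (nat_lit 0x13c848c0400006)) e
 (c (a (nat_lit 0x10c8c000000005)) e e))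
 (c (a (nat_lit 0x364858201)) e
 (c (a (nat_lit 0x2020203566)) e
 (c (a (nat_lit 0x2b789327)) e
 (c z e
 (c z e
 (c (a (nat_lit 0x1392932f0609)) e
 (c (a (nat_lit 0x12f2c052ade6)) e
 (c (a (nat_lit 0x9f180804005)) e
 (c (a (nat_lit 0x134020000004)) e e)))))))))))
 (c (a (nat_lit 0x40404021))
 (c (a (nat_lit 0x201c161a001)) e
 (c (a (nat_lit 0x2020605ac6)) e
 (c (a (nat_lit 0x202059fd06)) e
 (c (a (nat_lit 0x45eda9d388)) e
 (c z e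
 (c z e
 (c z e
 (c (b (nat_lit 0x151fe8490886)) e
 (c (a (nat_lit 0xf5300400005)) e
 (c (a (nat_lit 0x1ce000000004)) e e))))))))))
 (c (a (nat_lit 0x2021))
 (c (a (nat_lit 0x204076c825)) e
 (c (a (nat_lit 0x6075b84c86)) e
 (c z e
 (c z e
 (c z e
 (c z e
 (c (a (nat_lit 0xd72deb6c006)) e
 (c (a (nat_lit 0x1827e0000006)) e e))))))))
 (c (a (nat_lit 0x20202001))
 (c (a (nat_lit 0x2a34270266)) e
 (c (a (nat_lit 0xcce0e4312c7)) e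
 (c z e
 (c z e
 (c (a (nat_lit 0x133a51890027)) e
 (c (b (nat_lit 0x129ff0a00005)) e e))))))
 (c (a (nat_lit 0x201766))
 (c (a (nat_lit 0x7b1718a7da6)) e e)
 (c (a (nat_lit 0x38f2e6)) e
 (c (a (nat_lit 0xc357312c7)) e
 (c (a (nat_lit 0x13ef718026)) e
 (c (a (nat_lit 0x181c4f0025)) e
 (c (a (nat_lit 0x118ae02026)) e
 (c (a (nat_lit 0x13a0202045)) e
 (c (a (nat_lit 0xa18241)) e
 (c (a (nat_lit 0x4057e2)) e
 (c z e
 (c (a (nat_lit 0x102f0eeee6)) e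
 (c (a (nat_lit 0x300000001)) e
 (c (a (nat_lit 0x208041)) e
 (c (a (nat_lit 0x404001)) e
 (c (a (nat_lit 0x20000001)) e e))))))))))))))))))))
 (c (a (nat_lit 0x404041))
 (c (a (nat_lit 0x20204041))
 (c (a (nat_lit 0x15b5c0606062))
 (c (a (nat_lit 0x1565a580404024)) e e)
 (c (a (nat_lit 0x22203636261)) e
 (c (a (nat_lit 0xc3424281)) e
 (c (a (nat_lit 0x2020203a06)) e
 (c (a (nat_lit 0x20202635e7)) e
 (c z e
 (c z e
 (c (a (nat_lit 0x115271080048)) e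
 (c (a (nat_lit 0x170083616024)) e
 (c (a (nat_lit 0x121c6ce00002)) e
 (c (a (nat_lit 0x136000000002)) e e)))))))))))
 (c (a (nat_lit 0x40606041))
 (c (a (nat_lit 0xa0a24260a1)) e
 (c (a (nat_lit 0x2020607d25)) e
 (c (a (nat_lit 0x20202f5f67)) e
 (c (a (nat_lit 0x2024373448)) e
 (c z e
 (c z e
 (c (a (nat_lit 0x1492d0820349)) e
 (c (a (nat_lit 0x1f3c212dc005)) e
 (c (a (nat_lit 0x1149e0000006)) e e)))))))))
 (c (a (nat_lit 0x202001))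
 (c (a (nat_lit 0x40404fd1c5)) e
 (c (a (nat_lit 0x202ff22b87)) e
 (c z e
 (c z e
 (c z e
 (c z e
 (c (a (nat_lit 0x14ff60600005)) e
 (c (a (nat_lit 0x1ec000000005)) e e))))))))
 (c (a (nat_lit 0x20203127))
 (c (a (nat_lit 0x1189c2510c6)) e
 (c (a (nat_lit 0xa1a3d57ff27)) e
 (c z e
 (c z e
 (c (a (nat_lit 0x1916d62b2007)) e
 (c (a (nat_lit 0x14d000000006)) e e))))))
 (c (a (nat_lit 0x203186c7))
 (c (a (nat_lit 0xd30703b1347)) e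
 (c z e
 (c z e
 (c (a (nat_lit 0x1eded5200007)) e e))))
 (c (a (nat_lit 0xe31f2aec8)) e
 (c z e
 (c (a (nat_lit 0x1b76802025)) e
 (c (a (nat_lit 0x18a6e14065)) e
 (c (a (nat_lit 0x11e0202004)) e
 (c (a (nat_lit 0xa05063)) e
 (c (a (nat_lit 0x20283a04)) e
 (c z e
 (c (a (nat_lit 0x3512524c3)) e
 (c (a (nat_lit 0x1f40a0a082)) e
 (c (a (nat_lit 0x20808061)) e
 (c (a (nat_lit 0x60406021)) e
 (c (a (nat_lit 0x40200001)) e e))))))))))))))))))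
 C536)))) Tr.c Tr.e (nat_lit 0) C.cx C.cy
noncomputable def C538 : Tr := beta% (fun (c : Nat → Tr → Tr → Tr) (e : Tr) (z : Nat) (a b : Nat → Nat) =>
 (c (nat_lit 1)
 (c (a (nat_lit 0x183676adc566))
 (c (a (nat_lit 0x1916fbeea4eae5))
 (c z e
 (c (a (nat_lit 0x5914bece787e567)) e e))
 (c (a (nat_lit 0xd5c0a83488aa7))
 (c (a (nat_lit 0x116d99a945856008)) e e)
 (c z e
 (c (a (nat_lit 0x8cef1eded66a7)) e
 (c (a (nat_lit 0xc7a33cfe2a666)) e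
 (c z e
 (c z e
 (c (a (nat_lit 0xb4749d0c80747)) e
 (c (a (nat_lit 0x5c89912e2a007)) e e)))))))))
 (c (a (nat_lit 0x141213e90867))
 (c (a (nat_lit 0x194b25a6278ce8))
 (c (a (nat_lit 0x630a5c242200009)) e e)
 (c z e
 (c z e
 (c z e
 (c z e
 (c z e
 (c (a (nat_lit 0xba9502dcc6687)) e
 (c (a (nat_lit 0x4193903000008)) e e))))))))
 (c z e
 (c (a (nat_lit 0x11f232325086))
 (c z e
 (c (a (nat_lit 0x152d7032080b47)) e
 (c z e
 (c z e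
 (c (a (nat_lit 0x17aecae8800006)) e e)))))
 (c (a (nat_lit 0x989a9cb10e6))
 (c (a (nat_lit 0x666322d6a6867)) e
 (c (b (nat_lit 0x2dff0405fe289)) e
 (c z e
 (c (a (nat_lit 0x18a363c0000006)) e e))))
 (c z e
 (c (a (nat_lit 0xf2df24e2e07)) e
 (c (a (nat_lit 0xb19b04fc8c5)) e
 (c (a (nat_lit 0x1cee2e004025)) e
 (c (a (nat_lit 0x90de5657f25)) e
 (c (a (nat_lit 0x48491549448)) e
 (c (a (nat_lit 0x303676a826)) e
 (c (a (nat_lit 0x14daf90ca086)) e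
 (c (a (nat_lit 0x151024004466)) e
 (c (a (nat_lit 0x104400248486)) e
 (c (a (nat_lit 0x1a1200001)) e
 (c (a (nat_lit 0x4000000001)) e e)))))))))))))))))
 (c (nat_lit 1)
 (c (a (nat_lit 0x1cfcc0402045))
 (c (a (nat_lit 0x142707e85854c6))
 (c (a (nat_lit 0x1eaae3a220000007)) e e)
 (c (b (nat_lit 0x9638370141fe7)) e
 (c z e
 (c z e
 (c z e
 (c z e
 (c (a (nat_lit 0x57a3023222007)) e
 (c (a (nat_lit 0x13894140000009)) e e))))))))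
 (c (a (nat_lit 0x15e9e9ea08a7)) e
 (c z e
 (c z e
 (c z e
 (c (a (nat_lit 0x1154f4f4f26)) e
 (c (a (nat_lit 0x19e747204006)) e
 (c (a (nat_lit 0x1151604077c5)) e
 (c z e
 (c z e
 (c z e
 (c (a (nat_lit 0x87489e32508)) e
 (c (a (nat_lit 0x1489e10504e8)) e
 (c (a (nat_lit 0x138020202006)) e
 (c (a (nat_lit 0x14180000001)) e e)))))))))))))))
 (c (nat_lit 1)
 (c (a (nat_lit 0xcad0d2d1625)) e
 (c z e
 (c z e
 (c z e
 (c z e
 (c z e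
 (c z e
 (c z e
 (c z e
 (c z e
 (c z e
 (c (b (nat_lit 0x118e9fe02007)) e
 (c (a (nat_lit 0x1d0020200006)) e
 (c (a (nat_lit 0xc000000001)) e e))))))))))))))
 (c (a (nat_lit 0x20202021))
 (c (a (nat_lit 0xaa13f0c985))
 (c (a (nat_lit 0xc25d8303cbee5)) e
 (c (a (nat_lit 0x623330ad6286)) e e))
 (c (a (nat_lit 0x9b300604025))
 (c (a (nat_lit 0xed8b366408026)) e
 (c (a (nat_lit 0x1fd07f89400006)) e e))
 (c (a (nat_lit 0x10a888a04026))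
 (c (a (nat_lit 0xabda940000005)) e e)
 (c z e
 (c (a (nat_lit 0x1ebd7b027)) e
 (c z e
 (c z e
 (c (a (nat_lit 0xfecd7bbf288)) e
 (c (a (nat_lit 0xa753bdc446)) e
 (c (a (nat_lit 0x5abd1246467)) e
 (c (a (nat_lit 0xaf020202007)) e
 (c (a (nat_lit 0x192020000006)) e e))))))))))))
 (c (nat_lit 1)
 (c (a (nat_lit 0x11c0a0a06004))
 (c (a (nat_lit 0x181ce260802005)) e
 (c (a (nat_lit 0x116a48a0000006)) e e))
 (c (a (nat_lit 0x868604057e6))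
 (c (a (nat_lit 0x15488000000005)) e e)
 (c (a (nat_lit 0x2108742f67)) e
 (c (a (nat_lit 0x32d1a751127)) e
 (c z e
 (c z e
 (c (a (nat_lit 0xe2dfb79f448)) e
 (c (a (nat_lit 0x283720443e7)) e
 (c (a (nat_lit 0x8b74a07e467)) e
 (c (a (nat_lit 0x12c8e3000007)) e e))))))))))
 (c (a (nat_lit 0x20202021))
 (c (a (nat_lit 0x6060b44c45)) e
 (c (a (nat_lit 0x7906c6be7)) e
 (c z e
 (c (a (nat_lit 0x110eeeaac008)) e e))))
 (c (a (nat_lit 0x60604041))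
 (c (a (nat_lit 0xcb632510006)) e
 (c (a (nat_lit 0x199514c10007)) e
 (c (a (nat_lit 0x1130da090907)) e
 (c z e
 (c (b (nat_lit 0x1fffed10fdc7)) e
 (c (a (nat_lit 0x1175963d89e7)) e e))))))
 (c (a (nat_lit 0x40402041))
 (c (a (nat_lit 0x10738ee989a4)) e
 (c (a (nat_lit 0x192647076004)) e
 (c z e
 (c (a (nat_lit 0x4e526714308)) e e))))
 (c (a (nat_lit 0x20202061))
 (c (a (nat_lit 0x320e1203de5)) e e)
 (c (a (nat_lit 0x202013a5))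
 (c z e
 (c (a (nat_lit 0xe78f6d5a008)) e
 (c (a (nat_lit 0x1868c0000007)) e e)))
 (c (a (nat_lit 0x20d202))
 (c (a (nat_lit 0x15ab6be00005)) e
 (c (a (nat_lit 0x10a000000006)) e e))
 (c (a (nat_lit 0x235b65587)) e
 (c z e
 (c (a (nat_lit 0x150ed0e026)) e
 (c (a (nat_lit 0x1400404064)) e
 (c (a (nat_lit 0x40a321)) e
 (c (a (nat_lit 0x83a001)) e
 (c (a (nat_lit 0x7c8279705)) e
 (c z e
 (c (a (nat_lit 0xcb46caca6)) e
 (c (a (nat_lit 0x1f20402004)) e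
 (c (a (nat_lit 0x1c1604001)) e
 (c (a (nat_lit 0x1e0000001)) e e)))))))))))))))))))))))) Tr.c Tr.e (nat_lit 0) C.cx C.cy
noncomputable def C539 : Tr := beta% (fun (c : Nat → Tr → Tr → Tr) (e : Tr) (z : Nat) (a b : Nat → Nat) =>
 (c (a (nat_lit 0x20202021))
 (c (a (nat_lit 0x20203bf0a4))
 (c (a (nat_lit 0xe0a0c491e926))
 (c (a (nat_lit 0x2061566b26a585)) e
 (c (a (nat_lit 0x22cc7127e68647)) e
 (c z e
 (c (a (nat_lit 0x184d65c546a6e7c7)) e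
 (c (a (nat_lit 0x10846829660344a7)) e e)))))
 (c (a (nat_lit 0x282883a8de407)) e
 (c z e
 (c (a (nat_lit 0x53957e2061727))
 (c (a (nat_lit 0xad757bbe048006)) e
 (c (a (nat_lit 0x14f27010a0000007)) e e))
 (c (a (nat_lit 0x160f80222ac0e7)) e
 (c z e
 (c (a (nat_lit 0xf2f2ff792a845)) e
 (c (a (nat_lit 0xa4b8b93e2b685)) e
 (c (b (nat_lit 0x8892989bff2a6)) e
 (c z e
 (c (a (nat_lit 0x699594b911c6)) e
 (c (a (nat_lit 0x11f6d33ee00006)) e e))))))))))))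
 (c (a (nat_lit 0x203bf84c67))
 (c z e
 (c z e
 (c z e
 (c z e
 (c z e
 (c z e
 (c z e
 (c z e
 (c z e
 (c z e
 (c (a (nat_lit 0x8b1ae0000006)) e e)))))))))))
 (c z e
 (c (a (nat_lit 0x1b562b666487))
 (c (a (nat_lit 0x5087884238028)) e
 (c (a (nat_lit 0x5083a2208069)) e
 (c z e
 (c z e
 (c (a (nat_lit 0x9a99d39686067)) e e)))))
 (c (b (nat_lit 0x13d042e2ffe5))
 (c (b (nat_lit 0x1ac60480bff206)) e
 (c z e
 (c z e
 (c (a (nat_lit 0x135f95e65ee227)) e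
 (c (b (nat_lit 0x1fff18ff9fe307)) e e)))))
 (c z e
 (c z e
 (c (a (nat_lit 0x80a2b022))
 (c (a (nat_lit 0xe432bd5c5c005)) e
 (c (b (nat_lit 0x1ff685e0000006)) e e))
 (c (a (nat_lit 0xc90d2f18ec5))
 (c (a (nat_lit 0x1243c000000005)) e e)
 (c z e
 (c (a (nat_lit 0x6a4d0f0ea86)) e
 (c (a (nat_lit 0x504444458c7)) e
 (c (a (nat_lit 0x202416aa87)) e
 (c (a (nat_lit 0x2c6b82d22c7)) e
 (c (a (nat_lit 0x6de7504c4a7)) e
 (c (a (nat_lit 0x1a1080404047)) e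
 (c (a (nat_lit 0x106020202027)) e
 (c (a (nat_lit 0x2c2e0600001)) e
 (c (a (nat_lit 0x26000000001)) e e)))))))))))))))))))
 (c (a (nat_lit 0x20202021))
 (c (a (nat_lit 0x3cb993aa07)) e
 (c z e
 (c z e
 (c z e
 (c z e
 (c z e
 (c z e
 (c z e
 (c (a (nat_lit 0x9743adaa005)) e
 (c (b (nat_lit 0x144feffff1c7)) e
 (c (a (nat_lit 0x1c1ec133048)) e
 (c (a (nat_lit 0x124940d0247)) e
 (c z e
 (c z e
 (c (a (nat_lit 0x15ed42602027)) e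
 (c (a (nat_lit 0x1a4480202006)) e
 (c (a (nat_lit 0x11e040000004)) e e)))))))))))))))))
 (c (a (nat_lit 0x20202021))
 (c (a (nat_lit 0x1858544865e6))
 (c (a (nat_lit 0x10b0804063c1c7))
 (c (a (nat_lit 0x1339ace3c1e00006)) e e)
 (c z e
 (c z e
 (c z e
 (c z e
 (c z e
 (c z e
 (c (a (nat_lit 0x1ac921200009)) e e))))))))
 (c z e
 (c z e
 (c z e
 (c z e
 (c z e
 (c z e
 (c (a (nat_lit 0x1fb2f2e530e6)) e
 (c z e
 (c z e
 (c z e
 (c z e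
 (c z e
 (c (a (nat_lit 0x9d560202027)) e
 (c (a (nat_lit 0x156020200007)) e
 (c (a (nat_lit 0x2e000000001)) e e))))))))))))))))
 (c (a (nat_lit 0x20202001))
 (c (a (nat_lit 0x11accccced27))
 (c (a (nat_lit 0xcece992bb80c7)) e
 (c (a (nat_lit 0xfcb0f9ee26048)) e e))
 (c (a (nat_lit 0x113171749906))
 (c (b (nat_lit 0x82714839fedc8)) e
 (c z e
 (c z e
 (c (a (nat_lit 0x1c221b8d86c008)) e
 (c (a (nat_lit 0x12380f80000007)) e e)))))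
 (c z e
 (c z e
 (c (a (nat_lit 0x9081ddddda5)) e
 (c (a (nat_lit 0x102ed1c2d226)) e
 (c z e
 (c z e
 (c (a (nat_lit 0xb31b4a8b008)) e
 (c (a (nat_lit 0x72a4228f668)) e
 (c z e
 (c (a (nat_lit 0x2552c140e8)) e
 (c (a (nat_lit 0x491e0202008)) e
 (c (a (nat_lit 0x11c020000008)) e e))))))))))))))
 (c (a (nat_lit 0x40404041))
 (c (a (nat_lit 0x206a79bfc4))
 (c (a (nat_lit 0x5a84d373b126)) e
 (c z e
 (c z e
 (c (a (nat_lit 0x10866742400008)) e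
 (c (a (nat_lit 0x12aa4000000007)) e e)))))
 (c (a (nat_lit 0x4ba13346965))
 (c (b (nat_lit 0x8dfff215166)) e
 (c (a (nat_lit 0x11cfd9d7a78007)) e e))
 (c (a (nat_lit 0x158a2221e044))
 (c (a (nat_lit 0x515e21000005)) e e)
 (c (a (nat_lit 0xde8488057c6)) e
 (c (a (nat_lit 0x42428361227)) e
 (c z e
 (c z e
 (c (a (nat_lit 0x118f4c29cc68)) e
 (c (a (nat_lit 0x5002434e2c7)) e
 (c z e
 (c (a (nat_lit 0x5d66a4aeac7)) e
 (c (a (nat_lit 0x172020200006)) e e))))))))))))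
 (c (a (nat_lit 0x40404041))
 (c (a (nat_lit 0x19a5e0a06044))
 (c (a (nat_lit 0x1d8f26a2a04025)) e
 (c (b (nat_lit 0x1ff4a8e00006)) e e))
 (c (a (nat_lit 0x9e8486039a6))
 (c (b (nat_lit 0x1ff68860000006)) e e)
 (c (a (nat_lit 0x48488f73487)) e e)))
 (c (a (nat_lit 0x60606061))
 (c (a (nat_lit 0x86884b6db25))
 (c (a (nat_lit 0x19e86000000004)) e e)
 (c (a (nat_lit 0xb75562da7)) e
 (c z e
 (c (b (nat_lit 0x14d3ede79fe7)) e
 (c z e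
 (c z e
 (c (a (nat_lit 0x322c7049107)) e e)))))))
 (c (a (nat_lit 0x40404041))
 (c (a (nat_lit 0xb9170ac61e7)) e
 (c (a (nat_lit 0x114fece26188)) e
 (c z e
 (c z e
 (c (a (nat_lit 0x40485453ce7)) e
 (c (a (nat_lit 0xdadb15bd847)) e e))))))
 (c (a (nat_lit 0x40404041))
 (c (a (nat_lit 0x16eeaeacd425)) e
 (c (a (nat_lit 0x2050a71f185)) e
 (c z e
 (c (a (nat_lit 0x7484859f3a8)) e e))))
 (c (a (nat_lit 0x202041))
 (c (a (nat_lit 0x1c273335e43)) e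
 (c z e
 (c z e
 (c z e
 (c (a (nat_lit 0x17ee80000006)) e e)))))
 (c (a (nat_lit 0x20202041))
 (c z e
 (c (b (nat_lit 0x1ff2f08829e8)) e
 (c (a (nat_lit 0x186fa7c00006)) e
 (c (a (nat_lit 0x2000000001)) e e))))
 (c (a (nat_lit 0x202000a1))
 (c (a (nat_lit 0x1070e404a006)) e
 (c (a (nat_lit 0x122020000006)) e e))
 (c (a (nat_lit 0x203bd9c5))
 (c (a (nat_lit 0x4000000001)) e e)
 (c (a (nat_lit 0x597970a27)) e
 (c (a (nat_lit 0x1e9e112e27)) e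
 (c (a (nat_lit 0x136c002025)) e
 (c (a (nat_lit 0x1840404024)) e
 (c (b (nat_lit 0x40a07fe1)) e
 (c (a (nat_lit 0x60809242)) e
 (c (a (nat_lit 0xe0b2f142)) e
 (c z e
 (c (a (nat_lit 0x13b1f01026)) e
 (c (a (nat_lit 0x1de0206022)) e
 (c (a (nat_lit 0x40800001)) e e))))))))))))))))))))))))) Tr.c Tr.e (nat_lit 0) C.cx C.cy
noncomputable def C540 : Tr := beta% (fun (c : Nat → Tr → Tr → Tr) (e : Tr) (z : Nat) (a b : Nat → Nat) =>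
 (c (a (nat_lit 0x40404041))
 (c (a (nat_lit 0x2020203927))
 (c (a (nat_lit 0xe160202271e7))
 (c (a (nat_lit 0x6a7496e1288a907)) e
 (c (a (nat_lit 0x7a94f8e138b0a49)) e e))
 (c (a (nat_lit 0x2c0232954a308)) e
 (c z e
 (c z e
 (c z e
 (c z e
 (c z e
 (c z e
 (c (a (nat_lit 0x14379628306c47)) e
 (c z e
 (c z e
 (c (b (nat_lit 0x1fffe2e8552007)) e
 (c (a (nat_lit 0xc108aa0000008)) e
 (c (a (nat_lit 0x17e00000000006)) e e))))))))))))))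
 (c (a (nat_lit 0x20203ac908))
 (c z e
 (c z e
 (c z e
 (c z e
 (c z e
 (c z e
 (c z e
 (c z e
 (c z e
 (c z e
 (c (a (nat_lit 0x1135bedda00009)) e
 (c (a (nat_lit 0x118d4000000008)) e e))))))))))))
 (c (a (nat_lit 0x203db3eb08)) e
 (c z e
 (c z e
 (c z e
 (c z e
 (c z e
 (c (a (nat_lit 0x1bf8e0236da6))
 (c (a (nat_lit 0x1793a840000007)) e e)
 (c z e
 (c z e
 (c (a (nat_lit 0x5dc00607b25)) e
 (c (a (nat_lit 0x7002026b267)) e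
 (c (a (nat_lit 0x5ac57f6a7)) e
 (c z e
 (c (a (nat_lit 0xb927476666)) e
 (c (a (nat_lit 0x124020802006)) e
 (c (a (nat_lit 0x1d42c10001)) e
 (c (a (nat_lit 0x170080000002)) e e)))))))))))))))))))
 (c (a (nat_lit 0x20202021))
 (c (a (nat_lit 0x20348aa948)) e
 (c z e
 (c z e
 (c z e
 (c z e
 (c z e
 (c z e
 (c z e
 (c z e
 (c z e
 (c z e
 (c z e
 (c z e
 (c z e
 (c z e
 (c (b (nat_lit 0xfb53fe02027)) e
 (c (a (nat_lit 0x152020200007)) e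
 (c (a (nat_lit 0x2000000001)) e e))))))))))))))))))
 (c (a (nat_lit 0x40406061))
 (c (a (nat_lit 0x17304daa2447))
 (c (a (nat_lit 0x39a3d2180a8c6))
 (c (a (nat_lit 0x32e762b4b00e007)) e e)
 (c z e
 (c z e
 (c (a (nat_lit 0x17363c7c7f57a8)) e
 (c (a (nat_lit 0x949edcde9b389)) e
 (c z e
 (c z e
 (c (a (nat_lit 0x48510e7a1e00a)) e e))))))))
 (c z e
 (c z e
 (c (a (nat_lit 0x16cfae6d4de7))
 (c z e
 (c (b (nat_lit 0x10e9ffe48283c9)) e e))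
 (c (a (nat_lit 0xb2a69ea50c8))
 (c (a (nat_lit 0xa57092308a948)) e e)
 (c z e
 (c z e
 (c (a (nat_lit 0xc9812d2cec7)) e
 (c z e
 (c z e
 (c (a (nat_lit 0xbf95a402807)) e
 (c (a (nat_lit 0x123aa0287ae7)) e
 (c (a (nat_lit 0x1aa04b5b0c67)) e
 (c (a (nat_lit 0xb19478787)) e
 (c (a (nat_lit 0x43220202007)) e
 (c (a (nat_lit 0x122020000007)) e e))))))))))))))))
 (c (nat_lit 1)
 (c z e
 (c z e
 (c z e
 (c z e
 (c (a (nat_lit 0xa6970c94947)) e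
 (c (a (nat_lit 0xf753615d227)) e
 (c z e
 (c z e
 (c (a (nat_lit 0x1b5fbe704087)) e
 (c (a (nat_lit 0x62580607448)) e
 (c (a (nat_lit 0x52020944ba8)) e
 (c z e
 (c (b (nat_lit 0x1ff4a301a1a7)) e
 (c (a (nat_lit 0x132180200007)) e e))))))))))))))
 (c (a (nat_lit 0x40402021))
 (c (a (nat_lit 0x50220445945))
 (c (a (nat_lit 0x262f300afad05)) e
 (c z e
 (c z e
 (c (a (nat_lit 0x8d3e7e4220008)) e
 (c (a (nat_lit 0x15272080000008)) e e)))))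
 (c z e
 (c z e
 (c (a (nat_lit 0x455a6060a06)) e
 (c (a (nat_lit 0xd4653714bc7)) e
 (c z e
 (c z e
 (c (a (nat_lit 0x14d049a08006)) e
 (c (a (nat_lit 0xd80205158c5)) e e)))))))))
 (c (a (nat_lit 0x40404041))
 (c (a (nat_lit 0x48e12858585))
 (c (b (nat_lit 0x1ffff442834046)) e
 (c (b (nat_lit 0x1c179fffe22006)) e e))
 (c (a (nat_lit 0x990a4644a26))
 (c (b (nat_lit 0x3dff3e6a00006)) e e)
 (c z e
 (c z e
 (c (a (nat_lit 0x125433aead08)) e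
 (c z e
 (c z e
 (c z e
 (c (a (nat_lit 0x3c3012676a7)) e
 (c (a (nat_lit 0x847abf308a8)) e e))))))))))
 (c (a (nat_lit 0x20404041))
 (c (a (nat_lit 0x13e8b8159865))
 (c (a (nat_lit 0x3c4980000004)) e e)
 (c z e
 (c z e
 (c (a (nat_lit 0x1e5e7a34c687)) e
 (c z e
 (c z e
 (c (a (nat_lit 0x261c02032e7)) e
 (c (a (nat_lit 0xccb0b39fd67)) e e))))))))
 (c (a (nat_lit 0x20202021))
 (c (a (nat_lit 0x15fa9a744286)) e
 (c (a (nat_lit 0x10500e24c388)) e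
 (c z e
 (c z e
 (c (a (nat_lit 0xbc42080b225)) e
 (c (a (nat_lit 0xdccecf11407)) e e))))))
 (c (a (nat_lit 0x40402021))
 (c (a (nat_lit 0x1fbabb0c04e4)) e
 (c (a (nat_lit 0x12d76da04ec4)) e
 (c z e
 (c (a (nat_lit 0x9a8cad5b367)) e
 (c z e
 (c (a (nat_lit 0x15d3eab8006)) e
 (c (a (nat_lit 0x15d1a0000006)) e e)))))))
 (c (a (nat_lit 0x40404041))
 (c (a (nat_lit 0xd66806056e4)) e
 (c z e
 (c z e
 (c (a (nat_lit 0xe3347076768)) e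
 (c (a (nat_lit 0x1b2040200005)) e
 (c (a (nat_lit 0x2000000001)) e e))))))
 (c (a (nat_lit 0x202041))
 (c z e
 (c (a (nat_lit 0x129a6880c028)) e
 (c (a (nat_lit 0x13ae60404007)) e
 (c (a (nat_lit 0x132080000001)) e e))))
 (c (nat_lit 1)
 (c (a (nat_lit 0x6032e0bc46)) e
 (c (a (nat_lit 0x201400001)) e
 (c (nat_lit 1) e e)))
 (c (a (nat_lit 0x202036c5))
 (c (a (nat_lit 0x2020000001)) e e)
 (c (a (nat_lit 0x2036caa5)) e
 (c (a (nat_lit 0x6326f6847)) e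
 (c (a (nat_lit 0x1330292907)) e
 (c (a (nat_lit 0x10c0602102)) e
 (c (a (nat_lit 0x100a154c1)) e
 (c (b (nat_lit 0x1cbce7ffe3)) e
 (c (a (nat_lit 0x13e7a02004)) e
 (c (a (nat_lit 0x3e0203ae5)) e
 (c z e
 (c (a (nat_lit 0x532a5e5e6)) e
 (c (a (nat_lit 0x1960002005)) e
 (c (a (nat_lit 0x20000001)) e e)))))))))))))))))))))))))) Tr.c Tr.e (nat_lit 0) C.cx C.cy
noncomputable def C541 : Tr := beta% (fun (c : Nat → Tr → Tr → Tr) (e : Tr) (z : Nat) (a b : Nat → Nat) =>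
 (c (a (nat_lit 0x20000001))
 (c (a (nat_lit 0x20203e4e47))
 (c (a (nat_lit 0x4369718006))
 (c (a (nat_lit 0x6b1d227c70805e7)) e
 (c z e
 (c z e
 (c (a (nat_lit 0xd6f32300e038008)) e
 (c (a (nat_lit 0xfb0ad67c0000007)) e e)))))
 (c (a (nat_lit 0x403c5e9708129)) e
 (c z e
 (c (a (nat_lit 0xb52b12be4a988)) e
 (c (b (nat_lit 0x1b52444711dfe7)) e
 (c z e
 (c z e
 (c (a (nat_lit 0x3496448728767)) e
 (c z e
 (c z e
 (c (a (nat_lit 0x149d3f9de00008)) e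
 (c (a (nat_lit 0x17ca4000000007)) e e))))))))))))
 (c (a (nat_lit 0x32c989e9))
 (c z e
 (c z e
 (c z e
 (c z e
 (c z e
 (c z e
 (c (a (nat_lit 0xa62d5177757a8)) e
 (c z e
 (c z e
 (c (a (nat_lit 0x13920fe000000a)) e e))))))))))
 (c (a (nat_lit 0x15b94760d28)) e
 (c (a (nat_lit 0x1c3777cf8b48))
 (c (a (nat_lit 0xa117ae380d247)) e
 (c (a (nat_lit 0xafd0ce66bafe8)) e
 (c z e
 (c z e
 (c (a (nat_lit 0x129a1ed7fa5288)) e e)))))
 (c (a (nat_lit 0x18fb99918767))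
 (c (a (nat_lit 0x13f005c2ebf447)) e
 (c z e
 (c z e
 (c (a (nat_lit 0xa0d31ad6e25c9)) e e))))
 (c z e
 (c (a (nat_lit 0x161111113186))
 (c (b (nat_lit 0x8a9903fe0a048)) e
 (c (b (nat_lit 0x133cbfe2e00007)) e e))
 (c (b (nat_lit 0x1fe04070d805))
 (c (a (nat_lit 0x1da24160000006)) e e)
 (c z e
 (c z e
 (c (a (nat_lit 0x1174d8ba1ac7)) e
 (c (a (nat_lit 0x1ae1654b2664)) e
 (c z e
 (c (b (nat_lit 0x1fe0e03467c7)) e
 (c (a (nat_lit 0x10034a7e227)) e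
 (c (a (nat_lit 0x8dd50cb4b47)) e
 (c (a (nat_lit 0x104580202007)) e
 (c (a (nat_lit 0x15e020000005)) e e))))))))))))))))))
 (c (a (nat_lit 0x20202021))
 (c (a (nat_lit 0x3548868c6a8))
 (c (b (nat_lit 0x1ffffbb42222a7))
 (c (a (nat_lit 0x9b9ccf7d1cca126)) e e)
 (c z e
 (c z e
 (c z e
 (c (a (nat_lit 0xa4ceab6134208)) e
 (c z e
 (c z e
 (c (b (nat_lit 0xb2f1fff3361a9)) e e))))))))
 (c z e
 (c z e
 (c z e
 (c (a (nat_lit 0x170dededf227))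
 (c (a (nat_lit 0x1085fbfe65c7e8)) e e)
 (c (a (nat_lit 0x45456a9566))
 (c (a (nat_lit 0xf6ab26c016007)) e
 (c (a (nat_lit 0x1a2de720000007)) e e))
 (c (a (nat_lit 0x9c9cf55b0e7))
 (c (a (nat_lit 0x140d8000000004)) e e)
 (c (a (nat_lit 0xb5193d171a8)) e
 (c z e
 (c z e
 (c z e
 (c (a (nat_lit 0xa8400217748)) e
 (c (a (nat_lit 0x3e0217750c8)) e
 (c z e
 (c (b (nat_lit 0x1ff50d08c8c7)) e
 (c (a (nat_lit 0x18a880200006)) e e))))))))))))))))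
 (c (a (nat_lit 0x20200001))
 (c z e
 (c z e
 (c z e
 (c z e
 (c z e
 (c z e
 (c z e
 (c z e
 (c z e
 (c (a (nat_lit 0x1fab60404006)) e
 (c (b (nat_lit 0x3e1213ff4a8)) e e)))))))))))
 (c (a (nat_lit 0x20202021))
 (c (a (nat_lit 0x19a0806075c4))
 (c (a (nat_lit 0xcad35b4e744e5)) e
 (c (a (nat_lit 0x101d3e90af0d26)) e
 (c z e
 (c z e
 (c (a (nat_lit 0x11c0f03400007)) e e)))))
 (c (a (nat_lit 0x204077f865))
 (c (a (nat_lit 0x1798efd9d4d026)) e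
 (c z e
 (c z e
 (c (a (nat_lit 0x122742c0000008)) e e))))
 (c z e
 (c z e
 (c (a (nat_lit 0xc0c16b52d07)) e
 (c z e
 (c z e
 (c (a (nat_lit 0x11a603e06006)) e
 (c (a (nat_lit 0x104be4db5be5)) e
 (c (a (nat_lit 0x3202d341d66)) e
 (c (b (nat_lit 0x1fe9890a9627)) e
 (c (a (nat_lit 0xb6b0db808e7)) e e))))))))))))
 (c (a (nat_lit 0x40404021))
 (c (a (nat_lit 0x8091270705))
 (c (b (nat_lit 0x6e0b73018bfe5)) e
 (c z e
 (c z e
 (c (a (nat_lit 0x16ffc000000005)) e e))))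
 (c z e
 (c z e
 (c (a (nat_lit 0xb15790f0da7)) e
 (c z e
 (c z e
 (c (b (nat_lit 0x114f10dfffe6)) e
 (c (a (nat_lit 0x12d3b3c3e384)) e
 (c (a (nat_lit 0x44420203626)) e
 (c (a (nat_lit 0x9e8e8f3dd07)) e e))))))))))
 (c (a (nat_lit 0x20202001))
 (c (a (nat_lit 0x17b27cff7685))
 (c (b (nat_lit 0x1ffff18d200004)) e e)
 (c z e
 (c z e
 (c (a (nat_lit 0x1570efd023e7)) e
 (c z e
 (c z e
 (c (a (nat_lit 0x7a7c04079c5)) e
 (c (a (nat_lit 0x886c6c953a7)) e e))))))))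
 (c (a (nat_lit 0x20202041))
 (c (a (nat_lit 0x1dff1893c246)) e
 (c (a (nat_lit 0x18f8358361c7)) e
 (c z e
 (c z e
 (c (a (nat_lit 0xa0a21e571c5)) e
 (c (a (nat_lit 0x143052126d66)) e
 (c z e
 (c (a (nat_lit 0x14fcf8578007)) e
 (c (a (nat_lit 0x120940000005)) e e)))))))))
 (c (nat_lit 1)
 (c (a (nat_lit 0x1f1dbe112904)) e
 (c (a (nat_lit 0x13cfd0608104)) e
 (c z e
 (c (a (nat_lit 0xe6aaad1aaa6)) e
 (c z e
 (c (a (nat_lit 0x3152e4c4b66)) e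
 (c (a (nat_lit 0x1c8161000004)) e
 (c (nat_lit 1) e e))))))))
 (c (a (nat_lit 0x2021))
 (c (a (nat_lit 0x3c3e0405d85)) e
 (c z e
 (c z e
 (c (a (nat_lit 0x13da2a252928)) e
 (c (a (nat_lit 0x16d14ea04006)) e
 (c (a (nat_lit 0x118040000002)) e e))))))
 (c (a (nat_lit 0x20204041))
 (c z e
 (c (b (nat_lit 0x1ffffbf83767)) e
 (c (a (nat_lit 0xd102080de84)) e
 (c (a (nat_lit 0xc0600001)) e
 (c (a (nat_lit 0x2000000001)) e e)))))
 (c (a (nat_lit 0x60404041))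
 (c (a (nat_lit 0x1e133303927)) e
 (c (a (nat_lit 0x40626e001)) e
 (c (a (nat_lit 0xe0000001)) e e)))
 (c (nat_lit 1)
 (c (a (nat_lit 0x1fe020000003)) e
 (c (a (nat_lit 0x4000000001)) e e))
 (c (a (nat_lit 0x20203026)) e
 (c (a (nat_lit 0x808182ca6)) e
 (c (a (nat_lit 0xc7f9434a6)) e
 (c (a (nat_lit 0x116bcc0a27)) e
 (c (a (nat_lit 0x124e1a001)) e
 (c (a (nat_lit 0x3c1400001)) e
 (c (a (nat_lit 0x1fa0604063)) e
 (c (a (nat_lit 0x40407c24)) e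
 (c (a (nat_lit 0x3bf844)) e
 (c z e
 (c (a (nat_lit 0x111050c9c6)) e
 (c (a (nat_lit 0x1b6e200005)) e e))))))))))))))))))))))))) Tr.c Tr.e (nat_lit 0) C.cx C.cy
noncomputable def C542 : Tr := beta% (fun (c : Nat → Tr → Tr → Tr) (e : Tr) (z : Nat) (a b : Nat → Nat) =>
 (c (a (nat_lit 0x8080808081))
 (c (a (nat_lit 0x100d6e49e14145))
 (c z e
 (c (a (nat_lit 0x64c254f8f5b9d44))
 (c (a (nat_lit 0x1b3a1dd0c4674ca207)) e
 (c z e
 (c (a (nat_lit 0x142dc90cab0c8aae68)) e e)))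
 (c z e
 (c (a (nat_lit 0x74181623fb6a5))
 (c (a (nat_lit 0x788e7c80606e95988)) e e)
 (c (a (nat_lit 0x4a244cc02b2d946)) e
 (c z e
 (c (a (nat_lit 0x7870381a6b310a6)) e
 (c (a (nat_lit 0x3e263e487c4b207)) e
 (c (a (nat_lit 0x258925fff186)) e
 (c (a (nat_lit 0x30a8e645b8f0ba6)) e
 (c (a (nat_lit 0x20522b166872107)) e
 (c (a (nat_lit 0x11f1e692ac400006)) e e))))))))))))
 (c (a (nat_lit 0x1a7b97a6a6c3e6))
 (c (a (nat_lit 0x8a34a29f0b28bc6))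
 (c (a (nat_lit 0x1396ad6403e700a368)) e e)
 (c z e
 (c z e
 (c z e
 (c z e
 (c z e
 (c (a (nat_lit 0x4283e7c53084a9)) e
 (c z e
 (c z e
 (c (a (nat_lit 0xc89b8a5c6c26008)) e
 (c (a (nat_lit 0x1c5363e8e0000007)) e e)))))))))))
 (c z e
 (c (a (nat_lit 0x1fcbebec0b6603))
 (c (a (nat_lit 0x525ac4908f2eb48))
 (c (a (nat_lit 0x5a3e624b063600009)) e e)
 (c z e
 (c z e
 (c (a (nat_lit 0x264f06aecc54508)) e
 (c (b (nat_lit 0x1fe5e2722104a449)) e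
 (c (a (nat_lit 0xc2958c7ea620268)) e
 (c (a (nat_lit 0x290a4c166020008)) e
 (c (a (nat_lit 0x108025c200000008)) e e))))))))
 (c (a (nat_lit 0xf4f4f72557025))
 (c z e
 (c z e
 (c z e
 (c z e
 (c z e
 (c (a (nat_lit 0xeaef251a8a00008)) e
 (c (a (nat_lit 0x1d7d2ac000000007)) e e)))))))
 (c z e
 (c (a (nat_lit 0x8eb8bb13e14c4))
 (c (a (nat_lit 0x12cbc6cb09ef06a7)) e
 (c (a (nat_lit 0x1a84892866842848)) e e))
 (c (a (nat_lit 0x2c0e5fc3009e5))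
 (c (a (nat_lit 0xa316f480b88c007)) e e)
 (c z e
 (c (a (nat_lit 0x9718e6c008066)) e
 (c (a (nat_lit 0x1e15d524014465)) e
 (c (a (nat_lit 0x1413d3cdcecec7)) e
 (c z e
 (c (a (nat_lit 0xfcfdefed7ae43)) e
 (c (a (nat_lit 0x1d3b3b48fb7c4)) e
 (c (a (nat_lit 0x137393b2949126)) e
 (c (a (nat_lit 0x16d792ad600004)) e
 (c (a (nat_lit 0x1eaa8000000003)) e e))))))))))))))))))
 (c (a (nat_lit 0x2020000001))
 (c (a (nat_lit 0x1734092946e587))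
 (c (a (nat_lit 0x88e2e1436ef6b66))
 (c (a (nat_lit 0x118d05448583c44028)) e
 (c z e
 (c (a (nat_lit 0x3434062a0c10c3769)) e e)))
 (c z e
 (c z e
 (c z e
 (c z e
 (c z e
 (c z e
 (c z e
 (c z e
 (c (a (nat_lit 0x115d2684a1000008)) e
 (c (a (nat_lit 0x1f01436000000008)) e e)))))))))))
 (c z e
 (c z e
 (c z e
 (c z e
 (c z e
 (c z e
 (c z e
 (c z e
 (c (b (nat_lit 0x187fffe8f253e6)) e
 (c (a (nat_lit 0x14f9d998593667)) e
 (c z e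
 (c z e
 (c z e
 (c (a (nat_lit 0xdcb4cf04ba008)) e
 (c (a (nat_lit 0x1077f2e0000006)) e e))))))))))))))))
 (c (a (nat_lit 0x2020000001)) e
 (c (a (nat_lit 0x20002001))
 (c (a (nat_lit 0xfa36aa3e7d065))
 (c (a (nat_lit 0xa09ceebf8568c48)) e
 (c z e
 (c z e
 (c (a (nat_lit 0xd73302b0d28c629)) e
 (c (a (nat_lit 0x17e9a988c4826149)) e e)))))
 (c z e
 (c z e
 (c (a (nat_lit 0x463e622504bc7))
 (c (a (nat_lit 0x9922885cac38008)) e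
 (c (a (nat_lit 0x1084a60640000009)) e e))
 (c (a (nat_lit 0x212071e7c187))
 (c (a (nat_lit 0x4fe30e000000006)) e e)
 (c z e
 (c (a (nat_lit 0x676ece8a5d407)) e
 (c (a (nat_lit 0x13ec28442f8067)) e
 (c z e
 (c z e
 (c (b (nat_lit 0x1ff0c563ba67e7)) e
 (c (a (nat_lit 0x1144e45f21a007)) e e))))))))))))
 (c (a (nat_lit 0x2020202021))
 (c z e
 (c z e
 (c z e
 (c z e
 (c z e
 (c (a (nat_lit 0xb28e09048767)) e
 (c (a (nat_lit 0x148f13a0c778e7)) e e)))))))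
 (c (a (nat_lit 0x2020201227))
 (c z e
 (c z e
 (c z e
 (c z e
 (c z e
 (c z e
 (c z e
 (c z e
 (c z e
 (c (a (nat_lit 0x53045a0000009)) e e))))))))))
 (c (a (nat_lit 0x20203226a7))
 (c z e
 (c (b (nat_lit 0x1ff33636927166)) e
 (c z e
 (c z e
 (c (a (nat_lit 0xa4c2301ba5487)) e
 (c z e
 (c z e
 (c (b (nat_lit 0x1fe786d3000008)) e
 (c (a (nat_lit 0x1067e000000008)) e e)))))))))
 (c (a (nat_lit 0x3031e1152c6))
 (c (a (nat_lit 0xf7111503fb346)) e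
 (c z e
 (c z e
 (c (a (nat_lit 0x588842a45f0c8)) e
 (c z e
 (c z e
 (c (a (nat_lit 0xdecbfc0000008)) e e)))))))
 (c (a (nat_lit 0x1acf0f8ae6)) e
 (c (a (nat_lit 0x1a0d6e2a61a6))
 (c (a (nat_lit 0x5dc138bc80947)) e
 (c (a (nat_lit 0xf90ced761a768)) e e))
 (c (a (nat_lit 0x133614834305))
 (c (a (nat_lit 0x58ab260a56068)) e
 (c (a (nat_lit 0x1e70ce09c00008)) e e))
 (c (a (nat_lit 0x1572f2f2f0e7))
 (c (a (nat_lit 0x1596ba0000007)) e e)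
 (c z e
 (c (a (nat_lit 0x403c56a4)) e
 (c (a (nat_lit 0x40744ecb84)) e
 (c (a (nat_lit 0xfb2f1d29c06)) e
 (c (a (nat_lit 0x1a020b86c85)) e
 (c (a (nat_lit 0x145bd6e6925)) e
 (c (a (nat_lit 0x8344aca0826)) e
 (c (a (nat_lit 0x14e220402005)) e
 (c (a (nat_lit 0x1f624160a021)) e
 (c (a (nat_lit 0x3a280800001)) e e))))))))))))))))))))))) Tr.c Tr.e (nat_lit 0) C.cx C.cy
noncomputable def C543 : Tr := beta% (fun (c : Nat → Tr → Tr → Tr) (e : Tr) (z : Nat) (a b : Nat → Nat) =>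
 (c (nat_lit 1)
 (c (a (nat_lit 0x20202021)) C542
 (c (a (nat_lit 0x20202021))
 (c (a (nat_lit 0x4040404041))
 (c (a (nat_lit 0x10ca6907e4eb06))
 (c (a (nat_lit 0xaaaed2f0cab11e6))
 (c z e
 (c z e
 (c z e
 (c (a (nat_lit 0xf4e6c2dfaf0400009)) e e))))
 (c z e
 (c z e
 (c (a (nat_lit 0xf4e4e72b7db97a9)) e
 (c z e
 (c z e
 (c z e
 (c (a (nat_lit 0x1099dff0ecc1e327)) e
 (c z e
 (c (a (nat_lit 0x14e8c6e0c0000007)) e
 (c (a (nat_lit 0x12eb600000000006)) e e)))))))))))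
 (c z e
 (c z e
 (c (a (nat_lit 0x114dff2ea6f8c6))
 (c (a (nat_lit 0x187e78581afb3469)) e
 (c z e
 (c z e
 (c z e
 (c (a (nat_lit 0x12395cd56aa00008)) e e)))))
 (c (b (nat_lit 0x8d2151ff9d4e6)) e
 (c z e
 (c z e
 (c (a (nat_lit 0x6324d076569a7)) e
 (c z e
 (c (b (nat_lit 0x45fe94ff3c4c6)) e
 (c (a (nat_lit 0xaab4f91adeb67)) e
 (c z e
 (c z e
 (c z e
 (c (a (nat_lit 0x1134faf2800007)) e
 (c (a (nat_lit 0x1590e000000006)) e e))))))))))))))))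
 (c (a (nat_lit 0x4040606061))
 (c z e
 (c z e
 (c z e
 (c z e
 (c z e
 (c z e
 (c z e
 (c z e
 (c z e
 (c z e
 (c z e
 (c z e
 (c z e
 (c (a (nat_lit 0xe3420000002)) e e))))))))))))))
 (c (a (nat_lit 0x4060404021)) e
 (c (a (nat_lit 0x2030c8))
 (c (b (nat_lit 0x10f47ff0c54b68))
 (c (a (nat_lit 0x10f2532d6f2f73c9)) e e)
 (c z e
 (c z e
 (c z e
 (c (a (nat_lit 0x6af1c621d528)) e
 (c z e
 (c z e
 (c (a (nat_lit 0xdad2fb5191069)) e e))))))))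
 (c (a (nat_lit 0x202030a7a8)) e
 (c (a (nat_lit 0x2039f0ee28)) e
 (c (a (nat_lit 0x14ce4b65a8)) e
 (c (a (nat_lit 0x1812ef69c388))
 (c (a (nat_lit 0x1307208834088)) e
 (c z e
 (c z e
 (c (a (nat_lit 0x756744b450009)) e e))))
 (c z e
 (c (a (nat_lit 0xf30a848a3e7))
 (c (b (nat_lit 0x12e5dfea222008)) e
 (c (a (nat_lit 0x12e1c6e0000009)) e e))
 (c (a (nat_lit 0x173553f2d647))
 (c (a (nat_lit 0x184b8000000007)) e e)
 (c z e
 (c z e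
 (c z e
 (c (b (nat_lit 0x1febc04516a6)) e
 (c (a (nat_lit 0xba68ab68bc6)) e
 (c z e
 (c (a (nat_lit 0x1bc0e04c85)) e
 (c (a (nat_lit 0x1cc1e06dba05)) e
 (c (a (nat_lit 0x29b3a19a004)) e
 (c (a (nat_lit 0x9e3a0000001)) e e)))))))))))))))))))))
 (c (a (nat_lit 0x20202021))
 (c (a (nat_lit 0x4040404021))
 (c (a (nat_lit 0xe0927e7203c05))
 (c (a (nat_lit 0x7c7c9886bebd2e7)) e e)
 (c z e
 (c z e
 (c z e
 (c z e
 (c z e
 (c z e
 (c z e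
 (c z e
 (c z e
 (c z e
 (c z e
 (c (a (nat_lit 0x8b1506ba00007)) e
 (c (a (nat_lit 0x14096000000006)) e e))))))))))))))
 (c (a (nat_lit 0x2020203928))
 (c z e
 (c z e
 (c z e
 (c z e
 (c z e
 (c z e
 (c z e
 (c z e
 (c z e
 (c z e
 (c z e
 (c (a (nat_lit 0x1017ebe0000008)) e e))))))))))))
 (c (a (nat_lit 0x20203989e8)) e
 (c (a (nat_lit 0x39d20d88)) e
 (c (a (nat_lit 0x352fca2588)) e
 (c z e
 (c z e
 (c z e
 (c z e
 (c z e
 (c z e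
 (c z e
 (c (a (nat_lit 0x401004176e6)) e
 (c (a (nat_lit 0x2383ae9ce7)) e e))))))))))))))
 C541)))
 (c (a (nat_lit 0x202021))
 (c (nat_lit 1)
 (c (a (nat_lit 0x6060606061))
 (c (a (nat_lit 0x1a3836f2bb2c84))
 (c z e
 (c z e
 (c z e
 (c (a (nat_lit 0xa28d0391a7071a7)) e
 (c (a (nat_lit 0x8e7fbff1a4bd047)) e
 (c z e
 (c (a (nat_lit 0xb715ae7ef09c946)) e
 (c (a (nat_lit 0x14ee8bf40e2f0986)) e
 (c (a (nat_lit 0xb88c4f005800006)) e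
 (c (a (nat_lit 0x1c5f334000000005)) e e))))))))))
 (c z e
 (c z e
 (c (a (nat_lit 0x248002028d646))
 (c (a (nat_lit 0x1bda32fa19746ee8)) e
 (c (a (nat_lit 0x14ad6a11ee08e849)) e
 (c z e
 (c (a (nat_lit 0x117d5b1b35082007)) e
 (c (a (nat_lit 0x1c7bd6ce20000007)) e e)))))
 (c z e
 (c z e
 (c (a (nat_lit 0x315358620e245)) e
 (c (a (nat_lit 0x167584c041e665)) e
 (c (a (nat_lit 0x1020a162c7c6e5)) e
 (c (a (nat_lit 0xc8c8e70710ec6)) e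
 (c (a (nat_lit 0x64837d9550003)) e
 (c z e
 (c (a (nat_lit 0x13d3b2b51f5b26)) e
 (c (a (nat_lit 0x1493961ed22006)) e
 (c (a (nat_lit 0xe308cc0000006)) e
 (c (a (nat_lit 0x1d200000000003)) e e))))))))))))))))
 (c (a (nat_lit 0x6060606061))
 (c (a (nat_lit 0xc42c8e24030a6))
 (c (a (nat_lit 0x100f10743a745468))
 (c (a (nat_lit 0x7e9cc2bf063600009)) e e) e)
 (c (b (nat_lit 0x1c840203ff147)) e
 (c z e
 (c z e
 (c z e
 (c z e
 (c z e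
 (c z e
 (c z e
 (c z e
 (c z e
 (c (a (nat_lit 0x101a859777c87)) e
 (c (a (nat_lit 0xacc92aba00008)) e
 (c (a (nat_lit 0x1db76000000005)) e e))))))))))))))
 (c (a (nat_lit 0x2020203e26))
 (c z e
 (c z e
 (c z e
 (c z e
 (c z e
 (c z e
 (c z e
 (c z e
 (c z e
 (c z e
 (c z e
 (c (a (nat_lit 0x13b56020000006)) e e))))))))))))
 (c (a (nat_lit 0x20203e6f86))
 (c (a (nat_lit 0xbb91b0161ede7))
 (c (a (nat_lit 0xc91ec6831af4428)) e e)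
 (c z e
 (c z e
 (c (a (nat_lit 0x368f088464f08)) e
 (c (a (nat_lit 0x6cca3a46bb268)) e
 (c z e
 (c z e
 (c (a (nat_lit 0x4e5c80c6db729)) e e))))))))
 (c (a (nat_lit 0x203b73ce87)) e
 (c z e
 (c (a (nat_lit 0x17d34eaa4327))
 (c z e
 (c (a (nat_lit 0x48c5248e36048)) e
 (c z e
 (c z e
 (c (b (nat_lit 0x349547fe02009)) e e)))))
 (c (a (nat_lit 0xe6ef16343e6))
 (c (a (nat_lit 0xd7a4f09d08007)) e
 (c z e
 (c z e
 (c (a (nat_lit 0x8f44580a00009)) e e))))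
 (c z e
 (c (a (nat_lit 0x102d4c8b4b47))
 (c (a (nat_lit 0x12318ee6c00007)) e
 (c (a (nat_lit 0x10490000000007)) e e))
 (c (a (nat_lit 0xa4420607a85))
 (c (a (nat_lit 0x12000000000003)) e e)
 (c z e
 (c (a (nat_lit 0xdaf55cfae67)) e
 (c (a (nat_lit 0x358e0405805)) e
 (c (a (nat_lit 0xc80204c3146)) e
 (c (a (nat_lit 0x1a89472ebc6)) e
 (c (a (nat_lit 0x510cf686826)) e
 (c (a (nat_lit 0x110da0402005)) e
 (c (a (nat_lit 0x1be10060a084)) e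
 (c (a (nat_lit 0x54141200001)) e
 (c (nat_lit 1) e e)))))))))))))))))))))
 C540)
 (c (a (nat_lit 0x202021)) C539
 (c (a (nat_lit 0x202021)) C538
 C537))))) Tr.c Tr.e (nat_lit 0) C.cx C.cy
noncomputable def C544 : Tr := beta% (fun (c : Nat → Tr → Tr → Tr) (e : Tr) (z : Nat) (a b : Nat → Nat) =>
 (c (nat_lit 1)
 (c (a (nat_lit 0x2020203807))
 (c z e
 (c z e
 (c z e
 (c z e
 (c z e
 (c z e
 (c z e
 (c z e
 (c (a (nat_lit 0xc72e8889bc047)) e e)))))))))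
 (c (a (nat_lit 0x20203bd108)) e
 (c (a (nat_lit 0x20316a6ac9)) e
 (c (a (nat_lit 0x1612920be8)) e
 (c z e
 (c z e
 (c z e
 (c z e
 (c z e
 (c z e
 (c z e
 (c z e
 (c z e
 (c z e
 (c z e
 (c z e
 (c (a (nat_lit 0x8336e856567)) e
 (c (a (nat_lit 0x1c32a0400006)) e e))))))))))))))))))
 (c (nat_lit 1)
 (c (a (nat_lit 0x318e2e28))
 (c z e
 (c z e
 (c z e
 (c z e
 (c z e
 (c z e
 (c (a (nat_lit 0x7486d270b7288)) e e)))))))
 (c z e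
 (c z e
 (c z e
 (c z e
 (c z e
 (c (a (nat_lit 0x2020213107))
 (c (a (nat_lit 0x18426f20000003)) e e)
 (c z e
 (c z e
 (c z e
 (c z e
 (c (a (nat_lit 0x5ae3026004)) e
 (c (a (nat_lit 0x1860a06051a4)) e
 (c (b (nat_lit 0x3ffffb05)) e e))))))))))))))
 (c (nat_lit 1)
 (c z e
 (c z e
 (c z e
 (c z e
 (c z e
 (c z e
 (c z e
 (c z e
 (c z e
 (c (a (nat_lit 0x1825c0202046)) e
 (c (a (nat_lit 0x16a080418b04)) e
 (c (a (nat_lit 0x404105d705)) e e))))))))))))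
 (c (a (nat_lit 0x40404041))
 (c (a (nat_lit 0x11908322a166))
 (c (a (nat_lit 0x1c4449c9468065)) e
 (c (a (nat_lit 0x649ca68a97627)) e e))
 (c (a (nat_lit 0x19e040202366))
 (c (a (nat_lit 0xd87070a759227)) e e)
 (c z e
 (c z e
 (c z e
 (c z e
 (c z e
 (c (a (nat_lit 0x1d3347a7a005)) e
 (c (a (nat_lit 0x17e060404824)) e
 (c (a (nat_lit 0x6e6e6c455e5)) e
 (c (a (nat_lit 0xa5a66b94e6)) e e)))))))))))
 (c (a (nat_lit 0x20202021))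
 (c (a (nat_lit 0x202025d465))
 (c (a (nat_lit 0x420770e92646)) e e)
 (c z e
 (c z e
 (c z e
 (c z e
 (c z e
 (c (a (nat_lit 0x163090cce3a6)) e
 (c (a (nat_lit 0x7a787665125)) e
 (c (a (nat_lit 0xa086919645)) e e)))))))))
 (c (a (nat_lit 0x60606061))
 (c z e
 (c z e
 (c z e
 (c z e
 (c z e
 (c z e
 (c (a (nat_lit 0x24cff325)) e e)))))))
 (c (a (nat_lit 0x202021))
 (c z e
 (c (b (nat_lit 0x15d33fffe027)) e
 (c z e
 (c z e
 (c z e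
 (c z e
 (c z e
 (c z e
 (c (a (nat_lit 0x1fc820400004)) e
 (c (a (nat_lit 0xb2000000001)) e e))))))))))
 (c (nat_lit 1)
 (c (a (nat_lit 0x143adacf1524)) e
 (c (a (nat_lit 0x321a20832e5)) e
 (c z e
 (c z e
 (c z e
 (c z e
 (c (a (nat_lit 0x1089e0402007)) e
 (c (a (nat_lit 0x128020000004)) e e))))))))
 (c (a (nat_lit 0x20202021))
 (c (a (nat_lit 0xd2d70960005)) e
 (c z e
 (c z e
 (c z e
 (c (a (nat_lit 0x10ee65202ec7)) e
 (c (a (nat_lit 0x2a0e00001)) e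
 (c (a (nat_lit 0x10000000001)) e e)))))))
 (c (a (nat_lit 0x40402001))
 (c z e
 (c z e
 (c (a (nat_lit 0x528b7181f07)) e
 (c (a (nat_lit 0x11a080808002)) e
 (c (a (nat_lit 0x1c0e0000001)) e e)))))
 (c (nat_lit 1)
 (c (a (nat_lit 0x5c4690910e7)) e
 (c (a (nat_lit 0x146121208022)) e
 (c (a (nat_lit 0xa0400001)) e
 (c (nat_lit 1) e e))))
 (c (nat_lit 1)
 (c (a (nat_lit 0x2020000001)) e
 (c (a (nat_lit 0x4000000001)) e e))
 (c (a (nat_lit 0x21))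
 (c (nat_lit 1) e e)
 (c (a (nat_lit 0x20203186)) e
 (c (a (nat_lit 0x20318ba6)) e
 (c (a (nat_lit 0x8b24f4dc7)) e
 (c (a (nat_lit 0x153230b387)) e
 (c (a (nat_lit 0x1916be1486)) e
 (c (a (nat_lit 0x1138832326)) e
 (c (a (nat_lit 0x1580202006)) e
 (c (a (nat_lit 0x140808021)) e
 (c (a (nat_lit 0x202033e6)) e e))))))))))))))))))))))) Tr.c Tr.e (nat_lit 0) C.cx C.cy
noncomputable def C545 : Tr := beta% (fun (c : Nat → Tr → Tr → Tr) (e : Tr) (z : Nat) (a : Nat → Nat) =>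
 (c (nat_lit 1)
 (c (a (nat_lit 0x2020202021))
 (c (a (nat_lit 0x2020203169e5))
 (c (a (nat_lit 0x115131313518b523)) e
 (c z e
 (c z e
 (c z e
 (c z e
 (c z e
 (c (a (nat_lit 0x86686e727c9db65)) e
 (c (a (nat_lit 0x21e4a5229e5ae4)) e
 (c (a (nat_lit 0x6e6cc0b714ab0e5)) e
 (c z e
 (c z e
 (c z e
 (c z e
 (c z e
 (c (a (nat_lit 0x826a6063b800006)) e e)))))))))))))))
 (c (a (nat_lit 0x2020334dece7)) e
 (c (a (nat_lit 0x2039f5940b07))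
 (c z e
 (c z e
 (c z e
 (c z e
 (c z e
 (c z e
 (c z e
 (c (a (nat_lit 0x2e527f70acb8428)) e e))))))))
 (c (a (nat_lit 0x17cf7b52d41c7)) e
 (c z e
 (c z e
 (c z e
 (c (a (nat_lit 0x1ce0402040f145))
 (c (a (nat_lit 0xd0d8bcb92299146)) e
 (c (a (nat_lit 0x5e424910608c308)) e e))
 (c (a (nat_lit 0x1010102905905))
 (c (a (nat_lit 0x4a5dc4c4f65ac47)) e e)
 (c z e
 (c z e
 (c z e
 (c z e
 (c z e
 (c z e
 (c (a (nat_lit 0x8040a34311e5)) e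
 (c (a (nat_lit 0x4122516bc5)) e
 (c (a (nat_lit 0x64cadf8125605)) e e))))))))))))))))))
 (c (nat_lit 1)
 (c (a (nat_lit 0x203892b18947)) e
 (c z e
 (c (a (nat_lit 0x13504e68e1e029)) e e)))
 (c (a (nat_lit 0x20202001)) e
 (c (a (nat_lit 0x20202021)) e
 (c (a (nat_lit 0x2020202021)) e
 (c (nat_lit 1)
 (c z e
 (c z e
 (c z e
 (c z e
 (c z e
 (c z e
 (c z e
 (c z e
 (c z e
 (c z e
 (c z e
 (c (a (nat_lit 0x5255240200005)) e
 (c (a (nat_lit 0x17924000000005)) e e)))))))))))))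
 (c (a (nat_lit 0x2020202021))
 (c z e
 (c z e
 (c z e
 (c z e
 (c z e
 (c z e
 (c z e
 (c z e
 (c z e
 (c (a (nat_lit 0x92530d1250008)) e
 (c (a (nat_lit 0xc180c20000008)) e
 (c (a (nat_lit 0x17a00000000007)) e e))))))))))))
 (c (a (nat_lit 0x2001))
 (c (a (nat_lit 0x1221602061b424))
 (c z e
 (c (a (nat_lit 0x1990948000000006)) e e))
 (c (a (nat_lit 0x988ce0ed0d2e6))
 (c (a (nat_lit 0x10cf600000000006)) e e)
 (c z e
 (c z e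
 (c z e
 (c z e
 (c z e
 (c z e
 (c (a (nat_lit 0xdf4364a400006)) e
 (c (a (nat_lit 0x172c0000000006)) e e))))))))))
 (c (a (nat_lit 0x20001d06))
 (c (a (nat_lit 0x11f214378f7625)) e
 (c z e
 (c z e
 (c z e
 (c z e
 (c z e
 (c z e
 (c (a (nat_lit 0x1423a3c0000006)) e e))))))))
 (c (a (nat_lit 0x1d1006)) e
 (c (a (nat_lit 0x358b2967)) e
 (c z e
 (c (a (nat_lit 0x146eea8aa307))
 (c (a (nat_lit 0xccd683b02e008)) e e)
 (c z e
 (c z e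
 (c (a (nat_lit 0x186020202006)) e
 (c (a (nat_lit 0x2020203186)) e
 (c (a (nat_lit 0x404031d6a6)) e
 (c z e
 (c z e
 (c z e
 (c z e
 (c (a (nat_lit 0x1d8c28cc8be4)) e
 (c (a (nat_lit 0x1ca264200001)) e
 (c (nat_lit 1) e e)))))))))))))))))))))))))
 (c (nat_lit 1)
 (c (a (nat_lit 0x2001))
 (c (a (nat_lit 0x2dfd9d9aec486)) e e)
 (c (a (nat_lit 0x20202001)) e
 (c (a (nat_lit 0x20202021)) e
 (c (a (nat_lit 0x20000001)) e
 (c (a (nat_lit 0x2020202021)) e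
 (c (a (nat_lit 0x4040402021))
 (c z e
 (c z e
 (c z e
 (c z e
 (c z e
 (c z e
 (c z e
 (c z e
 (c z e
 (c (a (nat_lit 0xc343eed000009)) e e))))))))))
 (c (a (nat_lit 0x2020203108))
 (c z e
 (c z e
 (c z e
 (c z e
 (c z e
 (c z e
 (c z e
 (c z e
 (c (a (nat_lit 0x11d3ade0000008)) e e)))))))))
 (c (a (nat_lit 0x2020382c67)) e
 (c (a (nat_lit 0x203c114ea7)) e
 (c (a (nat_lit 0x1ef04deb47)) e
 (c z e
 (c (a (nat_lit 0x18573bf73127))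
 (c (a (nat_lit 0x12088e24000009)) e e)
 (c z e
 (c z e
 (c (a (nat_lit 0x6060635546)) e
 (c z e
 (c z e
 (c z e
 (c z e
 (c z e
 (c z e
 (c (a (nat_lit 0x13c062cae005)) e
 (c (a (nat_lit 0x80000001)) e e)))))))))))))))))))))))
 (c (a (nat_lit 0x202001))
 (c (a (nat_lit 0x4060606041)) e
 (c (a (nat_lit 0x40404001)) e
 (c (a (nat_lit 0x2040404021)) e
 (c (a (nat_lit 0x20406041)) e
 (c (a (nat_lit 0x2020203128)) e
 (c (a (nat_lit 0x2020312868)) e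
 (c (a (nat_lit 0x2035b1ce08)) e
 (c z e
 (c z e
 (c z e
 (c z e
 (c z e
 (c z e
 (c z e
 (c z e
 (c z e
 (c z e
 (c z e
 (c z e
 (c z e
 (c (a (nat_lit 0x187611400005)) e
 (c (a (nat_lit 0x130000000003)) e e))))))))))))))))))))))
 (c (a (nat_lit 0x202021))
 (c (a (nat_lit 0x2040404041)) e
 (c (a (nat_lit 0x20202021)) e
 (c (a (nat_lit 0x20203a28)) e
 (c (a (nat_lit 0x202039eb68)) e
 (c (a (nat_lit 0x3e37d148)) e
 (c z e
 (c z e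
 (c z e
 (c z e
 (c z e
 (c z e
 (c z e
 (c z e
 (c z e
 (c z e
 (c z e
 (c z e
 (c z e
 (c (a (nat_lit 0x1e370e2ee006)) e e)))))))))))))))))))
 C544))))) Tr.c Tr.e (nat_lit 0) C.cx
noncomputable def C546 : Tr := beta% (fun (c : Nat → Tr → Tr → Tr) (e : Tr) (z : Nat) (a b : Nat → Nat) =>
 (c (a (nat_lit 0x40404041))
 (c (a (nat_lit 0x1c76c7))
 (c (a (nat_lit 0x484a4acd06026))
 (c (a (nat_lit 0x1943e3812801c047)) e
 (c (b (nat_lit 0x1dda90dfeb44e1e7)) e e))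
 (c z e
 (c z e
 (c z e
 (c (a (nat_lit 0x13eee2e88408c7)) e
 (c z e
 (c (b (nat_lit 0x1fe868b6cf6e46)) e
 (c (a (nat_lit 0x16162cc02f829)) e e))))))))
 (c (a (nat_lit 0x20322eef09)) e
 (c z e
 (c (a (nat_lit 0x1775560a8448))
 (c (a (nat_lit 0x1288f3cdfb7487)) e
 (c (a (nat_lit 0x244454a669fa9)) e e))
 (c (a (nat_lit 0x1190ca8483e8))
 (c (a (nat_lit 0x32404e4d88c69)) e
 (c z e
 (c z e
 (c (a (nat_lit 0x7122b6500000a)) e e))))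
 (c z e
 (c (b (nat_lit 0x138020203fe6))
 (c (a (nat_lit 0x1418e180400007)) e
 (c (a (nat_lit 0x165dc000000004)) e e))
 (c (a (nat_lit 0x40e100ff46))
 (c (a (nat_lit 0x17000000000004)) e e)
 (c z e
 (c z e
 (c (a (nat_lit 0x49064c02687)) e
 (c (a (nat_lit 0x1084e026a6a7)) e
 (c (a (nat_lit 0x20404093e4)) e
 (c (a (nat_lit 0x2020b43804)) e
 (c (a (nat_lit 0x24e61546)) e e)))))))))))))))
 (c (nat_lit 1)
 (c (a (nat_lit 0x3765353e9a8)) e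
 (c (a (nat_lit 0x10ceefa76669))
 (c (a (nat_lit 0x167b33064d7287)) e
 (c z e
 (c z e
 (c (a (nat_lit 0xb09ea71b1b689)) e e))))
 (c (a (nat_lit 0x1193aa688608))
 (c (a (nat_lit 0xa43c76e5cb247)) e
 (c (b (nat_lit 0x3fe470b71189)) e e))
 (c (a (nat_lit 0x168f4b0b0768))
 (c (a (nat_lit 0x3a36af4ac6329)) e e)
 (c (a (nat_lit 0x128eef2f2e28))
 (c (a (nat_lit 0xa55452c90c3a8)) e
 (c (a (nat_lit 0x106729aa200009)) e e))
 (c (a (nat_lit 0x3e404061666))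
 (c (a (nat_lit 0x1142a5a0000008)) e e)
 (c z e
 (c z e
 (c (a (nat_lit 0xa704c8aaf08)) e
 (c (a (nat_lit 0x1768a031f1c6)) e
 (c (a (nat_lit 0x4612242a001)) e
 (c (a (nat_lit 0x6c5e3c32201)) e
 (c (a (nat_lit 0x60404052e6)) e
 (c (a (nat_lit 0x2032a726)) e e))))))))))))))
 (c (a (nat_lit 0x40404041))
 (c (a (nat_lit 0x149843030006))
 (c (a (nat_lit 0x1e116ca3236365)) e
 (c (a (nat_lit 0x1007cac40e9326)) e
 (c (a (nat_lit 0x345448468d608)) e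
 (c (a (nat_lit 0x34383c2cf9d48)) e
 (c (a (nat_lit 0xb482559dc42a8)) e e)))))
 (c (a (nat_lit 0x1522a120c027))
 (c (a (nat_lit 0x4072d086cbce7)) e
 (c (a (nat_lit 0x2c3e347b30a09)) e e))
 (c (a (nat_lit 0x14a201a18f24)) e
 (c (a (nat_lit 0x2020407546))
 (c (a (nat_lit 0xdaf5ae820a007)) e
 (c (a (nat_lit 0x1955c420000008)) e e))
 (c (a (nat_lit 0x8c8ebd64ea7))
 (c (a (nat_lit 0x19a10000000006)) e e)
 (c z e
 (c z e
 (c (a (nat_lit 0x1991ededc267)) e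
 (c (a (nat_lit 0x10c0a0404065)) e
 (c (a (nat_lit 0x742c3444001)) e
 (c (a (nat_lit 0x20202035e6)) e
 (c (a (nat_lit 0x202b1147)) e e))))))))))))
 (c (a (nat_lit 0xa0a0a0a1))
 (c (a (nat_lit 0xb8960a0f482))
 (c (a (nat_lit 0x7e8014df4e025)) e
 (c (a (nat_lit 0x2e1271000c7e8)) e e))
 (c (a (nat_lit 0x20202471e6))
 (c (a (nat_lit 0x1e9984107c188)) e e)
 (c z e
 (c z e
 (c (a (nat_lit 0x10981450ad28)) e
 (c (a (nat_lit 0x139033702d88)) e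
 (c (a (nat_lit 0x191191cb6186)) e
 (c (a (nat_lit 0x80423c2c001)) e
 (c (a (nat_lit 0xdad8d803fa5)) e
 (c (a (nat_lit 0x4a4a4747386)) e e))))))))))
 (c (a (nat_lit 0x80808081))
 (c (a (nat_lit 0x2023508a85))
 (c (b (nat_lit 0xdd5a087e2dfe7)) e e)
 (c z e
 (c z e
 (c (a (nat_lit 0x175431ee6aa8)) e
 (c (a (nat_lit 0xf9232322c28)) e
 (c z e
 (c (a (nat_lit 0x76747603446)) e
 (c (a (nat_lit 0x828081492a6)) e
 (c z e
 (c (a (nat_lit 0x47517272726)) e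
 (c (a (nat_lit 0x1bd860200005)) e
 (c (a (nat_lit 0x186000000005)) e e))))))))))))
 (c (a (nat_lit 0x40402021))
 (c (a (nat_lit 0x6324a642406)) e
 (c (a (nat_lit 0x19922d0a48a7)) e
 (c z e
 (c z e
 (c (a (nat_lit 0xe1012093e5)) e
 (c (a (nat_lit 0xd4d4d1aaee6)) e
 (c z e
 (c (b (nat_lit 0x1ffeac82c365)) e
 (c (a (nat_lit 0x1f2ce0a0c005)) e
 (c (a (nat_lit 0x186020000004)) e e))))))))))
 (c (a (nat_lit 0x60606061))
 (c (a (nat_lit 0x1e8d2d00ef44)) e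
 (c (a (nat_lit 0x73191d15044)) e
 (c (b (nat_lit 0x1393b3ac3fe5)) e
 (c (a (nat_lit 0xf6f8f928e87)) e
 (c z e
 (c (a (nat_lit 0x6347000c007)) e
 (c (a (nat_lit 0x1190c1604b27)) e
 (c (a (nat_lit 0x174020200005)) e
 (c (a (nat_lit 0x2000000001)) e e)))))))))
 (c (a (nat_lit 0x202021))
 (c (a (nat_lit 0xa4b6bc25341)) e
 (c z e
 (c z e
 (c (a (nat_lit 0x1b8d4a2c046)) e
 (c (a (nat_lit 0xb296b4a13a7)) e
 (c (a (nat_lit 0x10a060202004)) e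
 (c (a (nat_lit 0x20100000001)) e e)))))))
 (c (a (nat_lit 0x20202021))
 (c z e
 (c (b (nat_lit 0x1ff34ec04046)) e
 (c (a (nat_lit 0x136ee4647466)) e
 (c (a (nat_lit 0x6060810061)) e
 (c (a (nat_lit 0x40c0600001)) e
 (c (a (nat_lit 0x6000000001)) e e))))))
 (c (nat_lit 1)
 (c (a (nat_lit 0x74740203006)) e
 (c (a (nat_lit 0x1c2c28221)) e
 (c (a (nat_lit 0xa0a08001)) e
 (c (a (nat_lit 0xc0000001)) e e))))
 (c (a (nat_lit 0x40204041))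
 (c (a (nat_lit 0x6080608021)) e
 (c (a (nat_lit 0x100c0800001)) e
 (c (a (nat_lit 0x2000000001)) e e)))
 (c (a (nat_lit 0x60606061))
 (c (a (nat_lit 0x6040000001)) e e)
 (c (a (nat_lit 0x202001)) e
 (c (a (nat_lit 0x20203dc6)) e
 (c (a (nat_lit 0x203ddd06)) e
 (c (a (nat_lit 0x77655f327)) e
 (c (a (nat_lit 0x1898356b07)) e
 (c (a (nat_lit 0x1a54e02006)) e
 (c (a (nat_lit 0x1520602006)) e
 (c (a (nat_lit 0xa62208001)) e
 (c (a (nat_lit 0x521a06001)) e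
 (c (a (nat_lit 0x202030e6)) e e))))))))))))))))))))))) Tr.c Tr.e (nat_lit 0) C.cx C.cy
noncomputable def C547 : Tr := beta% (fun (c : Nat → Tr → Tr → Tr) (e : Tr) (z : Nat) (a b : Nat → Nat) =>
 (c (a (nat_lit 0x40404041))
 (c (a (nat_lit 0x6060606061))
 (c (a (nat_lit 0x1b3ad2c9092646))
 (c (a (nat_lit 0x13a849cfcb751da5))
 (c z e
 (c z e
 (c (a (nat_lit 0x172a4ca308c2ed6f07)) e
 (c (a (nat_lit 0x1496509050717adf88)) e e))))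
 (c z e
 (c z e
 (c (a (nat_lit 0x26327c9e8279209))
 (c (a (nat_lit 0x16d3b076b380000009)) e e)
 (c z e
 (c z e
 (c z e
 (c (a (nat_lit 0xc8b743fea2d7207)) e
 (c z e
 (c z e
 (c (a (nat_lit 0x105486a3c0000008)) e e)))))))))))
 (c z e
 (c z e
 (c z e
 (c z e
 (c z e
 (c z e
 (c z e
 (c z e
 (c z e
 (c (a (nat_lit 0x1a561592c5a467)) e
 (c z e
 (c z e
 (c (a (nat_lit 0x12b3343834f787)) e
 (c (a (nat_lit 0xe2f330ff28b27)) e e)))))))))))))))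
 (c (a (nat_lit 0x4040404041))
 (c z e
 (c z e
 (c z e
 (c z e
 (c z e
 (c z e
 (c z e
 (c z e
 (c z e
 (c z e
 (c z e
 (c (b (nat_lit 0x18f3bffac9bf45)) e
 (c (a (nat_lit 0xd2c8d8d6e32c9)) e e)))))))))))))
 (c (a (nat_lit 0x2040404041)) e
 (c (a (nat_lit 0x2040606061))
 (c (a (nat_lit 0x51987a04c2506))
 (c z e
 (c (a (nat_lit 0x14492e5206a0a4ea)) e
 (c z e
 (c z e
 (c (a (nat_lit 0xfee6b30e0000009)) e e)))))
 (c z e
 (c z e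
 (c z e
 (c (a (nat_lit 0xbedc248144ae8)) e
 (c z e
 (c z e
 (c z e
 (c z e
 (c z e
 (c (a (nat_lit 0x139272feaf0009)) e
 (c (a (nat_lit 0x1353afa0000009)) e e))))))))))))
 (c (a (nat_lit 0x2040404041))
 (c z e
 (c z e
 (c z e
 (c z e
 (c z e
 (c z e
 (c z e
 (c z e
 (c (a (nat_lit 0x5a363ccb65169)) e
 (c (a (nat_lit 0x13937af3e00009)) e
 (c (a (nat_lit 0x197ba000000007)) e e)))))))))))
 (c (a (nat_lit 0x20202012e8))
 (c (a (nat_lit 0x402e0204bb6e7))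
 (c (a (nat_lit 0x12aaed6580000007)) e e)
 (c z e
 (c z e
 (c z e
 (c z e
 (c z e
 (c z e
 (c (a (nat_lit 0x525a8f2be0008)) e
 (c (a (nat_lit 0x13f38ee0000008)) e e)))))))))
 (c (a (nat_lit 0x1bb3c7)) e
 (c (a (nat_lit 0x3410cba8))
 (c (a (nat_lit 0xe0c4bfbf76c47)) e e)
 (c z e
 (c z e
 (c (a (nat_lit 0x143229292947))
 (c (a (nat_lit 0x11d5e6e4600008)) e e)
 (c z e
 (c (a (nat_lit 0x16f4e9807204)) e
 (c (a (nat_lit 0x281002150e7)) e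
 (c (a (nat_lit 0x16080b16747)) e
 (c z e
 (c (a (nat_lit 0x2d068622207)) e
 (c (a (nat_lit 0x1ccd00a04026)) e
 (c z e
 (c z e
 (c (a (nat_lit 0x1bdb60e0e003)) e
 (c (a (nat_lit 0x1a4040000003)) e e))))))))))))))))))))))
 (c (a (nat_lit 0x20202021))
 (c (a (nat_lit 0x2020202021))
 (c (a (nat_lit 0x6a6af012f94a4))
 (c (a (nat_lit 0x34f4146bc0a245)) e
 (c z e
 (c z e
 (c (a (nat_lit 0x8e6650c74cd47a9)) e
 (c (a (nat_lit 0x2404657bb6444e8)) e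
 (c z e
 (c z e
 (c (a (nat_lit 0xfd03496ae200007)) e
 (c (a (nat_lit 0x121a896000000007)) e e)))))))))
 (c z e
 (c z e
 (c (a (nat_lit 0x6c0c63f4fc25))
 (c z e
 (c (b (nat_lit 0x144b6466055fe3ca)) e e))
 (c (b (nat_lit 0xd6d40b01fffe5))
 (c (a (nat_lit 0x1ecdcbaa46e4e4e8)) e e)
 (c z e
 (c z e
 (c (a (nat_lit 0x9108ee720a788)) e
 (c (a (nat_lit 0x12ae6802698608)) e
 (c z e
 (c z e
 (c (a (nat_lit 0x3ef8e6ed37427)) e
 (c (a (nat_lit 0x181151b10f6026)) e e)))))))))))))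
 (c (a (nat_lit 0x2040404001)) e
 (c (a (nat_lit 0x8080806061)) e
 (c (a (nat_lit 0x2020203da8))
 (c z e
 (c (a (nat_lit 0xbeb2ee523d948))
 (c (a (nat_lit 0x14eed6aa20000009)) e e)
 (c z e
 (c z e
 (c (a (nat_lit 0xaec3bcfce2f69)) e
 (c (a (nat_lit 0x8d54a478ae669)) e
 (c z e
 (c z e
 (c (a (nat_lit 0x6c708d0c8c00a)) e
 (c (a (nat_lit 0x11d39060000009)) e e))))))))))
 (c (a (nat_lit 0x2020352ee8))
 (c (a (nat_lit 0x3a34067362aa7))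
 (c (a (nat_lit 0x1cd42d0000000006)) e e)
 (c z e
 (c z e
 (c (a (nat_lit 0x7f40ecae2c748)) e
 (c (b (nat_lit 0x195615373ff267)) e
 (c z e
 (c z e
 (c (a (nat_lit 0xff89ad8800008)) e
 (c (a (nat_lit 0x1cf1a000000007)) e e)))))))))
 (c (a (nat_lit 0x2037766f28)) e
 (c z e
 (c (a (nat_lit 0x1edd560c0868))
 (c (a (nat_lit 0xcae938f4ccb09)) e
 (c (a (nat_lit 0x165a3cbe07ee89)) e e))
 (c (a (nat_lit 0x19b508e1c187))
 (c (a (nat_lit 0x83774a369e288)) e e)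
 (c z e
 (c z e
 (c (a (nat_lit 0x8080629646)) e
 (c (a (nat_lit 0x38380932ce6)) e
 (c z e
 (c (a (nat_lit 0xd9c76cc2c06)) e
 (c (a (nat_lit 0x104aa0202906)) e
 (c (a (nat_lit 0x15206031e425)) e
 (c z e
 (c (a (nat_lit 0xd90ae8b2b26)) e
 (c (a (nat_lit 0x152620200004)) e e))))))))))))))))))))
 (c (nat_lit 1)
 (c (a (nat_lit 0x4040404041))
 (c (a (nat_lit 0x211c520202246))
 (c (a (nat_lit 0x9c5e92b8d291427)) e
 (c (a (nat_lit 0xa6a11ee478aa889)) e e))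
 (c (a (nat_lit 0x18a9a5c5c7e007))
 (c (a (nat_lit 0x6710ac522e4446a)) e e)
 (c z e
 (c z e
 (c z e
 (c z e
 (c z e
 (c z e
 (c (a (nat_lit 0x5e9d516f95647)) e e)))))))))
 (c (a (nat_lit 0x2020201c28))
 (c (b (nat_lit 0x406d9ffd86))
 (c (a (nat_lit 0x1c7224624445a7e9)) e e)
 (c z e
 (c z e
 (c z e
 (c z e
 (c z e
 (c z e
 (c (b (nat_lit 0x442425109fe9)) e e))))))))
 (c (a (nat_lit 0x20203f55a8)) e
 (c (a (nat_lit 0x203e59b8a8)) e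
 (c z e
 (c z e
 (c z e
 (c z e
 (c (a (nat_lit 0x143050506da6)) e
 (c (b (nat_lit 0x2e2e2fff467)) e
 (c z e
 (c z e
 (c (a (nat_lit 0x398c7c02007)) e
 (c (a (nat_lit 0x18e7e0202247)) e
 (c (a (nat_lit 0x100020247046)) e
 (c (a (nat_lit 0x60693fdd85)) e e))))))))))))))))
 C546)))) Tr.c Tr.e (nat_lit 0) C.cx C.cy
noncomputable def C548 : Tr := beta% (fun (c : Nat → Tr → Tr → Tr) (e : Tr) (z : Nat) (a b : Nat → Nat) =>
 (c (nat_lit 1)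
 (c (nat_lit 1)
 (c (a (nat_lit 0x202020203167))
 (c (a (nat_lit 0x1a8666464a4e7464))
 (c z e
 (c z e
 (c z e
 (c z e
 (c z e
 (c z e
 (c (a (nat_lit 0xe910f83426a294088)) e
 (c (a (nat_lit 0x13b188c63091ceb507)) e
 (c (a (nat_lit 0x7642332866a4b0a88)) e e)))))))))
 (c z e
 (c z e
 (c z e
 (c z e
 (c z e
 (c z e
 (c (a (nat_lit 0x804065a265f047)) e
 (c (a (nat_lit 0x3c46c2e8cda3566)) e
 (c z e
 (c z e
 (c z e
 (c z e
 (c z e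
 (c z e
 (c (a (nat_lit 0x1f5947c060000006)) e
 (c (a (nat_lit 0x1023a00000000007)) e e)))))))))))))))))
 (c (a (nat_lit 0x202020375128)) e
 (c (a (nat_lit 0x202032af8e49)) e
 (c (a (nat_lit 0x203290aec649))
 (c z e
 (c z e
 (c z e
 (c z e
 (c z e
 (c (b (nat_lit 0xb70fcfff55bf3e7)) e e))))))
 (c z e
 (c z e
 (c z e
 (c (a (nat_lit 0x1d7b0120c026c6))
 (c (a (nat_lit 0x164ff488a46c3ec7)) e
 (c (a (nat_lit 0x747a48311eac4c9)) e e))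
 (c (a (nat_lit 0x18c06040475326))
 (c (a (nat_lit 0x84665fcebab8548)) e e)
 (c z e
 (c z e
 (c z e
 (c z e
 (c z e
 (c z e
 (c (a (nat_lit 0x320606068d685)) e
 (c (a (nat_lit 0x5858d8a10fcc6)) e
 (c (a (nat_lit 0x7ab8c0d7358e7)) e e))))))))))))))))))
 (c (nat_lit 1)
 (c (a (nat_lit 0x20203ab51468)) e
 (c (a (nat_lit 0x20304e4d23ea)) e
 (c z e
 (c z e
 (c z e
 (c z e
 (c (a (nat_lit 0xf404020463467))
 (c (a (nat_lit 0x1abbaaf13b9d6b27)) e e)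
 (c z e
 (c z e
 (c z e
 (c z e
 (c z e
 (c z e
 (c z e
 (c (a (nat_lit 0x4c0feced55d65)) e e)))))))))))))))
 (c (a (nat_lit 0x2040404001)) e
 (c (a (nat_lit 0x20202021)) e
 (c (a (nat_lit 0x20002001)) e
 (c (nat_lit 1)
 (c z e
 (c z e
 (c z e
 (c z e
 (c z e
 (c z e
 (c z e
 (c z e
 (c z e
 (c z e
 (c z e
 (c (b (nat_lit 0x5de9fe0604006)) e
 (c (a (nat_lit 0x1ee06020000006)) e e)))))))))))))
 (c (a (nat_lit 0x2020202021))
 (c z e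
 (c z e
 (c z e
 (c z e
 (c z e
 (c z e
 (c z e
 (c z e
 (c z e
 (c (a (nat_lit 0x11d04f980f0ee8)) e
 (c (a (nat_lit 0x12e081a1a00004)) e
 (c (a (nat_lit 0x24000000001)) e e))))))))))))
 (c (a (nat_lit 0x200001))
 (c (a (nat_lit 0x145e82e1a63043))
 (c (a (nat_lit 0x1cce6b29e841a007)) e
 (c (a (nat_lit 0x1d55d0ee60000007)) e e))
 (c (a (nat_lit 0x1c6342616efc24))
 (c (a (nat_lit 0x178b6a4000000007)) e e)
 (c z e
 (c z e
 (c z e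
 (c z e
 (c z e
 (c z e
 (c (a (nat_lit 0x1125ec03802007)) e
 (c (a (nat_lit 0x127ea6e0000006)) e e))))))))))
 (c (nat_lit 1)
 (c (a (nat_lit 0x13935356b0cf65)) e
 (c z e
 (c z e
 (c z e
 (c z e
 (c z e
 (c z e
 (c (a (nat_lit 0x1a7fd587800005)) e
 (c (a (nat_lit 0x12a6c000000006)) e e)))))))))
 (c (a (nat_lit 0x1088)) e
 (c (a (nat_lit 0x2020340be8)) e
 (c (a (nat_lit 0x350f4ce8)) e
 (c z e
 (c z e
 (c z e
 (c (a (nat_lit 0x1a55e0402026)) e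
 (c (a (nat_lit 0x15a020202586)) e
 (c (a (nat_lit 0x402025dbe6)) e
 (c z e
 (c z e
 (c z e
 (c z e
 (c (a (nat_lit 0x1ed125d191a4)) e
 (c (a (nat_lit 0x18a3e0e0c003)) e
 (c (a (nat_lit 0xde080000001)) e e)))))))))))))))))))))))))
 (c (nat_lit 1)
 (c (nat_lit 1)
 (c (a (nat_lit 0x2030adee04e7)) e e)
 (c (nat_lit 1)
 (c (a (nat_lit 0x1431b006a1c209))
 (c (a (nat_lit 0x1078189b71d53cc7))
 (c (a (nat_lit 0x163bb5720b26c3e708)) e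
 (c z e
 (c z e
 (c (a (nat_lit 0x142d4daaabcb8dd78b)) e e))))
 (c z e
 (c z e
 (c z e
 (c z e
 (c z e
 (c z e
 (c z e
 (c z e
 (c z e
 (c (a (nat_lit 0x911102ee4c00009)) e e)))))))))))
 (c z e
 (c z e
 (c z e
 (c z e
 (c z e
 (c z e
 (c z e
 (c z e
 (c z e
 (c (a (nat_lit 0x16b87975cf4948)) e e)))))))))))
 (c (nat_lit 1) e
 (c (a (nat_lit 0x20202001)) e
 (c (a (nat_lit 0x2020202021))
 (c z e
 (c z e
 (c z e
 (c z e
 (c z e
 (c z e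
 (c z e
 (c z e
 (c z e
 (c z e
 (c z e
 (c (a (nat_lit 0x173595b1a00009)) e e))))))))))))
 (c (a (nat_lit 0x4040402021))
 (c z e
 (c z e
 (c z e
 (c z e
 (c z e
 (c z e
 (c z e
 (c z e
 (c z e
 (c z e
 (c (a (nat_lit 0xd34b480000006)) e e)))))))))))
 (c (nat_lit 1)
 (c (a (nat_lit 0xbe724006ed4e6))
 (c (a (nat_lit 0xf2f375285800007)) e
 (c (a (nat_lit 0xc140c0000000008)) e e))
 (c (a (nat_lit 0x501c026e83947))
 (c (a (nat_lit 0x1b4f600000000007)) e e)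
 (c z e
 (c z e
 (c z e
 (c z e
 (c z e
 (c z e
 (c (a (nat_lit 0x1b79d72ce00007)) e
 (c (a (nat_lit 0x16aa2000000007)) e e))))))))))
 (c (a (nat_lit 0x20203ee7))
 (c (a (nat_lit 0x14b4d4ad4c20a5)) e e)
 (c (a (nat_lit 0x1f1647)) e
 (c (a (nat_lit 0x354d0bc8)) e
 (c z e
 (c (a (nat_lit 0x12cf8b602028))
 (c (a (nat_lit 0x42782d061000a)) e e)
 (c z e
 (c z e
 (c (a (nat_lit 0xeca6a2a52a6)) e
 (c (a (nat_lit 0x604048b9a6)) e
 (c z e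
 (c z e
 (c z e
 (c z e
 (c z e
 (c (b (nat_lit 0x1c87bfe04025)) e
 (c (a (nat_lit 0x1de0e0800003)) e
 (c (nat_lit 1) e e))))))))))))))))))))))))
 C547))) Tr.c Tr.e (nat_lit 0) C.cx C.cy
noncomputable def C549 : Tr := beta% (fun (c : Nat → Tr → Tr → Tr) (e : Tr) (z : Nat) (a b : Nat → Nat) =>
 (c (a (nat_lit 0x4040404041))
 (c (a (nat_lit 0x10304d25418188))
 (c (a (nat_lit 0xd95b18d69951587))
 (c z e
 (c z e
 (c z e
 (c (a (nat_lit 0x1fd1d1d70c70c00008)) e e))))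
 (c z e
 (c z e
 (c (a (nat_lit 0x7289b0eccf214e8)) e
 (c (a (nat_lit 0x810ac08a7adb5a7)) e
 (c z e
 (c z e
 (c (a (nat_lit 0xa49f0ccacb86d88)) e
 (c (a (nat_lit 0x96949ced3894489)) e e)))))))))
 (c z e
 (c z e
 (c (a (nat_lit 0x116aaaca662766))
 (c z e
 (c (a (nat_lit 0x60485d293ebc6ea)) e
 (c z e
 (c z e
 (c (a (nat_lit 0x1e9f8dcd5c2b8009)) e e)))))
 (c (a (nat_lit 0x343656131c4c5))
 (c (a (nat_lit 0x72ab15ffbd46ce8)) e
 (c z e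
 (c z e
 (c (a (nat_lit 0x178a480aa7400009)) e
 (c (a (nat_lit 0x11e3226000000009)) e e)))))
 (c z e
 (c z e
 (c (a (nat_lit 0x1268441411027)) e
 (c (a (nat_lit 0x926c466f5b007)) e
 (c z e
 (c z e
 (c (b (nat_lit 0x6b20e132b3fe7)) e
 (c (a (nat_lit 0x1b719b7c5549e6)) e
 (c z e
 (c (a (nat_lit 0xf302ee6a623c7)) e
 (c (a (nat_lit 0x1dbb4ae4e00006)) e
 (c (a (nat_lit 0x1c25e000000006)) e e)))))))))))))))))
 (c (a (nat_lit 0x2020202021))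
 (c z e
 (c (a (nat_lit 0x1b7373938ed967))
 (c (a (nat_lit 0x36505868b8c166a))
 (c (a (nat_lit 0xd50c4a00000000009)) e e) e)
 (c (a (nat_lit 0x1272934d7bc026)) e
 (c z e
 (c z e
 (c z e
 (c z e
 (c z e
 (c z e
 (c z e
 (c z e
 (c z e
 (c z e
 (c (a (nat_lit 0xad2c807e7e006)) e
 (c (a (nat_lit 0x14e0e040000005)) e e)))))))))))))))
 (c (a (nat_lit 0x2020202021))
 (c (a (nat_lit 0x16d6d78ef7da05))
 (c (a (nat_lit 0x40344c846509049)) e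
 (c z e
 (c z e
 (c z e
 (c z e
 (c z e
 (c (a (nat_lit 0x1207622000000009)) e e)))))))
 (c z e
 (c z e
 (c (a (nat_lit 0x72a340ad6f86))
 (c (a (nat_lit 0x10b4cf1113a86009)) e
 (c (a (nat_lit 0x1d165a3140000009)) e e))
 (c (a (nat_lit 0x13a93191b438e6))
 (c (a (nat_lit 0x161a6c2000000008)) e e)
 (c z e
 (c (a (nat_lit 0x81418b70b1a7)) e
 (c (a (nat_lit 0x4e5561b38c6e7)) e
 (c z e
 (c z e
 (c (a (nat_lit 0x14978d19cc8c26)) e
 (c (a (nat_lit 0x159056b0101007)) e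
 (c (a (nat_lit 0x13ac020200005)) e
 (c (a (nat_lit 0x1a802000000005)) e e))))))))))))))
 (c (a (nat_lit 0x4040404041))
 (c z e
 (c (a (nat_lit 0x68ee26151d706))
 (c (a (nat_lit 0x12f5728d6c2b4fa9)) e e)
 (c (a (nat_lit 0xe0c72d2d81806))
 (c (a (nat_lit 0xc13ae0e87400008)) e
 (c (a (nat_lit 0x1ef0248000000008)) e e))
 (c (a (nat_lit 0xaff3f7fbfbfa5))
 (c (a (nat_lit 0x1263400000000007)) e e)
 (c (a (nat_lit 0x1272f39393b807)) e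
 (c (a (nat_lit 0x949696f7333e7)) e
 (c z e
 (c z e
 (c (a (nat_lit 0xeb1720c8b62c7)) e
 (c (a (nat_lit 0x1b7c18f95797a7)) e
 (c (a (nat_lit 0x11252060c0a005)) e
 (c (a (nat_lit 0x11e04060000003)) e
 (c (a (nat_lit 0x200000000001)) e e)))))))))))))
 (c (a (nat_lit 0x2020000001))
 (c (a (nat_lit 0x14e480e042a2e4))
 (c (a (nat_lit 0x7f94a28a804a127)) e
 (c (a (nat_lit 0x162b48e804200008)) e e))
 (c (a (nat_lit 0x1dc4630445a7e2))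
 (c (a (nat_lit 0x116aeb24a0000007)) e e)
 (c (a (nat_lit 0x4060a0d525)) e
 (c (a (nat_lit 0x24242a2a85147)) e
 (c (a (nat_lit 0x5e6062a15e1e7)) e
 (c z e
 (c z e
 (c (a (nat_lit 0x8164f506a41c7)) e
 (c (a (nat_lit 0x1182c48661c1e7)) e
 (c (a (nat_lit 0x5d342e0200004)) e
 (c (a (nat_lit 0x16a32000000004)) e e)))))))))))
 (c (nat_lit 1)
 (c (a (nat_lit 0x1372b44564e061)) e
 (c (a (nat_lit 0x484a4e4e931a6)) e
 (c z e
 (c z e
 (c z e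
 (c z e
 (c z e
 (c (b (nat_lit 0x1fffe09b40a005)) e
 (c (a (nat_lit 0x183c5c00000005)) e e)))))))))
 (c (nat_lit 1)
 (c (a (nat_lit 0xa0e0e9d00065)) e
 (c z e
 (c z e
 (c z e
 (c z e
 (c z e
 (c (a (nat_lit 0x19b4362f400006)) e
 (c (a (nat_lit 0x186e2000000005)) e e))))))))
 (c (a (nat_lit 0x2020203387))
 (c (b (nat_lit 0x109dfe548f985)) e
 (c (a (nat_lit 0x9c8c5a9d5bb08)) e
 (c z e
 (c z e
 (c (a (nat_lit 0xe2e0f4e32e009)) e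
 (c (a (nat_lit 0x131c2f80000006)) e e))))))
 (c (a (nat_lit 0x202033abc7))
 (c (a (nat_lit 0x483436ff16928)) e
 (c z e
 (c z e
 (c (a (nat_lit 0x11f531f7400009)) e e))))
 (c (a (nat_lit 0x203b57ebc6))
 (c (a (nat_lit 0x4e4d1b24d10e8)) e e)
 (c (b (nat_lit 0x33d10a3fe6)) e
 (c (a (nat_lit 0x19fad3816026)) e
 (c (a (nat_lit 0x19d380204006)) e
 (c (a (nat_lit 0x138040202026)) e
 (c (a (nat_lit 0x520c1843001)) e
 (c (a (nat_lit 0x20213585)) e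
 (c (a (nat_lit 0x41c195c3e5)) e
 (c z e
 (c (a (nat_lit 0xd578dabebe6)) e
 (c (a (nat_lit 0x1743c0202045)) e
 (c (a (nat_lit 0x1d8081034202)) e
 (c (a (nat_lit 0x62c00001)) e
 (c (a (nat_lit 0x2000000001)) e e)))))))))))))))))))))))) Tr.c Tr.e (nat_lit 0) C.cx C.cy
noncomputable def C550 : Tr := beta% (fun (c : Nat → Tr → Tr → Tr) (e : Tr) (z : Nat) (a b : Nat → Nat) =>
 (c z
 (c (b (nat_lit 0xe0e7ff24d4bcbc3))
 (c z e
 (c z e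
 (c z e
 (c z e
 (c z e
 (c z e
 (c z e
 (c z e
 (c z e
 (c z e
 (c z e
 (c (a (nat_lit 0xe0f4fcf6f1cee1067)) e
 (c (a (nat_lit 0x566e7c5b3336945a7)) e e)))))))))))))
 (c (a (nat_lit 0xf8a3345a3c2a2a5))
 (c z e
 (c (a (nat_lit 0x7a94b0ba9c867f2c7))
 (c z e
 (c z e
 (c z e
 (c z e
 (c (a (nat_lit 0x6c869c721a1e3c4934a)) e
 (c (a (nat_lit 0xe112a82a2c22688e009)) e e))))))
 (c z e
 (c z e
 (c z e
 (c z e
 (c z e
 (c (a (nat_lit 0x6aff22beb83e05fa6)) e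
 (c (a (nat_lit 0x846486805c2a8b127)) e
 (c (a (nat_lit 0x6c9a9c5453026cf47)) e e))))))))))
 (c (a (nat_lit 0x1b7bc949e9c82e43))
 (c z e
 (c z e
 (c z e
 (c z e
 (c z e
 (c (a (nat_lit 0xcd4916ead6a1b1aa7)) e
 (c (a (nat_lit 0x86d67e58060be7347)) e
 (c (a (nat_lit 0x9094744225a364847)) e e))))))))
 (c (a (nat_lit 0x7e14161a0831264))
 (c z e
 (c z e
 (c z e
 (c z e
 (c (a (nat_lit 0x62e2b28865d142e67)) e
 (c (a (nat_lit 0xa87a241649e023047)) e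
 (c (a (nat_lit 0xda987c3b849b4f706)) e e)))))))
 (c (a (nat_lit 0x43e446e1729623))
 (c z e
 (c z e
 (c z e
 (c (a (nat_lit 0x38786222db0892488)) e
 (c (a (nat_lit 0x4c2e1c1d065276728)) e
 (c z e
 (c z e
 (c (a (nat_lit 0x13562238be2e00008)) e
 (c (a (nat_lit 0x1816a945e000000008)) e e)))))))))
 (c (a (nat_lit 0x60627a75081e384))
 (c z e
 (c z e
 (c z e
 (c (a (nat_lit 0x6464577506f4c8788)) e e))))
 (c (a (nat_lit 0xb0c6cce92487104))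
 (c (a (nat_lit 0xa872d8b141e5f3067)) e
 (c (a (nat_lit 0x5a7cb0c306faa0569)) e
 (c (a (nat_lit 0x4e3cd3173eb4689c8)) e
 (c (a (nat_lit 0x325b112aa44caa808)) e e))))
 (c (a (nat_lit 0xc4e0947a9d570a4))
 (c (a (nat_lit 0x40b2ed12c8644a3c8)) e
 (c (a (nat_lit 0x8b3150fe786248868)) e
 (c (a (nat_lit 0x13db13ec27c727e007)) e e)))
 (c (a (nat_lit 0xf59775fdeafaf64)) e
 (c z e
 (c (a (nat_lit 0x167dddaeae6e8dc4)) e
 (c (a (nat_lit 0x1c7c9514f4f50f45)) e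
 (c (a (nat_lit 0x1bf474769353e045)) e
 (c (a (nat_lit 0xfafb20ce6602005)) e
 (c z e
 (c (a (nat_lit 0xd83e52ceb28f864)) e e))))))))))))))))
 (c z
 (c (a (nat_lit 0x1def9248a0606c84))
 (c (a (nat_lit 0x5866827a765c89127))
 (c z e
 (c z e
 (c z e
 (c z e
 (c z e
 (c (a (nat_lit 0x2869008652282e17529)) e e))))))
 (c z e
 (c z e
 (c z e
 (c z e
 (c z e
 (c z e
 (c (a (nat_lit 0x11fac6068221d89aa7)) e
 (c (a (nat_lit 0x14a90647a55f3813e7)) e e)))))))))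
 (c (a (nat_lit 0xfe4e14140a53646))
 (c z e
 (c z e
 (c z e
 (c z e
 (c z e
 (c z e
 (c (a (nat_lit 0x134986e465b18bc729)) e e)))))))
 (c (a (nat_lit 0x662a242a5d3f886)) e
 (c z e
 (c z e
 (c z e
 (c z e
 (c (a (nat_lit 0xd28ae54f0c50646))
 (c (a (nat_lit 0x12b3996e2ac3824007)) e
 (c (a (nat_lit 0x1457ac880180000007)) e e))
 (c (a (nat_lit 0xc11759168498586)) e
 (c z e
 (c z e
 (c z e
 (c z e
 (c z e
 (c z e
 (c (a (nat_lit 0x1bd1c14380a02005)) e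
 (c (a (nat_lit 0x1201436060000005)) e e)))))))))))))))))
 (c z
 (c z e
 (c z e
 (c z e
 (c z e
 (c z e
 (c z e
 (c (a (nat_lit 0x107774fa3799c585))
 (c (a (nat_lit 0x1b8d87eb2606e00007)) e e)
 (c z e
 (c z e
 (c z e
 (c z e
 (c (a (nat_lit 0x10ec3191a965f3e7)) e
 (c z e
 (c z e
 (c (a (nat_lit 0x1dcd03a181400005)) e
 (c (a (nat_lit 0x1825208000000004)) e e))))))))))))))))
 (c (a (nat_lit 0x202020203a06))
 (c z e
 (c z e
 (c z e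
 (c z e
 (c z e
 (c (a (nat_lit 0x10f64e6f8cab1326)) e
 (c z e
 (c z e
 (c z e
 (c z e
 (c z e
 (c z e
 (c (b (nat_lit 0x2a0ffe1a1710008)) e
 (c (a (nat_lit 0x11c58b66e0000005)) e e))))))))))))))
 (c (a (nat_lit 0x4040405dd466))
 (c (a (nat_lit 0x262a263e3b784c6))
 (c (a (nat_lit 0xbcc8c4ca8f4abec08)) e
 (c z e
 (c z e
 (c (a (nat_lit 0x132ecec60b64426569)) e
 (c (a (nat_lit 0x1416858804a2662468)) e e)))))
 (c z e
 (c z e
 (c (a (nat_lit 0x5aad7cf32491246))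
 (c z e
 (c (a (nat_lit 0xee7a77209c0000009)) e e))
 (c (a (nat_lit 0x979915955118d86)) e
 (c z e
 (c z e
 (c (a (nat_lit 0x1eb5cc45d5b5ada5)) e
 (c (a (nat_lit 0xecfebedfb17a427)) e
 (c z e
 (c z e
 (c (a (nat_lit 0x80ad06dde000007)) e
 (c (a (nat_lit 0x1e3a44a000000005)) e e)))))))))))))
 (c (a (nat_lit 0x2020346f4da7)) e
 (c (a (nat_lit 0x2c2dd3a976a66))
 (c z e
 (c z e
 (c z e
 (c z e
 (c z e
 (c z e
 (c (a (nat_lit 0x462a507630e3049)) e e)))))))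
 (c (a (nat_lit 0x170710ee56427))
 (c z e
 (c (a (nat_lit 0xd119851ea2c87e6)) e
 (c z e
 (c z e
 (c (a (nat_lit 0x16281e22610c169)) e e)))))
 (c (a (nat_lit 0xe4c30436241a6))
 (c (a (nat_lit 0x7f5cd8aec2306a6)) e
 (c (a (nat_lit 0xf4848e7e54379e7)) e
 (c (a (nat_lit 0xd2d49c5ca7ccdc7)) e
 (c (a (nat_lit 0x362c3435381a569)) e
 (c (a (nat_lit 0x546e41511a70409)) e e)))))
 (c (a (nat_lit 0x104ea040a06065))
 (c (a (nat_lit 0x50a06ec41b6ef26)) e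
 (c (a (nat_lit 0xe8d4ce9d734e9e7)) e e))
 (c (a (nat_lit 0x17c06060a0c384))
 (c (a (nat_lit 0xe4ad07653d32966)) e e)
 (c (a (nat_lit 0x202060a13904))
 (c (b (nat_lit 0x2911fe1e6e10009)) e
 (c (a (nat_lit 0x126904a40000000a)) e e))
 (c (a (nat_lit 0x84869caf89465))
 (c (a (nat_lit 0x1f88240000000008)) e e)
 (c z e
 (c z e
 (c (a (nat_lit 0x14fbb89b3b1166)) e
 (c (a (nat_lit 0x13065110c1a164)) e
 (c (a (nat_lit 0xa3ebe40c0a183)) e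
 (c (a (nat_lit 0x1e1dc0a0811303)) e
 (c (a (nat_lit 0xf202020a9f584)) e
 (c (b (nat_lit 0x323640d18dfe4)) e e)))))))))))))))))))))) Tr.c Tr.e (nat_lit 0) C.cx C.cy
noncomputable def C551 : Tr := beta% (fun (c : Nat → Tr → Tr → Tr) (e : Tr) (z : Nat) (a b : Nat → Nat) =>
 (c (nat_lit 1)
 (c (a (nat_lit 0x2020203846))
 (c (a (nat_lit 0x5060655350581))
 (c (a (nat_lit 0x1e968044a3e34c66)) e
 (c (a (nat_lit 0x1f07c4a64529c027)) e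
 (c (a (nat_lit 0x2323c515224008)) e e)))
 (c (b (nat_lit 0xc727363fffe5))
 (c (a (nat_lit 0x16684b0bed70a187)) e e)
 (c (b (nat_lit 0xa6a731fefc025)) e
 (c (a (nat_lit 0x11f49418f08006)) e
 (c (a (nat_lit 0x12d9bfcb00a224)) e
 (c (a (nat_lit 0x1a1b50a350c165)) e
 (c (a (nat_lit 0x84c2c47552bc6)) e
 (c (a (nat_lit 0x482022dfed426)) e
 (c (a (nat_lit 0x82829cbeaf129)) e e)))))))))
 (c (a (nat_lit 0x2020381227))
 (c z e
 (c z e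
 (c z e
 (c z e
 (c z e
 (c (b (nat_lit 0x1fe222488ff487)) e
 (c (a (nat_lit 0x684a6bab0c028)) e e)))))))
 (c (a (nat_lit 0x405b12b2c7))
 (c z e
 (c z e
 (c z e
 (c z e
 (c (a (nat_lit 0xf1030a53a56c6)) e e)))))
 (c (a (nat_lit 0x2934fcfc887))
 (c (a (nat_lit 0x10940a2b030de6)) e
 (c (a (nat_lit 0x10afaf4c0ba447)) e
 (c z e
 (c z e
 (c (a (nat_lit 0xd90c9562c61c8)) e e)))))
 (c (a (nat_lit 0x110faee821a7))
 (c (a (nat_lit 0x36242c3809b28)) e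
 (c z e
 (c z e
 (c (a (nat_lit 0x4151ada12009)) e e))))
 (c z e
 (c (a (nat_lit 0x16d1e2a2a2a6))
 (c (a (nat_lit 0x142efbe1604007)) e
 (c (a (nat_lit 0x1b308100000007)) e e))
 (c (a (nat_lit 0x1e80202034c5))
 (c (a (nat_lit 0x1ca02000000006)) e e)
 (c (a (nat_lit 0xdedee93b5c7)) e
 (c z e
 (c (a (nat_lit 0x6f1342644a6)) e
 (c (a (nat_lit 0x191f002029c5)) e
 (c (a (nat_lit 0x1ee02029a9a5)) e
 (c (a (nat_lit 0x6080c0e1)) e
 (c (a (nat_lit 0x20c0f662)) e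
 (c (a (nat_lit 0x60e08b9c83)) e e))))))))))))))))
 (c (nat_lit 1)
 (c (a (nat_lit 0x20304d2e27)) e
 (c (a (nat_lit 0x3733744667)) e
 (c (a (nat_lit 0x1451d5ea05c7))
 (c (a (nat_lit 0x67288886f3467)) e
 (c (a (nat_lit 0xb65c94ab41188)) e e))
 (c (a (nat_lit 0x1354ed24a166))
 (c (a (nat_lit 0x284c46ad351e8)) e e)
 (c z e
 (c (a (nat_lit 0x1620a0a0b805))
 (c (a (nat_lit 0x47c0045600007)) e e)
 (c (a (nat_lit 0x5e60611cb66)) e
 (c z e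
 (c (a (nat_lit 0x1930ac68a6)) e
 (c (a (nat_lit 0x1084402029a6)) e
 (c (a (nat_lit 0x8a060735345)) e
 (c (a (nat_lit 0xe0a0808001)) e
 (c (a (nat_lit 0xa0a120b941)) e
 (c (a (nat_lit 0xc0a0843b24)) e e))))))))))))))
 (c (nat_lit 1)
 (c (a (nat_lit 0x11d04fe48406))
 (c (a (nat_lit 0x18b173cbe5a5e5)) e
 (c (a (nat_lit 0xddaca45e04b46)) e
 (c z e
 (c (b (nat_lit 0x1dfe0e1c69128)) e
 (c (a (nat_lit 0x4a3210738c7e7)) e e)))))
 (c (a (nat_lit 0xd94a52420e6))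
 (c (a (nat_lit 0x1b6ceb02919b86)) e
 (c z e
 (c (a (nat_lit 0x1c4c5ad51ecc8)) e
 (c (a (nat_lit 0x9264811aa02c8)) e e))))
 (c z e
 (c (a (nat_lit 0xc4161817265))
 (c (a (nat_lit 0x73397cd23c347)) e
 (c (a (nat_lit 0xbb46ac1200008)) e e))
 (c (a (nat_lit 0x40607d3805))
 (c (a (nat_lit 0x12a2a020000008)) e e)
 (c z e
 (c z e
 (c (a (nat_lit 0x122f8c8c8d47)) e
 (c (a (nat_lit 0x1820c0872744)) e
 (c (a (nat_lit 0x2a0c30429e1)) e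
 (c (a (nat_lit 0x2040b8a4)) e
 (c (a (nat_lit 0x40f8e6e4)) e
 (c z e
 (c (b (nat_lit 0x1ff744e14004)) e
 (c (a (nat_lit 0x194200000004)) e e)))))))))))))))
 (c (a (nat_lit 0x60606061))
 (c (a (nat_lit 0x112120402005))
 (c (a (nat_lit 0x562a08088be44)) e
 (c (a (nat_lit 0x444809859d306)) e
 (c (a (nat_lit 0x4a6d4b8821166)) e
 (c (a (nat_lit 0xc0a9068e9e007)) e e))))
 (c (a (nat_lit 0x24040405c65))
 (c (a (nat_lit 0x4a097d16541a7)) e e)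
 (c (a (nat_lit 0x8080b92c05)) e
 (c (a (nat_lit 0xbabbff48f66))
 (c (a (nat_lit 0x366000000004)) e e)
 (c (a (nat_lit 0x9d12e6d2d28)) e
 (c (a (nat_lit 0x1933f8f8f267)) e
 (c (a (nat_lit 0x1650d1110086)) e
 (c (a (nat_lit 0x262e34201a1)) e
 (c (a (nat_lit 0x20204031c4)) e
 (c (a (nat_lit 0x4060924544)) e
 (c z e
 (c (a (nat_lit 0x9904a0a2985)) e
 (c (a (nat_lit 0x18e180400003)) e
 (c (a (nat_lit 0x6c000000001)) e e))))))))))))))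
 (c (a (nat_lit 0x20202021))
 (c (a (nat_lit 0x2a2a2bf4ac4))
 (c (a (nat_lit 0xd97080818046)) e e)
 (c z e
 (c z e
 (c (a (nat_lit 0x1732d0d0c9c7)) e
 (c (a (nat_lit 0x19ff9f9933c7)) e
 (c (a (nat_lit 0x89292b53681)) e
 (c (a (nat_lit 0x206094a4)) e
 (c (a (nat_lit 0x1131516c0645)) e
 (c z e
 (c (a (nat_lit 0x37547a686c4)) e
 (c (a (nat_lit 0x108080404004)) e
 (c (a (nat_lit 0x12100000001)) e e))))))))))))
 (c (a (nat_lit 0x20202021))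
 (c (a (nat_lit 0x199b9ab0f0a5)) e
 (c (a (nat_lit 0x16324bcb43a6)) e
 (c (a (nat_lit 0x112d8da6c687)) e
 (c z e
 (c (a (nat_lit 0xed898968404)) e
 (c (a (nat_lit 0x1979796e0405)) e
 (c z e
 (c (b (nat_lit 0x1ff92b6b4b44)) e
 (c (a (nat_lit 0x1b6040606043)) e
 (c (a (nat_lit 0xa0600001)) e
 (c (a (nat_lit 0x2000000001)) e e)))))))))))
 (c (nat_lit 1)
 (c (a (nat_lit 0x134e4e406025)) e
 (c (a (nat_lit 0x1a0a120de03)) e
 (c (b (nat_lit 0x377797bfe4)) e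
 (c (a (nat_lit 0x191959d2e745)) e
 (c z e
 (c (a (nat_lit 0x234ed0a4005)) e
 (c (a (nat_lit 0x156d2a408da5)) e
 (c (a (nat_lit 0x1a1208001)) e
 (c (a (nat_lit 0x4080000001)) e e)))))))))
 (c (a (nat_lit 0x2001))
 (c (a (nat_lit 0xe1c14121)) e
 (c z e
 (c z e
 (c (b (nat_lit 0x1ff58500c004)) e
 (c (a (nat_lit 0x148884403dc4)) e
 (c (a (nat_lit 0x24060c0a121)) e
 (c (a (nat_lit 0x80600001)) e
 (c (nat_lit 1) e e))))))))
 (c (a (nat_lit 0x20202021))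
 (c z e
 (c (a (nat_lit 0x7a09256544)) e
 (c (a (nat_lit 0xa82a0203025)) e
 (c (a (nat_lit 0x2060412181)) e
 (c (a (nat_lit 0xa08060c001)) e
 (c (a (nat_lit 0x20000001)) e e))))))
 (c (nat_lit 1)
 (c (a (nat_lit 0x58140205045)) e
 (c (a (nat_lit 0x1e161618101)) e
 (c (a (nat_lit 0xe040a001)) e
 (c (a (nat_lit 0x20200001)) e
 (c (a (nat_lit 0x2000000001)) e e)))))
 (c (a (nat_lit 0x60606061))
 (c (a (nat_lit 0x4060608081)) e
 (c (a (nat_lit 0xa0c0a06001)) e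
 (c (a (nat_lit 0xc060000001)) e e)))
 (c (a (nat_lit 0x40404061))
 (c (a (nat_lit 0x6060200001)) e
 (c (a (nat_lit 0x6000000001)) e e))
 (c (a (nat_lit 0x60606061)) e
 (c (a (nat_lit 0x60606061)) e
 (c (a (nat_lit 0x202038a4)) e
 (c (a (nat_lit 0x38b664)) e
 (c (a (nat_lit 0x4fd3b3864)) e
 (c (a (nat_lit 0x1775b3cd05)) e
 (c (a (nat_lit 0x1551a42024)) e
 (c (a (nat_lit 0x11c4202024)) e
 (c (a (nat_lit 0x1f60402041)) e
 (c (a (nat_lit 0x20203685)) e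
 (c (a (nat_lit 0x20368945)) e e)))))))))))))))))))))))) Tr.c Tr.e (nat_lit 0) C.cx C.cy
noncomputable def C552 : Tr := beta% (fun (c : Nat → Tr → Tr → Tr) (e : Tr) (z : Nat) (a b : Nat → Nat) =>
 (c (a (nat_lit 0x20202021))
 (c (a (nat_lit 0x4040404041))
 (c (a (nat_lit 0x1774ae88612166))
 (c (a (nat_lit 0xdf090f1cf4db625)) e
 (c z e
 (c z e
 (c (b (nat_lit 0x1fe46746e52a5407)) e
 (c z e
 (c (b (nat_lit 0x68c2d5fe09bbd46)) e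
 (c (a (nat_lit 0x94ae82912cdc027)) e
 (c (a (nat_lit 0x8a529114e4d0a27)) e
 (c (a (nat_lit 0x9aafefa6748c5c6)) e
 (c z e
 (c (a (nat_lit 0xbd1afa4c0c00007)) e e)))))))))))
 (c z e
 (c z e
 (c (a (nat_lit 0x13e966c48872e6))
 (c (a (nat_lit 0x9e9c84dd22eebe9)) e
 (c z e
 (c z e
 (c (b (nat_lit 0xb91493fe8290229)) e
 (c (a (nat_lit 0x1169caa92743a749)) e e)))))
 (c z e
 (c z e
 (c (a (nat_lit 0x60b554a402825))
 (c z e
 (c (a (nat_lit 0x893e3898ac00008)) e e))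
 (c (a (nat_lit 0x88f6067f03d45))
 (c (a (nat_lit 0x1d6c964f20000007)) e e)
 (c z e
 (c z e
 (c (a (nat_lit 0x1a9dddb4b303c6)) e
 (c z e
 (c z e
 (c (a (nat_lit 0x117091b65651a6)) e
 (c (a (nat_lit 0x15d6fbbb96f8e6)) e
 (c (a (nat_lit 0xff938cfca0005)) e e))))))))))))))))
 (c (a (nat_lit 0x2020202021))
 (c z e
 (c z e
 (c z e
 (c z e
 (c z e
 (c z e
 (c z e
 (c z e
 (c z e
 (c z e
 (c z e
 (c z e
 (c (a (nat_lit 0xb8bafd18ed387)) e e)))))))))))))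
 (c (a (nat_lit 0x6060606061)) e
 (c (a (nat_lit 0x4040606041))
 (c (a (nat_lit 0x1c6318461a6a6))
 (c (a (nat_lit 0x9ede7f1312721c8)) e
 (c z e
 (c z e
 (c (a (nat_lit 0xa4eede90e93a949)) e
 (c (a (nat_lit 0x1d55cfd934a00008)) e e)))))
 (c z e
 (c z e
 (c (a (nat_lit 0xf90754ee1e827)) e
 (c (a (nat_lit 0x10154f62071787)) e
 (c z e
 (c z e
 (c (a (nat_lit 0x5307e30492b27)) e
 (c z e
 (c z e
 (c (a (nat_lit 0xd2cebf5fa8808)) e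
 (c (a (nat_lit 0xbab1009200009)) e
 (c (a (nat_lit 0x116dc000000008)) e e)))))))))))))
 (c (a (nat_lit 0x8080808081))
 (c z e
 (c z e
 (c z e
 (c z e
 (c z e
 (c z e
 (c z e
 (c z e
 (c z e
 (c (a (nat_lit 0x9682872c98009)) e
 (c (a (nat_lit 0xfb05280000008)) e e)))))))))))
 (c (a (nat_lit 0x6060606061))
 (c (a (nat_lit 0x1330ce05411fa5))
 (c (a (nat_lit 0x1c1ad95a89a00006)) e e)
 (c z e
 (c z e
 (c z e
 (c z e
 (c z e
 (c z e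
 (c z e
 (c (a (nat_lit 0x16f4399e600005)) e e)))))))))
 (c (a (nat_lit 0x2020203186))
 (c z e
 (c (a (nat_lit 0x5e2e7836b5f66)) e
 (c z e
 (c z e
 (c (a (nat_lit 0xad497520dcca8)) e e)))))
 (c (a (nat_lit 0x202031ac06))
 (c (a (nat_lit 0x12d472b2ba7b66)) e
 (c z e
 (c z e
 (c (a (nat_lit 0x50bedcb293888)) e
 (c (b (nat_lit 0x1016fcbcb75fe7)) e e)))))
 (c (a (nat_lit 0xa0b36ca5a7)) e
 (c (a (nat_lit 0x330d05c207)) e
 (c (a (nat_lit 0x1fdbc8806006))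
 (c (a (nat_lit 0x26d718401e008)) e e)
 (c z e
 (c z e
 (c (a (nat_lit 0xb8aa805d3e6)) e
 (c (a (nat_lit 0xa03e03c7ec5)) e
 (c (a (nat_lit 0x3c033decd05)) e
 (c (a (nat_lit 0x338bfb02ae5)) e
 (c (a (nat_lit 0xdd4c04042a5)) e
 (c (b (nat_lit 0x14e04062ffe5)) e
 (c (a (nat_lit 0x18185956d164)) e
 (c (a (nat_lit 0x1a3c164ba063)) e
 (c (a (nat_lit 0x1ba420200003)) e e))))))))))))))))))))))
 (c (a (nat_lit 0x40404041))
 (c (a (nat_lit 0x4040404041))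
 (c (a (nat_lit 0x18b81816727944))
 (c z e
 (c z e
 (c z e
 (c (a (nat_lit 0xacb024d553b61e7)) e
 (c (a (nat_lit 0x4c1430a1b11e4a7)) e
 (c (a (nat_lit 0x48302d2aa074408)) e
 (c (a (nat_lit 0x5279b6a8d083167)) e e)))))))
 (c z e
 (c z e
 (c (a (nat_lit 0x1a2d8f6a60ea45)) e
 (c (a (nat_lit 0x3c040204116e6)) e
 (c z e
 (c z e
 (c z e
 (c z e
 (c z e
 (c z e
 (c (a (nat_lit 0x12cef0e4eb526)) e
 (c (a (nat_lit 0x18a32d63a081)) e
 (c (a (nat_lit 0x199257356a6003)) e e))))))))))))))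
 (c (a (nat_lit 0x6060606061)) e
 (c (a (nat_lit 0x6060606061))
 (c (a (nat_lit 0x113ce5856f0065))
 (c (a (nat_lit 0x68632ccc6052748)) e e)
 (c z e
 (c z e
 (c z e
 (c z e
 (c z e
 (c z e
 (c (a (nat_lit 0x81df22bc66707)) e e))))))))
 (c (a (nat_lit 0x6060808061))
 (c z e
 (c z e
 (c z e
 (c z e
 (c z e
 (c z e
 (c z e
 (c z e
 (c (a (nat_lit 0x4c5e551366668)) e
 (c (a (nat_lit 0x1590dad1000008)) e
 (c (a (nat_lit 0x12f38000000007)) e e)))))))))))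
 (c (a (nat_lit 0x2020203447))
 (c z e
 (c z e
 (c z e
 (c z e
 (c z e
 (c z e
 (c z e
 (c (a (nat_lit 0xb73d69f3dc007)) e
 (c (a (nat_lit 0x1b78d8c0000006)) e e)))))))))
 (c (a (nat_lit 0x2020346ee6)) e
 (c (a (nat_lit 0x2035330647))
 (c (a (nat_lit 0x7078e2d912587)) e e)
 (c (a (nat_lit 0x16b285e247)) e
 (c z e
 (c (a (nat_lit 0x19f52e4dec25))
 (c (a (nat_lit 0x46d7122800008)) e e)
 (c z e
 (c (b (nat_lit 0x6bfe3803dc4)) e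
 (c (a (nat_lit 0x4040363224)) e
 (c (a (nat_lit 0x8b5fad74da5)) e
 (c (a (nat_lit 0x11f4528daac6)) e
 (c (a (nat_lit 0x134440806045)) e
 (c (a (nat_lit 0x3e020203265)) e
 (c (b (nat_lit 0x1c1a1b43fe5)) e e))))))))))))))))))
 (c (nat_lit 1)
 (c (a (nat_lit 0x8080808081))
 (c (a (nat_lit 0xdec7604e0c264))
 (c z e
 (c (a (nat_lit 0x1af72f2f2f291326)) e
 (c z e
 (c (a (nat_lit 0xc5612e7cb48ea07)) e
 (c (a (nat_lit 0x13986a494343c2c7)) e e)))))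
 (c (a (nat_lit 0xcdfe1a066e6c5))
 (c (a (nat_lit 0x114a6d0d880baaa8)) e
 (c z e
 (c (a (nat_lit 0xef3c7cf6ca54b08)) e e)))
 (c z e
 (c (a (nat_lit 0x7eced127caee5))
 (c z e
 (c (a (nat_lit 0x196cffaf20000007)) e e))
 (c (a (nat_lit 0x3e3f159376ea6))
 (c (a (nat_lit 0x812c68000000006)) e e)
 (c z e
 (c z e
 (c (a (nat_lit 0x16543309cc33e6)) e
 (c (a (nat_lit 0x14759aad724fe6)) e
 (c z e
 (c (a (nat_lit 0xc0d4fef6d5307)) e
 (c (a (nat_lit 0x1056d42e6a2006)) e e))))))))))))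
 (c (a (nat_lit 0x8080808081))
 (c (a (nat_lit 0x114565858583a6))
 (c (a (nat_lit 0x811cf256766c348)) e e)
 (c z e
 (c (a (nat_lit 0x14d4f97ffe2446)) e
 (c z e
 (c z e
 (c z e
 (c (a (nat_lit 0x1831534b4b19c7)) e
 (c (a (nat_lit 0xeaf6d43ced2a7)) e
 (c z e
 (c (b (nat_lit 0x4668c700c3fe8)) e e))))))))))
 (c (a (nat_lit 0x20202037a7)) e
 (c (a (nat_lit 0x2020378ca7))
 (c z e
 (c (b (nat_lit 0x47fe30a1700c7)) e
 (c z e
 (c z e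
 (c (a (nat_lit 0xa786face6a5a7)) e
 (c z e
 (c z e
 (c (a (nat_lit 0xc4d11ae400008)) e
 (c (a (nat_lit 0xe900000000006)) e e)))))))))
 (c (a (nat_lit 0x2036f67647))
 (c (a (nat_lit 0x4144da802006)) e
 (c z e
 (c z e
 (c (a (nat_lit 0x1fb8b857b30ac7)) e
 (c z e
 (c z e
 (c (a (nat_lit 0x1bd97b20000007)) e e)))))))
 (c (a (nat_lit 0x16b6d609c7)) e
 (c z e
 (c (a (nat_lit 0x1cb775a4e506))
 (c (a (nat_lit 0x7174cecc420e7)) e
 (c (a (nat_lit 0x745ba22c00008)) e e))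
 (c (a (nat_lit 0x18afce0dee05))
 (c (a (nat_lit 0x2326200000008)) e e)
 (c (a (nat_lit 0xeef0f0f1128)) e
 (c (a (nat_lit 0x5050531d0c6)) e
 (c (a (nat_lit 0x5ea379820e5)) e
 (c (a (nat_lit 0xf9cfd864225)) e
 (c (a (nat_lit 0x16d9804021a5)) e
 (c (a (nat_lit 0x1961602181a5)) e
 (c (a (nat_lit 0x2020407525)) e
 (c (a (nat_lit 0x2040552dc5)) e
 (c (a (nat_lit 0x60724e0765)) e e))))))))))))))))))
 C551)))) Tr.c Tr.e (nat_lit 0) C.cx C.cy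
noncomputable def C553 : Tr := beta% (fun (c : Nat → Tr → Tr → Tr) (e : Tr) (z : Nat) (a b : Nat → Nat) =>
 (c (a (nat_lit 0x2020202021))
 (c (a (nat_lit 0x33330cde78288))
 (c (a (nat_lit 0x70f15fb1112f786))
 (c z e
 (c z e
 (c (a (nat_lit 0x1568b26340a1c94188)) e
 (c (a (nat_lit 0x127751302f6d4a70a9)) e e))))
 (c z e
 (c z e
 (c (b (nat_lit 0x8fbff52fccb3a8))
 (c (a (nat_lit 0x1556b3d1908c6e4009)) e e)
 (c z e
 (c z e
 (c z e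
 (c (a (nat_lit 0xa8748cef12dd2e8)) e
 (c z e
 (c z e
 (c (a (nat_lit 0x9cdb85c4c85a008)) e e)))))))))))
 (c z e
 (c z e
 (c (a (nat_lit 0x14706a8aa84c28))
 (c (a (nat_lit 0xe12b18edd3f55c9)) e
 (c z e
 (c z e
 (c z e
 (c (a (nat_lit 0x165a4e74d1304b89)) e e)))))
 (c z e
 (c z e
 (c z e
 (c (a (nat_lit 0x8e70ed02eea6))
 (c (a (nat_lit 0xff149ea27000008)) e e)
 (c z e
 (c z e
 (c (a (nat_lit 0xe94359352eea8)) e
 (c z e
 (c z e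
 (c z e
 (c (a (nat_lit 0x1583d316d03766)) e
 (c (a (nat_lit 0x21134ee75c8c6)) e e))))))))))))))))
 (c (a (nat_lit 0x2020202021)) e
 (c (a (nat_lit 0x6060404041))
 (c (a (nat_lit 0x110b4b2b521245))
 (c (a (nat_lit 0x4c66608e6ce1087)) e
 (c z e
 (c (a (nat_lit 0x4523694d39f1e8)) e
 (c (a (nat_lit 0x7e8486b514bc829)) e
 (c (a (nat_lit 0x2c546356d6aa989)) e
 (c z e
 (c z e
 (c (a (nat_lit 0x12b3498440000008)) e e))))))))
 (c (a (nat_lit 0x7e7ea143de0e6))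
 (c z e
 (c z e
 (c z e
 (c z e
 (c z e
 (c z e
 (c (a (nat_lit 0x1c1627a000000009)) e e)))))))
 (c z e
 (c (a (nat_lit 0x12b87b92852846))
 (c z e
 (c (a (nat_lit 0x1a8db59445e64529)) e e))
 (c (a (nat_lit 0x106f8302016246))
 (c (a (nat_lit 0xbd8956260804008)) e e)
 (c z e
 (c z e
 (c (a (nat_lit 0x446ac7c0c9127)) e
 (c z e
 (c z e
 (c (a (nat_lit 0x13c8b08da20547)) e
 (c (a (nat_lit 0x2320db06ec706)) e
 (c z e
 (c (a (nat_lit 0x12b4b486400006)) e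
 (c (a (nat_lit 0x1c6e4000000006)) e e)))))))))))))))
 (c (a (nat_lit 0x4040404041))
 (c (a (nat_lit 0x7476d75a7a446))
 (c (a (nat_lit 0x2cbada6d9b6e908)) e
 (c z e
 (c z e
 (c z e
 (c (a (nat_lit 0x1514890c6ea78009)) e e)))))
 (c z e
 (c z e
 (c z e
 (c (a (nat_lit 0xa4a64406170c8)) e
 (c z e
 (c (a (nat_lit 0x4e16675524c08)) e
 (c (b (nat_lit 0x1ffff351296d28)) e
 (c z e
 (c z e
 (c z e
 (c (a (nat_lit 0x12144e9c8ea008)) e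
 (c (a (nat_lit 0x13ce0e00000008)) e e)))))))))))))
 (c (a (nat_lit 0x6060606061))
 (c z e
 (c z e
 (c z e
 (c z e
 (c z e
 (c z e
 (c z e
 (c z e
 (c z e
 (c z e
 (c (a (nat_lit 0x10ad4f33800007)) e e)))))))))))
 (c (a (nat_lit 0x4040404041))
 (c (a (nat_lit 0x106dcb83e04ec6))
 (c (a (nat_lit 0xd69ac0e7145a007)) e
 (c (a (nat_lit 0x17b33c14e0000007)) e e))
 (c (a (nat_lit 0x1d4aa6c07bbc05))
 (c (a (nat_lit 0x832c9a000000007)) e e)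
 (c z e
 (c z e
 (c (b (nat_lit 0x1fee6e6e96e906)) e
 (c z e
 (c z e
 (c (a (nat_lit 0xf756f0c2bb1a7)) e
 (c (a (nat_lit 0xe8829d1e74007)) e e)))))))))
 (c (a (nat_lit 0x2001))
 (c (b (nat_lit 0x1f63839fffffe1)) e
 (c z e
 (c z e
 (c (a (nat_lit 0xb4b6b6f52afa7)) e
 (c z e
 (c z e
 (c (b (nat_lit 0x809087fe4b7e8)) e e)))))))
 (c (a (nat_lit 0x2020203646))
 (c (a (nat_lit 0x1072b0cfead545)) e
 (c z e
 (c z e
 (c (a (nat_lit 0x688ef34c4fa7)) e e))))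
 (c (a (nat_lit 0x1d2b46))
 (c z e
 (c z e
 (c z e
 (c z e
 (c (a (nat_lit 0x8470852200009)) e
 (c (a (nat_lit 0x11788000000005)) e e))))))
 (c (a (nat_lit 0x262726aea27))
 (c (a (nat_lit 0x1a02627879c08)) e
 (c z e
 (c z e
 (c (a (nat_lit 0xb6f5980000009)) e e))))
 (c (a (nat_lit 0x552ce0b04a7))
 (c (a (nat_lit 0x62bfaad9f27e8)) e e)
 (c z e
 (c (a (nat_lit 0x1332b2f0f0e5)) e
 (c (a (nat_lit 0x1bae4c4c4485)) e
 (c (a (nat_lit 0x4c0202035a6)) e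
 (c (a (nat_lit 0x202035ef06)) e
 (c (a (nat_lit 0x242535127a6)) e
 (c (a (nat_lit 0x919f40e8e86)) e
 (c (b (nat_lit 0x182ca1619fe5)) e
 (c (b (nat_lit 0x10a585bfffe5)) e
 (c (a (nat_lit 0x18f8a5a403e4)) e
 (c (a (nat_lit 0x18a240804004)) e
 (c (a (nat_lit 0x108240000001)) e e)))))))))))))))))))))))) Tr.c Tr.e (nat_lit 0) C.cx C.cy
noncomputable def C554 : Tr := beta% (fun (c : Nat → Tr → Tr → Tr) (e : Tr) (z : Nat) (a b : Nat → Nat) =>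
 (c (a (nat_lit 0x2020202021))
 (c z
 (c z e
 (c z e
 (c z e
 (c z e
 (c z e
 (c z e
 (c z e
 (c z e
 (c (a (nat_lit 0x200a100e4421a24)) e
 (c (a (nat_lit 0x889488b0a34aa05)) e
 (c z e
 (c (a (nat_lit 0x88fcffb0505aba5)) e
 (c z e
 (c z e
 (c z e
 (c (a (nat_lit 0x181b6d40e0a00004)) e
 (c (a (nat_lit 0x1b2d60e000000004)) e e)))))))))))))))))
 (c (a (nat_lit 0x2020202032e7))
 (c z e
 (c z e
 (c z e
 (c z e
 (c z e
 (c z e
 (c z e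
 (c z e
 (c z e
 (c (a (nat_lit 0xb90cdcaac4f2c67)) e
 (c z e
 (c z e
 (c z e
 (c z e
 (c (a (nat_lit 0x13b34e4020000006)) e e)))))))))))))))
 (c (a (nat_lit 0x202032eec7)) e
 (c (a (nat_lit 0x2030ef0ae8)) e
 (c (a (nat_lit 0x203c19573007)) e
 (c z e
 (c z e
 (c z e
 (c z e
 (c z e
 (c z e
 (c z e
 (c z e
 (c z e
 (c z e
 (c (a (nat_lit 0x13034140a107a5)) e
 (c (a (nat_lit 0x5a120612e9064)) e e)))))))))))))))))
 (c (a (nat_lit 0x2020202021))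
 (c (a (nat_lit 0x202020330e47))
 (c z e
 (c z e
 (c z e
 (c z e
 (c z e
 (c z e
 (c z e
 (c z e
 (c z e
 (c (a (nat_lit 0x11306eecee154267)) e
 (c z e
 (c z e
 (c z e
 (c z e
 (c (a (nat_lit 0x12a5e5e000000007)) e e)))))))))))))))
 (c (a (nat_lit 0x20203d7934e8)) e
 (c (a (nat_lit 0x3d59724988)) e
 (c (a (nat_lit 0x23cba192ea768)) e
 (c z e
 (c z e
 (c z e
 (c z e
 (c z e
 (c z e
 (c z e
 (c z e
 (c z e
 (c z e
 (c (b (nat_lit 0x11e3e665cf5fe5)) e e)))))))))))))))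
 (c (a (nat_lit 0x2040404021))
 (c (a (nat_lit 0x20302eeb6588)) e e)
 (c (a (nat_lit 0x2040402021)) e
 (c (a (nat_lit 0x6060606061)) e
 (c (a (nat_lit 0x4040404041))
 (c z e
 (c z e
 (c z e
 (c z e
 (c z e
 (c z e
 (c (b (nat_lit 0xe3031ffff1c7)) e
 (c z e
 (c z e
 (c z e
 (c z e
 (c z e
 (c (a (nat_lit 0x1fd3e383600005)) e
 (c (a (nat_lit 0x10e04000000005)) e e))))))))))))))
 (c (a (nat_lit 0x6060606061))
 (c z e
 (c z e
 (c z e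
 (c z e
 (c z e
 (c z e
 (c z e
 (c z e
 (c z e
 (c z e
 (c z e
 (c (a (nat_lit 0xa0030e0000006)) e e))))))))))))
 (c (a (nat_lit 0x20002001))
 (c (b (nat_lit 0x1531085fe02064))
 (c (a (nat_lit 0x168867e80547e1c7)) e
 (c (a (nat_lit 0x160e0ad1cbc00007)) e e))
 (c (a (nat_lit 0x12e960e0a18b25))
 (c (a (nat_lit 0x17cafaeba0000006)) e e) e))
 (c (a (nat_lit 0x2020202021))
 (c (a (nat_lit 0x11e18162d3ff03)) e e)
 (c (a (nat_lit 0x2020202021))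
 (c z e
 (c z e
 (c z e
 (c z e
 (c z e
 (c z e
 (c (a (nat_lit 0x1ee9380600005)) e e)))))))
 (c (a (nat_lit 0x20203ac6))
 (c z e
 (c z e
 (c z e
 (c z e
 (c z e
 (c (a (nat_lit 0xf36fd20000005)) e e))))))
 (c (a (nat_lit 0x20203b30e6))
 (c (a (nat_lit 0xbc3e7b9adafe7)) e e)
 (c (a (nat_lit 0x2037b2e7c6)) e
 (c (a (nat_lit 0x7f833ee0da6)) e
 (c (b (nat_lit 0x11c89fe02025)) e
 (c (a (nat_lit 0x16509477c005)) e
 (c z e
 (c (a (nat_lit 0x16e0224026c5)) e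
 (c (b (nat_lit 0x285835ff605)) e
 (c z e
 (c z e
 (c z e
 (c z e
 (c (a (nat_lit 0x114580a0c0e5)) e
 (c (a (nat_lit 0x130060400003)) e
 (c (a (nat_lit 0x2000000001)) e e))))))))))))))))))))))))))) Tr.c Tr.e (nat_lit 0) C.cx C.cy
noncomputable def C555 : Tr := beta% (fun (c : Nat → Tr → Tr → Tr) (e : Tr) (z : Nat) (a b : Nat → Nat) =>
 (c (nat_lit 1)
 (c (a (nat_lit 0x20203d7a1327))
 (c (a (nat_lit 0x8e261a9f1d0b266))
 (c z e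
 (c z e
 (c z e
 (c (a (nat_lit 0x1e3aebd42b0a0a2849)) e
 (c (a (nat_lit 0x18af26e8abe807a8e9)) e
 (c z e
 (c (a (nat_lit 0xfd24a694a67a00008)) e
 (c (a (nat_lit 0x1ae46a4de000000007)) e e))))))))
 (c z e
 (c z e
 (c (a (nat_lit 0x101c0d898c6f1327))
 (c (a (nat_lit 0x140e4ceceeee0a8c0a)) e e)
 (c z e
 (c z e
 (c z e
 (c (a (nat_lit 0xc850daff18a54e7)) e
 (c z e
 (c z e
 (c (a (nat_lit 0x76622488a5c4da8)) e e)))))))))))
 (c (a (nat_lit 0x121310f2a6409)) e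
 (c z e
 (c z e
 (c z e
 (c z e
 (c z e
 (c z e
 (c z e
 (c z e
 (c (a (nat_lit 0x1979955c1af5a7)) e
 (c z e
 (c z e
 (c (a (nat_lit 0xb34f3368fd086)) e
 (c (a (nat_lit 0x1cb43c31f44445)) e
 (c z e
 (c (a (nat_lit 0x136e2f47a0a086)) e
 (c (a (nat_lit 0x1bddeea0600005)) e e))))))))))))))))))
 (c (a (nat_lit 0x6060606061))
 (c z e
 (c z e
 (c z e
 (c z e
 (c z e
 (c z e
 (c z e
 (c z e
 (c z e
 (c z e
 (c z e
 (c z e
 (c z e
 (c z e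
 (c z e
 (c (a (nat_lit 0x13340d64e4e006)) e
 (c (a (nat_lit 0x1eb16060000005)) e e)))))))))))))))))
 (c (a (nat_lit 0x8080808061))
 (c z e
 (c (a (nat_lit 0x12ea23a3a3e168))
 (c (b (nat_lit 0x1fffe2e325d49069))
 (c (a (nat_lit 0x192e85438000000008)) e e)
 (c z e
 (c z e
 (c z e
 (c z e
 (c z e
 (c (a (nat_lit 0x9d72fc321a00009)) e
 (c (a (nat_lit 0x1671850000000009)) e e))))))))
 (c (a (nat_lit 0x12ac2c4cc96b67)) e
 (c z e
 (c z e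
 (c z e
 (c z e
 (c z e
 (c (a (nat_lit 0x78383ceb8f647)) e
 (c z e
 (c z e
 (c z e
 (c z e
 (c (a (nat_lit 0xab533f5574986)) e
 (c (a (nat_lit 0x18b7998de00006)) e
 (c (a (nat_lit 0x156ba000000006)) e e))))))))))))))))
 (c (a (nat_lit 0x4040404041))
 (c (a (nat_lit 0x18c86869042da6))
 (c (a (nat_lit 0x2230304ebecfec8)) e
 (c (a (nat_lit 0x202254acd6d302a)) e
 (c z e
 (c z e
 (c z e
 (c z e
 (c (a (nat_lit 0x15b38523a0000009)) e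
 (c (a (nat_lit 0x11e3a00000000009)) e e))))))))
 (c z e
 (c z e
 (c (a (nat_lit 0xa4cf028820ac7))
 (c (a (nat_lit 0xa8e316e71914609)) e
 (c (a (nat_lit 0x137bd81d93000009)) e e))
 (c (a (nat_lit 0x129a89a515b5e6))
 (c (a (nat_lit 0x1c795c2f00000008)) e e)
 (c z e
 (c (b (nat_lit 0x1fe4a806cbb6c6)) e
 (c (a (nat_lit 0x3030353b89107)) e
 (c z e
 (c z e
 (c (a (nat_lit 0xe10f00baea9a7)) e
 (c (a (nat_lit 0x1b1af6393494a7)) e
 (c (a (nat_lit 0x19c701a0606005)) e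
 (c (a (nat_lit 0x1500a020000003)) e
 (c (a (nat_lit 0x2200000000001)) e e)))))))))))))))
 (c (a (nat_lit 0x8080808081))
 (c z e
 (c z e
 (c (a (nat_lit 0xe7589455fffc6))
 (c (a (nat_lit 0xa8c4d714c65a009)) e
 (c (a (nat_lit 0x89234ea20000009)) e e))
 (c (a (nat_lit 0xe77bb9a9a9a66))
 (c (a (nat_lit 0x1350068000000008)) e e)
 (c z e
 (c (a (nat_lit 0xbb1719234b745)) e
 (c z e
 (c z e
 (c z e
 (c (a (nat_lit 0x183af7d53514c7)) e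
 (c (a (nat_lit 0x1b9570d0b01066)) e
 (c (a (nat_lit 0x12a26220200004)) e e))))))))))))
 (c (a (nat_lit 0x2020202021))
 (c (a (nat_lit 0x13728521640425))
 (c (a (nat_lit 0x4f63d0d0bc9ab67)) e
 (c (a (nat_lit 0x113f11308d8a0008)) e e))
 (c (a (nat_lit 0x17aca8c8082846))
 (c (a (nat_lit 0x1490eeab25800008)) e e)
 (c z e
 (c (a (nat_lit 0x78a4d0d6fbc85)) e
 (c (a (nat_lit 0xbae4cafd07ce6)) e
 (c z e
 (c z e
 (c z e
 (c z e
 (c (a (nat_lit 0x18288f4eaa8006)) e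
 (c (a (nat_lit 0x371a8c0000005)) e e)))))))))))
 (c (a (nat_lit 0x20000001))
 (c (a (nat_lit 0x15a8266241e623))
 (c (a (nat_lit 0x1a6ee3c0e0000005)) e e)
 (c (a (nat_lit 0x82808c90e9de4)) e
 (c z e
 (c z e
 (c z e
 (c z e
 (c z e
 (c (b (nat_lit 0x10407fe9732306)) e
 (c (a (nat_lit 0x10afda33800006)) e
 (c (a (nat_lit 0xbdb0000000004)) e e))))))))))
 (c (a (nat_lit 0x2001))
 (c (a (nat_lit 0x5e605a7906e85)) e
 (c z e
 (c z e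
 (c z e
 (c z e
 (c z e
 (c (a (nat_lit 0xca98d5180c006)) e
 (c (a (nat_lit 0x12766d60000006)) e e))))))))
 (c (a (nat_lit 0x2040400001))
 (c (b (nat_lit 0x1fe55144c8e965)) e
 (c (a (nat_lit 0x4a8e6c24174a8)) e
 (c z e
 (c z e
 (c z e
 (c (a (nat_lit 0x11bd1f16400006)) e e))))))
 (c (a (nat_lit 0x2020203b66))
 (c (a (nat_lit 0x76705a5ad5068)) e
 (c (a (nat_lit 0x20204b34d188)) e e))
 (c (a (nat_lit 0x20203c38e6))
 (c (a (nat_lit 0x282828dd046c8)) e e)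
 (c (a (nat_lit 0x2034922e66)) e
 (c z e
 (c (a (nat_lit 0x179513e02066)) e
 (c (a (nat_lit 0x153400208086)) e
 (c (a (nat_lit 0x13a020204146)) e
 (c (b (nat_lit 0x1fe020221425)) e
 (c (a (nat_lit 0x6254ba25)) e
 (c z e
 (c z e
 (c (a (nat_lit 0xf92a82423a6)) e
 (c (a (nat_lit 0x1d4820204005)) e
 (c (a (nat_lit 0x11a200604004)) e
 (c (a (nat_lit 0xea020000001)) e e))))))))))))))))))))))))) Tr.c Tr.e (nat_lit 0) C.cx C.cy
noncomputable def C556 : Tr := beta% (fun (c : Nat → Tr → Tr → Tr) (e : Tr) (z : Nat) (a : Nat → Nat) =>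
 (c (a (nat_lit 0x6060606061))
 (c z
 (c (a (nat_lit 0xeeee9918c4c4ac4))
 (c z e
 (c z e
 (c z e
 (c z e
 (c z e
 (c z e
 (c z e
 (c z e
 (c z e
 (c z e
 (c z e
 (c (a (nat_lit 0x6162a3c423f14208)) e e))))))))))))
 (c z e
 (c (a (nat_lit 0x15f69822c20201a5))
 (c z e
 (c z e
 (c z e
 (c z e
 (c z e
 (c z e
 (c z e
 (c z e
 (c (a (nat_lit 0xe4a4b85c5d756b867)) e e)))))))))
 (c (a (nat_lit 0x1e5b604363e11624))
 (c z e
 (c z e
 (c z e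
 (c z e
 (c z e
 (c z e
 (c (a (nat_lit 0x116fabcfe7b44a5867)) e e)))))))
 (c z e
 (c (a (nat_lit 0xb0a8cd31057a264)) e
 (c (a (nat_lit 0xa6b50f7f516cf24))
 (c (a (nat_lit 0x662c2cd078d7939e8)) e
 (c z e
 (c z e
 (c z e
 (c z e
 (c z e
 (c (a (nat_lit 0x164bc4e00000000009)) e e)))))))
 (c z e
 (c z e
 (c (a (nat_lit 0x46c8bf08a666786)) e
 (c (a (nat_lit 0x1312bb4ee7298e05)) e
 (c (a (nat_lit 0xcd509c2a4a84585)) e
 (c (a (nat_lit 0x19eec7898d868605)) e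
 (c (a (nat_lit 0x112d2e5089a3c006)) e e))))))))))))))
 (c z
 (c z e
 (c z e
 (c z e
 (c z e
 (c z e
 (c z e
 (c z e
 (c z e
 (c z e
 (c z e
 (c z e
 (c z e
 (c z e
 (c z e
 (c z e
 (c z e
 (c (a (nat_lit 0xbf8212240e00005)) e
 (c (a (nat_lit 0x18c1a18000000005)) e e))))))))))))))))))
 (c z
 (c z e
 (c z e
 (c z e
 (c z e
 (c z e
 (c z e
 (c z e
 (c z e
 (c z e
 (c z e
 (c z e
 (c z e
 (c z e
 (c z e
 (c z e
 (c (a (nat_lit 0x1dada46280000005)) e e))))))))))))))))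
 (c z
 (c z e
 (c z e
 (c z e
 (c z e
 (c z e
 (c z e
 (c z e
 (c z e
 (c (a (nat_lit 0x11f3914b2202a507)) e
 (c z e
 (c z e
 (c z e
 (c z e
 (c (a (nat_lit 0x124fa60be5c00006)) e
 (c (a (nat_lit 0x1046862000000006)) e e)))))))))))))))
 (c (a (nat_lit 0x2020202032c7)) e
 (c (a (nat_lit 0x202020346ea7))
 (c z e
 (c (a (nat_lit 0xc5020597138ac7))
 (c (a (nat_lit 0x1c5b2c4385e97470e9)) e e)
 (c z e
 (c z e
 (c z e
 (c z e
 (c z e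
 (c (a (nat_lit 0xb8ba7a812333068)) e
 (c (a (nat_lit 0x1c101a529f598a8)) e e)))))))))
 (c (a (nat_lit 0xe0e0f7f25107))
 (c (a (nat_lit 0xc898bd63f344566))
 (c (a (nat_lit 0x1e1027472c75115908)) e e)
 (c z e
 (c z e
 (c z e
 (c (a (nat_lit 0xa47072b46c65208)) e
 (c z e
 (c (a (nat_lit 0x22301458c24b2a9)) e
 (c (a (nat_lit 0x866c7b2f02ff709)) e e))))))))
 (c (a (nat_lit 0x203693f305c7))
 (c z e
 (c z e
 (c z e
 (c z e
 (c z e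
 (c (a (nat_lit 0x60252729579249)) e e))))))
 (c z e
 (c (a (nat_lit 0x149899c9090926))
 (c (a (nat_lit 0xd0807a82f8475a7)) e
 (c (a (nat_lit 0x1594f75e4e5d7407)) e e))
 (c (a (nat_lit 0x14726445a5a6a6))
 (c (a (nat_lit 0xe502f2aaa4c6ce7)) e e)
 (c z e
 (c (a (nat_lit 0x1a303444c9026))
 (c (a (nat_lit 0x1a98a604e0000009)) e e)
 (c (a (nat_lit 0x464856fd1af67)) e
 (c z e
 (c z e
 (c (a (nat_lit 0xf1349ef62c1e5)) e
 (c (a (nat_lit 0x11880d80a02285)) e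
 (c (a (nat_lit 0xf1bc260657224)) e
 (c (a (nat_lit 0x18e04064b179c4)) e
 (c (a (nat_lit 0xe023f2bb34e4)) e e)))))))))))))))))))))
 (c (a (nat_lit 0x20000001))
 (c z e
 (c z e
 (c (a (nat_lit 0x2020203348)) e
 (c (a (nat_lit 0x20202034b208)) e
 (c (a (nat_lit 0x20203f5c1a88)) e
 (c (a (nat_lit 0x2223c5a790ba8)) e
 (c z e
 (c z e
 (c z e
 (c z e
 (c z e
 (c z e
 (c z e
 (c z e
 (c z e
 (c z e
 (c z e
 (c (a (nat_lit 0xfae8a959064)) e e))))))))))))))))))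
 (c (nat_lit 1)
 (c (a (nat_lit 0x202020203507)) e
 (c (a (nat_lit 0x136f68))
 (c z e
 (c z e
 (c z e
 (c z e
 (c z e
 (c z e
 (c z e
 (c (a (nat_lit 0x1ed2711b14553727)) e e))))))))
 (c (a (nat_lit 0x20203d99f3a8)) e
 (c (a (nat_lit 0x203fbbbb4988)) e
 (c z e
 (c z e
 (c z e
 (c z e
 (c z e
 (c z e
 (c z e
 (c z e
 (c z e
 (c z e
 (c z e
 (c (a (nat_lit 0x16e9bb3ad63165)) e e))))))))))))))))
 C555)))) Tr.c Tr.e (nat_lit 0) C.cx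
noncomputable def C557 : Tr := beta% (fun (c : Nat → Tr → Tr → Tr) (e : Tr) (z : Nat) (a b : Nat → Nat) =>
 (c (a (nat_lit 0x1a1a1a1a1a1))
 (c (a (nat_lit 0x1616f70a224246))
 (c (a (nat_lit 0x10907011c80bef25)) e
 (c (a (nat_lit 0x649c850abebb666))
 (c (a (nat_lit 0x809d9aba228400007)) e e)
 (c z e
 (c (a (nat_lit 0x325682545859167)) e
 (c (a (nat_lit 0x426c34225885967)) e
 (c z e
 (c z e
 (c (a (nat_lit 0xbca4e6d982a86c7)) e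
 (c (a (nat_lit 0x406277042800008)) e e)))))))))
 (c (a (nat_lit 0x1c9a7446856566))
 (c (a (nat_lit 0x56366a6850c7a47))
 (c (a (nat_lit 0x83ac80203c0000007)) e e)
 (c (a (nat_lit 0x144c3e42736fa88)) e
 (c (a (nat_lit 0x6a707ab8f151208)) e
 (c z e
 (c z e
 (c z e
 (c (a (nat_lit 0x1bda16fb4d8e0007)) e
 (c (a (nat_lit 0xfb2fda460000007)) e e))))))))
 (c (a (nat_lit 0x1bb22ccccbcc26)) e
 (c (a (nat_lit 0x152c2c4c954b44))
 (c (a (nat_lit 0x1e3e16b179b04e7)) e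
 (c (a (nat_lit 0x2e6093a360d4b48)) e
 (c z e
 (c z e
 (c (a (nat_lit 0xe71e5c5a0000008)) e e)))))
 (c (a (nat_lit 0x2628693276005))
 (c (a (nat_lit 0x601b91a4d4e4387)) e
 (c z e
 (c z e
 (c (a (nat_lit 0x14a9074000000008)) e e))))
 (c z e
 (c z e
 (c (a (nat_lit 0x1792a92721e1a5)) e
 (c (a (nat_lit 0x1ad15143c39845)) e
 (c z e
 (c (a (nat_lit 0x5052cd74df0c6)) e
 (c (a (nat_lit 0x3c3b351d995e5)) e
 (c z e
 (c (a (nat_lit 0xa89120ec8e6a5)) e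
 (c (a (nat_lit 0xc1df7ec43a004)) e
 (c (a (nat_lit 0x112de420000005)) e
 (c (a (nat_lit 0x13a00000000004)) e e)))))))))))))))))
 (c (a (nat_lit 0xc0c0c0e0e1))
 (c (a (nat_lit 0x18326424242245))
 (c (a (nat_lit 0x16483a3c80c9406)) e
 (c (a (nat_lit 0x61e1e30b339028)) e
 (c (a (nat_lit 0x80e3e78b5094e8)) e
 (c (a (nat_lit 0x4c5ab8976d2cc48)) e
 (c (a (nat_lit 0x2a605d472a687c8)) e
 (c (a (nat_lit 0xb8c3ddd93edcd07)) e
 (c (a (nat_lit 0xffe9ca846800007)) e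
 (c (a (nat_lit 0x1c39c1c000000007)) e e))))))))
 (c (a (nat_lit 0x1e260626460065))
 (c z e
 (c z e
 (c z e
 (c z e
 (c z e
 (c (a (nat_lit 0x970e6e4c0000008)) e e))))))
 (c (a (nat_lit 0x1050d15dfb0003))
 (c z e
 (c z e
 (c z e
 (c z e
 (c (a (nat_lit 0x10c5a3c000000008)) e e)))))
 (c (a (nat_lit 0xa6a95ad024045))
 (c (a (nat_lit 0xa93f08ff193b3a7)) e
 (c (a (nat_lit 0x1512504f554b6008)) e e))
 (c (a (nat_lit 0x712aca36029a5))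
 (c (a (nat_lit 0x130eae9488200007)) e e)
 (c (a (nat_lit 0x10af606029c9a5))
 (c (a (nat_lit 0x1cd1800000000006)) e e)
 (c (a (nat_lit 0x13d0d0e9a96d25)) e
 (c (a (nat_lit 0xa2c6c2927e5a1)) e
 (c (a (nat_lit 0xecfd0fa910f46)) e
 (c (a (nat_lit 0xcce1691135206)) e
 (c (a (nat_lit 0xd8d4d8f9635e5)) e
 (c (a (nat_lit 0xeaf5137773225)) e
 (c (a (nat_lit 0x46874d44a2824)) e
 (c (a (nat_lit 0x3fc68c4000003)) e
 (c (a (nat_lit 0x1d24c000000003)) e e)))))))))))))))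
 (c (a (nat_lit 0xa0a0a0a0a1))
 (c z e
 (c z e
 (c (a (nat_lit 0xf7dcac8407345))
 (c (a (nat_lit 0xae74debd04dc548)) e
 (c (a (nat_lit 0xa6d0c55ec000008)) e e))
 (c (a (nat_lit 0x1a20c06052f2c5))
 (c (a (nat_lit 0xacf3c2f80000006)) e e)
 (c z e
 (c (a (nat_lit 0xdecf534d3ee44)) e
 (c (a (nat_lit 0x15d5b5b5b12845)) e
 (c z e
 (c z e
 (c (a (nat_lit 0x1673f493d2d2a6)) e
 (c (a (nat_lit 0x12733271313106)) e
 (c (a (nat_lit 0x10cb60c0808003)) e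
 (c (a (nat_lit 0x15c0e020000002)) e e)))))))))))))
 (c (a (nat_lit 0xe0e0e0e0e1))
 (c (a (nat_lit 0x8fe48efe02d03))
 (c (a (nat_lit 0x6cdbf09a64809a6)) e
 (c (a (nat_lit 0xf352f294a0ec8c7)) e e))
 (c (a (nat_lit 0x1464c080438365))
 (c (a (nat_lit 0x8122d09cca50007)) e e)
 (c (a (nat_lit 0x131c1bda39dc82)) e
 (c (a (nat_lit 0xa4a0d6d0db204)) e
 (c (a (nat_lit 0xb72d2939c83a4)) e
 (c z e
 (c z e
 (c (a (nat_lit 0x44c849895126)) e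
 (c (a (nat_lit 0x1e2eefceafcfa4)) e
 (c (a (nat_lit 0x321c2a42001)) e e))))))))))
 (c (a (nat_lit 0x2001))
 (c (a (nat_lit 0x13a3424240c002))
 (c (a (nat_lit 0x14d0a3c060200005)) e e)
 (c (a (nat_lit 0x1a0c0a080d003)) e
 (c (a (nat_lit 0xaee2df24b2104)) e
 (c (a (nat_lit 0x15d5b5b8a54764)) e
 (c (a (nat_lit 0xee8af0bcbd525)) e
 (c z e
 (c (a (nat_lit 0x1671175d3f2a6)) e
 (c (a (nat_lit 0x386c32433c5)) e
 (c (a (nat_lit 0x169a15f7338005)) e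
 (c (a (nat_lit 0x14ac4740000004)) e e))))))))))
 (c (a (nat_lit 0x6060606061))
 (c (a (nat_lit 0x201c1c55817c2)) e
 (c z e
 (c z e
 (c (b (nat_lit 0x1fe66565227945)) e
 (c (a (nat_lit 0x2eef112755566)) e
 (c z e
 (c (a (nat_lit 0x1cfac18118203)) e
 (c (a (nat_lit 0xf4eb20be00005)) e e))))))))
 (c (a (nat_lit 0x8080808081))
 (c (a (nat_lit 0xfa030ce4e8ea4)) e
 (c (a (nat_lit 0x535130828de5)) e
 (c (a (nat_lit 0x42d6ff0909fa5)) e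
 (c z e
 (c (b (nat_lit 0x1fe18830addb45)) e
 (c (a (nat_lit 0xd4f7350e6a005)) e e))))))
 (c (a (nat_lit 0x10101010101))
 (c (a (nat_lit 0x118f112d6d3be5)) e
 (c (a (nat_lit 0x2400404ef765)) e
 (c (a (nat_lit 0x3626247c73286)) e
 (c (a (nat_lit 0x38488890a9467)) e e))))
 (c (a (nat_lit 0x4040405a43))
 (c (a (nat_lit 0xa0c0a0a237a5)) e e)
 (c (a (nat_lit 0x40404c91c2))
 (c z e
 (c (a (nat_lit 0xa895519a00007)) e
 (c (a (nat_lit 0x195c8000000005)) e e)))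
 (c (a (nat_lit 0x404c538021))
 (c (a (nat_lit 0x10534f40000007)) e
 (c (a (nat_lit 0x11600000000005)) e e))
 (c (a (nat_lit 0x1631510003)) e
 (c (a (nat_lit 0x18512fc02003)) e
 (c (a (nat_lit 0x11b0c0202003)) e
 (c (a (nat_lit 0x10a020202003)) e
 (c (a (nat_lit 0x2020203085)) e
 (c (a (nat_lit 0x2020308265)) e
 (c (a (nat_lit 0x100f16341e5)) e
 (c (a (nat_lit 0x676e8e76705)) e
 (c (a (nat_lit 0x1fc400a02004)) e
 (c (a (nat_lit 0x1062e0802002)) e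
 (c (a (nat_lit 0x722a0a00001)) e
 (c (a (nat_lit 0x20000000001)) e e)))))))))))))))))))))))) Tr.c Tr.e (nat_lit 0) C.cx C.cy
noncomputable def C558 : Tr := beta% (fun (c : Nat → Tr → Tr → Tr) (e : Tr) (z : Nat) (a b : Nat → Nat) =>
 (c (a (nat_lit 0x6060606061))
 (c z
 (c (a (nat_lit 0x642e282720e8044))
 (c z e
 (c z e
 (c z e
 (c z e
 (c z e
 (c z e
 (c z e
 (c (a (nat_lit 0xa06cbfd87458c8887)) e
 (c z e
 (c (a (nat_lit 0xb9c66a94e88000007)) e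
 (c (a (nat_lit 0x130b46c32000000008)) e e)))))))))))
 (c z e
 (c z e
 (c (a (nat_lit 0x104d8e27ac2ff325))
 (c z e
 (c z e
 (c (a (nat_lit 0x17f62aa54ff1454088)) e
 (c (a (nat_lit 0x10cf238ac8e705a888)) e
 (c (a (nat_lit 0x1822692aa2e1a22008)) e e)))))
 (c (a (nat_lit 0xc2ceb7126c10226))
 (c z e
 (c z e
 (c (a (nat_lit 0x16ad8cab23c1abc447)) e
 (c (a (nat_lit 0xb69724a8886e00008)) e e))))
 (c z e
 (c (a (nat_lit 0x44b08e5e051d965)) e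
 (c (a (nat_lit 0x986aa522c715125)) e
 (c z e
 (c (a (nat_lit 0xbafad72528de245)) e
 (c (a (nat_lit 0x1a975d7ed2c517a5)) e
 (c (a (nat_lit 0xf759639aca88006)) e
 (c z e
 (c (a (nat_lit 0x30362c402e6f088)) e
 (c (a (nat_lit 0x16b1b40c8d400006)) e e)))))))))))))))
 (c (a (nat_lit 0x202020203366))
 (c (b (nat_lit 0x14729ffe4e4291c5))
 (c (a (nat_lit 0x86eeca9efb6b249e7)) e
 (c z e
 (c z e
 (c (a (nat_lit 0x972760f08a9c80709)) e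
 (c z e
 (c (a (nat_lit 0xeaeb98a6be8c90d88)) e
 (c z e
 (c (a (nat_lit 0x1d5836a99655a00007)) e e))))))))
 (c z e
 (c z e
 (c (a (nat_lit 0x189b3d5c4ac976c6))
 (c (a (nat_lit 0x11b090ee4ead2b9029)) e e)
 (c z e
 (c z e
 (c z e
 (c (a (nat_lit 0x11f288acafaa2d67)) e
 (c z e
 (c z e
 (c (a (nat_lit 0xfb4b2934e6b69c7)) e e)))))))))))
 (c (a (nat_lit 0x20202034b0c6))
 (c z e
 (c z e
 (c z e
 (c z e
 (c z e
 (c z e
 (c z e
 (c (a (nat_lit 0x5a6ce7b36742a26)) e e))))))))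
 (c (a (nat_lit 0x1818195d25227))
 (c (a (nat_lit 0x2061eabc8c9e86))
 (c z e
 (c (a (nat_lit 0x1e571692ee8c0a7048)) e
 (c z e
 (c z e
 (c (a (nat_lit 0x17094b822000000007)) e e)))))
 (c (a (nat_lit 0x6a504af7537f087)) e
 (c z e
 (c (a (nat_lit 0x4ac8af590cd2be7)) e
 (c (a (nat_lit 0x17869c3848eca7e6)) e
 (c (b (nat_lit 0x3b8f41ff1cea786)) e
 (c z e
 (c (a (nat_lit 0x72263c6446530c8)) e
 (c z e
 (c z e
 (c (a (nat_lit 0x2a54a5800000008)) e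
 (c (a (nat_lit 0x1a2c400000000005)) e e))))))))))))
 (c (a (nat_lit 0x16170ec2c0547))
 (c (a (nat_lit 0x641651b58ce9cc6)) e
 (c z e
 (c z e
 (c z e
 (c (a (nat_lit 0x1073126a3e1c0e27)) e
 (c z e
 (c (a (nat_lit 0x523094885f06dc9)) e
 (c (b (nat_lit 0x28ceffff6df45c8)) e e))))))))
 (c (a (nat_lit 0x2dd58b98aa706))
 (c z e
 (c (a (nat_lit 0x52ad56340248da8)) e e))
 (c (a (nat_lit 0x12cf6f83a3a206))
 (c (a (nat_lit 0x1733b32e71185646)) e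
 (c (a (nat_lit 0x3870444c8275268)) e
 (c z e
 (c z e
 (c (b (nat_lit 0xbfe1da9289e288)) e e)))))
 (c (a (nat_lit 0xdd524848480a5))
 (c (a (nat_lit 0xa28066ec6df2be6)) e
 (c z e
 (c z e
 (c (a (nat_lit 0x5a5df16ad266008)) e e))))
 (c (a (nat_lit 0xb0686c684b4a6))
 (c (a (nat_lit 0x82a696c5309e3a7)) e
 (c (a (nat_lit 0x1e352ac2b826028)) e e))
 (c z e
 (c (a (nat_lit 0x1c1c1d32ca686))
 (c (a (nat_lit 0x1a0d440000000008)) e e)
 (c (a (nat_lit 0xb8b9d7b553786)) e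
 (c z e
 (c (a (nat_lit 0x1d98587ab9d2a6)) e
 (c (a (nat_lit 0x1af259b61bfac4)) e
 (c (a (nat_lit 0x8b08cd2f1e944)) e
 (c (b (nat_lit 0x122d5392aaffe4)) e
 (c (b (nat_lit 0xab0cfc89fffe4)) e
 (c (a (nat_lit 0x11f18de8076785)) e
 (c (a (nat_lit 0x13c920c0200004)) e
 (c (a (nat_lit 0x1441e000000003)) e e)))))))))))))))))))))
 (c (a (nat_lit 0x8080808081))
 (c (a (nat_lit 0xe0e0e0f1af25))
 (c (a (nat_lit 0x701e4ca20457244))
 (c z e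
 (c z e
 (c z e
 (c (a (nat_lit 0xc11eaa307a5850448)) e
 (c (a (nat_lit 0x13504943c867a96988)) e e)))))
 (c z e
 (c z e
 (c (a (nat_lit 0x10d79f91e2ed5605))
 (c (a (nat_lit 0x1295d2f08f0f8c6ac8)) e
 (c (a (nat_lit 0xa748707e9a7032208)) e e))
 (c z e
 (c z e
 (c (a (nat_lit 0x115a15713ebff745)) e
 (c (a (nat_lit 0x16d20d7bbb1532c5)) e
 (c (a (nat_lit 0xac86f4f0945f566)) e
 (c z e
 (c (a (nat_lit 0x13940dc19541fa05)) e e)))))))))))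
 (c (a (nat_lit 0x20203330a767)) e
 (c (a (nat_lit 0x2034116e25a7))
 (c z e
 (c z e
 (c z e
 (c z e
 (c (a (nat_lit 0x925297105afcee6)) e e)))))
 (c (a (nat_lit 0x2df7bb5ea4466))
 (c (a (nat_lit 0x7c7ecb28c2bf846)) e
 (c z e
 (c z e
 (c (a (nat_lit 0x76c6a48efd808e8)) e
 (c (a (nat_lit 0x82825cdd1c611a8)) e
 (c z e
 (c z e
 (c (a (nat_lit 0xc70ca0fa9a26008)) e e))))))))
 (c z e
 (c z e
 (c (a (nat_lit 0x18e8c8c963fb45))
 (c z e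
 (c (a (nat_lit 0x9ee23fdd65a4187)) e e))
 (c (a (nat_lit 0x5252280580b45))
 (c (a (nat_lit 0xd4a5c143024c6c7)) e e)
 (c z e
 (c z e
 (c (a (nat_lit 0x3f28f718f4926)) e
 (c z e
 (c z e
 (c (a (nat_lit 0xfef8df599cc44)) e
 (c (a (nat_lit 0xd0bd4b6e9eaa4)) e
 (c (a (nat_lit 0x13d29f0f51e363)) e
 (c (a (nat_lit 0xdf44c8dc685a4)) e
 (c (a (nat_lit 0x14cccdc7636004)) e
 (c (a (nat_lit 0x1b1d0820000003)) e
 (c (a (nat_lit 0x14e00000000003)) e e))))))))))))))))))))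
 (c (a (nat_lit 0x6060606061))
 (c (a (nat_lit 0x16174f3876306))
 (c z e
 (c z e
 (c z e
 (c z e
 (c z e
 (c z e
 (c (a (nat_lit 0x949d0f0af294906)) e
 (c (a (nat_lit 0xfd0135bddd1e2c6)) e e))))))))
 (c (a (nat_lit 0x175b56f86c2a7)) e
 (c (a (nat_lit 0x12f0cb05222187))
 (c (a (nat_lit 0xb4a512c8c6d1727))
 (c (a (nat_lit 0x1978f6c7a686a00007)) e e)
 (c z e
 (c z e
 (c z e
 (c z e
 (c z e
 (c z e
 (c (a (nat_lit 0xef0b9f628c00007)) e e))))))))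
 (c z e
 (c z e
 (c z e
 (c z e
 (c z e
 (c z e
 (c (a (nat_lit 0x12ac0eaf285186)) e
 (c z e
 (c z e
 (c z e
 (c z e
 (c z e
 (c (a (nat_lit 0x172060a0888021)) e
 (c (a (nat_lit 0x50dcc2b600001)) e e)))))))))))))))))
 C557)))) Tr.c Tr.e (nat_lit 0) C.cx C.cy
noncomputable def C559 : Tr := beta% (fun (c : Nat → Tr → Tr → Tr) (e : Tr) (z : Nat) (a b : Nat → Nat) =>
 (c z
 (c (a (nat_lit 0xd8d8d916460a8e4))
 (c z e
 (c z e
 (c z e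
 (c z e
 (c z e
 (c z e
 (c z e
 (c z e
 (c z e
 (c z e
 (c z e
 (c (a (nat_lit 0x1206162a4e5c55588)) e
 (c (a (nat_lit 0x1e24204c6e459b708)) e
 (c (a (nat_lit 0x4c4c5476e3c3ba7c8)) e e))))))))))))))
 (c (b (nat_lit 0x404b543fe26a45))
 (c z e
 (c z e
 (c z e
 (c z e
 (c z e
 (c z e
 (c z e
 (c z e
 (c (b (nat_lit 0x4295ff1ed68f18487)) e e)))))))))
 (c (a (nat_lit 0x1b35594c16383e5))
 (c z e
 (c z e
 (c z e
 (c z e
 (c z e
 (c z e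
 (c z e
 (c z e
 (c (a (nat_lit 0xaa47cb07a1cbb247)) e e)))))))))
 (c (a (nat_lit 0x179a7361a4048385))
 (c z e
 (c z e
 (c z e
 (c z e
 (c z e
 (c z e
 (c z e
 (c (a (nat_lit 0x11d26ff06625c8d327)) e e))))))))
 (c z e
 (c (a (nat_lit 0x10834262a4ab2465))
 (c z e
 (c (a (nat_lit 0x7e7a48686b7f31a68)) e e))
 (c (a (nat_lit 0xc01e287f1862124))
 (c (a (nat_lit 0x282a0c16da54e97c8)) e
 (c z e
 (c z e
 (c z e
 (c z e
 (c z e
 (c (a (nat_lit 0x12956885a000000009)) e e)))))))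
 (c z e
 (c z e
 (c (a (nat_lit 0xf9e18181e2c0b85))
 (c (a (nat_lit 0x15a2c703ec62816007)) e e)
 (c (a (nat_lit 0x1913f55ba908d045)) e
 (c z e
 (c (a (nat_lit 0x14fb4b8a91d427e5)) e
 (c (b (nat_lit 0x12c9e9cd6e9fffe6)) e
 (c z e
 (c z e
 (c (a (nat_lit 0xe594f27c7c6a184)) e
 (c (a (nat_lit 0x1e340ccc4ae605a4)) e e))))))))))))))))))
 (c z
 (c z e
 (c z e
 (c z e
 (c z e
 (c z e
 (c z e
 (c z e
 (c z e
 (c z e
 (c z e
 (c z e
 (c z e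
 (c z e
 (c z e
 (c z e
 (c z e
 (c z e
 (c (a (nat_lit 0x13570b02c0000004)) e e))))))))))))))))))
 (c z
 (c z e
 (c (a (nat_lit 0x18e6a5e602350e26))
 (c z e
 (c z e
 (c z e
 (c z e
 (c z e
 (c z e
 (c z e
 (c (a (nat_lit 0x14314c8f34fc0caba8)) e e))))))))
 (c z e
 (c z e
 (c z e
 (c z e
 (c z e
 (c z e
 (c z e
 (c z e
 (c z e
 (c z e
 (c z e
 (c z e
 (c z e
 (c (a (nat_lit 0xd53052501400005)) e e))))))))))))))))
 (c z
 (c (a (nat_lit 0x9e964419ff8fa24))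
 (c z e
 (c z e
 (c z e
 (c (a (nat_lit 0xa4aa8ec96ef034909)) e
 (c (a (nat_lit 0x503c4af108640a6c9)) e
 (c z e
 (c (a (nat_lit 0x6ed262e8a52a32388)) e
 (c (a (nat_lit 0x144acbcffb21666ec7)) e e))))))))
 (c z e
 (c z e
 (c (a (nat_lit 0x8746aabe6dc90e6))
 (c z e
 (c z e
 (c z e
 (c z e
 (c (a (nat_lit 0xbd0860fd140000008)) e e)))))
 (c z e
 (c z e
 (c z e
 (c (a (nat_lit 0xa53f55af1280846)) e
 (c (a (nat_lit 0x1513ba2e056140e6)) e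
 (c z e
 (c (a (nat_lit 0x1a7411534e0d4a26)) e
 (c z e
 (c z e
 (c (a (nat_lit 0x120a6f0267014005)) e
 (c (a (nat_lit 0xed32725a0000005)) e e)))))))))))))))
 (c z e
 (c (a (nat_lit 0x202020203526))
 (c (a (nat_lit 0xad2e5832044dfe5))
 (c (a (nat_lit 0x96f318d4b8c994ac7)) e
 (c (a (nat_lit 0x106daca826a8c52649)) e
 (c z e
 (c (a (nat_lit 0x160a8850a7c887a3c8)) e e))))
 (c (a (nat_lit 0xf896c694d3d7d46))
 (c (a (nat_lit 0x15be186a4563e95588)) e e)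
 (c z e
 (c z e
 (c z e
 (c z e
 (c (b (nat_lit 0x4eb59dfe5c7f365)) e
 (c (a (nat_lit 0xa4f2c6848d15787)) e
 (c (a (nat_lit 0x7c5c60664adb4a7)) e e)))))))))
 (c (a (nat_lit 0x202020359406))
 (c (a (nat_lit 0x2926266f7ccd45))
 (c (a (nat_lit 0x105224e44366abc6a8)) e
 (c (a (nat_lit 0x1a0eca6628d4772ce9)) e e))
 (c z e
 (c z e
 (c z e
 (c z e
 (c z e
 (c (a (nat_lit 0x54523232770c6a8)) e
 (c (a (nat_lit 0x585258593907428)) e e))))))))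
 (c (a (nat_lit 0x121213d1ad9c6))
 (c z e
 (c z e
 (c z e
 (c z e
 (c z e
 (c (a (nat_lit 0x16141662ceb3768)) e
 (c (a (nat_lit 0x5e5a791347376a8)) e e)))))))
 (c (b (nat_lit 0x2031eceb1fe6)) e
 (c (a (nat_lit 0x170cf56a02365))
 (c (a (nat_lit 0xdf08decb25fa906)) e
 (c (a (nat_lit 0x8adecf3fac694c7)) e e))
 (c (a (nat_lit 0x1193b2e487c805))
 (c (a (nat_lit 0x12919958e8ca2ee6)) e e)
 (c z e
 (c (a (nat_lit 0xb844606271206))
 (c (a (nat_lit 0x7afd00504400009)) e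
 (c (a (nat_lit 0x14d4428000000009)) e e))
 (c (a (nat_lit 0x526e707f30ea6))
 (c (a (nat_lit 0x1883600000000008)) e e)
 (c (a (nat_lit 0x6e7283934d286)) e
 (c z e
 (c (a (nat_lit 0x7b6ed6a8ac3c5)) e
 (c (a (nat_lit 0x174e0b0ac403c5)) e
 (c (a (nat_lit 0x1590afe0a0cac4)) e
 (c (a (nat_lit 0xd8d4060ab3144)) e
 (c (a (nat_lit 0xd00404a713044)) e
 (c (a (nat_lit 0xaaa92fbbac824)) e e))))))))))))))))))))))) Tr.c Tr.e (nat_lit 0) C.cx C.cy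
noncomputable def C560 : Tr := beta% (fun (c : Nat → Tr → Tr → Tr) (e : Tr) (z : Nat) (a b : Nat → Nat) =>
 (c z
 (c (a (nat_lit 0x1a56d706a5e5c083))
 (c z e
 (c z e
 (c z e
 (c z e
 (c z e
 (c z e
 (c z e
 (c (a (nat_lit 0x346e424e3e6d866c6)) e
 (c (a (nat_lit 0x8a78a052b79afcb26)) e e)))))))))
 (c (a (nat_lit 0x1454ea6a09e3bfe4))
 (c z e
 (c z e
 (c z e
 (c (a (nat_lit 0x72c76134d9e1f12e7)) e
 (c (a (nat_lit 0x77927e66cd8176a67)) e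
 (c (a (nat_lit 0xb65a5ea25641f0826)) e
 (c (a (nat_lit 0xa4a2b2c45ba2ef3c7)) e
 (c z e
 (c (a (nat_lit 0x985660f25746caa87)) e e)))))))))
 (c z e
 (c (a (nat_lit 0x7c7670af8900024))
 (c z e
 (c (a (nat_lit 0x10698b357c5a5068a7)) e
 (c (a (nat_lit 0x6a8a87636ab051c27)) e
 (c z e
 (c (a (nat_lit 0x24623b4c64b6a6407)) e
 (c z e
 (c z e
 (c (a (nat_lit 0x1557ad47a000000007)) e e))))))))
 (c (a (nat_lit 0x8a8c8fb314229a4))
 (c z e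
 (c z e
 (c z e
 (c (a (nat_lit 0x136b56aa4b0e6a4b67)) e
 (c z e
 (c z e
 (c (a (nat_lit 0x1cef6b200000000007)) e e)))))))
 (c z e
 (c (a (nat_lit 0x57c0bccb59cdba3)) e
 (c (a (nat_lit 0x1be58275543edea3)) e
 (c (a (nat_lit 0xd4e923234d48f85)) e
 (c z e
 (c (a (nat_lit 0x12b45ab7eac08324)) e
 (c (a (nat_lit 0x1538786f47c8ea85)) e
 (c z e
 (c (a (nat_lit 0x172c169b974e4864)) e e))))))))))))))
 (c z
 (c (a (nat_lit 0x12aded4da9f50d24))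
 (c z e
 (c z e
 (c z e
 (c (a (nat_lit 0x52c8b886fb54b0787)) e e))))
 (c z e
 (c z e
 (c (a (nat_lit 0xa682ac80e2099a3)) e
 (c (b (nat_lit 0xc10dff185f6bc64)) e
 (c z e
 (c (a (nat_lit 0x85a5a92fd2e5a4)) e
 (c (a (nat_lit 0x182e5989dc50123)) e
 (c z e
 (c (a (nat_lit 0xd0f722b08894165)) e
 (c (a (nat_lit 0x1776b0498c8911a4)) e
 (c z e
 (c (a (nat_lit 0xdd65afa90102ca4)) e e)))))))))))))
 (c z
 (c z e
 (c z e
 (c (a (nat_lit 0xd4688c6c4a91285))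
 (c (a (nat_lit 0x1196d697527270d867)) e e)
 (c z e
 (c z e
 (c z e
 (c z e
 (c (a (nat_lit 0xeddfe97a84c2984)) e
 (c (a (nat_lit 0x126ccfc849e0e6a5)) e
 (c (a (nat_lit 0x18995ad89b398cc4)) e
 (c z e
 (c (a (nat_lit 0x5e6480708aa3965)) e e))))))))))))
 (c z
 (c z e
 (c (a (nat_lit 0x6e7064605a5d045))
 (c z e
 (c (a (nat_lit 0x1049676e8ca3a94fe8)) e
 (c (a (nat_lit 0x15ee6a0e692df04687)) e e)))
 (c (a (nat_lit 0x52cecac4c569225))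
 (c (a (nat_lit 0x11513ab8c9b212b5e7)) e e)
 (c (a (nat_lit 0x6c68585bf369e44)) e
 (c (a (nat_lit 0xc0404e09908bc5)) e
 (c (a (nat_lit 0x1818d8b522b84c5)) e
 (c (a (nat_lit 0x1a7c89029e30065)) e
 (c (a (nat_lit 0xcee959046c40ec5)) e
 (c (a (nat_lit 0x896124906894125)) e
 (c (a (nat_lit 0x17767331d2b13da6)) e
 (c (a (nat_lit 0x78424e708153886)) e e)))))))))))
 (c (a (nat_lit 0x202020203823))
 (c (a (nat_lit 0xf35d55474755443))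
 (c z e
 (c (a (nat_lit 0x12574a6767ec993387)) e e))
 (c (a (nat_lit 0x19f958383cb40244)) e
 (c z e
 (c (a (nat_lit 0x9ef0f8dd29af884)) e
 (c (a (nat_lit 0xcaccbd2173632c4)) e
 (c (a (nat_lit 0xb6d9013d24d6c45)) e
 (c (a (nat_lit 0x9eb910bc68c74e5)) e
 (c (a (nat_lit 0x7ace6e4e34f35c5)) e
 (c (a (nat_lit 0x7c567a62d709a26)) e
 (c (a (nat_lit 0x3a5a56e33b88006)) e e))))))))))
 (c (a (nat_lit 0x404040579923))
 (c z e
 (c z e
 (c z e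
 (c z e
 (c (a (nat_lit 0x5460766468a72c6)) e
 (c (a (nat_lit 0x526a5446832cac6)) e
 (c (a (nat_lit 0x827e86874516426)) e
 (c (a (nat_lit 0x2444392d5104946)) e e))))))))
 (c (a (nat_lit 0x2020382f0ae3))
 (c z e
 (c z e
 (c (a (nat_lit 0xa030d86d75dd8a3)) e
 (c (a (nat_lit 0x16a6520f455dd83)) e
 (c (a (nat_lit 0xc6a6af0f0ee1d25)) e
 (c z e
 (c z e
 (c (a (nat_lit 0x868b07cc0000006)) e e))))))))
 (c (b (nat_lit 0x1939343feb0281))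
 (c (a (nat_lit 0x2104e767885505)) e
 (c (a (nat_lit 0x1a68c4f521de505)) e
 (c z e
 (c (a (nat_lit 0x6870a50e66dc906)) e
 (c (a (nat_lit 0x8aaefcdb7328026)) e
 (c z e
 (c (a (nat_lit 0x13307ce000000006)) e e)))))))
 (c (a (nat_lit 0x1af42debe475a1))
 (c z e
 (c (a (nat_lit 0x7ac1455eeeaf405)) e
 (c z e
 (c (a (nat_lit 0xd2c6ff3bda38006)) e e))))
 (c (a (nat_lit 0x1a0baaaabbf981))
 (c z e
 (c z e
 (c (a (nat_lit 0xbd5f437e6e00006)) e e)))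
 (c (a (nat_lit 0xe0f0d95357522))
 (c (a (nat_lit 0xc2fefb6e927c006)) e
 (c (a (nat_lit 0xdb77ea260000006)) e e))
 (c (a (nat_lit 0x2a3a5a5a5b5c4))
 (c (a (nat_lit 0xff5e16000000006)) e e)
 (c (a (nat_lit 0x42606261648e4)) e
 (c (a (nat_lit 0x12141594bedc4)) e
 (c (a (nat_lit 0x363bd4268c7a3)) e
 (c (a (nat_lit 0x23d02c6652223)) e
 (c (a (nat_lit 0x1aa0e382606063)) e
 (c (a (nat_lit 0x26f0a4161a841)) e
 (c (a (nat_lit 0xfeb20c1095da1)) e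
 (c (a (nat_lit 0xae101685e0f01)) e
 (c (a (nat_lit 0x141a85e67c001)) e e)))))))))))))))))))))) Tr.c Tr.e (nat_lit 0) C.cx C.cy
noncomputable def C561 : Tr := beta% (fun (c : Nat → Tr → Tr → Tr) (e : Tr) (z : Nat) (a b : Nat → Nat) =>
 (c z
 (c z e
 (c z
 (c (a (nat_lit 0xdcff1d1f2bad898c4)) e
 (c z e
 (c z e
 (c z e
 (c z e
 (c z e
 (c z e
 (c z e
 (c z e
 (c z e
 (c z e
 (c z e
 (c z e
 (c (a (nat_lit 0x32303a44343d03ca6)) e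
 (c (a (nat_lit 0x4c525a5a509346b47)) e e)))))))))))))))
 (c z
 (c z e
 (c z e
 (c z e
 (c z e
 (c z e
 (c z e
 (c z e
 (c z e
 (c z e
 (c z e
 (c z e
 (c z e
 (c (a (nat_lit 0x22222e2c2892f7127)) e e)))))))))))))
 (c z
 (c z e
 (c z e
 (c z e
 (c z e
 (c z e
 (c z e
 (c z e
 (c z e
 (c z e
 (c z e
 (c (a (nat_lit 0x241204161c33174a6)) e
 (c (a (nat_lit 0x322e2c306ad11e467)) e e))))))))))))
 (c z
 (c z e
 (c z e
 (c z e
 (c z e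
 (c z e
 (c z e
 (c z e
 (c z e
 (c z e
 (c (a (nat_lit 0x48386656691d3a8c6)) e e))))))))))
 (c (a (nat_lit 0x55370e1c0660582)) e
 (c z e
 (c z e
 (c z e
 (c z e
 (c z e
 (c z e
 (c z e
 (c z e
 (c (a (nat_lit 0x1c7d9c4ecf72cea2)) e
 (c (a (nat_lit 0x15565494f6c80523)) e e))))))))))))))))
 (c z
 (c (a (nat_lit 0x16d6d6d6cec90163))
 (c (a (nat_lit 0xe0f2f30d5955638c5)) e
 (c z e
 (c z e
 (c z e
 (c z e
 (c z e
 (c z e
 (c z e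
 (c z e
 (c z e
 (c z e
 (c (a (nat_lit 0x68522e5658ff2b286)) e
 (c (a (nat_lit 0x201c1e1e324e3d148)) e
 (c (a (nat_lit 0x202a2c3446a73d4e8)) e e))))))))))))))
 (c (a (nat_lit 0x666666ef3878604))
 (c z e
 (c z e
 (c z e
 (c z e
 (c z e
 (c z e
 (c z e
 (c z e
 (c (a (nat_lit 0xa262c8b73adad5c06)) e
 (c z e
 (c (a (nat_lit 0x3a041652868ac7ea7)) e
 (c (a (nat_lit 0x2c202a586643e7f28)) e e))))))))))))
 (c (a (nat_lit 0x3839192b0c22764))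
 (c z e
 (c z e
 (c z e
 (c z e
 (c z e
 (c z e
 (c z e
 (c (a (nat_lit 0x74b6b2da94a316506)) e
 (c z e
 (c z e
 (c (a (nat_lit 0x22103a3e43b3e8988)) e e)))))))))))
 (c (a (nat_lit 0x3f7164f0247c864))
 (c z e
 (c z e
 (c z e
 (c z e
 (c z e
 (c z e
 (c z e
 (c z e
 (c (a (nat_lit 0x204c8c889b6211027)) e
 (c (a (nat_lit 0x183e4630f7026a688)) e
 (c (a (nat_lit 0x4a40b9313a5000008)) e e)))))))))))
 (c (a (nat_lit 0x1edd8ec326466844))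
 (c z e
 (c z e
 (c z e
 (c z e
 (c (a (nat_lit 0x585c4a7028a4d7547)) e
 (c (a (nat_lit 0x56667852bc1d448e7)) e
 (c (a (nat_lit 0x84a47c9c40b70e747)) e
 (c (a (nat_lit 0x88befedefa5519347)) e e))))))))
 (c (a (nat_lit 0x1532eca5c5e7d264))
 (c z e
 (c (a (nat_lit 0xf0eedeca9287f9307)) e
 (c (a (nat_lit 0xa0946c7a6f5927807)) e
 (c (a (nat_lit 0x663a3e386ecb913e7)) e
 (c (a (nat_lit 0x362a2e70252e58548)) e
 (c z e
 (c z e
 (c (a (nat_lit 0xac83e9ae4ad800007)) e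
 (c (a (nat_lit 0xe5ffe630000000007)) e e)))))))))
 (c (a (nat_lit 0x10686282a4ac6104))
 (c (a (nat_lit 0x506c2e300b6e9df06)) e
 (c (a (nat_lit 0x3a3e404ef8c8f15c8)) e
 (c z e
 (c z e
 (c (a (nat_lit 0x61081ac9410ad95c7)) e
 (c z e
 (c (a (nat_lit 0x2cf32654640000008)) e
 (c (a (nat_lit 0x139785000000000008)) e e))))))))
 (c (a (nat_lit 0x7a5e6483521e384))
 (c z e
 (c z e
 (c z e
 (c z e
 (c z e
 (c (a (nat_lit 0x1b7e654a0000000007)) e e))))))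
 (c z e
 (c (a (nat_lit 0x6a9330c4becc645))
 (c (a (nat_lit 0x8f928caa9b28a0526)) e e)
 (c (a (nat_lit 0xb946dceef68c8c5)) e
 (c z e
 (c (a (nat_lit 0xf2fd0a9090eac65)) e
 (c (a (nat_lit 0x1dbff2d11c562004)) e
 (c (b (nat_lit 0x1994549ff0a542e5)) e
 (c (a (nat_lit 0xc6c718ae6a04025)) e e))))))))))))))))
 (c z
 (c (a (nat_lit 0x60680b24843304))
 (c z e
 (c z e
 (c z e
 (c z e
 (c z e
 (c z e
 (c z e
 (c z e
 (c z e
 (c z e
 (c (a (nat_lit 0x422c7c746b035ec86)) e e)))))))))))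
 (c (a (nat_lit 0xb3b4cf45397144))
 (c z e
 (c z e
 (c z e
 (c z e
 (c z e
 (c z e
 (c z e
 (c (a (nat_lit 0xa1e7a2a326a1d227)) e
 (c (a (nat_lit 0xd8d4c8f8bacf83d46)) e
 (c (a (nat_lit 0x2a2e502887ba7f127)) e e))))))))))
 (c (a (nat_lit 0x1cbd90c77870ca64))
 (c z e
 (c z e
 (c z e
 (c z e
 (c z e
 (c (a (nat_lit 0x24b67ab68020fb766)) e
 (c (a (nat_lit 0x24624e467a1ddaca7)) e
 (c z e
 (c (a (nat_lit 0x665a328e9c5b04e67)) e e)))))))))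
 (c z e
 (c z e
 (c z e
 (c z e
 (c z e
 (c z e
 (c z e
 (c z e
 (c (a (nat_lit 0x18539633d44fea64)) e
 (c (a (nat_lit 0x18d8f8d6d1864004)) e
 (c (a (nat_lit 0x1b3bdbb3f42c6b85)) e e))))))))))))))
 C560)))) Tr.c Tr.e (nat_lit 0) C.cx C.cy
noncomputable def C562 : Tr := beta% (fun (c : Nat → Tr → Tr → Tr) (e : Tr) (z : Nat) (a b : Nat → Nat) =>
 (c (nat_lit 1)
 (c (a (nat_lit 0xa0a0a0a0a1)) C561
 (c (a (nat_lit 0x8080808081)) C559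
 (c (a (nat_lit 0x6060606061))
 (c z
 (c (a (nat_lit 0x108e08657084c224))
 (c z e
 (c z e
 (c z e
 (c z e
 (c z e
 (c z e
 (c z e
 (c z e
 (c (a (nat_lit 0x16302218341f44e07)) e e)))))))))
 (c z e
 (c z e
 (c z e
 (c z e
 (c z e
 (c z e
 (c z e
 (c z e
 (c z e
 (c (a (nat_lit 0x10f1f1d12fae6585)) e
 (c z e
 (c (a (nat_lit 0x18f4b7186f0088c5)) e
 (c z e
 (c z e
 (c z e
 (c (a (nat_lit 0x158529e840400004)) e e)))))))))))))))))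
 (c z
 (c z e
 (c z e
 (c z e
 (c z e
 (c z e
 (c z e
 (c z e
 (c z e
 (c z e
 (c (a (nat_lit 0x11d514112ae5c126)) e
 (c (a (nat_lit 0x12afb00d8e43c027)) e
 (c z e
 (c (a (nat_lit 0xbaff22da8286007)) e e)))))))))))))
 (c z
 (c z e
 (c z e
 (c z e
 (c z e
 (c z e
 (c z e
 (c z e
 (c z e
 (c (b (nat_lit 0x108e7fffe020e8c6)) e e)))))))))
 (c (a (nat_lit 0x2020202031a6))
 (c z e
 (c z e
 (c z e
 (c z e
 (c z e
 (c z e
 (c z e
 (c (a (nat_lit 0x174f4dcc2b530066)) e e))))))))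
 (c (a (nat_lit 0x2020203513c6))
 (c z e
 (c (a (nat_lit 0x6e5c68913923067)) e
 (c z e
 (c z e
 (c z e
 (c z e
 (c (b (nat_lit 0x8daecdff6868065)) e
 (c (b (nat_lit 0x14b1e0bffcc4a466)) e
 (c (a (nat_lit 0x3c1044543cd5548)) e e)))))))))
 (c (a (nat_lit 0x20203bba9666))
 (c (b (nat_lit 0xe547dffffa5585))
 (c (a (nat_lit 0x13e888ca26706bb108)) e e)
 (c z e
 (c z e
 (c z e
 (c z e
 (c z e
 (c (a (nat_lit 0xa03256dacaed587)) e
 (c (a (nat_lit 0x202e305eaae30c9)) e e))))))))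
 (c (a (nat_lit 0x203cd6126a66)) e
 (c (a (nat_lit 0x2d0d06da74d26))
 (c (a (nat_lit 0x101359f12ed38c05)) e e)
 (c z e
 (c z e
 (c z e
 (c z e
 (c z e
 (c z e
 (c z e
 (c z e
 (c z e
 (c (a (nat_lit 0x1aa261606215c3)) e
 (c (a (nat_lit 0x2c1c0e0d652e3)) e e)))))))))))))))))))
 C558)))
 (c (nat_lit 1) C556
 (c (a (nat_lit 0x20202021)) C554
 (c (a (nat_lit 0x20202021))
 (c (a (nat_lit 0x20002001))
 (c (a (nat_lit 0x16161714ced46))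
 (c (a (nat_lit 0xfeced89f953af43))
 (c z e
 (c z e
 (c z e
 (c z e
 (c (a (nat_lit 0x11976dc6ec2aed9087)) e
 (c (a (nat_lit 0x14cfca89e42b8b4727)) e
 (c z e
 (c (a (nat_lit 0x1fc8a98c2b0c2aa007)) e e))))))))
 (c z e
 (c z e
 (c (a (nat_lit 0x2a2e3a671cad686))
 (c (a (nat_lit 0xf302da8e92b09e4a8)) e
 (c (a (nat_lit 0xef0ae6a2ae6a865e9)) e e))
 (c (a (nat_lit 0xe67e1885bdc3046))
 (c z e
 (c (a (nat_lit 0x919f807c123ce8007)) e e))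
 (c z e
 (c (a (nat_lit 0x2a530367071eae6)) e
 (c (a (nat_lit 0xdacb4b42ab0f0e6)) e
 (c (a (nat_lit 0x9791851b23cecc5)) e
 (c z e
 (c (a (nat_lit 0x603e225c386f787)) e
 (c (a (nat_lit 0xc8aaccdca4d5ec7)) e
 (c z e
 (c (a (nat_lit 0x24225f020000008)) e
 (c (a (nat_lit 0x15ce200000000006)) e e)))))))))))))))
 (c (a (nat_lit 0x203cd7f548a7)) e
 (c (a (nat_lit 0x21c77f24a6047)) e
 (c (a (nat_lit 0x1edb7bcfc96447))
 (c (a (nat_lit 0x9b5cb526f1a3867))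
 (c (a (nat_lit 0xaea2b6b06ed23bf88)) e
 (c z e
 (c z e
 (c (a (nat_lit 0x1ed72f200000000007)) e e))))
 (c z e
 (c z e
 (c (a (nat_lit 0xbca4f092975f2e8)) e
 (c (a (nat_lit 0x1c84642c92677c8)) e
 (c z e
 (c z e
 (c (a (nat_lit 0x4c8a65d0d2ba228)) e e))))))))
 (c z e
 (c z e
 (c (a (nat_lit 0xd60c0605bb8a5))
 (c (a (nat_lit 0xb8ff65d1a51a707)) e
 (c (a (nat_lit 0x6ac117de9090a28)) e
 (c z e
 (c z e
 (c (a (nat_lit 0x124ac62100000009)) e e)))))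
 (c (a (nat_lit 0x202030cae226))
 (c (a (nat_lit 0x40633e7680ac088)) e
 (c z e
 (c z e
 (c (a (nat_lit 0x1978292000000008)) e e))))
 (c z e
 (c z e
 (c (a (nat_lit 0xaa88fb62f6d86)) e
 (c z e
 (c z e
 (c (a (nat_lit 0x126ced4d2628e6)) e
 (c (a (nat_lit 0xcad111053b1e6)) e
 (c (a (nat_lit 0x4ed2c32ef9925)) e
 (c (a (nat_lit 0xc89316e788885)) e
 (c (a (nat_lit 0x7d00d3743a005)) e e))))))))))))))))))
 C553)
 C552))))) Tr.c Tr.e (nat_lit 0) C.cx C.cy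
noncomputable def C563 : Tr := beta% (fun (c : Nat → Tr → Tr → Tr) (e : Tr) (z : Nat) (a b : Nat → Nat) =>
 (c (nat_lit 1)
 (c (a (nat_lit 0x20202001))
 (c (a (nat_lit 0xa0e0c0c061)) e
 (c (a (nat_lit 0xc1c20201)) e
 (c (a (nat_lit 0x20203ce6)) e
 (c (a (nat_lit 0x20363527)) e
 (c (a (nat_lit 0xb2e9cdd6e68)) e
 (c z e
 (c (a (nat_lit 0x13f3b340a0c8)) e
 (c (a (nat_lit 0x187060602004)) e
 (c (a (nat_lit 0x12a120000004)) e e)))))))))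
 (c (a (nat_lit 0x40406061))
 (c (a (nat_lit 0x40407285)) e
 (c (a (nat_lit 0x2020285368)) e
 (c z e
 (c z e
 (c z e
 (c (a (nat_lit 0x13adabe48529)) e
 (c (a (nat_lit 0x1935e0e00005)) e e)))))))
 (c (a (nat_lit 0x202030c7))
 (c (a (nat_lit 0x606b4955a8)) e e)
 (c (a (nat_lit 0x20310687)) e
 (c (a (nat_lit 0xdd354d228)) e
 (c z e
 (c (a (nat_lit 0x932846007)) e
 (c (a (nat_lit 0x1164802207)) e
 (c (a (nat_lit 0x10802024e4)) e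
 (c z e
 (c z e
 (c z e
 (c (b (nat_lit 0x1fe0a08041)) e
 (c (a (nat_lit 0x806001)) e
 (c (a (nat_lit 0x80a06001)) e
 (c (a (nat_lit 0x20806001)) e
 (c (a (nat_lit 0x60200001)) e e)))))))))))))))))
 (c (nat_lit 1)
 (c (a (nat_lit 0x20202081))
 (c (a (nat_lit 0x2020203c06)) e
 (c (a (nat_lit 0x25531348)) e
 (c z e
 (c z e
 (c z e
 (c (a (nat_lit 0x1a9417520007)) e
 (c (a (nat_lit 0x1a20c0000005)) e e)))))))
 (c (a (nat_lit 0x203061a7))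
 (c (a (nat_lit 0x5711df1e8)) e e)
 (c z e
 (c z e
 (c z e
 (c (a (nat_lit 0xec8117167)) e
 (c (b (nat_lit 0xa4041fe1)) e
 (c z e
 (c z e
 (c z e
 (c (b (nat_lit 0x1fe242a121)) e
 (c (a (nat_lit 0x1418181a1)) e
 (c (a (nat_lit 0xc12381)) e
 (c (a (nat_lit 0x822341)) e
 (c (a (nat_lit 0x60c001)) e
 (c (nat_lit 1) e e))))))))))))))))
 (c (a (nat_lit 0x2021))
 (c (b (nat_lit 0xcc9ff745))
 (c (a (nat_lit 0x4a198d50e7)) e e)
 (c z e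
 (c z e
 (c z e
 (c z e
 (c z e
 (c z e
 (c z e
 (c (b (nat_lit 0x1fe2e52201)) e
 (c (a (nat_lit 0xa0e1b6e2)) e
 (c (a (nat_lit 0x21632141)) e
 (c (a (nat_lit 0x121a0e1)) e
 (c (a (nat_lit 0x1018161)) e
 (c (a (nat_lit 0xa00001)) e e))))))))))))))
 (c (nat_lit 1)
 (c (a (nat_lit 0x935248486))
 (c (a (nat_lit 0x1d3417646947)) e
 (c (a (nat_lit 0x1b94f0062008)) e e))
 (c (a (nat_lit 0x13eaeaeae7))
 (c (a (nat_lit 0x10ac65000008)) e e)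
 (c z e
 (c z e
 (c z e
 (c z e
 (c (b (nat_lit 0x1ff716e685)) e
 (c (a (nat_lit 0x20a144c1)) e
 (c (a (nat_lit 0x2071a4)) e
 (c (a (nat_lit 0x60a0ae81)) e
 (c (a (nat_lit 0xa060c041)) e
 (c (a (nat_lit 0xa04001)) e
 (c (a (nat_lit 0x40000001)) e e)))))))))))))
 (c (nat_lit 1)
 (c (a (nat_lit 0x5053322))
 (c (a (nat_lit 0x196040000006)) e e)
 (c z e
 (c z e
 (c z e
 (c (a (nat_lit 0xab1918747)) e
 (c (a (nat_lit 0x180811ce2)) e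
 (c (a (nat_lit 0x20407342)) e
 (c (a (nat_lit 0x20207024)) e
 (c (a (nat_lit 0x20806061)) e
 (c (a (nat_lit 0x408001)) e
 (c (a (nat_lit 0x20a00001)) e e)))))))))))
 (c (a (nat_lit 0x202021))
 (c z e
 (c z e
 (c (b (nat_lit 0x1ffc3c4023)) e
 (c (a (nat_lit 0x4080b2a2)) e
 (c (a (nat_lit 0x61206101)) e
 (c (a (nat_lit 0x40c0e201)) e
 (c (a (nat_lit 0x80c1c1)) e
 (c (a (nat_lit 0x2060a1c1)) e
 (c (a (nat_lit 0x20c001)) e
 (c (a (nat_lit 0x20000001)) e e))))))))))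
 (c (a (nat_lit 0x202021))
 (c (b (nat_lit 0x1ffe5e6043)) e
 (c (a (nat_lit 0xa0808721)) e
 (c (a (nat_lit 0x40c0e0c1)) e
 (c (a (nat_lit 0x4120c081)) e
 (c (a (nat_lit 0xa0e10141)) e
 (c (a (nat_lit 0xc0c081)) e
 (c (a (nat_lit 0x60604041)) e
 (c (a (nat_lit 0xa0600001)) e e))))))))
 (c (a (nat_lit 0x202021))
 (c (a (nat_lit 0x202021)) e
 (c (a (nat_lit 0x202021)) e
 (c (a (nat_lit 0x20202021)) e
 (c (a (nat_lit 0x20202021)) e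
 (c (a (nat_lit 0x20202021)) e
 (c (a (nat_lit 0x20202001)) e
 (c (a (nat_lit 0x20000001)) e e)))))))
 (c (a (nat_lit 0x202021))
 (c (a (nat_lit 0x20202021)) e
 (c (a (nat_lit 0x20202021)) e
 (c (a (nat_lit 0x20202021)) e
 (c (a (nat_lit 0x20202021)) e
 (c (a (nat_lit 0x20200001)) e e)))))
 (c (a (nat_lit 0x202021))
 (c (a (nat_lit 0x20202021)) e
 (c (a (nat_lit 0x20202021)) e
 (c (a (nat_lit 0x20202001)) e
 (c (a (nat_lit 0x20000001)) e e))))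
 (c (a (nat_lit 0x202021))
 (c (a (nat_lit 0x20202021)) e
 (c (a (nat_lit 0x20200001)) e e))
 (c (a (nat_lit 0x202021))
 (c (a (nat_lit 0x20000001)) e e)
 (c (a (nat_lit 0x202021)) e
 (c (a (nat_lit 0x202021)) e
 (c (a (nat_lit 0x202021)) e
 (c (a (nat_lit 0x202021)) e
 (c (a (nat_lit 0x202021)) e
 (c (a (nat_lit 0x202021)) e
 (c (a (nat_lit 0x2021)) e
 (c (nat_lit 1) e
 (c (a (nat_lit 0x38e4)) e
 (c z e
 (c z e
 (c (a (nat_lit 0x1e002006)) e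
 (c (a (nat_lit 0x2001)) e e)))))))))))))))))))))))))) Tr.c Tr.e (nat_lit 0) C.cx C.cy
noncomputable def C564 : Tr := beta% (fun (c : Nat → Tr → Tr → Tr) (e : Tr) (z : Nat) (a b : Nat → Nat) =>
 (c (a (nat_lit 0x202021))
 (c (a (nat_lit 0x20202021))
 (c (a (nat_lit 0xf7a20202004))
 (c (a (nat_lit 0x13496404080065)) e
 (c z e
 (c z e
 (c z e
 (c z e
 (c (a (nat_lit 0xc621429c622a6)) e
 (c (a (nat_lit 0x7710721204007)) e
 (c (a (nat_lit 0x1d0160a0000007)) e e))))))))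
 (c z e
 (c z e
 (c z e
 (c (b (nat_lit 0x1fff2160a002))
 (c (b (nat_lit 0x1ffff183006004)) e
 (c (a (nat_lit 0x4dca320000004)) e e))
 (c (a (nat_lit 0xa2e482d421))
 (c (a (nat_lit 0xe34000000001)) e e)
 (c (a (nat_lit 0x115140604884)) e
 (c (a (nat_lit 0x2425a59443)) e
 (c (a (nat_lit 0x40404032c7)) e
 (c (a (nat_lit 0x2c2d0fa5668)) e
 (c (a (nat_lit 0x26142ac267)) e
 (c z e
 (c z e
 (c (a (nat_lit 0x1ac920202005)) e
 (c (a (nat_lit 0x126020000004)) e e)))))))))))))))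
 (c (a (nat_lit 0x40404041))
 (c z e
 (c z e
 (c (a (nat_lit 0x3c3f1f1d1a6))
 (c (b (nat_lit 0x1fffdfe524c488)) e
 (c (a (nat_lit 0x61332b04c007)) e e))
 (c (a (nat_lit 0x19a080606004))
 (c (a (nat_lit 0x12458680600006)) e
 (c (a (nat_lit 0x1e778000000005)) e e))
 (c (a (nat_lit 0x14f7834302c5))
 (c (a (nat_lit 0x14e00000000004)) e e)
 (c (a (nat_lit 0x5352f273c4)) e
 (c (a (nat_lit 0x2828081605)) e
 (c z e
 (c z e
 (c z e
 (c z e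
 (c z e
 (c (a (nat_lit 0x16e120200006)) e e)))))))))))))
 (c (a (nat_lit 0x21))
 (c (a (nat_lit 0x2f400a04003))
 (c (b (nat_lit 0x1fea5f22a08045)) e
 (c (a (nat_lit 0xe41e8c284222)) e
 (c (b (nat_lit 0x181ff101a0a005)) e
 (c (a (nat_lit 0x13c2c0000004)) e e))))
 (c (a (nat_lit 0x642a2c2e001))
 (c (a (nat_lit 0x166f8c82812024)) e
 (c (a (nat_lit 0x178960a00006)) e
 (c (a (nat_lit 0x17018000000006)) e e)))
 (c (a (nat_lit 0x107060604045))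
 (c (a (nat_lit 0x1150e8a0000005)) e
 (c (a (nat_lit 0x1e400000000003)) e e))
 (c (a (nat_lit 0x2044dcb0541)) e
 (c (a (nat_lit 0x20808075c6)) e
 (c (a (nat_lit 0xa08e73d0c8)) e e))))))
 (c (a (nat_lit 0x20204041))
 (c (a (nat_lit 0x1575a0c04023))
 (c (a (nat_lit 0x1975d6a1004003)) e
 (c (a (nat_lit 0x10e301a0000006)) e
 (c (a (nat_lit 0x12600000000003)) e e)))
 (c (a (nat_lit 0x1e343e4a241)) e
 (c (a (nat_lit 0x20404053e6)) e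
 (c (a (nat_lit 0x202f1a5247)) e e))))
 (c (a (nat_lit 0x40404041))
 (c (a (nat_lit 0x4060605665)) e
 (c (a (nat_lit 0x2027520ee7)) e e))
 (c (a (nat_lit 0x404041))
 (c (a (nat_lit 0x6e991591a6)) e e)
 (c (a (nat_lit 0x40404041))
 (c (a (nat_lit 0x134fb083a1e7)) e
 (c (a (nat_lit 0x1557346931a7)) e e))
 (c (a (nat_lit 0x60404041))
 (c (a (nat_lit 0x422c3f3b2c5)) e e)
 (c (a (nat_lit 0x202036c5))
 (c z e
 (c z e
 (c (a (nat_lit 0x112240000008)) e e)))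
 (c (a (nat_lit 0x2030a7a5))
 (c (a (nat_lit 0x112ad8600004)) e
 (c (a (nat_lit 0x17e000000006)) e e))
 (c (a (nat_lit 0x1512ac47)) e
 (c z e
 (c z e
 (c (a (nat_lit 0x1bcd202026)) e
 (c (b (nat_lit 0x1a20203fe5)) e
 (c z e
 (c z e
 (c z e
 (c (b (nat_lit 0x1fe200e001)) e
 (c (a (nat_lit 0x160a06001)) e
 (c (a (nat_lit 0x1c1202001)) e
 (c (a (nat_lit 0xc0000001)) e e))))))))))))))))))))))
 (c (nat_lit 1)
 (c (a (nat_lit 0x20202021))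
 (c z e
 (c (a (nat_lit 0x12d5c0602004))
 (c (b (nat_lit 0x1a3fffe0808045)) e
 (c (b (nat_lit 0x1fff81c0402028)) e
 (c (b (nat_lit 0x1ff9a540a06006)) e e)))
 (c (a (nat_lit 0x18a080404023))
 (c (a (nat_lit 0x12a02020202029)) e
 (c (a (nat_lit 0x1f0ce540600006)) e
 (c (a (nat_lit 0x1cc2a000000004)) e e)))
 (c (a (nat_lit 0x12b280404024))
 (c (a (nat_lit 0x19b309c0000004)) e
 (c (a (nat_lit 0x11800000000003)) e e))
 (c (a (nat_lit 0xa1a42240a1)) e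
 (c (a (nat_lit 0x12a2a282821)) e
 (c (a (nat_lit 0x2020203906)) e
 (c z e
 (c z e
 (c z e
 (c z e
 (c (a (nat_lit 0x1dc9c4602005)) e
 (c (a (nat_lit 0x13a040000004)) e e)))))))))))))
 (c (a (nat_lit 0x20202021))
 (c (a (nat_lit 0x1de080a0a043))
 (c (a (nat_lit 0x580080606045)) e
 (c (a (nat_lit 0x1462e1e0402028)) e
 (c (a (nat_lit 0x10206120a00005)) e
 (c (a (nat_lit 0x13214000000004)) e e))))
 (c (a (nat_lit 0x1b5b20808004))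
 (c (a (nat_lit 0x11070740602006)) e
 (c (a (nat_lit 0x168743e0000006)) e
 (c (a (nat_lit 0x11a00000000004)) e e)))
 (c (a (nat_lit 0xc3034361c1)) e
 (c (a (nat_lit 0x3e547858481)) e
 (c (a (nat_lit 0x2020203a86)) e
 (c (a (nat_lit 0x202d9415c8)) e
 (c z e
 (c z e
 (c z e
 (c (a (nat_lit 0x132e0a070707)) e
 (c (a (nat_lit 0x1c2d60600005)) e e)))))))))))
 (c (nat_lit 1)
 (c (a (nat_lit 0x141a1a10001)) e
 (c (a (nat_lit 0x12445a4e661)) e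
 (c (a (nat_lit 0x2020405a26)) e
 (c (a (nat_lit 0x202b5af187)) e
 (c (a (nat_lit 0x42b0e0c51e9)) e e)))))
 (c (a (nat_lit 0x40404021))
 (c (a (nat_lit 0x4040609865)) e
 (c (a (nat_lit 0x20207798a6)) e e))
 (c (a (nat_lit 0x20204041))
 (c (a (nat_lit 0x406b73c886)) e e)
 (c (nat_lit 1)
 (c z e
 (c (a (nat_lit 0x46a47e6da08)) e e))
 (c (a (nat_lit 0x19e6))
 (c (a (nat_lit 0x3c040c47908)) e e)
 (c (b (nat_lit 0x2035ffe5)) e
 (c z e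
 (c z e
 (c (a (nat_lit 0xbd7ee47e7)) e
 (c (a (nat_lit 0x1026602127)) e
 (c (a (nat_lit 0x18e023e165)) e
 (c z e
 (c z e
 (c z e
 (c (b (nat_lit 0x1fe1802001)) e
 (c (a (nat_lit 0x160202001)) e
 (c (a (nat_lit 0x60406001)) e
 (c (a (nat_lit 0x40600001)) e e))))))))))))))))))))
 (c (nat_lit 1)
 (c (a (nat_lit 0x20202021))
 (c (a (nat_lit 0x1e1c1c1c141))
 (c z e
 (c (a (nat_lit 0x1981016160c003)) e e))
 (c (a (nat_lit 0x180c2228141)) e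
 (c (a (nat_lit 0xa1e24201c1)) e
 (c (a (nat_lit 0x1a202216121)) e
 (c (a (nat_lit 0x2020203806)) e
 (c (a (nat_lit 0x202d5334e8)) e
 (c z e
 (c z e
 (c (a (nat_lit 0x1cf6f4490866)) e
 (c (a (nat_lit 0x19f2e480a005)) e
 (c (a (nat_lit 0x13c280000005)) e e)))))))))))
 (c (a (nat_lit 0x20202041))
 (c (a (nat_lit 0x222a301e0a1)) e
 (c (a (nat_lit 0x1c1c2a3c501)) e
 (c (a (nat_lit 0x2020203247)) e
 (c (a (nat_lit 0x20202618a8)) e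
 (c (a (nat_lit 0x56d7037b369)) e
 (c z e
 (c z e
 (c (a (nat_lit 0x11940dc6c6c7)) e
 (c (a (nat_lit 0x190c20400006)) e e)))))))))
 (c (a (nat_lit 0x80604041))
 (c (a (nat_lit 0x2040607ba5)) e
 (c (a (nat_lit 0x2034f227)) e
 (c z e
 (c z e
 (c z e
 (c z e
 (c (a (nat_lit 0x122543a0a008)) e e)))))))
 (c (a (nat_lit 0x60204021))
 (c (a (nat_lit 0x409c7bc8c6)) e e)
 (c (a (nat_lit 0x2034a5))
 (c (a (nat_lit 0x4aa8ba4d108)) e
 (c (a (nat_lit 0x807e78dd0c9)) e e))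
 (c (a (nat_lit 0x37bca5))
 (c (a (nat_lit 0x8027958de8)) e e)
 (c (a (nat_lit 0xacd6f71a7)) e
 (c z e
 (c (a (nat_lit 0x952e56307)) e
 (c (a (nat_lit 0x1002602007)) e
 (c (a (nat_lit 0x13406127a4)) e
 (c z e
 (c z e
 (c z e
 (c (b (nat_lit 0x1fe0a00001)) e
 (c (a (nat_lit 0xc0402001)) e
 (c (a (nat_lit 0x100804001)) e
 (c (a (nat_lit 0x80600001)) e
 (c (a (nat_lit 0x80000001)) e e)))))))))))))))))))
 C563)))) Tr.c Tr.e (nat_lit 0) C.cx C.cy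
noncomputable def C565 : Tr := beta% (fun (c : Nat → Tr → Tr → Tr) (e : Tr) (z : Nat) (a b : Nat → Nat) =>
 (c (a (nat_lit 0x20202021))
 (c (a (nat_lit 0x2020203a25))
 (c (a (nat_lit 0x3202020203d65))
 (c (a (nat_lit 0x220202034938be5)) e
 (c (a (nat_lit 0x180202537d103e7)) e
 (c (a (nat_lit 0x260db651506f26)) e
 (c (a (nat_lit 0x8c1149862524c7)) e
 (c (a (nat_lit 0x12eec8ccc8e76a06)) e
 (c (a (nat_lit 0x10a8a4a40482c007)) e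
 (c (a (nat_lit 0x1741e2e1a0000005)) e e)))))))
 (c (a (nat_lit 0x202025b2ac47))
 (c (a (nat_lit 0x2021158fc52228)) e
 (c (a (nat_lit 0x25b1b26d0602e8)) e e))
 (c (a (nat_lit 0x2626630904b87)) e
 (c z e
 (c z e
 (c (a (nat_lit 0x134a63c2a2a367)) e
 (c (a (nat_lit 0x1c614080645de5)) e
 (c z e
 (c z e
 (c z e
 (c (a (nat_lit 0x2856706271428)) e
 (c (a (nat_lit 0x72547e3fa2006)) e e))))))))))))
 (c (a (nat_lit 0x2020314747))
 (c (a (nat_lit 0x202594b04ce7))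
 (c (a (nat_lit 0x10150ece6884048)) e e)
 (c z e
 (c z e
 (c z e
 (c z e
 (c z e
 (c z e
 (c z e
 (c z e
 (c (a (nat_lit 0x80709cbf22e89)) e
 (c (a (nat_lit 0x244553a00007)) e e)))))))))))
 (c (a (nat_lit 0x2038cf03a7))
 (c z e
 (c z e
 (c z e
 (c z e
 (c z e
 (c z e
 (c z e
 (c z e
 (c z e
 (c (a (nat_lit 0x317280000007)) e
 (c (a (nat_lit 0x11400000000005)) e e)))))))))))
 (c z e
 (c z e
 (c (a (nat_lit 0x14f112e02186))
 (c (a (nat_lit 0x4936bc4206027)) e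
 (c (a (nat_lit 0x138d674206e0e8)) e e))
 (c (a (nat_lit 0x1b7e20605685))
 (c (a (nat_lit 0xca6e239678207)) e e)
 (c z e
 (c z e
 (c z e
 (c (a (nat_lit 0xd2c5c3c3885)) e
 (c (a (nat_lit 0x100a4a486026)) e
 (c (a (nat_lit 0x20202032a7)) e
 (c (a (nat_lit 0x202412a9a7)) e
 (c (a (nat_lit 0x2412a9a007)) e
 (c z e
 (c (a (nat_lit 0x13e801818187)) e
 (c (a (nat_lit 0x1a0020202005)) e
 (c (a (nat_lit 0x40000001)) e e)))))))))))))))))))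
 (c (a (nat_lit 0x40404061))
 (c (a (nat_lit 0x203970c147))
 (c (a (nat_lit 0x4864f94914827))
 (c (a (nat_lit 0x3ccec48f0066027)) e e)
 (c z e
 (c z e
 (c z e
 (c z e
 (c z e
 (c z e
 (c z e
 (c z e
 (c (a (nat_lit 0xa6fb23436c008)) e
 (c (a (nat_lit 0x1249460000004)) e e)))))))))))
 (c z e
 (c z e
 (c z e
 (c z e
 (c z e
 (c z e
 (c z e
 (c z e
 (c (a (nat_lit 0x17d0f0ea00a7)) e
 (c (a (nat_lit 0x416180bc26)) e
 (c (a (nat_lit 0x20238bf247)) e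
 (c (a (nat_lit 0x23add24bc7)) e
 (c z e
 (c z e
 (c (a (nat_lit 0x1d4b63a04027)) e
 (c (a (nat_lit 0x176700200006)) e e)))))))))))))))))
 (c (a (nat_lit 0x60606061))
 (c z e
 (c z e
 (c z e
 (c z e
 (c z e
 (c z e
 (c z e
 (c (a (nat_lit 0x19f4d4e02126)) e
 (c z e
 (c (a (nat_lit 0x1a2ab0cd4a8)) e
 (c (a (nat_lit 0x24243e9d008)) e e)))))))))))
 (c (a (nat_lit 0x40404041))
 (c z e
 (c z e
 (c z e
 (c z e
 (c z e
 (c (a (nat_lit 0x11c9ac03c3e6)) e e))))))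
 (c (nat_lit 1)
 (c z e
 (c z e
 (c (a (nat_lit 0xed260e0c085))
 (c (b (nat_lit 0x73ffffd418004)) e
 (c (b (nat_lit 0x1fefb8a0000005)) e e))
 (c (a (nat_lit 0x1f3595a345e5))
 (c (a (nat_lit 0x1cb56000000004)) e e)
 (c (a (nat_lit 0x74760607d26)) e
 (c z e
 (c z e
 (c z e
 (c (a (nat_lit 0x448c120d7e6)) e
 (c (a (nat_lit 0x5c1e8f887e6)) e e))))))))))
 (c (a (nat_lit 0x20202021))
 (c (a (nat_lit 0x13e320806044))
 (c (b (nat_lit 0x1ff75246a1c045)) e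
 (c (a (nat_lit 0x115f8c5208005)) e
 (c (b (nat_lit 0x1ff86a00000006)) e e)))
 (c (a (nat_lit 0x106060602004))
 (c (a (nat_lit 0x851b280800005)) e
 (c (a (nat_lit 0x16c9c000000006)) e e))
 (c (a (nat_lit 0x7a901a1b4a6))
 (c (a (nat_lit 0x11e00000000004)) e e)
 (c z e
 (c z e
 (c z e
 (c (a (nat_lit 0x1bdc39928127)) e
 (c (a (nat_lit 0x170221005f84)) e
 (c (a (nat_lit 0x1612b689a46)) e e)))))))))
 (c (a (nat_lit 0x60404041))
 (c (a (nat_lit 0xfafa0405c04))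
 (c (a (nat_lit 0x5ff000000003)) e
 (c (a (nat_lit 0x18e00000000002)) e e))
 (c (a (nat_lit 0x202a125587)) e
 (c z e
 (c z e
 (c z e
 (c (a (nat_lit 0x11d0362e2e88)) e
 (c (a (nat_lit 0x202117e7)) e e)))))))
 (c (a (nat_lit 0x20404041))
 (c (a (nat_lit 0x315b3d3786)) e e)
 (c (a (nat_lit 0x20202021))
 (c (a (nat_lit 0x1c199863c066)) e
 (c (b (nat_lit 0x117ff0a0a5c7)) e
 (c z e
 (c z e
 (c z e
 (c z e
 (c (a (nat_lit 0x1af660000005)) e e)))))))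
 (c (nat_lit 1)
 (c (a (nat_lit 0x5272bc5785)) e
 (c z e
 (c z e
 (c z e
 (c (a (nat_lit 0x1fe808200006)) e
 (c (a (nat_lit 0x4000000001)) e e))))))
 (c (a (nat_lit 0x60402021))
 (c z e
 (c z e
 (c (a (nat_lit 0x1a1467e02006)) e
 (c (a (nat_lit 0x16e060000004)) e e))))
 (c (a (nat_lit 0x40402001))
 (c (b (nat_lit 0x1fe7d7e0a065)) e
 (c (a (nat_lit 0x182a00001)) e
 (c (nat_lit 1) e e)))
 (c (a (nat_lit 0x20203a26))
 (c (a (nat_lit 0x2020000001)) e e)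
 (c (a (nat_lit 0x3a2f06)) e
 (c (a (nat_lit 0x3c919926)) e
 (c z e
 (c (a (nat_lit 0x153f30a1c6)) e
 (c (a (nat_lit 0x1d8f002026)) e
 (c (a (nat_lit 0x1de0202d25)) e
 (c z e
 (c z e
 (c z e
 (c (b (nat_lit 0x1fe0404001)) e
 (c (a (nat_lit 0x806001)) e
 (c (a (nat_lit 0x20000001)) e e)))))))))))))))))))))))))) Tr.c Tr.e (nat_lit 0) C.cx C.cy
noncomputable def C566 : Tr := beta% (fun (c : Nat → Tr → Tr → Tr) (e : Tr) (z : Nat) (a b : Nat → Nat) =>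
 (c (a (nat_lit 0x20202021))
 (c (a (nat_lit 0x20203ca487))
 (c (a (nat_lit 0x16163c710f247))
 (c (a (nat_lit 0x20e88924eb9067)) e e)
 (c z e
 (c z e
 (c z e
 (c z e
 (c z e
 (c z e
 (c z e
 (c z e
 (c z e
 (c (a (nat_lit 0x3a66ef3600008)) e e)))))))))))
 (c (a (nat_lit 0x10684049)) e
 (c z e
 (c z e
 (c z e
 (c z e
 (c z e
 (c z e
 (c z e
 (c z e
 (c (a (nat_lit 0xd2970ee0d88)) e
 (c (a (nat_lit 0x20203c6265)) e
 (c (a (nat_lit 0x2ae7fb07)) e e)))))))))))))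
 (c (a (nat_lit 0x40404041))
 (c z e
 (c z e
 (c z e
 (c z e
 (c z e
 (c z e
 (c z e
 (c (a (nat_lit 0x106ed4f4c006)) e
 (c z e
 (c z e
 (c (a (nat_lit 0x202a15e0e8)) e e)))))))))))
 (c (a (nat_lit 0x20202021))
 (c (a (nat_lit 0x58a71002046))
 (c z e
 (c (b (nat_lit 0x1c14c5a1e39fe7)) e
 (c z e
 (c z e
 (c z e
 (c z e
 (c (a (nat_lit 0xcf523c6800007)) e e)))))))
 (c (a (nat_lit 0xd0fa0e1f007))
 (c (b (nat_lit 0x104581e2641fe8)) e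
 (c z e
 (c z e
 (c z e
 (c (a (nat_lit 0x126670adc6a008)) e
 (c (a (nat_lit 0x124e42e0000008)) e e))))))
 (c z e
 (c z e
 (c z e
 (c (a (nat_lit 0x1e3bde1df9c7)) e
 (c (b (nat_lit 0x1e14f4ffefc6)) e
 (c z e
 (c z e
 (c z e
 (c (a (nat_lit 0xceac4c47407)) e
 (c (a (nat_lit 0x7a0a050e567)) e e))))))))))))
 (c (a (nat_lit 0x40404041))
 (c (a (nat_lit 0x15c0203f59a5))
 (c (a (nat_lit 0x15a74729d8c305)) e
 (c z e
 (c z e
 (c z e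
 (c (a (nat_lit 0x11ed4684200007)) e
 (c (a (nat_lit 0x17e4a000000006)) e e))))))
 (c z e
 (c z e
 (c z e
 (c (a (nat_lit 0x136d8d6293e6)) e
 (c (a (nat_lit 0x2137fef7a7)) e
 (c z e
 (c z e
 (c (a (nat_lit 0x194800a0a0c5)) e
 (c (a (nat_lit 0x3c0202036c6)) e
 (c (a (nat_lit 0x2036ba86)) e e)))))))))))
 (c (a (nat_lit 0x40404041))
 (c z e
 (c (a (nat_lit 0x18eb20c08065))
 (c (a (nat_lit 0x1bc5f410004)) e
 (c (b (nat_lit 0x1ff6b5a0000006)) e e))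
 (c (a (nat_lit 0x9680961d386))
 (c (a (nat_lit 0x1f34000000004)) e e)
 (c z e
 (c z e
 (c z e
 (c (a (nat_lit 0x146e8b668007)) e
 (c (a (nat_lit 0x1b01c040eec4)) e
 (c (a (nat_lit 0x20669a05)) e e)))))))))
 (c (a (nat_lit 0x40404061))
 (c (a (nat_lit 0x840606032c5))
 (c (a (nat_lit 0x3c27620800004)) e
 (c (a (nat_lit 0xc93e000000005)) e e))
 (c (a (nat_lit 0x4852f78f3c7))
 (c (a (nat_lit 0x1f400000000003)) e e)
 (c z e
 (c z e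
 (c z e
 (c (a (nat_lit 0xa06d3ed4e67)) e
 (c (a (nat_lit 0x1420a9b04)) e e)))))))
 (c (a (nat_lit 0x202001))
 (c (a (nat_lit 0x159f197366)) e
 (c z e
 (c z e
 (c z e
 (c z e
 (c z e
 (c z e
 (c z e
 (c (a (nat_lit 0x13ec60000004)) e e)))))))))
 (c (a (nat_lit 0x20202021))
 (c (a (nat_lit 0x116ded83c247)) e
 (c (a (nat_lit 0x187798494aa7)) e
 (c z e
 (c z e
 (c z e
 (c z e
 (c (a (nat_lit 0x114140a00005)) e
 (c (a (nat_lit 0xf8000000001)) e e))))))))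
 (c (a (nat_lit 0x40404041))
 (c (a (nat_lit 0x70988699986)) e
 (c z e
 (c z e
 (c z e
 (c (a (nat_lit 0xe9100206006)) e
 (c (a (nat_lit 0x1ec020000005)) e e))))))
 (c (a (nat_lit 0x40402021))
 (c z e
 (c z e
 (c (a (nat_lit 0xbd7e08160c4)) e
 (c (a (nat_lit 0xae0c0c00001)) e
 (c (nat_lit 1) e e)))))
 (c (a (nat_lit 0x20a1))
 (c (a (nat_lit 0x6c420281046)) e
 (c (a (nat_lit 0x610181e001)) e
 (c (a (nat_lit 0x40000001)) e e)))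
 (c (nat_lit 1)
 (c (a (nat_lit 0x6020000001)) e
 (c (a (nat_lit 0x2000000001)) e e))
 (c (a (nat_lit 0x202033e6)) e
 (c (a (nat_lit 0x2033e7c6)) e
 (c (a (nat_lit 0x85e11d966)) e
 (c z e
 (c (a (nat_lit 0xe16cec246)) e
 (c (a (nat_lit 0x14acc02026)) e
 (c (a (nat_lit 0x1960203785)) e
 (c z e
 (c z e
 (c z e
 (c (a (nat_lit 0x341600001)) e
 (c (a (nat_lit 0x2a0a00001)) e e))))))))))))))))))))))))) Tr.c Tr.e (nat_lit 0) C.cx C.cy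
noncomputable def C567 : Tr := beta% (fun (c : Nat → Tr → Tr → Tr) (e : Tr) (z : Nat) (a b : Nat → Nat) =>
 (c (nat_lit 1)
 (c (a (nat_lit 0x2020202021))
 (c (a (nat_lit 0x180e0e112fea25))
 (c (a (nat_lit 0x16f63b1cfafc5a45)) e
 (c z e
 (c z e
 (c z e
 (c (a (nat_lit 0x7a86d946e0f2947)) e
 (c (a (nat_lit 0x100d484dd7576c06)) e
 (c z e
 (c z e
 (c (a (nat_lit 0x9ae7e6ab1110005)) e
 (c (a (nat_lit 0xa380c4520000006)) e
 (c (a (nat_lit 0x1ae7e00000000006)) e e)))))))))))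
 (c z e
 (c z e
 (c (a (nat_lit 0xccb4020203d25))
 (c z e
 (c z e
 (c (a (nat_lit 0x13b650a93066e027)) e e)))
 (c (a (nat_lit 0xa44040770af46))
 (c (a (nat_lit 0x1617868e14b4a5a7)) e
 (c (b (nat_lit 0x1c04270c593fe5a7)) e e))
 (c (a (nat_lit 0x23fcb6cd85)) e
 (c z e
 (c z e
 (c z e
 (c (a (nat_lit 0x11c903e0caa3c5)) e
 (c (a (nat_lit 0xe2a4952ff1805)) e
 (c z e
 (c z e
 (c (a (nat_lit 0x11a9f2d3bf6705)) e
 (c (a (nat_lit 0x12a0a17400005)) e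
 (c (a (nat_lit 0x170b8000000005)) e e))))))))))))))))
 (c (a (nat_lit 0x2020202021))
 (c (a (nat_lit 0xb95f3c040a0a5))
 (c (a (nat_lit 0xbedb1539391f488))
 (c (a (nat_lit 0x90a6e55533884e008)) e
 (c (a (nat_lit 0xcebcf90ac6000000a)) e e))
 (c (a (nat_lit 0x88a6c0e0f522f2a))
 (c (a (nat_lit 0xe72d5eac00000000a)) e e)
 (c z e
 (c z e
 (c z e
 (c z e
 (c (a (nat_lit 0x1fa58746e9620008)) e e)))))))
 (c (a (nat_lit 0x1834e0202053c6))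
 (c (a (nat_lit 0xccdd7f9bf989489))
 (c (a (nat_lit 0x11d4e7400000000009)) e e) e)
 (c z e
 (c z e
 (c z e
 (c z e
 (c z e
 (c z e
 (c z e
 (c z e
 (c z e
 (c z e
 (c (a (nat_lit 0xa75b7dc02006)) e
 (c (a (nat_lit 0x1d0180c0000004)) e
 (c (a (nat_lit 0x2c00000000001)) e e)))))))))))))))
 (c (a (nat_lit 0x202001))
 (c (a (nat_lit 0x160101206f8825))
 (c (a (nat_lit 0x5aa2aecd12a69a8)) e e)
 (c z e
 (c z e
 (c z e
 (c z e
 (c z e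
 (c z e
 (c z e
 (c z e
 (c z e
 (c z e
 (c (a (nat_lit 0xe9257ecc00008)) e
 (c (a (nat_lit 0x10cb4000000008)) e e)))))))))))))
 (c (a (nat_lit 0x20202033c7))
 (c z e
 (c z e
 (c z e
 (c z e
 (c z e
 (c z e
 (c z e
 (c z e
 (c z e
 (c z e
 (c (a (nat_lit 0x181e9480000007)) e e)))))))))))
 (c (a (nat_lit 0x202033a507))
 (c (a (nat_lit 0xb7142a60da266))
 (c z e
 (c (a (nat_lit 0x11a162e220000008)) e e))
 (c (a (nat_lit 0x1926206d8e60a6))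
 (c (a (nat_lit 0x6d0a7e000000006)) e e)
 (c z e
 (c z e
 (c z e
 (c (a (nat_lit 0x7cbeed0b49588)) e
 (c (a (nat_lit 0x68584a805bc08)) e e)))))))
 (c (a (nat_lit 0x2036eea847))
 (c (a (nat_lit 0x5a113bdbc36a5)) e
 (c z e
 (c z e
 (c z e
 (c (a (nat_lit 0xa89462ae71148)) e
 (c (a (nat_lit 0x823e485f795c8)) e e))))))
 (c (a (nat_lit 0x779028a8c7)) e
 (c z e
 (c z e
 (c (a (nat_lit 0x157c66461586))
 (c (a (nat_lit 0xe524e89a1e007)) e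
 (c (a (nat_lit 0x1db4c700000008)) e e))
 (c (a (nat_lit 0x1b48e8f873c6))
 (c (a (nat_lit 0x10c32000000008)) e e)
 (c z e
 (c z e
 (c (a (nat_lit 0x16ee00202045)) e
 (c (a (nat_lit 0x70020205886)) e
 (c (a (nat_lit 0x20388f86)) e
 (c (a (nat_lit 0x20588f89e6)) e
 (c z e
 (c (a (nat_lit 0x14eda845e5e6)) e
 (c (a (nat_lit 0x1f89a0604004)) e
 (c (a (nat_lit 0x128040000003)) e e)))))))))))))))))))))
 (c (a (nat_lit 0x40404041))
 (c (a (nat_lit 0x6060406061))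
 (c (a (nat_lit 0x19d9a040202564))
 (c (a (nat_lit 0x568a948caee1267)) e
 (c (a (nat_lit 0x7eaaace3010ec29))
 (c (a (nat_lit 0xe5229800000000009)) e e)
 (c z e
 (c z e
 (c z e
 (c (b (nat_lit 0x13af9fe0e0e96388)) e
 (c (a (nat_lit 0x1ef207d3b9200006)) e e)))))))
 (c (a (nat_lit 0xa20202021fc27))
 (c (a (nat_lit 0xdef12489ab58b49))
 (c (a (nat_lit 0x1dcb00000000000008)) e e) e)
 (c z e
 (c z e
 (c z e
 (c z e
 (c (a (nat_lit 0x13d44380a24967)) e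
 (c z e
 (c z e
 (c z e
 (c z e
 (c (b (nat_lit 0x1fe3f2d3d24bc7)) e
 (c (b (nat_lit 0x1fe38292e00007)) e
 (c (a (nat_lit 0x1f402000000006)) e e))))))))))))))
 (c (a (nat_lit 0x2020203768))
 (c (b (nat_lit 0x203fea1028))
 (c (a (nat_lit 0xd31c77b1590a628)) e e)
 (c z e
 (c z e
 (c z e
 (c z e
 (c z e
 (c z e
 (c z e
 (c z e
 (c z e
 (c (b (nat_lit 0x1fe3ccb0f80009)) e
 (c (a (nat_lit 0x11352d00000009)) e
 (c (a (nat_lit 0x10600000000008)) e e)))))))))))))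
 (c (a (nat_lit 0x202038ab28))
 (c z e
 (c z e
 (c z e
 (c z e
 (c z e
 (c z e
 (c z e
 (c z e
 (c z e
 (c z e
 (c (a (nat_lit 0x106ce000000009)) e e)))))))))))
 (c (a (nat_lit 0x1fc7e5a8)) e
 (c z e
 (c z e
 (c (a (nat_lit 0x1a17bc0ec007))
 (c (a (nat_lit 0x10d24ea81b6c68)) e e)
 (c z e
 (c z e
 (c z e
 (c z e
 (c (a (nat_lit 0x159083e3c006)) e
 (c (a (nat_lit 0x19c040203e45)) e
 (c (a (nat_lit 0x202027b0e7)) e
 (c (a (nat_lit 0x23e89128)) e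
 (c z e
 (c z e
 (c (a (nat_lit 0x51100202026)) e
 (c (a (nat_lit 0x10e020200006)) e e)))))))))))))))))))
 C566))) Tr.c Tr.e (nat_lit 0) C.cx C.cy
noncomputable def C568 : Tr := beta% (fun (c : Nat → Tr → Tr → Tr) (e : Tr) (z : Nat) (a b : Nat → Nat) =>
 (c (a (nat_lit 0x20202021))
 (c (a (nat_lit 0x20201d27))
 (c (b (nat_lit 0xb6b7fe2a27105))
 (c (a (nat_lit 0x62c899bdc32ea46)) e e)
 (c z e
 (c z e
 (c z e
 (c z e
 (c z e
 (c z e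
 (c z e
 (c z e
 (c z e
 (c (a (nat_lit 0x92a7b13e007)) e
 (c (a (nat_lit 0x1d3ddda0000006)) e e))))))))))))
 (c (a (nat_lit 0x20203eaa08))
 (c z e
 (c z e
 (c z e
 (c z e
 (c z e
 (c z e
 (c z e
 (c z e
 (c z e
 (c (a (nat_lit 0xa29b28b80000a)) e
 (c (a (nat_lit 0x16d9c000000008)) e e)))))))))))
 (c (a (nat_lit 0x20310541e9)) e
 (c (a (nat_lit 0x172f84c708)) e
 (c z e
 (c z e
 (c z e
 (c z e
 (c z e
 (c z e
 (c (a (nat_lit 0x1b2fe0404da6)) e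
 (c (a (nat_lit 0xfc020505886)) e
 (c (b (nat_lit 0x423bfffffe1)) e e)))))))))))))
 (c (a (nat_lit 0x202021))
 (c (a (nat_lit 0x2035688068))
 (c z e
 (c z e
 (c z e
 (c z e
 (c z e
 (c z e
 (c z e
 (c z e
 (c z e
 (c (a (nat_lit 0x83a1c00000007)) e e))))))))))
 (c z e
 (c z e
 (c z e
 (c z e
 (c z e
 (c z e
 (c z e
 (c z e
 (c (a (nat_lit 0x1672b9dcd227)) e
 (c (b (nat_lit 0x205d6affe6)) e e)))))))))))
 (c (a (nat_lit 0x60604041))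
 (c (a (nat_lit 0x1ee365c9e227))
 (c z e
 (c (a (nat_lit 0x10ad26c3a24049)) e
 (c z e
 (c z e
 (c z e
 (c z e
 (c (a (nat_lit 0xbc894b8642008)) e e)))))))
 (c (a (nat_lit 0x12169f67f426))
 (c (a (nat_lit 0x1270a702a02168)) e
 (c z e
 (c z e
 (c z e
 (c z e
 (c (a (nat_lit 0xfb13404400009)) e e))))))
 (c z e
 (c z e
 (c z e
 (c z e
 (c (a (nat_lit 0x1611b3939207)) e
 (c z e
 (c z e
 (c z e
 (c z e
 (c (a (nat_lit 0xfe4e0205ae7)) e e))))))))))))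
 (c (a (nat_lit 0x20202021))
 (c (a (nat_lit 0x1031424c3ec5))
 (c (a (nat_lit 0x1c89c3a3e06d46)) e
 (c z e
 (c z e
 (c z e
 (c (b (nat_lit 0x71ffc5381c006)) e
 (c (a (nat_lit 0x129e66c0000007)) e e))))))
 (c z e
 (c z e
 (c z e
 (c (a (nat_lit 0x1026e100e826)) e
 (c (a (nat_lit 0xa48b08eade8)) e
 (c z e
 (c z e
 (c z e
 (c (a (nat_lit 0xe2980203006)) e
 (c (a (nat_lit 0x94020301de6)) e e)))))))))))
 (c (nat_lit 1)
 (c z e
 (c z e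
 (c z e
 (c (a (nat_lit 0x9083274b067)) e
 (c z e
 (c z e
 (c z e
 (c (a (nat_lit 0x11ab00206ea6)) e
 (c (a (nat_lit 0x1600607d1b85)) e e)))))))))
 (c (a (nat_lit 0x60606061))
 (c (a (nat_lit 0xda8404031a5))
 (c (b (nat_lit 0x1f615feac02005)) e
 (c (b (nat_lit 0x1ffff9e0000005)) e e))
 (c (a (nat_lit 0x6e4919676a7))
 (c (a (nat_lit 0x1548000000005)) e e)
 (c z e
 (c z e
 (c z e
 (c (a (nat_lit 0x11eeb26ab2c7)) e
 (c (a (nat_lit 0xfc502d60f06)) e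
 (c z e
 (c z e
 (c z e
 (c (a (nat_lit 0x106560000005)) e e)))))))))))
 (c (a (nat_lit 0x60808061))
 (c (a (nat_lit 0x28df0108d27))
 (c (a (nat_lit 0x13000000000003)) e e)
 (c z e
 (c z e
 (c z e
 (c z e
 (c z e
 (c z e
 (c z e
 (c (a (nat_lit 0x126580400005)) e
 (c (a (nat_lit 0x44000000001)) e e))))))))))
 (c (a (nat_lit 0x2021))
 (c (a (nat_lit 0x1958d7cc4a27)) e
 (c (a (nat_lit 0x12d1cf07cc88)) e
 (c z e
 (c z e
 (c z e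
 (c z e
 (c (a (nat_lit 0x158b60602006)) e
 (c (a (nat_lit 0x1a4060000002)) e e))))))))
 (c (a (nat_lit 0x20204041))
 (c (a (nat_lit 0xdc320d3e745)) e
 (c z e
 (c z e
 (c z e
 (c (a (nat_lit 0xd57ebc04f06)) e
 (c (a (nat_lit 0x122020200005)) e
 (c (a (nat_lit 0x10000000001)) e e)))))))
 (c (a (nat_lit 0x2021))
 (c z e
 (c z e
 (c (a (nat_lit 0x1d12a0209f85)) e
 (c (a (nat_lit 0xa0e120c001)) e
 (c (a (nat_lit 0x4060000001)) e e)))))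
 (c (a (nat_lit 0x20204061))
 (c (a (nat_lit 0x6e940605fe5)) e
 (c (a (nat_lit 0x20201c12021)) e
 (c (a (nat_lit 0xa0e0800001)) e
 (c (a (nat_lit 0xc000000001)) e e))))
 (c (a (nat_lit 0x202021))
 (c (a (nat_lit 0x4040402001)) e
 (c (a (nat_lit 0x4040000001)) e e))
 (c (a (nat_lit 0x202021))
 (c (nat_lit 1) e e)
 (c (a (nat_lit 0x202032e6)) e
 (c (a (nat_lit 0x20330566)) e
 (c (a (nat_lit 0x9df4f1786)) e
 (c z e
 (c (a (nat_lit 0x15be39b386)) e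
 (c (a (nat_lit 0x15ccc034c5)) e
 (c (a (nat_lit 0x11c119d7e5)) e
 (c z e
 (c z e
 (c z e
 (c (a (nat_lit 0x174200a001)) e
 (c (a (nat_lit 0x100000001)) e e)))))))))))))))))))))))))) Tr.c Tr.e (nat_lit 0) C.cx C.cy
noncomputable def C569 : Tr := beta% (fun (c : Nat → Tr → Tr → Tr) (e : Tr) (z : Nat) (a b : Nat → Nat) =>
 (c (nat_lit 1)
 (c (a (nat_lit 0x8080a0a081))
 (c (a (nat_lit 0x1902c290ac025))
 (c z e
 (c (a (nat_lit 0xd31bc33e84b20c5))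
 (c (a (nat_lit 0x15fe181baf29a5a847)) e e)
 (c z e
 (c z e
 (c z e
 (c z e
 (c (a (nat_lit 0xbe8a74b8e0e3786)) e
 (c (a (nat_lit 0x98a4a12edb7cd46)) e
 (c (a (nat_lit 0x96af333b5709726)) e
 (c (a (nat_lit 0x5cf7196c90a2666)) e
 (c (a (nat_lit 0x18f9def38d5211a5)) e
 (c (a (nat_lit 0x18bb62f67ce86005)) e e))))))))))))
 (c (a (nat_lit 0x18532fed2022e7))
 (c (a (nat_lit 0x5f20c0fe980f746))
 (c (a (nat_lit 0x1011f44b66634567a8)) e e)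
 (c z e
 (c z e
 (c z e
 (c z e
 (c (a (nat_lit 0x4e306e82d72e8c8)) e
 (c z e
 (c z e
 (c z e
 (c (a (nat_lit 0xe10a84744060228)) e
 (c (a (nat_lit 0x1102f147e4200008)) e e)))))))))))
 (c z e
 (c z e
 (c z e
 (c z e
 (c (a (nat_lit 0x10528be0203685))
 (c (a (nat_lit 0x1704236454796a46)) e e)
 (c (a (nat_lit 0x128a40425dbca5)) e
 (c (a (nat_lit 0x5a0224f91e9e6))
 (c z e
 (c (a (nat_lit 0x118d800000000007)) e e))
 (c (a (nat_lit 0xb185bf2c346)) e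
 (c (a (nat_lit 0x6d3f8114322e6)) e
 (c (a (nat_lit 0x193dd730e66446)) e
 (c z e
 (c z e
 (c z e
 (c z e
 (c (a (nat_lit 0xe0d6f184b8006)) e
 (c (a (nat_lit 0xed04ce0000006)) e
 (c (a (nat_lit 0x1be00000000003)) e e)))))))))))))))))))
 (c (a (nat_lit 0x2020202021))
 (c (a (nat_lit 0x1772d785e86a27))
 (c (a (nat_lit 0x11edf10d67dcbd06))
 (c (a (nat_lit 0x1e3e960f08acef6ac7)) e
 (c z e
 (c (a (nat_lit 0xd8580e16260417428)) e
 (c z e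
 (c (a (nat_lit 0x1678d20bd5bb000009)) e e)))))
 (c z e
 (c z e
 (c z e
 (c (a (nat_lit 0x869ceef5998f549)) e
 (c (a (nat_lit 0x52b0cd312d6b868)) e
 (c (a (nat_lit 0x2462898a51c449)) e
 (c z e
 (c z e
 (c (a (nat_lit 0xc0d5167c740e008)) e
 (c (a (nat_lit 0x39105e2c0000009)) e e)))))))))))
 (c z e
 (c z e
 (c z e
 (c (a (nat_lit 0x139ad2e0403746))
 (c z e
 (c (a (nat_lit 0x13ccc9c8f0b6b3a9)) e e))
 (c (a (nat_lit 0xca8a0214a9047))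
 (c (a (nat_lit 0xc6e013b0eb228e7)) e e)
 (c z e
 (c z e
 (c z e
 (c (a (nat_lit 0x9b02b45822028)) e
 (c (a (nat_lit 0x16b1f109646648)) e
 (c z e
 (c z e
 (c z e
 (c z e
 (c (a (nat_lit 0x15d71b54e00007)) e
 (c (a (nat_lit 0x12ccc000000006)) e e)))))))))))))))))
 (c (a (nat_lit 0x2040404041)) e
 (c (a (nat_lit 0x2021))
 (c (a (nat_lit 0x15ff770080b1c5)) e e)
 (c (a (nat_lit 0x20000001)) e
 (c (a (nat_lit 0x2040200001))
 (c z e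
 (c (a (nat_lit 0x19f98c0689b607))
 (c (a (nat_lit 0x116b0cab63c00008)) e e)
 (c z e
 (c z e
 (c z e
 (c z e
 (c (a (nat_lit 0x817bdd110d8e7)) e e)))))))
 (c (a (nat_lit 0x2020203047))
 (c (a (nat_lit 0x1309828787ab85)) e
 (c z e
 (c z e
 (c z e
 (c (a (nat_lit 0x66ad86d07f4c7)) e
 (c (a (nat_lit 0x9120b65a98268)) e e))))))
 (c (a (nat_lit 0x2020334747)) e
 (c (a (nat_lit 0x2033468427))
 (c z e
 (c (a (nat_lit 0x2046efaaba6c8)) e e))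
 (c (a (nat_lit 0x100603c7c7))
 (c (a (nat_lit 0xb1fb1296627)) e e)
 (c (a (nat_lit 0x1e8e28ee4006))
 (c (b (nat_lit 0x13787d7feb5487)) e
 (c (a (nat_lit 0x11d873bc06c008)) e e))
 (c (a (nat_lit 0xd8a15e73146))
 (c (a (nat_lit 0x7303262000008)) e e)
 (c z e
 (c z e
 (c z e
 (c z e
 (c (a (nat_lit 0x1007802036e6)) e
 (c (a (nat_lit 0x78020371986)) e
 (c (a (nat_lit 0x36f99086)) e
 (c z e
 (c (a (nat_lit 0x197c13278786)) e
 (c (a (nat_lit 0x144ba0202006)) e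
 (c (a (nat_lit 0x174020000005)) e e)))))))))))))))))))))))
 (c (nat_lit 1)
 (c (nat_lit 1)
 (c (a (nat_lit 0xd7164a587a5e7))
 (c (a (nat_lit 0xd8d8f90125493e6))
 (c z e
 (c z e
 (c (a (nat_lit 0x24121a0e161065089)) e e)))
 (c z e
 (c z e
 (c z e
 (c (a (nat_lit 0x7cb8baf6f73b3e9)) e
 (c (a (nat_lit 0x668a367b0f10c08)) e
 (c z e
 (c z e
 (c z e
 (c (a (nat_lit 0x1671736ae0800007)) e
 (c (a (nat_lit 0x12ac642000000008)) e e)))))))))))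
 (c z e
 (c z e
 (c z e
 (c (a (nat_lit 0xe2b41e62a5507))
 (c (a (nat_lit 0x10d0cc8a6d757269)) e
 (c (a (nat_lit 0x138c458ed2d82469)) e e))
 (c (a (nat_lit 0x8a020a591eb67))
 (c (a (nat_lit 0x9a032a485238707)) e e)
 (c z e
 (c z e
 (c z e
 (c (a (nat_lit 0x1a53f34480e887)) e
 (c (a (nat_lit 0x1cbbd7c84fb227)) e
 (c z e
 (c z e
 (c z e
 (c (a (nat_lit 0xa28ec1387a007)) e
 (c (a (nat_lit 0x5320080000005)) e
 (c (a (nat_lit 0x11a00000000005)) e e)))))))))))))))))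
 (c (a (nat_lit 0x2020404041))
 (c z e
 (c z e
 (c z e
 (c z e
 (c z e
 (c z e
 (c z e
 (c z e
 (c z e
 (c z e
 (c z e
 (c z e
 (c z e
 (c (a (nat_lit 0x12a462600003)) e
 (c (a (nat_lit 0x11a22000000003)) e e)))))))))))))))
 (c (a (nat_lit 0x20202001)) e
 (c (a (nat_lit 0x2040606041)) e
 (c (a (nat_lit 0x20202033c8))
 (c (a (nat_lit 0x10d1c8614125a7))
 (c z e
 (c (a (nat_lit 0x1639854b83800008)) e e))
 (c (a (nat_lit 0x16ca4120661227))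
 (c (a (nat_lit 0x17a5894280000008)) e e)
 (c z e
 (c z e
 (c z e
 (c z e
 (c (a (nat_lit 0x75133595182a8)) e e)))))))
 (c (a (nat_lit 0x1047a8))
 (c (a (nat_lit 0x2a160c062b307)) e
 (c z e
 (c z e
 (c z e
 (c (a (nat_lit 0x1d05086030668)) e
 (c (a (nat_lit 0x19754dc8235b88)) e e))))))
 (c (a (nat_lit 0x3990a968)) e
 (c z e
 (c z e
 (c (a (nat_lit 0x16b37ac50a87))
 (c (a (nat_lit 0x16b5302872a688)) e
 (c (a (nat_lit 0xf9b31c8a00009)) e e))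
 (c (a (nat_lit 0x11be0c315ac7))
 (c (a (nat_lit 0x16ec63a0000009)) e e)
 (c z e
 (c z e
 (c z e
 (c (a (nat_lit 0x1b6e80203286)) e
 (c (a (nat_lit 0x74020295627)) e
 (c (a (nat_lit 0x29564d27)) e
 (c z e
 (c z e
 (c (a (nat_lit 0x13a8e5a2e2e7)) e
 (c (a (nat_lit 0x17eb00200005)) e e)))))))))))))))))))))
 (c (a (nat_lit 0x40404041))
 (c (a (nat_lit 0x4040404021))
 (c (a (nat_lit 0x1dfd9ac0e0e964))
 (c (a (nat_lit 0x7492c4c8aed16c7)) e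
 (c (a (nat_lit 0x567a8494aabd329))
 (c (a (nat_lit 0x86d1606e000000009)) e e)
 (c z e
 (c z e
 (c z e
 (c z e
 (c (a (nat_lit 0x1233316cb0064008)) e e)))))))
 (c (a (nat_lit 0xc0a6020237507))
 (c (a (nat_lit 0x8eb8f0faa56d789))
 (c (a (nat_lit 0xb19c4800000000009)) e e) e)
 (c z e
 (c z e
 (c z e
 (c z e
 (c (a (nat_lit 0xa750dc6e1a028)) e
 (c z e
 (c z e
 (c z e
 (c z e
 (c z e
 (c (a (nat_lit 0xd579d7a0f2007)) e
 (c (a (nat_lit 0x13992b00000007)) e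
 (c (a (nat_lit 0x1c800000000006)) e e)))))))))))))))
 (c (a (nat_lit 0x6060608081))
 (c (a (nat_lit 0xaed0d03703da7))
 (c (a (nat_lit 0x889d24a7b1a9848))
 (c (a (nat_lit 0x14e2e0000000000008)) e e) e)
 (c z e
 (c z e
 (c z e
 (c z e
 (c z e
 (c z e
 (c z e
 (c z e
 (c z e
 (c z e
 (c (a (nat_lit 0xfd3386f400008)) e
 (c (a (nat_lit 0x10204000000006)) e e)))))))))))))
 (c (a (nat_lit 0x2020203568)) e
 (c (a (nat_lit 0x20203546a8)) e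
 (c (a (nat_lit 0x20352c4608)) e
 (c z e
 (c z e
 (c z e
 (c z e
 (c z e
 (c z e
 (c z e
 (c (a (nat_lit 0x168d80203026)) e
 (c (a (nat_lit 0x6c020281647)) e
 (c (a (nat_lit 0x20242b5668)) e e)))))))))))))))
 C568)))) Tr.c Tr.e (nat_lit 0) C.cx C.cy
noncomputable def C570 : Tr := beta% (fun (c : Nat → Tr → Tr → Tr) (e : Tr) (z : Nat) (a b : Nat → Nat) =>
 (c (a (nat_lit 0x20202021))
 (c (a (nat_lit 0x2020202021))
 (c (a (nat_lit 0x1728587a9533a5))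
 (c (a (nat_lit 0x88d0c488cb34cc7)) e e)
 (c z e
 (c z e
 (c z e
 (c z e
 (c z e
 (c z e
 (c z e
 (c z e
 (c z e
 (c z e
 (c (a (nat_lit 0xef1bf4f000007)) e
 (c (a (nat_lit 0x13106000000007)) e e)))))))))))))
 (c (a (nat_lit 0x2020203a48))
 (c z e
 (c z e
 (c z e
 (c z e
 (c z e
 (c z e
 (c z e
 (c z e
 (c z e
 (c z e
 (c (a (nat_lit 0x15dc94c0000008)) e e)))))))))))
 (c (a (nat_lit 0x20201a0608)) e
 (c (a (nat_lit 0x20357004c8)) e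
 (c z e
 (c z e
 (c z e
 (c z e
 (c z e
 (c z e
 (c z e
 (c (a (nat_lit 0x151080ddde86)) e
 (c (a (nat_lit 0x1060fe1eb186)) e e)))))))))))))
 (c (a (nat_lit 0x20202021))
 (c (a (nat_lit 0x20203f30e7))
 (c z e
 (c z e
 (c z e
 (c z e
 (c z e
 (c z e
 (c z e
 (c z e
 (c z e
 (c z e
 (c (a (nat_lit 0x134d4000000007)) e e)))))))))))
 (c (a (nat_lit 0x2035082469)) e
 (c z e
 (c z e
 (c z e
 (c z e
 (c z e
 (c z e
 (c z e
 (c (a (nat_lit 0x40e70db2c7)) e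
 (c (a (nat_lit 0x7c0513f3c86)) e e)))))))))))
 (c (nat_lit 1) e
 (c (a (nat_lit 0x20202021))
 (c (a (nat_lit 0x17f5bda0ae65))
 (c (a (nat_lit 0x131b3221e12126)) e
 (c (a (nat_lit 0x1bb8ac23208927)) e
 (c z e
 (c z e
 (c z e
 (c (a (nat_lit 0xf16ae22600008)) e e))))))
 (c (a (nat_lit 0xbd0626950a7))
 (c (a (nat_lit 0x17d2c5e400dbe7)) e e)
 (c z e
 (c z e
 (c z e
 (c z e
 (c z e
 (c z e
 (c z e
 (c (a (nat_lit 0x1a66e6c02e65)) e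
 (c (a (nat_lit 0x403bd144)) e e)))))))))))
 (c (a (nat_lit 0x20202021))
 (c (a (nat_lit 0x10a2a9b0e946))
 (c (a (nat_lit 0x82321209a29a7)) e e)
 (c z e
 (c z e
 (c z e
 (c z e
 (c z e
 (c z e
 (c (a (nat_lit 0x11c3a3c06406)) e
 (c (a (nat_lit 0x627c7b63d64)) e e)))))))))
 (c (a (nat_lit 0xa0a0a0a1))
 (c z e
 (c z e
 (c z e
 (c z e
 (c z e
 (c z e
 (c z e
 (c z e
 (c z e
 (c z e
 (c (a (nat_lit 0x171960400004)) e e)))))))))))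
 (c (a (nat_lit 0x40606061))
 (c (a (nat_lit 0x7f3de3990e6))
 (c (a (nat_lit 0x97c4000000003)) e e)
 (c z e
 (c z e
 (c z e
 (c z e
 (c z e
 (c z e
 (c z e
 (c (a (nat_lit 0x132040878005)) e
 (c (a (nat_lit 0x1e0000001)) e e))))))))))
 (c (a (nat_lit 0x60606061))
 (c z e
 (c z e
 (c z e
 (c z e
 (c z e
 (c z e
 (c (a (nat_lit 0x1797e1a02d86)) e
 (c (a (nat_lit 0x152020200005)) e
 (c (a (nat_lit 0x2000000001)) e e)))))))))
 (c (a (nat_lit 0x20202021))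
 (c (b (nat_lit 0x143e4507fe4)) e
 (c z e
 (c z e
 (c z e
 (c (a (nat_lit 0x173bc462dda5)) e
 (c (a (nat_lit 0x11010160a001)) e
 (c (a (nat_lit 0x1e140000001)) e e)))))))
 (c (a (nat_lit 0x40404041))
 (c z e
 (c z e
 (c (a (nat_lit 0xd0e0eef1ee6)) e
 (c (a (nat_lit 0x3e445e421)) e
 (c (a (nat_lit 0x200e00001)) e
 (c (nat_lit 1) e e))))))
 (c (a (nat_lit 0x80606041))
 (c (a (nat_lit 0x68aa3c3b3a6)) e
 (c (a (nat_lit 0x2c4a48641)) e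
 (c (a (nat_lit 0x121016001)) e
 (c (a (nat_lit 0xe0000001)) e e))))
 (c (nat_lit 1)
 (c (a (nat_lit 0x2020402001)) e
 (c (a (nat_lit 0x6080200001)) e
 (c (a (nat_lit 0x6000000001)) e e)))
 (c (a (nat_lit 0x20202021))
 (c (a (nat_lit 0x6020000001)) e e)
 (c (a (nat_lit 0x60606061)) e
 (c (a (nat_lit 0x20203c45)) e
 (c (a (nat_lit 0x203c4c85)) e
 (c z e
 (c z e
 (c (a (nat_lit 0x12d99c0846)) e
 (c (a (nat_lit 0x1375e25026)) e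
 (c (a (nat_lit 0x15e2300be6)) e
 (c z e
 (c z e
 (c z e
 (c (a (nat_lit 0x1c80e00001)) e e)))))))))))))))))))))))))) Tr.c Tr.e (nat_lit 0) C.cx C.cy
noncomputable def C571 : Tr := beta% (fun (c : Nat → Tr → Tr → Tr) (e : Tr) (z : Nat) (a b : Nat → Nat) =>
 (c (a (nat_lit 0x20202021))
 (c (a (nat_lit 0x2020202021))
 (c (a (nat_lit 0x202020203045))
 (c (a (nat_lit 0x1c31b653939b1663)) e
 (c z e
 (c z e
 (c z e
 (c z e
 (c z e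
 (c z e
 (c z e
 (c z e
 (c (a (nat_lit 0x1aa6de8c890ecc4)) e
 (c (a (nat_lit 0xf3291aaf63c4624)) e
 (c (a (nat_lit 0x9a908eaf20a4cc5)) e
 (c z e
 (c z e
 (c z e
 (c (a (nat_lit 0x1a8e0a8520000004)) e e))))))))))))))))
 (c (a (nat_lit 0x2020203cd0e6)) e
 (c (a (nat_lit 0x202039d34f67))
 (c z e
 (c z e
 (c z e
 (c z e
 (c z e
 (c z e
 (c (a (nat_lit 0x2e0e262a0bb2f06)) e e)))))))
 (c (a (nat_lit 0x16177f4b0cdc7))
 (c z e
 (c z e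
 (c z e
 (c z e
 (c z e
 (c z e
 (c z e
 (c z e
 (c (a (nat_lit 0xbccbfdcd7a54026)) e e)))))))))
 (c z e
 (c z e
 (c z e
 (c z e
 (c (a (nat_lit 0x1042e9c9480b66))
 (c (a (nat_lit 0x3c2625084e2c148)) e e)
 (c z e
 (c z e
 (c z e
 (c z e
 (c z e
 (c z e
 (c (a (nat_lit 0x174280608bd4c4)) e
 (c (a (nat_lit 0x1c048eb3428a4)) e
 (c z e
 (c z e
 (c (a (nat_lit 0x16f7e1a0600003)) e e))))))))))))))))))))
 (c (nat_lit 1)
 (c (a (nat_lit 0x1010119916ae7))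
 (c (a (nat_lit 0x200c5a69267e006))
 (c z e
 (c z e
 (c z e
 (c z e
 (c z e
 (c (a (nat_lit 0x122a4883a42b097288)) e e))))))
 (c z e
 (c z e
 (c z e
 (c z e
 (c z e
 (c z e
 (c z e
 (c z e
 (c (a (nat_lit 0x724e98f17efe387)) e e))))))))))
 (c (a (nat_lit 0x10110ce2b27a9)) e
 (c z e
 (c z e
 (c z e
 (c z e
 (c z e
 (c z e
 (c z e
 (c (a (nat_lit 0x2e106ccd0cae8))
 (c (a (nat_lit 0x1bd98a000000006)) e e)
 (c z e
 (c z e
 (c z e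
 (c z e
 (c z e
 (c z e
 (c z e
 (c z e
 (c (a (nat_lit 0x1cbba080000004)) e e)))))))))))))))))))
 (c (a (nat_lit 0x2020202021)) e
 (c (a (nat_lit 0x4040404041)) e
 (c (a (nat_lit 0x4040404041)) e
 (c (nat_lit 1) e
 (c (a (nat_lit 0x202001)) e
 (c (a (nat_lit 0x20000001))
 (c (a (nat_lit 0x112d25c060c8c5))
 (c (a (nat_lit 0x12e621a5a141e006)) e
 (c (a (nat_lit 0x7c3386ec0000004)) e e))
 (c (a (nat_lit 0x10c501a14523e6))
 (c (a (nat_lit 0x1c484f2000000005)) e e) e))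
 (c (a (nat_lit 0x20000001))
 (c (a (nat_lit 0xf406083b104c3)) e
 (c z e
 (c z e
 (c z e
 (c z e
 (c z e
 (c z e
 (c (a (nat_lit 0x125a49a5000006)) e
 (c (a (nat_lit 0x1a64a000000006)) e e)))))))))
 (c (a (nat_lit 0x20202039a6)) e
 (c (a (nat_lit 0x20203044a7))
 (c (a (nat_lit 0x6c0656d110fa7)) e e)
 (c (a (nat_lit 0x203028c507)) e
 (c z e
 (c z e
 (c (a (nat_lit 0x8c610a42ae7)) e
 (c (a (nat_lit 0x836c02e0b46)) e
 (c (a (nat_lit 0x16a02deb4986)) e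
 (c z e
 (c z e
 (c (b (nat_lit 0x37fe2bbed25)) e
 (c z e
 (c z e
 (c z e
 (c (a (nat_lit 0x16c040604005)) e
 (c (a (nat_lit 0x1a160000001)) e e)))))))))))))))))))))))))
 (c (nat_lit 1)
 (c (a (nat_lit 0x2021))
 (c (a (nat_lit 0x161702be80887))
 (c (a (nat_lit 0x60684f66d846025))
 (c z e
 (c z e
 (c z e
 (c z e
 (c (a (nat_lit 0x1ecc8d23a648a59e27)) e
 (c z e
 (c (a (nat_lit 0x1783888e67b4924887)) e e)))))))
 (c z e
 (c z e
 (c z e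
 (c z e
 (c z e
 (c z e
 (c z e
 (c z e
 (c (a (nat_lit 0x2c5aab796c72687)) e e))))))))))
 (c z e
 (c z e
 (c z e
 (c z e
 (c z e
 (c z e
 (c z e
 (c z e
 (c (a (nat_lit 0x1432955308608))
 (c (a (nat_lit 0x15f5a00000000006)) e e)
 (c z e
 (c z e
 (c z e
 (c z e
 (c z e
 (c z e
 (c z e
 (c (a (nat_lit 0x1bdac121000004)) e
 (c (a (nat_lit 0x1ac06000000004)) e e)))))))))))))))))))
 (c (nat_lit 1) e
 (c (a (nat_lit 0x4040404041)) e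
 (c (nat_lit 1) e
 (c (a (nat_lit 0x20000001)) e
 (c (a (nat_lit 0x4040402021)) e
 (c (nat_lit 1) e
 (c (a (nat_lit 0x200030c8)) e
 (c (a (nat_lit 0x201085a8)) e
 (c (a (nat_lit 0x30c602a8))
 (c (a (nat_lit 0x1e2aa19f04da8)) e e)
 (c z e
 (c z e
 (c z e
 (c z e
 (c z e
 (c z e
 (c z e
 (c (b (nat_lit 0x49fe02699e7)) e
 (c (a (nat_lit 0x66fa2e67)) e
 (c z e
 (c z e
 (c z e
 (c (a (nat_lit 0x14c460200007)) e e)))))))))))))))))))))))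
 (c (a (nat_lit 0x20202021))
 (c (nat_lit 1)
 (c z e
 (c z e
 (c z e
 (c z e
 (c z e
 (c z e
 (c z e
 (c z e
 (c z e
 (c z e
 (c z e
 (c z e
 (c z e
 (c z e
 (c z e
 (c (a (nat_lit 0x15c4d940800004)) e e))))))))))))))))
 (c (a (nat_lit 0x4040404041)) e
 (c (a (nat_lit 0x2020202021)) e
 (c (a (nat_lit 0x4040404041)) e
 (c (nat_lit 1) e
 (c (a (nat_lit 0x2020203e47)) e
 (c (a (nat_lit 0x3227e8)) e
 (c (a (nat_lit 0x20384e6b68)) e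
 (c z e
 (c z e
 (c z e
 (c z e
 (c z e
 (c z e
 (c z e
 (c z e
 (c (a (nat_lit 0x720288dbc27)) e e)))))))))))))))))
 (c (a (nat_lit 0x40404041))
 (c (a (nat_lit 0x4040404041))
 (c z e
 (c z e
 (c z e
 (c z e
 (c z e
 (c z e
 (c z e
 (c z e
 (c z e
 (c z e
 (c z e
 (c z e
 (c z e
 (c (a (nat_lit 0x7f04cc9000008)) e e))))))))))))))
 (c (a (nat_lit 0x6060608081))
 (c z e
 (c z e
 (c z e
 (c z e
 (c z e
 (c z e
 (c z e
 (c z e
 (c z e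
 (c z e
 (c z e
 (c z e
 (c (a (nat_lit 0x136d9120000008)) e e)))))))))))))
 (c (a (nat_lit 0x4040404041)) e
 (c (a (nat_lit 0x2020203428)) e
 (c (a (nat_lit 0x202030a9c8)) e
 (c (a (nat_lit 0x203ad44ca8)) e
 (c z e
 (c z e
 (c z e
 (c z e
 (c z e
 (c z e
 (c z e
 (c (a (nat_lit 0x120fe3f39646)) e e))))))))))))))
 C570))))) Tr.c Tr.e (nat_lit 0) C.cx C.cy
noncomputable def C572 : Tr := beta% (fun (c : Nat → Tr → Tr → Tr) (e : Tr) (z : Nat) (a : Nat → Nat) =>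
 (c (nat_lit 1)
 (c (nat_lit 1)
 (c z
 (c (a (nat_lit 0x1234412ba3630c44))
 (c z e
 (c z e
 (c z e
 (c z e
 (c z e
 (c z e
 (c z e
 (c z e
 (c (a (nat_lit 0x663844334a124a7e8)) e e)))))))))
 (c z e
 (c z e
 (c z e
 (c z e
 (c z e
 (c z e
 (c z e
 (c z e
 (c z e
 (c z e
 (c (a (nat_lit 0x109113f1d7ad2e86)) e e))))))))))))
 (c (a (nat_lit 0x12e8)) e
 (c (a (nat_lit 0x202020340be8)) e
 (c (a (nat_lit 0x2020308c8a29)) e
 (c (a (nat_lit 0x2037940ccac8)) e e)))))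
 (c (nat_lit 1)
 (c (a (nat_lit 0x202020348d28)) e
 (c (a (nat_lit 0x203f171129)) e
 (c (a (nat_lit 0x203b55f04ac9)) e e)))
 (c (a (nat_lit 0x2020202001))
 (c (a (nat_lit 0x203ffa54aa68)) e e)
 (c (a (nat_lit 0x4040404041)) e
 (c (a (nat_lit 0x20002001)) e
 (c (nat_lit 1) e
 (c (nat_lit 1) e
 (c (a (nat_lit 0x200001)) e
 (c (a (nat_lit 0x20002001)) e
 (c (a (nat_lit 0x20000001)) e
 (c (a (nat_lit 0x20203de7)) e
 (c (a (nat_lit 0x20203e4a87)) e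
 (c (a (nat_lit 0x382de207)) e e)))))))))))))
 (c (nat_lit 1)
 (c (nat_lit 1)
 (c (a (nat_lit 0x2020326bc7e7)) e
 (c (a (nat_lit 0x101104ca98629)) e e))
 (c (a (nat_lit 0x20202021)) e
 (c (a (nat_lit 0x4040404041)) e
 (c (a (nat_lit 0x2020202021)) e
 (c (a (nat_lit 0x20000001)) e
 (c (a (nat_lit 0x4040402021)) e
 (c (nat_lit 1) e
 (c (a (nat_lit 0x60004001)) e
 (c (a (nat_lit 0x1ee7)) e
 (c (a (nat_lit 0x2032e608)) e
 (c (a (nat_lit 0x2033c8e3e8)) e e)))))))))))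
 (c (a (nat_lit 0x20202021))
 (c (a (nat_lit 0x4040404041)) e
 (c (a (nat_lit 0x4040404041)) e
 (c (a (nat_lit 0x2040404041)) e
 (c (a (nat_lit 0x20202021)) e
 (c (a (nat_lit 0x2020202021)) e
 (c (a (nat_lit 0x2020202021)) e
 (c (a (nat_lit 0x20001408)) e
 (c (a (nat_lit 0x202033e688)) e
 (c (a (nat_lit 0x203629a4a8)) e e)))))))))
 (c (a (nat_lit 0x20202021))
 (c (a (nat_lit 0x2020202021)) e
 (c (a (nat_lit 0x2040406041)) e
 (c (a (nat_lit 0x4040200001)) e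
 (c (a (nat_lit 0x4040404041)) e
 (c (a (nat_lit 0x2020203448)) e
 (c (a (nat_lit 0x2020374b28)) e
 (c (a (nat_lit 0x396de908)) e e)))))))
 (c (a (nat_lit 0x20202021))
 (c (a (nat_lit 0x2020202021)) e
 (c (a (nat_lit 0x4040402021)) e
 (c (a (nat_lit 0x2020203de8)) e
 (c (a (nat_lit 0x2011ea48)) e
 (c (a (nat_lit 0x203cb56748)) e e)))))
 (c (nat_lit 1)
 (c (a (nat_lit 0x2020203c27)) e
 (c (a (nat_lit 0x20203f6e48)) e
 (c (a (nat_lit 0x203b540688)) e e)))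
 (c (a (nat_lit 0x20202021))
 (c (a (nat_lit 0x203767c788)) e e)
 (c (a (nat_lit 0x40404041)) e
 (c (a (nat_lit 0x20404041))
 (c z e
 (c z e
 (c z e
 (c z e
 (c z e
 (c z e
 (c z e
 (c z e
 (c z e
 (c z e
 (c z e
 (c z e
 (c (a (nat_lit 0x105c60600004)) e e)))))))))))))
 (c (a (nat_lit 0x60606061))
 (c z e
 (c z e
 (c z e
 (c z e
 (c z e
 (c z e
 (c z e
 (c z e
 (c z e
 (c z e
 (c (a (nat_lit 0x103140202005)) e
 (c (a (nat_lit 0x112020000005)) e e))))))))))))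
 (c (a (nat_lit 0x202021))
 (c z e
 (c z e
 (c z e
 (c z e
 (c z e
 (c z e
 (c z e
 (c z e
 (c (a (nat_lit 0x103761a1a125)) e
 (c (a (nat_lit 0x178040200005)) e
 (c (a (nat_lit 0x24000000001)) e e)))))))))))
 (c (nat_lit 1)
 (c z e
 (c z e
 (c z e
 (c z e
 (c z e
 (c z e
 (c (a (nat_lit 0xe300ac04be7)) e
 (c (a (nat_lit 0x17e040202005)) e
 (c (a (nat_lit 0x181c0000001)) e e)))))))))
 (c (a (nat_lit 0x20200001))
 (c z e
 (c z e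
 (c z e
 (c z e
 (c (a (nat_lit 0xb4ee6661306)) e
 (c (a (nat_lit 0x18a1a121a022)) e
 (c (a (nat_lit 0x14441200001)) e
 (c (a (nat_lit 0x22000000001)) e e))))))))
 (c (a (nat_lit 0x20202021))
 (c z e
 (c z e
 (c (a (nat_lit 0xbcf20405026)) e
 (c (a (nat_lit 0x1a16242e1)) e
 (c (a (nat_lit 0x14160e001)) e
 (c (a (nat_lit 0x80000001)) e e))))))
 (c (a (nat_lit 0x20202021))
 (c (a (nat_lit 0x607a0203026)) e
 (c (a (nat_lit 0x1a26362c1)) e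
 (c (a (nat_lit 0x100c16101)) e
 (c (a (nat_lit 0x100600001)) e
 (c (a (nat_lit 0x2000000001)) e e)))))
 (c (a (nat_lit 0x20202021))
 (c (a (nat_lit 0x4020402041)) e
 (c (a (nat_lit 0x4080404001)) e
 (c (a (nat_lit 0x8040000001)) e e)))
 (c (a (nat_lit 0x20202021))
 (c (a (nat_lit 0x4040200001)) e
 (c (a (nat_lit 0x4000000001)) e e))
 (c (a (nat_lit 0x20000001)) e
 (c (a (nat_lit 0x40404021)) e
 (c (a (nat_lit 0x1ae6)) e
 (c (a (nat_lit 0x203aeaa6)) e e)))))))))))))))))))))) Tr.c Tr.e (nat_lit 0) C.cx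

end Pool.Agent.Work.MP_82fd4a_nt.P.H
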