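import Pool.Agent.Work.MP_82fd4a_nt.P.H.C0
import Pool.Agent.Work.MP_82fd4a_nt.P.H.C1
import Pool.Agent.Work.MP_82fd4a_nt.P.H.C2
import Pool.Agent.Work.MP_82fd4a_nt.P.H.C3
import Pool.Agent.Work.MP_82fd4a_nt.P.H.C4
import Pool.Agent.Work.MP_82fd4a_nt.P.H.C5
import Pool.Agent.Work.MP_82fd4a_nt.P.H.C6
import Pool.Agent.Work.MP_82fd4a_nt.P.H.C7
import Pool.Agent.Work.MP_82fd4a_nt.P.H.C8
import Pool.Agent.Work.MP_82fd4a_nt.P.H.C9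
import Pool.Agent.Work.MP_82fd4a_nt.P.H.C10
import Pool.Agent.Work.MP_82fd4a_nt.P.H.C11
import Pool.Agent.Work.MP_82fd4a_nt.P.H.C12
import Pool.Agent.Work.MP_82fd4a_nt.P.H.C13

set_option autoImplicit false
set_option linter.all false
set_option maxRecDepth 100000

namespace Pool.Agent.Work.MP_82fd4a_nt.P.H
open Y Y.Tr

noncomputable def C82 : Tr := beta% (fun (c : Nat → Tr → Tr → Tr) (e : Tr) (z : Nat) (a b : Nat → Nat) =>
 (c z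
 (c (nat_lit 1)
 (c (a (nat_lit 0x20202021))
 (c (a (nat_lit 0x28282828281))
 (c (a (nat_lit 0x1a89a98989a9a2))
 (c z e
 (c (a (nat_lit 0x20244662fce4))
 (c z e
 (c (a (nat_lit 0xe2891aacc2c927808)) e
 (c (a (nat_lit 0x62e6dca4b6badfa88)) e
 (c (a (nat_lit 0xc698a698a2aac1b28)) e e))))
 (c (a (nat_lit 0x20220301cc9da5))
 (c z e
 (c z e
 (c (a (nat_lit 0x6052425462a5696a8)) e e)))
 (c (a (nat_lit 0x222725084cfbc5)) e
 (c z e
 (c (a (nat_lit 0x13d3549655d55407)) e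
 (c (a (nat_lit 0xb8db16e4c4c4f67)) e
 (c (a (nat_lit 0x3a56504c2249ec6)) e
 (c (a (nat_lit 0x6c645e3519ae826)) e
 (c (a (nat_lit 0x2c2a129f0e4c367)) e
 (c (a (nat_lit 0x6436c7c4868c3e6)) e
 (c (a (nat_lit 0x3687f2923600006)) e
 (c (a (nat_lit 0xa3d64c000000006)) e
 (c (a (nat_lit 0x19e0000000000006)) e e))))))))))))))
 (c (a (nat_lit 0x19997979797263))
 (c (a (nat_lit 0x20210181293207))
 (c (a (nat_lit 0xb874aa8886b2db5e8)) e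
 (c (a (nat_lit 0x56926c706eaaed18a)) e
 (c z e
 (c (a (nat_lit 0x747892b0b6a77f7a9)) e
 (c z e
 (c z e
 (c (a (nat_lit 0x18de6f200000000008)) e e)))))))
 (c (a (nat_lit 0x3240766cb5476c8))
 (c z e
 (c z e
 (c z e
 (c z e
 (c (a (nat_lit 0x1476984fe00000000a)) e
 (c (a (nat_lit 0x10a8e000000000000a)) e e))))))
 (c (a (nat_lit 0x1c44528eb72d388)) e
 (c z e
 (c z e
 (c (a (nat_lit 0xa0ff48a4b8931c8)) e
 (c (a (nat_lit 0x92928e769312a28)) e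
 (c (a (nat_lit 0xb0aa9180dad6b28)) e
 (c (a (nat_lit 0x90759f14b48a8c8)) e
 (c (a (nat_lit 0xd92bcf09367a007)) e
 (c (a (nat_lit 0xbf8cf85a0000007)) e e)))))))))))
 (c (a (nat_lit 0x1cbcbcbcd5d4a3))
 (c (a (nat_lit 0x3c7274bb4f4d727))
 (c (a (nat_lit 0x385028425a971c849)) e e)
 (c z e
 (c z e
 (c z e
 (c (a (nat_lit 0x1899b494739a3148)) e
 (c (a (nat_lit 0xacac90af22ca868)) e
 (c (a (nat_lit 0xac9544f686869a8)) e
 (c (a (nat_lit 0x8b99169e8cc4588)) e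
 (c z e
 (c (a (nat_lit 0x16e8646000000007)) e e))))))))))
 (c (a (nat_lit 0x1f1f3f57ce4343))
 (c z e
 (c (a (nat_lit 0xdf075b699365a88))
 (c (a (nat_lit 0xe5270c8600000000a)) e e)
 (c z e
 (c (a (nat_lit 0x10accd4d514feec9)) e
 (c (a (nat_lit 0x1270d25b39d01468)) e
 (c (a (nat_lit 0x8d1cdb0882ba7e8)) e e))))))
 (c (a (nat_lit 0x193935f249eb25))
 (c (a (nat_lit 0x10107234591815e7))
 (c (a (nat_lit 0x12efc3e00000000009)) e e)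
 (c (a (nat_lit 0xa8b4c5210b0ada9)) e
 (c (a (nat_lit 0xcad1295520fcae9)) e
 (c (a (nat_lit 0xb6d51508d29e8c8)) e
 (c (a (nat_lit 0x1a6b0ecc47060407)) e e)))))
 (c (a (nat_lit 0x1716d494935147))
 (c (a (nat_lit 0xb4b14b292b0cbe8)) e
 (c (a (nat_lit 0xd9fdfdc788fef08)) e
 (c (a (nat_lit 0x13f4b28e4a4b2a08)) e
 (c (a (nat_lit 0x1bdebc759768c007)) e e))))
 (c (a (nat_lit 0x1b9b9b9b985846))
 (c (a (nat_lit 0x1e1e3614b04f52e7)) e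
 (c (a (nat_lit 0x10eb29c76647c608)) e
 (c (a (nat_lit 0x1d1beef14ac00006)) e
 (c (a (nat_lit 0x16f0882000000006)) e e))))
 (c (a (nat_lit 0x7a100404a3ba2)) e
 (c (a (nat_lit 0x20406e3123)) e
 (c (a (nat_lit 0xa0c129d1d183)) e
 (c (a (nat_lit 0x24660eb544)) e
 (c (a (nat_lit 0x243032f7025)) e
 (c (a (nat_lit 0x10b57537f28fa5)) e
 (c (a (nat_lit 0x197b1d9e5c1b07)) e
 (c (a (nat_lit 0xca7db1d9ba063)) e
 (c z e
 (c (a (nat_lit 0x15f4ea20000005)) e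
 (c (a (nat_lit 0x15a00000000004)) e e))))))))))))))))))
 C81)
 C80)
 C78)
 (c (a (nat_lit 0x2021))
 (c (nat_lit 1) C73
 (c (a (nat_lit 0x202021)) C71
 C70))
 (c (a (nat_lit 0x2021))
 (c (a (nat_lit 0x202021)) C68
 C67)
 (c (a (nat_lit 0x2021)) C65
 (c (a (nat_lit 0x2021))
 (c (a (nat_lit 0x202021))
 (c (a (nat_lit 0x3494a2))
 (c (a (nat_lit 0xf4f59b9e424))
 (c (a (nat_lit 0x10b1b6d6c67de4)) e
 (c (a (nat_lit 0xb2a8b876cb1e7)) e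
 (c (a (nat_lit 0xa668490a345c7)) e
 (c (b (nat_lit 0x43ff75708e006)) e
 (c (a (nat_lit 0x1904be0000006)) e
 (c (a (nat_lit 0x1de00000000004)) e e))))))
 (c (a (nat_lit 0x10fc9c599986))
 (c (a (nat_lit 0x4e487464b9128)) e
 (c (a (nat_lit 0x804104827a4a8)) e
 (c (a (nat_lit 0x58ff6eaa00008)) e e)))
 (c (a (nat_lit 0xf91f330ca87))
 (c (a (nat_lit 0x55840324a007)) e e)
 (c (a (nat_lit 0x23367c4c167)) e
 (c (a (nat_lit 0x12c687e68887)) e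
 (c (a (nat_lit 0xccd0fb10f86)) e
 (c (a (nat_lit 0x849a5679225)) e
 (c (a (nat_lit 0x1a052708966)) e
 (c (a (nat_lit 0x4d19b8d2986)) e
 (c (a (nat_lit 0x16fc542c0da5)) e
 (c (a (nat_lit 0x1229e3200005)) e
 (c (a (nat_lit 0x2000000001)) e e))))))))))))
 (c (a (nat_lit 0x11111106))
 (c (a (nat_lit 0x139b9a5c3886))
 (c (a (nat_lit 0x2a742e8d763a7)) e
 (c (a (nat_lit 0x12167d36414006)) e
 (c (a (nat_lit 0xaf6eec0000008)) e e)))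
 (c (a (nat_lit 0x9fdd18fea67))
 (c (a (nat_lit 0x18f4e463a00007)) e e)
 (c (a (nat_lit 0x123cb19194e7)) e
 (c (a (nat_lit 0x10542ed20c47)) e
 (c (a (nat_lit 0xb34afe874a6)) e
 (c (a (nat_lit 0x9266d35c6a7)) e
 (c (a (nat_lit 0xa55ff846086)) e
 (c (a (nat_lit 0x1ae9861127)) e
 (c (a (nat_lit 0xe5228cbe007)) e
 (c (a (nat_lit 0x1af480000005)) e e))))))))))
 (c (a (nat_lit 0x16565649c7))
 (c (a (nat_lit 0x189292926dc7))
 (c (a (nat_lit 0x12e0a100000006)) e e)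
 (c (a (nat_lit 0x725a5a97167)) e
 (c (a (nat_lit 0x42548a47506)) e
 (c (a (nat_lit 0xd2e7131ed88)) e
 (c z e
 (c (a (nat_lit 0x1a7d37659a67)) e
 (c (a (nat_lit 0xf0ceef0e8e8)) e
 (c (b (nat_lit 0x1a1fec200007)) e e))))))))
 (c (a (nat_lit 0x12ff802004))
 (c (a (nat_lit 0x8c8d038fc86)) e
 (c (a (nat_lit 0xff1b4f9aaa7)) e
 (c z e
 (c z e
 (c (b (nat_lit 0x1d3ffff091e6)) e
 (c (a (nat_lit 0x6b59ca8007)) e e))))))
 (c (a (nat_lit 0x1240202024))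
 (c (a (nat_lit 0xbeab84c8026)) e
 (c (b (nat_lit 0x53703f57fe6)) e
 (c z e
 (c (a (nat_lit 0xa1d8040027)) e
 (c (a (nat_lit 0x1a7768400007)) e e)))))
 (c (a (nat_lit 0x120a10181))
 (c (a (nat_lit 0x211e3e107)) e
 (c (b (nat_lit 0x1ff4bfe36208)) e
 (c (a (nat_lit 0x1eedee81a007)) e
 (c (a (nat_lit 0x126260000008)) e e))))
 (c (a (nat_lit 0x606121))
 (c (b (nat_lit 0x1effe5292027)) e
 (c (b (nat_lit 0x1ffa07c00006)) e
 (c (a (nat_lit 0x1fa000000006)) e e)))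
 (c (a (nat_lit 0x2afaa4))
 (c (a (nat_lit 0x13e320000006)) e e)
 (c (a (nat_lit 0x10b87865)) e
 (c (a (nat_lit 0x58585864)) e
 (c (a (nat_lit 0x2221a001)) e
 (c (a (nat_lit 0x4060c141)) e
 (c (a (nat_lit 0x10b0d0f125)) e
 (c (a (nat_lit 0xb158a8005)) e
 (c (a (nat_lit 0x103a04021)) e
 (c (a (nat_lit 0xa0ac61)) e
 (c (a (nat_lit 0x18c0204006)) e
 (c (nat_lit 1) e e))))))))))))))))))
 C63)
 (c (a (nat_lit 0x2021)) C62
 C61))))))) Tr.c Tr.e (nat_lit 0) C.cx C.cy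
noncomputable def C128 : Tr := beta% (fun (c : Nat → Tr → Tr → Tr) (e : Tr) (z : Nat) (a b : Nat → Nat) =>
 (c (a (nat_lit 0x202021))
 (c (a (nat_lit 0x20202021))
 (c (a (nat_lit 0x2a2b73733e7))
 (c (a (nat_lit 0xdeedb7615f145))
 (c z e
 (c z e
 (c z e
 (c (a (nat_lit 0x1fd85fd8fb151688)) e
 (c (a (nat_lit 0x144dce508e2e3368)) e
 (c (a (nat_lit 0x14b3b249f19b0a87)) e
 (c (a (nat_lit 0x17bb12538de00007)) e
 (c (a (nat_lit 0xef1e7a000000007)) e e))))))))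
 (c z e
 (c z e
 (c (a (nat_lit 0x142ae9c3cbc9a7))
 (c (a (nat_lit 0x1759b214d14c1349)) e e)
 (c (a (nat_lit 0x9004c4452cfc6)) e
 (c (a (nat_lit 0x68b7733aaa4a6)) e
 (c (a (nat_lit 0xb2b0e8a29b047)) e
 (c (a (nat_lit 0xb8eb0abefd707)) e
 (c z e
 (c (a (nat_lit 0xdcbd4f51746e7)) e
 (c (a (nat_lit 0x64709e63465c8)) e e)))))))))))
 (c z e
 (c (a (nat_lit 0x171714446388)) e
 (c (a (nat_lit 0x1b3b20202026))
 (c (a (nat_lit 0xa6f666032b4c7))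
 (c (a (nat_lit 0x19b3a6722b600008)) e e)
 (c z e
 (c z e
 (c z e
 (c z e
 (c z e
 (c (b (nat_lit 0xff35fe8890889)) e
 (c (a (nat_lit 0x1c78d58c000008)) e e))))))))
 (c (a (nat_lit 0x1a8020202026))
 (c z e
 (c z e
 (c z e
 (c z e
 (c z e
 (c (a (nat_lit 0x1000eb68c96009)) e
 (c (a (nat_lit 0x11008240000008)) e e)))))))
 (c (a (nat_lit 0x6060603143))
 (c (a (nat_lit 0x224a73355127)) e
 (c z e
 (c z e
 (c z e
 (c (a (nat_lit 0x9d947e7000008)) e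
 (c (a (nat_lit 0x19266000000007)) e e))))))
 (c (a (nat_lit 0x2020249065))
 (c z e
 (c (b (nat_lit 0x8bff4ad2b8168)) e
 (c z e
 (c (a (nat_lit 0x1291ad20000008)) e
 (c (a (nat_lit 0x12e00000000007)) e e)))))
 (c (a (nat_lit 0xe2e2e324f87))
 (c (b (nat_lit 0x1ffd97d9f37fe6)) e e)
 (c z e
 (c (a (nat_lit 0x114fb1714927)) e
 (c (a (nat_lit 0x8c973f07388)) e
 (c z e
 (c (a (nat_lit 0x15d352916da8)) e
 (c (a (nat_lit 0x1bc860408b05)) e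
 (c (a (nat_lit 0x10a041161664)) e
 (c (a (nat_lit 0x1715d69684)) e
 (c (a (nat_lit 0x540e18261a1)) e
 (c (a (nat_lit 0xc0c00001)) e
 (c (nat_lit 1) e e)))))))))))))))))))
 C127)
 (c (a (nat_lit 0x202021)) C126
 (c (a (nat_lit 0x202021))
 (c (a (nat_lit 0x20202021))
 (c (a (nat_lit 0x16d6f7570043))
 (c (a (nat_lit 0x324a5e76e7045))
 (c z e
 (c (a (nat_lit 0x168c6c2000000007)) e e))
 (c (a (nat_lit 0x127c9729345e7)) e
 (c z e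
 (c (a (nat_lit 0x12937483b8bcc7)) e
 (c (a (nat_lit 0x422064d3238a7)) e
 (c (a (nat_lit 0x3465d85568067)) e e))))))
 (c (a (nat_lit 0x1bfc66a62004))
 (c (a (nat_lit 0x3450e0f297608)) e
 (c z e
 (c (a (nat_lit 0x1adb495a694da8)) e
 (c (a (nat_lit 0x1584956664ea47)) e e))))
 (c z e
 (c (a (nat_lit 0x1537b7b7b7a6)) e
 (c (a (nat_lit 0x423862001))
 (c (a (nat_lit 0x15682280404007)) e
 (c (a (nat_lit 0x14eb0a00000007)) e e))
 (c (a (nat_lit 0x179778e2ef81))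
 (c (a (nat_lit 0x5e0a000000001)) e e)
 (c (a (nat_lit 0xa6a73f6f087)) e
 (c z e
 (c (a (nat_lit 0x1131310eaae9)) e
 (c (a (nat_lit 0xd50acabe809)) e
 (c (a (nat_lit 0x178b6b814227)) e
 (c (a (nat_lit 0xac7ef34c4)) e
 (c (a (nat_lit 0x4e48df9d9a3)) e
 (c (a (nat_lit 0x5600600002)) e
 (c (a (nat_lit 0x4000000001)) e e)))))))))))))))
 (c (a (nat_lit 0x40402021))
 (c (a (nat_lit 0x16b0f114f2e5))
 (c (a (nat_lit 0x30fb1ebd4a027)) e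
 (c (a (nat_lit 0xbf0660e83c529)) e
 (c (a (nat_lit 0x160d3221a2f0e8)) e
 (c (a (nat_lit 0x126cca5ddbb27)) e e))))
 (c (a (nat_lit 0x177777777768))
 (c (a (nat_lit 0x1086ed86a92449)) e
 (c (a (nat_lit 0xa35cc6ef6db88)) e e))
 (c (a (nat_lit 0x131310b0b047)) e
 (c (a (nat_lit 0x1070b0cf0785))
 (c (a (nat_lit 0x1969c60400007)) e e)
 (c (b (nat_lit 0x121217d5ffe7))
 (c (a (nat_lit 0x1d400000000006)) e e)
 (c z e
 (c z e
 (c (a (nat_lit 0x1bdb587461c8)) e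
 (c (a (nat_lit 0x13d312ee4009)) e
 (c (a (nat_lit 0x1394340c2008)) e
 (c (a (nat_lit 0xe0c020f347)) e
 (c (a (nat_lit 0x1c022368006)) e
 (c (a (nat_lit 0xc100000001)) e e)))))))))))))
 (c (a (nat_lit 0x40406081))
 (c (a (nat_lit 0x2e2e303e001))
 (c (a (nat_lit 0x73024682fd66)) e
 (c (b (nat_lit 0x168a0bb01feb47)) e e))
 (c (a (nat_lit 0x80c1209764))
 (c (b (nat_lit 0x17ae7b5fe9e607)) e
 (c (b (nat_lit 0x9b13fe6400008)) e e))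
 (c (a (nat_lit 0xa4a68d87845))
 (c (a (nat_lit 0x1ef5f320000006)) e e)
 (c (a (nat_lit 0xe0e12744d28)) e
 (c z e
 (c z e
 (c (a (nat_lit 0x197b5bb4e048)) e
 (c (a (nat_lit 0x1032b065e029)) e
 (c (a (nat_lit 0x1e1a3a8021a8)) e
 (c (a (nat_lit 0x224d07045)) e
 (c (a (nat_lit 0x18242600001)) e
 (c (nat_lit 1) e e))))))))))))
 (c (a (nat_lit 0x60404061))
 (c (a (nat_lit 0x121a07f4e04))
 (c (a (nat_lit 0x117c9624c5e005)) e
 (c (a (nat_lit 0xe3741c0000006)) e e))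
 (c (a (nat_lit 0x3a2ec940586))
 (c (a (nat_lit 0x1140e000000007)) e e)
 (c z e
 (c z e
 (c z e
 (c (a (nat_lit 0x18dbbd2f48c8)) e
 (c (a (nat_lit 0x15791364c488)) e
 (c (a (nat_lit 0x1f7db1a58a08)) e
 (c (a (nat_lit 0x3c40606005)) e
 (c (a (nat_lit 0x1be020000005)) e e))))))))))
 (c (a (nat_lit 0x20000001))
 (c (a (nat_lit 0x92f764a29a6)) e
 (c (a (nat_lit 0x1d5db1705127)) e
 (c z e
 (c z e
 (c (a (nat_lit 0xc50cee8d009)) e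
 (c z e
 (c (a (nat_lit 0x11f0908ff009)) e
 (c (b (nat_lit 0x1ff980200005)) e
 (c (a (nat_lit 0x198000000005)) e e)))))))))
 (c (a (nat_lit 0x202038e6))
 (c (a (nat_lit 0x106e0e2a4b46)) e
 (c z e
 (c z e
 (c (a (nat_lit 0xa8d75368768)) e
 (c z e
 (c z e
 (c (a (nat_lit 0x53f40000004)) e e)))))))
 (c (a (nat_lit 0x3a7a26))
 (c (b (nat_lit 0xc8a1ffff2a5)) e
 (c z e
 (c z e
 (c z e
 (c z e
 (c (a (nat_lit 0x10000000001)) e e))))))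
 (c (a (nat_lit 0x5f5d5b4c8)) e
 (c (a (nat_lit 0x1afaf7ab08))
 (c (a (nat_lit 0x18721b144ae8)) e
 (c (a (nat_lit 0x134e35400008)) e e))
 (c (a (nat_lit 0x10f0e4c027))
 (c (b (nat_lit 0x1ff900000006)) e e)
 (c (a (nat_lit 0x13e0202026)) e
 (c (a (nat_lit 0xc0a141c1)) e
 (c (a (nat_lit 0x61e001)) e
 (c (a (nat_lit 0x1757a060e4)) e
 (c (a (nat_lit 0x242410041)) e
 (c (a (nat_lit 0x1e1808061)) e
 (c (a (nat_lit 0x15a0404003)) e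
 (c (a (nat_lit 0xe0406001)) e
 (c (a (nat_lit 0x1a0814001)) e
 (c (a (nat_lit 0x1002e02002)) e
 (c (a (nat_lit 0x4a0000001)) e e)))))))))))))))))))))
 C125)))) Tr.c Tr.e (nat_lit 0) C.cx C.cy
noncomputable def C141 : Tr := beta% (fun (c : Nat → Tr → Tr → Tr) (e : Tr) (z : Nat) (a b : Nat → Nat) =>
 (c (a (nat_lit 0x404041))
 (c (nat_lit 1)
 (c (a (nat_lit 0xa0a0a0a0a1)) C140
 C139)
 (c (a (nat_lit 0x20202021))
 (c (a (nat_lit 0x20002001))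
 (c (a (nat_lit 0x46e9070484787))
 (c (a (nat_lit 0x191a7413722c6c85))
 (c z e
 (c z e
 (c (a (nat_lit 0x141fd8d44eeb77b1a8)) e
 (c (a (nat_lit 0xff5938d4c3558b468)) e
 (c z e
 (c (a (nat_lit 0xbcb70323b916fa988)) e e))))))
 (c (a (nat_lit 0x178a4b6822806706))
 (c (a (nat_lit 0x1d1dbc99147232ef89))
 (c (a (nat_lit 0xc6cacca4c2a288ab2ab)) e e)
 (c (a (nat_lit 0x102e0d0ac7ea684c4b)) e
 (c z e
 (c z e
 (c z e
 (c z e
 (c (a (nat_lit 0x7a1d8d5ad84404009)) e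
 (c (a (nat_lit 0x9fb3a54c720000009)) e
 (c (a (nat_lit 0x1f9e2b000000000009)) e e)))))))))
 (c (a (nat_lit 0x388e3e343aa76a6))
 (c z e
 (c z e
 (c z e
 (c z e
 (c z e
 (c (a (nat_lit 0xd2ffd1e7988e00009)) e
 (c (a (nat_lit 0x12fe3d6e4000000009)) e e)))))))
 (c (a (nat_lit 0x28320e4a4adb567))
 (c z e
 (c z e
 (c z e
 (c z e
 (c (a (nat_lit 0x1658147b5080000009)) e
 (c (a (nat_lit 0x1f5976c00000000008)) e e))))))
 (c (a (nat_lit 0x2144460e6ef168))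
 (c z e
 (c z e
 (c (a (nat_lit 0x126bae511134a0000a)) e e)))
 (c (a (nat_lit 0x105e9f1f032ee08))
 (c (a (nat_lit 0xb69c86b8c9fcca00a)) e
 (c (a (nat_lit 0xd8eec7036e000000a)) e e))
 (c (a (nat_lit 0x28867cbccd0aea8)) e
 (c (a (nat_lit 0xff2571af3f2aa67)) e
 (c (a (nat_lit 0x9d1560d88c5e007)) e
 (c (a (nat_lit 0x8ebc886c4813848)) e
 (c (a (nat_lit 0xe8d6c0a06b7cda8)) e
 (c (a (nat_lit 0x5c705e437384b29)) e
 (c (a (nat_lit 0x3a4a1fbfbc40009)) e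
 (c z e
 (c (a (nat_lit 0x16600000000006)) e e)))))))))))))))
 (c (a (nat_lit 0x1131732766e6e8))
 (c (a (nat_lit 0x66323634023f407))
 (c (a (nat_lit 0x1fff3c1834b5d0dec9))
 (c (a (nat_lit 0x125331554f6c2e1366aa)) e
 (c z e
 (c (a (nat_lit 0xd364a27c4200000000b)) e e)))
 (c z e
 (c z e
 (c z e
 (c z e
 (c z e
 (c (a (nat_lit 0x8ef0ad296380000a)) e
 (c (a (nat_lit 0x12b69468400000000a)) e e))))))))
 (c (a (nat_lit 0x28100c4428751e9))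
 (c z e
 (c z e
 (c z e
 (c z e
 (c z e
 (c (a (nat_lit 0xb6e0e566a8000000b)) e
 (c (a (nat_lit 0x13940dc0000000000b)) e e)))))))
 (c z e
 (c z e
 (c z e
 (c z e
 (c (a (nat_lit 0xa8b5af30d06a2a9)) e
 (c (a (nat_lit 0x427c723a24030ea)) e
 (c (a (nat_lit 0x8e68545635383ca)) e
 (c (a (nat_lit 0xa482705b20444ca)) e e))))))))))
 (c (a (nat_lit 0x1d53aa08a8a8a6))
 (c (a (nat_lit 0x1e061c4e570d448)) e
 (c z e
 (c z e
 (c z e
 (c z e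
 (c (a (nat_lit 0x4a670c8e3a3b54a)) e
 (c (a (nat_lit 0x5cec904c3558aaa)) e
 (c (a (nat_lit 0xfa5e503d227866a)) e e))))))))
 (c (a (nat_lit 0x11606040404005))
 (c z e
 (c z e
 (c z e
 (c z e
 (c (a (nat_lit 0x644a8466371cb4a)) e
 (c (a (nat_lit 0x184a380d084e3aa)) e e))))))
 (c (b (nat_lit 0x1fbf9f9fbf1fe4))
 (c z e
 (c (a (nat_lit 0xf4eef0fd0b7daca))
 (c (a (nat_lit 0xf7c29a0000000000c)) e e)
 (c (a (nat_lit 0xf2e540d6eb718aa)) e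
 (c (a (nat_lit 0x5060424714843aa)) e
 (c (a (nat_lit 0x24161d56ae16269)) e
 (c z e
 (c z e
 (c z e
 (c (a (nat_lit 0x1e86600000000009)) e e)))))))))
 (c (a (nat_lit 0x1f5f5fbf74d066))
 (c (a (nat_lit 0x8e80888ecb1116a))
 (c (a (nat_lit 0x14a4a000000000000b)) e e)
 (c (a (nat_lit 0x8c9282b9390922b)) e
 (c (a (nat_lit 0x2a184706c6b848a)) e
 (c (a (nat_lit 0x1e71bd291628029)) e
 (c z e
 (c z e
 (c (a (nat_lit 0x1fba216000000009)) e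
 (c (a (nat_lit 0x1660000000000009)) e e))))))))
 (c (b (nat_lit 0x1eff5fff1fffe6))
 (c (a (nat_lit 0xc2609982f300da9)) e
 (c (a (nat_lit 0x26351924627a02a)) e
 (c (b (nat_lit 0x2ef1564241fe169)) e e)))
 (c (a (nat_lit 0x1216553350cd87))
 (c (a (nat_lit 0x539b9854c690ba8)) e
 (c (a (nat_lit 0x16b042c927686689)) e
 (c (a (nat_lit 0x1af3300c08400008)) e e)))
 (c (a (nat_lit 0xf783473d06bc6))
 (c (a (nat_lit 0x182205cc4a872007)) e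
 (c (a (nat_lit 0x19e8fcb180000006)) e e))
 (c (a (nat_lit 0x108bcbebe74726))
 (c (a (nat_lit 0x9b4ea6000000006)) e e)
 (c (a (nat_lit 0x1736d6c0808f44)) e
 (c (a (nat_lit 0x1810040af3d44)) e
 (c (a (nat_lit 0x14d4bc58587ac6)) e
 (c (a (nat_lit 0x13f5da1857a408)) e
 (c (a (nat_lit 0x76853f451eea9)) e
 (c (a (nat_lit 0xa8a51d186e5a7)) e
 (c (a (nat_lit 0xcdbbb86038366)) e
 (c (a (nat_lit 0x187842e0200006)) e
 (c (a (nat_lit 0x1aa2a000000006)) e e)))))))))))))))))))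
 C137)
 C136))
 (c (nat_lit 1)
 (c (a (nat_lit 0x20202021))
 (c (a (nat_lit 0x20202001))
 (c (a (nat_lit 0xf0ed027662626))
 (c z e
 (c (a (nat_lit 0x722c2e2c0e8dd65))
 (c (a (nat_lit 0x12d330edab4dca7429))
 (c (a (nat_lit 0xd8eeccdeba96ad3668a)) e e)
 (c (a (nat_lit 0x114f8cc8ed096e0f2a)) e
 (c z e
 (c z e
 (c z e
 (c z e
 (c z e
 (c (a (nat_lit 0x13d311884000000009)) e
 (c (a (nat_lit 0x1509c0000000000009)) e e)))))))))
 (c (a (nat_lit 0x4c1614645ed7cc6))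
 (c z e
 (c z e
 (c z e
 (c z e
 (c z e
 (c (a (nat_lit 0xdf116d40860000009)) e
 (c (a (nat_lit 0x1134aa800000000009)) e e)))))))
 (c (a (nat_lit 0x34044894d941f46))
 (c z e
 (c z e
 (c (a (nat_lit 0x19ccea636c6c7f9308)) e
 (c z e
 (c (a (nat_lit 0x10ac722a6000000009)) e e)))))
 (c (a (nat_lit 0x465e91571b57b07))
 (c (a (nat_lit 0x4c362c325658d124a)) e
 (c z e
 (c (a (nat_lit 0xc8f963471c0000009)) e e)))
 (c z e
 (c z e
 (c z e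
 (c (a (nat_lit 0x5a6a847640190a8)) e
 (c (a (nat_lit 0xe308fe842bf1c47)) e
 (c (a (nat_lit 0x1614cd68ba177827)) e
 (c (a (nat_lit 0xb87c530d92ba628)) e
 (c (a (nat_lit 0x601f0bba6800008)) e
 (c (a (nat_lit 0xacd520000000008)) e e))))))))))))))
 (c (a (nat_lit 0x1ef82ba9090906))
 (c (a (nat_lit 0xc02026038d7bc7))
 (c (a (nat_lit 0x1a58544fb22df69e09)) e
 (c z e
 (c z e
 (c z e
 (c z e
 (c z e
 (c (a (nat_lit 0xdb08fece64000000a)) e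
 (c (a (nat_lit 0x15960aa0000000000a)) e e))))))))
 (c (a (nat_lit 0x2022a4e5ec55a9))
 (c z e
 (c z e
 (c z e
 (c z e
 (c z e
 (c (a (nat_lit 0xe9256ab200000000b)) e
 (c (a (nat_lit 0x140d4000000000000b)) e e)))))))
 (c z e
 (c z e
 (c z e
 (c z e
 (c (a (nat_lit 0x32d4e0dc6c1b069)) e
 (c (a (nat_lit 0xf11d16be67eea89)) e
 (c (a (nat_lit 0x9aa27447327658a)) e
 (c (a (nat_lit 0x14d00b38cc0bfa09)) e
 (c (a (nat_lit 0xfeb7a5b0e2b0009)) e e)))))))))))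
 (c (a (nat_lit 0x1d72f2f2f2f1a6))
 (c (a (nat_lit 0xe202e5e83b49)) e
 (c z e
 (c z e
 (c z e
 (c z e
 (c (a (nat_lit 0x8916c2948508cca)) e
 (c (a (nat_lit 0xf4a88a6d50b46ea)) e
 (c (a (nat_lit 0xaa886f109e846aa)) e e))))))))
 (c (a (nat_lit 0x11f1f1f1f06a26))
 (c z e
 (c z e
 (c z e
 (c z e
 (c (a (nat_lit 0xe93f0cbbd163189)) e
 (c (a (nat_lit 0x723e3d02688058a)) e e))))))
 (c (a (nat_lit 0x19393937b065a6))
 (c z e
 (c z e
 (c (a (nat_lit 0xcd04b2b73712c6a)) e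
 (c (a (nat_lit 0xc68cab2a9a74709)) e
 (c (a (nat_lit 0xaad75cb4b6b6da9)) e e)))))
 (c (a (nat_lit 0x11516f6de96027))
 (c (a (nat_lit 0xe8f2db1d974bc09)) e
 (c (a (nat_lit 0xb47ebf831d14e0a)) e
 (c (a (nat_lit 0x104f2ee2ea542c9)) e
 (c (a (nat_lit 0x6b06a912704a749)) e e))))
 (c z e
 (c (a (nat_lit 0xdf0abab096647))
 (c (a (nat_lit 0x102fc429e948a6e8)) e
 (c (a (nat_lit 0x12c60c8b8c060008)) e
 (c (a (nat_lit 0x1a3d5e6e40000007)) e e)))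
 (c (a (nat_lit 0x116c6cac804125))
 (c z e
 (c (a (nat_lit 0x1558cc0000000007)) e e))
 (c (a (nat_lit 0x2e0e0c04252e4))
 (c (a (nat_lit 0x10a4a00000000007)) e e)
 (c (a (nat_lit 0x406020c93b25)) e
 (c (a (nat_lit 0x8088e54db906)) e
 (c (a (nat_lit 0xad2d5769b1d06)) e
 (c (a (nat_lit 0x1334f6d7743488)) e
 (c (a (nat_lit 0x3e5d433123148)) e
 (c (a (nat_lit 0x70caf106fc767)) e
 (c (a (nat_lit 0xdd03190e44007)) e
 (c (a (nat_lit 0x1879cca0000007)) e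
 (c (a (nat_lit 0x1a400000000006)) e e)))))))))))))))))))
 C133)
 C132)
 (c (nat_lit 1) C130
 C128)))) Tr.c Tr.e (nat_lit 0) C.cx C.cy
noncomputable def C172 : Tr := beta% (fun (c : Nat → Tr → Tr → Tr) (e : Tr) (z : Nat) (a b : Nat → Nat) =>
 (c (a (nat_lit 0x2021))
 (c (a (nat_lit 0x202021))
 (c (a (nat_lit 0x40404041))
 (c (a (nat_lit 0x2020202021))
 (c z e
 (c z
 (c z e
 (c (a (nat_lit 0xc0bcbb010303023))
 (c z e
 (c z e
 (c z e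
 (c z e
 (c z e
 (c z e
 (c z e
 (c z e
 (c z e
 (c z e
 (c z e
 (c z e
 (c (a (nat_lit 0x4eddf1da580000007)) e
 (c (a (nat_lit 0x5dcf0600000000007)) e e))))))))))))))
 (c (a (nat_lit 0xe145e605e61303))
 (c z e
 (c z e
 (c z e
 (c z e
 (c z e
 (c z e
 (c z e
 (c z e
 (c z e
 (c z e
 (c z e
 (c (a (nat_lit 0x74cb0448000000008)) e e))))))))))))
 (c (a (nat_lit 0x126c6e6e6f23063)) e e))))
 (c z
 (c (a (nat_lit 0xa6785a585859a23)) e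
 (c (a (nat_lit 0x8c44464647bd923))
 (c z e
 (c z e
 (c z e
 (c z e
 (c z e
 (c z e
 (c (a (nat_lit 0x58524458589497d06)) e
 (c z e
 (c z e
 (c z e
 (c z e
 (c (a (nat_lit 0x189ce8400000000007)) e e))))))))))))
 (c z e
 (c z e
 (c z e
 (c z e
 (c z e
 (c z e
 (c z e
 (c z e
 (c z e
 (c z e
 (c z e
 (c z e
 (c (a (nat_lit 0xa2aebcb6bcad3a4)) e e)))))))))))))))
 (c z e
 (c (a (nat_lit 0x4444444444ce1))
 (c z e
 (c (a (nat_lit 0xcc90a25a348d984)) e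
 (c (a (nat_lit 0x44800c0e5cef703)) e
 (c z e
 (c z e
 (c z e
 (c z e
 (c z e
 (c z e
 (c z e
 (c (a (nat_lit 0x16524c062a576c4)) e
 (c (a (nat_lit 0x929498a49695347)) e e))))))))))))
 (c (a (nat_lit 0x44444444caca1))
 (c z e
 (c z e
 (c z e
 (c z e
 (c z e
 (c z e
 (c z e
 (c z e
 (c z e
 (c (a (nat_lit 0x2834462422b5a85)) e
 (c (a (nat_lit 0x5a788a70753ca66)) e e)))))))))))
 (c (a (nat_lit 0x2828297b7b322))
 (c z e
 (c z e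
 (c z e
 (c z e
 (c z e
 (c z e
 (c z e
 (c (a (nat_lit 0x16021c2a1e75545)) e
 (c (a (nat_lit 0x263a2e2695094a6)) e
 (c (a (nat_lit 0xb6bea6c58efa006)) e e))))))))))
 (c z
 (c z e
 (c z e
 (c z e
 (c (a (nat_lit 0x847e9492aee32e5)) e
 (c z e
 (c z e
 (c (a (nat_lit 0x2624465e30cb0c6)) e
 (c (a (nat_lit 0x283856670318226)) e
 (c (a (nat_lit 0x82a2694abc00006)) e e)))))))))
 (c (a (nat_lit 0x135855f6337363))
 (c z e
 (c z e
 (c (a (nat_lit 0xd2e8f51133a0a65)) e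
 (c (a (nat_lit 0xc6e91b377ee5785)) e
 (c (a (nat_lit 0xcf033d68d6ceee5)) e
 (c (a (nat_lit 0x3e505832ed024c6)) e
 (c z e
 (c (a (nat_lit 0x7c576eb00000006)) e e))))))))
 (c (a (nat_lit 0x13f17211315143))
 (c z e
 (c z e
 (c (a (nat_lit 0x96c8e2eaa0df945)) e
 (c z e
 (c (a (nat_lit 0x4c5644d93e504c6)) e
 (c z e
 (c (a (nat_lit 0x8f6ae2000000006)) e e)))))))
 (c z
 (c z e
 (c (a (nat_lit 0x167779f1503b2f45)) e
 (c z e
 (c (a (nat_lit 0x966cc5387258006)) e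
 (c (a (nat_lit 0xaf0b46320000006)) e e)))))
 (c (a (nat_lit 0x14b79797979b03))
 (c z e
 (c (a (nat_lit 0xbcb0d902d6be806)) e
 (c (a (nat_lit 0x9f3d88bc7c00006)) e
 (c (a (nat_lit 0x14d8444000000006)) e e))))
 (c (a (nat_lit 0x10707070b41583))
 (c z e
 (c (a (nat_lit 0x1093290520000006)) e
 (c (a (nat_lit 0x1545000000000006)) e e)))
 (c (a (nat_lit 0x969699073ade2))
 (c (a (nat_lit 0x10a4428000000006)) e e)
 (c z e
 (c (a (nat_lit 0x18bc3d3bbbbba4)) e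
 (c (a (nat_lit 0x13b4b313131304)) e e)))))))))))))))))
 C171)
 (c (nat_lit 1)
 (c (a (nat_lit 0x6060606061)) C167
 C166)
 C164))
 C159)
 (c z C141
 (c z C123
 (c z
 (c (nat_lit 1) C114
 (c (a (nat_lit 0x202021)) C112
 (c (a (nat_lit 0x202021))
 (c (a (nat_lit 0x20202021))
 (c (a (nat_lit 0x206060a081))
 (c (a (nat_lit 0x107008c0406644))
 (c z e
 (c (a (nat_lit 0x5f0a7eed49409a8)) e
 (c (a (nat_lit 0x1be976bf78e00007)) e e)))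
 (c (a (nat_lit 0xc0620204b1426))
 (c (a (nat_lit 0xb878dd35125c009)) e
 (c (a (nat_lit 0x4707fd4e0000009)) e e))
 (c (a (nat_lit 0x440e0e02fb9e7)) e
 (c (b (nat_lit 0x3fe970afe047)) e
 (c (a (nat_lit 0x304e76700bdc8)) e
 (c z e
 (c (a (nat_lit 0xc4d616af3cb69)) e e)))))))
 (c (a (nat_lit 0x61514002))
 (c (a (nat_lit 0x2e746a8cffac7))
 (c (a (nat_lit 0xf597f9fe6e00008)) e
 (c (a (nat_lit 0xa342ca00000000a)) e e))
 (c (a (nat_lit 0xa06046b4c789)) e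
 (c (a (nat_lit 0x1eb70b9c821e8)) e e)))
 (c (a (nat_lit 0x145898988605))
 (c (a (nat_lit 0x56dfb5a72d6c8)) e e)
 (c (a (nat_lit 0x1cfd5d3d02c4)) e
 (c (a (nat_lit 0x223982280a2)) e
 (c z e
 (c z e
 (c z e
 (c z e
 (c z e
 (c z e
 (c (a (nat_lit 0x1cdce760a0e5)) e
 (c (a (nat_lit 0x15602040a065)) e
 (c (a (nat_lit 0x204214021)) e
 (c (a (nat_lit 0x500e00001)) e
 (c (a (nat_lit 0x3a000000001)) e e))))))))))))))))
 (c (a (nat_lit 0x40202001))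
 (c (a (nat_lit 0x8f188e8e0e6))
 (c (a (nat_lit 0x1a60688324567))
 (c (a (nat_lit 0x1495d46460000007)) e
 (c (a (nat_lit 0x1fb6e00000000008)) e e))
 (c (a (nat_lit 0x270b326a2189)) e
 (c (a (nat_lit 0x30a930ca14c49)) e e)))
 (c (a (nat_lit 0x1b0c0c0e0585))
 (c (a (nat_lit 0x6adb591ab2949)) e e)
 (c (b (nat_lit 0x2a351bfe326)) e
 (c z e
 (c z e
 (c z e
 (c z e
 (c z e
 (c z e
 (c z e
 (c (a (nat_lit 0x152ecdade027)) e
 (c (a (nat_lit 0x60da7a65)) e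
 (c (a (nat_lit 0x1248200a001)) e
 (c (a (nat_lit 0x120000001)) e e))))))))))))))
 (c (a (nat_lit 0x2001))
 (c (a (nat_lit 0x1ebf5f7f0263))
 (c (a (nat_lit 0x14f28ac8e3a387)) e e)
 (c z e
 (c z e
 (c z e
 (c z e
 (c z e
 (c z e
 (c z e
 (c z e
 (c (a (nat_lit 0x10f0f0a30808)) e
 (c (a (nat_lit 0x4686034d4a7)) e
 (c (a (nat_lit 0x186060200005)) e
 (c (a (nat_lit 0x16000000001)) e e)))))))))))))
 (c (a (nat_lit 0x60404021))
 (c z e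
 (c z e
 (c z e
 (c z e
 (c z e
 (c z e
 (c z e
 (c z e
 (c z e
 (c (b (nat_lit 0x1fe153220004)) e
 (c (a (nat_lit 0x19180000004)) e e)))))))))))
 (c (a (nat_lit 0x60606081))
 (c (a (nat_lit 0xd33efaf26a6))
 (c (a (nat_lit 0x999beae400005)) e e)
 (c z e
 (c z e
 (c z e
 (c z e
 (c z e
 (c z e
 (c z e
 (c (a (nat_lit 0xa5291e00003)) e
 (c (a (nat_lit 0x13c000000004)) e e))))))))))
 (c (a (nat_lit 0x20203606))
 (c (b (nat_lit 0x1339407fe3)) e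
 (c z e
 (c z e
 (c z e
 (c z e
 (c z e
 (c (a (nat_lit 0x19e70a582007)) e
 (c (a (nat_lit 0x9f8c0000006)) e e))))))))
 (c (a (nat_lit 0x2036fa06))
 (c (a (nat_lit 0xe05a9974bc6)) e
 (c z e
 (c z e
 (c z e
 (c z e
 (c z e
 (c (a (nat_lit 0x11c000000006)) e e)))))))
 (c (a (nat_lit 0x39161447)) e
 (c z e
 (c (a (nat_lit 0x106d002006))
 (c (b (nat_lit 0x195fe6a2a007)) e e)
 (c (a (nat_lit 0x1840202025)) e
 (c (a (nat_lit 0x804061)) e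
 (c (a (nat_lit 0x2040a001)) e
 (c (a (nat_lit 0x161a08081)) e
 (c (a (nat_lit 0x2210061)) e
 (c (a (nat_lit 0xe0e141)) e
 (c (a (nat_lit 0xc0e101)) e
 (c (a (nat_lit 0x20203ae5)) e
 (c (a (nat_lit 0x20384826)) e
 (c (a (nat_lit 0x936802026)) e
 (c (a (nat_lit 0x1860200006)) e e)))))))))))))))))))))
 C111)))
 (c (a (nat_lit 0x2021))
 (c (a (nat_lit 0x202021)) C109
 C108)
 (c (a (nat_lit 0x2021)) C106
 C104))))))) Tr.c Tr.e (nat_lit 0) C.cx C.cy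
noncomputable def C253 : Tr := beta% (fun (c : Nat → Tr → Tr → Tr) (e : Tr) (z : Nat) (a b : Nat → Nat) =>
 (c (a (nat_lit 0x20202021))
 (c (a (nat_lit 0x2020202021)) C252
 (c (a (nat_lit 0x2020202021))
 (c z
 (c (a (nat_lit 0x280606077537d05))
 (c (a (nat_lit 0x4820387080aee1886)) e
 (c z e
 (c z e
 (c z e
 (c z e
 (c z e
 (c z e
 (c (a (nat_lit 0xc47e54304b2ed6ae8)) e
 (c (b (nat_lit 0x361e042d2dfe67fe9)) e e)))))))))
 (c (a (nat_lit 0x343434c8a0c3408)) e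
 (c z e
 (c z e
 (c z e
 (c z e
 (c z e
 (c (a (nat_lit 0x1c8da2e0606125a7)) e
 (c (a (nat_lit 0x1f4580e6638b02c6)) e
 (c z e
 (c z e
 (c z e
 (c z e
 (c z e
 (c z e
 (c (a (nat_lit 0x1b97b4a602800006)) e e))))))))))))))))
 (c (a (nat_lit 0x202020203a08)) e
 (c (a (nat_lit 0x202038d2a8)) e
 (c (a (nat_lit 0x2032aea6e9)) e
 (c (a (nat_lit 0x20314f46c2c9)) e
 (c (a (nat_lit 0x1116f87232329)) e
 (c (b (nat_lit 0x1bae9fe0202028)) e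
 (c (a (nat_lit 0x15e32020203167))
 (c (a (nat_lit 0x8cbeca5e6045028)) e
 (c (a (nat_lit 0x849c6e4e61514a9)) e e))
 (c (a (nat_lit 0xa0202032f707))
 (c (a (nat_lit 0x4446305f1442509)) e e)
 (c (a (nat_lit 0x20202a2cf0c8)) e
 (c z e
 (c z e
 (c z e
 (c z e
 (c z e
 (c (a (nat_lit 0x166a42c0214248)) e e))))))))))))))))
 (c (a (nat_lit 0x2020202021))
 (c (a (nat_lit 0x1a3487)) e
 (c (a (nat_lit 0x202030ae66e9)) e
 (c (a (nat_lit 0x101114f66c449)) e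
 (c (a (nat_lit 0x11351a8448429)) e
 (c (a (nat_lit 0x1a774500202028)) e
 (c (a (nat_lit 0x19c52020203127)) e
 (c (a (nat_lit 0x62020203412e7)) e
 (c (a (nat_lit 0x20204b8d8b5e7)) e e))))))))
 C251)))
 (c (a (nat_lit 0x20202021))
 (c (a (nat_lit 0x2020202021))
 (c (a (nat_lit 0x202020203706))
 (c (a (nat_lit 0x3434348c5ecb105))
 (c z e
 (c z e
 (c z e
 (c z e
 (c z e
 (c z e
 (c (a (nat_lit 0xa95cd684a6a1782e7)) e
 (c (a (nat_lit 0x4a2624487730669e7)) e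
 (c z e
 (c (a (nat_lit 0x383d8ef47acc4c307)) e e))))))))))
 (c z e
 (c z e
 (c z e
 (c z e
 (c z e
 (c z e
 (c (a (nat_lit 0x11c6e3c3a2a5f446)) e
 (c (a (nat_lit 0x8252405e7362ba6)) e
 (c z e
 (c z e
 (c (a (nat_lit 0x1091dcd48fd40f46)) e
 (c z e
 (c z e
 (c z e
 (c (a (nat_lit 0x1dd1d02660000005)) e e))))))))))))))))
 (c (a (nat_lit 0x4040405f7427)) e
 (c (a (nat_lit 0x20348fe808)) e
 (c (a (nat_lit 0x3470e7e408)) e
 (c (a (nat_lit 0x11290e744e408)) e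
 (c (a (nat_lit 0x1e3b27a0c02027)) e
 (c (a (nat_lit 0x18652160203406)) e
 (c (a (nat_lit 0x2e0202035af06))
 (c (b (nat_lit 0x502ffe360e2f6a8)) e
 (c (a (nat_lit 0x502a2a5d1db8988)) e e))
 (c (a (nat_lit 0x60618c89d1e7))
 (c (a (nat_lit 0x441aa5f2869a3e7)) e e) e)))))))))
 (c (a (nat_lit 0x2020202021))
 (c (a (nat_lit 0x40405f968867)) e
 (c (a (nat_lit 0x20320f274309))
 (c z e
 (c z e
 (c z e
 (c z e
 (c z e
 (c z e
 (c (a (nat_lit 0x1da8b5dcd9aac0c7)) e e)))))))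
 (c (a (nat_lit 0x1131006e48449)) e
 (c (a (nat_lit 0x1fd945c1002028)) e
 (c (a (nat_lit 0x1b42c020203187)) e
 (c (a (nat_lit 0x2002020340e67)) e
 (c (a (nat_lit 0x202035901987)) e e)))))))
 (c (a (nat_lit 0x20202001))
 (c (b (nat_lit 0x1ffc9b3fe02027)) e
 (c (b (nat_lit 0x1a1a3fe0802028)) e
 (c (b (nat_lit 0x1affe2002024a7)) e
 (c (a (nat_lit 0x6040967425)) e
 (c (a (nat_lit 0x8888dd87c38c6)) e e)))))
 (c (a (nat_lit 0x4040404041))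
 (c (b (nat_lit 0x1c7fe200202326))
 (c (a (nat_lit 0x32828e500c039a6))
 (c z e
 (c (a (nat_lit 0x18b848cc416c61e1a7)) e e))
 (c z e
 (c z e
 (c z e
 (c z e
 (c (a (nat_lit 0x4abaf290ddde668)) e
 (c (a (nat_lit 0x40a8a07b1b62728)) e
 (c (a (nat_lit 0x94686f20a06e148)) e e))))))))
 (c (a (nat_lit 0x760a040946004))
 (c z e
 (c z e
 (c z e
 (c (a (nat_lit 0x2141a2a092b009)) e
 (c z e
 (c (a (nat_lit 0x365019cd3ef69e9)) e e))))))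
 (c (b (nat_lit 0xdcdb33ffffa45)) e
 (c z e
 (c z e
 (c z e
 (c z e
 (c z e
 (c z e
 (c z e
 (c z e
 (c (a (nat_lit 0x18d4b71206c968)) e
 (c (a (nat_lit 0xd31c826ec0ee7)) e e)))))))))))))
 (c (nat_lit 1)
 (c (a (nat_lit 0x48484a8a0f065)) e e)
 (c (nat_lit 1) e
 (c (nat_lit 1)
 (c z e
 (c z e
 (c z e
 (c z e
 (c z e
 (c z e
 (c z e
 (c z e
 (c z e
 (c z e
 (c (a (nat_lit 0xb700fa8600009)) e e)))))))))))
 (c (nat_lit 1)
 (c z e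
 (c z e
 (c z e
 (c z e
 (c z e
 (c z e
 (c z e
 (c z e
 (c (a (nat_lit 0xad40085002007)) e
 (c (a (nat_lit 0x148100e0000007)) e e))))))))))
 (c (a (nat_lit 0x2040002001))
 (c z e
 (c z e
 (c z e
 (c z e
 (c z e
 (c z e
 (c (a (nat_lit 0x526c6a0c21049)) e
 (c (a (nat_lit 0x1611abcb200007)) e
 (c (a (nat_lit 0x1b82e000000005)) e e)))))))))
 (c (a (nat_lit 0x2020203447))
 (c (a (nat_lit 0xc90ca464ccc06)) e
 (c z e
 (c z e
 (c z e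
 (c z e
 (c z e
 (c (a (nat_lit 0xb92e0a0000006)) e e)))))))
 (c (a (nat_lit 0x2034aa47)) e
 (c (a (nat_lit 0x40558c6007)) e
 (c z e
 (c (a (nat_lit 0x1a51a5442427)) e
 (c (a (nat_lit 0x18e180202006)) e
 (c (a (nat_lit 0x4020203826)) e
 (c (a (nat_lit 0x2020587926)) e
 (c z e
 (c z e
 (c z e
 (c z e
 (c z e
 (c z e
 (c z e
 (c (a (nat_lit 0x110040000005)) e e)))))))))))))))))))))))))
 C250))) Tr.c Tr.e (nat_lit 0) C.cx C.cy
noncomputable def C282 : Tr := beta% (fun (c : Nat → Tr → Tr → Tr) (e : Tr) (z : Nat) (a : Nat → Nat) =>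
 (c z
 (c z
 (c (a (nat_lit 0x202021))
 (c (a (nat_lit 0x40404041)) C281
 (c (nat_lit 1)
 (c (a (nat_lit 0x6060606061)) C272
 (c (a (nat_lit 0x2020202021)) C270
 C269))
 C267))
 (c (a (nat_lit 0x202021))
 (c (nat_lit 1)
 (c (a (nat_lit 0x4040404041)) C258
 (c (nat_lit 1) C256
 C255))
 C253)
 (c (a (nat_lit 0x202021)) C247
 (c (nat_lit 1)
 (c (a (nat_lit 0x20202021)) C243
 C242)
 (c (nat_lit 1)
 (c (a (nat_lit 0x40404041)) C240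
 C239)
 (c (nat_lit 1) C237
 C235))))))
 (c z
 (c (nat_lit 1)
 (c (a (nat_lit 0x80606081))
 (c (a (nat_lit 0x20002001)) C231
 (c (a (nat_lit 0x6060606061)) C229
 C228))
 (c (a (nat_lit 0x20202021)) C226
 (c (a (nat_lit 0x40202021)) C224
 C223)))
 C220)
 (c z
 (c (nat_lit 1)
 (c (a (nat_lit 0x20202021)) C208
 C206)
 C204)
 (c z
 (c (a (nat_lit 0x202021))
 (c (a (nat_lit 0x20202021))
 (c (a (nat_lit 0x2020202021))
 (c (a (nat_lit 0x10b855f2b0f0e4))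
 (c z e
 (c z e
 (c z e
 (c z e
 (c z e
 (c (a (nat_lit 0xbec708faed3afc6)) e
 (c z e
 (c z e
 (c (a (nat_lit 0x7e6a9a6c70615c6)) e
 (c (a (nat_lit 0x7e9a768079a0f66)) e
 (c (a (nat_lit 0xb27a8c80bf28e06)) e
 (c (a (nat_lit 0x12937113bafd8c65)) e
 (c z e
 (c (a (nat_lit 0x1c136d8000000005)) e e))))))))))))))
 (c (a (nat_lit 0x1e11abc6868184))
 (c (a (nat_lit 0xc69854fc199dc45)) e
 (c z e
 (c z e
 (c (a (nat_lit 0x20814207f32e87))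
 (c (a (nat_lit 0x5c3c583c32bb34589)) e e)
 (c z e
 (c z e
 (c z e
 (c z e
 (c (a (nat_lit 0x9684727366622c8)) e
 (c (a (nat_lit 0xe8e2dead2cb1567)) e
 (c (a (nat_lit 0x1bdbaef057752006)) e e)))))))))))
 (c (a (nat_lit 0x13eb0aeae460a3))
 (c z e
 (c z e
 (c z e
 (c z e
 (c z e
 (c z e
 (c z e
 (c (a (nat_lit 0x1a1065141c08108)) e
 (c (a (nat_lit 0xb7f8b7858ed6706)) e
 (c (a (nat_lit 0x1963a56dc3400006)) e
 (c (a (nat_lit 0x130f42a000000004)) e e)))))))))))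
 (c (a (nat_lit 0x17d7b7a30300e2))
 (c (a (nat_lit 0x3068b6a2a52ea86)) e
 (c z e
 (c z e
 (c z e
 (c (a (nat_lit 0xdb56f1457d213e6)) e
 (c (a (nat_lit 0x4816419e28503c7)) e
 (c z e
 (c (a (nat_lit 0x5035991ce080006)) e
 (c (a (nat_lit 0x21b4e780000006)) e e)))))))))
 (c (a (nat_lit 0x14b4afafaf0064))
 (c z e
 (c z e
 (c z e
 (c (a (nat_lit 0xf6cd1bdb278b347)) e
 (c (a (nat_lit 0x46671056a476448)) e e)))))
 (c (a (nat_lit 0x135050706ca085))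
 (c (a (nat_lit 0x13110ff1379396e7)) e
 (c (a (nat_lit 0x114953dda814faa7)) e
 (c (a (nat_lit 0x8cbd1652bed6e27)) e
 (c (a (nat_lit 0x77a06ab4b4b07a7)) e e))))
 (c (a (nat_lit 0x14d4da1917f845))
 (c (a (nat_lit 0x8ce3050a88d49a7)) e
 (c (a (nat_lit 0x1135d50c52ed9227)) e
 (c (a (nat_lit 0x14a603238022c027)) e e)))
 (c (a (nat_lit 0x11528fce320c45))
 (c (a (nat_lit 0x14ac4aee2d8d2d06)) e e)
 (c (a (nat_lit 0x124d4d91602003)) e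
 (c (a (nat_lit 0x16a10ac04029c2)) e
 (c (a (nat_lit 0x2c7820206d883)) e
 (c (a (nat_lit 0x380c9c34c75a4)) e
 (c (a (nat_lit 0xb74168e577824)) e
 (c (a (nat_lit 0x56a6ef8385e84)) e
 (c (a (nat_lit 0xa0d59391563a4)) e
 (c (a (nat_lit 0x9ee8e92cbee25)) e
 (c (a (nat_lit 0xe4e528bc72005)) e e)))))))))))))))))
 C196)
 C195)
 C193)
 (c z C188
 C183)))))
 (c z C172
 (c z
 (c (a (nat_lit 0x2021))
 (c (nat_lit 1) C99
 (c (nat_lit 1)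
 (c (a (nat_lit 0x80808081))
 (c (a (nat_lit 0x20202001))
 (c (a (nat_lit 0x191bf04dadada4))
 (c z e
 (c (a (nat_lit 0x12020202a4b5fe4))
 (c (a (nat_lit 0x12d20fc9cf6cb195a8)) e
 (c (a (nat_lit 0x13d1a8d1ad50127889)) e
 (c z e
 (c z e
 (c z e
 (c z e
 (c z e
 (c (a (nat_lit 0x15562b400000000008)) e e))))))))
 (c (a (nat_lit 0x202042c28855a6))
 (c z e
 (c z e
 (c z e
 (c z e
 (c z e
 (c z e
 (c (a (nat_lit 0x17abc0000000000008)) e e)))))))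
 (c (a (nat_lit 0x50549e98b13d9a6))
 (c (a (nat_lit 0x88b85a7eaed149d08)) e
 (c (a (nat_lit 0x7a5e606474c91e96a)) e
 (c z e
 (c (a (nat_lit 0x1374159a1260000009)) e
 (c (a (nat_lit 0x1afe93800000000008)) e e)))))
 (c (a (nat_lit 0x6cd11d37a9b7c86))
 (c (a (nat_lit 0x58505250a59d5a649)) e
 (c (a (nat_lit 0x6c74709378ba0000a)) e
 (c (a (nat_lit 0x1253d893e000000009)) e e)))
 (c (a (nat_lit 0x13d495793af9f967)) e
 (c (a (nat_lit 0x1093d5751610f1a8)) e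
 (c z e
 (c (a (nat_lit 0x70929c7c44ad467)) e
 (c (a (nat_lit 0x969c824b09c8d87)) e
 (c (a (nat_lit 0xa49458bd648afe7)) e
 (c (a (nat_lit 0x9658bbd2d656007)) e
 (c (a (nat_lit 0x1cb3a0540000007)) e
 (c (a (nat_lit 0xb93800000000007)) e e))))))))))))))
 (c (a (nat_lit 0x1206c6c6c6c6c6))
 (c (a (nat_lit 0xe0e0e283285c07))
 (c (a (nat_lit 0xdaca84a69ab4ed189)) e
 (c z e
 (c z e
 (c z e
 (c z e
 (c z e
 (c (a (nat_lit 0x12f6d78a6000000009)) e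
 (c (a (nat_lit 0x19ada0000000000009)) e e))))))))
 (c (a (nat_lit 0x18183c384ecb469))
 (c z e
 (c z e
 (c z e
 (c z e
 (c (a (nat_lit 0xcb0f2318b4000000b)) e
 (c (a (nat_lit 0x18bd0e00000000000a)) e
 (c (a (nat_lit 0x1e4000000000000009)) e e)))))))
 (c (a (nat_lit 0x466284a8ed0d6a9)) e
 (c z e
 (c z e
 (c (a (nat_lit 0xc7a9c5aaf932888)) e
 (c (a (nat_lit 0x1210904e6aed36e8)) e
 (c (a (nat_lit 0x1415f32efe707868)) e
 (c (a (nat_lit 0xaea081569ec6b89)) e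
 (c (a (nat_lit 0x134f353211982b88)) e
 (c (a (nat_lit 0xd53b4b3a8600008)) e e)))))))))))
 (c (a (nat_lit 0xf8eeeef4fe001))
 (c (a (nat_lit 0x345c869cc9875a8))
 (c z e
 (c z e
 (c z e
 (c z e
 (c z e
 (c (a (nat_lit 0x1dd060000000000009)) e e))))))
 (c z e
 (c z e
 (c z e
 (c (a (nat_lit 0xe74348faea97149)) e
 (c (a (nat_lit 0x173370ed2c3ccf28)) e
 (c (a (nat_lit 0x1532cf35972bcc48)) e
 (c (a (nat_lit 0x9a8136d0966cca9)) e e))))))))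
 (c (a (nat_lit 0x1b9b9bbbd7e0a4))
 (c z e
 (c (a (nat_lit 0x9caed30b2948ce9))
 (c (a (nat_lit 0xe153d778c0000000a)) e e)
 (c z e
 (c (a (nat_lit 0x1559531510f6f849)) e
 (c (a (nat_lit 0xeee4c8c75146949)) e
 (c (a (nat_lit 0x12b036557d0b3008)) e e))))))
 (c (a (nat_lit 0x13535371e82306))
 (c (a (nat_lit 0xccbedcf716f0fc8))
 (c (a (nat_lit 0xe5fbb662000000009)) e e)
 (c (a (nat_lit 0xef0d2967ad678a9)) e
 (c (a (nat_lit 0xe2aabaeb06e6cea)) e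
 (c (a (nat_lit 0x141432bbd791aec8)) e
 (c (a (nat_lit 0x10706c54ae0a69a7)) e e)))))
 (c (a (nat_lit 0x10304ead0b46c7))
 (c (a (nat_lit 0xe30b15f36999488)) e
 (c (a (nat_lit 0xa50db58f834ccc9)) e
 (c (a (nat_lit 0x9787c992c850808)) e
 (c (a (nat_lit 0x1a0df26c0648c6a8)) e e))))
 (c (a (nat_lit 0xe30ad2cac4b28))
 (c (a (nat_lit 0xe94557052ac09c8)) e
 (c (a (nat_lit 0x131973740d8bac28)) e
 (c (a (nat_lit 0x1373fcac8b282007)) e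
 (c (a (nat_lit 0x1d1bf1a660000007)) e e))))
 (c (a (nat_lit 0x177433f4410604))
 (c (a (nat_lit 0x19eea707e9aca567)) e
 (c (a (nat_lit 0x154b8c502a000007)) e
 (c (a (nat_lit 0x15b5acc000000006)) e e)))
 (c (a (nat_lit 0x4008060609be3))
 (c z e
 (c (a (nat_lit 0x170be00000000006)) e e))
 (c (a (nat_lit 0x406091fb43)) e
 (c (a (nat_lit 0x606084e4bae5)) e
 (c (a (nat_lit 0x22422a1326)) e
 (c (a (nat_lit 0x7ee0cb0d30d06)) e
 (c (a (nat_lit 0x1171d5b494f388)) e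
 (c (a (nat_lit 0x70bf18f2e4ba6)) e
 (c (a (nat_lit 0x119c9e1d55c3e5)) e
 (c (a (nat_lit 0x155615a9000006)) e
 (c (a (nat_lit 0x19ccc000000006)) e e))))))))))))))))))
 C92)
 C91)
 (c (nat_lit 1) C89
 C87)))
 C82)
 C59)))) Tr.c Tr.e (nat_lit 0) C.cx
noncomputable def C327 : Tr := beta% (fun (c : Nat → Tr → Tr → Tr) (e : Tr) (z : Nat) (a b : Nat → Nat) =>
 (c z
 (c (a (nat_lit 0x202021))
 (c (nat_lit 1) C326
 (c (a (nat_lit 0x20202021)) C324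
 C323))
 (c (a (nat_lit 0x202021)) C321
 (c (a (nat_lit 0x202021))
 (c (a (nat_lit 0x20202021))
 (c (a (nat_lit 0x2020202021))
 (c (a (nat_lit 0x12a8c8c4244004))
 (c z e
 (c (a (nat_lit 0x369eb4b8b8bbf66))
 (c (a (nat_lit 0x136748a8e5eaa6be27)) e
 (c (a (nat_lit 0x546a84385e486d349)) e e))
 (c (a (nat_lit 0xf52b2f2f33e3c07)) e
 (c (a (nat_lit 0x828111135afefa7)) e
 (c (a (nat_lit 0x8442f14d0b47427)) e
 (c z e
 (c z e
 (c z e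
 (c (a (nat_lit 0x80a6f776e45a627)) e
 (c (a (nat_lit 0x9a831eda465c2e7)) e
 (c (a (nat_lit 0x122214c8a4800006)) e
 (c (a (nat_lit 0x6da206000000005)) e e))))))))))))
 (c (a (nat_lit 0x13d3ccacaaa6c6))
 (c (a (nat_lit 0x23e404044fd927))
 (c (a (nat_lit 0x14221c0626046d709)) e e)
 (c z e
 (c z e
 (c z e
 (c z e
 (c z e
 (c z e
 (c (a (nat_lit 0x1335b8d16b674c28)) e
 (c (a (nat_lit 0x11b5b00727432008)) e
 (c (a (nat_lit 0xbb2cce520000007)) e e))))))))))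
 (c (a (nat_lit 0x1ab3b3b3af96e6))
 (c z e
 (c z e
 (c z e
 (c z e
 (c z e
 (c z e
 (c z e
 (c (a (nat_lit 0x1168a42aa2600008)) e
 (c (a (nat_lit 0x1fdc5b2000000006)) e e)))))))))
 (c (a (nat_lit 0x1272728f76cf46)) e
 (c (a (nat_lit 0xd4d69b94f7705))
 (c (a (nat_lit 0x14191a4f9db49208)) e
 (c z e
 (c z e
 (c z e
 (c (a (nat_lit 0xe44e77023800008)) e
 (c (a (nat_lit 0xf946e4000000007)) e e))))))
 (c z e
 (c z e
 (c z e
 (c (a (nat_lit 0x110d2ce04028a5)) e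
 (c (a (nat_lit 0x1abbca0b545704)) e
 (c (a (nat_lit 0x1a9737d1d21364)) e
 (c (a (nat_lit 0x507c7e807f725)) e
 (c z e
 (c (a (nat_lit 0x1277777bf10845)) e
 (c (a (nat_lit 0xaeb308d6ee907)) e e)))))))))))))))
 (c (a (nat_lit 0x2040404001))
 (c (a (nat_lit 0x136585a5a02a06))
 (c (a (nat_lit 0x204646672e9e07))
 (c (a (nat_lit 0x1414061404206914a)) e e)
 (c z e
 (c z e
 (c z e
 (c z e
 (c z e
 (c z e
 (c (a (nat_lit 0x1a29cb2b88450208)) e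
 (c (a (nat_lit 0x130b08c8e0800007)) e
 (c (a (nat_lit 0x396678000000006)) e e))))))))))
 (c z e
 (c z e
 (c z e
 (c z e
 (c z e
 (c z e
 (c (a (nat_lit 0x17917001f03086)) e
 (c (a (nat_lit 0x101532509170e7)) e
 (c (a (nat_lit 0xe21c202025905)) e
 (c (a (nat_lit 0xdeacb0b8d92e6)) e e)))))))))))
 (c (a (nat_lit 0x2020202021))
 (c z e
 (c z e
 (c z e
 (c z e
 (c z e
 (c z e
 (c z e
 (c z e
 (c (a (nat_lit 0x9cd4daeed7486)) e e)))))))))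
 (c (a (nat_lit 0x2020203128))
 (c z e
 (c z e
 (c z e
 (c z e
 (c z e
 (c z e
 (c (b (nat_lit 0xc02a949753fe7)) e e)))))))
 (c (a (nat_lit 0x116548))
 (c (a (nat_lit 0xcb00241e3f9e7))
 (c (a (nat_lit 0x15b16b0ceb422828)) e
 (c (a (nat_lit 0x11a1ecd28506c9a8)) e e))
 (c z e
 (c z e
 (c z e
 (c (a (nat_lit 0x374a345686c68)) e
 (c (a (nat_lit 0x1767a7ed06ace8)) e
 (c z e
 (c z e
 (c z e
 (c (a (nat_lit 0x404d512c00008)) e
 (c (a (nat_lit 0x150f8000000008)) e e)))))))))))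
 (c (a (nat_lit 0x3ccfeda7)) e
 (c z e
 (c (a (nat_lit 0x1c92ee602006)) e
 (c (a (nat_lit 0x15af80202045))
 (c z e
 (c (a (nat_lit 0x38a28d1f064c9)) e
 (c (a (nat_lit 0x2c6f2abe30029)) e
 (c (a (nat_lit 0x504e62000009)) e e))))
 (c (a (nat_lit 0x1f402040c004))
 (c (a (nat_lit 0x4a3d40e608088)) e
 (c (a (nat_lit 0x121b3b66e18008)) e e))
 (c (a (nat_lit 0x18f8d9d9e083))
 (c (a (nat_lit 0xbf46640800007)) e e)
 (c (a (nat_lit 0x7b191b110a4)) e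
 (c (a (nat_lit 0x14f4f4f354c8)) e
 (c (a (nat_lit 0x5e9090e9067)) e
 (c (a (nat_lit 0x102a757c5a06)) e
 (c z e
 (c z e
 (c (a (nat_lit 0x1bae0ac02005)) e
 (c (a (nat_lit 0x1c35a0606044)) e
 (c (a (nat_lit 0x156040404044)) e
 (c (a (nat_lit 0xc0c00001)) e
 (c (a (nat_lit 0x2000000001)) e e))))))))))))))))))))))
 C318)
 (c (a (nat_lit 0x202021)) C317
 C316))))
 (c z
 (c (a (nat_lit 0x202021)) C313
 C309)
 (c z C302
 (c z
 (c (a (nat_lit 0x21))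
 (c (a (nat_lit 0x202001))
 (c (a (nat_lit 0xf57d6561266))
 (c (a (nat_lit 0x18383838b7f646))
 (c z e
 (c z e
 (c z e
 (c (a (nat_lit 0xd0eb0700ceae847)) e
 (c (a (nat_lit 0xf14d8f40d8def26)) e
 (c z e
 (c (a (nat_lit 0x1651b087e0000006)) e
 (c (a (nat_lit 0x1328e00000000006)) e e))))))))
 (c z e
 (c z e
 (c (a (nat_lit 0x12300288e82366))
 (c (a (nat_lit 0x180f500507984c07)) e
 (c (a (nat_lit 0x1756f65190800007)) e e))
 (c (a (nat_lit 0xf31e82b4c64c6)) e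
 (c (a (nat_lit 0x1090adaed14e26)) e
 (c (a (nat_lit 0x1cbd5699fc9f25)) e
 (c (a (nat_lit 0x1859305877d2e5)) e
 (c (a (nat_lit 0xcecb1b38f4a86)) e
 (c (a (nat_lit 0x1192931593ada6)) e
 (c (a (nat_lit 0x15bb327136ecc6)) e e)))))))))))
 (c (a (nat_lit 0x13f0d06d0d07))
 (c (a (nat_lit 0x10266c67238546))
 (c (a (nat_lit 0x10d244509233ed87)) e
 (c (a (nat_lit 0x18ab502fb1d1f049)) e e))
 (c (a (nat_lit 0x15d5b5f1802006))
 (c (a (nat_lit 0x12906d8ef0adafe9)) e e)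
 (c z e
 (c z e
 (c z e
 (c (a (nat_lit 0x12e730326b0dc6)) e
 (c (a (nat_lit 0xe650ac7a830c7)) e e)))))))
 (c (a (nat_lit 0x16d333732e03))
 (c (b (nat_lit 0x1ff3d1002037a6))
 (c (a (nat_lit 0xba9484965c351e8)) e e)
 (c (a (nat_lit 0x573e240ec3807))
 (c (a (nat_lit 0xe00717c49c00007)) e e)
 (c z e
 (c z e
 (c (a (nat_lit 0x57b95af05e66)) e e)))))
 (c (a (nat_lit 0xdb1f1f06264))
 (c (a (nat_lit 0x901a0204bb4e7))
 (c (a (nat_lit 0x22124b40000006)) e e)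
 (c (a (nat_lit 0x38966657834c8)) e
 (c (a (nat_lit 0x38ce25f93d626)) e
 (c z e
 (c z e
 (c z e
 (c (b (nat_lit 0x10515fef080008)) e
 (c (a (nat_lit 0x178e4e60000008)) e e))))))))
 (c (a (nat_lit 0x1f3f37979785))
 (c (a (nat_lit 0x64c6c78751487)) e
 (c (a (nat_lit 0x108cdaf5750607)) e
 (c z e
 (c z e
 (c (a (nat_lit 0x17b2a2c9178b27)) e
 (c (a (nat_lit 0x1f640fcf200007)) e
 (c (a (nat_lit 0x11528000000006)) e e)))))))
 (c (a (nat_lit 0x160e8e8e8e65))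
 (c (a (nat_lit 0xe7e09ea07fbe4)) e
 (c z e
 (c z e
 (c (a (nat_lit 0x20dc796e6004)) e
 (c (a (nat_lit 0x1c09aae0000004)) e
 (c (a (nat_lit 0x1be00000000005)) e e))))))
 (c (a (nat_lit 0x185858785844))
 (c z e
 (c (a (nat_lit 0x15be4fa3206126)) e
 (c (a (nat_lit 0xd06ac5a00006)) e
 (c (a (nat_lit 0x16c9a000000005)) e e))))
 (c (a (nat_lit 0x4040a141))
 (c (a (nat_lit 0x1f006361a18004)) e
 (c (a (nat_lit 0x73a5a20000004)) e e))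
 (c (a (nat_lit 0x2061614301))
 (c (a (nat_lit 0x1dae0000000004)) e e)
 (c (b (nat_lit 0x36dfeea5)) e
 (c (a (nat_lit 0x650b0d0ce47)) e
 (c z e
 (c (a (nat_lit 0x15b3d38cac86)) e
 (c (a (nat_lit 0xd0ba282b244)) e
 (c (a (nat_lit 0x1240407fdfa3)) e
 (c (a (nat_lit 0xc10060e1)) e
 (c (a (nat_lit 0x6160608001)) e
 (c (a (nat_lit 0x6080000001)) e e))))))))))))))))))
 C295)
 (c (a (nat_lit 0x202021)) C294
 C293))
 C291))))) Tr.c Tr.e (nat_lit 0) C.cx C.cy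
noncomputable def C385 : Tr := beta% (fun (c : Nat → Tr → Tr → Tr) (e : Tr) (z : Nat) (a b : Nat → Nat) =>
 (c (nat_lit 1)
 (c z C384
 (c z
 (c (a (nat_lit 0x202020202038e5))
 (c (a (nat_lit 0x2e36181658f702ac6)) e
 (c (a (nat_lit 0x644a48b189635d347))
 (c z e
 (c z e
 (c z e
 (c z e
 (c z e
 (c z e
 (c z e
 (c (a (nat_lit 0x745630664f9fce4f288)) e
 (c z e
 (c (a (nat_lit 0x4c5255eb501cfaf0468)) e e))))))))))
 (c z e
 (c z e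
 (c z e
 (c z e
 (c z e
 (c z e
 (c z e
 (c z e
 (c z e
 (c (a (nat_lit 0x6480889c2c0ea7f07)) e
 (c (a (nat_lit 0xa4a4c4fabe9581547)) e
 (c (a (nat_lit 0xa162a32407eab369)) e e))))))))))))))
 (c (a (nat_lit 0x2020202036c447))
 (c z e
 (c z e
 (c z e
 (c z e
 (c z e
 (c z e
 (c z e
 (c z e
 (c z e
 (c (a (nat_lit 0x13516d26ea09326726)) e
 (c (b (nat_lit 0x968081fe3ec91e648)) e e)))))))))))
 (c (a (nat_lit 0x20202031e70227)) e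
 (c (a (nat_lit 0x202031e9a38187)) e
 (c (a (nat_lit 0x20360da4a36347)) e
 (c (b (nat_lit 0x1ffb72a7240324a7)) e
 (c (a (nat_lit 0x1ed447c726e84b67)) e
 (c (a (nat_lit 0x146683e349d0d7a5)) e
 (c (a (nat_lit 0x36061052ed6f126))
 (c (a (nat_lit 0x541a3254768b20ae7)) e e)
 (c z e
 (c z e
 (c z e
 (c z e
 (c z e
 (c z e
 (c z e
 (c z e
 (c (a (nat_lit 0x6ec658184984ea5)) e e))))))))))))))))))
 C383))
 (c (a (nat_lit 0x2020202021))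
 (c z
 (c (a (nat_lit 0xa2a2a2a2a23dbc2))
 (c (a (nat_lit 0x1512d2b69a167c98a4)) e
 (c z e
 (c z e
 (c z e
 (c z e
 (c z e
 (c z e
 (c z e
 (c z e
 (c z e
 (c z e
 (c (a (nat_lit 0x8e94963456e74a966)) e
 (c (a (nat_lit 0x9898a67cc992aa8a6)) e
 (c (a (nat_lit 0x1a202a5ca4cb10a67)) e e))))))))))))))
 (c (a (nat_lit 0x2c2c2c2daa7e5a5)) e
 (c (a (nat_lit 0x4040586e85c0a5)) e
 (c (a (nat_lit 0x2035312a63c385)) e
 (c (a (nat_lit 0x3476cbe605ca05))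
 (c z e
 (c z e
 (c z e
 (c z e
 (c (a (nat_lit 0xb8eec6e8ccd5c9846)) e
 (c (a (nat_lit 0x4e6e549e8262b13c7)) e
 (c (a (nat_lit 0x404e72763e34cb767)) e e)))))))
 (c (a (nat_lit 0x1471c7c4e4a6c1a6))
 (c z e
 (c z e
 (c z e
 (c z e
 (c (a (nat_lit 0x810567066dce1427)) e
 (c (a (nat_lit 0x3a44766a3363852c7)) e e))))))
 (c (a (nat_lit 0x110928a84c678f65))
 (c z e
 (c z e
 (c (a (nat_lit 0xa4283c8d2d1444767)) e e)))
 (c (b (nat_lit 0x17f615babff36aa5)) e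
 (c (a (nat_lit 0x7c94f4e547b1345)) e
 (c z e
 (c z e
 (c z e
 (c z e
 (c z e
 (c z e
 (c z e
 (c (a (nat_lit 0xde4a2c652ba0663)) e
 (c z e
 (c (a (nat_lit 0x80950340a46e584)) e e)))))))))))))))))))
 (c z
 (c (a (nat_lit 0x1e1e1f9c6834026)) e
 (c (a (nat_lit 0x203146c2402007)) e
 (c (a (nat_lit 0x30896561210587)) e
 (c (a (nat_lit 0x1db14942a1882746))
 (c z e
 (c z e
 (c z e
 (c z e
 (c z e
 (c (a (nat_lit 0x405a583a3e7b2e889)) e e))))))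
 (c (a (nat_lit 0x14a9e867f5050505)) e
 (c (a (nat_lit 0xc0dad5b185d9225)) e
 (c z e
 (c z e
 (c z e
 (c z e
 (c z e
 (c z e
 (c (a (nat_lit 0x134cce8c09e8a027)) e e)))))))))))))
 (c z
 (c (a (nat_lit 0x3c10c5c322e565))
 (c z e
 (c z e
 (c z e
 (c z e
 (c z e
 (c z e
 (c z e
 (c z e
 (c (a (nat_lit 0x7732566e7857e5a66)) e e)))))))))
 (c (a (nat_lit 0x16d228a282243366)) e
 (c (a (nat_lit 0x12a0c362c3145085)) e
 (c (a (nat_lit 0x129352d4b5ac4905)) e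
 (c z e
 (c z e
 (c z e
 (c z e
 (c z e
 (c z e
 (c (a (nat_lit 0x1e5bdd1af3f03126)) e e)))))))))))
 (c z
 (c (a (nat_lit 0x8c142c284aef545))
 (c z e
 (c z e
 (c z e
 (c z e
 (c (a (nat_lit 0x12cc88a805c52169a7)) e
 (c (a (nat_lit 0x60a01a1050153e527)) e
 (c (a (nat_lit 0xce64161a8d30be347)) e
 (c z e
 (c z e
 (c z e
 (c (a (nat_lit 0x10e462c0c000000008)) e e)))))))))))
 (c (a (nat_lit 0xdf0f0b0f1b5b386)) e
 (c (a (nat_lit 0xc4cf370d93d26e5)) e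
 (c z e
 (c z e
 (c z e
 (c z e
 (c z e
 (c z e
 (c (b (nat_lit 0x17b25feb608186a6)) e e))))))))))
 (c z
 (c z e
 (c z e
 (c z e
 (c z e
 (c z e
 (c z e
 (c z e
 (c (a (nat_lit 0xc0b90cf8d07c067)) e
 (c (a (nat_lit 0xfb331ab0768e006)) e e)))))))))
 (c z e
 (c z e
 (c (a (nat_lit 0x2020202030c7))
 (c z e
 (c z e
 (c z e
 (c (b (nat_lit 0x784455fe3231a66)) e e))))
 (c (a (nat_lit 0x20202034e746))
 (c z e
 (c z e
 (c z e
 (c z e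
 (c z e
 (c (a (nat_lit 0x5eb4c357d674bc7)) e e))))))
 (c (a (nat_lit 0x1acdc146)) e
 (c (a (nat_lit 0x1011da522c2a6)) e
 (c z e
 (c (a (nat_lit 0x1144622201c586)) e
 (c (a (nat_lit 0x126580e07dfa63))
 (c (a (nat_lit 0xb12838420000007)) e e)
 (c (a (nat_lit 0x564c44f8f5f05)) e
 (c (a (nat_lit 0x4444709adb227)) e e))))))))))))))))
 (c (nat_lit 1) C382
 (c (a (nat_lit 0x6060606061)) C381
 C380))))) Tr.c Tr.e (nat_lit 0) C.cx C.cy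
noncomputable def C456 : Tr := beta% (fun (c : Nat → Tr → Tr → Tr) (e : Tr) (z : Nat) (a : Nat → Nat) =>
 (c (a (nat_lit 0x20202021))
 (c (a (nat_lit 0x2020202021))
 (c z
 (c (a (nat_lit 0x113131313123bae1))
 (c z e
 (c (a (nat_lit 0x8a8c94929b709ef44)) e
 (c z e
 (c z e
 (c z e
 (c z e
 (c z e
 (c z e
 (c z e
 (c z e
 (c z e
 (c z e
 (c z e
 (c z e
 (c (a (nat_lit 0x1a1e2c302e67041e7)) e e)))))))))))))))
 (c (a (nat_lit 0x4e4e4e4e650ae43))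
 (c z e
 (c z e
 (c z e
 (c z e
 (c (a (nat_lit 0x4a143a566b3638bc6)) e
 (c z e
 (c z e
 (c z e
 (c z e
 (c z e
 (c (a (nat_lit 0x88887e6ea3366a866)) e
 (c z e
 (c (a (nat_lit 0x343454889f94de7e7)) e e)))))))))))))
 (c (a (nat_lit 0x646464af28ce063))
 (c z e
 (c z e
 (c z e
 (c z e
 (c z e
 (c z e
 (c z e
 (c z e
 (c z e
 (c (a (nat_lit 0x4e404a54a2443b567)) e e))))))))))
 (c (a (nat_lit 0x3a379787a843))
 (c z e
 (c z e
 (c z e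
 (c z e
 (c z e
 (c z e
 (c z e
 (c z e
 (c (a (nat_lit 0x304a3c7c363700707)) e
 (c (a (nat_lit 0x949d1064703adbf06)) e e))))))))))
 (c (a (nat_lit 0x2f57f887c84143))
 (c z e
 (c z e
 (c z e
 (c z e
 (c z e
 (c z e
 (c z e
 (c (a (nat_lit 0xe0bf3e72a6cf684e6)) e
 (c (a (nat_lit 0x88ba547a607b1a527)) e
 (c z e
 (c (a (nat_lit 0x34870a34000000008)) e e)))))))))))
 (c (a (nat_lit 0x4ae9305c6404063))
 (c z e
 (c z e
 (c z e
 (c z e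
 (c z e
 (c z e
 (c z e
 (c z e
 (c (a (nat_lit 0x87128482720000007)) e e)))))))))
 (c (a (nat_lit 0x1292325208c64003)) e
 (c (a (nat_lit 0x1433d3b2cfe82064)) e
 (c z e
 (c z e
 (c z e
 (c z e
 (c (a (nat_lit 0xe54902dcecf8f44)) e
 (c (a (nat_lit 0x179231d333e603a4)) e
 (c z e
 (c (a (nat_lit 0x1476185825a52084)) e e))))))))))))))))
 C455)
 (c (a (nat_lit 0x6060606061)) C454
 C453))
 (c (a (nat_lit 0x40404041))
 (c (a (nat_lit 0x2020202021))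
 (c z
 (c z
 (c z e
 (c z e
 (c z e
 (c z e
 (c z e
 (c z e
 (c z e
 (c z e
 (c z e
 (c (a (nat_lit 0x1e244a1c22170e2a6)) e e))))))))))
 (c (a (nat_lit 0xd8fac9a6088723))
 (c z e
 (c z e
 (c z e
 (c z e
 (c z e
 (c (a (nat_lit 0x88f6aae0b1ee8c5c6)) e
 (c z e
 (c (a (nat_lit 0x50585a362c3f78387)) e
 (c (a (nat_lit 0x366c1c2a21ea66327)) e
 (c (a (nat_lit 0x5860201b3cba462e7)) e
 (c z e
 (c (a (nat_lit 0x2fc6b038720000006)) e e))))))))))))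
 (c (a (nat_lit 0x1cbf8ae40a86e722))
 (c z e
 (c z e
 (c z e
 (c z e
 (c z e
 (c z e
 (c z e
 (c (a (nat_lit 0x4e160a3308280a6a7)) e
 (c z e
 (c z e
 (c (a (nat_lit 0x1d46c1a50000000006)) e e)))))))))))
 (c (a (nat_lit 0x176ccccf6d8c8c23)) e
 (c (a (nat_lit 0x78782226100b7c4))
 (c z e
 (c (a (nat_lit 0x8cd32e6a2ce3f3006)) e
 (c z e
 (c z e
 (c z e
 (c (a (nat_lit 0x243d345e263e88267)) e
 (c (a (nat_lit 0x2f20b054728a00007)) e e)))))))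
 (c (a (nat_lit 0x2e32220c0768524))
 (c (a (nat_lit 0x5c7466485718b2727)) e
 (c z e
 (c z e
 (c (a (nat_lit 0x4063145e946876567)) e
 (c (a (nat_lit 0x57252149a801e007)) e
 (c (a (nat_lit 0x138906864740000007)) e e))))))
 (c (a (nat_lit 0x644c44691626025)) e
 (c (a (nat_lit 0x8a96a7ec74564e4)) e
 (c (a (nat_lit 0x646b146c524a4c5)) e
 (c (a (nat_lit 0x55aa5e2a1818224)) e
 (c (a (nat_lit 0x1266c684e4e221a5)) e
 (c z e
 (c (a (nat_lit 0x1253d40422c52944)) e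
 (c (a (nat_lit 0xc0b65c0cb1d0a22)) e
 (c (a (nat_lit 0xd4a886e16e6dd43)) e e)))))))))))))))
 C451)
 C450)
 (c (a (nat_lit 0x20202021)) C448
 (c (nat_lit 1) C446
 (c (nat_lit 1) C445
 C444)))))) Tr.c Tr.e (nat_lit 0) C.cx
noncomputable def C486 : Tr := beta% (fun (c : Nat → Tr → Tr → Tr) (e : Tr) (z : Nat) (a : Nat → Nat) =>
 (c z
 (c (a (nat_lit 0x202021))
 (c (a (nat_lit 0x80808081))
 (c (a (nat_lit 0x2020202021))
 (c z
 (c z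
 (c z e
 (c z
 (c (a (nat_lit 0x10101010101010d2161)) e
 (c (a (nat_lit 0x181818181818bc1e221)) e
 (c (a (nat_lit 0x1010101010c6161a141)) e e))) e))
 (c z
 (c z
 (c (a (nat_lit 0x242424242425d8322e1)) e
 (c (a (nat_lit 0x1a1a1a1a1b3c2426282)) e
 (c (a (nat_lit 0xa0a0a0b6c18161a1e2)) e
 (c (a (nat_lit 0x1a1a1b90202222209a2)) e e))))
 (c z
 (c z e
 (c (a (nat_lit 0x1a1a1b143638323a5c2)) e
 (c (a (nat_lit 0x2425362a382c2f04d62)) e e)))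
 (c z
 (c (a (nat_lit 0x3c3d344c464a5888c01)) e
 (c (a (nat_lit 0x3f6a4648424912daae2)) e e)) e)))
 (c z
 (c z
 (c z e
 (c z e
 (c (a (nat_lit 0x7e787e967075374d1a1)) e e)))
 (c z
 (c (a (nat_lit 0x522a6a6c505e78ab121)) e
 (c (a (nat_lit 0x84a4c27a89a3cff9781)) e e)) e))
 (c z e
 (c z e
 (c z e
 (c z e
 (c z e
 (c z e
 (c z e
 (c z e
 (c (a (nat_lit 0x262626262627161)) e e))))))))))))
 (c z
 (c z
 (c z
 (c (a (nat_lit 0x181818181958241e222)) e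
 (c (a (nat_lit 0x1c1c1c1d3c242630303)) e
 (c (a (nat_lit 0xe0e0f781a1620203e3)) e
 (c (a (nat_lit 0x1e1f94262426269c403)) e e))))
 (c z
 (c (a (nat_lit 0x5656575e56788686d02)) e
 (c (a (nat_lit 0x2829f04c4e565cf1543)) e
 (c (a (nat_lit 0x1b021c242222de8e384)) e
 (c (a (nat_lit 0x17c424c5457b9b157663)) e e))))
 (c z
 (c (a (nat_lit 0x332e3c364044a8c8743)) e
 (c (a (nat_lit 0x13620222424e8903c524)) e e))
 (c (a (nat_lit 0x6060606060607184))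
 (c (a (nat_lit 0x2c322a294c823c42623)) e e)
 (c (a (nat_lit 0xc0c0c0c0c0d96143)) e
 (c (a (nat_lit 0xc0c0c0c0d8a060a3)) e
 (c z e
 (c z e
 (c (a (nat_lit 0x14151836242e2e0a4)) e
 (c (a (nat_lit 0x1d34323038381c164)) e
 (c (a (nat_lit 0x1041c1014140212044)) e e)))))))))))
 (c z
 (c z
 (c (a (nat_lit 0xfafac2e9131b1d87dc1)) e
 (c (a (nat_lit 0x46ba68706066e943ac3)) e e))
 (c (a (nat_lit 0x60606060606079c3))
 (c (a (nat_lit 0xca5850444eeb4162a83)) e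
 (c z e
 (c z e
 (c z e
 (c z e
 (c z e
 (c z e
 (c z e
 (c z e
 (c z e
 (c z e
 (c z e
 (c z e
 (c z e
 (c z e
 (c (a (nat_lit 0x909eb2aea8a8e1fc006)) e e))))))))))))))))
 (c (a (nat_lit 0xc0c0c0c0c0d8a0c3)) e
 (c (a (nat_lit 0x2e2e2e2e2fbc32302)) e
 (c (a (nat_lit 0x98989899ee8e684c2)) e
 (c z e
 (c z e
 (c (a (nat_lit 0x39c89e7a9ea246963)) e
 (c (a (nat_lit 0x1025e5e686a4e5a484)) e
 (c z e
 (c z e
 (c z e
 (c z e
 (c z e
 (c z e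
 (c z e
 (c (a (nat_lit 0x127230ef8ba563cf03)) e e)))))))))))))))))
 (c z
 (c (a (nat_lit 0x181818181819a4202)) e
 (c (a (nat_lit 0x1818181819ee181c3)) e
 (c (a (nat_lit 0x1c1c1c1d6e2c160e3)) e
 (c (a (nat_lit 0x20203801c1e08123)) e
 (c z e
 (c (a (nat_lit 0x5ce683c48529e5c3)) e
 (c (a (nat_lit 0x142644e626842582e4)) e e)))))))
 (c z
 (c (a (nat_lit 0x181818190e1a1a063)) e
 (c (a (nat_lit 0x60607881e1a08083)) e e))
 (c z e
 (c z e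
 (c z e
 (c z e
 (c z e
 (c (a (nat_lit 0x60606060607fa3)) e
 (c (a (nat_lit 0xc0c0c0c0db4223)) e
 (c (a (nat_lit 0x8080809b630163)) e
 (c (a (nat_lit 0xa0a0bfc2420263)) e
 (c (a (nat_lit 0x80904101014144)) e
 (c (a (nat_lit 0x188140e1818203)) e
 (c (a (nat_lit 0x1b8504048484e563)) e
 (c (a (nat_lit 0x9894a4a72939542)) e
 (c (a (nat_lit 0x1292d31bbe1fbfe2)) e e))))))))))))))))))
 C485))
 (c (nat_lit 1) C484
 (c (a (nat_lit 0x4040404041)) C480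
 C478)))
 (c (a (nat_lit 0x20202021)) C472
 (c (nat_lit 1) C460
 C456)))
 (c (nat_lit 1) C442
 C420))
 (c z
 (c (nat_lit 1)
 (c (a (nat_lit 0x40404041))
 (c (a (nat_lit 0x2020202021))
 (c z
 (c z
 (c z e
 (c (a (nat_lit 0x6c6c6c6c6d9c3a5e2))
 (c z e
 (c (a (nat_lit 0x137454371e9ad9d8d683)) e e))
 (c (a (nat_lit 0x6c6c6c6d2a6a62783)) e
 (c (a (nat_lit 0x404041de4030463e2)) e e))))
 (c z
 (c z e
 (c (a (nat_lit 0x6a6a6b6c666478724)) e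
 (c (a (nat_lit 0x1e1f5c1810140a764)) e
 (c (a (nat_lit 0x2a8e202224204f1c5))
 (c z e
 (c z e
 (c z e
 (c z e
 (c z e
 (c z e
 (c z e
 (c z e
 (c z e
 (c (a (nat_lit 0x3446664a444aa986907)) e e)))))))))) e))))
 (c z
 (c (a (nat_lit 0x969786908ca8a1043)) e
 (c (a (nat_lit 0x3b6e30283830acbc4)) e
 (c (a (nat_lit 0x11a18122c246904764)) e e)))
 (c z
 (c (a (nat_lit 0x182402c2e22ac545e3)) e
 (c z e
 (c z e
 (c z e
 (c z e
 (c z e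
 (c z e
 (c z e
 (c z e
 (c z e
 (c z e
 (c z e
 (c (a (nat_lit 0x7e66bccee0ceed9e4)) e
 (c (a (nat_lit 0x470c6d4c4ccd1a44)) e e))))))))))))))
 (c z e
 (c (a (nat_lit 0xeeeeeeeeeeef982)) e
 (c (a (nat_lit 0x1010101011be423)) e
 (c (a (nat_lit 0x20202033062084)) e
 (c (a (nat_lit 0x1616174c8a203a4)) e
 (c (a (nat_lit 0x7273b694889e984)) e
 (c (a (nat_lit 0x49347e4a5a52524)) e
 (c (a (nat_lit 0x1a0f0b4c6bec48c4)) e
 (c z e
 (c z e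
 (c z e
 (c z e
 (c z e
 (c (a (nat_lit 0x12d65456f75724a2)) e e))))))))))))))))))
 (c z C388
 C387))
 C385)
 C378)
 (c (nat_lit 1) C368
 (c (a (nat_lit 0x202021))
 (c (a (nat_lit 0x20202021)) C361
 C360)
 C358)))
 (c z
 (c (nat_lit 1)
 (c (a (nat_lit 0x20202021))
 (c (a (nat_lit 0x2020202021))
 (c z
 (c z e
 (c z
 (c z e
 (c z e
 (c z e
 (c z e
 (c z e
 (c z e
 (c z e
 (c z e
 (c z e
 (c z e
 (c z e
 (c z e
 (c z e
 (c (a (nat_lit 0x68687cb2ef8ffffc6)) e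
 (c (a (nat_lit 0x202e40364fba88007)) e e)))))))))))))))
 (c z
 (c z e
 (c z e
 (c z e
 (c z e
 (c z e
 (c z e
 (c z e
 (c z e
 (c z e
 (c z e
 (c z e
 (c (a (nat_lit 0x2a1e1a3a4237153a6)) e e))))))))))))
 (c z
 (c z e
 (c z e
 (c z e
 (c z e
 (c z e
 (c z e
 (c z e
 (c z e
 (c z e
 (c z e
 (c (a (nat_lit 0x403c505c5d2bd5286)) e e)))))))))))
 (c (a (nat_lit 0x1071b32e4e4e6ee3)) e e)))))
 C347)
 C346)
 (c (a (nat_lit 0x20202021)) C344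
 C342))
 (c (a (nat_lit 0x202021))
 (c (a (nat_lit 0x20202021)) C339
 C337)
 (c (nat_lit 1) C335
 C333)))
 C327)))) Tr.c Tr.e (nat_lit 0) C.cx
noncomputable def C513 : Tr := beta% (fun (c : Nat → Tr → Tr → Tr) (e : Tr) (z : Nat) (a b : Nat → Nat) =>
 (c (nat_lit 1)
 (c (a (nat_lit 0x20202041)) C512
 (c (a (nat_lit 0x20202021))
 (c (a (nat_lit 0x2020202021))
 (c (a (nat_lit 0x202020da64))
 (c (a (nat_lit 0x626272566ed1088))
 (c (a (nat_lit 0xc0ac86b69339dfd28)) e e)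
 (c z e
 (c z e
 (c z e
 (c z e
 (c z e
 (c z e
 (c (a (nat_lit 0x14038aa746a3a008)) e
 (c (a (nat_lit 0x19de78ab20000006)) e
 (c (a (nat_lit 0x1066e00000000007)) e e))))))))))
 (c (a (nat_lit 0x4e4e5a62a38a7))
 (c z e
 (c z e
 (c z e
 (c z e
 (c z e
 (c z e
 (c z e
 (c (a (nat_lit 0x1ed5af4000000008)) e
 (c (a (nat_lit 0x1a40000000000006)) e e)))))))))
 (c z e
 (c z e
 (c z e
 (c z e
 (c z e
 (c z e
 (c (a (nat_lit 0x74786a7aa2001)) e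
 (c (a (nat_lit 0x1c1c1c1c03cc5)) e
 (c (a (nat_lit 0x3030322867e07)) e e)))))))))))
 (c (a (nat_lit 0x20203dc8))
 (c z e
 (c z e
 (c z e
 (c z e
 (c z e
 (c z e
 (c (b (nat_lit 0x133fe920404407)) e
 (c (a (nat_lit 0x24324166e62)) e
 (c (a (nat_lit 0x40404210d4c7)) e e)))))))))
 (c (a (nat_lit 0x202030a709))
 (c z e
 (c z e
 (c z e
 (c z e
 (c z e
 (c z e
 (c (a (nat_lit 0x606482a7f1bc6)) e e)))))))
 (c (a (nat_lit 0x2034ad6d69)) e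
 (c z e
 (c z e
 (c z e
 (c z e
 (c (a (nat_lit 0x282e3434001))
 (c (a (nat_lit 0x16e0a482a0c085)) e
 (c (a (nat_lit 0x1d04c301000005)) e
 (c (a (nat_lit 0x1d208000000007)) e e)))
 (c (a (nat_lit 0x1c2622180c1))
 (c (a (nat_lit 0xcf2ec40000001)) e
 (c (a (nat_lit 0xc00000000001)) e e))
 (c (a (nat_lit 0x20202059a5)) e
 (c (a (nat_lit 0x210ddfa6)) e
 (c z e
 (c z e
 (c z e
 (c z e
 (c (a (nat_lit 0x17aba9898987)) e
 (c (a (nat_lit 0x116060404004)) e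
 (c (a (nat_lit 0x1e261804001)) e
 (c (a (nat_lit 0x361a0000001)) e e))))))))))))))))))))
 C511))
 (c (a (nat_lit 0x202021)) C510
 (c (a (nat_lit 0x202021)) C509
 (c (nat_lit 1)
 (c (a (nat_lit 0x20202021))
 (c (a (nat_lit 0x1759e2e2e6a5))
 (c (a (nat_lit 0x10098988888625))
 (c z e
 (c z e
 (c (a (nat_lit 0x47b54e000000006)) e e)))
 (c (a (nat_lit 0x15a7c806402565))
 (c (a (nat_lit 0x1c3fb0e220000006)) e e)
 (c (a (nat_lit 0x92a2a281352a7)) e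
 (c (a (nat_lit 0x158ae60fd6c045)) e
 (c (b (nat_lit 0x13062c881fffe4)) e
 (c (b (nat_lit 0xfee105fffe1c6)) e
 (c z e
 (c (b (nat_lit 0x81ff8cec5a006)) e
 (c (a (nat_lit 0x15d9c6c0000007)) e e)))))))))
 (c (a (nat_lit 0x13c7a7a7a7a5))
 (c (a (nat_lit 0x8686861015265))
 (c (a (nat_lit 0x1d1003a000000006)) e e)
 (c (b (nat_lit 0x1e1e02a12dfe8)) e
 (c (b (nat_lit 0xa092c383fffe7)) e e)))
 (c (a (nat_lit 0x100802081))
 (c (b (nat_lit 0x7a1f813bfffe5)) e e)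
 (c (a (nat_lit 0x2020405865))
 (c z e
 (c (b (nat_lit 0x7dffb2661a867)) e e))
 (c (a (nat_lit 0x161622f1026))
 (c (a (nat_lit 0x14044180e7e207)) e e)
 (c (a (nat_lit 0xc2cf8fc12e6)) e
 (c (a (nat_lit 0xe3453912de7)) e
 (c (a (nat_lit 0x1b15d5c5afa5)) e
 (c (a (nat_lit 0x443b110d0e8)) e
 (c z e
 (c (a (nat_lit 0x1697d81331e8)) e
 (c (a (nat_lit 0x1314a0606c45)) e
 (c (a (nat_lit 0x1440202c2c25)) e
 (c (a (nat_lit 0x1e162254481)) e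
 (c (a (nat_lit 0x100800001)) e
 (c (a (nat_lit 0x2000000001)) e e))))))))))))))))
 (c (nat_lit 1)
 (c (a (nat_lit 0xa0c08081))
 (c (a (nat_lit 0x9292420552164)) e
 (c (a (nat_lit 0x101a5f0a20028)) e
 (c z e
 (c z e
 (c z e
 (c (b (nat_lit 0x1ffffff267c007)) e
 (c (b (nat_lit 0x1fe29a00000005)) e e)))))))
 (c (a (nat_lit 0x2020205885)) e
 (c (a (nat_lit 0x2020e650a7)) e
 (c z e
 (c z e
 (c (a (nat_lit 0xb1b5b8f7686)) e
 (c (a (nat_lit 0x542a96b16a8)) e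
 (c z e
 (c z e
 (c (a (nat_lit 0xe350faae749)) e
 (c (a (nat_lit 0x10c600240368)) e
 (c (a (nat_lit 0x1f8040402004)) e
 (c (a (nat_lit 0x563c361c001)) e
 (c (a (nat_lit 0x1a140000001)) e e))))))))))))))
 (c (a (nat_lit 0x20202021))
 (c (a (nat_lit 0x202d93c8e6)) e
 (c z e
 (c (a (nat_lit 0x976e6c16006)) e
 (c (a (nat_lit 0x134c1170b2a7)) e
 (c (a (nat_lit 0x72349f1cea7)) e
 (c z e
 (c z e
 (c z e
 (c z e
 (c (a (nat_lit 0x375c0605367)) e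
 (c (a (nat_lit 0x15c040536727)) e
 (c (a (nat_lit 0x1c201600001)) e
 (c (a (nat_lit 0x4000000001)) e e)))))))))))))
 (c (a (nat_lit 0x2021))
 (c (a (nat_lit 0x2f5132a6764))
 (c (b (nat_lit 0x1bbffce9a3e665)) e
 (c (b (nat_lit 0x1ffdfff104c005)) e e))
 (c (a (nat_lit 0xa2903c25c46))
 (c (a (nat_lit 0xa91622e00005)) e e)
 (c (a (nat_lit 0xdc86716cfc6)) e
 (c z e
 (c z e
 (c (a (nat_lit 0x118fbe1b8fa8)) e
 (c z e
 (c z e
 (c (a (nat_lit 0x13bcea8b4f86)) e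
 (c (a (nat_lit 0x1504a3c30006)) e
 (c (a (nat_lit 0xe0000001)) e e)))))))))))
 (c (a (nat_lit 0x200001))
 (c (a (nat_lit 0x78220d95125))
 (c (a (nat_lit 0x18e9c0a0000004)) e e)
 (c z e
 (c z e
 (c (a (nat_lit 0x173231875967)) e
 (c (a (nat_lit 0xc2c6db2f0c8)) e
 (c z e
 (c z e
 (c (a (nat_lit 0x168b0ee04046)) e
 (c (a (nat_lit 0xed640200005)) e
 (c (a (nat_lit 0x162000000005)) e e))))))))))
 (c (a (nat_lit 0x20202021))
 (c (a (nat_lit 0x6f772b5aca5)) e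
 (c (a (nat_lit 0x199473c20206)) e
 (c (a (nat_lit 0x101a202d2e7)) e
 (c z e
 (c z e
 (c (a (nat_lit 0x175979ca83e9)) e
 (c (a (nat_lit 0x17bce6c3c005)) e
 (c (a (nat_lit 0x174460000005)) e e))))))))
 (c (a (nat_lit 0x202021))
 (c (a (nat_lit 0x7a120a120e1)) e
 (c (a (nat_lit 0x2040413646)) e
 (c z e
 (c z e
 (c (a (nat_lit 0x1071780ded48)) e
 (c (a (nat_lit 0x27f47a00006)) e e))))))
 (c (a (nat_lit 0x3586))
 (c (a (nat_lit 0xa0a164bec5)) e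
 (c (a (nat_lit 0x2071fbbda7)) e e))
 (c (a (nat_lit 0x20371526))
 (c (a (nat_lit 0x29a71f88)) e e)
 (c (a (nat_lit 0x1155551247)) e
 (c (a (nat_lit 0x100fef2e08)) e
 (c (a (nat_lit 0x1f9c79e186)) e
 (c (a (nat_lit 0x1b18802126)) e
 (c (a (nat_lit 0x13c0202785)) e
 (c (a (nat_lit 0x60a041)) e
 (c (a (nat_lit 0x2021)) e
 (c (a (nat_lit 0x20203825)) e
 (c (a (nat_lit 0x383be5)) e
 (c z e
 (c (a (nat_lit 0x102caae986)) e
 (c (a (nat_lit 0x190ac02003)) e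
 (c (a (nat_lit 0x1540000002)) e e))))))))))))))))))))))
 C508))))) Tr.c Tr.e (nat_lit 0) C.cx C.cy
noncomputable def C518 : Tr := beta% (fun (c : Nat → Tr → Tr → Tr) (e : Tr) (z : Nat) (a b : Nat → Nat) =>
 (c z
 (c (a (nat_lit 0x202021))
 (c (a (nat_lit 0x202001)) C517
 (c (a (nat_lit 0x20202021)) C515
 (c (a (nat_lit 0x20202021))
 (c (a (nat_lit 0x4040404041))
 (c (a (nat_lit 0x181e202620001))
 (c (a (nat_lit 0x4242585c0251aa6))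
 (c (a (nat_lit 0x908e72268268f78a7)) e
 (c (a (nat_lit 0x88646a6c6ab4bdca9)) e e))
 (c z e
 (c z e
 (c z e
 (c z e
 (c z e
 (c z e
 (c z e
 (c (a (nat_lit 0xe304be964600007)) e
 (c (a (nat_lit 0x112cc52000000007)) e e))))))))))
 (c (b (nat_lit 0x2020407ff584))
 (c z e
 (c z e
 (c z e
 (c z e
 (c z e
 (c z e
 (c z e
 (c (a (nat_lit 0x11aec68140000008)) e
 (c (a (nat_lit 0x1345600000000008)) e e)))))))))
 (c z e
 (c z e
 (c z e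
 (c z e
 (c z e
 (c z e
 (c (a (nat_lit 0x112e4e4eaead86)) e
 (c (a (nat_lit 0x8c302a3ab2001)) e
 (c (a (nat_lit 0x17b5b5d7058484)) e e)))))))))))
 (c (a (nat_lit 0x2020204041))
 (c z e
 (c z e
 (c z e
 (c z e
 (c z e
 (c z e
 (c z e
 (c (a (nat_lit 0x1758d8d8d99ac6)) e
 (c (a (nat_lit 0x28262c49dc185)) e e)))))))))
 (c (a (nat_lit 0x2020203887)) e
 (c (a (nat_lit 0x20203fcfe7)) e
 (c (a (nat_lit 0x20370bab88)) e
 (c z e
 (c z e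
 (c z e
 (c (a (nat_lit 0x1591b0302fa7))
 (c (a (nat_lit 0x1ff41391308fa7)) e
 (c (a (nat_lit 0x14b43130a82007)) e
 (c (a (nat_lit 0x1d0f8440000008)) e e)))
 (c (a (nat_lit 0x17a080608063))
 (c (a (nat_lit 0x43ab01e00001)) e
 (c (a (nat_lit 0x1c206000000006)) e e))
 (c (a (nat_lit 0x120e0c12021)) e
 (c (a (nat_lit 0x2020205c44)) e
 (c (a (nat_lit 0x202dd4fd46)) e
 (c z e
 (c z e
 (c z e
 (c z e
 (c (a (nat_lit 0x148142a4a0a4)) e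
 (c (a (nat_lit 0x5e4c2008021)) e
 (c (a (nat_lit 0x3e280c00001)) e
 (c (a (nat_lit 0x18000000001)) e e)))))))))))))))))))))
 (c (a (nat_lit 0x20202021))
 (c (a (nat_lit 0x2020203886))
 (c z e
 (c (a (nat_lit 0x1373f6564c6067))
 (c (a (nat_lit 0xf5171fe74555188)) e
 (c z e
 (c z e
 (c z e
 (c (a (nat_lit 0xa968788a6a00008)) e e)))))
 (c z e
 (c z e
 (c z e
 (c (a (nat_lit 0x136d03e0ef6646)) e
 (c z e
 (c (b (nat_lit 0x28c2c4d9fbfe5)) e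
 (c (a (nat_lit 0xb6d0bd1aca3a7)) e
 (c (a (nat_lit 0xb51ef29aee9c6)) e e))))))))))
 (c (a (nat_lit 0x189107))
 (c (b (nat_lit 0x1a17d516dfe006))
 (c (a (nat_lit 0x704d2cd82e80168)) e
 (c z e
 (c z e
 (c z e
 (c (a (nat_lit 0xdb330f000000007)) e e)))))
 (c z e
 (c z e
 (c z e
 (c (a (nat_lit 0x1547694e20d487)) e
 (c z e
 (c z e
 (c z e
 (c (a (nat_lit 0x346a26aa3f768)) e e)))))))))
 (c (a (nat_lit 0x17f473e8)) e
 (c z e
 (c z e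
 (c (a (nat_lit 0x12719141c187))
 (c (b (nat_lit 0x18140545eabfe7)) e
 (c z e
 (c z e
 (c z e
 (c (a (nat_lit 0x7d208e3200009)) e e)))))
 (c z e
 (c (a (nat_lit 0x193514f4e104))
 (c (b (nat_lit 0x1bff162016028)) e
 (c (a (nat_lit 0x34a220c00008)) e e))
 (c (a (nat_lit 0x1410140a021))
 (c (a (nat_lit 0x1a00c040000005)) e e)
 (c (a (nat_lit 0x40402053a4)) e
 (c (a (nat_lit 0x20220bd765)) e
 (c z e
 (c z e
 (c (a (nat_lit 0x100de0c0ca25)) e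
 (c (a (nat_lit 0x18a5a5f1d784)) e
 (c z e
 (c (b (nat_lit 0x1ff4bb4aeac2)) e
 (c (a (nat_lit 0x1500c240e001)) e
 (c (a (nat_lit 0xc100000001)) e e)))))))))))))))))))
 C514))))
 C513)
 (c z C506
 (c z
 (c (a (nat_lit 0x202021))
 (c (a (nat_lit 0x202001))
 (c (a (nat_lit 0x3f99b984))
 (c (b (nat_lit 0x8484850bfed23)) e
 (c z e
 (c z e
 (c (a (nat_lit 0x10142a424782a6))
 (c (a (nat_lit 0x169252316829b527)) e
 (c (a (nat_lit 0x11ab6d0bc628e008)) e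
 (c (a (nat_lit 0x185a938bc0000006)) e e)))
 (c (b (nat_lit 0x12aeaeca053fe5)) e
 (c (a (nat_lit 0xe2f926d0ec084)) e
 (c (a (nat_lit 0xb2b2b53ea8ba4)) e
 (c (b (nat_lit 0xf8fd00d7cdfe4)) e
 (c (b (nat_lit 0x22242ba7fffe4)) e
 (c (a (nat_lit 0x424454103f346)) e
 (c (a (nat_lit 0x3036206b69066)) e
 (c (a (nat_lit 0xd6d59692b4006)) e e))))))))))))
 (c z e
 (c z e
 (c (a (nat_lit 0x15559de14165))
 (c (a (nat_lit 0xab100203494c6))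
 (c (a (nat_lit 0x1886c54ee8e00006)) e
 (c (a (nat_lit 0x12335e000000006)) e e))
 (c (a (nat_lit 0x17324b0a955a27)) e
 (c z e
 (c (a (nat_lit 0x1e7e34f33c9e6)) e
 (c (a (nat_lit 0x40bebcdd6a647)) e
 (c z e
 (c z e
 (c (a (nat_lit 0x6906a43400009)) e e))))))))
 (c (a (nat_lit 0x1215cc0c0c06))
 (c (a (nat_lit 0x62acacaf33447)) e
 (c (a (nat_lit 0x624042df16b27)) e
 (c z e
 (c z e
 (c z e
 (c (a (nat_lit 0x1737d011efe008)) e
 (c (a (nat_lit 0x13660200000008)) e e)))))))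
 (c (a (nat_lit 0x132787878785))
 (c (a (nat_lit 0xd0d937c045345)) e
 (c z e
 (c z e
 (c z e
 (c (a (nat_lit 0xb51c621e00006)) e
 (c (a (nat_lit 0x10c2a000000007)) e e))))))
 (c (a (nat_lit 0x4080a08061))
 (c z e
 (c (b (nat_lit 0x1ffffb2a016086)) e
 (c (a (nat_lit 0x75bf340a04005)) e
 (c (a (nat_lit 0x934060000005)) e
 (c (a (nat_lit 0x12c00000000005)) e e)))))
 (c (a (nat_lit 0x40402001))
 (c (a (nat_lit 0x1c00c061a04025)) e e)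
 (c (a (nat_lit 0x4060404001)) e
 (c (a (nat_lit 0x2020203904)) e
 (c (a (nat_lit 0x20351b5606)) e
 (c (a (nat_lit 0xc73d6f675e7)) e
 (c (a (nat_lit 0x1619389854c7)) e
 (c (a (nat_lit 0x1db351313184)) e
 (c (a (nat_lit 0x108281036ec1)) e
 (c (a (nat_lit 0x2012c6e61)) e
 (c (a (nat_lit 0x1a1636261)) e
 (c (a (nat_lit 0xa1000001)) e
 (c (nat_lit 1) e e)))))))))))))))))))
 C499)
 (c (a (nat_lit 0x202021)) C498
 C497))
 (c z
 (c (a (nat_lit 0x202021)) C495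
 C494)
 (c z C492
 (c z
 (c (nat_lit 1)
 (c (a (nat_lit 0x20202021))
 (c (a (nat_lit 0x44444445705))
 (c (a (nat_lit 0x88868a86a3844)) e
 (c (a (nat_lit 0x8e74aa64ff147)) e e))
 (c (a (nat_lit 0x689ced69367)) e
 (c (a (nat_lit 0x5c8740f6e27)) e
 (c (a (nat_lit 0x79249a74507)) e
 (c (a (nat_lit 0x1cab44610106)) e
 (c (a (nat_lit 0x1144a0202005)) e
 (c (a (nat_lit 0x1041214140e3)) e
 (c (a (nat_lit 0x21f79683)) e
 (c (a (nat_lit 0x80809080a5)) e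
 (c (a (nat_lit 0x606070c005)) e
 (c (a (nat_lit 0x8060000001)) e e)))))))))))
 (c (a (nat_lit 0x7f4948105))
 (c (a (nat_lit 0xcd17478b4c8)) e
 (c z e
 (c z e
 (c z e
 (c z e
 (c (b (nat_lit 0x68abffba6)) e
 (c (b (nat_lit 0x6aa07bfff07)) e
 (c (b (nat_lit 0x46fa9fffe6)) e
 (c (a (nat_lit 0x6532e600005)) e
 (c (a (nat_lit 0x1f2000000002)) e e))))))))))
 (c (a (nat_lit 0x1191b654c4))
 (c z e
 (c z e
 (c z e
 (c z e
 (c z e
 (c z e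
 (c z e
 (c (a (nat_lit 0x3540000006)) e e))))))))
 (c (a (nat_lit 0xaf1ef4ae4))
 (c (a (nat_lit 0x1271fd52ec06)) e
 (c (a (nat_lit 0x12d99cd788a6)) e
 (c z e
 (c z e
 (c (a (nat_lit 0x1e0d6c3e048)) e e)))))
 (c (a (nat_lit 0x1734608001))
 (c (a (nat_lit 0x2304f404026)) e
 (c (a (nat_lit 0x91823e02027)) e
 (c (a (nat_lit 0x13736c002046)) e
 (c (a (nat_lit 0x4fca6202008)) e e))))
 (c (a (nat_lit 0x14100a061))
 (c (a (nat_lit 0x1fc5a0202026)) e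
 (c (a (nat_lit 0x13ca80606026)) e
 (c (a (nat_lit 0x1a4420200008)) e e)))
 (c (a (nat_lit 0x80a0c061))
 (c (a (nat_lit 0x11c060802005)) e
 (c (a (nat_lit 0x1a0040000005)) e e))
 (c (a (nat_lit 0x6065c5a1))
 (c (a (nat_lit 0xc000000001)) e e)
 (c (a (nat_lit 0x5c5e04001)) e
 (c (a (nat_lit 0x80808061)) e
 (c (a (nat_lit 0x40604001)) e
 (c (a (nat_lit 0x20204021)) e
 (c (a (nat_lit 0x6061)) e
 (c (a (nat_lit 0x2040a0a1)) e
 (c (a (nat_lit 0x202032e6)) e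
 (c (a (nat_lit 0x1467926a6)) e e))))))))))))))))
 C490)
 (c z C489
 C488)))))))) Tr.c Tr.e (nat_lit 0) C.cx C.cy
noncomputable def C594 : Tr := beta% (fun (c : Nat → Tr → Tr → Tr) (e : Tr) (z : Nat) (a b : Nat → Nat) =>
 (c z
 (c (nat_lit 1)
 (c (a (nat_lit 0x20202021)) C593
 (c (a (nat_lit 0x80808081)) C586
 (c (a (nat_lit 0x60606061)) C583
 C582)))
 (c (nat_lit 1)
 (c (a (nat_lit 0x20202021)) C578
 C575)
 (c (nat_lit 1)
 (c (a (nat_lit 0x20202021)) C573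
 C572)
 (c (nat_lit 1) C571
 (c (nat_lit 1) C569
 (c (nat_lit 1) C567
 (c (a (nat_lit 0x202021)) C565
 (c (a (nat_lit 0x202021))
 (c (a (nat_lit 0x20202021))
 (c (a (nat_lit 0xb7d98ab4e46))
 (c (a (nat_lit 0x8ce8eb4eca786)) e
 (c z e
 (c z e
 (c z e
 (c z e
 (c z e
 (c z e
 (c z e
 (c z e
 (c (a (nat_lit 0x1bd192fb800006)) e
 (c (a (nat_lit 0x18cf6000000005)) e e)))))))))))
 (c z e
 (c z e
 (c z e
 (c z e
 (c z e
 (c z e
 (c (a (nat_lit 0x173186868005)) e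
 (c (a (nat_lit 0x164e2e402106)) e
 (c (a (nat_lit 0x14f7a2a282a4)) e
 (c (a (nat_lit 0x2242425906)) e
 (c (a (nat_lit 0x202578f366)) e
 (c (a (nat_lit 0xcc79d40c46)) e
 (c z e
 (c (a (nat_lit 0x119248662627)) e
 (c (a (nat_lit 0x1884c0402006)) e
 (c (a (nat_lit 0x12a020000004)) e e)))))))))))))))))
 (c (a (nat_lit 0x40404041))
 (c z e
 (c z e
 (c z e
 (c z e
 (c z e
 (c (a (nat_lit 0x1f70ff3edea5)) e
 (c (a (nat_lit 0x108888602046)) e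
 (c (a (nat_lit 0x159964642685)) e
 (c z e
 (c (a (nat_lit 0x2026e8b529)) e
 (c (a (nat_lit 0x24465fe8ca8)) e
 (c z e
 (c z e
 (c (a (nat_lit 0x182c82222228)) e
 (c (a (nat_lit 0x14e020200007)) e e)))))))))))))))
 (c (a (nat_lit 0x20202021)) e
 (c (a (nat_lit 0x20202021))
 (c z e
 (c (a (nat_lit 0x1d30e0602025))
 (c (b (nat_lit 0x1ffff05a0aa183)) e
 (c (b (nat_lit 0x1fe876ef00a006)) e
 (c (b (nat_lit 0x1ffbafa0000006)) e e)))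
 (c (a (nat_lit 0x132828402026))
 (c (a (nat_lit 0x415c28c00005)) e
 (c (a (nat_lit 0xc5ca000000005)) e e))
 (c (a (nat_lit 0x11b4c382e2a5))
 (c (a (nat_lit 0x10800000000004)) e e)
 (c (a (nat_lit 0x282829047)) e e)))))
 (c (a (nat_lit 0x20202021))
 (c (a (nat_lit 0x1d0120e06022))
 (c (a (nat_lit 0x1240c060602026)) e
 (c (a (nat_lit 0x109fef00a00005)) e
 (c (a (nat_lit 0x16c20000000005)) e e)))
 (c (a (nat_lit 0x19fa206060c4))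
 (c (a (nat_lit 0x180de700000005)) e
 (c (a (nat_lit 0x1f000000000003)) e e))
 (c (a (nat_lit 0x20a0bbe6)) e
 (c (b (nat_lit 0x1fe04a196e67)) e e))))
 (c (a (nat_lit 0x60606061))
 (c (a (nat_lit 0x20609b45)) e
 (c (a (nat_lit 0x4047b4ede7)) e e))
 (c (a (nat_lit 0x20404041))
 (c (a (nat_lit 0xedbf4f3e6)) e e)
 (c (a (nat_lit 0x20200041))
 (c (a (nat_lit 0x1f77584384a6)) e
 (c (a (nat_lit 0x10f21b2e1487)) e e))
 (c (nat_lit 1)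
 (c (a (nat_lit 0x969315f0aa5)) e
 (c z e
 (c z e
 (c z e
 (c (a (nat_lit 0x1da820000006)) e e)))))
 (c (a (nat_lit 0x80404041))
 (c z e
 (c z e
 (c (a (nat_lit 0x16a5c5400006)) e
 (c (a (nat_lit 0x136000000006)) e e))))
 (c (a (nat_lit 0x203803))
 (c (a (nat_lit 0x11cd9d9c6004)) e
 (c (a (nat_lit 0x260000001)) e e))
 (c (a (nat_lit 0x2030eb66))
 (c (a (nat_lit 0x2000000001)) e e)
 (c (a (nat_lit 0x526faa27)) e
 (c z e
 (c (a (nat_lit 0xad1caa607)) e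
 (c (a (nat_lit 0x17a9602026)) e
 (c (a (nat_lit 0x12a0203525)) e
 (c z e
 (c z e
 (c z e
 (c (a (nat_lit 0x136040a102)) e
 (c (a (nat_lit 0xa081)) e
 (c (a (nat_lit 0x600001)) e e)))))))))))))))))))))))
 C564))))))))
 (c z
 (c (a (nat_lit 0x202021)) C562
 (c (nat_lit 1)
 (c (a (nat_lit 0x20202021))
 (c (a (nat_lit 0x4040404041)) C550
 (c (nat_lit 1)
 (c z
 (c (a (nat_lit 0x197be080606c1fe4))
 (c (a (nat_lit 0xe2a2e525c6d2da66))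
 (c z e
 (c z e
 (c z e
 (c z e
 (c (a (nat_lit 0x2387c76583e5a83389)) e e)))))
 (c z e
 (c z e
 (c z e
 (c z e
 (c z e
 (c z e
 (c (a (nat_lit 0x12a9a7e3c2d08f0808)) e
 (c (a (nat_lit 0x7a4a34258e78cec88)) e e)))))))))
 (c (a (nat_lit 0x98302e3262f93e7)) e
 (c z e
 (c z e
 (c z e
 (c z e
 (c z e
 (c (a (nat_lit 0x31038f886cbbc65))
 (c (a (nat_lit 0x79a4d89a160800007)) e
 (c (a (nat_lit 0x1b1343e52000000007)) e e))
 (c (a (nat_lit 0xb900fce69ad9d26)) e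
 (c z e
 (c z e
 (c z e
 (c z e
 (c z e
 (c z e
 (c (a (nat_lit 0x160360e080400007)) e
 (c (a (nat_lit 0x194480e000000004)) e e)))))))))))))))))
 (c (a (nat_lit 0x2020202036a8))
 (c z e
 (c z e
 (c z e
 (c z e
 (c z e
 (c z e
 (c (a (nat_lit 0xa0beed04eef5aa8))
 (c (a (nat_lit 0x1a0bc0c20260000008)) e e)
 (c z e
 (c z e
 (c z e
 (c z e
 (c z e
 (c z e
 (c z e
 (c (a (nat_lit 0x1127006080000007)) e e)))))))))))))))
 (c (a (nat_lit 0x202020363008)) e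
 (c (a (nat_lit 0x202031aeecc9)) e
 (c (a (nat_lit 0x203d1ab96968)) e
 (c z e
 (c z e
 (c (a (nat_lit 0x1a55ed4ae706a7))
 (c (a (nat_lit 0x17bbd3b849c99fe7)) e
 (c (a (nat_lit 0x114a8aa723fc1868)) e
 (c (a (nat_lit 0x748236471e70489)) e e)))
 (c (a (nat_lit 0x168b2040404706))
 (c (a (nat_lit 0x72527621f7265c7)) e e)
 (c z e
 (c z e
 (c z e
 (c z e
 (c z e
 (c z e
 (c (a (nat_lit 0x9321998868c65)) e
 (c (a (nat_lit 0xc33d3214725e5)) e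
 (c (a (nat_lit 0x1ac047aded1145)) e e))))))))))))))))))
 (c (nat_lit 1)
 (c (a (nat_lit 0x202020369047))
 (c z e
 (c z e
 (c z e
 (c z e
 (c z e
 (c z e
 (c z e
 (c z e
 (c (a (nat_lit 0x1632a9aeed2ce787)) e e)))))))))
 (c (a (nat_lit 0x3eb895a8)) e
 (c (a (nat_lit 0x203bd9d5c668)) e
 (c z e
 (c z e
 (c z e
 (c (a (nat_lit 0x170261a1802347))
 (c (a (nat_lit 0x102c2a29e90b97a8)) e e)
 (c z e
 (c z e
 (c z e
 (c z e
 (c z e
 (c z e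
 (c z e
 (c (a (nat_lit 0x18b379b8f7cea6)) e
 (c (a (nat_lit 0xff615944b4866)) e e))))))))))))))))
 (c (a (nat_lit 0x2020202001))
 (c (a (nat_lit 0x203d5994c427))
 (c z e
 (c z e
 (c z e
 (c z e
 (c z e
 (c z e
 (c (b (nat_lit 0x19ef761ff4adb2e6)) e e)))))))
 (c z e
 (c z e
 (c z e
 (c z e
 (c (a (nat_lit 0x5a301a08455e6))
 (c (a (nat_lit 0xeaa6ad45d15d248)) e e)
 (c z e
 (c z e
 (c z e
 (c z e
 (c z e
 (c z e
 (c (a (nat_lit 0x187d9a5b13e3a6)) e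
 (c (a (nat_lit 0x1915b69416ad46)) e
 (c (a (nat_lit 0x145512952be006)) e
 (c z e
 (c (a (nat_lit 0x12f56c60202006)) e
 (c (a (nat_lit 0x156c6020000006)) e e))))))))))))))))))
 C549))))
 C548)
 (c (nat_lit 1) C545
 C543)))
 (c z C535
 C518)))) Tr.c Tr.e (nat_lit 0) C.cx C.cy
noncomputable def C638 : Tr := beta% (fun (c : Nat → Tr → Tr → Tr) (e : Tr) (z : Nat) (a b : Nat → Nat) =>
 (c (a (nat_lit 0x60606061))
 (c (a (nat_lit 0x202001))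
 (c (a (nat_lit 0x2020203309a5))
 (c (a (nat_lit 0x153090b0b253d505))
 (c z e
 (c z e
 (c z e
 (c z e
 (c (a (nat_lit 0x1951ca23eceead2946)) e e)))))
 (c z e
 (c z e
 (c z e
 (c (a (nat_lit 0x12f2bbea2061cd44)) e
 (c (a (nat_lit 0xf14722c76f8ea4)) e
 (c z e
 (c (a (nat_lit 0x4498ac803e95685)) e
 (c z e
 (c (a (nat_lit 0xe89e43236254065)) e
 (c (a (nat_lit 0xb733e38f7455545)) e e)))))))))))
 (c (a (nat_lit 0x202033290927)) e
 (c (a (nat_lit 0x20214c7268767)) e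
 (c z e
 (c (a (nat_lit 0x12a7c8a9820a87))
 (c (b (nat_lit 0x1fe585236e2c1b07)) e
 (c (a (nat_lit 0x323a82c2a54ea28)) e
 (c z e
 (c z e
 (c z e
 (c z e
 (c (a (nat_lit 0x128625e4a5c00008)) e e)))))))
 (c (a (nat_lit 0x7256922f3aa06))
 (c (a (nat_lit 0x56ced989ed86265)) e
 (c z e
 (c z e
 (c z e
 (c (a (nat_lit 0xc98918458eae006)) e
 (c (a (nat_lit 0x3b20465a0000007)) e e))))))
 (c z e
 (c z e
 (c (a (nat_lit 0xb772d8040a0a6))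
 (c (a (nat_lit 0x7a5ad5407800007)) e e)
 (c (a (nat_lit 0x1c72c5a6e325e6)) e
 (c (a (nat_lit 0x1c2f2f278a48e6)) e
 (c z e
 (c z e
 (c z e
 (c (a (nat_lit 0xc4a6bb0ad6e65)) e
 (c (a (nat_lit 0x66a330caebc04)) e
 (c (a (nat_lit 0x28e24431b244)) e
 (c (a (nat_lit 0x1690713eafc004)) e e))))))))))))))))))
 (c (a (nat_lit 0x6060606061))
 (c (a (nat_lit 0x203d6a0b2d26)) e
 (c z e
 (c z e
 (c z e
 (c z e
 (c z e
 (c z e
 (c (a (nat_lit 0x1fb44727274e66))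
 (c (a (nat_lit 0xc675528c0000008)) e e)
 (c z e
 (c z e
 (c z e
 (c z e
 (c z e
 (c (a (nat_lit 0x5a9b2ce955fa6)) e
 (c (b (nat_lit 0x1fe46086f159e6)) e
 (c (a (nat_lit 0x6a2a9335bec26)) e e))))))))))))))))
 (c (a (nat_lit 0x2020204041)) e
 (c (a (nat_lit 0x2020202021))
 (c z e
 (c z e
 (c z e
 (c z e
 (c z e
 (c z e
 (c z e
 (c z e
 (c z e
 (c z e
 (c z e
 (c z e
 (c z e
 (c (a (nat_lit 0x16810060200006)) e
 (c (a (nat_lit 0x11a3e000000002)) e e)))))))))))))))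
 (c (a (nat_lit 0x8080808081))
 (c (a (nat_lit 0x4d15104e02066))
 (c z e
 (c (a (nat_lit 0xa2e65eb27297347)) e e))
 (c (a (nat_lit 0x1dd70060828ea6))
 (c (a (nat_lit 0xc542b04efee0fa7)) e e)
 (c z e
 (c z e
 (c z e
 (c z e
 (c (a (nat_lit 0x14b3af89c86be7)) e
 (c z e
 (c z e
 (c z e
 (c z e
 (c (a (nat_lit 0x7686ff6672007)) e
 (c (a (nat_lit 0x10982f60000007)) e
 (c (a (nat_lit 0x11800000000006)) e e))))))))))))))
 (c (a (nat_lit 0xa0a0a0a0a1))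
 (c (a (nat_lit 0x16a5a5488ea565))
 (c (a (nat_lit 0x18f18091a96b6565)) e e)
 (c z e
 (c z e
 (c z e
 (c (a (nat_lit 0x1ad1eded018226)) e
 (c (a (nat_lit 0x1874510e22b166)) e
 (c z e
 (c z e
 (c z e
 (c (a (nat_lit 0x2eb50589e586)) e
 (c (a (nat_lit 0xd73c4a4c00006)) e
 (c (a (nat_lit 0x1ec02000000005)) e e))))))))))))
 (c (a (nat_lit 0x8080808081))
 (c z e
 (c z e
 (c z e
 (c z e
 (c z e
 (c z e
 (c z e
 (c z e
 (c (a (nat_lit 0x4d78163a56005)) e e)))))))))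
 (c (a (nat_lit 0x8080608081))
 (c (a (nat_lit 0x12a93c09406024)) e
 (c (a (nat_lit 0x15f831c08082e6)) e e))
 (c (a (nat_lit 0x2060604021))
 (c (a (nat_lit 0x114f4f8f2a2c25)) e e)
 (c (a (nat_lit 0x6060406061))
 (c z e
 (c (a (nat_lit 0x54cf14184dd26)) e e))
 (c (a (nat_lit 0x2020203945))
 (c (a (nat_lit 0x10a474426ffe6)) e e)
 (c (a (nat_lit 0x2020349b84)) e
 (c (a (nat_lit 0x202e758124)) e
 (c z e
 (c (a (nat_lit 0x153c68028244)) e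
 (c (a (nat_lit 0x681802032a6)) e
 (c (a (nat_lit 0x1a04032c986)) e
 (c (a (nat_lit 0x807f10ca5a7)) e
 (c z e
 (c (a (nat_lit 0x16ebc0202006)) e
 (c (a (nat_lit 0x178020402e85)) e
 (c (a (nat_lit 0xa100bd6764)) e e))))))))))))))))))))))
 (c (a (nat_lit 0x60606061))
 (c (a (nat_lit 0x4040404041))
 (c (a (nat_lit 0x57707ab6a6a84))
 (c (a (nat_lit 0x64a74eced0fc965))
 (c z e
 (c (a (nat_lit 0x373c86383e5a483c7)) e e))
 (c (a (nat_lit 0x8d5cd8e7307e6a6))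
 (c (a (nat_lit 0x1d0c068624e36043a7)) e e)
 (c z e
 (c z e
 (c z e
 (c (a (nat_lit 0x106c48efaccd48e6)) e
 (c (a (nat_lit 0x9cb658d4c685586)) e
 (c (a (nat_lit 0x83c5edc85e9a66)) e e))))))))
 (c (b (nat_lit 0x15203fe2e37a85))
 (c (a (nat_lit 0x133813f74a8b0046))
 (c (a (nat_lit 0x14d04e0663a0e04e26)) e e)
 (c z e
 (c z e
 (c z e
 (c (a (nat_lit 0x322ca062747f747)) e
 (c z e
 (c z e
 (c z e
 (c (a (nat_lit 0x2253379e4a00008)) e e)))))))))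
 (c z e
 (c z e
 (c z e
 (c (a (nat_lit 0xed6f4868666c5))
 (c (a (nat_lit 0x2c153cd6923e388)) e e)
 (c (a (nat_lit 0x1332e16202e3e5))
 (c (a (nat_lit 0x12d2af2a07038008)) e
 (c (a (nat_lit 0x101090e4c0000008)) e e))
 (c (a (nat_lit 0x112343438586c5))
 (c (a (nat_lit 0xb7c28000000006)) e e)
 (c z e
 (c (a (nat_lit 0x1e2232e553087)) e
 (c z e
 (c z e
 (c (a (nat_lit 0x97ce4cbd1a405)) e
 (c (a (nat_lit 0x10c4a82ae48506)) e
 (c (a (nat_lit 0x8d01588c9a6e5)) e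
 (c (a (nat_lit 0x13990bed454005)) e e))))))))))))))))
 (c (a (nat_lit 0x4040404041))
 (c (a (nat_lit 0xc04222deb785))
 (c (a (nat_lit 0x15d0afeb8ac04266)) e
 (c z e
 (c z e
 (c z e
 (c (a (nat_lit 0xe2618283241188)) e
 (c z e
 (c z e
 (c z e
 (c (a (nat_lit 0x3ac344440000008)) e e)))))))))
 (c z e
 (c z e
 (c (a (nat_lit 0xb554e8120a226)) e
 (c (a (nat_lit 0x138c20a080e226))
 (c (a (nat_lit 0x1721024838201c9)) e e)
 (c (a (nat_lit 0x11024222830326)) e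
 (c z e
 (c (a (nat_lit 0x4384698c1207)) e
 (c (b (nat_lit 0x1fe0672f919068)) e
 (c z e
 (c z e
 (c (a (nat_lit 0x159bf5782d9386)) e
 (c (a (nat_lit 0x11282d42c8c766)) e
 (c (a (nat_lit 0x10bae6326f8325)) e e))))))))))))))
 (c (a (nat_lit 0x20204041))
 (c z e
 (c z e
 (c z e
 (c z e
 (c z e
 (c (a (nat_lit 0x160442cebbb66)) e e))))))
 (c (a (nat_lit 0x2020202021))
 (c z e
 (c z e
 (c z e
 (c z e
 (c (a (nat_lit 0x1e6af74b3d167)) e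
 (c z e
 (c z e
 (c z e
 (c z e
 (c z e
 (c z e
 (c (b (nat_lit 0x1c9fe020200007)) e
 (c (a (nat_lit 0x103e000000001)) e e)))))))))))))
 (c (a (nat_lit 0x6060606061))
 (c z e
 (c (a (nat_lit 0x10141a7cf5b7e5))
 (c (a (nat_lit 0x106f068ba3200008)) e e)
 (c z e
 (c z e
 (c z e
 (c (a (nat_lit 0x9c9e9504d6ca8)) e
 (c z e
 (c z e
 (c z e
 (c (a (nat_lit 0x43091b69c003)) e
 (c (a (nat_lit 0xa3011a0000003)) e e)))))))))))
 (c (a (nat_lit 0x20202001))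
 (c (b (nat_lit 0x1feb30e147e383))
 (c (a (nat_lit 0x1d13010300000004)) e e)
 (c z e
 (c z e
 (c (a (nat_lit 0xf700f21e150c6)) e
 (c (a (nat_lit 0x1150d06c571e47)) e
 (c z e
 (c z e
 (c (a (nat_lit 0x8292e3e42006)) e
 (c (a (nat_lit 0x6d6e7c4200006)) e
 (c (a (nat_lit 0x1663a000000006)) e e))))))))))
 (c (a (nat_lit 0x20002001))
 (c (a (nat_lit 0xfe6fa6fe9a945)) e
 (c (a (nat_lit 0x8940ea0c08186)) e
 (c z e
 (c z e
 (c z e
 (c z e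
 (c (a (nat_lit 0x12c3e848a10005)) e
 (c (a (nat_lit 0x155defc0000004)) e e))))))))
 (c (a (nat_lit 0x6080a0a041))
 (c (b (nat_lit 0x15ee6dee3ff644)) e e)
 (c (a (nat_lit 0x2020203465))
 (c z e
 (c (b (nat_lit 0x1fe0c26aea5bc7)) e e))
 (c (a (nat_lit 0x2035fa65))
 (c (a (nat_lit 0x3a540ca4d7da7)) e e)
 (c (a (nat_lit 0x202dfba924)) e
 (c z e
 (c (a (nat_lit 0xc93ace04005)) e
 (c (a (nat_lit 0x13ebc0202d45)) e
 (c (a (nat_lit 0x17a0803aed84)) e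
 (c (a (nat_lit 0xe6e5bd52a05)) e
 (c z e
 (c (a (nat_lit 0x108aa0202005)) e
 (c (a (nat_lit 0x168040208c64)) e
 (c (b (nat_lit 0x5ff6f683)) e
 (c z e
 (c (a (nat_lit 0x5718fe4e004)) e
 (c (a (nat_lit 0x17cb20000004)) e e)))))))))))))))))))))))
 C637))) Tr.c Tr.e (nat_lit 0) C.cx C.cy
noncomputable def C656 : Tr := beta% (fun (c : Nat → Tr → Tr → Tr) (e : Tr) (z : Nat) (a b : Nat → Nat) =>
 (c (a (nat_lit 0xa0a0a0a1))
 (c (nat_lit 1)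
 (c z C655
 (c z C653
 (c z
 (c z
 (c (a (nat_lit 0x3838388ef8d66f743))
 (c z e
 (c z e
 (c z e
 (c z e
 (c z e
 (c z e
 (c z e
 (c z e
 (c z e
 (c z e
 (c z e
 (c z e
 (c (a (nat_lit 0x2c7290d2422e1285488)) e e)))))))))))))
 (c (a (nat_lit 0x1818e03e3a24a1c66))
 (c z e
 (c z e
 (c z e
 (c z e
 (c z e
 (c z e
 (c z e
 (c z e
 (c (a (nat_lit 0x945488d284709b1b967)) e
 (c (a (nat_lit 0x81c362c2e2e5590de8)) e
 (c (a (nat_lit 0x80c6c2ac6c56a481308)) e e)))))))))))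
 (c z e
 (c z e
 (c z e
 (c z e
 (c z e
 (c z e
 (c z e
 (c z e
 (c z e
 (c (a (nat_lit 0x160fec8b8a66260466)) e
 (c (a (nat_lit 0x116e4c2c8a668564e6)) e e)))))))))))))
 (c z
 (c z e
 (c z e
 (c z e
 (c z e
 (c z e
 (c z e
 (c z e
 (c z e
 (c z e
 (c z e
 (c (a (nat_lit 0x116d0ded6b8a6787e7)) e
 (c z e
 (c (a (nat_lit 0x16b79fdfbafb56bd87)) e e)))))))))))))
 (c z
 (c z e
 (c z e
 (c z e
 (c z e
 (c z e
 (c z e
 (c z e
 (c z e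
 (c z e
 (c (a (nat_lit 0x157312cc8a4a6928c7)) e e))))))))))
 (c z
 (c z e
 (c z e
 (c z e
 (c z e
 (c z e
 (c z e
 (c z e
 (c (a (nat_lit 0x176e89868483a971a6)) e e))))))))
 (c (a (nat_lit 0x202020202032c7))
 (c z e
 (c z e
 (c z e
 (c z e
 (c z e
 (c z e
 (c (a (nat_lit 0xe7bd42a4b92d6abc5)) e
 (c (a (nat_lit 0x122e6f8e55310b8967)) e e))))))))
 (c (a (nat_lit 0x2020202036e8c7))
 (c z e
 (c z e
 (c z e
 (c z e
 (c z e
 (c (a (nat_lit 0xd20c2816150850607)) e e))))))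
 (c (a (nat_lit 0x20202030a7e288))
 (c z e
 (c z e
 (c z e
 (c (a (nat_lit 0xf0b194bc6c9ace9c7)) e e))))
 (c (a (nat_lit 0x20203384846528)) e
 (c (a (nat_lit 0x13e681a38147)) e
 (c z e
 (c z e
 (c z e
 (c z e
 (c z e
 (c z e
 (c z e
 (c z e
 (c z e
 (c (a (nat_lit 0x178967c4e7c02006)) e e)))))))))))))))))))
 (c z
 (c z e
 (c z e
 (c (a (nat_lit 0x40404040405e86)) e
 (c (a (nat_lit 0x2020202031c447))
 (c z e
 (c z e
 (c z e
 (c z e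
 (c z e
 (c z e
 (c (a (nat_lit 0x1572c76b0c6aec2226)) e e)))))))
 (c (a (nat_lit 0x2020203aace327)) e
 (c (a (nat_lit 0x202030c822e388)) e
 (c (a (nat_lit 0x2032a262a422e8)) e
 (c z e
 (c z e
 (c z e
 (c z e
 (c z e
 (c z e
 (c z e
 (c z e
 (c (a (nat_lit 0x1435ab8767ca0386)) e
 (c (a (nat_lit 0x1247c424a6e08006)) e
 (c z e
 (c (a (nat_lit 0xc0cb16362616365)) e
 (c z e
 (c (a (nat_lit 0x1ec563a1e3400004)) e e)))))))))))))))))))))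
 C652))))
 (c (a (nat_lit 0xe0e0e0e0e1)) C651
 C650))
 (c (a (nat_lit 0x60606061))
 (c (a (nat_lit 0x4040404041)) C647
 C646)
 (c (a (nat_lit 0x80808081))
 (c (a (nat_lit 0x8080808081)) C645
 C644)
 (c (a (nat_lit 0x80606081))
 (c (a (nat_lit 0x6060606061)) C642
 C641)
 (c (a (nat_lit 0x60606061))
 (c (nat_lit 1)
 (c z
 (c (a (nat_lit 0x12e98966e9002004)) e
 (c (a (nat_lit 0x14946f90a0402025))
 (c (a (nat_lit 0x10b6d45375f2a77d27)) e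
 (c z e
 (c z e
 (c z e
 (c z e
 (c (a (nat_lit 0x5e794e8aa60e80a27)) e e))))))
 (c z e
 (c (a (nat_lit 0x7e9204020aad265))
 (c z e
 (c (a (nat_lit 0x1916ebed1bf48d2588)) e
 (c z e
 (c (a (nat_lit 0x4a7106744e4404a48)) e e))))
 (c (a (nat_lit 0xbe2e2e333518f25))
 (c (a (nat_lit 0x178e24ec8d26a4a6e7)) e
 (c (a (nat_lit 0x1e64e925c5046b4b67)) e e))
 (c z e
 (c (a (nat_lit 0x567cc6e28d24aa5)) e
 (c z e
 (c (a (nat_lit 0x649e52fa6f012e5)) e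
 (c (a (nat_lit 0xa47eeed8ccd5066)) e
 (c z e
 (c (a (nat_lit 0x5e566279139f1a5)) e
 (c (a (nat_lit 0x1c2a8cdd3cae986)) e
 (c (a (nat_lit 0x3ea13da732e3226)) e
 (c (a (nat_lit 0x92b516a89a3e006)) e e)))))))))))))))
 (c z
 (c (a (nat_lit 0x10ad8aa04080a666))
 (c (a (nat_lit 0x147250b30ea4b452a7)) e
 (c z e
 (c z e
 (c z e
 (c z e
 (c (a (nat_lit 0x87db239622e3773c7)) e e))))))
 (c (a (nat_lit 0x13f2208080cc9a46)) e
 (c z e
 (c z e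
 (c z e
 (c (a (nat_lit 0x10db08a87a62da6)) e
 (c z e
 (c z e
 (c z e
 (c z e
 (c (a (nat_lit 0xbc6aa1250869d67)) e e)))))))))))
 (c (a (nat_lit 0x2020202039a6))
 (c z e
 (c z e
 (c z e
 (c z e
 (c z e
 (c z e
 (c (a (nat_lit 0xaaf518dcd51d786)) e e)))))))
 (c (a (nat_lit 0x2020203045a7))
 (c z e
 (c (b (nat_lit 0x9fe6678b16c5a7))
 (c (a (nat_lit 0x193cd44c2a8f0be9c9)) e e)
 (c z e
 (c z e
 (c z e
 (c z e
 (c (b (nat_lit 0x13638c51b6b01fe6)) e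
 (c (a (nat_lit 0x58a4cecd444c627)) e
 (c z e
 (c z e
 (c (a (nat_lit 0xa8c482ed9c00008)) e
 (c (a (nat_lit 0x1482c24000000006)) e e))))))))))))
 (c (a (nat_lit 0x20203441a1e7))
 (c (a (nat_lit 0x6a6e0e8a27a23e6))
 (c (a (nat_lit 0x1a11e9e623856f0366)) e e)
 (c z e
 (c z e
 (c z e
 (c (b (nat_lit 0x1fe7428366304728)) e
 (c (a (nat_lit 0xea2f0b7f90ec3a7)) e
 (c z e
 (c z e
 (c (a (nat_lit 0x1271ee0767052008)) e
 (c (a (nat_lit 0x140ecdfd00000008)) e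
 (c (a (nat_lit 0x1861c00000000006)) e e)))))))))))
 (c (a (nat_lit 0x203c0327c9c6)) e
 (c (a (nat_lit 0x4314787a80266))
 (c (a (nat_lit 0x284ca31c96aeda6)) e
 (c z e
 (c z e
 (c z e
 (c z e
 (c (a (nat_lit 0xff1adb899ca0007)) e e))))))
 (c z e
 (c (a (nat_lit 0xd4ef1288bd105))
 (c (a (nat_lit 0x4c92784d7b46087)) e
 (c (a (nat_lit 0x9ac285f0f862247)) e e))
 (c (a (nat_lit 0x10ca2a0d112005))
 (c (a (nat_lit 0x906700b6380a107)) e e)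
 (c z e
 (c (a (nat_lit 0xa51940d8d63a6)) e
 (c (a (nat_lit 0xf318b0aeb0766)) e
 (c (a (nat_lit 0x12cc4d103190c6)) e
 (c (a (nat_lit 0xa0a0eb914a05)) e
 (c z e
 (c (a (nat_lit 0xa504914ac85)) e
 (c (a (nat_lit 0xbd1ead66e56a5)) e
 (c (a (nat_lit 0xec7ad4b73b225)) e
 (c (a (nat_lit 0x94eed1549e005)) e e))))))))))))))))))))
 C639)
 C638)))))) Tr.c Tr.e (nat_lit 0) C.cx C.cy
noncomputable def C678 : Tr := beta% (fun (c : Nat → Tr → Tr → Tr) (e : Tr) (z : Nat) (a b : Nat → Nat) =>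
 (c (nat_lit 1)
 (c (a (nat_lit 0x20202021))
 (c (a (nat_lit 0x2020202021))
 (c z C677
 (c z C676
 (c z C674
 C673)))
 (c (a (nat_lit 0x4040404041))
 (c z C670
 (c z C668
 C667))
 (c (a (nat_lit 0x8080808081))
 (c z C665
 (c z
 (c z
 (c (a (nat_lit 0x60606179874429363)) e
 (c (a (nat_lit 0x242521132e2f27645))
 (c z e
 (c z e
 (c z e
 (c z e
 (c z e
 (c z e
 (c z e
 (c z e
 (c (a (nat_lit 0x385462b072425a5ff87)) e
 (c z e
 (c (a (nat_lit 0xe4fcf96aa6d7e371707)) e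
 (c (a (nat_lit 0xacd11ea65f4d37c4928)) e e))))))))))))
 (c z e
 (c (a (nat_lit 0x1d165403cf7c399865))
 (c z e
 (c z e
 (c z e
 (c z e
 (c (a (nat_lit 0x4cb01040e47e5315a87)) e
 (c (a (nat_lit 0x32464c66787af1911a7)) e
 (c z e
 (c (a (nat_lit 0x5c724a5a7ca248b50e8)) e
 (c (a (nat_lit 0x668e485f5472b580c48)) e e)))))))))
 (c z e
 (c z e
 (c z e
 (c z e
 (c z e
 (c z e
 (c (a (nat_lit 0x102682038448e74405)) e e)))))))))))
 (c z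
 (c z e
 (c z e
 (c z e
 (c z e
 (c z e
 (c z e
 (c z e
 (c z e
 (c z e
 (c z e
 (c z e
 (c (a (nat_lit 0xcf23412af0ce9e326)) e e))))))))))))
 (c z
 (c z e
 (c z e
 (c z e
 (c z e
 (c z e
 (c z e
 (c z e
 (c z e
 (c (a (nat_lit 0x192d6a0d09a70f70e5)) e
 (c (a (nat_lit 0xa2b126d29e4256746)) e
 (c (a (nat_lit 0x16ff5bb7ef55a593e5)) e e)))))))))))
 (c z
 (c z e
 (c z e
 (c z e
 (c z e
 (c z e
 (c z e
 (c z e
 (c (a (nat_lit 0xe1aed332dbf1beb84)) e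
 (c (a (nat_lit 0xded724e8b2889ef86)) e
 (c (a (nat_lit 0xa0b0b8a4b6f8d10c7)) e e))))))))))
 (c (a (nat_lit 0x20202020203d46))
 (c z e
 (c z e
 (c z e
 (c z e
 (c z e
 (c z e
 (c (a (nat_lit 0x704c74e36c6e7e926)) e e)))))))
 (c (a (nat_lit 0x202020203f4d26))
 (c z e
 (c z e
 (c z e
 (c z e
 (c (a (nat_lit 0x1009d1c36622644586)) e
 (c (a (nat_lit 0xa50220503438d8d46)) e e))))))
 (c (a (nat_lit 0x20202035c7e807))
 (c z e
 (c z e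
 (c z e
 (c z e
 (c (a (nat_lit 0x186f71add0eedabea6)) e e)))))
 (c (a (nat_lit 0x20203a08aac607)) e
 (c (a (nat_lit 0x203e68a9e24246)) e e)))))))))
 C664))
 (c (a (nat_lit 0x4040404041)) C663
 (c (a (nat_lit 0x6060406061)) C661
 (c (a (nat_lit 0x4040404041)) C659
 C658))))))
 C656)
 (c (nat_lit 1)
 (c (a (nat_lit 0x60606061))
 (c (a (nat_lit 0x4040404041)) C635
 (c (a (nat_lit 0xe0e0e0e0e1)) C631
 C630))
 (c (nat_lit 1)
 (c (a (nat_lit 0x10101010101)) C627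
 C626)
 C625))
 (c (nat_lit 1)
 (c (nat_lit 1) C621
 (c (nat_lit 1) C618
 C617))
 (c (nat_lit 1)
 (c (a (nat_lit 0x40404041))
 (c (nat_lit 1) C615
 (c (a (nat_lit 0x8080808081))
 (c z
 (c (a (nat_lit 0x1adf3bc343816025))
 (c z e
 (c z e
 (c z e
 (c z e
 (c (a (nat_lit 0x5cde8cceeb22b6be8))
 (c (a (nat_lit 0x5c462a4a2e4d0b10589)) e e)
 (c z e
 (c z e
 (c (a (nat_lit 0x3a7d44b85c1c58027)) e
 (c (a (nat_lit 0x26b0925a2435aa747)) e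
 (c z e
 (c z e
 (c z e
 (c (a (nat_lit 0x6b2dc77f080000008)) e e)))))))))))))
 (c z e
 (c z e
 (c (a (nat_lit 0x11341572a33a7525)) e
 (c (a (nat_lit 0xcc9c68133c80e46))
 (c (a (nat_lit 0x1455c95394b70cd068)) e
 (c z e
 (c z e
 (c z e
 (c (a (nat_lit 0x704ebe97104c82789)) e e)))))
 (c z e
 (c z e
 (c z e
 (c (a (nat_lit 0x5462fd1e369c1a6)) e
 (c z e
 (c z e
 (c (a (nat_lit 0x1c31ba526a8c4c86)) e
 (c (a (nat_lit 0x17bab919b736a646)) e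
 (c z e
 (c z e
 (c z e
 (c (a (nat_lit 0x7170d8763c00006)) e
 (c (a (nat_lit 0x16cd238000000006)) e e))))))))))))))))))
 (c z e
 (c z e
 (c (a (nat_lit 0x2020202030a8))
 (c z e
 (c (b (nat_lit 0x2a41fea82f65e27)) e
 (c z e
 (c z e
 (c z e
 (c (a (nat_lit 0x5348a2c30b1a9e8)) e
 (c z e
 (c z e
 (c z e
 (c (a (nat_lit 0x9080385840b72c8)) e e))))))))))
 (c (a (nat_lit 0x202020304ba8))
 (c (a (nat_lit 0x81e04040f742a8))
 (c (a (nat_lit 0x137dd8b7acae282848)) e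
 (c z e
 (c z e
 (c z e
 (c (a (nat_lit 0x1227ad2cea00000009)) e e)))))
 (c z e
 (c z e
 (c z e
 (c (a (nat_lit 0x2fd2b10f3910508)) e
 (c z e
 (c z e
 (c z e
 (c (b (nat_lit 0x94cbfec8fd411c8)) e e)))))))))
 (c (a (nat_lit 0x202035d02e08)) e
 (c (a (nat_lit 0x20396dcd03c8)) e
 (c z e
 (c (a (nat_lit 0x128eea60a18607))
 (c (a (nat_lit 0x7b06d26af462627)) e
 (c z e
 (c z e
 (c z e
 (c (a (nat_lit 0xb6ed3d4ede00009)) e e)))))
 (c z e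
 (c z e
 (c z e
 (c (a (nat_lit 0x80faf55dc5547)) e
 (c z e
 (c z e
 (c z e
 (c (a (nat_lit 0xb2b17f52b1a65)) e
 (c (a (nat_lit 0x12dab01510925)) e
 (c z e
 (c z e
 (c (a (nat_lit 0x7776fa0606005)) e
 (c (a (nat_lit 0x16ef2020000005)) e e))))))))))))))))))))))
 C614))
 C613)
 C609))))) Tr.c Tr.e (nat_lit 0) C.cx C.cy
noncomputable def C705 : Tr := beta% (fun (c : Nat → Tr → Tr → Tr) (e : Tr) (z : Nat) (a b : Nat → Nat) =>
 (c (a (nat_lit 0x20202021))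
 (c (a (nat_lit 0x2020202021))
 (c z
 (c (a (nat_lit 0x9c9c9c9d3154f82)) e
 (c (a (nat_lit 0x5a5a5b3b38ec164))
 (c z e
 (c z e
 (c z e
 (c z e
 (c z e
 (c z e
 (c z e
 (c z e
 (c z e
 (c z e
 (c (a (nat_lit 0x525a4a3e643c39ce6)) e
 (c z e
 (c (a (nat_lit 0x6a648cda93fd78ce6)) e
 (c (a (nat_lit 0x34425131288a00007)) e
 (c (a (nat_lit 0x86bac1ec000000006)) e e)))))))))))))))
 (c (a (nat_lit 0x46470122d804824))
 (c z e
 (c z e
 (c z e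
 (c z e
 (c z e
 (c z e
 (c z e
 (c z e
 (c (a (nat_lit 0x1e142c2a260a0f027)) e
 (c (a (nat_lit 0x263a382c201760587)) e
 (c (a (nat_lit 0x4240525e177f32967)) e e)))))))))))
 (c (a (nat_lit 0x46fd26d8047a7c4))
 (c z e
 (c z e
 (c z e
 (c z e
 (c (a (nat_lit 0x6e6d1e76a28e88767)) e
 (c z e
 (c z e
 (c (a (nat_lit 0x44928c6c4075964c6)) e
 (c (a (nat_lit 0x401c2e182f821c267)) e
 (c (a (nat_lit 0x6484a2556b2692547)) e e))))))))))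
 (c (a (nat_lit 0x138eb58a01042424))
 (c z e
 (c z e
 (c z e
 (c z e
 (c (a (nat_lit 0x68546cbe9054557a6)) e
 (c z e
 (c z e
 (c (a (nat_lit 0xbe865c559e8656c86)) e e))))))))
 (c (a (nat_lit 0x137130c305c3c3c3))
 (c z e
 (c z e
 (c z e
 (c (a (nat_lit 0x589274a022312e846)) e
 (c (a (nat_lit 0xaca2ac6660c50cb66)) e
 (c z e
 (c (a (nat_lit 0x7e142772503b286a6)) e e)))))))
 (c z e
 (c (a (nat_lit 0x7a22b44e4f33602))
 (c (a (nat_lit 0x425e483e5f8cdc7e6)) e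
 (c (a (nat_lit 0x3c3e2c43364646347)) e
 (c z e
 (c (a (nat_lit 0x6a8f50667c52ba406)) e
 (c (a (nat_lit 0x43d68481288600006)) e
 (c (a (nat_lit 0x1917a9e3a000000006)) e e))))))
 (c (a (nat_lit 0x2a826c6ebaf1623)) e
 (c z e
 (c z e
 (c z e
 (c z e
 (c (a (nat_lit 0x16bbbb8cea4a8cc4)) e
 (c (a (nat_lit 0xff4cf2d0d6fa6c4)) e
 (c (a (nat_lit 0x1a6f73d9ba2ba403)) e e))))))))))))))))
 (c z
 (c (a (nat_lit 0x46475522f408a05))
 (c z e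
 (c z e
 (c z e
 (c z e
 (c (a (nat_lit 0x627e65747298d4de7))
 (c (a (nat_lit 0x828072963e5838df7a8)) e
 (c (a (nat_lit 0x9eb0ae689ad107a53c9)) e e))
 (c z e
 (c z e
 (c z e
 (c z e
 (c z e
 (c (a (nat_lit 0x647262605a6b89887)) e
 (c z e
 (c (a (nat_lit 0x2a364e38e72a50008)) e e)))))))))))))
 (c z e
 (c (a (nat_lit 0x19b7d766af2d89e6))
 (c z e
 (c z e
 (c z e
 (c z e
 (c (a (nat_lit 0x3b3e509af4aaaaaa8)) e
 (c (a (nat_lit 0x5c62ace29682a5028)) e e))))))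
 (c z e
 (c (a (nat_lit 0x14cd868681213de5))
 (c (a (nat_lit 0xb10cdae2aafa5f287)) e e)
 (c z e
 (c (a (nat_lit 0x8490848d34c0306))
 (c (a (nat_lit 0x10e787c5b9d310d767)) e
 (c (a (nat_lit 0x5a502b12e89cc4ae8)) e e))
 (c (a (nat_lit 0x5c0c173872cace5))
 (c (a (nat_lit 0x5225a29860827c066)) e
 (c (a (nat_lit 0x37672870a67a726c6)) e e))
 (c (a (nat_lit 0x525732b509167e5)) e
 (c z e
 (c z e
 (c (a (nat_lit 0xe5133ac4a8909c6)) e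
 (c (a (nat_lit 0x14992fa885e76b25)) e
 (c z e
 (c (b (nat_lit 0xed3567ff2278065)) e
 (c z e
 (c (a (nat_lit 0x1779db7a70aded24)) e
 (c (a (nat_lit 0x1a5d7b4701600003)) e e))))))))))))))))))
 C704))
 C703)
 (c (a (nat_lit 0x40404041))
 (c (a (nat_lit 0x2020202021))
 (c z
 (c (a (nat_lit 0x19ef6d82e7a642a4))
 (c z e
 (c z e
 (c z e
 (c z e
 (c z e
 (c z e
 (c z e
 (c (a (nat_lit 0xaeb75342faf6c1b45)) e
 (c (a (nat_lit 0x262840303e3950387)) e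
 (c (a (nat_lit 0x1c1820122b42704a7)) e e))))))))))
 (c z e
 (c z e
 (c (a (nat_lit 0x5756a2e2e7f844))
 (c z e
 (c (a (nat_lit 0xbecaa6a4d7133ae28)) e
 (c z e
 (c z e
 (c z e
 (c (a (nat_lit 0x5e9a93924274484c8)) e e))))))
 (c (a (nat_lit 0xc2842e2e7702e25))
 (c z e
 (c z e
 (c z e
 (c (a (nat_lit 0x4aa665acc93e362e7)) e
 (c (a (nat_lit 0x8c5d5422da624c428)) e e)))))
 (c z e
 (c z e
 (c z e
 (c (a (nat_lit 0xa5316d32c262625)) e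
 (c z e
 (c (a (nat_lit 0x1a6f6d20612182c4)) e
 (c (a (nat_lit 0x12d001030302f5e4)) e
 (c (a (nat_lit 0xc26ed3010b8c725)) e
 (c z e
 (c (a (nat_lit 0x1012b2f64d0067a5)) e
 (c z e
 (c (a (nat_lit 0xe96f7edca200005)) e
 (c (a (nat_lit 0x10b183c000000005)) e e))))))))))))))))))
 (c z
 (c z e
 (c (a (nat_lit 0x172cb00604ab5a6)) e
 (c (a (nat_lit 0xe4cc4252e18d266)) e
 (c z e
 (c z e
 (c z e
 (c z e
 (c z e
 (c z e
 (c (a (nat_lit 0x1f876221c2636025)) e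
 (c (a (nat_lit 0x132eeeae8ed19126)) e e)))))))))))
 (c z
 (c (a (nat_lit 0x104ac3a3e1a2dae6)) e
 (c z e
 (c z e
 (c z e
 (c z e
 (c z e
 (c z e
 (c (a (nat_lit 0x4c343a201219ba5)) e
 (c z e
 (c (a (nat_lit 0xa89ededf1052886)) e e))))))))))
 (c (a (nat_lit 0x202020203e26))
 (c z e
 (c (a (nat_lit 0xa6c4e118d1a7207))
 (c (a (nat_lit 0xc0f50b06fabeb0629)) e
 (c z e
 (c z e
 (c z e
 (c (a (nat_lit 0xd574ca2a508200008)) e e)))))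
 (c z e
 (c z e
 (c z e
 (c (a (nat_lit 0x47728ac0c09a4a7)) e
 (c z e
 (c z e
 (c z e
 (c (a (nat_lit 0xd8446232291c066)) e e))))))))))
 (c (a (nat_lit 0x2020203e53c6))
 (c (a (nat_lit 0x3660301c39ae706))
 (c z e
 (c z e
 (c z e
 (c z e
 (c (a (nat_lit 0x11ede8c38640000008)) e e)))))
 (c z e
 (c z e
 (c (a (nat_lit 0x12191e8aae98127)) e
 (c (a (nat_lit 0x6964cee4e296c67)) e
 (c (a (nat_lit 0x14a36a2950c82146)) e
 (c z e
 (c z e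
 (c (a (nat_lit 0x5c60667d6a2db87)) e e)))))))))
 (c (a (nat_lit 0x202036315027)) e
 (c (a (nat_lit 0x202192bcb03a7)) e
 (c (a (nat_lit 0x418510f8332c6))
 (c z e
 (c z e
 (c z e
 (c z e
 (c z e
 (c (a (nat_lit 0x7cba71c36cbc008)) e e))))))
 (c (a (nat_lit 0x16502d42120f66))
 (c (a (nat_lit 0x30589452a661c27)) e
 (c z e
 (c z e
 (c z e
 (c (a (nat_lit 0x965feb268e00008)) e e)))))
 (c z e
 (c z e
 (c z e
 (c (a (nat_lit 0x1493e96ecc51c6)) e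
 (c z e
 (c z e
 (c z e
 (c (a (nat_lit 0x98eb0ce09e706)) e
 (c (a (nat_lit 0x17dfd4cca1a1a4)) e
 (c z e
 (c (a (nat_lit 0x1fdbf6d6d6d765)) e
 (c (a (nat_lit 0x1641c1e322e003)) e e)))))))))))))))))))))
 C701)
 C700))) Tr.c Tr.e (nat_lit 0) C.cx C.cy
noncomputable def C873 : Tr := beta% (fun (c : Nat → Tr → Tr → Tr) (e : Tr) (z : Nat) (a b : Nat → Nat) =>
 (c (nat_lit 1)
 (c (a (nat_lit 0x20202021)) C872
 (c (a (nat_lit 0x60606061))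
 (c (a (nat_lit 0x4040406061)) C839
 (c (a (nat_lit 0x4040404041))
 (c z C829
 C827)
 (c (a (nat_lit 0x4040404041))
 (c z
 (c z
 (c z
 (c (a (nat_lit 0x92928c7c6cdf0ef0e22)) e e)
 (c (a (nat_lit 0x363636363636371c3))
 (c z e
 (c z e
 (c z e
 (c z e
 (c z e
 (c z e
 (c z e
 (c z e
 (c z e
 (c z e
 (c z e
 (c z e
 (c z e
 (c z e
 (c z e
 (c (a (nat_lit 0x5c627074766a8f3a008)) e e))))))))))))))))
 (c (a (nat_lit 0x787878787878c7f41))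
 (c z e
 (c z e
 (c z e
 (c z e
 (c z e
 (c z e
 (c z e
 (c z e
 (c z e
 (c z e
 (c z e
 (c z e
 (c (a (nat_lit 0x60808296cb3eae94d07)) e e)))))))))))))
 (c (a (nat_lit 0x60606060615510c42)) e
 (c (a (nat_lit 0x6a6a6a6b959c51a82)) e
 (c (a (nat_lit 0x1c1c1ceeb23881124))
 (c z e
 (c z e
 (c z e
 (c z e
 (c z e
 (c z e
 (c (a (nat_lit 0x322236523036206bb86)) e e)))))))
 (c z e
 (c z e
 (c z e
 (c z e
 (c z e
 (c z e
 (c z e
 (c z e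
 (c (a (nat_lit 0xcf02cce6e2646a3a5)) e
 (c (a (nat_lit 0x1430f576912c698545)) e
 (c (a (nat_lit 0xbcfd13189a4022c05)) e e)))))))))))))))))
 C823)
 C822)
 (c (a (nat_lit 0x2020202021)) C820
 C818))))
 C814))
 (c (nat_lit 1)
 (c (a (nat_lit 0xa0a0a0c1))
 (c (a (nat_lit 0x4040406061))
 (c z C780
 C778)
 (c (a (nat_lit 0x2020202021))
 (c z C770
 C768)
 (c (a (nat_lit 0x2001))
 (c z C765
 (c z
 (c z
 (c (a (nat_lit 0x60606061f5afaac23)) e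
 (c (a (nat_lit 0x161616e6ccde5b866))
 (c z e
 (c z e
 (c z e
 (c z e
 (c z e
 (c z e
 (c z e
 (c z e
 (c z e
 (c (a (nat_lit 0x63048707c4a6095d67)) e
 (c (a (nat_lit 0x76f8facae870a539767)) e e)))))))))))
 (c (a (nat_lit 0x1616bebac41f38e66))
 (c z e
 (c z e
 (c z e
 (c z e
 (c z e
 (c z e
 (c z e
 (c (a (nat_lit 0x6a48a7069c6c5ef19c7)) e
 (c (a (nat_lit 0x345662783e56b16b308)) e
 (c (a (nat_lit 0x7a7c3e54345f3d1ce28)) e e))))))))))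
 (c z e
 (c z e
 (c z e
 (c z e
 (c z e
 (c z e
 (c z e
 (c z e
 (c z e
 (c (a (nat_lit 0x13365f1e9df3280a05)) e e)))))))))))))
 (c z
 (c (a (nat_lit 0x1818aab6d893d9766))
 (c z e
 (c z e
 (c z e
 (c z e
 (c z e
 (c z e
 (c z e
 (c z e
 (c (a (nat_lit 0x181a2e502c1638491e8)) e
 (c (a (nat_lit 0x3a446064485a9d28fc8)) e
 (c (a (nat_lit 0xa89e984c1ca563374a7)) e e)))))))))))
 (c z e
 (c z e
 (c z e
 (c z e
 (c z e
 (c z e
 (c z e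
 (c z e
 (c z e
 (c z e
 (c (a (nat_lit 0xff35f97ade8a6c646)) e e))))))))))))
 (c z
 (c z e
 (c z e
 (c z e
 (c z e
 (c z e
 (c z e
 (c z e
 (c z e
 (c z e
 (c z e
 (c (a (nat_lit 0x1b3a9b1270eacc8ac6)) e e)))))))))))
 (c z
 (c z e
 (c z e
 (c z e
 (c z e
 (c z e
 (c z e
 (c z e
 (c (a (nat_lit 0x7d051e5e46352af65)) e
 (c (b (nat_lit 0x7ebffffe7848fd0c6)) e e)))))))))
 (c z
 (c z e
 (c z e
 (c z e
 (c z e
 (c z e
 (c z e
 (c (a (nat_lit 0x8674185e930a6c587)) e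
 (c z e
 (c z e
 (c z e
 (c z e
 (c z e
 (c (a (nat_lit 0x727704fe282600005)) e e)))))))))))))
 (c (a (nat_lit 0x20202020203367)) e
 (c (a (nat_lit 0x20202020346a07))
 (c z e
 (c z e
 (c z e
 (c z e
 (c z e
 (c (a (nat_lit 0xae4a48ef24804e727)) e e))))))
 (c (a (nat_lit 0x2020203f8d2e87)) e
 (c (a (nat_lit 0x202032c6a72447))
 (c z e
 (c z e
 (c z e
 (c (a (nat_lit 0x8526e270a4b0a0367)) e e))))
 (c (a (nat_lit 0x1c0ace294c46)) e e))))))))))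
 C764))
 (c (a (nat_lit 0x2001)) C763
 C761))))
 (c (a (nat_lit 0x40404041))
 (c (a (nat_lit 0x12121212121)) C757
 C753)
 C749))
 (c (nat_lit 1) C735
 (c (a (nat_lit 0x202021)) C719
 (c (nat_lit 1) C705
 C696)))))) Tr.c Tr.e (nat_lit 0) C.cx C.cy
noncomputable def tc : Tr := beta% (fun (c : Nat → Tr → Tr → Tr) (e : Tr) (z : Nat) =>
 (c z
 (c z C873
 (c z C678
 C594))
 (c z C486
 C282))) Tr.c Tr.e (nat_lit 0)

end Pool.Agent.Work.MP_82fd4a_nt.P.H
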