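import Pool.Agent.Work.MP_82fd4a_nt.P.Dx

/-! The table of the weights. -/

set_option autoImplicit false
set_option linter.all false
set_option maxRecDepth 100000

namespace Pool.Agent.Work.MP_82fd4a_nt.P.H

open Y Tr

noncomputable def tt167 : Tr := beta% (fun (c : Nat → Tr → Tr → Tr) (e : Tr) (z : Nat) (a b d : Nat → Nat) =>
 (c (a (nat_lit 0x100f7e00))
 (c z
 (c (d (nat_lit 0xfd72a07)) e
 (c z e
 (c z e
 (c (nat_lit 0x800007ff027ff02800008000080000ef247) e e))))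
 (c z
 (c z e
 (c (d (nat_lit 0xfff8a07)) e e))
 (c z e
 (c z e
 (c (b (nat_lit 0xfcd4e04)) e
 (c (nat_lit 0x7e2ca7e2bb7e2b97e2b27e2ca13c84) e
 (c (nat_lit 0x7e4687e4687e42c7e43c7e44fbee44) e
 (c (nat_lit 0x7dc327dc267dc277dc297dc32a7c24) e
 (c (nat_lit 0x7d9ac7d9ac7d9ac7d9aa7d9ac9cd04) e
 (c (nat_lit 0x7d9ba7d9b87d9ad7d9a77d9b971a44) e
 (c (b (nat_lit 0xfd39005)) e
 (c (nat_lit 0x7e9d77e9d77e9c67e9ce7e9d788465) e
 (c (b (nat_lit 0xfe54605)) e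
 (c (b (nat_lit 0xfe3c605)) e
 (c (b (nat_lit 0xfc49007)) e
 (c (b (nat_lit 0xfc97007)) e
 (c z e
 (c (nat_lit 0x814d4814d4814d48150d8150d5e047) e e))))))))))))))))))
 (c (nat_lit 0x80ffc80ffd80ffd80ffd9f200)
 (c (b (nat_lit 0x10971a03)) e
 (c z e
 (c (nat_lit 0x7eb1a7e7a27e7a27eb1a7eb1a4c184) e
 (c (nat_lit 0x7df527df487df467df547df5479624) e
 (c (nat_lit 0x7db1f7db197db1c7db1e7db2219c44) e
 (c (nat_lit 0x7dce17dce17dcd37dcda7dce1814c4) e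
 (c (b (nat_lit 0xfa61c04)) e
 (c (nat_lit 0x7d0fc7d0f77d0fc7d0fc7d0fcaa3e4) e
 (c (nat_lit 0x7d0d77d0d57d0d37d0d37d0d7664a5) e
 (c (nat_lit 0x7e0f47e0f47e0cf7e0e47e0f499e05) e
 (c (b (nat_lit 0xfd21005)) e
 (c (nat_lit 0x7f1b47f2147f2147f2147f2140ca85) e
 (c (b (nat_lit 0xfd8e807)) e
 (c (b (nat_lit 0xfbd9007)) e
 (c z e
 (c (nat_lit 0x7fbca7fbca7fbca7fad97fad9350a7) e
 (c (b (nat_lit 0xfd9c00b)) e e)))))))))))))))))
 (c (nat_lit 0x80ffc80ffc80ffb80ffc8e010)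
 (c (b (nat_lit 0xfd4ca04)) e
 (c (nat_lit 0x7ec8c7ec857ec867ec8d7ec9838704) e
 (c (b (nat_lit 0xfd32204)) e
 (c (b (nat_lit 0xfd19604)) e
 (c (nat_lit 0x7e94a7e94a7e9477e9267e92636a24) e
 (c (b (nat_lit 0xfbdcc04)) e
 (c (nat_lit 0x7dcff7dcf77dcee7dcf67dcf598365) e
 (c (b (nat_lit 0xfa81c05)) e
 (c z e
 (c (b (nat_lit 0xfe80805)) e
 (c (b (nat_lit 0xfd5f407)) e
 (c (b (nat_lit 0xfe91007)) e
 (c z e
 (c (b (nat_lit 0x10137007)) e e))))))))))))))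
 (c (a (nat_lit 0x101ff800))
 (c (nat_lit 0x7ea477ea417ea3c7ea377ea3d256a4) e
 (c (b (nat_lit 0xfd26204)) e
 (c (nat_lit 0x7e8d37e8d57e8da7e8da7e8daa9744) e
 (c (b (nat_lit 0xfd2fe04)) e
 (c (b (nat_lit 0xfbe6605)) e
 (c (nat_lit 0x7dcff7dcff7dcff7dced7dced38ec5) e
 (c (b (nat_lit 0xfcb3005)) e
 (c (b (nat_lit 0xfe80405)) e
 (c (b (nat_lit 0xfda1c07)) e
 (c (b (nat_lit 0xfec7c07)) e
 (c (nat_lit 0x7ffee80000800008000080000d0a07) e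
 (c (b (nat_lit 0xfeb1607)) e e))))))))))))
 (c (nat_lit 0x80fff80fff80ffe80ffe3d550)
 (c (nat_lit 0x7e92d7e92f7e92f7e92f7e92f57b64) e
 (c (nat_lit 0x7e8c17e8c27e8c27e8c27e8c217564) e
 (c (nat_lit 0x7e9c17e9c17e9a77e9a07e9a4889e5) e
 (c (b (nat_lit 0xfbe7a05)) e
 (c (b (nat_lit 0xf9b5805)) e
 (c (b (nat_lit 0xfa4dc05)) e
 (c (nat_lit 0x7e76a7e76a7e6f87e76a7e76a8fcc7) e
 (c (nat_lit 0x800b1800b1800b18008c800b128ec7) e
 (c (nat_lit 0x8000080000800007ffcf7ffcf2b4c7) e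
 (c (b (nat_lit 0xfe99a07)) e e))))))))))
 (c (nat_lit 0x80ffe80ffe80ffe80fff947f0)
 (c (b (nat_lit 0xfd45a05)) e
 (c (b (nat_lit 0xfd23805)) e
 (c (nat_lit 0x7ea127ea127e9997e9997e9b7ca3e5) e
 (c (b (nat_lit 0xff2d005)) e
 (c (b (nat_lit 0xfc3be07)) e
 (c (nat_lit 0x7e9e47e9e47e9e47e9787e9e4e2da7) e
 (c z e
 (c (b (nat_lit 0xfe09207)) e
 (c (b (nat_lit 0xfeabe09)) e e)))))))))
 (c (nat_lit 0x80ffd80ffc80ffc80ffc3a230)
 (c (b (nat_lit 0xfd64605)) e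
 (c (b (nat_lit 0xfe6fe05)) e
 (c (nat_lit 0x800008000080000800007fed6e9e45) e
 (c (nat_lit 0x7ef437ef437edfb7ef3c7ef438f367) e
 (c z e
 (c (nat_lit 0x7e94f7e93a7e94c7e94f7e94fe1ce7) e e))))))
 (c (nat_lit 0x8100081000810008100122f40)
 (c (nat_lit 0x7dd487dd197dd197dda47dda4a19c7) e
 (c (b (nat_lit 0xfde4007)) e
 (c (b (nat_lit 0x105dfa07)) e
 (c (nat_lit 0x7f2e47f2e77f2e77f2e77f2e71fa47) e e))))
 (c (nat_lit 0x80ffd80ffe80ffe80ffe90970)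
 (c z e
 (c z e
 (c (nat_lit 0x8000080000822b7822b7822b7408c8) e
 (c (nat_lit 0x80000800008000081a8081a806c148) e
 (c (nat_lit 0x80000800008000080000818b167488) e e)))))
 (c (a (nat_lit 0x101ffc00))
 (c (b (nat_lit 0x1064a608)) e
 (c (nat_lit 0x8000080000817aa817af817afe3448) e
 (c (nat_lit 0x80000800008000080d9b80d9b41348) e e)))
 (c (a (nat_lit 0x101ffa01)) e
 (c (nat_lit 0x810048100481001810018ebc1) e
 (c (a (nat_lit 0x10158201)) e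
 (c (nat_lit 0x80242802438024280243c9151) e
 (c (a (nat_lit 0x10279603)) e
 (c (a (nat_lit 0x1029bc03)) e
 (c (a (nat_lit 0xffdf003)) e
 (c (nat_lit 0x80f5e80f7180f9180f91b7a63) e
 (c (nat_lit 0x80a1e80a1f80a1f80a2088974) e
 (c (nat_lit 0x80f4280f4280f4380f434d764) e
 (c (nat_lit 0x80f3d80f4180f4180f4268ff4) e
 (c (nat_lit 0x80f3780f3780f3880f3986c34) e
 (c (nat_lit 0x80f2980f2c80f2c80f2d5ad04) e
 (c (nat_lit 0x80f2580f2680f2780f2865e54) e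
 (c (nat_lit 0x80f2280f2280f2180f2239265) e
 (c (nat_lit 0x80f2480f2580f2180f22f12c5) e
 (c z e
 (c (a (nat_lit 0xfeb5c05)) e
 (c (nat_lit 0x80a1c80a1d80a1e80a1e75e97) e
 (c (nat_lit 0x802be80381803818038200287) e
 (c (nat_lit 0x803678036780366803664f777) e
 (c (nat_lit 0x809e4809e4809e5809e6b7fc7) e e))))))))))))))))))))))))))))))))) Tr.c Tr.e (nat_lit 0) C.t4 C.t5 C.t6
noncomputable def tt168 : Tr := beta% (fun (c : Nat → Tr → Tr → Tr) (e : Tr) (z : Nat) (a b d : Nat → Nat) =>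
 (c (a (nat_lit 0x1012ec00))
 (c (b (nat_lit 0x1006d801))
 (c (d (nat_lit 0xf78f605)) e
 (c (nat_lit 0x7d03c7d03c7d03c7d02e7d03c7d03cbbe45) e
 (c (nat_lit 0x7d6b27d6b27d6b27d6b27d6a37d6b2aa685) e
 (c (d (nat_lit 0xfb94407)) e
 (c (nat_lit 0x7d81e7d81e7d7457d72c7d81e7d81e57c47) e
 (c z e
 (c (d (nat_lit 0xfe7e407)) e
 (c (nat_lit 0x8000080000800007fae380000800009dde0) e
 (c (nat_lit 0x80000800008000080dda80dda80dda5caa0) e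
 (c z e
 (c (nat_lit 0x8000080000800007ffa47ffa480000b2c60) e e)))))))))))
 (c (nat_lit 0x7f69a7f69a7f69a7f68d7f68d18a81)
 (c (d (nat_lit 0xfc01205)) e
 (c z e
 (c z e
 (c z e
 (c z e
 (c z e
 (c (nat_lit 0x800008000080000800007ff34800005c013) e e)))))))
 (c (b (nat_lit 0xfe87201))
 (c z e
 (c (d (nat_lit 0x10633807)) e
 (c (d (nat_lit 0xfff2407)) e e)))
 (c (b (nat_lit 0xff2ea03))
 (c (d (nat_lit 0xfffa407)) e
 (c z e
 (c z e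
 (c z e
 (c (nat_lit 0x800008000080000800007ff3e800007c353) e e)))))
 (c (b (nat_lit 0xfeea003)) e
 (c (b (nat_lit 0x105e7403)) e
 (c (b (nat_lit 0x10701403)) e
 (c (b (nat_lit 0xff37a04)) e
 (c (nat_lit 0x8030f80300803078030f8030f95844) e
 (c (b (nat_lit 0xfb13204)) e
 (c (b (nat_lit 0xfb04004)) e
 (c (nat_lit 0x7e6287e6267e6307e6327e63276c84) e
 (c (nat_lit 0x7e8967e88a7e8887e8907e89650f25) e
 (c (nat_lit 0x7e8957e8957e8817e88a7e8953dce5) e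
 (c (b (nat_lit 0xfddd205)) e
 (c (b (nat_lit 0xfdd5005)) e
 (c (b (nat_lit 0xfce7407)) e
 (c (b (nat_lit 0xfce4007)) e
 (c z e
 (c (b (nat_lit 0xfe48a07)) e e))))))))))))))))))))
 (c (nat_lit 0x80ffd80ffd80ffd80ffe69fa0)
 (c (b (nat_lit 0xfdbd601)) e
 (c (b (nat_lit 0xfcbe803)) e
 (c z
 (c (d (nat_lit 0xfdeda0b)) e e)
 (c z e
 (c z e
 (c (b (nat_lit 0xfd17e04)) e
 (c (nat_lit 0x7e6a67e6977e6a67e6a67e6a662ea4) e
 (c (nat_lit 0x7d3a17d3a17d37e7d3837d392df604) e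
 (c (nat_lit 0x7d1b57d1b07d1aa7d1b57d1b505c24) e
 (c (nat_lit 0x7d1807d1807d1807d1787d180c5b44) e
 (c (nat_lit 0x7e1cd7e1c87e1cb7e1cb7e1cd2df85) e
 (c (nat_lit 0x7e1d17e1d17e1c77e1cb7e1d1b7b85) e
 (c (b (nat_lit 0xfca5605)) e
 (c (b (nat_lit 0xfe1a405)) e
 (c (nat_lit 0x7e6d87e6dc7e6ed7e6ed7e6ed4e307) e
 (c (b (nat_lit 0xfb8c407)) e
 (c z e
 (c (b (nat_lit 0x10295c07)) e
 (c (b (nat_lit 0xfe9fe0b)) e e)))))))))))))))))))
 (c (a (nat_lit 0x101ffa00))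
 (c (b (nat_lit 0xff83e03)) e
 (c z e
 (c (nat_lit 0x7f9727f9697f9697f9607f9606d883) e
 (c z e
 (c (nat_lit 0x7dbcf7dbbd7dbbf7dbc27dbd7bed24) e
 (c (nat_lit 0x7dd5c7dd5c7dd0d7dd227dd3f01904) e
 (c (nat_lit 0x7d34b7d34b7d3497d34b7d34b6a584) e
 (c (nat_lit 0x7d15f7d15f7d14e7d15f7d15f2a1a4) e
 (c (nat_lit 0x7d10d7d10d7d1007d10b7d10dee165) e
 (c (nat_lit 0x7e12e7e12e7e1257e12e7e12ef9be5) e
 (c (nat_lit 0x7e9fe7e9fe7e9fe7e9697e97bdd165) e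
 (c (b (nat_lit 0xff4fa05)) e
 (c z e
 (c (b (nat_lit 0xfec1807)) e
 (c z e
 (c z e
 (c z e
 (c (nat_lit 0x80000800007ff468000080000f58cb) e e))))))))))))))))))
 (c (a (nat_lit 0x101ffc00))
 (c (nat_lit 0x800008000080000800007ffb284c63) e
 (c (nat_lit 0x7ed1f7ed1b7ed1d7ed447ed4405ac4)
 (c (nat_lit 0x80000800008000080000800007fbf77188b) e e)
 (c (nat_lit 0x7edae7ed977ed9a7edbc7edbcfa6c4) e
 (c (nat_lit 0x7e96e7e96e7e96c7e96e7e96e2d9e4) e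
 (c (nat_lit 0x7e96c7e96c7e94f7e94f7e959a15e4) e
 (c (nat_lit 0x7df237df237df057df077df1212244) e
 (c (nat_lit 0x7dd1d7dd1d7dd1d7dd137dd1c36305) e
 (c (b (nat_lit 0xfa84605)) e
 (c z e
 (c (b (nat_lit 0xfe92a05)) e
 (c (nat_lit 0x7f2137f1f87f1f87f2137f2139eaa7) e
 (c (b (nat_lit 0xfe4f807)) e
 (c z e
 (c (nat_lit 0x8057280572805de805de805de38d67) e e))))))))))))))
 (c (a (nat_lit 0x101ff800))
 (c (b (nat_lit 0xfddd004)) e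
 (c (nat_lit 0x7ea237ea227ea147ea0e7ea23cd984) e
 (c (b (nat_lit 0xfd28a04)) e
 (c (nat_lit 0x7e9aa7e9aa7e9aa7e98a7e98cf23e4) e
 (c (nat_lit 0x7df617df617df567df507df5757425) e
 (c (nat_lit 0x7cfb67cfb67cfb67d0747d074c4f05) e
 (c (nat_lit 0x7d0887d1057d1057d1057d1059bfa5) e
 (c (b (nat_lit 0xfdef805)) e
 (c (nat_lit 0x7ed1c7ed1c7ecff7ed1c7ed1cc61a7) e
 (c (nat_lit 0x7fb7e7fb7e7fb667fb667fb7edf007) e
 (c (nat_lit 0x8000080000800007fff27fff294067) e e)))))))))))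
 (c (a (nat_lit 0x10200000))
 (c (nat_lit 0x7e9627e9627e9627e9587e95dbe984) e
 (c (b (nat_lit 0xfd1ca04)) e
 (c (nat_lit 0x7e9b67e9b67e9b67e9a77e9adf0125) e
 (c (nat_lit 0x7dcb17dcb17dc737dc737dcb110945) e
 (c (nat_lit 0x7b0ce7b0ce7adcd7adcd7b0ced6aa5) e
 (c (b (nat_lit 0xfd63e05)) e
 (c (nat_lit 0x7eba17eba17eb987eba17eba15ca87) e
 (c (nat_lit 0x7f56c7f56c7f56c7f5607f56cf4e87) e
 (c z e
 (c z e
 (c (b (nat_lit 0xffc3009)) e e)))))))))))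
 (c (a (nat_lit 0x10200000))
 (c (b (nat_lit 0xfd51c05)) e
 (c (b (nat_lit 0xfd27c05)) e
 (c (nat_lit 0x7ebb97ebb97e9a37e9a37ea5cffec5) e
 (c z e
 (c (b (nat_lit 0xfa7ec07)) e
 (c (b (nat_lit 0xfdf8607)) e
 (c z e
 (c (nat_lit 0x800007fff47ffd980000800003e9e7) e
 (c (nat_lit 0x80000800007ffca7ffca80000ffb69) e
 (c (nat_lit 0x7fa277fa8e7fa8e7fa8e7fa8ec6ae9) e e))))))))))
 (c (a (nat_lit 0x101ffe00))
 (c (nat_lit 0x7e0b27e0b27e07a7e07a7e0b2bf505) e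
 (c (nat_lit 0x7df957df957e0ce7e0ce7e0ce88245) e
 (c (nat_lit 0x7cb2e7c68b7c68b7cb2e7cb2e1ccc7) e
 (c (nat_lit 0x7d7da7d4467d4467d7da7d7daa0547) e
 (c z e
 (c (nat_lit 0x80000800007fc0080000800003e267) e
 (c (nat_lit 0x8000080000800007fbb57fbbf18148) e
 (c (nat_lit 0x800008000080000800007fbe54f9e8) e e))))))))
 (c (nat_lit 0x8100181000810008100025640)
 (c (b (nat_lit 0xf7d7007)) e
 (c z e
 (c z e
 (c z e
 (c (nat_lit 0x80000800008066e8068d8068da1b28) e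
 (c (nat_lit 0x8000080000800008069e8069ef5a28) e e))))))
 (c (a (nat_lit 0x10200000))
 (c z e
 (c z e
 (c (nat_lit 0x80f6f80f7880f7880f7880de332808) e
 (c (nat_lit 0x800008000080f7780f7780f776a7e8) e
 (c (nat_lit 0x80000800008000080f4680f46a65c8) e e)))))
 (c (nat_lit 0x81000810008100081001578a0)
 (c (b (nat_lit 0x10468c08)) e
 (c (b (nat_lit 0x10237608)) e
 (c (nat_lit 0x80000800008081b808188081ecf7c8) e
 (c (nat_lit 0x8000080000800008061280611dee88) e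
 (c (nat_lit 0x800008000080000800007f28cfa708) e e)))))
 (c (a (nat_lit 0x10200000)) e
 (c (nat_lit 0x80ffe80ffe80ffe80ffd10911) e
 (c (nat_lit 0x81002810048100081000d5e21) e
 (c (a (nat_lit 0x10143601)) e
 (c (nat_lit 0x80733807338073380732d4121) e
 (c (a (nat_lit 0x10212403)) e
 (c (nat_lit 0x810c0810c1810c1810c1002c3) e
 (c (a (nat_lit 0x1002fa03)) e
 (c (nat_lit 0x80fa680fba810398103ab6273) e
 (c (nat_lit 0x809b4809b4809b5809b4e0e54) e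
 (c (nat_lit 0x80ee480ee580ee680ee63e784) e
 (c (nat_lit 0x80ef180ef380ef480ef561d74) e
 (c (nat_lit 0x80eeb80eee80ef180ef22f654) e
 (c (nat_lit 0x80ee780eea80eeb80eec4a5b4) e
 (c (nat_lit 0x80ee480ee580ee580ee5721d5) e
 (c (nat_lit 0x80eda80edc80edd80edc16c25) e
 (c (nat_lit 0x80b4180c5780c5780c573e945) e
 (c (nat_lit 0x7fb927fb927fb927fb938f2d5) e
 (c (nat_lit 0x8078080784807848077ba6d17) e
 (c (nat_lit 0x800d8800ce800ce800ce9d867) e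
 (c (nat_lit 0x800e8800e8800ca800ca54b17) e
 (c (a (nat_lit 0x1010c807)) e e)))))))))))))))))))))))))))))))))) Tr.c Tr.e (nat_lit 0) C.t4 C.t5 C.t6
noncomputable def tt169 : Tr := beta% (fun (c : Nat → Tr → Tr → Tr) (e : Tr) (z : Nat) (a b d : Nat → Nat) =>
 (c (nat_lit 0x80ffc80ffc80ffc80ffd40840)
 (c (nat_lit 0x7f84b7f84b7f84b7f8487f84a44b41) e
 (c z e
 (c z
 (c z e
 (c (d (nat_lit 0xfffce0b)) e e))
 (c z e
 (c z e
 (c (nat_lit 0x7fff77ffdf7ffdf8000080000ce6a3) e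
 (c z e
 (c (nat_lit 0x80000800007fff67ffe67ffe676c84) e
 (c (b (nat_lit 0xfa2f204)) e
 (c (nat_lit 0x7d0fc7d0f37d0f57d0fa7d0fcd1384) e
 (c (nat_lit 0x7defc7def47defc7defc7defc97cc5) e
 (c (b (nat_lit 0xfc20005)) e
 (c (b (nat_lit 0xfc91c05)) e
 (c (b (nat_lit 0xfbd8c05)) e
 (c (b (nat_lit 0xf9cbe07)) e
 (c (b (nat_lit 0xfcbf807)) e
 (c z e
 (c z e
 (c z e
 (c (b (nat_lit 0xfe2300b)) e e))))))))))))))))))))
 (c (a (nat_lit 0x10200000))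
 (c (b (nat_lit 0xff6ba03))
 (c (d (nat_lit 0x10607e07)) e e)
 (c (b (nat_lit 0xfe96a03))
 (c (d (nat_lit 0x10307e0b)) e e)
 (c z e
 (c z e
 (c (b (nat_lit 0xfdf0a04)) e
 (c z e
 (c z e
 (c (nat_lit 0x7d0af7d0a07d0af7d0af7d0afa9de4) e
 (c (nat_lit 0x7d0697d0697d05d7d0697d069cc9e5) e
 (c (b (nat_lit 0xfc0d605)) e
 (c (b (nat_lit 0xfd13605)) e
 (c (b (nat_lit 0xfe0b405)) e
 (c (b (nat_lit 0xfbfbe07)) e
 (c (b (nat_lit 0xfce8007)) e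
 (c (b (nat_lit 0x102d5a07)) e
 (c (b (nat_lit 0xfed8c07)) e
 (c (b (nat_lit 0xfdf3e0b)) e
 (c z e
 (c (nat_lit 0x7f8697f8547f8527f8697f869ba74b) e e)))))))))))))))))))
 (c (nat_lit 0x80ffc80ffd80ffd80ffd3e9b0)
 (c (nat_lit 0x7f05c7f2377f2377f2377f2376bf03)
 (c (nat_lit 0x800008000080000800007fe82800005f18b) e e)
 (c z e
 (c (nat_lit 0x7eda27eda07eda37edc27edc261924) e
 (c (nat_lit 0x7e97e7e9627e9677e9677e97ff03a4) e
 (c (nat_lit 0x7eead7eead7ee7e7ee907eea693dc4) e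
 (c (b (nat_lit 0xfbc7204)) e
 (c (nat_lit 0x7dc557dc557dc4e7dc4b7dc55bf285) e
 (c (nat_lit 0x7dc657dc657dc377dc1d7dc2d5fae5) e
 (c (b (nat_lit 0xfe5a605)) e
 (c (b (nat_lit 0xfe2ec05)) e
 (c (nat_lit 0x7eddc7eddc7edda7eddc7eddc8e947) e
 (c (nat_lit 0x7ee8c7ee8c7ee6a7ee8c7ee8c0ba87) e
 (c (b (nat_lit 0xff27407)) e
 (c z e
 (c z e
 (c (nat_lit 0x8000080000800007ffd880000e1b4b) e e))))))))))))))))
 (c (a (nat_lit 0x101fe800))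
 (c (nat_lit 0x7eeea7eeea7eeda7eeea7eeead6c24)
 (c (nat_lit 0x80000800008000080000800007edbc2e6cb) e e)
 (c (nat_lit 0x7ef867ef777ef6f7ef867ef867b324) e
 (c (nat_lit 0x7e95b7e9527e9497e9467e949cb144) e
 (c (nat_lit 0x7e8eb7e8eb7e8d67e8d17e8d5f2724) e
 (c (nat_lit 0x7de997de997de877de877de8e6e725) e
 (c (b (nat_lit 0xf99f205)) e
 (c (b (nat_lit 0xf96c605)) e
 (c (b (nat_lit 0xfeafc05)) e
 (c (b (nat_lit 0xfe0b407)) e
 (c (b (nat_lit 0xfec7207)) e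
 (c z e
 (c (nat_lit 0x7f6bb7f6bb7f6bb7f66d7f66d44d07) e
 (c (b (nat_lit 0xff84809)) e e)))))))))))))
 (c (a (nat_lit 0x101ffa00))
 (c (nat_lit 0x7e92e7e92e7e92e7e9257e92eeeb24) e
 (c (nat_lit 0x7e8787e8787e8787e8757e878b0104) e
 (c (nat_lit 0x7e8d47e8d47e8d47e8be7e8c103125) e
 (c (b (nat_lit 0xfbc6e05)) e
 (c (b (nat_lit 0xfbbea05)) e
 (c (b (nat_lit 0xfa8ba05)) e
 (c (b (nat_lit 0xfdd4407)) e
 (c (nat_lit 0x7ee877ee877ee877ee757ee87e3ac7) e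
 (c z e
 (c (nat_lit 0x7f65f7f5ec7f58d7f58d7f65f52047) e e))))))))))
 (c (a (nat_lit 0x10200000))
 (c (b (nat_lit 0xfd37605)) e
 (c (b (nat_lit 0xfd0d405)) e
 (c (nat_lit 0x7eb8f7eb8f7e9ca7e9ca7eae1b8aa5) e
 (c (b (nat_lit 0xff72c05)) e
 (c (b (nat_lit 0xfa2fa07)) e
 (c (b (nat_lit 0xfe58c07)) e
 (c (b (nat_lit 0x100fa207)) e
 (c (b (nat_lit 0xfd92e07)) e
 (c (b (nat_lit 0xff6a009)) e
 (c (b (nat_lit 0xffd7c09)) e
 (c (nat_lit 0x7fe7a7fe7a7fea27fea27fea20c609) e e)))))))))))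
 (c (a (nat_lit 0x10200000))
 (c (b (nat_lit 0xfcf0a05)) e
 (c (nat_lit 0x7ffdd7ffdd8000080000800002eae5) e
 (c (nat_lit 0x7dcbd7dcbd7dcb17dcb17dcbd04387) e
 (c (b (nat_lit 0xf853a07)) e
 (c z e
 (c (nat_lit 0x7d2777d1967d2777d2777d277640a7) e
 (c (nat_lit 0x80000800007f4257f4337f43395608) e
 (c (nat_lit 0x8000080000800007f3cd7f3cdccf48) e
 (c (nat_lit 0x800008000080000800007ffc5f12e8) e e)))))))))
 (c (a (nat_lit 0x10200200))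
 (c (nat_lit 0x7e0147db877db877e0767e076f73e7) e
 (c z e
 (c (b (nat_lit 0x107afe07)) e
 (c (nat_lit 0x7f24b7f2097f2587f2587f258f42e7) e
 (c (nat_lit 0x7f7f97f80f7f7d47f8137f813946a8) e
 (c z e
 (c (nat_lit 0x8000080000800007ffff7fff0ad208) e e)))))))
 (c (a (nat_lit 0x101ffa00))
 (c (b (nat_lit 0x104cfa07)) e
 (c z e
 (c (nat_lit 0x810fd81101810fb8107a81101d6488) e
 (c (nat_lit 0x804a18047d804a1804a1804a120828) e
 (c (nat_lit 0x80000800007ffee8000080000e6d28) e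
 (c (nat_lit 0x8000080000800007ffc0800008ef08) e
 (c (nat_lit 0x800008000080000800007ff84d4768) e e)))))))
 (c (nat_lit 0x8100080fff80fff80fff8bbe0)
 (c (nat_lit 0x819af819af8197d819af819afb6108) e
 (c (b (nat_lit 0x100ea408)) e
 (c (nat_lit 0x80757807578075280757807579a728) e
 (c z e
 (c (nat_lit 0x8000080000800007f0547f04162e48) e
 (c (nat_lit 0x800008000080000800007f8e55e1a8) e e))))))
 (c (nat_lit 0x80ffc80ffd80ffd80ffde5c90) e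
 (c (nat_lit 0x81000810018100181001c46d0) e
 (c (nat_lit 0x81000810008100080fff07bf1) e
 (c (nat_lit 0x80ffd80ffe80ffe80ffe43561) e
 (c (a (nat_lit 0x100eea01)) e
 (c (a (nat_lit 0x10037e01)) e
 (c (nat_lit 0x80dfe80dff80dff80dfe33ce3) e
 (c (nat_lit 0x80e0180e0180e0180e020f613) e
 (c (nat_lit 0x8025d8025e8025e8025eea293) e
 (c (nat_lit 0x80fc080fc180fc180fc07b573) e
 (c (nat_lit 0x8081b8081e8081e8081fc34e4) e
 (c (nat_lit 0x80fce80fcf80fcf80fcf1c3b4) e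
 (c (nat_lit 0x80fbd80fc480fc580fc6532d4) e
 (c (nat_lit 0x80fba80fb680fbb80fbbde354) e
 (c (nat_lit 0x80fb380fb380fb280fb31bf45) e
 (c (nat_lit 0x80fb380fb480faf80fb257bf5) e
 (c (nat_lit 0x802f3802f2802f2802f29c755) e
 (c (nat_lit 0x8078f8078f8078e8078ef11b5) e
 (c (nat_lit 0x8082d8082e8082e808224dfc7) e
 (c (nat_lit 0x80355803578035780357e0067) e
 (c (nat_lit 0x802ee802ee8032b8032b9dbb7) e
 (c (nat_lit 0x809478094780947809485d627) e e))))))))))))))))))))))))))))))))) Tr.c Tr.e (nat_lit 0) C.t4 C.t5 C.t6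
noncomputable def tt170 : Tr := beta% (fun (c : Nat → Tr → Tr → Tr) (e : Tr) (z : Nat) (a b : Nat → Nat) =>
 (c (a (nat_lit 0xfdfc800))
 (c (b (nat_lit 0xf8a3e04))
 (c z e
 (c z e
 (c z e
 (c z e
 (c (nat_lit 0x8000080000800008000080000800007fd04ff30c) e e)))))
 (c (nat_lit 0x7df457df407df5a7df6c7df867dfa8f4244) e
 (c (nat_lit 0x7df807df017df077df187df677df808d105) e
 (c (b (nat_lit 0xfc23005)) e
 (c (nat_lit 0x800008000080000800007fe7e7fe7e1b304) e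
 (c (nat_lit 0x7f34a7f3cf7f5327f5327f5327f532b6e05) e
 (c (nat_lit 0x7e9f77e9f77e6f87e9f77e9f77e9f73ac47) e
 (c (nat_lit 0x7ffe4800007ffb97ffe0800008000091a47) e
 (c z e
 (c z e
 (c (b (nat_lit 0x10c3f220)) e
 (c (b (nat_lit 0x10a1f420)) e e))))))))))))
 (c (a (nat_lit 0xfe01800))
 (c (b (nat_lit 0xfb08405)) e
 (c (nat_lit 0x7e2527e2527e23a7e20f7e20f7e22971705) e
 (c (b (nat_lit 0xfc20c05)) e
 (c (b (nat_lit 0xfd19605)) e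
 (c (nat_lit 0x800007fe228000080000800008000040747) e
 (c (nat_lit 0x7fef5800008000080000800008000052887) e
 (c z e
 (c z e
 (c z e
 (c (b (nat_lit 0x10738a20)) e
 (c (b (nat_lit 0x1032be20)) e
 (c z e
 (c z e
 (c z e
 (c z e
 (c (nat_lit 0x80000800008000080000800007e3e2c8e94) e e))))))))))))))))
 (c (a (nat_lit 0xfdfec01))
 (c (b (nat_lit 0xf9e7a05)) e
 (c (b (nat_lit 0xfcb9205)) e
 (c (b (nat_lit 0xfcdd807)) e
 (c z e
 (c z e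
 (c z e
 (c (b (nat_lit 0xffed613)) e
 (c z e
 (c z e
 (c (nat_lit 0x80000800008194b81955819558195526960) e
 (c z e
 (c z e
 (c (nat_lit 0x80000800008000080000800007fe6a8d1cc) e e)))))))))))))
 (c (a (nat_lit 0xfdfec01))
 (c (nat_lit 0x7cce17cce17cc007cce17cce17cce1d3e07) e
 (c (nat_lit 0x7f4187f4187f4187f2957f4187f418badc7) e
 (c z e
 (c z e
 (c (nat_lit 0x8000080000800007f97080000800005fc93) e
 (c (b (nat_lit 0xfe44213)) e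
 (c z e
 (c z e
 (c (nat_lit 0x8000080000800008183d8183d8183d6ffa0) e
 (c z e
 (c (nat_lit 0x80000800008000080000800007f8006054c) e e)))))))))))
 (c (a (nat_lit 0xfd36a01))
 (c (nat_lit 0x8000080000800007ff187ff158000027487) e
 (c (nat_lit 0x800007fffc7fffc80000800008000005487) e
 (c (b (nat_lit 0x101a6421)) e
 (c (b (nat_lit 0x102a1221)) e e))))
 (c (a (nat_lit 0xfd00801)) e
 (c (a (nat_lit 0xfd84c03)) e
 (c (a (nat_lit 0xfd00403)) e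
 (c (a (nat_lit 0xff64803)) e
 (c (nat_lit 0x8261182611825f3825f38261172b83) e
 (c (a (nat_lit 0x103f0404)) e
 (c (nat_lit 0x7f1467f12d7f1487f1407f14c0e2e4) e
 (c (nat_lit 0x7df907df957df957df957df952f624) e
 (c (nat_lit 0x7df7a7df727df7b7df7b7df7bb9764) e
 (c (nat_lit 0x7e08a7e0887e08a7e08a7e08ab4dc5) e
 (c (a (nat_lit 0xfc0e805)) e
 (c (a (nat_lit 0xfd1d405)) e
 (c (a (nat_lit 0xfddc205)) e
 (c (a (nat_lit 0xfc8c407)) e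
 (c (a (nat_lit 0xfc8a007)) e
 (c z e
 (c (a (nat_lit 0x10219c07)) e e))))))))))))))))))))))) Tr.c Tr.e (nat_lit 0) C.t5 C.t6
noncomputable def tt171 : Tr := beta% (fun (c : Nat → Tr → Tr → Tr) (e : Tr) (z : Nat) (a b d : Nat → Nat) =>
 (c (a (nat_lit 0x101ff600)) tt170
 (c (a (nat_lit 0x101ffa00))
 (c (b (nat_lit 0xfed2801))
 (c (nat_lit 0x7cff77cff77cfca7cfd77cfef7cff79c9c5) e
 (c (nat_lit 0x7dc8c7dc8c7dc8c7dc597dc7a7dc8c2b585) e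
 (c (d (nat_lit 0xfb9d805)) e
 (c z e
 (c (nat_lit 0x7eee97ee3a7eee97eee97eee97eee97a647) e
 (c (nat_lit 0x80000800007ffc1800008000080000a79c7) e
 (c z e
 (c (d (nat_lit 0xfffcc0b)) e
 (c z e
 (c (nat_lit 0x800008000082e6382e6382e6382e6325f60) e
 (c (nat_lit 0x80000800007f7b97f7b97f7b97f7b9c0920) e e)))))))))))
 (c (b (nat_lit 0xfe01001))
 (c (d (nat_lit 0xfc27405)) e
 (c (d (nat_lit 0xfa53c07)) e
 (c z e
 (c z e
 (c z e
 (c z e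
 (c z e
 (c z e
 (c z e
 (c (nat_lit 0x800008000080000815008152681549243e0) e e))))))))))
 (c (b (nat_lit 0xfe00801)) e
 (c (b (nat_lit 0xfd33001)) e
 (c (b (nat_lit 0xfc71a03)) e
 (c (b (nat_lit 0xfc1ca03)) e
 (c z e
 (c (b (nat_lit 0x101f9c03)) e
 (c (b (nat_lit 0xfe39004)) e
 (c (nat_lit 0x7f47e7f4807f4827f48e7f49ee31e4) e
 (c (nat_lit 0x7d1847d17b7d17c7d1867d18673b64) e
 (c (nat_lit 0x7df8d7df8d7df907df927df929bbc4) e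
 (c (nat_lit 0x7df8f7df897df8f7df8f7df8f8bd25) e
 (c (b (nat_lit 0xfc24e05)) e
 (c (b (nat_lit 0xfc3c805)) e
 (c (b (nat_lit 0xfdd6c05)) e
 (c (b (nat_lit 0xfd85e07)) e
 (c (b (nat_lit 0xfe62607)) e
 (c z e
 (c z e
 (c z e
 (c z e
 (c z e
 (c z e
 (c z e
 (c z e
 (c (nat_lit 0x800008000080000800007fffdae04c) e e))))))))))))))))))))))))))) tt169))) Tr.c Tr.e (nat_lit 0) C.t4 C.t5 C.t6
noncomputable def tt172 : Tr := beta% (fun (c : Nat → Tr → Tr → Tr) (e : Tr) (z : Nat) (a b d : Nat → Nat) =>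
 (c (a (nat_lit 0x101ffa00))
 (c (b (nat_lit 0xff09601))
 (c (d (nat_lit 0xfc3fc07)) e
 (c z e
 (c z e
 (c (nat_lit 0x8436f8436f843df843df843df843df33c47) e
 (c (nat_lit 0x80000800007ffd97fd54800008000068b8b) e
 (c (nat_lit 0x800007fcec7fcec80000800008000017d0b) e e))))))
 (c (b (nat_lit 0xfdddc01))
 (c z e
 (c z e
 (c z e
 (c z e
 (c (d (nat_lit 0xfffe80b)) e
 (c (d (nat_lit 0xfff8613)) e e))))))
 (c z e
 (c (b (nat_lit 0xfe61603)) e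
 (c (b (nat_lit 0xfd82a03)) e
 (c z e
 (c z e
 (c (b (nat_lit 0xfbf9204)) e
 (c z e
 (c (nat_lit 0x7d0e57d0df7d0df7d0e57d0e546d64) e
 (c (nat_lit 0x7deda7ded07deda7deda7deda36025) e
 (c (b (nat_lit 0xfbd7e05)) e
 (c (b (nat_lit 0xfcca205)) e
 (c (b (nat_lit 0xfda7805)) e
 (c (b (nat_lit 0xfc49607)) e
 (c (b (nat_lit 0xfcf0c07)) e
 (c z e
 (c (b (nat_lit 0xfb06407)) e
 (c (b (nat_lit 0xfc3ec0b)) e
 (c (b (nat_lit 0x10104c0b)) e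
 (c (b (nat_lit 0xffaea0b)) e
 (c (nat_lit 0x800008000080000800007f9c21152b) e e))))))))))))))))))))))
 (c (a (nat_lit 0x10200400))
 (c (b (nat_lit 0xfab6401))
 (c z e
 (c z e
 (c z e
 (c z e
 (c (d (nat_lit 0xff1160b)) e e)))))
 (c (b (nat_lit 0xfea4e03))
 (c (nat_lit 0x800007fe1380000800008000080000cf30b) e e)
 (c z e
 (c z e
 (c (b (nat_lit 0x1028f803)) e
 (c (nat_lit 0x81696816968165e8165e81696b5ba4) e
 (c (nat_lit 0x7fc757fc487fc4b7fc497fc750e584) e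
 (c z e
 (c (nat_lit 0x7d0947d0867d0947d0937d09400fe5) e
 (c (nat_lit 0x7e0c67e0c67e0a27e0ae7e0ae4e0c5) e
 (c (nat_lit 0x7e9a17e9a17e9a17e8ee7e90339785) e
 (c (nat_lit 0x7ef227eee77ef247ef247ef24bbfe5) e
 (c (b (nat_lit 0xfbb1207)) e
 (c (b (nat_lit 0xfc22e07)) e
 (c (nat_lit 0x7ffef7ffef7ffef7ffea7ffeaa0f27) e
 (c (b (nat_lit 0xfe4aa07)) e
 (c (b (nat_lit 0xfd1b20b)) e
 (c (nat_lit 0x7e7dd7e7dd7e7d17e7dd7e7ddecf4b) e
 (c (nat_lit 0x8000080000800007fefa7fefa304ab) e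
 (c (nat_lit 0x7f5867f5867f6e57f6fb7f6fb64beb) e e))))))))))))))))))))
 (c (nat_lit 0x80ffe80ffd80ffe80ffed0cf0)
 (c (b (nat_lit 0xfe6fe03)) e
 (c z e
 (c z e
 (c (b (nat_lit 0xfdf0e04)) e
 (c (nat_lit 0x7f4a37f49d7f4a37f4a37f4a3f3e64) e
 (c (b (nat_lit 0xfc31804)) e
 (c z e
 (c (b (nat_lit 0xfb83205)) e
 (c z e
 (c (nat_lit 0x7f3b37f3bb7f4027f4027f402e67c5) e
 (c (nat_lit 0x7e84c7e83b7e8467e84c7e84c3e9a7) e
 (c (nat_lit 0x7e8b57e8b57e8b07e8b57e8b5c2fa7) e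
 (c z e
 (c z e
 (c (b (nat_lit 0xffcc809)) e e)))))))))))))))
 (c (a (nat_lit 0x101ff400))
 (c (b (nat_lit 0xffa9603)) e
 (c (nat_lit 0x7ef2e7ef2c7ef197ef2e7ef2e48224) e
 (c (nat_lit 0x7eb137eb137eb0a7eb0a7eb1304a84) e
 (c (nat_lit 0x7eaa57eaa57ea647ea6c7ea7ef0584) e
 (c (nat_lit 0x7de9d7de9d7de937de947de9969085) e
 (c (b (nat_lit 0xfa9ba05)) e
 (c (b (nat_lit 0xfba4a05)) e
 (c (b (nat_lit 0xfef3805)) e
 (c (nat_lit 0x7eb2c7eb127eb2c7eb2c7eb2c9d727) e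
 (c (nat_lit 0x7fb857fb857fb847fb857fb85d8627) e
 (c z e
 (c (nat_lit 0x7f7187f7187f67a7f67a7f718face7) e
 (c (b (nat_lit 0xff56a09)) e
 (c (nat_lit 0x7fbff7fc057fc057fc057fc053d9a9) e e))))))))))))))
 (c (a (nat_lit 0x10200200))
 (c (nat_lit 0x7ef827ef827ef7f7ef827ef82f9bc4) e
 (c (nat_lit 0x7e84f7e84f7e8427e83d7e84fbfce4) e
 (c (nat_lit 0x7ea1f7ea1f7ea1f7ea117ea1487da5) e
 (c (b (nat_lit 0xfb87805)) e
 (c (b (nat_lit 0xfbbd005)) e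
 (c (b (nat_lit 0xfed1605)) e
 (c (b (nat_lit 0xfd95a07)) e
 (c (b (nat_lit 0xfe41407)) e
 (c (b (nat_lit 0x10111e07)) e
 (c (b (nat_lit 0xff0a607)) e
 (c (nat_lit 0x7f5007f5007f4f57f5007f500c2449) e
 (c (b (nat_lit 0xffd1609)) e
 (c z e
 (c (nat_lit 0x8000080000800007fffc7fffcb3ba9) e e))))))))))))))
 (c (nat_lit 0x81000810008100080fff00610)
 (c (b (nat_lit 0xfd36405)) e
 (c (nat_lit 0x7de207dc477dc477de207de20572a5) e
 (c (nat_lit 0x7ee0f7ee0f7ed0d7ebfd7ebfde2045) e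
 (c z e
 (c (b (nat_lit 0xfc21207)) e
 (c (b (nat_lit 0xfdcfa07)) e
 (c z e
 (c z e
 (c (nat_lit 0x7f4557f4377f4387f4557f4551fe49) e
 (c (b (nat_lit 0xfebc209)) e
 (c (b (nat_lit 0xff70409)) e
 (c z e
 (c (nat_lit 0x8000080000800007fffe7ff8e517a9) e e)))))))))))))
 (c (a (nat_lit 0x10200a00))
 (c (b (nat_lit 0xfd2b805)) e
 (c (nat_lit 0x7feb380000800008000080000b9905) e
 (c z e
 (c (nat_lit 0x7f2867f1bf7f1bf7f2867f28673a27) e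
 (c z e
 (c z e
 (c (b (nat_lit 0xfe08a08)) e
 (c (nat_lit 0x80000800007f2f37f2f37f2f3d7aa8) e
 (c (nat_lit 0x8000080000800007f65a7f65ad3288) e e)))))))))
 (c (a (nat_lit 0x10200200))
 (c (nat_lit 0x7d8dd7d8d87d8d87d8dd7d8ddfbe87) e
 (c z e
 (c (b (nat_lit 0x104bea07)) e
 (c (b (nat_lit 0xff57c07)) e
 (c (b (nat_lit 0xfd22c08)) e
 (c (nat_lit 0x7fc3e7fc217fc3e7fc3e7fc3e8aca8) e
 (c (nat_lit 0x80000800007fe587fe6b7fe6bbcc48) e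
 (c (nat_lit 0x8000080000800007fb937fb9dc95e8) e
 (c (nat_lit 0x800008000080000800007f94ffdb08) e e)))))))))
 (c (nat_lit 0x8100081000810008100125d80)
 (c z e
 (c (b (nat_lit 0xeccda07)) e
 (c (b (nat_lit 0x1057d608)) e
 (c (nat_lit 0x7ffed80000800008000080000cef28) e
 (c (nat_lit 0x7fb4b7fb327fb4a7fb4b7fb4bf5848) e
 (c (nat_lit 0x80000800007fd717fd717fd7172828) e
 (c (nat_lit 0x8000080000800007eff87effbbea28) e
 (c (nat_lit 0x800008000080000800007f656d9c28) e e))))))))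
 (c (nat_lit 0x81002810038100381003815a0)
 (c (nat_lit 0x77983779837796577983779834f968) e
 (c (b (nat_lit 0xfe37c08)) e
 (c (nat_lit 0x7f77a7f7757f77a7f77a7f77a32988) e
 (c (nat_lit 0x7f05d7f0587f0557f05c7f05d08248) e
 (c (nat_lit 0x80000800007f0467f0467f046aacc8) e
 (c (nat_lit 0x8000080000800007f0297f02bce488) e
 (c (nat_lit 0x800008000080000800007f5f40ec28) e e)))))))
 (c (nat_lit 0x80fff810008100081000361a0) e
 (c (nat_lit 0x80fff80fff80fff80ffe9f780) e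
 (c (nat_lit 0x81001810028100281001feab0) e
 (c (a (nat_lit 0x101ffe01)) e
 (c (a (nat_lit 0x101ffa01)) e
 (c (nat_lit 0x80988809898098980989a5f41) e
 (c (nat_lit 0x8075380752807528075316701) e
 (c (nat_lit 0x8102f8102f8102f8102e06ff3) e
 (c (nat_lit 0x8103281035810358103548fb3) e
 (c (a (nat_lit 0x10118c03)) e
 (c (nat_lit 0x80fce80fcf80fcf80fd1d4a93) e
 (c (nat_lit 0x80f9a80f9980f9b80f9bfe1f4) e
 (c (nat_lit 0x80f9480f9680f9680f966a5b4) e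
 (c (nat_lit 0x80f8e80f9380f9480f9478524) e
 (c (nat_lit 0x80f8f80f8f80f8e80f8e02ae5) e
 (c (nat_lit 0x80f9280f9380f8e80f9223385) e
 (c (nat_lit 0x7f59d7f59e7f59e7f59ec4885) e
 (c (nat_lit 0x7e3427e3417e3407e340c8615) e
 (c (nat_lit 0x80f6680f6780f6680f681e797) e
 (c (nat_lit 0x7fdfd7fdfe7fdfd7fdfd97d67) e
 (c (a (nat_lit 0xffbac07)) e
 (c (nat_lit 0x81071810738107281072e2457) e e))))))))))))))))))))))))))))))))) Tr.c Tr.e (nat_lit 0) C.t4 C.t5 C.t6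
noncomputable def tt173 : Tr := beta% (fun (c : Nat → Tr → Tr → Tr) (e : Tr) (z : Nat) (a : Nat → Nat) =>
 (c (a (nat_lit 0xfed1200))
 (c (nat_lit 0x7cbab7cb3d7cba47cbab7cbab7cbab272c5) e
 (c (nat_lit 0x7dcc57dcc57dcc57dc867dcaa7dcc081805) e
 (c (nat_lit 0x7deb17deb17deb17deb17de6b7de8b97ec5) e
 (c z e
 (c z e
 (c z e
 (c z e
 (c z e
 (c z e
 (c z e
 (c (nat_lit 0x800008000080000800007fccc8000039ba0) e
 (c z e
 (c z e
 (c z e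
 (c (nat_lit 0x80000800008000080000800007f9c77d20c) e e)))))))))))))))
 (c (a (nat_lit 0xfe00a01))
 (c (nat_lit 0x7e5197e5197e5197e5197e50d7e519a13c5) e
 (c z e
 (c z e
 (c z e
 (c z e
 (c z e
 (c z e
 (c z e
 (c z e
 (c z e
 (c z e
 (c z e
 (c (nat_lit 0x80000800008000080000800007fcf851bcc) e
 (c (nat_lit 0x80000800008000080000800007fecc84494) e e))))))))))))))
 (c (a (nat_lit 0xfe00201))
 (c z e
 (c z e
 (c z e
 (c z e
 (c z e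
 (c z e
 (c z e
 (c z e
 (c z e
 (c z e
 (c (nat_lit 0x80000800008000080000800007f793c9dcc) e e)))))))))))
 (c (nat_lit 0x7ef7a7f0027f0027f0027f002b0641) e
 (c (a (nat_lit 0xfce7c01)) e
 (c (a (nat_lit 0xfeca803)) e
 (c (a (nat_lit 0xfee0e03)) e
 (c z e
 (c z e
 (c (a (nat_lit 0x10471a04)) e
 (c (a (nat_lit 0x101ec604)) e
 (c (nat_lit 0x7df647df6a7df6a7df6b7df6b44084) e
 (c (nat_lit 0x7df697df647df697df697df695e645) e
 (c (a (nat_lit 0xfc2ac05)) e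
 (c (nat_lit 0x7e7667e7667e7337e74b7e7591e9a5) e
 (c (a (nat_lit 0xfdd4005)) e
 (c (a (nat_lit 0xfdec807)) e
 (c (a (nat_lit 0xfd64c07)) e
 (c z e
 (c z e
 (c (nat_lit 0x7ffdb800008000080000800006ca8b) e
 (c (nat_lit 0x7f15d7f15d7f1637f1637f163da86b) e e))))))))))))))))))))))) Tr.c Tr.e (nat_lit 0) C.t5
noncomputable def tt174 : Tr := beta% (fun (c : Nat → Tr → Tr → Tr) (e : Tr) (z : Nat) (a b d : Nat → Nat) =>
 (c (a (nat_lit 0xfe00a00))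
 (c (nat_lit 0x80000800007ffff8000080000800007db44)
 (c (d (nat_lit 0xf97be0c)) e
 (c (d (nat_lit 0x10b1d20c)) e e))
 (c (nat_lit 0x7ed817ed817ed817ecdf7ecee7ed81a3784)
 (c (nat_lit 0x800008000080000878ff878ff878ff878ff8508c) e
 (c (nat_lit 0x8000080000800008000085811858118581171d8c) e e))
 (c z e
 (c z e
 (c (b (nat_lit 0x1025d405)) e
 (c (nat_lit 0x81c4381c4381c4381b1881b1881c43fc2c5) e
 (c (nat_lit 0x800008000080000800007ff517ff51e4545) e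
 (c (b (nat_lit 0x10b7fe07)) e
 (c (nat_lit 0x8698e8698e8698e867ce8698e8698e9e6c7) e
 (c z e
 (c (b (nat_lit 0x104c140b)) e
 (c (nat_lit 0x8460184601846018451c8460184601fee8c) e
 (c (b (nat_lit 0x10614e0c)) e
 (c (b (nat_lit 0x1033380c)) e
 (c (nat_lit 0x80000800008000081ddb81dbc81ddbff7cc) e e)))))))))))))))
 (c (a (nat_lit 0xfe00200))
 (c (nat_lit 0x7e9ab7ea107ea1a7ea237ea247ea242c645) e
 (c (nat_lit 0x7f0127f0127efdb7efe47effa7f00998e85) e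
 (c (nat_lit 0x7f2307f2307f2307f2117f22e7f23089a45) e
 (c z e
 (c z e
 (c z e
 (c z e
 (c z e
 (c z e
 (c (b (nat_lit 0x10ba420c)) e
 (c (b (nat_lit 0x10c4f00c)) e
 (c (nat_lit 0x853558534c85355853558535585355299cc) e
 (c (nat_lit 0x8000080000800008310f8310f8310f5db4c) e
 (c (nat_lit 0x8000080000800008000082c8a82c8a8018c) e e))))))))))))))
 (c (a (nat_lit 0xfe00a00))
 (c (nat_lit 0x7e5a27e5a27e5a27e5557e5557e5a2da445) e
 (c z e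
 (c z e
 (c z e
 (c z e
 (c z e
 (c z e
 (c z e
 (c z e
 (c (b (nat_lit 0x107e080c)) e
 (c (nat_lit 0x80000800008000083a6a83a6a83a6addf0c) e
 (c (nat_lit 0x8000080000800008000083c7883c781a40c) e e))))))))))))
 (c (a (nat_lit 0xfe00601))
 (c z e
 (c (nat_lit 0x7ff0f7fe877fd9a7ff0f7ff0f7ff0fc81c7) e
 (c z e
 (c z e
 (c z e
 (c z e
 (c z e
 (c z e
 (c (nat_lit 0x800008000082aa182aa182aa182aa15dea0) e e)))))))))
 (c (a (nat_lit 0xfe00801))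
 (c z e
 (c z e
 (c z e
 (c (b (nat_lit 0x1013300c)) e
 (c (b (nat_lit 0x10459a0c)) e e)))))
 (c (a (nat_lit 0xfe00a01)) e
 (c z e
 (c (nat_lit 0x7cade7cad97cad97cadf7cadfa7523) e
 (c (nat_lit 0x7d3d97d3d87d3d87d3d97d3d9d9803) e
 (c (a (nat_lit 0x10244a03)) e
 (c z e
 (c (nat_lit 0x7da9d7dac47dac47dac47dac4c2484) e
 (c (nat_lit 0x7e60b7e60b7e5ff7e6007e60bacb24) e
 (c (a (nat_lit 0xfe1b204)) e
 (c (a (nat_lit 0xfe1bc05)) e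
 (c (a (nat_lit 0xfe19205)) e
 (c (nat_lit 0x7f9d37f9d37f9d37f9777f97828fe5) e
 (c z e
 (c (nat_lit 0x800008000080000800007ffb4a5385) e
 (c (a (nat_lit 0x10114607)) e
 (c z e
 (c z e
 (c (nat_lit 0x7f7627f7677f6f97f7917f7913760b) e
 (c (nat_lit 0x7efbd7efbe7efc57efc57efc548c0c) e
 (c (nat_lit 0x7efd27efc77efc97efd27efd2d4e8c) e
 (c (a (nat_lit 0xfdf8e0c)) e
 (c (nat_lit 0x8000080000800007efda7efdc8668c) e
 (c (nat_lit 0x800008000080000800007efcdad0ec) e e))))))))))))))))))))))))))))) Tr.c Tr.e (nat_lit 0) C.t5 C.t6 C.t7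
noncomputable def tt175 : Tr := beta% (fun (c : Nat → Tr → Tr → Tr) (e : Tr) (z : Nat) (a b d : Nat → Nat) =>
 (c (a (nat_lit 0xfdfd000))
 (c (b (nat_lit 0xf3d2803))
 (c (d (nat_lit 0x10fb2e07)) e
 (c z e
 (c (d (nat_lit 0x10c77e0c)) e
 (c (d (nat_lit 0x107eee0c)) e e))))
 (c (b (nat_lit 0xfd11203)) e
 (c (b (nat_lit 0xf4e5404))
 (c (d (nat_lit 0xffffa0c)) e e)
 (c (b (nat_lit 0x103e7004)) e
 (c (b (nat_lit 0xfe97e04)) e
 (c z e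
 (c (nat_lit 0x7cbbc7cbbc7cbbc7cbbc7cbbc7cbb2f9b05) e
 (c z e
 (c z e
 (c (b (nat_lit 0x105a9807)) e
 (c (b (nat_lit 0x1056c807)) e
 (c z e
 (c z e
 (c (b (nat_lit 0x1023900c)) e
 (c z e
 (c (nat_lit 0x80000800007ffc580000800008000036fcc) e e))))))))))))))))
 (c (a (nat_lit 0xfdfe800))
 (c (b (nat_lit 0x1098ea04)) e
 (c (nat_lit 0x81b5881b5881b4b81b5881b5881b5888cc4)
 (c (d (nat_lit 0x109baa14)) e e)
 (c (nat_lit 0x8000080000800007fed57fee380000764c4) e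
 (c (nat_lit 0x7e98b7e9857e95a7e9507e93c7e9651b005) e
 (c (nat_lit 0x7e3b87e3b87e3b87e3af7e3b77e39d06c05) e
 (c z e
 (c z e
 (c (b (nat_lit 0x1078ac07)) e
 (c z e
 (c z e
 (c (b (nat_lit 0x10787007)) e
 (c z e
 (c (b (nat_lit 0x10341e0c)) e
 (c (nat_lit 0x80c4380c2280c4380c4380c4380c438674c) e
 (c (b (nat_lit 0x10124e14)) e
 (c (nat_lit 0x80000800008000081105811078110731e94) e
 (c z e
 (c z e
 (c z e
 (c (nat_lit 0x80000800008000080000800007ffc25ee8d) e e))))))))))))))))))))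
 (c (a (nat_lit 0xfdff400))
 (c (nat_lit 0x7ec357ec357ec357ec347ec357ec3552104) e
 (c (nat_lit 0x7ec8a7ec8a7ec8a7ec877ec867ec8a5c705) e
 (c (b (nat_lit 0xfdd4205)) e
 (c z e
 (c z e
 (c z e
 (c z e
 (c z e
 (c z e
 (c z e
 (c z e
 (c (b (nat_lit 0x10a9520c)) e
 (c (nat_lit 0x800008000080000832e1832e1832e18ec8c) e
 (c (nat_lit 0x800008000080000800008293782958ac4cc) e e))))))))))))))
 (c (a (nat_lit 0xfe00000))
 (c (nat_lit 0x7e3ed7e3ed7e3ed7e3e67e3d97e3e268185) e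
 (c (nat_lit 0x7f1617f1617f1617f0c27f0987f16191d85) e
 (c z e
 (c (b (nat_lit 0xfbb4007)) e
 (c (b (nat_lit 0xfe91a07)) e
 (c z e
 (c z e
 (c (b (nat_lit 0x10311e0c)) e e))))))))
 (c (a (nat_lit 0xfdfe200))
 (c z e
 (c (nat_lit 0x7eb047ea867ea387eb047eb047eb04d2007) e
 (c z e
 (c z e
 (c (b (nat_lit 0xf601a07)) e
 (c (b (nat_lit 0x1037ac0c)) e
 (c (nat_lit 0x7d8227d8227d7cc7d8227d8227d822b918c) e e)))))))
 (c (a (nat_lit 0xfdffc01))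
 (c (nat_lit 0x814588145881453814588145881458bd6c7) e
 (c z e
 (c z e
 (c z e
 (c (nat_lit 0x80000800007fe7d800008000080000e610c) e
 (c (nat_lit 0x80a4c80a4c80a4c80a0680a4c80a4c40e8c) e e))))))
 (c (a (nat_lit 0xfe00001))
 (c z e
 (c (nat_lit 0x8000080000800007fd958000080000fe04c) e e))
 (c (a (nat_lit 0xfd69a01))
 (c (nat_lit 0x80000800007feab7fe7a7fe7a80000ac30c) e
 (c (nat_lit 0x7fd948000080000800008000080000c7c8c) e e))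
 (c (nat_lit 0x7e7e97e7e97e81b7e81b7e81b244c1)
 (c (b (nat_lit 0xfd45411)) e e)
 (c (a (nat_lit 0xfd73203)) e
 (c (a (nat_lit 0xfb6ea03)) e
 (c z e
 (c (nat_lit 0x866fa866b5866b5866fa866fa9c583) e
 (c (nat_lit 0x7f3107f2f97f2f87f3107f310093a4) e
 (c (nat_lit 0x7f3b47f3b47f3917f3937f3b43e804) e
 (c (a (nat_lit 0xff7e004)) e
 (c (a (nat_lit 0xfdae605)) e
 (c (a (nat_lit 0xfdb4405)) e
 (c (a (nat_lit 0xff17a05)) e
 (c (a (nat_lit 0xff75205)) e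
 (c (a (nat_lit 0xff10407)) e
 (c (a (nat_lit 0xff10207)) e
 (c z e
 (c (nat_lit 0x7ffa080000800008000080000bc467) e
 (c (nat_lit 0x7f31a7f31a7f30d7f31a7f31a35d8c) e
 (c (nat_lit 0x7f3527f3527f3527f3287f3521fd0c) e
 (c (nat_lit 0x7f36e7f36e7f36e7f36a7f33193ecc) e
 (c (nat_lit 0x8000080000800007f3827f3821e3cc) e
 (c (nat_lit 0x800008000080000800007f38dc980c) e e)))))))))))))))))))))))))))))) Tr.c Tr.e (nat_lit 0) C.t5 C.t6 C.t7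
noncomputable def tt176 : Tr := beta% (fun (c : Nat → Tr → Tr → Tr) (e : Tr) (z : Nat) (a b d : Nat → Nat) =>
 (c (a (nat_lit 0x101ff400))
 (c (nat_lit 0x7f84e7f84b7f84d7f84d7f84d96a81)
 (c (d (nat_lit 0xf9f3207)) e
 (c z e
 (c z e
 (c z e
 (c (nat_lit 0x800007fe7c8000080000800007fec75f6cb) e
 (c z e
 (c z e
 (c (d (nat_lit 0xfffce0b)) e
 (c z e
 (c z e
 (c z e
 (c z e
 (c (nat_lit 0x80000800008000080000800007f718ca6cc) e e)))))))))))))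
 (c (nat_lit 0x7f0207f0207f0167f0167f01a32661)
 (c (d (nat_lit 0xfb24e07)) e
 (c z e
 (c z e
 (c (d (nat_lit 0xfff980b)) e
 (c z e
 (c z e
 (c z e
 (c z e
 (c z e
 (c z e
 (c (nat_lit 0x80000800008000080000800007fcaddd5cc) e e)))))))))))
 (c (nat_lit 0x7f0247f0247f0247f00e7f00ed3be1) e
 (c (b (nat_lit 0xfcb6a01))
 (c (nat_lit 0x7fba77fd3580000800008000080000299cb) e e)
 (c (nat_lit 0x7ec787ec787ec837ec917ec91683e3) e
 (c (b (nat_lit 0xfbc6403)) e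
 (c (b (nat_lit 0xfe3fa03)) e
 (c (b (nat_lit 0x1031b403)) e
 (c (b (nat_lit 0x10b8d204)) e
 (c (b (nat_lit 0x100b0404)) e
 (c (nat_lit 0x7dd757dd757dd717dd717dd75940c5) e
 (c (b (nat_lit 0xfba9605)) e
 (c (nat_lit 0x7e7fa7e7fa7e7fa7e7f17e7f9dcea5) e
 (c (nat_lit 0x7ef797ef617f0997f0997f079c24e5) e
 (c (b (nat_lit 0xfbbb807)) e
 (c (b (nat_lit 0xfb9de07)) e
 (c z e
 (c z e
 (c (nat_lit 0x7ead97ead97eacf7ead97ead92dceb) e
 (c (nat_lit 0x7e5f07e5f07e5f07e5d57e5f0bbb2b) e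
 (c (nat_lit 0x7f4157f4527f3c17f3c17f4526d08b) e
 (c (nat_lit 0x7fdfc7fdfc7fde47fdfc7fdfc33e8b) e e))))))))))))))))))))))
 (c (a (nat_lit 0x101ff600))
 (c (nat_lit 0x7f0267f0267f0267f00f7f01368801) e
 (c (nat_lit 0x7f0347f0347f0347f0347f01269e01) e
 (c z e
 (c z e
 (c z e
 (c (b (nat_lit 0x10336603)) e
 (c z e
 (c z e
 (c z e
 (c (nat_lit 0x7dde57dde57dde57ddd37ddd3090c5) e
 (c (b (nat_lit 0xfd3c405)) e
 (c (b (nat_lit 0xfe46c05)) e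
 (c (b (nat_lit 0xfc7fc07)) e
 (c (b (nat_lit 0xfcf4607)) e
 (c z e
 (c z e
 (c (nat_lit 0x7f4747f47e7f4a07f4a07f4a092529) e
 (c (b (nat_lit 0xfdacc0b)) e
 (c (nat_lit 0x7edb47edb47eda07edb47edb4a206b) e
 (c z e
 (c (nat_lit 0x7ff997fe3f7fec67ff997ff9956aeb) e e)))))))))))))))))))))
 (c (a (nat_lit 0x101ff600))
 (c (b (nat_lit 0xfe79803))
 (c (nat_lit 0x80000800008000080000800007fe6d87ec9) e e)
 (c (b (nat_lit 0xfe7da03)) e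
 (c (b (nat_lit 0xfeff603)) e
 (c (b (nat_lit 0x100d0803)) e
 (c (b (nat_lit 0xfe83c04)) e
 (c (b (nat_lit 0x1009c204)) e
 (c z e
 (c (b (nat_lit 0xfb4ba05)) e
 (c z e
 (c (b (nat_lit 0xfe0ea05)) e
 (c (b (nat_lit 0xfd60407)) e
 (c (nat_lit 0x80000800007ffac80000800003aa87) e
 (c z e
 (c z e
 (c (b (nat_lit 0xff0b209)) e e)))))))))))))))
 (c (a (nat_lit 0x101fea00))
 (c z e
 (c (b (nat_lit 0x1057a803)) e
 (c (nat_lit 0x7efbe7efb47efb37efbe7efbe98624) e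
 (c (nat_lit 0x7ef077f5107f5107f5107f510d4024) e
 (c (nat_lit 0x7f17d7f0c07f0c07f17d7f17db7625) e
 (c z e
 (c (nat_lit 0x7e67f7e67f7e5437e5437e67fd9805) e
 (c (b (nat_lit 0xffb3005)) e
 (c (nat_lit 0x7f1fb7f1a27f1bb7f1fb7f1fb48dc7) e
 (c (nat_lit 0x7f7ec7f7ec7f7e27f7ec7f7eccb187) e
 (c z e
 (c (b (nat_lit 0x1002fa07)) e
 (c (nat_lit 0x7f6167f6167f60b7f6167f6163e9a9) e
 (c (b (nat_lit 0xff49409)) e
 (c (b (nat_lit 0xffe2809)) e e)))))))))))))))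
 (c (a (nat_lit 0x101fee00))
 (c (nat_lit 0x7ee777ee7a7ee887eebe7eebe9b7a4) e
 (c (nat_lit 0x7ea2b7ea207ea267ea2b7ea2bd2ee4) e
 (c (nat_lit 0x7e8757e8757e82b7e83d7e875d0885) e
 (c (nat_lit 0x7df697df4e7df4e7df597df692f6e5) e
 (c (nat_lit 0x7f8cf7f8cf7f8cf7f7747f7f8008c5) e
 (c (b (nat_lit 0xfeb9405)) e
 (c (nat_lit 0x7efce7ef977efbb7efce7efce2d727) e
 (c (nat_lit 0x7ef477ef477ef3c7ef477ef473b7c7) e
 (c z e
 (c z e
 (c (nat_lit 0x7f6947f6907f65e7f6947f694e1849) e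
 (c (nat_lit 0x7fb227fb227fb227faf57fb22a09a9) e
 (c (b (nat_lit 0xff73809)) e
 (c (b (nat_lit 0xff94c09)) e e))))))))))))))
 (c (a (nat_lit 0x101ff600))
 (c (nat_lit 0x7e82a7e82a7e81b7e8217e82aed705) e
 (c (nat_lit 0x7e8047e8047e7eb7e7e87e800061a5) e
 (c (nat_lit 0x7ef767ef767ef767eeb27eeb2895a5) e
 (c z e
 (c (b (nat_lit 0xfd13e07)) e
 (c (nat_lit 0x7ede67ede67edba7ede07ede608f87) e
 (c (b (nat_lit 0xff38007)) e
 (c (b (nat_lit 0x10427c07)) e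
 (c (nat_lit 0x7f5967f5617f5a57f5a57f5a5a0f48) e
 (c (nat_lit 0x7f7917f7917f7627f7917f79159289) e
 (c (nat_lit 0x7f7147f7147f7147f6f87f71411d09) e
 (c (b (nat_lit 0xff6d409)) e
 (c (b (nat_lit 0xffaf609)) e e)))))))))))))
 (c (a (nat_lit 0x10200200))
 (c (b (nat_lit 0xfc55005)) e
 (c (nat_lit 0x800008000080000800007fed57e5a5) e
 (c z e
 (c (nat_lit 0x7df2c7dcc87dcc87df2c7df2cb1d87) e
 (c z e
 (c z e
 (c (nat_lit 0x7e9a77e97f7e9a77e9a77e9a7d5e08) e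
 (c (nat_lit 0x7f0257f0247f0257f0257f025a8228) e
 (c (nat_lit 0x80000800007f3847f3847f384d1c88) e
 (c (nat_lit 0x8000080000800007fd197fd1818888) e
 (c (nat_lit 0x800008000080000800007ffad11dc8) e
 (c (nat_lit 0x800008000080000800007feb2b8609) e e))))))))))))
 (c (a (nat_lit 0x101ff800))
 (c (b (nat_lit 0xfa67a07)) e
 (c z e
 (c z e
 (c z e
 (c (b (nat_lit 0xfe25a08)) e
 (c (b (nat_lit 0xfe02608)) e
 (c (nat_lit 0x7f4ff7f4ff7f4fb7f4ff7f4ff9d328) e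
 (c (nat_lit 0x80000800007f86a7f85c7f8600be88) e
 (c (nat_lit 0x8000080000800007f3147f308a1208) e
 (c (nat_lit 0x800008000080000800007f52c83428) e e))))))))))
 (c (nat_lit 0x80ffe80fff80fff80fff5d840)
 (c z e
 (c z e
 (c (nat_lit 0x81bb181bb181ba481bb181bb1ddae8) e
 (c (b (nat_lit 0xfe78808)) e
 (c (nat_lit 0x7ee6b7ee667ee6b7ee6b7ee6b6dd48) e
 (c (nat_lit 0x7f0407f0407f03a7f03c7f040b4c28) e
 (c (nat_lit 0x80000800007f0207f0137f010a1828) e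
 (c (nat_lit 0x8000080000800007f0127f00bc12c8) e
 (c (nat_lit 0x800008000080000800007f2445c048) e e)))))))))
 (c (a (nat_lit 0x101ffa00))
 (c (nat_lit 0x77c5f77c5f77c5477c5f77c5fcc908) e
 (c (b (nat_lit 0xfdda608)) e
 (c (nat_lit 0x7ee587ee527ee6a7ee6a7ee6aa9748) e
 (c (nat_lit 0x7f0417f0757f0727f0757f07580bc8) e
 (c (nat_lit 0x7f0577f02e7f0537f0577f057b6d88) e
 (c (nat_lit 0x80000800007efed7effa7effacf028) e
 (c (nat_lit 0x8000080000800007efa37efa34dec8) e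
 (c (nat_lit 0x800008000080000800007f1e7424c8) e e))))))))
 (c (a (nat_lit 0x101ff600)) e
 (c (a (nat_lit 0x10200200)) e
 (c (a (nat_lit 0x101ffe00)) e
 (c (nat_lit 0x80ffb80ffa80ffa80ff914df0) e
 (c (nat_lit 0x80ffc80ffc80ffc80ffbe3771) e
 (c (a (nat_lit 0x101ff801)) e
 (c (nat_lit 0x80dbf80dc080dc080dc0869e1) e
 (c (nat_lit 0x8014b8014c8014c8014b98411) e
 (c (a (nat_lit 0x101d6e03)) e
 (c (nat_lit 0x80e8f80e9080e9080e9016da3) e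
 (c (a (nat_lit 0x10195403)) e
 (c (nat_lit 0x8100d810108101781017b76d3) e
 (c (nat_lit 0x80e2680e3380e3480e343ddd4) e
 (c (nat_lit 0x80e2880e2480e2980e296e0d4) e
 (c (nat_lit 0x80e0e80e1080e1180e123be65) e
 (c (nat_lit 0x80e0b80e0b80e0b80e0c7fb55) e
 (c (nat_lit 0x80a1d80dcb80dca80dca60a85) e
 (c (a (nat_lit 0xff66405)) e
 (c (nat_lit 0x80f7180f6c80f7280f70e35a7) e
 (c (nat_lit 0x7fe827fe837fe837fe83d2c47) e
 (c (nat_lit 0x7fd057fd057fd057fd06c2537) e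
 (c (nat_lit 0x811c3811c3811c2811bf18cd7) e e))))))))))))))))))))))))))))))))) Tr.c Tr.e (nat_lit 0) C.t4 C.t5 C.t6
noncomputable def tt177 : Tr := beta% (fun (c : Nat → Tr → Tr → Tr) (e : Tr) (z : Nat) (a b : Nat → Nat) =>
 (c (a (nat_lit 0xfed2600))
 (c z e
 (c (b (nat_lit 0xff17205)) e
 (c z e
 (c (nat_lit 0x800008000080000800007fe0e8000084105) e
 (c z e
 (c z e
 (c (b (nat_lit 0x104dac07)) e
 (c (b (nat_lit 0x10a0e00b)) e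
 (c (b (nat_lit 0x106d380b)) e
 (c (b (nat_lit 0x10803e0b)) e
 (c (nat_lit 0x838ed838ed838a9838a9838ed838ed5f50c) e
 (c (b (nat_lit 0x10426e0c)) e
 (c (nat_lit 0x800008000080000816e9816e9816e9c920c) e e)))))))))))))
 (c (a (nat_lit 0xfe01400))
 (c (nat_lit 0x7f4a57f4a57f4a57f4497f4287f45f284c5) e
 (c (b (nat_lit 0xfece407)) e
 (c z e
 (c z e
 (c z e
 (c (nat_lit 0x800007ffb87fd6e80000800008000058dcb) e
 (c z e
 (c (b (nat_lit 0x108d540b)) e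
 (c (b (nat_lit 0x102fc60c)) e
 (c (b (nat_lit 0x106b980c)) e
 (c z e
 (c (nat_lit 0x8000080000800008000082050820508a10c) e e))))))))))))
 (c (nat_lit 0x7f00b7f00a7f00a7f00a7f00b514e1)
 (c (b (nat_lit 0xfad9207)) e
 (c z e
 (c z e
 (c z e
 (c z e
 (c z e
 (c (b (nat_lit 0x1064f60c)) e e)))))))
 (c (a (nat_lit 0xfe00a01))
 (c z e
 (c (b (nat_lit 0x1037520b)) e
 (c z e
 (c z e
 (c (b (nat_lit 0x1027d80c)) e e)))))
 (c (a (nat_lit 0xfd45c01))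
 (c z e
 (c z e
 (c (b (nat_lit 0x1028360c)) e
 (c (b (nat_lit 0x1034160c)) e e))))
 (c (a (nat_lit 0xfe01201)) e
 (c (nat_lit 0x7d6f87d6f87d7087d7137d7133e5e3) e
 (c (a (nat_lit 0xfbc0603)) e
 (c z e
 (c z e
 (c (nat_lit 0x7eab67ed5a7ed5a7ed5a7ed5ad9ba4) e
 (c (nat_lit 0x7e6b17e6b17e6ac7e6b17e6b175aa4) e
 (c (a (nat_lit 0xfe07605)) e
 (c (a (nat_lit 0xfe0c205)) e
 (c (a (nat_lit 0xfea7c05)) e
 (c (a (nat_lit 0xff11c05)) e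
 (c (a (nat_lit 0xfedbc07)) e
 (c (a (nat_lit 0xff1bc07)) e
 (c (a (nat_lit 0x10022c07)) e
 (c (a (nat_lit 0xff68807)) e
 (c (nat_lit 0x7fbcb7fbcb7fba27fbb47fbcb2466b) e
 (c z e
 (c (a (nat_lit 0xfe1760b)) e
 (c (nat_lit 0x7f2747f25f7f25e7f2747f2740838c) e
 (c (a (nat_lit 0xfe4920c)) e
 (c (nat_lit 0x8000080000800007f2827f28faba4c) e
 (c (nat_lit 0x800008000080000800007f299fd7ac) e e)))))))))))))))))))))))))))) Tr.c Tr.e (nat_lit 0) C.t5 C.t6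
noncomputable def tt178 : Tr := beta% (fun (c : Nat → Tr → Tr → Tr) (e : Tr) (z : Nat) (a b : Nat → Nat) =>
 (c (a (nat_lit 0xfe01200))
 (c (b (nat_lit 0x105cba04)) e
 (c (b (nat_lit 0x1004de04))
 (c z e
 (c (nat_lit 0x80000800008000086329863298632986329f9ba4) e e))
 (c (nat_lit 0x8000080000800007ffd67ffdc8000061844) e
 (c (nat_lit 0x7f9c57f9c57f98b7f9a37f9867f99376705) e
 (c (b (nat_lit 0xfea9805)) e
 (c z e
 (c (nat_lit 0x83396832de832de833968339683396520c7) e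
 (c z e
 (c (b (nat_lit 0x10559807)) e
 (c z e
 (c z e
 (c (b (nat_lit 0xfffa40b)) e
 (c (b (nat_lit 0x10270e0c)) e
 (c z e
 (c (nat_lit 0x8000080000800008387283896838962794c) e
 (c z e
 (c z e
 (c z e
 (c (nat_lit 0x80000800008000080000800007ff04cec58) e e)))))))))))))))))))
 (c (a (nat_lit 0xfe00c00))
 (c (nat_lit 0x7f50d7f50d7f50d7f4f57f50d7f50db7c85)
 (c z e
 (c (nat_lit 0x80000800008000080000846ee846ee846ee6cf94) e e))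
 (c (nat_lit 0x7f2bb7f2bb7f2bb7f2bb7f2987f2a666585) e
 (c z e
 (c (b (nat_lit 0xff30a05)) e
 (c z e
 (c z e
 (c z e
 (c z e
 (c z e
 (c z e
 (c z e
 (c (b (nat_lit 0x1025520c)) e
 (c (nat_lit 0x827bd827bd827bc827bd827bd827bdfda54) e
 (c (nat_lit 0x80000800008000082edc82edc82edcb0894) e
 (c (nat_lit 0x8000080000800008000082ced82cee37754) e e)))))))))))))))
 (c (nat_lit 0x7f0127f0127f0127f0117f011f2f80)
 (c (nat_lit 0x7d8527d8527d8527d84f7d8527d8527b685) e e)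
 (c (a (nat_lit 0xfe00a00)) e
 (c (a (nat_lit 0xfe01201)) e
 (c (a (nat_lit 0xfe02a01)) e
 (c (a (nat_lit 0xfe01401)) e
 (c (a (nat_lit 0xfdff801)) e
 (c z e
 (c z e
 (c (nat_lit 0x800008000080000800007fffc2e181) e
 (c z e
 (c (nat_lit 0x7f0f37f0f37f0f27f0f37f0f3f5fa4) e
 (c (nat_lit 0x7ee227ee227ee0d7ee117ee2275e04) e
 (c (a (nat_lit 0xfc4ac05)) e
 (c (a (nat_lit 0xfc4ae05)) e
 (c (a (nat_lit 0xfd5a405)) e
 (c (a (nat_lit 0x10034405)) e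
 (c z e
 (c z e
 (c z e
 (c z e
 (c z e
 (c (a (nat_lit 0xff30e0b)) e
 (c (nat_lit 0x7ffbc7ffba7ffbc7ffbc7ffbc41c2c) e
 (c (a (nat_lit 0xfff8a0c)) e
 (c (nat_lit 0x8000080000800007fff17fff8dcaec) e e)))))))))))))))))))))))))))) Tr.c Tr.e (nat_lit 0) C.t5 C.t6
noncomputable def tt179 : Tr := beta% (fun (c : Nat → Tr → Tr → Tr) (e : Tr) (z : Nat) (a b d : Nat → Nat) =>
 (c (a (nat_lit 0xfdfe400))
 (c (b (nat_lit 0xf707603))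
 (c (d (nat_lit 0x10fffe07)) e
 (c z e
 (c z e
 (c z e
 (c (nat_lit 0x8000080000800007fe3f8000080000800005160c) e
 (c (d (nat_lit 0xfcbfe18)) e e))))))
 (c z e
 (c z e
 (c (b (nat_lit 0x10690c04)) e
 (c (b (nat_lit 0x10803604)) e
 (c z e
 (c z e
 (c (nat_lit 0x80000800007ffd380000800008000058085) e
 (c z e
 (c z e
 (c (b (nat_lit 0x103bfe07)) e
 (c (b (nat_lit 0x108b9607)) e
 (c (b (nat_lit 0x101d4a07)) e
 (c (b (nat_lit 0x1016a80b)) e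
 (c z e
 (c (b (nat_lit 0x100de80c)) e
 (c (nat_lit 0x8000080000800007ffa48000080000b37cc) e
 (c (nat_lit 0x800008000080000806df806df806df46c18) e e))))))))))))))))))
 (c (a (nat_lit 0xfe00000))
 (c z e
 (c z e
 (c z e
 (c z e
 (c z e
 (c z e
 (c z e
 (c z e
 (c z e
 (c z e
 (c z e
 (c z e
 (c z e
 (c (b (nat_lit 0xfe5640c)) e
 (c (b (nat_lit 0x1034ec14)) e
 (c (nat_lit 0x815118151181511815118150581511a1158) e
 (c (nat_lit 0x800008000080000816a5816ae816ae5b2d8) e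
 (c (nat_lit 0x800008000080000800007ff727ff66a4398) e
 (c (nat_lit 0x80000800008000080000800007f483c334d) e e)))))))))))))))))))
 (c (a (nat_lit 0xfe00000))
 (c (nat_lit 0x80000800007fffa8000080000800001cd44)
 (c (d (nat_lit 0x1053bc14)) e e)
 (c z e
 (c z e
 (c z e
 (c z e
 (c z e
 (c z e
 (c z e
 (c z e
 (c z e
 (c z e
 (c z e
 (c (nat_lit 0x800007ffcd8000080000800008000028c94) e
 (c (nat_lit 0x81d2881d2881cf581d2881d2881d2888254) e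
 (c (nat_lit 0x8000080000800008148c8149481494f9f54) e
 (c (nat_lit 0x80000800008000080000813ea8140fa60d4) e e))))))))))))))))
 (c (a (nat_lit 0xfe01400))
 (c (nat_lit 0x80000800007fff07ffeb8000080000b0405) e
 (c (b (nat_lit 0xfd55005)) e
 (c z e
 (c z e
 (c (b (nat_lit 0xff1b607)) e
 (c z e
 (c z e
 (c (b (nat_lit 0x1065ae0b)) e
 (c z e
 (c z e
 (c (nat_lit 0x7ffa77ffa77ffad7ffad7ffad7ffad21ed3) e e)))))))))))
 (c (a (nat_lit 0xfe00200))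
 (c z e
 (c z e
 (c z e
 (c z e
 (c z e
 (c z e
 (c (nat_lit 0x800007fdeb80000800008000080000a060c) e e)))))))
 (c (a (nat_lit 0xfe00c00))
 (c (nat_lit 0x7f4a97f4a97f41d7f4a97f4a97f4a9f24c7) e e)
 (c (a (nat_lit 0xfe01801)) e
 (c (a (nat_lit 0xfe00e01))
 (c (nat_lit 0x800008000080000800007ff8d7fd2c650cb) e e)
 (c (nat_lit 0x7f0107f0107f0107f0067f00765501) e
 (c (nat_lit 0x7f01d7f01d7f01d7f01d7effb76641) e
 (c (nat_lit 0x7ef047eeff7ef047ef047ef047b303) e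
 (c (a (nat_lit 0xfc8c003)) e
 (c (a (nat_lit 0x10542a03)) e
 (c z e
 (c (a (nat_lit 0x101ec804)) e
 (c (a (nat_lit 0xfe57204)) e
 (c (a (nat_lit 0x10052205)) e
 (c (a (nat_lit 0xfdb6c05)) e
 (c (a (nat_lit 0xfe7fa05)) e
 (c (a (nat_lit 0xff1ae05)) e
 (c (a (nat_lit 0xffdb207)) e
 (c (a (nat_lit 0xfecfe07)) e
 (c (a (nat_lit 0xff9e407)) e
 (c z e
 (c (a (nat_lit 0xfeba00b)) e
 (c (nat_lit 0x7f4ac7f4ac7f4a17f4ac7f4acf304c) e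
 (c (nat_lit 0x7f4bf7f4bf7f4bc7f4a57f4bf4cfec) e
 (c (nat_lit 0x8000080000800007f4bb7f4bbb8b8c) e
 (c (nat_lit 0x800008000080000800007f4b4f52ac) e e)))))))))))))))))))))))))))))) Tr.c Tr.e (nat_lit 0) C.t5 C.t6 C.t7
noncomputable def tt180 : Tr := beta% (fun (c : Nat → Tr → Tr → Tr) (e : Tr) (z : Nat) (a b d : Nat → Nat) =>
 (c (a (nat_lit 0xfdf5e00))
 (c (b (nat_lit 0xfed0e01))
 (c (d (nat_lit 0xf249605)) e
 (c z e
 (c (d (nat_lit 0x11000007)) e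
 (c (d (nat_lit 0x10fffa07)) e
 (c (d (nat_lit 0x10e58c07)) e
 (c (d (nat_lit 0x104e5207)) e e))))))
 (c (b (nat_lit 0x10208201))
 (c z e
 (c z e
 (c (d (nat_lit 0x10f9de07)) e
 (c z e
 (c z e
 (c z e
 (c (nat_lit 0x800007fd9d8000080000800008000080000b5e24) e e)))))))
 (c (nat_lit 0x77fee7801d7801d7801d7801d7801d8fe83) e
 (c (b (nat_lit 0xf3dcc03))
 (c z e
 (c z e
 (c z e
 (c (d (nat_lit 0x10841224)) e
 (c (d (nat_lit 0x10a6e624)) e e)))))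
 (c (b (nat_lit 0xfbb3c03))
 (c (d (nat_lit 0xed54623)) e
 (c (d (nat_lit 0x109d6223)) e e))
 (c z e
 (c (b (nat_lit 0x10083a04)) e
 (c (nat_lit 0x7fa607fa607fa607fa567fa607fa6052784) e
 (c (nat_lit 0x7ed637ed637ed637ec887ed637ed63f5305) e
 (c (nat_lit 0x7f6487f6487f6487f6487f6487f63806d85) e
 (c (b (nat_lit 0xfede805)) e
 (c z e
 (c (b (nat_lit 0x10796607)) e
 (c (b (nat_lit 0x10a68607)) e
 (c (b (nat_lit 0x10546407)) e
 (c (b (nat_lit 0x10087a07)) e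
 (c (b (nat_lit 0x1020c60c)) e
 (c (b (nat_lit 0x1030000c)) e e))))))))))))))))))
 (c (a (nat_lit 0xfe00200))
 (c (b (nat_lit 0xfb97403)) e
 (c z e
 (c (b (nat_lit 0xfaf3403)) e
 (c (b (nat_lit 0xfd56603)) e
 (c z e
 (c (nat_lit 0x80ae180ae180ad980acc80ae180ae188384) e
 (c (b (nat_lit 0xfd8b805)) e
 (c (nat_lit 0x7eef77eef77eef77eef77eeda7eef74f105) e
 (c z e
 (c z e
 (c z e
 (c z e
 (c z e
 (c z e
 (c z e
 (c (b (nat_lit 0x10224e0c)) e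
 (c (b (nat_lit 0x1015b214)) e
 (c (nat_lit 0x80000800008000081f2b81f0a81f361d494) e
 (c (nat_lit 0x8000080000800008000080ea380ea357fcd) e e)))))))))))))))))))
 (c (a (nat_lit 0xfe00a00))
 (c (nat_lit 0x79bd979b2479b2479bd979bd979bd9c8683) e
 (c z e
 (c (b (nat_lit 0xfda0a04)) e
 (c z e
 (c (nat_lit 0x8000080000800007ffca80000800006b8c4) e
 (c z e
 (c z e
 (c z e
 (c z e
 (c z e
 (c z e
 (c z e
 (c (b (nat_lit 0x1070b80c)) e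
 (c (b (nat_lit 0x1064780c)) e
 (c (b (nat_lit 0x10604c14)) e
 (c (b (nat_lit 0x107be614)) e
 (c (nat_lit 0x80000800008000082de582dcf82dc80e654) e e)))))))))))))))))
 (c (nat_lit 0x7f0077f0057f0057f0057f00597560)
 (c (b (nat_lit 0x10985c04))
 (c (d (nat_lit 0xf568814)) e e)
 (c (nat_lit 0x83bf183bf183bc783bc783bf183bf134804) e
 (c (b (nat_lit 0xff0ba05)) e
 (c (nat_lit 0x800007fe3f8000080000800008000057e05) e
 (c (b (nat_lit 0xfe23005)) e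
 (c (nat_lit 0x819378193781937819378192881928bf185) e
 (c (b (nat_lit 0x108a3007)) e
 (c (nat_lit 0x8473b8473b844c6847258473b8473b9d087) e
 (c (b (nat_lit 0x1051b807)) e
 (c z e
 (c (nat_lit 0x807e280676807e2807e2807e2807e25980c) e
 (c (b (nat_lit 0x1027540c)) e
 (c (b (nat_lit 0x102f9c13)) e
 (c (b (nat_lit 0x10154a14)) e
 (c (b (nat_lit 0x1029dc14)) e e)))))))))))))))
 (c (a (nat_lit 0xfe01c00))
 (c (b (nat_lit 0x104e3e05)) e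
 (c (b (nat_lit 0xfd5d805)) e
 (c (b (nat_lit 0xfd61c05)) e
 (c (b (nat_lit 0x10912805)) e
 (c z e
 (c (nat_lit 0x81d7381d7381d7381d1f81d7381d7349cc7) e
 (c z e
 (c z e
 (c (b (nat_lit 0xffffc0c)) e
 (c (nat_lit 0x7f0127f0127f0127ef147f0127f0121a24c) e e))))))))))
 (c (a (nat_lit 0xfe01600))
 (c (b (nat_lit 0xfe2ce05)) e
 (c z e
 (c z e
 (c (nat_lit 0x80000800008000080000800007ff5f586c5) e
 (c z e
 (c z e
 (c z e
 (c z e
 (c z e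
 (c (nat_lit 0x7ff018000080000800008000080000bde93) e
 (c (b (nat_lit 0x10392613)) e e)))))))))))
 (c (a (nat_lit 0xfe01600))
 (c (nat_lit 0x7eafd7ea967eafd7eafd7eafd7eafdd1e47) e
 (c (nat_lit 0x80000800007ff5c800008000080000d1747) e
 (c z e
 (c z e
 (c (b (nat_lit 0x105c220c)) e
 (c z e
 (c (b (nat_lit 0xfdd7420)) e
 (c (b (nat_lit 0x105d9e20)) e e))))))))
 (c (a (nat_lit 0xfe00e00))
 (c z e
 (c (b (nat_lit 0xfd7a407)) e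
 (c (nat_lit 0x813f8813f8813f88113c813f8813f8cce8c) e
 (c z e
 (c (b (nat_lit 0x10388211)) e
 (c z e
 (c (b (nat_lit 0x109f1a20)) e e)))))))
 (c (a (nat_lit 0xfe01601))
 (c z e
 (c (nat_lit 0x81b8b81b8b81b8b81b6381b2e81a6c144cc) e
 (c (nat_lit 0x815fb815fb815fb815fb815fb8115b94511) e
 (c (b (nat_lit 0x10433c11)) e e))))
 (c (a (nat_lit 0xfdff801))
 (c (b (nat_lit 0x101ec211)) e
 (c (nat_lit 0x818e4818e4818e4818e4818ae818c51c491) e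
 (c (b (nat_lit 0x103f3611)) e e)))
 (c (a (nat_lit 0xfded201)) e
 (c (a (nat_lit 0xfccbc01)) e
 (c (a (nat_lit 0xf793403)) e
 (c (nat_lit 0x7c8327c8327c7b67c8327c83234903) e
 (c (a (nat_lit 0xfd41c03)) e
 (c (nat_lit 0x8334b8334b83341833418334bd2ca3) e
 (c (nat_lit 0x7f17e7f1567f1517f17e7f17ef6364) e
 (c (nat_lit 0x7e3e77e3e77e3d27e3e77e3e7c5004) e
 (c (a (nat_lit 0xfcb3c05)) e
 (c (a (nat_lit 0xfcac405)) e
 (c (nat_lit 0x7e9d37e9d37e9d37e9d37e9840b065) e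
 (c z e
 (c (a (nat_lit 0xff89c07)) e
 (c (a (nat_lit 0xff99207)) e
 (c (a (nat_lit 0x10069a07)) e
 (c (a (nat_lit 0x100f4e07)) e
 (c (nat_lit 0x7fe447fe1f7fe1f7fe447fe44303ec) e
 (c (nat_lit 0x7fedb7fedb7fedb7fe887fedba09cc) e
 (c (nat_lit 0x8000080000800007ff577feccd13cc) e
 (c (nat_lit 0x8000080000800007ffb27ff60e40ad) e
 (c (nat_lit 0x800008000080000800007fff17726d) e e)))))))))))))))))))))))))))))))) Tr.c Tr.e (nat_lit 0) C.t5 C.t6 C.t7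
noncomputable def tt181 : Tr := beta% (fun (c : Nat → Tr → Tr → Tr) (e : Tr) (z : Nat) (a b : Nat → Nat) =>
 (c (a (nat_lit 0x10200000))
 (c (b (nat_lit 0xfdffa01))
 (c z e
 (c (nat_lit 0x7f5f07f5f07f5f07f5727f5f07f5f00f9c9) e e))
 (c (b (nat_lit 0xfdfda01)) e
 (c (b (nat_lit 0xfee4001)) e
 (c z e
 (c (b (nat_lit 0xfca8203)) e
 (c (b (nat_lit 0xfae5403)) e
 (c z e
 (c z e
 (c (b (nat_lit 0x101eda05)) e
 (c (nat_lit 0x7dd837dd837dd6b7dd7f7dd8364ba5) e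
 (c (b (nat_lit 0xfc06405)) e
 (c (b (nat_lit 0xfdbd805)) e
 (c (b (nat_lit 0xfccdc07)) e
 (c (b (nat_lit 0xfd3ae07)) e
 (c z e
 (c (b (nat_lit 0xfccda07)) e
 (c (b (nat_lit 0xfd7b409)) e
 (c (b (nat_lit 0xfdbb409)) e
 (c (b (nat_lit 0xfdc380b)) e
 (c (nat_lit 0x7ed6f7ed6f7ed467ed6f7ed6fff70b) e
 (c (b (nat_lit 0xfdf080b)) e
 (c (nat_lit 0x7ff647ff647fe8c7fe8c7fe8c6efcb) e e))))))))))))))))))))))
 (c (a (nat_lit 0x101ff800))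
 (c (nat_lit 0x7e9ba7e9bf7e9c07e9c07e9c052141) e
 (c (b (nat_lit 0xfd40803)) e
 (c (b (nat_lit 0xfde6a03)) e
 (c (b (nat_lit 0xfe87403)) e
 (c (b (nat_lit 0x1038ba03)) e
 (c (b (nat_lit 0x100e9004)) e
 (c z e
 (c (b (nat_lit 0xfbc6a05)) e
 (c z e
 (c (nat_lit 0x7fc957fc647fc957fc957fc9554d25) e
 (c (nat_lit 0x7f1837f1837f1027f1837f18359a67) e
 (c (b (nat_lit 0xff17607)) e
 (c z e
 (c (nat_lit 0x7f7a47f7557f7557f7a47f7a4ca7a7) e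
 (c (b (nat_lit 0xfed1609)) e
 (c (nat_lit 0x7f9ee7f9ee7f9df7f9e67f9df24a49) e
 (c (nat_lit 0x7fa967fb1c7fb1c7fb1c7fb1cd3d69) e
 (c z e
 (c z e
 (c z e
 (c (nat_lit 0x8000080000800007fff07fff0736eb) e
 (c z e
 (c z e
 (c (nat_lit 0x800008000080000800007ff9a9920c) e e))))))))))))))))))))))))
 (c (a (nat_lit 0x101ffc00))
 (c (b (nat_lit 0xfd74403)) e
 (c z e
 (c (b (nat_lit 0x10713803)) e
 (c (b (nat_lit 0xfe44a04)) e
 (c (b (nat_lit 0xffa5805)) e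
 (c z e
 (c z e
 (c (b (nat_lit 0xff45c05)) e
 (c (nat_lit 0x7f4687f4687f3bc7f4687f46811dc7) e
 (c z e
 (c (b (nat_lit 0xff97007)) e
 (c z e
 (c (nat_lit 0x7f6c97f6c67f6c97f6c97f6c9d4a29) e
 (c (nat_lit 0x7f8457f8457f8367f83a7f8458cd69) e
 (c (nat_lit 0x7fa097fa097fa097f9e47f9dc6d3c9) e
 (c (nat_lit 0x7fd8d7fe817fe817fe817fe8158b29) e
 (c (nat_lit 0x8000080000800007fec57fec57c1a9) e e)))))))))))))))))
 (c (a (nat_lit 0x101fe800))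
 (c z e
 (c (nat_lit 0x7ef7d7ef787ef7d7ef7d7ef7d8b144) e
 (c (nat_lit 0x7ef107ef107eebe7eef47ef10d2c65) e
 (c z e
 (c z e
 (c (b (nat_lit 0xfee1a05)) e
 (c (nat_lit 0x7f2687f2687f1f17f2687f26869387) e
 (c z e
 (c z e
 (c (b (nat_lit 0xff55e07)) e
 (c (nat_lit 0x7f7317f7137f7537f7577f757fb7a8) e
 (c (nat_lit 0x7f8ce7f8ce7f8b47f8ce7f8ce46a29) e
 (c (b (nat_lit 0xff07a09)) e
 (c (b (nat_lit 0xffa4609)) e
 (c (nat_lit 0x7ff4f7ff4f7ff4f7ff4f7ff3edfa49) e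
 (c (nat_lit 0x8000080000800007fffc7ff2779109) e e))))))))))))))))
 (c (a (nat_lit 0x101ff400))
 (c (nat_lit 0x7e76e7e76a7e76a7e7697e76e94fc5) e
 (c (nat_lit 0x7e71d7e71d7e6e57e6f37e70d3d785) e
 (c (nat_lit 0x7ef3d7ef3d7ee557ee557ef3d3a625) e
 (c (b (nat_lit 0xfc54a05)) e
 (c (b (nat_lit 0xfe87e07)) e
 (c z e
 (c z e
 (c (b (nat_lit 0xfd80007)) e
 (c (nat_lit 0x7f6057f6057f5ec7f6057f60500ca8) e
 (c (b (nat_lit 0xfdda608)) e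
 (c (nat_lit 0x7eeda7eeda7eeda7eec87eeda7e3c9) e
 (c (nat_lit 0x7fc4d7fc4d7fc4d7fc2d7fc0875589) e
 (c (b (nat_lit 0xffa9a09)) e
 (c (b (nat_lit 0xffba609)) e
 (c (nat_lit 0x8000080000800007fff27ff44ac4c9) e e)))))))))))))))
 (c (nat_lit 0x80ff780ff780ff780ff651460)
 (c (b (nat_lit 0xfcf7205)) e
 (c z e
 (c z e
 (c (b (nat_lit 0xfbf2a07)) e
 (c z e
 (c (b (nat_lit 0xfc23007)) e
 (c (nat_lit 0x7f3317f30d7f3317f3317f33157788) e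
 (c (b (nat_lit 0xfd8a208)) e
 (c (b (nat_lit 0xfdf4a08)) e
 (c (nat_lit 0x80000800007fd287fd2b7fd1d7bb08) e
 (c (nat_lit 0x8000080000800007fd717fd7822048) e
 (c (nat_lit 0x800008000080000800007ff364b728) e
 (c z e
 (c (nat_lit 0x800008000080000800007ff624e029) e e))))))))))))))
 (c (a (nat_lit 0x101ffe00))
 (c (b (nat_lit 0xfaca007)) e
 (c (b (nat_lit 0x10414c07)) e
 (c (b (nat_lit 0x10846c07)) e
 (c z e
 (c (nat_lit 0x7ef017ef017eec17ef017ef01a1da8) e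
 (c (b (nat_lit 0xfce2008)) e
 (c (nat_lit 0x7eb397eb3f7eb417eb417eb417fe48) e
 (c (nat_lit 0x7ee937ee8e7ee937ee937ee93a1408) e
 (c (nat_lit 0x80000800007f3247f3277f327f4288) e
 (c (nat_lit 0x8000080000800007f2e47f2e490d68) e
 (c (nat_lit 0x800008000080000800007f43e30c88) e e)))))))))))
 (c (a (nat_lit 0x101ffa00))
 (c z e
 (c (nat_lit 0x754ec75269753a0754ec754ece21a7) e
 (c (nat_lit 0x78f8c78f8c78f8278f8c78f8cb0608) e
 (c (b (nat_lit 0xfe4d408)) e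
 (c (nat_lit 0x7f28b7f2b17f2b17f2b17f2b148ce8) e
 (c (nat_lit 0x7f0217f0097f02a7f02a7f02afd288) e
 (c (nat_lit 0x7eff87eff87efe67eff87eff8eac48) e
 (c (nat_lit 0x80000800007efe77efda7efe737648) e
 (c (nat_lit 0x8000080000800007efd77efcfb1b88) e
 (c (nat_lit 0x800008000080000800007f189c2b48) e e))))))))))
 (c (nat_lit 0x80ffd80ffc80ffc80ffc8ac30)
 (c (nat_lit 0x755ba755ba755a6755ba755ba82248) e
 (c (b (nat_lit 0xfdd6608)) e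
 (c (b (nat_lit 0xfdc9808)) e
 (c (b (nat_lit 0xfe0d408)) e
 (c (nat_lit 0x7f0597f0597f0597f0587f05973028) e
 (c (nat_lit 0x7f03c7f0357f03c7f03c7f039aa4a8) e
 (c (nat_lit 0x80000800007f01a7f01a7f01a294c8) e
 (c (nat_lit 0x8000080000800007f0067f00ac3f48) e
 (c (nat_lit 0x800008000080000800007f19cbcda8) e e)))))))))
 (c (nat_lit 0x80ffe80fff80fff80ffeb96b0) e
 (c (a (nat_lit 0x10200200)) e
 (c (nat_lit 0x80ff980ff980ff980ff88b010) e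
 (c (nat_lit 0x80ff980ff980ff980ff8b23c0) e
 (c (nat_lit 0x80ffd80ffd80ffd80ffb79130) e
 (c (a (nat_lit 0x101ff601)) e
 (c (a (nat_lit 0x101ffa01)) e
 (c (nat_lit 0x80e4180e4280e4280e417e581) e
 (c (nat_lit 0x809fd809fd809fd809fc1b961) e
 (c (nat_lit 0x80c2c80c2b80c2b80c26970a3) e
 (c (a (nat_lit 0x101a5203)) e
 (c (nat_lit 0x80ac280ac180ac180ac1e0323) e
 (c (nat_lit 0x80d4180d4080d4080d400ba73) e
 (c (nat_lit 0x80d9780d9b80d9d80d9d57614) e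
 (c (nat_lit 0x80d8b80d8a80d8b80d8bfc375) e
 (c (nat_lit 0x80d8980d8980d8980d88390e5) e
 (c (a (nat_lit 0xfeb3405)) e
 (c (nat_lit 0x7f3707f3717f3717f37134af5) e
 (c (nat_lit 0x81069810698106a8106abf217) e
 (c (a (nat_lit 0xfff5407)) e
 (c (a (nat_lit 0x10016407)) e
 (c (nat_lit 0x812718126f8127981264a2b17) e e)))))))))))))))))))))))))))))))) Tr.c Tr.e (nat_lit 0) C.t4 C.t5
noncomputable def tt182 : Tr := beta% (fun (c : Nat → Tr → Tr → Tr) (e : Tr) (z : Nat) (a b : Nat → Nat) =>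
 (c (a (nat_lit 0xfed2c00))
 (c z e
 (c z e
 (c z e
 (c (nat_lit 0x80a1680a16809d480a1680a167f19a1fe87) e
 (c (nat_lit 0x811a8811a8811a88119a811a8811a8e1047) e
 (c z e
 (c (nat_lit 0x8000080000800007ff297ff2980000fa507) e
 (c (b (nat_lit 0x1071560b)) e
 (c (nat_lit 0x8178181781816be817818178181781b5bcb) e
 (c (b (nat_lit 0x1066c40b)) e
 (c z e
 (c z e
 (c (nat_lit 0x8000080000800008028780287802877c78c) e e)))))))))))))
 (c (a (nat_lit 0xfe01200))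
 (c z e
 (c z e
 (c z e
 (c z e
 (c z e
 (c z e
 (c (b (nat_lit 0x103f1c0b)) e
 (c (b (nat_lit 0x10340e0b)) e
 (c z e
 (c (b (nat_lit 0x1041f80c)) e
 (c (b (nat_lit 0x1034b214)) e
 (c (nat_lit 0x800008000080000813458134581345f1154) e e))))))))))))
 (c (a (nat_lit 0xfe00e00)) e
 (c (a (nat_lit 0xfe01201))
 (c (nat_lit 0x800007fe8f7fe8f80000800008000038547) e
 (c (nat_lit 0x80c8f80c8f80c8f80c8f80c8f80c60be78b) e
 (c z e
 (c z e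
 (c z e
 (c (b (nat_lit 0x1034240c)) e e))))))
 (c (a (nat_lit 0xfdff001))
 (c (nat_lit 0x806cb806cb80617806b1806cb806cb2cd8b) e
 (c (b (nat_lit 0x10221e0b)) e
 (c z e
 (c (b (nat_lit 0x102e940c)) e e))))
 (c (nat_lit 0x7f0197f0197f0197f0117f01384d21)
 (c z e
 (c (b (nat_lit 0x10397c0c)) e e))
 (c (nat_lit 0x7f01e7f01e7f01e7f01e7f00a4f521) e
 (c (a (nat_lit 0xf8e4203)) e
 (c (a (nat_lit 0xf9b5603)) e
 (c z e
 (c z e
 (c (nat_lit 0x7f2e37f2de7f2e07f2e37f2e3db5c4) e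
 (c (a (nat_lit 0xfe03205)) e
 (c (nat_lit 0x7ef317ef317ef317eef47ef317bc85) e
 (c (nat_lit 0x7ed8a7ed8a7ed8a7ed8a7ed5999fa5) e
 (c z e
 (c (a (nat_lit 0xfefb807)) e
 (c (a (nat_lit 0xfede207)) e
 (c z e
 (c z e
 (c (a (nat_lit 0xff8520b)) e
 (c (nat_lit 0x7f9527f9527f9347f9527f9528fc8b) e
 (c (nat_lit 0x800008000080000800007ffbb435cb) e
 (c (nat_lit 0x800007ff687ff687fdf87fdf81aa2b) e
 (c (a (nat_lit 0xff78a0c)) e
 (c (nat_lit 0x8000080000800007fc3a7fc3a6f3cc) e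
 (c (nat_lit 0x800008000080000800007fc063e24c) e e)))))))))))))))))))))))))))) Tr.c Tr.e (nat_lit 0) C.t5 C.t6
noncomputable def tt183 : Tr := beta% (fun (c : Nat → Tr → Tr → Tr) (e : Tr) (z : Nat) (a b d : Nat → Nat) =>
 (c (a (nat_lit 0xfe00400))
 (c (b (nat_lit 0x103bf203))
 (c z e
 (c z e
 (c z e
 (c (d (nat_lit 0xffd7a43)) e e))))
 (c (b (nat_lit 0x10f09804)) e
 (c z e
 (c z e
 (c z e
 (c z e
 (c z e
 (c z e
 (c (b (nat_lit 0x10337607)) e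
 (c z e
 (c z e
 (c z e
 (c z e
 (c z e
 (c (nat_lit 0x80000800008000080b2080b2080b209cf8c) e e)))))))))))))))
 (c (a (nat_lit 0xfe00c00))
 (c (nat_lit 0x81e8a81e8a81e1f81e1e81e8a81e8ab0785) e
 (c z e
 (c z e
 (c z e
 (c z e
 (c z e
 (c z e
 (c (b (nat_lit 0x100efc07)) e
 (c (b (nat_lit 0x1073560b)) e
 (c (b (nat_lit 0x103ea60b)) e
 (c (b (nat_lit 0x102f820b)) e
 (c (b (nat_lit 0x1026040c)) e
 (c (b (nat_lit 0x102e8014)) e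
 (c (nat_lit 0x800008000080000816de81707817077e394) e e))))))))))))))
 (c (a (nat_lit 0xfe00e00))
 (c z e
 (c z e
 (c z e
 (c z e
 (c z e
 (c z e
 (c z e
 (c z e
 (c z e
 (c z e
 (c z e
 (c (nat_lit 0x80000800007ff918000080000800005aa14) e
 (c (nat_lit 0x8000080000800007ff7d7ffea80000b9e94) e e)))))))))))))
 (c (a (nat_lit 0xfdfea00))
 (c z e
 (c z e
 (c z e
 (c z e
 (c z e
 (c z e
 (c z e
 (c z e
 (c (b (nat_lit 0xfff8a13)) e e)))))))))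
 (c (a (nat_lit 0xfe00800))
 (c z e
 (c (nat_lit 0x80000800007fe5080000800007fd72e6787) e e))
 (c (a (nat_lit 0xfe00e01))
 (c (nat_lit 0x817688174c8174c817688176881768922cb) e e)
 (c (nat_lit 0x7f0137f0137f0127f0127f012986e1)
 (c (b (nat_lit 0x103c040b)) e
 (c (b (nat_lit 0x104e020c)) e e))
 (c (a (nat_lit 0xfdff201)) e
 (c (a (nat_lit 0xfd7e001)) e
 (c (a (nat_lit 0xfc45003)) e
 (c (a (nat_lit 0xfb91003)) e
 (c z e
 (c (a (nat_lit 0x101c5203)) e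
 (c (a (nat_lit 0xfeeca04)) e
 (c (nat_lit 0x7f1a97f1a97f19d7f1a47f1a91f265) e
 (c (nat_lit 0x8000080000800007fff4800002e9c4) e
 (c (nat_lit 0x7f3197f3197f3197f3197f21f14945) e
 (c (a (nat_lit 0xff40a05)) e
 (c (a (nat_lit 0xfe4f407)) e
 (c (a (nat_lit 0xfe67207)) e
 (c z e
 (c (a (nat_lit 0xff8ee07)) e
 (c (a (nat_lit 0xff8f60b)) e
 (c (nat_lit 0x800007fffe7fffe7fffe8000054a8b) e
 (c (nat_lit 0x7fa837fa837fa667fa667fa66935cb) e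
 (c (nat_lit 0x7fc247fc5d7fc5d7fbdf7fc2caf68c) e
 (c (nat_lit 0x8000080000800007fcef7fcef8446c) e
 (c (nat_lit 0x800008000080000800007fced1d14c) e e))))))))))))))))))))))))))))) Tr.c Tr.e (nat_lit 0) C.t5 C.t6 C.t7
noncomputable def tt184 : Tr := beta% (fun (c : Nat → Tr → Tr → Tr) (e : Tr) (z : Nat) (a b : Nat → Nat) =>
 (c (a (nat_lit 0xfdffe00))
 (c z e
 (c (nat_lit 0x7abc57abc57abbc7abbc7abc57abc546043) e
 (c (b (nat_lit 0xfa7bc03)) e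
 (c z e
 (c (nat_lit 0x80000800007ffe9800008000080000f6b04) e
 (c (nat_lit 0x8123a8123a8123a812298123a8123ac6945) e
 (c z e
 (c z e
 (c z e
 (c z e
 (c z e
 (c z e
 (c z e
 (c z e
 (c z e
 (c z e
 (c (nat_lit 0x7dd087dd087dcff7dd087dd087dd082ab58) e
 (c (b (nat_lit 0x101e4218)) e
 (c z e
 (c z e
 (c (nat_lit 0x80000800008000080000800007fe62e074d) e e)))))))))))))))))))))
 (c (a (nat_lit 0xfe00200))
 (c (b (nat_lit 0xf7b3c03)) e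
 (c z e
 (c z e
 (c z e
 (c (nat_lit 0x7a1ad7a1ad7a1ad7a1917a1ad7a1ad0b385) e
 (c z e
 (c (b (nat_lit 0xfe37805)) e
 (c z e
 (c z e
 (c z e
 (c z e
 (c z e
 (c z e
 (c z e
 (c (b (nat_lit 0x101a0614)) e
 (c (nat_lit 0x7f68a7f68a7f68a7f6807f68a7f68a814d8) e
 (c (b (nat_lit 0x101e3618)) e e)))))))))))))))))
 (c (a (nat_lit 0xfe01000))
 (c z e
 (c z e
 (c (b (nat_lit 0xf902405)) e e)))
 (c (a (nat_lit 0xfe01600)) e
 (c (a (nat_lit 0xfdffe00)) e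
 (c (a (nat_lit 0xfe01400)) e
 (c (a (nat_lit 0xfe00e00)) e
 (c (a (nat_lit 0xfe01e01))
 (c z e
 (c (b (nat_lit 0x10550e0c)) e e))
 (c (a (nat_lit 0xfe01601))
 (c (nat_lit 0x7f5427f5427f5427f5427f5427f50042691) e e)
 (c (nat_lit 0x7f00b7f00b7f00b7f00a7f00b51a01) e
 (c (a (nat_lit 0xfe29601)) e
 (c z e
 (c (a (nat_lit 0xfe6d403)) e
 (c z e
 (c (a (nat_lit 0x10473c03)) e
 (c (nat_lit 0x7f56e7f55b7f54c7f56e7f56e2f7e4) e
 (c (nat_lit 0x80bb080bb080b7680bb080bb0fd985) e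
 (c z e
 (c (a (nat_lit 0xfd3fa05)) e
 (c (a (nat_lit 0xff47205)) e
 (c (a (nat_lit 0xfeefc07)) e
 (c (a (nat_lit 0xff61e07)) e
 (c z e
 (c z e
 (c z e
 (c z e
 (c (a (nat_lit 0xffebe0c)) e
 (c (nat_lit 0x8000080000800007ff827ff8a3318c) e
 (c (nat_lit 0x8000080000800007ffbc7ff7a9ef6d) e
 (c z e
 (c z e
 (c (nat_lit 0x800008000080000800007fecb2946d) e e))))))))))))))))))))))))))))))))) Tr.c Tr.e (nat_lit 0) C.t5 C.t6
noncomputable def tt185 : Tr := beta% (fun (c : Nat → Tr → Tr → Tr) (e : Tr) (z : Nat) (a b d : Nat → Nat) =>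
 (c (nat_lit 0x7f0127f0107f0107f0107f0108dfe0)
 (c (b (nat_lit 0x101b4e01))
 (c (d (nat_lit 0xf4db805)) e
 (c (nat_lit 0x79d8979d8979d8979c8379d8979d8979d89af905) e
 (c z e
 (c z e
 (c (d (nat_lit 0x10a03007)) e
 (c z e
 (c z e
 (c z e
 (c z e
 (c z e
 (c (d (nat_lit 0x10305e0d)) e
 (c (d (nat_lit 0x107a360d)) e e))))))))))))
 (c (b (nat_lit 0x101fca01)) e
 (c (b (nat_lit 0x101fd201)) e
 (c z e
 (c (b (nat_lit 0xfe78803))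
 (c z e
 (c (d (nat_lit 0xfff900d)) e e))
 (c (b (nat_lit 0x100b7003)) e
 (c z e
 (c z e
 (c (b (nat_lit 0x1009e605)) e
 (c (nat_lit 0x806538065380653806208065380653a73c5) e
 (c z e
 (c (b (nat_lit 0xfe7a205)) e
 (c z e
 (c (b (nat_lit 0x10199a07)) e
 (c z e
 (c z e
 (c z e
 (c (nat_lit 0x817c4817c4817bb817c4817c4817c45504c) e
 (c (b (nat_lit 0x102f2c0d)) e
 (c (b (nat_lit 0x1025400d)) e
 (c (nat_lit 0x813278132781327812f881327813272cb4d) e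
 (c (nat_lit 0x80ac580ac580ac580ac5809e080ac54364d) e e))))))))))))))))))))))
 (c (a (nat_lit 0xfe00e00))
 (c z
 (c z e
 (c z e
 (c z e
 (c z e
 (c z e
 (c (d (nat_lit 0xfffea0d)) e e))))))
 (c z e
 (c z e
 (c z e
 (c z e
 (c z e
 (c z e
 (c z e
 (c z e
 (c z e
 (c z e
 (c (b (nat_lit 0xfc45407)) e
 (c z e
 (c z e
 (c z e
 (c (b (nat_lit 0x100ffa0c)) e
 (c (b (nat_lit 0x1021560d)) e
 (c (b (nat_lit 0x101d980d)) e
 (c (b (nat_lit 0x10292e0d)) e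
 (c (b (nat_lit 0x1008780d)) e
 (c (nat_lit 0x80000800008000080000800007ffd5fbe0d) e e)))))))))))))))))))))
 (c (a (nat_lit 0xfe00800))
 (c (nat_lit 0x7cc227cc187cc187cc227cc227cc222bc03) e
 (c z e
 (c z e
 (c z e
 (c (nat_lit 0x80000800007fff380000800008000089dc4) e
 (c z e
 (c z e
 (c z e
 (c z e
 (c z e
 (c z e
 (c z e
 (c z e
 (c z e
 (c (b (nat_lit 0x1026ba0d)) e
 (c (nat_lit 0x81d8d81d8d81d5481d4681d8d81d8dbce4d) e
 (c (b (nat_lit 0x1038160d)) e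
 (c z e
 (c (nat_lit 0x80000800008000080000800007fde93634d) e e)))))))))))))))))))
 (c (a (nat_lit 0xfe01600))
 (c z e
 (c (b (nat_lit 0x102a1404)) e
 (c z e
 (c z e
 (c z e
 (c z e
 (c (b (nat_lit 0x102fd407)) e
 (c z e
 (c z e
 (c z e
 (c (b (nat_lit 0x1030ca0b)) e
 (c z e
 (c (b (nat_lit 0xffff40d)) e e)))))))))))))
 (c (a (nat_lit 0xfe02600))
 (c (nat_lit 0x80000800007ffd07ffb28000080000c3e04) e
 (c z e
 (c z e
 (c z e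
 (c z e
 (c (b (nat_lit 0x104f1e07)) e
 (c (b (nat_lit 0x10261007)) e
 (c z e
 (c z e
 (c z e
 (c (nat_lit 0x81ea381ea081ea081ea381ea381ea311f8d) e
 (c (b (nat_lit 0x1016c00d)) e
 (c (b (nat_lit 0x1047ca0d)) e e)))))))))))))
 (c (a (nat_lit 0xfe00800))
 (c z e
 (c z e
 (c z e
 (c z e
 (c z e
 (c z e
 (c z e
 (c z e
 (c z e
 (c z e
 (c (b (nat_lit 0xfff800d)) e e)))))))))))
 (c (a (nat_lit 0xfe00a00))
 (c (b (nat_lit 0xfe6dc07)) e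
 (c (nat_lit 0x7f7797f7797f6b87f7797f7797f7795d947) e
 (c z e
 (c z e
 (c z e
 (c z e
 (c z e
 (c z e
 (c z e
 (c (b (nat_lit 0xfffee0d)) e e))))))))))
 (c (a (nat_lit 0xfe01600))
 (c (b (nat_lit 0xfd57807)) e
 (c z e
 (c z e
 (c z e
 (c z e
 (c z e
 (c (b (nat_lit 0x1015240d)) e e)))))))
 (c (a (nat_lit 0xfe03a00))
 (c z e
 (c (nat_lit 0x80c2780c2780c2780c2780c27805aa6a10c) e
 (c (nat_lit 0x80000800007fd94800008000080000b61cd) e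
 (c z e
 (c z e
 (c (b (nat_lit 0x104f500d)) e e))))))
 (c (nat_lit 0x7f0157f0137f0137f0137f0136e301)
 (c (nat_lit 0x80bc380bb180b8380bc380bc380bc36bf4d) e e)
 (c (nat_lit 0x7f0107f0107f00e7f00e7f00f47961)
 (c (b (nat_lit 0x1025640d)) e
 (c (b (nat_lit 0x10233a0d)) e e))
 (c (a (nat_lit 0xfdfe001)) e
 (c (a (nat_lit 0xfe00801)) e
 (c (nat_lit 0x7d3a47d36d7d3a47d3a47d3a4bf5c3) e
 (c (a (nat_lit 0x10098003)) e
 (c z e
 (c (a (nat_lit 0x10048a03)) e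
 (c (nat_lit 0x7f1797f16f7f1797f1797f179ebdc4) e
 (c (a (nat_lit 0xfe29e05)) e
 (c (a (nat_lit 0xfe96605)) e
 (c (a (nat_lit 0xfe78805)) e
 (c (a (nat_lit 0xff52605)) e
 (c (a (nat_lit 0xfe5f407)) e
 (c (nat_lit 0x7f2817f2817f2667f2817f2817db87) e
 (c z e
 (c z e
 (c z e
 (c (nat_lit 0x7f2947f2a67f2a77f2a77f2a7eadcc) e
 (c (a (nat_lit 0xfe5660d)) e
 (c (a (nat_lit 0xfe54e0d)) e
 (c (a (nat_lit 0xff2700d)) e
 (c z e
 (c (nat_lit 0x800008000080000800007de9f8abed) e e)))))))))))))))))))))))))))))))))) Tr.c Tr.e (nat_lit 0) C.t5 C.t6 C.t7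
noncomputable def tt186 : Tr := beta% (fun (c : Nat → Tr → Tr → Tr) (e : Tr) (z : Nat) (a b d : Nat → Nat) =>
 (c (a (nat_lit 0xfe01200))
 (c (nat_lit 0x8100a8100a8100a8100981009810098df41) e
 (c (b (nat_lit 0x101ffc01)) e
 (c z e
 (c z e
 (c (nat_lit 0x7e7637e6a77e6a77e7637e7637e76338dc3) e
 (c z e
 (c z e
 (c z e
 (c z e
 (c (b (nat_lit 0xfbbc805)) e
 (c z e
 (c (b (nat_lit 0x10681c07)) e
 (c z e
 (c (b (nat_lit 0x10175807)) e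
 (c z e
 (c z e
 (c z e
 (c (b (nat_lit 0x10194c0d)) e
 (c (b (nat_lit 0x10460a0d)) e
 (c (nat_lit 0x8000080000800007ffed800008000005d8d) e
 (c z e
 (c (nat_lit 0x800008000080000800007fea47fea48a655) e
 (c (nat_lit 0x800008000080000800007f7aa7f7aae1bd5) e e)))))))))))))))))))))))
 (c (a (nat_lit 0xfe00000))
 (c (b (nat_lit 0xfad3e03))
 (c z e
 (c z e
 (c z e
 (c z e
 (c z e
 (c (d (nat_lit 0xffe240d)) e e))))))
 (c (nat_lit 0x7d3c17d38c7d3c17d3c17d3c17d3c1cdf03)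
 (c (d (nat_lit 0x1052360d)) e
 (c (d (nat_lit 0x1062240d)) e
 (c (d (nat_lit 0x101f720d)) e e)))
 (c z e
 (c z e
 (c (b (nat_lit 0x102a1604)) e
 (c (b (nat_lit 0x10379005)) e
 (c (b (nat_lit 0x1005b605)) e
 (c (b (nat_lit 0xfb26205)) e
 (c z e
 (c (b (nat_lit 0x10112007)) e
 (c (b (nat_lit 0x106cbc07)) e
 (c z e
 (c z e
 (c z e
 (c (b (nat_lit 0x1007780d)) e
 (c z e
 (c (b (nat_lit 0x101bfa0d)) e
 (c (b (nat_lit 0x1019e00d)) e e))))))))))))))))))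
 (c (a (nat_lit 0xfe01600))
 (c z e
 (c (b (nat_lit 0xfed5c03)) e
 (c z e
 (c (nat_lit 0x81edf81edf81e8f81e8781edf81edf689c5) e
 (c (nat_lit 0x7f1ed7f1ed7f1ed7f1d57f1cc7f1ed125c5) e
 (c z e
 (c (b (nat_lit 0xfaac205)) e
 (c (b (nat_lit 0x10553607)) e
 (c (nat_lit 0x82e1482e1482dca82e1482e1482e1438847) e
 (c (b (nat_lit 0x10372607)) e
 (c z e
 (c (b (nat_lit 0x101be00c)) e
 (c (b (nat_lit 0xfff460d)) e
 (c z e
 (c (b (nat_lit 0x10194c0d)) e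
 (c z e
 (c z e
 (c z e
 (c z e
 (c z e
 (c (nat_lit 0x80000800008000080000800007fff46adcf) e e)))))))))))))))))))))
 (c (a (nat_lit 0xfe01e00))
 (c (nat_lit 0x7fa0e7f9f37f9a07fa0e7fa0e7fa0ea1cc4) e
 (c z e
 (c z e
 (c z e
 (c z e
 (c (b (nat_lit 0x10bba807)) e
 (c (b (nat_lit 0x1049f607)) e
 (c z e
 (c z e
 (c z e
 (c (b (nat_lit 0x10293a0d)) e
 (c (b (nat_lit 0xfeea00d)) e
 (c (b (nat_lit 0xfffa00d)) e
 (c z e
 (c (b (nat_lit 0xffffa14)) e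
 (c z e
 (c z e
 (c z e
 (c (nat_lit 0x80000800008000080000800007ff490d60f) e e)))))))))))))))))))
 (c (a (nat_lit 0xfdffc00))
 (c z e
 (c z e
 (c (b (nat_lit 0xfef2a05)) e
 (c (b (nat_lit 0xfe35e07)) e
 (c z e
 (c z e
 (c z e
 (c z e
 (c (b (nat_lit 0xfe6cc0d)) e
 (c z e
 (c z e
 (c (nat_lit 0x7ff7a8000080000800008000080000e418d) e e))))))))))))
 (c (a (nat_lit 0xfe01c00))
 (c (nat_lit 0x7ff7f7ffef800008000080000800008ae05) e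
 (c (nat_lit 0x800007ff4880000800008000080000bba47) e
 (c (b (nat_lit 0x1018bc07)) e
 (c z e
 (c (b (nat_lit 0xfeac207)) e
 (c (nat_lit 0x8055280552805528052c80552805525ed0c) e
 (c z e
 (c (b (nat_lit 0x103f5a0d)) e e))))))))
 (c (a (nat_lit 0xfe00800))
 (c (nat_lit 0x81cca81cca81c1481cca81cca81cca226c7) e
 (c z e
 (c (b (nat_lit 0xfcaac07)) e
 (c (nat_lit 0x809898098980989808f9809898098980bcc) e
 (c (nat_lit 0x800008000080000800007fde1800003150c) e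
 (c z e
 (c (b (nat_lit 0x101cb40d)) e e)))))))
 (c (a (nat_lit 0xfe04400))
 (c z e
 (c z e
 (c (nat_lit 0x804ac804ac804ac804ac804ac8035654dcd) e
 (c z e
 (c (b (nat_lit 0xfdd9a0d)) e
 (c (nat_lit 0x82998829cb829cb829cb829cb829cbfbd0d) e e))))))
 (c (a (nat_lit 0xfe02000))
 (c (nat_lit 0x80b7380b7380b7380b73809d780a61f13cd) e
 (c z e
 (c (nat_lit 0x816468164681627816278164681646f638d) e
 (c z e
 (c (b (nat_lit 0x104c0e11)) e e)))))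
 (c (nat_lit 0x7f01d7f0197f0197f01a7f01c166e1)
 (c (nat_lit 0x8104d8104d8104d80df48104d8104d9e58d) e
 (c (nat_lit 0x80000800007fd0b800007fb5c80000d4b8d) e e))
 (c (a (nat_lit 0xfdffa01)) e
 (c (nat_lit 0x7f0117f0117f0117f00d7f00db7321) e
 (c (a (nat_lit 0xfc0ac01)) e
 (c (nat_lit 0x7f0ec7ef537f0ec7f0ec7f0ece9203) e
 (c (a (nat_lit 0xfe10203)) e
 (c (a (nat_lit 0x10087203)) e
 (c (a (nat_lit 0x1028ec03)) e
 (c (a (nat_lit 0xfda8004)) e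
 (c (a (nat_lit 0xfdb4a05)) e
 (c (a (nat_lit 0xff16c05)) e
 (c (a (nat_lit 0xfebc405)) e
 (c (a (nat_lit 0xfed4e05)) e
 (c (nat_lit 0x7f3a87f3847f3a87f3a87f3a836de7) e
 (c (nat_lit 0x7f5ff7f5ff7f5e67f5ff7f5fff4f27) e
 (c (nat_lit 0x80000800007fff17fff18000011ba7) e
 (c (a (nat_lit 0xffc3e07)) e
 (c (nat_lit 0x7f6fa7f6f57f6f37f6fa7f6fa81e0c) e
 (c (nat_lit 0x7f7337f7337f7227f72a7f7331e7ed) e
 (c (nat_lit 0x7f7407f7407f7407f72d7f73c5f8ad) e e)))))))))))))))))))))))))))))) Tr.c Tr.e (nat_lit 0) C.t5 C.t6 C.t7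
noncomputable def tt187 : Tr := beta% (fun (c : Nat → Tr → Tr → Tr) (e : Tr) (z : Nat) (a b : Nat → Nat) =>
 (c (a (nat_lit 0x101f5e01))
 (c (b (nat_lit 0xf895205)) e
 (c (b (nat_lit 0xf6a3a05)) e
 (c z e
 (c (b (nat_lit 0xfb39207)) e
 (c z e
 (c z e
 (c z e
 (c (b (nat_lit 0xf1ce20c)) e
 (c z e
 (c (nat_lit 0x7fef27fef27fdbc7fef27fef27fef27fef2aa70d) e
 (c z e
 (c z e
 (c (b (nat_lit 0xffd7e15)) e e)))))))))))))
 (c (nat_lit 0x80ff080ff080fef80fef80fef80fef6dac1)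
 (c z e
 (c z e
 (c z e
 (c z e
 (c z e
 (c z e
 (c z e
 (c z e
 (c (nat_lit 0x80000800007ffdf8000080000800008000006d8d) e e)))))))))
 (c (a (nat_lit 0x101fde01)) e
 (c (a (nat_lit 0x101fca01))
 (c z e
 (c z e
 (c z e
 (c z e
 (c z e
 (c z e
 (c (nat_lit 0x800007f824800008000080000800008000057995) e e)))))))
 (c (a (nat_lit 0x101dce03)) e
 (c z e
 (c (a (nat_lit 0x10088803)) e
 (c z e
 (c (a (nat_lit 0x10138604)) e
 (c (a (nat_lit 0x10183005)) e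
 (c (a (nat_lit 0x10145e05)) e
 (c (a (nat_lit 0xfbcb005)) e
 (c z e
 (c (nat_lit 0x7ff2f7ff2f800008000080000800000ca07) e
 (c (a (nat_lit 0xfe16c07)) e
 (c z e
 (c (a (nat_lit 0xfef0407)) e
 (c z e
 (c (a (nat_lit 0x1017ec0d)) e
 (c (nat_lit 0x80cc480cc480cc480c7a80c8f80cc41710d) e
 (c (a (nat_lit 0x100c120d)) e e)))))))))))))))))))))) Tr.c Tr.e (nat_lit 0) C.t6 C.t7
noncomputable def tt188 : Tr := beta% (fun (c : Nat → Tr → Tr → Tr) (e : Tr) (z : Nat) (a b : Nat → Nat) =>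
 (c (a (nat_lit 0x101f9400))
 (c (b (nat_lit 0xf9aa403)) e
 (c z e
 (c (nat_lit 0x7c0597c0597c0597c0557c0597c0597c0591a085) e
 (c (nat_lit 0x800008000080000800007fffc8000080000bfa84) e
 (c (nat_lit 0x7bb0d7bb0d7bb0d7bb0d7b9427b91c7bb0dfc985) e
 (c (b (nat_lit 0xf2bd405)) e
 (c (b (nat_lit 0xfe60607)) e
 (c z e
 (c z e
 (c z e
 (c z e
 (c (b (nat_lit 0xfafe40d)) e
 (c (b (nat_lit 0xf6c140d)) e
 (c (b (nat_lit 0xe784e0d)) e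
 (c (b (nat_lit 0x10a5940d)) e e)))))))))))))))
 (c (a (nat_lit 0x101f4800))
 (c (b (nat_lit 0xfe50805)) e
 (c (nat_lit 0x7d8e77d8e77d8e77d8e77d8d87d8e77d8e7b7a85) e
 (c z e
 (c z e
 (c z e
 (c (b (nat_lit 0xfff8807)) e
 (c z e
 (c z e
 (c z e
 (c z e
 (c (b (nat_lit 0xfdd300d)) e
 (c (nat_lit 0x7fed87fdc27ffc6800008000080000800008b88d) e e))))))))))))
 (c (a (nat_lit 0x101ff001)) e
 (c (a (nat_lit 0x101e1201))
 (c (b (nat_lit 0xf74ac07)) e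
 (c (nat_lit 0x87f3687f3687e1f87f3687f3687f3687f36bf507) e
 (c z e
 (c z e
 (c (b (nat_lit 0xfd0940c)) e
 (c (nat_lit 0x7bdfd7b9397bdfd7bdfd7bdfd7bdfd7bdfd67e8d) e
 (c (nat_lit 0x7f7467f4ac7f7467f7467f7467f7467f746af18d) e
 (c (b (nat_lit 0xfed520d)) e e))))))))
 (c z
 (c z e
 (c z e
 (c z e
 (c z e
 (c (b (nat_lit 0x10287c0d)) e
 (c z e
 (c (b (nat_lit 0x10d16c0d)) e e)))))))
 (c (a (nat_lit 0x101fbc01))
 (c z e
 (c z e
 (c (b (nat_lit 0xf8b080d)) e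
 (c (nat_lit 0x800007f82c80000800007fe9d80000800009030d) e e))))
 (c z
 (c (b (nat_lit 0xeb6700d)) e
 (c (b (nat_lit 0xffff80d)) e e))
 (c z e
 (c (a (nat_lit 0x100ffa03)) e
 (c z e
 (c z e
 (c (nat_lit 0x80975809558092480922809758097505ac5) e
 (c z e
 (c z e
 (c (a (nat_lit 0xf821405)) e
 (c z e
 (c z e
 (c (a (nat_lit 0xff13207)) e
 (c (a (nat_lit 0xff17c07)) e
 (c (a (nat_lit 0x10191c0c)) e
 (c (a (nat_lit 0x101ad80d)) e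
 (c z e
 (c (a (nat_lit 0x100ede0d)) e
 (c (a (nat_lit 0x10110e0d)) e e))))))))))))))))))))))))) Tr.c Tr.e (nat_lit 0) C.t6 C.t7
noncomputable def tt189 : Tr := beta% (fun (c : Nat → Tr → Tr → Tr) (e : Tr) (z : Nat) (a b d : Nat → Nat) =>
 (c (a (nat_lit 0x10200000))
 (c (b (nat_lit 0xfdff401))
 (c z e
 (c (nat_lit 0x80e3c80e3c80e3c80d0280d0280e3c01f09) e
 (c (d (nat_lit 0x10131821)) e
 (c (d (nat_lit 0x10237421)) e e))))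
 (c (b (nat_lit 0xfd75401)) e
 (c (b (nat_lit 0xfedca03)) e
 (c (b (nat_lit 0xfd16e03)) e
 (c z e
 (c (b (nat_lit 0x1090be03)) e
 (c (b (nat_lit 0x10324c05)) e
 (c (b (nat_lit 0xfcba405)) e
 (c (b (nat_lit 0xfef5605)) e
 (c (b (nat_lit 0xfe51c05)) e
 (c (b (nat_lit 0xfdb6c07)) e
 (c (b (nat_lit 0xff4be07)) e
 (c z e
 (c (b (nat_lit 0x10082807)) e
 (c (b (nat_lit 0xff02009)) e
 (c (nat_lit 0x7f8267f8267f8267f8237f826c0729) e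
 (c (nat_lit 0x7fa127fa127fa127f9fd7f9e74ea89) e
 (c (b (nat_lit 0xffec409)) e e))))))))))))))))))
 (c (nat_lit 0x80ff880ff980ff980ff9ec890)
 (c (b (nat_lit 0xfd43203)) e
 (c (b (nat_lit 0xfdab603)) e
 (c z e
 (c (nat_lit 0x817568175681834818348183474f03) e
 (c (nat_lit 0x7fc2a7fc2a7fc377fc377fc3755165) e
 (c z e
 (c (b (nat_lit 0xffb8605)) e
 (c (nat_lit 0x7f6b57f6dc7f6e47f6e47f6e48ece5) e
 (c (nat_lit 0x7f09a7f0617f0927f09a7f09aa5ea7) e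
 (c (b (nat_lit 0x1000d007)) e
 (c (b (nat_lit 0xffafa07)) e
 (c (nat_lit 0x7f2c77f2b37f2e27f2e27f2e2bf4c7) e
 (c (b (nat_lit 0xff0c008)) e
 (c (b (nat_lit 0xff09209)) e
 (c (b (nat_lit 0xff04c09)) e
 (c (nat_lit 0x7fd577fd577fd577fcfc7fcfc664e9) e
 (c z e
 (c z e
 (c z e
 (c z e
 (c (nat_lit 0x800008000080000800007feec114cb) e e)))))))))))))))))))))
 (c (a (nat_lit 0x101ff200))
 (c (b (nat_lit 0xfddc603)) e
 (c z e
 (c (b (nat_lit 0x10437c05)) e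
 (c (nat_lit 0x7ed237eb3a7eb3a7ed237ed23c0205) e
 (c z e
 (c (b (nat_lit 0xfd72e05)) e
 (c (nat_lit 0x7ef547ef197ef2c7ef547ef5490807) e
 (c (nat_lit 0x7fcbd7fcbd7fc797fc927fcbdea467) e
 (c z e
 (c (b (nat_lit 0xff72007)) e
 (c (nat_lit 0x7f8567f8707f8707f8707f87072fc8) e
 (c (b (nat_lit 0xff0e208)) e
 (c (nat_lit 0x7f84c7f8237f84c7f84c7f84c22ba9) e
 (c (nat_lit 0x7fc257fc257fbd47fc0b7fc07381a9) e
 (c (nat_lit 0x7fcef7fcef7fcda7fcda7fcefa4429) e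
 (c (b (nat_lit 0xfff4e09)) e e))))))))))))))))
 (c (a (nat_lit 0x101ff200))
 (c (b (nat_lit 0xfe2bc05)) e
 (c (b (nat_lit 0xfcb8c05)) e
 (c (b (nat_lit 0xffa9c05)) e
 (c z e
 (c (b (nat_lit 0xfd8ac07)) e
 (c (b (nat_lit 0x100db607)) e
 (c z e
 (c (b (nat_lit 0xff39e07)) e
 (c (b (nat_lit 0xff03a08)) e
 (c (b (nat_lit 0xfc83208)) e
 (c (nat_lit 0x7e3d07e3fd7e3fd7e3d87e3fd98548) e
 (c (nat_lit 0x7fc3a7fbdb7fc2f7fc3a7fc176a8e9) e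
 (c (nat_lit 0x7fbfe7fbfe7fbd87fbfe7fbfe24749) e
 (c (nat_lit 0x7fd177fd177fca07fca07fcc521b29) e
 (c (b (nat_lit 0xffcdc09)) e e)))))))))))))))
 (c (a (nat_lit 0x101ff000))
 (c (nat_lit 0x7e6297e6297e6b67e6b67e6b6a4c25) e
 (c (b (nat_lit 0xfd42605)) e
 (c z e
 (c (nat_lit 0x7e24a7e24a7e1b37e24a7e24acfc87) e
 (c z e
 (c (nat_lit 0x7eb5a7eb387eb817eb817eb81075e7) e
 (c (nat_lit 0x7f4197f4137f4117f4197f419ae168) e
 (c (b (nat_lit 0xfbf1a08)) e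
 (c (nat_lit 0x7e2dc7e2dd7e2dd7e2dd7e2ddf9788) e
 (c (nat_lit 0x7fd387fd2e7fd367fd337fd38e2768) e
 (c (nat_lit 0x80000800007fd617fd667fd66d7e68) e
 (c (nat_lit 0x8000080000800007fd5f7fd6619288) e
 (c (nat_lit 0x800008000080000800007fef990d88) e e)))))))))))))
 (c (a (nat_lit 0x101fe400))
 (c (b (nat_lit 0xfb48407)) e
 (c z e
 (c z e
 (c (b (nat_lit 0xfc53807)) e
 (c (nat_lit 0x7dc8e7dc8e7dc7b7dc8e7dc8e9e848) e
 (c (b (nat_lit 0xfce8e08)) e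
 (c (nat_lit 0x7eb147eb2b7eb2b7eb2b7eb2bde4c8) e
 (c (nat_lit 0x7ee2f7ee6e7ee7f7ee7f7ee7fbc328) e
 (c (nat_lit 0x7f32d7f2e97f32b7f32d7f32d34088) e
 (c (nat_lit 0x80000800007f2827f29f7f29f6be48) e
 (c (nat_lit 0x8000080000800007f24e7f258bf2c8) e
 (c (nat_lit 0x800008000080000800007f3d7d7548) e e))))))))))))
 (c (a (nat_lit 0x10200000))
 (c z e
 (c (nat_lit 0x7e7a57e7897e7a57e7a57e7a51ee87) e
 (c (b (nat_lit 0xf18b008)) e
 (c (b (nat_lit 0xfdb9008)) e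
 (c (b (nat_lit 0xfdaf608)) e
 (c (b (nat_lit 0xfe01608)) e
 (c (nat_lit 0x7f0067f0067f0017f0017f006f42a8) e
 (c (nat_lit 0x7f0207f0117f0207f0077f004cc5a8) e
 (c (nat_lit 0x80000800007efff7efff7effa7c6c8) e
 (c (nat_lit 0x8000080000800007eff37eff46a468) e
 (c (nat_lit 0x800008000080000800007f1b840b48) e e)))))))))))
 (c (nat_lit 0x80ffb80ffc80ffc80ffcbd750)
 (c (nat_lit 0x7609676096760827609676096fbec8) e
 (c (b (nat_lit 0xfdd5e08)) e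
 (c (b (nat_lit 0xfdcee08)) e
 (c (b (nat_lit 0xfe0a008)) e
 (c (nat_lit 0x7f06a7f06a7f0637f06a7f06ac5ae8) e
 (c (nat_lit 0x7f0467f0427f0467f0357f03d0ecc8) e
 (c (nat_lit 0x7f02a7f0217f0217f02a7f0163b428) e
 (c (nat_lit 0x80000800007f0077f0077f00713e48) e
 (c (nat_lit 0x8000080000800007eff67eff36ace8) e
 (c (nat_lit 0x800008000080000800007f1c20d5c8) e e))))))))))
 (c (a (nat_lit 0x101ff600)) e
 (c (a (nat_lit 0x101ffa00)) e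
 (c (a (nat_lit 0x101ffc00)) e
 (c (a (nat_lit 0x101ff200)) e
 (c (a (nat_lit 0x101ffa00)) e
 (c (nat_lit 0x80ff980ff980ff980ff8d5fa0) e
 (c (nat_lit 0x8100781001810018100197db1) e
 (c (nat_lit 0x810008100181001810017eff1) e
 (c (nat_lit 0x80e3780e3880e3880e398c451) e
 (c (nat_lit 0x8059e8059e8059e8059d0be21) e
 (c (nat_lit 0x811b7811b7811b7811b624c73) e
 (c (a (nat_lit 0x10238803)) e
 (c (nat_lit 0x80aa580aa680aa680aa6b1803) e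
 (c (nat_lit 0x809ff809ff80a0080a006cc63) e
 (c (a (nat_lit 0x10183a05)) e
 (c (nat_lit 0x80c1480c1580c1580c15f0285) e
 (c (nat_lit 0x805a6805a6805a6805a72b055) e
 (c (nat_lit 0x80a5280a4b80a5380a52716f5) e
 (c (nat_lit 0x80a4080a4180a4080a416da27) e
 (c (nat_lit 0x7ff437ff427ff427ff4176677) e
 (c (a (nat_lit 0x100dce07)) e
 (c (nat_lit 0x813e0813e4813e5813e4d9727) e e))))))))))))))))))))))))))))))) Tr.c Tr.e (nat_lit 0) C.t4 C.t5 C.t6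
noncomputable def tt190 : Tr := beta% (fun (c : Nat → Tr → Tr → Tr) (e : Tr) (z : Nat) (a b : Nat → Nat) =>
 (c (a (nat_lit 0xfed2000))
 (c (nat_lit 0x80000800007ff0b7ff0a800008000040f05) e
 (c (b (nat_lit 0x1073d805)) e
 (c z e
 (c (nat_lit 0x7f35b7f2f57f3177f35b7f35b7f35babb07) e
 (c (nat_lit 0x80000800007fff9800008000080000524c7) e
 (c (nat_lit 0x80f1e80f1e80f1e80ef580f1e80f1e60007) e
 (c z e
 (c z e
 (c (b (nat_lit 0x1019d80b)) e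
 (c (b (nat_lit 0x1048b80b)) e
 (c (b (nat_lit 0x104f660b)) e e)))))))))))
 (c (a (nat_lit 0xfe02400))
 (c z e
 (c z e
 (c z e
 (c z e
 (c z e
 (c z e
 (c z e
 (c z e
 (c z e
 (c (b (nat_lit 0x10b1d40b)) e e))))))))))
 (c (a (nat_lit 0xfe01800)) e
 (c (a (nat_lit 0xfe00000))
 (c z e
 (c z e
 (c z e
 (c (b (nat_lit 0x103afe0b)) e e))))
 (c (a (nat_lit 0xfdff001))
 (c (nat_lit 0x80dde80d2580d3e80dde80dde80dde8314b) e
 (c (nat_lit 0x8182481824816c5817218182481824b4c0b) e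
 (c (b (nat_lit 0x1030ce0b)) e e)))
 (c (a (nat_lit 0xfe00e01))
 (c (b (nat_lit 0x10266a0b)) e e)
 (c (a (nat_lit 0xfdff401))
 (c z e
 (c (b (nat_lit 0x102e0811)) e e))
 (c (nat_lit 0x7ef9d7efab7efab7efab7efabce321) e
 (c (nat_lit 0x7e5a87e6277e6277e6277e62729083) e
 (c (a (nat_lit 0xfe95403)) e
 (c z e
 (c (a (nat_lit 0x100c4c03)) e
 (c (a (nat_lit 0xff35c05)) e
 (c (a (nat_lit 0xfd08205)) e
 (c (a (nat_lit 0xff58605)) e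
 (c (nat_lit 0x7f3767f3767f3767f3767f30cdec05) e
 (c (a (nat_lit 0xfd5bc07)) e
 (c (a (nat_lit 0xfd4e807)) e
 (c z e
 (c (a (nat_lit 0xff09607)) e
 (c (a (nat_lit 0xfe21209)) e
 (c (nat_lit 0x7f7ab7f79f7f7ab7f7ab7f7abfc5cb) e
 (c (nat_lit 0x7f7837f7837f7757f7837f783afacb) e
 (c z e
 (c (a (nat_lit 0x1014360b)) e
 (c (nat_lit 0x8000080000800007faf37faf3d0d0c) e
 (c (nat_lit 0x800008000080000800007fbd4bfc6c) e e)))))))))))))))))))))))))))) Tr.c Tr.e (nat_lit 0) C.t5 C.t6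
noncomputable def tt191 : Tr := beta% (fun (c : Nat → Tr → Tr → Tr) (e : Tr) (z : Nat) (a b d : Nat → Nat) =>
 (c (a (nat_lit 0xfe00400))
 (c (b (nat_lit 0x10239e03))
 (c (d (nat_lit 0xf48da0b)) e
 (c z e
 (c z e
 (c (d (nat_lit 0x10684c43)) e e))))
 (c z e
 (c z e
 (c (nat_lit 0x80000800007ffeb7ffdc8000080000c0e85) e
 (c z e
 (c (b (nat_lit 0x10230e05)) e
 (c (nat_lit 0x800007fd337fd338000080000800009cfc7) e
 (c (nat_lit 0x80835808358075c807f380835808355edc7) e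
 (c (b (nat_lit 0x102dbc07)) e
 (c (b (nat_lit 0x1018f007)) e
 (c (b (nat_lit 0x10635a0b)) e
 (c (nat_lit 0x80000800007ff407ff8a80000800008b14b) e
 (c (b (nat_lit 0xfeae60b)) e e)))))))))))))
 (c (nat_lit 0x7f00c7f00c7f00c7f00b7f00b96240)
 (c (b (nat_lit 0x10531c05)) e
 (c z e
 (c z e
 (c z e
 (c (b (nat_lit 0x107b7c07)) e
 (c (nat_lit 0x81b6a81b6a81aad81b0881b6a81b6adbf87) e
 (c z e
 (c z e
 (c z e
 (c (b (nat_lit 0x1031960b)) e e))))))))))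
 (c (a (nat_lit 0xfe01a00))
 (c z e
 (c z e
 (c z e
 (c (b (nat_lit 0xfff4207)) e e))))
 (c (a (nat_lit 0xfdffe00))
 (c z e
 (c (b (nat_lit 0x100f2e07)) e
 (c z e
 (c z e
 (c (nat_lit 0x8236e8236e823128236e8236e8236e6188b) e
 (c (nat_lit 0x80d2080d2080d2080c2e80d2080d204b5cb) e
 (c z e
 (c (b (nat_lit 0x1064760b)) e
 (c (nat_lit 0x83c4483c3683c3683c4483c4483c44f0353) e
 (c (b (nat_lit 0x10575613)) e e))))))))))
 (c (nat_lit 0x7f0097f0087f0087f0087f008c5060)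
 (c (nat_lit 0x8000080000800007ff9f80000800003d607) e
 (c z e
 (c (b (nat_lit 0x1022980b)) e
 (c (b (nat_lit 0x102e7a0b)) e
 (c (b (nat_lit 0x1011060b)) e
 (c z e
 (c z e
 (c (nat_lit 0x8564f8564f85636856368564f8564f8d9a0) e e))))))))
 (c (a (nat_lit 0xfe01600))
 (c (b (nat_lit 0x1007100b)) e
 (c (nat_lit 0x81013810138101380e468101381013a73cb) e
 (c (b (nat_lit 0x100f3e0b)) e
 (c z e
 (c z e
 (c (b (nat_lit 0x105e6620)) e e))))))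
 (c (a (nat_lit 0xfe00c01))
 (c (nat_lit 0x80ff98111a8111a8111a8111a8111a22acb) e
 (c z e
 (c (b (nat_lit 0xfff5a11)) e
 (c (b (nat_lit 0x103b4a11)) e e))))
 (c (a (nat_lit 0xfdfe801))
 (c (b (nat_lit 0x10191211)) e
 (c (b (nat_lit 0x102f9611)) e e))
 (c (a (nat_lit 0xfd86601)) e
 (c (a (nat_lit 0xfdfd201)) e
 (c (a (nat_lit 0xfd1c003)) e
 (c (a (nat_lit 0xfb0b003)) e
 (c z e
 (c (a (nat_lit 0x10338803)) e
 (c (nat_lit 0x7f5027f4f17f4f37f5027f502f85e5) e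
 (c (nat_lit 0x7e9a77e9a77e99e7e9a77e9a769fc5) e
 (c (a (nat_lit 0xffe0205)) e
 (c (a (nat_lit 0xfef6e05)) e
 (c (a (nat_lit 0xfdeb007)) e
 (c (a (nat_lit 0xfde2c07)) e
 (c z e
 (c (a (nat_lit 0xffb5207)) e
 (c (nat_lit 0x7f9257f8e67f91c7f9257f925d682b) e
 (c (nat_lit 0x7f2bd7f2bd7f2b37f2bd7f2bd0b64b) e
 (c z e
 (c (a (nat_lit 0xfef660b)) e
 (c (nat_lit 0x8000080000800007fc3b7fc3b7b58c) e
 (c (nat_lit 0x8000080000800007fff77fff74b46d) e e))))))))))))))))))))))))))))) Tr.c Tr.e (nat_lit 0) C.t5 C.t6 C.t7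
noncomputable def tt192 : Tr := beta% (fun (c : Nat → Tr → Tr → Tr) (e : Tr) (z : Nat) (a b d : Nat → Nat) =>
 (c (a (nat_lit 0xfdfe200))
 (c z
 (c (d (nat_lit 0x10a02c07)) e
 (c z e
 (c z e
 (c (nat_lit 0x8000080000800007feaf80000800008000082c8b) e
 (c z e
 (c z e
 (c z e
 (c (nat_lit 0x800007e9508000080000800008000080000c118d) e e))))))))
 (c (b (nat_lit 0xfa8a203))
 (c (d (nat_lit 0x1100180b)) e
 (c z e
 (c z e
 (c z e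
 (c z e
 (c z e
 (c (d (nat_lit 0x105c840d)) e e)))))))
 (c (nat_lit 0x800007fefe7fee57fee580000800000ea83) e
 (c z
 (c (d (nat_lit 0x1056420d)) e e)
 (c z e
 (c (b (nat_lit 0x102c0405)) e
 (c z e
 (c z e
 (c z e
 (c z e
 (c z e
 (c z e
 (c z e
 (c (b (nat_lit 0x10a4c40b)) e
 (c z e
 (c (b (nat_lit 0x1009f20b)) e
 (c (nat_lit 0x816bc8165c8165b816bc816bc816bc8730d) e
 (c (b (nat_lit 0x102bc80d)) e
 (c (nat_lit 0x7fc0e80000800007ffeb80000800006ee8d) e e)))))))))))))))))))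
 (c (a (nat_lit 0xfdffe00))
 (c (b (nat_lit 0xfab3803))
 (c z e
 (c z e
 (c z e
 (c (d (nat_lit 0xffbf60d)) e
 (c (d (nat_lit 0xf47460d)) e e)))))
 (c z e
 (c z e
 (c (b (nat_lit 0x10c96005)) e
 (c (nat_lit 0x8281082810827f6827f982810828108c285) e
 (c z e
 (c z e
 (c (nat_lit 0x80000800007fcec8000080000800006f787) e
 (c (b (nat_lit 0x102e2a07)) e
 (c z e
 (c (b (nat_lit 0x103e3a07)) e
 (c (nat_lit 0x8408583f6c83f6c8408584085840856e58b) e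
 (c (b (nat_lit 0x108cd80b)) e
 (c z e
 (c (b (nat_lit 0x101bf20d)) e
 (c (b (nat_lit 0x1031c00d)) e
 (c (b (nat_lit 0x1017460d)) e e)))))))))))))))))
 (c (a (nat_lit 0xfe00800))
 (c z e
 (c z e
 (c z e
 (c z e
 (c z e
 (c z e
 (c z e
 (c z e
 (c z e
 (c z e
 (c z e
 (c z e
 (c (b (nat_lit 0xfffd60d)) e e)))))))))))))
 (c (a (nat_lit 0xfe01800))
 (c z e
 (c z e
 (c z e
 (c z e
 (c (nat_lit 0x832c9832c9832c98323783237832c95f587) e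
 (c z e
 (c z e
 (c z e
 (c z e
 (c z e
 (c (b (nat_lit 0x1062560d)) e
 (c (b (nat_lit 0x1037720d)) e
 (c (b (nat_lit 0xfffa60d)) e
 (c (b (nat_lit 0x1025ca0d)) e e))))))))))))))
 (c (a (nat_lit 0xfe01400))
 (c z e
 (c z e
 (c z e
 (c z e
 (c (nat_lit 0x7fe167fe167fbec7fe167fe167fe1693c87) e
 (c (b (nat_lit 0x102ca80b)) e
 (c z e
 (c z e
 (c (b (nat_lit 0x10516a0d)) e
 (c (b (nat_lit 0x108d880d)) e e))))))))))
 (c (a (nat_lit 0xfe00600))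
 (c (nat_lit 0x7f0027fafe7fafe7fa6e7fafe7fafe4cb07) e
 (c z e
 (c z e
 (c (b (nat_lit 0x1043140b)) e
 (c (nat_lit 0x8157f8157f8139f8157f8157f8157ffdb0b) e
 (c z e
 (c z e
 (c (b (nat_lit 0x107cdc0d)) e
 (c (nat_lit 0x80d9280da680da680da680da680da681ecd) e e)))))))))
 (c (a (nat_lit 0xfe01a00))
 (c z e
 (c (b (nat_lit 0x1022740b)) e
 (c z e
 (c z e
 (c (b (nat_lit 0x101e820d)) e
 (c z e
 (c z e
 (c (b (nat_lit 0xff39e0d)) e e))))))))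
 (c (a (nat_lit 0xfe01200))
 (c z e
 (c z e
 (c z e
 (c (b (nat_lit 0x10350c0d)) e e))))
 (c (nat_lit 0x7f00a7f00a7f0097f0097f00a27a21)
 (c (nat_lit 0x80d6880d6880d6880c2980d6880d6885c8d) e
 (c (nat_lit 0x7f1037f1037f0cd7f1037f1037f1038cccd) e
 (c (b (nat_lit 0x1019cc0d)) e
 (c z e
 (c (nat_lit 0x80000800008263e8263e8263e8263ebf7a0) e e)))))
 (c (a (nat_lit 0xfe01001))
 (c (nat_lit 0x7f10e7f10e7f10e7f0d87f10e7f10e6d10d) e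
 (c (b (nat_lit 0x102c960d)) e e))
 (c (nat_lit 0x7f0207f0207f0207f0167f01623d41) e
 (c (a (nat_lit 0xfb14201)) e
 (c (nat_lit 0x7d9c77d9197d9c77d9c77d9c77f603) e
 (c (nat_lit 0x7e8fb7e8fb7e8f77e8fb7e8fbeb983) e
 (c (a (nat_lit 0x1034ca03)) e
 (c z e
 (c (a (nat_lit 0xfdca805)) e
 (c (a (nat_lit 0xfdc9805)) e
 (c z e
 (c (nat_lit 0x7f6d97f6bf7f6d97f6d97f6d9ace25) e
 (c (a (nat_lit 0xfdb8a07)) e
 (c (a (nat_lit 0xfdf0c07)) e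
 (c z e
 (c (nat_lit 0x7eec97eeec7ef047ef1f7ef1f52bc7) e
 (c (a (nat_lit 0xfddbc0b)) e
 (c (nat_lit 0x80000800007ffe07ffd57ffd545a4b) e
 (c (a (nat_lit 0xff3940b)) e
 (c (a (nat_lit 0xfea1c0d)) e
 (c (nat_lit 0x7f5207f5207f51f7f5207f520e47cd) e
 (c (nat_lit 0x7f9b67f9b67ff1f80000800001858d) e
 (c (nat_lit 0x7f6877f687800007fdc67fdc63b84d) e
 (c (nat_lit 0x800008000080000800007f6f6f694d) e e))))))))))))))))))))))))))))))))) Tr.c Tr.e (nat_lit 0) C.t5 C.t6 C.t7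
noncomputable def tt193 : Tr := beta% (fun (c : Nat → Tr → Tr → Tr) (e : Tr) (z : Nat) (a b d : Nat → Nat) =>
 (c (a (nat_lit 0xfe02000))
 (c (b (nat_lit 0x10203001))
 (c (d (nat_lit 0xf13c605)) e
 (c z e
 (c z e
 (c z e
 (c z e
 (c z e
 (c z e
 (c (nat_lit 0x800008000080000800007fc4980000800001970b) e
 (c z e
 (c z e
 (c (nat_lit 0x8000080000800007ff338000080000800003030d) e e)))))))))))
 (c (b (nat_lit 0x101fcc01))
 (c z e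
 (c z e
 (c z e
 (c z e
 (c z e
 (c z e
 (c z e
 (c z e
 (c z e
 (c (nat_lit 0x7c6607c6607c6607c6607c64e7c6607c6605e48d) e e))))))))))
 (c (b (nat_lit 0x101fd801)) e
 (c (b (nat_lit 0x101fb401)) e
 (c z e
 (c z e
 (c z e
 (c z e
 (c z e
 (c (b (nat_lit 0x10168c05)) e
 (c z e
 (c (b (nat_lit 0xfc7ec05)) e
 (c (b (nat_lit 0xfa42807)) e
 (c (b (nat_lit 0x1015da07)) e
 (c z e
 (c z e
 (c z e
 (c z e
 (c (b (nat_lit 0x101b240d)) e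
 (c (b (nat_lit 0x101f800d)) e e))))))))))))))))))))
 (c (a (nat_lit 0xfe01600))
 (c (b (nat_lit 0x10201e01))
 (c z e
 (c z e
 (c z e
 (c z e
 (c (d (nat_lit 0x1081320b)) e
 (c z e
 (c z e
 (c (nat_lit 0x8000080000800007ffa48000080000800005250d) e e))))))))
 (c z e
 (c z e
 (c (nat_lit 0x80000800008000080000800007ffe8460c1) e
 (c z e
 (c z e
 (c z e
 (c (b (nat_lit 0x1008e405)) e
 (c (b (nat_lit 0xf98a605)) e
 (c z e
 (c z e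
 (c (b (nat_lit 0x10418e07)) e
 (c z e
 (c z e
 (c (nat_lit 0x7fc7d7fc7d7fc7b7fc7b7fc7d7fc7d4ed4b) e
 (c z e
 (c z e
 (c (b (nat_lit 0x101d420d)) e
 (c (b (nat_lit 0x1007b20d)) e e)))))))))))))))))))
 (c (a (nat_lit 0xfe01200))
 (c z e
 (c z e
 (c z e
 (c z e
 (c z e
 (c z e
 (c (b (nat_lit 0x10154605)) e
 (c z e
 (c z e
 (c z e
 (c z e
 (c z e
 (c (b (nat_lit 0x101abe0b)) e
 (c z e
 (c (b (nat_lit 0xfff280d)) e e)))))))))))))))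
 (c (a (nat_lit 0xfe01800))
 (c z e
 (c z e
 (c z e
 (c z e
 (c z e
 (c z e
 (c (b (nat_lit 0xfff4007)) e e)))))))
 (c (a (nat_lit 0xfe02e00))
 (c (b (nat_lit 0x10197605)) e
 (c z e
 (c z e
 (c z e
 (c z e
 (c z e
 (c z e
 (c z e
 (c z e
 (c z e
 (c z e
 (c (b (nat_lit 0x1053a80d)) e e))))))))))))
 (c (a (nat_lit 0xfe01a00))
 (c z e
 (c z e
 (c z e
 (c z e
 (c z e
 (c z e
 (c z e
 (c z e
 (c z e
 (c (b (nat_lit 0x1069ac0d)) e e))))))))))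
 (c (a (nat_lit 0xfe00800)) e
 (c (nat_lit 0x7f0217f0207f0207f01e7f01eba320)
 (c z e
 (c z e
 (c z e
 (c z e
 (c z e
 (c z e
 (c (b (nat_lit 0x1052ba0d)) e e)))))))
 (c (a (nat_lit 0xfe02e00))
 (c z e
 (c z e
 (c z e
 (c z e
 (c z e
 (c (b (nat_lit 0x104f780d)) e e))))))
 (c (a (nat_lit 0xfe02000))
 (c z e
 (c (nat_lit 0x7ef2d7ef2d7eef97ef2d7ef2d7ef2da778d) e
 (c (b (nat_lit 0xfff560d)) e
 (c z e
 (c (b (nat_lit 0x10631211)) e e)))))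
 (c (a (nat_lit 0xfe01201))
 (c (nat_lit 0x8000080000800007f9148000080000d33cd) e e)
 (c (a (nat_lit 0xfe02201)) e
 (c (a (nat_lit 0xfdf1e01)) e
 (c (a (nat_lit 0xfda3801)) e
 (c (a (nat_lit 0xff4c603)) e
 (c (a (nat_lit 0xfe82603)) e
 (c z e
 (c (a (nat_lit 0x100a6c03)) e
 (c (a (nat_lit 0xfe89805)) e
 (c (a (nat_lit 0xfe87e05)) e
 (c (a (nat_lit 0xff28805)) e
 (c (a (nat_lit 0xff74005)) e
 (c (a (nat_lit 0xfed5807)) e
 (c (a (nat_lit 0xfed0a07)) e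
 (c z e
 (c z e
 (c z e
 (c (a (nat_lit 0xff8600b)) e
 (c (nat_lit 0x7f1237f1167f1237f1237f1233510d) e
 (c (a (nat_lit 0xfe2440d)) e
 (c (a (nat_lit 0xfe54a0d)) e
 (c (a (nat_lit 0xfdfa40d)) e
 (c z e
 (c (nat_lit 0x800008000080000800007ffc6d2a4f) e e))))))))))))))))))))))))))))))))))) Tr.c Tr.e (nat_lit 0) C.t5 C.t6 C.t7
noncomputable def tt194 : Tr := beta% (fun (c : Nat → Tr → Tr → Tr) (e : Tr) (z : Nat) (a b d : Nat → Nat) =>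
 (c (a (nat_lit 0xfe01c00))
 (c (b (nat_lit 0x101f3600))
 (c (nat_lit 0x80000800007fe067fe0780000800008000009085) e e)
 (c (b (nat_lit 0x101fd401))
 (c z e
 (c z e
 (c z e
 (c z e
 (c z e
 (c z e
 (c z e
 (c (nat_lit 0x80000800007fc0d800008000080000800001bd0d) e e))))))))
 (c (b (nat_lit 0x101fe601)) e
 (c (b (nat_lit 0x101fbc01)) e
 (c (b (nat_lit 0x101faa01)) e
 (c z e
 (c z e
 (c (b (nat_lit 0x101dd803)) e
 (c z e
 (c (b (nat_lit 0x10160205)) e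
 (c z e
 (c z e
 (c z e
 (c z e
 (c (b (nat_lit 0xff51a07)) e
 (c z e
 (c z e
 (c z e
 (c z e
 (c (b (nat_lit 0x1011700d)) e
 (c (b (nat_lit 0x100f220d)) e
 (c (b (nat_lit 0x100b800d)) e
 (c (b (nat_lit 0x1014a815)) e
 (c (b (nat_lit 0x1010f419)) e e))))))))))))))))))))))))
 (c (a (nat_lit 0xfe01200))
 (c (b (nat_lit 0x10200a01)) e
 (c (b (nat_lit 0x101ffa01)) e
 (c z e
 (c z e
 (c (nat_lit 0x7f7217f7217f7ba7f7ba7f7ba7f7ba21043) e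
 (c z e
 (c z e
 (c z e
 (c z e
 (c z e
 (c z e
 (c z e
 (c z e
 (c z e
 (c z e
 (c z e
 (c (b (nat_lit 0x1005960d)) e
 (c (b (nat_lit 0x1011940d)) e e))))))))))))))))))
 (c (a (nat_lit 0xfe00a00))
 (c (b (nat_lit 0x101ff201)) e
 (c (b (nat_lit 0xfca2003))
 (c (d (nat_lit 0x1062e00d)) e e)
 (c z e
 (c z e
 (c z e
 (c (b (nat_lit 0x1022c605)) e
 (c z e
 (c (b (nat_lit 0x101dbc05)) e
 (c z e
 (c z e
 (c (b (nat_lit 0x101e0207)) e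
 (c z e
 (c (b (nat_lit 0x100e9207)) e
 (c z e
 (c (b (nat_lit 0x10064a0d)) e
 (c z e
 (c z e
 (c (b (nat_lit 0x1007b60d)) e e))))))))))))))))))
 (c (nat_lit 0x7f0167f0147f0147f0137f01501e40)
 (c (b (nat_lit 0xfc77803))
 (c (d (nat_lit 0x1093ec0d)) e
 (c z e
 (c z e
 (c (d (nat_lit 0x10350418)) e e))))
 (c z e
 (c z e
 (c (b (nat_lit 0x104e0405)) e
 (c (nat_lit 0x8145a8145a8141e814008145a8145a9a345) e
 (c z e
 (c z e
 (c (b (nat_lit 0xfdc8007)) e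
 (c (b (nat_lit 0x104c9807)) e
 (c (b (nat_lit 0x10232c07)) e
 (c z e
 (c z e
 (c z e
 (c (b (nat_lit 0x1013ac0d)) e
 (c z e
 (c z e
 (c (b (nat_lit 0x100fbe18)) e e)))))))))))))))))
 (c (a (nat_lit 0xfe02400)) e
 (c (a (nat_lit 0xfe00c00))
 (c z e
 (c z e
 (c (b (nat_lit 0x10274805)) e
 (c (b (nat_lit 0x1011d807)) e
 (c (nat_lit 0x80aaa809f780aaa80aaa80aaa80aaa5a887) e e)))))
 (c (a (nat_lit 0xfe00a00))
 (c z e
 (c (nat_lit 0x800007ffc380000800008000080000c3187) e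
 (c z e
 (c z e
 (c z e
 (c (b (nat_lit 0xfbec40b)) e e))))))
 (c (a (nat_lit 0xfe01e00))
 (c z e
 (c z e
 (c z e
 (c z e
 (c (nat_lit 0x80fc780fc780fc780e7380fc780fc71ab0d) e e)))))
 (c (a (nat_lit 0xfe03600))
 (c z e
 (c z e
 (c z e
 (c (b (nat_lit 0xfff3a0d)) e
 (c z e
 (c (b (nat_lit 0x106c160d)) e e))))))
 (c (a (nat_lit 0xfe02800))
 (c (nat_lit 0x80dda80dda80dda80dda80dda80acf7d08d) e
 (c z e
 (c z e
 (c z e
 (c (b (nat_lit 0x10470611)) e e)))))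
 (c (a (nat_lit 0xfe02c00))
 (c z e
 (c (nat_lit 0x816168160481616816168161681616625cd) e
 (c (b (nat_lit 0x10474c20)) e
 (c (b (nat_lit 0x1075a820)) e e))))
 (c (nat_lit 0x7f0207f01b7f01b7f01b7f01bea601) e
 (c (a (nat_lit 0xfe00601)) e
 (c (nat_lit 0x7f0267f0267f0267f00e7f01031901) e
 (c (nat_lit 0x7f1ff7f1ff7f1ff7f1ff7f011d6d01) e
 (c (nat_lit 0x7e8427e7c67e8427e8427e8420aec3) e
 (c (nat_lit 0x8034180341802ed8034180341edf63) e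
 (c z e
 (c (a (nat_lit 0x101b9c03)) e
 (c (a (nat_lit 0xfe10a05)) e
 (c (a (nat_lit 0xfe0e205)) e
 (c (a (nat_lit 0xfef0005)) e
 (c (a (nat_lit 0xfe9aa05)) e
 (c (nat_lit 0x7fa097fa0f7fa0f7fa167fa16bf747) e
 (c (a (nat_lit 0xfdc8607)) e
 (c (nat_lit 0x800007fffb7fffb8000080000e3bc7) e
 (c (nat_lit 0x7f7047f7047f6f07f6f07f6fc669c7) e
 (c (nat_lit 0x7f80e7f8097f80e7f80e7f80e3308b) e
 (c (a (nat_lit 0xfebdc0d)) e
 (c (a (nat_lit 0xfec0c0d)) e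
 (c (a (nat_lit 0xfef800d)) e
 (c (nat_lit 0x7f4c87f4c87f6487f6487f6483e42d) e e))))))))))))))))))))))))))))))))) Tr.c Tr.e (nat_lit 0) C.t5 C.t6 C.t7
noncomputable def tt195 : Tr := beta% (fun (c : Nat → Tr → Tr → Tr) (e : Tr) (z : Nat) (a b : Nat → Nat) =>
 (c (a (nat_lit 0x101ee400))
 (c (nat_lit 0x7e8227e8227e8227e7857e8227e8227e822d6983) e
 (c z e
 (c z e
 (c z e
 (c (nat_lit 0x7f3647f3647f3647f3537f2e17f3647f364fbb85) e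
 (c z e
 (c (b (nat_lit 0xf4a6207)) e
 (c z e
 (c z e
 (c z e
 (c (nat_lit 0x8000080000800007ff838000080000800003b18b) e
 (c (nat_lit 0x7e5367e5367e3bb7e5367e5367e5367e536f6a0d) e
 (c z e
 (c z e
 (c (b (nat_lit 0x106bd60d)) e e)))))))))))))))
 (c (a (nat_lit 0x101f6000))
 (c z e
 (c (nat_lit 0x8000080000800007ffcb800008000080000aff84) e
 (c (nat_lit 0x7c4cd7c4cd7c4cd7c4c77c4cd7c4cd7c4cdcf185) e
 (c z e
 (c z e
 (c z e
 (c z e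
 (c (b (nat_lit 0xffc0407)) e e))))))))
 (c (a (nat_lit 0x101f7600))
 (c (b (nat_lit 0xf24ae05)) e e)
 (c (a (nat_lit 0x101fbc01))
 (c z e
 (c z e
 (c z e
 (c z e
 (c (b (nat_lit 0xf9ba60b)) e
 (c z e
 (c (b (nat_lit 0xffd880d)) e
 (c z e
 (c z e
 (c (nat_lit 0x80000800007ff23800008000080000800009b599) e e))))))))))
 (c (a (nat_lit 0x101f6601))
 (c (nat_lit 0x8331383313833138325e83313833138331344b87) e
 (c z e
 (c z e
 (c (b (nat_lit 0xf7abc0d)) e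
 (c (b (nat_lit 0xfb3b20d)) e
 (c (nat_lit 0x8000080000800007fb7c8000080000800002828d) e e))))))
 (c (a (nat_lit 0x101f9601)) e
 (c z
 (c z e
 (c z e
 (c z e
 (c (b (nat_lit 0x1051aa19)) e e))))
 (c z
 (c (b (nat_lit 0xfffac0d)) e e)
 (c (a (nat_lit 0x10082a03)) e
 (c (a (nat_lit 0x100e9403)) e
 (c (a (nat_lit 0x101d6003)) e
 (c (a (nat_lit 0x10439c05)) e
 (c z e
 (c (a (nat_lit 0xfe95405)) e
 (c (a (nat_lit 0xfdea005)) e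
 (c z e
 (c z e
 (c (a (nat_lit 0xfd0fc07)) e
 (c z e
 (c z e
 (c (a (nat_lit 0x101b160d)) e
 (c (a (nat_lit 0x1018a00d)) e
 (c (a (nat_lit 0x100dee0d)) e
 (c (a (nat_lit 0x101b120d)) e e))))))))))))))))))))))))) Tr.c Tr.e (nat_lit 0) C.t6 C.t7
noncomputable def tt196 : Tr := beta% (fun (c : Nat → Tr → Tr → Tr) (e : Tr) (z : Nat) (a b d : Nat → Nat) =>
 (c (a (nat_lit 0xfe01600))
 (c z
 (c z e
 (c z e
 (c z e
 (c z e
 (c (d (nat_lit 0xf90940d)) e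
 (c z e
 (c z e
 (c (d (nat_lit 0x10843a41)) e e))))))))
 (c z
 (c z e
 (c z e
 (c (d (nat_lit 0x10afba0d)) e e)))
 (c z
 (c z e
 (c (d (nat_lit 0x10318c0d)) e e))
 (c z
 (c (d (nat_lit 0x10bfa623)) e e)
 (c (nat_lit 0x8135081350813098126681350813506a803) e
 (c (nat_lit 0x819a2819a2819a2819a2819a1819a164d83) e
 (c (b (nat_lit 0x1027e205)) e
 (c (b (nat_lit 0x10064205)) e
 (c (nat_lit 0x80c3280c3280c3280bc480be880c32360c5) e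
 (c z e
 (c z e
 (c z e
 (c (nat_lit 0x7f86c7f86c7f86c7f83e7f86c7f86c17487) e
 (c z e
 (c (b (nat_lit 0x101a740d)) e
 (c (b (nat_lit 0x1029e60d)) e
 (c (b (nat_lit 0x10035a0d)) e
 (c (b (nat_lit 0xfff1a0d)) e
 (c z e
 (c (nat_lit 0x80000800008000080ba880ba880ba8b318f) e e))))))))))))))))))))
 (c (a (nat_lit 0xfe01e00))
 (c (b (nat_lit 0xfccec03)) e
 (c z e
 (c z e
 (c z e
 (c (nat_lit 0x80c7980b4c80b2b80c7980c7980c79dd585) e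
 (c (nat_lit 0x8111d810fa810fa8111d8111d8111df72c5) e
 (c (b (nat_lit 0xff37c05)) e
 (c (b (nat_lit 0xfda9005)) e
 (c z e
 (c (b (nat_lit 0x101d0607)) e
 (c (b (nat_lit 0x1069b207)) e
 (c z e
 (c z e
 (c (b (nat_lit 0x102c160d)) e
 (c z e
 (c (b (nat_lit 0x1021960d)) e
 (c (b (nat_lit 0x10143c13)) e e)))))))))))))))))
 (c (a (nat_lit 0xfe03400))
 (c (nat_lit 0x80000800007ffbe7ffbe8000080000c08c3) e
 (c z e
 (c z e
 (c z e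
 (c z e
 (c z e
 (c (nat_lit 0x7fd738000080000800008000080000e4387) e
 (c (b (nat_lit 0xfd50807)) e
 (c z e
 (c z e
 (c (b (nat_lit 0x10096a0d)) e
 (c (b (nat_lit 0x101bc40d)) e
 (c (b (nat_lit 0x101c960d)) e
 (c (b (nat_lit 0x102f680d)) e
 (c (b (nat_lit 0x102d1a13)) e e)))))))))))))))
 (c (a (nat_lit 0xfe00200))
 (c (nat_lit 0x82e1882df282d9682e1882e1882e18936c5) e
 (c (nat_lit 0x80e9380e9380e9380e8880e9380e93ea045) e
 (c z e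
 (c (b (nat_lit 0xff7cc05)) e
 (c (nat_lit 0x8203a8203a820018203a8203a8203a924c7) e
 (c (b (nat_lit 0x10674607)) e
 (c (b (nat_lit 0x10092007)) e
 (c z e
 (c (nat_lit 0x7c9027c9027c80b7c9027c9027c902aec0d) e
 (c (b (nat_lit 0x10d0a80d)) e
 (c (b (nat_lit 0xff6820d)) e
 (c z e
 (c (b (nat_lit 0x10082813)) e
 (c (b (nat_lit 0x100e9a13)) e
 (c (b (nat_lit 0xffe5013)) e e)))))))))))))))
 (c (a (nat_lit 0xfdfe600))
 (c (nat_lit 0x7feda8000080000800008000080000dec45) e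
 (c (nat_lit 0x7fd407fd9b8000080000800008000058d85) e
 (c z e
 (c (nat_lit 0x814518145181434814518145181451f6987) e
 (c (b (nat_lit 0x101d2007)) e
 (c (b (nat_lit 0xfa7d207)) e
 (c z e
 (c (nat_lit 0x7e30f7e30f7e2b77e30f7e30f7e30ffb50d) e
 (c (nat_lit 0x8000080000800007ffb480000800000f24d) e
 (c (nat_lit 0x7ffb67ffb67ffb67ffb67fdd57ffa76fe8d) e
 (c z e
 (c z e
 (c z e
 (c z e
 (c z e
 (c z e
 (c (nat_lit 0x80000800008000080000800007fe70e0854) e e)))))))))))))))))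
 (c (a (nat_lit 0xfe02200))
 (c (nat_lit 0x800007ffbf8000080000800008000039607) e
 (c (nat_lit 0x80000800007ffbd80000800008000070607) e
 (c z e
 (c z e
 (c (nat_lit 0x8124e8124e8124e8124e8124e80fa7c610d) e e)))))
 (c (a (nat_lit 0xfe01000))
 (c (nat_lit 0x8000080000800007fef57ff8c80000c0847) e
 (c z e
 (c z e
 (c (nat_lit 0x82b8982b8982afd82b8982b8982b89779cd) e
 (c z e
 (c (nat_lit 0x813908139081390813908120a81390b624d) e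
 (c z e
 (c (b (nat_lit 0xfeefa11)) e e))))))))
 (c (a (nat_lit 0xfdffe00))
 (c z e
 (c (b (nat_lit 0x1019060d)) e
 (c z e
 (c z e
 (c (b (nat_lit 0x10687c11)) e
 (c (b (nat_lit 0xfe66c11)) e e))))))
 (c (a (nat_lit 0xfdff600))
 (c z e
 (c (nat_lit 0x80dc080dae80cf980dc080dc080dc08c78d) e
 (c (b (nat_lit 0x10191e20)) e
 (c (b (nat_lit 0x1094ec20)) e e))))
 (c (a (nat_lit 0xfe04600))
 (c (nat_lit 0x82e5a82e5a82e5a82d0882e5a82e5a03ed0) e e)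
 (c (a (nat_lit 0xfdfdc01)) e
 (c (a (nat_lit 0xfdfd801))
 (c (nat_lit 0x80000800008000083c2083c2083c2030190) e e)
 (c (a (nat_lit 0xfe01201)) e
 (c (nat_lit 0x7ef547efdc7efdc7efdc7efdc7c881) e
 (c (a (nat_lit 0xfdd8c03)) e
 (c (a (nat_lit 0xfdf6003)) e
 (c (a (nat_lit 0xfec6803)) e
 (c (a (nat_lit 0x10055203)) e
 (c (a (nat_lit 0xfdeae05)) e
 (c (a (nat_lit 0xfdde405)) e
 (c (a (nat_lit 0xfe46e05)) e
 (c (a (nat_lit 0xff83a05)) e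
 (c (nat_lit 0x7e94c7e94c7e9387e94c7e94c7e747) e
 (c (nat_lit 0x7e94b7e94b7e94b7e9357e94b0c407) e
 (c (nat_lit 0x7f6d17f75a7f75a7f75a7f75acd3a7) e
 (c (a (nat_lit 0xff1ba07)) e
 (c (nat_lit 0x7f8637f8287f8637f8637f863d3a6d) e
 (c (nat_lit 0x7f88f7f88f7f8527f88f7f88fb4a0d) e
 (c (nat_lit 0x7fb967fb967fb967fb967fb460a22d) e
 (c (nat_lit 0x7fdf77fdfa7fe517fe517fe51bdb6d) e
 (c (nat_lit 0x80000800007ffa37ff787ffaf939cf) e
 (c (nat_lit 0x80000800007ffcd7ffcd7ffcddc34f) e e))))))))))))))))))))))))))))))))) Tr.c Tr.e (nat_lit 0) C.t5 C.t6 C.t7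
noncomputable def tt197 : Tr := beta% (fun (c : Nat → Tr → Tr → Tr) (e : Tr) (z : Nat) (a b : Nat → Nat) =>
 (c (a (nat_lit 0x101f2000))
 (c (b (nat_lit 0xf8f1003)) e
 (c z e
 (c z e
 (c (b (nat_lit 0xf86d605)) e
 (c z e
 (c (b (nat_lit 0xfb41405)) e
 (c (b (nat_lit 0xf557e05)) e
 (c (b (nat_lit 0xfffda07)) e
 (c z e
 (c (b (nat_lit 0xffff007)) e
 (c z e
 (c z e
 (c (nat_lit 0x8000080000800007fe5e8000080000800000290d) e
 (c (b (nat_lit 0xfff200d)) e e))))))))))))))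
 (c (a (nat_lit 0x101f5e00)) e
 (c (a (nat_lit 0x101f6400)) e
 (c (a (nat_lit 0x101f8a00))
 (c z e
 (c (nat_lit 0x7cc877cb0c7cc877cc877cc877cc877cc87b8f87) e e))
 (c (a (nat_lit 0x101f6801))
 (c z e
 (c (b (nat_lit 0x108e7207)) e
 (c (b (nat_lit 0x10562e07)) e e)))
 (c (a (nat_lit 0x101fa201)) e
 (c (a (nat_lit 0x101fac01))
 (c z e
 (c z e
 (c z e
 (c z e
 (c z e
 (c (b (nat_lit 0xffca223)) e e))))))
 (c (a (nat_lit 0x101ff001))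
 (c (b (nat_lit 0xfeb640d)) e e)
 (c (a (nat_lit 0x1000f203)) e
 (c (a (nat_lit 0x10133603)) e
 (c (a (nat_lit 0x10153e03)) e
 (c z e
 (c (a (nat_lit 0x103ae005)) e
 (c z e
 (c z e
 (c z e
 (c z e
 (c (a (nat_lit 0xfe17c07)) e
 (c z e
 (c z e
 (c (a (nat_lit 0x1001c20d)) e
 (c (a (nat_lit 0x1019520d)) e
 (c (nat_lit 0x80a2880a2880a1f80a1f80a0e80a283184d) e
 (c (a (nat_lit 0x100f6e0d)) e e))))))))))))))))))))))))) Tr.c Tr.e (nat_lit 0) C.t6 C.t7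
noncomputable def tt198 : Tr := beta% (fun (c : Nat → Tr → Tr → Tr) (e : Tr) (z : Nat) (a b : Nat → Nat) =>
 (c (a (nat_lit 0x101eec00))
 (c (b (nat_lit 0xf094801)) e
 (c (b (nat_lit 0xf5ffa01)) e
 (c (b (nat_lit 0xf654a03)) e
 (c (nat_lit 0x7bde07bde07bb0f7bde07bde07bde07bde025d03) e
 (c (nat_lit 0x7ae197ae197ae197adc27ae197ae197ae1961883) e
 (c (b (nat_lit 0xfa04403)) e
 (c (b (nat_lit 0xf8e3a05)) e
 (c (b (nat_lit 0xf925405)) e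
 (c z e
 (c z e
 (c z e
 (c z e
 (c (b (nat_lit 0xfa85a07)) e
 (c (b (nat_lit 0x1080c607)) e
 (c (b (nat_lit 0x1030400d)) e
 (c (b (nat_lit 0xef3200d)) e
 (c (b (nat_lit 0xffe820d)) e e)))))))))))))))))
 (c (a (nat_lit 0x101f2600))
 (c (nat_lit 0x7be347bde87be347be347be347be347be34f5503) e
 (c z e
 (c (nat_lit 0x7768977689776897765d77689776897768940883) e
 (c z e
 (c (nat_lit 0x80000800008000080000800007fe3780000c3783) e
 (c (b (nat_lit 0xfff5405)) e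
 (c (nat_lit 0x7e3987e3987e3987de4e7e3987e3987e39839105) e
 (c (nat_lit 0x7b95c7b95c7b95c7b95c7b7197b95c7b95c95185) e
 (c z e
 (c (b (nat_lit 0xfff8c07)) e
 (c z e
 (c z e
 (c z e
 (c (b (nat_lit 0x10655c0d)) e
 (c (b (nat_lit 0xfa2e20d)) e e)))))))))))))))
 (c (a (nat_lit 0x101f4000))
 (c (b (nat_lit 0xf920c03)) e
 (c z e
 (c z e
 (c z e
 (c z e
 (c z e
 (c z e
 (c z e
 (c z e
 (c z e
 (c z e
 (c z e
 (c z e
 (c z e
 (c z e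
 (c (b (nat_lit 0x1042ca25)) e e))))))))))))))))
 (c (a (nat_lit 0x101ed600))
 (c (nat_lit 0x7d56d7d56d7d56d7d56d7d56d7d3a57d56d4a605) e
 (c (b (nat_lit 0xfa31605)) e
 (c z e
 (c z e
 (c z e
 (c z e
 (c z e
 (c z e
 (c (b (nat_lit 0xffd060d)) e
 (c (b (nat_lit 0xfb8840d)) e
 (c z e
 (c z e
 (c (nat_lit 0x7ef727ea847ef727ef727ef727ef727ef72a5325) e e)))))))))))))
 (c (a (nat_lit 0x101f3c00))
 (c (nat_lit 0x7b6397b6397b2587b6397b6397b6397b63960285) e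
 (c z e
 (c z e
 (c z e
 (c z e
 (c z e
 (c z e
 (c (b (nat_lit 0x1046b80d)) e
 (c (b (nat_lit 0x10424c0d)) e
 (c z e
 (c z e
 (c (b (nat_lit 0x11001240)) e e))))))))))))
 (c (a (nat_lit 0x101f3800))
 (c (b (nat_lit 0xf8ed407)) e
 (c z e
 (c (b (nat_lit 0x10d0a207)) e
 (c (b (nat_lit 0x10786807)) e
 (c z e
 (c z e
 (c z e
 (c z e
 (c (b (nat_lit 0x105c3023)) e e)))))))))
 (c (a (nat_lit 0x101f6001))
 (c z e
 (c z e
 (c (b (nat_lit 0xffe7a0d)) e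
 (c z e
 (c z e
 (c z e
 (c (b (nat_lit 0x1073da23)) e
 (c (b (nat_lit 0x1046ca23)) e e))))))))
 (c (a (nat_lit 0x101d4401))
 (c (b (nat_lit 0xfc7a20d)) e
 (c z e
 (c (b (nat_lit 0x1047360d)) e
 (c (nat_lit 0x7ffdb7f23e8000080000800008000080000d988d) e
 (c (b (nat_lit 0xfe31e23)) e
 (c (nat_lit 0x7cb407cb407cb407cb407c85f7cb407cb402b6a3) e
 (c z e
 (c z e
 (c (nat_lit 0x80000800008000084437844378443784437c3a40) e e)))))))))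
 (c (a (nat_lit 0x101ffe01))
 (c (b (nat_lit 0xf97ac0d)) e e)
 (c z e
 (c z e
 (c (a (nat_lit 0x100ad803)) e
 (c z e
 (c z e
 (c z e
 (c (a (nat_lit 0x10476005)) e
 (c (a (nat_lit 0x10089405)) e
 (c z e
 (c (a (nat_lit 0x100bf007)) e
 (c (a (nat_lit 0x10013207)) e
 (c z e
 (c z e
 (c (a (nat_lit 0x1005ec0d)) e
 (c (a (nat_lit 0x101eda0d)) e
 (c (a (nat_lit 0x101be20d)) e e)))))))))))))))))))))))))) Tr.c Tr.e (nat_lit 0) C.t6 C.t7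
noncomputable def tt199 : Tr := beta% (fun (c : Nat → Tr → Tr → Tr) (e : Tr) (z : Nat) (a b d : Nat → Nat) =>
 (c (a (nat_lit 0xfe03e00)) tt198
 (c (a (nat_lit 0xfe02000)) tt197
 (c (a (nat_lit 0xfe02400))
 (c (b (nat_lit 0x101f4200))
 (c z e
 (c z e
 (c z e
 (c z e
 (c z e
 (c z e
 (c z e
 (c z e
 (c (nat_lit 0x7ffa27ffa27ffa27fee97ffa27ffa27ffa21380d) e e)))))))))
 (c (b (nat_lit 0x101f5000))
 (c (nat_lit 0x7f5d37f5d37f5d37f5b47f5d37f5d37f5d3db985) e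
 (c z e
 (c z e
 (c z e
 (c z e
 (c z e
 (c z e
 (c z e
 (c z e
 (c z e
 (c z e
 (c z e
 (c (d (nat_lit 0x10880a25)) e e)))))))))))))
 (c (b (nat_lit 0x101fd001)) e
 (c (b (nat_lit 0x101fbc01)) e
 (c (b (nat_lit 0x101fa601)) e
 (c (b (nat_lit 0x101fe401)) e
 (c z
 (c (d (nat_lit 0xff12e15)) e e)
 (c (b (nat_lit 0x100eb003)) e
 (c (b (nat_lit 0x1026fe03)) e
 (c (b (nat_lit 0x1002a803)) e
 (c z e
 (c z e
 (c z e
 (c (nat_lit 0x7ff657ff658000080000800008000080045) e e))))))))))))))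
 (c (nat_lit 0x7f0107f0107f00e7f00f7f00fea400)
 (c (b (nat_lit 0x101fc401))
 (c (nat_lit 0x77f4877f4877f4877bdc77f4877f4877f4899005) e
 (c z e
 (c z e
 (c (d (nat_lit 0x1042ae07)) e
 (c z e
 (c z e
 (c z e
 (c z e
 (c z e
 (c (d (nat_lit 0xfffe215)) e e))))))))))
 (c (b (nat_lit 0x101fbc01))
 (c z e
 (c z e
 (c z e
 (c (nat_lit 0x7c9e37c9e37c59e7c9e37c9e37c9e37c9e312f8d) e
 (c z e
 (c z e
 (c (d (nat_lit 0xfff940d)) e
 (c z e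
 (c (nat_lit 0x800008000080000800007fc4c80000800008878f) e e)))))))))
 (c (nat_lit 0x80fee80fee80fee80feb80fec80fec6e0c1) e
 (c z
 (c z e
 (c z e
 (c (d (nat_lit 0xffffe0d)) e e)))
 (c (b (nat_lit 0xfdf1803)) e
 (c z
 (c (d (nat_lit 0xffe1415)) e e)
 (c (b (nat_lit 0x102c9a03)) e
 (c (b (nat_lit 0x10209403)) e
 (c (b (nat_lit 0x1022a405)) e
 (c (b (nat_lit 0x10160a05)) e
 (c z e
 (c (b (nat_lit 0x103f4405)) e
 (c z e
 (c (b (nat_lit 0x1011d007)) e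
 (c (b (nat_lit 0xfccd007)) e
 (c z e
 (c (b (nat_lit 0x101dc00d)) e
 (c (b (nat_lit 0x101a5e0d)) e
 (c (b (nat_lit 0x1009400d)) e
 (c (nat_lit 0x80bbc80bbc80aaa80bbc80bbc80bbc509cd) e
 (c (b (nat_lit 0x10227415)) e
 (c (nat_lit 0x8109380ed281093810938109381093b8255) e e)))))))))))))))))))))) tt196))))) Tr.c Tr.e (nat_lit 0) C.t5 C.t6 C.t7
noncomputable def tt200 : Tr := beta% (fun (c : Nat → Tr → Tr → Tr) (e : Tr) (z : Nat) (a b d : Nat → Nat) =>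
 (c (a (nat_lit 0x101ff600)) tt199
 (c (a (nat_lit 0x101ff400))
 (c (b (nat_lit 0xfe03200)) tt195 tt194)
 (c (a (nat_lit 0x101ff200)) tt193
 (c (nat_lit 0x80ffd80ffd80ffe80ffed69a0) tt192
 (c (a (nat_lit 0x101ffa00)) tt191
 (c (nat_lit 0x80ffb80ffb80ffb80ffc00f20) tt190
 (c (nat_lit 0x80ff580ff680ff680ff54ea80)
 (c (b (nat_lit 0xff0a800))
 (c (nat_lit 0x7e7437e7437e7437e7437e7437e120c1207) e
 (c z e
 (c z e
 (c (nat_lit 0x800007fdc47fdc4800008000080000dea07) e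
 (c (nat_lit 0x80000800008000080000800007ff5fe6447) e
 (c z e
 (c z e
 (c (d (nat_lit 0x1065740b)) e
 (c (d (nat_lit 0x10a5980b)) e
 (c (d (nat_lit 0x10d27a0b)) e e))))))))))
 (c (b (nat_lit 0xfe01e00))
 (c z e
 (c (d (nat_lit 0x1049a207)) e e))
 (c (b (nat_lit 0xfe00a01))
 (c (nat_lit 0x80000800008000080000800007fd69a1347) e e)
 (c (b (nat_lit 0xfe01001))
 (c z e
 (c (d (nat_lit 0x101f2a0b)) e e))
 (c (b (nat_lit 0xfdff801))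
 (c (nat_lit 0x8000080000800007fe268000080000d8d0b) e e)
 (c (nat_lit 0x7ed8e7ed907ed9e7ed9e7ed9eca461) e
 (c (b (nat_lit 0xfdac803)) e
 (c (nat_lit 0x7e2637e2307e2217e2217e263ee1a3) e
 (c z e
 (c (b (nat_lit 0xff4e203)) e
 (c (nat_lit 0x7f3247f3197f3177f3247f324712a5) e
 (c (nat_lit 0x7e4b77e4b77e4b07e4b67e4b74bbc5) e
 (c (b (nat_lit 0xfe0a405)) e
 (c (b (nat_lit 0xfeae805)) e
 (c (b (nat_lit 0xfcb0e07)) e
 (c (nat_lit 0x7e4c77e4c77e4a37e4857e4c7b6ec7) e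
 (c (b (nat_lit 0x1002c407)) e
 (c (nat_lit 0x7f0b77f0b57f0a17f0b77f0b7e3747) e
 (c (b (nat_lit 0xfef5209)) e
 (c (nat_lit 0x7fa027fa027fa027fa5b7fa5be1e89) e
 (c (b (nat_lit 0xfee340b)) e
 (c (nat_lit 0x7f7377f7377f7307f7377f7370308b) e
 (c (nat_lit 0x7fa2a7fa2a7fa2a7f9e37f9e358a8b) e
 (c (nat_lit 0x7f95e7f95e7f95e7f8987f898e200b) e
 (c (nat_lit 0x8000080000800007fc837fc83acb4c) e
 (c (nat_lit 0x800008000080000800007fd3526eec) e e))))))))))))))))))))))))))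
 (c (a (nat_lit 0x101ff600))
 (c (b (nat_lit 0xfe00401))
 (c (nat_lit 0x81c3b81c3b81c3b81c3b81c3b81bcb40a07) e
 (c (d (nat_lit 0x101d6809)) e
 (c (d (nat_lit 0x10349a09)) e
 (c (d (nat_lit 0x105f9009)) e
 (c (d (nat_lit 0x1047680b)) e
 (c (d (nat_lit 0x10602e0b)) e
 (c (d (nat_lit 0x108b3c0b)) e
 (c z e
 (c (nat_lit 0x800008000082cab82cab82cab82cab9b6e0) e e)))))))))
 (c (nat_lit 0x7f00c7f00c7f00b7f00c7f00cf8341)
 (c z e
 (c (d (nat_lit 0x10435c09)) e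
 (c (d (nat_lit 0x1032ea0b)) e
 (c (nat_lit 0x8204f8204f81ed48204f8204f8204f031cb) e
 (c (d (nat_lit 0x1028260b)) e e)))))
 (c (nat_lit 0x7f0267f0267f0267f01a7f01c88d61)
 (c z e
 (c z e
 (c (d (nat_lit 0x10152c0b)) e e)))
 (c (nat_lit 0x7f09d7f09d7f09d7f09d7f012ec7a1) e
 (c (b (nat_lit 0xfb0be03)) e
 (c (b (nat_lit 0xfb2ca03)) e
 (c z e
 (c (nat_lit 0x7ffc07ffc07ffc080000800005b0c3) e
 (c (b (nat_lit 0xfdf1805)) e
 (c (nat_lit 0x7cbfe7cbfe7cbf87cbee7cbfebd085) e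
 (c (nat_lit 0x8025d8025d8025d802068025df0205) e
 (c z e
 (c (b (nat_lit 0xfe24607)) e
 (c (b (nat_lit 0xfeaea07)) e
 (c z e
 (c (b (nat_lit 0xfe7bc07)) e
 (c (b (nat_lit 0xfef3609)) e
 (c (b (nat_lit 0xfe38209)) e
 (c (nat_lit 0x7fade7fade7fade7f9897f98912569) e
 (c (b (nat_lit 0xfeeea0b)) e
 (c (nat_lit 0x7f79b7f79b7f79b7f7807f79b14deb) e
 (c (b (nat_lit 0xfef640b)) e
 (c (nat_lit 0x7f8af7f8af7f8af7f8567f8563a28b) e
 (c (nat_lit 0x8000080000800007f61d7f61d6a56c) e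
 (c (nat_lit 0x800008000080000800007f5be42dac) e e))))))))))))))))))))))))) tt189))))))))) Tr.c Tr.e (nat_lit 0) C.t4 C.t5 C.t6
noncomputable def tt206 : Tr := beta% (fun (c : Nat → Tr → Tr → Tr) (e : Tr) (z : Nat) (a b d : Nat → Nat) =>
 (c (a (nat_lit 0xfdff600))
 (c (nat_lit 0x807ea807ea807da807da807da807dc50f01)
 (c (d (nat_lit 0x1067d60f)) e
 (c z e
 (c z e
 (c (d (nat_lit 0xfff820f)) e
 (c (nat_lit 0x80000800007ff478000080000800008000018993) e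
 (c (nat_lit 0x800008000080000800007fdc5800008000058092) e
 (c z e
 (c z e
 (c (nat_lit 0x8000080000800008000080000800007fff318a13) e e)))))))))
 (c (nat_lit 0x8100b8100b8100b80ffd80ffd81001072c1)
 (c z e
 (c z e
 (c z e
 (c (d (nat_lit 0x10aa9613)) e e))))
 (c (nat_lit 0x810be810be810be810be8106581069cf5c1) e
 (c (b (nat_lit 0x10130c02)) e
 (c (b (nat_lit 0x10153a03)) e
 (c (nat_lit 0x81a9481a9481a4d81a7d81a9481a9427d83) e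
 (c z e
 (c (nat_lit 0x8207182071820718207181f2c81f2cad643) e
 (c (nat_lit 0x849ce8498484984849f8849f8849f820086) e
 (c (b (nat_lit 0x10437207)) e
 (c (nat_lit 0x8000080000800007ffbe80000800005da87) e
 (c (b (nat_lit 0x100d4407)) e
 (c (b (nat_lit 0x10152407)) e
 (c (b (nat_lit 0x10238a0e)) e
 (c (b (nat_lit 0x1042e00f)) e
 (c (b (nat_lit 0x1015920f)) e
 (c (nat_lit 0x7ff6280000800008000080000800001ca4f) e
 (c z e
 (c (b (nat_lit 0x10163213)) e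
 (c (b (nat_lit 0x101c0c13)) e e))))))))))))))))))))
 (c (a (nat_lit 0xfe03800))
 (c (b (nat_lit 0x101f2a01)) e
 (c (b (nat_lit 0xfdc7602))
 (c (d (nat_lit 0x1027c822)) e e)
 (c z e
 (c z e
 (c z e
 (c z e
 (c (b (nat_lit 0xfcba206)) e
 (c z e
 (c z e
 (c z e
 (c (b (nat_lit 0x1085fa07)) e
 (c (b (nat_lit 0x107b140e)) e
 (c (b (nat_lit 0x1037600f)) e
 (c (b (nat_lit 0x10042e0f)) e
 (c z e
 (c (b (nat_lit 0x1019600f)) e
 (c z e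
 (c z e
 (c z e
 (c z e
 (c z e
 (c (nat_lit 0x80000800008000080000800007ff6ffc513) e e))))))))))))))))))))))
 (c (a (nat_lit 0xfdfae00))
 (c (b (nat_lit 0xffb0603))
 (c (nat_lit 0x8000080000800007ff528000080000800005fe12) e
 (c (nat_lit 0x8000080000800007ff6980000800008000077642) e e))
 (c z e
 (c (b (nat_lit 0x100cf203)) e
 (c z e
 (c (b (nat_lit 0x10313c06)) e
 (c (b (nat_lit 0x1054a407)) e
 (c z e
 (c (b (nat_lit 0x101dce07)) e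
 (c z e
 (c z e
 (c (b (nat_lit 0x10038a0f)) e
 (c (b (nat_lit 0xffd000f)) e
 (c z e
 (c (b (nat_lit 0x1003780f)) e
 (c (b (nat_lit 0x1008e211)) e
 (c (b (nat_lit 0x1009ca12)) e e))))))))))))))))
 (c (a (nat_lit 0xfe01200))
 (c (b (nat_lit 0x10274603)) e
 (c (b (nat_lit 0x10525c03)) e
 (c z e
 (c z e
 (c (b (nat_lit 0x1042d207)) e
 (c z e
 (c z e
 (c z e
 (c (b (nat_lit 0x10188e0f)) e
 (c (b (nat_lit 0x100bd00f)) e
 (c (b (nat_lit 0xffffe0f)) e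
 (c z e
 (c (b (nat_lit 0x10052c11)) e
 (c (nat_lit 0x807b5807d9807d9807d9807d9807d9f9591) e
 (c (nat_lit 0x80672807218072180721807218072134392) e e)))))))))))))))
 (c (a (nat_lit 0xfe01800))
 (c (b (nat_lit 0x1026b006)) e
 (c (b (nat_lit 0x10233407)) e
 (c (b (nat_lit 0xfe1aa07)) e
 (c z e
 (c z e
 (c z e
 (c (nat_lit 0x822488224882248821b68224882248b768f) e
 (c z e
 (c z e
 (c (b (nat_lit 0xffed60f)) e
 (c (b (nat_lit 0xffb2011)) e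
 (c (b (nat_lit 0x100b2211)) e
 (c (nat_lit 0x802a08059380593805938059380593e4a11) e e)))))))))))))
 (c (nat_lit 0x7f00d7f00a7f00b7f00a7f00d67f20)
 (c (nat_lit 0x833c5833c58323b833c5833c5833c5a1207) e
 (c z e
 (c z e
 (c (b (nat_lit 0x104e540e)) e
 (c (nat_lit 0x80ea480ea480e3f80ea080ea480ea41a90f) e
 (c z e
 (c z e
 (c (nat_lit 0x7ff687ffd17ffca800008000080000d680f) e
 (c (nat_lit 0x7fa957fa257fa527fa5e7fa957fa95a0a11) e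
 (c (b (nat_lit 0x10371811)) e
 (c (b (nat_lit 0x103ac011)) e
 (c (nat_lit 0x802b0802b0802b08022780225802b062551) e e))))))))))))
 (c (a (nat_lit 0xfe08200))
 (c z e
 (c z e
 (c z e
 (c z e
 (c z e
 (c z e
 (c (nat_lit 0x7ff1c7ff3b7ff3b7ff337ff137ff1362590) e
 (c (nat_lit 0x8000080000802bb802bb802bb802bbeaed0) e e))))))))
 (c (a (nat_lit 0xfe00e00))
 (c (nat_lit 0x8000080000800007ff558000080000eeecf) e
 (c z e
 (c z e
 (c (nat_lit 0x800007ffdf7ffdf8000080000800003c40f) e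
 (c (b (nat_lit 0x10212210)) e
 (c (b (nat_lit 0x10333c10)) e
 (c (nat_lit 0x800008000080a3b80a3b80a3b80a3b2ce90) e
 (c (nat_lit 0x80000800008000081044810448104464f10) e e))))))))
 (c (a (nat_lit 0xfe00200))
 (c z e
 (c (b (nat_lit 0x102aa20f)) e
 (c (b (nat_lit 0x10b9aa10)) e
 (c (b (nat_lit 0x10495e10)) e
 (c (b (nat_lit 0x100e1010)) e
 (c (nat_lit 0x800008000080f4b80f4b80f4b80f4bc2450) e
 (c (nat_lit 0x8000080000800008106b810018103ac9810) e e)))))))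
 (c (a (nat_lit 0xfdf8c00))
 (c (b (nat_lit 0x11000c10)) e
 (c (b (nat_lit 0x103ee810)) e
 (c (nat_lit 0x80cfd80cf180cfd80cfd80cfd80cfde1e50) e
 (c (b (nat_lit 0x1017e610)) e
 (c (nat_lit 0x800008000080de580de580de580de54b150) e
 (c (nat_lit 0x800008000080000802928029280292e0710) e e))))))
 (c (a (nat_lit 0xfdfd000)) e
 (c (a (nat_lit 0xfe00a00)) e
 (c (a (nat_lit 0xfdfd800)) e
 (c (a (nat_lit 0xfe03801)) e
 (c (nat_lit 0x7f02b7f02b7f01b7f01b7f01c27461) e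
 (c (nat_lit 0x7f0687f0687f0687f0287f02804e81) e
 (c (nat_lit 0x7f0a67f0a67f0a67f0a67f031dbce1) e
 (c (a (nat_lit 0xfe0e202)) e
 (c (a (nat_lit 0xfe18003)) e
 (c (a (nat_lit 0xfe4fa03)) e
 (c (a (nat_lit 0xff1d203)) e
 (c (a (nat_lit 0xff8fc03)) e
 (c (a (nat_lit 0xfe43206)) e
 (c (nat_lit 0x7f35f7f35f7f35e7f35f7f35f81247) e
 (c (a (nat_lit 0xfe55407)) e
 (c (a (nat_lit 0xfff5407)) e
 (c z e
 (c (nat_lit 0x7fd1d7fd1a7fcfc7fd1d7fd1d3ce2e) e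
 (c (nat_lit 0x7fce67fce67fcd27fcc17fce62bc8f) e
 (c (a (nat_lit 0xffca00f)) e
 (c (nat_lit 0x7ffd2800008000080000800005bc0f) e
 (c (a (nat_lit 0xfbea20f)) e e))))))))))))))))))))))))))))))))) Tr.c Tr.e (nat_lit 0) C.t5 C.t6 C.t7
noncomputable def tt207 : Tr := beta% (fun (c : Nat → Tr → Tr → Tr) (e : Tr) (z : Nat) (a b : Nat → Nat) =>
 (c (a (nat_lit 0x101f9800))
 (c z e
 (c (b (nat_lit 0xfcab607)) e
 (c z e
 (c (b (nat_lit 0xfea7e07)) e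
 (c z e
 (c z e
 (c z e
 (c (b (nat_lit 0x1020500f)) e
 (c z e
 (c z e
 (c (b (nat_lit 0x10912413)) e
 (c (b (nat_lit 0x107cf813)) e e))))))))))))
 (c (a (nat_lit 0x101f1e00))
 (c (b (nat_lit 0xf07da07)) e
 (c (b (nat_lit 0x1039d807)) e
 (c (b (nat_lit 0x1023a407)) e
 (c (nat_lit 0x80000800007ff75800008000080000800004f30e) e
 (c (nat_lit 0x7e8117e8117e8117e8117e7537e8117e811d520f) e
 (c z e
 (c z e
 (c (b (nat_lit 0x10214e0f)) e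
 (c (b (nat_lit 0x10382a13)) e
 (c z e
 (c (b (nat_lit 0x1039c016)) e
 (c z e
 (c (nat_lit 0x800008000080000800007ff5d80000800002c426) e e)))))))))))))
 (c (a (nat_lit 0x101fa400)) e
 (c (a (nat_lit 0x101f6c01)) e
 (c (a (nat_lit 0x10204001)) e
 (c (a (nat_lit 0x101f4401))
 (c z e
 (c (b (nat_lit 0xfbb1213)) e e))
 (c (a (nat_lit 0x10154c01)) e
 (c (a (nat_lit 0xfd5da02)) e
 (c (a (nat_lit 0x100c3403)) e
 (c z e
 (c z e
 (c (a (nat_lit 0x10630203)) e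
 (c z e
 (c (a (nat_lit 0x100e6607)) e
 (c z e
 (c (a (nat_lit 0xfebb207)) e
 (c z e
 (c (a (nat_lit 0x1026e40e)) e
 (c (a (nat_lit 0x1027e20f)) e
 (c (a (nat_lit 0x1006620f)) e
 (c (nat_lit 0x800007fef2800008000080000800003934f) e
 (c (a (nat_lit 0x1014580f)) e
 (c (nat_lit 0x80ab280ab280ab280a4980a4980ab22c313) e
 (c (nat_lit 0x80bb680c2680c2680c2680c2680c269c4d3) e e))))))))))))))))))))))))) Tr.c Tr.e (nat_lit 0) C.t6 C.t7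
noncomputable def tt208 : Tr := beta% (fun (c : Nat → Tr → Tr → Tr) (e : Tr) (z : Nat) (a b : Nat → Nat) =>
 (c (a (nat_lit 0x101ee800))
 (c (b (nat_lit 0xff67e03)) e
 (c (b (nat_lit 0xec20e03)) e
 (c z e
 (c (b (nat_lit 0xf80c406)) e
 (c (nat_lit 0x8000080000800007ffdb8000080000800004c006) e
 (c (nat_lit 0x7c8207c8207c8207c8207c8187c8207c820f9887) e
 (c z e
 (c (b (nat_lit 0xfffe407)) e
 (c (b (nat_lit 0x1024340e)) e
 (c z e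
 (c z e
 (c z e
 (c z e
 (c (b (nat_lit 0xffdea13)) e
 (c z e
 (c (b (nat_lit 0xfffee30)) e e))))))))))))))))
 (c (a (nat_lit 0x101f9600))
 (c z e
 (c z e
 (c z e
 (c z e
 (c z e
 (c z e
 (c z e
 (c z e
 (c z e
 (c z e
 (c z e
 (c z e
 (c z e
 (c (b (nat_lit 0xfe9b026)) e
 (c (b (nat_lit 0xf9b6a30)) e e)))))))))))))))
 (c (a (nat_lit 0x101f0800)) e
 (c (a (nat_lit 0x101f9800)) e
 (c (a (nat_lit 0x101fae00))
 (c z e
 (c z e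
 (c z e
 (c z e
 (c z e
 (c z e
 (c z e
 (c z e
 (c (b (nat_lit 0xfffb040)) e e)))))))))
 (c (a (nat_lit 0x10207e01))
 (c z e
 (c z e
 (c z e
 (c z e
 (c z e
 (c (nat_lit 0x8000080000800007fd36800008000080000ca222) e e))))))
 (c (a (nat_lit 0x10200601))
 (c (nat_lit 0x7e6297e6297e6297e6297e59c7e6297e6296c80f) e
 (c z e
 (c (b (nat_lit 0x102c4616)) e e)))
 (c (nat_lit 0x8101a8101a8101a810008100081006d7181)
 (c z e
 (c (b (nat_lit 0xfff8221)) e e))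
 (c z
 (c (b (nat_lit 0xfd6ae21)) e e)
 (c (a (nat_lit 0x1024b602)) e
 (c (a (nat_lit 0x10148603)) e
 (c z e
 (c (a (nat_lit 0x100ab003)) e
 (c z e
 (c z e
 (c (a (nat_lit 0x10017007)) e
 (c (a (nat_lit 0xfc42807)) e
 (c (a (nat_lit 0xffb5807)) e
 (c z e
 (c (a (nat_lit 0x1014d40e)) e
 (c (a (nat_lit 0x1018160f)) e
 (c (a (nat_lit 0x100f600f)) e
 (c z e
 (c (a (nat_lit 0x1016240f)) e
 (c (a (nat_lit 0x101ee413)) e
 (c z e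
 (c z e
 (c (nat_lit 0x800008000080000800007ffe880000a8ad7) e
 (c z e
 (c z e
 (c z e
 (c (nat_lit 0x80000800008000080000800007ff370f45e) e e))))))))))))))))))))))))))))))))) Tr.c Tr.e (nat_lit 0) C.t6 C.t7
noncomputable def tt209 : Tr := beta% (fun (c : Nat → Tr → Tr → Tr) (e : Tr) (z : Nat) (a b : Nat → Nat) =>
 (c (a (nat_lit 0x101eb000))
 (c (b (nat_lit 0xfc32e01)) e
 (c (b (nat_lit 0xfe20402)) e
 (c z e
 (c (b (nat_lit 0xffe2003)) e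
 (c (nat_lit 0x800008000080000800007fe72800008000055a82) e
 (c (b (nat_lit 0xfe7a803)) e
 (c z e
 (c (b (nat_lit 0xfc5fc07)) e
 (c (nat_lit 0x7f54d7f54d7f3887f54d7f54d7f54d7f54d72487) e
 (c (b (nat_lit 0xfe6b207)) e
 (c z e
 (c (b (nat_lit 0x104b840e)) e
 (c (nat_lit 0x8000080000800007ff888000080000800008ce8f) e
 (c (b (nat_lit 0x105c7c0f)) e
 (c (b (nat_lit 0x100e2c0f)) e
 (c (b (nat_lit 0xfff5c0f)) e
 (c (b (nat_lit 0xfffbc16)) e e)))))))))))))))))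
 (c (a (nat_lit 0x101f4600))
 (c (nat_lit 0x8000080000800008000080000800007ffb3bc480) e
 (c (b (nat_lit 0xf31aa03)) e
 (c z e
 (c z e
 (c z e
 (c (b (nat_lit 0xfe95c07)) e
 (c z e
 (c (b (nat_lit 0xfffb207)) e
 (c z e
 (c (b (nat_lit 0x1025e00e)) e
 (c (b (nat_lit 0xfc7a00f)) e
 (c z e
 (c z e
 (c z e
 (c z e
 (c (b (nat_lit 0xfde6826)) e e))))))))))))))))
 (c (a (nat_lit 0x101f6800))
 (c z e
 (c z e
 (c z e
 (c z e
 (c z e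
 (c z e
 (c z e
 (c (b (nat_lit 0x102bae0e)) e
 (c z e
 (c z e
 (c z e
 (c z e
 (c z e
 (c (b (nat_lit 0xfb9e823)) e
 (c (b (nat_lit 0xfff0226)) e e)))))))))))))))
 (c (a (nat_lit 0x101f4200))
 (c z e
 (c z e
 (c z e
 (c z e
 (c z e
 (c z e
 (c (b (nat_lit 0xfbf760f)) e
 (c z e
 (c z e
 (c z e
 (c (b (nat_lit 0xfae1016)) e
 (c (b (nat_lit 0xf98e423)) e e))))))))))))
 (c (a (nat_lit 0x101f2400))
 (c (nat_lit 0x7d4fc7d4fc7d3ff7d4fc7d4fc7d4fc7d4fcf6587) e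
 (c z e
 (c z e
 (c z e
 (c z e
 (c (b (nat_lit 0xee52a0f)) e
 (c z e
 (c z e
 (c (b (nat_lit 0x10905216)) e
 (c (nat_lit 0x80000800007ff7e80000800008000080000d8023) e e))))))))))
 (c (a (nat_lit 0x101f4000))
 (c z e
 (c z e
 (c z e
 (c z e
 (c z e
 (c z e
 (c (b (nat_lit 0x108c9216)) e
 (c z e
 (c (b (nat_lit 0xfff7440)) e e)))))))))
 (c (a (nat_lit 0x1020e800))
 (c (b (nat_lit 0xfa4300f)) e e)
 (c (a (nat_lit 0x101ec201))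
 (c z e
 (c z e
 (c z e
 (c z e
 (c (b (nat_lit 0x10299422)) e e)))))
 (c (nat_lit 0x81011810118100381003810038100696dc1)
 (c z e
 (c z e
 (c z e
 (c (b (nat_lit 0xfffda22)) e e))))
 (c (a (nat_lit 0x101cd001))
 (c (b (nat_lit 0xf8e2821)) e e)
 (c (a (nat_lit 0x10143601)) e
 (c z e
 (c (a (nat_lit 0x10053a03)) e
 (c (a (nat_lit 0x10187803)) e
 (c (a (nat_lit 0x1019aa03)) e
 (c (a (nat_lit 0x101a9003)) e
 (c (a (nat_lit 0x1013c806)) e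
 (c (a (nat_lit 0x100ba807)) e
 (c (a (nat_lit 0x100cbc07)) e
 (c (a (nat_lit 0xff40c07)) e
 (c (a (nat_lit 0x10069207)) e
 (c (a (nat_lit 0x101fde0e)) e
 (c (a (nat_lit 0x101d060f)) e
 (c (a (nat_lit 0x101b460f)) e
 (c (a (nat_lit 0xfff8e0f)) e
 (c (nat_lit 0x7ff767ff7680000800008000080000fcfcf) e
 (c (a (nat_lit 0x10119e16)) e
 (c (nat_lit 0x8000080000800008042a8042a8042a65dd7) e e))))))))))))))))))))))))))))) Tr.c Tr.e (nat_lit 0) C.t6 C.t7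
noncomputable def tt210 : Tr := beta% (fun (c : Nat → Tr → Tr → Tr) (e : Tr) (z : Nat) (a b : Nat → Nat) =>
 (c (a (nat_lit 0x101faa00))
 (c (b (nat_lit 0xfd08601)) e
 (c (b (nat_lit 0xfddde01)) e
 (c (b (nat_lit 0xfe21601)) e
 (c (b (nat_lit 0xfe37201)) e
 (c (b (nat_lit 0xfd2d802)) e
 (c (nat_lit 0x7e6167e4367e6167e6167e6167e6167e61649d83) e
 (c (b (nat_lit 0xfce1a03)) e
 (c (b (nat_lit 0xfea3803)) e
 (c (b (nat_lit 0xfe76203)) e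
 (c z e
 (c z e
 (c z e
 (c (b (nat_lit 0xfff8e07)) e
 (c z e
 (c z e
 (c (b (nat_lit 0xfd6dc0f)) e
 (c (b (nat_lit 0xfeeb40f)) e
 (c z e
 (c z e
 (c z e
 (c (b (nat_lit 0xffe5e17)) e
 (c (b (nat_lit 0xfff6e17)) e
 (c (b (nat_lit 0xffcca17)) e e)))))))))))))))))))))))
 (c (a (nat_lit 0x101f3600))
 (c (b (nat_lit 0xfe40e01)) e
 (c (b (nat_lit 0xfe31a01)) e
 (c (b (nat_lit 0xfd50e02)) e
 (c (b (nat_lit 0xfdac403)) e
 (c (b (nat_lit 0xfffdc03)) e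
 (c z e
 (c z e
 (c (b (nat_lit 0xfdd9a06)) e
 (c (b (nat_lit 0xfda5c07)) e
 (c (b (nat_lit 0xfa1b207)) e
 (c z e
 (c z e
 (c z e
 (c z e
 (c (b (nat_lit 0x1071760f)) e
 (c z e
 (c z e
 (c z e
 (c (b (nat_lit 0xffeb417)) e
 (c (b (nat_lit 0x10168817)) e e))))))))))))))))))))
 (c (a (nat_lit 0x101f7200))
 (c (b (nat_lit 0xfe2d402)) e
 (c z e
 (c z e
 (c z e
 (c (b (nat_lit 0xfda6803)) e
 (c z e
 (c z e
 (c z e
 (c (b (nat_lit 0x1044ce07)) e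
 (c z e
 (c z e
 (c (b (nat_lit 0x1030860f)) e
 (c z e
 (c z e
 (c z e
 (c (b (nat_lit 0x1031dc17)) e e))))))))))))))))
 (c (a (nat_lit 0x101f7600))
 (c z e
 (c (nat_lit 0x8000080000800007fed98000080000800003e283) e
 (c z e
 (c (b (nat_lit 0xfff8606)) e
 (c (b (nat_lit 0xff84207)) e
 (c (b (nat_lit 0xff73e07)) e
 (c z e
 (c z e
 (c (b (nat_lit 0xfee040e)) e
 (c z e
 (c (b (nat_lit 0x1039960f)) e
 (c z e
 (c z e
 (c (b (nat_lit 0xfea8a17)) e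
 (c (nat_lit 0x7f4c07f4887f4c07f4987f4c07f4c07f4c04e617) e
 (c z e
 (c z e
 (c z e
 (c (nat_lit 0x80000800008000080000800007ff9580000d779e) e e)))))))))))))))))))
 (c (a (nat_lit 0x101f0400))
 (c z e
 (c (b (nat_lit 0xfdece06)) e
 (c z e
 (c z e
 (c (b (nat_lit 0xfb54007)) e
 (c (b (nat_lit 0xffa1407)) e
 (c (b (nat_lit 0xfdade0e)) e
 (c z e
 (c z e
 (c z e
 (c (b (nat_lit 0xfc7ae0f)) e
 (c (b (nat_lit 0xfb0de17)) e
 (c (b (nat_lit 0xfffce17)) e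
 (c (b (nat_lit 0xfde1817)) e e))))))))))))))
 (c (a (nat_lit 0x101f9600))
 (c z e
 (c z e
 (c z e
 (c (b (nat_lit 0xfd80407)) e
 (c (b (nat_lit 0xf8a5e0e)) e
 (c z e
 (c z e
 (c z e
 (c z e
 (c z e
 (c (nat_lit 0x7c7f17c7f17c7f17c7857c7f17c7f17c7f1bfb97) e
 (c z e
 (c (b (nat_lit 0xfff6017)) e e)))))))))))))
 (c (a (nat_lit 0x101f6000))
 (c z e
 (c (b (nat_lit 0x10200a07)) e
 (c z e
 (c z e
 (c (b (nat_lit 0x101fba0f)) e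
 (c z e
 (c z e
 (c (b (nat_lit 0x1051aa17)) e
 (c z e
 (c z e
 (c (b (nat_lit 0xff4f617)) e e)))))))))))
 (c (a (nat_lit 0x101f6600))
 (c (nat_lit 0x7e9f57e9f57e9e27e9f57e9f57e9f57e9f58230e) e
 (c (b (nat_lit 0xffc060f)) e
 (c (nat_lit 0x800008000080000800007fdeb7fce7800001e58f) e
 (c z e
 (c z e
 (c z e
 (c (b (nat_lit 0x100f9417)) e e)))))))
 (c (a (nat_lit 0x10204e00))
 (c (b (nat_lit 0xffc520f)) e
 (c z e
 (c (b (nat_lit 0xfdcce0f)) e e)))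
 (c (nat_lit 0x80ffa80fef80fef80fef80fef80ff547701)
 (c z e
 (c (nat_lit 0x7ffa37ffa37ffa37ffa37ffa37ffa37fabdbc817) e e))
 (c (nat_lit 0x80fe480fe480fdd80fe080fdb80fe123341) e
 (c (a (nat_lit 0x101e9601)) e
 (c (nat_lit 0x809ca80ab480ab480ab480ab480ab479f81) e
 (c z e
 (c (a (nat_lit 0x100cba03)) e
 (c (a (nat_lit 0x102d9c03)) e
 (c (a (nat_lit 0x10212e03)) e
 (c (a (nat_lit 0x1029dc03)) e
 (c (a (nat_lit 0x10126e06)) e
 (c (a (nat_lit 0x100b0e07)) e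
 (c (a (nat_lit 0x10005c07)) e
 (c z e
 (c z e
 (c (nat_lit 0x8095080918809508095080950809506620e) e
 (c (a (nat_lit 0x100ea60f)) e
 (c (nat_lit 0x803eb806f5806f5806f5806f5806f516c8f) e
 (c z e
 (c (nat_lit 0x80c6980c2380c2380c6980c6980c693904f) e
 (c (nat_lit 0x80dc280e3d80e3d80e2b80e3d80e3d60857) e
 (c (nat_lit 0x80eb880e7f80eb880eb880eb880eb86bb57) e
 (c (a (nat_lit 0x100c9017)) e
 (c (a (nat_lit 0x100f4c17)) e e))))))))))))))))))))))))))))))))) Tr.c Tr.e (nat_lit 0) C.t6 C.t7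
noncomputable def tt211 : Tr := beta% (fun (c : Nat → Tr → Tr → Tr) (e : Tr) (z : Nat) (a b : Nat → Nat) =>
 (c (a (nat_lit 0x101f5400))
 (c (b (nat_lit 0xfe16200)) e
 (c (b (nat_lit 0xfe2e601)) e
 (c (b (nat_lit 0xfdb5601)) e
 (c (b (nat_lit 0xfedfc01)) e
 (c (b (nat_lit 0xfe43c01)) e
 (c (b (nat_lit 0xfe01402)) e
 (c (b (nat_lit 0xfffb603)) e
 (c (b (nat_lit 0xfe26603)) e
 (c (b (nat_lit 0xfe89203)) e
 (c (b (nat_lit 0xfee3a03)) e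
 (c z e
 (c z e
 (c (b (nat_lit 0xff5d007)) e
 (c z e
 (c z e
 (c z e
 (c (b (nat_lit 0xfe7200f)) e
 (c (b (nat_lit 0x101dfe0f)) e
 (c z e
 (c z e
 (c (b (nat_lit 0x10086417)) e
 (c (b (nat_lit 0x100b1c17)) e
 (c (b (nat_lit 0xffaae17)) e
 (c (nat_lit 0x800007fe6c80000800008000080000800005211e) e e))))))))))))))))))))))))
 (c (a (nat_lit 0x101f5000))
 (c (b (nat_lit 0xfe3b201)) e
 (c (b (nat_lit 0xfea0e01)) e
 (c (nat_lit 0x7f3167f3167f3167f3167f30e7f30e7f30e7ae01) e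
 (c (b (nat_lit 0xfd7d402)) e
 (c (nat_lit 0x7f5c17f5c17f4e47f5c17f5c17f5c17f0f6a8683) e
 (c (b (nat_lit 0xfb55603)) e
 (c z e
 (c z e
 (c z e
 (c z e
 (c z e
 (c (b (nat_lit 0x103c5007)) e
 (c z e
 (c z e
 (c z e
 (c (b (nat_lit 0xfff340f)) e
 (c (b (nat_lit 0xfffba0f)) e
 (c z e
 (c (b (nat_lit 0xffdec17)) e
 (c z e
 (c z e
 (c (b (nat_lit 0xffe961e)) e e))))))))))))))))))))))
 (c (a (nat_lit 0x101f3800))
 (c (b (nat_lit 0xfe3aa01)) e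
 (c (b (nat_lit 0xfafee02)) e
 (c z e
 (c z e
 (c z e
 (c z e
 (c z e
 (c z e
 (c z e
 (c z e
 (c z e
 (c z e
 (c z e
 (c z e
 (c z e
 (c (b (nat_lit 0x1012f20f)) e
 (c z e
 (c z e
 (c (nat_lit 0x7ff1b80000800008000080000800008000003317) e
 (c (nat_lit 0x7ffee7fdf87ffee7ffee7ffee7ffee7ffee1bf1e) e e))))))))))))))))))))
 (c (a (nat_lit 0x101f7e00))
 (c (b (nat_lit 0xfe0fc03)) e
 (c z e
 (c z e
 (c z e
 (c z e
 (c (nat_lit 0x8000080000800007ffec8000080000800004c606) e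
 (c (b (nat_lit 0xff5dc07)) e
 (c z e
 (c z e
 (c z e
 (c z e
 (c z e
 (c z e
 (c z e
 (c z e
 (c (nat_lit 0x800007fbf7800008000080000800008000048917) e
 (c (nat_lit 0x80000800007fb06800008000080000800008e697) e
 (c (b (nat_lit 0xfe0461e)) e e))))))))))))))))))
 (c (a (nat_lit 0x101ec400))
 (c (b (nat_lit 0x10187603)) e
 (c (b (nat_lit 0xff2d203)) e
 (c (b (nat_lit 0xfe41e06)) e
 (c (nat_lit 0x7f90e7f90e7f90e7f8d07f90e7f90e7f90e16887) e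
 (c (b (nat_lit 0xfdb8607)) e
 (c (b (nat_lit 0xffab607)) e
 (c z e
 (c z e
 (c z e
 (c z e
 (c z e
 (c z e
 (c (b (nat_lit 0x1006b617)) e
 (c z e
 (c (nat_lit 0x800007fe14800008000080000800008000082817) e
 (c (b (nat_lit 0xfff401e)) e e))))))))))))))))
 (c (a (nat_lit 0x10201e00))
 (c z e
 (c z e
 (c z e
 (c (b (nat_lit 0x101e4007)) e
 (c (b (nat_lit 0x10195607)) e
 (c z e
 (c z e
 (c (b (nat_lit 0x103cf20f)) e
 (c z e
 (c z e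
 (c (b (nat_lit 0xf799217)) e
 (c z e
 (c z e
 (c (nat_lit 0x800007fd4380000800008000080000800008c39e) e e))))))))))))))
 (c (a (nat_lit 0x101f2600))
 (c z e
 (c (b (nat_lit 0x104e6407)) e
 (c (b (nat_lit 0x10118e07)) e
 (c (b (nat_lit 0x1029580e)) e e))))
 (c (a (nat_lit 0x10201a00))
 (c z e
 (c (b (nat_lit 0xfef6a0e)) e
 (c (nat_lit 0x800008000080000800007fe097fe26800009480e) e
 (c z e
 (c z e
 (c (b (nat_lit 0xf68120f)) e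
 (c z e
 (c (b (nat_lit 0xffd0417)) e
 (c z e
 (c (b (nat_lit 0xfffb01e)) e e))))))))))
 (c (a (nat_lit 0x101ef600))
 (c (b (nat_lit 0xfcc160f)) e
 (c (b (nat_lit 0xfff000f)) e e))
 (c (a (nat_lit 0x101e7000))
 (c z e
 (c z e
 (c z e
 (c z e
 (c z e
 (c (b (nat_lit 0x104ba61e)) e e))))))
 (c (a (nat_lit 0x10207201)) e
 (c (a (nat_lit 0x101efa01)) e
 (c (a (nat_lit 0x1014ae01)) e
 (c z e
 (c z e
 (c (a (nat_lit 0x1030f003)) e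
 (c (a (nat_lit 0x10251803)) e
 (c (a (nat_lit 0x1025a003)) e
 (c (a (nat_lit 0x1009fe03)) e
 (c (a (nat_lit 0x10097e06)) e
 (c (a (nat_lit 0x100c4c07)) e
 (c z e
 (c (a (nat_lit 0xffb6407)) e
 (c (a (nat_lit 0xfe9d207)) e
 (c z e
 (c (nat_lit 0x7fe1780000800008000080000800006ca8f) e
 (c z e
 (c z e
 (c (nat_lit 0x800007ffca7ffca80000800008000011d4f) e
 (c z e
 (c z e
 (c z e
 (c (a (nat_lit 0x1010e61e)) e e)))))))))))))))))))))))))))))))))) Tr.c Tr.e (nat_lit 0) C.t6 C.t7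
noncomputable def tt212 : Tr := beta% (fun (c : Nat → Tr → Tr → Tr) (e : Tr) (z : Nat) (a b : Nat → Nat) =>
 (c (a (nat_lit 0x101fb800))
 (c (b (nat_lit 0xfe2c401)) e
 (c (b (nat_lit 0xfe32801)) e
 (c (b (nat_lit 0xfe26401)) e
 (c (b (nat_lit 0xfe50e01)) e
 (c (b (nat_lit 0xfe20002)) e
 (c z e
 (c z e
 (c (b (nat_lit 0xfed4a03)) e
 (c z e
 (c z e
 (c z e
 (c z e
 (c z e
 (c z e
 (c (b (nat_lit 0x100d2e0e)) e
 (c (b (nat_lit 0x100dc20f)) e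
 (c z e
 (c z e
 (c z e
 (c z e
 (c (nat_lit 0x7fe7c80000800008000080000800008000060f97) e
 (c (b (nat_lit 0xfff781e)) e e))))))))))))))))))))))
 (c (a (nat_lit 0x101f1800))
 (c (b (nat_lit 0xfe3ca01)) e
 (c (b (nat_lit 0xfe2a601)) e
 (c (b (nat_lit 0xfe31402)) e
 (c (b (nat_lit 0xfeefc03)) e
 (c (b (nat_lit 0xfe28003)) e
 (c (nat_lit 0x800008000080000800007feed7fe6a80000a6982) e
 (c z e
 (c z e
 (c z e
 (c (b (nat_lit 0x10193e07)) e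
 (c z e
 (c z e
 (c z e
 (c (b (nat_lit 0x1036aa0f)) e
 (c z e
 (c z e
 (c z e
 (c z e
 (c z e
 (c z e
 (c (nat_lit 0x7ffbe7ff937ff597ffbe7ffbe7ffbe7ffbef7f32) e
 (c z e
 (c z e
 (c (nat_lit 0x80000800008000080000800007fe07800008609f) e e))))))))))))))))))))))))
 (c (a (nat_lit 0x101f9e00))
 (c (b (nat_lit 0xfd2b802)) e
 (c z e
 (c (b (nat_lit 0xfff8603)) e
 (c z e
 (c z e
 (c z e
 (c z e
 (c z e
 (c z e
 (c (b (nat_lit 0x1062f407)) e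
 (c z e
 (c z e
 (c z e
 (c z e
 (c z e
 (c (nat_lit 0x7ff067ff7480000800008000080000800009f417) e
 (c z e
 (c (nat_lit 0x80000800007fff37ffd68000080000800001619e) e
 (c (nat_lit 0x8000080000800007ff6f7ff5c8000080000a8bb1) e e)))))))))))))))))))
 (c (a (nat_lit 0x101f4a00))
 (c z e
 (c z e
 (c z e
 (c z e
 (c z e
 (c z e
 (c z e
 (c z e
 (c (b (nat_lit 0x10354c0e)) e
 (c z e
 (c z e
 (c z e
 (c z e
 (c (b (nat_lit 0xffd1817)) e e))))))))))))))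
 (c (a (nat_lit 0x101ffa00))
 (c z e
 (c z e
 (c z e
 (c (b (nat_lit 0x102e5e07)) e
 (c z e
 (c z e
 (c (b (nat_lit 0x1036500e)) e
 (c z e
 (c z e
 (c z e
 (c z e
 (c z e
 (c z e
 (c z e
 (c (b (nat_lit 0xfff7823)) e e)))))))))))))))
 (c (a (nat_lit 0x101f9e00))
 (c z e
 (c z e
 (c z e
 (c z e
 (c z e
 (c z e
 (c z e
 (c z e
 (c z e
 (c (b (nat_lit 0xff8dc17)) e e))))))))))
 (c (a (nat_lit 0x101fc800))
 (c z e
 (c z e
 (c z e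
 (c z e
 (c z e
 (c z e
 (c z e
 (c z e
 (c z e
 (c (nat_lit 0x800007ffa080000800008000080000800002ae9e) e
 (c z e
 (c z e
 (c (nat_lit 0x800008000080000800007ff0f800008000037fb0) e e)))))))))))))
 (c (a (nat_lit 0x101f5600))
 (c z e
 (c (b (nat_lit 0xffefe0f)) e
 (c (b (nat_lit 0xfedc60f)) e
 (c z e
 (c z e
 (c z e
 (c z e
 (c z e
 (c (nat_lit 0x80000800008000080000800007feb18000054d9e) e e)))))))))
 (c (a (nat_lit 0x101fa200))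
 (c z e
 (c z e
 (c z e
 (c z e
 (c z e
 (c (b (nat_lit 0x100c241e)) e e))))))
 (c (a (nat_lit 0x101f9400))
 (c z e
 (c (b (nat_lit 0xfffec17)) e e))
 (c (a (nat_lit 0x101e5c01)) e
 (c (a (nat_lit 0x101fda01)) e
 (c z e
 (c z e
 (c (a (nat_lit 0x10102802)) e
 (c (a (nat_lit 0x101e3a03)) e
 (c (a (nat_lit 0x1017b603)) e
 (c (a (nat_lit 0x1016dc03)) e
 (c z e
 (c (a (nat_lit 0x100b6406)) e
 (c (a (nat_lit 0x1009f807)) e
 (c z e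
 (c z e
 (c z e
 (c z e
 (c z e
 (c z e
 (c z e
 (c (a (nat_lit 0xff8ce0f)) e e)))))))))))))))))))))))))))))) Tr.c Tr.e (nat_lit 0) C.t6 C.t7
noncomputable def tt213 : Tr := beta% (fun (c : Nat → Tr → Tr → Tr) (e : Tr) (z : Nat) (a b : Nat → Nat) =>
 (c (a (nat_lit 0x101efc00))
 (c (b (nat_lit 0xfe92800)) e
 (c (b (nat_lit 0xfe28c00)) e
 (c (b (nat_lit 0xfe4be00)) e
 (c (b (nat_lit 0xfe20000)) e
 (c (b (nat_lit 0xfe39c00)) e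
 (c (b (nat_lit 0xfe22600)) e
 (c (b (nat_lit 0xfe2a401)) e
 (c (nat_lit 0x7f1237f1237f1217f1217f1237f1237f123cc301) e
 (c (b (nat_lit 0xfe23801)) e
 (c (b (nat_lit 0xfe81a01)) e
 (c (b (nat_lit 0xfdec602)) e
 (c (b (nat_lit 0xfdd6003)) e
 (c z e
 (c (b (nat_lit 0xfee8a03)) e
 (c (b (nat_lit 0xfff0c03)) e
 (c (b (nat_lit 0xfff5206)) e
 (c z e
 (c (b (nat_lit 0xfd0fa07)) e
 (c (b (nat_lit 0xfed8e07)) e
 (c z e
 (c z e
 (c z e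
 (c z e
 (c z e
 (c (b (nat_lit 0xffcb80f)) e
 (c z e
 (c (b (nat_lit 0xfff9817)) e e)))))))))))))))))))))))))))
 (c (a (nat_lit 0x101faa00))
 (c (b (nat_lit 0xfe0e000)) e
 (c (b (nat_lit 0xfe36000)) e
 (c (b (nat_lit 0xfe21600)) e
 (c (b (nat_lit 0xfe39c00)) e
 (c (b (nat_lit 0xff01201)) e
 (c (b (nat_lit 0xfe32201)) e
 (c (b (nat_lit 0xfe1a801)) e
 (c (b (nat_lit 0xfe26a01)) e
 (c (b (nat_lit 0xfe11a02)) e
 (c (b (nat_lit 0xff18603)) e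
 (c (b (nat_lit 0xff41603)) e
 (c (b (nat_lit 0xffd7203)) e
 (c (b (nat_lit 0xfefc403)) e
 (c (b (nat_lit 0xfffe006)) e
 (c z e
 (c z e
 (c (b (nat_lit 0x100a1807)) e
 (c z e
 (c z e
 (c z e
 (c (b (nat_lit 0xffed20f)) e
 (c z e
 (c (b (nat_lit 0x100de80f)) e e)))))))))))))))))))))))
 (c (a (nat_lit 0x101e8800))
 (c (b (nat_lit 0xfe40c00)) e
 (c (b (nat_lit 0xfe30800)) e
 (c (b (nat_lit 0xfe2ca01)) e
 (c (b (nat_lit 0xfe37c01)) e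
 (c (b (nat_lit 0xfe3b201)) e
 (c (b (nat_lit 0xfdf7001)) e
 (c (b (nat_lit 0xfc7d602)) e
 (c (b (nat_lit 0xfe64c03)) e
 (c (b (nat_lit 0xfed5803)) e
 (c z e
 (c (b (nat_lit 0xfee4603)) e
 (c z e
 (c z e
 (c z e
 (c z e
 (c z e
 (c z e
 (c z e
 (c z e
 (c z e
 (c z e
 (c (b (nat_lit 0x100c0417)) e
 (c (b (nat_lit 0x10144a17)) e e))))))))))))))))))))))) tt212)))) Tr.c Tr.e (nat_lit 0) C.t6 C.t7
noncomputable def tt214 : Tr := beta% (fun (c : Nat → Tr → Tr → Tr) (e : Tr) (z : Nat) (a b : Nat → Nat) =>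
 (c (a (nat_lit 0x101fa600))
 (c (b (nat_lit 0xfe0cc00)) e
 (c (b (nat_lit 0xfe29201)) e
 (c (nat_lit 0x7f1b67ef967f1b67f1b67f1b67f1b67f1b608601) e
 (c (b (nat_lit 0xfe27001)) e
 (c (b (nat_lit 0xfe2da01)) e
 (c (b (nat_lit 0xfe37002)) e
 (c (b (nat_lit 0xfe69c03)) e
 (c (b (nat_lit 0xfeefa03)) e
 (c (b (nat_lit 0xff63e03)) e
 (c z e
 (c z e
 (c z e
 (c (b (nat_lit 0xffe9407)) e
 (c (b (nat_lit 0x100ca207)) e
 (c z e
 (c (b (nat_lit 0x100e500e)) e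
 (c z e
 (c z e
 (c z e
 (c (b (nat_lit 0xfffea0f)) e e))))))))))))))))))))
 (c (a (nat_lit 0x101f8600))
 (c (b (nat_lit 0xfe77801)) e
 (c (b (nat_lit 0xfe28001)) e
 (c (b (nat_lit 0xfe2dc01)) e
 (c (b (nat_lit 0xfe2ee02)) e
 (c (b (nat_lit 0xfe81e03)) e
 (c (b (nat_lit 0xfe38e03)) e
 (c (b (nat_lit 0xff6c403)) e
 (c z e
 (c z e
 (c z e
 (c z e
 (c (b (nat_lit 0x103e1a07)) e
 (c (b (nat_lit 0xfd73407)) e
 (c z e
 (c z e
 (c z e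
 (c z e
 (c (b (nat_lit 0xfffe60f)) e e))))))))))))))))))
 (c (a (nat_lit 0x101f4200))
 (c (nat_lit 0x7d6977d6977d6977d6927d6977d6977d69797b81) e
 (c (nat_lit 0x7f1547f1547f1547f1547f0c87f1547f1540f582) e
 (c z e
 (c (b (nat_lit 0xfda0803)) e
 (c z e
 (c z e
 (c z e
 (c z e
 (c z e
 (c (b (nat_lit 0x102cc007)) e
 (c z e
 (c z e
 (c (b (nat_lit 0x10202e0f)) e
 (c (b (nat_lit 0xfff680f)) e
 (c z e
 (c z e
 (c z e
 (c (b (nat_lit 0xffff01e)) e e))))))))))))))))))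
 (c (a (nat_lit 0x101f1800))
 (c (b (nat_lit 0xfc36c03)) e
 (c (b (nat_lit 0xfcc4603)) e
 (c z e
 (c z e
 (c z e
 (c z e
 (c (b (nat_lit 0xfff7207)) e
 (c z e
 (c (b (nat_lit 0x1032f407)) e
 (c z e
 (c z e
 (c z e
 (c z e
 (c (b (nat_lit 0xffe860f)) e
 (c z e
 (c z e
 (c z e
 (c (b (nat_lit 0xffe6626)) e e))))))))))))))))))
 (c (a (nat_lit 0x101f7a00))
 (c (nat_lit 0x8000080000800007ff4480000800008000078203) e
 (c z e
 (c z e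
 (c (b (nat_lit 0x1032a407)) e
 (c (b (nat_lit 0x101a2c07)) e
 (c z e
 (c (b (nat_lit 0x105b9407)) e
 (c z e
 (c z e
 (c z e
 (c z e
 (c z e
 (c z e
 (c (b (nat_lit 0xfdcfe1e)) e e))))))))))))))
 (c (a (nat_lit 0x101e8400))
 (c z e
 (c (b (nat_lit 0x1030e007)) e
 (c z e
 (c z e
 (c (b (nat_lit 0x10206807)) e
 (c (b (nat_lit 0x103ba40e)) e
 (c z e
 (c z e
 (c z e
 (c z e
 (c (b (nat_lit 0xfe76817)) e
 (c (b (nat_lit 0xfa7b81e)) e e))))))))))))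
 (c (a (nat_lit 0x101f2c00))
 (c z e
 (c z e
 (c z e
 (c z e
 (c z e
 (c (b (nat_lit 0xfc8e80f)) e
 (c z e
 (c z e
 (c z e
 (c z e
 (c (b (nat_lit 0x10050e30)) e e)))))))))))
 (c (a (nat_lit 0x101f6600))
 (c z e
 (c z e
 (c z e
 (c z e
 (c z e
 (c (b (nat_lit 0xfff860f)) e
 (c z e
 (c z e
 (c (nat_lit 0x7ffc37fe8b7ffc37ffc37ffc37ffc37ffc3a8822) e
 (c z e
 (c z e
 (c (nat_lit 0x800008000080000800007fec88000080000d3d9f) e e))))))))))))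
 (c (a (nat_lit 0x101f6c00))
 (c z e
 (c z e
 (c z e
 (c z e
 (c (b (nat_lit 0x1012da17)) e
 (c (b (nat_lit 0x10bc001e)) e
 (c (b (nat_lit 0xfffe421)) e
 (c (b (nat_lit 0xfffb822)) e e))))))))
 (c (a (nat_lit 0x101f5000))
 (c (b (nat_lit 0xfda4a0f)) e e)
 (c (a (nat_lit 0x101dd800))
 (c (b (nat_lit 0x1032c817)) e e)
 (c (a (nat_lit 0x101fe201)) e
 (c (a (nat_lit 0x101fbe01)) e
 (c (a (nat_lit 0x10205a01))
 (c z e
 (c (nat_lit 0x80000800008000080000800007f0f77f0f71aa20) e e))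
 (c (a (nat_lit 0x101fae01)) e
 (c (a (nat_lit 0x101f2a02)) e
 (c (a (nat_lit 0x101f4a03)) e
 (c (a (nat_lit 0x101ee603)) e
 (c (a (nat_lit 0x10175803)) e
 (c (a (nat_lit 0x10093003)) e
 (c (a (nat_lit 0x100d7206)) e
 (c (a (nat_lit 0x100e9807)) e
 (c (a (nat_lit 0x1006b407)) e
 (c z e
 (c z e
 (c (a (nat_lit 0x1007fe0e)) e
 (c (a (nat_lit 0x101a520f)) e
 (c (nat_lit 0x7ffee7ffee7fd6d7ffee7ffee7ffeef28cf) e
 (c z e
 (c (a (nat_lit 0xff8740f)) e e))))))))))))))))))))))))))))))) Tr.c Tr.e (nat_lit 0) C.t6 C.t7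
noncomputable def tt215 : Tr := beta% (fun (c : Nat → Tr → Tr → Tr) (e : Tr) (z : Nat) (a b : Nat → Nat) =>
 (c (a (nat_lit 0x101e6400))
 (c (b (nat_lit 0xfe5c800)) e
 (c (b (nat_lit 0xfe3d800)) e
 (c (b (nat_lit 0xfe5aa00)) e
 (c (b (nat_lit 0xfe5c600)) e
 (c (b (nat_lit 0xfe2d600)) e
 (c (b (nat_lit 0xfe2f400)) e
 (c (b (nat_lit 0xfe45000)) e
 (c (b (nat_lit 0xfe23a00)) e
 (c (b (nat_lit 0xfe3b800)) e
 (c (b (nat_lit 0xfd0da01)) e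
 (c (b (nat_lit 0xfe43401)) e
 (c (b (nat_lit 0xfe3e201)) e
 (c (b (nat_lit 0xfe00401)) e
 (c (b (nat_lit 0xfdf5c02)) e
 (c (b (nat_lit 0xfdd9e03)) e
 (c (b (nat_lit 0xfa72003)) e
 (c (b (nat_lit 0xf7baa03)) e
 (c (b (nat_lit 0xfca2a03)) e
 (c (b (nat_lit 0xfdace06)) e
 (c (b (nat_lit 0xfdad007)) e
 (c (b (nat_lit 0xfdda207)) e
 (c (b (nat_lit 0xff0f807)) e
 (c z e
 (c z e
 (c z e
 (c (b (nat_lit 0xfff2a0f)) e
 (c z e
 (c (b (nat_lit 0xffde20f)) e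
 (c (b (nat_lit 0xfff4c17)) e
 (c (b (nat_lit 0xfff5a1e)) e
 (c (nat_lit 0x800007ff7a80000800008000080000800007dcb6) e e)))))))))))))))))))))))))))))))
 (c (a (nat_lit 0x101fb600))
 (c (b (nat_lit 0xfe1dc00)) e
 (c (b (nat_lit 0xfe16a00)) e
 (c (b (nat_lit 0xfe3ba00)) e
 (c (b (nat_lit 0xfe1a800)) e
 (c (b (nat_lit 0xfe14000)) e
 (c (b (nat_lit 0xfe27400)) e
 (c (b (nat_lit 0xfe22e00)) e
 (c (b (nat_lit 0xfe22001)) e
 (c (b (nat_lit 0xfe21e01)) e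
 (c (b (nat_lit 0xfe2c201)) e
 (c (b (nat_lit 0xfe83401)) e
 (c (b (nat_lit 0xfe06602)) e
 (c (b (nat_lit 0xfdf1003)) e
 (c (b (nat_lit 0xfe92603)) e
 (c (b (nat_lit 0xfb87e03)) e
 (c (b (nat_lit 0xfcf5a03)) e
 (c (b (nat_lit 0xfda5606)) e
 (c (b (nat_lit 0xff91e07)) e
 (c (b (nat_lit 0xff93e07)) e
 (c (b (nat_lit 0xff03807)) e
 (c z e
 (c z e
 (c z e
 (c (b (nat_lit 0xfff9a0f)) e
 (c (nat_lit 0x7fefe800008000080000800008000080000dea0f) e e)))))))))))))))))))))))))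
 (c (a (nat_lit 0x101f6000))
 (c (b (nat_lit 0xfe23e00)) e
 (c (b (nat_lit 0xfe36000)) e
 (c (b (nat_lit 0xfe0d600)) e
 (c (b (nat_lit 0xfe27e00)) e
 (c (b (nat_lit 0xfe27000)) e
 (c (b (nat_lit 0xfe37e01)) e
 (c (b (nat_lit 0xfe21a01)) e
 (c (b (nat_lit 0xfe3d401)) e
 (c (nat_lit 0x7f1be7f1be7f1be7f1be7f1bd7f1bd7f1bd27a81) e
 (c (nat_lit 0x7f1bb7f1bb7f1bb7f1bb7f1bb7f18e7f19161c02) e
 (c (b (nat_lit 0xfebc603)) e
 (c (b (nat_lit 0xfe3ea03)) e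
 (c (b (nat_lit 0xfea1803)) e
 (c (b (nat_lit 0xff9f603)) e
 (c z e
 (c (b (nat_lit 0xffede07)) e
 (c z e
 (c (b (nat_lit 0xfff9607)) e
 (c z e
 (c z e
 (c (b (nat_lit 0xffeba0f)) e
 (c (b (nat_lit 0xfff860f)) e
 (c z e
 (c z e
 (c (nat_lit 0x800007fe34800008000080000800008000004b97) e
 (c (b (nat_lit 0xffdae1e)) e e))))))))))))))))))))))))))
 (c (a (nat_lit 0x101eee00))
 (c (b (nat_lit 0xfe2ec00)) e
 (c (b (nat_lit 0xfe2ae00)) e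
 (c (b (nat_lit 0xfe2bc00)) e
 (c (b (nat_lit 0xfe32201)) e
 (c (b (nat_lit 0xfe3ee01)) e
 (c (b (nat_lit 0xfe2dc01)) e
 (c (b (nat_lit 0xfe1e001)) e
 (c (nat_lit 0x7f2747f2747f13f7f2747f2747f2747f274b3282) e
 (c (b (nat_lit 0xff23203)) e
 (c (b (nat_lit 0xfec8003)) e
 (c (nat_lit 0x7f72c7f72c7f72c7f72c7f72c7f4dd7f72cced03) e
 (c (b (nat_lit 0xff02c03)) e
 (c z e
 (c (b (nat_lit 0x10215207)) e
 (c (b (nat_lit 0x10152607)) e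
 (c z e
 (c z e
 (c z e
 (c z e
 (c z e
 (c z e
 (c (nat_lit 0x7ff538000080000800008000080000800000d88f) e
 (c (b (nat_lit 0x10096417)) e
 (c z e
 (c (b (nat_lit 0xffda227)) e
 (c (b (nat_lit 0xfffa627)) e e)))))))))))))))))))))))))) tt214))))) Tr.c Tr.e (nat_lit 0) C.t6 C.t7
noncomputable def tt216 : Tr := beta% (fun (c : Nat → Tr → Tr → Tr) (e : Tr) (z : Nat) (a b : Nat → Nat) =>
 (c (a (nat_lit 0x101df000))
 (c (b (nat_lit 0xfeab801)) e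
 (c (b (nat_lit 0xfea1801)) e
 (c (nat_lit 0x7f2fa7f2fa7ed6c7f2fa7f2fa7f2fa7f2fa02c01) e
 (c (nat_lit 0x7f1ca7f1ca7f1ca7f0c27f1ca7f1ca7f1ca24801) e
 (c (b (nat_lit 0xfe36602)) e
 (c (nat_lit 0x7fe327fe327fe327fd017fe327fe327fe3264183) e
 (c z e
 (c z e
 (c z e
 (c (b (nat_lit 0xfff4006)) e
 (c z e
 (c z e
 (c z e
 (c (b (nat_lit 0xfea7807)) e
 (c (nat_lit 0x7f9e27f81f7f9e27f9e27f9e27f9e27f9e21ad8e) e
 (c (nat_lit 0x7f2cb7f2cb7f0ee7f2cb7f2cb7f2cb7f2cb81d0f) e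
 (c (b (nat_lit 0x103c0e0f)) e
 (c (b (nat_lit 0xfe97c0f)) e
 (c z e
 (c (b (nat_lit 0xfffda1e)) e e))))))))))))))))))))
 (c (a (nat_lit 0x101ef400))
 (c z e
 (c (b (nat_lit 0xfc0de01)) e
 (c (b (nat_lit 0xfaf3402)) e
 (c (b (nat_lit 0x1010d403)) e
 (c (nat_lit 0x7ebc97ebc97ebc97eabc7ebc97ebc97ebc9d5283) e
 (c (b (nat_lit 0xfdf9c03)) e
 (c z e
 (c (b (nat_lit 0x10614c06)) e
 (c z e
 (c (b (nat_lit 0xfded807)) e
 (c z e
 (c (b (nat_lit 0xf082207)) e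
 (c z e
 (c (b (nat_lit 0xff0d40f)) e
 (c z e
 (c z e
 (c (b (nat_lit 0xff8dc0f)) e
 (c (b (nat_lit 0xfdaba1e)) e
 (c (nat_lit 0x7ef7f7f0887f0887f0887f0887f0887f0881e6a3) e
 (c (nat_lit 0x7ffdf7ff737ffdf7ffdf7ffdf7ffdf7ffdf9e926) e e))))))))))))))))))))
 (c (a (nat_lit 0x101d6600))
 (c (nat_lit 0x7f7e97f7e97f7e97f7e97f7787f7e97f7e959502) e
 (c (nat_lit 0x80000800008000080000800007ff4c80000c8801) e
 (c (nat_lit 0x7e59d7e59d7e34a7e59d7e59d7e59d7e59dd8303) e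
 (c (b (nat_lit 0xfc97203)) e
 (c (b (nat_lit 0xf8ac003)) e
 (c (b (nat_lit 0xfdf9806)) e
 (c (b (nat_lit 0xfccbc07)) e
 (c z e
 (c (b (nat_lit 0xff3c807)) e
 (c (nat_lit 0x80000800007fca88000080000800008000094287) e
 (c (b (nat_lit 0xfd44a0e)) e
 (c (b (nat_lit 0x1018240f)) e
 (c (b (nat_lit 0x101f660f)) e
 (c z e
 (c z e
 (c (b (nat_lit 0xffd5e1e)) e
 (c z e
 (c (b (nat_lit 0xffee623)) e e))))))))))))))))))
 (c (a (nat_lit 0x101ee800))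
 (c z e
 (c (b (nat_lit 0xf3e9203)) e
 (c (b (nat_lit 0xff18a03)) e
 (c z e
 (c (nat_lit 0x8000080000800007ffba800008000080000c3186) e
 (c (b (nat_lit 0xfc5b407)) e
 (c z e
 (c (b (nat_lit 0xfe93207)) e
 (c (b (nat_lit 0xf9c140e)) e
 (c z e
 (c (b (nat_lit 0x1028820f)) e
 (c (b (nat_lit 0xfcb6a0f)) e
 (c (b (nat_lit 0xfe8fc0f)) e
 (c z e
 (c (b (nat_lit 0xfa62623)) e
 (c (b (nat_lit 0xfd60223)) e e))))))))))))))))
 (c (a (nat_lit 0x101e1600))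
 (c (b (nat_lit 0xf5acc03)) e
 (c z e
 (c z e
 (c z e
 (c (nat_lit 0x8000080000800007fdba80000800008000020387) e
 (c z e
 (c (b (nat_lit 0x10c98a0e)) e
 (c (b (nat_lit 0x106b520f)) e
 (c z e
 (c (b (nat_lit 0xff89a0f)) e
 (c (b (nat_lit 0xf7c400f)) e
 (c (b (nat_lit 0xf82e01e)) e
 (c z e
 (c z e
 (c z e
 (c (nat_lit 0x800008000080000800007ffee80000800000b49f) e e))))))))))))))))
 (c (a (nat_lit 0x10207a00))
 (c z e
 (c (b (nat_lit 0x103d8207)) e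
 (c (b (nat_lit 0x10319607)) e
 (c z e
 (c (b (nat_lit 0xfb10a0e)) e
 (c (b (nat_lit 0xfec2a0f)) e e))))))
 (c (a (nat_lit 0x101f6000))
 (c (nat_lit 0x7ce4c7ce4c7ce4c7ce4c7cbbc7cc357ce4c29407) e
 (c (b (nat_lit 0xf885c07)) e
 (c (nat_lit 0x80000800008000080000800007fc728000050387) e
 (c (b (nat_lit 0x1026800f)) e
 (c z e
 (c z e
 (c (b (nat_lit 0x100a920f)) e
 (c (b (nat_lit 0xfe5581e)) e
 (c (b (nat_lit 0xfe4fa21)) e e)))))))))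
 (c (a (nat_lit 0x101ef000))
 (c (b (nat_lit 0xfd9ac0e)) e
 (c (b (nat_lit 0xfe8720f)) e
 (c (b (nat_lit 0x103c4a0f)) e
 (c z e
 (c z e
 (c z e
 (c (b (nat_lit 0xfb72a21)) e
 (c (b (nat_lit 0xffe4021)) e e))))))))
 (c (a (nat_lit 0x101e3600))
 (c (b (nat_lit 0xf95120f)) e
 (c z e
 (c (b (nat_lit 0x109b0e0f)) e e)))
 (c (a (nat_lit 0x101da800))
 (c (b (nat_lit 0x10c2820f)) e
 (c (b (nat_lit 0xfce1c1e)) e
 (c z e
 (c (b (nat_lit 0xfffd240)) e e))))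
 (c (a (nat_lit 0x101eda00))
 (c (b (nat_lit 0xffa0220)) e
 (c z e
 (c (b (nat_lit 0xfff5840)) e e)))
 (c (a (nat_lit 0x101f3a01)) e
 (c (a (nat_lit 0x10219801)) e
 (c (a (nat_lit 0x10214601)) e
 (c (a (nat_lit 0x1014fa01)) e
 (c (a (nat_lit 0x1016ee02)) e
 (c (a (nat_lit 0x101f6203)) e
 (c (a (nat_lit 0x101fdc03)) e
 (c (a (nat_lit 0x10199203)) e
 (c (nat_lit 0x80bd080ace80bd080bd080bd080bd0c3683) e
 (c (nat_lit 0x80c4580c4580b4480c4580c4580c4553286) e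
 (c (a (nat_lit 0x10144407)) e
 (c (a (nat_lit 0x100d0607)) e
 (c z e
 (c z e
 (c (nat_lit 0x809df80a0580a0580a0580a0580a058110e) e
 (c (nat_lit 0x805c5805b68061b8061b8061b8061bdb20f) e
 (c (nat_lit 0x8085080850808508082a80850808508058f) e
 (c (a (nat_lit 0xfffd40f)) e
 (c (nat_lit 0x7f9f97f8f17facb7f9a07f9b37fa8cd478f) e e))))))))))))))))))))))))))))))) Tr.c Tr.e (nat_lit 0) C.t6 C.t7
noncomputable def tt217 : Tr := beta% (fun (c : Nat → Tr → Tr → Tr) (e : Tr) (z : Nat) (a b : Nat → Nat) =>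
 (c (a (nat_lit 0x101c1a00))
 (c (b (nat_lit 0xfed9400)) e
 (c (b (nat_lit 0xfe96a00)) e
 (c (b (nat_lit 0xfe74800)) e
 (c (b (nat_lit 0xfeba600)) e
 (c (b (nat_lit 0xfea0400)) e
 (c (b (nat_lit 0xfe62e00)) e
 (c (b (nat_lit 0xfe9f800)) e
 (c (b (nat_lit 0xfe8d600)) e
 (c (b (nat_lit 0xfe94200)) e
 (c (b (nat_lit 0xfe64400)) e
 (c (b (nat_lit 0xfdc3000)) e
 (c (b (nat_lit 0xfe5cc00)) e
 (c (b (nat_lit 0xfe2de01)) e
 (c (b (nat_lit 0xfedde01)) e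
 (c (b (nat_lit 0xfcc7e01)) e
 (c (b (nat_lit 0xfd35001)) e
 (c (b (nat_lit 0xf5db002)) e
 (c (b (nat_lit 0xf3b4803)) e
 (c (b (nat_lit 0xf977a03)) e
 (c (b (nat_lit 0xfdf9203)) e
 (c z e
 (c z e
 (c (b (nat_lit 0xfe04807)) e
 (c (b (nat_lit 0xff47e07)) e
 (c (b (nat_lit 0xffb4c07)) e
 (c z e
 (c z e
 (c (b (nat_lit 0xff6700f)) e
 (c z e
 (c (b (nat_lit 0xfff9c0f)) e
 (c z e
 (c (b (nat_lit 0xffdd01e)) e e))))))))))))))))))))))))))))))))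
 (c (a (nat_lit 0x101de400))
 (c (b (nat_lit 0xfe75000)) e
 (c (b (nat_lit 0xfe2e600)) e
 (c (b (nat_lit 0xfe6d400)) e
 (c (b (nat_lit 0xfe4b000)) e
 (c (b (nat_lit 0xfe2c600)) e
 (c (b (nat_lit 0xfe3e600)) e
 (c (b (nat_lit 0xfe3f200)) e
 (c (b (nat_lit 0xfe50400)) e
 (c (b (nat_lit 0xfe42400)) e
 (c (b (nat_lit 0xfe6ac00)) e
 (c (b (nat_lit 0xfe07c01)) e
 (c (b (nat_lit 0xfded001)) e
 (c (b (nat_lit 0xfdeaa01)) e
 (c (b (nat_lit 0xfe59c01)) e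
 (c (b (nat_lit 0xfc9a602)) e
 (c (b (nat_lit 0xf94ba03)) e
 (c (b (nat_lit 0xfc2ea03)) e
 (c (b (nat_lit 0xf9f4e03)) e
 (c (b (nat_lit 0xfe45e03)) e
 (c (b (nat_lit 0xfec3206)) e
 (c (b (nat_lit 0xfe8cc07)) e
 (c (b (nat_lit 0xfe46807)) e
 (c z e
 (c z e
 (c z e
 (c z e
 (c z e
 (c z e
 (c (b (nat_lit 0xfff4c0f)) e
 (c z e
 (c (b (nat_lit 0xfffe62e)) e e)))))))))))))))))))))))))))))))
 (c (a (nat_lit 0x101f4600))
 (c (b (nat_lit 0xfe54e00)) e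
 (c (b (nat_lit 0xfe2c400)) e
 (c (b (nat_lit 0xfe6ca00)) e
 (c (b (nat_lit 0xfe1c200)) e
 (c (b (nat_lit 0xfe52600)) e
 (c (b (nat_lit 0xfe23000)) e
 (c (b (nat_lit 0xfe70000)) e
 (c (b (nat_lit 0xfe10a00)) e
 (c (b (nat_lit 0xfd34a01)) e
 (c (b (nat_lit 0xfeaa001)) e
 (c (b (nat_lit 0xfe30201)) e
 (c (b (nat_lit 0xfe59401)) e
 (c (b (nat_lit 0xfde8e02)) e
 (c (b (nat_lit 0xfce0a03)) e
 (c (b (nat_lit 0xfb0aa03)) e
 (c z e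
 (c z e
 (c z e
 (c (b (nat_lit 0xfe73c07)) e
 (c (b (nat_lit 0xff71207)) e
 (c (b (nat_lit 0xffaec07)) e
 (c z e
 (c z e
 (c z e
 (c (b (nat_lit 0xffdf00f)) e
 (c z e
 (c z e
 (c (nat_lit 0x80000800007ff94800008000080000800005a31e) e e))))))))))))))))))))))))))))
 (c (a (nat_lit 0x101e1e00))
 (c (b (nat_lit 0xfe36c00)) e
 (c (b (nat_lit 0xfe46400)) e
 (c (b (nat_lit 0xfe3cc00)) e
 (c (b (nat_lit 0xfe5bc00)) e
 (c (b (nat_lit 0xfe5ca00)) e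
 (c (b (nat_lit 0xfe44800)) e
 (c (b (nat_lit 0xfe1b601)) e
 (c (b (nat_lit 0xfb14601)) e
 (c (nat_lit 0x7eed57eedb7eedb7eedb7eedb7eedb7eedb78b81) e
 (c (b (nat_lit 0xfd18201)) e
 (c (b (nat_lit 0xfcc2602)) e
 (c (b (nat_lit 0xfdab403)) e
 (c (b (nat_lit 0xfe46203)) e
 (c (b (nat_lit 0xfd49603)) e
 (c z e
 (c z e
 (c (b (nat_lit 0xfac1e07)) e
 (c (b (nat_lit 0xfe18407)) e
 (c (b (nat_lit 0xfde1407)) e
 (c z e
 (c z e
 (c (b (nat_lit 0xfff2c0f)) e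
 (c z e
 (c z e
 (c z e
 (c (b (nat_lit 0x100aa81e)) e
 (c z e
 (c (b (nat_lit 0xfff5027)) e e))))))))))))))))))))))))))))
 (c (a (nat_lit 0x101e4200))
 (c (b (nat_lit 0xfedb200)) e
 (c (b (nat_lit 0xfe75800)) e
 (c (b (nat_lit 0xfe46a00)) e
 (c (b (nat_lit 0xfe94e00)) e
 (c (b (nat_lit 0xfe77a01)) e
 (c (b (nat_lit 0xfe34001)) e
 (c (b (nat_lit 0xfb97401)) e
 (c (b (nat_lit 0xfd14201)) e
 (c (b (nat_lit 0xfd20c02)) e
 (c (b (nat_lit 0xfd8f803)) e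
 (c (b (nat_lit 0xfe31203)) e
 (c (b (nat_lit 0xfe15003)) e
 (c (b (nat_lit 0xfc34a03)) e
 (c (b (nat_lit 0xfcd7406)) e
 (c z e
 (c (b (nat_lit 0xfbc1007)) e
 (c (b (nat_lit 0xfe06c07)) e
 (c (b (nat_lit 0xfc0de07)) e
 (c (b (nat_lit 0xfe8da0e)) e
 (c (b (nat_lit 0xfff3e0f)) e
 (c z e
 (c z e
 (c z e
 (c (b (nat_lit 0xfffe41e)) e
 (c z e
 (c z e
 (c (nat_lit 0x800007fca5800008000080000800008000013727) e e)))))))))))))))))))))))))))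
 (c (a (nat_lit 0x101e9e00))
 (c (b (nat_lit 0xfb90e00)) e
 (c (b (nat_lit 0xfe46e00)) e
 (c (b (nat_lit 0xfd96201)) e
 (c (b (nat_lit 0xfe43001)) e
 (c (nat_lit 0x7ecff7ecff7e8807ecff7ecff7ecff7ecffb4881) e
 (c (b (nat_lit 0xfd78401)) e
 (c (b (nat_lit 0xfd24a02)) e
 (c (b (nat_lit 0xfe8ee03)) e
 (c (b (nat_lit 0xfe1d003)) e
 (c (nat_lit 0x80000800008000080000800007fdf580000de301) e
 (c z e
 (c z e
 (c (b (nat_lit 0xffeec07)) e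
 (c (b (nat_lit 0xfc9ca07)) e
 (c (b (nat_lit 0xfeeaa07)) e
 (c (nat_lit 0x7f8a67f8877f8a67f8a67f8a67f8a67f8a6ce807) e
 (c z e
 (c z e
 (c (b (nat_lit 0xffe120f)) e
 (c (b (nat_lit 0xffee00f)) e e)))))))))))))))))))) tt216))))))) Tr.c Tr.e (nat_lit 0) C.t6 C.t7
noncomputable def tt218 : Tr := beta% (fun (c : Nat → Tr → Tr → Tr) (e : Tr) (z : Nat) (a b d : Nat → Nat) =>
 (c (a (nat_lit 0xfe0c800)) tt217
 (c (a (nat_lit 0xfe03800)) tt215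
 (c (a (nat_lit 0xfe00c00)) tt213
 (c (a (nat_lit 0xfe02800))
 (c (b (nat_lit 0x101fb600))
 (c (d (nat_lit 0xfcf9a00)) e
 (c (d (nat_lit 0xfe1ba00)) e
 (c (d (nat_lit 0xfda5a00)) e
 (c (d (nat_lit 0xfe27201)) e
 (c (nat_lit 0x7f1437f1437f1427f1427f1427f1427f1432e881) e
 (c (d (nat_lit 0xfe31401)) e
 (c (d (nat_lit 0xfe0ea01)) e
 (c (d (nat_lit 0xfd62202)) e
 (c (d (nat_lit 0xfdf0003)) e
 (c (d (nat_lit 0xfde0c03)) e
 (c (d (nat_lit 0xfe78403)) e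
 (c z e
 (c z e
 (c z e
 (c z e
 (c z e
 (c z e
 (c (d (nat_lit 0xfdfca0e)) e
 (c (d (nat_lit 0xfdf2e0f)) e
 (c z e
 (c (nat_lit 0x7fff07ffd080000800008000080000800005fb0f) e
 (c (nat_lit 0x805af805af8058e805af805af805af805af3208f) e
 (c (nat_lit 0x8000080000800007fffe800008000080000d8a97) e e))))))))))))))))))))))) tt211)
 (c (a (nat_lit 0xfe02600)) tt210
 (c (a (nat_lit 0xfe02600)) tt209
 (c (a (nat_lit 0xfe02000)) tt208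
 (c (a (nat_lit 0xfe01c00)) tt207
 (c (a (nat_lit 0xfe05800))
 (c (b (nat_lit 0x10122200))
 (c (d (nat_lit 0xf461207)) e
 (c z e
 (c (d (nat_lit 0x102ae00e)) e
 (c z e
 (c (d (nat_lit 0x10268a0f)) e
 (c (d (nat_lit 0x106fee0f)) e
 (c (d (nat_lit 0x1037020f)) e
 (c (d (nat_lit 0x10224c13)) e
 (c z e
 (c (d (nat_lit 0x10259613)) e e))))))))))
 (c (b (nat_lit 0x101fc001))
 (c z e
 (c (d (nat_lit 0x10419a0f)) e e))
 (c (b (nat_lit 0x101f8c01)) e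
 (c (nat_lit 0x8106e8106e8106e81028810288102885dc1)
 (c z e
 (c (d (nat_lit 0x10526a13)) e
 (c z e
 (c z e
 (c (d (nat_lit 0xffffa16)) e e)))))
 (c (nat_lit 0x810988109881098810988102481024a2701) e
 (c (b (nat_lit 0x10153e02)) e
 (c (nat_lit 0x812d1812d181266812d1812d1812d1e7043) e
 (c z e
 (c z e
 (c (b (nat_lit 0x1014e603)) e
 (c (b (nat_lit 0x10385206)) e
 (c z e
 (c (b (nat_lit 0xff68007)) e
 (c (b (nat_lit 0x1000ca07)) e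
 (c z e
 (c (b (nat_lit 0x1018f20e)) e
 (c (b (nat_lit 0x1015fe0f)) e
 (c (nat_lit 0x80df480c8780df480df480bf480df4f344f) e
 (c z e
 (c (b (nat_lit 0x102c6c0f)) e
 (c (nat_lit 0x807b0807b08070f807b0807b0807b05f8d3) e
 (c (nat_lit 0x80c9c80c9c80c9c80c1580c1580c9cefc53) e
 (c (nat_lit 0x80ed080d9d80d9d80ed080ed080ed042313) e
 (c (b (nat_lit 0x101bf016)) e e)))))))))))))))))))))))) tt206)))))))))) Tr.c Tr.e (nat_lit 0) C.t5 C.t6 C.t7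
noncomputable def tt219 : Tr := beta% (fun (c : Nat → Tr → Tr → Tr) (e : Tr) (z : Nat) (a b d : Nat → Nat) =>
 (c (a (nat_lit 0x101fee00))
 (c (b (nat_lit 0xfdfe001))
 (c (d (nat_lit 0x1012f409)) e
 (c (nat_lit 0x808918089180891807428074280891fd749) e
 (c (d (nat_lit 0x1021600a)) e e)))
 (c (b (nat_lit 0xfd24401)) e
 (c (b (nat_lit 0xfec5602)) e
 (c (b (nat_lit 0xfcb1403)) e
 (c (b (nat_lit 0xfae1e03)) e
 (c z e
 (c (b (nat_lit 0x1028ac03)) e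
 (c (nat_lit 0x7fd017fcdc7fcce7fd017fd0124e86) e
 (c (nat_lit 0x7f45b7f45b7f4377f4387f45ba5567) e
 (c (b (nat_lit 0xfed0007)) e
 (c (b (nat_lit 0xff96607)) e
 (c (b (nat_lit 0xff93407)) e
 (c (b (nat_lit 0xff76608)) e
 (c (b (nat_lit 0xfefc408)) e
 (c (nat_lit 0x7f8047f8047f8027f7f07f7db520a8) e
 (c (nat_lit 0x7fbe67fbe67fbe67fbe67fbd44b2e9) e
 (c (nat_lit 0x7fc037fc037fc037fbf67fc038cd69) e
 (c (b (nat_lit 0xff94e09)) e
 (c (nat_lit 0x7ff017feee7feba7feba7febaf8829) e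
 (c (b (nat_lit 0xffeb20a)) e
 (c (nat_lit 0x8000080000800007ffc87fffc2934a) e
 (c (nat_lit 0x800008000080000800007ffd985eca) e e))))))))))))))))))))))
 (c (nat_lit 0x80ff880ff980ff980ff889670)
 (c (b (nat_lit 0xfda1202)) e
 (c (b (nat_lit 0xfd76c03)) e
 (c z e
 (c z e
 (c z e
 (c (b (nat_lit 0xff6c606)) e
 (c (b (nat_lit 0xfd88c07)) e
 (c (b (nat_lit 0xfff8007)) e
 (c z e
 (c (b (nat_lit 0xffc2c07)) e
 (c z e
 (c (nat_lit 0x7f89f7f8ff7f8ff7f8ff7f8ff7c9e8) e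
 (c (nat_lit 0x7f8b87f8947f8b87f8b87f8b835c48) e
 (c (nat_lit 0x7fbe57fbc27fbde7fbe57fbe599f08) e
 (c (nat_lit 0x7fbd27fbd27fbb97fbd27fbd2eade9) e
 (c (b (nat_lit 0xff73409)) e
 (c (nat_lit 0x7fd917fd917fd917fd627fd625f2e9) e
 (c (nat_lit 0x8000080000800007ffa57ff26bc0e9) e
 (c (nat_lit 0x7fe3f7fe3f7fe3f7fe3f7fd7bed3aa) e
 (c (nat_lit 0x8000080000800007fe977fe97b190a) e
 (c (nat_lit 0x800008000080000800007fec459bea) e e)))))))))))))))))))))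
 (c (a (nat_lit 0x101ffc00))
 (c (b (nat_lit 0xfc41203)) e
 (c z e
 (c z e
 (c z e
 (c (b (nat_lit 0xffe4e07)) e
 (c (b (nat_lit 0x100e8c07)) e
 (c (b (nat_lit 0xffea207)) e
 (c (b (nat_lit 0x10087407)) e
 (c (nat_lit 0x800007fff9800008000080000dcfa8) e
 (c (b (nat_lit 0xfcc2008)) e
 (c (nat_lit 0x7e4f47e5037e5037e5037e5032bec8) e
 (c (nat_lit 0x7fc867fca87fcb67fcb67fcb64e6a8) e
 (c (nat_lit 0x7fc4b7fc397fc597fc597fc59960c8) e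
 (c (nat_lit 0x7fc257fc257fc117fc257fc2590149) e
 (c (b (nat_lit 0xff75c09)) e
 (c (b (nat_lit 0xff69809)) e
 (c (b (nat_lit 0xffd8c09)) e
 (c (nat_lit 0x8000080000800007fffd7fffd35109) e e))))))))))))))))))
 (c (a (nat_lit 0x101fdc00))
 (c (b (nat_lit 0x10328c03)) e
 (c z e
 (c z e
 (c z e
 (c z e
 (c (b (nat_lit 0x1001bc07)) e
 (c (nat_lit 0x8007e8007e800418007e8007e8fc48) e
 (c (b (nat_lit 0xfe2e008)) e
 (c (nat_lit 0x7f08a7f0967f0967f0967f096a05a8) e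
 (c (nat_lit 0x7fd617fd567fd617fd617fd61d09c8) e
 (c (nat_lit 0x7fda07fd827fd847fd9b7fda089268) e
 (c (nat_lit 0x7fd287fd287fd1e7fd1d7fd288c008) e
 (c (nat_lit 0x80000800007fcf07fcec7fcf0c9148) e
 (c (nat_lit 0x8000080000800007fcc17fcc163da8) e
 (c (nat_lit 0x800008000080000800007ff568d848) e
 (c z e
 (c (nat_lit 0x800008000080000800007ff8e1cda9) e
 (c (nat_lit 0x800008000080000800007ffe633329) e e))))))))))))))))))
 (c (a (nat_lit 0x101ffa00))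
 (c (b (nat_lit 0x101a9807)) e
 (c (b (nat_lit 0xff4aa07)) e
 (c z e
 (c z e
 (c (b (nat_lit 0xfd8c408)) e
 (c (b (nat_lit 0xfbb4008)) e
 (c (b (nat_lit 0xfdf8a08)) e
 (c (nat_lit 0x7ee847ee937ee937ee937ee93980c8) e
 (c (nat_lit 0x7f2ec7f2e77f2f97f3007f300247c8) e
 (c (nat_lit 0x7f2c07f2bc7f2ba7f2c07f2c0c0628) e
 (c (b (nat_lit 0xfe4fe08)) e
 (c (nat_lit 0x80000800007f26b7f26b7f26b5ea48) e
 (c (nat_lit 0x8000080000800007f23d7f23d02b28) e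
 (c (nat_lit 0x800008000080000800007f4725aea8) e e))))))))))))))
 (c (a (nat_lit 0x101ffc00))
 (c z e
 (c (nat_lit 0x80000800007ff897ff897ff898d267) e
 (c (nat_lit 0x7932179320792fb793217932125288) e
 (c (b (nat_lit 0xfb8d208)) e
 (c (b (nat_lit 0xfe8f608)) e
 (c (b (nat_lit 0xfdfe208)) e
 (c (nat_lit 0x7efc37efc27efc37efc37efc3f6708) e
 (c (nat_lit 0x7efbc7efb97efb97efb77efbd499e8) e
 (c (b (nat_lit 0xfdf7e08)) e
 (c (b (nat_lit 0xfdfa808)) e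
 (c (nat_lit 0x80000800007eff77effe7effef5148) e
 (c (nat_lit 0x8000080000800007efde7efde494c8) e
 (c (nat_lit 0x800008000080000800007f26755608) e e)))))))))))))
 (c (a (nat_lit 0x10200600))
 (c (nat_lit 0x74c0574bf074bd274c0574c050a8c8) e
 (c (b (nat_lit 0xfb83c08)) e
 (c (b (nat_lit 0xfdd7608)) e
 (c (b (nat_lit 0xfe09a08)) e
 (c (b (nat_lit 0xfe01e08)) e
 (c (nat_lit 0x7eef27eed37ef387ef387ef38c3e68) e
 (c (nat_lit 0x7eead7eec77eed57eed57eed5666a8) e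
 (c (nat_lit 0x7eed37eed87eef27eef27eef2a1088) e
 (c (nat_lit 0x7eef07eeea7eef07eef07eef0a7f28) e
 (c (nat_lit 0x80000800007ef0c7ef0c7ef0c56b68) e
 (c (nat_lit 0x8000080000800007eee77eee75b5c8) e
 (c (nat_lit 0x800008000080000800007f183c72e8) e e))))))))))))
 (c (a (nat_lit 0x101ff800)) e
 (c (nat_lit 0x80ffc80ffd80ffd80ffd1dea0) e
 (c (a (nat_lit 0x10200200)) e
 (c (a (nat_lit 0x101fee00)) e
 (c (a (nat_lit 0x101ff800)) e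
 (c (nat_lit 0x80ff880ff980ff880ff824070) e
 (c (nat_lit 0x80ff680ff780ff880ff7e59e0) e
 (c (nat_lit 0x810028100181001810022a690) e
 (c (a (nat_lit 0x101ff401)) e
 (c (nat_lit 0x80ff980ff880ff980ff97c8d1) e
 (c (nat_lit 0x80d8580d8480d8580d85f01a1) e
 (c (a (nat_lit 0x10136801)) e
 (c (nat_lit 0x80f9980f8480f9880f98027c2) e
 (c (nat_lit 0x80f6580f6680f6680f669c413) e
 (c (a (nat_lit 0x101ed003)) e
 (c (nat_lit 0x801fa801f9801f9801c5af4b3) e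
 (c (nat_lit 0x8063e8063d8063d8063dac703) e
 (c (nat_lit 0x806208062180621806214eaa6) e
 (c (nat_lit 0x80639806398063a8063a914c7) e
 (c (nat_lit 0x802468024680245802450dc07) e
 (c (nat_lit 0x7fe737fe747fe747fe7442ae7) e
 (c (nat_lit 0x81a4981a4c81a6981a69c2e57) e e)))))))))))))))))))))))))))))) Tr.c Tr.e (nat_lit 0) C.t4 C.t5 C.t6
noncomputable def tt220 : Tr := beta% (fun (c : Nat → Tr → Tr → Tr) (e : Tr) (z : Nat) (a b : Nat → Nat) =>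
 (c (nat_lit 0x7f0187f0187f0187f0177f017e8580)
 (c (nat_lit 0x7ecf37ecf37ecf37ecf37ecf37ec637d647) e
 (c (nat_lit 0x80af280af280af280a0880af27ef1128e88) e
 (c (b (nat_lit 0x10168609)) e
 (c (b (nat_lit 0x10373809)) e
 (c z e
 (c z e
 (c (b (nat_lit 0x10532e0a)) e
 (c z e
 (c (nat_lit 0x80000800007ed837ed838000080000c5f20) e e)))))))))
 (c (a (nat_lit 0xfe02c00))
 (c (nat_lit 0x802778027780277802488021880277fd409) e
 (c (nat_lit 0x8151c814968151c8151c8151c8151ce7409) e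
 (c (nat_lit 0x8182e8182e8182e8181c8182c8182e9a149) e
 (c (b (nat_lit 0x1026ea09)) e
 (c z e
 (c (nat_lit 0x831f1831f1831d4831f1831f1831f16bfd2) e
 (c (nat_lit 0x850318503184f5e84f5e85031850314dce0) e e)))))))
 (c (a (nat_lit 0xfe02201))
 (c z e
 (c (b (nat_lit 0x10152609)) e
 (c z e
 (c z e
 (c (b (nat_lit 0x1079f412)) e e)))))
 (c (a (nat_lit 0xfe01e01))
 (c z e
 (c (b (nat_lit 0x1011e011)) e
 (c (b (nat_lit 0x10162611)) e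
 (c (b (nat_lit 0x10784812)) e e))))
 (c (a (nat_lit 0xfdffc01))
 (c (b (nat_lit 0x108f1c11)) e e)
 (c (nat_lit 0x7f06e7f06e7f06e7f06e7f02170d21) e
 (c (nat_lit 0x7d8007d80d7d80d7d80d7d80d43402) e
 (c (a (nat_lit 0xfd05603)) e
 (c z e
 (c z e
 (c (a (nat_lit 0xfbe2e03)) e
 (c (nat_lit 0x7e6057e6017e6027e6057e60539aa6) e
 (c (nat_lit 0x7e6867e6867e65c7e6867e686a4f67) e
 (c z e
 (c z e
 (c (a (nat_lit 0xfde7c07)) e
 (c (nat_lit 0x7f75f7f75f7f7517f75f7f75f57a88) e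
 (c (a (nat_lit 0xfdfaa09)) e
 (c (nat_lit 0x7f0397f0397f0397f0347f02fb99a9) e
 (c (a (nat_lit 0xfe55409)) e
 (c (nat_lit 0x7f3517f3517f3517f3347f2f8f2e09) e
 (c (nat_lit 0x7fed57fed57fed57ff0a7ff0a0754a) e
 (c (nat_lit 0x8000080000800007ffba80000d5eaa) e
 (c (nat_lit 0x8000080000800007ffdd7ffd4be34b) e e))))))))))))))))))))))))) Tr.c Tr.e (nat_lit 0) C.t5 C.t6
noncomputable def tt221 : Tr := beta% (fun (c : Nat → Tr → Tr → Tr) (e : Tr) (z : Nat) (a b : Nat → Nat) =>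
 (c (a (nat_lit 0xff07600))
 (c z
 (c (nat_lit 0x80000800008000080000800007fcca80000af58b) e e)
 (c z e
 (c (b (nat_lit 0x1015b807)) e
 (c (b (nat_lit 0x1006ee07)) e
 (c (nat_lit 0x8085b8085b8085b8081a8085b8085ba7fc9) e
 (c (nat_lit 0x808d6808d6808d6808d680826808d6763c9) e
 (c z e
 (c (b (nat_lit 0x10270e09)) e
 (c (b (nat_lit 0x10451e0a)) e
 (c (nat_lit 0x835378348e8348e8353783537835378f14b) e
 (c (nat_lit 0x8000080000800007ff207ff20800002994b) e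
 (c z e
 (c (b (nat_lit 0x100e3c0b)) e e)))))))))))))
 (c (a (nat_lit 0xfe00a00))
 (c z e
 (c z e
 (c z e
 (c (b (nat_lit 0xfc55609)) e
 (c (b (nat_lit 0x10437e09)) e
 (c (b (nat_lit 0x10677c09)) e
 (c (b (nat_lit 0x107a320a)) e
 (c (b (nat_lit 0x104e840b)) e
 (c (b (nat_lit 0x103b540b)) e
 (c (b (nat_lit 0x10205a0b)) e e))))))))))
 (c (a (nat_lit 0xfdff200))
 (c (nat_lit 0x802a9802a9802a9801d9802a9802a9d3f09) e
 (c (nat_lit 0x8033e8033e8033a8031f802dd8033eabb09) e e))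
 (c (a (nat_lit 0xfe00000))
 (c (nat_lit 0x812088120880a7b81208812088120802189) e
 (c z e
 (c (b (nat_lit 0x101e880a)) e e)))
 (c (a (nat_lit 0xfe01001))
 (c z e
 (c (b (nat_lit 0x10190c0b)) e
 (c (b (nat_lit 0x1030240b)) e
 (c (b (nat_lit 0x1036180b)) e
 (c (b (nat_lit 0x1062c80b)) e e)))))
 (c (a (nat_lit 0xfdffc01))
 (c (nat_lit 0x81325813258109d8132581325813256a10b) e
 (c (b (nat_lit 0x1042f20b)) e
 (c z e
 (c z e
 (c (nat_lit 0x800008000080000828f2828f2828f23ff60) e e)))))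
 (c (a (nat_lit 0xfe01201)) e
 (c (a (nat_lit 0xfc30c01)) e
 (c (a (nat_lit 0xf989602)) e
 (c (a (nat_lit 0xfc39e03)) e
 (c (a (nat_lit 0xff46003)) e
 (c z e
 (c z e
 (c (nat_lit 0x7ecdf7eccf7ecdf7ecdf7ecdf61666) e
 (c (a (nat_lit 0xfd9e007)) e
 (c (a (nat_lit 0xffb0a07)) e
 (c z e
 (c z e
 (c (nat_lit 0x7f55a7f55a7f5597f55a7f55ae0c69) e
 (c (a (nat_lit 0xfe0c409)) e
 (c (a (nat_lit 0xfe57e09)) e
 (c (nat_lit 0x7f04f7f07e7f07e7f07e7f07ef5609) e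
 (c (a (nat_lit 0xfdb220a)) e
 (c (nat_lit 0x7ede67ede67ede47ede67ede6d238b) e
 (c (nat_lit 0x7ee0e7ee0e7ede67edf47ee03e250b) e
 (c (nat_lit 0x7fa997fa997fa717fa297fa29f304b) e e))))))))))))))))))))))))))) Tr.c Tr.e (nat_lit 0) C.t5 C.t6
noncomputable def tt222 : Tr := beta% (fun (c : Nat → Tr → Tr → Tr) (e : Tr) (z : Nat) (a b d : Nat → Nat) =>
 (c (a (nat_lit 0xfed1800))
 (c (b (nat_lit 0x10a08003))
 (c (d (nat_lit 0xfffd80b)) e e)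
 (c (b (nat_lit 0xff57803)) e
 (c (b (nat_lit 0x1027ec06)) e
 (c (nat_lit 0x81674816748158e815e0816748167494807) e
 (c (nat_lit 0x7fb087fec57fec57fec57fec57fec52a207) e
 (c (b (nat_lit 0xf443807)) e
 (c (b (nat_lit 0xfbd1207)) e
 (c z e
 (c (b (nat_lit 0xfea2209)) e
 (c z e
 (c z e
 (c (b (nat_lit 0x101d4a0b)) e
 (c (b (nat_lit 0x1016080b)) e
 (c (b (nat_lit 0x1007c40b)) e
 (c (b (nat_lit 0x1003300b)) e
 (c (b (nat_lit 0x1010180e)) e e))))))))))))))))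
 (c (a (nat_lit 0xfe01200))
 (c (nat_lit 0x80000800008000080000800007fdbda1c83)
 (c (nat_lit 0x800008000080000800007ffff800008000098b8e) e e)
 (c z e
 (c z e
 (c z e
 (c (b (nat_lit 0xfed9c07)) e
 (c z e
 (c (nat_lit 0x815d3815d3815d3815a6815d3815d30ef89) e
 (c (b (nat_lit 0x10288409)) e
 (c (b (nat_lit 0x101be80a)) e
 (c (b (nat_lit 0x10227a0b)) e
 (c (nat_lit 0x8089b8089b8088a8088a8089b8089b2208b) e
 (c (b (nat_lit 0x1009020b)) e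
 (c (b (nat_lit 0x100e4c0b)) e e)))))))))))))
 (c (a (nat_lit 0xfe01400))
 (c z e
 (c z e
 (c z e
 (c z e
 (c z e
 (c z e
 (c (b (nat_lit 0x1024180a)) e
 (c (b (nat_lit 0x103edc0b)) e
 (c (b (nat_lit 0x1033a00b)) e e)))))))))
 (c (a (nat_lit 0xfe01000))
 (c (nat_lit 0x7ffd0800008000080000800007ff9084747) e
 (c (nat_lit 0x800007fecd8000080000800008000000109) e
 (c z e
 (c (b (nat_lit 0x10383609)) e
 (c (b (nat_lit 0x100fa00a)) e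
 (c (b (nat_lit 0x1035400b)) e
 (c (b (nat_lit 0x102e060b)) e
 (c (b (nat_lit 0x102ac00b)) e
 (c (b (nat_lit 0x10110a0b)) e
 (c (nat_lit 0x80196801968018c801968019680196a264e) e
 (c (nat_lit 0x800008000080000800007fff4800003e60e) e e)))))))))))
 (c (a (nat_lit 0xfdffc00))
 (c z e
 (c (b (nat_lit 0x10249209)) e
 (c (b (nat_lit 0x1013600a)) e
 (c (nat_lit 0x8183a8183a815d0816be8183a8183a4b94b) e
 (c (b (nat_lit 0x106af00b)) e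
 (c (b (nat_lit 0x10907e0b)) e
 (c (b (nat_lit 0x105d5c0b)) e
 (c (nat_lit 0x8127781249812778127781277812774090e) e e))))))))
 (c (a (nat_lit 0xfe01600))
 (c (b (nat_lit 0x1026960a)) e
 (c (nat_lit 0x8150e8150e814a18150e8150e8150ea494b) e
 (c (b (nat_lit 0x1017480b)) e
 (c (b (nat_lit 0x1032000b)) e
 (c (b (nat_lit 0x1045860b)) e
 (c (b (nat_lit 0x102f9e0e)) e e))))))
 (c (a (nat_lit 0xfe00401))
 (c (b (nat_lit 0x1023ee0b)) e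
 (c (b (nat_lit 0x1028fa0b)) e
 (c (b (nat_lit 0x1012b40b)) e
 (c (b (nat_lit 0x103fc60e)) e e))))
 (c (a (nat_lit 0xfe03e01))
 (c (b (nat_lit 0x1033ba0b)) e
 (c (nat_lit 0x83a1583a1583a158382083a1583a153da4e) e e))
 (c (a (nat_lit 0xfd8e601)) e
 (c (nat_lit 0x7e3bf7e4517e4517e4517e451a6fa1) e
 (c (a (nat_lit 0xfc68a02)) e
 (c (nat_lit 0x7f4137f4137f3997f4137f41354f63) e
 (c (a (nat_lit 0xff2bc03)) e
 (c (a (nat_lit 0xffa8a03)) e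
 (c z e
 (c (a (nat_lit 0xfd9fa06)) e
 (c (a (nat_lit 0xfdb1207)) e
 (c (a (nat_lit 0xfda1807)) e
 (c z e
 (c (a (nat_lit 0xfd44607)) e
 (c (a (nat_lit 0xfecae09)) e
 (c (a (nat_lit 0xfe28809)) e
 (c (a (nat_lit 0xfdf8609)) e
 (c (nat_lit 0x7ecaa7ec867ecaa7ecaa7ecaa4a72a) e
 (c (nat_lit 0x7ecc57ecc57ecc27ecc57ecc5f0d8b) e
 (c (a (nat_lit 0xfd94c0b)) e
 (c (a (nat_lit 0xff9260b)) e
 (c z e
 (c (nat_lit 0x7fec97fe887fec97fec97fec94fd2e) e e)))))))))))))))))))))))))))))) Tr.c Tr.e (nat_lit 0) C.t5 C.t6 C.t7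
noncomputable def tt223 : Tr := beta% (fun (c : Nat → Tr → Tr → Tr) (e : Tr) (z : Nat) (a b d : Nat → Nat) =>
 (c (a (nat_lit 0xfe01000))
 (c z e
 (c (b (nat_lit 0x10304403))
 (c z e
 (c z e
 (c (d (nat_lit 0x104e460b)) e e)))
 (c (b (nat_lit 0x102be203)) e
 (c (b (nat_lit 0x1024c403)) e
 (c z e
 (c z e
 (c z e
 (c (b (nat_lit 0xfe7c407)) e
 (c z e
 (c z e
 (c (b (nat_lit 0xf447209)) e
 (c (b (nat_lit 0xf870409)) e
 (c (b (nat_lit 0x1037b20a)) e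
 (c (b (nat_lit 0x1026e80b)) e
 (c (b (nat_lit 0x1016760b)) e
 (c (b (nat_lit 0x1018720b)) e
 (c (b (nat_lit 0x102c460b)) e
 (c (nat_lit 0x818438173e8173e818438184381843dd1ce) e e))))))))))))))))))
 (c (a (nat_lit 0xfe01e00))
 (c (b (nat_lit 0x10609a03))
 (c (d (nat_lit 0xf9a4e0b)) e e)
 (c z e
 (c (b (nat_lit 0xfdf6803)) e
 (c z e
 (c (b (nat_lit 0x1036d207)) e
 (c (b (nat_lit 0xfff1807)) e
 (c z e
 (c z e
 (c (nat_lit 0x7f9727f9727f9727f7e27f9727f97276149) e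
 (c z e
 (c z e
 (c z e
 (c (nat_lit 0x80fe980fe980fc080fc080fe980fe970d4b) e
 (c (b (nat_lit 0x1019ac0b)) e
 (c (b (nat_lit 0x101ad40b)) e
 (c (b (nat_lit 0x101b3e0e)) e
 (c (b (nat_lit 0x1041de16)) e e)))))))))))))))))
 (c (a (nat_lit 0xfe00c00))
 (c z e
 (c z e
 (c z e
 (c z e
 (c z e
 (c (b (nat_lit 0xf6eac07)) e
 (c z e
 (c z e
 (c z e
 (c z e
 (c (b (nat_lit 0x1022120b)) e
 (c (b (nat_lit 0x10206a0b)) e e))))))))))))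
 (c (a (nat_lit 0xfe01e00))
 (c z e
 (c z e
 (c z e
 (c z e
 (c z e
 (c z e
 (c z e
 (c z e
 (c (b (nat_lit 0x1042fe0b)) e
 (c z e
 (c z e
 (c (b (nat_lit 0x1013360e)) e
 (c (nat_lit 0x800008000080000800007ff77800002920e) e
 (c (nat_lit 0x80000800008000080000800007fdd38cd0e) e e))))))))))))))
 (c (a (nat_lit 0xfe00800))
 (c z e
 (c (nat_lit 0x800007fa098000080000800008000072187) e
 (c z e
 (c (b (nat_lit 0x101bda09)) e
 (c z e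
 (c (b (nat_lit 0x103ce40b)) e
 (c z e
 (c z e
 (c z e
 (c (b (nat_lit 0x1023840e)) e e))))))))))
 (c (a (nat_lit 0xfe03800))
 (c z e
 (c (b (nat_lit 0x102ea609)) e
 (c (b (nat_lit 0x101cf40a)) e
 (c (nat_lit 0x82847828428283a828478284782847a5a8b) e
 (c (nat_lit 0x82236822368203d822368223682236758cb) e
 (c (b (nat_lit 0x1041260b)) e
 (c (b (nat_lit 0x1035340b)) e
 (c (nat_lit 0x80f958100a8100a8100a8100a8100ab924e) e e))))))))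
 (c (nat_lit 0x7f0187f0177f0177f0177f01816080)
 (c z e
 (c (nat_lit 0x81a038199f81a0381a0381a0381a031b30b) e
 (c (b (nat_lit 0x102a060b)) e
 (c (b (nat_lit 0x103aa80b)) e
 (c (b (nat_lit 0x105bf60b)) e
 (c (b (nat_lit 0x1053e80e)) e
 (c (b (nat_lit 0x100c2012)) e e)))))))
 (c (nat_lit 0x7f0037f0027f0037f0037f0036e880)
 (c (nat_lit 0x8260a8260a824988260a8260a8260aa7ecb) e
 (c z e
 (c z e
 (c (b (nat_lit 0x1068900e)) e
 (c (b (nat_lit 0x1045b411)) e e)))))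
 (c (a (nat_lit 0xfe03801))
 (c (b (nat_lit 0xffff60b)) e e)
 (c (nat_lit 0x7f0167f0167f00b7f00d7f00fd5fe1) e
 (c (a (nat_lit 0xfe00201)) e
 (c z e
 (c (nat_lit 0x7f4fb7f4987f4fb7f4fb7f4fbcede2) e
 (c (a (nat_lit 0xfe96203)) e
 (c (a (nat_lit 0xff14003)) e
 (c (a (nat_lit 0x10110603)) e
 (c z e
 (c (a (nat_lit 0xfdab006)) e
 (c (a (nat_lit 0xfd83407)) e
 (c (nat_lit 0x7f47f7f5337f5337f4b47f4c3260a7) e
 (c z e
 (c (a (nat_lit 0xfe4ca07)) e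
 (c (a (nat_lit 0xfe9ae09)) e
 (c (a (nat_lit 0xfe06a09)) e
 (c (nat_lit 0x7efee7f0727f0727f0727f072f514a) e
 (c (nat_lit 0x7f0d37f02d7f0cd7f0d37f0d3b0e8b) e
 (c (nat_lit 0x7f0d77f0d77f02c7f0cf7f0d76746b) e
 (c (a (nat_lit 0xfff7a0b)) e
 (c (nat_lit 0x7ff647ff647ff648000080000550eb) e
 (c (nat_lit 0x7f98f7f9d47fa037fa2c7fa2c5442e) e e))))))))))))))))))))))))))))))) Tr.c Tr.e (nat_lit 0) C.t5 C.t6 C.t7
noncomputable def tt224 : Tr := beta% (fun (c : Nat → Tr → Tr → Tr) (e : Tr) (z : Nat) (a b d : Nat → Nat) =>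
 (c (nat_lit 0x7f0117f00f7f00f7f00f7f00fc1c20)
 (c (b (nat_lit 0x101f6c01))
 (c (d (nat_lit 0x10fffe07)) e
 (c (d (nat_lit 0xef5a807)) e
 (c (d (nat_lit 0x103bb009)) e
 (c z e
 (c z e
 (c z e
 (c z e
 (c z e
 (c (d (nat_lit 0x1043bc0e)) e e)))))))))
 (c (b (nat_lit 0x101fd601)) e
 (c z e
 (c (b (nat_lit 0x103c2a02)) e
 (c z
 (c (d (nat_lit 0x1043ee0e)) e e)
 (c (b (nat_lit 0x1041e803)) e
 (c z e
 (c z e
 (c z e
 (c z e
 (c z e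
 (c z e
 (c z e
 (c z e
 (c z e
 (c (b (nat_lit 0x1011d80b)) e
 (c (b (nat_lit 0x1018660b)) e
 (c z e
 (c (b (nat_lit 0x100d940b)) e
 (c (b (nat_lit 0x102c7a0e)) e
 (c (b (nat_lit 0x102f3618)) e e)))))))))))))))))))))
 (c (a (nat_lit 0xfe01000))
 (c (b (nat_lit 0x101ffa01)) e
 (c z e
 (c z e
 (c (nat_lit 0x7ef067ef0b7ef0b7ef0b7ef0b7ef0b54c03) e
 (c z e
 (c z e
 (c z e
 (c (nat_lit 0x8000080000800007fffc800008000038b46) e
 (c z e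
 (c z e
 (c z e
 (c (b (nat_lit 0x1079f609)) e
 (c z e
 (c (b (nat_lit 0x1036c60b)) e
 (c (b (nat_lit 0x1065180b)) e
 (c (b (nat_lit 0x1026ee0b)) e
 (c (b (nat_lit 0x1015920b)) e
 (c z e
 (c z e
 (c (nat_lit 0x805b7805b7805b780587805b7805b78fe18) e e))))))))))))))))))))
 (c (a (nat_lit 0xfe02000))
 (c z e
 (c z e
 (c z e
 (c z e
 (c z e
 (c z e
 (c z e
 (c z e
 (c z e
 (c z e
 (c z e
 (c (b (nat_lit 0x1017b40b)) e e))))))))))))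
 (c (a (nat_lit 0xfe01400))
 (c z e
 (c z e
 (c z e
 (c z e
 (c z e
 (c (nat_lit 0x7fd617fd6180000800008000080000dd587) e
 (c z e
 (c (b (nat_lit 0xfb93c09)) e e))))))))
 (c (a (nat_lit 0xfe00a00))
 (c (nat_lit 0x8101880f5480f4e810188101881018d3ac6) e
 (c (nat_lit 0x80ab680ab680a9380aab80ab680ab668247) e
 (c z e
 (c z e
 (c (nat_lit 0x8000080000800007fe247fe2480000dbe47) e
 (c z e
 (c z e
 (c z e
 (c z e
 (c z e
 (c (b (nat_lit 0x1050ce0b)) e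
 (c (b (nat_lit 0x1058c20e)) e e))))))))))))
 (c (a (nat_lit 0xfe00200))
 (c z e
 (c z e
 (c z e
 (c z e
 (c (nat_lit 0x8089c8089c805bd8089c8089c8089c968ca) e
 (c (nat_lit 0x81dcb81dcb81d9981d7981dcb81dcb1678b) e
 (c z e
 (c (b (nat_lit 0x1016580b)) e
 (c (b (nat_lit 0x1042ae0b)) e
 (c (b (nat_lit 0x1017da0e)) e
 (c z e
 (c (nat_lit 0x800008000080000800007ff96800000ec4f) e
 (c z e
 (c z e
 (c (nat_lit 0x80000800008000080000800007ff705ff0f) e e)))))))))))))))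
 (c (a (nat_lit 0xfe00e00))
 (c z e
 (c z e
 (c z e
 (c (b (nat_lit 0x10483e0b)) e
 (c z e
 (c (b (nat_lit 0xfff000b)) e
 (c z e
 (c (b (nat_lit 0x102be60e)) e
 (c (b (nat_lit 0x101c1c12)) e e)))))))))
 (c (a (nat_lit 0xfe00e00))
 (c (nat_lit 0x7fd9a7fcc77fd208000080000800000b28a) e
 (c (b (nat_lit 0x102ce00b)) e
 (c (b (nat_lit 0x101ade0b)) e
 (c (b (nat_lit 0x10201c0b)) e
 (c z e
 (c z e
 (c (b (nat_lit 0x1017d811)) e
 (c (b (nat_lit 0x100e7c12)) e e))))))))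
 (c (a (nat_lit 0xfe00e00))
 (c (b (nat_lit 0x1050840b)) e
 (c (b (nat_lit 0x1029aa0b)) e
 (c (b (nat_lit 0x101c560b)) e e)))
 (c (a (nat_lit 0xfe03400))
 (c z e
 (c (nat_lit 0x823cf823cf82330823cf823cf823cf6638e) e e))
 (c (a (nat_lit 0xfe00c01))
 (c (nat_lit 0x80000800007fc148000080000800007ad50) e e)
 (c (a (nat_lit 0xfdffe01)) e
 (c (a (nat_lit 0xfe00c01)) e
 (c (a (nat_lit 0xff91c01)) e
 (c (a (nat_lit 0xff49402)) e
 (c (a (nat_lit 0xff80203)) e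
 (c (a (nat_lit 0x100d7203)) e
 (c (a (nat_lit 0x100bce03)) e
 (c z e
 (c (a (nat_lit 0xfd9d806)) e
 (c (a (nat_lit 0xfd99407)) e
 (c (a (nat_lit 0xfe2ce07)) e
 (c (a (nat_lit 0xffac007)) e
 (c (a (nat_lit 0xfdabc07)) e
 (c (a (nat_lit 0xfcce009)) e
 (c (nat_lit 0x7eeed7eed87ef107ef2b7ef2b199ea) e
 (c (nat_lit 0x7eef77eef77eeec7eeec7eef7253cb) e
 (c (nat_lit 0x7ef1d7ef1d7ef0f7eeff7ef1d8792b) e
 (c z e
 (c (nat_lit 0x80353803538043480434804344896b) e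
 (c (nat_lit 0x7f4477f42a7f4477f4477f4471f0ce) e e)))))))))))))))))))))))))))))))) Tr.c Tr.e (nat_lit 0) C.t5 C.t6 C.t7
noncomputable def tt225 : Tr := beta% (fun (c : Nat → Tr → Tr → Tr) (e : Tr) (z : Nat) (a b d : Nat → Nat) =>
 (c (nat_lit 0x7f0107f0107f0117f0127f012e6900)
 (c (b (nat_lit 0x101f7801))
 (c (nat_lit 0x7c33e7c33e7c3257c2a77c2187c33e7c33ee7687) e
 (c z e
 (c z e
 (c (d (nat_lit 0x1053000a)) e
 (c (nat_lit 0x79d7f79d7f79bda79d7f79d7f79d7f79d7f2910b) e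
 (c (nat_lit 0x8000080000800007ffe2800008000080000b6b8b) e
 (c (d (nat_lit 0x1026a80b)) e
 (c (d (nat_lit 0x102f0a0b)) e
 (c z e
 (c z e
 (c (d (nat_lit 0xffd6630)) e e)))))))))))
 (c (b (nat_lit 0x101fd601)) e
 (c (b (nat_lit 0x101fcc01)) e
 (c z e
 (c z e
 (c (nat_lit 0x80cda80b9c80cda80cda80cda80cdaa3cc3) e
 (c z e
 (c z e
 (c z e
 (c z e
 (c (b (nat_lit 0x1054ce07)) e
 (c z e
 (c z e
 (c z e
 (c z e
 (c (b (nat_lit 0x102c2a0b)) e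
 (c (b (nat_lit 0x10054e0b)) e
 (c (b (nat_lit 0x1017ac0b)) e
 (c z e
 (c (b (nat_lit 0x1012dc0e)) e
 (c (b (nat_lit 0x1029f216)) e e)))))))))))))))))))))
 (c (a (nat_lit 0xfe01c00))
 (c (b (nat_lit 0x101fe401))
 (c z e
 (c (d (nat_lit 0xfffd20b)) e e))
 (c z e
 (c z e
 (c z e
 (c z e
 (c z e
 (c z e
 (c z e
 (c z e
 (c z e
 (c z e
 (c z e
 (c (b (nat_lit 0x1034240a)) e
 (c (b (nat_lit 0x105ae20b)) e
 (c (b (nat_lit 0x1029780b)) e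
 (c (b (nat_lit 0x1012740b)) e e))))))))))))))))
 (c (a (nat_lit 0xfe01c00))
 (c z e
 (c (b (nat_lit 0x1013d003))
 (c (d (nat_lit 0x106b740e)) e
 (c z e
 (c z e
 (c (d (nat_lit 0x10307c16)) e e))))
 (c z e
 (c (b (nat_lit 0x1019ec03)) e
 (c (b (nat_lit 0x10368c03)) e
 (c (b (nat_lit 0x1009d806)) e
 (c (b (nat_lit 0x10566e07)) e
 (c z e
 (c z e
 (c z e
 (c (nat_lit 0x7ffab7ff997ff998000080000800001188a) e
 (c (b (nat_lit 0x10607a0b)) e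
 (c z e
 (c (b (nat_lit 0x102aaa0b)) e
 (c (b (nat_lit 0x10212a0b)) e
 (c (b (nat_lit 0x102a820e)) e
 (c (nat_lit 0x810a1810a1810a18108481084810a1a6f53) e
 (c z e
 (c z e
 (c z e
 (c z e
 (c z e
 (c z e
 (c (nat_lit 0x80000800008000080000800007faf622b57) e e))))))))))))))))))))))))
 (c (a (nat_lit 0xfe02200))
 (c (nat_lit 0x82b1382b1382ae582b1182b1382b138a403)
 (c (d (nat_lit 0xf9f4613)) e e)
 (c (b (nat_lit 0x10195803)) e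
 (c z e
 (c z e
 (c (b (nat_lit 0x10222c07)) e
 (c (b (nat_lit 0x10985207)) e
 (c (b (nat_lit 0x101d5607)) e
 (c z e
 (c (b (nat_lit 0xfc7b40a)) e
 (c (b (nat_lit 0x10139c0b)) e
 (c (b (nat_lit 0x1040ac0b)) e
 (c (b (nat_lit 0x102d220b)) e
 (c (b (nat_lit 0x1021140b)) e
 (c (b (nat_lit 0x1061920e)) e
 (c (b (nat_lit 0x105c0e13)) e
 (c (nat_lit 0x81f0c81f0c81f0481f0481f0c81f0c5b693) e e))))))))))))))))
 (c (a (nat_lit 0xfe02000))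
 (c z e
 (c (b (nat_lit 0x102ade06)) e
 (c z e
 (c z e
 (c z e
 (c z e
 (c (nat_lit 0x7bf977bf7e7bf977bf977bf977bf97ff2ca) e
 (c z e
 (c z e
 (c z e
 (c (b (nat_lit 0x1018e00b)) e
 (c (b (nat_lit 0x1060680e)) e e))))))))))))
 (c (a (nat_lit 0xfdfd600))
 (c (nat_lit 0x81ec781ec781eb581ec781ec781ec725f07) e
 (c z e
 (c z e
 (c z e
 (c (nat_lit 0x800007ff71800008000080000800003aa8a) e
 (c z e
 (c z e
 (c z e
 (c z e
 (c (b (nat_lit 0x1025f00e)) e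
 (c (b (nat_lit 0x10148e12)) e e)))))))))))
 (c (nat_lit 0x7f0197f0187f0187f0187f0185f060)
 (c z e
 (c z e
 (c z e
 (c (nat_lit 0x81d4981d4981c4981cce81d4981d49eb3cb) e
 (c (nat_lit 0x80000800007fb047fe198000080000ff34b) e
 (c z e
 (c (b (nat_lit 0x1023580b)) e
 (c (b (nat_lit 0x101bda0e)) e
 (c (b (nat_lit 0xffeea11)) e e)))))))))
 (c (a (nat_lit 0xfe01200))
 (c (nat_lit 0x7ff5b7fdd77fe12800008000080000bd84a) e
 (c (nat_lit 0x80c5580c5580b0680b5480c5580c5550e4b) e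
 (c (b (nat_lit 0x10150a0b)) e
 (c z e
 (c z e
 (c (nat_lit 0x80000800007ff91800008000080000d784e) e
 (c (nat_lit 0x80a5180a5180a5180a3c80a3c80a5154811) e e)))))))
 (c (nat_lit 0x7f0177f0147f0147f0167f017f1880)
 (c (nat_lit 0x8367483674835cd83674836748367443c4b) e
 (c z e
 (c (b (nat_lit 0x1024d00b)) e
 (c (b (nat_lit 0x103a340e)) e
 (c (nat_lit 0x80000800007fff3800008000080000c5811) e e)))))
 (c (a (nat_lit 0xfe01200))
 (c z e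
 (c (b (nat_lit 0x1045540e)) e
 (c (b (nat_lit 0x102e5a20)) e e)))
 (c (nat_lit 0x7f0107f00f7f00e7f00f7f00f70580)
 (c (b (nat_lit 0x10486e10)) e e)
 (c (nat_lit 0x7f00b7f00b7f00a7f0097f009eac01) e
 (c (nat_lit 0x7f00e7f00e7f0067f0067f00677821)
 (c (nat_lit 0x80000800008000086ec686ec686ec6fcdd0) e e)
 (c (a (nat_lit 0xfe00c01)) e
 (c (nat_lit 0x7f0fd7f0fd7f0fd7f0fd7f00b17ba1) e
 (c (a (nat_lit 0xfe48002)) e
 (c (a (nat_lit 0xfe50203)) e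
 (c (a (nat_lit 0xfe78a03)) e
 (c z e
 (c z e
 (c (a (nat_lit 0xfd7f406)) e
 (c (a (nat_lit 0xfdbb807)) e
 (c (nat_lit 0x7ee097ee097ee097ee007ee09c72e7) e
 (c z e
 (c (a (nat_lit 0xff30c07)) e
 (c (nat_lit 0x7f1297f11a7f1107f1297f1297f16a) e
 (c (nat_lit 0x7f15d7f15d7f14b7f15d7f15dc240b) e
 (c (nat_lit 0x7f15d7f15d7f15d7f1527f15d5b7ab) e
 (c z e
 (c (nat_lit 0x7ff9a7ff9a800008000080000d49eb) e
 (c (nat_lit 0x7fcfb7fcd27fcfb7fcfb7fcfb7090e) e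
 (c (nat_lit 0x80000800007ffe88000080000d30ef) e
 (c z e
 (c z e
 (c (nat_lit 0x800007ffe47ffe48000080000fc2af) e e)))))))))))))))))))))))))))))))))))) Tr.c Tr.e (nat_lit 0) C.t5 C.t6 C.t7
noncomputable def tt226 : Tr := beta% (fun (c : Nat → Tr → Tr → Tr) (e : Tr) (z : Nat) (a b : Nat → Nat) =>
 (c (a (nat_lit 0x101efe00))
 (c (nat_lit 0x7c33b7c2f77c36e7c36e7c36e7c36e7c36ebb703) e
 (c (nat_lit 0x800007fecd7fe3f80000800008000080000dec86) e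
 (c (b (nat_lit 0xfa35207)) e
 (c (b (nat_lit 0xf69ac07)) e
 (c z e
 (c z e
 (c (b (nat_lit 0x10248c0a)) e
 (c z e
 (c (b (nat_lit 0x104dc20b)) e
 (c z e
 (c (b (nat_lit 0x1021fe0b)) e
 (c z e
 (c (b (nat_lit 0x10c82840)) e
 (c (b (nat_lit 0x106dac40)) e e))))))))))))))
 (c (a (nat_lit 0x101f3c00))
 (c (nat_lit 0x8000080000800007ffe2800008000080000faf06) e
 (c z e
 (c z e
 (c z e
 (c z e
 (c (b (nat_lit 0xfbcc60b)) e e))))))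
 (c (a (nat_lit 0x101f8e01)) e
 (c (a (nat_lit 0x101f8801))
 (c z e
 (c (b (nat_lit 0x10253c0b)) e
 (c z e
 (c z e
 (c z e
 (c z e
 (c (b (nat_lit 0xfc28c23)) e e)))))))
 (c (a (nat_lit 0x101ed201))
 (c (nat_lit 0x7b4e37b4e37b4e37b4e37b3e27b4e37b4e39a48b) e
 (c z e
 (c (b (nat_lit 0x1011ba0b)) e
 (c (b (nat_lit 0x103cfc0e)) e
 (c (nat_lit 0x7efd87efd87efd87efd87eba47efd87efd86a923) e
 (c (nat_lit 0x7c1107c1107c1107c1107bfd77c1107c11073aa3) e e))))))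
 (c (a (nat_lit 0x101f7a01)) e
 (c z e
 (c (a (nat_lit 0x102f0203)) e
 (c (a (nat_lit 0x10150803)) e
 (c (nat_lit 0x805f38068e8068e8068e8068e8068e56cc3) e
 (c z e
 (c z e
 (c (a (nat_lit 0x1035d607)) e
 (c (nat_lit 0x7dc1c7dc1c7db937dc1c7dc1c7dc1c30d87) e
 (c (a (nat_lit 0xfd6c007)) e
 (c z e
 (c (a (nat_lit 0x101bfe0a)) e
 (c (a (nat_lit 0x103dc40b)) e
 (c (a (nat_lit 0x1033840b)) e
 (c (a (nat_lit 0x10173c0b)) e
 (c (a (nat_lit 0x100dda0b)) e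
 (c (a (nat_lit 0x1028220e)) e
 (c (nat_lit 0x80000800008000080c1b80c1b80c1be32cf) e
 (c z e
 (c z e
 (c z e
 (c (nat_lit 0x80000800008000080000800007fec1e394f) e e)))))))))))))))))))))))))))) Tr.c Tr.e (nat_lit 0) C.t6 C.t7
noncomputable def tt227 : Tr := beta% (fun (c : Nat → Tr → Tr → Tr) (e : Tr) (z : Nat) (a b d : Nat → Nat) =>
 (c (a (nat_lit 0xfe01a00))
 (c (nat_lit 0x810068100680ffb80ffb80ffb80ffc6b341)
 (c z e
 (c (d (nat_lit 0xf334c0b)) e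
 (c z e
 (c z e
 (c z e
 (c (d (nat_lit 0x1024280e)) e e))))))
 (c (b (nat_lit 0x101fb201))
 (c z e
 (c z e
 (c (d (nat_lit 0x102fe40b)) e e)))
 (c z e
 (c z e
 (c (b (nat_lit 0x10085a03)) e
 (c (b (nat_lit 0x10138a03)) e
 (c (b (nat_lit 0x10189003)) e
 (c z e
 (c (b (nat_lit 0x1014c006)) e
 (c (b (nat_lit 0x102b1207)) e
 (c z e
 (c z e
 (c z e
 (c (b (nat_lit 0x1020800b)) e
 (c (b (nat_lit 0x1034680b)) e
 (c z e
 (c z e
 (c (nat_lit 0x80dc180dc180dbe80dc180dc180dc1557ce) e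
 (c (nat_lit 0x80b6080b6080b6080b3880b4580b609344f) e
 (c (b (nat_lit 0x100f880f)) e
 (c z e
 (c (b (nat_lit 0x100b060f)) e e))))))))))))))))))))))
 (c (a (nat_lit 0xfe02200))
 (c z
 (c (d (nat_lit 0xfe2a60b)) e
 (c z e
 (c z e
 (c z e
 (c z e
 (c z e
 (c (d (nat_lit 0xfffd40f)) e e)))))))
 (c z e
 (c z e
 (c (nat_lit 0x8093f8093f806f88093f8093f8093f95c83) e
 (c (b (nat_lit 0x103f2003)) e
 (c (b (nat_lit 0x100e0003)) e
 (c (b (nat_lit 0x10314606)) e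
 (c (nat_lit 0x80ecc80ecc80e0180e6580ecc80ecc78047) e
 (c (nat_lit 0x8000080000800007ff588000080000c0a87) e
 (c z e
 (c (nat_lit 0x820a68209182091820a6820a6820a606047) e
 (c (b (nat_lit 0x105cb40b)) e
 (c (b (nat_lit 0x102f1e0b)) e
 (c (b (nat_lit 0x102c900b)) e
 (c (b (nat_lit 0x1005960b)) e
 (c (b (nat_lit 0x10214c0e)) e
 (c (b (nat_lit 0x1020200f)) e
 (c (b (nat_lit 0x100dbe0f)) e
 (c (b (nat_lit 0x1005ac0f)) e
 (c (b (nat_lit 0x100bf60f)) e e))))))))))))))))))))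
 (c (a (nat_lit 0xfe01400))
 (c (b (nat_lit 0xfe8b203))
 (c (nat_lit 0x8000080000800007fe4a800008000080000fa80f) e e)
 (c z e
 (c z e
 (c (b (nat_lit 0x10402003)) e
 (c (b (nat_lit 0x106ff406)) e
 (c (nat_lit 0x80a1e80a1e80a1b80a1e80a1e80a1e5eec7) e
 (c z e
 (c (b (nat_lit 0x103a4807)) e
 (c z e
 (c z e
 (c (b (nat_lit 0x104d060b)) e
 (c z e
 (c z e
 (c (b (nat_lit 0x101d1e0e)) e
 (c (b (nat_lit 0x1016820f)) e e)))))))))))))))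
 (c (a (nat_lit 0xfe01800))
 (c z e
 (c z e
 (c z e
 (c z e
 (c z e
 (c z e
 (c (b (nat_lit 0x103ace07)) e
 (c (b (nat_lit 0xfe40e0b)) e
 (c z e
 (c z e
 (c z e
 (c (b (nat_lit 0x103ebe0e)) e
 (c z e
 (c (b (nat_lit 0x10187a0f)) e e))))))))))))))
 (c (nat_lit 0x7f0157f0147f0147f0147f01563aa0)
 (c (nat_lit 0x81b6d81c4b81c4b81c4b81c4b81c4b0cc06) e
 (c (b (nat_lit 0x10258007)) e
 (c z e
 (c z e
 (c (b (nat_lit 0x10171207)) e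
 (c (nat_lit 0x80777807778071e80673807778077703ecb) e
 (c z e
 (c z e
 (c z e
 (c (b (nat_lit 0x101f320e)) e
 (c (b (nat_lit 0x100e0c0f)) e
 (c (b (nat_lit 0xffa0c0f)) e
 (c z e
 (c (nat_lit 0x8073a8073a80613802dc8073a8073aac10f) e e))))))))))))))
 (c (a (nat_lit 0xfdfea00))
 (c (b (nat_lit 0x10296c07)) e
 (c z e
 (c (b (nat_lit 0x10200407)) e
 (c (b (nat_lit 0x102c960b)) e
 (c (b (nat_lit 0x1014cc0b)) e
 (c (b (nat_lit 0x100c200b)) e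
 (c z e
 (c (b (nat_lit 0x100f2a0e)) e
 (c (b (nat_lit 0x100d7e0f)) e
 (c (nat_lit 0x7fc0b7fc0b7fc0b7fc0b7fb587fc0ba6ecf) e
 (c (b (nat_lit 0xfffa40f)) e
 (c (b (nat_lit 0x1003ea0f)) e e))))))))))))
 (c (a (nat_lit 0xfe02200))
 (c z e
 (c (nat_lit 0x80e6d80e4080e6d80dc380e6d80e6d2100b) e
 (c z e
 (c z e
 (c z e
 (c z e
 (c (b (nat_lit 0x1005f40f)) e
 (c (b (nat_lit 0xffffe0f)) e e))))))))
 (c (nat_lit 0x7f00f7f00c7f00e7f00d7f00f0ff40)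
 (c (nat_lit 0x8175c8175c817418175c8175c8175ce7c8b) e
 (c z e
 (c z e
 (c (b (nat_lit 0x10213c0e)) e
 (c (nat_lit 0x80000800007fdbb7fef580000800001244f) e
 (c (b (nat_lit 0xfe89e0f)) e
 (c z e
 (c (b (nat_lit 0x101c7e0f)) e e))))))))
 (c (a (nat_lit 0xfe04e00))
 (c z e
 (c (nat_lit 0x8172881720817288172881728817289634e) e
 (c z e
 (c z e
 (c z e
 (c (b (nat_lit 0x102f1e0f)) e e))))))
 (c (a (nat_lit 0xfe01600))
 (c (nat_lit 0x80000800007fc21800008000080000715cf) e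
 (c z e
 (c (b (nat_lit 0x102f020f)) e
 (c (b (nat_lit 0x105fc80f)) e e))))
 (c (a (nat_lit 0xfe01a00))
 (c z e
 (c z e
 (c (nat_lit 0x80000800008000083b1e83b1e83b1e25a90) e
 (c (nat_lit 0x80000800008000080000826478264cd3fd0) e e))))
 (c (nat_lit 0x7f00b7f0087f0087f0087f009d6bc1)
 (c (nat_lit 0x800008000088000880008800088000ac1d0) e
 (c (nat_lit 0x800008000080000822e6822e8822e890890) e
 (c (nat_lit 0x80000800008000080000810d6810d615210) e e)))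
 (c (a (nat_lit 0xfe00001)) e
 (c (nat_lit 0x7f0267f0267f0267f0127f015ddd01) e
 (c (nat_lit 0x7f0647f0647f0647f0647f01756dc1) e
 (c (a (nat_lit 0xfe71802)) e
 (c (a (nat_lit 0xfe90603)) e
 (c (a (nat_lit 0xfef3a03)) e
 (c (a (nat_lit 0xff86a03)) e
 (c z e
 (c (a (nat_lit 0xfe03206)) e
 (c (a (nat_lit 0xfe00007)) e
 (c (a (nat_lit 0xfe33a07)) e
 (c z e
 (c (a (nat_lit 0xfe84407)) e
 (c (nat_lit 0x7f0db7f0ba7f0cb7f0db7f0dbbb2ab) e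
 (c (nat_lit 0x7f0d17f0d17f0b97f0cc7f0d1013ab) e
 (c z e
 (c z e
 (c (nat_lit 0x7fb2b7fb3b7fb697fb737fb7366cce) e
 (c (nat_lit 0x7fb387fad37fae67fb227fb38bae8f) e
 (c (nat_lit 0x8000080000800007ff987ff98f5f8f) e
 (c z e
 (c (a (nat_lit 0xfef080f)) e e))))))))))))))))))))))))))))))))))) Tr.c Tr.e (nat_lit 0) C.t5 C.t6 C.t7
noncomputable def tt228 : Tr := beta% (fun (c : Nat → Tr → Tr → Tr) (e : Tr) (z : Nat) (a b : Nat → Nat) =>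
 (c (a (nat_lit 0x101f1a00))
 (c (b (nat_lit 0x102f8a03)) e
 (c (b (nat_lit 0xfc1e403)) e
 (c z e
 (c (nat_lit 0x7efe37efe37ef437efd77efe37efe37efe334b07) e
 (c (b (nat_lit 0xf9f1007)) e
 (c (b (nat_lit 0xffdfa07)) e
 (c z e
 (c (b (nat_lit 0xfbb340b)) e
 (c (b (nat_lit 0xf7dee0b)) e
 (c z e
 (c z e
 (c z e
 (c (b (nat_lit 0x1029000f)) e
 (c (nat_lit 0x81b8e81b8e81b8e81b0881b8e81b8e81b8ec498f) e
 (c (nat_lit 0x82b308357e8357e8357e8357e8357e8357ea520f) e e)))))))))))))))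
 (c (a (nat_lit 0x101f7200)) e
 (c (a (nat_lit 0x101f7600)) e
 (c (a (nat_lit 0x101fa601))
 (c z e
 (c (nat_lit 0x79fe979fe979fe979fe979fe979fe979c5bc620b) e
 (c z e
 (c z e
 (c z e
 (c z e
 (c (b (nat_lit 0xffee80f)) e
 (c z e
 (c (b (nat_lit 0x10672c0f)) e e)))))))))
 (c (a (nat_lit 0x101f8a01))
 (c (b (nat_lit 0xfedf40b)) e
 (c z e
 (c z e
 (c (b (nat_lit 0xfaeec0e)) e e))))
 (c (a (nat_lit 0x101fb601))
 (c z e
 (c z e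
 (c z e
 (c z e
 (c (b (nat_lit 0xfff420f)) e e)))))
 (c z e
 (c (a (nat_lit 0x1025ac02)) e
 (c (a (nat_lit 0x102c0603)) e
 (c (nat_lit 0x81f3781f3781f1981f3781f3781f37d84c3) e
 (c z e
 (c z e
 (c (a (nat_lit 0xfdaf406)) e
 (c z e
 (c (nat_lit 0x7bc917bc917bc917bb307bc917bc9114847) e
 (c (a (nat_lit 0xff3b207)) e
 (c (a (nat_lit 0xff52c07)) e
 (c (a (nat_lit 0x1013ca0b)) e
 (c (a (nat_lit 0x100f960b)) e
 (c z e
 (c (a (nat_lit 0x101e060b)) e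
 (c (a (nat_lit 0x102afc0e)) e
 (c (a (nat_lit 0x1036320f)) e
 (c (a (nat_lit 0x1035e60f)) e e))))))))))))))))))))))))) Tr.c Tr.e (nat_lit 0) C.t6 C.t7
noncomputable def tt229 : Tr := beta% (fun (c : Nat → Tr → Tr → Tr) (e : Tr) (z : Nat) (a b : Nat → Nat) =>
 (c (a (nat_lit 0x101f5800))
 (c (nat_lit 0x79dc979dc979dc979dc979cce79dc979dc98c882) e
 (c (nat_lit 0x7f65f7f65f7f1c87f65f7f65f7f4457f65f1be83) e
 (c (b (nat_lit 0xf47e403)) e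
 (c z e
 (c z e
 (c (nat_lit 0x7e2b57e2b57e2067e2b57e2b57e2b57e2b576706) e
 (c z e
 (c (b (nat_lit 0xfe02a07)) e
 (c (nat_lit 0x800007fcd080000800008000080000800000bb07) e
 (c (b (nat_lit 0xfffce07)) e
 (c z e
 (c (b (nat_lit 0xffe500b)) e
 (c z e
 (c (b (nat_lit 0x1060780b)) e
 (c (nat_lit 0x840ea840ea83f88840ea840ea840ea840ea5ff0e) e e)))))))))))))))
 (c (a (nat_lit 0x101f6000))
 (c z e
 (c z e
 (c z e
 (c z e
 (c (nat_lit 0x80000800007ffc37ffe380000800007fe1f30087) e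
 (c z e
 (c z e
 (c z e
 (c z e
 (c (b (nat_lit 0xfe0940b)) e
 (c (b (nat_lit 0x10274c0b)) e
 (c z e
 (c (b (nat_lit 0x1043ca0e)) e
 (c (b (nat_lit 0x1059060f)) e
 (c (b (nat_lit 0x1087280f)) e e)))))))))))))))
 (c (a (nat_lit 0x101fa000))
 (c z e
 (c z e
 (c z e
 (c z e
 (c z e
 (c z e
 (c z e
 (c z e
 (c (b (nat_lit 0xffe940b)) e
 (c (b (nat_lit 0xfff720b)) e e))))))))))
 (c (a (nat_lit 0x101f8e00))
 (c (nat_lit 0x7efbd7ef9f7efbd7ef4c7efbd7efbd7efbd1cc87) e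
 (c (nat_lit 0x7dc947dc947dc947dc887dc167dc947dc94a9107) e e))
 (c (a (nat_lit 0x101f6c00))
 (c (nat_lit 0x800008000080000800007fc347fbde80000fc987) e
 (c z e
 (c (nat_lit 0x8000080000800007f9308000080000800002388a) e
 (c z e
 (c (b (nat_lit 0xffd540b)) e
 (c (b (nat_lit 0xfff840b)) e
 (c (b (nat_lit 0xff6100e)) e
 (c (b (nat_lit 0xffb5a0f)) e
 (c (nat_lit 0x7f66d7f66d7f66d7f66d7f66d7f2a77f66d1858f) e
 (c z e
 (c (b (nat_lit 0xfffca0f)) e e)))))))))))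
 (c (a (nat_lit 0x101f9e01))
 (c (b (nat_lit 0x107cb20b)) e
 (c z e
 (c z e
 (c z e
 (c (b (nat_lit 0xff2380e)) e
 (c (b (nat_lit 0xfc9300f)) e e))))))
 (c (a (nat_lit 0x101fca01)) e
 (c (a (nat_lit 0x101f7401)) e
 (c (nat_lit 0x810408104081040810408102c8102f8b901)
 (c (b (nat_lit 0xfb26a0f)) e e)
 (c (a (nat_lit 0x1009aa02)) e
 (c (a (nat_lit 0x1012ee03)) e
 (c (a (nat_lit 0x10126203)) e
 (c (nat_lit 0x8114b8114b8114b8112c8114b8114b0a943) e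
 (c z e
 (c (a (nat_lit 0x100f4a06)) e
 (c (a (nat_lit 0x101d4407)) e
 (c (a (nat_lit 0x10160e07)) e
 (c (a (nat_lit 0xfdd8607)) e
 (c z e
 (c (a (nat_lit 0x1018240b)) e
 (c (a (nat_lit 0x100fa60b)) e
 (c z e
 (c z e
 (c (a (nat_lit 0x1019680e)) e
 (c (nat_lit 0x80d5380d3780d5380d3680d5380d5375c0f) e
 (c (nat_lit 0x80b4e80b4e80b4e80b4e80aa080b4e700cf) e
 (c z e
 (c (nat_lit 0x80a67809288092880a6780a6780a67d818f) e e))))))))))))))))))))))))))))) Tr.c Tr.e (nat_lit 0) C.t6 C.t7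
noncomputable def tt230 : Tr := beta% (fun (c : Nat → Tr → Tr → Tr) (e : Tr) (z : Nat) (a b d : Nat → Nat) =>
 (c (a (nat_lit 0xfe03000))
 (c (b (nat_lit 0x100aae01))
 (c z e
 (c z e
 (c z e
 (c (d (nat_lit 0xf71ce0f)) e
 (c (d (nat_lit 0xfa5840f)) e e)))))
 (c (b (nat_lit 0x101fda01))
 (c z e
 (c (d (nat_lit 0xfff320f)) e e))
 (c (b (nat_lit 0x10252202)) e
 (c (nat_lit 0x80d7280ced80d7280d7280d7280d725b7c3) e
 (c (b (nat_lit 0x10348003)) e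
 (c (b (nat_lit 0x1020f803)) e
 (c z e
 (c z e
 (c (b (nat_lit 0x10421e07)) e
 (c z e
 (c z e
 (c (b (nat_lit 0x1001ba07)) e
 (c (b (nat_lit 0xfee2e0b)) e
 (c z e
 (c z e
 (c (b (nat_lit 0x1018ee0e)) e
 (c (b (nat_lit 0x101ace0f)) e
 (c (b (nat_lit 0x1016740f)) e
 (c z e
 (c (b (nat_lit 0x10059c0f)) e
 (c (nat_lit 0x80000800007fff17fff18000080000ae756) e e)))))))))))))))))))))
 (c (a (nat_lit 0xfe00000))
 (c z e
 (c z e
 (c z e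
 (c z e
 (c z e
 (c (b (nat_lit 0x100b6a06)) e
 (c (b (nat_lit 0x10243e07)) e
 (c z e
 (c z e
 (c z e
 (c (b (nat_lit 0x1035160b)) e
 (c z e
 (c z e
 (c (b (nat_lit 0x1025d20e)) e
 (c (b (nat_lit 0x1012760f)) e
 (c (nat_lit 0x80000800007ffe97ffe98000080000aba0f) e
 (c (nat_lit 0x8000080000800007ffa77ffa7800000da8f) e e)))))))))))))))))
 (c (a (nat_lit 0xfe02a00))
 (c z e
 (c z e
 (c z e
 (c z e
 (c (nat_lit 0x82f7882f788257e82d3e82f7882f786a847) e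
 (c z e
 (c z e
 (c z e
 (c (b (nat_lit 0xff2f40b)) e
 (c z e
 (c z e
 (c z e
 (c z e
 (c (b (nat_lit 0xffabc0f)) e
 (c z e
 (c (b (nat_lit 0x1014ac0f)) e e))))))))))))))))
 (c (a (nat_lit 0xfe00600))
 (c z e
 (c (b (nat_lit 0x10366c06)) e
 (c z e
 (c z e
 (c z e
 (c (b (nat_lit 0x10754607)) e
 (c z e
 (c (b (nat_lit 0xffeb20b)) e
 (c z e
 (c (b (nat_lit 0x1013840e)) e
 (c (b (nat_lit 0x1005b40f)) e
 (c z e
 (c (b (nat_lit 0xfffa80f)) e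
 (c (b (nat_lit 0x1004440f)) e
 (c z e
 (c z e
 (c z e
 (c (nat_lit 0x80000800008000080000800007ff80dc853) e e))))))))))))))))))
 (c (nat_lit 0x7f0177f0177f0157f0157f015e4e40)
 (c (nat_lit 0x81767817678166f81767817678176798147) e
 (c z e
 (c z e
 (c z e
 (c (nat_lit 0x81980819808172681980819808198007e8b) e
 (c z e
 (c z e
 (c (nat_lit 0x8089d8089d8089d8089d8089d807a17f10e) e
 (c (b (nat_lit 0x100b740f)) e
 (c (b (nat_lit 0xffeca0f)) e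
 (c z e
 (c (b (nat_lit 0x100bc20f)) e e))))))))))))
 (c (nat_lit 0x7f01e7f01d7f01d7f01d7f020b9a20)
 (c z e
 (c (nat_lit 0x800007ffd27fff180000800008000083347) e
 (c z e
 (c z e
 (c z e
 (c (b (nat_lit 0xfe9e80e)) e
 (c (b (nat_lit 0x1007120f)) e
 (c (b (nat_lit 0xff8080f)) e
 (c z e
 (c (b (nat_lit 0x1001c20f)) e e))))))))))
 (c (a (nat_lit 0xfdfea00))
 (c (nat_lit 0x81113811138105a81113811138111350d4b) e
 (c z e
 (c z e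
 (c z e
 (c (nat_lit 0x80000800007fd6c7fdda800008000048dcf) e
 (c (nat_lit 0x7f9ec7f9ec7f9d87f9d87f9ec7f9ecbb58f) e
 (c z e
 (c (b (nat_lit 0x1014160f)) e e))))))))
 (c (a (nat_lit 0xfe05200))
 (c (b (nat_lit 0xff08e0b)) e
 (c (b (nat_lit 0x10418c0e)) e
 (c z e
 (c (b (nat_lit 0x102e6c0f)) e e))))
 (c (a (nat_lit 0xfe01c00))
 (c z e
 (c z e
 (c (b (nat_lit 0x101d040f)) e
 (c (b (nat_lit 0x1034360f)) e
 (c (nat_lit 0x80000800008000080f3280f3280f32a1a10) e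
 (c (nat_lit 0x800008000080000800008057e8057eb9550) e e))))))
 (c (a (nat_lit 0xfe00a00))
 (c z e
 (c (b (nat_lit 0x104d7c0f)) e
 (c (nat_lit 0x8000080000812cb812cb812cb812cb334d0) e
 (c (nat_lit 0x80000800008000081268812688126856550) e
 (c (nat_lit 0x8000080000800008000080df480dec45450) e e)))))
 (c (a (nat_lit 0xfe01000))
 (c (b (nat_lit 0x11000a10)) e
 (c (nat_lit 0x8000080000822b0822c9822c9822c99b6d0) e
 (c (nat_lit 0x80000800008000080f1580f2680f2682ad0) e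
 (c (nat_lit 0x8000080000800008000080f7f80f87b6650) e e))))
 (c (a (nat_lit 0xfe00401)) e
 (c (a (nat_lit 0xfe01201)) e
 (c (a (nat_lit 0xfdfee01)) e
 (c (nat_lit 0x7f22e7f22e7f22e7f22e7f0207d821) e
 (c (a (nat_lit 0xfe79402)) e
 (c (a (nat_lit 0xfe89c03)) e
 (c (a (nat_lit 0xfefc203)) e
 (c (a (nat_lit 0x10042003)) e
 (c (a (nat_lit 0x101b3a03)) e
 (c (a (nat_lit 0xfeb8606)) e
 (c (a (nat_lit 0xfed3807)) e
 (c (a (nat_lit 0xff67607)) e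
 (c (a (nat_lit 0xff75e07)) e
 (c (a (nat_lit 0xffb6c07)) e
 (c (a (nat_lit 0x1002560b)) e
 (c (a (nat_lit 0x1003fc0b)) e
 (c z e
 (c (nat_lit 0x7f68b7f57c7f57c7f6b47f6b42680e) e
 (c (nat_lit 0x7fcbc7fc8b7fca97fcbc7fcbc021cf) e
 (c (nat_lit 0x80000800007ffe87ffe8800006772f) e
 (c z e
 (c (a (nat_lit 0x10100c0f)) e e)))))))))))))))))))))))))))))))))) Tr.c Tr.e (nat_lit 0) C.t5 C.t6 C.t7
noncomputable def tt231 : Tr := beta% (fun (c : Nat → Tr → Tr → Tr) (e : Tr) (z : Nat) (a b : Nat → Nat) =>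
 (c (a (nat_lit 0x101f1a00))
 (c (b (nat_lit 0xf986403)) e
 (c z e
 (c z e
 (c z e
 (c z e
 (c z e
 (c (b (nat_lit 0xfff5807)) e
 (c z e
 (c z e
 (c z e
 (c z e
 (c (nat_lit 0x80000800007fe7b800008000080000800000778e) e
 (c z e
 (c z e
 (c z e
 (c z e
 (c (b (nat_lit 0xffe0a1a)) e e)))))))))))))))))
 (c (a (nat_lit 0x101f5c00))
 (c z e
 (c z e
 (c z e
 (c z e
 (c z e
 (c z e
 (c z e
 (c (b (nat_lit 0xffea00b)) e e))))))))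
 (c (a (nat_lit 0x101f6600)) e
 (c (a (nat_lit 0x101f5600)) e
 (c (a (nat_lit 0x101fac01))
 (c z e
 (c z e
 (c z e
 (c z e
 (c z e
 (c (b (nat_lit 0xfc0320f)) e e))))))
 (c (a (nat_lit 0x101fb201)) e
 (c (a (nat_lit 0x10201c01)) e
 (c (a (nat_lit 0x1013f201)) e
 (c (a (nat_lit 0x10144c02)) e
 (c (a (nat_lit 0x10128603)) e
 (c (a (nat_lit 0x101c6403)) e
 (c (a (nat_lit 0xfe26c03)) e
 (c z e
 (c (nat_lit 0x7fe377fe37800008000080000800000ad86) e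
 (c (a (nat_lit 0x100b4207)) e
 (c z e
 (c z e
 (c (a (nat_lit 0x10057407)) e
 (c z e
 (c z e
 (c z e
 (c z e
 (c z e
 (c (a (nat_lit 0x100a380f)) e
 (c z e
 (c (a (nat_lit 0xfff140f)) e e))))))))))))))))))))))))))) Tr.c Tr.e (nat_lit 0) C.t6 C.t7
noncomputable def tt232 : Tr := beta% (fun (c : Nat → Tr → Tr → Tr) (e : Tr) (z : Nat) (a b : Nat → Nat) =>
 (c (a (nat_lit 0x101f4200))
 (c (nat_lit 0x7e0817e0817e0817e00e7e0817e0817e081f7201) e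
 (c (b (nat_lit 0xf720a02)) e
 (c (b (nat_lit 0xfaafe03)) e
 (c (nat_lit 0x7e90d7e90d7e5667e90d7e90d7e90d7e90d73083) e
 (c z e
 (c (b (nat_lit 0xf912403)) e
 (c z e
 (c z e
 (c (nat_lit 0x7f5b57f5b57f5b57f5b57f4ea7f5b57f5b5df807) e
 (c z e
 (c (b (nat_lit 0x1028ec07)) e
 (c (b (nat_lit 0xfff6c0b)) e
 (c (b (nat_lit 0x10129c0b)) e
 (c z e
 (c z e
 (c z e
 (c z e
 (c (b (nat_lit 0x1026d40f)) e
 (c (b (nat_lit 0xfff080f)) e
 (c (b (nat_lit 0xff6a417)) e e))))))))))))))))))))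
 (c (a (nat_lit 0x101f5400))
 (c z e
 (c z e
 (c z e
 (c z e
 (c z e
 (c z e
 (c z e
 (c z e
 (c z e
 (c (b (nat_lit 0xffbf80b)) e
 (c z e
 (c z e
 (c z e
 (c z e
 (c z e
 (c z e
 (c z e
 (c (b (nat_lit 0xfffe017)) e e))))))))))))))))))
 (c (a (nat_lit 0x101f8e00)) e
 (c (a (nat_lit 0x101f8600))
 (c z e
 (c (b (nat_lit 0xfe75c07)) e
 (c z e
 (c z e
 (c z e
 (c (b (nat_lit 0xfe4be0b)) e
 (c z e
 (c z e
 (c z e
 (c z e
 (c z e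
 (c z e
 (c z e
 (c (b (nat_lit 0xffdb617)) e e))))))))))))))
 (c (a (nat_lit 0x101f2400))
 (c (nat_lit 0x7e9067e9067e9067e9067e5d17e9067e9067f107) e
 (c z e
 (c z e
 (c (b (nat_lit 0xfe1500b)) e
 (c z e
 (c z e
 (c (b (nat_lit 0xffe7c0e)) e
 (c z e
 (c z e
 (c z e
 (c z e
 (c (b (nat_lit 0xfe43a17)) e e))))))))))))
 (c (a (nat_lit 0x101fb600)) e
 (c (a (nat_lit 0x101fc001)) e
 (c (a (nat_lit 0x101fcc01))
 (c z e
 (c z e
 (c z e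
 (c z e
 (c z e
 (c (b (nat_lit 0xfe64617)) e e))))))
 (c (a (nat_lit 0x10203201)) e
 (c (a (nat_lit 0x101fa801)) e
 (c (a (nat_lit 0x100ab402)) e
 (c z e
 (c (a (nat_lit 0x1002fe03)) e
 (c z e
 (c z e
 (c (a (nat_lit 0x10146206)) e
 (c (a (nat_lit 0x101d3e07)) e
 (c (a (nat_lit 0xfcef607)) e
 (c z e
 (c (a (nat_lit 0x10050c07)) e
 (c (a (nat_lit 0x100b880b)) e
 (c (nat_lit 0x7ff978000080000800008000080000b098b) e
 (c z e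
 (c (a (nat_lit 0x1005b20e)) e
 (c (nat_lit 0x80cf280cf280cb880c2f80cf280cf293e0f) e
 (c (nat_lit 0x80bb680c3e80c3e80c3e80c1d80c3e6028f) e
 (c (a (nat_lit 0xfff420f)) e
 (c z e
 (c (nat_lit 0x8022e8022e8022e801c08022e8022e9a2d7) e e)))))))))))))))))))))))))))))) Tr.c Tr.e (nat_lit 0) C.t6 C.t7
noncomputable def tt233 : Tr := beta% (fun (c : Nat → Tr → Tr → Tr) (e : Tr) (z : Nat) (a b : Nat → Nat) =>
 (c (a (nat_lit 0x101f7e00))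
 (c (b (nat_lit 0xfdacc01)) e
 (c (b (nat_lit 0xfddc001)) e
 (c (b (nat_lit 0xfe12a01)) e
 (c (b (nat_lit 0xfe2c601)) e
 (c (nat_lit 0x7f1577f1577f1577f1577f1577f1447f14a13402) e
 (c (b (nat_lit 0xfe1c603)) e
 (c z e
 (c (b (nat_lit 0xf950803)) e
 (c z e
 (c z e
 (c z e
 (c z e
 (c z e
 (c z e
 (c z e
 (c z e
 (c (nat_lit 0x7ff8b7ff6b8000080000800008000080000f6b0b) e
 (c z e
 (c (b (nat_lit 0xff0620f)) e
 (c z e
 (c (b (nat_lit 0xfff000f)) e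
 (c (b (nat_lit 0x1007aa0f)) e
 (c z e
 (c z e
 (c z e
 (c z e
 (c z e
 (c (nat_lit 0x8000080000800008000080000800007fdc680c9e) e e))))))))))))))))))))))))))))
 (c (a (nat_lit 0x101fa800))
 (c (b (nat_lit 0xfdef601)) e
 (c (b (nat_lit 0xfa99001)) e
 (c (b (nat_lit 0xfe1ea02)) e
 (c (b (nat_lit 0xfd1b803)) e
 (c (b (nat_lit 0xfd33003)) e
 (c (b (nat_lit 0xf566403)) e
 (c z e
 (c z e
 (c (b (nat_lit 0xfe54607)) e
 (c z e
 (c z e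
 (c z e
 (c z e
 (c z e
 (c z e
 (c (b (nat_lit 0x100da00e)) e
 (c z e
 (c (nat_lit 0x8129d812de812de812de812de812de812deb950f) e
 (c (nat_lit 0x800007fef38000080000800008000080000dd18f) e
 (c z e
 (c (nat_lit 0x7fff57fff57fff57ffb67fff57fff57fff556227) e e)))))))))))))))))))))
 (c (a (nat_lit 0x101f6000))
 (c (b (nat_lit 0xfac2002)) e
 (c z e
 (c (nat_lit 0x7dd627dd627dd627dd367dd627dd627dd628ad83) e
 (c z e
 (c z e
 (c z e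
 (c z e
 (c z e
 (c z e
 (c (b (nat_lit 0xffd4e07)) e
 (c z e
 (c (b (nat_lit 0x1056480b)) e
 (c z e
 (c z e
 (c z e
 (c z e
 (c z e
 (c z e
 (c (b (nat_lit 0xffed22a)) e e)))))))))))))))))))
 (c (a (nat_lit 0x101f7e00))
 (c z e
 (c z e
 (c z e
 (c z e
 (c z e
 (c z e
 (c z e
 (c z e
 (c z e
 (c z e
 (c (b (nat_lit 0x1053cc0b)) e
 (c z e
 (c z e
 (c z e
 (c z e
 (c z e
 (c (b (nat_lit 0xff9c429)) e e)))))))))))))))))
 (c (a (nat_lit 0x101f8400))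
 (c z e
 (c (nat_lit 0x800007fd9f7ff82800008000080000800008d506) e
 (c z e
 (c z e
 (c z e
 (c (b (nat_lit 0xff3e007)) e
 (c z e
 (c z e
 (c z e
 (c z e
 (c z e
 (c z e
 (c z e
 (c (b (nat_lit 0xffeac0f)) e e))))))))))))))
 (c (a (nat_lit 0x101f5e00))
 (c (nat_lit 0x8000080000800007ffec80000800008000027686) e
 (c z e
 (c z e
 (c z e
 (c (b (nat_lit 0xfda8c0b)) e
 (c z e
 (c z e
 (c z e
 (c (b (nat_lit 0xfee3e0f)) e
 (c z e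
 (c z e
 (c z e
 (c (b (nat_lit 0xffd0a26)) e e)))))))))))))
 (c (a (nat_lit 0x101fcc00)) e
 (c (a (nat_lit 0x101f7600))
 (c z e
 (c (b (nat_lit 0xfff840b)) e
 (c z e
 (c (nat_lit 0x8000080000800008000080000800007fb4c7e58b) e e))))
 (c (a (nat_lit 0x101fea01)) e
 (c (a (nat_lit 0x101f7601)) e
 (c (a (nat_lit 0x101f4401)) e
 (c (a (nat_lit 0x101b8201))
 (c (b (nat_lit 0x1034d021)) e e)
 (c z e
 (c z e
 (c z e
 (c (a (nat_lit 0x100ed603)) e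
 (c (a (nat_lit 0x10058e03)) e
 (c (a (nat_lit 0x101e9806)) e
 (c (a (nat_lit 0x101f5007)) e
 (c (a (nat_lit 0x1016a807)) e
 (c z e
 (c (a (nat_lit 0xffbde07)) e
 (c (a (nat_lit 0x1010ca0b)) e
 (c z e
 (c z e
 (c (nat_lit 0x8041d803f88041d8041d8041d8041dae54e) e
 (c (a (nat_lit 0x1009620f)) e e)))))))))))))))))))))))))))) Tr.c Tr.e (nat_lit 0) C.t6 C.t7
noncomputable def tt234 : Tr := beta% (fun (c : Nat → Tr → Tr → Tr) (e : Tr) (z : Nat) (a b d : Nat → Nat) =>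
 (c (a (nat_lit 0xfe01000)) tt233
 (c (a (nat_lit 0xfe02200)) tt232
 (c (a (nat_lit 0xfe02800)) tt231
 (c (nat_lit 0x7f0117f0107f0107f0107f011a48a0)
 (c (b (nat_lit 0x101f4a00)) e
 (c (b (nat_lit 0x101f8400)) e
 (c (b (nat_lit 0x101f9001)) e
 (c (b (nat_lit 0x101fea01)) e
 (c (b (nat_lit 0x101fc801)) e
 (c (b (nat_lit 0x1011e601)) e
 (c (b (nat_lit 0x10107802)) e
 (c (b (nat_lit 0x10139c03)) e
 (c (b (nat_lit 0x101f1a03)) e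
 (c z e
 (c (b (nat_lit 0xfff4c03)) e
 (c z e
 (c z e
 (c z e
 (c z e
 (c z e
 (c (b (nat_lit 0x10065a0b)) e
 (c z e
 (c z e
 (c (b (nat_lit 0x1011de0e)) e
 (c z e
 (c z e
 (c (nat_lit 0x7ffde7ffde7ffde7ff9c7ff9c7ffde90f0f) e
 (c z e
 (c (b (nat_lit 0xffda019)) e e)))))))))))))))))))))))))
 (c (a (nat_lit 0xfe01800))
 (c (b (nat_lit 0x101ff401))
 (c z e
 (c z e
 (c z e
 (c z e
 (c z e
 (c (d (nat_lit 0xfc8140e)) e e))))))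
 (c (b (nat_lit 0x101fd201))
 (c z e
 (c z e
 (c z e
 (c z e
 (c (nat_lit 0x7c7777c7777c7777c6b57c7777c7777c7772558f) e e)))))
 (c (b (nat_lit 0x101ff601)) e
 (c (b (nat_lit 0x101f7a01)) e
 (c (b (nat_lit 0x1010a802)) e
 (c (b (nat_lit 0x100c0803)) e
 (c (b (nat_lit 0x1019ea03)) e
 (c (b (nat_lit 0x10198c03)) e
 (c z e
 (c (b (nat_lit 0x10276606)) e
 (c (b (nat_lit 0x103cfa07)) e
 (c z e
 (c (b (nat_lit 0x1006bc07)) e
 (c z e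
 (c (b (nat_lit 0x10047e0b)) e
 (c z e
 (c z e
 (c (b (nat_lit 0x10290c0e)) e
 (c (b (nat_lit 0x101c160f)) e
 (c z e
 (c (b (nat_lit 0xfff200f)) e
 (c (b (nat_lit 0x10076c0f)) e e)))))))))))))))))))))) tt230)))))) Tr.c Tr.e (nat_lit 0) C.t5 C.t6 C.t7
noncomputable def tt235 : Tr := beta% (fun (c : Nat → Tr → Tr → Tr) (e : Tr) (z : Nat) (a b : Nat → Nat) =>
 (c (a (nat_lit 0xfe01800))
 (c (b (nat_lit 0x101fa200)) e
 (c (b (nat_lit 0x101fe001)) e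
 (c (b (nat_lit 0x101fe401)) e
 (c (b (nat_lit 0x101fd201)) e
 (c (b (nat_lit 0x101f9001)) e
 (c (b (nat_lit 0x100eca02)) e
 (c (b (nat_lit 0x100b7803)) e
 (c (b (nat_lit 0x1022e203)) e
 (c (b (nat_lit 0x10194003)) e
 (c (b (nat_lit 0xfd0ea03)) e
 (c z e
 (c z e
 (c z e
 (c z e
 (c z e
 (c z e
 (c z e
 (c (b (nat_lit 0x1003c20e)) e
 (c (b (nat_lit 0x1025380f)) e
 (c (nat_lit 0x8000080000800007ffa2800008000073bcf) e
 (c z e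
 (c z e
 (c (b (nat_lit 0xffe9a16)) e e)))))))))))))))))))))))
 (c (a (nat_lit 0xfe01c00))
 (c (b (nat_lit 0x1012da01)) e
 (c (b (nat_lit 0x101fda01)) e
 (c (b (nat_lit 0x101fd401)) e
 (c (b (nat_lit 0x100a1c02)) e
 (c z e
 (c (b (nat_lit 0x10174603)) e
 (c (b (nat_lit 0x10177e03)) e
 (c z e
 (c z e
 (c z e
 (c z e
 (c z e
 (c z e
 (c z e
 (c z e
 (c (b (nat_lit 0xffa020e)) e
 (c z e
 (c z e
 (c (b (nat_lit 0xfffd80f)) e e)))))))))))))))))))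
 (c (a (nat_lit 0xfe00c00))
 (c z e
 (c z e
 (c z e
 (c z e
 (c z e
 (c (b (nat_lit 0xfe75e03)) e
 (c (b (nat_lit 0xfe17406)) e
 (c (b (nat_lit 0x103a1407)) e
 (c z e
 (c z e
 (c z e
 (c z e
 (c z e
 (c (b (nat_lit 0x101e580e)) e
 (c (b (nat_lit 0x1011c00f)) e
 (c z e
 (c (b (nat_lit 0xfffb80f)) e
 (c (b (nat_lit 0xfff780f)) e e))))))))))))))))))
 (c (a (nat_lit 0xfe01600))
 (c z e
 (c (b (nat_lit 0x1015ac03)) e
 (c z e
 (c z e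
 (c z e
 (c z e
 (c z e
 (c z e
 (c z e
 (c z e
 (c (b (nat_lit 0x100b780b)) e
 (c z e
 (c z e
 (c (b (nat_lit 0xfee4a0f)) e e))))))))))))))
 (c (a (nat_lit 0xfe01800))
 (c (b (nat_lit 0x10298c03)) e
 (c z e
 (c z e
 (c z e
 (c z e
 (c z e
 (c z e
 (c z e
 (c z e
 (c z e
 (c z e
 (c (b (nat_lit 0xffe960f)) e
 (c (b (nat_lit 0xfffe80f)) e
 (c (nat_lit 0x800007ffff800008000080000800002b70f) e
 (c (b (nat_lit 0x10082418)) e e)))))))))))))))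
 (c (nat_lit 0x7f0177f0157f0157f0157f01527ba0)
 (c (b (nat_lit 0x10172006)) e
 (c (b (nat_lit 0x10127807)) e
 (c z e
 (c z e
 (c z e
 (c z e
 (c z e
 (c (b (nat_lit 0x101a540e)) e
 (c (b (nat_lit 0x100f140f)) e e)))))))))
 (c (a (nat_lit 0xfe02200))
 (c z e
 (c z e
 (c z e
 (c z e
 (c z e
 (c z e
 (c (b (nat_lit 0x101e600f)) e
 (c z e
 (c z e
 (c (b (nat_lit 0xfffde0f)) e
 (c z e
 (c (b (nat_lit 0x1009c212)) e e))))))))))))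
 (c (a (nat_lit 0xfe00a00))
 (c z e
 (c z e
 (c z e
 (c z e
 (c z e
 (c z e
 (c z e
 (c z e
 (c (b (nat_lit 0xffeee11)) e e)))))))))
 (c (nat_lit 0x7f0367f0357f0357f0357f03519a00)
 (c z e
 (c (b (nat_lit 0x10523e0e)) e
 (c (b (nat_lit 0x10528a0f)) e
 (c (b (nat_lit 0x1011620f)) e e))))
 (c (a (nat_lit 0xfe01400))
 (c (b (nat_lit 0xfe2500f)) e
 (c z e
 (c z e
 (c z e
 (c (nat_lit 0x80000800008144481444814448144476110) e
 (c (nat_lit 0x80000800008000082a5682a6782a67ef490) e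
 (c (nat_lit 0x8000080000800008000080e2280e226f250) e e)))))))
 (c (a (nat_lit 0xfe00000))
 (c z e
 (c z e
 (c (b (nat_lit 0x109b4c10)) e
 (c (nat_lit 0x800008000081c9b81c9b81c9b81c9b72110) e
 (c z e
 (c (nat_lit 0x8000080000800008000080fb280fb222350) e e))))))
 (c (a (nat_lit 0xfe00200))
 (c (b (nat_lit 0x11000210)) e
 (c (b (nat_lit 0x10569010)) e
 (c (nat_lit 0x800008000080d6880d6880d6880d6808950) e
 (c (nat_lit 0x80000800008000080d4480d4480d3adfa90) e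
 (c (nat_lit 0x8000080000800008000080ad780ad7b4090) e e)))))
 (c (a (nat_lit 0xfdff600)) e
 (c (a (nat_lit 0xfdffc01)) e
 (c (a (nat_lit 0xfdffe01)) e
 (c (nat_lit 0x7f03f7f03f7f03f7f01d7f01de7f01) e
 (c (a (nat_lit 0xfee3601)) e
 (c (a (nat_lit 0xfe75a02)) e
 (c (a (nat_lit 0xfe7d203)) e
 (c (a (nat_lit 0xff0c803)) e
 (c (a (nat_lit 0x1000d203)) e
 (c z e
 (c (a (nat_lit 0xfefda06)) e
 (c (a (nat_lit 0xfefd207)) e
 (c (a (nat_lit 0xff63407)) e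
 (c z e
 (c z e
 (c (a (nat_lit 0x10036a0b)) e
 (c z e
 (c (nat_lit 0x7fbb77fafb7fbb77fbb77fbb7a8c0e) e
 (c (nat_lit 0x7fa037fa037f8f27fa037fa03e5b2f) e
 (c (nat_lit 0x7fe6d7fe6d7fea17fea17fea1bc28f) e e))))))))))))))))))))))))))))))))) Tr.c Tr.e (nat_lit 0) C.t5 C.t6
noncomputable def tt236 : Tr := beta% (fun (c : Nat → Tr → Tr → Tr) (e : Tr) (z : Nat) (a b : Nat → Nat) =>
 (c (a (nat_lit 0x101f5a00))
 (c z e
 (c z e
 (c z e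
 (c z e
 (c z e
 (c z e
 (c z e
 (c z e
 (c z e
 (c (b (nat_lit 0x1026d20b)) e e))))))))))
 (c (a (nat_lit 0x101f6600)) e
 (c (a (nat_lit 0x101f8000))
 (c z e
 (c z e
 (c z e
 (c z e
 (c z e
 (c z e
 (c z e
 (c (b (nat_lit 0xff92e0e)) e e))))))))
 (c (a (nat_lit 0x101f8600))
 (c z e
 (c z e
 (c z e
 (c z e
 (c z e
 (c z e
 (c z e
 (c z e
 (c z e
 (c z e
 (c z e
 (c (b (nat_lit 0xffe4626)) e e))))))))))))
 (c (a (nat_lit 0x101f7c00)) e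
 (c (a (nat_lit 0x101fe201)) e
 (c (a (nat_lit 0x10201001)) e
 (c (a (nat_lit 0x101f9601)) e
 (c (a (nat_lit 0x100daa01)) e
 (c (a (nat_lit 0x100c2002)) e
 (c (a (nat_lit 0x1009f803)) e
 (c z e
 (c z e
 (c z e
 (c z e
 (c z e
 (c z e
 (c z e
 (c z e
 (c z e
 (c (a (nat_lit 0x100a320b)) e
 (c (a (nat_lit 0x10140a0e)) e
 (c (nat_lit 0x800007fff57fff58000080000800002d40f) e e)))))))))))))))))))))))) Tr.c Tr.e (nat_lit 0) C.t6 C.t7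
noncomputable def tt237 : Tr := beta% (fun (c : Nat → Tr → Tr → Tr) (e : Tr) (z : Nat) (a b : Nat → Nat) =>
 (c (a (nat_lit 0x101f5600))
 (c (b (nat_lit 0xfe34e01)) e
 (c (b (nat_lit 0xfe2b001)) e
 (c (b (nat_lit 0xfe23e02)) e
 (c z e
 (c z e
 (c z e
 (c z e
 (c z e
 (c z e
 (c z e
 (c z e
 (c z e
 (c z e
 (c z e
 (c z e
 (c z e
 (c (b (nat_lit 0x101d720f)) e
 (c (b (nat_lit 0x1018d00f)) e
 (c (b (nat_lit 0xfff9c0f)) e
 (c z e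
 (c (b (nat_lit 0xfff7c17)) e e)))))))))))))))))))))
 (c (a (nat_lit 0x101f8000))
 (c (b (nat_lit 0xfd71c02)) e
 (c z e
 (c z e
 (c z e
 (c z e
 (c z e
 (c z e
 (c z e
 (c z e
 (c z e
 (c z e
 (c z e
 (c z e
 (c z e
 (c (b (nat_lit 0x100f360f)) e
 (c z e
 (c z e
 (c z e
 (c (b (nat_lit 0xffdac17)) e e)))))))))))))))))))
 (c (a (nat_lit 0x101f6800))
 (c (nat_lit 0x7d3c97d3c97d0cc7d3c97d3c97d3c97d3c9e5183) e e)
 (c (a (nat_lit 0x101f7400))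
 (c z e
 (c z e
 (c z e
 (c z e
 (c z e
 (c z e
 (c z e
 (c z e
 (c z e
 (c z e
 (c z e
 (c z e
 (c (b (nat_lit 0xfffd00f)) e
 (c (b (nat_lit 0xfff9e17)) e e))))))))))))))
 (c (a (nat_lit 0x101f7400))
 (c z e
 (c z e
 (c z e
 (c z e
 (c z e
 (c (b (nat_lit 0xffd9a0b)) e
 (c z e
 (c z e
 (c z e
 (c z e
 (c z e
 (c (b (nat_lit 0xffdc417)) e e))))))))))))
 (c (a (nat_lit 0x101f7e00)) e
 (c (a (nat_lit 0x101f8000)) e
 (c (a (nat_lit 0x101f9401)) e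
 (c (a (nat_lit 0x101fc001)) e
 (c (a (nat_lit 0x101f9801)) e
 (c (a (nat_lit 0x101dd401)) e
 (c (a (nat_lit 0x100c3202)) e
 (c z e
 (c z e
 (c z e
 (c z e
 (c (a (nat_lit 0x10017806)) e
 (c (a (nat_lit 0x10055207)) e
 (c z e
 (c z e
 (c (a (nat_lit 0x1004ae07)) e
 (c z e
 (c (a (nat_lit 0xff6500b)) e
 (c z e
 (c z e
 (c z e
 (c z e
 (c (a (nat_lit 0xfff660f)) e
 (c z e
 (c (a (nat_lit 0xfffd817)) e e))))))))))))))))))))))))))))))) Tr.c Tr.e (nat_lit 0) C.t6 C.t7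
noncomputable def tt238 : Tr := beta% (fun (c : Nat → Tr → Tr → Tr) (e : Tr) (z : Nat) (a b : Nat → Nat) =>
 (c (a (nat_lit 0x101fd000))
 (c (b (nat_lit 0xfdfa200)) e
 (c (nat_lit 0x7f1377f12f7f12f7f1307f12f7f12f7f1308c381) e
 (c (b (nat_lit 0xfe28601)) e
 (c (b (nat_lit 0xfe27001)) e
 (c (b (nat_lit 0xfe1a801)) e
 (c (b (nat_lit 0xf623a02)) e
 (c z e
 (c (b (nat_lit 0xfce6a03)) e
 (c z e
 (c z e
 (c z e
 (c z e
 (c z e
 (c z e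
 (c z e
 (c z e
 (c (b (nat_lit 0x1011ba0b)) e
 (c (b (nat_lit 0x10136c0e)) e
 (c (b (nat_lit 0xfff5e0f)) e
 (c z e
 (c (b (nat_lit 0xfff720f)) e e)))))))))))))))))))))
 (c (a (nat_lit 0x101f7000))
 (c (b (nat_lit 0xfe2e401)) e
 (c (b (nat_lit 0xfe2ac01)) e
 (c (b (nat_lit 0xfe28e01)) e
 (c (b (nat_lit 0xfe36c02)) e
 (c z e
 (c z e
 (c z e
 (c z e
 (c z e
 (c (b (nat_lit 0xfec3a07)) e
 (c z e
 (c (b (nat_lit 0xfffa807)) e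
 (c z e
 (c z e
 (c z e
 (c z e
 (c z e
 (c (b (nat_lit 0xffed60f)) e
 (c (b (nat_lit 0xff1c20f)) e
 (c z e
 (c z e
 (c (nat_lit 0x800007fdcf8000080000800008000080000eb5a7) e e))))))))))))))))))))))
 (c (a (nat_lit 0x101f6c00))
 (c (nat_lit 0x7e8d27e9417e9417e9417e9417e9417e94160e81) e
 (c (b (nat_lit 0xfea0a02)) e
 (c z e
 (c z e
 (c z e
 (c z e
 (c z e
 (c z e
 (c z e
 (c z e
 (c z e
 (c z e
 (c z e
 (c z e
 (c z e
 (c (b (nat_lit 0xfffce0f)) e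
 (c (b (nat_lit 0xfff760f)) e e)))))))))))))))))
 (c (a (nat_lit 0x101f6400))
 (c z e
 (c z e
 (c z e
 (c z e
 (c z e
 (c z e
 (c z e
 (c z e
 (c z e
 (c z e
 (c z e
 (c z e
 (c z e
 (c z e
 (c (b (nat_lit 0xffe4e0f)) e
 (c z e
 (c z e
 (c (b (nat_lit 0xffd2c2a)) e e))))))))))))))))))
 (c (a (nat_lit 0x101fc000))
 (c z e
 (c z e
 (c z e
 (c z e
 (c z e
 (c z e
 (c z e
 (c z e
 (c (b (nat_lit 0xffd840b)) e
 (c z e
 (c z e
 (c z e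
 (c z e
 (c (b (nat_lit 0xffbe00f)) e e))))))))))))))
 (c (a (nat_lit 0x101f7600))
 (c z e
 (c z e
 (c z e
 (c z e
 (c z e
 (c z e
 (c (b (nat_lit 0xffdb60b)) e
 (c z e
 (c (b (nat_lit 0xfff500f)) e
 (c z e
 (c z e
 (c z e
 (c (b (nat_lit 0xfffd217)) e e)))))))))))))
 (c (a (nat_lit 0x101f9800))
 (c z e
 (c z e
 (c z e
 (c z e
 (c z e
 (c (b (nat_lit 0xffd360e)) e e))))))
 (c (a (nat_lit 0x101f8400)) e
 (c (a (nat_lit 0x101f9a00)) e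
 (c (a (nat_lit 0x101f9601)) e
 (c (a (nat_lit 0x101f8e01)) e
 (c (a (nat_lit 0x10202801)) e
 (c (a (nat_lit 0x101f1c01)) e
 (c z e
 (c (a (nat_lit 0xffed803)) e
 (c z e
 (c z e
 (c z e
 (c (a (nat_lit 0x100c7006)) e
 (c (a (nat_lit 0x100bac07)) e
 (c z e
 (c z e
 (c z e
 (c (a (nat_lit 0xff5e20b)) e
 (c (a (nat_lit 0xff2380b)) e
 (c z e
 (c z e
 (c z e
 (c (a (nat_lit 0xfff080f)) e
 (c (a (nat_lit 0xfff540f)) e e))))))))))))))))))))))))))))))) Tr.c Tr.e (nat_lit 0) C.t6 C.t7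
noncomputable def tt239 : Tr := beta% (fun (c : Nat → Tr → Tr → Tr) (e : Tr) (z : Nat) (a b : Nat → Nat) =>
 (c (a (nat_lit 0x101dfe00))
 (c (b (nat_lit 0xfd9a200)) e
 (c (b (nat_lit 0xfe38200)) e
 (c (b (nat_lit 0xfe44800)) e
 (c (b (nat_lit 0xfe30c00)) e
 (c (b (nat_lit 0xfe36601)) e
 (c (b (nat_lit 0xfe35001)) e
 (c (b (nat_lit 0xfe27801)) e
 (c (b (nat_lit 0xfd14601)) e
 (c (b (nat_lit 0xf9de002)) e
 (c (b (nat_lit 0xfdeba03)) e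
 (c (nat_lit 0x800008000080000800007fd6c80000800006b401) e
 (c z e
 (c (b (nat_lit 0xffda803)) e
 (c z e
 (c z e
 (c (b (nat_lit 0x10446007)) e
 (c (b (nat_lit 0x1043bc07)) e
 (c (b (nat_lit 0xfda8407)) e
 (c (b (nat_lit 0xff5160b)) e
 (c z e
 (c z e
 (c z e
 (c (nat_lit 0x80000800007ffc080000800008000080000bd80f) e
 (c z e
 (c (nat_lit 0x7fff67fff67fff67fff67ffbb7fff67fff69fd8f) e
 (c (b (nat_lit 0xfff301b)) e e))))))))))))))))))))))))))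
 (c (a (nat_lit 0x101fac00))
 (c (b (nat_lit 0xfe14e00)) e
 (c (b (nat_lit 0xfe25c00)) e
 (c (b (nat_lit 0xfe28801)) e
 (c (b (nat_lit 0xfe27401)) e
 (c (b (nat_lit 0xfe18a01)) e
 (c (b (nat_lit 0xfe1fe01)) e
 (c (nat_lit 0x7f1297f1297f1297f1297f1297f1207f122bd302) e
 (c z e
 (c z e
 (c z e
 (c z e
 (c z e
 (c (b (nat_lit 0xffb9607)) e
 (c z e
 (c z e
 (c z e
 (c z e
 (c (b (nat_lit 0x100a880b)) e
 (c z e
 (c z e
 (c (b (nat_lit 0x10062a0f)) e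
 (c z e
 (c (nat_lit 0x7fd4980000800008000080000800008000026b0f) e e)))))))))))))))))))))))
 (c (a (nat_lit 0x101f6400))
 (c (b (nat_lit 0xfe2e801)) e
 (c (b (nat_lit 0xfe26401)) e
 (c (b (nat_lit 0xfe28601)) e
 (c (nat_lit 0x7f1447f1447f1447f1447f1437f1447f144a1901) e
 (c (b (nat_lit 0xfd55602)) e e)))))
 (c (a (nat_lit 0x101fb400))
 (c (b (nat_lit 0xfe27c01)) e
 (c (b (nat_lit 0xfe27801)) e
 (c (b (nat_lit 0xfe1b002)) e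
 (c z e
 (c z e
 (c z e
 (c z e
 (c z e
 (c z e
 (c z e
 (c z e
 (c z e
 (c z e
 (c (b (nat_lit 0xfffaa0b)) e
 (c z e
 (c z e
 (c z e
 (c z e
 (c (b (nat_lit 0xffcbe0f)) e
 (c z e
 (c (b (nat_lit 0xffefc1b)) e e)))))))))))))))))))))
 (c (a (nat_lit 0x101f7800))
 (c (b (nat_lit 0xfe26202)) e
 (c z e
 (c z e
 (c z e
 (c z e
 (c z e
 (c z e
 (c z e
 (c z e
 (c z e
 (c z e
 (c z e
 (c z e
 (c z e
 (c z e
 (c z e
 (c (b (nat_lit 0xffdf20f)) e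
 (c (nat_lit 0x7ff3c800008000080000800008000080000b749b) e e))))))))))))))))))
 (c (a (nat_lit 0x101fb600))
 (c z e
 (c z e
 (c z e
 (c z e
 (c z e
 (c (b (nat_lit 0xfff2c07)) e
 (c z e
 (c (b (nat_lit 0xffff007)) e
 (c z e
 (c z e
 (c z e
 (c z e
 (c z e
 (c (b (nat_lit 0xfff6a0f)) e e))))))))))))))
 (c (a (nat_lit 0x101fce00))
 (c z e
 (c z e
 (c z e
 (c z e
 (c z e
 (c z e
 (c z e
 (c z e
 (c z e
 (c z e
 (c z e
 (c (b (nat_lit 0xfffe20f)) e e))))))))))))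
 (c (a (nat_lit 0x101fb800))
 (c z e
 (c z e
 (c z e
 (c z e
 (c z e
 (c z e
 (c z e
 (c z e
 (c z e
 (c z e
 (c z e
 (c (b (nat_lit 0x10228c1b)) e e))))))))))))
 (c (a (nat_lit 0x101fc400)) e
 (c (a (nat_lit 0x101f9400)) e
 (c (a (nat_lit 0x101f7800)) e
 (c (a (nat_lit 0x101fbe01)) e
 (c (a (nat_lit 0x101ff801)) e
 (c (a (nat_lit 0x101ec201)) e
 (c z e
 (c (a (nat_lit 0xff24202)) e
 (c z e
 (c (a (nat_lit 0x1036fc03)) e
 (c (a (nat_lit 0x1021a203)) e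
 (c (a (nat_lit 0x1009b603)) e
 (c (a (nat_lit 0x100cf806)) e
 (c (a (nat_lit 0x10098007)) e
 (c (a (nat_lit 0x10076407)) e
 (c z e
 (c z e
 (c (a (nat_lit 0xff6220b)) e
 (c z e
 (c z e
 (c z e
 (c z e
 (c z e
 (c (a (nat_lit 0xff8da0f)) e
 (c (a (nat_lit 0xfffea1b)) e e)))))))))))))))))))))))))))))))))) Tr.c Tr.e (nat_lit 0) C.t6 C.t7
noncomputable def tt240 : Tr := beta% (fun (c : Nat → Tr → Tr → Tr) (e : Tr) (z : Nat) (a b d : Nat → Nat) =>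
 (c (a (nat_lit 0xfe01800))
 (c (b (nat_lit 0x100f7001)) e
 (c z e
 (c (b (nat_lit 0x102c0602)) e
 (c z e
 (c z e
 (c (b (nat_lit 0xfedb803)) e
 (c (b (nat_lit 0xfcfac03)) e
 (c (b (nat_lit 0x101d1a06)) e
 (c z e
 (c z e
 (c z e
 (c z e
 (c (b (nat_lit 0x100bbe0b)) e
 (c (b (nat_lit 0x10311a0e)) e
 (c (b (nat_lit 0x1007860f)) e
 (c z e
 (c (b (nat_lit 0xffff20f)) e
 (c z e
 (c (b (nat_lit 0x1019ba13)) e
 (c (b (nat_lit 0xfffda13)) e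
 (c (b (nat_lit 0x102a6a13)) e e)))))))))))))))))))))
 (c (nat_lit 0x7f0217f0207f0207f0207f02174e40)
 (c (b (nat_lit 0xfc8d002)) e
 (c (b (nat_lit 0xfe0f803))
 (c (d (nat_lit 0x103dda28)) e e)
 (c z e
 (c (b (nat_lit 0x10188603)) e
 (c z e
 (c z e
 (c (b (nat_lit 0x10684c07)) e
 (c z e
 (c z e
 (c z e
 (c (b (nat_lit 0x1029ea0b)) e
 (c (b (nat_lit 0x105e700e)) e
 (c (b (nat_lit 0x100e9c0f)) e
 (c (b (nat_lit 0x1009180f)) e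
 (c z e
 (c (b (nat_lit 0xfffbe0f)) e
 (c (nat_lit 0x800007ff207ff20800008000080000d7858) e e)))))))))))))))))
 (c (a (nat_lit 0xfe03000))
 (c (b (nat_lit 0x10092403))
 (c (nat_lit 0x8000080000800007ffae80000800008000050098) e e)
 (c (b (nat_lit 0x1018f803)) e
 (c z e
 (c z e
 (c (b (nat_lit 0x10247007)) e
 (c (b (nat_lit 0x10360607)) e
 (c z e
 (c z e
 (c z e
 (c (b (nat_lit 0x1004360e)) e
 (c (b (nat_lit 0xff8d20f)) e
 (c (b (nat_lit 0xffd980f)) e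
 (c z e
 (c z e
 (c (b (nat_lit 0x10036c12)) e
 (c z e
 (c z e
 (c z e
 (c z e
 (c (nat_lit 0x80000800008000080000800007fffa50093) e e))))))))))))))))))))
 (c (a (nat_lit 0xfe03000))
 (c (b (nat_lit 0x101e2803)) e
 (c z e
 (c z e
 (c z e
 (c z e
 (c z e
 (c z e
 (c z e
 (c (b (nat_lit 0xfff4a0f)) e
 (c z e
 (c z e
 (c z e
 (c (nat_lit 0x7ffa6800008000080000800008000020c11) e
 (c z e
 (c (b (nat_lit 0x1009d818)) e e)))))))))))))))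
 (c (a (nat_lit 0xfe02600))
 (c (nat_lit 0x800007ff3e80000800008000080000c79c7) e
 (c z e
 (c z e
 (c z e
 (c z e
 (c (b (nat_lit 0xf68780e)) e
 (c (b (nat_lit 0x10177c0f)) e
 (c z e
 (c z e
 (c z e
 (c z e
 (c (b (nat_lit 0x10066a11)) e
 (c (b (nat_lit 0x10040e12)) e e)))))))))))))
 (c (nat_lit 0x7f00b7f0097f00b7f00b7f00b47c40)
 (c z e
 (c z e
 (c z e
 (c z e
 (c z e
 (c z e
 (c z e
 (c z e
 (c (b (nat_lit 0x1013f611)) e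
 (c (b (nat_lit 0x101e2011)) e
 (c (b (nat_lit 0x10188c11)) e e)))))))))))
 (c (a (nat_lit 0xfe07e00))
 (c (b (nat_lit 0xfbf5e0b)) e
 (c (b (nat_lit 0x1020520e)) e
 (c (b (nat_lit 0x102c9c0f)) e e)))
 (c (a (nat_lit 0xfe01c00))
 (c (b (nat_lit 0x101c460f)) e
 (c (b (nat_lit 0xfffd00f)) e
 (c z e
 (c z e
 (c (b (nat_lit 0x10119210)) e
 (c (nat_lit 0x80000800008231e8231e8231e8231e6e610) e
 (c (nat_lit 0x80000800008000080a8680a8680a8627010) e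
 (c (nat_lit 0x8000080000800008000080cbc80cbc8b710) e e))))))))
 (c (a (nat_lit 0xfe01a00))
 (c z e
 (c z e
 (c (b (nat_lit 0x10745e10)) e
 (c (b (nat_lit 0x10242610)) e
 (c (nat_lit 0x80000800008036d8036d8036d8036d0de90) e
 (c (nat_lit 0x80000800008000080f5080f5080f5073010) e
 (c (nat_lit 0x800008000080000800008101981019c3810) e e)))))))
 (c (a (nat_lit 0xfe00a00))
 (c (b (nat_lit 0x11000610)) e
 (c (b (nat_lit 0x102ee810)) e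
 (c (b (nat_lit 0x1015f810)) e
 (c (nat_lit 0x800008000080ef880f0880ef180f08bdc90) e
 (c (nat_lit 0x80000800008000080f7980f7980f5f23650) e
 (c (nat_lit 0x800008000080000800008101881018b3f50) e e))))))
 (c (a (nat_lit 0xfe01800)) e
 (c (a (nat_lit 0xfe00e00)) e
 (c (a (nat_lit 0xfdff201)) e
 (c (nat_lit 0x7f0287f0287f0227f0227f02357b61) e
 (c (a (nat_lit 0xfdfd801)) e
 (c (a (nat_lit 0xfe9d001)) e
 (c (a (nat_lit 0xfe66602)) e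
 (c (a (nat_lit 0xfe54a03)) e
 (c (a (nat_lit 0xfebca03)) e
 (c (a (nat_lit 0x1011ce03)) e
 (c (a (nat_lit 0xffc3003)) e
 (c (a (nat_lit 0xff0be06)) e
 (c (nat_lit 0x7ee337ee2b7ee337ee337ee33fff07) e
 (c (a (nat_lit 0xffd7207)) e
 (c (a (nat_lit 0xff9fa07)) e
 (c z e
 (c z e
 (c (nat_lit 0x7feb87fece7fece7fece7fece5f14e) e
 (c (a (nat_lit 0xffca00f)) e
 (c z e
 (c z e
 (c (a (nat_lit 0xffccc0f)) e e))))))))))))))))))))))))))))))))) Tr.c Tr.e (nat_lit 0) C.t5 C.t6 C.t7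
noncomputable def tt241 : Tr := beta% (fun (c : Nat → Tr → Tr → Tr) (e : Tr) (z : Nat) (a b : Nat → Nat) =>
 (c (a (nat_lit 0x101f2000))
 (c z e
 (c z e
 (c z e
 (c z e
 (c (nat_lit 0x8000080000800007fe1a800008000080000a2d07) e
 (c (b (nat_lit 0xfbe1e07)) e
 (c z e
 (c z e
 (c z e
 (c z e
 (c (nat_lit 0x80000800007fdef8000080000800008000007b0f) e e)))))))))))
 (c (a (nat_lit 0x101f7600))
 (c z e
 (c z e
 (c z e
 (c z e
 (c z e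
 (c z e
 (c z e
 (c z e
 (c z e
 (c z e
 (c z e
 (c z e
 (c z e
 (c (b (nat_lit 0xf852c2a)) e
 (c z e
 (c z e
 (c (nat_lit 0x80000800008000080000800007ff9b80000e6e17) e e)))))))))))))))))
 (c (a (nat_lit 0x101f7e00))
 (c z e
 (c z e
 (c z e
 (c z e
 (c z e
 (c z e
 (c z e
 (c z e
 (c z e
 (c z e
 (c z e
 (c (b (nat_lit 0xfffbc26)) e e))))))))))))
 (c (a (nat_lit 0x101f5600)) e
 (c (a (nat_lit 0x101f9c01)) e
 (c (a (nat_lit 0x101f9801))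
 (c (nat_lit 0x8000080000800007fee97ff9e8000080000bf18f) e e)
 (c (a (nat_lit 0x101fde01)) e
 (c (a (nat_lit 0x1012cc01))
 (c z e
 (c (b (nat_lit 0xfcb5422)) e e))
 (c (a (nat_lit 0x1008d002)) e
 (c z e
 (c (a (nat_lit 0x100fc603)) e
 (c z e
 (c (a (nat_lit 0x10292003)) e
 (c (a (nat_lit 0x10030e06)) e
 (c (a (nat_lit 0x10047c07)) e
 (c (a (nat_lit 0xff59e07)) e
 (c z e
 (c z e
 (c z e
 (c (a (nat_lit 0x100d620e)) e
 (c (a (nat_lit 0x100b3e0f)) e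
 (c (a (nat_lit 0x1000f60f)) e
 (c z e
 (c z e
 (c (a (nat_lit 0x10110e16)) e
 (c (a (nat_lit 0x1007a61a)) e e))))))))))))))))))))))))))) Tr.c Tr.e (nat_lit 0) C.t6 C.t7
noncomputable def tt242 : Tr := beta% (fun (c : Nat → Tr → Tr → Tr) (e : Tr) (z : Nat) (a b : Nat → Nat) =>
 (c (a (nat_lit 0x101f6600))
 (c (b (nat_lit 0xfcdf802)) e
 (c (b (nat_lit 0xfd45a03)) e
 (c z e
 (c z e
 (c z e
 (c z e
 (c (nat_lit 0x7fc197fc197fc027fc197fc197fc197fc1974687) e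
 (c z e
 (c (b (nat_lit 0xffd7c07)) e
 (c (b (nat_lit 0xfff1207)) e
 (c z e
 (c (b (nat_lit 0x1043860e)) e
 (c z e
 (c (b (nat_lit 0x101b260f)) e e))))))))))))))
 (c (a (nat_lit 0x101f5c00))
 (c (b (nat_lit 0xfebb403)) e
 (c z e
 (c z e
 (c z e
 (c z e
 (c (b (nat_lit 0xff33407)) e
 (c z e
 (c z e
 (c z e
 (c (b (nat_lit 0xfee1a0e)) e
 (c z e
 (c z e
 (c z e
 (c z e
 (c z e
 (c (b (nat_lit 0xffe922a)) e e))))))))))))))))
 (c (a (nat_lit 0x101f3400)) e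
 (c (a (nat_lit 0x101f9200)) e
 (c (a (nat_lit 0x101f7000)) e
 (c (a (nat_lit 0x101f3c00))
 (c (b (nat_lit 0x105ed60b)) e
 (c (nat_lit 0x80000800007fc3e80000800008000080000b3b8e) e
 (c (b (nat_lit 0xfdc840f)) e
 (c z e
 (c z e
 (c z e
 (c (b (nat_lit 0x10592e1a)) e e)))))))
 (c (a (nat_lit 0x10201401))
 (c (nat_lit 0x7ecd37ecd37ecd37ec9b7ecd37ecd37ecd39370f) e
 (c (b (nat_lit 0xfffc40f)) e
 (c z e
 (c (b (nat_lit 0xffffe0f)) e e))))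
 (c (a (nat_lit 0x101fa801)) e
 (c (a (nat_lit 0x101fc601))
 (c z e
 (c z e
 (c (b (nat_lit 0xfff9222)) e e)))
 (c (a (nat_lit 0x100f2c01)) e
 (c (a (nat_lit 0x10113c02)) e
 (c z e
 (c z e
 (c z e
 (c z e
 (c z e
 (c z e
 (c z e
 (c z e
 (c z e
 (c (a (nat_lit 0x1004440b)) e
 (c (a (nat_lit 0x1016c40e)) e
 (c (a (nat_lit 0x100bb20f)) e
 (c z e
 (c z e
 (c z e
 (c (nat_lit 0x806ff804c4804c4806ff806ff806ffc3c1a) e e)))))))))))))))))))))))))))) Tr.c Tr.e (nat_lit 0) C.t6 C.t7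
noncomputable def tt243 : Tr := beta% (fun (c : Nat → Tr → Tr → Tr) (e : Tr) (z : Nat) (a b : Nat → Nat) =>
 (c (a (nat_lit 0x101f1600))
 (c (b (nat_lit 0xfeb0201)) e
 (c (b (nat_lit 0xfe31801)) e
 (c (b (nat_lit 0xfe2d401)) e
 (c (b (nat_lit 0xfe27002)) e
 (c z e
 (c z e
 (c z e
 (c z e
 (c z e
 (c z e
 (c z e
 (c z e
 (c (b (nat_lit 0x10470607)) e
 (c z e
 (c z e
 (c (b (nat_lit 0x100c7e0f)) e
 (c (b (nat_lit 0xfffb20f)) e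
 (c (b (nat_lit 0x1006280f)) e
 (c (b (nat_lit 0x1008200f)) e
 (c z e
 (c (b (nat_lit 0xfffd417)) e
 (c (b (nat_lit 0xfff3a17)) e e))))))))))))))))))))))
 (c (a (nat_lit 0x101f4600))
 (c (b (nat_lit 0xfe33401)) e
 (c (b (nat_lit 0xfe28002)) e
 (c z e
 (c z e
 (c (b (nat_lit 0xffe9603)) e
 (c z e
 (c z e
 (c z e
 (c z e
 (c (b (nat_lit 0xffea607)) e
 (c z e
 (c z e
 (c z e
 (c z e
 (c z e
 (c (b (nat_lit 0xffe220f)) e
 (c (b (nat_lit 0x10117c0f)) e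
 (c (b (nat_lit 0xfff3817)) e
 (c (b (nat_lit 0xfff2817)) e e)))))))))))))))))))
 (c (a (nat_lit 0x101f4c00))
 (c z e
 (c z e
 (c z e
 (c z e
 (c z e
 (c z e
 (c z e
 (c z e
 (c z e
 (c z e
 (c z e
 (c z e
 (c z e
 (c z e
 (c (b (nat_lit 0x100fc60f)) e
 (c (b (nat_lit 0x10120817)) e e))))))))))))))))
 (c (a (nat_lit 0x101f4e00))
 (c z e
 (c z e
 (c z e
 (c z e
 (c z e
 (c z e
 (c z e
 (c (b (nat_lit 0xffb4a0b)) e
 (c (b (nat_lit 0xffe160e)) e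
 (c z e
 (c z e
 (c z e
 (c z e
 (c (b (nat_lit 0xffcf017)) e
 (c (b (nat_lit 0xffd0a17)) e e)))))))))))))))
 (c (a (nat_lit 0x101f3600)) e
 (c (a (nat_lit 0x101f4a00))
 (c z e
 (c z e
 (c z e
 (c z e
 (c z e
 (c z e
 (c z e
 (c z e
 (c z e
 (c z e
 (c z e
 (c (b (nat_lit 0xffa3017)) e e))))))))))))
 (c (a (nat_lit 0x101f6e00)) e
 (c (a (nat_lit 0x101eec00)) e
 (c (a (nat_lit 0x101faa01)) e
 (c (a (nat_lit 0x101f5601)) e
 (c (a (nat_lit 0x101f6801)) e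
 (c (a (nat_lit 0x101e8001)) e
 (c z e
 (c z e
 (c z e
 (c (a (nat_lit 0x10094603)) e
 (c (a (nat_lit 0x10071e03)) e
 (c (a (nat_lit 0x10066a06)) e
 (c z e
 (c z e
 (c (a (nat_lit 0xfffbe07)) e
 (c z e
 (c z e
 (c z e
 (c z e
 (c z e
 (c (a (nat_lit 0xff5f60f)) e
 (c z e
 (c (a (nat_lit 0xff86817)) e e)))))))))))))))))))))))))))))) Tr.c Tr.e (nat_lit 0) C.t6 C.t7
noncomputable def tt244 : Tr := beta% (fun (c : Nat → Tr → Tr → Tr) (e : Tr) (z : Nat) (a b : Nat → Nat) =>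
 (c (a (nat_lit 0x101fb600))
 (c (b (nat_lit 0xfe23a00)) e
 (c (b (nat_lit 0xfe20a00)) e
 (c (b (nat_lit 0xfe28e01)) e
 (c (b (nat_lit 0xfe23e01)) e
 (c (nat_lit 0x7f13c7f13c7f13c7f1377f1377f1377f139edf81) e
 (c (b (nat_lit 0xfe25e01)) e
 (c (nat_lit 0x7f63c7f63c7f63c7f63c7f63c7f6247f62850d82) e
 (c z e
 (c z e
 (c z e
 (c z e
 (c z e
 (c z e
 (c z e
 (c z e
 (c z e
 (c z e
 (c z e
 (c (b (nat_lit 0x1007160f)) e
 (c z e
 (c z e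
 (c (b (nat_lit 0xffef00f)) e
 (c z e
 (c z e
 (c (b (nat_lit 0xfff3a1b)) e e)))))))))))))))))))))))))
 (c (a (nat_lit 0x101f3c00))
 (c (b (nat_lit 0xfe39a01)) e
 (c (b (nat_lit 0xfe2ea01)) e
 (c (b (nat_lit 0xfe29e01)) e
 (c (b (nat_lit 0xfe2a601)) e
 (c (b (nat_lit 0xfe2e002)) e
 (c z e
 (c z e
 (c z e
 (c z e
 (c z e
 (c z e
 (c (b (nat_lit 0x100a1c07)) e
 (c z e
 (c z e
 (c z e
 (c (b (nat_lit 0xff8400e)) e
 (c z e
 (c (b (nat_lit 0x10021e0f)) e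
 (c z e
 (c (b (nat_lit 0xffdb00f)) e
 (c (b (nat_lit 0xffdda17)) e
 (c (b (nat_lit 0xfff3017)) e
 (c (b (nat_lit 0xffdfe1b)) e e)))))))))))))))))))))))
 (c (a (nat_lit 0x101f8600))
 (c (b (nat_lit 0xfeeae01)) e
 (c (b (nat_lit 0xfe2aa01)) e
 (c (nat_lit 0x7f6957f6957f6957f6957f6957f6267f62834382) e e)))
 (c (a (nat_lit 0x101f8200))
 (c (b (nat_lit 0xfe27c02)) e
 (c z e
 (c z e
 (c z e
 (c z e
 (c z e
 (c z e
 (c z e
 (c z e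
 (c (b (nat_lit 0x10255407)) e
 (c z e
 (c z e
 (c z e
 (c z e
 (c z e
 (c (b (nat_lit 0x1005f40f)) e e))))))))))))))))
 (c (a (nat_lit 0x101f8c00))
 (c z e
 (c z e
 (c z e
 (c z e
 (c z e
 (c z e
 (c z e
 (c z e
 (c z e
 (c z e
 (c z e
 (c z e
 (c z e
 (c z e
 (c z e
 (c (b (nat_lit 0xfff6417)) e
 (c (b (nat_lit 0xfffe21b)) e e)))))))))))))))))
 (c (a (nat_lit 0x101f7800))
 (c z e
 (c z e
 (c z e
 (c z e
 (c (b (nat_lit 0x100bda07)) e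
 (c z e
 (c z e
 (c z e
 (c z e
 (c z e
 (c z e
 (c z e
 (c z e
 (c (b (nat_lit 0xfffc617)) e e))))))))))))))
 (c (a (nat_lit 0x101fa400))
 (c z e
 (c z e
 (c z e
 (c z e
 (c z e
 (c z e
 (c z e
 (c z e
 (c z e
 (c z e
 (c (b (nat_lit 0xff99217)) e e)))))))))))
 (c (a (nat_lit 0x101f3c00)) e
 (c (a (nat_lit 0x101f5400)) e
 (c (a (nat_lit 0x101f7200)) e
 (c (a (nat_lit 0x101f7c01)) e
 (c (a (nat_lit 0x10203001)) e
 (c (a (nat_lit 0x101f3601)) e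
 (c z e
 (c (a (nat_lit 0xfc39002)) e
 (c z e
 (c (a (nat_lit 0x100cc203)) e
 (c (a (nat_lit 0x100bba03)) e
 (c (a (nat_lit 0x10041603)) e
 (c (a (nat_lit 0x100a4206)) e
 (c (a (nat_lit 0x1009de07)) e
 (c z e
 (c z e
 (c z e
 (c (a (nat_lit 0xffc240b)) e e)))))))))))))))))))))))))) Tr.c Tr.e (nat_lit 0) C.t6 C.t7
noncomputable def tt245 : Tr := beta% (fun (c : Nat → Tr → Tr → Tr) (e : Tr) (z : Nat) (a b : Nat → Nat) =>
 (c (a (nat_lit 0x101f3200))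
 (c (b (nat_lit 0xfe34600)) e
 (c (b (nat_lit 0xfe2b401)) e
 (c (b (nat_lit 0xfe2ca01)) e
 (c (b (nat_lit 0xfe2bc01)) e
 (c (b (nat_lit 0xfe2d601)) e
 (c (nat_lit 0x7f1667f1667f1667f1667f1667f1617f1628b882) e
 (c z e
 (c (b (nat_lit 0xff4aa03)) e
 (c (b (nat_lit 0xfee2803)) e
 (c z e
 (c z e
 (c z e
 (c z e
 (c z e
 (c z e
 (c z e
 (c z e
 (c (b (nat_lit 0x1006140f)) e
 (c z e
 (c z e
 (c (b (nat_lit 0xfff400f)) e
 (c z e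
 (c z e
 (c (b (nat_lit 0xffa3e1e)) e e))))))))))))))))))))))))
 (c (a (nat_lit 0x101f9c00))
 (c (b (nat_lit 0xfe1c801)) e
 (c (b (nat_lit 0xfe29801)) e
 (c (nat_lit 0x7f1e37f1e37f1e37f1e37f1c27f1c37f1c7d7f81) e
 (c (b (nat_lit 0xfeb6c02)) e
 (c z e
 (c z e
 (c z e
 (c z e
 (c z e
 (c z e
 (c z e
 (c z e
 (c z e
 (c (b (nat_lit 0x103d860b)) e
 (c z e
 (c z e
 (c (b (nat_lit 0xffe160f)) e
 (c z e
 (c z e
 (c z e
 (c z e
 (c (b (nat_lit 0xffdc61e)) e e))))))))))))))))))))))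
 (c (a (nat_lit 0x101f8200))
 (c (b (nat_lit 0xfe2f401)) e
 (c (b (nat_lit 0xfe23002)) e
 (c z e
 (c z e
 (c z e
 (c z e
 (c z e
 (c z e
 (c (b (nat_lit 0xffe9e07)) e
 (c (b (nat_lit 0x1018e407)) e
 (c (b (nat_lit 0xfff6a07)) e
 (c z e
 (c (b (nat_lit 0xfbb240e)) e
 (c z e
 (c z e
 (c z e
 (c z e
 (c (b (nat_lit 0xffe0417)) e
 (c (b (nat_lit 0xffef41b)) e
 (c (b (nat_lit 0xfff2e1e)) e e))))))))))))))))))))
 (c (a (nat_lit 0x101f7800))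
 (c z e
 (c z e
 (c z e
 (c z e
 (c z e
 (c z e
 (c (b (nat_lit 0xffe9807)) e
 (c z e
 (c z e
 (c z e
 (c z e
 (c z e
 (c (b (nat_lit 0x1009c80f)) e
 (c z e
 (c z e
 (c z e
 (c (b (nat_lit 0x101b9e1b)) e
 (c (b (nat_lit 0xfff3e1e)) e e))))))))))))))))))
 (c (a (nat_lit 0x101f9a00))
 (c z e
 (c z e
 (c z e
 (c z e
 (c (b (nat_lit 0x10240a07)) e
 (c z e
 (c z e
 (c z e
 (c z e
 (c z e
 (c z e
 (c z e
 (c z e
 (c (b (nat_lit 0xfff5e17)) e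
 (c (b (nat_lit 0x100d721b)) e e)))))))))))))))
 (c (a (nat_lit 0x101f9000))
 (c z e
 (c z e
 (c z e
 (c z e
 (c z e
 (c z e
 (c z e
 (c z e
 (c z e
 (c z e
 (c z e
 (c z e
 (c (b (nat_lit 0xfffd21b)) e e)))))))))))))
 (c (a (nat_lit 0x101f8600)) e
 (c (a (nat_lit 0x101f6200))
 (c z e
 (c z e
 (c z e
 (c z e
 (c z e
 (c z e
 (c z e
 (c z e
 (c z e
 (c (b (nat_lit 0xffe541e)) e e))))))))))
 (c (a (nat_lit 0x101fac00)) e
 (c (a (nat_lit 0x101f8600)) e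
 (c (a (nat_lit 0x10200601)) e
 (c (a (nat_lit 0x101eb401)) e
 (c (a (nat_lit 0x101fda01)) e
 (c z e
 (c z e
 (c (a (nat_lit 0x10176203)) e
 (c (a (nat_lit 0x10140203)) e
 (c (a (nat_lit 0x101a4403)) e
 (c (a (nat_lit 0x10063803)) e
 (c (a (nat_lit 0x10036806)) e
 (c (a (nat_lit 0x10077807)) e
 (c (a (nat_lit 0x10067e07)) e
 (c z e
 (c z e
 (c z e
 (c z e
 (c (nat_lit 0x800007ff967ff9680000800008000099a8f) e
 (c z e
 (c z e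
 (c z e
 (c z e
 (c (a (nat_lit 0xffdcc1b)) e
 (c (a (nat_lit 0xfffd61e)) e e)))))))))))))))))))))))))))))))))) Tr.c Tr.e (nat_lit 0) C.t6 C.t7
noncomputable def tt246 : Tr := beta% (fun (c : Nat → Tr → Tr → Tr) (e : Tr) (z : Nat) (a b : Nat → Nat) =>
 (c (a (nat_lit 0x101f3400))
 (c (b (nat_lit 0xfe14601)) e
 (c (nat_lit 0x7f1b97f1b97f1b97f1b47f1b57f1b77f1b75a701) e
 (c (b (nat_lit 0xfe43601)) e
 (c (b (nat_lit 0xfe28801)) e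
 (c (b (nat_lit 0xfc17402)) e
 (c (b (nat_lit 0xfd4c203)) e
 (c (b (nat_lit 0xfe0c003)) e
 (c (b (nat_lit 0xff7b803)) e
 (c (b (nat_lit 0xffcee03)) e
 (c z e
 (c z e
 (c z e
 (c z e
 (c (b (nat_lit 0xff42a07)) e
 (c (b (nat_lit 0xfffe20b)) e
 (c z e
 (c (b (nat_lit 0xfff380f)) e
 (c z e
 (c z e
 (c z e
 (c (nat_lit 0x800007fe11800008000080000800008000068d9b) e
 (c (nat_lit 0x80000800007fe52800008000080000800000419e) e e))))))))))))))))))))))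
 (c (a (nat_lit 0x101f3600))
 (c (b (nat_lit 0xfe38a01)) e
 (c (b (nat_lit 0xfc9f201)) e
 (c (b (nat_lit 0xfc0a602)) e
 (c (b (nat_lit 0xfdd6a03)) e
 (c (b (nat_lit 0xfee4e03)) e
 (c (nat_lit 0x800008000080000800007ffb77ffd1800008ee02) e
 (c z e
 (c z e
 (c z e
 (c z e
 (c z e
 (c z e
 (c (b (nat_lit 0xff0420b)) e
 (c z e
 (c z e
 (c z e
 (c (b (nat_lit 0xfff9a0f)) e
 (c z e
 (c (nat_lit 0x801e680137801e6801e6801e6801e6801e6dc91b) e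
 (c (b (nat_lit 0x100fe81e)) e
 (c (b (nat_lit 0x1008b638)) e
 (c (nat_lit 0x800008000080000800007fde18000080000f09b8) e e))))))))))))))))))))))
 (c (a (nat_lit 0x101ee800))
 (c (b (nat_lit 0xfaa1402)) e
 (c (b (nat_lit 0xffd7203)) e
 (c z e
 (c z e
 (c z e
 (c z e
 (c z e
 (c z e
 (c z e
 (c z e
 (c z e
 (c z e
 (c z e
 (c z e
 (c (b (nat_lit 0xfff260f)) e
 (c (b (nat_lit 0xfff5e0f)) e e))))))))))))))))
 (c (a (nat_lit 0x101f6c00))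
 (c z e
 (c (b (nat_lit 0xfedae03)) e
 (c (b (nat_lit 0xfb17603)) e
 (c z e
 (c (b (nat_lit 0x10137e07)) e
 (c z e
 (c z e
 (c z e
 (c z e
 (c z e
 (c z e
 (c z e
 (c (b (nat_lit 0xfff9a0f)) e
 (c (b (nat_lit 0xffdb80f)) e
 (c z e
 (c z e
 (c (b (nat_lit 0xfff1226)) e e)))))))))))))))))
 (c (a (nat_lit 0x101f3a00))
 (c z e
 (c z e
 (c z e
 (c z e
 (c z e
 (c (b (nat_lit 0xffe9207)) e
 (c (b (nat_lit 0x1053b80b)) e
 (c z e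
 (c (b (nat_lit 0x105fb40f)) e e)))))))))
 (c (a (nat_lit 0x101ea600))
 (c (nat_lit 0x80000800007fd9780000800008000080000cb907) e
 (c z e
 (c z e
 (c z e
 (c (b (nat_lit 0x1031440b)) e
 (c (b (nat_lit 0x103b820e)) e
 (c (b (nat_lit 0xfd6360f)) e
 (c z e
 (c z e
 (c (b (nat_lit 0xfff020f)) e
 (c (b (nat_lit 0xfdc6c1b)) e
 (c (b (nat_lit 0xfa6d81e)) e e))))))))))))
 (c (a (nat_lit 0x101f0e00))
 (c z e
 (c z e
 (c z e
 (c z e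
 (c z e
 (c z e
 (c z e
 (c (b (nat_lit 0x1039620f)) e
 (c z e
 (c (nat_lit 0x800007ffcc7ffb2800008000080000800000069e) e
 (c (nat_lit 0x8000080000800007ffe6800008000080000ce4a8) e e)))))))))))
 (c (a (nat_lit 0x101f1e00))
 (c (b (nat_lit 0xfffc00b)) e
 (c z e
 (c (b (nat_lit 0xff55a0f)) e
 (c z e
 (c z e
 (c z e
 (c z e
 (c z e
 (c (b (nat_lit 0xffc7a28)) e e)))))))))
 (c (a (nat_lit 0x101ff800))
 (c z e
 (c z e
 (c z e
 (c z e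
 (c z e
 (c (b (nat_lit 0x10e41c1e)) e
 (c (b (nat_lit 0xffff022)) e e)))))))
 (c (a (nat_lit 0x101fc400))
 (c z e
 (c z e
 (c (b (nat_lit 0xffffe1b)) e e)))
 (c (a (nat_lit 0x101dbc01))
 (c z e
 (c (b (nat_lit 0xfc34a1e)) e e))
 (c (a (nat_lit 0x101fa201)) e
 (c (a (nat_lit 0x101fa801)) e
 (c z e
 (c (a (nat_lit 0x10237802)) e
 (c (a (nat_lit 0x10251c03)) e
 (c (a (nat_lit 0x10238203)) e
 (c (a (nat_lit 0x10182c03)) e
 (c (a (nat_lit 0x10120a03)) e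
 (c (a (nat_lit 0x100b1006)) e
 (c (a (nat_lit 0x100f1207)) e
 (c (a (nat_lit 0x100ddc07)) e
 (c z e
 (c z e
 (c z e
 (c (a (nat_lit 0x1005e00e)) e
 (c (a (nat_lit 0x10176e0f)) e
 (c z e
 (c (nat_lit 0x80000800007fffd7fffd800008000005e0f) e
 (c z e
 (c z e
 (c (a (nat_lit 0xfffbe1e)) e e))))))))))))))))))))))))))))))))) Tr.c Tr.e (nat_lit 0) C.t6 C.t7
noncomputable def tt247 : Tr := beta% (fun (c : Nat → Tr → Tr → Tr) (e : Tr) (z : Nat) (a b : Nat → Nat) =>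
 (c (a (nat_lit 0x101e8a00))
 (c (b (nat_lit 0xfe31e00)) e
 (c (b (nat_lit 0xfe44800)) e
 (c (b (nat_lit 0xfe49e00)) e
 (c (b (nat_lit 0xfe65a00)) e
 (c (b (nat_lit 0xfe2fc00)) e
 (c (b (nat_lit 0xfe2dc00)) e
 (c (b (nat_lit 0xfe12c00)) e
 (c (b (nat_lit 0xfd97200)) e
 (c (b (nat_lit 0xfe39a01)) e
 (c (b (nat_lit 0xfd42401)) e
 (c (b (nat_lit 0xfd82801)) e
 (c (b (nat_lit 0xfe31c01)) e
 (c (b (nat_lit 0xfd8fa02)) e
 (c z e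
 (c (b (nat_lit 0xfd40803)) e
 (c (b (nat_lit 0xfc89403)) e
 (c z e
 (c (b (nat_lit 0x101db006)) e
 (c (b (nat_lit 0xfda9007)) e
 (c (b (nat_lit 0xfdaa007)) e
 (c (b (nat_lit 0xfdcce07)) e
 (c (b (nat_lit 0xff2bc07)) e
 (c z e
 (c z e
 (c z e
 (c z e
 (c z e
 (c (b (nat_lit 0xfff840f)) e
 (c z e
 (c z e
 (c (b (nat_lit 0xffbf63a)) e e)))))))))))))))))))))))))))))))
 (c (a (nat_lit 0x101f0200))
 (c (b (nat_lit 0xfe2d400)) e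
 (c (b (nat_lit 0xfe24a00)) e
 (c (b (nat_lit 0xfe41c00)) e
 (c (b (nat_lit 0xfe2ca00)) e
 (c (b (nat_lit 0xfe29800)) e
 (c (b (nat_lit 0xfe33c00)) e
 (c (b (nat_lit 0xfe2b801)) e
 (c (b (nat_lit 0xfe33601)) e
 (c (b (nat_lit 0xfe37601)) e
 (c (b (nat_lit 0xfe1f601)) e
 (c (b (nat_lit 0xfe54402)) e
 (c (b (nat_lit 0xfe41003)) e
 (c (b (nat_lit 0xfe2de03)) e
 (c (b (nat_lit 0xfeed403)) e
 (c (b (nat_lit 0xffdb403)) e
 (c z e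
 (c z e
 (c (b (nat_lit 0xfee6407)) e
 (c (b (nat_lit 0xffe5007)) e
 (c (b (nat_lit 0xff67607)) e
 (c z e
 (c z e
 (c (b (nat_lit 0x10014e0f)) e e)))))))))))))))))))))))
 (c (a (nat_lit 0x101f1800))
 (c (b (nat_lit 0xfe2b600)) e
 (c (b (nat_lit 0xfe3e200)) e
 (c (b (nat_lit 0xfe2b800)) e
 (c (b (nat_lit 0xfe30000)) e
 (c (b (nat_lit 0xfe35201)) e
 (c (b (nat_lit 0xfe49801)) e
 (c (b (nat_lit 0xfe2f001)) e
 (c (b (nat_lit 0xfe38601)) e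
 (c (nat_lit 0x7f1cc7f1cc7f1cc7f1cc7f1cc7f1b57f1b575a02) e
 (c (b (nat_lit 0xfe19e03)) e
 (c (b (nat_lit 0xfe8c003)) e
 (c (b (nat_lit 0xff47c03)) e
 (c (b (nat_lit 0xffe2803)) e
 (c z e
 (c (b (nat_lit 0xffeb007)) e
 (c (b (nat_lit 0xfff6407)) e
 (c z e
 (c z e
 (c z e
 (c (b (nat_lit 0xffef60e)) e
 (c (b (nat_lit 0x1007fe0f)) e
 (c (b (nat_lit 0x1003780f)) e
 (c z e
 (c (nat_lit 0x7ffda8000080000800008000080000800009540f) e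
 (c (nat_lit 0x800007fdd4800008000080000800008000009d1b) e
 (c z e
 (c (b (nat_lit 0xfff4e2b)) e e)))))))))))))))))))))))))))
 (c (a (nat_lit 0x101e4200))
 (c (b (nat_lit 0xfe3be00)) e
 (c (b (nat_lit 0xfe3ae00)) e
 (c (b (nat_lit 0xfe2ea01)) e
 (c (b (nat_lit 0xfe41001)) e
 (c (b (nat_lit 0xfe3c601)) e
 (c (b (nat_lit 0xfe3f001)) e
 (c (b (nat_lit 0xfe32e02)) e
 (c (b (nat_lit 0xff56203)) e
 (c (b (nat_lit 0xfec4c03)) e
 (c (b (nat_lit 0xff0c603)) e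
 (c z e
 (c z e
 (c z e
 (c (b (nat_lit 0xffe0407)) e
 (c z e
 (c z e
 (c z e
 (c z e
 (c z e
 (c (b (nat_lit 0xfff4e0f)) e
 (c z e
 (c z e
 (c (nat_lit 0x7ff23800008000080000800008000080000fd51b) e e))))))))))))))))))))))) tt246))))) Tr.c Tr.e (nat_lit 0) C.t6 C.t7
noncomputable def tt248 : Tr := beta% (fun (c : Nat → Tr → Tr → Tr) (e : Tr) (z : Nat) (a b d : Nat → Nat) =>
 (c (a (nat_lit 0xfe04a00)) tt247
 (c (a (nat_lit 0xfe01400))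
 (c (b (nat_lit 0x101fc200))
 (c (d (nat_lit 0xfe35800)) e
 (c (d (nat_lit 0xfe18000)) e
 (c (d (nat_lit 0xfe2b000)) e
 (c (d (nat_lit 0xfe19400)) e
 (c (d (nat_lit 0xfe18600)) e
 (c (d (nat_lit 0xfe22401)) e
 (c (d (nat_lit 0xfe1f601)) e
 (c (d (nat_lit 0xfe22001)) e
 (c (d (nat_lit 0xfe1da01)) e
 (c (d (nat_lit 0xfe0fa02)) e
 (c (d (nat_lit 0xfede203)) e
 (c z e
 (c z e
 (c z e
 (c z e
 (c z e
 (c z e
 (c (d (nat_lit 0xffd3607)) e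
 (c (d (nat_lit 0xff17407)) e
 (c (d (nat_lit 0xffc4a0b)) e
 (c (d (nat_lit 0xffffc0e)) e
 (c z e
 (c z e
 (c z e
 (c z e
 (c z e
 (c (d (nat_lit 0xfff5c1b)) e e)))))))))))))))))))))))))))
 (c (b (nat_lit 0x101fce00))
 (c (d (nat_lit 0xfe1a800)) e
 (c (d (nat_lit 0xfe22400)) e
 (c (d (nat_lit 0xfe20e00)) e
 (c (d (nat_lit 0xfe24601)) e
 (c (d (nat_lit 0xfe22601)) e
 (c (d (nat_lit 0xfe23001)) e
 (c (nat_lit 0x7f1407f1407f1407f1407f1307f1307f132b3c01) e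
 (c (d (nat_lit 0xfe20e02)) e
 (c (d (nat_lit 0xfe9b403)) e
 (c (d (nat_lit 0xff5a203)) e
 (c z e
 (c z e
 (c z e
 (c z e
 (c z e
 (c z e
 (c z e
 (c z e
 (c z e
 (c (d (nat_lit 0xfff100f)) e e)))))))))))))))))))) tt245))
 (c (a (nat_lit 0xfe01200)) tt244
 (c (nat_lit 0x7f0257f0247f0247f0247f02557f20) tt243
 (c (a (nat_lit 0xfe01a00)) tt242
 (c (a (nat_lit 0xfe02600)) tt241
 (c (a (nat_lit 0xfe02c00))
 (c (b (nat_lit 0x101f8a00))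
 (c z e
 (c z e
 (c z e
 (c (d (nat_lit 0xfec2c07)) e e))))
 (c (b (nat_lit 0x101f7800)) e
 (c (b (nat_lit 0x101fd801)) e
 (c (b (nat_lit 0x101f9001)) e
 (c (b (nat_lit 0x101fd801)) e
 (c (b (nat_lit 0x10194401))
 (c (d (nat_lit 0xfffc813)) e e)
 (c (b (nat_lit 0x10127002)) e
 (c (b (nat_lit 0x10278a03)) e
 (c (b (nat_lit 0x10230203)) e
 (c z e
 (c z e
 (c z e
 (c z e
 (c (b (nat_lit 0x10019a07)) e
 (c (b (nat_lit 0x10009007)) e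
 (c (b (nat_lit 0xffd5807)) e
 (c z e
 (c (b (nat_lit 0x100c820e)) e
 (c (b (nat_lit 0x100b5c0f)) e
 (c (b (nat_lit 0x1009860f)) e
 (c z e
 (c z e
 (c z e
 (c z e
 (c (nat_lit 0x80e7b80e7b80dee80e7b80e7b80e7b695da) e e)))))))))))))))))))))))))
 (c (a (nat_lit 0xfe02200))
 (c (b (nat_lit 0x1012e601)) e
 (c (b (nat_lit 0x101fde01)) e
 (c (b (nat_lit 0x101fc001)) e
 (c (b (nat_lit 0x101f9401)) e
 (c z e
 (c (b (nat_lit 0x101ab003)) e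
 (c (b (nat_lit 0x1011a803)) e
 (c (b (nat_lit 0x101a4603)) e
 (c z e
 (c z e
 (c (b (nat_lit 0x1028d207)) e
 (c z e
 (c z e
 (c z e
 (c (b (nat_lit 0x10055a0b)) e
 (c (b (nat_lit 0x100fbe0e)) e
 (c z e
 (c z e
 (c z e
 (c z e
 (c (b (nat_lit 0xffd2a13)) e
 (c (b (nat_lit 0xfff4413)) e
 (c (b (nat_lit 0xfffca16)) e e))))))))))))))))))))))) tt240))))))))) Tr.c Tr.e (nat_lit 0) C.t5 C.t6 C.t7
noncomputable def tt249 : Tr := beta% (fun (c : Nat → Tr → Tr → Tr) (e : Tr) (z : Nat) (a b d f : Nat → Nat) =>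
 (c (a (nat_lit 0x101fe800)) tt248
 (c (a (nat_lit 0x101ff000))
 (c (b (nat_lit 0xfe00e00)) tt239
 (c (b (nat_lit 0xfe01400)) tt238
 (c (nat_lit 0x7f0157f0147f0147f0147f01524600) tt237
 (c (b (nat_lit 0xfe01800)) tt236
 (c (b (nat_lit 0xfe02c00))
 (c (d (nat_lit 0x101f4200))
 (c z e
 (c z e
 (c z e
 (c z e
 (c z e
 (c z e
 (c z e
 (c z e
 (c z e
 (c z e
 (c z e
 (c z e
 (c z e
 (c (f (nat_lit 0x10111c19)) e e))))))))))))))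
 (c (d (nat_lit 0x101f8400)) e
 (c (d (nat_lit 0x101f7600)) e
 (c (d (nat_lit 0x101fb201)) e
 (c (d (nat_lit 0x101fe001)) e
 (c (d (nat_lit 0x101fd201)) e
 (c (d (nat_lit 0x1017ce01)) e
 (c (d (nat_lit 0x1010b602)) e
 (c (d (nat_lit 0x101d5403)) e
 (c z e
 (c (d (nat_lit 0x103a2003)) e
 (c z e
 (c (d (nat_lit 0x101dd006)) e
 (c (d (nat_lit 0xfc59c07)) e
 (c z e
 (c z e
 (c z e
 (c (d (nat_lit 0xff9ce0b)) e
 (c z e
 (c z e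
 (c z e
 (c z e
 (c z e
 (c z e
 (c (d (nat_lit 0xffff419)) e e))))))))))))))))))))))))) tt235)))))
 (c (a (nat_lit 0x101ff000)) tt234
 (c (nat_lit 0x80ff880ff980ff980ff871960)
 (c (b (nat_lit 0xfe01c00)) tt229
 (c (b (nat_lit 0xfe02400)) tt228
 (c (b (nat_lit 0xfe01800))
 (c (d (nat_lit 0x101f6600)) e
 (c (d (nat_lit 0x101fe401)) e
 (c (d (nat_lit 0x101fd401)) e
 (c (d (nat_lit 0x101fd801)) e
 (c (d (nat_lit 0x101fee01)) e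
 (c z e
 (c z e
 (c z e
 (c z e
 (c z e
 (c z e
 (c z e
 (c z e
 (c z e
 (c z e
 (c z e
 (c z e
 (c (d (nat_lit 0xfecac0b)) e
 (c z e
 (c (d (nat_lit 0x100b1c0e)) e e)))))))))))))))))))) tt227)))
 (c (a (nat_lit 0x101ff200))
 (c (b (nat_lit 0xfe03a00)) tt226 tt225)
 (c (a (nat_lit 0x101ff200)) tt224
 (c (a (nat_lit 0x101ff400)) tt223
 (c (a (nat_lit 0x101fee00)) tt222
 (c (a (nat_lit 0x101ffe00)) tt221
 (c (a (nat_lit 0x101ff000)) tt220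
 (c (a (nat_lit 0x101ffc00))
 (c (b (nat_lit 0xfdff601))
 (c (nat_lit 0x800007feef7feef80000800008000082449) e
 (c (d (nat_lit 0x1014a409)) e
 (c (d (nat_lit 0x10156009)) e
 (c (d (nat_lit 0x10195809)) e
 (c (nat_lit 0x814148159e8159e8159e8159e8159e7324a) e
 (c (nat_lit 0x8000080000819c6819c6819c6819c608420) e
 (c (nat_lit 0x8000080000800007ff3d7ff3d80000e6fe0) e e)))))))
 (c (nat_lit 0x7f0197f0197f0107f00f7f01111fe1)
 (c z e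
 (c (nat_lit 0x80cdf80cdf80cdf8059a80cdf80cdf44089) e e))
 (c (b (nat_lit 0xfe00201))
 (c (d (nat_lit 0x1024580a)) e
 (c (d (nat_lit 0x10173811)) e
 (c (d (nat_lit 0x1023b412)) e e)))
 (c (nat_lit 0x7f1797f1797f1797f1797f00c1d441)
 (c (d (nat_lit 0x102dac11)) e e)
 (c (b (nat_lit 0xfca4802)) e
 (c (nat_lit 0x7db737dacc7db737db737db735e043) e
 (c z e
 (c z e
 (c z e
 (c (nat_lit 0x7fab77faa67fab07fab77fab74c186) e
 (c (nat_lit 0x7fa367fa367fa0e7fa367fa364b3e7) e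
 (c (b (nat_lit 0xffa2a07)) e
 (c (b (nat_lit 0xff8f007)) e
 (c (b (nat_lit 0xff55a07)) e
 (c (b (nat_lit 0xff25208)) e
 (c (b (nat_lit 0xff20608)) e
 (c (b (nat_lit 0xff1e409)) e
 (c (nat_lit 0x7fbde7fbde7fbde7fbdc7fbdeb4ec9) e
 (c (b (nat_lit 0xff80009)) e
 (c (b (nat_lit 0xffb8009)) e
 (c (b (nat_lit 0xff9800a)) e e))))))))))))))))))))) tt219)))))))))))) Tr.c Tr.e (nat_lit 0) C.t4 C.t5 C.t6 C.t7
noncomputable def tt250 : Tr := beta% (fun (c : Nat → Tr → Tr → Tr) (e : Tr) (a : Nat → Nat) =>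
 (c (a (nat_lit 0x101ff600)) tt218 tt249)) Tr.c Tr.e C.t4
noncomputable def tt251 : Tr := beta% (fun (c : Nat → Tr → Tr → Tr) (e : Tr) (z : Nat) (a b d : Nat → Nat) =>
 (c (a (nat_lit 0x101ff800))
 (c (b (nat_lit 0xfe01201))
 (c z e
 (c (d (nat_lit 0x100d7409)) e
 (c z e
 (c z e
 (c (nat_lit 0x81a8e81a8e81a5381a5381a8e81a8ee774c) e
 (c (nat_lit 0x80000800008000081a5e81a5e81a5e7ca8c) e e))))))
 (c (b (nat_lit 0xfe01801))
 (c (d (nat_lit 0x100be209)) e e)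
 (c z e
 (c z e
 (c (b (nat_lit 0xfcc9c03)) e
 (c (b (nat_lit 0xfdac403)) e
 (c (b (nat_lit 0x100cf403)) e
 (c z e
 (c z e
 (c (b (nat_lit 0xff1ee06)) e
 (c (b (nat_lit 0x10013e07)) e
 (c (b (nat_lit 0xfff4807)) e
 (c z e
 (c (b (nat_lit 0xffd5807)) e
 (c (nat_lit 0x7f9927f9957f9957f9957f995b89e8) e
 (c (b (nat_lit 0xff05009)) e
 (c (nat_lit 0x7f8267f8267f81f7f8267f8263d9a9) e
 (c z e
 (c (nat_lit 0x800008000080000800007ff9589aa9) e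
 (c (b (nat_lit 0xffd640a)) e
 (c (nat_lit 0x7ffde7ff767ffde7ffde7ffde971ac) e e)))))))))))))))))))))
 (c (a (nat_lit 0x101ff800))
 (c (nat_lit 0x7f03e7f03e7f03e7f03e7f008d2a61) e
 (c z e
 (c z e
 (c (nat_lit 0x8000080000800007ff617ff61e7b62) e
 (c z e
 (c z e
 (c (b (nat_lit 0x102f6405)) e
 (c (b (nat_lit 0xff9ce06)) e
 (c z e
 (c (b (nat_lit 0xffc7a07)) e
 (c z e
 (c z e
 (c (b (nat_lit 0xff8f808)) e
 (c (b (nat_lit 0xff02208)) e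
 (c (nat_lit 0x7f8147f8147f80a7f80d7f814e6a89) e
 (c (b (nat_lit 0xff79209)) e
 (c z e
 (c z e
 (c (nat_lit 0x800088000880008800087ff454da2a) e
 (c (b (nat_lit 0xffb300c)) e e))))))))))))))))))))
 (c (a (nat_lit 0x101ffa00))
 (c (b (nat_lit 0xfdda403)) e
 (c z e
 (c z e
 (c z e
 (c z e
 (c (b (nat_lit 0x1049a806)) e
 (c (nat_lit 0x7e59b7e59b7e5967e59b7e59b34887) e
 (c (b (nat_lit 0xffe9807)) e
 (c z e
 (c z e
 (c (nat_lit 0x7fdf27fde37fdca7fe287fe28dae48) e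
 (c (b (nat_lit 0xff1fc08)) e
 (c (b (nat_lit 0xff15808)) e
 (c (nat_lit 0x7fc237fc237fc237fc1c7fc1d42989) e
 (c (nat_lit 0x7fc107fc107fc107fbfe7fbf787e49) e e)))))))))))))))
 (c (nat_lit 0x81001810008100081000e4880)
 (c z e
 (c z e
 (c z e
 (c z e
 (c z e
 (c z e
 (c z e
 (c (b (nat_lit 0x10146807)) e
 (c (b (nat_lit 0xfece608)) e
 (c (b (nat_lit 0xfcf9608)) e
 (c (b (nat_lit 0xfd0a608)) e
 (c (nat_lit 0x7fcb47fcb47fcb37fca87fcb4e2d28) e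
 (c (nat_lit 0x7fcb07fcb07fc9f7fc877fc7339b09) e
 (c (nat_lit 0x7fc7f7fc7f7fc7f7fc727fc5dded09) e
 (c (b (nat_lit 0xffc7809)) e
 (c (b (nat_lit 0xffdd009)) e e))))))))))))))))
 (c (a (nat_lit 0x101fe000))
 (c z e
 (c (nat_lit 0x7f70b7f70b7f4b47f4b47f70b0a726) e
 (c z e
 (c z e
 (c z e
 (c z e
 (c (nat_lit 0x801b28019780186801b2801b24d2a8) e
 (c (b (nat_lit 0xfdd3e08)) e
 (c (b (nat_lit 0xfdb6808)) e
 (c (nat_lit 0x7fd3f7fd4b7fd457fd4b7fd4b97a68) e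
 (c (nat_lit 0x7fd407fd287fd407fd327fd3cfb5e8) e
 (c (nat_lit 0x80000800007fcf87fd067fd05bd388) e
 (c (nat_lit 0x8000080000800007fcf07fcf97cea8) e e)))))))))))))
 (c (a (nat_lit 0x101ffc00))
 (c (b (nat_lit 0xfd34a07)) e
 (c z e
 (c z e
 (c (b (nat_lit 0x10320c07)) e
 (c (nat_lit 0x7fa207fa207fa107fa207fa20869c8) e
 (c (b (nat_lit 0xfb2cc08)) e
 (c (b (nat_lit 0xfe28408)) e
 (c (b (nat_lit 0xfe4e408)) e
 (c (nat_lit 0x7f2d97f2d97f2d87f2d57f2d9fec88) e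
 (c (nat_lit 0x7f2c17f2c17f2c17f2bf7f2bde5688) e
 (c (nat_lit 0x80000800007f2ad7f2a87f2a899ac8) e
 (c (nat_lit 0x8000080000800007f2997f29925b48) e e))))))))))))
 (c (nat_lit 0x80ffe80ffe80ffe80fff19d00)
 (c z e
 (c z e
 (c (nat_lit 0x7a2207a2187a21c7a2207a220b98c8) e
 (c (b (nat_lit 0xfd46e08)) e
 (c (b (nat_lit 0xfef6208)) e
 (c (nat_lit 0x7f0157f0277f0277f0277f0275ccc8) e
 (c (nat_lit 0x7efbd7efd87efe77efe77efe7b5188) e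
 (c (nat_lit 0x7efbd7efb57efd37efd37efd324548) e
 (c (nat_lit 0x7efa97efa57efa27efa97efa90e748) e
 (c (nat_lit 0x80000800007ef9b7ef9b7ef9b3c668) e
 (c (nat_lit 0x8000080000800007efa47efa40f6a8) e e)))))))))))
 (c (a (nat_lit 0x101ffe00))
 (c (nat_lit 0x740ad74085740a2740ad740adc4a08) e
 (c (b (nat_lit 0xfccf208)) e
 (c (b (nat_lit 0xfe4de08)) e
 (c (b (nat_lit 0xfe01e08)) e
 (c (nat_lit 0x7efb07efcd7efdb7efdb7efdb3f448) e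
 (c (nat_lit 0x7ef707ef8f7efa57efab7efab48ee8) e
 (c (nat_lit 0x7ef857ef697ef8b7ef8b7ef8bf19a8) e
 (c (nat_lit 0x7ef8d7ef8c7ef7a7ef8d7ef8d92008) e
 (c (nat_lit 0x80000800007ef7b7ef7b7ef7b47788) e
 (c (nat_lit 0x8000080000800007ef8e7ef8e02808) e e))))))))))
 (c (a (nat_lit 0x101ff800)) e
 (c (a (nat_lit 0x101ffc00)) e
 (c (a (nat_lit 0x10200200)) e
 (c (a (nat_lit 0x101ffa00)) e
 (c (a (nat_lit 0x10200200)) e
 (c (a (nat_lit 0x101ff400)) e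
 (c (nat_lit 0x80ffd80ffe80ffe80ffe5ec40) e
 (c (nat_lit 0x8100181001810018100067c41) e
 (c (nat_lit 0x80ffd80ffd80ffe80ffe487d1) e
 (c (a (nat_lit 0xfea9001)) e
 (c (a (nat_lit 0x100bba01)) e
 (c (nat_lit 0x80b6a80b6980b6980b698a842) e
 (c (nat_lit 0x811b7811b8811b7811b8b94c3) e
 (c (a (nat_lit 0x100d1403)) e
 (c (a (nat_lit 0x100a3403)) e
 (c (a (nat_lit 0x1005ce03)) e
 (c (a (nat_lit 0xffc6605)) e
 (c (nat_lit 0x803d0803d6803d5803d4c6916) e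
 (c (nat_lit 0x803e7803e7803e3803e745ce7) e
 (c (a (nat_lit 0xffb1007)) e
 (c (a (nat_lit 0xffb8607)) e
 (c (a (nat_lit 0x100a3807)) e e))))))))))))))))))))))))))))))) Tr.c Tr.e (nat_lit 0) C.t4 C.t5 C.t6
noncomputable def tt252 : Tr := beta% (fun (c : Nat → Tr → Tr → Tr) (e : Tr) (z : Nat) (a b d : Nat → Nat) =>
 (c (a (nat_lit 0xfe00600))
 (c (b (nat_lit 0x102d5603))
 (c (d (nat_lit 0xfff440b)) e e)
 (c (b (nat_lit 0x101e7403)) e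
 (c z e
 (c z e
 (c z e
 (c (b (nat_lit 0x10133606)) e
 (c (b (nat_lit 0x101fd007)) e
 (c z e
 (c z e
 (c z e
 (c z e
 (c (b (nat_lit 0xfb3f20a)) e
 (c (nat_lit 0x8115281152810cd811528115281152175cb) e
 (c (b (nat_lit 0x101fee0b)) e
 (c (b (nat_lit 0x101e320b)) e
 (c (b (nat_lit 0x1047b60b)) e
 (c (nat_lit 0x7fe2780000800008000080000800007af8d) e
 (c (nat_lit 0x800007feec7ffd48000080000800005984e) e e))))))))))))))))))
 (c (a (nat_lit 0xfe00a00))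
 (c z e
 (c z e
 (c z e
 (c z e
 (c z e
 (c z e
 (c z e
 (c z e
 (c z e
 (c z e
 (c z e
 (c (b (nat_lit 0x102eea0b)) e e))))))))))))
 (c (a (nat_lit 0xfe00200)) e
 (c (a (nat_lit 0xfe01000)) e
 (c (a (nat_lit 0xfe00200)) e
 (c (a (nat_lit 0xfe01800))
 (c z e
 (c z e
 (c z e
 (c z e
 (c z e
 (c z e
 (c z e
 (c (nat_lit 0x803698036980324803698036980369e5dce) e
 (c (nat_lit 0x8000080000800007ffb38000080000faf54) e e)))))))))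
 (c (a (nat_lit 0xfe01000))
 (c (b (nat_lit 0x101e600b)) e e)
 (c (a (nat_lit 0xfdffc01))
 (c (b (nat_lit 0xfffbe0b)) e e)
 (c (nat_lit 0x7f0197f0197f0187f0187f018f4201) e
 (c (nat_lit 0x7f0137f0137f0137f0057f0070b981) e
 (c (a (nat_lit 0xffcf601)) e
 (c z e
 (c (a (nat_lit 0xff25e03)) e
 (c (a (nat_lit 0xff30e03)) e
 (c (a (nat_lit 0xff60203)) e
 (c (a (nat_lit 0xffe8003)) e
 (c (a (nat_lit 0xffe0605)) e
 (c (a (nat_lit 0xfe89e06)) e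
 (c (a (nat_lit 0xfec6007)) e
 (c (a (nat_lit 0xfee3607)) e
 (c z e
 (c z e
 (c (a (nat_lit 0xff64609)) e
 (c (a (nat_lit 0xfe7b20a)) e
 (c (nat_lit 0x7ed9f7ed857ed9f7ed9f7ed9fe816b) e
 (c (nat_lit 0x7f6da7f6da7f6657f6657f6da2636b) e
 (c (nat_lit 0x7fbce7fbce7fbb57fb1d7fb1d5156b) e
 (c (nat_lit 0x800008000080000800007ff2e04f8b) e
 (c (a (nat_lit 0xff1cc0d)) e
 (c (nat_lit 0x7f0877f0777f0877f0877f0872204e) e e))))))))))))))))))))))))))))))) Tr.c Tr.e (nat_lit 0) C.t5 C.t6 C.t7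
noncomputable def tt253 : Tr := beta% (fun (c : Nat → Tr → Tr → Tr) (e : Tr) (z : Nat) (a b d : Nat → Nat) =>
 (c (nat_lit 0x7f0097f0087f0087f0087f00817be0)
 (c z
 (c (d (nat_lit 0x10fff807)) e
 (c z e
 (c z e
 (c z e
 (c z e
 (c z e
 (c (d (nat_lit 0xffbf40b)) e e)))))))
 (c z e
 (c z e
 (c z e
 (c (b (nat_lit 0x100bbc03)) e
 (c (b (nat_lit 0x102d7603)) e
 (c (b (nat_lit 0x100d4203)) e
 (c (b (nat_lit 0x10129a05)) e
 (c (b (nat_lit 0x102b4606)) e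
 (c (nat_lit 0x80000800007fe8b800008000080000d9247) e
 (c (nat_lit 0x80d0c80d0c80aca80cbf80d0c80d0cc4d87) e
 (c z e
 (c z e
 (c (b (nat_lit 0x1012720a)) e
 (c (b (nat_lit 0x1036680b)) e
 (c (b (nat_lit 0x1014800b)) e
 (c z e
 (c (b (nat_lit 0xfff240b)) e
 (c z e
 (c (b (nat_lit 0x101b5c0e)) e
 (c (nat_lit 0x800008000080000808ef808ef808ef27798) e e)))))))))))))))))))))
 (c (a (nat_lit 0xfe00c00))
 (c z e
 (c z e
 (c z e
 (c z e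
 (c z e
 (c z e
 (c z e
 (c z e
 (c z e
 (c z e
 (c z e
 (c z e
 (c (b (nat_lit 0x10415e0b)) e
 (c (b (nat_lit 0x10665a0b)) e
 (c (b (nat_lit 0x1021a00b)) e
 (c (b (nat_lit 0x100fb40b)) e
 (c z e
 (c (b (nat_lit 0xfff520e)) e e))))))))))))))))))
 (c (a (nat_lit 0xfe00600))
 (c z e
 (c z e
 (c z e
 (c z e
 (c z e
 (c z e
 (c z e
 (c z e
 (c z e
 (c z e
 (c z e
 (c (b (nat_lit 0x10225e0b)) e
 (c (b (nat_lit 0x1018280b)) e
 (c z e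
 (c (b (nat_lit 0xfff8e0d)) e
 (c z e
 (c (b (nat_lit 0xfff6c15)) e e)))))))))))))))))
 (c (a (nat_lit 0xfe01000))
 (c z e
 (c z e
 (c z e
 (c z e
 (c z e
 (c z e
 (c z e
 (c z e
 (c z e
 (c z e
 (c (b (nat_lit 0x10283a0b)) e e)))))))))))
 (c (a (nat_lit 0xfe00800))
 (c (nat_lit 0x820188201881b8882018820188201843d46) e
 (c (nat_lit 0x80dfc80dfc80d8580dfc80dfc80dfc032c7) e
 (c z e
 (c z e
 (c z e
 (c z e
 (c (nat_lit 0x80000800007fcc97ff448000080000d484b) e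
 (c (b (nat_lit 0xfffa00b)) e
 (c z e
 (c z e
 (c z e
 (c (nat_lit 0x8240c8240c823e88240c8240c8240cf5d8e) e e))))))))))))
 (c (a (nat_lit 0xfe01600))
 (c (b (nat_lit 0x1010ce07)) e
 (c z e
 (c z e
 (c z e
 (c (nat_lit 0x80b2180b2180ace80b2180b2180b21084cb) e
 (c z e
 (c z e
 (c z e
 (c z e
 (c (nat_lit 0x80e9380e9380db280db280e9380e93e6a4e) e
 (c (nat_lit 0x8000080000800007fffd8000080000d2494) e e)))))))))))
 (c (a (nat_lit 0xfe00800)) e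
 (c (nat_lit 0x7f00c7f00a7f00a7f00b7f00b0c580)
 (c z e
 (c (b (nat_lit 0x103bd60b)) e e))
 (c (a (nat_lit 0xfe00000))
 (c z e
 (c z e
 (c (b (nat_lit 0xffef80d)) e
 (c z e
 (c (b (nat_lit 0xfff3611)) e e)))))
 (c (a (nat_lit 0xfe02201))
 (c (b (nat_lit 0x103a780d)) e
 (c (nat_lit 0x828308283082522828308283082830a094e) e e))
 (c (a (nat_lit 0xfe00a01))
 (c (nat_lit 0x8000080000800007fe948000080000aa850) e e)
 (c (nat_lit 0x7f0137f0137f0137f0067f006c9b81) e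
 (c (a (nat_lit 0xff3fa01)) e
 (c (a (nat_lit 0xfefb602)) e
 (c (a (nat_lit 0xfecca03)) e
 (c (a (nat_lit 0xffa2603)) e
 (c z e
 (c z e
 (c (a (nat_lit 0xff8de05)) e
 (c (nat_lit 0x7f44e7f4127f44e7f44e7f44ed1946) e
 (c (a (nat_lit 0xfebb607)) e
 (c (a (nat_lit 0xfef3807)) e
 (c z e
 (c z e
 (c (a (nat_lit 0xfe3b00a)) e
 (c (nat_lit 0x7ed1b7ed1b7ed197ed1b7ed1bdf4cb) e
 (c (a (nat_lit 0xfdba20b)) e
 (c (nat_lit 0x7f7ae7f7ae7f77e7f6747f674cd68b) e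
 (c z e
 (c (nat_lit 0x7ffae7ffae7ffae80000800005b98d) e
 (c (nat_lit 0x7f2a07f3e27f3e27f3e27f3e24ee8e) e e)))))))))))))))))))))))))))))))) Tr.c Tr.e (nat_lit 0) C.t5 C.t6 C.t7
noncomputable def tt254 : Tr := beta% (fun (c : Nat → Tr → Tr → Tr) (e : Tr) (z : Nat) (a b d : Nat → Nat) =>
 (c (nat_lit 0x7f0087f0087f0087f0097f009f5cc0)
 (c (b (nat_lit 0x101fce01))
 (c (d (nat_lit 0xfd2b407)) e
 (c z e
 (c z e
 (c z e
 (c (nat_lit 0x8000080000800007fc97800008000080000af38b) e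
 (c (nat_lit 0x7eb607eb607eb607ea307eb607eb607eb609a50b) e
 (c z e
 (c z e
 (c z e
 (c (nat_lit 0x8000080000800007fc7d800008000080000f1b16) e e))))))))))
 (c (b (nat_lit 0x101fd801)) e
 (c (b (nat_lit 0x101cc401)) e
 (c (b (nat_lit 0xff65602)) e
 (c z
 (c z e
 (c (d (nat_lit 0x104bbe16)) e e))
 (c (b (nat_lit 0x101f9e03)) e
 (c z e
 (c z e
 (c z e
 (c (nat_lit 0x824e1824d7824e1824e1824e1824e14b246) e
 (c (b (nat_lit 0x10160407)) e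
 (c z e
 (c z e
 (c z e
 (c (b (nat_lit 0x10070a0b)) e
 (c (b (nat_lit 0x101a280b)) e
 (c z e
 (c z e
 (c z e
 (c (nat_lit 0x800007fdeb7fdeb8000080000800002ab8e) e
 (c (b (nat_lit 0x1020b816)) e e)))))))))))))))))))))
 (c (nat_lit 0x7f00a7f00a7f00a7f00a7f00b2df40)
 (c z e
 (c z e
 (c z e
 (c z e
 (c z e
 (c z e
 (c z e
 (c z e
 (c z e
 (c z e
 (c z e
 (c z e
 (c z e
 (c (b (nat_lit 0x10182e0b)) e
 (c (b (nat_lit 0x10124c0b)) e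
 (c z e
 (c (b (nat_lit 0xffefe0d)) e
 (c z e
 (c (b (nat_lit 0xfffa215)) e e)))))))))))))))))))
 (c (a (nat_lit 0xfe00400))
 (c z e
 (c z e
 (c z e
 (c z e
 (c z e
 (c z e
 (c z e
 (c z e
 (c z e
 (c z e
 (c z e
 (c z e
 (c z e
 (c z e
 (c z e
 (c (b (nat_lit 0xffe280e)) e e))))))))))))))))
 (c (a (nat_lit 0xfe00c00))
 (c z e
 (c z e
 (c z e
 (c z e
 (c z e
 (c z e
 (c z e
 (c z e
 (c z e
 (c z e
 (c (b (nat_lit 0x1005680b)) e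
 (c z e
 (c z e
 (c (b (nat_lit 0xfffa80e)) e e))))))))))))))
 (c (a (nat_lit 0xfe01600))
 (c z e
 (c (b (nat_lit 0x103d5206)) e
 (c z e
 (c z e
 (c z e
 (c (b (nat_lit 0x10286407)) e
 (c z e
 (c z e
 (c z e
 (c (b (nat_lit 0xff3b00b)) e
 (c z e
 (c (b (nat_lit 0x1035860e)) e e))))))))))))
 (c (a (nat_lit 0xfe00600))
 (c (nat_lit 0x813a5813a581314813a5813a5813a592107) e
 (c z e
 (c z e
 (c z e
 (c z e
 (c (nat_lit 0x8000080000800007ffe080000800008c8cb) e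
 (c z e
 (c z e
 (c z e
 (c z e
 (c (b (nat_lit 0x10064014)) e e)))))))))))
 (c (a (nat_lit 0xfe01000))
 (c z e
 (c z e
 (c z e
 (c z e
 (c z e
 (c z e
 (c z e
 (c z e
 (c (b (nat_lit 0xff91a12)) e
 (c (b (nat_lit 0xfffde14)) e e))))))))))
 (c (a (nat_lit 0xfe01800))
 (c z e
 (c z e
 (c z e
 (c z e
 (c z e
 (c (b (nat_lit 0x100b8c0e)) e e))))))
 (c (nat_lit 0x7f00d7f00b7f00c7f00e7f00e5b860) e
 (c (a (nat_lit 0xfe01a00))
 (c z e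
 (c (nat_lit 0x82f9382f9382ca582f9382f9382f939fe8e) e e))
 (c (a (nat_lit 0xfe01001)) e
 (c (a (nat_lit 0xfe00001)) e
 (c (nat_lit 0x7ee637eff47eff47eff47eff4000e1) e
 (c (a (nat_lit 0xff88801)) e
 (c (a (nat_lit 0xff14602)) e
 (c (a (nat_lit 0xff77603)) e
 (c (a (nat_lit 0xffdfc03)) e
 (c z e
 (c z e
 (c z e
 (c (a (nat_lit 0xfdadc06)) e
 (c (a (nat_lit 0xfe2c407)) e
 (c (a (nat_lit 0xff85407)) e
 (c (a (nat_lit 0xff7de07)) e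
 (c (a (nat_lit 0xff2a607)) e
 (c (a (nat_lit 0xfdc7a0b)) e
 (c (a (nat_lit 0xfe4de0b)) e
 (c z e
 (c z e
 (c z e
 (c (nat_lit 0x7f9fa7f9fd7fa687fa687fa683560e) e e)))))))))))))))))))))))))))))))) Tr.c Tr.e (nat_lit 0) C.t5 C.t6 C.t7
noncomputable def tt255 : Tr := beta% (fun (c : Nat → Tr → Tr → Tr) (e : Tr) (z : Nat) (a b d f : Nat → Nat) =>
 (c (a (nat_lit 0x101ffa00))
 (c (b (nat_lit 0xfe00e00))
 (c (d (nat_lit 0x101fba00))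
 (c z e
 (c (nat_lit 0x80000800007feea8000080000800008000005a06) e e))
 (c (d (nat_lit 0x101fde01))
 (c (nat_lit 0x80000800007ff908000080000800008000035807) e
 (c z e
 (c z e
 (c z e
 (c (nat_lit 0x8213f820668213f8213f8213f8213f8213fe238b) e
 (c z e
 (c z e
 (c (nat_lit 0x804488044880448804487ffbd8044880448c0e8b) e
 (c (f (nat_lit 0x1045b60d)) e e)))))))))
 (c (d (nat_lit 0x101fd601)) e
 (c (d (nat_lit 0x101ff401)) e
 (c (d (nat_lit 0x101fca01)) e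
 (c z e
 (c (d (nat_lit 0x1016de03))
 (c (f (nat_lit 0x102b7a24)) e e)
 (c (d (nat_lit 0x10108803)) e
 (c z e
 (c (d (nat_lit 0x1027b203)) e
 (c z e
 (c z e
 (c z e
 (c z e
 (c z e
 (c (d (nat_lit 0xff9fc07)) e
 (c z e
 (c z e
 (c z e
 (c (d (nat_lit 0x100a440b)) e
 (c (d (nat_lit 0x1006640d)) e
 (c (d (nat_lit 0x10266a0e)) e e)))))))))))))))))))))) tt254)
 (c (a (nat_lit 0x101ffa00)) tt253
 (c (a (nat_lit 0x101ffa00)) tt252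
 (c (a (nat_lit 0x101ffe00))
 (c (b (nat_lit 0xfed0a00))
 (c z e
 (c z e
 (c z e
 (c z e
 (c z e
 (c z e
 (c z e
 (c z e
 (c z e
 (c z e
 (c z e
 (c (d (nat_lit 0x1010d60b)) e
 (c z e
 (c z e
 (c (d (nat_lit 0xffecc0d)) e e)))))))))))))))
 (c (b (nat_lit 0xfe00400)) e
 (c (b (nat_lit 0xfe00800)) e
 (c (b (nat_lit 0xfe01200)) e
 (c (b (nat_lit 0xfdffa00)) e
 (c (b (nat_lit 0xfe00201))
 (c (d (nat_lit 0x1014460b)) e e)
 (c (b (nat_lit 0xfdff801)) e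
 (c (nat_lit 0x7f0187f0187f0187f0157f0165a481) e
 (c z e
 (c z e
 (c (b (nat_lit 0xfe5b403)) e
 (c z e
 (c z e
 (c z e
 (c z e
 (c (b (nat_lit 0xfd6ca06)) e
 (c z e
 (c z e
 (c z e
 (c z e
 (c z e
 (c (b (nat_lit 0xff66209)) e
 (c (b (nat_lit 0xfecd40a)) e
 (c (nat_lit 0x7f60d7f60d7f5ba7f5ba7f60de2d0b) e
 (c (b (nat_lit 0xff5820b)) e e)))))))))))))))))))))))))
 (c (a (nat_lit 0x101ffe00))
 (c (b (nat_lit 0xff07200))
 (c z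
 (c (nat_lit 0x80000800008000080000800007ff8c80000ded8d) e e)
 (c z e
 (c z e
 (c z e
 (c z e
 (c z e
 (c z e
 (c z e
 (c z e
 (c (d (nat_lit 0xffe0a0b)) e
 (c z e
 (c z e
 (c (nat_lit 0x80000800008000080000800007fff17b9cb) e e)))))))))))))
 (c (b (nat_lit 0xfe00400)) e
 (c (b (nat_lit 0xfdff800)) e
 (c (b (nat_lit 0xfe00c01)) e
 (c (b (nat_lit 0xfe00201)) e
 (c (b (nat_lit 0xfdff601))
 (c (d (nat_lit 0x1077420b)) e e)
 (c (b (nat_lit 0x10169401)) e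
 (c (b (nat_lit 0xfe10802)) e
 (c z e
 (c z e
 (c z e
 (c (b (nat_lit 0x100a7403)) e
 (c z e
 (c (b (nat_lit 0xfe3a606)) e
 (c (b (nat_lit 0x100a0807)) e
 (c (b (nat_lit 0xff6f007)) e
 (c z e
 (c (nat_lit 0x8000080000800007ffc07ffc0e8b27) e
 (c (nat_lit 0x7f58e7f58e7f57c7f58e7f58e09529) e
 (c z e
 (c (nat_lit 0x7f1877f1e07f1e07f1e07f1e0c3f09) e
 (c (b (nat_lit 0xfdf880a)) e
 (c (nat_lit 0x7eb697eb1d7eb697eb697eb69627ab) e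
 (c (nat_lit 0x7f1977f1977f1907f1907f197b342b) e
 (c (b (nat_lit 0xff73e0b)) e e)))))))))))))))))))))))))
 (c (a (nat_lit 0x101ff800))
 (c (b (nat_lit 0xfe01600))
 (c z e
 (c (d (nat_lit 0x101c7a09)) e
 (c z e
 (c z e
 (c z e
 (c (d (nat_lit 0x1065260a)) e
 (c (nat_lit 0x849888484d8484d8498884988849883c94c) e
 (c (nat_lit 0x82f3182f3182d7d82d7d82f3182f3139560) e
 (c (d (nat_lit 0x107fb620)) e e)))))))))
 (c (b (nat_lit 0xfe01601))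
 (c (d (nat_lit 0x10049409)) e
 (c (nat_lit 0x80ba380ba3809a080ba380ba380ba354849) e
 (c z e
 (c (nat_lit 0x810538105381053810538105381008d0bca) e
 (c (d (nat_lit 0x102cc60c)) e
 (c (nat_lit 0x8331c8331c83130831f78331c8331c98cd4) e
 (c z e
 (c (nat_lit 0x800008000080000800007fce87fce87bb8b) e e))))))))
 (c (b (nat_lit 0xfe00601))
 (c z e
 (c z e
 (c (d (nat_lit 0x102e5a0c)) e e)))
 (c (b (nat_lit 0xfe00e01))
 (c z e
 (c (d (nat_lit 0x103e6811)) e e))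
 (c z e
 (c (b (nat_lit 0xfcf2a02)) e
 (c (b (nat_lit 0xfa9e203)) e
 (c z e
 (c z e
 (c (b (nat_lit 0x10283203)) e
 (c z e
 (c (b (nat_lit 0xfd40806)) e
 (c (b (nat_lit 0x10075807)) e
 (c z e
 (c z e
 (c z e
 (c (b (nat_lit 0xfeefe09)) e
 (c (nat_lit 0x7eff67eff67eff67eff57eff60d6a9) e
 (c (nat_lit 0x7fb8e7fb8e7fb607fb607fb8e89389) e
 (c (b (nat_lit 0xfe61409)) e
 (c (b (nat_lit 0xfe0fe0a)) e
 (c (nat_lit 0x7f6087f6087f5a37f6087f6085d7cc) e e)))))))))))))))))))))) tt251))))))) Tr.c Tr.e (nat_lit 0) C.t4 C.t5 C.t6 C.t7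
noncomputable def tt256 : Tr := beta% (fun (c : Nat → Tr → Tr → Tr) (e : Tr) (z : Nat) (a b : Nat → Nat) =>
 (c (a (nat_lit 0xfe01800))
 (c (b (nat_lit 0x101f7800)) e
 (c (b (nat_lit 0x101f8800)) e
 (c (b (nat_lit 0x101fd801)) e
 (c (b (nat_lit 0x101fd801)) e
 (c (b (nat_lit 0x101fce01)) e
 (c (b (nat_lit 0x101fd401)) e
 (c z e
 (c z e
 (c z e
 (c z e
 (c z e
 (c z e
 (c z e
 (c z e
 (c z e
 (c z e
 (c (b (nat_lit 0xfecaa07)) e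
 (c z e
 (c z e
 (c z e
 (c z e
 (c (b (nat_lit 0x1019940e)) e
 (c (b (nat_lit 0x1019ae16)) e
 (c (b (nat_lit 0xfff0019)) e e))))))))))))))))))))))))
 (c (a (nat_lit 0xfe01400))
 (c (b (nat_lit 0x101fd601)) e
 (c (b (nat_lit 0x101fe801)) e
 (c (b (nat_lit 0x101fe601)) e
 (c z e
 (c z e
 (c z e
 (c z e
 (c z e
 (c z e
 (c (b (nat_lit 0xffb0205)) e
 (c z e
 (c z e
 (c z e
 (c (b (nat_lit 0x10199607)) e
 (c z e
 (c z e
 (c (b (nat_lit 0x1004500b)) e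
 (c z e
 (c z e
 (c (b (nat_lit 0x101a7e0e)) e e))))))))))))))))))))
 (c (a (nat_lit 0xfe01200))
 (c (b (nat_lit 0x101ff001))
 (c z e
 (c z e
 (c z e
 (c z e
 (c z e
 (c (nat_lit 0x800008000080000800007fd02800008000043a0d) e e))))))
 (c (b (nat_lit 0x101fd601)) e
 (c z e
 (c z e
 (c (b (nat_lit 0x100ee203)) e
 (c z e
 (c z e
 (c z e
 (c z e
 (c z e
 (c z e
 (c z e
 (c (b (nat_lit 0xffef407)) e
 (c z e
 (c z e
 (c z e
 (c (b (nat_lit 0xfffd60d)) e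
 (c z e
 (c (b (nat_lit 0xfff5213)) e e)))))))))))))))))))
 (c (a (nat_lit 0xfe01600))
 (c z e
 (c z e
 (c z e
 (c z e
 (c (b (nat_lit 0x100c2603)) e
 (c z e
 (c (b (nat_lit 0x10095c06)) e
 (c z e
 (c z e
 (c z e
 (c z e
 (c z e
 (c (b (nat_lit 0x100fde0b)) e
 (c z e
 (c (b (nat_lit 0xffe100d)) e e)))))))))))))))
 (c (a (nat_lit 0xfe01600))
 (c z e
 (c z e
 (c z e
 (c z e
 (c z e
 (c z e
 (c z e
 (c z e
 (c z e
 (c z e
 (c (b (nat_lit 0x1009460b)) e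
 (c (b (nat_lit 0xffff20b)) e e))))))))))))
 (c (a (nat_lit 0xfe00c00))
 (c z e
 (c z e
 (c z e
 (c z e
 (c z e
 (c z e
 (c z e
 (c z e
 (c z e
 (c z e
 (c z e
 (c z e
 (c (b (nat_lit 0xffbb414)) e e)))))))))))))
 (c (a (nat_lit 0xfe01c00))
 (c z e
 (c z e
 (c z e
 (c z e
 (c z e
 (c z e
 (c z e
 (c z e
 (c z e
 (c z e
 (c z e
 (c (b (nat_lit 0xffc8e14)) e e))))))))))))
 (c (a (nat_lit 0xfe02000))
 (c z e
 (c z e
 (c z e
 (c z e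
 (c z e
 (c z e
 (c z e
 (c z e
 (c z e
 (c (b (nat_lit 0xfff5812)) e
 (c (b (nat_lit 0xff8a414)) e e)))))))))))
 (c (a (nat_lit 0xfe02c00)) e
 (c (nat_lit 0x7f00b7f00a7f00b7f00b7f00bd1300)
 (c z e
 (c z e
 (c z e
 (c z e
 (c (b (nat_lit 0x1027d611)) e e)))))
 (c (nat_lit 0x7f0237f0237f0227f0227f02244220) e
 (c (nat_lit 0x7f00f7f00e7f00f7f00f7f0108f200) e
 (c (a (nat_lit 0xfe01001)) e
 (c (a (nat_lit 0xfe01a01))
 (c z e
 (c (nat_lit 0x80000800008000080000814d8814e191250) e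
 (c (nat_lit 0x80000800008000080000800007ffe470350) e e)))
 (c (a (nat_lit 0xfe00201)) e
 (c (a (nat_lit 0xff1e801)) e
 (c (a (nat_lit 0xfede002)) e
 (c (a (nat_lit 0xff6b803)) e
 (c (a (nat_lit 0xff7ba03)) e
 (c z e
 (c (a (nat_lit 0xffcf003)) e
 (c (a (nat_lit 0xfffc605)) e
 (c (a (nat_lit 0xfefec06)) e
 (c (a (nat_lit 0xffabe07)) e
 (c (a (nat_lit 0xff80007)) e
 (c z e
 (c (a (nat_lit 0xff57c07)) e
 (c z e
 (c z e
 (c z e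
 (c z e
 (c (nat_lit 0x7f1d87f1d87f1d87f23c7f23c9974e) e e))))))))))))))))))))))))))))))))) Tr.c Tr.e (nat_lit 0) C.t5 C.t6
noncomputable def tt257 : Tr := beta% (fun (c : Nat → Tr → Tr → Tr) (e : Tr) (z : Nat) (a b : Nat → Nat) =>
 (c (a (nat_lit 0x101f4600))
 (c (nat_lit 0x7ee717ee717ee717ee717ee717eb1b7ee71f2d03) e
 (c z e
 (c z e
 (c z e
 (c z e
 (c z e
 (c z e
 (c (b (nat_lit 0xfaab007)) e
 (c z e
 (c z e
 (c z e
 (c z e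
 (c z e
 (c z e
 (c z e
 (c z e
 (c (b (nat_lit 0xfff8e19)) e
 (c (b (nat_lit 0xff9d21a)) e e))))))))))))))))))
 (c (a (nat_lit 0x101f6c00))
 (c z e
 (c z e
 (c z e
 (c z e
 (c z e
 (c z e
 (c z e
 (c z e
 (c z e
 (c (b (nat_lit 0xfde0e0b)) e
 (c z e
 (c z e
 (c z e
 (c z e
 (c z e
 (c (b (nat_lit 0xfffac1a)) e e))))))))))))))))
 (c (a (nat_lit 0x101f8800)) e
 (c (a (nat_lit 0x101f8400)) e
 (c (a (nat_lit 0x101fc401)) e
 (c (a (nat_lit 0x101fb801)) e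
 (c (a (nat_lit 0x101fc001)) e
 (c (a (nat_lit 0x101fa401)) e
 (c (a (nat_lit 0x100a1002)) e
 (c (a (nat_lit 0x100cb603)) e
 (c (a (nat_lit 0x101c8403)) e
 (c z e
 (c z e
 (c z e
 (c z e
 (c z e
 (c (a (nat_lit 0xfff1607)) e
 (c z e
 (c (a (nat_lit 0xff00607)) e
 (c z e
 (c z e
 (c z e
 (c z e
 (c (a (nat_lit 0x10043e0e)) e
 (c (a (nat_lit 0xfffda19)) e e)))))))))))))))))))))))))) Tr.c Tr.e (nat_lit 0) C.t6 C.t7
noncomputable def tt258 : Tr := beta% (fun (c : Nat → Tr → Tr → Tr) (e : Tr) (z : Nat) (a b : Nat → Nat) =>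
 (c (a (nat_lit 0xfe00a00))
 (c (b (nat_lit 0x101f8800)) e
 (c (b (nat_lit 0x101f9a00)) e
 (c (b (nat_lit 0x101f8e00)) e
 (c (b (nat_lit 0x101ff601)) e
 (c (b (nat_lit 0x101fea01)) e
 (c (b (nat_lit 0x101fda01)) e
 (c (b (nat_lit 0x101f9a01)) e
 (c (b (nat_lit 0x100e7802)) e
 (c (b (nat_lit 0x1008ac03)) e
 (c (b (nat_lit 0x10141a03)) e
 (c z e
 (c z e
 (c z e
 (c z e
 (c z e
 (c z e
 (c z e
 (c z e
 (c z e
 (c (b (nat_lit 0xff5f40b)) e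
 (c (b (nat_lit 0xff37e0d)) e
 (c (nat_lit 0x800007fe817fe81800008000080000693ce) e
 (c (b (nat_lit 0xfff800f)) e e)))))))))))))))))))))))
 (c (a (nat_lit 0xfe00200))
 (c (b (nat_lit 0x101fa600))
 (c z e
 (c z e
 (c z e
 (c z e
 (c z e
 (c z e
 (c z e
 (c (nat_lit 0x80000800007ff2180000800008000080000c180d) e e))))))))
 (c (b (nat_lit 0x101ff601)) e
 (c (b (nat_lit 0x101ffa01)) e
 (c (b (nat_lit 0x101ff201)) e
 (c (b (nat_lit 0x101c0a01)) e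
 (c z e
 (c (b (nat_lit 0x1009c603)) e
 (c (b (nat_lit 0x10172a03)) e
 (c (b (nat_lit 0x10058203)) e
 (c (b (nat_lit 0xff37603)) e
 (c z e
 (c z e
 (c z e
 (c (b (nat_lit 0x10073a07)) e
 (c (b (nat_lit 0x100a2607)) e
 (c (b (nat_lit 0x10028807)) e
 (c (b (nat_lit 0x100e480b)) e
 (c z e
 (c z e
 (c z e
 (c (b (nat_lit 0xffd5a0f)) e
 (c (b (nat_lit 0xfff7a0f)) e
 (c (b (nat_lit 0xffed00f)) e e)))))))))))))))))))))))
 (c (a (nat_lit 0xfe00600))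
 (c (b (nat_lit 0x10200601)) e
 (c (b (nat_lit 0x101ff201)) e
 (c (b (nat_lit 0x1012c401)) e
 (c z e
 (c z e
 (c (b (nat_lit 0x101e7e03)) e
 (c (b (nat_lit 0x101c6403)) e
 (c z e
 (c z e
 (c z e
 (c z e
 (c z e
 (c (b (nat_lit 0x10027407)) e
 (c z e
 (c z e
 (c (b (nat_lit 0xffeae0b)) e e))))))))))))))))
 (c (a (nat_lit 0xfe00600))
 (c z e
 (c z e
 (c z e
 (c z e
 (c z e
 (c z e
 (c z e
 (c z e
 (c z e
 (c z e
 (c z e
 (c z e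
 (c z e
 (c z e
 (c (b (nat_lit 0xffe8e0d)) e
 (c z e
 (c (b (nat_lit 0xffe440f)) e
 (c z e
 (c (b (nat_lit 0xfffb20f)) e
 (c (b (nat_lit 0xffd740f)) e e))))))))))))))))))))
 (c (a (nat_lit 0xfe00200))
 (c z e
 (c z e
 (c z e
 (c z e
 (c z e
 (c (b (nat_lit 0x101a6006)) e e))))))
 (c (a (nat_lit 0xfe01400))
 (c z e
 (c z e
 (c z e
 (c z e
 (c z e
 (c z e
 (c z e
 (c z e
 (c z e
 (c z e
 (c z e
 (c z e
 (c (b (nat_lit 0xfffa60f)) e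
 (c z e
 (c z e
 (c z e
 (c (nat_lit 0x8000080000800007ffeb7ffeb800006ded8) e e)))))))))))))))))
 (c (a (nat_lit 0xfe01000)) e
 (c (a (nat_lit 0xfe00600))
 (c z e
 (c (b (nat_lit 0xff87207)) e
 (c z e
 (c z e
 (c z e
 (c z e
 (c z e
 (c z e
 (c z e
 (c z e
 (c z e
 (c (b (nat_lit 0xffc0a0f)) e e))))))))))))
 (c (a (nat_lit 0xfe01800))
 (c (b (nat_lit 0xff4a007)) e e)
 (c (a (nat_lit 0xfdff200)) e
 (c (a (nat_lit 0xfe02a00)) e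
 (c (a (nat_lit 0xfe00c00)) e
 (c (a (nat_lit 0xfe00200))
 (c z e
 (c (b (nat_lit 0x10b2560f)) e e))
 (c (a (nat_lit 0xfe00801))
 (c (nat_lit 0x800008000087ea687ea687ea687ea674950) e
 (c (nat_lit 0x8000080000800008136b8136e8136ec2950) e
 (c (nat_lit 0x8000080000800008000080b5080b5030f90) e e)))
 (c (a (nat_lit 0xfdff801)) e
 (c (nat_lit 0x7f0107f0107f0107f0077f007e03a1) e
 (c (a (nat_lit 0xff0a201)) e
 (c (a (nat_lit 0xfec3c02)) e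
 (c (a (nat_lit 0xfed0203)) e
 (c (a (nat_lit 0xff54003)) e
 (c z e
 (c (a (nat_lit 0xff76403)) e
 (c z e
 (c z e
 (c (a (nat_lit 0xff66e07)) e
 (c (a (nat_lit 0xfeff807)) e
 (c (a (nat_lit 0xfebb607)) e
 (c (a (nat_lit 0xffcdc07)) e
 (c z e
 (c z e
 (c z e
 (c z e
 (c (a (nat_lit 0xfffa00f)) e
 (c (a (nat_lit 0x1000a00f)) e
 (c (a (nat_lit 0xfffc00f)) e
 (c (a (nat_lit 0x100d280f)) e e))))))))))))))))))))))))))))))))))))) Tr.c Tr.e (nat_lit 0) C.t5 C.t6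
noncomputable def tt259 : Tr := beta% (fun (c : Nat → Tr → Tr → Tr) (e : Tr) (z : Nat) (a b : Nat → Nat) =>
 (c (a (nat_lit 0x101f5400))
 (c (nat_lit 0x7f21e7f21e7f21e7f21e7f21e7f1b97f1bac3202) e e)
 (c (a (nat_lit 0x101f8e00))
 (c z e
 (c z e
 (c z e
 (c z e
 (c z e
 (c z e
 (c (b (nat_lit 0xfff6a07)) e
 (c z e
 (c z e
 (c (b (nat_lit 0xffcaa0b)) e
 (c z e
 (c z e
 (c z e
 (c z e
 (c z e
 (c (b (nat_lit 0xffe960f)) e e))))))))))))))))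
 (c (a (nat_lit 0x101fa200))
 (c z e
 (c z e
 (c z e
 (c z e
 (c z e
 (c z e
 (c z e
 (c z e
 (c (b (nat_lit 0xffee40b)) e
 (c z e
 (c z e
 (c z e
 (c z e
 (c (b (nat_lit 0xffe920f)) e
 (c (b (nat_lit 0xfff0c0f)) e e)))))))))))))))
 (c (a (nat_lit 0x101f9600))
 (c z e
 (c z e
 (c z e
 (c z e
 (c z e
 (c (b (nat_lit 0xffbe80b)) e e))))))
 (c (a (nat_lit 0x101f7600)) e
 (c (a (nat_lit 0x101fe001)) e
 (c (a (nat_lit 0x101fe001)) e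
 (c (a (nat_lit 0x101fce01)) e
 (c (a (nat_lit 0x10105a01)) e
 (c (a (nat_lit 0x100c9c02)) e
 (c (a (nat_lit 0x10126603)) e
 (c z e
 (c z e
 (c z e
 (c z e
 (c (a (nat_lit 0x10131806)) e
 (c (a (nat_lit 0x100a0407)) e
 (c z e
 (c z e
 (c z e
 (c z e
 (c z e
 (c (a (nat_lit 0xffbee0d)) e e)))))))))))))))))))))))) Tr.c Tr.e (nat_lit 0) C.t6 C.t7
noncomputable def tt260 : Tr := beta% (fun (c : Nat → Tr → Tr → Tr) (e : Tr) (z : Nat) (a b : Nat → Nat) =>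
 (c (a (nat_lit 0x101f8800))
 (c (nat_lit 0x7eca37ea137eca37eca37eca37eca37eca3b9b81) e
 (c (b (nat_lit 0xfe2aa01)) e
 (c (nat_lit 0x7f0647f1377f1377f1377f1377f1377f1372d501) e
 (c (b (nat_lit 0xfe1ec02)) e
 (c z e
 (c z e
 (c z e
 (c z e
 (c (b (nat_lit 0xffed205)) e
 (c z e
 (c z e
 (c z e
 (c (b (nat_lit 0xffe6407)) e
 (c z e
 (c z e
 (c (b (nat_lit 0x1071b00b)) e
 (c z e
 (c z e
 (c z e
 (c (nat_lit 0x800007fe9480000800008000080000800001f60f) e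
 (c (nat_lit 0x80000800007ff748000080000800008000011b0f) e e)))))))))))))))))))))
 (c (a (nat_lit 0x101f9600))
 (c (b (nat_lit 0xfe2ec01)) e
 (c (b (nat_lit 0xfe22002)) e
 (c z e
 (c z e
 (c z e
 (c z e
 (c z e
 (c (b (nat_lit 0xfffb006)) e
 (c z e
 (c z e
 (c z e
 (c z e
 (c z e
 (c z e
 (c z e
 (c z e
 (c (b (nat_lit 0xffe8a0f)) e
 (c (b (nat_lit 0xfff100f)) e
 (c (b (nat_lit 0xffe1a0f)) e
 (c (b (nat_lit 0xffe540f)) e e))))))))))))))))))))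
 (c (a (nat_lit 0x101f9200))
 (c z e
 (c z e
 (c z e
 (c z e
 (c z e
 (c z e
 (c z e
 (c z e
 (c z e
 (c z e
 (c z e
 (c z e
 (c z e
 (c z e
 (c z e
 (c z e
 (c z e
 (c (b (nat_lit 0xffd1e0f)) e e))))))))))))))))))
 (c (a (nat_lit 0x101fba00)) e
 (c (a (nat_lit 0x101fa600))
 (c z e
 (c z e
 (c z e
 (c z e
 (c z e
 (c z e
 (c (b (nat_lit 0xffea60b)) e
 (c z e
 (c z e
 (c z e
 (c z e
 (c z e
 (c (b (nat_lit 0xffea60f)) e e)))))))))))))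
 (c (a (nat_lit 0x101f9800)) e
 (c (a (nat_lit 0x101fb800)) e
 (c (a (nat_lit 0x101fc601)) e
 (c (a (nat_lit 0x101fe001)) e
 (c (a (nat_lit 0x101f8a01)) e
 (c (a (nat_lit 0x10145401)) e
 (c (a (nat_lit 0x1015d202)) e
 (c (a (nat_lit 0x10022003)) e
 (c z e
 (c z e
 (c z e
 (c (a (nat_lit 0x100dba05)) e
 (c (a (nat_lit 0x1011ee06)) e
 (c z e
 (c z e
 (c (a (nat_lit 0xff90e07)) e
 (c z e
 (c z e
 (c z e
 (c (a (nat_lit 0xffe360d)) e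
 (c z e
 (c z e
 (c z e
 (c (a (nat_lit 0xfff100f)) e
 (c (a (nat_lit 0xffe300f)) e e))))))))))))))))))))))))))))))) Tr.c Tr.e (nat_lit 0) C.t6 C.t7
noncomputable def tt261 : Tr := beta% (fun (c : Nat → Tr → Tr → Tr) (e : Tr) (z : Nat) (a b : Nat → Nat) =>
 (c (a (nat_lit 0xfe00800))
 (c (b (nat_lit 0x101ffe01)) e
 (c (b (nat_lit 0x101ff601)) e
 (c (b (nat_lit 0x101ffc01)) e
 (c z e
 (c (b (nat_lit 0x1007d202)) e
 (c (b (nat_lit 0x10198003)) e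
 (c (b (nat_lit 0x1021de03)) e
 (c (b (nat_lit 0x100ef603)) e
 (c z e
 (c z e
 (c z e
 (c z e
 (c (b (nat_lit 0xfdcf407)) e
 (c z e
 (c (b (nat_lit 0xff99207)) e
 (c z e
 (c z e
 (c z e
 (c (nat_lit 0x806258062580625805ac805ac806252c08f) e
 (c (nat_lit 0x800008000080000800007ffc37ffc38528f) e
 (c z e
 (c z e
 (c (b (nat_lit 0xfff7e16)) e e)))))))))))))))))))))))
 (c (a (nat_lit 0xfdffe00))
 (c (b (nat_lit 0x10130001)) e
 (c (b (nat_lit 0x101ffc01)) e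
 (c z e
 (c (b (nat_lit 0x10145a03)) e
 (c z e
 (c (b (nat_lit 0x10172803)) e
 (c z e
 (c z e
 (c z e
 (c z e
 (c (b (nat_lit 0x10416007)) e
 (c z e
 (c (b (nat_lit 0xff8ae07)) e
 (c z e
 (c (b (nat_lit 0x100daa0d)) e
 (c (b (nat_lit 0xfffb60e)) e
 (c z e
 (c (b (nat_lit 0xfff8a0f)) e
 (c (b (nat_lit 0xffef60f)) e
 (c (b (nat_lit 0xffddc0f)) e e))))))))))))))))))))
 (c (a (nat_lit 0xfe00400))
 (c z e
 (c z e
 (c z e
 (c z e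
 (c z e
 (c z e
 (c z e
 (c z e
 (c z e
 (c z e
 (c z e
 (c (b (nat_lit 0x100cac0b)) e
 (c (b (nat_lit 0x10106a0d)) e
 (c (b (nat_lit 0x101ee60e)) e
 (c z e
 (c z e
 (c (b (nat_lit 0xfff600f)) e e)))))))))))))))))
 (c (a (nat_lit 0xfe00400))
 (c z e
 (c z e
 (c z e
 (c z e
 (c z e
 (c z e
 (c z e
 (c z e
 (c z e
 (c z e
 (c (b (nat_lit 0x100de40d)) e e)))))))))))
 (c (a (nat_lit 0xfe00800))
 (c z e
 (c z e
 (c z e
 (c z e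
 (c z e
 (c z e
 (c z e
 (c z e
 (c z e
 (c z e
 (c z e
 (c (b (nat_lit 0xfffbc0f)) e
 (c (b (nat_lit 0xffde60f)) e e)))))))))))))
 (c (a (nat_lit 0xfe00000))
 (c z e
 (c (b (nat_lit 0x101a1007)) e
 (c z e
 (c z e
 (c z e
 (c z e
 (c z e
 (c (b (nat_lit 0x10193c0e)) e
 (c (b (nat_lit 0x1009100f)) e
 (c z e
 (c (b (nat_lit 0xfff120f)) e
 (c (b (nat_lit 0xfffb80f)) e
 (c (b (nat_lit 0x10025a14)) e e)))))))))))))
 (c (a (nat_lit 0xfe01200))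
 (c z e
 (c z e
 (c z e
 (c z e
 (c z e
 (c z e
 (c z e
 (c (b (nat_lit 0xffbe80f)) e
 (c (b (nat_lit 0xffc480f)) e e)))))))))
 (c (a (nat_lit 0xfdff600))
 (c z e
 (c z e
 (c z e
 (c z e
 (c z e
 (c z e
 (c z e
 (c z e
 (c (b (nat_lit 0x100ed011)) e e)))))))))
 (c (nat_lit 0x7f01e7f01d7f01d7f01d7f01d400c0) e
 (c (a (nat_lit 0xfe00200))
 (c z e
 (c z e
 (c z e
 (c z e
 (c z e
 (c (nat_lit 0x8000080000800008000082d8282d82f4010) e e))))))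
 (c (a (nat_lit 0xfe00200))
 (c z e
 (c z e
 (c (nat_lit 0x8000080000852b7852b7852b7852b779f90) e
 (c (nat_lit 0x80000800008000080b3280b3280b3268e10) e e))))
 (c (a (nat_lit 0xfe00400))
 (c (b (nat_lit 0x11000010)) e
 (c (nat_lit 0x8000080000822c1822c2822c2822c2206d0) e
 (c (nat_lit 0x80000800008000080b5080b5080b5050290) e
 (c (nat_lit 0x8000080000800008000080ec680ec6bbc10) e e))))
 (c (a (nat_lit 0xfe00401)) e
 (c (a (nat_lit 0xfe00a01)) e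
 (c (a (nat_lit 0xfdfd401)) e
 (c (a (nat_lit 0xff0b801)) e
 (c (a (nat_lit 0xff3a202)) e
 (c (a (nat_lit 0xfed2c03)) e
 (c (a (nat_lit 0xff0a403)) e
 (c (a (nat_lit 0xff99c03)) e
 (c (a (nat_lit 0xffe0403)) e
 (c (a (nat_lit 0xffe2805)) e
 (c (a (nat_lit 0xff3d406)) e
 (c (a (nat_lit 0xff13e07)) e
 (c (a (nat_lit 0xff08e07)) e
 (c z e
 (c z e
 (c z e
 (c z e
 (c (a (nat_lit 0xff92e0e)) e
 (c z e
 (c (nat_lit 0x7ff667ff667ffc67ffc67ffc6395ef) e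
 (c (a (nat_lit 0xfffd00f)) e
 (c (a (nat_lit 0x1009300f)) e e))))))))))))))))))))))))))))))))))) Tr.c Tr.e (nat_lit 0) C.t5 C.t6
noncomputable def tt262 : Tr := beta% (fun (c : Nat → Tr → Tr → Tr) (e : Tr) (z : Nat) (a b : Nat → Nat) =>
 (c (a (nat_lit 0x101f6000))
 (c (b (nat_lit 0xfe29601)) e
 (c (nat_lit 0x7f1b47f1b47f1b47f1b47f1b47f11d7f11f37202) e
 (c z e
 (c z e
 (c z e
 (c z e
 (c z e
 (c z e
 (c z e
 (c z e
 (c z e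
 (c z e
 (c z e
 (c z e
 (c z e
 (c z e
 (c z e
 (c z e
 (c z e
 (c (b (nat_lit 0xfff3632)) e e))))))))))))))))))))
 (c (a (nat_lit 0x101f9400)) e
 (c (a (nat_lit 0x101f8a00))
 (c z e
 (c z e
 (c z e
 (c z e
 (c z e
 (c z e
 (c z e
 (c (b (nat_lit 0xffbf207)) e
 (c z e
 (c z e
 (c z e
 (c z e
 (c z e
 (c z e
 (c (b (nat_lit 0xfee400f)) e e)))))))))))))))
 (c (a (nat_lit 0x101f9a00))
 (c z e
 (c z e
 (c z e
 (c z e
 (c z e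
 (c z e
 (c z e
 (c (b (nat_lit 0xff99a0d)) e e))))))))
 (c (a (nat_lit 0x101f8e00))
 (c z e
 (c z e
 (c z e
 (c z e
 (c z e
 (c z e
 (c z e
 (c z e
 (c z e
 (c z e
 (c z e
 (c (b (nat_lit 0xffc0025)) e e))))))))))))
 (c (a (nat_lit 0x101f8600)) e
 (c (a (nat_lit 0x101fde01)) e
 (c (a (nat_lit 0x101f9401)) e
 (c (a (nat_lit 0x101fba01))
 (c z e
 (c z e
 (c (b (nat_lit 0xffcaa0f)) e e)))
 (c (a (nat_lit 0x1013e401)) e
 (c (a (nat_lit 0x100b2e02)) e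
 (c z e
 (c z e
 (c z e
 (c z e
 (c (a (nat_lit 0x100a7005)) e
 (c z e
 (c (a (nat_lit 0xffd9807)) e
 (c z e
 (c z e
 (c z e
 (c z e
 (c (a (nat_lit 0xff9460d)) e
 (c z e
 (c (a (nat_lit 0xffff80f)) e
 (c (a (nat_lit 0xffea20f)) e e))))))))))))))))))))))))))) Tr.c Tr.e (nat_lit 0) C.t6 C.t7
noncomputable def tt263 : Tr := beta% (fun (c : Nat → Tr → Tr → Tr) (e : Tr) (z : Nat) (a b : Nat → Nat) =>
 (c (a (nat_lit 0x101fc200))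
 (c (b (nat_lit 0xfe23e01)) e
 (c (nat_lit 0x7f1317f1317f1307f1307f1307f1307f13027681) e
 (c (b (nat_lit 0xfe24e01)) e
 (c (b (nat_lit 0xfe20a01)) e
 (c (nat_lit 0x7f1007f1007f1007f1007f1007f0ea7f0eb28582) e e)))))
 (c (a (nat_lit 0x101f9800))
 (c (b (nat_lit 0xfe2a201)) e
 (c (b (nat_lit 0xfe24601)) e
 (c (b (nat_lit 0xfe1ea02)) e
 (c z e
 (c z e
 (c z e
 (c z e
 (c z e
 (c z e
 (c (b (nat_lit 0xfef5807)) e
 (c z e
 (c z e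
 (c z e
 (c z e
 (c z e
 (c z e
 (c (b (nat_lit 0xffb3c0f)) e
 (c (b (nat_lit 0xffff40f)) e
 (c (b (nat_lit 0xff7fe0f)) e
 (c (b (nat_lit 0xffec80f)) e e))))))))))))))))))))
 (c (a (nat_lit 0x101fae00))
 (c (b (nat_lit 0xfbb0602)) e
 (c z e
 (c z e
 (c z e
 (c z e
 (c z e
 (c z e
 (c z e
 (c z e
 (c (b (nat_lit 0xffe0207)) e
 (c z e
 (c z e
 (c z e
 (c z e
 (c z e
 (c (b (nat_lit 0xffeb00f)) e e))))))))))))))))
 (c (a (nat_lit 0x101fb800))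
 (c z e
 (c z e
 (c z e
 (c z e
 (c z e
 (c z e
 (c z e
 (c z e
 (c z e
 (c z e
 (c z e
 (c z e
 (c z e
 (c (b (nat_lit 0xffe140f)) e
 (c z e
 (c z e
 (c (b (nat_lit 0xffdb217)) e e)))))))))))))))))
 (c (a (nat_lit 0x101fba00))
 (c z e
 (c z e
 (c z e
 (c z e
 (c z e
 (c z e
 (c z e
 (c z e
 (c z e
 (c z e
 (c z e
 (c z e
 (c z e
 (c z e
 (c (b (nat_lit 0xffdce17)) e e)))))))))))))))
 (c (a (nat_lit 0x101fba00))
 (c z e
 (c z e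
 (c z e
 (c z e
 (c z e
 (c z e
 (c z e
 (c z e
 (c z e
 (c z e
 (c z e
 (c z e
 (c (b (nat_lit 0xfffbe17)) e e)))))))))))))
 (c (a (nat_lit 0x101fa800)) e
 (c (a (nat_lit 0x101fa800)) e
 (c (a (nat_lit 0x101ffa01)) e
 (c (a (nat_lit 0x101ff401))
 (c z e
 (c z e
 (c (b (nat_lit 0xfff440f)) e e)))
 (c (a (nat_lit 0x101fd601)) e
 (c (a (nat_lit 0x101ff801)) e
 (c z e
 (c z e
 (c z e
 (c z e
 (c (a (nat_lit 0x1010a603)) e
 (c (a (nat_lit 0x100a6605)) e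
 (c (a (nat_lit 0x100db206)) e
 (c (a (nat_lit 0x10015c07)) e
 (c z e
 (c z e
 (c (a (nat_lit 0xffb6c07)) e
 (c (a (nat_lit 0xff6720b)) e
 (c (a (nat_lit 0xff6660d)) e
 (c z e
 (c z e
 (c (a (nat_lit 0xffd8a0f)) e e))))))))))))))))))))))))))))) Tr.c Tr.e (nat_lit 0) C.t6 C.t7
noncomputable def tt264 : Tr := beta% (fun (c : Nat → Tr → Tr → Tr) (e : Tr) (z : Nat) (a b : Nat → Nat) =>
 (c (a (nat_lit 0x101fd200))
 (c (b (nat_lit 0xfc43200)) e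
 (c (b (nat_lit 0xfe14200)) e
 (c (b (nat_lit 0xfe21600)) e
 (c (b (nat_lit 0xfe17001)) e
 (c (b (nat_lit 0xfe1ec01)) e
 (c (b (nat_lit 0xfe1a801)) e
 (c (b (nat_lit 0xfe14401)) e
 (c (b (nat_lit 0xfe13802)) e
 (c (b (nat_lit 0xf5e5603)) e
 (c z e
 (c z e
 (c (b (nat_lit 0xffff203)) e
 (c z e
 (c z e
 (c z e
 (c z e
 (c (b (nat_lit 0xfbf6e07)) e
 (c z e
 (c (b (nat_lit 0xffed80b)) e
 (c z e
 (c (b (nat_lit 0xff30c0e)) e
 (c (b (nat_lit 0xffd340f)) e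
 (c z e
 (c z e
 (c z e
 (c (b (nat_lit 0xffe661b)) e e))))))))))))))))))))))))))
 (c (a (nat_lit 0x101fda00))
 (c (b (nat_lit 0xfe15e00)) e
 (c (b (nat_lit 0xfe20c01)) e
 (c (b (nat_lit 0xfe21401)) e
 (c (b (nat_lit 0xfe20001)) e
 (c (b (nat_lit 0xfe1d001)) e
 (c (b (nat_lit 0xfe16802)) e
 (c z e
 (c z e
 (c (b (nat_lit 0xfdbb403)) e
 (c z e
 (c z e
 (c z e
 (c z e
 (c z e
 (c z e
 (c z e
 (c z e
 (c z e
 (c z e
 (c z e
 (c z e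
 (c z e
 (c z e
 (c (b (nat_lit 0xfff621b)) e e))))))))))))))))))))))))
 (c (a (nat_lit 0x101f8000))
 (c (b (nat_lit 0xfe2b401)) e
 (c (b (nat_lit 0xfe21e01)) e
 (c (b (nat_lit 0xfe24c01)) e
 (c (b (nat_lit 0xfe16a02)) e
 (c z e
 (c z e
 (c z e
 (c z e
 (c z e
 (c z e
 (c z e
 (c z e
 (c (b (nat_lit 0x10744c07)) e
 (c z e
 (c z e
 (c z e
 (c (b (nat_lit 0xffd7e0e)) e
 (c (b (nat_lit 0xfff900f)) e
 (c z e
 (c (b (nat_lit 0xffa300f)) e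
 (c z e
 (c (b (nat_lit 0xffe6e1b)) e e))))))))))))))))))))))
 (c (a (nat_lit 0x101fbe00))
 (c (b (nat_lit 0xfe06601)) e
 (c (b (nat_lit 0xfe1d402)) e
 (c z e
 (c z e
 (c z e
 (c z e
 (c z e
 (c z e
 (c z e
 (c (b (nat_lit 0xfff5207)) e
 (c z e
 (c z e
 (c z e
 (c z e
 (c z e
 (c z e
 (c z e
 (c z e
 (c (b (nat_lit 0xfff160f)) e
 (c (b (nat_lit 0xfff681b)) e e))))))))))))))))))))
 (c (a (nat_lit 0x101fb800))
 (c z e
 (c z e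
 (c z e
 (c z e
 (c z e
 (c z e
 (c z e
 (c z e
 (c z e
 (c (b (nat_lit 0x103b8607)) e
 (c z e
 (c z e
 (c z e
 (c z e
 (c z e
 (c z e
 (c (b (nat_lit 0x100f6e0f)) e e)))))))))))))))))
 (c (a (nat_lit 0x101fc200))
 (c z e
 (c z e
 (c z e
 (c z e
 (c z e
 (c z e
 (c z e
 (c (b (nat_lit 0xffcb607)) e
 (c (b (nat_lit 0xffcf80b)) e
 (c z e
 (c z e
 (c z e
 (c (b (nat_lit 0x1031ec0f)) e
 (c z e
 (c z e
 (c z e
 (c (nat_lit 0x800008000080000800007ffc880000800009161d) e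
 (c z e
 (c (nat_lit 0x8000080000800008000080000800007fddd52e9d) e e)))))))))))))))))))
 (c (a (nat_lit 0x101fe000))
 (c z e
 (c z e
 (c z e
 (c z e
 (c z e
 (c (b (nat_lit 0xffd9e07)) e
 (c z e
 (c z e
 (c z e
 (c z e
 (c (b (nat_lit 0xffe5c0f)) e
 (c z e
 (c (b (nat_lit 0x100b240f)) e e)))))))))))))
 (c (a (nat_lit 0x101fbc00)) e
 (c (a (nat_lit 0x101fcc00)) e
 (c (a (nat_lit 0x101fa800)) e
 (c (a (nat_lit 0x10201201))
 (c z e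
 (c (b (nat_lit 0xfcd7c0f)) e e))
 (c (nat_lit 0x810148101481007810078100781008cc801) e
 (c (a (nat_lit 0x10202001)) e
 (c (a (nat_lit 0x10032801)) e
 (c (a (nat_lit 0xfe61002)) e
 (c (a (nat_lit 0xfd23003)) e
 (c z e
 (c (a (nat_lit 0x10086003)) e
 (c (a (nat_lit 0x101b5e03)) e
 (c (a (nat_lit 0x100a6405)) e
 (c (a (nat_lit 0x10069406)) e
 (c z e
 (c (a (nat_lit 0x1001ca07)) e
 (c z e
 (c z e
 (c (a (nat_lit 0xffe3a0b)) e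
 (c z e
 (c z e
 (c z e
 (c (a (nat_lit 0xfff9a0f)) e e))))))))))))))))))))))))))))))) Tr.c Tr.e (nat_lit 0) C.t6 C.t7
noncomputable def tt265 : Tr := beta% (fun (c : Nat → Tr → Tr → Tr) (e : Tr) (z : Nat) (a b d : Nat → Nat) =>
 (c (a (nat_lit 0xfdffa00)) tt264
 (c (a (nat_lit 0xfdff600)) tt263
 (c (a (nat_lit 0xfe01c00)) tt262
 (c (a (nat_lit 0xfe00800))
 (c (b (nat_lit 0x101f9600))
 (c z e
 (c z e
 (c z e
 (c z e
 (c z e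
 (c z e
 (c z e
 (c z e
 (c (d (nat_lit 0xffeb007)) e e)))))))))
 (c (b (nat_lit 0x101f9600)) e
 (c (b (nat_lit 0x101f7600)) e
 (c (b (nat_lit 0x101fac00)) e
 (c (b (nat_lit 0x101fee01)) e
 (c (b (nat_lit 0x101fec01)) e
 (c (b (nat_lit 0x101fea01)) e
 (c (b (nat_lit 0x10118801)) e
 (c (b (nat_lit 0x10106e02)) e
 (c (b (nat_lit 0x10149003)) e
 (c (b (nat_lit 0x100a8003)) e
 (c z e
 (c z e
 (c z e
 (c z e
 (c z e
 (c z e
 (c z e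
 (c (b (nat_lit 0xff8f207)) e
 (c z e
 (c z e
 (c z e
 (c z e
 (c (b (nat_lit 0xffec00f)) e
 (c (b (nat_lit 0xffc940f)) e
 (c (b (nat_lit 0xffdfe0f)) e
 (c (b (nat_lit 0xfff801c)) e e)))))))))))))))))))))))))))
 (c (a (nat_lit 0xfe00a00))
 (c (b (nat_lit 0x101f9e00)) e
 (c (b (nat_lit 0x101fa000)) e
 (c (b (nat_lit 0x101ffc01)) e
 (c (nat_lit 0x80ff580ff580ff480ff580ff580ff5ec2c1) e
 (c (b (nat_lit 0x101ff801)) e
 (c (b (nat_lit 0x1018f401)) e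
 (c (b (nat_lit 0x100a5202)) e
 (c (b (nat_lit 0x10163603)) e
 (c (b (nat_lit 0x1018c203)) e
 (c z e
 (c z e
 (c z e
 (c z e
 (c z e
 (c (b (nat_lit 0x10060207)) e
 (c (b (nat_lit 0x10016a07)) e
 (c (b (nat_lit 0xff61e07)) e
 (c (b (nat_lit 0xff60e0b)) e
 (c (b (nat_lit 0x1007ca0d)) e
 (c z e
 (c z e
 (c (b (nat_lit 0xfff400f)) e
 (c (b (nat_lit 0xff36a0f)) e
 (c (b (nat_lit 0xffe280f)) e e)))))))))))))))))))))))) tt261)))))) Tr.c Tr.e (nat_lit 0) C.t5 C.t6 C.t7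
noncomputable def tt266 : Tr := beta% (fun (c : Nat → Tr → Tr → Tr) (e : Tr) (z : Nat) (a b d : Nat → Nat) =>
 (c (a (nat_lit 0xfe00c00))
 (c (b (nat_lit 0x1012e801)) e
 (c (b (nat_lit 0x101ff601)) e
 (c (b (nat_lit 0x101fc801)) e
 (c (b (nat_lit 0x10150002)) e
 (c (b (nat_lit 0x10207003)) e
 (c (b (nat_lit 0x1012e203)) e
 (c z e
 (c z e
 (c z e
 (c z e
 (c (nat_lit 0x80000800007fee38000080000800006c9c7) e
 (c (b (nat_lit 0xfe98607)) e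
 (c (b (nat_lit 0xffa5c07)) e
 (c (b (nat_lit 0x1007ea07)) e
 (c (b (nat_lit 0x10050a0d)) e
 (c (b (nat_lit 0x101b3e0e)) e
 (c (b (nat_lit 0xff76a0f)) e
 (c z e
 (c (nat_lit 0x8000080000800007ff987ff9880000cae4f) e
 (c (nat_lit 0x800008000080000800007ff977ff978b3cf) e
 (c z e
 (c (nat_lit 0x7ff627ff6280000800008000080000a0315) e e))))))))))))))))))))))
 (c (a (nat_lit 0xfe00e00))
 (c (b (nat_lit 0x100f9e01)) e
 (c z e
 (c z e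
 (c z e
 (c z e
 (c (b (nat_lit 0x10249603)) e
 (c (b (nat_lit 0xfb69a05)) e
 (c z e
 (c z e
 (c z e
 (c z e
 (c z e
 (c z e
 (c (b (nat_lit 0x1019960e)) e
 (c z e
 (c z e
 (c z e
 (c z e
 (c (b (nat_lit 0x10135213)) e e)))))))))))))))))))
 (c (nat_lit 0x7f0147f0147f0147f0137f0132cae0)
 (c (b (nat_lit 0xfc9f803))
 (c z e
 (c (d (nat_lit 0x10663844)) e e))
 (c z e
 (c (b (nat_lit 0x102c4803)) e
 (c (b (nat_lit 0x101b7803)) e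
 (c z e
 (c (b (nat_lit 0x10182a06)) e
 (c (b (nat_lit 0x10446207)) e
 (c z e
 (c z e
 (c z e
 (c (b (nat_lit 0x1009ea0d)) e
 (c (b (nat_lit 0x1054e20e)) e
 (c z e
 (c z e
 (c z e
 (c z e
 (c z e
 (c z e
 (c z e
 (c (nat_lit 0x80000800008000080000800007ffd23c593) e
 (c (nat_lit 0x80000800008000080000800007ffdfda413) e e)))))))))))))))))))))
 (c (a (nat_lit 0xfe00c00))
 (c (b (nat_lit 0x1023a203)) e
 (c z e
 (c z e
 (c z e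
 (c (nat_lit 0x80e7280e7280bb980e7280e7280e7279bc7) e
 (c (nat_lit 0x8000080000800007fdf5800008000070bc7) e
 (c z e
 (c z e
 (c (b (nat_lit 0xff7ac0d)) e
 (c (b (nat_lit 0x10028e0e)) e
 (c (b (nat_lit 0xfed380f)) e
 (c (b (nat_lit 0xff59a0f)) e
 (c (b (nat_lit 0xffb2c0f)) e
 (c z e
 (c (b (nat_lit 0x10030614)) e
 (c z e
 (c z e
 (c z e
 (c (nat_lit 0x80000800008000080000800007ff5993853) e e)))))))))))))))))))
 (c (a (nat_lit 0xfe01c00))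
 (c (b (nat_lit 0x1015ea05)) e
 (c z e
 (c z e
 (c z e
 (c z e
 (c z e
 (c z e
 (c z e
 (c (b (nat_lit 0xff5680f)) e
 (c (b (nat_lit 0xffcb40f)) e
 (c (b (nat_lit 0xfffa20f)) e
 (c (nat_lit 0x7ffc280000800008000080000800005820f) e
 (c (nat_lit 0x7fe297fe9c800008000080000800009f192) e
 (c (nat_lit 0x805db80552805c8805db805db805db1ab94) e e))))))))))))))
 (c (a (nat_lit 0xfe00000))
 (c (nat_lit 0x80000800007ff4c800008000080000ba847) e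
 (c z e
 (c z e
 (c z e
 (c (b (nat_lit 0x1010100d)) e
 (c (b (nat_lit 0xf2e7a0e)) e
 (c (b (nat_lit 0x1022860f)) e
 (c z e
 (c z e
 (c z e
 (c (b (nat_lit 0xffd0c11)) e e)))))))))))
 (c (a (nat_lit 0xfdffe00))
 (c z e
 (c z e
 (c (b (nat_lit 0x1028be0d)) e
 (c (b (nat_lit 0x1024480e)) e
 (c z e
 (c z e
 (c z e
 (c z e
 (c (b (nat_lit 0x10184c11)) e
 (c (b (nat_lit 0x1013be11)) e e))))))))))
 (c (a (nat_lit 0xfe06200))
 (c z e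
 (c (b (nat_lit 0x1035900e)) e e))
 (c (a (nat_lit 0xfe01a00))
 (c (b (nat_lit 0x103c020f)) e
 (c z e
 (c (b (nat_lit 0x1012500f)) e
 (c z e
 (c z e
 (c (nat_lit 0x800008000080000826fb826fb826fb07b50) e
 (c (nat_lit 0x800008000080000800008089e8089ea70d0) e e)))))))
 (c (a (nat_lit 0xfe01800))
 (c (b (nat_lit 0x1022940f)) e
 (c z e
 (c (b (nat_lit 0x10982410)) e
 (c (nat_lit 0x8000080000811308117a8117a8117afded0) e
 (c z e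
 (c (nat_lit 0x8000080000800008000080f0680f06b1e50) e e))))))
 (c (a (nat_lit 0xfe00e00))
 (c (b (nat_lit 0x11000010)) e
 (c (b (nat_lit 0x1027fa10)) e
 (c (nat_lit 0x8000080000808be808b8808be808be64350) e
 (c (nat_lit 0x80000800008000080f8b80f8680f890fd90) e
 (c (nat_lit 0x80000800008000080000810148100782110) e e)))))
 (c (a (nat_lit 0xfe01400)) e
 (c (a (nat_lit 0xfe01001)) e
 (c (a (nat_lit 0xfe00401)) e
 (c (a (nat_lit 0xfdfdc01)) e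
 (c (nat_lit 0x7f0557f0557f0557f0557f00d2cfa1) e
 (c (a (nat_lit 0xfe59802)) e
 (c (a (nat_lit 0xfe41803)) e
 (c (a (nat_lit 0xfe7c603)) e
 (c (a (nat_lit 0xff99a03)) e
 (c (a (nat_lit 0x1005a803)) e
 (c (a (nat_lit 0xff81805)) e
 (c (a (nat_lit 0xff26c06)) e
 (c (nat_lit 0x7efc57efc57efbf7efc57efc59a647) e
 (c (a (nat_lit 0xff59c07)) e
 (c (a (nat_lit 0xffb8607)) e
 (c (nat_lit 0x7fdc87fdf57fdf57fdf57fdf59c187) e
 (c z e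
 (c (nat_lit 0x7fdc57fe907feba7feba7feba3970e) e
 (c (nat_lit 0x7feef7fdae7fe827feef7feef5360f) e e))))))))))))))))))))))))))))))) Tr.c Tr.e (nat_lit 0) C.t5 C.t6 C.t7
noncomputable def tt267 : Tr := beta% (fun (c : Nat → Tr → Tr → Tr) (e : Tr) (z : Nat) (a b : Nat → Nat) =>
 (c (a (nat_lit 0x101f6200))
 (c z e
 (c z e
 (c z e
 (c z e
 (c z e
 (c (b (nat_lit 0xfdee007)) e
 (c z e
 (c z e
 (c z e
 (c z e
 (c z e
 (c z e
 (c z e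
 (c z e
 (c (b (nat_lit 0xffd5c1c)) e
 (c (nat_lit 0x800008000080000800007ff688000080000a829c) e e))))))))))))))))
 (c (a (nat_lit 0x101f6200))
 (c z e
 (c z e
 (c z e
 (c z e
 (c z e
 (c z e
 (c z e
 (c z e
 (c z e
 (c z e
 (c z e
 (c z e
 (c (nat_lit 0x80000800007feab8000080000800008000096f9c) e
 (c (nat_lit 0x8000080000800007d6c37d6c37d6c37d6c3df730) e
 (c (nat_lit 0x800008000080000800007fee88000080000d7330) e e)))))))))))))))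
 (c (a (nat_lit 0x101f9e00)) e
 (c (a (nat_lit 0x101fbc01))
 (c z e
 (c z e
 (c z e
 (c z e
 (c (nat_lit 0x800007ff4c80000800008000080000800003030f) e
 (c z e
 (c z e
 (c (b (nat_lit 0xff53216)) e e))))))))
 (c (a (nat_lit 0x101fde01))
 (c z e
 (c (b (nat_lit 0xfee120f)) e
 (c z e
 (c z e
 (c z e
 (c (b (nat_lit 0xfffe016)) e e))))))
 (c (a (nat_lit 0x101fa401))
 (c (b (nat_lit 0xfc4d20f)) e
 (c z e
 (c (b (nat_lit 0xfffa80f)) e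
 (c z e
 (c (nat_lit 0x7f7f97f7f97f7f97f7907f7f97f7f97f7f97fd1c) e e)))))
 (c (a (nat_lit 0x100b3801)) e
 (c (a (nat_lit 0x100caa02)) e
 (c (a (nat_lit 0x1007d603)) e
 (c (a (nat_lit 0x10289803)) e
 (c z e
 (c z e
 (c (a (nat_lit 0x1038f205)) e
 (c z e
 (c z e
 (c (a (nat_lit 0xff21607)) e
 (c (a (nat_lit 0xffd2e07)) e
 (c z e
 (c (a (nat_lit 0x1002820d)) e
 (c (a (nat_lit 0x1001980e)) e
 (c (nat_lit 0x8000080000800007ffcd8000080000d1c8f) e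
 (c (nat_lit 0x7ffdb7ffdb7ffdb7ff987ff987ffdb8a70f) e
 (c (a (nat_lit 0xfff2c0f)) e
 (c z e
 (c (nat_lit 0x8051b8051b80444804448051b8051bb4216) e
 (c (a (nat_lit 0x10124c1c)) e e))))))))))))))))))))))))))) Tr.c Tr.e (nat_lit 0) C.t6 C.t7
noncomputable def tt268 : Tr := beta% (fun (c : Nat → Tr → Tr → Tr) (e : Tr) (z : Nat) (a b : Nat → Nat) =>
 (c (a (nat_lit 0x101f4600))
 (c (nat_lit 0x7f32f7f32f7f32f7f32f7f32f7f32f7f220b9e83) e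
 (c (b (nat_lit 0xff13603)) e
 (c z e
 (c z e
 (c z e
 (c z e
 (c (nat_lit 0x7f25a7f25a7f2307f25a7f25a7f25a7f25a3ef07) e
 (c z e
 (c z e
 (c z e
 (c z e
 (c z e
 (c z e
 (c z e
 (c z e
 (c (b (nat_lit 0x1007140f)) e
 (c (b (nat_lit 0x101cf21c)) e e)))))))))))))))))
 (c (a (nat_lit 0x101f5e00))
 (c z e
 (c (b (nat_lit 0xfea6e03)) e
 (c z e
 (c z e
 (c (b (nat_lit 0xfcfa207)) e
 (c (b (nat_lit 0xfca1807)) e
 (c z e
 (c z e
 (c z e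
 (c (b (nat_lit 0xfbe820e)) e
 (c (nat_lit 0x8000080000800007ff7f80000800008000058d8f) e
 (c (b (nat_lit 0x1029b60f)) e
 (c z e
 (c (b (nat_lit 0x1009880f)) e
 (c (b (nat_lit 0x100baa1c)) e e)))))))))))))))
 (c (a (nat_lit 0x101f2600))
 (c z e
 (c z e
 (c z e
 (c z e
 (c z e
 (c z e
 (c z e
 (c z e
 (c z e
 (c z e
 (c z e
 (c z e
 (c (b (nat_lit 0xfffa81c)) e e)))))))))))))
 (c (a (nat_lit 0x101f9600)) e
 (c (a (nat_lit 0x101f7400)) e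
 (c (a (nat_lit 0x101f7401))
 (c z e
 (c (b (nat_lit 0xfbae60e)) e e))
 (c (a (nat_lit 0x101fe801))
 (c (nat_lit 0x7efdc7efdc7efdc7efdc7eea67efdc7efdc4c50f) e
 (c z e
 (c z e
 (c z e
 (c z e
 (c (nat_lit 0x8000080000800007ff68800008000080000edfa4) e e))))))
 (c (a (nat_lit 0x101fa201)) e
 (c (a (nat_lit 0x1014dc01)) e
 (c (a (nat_lit 0x1012e802)) e
 (c (a (nat_lit 0x10114603)) e
 (c z e
 (c z e
 (c z e
 (c (a (nat_lit 0xffdfa05)) e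
 (c z e
 (c (a (nat_lit 0xff4a407)) e
 (c z e
 (c z e
 (c z e
 (c (a (nat_lit 0x1004080d)) e
 (c (a (nat_lit 0x10104e0e)) e
 (c (a (nat_lit 0x100cbe0f)) e
 (c z e
 (c (a (nat_lit 0xfffe80f)) e
 (c z e
 (c (nat_lit 0x80b6380b6380b2980b6380b6380b636999c) e e)))))))))))))))))))))))))))) Tr.c Tr.e (nat_lit 0) C.t6 C.t7
noncomputable def tt269 : Tr := beta% (fun (c : Nat → Tr → Tr → Tr) (e : Tr) (z : Nat) (a b : Nat → Nat) =>
 (c (a (nat_lit 0x101ef400))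
 (c (b (nat_lit 0xfe68e01)) e
 (c (b (nat_lit 0xfe32a01)) e
 (c (b (nat_lit 0xff06602)) e
 (c z e
 (c z e
 (c z e
 (c z e
 (c (b (nat_lit 0xfecae05)) e
 (c z e
 (c z e
 (c z e
 (c (b (nat_lit 0x10244807)) e
 (c z e
 (c z e
 (c z e
 (c z e
 (c z e
 (c z e
 (c (b (nat_lit 0x1017d00f)) e e)))))))))))))))))))
 (c (a (nat_lit 0x101f2c00))
 (c (b (nat_lit 0xfe2ac02)) e
 (c z e
 (c z e
 (c z e
 (c z e
 (c z e
 (c z e
 (c z e
 (c z e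
 (c z e
 (c z e
 (c z e
 (c z e
 (c z e
 (c (b (nat_lit 0xfffa20f)) e
 (c z e
 (c (b (nat_lit 0x10127a0f)) e
 (c (b (nat_lit 0xffbc42c)) e
 (c (b (nat_lit 0xfff7431)) e e)))))))))))))))))))
 (c (a (nat_lit 0x101f4a00))
 (c z e
 (c z e
 (c z e
 (c z e
 (c z e
 (c z e
 (c z e
 (c (b (nat_lit 0xffe8a07)) e
 (c z e
 (c z e
 (c z e
 (c z e
 (c z e
 (c (b (nat_lit 0xfff080f)) e
 (c (b (nat_lit 0x10081e0f)) e
 (c (b (nat_lit 0x10287c26)) e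
 (c (b (nat_lit 0xffd2c2c)) e e)))))))))))))))))
 (c (a (nat_lit 0x101f3e00))
 (c z e
 (c z e
 (c z e
 (c z e
 (c z e
 (c z e
 (c z e
 (c z e
 (c z e
 (c z e
 (c z e
 (c z e
 (c z e
 (c (b (nat_lit 0xffe5825)) e
 (c (b (nat_lit 0xffffe26)) e e)))))))))))))))
 (c (a (nat_lit 0x101f4c00))
 (c z e
 (c z e
 (c z e
 (c z e
 (c z e
 (c z e
 (c z e
 (c z e
 (c z e
 (c z e
 (c z e
 (c (b (nat_lit 0x10212623)) e e))))))))))))
 (c (a (nat_lit 0x101f4c00)) e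
 (c (a (nat_lit 0x101f3800)) e
 (c (a (nat_lit 0x101fac01)) e
 (c (a (nat_lit 0x101f5a01)) e
 (c (a (nat_lit 0x101f2c01)) e
 (c (a (nat_lit 0x100d1a01)) e
 (c z e
 (c (a (nat_lit 0xff7b603)) e
 (c z e
 (c z e
 (c (a (nat_lit 0x100eb803)) e
 (c z e
 (c (a (nat_lit 0x10059406)) e
 (c (a (nat_lit 0x1003dc07)) e
 (c (a (nat_lit 0x10096c07)) e e))))))))))))))))))))) Tr.c Tr.e (nat_lit 0) C.t6 C.t7
noncomputable def tt270 : Tr := beta% (fun (c : Nat → Tr → Tr → Tr) (e : Tr) (z : Nat) (a b : Nat → Nat) =>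
 (c (a (nat_lit 0x101fa600))
 (c (b (nat_lit 0xfe50000)) e
 (c (nat_lit 0x7f15a7f1537f1537f1537f1537f1537f153ccc01) e
 (c (b (nat_lit 0xfe27a01)) e
 (c (b (nat_lit 0xfe20001)) e
 (c (nat_lit 0x7f15d7f15d7f15d7f15d7f1327f1327f133f2a01) e
 (c (b (nat_lit 0xff0be02)) e
 (c z e
 (c z e
 (c z e
 (c (b (nat_lit 0xfffca03)) e
 (c z e
 (c z e
 (c z e
 (c z e
 (c z e
 (c z e
 (c z e
 (c (b (nat_lit 0xfff460e)) e
 (c z e
 (c z e
 (c z e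
 (c (b (nat_lit 0xffec60f)) e e))))))))))))))))))))))
 (c (a (nat_lit 0x101f4800))
 (c (b (nat_lit 0xfe34601)) e
 (c (b (nat_lit 0xfe2a201)) e
 (c (b (nat_lit 0xfe24c01)) e
 (c (b (nat_lit 0xfe23a02)) e
 (c z e
 (c z e
 (c z e
 (c z e
 (c z e
 (c z e
 (c z e
 (c z e
 (c z e
 (c z e
 (c z e
 (c z e
 (c z e
 (c z e
 (c z e
 (c (b (nat_lit 0xfff240f)) e e))))))))))))))))))))
 (c (a (nat_lit 0x101f8600))
 (c (b (nat_lit 0xfe31a01)) e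
 (c (b (nat_lit 0xfa63e02)) e
 (c (b (nat_lit 0xf6a4a03)) e
 (c z e
 (c z e
 (c z e
 (c z e
 (c z e
 (c (b (nat_lit 0xffdb407)) e
 (c z e
 (c z e
 (c z e
 (c z e
 (c z e
 (c z e
 (c z e
 (c z e
 (c z e
 (c (b (nat_lit 0x10115417)) e e)))))))))))))))))))
 (c (a (nat_lit 0x101f9e00))
 (c z e
 (c z e
 (c z e
 (c z e
 (c z e
 (c z e
 (c z e
 (c z e
 (c (b (nat_lit 0xffce407)) e
 (c z e
 (c z e
 (c z e
 (c z e
 (c z e
 (c z e
 (c (b (nat_lit 0xff5cc0f)) e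
 (c z e
 (c (b (nat_lit 0x100c8217)) e e))))))))))))))))))
 (c (a (nat_lit 0x101f8800))
 (c z e
 (c z e
 (c z e
 (c z e
 (c z e
 (c z e
 (c (b (nat_lit 0xffefa07)) e
 (c (b (nat_lit 0x10223a07)) e
 (c z e
 (c z e
 (c z e
 (c z e
 (c z e
 (c z e
 (c (b (nat_lit 0xffe1e17)) e
 (c (b (nat_lit 0xffd8c17)) e e))))))))))))))))
 (c (a (nat_lit 0x101fa000))
 (c z e
 (c z e
 (c z e
 (c z e
 (c z e
 (c z e
 (c (b (nat_lit 0xffdf60d)) e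
 (c z e
 (c z e
 (c z e
 (c z e
 (c (b (nat_lit 0xfff640f)) e
 (c z e
 (c (b (nat_lit 0xffffe17)) e e))))))))))))))
 (c (a (nat_lit 0x101fa200)) e
 (c (a (nat_lit 0x101f5400)) e
 (c (a (nat_lit 0x101f9600)) e
 (c (nat_lit 0x8100b8100581004810028100281002693c1) e
 (c (a (nat_lit 0x101fb801)) e
 (c (a (nat_lit 0x10201401))
 (c (b (nat_lit 0xfff3017)) e e)
 (c (a (nat_lit 0x100f1c01)) e
 (c (a (nat_lit 0xfecfa02)) e
 (c (a (nat_lit 0xff83e03)) e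
 (c z e
 (c (a (nat_lit 0x10117403)) e
 (c (a (nat_lit 0x1010a003)) e
 (c (a (nat_lit 0x1002e405)) e
 (c (a (nat_lit 0x10083e06)) e
 (c z e
 (c z e
 (c z e
 (c (a (nat_lit 0x10059807)) e
 (c z e
 (c z e
 (c (a (nat_lit 0xfff5a0f)) e e)))))))))))))))))))))))))))) Tr.c Tr.e (nat_lit 0) C.t6 C.t7
noncomputable def tt271 : Tr := beta% (fun (c : Nat → Tr → Tr → Tr) (e : Tr) (z : Nat) (a b : Nat → Nat) =>
 (c (a (nat_lit 0x101f9c00))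
 (c (b (nat_lit 0xfce1400)) e
 (c (b (nat_lit 0xfe19a00)) e
 (c (b (nat_lit 0xfe2b800)) e
 (c (b (nat_lit 0xfe1f800)) e
 (c (b (nat_lit 0xfe22601)) e
 (c (b (nat_lit 0xfe24601)) e
 (c (b (nat_lit 0xfe1e201)) e
 (c (b (nat_lit 0xfe23201)) e
 (c (b (nat_lit 0xfe1f602)) e
 (c (b (nat_lit 0xfde8e03)) e
 (c z e
 (c z e
 (c z e
 (c z e
 (c z e
 (c (b (nat_lit 0xffdb007)) e
 (c (b (nat_lit 0xfea7e07)) e
 (c z e
 (c (b (nat_lit 0xff3f807)) e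
 (c (b (nat_lit 0xfff1c0d)) e
 (c (b (nat_lit 0xfff260e)) e
 (c z e
 (c z e
 (c z e
 (c (b (nat_lit 0xffe0e0f)) e
 (c (b (nat_lit 0xffe6c17)) e
 (c (b (nat_lit 0xffe481d)) e e)))))))))))))))))))))))))))
 (c (a (nat_lit 0x101fc600))
 (c (b (nat_lit 0xfe1da00)) e
 (c (b (nat_lit 0xfe21c00)) e
 (c (b (nat_lit 0xfe22801)) e
 (c (b (nat_lit 0xfe1e801)) e
 (c (b (nat_lit 0xfe23c01)) e
 (c (b (nat_lit 0xfe20801)) e
 (c (b (nat_lit 0xfe1fa02)) e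
 (c z e
 (c (b (nat_lit 0xffff203)) e
 (c (b (nat_lit 0xfe12c03)) e
 (c z e
 (c z e
 (c (b (nat_lit 0xff71206)) e
 (c z e
 (c z e
 (c z e
 (c z e
 (c (b (nat_lit 0xfff100d)) e
 (c z e
 (c z e
 (c (b (nat_lit 0x1005ec0f)) e
 (c (b (nat_lit 0x1012bc0f)) e e))))))))))))))))))))))
 (c (a (nat_lit 0x101f2e00))
 (c (b (nat_lit 0xfe35a01)) e
 (c (b (nat_lit 0xfe2a401)) e
 (c (b (nat_lit 0xfe2aa01)) e
 (c (b (nat_lit 0xfe26601)) e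
 (c (b (nat_lit 0xfe21a02)) e
 (c z e
 (c z e
 (c z e
 (c z e
 (c z e
 (c z e
 (c z e
 (c (b (nat_lit 0x10632207)) e
 (c z e
 (c z e
 (c z e
 (c z e
 (c (b (nat_lit 0xffdde0f)) e
 (c (b (nat_lit 0xfff1a0f)) e
 (c (b (nat_lit 0xfff160f)) e
 (c z e
 (c z e
 (c (b (nat_lit 0xffebc1d)) e e)))))))))))))))))))))))
 (c (a (nat_lit 0x101f8000))
 (c (b (nat_lit 0xfe2a401)) e
 (c (b (nat_lit 0xfe28a01)) e
 (c (nat_lit 0x7f1e17f1e17f1e17f1e17f1e17f1cd7f1d00a582) e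
 (c z e
 (c z e
 (c z e
 (c z e
 (c z e
 (c z e
 (c z e
 (c z e
 (c z e
 (c z e
 (c z e
 (c (b (nat_lit 0xfffa00e)) e
 (c z e
 (c z e
 (c z e
 (c z e
 (c (b (nat_lit 0xffe1e17)) e
 (c (b (nat_lit 0xffa3a1d)) e e)))))))))))))))))))))
 (c (a (nat_lit 0x101f9a00))
 (c (b (nat_lit 0xfe21002)) e
 (c z e
 (c z e
 (c z e
 (c z e
 (c z e
 (c z e
 (c z e
 (c (b (nat_lit 0x1011aa07)) e
 (c z e
 (c z e
 (c z e
 (c z e
 (c z e
 (c (b (nat_lit 0xfff300f)) e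
 (c z e
 (c z e
 (c (b (nat_lit 0x10063817)) e e))))))))))))))))))
 (c (a (nat_lit 0x101f8000))
 (c z e
 (c z e
 (c z e
 (c z e
 (c z e
 (c z e
 (c (b (nat_lit 0xfdba207)) e
 (c z e
 (c z e
 (c (b (nat_lit 0x1067e80d)) e
 (c z e
 (c (b (nat_lit 0xfffda0f)) e
 (c (b (nat_lit 0x101f780f)) e
 (c z e
 (c z e
 (c (nat_lit 0x7fedd80000800008000080000800008000045717) e e))))))))))))))))
 (c (a (nat_lit 0x101fb200))
 (c z e
 (c z e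
 (c z e
 (c z e
 (c (b (nat_lit 0xffebc07)) e
 (c z e
 (c z e
 (c z e
 (c z e
 (c z e
 (c z e
 (c z e
 (c (b (nat_lit 0x1014fe0f)) e e)))))))))))))
 (c (a (nat_lit 0x101f9200))
 (c z e
 (c z e
 (c z e
 (c z e
 (c z e
 (c z e
 (c (nat_lit 0x80e4780e4780e4780e4780d0e80e4780e47a5a0e) e e)))))))
 (c (a (nat_lit 0x101f6800)) e
 (c (a (nat_lit 0x101fc400)) e
 (c (a (nat_lit 0x101fb600)) e
 (c (a (nat_lit 0x101faa01))
 (c (nat_lit 0x800007fbed80000800008000080000800003c88f) e e)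
 (c (a (nat_lit 0x10201601)) e
 (c (a (nat_lit 0x101ef801)) e
 (c (a (nat_lit 0xfdec001)) e
 (c (a (nat_lit 0xfa9b002)) e
 (c z e
 (c (a (nat_lit 0x101bce03)) e
 (c (a (nat_lit 0x100fbc03)) e
 (c (a (nat_lit 0x10120a03)) e
 (c (a (nat_lit 0x10047805)) e
 (c (a (nat_lit 0x1007b206)) e
 (c (a (nat_lit 0x10072a07)) e
 (c (a (nat_lit 0x10042e07)) e
 (c z e
 (c (a (nat_lit 0xffe5a07)) e
 (c z e
 (c z e
 (c (nat_lit 0x7fe227fe22800008000080000800000b90f) e e)))))))))))))))))))))))))))))) Tr.c Tr.e (nat_lit 0) C.t6 C.t7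
noncomputable def tt272 : Tr := beta% (fun (c : Nat → Tr → Tr → Tr) (e : Tr) (z : Nat) (a b : Nat → Nat) =>
 (c (a (nat_lit 0x101f5e00))
 (c (b (nat_lit 0xfe11801)) e
 (c (b (nat_lit 0xfe28a01)) e
 (c (b (nat_lit 0xfe3ce01)) e
 (c (b (nat_lit 0xfe1d202)) e
 (c z e
 (c (b (nat_lit 0xfe9a003)) e
 (c z e
 (c z e
 (c z e
 (c z e
 (c z e
 (c z e
 (c z e
 (c (b (nat_lit 0x1050d007)) e
 (c (b (nat_lit 0xffea40d)) e
 (c (b (nat_lit 0xfffc60e)) e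
 (c z e
 (c (b (nat_lit 0xfff5e0f)) e
 (c z e
 (c z e
 (c z e
 (c (nat_lit 0x80000800007ff737ff87800008000080000d201e) e e))))))))))))))))))))))
 (c (a (nat_lit 0x101f6e00))
 (c (b (nat_lit 0xfc2b801)) e
 (c (b (nat_lit 0xf3f8002)) e
 (c z e
 (c z e
 (c (b (nat_lit 0xfffa203)) e
 (c z e
 (c z e
 (c z e
 (c z e
 (c (b (nat_lit 0xff8e607)) e
 (c (b (nat_lit 0x1010c007)) e
 (c (b (nat_lit 0xfe9f007)) e
 (c (b (nat_lit 0xfc3900d)) e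
 (c z e
 (c z e
 (c (b (nat_lit 0x1013a40f)) e
 (c (b (nat_lit 0xfff620f)) e
 (c z e
 (c (nat_lit 0x800007ffbb80000800008000080000800000d39d) e e)))))))))))))))))))
 (c (a (nat_lit 0x101ede00))
 (c z e
 (c z e
 (c z e
 (c z e
 (c z e
 (c z e
 (c (b (nat_lit 0xfdf6607)) e
 (c z e
 (c (b (nat_lit 0x1009f607)) e
 (c z e
 (c z e
 (c z e
 (c (nat_lit 0x80add80add80ac080add80add80add80addd618f) e
 (c (b (nat_lit 0x100a740f)) e
 (c z e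
 (c z e
 (c (nat_lit 0x7fed17ff217ff217ff217ff217ff217ff216d89d) e
 (c (nat_lit 0x800007ff507ffe7800008000080000800004a91e) e
 (c z e
 (c z e
 (c (nat_lit 0x80000800008000080000800007feeb800004b12c) e e)))))))))))))))))))))
 (c (a (nat_lit 0x101f7000))
 (c z e
 (c z e
 (c z e
 (c z e
 (c (b (nat_lit 0xffe9c07)) e
 (c z e
 (c z e
 (c (b (nat_lit 0x102a5407)) e
 (c z e
 (c z e
 (c z e
 (c z e
 (c z e
 (c z e
 (c z e
 (c (b (nat_lit 0xfd9621e)) e e))))))))))))))))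
 (c (a (nat_lit 0x101fa600))
 (c z e
 (c z e
 (c z e
 (c z e
 (c z e
 (c z e
 (c (b (nat_lit 0x1047900d)) e e)))))))
 (c (a (nat_lit 0x101f2600))
 (c z e
 (c (nat_lit 0x800008000080000800007fb93800008000073f86) e
 (c (b (nat_lit 0xfff7807)) e
 (c z e
 (c (nat_lit 0x80000800008000080000800007fba580000d7c07) e
 (c z e
 (c z e
 (c z e
 (c z e
 (c z e
 (c z e
 (c (b (nat_lit 0xf95261e)) e e))))))))))))
 (c (a (nat_lit 0x101fc600))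
 (c (nat_lit 0x7e54b7e54b7e54b7e54b7e4617e54b7e54bca487) e
 (c z e
 (c z e
 (c z e
 (c z e
 (c z e
 (c z e
 (c (b (nat_lit 0x1023080f)) e
 (c (b (nat_lit 0xfffbc1d)) e e)))))))))
 (c (a (nat_lit 0x101fb200))
 (c z e
 (c (b (nat_lit 0xff1b80e)) e
 (c z e
 (c z e
 (c z e
 (c z e
 (c (b (nat_lit 0x101b541d)) e
 (c (b (nat_lit 0xfff301e)) e e))))))))
 (c (a (nat_lit 0x10204400))
 (c z e
 (c (b (nat_lit 0xfe0e20f)) e
 (c z e
 (c z e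
 (c z e
 (c (b (nat_lit 0x10fff61e)) e e))))))
 (c (a (nat_lit 0x10204c01))
 (c (b (nat_lit 0xffffe0f)) e
 (c z e
 (c (b (nat_lit 0x1047121d)) e e)))
 (c (a (nat_lit 0x101e7c01))
 (c z e
 (c (b (nat_lit 0xfdba81e)) e e))
 (c (nat_lit 0x80fe380fe380fe380fdc80fdc80fdc5a981) e
 (c (a (nat_lit 0xfd5bc01)) e
 (c (a (nat_lit 0xfc7f402)) e
 (c (a (nat_lit 0x10257603)) e
 (c (a (nat_lit 0x10208403)) e
 (c (a (nat_lit 0x10257e03)) e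
 (c (a (nat_lit 0x101c8203)) e
 (c (a (nat_lit 0x10177405)) e
 (c (a (nat_lit 0x100ffa06)) e
 (c (a (nat_lit 0x10106e07)) e
 (c z e
 (c (a (nat_lit 0xfeaa007)) e
 (c z e
 (c z e
 (c (nat_lit 0x7ff38800007feef800008000080000c124e) e
 (c (nat_lit 0x808438081380843807da808438084302a8f) e
 (c z e
 (c z e
 (c (a (nat_lit 0xfffd60f)) e e))))))))))))))))))))))))))))))) Tr.c Tr.e (nat_lit 0) C.t6 C.t7
noncomputable def tt273 : Tr := beta% (fun (c : Nat → Tr → Tr → Tr) (e : Tr) (z : Nat) (a b : Nat → Nat) =>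
 (c (a (nat_lit 0x10204600))
 (c (b (nat_lit 0xfde0400)) e
 (c (b (nat_lit 0xfe09400)) e
 (c (b (nat_lit 0xfe0e800)) e
 (c (b (nat_lit 0xfe36800)) e
 (c (b (nat_lit 0xfd95400)) e
 (c (b (nat_lit 0xfdf3600)) e
 (c (b (nat_lit 0xfe26e00)) e
 (c (b (nat_lit 0xfe1a001)) e
 (c (b (nat_lit 0xfcaae01)) e
 (c (b (nat_lit 0xfca9801)) e
 (c (b (nat_lit 0xfd23e01)) e
 (c (b (nat_lit 0xfd81602)) e
 (c z e
 (c z e
 (c (b (nat_lit 0xfe65003)) e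
 (c (b (nat_lit 0xfbd0203)) e
 (c (b (nat_lit 0xfb62805)) e
 (c (b (nat_lit 0xfbf8606)) e
 (c (b (nat_lit 0xfd91a07)) e
 (c (b (nat_lit 0xfdc5c07)) e
 (c (b (nat_lit 0xfdcd807)) e
 (c (b (nat_lit 0xff33407)) e
 (c (b (nat_lit 0xff61e0d)) e
 (c z e
 (c (b (nat_lit 0xfffd60f)) e
 (c (b (nat_lit 0x1016c60f)) e
 (c z e
 (c (b (nat_lit 0xfff720f)) e e))))))))))))))))))))))))))))
 (c (a (nat_lit 0x101f6a00))
 (c (b (nat_lit 0xfe23000)) e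
 (c (b (nat_lit 0xfe19800)) e
 (c (b (nat_lit 0xfe35800)) e
 (c (b (nat_lit 0xfe1ea00)) e
 (c (b (nat_lit 0xfe1a400)) e
 (c (b (nat_lit 0xfe29401)) e
 (c (b (nat_lit 0xfe23201)) e
 (c (b (nat_lit 0xfe26401)) e
 (c (b (nat_lit 0xfbfae01)) e
 (c (b (nat_lit 0xfccf802)) e
 (c (b (nat_lit 0xfdd2603)) e
 (c z e
 (c (b (nat_lit 0xfd2fa03)) e
 (c z e
 (c z e
 (c z e
 (c (b (nat_lit 0xf65a807)) e
 (c (b (nat_lit 0xfecec07)) e
 (c z e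
 (c (b (nat_lit 0xff50607)) e
 (c z e
 (c (b (nat_lit 0xfff440e)) e
 (c (nat_lit 0x800007fdba80000800008000080000800006508f) e
 (c (nat_lit 0x80000800007fdef80000800008000080000b128f) e
 (c z e
 (c z e
 (c (b (nat_lit 0xfff861d)) e e)))))))))))))))))))))))))))
 (c (a (nat_lit 0x101f8e00))
 (c (b (nat_lit 0xfe82000)) e
 (c (b (nat_lit 0xfe12400)) e
 (c (b (nat_lit 0xfe14000)) e
 (c (b (nat_lit 0xfe24601)) e
 (c (b (nat_lit 0xfe2d801)) e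
 (c (b (nat_lit 0xfe27001)) e
 (c (nat_lit 0x7f13b7f13b7f13b7f13b7f1277f1277f12868701) e
 (c (b (nat_lit 0xfda0402)) e
 (c (b (nat_lit 0xff15403)) e
 (c z e
 (c (b (nat_lit 0xfe20803)) e
 (c z e
 (c z e
 (c (b (nat_lit 0xffcc606)) e
 (c z e
 (c (b (nat_lit 0x10302407)) e e))))))))))))))))
 (c (a (nat_lit 0x101e8000))
 (c (b (nat_lit 0xfe47200)) e
 (c (b (nat_lit 0xfe3d001)) e
 (c (b (nat_lit 0xfe32c01)) e
 (c (b (nat_lit 0xfe3de01)) e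
 (c (b (nat_lit 0xfe39e01)) e
 (c (b (nat_lit 0xfd40a02)) e
 (c (b (nat_lit 0xfe1f203)) e
 (c (b (nat_lit 0xff57a03)) e
 (c (b (nat_lit 0xfe96003)) e
 (c z e
 (c z e
 (c (b (nat_lit 0x10255406)) e
 (c z e
 (c (b (nat_lit 0x10227c07)) e
 (c z e
 (c z e
 (c z e
 (c z e
 (c z e
 (c (b (nat_lit 0xff0d20f)) e
 (c (b (nat_lit 0xff7c00f)) e
 (c z e
 (c (b (nat_lit 0xffd5a1d)) e
 (c (nat_lit 0x80000800007ffe480000800008000080000db89e) e e)))))))))))))))))))))))) tt272))))) Tr.c Tr.e (nat_lit 0) C.t6 C.t7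
noncomputable def tt274 : Tr := beta% (fun (c : Nat → Tr → Tr → Tr) (e : Tr) (z : Nat) (a b d f : Nat → Nat) =>
 (c (a (nat_lit 0x101ff000))
 (c (b (nat_lit 0xfe03a00)) tt273
 (c (b (nat_lit 0xfe01400)) tt271
 (c (b (nat_lit 0xfe00e00)) tt270
 (c (b (nat_lit 0xfe04800)) tt269
 (c (b (nat_lit 0xfe02c00)) tt268
 (c (b (nat_lit 0xfe02000)) tt267
 (c (b (nat_lit 0xfe02e00))
 (c (d (nat_lit 0x101f7200))
 (c (f (nat_lit 0xeff7407)) e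
 (c z e
 (c z e
 (c z e
 (c z e
 (c z e
 (c (f (nat_lit 0xfd6c00f)) e
 (c z e
 (c z e
 (c z e
 (c (f (nat_lit 0x108e1c15)) e e)))))))))))
 (c (d (nat_lit 0x101fbe01)) e
 (c (d (nat_lit 0x101fde01)) e
 (c (d (nat_lit 0x101f7c01)) e
 (c (d (nat_lit 0x10132401)) e
 (c z e
 (c (d (nat_lit 0x101b4403)) e
 (c z e
 (c z e
 (c z e
 (c z e
 (c z e
 (c (d (nat_lit 0xff6da07)) e
 (c (d (nat_lit 0xff75007)) e
 (c z e
 (c (d (nat_lit 0xfffb407)) e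
 (c z e
 (c (d (nat_lit 0x1007aa0e)) e
 (c (nat_lit 0x801458014580115801458014580145e888f) e
 (c (nat_lit 0x80000800007ffc27ffc27fff680000707cf) e
 (c (d (nat_lit 0xffeb00f)) e
 (c (d (nat_lit 0xfff120f)) e
 (c (nat_lit 0x7ff6d7ff6d8000080000800008000052555) e e))))))))))))))))))))))) tt266)))))))
 (c (a (nat_lit 0x101ffc00)) tt265
 (c (a (nat_lit 0x101ffe00))
 (c (b (nat_lit 0xfe00000)) tt260
 (c (b (nat_lit 0xfe01800)) tt259 tt258))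
 (c (a (nat_lit 0x101ff200))
 (c (b (nat_lit 0xfe02600)) tt257 tt256) tt255))))) Tr.c Tr.e (nat_lit 0) C.t4 C.t5 C.t6 C.t7
noncomputable def tt275 : Tr := beta% (fun (c : Nat → Tr → Tr → Tr) (e : Tr) (z : Nat) (a b d : Nat → Nat) =>
 (c (a (nat_lit 0x10200000))
 (c (b (nat_lit 0xfdffe01)) e
 (c (b (nat_lit 0xfe00801)) e
 (c (nat_lit 0x7f00b7f00b7f00b7f0097f00a49a81) e
 (c (b (nat_lit 0xff3d601)) e
 (c z e
 (c (b (nat_lit 0xfdd4003)) e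
 (c z e
 (c z e
 (c z e
 (c z e
 (c z e
 (c z e
 (c (b (nat_lit 0xffce607)) e
 (c (b (nat_lit 0x10095607)) e
 (c (b (nat_lit 0xffadc07)) e
 (c (b (nat_lit 0xffbaa07)) e
 (c (b (nat_lit 0xfe25209)) e
 (c (b (nat_lit 0xff34209)) e
 (c (b (nat_lit 0xff26409)) e
 (c (nat_lit 0x7f0357ef0c7f0357f0357f0354dfaa) e
 (c (nat_lit 0x7ef257ef257eedb7ef257ef255efec) e
 (c (b (nat_lit 0xfc10a0c)) e e))))))))))))))))))))))
 (c (a (nat_lit 0x101ffe00))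
 (c (b (nat_lit 0xfdfd801))
 (c (nat_lit 0x800007ffd1800008000080000800003f649) e e)
 (c z e
 (c z e
 (c z e
 (c z e
 (c z e
 (c z e
 (c z e
 (c z e
 (c (b (nat_lit 0xffb9e06)) e
 (c (b (nat_lit 0xff1b807)) e
 (c (b (nat_lit 0xff99e07)) e
 (c (b (nat_lit 0xff92607)) e
 (c (b (nat_lit 0xff4c807)) e
 (c (nat_lit 0x7f8717f8647f8677f8717f871c57a9) e
 (c (b (nat_lit 0xff05609)) e
 (c (b (nat_lit 0xfebf609)) e
 (c (b (nat_lit 0xffff409)) e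
 (c z e
 (c (nat_lit 0x800be80077800be800be800be1b9cc) e e))))))))))))))))))))
 (c (nat_lit 0x80ffc80ffd80ffd80ffd2c440)
 (c (b (nat_lit 0xfd5ac02))
 (c z e
 (c (d (nat_lit 0x101ac822)) e e))
 (c (b (nat_lit 0xfd59603)) e
 (c z e
 (c z e
 (c z e
 (c z e
 (c z e
 (c (nat_lit 0x7edd57ed8d7edd57edd57edd5a7b46) e
 (c (nat_lit 0x7ee717ee717ee6f7ee717ee71c5be7) e
 (c (b (nat_lit 0xffd6407)) e
 (c (b (nat_lit 0xffd3407)) e
 (c z e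
 (c (nat_lit 0x7fa637fa617fa677fa677fa67ac988) e
 (c (b (nat_lit 0xff08009)) e
 (c (nat_lit 0x7f84d7f84d7f82b7f83c7f83c696a9) e
 (c (b (nat_lit 0xff67c09)) e
 (c z e
 (c (nat_lit 0x7ffc07ffea8000080000800009c9ea) e e))))))))))))))))))
 (c (a (nat_lit 0x101ffc00))
 (c (b (nat_lit 0xfecce03)) e
 (c z e
 (c z e
 (c z e
 (c z e
 (c z e
 (c (nat_lit 0x7e5bc7e5bc7e5827e5bc7e5bcd5127) e
 (c z e
 (c z e
 (c (b (nat_lit 0xffde007)) e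
 (c (b (nat_lit 0xff84a08)) e
 (c (nat_lit 0x7f8c17f8bb7f8b17f8c17f8c114ce8) e
 (c (nat_lit 0x7f8947f8947f8947f88e7f894d4c29) e
 (c (nat_lit 0x7fc1e7fc1e7fc1e7fc117fc1aeaae9) e
 (c (b (nat_lit 0xff97609)) e
 (c z e
 (c (nat_lit 0x7ffab7ff947ff947ffab7ffabdaf8a) e e)))))))))))))))))
 (c (nat_lit 0x8100181000810008100009700)
 (c z e
 (c z e
 (c z e
 (c z e
 (c z e
 (c z e
 (c z e
 (c z e
 (c (b (nat_lit 0xff88e08)) e
 (c (b (nat_lit 0xfe40408)) e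
 (c (b (nat_lit 0xfe34008)) e
 (c (nat_lit 0x7fcdf7fcdf7fcd77fcda7fcd7bcfe9) e
 (c (nat_lit 0x7fc4a7fc4a7fc317fc487fc4ac61a9) e
 (c (b (nat_lit 0xff42a09)) e
 (c (b (nat_lit 0xff98609)) e e)))))))))))))))
 (c (a (nat_lit 0x101fec00))
 (c z e
 (c z e
 (c z e
 (c z e
 (c z e
 (c z e
 (c (b (nat_lit 0xffcfa08)) e
 (c (nat_lit 0x7eeae7eedd7eedd7eedd7eeddcda68) e
 (c (nat_lit 0x7eff67efea7eff67eff67eff6dfca8) e
 (c (nat_lit 0x7fd167fcf67fd107fd167fd1681468) e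
 (c (nat_lit 0x80000800007fd1f7fd367fd3611448) e
 (c (nat_lit 0x8000080000800007fcff7fd0ba0b08) e e))))))))))))
 (c (a (nat_lit 0x10200200))
 (c (b (nat_lit 0xfecde07)) e
 (c (b (nat_lit 0x1050ae07)) e
 (c z e
 (c z e
 (c (nat_lit 0x7dbbe7dbbe7db507dbbe7dbbe358c8) e
 (c (b (nat_lit 0xfa3de08)) e
 (c (b (nat_lit 0xfda0008)) e
 (c (b (nat_lit 0xfdd4e08)) e
 (c (nat_lit 0x7f2ed7f2ed7f2e87f2ed7f2ed90568) e
 (c (nat_lit 0x80000800007f2c77f2c07f2c7a4168) e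
 (c (nat_lit 0x8000080000800007f2967f29640668) e e)))))))))))
 (c (a (nat_lit 0x10200000))
 (c z e
 (c z e
 (c (nat_lit 0x7b45e7b4547b45e7b45e7b45e87828) e
 (c (b (nat_lit 0xfc8c608)) e
 (c (b (nat_lit 0xfeeec08)) e
 (c (b (nat_lit 0xfdfc208)) e
 (c (nat_lit 0x7efc47efc47efc47efc37efc4dc548) e
 (c (nat_lit 0x7efc37efc07efc37efc17efbf824c8) e
 (c (nat_lit 0x80000800007efc67efc97efc9e20a8) e
 (c (nat_lit 0x8000080000800007efd77efd7571e8) e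
 (c (nat_lit 0x800008000080000800007fd863d368) e e)))))))))))
 (c (a (nat_lit 0x10200200))
 (c (nat_lit 0x736c8736c8735c5736c8736c844688) e
 (c (b (nat_lit 0xfb3ec08)) e
 (c (b (nat_lit 0xfdf8408)) e
 (c (nat_lit 0x7f0ee7f10a7f10a7f10a7f10abaa88) e
 (c (nat_lit 0x7ef907efa77efc37efc37efc349f68) e
 (c (nat_lit 0x7ef737ef6f7ef8c7ef8c7ef8c48b48) e
 (c (nat_lit 0x7ef727ef627ef637ef727ef7240228) e
 (c (nat_lit 0x80000800007ef677ef717ef714ce48) e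
 (c (nat_lit 0x8000080000800007ef897ef8ad4588) e
 (c (nat_lit 0x800008000080000800007fd3a8d868) e e))))))))))
 (c (nat_lit 0x80ffd80ffe80ffe80ffddb860) e
 (c (a (nat_lit 0x101ffe00)) e
 (c (a (nat_lit 0x10200000)) e
 (c (a (nat_lit 0x101ff800)) e
 (c (nat_lit 0x81000810008100081001dad70) e
 (c (nat_lit 0x80ffe80ffe80fff80fff821a0) e
 (c (a (nat_lit 0x10200001)) e
 (c (a (nat_lit 0x101ffe01)) e
 (c (nat_lit 0x8026a80269802698026a67c11) e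
 (c (a (nat_lit 0xffb2e01)) e
 (c (nat_lit 0x80f9b80f9b80f9b80f9c8cbd2) e
 (c (a (nat_lit 0x101f5803)) e
 (c (nat_lit 0x80e4780e4880e4880e48ce0c3) e
 (c (a (nat_lit 0x1005c203)) e
 (c (a (nat_lit 0x100a1003)) e
 (c (nat_lit 0x7fce67fce67fce67fce5a2995) e
 (c (a (nat_lit 0xffb0805)) e
 (c (nat_lit 0x805e58036f8036f805e689c06) e
 (c (nat_lit 0x806d9806d9806da806dad7507) e
 (c (nat_lit 0x80125801248012580124eaa07) e
 (c (a (nat_lit 0xffeb607)) e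
 (c (nat_lit 0x80a6980a6a80a6a80a6ac18d7) e e)))))))))))))))))))))))))))))))) Tr.c Tr.e (nat_lit 0) C.t4 C.t5 C.t6
noncomputable def tt276 : Tr := beta% (fun (c : Nat → Tr → Tr → Tr) (e : Tr) (z : Nat) (a b : Nat → Nat) =>
 (c (a (nat_lit 0xfe00000))
 (c (b (nat_lit 0x10202201)) e
 (c z e
 (c z e
 (c z e
 (c z e
 (c z e
 (c z e
 (c z e
 (c z e
 (c z e
 (c (b (nat_lit 0x105a5807)) e
 (c z e
 (c z e
 (c z e
 (c (b (nat_lit 0x10213e0b)) e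
 (c z e
 (c z e
 (c (b (nat_lit 0xffce20d)) e e))))))))))))))))))
 (c (a (nat_lit 0xfe00600))
 (c z e
 (c z e
 (c z e
 (c z e
 (c z e
 (c z e
 (c z e
 (c z e
 (c z e
 (c z e
 (c z e
 (c z e
 (c z e
 (c (b (nat_lit 0x1023dc0b)) e
 (c z e
 (c z e
 (c (b (nat_lit 0xffeea0d)) e e)))))))))))))))))
 (c (a (nat_lit 0xfe00400))
 (c z e
 (c z e
 (c z e
 (c z e
 (c z e
 (c z e
 (c (b (nat_lit 0xfdb2407)) e e)))))))
 (c (a (nat_lit 0xfe00a00))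
 (c z e
 (c z e
 (c z e
 (c z e
 (c z e
 (c z e
 (c z e
 (c z e
 (c z e
 (c z e
 (c z e
 (c z e
 (c (b (nat_lit 0xffff80d)) e e)))))))))))))
 (c (a (nat_lit 0xfdffe00))
 (c z e
 (c z e
 (c z e
 (c z e
 (c z e
 (c z e
 (c z e
 (c z e
 (c z e
 (c z e
 (c z e
 (c (b (nat_lit 0xffebe0e)) e e))))))))))))
 (c (a (nat_lit 0xfe00800)) e
 (c (a (nat_lit 0xfe00a00))
 (c z e
 (c z e
 (c z e
 (c z e
 (c z e
 (c z e
 (c z e
 (c (b (nat_lit 0xfff4c0e)) e e))))))))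
 (c (a (nat_lit 0xfe00800))
 (c (b (nat_lit 0x104b0e0b)) e e)
 (c (a (nat_lit 0xfe00001)) e
 (c (a (nat_lit 0xfe01a01)) e
 (c (a (nat_lit 0xfe00601)) e
 (c z e
 (c z e
 (c (a (nat_lit 0x10090e03)) e
 (c (a (nat_lit 0xff58e03)) e
 (c (a (nat_lit 0xffd0403)) e
 (c (a (nat_lit 0xff86403)) e
 (c (a (nat_lit 0xffc4005)) e
 (c (a (nat_lit 0xff54405)) e
 (c (a (nat_lit 0xffe3606)) e
 (c (a (nat_lit 0xff32c07)) e
 (c z e
 (c z e
 (c z e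
 (c z e
 (c z e
 (c z e
 (c z e
 (c (a (nat_lit 0xff6800d)) e
 (c (nat_lit 0x7ff337ff33800008000080000c360d) e
 (c (a (nat_lit 0xff9fc0e)) e e)))))))))))))))))))))))))))))))) Tr.c Tr.e (nat_lit 0) C.t5 C.t6
noncomputable def tt277 : Tr := beta% (fun (c : Nat → Tr → Tr → Tr) (e : Tr) (z : Nat) (a b : Nat → Nat) =>
 (c (a (nat_lit 0xfe01000))
 (c (b (nat_lit 0x10200601)) e
 (c (b (nat_lit 0x101fe801)) e
 (c (b (nat_lit 0x101fe601)) e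
 (c z e
 (c z e
 (c z e
 (c z e
 (c (b (nat_lit 0x100e8203)) e
 (c (b (nat_lit 0x1018f403)) e
 (c z e
 (c z e
 (c z e
 (c z e
 (c z e
 (c z e
 (c (b (nat_lit 0xfee1c07)) e
 (c z e
 (c z e
 (c z e
 (c (b (nat_lit 0xffdfc0d)) e e))))))))))))))))))))
 (c (a (nat_lit 0xfe00a00))
 (c (b (nat_lit 0x10200001)) e
 (c (b (nat_lit 0x101ff001)) e
 (c z e
 (c z e
 (c z e
 (c z e
 (c z e
 (c z e
 (c z e
 (c z e
 (c z e
 (c z e
 (c z e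
 (c z e
 (c z e
 (c (b (nat_lit 0x10045e0b)) e e))))))))))))))))
 (c (a (nat_lit 0xfe00a00))
 (c z e
 (c z e
 (c z e
 (c z e
 (c z e
 (c z e
 (c z e
 (c z e
 (c z e
 (c z e
 (c z e
 (c z e
 (c (b (nat_lit 0x102a620b)) e
 (c z e
 (c z e
 (c (b (nat_lit 0xffe900d)) e e))))))))))))))))
 (c (nat_lit 0x7f0027f0027f0027f0027f0038bd20)
 (c z e
 (c z e
 (c z e
 (c z e
 (c z e
 (c z e
 (c z e
 (c z e
 (c z e
 (c z e
 (c z e
 (c (b (nat_lit 0x1014de0b)) e e))))))))))))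
 (c (a (nat_lit 0xfe00a00))
 (c z e
 (c z e
 (c z e
 (c z e
 (c z e
 (c z e
 (c z e
 (c z e
 (c z e
 (c z e
 (c (b (nat_lit 0xfff980b)) e e)))))))))))
 (c (a (nat_lit 0xfe00400))
 (c z e
 (c z e
 (c z e
 (c z e
 (c z e
 (c z e
 (c z e
 (c z e
 (c z e
 (c z e
 (c z e
 (c (b (nat_lit 0xfffdc0e)) e e))))))))))))
 (c (a (nat_lit 0xfe00600)) e
 (c (a (nat_lit 0xfe01200)) e
 (c (a (nat_lit 0xfe01200)) e
 (c (nat_lit 0x7f00a7f0097f00a7f00a7f00a74a00) e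
 (c (a (nat_lit 0xfe01001)) e
 (c (nat_lit 0x7f0047f0047f0037f0037f004348e1) e
 (c (nat_lit 0x7f0037f0037f0037f0027f002acf61) e
 (c z e
 (c (a (nat_lit 0xff9bc02)) e
 (c (a (nat_lit 0xffec003)) e
 (c (a (nat_lit 0xffee003)) e
 (c z e
 (c z e
 (c (a (nat_lit 0xff2f205)) e
 (c (a (nat_lit 0xfe91005)) e
 (c (a (nat_lit 0xfe34e06)) e
 (c (a (nat_lit 0xff60a07)) e
 (c (a (nat_lit 0xffa6407)) e
 (c z e
 (c z e
 (c z e
 (c z e
 (c (a (nat_lit 0xfffa40b)) e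
 (c z e
 (c z e
 (c (a (nat_lit 0xffe600e)) e e))))))))))))))))))))))))))))))))) Tr.c Tr.e (nat_lit 0) C.t5 C.t6
noncomputable def tt278 : Tr := beta% (fun (c : Nat → Tr → Tr → Tr) (e : Tr) (z : Nat) (a b : Nat → Nat) =>
 (c (a (nat_lit 0xfe00a00))
 (c (b (nat_lit 0x101f8a00)) e
 (c (b (nat_lit 0x101ff001)) e
 (c (nat_lit 0x80ff780ff780ff680ff780ff680ff717081) e
 (c (b (nat_lit 0x101fea01)) e
 (c (b (nat_lit 0x101fe601)) e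
 (c z e
 (c z e
 (c z e
 (c z e
 (c z e
 (c z e
 (c z e
 (c z e
 (c z e
 (c z e
 (c z e
 (c (b (nat_lit 0xffabe07)) e
 (c z e
 (c z e
 (c z e
 (c z e
 (c (b (nat_lit 0x100c3e0e)) e
 (c (b (nat_lit 0x100b1016)) e
 (c (b (nat_lit 0xfffe419)) e e))))))))))))))))))))))))
 (c (a (nat_lit 0xfe00a00))
 (c (b (nat_lit 0x101ff801)) e
 (c (nat_lit 0x80ffa80ffa80ffa80ff980ff980ffa41681) e
 (c (b (nat_lit 0x101ff201)) e
 (c z e
 (c z e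
 (c (b (nat_lit 0x100ed003)) e
 (c (b (nat_lit 0x10162403)) e
 (c z e
 (c z e
 (c z e
 (c z e
 (c z e
 (c z e
 (c z e
 (c z e
 (c z e
 (c z e
 (c z e
 (c z e
 (c z e
 (c (b (nat_lit 0xffea815)) e e)))))))))))))))))))))
 (c (a (nat_lit 0xfe00a00))
 (c z e
 (c z e
 (c z e
 (c z e
 (c z e
 (c z e
 (c z e
 (c z e
 (c z e
 (c z e
 (c z e
 (c z e
 (c z e
 (c z e
 (c z e
 (c z e
 (c (b (nat_lit 0xff3c00d)) e
 (c z e
 (c z e
 (c (b (nat_lit 0xffdce15)) e e))))))))))))))))))))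
 (c (a (nat_lit 0xfe00a00))
 (c z e
 (c z e
 (c z e
 (c z e
 (c z e
 (c z e
 (c z e
 (c z e
 (c z e
 (c z e
 (c z e
 (c z e
 (c z e
 (c z e
 (c (b (nat_lit 0xfeefa0d)) e e)))))))))))))))
 (c (a (nat_lit 0xfe00a00))
 (c z e
 (c z e
 (c z e
 (c z e
 (c z e
 (c z e
 (c z e
 (c z e
 (c z e
 (c z e
 (c z e
 (c z e
 (c z e
 (c z e
 (c (b (nat_lit 0xfff2813)) e e)))))))))))))))
 (c (a (nat_lit 0xfe00400)) e
 (c (a (nat_lit 0xfe01600))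
 (c z e
 (c z e
 (c z e
 (c z e
 (c z e
 (c z e
 (c z e
 (c z e
 (c z e
 (c z e
 (c z e
 (c (b (nat_lit 0xff23014)) e
 (c z e
 (c (nat_lit 0x80000800008000080000800007feb081c8f) e e))))))))))))))
 (c (nat_lit 0x7f00b7f00a7f00a7f00a7f00bc2d60)
 (c z e
 (c z e
 (c z e
 (c z e
 (c z e
 (c z e
 (c z e
 (c z e
 (c (b (nat_lit 0xfff1a12)) e e)))))))))
 (c (a (nat_lit 0xfe01600)) e
 (c (a (nat_lit 0xfe00a00))
 (c z e
 (c z e
 (c z e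
 (c z e
 (c (b (nat_lit 0x102b1811)) e e)))))
 (c (a (nat_lit 0xfe02200)) e
 (c (nat_lit 0x7f00a7f0057f0057f0067f007230c1) e
 (c (a (nat_lit 0xfe00001)) e
 (c (nat_lit 0x7efc77efee7efee7efee7efee0fde1) e
 (c (a (nat_lit 0xff49401)) e
 (c (a (nat_lit 0xff71e02)) e
 (c (a (nat_lit 0xff0c403)) e
 (c (a (nat_lit 0xffbda03)) e
 (c (a (nat_lit 0xffe5c03)) e
 (c (a (nat_lit 0xff8fc03)) e
 (c (a (nat_lit 0xff2c205)) e
 (c (a (nat_lit 0xff68405)) e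
 (c (a (nat_lit 0xff8a006)) e
 (c (a (nat_lit 0x10080007)) e
 (c (a (nat_lit 0xff14a07)) e
 (c (a (nat_lit 0xff7fc07)) e
 (c z e
 (c z e
 (c z e
 (c (a (nat_lit 0xfe5320d)) e
 (c (a (nat_lit 0xfe63c0d)) e
 (c (a (nat_lit 0xfe4e20e)) e
 (c z e
 (c z e
 (c z e
 (c (nat_lit 0x80000800007ffd67ffd67ffd620fcf) e e))))))))))))))))))))))))))))))))))))) Tr.c Tr.e (nat_lit 0) C.t5 C.t6
noncomputable def tt279 : Tr := beta% (fun (c : Nat → Tr → Tr → Tr) (e : Tr) (z : Nat) (a b d f : Nat → Nat) =>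
 (c (a (nat_lit 0x101ffa00))
 (c (b (nat_lit 0xfe01400))
 (c (d (nat_lit 0x101f6e00))
 (c z e
 (c z e
 (c z e
 (c z e
 (c z e
 (c z e
 (c z e
 (c (f (nat_lit 0xffc2407)) e
 (c z e
 (c z e
 (c z e
 (c z e
 (c z e
 (c z e
 (c z e
 (c (f (nat_lit 0xffd2019)) e
 (c (f (nat_lit 0xffdbc1a)) e e)))))))))))))))))
 (c (d (nat_lit 0x101f9000)) e
 (c (d (nat_lit 0x101f9e00)) e
 (c (d (nat_lit 0x101fe401)) e
 (c (d (nat_lit 0x101fea01)) e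
 (c (d (nat_lit 0x101fe001)) e
 (c (d (nat_lit 0x101fe401)) e
 (c z e
 (c (d (nat_lit 0x10086603)) e
 (c z e
 (c (d (nat_lit 0x10104203)) e
 (c z e
 (c z e
 (c z e
 (c z e
 (c (d (nat_lit 0xff40e07)) e
 (c z e
 (c (d (nat_lit 0xfec5a07)) e
 (c (d (nat_lit 0xff29c07)) e
 (c z e
 (c (d (nat_lit 0x1008880b)) e
 (c z e
 (c z e
 (c z e
 (c (d (nat_lit 0xff90619)) e e))))))))))))))))))))))))) tt278)
 (c (a (nat_lit 0x101ffc00)) tt277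
 (c (a (nat_lit 0x101ffc00)) tt276
 (c (a (nat_lit 0x101ffe00))
 (c (b (nat_lit 0xfdffe00))
 (c (nat_lit 0x8256b8256b824ec8256b8256b8256b9ab83) e
 (c z e
 (c (d (nat_lit 0xff97803)) e
 (c z e
 (c z e
 (c z e
 (c (nat_lit 0x80000800007ff9d80000800008000072187) e
 (c z e
 (c z e
 (c z e
 (c z e
 (c (nat_lit 0x800007ffec7ffec8000080000800000048b) e
 (c (nat_lit 0x80000800007ffae7ffae8000080000474cb) e
 (c z e
 (c (d (nat_lit 0x1011760b)) e e)))))))))))))))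
 (c (b (nat_lit 0xfe00400)) e
 (c (b (nat_lit 0xfe00200)) e
 (c (b (nat_lit 0xfe00200)) e
 (c (b (nat_lit 0xfe00400)) e
 (c (nat_lit 0x7f00d7f00c7f00c7f00c7f00cfe4c0) e
 (c (b (nat_lit 0xfe00e01))
 (c (nat_lit 0x8101b81042810a3810a3810a3810a30f20b) e e)
 (c (b (nat_lit 0xfe00001)) e
 (c (b (nat_lit 0xfe02201)) e
 (c z e
 (c z e
 (c (b (nat_lit 0xfcc3c03)) e
 (c (nat_lit 0x8000080000800007ff9f8000013922) e
 (c z e
 (c z e
 (c (b (nat_lit 0xff65005)) e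
 (c (b (nat_lit 0xffaca05)) e
 (c (b (nat_lit 0xffc8806)) e
 (c (b (nat_lit 0xfcec807)) e
 (c (b (nat_lit 0xfef5207)) e
 (c z e
 (c z e
 (c (b (nat_lit 0xff3b60a)) e
 (c (b (nat_lit 0xfe53e0b)) e
 (c (nat_lit 0x7fb0c7fb0c7fa517fa517fb0caa1cb) e e)))))))))))))))))))))))))
 (c (a (nat_lit 0x10200000))
 (c (b (nat_lit 0xfed0a00)) e
 (c (nat_lit 0x7f0007f0007f0017f0017f0016dd40)
 (c z e
 (c z e
 (c z e
 (c z e
 (c z e
 (c z e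
 (c z e
 (c z e
 (c z e
 (c z e
 (c (d (nat_lit 0xfffca0b)) e
 (c (d (nat_lit 0x10324213)) e e))))))))))))
 (c (b (nat_lit 0xfe00200)) e
 (c (b (nat_lit 0xfe00600)) e
 (c (b (nat_lit 0xfe00401))
 (c (nat_lit 0x7f9f77f9c87f9f77f9f77f9f77f9f7a7c0a) e e)
 (c (nat_lit 0x7f0067f0067f0057f0057f005914c1) e
 (c (b (nat_lit 0xfdffc01)) e
 (c z e
 (c z e
 (c (b (nat_lit 0xfff2603)) e
 (c z e
 (c z e
 (c z e
 (c (b (nat_lit 0xffce605)) e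
 (c z e
 (c (b (nat_lit 0x100bca06)) e
 (c (b (nat_lit 0xffbec07)) e
 (c (b (nat_lit 0xff91207)) e
 (c (b (nat_lit 0xffcf407)) e
 (c (b (nat_lit 0xffea607)) e
 (c (b (nat_lit 0xfe1be09)) e
 (c (nat_lit 0x7eab27ea9a7eab27eab27eab2f5c8a) e
 (c (nat_lit 0x7eaa87eaa87ea8d7eaa87eaa86630b) e
 (c (nat_lit 0x7ec057ec057ec057ebf57ec051668b) e
 (c (nat_lit 0x800008000080000800007fffbcf04b) e e)))))))))))))))))))))))))
 (c (nat_lit 0x8100080fff80fff80fffe3a00)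
 (c (b (nat_lit 0xff07a00))
 (c z e
 (c z e
 (c z e
 (c z e
 (c z e
 (c z e
 (c z e
 (c (nat_lit 0x828b18289682857828b1828b1828b163c4b) e e))))))))
 (c (b (nat_lit 0xfdffc00)) e
 (c (b (nat_lit 0xfe00001)) e
 (c (b (nat_lit 0xfe01201)) e
 (c (b (nat_lit 0xfe00401)) e
 (c z e
 (c z e
 (c (b (nat_lit 0xfbfbc03)) e
 (c z e
 (c z e
 (c (b (nat_lit 0xff4b603)) e
 (c z e
 (c z e
 (c (b (nat_lit 0xfebec06)) e
 (c (b (nat_lit 0xfeafc07)) e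
 (c z e
 (c (b (nat_lit 0x1004f807)) e
 (c z e
 (c z e
 (c (b (nat_lit 0xff1fa09)) e
 (c (nat_lit 0x7ef5e7eed37ef5e7ef5e7ef5ed39ca) e
 (c (b (nat_lit 0xfdd2c0b)) e
 (c (nat_lit 0x7f7d27f7c97f7c97f7c97f7d2fed2b) e
 (c z e
 (c z e
 (c (nat_lit 0x800008000080000800007ff7f8528b) e e)))))))))))))))))))))))))) tt275))))))) Tr.c Tr.e (nat_lit 0) C.t4 C.t5 C.t6 C.t7
noncomputable def tt280 : Tr := beta% (fun (c : Nat → Tr → Tr → Tr) (e : Tr) (z : Nat) (a b : Nat → Nat) =>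
 (c (a (nat_lit 0xfe00800))
 (c (b (nat_lit 0x101ffc01)) e
 (c (b (nat_lit 0x101ffe01)) e
 (c (b (nat_lit 0x101ff201)) e
 (c (b (nat_lit 0x101fea01)) e
 (c z e
 (c z e
 (c z e
 (c z e
 (c (b (nat_lit 0x101b9003)) e
 (c z e
 (c z e
 (c z e
 (c z e
 (c (b (nat_lit 0x10036607)) e
 (c (b (nat_lit 0xffee807)) e
 (c z e
 (c (b (nat_lit 0x101a8e0b)) e
 (c (b (nat_lit 0x1005bc0d)) e
 (c (b (nat_lit 0xfff280d)) e
 (c (b (nat_lit 0xffeec0e)) e e))))))))))))))))))))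
 (c (a (nat_lit 0xfdffc00))
 (c (b (nat_lit 0x10201201)) e
 (c (b (nat_lit 0x101ffe01)) e
 (c z e
 (c z e
 (c z e
 (c z e
 (c (b (nat_lit 0x100c8003)) e
 (c (b (nat_lit 0x1012b005)) e
 (c z e
 (c z e
 (c z e
 (c z e
 (c z e
 (c z e
 (c (b (nat_lit 0x1012600b)) e
 (c (b (nat_lit 0x10110a0d)) e e))))))))))))))))
 (c (a (nat_lit 0xfe00600))
 (c z e
 (c z e
 (c z e
 (c z e
 (c z e
 (c z e
 (c z e
 (c z e
 (c z e
 (c z e
 (c z e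
 (c z e
 (c (b (nat_lit 0x1018420b)) e
 (c (b (nat_lit 0x1037820d)) e
 (c (b (nat_lit 0x1028820d)) e e)))))))))))))))
 (c (nat_lit 0x7f0037f0037f0047f0047f004f84a0)
 (c z e
 (c z e
 (c z e
 (c z e
 (c z e
 (c z e
 (c z e
 (c (nat_lit 0x8000080000800007fc7c80000800005ba87) e
 (c z e
 (c z e
 (c z e
 (c z e
 (c z e
 (c z e
 (c z e
 (c (b (nat_lit 0xfff7a13)) e e))))))))))))))))
 (c (a (nat_lit 0xfe00400))
 (c z e
 (c z e
 (c z e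
 (c (b (nat_lit 0xffe6e06)) e
 (c z e
 (c z e
 (c z e
 (c z e
 (c z e
 (c z e
 (c z e
 (c (b (nat_lit 0xfff480e)) e
 (c (nat_lit 0x80a5180a5180a1680a5180a5180a51285d4) e e)))))))))))))
 (c (a (nat_lit 0xfe00600))
 (c z e
 (c z e
 (c z e
 (c z e
 (c z e
 (c z e
 (c z e
 (c z e
 (c z e
 (c z e
 (c z e
 (c z e
 (c (b (nat_lit 0xfffa614)) e e)))))))))))))
 (c (a (nat_lit 0xfe01a00))
 (c z e
 (c (nat_lit 0x7fabb7fabb7fa877fabb7fabb7fabb75f47) e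
 (c z e
 (c z e
 (c z e
 (c z e
 (c z e
 (c z e
 (c z e
 (c (b (nat_lit 0xff93e12)) e e))))))))))
 (c (a (nat_lit 0xfe01400))
 (c (nat_lit 0x8000080000800007ffa57ffda80000220c7) e
 (c z e
 (c z e
 (c z e
 (c z e
 (c z e
 (c z e
 (c (b (nat_lit 0xfed2e11)) e
 (c (b (nat_lit 0xff21612)) e e)))))))))
 (c (a (nat_lit 0xfdff400))
 (c z e
 (c z e
 (c z e
 (c z e
 (c z e
 (c z e
 (c (b (nat_lit 0xff7e011)) e e)))))))
 (c (a (nat_lit 0xfe02e00))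
 (c z e
 (c z e
 (c z e
 (c (b (nat_lit 0x1021e420)) e e))))
 (c (a (nat_lit 0xfe00400)) e
 (c (a (nat_lit 0xfdffc01)) e
 (c (a (nat_lit 0xfe00401))
 (c z e
 (c (nat_lit 0x80000800008000080000809bf809bfe46d0) e e))
 (c (a (nat_lit 0xfdff801)) e
 (c (a (nat_lit 0xff5cc01)) e
 (c (nat_lit 0x7f2107f1a07f2107f2107f21019122) e
 (c (a (nat_lit 0xfe99603)) e
 (c (a (nat_lit 0xff8aa03)) e
 (c z e
 (c (a (nat_lit 0xff94803)) e
 (c (a (nat_lit 0xffc6e05)) e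
 (c z e
 (c (a (nat_lit 0xff14606)) e
 (c (a (nat_lit 0xfe17407)) e
 (c (a (nat_lit 0xfebc807)) e
 (c (a (nat_lit 0xff51a07)) e
 (c z e
 (c z e
 (c z e
 (c z e
 (c (nat_lit 0x7fd547fce97fd547fd547fd54b232e) e
 (c (nat_lit 0x80000800007ff457ffb8800004efcf) e e))))))))))))))))))))))))))))))))) Tr.c Tr.e (nat_lit 0) C.t5 C.t6
noncomputable def tt281 : Tr := beta% (fun (c : Nat → Tr → Tr → Tr) (e : Tr) (z : Nat) (a b : Nat → Nat) =>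
 (c (a (nat_lit 0x101f7200))
 (c z e
 (c z e
 (c z e
 (c z e
 (c z e
 (c z e
 (c z e
 (c z e
 (c (b (nat_lit 0xffdda07)) e
 (c z e
 (c (b (nat_lit 0xffed207)) e
 (c z e
 (c z e
 (c z e
 (c (b (nat_lit 0xffc0e0e)) e
 (c z e
 (c (b (nat_lit 0x1010041a)) e e)))))))))))))))))
 (c (a (nat_lit 0x101f9000))
 (c z e
 (c z e
 (c z e
 (c z e
 (c z e
 (c z e
 (c z e
 (c (b (nat_lit 0x1057d007)) e
 (c z e
 (c (b (nat_lit 0xffd320b)) e e))))))))))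
 (c (a (nat_lit 0x101f9e00)) e
 (c (a (nat_lit 0x101fa400)) e
 (c (a (nat_lit 0x101fd401)) e
 (c (a (nat_lit 0x101fea01)) e
 (c (a (nat_lit 0x101ff201)) e
 (c (a (nat_lit 0x101fc001)) e
 (c (a (nat_lit 0x100dbe02))
 (c z e
 (c (b (nat_lit 0xffe7642)) e e))
 (c (a (nat_lit 0x101efe03)) e
 (c (a (nat_lit 0x10192803)) e
 (c (a (nat_lit 0x1015b203)) e
 (c z e
 (c z e
 (c z e
 (c (a (nat_lit 0xff8b606)) e
 (c (a (nat_lit 0xffe0407)) e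
 (c (a (nat_lit 0x1007c007)) e
 (c z e
 (c z e
 (c z e
 (c z e
 (c (nat_lit 0x800007ff947ff948000080000800000948d) e e)))))))))))))))))))))))) Tr.c Tr.e (nat_lit 0) C.t6 C.t7
noncomputable def tt282 : Tr := beta% (fun (c : Nat → Tr → Tr → Tr) (e : Tr) (z : Nat) (a b : Nat → Nat) =>
 (c (a (nat_lit 0x101f9600))
 (c (b (nat_lit 0xffb7401)) e
 (c (b (nat_lit 0xfcd7e01)) e
 (c (b (nat_lit 0xf9d2c02)) e
 (c z e
 (c (b (nat_lit 0xfb95e03)) e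
 (c z e
 (c z e
 (c z e
 (c z e
 (c (b (nat_lit 0xff93e06)) e
 (c z e
 (c z e
 (c z e
 (c z e
 (c z e
 (c (b (nat_lit 0x108be20d)) e
 (c z e
 (c (b (nat_lit 0xfffa80e)) e
 (c (b (nat_lit 0xfff0c1a)) e
 (c z e
 (c (b (nat_lit 0xfff861c)) e e)))))))))))))))))))))
 (c (a (nat_lit 0x101f9000))
 (c (b (nat_lit 0xfe24202)) e
 (c z e
 (c z e
 (c z e
 (c z e
 (c z e
 (c z e
 (c (b (nat_lit 0xffd2406)) e
 (c (b (nat_lit 0xfdbb407)) e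
 (c z e
 (c z e
 (c z e
 (c z e
 (c (nat_lit 0x800008000080000800007e5608000080000c158b) e
 (c z e
 (c (b (nat_lit 0x100c680e)) e e))))))))))))))))
 (c (a (nat_lit 0x101f9000))
 (c z e
 (c z e
 (c z e
 (c z e
 (c z e
 (c z e
 (c z e
 (c z e
 (c z e
 (c z e
 (c z e
 (c z e
 (c z e
 (c z e
 (c (b (nat_lit 0x100dca1a)) e e)))))))))))))))
 (c (a (nat_lit 0x101f9c00)) e
 (c (a (nat_lit 0x101fc600))
 (c z e
 (c z e
 (c z e
 (c z e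
 (c z e
 (c (b (nat_lit 0xffea007)) e e))))))
 (c (a (nat_lit 0x101fa600)) e
 (c (a (nat_lit 0x101fea01)) e
 (c (a (nat_lit 0x101ff801)) e
 (c (a (nat_lit 0x101fe401)) e
 (c (a (nat_lit 0x10061a01))
 (c (b (nat_lit 0xf87c21a)) e e)
 (c (a (nat_lit 0x10063a02)) e
 (c (a (nat_lit 0x100f3603)) e
 (c z e
 (c z e
 (c z e
 (c z e
 (c (a (nat_lit 0x1003f005)) e
 (c z e
 (c (a (nat_lit 0x10139607)) e
 (c (a (nat_lit 0x100a2e07)) e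
 (c (a (nat_lit 0xff3ce07)) e
 (c (a (nat_lit 0xff9b607)) e
 (c (a (nat_lit 0x1003200b)) e
 (c z e
 (c z e
 (c z e
 (c (a (nat_lit 0x1013c81a)) e
 (c (nat_lit 0x803ad803ad803ad803aa80364803ade34dc) e e))))))))))))))))))))))))))))) Tr.c Tr.e (nat_lit 0) C.t6 C.t7
noncomputable def tt283 : Tr := beta% (fun (c : Nat → Tr → Tr → Tr) (e : Tr) (z : Nat) (a b d : Nat → Nat) =>
 (c (a (nat_lit 0xfdffe00))
 (c (b (nat_lit 0x10200e01)) e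
 (c (b (nat_lit 0x10201801)) e
 (c z
 (c z e
 (c z e
 (c z e
 (c z e
 (c z e
 (c (d (nat_lit 0xffffc0f)) e e))))))
 (c z e
 (c z e
 (c (b (nat_lit 0x10139c03)) e
 (c (b (nat_lit 0x101d8003)) e
 (c z e
 (c z e
 (c z e
 (c z e
 (c z e
 (c (b (nat_lit 0xff2ce07)) e
 (c (b (nat_lit 0xffe7c07)) e
 (c z e
 (c z e
 (c z e
 (c z e
 (c (b (nat_lit 0x1019fc0f)) e
 (c z e
 (c (b (nat_lit 0xffdb40f)) e
 (c (b (nat_lit 0xffe300f)) e e))))))))))))))))))))))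
 (c (a (nat_lit 0xfdfe000))
 (c (b (nat_lit 0x10133601)) e
 (c z e
 (c z e
 (c (b (nat_lit 0x100a7003)) e
 (c (b (nat_lit 0x101c9c03)) e
 (c (b (nat_lit 0x101a5803)) e
 (c z e
 (c z e
 (c z e
 (c z e
 (c z e
 (c z e
 (c z e
 (c z e
 (c z e
 (c (nat_lit 0x7f6557f6457f6557f6547f6557f655a980e) e
 (c (nat_lit 0x80000800007fff3800008000080000cf48f) e e)))))))))))))))))
 (c (a (nat_lit 0xfdff400))
 (c z
 (c (nat_lit 0x7c7f87c7f87c7f87c7ac7c7f87c7f87c7f8e450f) e e)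
 (c z e
 (c (b (nat_lit 0x101ef003)) e
 (c z e
 (c z e
 (c (b (nat_lit 0x100d6005)) e
 (c z e
 (c (b (nat_lit 0x104ede07)) e
 (c z e
 (c z e
 (c (b (nat_lit 0x101f0407)) e
 (c (b (nat_lit 0xfffae0d)) e
 (c z e
 (c (nat_lit 0x7ffdd800007ffec7fff68000080000a650e) e
 (c (nat_lit 0x801308011580130801308013080130b228f) e
 (c z e
 (c z e
 (c (nat_lit 0x800008000080000800007fe2d7fe792d34f) e
 (c (nat_lit 0x80000800008000080000800007ffa58904f) e e)))))))))))))))))))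
 (c (a (nat_lit 0xfdfea00))
 (c z e
 (c z e
 (c z e
 (c z e
 (c z e
 (c z e
 (c z e
 (c z e
 (c z e
 (c z e
 (c z e
 (c z e
 (c z e
 (c z e
 (c z e
 (c (b (nat_lit 0xfffea0f)) e e))))))))))))))))
 (c (a (nat_lit 0xfdff400))
 (c z e
 (c z e
 (c z e
 (c z e
 (c z e
 (c z e
 (c z e
 (c (b (nat_lit 0xffeca0d)) e
 (c z e
 (c (b (nat_lit 0xff9a60e)) e
 (c (b (nat_lit 0xfff980f)) e e)))))))))))
 (c (a (nat_lit 0xfe00800))
 (c (b (nat_lit 0xffbb606)) e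
 (c z e
 (c z e
 (c z e
 (c z e
 (c z e
 (c z e
 (c z e
 (c (b (nat_lit 0x10191e0f)) e
 (c (b (nat_lit 0xff14c0f)) e
 (c z e
 (c (b (nat_lit 0x1005060f)) e e))))))))))))
 (c (a (nat_lit 0xfdffc00))
 (c (nat_lit 0x8000080000800007fed18000080000aee07) e e)
 (c (a (nat_lit 0xfdfe600))
 (c z e
 (c z e
 (c z e
 (c z e
 (c z e
 (c z e
 (c z e
 (c (b (nat_lit 0x10114e0f)) e e))))))))
 (c (a (nat_lit 0xfe02a00))
 (c z e
 (c z e
 (c z e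
 (c (b (nat_lit 0x102e180f)) e
 (c z e
 (c (b (nat_lit 0x1007c80f)) e e))))))
 (c (a (nat_lit 0xfdfe800))
 (c (nat_lit 0x80000800007fe848000080000800007234f) e e)
 (c (a (nat_lit 0xfdffa00))
 (c z e
 (c (b (nat_lit 0x10b7aa0f)) e e))
 (c (a (nat_lit 0xfdff801))
 (c (nat_lit 0x800008000088000880008800088000bfad0) e
 (c (nat_lit 0x800008000080000823388233882338ab310) e
 (c (nat_lit 0x8000080000800008000080de680ddf31650) e e)))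
 (c (a (nat_lit 0xfe00401)) e
 (c (a (nat_lit 0xfdff201)) e
 (c (a (nat_lit 0xff2e001)) e
 (c (a (nat_lit 0xfe94202)) e
 (c (a (nat_lit 0xfe8a003)) e
 (c (a (nat_lit 0xfeca603)) e
 (c (a (nat_lit 0xff1dc03)) e
 (c (a (nat_lit 0xff2a603)) e
 (c z e
 (c z e
 (c (nat_lit 0x7f1307f12d7f13e7f13e7f13e16186) e
 (c (nat_lit 0x7f12f7f12f7f12d7f12f7f12f984a7) e
 (c (nat_lit 0x7f5537f5537f5537f4117f55336ec7) e
 (c z e
 (c z e
 (c z e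
 (c z e
 (c (nat_lit 0x7fa7c7face7fad27fad27fad268aee) e
 (c (nat_lit 0x7fae57fa7a7facd7fae57fae5e7a6f) e
 (c z e
 (c z e
 (c (a (nat_lit 0xff4b80f)) e e))))))))))))))))))))))))))))))))))) Tr.c Tr.e (nat_lit 0) C.t5 C.t6 C.t7
noncomputable def tt284 : Tr := beta% (fun (c : Nat → Tr → Tr → Tr) (e : Tr) (z : Nat) (a b : Nat → Nat) =>
 (c (a (nat_lit 0x101f8600))
 (c (b (nat_lit 0xfd83602)) e
 (c z e
 (c (nat_lit 0x7e83e7e83e7e83e7e81d7e83e7e83e7e83e59903) e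
 (c z e
 (c z e
 (c z e
 (c z e
 (c (b (nat_lit 0xffe6606)) e
 (c z e
 (c z e
 (c z e
 (c z e
 (c z e
 (c z e
 (c z e
 (c z e
 (c (b (nat_lit 0x100e080f)) e
 (c (b (nat_lit 0xffdd40f)) e e))))))))))))))))))
 (c (a (nat_lit 0x101faa00))
 (c z e
 (c z e
 (c z e
 (c z e
 (c z e
 (c z e
 (c z e
 (c z e
 (c z e
 (c z e
 (c z e
 (c z e
 (c z e
 (c z e
 (c z e
 (c z e
 (c (b (nat_lit 0xfffa80f)) e e)))))))))))))))))
 (c (a (nat_lit 0x101fb600)) e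
 (c (a (nat_lit 0x101fa400)) e
 (c (a (nat_lit 0x101fc600))
 (c z e
 (c z e
 (c z e
 (c z e
 (c (b (nat_lit 0xfff8e0d)) e e)))))
 (c (a (nat_lit 0x101ff801)) e
 (c (a (nat_lit 0x10200401)) e
 (c (a (nat_lit 0x101fc201)) e
 (c (a (nat_lit 0x1014fe01)) e
 (c (a (nat_lit 0x100eac02)) e
 (c z e
 (c z e
 (c z e
 (c z e
 (c z e
 (c (a (nat_lit 0x10063a05)) e
 (c z e
 (c (a (nat_lit 0x10009a07)) e
 (c z e
 (c z e
 (c (a (nat_lit 0x1004de07)) e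
 (c z e
 (c z e
 (c z e
 (c (a (nat_lit 0xff9f40f)) e e)))))))))))))))))))))))))) Tr.c Tr.e (nat_lit 0) C.t6 C.t7
noncomputable def tt285 : Tr := beta% (fun (c : Nat → Tr → Tr → Tr) (e : Tr) (z : Nat) (a b : Nat → Nat) =>
 (c (a (nat_lit 0x101fec00))
 (c (nat_lit 0x7f0d97ed2c7f0d97f0d97f0d97f0d97f0d932c81) e
 (c (nat_lit 0x7f1307f1307f1307f1307f12e7f12e7f1300a481) e
 (c (b (nat_lit 0xfc01a01)) e
 (c (nat_lit 0x7e7997e78d7e7997e7997e7997e7997e799a8482) e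
 (c z e
 (c z e
 (c z e
 (c (b (nat_lit 0xfa5d203)) e
 (c (b (nat_lit 0xffbaa05)) e
 (c (b (nat_lit 0xfffb805)) e
 (c (b (nat_lit 0xffd2c06)) e
 (c z e
 (c z e
 (c z e
 (c z e
 (c z e
 (c z e
 (c z e
 (c (b (nat_lit 0xff10c0f)) e
 (c (nat_lit 0x80000800007ffcb80000800008000080000a228f) e
 (c z e
 (c (nat_lit 0x800008000080000800007ffec800008000071e0f) e e))))))))))))))))))))))
 (c (a (nat_lit 0x101f9e00))
 (c (b (nat_lit 0xfe29e01)) e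
 (c (b (nat_lit 0xfe0e002)) e
 (c z e
 (c z e
 (c z e
 (c z e
 (c z e
 (c z e
 (c z e
 (c z e
 (c z e
 (c z e
 (c z e
 (c z e
 (c z e
 (c z e
 (c (b (nat_lit 0xff7aa0f)) e
 (c (b (nat_lit 0xfda2c0f)) e
 (c (b (nat_lit 0xfffce0f)) e e)))))))))))))))))))
 (c (a (nat_lit 0x101faa00))
 (c z e
 (c z e
 (c z e
 (c z e
 (c z e
 (c z e
 (c z e
 (c z e
 (c z e
 (c z e
 (c (b (nat_lit 0x106a0807)) e
 (c z e
 (c z e
 (c z e
 (c (b (nat_lit 0xfffdc0f)) e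
 (c (b (nat_lit 0xff2360f)) e
 (c (b (nat_lit 0xffef20f)) e e)))))))))))))))))
 (c (a (nat_lit 0x101fbc00))
 (c z e
 (c z e
 (c z e
 (c z e
 (c z e
 (c z e
 (c (b (nat_lit 0xfff0807)) e
 (c (b (nat_lit 0xfffce07)) e e))))))))
 (c (a (nat_lit 0x101fe200))
 (c z e
 (c z e
 (c z e
 (c z e
 (c z e
 (c (b (nat_lit 0xfff0607)) e
 (c z e
 (c z e
 (c z e
 (c z e
 (c z e
 (c z e
 (c z e
 (c (b (nat_lit 0xff9740f)) e e))))))))))))))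
 (c (a (nat_lit 0x101fe800)) e
 (c (a (nat_lit 0x101fb800)) e
 (c (a (nat_lit 0x10201401)) e
 (c (a (nat_lit 0x10200a01)) e
 (c (a (nat_lit 0x101d2c01)) e
 (c (nat_lit 0x8100681006810068100681004810055cf01) e
 (c (a (nat_lit 0x10167202)) e
 (c (a (nat_lit 0xff10803)) e
 (c z e
 (c z e
 (c z e
 (c (a (nat_lit 0x1018da05)) e
 (c z e
 (c (a (nat_lit 0x100b4a06)) e
 (c (a (nat_lit 0x1008fa07)) e
 (c (a (nat_lit 0xff36407)) e
 (c (a (nat_lit 0xff90407)) e e))))))))))))))))))))))) Tr.c Tr.e (nat_lit 0) C.t6 C.t7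
noncomputable def tt286 : Tr := beta% (fun (c : Nat → Tr → Tr → Tr) (e : Tr) (z : Nat) (a b : Nat → Nat) =>
 (c (a (nat_lit 0x1020f800))
 (c (b (nat_lit 0xfc98800)) e
 (c z e
 (c (b (nat_lit 0xfcc4401)) e
 (c (b (nat_lit 0xffe7001)) e
 (c z e
 (c (b (nat_lit 0xfe9e201)) e
 (c (b (nat_lit 0xf7b1802)) e
 (c (b (nat_lit 0xfdde203)) e
 (c (b (nat_lit 0xfd51403)) e
 (c z e
 (c z e
 (c z e
 (c z e
 (c z e
 (c z e
 (c (b (nat_lit 0xf731207)) e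
 (c (b (nat_lit 0xf809207)) e
 (c z e
 (c z e
 (c z e
 (c z e
 (c (b (nat_lit 0xffe180f)) e e))))))))))))))))))))))
 (c (a (nat_lit 0x10202600))
 (c (b (nat_lit 0xfe15e01)) e
 (c (b (nat_lit 0xfe20801)) e
 (c (b (nat_lit 0xfe1c001)) e
 (c (nat_lit 0x7eee47f07c7f07c7f07c7f07c7f07c7f07cdfd01) e
 (c (b (nat_lit 0xfe08402)) e
 (c z e
 (c (b (nat_lit 0xfe7d803)) e
 (c z e
 (c z e
 (c z e
 (c z e
 (c z e
 (c (b (nat_lit 0x10329007)) e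
 (c z e
 (c z e
 (c z e
 (c z e
 (c z e
 (c z e
 (c z e
 (c (nat_lit 0x8000080000800007ffde8000080000800009188f) e
 (c (nat_lit 0x8000080000800007ffa87fe73800008000054f8f) e
 (c (b (nat_lit 0xfff780f)) e e)))))))))))))))))))))))
 (c (a (nat_lit 0x101fc000))
 (c (b (nat_lit 0xfe27a01)) e
 (c (b (nat_lit 0xfe1b601)) e
 (c (b (nat_lit 0xfe12802)) e
 (c z e
 (c z e
 (c z e
 (c z e
 (c (b (nat_lit 0xfdf7405)) e
 (c z e
 (c z e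
 (c z e
 (c (b (nat_lit 0x101e1207)) e
 (c (b (nat_lit 0x1084b607)) e
 (c (b (nat_lit 0x1093f407)) e
 (c z e
 (c z e
 (c z e
 (c z e
 (c (nat_lit 0x7fa0880000800008000080000800008000004d8f) e
 (c (b (nat_lit 0xffc4e0f)) e
 (c z e
 (c z e
 (c z e
 (c (nat_lit 0x80000800008000080000800007fcc780000a989d) e e))))))))))))))))))))))))
 (c (a (nat_lit 0x10201400))
 (c (b (nat_lit 0xfe1ac02)) e
 (c z e
 (c z e
 (c z e
 (c z e
 (c z e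
 (c z e
 (c z e
 (c (b (nat_lit 0xfffaa07)) e
 (c z e
 (c z e
 (c z e
 (c z e
 (c z e
 (c z e
 (c z e
 (c z e
 (c (nat_lit 0x800007ff287fdc5800008000080000800004d80f) e e))))))))))))))))))
 (c (a (nat_lit 0x10200000))
 (c z e
 (c z e
 (c z e
 (c z e
 (c z e
 (c z e
 (c z e
 (c (b (nat_lit 0xfff6207)) e
 (c z e
 (c z e
 (c z e
 (c z e
 (c z e
 (c (b (nat_lit 0x1010de0f)) e
 (c z e
 (c (nat_lit 0x80000800007fe1380000800008000080000c078f) e e))))))))))))))))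
 (c (a (nat_lit 0x101ff800))
 (c z e
 (c z e
 (c z e
 (c z e
 (c z e
 (c z e
 (c z e
 (c z e
 (c z e
 (c z e
 (c z e
 (c z e
 (c (b (nat_lit 0x1012be0f)) e
 (c z e
 (c (nat_lit 0x7fece7feb17fece7fece7fece7fece7fece2238f) e e)))))))))))))))
 (c (a (nat_lit 0x1020c000))
 (c z e
 (c z e
 (c z e
 (c z e
 (c z e
 (c (b (nat_lit 0xffe7407)) e e))))))
 (c (a (nat_lit 0x10202e00))
 (c (nat_lit 0x80000800007fdff80000800008000080000bee87) e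
 (c z e
 (c z e
 (c z e
 (c z e
 (c (b (nat_lit 0xfffea0d)) e e))))))
 (c (a (nat_lit 0x10201e00)) e
 (c (a (nat_lit 0x10207201)) e
 (c (a (nat_lit 0x10200601)) e
 (c (a (nat_lit 0x101df801))
 (c (nat_lit 0x7ee2f7ee2f7ee2f7ee2f7ee2f7ee2f7ee039800f) e e)
 (c z e
 (c z e
 (c z e
 (c (a (nat_lit 0xfeb2803)) e
 (c z e
 (c (a (nat_lit 0x10141603)) e
 (c (a (nat_lit 0x100dd805)) e
 (c z e
 (c (a (nat_lit 0x100a3806)) e
 (c (a (nat_lit 0x10077807)) e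
 (c z e
 (c z e
 (c z e
 (c z e
 (c z e
 (c (nat_lit 0x806ea806f7806be806f7806f7806f7f928e) e
 (c (nat_lit 0x8071a8070f8071a8070e8071a8071a9034f) e
 (c (nat_lit 0x80000800007ffd5800007ffdd8000047f4f) e e))))))))))))))))))))))))))))))) Tr.c Tr.e (nat_lit 0) C.t6 C.t7
noncomputable def tt287 : Tr := beta% (fun (c : Nat → Tr → Tr → Tr) (e : Tr) (z : Nat) (a b d : Nat → Nat) =>
 (c (a (nat_lit 0xfdfc400)) tt286
 (c (a (nat_lit 0xfdff200)) tt285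
 (c (a (nat_lit 0xfe00c00)) tt284
 (c (a (nat_lit 0xfdffe00))
 (c (b (nat_lit 0x101f9000))
 (c z e
 (c z e
 (c z e
 (c z e
 (c z e
 (c z e
 (c z e
 (c z e
 (c (d (nat_lit 0xffe9007)) e e)))))))))
 (c (b (nat_lit 0x101fae00)) e
 (c (b (nat_lit 0x101faa00)) e
 (c (b (nat_lit 0x10201a01)) e
 (c (b (nat_lit 0x10200801)) e
 (c (b (nat_lit 0x10201c01)) e
 (c (b (nat_lit 0x1005f601)) e
 (c (b (nat_lit 0x100df802))
 (c z e
 (c (d (nat_lit 0xfffe00f)) e e))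
 (c (b (nat_lit 0x1016dc03)) e
 (c (b (nat_lit 0x10215a03)) e
 (c z e
 (c z e
 (c z e
 (c (b (nat_lit 0xfddea05)) e
 (c (b (nat_lit 0xfdfac06)) e
 (c (b (nat_lit 0xfe42007)) e
 (c (b (nat_lit 0xff95207)) e
 (c (b (nat_lit 0xffc2a07)) e
 (c z e
 (c z e
 (c (b (nat_lit 0x1017b60d)) e
 (c z e
 (c (nat_lit 0x800007fde47fde48000080000800002240f) e e)))))))))))))))))))))))
 (c (a (nat_lit 0xfdffe00))
 (c (b (nat_lit 0x101fc400)) e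
 (c (b (nat_lit 0x101ffc01)) e
 (c (b (nat_lit 0x10201c01))
 (c z e
 (c z e
 (c z e
 (c z e
 (c z e
 (c z e
 (c (nat_lit 0x800007ffd78000080000800008000080000c708f) e e)))))))
 (c (b (nat_lit 0x10200a01)) e
 (c (b (nat_lit 0x10202401)) e
 (c z e
 (c (b (nat_lit 0x1017cc03)) e
 (c (b (nat_lit 0x1005da03)) e
 (c z e
 (c z e
 (c z e
 (c z e
 (c z e
 (c z e
 (c z e
 (c (b (nat_lit 0xff56a07)) e
 (c z e
 (c z e
 (c z e
 (c (nat_lit 0x800007ff997ff99800008000080000917ce) e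
 (c z e
 (c (b (nat_lit 0xfffea0f)) e e)))))))))))))))))))))) tt283)))))) Tr.c Tr.e (nat_lit 0) C.t5 C.t6 C.t7
noncomputable def tt288 : Tr := beta% (fun (c : Nat → Tr → Tr → Tr) (e : Tr) (z : Nat) (a b d : Nat → Nat) =>
 (c (a (nat_lit 0x10200000)) tt287
 (c (a (nat_lit 0x101ffe00))
 (c (b (nat_lit 0xfe00200)) tt282
 (c (b (nat_lit 0xfe00c00)) tt281
 (c (b (nat_lit 0xfe00e00))
 (c (d (nat_lit 0x101f8000)) e
 (c (d (nat_lit 0x101f9600)) e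
 (c (d (nat_lit 0x101ff401)) e
 (c (nat_lit 0x80ff780ff780ff780ff780ff680ff7b2b41) e
 (c (d (nat_lit 0x101fe001)) e
 (c (d (nat_lit 0x101fee01)) e
 (c z e
 (c (d (nat_lit 0x100a8e03)) e
 (c (d (nat_lit 0x100ae203)) e
 (c (d (nat_lit 0x10152003)) e
 (c z e
 (c z e
 (c z e
 (c z e
 (c z e
 (c z e
 (c z e
 (c z e
 (c z e
 (c z e
 (c z e
 (c z e
 (c z e
 (c (d (nat_lit 0xffe6416)) e e)))))))))))))))))))))))) tt280))) tt279))) Tr.c Tr.e (nat_lit 0) C.t4 C.t5 C.t6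
noncomputable def tt289 : Tr := beta% (fun (c : Nat → Tr → Tr → Tr) (e : Tr) (z : Nat) (a b d : Nat → Nat) =>
 (c (a (nat_lit 0xfe00000))
 (c (b (nat_lit 0x10200200))
 (c (d (nat_lit 0xfe93804)) e
 (c (nat_lit 0x7f4ab7f4ab7f4ab7f4ab7f4916ca85) e
 (c (d (nat_lit 0xfeb7a05)) e
 (c (nat_lit 0x7f0687f0687f2157f2157f215173e5) e
 (c (d (nat_lit 0xfb48405)) e
 (c (nat_lit 0x7d3fa7d3ee7d3fa7d3fa7d3fa7ad26) e e))))))
 (c (nat_lit 0x8100080fff80fff80ffef7c41)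
 (c (d (nat_lit 0xfed3e05)) e
 (c (nat_lit 0x7ef377ee6a7eb607eb607ef3798565) e
 (c (nat_lit 0x7ce7f7ce7f7ce7f7ce557ce5520a45) e
 (c (d (nat_lit 0xfe4e606)) e
 (c (nat_lit 0x80000800007f50c7f50c7f50c75190) e e)))))
 (c (nat_lit 0x810038100380fff81000e5991) e
 (c (nat_lit 0x80a3d80a3d80a3e80a3efba31) e
 (c (b (nat_lit 0xff5bc01)) e
 (c (nat_lit 0x8028980284802898028689072) e
 (c (nat_lit 0x80fa580fa680fa680fa5b0a53) e
 (c (nat_lit 0x8057d8057e8057e8057d65173) e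
 (c (nat_lit 0x802b8802b9802b9802b9f1623) e
 (c (nat_lit 0x80741807428074280742b3593) e
 (c (nat_lit 0x8040d804098040c8040cc3db4) e
 (c (nat_lit 0x807a0807a08079f8079f607a4) e
 (c (nat_lit 0x807b4807b5807b5807b429cb4) e
 (c (b (nat_lit 0x10081c04)) e
 (c (nat_lit 0x80416804158041580415e8734) e
 (c (nat_lit 0x804158041480412804132f364) e
 (c (nat_lit 0x803fd803fc803fb803f635fc4) e
 (c (nat_lit 0x803e4803e3803db803d926904) e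
 (c (nat_lit 0x803ea803ea803e7803d6d34c4) e
 (c (nat_lit 0x803f1803f2803f2803e9a6465) e
 (c (nat_lit 0x803f4803f6803eb803f307605) e
 (c (nat_lit 0x7ffb67ffb67ffb67ffb7c0e25) e
 (c (nat_lit 0x8040180401804028040339d95) e
 (c (nat_lit 0x80001802bb8013280147af5c6) e
 (c (nat_lit 0x8000080000800008013570b56) e e)))))))))))))))))))))))))
 (c (a (nat_lit 0xfdffe00))
 (c (nat_lit 0x80dfd80dfd80dfb80dfce0831)
 (c (nat_lit 0x7fb107fb107fa4d7fa4d7faf9b1685) e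
 (c (nat_lit 0x7dfd07dfd07df457df457dfd019605) e
 (c (d (nat_lit 0xfa56805)) e e)))
 (c (nat_lit 0x80ffe80ffd80ffe80ffe167b1) e
 (c (b (nat_lit 0xfef7e01)) e
 (c (nat_lit 0x7d9ce7d9ce7d9ce7d9cf88482) e
 (c (nat_lit 0x80027800268002680028feb53) e
 (c (nat_lit 0x80238802398023a8023a79533) e
 (c (nat_lit 0x8010f80110801108011036163) e
 (c (nat_lit 0x802518025280252802529fca3) e
 (c (nat_lit 0x80765807608076580765863f4) e
 (c (nat_lit 0x81b3581b3481b3481b345e534) e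
 (c (nat_lit 0x81b9c81b9b81b9a81b9a37c34) e
 (c (nat_lit 0x803ac803aa803aa803a8ca034) e
 (c (nat_lit 0x803c1803bf803be803bd16554) e
 (c (nat_lit 0x803d8803d8803d7803d522884) e
 (c (nat_lit 0x803fa803fa803f5803f37fb74) e
 (c (nat_lit 0x8041b80417804118040e25794) e
 (c (nat_lit 0x804308042f804288042782834) e
 (c (nat_lit 0x80459804588044a8044785fd4) e
 (c (nat_lit 0x80482804818047180464ed995) e
 (c (nat_lit 0x8048e8048e8048c80486001e5) e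
 (c (b (nat_lit 0x10094e05)) e
 (c (b (nat_lit 0x10092c05)) e e))))))))))))))))))))))
 (c (a (nat_lit 0xfe00000))
 (c (b (nat_lit 0xff4be01)) e
 (c (nat_lit 0x7ff317ff317ff307ff2fb7cd2) e
 (c (b (nat_lit 0xfbf2403)) e
 (c (b (nat_lit 0x1012cc03)) e
 (c (b (nat_lit 0x100ca803)) e
 (c (nat_lit 0x8032b8032c8032d8032d1f703) e
 (c (nat_lit 0x8049f804a6804a5804a633b54) e
 (c (nat_lit 0x818ff81900819008190027a74) e
 (c (nat_lit 0x8178c8178d8178c8178d883f4) e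
 (c (nat_lit 0x8035280353803538035370ef4) e
 (c (nat_lit 0x802e0802dc802db802db50b74) e
 (c (nat_lit 0x802fe802f9802f6802f898fe4) e
 (c (nat_lit 0x8030b80306802ff802fec3ac4) e
 (c (nat_lit 0x80329803268030d802faa4614) e
 (c (nat_lit 0x803528034b80336802fe97e24) e
 (c (nat_lit 0x809da809e1803578034c284a4) e
 (c (nat_lit 0x807c780a05809f88035ba5014) e
 (c (nat_lit 0x800008000080a0b809fe8feb4) e
 (c (nat_lit 0x800008000080000809df57a84) e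
 (c (nat_lit 0x800008000080000802cf77a45) e
 (c z e
 (c (nat_lit 0x800008000080000801380bff5) e e))))))))))))))))))))))
 (c (a (nat_lit 0xfe00000))
 (c (nat_lit 0x7f2bf7f2bf7f2bc7f2c024513) e
 (c (b (nat_lit 0x101cc603)) e
 (c (b (nat_lit 0xffc9003)) e
 (c (nat_lit 0x8089b8089c8089c8089ca1063) e
 (c (nat_lit 0x812ad812ad812ad812acac754) e
 (c (b (nat_lit 0x104aee04)) e
 (c (b (nat_lit 0x10281e04)) e
 (c (nat_lit 0x811fc811fe811fe811ff444b4) e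
 (c (b (nat_lit 0x101a7204)) e
 (c (nat_lit 0x80d4b80d4b80d4a80d4aa6b34) e
 (c (nat_lit 0x80d6780d6680d6480d622ae14) e
 (c (nat_lit 0x80d7c80d7a80d7080d6e7a7e4) e
 (c (nat_lit 0x80d8880d8880d8580d7941bb4) e
 (c (nat_lit 0x80dba80db280d9780d95c3354) e
 (c (nat_lit 0x8103280f5380dce80daafb134) e
 (c (nat_lit 0x813738137180f5f80dd93fc44) e
 (c (nat_lit 0x80000800008137880f60d05e4) e
 (c (nat_lit 0x80000800008000080fe4450c4) e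
 (c z e
 (c z e
 (c (nat_lit 0x8000080000800008029d46095) e e)))))))))))))))))))))
 (c (a (nat_lit 0xfe00000))
 (c z e
 (c (nat_lit 0x80803808018080180800c0453) e
 (c (nat_lit 0x83288832898328983289dadb4) e
 (c (b (nat_lit 0x10398004)) e
 (c (b (nat_lit 0x101ec804)) e
 (c (b (nat_lit 0x10208004)) e
 (c (nat_lit 0x81042810438104381043a56b4) e
 (c (nat_lit 0x81038810398103b8103ca99c4) e
 (c (nat_lit 0x810238102d8102e8102f50724) e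
 (c (nat_lit 0x8100e810138101c8101ea6bf4) e
 (c (nat_lit 0x80ffb8100181003810052b0e4) e
 (c (nat_lit 0x80fee80ff080ff480ff508854) e
 (c (nat_lit 0x80fe080fdf80fe280fe321e24) e
 (c (nat_lit 0x813578134e80fd480fd723bd4) e
 (c (nat_lit 0x80019813588134580fc5ff514) e
 (c (nat_lit 0x800008000081350813425d7c4) e
 (c (nat_lit 0x8000080000800008134e60274) e e)))))))))))))))))
 (c (a (nat_lit 0xfdffe00))
 (c (nat_lit 0x84ccd84ccb84ccc84ccd5cd34) e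
 (c (nat_lit 0x81c8d81c8d81c8d81c8cdd014) e
 (c (nat_lit 0x81241812438124381243affb4) e
 (c (nat_lit 0x8104181043810428104315004) e
 (c (nat_lit 0x810548105a8105b8105de62d4) e
 (c (nat_lit 0x8104d810548105681056256e4) e
 (c (nat_lit 0x8103e8104a8104c8104c99a14) e
 (c (nat_lit 0x8102a8102c8103281033e98e4) e
 (c (nat_lit 0x81019810168101d8101ee40c4) e
 (c (nat_lit 0x8100881008810068100a48c14) e
 (c (nat_lit 0x80ff580ff580ff580ff67f8e4) e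
 (c (nat_lit 0x80ffc80ff880fe580ff19bca4) e
 (c (nat_lit 0x810318101c80fec80fcc10f84) e
 (c (nat_lit 0x808ae8101a8101480fd1f4ad4) e
 (c (nat_lit 0x8000080000810178100d30e64) e
 (c (nat_lit 0x80000800008000081012a2e54) e e))))))))))))))))
 (c (a (nat_lit 0xfe00000)) e
 (c (a (nat_lit 0xfdffe00)) e
 (c (a (nat_lit 0xfdffe00)) e
 (c (a (nat_lit 0xfdffe00)) e
 (c (a (nat_lit 0xfdffe00)) e
 (c (a (nat_lit 0xfdffe00)) e
 (c (nat_lit 0x7effe7effe7efffb8178) e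
 (c (a (nat_lit 0xfdffc00)) e
 (c (a (nat_lit 0xfdffc00)) e
 (c (nat_lit 0x7efff7effe7effe2bef0) e
 (c (nat_lit 0x7effe7efff7effedc9c0) e
 (c (nat_lit 0x7effe7effe7efff4d5e0) e
 (c (nat_lit 0x7efff7effe7effee8c30) e
 (c (nat_lit 0x7efff7efff7effe91c61) e
 (c (nat_lit 0x7f0017f0017f0006e539) e
 (c (nat_lit 0x7f9837f9827f981cb991) e
 (c (a (nat_lit 0xfe94a01)) e
 (c (nat_lit 0x7f51c7f51c7f51ffbc62) e
 (c (nat_lit 0x7f51e7f51f7f51e2a0db) e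
 (c (a (nat_lit 0x1000b203)) e
 (c (a (nat_lit 0x100be603)) e
 (c (nat_lit 0x7eae07eae07eae1fd53b) e e))))))))))))))))))))))))))))) Tr.c Tr.e (nat_lit 0) C.t3 C.t4 C.t5
noncomputable def tt290 : Tr := beta% (fun (c : Nat → Tr → Tr → Tr) (e : Tr) (z : Nat) (a b : Nat → Nat) =>
 (c (nat_lit 0x80fff80fff80fff8100014d60)
 (c (b (nat_lit 0xfe91804)) e
 (c (b (nat_lit 0xfe8ec04)) e
 (c (nat_lit 0x7f4417f4417f4417f43a7f441054c4) e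
 (c (b (nat_lit 0xfea9605)) e
 (c (nat_lit 0x7eb057eb057eae77eadf7eadbfb185) e
 (c (b (nat_lit 0xfc92805)) e
 (c z e
 (c (nat_lit 0x7ff487ff177ff177ff177ff484cd26) e e))))))))
 (c (nat_lit 0x80fff80fff80fff80ffedb610)
 (c (b (nat_lit 0xfe94804)) e
 (c (nat_lit 0x7f46b7f46b7f46b7f4637f463100c5) e
 (c (b (nat_lit 0xfeaee05)) e
 (c (nat_lit 0x7ee067ee347ee347ee347ee3492325) e
 (c z e
 (c (nat_lit 0x7e8587e8587e95f7e95f7e95f08646) e e))))))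
 (c (nat_lit 0x80fff80fff80fff80ffe00e90)
 (c (nat_lit 0x7f64e7f64e7f64e7f6417f64eea7a5) e
 (c (nat_lit 0x7f5367f5367f3ac7f3ac7f536d0a05) e
 (c (b (nat_lit 0xfcb3a05)) e
 (c (b (nat_lit 0xffb3e06)) e
 (c (b (nat_lit 0xfdd8409)) e e)))))
 (c (nat_lit 0x80ffe80ffd80ffd80ffd0b801)
 (c (nat_lit 0x7fa7b7fa7b7fab57fab57fab58a245) e
 (c (b (nat_lit 0xfd7a406)) e
 (c (nat_lit 0x80000800007fcdb7fcdb800003f3b0) e e)))
 (c (a (nat_lit 0x101ff801)) e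
 (c (nat_lit 0x80ffb80ffb80ffb80ffc9c5a1) e
 (c (a (nat_lit 0xfb99a01)) e
 (c (nat_lit 0x8096280962809638096379642) e
 (c (nat_lit 0x80da680da680da680da7895b3) e
 (c (nat_lit 0x80d6480d6580d6580d640e013) e
 (c (a (nat_lit 0x10103003)) e
 (c (a (nat_lit 0x10112c03)) e
 (c (nat_lit 0x805f7805f9805f9805f9adfc4) e
 (c (nat_lit 0x807f8807f7807f7807f7d7b74) e
 (c (nat_lit 0x807f7807f7807f6807f67b504) e
 (c (nat_lit 0x8043080430804308042f236b4) e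
 (c (nat_lit 0x8042c8042c8042c8042b5c974) e
 (c (nat_lit 0x8041280410804128041191a34) e
 (c (nat_lit 0x803d8803d8803d6803d874e24) e
 (c (nat_lit 0x803d2803cf803d1803d1f9c14) e
 (c (nat_lit 0x803c3803c4803c4803c3b1af5) e
 (c (a (nat_lit 0x10078c05)) e
 (c (nat_lit 0x8036e80366803668033e67af5) e
 (c (nat_lit 0x8046880468804a4804a48ee45) e
 (c (nat_lit 0x80313803008031480313812c6) e
 (c z e
 (c z e
 (c z e
 (c (nat_lit 0x8000080000800008020a783a7) e e)))))))))))))))))))))))))))))) Tr.c Tr.e (nat_lit 0) C.t4 C.t5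
noncomputable def tt291 : Tr := beta% (fun (c : Nat → Tr → Tr → Tr) (e : Tr) (z : Nat) (a b : Nat → Nat) =>
 (c (a (nat_lit 0x10200000))
 (c (b (nat_lit 0xff1c004)) e
 (c (b (nat_lit 0xfe8fe04)) e
 (c (nat_lit 0x7f46a7f45f7f4607f45f7f46ae9464) e
 (c (b (nat_lit 0xfe76e04)) e
 (c (nat_lit 0x7f4e77f4e77f4e67f4e77f4e7a3704) e
 (c (nat_lit 0x7ea7b7ea7b7ea757ea7b7ea7b3b205) e
 (c (nat_lit 0x7e8427e8427e82d7e8297e84273cc5) e
 (c z e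
 (c (nat_lit 0x80000800007ff9e7ff9e7ff9e00e25) e e)))))))))
 (c (a (nat_lit 0x101ff800))
 (c (b (nat_lit 0xfe92404)) e
 (c (b (nat_lit 0xfe8ee04)) e
 (c (b (nat_lit 0xfe80204)) e
 (c (b (nat_lit 0xfea5c05)) e
 (c (b (nat_lit 0xfd54005)) e
 (c (b (nat_lit 0xfd06605)) e
 (c (nat_lit 0x7e1e87e1e87e2b17e2b17e2b1708e5) e
 (c (nat_lit 0x7ff7380000800008000080000ac326) e
 (c (b (nat_lit 0xffca40a)) e
 (c z e
 (c (nat_lit 0x800008000080000800007ff1f41827) e e)))))))))))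
 (c (a (nat_lit 0x101ffe00))
 (c (b (nat_lit 0xfe8ea04)) e
 (c (b (nat_lit 0xfe82005)) e
 (c (b (nat_lit 0xfea3c05)) e
 (c (b (nat_lit 0xfd95405)) e
 (c z e
 (c (b (nat_lit 0xfe7c806)) e e))))))
 (c (nat_lit 0x80ffe80ffe80ffd80ffcad850)
 (c (nat_lit 0x7f5e27f5e27f5e27f5d27f5dba97c5) e
 (c (b (nat_lit 0xfea0005)) e
 (c (b (nat_lit 0xfe56405)) e e)))
 (c (a (nat_lit 0x101ffc00))
 (c (nat_lit 0x7f99f7fa6e7fa6e7fa6e7fa6e47885) e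
 (c (nat_lit 0x7f87f7f87f7f8dd7f8dd7f8ddbe106) e e))
 (c (nat_lit 0x80ffe80ffe80fff80fff75bd1)
 (c (nat_lit 0x80000800007f6497f6497f64921aa8) e
 (c (nat_lit 0x80000800007ff827ff8280000e8d10) e e))
 (c (nat_lit 0x8100080fff80fff8100099121) e
 (c (a (nat_lit 0xfd85201)) e
 (c (a (nat_lit 0xff2f201)) e
 (c (nat_lit 0x80ba980ba980ba880ba890c72) e
 (c (a (nat_lit 0x1017f203)) e
 (c (nat_lit 0x80a1c80a1d80a1d80a1ddc6c3) e
 (c (nat_lit 0x807a9807a8807a8807a88e573) e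
 (c (nat_lit 0x80983809838098380982b9803) e
 (c (nat_lit 0x807db807dc807dc807dcbdd74) e
 (c (a (nat_lit 0x100fd404)) e
 (c (nat_lit 0x807e7807e8807e8807e87a6a4) e
 (c (a (nat_lit 0x10087a04)) e
 (c (nat_lit 0x8043e8043e8043f8043e0fc04) e
 (c (nat_lit 0x803fb804018040680406d0254) e
 (c (nat_lit 0x803f6803f3803f7803f761cb4) e
 (c (nat_lit 0x803ec803ed803eb803eed9885) e
 (c (nat_lit 0x803e7803e7803d8803d87c695) e
 (c (nat_lit 0x80115801158011580113a5a55) e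
 (c (nat_lit 0x8036e8039980399804418ca65) e
 (c (nat_lit 0x8028780288802898028a250e6) e
 (c z e
 (c z e
 (c z e
 (c (nat_lit 0x8000080000802e3802e3aee37) e e))))))))))))))))))))))))))))))) Tr.c Tr.e (nat_lit 0) C.t4 C.t5
noncomputable def tt292 : Tr := beta% (fun (c : Nat → Tr → Tr → Tr) (e : Tr) (z : Nat) (a b : Nat → Nat) =>
 (c (nat_lit 0x80ffd80ffe80ffe80ffe00630)
 (c z e
 (c (nat_lit 0x7e7c47e7e47e7e47e8017e80134184) e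
 (c (nat_lit 0x7e7b77e7957e7b77e7b77e7b7e0e84) e
 (c (nat_lit 0x7dc617dc617dc617dc6d7dc6de9464) e
 (c (nat_lit 0x7db117db217db267db357db360ee84) e
 (c (nat_lit 0x7dd367dd367dd227dd367dd369f064) e
 (c (nat_lit 0x7d2807d2707d2807d2807d28047184) e
 (c (nat_lit 0x7d07b7d03a7d04d7d07b7d07bdbc45) e
 (c (nat_lit 0x7d0657d0657d0307d0587d06583ea5) e
 (c (b (nat_lit 0xff13605)) e
 (c z e
 (c (nat_lit 0x7ffcc7ffb87ffd18000080000100a6) e e))))))))))))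
 (c (a (nat_lit 0x101ffa00))
 (c (nat_lit 0x7f5687f5577f5687f5687f56821124) e
 (c (nat_lit 0x7eae47eae57eae97eaea7eaea0ef24) e
 (c (nat_lit 0x7e8877e8907e88f7e8907e89007364) e
 (c (nat_lit 0x7e7d07e7cf7e7d27e7d27e7d2dd6a4) e
 (c (nat_lit 0x7e8ff7e8ff7e8fc7e8fa7e8ff06704) e
 (c (nat_lit 0x7de607de607de677de677de679cf25) e
 (c (b (nat_lit 0xf8b9005)) e
 (c (b (nat_lit 0xfc7c005)) e
 (c (b (nat_lit 0xfd4c805)) e
 (c z e
 (c (nat_lit 0x7ff017feda7ff017ff017ff01ecc0a) e e)))))))))))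
 (c (a (nat_lit 0x101ffc00))
 (c (nat_lit 0x7e8d07e8d87e8e37e8e37e8e3d94e4) e
 (c (nat_lit 0x7e8ae7e8b17e8b47e8b47e8b4926e4) e
 (c (nat_lit 0x7e7f67e7f67e7f97e7f97e7f915884) e
 (c (nat_lit 0x7e9267e9247e9247e9267e92680d85) e
 (c (b (nat_lit 0xfbce205)) e
 (c (nat_lit 0x7dc757dc757dc757dc517dc69c34a5) e
 (c (b (nat_lit 0xfdff205)) e
 (c z e
 (c z e
 (c (nat_lit 0x7fde37fde37ff5a7ff5a7ff5a5222a) e e))))))))))
 (c (a (nat_lit 0x101ffe00))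
 (c (b (nat_lit 0xfd11a04)) e
 (c (nat_lit 0x7e8027e8027e8017e8027e8020d2e5) e
 (c (nat_lit 0x7e92e7e92e7e92e7e92c7e92e26245) e
 (c (nat_lit 0x7e03c7e03c7e03c7e00f7e00f89fe5) e
 (c (b (nat_lit 0xfbc7805)) e
 (c (b (nat_lit 0xfd4e406)) e e))))))
 (c (a (nat_lit 0x10200000))
 (c (b (nat_lit 0xfd30e05)) e
 (c (nat_lit 0x7e9247e9247e8fb7e8db7e8d3ee5c5) e
 (c (nat_lit 0x7e6ad7e6ad7e6ad7e6a97e6a913ae5) e
 (c z e
 (c (nat_lit 0x7ed977ed977ed437ed977ed97d7be9) e e)))))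
 (c (a (nat_lit 0x101ffc00))
 (c z e
 (c (nat_lit 0x7ee777ee937ee937ee937ee930a786) e e))
 (c (a (nat_lit 0x10200000))
 (c (nat_lit 0x7f4937f4347f4347f4937f493ebee8) e
 (c (nat_lit 0x7ff157ff157ff15800008000098770) e e))
 (c (nat_lit 0x8100080fff80fff810003f851) e
 (c (nat_lit 0x81002810028100081001cff11) e
 (c (a (nat_lit 0x10044c01)) e
 (c (a (nat_lit 0x10075801)) e
 (c (a (nat_lit 0x1015de02)) e
 (c (nat_lit 0x80ac780ac780ac780ac8af9d3) e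
 (c (a (nat_lit 0xffc9603)) e
 (c (nat_lit 0x7fecd7fecd7fecd7fece7f2f3) e
 (c (nat_lit 0x810358103581036810359ee23) e
 (c (nat_lit 0x808308083f8083f8083f07994) e
 (c (nat_lit 0x80fdd80fde80fde80fdff7ae4) e
 (c (nat_lit 0x80fc680fc780fc780fc889774) e
 (c (nat_lit 0x80fa680fb480fb880fb92c6d4) e
 (c (nat_lit 0x80fae80fbd80fc480fc6c9d24) e
 (c (nat_lit 0x80fbd80fb380fbe80fc20f6e4) e
 (c (nat_lit 0x80fad80fae80fb080fb288835) e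
 (c (nat_lit 0x80fae80fad80fae80faead455) e
 (c (nat_lit 0x8094a809478094980949e5b95) e
 (c (nat_lit 0x80e8080e1d80e7f80e7f2fbd5) e
 (c (nat_lit 0x80fa480fbc80d9a80faf78966) e
 (c (nat_lit 0x800008000080ce680ce6c04b7) e
 (c z e
 (c z e
 (c (nat_lit 0x8000080256802568025673c17) e e)))))))))))))))))))))))))))))))) Tr.c Tr.e (nat_lit 0) C.t4 C.t5
noncomputable def tt293 : Tr := beta% (fun (c : Nat → Tr → Tr → Tr) (e : Tr) (z : Nat) (a b : Nat → Nat) =>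
 (c (a (nat_lit 0x100f8a00))
 (c (b (nat_lit 0x1009e603)) e
 (c (b (nat_lit 0x10140403)) e
 (c z e
 (c (b (nat_lit 0x100a7203)) e
 (c (b (nat_lit 0xfdaee04)) e
 (c (nat_lit 0x7ec577ec3d7ec337ec447ec57bbea4) e
 (c (nat_lit 0x7de717de717de627de707de71f2d84) e
 (c (nat_lit 0x7dac77dac77daba7dac67dac7cc164) e
 (c (nat_lit 0x7d9f07d9ec7d9fd7d9ff7d9ff6bc64) e
 (c (nat_lit 0x7da1c7da0a7da197da1a7da1c7cd25) e
 (c (b (nat_lit 0xfd32e05)) e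
 (c (b (nat_lit 0xfe46005)) e
 (c (b (nat_lit 0xffbca05)) e
 (c (b (nat_lit 0xfee4606)) e
 (c (nat_lit 0x7f75f7f75f7f7557f75f7f75f79ae7) e
 (c (b (nat_lit 0xff2fe07)) e e))))))))))))))))
 (c (a (nat_lit 0x10200000))
 (c z e
 (c z e
 (c (b (nat_lit 0xfda7c04)) e
 (c (nat_lit 0x7e5ec7e5df7e5e87e5ec7e5ec84b04) e
 (c (nat_lit 0x7daa87daa87da9b7daa87daa8709c4) e
 (c (nat_lit 0x7d6b37d6b37d69b7d6a37d6b3be7c4) e
 (c (nat_lit 0x7d3277d3287d31d7d3247d32a0d804) e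
 (c (nat_lit 0x7d13b7d10e7d1277d13b7d13bdab25) e
 (c (nat_lit 0x7d1457d1457d1137d1397d1453ea65) e
 (c (nat_lit 0x7e3b67e3b67e2a07e3957e3a000325) e
 (c (nat_lit 0x8000080000800007ffe37ffe388dc5) e
 (c z e
 (c (nat_lit 0x7f9967f9877f9827f9967f99693c27) e
 (c (b (nat_lit 0xff42607)) e e))))))))))))))
 (c (a (nat_lit 0x101ffe00))
 (c (b (nat_lit 0xfe9aa04)) e
 (c (b (nat_lit 0xfe99c04)) e
 (c (nat_lit 0x7e9aa7e9a97e9a47e9a37e9aae88e4) e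
 (c (nat_lit 0x7e8827e87f7e8737e8827e882f4c24) e
 (c (nat_lit 0x7e9937e9937e97a7e9847e99365984) e
 (c (b (nat_lit 0xfbdfc05)) e
 (c (nat_lit 0x7dccb7dccb7dc2e7dc2e7dccbadae5) e
 (c (b (nat_lit 0xfb40005)) e
 (c z e
 (c z e
 (c z e
 (c z e
 (c (b (nat_lit 0xfff6e07)) e e)))))))))))))
 (c (nat_lit 0x80fff80ffe80ffe80ffe0d990)
 (c (nat_lit 0x7ea4c7ea4f7ea4e7ea4f7ea4fd0024) e
 (c (nat_lit 0x7e9477e9477e9477e9437e9472d9c4) e
 (c (nat_lit 0x7e88e7e88e7e88b7e88e7e88e7bc04) e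
 (c (nat_lit 0x7e9c27e9c27e9be7e9ba7e9c2cbc05) e
 (c (nat_lit 0x7df407dd627dd627df407df40d8ce5) e
 (c (b (nat_lit 0xfbdd605)) e
 (c z e
 (c (nat_lit 0x7f31e7f2f67f2f67f31e7f31ea9186) e
 (c (b (nat_lit 0xfebf807)) e
 (c (b (nat_lit 0xff82207)) e
 (c (b (nat_lit 0xfffaa07)) e
 (c (nat_lit 0x7ff0b7ff037fe627ff0b7ff0bfb8e7) e e))))))))))))
 (c (a (nat_lit 0x10200000))
 (c (b (nat_lit 0xfd1f204)) e
 (c (nat_lit 0x7e89b7e89b7e8917e8977e89b022a5) e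
 (c (b (nat_lit 0xfd37e05)) e
 (c (nat_lit 0x7dff77dff77df637df637dff753d45) e
 (c (nat_lit 0x7dc3b7dc3b7dc737dc737dc73c4725) e
 (c (nat_lit 0x7e8b97e8b97e8f27e8f27e8f239f66) e
 (c (b (nat_lit 0xfe90207)) e
 (c (nat_lit 0x80000800007ff7c7ff7c7ff7c9e187) e
 (c z e
 (c (nat_lit 0x7f6687f6687f6687f6687f43450a07) e e))))))))))
 (c (nat_lit 0x8100181000810008100060400)
 (c (b (nat_lit 0xfd31605)) e
 (c (nat_lit 0x7e9e67e9e67e9e67e9677e973083c5) e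
 (c (nat_lit 0x7e6667e6667e6667e5577e557f1485) e
 (c (nat_lit 0x7e15a7e0347e0347e15a7e15af0aa6) e
 (c (nat_lit 0x7d8507d8507d7b87d7b87d850bb9a7) e
 (c (b (nat_lit 0x100cc207)) e
 (c (b (nat_lit 0x1018b807)) e
 (c (nat_lit 0x7f23e7f23e7f23e7f1b27f1b2880e7) e e))))))))
 (c (a (nat_lit 0x101ffa00))
 (c z e
 (c (b (nat_lit 0xfd60406)) e e))
 (c (a (nat_lit 0x10200000))
 (c (nat_lit 0x7f1347f1007f1277f1347f134c8627) e
 (c z e
 (c (b (nat_lit 0x10494e07)) e e)))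
 (c (nat_lit 0x80ffe80fff80fff81000258f0)
 (c z e
 (c z e
 (c z e
 (c (nat_lit 0x800008000080000800008170498368) e e))))
 (c (nat_lit 0x810038100181002810027aa81)
 (c (nat_lit 0x800008000083dd383dd383dd3dd228) e
 (c (nat_lit 0x8000080000800008101e8101e8b348) e
 (c (nat_lit 0x80000800008000080000813e457ee8) e e)))
 (c (nat_lit 0x81002810028100081000cf921) e
 (c (nat_lit 0x80988809888094080940429e1) e
 (c (a (nat_lit 0x10046c01)) e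
 (c (a (nat_lit 0x10227202)) e
 (c (a (nat_lit 0x10224e03)) e
 (c (a (nat_lit 0x10102003)) e
 (c (a (nat_lit 0x1000b803)) e
 (c (a (nat_lit 0x1004f203)) e
 (c (nat_lit 0x80a3080a3380a3680a3799774) e
 (c (nat_lit 0x80f4f80f4f80f5080f5032d44) e
 (c (nat_lit 0x80f4180f4580f4580f4655404) e
 (c (nat_lit 0x80f2f80f3780f3b80f3ce19c4) e
 (c (nat_lit 0x80f2880f2680f2a80f2b70ce4) e
 (c (nat_lit 0x80f2280f2180f2180f2112825) e
 (c (nat_lit 0x80f1780f1880f1780f1818e15) e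
 (c (nat_lit 0x802cb802c9802c8802c3a9545) e
 (c z e
 (c (nat_lit 0x808c0808cc808c4808c227006) e
 (c (nat_lit 0x808c6808bf808c7808c6879e7) e
 (c (nat_lit 0x8037e803858038580386c5137) e
 (c (a (nat_lit 0x10057c07)) e
 (c (nat_lit 0x807e7807e2807e4807e5af997) e e))))))))))))))))))))))))))))))))) Tr.c Tr.e (nat_lit 0) C.t4 C.t5
noncomputable def tt294 : Tr := beta% (fun (c : Nat → Tr → Tr → Tr) (e : Tr) (z : Nat) (a b d : Nat → Nat) =>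
 (c (a (nat_lit 0x1012f400))
 (c (b (nat_lit 0xfea1a01))
 (c (d (nat_lit 0xfa6e205)) e
 (c (d (nat_lit 0xfb06e05)) e
 (c z e
 (c (d (nat_lit 0xf96ec07)) e
 (c z e
 (c (d (nat_lit 0xffe6207)) e
 (c (d (nat_lit 0xffea807)) e
 (c (nat_lit 0x800008000080000800007f2fd800009d987) e e))))))))
 (c (b (nat_lit 0xfea9201)) e
 (c (b (nat_lit 0xf99bc02))
 (c z e
 (c z e
 (c (d (nat_lit 0xfffec07)) e e)))
 (c (b (nat_lit 0xfe83203))
 (c (d (nat_lit 0xfffee07)) e e)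
 (c (nat_lit 0x7ff6a7ff6a7ff5a7ff6a7ff6acb583) e
 (c (b (nat_lit 0x10a45003)) e
 (c (b (nat_lit 0x104c1c03)) e
 (c (b (nat_lit 0xfede404)) e
 (c z e
 (c (b (nat_lit 0xfc09404)) e
 (c (nat_lit 0x7d88d7d88d7d87e7d8757d88716744) e
 (c (nat_lit 0x7e63c7e6337e6387e6397e63ce07e5) e
 (c (b (nat_lit 0xfd0dc05)) e
 (c (b (nat_lit 0xfdb4e05)) e
 (c (b (nat_lit 0xff7fc05)) e
 (c (nat_lit 0x7e5f27e5f27e5e47e5f27e5f2647c6) e
 (c (b (nat_lit 0xfcc1407)) e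
 (c (nat_lit 0x7e7aa7e7aa7e7aa7e7a67e7a197b27) e
 (c z e
 (c (nat_lit 0x7e8a97e6d97e6d97e8a97e8a9edb27) e e))))))))))))))))))))
 (c (a (nat_lit 0x101ffe00))
 (c (nat_lit 0x7fdb17fdcf7fdcf7fdcf7fdcff3b62)
 (c (nat_lit 0x7c2a17c2a17c2687c2687c2a17c2a1e6c87) e e)
 (c z e
 (c z e
 (c z e
 (c z e
 (c (nat_lit 0x7f93c7f8d47f8d47f93c7f93c1a7a4) e
 (c (nat_lit 0x7e5c57e5c07e5c07e5c57e5c562144) e
 (c (b (nat_lit 0xfaf7004)) e
 (c (nat_lit 0x7ce9b7ce9b7ce917ce9b7ce9b08904) e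
 (c (nat_lit 0x7d20f7d20f7d2027d1f47d20f00545) e
 (c (nat_lit 0x7e1cf7e1cf7e1c67e1cf7e1cfce825) e
 (c (b (nat_lit 0xfd07605)) e
 (c (b (nat_lit 0xfdd5c05)) e
 (c (nat_lit 0x7ef617ef667ef667ef667ef667a486) e
 (c (b (nat_lit 0xfbb4c07)) e
 (c (b (nat_lit 0xfbc3807)) e
 (c z e
 (c z e
 (c (b (nat_lit 0xfeb480b)) e e)))))))))))))))))))
 (c (a (nat_lit 0x101ffe00))
 (c z e
 (c z e
 (c (nat_lit 0x7f3297f3447f3447f3447f344cdb43) e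
 (c (nat_lit 0x7f4e17f4e17f5d17f5d17f5d1f6fa4) e
 (c (nat_lit 0x7e5077e4f67e4f77e4fe7e50769444) e
 (c (b (nat_lit 0xfe98204)) e
 (c (nat_lit 0x7d1de7d1de7d1db7d1de7d1de5c1c4) e
 (c (nat_lit 0x7d1ba7d1ad7d1927d1ba7d1baad305) e
 (c (nat_lit 0x7d19d7d19d7d1877d18b7d19d25c65) e
 (c (nat_lit 0x7ef097ef097ef097eefe7ef09ddb05) e
 (c z e
 (c z e
 (c z e
 (c z e
 (c (b (nat_lit 0xffe3c07)) e e)))))))))))))))
 (c (a (nat_lit 0x101ffa00))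
 (c z
 (c z e
 (c (nat_lit 0x80000800008000080000800007ff94ffecb) e e))
 (c (b (nat_lit 0xfea9e04)) e
 (c (nat_lit 0x7f4407f4287f4247f4337f44088b24) e
 (c (nat_lit 0x7e8fb7e8fb7e8f37e8f77e8fbec824) e
 (c (nat_lit 0x7e33a7e33a7e3317e3297e336e3984) e
 (c (nat_lit 0x7df197de047de047df197df19d8a65) e
 (c (nat_lit 0x7dd757dd757dd5a7dd657dd6759225) e
 (c (b (nat_lit 0xfd08405)) e
 (c (nat_lit 0x7f1987f1987f8157f8157f8154e765) e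
 (c (b (nat_lit 0xfe92006)) e
 (c (nat_lit 0x7f5c77f5c77f5ba7f5ba7f5c764f07) e
 (c (nat_lit 0x7f98b7f9fd7f9fd7f9fd7f9fd5dfe7) e
 (c (nat_lit 0x7fad28000080000800008000037de7) e e)))))))))))))
 (c (a (nat_lit 0x10200000))
 (c (nat_lit 0x7f5357f5347f5357f5357f53524304) e
 (c (nat_lit 0x7ea237ea237ea187ea1b7ea2350084) e
 (c (nat_lit 0x7e8f07e8ed7e8f07e8ed7e8f0a7444) e
 (c (nat_lit 0x7e9f47e9f47e9e07e9e87e9f4969c5) e
 (c (b (nat_lit 0xfa63205)) e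
 (c (b (nat_lit 0xf322a05)) e
 (c (b (nat_lit 0xf9d2605)) e
 (c (nat_lit 0x7ed797ed5c7ed797ed797ed791d486) e
 (c (nat_lit 0x7eef07eef07eeeb7eef07eef09a347) e
 (c z e
 (c z e
 (c (nat_lit 0x7fe717faf47faf48000080000f9a47) e e))))))))))))
 (c (a (nat_lit 0x10200000))
 (c (nat_lit 0x7e96c7e96c7e96c7e9617e960078e4) e
 (c (b (nat_lit 0xfd14805)) e
 (c (b (nat_lit 0xfd3c205)) e
 (c (b (nat_lit 0xfbeac05)) e
 (c (b (nat_lit 0xfb19e05)) e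
 (c (b (nat_lit 0xfb99606)) e
 (c (b (nat_lit 0xfe33e07)) e
 (c (b (nat_lit 0xfeba807)) e
 (c z e
 (c z e
 (c (b (nat_lit 0x1001d60a)) e e)))))))))))
 (c (nat_lit 0x8100281001810018100146b20)
 (c (b (nat_lit 0xfd3ec05)) e
 (c (nat_lit 0x7e9917e9917e9917e9807e991c6ec5) e
 (c z e
 (c (nat_lit 0x7e6047e6047e6047e6047e5bf7eac6) e
 (c (nat_lit 0x7eead7ee077ee077eead7eead4ce27) e
 (c (nat_lit 0x80000800007febd80000800008a2c7) e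
 (c (b (nat_lit 0x100b9007)) e
 (c (b (nat_lit 0xff22207)) e
 (c (b (nat_lit 0xff65009)) e e)))))))))
 (c (nat_lit 0x80ffd80ffd80ffd80ffc996c0)
 (c (nat_lit 0x7e64c7e64c7e6e37e6e37e6e34c025) e
 (c (nat_lit 0x7e3427e2f87e2f87e3427e34200fe6) e
 (c z e
 (c z e
 (c z e
 (c (nat_lit 0x800007ffa280000800008000063767) e e))))))
 (c (nat_lit 0x81000810008100080fffa8bd0)
 (c (nat_lit 0x7fa737fa737f9317f9317fa73d2087) e e)
 (c (nat_lit 0x80ffe80fff80fff80fff37ea0)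
 (c z e
 (c (b (nat_lit 0x105a5007)) e
 (c (nat_lit 0x80000800008147b81486814865b828) e
 (c (nat_lit 0x80000800008000080cc580cc5ea2c8) e e))))
 (c (nat_lit 0x810008100081000810015e370)
 (c (nat_lit 0x81fc781fd481fd481fd481fd4c93e8) e
 (c (nat_lit 0x800008000080c8b80c8b80c8bf2a88) e
 (c (nat_lit 0x800008000080000807e3807e317d48) e e)))
 (c (a (nat_lit 0x101ffc01)) e
 (c (nat_lit 0x81008810088100181002c0a31) e
 (c (nat_lit 0x80d4580d4580d4580d46e1bd1) e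
 (c (nat_lit 0x80309803098030880308313d1) e
 (c (nat_lit 0x812fd812fe812fe812fe9bbf2) e
 (c (a (nat_lit 0x10259403)) e
 (c (a (nat_lit 0x1025d003)) e
 (c (nat_lit 0x8016f8016f8016f8016ee7a93) e
 (c (nat_lit 0x810138100e8101a8101a6fa83) e
 (c (nat_lit 0x809aa809ac809ac809ae3d184) e
 (c (nat_lit 0x80edc80edb80edb80edbc2df4) e
 (c (nat_lit 0x80eee80eef80ef180ef295e24) e
 (c (nat_lit 0x80ef080ef080ef080ef181894) e
 (c (a (nat_lit 0x101ddc05)) e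
 (c (nat_lit 0x80eee80eee80eea80eed18f85) e
 (c (nat_lit 0x8035d806998069a80698523c5) e
 (c (nat_lit 0x7fb697fb6a7fb6a7fb6bdc465) e
 (c (nat_lit 0x806d6806f6806ee806f460f66) e
 (c (nat_lit 0x80662806678066680667fb357) e
 (c (nat_lit 0x8031e803208026680266af407) e
 (c (nat_lit 0x8029480294802ae802ae00d57) e
 (c (a (nat_lit 0x100d3207)) e e)))))))))))))))))))))))))))))))))) Tr.c Tr.e (nat_lit 0) C.t4 C.t5 C.t6
noncomputable def tt295 : Tr := beta% (fun (c : Nat → Tr → Tr → Tr) (e : Tr) (z : Nat) (a b d : Nat → Nat) =>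
 (c (a (nat_lit 0x101ffc00))
 (c (nat_lit 0x7f68e7f68e7f68d7f68e7f68ea3881)
 (c (d (nat_lit 0xfb0a805)) e
 (c (d (nat_lit 0xfba4005)) e
 (c z e
 (c (d (nat_lit 0xff05a07)) e
 (c (nat_lit 0x7f66d7f66d7f4997f5317f66d7f66de2087) e
 (c (d (nat_lit 0xfffd207)) e
 (c z e
 (c z e
 (c z e
 (c (nat_lit 0x8000080000800008179081790817907afe0) e
 (c (nat_lit 0x8000080000800007ed747ed827edb1c38e0) e e)))))))))))
 (c (nat_lit 0x7f0077f0077f0077f0047f0066e0c1)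
 (c z e
 (c z e
 (c z e
 (c z e
 (c (d (nat_lit 0xfe69207)) e
 (c (d (nat_lit 0xfff0a0b)) e e))))))
 (c z e
 (c (b (nat_lit 0xff3e202))
 (c (d (nat_lit 0xfee0407)) e e)
 (c (b (nat_lit 0xfd63c03)) e
 (c z e
 (c (b (nat_lit 0x100fba03)) e
 (c (nat_lit 0x8000080000800007ffd97ffd971a63) e
 (c z e
 (c (nat_lit 0x7f6767f6647f66c7f66f7f67659e44) e
 (c (b (nat_lit 0xfb86804)) e
 (c (b (nat_lit 0xfbf1805)) e
 (c (nat_lit 0x7df8c7df8c7df8a7df8c7df8cca125) e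
 (c (b (nat_lit 0xfc76405)) e
 (c (b (nat_lit 0xfc6ce05)) e
 (c (b (nat_lit 0xfc99606)) e
 (c (nat_lit 0x7dc957dc927dc957dc957dc9519147) e
 (c (b (nat_lit 0xfcec807)) e
 (c (b (nat_lit 0xfff8a07)) e
 (c z e
 (c (nat_lit 0x800007fe7c7fe7c80000800006c2ab) e e)))))))))))))))))))))
 (c (nat_lit 0x80fff81000810008100030180)
 (c z
 (c z e
 (c z e
 (c z e
 (c z e
 (c (d (nat_lit 0xffe380b)) e e)))))
 (c (b (nat_lit 0xff7ac02))
 (c (d (nat_lit 0xffcfe07)) e e)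
 (c z e
 (c z e
 (c z e
 (c (b (nat_lit 0x107e9003)) e
 (c z e
 (c z e
 (c z e
 (c (nat_lit 0x7d1547d1547d13a7d1457d154fc445) e
 (c (nat_lit 0x7def47def47def07def47def423325) e
 (c (b (nat_lit 0xfc8b205)) e
 (c (b (nat_lit 0xfd89a05)) e
 (c (b (nat_lit 0xfea1c06)) e
 (c z e
 (c z e
 (c z e
 (c z e
 (c z e
 (c (nat_lit 0x7f34d7f3477f34d7f34d7f34d2d8eb) e e))))))))))))))))))))
 (c (a (nat_lit 0x101ffe00))
 (c z e
 (c z e
 (c z e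
 (c z e
 (c (b (nat_lit 0xfd1a004)) e
 (c z e
 (c (b (nat_lit 0x10198404)) e
 (c z e
 (c (b (nat_lit 0xf9d3605)) e
 (c (b (nat_lit 0xfc6ce05)) e
 (c z e
 (c (b (nat_lit 0xfd0de06)) e
 (c (nat_lit 0x7ef587ef587ef407ef407ef58ba1c7) e
 (c z e
 (c z e
 (c (nat_lit 0x7f1937f0a47f1937f1937f193c5167) e
 (c z e
 (c z e
 (c z e
 (c (nat_lit 0x800008000080000800007ffb14988b) e e))))))))))))))))))))
 (c (a (nat_lit 0x101ffe00))
 (c z e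
 (c (b (nat_lit 0xffa2003)) e
 (c (nat_lit 0x7f42a7f2c77f2c77f4337f433d1844) e
 (c (nat_lit 0x7f2ad7f2a47f29a7f2ad7f2adef084) e
 (c (nat_lit 0x7e8b37e8b37e8aa7e8b17e8b3a2804) e
 (c (b (nat_lit 0xfb9ba05)) e
 (c z e
 (c z e
 (c z e
 (c (nat_lit 0x7ea6c7ea497ea6c7ea6c7ea6cfc446) e
 (c (nat_lit 0x7f4ee7f4ee7f4b87f4ee7f4eee22a7) e
 (c (b (nat_lit 0xff5f207)) e e))))))))))))
 (c (a (nat_lit 0x101ff200))
 (c (b (nat_lit 0xfea6a04)) e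
 (c (nat_lit 0x7f4117f40d7f4107f40e7f411fe544) e
 (c (nat_lit 0x7e8e57e8e57e8d07e8dd7e8e504bc4) e
 (c (nat_lit 0x7e2cd7e2cd7e2ab7e2a27e2b60d2c5) e
 (c (b (nat_lit 0xfb75205)) e
 (c (nat_lit 0x7d7277d7277d6f17d6f17d727ce4a5) e
 (c (b (nat_lit 0xfae1605)) e
 (c (b (nat_lit 0xfda9206)) e
 (c (b (nat_lit 0xfe47807)) e
 (c (b (nat_lit 0xffda407)) e
 (c z e
 (c (nat_lit 0x7f65e7f65e7f8257f8257f8254e4c7) e e))))))))))))
 (c (a (nat_lit 0x101ff800))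
 (c (nat_lit 0x7e94a7e94a7e9407e9317e94a8f564) e
 (c (nat_lit 0x7e82c7e82c7e8247e81e7e8238d5c5) e
 (c (b (nat_lit 0xfd22405)) e
 (c (nat_lit 0x7dfd07dfd07dfd07df487df48b15e5) e
 (c (b (nat_lit 0xf90e805)) e
 (c (b (nat_lit 0xf996406)) e
 (c (nat_lit 0x7f37a7f37a7f3347f37a7f37a7dc67) e
 (c (nat_lit 0x7f37e7f37e7f37e7f3507f37eb6a47) e
 (c z e
 (c (b (nat_lit 0xff5e207)) e
 (c (b (nat_lit 0xffd4209)) e e)))))))))))
 (c (nat_lit 0x8100281000810008100036be0)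
 (c (b (nat_lit 0xfd19405)) e
 (c (b (nat_lit 0xfd0b805)) e
 (c z e
 (c (nat_lit 0x7d9397d8e67d8e67d9397d93973c86) e
 (c (nat_lit 0x7c8cf7c8cf7c8c27c8c27c8cf47667) e
 (c (b (nat_lit 0xfecc207)) e
 (c z e
 (c (nat_lit 0x7f6097f6087f6097f6097f609c1807) e
 (c (b (nat_lit 0xff8d809)) e e)))))))))
 (c (a (nat_lit 0x101ff800))
 (c z e
 (c (nat_lit 0x7eeac7ec787ec787eeac7eeac56be6) e
 (c (b (nat_lit 0x1013be07)) e
 (c z e
 (c (b (nat_lit 0x100d4007)) e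
 (c (nat_lit 0x7ffc77ff66800008000080000281c7) e e))))))
 (c (nat_lit 0x80ffe80ffe80fff80ffe72f20)
 (c (nat_lit 0x800007ff1b7ff1b800008000073847) e
 (c (b (nat_lit 0x101c4807)) e
 (c (nat_lit 0x80b2a80b2a80999809998099916ca7) e
 (c (b (nat_lit 0xff42407)) e
 (c (nat_lit 0x80000800007ffab7ffe67ffe61e208) e
 (c (nat_lit 0x8000080000800007fffe80000b35c8) e e))))))
 (c (nat_lit 0x81000810008100080fffaf910)
 (c z e
 (c z e
 (c (nat_lit 0x8089e808a1808c9808c9808c902488) e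
 (c z e
 (c (nat_lit 0x8000080000800008004180041ecf48) e e)))))
 (c (a (nat_lit 0x10200400))
 (c z e
 (c (b (nat_lit 0x10055408)) e
 (c (nat_lit 0x8000080000803eb803e9803ebf3e48) e
 (c (nat_lit 0x8000080000800007ff9e7ff6963108) e
 (c (nat_lit 0x800008000080000800007fac9760a8) e e)))))
 (c (nat_lit 0x80fff80fff80fff810008d9f0) e
 (c (nat_lit 0x80ffd80ffe80ffe80ffe99021) e
 (c (a (nat_lit 0x101ff801)) e
 (c (a (nat_lit 0x100ea401)) e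
 (c (nat_lit 0x803f0803f1803f1803f0e2da1) e
 (c (nat_lit 0x811ea811e9811ea811ebf20c2) e
 (c (a (nat_lit 0x10246a03)) e
 (c (nat_lit 0x81167811678116781166eff83) e
 (c (nat_lit 0x802708026f8026f8026f88223) e
 (c (a (nat_lit 0x101b3e03)) e
 (c (nat_lit 0x8081080813808148081464f84) e
 (c (nat_lit 0x80fbf80fc080fc480fc4624a4) e
 (c (nat_lit 0x80fbc80fbe80fbe80fbf92464) e
 (c (nat_lit 0x80fb680fb680fb780fb72c945) e
 (c (a (nat_lit 0x101f6605)) e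
 (c z e
 (c (nat_lit 0x7ff597ff597ff577ff5701265) e
 (c (nat_lit 0x8085580852808548085468b26) e
 (c (nat_lit 0x8053f805308053080541302f7) e
 (c (nat_lit 0x802c5802c9802c9802c93ffa7) e
 (c (nat_lit 0x801ef801ee801ee801ee8b527) e
 (c (nat_lit 0x8045880458804588046c85d17) e e)))))))))))))))))))))))))))))))))) Tr.c Tr.e (nat_lit 0) C.t4 C.t5 C.t6
noncomputable def tt296 : Tr := beta% (fun (c : Nat → Tr → Tr → Tr) (e : Tr) (z : Nat) (a b : Nat → Nat) =>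
 (c (a (nat_lit 0xfdfe000))
 (c (b (nat_lit 0xfc4b804))
 (c z e
 (c z e
 (c (nat_lit 0x8000080000800008000080000800007fbdb3da0c) e e)))
 (c (b (nat_lit 0xfbdaa05)) e
 (c (b (nat_lit 0xfb9e005)) e
 (c (b (nat_lit 0xf859405)) e
 (c (b (nat_lit 0xf92ca05)) e
 (c (nat_lit 0x7e4d47e3cb7e4687e4d47e4d47e4d45ea86) e
 (c (nat_lit 0x7df4f7df4f7df4f7dd9d7df4f7df4fe5487) e
 (c z e
 (c (b (nat_lit 0xfffac07)) e
 (c z e
 (c z e
 (c (b (nat_lit 0x10ab2e20)) e e))))))))))))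
 (c (a (nat_lit 0xfe00a01))
 (c (b (nat_lit 0xfabb605)) e
 (c (nat_lit 0x7e2dd7e2dd7e2dd7e2377e2457e2dd6f705) e
 (c (b (nat_lit 0xfb10205)) e
 (c (b (nat_lit 0xffe9e06)) e
 (c (b (nat_lit 0xff65407)) e
 (c (nat_lit 0x80000800007fdcd7feb8800008000032647) e
 (c z e
 (c z e
 (c z e
 (c z e
 (c (nat_lit 0x80000800008157981533815cc815cca9fe0) e
 (c z e
 (c z e
 (c (nat_lit 0x80000800008000080000800007fe3528dcc) e e))))))))))))))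
 (c (a (nat_lit 0xfdff601))
 (c (b (nat_lit 0xf7b3405)) e e)
 (c (a (nat_lit 0xfe00a01)) e
 (c z e
 (c (a (nat_lit 0xfe3b002)) e
 (c (nat_lit 0x7f5067f4437f5067f5067f5069c063) e
 (c (a (nat_lit 0x10094403)) e
 (c z e
 (c z e
 (c (a (nat_lit 0x10490a04)) e
 (c (a (nat_lit 0xfec8a04)) e
 (c (a (nat_lit 0xfbeec04)) e
 (c (nat_lit 0x7df737df6e7df737df737df734b8c5) e
 (c (a (nat_lit 0xfc10005)) e
 (c (a (nat_lit 0xfd28205)) e
 (c (a (nat_lit 0xfcf4605)) e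
 (c (a (nat_lit 0xfb8f406)) e
 (c (nat_lit 0x7dc147dc147dc0c7dc147dc1454f27) e
 (c (a (nat_lit 0xfba7e07)) e e))))))))))))))))))))) Tr.c Tr.e (nat_lit 0) C.t5 C.t6
noncomputable def tt297 : Tr := beta% (fun (c : Nat → Tr → Tr → Tr) (e : Tr) (z : Nat) (a b : Nat → Nat) =>
 (c (a (nat_lit 0xfed0c01))
 (c (nat_lit 0x7da127da127da127da127da097da09ef305) e
 (c z e
 (c z e
 (c (b (nat_lit 0xfc2e007)) e
 (c z e
 (c z e
 (c z e
 (c z e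
 (c z e
 (c z e
 (c (nat_lit 0x80000800008214b821968227d8227d2a960) e
 (c z e
 (c z e
 (c (nat_lit 0x80000800008000080000800007fb288984c) e e))))))))))))))
 (c (a (nat_lit 0xfe00c01))
 (c z e
 (c z e
 (c z e
 (c z e
 (c z e
 (c z e
 (c z e
 (c z e
 (c z e
 (c z e
 (c z e
 (c (nat_lit 0x80000800008000080000800007f9d5b350c) e e))))))))))))
 (c (a (nat_lit 0xfdff801)) e
 (c z e
 (c z
 (c (b (nat_lit 0x107e0c0b)) e e)
 (c z e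
 (c z e
 (c z e
 (c z e
 (c z e
 (c (nat_lit 0x80cf680ce880ce680cf680cf67c2a4) e
 (c (nat_lit 0x7df677df677df657df657df6701885) e
 (c (nat_lit 0x7df617df617df607df617df615b285) e
 (c (a (nat_lit 0xfc82005)) e
 (c (a (nat_lit 0xfdb7e05)) e
 (c (a (nat_lit 0xfdd3606)) e
 (c (a (nat_lit 0xfe3f407)) e
 (c z e
 (c z e
 (c (a (nat_lit 0xfff5807)) e
 (c z e
 (c (a (nat_lit 0xfe2760b)) e
 (c z e
 (c z e
 (c z e
 (c (nat_lit 0x800008000080000800007fffa0aa6c) e e))))))))))))))))))))))))))) Tr.c Tr.e (nat_lit 0) C.t5 C.t6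
noncomputable def tt298 : Tr := beta% (fun (c : Nat → Tr → Tr → Tr) (e : Tr) (z : Nat) (a b : Nat → Nat) =>
 (c (a (nat_lit 0xfdffc00))
 (c (nat_lit 0x800007ffd87ffba7ffb480000800009c804)
 (c z e
 (c (nat_lit 0x800008000080000880008800088000880005a78c) e e))
 (c (nat_lit 0x7e78c7e78c7e78c7e7837e7807e78c3aec5)
 (c (nat_lit 0x8000080000800008000087ff487ff487ff439e8c) e e)
 (c (b (nat_lit 0xfc28005)) e
 (c z e
 (c z e
 (c z e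
 (c z e
 (c (nat_lit 0x82b1782b1782b1782aef82b1782b17cd747) e
 (c z e
 (c z e
 (c z e
 (c (b (nat_lit 0x1091a20c)) e
 (c (b (nat_lit 0x109cb00c)) e
 (c (nat_lit 0x80000800008000083a1983a2083a209ec0c) e
 (c (nat_lit 0x8000080000800008000083de983de989d0c) e e)))))))))))))))
 (c (a (nat_lit 0xfe00000))
 (c (nat_lit 0x7da627da627da517da4e7da497da628a905) e
 (c (nat_lit 0x7dfdc7dfdc7dfdc7dfd27dfda7dfdc86485) e
 (c z e
 (c z e
 (c (b (nat_lit 0xfff4607)) e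
 (c z e
 (c z e
 (c z e
 (c z e
 (c z e
 (c (b (nat_lit 0x1100060c)) e
 (c (nat_lit 0x80000800008000088028880288802899b4c) e
 (c (nat_lit 0x800008000080000800008412484124eb9cc) e e)))))))))))))
 (c (a (nat_lit 0xfe00401))
 (c (b (nat_lit 0xffec605)) e e)
 (c (a (nat_lit 0xfe00601)) e
 (c (nat_lit 0x7f00b7f00b7f00b7f0037f00319a81) e
 (c (a (nat_lit 0xff7f601)) e
 (c (a (nat_lit 0xfe13802)) e
 (c (nat_lit 0x7e1ef7e1ee7e1ee7e1ef7e1ef55463) e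
 (c z e
 (c z e
 (c z e
 (c (a (nat_lit 0xfb27004)) e
 (c (nat_lit 0x7dd907dd907dd887dd897dd90b8ee4) e
 (c (a (nat_lit 0xfc18a05)) e
 (c (nat_lit 0x7e0ce7e0ce7e0ce7e0cb7e0c586265) e
 (c (nat_lit 0x7e9927e9927e9927e97c7e9764a565) e
 (c z e
 (c z e
 (c (a (nat_lit 0xfff9c07)) e
 (c z e
 (c (a (nat_lit 0x1012f607)) e
 (c z e
 (c (nat_lit 0x807518075180757807888078878c4b) e
 (c z e
 (c z e
 (c (nat_lit 0x8000080000800007fff780000bc00c) e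
 (c (nat_lit 0x800008000080000800007fff80a8ac) e e)))))))))))))))))))))))))))) Tr.c Tr.e (nat_lit 0) C.t5 C.t6
noncomputable def tt299 : Tr := beta% (fun (c : Nat → Tr → Tr → Tr) (e : Tr) (z : Nat) (a b d : Nat → Nat) =>
 (c (nat_lit 0x7effd7effa7effd7effd7effd62fe0)
 (c (b (nat_lit 0x11000003))
 (c (d (nat_lit 0xf8d0c07)) e
 (c (d (nat_lit 0x10f83e07)) e
 (c z e
 (c z e
 (c (nat_lit 0x80000800008000080000800007ff38800000720c) e e)))))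
 (c z e
 (c (nat_lit 0x7bc927bc8e7bc927bc927bc927bc92dfe04) e
 (c z e
 (c (b (nat_lit 0xfd42805)) e
 (c (nat_lit 0x7f0ca7f0ca7f0917f0787f0537f086bef05) e
 (c (b (nat_lit 0xffbc805)) e
 (c z e
 (c z e
 (c (nat_lit 0x83422834228337182e2c83422834223b587) e
 (c (nat_lit 0x8235782357822c0823578235782357c6e47) e
 (c z e
 (c z e
 (c z e
 (c (nat_lit 0x82cf582c6082cf582cf582cf582cf5c850c) e
 (c (nat_lit 0x8000080000800008122b8122b8122bdee0c) e e))))))))))))))))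
 (c (nat_lit 0x7f0017f0007f0007f0007f001b8d60)
 (c (nat_lit 0x8140481404813ee814048140481404f7cc4)
 (c (d (nat_lit 0x10b1040c)) e
 (c (d (nat_lit 0x10fff414)) e e))
 (c (nat_lit 0x81b1b81b1b81b0f81b0d81b1b81b1be2904)
 (c (nat_lit 0x80000800008000087ffb87ffb87ffb87ffb0e714) e e)
 (c z e
 (c z e
 (c z e
 (c z e
 (c z e
 (c (b (nat_lit 0x10ad7007)) e
 (c z e
 (c z e
 (c z e
 (c z e
 (c z e
 (c (nat_lit 0x83427834278342583427834278342703154) e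
 (c (nat_lit 0x800008000080000836498364d8364e23a54) e
 (c (nat_lit 0x80000800008000080000834b4834b441514) e e))))))))))))))))
 (c (nat_lit 0x7f0037f0027f0017f0027f00246a60)
 (c (nat_lit 0x7e52c7e52c7e5247e5167e52c7e52c5c445) e
 (c (nat_lit 0x7dff37dff37dff37dff37dfe47dff3bb945) e e))
 (c (nat_lit 0x7f0057f0047f0047f0047f0040cb60)
 (c z e
 (c z e
 (c z e
 (c z e
 (c z e
 (c z e
 (c z e
 (c (nat_lit 0x8000080000800007fcf480000800005fa8c) e e))))))))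
 (c (a (nat_lit 0xfdffe01))
 (c z e
 (c z e
 (c z e
 (c z e
 (c (b (nat_lit 0x104b4007)) e
 (c (b (nat_lit 0x105b820c)) e
 (c (nat_lit 0x800008000080000800007fdd58000058b4c) e e)))))))
 (c (a (nat_lit 0xfe00001))
 (c (nat_lit 0x8116481164811648100f80ff081164edb47) e
 (c z e
 (c z e
 (c (b (nat_lit 0x1026460c)) e
 (c (b (nat_lit 0x10223e0c)) e e)))))
 (c (a (nat_lit 0xfdfe201)) e
 (c z e
 (c (nat_lit 0x7e83f7e90e7e90e7e90e7e90ed98c2) e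
 (c (nat_lit 0x7e7447e4d27e7447e7447e744142e3) e
 (c (a (nat_lit 0xfdc6603)) e
 (c (a (nat_lit 0x102c0e03)) e
 (c (a (nat_lit 0x1059de03)) e
 (c (nat_lit 0x7f97e7f97b7f97e7f97e7f97e29f64) e
 (c (nat_lit 0x7ec027ec027ebf87ec007ec02219e4) e
 (c (a (nat_lit 0xfdefc05)) e
 (c (nat_lit 0x7e0f57e0f57e0f57e0f57e0f0c7da5) e
 (c (nat_lit 0x7ffa97ffa97ffa97ffa97ff1841565) e
 (c z e
 (c (a (nat_lit 0xfd89806)) e
 (c (nat_lit 0x7ec7f7ec7f7ec7d7ec7f7ec7f68587) e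
 (c (a (nat_lit 0xfea0807)) e
 (c (nat_lit 0x800008000080000800007ff5a42d07) e
 (c z e
 (c (nat_lit 0x8000080000800007ff78800005762c) e
 (c (nat_lit 0x80000800007ffff8000080000ee22c) e
 (c (nat_lit 0x8000080000800007fff380000cbbec) e
 (c (nat_lit 0x800008000080000800007fffb52a2c) e e))))))))))))))))))))))))))))) Tr.c Tr.e (nat_lit 0) C.t5 C.t6 C.t7
noncomputable def tt300 : Tr := beta% (fun (c : Nat → Tr → Tr → Tr) (e : Tr) (z : Nat) (a b d : Nat → Nat) =>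
 (c (a (nat_lit 0x101ffe00)) tt299
 (c (a (nat_lit 0x10200000)) tt298
 (c (a (nat_lit 0x101ffe00)) tt297
 (c (a (nat_lit 0x101ffe00))
 (c (nat_lit 0x7f7fa7f83d7f83d7f83d7f83d41a81) e
 (c z e
 (c z e
 (c z e
 (c z e
 (c z e
 (c z e
 (c (b (nat_lit 0x102d1004)) e
 (c z e
 (c (nat_lit 0x7db6f7db457db6f7db6f7db6176605) e
 (c (nat_lit 0x7deda7deda7ded07deda7dedad1c25) e
 (c (b (nat_lit 0xfca2e05)) e
 (c (b (nat_lit 0xfe66c05)) e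
 (c (b (nat_lit 0xfc2d606)) e
 (c (b (nat_lit 0xfe45c07)) e
 (c (b (nat_lit 0xfef5607)) e
 (c z e
 (c (nat_lit 0x7ea737ea737e9227ea737ea735eae7) e
 (c (nat_lit 0x80000800007ffe97fe6080000bea8b) e
 (c z e
 (c (nat_lit 0x800007ff987ffd980000800003810b) e e)))))))))))))))))))))
 (c (a (nat_lit 0x10200000))
 (c (b (nat_lit 0xfc0fe02))
 (c z e
 (c (d (nat_lit 0x102b4022)) e e))
 (c (nat_lit 0x7ea6d7ea147ea6d7ea6d7ea6d80d43) e
 (c z e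
 (c z e
 (c z e
 (c z e
 (c (b (nat_lit 0xff95204)) e
 (c z e
 (c z e
 (c z e
 (c (b (nat_lit 0xfa1bc05)) e
 (c (b (nat_lit 0xfa6e806)) e
 (c (nat_lit 0x7d3e47d3e47d3cf7d3e47d3e4a0687) e
 (c (b (nat_lit 0xffaba07)) e e))))))))))))))
 (c (a (nat_lit 0x101ffe00))
 (c (b (nat_lit 0xfeac203)) e
 (c z e
 (c z e
 (c (nat_lit 0x7f80b7f7f17f7f17f80b7f80b00a44) e
 (c (b (nat_lit 0xfe6d404)) e
 (c (b (nat_lit 0xfdf8005)) e
 (c z e
 (c z e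
 (c (b (nat_lit 0xfbf8805)) e
 (c (nat_lit 0x7e8d37e8c97e8d37e8d37e8d320666) e
 (c (nat_lit 0x7ef147ef147eecd7ef147ef142c4c7) e
 (c (b (nat_lit 0x10028407)) e
 (c z e
 (c z e
 (c (nat_lit 0x7fbef7fbef7fbef7fc517fc5178faa) e e)))))))))))))))
 (c (a (nat_lit 0x101ffe00))
 (c z e
 (c (nat_lit 0x7f3c37f3c17f3b77f3ca7f3cab0904) e
 (c (nat_lit 0x7ede47edc67edc67ede47ede4b9444) e
 (c (nat_lit 0x7e4e27e4be7e4987e4ac7e4e2055a5) e
 (c z e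
 (c z e
 (c z e
 (c (b (nat_lit 0xfd1ba06)) e
 (c (b (nat_lit 0xfd76407)) e
 (c (b (nat_lit 0xff4a407)) e
 (c (b (nat_lit 0xffea807)) e
 (c (b (nat_lit 0xff09207)) e
 (c (b (nat_lit 0xffef009)) e
 (c (nat_lit 0x7fffe7fff37fff37fff380000d114a) e e))))))))))))))
 (c (a (nat_lit 0x10200000))
 (c (nat_lit 0x7f25b7f25b7f25b7f2577f25b5b784) e
 (c (nat_lit 0x7e7e77e7e77e7d67e7cf7e7e7197e5) e
 (c (nat_lit 0x7e3ee7e3ee7e3ee7e3e87e3ed8bb65) e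
 (c (b (nat_lit 0xfbb2c05)) e
 (c z e
 (c (nat_lit 0x7e72d7e7ee7e7ee7e7ee7e7ee545a6) e
 (c (nat_lit 0x7e6a27e6a27e6797e6a27e6a214c27) e
 (c (nat_lit 0x7f1547f1547f1547f12c7f154d5587) e
 (c (b (nat_lit 0xfffd207)) e
 (c (nat_lit 0x7fcbf7fc967fcbf7fcbf7fcbfb3447) e e))))))))))
 (c (a (nat_lit 0x10200000))
 (c (b (nat_lit 0xfce9005)) e
 (c (nat_lit 0x7ef2c7ef2c7ed627ed627ef2cd77a5) e
 (c (nat_lit 0x7fea87fea87fea87fea87fdeab7b65) e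
 (c z e
 (c (b (nat_lit 0xfd86e07)) e
 (c (nat_lit 0x7f28a7f28a7f2497f2887f28a305e7) e
 (c z e
 (c z e
 (c (b (nat_lit 0xfe28809)) e
 (c (b (nat_lit 0xffa5c09)) e
 (c (b (nat_lit 0xfff3209)) e e)))))))))))
 (c (nat_lit 0x80ffd80ffe80ffe80ffd66a90)
 (c z e
 (c (b (nat_lit 0xfa71006)) e
 (c (nat_lit 0x800007fdc07fdc07fdc0800004a747) e
 (c z e
 (c (b (nat_lit 0x100f3a07)) e
 (c (b (nat_lit 0x100ff207)) e
 (c (nat_lit 0x80000800007f9297f9297f9296a288) e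
 (c (nat_lit 0x8000080000800007f9667f96840fa8) e e))))))))
 (c (a (nat_lit 0x101ffe00))
 (c (nat_lit 0x800007fbfa7fbfa800008000087b27) e
 (c z e
 (c z e
 (c (nat_lit 0x7f77d7f86f7f86f7f86f7f86f3f3e7) e
 (c (b (nat_lit 0xff31008)) e
 (c (nat_lit 0x80000800007fe017fe017fe0126368) e
 (c (nat_lit 0x8000080000800007ffdf7ffd54d348) e e)))))))
 (c (a (nat_lit 0x101ffe00))
 (c z e
 (c (nat_lit 0x78e5778dc978e6378e6378e63bd0e7) e
 (c (nat_lit 0x814a1814a181445814a1814a154308) e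
 (c z e
 (c (nat_lit 0x80000800007fd8d7fd877fd8d3c1c8) e
 (c (nat_lit 0x8000080000800007fd3c7fd2fad448) e
 (c (nat_lit 0x800008000080000800007fef740d68) e e)))))))
 (c (nat_lit 0x81001810008100081000b45f0)
 (c (nat_lit 0x782a4782a478288782a4782a426ba8) e
 (c (b (nat_lit 0xfce9208)) e
 (c (nat_lit 0x7f3bb7f3bb7f3ba7f3bb7f3bb2d9c8) e
 (c (nat_lit 0x80000800007efd77efcd7efcde25a8) e
 (c (nat_lit 0x8000080000800007efc37efc259468) e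
 (c (nat_lit 0x800008000080000800007feef68ec8) e e))))))
 (c (nat_lit 0x80fff8100081000810003fa70) e
 (c (a (nat_lit 0x10200200)) e
 (c (a (nat_lit 0x101ffe01)) e
 (c (nat_lit 0x8100080fff8100080fffe3061) e
 (c (a (nat_lit 0x1001d001)) e
 (c (a (nat_lit 0x1002fe01)) e
 (c (a (nat_lit 0x10254202)) e
 (c (nat_lit 0x812b8812b7812b7812b738f03) e
 (c (nat_lit 0x81087810868108781087cebc3) e
 (c (a (nat_lit 0x100e3003)) e
 (c (nat_lit 0x80fdb80fdc80fdb80fdb7c7f3) e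
 (c (nat_lit 0x80f7f80f7e80f8080f80f8774) e
 (c (nat_lit 0x80f8980f8880f8880f8872d74) e
 (c (nat_lit 0x80f9180f9180f9080f9004485) e
 (c (a (nat_lit 0x101f2005)) e
 (c (nat_lit 0x7f6447f8a87f8ab7f8a8531a5) e
 (c (nat_lit 0x7ee207ee207ee217ee2101fb5) e
 (c (nat_lit 0x807bc807c2807c2807c1cd656) e
 (c (nat_lit 0x801c9801c9801ca801ce05597) e
 (c z e
 (c (a (nat_lit 0xffeda07)) e
 (c (a (nat_lit 0x10054e07)) e e)))))))))))))))))))))))))))))))))))) Tr.c Tr.e (nat_lit 0) C.t4 C.t5 C.t6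
noncomputable def tt301 : Tr := beta% (fun (c : Nat → Tr → Tr → Tr) (e : Tr) (z : Nat) (a b d : Nat → Nat) =>
 (c (a (nat_lit 0x101ffa00))
 (c (b (nat_lit 0xff07401))
 (c (nat_lit 0x7efad7efad7ef907efad7efad7efadf0807) e
 (c z e
 (c z e
 (c (d (nat_lit 0xfbabe07)) e
 (c (d (nat_lit 0xfde8e0b)) e
 (c (d (nat_lit 0xfe9120b)) e
 (c (d (nat_lit 0xfffa00b)) e e)))))))
 (c (nat_lit 0x7ef867f0047f0047f0047f004abf41) e
 (c z e
 (c z e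
 (c (b (nat_lit 0xfdd5e03)) e
 (c (b (nat_lit 0xfde1c03)) e
 (c z e
 (c (b (nat_lit 0x104e5603)) e
 (c (b (nat_lit 0x106eea04)) e
 (c z e
 (c (nat_lit 0x7dd7c7dd7c7dd707dd787dd7c11f25) e
 (c (b (nat_lit 0xfbf4805)) e
 (c (b (nat_lit 0xfda0805)) e
 (c (b (nat_lit 0xfc15806)) e
 (c (b (nat_lit 0xfc1e007)) e
 (c (b (nat_lit 0xfd54c07)) e
 (c z e
 (c (nat_lit 0x7ff717ffc57ffc5800008000027f87) e
 (c (nat_lit 0x7e7987e7987e7827e7987e798dff2b) e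
 (c (b (nat_lit 0xfd11e0b)) e
 (c (nat_lit 0x7fff07fff07fea97fea97fea9b4b6b) e
 (c (b (nat_lit 0xff7ea0b)) e
 (c (nat_lit 0x800008000080000800007f8b16cc6b) e e)))))))))))))))))))))))
 (c (a (nat_lit 0x101ffc00))
 (c (nat_lit 0x7f0167f0167f0167f0167f00a903a1) e
 (c (b (nat_lit 0xfc8f402))
 (c z e
 (c (d (nat_lit 0x102d7222)) e e))
 (c z e
 (c z e
 (c z e
 (c z e
 (c (b (nat_lit 0x1030ea04)) e
 (c z e
 (c z e
 (c (b (nat_lit 0xfd67005)) e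
 (c (b (nat_lit 0xfcd5605)) e
 (c (b (nat_lit 0xfa7ee06)) e
 (c (nat_lit 0x7ef877ef877ef807ef877ef87d66a7) e
 (c (b (nat_lit 0xfde9e07)) e
 (c (nat_lit 0x80c6580c6580c3780c1980c19a7387) e
 (c (b (nat_lit 0x100d6a07)) e
 (c (nat_lit 0x7fce97fcd37fce97fce97fce9bf8aa) e e)))))))))))))))))
 (c (a (nat_lit 0x101ffe00))
 (c (nat_lit 0x7eaa47ea897eaa47eaa47eaa4c6fa3) e
 (c (nat_lit 0x7f9767f9767f8bb7f9767f9762d763) e
 (c z e
 (c (b (nat_lit 0x1013be03)) e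
 (c (b (nat_lit 0xfeb3c04)) e
 (c (nat_lit 0x806398061380613806398063938465) e
 (c z e
 (c z e
 (c (b (nat_lit 0xfff5e05)) e
 (c (nat_lit 0x7e9077e8f37e9077e9077e907aeea6) e
 (c (nat_lit 0x7ee8a7ee8a7ee6f7ee8a7ee8ac5ec7) e
 (c z e
 (c z e
 (c z e
 (c (nat_lit 0x7ff0f7ff0f8000080000800004a629) e
 (c (b (nat_lit 0xffd7a0a)) e e))))))))))))))))
 (c (a (nat_lit 0x101ff800))
 (c z e
 (c z e
 (c (b (nat_lit 0xfedb404)) e
 (c (b (nat_lit 0xfd32005)) e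
 (c (nat_lit 0x8000080000800007ffe37ffe3d2a04) e
 (c z e
 (c z e
 (c (nat_lit 0x7ed887ed6b7ed877ed887ed8840b46) e
 (c (nat_lit 0x7fd677fd677fd5c7fd677fd67fde67) e
 (c (b (nat_lit 0xff64e07)) e
 (c z e
 (c z e
 (c (b (nat_lit 0xffaa809)) e
 (c z e
 (c (b (nat_lit 0xffbc60a)) e e)))))))))))))))
 (c (a (nat_lit 0x101ff800))
 (c (nat_lit 0x7f13c7f1377f12b7f13c7f13c927a4) e
 (c (b (nat_lit 0xfdf5805)) e
 (c (b (nat_lit 0xfcc8005)) e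
 (c z e
 (c z e
 (c (b (nat_lit 0xfcb8406)) e
 (c (nat_lit 0x7f0c57f0c57f0b67f0c57f0c5c8a47) e
 (c z e
 (c z e
 (c z e
 (c (nat_lit 0x7fa217fa217fa177fa217fa2109ce9) e
 (c (b (nat_lit 0xff94609)) e
 (c (b (nat_lit 0xffd5409)) e
 (c (nat_lit 0x800007ffe7800008000080000fddca) e e))))))))))))))
 (c (a (nat_lit 0x101ff400))
 (c (b (nat_lit 0xfce8e05)) e
 (c (b (nat_lit 0xff7fc05)) e
 (c z e
 (c (b (nat_lit 0xfe33406)) e
 (c (b (nat_lit 0xfd35607)) e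
 (c (nat_lit 0x7fda27fda27fa337fda27fda2e9de7) e
 (c z e
 (c (b (nat_lit 0x10147a07)) e
 (c (nat_lit 0x7f8047f7ef7f7e67f8047f804d36a9) e
 (c (nat_lit 0x7f7f47f7f47f7f47f7ec7f7f439ca9) e
 (c (b (nat_lit 0xff36e09)) e
 (c (nat_lit 0x7fdfe7fdfe7fdfe7fdfe7fd79a2ec9) e e))))))))))))
 (c (a (nat_lit 0x10200000))
 (c z e
 (c (b (nat_lit 0xfaf6606)) e
 (c z e
 (c z e
 (c z e
 (c z e
 (c (nat_lit 0x7f4677f45f7f4677f4677f46777668) e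
 (c (nat_lit 0x80000800007f81a7f81a7f81aafb48) e
 (c (nat_lit 0x8000080000800007f9987f997cbfa8) e e)))))))))
 (c (a (nat_lit 0x101ffc00))
 (c (b (nat_lit 0xfc33207)) e
 (c z e
 (c (b (nat_lit 0x1028ee07)) e
 (c (nat_lit 0x7fb6e7fab47fabf7fb6e7fb6e16727) e
 (c (b (nat_lit 0xfddbe08)) e
 (c (b (nat_lit 0xfe13408)) e
 (c (nat_lit 0x80000800007f67c7f6757f67ce89e8) e
 (c (nat_lit 0x8000080000800007f8547f84102e68) e
 (c (nat_lit 0x800008000080000800007f86a697e8) e e)))))))))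
 (c (a (nat_lit 0x101ffe00))
 (c z e
 (c z e
 (c (nat_lit 0x80b4880b4880b3680b4880b485eb28) e
 (c (nat_lit 0x7e03e7e03e7e03b7e03e7e03ef1d48) e
 (c (nat_lit 0x7f2327f22c7f22f7f2327f232903e8) e
 (c (nat_lit 0x80000800007efd77efd77efd77e8c8) e
 (c (nat_lit 0x8000080000800007efc17efc3c0ee8) e
 (c (nat_lit 0x800008000080000800007f549c4988) e e))))))))
 (c (nat_lit 0x8100080fff80fff80ffff6c60)
 (c (nat_lit 0x76df676df676dd976df676df6c3368) e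
 (c (b (nat_lit 0xfbde408)) e
 (c (nat_lit 0x7edc77ede57edec7edec7edece14a8) e
 (c (nat_lit 0x7efe07efc17efdf7efe07efe0ae228) e
 (c (nat_lit 0x80000800007ef997efa57efa5e40c8) e
 (c (nat_lit 0x8000080000800007ef807ef85e9228) e
 (c (nat_lit 0x800008000080000800007f50b05608) e e)))))))
 (c (a (nat_lit 0x101ffc00)) e
 (c (nat_lit 0x8100081001810018100028840) e
 (c (a (nat_lit 0x10200000)) e
 (c (a (nat_lit 0x101ffc01)) e
 (c (nat_lit 0x8100081001810018100180281) e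
 (c (a (nat_lit 0x1014e001)) e
 (c (nat_lit 0x800bd800be800be800be5e141) e
 (c (a (nat_lit 0x10236802)) e
 (c (nat_lit 0x811a6811a7811a6811a6ab8a3) e
 (c (nat_lit 0x81186811858118681186e77d3) e
 (c (nat_lit 0x802a5802a4802a4802a42ac83) e
 (c (nat_lit 0x80aa880aa880aa880aa909fb3) e
 (c (nat_lit 0x80e1280e1180e1480e14e1514) e
 (c (a (nat_lit 0x101c2c05)) e
 (c (nat_lit 0x80e1880e1a80e1580e199e2e5) e
 (c (nat_lit 0x7fefa7fefb7fefa7fefa2c4a5) e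
 (c (nat_lit 0x8027c8027c8027d8027f682f5) e
 (c (nat_lit 0x807648076580766807667fec6) e
 (c (nat_lit 0x805c9805c9805ca805ca572d7) e
 (c (a (nat_lit 0x1001e407)) e
 (c (a (nat_lit 0xfffd407)) e
 (c (a (nat_lit 0x100fc807)) e e))))))))))))))))))))))))))))))))) Tr.c Tr.e (nat_lit 0) C.t4 C.t5 C.t6
noncomputable def tt302 : Tr := beta% (fun (c : Nat → Tr → Tr → Tr) (e : Tr) (z : Nat) (a b d : Nat → Nat) =>
 (c (a (nat_lit 0xfe00200))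
 (c (nat_lit 0x800007fffd800008000080000800000b2c4)
 (c z e
 (c (d (nat_lit 0x11000044)) e e))
 (c (b (nat_lit 0xfe90c05))
 (c (nat_lit 0x800008000080000880008800088000880007ac24) e e)
 (c z e
 (c z e
 (c z e
 (c z e
 (c z e
 (c z e
 (c z e
 (c z e
 (c z e
 (c z e
 (c (b (nat_lit 0x1095ba0c)) e
 (c (nat_lit 0x800008000080000861f4861f4861f4cc6cc) e
 (c (nat_lit 0x800008000080000800008389883898e060c) e e)))))))))))))))
 (c (a (nat_lit 0xfe00000))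
 (c (b (nat_lit 0xfe32805))
 (c (nat_lit 0x8000080000800008000087ea787f5387f537c714) e e)
 (c z e
 (c z e
 (c z e
 (c z e
 (c z e
 (c z e
 (c z e
 (c z e
 (c z e
 (c z e
 (c (nat_lit 0x84d6284d5984d6284d6284d6284d62af7d4) e
 (c (nat_lit 0x80000800008000083eb683eb683eb69f154) e
 (c (nat_lit 0x8000080000800008000083aa783a9d6bf54) e e))))))))))))))
 (c (a (nat_lit 0xfe00e00)) e
 (c (a (nat_lit 0xfe00e01)) e
 (c (a (nat_lit 0xfdff601)) e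
 (c (a (nat_lit 0xfe00a01)) e
 (c (a (nat_lit 0xfe2f801)) e
 (c z e
 (c z e
 (c z e
 (c z e
 (c z e
 (c (nat_lit 0x7e8a27e8a17e8a37e8a77e8a79c264) e
 (c (nat_lit 0x7e48d7e48d7e4867e48a7e48d268c5) e
 (c (nat_lit 0x7e2247e2247e2247e2217e22407445) e
 (c (nat_lit 0x7eae57eae57eae57eada7eadc4b2e5) e
 (c z e
 (c (a (nat_lit 0xff89406)) e
 (c z e
 (c z e
 (c z e
 (c z e
 (c z e
 (c (a (nat_lit 0xff6d00b)) e
 (c (nat_lit 0x800007fff97fffe8000080000ead0c) e e)))))))))))))))))))))))))) Tr.c Tr.e (nat_lit 0) C.t5 C.t6 C.t7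
noncomputable def tt303 : Tr := beta% (fun (c : Nat → Tr → Tr → Tr) (e : Tr) (z : Nat) (a b d : Nat → Nat) =>
 (c (a (nat_lit 0xfe00000))
 (c (nat_lit 0x80000800007fa2e80000800008000063603)
 (c (d (nat_lit 0x10e61807)) e
 (c z e
 (c z e
 (c (d (nat_lit 0x1100000c)) e e))))
 (c z e
 (c z e
 (c (nat_lit 0x83ddd83dcf83dba83ddd83ddd83dddea9c4) e
 (c (nat_lit 0x84d2b84cf484cd984cc184d2b84d2beab05) e
 (c (b (nat_lit 0xff30205)) e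
 (c (b (nat_lit 0xfb27805)) e
 (c z e
 (c (b (nat_lit 0x10114006)) e
 (c z e
 (c (b (nat_lit 0x1033ca07)) e
 (c (b (nat_lit 0x1039c807)) e
 (c z e
 (c z e
 (c (b (nat_lit 0xffcaa0c)) e
 (c (nat_lit 0x824568245682430824568245682456e2c98) e
 (c (nat_lit 0x800008000080000821ef821ef821ef5e058) e e)))))))))))))))))
 (c (a (nat_lit 0xfe00600))
 (c z e
 (c z e
 (c z e
 (c z e
 (c z e
 (c z e
 (c z e
 (c z e
 (c z e
 (c z e
 (c z e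
 (c z e
 (c z e
 (c (nat_lit 0x81f4d81f4281f4d81f4d81f4d81f4d035d4) e
 (c (nat_lit 0x8324f8324f832458324f8324f8324f9ca98) e
 (c (nat_lit 0x8000080000800008273f8274c8274ccba58) e
 (c (nat_lit 0x800008000080000800008099e8099eb0d98) e
 (c (nat_lit 0x80000800008000080000800007f650ae48d) e e))))))))))))))))))
 (c (a (nat_lit 0xfe00400))
 (c (nat_lit 0x7ec4c7ec4c7ec457ec347ec4c7ec4ca3105) e
 (c z e
 (c z e
 (c z e
 (c z e
 (c z e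
 (c z e
 (c z e
 (c z e
 (c z e
 (c z e
 (c z e
 (c (nat_lit 0x820018200181fed820018200182001be9d4) e
 (c (nat_lit 0x8000080000800008220c8220c8220ce3c14) e e))))))))))))))
 (c (a (nat_lit 0xfe00c00)) e
 (c (a (nat_lit 0xfe00600))
 (c z e
 (c (nat_lit 0x800007fea780000800008000080000dd007) e
 (c z e
 (c z e
 (c z e
 (c z e
 (c (nat_lit 0x8123d8123d8123b812008123d8123defe4c) e e)))))))
 (c (a (nat_lit 0xfe00001))
 (c (nat_lit 0x80000800007ffd480000800008000030e47) e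
 (c (b (nat_lit 0x102bce07)) e
 (c z e
 (c z e
 (c (nat_lit 0x821f5821f5821f5821f58207f820a65e7cc) e
 (c (nat_lit 0x80000800008131b8131b8131b8131b1e0e0) e
 (c z e
 (c (nat_lit 0x8000080000800007fe1f7fe1f800005c920) e e))))))))
 (c (a (nat_lit 0xfe00601)) e
 (c (nat_lit 0x7f00e7f00e7f00e7f0067f007fa841) e
 (c z e
 (c (nat_lit 0x7e64f7e6fa7e6fa7e6fa7e6fa1d4c2) e
 (c (a (nat_lit 0xfb6ca03)) e
 (c z e
 (c z e
 (c z e
 (c (a (nat_lit 0xff84e04)) e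
 (c (nat_lit 0x7eb097eb097eb057eaf77eb09d2c05) e
 (c (nat_lit 0x7f7797f7797f7797f7727f779cca85) e
 (c (nat_lit 0x7f1e07f1e07f1e07f19b7f1911bd85) e
 (c z e
 (c (a (nat_lit 0xff34a06)) e
 (c (a (nat_lit 0xfd44407)) e
 (c z e
 (c (a (nat_lit 0x1009d607)) e
 (c (a (nat_lit 0x100f3007)) e
 (c z e
 (c z e
 (c z e
 (c (nat_lit 0x800008000080000800007fff0df98c) e e))))))))))))))))))))))))))))) Tr.c Tr.e (nat_lit 0) C.t5 C.t6 C.t7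
noncomputable def tt304 : Tr := beta% (fun (c : Nat → Tr → Tr → Tr) (e : Tr) (z : Nat) (a b d : Nat → Nat) =>
 (c (a (nat_lit 0xfdfe800))
 (c (b (nat_lit 0xfe28801))
 (c (nat_lit 0x8000080000800007ffcd8000080000800001f505) e
 (c (d (nat_lit 0x10e0da06)) e
 (c (d (nat_lit 0x10e41007)) e
 (c (d (nat_lit 0x11000007)) e
 (c (d (nat_lit 0x1087fa07)) e
 (c (d (nat_lit 0x10de8607)) e
 (c (d (nat_lit 0x1095a00c)) e e)))))))
 (c (b (nat_lit 0xfa0a602))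
 (c (d (nat_lit 0x10fffe07)) e
 (c (d (nat_lit 0x10fffe07)) e
 (c z e
 (c z e
 (c z e
 (c (d (nat_lit 0xffee824)) e
 (c z e
 (c (d (nat_lit 0x105d3842)) e e))))))))
 (c z e
 (c z
 (c (d (nat_lit 0x1100000c)) e e)
 (c z e
 (c z e
 (c (nat_lit 0x7fbb87fbb37fbb27fbb87fbb87fbb82e904) e
 (c z e
 (c (b (nat_lit 0xff4de05)) e
 (c (b (nat_lit 0xfe4d005)) e
 (c (b (nat_lit 0x10350a05)) e
 (c (b (nat_lit 0x1068a806)) e
 (c (nat_lit 0x80000800007ff677ff6780000800001bb07) e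
 (c z e
 (c z e
 (c z e
 (c (b (nat_lit 0x1028de0c)) e e)))))))))))))))))
 (c (a (nat_lit 0xfe00a00))
 (c (b (nat_lit 0xfab8603))
 (c (d (nat_lit 0x11000007)) e
 (c (d (nat_lit 0x10b91807)) e
 (c z e
 (c (d (nat_lit 0x10f2340c)) e
 (c (d (nat_lit 0x108d8414)) e e)))))
 (c (nat_lit 0x7c57e7c57e7c57e7c5777c5777c57e24f43) e
 (c z e
 (c z e
 (c (nat_lit 0x82134821348211a8213482134821347a944) e
 (c (nat_lit 0x81fa781fa781f9981f8081fa781fa74c405) e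
 (c z e
 (c z e
 (c z e
 (c z e
 (c (b (nat_lit 0x103d3407)) e
 (c (b (nat_lit 0x10572007)) e
 (c (b (nat_lit 0x10c07207)) e
 (c (b (nat_lit 0x101da007)) e
 (c z e
 (c (b (nat_lit 0x10834814)) e
 (c (nat_lit 0x800008000080000825848258482584e1354) e
 (c (nat_lit 0x80000800008000080000819c3819c3493cd) e e))))))))))))))))))
 (c (a (nat_lit 0xfe00800))
 (c z e
 (c z e
 (c z e
 (c z e
 (c z e
 (c z e
 (c z e
 (c z e
 (c z e
 (c z e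
 (c z e
 (c z e
 (c z e
 (c z e
 (c (b (nat_lit 0x1069dc14)) e
 (c (nat_lit 0x800008000080000839b4839b4839b420714) e e))))))))))))))))
 (c (nat_lit 0x7f0047f0037f0037f0037f003a9f60)
 (c (nat_lit 0x7f23f7f2327f2357f23f7f23f7f23f7ee04) e
 (c (nat_lit 0x826e8826e8826dd826da826e8826e889345) e
 (c z e
 (c z e
 (c (b (nat_lit 0x10308005)) e
 (c z e
 (c (b (nat_lit 0x107b7c07)) e
 (c z e
 (c z e
 (c z e
 (c z e
 (c z e
 (c (b (nat_lit 0x10745013)) e e)))))))))))))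
 (c (a (nat_lit 0xfe01200))
 (c (b (nat_lit 0x10374005)) e
 (c z e
 (c z e
 (c z e
 (c (nat_lit 0x82b0d82b0d82abc82ab682b0d82b0dbaf87) e
 (c (b (nat_lit 0x10379e07)) e
 (c (b (nat_lit 0x10214a07)) e
 (c z e
 (c z e
 (c (nat_lit 0x7e0787e0787e0787e0287e0787e0781c9d3) e
 (c (b (nat_lit 0x100fc413)) e
 (c (b (nat_lit 0x10648413)) e e))))))))))))
 (c (nat_lit 0x7f0087f0087f0087f0087f00950720)
 (c z e
 (c (nat_lit 0x800007fffa8000080000800008000069686) e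
 (c z e
 (c z e
 (c z e
 (c z e
 (c (nat_lit 0x800007fe87800008000080000800006b5cc) e e)))))))
 (c (a (nat_lit 0xfdffe00))
 (c z e
 (c (nat_lit 0x804f9804f9804f9804b6804f9804f9b0b47) e
 (c z e
 (c z e
 (c (b (nat_lit 0x1030740c)) e
 (c (b (nat_lit 0x102a2212)) e e))))))
 (c (a (nat_lit 0xfe01801))
 (c z e
 (c z e
 (c (nat_lit 0x8000080000800007faa8800008000083ecc) e
 (c (b (nat_lit 0x10231e11)) e e))))
 (c (nat_lit 0x7f0107f0107f00d7f00e7f00f2e101)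
 (c (nat_lit 0x80df180df180df180b8380df180df13734c) e
 (c (nat_lit 0x80cc080cc080cc080cc080c8880cc0f5e11) e
 (c (nat_lit 0x815ca815ca815ca8159481594815ca69011) e e)))
 (c (nat_lit 0x7f0437f0437f0437f0167f0164dba1)
 (c (b (nat_lit 0x101df811)) e e)
 (c (nat_lit 0x7f00c7f00c7f00c7f00c7f000870a1) e
 (c (a (nat_lit 0xfc24802)) e
 (c (a (nat_lit 0xfb82003)) e
 (c (nat_lit 0x80000800007fe818000080000ee823) e
 (c (a (nat_lit 0x10261203)) e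
 (c (a (nat_lit 0x101d3e03)) e
 (c (nat_lit 0x7ed837ed6e7ed6c7ed967ed9679fc4) e
 (c (nat_lit 0x7dfae7dfae7dfab7dfae7dfaed8225) e
 (c (a (nat_lit 0xfc97405)) e
 (c (a (nat_lit 0xfddd805)) e
 (c z e
 (c (nat_lit 0x7ee267ee237ee127ee2f7ee2f5a6c6) e
 (c (nat_lit 0x7ee6b7ee6b7ee647ee6b7ee6bdfda7) e
 (c (nat_lit 0x8000080000800007ffe97fff0ed507) e
 (c (a (nat_lit 0x10101207)) e
 (c z e
 (c (nat_lit 0x800007fffe80000800008000047b0c) e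
 (c z e
 (c (nat_lit 0x8000080000800007ffff800009abed) e e)))))))))))))))))))))))))))))) Tr.c Tr.e (nat_lit 0) C.t5 C.t6 C.t7
noncomputable def tt305 : Tr := beta% (fun (c : Nat → Tr → Tr → Tr) (e : Tr) (z : Nat) (a b d : Nat → Nat) =>
 (c (a (nat_lit 0x101ffa00)) tt304
 (c (a (nat_lit 0x101ffc00)) tt303
 (c (a (nat_lit 0x101ffc00)) tt302
 (c (a (nat_lit 0x101ffe00))
 (c (b (nat_lit 0xfed0600))
 (c (d (nat_lit 0xfcd1205)) e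
 (c z e
 (c z e
 (c z e
 (c (nat_lit 0x8000080000800007feed7feed80000578c7) e
 (c z e
 (c z e
 (c z e
 (c z e
 (c z e
 (c (d (nat_lit 0x107d820c)) e
 (c (nat_lit 0x80000800008000085052850528505294a8c) e
 (c (nat_lit 0x8000080000800008000083330833320e9cc) e e)))))))))))))
 (c (b (nat_lit 0xfe00801))
 (c (nat_lit 0x7e4b07e4b07e1087e4b07e4b07e4b037506) e
 (c (d (nat_lit 0xfbd9007)) e
 (c z e
 (c z e
 (c z e
 (c (nat_lit 0x80000800007fd6a7fcdf80000800008898b) e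
 (c (d (nat_lit 0xffd160b)) e e)))))))
 (c (b (nat_lit 0xfe00601)) e
 (c (b (nat_lit 0xfdff001))
 (c z e
 (c z e
 (c z e
 (c (d (nat_lit 0xfff680b)) e e))))
 (c (b (nat_lit 0xfa7de01)) e
 (c (nat_lit 0x7ee277ee277ee3d7ee4b7ee4bbfdc2) e
 (c (b (nat_lit 0xfaa1003)) e
 (c z e
 (c z e
 (c z e
 (c (b (nat_lit 0xfe77604)) e
 (c (b (nat_lit 0xfc41c05)) e
 (c (b (nat_lit 0xfc50e05)) e
 (c (b (nat_lit 0xfc9ca05)) e
 (c (b (nat_lit 0xfddbe05)) e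
 (c (b (nat_lit 0xfd02a06)) e
 (c (b (nat_lit 0xfdba207)) e
 (c z e
 (c z e
 (c (nat_lit 0x7f7387f6ec7f6f07f7387f738cb0e7) e
 (c (b (nat_lit 0xff3540b)) e
 (c z e
 (c (nat_lit 0x7fa807fa807fa807fa287fa0f203eb) e
 (c (nat_lit 0x800007ffd8800008000080000796ac) e e)))))))))))))))))))))))) tt301))))) Tr.c Tr.e (nat_lit 0) C.t4 C.t5 C.t6
noncomputable def tt306 : Tr := beta% (fun (c : Nat → Tr → Tr → Tr) (e : Tr) (z : Nat) (a b d : Nat → Nat) =>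
 (c (nat_lit 0x80fff80fff80fff810006e4b0)
 (c (b (nat_lit 0xfdff201)) e
 (c z e
 (c z e
 (c z e
 (c z e
 (c z e
 (c z e
 (c (nat_lit 0x800007ffee7ff0e7ff0e800008b3c5) e
 (c (b (nat_lit 0xfe61205)) e
 (c z e
 (c z e
 (c (nat_lit 0x7d6f37d6f37d6f17d6f37d6f304e26) e
 (c (b (nat_lit 0xff35007)) e
 (c (b (nat_lit 0xfe65007)) e
 (c (b (nat_lit 0x1009ae07)) e
 (c (nat_lit 0x7f5817f5817f5817f5817f558200a7) e
 (c (b (nat_lit 0xff45609)) e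
 (c (nat_lit 0x7ffea7fff27fff680000800004b4aa) e e))))))))))))))))))
 (c (a (nat_lit 0x101ff800))
 (c (b (nat_lit 0xfd3fa02))
 (c (d (nat_lit 0x101f020a)) e
 (c (d (nat_lit 0x10317622)) e e))
 (c (nat_lit 0x7eb9c7eb487eb9c7eb9c7eb9c6c463) e
 (c (b (nat_lit 0xff3e803)) e
 (c (nat_lit 0x80000800007fde87fde87fde842f43) e
 (c (nat_lit 0x80000800007ff547ff5480000f8d83) e
 (c z e
 (c z e
 (c z e
 (c (b (nat_lit 0xff56405)) e
 (c (nat_lit 0x7ec0b7ec0b7ebf77ec0b7ec0b4b206) e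
 (c (nat_lit 0x7f1db7f1db7f1db7f1c17f1db8d147) e
 (c (nat_lit 0x8000080000800007fffb8000078ac7) e
 (c (b (nat_lit 0x1001c207)) e
 (c (b (nat_lit 0xff25207)) e
 (c (nat_lit 0x7fd4e7fd4e7fd067fd4e7fd4ed3c69) e
 (c (nat_lit 0x7fd837fda97fda97fda97fda9864e9) e
 (c (nat_lit 0x7fdbd7fdbd7fdcd7fdd17fdd11332a) e e)))))))))))))))))
 (c (a (nat_lit 0x101ffe00))
 (c (b (nat_lit 0xfd7dc03)) e
 (c z e
 (c z e
 (c (b (nat_lit 0xfe65805)) e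
 (c (b (nat_lit 0xfeea405)) e
 (c (b (nat_lit 0xffe8005)) e
 (c z e
 (c (nat_lit 0x7f04c7f0357f01c7f04c7f04cd6d06) e
 (c (nat_lit 0x7f1c47f1c47f1b67f1c47f1c4f2d67) e
 (c z e
 (c z e
 (c (b (nat_lit 0xff81407)) e
 (c (nat_lit 0x7f8857f8857f8807f8857f88553d89) e
 (c (b (nat_lit 0xff81409)) e
 (c (b (nat_lit 0xffc4009)) e
 (c (b (nat_lit 0xfff0a0a)) e e))))))))))))))))
 (c (a (nat_lit 0x101ff800))
 (c z e
 (c (nat_lit 0x7f5017f4f97f5017f5017f5013a125) e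
 (c (b (nat_lit 0xfe17605)) e
 (c z e
 (c (b (nat_lit 0xff5c005)) e
 (c (b (nat_lit 0xfbefc06)) e
 (c (nat_lit 0x7f1ee7f1ee7f1d57f1ee7f1eec2227) e
 (c (b (nat_lit 0xffde407)) e
 (c z e
 (c (b (nat_lit 0xff7e407)) e
 (c (nat_lit 0x7fab37fa947fa817fab37fab3b4469) e
 (c (nat_lit 0x7f8867f8867f8867f8727f886df989) e
 (c (nat_lit 0x7fd677fd677fcec7fcec7fd678e929) e
 (c z e
 (c (nat_lit 0x800007ffe8800008000080000995ea) e e)))))))))))))))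
 (c (a (nat_lit 0x101ffa00))
 (c (b (nat_lit 0xfde1a05)) e
 (c z e
 (c z e
 (c z e
 (c (b (nat_lit 0xfe1cc07)) e
 (c (nat_lit 0x804cb804cb803e4804cb804cb7ca67) e
 (c z e
 (c (b (nat_lit 0xfee5807)) e
 (c (nat_lit 0x7f8127f8137f81b7f81b7f81b3c328) e
 (c (b (nat_lit 0xfdfa809)) e
 (c (b (nat_lit 0xfde4809)) e
 (c (b (nat_lit 0xff6ee09)) e
 (c (b (nat_lit 0xffb0009)) e e)))))))))))))
 (c (a (nat_lit 0x101ff200))
 (c z e
 (c (b (nat_lit 0xfa86806)) e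
 (c (nat_lit 0x800007ff0d7ff0d800008000034527) e
 (c (b (nat_lit 0x102aea07)) e
 (c z e
 (c (nat_lit 0x7ef567f3e67f3e67f3e67f3e662ca7) e
 (c (nat_lit 0x7eef67eee77eef67eef67eef6c02a8) e
 (c (nat_lit 0x7f5857f5847f5857f5857f5857f5e8) e
 (c (nat_lit 0x80000800007f70a7f70a7f70a45bc8) e
 (c (nat_lit 0x8000080000800007fcaf7fcaffe968) e
 (c z e
 (c z e
 (c (nat_lit 0x800008000080000800007fce134149) e e)))))))))))))
 (c (nat_lit 0x80ffd80ffe80ffe80ffeeac30)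
 (c (b (nat_lit 0xfd0c407)) e
 (c (b (nat_lit 0x10021a07)) e
 (c z e
 (c (nat_lit 0x7eccb7eda87eda87eda87eda82bb67) e
 (c (nat_lit 0x7f44e7f33d7f44e7f44e7f44e88e68) e
 (c (nat_lit 0x7e3037e3057e3057e3057e30528888) e
 (c (nat_lit 0x7ee0e7ee077ee077ee0e7ee0e6e068) e
 (c (nat_lit 0x80000800007efc77efc67efc74fe48) e
 (c (nat_lit 0x8000080000800007f2f17f2f4a7b48) e
 (c (nat_lit 0x800008000080000800007f859c1968) e e))))))))))
 (c (a (nat_lit 0x101ffc00))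
 (c z e
 (c (nat_lit 0x7dafe7dad17dafe7dafe7dafe7eba7) e
 (c (nat_lit 0x791f9791f9791ed791f9791f9c5268) e
 (c (b (nat_lit 0xfc12608)) e
 (c (b (nat_lit 0xfe65808)) e
 (c (b (nat_lit 0xfdfd808)) e
 (c (nat_lit 0x80000800007efc97efc97efc96a148) e
 (c (nat_lit 0x8000080000800007efc57efc5564e8) e
 (c (nat_lit 0x800008000080000800007f55d67388) e e)))))))))
 (c (a (nat_lit 0x10200000))
 (c (nat_lit 0x73ce873ce173cde73ce873ce8e3be8) e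
 (c (b (nat_lit 0xfc7fe08)) e
 (c (b (nat_lit 0xfdbf808)) e
 (c (nat_lit 0x7efe37efe57efe77efe97efe92ab68) e
 (c (nat_lit 0x7efb77efb47efb77efb77efb752e48) e
 (c (nat_lit 0x80000800007efac7efad7efada7088) e
 (c (nat_lit 0x8000080000800007efb17efb92bc48) e
 (c (nat_lit 0x800008000080000800007f548c7b08) e e))))))))
 (c (a (nat_lit 0x10200000)) e
 (c (a (nat_lit 0x101ffe00)) e
 (c (nat_lit 0x80ffb80ffc80ffb80ffac3700) e
 (c (a (nat_lit 0x101ffc00)) e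
 (c (a (nat_lit 0x101ffa01)) e
 (c (a (nat_lit 0x10200001)) e
 (c (nat_lit 0x80a7180a7280a7280a724ef41) e
 (c (nat_lit 0x802af802b0802b0802af35b61) e
 (c (nat_lit 0x8113b8112c8113a8113a3bd52) e
 (c (nat_lit 0x8113a8113a8113a8113b078c3) e
 (c (nat_lit 0x8115881159811598113888523) e
 (c (nat_lit 0x805bc805bd805bd805bd66e13) e
 (c (a (nat_lit 0x1017cc03)) e
 (c (nat_lit 0x80d7a80d7980d7a80d7921335) e
 (c (a (nat_lit 0x101af205)) e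
 (c (nat_lit 0x7fbe17fbe27fbe27fbe217dd5) e
 (c (nat_lit 0x7fc5b7fc5b7fc5b7fc5c51505) e
 (c (nat_lit 0x80755807558074780755ffa76) e
 (c (nat_lit 0x8077280773807668077236cc7) e
 (c (a (nat_lit 0x10009607)) e
 (c (a (nat_lit 0xfff4e07)) e
 (c (nat_lit 0x80e4b80e4b80e4a80e49a7cb7) e e)))))))))))))))))))))))))))))))) Tr.c Tr.e (nat_lit 0) C.t4 C.t5 C.t6
noncomputable def tt307 : Tr := beta% (fun (c : Nat → Tr → Tr → Tr) (e : Tr) (z : Nat) (a b : Nat → Nat) =>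
 (c (nat_lit 0x7f68c7f68c7f68d7f68c7f68ca3ea0)
 (c (nat_lit 0x8000080000800007fef27fed080000dad85) e
 (c (b (nat_lit 0x10268a05)) e
 (c (b (nat_lit 0x104c2806)) e
 (c (b (nat_lit 0x102a7607)) e
 (c (b (nat_lit 0x101a7407)) e
 (c z e
 (c (b (nat_lit 0x10221407)) e
 (c (b (nat_lit 0x101dd60b)) e
 (c (nat_lit 0x80b6980b6980b6980b1b80b6980b698c50b) e
 (c (b (nat_lit 0x1036fe0b)) e
 (c (b (nat_lit 0x1071620b)) e e)))))))))))
 (c (a (nat_lit 0xfe00400))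
 (c (nat_lit 0x800007ffd17ffd880000800008000050ac6) e
 (c z e
 (c z e
 (c z e
 (c z e
 (c (nat_lit 0x8187b8187b817d38187b8187b8187b28b0b) e
 (c z e
 (c (b (nat_lit 0xffff80b)) e
 (c z e
 (c (nat_lit 0x8192a8192a8192a8192a8170a8192a063d3) e e))))))))))
 (c (a (nat_lit 0xfe00401))
 (c z e
 (c z e
 (c z e
 (c z e
 (c (b (nat_lit 0x1041a00b)) e e)))))
 (c (a (nat_lit 0xfe01801))
 (c z e
 (c (nat_lit 0x805f8805f8805a7803e7805f8805f898c0b) e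
 (c (b (nat_lit 0x101ae00b)) e
 (c (b (nat_lit 0x1016860b)) e e))))
 (c (a (nat_lit 0xfcfa401))
 (c (nat_lit 0x811c1811c1811c1811c180ffb811c12bc0b) e
 (c (b (nat_lit 0x100aa80b)) e
 (c (b (nat_lit 0x10137c0b)) e e)))
 (c (nat_lit 0x7f0357f0357f0357f0357f00b52021) e
 (c (a (nat_lit 0xfbd2402)) e
 (c (a (nat_lit 0xfc7a203)) e
 (c (a (nat_lit 0x100a3203)) e
 (c (a (nat_lit 0x1042ec03)) e
 (c z e
 (c (a (nat_lit 0xfc81405)) e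
 (c (a (nat_lit 0xfd54605)) e
 (c (nat_lit 0x7ead37ead37ead37ea357ea2b76665) e
 (c z e
 (c (nat_lit 0x7ed017ecec7ed017ed017ed01ba926) e
 (c (a (nat_lit 0xfdadc07)) e
 (c (a (nat_lit 0xfedf007)) e
 (c z e
 (c (a (nat_lit 0xff78807)) e
 (c (nat_lit 0x7fa2f7fa2f7f9ea7fa2f7fa2f4a56b) e
 (c (nat_lit 0x7fe797fe797fe797fe4b7fe79001cb) e
 (c z e
 (c (nat_lit 0x800007ffcc7ffcc7ffcc80000e990b) e
 (c (nat_lit 0x8000080000800007fffa7fffab8a0c) e e)))))))))))))))))))))))))) Tr.c Tr.e (nat_lit 0) C.t5 C.t6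
noncomputable def tt308 : Tr := beta% (fun (c : Nat → Tr → Tr → Tr) (e : Tr) (z : Nat) (a b : Nat → Nat) =>
 (c (a (nat_lit 0xfdffe00))
 (c z e
 (c (nat_lit 0x85089850838505185089850898508950585) e
 (c z e
 (c z e
 (c z e
 (c (nat_lit 0x7f1ec7f1ec7f1ec7f1ec7f0dd7f1ec9e146) e
 (c z e
 (c z e
 (c z e
 (c (b (nat_lit 0x105f6e07)) e
 (c z e
 (c z e
 (c (b (nat_lit 0xffe120b)) e e)))))))))))))
 (c (a (nat_lit 0xfe01000))
 (c z e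
 (c (b (nat_lit 0x1022ee05)) e
 (c z e
 (c z e
 (c z e
 (c (b (nat_lit 0x10129a07)) e
 (c z e
 (c (b (nat_lit 0x101f1e07)) e
 (c (nat_lit 0x819468194681946815998194681946f9d4b) e
 (c z e
 (c (b (nat_lit 0x1043e00b)) e e)))))))))))
 (c (a (nat_lit 0xfe00800)) e
 (c (a (nat_lit 0xfe00400))
 (c z e
 (c z e
 (c z e
 (c z e
 (c z e
 (c z e
 (c z e
 (c z e
 (c (b (nat_lit 0xffe3220)) e e)))))))))
 (c (a (nat_lit 0xfe00c01)) e
 (c (a (nat_lit 0xfe00c01))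
 (c (b (nat_lit 0x1020b00b)) e e)
 (c (a (nat_lit 0xfe01601))
 (c z e
 (c z e
 (c (b (nat_lit 0x10339212)) e e)))
 (c z e
 (c (a (nat_lit 0xfef6e02)) e
 (c (nat_lit 0x7e0cb7dd4d7e0cb7e0cb7e0cbe1ae3) e
 (c z e
 (c z e
 (c (a (nat_lit 0x1009c003)) e
 (c (nat_lit 0x7f10e7f0ed7f0e77f10e7f10e63165) e
 (c (nat_lit 0x7e9a57e9a57e99f7e99c7e9a53fe65) e
 (c (nat_lit 0x8063a8063a8063a805b3805b4958e5) e
 (c (a (nat_lit 0xff99a05)) e
 (c (a (nat_lit 0xfd48406)) e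
 (c (a (nat_lit 0xfddc207)) e
 (c (a (nat_lit 0xff12207)) e
 (c z e
 (c (nat_lit 0x7fa047fa007fa047fa047fa0439cc7) e
 (c (a (nat_lit 0x1002cc0b)) e
 (c z e
 (c (a (nat_lit 0xffbf00b)) e e)))))))))))))))))))))))))) Tr.c Tr.e (nat_lit 0) C.t5 C.t6
noncomputable def tt309 : Tr := beta% (fun (c : Nat → Tr → Tr → Tr) (e : Tr) (z : Nat) (a b : Nat → Nat) =>
 (c (a (nat_lit 0xfe00600))
 (c (nat_lit 0x7d1877d1717d13f7d13f7d1877d187e2e43) e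
 (c z e
 (c z e
 (c z e
 (c (nat_lit 0x7ecb57ecac7ecb17ecb57ecb57ecb510e45) e
 (c (nat_lit 0x800007fefc800008000080000800002da85) e
 (c z e
 (c z e
 (c z e
 (c z e
 (c z e
 (c z e
 (c z e
 (c z e
 (c z e
 (c (b (nat_lit 0x1037a018)) e
 (c (nat_lit 0x8120f8120f8120f811f8811f28120f6f3d8) e
 (c z e
 (c (nat_lit 0x800008000080000800007fdb97fd3ea4e4d) e e)))))))))))))))))))
 (c (a (nat_lit 0xfe00400))
 (c z e
 (c z e
 (c z e
 (c z e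
 (c z e
 (c z e
 (c z e
 (c z e
 (c z e
 (c z e
 (c z e
 (c z e
 (c z e
 (c z e
 (c (b (nat_lit 0x1056d418)) e
 (c (b (nat_lit 0x10294618)) e e))))))))))))))))
 (c (a (nat_lit 0xfe00800)) e
 (c (a (nat_lit 0xfe00800)) e
 (c (a (nat_lit 0xfe00000)) e
 (c (a (nat_lit 0xfe01200)) e
 (c (a (nat_lit 0xfdffe01)) e
 (c (a (nat_lit 0xfe00c01)) e
 (c (nat_lit 0x7f0097f0097f0097f0077f00796961) e
 (c (a (nat_lit 0xfe45001)) e
 (c (a (nat_lit 0xfeb0002)) e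
 (c (a (nat_lit 0xfe0fe03)) e
 (c z e
 (c z e
 (c z e
 (c (nat_lit 0x7ef527ef287ef2d7ef527ef5289a65) e
 (c (a (nat_lit 0xfee9005)) e
 (c (a (nat_lit 0x101b1605)) e
 (c z e
 (c (a (nat_lit 0xfef6806)) e
 (c (a (nat_lit 0xffdce07)) e
 (c (a (nat_lit 0x10092e07)) e
 (c z e
 (c z e
 (c z e
 (c (a (nat_lit 0xffbe00b)) e e))))))))))))))))))))))))))) Tr.c Tr.e (nat_lit 0) C.t5 C.t6
noncomputable def tt310 : Tr := beta% (fun (c : Nat → Tr → Tr → Tr) (e : Tr) (z : Nat) (a b d : Nat → Nat) =>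
 (c (nat_lit 0x7f00b7f00a7f00a7f0097f00b53940)
 (c (b (nat_lit 0x1012c201))
 (c (nat_lit 0x7d3a47d3a47d3a47d3247d3a47d3a47d3a4cd905) e
 (c z e
 (c (d (nat_lit 0x10359007)) e
 (c (d (nat_lit 0x11001807)) e
 (c (nat_lit 0x800008000080000800007ff6b80000800006bd07) e
 (c z e
 (c z e
 (c z e
 (c z e
 (c (d (nat_lit 0x103bca0d)) e e))))))))))
 (c z e
 (c (b (nat_lit 0xfd82a02))
 (c z e
 (c z e
 (c z e
 (c z e
 (c z e
 (c (d (nat_lit 0xfbc880d)) e e))))))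
 (c (b (nat_lit 0xfc64203)) e
 (c (b (nat_lit 0x10434803)) e
 (c z e
 (c (b (nat_lit 0x100fa803)) e
 (c (b (nat_lit 0x10198405)) e
 (c (b (nat_lit 0x104b1c05)) e
 (c z e
 (c z e
 (c z e
 (c (b (nat_lit 0xff36a07)) e
 (c (nat_lit 0x7fe977fe977fdf17fe977fe977fe975ef87) e
 (c (b (nat_lit 0xf81d807)) e
 (c z e
 (c (b (nat_lit 0x1017ca0b)) e
 (c (nat_lit 0x83e2a83e2a83e0b83e2a83e2a83e2a9224d) e
 (c (nat_lit 0x81abf81abf81abf81ab081abf81abff1bcd) e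
 (c (b (nat_lit 0x10274e0d)) e e))))))))))))))))))))
 (c (a (nat_lit 0xfe00a00))
 (c z e
 (c z e
 (c z e
 (c z e
 (c z e
 (c z e
 (c z e
 (c z e
 (c z e
 (c z e
 (c z e
 (c z e
 (c z e
 (c z e
 (c (b (nat_lit 0x1020920b)) e
 (c z e
 (c (b (nat_lit 0x103ba00d)) e
 (c (b (nat_lit 0x1019120d)) e e))))))))))))))))))
 (c (a (nat_lit 0xfe00a00))
 (c z e
 (c z e
 (c z e
 (c z e
 (c (nat_lit 0x7f6947f6947f6817f6947f6947f694086c5) e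
 (c z e
 (c z e
 (c (b (nat_lit 0xfcd2206)) e
 (c (b (nat_lit 0xfd88a07)) e
 (c (b (nat_lit 0xfe9ae07)) e e))))))))))
 (c (nat_lit 0x7f0077f0067f0067f0067f00744ae0)
 (c z e
 (c (b (nat_lit 0x10b78005)) e
 (c (b (nat_lit 0x108e1c05)) e
 (c z e
 (c z e
 (c z e
 (c (b (nat_lit 0x102cd007)) e
 (c z e
 (c z e
 (c z e
 (c (b (nat_lit 0x10795c0b)) e
 (c z e
 (c z e
 (c z e
 (c (nat_lit 0x7ff038000080000800008000080000eea8d) e e)))))))))))))))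
 (c (nat_lit 0x7f0097f0087f0087f0087f00975260)
 (c (nat_lit 0x80a5980a5980a4780a5980a5980a592cd45) e
 (c z e
 (c z e
 (c (b (nat_lit 0x1053a006)) e
 (c (nat_lit 0x80000800007fb19800008000080000a9087) e
 (c z e
 (c z e
 (c z e
 (c (b (nat_lit 0x102df20b)) e
 (c (nat_lit 0x8249382493824508249382493824934024d) e e))))))))))
 (c (a (nat_lit 0xfe00800))
 (c z e
 (c z e
 (c z e
 (c z e
 (c z e
 (c z e
 (c z e
 (c z e
 (c z e
 (c z e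
 (c (b (nat_lit 0xfff0e0d)) e e)))))))))))
 (c (a (nat_lit 0xfe00600))
 (c (b (nat_lit 0xfe0e007)) e
 (c (nat_lit 0x80000800007feb980000800008000021d87) e
 (c z e
 (c z e
 (c z e
 (c z e
 (c z e
 (c (b (nat_lit 0x1034ba0d)) e e))))))))
 (c (a (nat_lit 0xfe00e00))
 (c (nat_lit 0x800008000080000800007ff8180000cb147) e
 (c z e
 (c z e
 (c z e
 (c z e
 (c (b (nat_lit 0xfff8c0d)) e
 (c (b (nat_lit 0x107ca60d)) e e)))))))
 (c (nat_lit 0x7f00e7f00c7f00c7f00c7f00d09861)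
 (c z e
 (c z e
 (c (b (nat_lit 0x1011f80d)) e
 (c z e
 (c (nat_lit 0x7ffdc7ffdc7ffdc7ffdc7ffa17ffa13644d) e e)))))
 (c (nat_lit 0x7f0237f0237f0107f0117f0129f281)
 (c (nat_lit 0x80000800007ff3a8000080000800008a5cd) e e)
 (c (nat_lit 0x7f00a7f00a7f00a7f0097f00ab62e1) e
 (c (a (nat_lit 0xfe87401)) e
 (c z e
 (c (nat_lit 0x7e65e7e6317e6437e65e7e65e695a3) e
 (c (a (nat_lit 0x105b3003)) e
 (c (a (nat_lit 0x101b0a03)) e
 (c (a (nat_lit 0x100c7403)) e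
 (c (a (nat_lit 0xfe1ba05)) e
 (c (a (nat_lit 0xfe15c05)) e
 (c (a (nat_lit 0xfea1c05)) e
 (c (nat_lit 0x7f3437f3d27f3d27f3d27f3d232b45) e
 (c (a (nat_lit 0xfdcda06)) e
 (c (nat_lit 0x7e4d17e4c77e4d17e4d17e4d1dbda7) e
 (c (nat_lit 0x7e4f87e4f87e4e57e4ef7e4f858107) e
 (c z e
 (c z e
 (c (a (nat_lit 0xfedc40b)) e
 (c (nat_lit 0x7f37c7f3707f37c7f37c7f37ccda6d) e
 (c (nat_lit 0x7f3587f3587f3587f2d37f2d336ced) e
 (c (nat_lit 0x7fdd77fdd77fdd77fda87fda85ecad) e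
 (c (a (nat_lit 0xff6ce0d)) e
 (c (nat_lit 0x8000080000800007fec37fec38ee2e) e e))))))))))))))))))))))))))))))))) Tr.c Tr.e (nat_lit 0) C.t5 C.t6 C.t7
noncomputable def tt311 : Tr := beta% (fun (c : Nat → Tr → Tr → Tr) (e : Tr) (z : Nat) (a b d : Nat → Nat) =>
 (c (nat_lit 0x7f00c7f00c7f00c7f00b7f00d81420)
 (c (b (nat_lit 0x101f9e01))
 (c (d (nat_lit 0xfae3005)) e
 (c z e
 (c z e
 (c z e
 (c z e
 (c z e
 (c z e
 (c z e
 (c (d (nat_lit 0xff5900d)) e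
 (c (d (nat_lit 0x1036a60d)) e
 (c (d (nat_lit 0x104b420d)) e
 (c (d (nat_lit 0x1024d40e)) e
 (c z e
 (c (nat_lit 0x8000080000800007f97a800008000080000f35c0) e e))))))))))))))
 (c (b (nat_lit 0x101fe801)) e
 (c (b (nat_lit 0x101fdc01)) e
 (c (nat_lit 0x7f9a77f9a77f9b17f9b17f9ec7f9ecb7842) e
 (c (nat_lit 0x800007fda0800008000080000800003cb83)
 (c (d (nat_lit 0x10790a0d)) e e)
 (c z e
 (c (b (nat_lit 0x1019f803)) e
 (c z e
 (c (b (nat_lit 0x100b8e05)) e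
 (c (b (nat_lit 0x101b8605)) e
 (c z e
 (c z e
 (c z e
 (c z e
 (c (b (nat_lit 0xf738007)) e
 (c z e
 (c z e
 (c (nat_lit 0x80bd080bc380bd080bd080bd080bd0a19cd) e
 (c (nat_lit 0x80ea580ea580e7580ea580ea580ea59554d) e
 (c (nat_lit 0x8113a8113a8111c810d1811038113a0dbcd) e e))))))))))))))))))))
 (c (a (nat_lit 0xfe00400))
 (c (b (nat_lit 0x10200401)) e
 (c z e
 (c z e
 (c z e
 (c z e
 (c z e
 (c z e
 (c z e
 (c (b (nat_lit 0xfca8605)) e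
 (c z e
 (c z e
 (c z e
 (c (b (nat_lit 0x1043bc07)) e
 (c z e
 (c (b (nat_lit 0x1025ca07)) e
 (c z e
 (c (nat_lit 0x8184b8184b8184b817638184b8184b96ecd) e
 (c z e
 (c (nat_lit 0x800008000080000800007feeb80000ad04d) e
 (c z e
 (c (nat_lit 0x80000800008000080000800007fd619384d) e e)))))))))))))))))))))
 (c (a (nat_lit 0xfe00e00))
 (c (nat_lit 0x7faf27f48c7faf27faf27faf27faf2b9b83)
 (c z e
 (c (d (nat_lit 0x10aeaa0d)) e e))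
 (c (b (nat_lit 0x101f2003))
 (c (d (nat_lit 0x10439c0d)) e
 (c z e
 (c z e
 (c (d (nat_lit 0x10352c0e)) e e))))
 (c (b (nat_lit 0x101a6c03)) e
 (c z e
 (c z e
 (c (nat_lit 0x80e9e80e9e80dd480daf80e9e80e9e5ce45) e
 (c z e
 (c z e
 (c z e
 (c z e
 (c z e
 (c z e
 (c z e
 (c (nat_lit 0x8058280582805818058180582805826248d) e
 (c z e
 (c z e
 (c (nat_lit 0x800007fe5b7fe5b8000080000800009250d) e
 (c (nat_lit 0x8112b8112b8112b80d7480d748112b8c80e) e e))))))))))))))))))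
 (c (a (nat_lit 0xfe00e00))
 (c (b (nat_lit 0x10664e03))
 (c z e
 (c (d (nat_lit 0xfffe60d)) e e))
 (c (b (nat_lit 0x10389603)) e
 (c z e
 (c (b (nat_lit 0x1029ea05)) e
 (c z e
 (c z e
 (c (nat_lit 0x800007f9d7800008000080000800002d0c6) e
 (c (b (nat_lit 0x102d2807)) e
 (c z e
 (c (nat_lit 0x8000080000800007ffa47ffa480000dec07) e
 (c z e
 (c (b (nat_lit 0x101b8e0d)) e
 (c (b (nat_lit 0x100a280d)) e
 (c (b (nat_lit 0x100d560d)) e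
 (c (b (nat_lit 0xffee80d)) e e)))))))))))))))
 (c (a (nat_lit 0xfe01400))
 (c (nat_lit 0x7e8507e8137e7f17e8507e8507e850d5985) e
 (c z e
 (c z e
 (c (b (nat_lit 0x101eb005)) e
 (c z e
 (c (b (nat_lit 0x1062aa07)) e
 (c z e
 (c z e
 (c z e
 (c z e
 (c (nat_lit 0x81816817f5817f5818168181681816e718d) e
 (c (b (nat_lit 0x10103c0d)) e
 (c (b (nat_lit 0x100a760d)) e e)))))))))))))
 (c (nat_lit 0x7f0057f0057f0057f0047f004f4500)
 (c z e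
 (c (b (nat_lit 0xfc91605)) e
 (c z e
 (c z e
 (c z e
 (c z e
 (c z e
 (c z e
 (c z e
 (c (b (nat_lit 0xfec7a0d)) e e))))))))))
 (c (a (nat_lit 0xfe01c00))
 (c (b (nat_lit 0xffc1406)) e
 (c (nat_lit 0x80000800007ff927ff958000080000241c7) e
 (c (nat_lit 0x80000800007ffdf7ffe28000080000f7887) e
 (c z e
 (c z e
 (c (nat_lit 0x8110d8110d8110d80cab8110d8110de008d) e
 (c z e
 (c z e
 (c z e
 (c (b (nat_lit 0x1018c80e)) e e))))))))))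
 (c (a (nat_lit 0xfe00e00))
 (c (nat_lit 0x824cc824cc824cc82461824cc824cc2f4c7) e
 (c z e
 (c z e
 (c z e
 (c (nat_lit 0x80c2380c2380c2380aef809a180c230ff8d) e
 (c z e
 (c (b (nat_lit 0x10580e0d)) e
 (c (b (nat_lit 0x1015fe0e)) e e))))))))
 (c (a (nat_lit 0xfe01800))
 (c z e
 (c (nat_lit 0x800007ffac800007ff5e8000080000daacd) e
 (c (nat_lit 0x8000080000800007ffce8000080000dca0d) e
 (c z e
 (c (b (nat_lit 0xfffb80d)) e
 (c (b (nat_lit 0x107e880e)) e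
 (c z e
 (c (nat_lit 0x800008000080000800007ff51800006a512) e e))))))))
 (c (nat_lit 0x7f00d7f00d7f00d7f00c7f00caf7c1)
 (c (nat_lit 0x7f7527f7527f6557f7527f7527f75223e8d) e
 (c z e
 (c z e
 (c (b (nat_lit 0x104eaa0e)) e e))))
 (c (a (nat_lit 0xfe02601))
 (c z e
 (c (nat_lit 0x8300f8300f8300f8300f82f4182f8b6b98e) e e))
 (c (a (nat_lit 0xfdfde01)) e
 (c (nat_lit 0x7f01a7f01a7f01a7f01a7f00ae6581) e
 (c (a (nat_lit 0xfc46002)) e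
 (c (a (nat_lit 0xfe4e603)) e
 (c (a (nat_lit 0xfe5d203)) e
 (c (a (nat_lit 0x101dde03)) e
 (c (a (nat_lit 0x10086003)) e
 (c (a (nat_lit 0xfdc9c05)) e
 (c (a (nat_lit 0xfdc7405)) e
 (c (a (nat_lit 0xffba805)) e
 (c z e
 (c (nat_lit 0x7ed4b7ed4b7ed597ed937ed93b65c6) e
 (c (nat_lit 0x7ed697ed697ed687ed697ed698f847) e
 (c (a (nat_lit 0xfdeb607)) e
 (c (nat_lit 0x7ffc0800008000080000800003b807) e
 (c (a (nat_lit 0xff26407)) e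
 (c (nat_lit 0x7f6337f6297f6337f6337f6336f1cd) e
 (c (nat_lit 0x7f6637f6637f6477f6637f6634528d) e
 (c z e
 (c (nat_lit 0x7ffc87ffc87ffc87ffdb80000103cd) e
 (c (nat_lit 0x7fa8e7fa8e7fa7e7fa8e7fa8e0e64e) e e))))))))))))))))))))))))))))))))) Tr.c Tr.e (nat_lit 0) C.t5 C.t6 C.t7
noncomputable def tt312 : Tr := beta% (fun (c : Nat → Tr → Tr → Tr) (e : Tr) (z : Nat) (a b : Nat → Nat) =>
 (c (a (nat_lit 0x10129200))
 (c z e
 (c z e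
 (c (nat_lit 0x7bf337bf337bf337bef57bf337bf337bf3371705) e
 (c (nat_lit 0x8000080000800007fea57fe148000080000a9385) e
 (c (nat_lit 0x7e8247e8247e8247e8247e76a7e6bf7e82423785) e
 (c (b (nat_lit 0xef09a06)) e
 (c (b (nat_lit 0x10376207)) e
 (c (b (nat_lit 0xfbae807)) e
 (c z e
 (c (b (nat_lit 0xffc9607)) e
 (c z e
 (c z e
 (c z e
 (c (b (nat_lit 0x10a2580d)) e
 (c (b (nat_lit 0x104c980e)) e e)))))))))))))))
 (c (a (nat_lit 0x101f9801))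
 (c (nat_lit 0x7d05a7d05a7d05a7d05a7d05a7d05a7cf719ea85) e
 (c (nat_lit 0x7c09f7c09f7c09f7c0397c09f7c09f7c09f4f185) e
 (c z e
 (c z e
 (c z e
 (c z e
 (c z e
 (c z e
 (c (b (nat_lit 0xffe120d)) e
 (c (nat_lit 0x7f4af7f4af7f4af7f44f7f4af7f4af7f4af55a0d) e
 (c z e
 (c (b (nat_lit 0x102d680d)) e e))))))))))))
 (c (a (nat_lit 0x101ffe01)) e
 (c (a (nat_lit 0x100c3e01))
 (c (nat_lit 0x7fa547fa547f5087fa547fa547efcc7fa5402587) e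
 (c (nat_lit 0x800008000080000800007fc858000080000c0a06) e
 (c z e
 (c z e
 (c z e
 (c (b (nat_lit 0xfba520d)) e
 (c z e
 (c (b (nat_lit 0xf6f980d)) e
 (c (b (nat_lit 0xfff300e)) e e)))))))))
 (c (a (nat_lit 0xfe50001)) e
 (c z
 (c (b (nat_lit 0x10fd1e0d)) e e)
 (c (a (nat_lit 0xff74803))
 (c (b (nat_lit 0xf5f7c0d)) e
 (c z e
 (c (b (nat_lit 0xfffde0e)) e e)))
 (c (nat_lit 0x8163c8163c815748163c8163c8163cf9bc3)
 (c (b (nat_lit 0xfff5c0e)) e e)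
 (c (a (nat_lit 0x10220a03)) e
 (c (a (nat_lit 0x102b2c03)) e
 (c (a (nat_lit 0x1012ca05)) e
 (c (a (nat_lit 0x10045205)) e
 (c (a (nat_lit 0xfd58a05)) e
 (c (a (nat_lit 0xfa28805)) e
 (c z e
 (c (a (nat_lit 0x1011f407)) e
 (c (a (nat_lit 0x10132807)) e
 (c (a (nat_lit 0xff9a207)) e
 (c z e
 (c z e
 (c (a (nat_lit 0x1013540d)) e
 (c (a (nat_lit 0xff3760d)) e
 (c (a (nat_lit 0xffc420d)) e e)))))))))))))))))))))))) Tr.c Tr.e (nat_lit 0) C.t6 C.t7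
noncomputable def tt313 : Tr := beta% (fun (c : Nat → Tr → Tr → Tr) (e : Tr) (z : Nat) (a b : Nat → Nat) =>
 (c (a (nat_lit 0x101ffa00))
 (c (b (nat_lit 0xfe00e01)) e
 (c (nat_lit 0x7f00c7f00c7f00c7f00a7f00af92e1) e
 (c z e
 (c z e
 (c (b (nat_lit 0xfa15603)) e
 (c z e
 (c z e
 (c z e
 (c (b (nat_lit 0xfe21005)) e
 (c z e
 (c z e
 (c (nat_lit 0x7f8eb7f8e77f8eb7f8eb7f8eb20166) e
 (c (b (nat_lit 0xff15e07)) e
 (c z e
 (c z e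
 (c (b (nat_lit 0xfdb0407)) e
 (c z e
 (c z e
 (c (nat_lit 0x7fab87fabf7fb027fb027fb026f56a) e
 (c (b (nat_lit 0xff6a80c)) e
 (c (nat_lit 0x80000800007ffc27ffc07ffc0337cc) e
 (c (nat_lit 0x8000080000800007feef7feefcdd4b) e e))))))))))))))))))))))
 (c (a (nat_lit 0x101ffe00))
 (c (b (nat_lit 0xfdfb601)) e
 (c (nat_lit 0x7e82a7e8367e8367e8367e8360ef62)
 (c (nat_lit 0x8172f815a98172f8172f8172f8172f507d2) e e)
 (c (b (nat_lit 0xff34a03)) e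
 (c z e
 (c (b (nat_lit 0x10111c03)) e
 (c z e
 (c z e
 (c z e
 (c (b (nat_lit 0xfe7de05)) e
 (c (b (nat_lit 0xfd84006)) e
 (c (b (nat_lit 0xfed0c07)) e
 (c (b (nat_lit 0xffae407)) e
 (c (b (nat_lit 0xffb4007)) e
 (c (b (nat_lit 0xff89a07)) e
 (c (b (nat_lit 0xff00409)) e
 (c (b (nat_lit 0xff96009)) e
 (c (b (nat_lit 0xffef609)) e
 (c (nat_lit 0x7ffbb7ff91800008000080000c040a) e
 (c z e
 (c z e
 (c z e
 (c (nat_lit 0x800008000080000800007ff498376b) e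
 (c (nat_lit 0x800008000080000800007ff716148b) e e)))))))))))))))))))))))
 (c (nat_lit 0x80ffc80ffc80ffd80ffd59760)
 (c (nat_lit 0x7e9cb7e94c7e9cb7e9cb7e9cb86be3) e
 (c z e
 (c z e
 (c z e
 (c (b (nat_lit 0xfe58c05)) e
 (c z e
 (c z e
 (c (nat_lit 0x7ee187ee407ee407ee407ee405d8a6) e
 (c (b (nat_lit 0xfeb0e07)) e
 (c (b (nat_lit 0xffd2a07)) e
 (c (b (nat_lit 0xffb6007)) e
 (c (b (nat_lit 0xfe9d207)) e
 (c (b (nat_lit 0xff46e09)) e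
 (c (b (nat_lit 0xff08009)) e
 (c (b (nat_lit 0xffa6009)) e
 (c z e
 (c (nat_lit 0x800007ffda8000080000800000230a) e e)))))))))))))))))
 (c (nat_lit 0x80ffd80ffd80ffd80ffcc1000)
 (c (b (nat_lit 0x1008a003)) e
 (c (b (nat_lit 0x10153a03)) e
 (c z e
 (c z e
 (c z e
 (c (nat_lit 0x7ed1f7ed1f7ed1f7ed1f7e9fd47626) e
 (c (nat_lit 0x7ef2a7ef2a7ef237ef2a7ef2a06a07) e
 (c z e
 (c z e
 (c (b (nat_lit 0xff53607)) e
 (c (b (nat_lit 0xff85c08)) e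
 (c (nat_lit 0x7f8be7f8be7f8b77f8be7f8bedbbc9) e
 (c (b (nat_lit 0xff0e409)) e
 (c (b (nat_lit 0xff90209)) e
 (c (b (nat_lit 0xffd7409)) e
 (c (nat_lit 0x7ff667ff3f7ff667ff667ff66206ea) e e))))))))))))))))
 (c (nat_lit 0x810028100181001810012f820)
 (c (b (nat_lit 0xfe75205)) e
 (c z e
 (c z e
 (c z e
 (c (b (nat_lit 0xfec1207)) e
 (c (b (nat_lit 0x1000ee07)) e
 (c (b (nat_lit 0xffc7207)) e
 (c (b (nat_lit 0xff71007)) e
 (c (nat_lit 0x7ffd67ffd67ffcf7ffd67ffd601428) e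
 (c (nat_lit 0x7e8c17e8b57e8be7e8c17e8c149068) e
 (c (b (nat_lit 0xfd0ca09)) e
 (c (nat_lit 0x7fc717fc717fc717fc4c7fc64c2709) e
 (c (b (nat_lit 0xff92409)) e
 (c (b (nat_lit 0xffb6009)) e
 (c (nat_lit 0x800008000080000800007ffdd3e069) e e)))))))))))))))
 (c (a (nat_lit 0x101ff200))
 (c z e
 (c (b (nat_lit 0xfb9fc06)) e
 (c (b (nat_lit 0x104fae07)) e
 (c z e
 (c z e
 (c z e
 (c (nat_lit 0x7f5ce7f59f7f5ce7f5ce7f5ce9a768) e
 (c (nat_lit 0x7e93b7e93a7e94d7e94d7e94d2c4a8) e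
 (c (b (nat_lit 0xfd55a08)) e
 (c (nat_lit 0x80000800007fcc87fcd27fcd2c88e8) e
 (c (nat_lit 0x8000080000800007fd1f7fd264b4c8) e e)))))))))))
 (c (a (nat_lit 0x101ff800))
 (c (nat_lit 0x7ebef7eafe7eafe7ebef7ebef5b107) e
 (c z e
 (c z e
 (c (b (nat_lit 0xfbd8c07)) e
 (c (nat_lit 0x7e4ad7e4ad7e4887e4ad7e4addc4c8) e
 (c (b (nat_lit 0xfc44808)) e
 (c (nat_lit 0x7ec6d7ec7a7ec7d7ec7d7ec7dd1528) e
 (c (nat_lit 0x7ee737ee667ee727ee737ee7356888) e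
 (c (nat_lit 0x80000800007f2f27f2f57f2f5854a8) e
 (c (nat_lit 0x8000080000800007f2b37f2b34aa68) e
 (c (nat_lit 0x800008000080000800007ffa4f66e8) e e)))))))))))
 (c (a (nat_lit 0x10200000))
 (c z e
 (c (nat_lit 0x7c2dc7c2a57c2dc7c2dc7c2dc069e7) e
 (c (nat_lit 0x7a1487a1337a1417a1487a148865c8) e
 (c (b (nat_lit 0xfd31608)) e
 (c (b (nat_lit 0xfdeec08)) e
 (c (b (nat_lit 0xfdf4008)) e
 (c (nat_lit 0x7efc37efc37efc37efb97efba4e2c8) e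
 (c (nat_lit 0x80000800007efd37efd37efcc56b88) e
 (c (nat_lit 0x8000080000800007efe57efe5e3168) e
 (c (nat_lit 0x800008000080000800007fcfda27e8) e e))))))))))
 (c (nat_lit 0x80ffe80ffe80ffe80ffd02660)
 (c (nat_lit 0x74379743487437974379743797e7a8) e
 (c (b (nat_lit 0xfc85408)) e
 (c (b (nat_lit 0xfddd408)) e
 (c (b (nat_lit 0xfdfb408)) e
 (c (nat_lit 0x7efbb7efb77efbc7efba7efbcdab48) e
 (c (nat_lit 0x7efb87efb17efb37efb87efb886148) e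
 (c (nat_lit 0x80000800007efac7efae7efaee94e8) e
 (c (nat_lit 0x8000080000800007efc67efc78be88) e
 (c (nat_lit 0x800008000080000800007fce18a7a8) e e)))))))))
 (c (a (nat_lit 0x10200000)) e
 (c (a (nat_lit 0x101ffc00)) e
 (c (a (nat_lit 0x10200000)) e
 (c (nat_lit 0x80ffc80ffc80ffc80ffb0afd0) e
 (c (a (nat_lit 0x101ffe00)) e
 (c (nat_lit 0x8100080fff80fff8100022f61) e
 (c (nat_lit 0x8100081001810018100141791) e
 (c (nat_lit 0x802fa802f9802f9802f99ee81) e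
 (c (nat_lit 0x7f78d7f78c7f78d7f78cd92e1) e
 (c (nat_lit 0x80ddd80ddd80ddd80ddcb9692) e
 (c (a (nat_lit 0x101a7c03)) e
 (c (a (nat_lit 0x10119e03)) e
 (c (nat_lit 0x806fe806fd806fc806fb3ffa3) e
 (c (nat_lit 0x805f7805f7805f7805f62b253) e
 (c (nat_lit 0x8018a8018a8018a8018914ad5) e
 (c (a (nat_lit 0xffd5c05)) e
 (c (nat_lit 0x7ffb97ffb97ffb97ffba78965) e
 (c (nat_lit 0x808d9808d7808d8808d8d02e6) e
 (c (nat_lit 0x805ca805ca805ca805cb15a57) e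
 (c (a (nat_lit 0xffe2a07)) e
 (c (nat_lit 0x8012d8012d8012e8012d36e97) e
 (c (a (nat_lit 0xffde007)) e e)))))))))))))))))))))))))))))))) Tr.c Tr.e (nat_lit 0) C.t4 C.t5
noncomputable def tt314 : Tr := beta% (fun (c : Nat → Tr → Tr → Tr) (e : Tr) (z : Nat) (a b : Nat → Nat) =>
 (c (a (nat_lit 0xfed1200))
 (c (nat_lit 0x807f4807f4807f4805dd807f4807f4393c5) e
 (c z e
 (c z e
 (c (b (nat_lit 0x10760c07)) e
 (c (nat_lit 0x81f1c81f1c81f1c81f1281f1c81f1c6c507) e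
 (c z e
 (c (b (nat_lit 0xfd97a07)) e
 (c z e
 (c (nat_lit 0x80000800007feb1800008000080000912cb) e e)))))))))
 (c (nat_lit 0x7f0067f0067f0067f0057f00692900)
 (c z e
 (c z e
 (c z e
 (c z e
 (c z e
 (c z e
 (c z e
 (c (b (nat_lit 0x1055ee0b)) e
 (c z e
 (c (b (nat_lit 0x10a5360b)) e
 (c (b (nat_lit 0x10223213)) e e)))))))))))
 (c (a (nat_lit 0xfe01000))
 (c z e
 (c z e
 (c z e
 (c z e
 (c (b (nat_lit 0x1058be0b)) e
 (c z e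
 (c z e
 (c z e
 (c (b (nat_lit 0x10591c14)) e e)))))))))
 (c (a (nat_lit 0xfe00a01))
 (c z e
 (c (nat_lit 0x800007ff9e80000800008000080000d610a) e
 (c (b (nat_lit 0x101a2c0b)) e e)))
 (c (a (nat_lit 0xfe00401))
 (c (nat_lit 0x80000800007ff8b800008000080000e678b) e
 (c z e
 (c z e
 (c (b (nat_lit 0x1029660b)) e e))))
 (c (nat_lit 0x7f0147f0147f0147f00a7f00d1f461) e
 (c (a (nat_lit 0xff32801)) e
 (c (a (nat_lit 0xfe1ba02)) e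
 (c (nat_lit 0x7e1307dfe17e1307e1307e1305d5e3) e
 (c (a (nat_lit 0x102a4403)) e
 (c z e
 (c z e
 (c (a (nat_lit 0x10007205)) e
 (c (a (nat_lit 0xfe74e05)) e
 (c z e
 (c (nat_lit 0x7eccf7ecab7eccf7eccf7eccf2d446) e
 (c (a (nat_lit 0xfda0a07)) e
 (c (a (nat_lit 0xfd91c07)) e
 (c z e
 (c (a (nat_lit 0xfea6607)) e
 (c (a (nat_lit 0xfe99e0a)) e
 (c (nat_lit 0x7f0847f0847f0527f0847f0846866b) e
 (c (a (nat_lit 0xfe4f20b)) e
 (c (nat_lit 0x7ffc47ffc47ffc47ffaa7ffaa116ab) e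
 (c (a (nat_lit 0x1004a60b)) e
 (c (nat_lit 0x800008000080000800007fffc53e2b) e e))))))))))))))))))))))))))) Tr.c Tr.e (nat_lit 0) C.t5 C.t6
noncomputable def tt315 : Tr := beta% (fun (c : Nat → Tr → Tr → Tr) (e : Tr) (z : Nat) (a b : Nat → Nat) =>
 (c (a (nat_lit 0xfdffe00))
 (c z e
 (c z e
 (c z e
 (c z e
 (c z e
 (c (nat_lit 0x8304982fa783049830498304983049fb146) e
 (c z e
 (c z e
 (c z e
 (c z e
 (c z e
 (c z e
 (c z e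
 (c z e
 (c z e
 (c (nat_lit 0x80000800008000080000844ff844ffeb84d) e e))))))))))))))))
 (c (a (nat_lit 0xfe00800))
 (c (b (nat_lit 0x100f7205)) e
 (c z e
 (c z e
 (c (b (nat_lit 0x10201406)) e
 (c (b (nat_lit 0x1084c807)) e
 (c z e
 (c z e
 (c z e
 (c (b (nat_lit 0x10316c0b)) e
 (c z e
 (c z e
 (c z e
 (c (b (nat_lit 0x1020d813)) e e)))))))))))))
 (c (a (nat_lit 0xfe00400))
 (c z e
 (c z e
 (c z e
 (c z e
 (c z e
 (c z e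
 (c z e
 (c z e
 (c (b (nat_lit 0xfffde0b)) e e)))))))))
 (c (a (nat_lit 0xfe00a00))
 (c z e
 (c z e
 (c z e
 (c z e
 (c z e
 (c z e
 (c (b (nat_lit 0xfffbc0b)) e
 (c (b (nat_lit 0xfecb40b)) e e))))))))
 (c (a (nat_lit 0xfe00800))
 (c z e
 (c (b (nat_lit 0xff0dc07)) e e))
 (c (a (nat_lit 0xfe01401))
 (c (nat_lit 0x8000080000800007fce2800008000009e8a) e
 (c z e
 (c z e
 (c z e
 (c (b (nat_lit 0x101b5a12)) e e)))))
 (c (a (nat_lit 0xfe01001))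
 (c z e
 (c z e
 (c z e
 (c (b (nat_lit 0x10390412)) e e))))
 (c (a (nat_lit 0xfdff801)) e
 (c z e
 (c (nat_lit 0x7e02a7e0b17e0b17e0b17e0b18b1c2) e
 (c (a (nat_lit 0xfc9b003)) e
 (c z e
 (c z e
 (c (a (nat_lit 0x10026803)) e
 (c (a (nat_lit 0xfeb4a05)) e
 (c (a (nat_lit 0xff1e605)) e
 (c (a (nat_lit 0xfff6405)) e
 (c (nat_lit 0x7ea5e7ea857ea857ea857ea85bbe46) e
 (c (a (nat_lit 0xfd46a07)) e
 (c (a (nat_lit 0xfe93807)) e
 (c z e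
 (c (nat_lit 0x7f4dd7f4dd7f4e37f4e37f4e3384a7) e
 (c (nat_lit 0x7f9547f9047f90a7f9547f954fb22b) e
 (c (nat_lit 0x7f8bb7f9247f9247f9247f924558eb) e
 (c (a (nat_lit 0xffe380b)) e
 (c (nat_lit 0x7fb907fb907fb5c7fb907fb902272b) e
 (c (nat_lit 0x8000080000800007ffbf80000fa40d) e e)))))))))))))))))))))))))))) Tr.c Tr.e (nat_lit 0) C.t5 C.t6
noncomputable def tt316 : Tr := beta% (fun (c : Nat → Tr → Tr → Tr) (e : Tr) (z : Nat) (a b : Nat → Nat) =>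
 (c (a (nat_lit 0xfe00000))
 (c z e
 (c (b (nat_lit 0xf507e03)) e
 (c z e
 (c z e
 (c z e
 (c z e
 (c z e
 (c (b (nat_lit 0xfc0b405)) e
 (c (b (nat_lit 0xfe63a06)) e
 (c z e
 (c z e
 (c z e
 (c z e
 (c z e
 (c (b (nat_lit 0x10229e0b)) e
 (c (b (nat_lit 0x1037460b)) e
 (c (nat_lit 0x82356823568234f8235682356823566060d) e
 (c (nat_lit 0x805148051480514804ed804f2805143818d) e e))))))))))))))))))
 (c (a (nat_lit 0xfe00400))
 (c z e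
 (c z e
 (c z e
 (c z e
 (c z e
 (c z e
 (c (b (nat_lit 0xfd08a06)) e
 (c z e
 (c z e
 (c z e
 (c z e
 (c z e
 (c z e
 (c (b (nat_lit 0x1059500b)) e
 (c (b (nat_lit 0x1046060d)) e
 (c (nat_lit 0x81b5c81b5c81b5c81b5181b5c81b5ccb38d) e
 (c (b (nat_lit 0x10111e0d)) e e)))))))))))))))))
 (c (a (nat_lit 0xfe00a00)) e
 (c (a (nat_lit 0xfe00600)) e
 (c (a (nat_lit 0xfe00a00)) e
 (c (a (nat_lit 0xfe00200))
 (c z e
 (c z e
 (c z e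
 (c z e
 (c z e
 (c z e
 (c z e
 (c (b (nat_lit 0xff5a60d)) e e))))))))
 (c (nat_lit 0x7f0067f0067f0057f0057f005f92e0) e
 (c (a (nat_lit 0xfe00a01)) e
 (c (a (nat_lit 0xfdff001)) e
 (c (a (nat_lit 0xfe00a01)) e
 (c (a (nat_lit 0xffac201)) e
 (c z e
 (c z e
 (c z e
 (c (a (nat_lit 0xfff7e03)) e
 (c (a (nat_lit 0xfef1603)) e
 (c (a (nat_lit 0xfdc4e05)) e
 (c (a (nat_lit 0xff99205)) e
 (c z e
 (c (a (nat_lit 0xfe22a06)) e
 (c (a (nat_lit 0xff8c607)) e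
 (c (a (nat_lit 0xffa2607)) e
 (c z e
 (c z e
 (c (a (nat_lit 0xfffde0b)) e
 (c z e
 (c (nat_lit 0x800007ffd880000800008000063feb) e e)))))))))))))))))))))))))))) Tr.c Tr.e (nat_lit 0) C.t5 C.t6
noncomputable def tt317 : Tr := beta% (fun (c : Nat → Tr → Tr → Tr) (e : Tr) (z : Nat) (a b d : Nat → Nat) =>
 (c (a (nat_lit 0xfe01600))
 (c (b (nat_lit 0x101ff801))
 (c (nat_lit 0x787d5787d5787d578663787d5787d5787d55f505) e
 (c z e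
 (c z e
 (c z e
 (c (d (nat_lit 0x10dd6407)) e
 (c z e
 (c z e
 (c z e
 (c z e
 (c (d (nat_lit 0x10a17c0d)) e e))))))))))
 (c (b (nat_lit 0x101fe601)) e
 (c (b (nat_lit 0x101fe601)) e
 (c z e
 (c z e
 (c z e
 (c z e
 (c z e
 (c z e
 (c z e
 (c z e
 (c (b (nat_lit 0xf9aac06)) e
 (c (b (nat_lit 0xffee407)) e
 (c z e
 (c (b (nat_lit 0x100d6007)) e
 (c z e
 (c z e
 (c (b (nat_lit 0x101d400b)) e
 (c (b (nat_lit 0x1015c20d)) e
 (c (nat_lit 0x80a3580a3580a3580a3580a2e80a3575f4d) e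
 (c z e
 (c (nat_lit 0x80000800008000080000800007fe1462ccd) e e))))))))))))))))))))))
 (c (a (nat_lit 0xfe00e00))
 (c z e
 (c z e
 (c z e
 (c z e
 (c z e
 (c z e
 (c z e
 (c (b (nat_lit 0x1010a405)) e
 (c (b (nat_lit 0xf933c05)) e
 (c (b (nat_lit 0xff28c06)) e e))))))))))
 (c (a (nat_lit 0xfe00c00)) e
 (c (a (nat_lit 0xfe00e00))
 (c z e
 (c z e
 (c z e
 (c z e
 (c z e
 (c z e
 (c z e
 (c z e
 (c z e
 (c z e
 (c z e
 (c z e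
 (c (b (nat_lit 0x1006f80d)) e
 (c (b (nat_lit 0xffed00d)) e e))))))))))))))
 (c (nat_lit 0x7f0097f0097f0097f0097f00a3c6a0)
 (c (nat_lit 0x80000800007fe94800008000080000082c5) e
 (c z e
 (c z e
 (c z e
 (c z e
 (c z e
 (c z e
 (c z e
 (c z e
 (c z e
 (c (b (nat_lit 0x103da00d)) e e)))))))))))
 (c (a (nat_lit 0xfe01000))
 (c z e
 (c z e
 (c z e
 (c z e
 (c z e
 (c z e
 (c z e
 (c z e
 (c z e
 (c z e
 (c z e
 (c (b (nat_lit 0xfff860e)) e e))))))))))))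
 (c (a (nat_lit 0xfe00000)) e
 (c (a (nat_lit 0xfe02000)) e
 (c (a (nat_lit 0xfe01800)) e
 (c (nat_lit 0x7f0107f00b7f00c7f00d7f00e03481)
 (c (b (nat_lit 0xfd8f00d)) e e)
 (c (a (nat_lit 0xfe00c01)) e
 (c (a (nat_lit 0xfe00801)) e
 (c z e
 (c z e
 (c (a (nat_lit 0xfe84603)) e
 (c (a (nat_lit 0xff50e03)) e
 (c z e
 (c z e
 (c (a (nat_lit 0xff0e405)) e
 (c (a (nat_lit 0xff22a05)) e
 (c z e
 (c (a (nat_lit 0xffd7406)) e
 (c z e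
 (c (a (nat_lit 0xfeede07)) e
 (c z e
 (c z e
 (c z e
 (c (a (nat_lit 0xff6340b)) e
 (c (nat_lit 0x7f7f97f7f97f7857f7f97f7f9db08d) e
 (c z e
 (c (a (nat_lit 0xffdd20d)) e
 (c (a (nat_lit 0xff9b40e)) e e))))))))))))))))))))))))))))))))) Tr.c Tr.e (nat_lit 0) C.t5 C.t6 C.t7
noncomputable def tt318 : Tr := beta% (fun (c : Nat → Tr → Tr → Tr) (e : Tr) (z : Nat) (a b d : Nat → Nat) =>
 (c (nat_lit 0x7f0097f0097f0097f0097f00affda0)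
 (c (b (nat_lit 0x101fb601))
 (c (nat_lit 0x7e8c97e8c97e7757e8c97e8c97e8c97e8c934985) e
 (c z e
 (c z e
 (c z e
 (c z e
 (c z e
 (c z e
 (c z e
 (c (nat_lit 0x80000800007ffa280000800008000080000d610d) e e)))))))))
 (c (b (nat_lit 0x101fe601)) e
 (c (b (nat_lit 0x101fe401)) e
 (c (b (nat_lit 0x101fc801)) e
 (c z e
 (c z e
 (c (b (nat_lit 0x1019b803)) e
 (c z e
 (c z e
 (c z e
 (c (b (nat_lit 0x10350805)) e
 (c z e
 (c z e
 (c z e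
 (c z e
 (c z e
 (c z e
 (c (b (nat_lit 0x1018980b)) e
 (c (b (nat_lit 0x10029a0d)) e
 (c (nat_lit 0x80b6080b6080b6080b2580b6080b60bd44d) e
 (c z e
 (c (b (nat_lit 0xffe320e)) e e))))))))))))))))))))))
 (c (a (nat_lit 0xfe00600))
 (c (b (nat_lit 0x101ffe01)) e
 (c (b (nat_lit 0x101ff601)) e
 (c z e
 (c z e
 (c z e
 (c z e
 (c z e
 (c z e
 (c z e
 (c z e
 (c z e
 (c z e
 (c z e
 (c (b (nat_lit 0x10167207)) e e))))))))))))))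
 (c (a (nat_lit 0xfe00c00))
 (c z e
 (c (b (nat_lit 0xfe02203))
 (c (d (nat_lit 0x107fa40d)) e
 (c z e
 (c (d (nat_lit 0x100a9a0d)) e e)))
 (c z e
 (c z e
 (c z e
 (c (b (nat_lit 0x1025f005)) e
 (c z e
 (c z e
 (c (b (nat_lit 0x100d2006)) e
 (c (b (nat_lit 0x102f0e07)) e
 (c (b (nat_lit 0x10266607)) e
 (c (b (nat_lit 0x101a4407)) e
 (c z e
 (c (b (nat_lit 0x100c380b)) e
 (c (b (nat_lit 0x100d080d)) e
 (c (b (nat_lit 0xff4ac0d)) e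
 (c z e
 (c (nat_lit 0x800007fdbf7fdbf800008000080000958ce) e e))))))))))))))))))
 (c (nat_lit 0x7f00c7f00b7f00b7f00b7f00c1e4e0)
 (c (b (nat_lit 0x10261e03))
 (c (d (nat_lit 0x1044280d)) e e)
 (c z e
 (c (b (nat_lit 0xff64603)) e
 (c (b (nat_lit 0x10346605)) e
 (c (b (nat_lit 0x10208605)) e
 (c z e
 (c z e
 (c z e
 (c z e
 (c z e
 (c z e
 (c (b (nat_lit 0x10221e0b)) e
 (c (b (nat_lit 0x10152a0d)) e
 (c (b (nat_lit 0x1008bc0d)) e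
 (c (nat_lit 0x800008000080000800007fc757fc751ac0d) e
 (c (b (nat_lit 0x1017c80e)) e e))))))))))))))))
 (c (a (nat_lit 0xfe00800))
 (c z e
 (c z e
 (c z e
 (c z e
 (c z e
 (c (nat_lit 0x7fcf0800007fc7b8000080000800008b807) e
 (c (b (nat_lit 0x1044d807)) e
 (c z e
 (c z e
 (c z e
 (c (nat_lit 0x827498273a8273a827498274982749c3c4d) e
 (c (b (nat_lit 0x10509a0d)) e
 (c (b (nat_lit 0x100aa40d)) e e)))))))))))))
 (c (a (nat_lit 0xfe00a00)) e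
 (c (a (nat_lit 0xfe00c00))
 (c z e
 (c z e
 (c (b (nat_lit 0x100b4607)) e
 (c z e
 (c z e
 (c (nat_lit 0x8201a8201a81bf48201a81edd8201a88e0b) e
 (c z e
 (c z e
 (c z e
 (c (b (nat_lit 0x1011fa0e)) e e))))))))))
 (c (a (nat_lit 0xfe00400))
 (c z e
 (c z e
 (c z e
 (c (b (nat_lit 0x1018360b)) e
 (c (nat_lit 0x80f7d80f7d80d9d80f7d80f7d80f7d8c98d) e
 (c (b (nat_lit 0xfff840d)) e
 (c (b (nat_lit 0x1029fa0d)) e
 (c (b (nat_lit 0x10164e0e)) e e))))))))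
 (c (a (nat_lit 0xfe01000))
 (c z e
 (c z e
 (c z e
 (c z e
 (c z e
 (c (b (nat_lit 0x105c660e)) e
 (c (b (nat_lit 0x10124612)) e e)))))))
 (c (a (nat_lit 0xfe00a00))
 (c (nat_lit 0x7e6d77e6d77e68f7e6d77e6d77e6d7e920d) e
 (c z e
 (c z e
 (c (b (nat_lit 0x106b060e)) e
 (c (b (nat_lit 0x107b6411)) e e)))))
 (c (a (nat_lit 0xfe01c01))
 (c z e
 (c (b (nat_lit 0x1021a80e)) e e))
 (c (a (nat_lit 0xfe01401)) e
 (c (nat_lit 0x7f0077f0077f0077f0057f00671241) e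
 (c z e
 (c (a (nat_lit 0xfde1202)) e
 (c (nat_lit 0x7ef8c7ef8c7ef557ef8c7ef8c7de23) e
 (c (a (nat_lit 0x101cb603)) e
 (c (a (nat_lit 0x10025a03)) e
 (c (a (nat_lit 0x1002ca03)) e
 (c (a (nat_lit 0xfdd1005)) e
 (c (a (nat_lit 0xfe88805)) e
 (c z e
 (c (a (nat_lit 0xff8bc06)) e
 (c (a (nat_lit 0xfde5007)) e
 (c (a (nat_lit 0xfdf4207)) e
 (c z e
 (c z e
 (c (a (nat_lit 0xffa0a0b)) e
 (c (nat_lit 0x800c1800c18002880028800c1623ad) e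
 (c z e
 (c (nat_lit 0x7fee07fee07ff1f7ffeb7ffebdcead) e
 (c (nat_lit 0x7fd5f7fce37fd8c7fd8c7fd8cd6bce) e e))))))))))))))))))))))))))))))))) Tr.c Tr.e (nat_lit 0) C.t5 C.t6 C.t7
noncomputable def tt319 : Tr := beta% (fun (c : Nat → Tr → Tr → Tr) (e : Tr) (z : Nat) (a b : Nat → Nat) =>
 (c (a (nat_lit 0x101ee800))
 (c (b (nat_lit 0xfd59403)) e
 (c z e
 (c z e
 (c (b (nat_lit 0xfe5f405)) e
 (c (nat_lit 0x7f5d17f5d17f5d17f4777f5d17f5d17f5d10d185) e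
 (c (b (nat_lit 0xfff0406)) e
 (c (b (nat_lit 0xfb39207)) e
 (c z e
 (c (nat_lit 0x7fd39800008000080000800008000080000b4507) e
 (c z e
 (c z e
 (c z e
 (c (b (nat_lit 0xfe8240d)) e
 (c z e
 (c (b (nat_lit 0x1048c20e)) e e)))))))))))))))
 (c (a (nat_lit 0x101f6c00)) e
 (c (a (nat_lit 0x101fe201)) e
 (c (a (nat_lit 0x101fc001))
 (c z e
 (c z e
 (c z e
 (c z e
 (c z e
 (c (b (nat_lit 0xffd4e0d)) e
 (c z e
 (c z e
 (c z e
 (c (nat_lit 0x7daaf7daaf7daaf7d4be7daaf7daaf7daafaeb9a) e e))))))))))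
 (c z
 (c (nat_lit 0x800008000080000800007fd8980000800006ef87) e
 (c z e
 (c z e
 (c (nat_lit 0x7f7da7f7da7f7da7f7da7f7da7f7da7f33f0440d) e e))))
 (c (a (nat_lit 0x101fcc01)) e
 (c z e
 (c (a (nat_lit 0x10029403))
 (c (b (nat_lit 0xfff820e)) e e)
 (c (a (nat_lit 0x101a8003)) e
 (c (a (nat_lit 0x10097403)) e
 (c z e
 (c z e
 (c z e
 (c z e
 (c z e
 (c z e
 (c (a (nat_lit 0x10116407)) e
 (c (a (nat_lit 0xfd72007)) e
 (c z e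
 (c (a (nat_lit 0x1013140b)) e
 (c (a (nat_lit 0x10237a0d)) e
 (c (a (nat_lit 0x1012b00d)) e
 (c (a (nat_lit 0xfffce0d)) e
 (c (nat_lit 0x800007ff7f7ff7f80000800008000083bce) e
 (c (a (nat_lit 0x10187c1a)) e e)))))))))))))))))))))))))) Tr.c Tr.e (nat_lit 0) C.t6 C.t7
noncomputable def tt320 : Tr := beta% (fun (c : Nat → Tr → Tr → Tr) (e : Tr) (z : Nat) (a b d : Nat → Nat) =>
 (c (a (nat_lit 0xfe01c00))
 (c (b (nat_lit 0x101f6e00)) e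
 (c (b (nat_lit 0x101fda01))
 (c z e
 (c z e
 (c z e
 (c z e
 (c z e
 (c z e
 (c z e
 (c z e
 (c (nat_lit 0x800007fe6680000800007ff5d8000080000ccb8d) e e)))))))))
 (c (b (nat_lit 0x101fde01)) e
 (c (b (nat_lit 0x101fcc01)) e
 (c z e
 (c z e
 (c z
 (c (d (nat_lit 0xffb0615)) e e)
 (c (b (nat_lit 0x10120003)) e
 (c z e
 (c (b (nat_lit 0x100dc403)) e
 (c z e
 (c z e
 (c z e
 (c z e
 (c z e
 (c (b (nat_lit 0x100abe07)) e
 (c z e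
 (c z e
 (c z e
 (c z e
 (c (b (nat_lit 0x100dd00d)) e
 (c z e
 (c (b (nat_lit 0xfff1015)) e e)))))))))))))))))))))))
 (c (a (nat_lit 0xfe00c00))
 (c (b (nat_lit 0x101ffc01)) e
 (c (b (nat_lit 0x101fec01)) e
 (c z e
 (c z e
 (c z e
 (c (b (nat_lit 0x100f3803)) e
 (c z e
 (c z e
 (c z e
 (c (b (nat_lit 0xfd70e05)) e
 (c (b (nat_lit 0xfad3c05)) e
 (c (b (nat_lit 0xffcfa06)) e
 (c z e
 (c z e
 (c z e
 (c z e
 (c (b (nat_lit 0x10240e0d)) e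
 (c (nat_lit 0x7ffc87ff5a7ff5a7ffc87ffc87ffc851b0d) e
 (c z e
 (c (b (nat_lit 0x101ea20e)) e
 (c (nat_lit 0x800008000080000800007ffb27ffb257f4e) e e)))))))))))))))))))))
 (c (a (nat_lit 0xfe00c00))
 (c (nat_lit 0x8100a8100a8100a8100a8100681008ceec1) e
 (c z e
 (c z e
 (c z e
 (c z e
 (c (nat_lit 0x81fea820088200882008820088200896a03) e
 (c z e
 (c z e
 (c z e
 (c z e
 (c (b (nat_lit 0x103ef807)) e
 (c z e
 (c z e
 (c (b (nat_lit 0x10086407)) e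
 (c (b (nat_lit 0x1021bc0d)) e
 (c (b (nat_lit 0x1021280d)) e e))))))))))))))))
 (c (a (nat_lit 0xfe01e00))
 (c z
 (c z e
 (c (d (nat_lit 0x1046e00d)) e e))
 (c z e
 (c z e
 (c z e
 (c (b (nat_lit 0x10181605)) e
 (c z e
 (c z e
 (c (b (nat_lit 0xfdd7206)) e
 (c (nat_lit 0x822c2822c2822c2820cb822c2822c2c59c7) e
 (c z e
 (c z e
 (c (b (nat_lit 0x100c5807)) e
 (c (b (nat_lit 0x100d5e0d)) e
 (c (b (nat_lit 0x10328e0d)) e
 (c (b (nat_lit 0x1027be0d)) e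
 (c (b (nat_lit 0x10286c0e)) e
 (c z e
 (c z e
 (c z e
 (c z e
 (c (nat_lit 0x80000800008000080000800007ffd501d8f) e e)))))))))))))))))))))
 (c (a (nat_lit 0xfe00c00)) e
 (c (a (nat_lit 0xfe01200))
 (c z e
 (c (b (nat_lit 0x10257e05)) e
 (c (b (nat_lit 0xfd88805)) e
 (c (b (nat_lit 0xfb2ee06)) e
 (c (b (nat_lit 0x102b6e07)) e
 (c z e
 (c z e
 (c z e
 (c z e
 (c z e
 (c (b (nat_lit 0x1014780d)) e
 (c (nat_lit 0x81906818f1818ff81903819068190681c4e) e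
 (c (b (nat_lit 0x10323c14)) e
 (c (b (nat_lit 0x101fe214)) e e))))))))))))))
 (c (a (nat_lit 0xfe00c00))
 (c z e
 (c z e
 (c (b (nat_lit 0xff3ee07)) e
 (c z e
 (c z e
 (c z e
 (c z e
 (c (b (nat_lit 0x10461c0d)) e e))))))))
 (c (nat_lit 0x7f0127f0127f0107f0107f01012ec0)
 (c z e
 (c (nat_lit 0x8000080000800007ff93800008000071787) e
 (c z e
 (c z e
 (c (nat_lit 0x814728147281468814728147281472fbe4d) e
 (c z e
 (c z e
 (c (b (nat_lit 0x1018f40e)) e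
 (c z e
 (c (nat_lit 0x8000080000800007ffe97fffd8000075292) e e))))))))))
 (c (a (nat_lit 0xfe00e00))
 (c z e
 (c z e
 (c z e
 (c z e
 (c z e
 (c (b (nat_lit 0x1057200e)) e
 (c z e
 (c (b (nat_lit 0xfff9612)) e e))))))))
 (c (a (nat_lit 0xfdfd200))
 (c z e
 (c z e
 (c z e
 (c z e
 (c (b (nat_lit 0x107ace11)) e e)))))
 (c (a (nat_lit 0xfe01c00)) e
 (c (a (nat_lit 0xfe01601)) e
 (c (a (nat_lit 0xfdffe01)) e
 (c (nat_lit 0x7f01f7f01f7f01f7f0077f00925481) e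
 (c (a (nat_lit 0xfef9201)) e
 (c (nat_lit 0x7f07b7f0497f07b7f07b7f07be1722) e
 (c (a (nat_lit 0xfe06003)) e
 (c (a (nat_lit 0xfe14403)) e
 (c (a (nat_lit 0xfff9203)) e
 (c z e
 (c (a (nat_lit 0xfd93e05)) e
 (c (a (nat_lit 0xffd0e05)) e
 (c z e
 (c (nat_lit 0x7f3997f3957f3ac7f3b87f3b8b4586) e
 (c (nat_lit 0x7f4db7f4db7f4d57f4db7f4db67a67) e
 (c (a (nat_lit 0xffb4a07)) e
 (c (nat_lit 0x7ff397ff397ff397fed77fef6d4887) e
 (c z e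
 (c (a (nat_lit 0xfefbe0d)) e
 (c (a (nat_lit 0xffe2e0d)) e
 (c z e
 (c (nat_lit 0x7f9a17f9f47f99c7fa207fa20bc62e) e
 (c (nat_lit 0x8000080000800007ffcc800008bb4f) e e)))))))))))))))))))))))))))))))))) Tr.c Tr.e (nat_lit 0) C.t5 C.t6 C.t7
noncomputable def tt321 : Tr := beta% (fun (c : Nat → Tr → Tr → Tr) (e : Tr) (z : Nat) (a b : Nat → Nat) =>
 (c (a (nat_lit 0x101f3a00))
 (c (b (nat_lit 0xfc4ca03)) e
 (c z e
 (c z e
 (c (nat_lit 0x80000800007ff0280000800008000080000a1385) e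
 (c (nat_lit 0x7f0ee7f0ee7f0ee7f0997f0ee7f0ee7f0eec8205) e
 (c z e
 (c (b (nat_lit 0xf09da06)) e
 (c z e
 (c (b (nat_lit 0xfe68e07)) e
 (c z e
 (c z e
 (c z e
 (c (nat_lit 0x80000800007fcd980000800008000080000cd78d) e
 (c z e
 (c (b (nat_lit 0xffeec0e)) e
 (c z e
 (c (b (nat_lit 0xfffc832)) e e)))))))))))))))))
 (c (a (nat_lit 0x101f7000)) e
 (c (a (nat_lit 0x101f9e00))
 (c z e
 (c z e
 (c z e
 (c z e
 (c z e
 (c z e
 (c (b (nat_lit 0xff81007)) e e)))))))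
 (c (a (nat_lit 0x101fd401))
 (c z e
 (c (nat_lit 0x8000080000800007fec9800007fbfc800000f706) e e))
 (c (a (nat_lit 0x101f9001))
 (c (nat_lit 0x80000800007fdc27fece80000800008000001587) e
 (c z e
 (c z e
 (c (b (nat_lit 0x104a480d)) e e))))
 (c (a (nat_lit 0x101fe601)) e
 (c (a (nat_lit 0x101ff001)) e
 (c z
 (c (b (nat_lit 0xff58c0e)) e
 (c (b (nat_lit 0xffa8e16)) e e))
 (c (a (nat_lit 0x1013fe03)) e
 (c (a (nat_lit 0x10081603)) e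
 (c z e
 (c (a (nat_lit 0x10273403)) e
 (c z e
 (c z e
 (c (a (nat_lit 0xfd8ba05)) e
 (c z e
 (c (a (nat_lit 0x1002d807)) e
 (c (a (nat_lit 0xfd5ec07)) e
 (c z e
 (c z e
 (c (a (nat_lit 0x10128e0d)) e
 (c (nat_lit 0x80d7080d7080d5c80d4d80d7080d703368d) e
 (c z e
 (c z e
 (c (a (nat_lit 0x10144e16)) e e)))))))))))))))))))))))))) Tr.c Tr.e (nat_lit 0) C.t6 C.t7
noncomputable def tt322 : Tr := beta% (fun (c : Nat → Tr → Tr → Tr) (e : Tr) (z : Nat) (a b : Nat → Nat) =>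
 (c (a (nat_lit 0x101f1a00))
 (c (b (nat_lit 0xef42001)) e
 (c (b (nat_lit 0xfadec02)) e
 (c (b (nat_lit 0xf937003)) e
 (c (nat_lit 0x7f6b97f6b97f6b97f6b97f3a07f6b97f6b93ea83) e
 (c (nat_lit 0x7f98b7f98b7f8dc7f98b7f98b7f98b7f98bcb903) e
 (c (nat_lit 0x80000800007ffbd80000800008000080000dc483) e
 (c z e
 (c z e
 (c z e
 (c z e
 (c z e
 (c z e
 (c (b (nat_lit 0xf4e2007)) e
 (c (b (nat_lit 0xffe9207)) e e))))))))))))))
 (c (a (nat_lit 0x101f5400))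
 (c (b (nat_lit 0xfc9ba03)) e
 (c z e
 (c z e
 (c z e
 (c z e
 (c z e
 (c z e
 (c (b (nat_lit 0xfd46e06)) e
 (c z e
 (c (b (nat_lit 0xffdbc07)) e
 (c (b (nat_lit 0x102eda07)) e
 (c (b (nat_lit 0xffd8607)) e
 (c (b (nat_lit 0x1045260d)) e
 (c (b (nat_lit 0x1067bc0d)) e e))))))))))))))
 (c (a (nat_lit 0x101f5400))
 (c z e
 (c z e
 (c z e
 (c z e
 (c z e
 (c z e
 (c (b (nat_lit 0xffb9007)) e e)))))))
 (c (a (nat_lit 0x101f6800))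
 (c z e
 (c z e
 (c z e
 (c z e
 (c z e
 (c z e
 (c z e
 (c z e
 (c z e
 (c z e
 (c z e
 (c z e
 (c z e
 (c (nat_lit 0x800007ff9480000800007ff868000080000065a5) e e))))))))))))))
 (c (a (nat_lit 0x101f6800))
 (c z e
 (c (nat_lit 0x80000800007faa28000080000800008000010186) e e))
 (c (a (nat_lit 0x101f9a01))
 (c (b (nat_lit 0xf7f9607)) e
 (c z e
 (c (b (nat_lit 0x10609407)) e
 (c (b (nat_lit 0x1034b407)) e
 (c (b (nat_lit 0x1042660d)) e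
 (c (b (nat_lit 0x1044840d)) e
 (c (b (nat_lit 0xffe2c0d)) e e)))))))
 (c (a (nat_lit 0x101fc801))
 (c z e
 (c (b (nat_lit 0x10c60807)) e e))
 (c (a (nat_lit 0x101fb601)) e
 (c z
 (c (b (nat_lit 0xf99ea0d)) e e)
 (c z e
 (c (a (nat_lit 0x100aae03)) e
 (c (a (nat_lit 0x10269a03)) e
 (c (a (nat_lit 0x102b5003)) e
 (c (a (nat_lit 0x1034d203)) e
 (c z e
 (c z e
 (c z e
 (c (nat_lit 0x80000800007fed7800008000080000f70c6) e
 (c (nat_lit 0x8072280722807228052f807228072255007) e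
 (c (a (nat_lit 0x1014ee07)) e
 (c z e
 (c z e
 (c (a (nat_lit 0x101ace0d)) e
 (c z e
 (c z e
 (c (a (nat_lit 0x10133a0e)) e e))))))))))))))))))))))))))) Tr.c Tr.e (nat_lit 0) C.t6 C.t7
noncomputable def tt323 : Tr := beta% (fun (c : Nat → Tr → Tr → Tr) (e : Tr) (z : Nat) (a b d f : Nat → Nat) =>
 (c (a (nat_lit 0xfe00000))
 (c (b (nat_lit 0x101ff800))
 (c (d (nat_lit 0xfe03000)) tt322
 (c (d (nat_lit 0xfe01200)) tt321 tt320))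
 (c (b (nat_lit 0x101ffa00))
 (c (d (nat_lit 0xfe02400)) tt319 tt318)
 (c (b (nat_lit 0x101ff800)) tt317
 (c (b (nat_lit 0x101ffe00)) tt316
 (c (b (nat_lit 0x101ffc00)) tt315
 (c (b (nat_lit 0x101ff800)) tt314
 (c (nat_lit 0x80fff80fff80fff80ffe851c0)
 (c (nat_lit 0x7f83c7f83c7f83d7f83d7f83d44840)
 (c (nat_lit 0x7eb627eb627eb3a7eb557eb627eb6241007) e e)
 (c (nat_lit 0x7f0057f0057f0037f0037f0055c2e1) e
 (c (d (nat_lit 0xfe00001)) e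
 (c (nat_lit 0x7f00f7f00f7f00f7f0067f00893281) e
 (c (d (nat_lit 0xff3fa01)) e
 (c (d (nat_lit 0xfda4202)) e
 (c (d (nat_lit 0xfcad003)) e
 (c (d (nat_lit 0xfcd9003)) e
 (c z e
 (c z e
 (c (d (nat_lit 0xfe73a05)) e
 (c (d (nat_lit 0xfe6f005)) e
 (c (d (nat_lit 0xffa1c05)) e
 (c (nat_lit 0x7ead67eadf7eadf7eadf7eadf36d66) e
 (c (nat_lit 0x7eafc7eafc7eaf47eafc7eafce1a87) e
 (c (d (nat_lit 0xfe7aa07)) e
 (c z e
 (c z e
 (c z e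
 (c (nat_lit 0x7f4c47f49e7f4c47f4c47f4c45158a) e
 (c (nat_lit 0x7f5587f5587f52b7f52b7f5587ad6b) e
 (c (d (nat_lit 0xfeda80b)) e
 (c (nat_lit 0x80000800007fe237fe237fe237946b) e
 (c (nat_lit 0x7fbe67fbb17fb5a7fbe67fb547e04b) e e)))))))))))))))))))))))) tt313)))))))
 (c (a (nat_lit 0xfe00000))
 (c (b (nat_lit 0x101ff600))
 (c (nat_lit 0x7f00c7f00b7f00c7f00b7f00c4e9c0) tt312 tt311)
 (c (b (nat_lit 0x101ffa00)) tt310
 (c (b (nat_lit 0x101ffe00)) tt309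
 (c (b (nat_lit 0x101ffc00)) tt308
 (c (b (nat_lit 0x101ffa00)) tt307
 (c (b (nat_lit 0x101ffc00))
 (c (d (nat_lit 0xff06801))
 (c (nat_lit 0x80000800007ff987ff738000080000c3687) e
 (c z e
 (c z e
 (c (f (nat_lit 0x1040b207)) e
 (c (nat_lit 0x826398253f82639826398263982639680ca) e
 (c (nat_lit 0x829cd829cd8289b829cd829cd829cd0e78b) e
 (c (nat_lit 0x823f0823f0823d8823d8823f0823f07db0b) e e)))))))
 (c (d (nat_lit 0xfdffc01))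
 (c z e
 (c z e
 (c (f (nat_lit 0xffc260a)) e e)))
 (c (nat_lit 0x7f00a7f00a7f00a7f0067f00606821) e
 (c (d (nat_lit 0xfaf0001))
 (c (f (nat_lit 0x1045700b)) e e)
 (c (d (nat_lit 0xfb4a002)) e
 (c (d (nat_lit 0xfc2ea03)) e
 (c (d (nat_lit 0x101c3203)) e
 (c z e
 (c z e
 (c (d (nat_lit 0xff18805)) e
 (c (d (nat_lit 0xfc77e05)) e
 (c (nat_lit 0x7f8bf7f8bf7f8bf7f87a7f8bf6b4a5) e
 (c (d (nat_lit 0xff88405)) e
 (c (nat_lit 0x7eee57eede7eee57eee57eee586b06) e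
 (c (d (nat_lit 0xfddcc07)) e
 (c (d (nat_lit 0xfeed407)) e
 (c z e
 (c z e
 (c (nat_lit 0x7f98a7f98a7f9fc7f9fc7f9fcf116a) e
 (c (d (nat_lit 0xfe9c20b)) e
 (c (nat_lit 0x7f4f87f4f87f4d67f4ee7f4f8dd44b) e
 (c (nat_lit 0x80000800007fef87fef87fef8a4a8b) e
 (c (nat_lit 0x7fc337fe4e7ff7a7ff7a7ff7aee60b) e
 (c z e
 (c (nat_lit 0x800008000080000800007ffc82294c) e e))))))))))))))))))))))))) tt306))))))
 (c (a (nat_lit 0xfe00000)) tt305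
 (c (a (nat_lit 0xfe00000)) tt300
 (c (a (nat_lit 0xfe00000))
 (c (b (nat_lit 0x10200000)) tt296 tt295)
 (c (a (nat_lit 0xfe00000)) tt294
 (c (a (nat_lit 0xfe00000)) tt293
 (c (a (nat_lit 0xfe00000)) tt292
 (c (a (nat_lit 0xfe00000)) tt291
 (c (a (nat_lit 0xfe00000)) tt290 tt289))))))))))) Tr.c Tr.e (nat_lit 0) C.t3 C.t4 C.t5 C.t6
noncomputable def tt324 : Tr := beta% (fun (c : Nat → Tr → Tr → Tr) (e : Tr) (a : Nat → Nat) =>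
 (c (a (nat_lit 0xfe00000)) tt288 tt323)) Tr.c Tr.e C.t3
noncomputable def tt325 : Tr := beta% (fun (c : Nat → Tr → Tr → Tr) (e : Tr) (a : Nat → Nat) =>
 (c (a (nat_lit 0xfe00000)) tt274 tt324)) Tr.c Tr.e C.t3
noncomputable def tt326 : Tr := beta% (fun (c : Nat → Tr → Tr → Tr) (e : Tr) (a : Nat → Nat) =>
 (c (a (nat_lit 0xfe00000)) tt250 tt325)) Tr.c Tr.e C.t3
noncomputable def tt327 : Tr := beta% (fun (c : Nat → Tr → Tr → Tr) (e : Tr) (z : Nat) (a b d : Nat → Nat) =>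
 (c (a (nat_lit 0x101ff000))
 (c (nat_lit 0x7f0297f0297f0297f0167f016a10c1)
 (c (nat_lit 0x80000800007fd36800008000080000c4909) e
 (c z e
 (c (d (nat_lit 0x101bf60a)) e e)))
 (c (b (nat_lit 0xfda5801)) e
 (c (b (nat_lit 0xfd26602)) e
 (c z e
 (c (nat_lit 0x7f9467f9467f8647f9467f946297e3) e
 (c (b (nat_lit 0x10185803)) e
 (c z e
 (c (b (nat_lit 0x102c2c03)) e
 (c z e
 (c (nat_lit 0x7fb697fb697fb217fb697fb69ba906) e
 (c (b (nat_lit 0x10198807)) e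
 (c (b (nat_lit 0xfff2407)) e
 (c z e
 (c z e
 (c (b (nat_lit 0xff4e009)) e
 (c (b (nat_lit 0xff02e09)) e
 (c (b (nat_lit 0xff3ce09)) e
 (c (b (nat_lit 0xff86409)) e
 (c (nat_lit 0x7f8227f7447f7447f8227f82235e4a) e
 (c (b (nat_lit 0xffeb20a)) e
 (c (nat_lit 0x8000080000800007ffe680000c8f2a) e e)))))))))))))))))))))
 (c (a (nat_lit 0x101ff800))
 (c (b (nat_lit 0xfa1f802))
 (c z e
 (c (nat_lit 0x8104180f5a8104181041810418104140aca) e e))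
 (c (nat_lit 0x7e06d7e0327e06d7e06d7e06d40122) e
 (c z e
 (c (b (nat_lit 0xff1cc03)) e
 (c z e
 (c z e
 (c (nat_lit 0x8120d8120d8109c8109c8120d877c6) e
 (c (nat_lit 0x7fe0b7fe0b7fe027fe0b7fe0bfb266) e
 (c (b (nat_lit 0x100e1407)) e
 (c z e
 (c z e
 (c z e
 (c (nat_lit 0x7fd4f7fd4f7fd3d7fd4f7fd4f25128) e
 (c (b (nat_lit 0xff01a09)) e
 (c (nat_lit 0x7f82f7f82f7f82f7f8257f823ce789) e
 (c (nat_lit 0x7fdc47fdc47fdc47fd827fd82beb89) e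
 (c (nat_lit 0x7fda17fda17fda17fd597fd5946ee9) e
 (c (nat_lit 0x7fbbd7fbbd7fbbd7fbbd7fb8e4016a) e
 (c (b (nat_lit 0xfff860a)) e e)))))))))))))))))))
 (c (nat_lit 0x80ff280ff280ff380ff3b8090)
 (c (nat_lit 0x7f8567f8437f82c7f8337f856fee43) e
 (c z e
 (c z e
 (c z e
 (c z e
 (c (nat_lit 0x80df580df580df580ddf80ddf68e06) e
 (c (b (nat_lit 0xfc97a07)) e
 (c z e
 (c z e
 (c (b (nat_lit 0x1038dc07)) e
 (c (nat_lit 0x7fbce7fbfa7fbfc7fbfc7fbfc44de8) e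
 (c (nat_lit 0x7f9737f9527f9737f9737f97371fe8) e
 (c (nat_lit 0x7f8c47f8c47f8b17f8c47f8c4d3e09) e
 (c (nat_lit 0x7fc4e7fc4e7fc317fc247fc4e39309) e
 (c (b (nat_lit 0xffaa409)) e
 (c (b (nat_lit 0xffa5009)) e
 (c (nat_lit 0x8000080000800007ffde7ffde5bfc9) e e)))))))))))))))))
 (c (nat_lit 0x80ffc80ffd80ffd80ffd0dfd0)
 (c z e
 (c z e
 (c z e
 (c z e
 (c z e
 (c z e
 (c z e
 (c (b (nat_lit 0x1042ee07)) e
 (c (b (nat_lit 0xff95c08)) e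
 (c (b (nat_lit 0xfe10408)) e
 (c (nat_lit 0x7edba7edb57edb17edba7edbaee648) e
 (c (nat_lit 0x7fd4f7fd4f7fd4f7fd4b7fd4f5dd09) e
 (c (nat_lit 0x7fc8f7fc8f7fc707fc847fc83c2629) e
 (c (b (nat_lit 0xffb6c09)) e
 (c (b (nat_lit 0xffb4609)) e e)))))))))))))))
 (c (a (nat_lit 0x101ff200))
 (c (nat_lit 0x7ee557ee557ede17ede17ee552f4a6) e
 (c z e
 (c (b (nat_lit 0xff13007)) e
 (c (b (nat_lit 0xffcf607)) e
 (c z e
 (c (b (nat_lit 0x101e4c07)) e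
 (c (b (nat_lit 0x10079408)) e
 (c (b (nat_lit 0xfe32a08)) e
 (c (b (nat_lit 0xfe86808)) e
 (c (nat_lit 0x7fd8f7fd8f7fd8f7fd8d7fd8f818c8) e
 (c (nat_lit 0x80000800007fd507fd167fd50205a8) e
 (c (nat_lit 0x8000080000800007fd4b7fd2ce0868) e e))))))))))))
 (c (a (nat_lit 0x101ff400))
 (c (nat_lit 0x7c1e57c64c7c64c7c64c7c64caf6a7) e
 (c z e
 (c z e
 (c (b (nat_lit 0x104fce07)) e
 (c (nat_lit 0x7f7787f7787f6fe7f7787f778d5108) e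
 (c (b (nat_lit 0xfb6ce08)) e
 (c (nat_lit 0x7f5177f52c7f52c7f52c7f52ce2308) e
 (c (nat_lit 0x7f7157f6f67f70d7f7157f71573f28) e
 (c (nat_lit 0x7f3137f3137f3067f3137f313ce2a8) e
 (c (nat_lit 0x80000800007f2ab7f2a07f2af88dc8) e
 (c (nat_lit 0x8000080000800007f2177f217cf848) e
 (c (nat_lit 0x800008000080000800007f4ac5c688) e e))))))))))))
 (c (nat_lit 0x80ffc80ffd80ffd80ffd0d270)
 (c z e
 (c (b (nat_lit 0x10390e07)) e
 (c (b (nat_lit 0xf335e08)) e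
 (c (b (nat_lit 0xfc2c408)) e
 (c (b (nat_lit 0xff2f008)) e
 (c (nat_lit 0x7f0507f05c7f0617f0617f06197768) e
 (c (nat_lit 0x7eff47f0097f0147f0147f014166a8) e
 (c (nat_lit 0x7f0137effd7f0137f0137f01356888) e
 (c (nat_lit 0x80000800007efb27efc07efc0c53e8) e
 (c (nat_lit 0x8000080000800007ef9b7efa3e9fa8) e
 (c (nat_lit 0x800008000080000800007f27dd20a8) e e)))))))))))
 (c (a (nat_lit 0x101ff600))
 (c (nat_lit 0x736c6736c6736b1736c6736c6dd128) e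
 (c (b (nat_lit 0xfc82c08)) e
 (c (b (nat_lit 0xfeca008)) e
 (c (nat_lit 0x7effe7f00c7f00c7f00c7f00c3ac88) e
 (c (nat_lit 0x7efd87efe37efef7efef7efef57ce8) e
 (c (nat_lit 0x7efbb7efb97efc47efc47efc42ff08) e
 (c (nat_lit 0x7efd77efc87efd77efd77efd737a88) e
 (c (nat_lit 0x80000800007efcd7efd67efd6abd48) e
 (c (nat_lit 0x8000080000800007efc07efc05d3e8) e
 (c (nat_lit 0x800008000080000800007f299ed208) e e))))))))))
 (c (a (nat_lit 0x101ffc00)) e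
 (c (a (nat_lit 0x101ff800)) e
 (c (nat_lit 0x80ffc80ffd80ffc80ffce2e50) e
 (c (a (nat_lit 0x101ffe00)) e
 (c (nat_lit 0x80ffd80ffd80ffd80ffcde5a0) e
 (c (nat_lit 0x80ffa80ffb80ffb80ffc4ca20) e
 (c (nat_lit 0x80ffb80ffb80ffb80ffc96e01) e
 (c (nat_lit 0x80ff580ff580ff680ff638e71) e
 (c (a (nat_lit 0x101a4601)) e
 (c (nat_lit 0x809ce809cf809ce809cec66e1) e
 (c (nat_lit 0x80e3780e3780e6780e672c7c2) e
 (c (nat_lit 0x80ed480ec880ed380ed318ae2) e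
 (c (nat_lit 0x80e9980e9880e9880e983a5c3) e
 (c (a (nat_lit 0x1017b203)) e
 (c (nat_lit 0x7fea37fea37fce87fce88d0a3) e
 (c (nat_lit 0x801b2801b2801b2801b342353) e
 (c (nat_lit 0x8068d806918069180692b7236) e
 (c (nat_lit 0x806a7806a8806ab806aa1ec56) e
 (c (nat_lit 0x806b0806b08069f806b2a99a7) e
 (c (a (nat_lit 0xffec407)) e
 (c (a (nat_lit 0x1006a807)) e
 (c (nat_lit 0x80c1b80c1c80c1c80c1c8d7b7) e e))))))))))))))))))))))))))))))) Tr.c Tr.e (nat_lit 0) C.t4 C.t5 C.t6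
noncomputable def tt328 : Tr := beta% (fun (c : Nat → Tr → Tr → Tr) (e : Tr) (z : Nat) (a b : Nat → Nat) =>
 (c (a (nat_lit 0xfed1c00))
 (c z e
 (c z e
 (c z e
 (c z e
 (c z e
 (c z e
 (c z e
 (c z e
 (c z e
 (c z e
 (c z e
 (c (nat_lit 0x8000080000800007ff6d7ff6d800005620b) e e))))))))))))
 (c (a (nat_lit 0xfe00000))
 (c z e
 (c z e
 (c z e
 (c z e
 (c z e
 (c z e
 (c z e
 (c z e
 (c (b (nat_lit 0xffffe0b)) e e)))))))))
 (c (a (nat_lit 0xfe00a00)) e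
 (c (a (nat_lit 0xfe01200)) e
 (c (a (nat_lit 0xfe00c01))
 (c z e
 (c (b (nat_lit 0x103faa0a)) e e))
 (c (a (nat_lit 0xfe02201))
 (c (b (nat_lit 0x1046f00b)) e
 (c (b (nat_lit 0x1037520b)) e e))
 (c (a (nat_lit 0xfe00401))
 (c (b (nat_lit 0x1036e80b)) e e)
 (c (a (nat_lit 0xfeeb201)) e
 (c (a (nat_lit 0xff84202)) e
 (c z e
 (c (a (nat_lit 0x104c3603)) e
 (c (a (nat_lit 0x10186403)) e
 (c (a (nat_lit 0xfed0403)) e
 (c z e
 (c z e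
 (c (a (nat_lit 0xfe0fa06)) e
 (c (a (nat_lit 0x102ec607)) e
 (c z e
 (c (a (nat_lit 0xffffc07)) e
 (c z e
 (c (a (nat_lit 0xfcf3a09)) e
 (c (a (nat_lit 0xfe8780a)) e
 (c (a (nat_lit 0xfe9ee0a)) e
 (c (nat_lit 0x7f54a7f54a7f53c7f5357f54a61aab) e
 (c (nat_lit 0x7f50f7f50f7f4a27f4a27f4a2e12ab) e e)))))))))))))))))))))))))) Tr.c Tr.e (nat_lit 0) C.t5 C.t6
noncomputable def tt329 : Tr := beta% (fun (c : Nat → Tr → Tr → Tr) (e : Tr) (z : Nat) (a b : Nat → Nat) =>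
 (c (a (nat_lit 0xfe00e00))
 (c (nat_lit 0x852aa8527385275852aa852aa852aa2f543) e
 (c (b (nat_lit 0x103d7203)) e
 (c (b (nat_lit 0x102c2803)) e
 (c (b (nat_lit 0xfe0a603)) e
 (c (b (nat_lit 0x10099606)) e
 (c (b (nat_lit 0x105ddc06)) e
 (c (nat_lit 0x82d4e82d4e82d2282d3a82d4e82d4e355c7) e
 (c z e
 (c z e
 (c z e
 (c (b (nat_lit 0xf78c60a)) e
 (c (b (nat_lit 0x1036d60a)) e
 (c (nat_lit 0x80ee680ee680e2e80eaf80ee680ee6fcfcb) e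
 (c (nat_lit 0x8120b8120b8120b811ef8120b8120bbd5cb) e
 (c (b (nat_lit 0x1025b00b)) e
 (c (b (nat_lit 0x1051be0b)) e e))))))))))))))))
 (c (a (nat_lit 0xfe01a00))
 (c z e
 (c z e
 (c z e
 (c z e
 (c z e
 (c z e
 (c z e
 (c z e
 (c z e
 (c (b (nat_lit 0x1029100a)) e
 (c (b (nat_lit 0x100b7c0b)) e
 (c (b (nat_lit 0x1011ce0b)) e
 (c (b (nat_lit 0x1039c40b)) e e)))))))))))))
 (c (a (nat_lit 0xfe01000))
 (c z e
 (c z e
 (c z e
 (c z e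
 (c z e
 (c z e
 (c z e
 (c z e
 (c z e
 (c z e
 (c z e
 (c (b (nat_lit 0xfff600b)) e e))))))))))))
 (c (a (nat_lit 0xfe02400))
 (c z e
 (c z e
 (c z e
 (c z e
 (c z e
 (c z e
 (c z e
 (c z e
 (c z e
 (c (b (nat_lit 0x103db80b)) e e))))))))))
 (c (a (nat_lit 0xfdff400))
 (c z e
 (c z e
 (c (nat_lit 0x800008000080000800007faff800008ecc7) e
 (c z e
 (c z e
 (c z e
 (c z e
 (c z e
 (c (nat_lit 0x8000080000800007fcf5800008000047dd2) e e)))))))))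
 (c (a (nat_lit 0xfe01200))
 (c z e
 (c (nat_lit 0x80bec80b5480b5480bec80bec80bec3280a) e
 (c (b (nat_lit 0x1030d60b)) e
 (c z e
 (c (b (nat_lit 0x102af40b)) e
 (c z e
 (c (b (nat_lit 0x1053ac12)) e
 (c z e
 (c (nat_lit 0x800008000080000800007ff4f800000aa4e) e e)))))))))
 (c (a (nat_lit 0xfe02801))
 (c (nat_lit 0x81b8181b8181b3381b8181b8181b8153d8b) e
 (c (b (nat_lit 0x1030720b)) e
 (c z e
 (c (b (nat_lit 0x1050440b)) e e))))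
 (c (a (nat_lit 0xfe01201)) e
 (c (nat_lit 0x7f0117f0117f0117f0107f0102aa01) e
 (c (a (nat_lit 0xfe91801)) e
 (c (a (nat_lit 0xf9c5a02)) e
 (c (a (nat_lit 0xfab6402)) e
 (c (a (nat_lit 0xffcae03)) e
 (c z e
 (c (a (nat_lit 0xff58c03)) e
 (c z e
 (c (a (nat_lit 0xfedac06)) e
 (c (a (nat_lit 0xfe8a606)) e
 (c (a (nat_lit 0xff24c07)) e
 (c z e
 (c z e
 (c (a (nat_lit 0x100f4007)) e
 (c (nat_lit 0x7f8cf7f86b7f86b7f8cf7f8cfa54ca) e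
 (c (nat_lit 0x7f18c7f15c7f1787f18c7f18cf496a) e
 (c (nat_lit 0x7f18f7f18f7f17a7f17a7f18fc752b) e
 (c (nat_lit 0x7f2c27f2c27f2c27f27e7f27eba90b) e e))))))))))))))))))))))))))) Tr.c Tr.e (nat_lit 0) C.t5 C.t6
noncomputable def tt330 : Tr := beta% (fun (c : Nat → Tr → Tr → Tr) (e : Tr) (z : Nat) (a b d : Nat → Nat) =>
 (c (a (nat_lit 0xfe02a00))
 (c z
 (c (d (nat_lit 0x10920c07)) e
 (c z e
 (c (d (nat_lit 0x1046640a)) e
 (c z e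
 (c z e
 (c (d (nat_lit 0xffc8c0b)) e
 (c z e
 (c z e
 (c (nat_lit 0x80000800008000080000800007ff328000074e8b) e e)))))))))
 (c (b (nat_lit 0xf836c02)) e
 (c z e
 (c z e
 (c z e
 (c z e
 (c (b (nat_lit 0x101ba603)) e
 (c z e
 (c z e
 (c z e
 (c z e
 (c z e
 (c (b (nat_lit 0x103a6407)) e
 (c (b (nat_lit 0x102f1e0a)) e
 (c z e
 (c (b (nat_lit 0x10156c0b)) e
 (c z e
 (c z e
 (c (b (nat_lit 0x101efc0e)) e
 (c (b (nat_lit 0x101e800e)) e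
 (c z e
 (c z e
 (c z e
 (c z e
 (c (nat_lit 0x80000800008000080000800007feff6ebcf) e e)))))))))))))))))))))))))
 (c (a (nat_lit 0xfe02400))
 (c (nat_lit 0x7e07f7e0817e16f7e16f7e16f7e16f8a402)
 (c (d (nat_lit 0xf04ac0b)) e e)
 (c z e
 (c z e
 (c z e
 (c z e
 (c (nat_lit 0x7ffe27ff728000080000800008000012286) e
 (c z e
 (c z e
 (c z e
 (c z e
 (c z e
 (c z e
 (c (nat_lit 0x822cb822c2822c2822cb822cb822cbe1a8b) e
 (c (b (nat_lit 0x10228e0b)) e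
 (c (b (nat_lit 0x103f5c0b)) e
 (c (b (nat_lit 0x103b340b)) e
 (c z e
 (c z e
 (c (nat_lit 0x800008000080000806a1806a1806a1b1fd8) e e)))))))))))))))))))
 (c (a (nat_lit 0xfe00e00))
 (c z e
 (c z e
 (c z e
 (c z e
 (c z e
 (c z e
 (c (nat_lit 0x7fdf97fdf98000080000800008000056287) e
 (c z e
 (c z e
 (c z e
 (c (b (nat_lit 0xf8a340b)) e
 (c (b (nat_lit 0x100bf60b)) e
 (c (b (nat_lit 0x1008ae0b)) e
 (c z e
 (c (nat_lit 0x7ff9c80000800007ffae7ffae800004e08e) e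
 (c (nat_lit 0x800007ff2c80000800008000080000d100e) e e))))))))))))))))
 (c (a (nat_lit 0xfe01400)) e
 (c (a (nat_lit 0xfe01e00))
 (c z e
 (c (nat_lit 0x803f1803f1803f1803e3803f1803f18cf07) e
 (c z e
 (c z e
 (c (b (nat_lit 0x10207a07)) e
 (c (b (nat_lit 0x101a640a)) e
 (c z e
 (c z e
 (c z e
 (c z e
 (c (nat_lit 0x800007ffcf7ff50800008000080000fa34e) e
 (c (nat_lit 0x8180d8180d8180d817928180d8180d31a4e) e e))))))))))))
 (c (a (nat_lit 0xfe02c00))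
 (c (nat_lit 0x800008000080000800007ff8e80000669c6) e
 (c z e
 (c z e
 (c z e
 (c (b (nat_lit 0x1017c80b)) e
 (c (b (nat_lit 0x101a0c0b)) e
 (c z e
 (c z e
 (c (nat_lit 0x80fd480fd480f9e80fd480fd480fd45fd8e) e
 (c (nat_lit 0x7f7007f7007f7007f6a47f7007f7005390e) e
 (c (nat_lit 0x800008000080000800007fd337fd46e3a0e) e e)))))))))))
 (c (a (nat_lit 0xfe02600))
 (c z e
 (c (nat_lit 0x8127c8127c811d68127c8127c8127c9c90a) e
 (c (b (nat_lit 0x1034680b)) e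
 (c (b (nat_lit 0xfff7a0b)) e
 (c z e
 (c z e
 (c (b (nat_lit 0x103eea0e)) e e)))))))
 (c (a (nat_lit 0xfe02c00))
 (c (b (nat_lit 0x100d280b)) e
 (c z e
 (c z e
 (c z e
 (c (b (nat_lit 0xffe660e)) e
 (c (nat_lit 0x81c4c8183c81c4c81c4c81c4c81c4c1298e) e e))))))
 (c (a (nat_lit 0xfe01201))
 (c z e
 (c z e
 (c (b (nat_lit 0xfff600e)) e
 (c (b (nat_lit 0x1034220e)) e e))))
 (c (a (nat_lit 0xfe01e01))
 (c z e
 (c (nat_lit 0x82c2382c2382c23829b782c2382c230798e) e e))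
 (c (nat_lit 0x7f0127f0127f0127f0107f012087e1) e
 (c (a (nat_lit 0xfe02001)) e
 (c (nat_lit 0x7deb47def57def57def57def5e0be2) e
 (c (a (nat_lit 0xfdc8602)) e
 (c (a (nat_lit 0xffe9e03)) e
 (c (a (nat_lit 0xfef5803)) e
 (c z e
 (c z e
 (c (a (nat_lit 0xff47c06)) e
 (c (a (nat_lit 0xfedde06)) e
 (c (a (nat_lit 0xff41807)) e
 (c (a (nat_lit 0xff2be07)) e
 (c z e
 (c z e
 (c (nat_lit 0x7f28b7f2677f28b7f28b7f28bb4c2a) e
 (c (nat_lit 0x7f3067f3067f2bd7f3067f3061b6cb) e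
 (c (a (nat_lit 0xfe77e0b)) e
 (c z e
 (c z e
 (c (nat_lit 0x7f3927f3927f32e7f3927f39215bae) e
 (c (nat_lit 0x7f39f7f39f7f39f7f3157f39f22fae) e e)))))))))))))))))))))))))))))))) Tr.c Tr.e (nat_lit 0) C.t5 C.t6 C.t7
noncomputable def tt331 : Tr := beta% (fun (c : Nat → Tr → Tr → Tr) (e : Tr) (z : Nat) (a b d : Nat → Nat) =>
 (c (a (nat_lit 0xfe02400))
 (c (b (nat_lit 0x101db801))
 (c z e
 (c (d (nat_lit 0x10f02a07)) e
 (c (d (nat_lit 0x10528e07)) e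
 (c (d (nat_lit 0x10b7da0b)) e
 (c (nat_lit 0x8000080000800007fea78000080000800004880b) e
 (c (nat_lit 0x7f0767f0767f0767efdb7f0767f0767f076a1f0b) e
 (c (d (nat_lit 0x10331c0b)) e
 (c z e
 (c (d (nat_lit 0x1058120e)) e
 (c (nat_lit 0x8000080000800007ff39800008000080000c4f16) e e))))))))))
 (c z e
 (c z e
 (c z e
 (c (b (nat_lit 0x103b2c03))
 (c z e
 (c (d (nat_lit 0xffcb016)) e e))
 (c (b (nat_lit 0x102f9203)) e
 (c (b (nat_lit 0x101f6003)) e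
 (c z e
 (c z e
 (c (nat_lit 0x80d3e80d3e80d3580d3e80d3e80d3e7d506) e
 (c (nat_lit 0x823e6823e6823e6822fb823e6823e6f7787) e
 (c z e
 (c z e
 (c z e
 (c z e
 (c (b (nat_lit 0x10279a0b)) e
 (c z e
 (c z e
 (c (b (nat_lit 0xffda80e)) e
 (c z e
 (c (b (nat_lit 0x101fb816)) e e)))))))))))))))))))))
 (c (a (nat_lit 0xfe02400))
 (c (b (nat_lit 0xfc1b402)) e
 (c z e
 (c z e
 (c z e
 (c z e
 (c z e
 (c z e
 (c z e
 (c z e
 (c z e
 (c z e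
 (c z e
 (c (b (nat_lit 0x1022700b)) e
 (c (b (nat_lit 0x101b5e0b)) e
 (c (b (nat_lit 0x1032a40b)) e
 (c (nat_lit 0x7ffe77ffe77ffe77ff5e7ff5e7ffe7cab8b) e
 (c (b (nat_lit 0x10205c0e)) e
 (c z e
 (c z e
 (c z e
 (c z e
 (c z e
 (c z e
 (c (nat_lit 0x80000800008000080000800007ffe582599) e e))))))))))))))))))))))))
 (c (a (nat_lit 0xfe01200))
 (c z e
 (c z e
 (c z e
 (c z e
 (c z e
 (c (b (nat_lit 0xff01806)) e
 (c z e
 (c z e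
 (c z e
 (c z e
 (c z e
 (c (b (nat_lit 0x101c0e0b)) e
 (c z e
 (c z e
 (c z e
 (c z e
 (c (b (nat_lit 0xfffea13)) e e)))))))))))))))))
 (c (a (nat_lit 0xfe01800))
 (c z e
 (c z e
 (c z e
 (c z e
 (c z e
 (c z e
 (c z e
 (c z e
 (c z e
 (c z e
 (c (b (nat_lit 0x101e080b)) e e)))))))))))
 (c (a (nat_lit 0xfe02a00))
 (c (nat_lit 0x800007ffa38000080000800008000038c46) e
 (c (b (nat_lit 0x1037c206)) e
 (c z e
 (c z e
 (c z e
 (c z e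
 (c (nat_lit 0x8000080000800007ff658000080000b588a) e
 (c (b (nat_lit 0x1015260b)) e
 (c (b (nat_lit 0xfffc00b)) e
 (c z e
 (c (b (nat_lit 0x1041000e)) e
 (c (b (nat_lit 0x107f300e)) e e))))))))))))
 (c (a (nat_lit 0xfe02a00))
 (c z e
 (c z e
 (c z e
 (c z e
 (c (nat_lit 0x7f60e7f60e7f60e7f17e7f60e7f60e3f70b) e
 (c (b (nat_lit 0xff7940b)) e
 (c (b (nat_lit 0xfffaa0b)) e
 (c z e
 (c z e
 (c (b (nat_lit 0x10090a0e)) e e))))))))))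
 (c (a (nat_lit 0xfe01e00))
 (c z e
 (c z e
 (c z e
 (c z e
 (c (b (nat_lit 0xfffc60b)) e
 (c z e
 (c (b (nat_lit 0x101b4a0e)) e
 (c z e
 (c (nat_lit 0x80000800007ffd08000080000800009b892) e e)))))))))
 (c (a (nat_lit 0xfe03a00))
 (c z e
 (c (b (nat_lit 0x100a600b)) e
 (c z e
 (c (b (nat_lit 0xfffbe0b)) e
 (c z e
 (c (b (nat_lit 0x105c560e)) e e))))))
 (c (nat_lit 0x7f01c7f0187f0187f01a7f01a15380)
 (c z e
 (c z e
 (c z e
 (c (b (nat_lit 0x1066780e)) e e))))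
 (c (a (nat_lit 0xfe01801))
 (c (b (nat_lit 0x106d060e)) e
 (c (b (nat_lit 0x1059740e)) e e))
 (c (a (nat_lit 0xfe02401))
 (c z e
 (c (nat_lit 0x8000080000800007fe8d7fe8d8000005e20) e e))
 (c (a (nat_lit 0xfdfec01)) e
 (c z e
 (c (a (nat_lit 0xff2ee02)) e
 (c (a (nat_lit 0xff67a02)) e
 (c (a (nat_lit 0xffb8a03)) e
 (c z e
 (c z e
 (c z e
 (c z e
 (c (a (nat_lit 0xfe35e06)) e
 (c (a (nat_lit 0xfe84207)) e
 (c z e
 (c z e
 (c z e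
 (c (nat_lit 0x7ee9b7ee9b7ee0b7ee9b7ee9b7f76b) e
 (c (a (nat_lit 0xfe6e60b)) e
 (c z e
 (c (nat_lit 0x8077d8077d808618086180861f238b) e
 (c (nat_lit 0x800007ffe67ffe67ffe6800004364e) e
 (c (nat_lit 0x7f6757f6247f6247f6757f67523a0e) e e)))))))))))))))))))))))))))))))) Tr.c Tr.e (nat_lit 0) C.t5 C.t6 C.t7
noncomputable def tt332 : Tr := beta% (fun (c : Nat → Tr → Tr → Tr) (e : Tr) (z : Nat) (a b d : Nat → Nat) =>
 (c (a (nat_lit 0xfe02800))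
 (c (b (nat_lit 0x101f6400)) e
 (c (b (nat_lit 0x101fbe01)) e
 (c (b (nat_lit 0x101fc401)) e
 (c (b (nat_lit 0x101fd201)) e
 (c z e
 (c z e
 (c z e
 (c z e
 (c (b (nat_lit 0x100f7203)) e
 (c z e
 (c z e
 (c z e
 (c z e
 (c z e
 (c z e
 (c z e
 (c z e
 (c (b (nat_lit 0x1009480b)) e
 (c z e
 (c z e
 (c z e
 (c z e
 (c (b (nat_lit 0x10110a16)) e e)))))))))))))))))))))))
 (c (a (nat_lit 0xfe02800))
 (c (b (nat_lit 0x101f9201))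
 (c z e
 (c z e
 (c z e
 (c z e
 (c z e
 (c z e
 (c z e
 (c z e
 (c z e
 (c z e
 (c (d (nat_lit 0xfc54216)) e e)))))))))))
 (c (b (nat_lit 0x101fc401)) e
 (c z e
 (c z e
 (c z e
 (c z e
 (c (b (nat_lit 0x10168003)) e
 (c (b (nat_lit 0x101a8003)) e
 (c z e
 (c z e
 (c z e
 (c z e
 (c z e
 (c z e
 (c z e
 (c z e
 (c z e
 (c z e
 (c z e
 (c (nat_lit 0x8000080000800007ff7b7ff7b800008bb4e) e
 (c (nat_lit 0x800008000080000800007fd477fd4779e4e) e e)))))))))))))))))))))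
 (c (a (nat_lit 0xfe01e00))
 (c (b (nat_lit 0x101fe601)) e
 (c z e
 (c z e
 (c z e
 (c z e
 (c z e
 (c z e
 (c z e
 (c (b (nat_lit 0xff2b206)) e
 (c z e
 (c z e
 (c z e
 (c z e
 (c (b (nat_lit 0x1013f20b)) e
 (c z e
 (c z e
 (c (b (nat_lit 0xfff5c0e)) e e)))))))))))))))))
 (c (a (nat_lit 0xfe01a00))
 (c z e
 (c z e
 (c z e
 (c z e
 (c (b (nat_lit 0xff70c03)) e
 (c z e
 (c z e
 (c z e
 (c z e
 (c z e
 (c z e
 (c z e
 (c (b (nat_lit 0x1031580b)) e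
 (c (b (nat_lit 0x100e9e0b)) e
 (c (b (nat_lit 0xffc6a0e)) e
 (c (b (nat_lit 0xffe620e)) e
 (c z e
 (c (b (nat_lit 0xffec813)) e e))))))))))))))))))
 (c (a (nat_lit 0xfe01400))
 (c z e
 (c z e
 (c z e
 (c (b (nat_lit 0xffd7406)) e e))))
 (c (a (nat_lit 0xfe01c00))
 (c z e
 (c (b (nat_lit 0x1017fe06)) e
 (c z e
 (c (b (nat_lit 0xfc72007)) e e))))
 (c (a (nat_lit 0xfe02c00))
 (c (b (nat_lit 0x102d1e06)) e
 (c (b (nat_lit 0x10080407)) e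
 (c z e
 (c z e
 (c z e
 (c z e
 (c z e
 (c z e
 (c z e
 (c (b (nat_lit 0x1007760e)) e
 (c (b (nat_lit 0xfe52a12)) e e)))))))))))
 (c (a (nat_lit 0xfe02600))
 (c z e
 (c z e
 (c z e
 (c z e
 (c z e
 (c z e
 (c z e
 (c z e
 (c (b (nat_lit 0xff3e812)) e e)))))))))
 (c (nat_lit 0x7f0267f0267f0247f0247f024de2a0) e
 (c (a (nat_lit 0xfe02600)) e
 (c (a (nat_lit 0xfe02800)) e
 (c (a (nat_lit 0xfe02801))
 (c (nat_lit 0x80000800007eb987eb987eb987eb984f650) e e)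
 (c (a (nat_lit 0xfe01601)) e
 (c (nat_lit 0x7f02f7f02f7f02f7f0157f0175be01) e
 (c (a (nat_lit 0xff42801)) e
 (c (a (nat_lit 0xff46002)) e
 (c (a (nat_lit 0xff2b002)) e
 (c (a (nat_lit 0xff35203)) e
 (c (a (nat_lit 0xffc0e03)) e
 (c (a (nat_lit 0x10007803)) e
 (c z e
 (c z e
 (c (a (nat_lit 0xff85006)) e
 (c (a (nat_lit 0xffe6207)) e
 (c (a (nat_lit 0xffd3807)) e
 (c z e
 (c z e
 (c z e
 (c z e
 (c z e
 (c z e
 (c (a (nat_lit 0xfdbe20e)) e e))))))))))))))))))))))))))))))))) Tr.c Tr.e (nat_lit 0) C.t5 C.t6 C.t7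
noncomputable def tt333 : Tr := beta% (fun (c : Nat → Tr → Tr → Tr) (e : Tr) (z : Nat) (a b : Nat → Nat) =>
 (c (a (nat_lit 0x101f6400))
 (c z e
 (c z e
 (c z e
 (c z e
 (c z e
 (c z e
 (c (b (nat_lit 0xf7e3807)) e
 (c (b (nat_lit 0xf964a07)) e
 (c z e
 (c z e
 (c z e
 (c z e
 (c z e
 (c z e
 (c z e
 (c (b (nat_lit 0x10225219)) e e))))))))))))))))
 (c (a (nat_lit 0x101f6600))
 (c z e
 (c z e
 (c z e
 (c z e
 (c z e
 (c z e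
 (c z e
 (c z e
 (c (b (nat_lit 0xffaca0b)) e
 (c z e
 (c z e
 (c (b (nat_lit 0xec7a00e)) e
 (c z e
 (c z e
 (c (b (nat_lit 0xffc2629)) e e)))))))))))))))
 (c (a (nat_lit 0x101f6a00))
 (c z e
 (c z e
 (c z e
 (c z e
 (c z e
 (c z e
 (c (b (nat_lit 0xffaec0b)) e
 (c z e
 (c (nat_lit 0x80000800007fe9080000800008000080000b890b) e e)))))))))
 (c (a (nat_lit 0x101fc001))
 (c z e
 (c z e
 (c z e
 (c z e
 (c z e
 (c z e
 (c (nat_lit 0x80000800007feb8800008000080000800007f88b) e e)))))))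
 (c (a (nat_lit 0x101fc801)) e
 (c (a (nat_lit 0x101fca01)) e
 (c z e
 (c z
 (c (b (nat_lit 0xfe4ce0e)) e e)
 (c z e
 (c (a (nat_lit 0x101caa03)) e
 (c z e
 (c z e
 (c z e
 (c z e
 (c z e
 (c (a (nat_lit 0xfdae007)) e
 (c z e
 (c z e
 (c z e
 (c (a (nat_lit 0x1007f00b)) e
 (c z e
 (c z e
 (c z e
 (c (nat_lit 0x7fffe7fffe7ff767ff767fffe7fffedf30e) e
 (c (nat_lit 0x80000800008000080000800007fe626f6ce) e e)))))))))))))))))))))))))) Tr.c Tr.e (nat_lit 0) C.t6 C.t7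
noncomputable def tt334 : Tr := beta% (fun (c : Nat → Tr → Tr → Tr) (e : Tr) (z : Nat) (a b d : Nat → Nat) =>
 (c (a (nat_lit 0xfe02200))
 (c (b (nat_lit 0x101f6800)) e
 (c (b (nat_lit 0x101f8600))
 (c z e
 (c z e
 (c z e
 (c z e
 (c z e
 (c z e
 (c z e
 (c z e
 (c z e
 (c z e
 (c z e
 (c z e
 (c (d (nat_lit 0xffca80e)) e
 (c z e
 (c z e
 (c (d (nat_lit 0xffe7a1a)) e e))))))))))))))))
 (c (b (nat_lit 0x101f8000)) e
 (c (b (nat_lit 0x101f8800)) e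
 (c (b (nat_lit 0x101fcc01)) e
 (c (b (nat_lit 0x101fde01)) e
 (c (b (nat_lit 0x101fd001)) e
 (c (b (nat_lit 0x10045c01)) e
 (c (b (nat_lit 0x101a7402)) e
 (c (b (nat_lit 0x101fc602)) e
 (c (b (nat_lit 0x10137203)) e
 (c z e
 (c z e
 (c z e
 (c (b (nat_lit 0xfefe006)) e
 (c z e
 (c z e
 (c z e
 (c z e
 (c z e
 (c z e
 (c (b (nat_lit 0xff9860b)) e
 (c z e
 (c (b (nat_lit 0xfff980e)) e
 (c (b (nat_lit 0xffe3016)) e e)))))))))))))))))))))))))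
 (c (a (nat_lit 0xfe01c00))
 (c (b (nat_lit 0x101f6c00)) e
 (c (b (nat_lit 0x101f7600)) e
 (c (b (nat_lit 0x101fce01)) e
 (c (b (nat_lit 0x101fe401)) e
 (c (b (nat_lit 0x101fd601)) e
 (c (b (nat_lit 0x101fc001)) e
 (c z e
 (c z e
 (c (b (nat_lit 0x101ec403)) e
 (c z e
 (c (b (nat_lit 0x101f4003)) e
 (c (nat_lit 0x7e9427e9427e97d7e97d7e97d7e97d3c1c3) e
 (c z e
 (c z e
 (c z e
 (c z e
 (c z e
 (c z e
 (c z e
 (c z e
 (c (b (nat_lit 0xffe980e)) e e)))))))))))))))))))))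
 (c (a (nat_lit 0xfe01c00))
 (c (b (nat_lit 0x101fc401)) e
 (c (b (nat_lit 0x101fce01)) e
 (c (b (nat_lit 0x101fe601)) e
 (c (b (nat_lit 0x101fd801)) e
 (c z e
 (c z e
 (c (b (nat_lit 0x10181003)) e
 (c (b (nat_lit 0x1022fa03)) e
 (c (b (nat_lit 0x10159803)) e
 (c z e
 (c z e
 (c z e
 (c z e
 (c z e
 (c z e
 (c z e
 (c z e
 (c z e
 (c z e
 (c z e
 (c (b (nat_lit 0xfff5013)) e e)))))))))))))))))))))
 (c (a (nat_lit 0xfe01800))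
 (c (b (nat_lit 0x101ff201)) e
 (c z e
 (c z e
 (c z e
 (c z e
 (c (b (nat_lit 0x101b9803)) e
 (c z e
 (c z e
 (c z e
 (c z e
 (c z e
 (c z e
 (c z e
 (c z e
 (c z e
 (c z e
 (c z e
 (c z e
 (c (b (nat_lit 0xfff6a13)) e e)))))))))))))))))))
 (c (a (nat_lit 0xfe01200)) e
 (c (a (nat_lit 0xfe00c00))
 (c z e
 (c z e
 (c z e
 (c z e
 (c z e
 (c z e
 (c z e
 (c z e
 (c z e
 (c z e
 (c z e
 (c z e
 (c z e
 (c (b (nat_lit 0xffef00e)) e e))))))))))))))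
 (c (a (nat_lit 0xfe01800))
 (c z e
 (c z e
 (c z e
 (c z e
 (c z e
 (c z e
 (c z e
 (c z e
 (c z e
 (c z e
 (c z e
 (c z e
 (c (b (nat_lit 0xfe0f612)) e
 (c z e
 (c (b (nat_lit 0xfff1e18)) e e)))))))))))))))
 (c (a (nat_lit 0xfe01c00)) e
 (c (a (nat_lit 0xfe01200))
 (c z e
 (c (b (nat_lit 0xfe72207)) e
 (c z e
 (c z e
 (c z e
 (c z e
 (c z e
 (c z e
 (c (b (nat_lit 0xfffcc11)) e e)))))))))
 (c (nat_lit 0x7f01f7f01f7f01e7f01e7f01e18ce0)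
 (c (b (nat_lit 0xff81007)) e e)
 (c (nat_lit 0x7f0097f0087f0097f0097f009ce1c0) e
 (c (a (nat_lit 0xfe00400)) e
 (c (a (nat_lit 0xfe01800)) e
 (c (a (nat_lit 0xfe01001)) e
 (c (a (nat_lit 0xfe01601))
 (c (nat_lit 0x80000800008000087bb787bb787bb77b2d0) e
 (c (nat_lit 0x8000080000800008000081082810823ff90) e e))
 (c (a (nat_lit 0xfe00401)) e
 (c (a (nat_lit 0xfec8201)) e
 (c (a (nat_lit 0xfea1402)) e
 (c (a (nat_lit 0xfe60602)) e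
 (c (a (nat_lit 0xff65203)) e
 (c (a (nat_lit 0xffd3403)) e
 (c z e
 (c (a (nat_lit 0xffb1a03)) e
 (c (a (nat_lit 0xff7ca06)) e
 (c (a (nat_lit 0xff84206)) e
 (c (a (nat_lit 0xffb2607)) e
 (c (a (nat_lit 0xffa9007)) e
 (c z e
 (c z e
 (c z e
 (c z e
 (c (a (nat_lit 0xfff240e)) e e))))))))))))))))))))))))))))))))) Tr.c Tr.e (nat_lit 0) C.t5 C.t6 C.t7
noncomputable def tt335 : Tr := beta% (fun (c : Nat → Tr → Tr → Tr) (e : Tr) (z : Nat) (a b : Nat → Nat) =>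
 (c (a (nat_lit 0x101c9200))
 (c z e
 (c (nat_lit 0x7f29c7f29c7f29c7f1127f29c7f29c7f29ce2701) e
 (c (b (nat_lit 0xfee9402)) e
 (c z e
 (c z e
 (c z e
 (c z e
 (c z e
 (c z e
 (c z e
 (c z e
 (c z e
 (c (b (nat_lit 0xfff0807)) e
 (c z e
 (c (nat_lit 0x800008000080000800007ff18800008000049b07) e
 (c (b (nat_lit 0xfff120b)) e
 (c z e
 (c z e
 (c (b (nat_lit 0xffff81a)) e
 (c (b (nat_lit 0xff92c1a)) e e))))))))))))))))))))
 (c (a (nat_lit 0x101f7000))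
 (c (b (nat_lit 0xf8dee02)) e
 (c z e
 (c z e
 (c z e
 (c z e
 (c z e
 (c z e
 (c z e
 (c z e
 (c z e
 (c z e
 (c z e
 (c z e
 (c z e
 (c z e
 (c z e
 (c z e
 (c (b (nat_lit 0xffecc1a)) e
 (c (b (nat_lit 0xfff0e2a)) e e)))))))))))))))))))
 (c (a (nat_lit 0x101f7800))
 (c z e
 (c z e
 (c z e
 (c z e
 (c z e
 (c z e
 (c z e
 (c z e
 (c z e
 (c z e
 (c z e
 (c z e
 (c z e
 (c z e
 (c (b (nat_lit 0xffe4c1a)) e e)))))))))))))))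
 (c (a (nat_lit 0x101f8400))
 (c z e
 (c z e
 (c z e
 (c z e
 (c z e
 (c z e
 (c z e
 (c z e
 (c z e
 (c z e
 (c z e
 (c z e
 (c z e
 (c z e
 (c (b (nat_lit 0xfff7c26)) e e)))))))))))))))
 (c (a (nat_lit 0x101f7a00))
 (c z e
 (c z e
 (c z e
 (c z e
 (c z e
 (c z e
 (c z e
 (c (nat_lit 0x800007ff967ff4c80000800008000080000f350b) e e))))))))
 (c (a (nat_lit 0x101f8800))
 (c z e
 (c z e
 (c z e
 (c z e
 (c z e
 (c (nat_lit 0x80000800007fd72800008000080000800004f98b) e e))))))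
 (c (nat_lit 0x80ffd80ff580ff580ff580ff580ff53e5c1) e
 (c (a (nat_lit 0x101fc201)) e
 (c (a (nat_lit 0x1014f001)) e
 (c (a (nat_lit 0x100f5601))
 (c z e
 (c (b (nat_lit 0xffffe1a)) e
 (c (b (nat_lit 0xffdea22)) e e)))
 (c (a (nat_lit 0x100b4402)) e
 (c (a (nat_lit 0x100c5602)) e
 (c z e
 (c (a (nat_lit 0x102a6803)) e
 (c z e
 (c z e
 (c z e
 (c (a (nat_lit 0x10035406)) e
 (c z e
 (c z e
 (c z e
 (c z e
 (c z e
 (c z e
 (c z e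
 (c z e
 (c z e
 (c (a (nat_lit 0xfff1c1a)) e e))))))))))))))))))))))))))))) Tr.c Tr.e (nat_lit 0) C.t6 C.t7
noncomputable def tt336 : Tr := beta% (fun (c : Nat → Tr → Tr → Tr) (e : Tr) (z : Nat) (a b d : Nat → Nat) =>
 (c (a (nat_lit 0xfe01a00))
 (c (b (nat_lit 0x101fec01))
 (c (d (nat_lit 0x11000807)) e
 (c z e
 (c z e
 (c z e
 (c z e
 (c (d (nat_lit 0xf53820e)) e
 (c (d (nat_lit 0xfd61e0f)) e
 (c (d (nat_lit 0xffee20f)) e e))))))))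
 (c (b (nat_lit 0x101fcc01)) e
 (c z e
 (c z e
 (c z e
 (c z e
 (c (b (nat_lit 0x10324c03)) e
 (c z e
 (c z e
 (c z e
 (c z e
 (c z e
 (c (b (nat_lit 0xfdc3407)) e
 (c (b (nat_lit 0xff88c07)) e
 (c z e
 (c (b (nat_lit 0x10027a0b)) e
 (c (b (nat_lit 0x1028420e)) e
 (c (b (nat_lit 0x100cac0e)) e
 (c (nat_lit 0x8000080000800007ff8d7ff7380000981cf) e
 (c (b (nat_lit 0xfffe20f)) e
 (c (b (nat_lit 0xfffd00f)) e
 (c z e
 (c (nat_lit 0x800008000080000800007ffe67ffe6e8dd6) e e)))))))))))))))))))))))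
 (c (a (nat_lit 0xfe00c00))
 (c z e
 (c z e
 (c z e
 (c (b (nat_lit 0x10082803)) e
 (c (b (nat_lit 0x10169203)) e
 (c (b (nat_lit 0x10182e03)) e
 (c z e
 (c z e
 (c z e
 (c z e
 (c (b (nat_lit 0xfb54c07)) e
 (c (b (nat_lit 0xff4b407)) e
 (c z e
 (c (b (nat_lit 0x1009be0b)) e
 (c (b (nat_lit 0x10159a0e)) e
 (c (b (nat_lit 0x10158e0e)) e
 (c (b (nat_lit 0xfe5220f)) e
 (c z e
 (c (b (nat_lit 0xfffb00f)) e
 (c (b (nat_lit 0x1028c40f)) e e))))))))))))))))))))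
 (c (a (nat_lit 0xfe01000))
 (c z e
 (c z e
 (c z e
 (c z e
 (c z e
 (c (b (nat_lit 0xfe89206)) e
 (c z e
 (c z e
 (c z e
 (c z e
 (c z e
 (c z e
 (c (b (nat_lit 0x100a340e)) e
 (c z e
 (c z e
 (c (b (nat_lit 0xfff800f)) e e))))))))))))))))
 (c (a (nat_lit 0xfe01c00))
 (c z e
 (c z e
 (c z e
 (c (b (nat_lit 0xfdb1406)) e
 (c (b (nat_lit 0xffb6e06)) e
 (c z e
 (c z e
 (c z e
 (c z e
 (c z e
 (c (b (nat_lit 0x100ffe0e)) e e)))))))))))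
 (c (a (nat_lit 0xfe02000))
 (c z e
 (c (b (nat_lit 0x10697e06)) e
 (c (b (nat_lit 0x10517006)) e
 (c (b (nat_lit 0xfbf6407)) e
 (c z e
 (c z e
 (c z e
 (c (b (nat_lit 0xf9d8c0b)) e
 (c z e
 (c z e
 (c (b (nat_lit 0xfedd40f)) e e)))))))))))
 (c (a (nat_lit 0xfe02200))
 (c (b (nat_lit 0x1062ca06)) e
 (c (b (nat_lit 0x102fe007)) e
 (c z e
 (c z e
 (c (b (nat_lit 0x10757607)) e
 (c z e
 (c (b (nat_lit 0xfe9120e)) e
 (c (b (nat_lit 0x10107a0e)) e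
 (c z e
 (c z e
 (c (b (nat_lit 0xffea60f)) e e)))))))))))
 (c (nat_lit 0x7f0277f0257f0247f0247f0247fc40)
 (c (nat_lit 0x80000800007fccd80000800008000033f87) e
 (c z e
 (c (b (nat_lit 0x102ade07)) e
 (c z e
 (c z e
 (c z e
 (c (nat_lit 0x80000800007feac7ff488000080000a1e8f) e
 (c (b (nat_lit 0xfff560f)) e
 (c z e
 (c (b (nat_lit 0x100ade0f)) e
 (c z e
 (c z e
 (c z e
 (c z e
 (c (nat_lit 0x80000800008000080000800007ffffd2598) e e)))))))))))))))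
 (c (a (nat_lit 0xfe01800))
 (c z e
 (c (b (nat_lit 0x1044cc0b)) e
 (c (b (nat_lit 0x104ee20e)) e
 (c z e
 (c z e
 (c (b (nat_lit 0xffa660f)) e
 (c (b (nat_lit 0x1004ea0f)) e
 (c (b (nat_lit 0xfffc40f)) e e))))))))
 (c (nat_lit 0x7f0117f0107f0107f0107f0105af80) e
 (c (a (nat_lit 0xfe01c00)) e
 (c (a (nat_lit 0xfe02000))
 (c (b (nat_lit 0xfff660f)) e
 (c z e
 (c z e
 (c (nat_lit 0x800008000080000800008106481064d0d50) e e))))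
 (c (a (nat_lit 0xfe01c01))
 (c (nat_lit 0x800008000088020880208802088020c6a10) e
 (c (nat_lit 0x80000800008000082679826798267948cd0) e
 (c (nat_lit 0x80000800008000080000808ff808ff13410) e e)))
 (c (a (nat_lit 0xfe01201)) e
 (c (a (nat_lit 0xfdfdc01)) e
 (c (a (nat_lit 0xfde7e01)) e
 (c (a (nat_lit 0xff20002)) e
 (c (a (nat_lit 0xfe5c002)) e
 (c (a (nat_lit 0xfebd603)) e
 (c (a (nat_lit 0xfeb9003)) e
 (c (a (nat_lit 0xff4aa03)) e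
 (c z e
 (c (a (nat_lit 0x10055006)) e
 (c (a (nat_lit 0xfed8206)) e
 (c (nat_lit 0x7f70b7f70b7f6e77f70b7f70b9bc47) e
 (c (a (nat_lit 0xff38607)) e
 (c (a (nat_lit 0xfff8807)) e
 (c z e
 (c z e
 (c (nat_lit 0x7f8247f8247f8247f83f7f83f335ae) e
 (c (nat_lit 0x7f8587f8337f8587f8587f8586bece) e
 (c (a (nat_lit 0xfffae0f)) e
 (c (a (nat_lit 0xffc3a0f)) e
 (c z e
 (c (a (nat_lit 0xffee80f)) e e))))))))))))))))))))))))))))))))))) Tr.c Tr.e (nat_lit 0) C.t5 C.t6 C.t7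
noncomputable def tt337 : Tr := beta% (fun (c : Nat → Tr → Tr → Tr) (e : Tr) (z : Nat) (a b : Nat → Nat) =>
 (c (a (nat_lit 0x101f4600))
 (c (nat_lit 0x7f20a7f20a7f20a7f20a7f20a7f1717f1724b402) e
 (c z e
 (c z e
 (c z e
 (c z e
 (c (b (nat_lit 0xfff5a03)) e
 (c z e
 (c (b (nat_lit 0xfff9a06)) e e))))))))
 (c (a (nat_lit 0x101f7000))
 (c z e
 (c z e
 (c z e
 (c z e
 (c z e
 (c (b (nat_lit 0xffd1206)) e
 (c z e
 (c z e
 (c z e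
 (c z e
 (c z e
 (c z e
 (c z e
 (c z e
 (c (b (nat_lit 0xfffbe0f)) e
 (c (b (nat_lit 0xfe7020f)) e
 (c (b (nat_lit 0xff2ee0f)) e e)))))))))))))))))
 (c (a (nat_lit 0x101f6e00))
 (c z e
 (c z e
 (c z e
 (c z e
 (c z e
 (c z e
 (c z e
 (c z e
 (c z e
 (c (b (nat_lit 0xffc280e)) e
 (c z e
 (c z e
 (c z e
 (c (b (nat_lit 0xfd6380f)) e
 (c (b (nat_lit 0xffd7a0f)) e e)))))))))))))))
 (c (a (nat_lit 0x101f7600))
 (c z e
 (c z e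
 (c z e
 (c z e
 (c z e
 (c z e
 (c z e
 (c z e
 (c z e
 (c z e
 (c z e
 (c z e
 (c (b (nat_lit 0xff9100f)) e e)))))))))))))
 (c (a (nat_lit 0x101f7a00)) e
 (c (nat_lit 0x80fef80fec80fec80fec80fec80fecff941) e
 (c (a (nat_lit 0x101fb001)) e
 (c (a (nat_lit 0x101f5601)) e
 (c (a (nat_lit 0x100b3e01)) e
 (c z e
 (c (a (nat_lit 0x100c6e02)) e
 (c z e
 (c z e
 (c z e
 (c (a (nat_lit 0xfc85603)) e e)))))))))))))))) Tr.c Tr.e (nat_lit 0) C.t6 C.t7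
noncomputable def tt338 : Tr := beta% (fun (c : Nat → Tr → Tr → Tr) (e : Tr) (z : Nat) (a b : Nat → Nat) =>
 (c (a (nat_lit 0x101fa600))
 (c (b (nat_lit 0xfe4f401)) e
 (c (b (nat_lit 0xfe22201)) e
 (c (b (nat_lit 0xfe23001)) e
 (c (b (nat_lit 0xfe1d802)) e
 (c z e
 (c z e
 (c z e
 (c z e
 (c z e
 (c z e
 (c z e
 (c z e
 (c z e
 (c z e
 (c z e
 (c (b (nat_lit 0xfff540b)) e
 (c (b (nat_lit 0x10122a0e)) e e)))))))))))))))))
 (c (a (nat_lit 0x101f7400))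
 (c (nat_lit 0x7f18c7f18c7f18c7f18c7f15e7f15e7f15efbe81) e
 (c (b (nat_lit 0xfe20402)) e
 (c z e
 (c z e
 (c z e
 (c z e
 (c z e
 (c z e
 (c z e
 (c (b (nat_lit 0xffe1a07)) e
 (c z e
 (c z e
 (c z e
 (c z e
 (c z e
 (c z e
 (c (b (nat_lit 0xfff380f)) e
 (c z e
 (c (b (nat_lit 0xfff340f)) e e)))))))))))))))))))
 (c (a (nat_lit 0x101f9a00))
 (c z e
 (c z e
 (c z e
 (c z e
 (c z e
 (c (b (nat_lit 0xffd5806)) e
 (c z e
 (c z e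
 (c z e
 (c z e
 (c z e
 (c z e
 (c z e
 (c z e
 (c z e
 (c z e
 (c z e
 (c (b (nat_lit 0xffbda0f)) e e))))))))))))))))))
 (c (a (nat_lit 0x101f9400))
 (c z e
 (c z e
 (c z e
 (c z e
 (c z e
 (c z e
 (c z e
 (c z e
 (c z e
 (c z e
 (c (nat_lit 0x800007fc4580000800008000080000800007bc0e) e
 (c z e
 (c z e
 (c (b (nat_lit 0xfff2e0f)) e
 (c z e
 (c (b (nat_lit 0xfff840f)) e e))))))))))))))))
 (c (a (nat_lit 0x101f8e00))
 (c z e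
 (c z e
 (c z e
 (c z e
 (c z e
 (c z e
 (c z e
 (c z e
 (c z e
 (c (b (nat_lit 0xffcec0e)) e
 (c z e
 (c z e
 (c z e
 (c (b (nat_lit 0xffdee0f)) e e))))))))))))))
 (c (a (nat_lit 0x101f9e00))
 (c z e
 (c z e
 (c z e
 (c z e
 (c (b (nat_lit 0xfff3a07)) e e)))))
 (c (a (nat_lit 0x101f9400))
 (c z e
 (c z e
 (c z e
 (c (b (nat_lit 0xff6a00b)) e e))))
 (c (a (nat_lit 0x101fce01)) e
 (c (a (nat_lit 0x101fca01)) e
 (c (a (nat_lit 0x101fa201)) e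
 (c (a (nat_lit 0x100e9201)) e
 (c (a (nat_lit 0x1012cc02)) e
 (c z e
 (c z e
 (c z e
 (c z e
 (c z e
 (c (a (nat_lit 0x10059006)) e
 (c (a (nat_lit 0x10171c06)) e
 (c z e
 (c z e
 (c z e
 (c z e
 (c (a (nat_lit 0xff4de0b)) e
 (c z e
 (c z e
 (c (a (nat_lit 0xfff160f)) e e)))))))))))))))))))))))))))) Tr.c Tr.e (nat_lit 0) C.t6 C.t7
noncomputable def tt339 : Tr := beta% (fun (c : Nat → Tr → Tr → Tr) (e : Tr) (z : Nat) (a b : Nat → Nat) =>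
 (c (a (nat_lit 0x101fb400))
 (c (b (nat_lit 0xfba7200)) e
 (c (b (nat_lit 0xfe1a000)) e
 (c (b (nat_lit 0xfe2b601)) e
 (c (b (nat_lit 0xfe14601)) e
 (c (b (nat_lit 0xfe1ae01)) e
 (c (b (nat_lit 0xfe18201)) e
 (c (b (nat_lit 0xfe0a202)) e
 (c z e
 (c z e
 (c z e
 (c (b (nat_lit 0x10c9be03)) e
 (c (b (nat_lit 0x10587e03)) e
 (c (b (nat_lit 0x10529806)) e
 (c (b (nat_lit 0x1028ce06)) e
 (c z e
 (c (b (nat_lit 0x10e8b807)) e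
 (c (b (nat_lit 0x10af8807)) e
 (c (b (nat_lit 0xffff007)) e
 (c (b (nat_lit 0xfffee0b)) e
 (c (b (nat_lit 0xffa0c0e)) e
 (c (b (nat_lit 0xfe2940e)) e
 (c z e
 (c z e
 (c (b (nat_lit 0xffc960f)) e e))))))))))))))))))))))))
 (c (a (nat_lit 0x101fa000))
 (c (b (nat_lit 0xfe1fc01)) e
 (c (b (nat_lit 0xfe28601)) e
 (c (b (nat_lit 0xfe21601)) e
 (c (b (nat_lit 0xfe1f401)) e
 (c (b (nat_lit 0xfe21202)) e
 (c z e
 (c z e
 (c z e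
 (c z e
 (c z e
 (c z e
 (c (b (nat_lit 0xffe5606)) e
 (c z e
 (c z e
 (c z e
 (c z e
 (c z e
 (c z e
 (c z e
 (c (nat_lit 0x800007feef8000080000800008000080000c110f) e e))))))))))))))))))))
 (c (a (nat_lit 0x101f5400))
 (c (b (nat_lit 0xfe62401)) e
 (c (b (nat_lit 0xfe24801)) e
 (c (b (nat_lit 0xfc53a02)) e
 (c (b (nat_lit 0xffed202)) e
 (c z e
 (c z e
 (c z e
 (c z e
 (c z e
 (c (b (nat_lit 0x101e8606)) e
 (c z e
 (c z e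
 (c (b (nat_lit 0x10412c07)) e
 (c (b (nat_lit 0xf7cd607)) e
 (c z e
 (c z e
 (c z e
 (c z e
 (c z e
 (c (b (nat_lit 0xffe840f)) e e))))))))))))))))))))
 (c (a (nat_lit 0x101f9a00))
 (c (b (nat_lit 0xfe1e402)) e
 (c z e
 (c z e
 (c z e
 (c z e
 (c (b (nat_lit 0xfa2d803)) e
 (c z e
 (c (b (nat_lit 0x1020f206)) e
 (c (b (nat_lit 0x1023fc07)) e
 (c z e
 (c z e
 (c z e
 (c z e
 (c z e
 (c z e
 (c (b (nat_lit 0xffffc0f)) e
 (c z e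
 (c z e
 (c (b (nat_lit 0xffd8a0f)) e e)))))))))))))))))))
 (c (a (nat_lit 0x101faa00))
 (c z e
 (c z e
 (c z e
 (c z e
 (c z e
 (c z e
 (c z e
 (c z e
 (c z e
 (c z e
 (c z e
 (c (b (nat_lit 0xfffa40e)) e
 (c z e
 (c (b (nat_lit 0x103c040f)) e
 (c z e
 (c (b (nat_lit 0xffb620f)) e e))))))))))))))))
 (c (a (nat_lit 0x101fa800))
 (c z e
 (c z e
 (c z e
 (c z e
 (c z e
 (c z e
 (c (b (nat_lit 0xfc67007)) e
 (c z e
 (c z e
 (c z e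
 (c z e
 (c z e
 (c (b (nat_lit 0x1023740f)) e
 (c z e
 (c (b (nat_lit 0xffc720f)) e e)))))))))))))))
 (c (a (nat_lit 0x101fd600))
 (c z e
 (c z e
 (c z e
 (c (b (nat_lit 0xffe8007)) e
 (c (b (nat_lit 0xfffea07)) e
 (c (b (nat_lit 0xffaf007)) e
 (c z e
 (c z e
 (c z e
 (c (b (nat_lit 0xffec80f)) e
 (c (b (nat_lit 0xfffae0f)) e e)))))))))))
 (c (a (nat_lit 0x101fc400))
 (c z e
 (c z e
 (c z e
 (c z e
 (c z e
 (c z e
 (c z e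
 (c z e
 (c z e
 (c z e
 (c (b (nat_lit 0xfff580f)) e e)))))))))))
 (c (a (nat_lit 0x101f9c00)) e
 (c (a (nat_lit 0x101fbe01))
 (c z e
 (c (b (nat_lit 0xfbd4a0e)) e
 (c (b (nat_lit 0xfe8b80e)) e e)))
 (c (a (nat_lit 0x101fce01))
 (c (nat_lit 0x7ad927ac6f7ad927ad927ad927ad927ad92ec48e) e
 (c (b (nat_lit 0xf7e4e0f)) e e))
 (c (a (nat_lit 0x101f8801))
 (c (nat_lit 0x7cfa37cfa37cfa37cfa37cfa37cfa37cc85bf18f) e
 (c (b (nat_lit 0xf80320f)) e e))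
 (c (a (nat_lit 0x10133601)) e
 (c z e
 (c z e
 (c (a (nat_lit 0x1059c003)) e
 (c (a (nat_lit 0x1053f603)) e
 (c (a (nat_lit 0x10194203)) e
 (c (a (nat_lit 0x101e2803)) e
 (c (a (nat_lit 0x1018dc06)) e
 (c (a (nat_lit 0x100ee406)) e
 (c (a (nat_lit 0x1005f807)) e
 (c z e
 (c z e
 (c z e
 (c z e
 (c z e
 (c z e
 (c (nat_lit 0x80000800007ffb67ff8c8000080000cae4f) e
 (c (nat_lit 0x8000080000800007fee07feba800002a14f) e
 (c (a (nat_lit 0xfff7e0f)) e e)))))))))))))))))))))))))))))))) Tr.c Tr.e (nat_lit 0) C.t6 C.t7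
noncomputable def tt340 : Tr := beta% (fun (c : Nat → Tr → Tr → Tr) (e : Tr) (z : Nat) (a b d : Nat → Nat) =>
 (c (a (nat_lit 0xfe00e00)) tt339
 (c (a (nat_lit 0xfe01200)) tt338
 (c (a (nat_lit 0xfe03000)) tt337
 (c (a (nat_lit 0xfe02400))
 (c (b (nat_lit 0x101f7600))
 (c z e
 (c z e
 (c z e
 (c z e
 (c z e
 (c z e
 (c z e
 (c z e
 (c z e
 (c z e
 (c (d (nat_lit 0xfffb40e)) e
 (c z e
 (c z e
 (c z e
 (c (d (nat_lit 0x101d520f)) e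
 (c (nat_lit 0x80000800007ff0e800007feda80000800007708f) e e))))))))))))))))
 (c (b (nat_lit 0x101f7600))
 (c z e
 (c z e
 (c z e
 (c z e
 (c z e
 (c z e
 (c z e
 (c z e
 (c z e
 (c z e
 (c z e
 (c z e
 (c z e
 (c (d (nat_lit 0xffc1a0f)) e e))))))))))))))
 (c (b (nat_lit 0x101f6a00)) e
 (c (b (nat_lit 0x101fe001)) e
 (c (b (nat_lit 0x101fd401)) e
 (c (b (nat_lit 0x101fb001)) e
 (c (b (nat_lit 0x10104401)) e
 (c z e
 (c z e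
 (c (b (nat_lit 0x10185203)) e
 (c (b (nat_lit 0x10363c03)) e
 (c z e
 (c z e
 (c (b (nat_lit 0xfe2d606)) e e))))))))))))))
 (c (a (nat_lit 0xfe02000))
 (c (b (nat_lit 0x101f7c00)) e
 (c (b (nat_lit 0x101fbc01))
 (c (nat_lit 0x8000080000800007feca800008000080000f0386) e e)
 (c (b (nat_lit 0x101fee01)) e
 (c (b (nat_lit 0x101fd401))
 (c z e
 (c z e
 (c z e
 (c (nat_lit 0x80000800008000080000800007f3d4800000560e) e e))))
 (c (b (nat_lit 0xff74e01)) e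
 (c z e
 (c (b (nat_lit 0x100eea02)) e
 (c (b (nat_lit 0x1015f203)) e
 (c (b (nat_lit 0x10233a03)) e
 (c z e
 (c z e
 (c z e
 (c z e
 (c (b (nat_lit 0xfea9a07)) e
 (c z e
 (c z e
 (c z e
 (c (b (nat_lit 0xff84c0b)) e
 (c (b (nat_lit 0x1008a80e)) e
 (c z e
 (c z e
 (c z e
 (c z e
 (c (b (nat_lit 0xffe8e0f)) e e)))))))))))))))))))))))) tt336)))))) Tr.c Tr.e (nat_lit 0) C.t5 C.t6 C.t7
noncomputable def tt341 : Tr := beta% (fun (c : Nat → Tr → Tr → Tr) (e : Tr) (z : Nat) (a b : Nat → Nat) =>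
 (c (a (nat_lit 0xfe02a00))
 (c z e
 (c z e
 (c (b (nat_lit 0xfd9c602)) e
 (c (b (nat_lit 0x1027f202)) e
 (c (b (nat_lit 0x10173003)) e
 (c (b (nat_lit 0x102d3e03)) e
 (c z e
 (c z e
 (c z e
 (c z e
 (c (b (nat_lit 0xfca0407)) e
 (c (b (nat_lit 0xfde2607)) e
 (c z e
 (c z e
 (c (b (nat_lit 0x10097c0e)) e
 (c (b (nat_lit 0x102fa00e)) e
 (c (b (nat_lit 0xfd8360f)) e
 (c (nat_lit 0x8000080000800007ff928000080000cfd4f) e
 (c (nat_lit 0x8000080000800007feb57feb5800001764f) e e)))))))))))))))))))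
 (c (a (nat_lit 0xfdfe400))
 (c (b (nat_lit 0xfd64c02)) e
 (c z e
 (c (b (nat_lit 0x101bea03)) e
 (c z e
 (c z e
 (c z e
 (c z e
 (c z e
 (c (b (nat_lit 0x10249e07)) e
 (c z e
 (c (b (nat_lit 0xff9a207)) e
 (c z e
 (c (b (nat_lit 0x1012040e)) e
 (c (b (nat_lit 0x103ac20e)) e
 (c (b (nat_lit 0xffc380f)) e e)))))))))))))))
 (c (a (nat_lit 0xfe00200))
 (c z e
 (c z e
 (c z e
 (c z e
 (c z e
 (c z e
 (c (nat_lit 0x80000800007fd9b7fc637ffdd8000055147) e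
 (c (b (nat_lit 0xff26e07)) e
 (c z e
 (c z e
 (c z e
 (c (b (nat_lit 0x106ac80e)) e
 (c (b (nat_lit 0xfffbe0f)) e e)))))))))))))
 (c (a (nat_lit 0xfe04c00))
 (c (b (nat_lit 0x1025ac03)) e
 (c (b (nat_lit 0x10558a03)) e
 (c (b (nat_lit 0x105a7206)) e
 (c (b (nat_lit 0xff3ea06)) e
 (c (b (nat_lit 0x1011f407)) e
 (c (nat_lit 0x7ee737ee737ee737ee667ee737ee733ef87) e
 (c z e
 (c z e
 (c (b (nat_lit 0xffeb60e)) e
 (c z e
 (c (b (nat_lit 0xfdaf20f)) e e)))))))))))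
 (c (a (nat_lit 0xfdfe200))
 (c (b (nat_lit 0x108cba06)) e
 (c (nat_lit 0x839848398483869839848398483984ed046) e
 (c z e
 (c (b (nat_lit 0x1008a407)) e
 (c (b (nat_lit 0x10380407)) e
 (c z e
 (c (b (nat_lit 0xfb8200e)) e
 (c (b (nat_lit 0xffd420e)) e
 (c (b (nat_lit 0xff2540f)) e
 (c z e
 (c z e
 (c z e
 (c z e
 (c z e
 (c z e
 (c (nat_lit 0x80000800008000080000800007fef216f92) e e))))))))))))))))
 (c (a (nat_lit 0xfe05000))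
 (c (b (nat_lit 0x1021d007)) e
 (c (b (nat_lit 0x10234007)) e
 (c (b (nat_lit 0x101dd607)) e
 (c (b (nat_lit 0x103cba07)) e
 (c z e
 (c (b (nat_lit 0xfc0140e)) e
 (c (nat_lit 0x81c9581c8681b0281c1481c5581c9537f8f) e
 (c z e
 (c z e
 (c z e
 (c z e
 (c z e
 (c z e
 (c z e
 (c (nat_lit 0x80000800008000080000800007ff511ab12) e e)))))))))))))))
 (c (a (nat_lit 0xfdff600))
 (c z e
 (c (b (nat_lit 0x1010da07)) e
 (c z e
 (c z e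
 (c z e
 (c z e
 (c z e
 (c z e
 (c (nat_lit 0x800008000080000800007ffcf7fdb9bd9d1) e e)))))))))
 (c (a (nat_lit 0xfe02800))
 (c (b (nat_lit 0x1047280e)) e
 (c (nat_lit 0x81015810158101580f5a8101581015be10e) e
 (c z e
 (c (b (nat_lit 0xfffda0f)) e
 (c z e
 (c z e
 (c z e
 (c z e
 (c (nat_lit 0x80000800008000080000800007f6f671451) e e)))))))))
 (c (a (nat_lit 0xfe02200))
 (c (b (nat_lit 0x1058aa0f)) e
 (c (nat_lit 0x7ffd47ffd480000800008000080000ff38f) e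
 (c (b (nat_lit 0xffeec0f)) e
 (c z e
 (c z e
 (c (nat_lit 0x80000800008000080000822fc822fcb7fd0) e e))))))
 (c (a (nat_lit 0xfe01000))
 (c z e
 (c z e
 (c (nat_lit 0x800008000083c0083c0083c0083c00e1f90) e
 (c (nat_lit 0x800008000080000826b2826b2826b2df550) e e))))
 (c (a (nat_lit 0xfe01400))
 (c (b (nat_lit 0x11000410)) e
 (c (nat_lit 0x800008000081cf481cf481cf481cf46d310) e
 (c (nat_lit 0x800008000080000804f6804f6804f670f10) e e)))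
 (c (a (nat_lit 0xfdfc401)) e
 (c (nat_lit 0x7f01d7f01d7f0177f0177f017137a1) e
 (c (nat_lit 0x7f06d7f06d7f06d7f01f7f020a7ec1) e
 (c (a (nat_lit 0xfdef401)) e
 (c (a (nat_lit 0xfe0ae02)) e
 (c (a (nat_lit 0xfe15a02)) e
 (c (a (nat_lit 0xfe23803)) e
 (c (a (nat_lit 0xff47403)) e
 (c (a (nat_lit 0xff5ba03)) e
 (c (a (nat_lit 0xff9f803)) e
 (c (a (nat_lit 0xfecf006)) e
 (c (a (nat_lit 0xfe91c06)) e
 (c (nat_lit 0x7f5d97f5d97f5d97f59e7f5d9abf87) e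
 (c z e
 (c z e
 (c z e
 (c (nat_lit 0x7fc257fc787fce17fcf77fcf7f74ee) e
 (c (nat_lit 0x7fc477fbd77fc2e7fc477fc470684e) e
 (c (nat_lit 0x7fcc47fcc47fbba7fc187fc853cd2f) e
 (c (a (nat_lit 0xffb040f)) e
 (c (a (nat_lit 0xff7720f)) e
 (c (nat_lit 0x7f5f67f64c7f64c7f64c7f64c56f2f) e e)))))))))))))))))))))))))))))))))) Tr.c Tr.e (nat_lit 0) C.t5 C.t6
noncomputable def tt342 : Tr := beta% (fun (c : Nat → Tr → Tr → Tr) (e : Tr) (z : Nat) (a b : Nat → Nat) =>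
 (c (a (nat_lit 0x101f5a00))
 (c z e
 (c (nat_lit 0x8000080000800007ffb88000080000800008f702) e
 (c z e
 (c z e
 (c z e
 (c z e
 (c (b (nat_lit 0xfb3c607)) e
 (c z e
 (c z e
 (c z e
 (c (b (nat_lit 0xfff640e)) e
 (c z e
 (c z e
 (c z e
 (c (b (nat_lit 0xfff2e0f)) e e)))))))))))))))
 (c (a (nat_lit 0x101f3e00))
 (c (nat_lit 0x7bb2a7bcc67bcc67bcc67bcc67bcc67bcc67f903) e
 (c z e
 (c z e
 (c z e
 (c z e
 (c (b (nat_lit 0xfb59607)) e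
 (c z e
 (c z e
 (c (nat_lit 0x7f0fd7f0fd7efc17f0fd7f0fd7f0fd7f0fdefe0e) e
 (c z e
 (c (b (nat_lit 0xfb9ea0f)) e e)))))))))))
 (c (a (nat_lit 0x101f1e00))
 (c z e
 (c z e
 (c z e
 (c z e
 (c z e
 (c z e
 (c (b (nat_lit 0xffda00e)) e
 (c (b (nat_lit 0xffefa0e)) e
 (c z e
 (c z e
 (c z e
 (c z e
 (c z e
 (c z e
 (c z e
 (c (nat_lit 0x80000800008000080000800007fcac8000032e26) e e))))))))))))))))
 (c (a (nat_lit 0x101f7a00)) e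
 (c (a (nat_lit 0x101ff001)) e
 (c (a (nat_lit 0x101fc001))
 (c (b (nat_lit 0x1059000e)) e
 (c (nat_lit 0x800008000080000800007fea78000080000dd68e) e e))
 (c (a (nat_lit 0x101f3801))
 (c z e
 (c z e
 (c z e
 (c z e
 (c z e
 (c (nat_lit 0x800008000080000800007fe9280000800007bea2) e e))))))
 (c z e
 (c z e
 (c (a (nat_lit 0x10159e02)) e
 (c (a (nat_lit 0x10142e03)) e
 (c (nat_lit 0x814908149081490814908120e81490e1dc3) e
 (c z e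
 (c (a (nat_lit 0xfb1a803)) e
 (c z e
 (c (a (nat_lit 0x10067206)) e
 (c z e
 (c z e
 (c z e
 (c z e
 (c z e
 (c z e
 (c (nat_lit 0x7fd0c7fd0c80000800008000080000ad98f) e
 (c z e
 (c (nat_lit 0x7ff558000080000800008000080000805cf) e e)))))))))))))))))))))))))) Tr.c Tr.e (nat_lit 0) C.t6 C.t7
noncomputable def tt343 : Tr := beta% (fun (c : Nat → Tr → Tr → Tr) (e : Tr) (z : Nat) (a b : Nat → Nat) =>
 (c (a (nat_lit 0x101f0e00))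
 (c (nat_lit 0x8000080000800007fff2800008000080000b0101) e
 (c (nat_lit 0x7f19c7f19c7f19c7f19c7f19c7f1687f16f0f082) e
 (c z e
 (c z e
 (c z e
 (c z e
 (c z e
 (c z e
 (c (b (nat_lit 0xfdf4406)) e
 (c (b (nat_lit 0xffd2007)) e
 (c z e
 (c (b (nat_lit 0xffea807)) e
 (c z e
 (c (b (nat_lit 0x10586e0e)) e e))))))))))))))
 (c (a (nat_lit 0x101f3200))
 (c (b (nat_lit 0xf467a02)) e
 (c z e
 (c z e
 (c z e
 (c z e
 (c z e
 (c z e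
 (c z e
 (c z e
 (c (b (nat_lit 0x1022e407)) e
 (c z e
 (c z e
 (c z e
 (c z e
 (c z e
 (c z e
 (c (b (nat_lit 0xfffbc0f)) e e)))))))))))))))))
 (c (a (nat_lit 0x101f1800))
 (c z e
 (c z e
 (c z e
 (c z e
 (c z e
 (c z e
 (c z e
 (c (b (nat_lit 0xfff1207)) e
 (c (b (nat_lit 0xffe6a07)) e e)))))))))
 (c (a (nat_lit 0x101f3200))
 (c z e
 (c z e
 (c (b (nat_lit 0xffeec06)) e
 (c z e
 (c z e
 (c z e
 (c (b (nat_lit 0x101d0e07)) e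
 (c (b (nat_lit 0xffc6e0e)) e e))))))))
 (c (a (nat_lit 0x101f3000)) e
 (c (a (nat_lit 0x101f9e00)) e
 (c (a (nat_lit 0x101f9a01))
 (c z e
 (c (b (nat_lit 0xfff7c0e)) e e))
 (c (a (nat_lit 0x101f1201))
 (c (b (nat_lit 0xfd7e60e)) e e)
 (c (a (nat_lit 0x101fd401)) e
 (c z e
 (c (a (nat_lit 0x1013ca02)) e
 (c z e
 (c z e
 (c (a (nat_lit 0xfc39c03)) e
 (c z e
 (c z e
 (c z e
 (c z e
 (c z e
 (c z e
 (c z e
 (c z e
 (c z e
 (c z e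
 (c (nat_lit 0x800008000080000800007fe658000034a4e) e e)))))))))))))))))))))))))) Tr.c Tr.e (nat_lit 0) C.t6 C.t7
noncomputable def tt344 : Tr := beta% (fun (c : Nat → Tr → Tr → Tr) (e : Tr) (z : Nat) (a b : Nat → Nat) =>
 (c (a (nat_lit 0x10186600))
 (c z e
 (c (b (nat_lit 0xfe9ae01)) e
 (c (b (nat_lit 0xfec6401)) e
 (c (b (nat_lit 0xfef1001)) e
 (c (b (nat_lit 0xfe9c602)) e
 (c z e
 (c z e
 (c z e
 (c (b (nat_lit 0xffd3a03)) e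
 (c z e
 (c z e
 (c z e
 (c (b (nat_lit 0xfc1ec07)) e
 (c (b (nat_lit 0xffee807)) e
 (c z e
 (c z e
 (c (b (nat_lit 0x101d000e)) e e)))))))))))))))))
 (c (a (nat_lit 0x101f4a00))
 (c (b (nat_lit 0xfe76801)) e
 (c (nat_lit 0x7f1917f1917f1917f1917f14a7f14a7f14ece801) e
 (c (b (nat_lit 0xfd5c202)) e
 (c z e
 (c z e
 (c z e
 (c z e
 (c z e
 (c z e
 (c z e
 (c z e
 (c (b (nat_lit 0xffc9407)) e
 (c (b (nat_lit 0xfff7007)) e
 (c (b (nat_lit 0x10827a07)) e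
 (c z e
 (c z e
 (c z e
 (c z e
 (c z e
 (c (b (nat_lit 0xfff560f)) e e))))))))))))))))))))
 (c (a (nat_lit 0x101f7c00))
 (c (nat_lit 0x7f1977f1977f1977f1977f1977f1357f13757b82) e
 (c z e
 (c z e
 (c z e
 (c z e
 (c (b (nat_lit 0xfb05203)) e
 (c z e
 (c z e
 (c z e
 (c (b (nat_lit 0x10199807)) e e))))))))))
 (c (a (nat_lit 0x101f4600))
 (c z e
 (c z e
 (c z e
 (c z e
 (c z e
 (c z e
 (c z e
 (c z e
 (c z e
 (c (b (nat_lit 0xffddc07)) e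
 (c z e
 (c z e
 (c (b (nat_lit 0xffffa0f)) e
 (c z e
 (c z e
 (c z e
 (c (b (nat_lit 0xffdae26)) e e)))))))))))))))))
 (c (a (nat_lit 0x101f4400))
 (c z e
 (c z e
 (c z e
 (c z e
 (c (b (nat_lit 0x1035b807)) e
 (c z e
 (c z e
 (c z e
 (c z e
 (c z e
 (c z e
 (c (b (nat_lit 0xfff980f)) e e))))))))))))
 (c (a (nat_lit 0x101f6a00))
 (c z e
 (c z e
 (c z e
 (c z e
 (c z e
 (c (b (nat_lit 0xffece07)) e
 (c z e
 (c z e
 (c z e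
 (c z e
 (c (b (nat_lit 0xffe380f)) e
 (c z e
 (c (nat_lit 0x8000080000800007fd64800008000080000745a3) e e)))))))))))))
 (c (a (nat_lit 0x101fac00)) e
 (c (a (nat_lit 0x101f8600)) e
 (c (nat_lit 0x80fd980fd380fd380fd380fd380fd4b7441)
 (c z e
 (c (nat_lit 0x800007fcfd800008000080000800008000010c0e) e e))
 (c (a (nat_lit 0x10202001)) e
 (c (a (nat_lit 0x101f4a01)) e
 (c (a (nat_lit 0x10109001)) e
 (c z e
 (c z e
 (c z e
 (c z e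
 (c z e
 (c z e
 (c (a (nat_lit 0x10052206)) e
 (c (a (nat_lit 0x100c4606)) e
 (c (a (nat_lit 0xffffe07)) e
 (c (a (nat_lit 0xff71607)) e e))))))))))))))))))))))) Tr.c Tr.e (nat_lit 0) C.t6 C.t7
noncomputable def tt345 : Tr := beta% (fun (c : Nat → Tr → Tr → Tr) (e : Tr) (z : Nat) (a b : Nat → Nat) =>
 (c (a (nat_lit 0x101fe800))
 (c (b (nat_lit 0xfb22800)) e
 (c (b (nat_lit 0xfe1c600)) e
 (c (b (nat_lit 0xfe2e200)) e
 (c (b (nat_lit 0xfe19a01)) e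
 (c (b (nat_lit 0xfe18201)) e
 (c (b (nat_lit 0xfe18e01)) e
 (c (b (nat_lit 0xfe19001)) e
 (c z e
 (c (b (nat_lit 0x10230602)) e
 (c z e
 (c (b (nat_lit 0x10a46003)) e
 (c (b (nat_lit 0x10a8ee03)) e
 (c (b (nat_lit 0x108f7e03)) e
 (c (b (nat_lit 0x101aac06)) e
 (c z e
 (c (b (nat_lit 0x10b31e07)) e
 (c (b (nat_lit 0x10c43407)) e
 (c z e
 (c z e
 (c (b (nat_lit 0xffc9e0e)) e
 (c (b (nat_lit 0xffada0e)) e e)))))))))))))))))))))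
 (c (a (nat_lit 0x101f9600))
 (c (b (nat_lit 0xfe8ee00)) e
 (c (b (nat_lit 0xfe2ac01)) e
 (c (b (nat_lit 0xfe1e801)) e
 (c (b (nat_lit 0xfe25001)) e
 (c (b (nat_lit 0xfe25401)) e
 (c (b (nat_lit 0xfe1d002)) e
 (c (b (nat_lit 0xff20602)) e
 (c (b (nat_lit 0xffff203)) e
 (c z e
 (c z e
 (c z e
 (c z e
 (c z e
 (c (b (nat_lit 0xffdf007)) e
 (c (b (nat_lit 0xfc02807)) e
 (c z e
 (c z e
 (c z e
 (c (b (nat_lit 0xfff000e)) e e)))))))))))))))))))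
 (c (a (nat_lit 0x101f1800))
 (c (b (nat_lit 0xfe36401)) e
 (c (b (nat_lit 0xfe4bc01)) e
 (c (b (nat_lit 0xfe2c201)) e
 (c (nat_lit 0x7f15a7f15a7f15a7f15a7f15a7f1517f1524b982) e
 (c z e
 (c z e
 (c z e
 (c z e
 (c (b (nat_lit 0xfff3403)) e
 (c z e
 (c z e
 (c (b (nat_lit 0x1027c607)) e
 (c z e
 (c z e
 (c z e
 (c (b (nat_lit 0xffd720e)) e
 (c (b (nat_lit 0x100f5e0e)) e
 (c (b (nat_lit 0xffe080f)) e
 (c z e
 (c z e
 (c z e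
 (c (nat_lit 0x80000800007fe7980000800008000080000be197) e e))))))))))))))))))))))
 (c (a (nat_lit 0x101f8600))
 (c (b (nat_lit 0xfbfc401)) e
 (c (b (nat_lit 0xfcd9002)) e
 (c z e
 (c z e
 (c z e
 (c z e
 (c z e
 (c z e
 (c (b (nat_lit 0x101ed406)) e
 (c z e
 (c (b (nat_lit 0xffde407)) e
 (c (b (nat_lit 0x1080e807)) e
 (c z e
 (c (b (nat_lit 0xffd900e)) e
 (c z e
 (c (b (nat_lit 0xfff080f)) e
 (c (b (nat_lit 0xfffca0f)) e e)))))))))))))))))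
 (c (a (nat_lit 0x101f7000))
 (c z e
 (c (nat_lit 0x800007fd7b7ff6b8000080000800008000025403) e
 (c z e
 (c z e
 (c z e
 (c z e
 (c z e
 (c z e
 (c z e
 (c (b (nat_lit 0x10129807)) e
 (c z e
 (c z e
 (c z e
 (c z e
 (c z e
 (c z e
 (c (nat_lit 0x7fde87fed57fed57fed57fed57fed57fed5d358f) e
 (c (b (nat_lit 0xfff7617)) e e))))))))))))))))))
 (c (a (nat_lit 0x101f8c00))
 (c (nat_lit 0x8000080000800007ffe8800008000080000e3702) e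
 (c z e
 (c z e
 (c z e
 (c (b (nat_lit 0x10152606)) e
 (c z e
 (c (b (nat_lit 0xfbc7407)) e
 (c z e
 (c (b (nat_lit 0x100db207)) e
 (c z e
 (c z e
 (c z e
 (c (b (nat_lit 0x1027560f)) e
 (c z e
 (c z e
 (c (b (nat_lit 0xffb5a17)) e e))))))))))))))))
 (c (a (nat_lit 0x101f8e00))
 (c z e
 (c z e
 (c z e
 (c z e
 (c (b (nat_lit 0xfc11007)) e
 (c (b (nat_lit 0xfaffc07)) e
 (c z e
 (c z e
 (c (b (nat_lit 0x10351e0e)) e e)))))))))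
 (c (a (nat_lit 0x101fba00))
 (c z e
 (c z e
 (c z e
 (c (b (nat_lit 0x10119e07)) e
 (c z e
 (c z e
 (c z e
 (c z e
 (c z e
 (c z e
 (c z e
 (c (b (nat_lit 0xffe6417)) e e))))))))))))
 (c (a (nat_lit 0x101f6e00)) e
 (c (a (nat_lit 0x101f4600))
 (c z e
 (c (b (nat_lit 0xf79920e)) e
 (c (b (nat_lit 0xf80b40e)) e e)))
 (c (a (nat_lit 0x101fec01))
 (c (b (nat_lit 0xfa10c0e)) e
 (c (nat_lit 0x7d9577d9577d9577d9577d9577d7117d924a6c8f) e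
 (c (b (nat_lit 0xfe8360f)) e e)))
 (c (a (nat_lit 0x101efa01))
 (c (b (nat_lit 0xf781c0f)) e
 (c (b (nat_lit 0xfce820f)) e e))
 (c (a (nat_lit 0x101ff801)) e
 (c z e
 (c z e
 (c (a (nat_lit 0x1029e602)) e
 (c (a (nat_lit 0x1065c203)) e
 (c (a (nat_lit 0x10163e03)) e
 (c (a (nat_lit 0x1010d603)) e
 (c (a (nat_lit 0x101f3003)) e
 (c (a (nat_lit 0x10047806)) e
 (c (a (nat_lit 0x100f5a06)) e
 (c (a (nat_lit 0x10079407)) e
 (c (a (nat_lit 0x10064007)) e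
 (c z e
 (c z e
 (c z e
 (c (nat_lit 0x801b8801c680231802318023180231646ce) e e))))))))))))))))))))))))))))) Tr.c Tr.e (nat_lit 0) C.t6 C.t7
noncomputable def tt346 : Tr := beta% (fun (c : Nat → Tr → Tr → Tr) (e : Tr) (z : Nat) (a b : Nat → Nat) =>
 (c (a (nat_lit 0x10204600))
 (c (b (nat_lit 0xfff0400)) e
 (c (b (nat_lit 0xfe1be00)) e
 (c (b (nat_lit 0xfe88001)) e
 (c (b (nat_lit 0xfe4d601)) e
 (c (b (nat_lit 0xfe1e401)) e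
 (c (b (nat_lit 0xfe11001)) e
 (c (b (nat_lit 0xf6ee802)) e
 (c (b (nat_lit 0xfda9a02)) e
 (c z e
 (c z e
 (c z e
 (c (b (nat_lit 0xffd2a03)) e
 (c z e
 (c z e
 (c (b (nat_lit 0xfae4c07)) e
 (c z e
 (c z e
 (c z e
 (c z e
 (c (b (nat_lit 0xffe460e)) e e))))))))))))))))))))
 (c (a (nat_lit 0x101fda00))
 (c (b (nat_lit 0xfe2c001)) e
 (c (b (nat_lit 0xfefa201)) e
 (c (b (nat_lit 0xff8e401)) e
 (c (b (nat_lit 0xfe36801)) e
 (c (b (nat_lit 0xfb91a02)) e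
 (c z e
 (c z e
 (c z e
 (c z e
 (c z e
 (c (b (nat_lit 0xffff206)) e
 (c z e
 (c z e
 (c z e
 (c (nat_lit 0x80000800007ffd1800008000080000800008ad07) e
 (c (nat_lit 0x7f5c17f5c17f5c17f5b27f5c17f5c17f5c15b687) e
 (c (b (nat_lit 0xffeb60e)) e e)))))))))))))))))
 (c (a (nat_lit 0x10207200))
 (c (b (nat_lit 0xfe16201)) e
 (c (b (nat_lit 0xfe29001)) e
 (c (b (nat_lit 0xfdb4602)) e
 (c z e
 (c z e
 (c (b (nat_lit 0xfd4fe03)) e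
 (c (nat_lit 0x8000080000800008000080000800007fdfa14781) e
 (c z e
 (c z e
 (c z e
 (c z e
 (c (b (nat_lit 0x1045ee07)) e
 (c z e
 (c z e
 (c z e
 (c (b (nat_lit 0xfeda00e)) e
 (c z e
 (c (b (nat_lit 0xfffcc0f)) e e))))))))))))))))))
 (c (a (nat_lit 0x101fda00))
 (c z e
 (c z e
 (c z e
 (c z e
 (c z e
 (c (nat_lit 0x8000080000800008000080000800007ffca0d402) e
 (c z e
 (c (b (nat_lit 0xff74606)) e
 (c (b (nat_lit 0xfc6a407)) e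
 (c (b (nat_lit 0x101fe007)) e
 (c z e
 (c (b (nat_lit 0x10d05807)) e
 (c (nat_lit 0x8000080000800007ff7a8000080000800001008e) e e)))))))))))))
 (c (a (nat_lit 0x10201400))
 (c z e
 (c (b (nat_lit 0xf91b803)) e
 (c z e
 (c z e
 (c (b (nat_lit 0x10268c06)) e
 (c z e
 (c (nat_lit 0x7d30e7d30e7d30e7d30e7d0d87d30e7d30e9a407) e
 (c (b (nat_lit 0xfeac007)) e
 (c z e
 (c z e
 (c z e
 (c (nat_lit 0x8000080000800007fea28000080000800006e38e) e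
 (c (b (nat_lit 0x1083360f)) e
 (c (b (nat_lit 0x1058ae0f)) e e))))))))))))))
 (c (a (nat_lit 0x101ff200))
 (c z e
 (c z e
 (c z e
 (c z e
 (c z e
 (c (b (nat_lit 0xfaaea07)) e
 (c z e
 (c (nat_lit 0x80000800008000080000800007fc5a8000007387) e e))))))))
 (c (a (nat_lit 0x10214200))
 (c z e
 (c z e
 (c z e
 (c z e
 (c (b (nat_lit 0x10330e07)) e
 (c z e
 (c z e
 (c z e
 (c z e
 (c z e
 (c (b (nat_lit 0xfffda0f)) e e)))))))))))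
 (c (a (nat_lit 0x1020ec00))
 (c z e
 (c z e
 (c z e
 (c z e
 (c (b (nat_lit 0x10347c0e)) e
 (c z e
 (c z e
 (c (b (nat_lit 0xffff00f)) e e))))))))
 (c (a (nat_lit 0x101fbc00))
 (c (b (nat_lit 0xffd4807)) e
 (c (b (nat_lit 0xf5b5207)) e
 (c (b (nat_lit 0xf2c0e0e)) e
 (c (nat_lit 0x800008000080000800007fe55800007fed44d10e) e
 (c (b (nat_lit 0xff84a0f)) e
 (c z e
 (c (b (nat_lit 0xfff200f)) e e)))))))
 (c (a (nat_lit 0x1021a200))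
 (c (b (nat_lit 0xf72960e)) e
 (c (b (nat_lit 0xf51440e)) e
 (c (b (nat_lit 0xfbbb60f)) e e)))
 (c (a (nat_lit 0x101c1601))
 (c (b (nat_lit 0xf81ce0f)) e
 (c (b (nat_lit 0xf707c0f)) e
 (c (b (nat_lit 0xfffbc0f)) e e)))
 (c (a (nat_lit 0x101e5401))
 (c (b (nat_lit 0x1033d80f)) e e)
 (c (a (nat_lit 0x1014d401)) e
 (c z e
 (c (a (nat_lit 0x1096f802)) e
 (c (nat_lit 0x8441b84363841158441b8441b8441b0e002) e
 (c (a (nat_lit 0x10200403)) e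
 (c (a (nat_lit 0x10181c03)) e
 (c (a (nat_lit 0x10178603)) e
 (c (a (nat_lit 0x101d5c03)) e
 (c (a (nat_lit 0x1017da06)) e
 (c (a (nat_lit 0x10186006)) e
 (c (a (nat_lit 0x10150a07)) e
 (c (a (nat_lit 0xfe2ca07)) e
 (c z e
 (c z e
 (c z e
 (c (a (nat_lit 0x10091e0e)) e
 (c z e
 (c (a (nat_lit 0xfe5500f)) e e))))))))))))))))))))))))))))))) Tr.c Tr.e (nat_lit 0) C.t6 C.t7
noncomputable def tt347 : Tr := beta% (fun (c : Nat → Tr → Tr → Tr) (e : Tr) (z : Nat) (a b : Nat → Nat) =>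
 (c (a (nat_lit 0x10200200))
 (c (b (nat_lit 0xfa11600)) e
 (c (b (nat_lit 0xfe38800)) e
 (c z e
 (c (b (nat_lit 0xfe63000)) e
 (c (b (nat_lit 0xfaee200)) e
 (c z e
 (c z e
 (c z e
 (c z e
 (c (b (nat_lit 0x1072b801)) e
 (c (b (nat_lit 0x1012e002)) e
 (c (b (nat_lit 0x10de6c02)) e
 (c (b (nat_lit 0x10e5ac03)) e
 (c (b (nat_lit 0x1086f003)) e
 (c z e
 (c z e
 (c (b (nat_lit 0x10875006)) e
 (c (b (nat_lit 0x1063e406)) e
 (c z e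
 (c z e
 (c z e
 (c z e
 (c z e
 (c z e
 (c (b (nat_lit 0xffe120f)) e
 (c (b (nat_lit 0x105fc60f)) e
 (c z e
 (c (b (nat_lit 0xfff240f)) e e))))))))))))))))))))))))))))
 (c (a (nat_lit 0x1020c000))
 (c (b (nat_lit 0xfd54000)) e
 (c (b (nat_lit 0xfe0b200)) e
 (c (b (nat_lit 0xfe17e00)) e
 (c (b (nat_lit 0xfdf1a00)) e
 (c z e
 (c (b (nat_lit 0xfdfec01)) e
 (c (b (nat_lit 0xfe13a01)) e
 (c (b (nat_lit 0xf61f801)) e
 (c (b (nat_lit 0x1054ca02)) e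
 (c (b (nat_lit 0x10236802)) e
 (c (b (nat_lit 0x10d38e03)) e
 (c (b (nat_lit 0x10d65403)) e
 (c (b (nat_lit 0x10cd2c03)) e
 (c (b (nat_lit 0xffda203)) e
 (c z e
 (c (b (nat_lit 0x10c24806)) e
 (c (b (nat_lit 0x10ff4007)) e
 (c z e
 (c z e
 (c (b (nat_lit 0xfe88007)) e
 (c (b (nat_lit 0xffa2a0e)) e
 (c z e
 (c (b (nat_lit 0xfff0e0f)) e
 (c z e
 (c (b (nat_lit 0xffd5e0f)) e
 (c z e
 (c (b (nat_lit 0xfff6c27)) e e))))))))))))))))))))))))))) tt346))) Tr.c Tr.e (nat_lit 0) C.t6 C.t7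
noncomputable def tt348 : Tr := beta% (fun (c : Nat → Tr → Tr → Tr) (e : Tr) (z : Nat) (a b d : Nat → Nat) =>
 (c (a (nat_lit 0xfdf3e00)) tt347
 (c (a (nat_lit 0xfe02400)) tt345
 (c (a (nat_lit 0xfe02200)) tt344
 (c (a (nat_lit 0xfe04e00)) tt343
 (c (a (nat_lit 0xfe02600)) tt342
 (c (a (nat_lit 0xfe04400))
 (c (b (nat_lit 0x101ed200))
 (c (nat_lit 0x800007ff3280000800008000080000800003eb03) e
 (c z e
 (c z e
 (c z e
 (c (nat_lit 0x8000080000800007ff0280000800008000088507) e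
 (c (d (nat_lit 0x1024b607)) e
 (c z e
 (c (nat_lit 0x8000080000800007ff3f8000080000800005e20e) e e))))))))
 (c (b (nat_lit 0x101f1400))
 (c (d (nat_lit 0xfd62606)) e e)
 (c (b (nat_lit 0x101fa601)) e
 (c (b (nat_lit 0x101fd401)) e
 (c (b (nat_lit 0x101e3e01)) e
 (c (b (nat_lit 0x101daa01))
 (c (d (nat_lit 0x10d2c20f)) e
 (c z e
 (c z e
 (c (nat_lit 0x800008000080000800007f8618000080000d5416) e e))))
 (c z
 (c z e
 (c (d (nat_lit 0xfea9616)) e e))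
 (c (b (nat_lit 0x10249c02)) e
 (c (b (nat_lit 0x10249803)) e
 (c z e
 (c (b (nat_lit 0x1019c603)) e
 (c z e
 (c (b (nat_lit 0x105d1806)) e
 (c (b (nat_lit 0x101d9206)) e
 (c (b (nat_lit 0xff50007)) e
 (c z e
 (c z e
 (c z e
 (c (nat_lit 0x7ffda7ffe38000080000800008000099b8e) e
 (c (b (nat_lit 0x1007860e)) e
 (c z e
 (c z e
 (c (nat_lit 0x800007fecd7fecd800008000080000003cf) e
 (c (b (nat_lit 0x100b3e0f)) e
 (c (b (nat_lit 0x100bc216)) e e)))))))))))))))))))))))))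
 (c (nat_lit 0x7f0217f0207f0207f0207f0210dd00)
 (c (b (nat_lit 0x101fd401))
 (c (d (nat_lit 0x10e5a607)) e
 (c z e
 (c z e
 (c (d (nat_lit 0x1037fe07)) e
 (c z e
 (c (nat_lit 0x7f4247f2ca7f4247f4247f4247f4247f4243b08e) e
 (c (d (nat_lit 0xf53f80f)) e
 (c z e
 (c z e
 (c (d (nat_lit 0xfff7e0f)) e e))))))))))
 (c (b (nat_lit 0x101f6401))
 (c z e
 (c z e
 (c z e
 (c z e
 (c z e
 (c (nat_lit 0x8000080000800007ff40800008000080000a870f) e e))))))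
 (c z e
 (c z e
 (c z e
 (c z e
 (c (b (nat_lit 0x102c4803)) e
 (c (b (nat_lit 0x100d0e03)) e
 (c z e
 (c z e
 (c (b (nat_lit 0x103b1006)) e
 (c (b (nat_lit 0x104d6406)) e
 (c (b (nat_lit 0xfcdc007)) e
 (c (b (nat_lit 0xfdb3007)) e
 (c z e
 (c (b (nat_lit 0x1006de07)) e
 (c (b (nat_lit 0x102b160e)) e
 (c (b (nat_lit 0x102f940e)) e
 (c (b (nat_lit 0x1020900f)) e
 (c z e
 (c (b (nat_lit 0xfff5a0f)) e
 (c z e
 (c z e
 (c z e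
 (c z e
 (c (nat_lit 0x80000800008000080000800007ff2898856) e e)))))))))))))))))))))))))) tt341)))))))) Tr.c Tr.e (nat_lit 0) C.t5 C.t6 C.t7

end Pool.Agent.Work.MP_82fd4a_nt.P.H
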