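import Pool.Agent.Work.MP_82fd4a_nt.P.Dx

/-! The table of the weights. -/

set_option autoImplicit false
set_option linter.all false
set_option maxRecDepth 100000

namespace Pool.Agent.Work.MP_82fd4a_nt.P.H

open Y Tr

noncomputable def tt534 : Tr := beta% (fun (c : Nat → Tr → Tr → Tr) (e : Tr) (z : Nat) (a b : Nat → Nat) =>
 (c (a (nat_lit 0x101e3800))
 (c (b (nat_lit 0xfb66a00)) e
 (c (b (nat_lit 0xfd05e00)) e
 (c (b (nat_lit 0xfbfe801)) e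
 (c (b (nat_lit 0xfe14e01)) e
 (c (b (nat_lit 0xfcc6001)) e
 (c (b (nat_lit 0xfd47801)) e
 (c (b (nat_lit 0xfcdb001)) e
 (c (b (nat_lit 0xfd34a03)) e
 (c (nat_lit 0x7e4417e4417e4417e4417e41a7e4417e4411ad83) e
 (c (b (nat_lit 0xfcd5403)) e
 (c z e
 (c z e
 (c z e
 (c z e
 (c (b (nat_lit 0xf5f1407)) e
 (c z e
 (c z e
 (c z e
 (c z e
 (c (b (nat_lit 0x1033fa0f)) e
 (c z e
 (c z e
 (c z e
 (c (b (nat_lit 0xffb7017)) e
 (c (b (nat_lit 0xff59817)) e e)))))))))))))))))))))))))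
 (c (a (nat_lit 0x101e4600))
 (c (b (nat_lit 0xfb52201)) e
 (c (b (nat_lit 0xfd7bc01)) e
 (c (b (nat_lit 0xfe4e601)) e
 (c (b (nat_lit 0xffe3e01)) e
 (c (b (nat_lit 0xfe90e01)) e
 (c (b (nat_lit 0xfd8b003)) e
 (c (b (nat_lit 0xfff8a03)) e
 (c (b (nat_lit 0xfd2a003)) e
 (c z e
 (c z e
 (c (b (nat_lit 0xfe76007)) e
 (c z e
 (c z e
 (c (b (nat_lit 0xffffe07)) e
 (c (b (nat_lit 0x10607c07)) e e)))))))))))))))
 (c (a (nat_lit 0x101ef200))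
 (c (b (nat_lit 0xfa7c801)) e
 (c z e
 (c (b (nat_lit 0xfe84801)) e
 (c (b (nat_lit 0xfdf3a03)) e
 (c (b (nat_lit 0xfff8e03)) e
 (c (b (nat_lit 0xfd99c03)) e
 (c z e
 (c z e
 (c (b (nat_lit 0xfe9cc07)) e
 (c z e
 (c z e
 (c z e
 (c z e
 (c z e
 (c z e
 (c z e
 (c z e
 (c z e
 (c (b (nat_lit 0x105dd817)) e e)))))))))))))))))))
 (c (a (nat_lit 0x101de600))
 (c (b (nat_lit 0xfe98001)) e
 (c (b (nat_lit 0xfece403)) e
 (c z e
 (c (b (nat_lit 0xf877a03)) e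
 (c (b (nat_lit 0xf405003)) e
 (c z e
 (c (b (nat_lit 0xf9ffe07)) e
 (c (b (nat_lit 0xf92b807)) e
 (c z e
 (c z e
 (c (b (nat_lit 0x10500807)) e
 (c z e
 (c z e
 (c z e
 (c z e
 (c (b (nat_lit 0x101a2e0f)) e
 (c z e
 (c z e
 (c (b (nat_lit 0xffcbe17)) e e)))))))))))))))))))
 (c (a (nat_lit 0x101b1a00))
 (c z e
 (c z e
 (c (b (nat_lit 0xff69603)) e
 (c z e
 (c (b (nat_lit 0xfbcea07)) e
 (c (nat_lit 0x7c68d7c68d7c68d7c68d7c68d7c5367c68da5287) e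
 (c (b (nat_lit 0xfedc007)) e
 (c z e
 (c z e
 (c (b (nat_lit 0x101fea0f)) e
 (c z e
 (c (b (nat_lit 0x1055e60f)) e
 (c z e
 (c z e
 (c z e
 (c (b (nat_lit 0xfffcc17)) e e))))))))))))))))
 (c (a (nat_lit 0x101dda00))
 (c (b (nat_lit 0xf502e03)) e
 (c z e
 (c (b (nat_lit 0xfe07407)) e
 (c (b (nat_lit 0xf74fe07)) e
 (c z e
 (c z e
 (c z e
 (c z e
 (c z e
 (c z e
 (c z e
 (c (b (nat_lit 0x103da60f)) e
 (c (b (nat_lit 0x103e2217)) e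
 (c (b (nat_lit 0xfff9817)) e e))))))))))))))
 (c (a (nat_lit 0x101fb600))
 (c (b (nat_lit 0xe83a207)) e
 (c (b (nat_lit 0xef13007)) e
 (c z e
 (c z e
 (c (b (nat_lit 0x104e6007)) e
 (c (b (nat_lit 0x109d880f)) e
 (c z e
 (c z e
 (c z e
 (c (b (nat_lit 0x1075500f)) e e))))))))))
 (c (a (nat_lit 0x101e7200))
 (c z e
 (c z e
 (c z e
 (c z e
 (c (b (nat_lit 0x1063280f)) e
 (c z e
 (c z e
 (c z e
 (c z e
 (c (b (nat_lit 0xfffdc17)) e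
 (c (b (nat_lit 0xffee417)) e e)))))))))))
 (c (a (nat_lit 0x10201200))
 (c z e
 (c (b (nat_lit 0x102fcc0f)) e
 (c (b (nat_lit 0x1037e00f)) e e)))
 (c (a (nat_lit 0x101ee000))
 (c (b (nat_lit 0xf64c20f)) e
 (c (nat_lit 0x80000800008000080000800007fcce80000c4e0f) e e))
 (c (a (nat_lit 0x101c7201))
 (c z e
 (c (b (nat_lit 0x104d060f)) e e))
 (c (a (nat_lit 0x1018ea01)) e
 (c (a (nat_lit 0x100c9c01)) e
 (c z e
 (c z e
 (c (a (nat_lit 0x10050a03)) e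
 (c (a (nat_lit 0x10203203)) e
 (c (a (nat_lit 0x10225603)) e
 (c (a (nat_lit 0x10220203)) e
 (c z e
 (c z e
 (c z e
 (c (nat_lit 0x7ff7a8000080000800008000080000c3747) e
 (c z e
 (c (a (nat_lit 0x100da207)) e
 (c z e
 (c (nat_lit 0x7ff877ffa3800008000080000800002f68f) e
 (c (nat_lit 0x800007feef7ffbb800008000080000fbfcf) e
 (c z e
 (c (nat_lit 0x7ff857ffec800007ff548000080000bf84f) e
 (c z e
 (c (a (nat_lit 0xfff2e17)) e e))))))))))))))))))))))))))))))))) Tr.c Tr.e (nat_lit 0) C.t6 C.t7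
noncomputable def tt535 : Tr := beta% (fun (c : Nat → Tr → Tr → Tr) (e : Tr) (z : Nat) (a b : Nat → Nat) =>
 (c (a (nat_lit 0x101ee000))
 (c (b (nat_lit 0xfe25c00)) e
 (c (b (nat_lit 0xfe3f200)) e
 (c (b (nat_lit 0xfde9600)) e
 (c (b (nat_lit 0xfe6ee01)) e
 (c z e
 (c (b (nat_lit 0xfe75001)) e
 (c (b (nat_lit 0xfd53201)) e
 (c (b (nat_lit 0xfacf201)) e
 (c (b (nat_lit 0xfd6f403)) e
 (c (b (nat_lit 0xfdb3e03)) e
 (c (b (nat_lit 0xfd99403)) e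
 (c (b (nat_lit 0xfb53e03)) e
 (c z e
 (c z e
 (c (b (nat_lit 0xfcc2407)) e
 (c z e
 (c z e
 (c z e
 (c (b (nat_lit 0xff34a0f)) e
 (c z e
 (c z e
 (c z e
 (c (b (nat_lit 0x1010340f)) e
 (c (b (nat_lit 0xffd9e17)) e
 (c (nat_lit 0x7fe8180000800008000080000800008000019f17) e e)))))))))))))))))))))))))
 (c (a (nat_lit 0x101eb000))
 (c (b (nat_lit 0xfcb5800)) e
 (c (b (nat_lit 0xfdbbc01)) e
 (c (b (nat_lit 0xfde7a01)) e
 (c (b (nat_lit 0xfe56201)) e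
 (c (b (nat_lit 0xfead401)) e
 (c (b (nat_lit 0xfe05601)) e
 (c (b (nat_lit 0xfcd7603)) e
 (c (b (nat_lit 0xfd2e003)) e
 (c (b (nat_lit 0xfda0403)) e
 (c z e
 (c z e
 (c z e
 (c z e
 (c z e
 (c (b (nat_lit 0x10388207)) e
 (c (b (nat_lit 0xfe81607)) e
 (c z e
 (c (b (nat_lit 0xffff40f)) e e))))))))))))))))))
 (c (a (nat_lit 0x101fe400))
 (c (b (nat_lit 0xfe04c01)) e
 (c (nat_lit 0x7e02a7e02a7ddd77e02a7e02a7e02a7e02a66481) e
 (c (b (nat_lit 0xfe1b401)) e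
 (c (b (nat_lit 0xfef9401)) e
 (c (b (nat_lit 0xfd32003)) e
 (c (nat_lit 0x7fff77fff77fff77fff77fff77fccb7fff76d983) e
 (c (b (nat_lit 0xfd2fc03)) e
 (c z e
 (c z e
 (c z e
 (c z e
 (c z e
 (c z e
 (c (b (nat_lit 0xfffe007)) e e))))))))))))))
 (c (a (nat_lit 0x101e6c00))
 (c (nat_lit 0x7d06d7d06d7d06d7ce667d06d7d06d7d06d99581) e
 (c (nat_lit 0x7f0a77f0a77f0a77f0a77ebfd7f0a77f0a726781) e
 (c (nat_lit 0x7eeb47eeb47eeac7eeb47eeb47ecaa7eeb45f883) e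
 (c (nat_lit 0x80000800007ff787ff30800008000080000e5583) e
 (c z e
 (c z e
 (c z e
 (c z e
 (c (b (nat_lit 0x10275607)) e
 (c z e
 (c (b (nat_lit 0x104eac07)) e
 (c z e
 (c (b (nat_lit 0xf93940f)) e e)))))))))))))
 (c (a (nat_lit 0x101f5c00))
 (c z e
 (c z e
 (c (nat_lit 0x800007fe6b7ffbd8000080000800008000031103) e
 (c z e
 (c z e
 (c z e
 (c (b (nat_lit 0xfc1b807)) e
 (c z e
 (c z e
 (c z e
 (c (b (nat_lit 0xdcf6e0f)) e e)))))))))))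
 (c (a (nat_lit 0x101b9600))
 (c z e
 (c z e
 (c (b (nat_lit 0xf3c6c03)) e
 (c (b (nat_lit 0xf83a007)) e
 (c (b (nat_lit 0xf71c807)) e
 (c z e
 (c z e
 (c z e
 (c z e
 (c (b (nat_lit 0xfebb00f)) e
 (c z e
 (c z e
 (c (b (nat_lit 0x102b160f)) e
 (c (b (nat_lit 0x1024fa17)) e e))))))))))))))
 (c (a (nat_lit 0x101fde00))
 (c (b (nat_lit 0xf1b6a03)) e
 (c (b (nat_lit 0xef7a007)) e
 (c (b (nat_lit 0xf9bcc07)) e
 (c z e
 (c z e
 (c (b (nat_lit 0xfd6fc07)) e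
 (c z e
 (c (b (nat_lit 0x10705a0f)) e
 (c (b (nat_lit 0x104f840f)) e
 (c z e
 (c (b (nat_lit 0x107be80f)) e e)))))))))))
 (c (a (nat_lit 0x101fc400))
 (c (b (nat_lit 0xed9e007)) e
 (c (b (nat_lit 0x106d3607)) e
 (c z e
 (c z e
 (c (b (nat_lit 0x1087de0f)) e
 (c (b (nat_lit 0xffffa0f)) e
 (c z e
 (c z e
 (c z e
 (c (b (nat_lit 0xf1ff017)) e e))))))))))
 (c (a (nat_lit 0x1014ae00))
 (c z e
 (c z e
 (c z e
 (c z e
 (c z e
 (c z e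
 (c z e
 (c (b (nat_lit 0x10f99a17)) e e))))))))
 (c (a (nat_lit 0x101ffe00))
 (c (nat_lit 0x8000080000800007ffbb800007fede800000858f) e
 (c (b (nat_lit 0xfcc620f)) e
 (c z e
 (c z e
 (c z e
 (c (b (nat_lit 0x10cfea17)) e e))))))
 (c (a (nat_lit 0x101b4c00))
 (c z e
 (c z e
 (c z e
 (c z e
 (c (b (nat_lit 0x10919817)) e e)))))
 (c (a (nat_lit 0x101f1401))
 (c z e
 (c z e
 (c (b (nat_lit 0x10891e17)) e e)))
 (c (a (nat_lit 0x101bd601))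
 (c (b (nat_lit 0x11000017)) e e)
 (c z e
 (c z e
 (c z e
 (c (a (nat_lit 0x101d1803)) e
 (c (a (nat_lit 0x10219c03)) e
 (c (a (nat_lit 0x10189403)) e
 (c (a (nat_lit 0x100e4003)) e
 (c (a (nat_lit 0x101a9003)) e
 (c (a (nat_lit 0x1014a207)) e
 (c (a (nat_lit 0x10188a07)) e
 (c z e
 (c z e
 (c (nat_lit 0x80000800007ff8580000800008000023347) e
 (c (nat_lit 0x8000080000800007ffb48000080000cbb8f) e
 (c (nat_lit 0x800008000080000800007ff7080000ddccf) e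
 (c z e
 (c (a (nat_lit 0xfffea0f)) e
 (c z e
 (c z e
 (c (a (nat_lit 0x10077c17)) e e)))))))))))))))))))))))))))))))))) Tr.c Tr.e (nat_lit 0) C.t6 C.t7
noncomputable def tt536 : Tr := beta% (fun (c : Nat → Tr → Tr → Tr) (e : Tr) (z : Nat) (a b : Nat → Nat) =>
 (c (a (nat_lit 0x101f2a00))
 (c (b (nat_lit 0xfe39001)) e
 (c (b (nat_lit 0xfd2fc01)) e
 (c (b (nat_lit 0xfcc8401)) e
 (c (b (nat_lit 0xfc44801)) e
 (c (b (nat_lit 0xfe4d401)) e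
 (c (b (nat_lit 0xfd9ee03)) e
 (c (b (nat_lit 0xffc2a03)) e
 (c (nat_lit 0x7f0c17f0c17f0c17f0c17f0c17ec9a7f0c115603) e
 (c z e
 (c z e
 (c (b (nat_lit 0xff5c607)) e
 (c (b (nat_lit 0xfff5e07)) e
 (c z e
 (c z e
 (c (b (nat_lit 0xff2ea07)) e
 (c z e
 (c z e
 (c z e
 (c z e
 (c z e
 (c (b (nat_lit 0x10146217)) e e)))))))))))))))))))))
 (c (a (nat_lit 0x101fb600))
 (c (nat_lit 0x7e38d7e38d7e2357e38d7e38d7e38d7e38ddf481) e
 (c (b (nat_lit 0xfa18401)) e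
 (c (b (nat_lit 0xfd1b401)) e
 (c (b (nat_lit 0xfe3ba03)) e
 (c (b (nat_lit 0xfcac603)) e
 (c (nat_lit 0x800008000080000800007ffdf80000800001f981) e
 (c z e
 (c z e
 (c z e
 (c z e
 (c z e
 (c z e
 (c (b (nat_lit 0xee59407)) e
 (c z e
 (c (b (nat_lit 0xfc7f60f)) e
 (c (b (nat_lit 0xffea60f)) e
 (c z e
 (c z e
 (c (b (nat_lit 0xff8d217)) e e)))))))))))))))))))
 (c (a (nat_lit 0x101f3600))
 (c z e
 (c (b (nat_lit 0xfb1c203)) e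
 (c (nat_lit 0x800008000080000800007fb95800008000020481) e
 (c z e
 (c z e
 (c z e
 (c z e
 (c z e
 (c z e
 (c z e
 (c (b (nat_lit 0xef0da07)) e
 (c z e
 (c z e
 (c z e
 (c z e
 (c (b (nat_lit 0xff4480f)) e
 (c z e
 (c (b (nat_lit 0xfffe023)) e
 (c (b (nat_lit 0xfff2031)) e e)))))))))))))))))))
 (c (a (nat_lit 0x101e6400))
 (c z e
 (c (nat_lit 0x7fde87fde87fd707fde87fde87fde87fde8d7903) e
 (c (b (nat_lit 0xf333e03)) e
 (c z e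
 (c (b (nat_lit 0xf7e0207)) e
 (c z e
 (c z e
 (c z e
 (c z e
 (c (b (nat_lit 0xfcbe80f)) e
 (c z e
 (c z e
 (c (b (nat_lit 0x100fec0f)) e
 (c z e
 (c (b (nat_lit 0xfd85017)) e e)))))))))))))))
 (c (a (nat_lit 0x101dfc00))
 (c (nat_lit 0x752e4752fc752fc752fc752fc752fc752fccc483) e
 (c (b (nat_lit 0xff62203)) e
 (c z e
 (c (nat_lit 0x80000800007ff9a80000800008000080000fca07) e
 (c z e
 (c z e
 (c (b (nat_lit 0x1017a807)) e
 (c (b (nat_lit 0x1074c00f)) e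
 (c (b (nat_lit 0x1083140f)) e
 (c (b (nat_lit 0x10421e0f)) e
 (c (b (nat_lit 0x10225c0f)) e
 (c (b (nat_lit 0xfc9040f)) e e))))))))))))
 (c (a (nat_lit 0x101d7800))
 (c (b (nat_lit 0xef43e07)) e
 (c z e
 (c z e
 (c z e
 (c (b (nat_lit 0x105e7007)) e
 (c z e
 (c (b (nat_lit 0x104c140f)) e
 (c z e
 (c (b (nat_lit 0x1064e00f)) e
 (c (b (nat_lit 0xf80380f)) e e))))))))))
 (c (a (nat_lit 0x101e9a00))
 (c (b (nat_lit 0xfd9e807)) e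
 (c z e
 (c z e
 (c (b (nat_lit 0xf93020f)) e
 (c z e
 (c z e
 (c (b (nat_lit 0xfa9d00f)) e
 (c (b (nat_lit 0x10e7c20f)) e
 (c z e
 (c (b (nat_lit 0xffe7430)) e e))))))))))
 (c (a (nat_lit 0x101f5200))
 (c z e
 (c (b (nat_lit 0xf98a00f)) e
 (c z e
 (c (nat_lit 0x80000800008000080000800007fd0d80000dec8f) e
 (c z e
 (c (b (nat_lit 0x1067d60f)) e
 (c (b (nat_lit 0x10248e17)) e e)))))))
 (c (a (nat_lit 0x101eae00))
 (c z e
 (c (nat_lit 0x80000800008000080000800007ffd7800006c48f) e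
 (c z e
 (c z e
 (c (b (nat_lit 0x11000617)) e e)))))
 (c (a (nat_lit 0x101eda00))
 (c z e
 (c z e
 (c (b (nat_lit 0x109b3e17)) e
 (c (b (nat_lit 0x10a3d040)) e e))))
 (c (a (nat_lit 0x101bbe01))
 (c (b (nat_lit 0x11000217)) e e)
 (c (nat_lit 0x810218102180fe480fe480fea80fea46241) e
 (c (a (nat_lit 0x101f0201)) e
 (c z e
 (c (a (nat_lit 0x10161e01)) e
 (c (a (nat_lit 0x101e4e03)) e
 (c (a (nat_lit 0x10238e03)) e
 (c (a (nat_lit 0x101c4003)) e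
 (c (a (nat_lit 0x100de803)) e
 (c (a (nat_lit 0x100fe003)) e
 (c (nat_lit 0x80653805bf8065380653806538065381d07) e
 (c (a (nat_lit 0x10120407)) e
 (c z e
 (c (nat_lit 0x7fe168000080000800008000080000b3b87) e
 (c (nat_lit 0x7fe6d7fe5d80000800008000080000356c7) e
 (c (nat_lit 0x7fecc7ff7d7ff73800008000080000c59cf) e
 (c z e
 (c (nat_lit 0x80000800007ff6d80000800008000063d4f) e
 (c (a (nat_lit 0xfed9a0f)) e
 (c (nat_lit 0x800008000080000800007ff50800007c7cf) e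
 (c (a (nat_lit 0x10197617)) e e)))))))))))))))))))))))))))))))) Tr.c Tr.e (nat_lit 0) C.t6 C.t7
noncomputable def tt537 : Tr := beta% (fun (c : Nat → Tr → Tr → Tr) (e : Tr) (z : Nat) (a b : Nat → Nat) =>
 (c (a (nat_lit 0x10203000))
 (c (b (nat_lit 0xfd4ae00)) e
 (c (b (nat_lit 0xfe1f600)) e
 (c (b (nat_lit 0xfea9a00)) e
 (c (b (nat_lit 0xfe37200)) e
 (c (b (nat_lit 0xfe0ba00)) e
 (c (b (nat_lit 0xfde7600)) e
 (c (b (nat_lit 0xfe15600)) e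
 (c (b (nat_lit 0xfe14a00)) e
 (c (b (nat_lit 0xfdf2e01)) e
 (c (b (nat_lit 0xfc47601)) e
 (c (b (nat_lit 0xfdff401)) e
 (c (b (nat_lit 0xfd8da01)) e
 (c (b (nat_lit 0xf87dc01)) e
 (c (b (nat_lit 0xfdc8803)) e
 (c (b (nat_lit 0xfcb6803)) e
 (c (b (nat_lit 0xf934003)) e
 (c (b (nat_lit 0xfbeee03)) e
 (c z e
 (c (b (nat_lit 0xfd03e07)) e
 (c (b (nat_lit 0xfd99e07)) e
 (c (b (nat_lit 0xfcc2e07)) e
 (c (b (nat_lit 0xff34c07)) e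
 (c (b (nat_lit 0xfdd9c07)) e
 (c (b (nat_lit 0xffc320f)) e
 (c (b (nat_lit 0xffa240f)) e
 (c z e
 (c z e
 (c (b (nat_lit 0xff16e0f)) e e))))))))))))))))))))))))))))
 (c (a (nat_lit 0x101f1a00))
 (c (b (nat_lit 0xfdd1e00)) e
 (c (b (nat_lit 0xfe42200)) e
 (c (b (nat_lit 0xfe3c600)) e
 (c (b (nat_lit 0xfe14e00)) e
 (c (b (nat_lit 0xfd38800)) e
 (c (b (nat_lit 0xfe34000)) e
 (c (b (nat_lit 0xfe6b401)) e
 (c (b (nat_lit 0xfdfae01)) e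
 (c (b (nat_lit 0xfc5b201)) e
 (c (b (nat_lit 0xfeee201)) e
 (c z e
 (c (nat_lit 0x7f49a7f49a7f49a7f49a7f49a7f49a7f3aebc883) e
 (c (b (nat_lit 0xfb9e603)) e
 (c (b (nat_lit 0xfcc9403)) e
 (c z e
 (c (b (nat_lit 0xfaaa803)) e
 (c z e
 (c z e
 (c (b (nat_lit 0xfd87e07)) e
 (c (b (nat_lit 0xff7b407)) e
 (c z e
 (c z e
 (c (b (nat_lit 0xffa540f)) e
 (c z e
 (c z e
 (c z e
 (c z e
 (c z e
 (c (nat_lit 0x80000800007ff228000080000800008000061ab3) e e)))))))))))))))))))))))))))))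
 (c (a (nat_lit 0x101ce600))
 (c (b (nat_lit 0xfe7e000)) e
 (c (b (nat_lit 0xfe62e00)) e
 (c (b (nat_lit 0xfe11800)) e
 (c (b (nat_lit 0xfe5f800)) e
 (c (b (nat_lit 0xfe89601)) e
 (c (b (nat_lit 0xfe64801)) e
 (c (b (nat_lit 0xfdbb801)) e
 (c (b (nat_lit 0xf9e0a01)) e
 (c (nat_lit 0x7ef817ef817ef267ef817ef817ef817ef813f181) e
 (c (b (nat_lit 0xfdb5603)) e
 (c (b (nat_lit 0xfe22603)) e
 (c (b (nat_lit 0xfd59203)) e
 (c z e
 (c z e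
 (c (b (nat_lit 0xfc2a607)) e
 (c z e
 (c z e
 (c z e
 (c z e
 (c z e
 (c z e
 (c z e
 (c (b (nat_lit 0xffe080f)) e
 (c (b (nat_lit 0xffeb40f)) e
 (c (nat_lit 0x7ff818000080000800008000080000800006c817) e
 (c z e
 (c (nat_lit 0x7ffdb7ffdb7ff1f7ffdb7ffdb7ffdb7ffdbf7b27) e e)))))))))))))))))))))))))))
 (c (a (nat_lit 0x101e7800))
 (c (b (nat_lit 0xfe18c00)) e
 (c (b (nat_lit 0xfe70000)) e
 (c (b (nat_lit 0xfd4b001)) e
 (c (b (nat_lit 0xfe41201)) e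
 (c (b (nat_lit 0xfe76c01)) e
 (c (b (nat_lit 0xfbc2c01)) e
 (c (b (nat_lit 0xf8fd401)) e
 (c (b (nat_lit 0xfd9d403)) e
 (c (b (nat_lit 0xfdb6203)) e
 (c (b (nat_lit 0xfee0203)) e
 (c (b (nat_lit 0xfce3203)) e
 (c z e
 (c z e
 (c (b (nat_lit 0x1039ae07)) e
 (c (b (nat_lit 0x10714807)) e
 (c z e
 (c z e
 (c z e
 (c z e
 (c z e
 (c (b (nat_lit 0xfffae0f)) e
 (c z e
 (c (b (nat_lit 0x10267617)) e e))))))))))))))))))))))) tt536))))) Tr.c Tr.e (nat_lit 0) C.t6 C.t7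
noncomputable def tt538 : Tr := beta% (fun (c : Nat → Tr → Tr → Tr) (e : Tr) (z : Nat) (a b : Nat → Nat) =>
 (c (a (nat_lit 0x101c4600))
 (c (b (nat_lit 0xf917c00)) e
 (c (b (nat_lit 0xf846801)) e
 (c (b (nat_lit 0xf882c01)) e
 (c (b (nat_lit 0xf960001)) e
 (c (b (nat_lit 0xf8f2001)) e
 (c (nat_lit 0x7f2e87f2e87f1ae7f2e87f2e87f2e87f2e85ee81) e
 (c (b (nat_lit 0xfff5203)) e
 (c (b (nat_lit 0xfdfea03)) e
 (c z e
 (c z e
 (c z e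
 (c z e
 (c (b (nat_lit 0x102ca007)) e
 (c (b (nat_lit 0xf67ea07)) e
 (c (b (nat_lit 0xfcabc07)) e
 (c (b (nat_lit 0xfb34c07)) e
 (c z e
 (c (b (nat_lit 0x1028740f)) e
 (c z e
 (c z e
 (c (b (nat_lit 0xffd6c0f)) e e)))))))))))))))))))))
 (c (a (nat_lit 0x101aac00))
 (c (b (nat_lit 0xf796401)) e
 (c (b (nat_lit 0xf8a8a01)) e
 (c (b (nat_lit 0xf6fa201)) e
 (c (b (nat_lit 0xf839801)) e
 (c (nat_lit 0x7f17f7f17f7f17f7f17f7efe17f17f7f17fad183) e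
 (c z e
 (c z e
 (c z e
 (c (b (nat_lit 0x1026a403)) e
 (c z e
 (c z e
 (c (b (nat_lit 0xf0cec07)) e
 (c (nat_lit 0x717d7717d7717d7717d771555717d7717d71a307) e
 (c (b (nat_lit 0xf62ac07)) e
 (c (b (nat_lit 0xf993c0f)) e
 (c (b (nat_lit 0xf8f920f)) e
 (c (b (nat_lit 0x101ffc0f)) e e)))))))))))))))))
 (c (a (nat_lit 0x10190000))
 (c (b (nat_lit 0x10cf6001)) e
 (c (b (nat_lit 0xf7ce201)) e
 (c (b (nat_lit 0xf954a03)) e
 (c (b (nat_lit 0x10dd3c03)) e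
 (c z e
 (c (b (nat_lit 0xf9e0e03)) e
 (c (b (nat_lit 0xf992603)) e
 (c (b (nat_lit 0xf778607)) e
 (c z e
 (c (b (nat_lit 0xffe1c07)) e
 (c (b (nat_lit 0xed0ca07)) e
 (c (b (nat_lit 0xda72207)) e
 (c (b (nat_lit 0xf8a1e0f)) e
 (c (b (nat_lit 0xfabfe0f)) e
 (c z e
 (c (b (nat_lit 0xf97c20f)) e e))))))))))))))))
 (c (a (nat_lit 0x101bde00))
 (c (b (nat_lit 0xf474803)) e
 (c (b (nat_lit 0xfc56803)) e
 (c (b (nat_lit 0xe14c203)) e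
 (c (b (nat_lit 0xf8a0a03)) e
 (c (b (nat_lit 0xf1a3203)) e
 (c (b (nat_lit 0xf17e607)) e
 (c (b (nat_lit 0xf86f007)) e
 (c (b (nat_lit 0xf772207)) e
 (c (b (nat_lit 0xf8c5407)) e
 (c (b (nat_lit 0xf5c0207)) e
 (c (b (nat_lit 0x10bdca0f)) e
 (c (b (nat_lit 0x106fb00f)) e
 (c (b (nat_lit 0x10a7b20f)) e
 (c (b (nat_lit 0xfe01e0f)) e
 (c z e
 (c (b (nat_lit 0xfffbe23)) e e))))))))))))))))
 (c (a (nat_lit 0x101b6200))
 (c (b (nat_lit 0xeda0603)) e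
 (c (b (nat_lit 0xea65803)) e
 (c (b (nat_lit 0xeea3203)) e
 (c (b (nat_lit 0xf177207)) e
 (c (b (nat_lit 0xedcb407)) e
 (c (b (nat_lit 0xfbe8207)) e
 (c (nat_lit 0x846328463284632846328448f846328463240807) e
 (c z e
 (c (b (nat_lit 0x10cf4a0f)) e
 (c (b (nat_lit 0x10e2760f)) e
 (c (b (nat_lit 0xf8dbe0f)) e
 (c (b (nat_lit 0xede760f)) e
 (c (b (nat_lit 0xf71be0f)) e e)))))))))))))
 (c (a (nat_lit 0x101c3000))
 (c (b (nat_lit 0xe854c03)) e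
 (c (b (nat_lit 0xf09fc07)) e
 (c (nat_lit 0x7307a7307a73001730137307a7307a7307a9c607) e
 (c (b (nat_lit 0xe1bc407)) e
 (c z e
 (c z e
 (c z e
 (c z e
 (c z e
 (c (b (nat_lit 0xe539c0f)) e e))))))))))
 (c (a (nat_lit 0x101ade00))
 (c z e
 (c (b (nat_lit 0x10ae2007)) e
 (c (b (nat_lit 0x10e14207)) e
 (c (b (nat_lit 0xee6c807)) e
 (c (b (nat_lit 0xefe340f)) e
 (c z e
 (c z e
 (c (b (nat_lit 0x10450e0f)) e e))))))))
 (c (a (nat_lit 0x101f8800))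
 (c (b (nat_lit 0xe260607)) e
 (c (b (nat_lit 0xe8e2807)) e
 (c z e
 (c z e
 (c z e
 (c z e
 (c (b (nat_lit 0x10838a0f)) e e)))))))
 (c (a (nat_lit 0x10142e00))
 (c (b (nat_lit 0xe95760f)) e
 (c z e
 (c z e
 (c z e
 (c (b (nat_lit 0xfcd2a0f)) e
 (c (b (nat_lit 0x10c0fa21)) e e))))))
 (c (a (nat_lit 0x101b4e00))
 (c z e
 (c (b (nat_lit 0x1033fe0f)) e
 (c (b (nat_lit 0x10fffe0f)) e
 (c (b (nat_lit 0x1067ea40)) e
 (c (b (nat_lit 0xf7ea840)) e e)))))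
 (c (a (nat_lit 0x101a5a00))
 (c (b (nat_lit 0x1100000f)) e e)
 (c (a (nat_lit 0x1006ae01)) e
 (c z e
 (c (a (nat_lit 0x100e0401)) e
 (c (a (nat_lit 0x101fc001)) e
 (c z e
 (c (a (nat_lit 0x100fa803)) e
 (c (a (nat_lit 0x10130803)) e
 (c z e
 (c (a (nat_lit 0x10122603)) e
 (c z e
 (c z e
 (c (a (nat_lit 0x10036807)) e
 (c z e
 (c (a (nat_lit 0xfefe007)) e
 (c (a (nat_lit 0xffeea07)) e
 (c z e
 (c z e
 (c (a (nat_lit 0xfff580f)) e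
 (c (a (nat_lit 0x100bc40f)) e
 (c (a (nat_lit 0x10184a0f)) e e)))))))))))))))))))))))))))))))) Tr.c Tr.e (nat_lit 0) C.t6 C.t7
noncomputable def tt539 : Tr := beta% (fun (c : Nat → Tr → Tr → Tr) (e : Tr) (z : Nat) (a b : Nat → Nat) =>
 (c (a (nat_lit 0x10165e00))
 (c (b (nat_lit 0xfa19400)) e
 (c (b (nat_lit 0xfe2c000)) e
 (c (b (nat_lit 0xfd28e00)) e
 (c (b (nat_lit 0xfd83000)) e
 (c (b (nat_lit 0xfdb1200)) e
 (c (b (nat_lit 0xfb95e00)) e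
 (c (b (nat_lit 0xff7b800)) e
 (c (b (nat_lit 0xf5c7200)) e
 (c (b (nat_lit 0xfcecc00)) e
 (c (b (nat_lit 0xfb42800)) e
 (c (b (nat_lit 0xf895800)) e
 (c (b (nat_lit 0xf99ca01)) e
 (c (b (nat_lit 0xfb35401)) e
 (c (b (nat_lit 0xfa8d001)) e
 (c (b (nat_lit 0xf368201)) e
 (c (b (nat_lit 0xf657c01)) e
 (c (b (nat_lit 0xf1fb603)) e
 (c z e
 (c (b (nat_lit 0xf465e03)) e
 (c (b (nat_lit 0xf8b7803)) e
 (c (b (nat_lit 0xf6b4403)) e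
 (c (b (nat_lit 0xff07207)) e
 (c (b (nat_lit 0xfa88a07)) e
 (c (b (nat_lit 0xfc5a407)) e
 (c (b (nat_lit 0xfd41407)) e
 (c (b (nat_lit 0xfda0a07)) e e))))))))))))))))))))))))))
 (c (a (nat_lit 0x101c6a00))
 (c (b (nat_lit 0xfd85000)) e
 (c (b (nat_lit 0xfe6f200)) e
 (c (b (nat_lit 0xff28a00)) e
 (c (b (nat_lit 0xfe80000)) e
 (c (b (nat_lit 0xfe32e00)) e
 (c (b (nat_lit 0xfe56800)) e
 (c (b (nat_lit 0xfd7c600)) e
 (c (b (nat_lit 0xfe62c00)) e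
 (c (b (nat_lit 0xfbb7200)) e
 (c (b (nat_lit 0xfe1bc01)) e
 (c (b (nat_lit 0xfd96401)) e
 (c (b (nat_lit 0xfd54801)) e
 (c (b (nat_lit 0xfde3c01)) e
 (c (b (nat_lit 0xfcb4401)) e
 (c (nat_lit 0x7fab27fab27fab27fab27fab27fab27fa7d57483) e
 (c (b (nat_lit 0xf8a4003)) e
 (c (b (nat_lit 0xf7a2203)) e
 (c (b (nat_lit 0xf81ae03)) e
 (c (b (nat_lit 0xffffc03)) e
 (c z e
 (c (b (nat_lit 0xfe0e807)) e
 (c z e
 (c z e
 (c z e
 (c z e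
 (c (b (nat_lit 0xfffec0f)) e
 (c z e
 (c (b (nat_lit 0xfe5780f)) e e))))))))))))))))))))))))))))
 (c (a (nat_lit 0x101a8c00))
 (c (b (nat_lit 0xfad4400)) e
 (c (b (nat_lit 0xfec5600)) e
 (c (b (nat_lit 0xfeb2800)) e
 (c (b (nat_lit 0xfd5f600)) e
 (c (b (nat_lit 0xfbc8e00)) e
 (c (b (nat_lit 0xfeb7e00)) e
 (c (b (nat_lit 0xff91600)) e
 (c (b (nat_lit 0xfd29e01)) e
 (c (b (nat_lit 0xfdbb801)) e
 (c z e
 (c (b (nat_lit 0xfcaa401)) e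
 (c (b (nat_lit 0xfff9c01)) e
 (c (nat_lit 0x7efb77efb77efb77ef8e7ee9c7efb77efb70f183) e
 (c (nat_lit 0x7f7d67f7d67f7d67f7d67f7d67f6fc7f7d6ef183) e
 (c (b (nat_lit 0xfdc9203)) e
 (c (b (nat_lit 0xffa2e03)) e
 (c (b (nat_lit 0xf8a3c03)) e
 (c (b (nat_lit 0xfe74607)) e
 (c (b (nat_lit 0xfecb407)) e
 (c z e
 (c z e
 (c z e
 (c z e
 (c (b (nat_lit 0xffed60f)) e
 (c z e
 (c z e
 (c z e
 (c (b (nat_lit 0xffeda27)) e e))))))))))))))))))))))))))))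
 (c (a (nat_lit 0x1017d600))
 (c (b (nat_lit 0xfc14800)) e
 (c (b (nat_lit 0xfc85200)) e
 (c (b (nat_lit 0xfd28800)) e
 (c (b (nat_lit 0xfeeea00)) e
 (c z e
 (c (b (nat_lit 0xfeb6001)) e
 (c (b (nat_lit 0xf95f401)) e
 (c (b (nat_lit 0xfba5201)) e
 (c (b (nat_lit 0xfd7b801)) e
 (c (b (nat_lit 0xfdb2001)) e
 (c (b (nat_lit 0xfdb3e03)) e
 (c (nat_lit 0x80000800008000080000800007ffe28000045781) e
 (c z e
 (c z e
 (c z e
 (c z e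
 (c (b (nat_lit 0xfa0b007)) e
 (c (b (nat_lit 0xfe5d007)) e
 (c (b (nat_lit 0xfdfde07)) e e)))))))))))))))))))
 (c (a (nat_lit 0x1018a600))
 (c (b (nat_lit 0xfeade00)) e
 (c z e
 (c (b (nat_lit 0xfe58600)) e
 (c (b (nat_lit 0xff7fe01)) e
 (c z e
 (c (b (nat_lit 0xfa41c01)) e
 (c (b (nat_lit 0xf750001)) e
 (c (b (nat_lit 0xfdc3401)) e
 (c z e
 (c (nat_lit 0x80000800008000080000800007fda9800007b001) e
 (c z e
 (c z e
 (c z e
 (c z e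
 (c (b (nat_lit 0xf94d007)) e
 (c (b (nat_lit 0xf94c807)) e
 (c (b (nat_lit 0xdd90c07)) e
 (c (b (nat_lit 0xfa7ce07)) e
 (c (b (nat_lit 0xfaefe0f)) e e))))))))))))))))))) tt538)))))) Tr.c Tr.e (nat_lit 0) C.t6 C.t7
noncomputable def tt541 : Tr := beta% (fun (c : Nat → Tr → Tr → Tr) (e : Tr) (z : Nat) (a b d : Nat → Nat) =>
 (c (a (nat_lit 0x101ffa00))
 (c (b (nat_lit 0xfca9a01))
 (c (nat_lit 0x80000800007fd09800008000080000d2409) e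
 (c z e
 (c (d (nat_lit 0x102d1609)) e
 (c (nat_lit 0x812d0812d081191812d0812d0812d070c4c) e e))))
 (c (b (nat_lit 0xfd92201))
 (c z e
 (c z e
 (c (d (nat_lit 0x10348814)) e e)))
 (c (nat_lit 0x7e9a87e9a67e9a87e9a87e9a8f97a1) e
 (c (b (nat_lit 0xfc8ec03)) e
 (c (nat_lit 0x7e5d57e5d57e5aa7e5a37e5d5c9903) e
 (c (b (nat_lit 0xfe7aa03)) e
 (c (b (nat_lit 0x1057ce03)) e
 (c (b (nat_lit 0x10c5aa03)) e
 (c (b (nat_lit 0xff89405)) e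
 (c (nat_lit 0x7fc557fc557fc477fc557fc555dce7) e
 (c (b (nat_lit 0x10086407)) e
 (c (b (nat_lit 0xff9bc07)) e
 (c z e
 (c (b (nat_lit 0xfe51c07)) e
 (c (nat_lit 0x7fad87facf7fad87fad87fad8aefa9) e
 (c (b (nat_lit 0xff28209)) e
 (c (b (nat_lit 0xff3b809)) e
 (c (b (nat_lit 0xff6f209)) e
 (c (b (nat_lit 0xff04e09)) e
 (c (b (nat_lit 0xfff820c)) e e))))))))))))))))))))
 (c (nat_lit 0x80ffa80ffb80ffb80ffaa5900)
 (c (b (nat_lit 0xfcd4e01)) e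
 (c (b (nat_lit 0xfdd0803)) e
 (c (b (nat_lit 0xfd23803)) e
 (c (b (nat_lit 0x10101a03)) e
 (c (b (nat_lit 0x103cb003)) e
 (c (b (nat_lit 0x10877203)) e
 (c z e
 (c (nat_lit 0x7f4737f4737f4237f4737f4734c7e7) e
 (c (b (nat_lit 0x10008e07)) e
 (c (b (nat_lit 0xff94e07)) e
 (c z e
 (c (nat_lit 0x7f6aa7f69a7f6ad7f6ad7f6add6a67) e
 (c (b (nat_lit 0xffb2008)) e
 (c (b (nat_lit 0xfefd809)) e
 (c (b (nat_lit 0xfefea09)) e
 (c (b (nat_lit 0xffd5409)) e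
 (c (b (nat_lit 0xffd4209)) e
 (c (b (nat_lit 0xffb1009)) e
 (c (b (nat_lit 0xffe840c)) e
 (c (nat_lit 0x8000080000800007ffce800002688c) e e))))))))))))))))))))
 (c (a (nat_lit 0x101ffc00))
 (c (nat_lit 0x7f0d77f0d77f0d77f0d47f0d726c43) e
 (c z e
 (c (b (nat_lit 0x1019ee03)) e
 (c (b (nat_lit 0x10195403)) e
 (c (nat_lit 0x823a8823a8823a8823a88236f50a65) e
 (c z e
 (c (nat_lit 0x7eb207eb207eadd7eaf57eb2000a87) e
 (c z e
 (c (b (nat_lit 0xffd6007)) e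
 (c (nat_lit 0x7f9ec7fa0d7fa527fa747fa74da007) e
 (c (nat_lit 0x80192801a9801b1801b1801b161528) e
 (c (nat_lit 0x7f9037f8f67f9037f9037f903be548) e
 (c (b (nat_lit 0xff11a09)) e
 (c (b (nat_lit 0xff78009)) e
 (c (b (nat_lit 0xff96409)) e
 (c (b (nat_lit 0xff9f209)) e
 (c (b (nat_lit 0xffc0e09)) e e)))))))))))))))))
 (c (nat_lit 0x81004810018100181002f3a30)
 (c z e
 (c z e
 (c z e
 (c (b (nat_lit 0x1001bc07)) e
 (c z e
 (c z e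
 (c z e
 (c (b (nat_lit 0xfc37c07)) e
 (c (b (nat_lit 0xfe8ea08)) e
 (c (b (nat_lit 0xfd0b808)) e
 (c (b (nat_lit 0xfd80608)) e
 (c (nat_lit 0x80000800007fccd7fce07fce08ae28) e
 (c (nat_lit 0x8000080000800007fc7e7fc9420da8) e
 (c z e
 (c z e
 (c (nat_lit 0x800008000080000800007ff6064849) e e))))))))))))))))
 (c (a (nat_lit 0x101ff400))
 (c z e
 (c (b (nat_lit 0x10010a07)) e
 (c (b (nat_lit 0x10119607)) e
 (c z e
 (c z e
 (c (nat_lit 0x7eaa57ea6a7ead97ead97ead923987) e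
 (c (nat_lit 0x7fa287fa287fa027fa287fa2869328) e
 (c (b (nat_lit 0xfcc1c08)) e
 (c (nat_lit 0x7e2b17e2c67e2c67e2c67e2c6c7448) e
 (c (nat_lit 0x7fccf7fc987fccf7fcbd7fccffbfc8) e
 (c (nat_lit 0x80000800007fce77fd077fd07011e8) e
 (c (nat_lit 0x8000080000800007fcbe7fcc5fada8) e e))))))))))))
 (c (a (nat_lit 0x101ffa00))
 (c (nat_lit 0x8057580575805018057580575c3507) e
 (c z e
 (c z e
 (c (nat_lit 0x7bf307bf007bf577bf577bf57ba207) e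
 (c (b (nat_lit 0xfea2e08)) e
 (c (b (nat_lit 0xf944008)) e
 (c (nat_lit 0x7ecb27ecbc7ecbc7ecbc7ecbcdc0a8) e
 (c (nat_lit 0x7ee807ee9a7eea57eea57eea5f8308) e
 (c (nat_lit 0x7f2a77f28f7f2a77f2a77f2a777b28) e
 (c (nat_lit 0x80000800007f2727f2727f27255808) e
 (c (nat_lit 0x8000080000800007f24b7f24bf7d48) e
 (c (nat_lit 0x800008000080000800007f6e8a43a8) e e))))))))))))
 (c (a (nat_lit 0x10200200))
 (c z e
 (c (nat_lit 0x7d50a7d5077d50a7d50a7d50a07de7) e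
 (c (nat_lit 0x7af767af767af627af767af76c4368) e
 (c (b (nat_lit 0xfbe9808)) e
 (c (b (nat_lit 0xfdeb608)) e
 (c (nat_lit 0x7f0737f0767f0797f0797f079c0268) e
 (c (nat_lit 0x7f0157f0277f02b7f02e7f02eca808) e
 (c (nat_lit 0x7eff67efdf7eff67eff67eff6894e8) e
 (c (nat_lit 0x80000800007efbc7efc47efc47d568) e
 (c (nat_lit 0x8000080000800007ef9b7ef9bb4508) e
 (c (nat_lit 0x800008000080000800007f4b2cdf88) e e)))))))))))
 (c (a (nat_lit 0x10200400))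
 (c (nat_lit 0x72d9872d9672d6572d9872d9820c08) e
 (c (b (nat_lit 0xfc33e08)) e
 (c (b (nat_lit 0xfdb3608)) e
 (c (b (nat_lit 0xfdfaa08)) e
 (c (nat_lit 0x7efcc7efa27efca7efcc7efcc91388) e
 (c (nat_lit 0x7ef457ef427ef4d7ef4d7ef4d64f68) e
 (c (nat_lit 0x7ef5d7ef5a7ef557ef5d7ef5d81f88) e
 (c (nat_lit 0x80000800007ef7c7ef7e7ef802a9a8) e
 (c (nat_lit 0x8000080000800007ef647ef647ad48) e
 (c (nat_lit 0x800008000080000800007f4ab34e68) e e))))))))))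
 (c (a (nat_lit 0x101ff600)) e
 (c (a (nat_lit 0x101ffc00)) e
 (c (a (nat_lit 0x10200400)) e
 (c (nat_lit 0x80ffa80ffa80ffa80ff9c5400) e
 (c (a (nat_lit 0x101ffc00)) e
 (c (a (nat_lit 0x101ff600)) e
 (c (a (nat_lit 0x101ff801)) e
 (c (nat_lit 0x8100781008810048100441371) e
 (c (nat_lit 0x80aee80aee80aee80aef6dc31) e
 (c (nat_lit 0x80aef80af080af080af091f01) e
 (c (a (nat_lit 0x101df401)) e
 (c (nat_lit 0x80ee980ee980ee980ee8d1f73) e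
 (c (a (nat_lit 0x101d9003)) e
 (c (a (nat_lit 0x101d1003)) e
 (c (a (nat_lit 0x1011b603)) e
 (c (nat_lit 0x80bd980bd980bd980bdaa9333) e
 (c (nat_lit 0x80bd080be480be480be469745) e
 (c (a (nat_lit 0x10030407)) e
 (c (a (nat_lit 0x10030007)) e
 (c (nat_lit 0x7fde77fde77fde67fde63f4c7) e
 (c (nat_lit 0x7fc317fc317fc317fc307f6e7) e
 (c (nat_lit 0x81f8f81f8781f9781f971b8a7) e e))))))))))))))))))))))))))))))) Tr.c Tr.e (nat_lit 0) C.t4 C.t5 C.t6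
noncomputable def tt542 : Tr := beta% (fun (c : Nat → Tr → Tr → Tr) (e : Tr) (z : Nat) (a b : Nat → Nat) =>
 (c (a (nat_lit 0xfed0400))
 (c z e
 (c (nat_lit 0x80000800007ffe8800008000080000fc305) e
 (c (nat_lit 0x7e4b27e49e7e4b27e4b27e4b27e4b289747) e
 (c (nat_lit 0x7fca67fca67fca67fca07fca67fca65d3c7) e
 (c z e
 (c z e
 (c z e
 (c z e
 (c z e
 (c (b (nat_lit 0x101e420b)) e
 (c (nat_lit 0x82ee382ee382dc482d6682ee382ee32de8b) e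
 (c (b (nat_lit 0xff0a80b)) e
 (c z e
 (c (b (nat_lit 0x10280c0b)) e e))))))))))))))
 (c (a (nat_lit 0xfe00800))
 (c (nat_lit 0x800007ffe27ffdd800008000080000bef47) e
 (c z e
 (c z e
 (c z e
 (c z e
 (c z e
 (c z e
 (c z e
 (c (nat_lit 0x800007ffef7ffef800008000080000b370b) e e)))))))))
 (c (a (nat_lit 0xfe00800)) e
 (c (a (nat_lit 0xfe00a00))
 (c (b (nat_lit 0xfba8807)) e
 (c z e
 (c z e
 (c z e
 (c z e
 (c z e
 (c z e
 (c (b (nat_lit 0xffffa0b)) e e))))))))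
 (c (a (nat_lit 0xfe00001)) e
 (c (a (nat_lit 0xfdfee01))
 (c (nat_lit 0x814f1814f1814f181485813df814f16204b) e
 (c (b (nat_lit 0x1036bc0b)) e e))
 (c (a (nat_lit 0xfdfb401)) e
 (c (a (nat_lit 0xfea2e01)) e
 (c (nat_lit 0x7ed037ecfb7ed537ed537ed5351361) e
 (c (a (nat_lit 0xfa78403)) e
 (c (a (nat_lit 0xfa95603)) e
 (c (a (nat_lit 0x10142c03)) e
 (c (a (nat_lit 0x1006b003)) e
 (c z e
 (c (nat_lit 0x7e06b7e0787e0787e0787e078407a5) e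
 (c (a (nat_lit 0xfdae207)) e
 (c (nat_lit 0x801978019780197801828019795947) e
 (c z e
 (c z e
 (c (a (nat_lit 0xfe62c07)) e
 (c (a (nat_lit 0xff36009)) e
 (c (nat_lit 0x7f3b77f6587f6587f6587f65818509) e
 (c (nat_lit 0x7f7137f6ff7f6dd7f7137f71308c8b) e
 (c (a (nat_lit 0xfee0c0b)) e
 (c (a (nat_lit 0xfee380b)) e
 (c (a (nat_lit 0xff3900b)) e e))))))))))))))))))))))))))) Tr.c Tr.e (nat_lit 0) C.t5 C.t6
noncomputable def tt543 : Tr := beta% (fun (c : Nat → Tr → Tr → Tr) (e : Tr) (z : Nat) (a b : Nat → Nat) =>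
 (c (a (nat_lit 0xfe00600))
 (c (b (nat_lit 0x1012fc03))
 (c z e
 (c (nat_lit 0x7fd42800008000080000800008000080000f7a8b) e e))
 (c (nat_lit 0x809ba809ba8088d80992809ba809bace943)
 (c z e
 (c z e
 (c z e
 (c z e
 (c (nat_lit 0x800008000080000800007fc36800008000030e44) e e)))))
 (c z e
 (c z e
 (c (nat_lit 0x81d0d81d0d81cf881ceb81d0d81d0d49205) e
 (c (nat_lit 0x8151181511814f9814d3815118151122787) e
 (c (nat_lit 0x80f9b80f9b80f9b80f9b80f7080f9bde487) e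
 (c z e
 (c z e
 (c z e
 (c (b (nat_lit 0xf7ada09)) e
 (c (b (nat_lit 0xfe5640b)) e
 (c (nat_lit 0x8189b8189b8188f8188f8189b8189ba690b) e
 (c (nat_lit 0x81096810968108a8108a8109681096eefcb) e
 (c z e
 (c z e
 (c (nat_lit 0x7fec880000800008000080000800001470d) e e)))))))))))))))))
 (c (a (nat_lit 0xfdffe00))
 (c z e
 (c z e
 (c (nat_lit 0x7e4fd7e4f97e4fd7e4fd7e4fd7e4fd11705) e
 (c (nat_lit 0x81205811fa811d8811b181205812059afc7) e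
 (c z e
 (c z e
 (c z e
 (c z e
 (c (b (nat_lit 0xfe06e09)) e
 (c z e
 (c (b (nat_lit 0x107dcc0b)) e
 (c (b (nat_lit 0x103cd40b)) e
 (c z e
 (c z e
 (c (b (nat_lit 0x1026880d)) e e)))))))))))))))
 (c (a (nat_lit 0xfe00200))
 (c (nat_lit 0x7d3377d3337d3227d3377d3377d337802c5) e
 (c (nat_lit 0x7e4747e4747e45e7e4747e4747e4742f307) e
 (c z e
 (c z e
 (c z e
 (c (b (nat_lit 0xfc6dc07)) e e))))))
 (c (a (nat_lit 0xfe01800))
 (c (b (nat_lit 0xfc95007)) e e)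
 (c (a (nat_lit 0xfe00200))
 (c z e
 (c z e
 (c (nat_lit 0x800007feea80000800007fe0d7fec2ca8c9) e
 (c z e
 (c (b (nat_lit 0xfff2a0b)) e e)))))
 (c (nat_lit 0x7f00b7f00a7f00c7f00c7f00ddb920)
 (c (nat_lit 0x7f78f7f78f7f78f7f78f7f7287f78feb309) e
 (c (nat_lit 0x7fa567fa567f9df7fa567fa567fa565734b) e
 (c z e
 (c z e
 (c z e
 (c (b (nat_lit 0x1038520b)) e
 (c (b (nat_lit 0x1048940d)) e e)))))))
 (c (a (nat_lit 0xfe00601))
 (c (nat_lit 0x8135c8135c812d48135c8135c8135c5754b) e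
 (c z e
 (c z e
 (c z e
 (c (b (nat_lit 0x106bea0d)) e e)))))
 (c (a (nat_lit 0xfdfcc01)) e
 (c (a (nat_lit 0xfdfee01)) e
 (c (a (nat_lit 0xfe41801)) e
 (c (a (nat_lit 0xf8db801)) e
 (c (a (nat_lit 0xfba5403)) e
 (c (nat_lit 0x7ed977ed977ed557ed527ed970ec83) e
 (c (nat_lit 0x7f6927f6927f6927f6917f69274763) e
 (c z e
 (c z e
 (c (nat_lit 0x7f1e27f1e57f1e57f1e57f1e57c385) e
 (c (nat_lit 0x7f1ed7f1ed7f1d47f1ed7f1edd40e7) e
 (c (a (nat_lit 0xfe89407)) e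
 (c (a (nat_lit 0xff66c07)) e
 (c z e
 (c (a (nat_lit 0xfc7de07)) e
 (c (a (nat_lit 0xff06809)) e
 (c (nat_lit 0x7f1617f11d7f14d7f1617f1612474b) e
 (c (a (nat_lit 0xfe2ca0b)) e
 (c (nat_lit 0x7f1d47f1d47f1d47f19c7f1d4067ab) e
 (c (a (nat_lit 0xfec8a0b)) e
 (c (a (nat_lit 0xfe0ba0b)) e
 (c (a (nat_lit 0xfe2140d)) e e)))))))))))))))))))))))))))))) Tr.c Tr.e (nat_lit 0) C.t5 C.t6
noncomputable def tt544 : Tr := beta% (fun (c : Nat → Tr → Tr → Tr) (e : Tr) (z : Nat) (a b d : Nat → Nat) =>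
 (c (a (nat_lit 0xfdffe00))
 (c (nat_lit 0x8107081070810708107081016810174be81)
 (c z e
 (c (d (nat_lit 0x102ee207)) e
 (c (d (nat_lit 0x10552a0b)) e
 (c (d (nat_lit 0x10f1880b)) e
 (c z e
 (c z e
 (c (d (nat_lit 0x107cfa0b)) e
 (c (d (nat_lit 0x1079740d)) e
 (c (nat_lit 0x800008000080000800007fd7c8000080000ff40d) e e)))))))))
 (c z e
 (c (b (nat_lit 0x10156603)) e
 (c z
 (c z e
 (c (d (nat_lit 0x1023120d)) e e))
 (c z e
 (c (b (nat_lit 0x10526c03)) e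
 (c z e
 (c (nat_lit 0x800007ffa380000800008000080000c21c5) e
 (c z e
 (c (nat_lit 0x80000800007f8d17fea47fffe8000009007) e
 (c (b (nat_lit 0x101d9207)) e
 (c z e
 (c z e
 (c (b (nat_lit 0x101d640b)) e
 (c (b (nat_lit 0x104eec0b)) e
 (c (b (nat_lit 0x1009480b)) e
 (c (b (nat_lit 0x10183e0b)) e e)))))))))))))))))
 (c (a (nat_lit 0xfe00400))
 (c z e
 (c (b (nat_lit 0xfddae03)) e
 (c z e
 (c z e
 (c z e
 (c (nat_lit 0x7cfbf7cf947cfbf7cfbf7cfbf7cfbf5c9c5) e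
 (c (b (nat_lit 0xfe00207)) e
 (c (nat_lit 0x80000800007fe787ffbe8000080000d1f87) e
 (c z e
 (c z e
 (c z e
 (c z e
 (c (b (nat_lit 0x1081080b)) e
 (c (b (nat_lit 0x107b800b)) e
 (c z e
 (c (b (nat_lit 0x10151e0b)) e
 (c (b (nat_lit 0x1040a40d)) e
 (c (b (nat_lit 0x1019b815)) e
 (c (nat_lit 0x800008000080000806498064e8064e182d8) e e)))))))))))))))))))
 (c (a (nat_lit 0xfdff600))
 (c z e
 (c (b (nat_lit 0xfa99203)) e
 (c z e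
 (c z e
 (c (nat_lit 0x82aeb82aeb82a6a82aea82aeb82aeb09b87) e
 (c z e
 (c z e
 (c z e
 (c (b (nat_lit 0xfadcc07)) e
 (c z e
 (c z e
 (c (b (nat_lit 0x1025500b)) e
 (c (b (nat_lit 0x101d020b)) e
 (c z e
 (c z e
 (c (b (nat_lit 0x100d1613)) e e))))))))))))))))
 (c (nat_lit 0x7f00d7f00b7f00c7f00c7f00c52c60)
 (c (b (nat_lit 0xff37e03)) e
 (c (b (nat_lit 0x103eda05)) e
 (c z e
 (c (nat_lit 0x80000800007ffed7fff68000080000f8287) e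
 (c z e
 (c z e
 (c z e
 (c (b (nat_lit 0xfb2ac0b)) e
 (c (b (nat_lit 0x101f380b)) e
 (c z e
 (c z e
 (c (nat_lit 0x800007fbfc7fbfc80000800008000096a4b) e
 (c (b (nat_lit 0xff91c0d)) e e)))))))))))))
 (c (nat_lit 0x7f0067f0057f0057f0077f00809b40)
 (c z e
 (c (nat_lit 0x8000080000800007ffc5800008000087707) e
 (c z e
 (c z e
 (c z e
 (c (nat_lit 0x828ad828ad8282682827828ad828adc2c8b) e
 (c (nat_lit 0x814078140781407812bb8140781407b194b) e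
 (c z e
 (c z e
 (c z e
 (c (nat_lit 0x80ef880ef880e6180e6180ef880ef8544cd) e e)))))))))))
 (c (a (nat_lit 0xfe00c00))
 (c (b (nat_lit 0x100a5a07)) e
 (c z e
 (c (nat_lit 0x7ff82800008000080000800008000086747) e
 (c (nat_lit 0x7f1cf7f0a77f1cf7f1cf7f1cf7f1cf6948b) e
 (c (nat_lit 0x80000800007fe63800008000080000db20b) e
 (c (nat_lit 0x8098680986809868084280986809869a30b) e
 (c z e
 (c z e
 (c (b (nat_lit 0x10270c0d)) e
 (c z e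
 (c (nat_lit 0x800008000080000800007fdc07fdc0b8094) e e)))))))))))
 (c (a (nat_lit 0xfe00c00))
 (c (nat_lit 0x7ff1e7ffac80000800008000080000bfe47) e
 (c (nat_lit 0x7f2f67f2af7f2e17f2f67f2f67f2f6ff2cb) e
 (c z e
 (c z e
 (c z e
 (c z e
 (c z e
 (c (b (nat_lit 0x10296e14)) e e))))))))
 (c (nat_lit 0x7f00a7f0097f0097f0097f00a86660)
 (c z e
 (c (b (nat_lit 0x1019c40b)) e
 (c z e
 (c z e
 (c z e
 (c (b (nat_lit 0x10278e11)) e e))))))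
 (c (a (nat_lit 0xfdfe001))
 (c z e
 (c (b (nat_lit 0x104e180b)) e
 (c (nat_lit 0x8000080000800007f8d280000800009d94d) e e)))
 (c (a (nat_lit 0xfdfd401))
 (c (nat_lit 0x82265822658225f81ed28226582265c110d) e e)
 (c (a (nat_lit 0xfdd9601)) e
 (c (a (nat_lit 0xfba2c01)) e
 (c (a (nat_lit 0xf892a01)) e
 (c (nat_lit 0x7ed2c7ed2c7ed257ed2c7ed2c0e383) e
 (c (a (nat_lit 0xfda3403)) e
 (c (a (nat_lit 0xff61a03)) e
 (c z e
 (c z e
 (c (a (nat_lit 0xfe78605)) e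
 (c (a (nat_lit 0xfe27e07)) e
 (c (a (nat_lit 0xfe66807)) e
 (c (a (nat_lit 0xff4ae07)) e
 (c z e
 (c (a (nat_lit 0xfda0e07)) e
 (c (a (nat_lit 0xfe3a60b)) e
 (c (a (nat_lit 0xfe3ee0b)) e
 (c (a (nat_lit 0xfe34a0b)) e
 (c (a (nat_lit 0xfe4e00b)) e
 (c (nat_lit 0x7eef17eef17eef17ef407ef40fc60b) e
 (c (nat_lit 0x7f43d7f43d7f4067f4067f43d4890d) e e))))))))))))))))))))))))))))))) Tr.c Tr.e (nat_lit 0) C.t5 C.t6 C.t7
noncomputable def tt545 : Tr := beta% (fun (c : Nat → Tr → Tr → Tr) (e : Tr) (z : Nat) (a b d : Nat → Nat) =>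
 (c (a (nat_lit 0xfe02200))
 (c (nat_lit 0x80ff080fd580fd580fd580fd580fd577e81)
 (c (nat_lit 0x7c01c7c01c7be857c01c7c01c7c01c7c01c21905) e
 (c (nat_lit 0x7e52c7e52c7e52c7e4a17e52c7e52c7e52c1ab07) e
 (c z e
 (c (d (nat_lit 0xed37c07)) e
 (c z e
 (c z e
 (c (d (nat_lit 0x1014e20b)) e e)))))))
 (c (b (nat_lit 0x101f6401))
 (c (nat_lit 0x8000080000800007fda67fcc280000800000f287) e
 (c z e
 (c z e
 (c (nat_lit 0x8000080000800008000080000800007fe12fc507) e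
 (c (d (nat_lit 0x1067fa0b)) e
 (c (d (nat_lit 0xfc0220b)) e
 (c (d (nat_lit 0xfff120b)) e
 (c (nat_lit 0x800007f93e80000800008000080000800008690b) e e))))))))
 (c (b (nat_lit 0x101bec01)) e
 (c (b (nat_lit 0x101ffa01))
 (c z e
 (c z e
 (c z e
 (c z e
 (c z e
 (c z e
 (c (nat_lit 0x7ff648000080000800007f9e380000800006ad23) e e)))))))
 (c z e
 (c (b (nat_lit 0x10163003))
 (c z e
 (c (d (nat_lit 0x102a8044)) e e))
 (c (b (nat_lit 0x102eb403))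
 (c (nat_lit 0x8000080000800007fdf98000080000800007a8a4) e e)
 (c z e
 (c z e
 (c z e
 (c (nat_lit 0x807b6807b680719807b6807b6807b6a3585) e
 (c (b (nat_lit 0x10198807)) e
 (c (b (nat_lit 0x103bca07)) e
 (c z e
 (c z e
 (c (b (nat_lit 0x100fba07)) e
 (c (b (nat_lit 0x100f460b)) e
 (c z e
 (c z e
 (c (b (nat_lit 0x100ad80b)) e e))))))))))))))))))))
 (c (nat_lit 0x7f0047f0047f0057f0077f007daf00)
 (c (b (nat_lit 0x1013bc01))
 (c (d (nat_lit 0xf91e007)) e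
 (c z e
 (c z e
 (c (d (nat_lit 0x106b200b)) e
 (c z e
 (c (d (nat_lit 0xfc0000b)) e
 (c (nat_lit 0x7ff9e7ff9e7f6087ff9e7ff9e7ff9e7ff9e30f0b) e e)))))))
 (c z e
 (c (b (nat_lit 0x101c6601)) e
 (c z
 (c z e
 (c (d (nat_lit 0x1071b00d)) e
 (c (d (nat_lit 0x10a81c15)) e e)))
 (c (b (nat_lit 0x10029a03)) e
 (c (b (nat_lit 0x10308e03)) e
 (c (b (nat_lit 0x10220203)) e
 (c z e
 (c (nat_lit 0x814708141381439814708147081470726c5) e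
 (c (b (nat_lit 0x1038d807)) e
 (c (nat_lit 0x8048180481804818040d8048180481bbf47) e
 (c z e
 (c z e
 (c z e
 (c (b (nat_lit 0x1088280b)) e
 (c (b (nat_lit 0x101cac0b)) e
 (c z e
 (c z e
 (c (b (nat_lit 0x1024920d)) e e)))))))))))))))))))
 (c (nat_lit 0x7f0067f0067f0067f0067f008c53c0)
 (c z e
 (c (b (nat_lit 0x10540403)) e
 (c z e
 (c z e
 (c z e
 (c z e
 (c (b (nat_lit 0xfb56a05)) e
 (c (b (nat_lit 0xfde1407)) e
 (c z e
 (c z e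
 (c z e
 (c z e
 (c (b (nat_lit 0x102cce0b)) e
 (c (b (nat_lit 0x1029100b)) e
 (c z e
 (c z e
 (c z e
 (c z e
 (c (b (nat_lit 0x10246015)) e e)))))))))))))))))))
 (c (a (nat_lit 0xfdff200))
 (c (nat_lit 0x800007fde9800008000080000800005be03) e
 (c z e
 (c z e
 (c (b (nat_lit 0xfcf9e03)) e
 (c (nat_lit 0x7d5c77d5a47d5c77d5c77d5c77d5c773c45) e
 (c (nat_lit 0x7fd187fc9e7fcf87fcca7fd187fd182c587) e e))))))
 (c (a (nat_lit 0xfe01800))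
 (c z e
 (c z e
 (c (nat_lit 0x802ff80307802f080307803078030707b45) e
 (c (nat_lit 0x7f9a87f9a87f8aa7f8b07f9a87f9a89f507) e
 (c (nat_lit 0x7f9127f9127f9127f6867f6867f912ded47) e
 (c (b (nat_lit 0x100e6607)) e e))))))
 (c (nat_lit 0x7f0107f00d7f00d7f00d7f00f521a0)
 (c (nat_lit 0x7e3c97e39a7e3d07e3d07e3d07e3d022485) e
 (c (b (nat_lit 0xff03407)) e
 (c (b (nat_lit 0x10265407)) e
 (c z e
 (c z e
 (c z e
 (c (nat_lit 0x80000800007ff538000080000800008d4cb) e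
 (c (b (nat_lit 0x1047400b)) e e))))))))
 (c (a (nat_lit 0xfe00200))
 (c (b (nat_lit 0x101d9e07)) e
 (c z e
 (c z e
 (c z e
 (c z e
 (c (b (nat_lit 0x10217c0b)) e
 (c (b (nat_lit 0xfffb80b)) e
 (c z e
 (c z e
 (c (b (nat_lit 0x102e8614)) e
 (c (nat_lit 0x8000080000800007fffd80000800000fad4) e e)))))))))))
 (c (a (nat_lit 0xfe01200))
 (c z e
 (c (nat_lit 0x7f2227f1a37f1bf7f2227f2227f2228d287) e
 (c (nat_lit 0x80000800007fe7a8000080000800000008b) e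
 (c z e
 (c (b (nat_lit 0x10248c0b)) e
 (c z e
 (c (b (nat_lit 0x101a5e0d)) e
 (c (b (nat_lit 0x10156211)) e
 (c (b (nat_lit 0xfdede14)) e e)))))))))
 (c (a (nat_lit 0xfe00000))
 (c z e
 (c z e
 (c z e
 (c (b (nat_lit 0xfff300b)) e
 (c z e
 (c (b (nat_lit 0x1019ae11)) e
 (c (b (nat_lit 0xffffc11)) e e)))))))
 (c (a (nat_lit 0xfdff600))
 (c z e
 (c z e
 (c (nat_lit 0x81d7681d768192c81d7681d7681d760154d) e
 (c (b (nat_lit 0x10604020)) e e))))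
 (c (a (nat_lit 0xfe00801))
 (c (nat_lit 0x80e6d80e6d80e6d80c7480e6d80e6d8bb8d) e e)
 (c (nat_lit 0x7f00e7f00e7f00b7f00c7f00e238c1)
 (c (nat_lit 0x8000080000800007fdd6800008000028110) e e)
 (c (nat_lit 0x7ea757ea7c7ea7c7ea7c7ea7c03ec1) e
 (c (a (nat_lit 0xfd5fc01)) e
 (c (a (nat_lit 0xfdf1201)) e
 (c (nat_lit 0x7f03a7f02c7f01c7f03a7f03a78823) e
 (c (nat_lit 0x7f7077f7077f6d47f6c47f707bc323) e
 (c z e
 (c (a (nat_lit 0x10030e03)) e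
 (c z e
 (c (a (nat_lit 0xfe7e005)) e
 (c (a (nat_lit 0xfe47407)) e
 (c (a (nat_lit 0xfefb607)) e
 (c z e
 (c z e
 (c (a (nat_lit 0xfd31807)) e
 (c (nat_lit 0x7f13a7f13a7f1127f13a7f13a4b58b) e
 (c (nat_lit 0x7f1ba7f1ba7f1ba7f16a7f1ba0c9eb) e
 (c (a (nat_lit 0xfffe40b)) e
 (c (nat_lit 0x7fb557fb557fcbd7fcbd7fcbd6938b) e
 (c (nat_lit 0x7efc47efc47f0257f0257f0258636d) e
 (c (nat_lit 0x800008000080000800007fffe3d0cd) e e))))))))))))))))))))))))))))))))) Tr.c Tr.e (nat_lit 0) C.t5 C.t6 C.t7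
noncomputable def tt546 : Tr := beta% (fun (c : Nat → Tr → Tr → Tr) (e : Tr) (z : Nat) (a b : Nat → Nat) =>
 (c (a (nat_lit 0x101f4000))
 (c z e
 (c z e
 (c z e
 (c z e
 (c z e
 (c z e
 (c (nat_lit 0x80000800007fd9280000800008000080000a1907) e
 (c z e
 (c z e
 (c z e
 (c (b (nat_lit 0x106bd00d)) e
 (c (nat_lit 0x81fdc81fdc81fdc81f9581fdc81fdc81fdc87495) e e))))))))))))
 (c (a (nat_lit 0x101fd401))
 (c z e
 (c z e
 (c z e
 (c z e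
 (c z e
 (c z e
 (c z e
 (c z e
 (c z e
 (c z e
 (c (b (nat_lit 0x1045e625)) e e)))))))))))
 (c (a (nat_lit 0x101fb601)) e
 (c (a (nat_lit 0x101e6201)) e
 (c (a (nat_lit 0x101fa601))
 (c z e
 (c z e
 (c z e
 (c z e
 (c z e
 (c (b (nat_lit 0xf8fbc28)) e e))))))
 (c z e
 (c (a (nat_lit 0x102e4403)) e
 (c z e
 (c z e
 (c (a (nat_lit 0xfec6403)) e
 (c z e
 (c z e
 (c z e
 (c z e
 (c z e
 (c (a (nat_lit 0x1016da07)) e
 (c z e
 (c z e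
 (c (a (nat_lit 0xfffe40b)) e
 (c (a (nat_lit 0x10106e0b)) e
 (c (a (nat_lit 0x101a0c0d)) e
 (c z e
 (c z e
 (c z e
 (c z e
 (c z e
 (c (nat_lit 0x80000800008000080000800007fe2d3d4cf) e e)))))))))))))))))))))))))))) Tr.c Tr.e (nat_lit 0) C.t6 C.t7
noncomputable def tt547 : Tr := beta% (fun (c : Nat → Tr → Tr → Tr) (e : Tr) (z : Nat) (a b : Nat → Nat) =>
 (c (a (nat_lit 0x10137c00))
 (c z e
 (c (nat_lit 0x8127981279812438127981279812798127917983) e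
 (c z e
 (c z e
 (c (b (nat_lit 0xfe33c05)) e
 (c (b (nat_lit 0xfc9a207)) e
 (c (b (nat_lit 0xfb5f607)) e
 (c (b (nat_lit 0xfd37a07)) e e))))))))
 (c (a (nat_lit 0x101f5200))
 (c z e
 (c z e
 (c z e
 (c z e
 (c z e
 (c z e
 (c z e
 (c z e
 (c z e
 (c z e
 (c z e
 (c z e
 (c z e
 (c (b (nat_lit 0x10bac219)) e e))))))))))))))
 (c (a (nat_lit 0x101f7e00))
 (c z e
 (c z e
 (c z e
 (c z e
 (c z e
 (c z e
 (c z e
 (c (b (nat_lit 0xf98a20b)) e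
 (c (nat_lit 0x800007ffb38000080000800008000080000d8b8b) e e)))))))))
 (c (nat_lit 0x80ff480fef80fef80fef80fef80fef45d01)
 (c z e
 (c z e
 (c z e
 (c z e
 (c z e
 (c z e
 (c (nat_lit 0x80000800007fd10800008000080000800008e98b) e e)))))))
 (c (a (nat_lit 0x101e0601)) e
 (c (a (nat_lit 0x101e0001))
 (c z e
 (c z e
 (c z e
 (c z e
 (c (b (nat_lit 0xfff5219)) e e)))))
 (c z e
 (c z
 (c z e
 (c z e
 (c (b (nat_lit 0xfffd019)) e e)))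
 (c (a (nat_lit 0x100f1203)) e
 (c (a (nat_lit 0x101ce603)) e
 (c z e
 (c z e
 (c z e
 (c z e
 (c (a (nat_lit 0x104b7c07)) e
 (c (a (nat_lit 0xfee9407)) e
 (c z e
 (c z e
 (c z e
 (c z e
 (c z e
 (c z e
 (c (a (nat_lit 0x1010880d)) e
 (c (a (nat_lit 0x10092219)) e
 (c (a (nat_lit 0x100a3819)) e
 (c (a (nat_lit 0xffe9219)) e e))))))))))))))))))))))))))) Tr.c Tr.e (nat_lit 0) C.t6 C.t7
noncomputable def tt548 : Tr := beta% (fun (c : Nat → Tr → Tr → Tr) (e : Tr) (z : Nat) (a b d : Nat → Nat) =>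
 (c (a (nat_lit 0xfe02200)) tt547
 (c (nat_lit 0x7f00b7f00b7f00b7f00b7f00d6ef80) tt546
 (c (a (nat_lit 0xfe00e00))
 (c (b (nat_lit 0x101fe001))
 (c (nat_lit 0x7a3ab7a3ab7a3ab7a3ab7a3ab7a2037a3ab97987) e
 (c z e
 (c z e
 (c z e
 (c (d (nat_lit 0x1057f00b)) e
 (c (d (nat_lit 0xfe31e0b)) e e))))))
 (c (b (nat_lit 0x101fec01)) e
 (c z e
 (c (b (nat_lit 0x102e3c01)) e
 (c (b (nat_lit 0x10154e03))
 (c z e
 (c (d (nat_lit 0xffe1815)) e e))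
 (c (b (nat_lit 0x102aba03)) e
 (c (b (nat_lit 0x1018ba03)) e
 (c z e
 (c z e
 (c z e
 (c (b (nat_lit 0x100bb407)) e
 (c (b (nat_lit 0x1037a207)) e
 (c z e
 (c z e
 (c z e
 (c z e
 (c (b (nat_lit 0xff5dc0b)) e
 (c z e
 (c (b (nat_lit 0x1022b40d)) e
 (c z e
 (c (nat_lit 0x8113280ab58113281132811328113251ed5) e e)))))))))))))))))))))
 (c (a (nat_lit 0xfe01200))
 (c z e
 (c (b (nat_lit 0x10547601)) e
 (c (b (nat_lit 0x10544c03)) e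
 (c z e
 (c z e
 (c z e
 (c z e
 (c z e
 (c z e
 (c z e
 (c z e
 (c z e
 (c z e
 (c (b (nat_lit 0xff71e0b)) e e))))))))))))))
 (c (a (nat_lit 0xfe00c00))
 (c z e
 (c z e
 (c z e
 (c z e
 (c (b (nat_lit 0x1047ac03)) e
 (c z e
 (c z e
 (c z e
 (c z e
 (c z e
 (c z e
 (c z e
 (c z e
 (c z e
 (c z e
 (c (b (nat_lit 0xffdee13)) e e))))))))))))))))
 (c (a (nat_lit 0xfe02000))
 (c z e
 (c z e
 (c z e
 (c z e
 (c (b (nat_lit 0xff68a07)) e e)))))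
 (c (a (nat_lit 0xfe02000))
 (c z e
 (c (nat_lit 0x7e4237e2eb7e4237e4237e4237e42369fc5) e
 (c z e
 (c z e
 (c z e
 (c (b (nat_lit 0x104baa07)) e
 (c (nat_lit 0x83a5a83a5a8377c83a5a83a5a83a5a102c7) e
 (c z e
 (c z e
 (c z e
 (c (b (nat_lit 0x1057780d)) e
 (c (b (nat_lit 0x10658414)) e e))))))))))))
 (c (nat_lit 0x7f0137f0137f0137f0117f01145400)
 (c (b (nat_lit 0x1028c407)) e
 (c z e
 (c z e
 (c z e
 (c z e
 (c (nat_lit 0x80000800007ff847fe0b8000080000c964b) e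
 (c z e
 (c z e
 (c z e
 (c z e
 (c (nat_lit 0x8039880398803978039880398803983b514) e e)))))))))))
 (c (a (nat_lit 0xfe02000))
 (c z e
 (c z e
 (c z e
 (c z e
 (c z e
 (c z e
 (c (b (nat_lit 0x101cf40d)) e e)))))))
 (c (a (nat_lit 0xfe02000))
 (c (nat_lit 0x8000080000800007ff7f8000080000c48c7) e
 (c z e
 (c z e
 (c z e
 (c (b (nat_lit 0x102be80d)) e
 (c (b (nat_lit 0x10682c11)) e
 (c (b (nat_lit 0xffff411)) e e)))))))
 (c (a (nat_lit 0xfdff200))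
 (c z e
 (c z e
 (c (b (nat_lit 0x103a5e0d)) e
 (c (b (nat_lit 0x10589620)) e
 (c (b (nat_lit 0x102af020)) e e)))))
 (c (nat_lit 0x7f01b7f01a7f0187f0187f0189f4c0)
 (c z e
 (c z e
 (c z e
 (c (b (nat_lit 0xfffca20)) e e))))
 (c (nat_lit 0x7f01c7f0117f0137f0147f01615881)
 (c (nat_lit 0x80000800007e6f07e6f07e6f07e6f0dc6d0) e e)
 (c (a (nat_lit 0xfe00801)) e
 (c (nat_lit 0x7e8547e8807e8807e8807e88040361) e
 (c (a (nat_lit 0xff23801)) e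
 (c (nat_lit 0x7f0ad7f0b17f0c97f0c97f0c932181) e
 (c (nat_lit 0x7f0c67f0a57f0aa7f0c67f0c6fe4e3) e
 (c (a (nat_lit 0x10077a03)) e
 (c (a (nat_lit 0x10054603)) e
 (c z e
 (c (a (nat_lit 0xffd6403)) e
 (c (a (nat_lit 0xfe3ae05)) e
 (c (a (nat_lit 0xff01807)) e
 (c (a (nat_lit 0xfefcc07)) e
 (c z e
 (c z e
 (c (a (nat_lit 0xfdf2407)) e
 (c (nat_lit 0x80e9580e6180e6180e6180e951b3cb) e
 (c (a (nat_lit 0x1016d40b)) e
 (c z e
 (c (nat_lit 0x7ec5a7ec5a7efaf7efaf7efaf09c2d) e e))))))))))))))))))))))))))))))))) Tr.c Tr.e (nat_lit 0) C.t5 C.t6 C.t7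
noncomputable def tt549 : Tr := beta% (fun (c : Nat → Tr → Tr → Tr) (e : Tr) (z : Nat) (a b d : Nat → Nat) =>
 (c (a (nat_lit 0xfdffa00))
 (c (nat_lit 0x810078100581007810058100781007b4001)
 (c z e
 (c z e
 (c z e
 (c z e
 (c z e
 (c z e
 (c z e
 (c z e
 (c z e
 (c z e
 (c (d (nat_lit 0xffd8215)) e e)))))))))))
 (c (b (nat_lit 0x101ff001)) e
 (c (b (nat_lit 0x10200601)) e
 (c z e
 (c z e
 (c (b (nat_lit 0x100bd603)) e
 (c (b (nat_lit 0x10152c03)) e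
 (c z e
 (c z e
 (c z e
 (c (b (nat_lit 0x101a5a05)) e
 (c (b (nat_lit 0x103fb807)) e
 (c z e
 (c (b (nat_lit 0x100e3a07)) e
 (c (b (nat_lit 0x100cf607)) e
 (c z e
 (c (b (nat_lit 0x10183c0b)) e
 (c z e
 (c z e
 (c (b (nat_lit 0xffcf613)) e e))))))))))))))))))))
 (c (a (nat_lit 0xfdffa00))
 (c (nat_lit 0x8101281012810128100981009810096a7c1)
 (c z e
 (c z e
 (c z e
 (c z e
 (c (d (nat_lit 0xf9dd20d)) e e)))))
 (c (b (nat_lit 0x10200001)) e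
 (c z e
 (c (nat_lit 0x8313d83307833078330783307833074d983) e
 (c (nat_lit 0x8184a818028182a8184a8184a8184af2383) e
 (c z e
 (c z e
 (c z e
 (c z e
 (c z e
 (c z e
 (c (b (nat_lit 0x10222807)) e
 (c z e
 (c z e
 (c z e
 (c z e
 (c z e
 (c z e
 (c (b (nat_lit 0xffe2013)) e
 (c (nat_lit 0x7fcf87fcf88000080000800008000035d53) e e))))))))))))))))))))
 (c (a (nat_lit 0xfe00200))
 (c z e
 (c z e
 (c (b (nat_lit 0x1013a803)) e
 (c (b (nat_lit 0x10202e03)) e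
 (c z e
 (c z e
 (c z e
 (c z e
 (c z e
 (c z e
 (c z e
 (c z e
 (c (b (nat_lit 0xff61a0b)) e
 (c z e
 (c (nat_lit 0x80000800007ffbd7ffbd800008000031a0d) e
 (c (nat_lit 0x80000800007ff6380000800008000017513) e
 (c (nat_lit 0x7ebc57ebc57ebc57eb5d7ebc57ebc5e9113) e e)))))))))))))))))
 (c (a (nat_lit 0xfdff800))
 (c z
 (c (nat_lit 0x7fd197fd197fd197fd197fb337fd197fd1944598) e e)
 (c z e
 (c z e
 (c z e
 (c z e
 (c z e
 (c z e
 (c z e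
 (c z e
 (c z e
 (c z e
 (c (b (nat_lit 0xff5600b)) e
 (c z e
 (c z e
 (c (b (nat_lit 0xfe6ce18)) e
 (c (b (nat_lit 0xffcfe18)) e e))))))))))))))))
 (c (a (nat_lit 0xfe01200))
 (c z e
 (c z e
 (c z e
 (c z e
 (c z e
 (c z e
 (c z e
 (c z e
 (c z e
 (c z e
 (c (b (nat_lit 0xfffb20d)) e
 (c (b (nat_lit 0xff42e11)) e
 (c (b (nat_lit 0xfe96a14)) e e)))))))))))))
 (c (a (nat_lit 0xfe00200))
 (c (b (nat_lit 0x102d0005)) e
 (c z e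
 (c z e
 (c z e
 (c z e
 (c z e
 (c z e
 (c z e
 (c z e
 (c (b (nat_lit 0x101c6e11)) e
 (c (b (nat_lit 0xfff7e11)) e
 (c (b (nat_lit 0xff71414)) e e))))))))))))
 (c (a (nat_lit 0xfe00800))
 (c z e
 (c z e
 (c z e
 (c z e
 (c z e
 (c z e
 (c z e
 (c (b (nat_lit 0x101b4611)) e e))))))))
 (c (a (nat_lit 0xfe02a00))
 (c z e
 (c z e
 (c z e
 (c z e
 (c (b (nat_lit 0x100bdc0d)) e
 (c (b (nat_lit 0x1031b211)) e e))))))
 (c (a (nat_lit 0xfdfd400))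
 (c z e
 (c z e
 (c z e
 (c (b (nat_lit 0x102e3220)) e e))))
 (c (a (nat_lit 0xfdffe00))
 (c z e
 (c (nat_lit 0x80000800007faf180000800008000002410) e
 (c z e
 (c (b (nat_lit 0x101efa20)) e e))))
 (c (nat_lit 0x7f0057f0057f0057f0067f0076a980)
 (c z e
 (c z e
 (c (b (nat_lit 0x1052ee20)) e e)))
 (c (a (nat_lit 0xfdffa01)) e
 (c (nat_lit 0x7f0047f0047f0017f0037f00461821)
 (c z e
 (c (nat_lit 0x80000800008000080000815358153529690) e e))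
 (c (a (nat_lit 0xfdffa01)) e
 (c (a (nat_lit 0xff0e001)) e
 (c (a (nat_lit 0xfe84a01)) e
 (c (nat_lit 0x7f4a97f47b7f4a97f4a97f4a941383) e
 (c (a (nat_lit 0xfe9a003)) e
 (c (a (nat_lit 0x1001ae03)) e
 (c z e
 (c (a (nat_lit 0xff1ba03)) e
 (c (a (nat_lit 0xfeeba05)) e
 (c (a (nat_lit 0xfee3807)) e
 (c (a (nat_lit 0xff16007)) e
 (c (a (nat_lit 0xff19807)) e
 (c z e
 (c z e
 (c (a (nat_lit 0xffcd80b)) e
 (c (a (nat_lit 0xfe6b00b)) e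
 (c (a (nat_lit 0xfee600d)) e
 (c (nat_lit 0x80000800007ffa98000080000eac2f) e
 (c (nat_lit 0x80000800007ffcd7ffa680000c5d0f) e
 (c z e
 (c (nat_lit 0x8000080000800007ff6c7ff6c6e12f) e e))))))))))))))))))))))))))))))))))) Tr.c Tr.e (nat_lit 0) C.t5 C.t6 C.t7
noncomputable def tt550 : Tr := beta% (fun (c : Nat → Tr → Tr → Tr) (e : Tr) (z : Nat) (a b : Nat → Nat) =>
 (c (a (nat_lit 0x101f5c00))
 (c (b (nat_lit 0xfcf3403)) e
 (c (nat_lit 0x7ff0a7ff0a7fe917fe697ff0a7ff0a7ff0afd683) e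
 (c (nat_lit 0x80cca80cca80cca80cbc80cac80cca80ccaa1503) e
 (c z e
 (c z e
 (c z e
 (c z e
 (c z e
 (c (b (nat_lit 0xffdf207)) e
 (c z e
 (c z e
 (c z e
 (c z e
 (c z e
 (c (b (nat_lit 0x109a2415)) e e)))))))))))))))
 (c (a (nat_lit 0x101f7400))
 (c (nat_lit 0x817f0817f0817f0817c2817a9817f0817f0f0203) e
 (c z e
 (c z e
 (c z e
 (c z e
 (c z e
 (c z e
 (c z e
 (c z e
 (c z e
 (c z e
 (c z e
 (c z e
 (c z e
 (c (b (nat_lit 0xffc3019)) e e)))))))))))))))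
 (c (a (nat_lit 0x101f9400)) e
 (c (a (nat_lit 0x101fb400))
 (c z e
 (c z e
 (c z e
 (c z e
 (c z e
 (c z e
 (c z e
 (c (nat_lit 0x80000800007fcfb800008000080000800009790d) e e))))))))
 (c (a (nat_lit 0x101fe201)) e
 (c (a (nat_lit 0x101ff801)) e
 (c (a (nat_lit 0x101fd601)) e
 (c (a (nat_lit 0x1003e001)) e
 (c (a (nat_lit 0x100d1001)) e
 (c (a (nat_lit 0x10209603)) e
 (c z e
 (c z e
 (c z e
 (c z e
 (c z e
 (c (a (nat_lit 0x10178c07)) e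
 (c (a (nat_lit 0x1008b607)) e
 (c (a (nat_lit 0x10055407)) e
 (c z e
 (c z e
 (c z e
 (c z e
 (c (a (nat_lit 0x10091c0d)) e
 (c (a (nat_lit 0x100c6a15)) e
 (c (a (nat_lit 0x100cd619)) e
 (c (a (nat_lit 0xfff9c19)) e
 (c (a (nat_lit 0xffe661c)) e e)))))))))))))))))))))))))))) Tr.c Tr.e (nat_lit 0) C.t6 C.t7
noncomputable def tt551 : Tr := beta% (fun (c : Nat → Tr → Tr → Tr) (e : Tr) (z : Nat) (a b : Nat → Nat) =>
 (c (a (nat_lit 0x101f6800))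
 (c (nat_lit 0x7ac5b7ac5b7abe17ac5b7ac5b7ac5b7ac5b8ee01) e
 (c (b (nat_lit 0xfb26601)) e
 (c (b (nat_lit 0xfc40601)) e
 (c (b (nat_lit 0xfe10c03)) e
 (c z e
 (c z e
 (c z e
 (c z e
 (c z e
 (c z e
 (c z e
 (c (b (nat_lit 0xfff4007)) e
 (c (b (nat_lit 0xfe65007)) e
 (c z e
 (c (nat_lit 0x80000800007fa7d800007fd42800008000076f0b) e
 (c (b (nat_lit 0x104cd00b)) e
 (c z e
 (c (b (nat_lit 0xff19219)) e e))))))))))))))))))
 (c (a (nat_lit 0x101f9e00))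
 (c (nat_lit 0x7daff7daca7db557db557db557db557db551bd81) e
 (c (b (nat_lit 0xfe08403)) e
 (c z e
 (c (b (nat_lit 0x1016f203)) e
 (c z e
 (c z e
 (c (b (nat_lit 0xfb9a405)) e
 (c z e
 (c z e
 (c z e
 (c z e
 (c z e
 (c z e
 (c z e
 (c (b (nat_lit 0x1070f20d)) e
 (c (b (nat_lit 0xffc9019)) e e))))))))))))))))
 (c (a (nat_lit 0x101f8c00))
 (c z e
 (c (nat_lit 0x80f4d80f4d80daa80f4d80f4d80f4d80f4dd1983) e
 (c z e
 (c z e
 (c z e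
 (c z e
 (c z e
 (c z e
 (c z e
 (c z e
 (c z e
 (c z e
 (c z e
 (c z e
 (c (b (nat_lit 0x100fd019)) e
 (c (b (nat_lit 0xffffe1c)) e
 (c (b (nat_lit 0xff96229)) e e)))))))))))))))))
 (c (a (nat_lit 0x101fc400)) e
 (c (a (nat_lit 0x101fb800))
 (c (b (nat_lit 0xfeb1405)) e
 (c z e
 (c z e
 (c z e
 (c z e
 (c z e
 (c z e
 (c z e
 (c (nat_lit 0x800007fe1e80000800008000080000800007b38d) e e)))))))))
 (c (a (nat_lit 0x101fb400))
 (c z e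
 (c z e
 (c z e
 (c z e
 (c z e
 (c (nat_lit 0x8000080000800007fee78000080000800007ae8b) e e))))))
 (c (a (nat_lit 0x1015a801))
 (c z e
 (c z e
 (c z e
 (c (b (nat_lit 0xffdb80b)) e e))))
 (c (a (nat_lit 0x101fca01)) e
 (c (a (nat_lit 0x101fb401)) e
 (c (a (nat_lit 0x100da001)) e
 (c (a (nat_lit 0x100aa601)) e
 (c z e
 (c (nat_lit 0x80f7380f7380f2780f7380f7380f7335a43) e
 (c z e
 (c z e
 (c z e
 (c (a (nat_lit 0x10183605)) e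
 (c (a (nat_lit 0x100c5c07)) e
 (c (a (nat_lit 0x10106e07)) e
 (c z e
 (c z e
 (c z e
 (c z e
 (c z e
 (c (a (nat_lit 0x10080c0d)) e
 (c (a (nat_lit 0x1007ae19)) e
 (c (a (nat_lit 0xfffda19)) e
 (c (a (nat_lit 0xfffba1c)) e e))))))))))))))))))))))))))))) Tr.c Tr.e (nat_lit 0) C.t6 C.t7
noncomputable def tt552 : Tr := beta% (fun (c : Nat → Tr → Tr → Tr) (e : Tr) (z : Nat) (a b d : Nat → Nat) =>
 (c (a (nat_lit 0xfe01200))
 (c (b (nat_lit 0x101fba01))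
 (c (d (nat_lit 0xf55be07)) e e)
 (c (b (nat_lit 0x101ffc01)) e
 (c z e
 (c z e
 (c z e
 (c (b (nat_lit 0x10075003)) e
 (c (b (nat_lit 0x101ae403)) e
 (c z e
 (c z e
 (c (b (nat_lit 0x102fc805)) e
 (c (b (nat_lit 0x10873807)) e
 (c z e
 (c (b (nat_lit 0xfd8b207)) e
 (c (b (nat_lit 0x10077207)) e
 (c z e
 (c (b (nat_lit 0x10054c0b)) e
 (c z e
 (c z e
 (c (nat_lit 0x8000080000800007fe227ffd87ffd8aaccf) e
 (c z e
 (c z e
 (c (b (nat_lit 0x1015800f)) e e))))))))))))))))))))))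
 (c (a (nat_lit 0xfe00600))
 (c (b (nat_lit 0x1012e401)) e
 (c z e
 (c (b (nat_lit 0x1024e003)) e
 (c z e
 (c z e
 (c (b (nat_lit 0x101af803)) e
 (c z e
 (c z e
 (c (b (nat_lit 0x103da607)) e
 (c (b (nat_lit 0x1046f007)) e
 (c z e
 (c z e
 (c z e
 (c (b (nat_lit 0x101a7c0b)) e
 (c (b (nat_lit 0x100d240d)) e
 (c z e
 (c (b (nat_lit 0x1014380f)) e
 (c (b (nat_lit 0x10111c0f)) e
 (c z e
 (c z e
 (c z e
 (c (nat_lit 0x800008000080000800007ff0e7ff0eb12d5) e e))))))))))))))))))))))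
 (c (a (nat_lit 0xfe01400))
 (c (b (nat_lit 0x1039e603)) e
 (c z e
 (c z e
 (c z e
 (c z e
 (c z e
 (c z e
 (c (b (nat_lit 0xfed4407)) e
 (c z e
 (c z e
 (c z e
 (c (b (nat_lit 0x1030c60b)) e
 (c (b (nat_lit 0x1062780d)) e e)))))))))))))
 (c (a (nat_lit 0xfe01200))
 (c z e
 (c z e
 (c z e
 (c z e
 (c (b (nat_lit 0xfeb7c07)) e
 (c z e
 (c z e
 (c z e
 (c z e
 (c (b (nat_lit 0x1015c80b)) e
 (c z e
 (c z e
 (c (b (nat_lit 0xfb9ac0f)) e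
 (c z e
 (c z e
 (c (b (nat_lit 0xfffa00f)) e e))))))))))))))))
 (c (a (nat_lit 0xfe00e00))
 (c (b (nat_lit 0x10471203)) e
 (c (b (nat_lit 0x10215405)) e
 (c z e
 (c z e
 (c z e
 (c z e
 (c z e
 (c (b (nat_lit 0xf5cd60b)) e
 (c z e
 (c z e
 (c (b (nat_lit 0xff0d00f)) e
 (c z e
 (c z e
 (c (b (nat_lit 0x10104e0f)) e e))))))))))))))
 (c (nat_lit 0x7f0157f0147f0147f0147f01553f00)
 (c (b (nat_lit 0x101d0c07)) e
 (c (nat_lit 0x80000800007ff3f80000800008000011687) e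
 (c z e
 (c z e
 (c z e
 (c z e
 (c (b (nat_lit 0xfe8d80d)) e
 (c (b (nat_lit 0x10169c0f)) e
 (c z e
 (c z e
 (c z e
 (c (b (nat_lit 0x1009240f)) e e))))))))))))
 (c (a (nat_lit 0xfe02600))
 (c z e
 (c z e
 (c z e
 (c z e
 (c z e
 (c z e
 (c z e
 (c z e
 (c z e
 (c z e
 (c z e
 (c z e
 (c z e
 (c z e
 (c (nat_lit 0x80000800008000080000800007fffe1d4d8) e e)))))))))))))))
 (c (a (nat_lit 0xfdffc00))
 (c z e
 (c z e
 (c z e
 (c z e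
 (c z e
 (c z e
 (c z e
 (c (b (nat_lit 0x102a2a0f)) e e))))))))
 (c (a (nat_lit 0xfe02800))
 (c (b (nat_lit 0xfb5be0d)) e
 (c z e
 (c z e
 (c (b (nat_lit 0x10154e0f)) e
 (c (b (nat_lit 0xfffba0f)) e
 (c (b (nat_lit 0x102c5e0f)) e e))))))
 (c (nat_lit 0x7f00e7f00e7f00e7f00f7f00f7c600)
 (c (b (nat_lit 0xfc6ea0f)) e e)
 (c (a (nat_lit 0xfe00400))
 (c z e
 (c (b (nat_lit 0x10bad80f)) e
 (c z e
 (c (nat_lit 0x800008000080000800008176a81778a0a10) e e))))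
 (c (nat_lit 0x7f0137f0077f0077f0087f00805561)
 (c (nat_lit 0x800008000088000880008800088000d6c10) e
 (c (nat_lit 0x800008000080000826a8826a8826a819950) e
 (c (nat_lit 0x8000080000800008000080f3780f33d23d0) e e)))
 (c (a (nat_lit 0xfe01401)) e
 (c (a (nat_lit 0xfdff001)) e
 (c (a (nat_lit 0xfe88a01)) e
 (c (nat_lit 0x7f2167f2487f2487f2487f24836e41) e
 (c (a (nat_lit 0xfe4a803)) e
 (c (a (nat_lit 0xfe4be03)) e
 (c (a (nat_lit 0xff48803)) e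
 (c (a (nat_lit 0xffdb403)) e
 (c z e
 (c (a (nat_lit 0xff0b005)) e
 (c (a (nat_lit 0xfe64e07)) e
 (c (nat_lit 0x7f6087f6087f6067f6087f6083f9a7) e
 (c (a (nat_lit 0xff50007)) e
 (c (a (nat_lit 0xffa6c07)) e
 (c z e
 (c (nat_lit 0x7f8b37f8b37faf27faf27faf28a46b) e
 (c (a (nat_lit 0xff8a60d)) e
 (c (nat_lit 0x7fe4d7fe0d7fdfe7fe4d7fe4d65bef) e
 (c (nat_lit 0x7fe4d7fe237fe147fe067fe4dd280f) e
 (c z e
 (c (a (nat_lit 0xfffa80f)) e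
 (c (a (nat_lit 0x1018b80f)) e e))))))))))))))))))))))))))))))))))) Tr.c Tr.e (nat_lit 0) C.t5 C.t6 C.t7
noncomputable def tt553 : Tr := beta% (fun (c : Nat → Tr → Tr → Tr) (e : Tr) (z : Nat) (a b : Nat → Nat) =>
 (c (a (nat_lit 0x101f2000))
 (c (b (nat_lit 0xfc4de01)) e
 (c (nat_lit 0x800007ff067fefb800008000080000800001db03) e
 (c (nat_lit 0x80000800007ff877ffab800008000080000e0c83) e
 (c (b (nat_lit 0x101d2203)) e
 (c z e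
 (c z e
 (c z e
 (c z e
 (c z e
 (c z e
 (c z e
 (c (b (nat_lit 0x103ec207)) e
 (c (b (nat_lit 0x1027360b)) e
 (c z e
 (c z e
 (c z e
 (c (b (nat_lit 0x10203c0f)) e
 (c (nat_lit 0x80000800007fe68800008000080000800007e28f) e e))))))))))))))))))
 (c (a (nat_lit 0x101f5c00))
 (c z e
 (c (nat_lit 0x80cb180cb180cb180ca380cb180cb180cb1fa803) e
 (c z e
 (c (b (nat_lit 0xffd2603)) e e))))
 (c (a (nat_lit 0x101f6000))
 (c z e
 (c z e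
 (c z e
 (c z e
 (c (b (nat_lit 0xffdca07)) e
 (c z e
 (c z e
 (c z e
 (c z e
 (c z e
 (c z e
 (c z e
 (c z e
 (c z e
 (c (b (nat_lit 0xffd4e0f)) e e)))))))))))))))
 (c (a (nat_lit 0x101f7600)) e
 (c (a (nat_lit 0x101f7000)) e
 (c (a (nat_lit 0x101f9c01)) e
 (c (a (nat_lit 0x101fb401)) e
 (c (a (nat_lit 0x101f5c01)) e
 (c (a (nat_lit 0x10109e01)) e
 (c (a (nat_lit 0x100e4e01)) e
 (c (a (nat_lit 0x10096c03)) e
 (c (a (nat_lit 0x100e4a03)) e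
 (c z e
 (c z e
 (c z e
 (c (a (nat_lit 0x100da405)) e
 (c (a (nat_lit 0x10183407)) e
 (c z e
 (c z e
 (c z e
 (c z e
 (c z e
 (c z e
 (c (nat_lit 0x800007ff9e7ff9e800008000080000b4e4f) e
 (c (a (nat_lit 0x10074e0f)) e
 (c (a (nat_lit 0xfffaa0f)) e e))))))))))))))))))))))))))) Tr.c Tr.e (nat_lit 0) C.t6 C.t7
noncomputable def tt554 : Tr := beta% (fun (c : Nat → Tr → Tr → Tr) (e : Tr) (z : Nat) (a b : Nat → Nat) =>
 (c (a (nat_lit 0x101f9800))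
 (c (b (nat_lit 0xfc27c01)) e
 (c (b (nat_lit 0xfd9e201)) e
 (c (nat_lit 0x7e9dc7ebfe7ebfe7ebfe7ebfe7ebfe7ebfe01801) e
 (c (b (nat_lit 0xf4d6a01)) e
 (c z e
 (c z e
 (c (b (nat_lit 0x10232003)) e
 (c (b (nat_lit 0xf740e03)) e
 (c z e
 (c z e
 (c z e
 (c z e
 (c z e
 (c z e
 (c z e
 (c z e
 (c z e
 (c z e
 (c (b (nat_lit 0xffa8c0f)) e e)))))))))))))))))))
 (c (a (nat_lit 0x101f6800))
 (c (b (nat_lit 0xfd47401)) e
 (c (nat_lit 0x7f2627f2627f2627f2627f2627f16a7f16c97301) e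
 (c z e
 (c (b (nat_lit 0x10284203)) e
 (c (nat_lit 0x80000800007fe9a800008000080000800005cb83) e
 (c z e
 (c z e
 (c z e
 (c z e
 (c z e
 (c z e
 (c z e
 (c z e
 (c z e
 (c z e
 (c (b (nat_lit 0xfffee0f)) e
 (c z e
 (c z e
 (c (b (nat_lit 0xffdce0f)) e e)))))))))))))))))))
 (c (a (nat_lit 0x101fa800))
 (c z e
 (c (b (nat_lit 0x10138e03)) e
 (c (nat_lit 0x813fd813fd813fd81392813fd813fd813fde5d03) e
 (c z e
 (c z e
 (c z e
 (c z e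
 (c z e
 (c z e
 (c z e
 (c z e
 (c z e
 (c (b (nat_lit 0x10628a0d)) e
 (c z e
 (c z e
 (c z e
 (c (b (nat_lit 0xffd5e0f)) e e)))))))))))))))))
 (c (a (nat_lit 0x101fa800))
 (c (nat_lit 0x813f4813f4813f4813b5813b1813f4813f42fa83) e
 (c z e
 (c z e
 (c z e
 (c (b (nat_lit 0xfd79a07)) e
 (c z e
 (c z e
 (c z e
 (c z e
 (c z e
 (c z e
 (c z e
 (c z e
 (c (b (nat_lit 0xffd2e0f)) e
 (c (b (nat_lit 0xff0be0f)) e
 (c (b (nat_lit 0xfff6a0f)) e e))))))))))))))))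
 (c (a (nat_lit 0x101f8c00))
 (c z e
 (c z e
 (c z e
 (c z e
 (c z e
 (c z e
 (c z e
 (c z e
 (c z e
 (c z e
 (c z e
 (c z e
 (c z e
 (c (b (nat_lit 0xffb600f)) e e))))))))))))))
 (c (a (nat_lit 0x101faa00)) e
 (c (a (nat_lit 0x101fa400)) e
 (c (a (nat_lit 0x101ff401)) e
 (c (a (nat_lit 0x10200c01)) e
 (c (a (nat_lit 0x101fdc01)) e
 (c (a (nat_lit 0x10119401)) e
 (c z e
 (c (a (nat_lit 0x100f3003)) e
 (c (a (nat_lit 0x10143003)) e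
 (c z e
 (c z e
 (c (a (nat_lit 0x100e9a03)) e
 (c (a (nat_lit 0x100d2e05)) e
 (c (a (nat_lit 0x100b6407)) e
 (c z e
 (c z e
 (c (a (nat_lit 0xffe2807)) e
 (c z e
 (c z e
 (c (nat_lit 0x800007ffb97ffb9800008000080000b890d) e
 (c z e
 (c z e
 (c (nat_lit 0x800008000080000800007ff817ff8186ccf) e e))))))))))))))))))))))))))))) Tr.c Tr.e (nat_lit 0) C.t6 C.t7
noncomputable def tt555 : Tr := beta% (fun (c : Nat → Tr → Tr → Tr) (e : Tr) (z : Nat) (a b : Nat → Nat) =>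
 (c (a (nat_lit 0x101ecc00))
 (c (b (nat_lit 0xfab4400)) e
 (c (b (nat_lit 0xfe27200)) e
 (c (b (nat_lit 0xfd39c01)) e
 (c (b (nat_lit 0xfe11c01)) e
 (c (b (nat_lit 0xfd52001)) e
 (c (b (nat_lit 0xfe2b001)) e
 (c (b (nat_lit 0xfa21801)) e
 (c (b (nat_lit 0xfbe5e03)) e
 (c z e
 (c (b (nat_lit 0xfbcbc03)) e
 (c z e
 (c z e
 (c z e
 (c z e
 (c (b (nat_lit 0xfedd007)) e
 (c (b (nat_lit 0xf613a07)) e
 (c (b (nat_lit 0xf5f6607)) e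
 (c z e
 (c (b (nat_lit 0xfcbea0b)) e
 (c (b (nat_lit 0xfdd6a0d)) e
 (c (b (nat_lit 0xfd3ac0f)) e
 (c z e
 (c z e
 (c (b (nat_lit 0xfffa60f)) e e))))))))))))))))))))))))
 (c (a (nat_lit 0x101f6800))
 (c (b (nat_lit 0xfe1cc01)) e
 (c (b (nat_lit 0xfdbc201)) e
 (c (b (nat_lit 0xfe1a001)) e
 (c (b (nat_lit 0xfe29801)) e
 (c (b (nat_lit 0xfe2e601)) e
 (c z e
 (c z e
 (c z e
 (c z e
 (c z e
 (c z e
 (c (b (nat_lit 0xfd2b407)) e
 (c (b (nat_lit 0xfb61207)) e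
 (c z e
 (c z e
 (c (b (nat_lit 0x101e7c07)) e e))))))))))))))))
 (c (a (nat_lit 0x101f0800))
 (c (b (nat_lit 0xfcf0e01)) e
 (c (b (nat_lit 0xfe2be01)) e
 (c (b (nat_lit 0xfd50801)) e
 (c z e
 (c z e
 (c z e
 (c z e
 (c z e
 (c z e
 (c z e
 (c (b (nat_lit 0xffaa607)) e
 (c z e
 (c z e
 (c z e
 (c z e
 (c z e
 (c (b (nat_lit 0xfff800f)) e
 (c z e
 (c z e
 (c (b (nat_lit 0xffb9c0f)) e e))))))))))))))))))))
 (c (a (nat_lit 0x101f7800))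
 (c (b (nat_lit 0xfabaa01)) e
 (c (b (nat_lit 0xf97a403)) e
 (c z e
 (c z e
 (c z e
 (c z e
 (c z e
 (c z e
 (c (b (nat_lit 0xffb4007)) e
 (c z e
 (c z e
 (c z e
 (c z e
 (c (b (nat_lit 0xf76580d)) e
 (c (b (nat_lit 0xfd9c60f)) e
 (c z e
 (c z e
 (c (b (nat_lit 0xfff5e0f)) e
 (c (b (nat_lit 0xfff760f)) e e)))))))))))))))))))
 (c (a (nat_lit 0x101f6200))
 (c (nat_lit 0x7ef3d7ef3d7ef307ef3d7ef3d7ef3d7ef3dc7f83) e
 (c (nat_lit 0x7f5fb7f5fb7f4157f5fb7f5fb7f5fb7f5fb29703) e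
 (c (nat_lit 0x800008000080000800007ff75800008000074a03) e
 (c z e
 (c z e
 (c z e
 (c (b (nat_lit 0xffffc07)) e
 (c (b (nat_lit 0xfe57e07)) e
 (c z e
 (c z e
 (c z e
 (c (b (nat_lit 0xee77e0d)) e
 (c (b (nat_lit 0xfb0e80f)) e
 (c (b (nat_lit 0xffcc40f)) e
 (c z e
 (c (b (nat_lit 0xff54e0f)) e e))))))))))))))))
 (c (a (nat_lit 0x101f4a00))
 (c (nat_lit 0x7d7bb7d7bb7d5f67d7bb7d7bb7d7bb7d7bb65583) e
 (c z e
 (c z e
 (c z e
 (c z e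
 (c (b (nat_lit 0xfff8e07)) e
 (c z e
 (c z e
 (c z e
 (c z e
 (c z e
 (c (b (nat_lit 0x10754c0f)) e
 (c (b (nat_lit 0x106bb00f)) e
 (c z e
 (c (nat_lit 0x800007fd9b8000080000800008000080000e9c0f) e e)))))))))))))))
 (c (a (nat_lit 0x101f9c00))
 (c (b (nat_lit 0xffd4205)) e
 (c z e
 (c z e
 (c z e
 (c z e
 (c z e
 (c z e
 (c z e
 (c z e
 (c z e
 (c z e
 (c (b (nat_lit 0xffe640f)) e
 (c (b (nat_lit 0xfff240f)) e e)))))))))))))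
 (c (a (nat_lit 0x101f6e00))
 (c (nat_lit 0x71aea71aea71a9c71aea71aea71aea71aea31987) e e)
 (c (a (nat_lit 0x101f8200)) e
 (c (nat_lit 0x80ff380fe880fe880fe880fe880fe8b1e81)
 (c (b (nat_lit 0xf4b820b)) e e)
 (c (a (nat_lit 0x101f6801))
 (c z e
 (c (b (nat_lit 0xff5fa0f)) e e))
 (c (a (nat_lit 0x1010a401)) e
 (c z e
 (c z e
 (c z e
 (c z e
 (c z e
 (c (a (nat_lit 0x10108203)) e
 (c (a (nat_lit 0x102c9c03)) e
 (c (a (nat_lit 0x10191e05)) e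
 (c (a (nat_lit 0x101dfe07)) e
 (c (a (nat_lit 0x100e7007)) e
 (c (a (nat_lit 0x1002ae07)) e
 (c z e
 (c z e
 (c (nat_lit 0x7f9d47fb167fb167fb167fb167fb164b50b) e
 (c (nat_lit 0x800007fe5680000800008000080000dd48d) e
 (c (nat_lit 0x804a7804a780485804a7804a7804a75fb8f) e
 (c (nat_lit 0x8000080000800007ff58800008000068acf) e
 (c (nat_lit 0x7ffc27ffc27ffc27ffc27feb07ffc2ba7cf) e e))))))))))))))))))))))))))))))) Tr.c Tr.e (nat_lit 0) C.t6 C.t7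
noncomputable def tt556 : Tr := beta% (fun (c : Nat → Tr → Tr → Tr) (e : Tr) (z : Nat) (a b d : Nat → Nat) =>
 (c (a (nat_lit 0xfe03200)) tt555
 (c (a (nat_lit 0xfe00200)) tt554
 (c (a (nat_lit 0xfe02600)) tt553
 (c (a (nat_lit 0xfe00e00))
 (c (b (nat_lit 0x101f8400))
 (c (d (nat_lit 0x101a8603)) e
 (c z e
 (c z e
 (c (d (nat_lit 0xed88805)) e
 (c z e
 (c z e
 (c z e
 (c z e
 (c z e
 (c z e
 (c z e
 (c z e
 (c z e
 (c z e
 (c z e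
 (c (d (nat_lit 0xff6e80f)) e e))))))))))))))))
 (c (b (nat_lit 0x101f8600)) e
 (c (b (nat_lit 0x101efa00))
 (c z e
 (c z e
 (c z e
 (c z e
 (c z e
 (c z e
 (c (nat_lit 0x80000800007ff3780000800008000080000a930d) e e)))))))
 (c (b (nat_lit 0x10168001)) e
 (c (b (nat_lit 0x101fd201)) e
 (c (b (nat_lit 0x101fd001)) e
 (c z e
 (c (b (nat_lit 0x1006f201)) e
 (c (b (nat_lit 0x1015d403)) e
 (c (b (nat_lit 0x10089e03)) e
 (c (b (nat_lit 0x10177803)) e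
 (c z e
 (c z e
 (c (b (nat_lit 0x10405205)) e
 (c z e
 (c (b (nat_lit 0x10170c07)) e
 (c (b (nat_lit 0x1002c207)) e
 (c z e
 (c z e
 (c z e
 (c z e
 (c (nat_lit 0x800007ff4d7ff4d800008000080000ae24f) e e))))))))))))))))))))))
 (c (a (nat_lit 0xfe00e00))
 (c (b (nat_lit 0x101f8800))
 (c z e
 (c z e
 (c z e
 (c z e
 (c z e
 (c z e
 (c z e
 (c z e
 (c z e
 (c (nat_lit 0x800007fec080000800008000080000800000c78f) e e))))))))))
 (c (b (nat_lit 0x101fd201)) e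
 (c (b (nat_lit 0x101ffa01)) e
 (c (b (nat_lit 0x101f8601)) e
 (c (b (nat_lit 0x101fdc01)) e
 (c z e
 (c (b (nat_lit 0x1014fa03)) e
 (c (b (nat_lit 0x1019da03)) e
 (c (b (nat_lit 0x10182203)) e
 (c z e
 (c z e
 (c (b (nat_lit 0x10207e05)) e
 (c (b (nat_lit 0x10681207)) e
 (c (b (nat_lit 0xff6fe07)) e
 (c (b (nat_lit 0x10078607)) e
 (c z e
 (c z e
 (c z e
 (c (b (nat_lit 0x100bec0d)) e
 (c (nat_lit 0x800007ffd07ffd08000080000800000324f) e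
 (c z e
 (c (b (nat_lit 0xfffa00f)) e
 (c (b (nat_lit 0xffd180f)) e e))))))))))))))))))))))) tt552)))))) Tr.c Tr.e (nat_lit 0) C.t5 C.t6 C.t7
noncomputable def tt557 : Tr := beta% (fun (c : Nat → Tr → Tr → Tr) (e : Tr) (z : Nat) (a b d : Nat → Nat) =>
 (c (a (nat_lit 0xfdfec00))
 (c (b (nat_lit 0x1012f201))
 (c z e
 (c (d (nat_lit 0x106dbc0d)) e e))
 (c (b (nat_lit 0x100d7401)) e
 (c (b (nat_lit 0x10717201)) e
 (c (nat_lit 0x7ff0e8000080000800008000080000de683) e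
 (c (b (nat_lit 0xfc95a03)) e
 (c (nat_lit 0x7fc627fc627f9b57fc627fc627fc6263143) e
 (c (b (nat_lit 0x101e4003)) e
 (c z e
 (c (b (nat_lit 0x10204a05)) e
 (c (b (nat_lit 0x10458c07)) e
 (c (b (nat_lit 0xfabc407)) e
 (c (nat_lit 0x7f26c7f26c7f26c7f1c97f1d37f26cbdc87) e
 (c z e
 (c (b (nat_lit 0x1020de07)) e
 (c (b (nat_lit 0x103d4c0d)) e e)))))))))))))))
 (c (a (nat_lit 0xfe00c00))
 (c (b (nat_lit 0x10222c01)) e
 (c (b (nat_lit 0xfb1d603)) e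
 (c (b (nat_lit 0xff58003)) e
 (c (b (nat_lit 0xff4b003)) e
 (c z e
 (c (b (nat_lit 0x10585c03)) e
 (c (nat_lit 0x7ffd2800008000080000800008000033145) e
 (c (b (nat_lit 0xfd29207)) e
 (c z e
 (c (b (nat_lit 0x10298207)) e
 (c z e
 (c (b (nat_lit 0x103c1007)) e
 (c (b (nat_lit 0x10687c0d)) e
 (c (b (nat_lit 0x103ad20f)) e
 (c z e
 (c z e
 (c z e
 (c (b (nat_lit 0x1024320f)) e e))))))))))))))))))
 (c (a (nat_lit 0xfe01400))
 (c z e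
 (c z e
 (c z e
 (c z e
 (c (b (nat_lit 0xf944c05)) e
 (c (nat_lit 0x7f3887f3887f3247f3887f3887f388dd3c7) e
 (c (nat_lit 0x80000800007fd4a80000800008000009707) e
 (c (b (nat_lit 0x10336407)) e
 (c z e
 (c (b (nat_lit 0x103fd607)) e
 (c (b (nat_lit 0x109db00d)) e
 (c (b (nat_lit 0x10692e0f)) e
 (c (b (nat_lit 0x10302e0f)) e
 (c z e
 (c z e
 (c (b (nat_lit 0x102a440f)) e
 (c z e
 (c z e
 (c z e
 (c (nat_lit 0x80000800008000080000800007ffe715293) e e))))))))))))))))))))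
 (c (a (nat_lit 0xfdffa00))
 (c (b (nat_lit 0x1070de03)) e
 (c (b (nat_lit 0x1046fc03)) e
 (c (b (nat_lit 0x1021a005)) e
 (c (b (nat_lit 0x1045bc07)) e
 (c (nat_lit 0x81af481af48173681af481af481af468fc7) e
 (c (b (nat_lit 0x1015f607)) e
 (c (b (nat_lit 0xfe54207)) e
 (c (b (nat_lit 0xf2a9007)) e
 (c z e
 (c (b (nat_lit 0xffd160f)) e
 (c (b (nat_lit 0xfe8840f)) e
 (c z e
 (c z e
 (c (nat_lit 0x809aa809aa80987809aa809aa809aaf9d0f) e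
 (c z e
 (c z e
 (c z e
 (c z e
 (c z e
 (c (nat_lit 0x80000800008000080000800007fe249c053) e e))))))))))))))))))))
 (c (a (nat_lit 0xfe02a00))
 (c (b (nat_lit 0x1027c205)) e
 (c (nat_lit 0x80aa180aa180a5880aa180aa180aa18fe87) e
 (c (nat_lit 0x80a7380a73808d7809ca80a7380a7356a87) e
 (c z e
 (c z e
 (c (b (nat_lit 0xfd14407)) e
 (c z e
 (c (b (nat_lit 0x100f820f)) e
 (c (b (nat_lit 0xff45c0f)) e
 (c (b (nat_lit 0xfff4e0f)) e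
 (c z e
 (c (b (nat_lit 0x10087c0f)) e e))))))))))))
 (c (a (nat_lit 0xfdf9200))
 (c z e
 (c z e
 (c z e
 (c z e
 (c (nat_lit 0x7c1917c1917c1667c1917c1917c1912904d) e
 (c (nat_lit 0x7e1817e1817e1817e0957e1817e181c998f) e
 (c (b (nat_lit 0x1026d60f)) e
 (c z e
 (c (b (nat_lit 0xfffe80f)) e
 (c (b (nat_lit 0x100c7e0f)) e
 (c (b (nat_lit 0xff56e11)) e e)))))))))))
 (c (a (nat_lit 0xfdf7c00))
 (c z e
 (c (b (nat_lit 0x1037b807)) e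
 (c z e
 (c (b (nat_lit 0x100cce0f)) e
 (c z e
 (c z e
 (c z e
 (c (b (nat_lit 0x1037d40f)) e e))))))))
 (c (a (nat_lit 0xfe01400))
 (c (b (nat_lit 0xfd5ca0d)) e
 (c z e
 (c z e
 (c z e
 (c z e
 (c (b (nat_lit 0x1021a60f)) e e))))))
 (c (a (nat_lit 0xfe01000))
 (c (nat_lit 0x80000800007ff077ff177ff9b800003374f) e
 (c z e
 (c z e
 (c (b (nat_lit 0x10854a0f)) e
 (c z e
 (c (nat_lit 0x8000080000800008000080ce780ce7ee990) e e))))))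
 (c (a (nat_lit 0xfdffa00))
 (c z e
 (c z e
 (c (nat_lit 0x800008000084b2584b2584b2584b25fee50) e
 (c (nat_lit 0x8000080000800008195d8195d8195d5e750) e
 (c (nat_lit 0x8000080000800008000080b7580b75a9fd0) e e)))))
 (c (a (nat_lit 0xfdfea00))
 (c (b (nat_lit 0x11000010)) e
 (c (nat_lit 0x8000080000814ce814d4814d4814d4baa90) e
 (c (nat_lit 0x800008000080000811e6811ed811fd2e450) e
 (c (nat_lit 0x80000800008000080000809d2809d293f50) e e))))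
 (c (a (nat_lit 0xfe02201)) e
 (c (a (nat_lit 0xfdffa01)) e
 (c (nat_lit 0x7f0027f0027f0027effe7effe147e1) e
 (c (nat_lit 0x7f2ba7f2ba7f2ba7f2ba7f01f694a1) e
 (c (nat_lit 0x7f04d7f0757f0757f0757f075f0a81) e
 (c (nat_lit 0x7f0b17f04d7f0b17f0b17f0b14e2a3) e
 (c (a (nat_lit 0xfe16403)) e
 (c (a (nat_lit 0xfe8ae03)) e
 (c z e
 (c (a (nat_lit 0xff42e03)) e
 (c (nat_lit 0x7f5737f5667f5c07f5c07f5c043485) e
 (c (nat_lit 0x7f5b67f5af7f59f7f5b67f5b6e0b27) e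
 (c (nat_lit 0x7f61e7f61e7f61e7f6107f61e80ba7) e
 (c (a (nat_lit 0xfef4e07)) e
 (c (a (nat_lit 0xff4d407)) e
 (c (a (nat_lit 0xfee5607)) e
 (c (nat_lit 0x7f4607f46d7f46d7f46d7f46d38d0d) e
 (c (nat_lit 0x7ff347ff347ff147ff347ff3481e6f) e
 (c (nat_lit 0x7ff6f7ff527ff167ff5a7ff6f2046f) e
 (c z e
 (c z e
 (c (nat_lit 0x7dab97dab97dab97dab97da86c2f8f) e e)))))))))))))))))))))))))))))))))) Tr.c Tr.e (nat_lit 0) C.t5 C.t6 C.t7
noncomputable def tt558 : Tr := beta% (fun (c : Nat → Tr → Tr → Tr) (e : Tr) (z : Nat) (a b : Nat → Nat) =>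
 (c (a (nat_lit 0x101fae00))
 (c (b (nat_lit 0xf45fc03)) e
 (c (nat_lit 0x7b4a97b3e37b3c27b4a97b4a97b4a97b4a97a805) e
 (c (nat_lit 0x80000800007ff4380000800008000080000b4307) e
 (c z e
 (c (nat_lit 0x8000080000800007ffda80000800008000087f07) e
 (c (b (nat_lit 0xfc27207)) e
 (c (b (nat_lit 0x10402407)) e
 (c (b (nat_lit 0x102c580d)) e
 (c (b (nat_lit 0x1041900f)) e
 (c (nat_lit 0x8198681986819868198681986813de819867448f) e
 (c z e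
 (c z e
 (c z e
 (c (b (nat_lit 0xffe701c)) e e))))))))))))))
 (c (a (nat_lit 0x101f8800))
 (c (b (nat_lit 0xfa66607)) e
 (c (nat_lit 0x8000080000800007ff9380000800008000041107) e
 (c (nat_lit 0x8000080000800007fffe7ff6b800008000013f07) e
 (c z e
 (c z e
 (c (b (nat_lit 0x1086480d)) e
 (c (b (nat_lit 0xffdea0f)) e
 (c z e
 (c z e
 (c z e
 (c z e
 (c z e
 (c (nat_lit 0x8000080000800007d2387d2387d2387d2382bfb0) e
 (c (nat_lit 0x800008000080000800007cd347cd377cd37aabb0) e e))))))))))))))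
 (c (a (nat_lit 0x10204601))
 (c (nat_lit 0x80000800007fc5980000800008000080000b6507) e
 (c (b (nat_lit 0x104c7a07)) e
 (c z e
 (c z e
 (c (b (nat_lit 0xffd980f)) e e)))))
 (c (a (nat_lit 0x101f7001))
 (c z e
 (c z e
 (c (b (nat_lit 0x10302a0f)) e e)))
 (c (nat_lit 0x8103581035810358102d8102f8103148e81)
 (c z e
 (c (b (nat_lit 0x101b2a0f)) e
 (c z e
 (c z e
 (c z e
 (c (b (nat_lit 0xfc1fc1c)) e e))))))
 (c (nat_lit 0x801f680381803818038180381803818f681)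
 (c (nat_lit 0x7deed7ee2f7ee2f7ee2f7ee2f7ee2f7ee2f7c98f) e
 (c z e
 (c z e
 (c (b (nat_lit 0x1043581c)) e e))))
 (c (a (nat_lit 0x100d5601))
 (c z e
 (c (b (nat_lit 0x1022d41c)) e e))
 (c (a (nat_lit 0x10116c03)) e
 (c z e
 (c (nat_lit 0x80ae580ae580ae580a7c80a9680ae559b83) e
 (c z e
 (c (a (nat_lit 0x10acc603)) e
 (c (a (nat_lit 0x1086cc05)) e
 (c (a (nat_lit 0x10128607)) e
 (c (a (nat_lit 0x1004d407)) e
 (c (a (nat_lit 0xff48007)) e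
 (c z e
 (c z e
 (c (nat_lit 0x80661806358068a80694806948069477c4d) e
 (c (nat_lit 0x807c8807c88079f807c8807c8807c8ebe4f) e
 (c (a (nat_lit 0x100b4a0f)) e
 (c (a (nat_lit 0xfffde0f)) e
 (c z e
 (c (a (nat_lit 0x103ae20f)) e e))))))))))))))))))))))))) Tr.c Tr.e (nat_lit 0) C.t6 C.t7
noncomputable def tt559 : Tr := beta% (fun (c : Nat → Tr → Tr → Tr) (e : Tr) (z : Nat) (a b : Nat → Nat) =>
 (c (a (nat_lit 0x101f5e00))
 (c z e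
 (c z e
 (c z e
 (c (b (nat_lit 0xfb55803)) e
 (c z e
 (c (b (nat_lit 0xff03407)) e
 (c (b (nat_lit 0xfcdc807)) e
 (c z e
 (c z e
 (c z e
 (c z e
 (c (nat_lit 0x80000800007fcd180000800008000080000ad18f) e e))))))))))))
 (c (a (nat_lit 0x101f9600))
 (c z e
 (c (b (nat_lit 0xf0c9803)) e
 (c (b (nat_lit 0xff23c05)) e
 (c (nat_lit 0x7c10a7c10a7c00f7c10a7c10a7c10a7c10a09f87) e
 (c (b (nat_lit 0xfa74607)) e
 (c (b (nat_lit 0xfd8b807)) e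
 (c z e
 (c z e
 (c z e
 (c (b (nat_lit 0xfc9060f)) e
 (c (nat_lit 0x8000080000800007ffa8800008000080000b4b8f) e
 (c z e
 (c (b (nat_lit 0x1033760f)) e
 (c (nat_lit 0x800007fff28000080000800008000080000d7a0f) e
 (c (nat_lit 0x7b5477b5477b51e7b5477b5477b5477b547068ac) e e)))))))))))))))
 (c (a (nat_lit 0x101edc00))
 (c z e
 (c (nat_lit 0x790b9790b979096790b9790b9790b9790b97d507) e
 (c (nat_lit 0x80e9180e9180e9180e6d80e9180e9180e9185207) e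
 (c z e
 (c z e
 (c z e
 (c (b (nat_lit 0x1047540d)) e
 (c z e
 (c z e
 (c z e
 (c z e
 (c z e
 (c (b (nat_lit 0xfffd825)) e e)))))))))))))
 (c (a (nat_lit 0x101fc400))
 (c (nat_lit 0x7dfd27dfd27dfd27df1d7dfd27dfd27dfd2bee87) e e)
 (c (a (nat_lit 0x101fca01))
 (c z e
 (c z e
 (c z e
 (c (b (nat_lit 0x102cbe0f)) e
 (c (b (nat_lit 0x1016a40f)) e e)))))
 (c (a (nat_lit 0x101f4801))
 (c (b (nat_lit 0x1066ca0d)) e
 (c (nat_lit 0x81bfb81bfb81bfb81a9481bfb81bfb81bfbddf8f) e e))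
 (c (nat_lit 0x8104081040810408100c8100c8100c7c081)
 (c (b (nat_lit 0xfddee0f)) e e)
 (c (a (nat_lit 0x10091201)) e
 (c (a (nat_lit 0x10175001)) e
 (c (nat_lit 0x808d98088a808a0808d9808d9808d947ac3) e
 (c (a (nat_lit 0x10127803)) e
 (c z e
 (c z e
 (c (a (nat_lit 0x10b19203)) e
 (c (a (nat_lit 0x10245205)) e
 (c (a (nat_lit 0x101ec807)) e
 (c z e
 (c z e
 (c (a (nat_lit 0x1004b807)) e
 (c z e
 (c z e
 (c (a (nat_lit 0x1009fe0f)) e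
 (c z e
 (c (a (nat_lit 0xfff880f)) e
 (c (a (nat_lit 0xffff60f)) e
 (c (nat_lit 0x8045c8045c8045c8045c8020980209fb0cf) e e))))))))))))))))))))))))))) Tr.c Tr.e (nat_lit 0) C.t6 C.t7
noncomputable def tt560 : Tr := beta% (fun (c : Nat → Tr → Tr → Tr) (e : Tr) (z : Nat) (a b : Nat → Nat) =>
 (c (a (nat_lit 0x101ec000))
 (c (b (nat_lit 0xfe21201)) e
 (c (b (nat_lit 0xfe3bc01)) e
 (c (nat_lit 0x8000080000800008000080000800007ff57e9400) e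
 (c z e
 (c z e
 (c z e
 (c z e
 (c z e
 (c (b (nat_lit 0xfe16207)) e
 (c z e
 (c z e
 (c (b (nat_lit 0x103fa407)) e
 (c (b (nat_lit 0x103aa207)) e
 (c z e
 (c (b (nat_lit 0xfe8580f)) e
 (c z e
 (c z e
 (c z e
 (c (b (nat_lit 0xfffac0f)) e
 (c (b (nat_lit 0xfffae31)) e e))))))))))))))))))))
 (c (a (nat_lit 0x101ef000))
 (c (b (nat_lit 0xfde3a03)) e
 (c (b (nat_lit 0xffeac03)) e
 (c (nat_lit 0x8092d8092d8092d808f58092d8092d8092d0d883) e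
 (c z e
 (c z e
 (c z e
 (c (b (nat_lit 0xfc6d807)) e
 (c (b (nat_lit 0xff01207)) e
 (c z e
 (c z e
 (c z e
 (c (b (nat_lit 0x10478a0d)) e e))))))))))))
 (c (a (nat_lit 0x101f4600))
 (c (nat_lit 0x8091280912809128091280912807df8091291683) e
 (c z e
 (c z e
 (c (b (nat_lit 0xfd25005)) e
 (c (b (nat_lit 0xfaee807)) e
 (c (b (nat_lit 0xfd70c07)) e
 (c z e
 (c z e
 (c z e
 (c z e
 (c z e
 (c z e
 (c z e
 (c z e
 (c z e
 (c (nat_lit 0x8000080000800007ffc280000800008000032fac) e e))))))))))))))))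
 (c (a (nat_lit 0x101f1e00))
 (c z e
 (c (b (nat_lit 0xfb23c05)) e
 (c (b (nat_lit 0xfcaa407)) e
 (c z e
 (c z e
 (c z e
 (c (b (nat_lit 0xffe3807)) e e)))))))
 (c (a (nat_lit 0x101f4600))
 (c z e
 (c z e
 (c z e
 (c z e
 (c z e
 (c z e
 (c z e
 (c z e
 (c z e
 (c z e
 (c z e
 (c (b (nat_lit 0xfeb4823)) e e))))))))))))
 (c (a (nat_lit 0x101f0800)) e
 (c (a (nat_lit 0x101f6a01))
 (c (b (nat_lit 0x10bc1c07)) e
 (c (b (nat_lit 0x1053aa0d)) e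
 (c z e
 (c z e
 (c (b (nat_lit 0x10680a0f)) e e)))))
 (c (a (nat_lit 0x101f4601)) e
 (c (a (nat_lit 0x101ec001)) e
 (c (a (nat_lit 0x10065801)) e
 (c z e
 (c (a (nat_lit 0x100de603)) e
 (c z e
 (c (nat_lit 0x8000080000800007feb77fec680000a46c3) e
 (c z e
 (c (a (nat_lit 0x1006b203)) e
 (c (a (nat_lit 0x10168a05)) e
 (c (a (nat_lit 0x101c4c07)) e
 (c z e
 (c z e
 (c z e
 (c z e
 (c (a (nat_lit 0x10136a0d)) e
 (c (a (nat_lit 0x10020e0f)) e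
 (c (nat_lit 0x801b68013080130801b6801b6801b6f288f) e
 (c (nat_lit 0x80000800007ffcd7ffcd80000800002628f) e
 (c z e
 (c (a (nat_lit 0x10164c0f)) e e))))))))))))))))))))))))))))) Tr.c Tr.e (nat_lit 0) C.t6 C.t7
noncomputable def tt561 : Tr := beta% (fun (c : Nat → Tr → Tr → Tr) (e : Tr) (z : Nat) (a b : Nat → Nat) =>
 (c (a (nat_lit 0x101fac00))
 (c (b (nat_lit 0xfe2ce01)) e
 (c (b (nat_lit 0xfe2e201)) e
 (c (b (nat_lit 0xfe2e601)) e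
 (c (nat_lit 0x7f1167f1167f1167f1167f1067f1077f10959181) e
 (c (b (nat_lit 0xfe25601)) e
 (c z e
 (c z e
 (c z e
 (c z e
 (c z e
 (c z e
 (c z e
 (c (b (nat_lit 0xfffa807)) e
 (c z e
 (c z e
 (c z e
 (c z e
 (c z e
 (c z e
 (c z e
 (c z e
 (c (b (nat_lit 0xffb7e0f)) e e))))))))))))))))))))))
 (c (a (nat_lit 0x101f1800))
 (c (b (nat_lit 0xfdc9c01)) e
 (c (b (nat_lit 0xfe34c01)) e
 (c (b (nat_lit 0xfe27c01)) e
 (c z e
 (c (b (nat_lit 0xffdc203)) e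
 (c (b (nat_lit 0x100faa03)) e
 (c z e
 (c z e
 (c z e
 (c z e
 (c z e
 (c (b (nat_lit 0x103d2e07)) e e))))))))))))
 (c (a (nat_lit 0x101f9e00))
 (c (nat_lit 0x80000800008000080000800007fd707fd7098d80) e
 (c (b (nat_lit 0xfe1ca03)) e
 (c (nat_lit 0x8146b8146b8145f814458146b8146b8146be0a83) e
 (c z e
 (c z e
 (c z e
 (c z e
 (c (b (nat_lit 0xfdb9607)) e
 (c (b (nat_lit 0xfcda007)) e
 (c (b (nat_lit 0xffede07)) e
 (c (b (nat_lit 0x1040b607)) e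
 (c z e
 (c z e
 (c z e
 (c z e
 (c (b (nat_lit 0xffec00f)) e e))))))))))))))))
 (c (a (nat_lit 0x101fc200))
 (c z e
 (c (nat_lit 0x8000080000800007ff1a80000800008000065c83) e
 (c (nat_lit 0x80000800007ff2a7fcb9800008000080000d6883) e
 (c z e
 (c z e
 (c z e
 (c (b (nat_lit 0xfe7b007)) e
 (c z e
 (c z e
 (c z e
 (c z e
 (c z e
 (c (b (nat_lit 0x1058880f)) e
 (c z e
 (c z e
 (c (b (nat_lit 0xfff840f)) e
 (c (b (nat_lit 0xffe1a2c)) e e)))))))))))))))))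
 (c (a (nat_lit 0x101f9200))
 (c z e
 (c z e
 (c z e
 (c z e
 (c z e
 (c z e
 (c z e
 (c z e
 (c z e
 (c z e
 (c (b (nat_lit 0x1052400f)) e
 (c z e
 (c z e
 (c (b (nat_lit 0x100ae40f)) e e))))))))))))))
 (c (a (nat_lit 0x101de000))
 (c z e
 (c z e
 (c z e
 (c z e
 (c z e
 (c z e
 (c z e
 (c z e
 (c z e
 (c z e
 (c z e
 (c z e
 (c (b (nat_lit 0xfff3423)) e e)))))))))))))
 (c (a (nat_lit 0x101fb000))
 (c (b (nat_lit 0xf5f1007)) e e)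
 (c (a (nat_lit 0x101f8600))
 (c z e
 (c (b (nat_lit 0x101dac07)) e e))
 (c (a (nat_lit 0x10200c01))
 (c (b (nat_lit 0xffff20d)) e e)
 (c (a (nat_lit 0x101fda01)) e
 (c (a (nat_lit 0x101cb201)) e
 (c z e
 (c z e
 (c z e
 (c (nat_lit 0x80a0280a02809ff80a0280a0280a022f103) e
 (c z e
 (c (a (nat_lit 0x1000c203)) e
 (c z e
 (c (a (nat_lit 0x100a7405)) e
 (c (a (nat_lit 0x10073407)) e
 (c (a (nat_lit 0xff6e007)) e
 (c (a (nat_lit 0xff47607)) e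
 (c z e
 (c z e
 (c (a (nat_lit 0xff8de0d)) e
 (c z e
 (c (nat_lit 0x800007ff9c7ff9c8000080000800007ea0f) e e)))))))))))))))))))))))))))) Tr.c Tr.e (nat_lit 0) C.t6 C.t7
noncomputable def tt562 : Tr := beta% (fun (c : Nat → Tr → Tr → Tr) (e : Tr) (z : Nat) (a b : Nat → Nat) =>
 (c (a (nat_lit 0x101eb000))
 (c (b (nat_lit 0xfb03c00)) e
 (c (b (nat_lit 0xfdf5800)) e
 (c (b (nat_lit 0xfd92600)) e
 (c (b (nat_lit 0xfddba01)) e
 (c (b (nat_lit 0xfdbca01)) e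
 (c (b (nat_lit 0xfe3ee01)) e
 (c (b (nat_lit 0xfc8ee01)) e
 (c (b (nat_lit 0xfe30801)) e
 (c z e
 (c (b (nat_lit 0xfb19e03)) e
 (c (b (nat_lit 0xfd5fc03)) e
 (c z e
 (c (b (nat_lit 0xfe77c03)) e
 (c z e
 (c z e
 (c (b (nat_lit 0xf2e0a07)) e
 (c (b (nat_lit 0xf33b807)) e
 (c (b (nat_lit 0xff3aa07)) e
 (c (b (nat_lit 0xfe48807)) e
 (c (b (nat_lit 0xff6580d)) e
 (c (b (nat_lit 0xfe42a0f)) e
 (c (nat_lit 0x7ff457ffb97ffb97ffb97ffb97ffb97ffb91378f) e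
 (c z e
 (c z e
 (c (b (nat_lit 0xffe940f)) e
 (c (nat_lit 0x800008000080000800007ff7f800008000078d17) e e))))))))))))))))))))))))))
 (c (a (nat_lit 0x101f9000))
 (c (b (nat_lit 0xfe24c00)) e
 (c (b (nat_lit 0xfd7ba01)) e
 (c (b (nat_lit 0xfe2a801)) e
 (c (b (nat_lit 0xfe21001)) e
 (c (b (nat_lit 0xfe2d401)) e
 (c (b (nat_lit 0xfdbf201)) e
 (c z e
 (c z e
 (c (b (nat_lit 0xfe09803)) e
 (c (b (nat_lit 0xffd2403)) e
 (c z e
 (c (b (nat_lit 0xfff1205)) e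
 (c z e
 (c z e
 (c z e
 (c (b (nat_lit 0x1032dc07)) e
 (c z e
 (c z e
 (c z e
 (c z e
 (c (b (nat_lit 0x10243a0f)) e
 (c (b (nat_lit 0x10203e0f)) e e))))))))))))))))))))))
 (c (a (nat_lit 0x101ebe00))
 (c (b (nat_lit 0xfd66201)) e
 (c (b (nat_lit 0xfdeda01)) e
 (c (nat_lit 0x7ed9d7ee2d7ee2d7ee2d7ee2d7ee2d7ee2dc6b01) e
 (c (b (nat_lit 0xfe2fe01)) e
 (c z e
 (c z e
 (c z e
 (c z e
 (c z e
 (c z e
 (c (b (nat_lit 0xfd37207)) e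
 (c z e
 (c z e
 (c z e
 (c z e
 (c (b (nat_lit 0x1009080d)) e
 (c (b (nat_lit 0xfe6dc0f)) e e)))))))))))))))))
 (c (a (nat_lit 0x101f4200))
 (c (nat_lit 0x7e7c97e9bc7e9bc7e9bc7e9bc7e9bc7e9bcc8201) e
 (c (b (nat_lit 0xfd3f001)) e
 (c (nat_lit 0x7fb517fb517fb517fb517fb517fb517f305a4b83) e
 (c z e
 (c z e
 (c (b (nat_lit 0xfe43003)) e
 (c z e
 (c z e
 (c z e
 (c z e
 (c z e
 (c z e
 (c z e
 (c (b (nat_lit 0x102f4c0d)) e
 (c z e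
 (c (b (nat_lit 0xfffaa0f)) e
 (c z e
 (c (b (nat_lit 0xffefa0f)) e e))))))))))))))))))
 (c (a (nat_lit 0x101f9e00))
 (c (nat_lit 0x7eb847eb847eb847e97d7eb847eb847eb8431b03) e
 (c (nat_lit 0x800007ffdc800008000080000800008000011a83) e
 (c (b (nat_lit 0xfe89e03)) e
 (c z e
 (c z e
 (c z e
 (c z e
 (c z e
 (c z e
 (c z e
 (c z e
 (c (b (nat_lit 0xff4260d)) e
 (c (b (nat_lit 0xfb9b60f)) e
 (c z e
 (c z e
 (c z e
 (c (b (nat_lit 0xffc980f)) e e)))))))))))))))))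
 (c (a (nat_lit 0x101f0c00))
 (c z e
 (c (nat_lit 0x7d4cb7d4cb7d4cb7d3ae7d4cb7d4cb7d4cbd1603) e
 (c z e
 (c z e
 (c z e
 (c z e
 (c (b (nat_lit 0xfdc9407)) e
 (c z e
 (c z e
 (c z e
 (c z e
 (c (b (nat_lit 0x102f060f)) e
 (c (b (nat_lit 0x103ca80f)) e
 (c z e
 (c (b (nat_lit 0xfffe20f)) e e)))))))))))))))
 (c (a (nat_lit 0x101f8a00))
 (c z e
 (c z e
 (c z e
 (c z e
 (c z e
 (c (b (nat_lit 0xffe9807)) e
 (c z e
 (c (b (nat_lit 0x104ccc0d)) e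
 (c z e
 (c z e
 (c (b (nat_lit 0x10ac820f)) e e)))))))))))
 (c (a (nat_lit 0x101f4e00)) e
 (c (a (nat_lit 0x101f6600)) e
 (c (a (nat_lit 0x101fbe00))
 (c (b (nat_lit 0xf736207)) e
 (c z e
 (c (b (nat_lit 0xffed80f)) e
 (c (b (nat_lit 0xf63ec0f)) e
 (c z e
 (c z e
 (c z e
 (c (b (nat_lit 0x1086be17)) e e))))))))
 (c (a (nat_lit 0x101a8801)) e
 (c (a (nat_lit 0x10200e01)) e
 (c (a (nat_lit 0x10195a01)) e
 (c (a (nat_lit 0x1005c601)) e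
 (c z e
 (c z e
 (c (a (nat_lit 0x10079403)) e
 (c (nat_lit 0x8150e8150e8150e81410814278150e90343) e
 (c (a (nat_lit 0x10121a03)) e
 (c (a (nat_lit 0x10043203)) e
 (c (a (nat_lit 0x10166605)) e
 (c (a (nat_lit 0x10145c07)) e
 (c (a (nat_lit 0x100dbe07)) e
 (c (a (nat_lit 0x10020e07)) e
 (c z e
 (c (a (nat_lit 0xffc6a07)) e
 (c z e
 (c (a (nat_lit 0x10061e0f)) e
 (c (nat_lit 0x800007fffc800008000080000800007ce4f) e
 (c z e
 (c (nat_lit 0x8000080000800007ff547ff6180000e280f) e e)))))))))))))))))))))))))))))))) Tr.c Tr.e (nat_lit 0) C.t6 C.t7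
noncomputable def tt563 : Tr := beta% (fun (c : Nat → Tr → Tr → Tr) (e : Tr) (z : Nat) (a b : Nat → Nat) =>
 (c (a (nat_lit 0x101fb200))
 (c (b (nat_lit 0xfda6a01)) e
 (c (nat_lit 0x7e5287e8bf7e8bf7e8bf7e8bf7e8bf7e8bf47f01) e
 (c (b (nat_lit 0xfc6a601)) e
 (c (nat_lit 0x7f1447f1447f1447f1447f1447f1447f0dbe8583) e
 (c (b (nat_lit 0xff37203)) e
 (c (b (nat_lit 0xfea1603)) e
 (c z e
 (c z e
 (c z e
 (c z e
 (c (b (nat_lit 0xfff5007)) e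
 (c z e
 (c z e
 (c (b (nat_lit 0xef35c07)) e
 (c (b (nat_lit 0xfde8e0d)) e
 (c (b (nat_lit 0xfe4640f)) e
 (c z e
 (c z e
 (c z e
 (c z e
 (c (b (nat_lit 0x10168e1d)) e e)))))))))))))))))))))
 (c (a (nat_lit 0x10205400))
 (c (b (nat_lit 0xf416401)) e
 (c (b (nat_lit 0xf8b1803)) e
 (c (b (nat_lit 0xfb5c603)) e
 (c (b (nat_lit 0xffbe403)) e
 (c (b (nat_lit 0xfcc4a03)) e
 (c z e
 (c z e
 (c z e
 (c z e
 (c (b (nat_lit 0xff2e207)) e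
 (c z e
 (c (b (nat_lit 0xea34e07)) e
 (c (nat_lit 0x7d5987d5987d44a7d5987d5987d5987d5986a08d) e
 (c z e
 (c z e
 (c (b (nat_lit 0x101a820f)) e
 (c z e
 (c z e
 (c (b (nat_lit 0xffed01d)) e e)))))))))))))))))))
 (c (a (nat_lit 0x101ed800))
 (c z e
 (c (b (nat_lit 0xfe62203)) e
 (c (nat_lit 0x7fd0c800008000080000800008000080000c3603) e
 (c (b (nat_lit 0xfa5b403)) e
 (c (b (nat_lit 0x10104605)) e
 (c (b (nat_lit 0xfd17607)) e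
 (c (b (nat_lit 0xfdb1c07)) e
 (c (b (nat_lit 0xfa68607)) e
 (c z e
 (c (b (nat_lit 0xfcffc07)) e
 (c z e
 (c z e
 (c (nat_lit 0x80000800007ff7e800008000080000800000ad0f) e
 (c (nat_lit 0x8000080000800007ff0f800008000080000ea98f) e
 (c z e
 (c (nat_lit 0x800007ffbb80000800008000080000800000940f) e e))))))))))))))))
 (c (a (nat_lit 0x101fa400))
 (c (nat_lit 0x7a98f7a5827ac627ac627ac627ac627ac62c0103) e
 (c z e
 (c (b (nat_lit 0xf61aa05)) e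
 (c (nat_lit 0x7ed3f7ed3f7ed3f7ecf37ed3f7ed3f7ed3f79c07) e
 (c (b (nat_lit 0x1056d807)) e
 (c (b (nat_lit 0x102d0a07)) e
 (c z e
 (c (b (nat_lit 0x1034ba07)) e
 (c z e
 (c z e
 (c (b (nat_lit 0x10cdb20f)) e
 (c z e
 (c z e
 (c z e
 (c z e
 (c z e
 (c z e
 (c z e
 (c z e
 (c (nat_lit 0x8000080000800008000080000800007ff587f52c) e e))))))))))))))))))))
 (c (a (nat_lit 0x101f8800))
 (c (b (nat_lit 0xf1b1605)) e
 (c (nat_lit 0x80000800007ff3b7ff6080000800008000041107) e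
 (c (nat_lit 0x7e41b7e41b7e41b7e3e57e3647e41b7e41b9ea07) e
 (c (nat_lit 0x800008000080000800007fe367ff2b80000de787) e
 (c (b (nat_lit 0xfff9007)) e
 (c (b (nat_lit 0xf9c9807)) e
 (c (b (nat_lit 0x1047220d)) e
 (c (b (nat_lit 0x107e5e0f)) e
 (c z e
 (c z e
 (c z e
 (c (b (nat_lit 0xfffb00f)) e
 (c (b (nat_lit 0xfb6c81d)) e e)))))))))))))
 (c (a (nat_lit 0x101fe800))
 (c (b (nat_lit 0xf467007)) e
 (c z e
 (c z e
 (c z e
 (c (b (nat_lit 0x107dde0d)) e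
 (c (b (nat_lit 0x1065ee0f)) e
 (c (b (nat_lit 0x103d920f)) e
 (c z e
 (c (b (nat_lit 0x1086f40f)) e
 (c z e
 (c (b (nat_lit 0xf85021d)) e e)))))))))))
 (c (a (nat_lit 0x10201400))
 (c (b (nat_lit 0xf23f807)) e
 (c (b (nat_lit 0xfbb8407)) e
 (c (b (nat_lit 0xfe97e0d)) e
 (c (b (nat_lit 0xf9a120f)) e
 (c z e
 (c (b (nat_lit 0xfb6280f)) e
 (c z e
 (c (b (nat_lit 0x10d9fe0f)) e e))))))))
 (c (a (nat_lit 0x101f5800))
 (c (nat_lit 0x8000080000800008000080000800007fe3f51a07) e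
 (c (nat_lit 0x800008000080000800007feaf800008000023e8d) e
 (c z e
 (c z e
 (c (b (nat_lit 0xfffdc0f)) e e)))))
 (c (nat_lit 0x811618114b8114b8114b8114b8114be8c81)
 (c z e
 (c z e
 (c z e
 (c z e
 (c (b (nat_lit 0x1091de1d)) e e)))))
 (c (a (nat_lit 0x1021c201))
 (c z e
 (c z e
 (c (b (nat_lit 0x107ff21d)) e e)))
 (c (a (nat_lit 0x101fca01))
 (c (b (nat_lit 0x1048b81d)) e e)
 (c z e
 (c z e
 (c (a (nat_lit 0x10074603)) e
 (c (a (nat_lit 0x101eaa03)) e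
 (c (a (nat_lit 0x10260803)) e
 (c (a (nat_lit 0x101c3203)) e
 (c (a (nat_lit 0x10099203)) e
 (c (a (nat_lit 0x10146805)) e
 (c (a (nat_lit 0x10141a07)) e
 (c (a (nat_lit 0x10127007)) e
 (c (nat_lit 0x8000080000800007ff3d8000080000167c7) e
 (c (a (nat_lit 0xfecbe07)) e
 (c z e
 (c (nat_lit 0x80000800007fed78000080000800002a2cd) e
 (c z e
 (c (nat_lit 0x800007ffeb80000800007fe918000072c4f) e
 (c (nat_lit 0x80000800007ff277ffdb7ff7c7fddbdcb4f) e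
 (c z e
 (c (a (nat_lit 0x100f1a0f)) e
 (c (nat_lit 0x810778107780fe6810778107781077c689d) e e)))))))))))))))))))))))))))))))) Tr.c Tr.e (nat_lit 0) C.t6 C.t7
noncomputable def tt564 : Tr := beta% (fun (c : Nat → Tr → Tr → Tr) (e : Tr) (z : Nat) (a b : Nat → Nat) =>
 (c (a (nat_lit 0x101fc000))
 (c (b (nat_lit 0xf6ece00)) e
 (c (b (nat_lit 0xfd5ea00)) e
 (c (b (nat_lit 0xfe62600)) e
 (c (b (nat_lit 0xfd19c00)) e
 (c (b (nat_lit 0xfe1b800)) e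
 (c (b (nat_lit 0xfd95200)) e
 (c (b (nat_lit 0xfd38a01)) e
 (c (b (nat_lit 0xfa57201)) e
 (c (b (nat_lit 0xf80b001)) e
 (c (b (nat_lit 0xf8c4c01)) e
 (c (b (nat_lit 0xfc17c01)) e
 (c z e
 (c z e
 (c (b (nat_lit 0xfa42603)) e
 (c z e
 (c z e
 (c (b (nat_lit 0xf3cb805)) e
 (c (b (nat_lit 0xeb09607)) e
 (c (b (nat_lit 0xfc50007)) e
 (c (b (nat_lit 0xfc08e07)) e
 (c (b (nat_lit 0xfefc407)) e
 (c z e
 (c z e
 (c (b (nat_lit 0xfff3a0f)) e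
 (c z e
 (c (b (nat_lit 0x101a620f)) e e))))))))))))))))))))))))))
 (c (a (nat_lit 0x101ef000))
 (c (b (nat_lit 0xfdc6e00)) e
 (c (b (nat_lit 0xfe36200)) e
 (c (b (nat_lit 0xfe50a00)) e
 (c (b (nat_lit 0xfdde800)) e
 (c (b (nat_lit 0xfdbb201)) e
 (c (b (nat_lit 0xfe43801)) e
 (c (b (nat_lit 0xfd1c401)) e
 (c (b (nat_lit 0xfac4a01)) e
 (c (b (nat_lit 0xf033a01)) e
 (c (b (nat_lit 0xfd1fe03)) e
 (c (b (nat_lit 0xfc00403)) e
 (c z e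
 (c z e
 (c z e
 (c z e
 (c (b (nat_lit 0xf9c3e07)) e
 (c (b (nat_lit 0xf091807)) e
 (c (b (nat_lit 0xfdf9007)) e
 (c z e
 (c z e
 (c z e
 (c z e
 (c z e
 (c (b (nat_lit 0xffcb60f)) e
 (c (b (nat_lit 0xffdc40f)) e
 (c (b (nat_lit 0xfff1a0f)) e e))))))))))))))))))))))))))
 (c (a (nat_lit 0x101eac00))
 (c (b (nat_lit 0xfe3ca00)) e
 (c (b (nat_lit 0xfe53a00)) e
 (c (b (nat_lit 0xfe33801)) e
 (c (b (nat_lit 0xfe2d201)) e
 (c (b (nat_lit 0xfe40201)) e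
 (c (nat_lit 0x7f4a27f4a27f4a27f4a27f49d7f49d7f49ec9601) e
 (c (b (nat_lit 0xf665801)) e
 (c (b (nat_lit 0xf9e9c03)) e
 (c (nat_lit 0x7f8b47f8b47f8b47f8b47f5e07f8b47f8b488883) e
 (c (b (nat_lit 0xfec3403)) e
 (c z e
 (c z e
 (c z e
 (c z e
 (c (b (nat_lit 0xf971e07)) e
 (c z e
 (c (nat_lit 0x80000800007ff0080000800008000080000bf887) e
 (c (b (nat_lit 0xffca207)) e
 (c (b (nat_lit 0xfff580d)) e
 (c z e
 (c (b (nat_lit 0x1007320f)) e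
 (c z e
 (c z e
 (c (nat_lit 0x7fbef8000080000800008000080000800007ec0f) e
 (c (nat_lit 0x800007fbf98000080000800008000080000b1d1d) e e)))))))))))))))))))))))))
 (c (a (nat_lit 0x101e1200))
 (c (b (nat_lit 0xfcf7c01)) e
 (c (b (nat_lit 0xfe0f801)) e
 (c (b (nat_lit 0xfe39801)) e
 (c (b (nat_lit 0xfe55801)) e
 (c (b (nat_lit 0xfc53c01)) e
 (c z e
 (c (b (nat_lit 0xfacfc03)) e
 (c (b (nat_lit 0xfda0a03)) e
 (c z e
 (c z e
 (c z e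
 (c z e
 (c z e
 (c (b (nat_lit 0x102c3a07)) e
 (c (b (nat_lit 0x104ac807)) e
 (c z e
 (c z e
 (c z e
 (c z e
 (c (b (nat_lit 0xfff020f)) e
 (c z e
 (c z e
 (c (b (nat_lit 0xfff881d)) e e))))))))))))))))))))))) tt563))))) Tr.c Tr.e (nat_lit 0) C.t6 C.t7
noncomputable def tt565 : Tr := beta% (fun (c : Nat → Tr → Tr → Tr) (e : Tr) (z : Nat) (a b d f : Nat → Nat) =>
 (c (a (nat_lit 0x101ffc00))
 (c (b (nat_lit 0xfdff200)) tt564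
 (c (b (nat_lit 0xfe02800)) tt562
 (c (b (nat_lit 0xfdff600)) tt561
 (c (b (nat_lit 0xfe03c00)) tt560
 (c (b (nat_lit 0xfe00e00)) tt559
 (c (b (nat_lit 0xfdfda00)) tt558
 (c (b (nat_lit 0xfe01400))
 (c (d (nat_lit 0x101fb601))
 (c (f (nat_lit 0xf315607)) e
 (c z e
 (c z e
 (c z e
 (c z e
 (c (f (nat_lit 0xfcf1c0f)) e
 (c (f (nat_lit 0xfe71a0f)) e
 (c z e
 (c z e
 (c (f (nat_lit 0xfff5a0f)) e e))))))))))
 (c (d (nat_lit 0x101fe401))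
 (c z e
 (c z e
 (c z e
 (c (f (nat_lit 0x104cbe0f)) e
 (c z e
 (c (f (nat_lit 0xffdc00f)) e e))))))
 (c (d (nat_lit 0x101fc401))
 (c z e
 (c (f (nat_lit 0x10a9760f)) e e))
 (c (d (nat_lit 0x101f7a01)) e
 (c z e
 (c (nat_lit 0x80d1180cbd80ccf80d1180d1180d1152d43) e
 (c (nat_lit 0x80e3780e3780e2a80e3780e3780e3750483) e
 (c (nat_lit 0x809f8809f8809f88096580974809f8e4f43) e
 (c z e
 (c (d (nat_lit 0x102cbc03)) e
 (c (d (nat_lit 0x105b0a05)) e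
 (c (d (nat_lit 0x102f1807)) e
 (c (d (nat_lit 0x100fca07)) e
 (c (d (nat_lit 0xffc3207)) e
 (c z e
 (c z e
 (c (d (nat_lit 0x1013ca0d)) e
 (c (d (nat_lit 0x10151c0f)) e
 (c (nat_lit 0x8060f8060f8060f805e78060f8060f992cf) e
 (c z e
 (c (d (nat_lit 0xfff000f)) e
 (c (d (nat_lit 0x1035da0f)) e e)))))))))))))))))))))) tt557)))))))
 (c (a (nat_lit 0x101ff600)) tt556
 (c (a (nat_lit 0x10200200))
 (c (b (nat_lit 0xfdffe00)) tt551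
 (c (b (nat_lit 0xfe01200)) tt550
 (c (b (nat_lit 0xfdffa00))
 (c (d (nat_lit 0x1013de00)) e
 (c (d (nat_lit 0x101fac00)) e
 (c (d (nat_lit 0x10165001)) e
 (c (nat_lit 0x81015810158101481014810148101400501) e
 (c (d (nat_lit 0x101ff401)) e
 (c z e
 (c z e
 (c (d (nat_lit 0x101c1c03)) e
 (c (d (nat_lit 0x1026b203)) e
 (c z e
 (c z e
 (c z e
 (c z e
 (c (d (nat_lit 0x101cd207)) e
 (c z e
 (c (d (nat_lit 0x100e3607)) e
 (c z e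
 (c z e
 (c z e
 (c z e
 (c z e
 (c (d (nat_lit 0xfff6813)) e
 (c (d (nat_lit 0x100abc15)) e
 (c z e
 (c (d (nat_lit 0xfff9219)) e e))))))))))))))))))))))))) tt549)))
 (c (a (nat_lit 0x101ff200)) tt548
 (c (a (nat_lit 0x101ffc00)) tt545
 (c (a (nat_lit 0x10200200)) tt544
 (c (a (nat_lit 0x101ffe00)) tt543
 (c (a (nat_lit 0x10200000)) tt542
 (c (a (nat_lit 0x101ffa00))
 (c (b (nat_lit 0xff07c00))
 (c (nat_lit 0x7ab217ab217ab097ab217ab217ab2122607) e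
 (c z e
 (c z e
 (c z e
 (c z e
 (c z e
 (c z e
 (c (nat_lit 0x82ca082c8c82ca082ca082ca082ca06238c) e
 (c (nat_lit 0x83ee083ee083ed183ee083ee083ee03cda0) e e)))))))))
 (c (b (nat_lit 0xfe00c00))
 (c z e
 (c (nat_lit 0x7b24a7b13a7b24a7b24a7b24a7b24a13f07) e
 (c z e
 (c (d (nat_lit 0x10726e09)) e
 (c z e
 (c z e
 (c (d (nat_lit 0x10779e14)) e e)))))))
 (c (b (nat_lit 0xfe00401))
 (c (nat_lit 0x80000800007faae800008000080000170c9) e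
 (c (d (nat_lit 0x10230809)) e
 (c (d (nat_lit 0x100d7809)) e
 (c z e
 (c (d (nat_lit 0x1044a411)) e
 (c (d (nat_lit 0x105d0c14)) e
 (c z e
 (c (nat_lit 0x8000080000800007fef37fef37ff0c83820) e e))))))))
 (c (b (nat_lit 0xfe01201))
 (c z e
 (c (d (nat_lit 0x103ade0c)) e e))
 (c (b (nat_lit 0xfdfea01)) e
 (c z e
 (c (b (nat_lit 0xfb75c01)) e
 (c (nat_lit 0x7efdd7efdd7efdc7efdd7efdd8ae03) e
 (c (nat_lit 0x7e7197e6e17e6e17e7067e719bf963) e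
 (c (b (nat_lit 0x1024d803)) e
 (c z e
 (c (b (nat_lit 0xfd82203)) e
 (c (nat_lit 0x7d6157d6137d6157d6157d61592b65) e
 (c (nat_lit 0x7d4fd7d4d67d4e17d4fd7d4fd977c7) e
 (c (nat_lit 0x7e89d7e89d7e89d7e8957e89d1e6e7) e
 (c z e
 (c z e
 (c (nat_lit 0x7ef1b7ef197ef1b7ef1b7ef1b27b47) e
 (c (b (nat_lit 0xff3c209)) e
 (c (nat_lit 0x7fd047fd047fd047fc407fc40a8d69) e
 (c (nat_lit 0x7efa47efe47efe47efe47efe43e609) e
 (c (nat_lit 0x7ffb07ffb07ff847ffb07ffb07cc0c) e e))))))))))))))))))))))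
 (c (nat_lit 0x80ff980ffa80ffa80ff936640)
 (c (nat_lit 0x7f02b7f0197f0197f0187f01a56d21)
 (c z e
 (c (nat_lit 0x8000080000800007fef6800008000094588) e
 (c (nat_lit 0x800008000080000800007ffa580000cf708) e
 (c (d (nat_lit 0x10630a09)) e
 (c (d (nat_lit 0x10914a09)) e
 (c (d (nat_lit 0x1100040c)) e
 (c (nat_lit 0x800008000083b4f83b4f83b4f83b4f46a60) e e)))))))
 (c (nat_lit 0x7f0267f0267f01a7f01b7f01cd8e61)
 (c (nat_lit 0x80000800007ff0680000800008000071849) e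
 (c (d (nat_lit 0x103d4609)) e
 (c (d (nat_lit 0x1025ae09)) e e)))
 (c (b (nat_lit 0xfdff801))
 (c (d (nat_lit 0x103dac09)) e
 (c z e
 (c (d (nat_lit 0x103d9e11)) e
 (c (d (nat_lit 0xfff8e14)) e e))))
 (c (b (nat_lit 0xff23601)) e
 (c (b (nat_lit 0xfef7801)) e
 (c (b (nat_lit 0xfd9f803)) e
 (c (b (nat_lit 0xfbeae03)) e
 (c z e
 (c z e
 (c (b (nat_lit 0xfb59803)) e
 (c (b (nat_lit 0xfb30205)) e
 (c (b (nat_lit 0xfa36807)) e
 (c (nat_lit 0x7eb0f7eb0f7eb0f7ead37eb0f1eee7) e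
 (c z e
 (c z e
 (c (b (nat_lit 0xfde2e07)) e
 (c (nat_lit 0x7f7547f7547f7517f7547f754bba49) e
 (c (b (nat_lit 0xfe97609)) e
 (c (b (nat_lit 0xfe9ae09)) e
 (c (nat_lit 0x7e8937e8937f1327f1327f1323ae49) e
 (c (nat_lit 0x7ffb97ffb97ff717ffb97ffb9a120c) e e))))))))))))))))))))) tt541))))))))))) Tr.c Tr.e (nat_lit 0) C.t4 C.t5 C.t6 C.t7
noncomputable def tt566 : Tr := beta% (fun (c : Nat → Tr → Tr → Tr) (e : Tr) (z : Nat) (a b d : Nat → Nat) =>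
 (c (a (nat_lit 0xfe00000))
 (c (nat_lit 0x80ffd80ffe80ffe80fffdf001)
 (c (nat_lit 0x7f4da7f4da7f4d67f4d67f4c086185) e
 (c (nat_lit 0x7f4e07f4e07f4d17f4cc7f4e0b1d65) e
 (c (nat_lit 0x7f2fe7f2fe7f2b97f2b97f2fef1445) e
 (c (d (nat_lit 0xff9fa05)) e
 (c (d (nat_lit 0xed47205)) e
 (c (nat_lit 0x80000800007d5fe7d5fe7d5fe9af70) e e))))))
 (c (nat_lit 0x80ffc80ffc80ffc80ffb51c71)
 (c (nat_lit 0x7f20c7f11e7f11e7f20c7f20c638a5) e
 (c (d (nat_lit 0xfa78405)) e e))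
 (c (nat_lit 0x7ff577ff577ff587ff5888891) e
 (c (nat_lit 0x7dc8c7dc8d7dc8c7dc8dfd031) e
 (c (nat_lit 0x80100800f880114801132f101) e
 (c (nat_lit 0x8010a801098010080109ae8b3) e
 (c (nat_lit 0x810bf810c0810c0810c0b3453) e
 (c (nat_lit 0x7fb947fb947fb947fb8c75843) e
 (c (b (nat_lit 0x10032203)) e
 (c (nat_lit 0x8087680876808778087729a63) e
 (c (b (nat_lit 0x10010604)) e
 (c (nat_lit 0x807be807bf807bf807c0f04e4) e
 (c (nat_lit 0x807c3807c4807c5807c5040b4) e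
 (c (nat_lit 0x804158041580416804161bd94) e
 (c (nat_lit 0x8041a8041a804188041873694) e
 (c (nat_lit 0x80423804208041e80418cf454) e
 (c (nat_lit 0x8040780406803ff8040044ce4) e
 (c (nat_lit 0x803e0803e0803df803d96aab4) e
 (c (nat_lit 0x803da803d7803da803d9e3495) e
 (c (nat_lit 0x803dd803dd803d5803de5f7c5) e
 (c (nat_lit 0x801f8803c9803c9803b5599d5) e
 (c (nat_lit 0x80025801df803d5803d5efee5) e
 (c (nat_lit 0x800b6800b6800c4800c513995) e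
 (c (nat_lit 0x8000080000800007fde7ee5f5) e e))))))))))))))))))))))))
 (c (nat_lit 0x7effe7effe7effd14b38)
 (c (nat_lit 0x80e0d80e0c80e0c80dff46e61)
 (c (nat_lit 0x800008000080000800007fbb2130c4) e e)
 (c (nat_lit 0x7fa827fa837fa837fa8336c91) e
 (c (nat_lit 0x7fe2f7fe227fe3b7fe35cb291) e
 (c (nat_lit 0x7fbdc7fbdb7fbd97fbdcd44f3) e
 (c (nat_lit 0x7fc0a7fc0a7fbdb7fbec43c93) e
 (c (nat_lit 0x7f0bf7f0c07f0c17f052278d3) e
 (c (nat_lit 0x8024780248802488024831b83) e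
 (c (nat_lit 0x812a9812b2812b3812b2f60c3) e
 (c (nat_lit 0x8009c8009d8009d8009c3cce4) e
 (c (nat_lit 0x81a7e81a7e81a7e81a7fdcb64) e
 (c (nat_lit 0x81b3d81b3c81b3d81b3d09eb4) e
 (c (nat_lit 0x8036680365803648034bd0794) e
 (c (nat_lit 0x8039980391803988034aff8c4) e
 (c (nat_lit 0x803bd803bd803b7803bd2e474) e
 (c (nat_lit 0x803f5803ef803de803ded9814) e
 (c (nat_lit 0x804288041a80411804281c4a4) e
 (c (nat_lit 0x8011e80456804398045090dc4) e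
 (c (nat_lit 0x8000080000803d7803da56244) e
 (c (nat_lit 0x800008000080000800e87a154) e
 (c z e
 (c z e
 (c z e
 (c (nat_lit 0x8000080000800007fffae0e65) e e)))))))))))))))))))))))
 (c (a (nat_lit 0xfe00000))
 (c (b (nat_lit 0x10062001)) e
 (c (nat_lit 0x7ff387ff377ff337ff38189d3) e
 (c (nat_lit 0x7fccf7fccf7fcd07fcd00c7c3) e
 (c (b (nat_lit 0x1007cc03)) e
 (c (b (nat_lit 0x1003a203)) e
 (c (nat_lit 0x80eca80ecb80ecb80eca31483) e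
 (c (nat_lit 0x80281802818028180282f7864) e
 (c (nat_lit 0x81cba81cbc81cbc81cba48ee4) e
 (c (nat_lit 0x81d7b81d7b81d7b81d7c87994) e
 (c (b (nat_lit 0x10070c04)) e
 (c (nat_lit 0x80312803118030b80306dd434) e
 (c (nat_lit 0x803148031480315803172f704) e
 (c (nat_lit 0x803268032880327803160bbb4) e
 (c (nat_lit 0x8034e8034d8033f802fe67134) e
 (c (nat_lit 0x8043a80431803498033f65534) e
 (c (nat_lit 0x802bc804338042c8035944884) e
 (c (nat_lit 0x80000800008042b80427a0ae4) e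
 (c (nat_lit 0x8000080000800008037c7dd24) e e))))))))))))))))))
 (c (nat_lit 0x7f0007efff7efff6e078)
 (c (nat_lit 0x7f2c77f2c77f2c47f2c3a5963) e
 (c (nat_lit 0x8073980738807388073877fb3) e
 (c (b (nat_lit 0x10073003)) e
 (c (nat_lit 0x8100c8100c8100b8100b9ed43) e
 (c (nat_lit 0x81045810458104481043c3cb4) e
 (c (nat_lit 0x82e3782e3882e3782e374c384) e
 (c (nat_lit 0x813f6813f8813f8813f714b04) e
 (c (nat_lit 0x8121d8121d8121d8121e24b34) e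
 (c (nat_lit 0x80d5080d5180d5080d50ce164) e
 (c (nat_lit 0x80d6c80d6c80d6c80d6b12654) e
 (c (nat_lit 0x80d7e80d7980d7980d7eaf914) e
 (c (nat_lit 0x80d7a80d7a80d7580d72eb404) e
 (c (nat_lit 0x80d8d80d8d80d8d80d7a90374) e
 (c (nat_lit 0x80f5080f5380db380d9872c54) e
 (c (nat_lit 0x80bec8133780f6a80dbc74a14) e
 (c (nat_lit 0x80000800008134280f723b0f4) e
 (c (nat_lit 0x80000800008000080deb90f64) e e)))))))))))))))))
 (c (a (nat_lit 0xfdffe00))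
 (c (b (nat_lit 0xfebf203)) e
 (c (nat_lit 0x8451584517845188451798593) e
 (c (nat_lit 0x82d7782d7982d7982d7807174) e
 (c (nat_lit 0x82a8782a8882a8982a891ce04) e
 (c (nat_lit 0x812488124a8124a8124a7e964) e
 (c (nat_lit 0x80fdc80fde80fdf80fdef35d4) e
 (c (nat_lit 0x81003810028100081000a20c4) e
 (c (nat_lit 0x8101e8101f8101f8101e31e84) e
 (c (nat_lit 0x8101f8101e8101f810215f354) e
 (c (nat_lit 0x8101e8101d8101a8101a56274) e
 (c (nat_lit 0x8100f810118100f8100b7a334) e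
 (c (nat_lit 0x8103f810418102d81012991c4) e
 (c (nat_lit 0x810658106c8103c81029cf704) e
 (c (nat_lit 0x8001981055810658103653634) e
 (c (nat_lit 0x8000080000810408101f01bb4) e
 (c (nat_lit 0x8000080000800008102e1d094) e e))))))))))))))))
 (c (a (nat_lit 0xfdffa00))
 (c (nat_lit 0x8589a8589e8589f8589f99ab4) e
 (c (nat_lit 0x825c5825c5825c6825c5d5d54) e
 (c (nat_lit 0x812f2812f2812f4812f5d5504) e
 (c (nat_lit 0x81066810a1810a2810a4fb1e4) e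
 (c (nat_lit 0x80ffa810798107a8107adc4e4) e
 (c (nat_lit 0x810a2810a5810a5810a4cc574) e
 (c (nat_lit 0x8106f8107c8107f81080e04b4) e
 (c (nat_lit 0x810308103d8104d8105026fe4) e
 (c (nat_lit 0x8100f81013810188101b4f724) e
 (c (nat_lit 0x80ff480ff480ff480ff771e64) e
 (c (nat_lit 0x80fe380ff78100a80ff4e4094) e
 (c (nat_lit 0x80ff180fbb80fd380fdef34c4) e
 (c (nat_lit 0x8002f8118a80f9080f9143d34) e
 (c (nat_lit 0x80000800008115880eb4a9e44) e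
 (c (nat_lit 0x80000800008000080ef3cd8f4) e e)))))))))))))))
 (c (a (nat_lit 0xfe00000)) e
 (c (a (nat_lit 0xfdffe00)) e
 (c (a (nat_lit 0xfdffc00)) e
 (c (a (nat_lit 0xfdffe00)) e
 (c (a (nat_lit 0xfdffe00)) e
 (c (nat_lit 0x7effe7efff7efff7c3f0) e
 (c (a (nat_lit 0xfdffc00)) e
 (c (a (nat_lit 0xfdffc00)) e
 (c (nat_lit 0x7efff7effe7effed70d8) e
 (c (nat_lit 0x7effe7efff7effe20c00) e
 (c (nat_lit 0x7effe7effe7efff33e10) e
 (c (nat_lit 0x7f0007effe7effe8cd40) e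
 (c (nat_lit 0x7f0027f0007effe40239) e
 (c (nat_lit 0x7f0037f0037f0005a081) e
 (c (nat_lit 0x7f00e7f00e7f0042bf29) e
 (c (a (nat_lit 0xfe09601)) e
 (c (nat_lit 0x7effe7effd7f000defc1) e
 (c (nat_lit 0x7fa3b7fa397fa3b6ed5b) e
 (c (nat_lit 0x7fa3d7fa3e7fa3ac5f63) e
 (c (a (nat_lit 0x10045003)) e
 (c (a (nat_lit 0x101bac03)) e
 (c (a (nat_lit 0xfcb7e03)) e e))))))))))))))))))))))))))))) Tr.c Tr.e (nat_lit 0) C.t3 C.t4 C.t5
noncomputable def tt567 : Tr := beta% (fun (c : Nat → Tr → Tr → Tr) (e : Tr) (z : Nat) (a b : Nat → Nat) =>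
 (c (nat_lit 0x81003810048100481003ea9d0)
 (c (b (nat_lit 0xffd1804)) e
 (c (nat_lit 0x7f3667f3667f3667f2fc7f30babb44) e
 (c (b (nat_lit 0xfe8ae04)) e
 (c (nat_lit 0x7f38d7f38d7f38d7f38d7f375e5d44) e
 (c (nat_lit 0x7f5fe7f5fe7f5fe7f5fe7f5352f465) e
 (c (nat_lit 0x7ec707ec707ec707ec6d7ec4d8ada5) e
 (c (b (nat_lit 0xffb5605)) e
 (c (b (nat_lit 0xfafae05)) e
 (c (nat_lit 0x7ff9b7fd707fd708000080000e9d05) e e)))))))))
 (c (nat_lit 0x81001810018100181002ec540)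
 (c (nat_lit 0x7f4ad7f4ad7f4ab7f4ac7f4ad06824) e
 (c (b (nat_lit 0xfe8f804)) e
 (c (nat_lit 0x7f4497f4497f4497f4497f407cd065) e
 (c (nat_lit 0x7f5667f5557f5557f5667f5665ffe5) e
 (c (b (nat_lit 0xfd6a005)) e
 (c z e
 (c (nat_lit 0x7f26b7e1b37e1b37f26b7f26b771c5) e
 (c (nat_lit 0x7fd997fcc87fcc87fd997fd9927589) e e))))))))
 (c (nat_lit 0x80ffc80ffc80ffc80ffa50b10)
 (c (b (nat_lit 0xfe90e05)) e
 (c (b (nat_lit 0xfe8b205)) e
 (c (nat_lit 0x7fb1f7fb1f7fa937fa937fb1f89585) e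
 (c z e
 (c z e
 (c z e
 (c (nat_lit 0x7fdda7fd727fdda7fdda7fdda51869) e e)))))))
 (c (nat_lit 0x81004810028100281002dfc60)
 (c (nat_lit 0x7f7037f5387f5387f6c07f70307385) e
 (c (nat_lit 0x7fb467fbdf7fbdf7fbdf7fbdf44025) e
 (c (nat_lit 0x800007ffa97ffa9800007fe4933f45) e
 (c z e
 (c (b (nat_lit 0xfda7610)) e e)))))
 (c (nat_lit 0x81000810008100080fff49761)
 (c (nat_lit 0x7f8677f8677f9bf7f9bf7f9bf09e65) e e)
 (c (nat_lit 0x80ffa80ffa80ffb80ffac7111)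
 (c (nat_lit 0x800008000080000800007fecad1ec5) e e)
 (c (a (nat_lit 0xfe7de01)) e
 (c (nat_lit 0x7e39a7e39a7e3997e3990d161) e
 (c (nat_lit 0x809ca809ca809c9809c92ece1) e
 (c (nat_lit 0x809db809d9809d7809db26773) e
 (c (nat_lit 0x809ce809ce809cf809ce09d13) e
 (c (a (nat_lit 0x10130a03)) e
 (c (a (nat_lit 0x1007ca03)) e
 (c (nat_lit 0x80ee180ee280ee380ee2b34a3) e
 (c (a (nat_lit 0x100dcc04)) e
 (c (nat_lit 0x806f2806f2806f2806f3a0634) e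
 (c (nat_lit 0x8070d8070e8070f8070eddc74) e
 (c (nat_lit 0x80438804388043680433d59b4) e
 (c (nat_lit 0x804be804bc80444804411c534) e
 (c (nat_lit 0x804f2804ee804cf80412355f4) e
 (c (nat_lit 0x804e8804e9804e9804cfcbff5) e
 (c (nat_lit 0x804e4804e3804e3804e2391c5) e
 (c (nat_lit 0x80453804d1804ac804ac11715) e
 (c (nat_lit 0x80195804d5804d7804d6b3a55) e
 (c (nat_lit 0x8024b8024a8024c8024c96975) e
 (c z e
 (c z e
 (c z e
 (c z e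
 (c (nat_lit 0x8000080000800008019567207) e e))))))))))))))))))))))))))))))) Tr.c Tr.e (nat_lit 0) C.t4 C.t5
noncomputable def tt568 : Tr := beta% (fun (c : Nat → Tr → Tr → Tr) (e : Tr) (z : Nat) (a b : Nat → Nat) =>
 (c (nat_lit 0x80ffb80ffb80ffb80ffcaf6d0)
 (c z e
 (c (nat_lit 0x7f1527f14f7f15b7f1bf7f1bf245a4) e
 (c (nat_lit 0x7f0307f0167f0307f0307f0309cc44) e
 (c (nat_lit 0x7dc517dc4f7dc607dc767dc764fcc4) e
 (c (nat_lit 0x7da8d7dac77dab97daa07dac908a44) e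
 (c (nat_lit 0x7dd607dd5b7dd577dd607dd60b3384) e
 (c (nat_lit 0x7d2807d2517d2787d2807d28049b85) e
 (c (b (nat_lit 0xf8dea05)) e
 (c (b (nat_lit 0xfa63e05)) e
 (c (b (nat_lit 0xfc8a205)) e
 (c (b (nat_lit 0xfc13205)) e e)))))))))))
 (c (nat_lit 0x80ff880ff880ff780ff706590)
 (c (b (nat_lit 0xffa2e04)) e
 (c (nat_lit 0x7ea3d7ea3d7ea087ea3d7ea3d64984) e
 (c (nat_lit 0x7e8077e8077e8077e7d57e807cde04) e
 (c (nat_lit 0x7e7ac7e7ac7e79b7e7827e77cd9464) e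
 (c (nat_lit 0x7e9c07e9c07e9c07e9387e93581de5) e
 (c (nat_lit 0x7df597df597df597df597debf8b9a5) e
 (c (b (nat_lit 0xfcb3205)) e
 (c (b (nat_lit 0xfc8ae05)) e
 (c (nat_lit 0x7f1b07f2517f2517f2517f2516d545) e
 (c (nat_lit 0x7f4c27f4d27f4a07f4d77f4d7d7ca9) e e))))))))))
 (c (nat_lit 0x81001810018100281002be050)
 (c (nat_lit 0x7e8af7e8e17e8e17e8e17e8e18a7a4) e
 (c (nat_lit 0x7e88a7e88a7e8b77e8b77e8b7597a4) e
 (c (nat_lit 0x7e7c57e7a37e7a37e7c57e7c584845) e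
 (c (b (nat_lit 0xfd23405)) e
 (c (nat_lit 0x7dd297dd297db227db227dd29021a5) e
 (c (nat_lit 0x7e6197e6197e6197e4747e47475565) e
 (c (nat_lit 0x7f5747f5747f5747f5747f47a06ba5) e
 (c (b (nat_lit 0xff1d009)) e
 (c (nat_lit 0x7f1247f1177f1247f1247f124bb629) e e)))))))))
 (c (nat_lit 0x80ffd80ffe80ffe80ffea3690)
 (c (nat_lit 0x7e8887e8787e8787e8887e888df545) e
 (c (nat_lit 0x7e7de7e7de7e7d17e7d37e7deec185) e
 (c (b (nat_lit 0xfdb2c05)) e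
 (c (b (nat_lit 0xfcf9605)) e
 (c (nat_lit 0x7e24a7e24a7e24a7e22e7e22ea1545) e
 (c (b (nat_lit 0xfef2809)) e
 (c (b (nat_lit 0xfffd609)) e e)))))))
 (c (nat_lit 0x8100081000810008100120560)
 (c (b (nat_lit 0xf5a4605)) e
 (c (b (nat_lit 0xfa6d605)) e
 (c (nat_lit 0x7d1437d1437d1437cff47cff42d8c5) e
 (c (nat_lit 0x7c2057c1697c2057c2057c2056f330) e
 (c (nat_lit 0x80000800007f5498000080000de650) e e)))))
 (c (nat_lit 0x80ffe80ffd80ffd80ffc4b490)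
 (c (b (nat_lit 0xff60c05)) e
 (c (nat_lit 0x7e6b37e5727e5727e6b37e6b3ac190) e
 (c (nat_lit 0x7cba87cba87c55d7cba87cba881c50) e e)))
 (c (nat_lit 0x80ffe810008100081001ab741) e
 (c (a (nat_lit 0x10200001)) e
 (c (a (nat_lit 0xfb23401)) e
 (c (nat_lit 0x805a8805a7805a7805a7226a1) e
 (c (nat_lit 0x80db080db080daf80daf617f1) e
 (c (nat_lit 0x81587815858157d81586fd383) e
 (c (nat_lit 0x81577815778157781576407b3) e
 (c (a (nat_lit 0xfef5803)) e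
 (c (nat_lit 0x7f9527f9527f9527f9532bc73) e
 (c (nat_lit 0x8104e810528106381064c7783) e
 (c (a (nat_lit 0x10109804)) e
 (c (nat_lit 0x80fe180fe180fe280fe3a63d4) e
 (c (nat_lit 0x80fb080fb480fb580fb41c9b4) e
 (c (nat_lit 0x80f7680fac80fae80fb0ea3e4) e
 (c (nat_lit 0x80f8e80f9e80fb780fc92daa4) e
 (c (nat_lit 0x80f9280f9380f9480f91c27b5) e
 (c (nat_lit 0x80f9080f8f80f9080f914abb5) e
 (c (nat_lit 0x8060b80f7e80f6380f634b035) e
 (c (nat_lit 0x80582805d080b9880b9808c35) e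
 (c (nat_lit 0x805b4805b5805b7805b66fca5) e
 (c (nat_lit 0x8000080000800008000823f05) e
 (c z e
 (c z e
 (c (nat_lit 0x8000080000800007fd8cdcb27) e
 (c (nat_lit 0x80000800008087f8087f64907) e e)))))))))))))))))))))))))))))))) Tr.c Tr.e (nat_lit 0) C.t4 C.t5
noncomputable def tt569 : Tr := beta% (fun (c : Nat → Tr → Tr → Tr) (e : Tr) (z : Nat) (a b : Nat → Nat) =>
 (c (a (nat_lit 0x100f8a00))
 (c (b (nat_lit 0x1020de03)) e
 (c z e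
 (c z e
 (c z e
 (c (b (nat_lit 0xfe9cc04)) e
 (c (nat_lit 0x7f64e7f6227f6817f6817f6812bfe4) e
 (c (nat_lit 0x7e4c27e45c7e4a37e4c27e4c255884) e
 (c (nat_lit 0x7dad27dad27daa97dad27dad2d01a4) e
 (c (nat_lit 0x7d9487d9467d9407d9487d948cd685) e
 (c (b (nat_lit 0xf94aa05)) e
 (c (b (nat_lit 0xff48605)) e
 (c z e
 (c (b (nat_lit 0xfc4a005)) e
 (c z e
 (c (nat_lit 0x8000080000800007ffef800005e247) e
 (c (nat_lit 0x800008000080000800007fffc71d47) e e))))))))))))))))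
 (c (a (nat_lit 0x10200400))
 (c z e
 (c z e
 (c (b (nat_lit 0x10023204)) e
 (c (nat_lit 0x7ecf17ece07ecf47ecf47ecf415884) e
 (c (nat_lit 0x7da607da287da397da397da600fb04) e
 (c (nat_lit 0x7dcc27dcc27dc5f7dca27dcc208064) e
 (c (nat_lit 0x7d3097d2e77d3097d3097d309a2ea5) e
 (c (nat_lit 0x7b2ae7b25d7b2ae7b2ae7b2ae99e45) e
 (c (b (nat_lit 0xff78a05)) e
 (c z e
 (c (b (nat_lit 0xffff005)) e
 (c (b (nat_lit 0xfaf5c09)) e
 (c z e
 (c (nat_lit 0x800008000080000805b1805cfe9e87) e e))))))))))))))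
 (c (nat_lit 0x810038100381003810026fa90)
 (c (b (nat_lit 0xffa5204)) e
 (c (nat_lit 0x7fc957fc797fc957fc957fc95c6c04) e
 (c (nat_lit 0x7e9227e9227e8f47e9227e922e74a4) e
 (c (nat_lit 0x7e77d7e77d7e77d7e7657e77df5a64) e
 (c (nat_lit 0x7e9997e9997e9807e9997e99922945) e
 (c (nat_lit 0x7deea7ddd17ddd17deea7deea137e5) e
 (c (b (nat_lit 0xfc9c605)) e
 (c z e
 (c (nat_lit 0x7f3157f3157f3157f3157f201e00c5) e
 (c (b (nat_lit 0xfd7ea09)) e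
 (c (nat_lit 0x7e5647e5627e5647e5647e564a09a9) e e)))))))))))
 (c (a (nat_lit 0x10200000))
 (c (nat_lit 0x7ea387ea727ea7f7ea917ea9115b64) e
 (c (nat_lit 0x7e9277e92e7e95b7e95b7e95b707e4) e
 (c (b (nat_lit 0xfd02205)) e
 (c (nat_lit 0x7e9b97e7bf7e9b97e9b47e9b9e8945) e
 (c (b (nat_lit 0xfaffc05)) e
 (c (nat_lit 0x7e59f7e59f7e59f7e59f7e3f006045) e
 (c (b (nat_lit 0xfc64c05)) e
 (c (nat_lit 0x7f5737f5737f54c7f54c7f573a7b49) e
 (c (nat_lit 0x7ffc87ffc87ffc8800008000051c49) e e)))))))))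
 (c (a (nat_lit 0x101ffc00))
 (c (nat_lit 0x7e90a7e90a7e9097e9137e9133bc25) e
 (c (nat_lit 0x7e8667e8297e8297e84f7e86188505) e
 (c (nat_lit 0x7f3617f3617f3187f3187f361f9565) e
 (c (b (nat_lit 0xfe9cc05)) e
 (c (nat_lit 0x7c60d7c60d7c6437c6437c643ce525) e
 (c (b (nat_lit 0xfd22c09)) e
 (c (b (nat_lit 0x1004ca09)) e e)))))))
 (c (nat_lit 0x810038100181001810022dbe0)
 (c (nat_lit 0x7e8837e78b7e78b7e8837e883eac25) e
 (c (b (nat_lit 0xfc95205)) e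
 (c (b (nat_lit 0xf943e05)) e
 (c (nat_lit 0x7c8bb7c8bb7c8287c8287c8bb90410) e
 (c (nat_lit 0x7d83c7d83c7d80c7d83c7d83c21830) e e)))))
 (c (nat_lit 0x80ffd80ffd80ffd80fff5db90)
 (c (b (nat_lit 0xfd74805)) e
 (c (nat_lit 0x7e2e97e2457e2457e2e97e2e921ce8) e
 (c (nat_lit 0x7d51b7d51b7d4607d4607d51b30bf0) e
 (c (b (nat_lit 0x10164610)) e e))))
 (c (a (nat_lit 0x10200200))
 (c (nat_lit 0x80000800007fff57fff580000ace08) e e)
 (c (a (nat_lit 0x101ffe01)) e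
 (c (nat_lit 0x810188101b8100681006ce351)
 (c (nat_lit 0x80000800008000081cff81cff9c2a8) e e)
 (c (nat_lit 0x8074280742807438074236a61) e
 (c (nat_lit 0x7f9387f9387f9377f938d3311) e
 (c (nat_lit 0x8137e8137e8137e8137f2d171) e
 (c (nat_lit 0x814bd814bd814bc814bc7ab43) e
 (c (nat_lit 0x814bc814bc814bc814bb14693) e
 (c (nat_lit 0x8026a8026b8026b8026ba6383) e
 (c (nat_lit 0x800ae800af800af800af805d3) e
 (c (nat_lit 0x81089810838108a8108be9423) e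
 (c (nat_lit 0x80a8980a8a80a8780a8b8f5f4) e
 (c (nat_lit 0x80f8780f8880f8a80f8a21374) e
 (c (nat_lit 0x80f1080f4880f4e80f4f66b94) e
 (c (nat_lit 0x80eee80f0780f1e80f1f11c54) e
 (c (nat_lit 0x80edb80edc80edd80edbe35d5) e
 (c (a (nat_lit 0x101db405)) e
 (c (nat_lit 0x80ec380ec380ebf80ec2f8885) e
 (c (nat_lit 0x8095b8095880e9880e9890215) e
 (c (nat_lit 0x808cd808cd809198091a4e475) e
 (c z e
 (c z e
 (c z e
 (c z e
 (c (nat_lit 0x8000080cfa80cfb80cfad1517) e e))))))))))))))))))))))))))))))))) Tr.c Tr.e (nat_lit 0) C.t4 C.t5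
noncomputable def tt570 : Tr := beta% (fun (c : Nat → Tr → Tr → Tr) (e : Tr) (z : Nat) (a b d : Nat → Nat) =>
 (c (a (nat_lit 0x1012fc00))
 (c (b (nat_lit 0xf751001))
 (c z e
 (c (d (nat_lit 0xfd3a605)) e
 (c (d (nat_lit 0xfbbec07)) e
 (c z e
 (c z e
 (c (nat_lit 0x8000080000800007fffb7fffb800002aa87) e e))))))
 (c (nat_lit 0x7ff147ff0e800008000080000a8cc1)
 (c (d (nat_lit 0xf8c8a07)) e
 (c z e
 (c z e
 (c (nat_lit 0x80000800008000080000800007fe67cc307) e e))))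
 (c (nat_lit 0x800007ffc97ffc38000080000c1e83)
 (c z e
 (c (d (nat_lit 0xfffde07)) e
 (c (d (nat_lit 0xfffb007)) e e)))
 (c (b (nat_lit 0xfe77603)) e
 (c z e
 (c (b (nat_lit 0x10d8e603)) e
 (c (b (nat_lit 0x1014d203)) e
 (c (b (nat_lit 0x10033c04)) e
 (c (nat_lit 0x808df808df808d8808df808dff8d24) e
 (c (b (nat_lit 0xfdbda04)) e
 (c (nat_lit 0x7d91d7d9007d9107d91c7d91d27545) e
 (c (nat_lit 0x7e65c7e65c7e63d7e6437e642d79c5) e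
 (c (b (nat_lit 0xfdb6005)) e
 (c (b (nat_lit 0xfef2405)) e
 (c (nat_lit 0x7e52f7e5687e5867e5867e5867f865) e
 (c (nat_lit 0x7ebba7eb987ebb17ebba7ebba497c7) e
 (c (b (nat_lit 0xfd5dc07)) e
 (c (b (nat_lit 0xfdc2007)) e
 (c z e
 (c (b (nat_lit 0xff18207)) e e))))))))))))))))))))
 (c (a (nat_lit 0x101ffc00))
 (c z
 (c (nat_lit 0x812da814be814be814be814be814becc087) e
 (c z e
 (c z e
 (c (d (nat_lit 0xfffec07)) e e))))
 (c (nat_lit 0x7f0257f0167f0167f0227f0256b983) e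
 (c z e
 (c z e
 (c (b (nat_lit 0xff51e03)) e
 (c z e
 (c (nat_lit 0x7f0f67f0ea7f0f97f14b7f14beb3e4) e
 (c (nat_lit 0x7e0d47e0d47e0a17e0d47e0d47ad64) e
 (c (b (nat_lit 0xfbe1005)) e
 (c (nat_lit 0x7d24c7d24c7d1f17d2457d24c5f0e5) e
 (c (nat_lit 0x7ea907ea907ea907ea617ea905a545) e
 (c (nat_lit 0x7fec57ff217ff217ff217ff21db4a5) e
 (c (b (nat_lit 0xfca8405)) e
 (c (nat_lit 0x7db6f7db7a7db507db897db8959567) e
 (c (b (nat_lit 0xfb65807)) e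
 (c (nat_lit 0x7dbf07dbf07dbf07dbdf7dbd66fac7) e e))))))))))))))))
 (c (a (nat_lit 0x10200200))
 (c z e
 (c z e
 (c z e
 (c (b (nat_lit 0xff81204)) e
 (c (b (nat_lit 0xfd86004)) e
 (c (b (nat_lit 0xfd14c04)) e
 (c (b (nat_lit 0xfa38405)) e
 (c (nat_lit 0x7d1487d1487d1397d1487d148444a5) e
 (c (b (nat_lit 0xfdfac05)) e
 (c (nat_lit 0x7e27b7e27b7e27b7e27b7e0a15c3a5) e
 (c (b (nat_lit 0xfdc2605)) e
 (c (nat_lit 0x7edf57edd87edd87edd87edf566a47) e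
 (c (nat_lit 0x7d6367d6337d60e7d6367d63681ec7) e
 (c (nat_lit 0x7f7e57f7e57f7e57f7c17f7e516887) e e))))))))))))))
 (c (a (nat_lit 0x10200200))
 (c (b (nat_lit 0xff81803)) e
 (c (nat_lit 0x7fcba7fcbd7fcbd7fcbd7fcbdfa824) e
 (c (b (nat_lit 0xff36e04)) e
 (c (nat_lit 0x7e7bc7e7bc7e7847e7bc7e7bc33b24) e
 (c (nat_lit 0x7e8787e8787e8787e8537e858faf85) e
 (c (nat_lit 0x7df547df547df547df4b7df49ef545) e
 (c (b (nat_lit 0xfd0a405)) e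
 (c (b (nat_lit 0xfd87c05)) e
 (c (nat_lit 0x7f3797f3797f37a7f37a7f37a6b7e5) e
 (c (b (nat_lit 0xfee7207)) e
 (c z e
 (c (b (nat_lit 0xfefae07)) e
 (c z e
 (c (b (nat_lit 0xfec2207)) e e))))))))))))))
 (c (a (nat_lit 0x10200400))
 (c (b (nat_lit 0xff71a04)) e
 (c (b (nat_lit 0xfd49404)) e
 (c (b (nat_lit 0xfd11e05)) e
 (c (b (nat_lit 0xfd20205)) e
 (c (b (nat_lit 0xfa8b805)) e
 (c (b (nat_lit 0xf71dc05)) e
 (c (nat_lit 0x7cde57cde57cde57cdf17cdf1e2145) e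
 (c (b (nat_lit 0xfd82807)) e
 (c (b (nat_lit 0xff0a807)) e
 (c (b (nat_lit 0x1008e407)) e
 (c z e
 (c (nat_lit 0x7f34e7f3097f34e7f34e7f34e6b707) e e))))))))))))
 (c (a (nat_lit 0x101ffc00))
 (c (b (nat_lit 0xfd2fe05)) e
 (c (b (nat_lit 0xfc3d205)) e
 (c (b (nat_lit 0xfe66005)) e
 (c (b (nat_lit 0xfda9005)) e
 (c (b (nat_lit 0xfcaf205)) e
 (c (b (nat_lit 0xfe0a207)) e
 (c (nat_lit 0x7fd787fd787fd707fd707fd782a487) e
 (c (b (nat_lit 0xffdc007)) e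
 (c z e
 (c (b (nat_lit 0xfcb9207)) e e))))))))))
 (c (nat_lit 0x8100581003810038100435600)
 (c (b (nat_lit 0xf98b605)) e
 (c (nat_lit 0x7f5f97f5f97f56f7f56f7f5f9a4b85) e
 (c (b (nat_lit 0xff05a05)) e
 (c (nat_lit 0x7d3927d2e87d2e87d3927d392bd1c7) e
 (c (nat_lit 0x7d31c7d31c7d2cd7d31c7d31c1ae87) e
 (c (b (nat_lit 0x100e2007)) e
 (c z e
 (c (b (nat_lit 0xfcb1407)) e e))))))))
 (c (nat_lit 0x80ff980ffa80ffa80ff92f550)
 (c (b (nat_lit 0xfb69805)) e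
 (c (nat_lit 0x7d4c47d4c47d4827d4827d4c492ba7) e
 (c (nat_lit 0x7d9a27d9a27d9a27d9747d9a294aa7) e
 (c z e
 (c z e
 (c (nat_lit 0x7ee117ee117ee087ee117ee1130087) e e))))))
 (c (nat_lit 0x80ffe80ffe80ffd80ffd370b0)
 (c (nat_lit 0x812b7812b7812b78124a8124ac1747) e
 (c z e
 (c z e
 (c (nat_lit 0x7ecb27ecb27eca67ecb27ecb28c167) e e))))
 (c (nat_lit 0x80ffb80ffd80ffd80ffd19e80)
 (c z e
 (c (nat_lit 0x81c1381c9481c9481c9481c94bd527) e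
 (c (nat_lit 0x800008000080000809d9809d9f89e8) e e)))
 (c (nat_lit 0x810058100381003810040c871)
 (c (nat_lit 0x80000800008198d819b3819b34de08) e
 (c (nat_lit 0x800008000080000808f080902e55e8) e e))
 (c (nat_lit 0x810018100081000810008fd31) e
 (c (nat_lit 0x80a1280a1380a1280a1260471) e
 (c (a (nat_lit 0x10093801)) e
 (c (nat_lit 0x811a2811a3811a2811a309c71) e
 (c (nat_lit 0x811dc811dc811db811dca2fd3) e
 (c (nat_lit 0x811de811df811df811df670f3) e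
 (c (nat_lit 0x811fa811fa811fb811f40ac33) e
 (c (nat_lit 0x801f2801f2801f3801f3563b3) e
 (c (a (nat_lit 0x10200c03)) e
 (c (nat_lit 0x809a2809a1809a2809a2ffdf4) e
 (c (nat_lit 0x80ed180ed280ed280ed2741f4) e
 (c (nat_lit 0x80ef080ef080eef80eef8d0d4) e
 (c (nat_lit 0x80ef280ef380ef480ef3bf985) e
 (c (nat_lit 0x80eee80eee80eee80eefc70c5) e
 (c (nat_lit 0x80ee880ee680ee380ee654825) e
 (c (nat_lit 0x804598045e8045e8045e46435) e
 (c (nat_lit 0x80d0a80d0c80d0280d0c99c45) e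
 (c (nat_lit 0x802d4802d5802d3802d4d37c7) e
 (c (nat_lit 0x802d2802d5802d5802d63ad07) e
 (c (nat_lit 0x80101800e9800e9800e947607) e
 (c (nat_lit 0x8011080110801d2801bf6a7f7) e
 (c (nat_lit 0x80c7580e3380e3380e33e5537) e e)))))))))))))))))))))))))))))))))) Tr.c Tr.e (nat_lit 0) C.t4 C.t5 C.t6
noncomputable def tt571 : Tr := beta% (fun (c : Nat → Tr → Tr → Tr) (e : Tr) (z : Nat) (a b d : Nat → Nat) =>
 (c (a (nat_lit 0x10200200))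
 (c (b (nat_lit 0xfb0ba01))
 (c z e
 (c (d (nat_lit 0xfe34205)) e
 (c (d (nat_lit 0xfca3007)) e
 (c z e
 (c z e
 (c (d (nat_lit 0xffe2207)) e
 (c z e
 (c (nat_lit 0x800007ffef7ffef800008000080000f320b) e
 (c z e
 (c z e
 (c (nat_lit 0x800008000080000800007ffe080000d9ea0) e e)))))))))))
 (c z e
 (c (b (nat_lit 0xfe71401)) e
 (c (nat_lit 0x7eb807eb757eb807eb807eb8067d63)
 (c z e
 (c (nat_lit 0x8234b824e3824e3824e3824e3824e36ca0b) e e))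
 (c (b (nat_lit 0xfde1403)) e
 (c z e
 (c z e
 (c z e
 (c (b (nat_lit 0x10291e04)) e
 (c (nat_lit 0x7fea47fe817fe997fea47fea4a2e84) e
 (c (nat_lit 0x7e58d7e58d7e55a7e5897e58d13b45) e
 (c (b (nat_lit 0xfbf0805)) e
 (c (nat_lit 0x7e5d27e5d27e5d27e57f7e59104525) e
 (c (b (nat_lit 0xfd4d605)) e
 (c (b (nat_lit 0xfe84e05)) e
 (c (nat_lit 0x7dfef7dff27dff77e0037e003ee627) e
 (c (b (nat_lit 0xfbf6c07)) e
 (c (b (nat_lit 0xfcace07)) e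
 (c z e
 (c (nat_lit 0x800007ff9b7ff9b7ff9b80000c0c67) e
 (c (b (nat_lit 0xfddaa0b)) e e)))))))))))))))))))))
 (c (nat_lit 0x81002810028100281003fbde0)
 (c z
 (c (d (nat_lit 0xfff8407)) e e)
 (c (b (nat_lit 0xfd6f203)) e
 (c (b (nat_lit 0xfdca203)) e
 (c z e
 (c z e
 (c (b (nat_lit 0x107b6403)) e
 (c (b (nat_lit 0x10079004)) e
 (c (nat_lit 0x8025f8020e802338025f8025fcde04) e
 (c (b (nat_lit 0xff28405)) e
 (c (nat_lit 0x7c8fe7c65f7c8fe7c8fe7c8fe25045) e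
 (c (nat_lit 0x7d9147d9147d86a7d9147d91467865) e
 (c (b (nat_lit 0xfed5805)) e
 (c (b (nat_lit 0xfebce05)) e
 (c (b (nat_lit 0xff01607)) e
 (c (b (nat_lit 0xfb96a07)) e
 (c (nat_lit 0x8000080000800007fffc80000cd027) e
 (c z e
 (c (b (nat_lit 0xfff3007)) e
 (c z e
 (c (nat_lit 0x8000080000800007f1357f136626cb) e e))))))))))))))))))))
 (c (a (nat_lit 0x101ffe00))
 (c (nat_lit 0x7fadc7fadc7fad87fad37fadc10823) e
 (c z e
 (c (b (nat_lit 0x1013e003)) e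
 (c (nat_lit 0x7ffa27ffa67ffc9800008000056c43) e
 (c (nat_lit 0x80798807608078c80798807986a2c4) e
 (c (nat_lit 0x800007ffa07ffc88000080000bf044) e
 (c z e
 (c z e
 (c z e
 (c z e
 (c (b (nat_lit 0xfdfe605)) e
 (c (nat_lit 0x7f01e7f01e7f01d7f01d7f01e69ee7) e
 (c (nat_lit 0x7fabb7faeb7faeb7faeb7faeb62807) e
 (c (nat_lit 0x8000080000800007fff17fff125e07) e
 (c z e
 (c (b (nat_lit 0xf9e4607)) e e))))))))))))))))
 (c (a (nat_lit 0x10200400))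
 (c z e
 (c (b (nat_lit 0xfd6e203)) e
 (c (nat_lit 0x7f9cf7f9dd7f9de7f9fd7f9fdb1984) e
 (c (nat_lit 0x7fb6e7fae87fb6e7fb6e7fb6eba344) e
 (c (b (nat_lit 0xfdb0e05)) e
 (c (nat_lit 0x7ca767c95a7ca767ca767ca76a8c05) e
 (c (b (nat_lit 0xf851405)) e
 (c (b (nat_lit 0xf9b3c05)) e
 (c (b (nat_lit 0xfdf3405)) e
 (c (nat_lit 0x7ef867ef727ef867ef867ef861ee27) e
 (c z e
 (c z e
 (c z e
 (c (b (nat_lit 0xfe16407)) e e))))))))))))))
 (c (a (nat_lit 0x101ffc00))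
 (c (nat_lit 0x7fbb97fbd37fbd97fbee7fbeed9644) e
 (c (nat_lit 0x7f8bb7f8bb7f8e57f8e57f8e530a64) e
 (c (nat_lit 0x7e85f7e85f7e86f7e8937e893c7845) e
 (c (nat_lit 0x7e8ab7e8ab7e8837e8aa7e8ab77da5) e
 (c (b (nat_lit 0xfa2b605)) e
 (c (b (nat_lit 0xf9dac05)) e
 (c (nat_lit 0x7cb3a7cb3a7cbff7cbff7cbffd9d85) e
 (c (nat_lit 0x7ecb17ecb17ec707ecb17ecb1d0e07) e
 (c (b (nat_lit 0xffb3607)) e
 (c (b (nat_lit 0x10101607)) e
 (c (b (nat_lit 0x1006fc07)) e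
 (c (b (nat_lit 0xfe6a607)) e e))))))))))))
 (c (a (nat_lit 0x101ffa00))
 (c (nat_lit 0x7e9677e9467e9467e9677e967b6565) e
 (c (b (nat_lit 0xfcca205)) e
 (c (nat_lit 0x7f6827f6827f6827f6577f682efd45) e
 (c (b (nat_lit 0xfd9c805)) e
 (c (nat_lit 0x7c8d67c7617c7617c8d67c8d6c7445) e
 (c (b (nat_lit 0xf9af207)) e
 (c (nat_lit 0x7fe7f7fe6d7fe6d7fe7f7fe7f59067) e
 (c (nat_lit 0x8000080000800007ffb67ffd45cba7) e
 (c z e
 (c (b (nat_lit 0xfee6a07)) e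
 (c (nat_lit 0x7ff997ff99800008000080000793a9) e e)))))))))))
 (c (nat_lit 0x8100381001810018100266d10)
 (c (b (nat_lit 0xfbbfa05)) e
 (c (b (nat_lit 0xfd10a05)) e
 (c z e
 (c (b (nat_lit 0xf9cec07)) e
 (c (b (nat_lit 0xfa70c07)) e
 (c (nat_lit 0x800007f8ba7f8ba80000800005e327) e
 (c z e
 (c (nat_lit 0x7e64c7e64c7e6377e64c7e64c20127) e e))))))))
 (c (a (nat_lit 0x101ffc00))
 (c (b (nat_lit 0xff08605)) e
 (c (nat_lit 0x7f0787f0787f0787f0787f066a65e7) e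
 (c z e
 (c z e
 (c (b (nat_lit 0x100d2c07)) e
 (c (nat_lit 0x800007ffcc80000800008000016e87) e e))))))
 (c (nat_lit 0x80fff80fff80ffe80ffed4360)
 (c (nat_lit 0x8235e8235e822a68235e8235e79047) e
 (c (b (nat_lit 0x103e4e07)) e
 (c z e
 (c (b (nat_lit 0x100ddc07)) e
 (c (nat_lit 0x8000080000800007ff988000033688) e
 (c (nat_lit 0x800008000080000800007ff94ac0e8) e e))))))
 (c (a (nat_lit 0x10200400))
 (c z e
 (c z e
 (c (nat_lit 0x80000800007f5867f5947f594e1a28) e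
 (c (nat_lit 0x8000080000800007f5497f54987428) e
 (c (nat_lit 0x800008000080000800007fec4be648) e e)))))
 (c (nat_lit 0x8100581006810068100615c20)
 (c (nat_lit 0x7ffc67ffab7ffde800008000066b28) e e)
 (c (nat_lit 0x80ff780ff880ff980ff92d7e1) e
 (c (a (nat_lit 0x101ffe01)) e
 (c (a (nat_lit 0x1017bc01)) e
 (c (nat_lit 0x7ff147ff147ff137ff14c2d91) e
 (c (a (nat_lit 0x101ef601)) e
 (c (nat_lit 0x80fb480fb580fb580fb4fc693) e
 (c (a (nat_lit 0x101f7203)) e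
 (c (nat_lit 0x808b0808b0808b0808affc5a3) e
 (c (nat_lit 0x800f8800f7800f8800f8e0753) e
 (c (nat_lit 0x8100c8100d8100c8100cda2a3) e
 (c (nat_lit 0x808058080f808108080fc3c34) e
 (c (nat_lit 0x80fb880fb880fbb80fbc7b5d4) e
 (c (nat_lit 0x80fa680fa780fa880fa99aaf5) e
 (c (nat_lit 0x80fa080f9f80fa080fa0bb7d5) e
 (c (nat_lit 0x80f9780f9780f9780f96092f5) e
 (c (nat_lit 0x80f4380f4180f4180f41dbc65) e
 (c (nat_lit 0x80ffb80ffb80ffa80ffaa1e95) e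
 (c (a (nat_lit 0x100b6a07)) e
 (c (nat_lit 0x805a9805aa805ab805abbc8b7) e
 (c (nat_lit 0x800d8800e0800e3800e474e07) e
 (c (nat_lit 0x7fe9a7fe9a7fe9a7fe98d4867) e
 (c (nat_lit 0x8108c8108b8108a81088928c7) e e)))))))))))))))))))))))))))))))))) Tr.c Tr.e (nat_lit 0) C.t4 C.t5 C.t6
noncomputable def tt572 : Tr := beta% (fun (c : Nat → Tr → Tr → Tr) (e : Tr) (z : Nat) (a b d : Nat → Nat) =>
 (c (a (nat_lit 0x10200200))
 (c (nat_lit 0x7f00b7f0027f0027f0047f006d09a1)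
 (c (d (nat_lit 0xf974005)) e
 (c (d (nat_lit 0xfb89c05)) e
 (c (d (nat_lit 0xfaa8805)) e
 (c z e
 (c (nat_lit 0x7f41a7f4457f45e7f45e7f45e7f45e93105) e
 (c (d (nat_lit 0xfd89807)) e
 (c (nat_lit 0x7e6357e6357e5217e5e17e6357e635a1d07) e
 (c z e
 (c z e
 (c z e
 (c z e
 (c (nat_lit 0x800008000085e4f85e4f85e4f85e4fa7ae0) e
 (c (nat_lit 0x80000800008000080000800007e687ac74c) e e)))))))))))))
 (c (nat_lit 0x7f00f7f00f7f0027f0027f002e7201)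
 (c (d (nat_lit 0xfaff405)) e
 (c (d (nat_lit 0xfc54405)) e
 (c (d (nat_lit 0xfd22205)) e
 (c (d (nat_lit 0xfefd207)) e
 (c (nat_lit 0x8000080000800007ffc980000800006e147) e
 (c z e
 (c z e
 (c z e
 (c (nat_lit 0x8000080000800007fffb7fffb80000fd193) e
 (c (nat_lit 0x800008000080000823fb823fb823fb38f20) e
 (c z e
 (c (nat_lit 0x80000800008000080000800007f8909eecc) e e))))))))))))
 (c (b (nat_lit 0xfdfa801)) e
 (c (b (nat_lit 0xfc0ce01)) e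
 (c (nat_lit 0x7e96a7e9777e98b7e98b7e98bdc721)
 (c z e
 (c z e
 (c (nat_lit 0x800007ffb18000080000800008000010061) e e)))
 (c (nat_lit 0x7ed1a7ed0d7ed147ed1a7ed1ab7483) e
 (c (nat_lit 0x7f0c37f0c37f0927f0997f0c3bb5e3) e
 (c (b (nat_lit 0x100dea03)) e
 (c z e
 (c (b (nat_lit 0x100f9e03)) e
 (c (nat_lit 0x82a2c82a2182a2982a2c82a2c59404) e
 (c (nat_lit 0x7f9f87f9bb7f9ef7f9f87f9f8c5804) e
 (c (nat_lit 0x7df8c7df747df7a7df7a7df8c0f625) e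
 (c (nat_lit 0x7df6b7df6b7df5b7df5c7df5c03845) e
 (c (nat_lit 0x7e8e97e8e97e8e97e8bb7e8cf9a325) e
 (c (b (nat_lit 0xfd70205)) e
 (c (b (nat_lit 0xfb9f805)) e
 (c (b (nat_lit 0xfc1f207)) e
 (c (b (nat_lit 0xfc21e07)) e
 (c (b (nat_lit 0xfd20e07)) e
 (c (nat_lit 0x8000080000800007ffe07ffe0e3d27) e e))))))))))))))))))))) tt571)) Tr.c Tr.e (nat_lit 0) C.t4 C.t5 C.t6
noncomputable def tt573 : Tr := beta% (fun (c : Nat → Tr → Tr → Tr) (e : Tr) (z : Nat) (a b d : Nat → Nat) =>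
 (c (nat_lit 0x80fff810008100081000e66c0)
 (c (b (nat_lit 0xfecfc01))
 (c (d (nat_lit 0x10294405)) e
 (c z e
 (c (d (nat_lit 0xfde0207)) e
 (c z e
 (c z e
 (c z e
 (c z e
 (c z e
 (c z e
 (c z e
 (c z e
 (c (nat_lit 0x80000800008000080000800007fc00e208c) e
 (c (nat_lit 0x80000800008000080000800007ff073e60c) e e)))))))))))))
 (c (nat_lit 0x7efc37f0247f0247f00b7f00bd0341) e
 (c (b (nat_lit 0xfa5c001)) e
 (c (nat_lit 0x7eb9e7eb9c7ec2f7ec2f7ec2f04421) e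
 (c (nat_lit 0x7ef417ef327ef2e7ef417ef416c363)
 (c (d (nat_lit 0xf48f40b)) e e)
 (c (b (nat_lit 0xfe54203)) e
 (c z e
 (c z e
 (c (nat_lit 0x822f5822ff8230082300823008cf63) e
 (c (b (nat_lit 0x1053ba04)) e
 (c (nat_lit 0x80917808b9808cc809178091753105) e
 (c (nat_lit 0x7df697df697df617df5d7df5d38dc5) e
 (c (b (nat_lit 0xfca9405)) e
 (c (nat_lit 0x7ee147ee147ee147ed7f7ed6f7e245) e
 (c (nat_lit 0x7ea597ea5d7ea5d7ea5d7ea5d40585) e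
 (c (nat_lit 0x7ef057ef057ef5f7ef5f7ef5f4d187) e
 (c (b (nat_lit 0xfc73207)) e
 (c z e
 (c z e
 (c (nat_lit 0x7ffc8800007fff37fff37fff38de07) e
 (c z e
 (c (b (nat_lit 0xfe2920b)) e
 (c z e
 (c z e
 (c (nat_lit 0x800008000080000800007fffb4890c) e e)))))))))))))))))))))))))
 (c (nat_lit 0x80fff80ffe80ffe80ffe31110)
 (c z e
 (c (b (nat_lit 0xfd64001))
 (c z e
 (c (nat_lit 0x83979839ad839ad839ad839ad839ada2647) e e))
 (c (nat_lit 0x7eebb7ee807ee7d7eebb7eebbbd4a3) e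
 (c (b (nat_lit 0xfe02403)) e
 (c z e
 (c z e
 (c (nat_lit 0x803c3803b8803c3803cb803cbd08a3) e
 (c (nat_lit 0x8237f8236f823778237f8237f76904) e
 (c (nat_lit 0x7fe5d7fe097fe317fe417fe5de14e5) e
 (c (nat_lit 0x7e4f97e4f97e4ba7e4f97e4f91a205) e
 (c (nat_lit 0x7e7c87e7c87e7457e7b07e7c8048a5) e
 (c (b (nat_lit 0xfea3c05)) e
 (c (b (nat_lit 0xfe0bc05)) e
 (c (b (nat_lit 0xfe0e607)) e
 (c (nat_lit 0x7edb37ede27ede27ede27ede21f8c7) e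
 (c (nat_lit 0x7f2907f1927f2907f2907f290beea7) e
 (c z e
 (c (b (nat_lit 0xf9b2807)) e
 (c z e
 (c z e
 (c (nat_lit 0x8000080000800007ffa47ffa413beb) e e)))))))))))))))))))))
 (c (a (nat_lit 0x10200400))
 (c (b (nat_lit 0xfe69003))
 (c (d (nat_lit 0x10914807)) e e)
 (c (b (nat_lit 0xfdd4403)) e
 (c z e
 (c z e
 (c (nat_lit 0x8075c8076c807a0807b7807b799483) e
 (c (b (nat_lit 0xfc7a604)) e
 (c (b (nat_lit 0xfdf7805)) e
 (c z e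
 (c z e
 (c (b (nat_lit 0xfcd1e05)) e
 (c (b (nat_lit 0xfb7b005)) e
 (c (nat_lit 0x7d4d57d4d57d4cb7d4d57d4d58d9e7) e
 (c (nat_lit 0x7e02f7e02f7e02f7dfd77e02fd6ec7) e
 (c z e
 (c (nat_lit 0x7ff407ff407ff4080000800002a387) e
 (c (b (nat_lit 0xfc52607)) e e))))))))))))))))
 (c (a (nat_lit 0x101ffe00))
 (c (nat_lit 0x7f7b67f7b67f7b67f7a87f7b480b63) e
 (c z e
 (c (b (nat_lit 0xff71003)) e
 (c (b (nat_lit 0x1005ac04)) e
 (c (b (nat_lit 0xff9e205)) e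
 (c (b (nat_lit 0xfdf5e05)) e
 (c z e
 (c z e
 (c (nat_lit 0x7ea7c7eaa27ea9b7eb1b7eb1b9cd65) e
 (c (nat_lit 0x7f0e77f0c27f0e77f0e77f0e7c1827) e
 (c (nat_lit 0x7fe257fe257fdf17fe257fe25f08e7) e
 (c (b (nat_lit 0x1011ce07)) e
 (c z e
 (c (nat_lit 0x7f9957f9957fb7c7fb7c7fb7c0a107) e e))))))))))))))
 (c (a (nat_lit 0x10200400))
 (c (nat_lit 0x7fcaa7fcac7fcc07fcc77fcc764e23) e
 (c (nat_lit 0x7f8877f88c7f88a7f88f7f88f96284) e
 (c (nat_lit 0x7f15a7f0de7f15a7f15a7f15abed65) e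
 (c (nat_lit 0x7ebfd7ebfd7ebfd7ead57ebfd2cfc5) e
 (c (b (nat_lit 0xfc8b405)) e
 (c z e
 (c (nat_lit 0x7f8297f81e7f8c07f8c07f8c089a65) e
 (c (nat_lit 0x7e79c7e7947e78e7e79c7e79c96a27) e
 (c (b (nat_lit 0xfeb1e07)) e
 (c z e
 (c z e
 (c (b (nat_lit 0xfeae807)) e
 (c (nat_lit 0x7fe558000080000800008000019749) e e)))))))))))))
 (c (nat_lit 0x81000810008100080fff48630)
 (c (nat_lit 0x7f55d7f55d7f55f7f55f7f55ff4125) e
 (c (nat_lit 0x7e46f7e45b7e45b7e46f7e46faca25) e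
 (c (b (nat_lit 0xff1a605)) e
 (c z e
 (c (b (nat_lit 0xfefbc05)) e
 (c (nat_lit 0x7f19b7f19b7f2bc7f2bc7f2bcbf6a7) e
 (c (nat_lit 0x7e89d7e89d7e89d7e8657e89d25bc7) e
 (c (nat_lit 0x7f95b7f95b7f95b7f9467f91e8a9a7) e
 (c z e
 (c (b (nat_lit 0xff6da07)) e
 (c (b (nat_lit 0xffb4609)) e e)))))))))))
 (c (nat_lit 0x81003810018100181002c0460)
 (c (b (nat_lit 0xf97ca05)) e
 (c (b (nat_lit 0xfcdd405)) e
 (c (nat_lit 0x7eb867eb077eb077eb867eb8629045) e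
 (c z e
 (c (b (nat_lit 0xfca4607)) e
 (c (nat_lit 0x7fdcd7fdcd7fba17fdcd7fdcdc8c47) e
 (c z e
 (c (nat_lit 0x7f3a37f3a37f37c7f2cf7f3a3ee987) e
 (c z e
 (c (nat_lit 0x800008000080000800007ff440e3e9) e e))))))))))
 (c (nat_lit 0x80ffe80ffd80ffd80ffd4c060)
 (c (b (nat_lit 0xfc41805)) e
 (c (nat_lit 0x7ecf37ea4a7ea4a7ecf37ecf3bc747) e
 (c z e
 (c z e
 (c z e
 (c (b (nat_lit 0xfffaa07)) e
 (c (nat_lit 0x8000080000800007ffb880000ff9e8) e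
 (c (nat_lit 0x800008000080000800007ff9e30fa8) e e))))))))
 (c (a (nat_lit 0x101ffc00))
 (c (b (nat_lit 0x101e3407)) e
 (c z e
 (c z e
 (c (b (nat_lit 0xf943e07)) e
 (c (nat_lit 0x80000800007fc337fc337fc3371a08) e
 (c (nat_lit 0x8000080000800007fc0b7fc0d0c728) e e))))))
 (c (a (nat_lit 0x10200400))
 (c z e
 (c (nat_lit 0x7449d744957449d7449d7449d39327) e
 (c (nat_lit 0x7e3217e2f27e3217e3217e32110388) e
 (c (nat_lit 0x80000800007fa0c7fa0c7fa0c77128) e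
 (c (nat_lit 0x8000080000800007fa547fa5463d48) e e)))))
 (c (nat_lit 0x81002810028100281001e81e0)
 (c (nat_lit 0x7910379103790fa7910379103c1f48) e
 (c (b (nat_lit 0xfbcd008)) e
 (c (nat_lit 0x80000800007efb77efa77efb7159a8) e
 (c (nat_lit 0x8000080000800007f0117efde98da8) e
 (c (nat_lit 0x800008000080000800007fb7b87048) e e)))))
 (c (a (nat_lit 0x10200000)) e
 (c (nat_lit 0x81004810028100281001c3281) e
 (c (a (nat_lit 0x101eec01)) e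
 (c (nat_lit 0x8047c8047b8047c8047c72741) e
 (c (nat_lit 0x8043d8043c8043c8043b2aac1) e
 (c (nat_lit 0x80bf680bf780bf780bf71eb61) e
 (c (nat_lit 0x80fdf80fde80fde80fde2dfb3) e
 (c (nat_lit 0x80fd580fd580fd580fd42d613) e
 (c (a (nat_lit 0x101e7803)) e
 (c (nat_lit 0x7fc2d7fc2b7fc2b7fc2ba1753) e
 (c (nat_lit 0x80fbf80fc180fc080fbf9e163) e
 (c (nat_lit 0x80f6d80f6a80f6c80f6e66b84) e
 (c (nat_lit 0x80f7e80f7e80f7c80f7cf90d5) e
 (c (a (nat_lit 0x101f1405)) e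
 (c (nat_lit 0x80f8580f8380f8380f82b3cf5) e
 (c (nat_lit 0x80f5e80f5f80f5f80f5fecc15) e
 (c (nat_lit 0x80fc080fbe80fbe80fbdc0005) e
 (c (nat_lit 0x805ab805a7805aa805ac19857) e
 (c (nat_lit 0x805aa805aa805a8805aa70827) e
 (c (nat_lit 0x801148011380112801122fb27) e
 (c (nat_lit 0x80181801808018180180e7697) e
 (c (nat_lit 0x810ed810f1810ee810ee0db67) e e)))))))))))))))))))))))))))))))))) Tr.c Tr.e (nat_lit 0) C.t4 C.t5 C.t6
noncomputable def tt574 : Tr := beta% (fun (c : Nat → Tr → Tr → Tr) (e : Tr) (z : Nat) (a b : Nat → Nat) =>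
 (c (a (nat_lit 0xfdffe00))
 (c (nat_lit 0x80000800007ffee7ffc17ffb880000844c4) e
 (c (nat_lit 0x7e2927e2807e2887e2837e26a7e27b29085) e
 (c (nat_lit 0x7e24c7e24c7e24c7e2277e24c7e24c43b45) e
 (c (b (nat_lit 0x10677005)) e
 (c z e
 (c (b (nat_lit 0x103ada07)) e
 (c (nat_lit 0x827378273782737823ec827378273768047) e
 (c (b (nat_lit 0x1051d807)) e
 (c z e
 (c z e
 (c z e
 (c (b (nat_lit 0x1070600c)) e
 (c (nat_lit 0x80000800008000087c6587c6587c658d64c) e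
 (c (nat_lit 0x80000800008000080000839ac839acf39cc) e e))))))))))))))
 (c (a (nat_lit 0xfdffa01))
 (c (nat_lit 0x7fa8f7fa8f7f90c7f8fe7f9017f919ece05) e
 (c z e
 (c z e
 (c z e
 (c (nat_lit 0x800007ff9380000800008000080000b43c7) e
 (c z e
 (c (b (nat_lit 0x102eda07)) e
 (c z e
 (c z e
 (c (b (nat_lit 0x10b8e40c)) e
 (c (nat_lit 0x800008000085c3a85c3a85c3a85c3aefee0) e
 (c (nat_lit 0x80000800008000080000831c8831c89628c) e e))))))))))))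
 (c (a (nat_lit 0xfe00001))
 (c z e
 (c z e
 (c z e
 (c z e
 (c z e
 (c z e
 (c z e
 (c z e
 (c z e
 (c (nat_lit 0x80000800008000084e6c84e6c84e6c9b460) e e))))))))))
 (c (a (nat_lit 0xfe00001)) e
 (c (a (nat_lit 0xfdd5601)) e
 (c (a (nat_lit 0xfbf1c01))
 (c (nat_lit 0x800008000080000800007feef800009be87) e e)
 (c (a (nat_lit 0xfc0d003)) e
 (c (a (nat_lit 0xfc1d603)) e
 (c z e
 (c z e
 (c (nat_lit 0x800008000080000800007ff8f8c623) e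
 (c (nat_lit 0x7e8fe7e8fe7e8f97e8de7e8fecbb24) e
 (c (nat_lit 0x7d5567d5567d54c7d5447d55083185) e
 (c (a (nat_lit 0xfc1f805)) e
 (c (nat_lit 0x7e5a87e5a87e5a87e5a77e5a852da5) e
 (c (nat_lit 0x7fdcf7fdcf7fdcf7fd637fd6f26ae5) e
 (c (a (nat_lit 0xfe0ec05)) e
 (c z e
 (c (a (nat_lit 0x10056a07)) e
 (c (a (nat_lit 0x10132c07)) e
 (c z e
 (c z e
 (c (nat_lit 0x80787807868077680787807878cd2b) e
 (c z e
 (c (nat_lit 0x8000080000800007fff27fff2b4d2c) e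
 (c (nat_lit 0x800008000080000800007ffe60f0ac) e e))))))))))))))))))))))))))) Tr.c Tr.e (nat_lit 0) C.t5 C.t6
noncomputable def tt575 : Tr := beta% (fun (c : Nat → Tr → Tr → Tr) (e : Tr) (z : Nat) (a b d : Nat → Nat) =>
 (c (a (nat_lit 0xfdfe200))
 (c (b (nat_lit 0xe861c03))
 (c (d (nat_lit 0x5ce8c07)) e
 (c (d (nat_lit 0x11000007)) e e))
 (c (nat_lit 0x828df828df828df828df8282d828df856c3)
 (c (d (nat_lit 0xffffa0c)) e e)
 (c (nat_lit 0x7d2187d1db7d1a07d1c57d2187d218f4b04) e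
 (c (nat_lit 0x7eaf57eaf57eae37eab57eaef7eaf51b085) e
 (c (b (nat_lit 0xfdb5805)) e
 (c z e
 (c (b (nat_lit 0xfbaf805)) e
 (c (b (nat_lit 0xfc6b805)) e
 (c (nat_lit 0x7f9647f9647f9647f7d37f9647f9647e147) e
 (c (nat_lit 0x8187081870816f6818708187081870aec07) e
 (c z e
 (c z e
 (c (b (nat_lit 0xf7aea07)) e
 (c (nat_lit 0x812858128981289812898128981289593cc) e
 (c (nat_lit 0x800008000080000825ff825ff825ff1ce0c) e e)))))))))))))))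
 (c (nat_lit 0x7f0047f0027f0027f0027f0047dba0)
 (c (nat_lit 0x7dbbb7dbbb7dbbb7dbb57dbbb7da7c23144)
 (c (d (nat_lit 0x10d67614)) e
 (c (nat_lit 0x8000080000800008800088000880008800077a14) e e))
 (c (nat_lit 0x81b4381b4381b4381b2281b1b81b436d805) e
 (c (nat_lit 0x8168e8168e8168e8168e8166e8168eef585) e
 (c z e
 (c z e
 (c z e
 (c (nat_lit 0x831278312783127831278312783064d4c47) e
 (c (b (nat_lit 0x10865007)) e
 (c z e
 (c z e
 (c z e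
 (c z e
 (c (b (nat_lit 0x10638414)) e
 (c (nat_lit 0x80000800008000083b5e83b6b83b6b79bd4) e
 (c (nat_lit 0x8000080000800008000081f7581f758f5d4) e e)))))))))))))))
 (c (a (nat_lit 0xfe00000))
 (c (nat_lit 0x7de7a7de7a7de787de447de7a7de7abb545) e
 (c z e
 (c z e
 (c z e
 (c z e
 (c z e
 (c z e
 (c z e
 (c z e
 (c z e
 (c (b (nat_lit 0x10184213)) e e)))))))))))
 (c (nat_lit 0x7f00a7f0057f0077f0077f007d98c1)
 (c z e
 (c (nat_lit 0x7c5b67c2017c5b67c5b67c5b67c5b674045) e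
 (c (nat_lit 0x7fd6b7fd6b7fa577fd6b7fd6b7fd6bfe947) e
 (c z e
 (c z e
 (c z e
 (c z e
 (c (nat_lit 0x8000080000800007fff180000800002040c) e e))))))))
 (c (nat_lit 0x7effd7effd7effc7effd7effd5c9e1)
 (c (nat_lit 0x8262782627825fd826278262782627ef947) e
 (c (nat_lit 0x82f7382f7382b4282f7382f7382f73e7c47) e
 (c z e
 (c (b (nat_lit 0x101dd207)) e
 (c z e
 (c (b (nat_lit 0x10594c0c)) e
 (c (nat_lit 0x800008000080000800007ff8b80000ff18c) e e)))))))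
 (c (a (nat_lit 0xfbe9601))
 (c (b (nat_lit 0x10339a07)) e
 (c z e
 (c z e
 (c (nat_lit 0x7ee657ee657eb4f7ee657ee657ee653040c) e e))))
 (c (a (nat_lit 0xfdfec01)) e
 (c (a (nat_lit 0xfd9c801)) e
 (c (a (nat_lit 0xfe5ee03)) e
 (c (a (nat_lit 0xfce1603)) e
 (c z e
 (c z e
 (c (a (nat_lit 0x1048bc03)) e
 (c z e
 (c (nat_lit 0x7e4887e4887e4877e4787e488f2c45) e
 (c (a (nat_lit 0xfe15205)) e
 (c (nat_lit 0x7f8667f8667f8667f8667f8147d5a5) e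
 (c (a (nat_lit 0xff12805)) e
 (c (a (nat_lit 0xfd7a005)) e
 (c (a (nat_lit 0xfd62c07)) e
 (c (nat_lit 0x7eb497eb497eb497eb437eb49fc387) e
 (c (nat_lit 0x7f5747f5747f5747f5547f57498b07) e
 (c z e
 (c (nat_lit 0x7ff147ffd67ff767ffdd7ff6b74987) e
 (c (nat_lit 0x8000080000800007ffd380000286cc) e
 (c (nat_lit 0x8000080000800007fffa8000079b2c) e
 (c (nat_lit 0x800008000080000800007ffe54a4ec) e e)))))))))))))))))))))))))))) Tr.c Tr.e (nat_lit 0) C.t5 C.t6 C.t7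
noncomputable def tt576 : Tr := beta% (fun (c : Nat → Tr → Tr → Tr) (e : Tr) (z : Nat) (a b : Nat → Nat) =>
 (c (a (nat_lit 0x101ff200))
 (c (b (nat_lit 0xfb81e01))
 (c (nat_lit 0x8000080000800007fe7a7fe7a80000a0887) e
 (c z e
 (c z e
 (c z e
 (c (nat_lit 0x821b2821b2821b28209782097821b2e53a1) e e)))))
 (c (nat_lit 0x7f05a7f05a7f05a7f05a7f00afbcc1) e
 (c (b (nat_lit 0xfd8f601)) e
 (c (b (nat_lit 0xfe4dc03)) e
 (c (b (nat_lit 0xfe36003)) e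
 (c (b (nat_lit 0xf88fc03)) e
 (c z e
 (c (b (nat_lit 0x10238c03)) e
 (c (b (nat_lit 0x1054b005)) e
 (c z e
 (c (b (nat_lit 0xfb81c05)) e
 (c (b (nat_lit 0xfcc5005)) e
 (c (b (nat_lit 0xf8e8005)) e
 (c (nat_lit 0x7c6217c6217c6117c6217c6212a8c7) e
 (c (b (nat_lit 0xf9eba07)) e
 (c (b (nat_lit 0xfc6e407)) e
 (c (b (nat_lit 0x10310807)) e
 (c (b (nat_lit 0xfdf1807)) e
 (c (nat_lit 0x8000080000800007f84b7f84bdfbeb) e
 (c (nat_lit 0x800008000080000800007ff83d194b) e e))))))))))))))))))))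
 (c (nat_lit 0x81000810008100080fff90030)
 (c (b (nat_lit 0xfe74201)) e
 (c (b (nat_lit 0xfdc8a03)) e
 (c (nat_lit 0x7f3597f3597f3367f3307f3598ec03) e
 (c z e
 (c z e
 (c (b (nat_lit 0xfcec603)) e
 (c (b (nat_lit 0x102cb805)) e
 (c (nat_lit 0x7f63d7f6187f6187f63d7f63dcdde5) e
 (c z e
 (c (b (nat_lit 0xfd22805)) e
 (c (nat_lit 0x7d11a7d1127d11a7d11a7d11ae6fa5) e
 (c (nat_lit 0x7c9467c9437c9397c9467c946b2b87) e
 (c (nat_lit 0x8000080000800007fff68000000307) e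
 (c (b (nat_lit 0x100b3407)) e
 (c z e
 (c (b (nat_lit 0xfc1a407)) e e))))))))))))))))
 (c (a (nat_lit 0x10200400))
 (c (b (nat_lit 0xfc7ba03)) e
 (c z e
 (c z e
 (c z e
 (c (nat_lit 0x80148800c8800c88014880148eec65) e
 (c (b (nat_lit 0xfedae05)) e
 (c z e
 (c (b (nat_lit 0xff08205)) e
 (c (nat_lit 0x7ed2a7ed2a7ed237ed2a7ed2a50d25) e
 (c (nat_lit 0x7ed377ed1b7ed377ed377ed37120a7) e
 (c (b (nat_lit 0xff17207)) e
 (c z e
 (c z e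
 (c (b (nat_lit 0xfe67807)) e
 (c (nat_lit 0x7fbd17f66a7f66a7fbd17fbd190289) e e)))))))))))))))
 (c (nat_lit 0x80ffb80ffc80ffc80ffc1fa80)
 (c z e
 (c (b (nat_lit 0xff1c803)) e
 (c (b (nat_lit 0x1005cc05)) e
 (c (b (nat_lit 0xfe30c05)) e
 (c (b (nat_lit 0xff46205)) e
 (c z e
 (c (b (nat_lit 0xfef1e05)) e
 (c (nat_lit 0x7e9067e8dc7e9067e9067e9067b4c7) e
 (c (nat_lit 0x8112d8112d811268112d8112d86a87) e
 (c z e
 (c z e
 (c (b (nat_lit 0xfe63a07)) e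
 (c (nat_lit 0x7fb317fb317fa1d7fa1d7fb3163349) e
 (c (b (nat_lit 0xffa1209)) e e))))))))))))))
 (c (a (nat_lit 0x101ffc00))
 (c (b (nat_lit 0xfe86c05)) e
 (c (b (nat_lit 0xfe15605)) e
 (c (b (nat_lit 0xff9c805)) e
 (c z e
 (c (b (nat_lit 0xfad3605)) e
 (c (b (nat_lit 0xfdc7c07)) e
 (c (nat_lit 0x7f8fa7f8fa7f8f57f8fa7f8fa59c27) e
 (c (b (nat_lit 0x10072607)) e
 (c z e
 (c (nat_lit 0x7f6287f5cb7f6287f6287f62827467) e
 (c (nat_lit 0x7fecb7fecb7fec47fecb7fecb63289) e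
 (c (nat_lit 0x800008000080000800007fffb84609) e
 (c (nat_lit 0x7feac7feac7ff9f7ff9f7ff9f54ba9) e e)))))))))))))
 (c (nat_lit 0x80ffd80ffe80ffe80ffe0f620)
 (c (b (nat_lit 0xf990a05)) e
 (c z e
 (c (b (nat_lit 0xfee4c05)) e
 (c z e
 (c (nat_lit 0x7e8bd7e8bd7e8227e8bd7e8bdea027) e
 (c (b (nat_lit 0x10044407)) e
 (c z e
 (c (b (nat_lit 0xfbae007)) e
 (c (nat_lit 0x8000080000800007fa527fa61ba888) e
 (c (nat_lit 0x800008000080000800007fa1c5b3c8) e e))))))))))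
 (c (nat_lit 0x8100080fff81000810005e3e0)
 (c (nat_lit 0x7e0b17e0b17e14d7e14d7e14d2c0c5) e
 (c (nat_lit 0x7db707db717db717db717db718db07) e
 (c (nat_lit 0x7de3e7de3e7ddf47ddf47de11ada67) e
 (c (b (nat_lit 0x1015ba07)) e
 (c (b (nat_lit 0xffe6c07)) e
 (c (nat_lit 0x7dea47de327dea47dea47dea4bec87) e
 (c (nat_lit 0x80000800007f42a7f42b7f42b8a0e8) e
 (c (nat_lit 0x8000080000800007f44e7f44f16768) e
 (c (nat_lit 0x800008000080000800007f5301b5c8) e e)))))))))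
 (c (nat_lit 0x80ffa80ffa80ffb80ffb87940)
 (c (b (nat_lit 0xff06407)) e
 (c (b (nat_lit 0x102ec407)) e
 (c (b (nat_lit 0x101d0c07)) e
 (c (nat_lit 0x7be7e7bef07bef07bef07bef08b407) e
 (c (nat_lit 0x7de3f7de3d7de3f7de3f7de3f73d48) e
 (c (nat_lit 0x80000800007ecbf7ecbf7ecbfbbcc8) e
 (c (nat_lit 0x8000080000800007f6a37f6a3c6e48) e
 (c (nat_lit 0x800008000080000800007f9d6c56c8) e e))))))))
 (c (nat_lit 0x80ffe80ffe80ffe80fff0b8a0)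
 (c z e
 (c (b (nat_lit 0xf6bfa07)) e
 (c (nat_lit 0x7fb697fb387fb697fb697fb6945ea8) e
 (c (nat_lit 0x7c6717c6717c6717c6707c67156fc8) e
 (c (nat_lit 0x80000800007eff87eff97eff96e1e8) e
 (c (nat_lit 0x8000080000800007f0347f034b5268) e
 (c (nat_lit 0x800008000080000800007f19f99708) e e)))))))
 (c (a (nat_lit 0x10200600))
 (c (nat_lit 0x7645c76440764577645c7645ce78c8) e
 (c (b (nat_lit 0xfa11808)) e
 (c (nat_lit 0x7ed217ed217ed217ed217ed17b0ae8) e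
 (c (nat_lit 0x80000800007ef877ef7c7ef8137fe8) e
 (c (nat_lit 0x8000080000800007ef937ef9372f88) e
 (c (nat_lit 0x800008000080000800007f0fc1f6a8) e e))))))
 (c (nat_lit 0x80ffe80ffe80ffe80ffdb1870) e
 (c (a (nat_lit 0x10200000)) e
 (c (a (nat_lit 0x10200201)) e
 (c (a (nat_lit 0x101ffe01)) e
 (c (nat_lit 0x80e6980e6980e6980e68c6821) e
 (c (nat_lit 0x800b6800b5800b5800b5c1791) e
 (c (nat_lit 0x80e3c80e3b80e3b80e3bdb941) e
 (c (nat_lit 0x8104481040810448104492b13) e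
 (c (a (nat_lit 0x10205e03)) e
 (c (nat_lit 0x81051810508104081041679e3) e
 (c (nat_lit 0x80401803ff803fe803fee4d33) e
 (c (a (nat_lit 0x101f7e03)) e
 (c (nat_lit 0x80dfa80df880dfa80dfae55b5) e
 (c (nat_lit 0x80dfd80dfd80dfd80dfe10515) e
 (c (nat_lit 0x80dbe80deb80dec80deccd105) e
 (c (nat_lit 0x80d7880d7e80d8080d83bfd95) e
 (c (nat_lit 0x80df980df880df880df8c7d25) e
 (c (a (nat_lit 0x1007ac07)) e
 (c (nat_lit 0x803db803dc803d7803dc47fc7) e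
 (c (nat_lit 0x8005c8006b8006980069d93e7) e
 (c (nat_lit 0x7ff007feff7feff7feff5e647) e
 (c (nat_lit 0x80fdc80fdc80fdf80fdbc9df7) e e))))))))))))))))))))))))))))))))) Tr.c Tr.e (nat_lit 0) C.t4 C.t5
noncomputable def tt577 : Tr := beta% (fun (c : Nat → Tr → Tr → Tr) (e : Tr) (z : Nat) (a b : Nat → Nat) =>
 (c (a (nat_lit 0xfdffa00))
 (c (nat_lit 0x7d1f57d1f57d1f57d1f57d1f57d14cd1a45) e
 (c (b (nat_lit 0xfce1805)) e
 (c (nat_lit 0x8000080000800007ff247ff137ff58ca2c5) e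
 (c z e
 (c z e
 (c z e
 (c z e
 (c z e
 (c (b (nat_lit 0x10491607)) e
 (c z e
 (c z e
 (c (b (nat_lit 0x1042700b)) e e))))))))))))
 (c (a (nat_lit 0xfdfec00))
 (c (nat_lit 0x80ce580ce580ce580ce580cd380ce541d85) e
 (c z e
 (c z e
 (c z e
 (c z e
 (c z e
 (c z e
 (c z e
 (c z e
 (c z e
 (c (b (nat_lit 0x104e5813)) e
 (c (nat_lit 0x80000800008000083bfc83bfc83bfc19a54) e
 (c (nat_lit 0x8000080000800008000082b3d82b3d5d514) e
 (c z e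
 (c z e
 (c (nat_lit 0x80000800008000080000800007edf0de658) e e))))))))))))))))
 (c (a (nat_lit 0xfe00a01)) e
 (c (nat_lit 0x7f0057f0057f0047f0047f005ec7a1) e
 (c (a (nat_lit 0xfdfae01))
 (c (nat_lit 0x800008000080000800007fe3f7fe3fb8b87) e e)
 (c z e
 (c (a (nat_lit 0xffd4401))
 (c (nat_lit 0x800007fe53800008000080000800006e611) e e)
 (c (nat_lit 0x7f9a37f9987f99e7f9b27f9b28a303) e
 (c (nat_lit 0x7ea657e9ee7e9ee7ea657ea65545a3) e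
 (c (nat_lit 0x7dbbb7dbb37daa87daa87dbbbd6d43) e
 (c z e
 (c (a (nat_lit 0xff50403)) e
 (c (nat_lit 0x7e0a17e0927e0937e0a17e0a14e9c5) e
 (c (nat_lit 0x7db497db497db377db337db491f065) e
 (c (nat_lit 0x7e6627e6627e6627e6577e6561d885) e
 (c (a (nat_lit 0xff3a205)) e
 (c (a (nat_lit 0xfd44205)) e
 (c (a (nat_lit 0xfe13c07)) e
 (c (a (nat_lit 0xfce5007)) e
 (c z e
 (c z e
 (c z e
 (c z e
 (c (nat_lit 0x7ff407fff6800008000080000df74b) e e))))))))))))))))))))))))) Tr.c Tr.e (nat_lit 0) C.t5 C.t6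
noncomputable def tt578 : Tr := beta% (fun (c : Nat → Tr → Tr → Tr) (e : Tr) (z : Nat) (a b d : Nat → Nat) =>
 (c (nat_lit 0x7f0007effe7f0007f0047f004dba20)
 (c (b (nat_lit 0x1040c003))
 (c (d (nat_lit 0x10fffe07)) e
 (c z e
 (c z e
 (c (d (nat_lit 0x11000018)) e e))))
 (c (b (nat_lit 0xfc8a203)) e
 (c z e
 (c z e
 (c (nat_lit 0x84dd284bd184dcb84d9e84dc284dd2cb845) e
 (c (nat_lit 0x8000080000800007ffdc7ffa47ffe50c145) e
 (c (b (nat_lit 0xff71005)) e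
 (c (b (nat_lit 0xfef2a05)) e
 (c z e
 (c (nat_lit 0x80000800007fe0e800008000080000fd787) e
 (c z e
 (c z e
 (c (b (nat_lit 0x10363007)) e
 (c (b (nat_lit 0x103ab00b)) e
 (c (b (nat_lit 0x108c7e18)) e
 (c (nat_lit 0x8000080000800008031e8031e8031edd0d8) e e))))))))))))))))
 (c (nat_lit 0x7f0027f0017f0027f0027f0025e600)
 (c (nat_lit 0x81ddb81ddb81dd181ddb81c9f81ddb5d883) e
 (c (b (nat_lit 0x11002205)) e
 (c z e
 (c z e
 (c z e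
 (c z e
 (c z e
 (c z e
 (c (b (nat_lit 0x106f0e07)) e
 (c z e
 (c z e
 (c z e
 (c z e
 (c (b (nat_lit 0x10748818)) e
 (c (nat_lit 0x800008000080000834d2834d0834d2daf98) e e)))))))))))))))
 (c (a (nat_lit 0xfdffa00))
 (c (nat_lit 0x7d8ed7d8ed7d8ed7d8d57d8e57d8edbf8c5) e
 (c z e
 (c z e
 (c z e
 (c z e
 (c z e
 (c z e
 (c z e
 (c z e
 (c z e
 (c (b (nat_lit 0xfffe813)) e
 (c z e
 (c (nat_lit 0x80000800008000082ba882ba882ba80b5d4) e e)))))))))))))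
 (c (nat_lit 0x7f00a7f00a7f00c7f00f7f00fdea00)
 (c z e
 (c (b (nat_lit 0xfde0405)) e
 (c (nat_lit 0x7963c793787963c7963c7963c7963cd3447) e
 (c z e
 (c z e
 (c z e
 (c z e
 (c (b (nat_lit 0x1074600b)) e e))))))))
 (c (a (nat_lit 0xfe00001))
 (c (b (nat_lit 0xfc05207)) e
 (c (nat_lit 0x800007fe8580000800008000080000eff47) e
 (c z e
 (c z e
 (c z e
 (c z e
 (c (nat_lit 0x800008000080b7180aed80b7180b71159e0) e e)))))))
 (c (a (nat_lit 0xfe00201))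
 (c z e
 (c z e
 (c z e
 (c (nat_lit 0x80000800008000080000800007fdd6f7d07) e e))))
 (c (nat_lit 0x7f00e7f00e7f00e7f0077f0071b141)
 (c (b (nat_lit 0xfff9207)) e
 (c (b (nat_lit 0xfffe00b)) e e))
 (c (a (nat_lit 0xff14e01)) e
 (c (a (nat_lit 0xfcd8601)) e
 (c (nat_lit 0x7f1cf7f2c77f2c77f2c77f2c7eb443) e
 (c (a (nat_lit 0xfb90803)) e
 (c z e
 (c z e
 (c (a (nat_lit 0x1013c403)) e
 (c (nat_lit 0x7e9947e9807e9787e9797e994283c5) e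
 (c (nat_lit 0x7e4007e4007e3fa7e3ee7e400d9e85) e
 (c (nat_lit 0x803528035280352803428032568da5) e
 (c (nat_lit 0x7f26f7f26f7f26f7f26f7f03ae1e65) e
 (c (a (nat_lit 0xfdfd405)) e
 (c (a (nat_lit 0xfd1be07)) e
 (c (nat_lit 0x7e7117e7117e70c7e7117e711eff87) e
 (c z e
 (c (a (nat_lit 0x1004de07)) e
 (c (a (nat_lit 0x100cce07)) e
 (c (nat_lit 0x7fcf27fcf27fcf27fce67fcf20146b) e
 (c (nat_lit 0x8000080000800007fff27fff22374c) e e))))))))))))))))))))))))))) Tr.c Tr.e (nat_lit 0) C.t5 C.t6 C.t7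
noncomputable def tt579 : Tr := beta% (fun (c : Nat → Tr → Tr → Tr) (e : Tr) (z : Nat) (a b d : Nat → Nat) =>
 (c (a (nat_lit 0xfe05000))
 (c (b (nat_lit 0xff37001))
 (c (d (nat_lit 0xf88f005)) e
 (c (d (nat_lit 0xdd42c07)) e
 (c z e
 (c (d (nat_lit 0x10d81a07)) e
 (c (nat_lit 0x7770f7770f7770f7770f76db67770f7770feb207) e
 (c (d (nat_lit 0x10fffa07)) e
 (c (d (nat_lit 0x10fe4441)) e e)))))))
 (c (b (nat_lit 0x10054803))
 (c (d (nat_lit 0x106b5007)) e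
 (c (d (nat_lit 0x10fd7a07)) e
 (c (d (nat_lit 0x10aad407)) e
 (c z e
 (c (d (nat_lit 0x10fffa23)) e e)))))
 (c (nat_lit 0x826438223f82643826438264382643c2d03) e
 (c (b (nat_lit 0x10b1ce03))
 (c (d (nat_lit 0x11000023)) e e)
 (c (b (nat_lit 0x1064ea03)) e
 (c (b (nat_lit 0xfac3803)) e
 (c (nat_lit 0x7ecd17ecd17eca17eca77ecd17ecd114485) e
 (c z e
 (c z e
 (c (nat_lit 0x8167f8167f8167f8167f814518167fa8b45) e
 (c (nat_lit 0x800007ff948000080000800008000097585) e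
 (c (nat_lit 0x7f8cc7f9137f9137f9137f9137f9139cf47) e
 (c (nat_lit 0x7c2b07c2b07c24e7c2697c2b07c2b05eec7) e
 (c (nat_lit 0x7ea107ea107ea107e6697ea107ea1034e07) e
 (c (b (nat_lit 0xfb10607)) e e)))))))))))))))
 (c (nat_lit 0x7f00f7f00f7f0117f0147f01493b40)
 (c (nat_lit 0x7f0b57ee3e7f0b57f0b57f0b57f0b50e883)
 (c z e
 (c (d (nat_lit 0x10a21207)) e
 (c z e
 (c (d (nat_lit 0x11000413)) e
 (c (d (nat_lit 0x10e9e430)) e e)))))
 (c (b (nat_lit 0xfb13c03)) e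
 (c z e
 (c (b (nat_lit 0x10dbfa03)) e
 (c (nat_lit 0x811e9811c38119381188811e9811e959505) e
 (c (nat_lit 0x833a6833a6833a683392833a6833a604cc5) e
 (c z e
 (c z e
 (c z e
 (c (nat_lit 0x7f7dc7f5287f7dc7f7dc7f7dc7f7dc1ba07) e e))))))))))
 (c (a (nat_lit 0xfe01a00))
 (c z e
 (c (nat_lit 0x800007fff07fffc80000800008000028443) e
 (c (b (nat_lit 0xfa52205)) e
 (c (b (nat_lit 0xfa43e05)) e
 (c (nat_lit 0x80000800007fc4a7ff5e7ffdb800007cbc5) e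
 (c z e
 (c z e
 (c (nat_lit 0x8000080000800007ff857ff858000058d45) e
 (c z e
 (c z e
 (c (b (nat_lit 0x102d7207)) e e)))))))))))
 (c (a (nat_lit 0xfe00000))
 (c (nat_lit 0x798327985b7982f7983f7986d7986d68345) e
 (c z e
 (c z e
 (c z e
 (c z e
 (c z e
 (c z e
 (c z e
 (c z e
 (c z e
 (c (b (nat_lit 0x1008c013)) e e)))))))))))
 (c (a (nat_lit 0xfe03c00))
 (c (nat_lit 0x835bf836548365483654836548365414585) e
 (c (b (nat_lit 0xff27e05)) e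
 (c (b (nat_lit 0xf3b0605)) e
 (c (b (nat_lit 0xf627007)) e
 (c z e
 (c (b (nat_lit 0x10380e07)) e
 (c z e
 (c z e
 (c (nat_lit 0x8000080000800007ff6f8000080000c808c) e e)))))))))
 (c (nat_lit 0x7f0137f0137f0137f0137f01784ce0)
 (c (b (nat_lit 0x10623405)) e
 (c (nat_lit 0x800007ff797ff378000080000800006d947) e
 (c (b (nat_lit 0xf8ad207)) e
 (c z e
 (c z e
 (c (nat_lit 0x80000800008000080000800007fdf9f2947) e
 (c z e
 (c (nat_lit 0x80000800007f8098000080000800002dee0) e e))))))))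
 (c (a (nat_lit 0xfe01001))
 (c (nat_lit 0x81298812988128f812988129881298cb947) e
 (c (nat_lit 0x8091b8091b8091b8085d808e78091b30407) e e))
 (c (nat_lit 0x7f01b7f01b7f01a7f01a7f01a7e881)
 (c z e
 (c z e
 (c (nat_lit 0x8000080000800007fd727ff477fc00a840c) e e)))
 (c (a (nat_lit 0xfd41e01))
 (c z e
 (c (nat_lit 0x816e6816e6816e681515813b0816e621351) e e))
 (c (a (nat_lit 0xfcb6601)) e
 (c (a (nat_lit 0xfdef601)) e
 (c (nat_lit 0x7efbb7ef737ef6f7efe67efe680fa3) e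
 (c (nat_lit 0x7ed357ed357ed287ed317ed35bd783) e
 (c (a (nat_lit 0x103aea03)) e
 (c (a (nat_lit 0x10658c03)) e
 (c z e
 (c (nat_lit 0x7e9e57e9e47e9e07e9e57e9e59d405) e
 (c (nat_lit 0x7dbfd7dbfd7dbe27dbe07dbfdf8e45) e
 (c (a (nat_lit 0xfcff805)) e
 (c (a (nat_lit 0xfec3605)) e
 (c (a (nat_lit 0xfc2a805)) e
 (c (nat_lit 0x7e8db7e8db7e8cf7e8db7e8dbeaec7) e
 (c (nat_lit 0x7e94a7e94a7e94a7e9387e94aa4b87) e
 (c z e
 (c z e
 (c (nat_lit 0x7f8947f8947f8167f8167f8947e8c7) e e))))))))))))))))))))))))))) Tr.c Tr.e (nat_lit 0) C.t5 C.t6 C.t7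
noncomputable def tt580 : Tr := beta% (fun (c : Nat → Tr → Tr → Tr) (e : Tr) (z : Nat) (a b d : Nat → Nat) =>
 (c (a (nat_lit 0x101ffe00))
 (c (nat_lit 0x7f8537f8537f8427f8427f843ef721)
 (c (d (nat_lit 0xfed6407)) e
 (c (d (nat_lit 0x10262407)) e
 (c z e
 (c (nat_lit 0x7f1347e9187f1347f1347f1347f134d4d07) e
 (c (nat_lit 0x7cf827ce657cf827cf827cf827cf82a444c) e
 (c (nat_lit 0x7d1db7d1db7d1377d1db7d1db7d1db3414c) e
 (c (nat_lit 0x80000800007fff87fff880000800007c14c) e e)))))))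
 (c (b (nat_lit 0xfdfb001))
 (c z e
 (c z e
 (c (d (nat_lit 0x105b640c)) e
 (c (d (nat_lit 0x105da00c)) e
 (c (d (nat_lit 0x104a2c0c)) e e)))))
 (c z e
 (c (nat_lit 0x7ca847cbb67cbb67cbb67cbb690aa1) e
 (c (b (nat_lit 0xfb08603)) e
 (c (b (nat_lit 0xff9b003)) e
 (c z e
 (c z e
 (c (nat_lit 0x80b1180b0280afb80b1180b11414c3) e
 (c (nat_lit 0x80a8880a8880a7e80a8880a88826c5) e
 (c (nat_lit 0x7e4967e4967e4967e41c7e43564345) e
 (c (b (nat_lit 0x10221205)) e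
 (c (nat_lit 0x7ef887ef607ef9c7ef9c7ef9c427e5) e
 (c (b (nat_lit 0xfdc4c07)) e
 (c (b (nat_lit 0xfde6607)) e
 (c (b (nat_lit 0xfff9607)) e
 (c (nat_lit 0x7ffd480000800008000080000fb067) e
 (c (b (nat_lit 0xfcbe207)) e
 (c (b (nat_lit 0xfd79a0c)) e
 (c (nat_lit 0x7e6fa7e6fa7e6e07e6ed7e6fa08a4c) e
 (c (nat_lit 0x7e7547e7547e7547e7427e74b4884c) e
 (c (nat_lit 0x80000800007ffdb7ffdb7ffdb557ac) e
 (c (nat_lit 0x8000080000800007f0e57f0e5cb7ab) e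
 (c (nat_lit 0x800008000080000800007ebfac584b) e e))))))))))))))))))))))))
 (c (a (nat_lit 0x101ffe00))
 (c (b (nat_lit 0xfd67801))
 (c z e
 (c z e
 (c z e
 (c (d (nat_lit 0x1041f821)) e e))))
 (c (b (nat_lit 0xfd8c601))
 (c (nat_lit 0x80000800008000080000800007ffdc2ab47) e
 (c (d (nat_lit 0x10411c21)) e
 (c (d (nat_lit 0x1037aa21)) e e)))
 (c (b (nat_lit 0xfba4403)) e
 (c (b (nat_lit 0xfd3e403)) e
 (c z e
 (c z e
 (c (b (nat_lit 0xfdfaa03)) e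
 (c (b (nat_lit 0xfc7e405)) e
 (c z e
 (c (b (nat_lit 0xfbed005)) e
 (c (nat_lit 0x7d0127d02b7d03a7d0467d04668c45) e
 (c (nat_lit 0x7cdc77cd997cdc37cdc77cdc7bfb67) e
 (c (nat_lit 0x8132c8132c812e0813158132cbeac7) e
 (c (nat_lit 0x80c4280c4280c4280be880c29311e7) e
 (c (b (nat_lit 0x101fea07)) e
 (c (b (nat_lit 0xfdd9407)) e
 (c (nat_lit 0x7f9987f9987f98c7f9987f9989a009) e e)))))))))))))))))
 (c (a (nat_lit 0x101ff600))
 (c (b (nat_lit 0xfc74803)) e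
 (c (b (nat_lit 0xfce6a03)) e
 (c (b (nat_lit 0x1005b203)) e
 (c z e
 (c (b (nat_lit 0xffa1603)) e
 (c (b (nat_lit 0x1007da05)) e
 (c z e
 (c z e
 (c (nat_lit 0x7ead37ea957e9e87eaf17eaf12ff65) e
 (c (nat_lit 0x7ede77ede77edd57edbf7ede75b0e7) e
 (c (b (nat_lit 0xff40007)) e
 (c z e
 (c z e
 (c (b (nat_lit 0xfeda007)) e
 (c (b (nat_lit 0xffa6809)) e
 (c (b (nat_lit 0xffd7809)) e e))))))))))))))))
 (c (a (nat_lit 0x10200400))
 (c (b (nat_lit 0xfd5ba03)) e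
 (c z e
 (c (b (nat_lit 0xfd26803)) e
 (c (b (nat_lit 0xfdb8405)) e
 (c (b (nat_lit 0xff14a05)) e
 (c z e
 (c (nat_lit 0x7e6f17e6757e6757e6f17e6f17c785) e
 (c (nat_lit 0x7ed8b7ed7f7ed8b7ed8b7ed8bf1de7) e
 (c (b (nat_lit 0xff18407)) e
 (c z e
 (c z e
 (c (nat_lit 0x7f36a7f3627f36a7f36a7f36a723a7) e
 (c (b (nat_lit 0xffcd009)) e
 (c (nat_lit 0x7fd157fde87fde87fde87fde83d509) e
 (c (b (nat_lit 0xff59a09)) e e)))))))))))))))
 (c (a (nat_lit 0x10200200))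
 (c (b (nat_lit 0xfd7e603)) e
 (c (b (nat_lit 0xfd8d605)) e
 (c (b (nat_lit 0xfce1205)) e
 (c z e
 (c (nat_lit 0x7e8767e8767e8767e8767e867218c5) e
 (c (nat_lit 0x7fa797fa797fa767fa797fa79870a7) e
 (c (b (nat_lit 0xff40607)) e
 (c z e
 (c z e
 (c (nat_lit 0x7f8bd7f8f17f8e87f8f17f8f175147) e
 (c (b (nat_lit 0xffd7609)) e
 (c (b (nat_lit 0xff8d209)) e
 (c (b (nat_lit 0xffc4809)) e
 (c (nat_lit 0x7fe0b7fe0b7fe0b7fd707fd70d4ec9) e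
 (c (nat_lit 0x8000080000800007fdea7fdeaa91c9) e e)))))))))))))))
 (c (nat_lit 0x81003810018100181002878c0)
 (c (b (nat_lit 0xfcf7205)) e
 (c z e
 (c (nat_lit 0x7e0a87e0a87e0f27e0f27e0f227e65) e
 (c (nat_lit 0x7eff87ef6d7ef6d7efd27eff8cc4c7) e
 (c (b (nat_lit 0xfcb7a07)) e
 (c (b (nat_lit 0x10100607)) e
 (c z e
 (c (nat_lit 0x7d6b67d59b7d6b67d6b67d6b6efce7) e
 (c (nat_lit 0x80000800007f1cc7f1d17f1d14d328) e
 (c (nat_lit 0x8000080000800007f1d47f1d8976e8) e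
 (c (nat_lit 0x800008000080000800007f402fe468) e e)))))))))))
 (c (nat_lit 0x80ff980ffa80ffa80ffae66d0)
 (c (nat_lit 0x7ddc37de2f7de2f7de2f7de2fcb945) e
 (c (b (nat_lit 0xfc42a07)) e
 (c (nat_lit 0x7e1827e1827ddc77e1827e182cc727) e
 (c z e
 (c z e
 (c (b (nat_lit 0xfbb1e07)) e
 (c (nat_lit 0x7ea227ea0c7ea227ea227ea2210c48) e
 (c (nat_lit 0x80000800007f2ef7f2fd7f2fd01c48) e
 (c (nat_lit 0x8000080000800007f3577f35bb6268) e e)))))))))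
 (c (a (nat_lit 0x101ffe00))
 (c (nat_lit 0x7eb3c7e96a7ea137eb3c7eb3c85fa7) e
 (c (b (nat_lit 0x10298a07)) e
 (c (b (nat_lit 0x10314c07)) e
 (c (nat_lit 0x7b9637bb237bb237bb237bb23a82c7) e
 (c (nat_lit 0x7f4e07f31f7f4e07f4e07f4e021948) e
 (c (b (nat_lit 0xfb4e808)) e
 (c (nat_lit 0x80000800007ef7f7ef7a7ef7f09568) e
 (c (nat_lit 0x8000080000800007f21a7f21a1b888) e
 (c (nat_lit 0x800008000080000800007f75619068) e e)))))))))
 (c (a (nat_lit 0x10200000))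
 (c z e
 (c (nat_lit 0x7ffe77ffa68000080000800006cec7) e
 (c (nat_lit 0x795da79564795da795da795da94208) e
 (c (b (nat_lit 0xf916008)) e
 (c (b (nat_lit 0xfdbb608)) e
 (c (nat_lit 0x80000800007f0747f0757f076cf208) e
 (c (nat_lit 0x8000080000800007f1287f12eade08) e
 (c (nat_lit 0x800008000080000800007f4339e668) e e))))))))
 (c (a (nat_lit 0x10200000))
 (c (nat_lit 0x7298272924729827298272982df508) e
 (c (b (nat_lit 0xfb61008)) e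
 (c (nat_lit 0x7ed2a7ed4f7ed4f7ed4f7ed4f5cac8) e
 (c (nat_lit 0x7ef837ef637ef837ef837ef83ee7c8) e
 (c (nat_lit 0x80000800007ef827ef967ef96bcf08) e
 (c (nat_lit 0x8000080000800007f0507f05234888) e
 (c (nat_lit 0x800008000080000800007f3c56c0e8) e e)))))))
 (c (nat_lit 0x80ff980ffa80ffa80ffadf8a0) e
 (c (nat_lit 0x80ffb80ffc80ffc80ffae69d0) e
 (c (nat_lit 0x80fff810008100080fff24d20) e
 (c (nat_lit 0x80ff780ff780ff880ff87be01) e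
 (c (a (nat_lit 0x101dd201)) e
 (c (nat_lit 0x80b9780b9880b9880b98d1601) e
 (c (a (nat_lit 0x1011e401)) e
 (c (nat_lit 0x81005810048100581006855b1) e
 (c (nat_lit 0x8100380fff8100381003f9ed3) e
 (c (a (nat_lit 0x10201203)) e
 (c (a (nat_lit 0x10201c03)) e
 (c (nat_lit 0x7fdee7fdee7fdfe7fdff758d3) e
 (c (nat_lit 0x80faa80fab80fab80fab21c93) e
 (c (a (nat_lit 0x101aae05)) e
 (c (nat_lit 0x80d5580d5680d5680d562c305) e
 (c (nat_lit 0x80ced80cf280cf480cf314175) e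
 (c (nat_lit 0x80d9f80d9e80d9f80d9fea5b5) e
 (c (nat_lit 0x8039c8039c803938039ce5137) e
 (c (nat_lit 0x803a3803a38039e8039ecedd7) e
 (c (a (nat_lit 0xffefe07)) e
 (c (nat_lit 0x7ffc17ffc07ffbf7ffc01b7d7) e
 (c (nat_lit 0x80b2080b2080c3e80c3f325b7) e e))))))))))))))))))))))))))))))))) Tr.c Tr.e (nat_lit 0) C.t4 C.t5 C.t6
noncomputable def tt581 : Tr := beta% (fun (c : Nat → Tr → Tr → Tr) (e : Tr) (z : Nat) (a b d : Nat → Nat) =>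
 (c (a (nat_lit 0xfe00000))
 (c (nat_lit 0x7f66e7f66e7f66e7f66e7f4a07f66e722c3)
 (c z e
 (c (d (nat_lit 0x10fff443)) e e))
 (c (nat_lit 0x81c3b81c3b81c3b81c3a81c3b81c3b99fc5) e
 (c (b (nat_lit 0xfbd7005)) e
 (c z e
 (c z e
 (c (nat_lit 0x7df777df777dc817df777df777df77cb607) e
 (c z e
 (c z e
 (c z e
 (c (nat_lit 0x80000800007fee780000800008000060307) e
 (c z e
 (c (b (nat_lit 0xffffa0b)) e
 (c (b (nat_lit 0x10650c0b)) e e)))))))))))))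
 (c (a (nat_lit 0xfdffa00))
 (c z e
 (c (b (nat_lit 0x101f4005)) e
 (c z e
 (c (b (nat_lit 0x10417007)) e
 (c (nat_lit 0x8000080000800007f8f58000080000b2a87) e
 (c z e
 (c (b (nat_lit 0x1018a007)) e
 (c z e
 (c (nat_lit 0x7fcc47fcc47fcc47fa047fcc47fcc495f4b) e
 (c z e
 (c (b (nat_lit 0x109f800b)) e
 (c (b (nat_lit 0x106f0e13)) e e))))))))))))
 (c (a (nat_lit 0xfe00000))
 (c z e
 (c z e
 (c z e
 (c z e
 (c z e
 (c z e
 (c (b (nat_lit 0xfff860b)) e e)))))))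
 (c (a (nat_lit 0xfe00a01))
 (c z e
 (c z e
 (c z e
 (c z e
 (c z e
 (c z e
 (c z e
 (c z e
 (c z e
 (c z e
 (c z e
 (c z e
 (c (nat_lit 0x80000800008000080000800007ff755974d) e e)))))))))))))
 (c (a (nat_lit 0xfe00401))
 (c z e
 (c (nat_lit 0x81ff181ff181f5381ff181ff181ff1c0247) e e))
 (c (a (nat_lit 0xfde1401))
 (c (b (nat_lit 0x10269a0b)) e
 (c (nat_lit 0x7ffa57ffa580000800008000080000ec18b) e
 (c (b (nat_lit 0x10150a0b)) e e)))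
 (c (nat_lit 0x7f0247f0247f0247f0247f007771a1)
 (c (b (nat_lit 0x103d360b)) e e)
 (c (a (nat_lit 0xfee9a01)) e
 (c (a (nat_lit 0xfecc803)) e
 (c (nat_lit 0x7efcd7efcd7ef9a7efa47efcd792a3) e
 (c z e
 (c z e
 (c (nat_lit 0x7f1bd7f1a07f1977f1bd7f1bdf3523) e
 (c (nat_lit 0x7ea7c7ea7c7ea757ea6d7ea7c243c5) e
 (c (nat_lit 0x7e6017e6017e6017e5d37e5de98d05) e
 (c (a (nat_lit 0xff6de05)) e
 (c (a (nat_lit 0xfd87005)) e
 (c (a (nat_lit 0xfd74207)) e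
 (c (nat_lit 0x7ee8c7eead7eead7eead7eeadd0967) e
 (c (nat_lit 0x7e3257e2a37e3b37e3b37e3b3fa487) e
 (c z e
 (c (a (nat_lit 0xff2e607)) e
 (c (a (nat_lit 0x10071c0b)) e
 (c (a (nat_lit 0x101b2e0b)) e
 (c (nat_lit 0x7fddf7fdec7fdbe7fe127fe12ddf0b) e e)))))))))))))))))))))))))) Tr.c Tr.e (nat_lit 0) C.t5 C.t6 C.t7
noncomputable def tt582 : Tr := beta% (fun (c : Nat → Tr → Tr → Tr) (e : Tr) (z : Nat) (a b d : Nat → Nat) =>
 (c (nat_lit 0x7f0007f0007efff7efff7f00007c20)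
 (c (nat_lit 0x800007f1f68000080000800008000098043)
 (c (d (nat_lit 0x10fffe07)) e
 (c z e
 (c z e
 (c z e
 (c (d (nat_lit 0x10e5a218)) e e)))))
 (c (nat_lit 0x7d6857d6857d5a67d5a67d6857d68589f03) e
 (c z e
 (c (nat_lit 0x7b98c7ba1d7ba1d7ba1d7ba1d7ba1d5fd43) e
 (c (b (nat_lit 0xf86e005)) e
 (c (nat_lit 0x7f65e7f65e7f5e87f65e7f65e7f65ed8545) e
 (c z e
 (c z e
 (c z e
 (c z e
 (c z e
 (c z e
 (c z e
 (c z e
 (c (nat_lit 0x81d3081d3081dd581dd581dd581dd58a4cb) e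
 (c (b (nat_lit 0x10381e18)) e
 (c (nat_lit 0x80000800008000081025810398103974398) e e)))))))))))))))))
 (c (a (nat_lit 0xfe00000))
 (c z e
 (c z e
 (c (b (nat_lit 0xf2e6a05)) e
 (c z e
 (c z e
 (c z e
 (c (b (nat_lit 0xfcf4607)) e
 (c z e
 (c z e
 (c z e
 (c z e
 (c z e
 (c z e
 (c (b (nat_lit 0x1027b413)) e
 (c (b (nat_lit 0x1045dc18)) e e)))))))))))))))
 (c (a (nat_lit 0xfdffc00))
 (c (nat_lit 0x7c89c7c89c7c89c7c8827c89c7c89c40fc5) e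
 (c (nat_lit 0x7e3a97e3a97e3a97e3a37e3a97e3a9b3905) e e))
 (c (a (nat_lit 0xfe00800)) e
 (c (nat_lit 0x7f0037f0027f0017f0017f00260d80)
 (c (b (nat_lit 0x10855e07)) e
 (c z e
 (c z e
 (c z e
 (c z e
 (c (b (nat_lit 0xfffda0b)) e e))))))
 (c (nat_lit 0x7f0117f00f7f00e7f00e7f00fc0ee1)
 (c z e
 (c z e
 (c z e
 (c z e
 (c z e
 (c (nat_lit 0x8000080000816538166f8166f8166f4f8a0) e e))))))
 (c (a (nat_lit 0xfdfe201))
 (c (b (nat_lit 0xffa7607)) e e)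
 (c (a (nat_lit 0xfdff801))
 (c (b (nat_lit 0xfff5a0b)) e e)
 (c (a (nat_lit 0xfded401)) e
 (c (a (nat_lit 0xfefe401)) e
 (c (nat_lit 0x7ef8d7ef847ef847ef8d7ef8d1bf43) e
 (c (nat_lit 0x7ed467ed467ed2e7ed3e7ed46cacc3) e
 (c (a (nat_lit 0xfffac03)) e
 (c (a (nat_lit 0x104c6003)) e
 (c (nat_lit 0x80000800007fffe8000080000e85a3) e
 (c (nat_lit 0x7e9a77e9a77e99e7e9a07e9a720645) e
 (c (a (nat_lit 0xfdd7c05)) e
 (c z e
 (c (nat_lit 0x7ecd37ed1d7ed1d7ed1d7ed1d85385) e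
 (c (nat_lit 0x7e78d7e78d7e7b07e7b07e7b01d507) e
 (c (nat_lit 0x7def07deec7def07def07def07b8e7) e
 (c (a (nat_lit 0x100e1407)) e
 (c z e
 (c (a (nat_lit 0xfff7a07)) e
 (c z e
 (c (a (nat_lit 0xffbda0b)) e e))))))))))))))))))))))))))) Tr.c Tr.e (nat_lit 0) C.t5 C.t6 C.t7
noncomputable def tt583 : Tr := beta% (fun (c : Nat → Tr → Tr → Tr) (e : Tr) (z : Nat) (a b d : Nat → Nat) =>
 (c (nat_lit 0x7f0127f0127f0127f0107f013344e0)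
 (c (b (nat_lit 0xfc66601))
 (c (nat_lit 0x7fd618000080000800008000080000800001f285) e
 (c z e
 (c z e
 (c (d (nat_lit 0xe7a4407)) e
 (c (d (nat_lit 0xececc07)) e
 (c z e
 (c (d (nat_lit 0x1036240b)) e
 (c (d (nat_lit 0xfe87841)) e
 (c z e
 (c z e
 (c z e
 (c z e
 (c z e
 (c (nat_lit 0x80000800008000080000800007fd49800000ff40) e e))))))))))))))
 (c (b (nat_lit 0xff84601))
 (c z e
 (c z e
 (c z e
 (c (d (nat_lit 0xfd81c07)) e e))))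
 (c (b (nat_lit 0x10339c03)) e
 (c (b (nat_lit 0x10710803))
 (c (d (nat_lit 0x1100000b)) e
 (c (d (nat_lit 0x10fff623)) e e))
 (c (b (nat_lit 0x10881e03))
 (c (d (nat_lit 0x103f8224)) e e)
 (c z e
 (c (b (nat_lit 0x1046fa03)) e
 (c (nat_lit 0x857d68565e857d6857d6857d6857d65acc5) e
 (c (nat_lit 0x82bba82bba82a9582bba82bba82bba52745) e
 (c z e
 (c z e
 (c z e
 (c (b (nat_lit 0xfb17a07)) e
 (c (nat_lit 0x7d3247d3247d3247d0e57d3247d324496c7) e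
 (c (b (nat_lit 0xf752807)) e
 (c z e
 (c (nat_lit 0x8055c805858058580585805858058581e0b) e e)))))))))))))))))
 (c (nat_lit 0x7f0037f0037f0037f0057f005159a0)
 (c (b (nat_lit 0x10110a03))
 (c z e
 (c z e
 (c z e
 (c z e
 (c (d (nat_lit 0x11000013)) e
 (c (d (nat_lit 0xf9d3c30)) e e))))))
 (c (nat_lit 0x86153800c6861498615386153861535c683) e
 (c z e
 (c z e
 (c z e
 (c z e
 (c z e
 (c z e
 (c z e
 (c z e
 (c (b (nat_lit 0xfee8207)) e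
 (c z e
 (c z e
 (c (b (nat_lit 0x1016c407)) e
 (c z e
 (c (b (nat_lit 0x102c7613)) e e))))))))))))))))
 (c (nat_lit 0x7f0027f0027f0027f0027f00419440)
 (c z e
 (c z e
 (c (b (nat_lit 0xf85e803)) e
 (c (b (nat_lit 0xf9dd605)) e
 (c (nat_lit 0x7e09d7e09d7dceb7e09d7e09d7e09d1e705) e
 (c z e
 (c z e
 (c z e
 (c z e
 (c z e
 (c z e
 (c z e
 (c z e
 (c (b (nat_lit 0xfff9813)) e e))))))))))))))
 (c (a (nat_lit 0xfdffc00))
 (c z e
 (c (nat_lit 0x8647f861658647f8647f8647f8647fb8645) e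
 (c z e
 (c z e
 (c z e
 (c (nat_lit 0x7f7357f3d27f7357f7357f7357f73571e07) e
 (c (nat_lit 0x80000800007feea800008000080000e1247) e
 (c z e
 (c z e
 (c z e
 (c (nat_lit 0x80000800007ffbf80000800008000012dcb) e e)))))))))))
 (c (nat_lit 0x7f00c7f00a7f00a7f00a7f00c5c120)
 (c (b (nat_lit 0x104afc05)) e
 (c z e
 (c z e
 (c (b (nat_lit 0x10398807)) e
 (c (nat_lit 0x7e4497e42a7e38b7e4497e4497e44974d07) e
 (c (b (nat_lit 0x101ec807)) e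
 (c z e
 (c z e
 (c (nat_lit 0x83dfe83ca783ca783dfe83dfe83dfecff4b) e
 (c (b (nat_lit 0x101e5a14)) e
 (c (b (nat_lit 0x10441614)) e e)))))))))))
 (c (nat_lit 0x7f0037f0037f0047f0047f00440fc0)
 (c z e
 (c (b (nat_lit 0xfb3b207)) e
 (c (nat_lit 0x7e4e87e4e87e4687e4e37e4e87e4e841f07) e
 (c z e
 (c z e
 (c z e
 (c (nat_lit 0x800007ff7580000800008000080000f114b) e
 (c (nat_lit 0x7e3497e3497e0507e3497e3497e349326a0) e e))))))))
 (c (a (nat_lit 0xfe00800))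
 (c (nat_lit 0x7f6477f6477f5e97f6477f6477f64794587) e
 (c (nat_lit 0x80eb980eb980eb980e6780eb980eb9d1e07) e
 (c z e
 (c z e
 (c z e
 (c (b (nat_lit 0x1037f011)) e e))))))
 (c (a (nat_lit 0xfe00801))
 (c (b (nat_lit 0x10128807)) e
 (c z e
 (c (b (nat_lit 0xfed9e0b)) e e)))
 (c (a (nat_lit 0xfe00601))
 (c z e
 (c (nat_lit 0x8000080000800007ff4780000800006c951) e e))
 (c (a (nat_lit 0xfcff601)) e
 (c (nat_lit 0x7f0ca7f0ca7f0ca7f0ca7f00b09c01) e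
 (c (a (nat_lit 0xfce3801)) e
 (c (a (nat_lit 0xfd83c03)) e
 (c (nat_lit 0x7ec387ea8d7ec337ec387ec386c163) e
 (c (a (nat_lit 0x107f9e03)) e
 (c z e
 (c z e
 (c (nat_lit 0x7e4c47e4c47e4aa7e4c47e4c4f1ce5) e
 (c (a (nat_lit 0xfcf3605)) e
 (c (a (nat_lit 0xfe3c405)) e
 (c (a (nat_lit 0xfc73805)) e
 (c (nat_lit 0x7e1cc7e1cc7e1bd7e1cc7e1cc6bd67) e
 (c (a (nat_lit 0xfc3e607)) e
 (c (a (nat_lit 0xfc3f607)) e
 (c z e
 (c z e
 (c (a (nat_lit 0xff8580b)) e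
 (c (nat_lit 0x8000080000800007ff997ffcb1c1ad) e
 (c (nat_lit 0x8000080000800007fff77ffb64cd4d) e e)))))))))))))))))))))))))))))) Tr.c Tr.e (nat_lit 0) C.t5 C.t6 C.t7
noncomputable def tt584 : Tr := beta% (fun (c : Nat → Tr → Tr → Tr) (e : Tr) (z : Nat) (a b d : Nat → Nat) =>
 (c (nat_lit 0x7f0047f0047f0047f0027f00457f20)
 (c (b (nat_lit 0x100e8401))
 (c (nat_lit 0x7a5257a5257a5257a3bf7a5257a5257a52511a85) e
 (c (d (nat_lit 0xf6bca05)) e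
 (c z e
 (c (d (nat_lit 0xf0a1407)) e
 (c (nat_lit 0x7ab477ab477ab477aaaa7a92b7ab477ab4769a07) e
 (c z e
 (c z e
 (c z e
 (c z e
 (c (d (nat_lit 0x10686c0d)) e
 (c z e
 (c z e
 (c z e
 (c (nat_lit 0x800008000080000800007ffde8000080000c9540) e e))))))))))))))
 (c (nat_lit 0x80ffd80ffd80ffd80ffd80ffa80ffdade81)
 (c (d (nat_lit 0xf058607)) e e)
 (c z e
 (c (b (nat_lit 0x10211203)) e
 (c (b (nat_lit 0x10359e03))
 (c (d (nat_lit 0x10cc2a0d)) e e)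
 (c z e
 (c z e
 (c z e
 (c (nat_lit 0x800007fbfb8000080000800008000050245) e
 (c (nat_lit 0x80c1b80c1b80c1b80a9f80bb380c1b830c5) e
 (c z e
 (c z e
 (c (b (nat_lit 0xfb81207)) e
 (c z e
 (c (nat_lit 0x7b09f7b09f7afec7b09f7b09f7b09fe4187) e
 (c z e
 (c z e
 (c z e
 (c z e
 (c (b (nat_lit 0xfe9e80d)) e e))))))))))))))))))))
 (c (a (nat_lit 0xfdff600))
 (c z e
 (c z e
 (c (nat_lit 0x800007fb1b80000800008000080000ff1c3) e
 (c (nat_lit 0x8092c8097e8097e8097e8097e8097e5c243) e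
 (c z e
 (c (b (nat_lit 0xfe72a03)) e
 (c (nat_lit 0x800007ff3c800007fff58000080000c7285) e
 (c (nat_lit 0x7f47d7f47d7f47d7f4617f4587f45d60845) e
 (c (b (nat_lit 0xf897a05)) e
 (c (b (nat_lit 0xfb83e05)) e
 (c z e
 (c z e
 (c z e
 (c z e
 (c z e
 (c z e
 (c (b (nat_lit 0x101be20d)) e e)))))))))))))))))
 (c (a (nat_lit 0xfe00400))
 (c (b (nat_lit 0x10259803))
 (c (d (nat_lit 0xff6c207)) e
 (c (d (nat_lit 0x10e7060d)) e e))
 (c (b (nat_lit 0x10445c03)) e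
 (c z e
 (c z e
 (c (nat_lit 0x800007fd86800007fff28000080000d6285) e
 (c z e
 (c z e
 (c z e
 (c z e
 (c z e
 (c z e
 (c (b (nat_lit 0x10498e07)) e
 (c z e
 (c z e
 (c z e
 (c (nat_lit 0x7ff447ff447fff77fff77f90e7f90e2908d) e e))))))))))))))))
 (c (a (nat_lit 0xfdfea00))
 (c z
 (c (d (nat_lit 0xfffae0d)) e e)
 (c (b (nat_lit 0x10d08203)) e
 (c (nat_lit 0x7e60c7e60c7e60c7e6057e60c7e60c59545) e
 (c z e
 (c (b (nat_lit 0x101bd005)) e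
 (c z e
 (c (nat_lit 0x7ef017ef017eefd7ef017ef017ef01e1407) e
 (c (nat_lit 0x818758187581875817f38187581875f19c7) e
 (c z e
 (c (b (nat_lit 0x102f1007)) e
 (c z e
 (c (b (nat_lit 0x1058b20d)) e
 (c (b (nat_lit 0x1036500d)) e
 (c z e
 (c (nat_lit 0x7fdcc80000800008000080000800009d40d) e e)))))))))))))))
 (c (a (nat_lit 0xfe01000))
 (c (b (nat_lit 0xf601405)) e
 (c z e
 (c (b (nat_lit 0xfbf4605)) e
 (c z e
 (c (b (nat_lit 0x10535407)) e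
 (c (b (nat_lit 0x10152007)) e
 (c z e
 (c z e
 (c (nat_lit 0x80000800007ffe280000800008000041887) e
 (c (nat_lit 0x7ad6a7ad6a7ad6a7ad227ad6a7ad6a60c0d) e
 (c (b (nat_lit 0x1045da0d)) e e)))))))))))
 (c (nat_lit 0x7f0067f0047f0047f0047f0045dca0)
 (c (b (nat_lit 0xfb76c05)) e
 (c (b (nat_lit 0xfbcd205)) e
 (c (nat_lit 0x800007fedc7ff487ff7b8000080000d6c87) e
 (c (nat_lit 0x80f7b80f7b80f1880f5d80f7b80f7b4c487) e
 (c (b (nat_lit 0x101eba07)) e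
 (c (b (nat_lit 0x103f4407)) e
 (c (b (nat_lit 0x10546007)) e
 (c (b (nat_lit 0x1058680d)) e e))))))))
 (c (a (nat_lit 0xfe01000))
 (c z e
 (c (nat_lit 0x80bac80bac80ad780b8d80bac80bac1fb87) e
 (c z e
 (c z e
 (c z e
 (c z e
 (c z e
 (c z e
 (c (b (nat_lit 0x101df40d)) e e)))))))))
 (c (a (nat_lit 0xfdfec00))
 (c (b (nat_lit 0x1049d807)) e
 (c z e
 (c (nat_lit 0x80000800007fe17800008000080000de287) e
 (c z e
 (c z e
 (c z e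
 (c (nat_lit 0x83cde83cde83a4683cde83cde83cde1350d) e e)))))))
 (c (a (nat_lit 0xfdfe801))
 (c (nat_lit 0x80000800007ff627ff258000080000006c7) e
 (c (nat_lit 0x7e2bc7e2bc7e0df7e2bc7e2bc7e2bc1200d) e e))
 (c (nat_lit 0x7f01d7f01d7f0047f0007f00153ba1)
 (c (nat_lit 0x7cc767cc767cc767cc6f7cc767cc761a10d) e
 (c z e
 (c (b (nat_lit 0x101df80d)) e e)))
 (c (a (nat_lit 0xfdff801)) e
 (c (a (nat_lit 0xfc06401)) e
 (c (a (nat_lit 0xfb6b401)) e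
 (c (nat_lit 0x7dbe47dbb67dbaa7dbe47dbe42ebc3) e
 (c (nat_lit 0x7ebd67ebd67eba77eba67ebd6afba3) e
 (c (nat_lit 0x7ebd47ebd47ebd47eba07ebb0530c3) e
 (c (a (nat_lit 0x102d8e03)) e
 (c (a (nat_lit 0xfea7c03)) e
 (c (a (nat_lit 0xfe27205)) e
 (c (a (nat_lit 0xfee5c05)) e
 (c z e
 (c (a (nat_lit 0xff08c05)) e
 (c (nat_lit 0x7f3b67f3b07f38e7f3b67f3b6db8a7) e
 (c (nat_lit 0x7f3ea7f3ea7f3ea7f3ce7f3ea45767) e
 (c (a (nat_lit 0xfe71c07)) e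
 (c (a (nat_lit 0x100f6c07)) e
 (c (a (nat_lit 0xfd03607)) e
 (c (nat_lit 0x7f5917f5917f56b7f5917f5916672d) e
 (c (nat_lit 0x7f5c27f5c27f5c27f5977f5c20528d) e
 (c (nat_lit 0x7f6687f6687f6687f6687f661f246d) e
 (c (nat_lit 0x7f62d7f5fb7f5da7f62d7f5d443c8d) e e)))))))))))))))))))))))))))))))) Tr.c Tr.e (nat_lit 0) C.t5 C.t6 C.t7
noncomputable def tt585 : Tr := beta% (fun (c : Nat → Tr → Tr → Tr) (e : Tr) (z : Nat) (a b : Nat → Nat) =>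
 (c z
 (c (b (nat_lit 0xfcb8a03)) e
 (c (nat_lit 0x7f8ca7f8ca7f8ca7f8ca7f8ca7f8c07f8ca56f85) e
 (c (b (nat_lit 0xf71ac05)) e
 (c (b (nat_lit 0xfe1ba05)) e
 (c (nat_lit 0x79af779af77962e79af779af779af779af748285) e
 (c (nat_lit 0x7b8e67b8e67b8637b8e67b8e67b8e67b8e682807) e
 (c (b (nat_lit 0x10c7ba07)) e
 (c z e
 (c z e
 (c z e
 (c (nat_lit 0x7c97a7c97a7c92a7c97a7c97a7c97a7c97abe58d) e
 (c z e
 (c (nat_lit 0x8000080000800007fd468000080000800003ce0d) e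
 (c (nat_lit 0x84de684de684de684de684de684de684dc4f2f0d) e
 (c (nat_lit 0x8000080000800008000080000800007ff225af8d) e e)))))))))))))))
 (c (a (nat_lit 0x10153601))
 (c (nat_lit 0x7b2e57b2e57b2e57b2e57b2c87b1cf7b0821b205) e
 (c z e
 (c (b (nat_lit 0xe7a1205)) e e)))
 (c (nat_lit 0x8104e8104e8104e8100f8100e81012e7bc1)
 (c (b (nat_lit 0xe98f205)) e e)
 (c z
 (c z e
 (c (b (nat_lit 0xfadb007)) e
 (c z e
 (c z e
 (c z e
 (c (nat_lit 0x7fe158000080000800008000080000800000ec0d) e e))))))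
 (c z
 (c z e
 (c (b (nat_lit 0xf7ba207)) e
 (c z e
 (c (b (nat_lit 0x1077a20d)) e e))))
 (c (a (nat_lit 0x100da203))
 (c (b (nat_lit 0x10fffc0d)) e
 (c z e
 (c z e
 (c z e
 (c (nat_lit 0x8000080000800007fef27ff12800008000097ca4) e e)))))
 (c z
 (c (b (nat_lit 0xff7000d)) e e)
 (c (nat_lit 0x80982809828098280828808248098212e03) e
 (c z e
 (c (nat_lit 0x8170f8170f816df8161f8170f8170f5c4c3) e
 (c (a (nat_lit 0x101aa005)) e
 (c z e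
 (c z e
 (c z e
 (c (a (nat_lit 0x1038ea07)) e
 (c (a (nat_lit 0x10289c07)) e
 (c (a (nat_lit 0x102d4207)) e
 (c z e
 (c (a (nat_lit 0x1023a207)) e
 (c z e
 (c (a (nat_lit 0xffc620d)) e
 (c (a (nat_lit 0xffdfa0d)) e
 (c (nat_lit 0x800008000080000800007ff86800007bc4d) e e)))))))))))))))))))))))) Tr.c Tr.e (nat_lit 0) C.t6 C.t7
noncomputable def tt586 : Tr := beta% (fun (c : Nat → Tr → Tr → Tr) (e : Tr) (z : Nat) (a b d : Nat → Nat) =>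
 (c (a (nat_lit 0x10200200))
 (c (nat_lit 0x7f0017f0007f0007f0007f00134ea0) tt585 tt584)
 (c (a (nat_lit 0x101ffc00)) tt583
 (c (nat_lit 0x81000810008100181000fc350) tt582
 (c (a (nat_lit 0x10200000)) tt581
 (c (a (nat_lit 0x10200400))
 (c (b (nat_lit 0xfed0000))
 (c (nat_lit 0x828ea828ea828ea828ea8287b828ea26105) e
 (c (d (nat_lit 0xfef0c05)) e
 (c (d (nat_lit 0xfb23c07)) e
 (c z e
 (c z e
 (c z e
 (c (d (nat_lit 0xfcd3a07)) e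
 (c (nat_lit 0x80000800007ff718000080000800009014b) e e))))))))
 (c (b (nat_lit 0xfe00601))
 (c (nat_lit 0x7d8257d4f87d8257d8257d8257d8254db47) e
 (c z e
 (c z e
 (c z e
 (c (nat_lit 0x800007ff6a7ff07800008000080000f2587) e
 (c (nat_lit 0x7ca657ca657c8e57ca657ca657ca6597d4b) e e))))))
 (c (b (nat_lit 0xfdffc01))
 (c (d (nat_lit 0x10487807)) e
 (c (d (nat_lit 0x1035dc07)) e
 (c (d (nat_lit 0x1019d207)) e
 (c z e
 (c (d (nat_lit 0x1030140b)) e e)))))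
 (c (b (nat_lit 0xfda7e01))
 (c z e
 (c (nat_lit 0x8000080000800007fffd80000800004a6cb) e
 (c (d (nat_lit 0x100e200b)) e e)))
 (c (b (nat_lit 0xfaf8201))
 (c (nat_lit 0x8000080000800007ffe88000080000a844b) e
 (c z e
 (c (d (nat_lit 0x1033120b)) e e)))
 (c (nat_lit 0x7e2457e2987e2987e2987e29801ce1) e
 (c (b (nat_lit 0xfe46603)) e
 (c (b (nat_lit 0xfcbf603)) e
 (c (b (nat_lit 0x1023dc03)) e
 (c (b (nat_lit 0x1040ea03)) e
 (c (b (nat_lit 0xfe4b203)) e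
 (c (nat_lit 0x7d5aa7d5aa7d5987d5907d5aabf225) e
 (c (nat_lit 0x7eb3b7eb3b7eb3b7eb347eb3b96085) e
 (c (nat_lit 0x7ef687ef687ef687ef687ef30912a5) e
 (c (nat_lit 0x7eb917eb917eb917eb917ea64b1825) e
 (c (b (nat_lit 0xfdb3607)) e
 (c (b (nat_lit 0xfe23207)) e
 (c (b (nat_lit 0xff80407)) e
 (c z e
 (c (nat_lit 0x7f0427f0427f0417f0427f042bc3c7) e
 (c (b (nat_lit 0xfed7a0b)) e
 (c (b (nat_lit 0xffe460b)) e
 (c z e
 (c (b (nat_lit 0xffa720b)) e e)))))))))))))))))))))))) tt580)))))) Tr.c Tr.e (nat_lit 0) C.t4 C.t5 C.t6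
noncomputable def tt587 : Tr := beta% (fun (c : Nat → Tr → Tr → Tr) (e : Tr) (z : Nat) (a b d : Nat → Nat) =>
 (c (a (nat_lit 0x10200200))
 (c (b (nat_lit 0xfe00601))
 (c (nat_lit 0x80000800007ffaa7ff9b7ff9b800000de07) e e)
 (c z e
 (c (b (nat_lit 0xfda7401))
 (c (nat_lit 0x80000800008000080000800007ffb775109) e e)
 (c (nat_lit 0x802bf8029d8028f802bf802bfa54a3) e
 (c (b (nat_lit 0xfceca03)) e
 (c (b (nat_lit 0xff76c03)) e
 (c z e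
 (c z e
 (c (b (nat_lit 0x10194e05)) e
 (c z e
 (c (b (nat_lit 0x1007ba05)) e
 (c (b (nat_lit 0xff4e407)) e
 (c (b (nat_lit 0xff3fc07)) e
 (c (nat_lit 0x8117e8117e8117e811698115e0cb27) e
 (c z e
 (c (b (nat_lit 0xfe50207)) e
 (c (b (nat_lit 0xfd5e009)) e
 (c (nat_lit 0x7eb357eb357eb2f7eb357eb35d8da9) e
 (c (nat_lit 0x7eb807eb807eb777eb807eb803728c) e
 (c (nat_lit 0x7eba37eba37eb8d7eb877eba31572c) e
 (c (b (nat_lit 0xfdf1c0c)) e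
 (c (nat_lit 0x800008000080000800007fff18b0cb) e e))))))))))))))))))))))
 (c (a (nat_lit 0x10200600))
 (c (nat_lit 0x7e3e77e3e67e40e7e40e7e40e6c941)
 (c z e
 (c (d (nat_lit 0x103eb621)) e e))
 (c (b (nat_lit 0xfceda03)) e
 (c (nat_lit 0x7eb357eb357eb197eb157eb3559263) e
 (c z e
 (c z e
 (c (b (nat_lit 0xfe8dc03)) e
 (c z e
 (c z e
 (c (nat_lit 0x7eaf17eae07eaf17eaf17eaf1bb225) e
 (c (nat_lit 0x7eb087eb087ead27eb087eb081f167) e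
 (c (nat_lit 0x7fa357fa357fa207fa227fa3535687) e
 (c (b (nat_lit 0xffca407)) e
 (c z e
 (c (b (nat_lit 0xfe30207)) e
 (c (b (nat_lit 0xff91c09)) e
 (c (b (nat_lit 0xffa1809)) e
 (c (nat_lit 0x7fd2c7fd277fd2c7fd2c7fd2c2aac9) e e)))))))))))))))))
 (c (a (nat_lit 0x10200200))
 (c (nat_lit 0x7eb257eb257eb257eb1f7eb25e1e23) e
 (c (b (nat_lit 0x10113e03)) e
 (c (b (nat_lit 0x101a4603)) e
 (c (b (nat_lit 0xfd6c203)) e
 (c (b (nat_lit 0xfeeb805)) e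
 (c (b (nat_lit 0x101c8c05)) e
 (c z e
 (c (nat_lit 0x7e78f7e78f7e77e7e78f7e78fdf0c7) e
 (c (b (nat_lit 0xfef9207)) e
 (c (b (nat_lit 0xff58c07)) e
 (c z e
 (c (b (nat_lit 0xfe5c407)) e
 (c (b (nat_lit 0xff9c809)) e
 (c (b (nat_lit 0xff95609)) e
 (c (b (nat_lit 0xffb5809)) e e)))))))))))))))
 (c (a (nat_lit 0x101fe800))
 (c z e
 (c (b (nat_lit 0xfde5a03)) e
 (c z e
 (c z e
 (c z e
 (c (nat_lit 0x7e3bc7e3bc7e3eb7e3eb7e3ebb3b47) e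
 (c (nat_lit 0x7eac87eac87eaa17eac67eac8c5447) e
 (c (nat_lit 0x8000080000800007ffd17fffc4f5c7) e
 (c z e
 (c (b (nat_lit 0xfef0a07)) e
 (c z e
 (c (nat_lit 0x7f9a47f9a47f9a47f99e7f9a488829) e
 (c (nat_lit 0x7fd807fd807fd807fd6f7fd4a11ae9) e
 (c z e
 (c (nat_lit 0x800007ffe97ffd9800007fe55338c9) e e)))))))))))))))
 (c (nat_lit 0x810058100381003810046f5f0)
 (c (b (nat_lit 0xfd77205)) e
 (c z e
 (c z e
 (c (nat_lit 0x7e7f77e66d7e66d7e7f77e7f763267) e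
 (c (nat_lit 0x7ea2a7ea2a7ea0b7ea2a7ea2a60a87) e
 (c (b (nat_lit 0x1013f007)) e
 (c z e
 (c (nat_lit 0x7d27b7d2727d27b7d27b7d27badc27) e
 (c (nat_lit 0x7fb4b7fb307fb4b7fb4b7fb4bd8768) e
 (c (nat_lit 0x80000800007ed427ed457ed45b35e8) e
 (c (nat_lit 0x8000080000800007ed777ed77048c8) e e)))))))))))
 (c (a (nat_lit 0x101ffa00))
 (c (nat_lit 0x7fb0d7f9d87fb0d7fb0d7fb0d4e965) e
 (c (nat_lit 0x7c4237c3997c3997c4237c423560c7) e
 (c (b (nat_lit 0x104fc007)) e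
 (c z e
 (c z e
 (c z e
 (c (nat_lit 0x7debd7deac7debd7debd7debd9afc8) e
 (c (nat_lit 0x7e7337e7297e7337e7337e7338aaa8) e
 (c (nat_lit 0x80000800007e6637e6637e663f2b48) e
 (c (nat_lit 0x8000080000800007fd577fd5707ac8) e e))))))))))
 (c (a (nat_lit 0x101ffe00))
 (c (b (nat_lit 0xfe49607)) e
 (c z e
 (c z e
 (c (nat_lit 0x7b99c7bb527bb527bb527bb529c327) e
 (c (nat_lit 0x7e1017e0cb7e1017e1017e101d1748) e
 (c (nat_lit 0x7d8c67d8ce7d8ce7d8ce7d8cecac68) e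
 (c (nat_lit 0x7ec967ec8b7ec957ec967ec96e71a8) e
 (c (nat_lit 0x80000800007ee5c7ee617ee6190168) e
 (c (nat_lit 0x8000080000800007f37b7f37e2fb48) e
 (c (nat_lit 0x800008000080000800007f7167a388) e e))))))))))
 (c (a (nat_lit 0x10200400))
 (c z e
 (c (nat_lit 0x73fd073f1673fd073fd073fd04c1a7) e
 (c (nat_lit 0x7b6ae7b6667b6ae7b6ae7b6ae22288) e
 (c (b (nat_lit 0xfbe7e08)) e
 (c (b (nat_lit 0xfd6f608)) e
 (c (nat_lit 0x7eff07efec7eff07eff07eff0c6f88) e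
 (c (nat_lit 0x80000800007eff17eff97eff9f3d28) e
 (c (nat_lit 0x8000080000800007f0787f07b543e8) e
 (c (nat_lit 0x800008000080000800007f4639da08) e e)))))))))
 (c (nat_lit 0x81002810028100281001f94e0)
 (c (nat_lit 0x72af072a6772af072af072af017468) e
 (c (b (nat_lit 0xfb66008)) e
 (c (b (nat_lit 0xfdde408)) e
 (c (nat_lit 0x7ef807ef7a7ef797ef807ef808a0e8) e
 (c (nat_lit 0x7ef907ef837ef907ef897ef9042268) e
 (c (nat_lit 0x80000800007ef577ef597ef5902528) e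
 (c (nat_lit 0x8000080000800007f0127f013a1888) e
 (c (nat_lit 0x800008000080000800007f42efff68) e e))))))))
 (c (nat_lit 0x80ffe80fff80fff80fff240b0) e
 (c (a (nat_lit 0x10200200)) e
 (c (a (nat_lit 0x10200400)) e
 (c (nat_lit 0x80ffc80ffd80ffd80ffd8ac30) e
 (c (a (nat_lit 0x101ffe01)) e
 (c (a (nat_lit 0x101ebe01)) e
 (c (nat_lit 0x80b7d80b7f80b7f80b7e78431) e
 (c (a (nat_lit 0x100e4801)) e
 (c (nat_lit 0x810398103d8103e8103eac561) e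
 (c (nat_lit 0x810408103a8104181040cd023) e
 (c (nat_lit 0x8102f81034810348103470b33) e
 (c (a (nat_lit 0x10183c03)) e
 (c (nat_lit 0x8012e8012e801a3801a316443) e
 (c (nat_lit 0x80c6e80c6e80c6f80c6e613f3) e
 (c (nat_lit 0x8053d8053e8053e8053e2ab35) e
 (c (nat_lit 0x803b4803b5803b5803b599dc5) e
 (c (nat_lit 0x802fb802fb802fc802fcedb95) e
 (c (a (nat_lit 0x10034c07)) e
 (c (nat_lit 0x8019f801a08019d801a01b127) e
 (c (nat_lit 0x8006180062800638004cfd5a7) e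
 (c (nat_lit 0x7fefa7fefb7fefa7fefa38137) e
 (c (nat_lit 0x7f0bc7f0bc7f0bb7f0bb1f277) e e)))))))))))))))))))))))))))))))) Tr.c Tr.e (nat_lit 0) C.t4 C.t5 C.t6
noncomputable def tt588 : Tr := beta% (fun (c : Nat → Tr → Tr → Tr) (e : Tr) (z : Nat) (a b : Nat → Nat) =>
 (c (a (nat_lit 0xfed0800))
 (c (b (nat_lit 0x10520405)) e
 (c (b (nat_lit 0x106d9405)) e
 (c (b (nat_lit 0xfc9f807)) e
 (c (b (nat_lit 0x107d8007)) e
 (c (b (nat_lit 0x104b8807)) e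
 (c z e
 (c z e
 (c z e
 (c (nat_lit 0x7d5fb7d5fb7d5667d5fb7d5fb7d5fb378cb) e
 (c (b (nat_lit 0x1031fe0b)) e
 (c z e
 (c (b (nat_lit 0x1077000b)) e e))))))))))))
 (c (a (nat_lit 0xfdffc00)) e
 (c (a (nat_lit 0xfe00601))
 (c z e
 (c (b (nat_lit 0xfffa407)) e
 (c z e
 (c z e
 (c z e
 (c z e
 (c z e
 (c (b (nat_lit 0xfffe40b)) e e))))))))
 (c (nat_lit 0x7f0067f0067f0027f0027f002802a1)
 (c z e
 (c (nat_lit 0x7ec097ec097ea527ec097ec097ec09250cb) e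
 (c z e
 (c z e
 (c z e
 (c (b (nat_lit 0x10201a0b)) e e))))))
 (c (a (nat_lit 0xfcc6801))
 (c (nat_lit 0x80000800007fc8f8000080000800000848b) e
 (c z e
 (c (b (nat_lit 0xfff0e0b)) e
 (c (nat_lit 0x80000800007fb4e800008000080000e9e4b) e e))))
 (c (nat_lit 0x7f09b7f09b7f09b7f09b7f01b26d81)
 (c z e
 (c (b (nat_lit 0x1017140b)) e e))
 (c (a (nat_lit 0xfead401)) e
 (c (nat_lit 0x7fa017f9ec7f9f17fa017fa0138643) e
 (c (a (nat_lit 0xfde9a03)) e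
 (c z e
 (c (a (nat_lit 0x103b7803)) e
 (c (nat_lit 0x7ebd17ebd17eb737ebd17ebd16d443) e
 (c (nat_lit 0x7ffdb7ffdb7ffdb7ff297ffdb16f85) e
 (c (nat_lit 0x7f2d67f3d97f3d97f3d97f3d9e05e5) e
 (c (a (nat_lit 0xfe9a405)) e
 (c (a (nat_lit 0xfcb0007)) e
 (c (a (nat_lit 0xfcce607)) e
 (c (nat_lit 0x7e9db7e9db7e9db7e9d77e9db09dc7) e
 (c z e
 (c (a (nat_lit 0xfc8e007)) e
 (c (nat_lit 0x7f3657f3657f32c7f3657f3653100b) e
 (c (a (nat_lit 0xfdc060b)) e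
 (c (nat_lit 0x7ecf97ef097eef57eef57eef55618b) e
 (c (a (nat_lit 0x1006680b)) e
 (c (nat_lit 0x7f8677f8677f8187f8677f8676beeb) e e)))))))))))))))))))))))))) Tr.c Tr.e (nat_lit 0) C.t5 C.t6
noncomputable def tt589 : Tr := beta% (fun (c : Nat → Tr → Tr → Tr) (e : Tr) (z : Nat) (a b : Nat → Nat) =>
 (c (a (nat_lit 0xfdff400))
 (c z e
 (c (b (nat_lit 0xfb8a203)) e
 (c z e
 (c z e
 (c z e
 (c z e
 (c z e
 (c z e
 (c z e
 (c z e
 (c z e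
 (c z e
 (c (nat_lit 0x7ffdc7ffdc800008000080000800007228b) e
 (c (b (nat_lit 0x104b220b)) e e))))))))))))))
 (c (a (nat_lit 0xfe00200))
 (c z e
 (c z e
 (c z e
 (c z e
 (c (b (nat_lit 0x1094be07)) e
 (c z e
 (c z e
 (c z e
 (c (nat_lit 0x80000800007ff7e7ffd18000080000f874b) e
 (c z e
 (c z e
 (c z e
 (c (b (nat_lit 0x1059ee13)) e e)))))))))))))
 (c (a (nat_lit 0xfdfea00))
 (c z e
 (c z e
 (c z e
 (c (b (nat_lit 0xfe08207)) e e))))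
 (c (a (nat_lit 0xfe00000)) e
 (c (a (nat_lit 0xfdff801))
 (c z e
 (c (b (nat_lit 0xfdcfc07)) e e))
 (c (a (nat_lit 0xfe00001))
 (c (nat_lit 0x7f5677f5677f5677f5607f5677f567eaf8b) e
 (c z e
 (c z e
 (c (b (nat_lit 0x1045980b)) e e))))
 (c (nat_lit 0x7f0227f0227f0227f0117f011daae1) e
 (c (a (nat_lit 0xfc4dc01)) e
 (c (a (nat_lit 0xff07801)) e
 (c (nat_lit 0x7ee3d7ee2f7ee317ee3d7ee3dfb0e3) e
 (c (nat_lit 0x7ebe27ebe27ebd77ebe07ebe251dc3) e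
 (c z e
 (c (a (nat_lit 0x100da203)) e
 (c (nat_lit 0x7f3987f3987f3947f3987f39898643) e
 (c (a (nat_lit 0xfd89e05)) e
 (c (a (nat_lit 0xff07605)) e
 (c (a (nat_lit 0xff53405)) e
 (c (a (nat_lit 0xfc90c07)) e
 (c (nat_lit 0x7e8a07e8a07e8a07e86b7e8a088407) e
 (c (a (nat_lit 0xfe70807)) e
 (c z e
 (c (a (nat_lit 0xfe25007)) e
 (c (nat_lit 0x7f9947f9947f9937f95a7f95aa2a4b) e
 (c (nat_lit 0x7fa087fa087fa487fa487fa481a02b) e
 (c (nat_lit 0x7ffaf7ffaf7ffaf8000080000c248b) e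
 (c (nat_lit 0x7f95a7f8de7f8fb7f95a7f95aab5eb) e e))))))))))))))))))))))))))) Tr.c Tr.e (nat_lit 0) C.t5 C.t6
noncomputable def tt590 : Tr := beta% (fun (c : Nat → Tr → Tr → Tr) (e : Tr) (z : Nat) (a b d : Nat → Nat) =>
 (c (nat_lit 0x7f0007effe7effe7f0007f0009c880)
 (c (b (nat_lit 0x1043b603))
 (c (d (nat_lit 0xfdbf807)) e
 (c z e
 (c z e
 (c z e
 (c z e
 (c z e
 (c (nat_lit 0x8000080000800007ff188000080000800007a498) e e)))))))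
 (c z e
 (c z e
 (c z e
 (c z e
 (c z e
 (c z e
 (c z e
 (c (nat_lit 0x7c8e27c8d37c8d37c8e27c8e27c8e2e92c7) e
 (c (nat_lit 0x800007fe277fe27800008000080000c5747) e
 (c z e
 (c z e
 (c z e
 (c (b (nat_lit 0x103f0a0b)) e
 (c z e
 (c (b (nat_lit 0x101e5e0b)) e e))))))))))))))))
 (c (a (nat_lit 0xfe00000)) e
 (c (nat_lit 0x7f0057f0047f0047f0047f00564460)
 (c z e
 (c z e
 (c z e
 (c z e
 (c z e
 (c z e
 (c z e
 (c z e
 (c z e
 (c z e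
 (c z e
 (c z e
 (c z e
 (c (b (nat_lit 0xff50213)) e e))))))))))))))
 (c (a (nat_lit 0xfdff200))
 (c z e
 (c z e
 (c z e
 (c z e
 (c z e
 (c z e
 (c z e
 (c z e
 (c z e
 (c (b (nat_lit 0xffffa0b)) e e))))))))))
 (c (a (nat_lit 0xfdffe00))
 (c z e
 (c (b (nat_lit 0xfbfc407)) e e))
 (c (a (nat_lit 0xfe00000)) e
 (c (nat_lit 0x7f0067f0007f0007f0007f00191ca1) e
 (c (nat_lit 0x7f0117f0117f00f7f00f7f011a30a1) e
 (c (a (nat_lit 0xfdfb201)) e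
 (c (a (nat_lit 0xff23c01)) e
 (c (nat_lit 0x7ee417ee3e7ee757ee757ee7552c41) e
 (c (a (nat_lit 0xfd7c603)) e
 (c (nat_lit 0x7ec2c7ec2c7ebf37ebfd7ec2c0f1e3) e
 (c z e
 (c z e
 (c (nat_lit 0x7eb967eb967eb6b7eb967eb96307e3) e
 (c (a (nat_lit 0xfe1da05)) e
 (c (a (nat_lit 0xfde2005)) e
 (c (a (nat_lit 0xfebd805)) e
 (c (a (nat_lit 0xfdeac07)) e
 (c (a (nat_lit 0xfe45a07)) e
 (c (a (nat_lit 0xfe29e07)) e
 (c z e
 (c (nat_lit 0x7ef947eff97eff97eff97eff975c07) e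
 (c (a (nat_lit 0xfe9400b)) e
 (c z e
 (c (nat_lit 0x7f8e07f8c17f8e07f8e07f8e087fcb) e e)))))))))))))))))))))))))))) Tr.c Tr.e (nat_lit 0) C.t5 C.t6 C.t7
noncomputable def tt591 : Tr := beta% (fun (c : Nat → Tr → Tr → Tr) (e : Tr) (z : Nat) (a b d : Nat → Nat) =>
 (c (a (nat_lit 0xfe01000))
 (c (b (nat_lit 0x101fe401))
 (c (d (nat_lit 0xee1aa05)) e
 (c (d (nat_lit 0xff11e07)) e
 (c (d (nat_lit 0xf68f607)) e
 (c z e
 (c (nat_lit 0x77d2177d2177d2177c7177d2177d2177d2135107) e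
 (c z e
 (c z e
 (c z e
 (c (d (nat_lit 0x1037900d)) e e)))))))))
 (c (b (nat_lit 0x101ff801)) e
 (c z
 (c z e
 (c z e
 (c z e
 (c z e
 (c z e
 (c (nat_lit 0x80000800007fe9a800007fb147fda480000ebd8d) e e))))))
 (c (nat_lit 0x83c4c83d3283d3283d3283d3283d320b943) e
 (c (b (nat_lit 0x104eb603)) e
 (c z e
 (c z e
 (c z e
 (c (nat_lit 0x80000800007fb1e800008000080000e6345) e
 (c (b (nat_lit 0x10200a05)) e
 (c (nat_lit 0x7ff6a80000800008000080000800009da45) e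
 (c z e
 (c (b (nat_lit 0x101e4007)) e
 (c (b (nat_lit 0x1009e807)) e
 (c z e
 (c z e
 (c z e
 (c (b (nat_lit 0x1033460b)) e
 (c z e
 (c (nat_lit 0x7f6af8000080000800008000080000aaccd) e
 (c (b (nat_lit 0x1017e00d)) e e)))))))))))))))))))))
 (c (a (nat_lit 0xfdffa00))
 (c z e
 (c (nat_lit 0x84fd684fc784fc984fd684fd684fd6e1343) e
 (c (b (nat_lit 0x103a6803)) e
 (c z e
 (c z e
 (c z e
 (c z e
 (c z e
 (c (b (nat_lit 0xf96c005)) e e)))))))))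
 (c (a (nat_lit 0xfdffa00))
 (c (b (nat_lit 0x1014c003)) e e)
 (c (a (nat_lit 0xfdff000))
 (c z e
 (c z e
 (c z e
 (c z e
 (c (b (nat_lit 0x10739405)) e
 (c z e
 (c z e
 (c z e
 (c z e
 (c z e
 (c z e
 (c (b (nat_lit 0xffd460b)) e e))))))))))))
 (c (a (nat_lit 0xfe00a00))
 (c (b (nat_lit 0x1003ee05)) e
 (c z e
 (c (b (nat_lit 0x1022ea05)) e
 (c (nat_lit 0x80000800008000080000800007ff7a5e585) e
 (c (b (nat_lit 0x10559e07)) e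
 (c (nat_lit 0x84dd884dd884cd584dd884dd884dd84f8c7) e
 (c z e
 (c (b (nat_lit 0x102f8a07)) e
 (c z e
 (c (nat_lit 0x8047b8047b8046e8047b8047b8047be0c4b) e
 (c (b (nat_lit 0x10763e0d)) e
 (c (nat_lit 0x7ffe17ffe17ffe17ffe17fedf7fedf59bcd) e e))))))))))))
 (c (a (nat_lit 0xfdffc00))
 (c z e
 (c z e
 (c (nat_lit 0x800008000080000800007ff057ff05ecc85) e
 (c z e
 (c z e
 (c z e
 (c z e
 (c (b (nat_lit 0x1034f20b)) e
 (c z e
 (c (b (nat_lit 0x1066800d)) e e))))))))))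
 (c (a (nat_lit 0xfdfe000))
 (c z e
 (c (nat_lit 0x80000800007ff89800008000080000a8c87) e e))
 (c (a (nat_lit 0xfe00e00))
 (c (nat_lit 0x80000800007ff928000080000800002a807) e
 (c z e
 (c z e
 (c (b (nat_lit 0x1035500b)) e e))))
 (c (a (nat_lit 0xfe01401))
 (c z e
 (c z e
 (c z e
 (c (b (nat_lit 0xfffea0d)) e e))))
 (c (a (nat_lit 0xfe00001))
 (c (b (nat_lit 0xfeedc0d)) e e)
 (c (a (nat_lit 0xfdfc601)) e
 (c (a (nat_lit 0xfdcd601)) e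
 (c (a (nat_lit 0xfbb3401)) e
 (c (nat_lit 0x7ddc77ddbf7ddc77ddc77ddc7b24c3) e
 (c (nat_lit 0x7edbc7edbc7edba7edbc7edbc099a3) e
 (c z e
 (c (a (nat_lit 0x10070203)) e
 (c (a (nat_lit 0xfe7ac03)) e
 (c (a (nat_lit 0xff78a05)) e
 (c (a (nat_lit 0xfee7005)) e
 (c (a (nat_lit 0xff1a005)) e
 (c (a (nat_lit 0xff21407)) e
 (c (nat_lit 0x7f28a7f2817f28a7f28a7f28abe8e7) e
 (c (a (nat_lit 0xfe47207)) e
 (c z e
 (c z e
 (c z e
 (c (nat_lit 0x7eb407eb407eb0c7eb407eb40ba4cb) e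
 (c (a (nat_lit 0xfe3860d)) e
 (c (nat_lit 0x7f05a7f0f37f0f37f0f37f0f3b87ed) e
 (c (nat_lit 0x7f06c7f06c7f0d87f0d87f0d81554d) e e)))))))))))))))))))))))))))))))) Tr.c Tr.e (nat_lit 0) C.t5 C.t6 C.t7
noncomputable def tt592 : Tr := beta% (fun (c : Nat → Tr → Tr → Tr) (e : Tr) (z : Nat) (a b d : Nat → Nat) =>
 (c (a (nat_lit 0xfdff400))
 (c (nat_lit 0x81017810178100180fff80ffe810020b8c1)
 (c (d (nat_lit 0xfda9c05)) e
 (c z e
 (c z e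
 (c z e
 (c (nat_lit 0x76bfc76bfc76ba876a6076bfc76bfc76bfc96687) e
 (c z e
 (c z e
 (c z e
 (c z e
 (c (nat_lit 0x82d1782d1782d1782d1782a3082d1782d17c558d) e e))))))))))
 (c (nat_lit 0x8100f8100f8100f81007810098100daa041) e
 (c (b (nat_lit 0x10200001)) e
 (c z e
 (c (b (nat_lit 0x1008be03))
 (c (d (nat_lit 0x10ff900d)) e e)
 (c (nat_lit 0x82c1182c1182c1182c0f82c1182c114a903) e
 (c z e
 (c z e
 (c z e
 (c (nat_lit 0x8105e8105e80fce8105e8105e8105e10e05) e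
 (c z e
 (c (nat_lit 0x7fe397ff378000080000800008000093c85) e
 (c z e
 (c (b (nat_lit 0x10562e07)) e
 (c z e
 (c z e
 (c (b (nat_lit 0xfe21807)) e
 (c z e
 (c (b (nat_lit 0x101ac00d)) e
 (c (b (nat_lit 0x10212a0d)) e
 (c z e
 (c (nat_lit 0x800007ffec8000080000800008000085a95) e e))))))))))))))))))))))
 (c (a (nat_lit 0xfdff800))
 (c (b (nat_lit 0x10200801)) e
 (c z e
 (c (b (nat_lit 0x10388203)) e
 (c (b (nat_lit 0x1027ac03)) e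
 (c z e
 (c z e
 (c z e
 (c z e
 (c z e
 (c z e
 (c z e
 (c z e
 (c z e
 (c z e
 (c z e
 (c z e
 (c (b (nat_lit 0xfd1aa0d)) e
 (c (b (nat_lit 0xfff0e0d)) e e))))))))))))))))))
 (c (a (nat_lit 0xfdfea00))
 (c (b (nat_lit 0x10134603))
 (c z e
 (c (d (nat_lit 0x1100000b)) e e))
 (c (nat_lit 0x8114980efc81149811498114981149e9343)
 (c (d (nat_lit 0x10a3220d)) e
 (c (d (nat_lit 0xfff7e0d)) e e))
 (c (b (nat_lit 0x1030a203)) e
 (c z e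
 (c z e
 (c (nat_lit 0x820978209781dfe82097820978209782385) e
 (c (b (nat_lit 0x102a5205)) e
 (c (b (nat_lit 0x10361c05)) e
 (c z e
 (c z e
 (c z e
 (c (b (nat_lit 0x10459007)) e
 (c z e
 (c (b (nat_lit 0x1023e00b)) e e))))))))))))))
 (c (a (nat_lit 0xfdff600))
 (c (b (nat_lit 0x10802603))
 (c (d (nat_lit 0xfff680d)) e
 (c (d (nat_lit 0xf7d4e0d)) e e))
 (c z e
 (c (b (nat_lit 0xfb71e03)) e
 (c (nat_lit 0x80000800007f77280000800008000000cc5) e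
 (c z e
 (c z e
 (c (b (nat_lit 0x101ee007)) e
 (c (b (nat_lit 0x1041a207)) e
 (c (nat_lit 0x8000080000800007fb858000080000f7487) e
 (c z e
 (c z e
 (c (b (nat_lit 0x10412c0b)) e
 (c (nat_lit 0x819a6819a6819a68196181961819a687f0d) e
 (c z e
 (c (nat_lit 0x800007ff177ff1780000800008000054d8d) e
 (c (nat_lit 0x800007feaa7feaa800008000080000affd3) e e))))))))))))))))
 (c (a (nat_lit 0xfdfdc00))
 (c (nat_lit 0x82c038284682c0382c0382c0382c03cb083) e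
 (c z e
 (c z e
 (c z e
 (c z e
 (c (b (nat_lit 0xfca3207)) e
 (c z e
 (c z e
 (c z e
 (c (nat_lit 0x7b4967b4967b3f57b4967b4967b496cd3cb) e
 (c (b (nat_lit 0x105ee40d)) e
 (c (b (nat_lit 0x1017d40d)) e
 (c (b (nat_lit 0x1004a00d)) e
 (c (b (nat_lit 0xfff9a18)) e e))))))))))))))
 (c (a (nat_lit 0xfdffa00))
 (c z e
 (c z e
 (c z e
 (c z e
 (c z e
 (c z e
 (c z e
 (c z e
 (c z e
 (c (b (nat_lit 0x10273c0d)) e
 (c (b (nat_lit 0x102cb80d)) e e)))))))))))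
 (c (a (nat_lit 0xfdffe00))
 (c z e
 (c z e
 (c z e
 (c z e
 (c (b (nat_lit 0x10224e07)) e
 (c (b (nat_lit 0x1006d60b)) e
 (c z e
 (c (b (nat_lit 0xfffb40d)) e e))))))))
 (c (a (nat_lit 0xfdfd400))
 (c (b (nat_lit 0x10064e07)) e
 (c z e
 (c z e
 (c (b (nat_lit 0x1027a40b)) e
 (c (nat_lit 0x8000080000800007ff8f8000080000b6c8d) e
 (c z e
 (c (b (nat_lit 0x103d560d)) e e)))))))
 (c (a (nat_lit 0xfe00400))
 (c z e
 (c z e
 (c z e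
 (c z e
 (c z e
 (c (b (nat_lit 0x10b41011)) e e))))))
 (c (a (nat_lit 0xfdfd401))
 (c (nat_lit 0x7aef07aef07aef07adcf7aef07aef01ab0d) e e)
 (c (a (nat_lit 0xfe00001)) e
 (c (a (nat_lit 0xfdf9401)) e
 (c (nat_lit 0x7f1367f1367f1367f1367f001dfa81) e
 (c (nat_lit 0x7e17b7e1797e18d7e18d7e18d02021) e
 (c (nat_lit 0x7f1837f16d7f16a7f1837f183a4363) e
 (c (nat_lit 0x7f19e7f19e7f1747f1767f19e28643) e
 (c (a (nat_lit 0x101bf603)) e
 (c z e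
 (c (a (nat_lit 0xfeed403)) e
 (c (a (nat_lit 0xfe89005)) e
 (c (a (nat_lit 0xff12405)) e
 (c (a (nat_lit 0xff67e05)) e
 (c (nat_lit 0x7eed47eeda7eece7eeda7eedaf6467) e
 (c (a (nat_lit 0xfdd3607)) e
 (c (a (nat_lit 0xfdd7a07)) e
 (c z e
 (c (a (nat_lit 0x10029e07)) e
 (c (a (nat_lit 0xfedac0b)) e
 (c (a (nat_lit 0xff5480d)) e
 (c (a (nat_lit 0xff6040d)) e
 (c (a (nat_lit 0xff7740d)) e e)))))))))))))))))))))))))))))))) Tr.c Tr.e (nat_lit 0) C.t5 C.t6 C.t7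
noncomputable def tt593 : Tr := beta% (fun (c : Nat → Tr → Tr → Tr) (e : Tr) (z : Nat) (a b : Nat → Nat) =>
 (c (a (nat_lit 0x1010ee00))
 (c z e
 (c z e
 (c z e
 (c z e
 (c (nat_lit 0x7cb6d7cb6d7cb6d7cb6d7cb0e7cb6d7cb6df8085) e
 (c (b (nat_lit 0xf479007)) e
 (c (b (nat_lit 0xf493407)) e
 (c z e
 (c (b (nat_lit 0xffe7007)) e
 (c (nat_lit 0x80000800007fefa8000080000800008000061487) e
 (c z e
 (c (b (nat_lit 0x1074c60d)) e
 (c (nat_lit 0x80000800007ff3c800008000080000800003688d) e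
 (c (b (nat_lit 0x10c9380d)) e
 (c (b (nat_lit 0x10ffbe19)) e e)))))))))))))))
 (c (a (nat_lit 0x101ff401))
 (c z e
 (c (b (nat_lit 0xf6a6405)) e
 (c z e
 (c z e
 (c z e
 (c z e
 (c z e
 (c (b (nat_lit 0xfd84407)) e e))))))))
 (c (a (nat_lit 0x101ffc01)) e
 (c (nat_lit 0x810318103181031810168101681016008c1)
 (c (b (nat_lit 0xfa23607)) e
 (c (b (nat_lit 0xfa36a07)) e
 (c z e
 (c z e
 (c z e
 (c z e
 (c z e
 (c (b (nat_lit 0xfa6500d)) e e))))))))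
 (c z e
 (c (nat_lit 0x7fe207fe2080000800008000080000c3c41)
 (c z e
 (c z e
 (c (b (nat_lit 0x1057de0d)) e e)))
 (c z
 (c z e
 (c z e
 (c (b (nat_lit 0x10580619)) e e)))
 (c (a (nat_lit 0x100fba03)) e
 (c (a (nat_lit 0x101aee03)) e
 (c (a (nat_lit 0x1029fe03)) e
 (c z e
 (c (a (nat_lit 0xff90a05)) e
 (c (a (nat_lit 0xfe6a005)) e
 (c z e
 (c (a (nat_lit 0xfb4a607)) e
 (c (a (nat_lit 0x101e3207)) e
 (c (a (nat_lit 0x101df007)) e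
 (c (a (nat_lit 0xfebf807)) e
 (c z e
 (c (a (nat_lit 0x1014400b)) e
 (c (a (nat_lit 0x1005ea0d)) e
 (c z e
 (c (nat_lit 0x7fefd7fefd80000800008000080000e118d) e
 (c (a (nat_lit 0x1011b819)) e e))))))))))))))))))))))))) Tr.c Tr.e (nat_lit 0) C.t6 C.t7
noncomputable def tt594 : Tr := beta% (fun (c : Nat → Tr → Tr → Tr) (e : Tr) (z : Nat) (a b d : Nat → Nat) =>
 (c (a (nat_lit 0xfdffc00))
 (c z
 (c z e
 (c z e
 (c z e
 (c z e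
 (c z e
 (c z e
 (c z e
 (c z e
 (c (nat_lit 0x800007f9328000080000800008000080000da8b0) e e)))))))))
 (c (nat_lit 0x81002810028100281002810018100208301) e
 (c z e
 (c (b (nat_lit 0x103c4403)) e
 (c z e
 (c (b (nat_lit 0x102f0403)) e
 (c z e
 (c z e
 (c z e
 (c z e
 (c (b (nat_lit 0xfc1fa05)) e
 (c z e
 (c z e
 (c z e
 (c z e
 (c (b (nat_lit 0x10140e07)) e e))))))))))))))))
 (c (a (nat_lit 0xfdff400))
 (c z e
 (c (b (nat_lit 0x10275603))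
 (c (d (nat_lit 0x10762e0d)) e e)
 (c (b (nat_lit 0x101a6403)) e
 (c z e
 (c z e
 (c (b (nat_lit 0x10092603)) e
 (c (b (nat_lit 0xfd8d005)) e
 (c z e
 (c (b (nat_lit 0xfcc7605)) e
 (c z e
 (c z e
 (c (b (nat_lit 0x1042b207)) e
 (c z e
 (c (b (nat_lit 0x103f5607)) e
 (c (b (nat_lit 0x1046340d)) e
 (c (b (nat_lit 0x1027560d)) e
 (c (nat_lit 0x7e3347e3347e34f7e34f7e34f7e34f3e14d) e
 (c (nat_lit 0x800007fecd7fecd8000080000800005c853) e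
 (c z e
 (c z e
 (c z e
 (c (nat_lit 0x80000800008000080000800007fd722928f) e e))))))))))))))))))))))
 (c (a (nat_lit 0xfe00800))
 (c (b (nat_lit 0x10279403))
 (c (nat_lit 0x800008000080000800007ff30800008000003c8d) e e)
 (c (b (nat_lit 0x100dea03)) e
 (c z e
 (c (b (nat_lit 0x1027d403)) e
 (c z e
 (c z e
 (c z e
 (c (b (nat_lit 0xfd96407)) e
 (c (nat_lit 0x8000080000800007ff028000080000b9c47) e
 (c (b (nat_lit 0x101f6c07)) e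
 (c z e
 (c z e
 (c (nat_lit 0x8137a8137a8136b8136b8137a8137a8b9cd) e
 (c (b (nat_lit 0x1027de0d)) e e))))))))))))))
 (c (a (nat_lit 0xfdfda00))
 (c z e
 (c (b (nat_lit 0xfd7ba03)) e
 (c z e
 (c z e
 (c z e
 (c (nat_lit 0x7fbea800008000080000800008000007b47) e
 (c (nat_lit 0x7dea17dea17dea17de5d7dea17dea156947) e
 (c (nat_lit 0x8000080000800007ffe580000800003dcc7) e
 (c z e
 (c (b (nat_lit 0xfce9a07)) e
 (c z e
 (c z e
 (c z e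
 (c (b (nat_lit 0x10247014)) e e))))))))))))))
 (c (a (nat_lit 0xfe00000))
 (c z e
 (c z e
 (c z e
 (c z e
 (c (b (nat_lit 0x10148407)) e
 (c z e
 (c z e
 (c z e
 (c z e
 (c z e
 (c z e
 (c (b (nat_lit 0x10237214)) e
 (c (b (nat_lit 0x1024e614)) e e)))))))))))))
 (c (a (nat_lit 0xfdff000))
 (c z e
 (c z e
 (c z e
 (c z e
 (c z e
 (c z e
 (c (b (nat_lit 0x105e480d)) e
 (c z e
 (c z e
 (c z e
 (c z e
 (c z e
 (c z e
 (c z e
 (c (nat_lit 0x80000800008000080000800007ff047448f) e e)))))))))))))))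
 (c (a (nat_lit 0xfdffe00))
 (c z e
 (c z e
 (c z e
 (c z e
 (c (nat_lit 0x8020180201802017ff3680201802016aa4d) e
 (c z e
 (c (b (nat_lit 0xff8300d)) e e)))))))
 (c (a (nat_lit 0xfe03000))
 (c z e
 (c (nat_lit 0x800007fc2080000800008000080000a8cc7) e
 (c z e
 (c z e
 (c z e
 (c (b (nat_lit 0x102ba411)) e e))))))
 (c (a (nat_lit 0xfdfb600))
 (c (nat_lit 0x7a59f7a59f7a4f47a59f7a59f7a59f2890d) e
 (c z e
 (c z e
 (c z e
 (c (b (nat_lit 0x106a2620)) e e)))))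
 (c (a (nat_lit 0xfdffe01))
 (c z e
 (c (nat_lit 0x8000080000826bf826bf826bf826bf1c620) e e))
 (c (a (nat_lit 0xfdffa01)) e
 (c (a (nat_lit 0xfdfea01)) e
 (c (a (nat_lit 0xfdedc01)) e
 (c (nat_lit 0x7f0a97f0ad7f0de7f0de7f0de7f341) e
 (c (a (nat_lit 0xfe08e03)) e
 (c (nat_lit 0x7f10e7f10e7f0c87f0cf7f10e54683) e
 (c (nat_lit 0x7f1177f1177f1177f0ed7f11791963) e
 (c (a (nat_lit 0x10046403)) e
 (c (a (nat_lit 0xfec3e03)) e
 (c (a (nat_lit 0xfef3a05)) e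
 (c (a (nat_lit 0xff70405)) e
 (c (nat_lit 0x7f1927f1917f1cc7f1cc7f1cc3c905) e
 (c (nat_lit 0x7f1827f1817f1827f1827f182451e7) e
 (c (a (nat_lit 0xfe2f607)) e
 (c (a (nat_lit 0xff0da07)) e
 (c z e
 (c (a (nat_lit 0xfe02e07)) e
 (c (a (nat_lit 0xff6920d)) e
 (c (a (nat_lit 0xff9e40d)) e
 (c (a (nat_lit 0xff9ce0d)) e
 (c z e
 (c (nat_lit 0x800008000080000800007ffe32f5ef) e e))))))))))))))))))))))))))))))))) Tr.c Tr.e (nat_lit 0) C.t5 C.t6 C.t7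
noncomputable def tt595 : Tr := beta% (fun (c : Nat → Tr → Tr → Tr) (e : Tr) (z : Nat) (a b : Nat → Nat) =>
 (c (a (nat_lit 0x101fba00))
 (c (b (nat_lit 0xfa63803)) e
 (c (b (nat_lit 0xfd99a03)) e
 (c z e
 (c z e
 (c (b (nat_lit 0xf9f8405)) e
 (c (b (nat_lit 0xfdf5805)) e
 (c (b (nat_lit 0xf4f9a07)) e
 (c (b (nat_lit 0xfe69207)) e
 (c (b (nat_lit 0xfdcea07)) e
 (c z e
 (c z e
 (c (nat_lit 0x800007ff088000080000800008000080000ebb8d) e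
 (c (nat_lit 0x80000800007f512800008000080000800008340d) e e)))))))))))))
 (c (a (nat_lit 0x101fca00)) e
 (c (a (nat_lit 0x10202001)) e
 (c (nat_lit 0x8102d8102d8102c8102c8102c8102d6e381)
 (c z e
 (c (b (nat_lit 0xf61fc07)) e
 (c z e
 (c z e
 (c z e
 (c z e
 (c z e
 (c z e
 (c z e
 (c (nat_lit 0x800008000080000800007ff6780000800000fb15) e e))))))))))
 (c (a (nat_lit 0x10201401))
 (c (nat_lit 0x800008000080000800007ff8e800008000008b87) e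
 (c z e
 (c z e
 (c z e
 (c (b (nat_lit 0x10712c0d)) e
 (c z e
 (c z e
 (c (b (nat_lit 0xfa7cc23)) e e))))))))
 (c (a (nat_lit 0x10206601))
 (c z e
 (c z e
 (c z e
 (c z e
 (c z e
 (c (b (nat_lit 0xfffd630)) e e))))))
 (c z e
 (c (nat_lit 0x80d0580cf180ce280d0580d0580d053f843) e
 (c (a (nat_lit 0x1020f403)) e
 (c (a (nat_lit 0x1025e803)) e
 (c z e
 (c (a (nat_lit 0xfd2c203)) e
 (c (a (nat_lit 0x101d6205)) e
 (c (a (nat_lit 0xf9ba405)) e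
 (c z e
 (c z e
 (c (a (nat_lit 0x100e6e07)) e
 (c (a (nat_lit 0xfef8c07)) e
 (c z e
 (c (a (nat_lit 0x10090607)) e
 (c (nat_lit 0x80d0f80d0f80cc980d0f80d0f80d0f1fa8d) e
 (c z e
 (c (nat_lit 0x7ffcd7fe6e7fe6e800008000080000b1dcd) e
 (c (nat_lit 0x800007fec37fec38000080000800002eb95) e e))))))))))))))))))))))))) Tr.c Tr.e (nat_lit 0) C.t6 C.t7
noncomputable def tt596 : Tr := beta% (fun (c : Nat → Tr → Tr → Tr) (e : Tr) (z : Nat) (a b : Nat → Nat) =>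
 (c z
 (c (b (nat_lit 0xf47ee01)) e
 (c (nat_lit 0x7be6c7be6c7be6c7be6c7bbc37bdd17be6cc5003) e
 (c (nat_lit 0x7e26f7e26f7e26f7e26f7e26f7e26f7e0c4e4e03) e
 (c (nat_lit 0x800007fecb800008000080000800008000086203) e
 (c z e
 (c z e
 (c z e
 (c z e
 (c z e
 (c (b (nat_lit 0xfff7a07)) e
 (c z e
 (c z e
 (c (b (nat_lit 0xf611007)) e
 (c (b (nat_lit 0xff74607)) e
 (c (nat_lit 0x8000080000800007ff8b8000080000800009658d) e
 (c (nat_lit 0x79f0a79f0a79f0a79e7d79c4c79f0a79f0a1e10d) e e))))))))))))))))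
 (c (a (nat_lit 0x101fbc00))
 (c (nat_lit 0x7eb687ea2b7eb687eb687eb687eb687eb6855283) e
 (c z e
 (c (nat_lit 0x7f15a7f15a7f15a7f1277f15a7f15a7f15aa4c83) e
 (c z e
 (c (nat_lit 0x80000800007fc6780000800007ffbd80000e0b05) e
 (c (b (nat_lit 0xfc9b205)) e
 (c z e
 (c (nat_lit 0x7d4c37d4c37d4c37d4c37d4c37d4c37d358d2107) e
 (c (b (nat_lit 0xfd77a07)) e
 (c z e
 (c z e
 (c z e
 (c z e
 (c (b (nat_lit 0x10b54a0d)) e
 (c (b (nat_lit 0xfe5920d)) e e)))))))))))))))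
 (c (a (nat_lit 0x101f8c00))
 (c z e
 (c z e
 (c z e
 (c (b (nat_lit 0xfff6805)) e
 (c z e
 (c (b (nat_lit 0xf3b6e07)) e
 (c z e
 (c z e
 (c z e
 (c (nat_lit 0x800007fdd9800008000080000800008000018007) e
 (c z e
 (c z e
 (c z e
 (c z e
 (c (b (nat_lit 0xfff5425)) e e)))))))))))))))
 (c (a (nat_lit 0x101f9600))
 (c (b (nat_lit 0xe621405)) e
 (c (b (nat_lit 0xf8e5e05)) e
 (c (b (nat_lit 0xfa9a405)) e
 (c (b (nat_lit 0xfc3ac07)) e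
 (c z e
 (c z e
 (c z e
 (c (b (nat_lit 0xfda2607)) e
 (c (nat_lit 0x80000800007f213800008000080000800005630d) e
 (c z e
 (c (nat_lit 0x800007fe9d8000080000800008000080000f7e0d) e e)))))))))))
 (c (nat_lit 0x8100c8100c8100c8100c8100b8100c58f81)
 (c z e
 (c (nat_lit 0x7bb797badd7bb797bb797bb797bb797bb7921587) e e))
 (c (a (nat_lit 0x101efc01))
 (c (b (nat_lit 0xfca6c07)) e
 (c (b (nat_lit 0xf9bee07)) e
 (c z e
 (c z e
 (c (b (nat_lit 0x1030c60d)) e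
 (c (b (nat_lit 0x106dc00d)) e e))))))
 (c z e
 (c z
 (c (b (nat_lit 0x1100000d)) e e)
 (c z
 (c (b (nat_lit 0xfb46e0d)) e e)
 (c (a (nat_lit 0x100d5603)) e
 (c (a (nat_lit 0x1014dc03)) e
 (c (a (nat_lit 0x102f5203)) e
 (c (a (nat_lit 0x1048ca03)) e
 (c (a (nat_lit 0x10298c03)) e
 (c (a (nat_lit 0xffca205)) e
 (c z e
 (c (a (nat_lit 0x101dfc05)) e
 (c (a (nat_lit 0x10122e07)) e
 (c (a (nat_lit 0x1019b607)) e
 (c (a (nat_lit 0x10220407)) e e))))))))))))))))))))) Tr.c Tr.e (nat_lit 0) C.t6 C.t7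
noncomputable def tt597 : Tr := beta% (fun (c : Nat → Tr → Tr → Tr) (e : Tr) (z : Nat) (a b d : Nat → Nat) =>
 (c (a (nat_lit 0x10200400))
 (c (b (nat_lit 0xfdff400)) tt596
 (c (b (nat_lit 0xfdfda00)) tt595
 (c (b (nat_lit 0xfdff800))
 (c (d (nat_lit 0x101fe401)) e
 (c (d (nat_lit 0x10200601)) e
 (c (d (nat_lit 0x101fea01)) e
 (c (d (nat_lit 0x10201201)) e
 (c z e
 (c (d (nat_lit 0x1050a403)) e
 (c z e
 (c (nat_lit 0x808d8808d8808d8808b0808bd808d844883) e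
 (c z e
 (c z e
 (c (d (nat_lit 0xffe2205)) e
 (c z e
 (c z e
 (c (d (nat_lit 0x106a2a07)) e
 (c (d (nat_lit 0x1018c807)) e e))))))))))))))) tt594)))
 (c (a (nat_lit 0x10200400))
 (c (b (nat_lit 0xfdff600)) tt593 tt592)
 (c (a (nat_lit 0x10200200)) tt591
 (c (nat_lit 0x81000810018100181000790a0) tt590
 (c (a (nat_lit 0x10200400)) tt589
 (c (a (nat_lit 0x101ffc00)) tt588
 (c (a (nat_lit 0x10200400))
 (c (b (nat_lit 0xff05e01))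
 (c z e
 (c z e
 (c z e
 (c z e
 (c (d (nat_lit 0xf80f009)) e
 (c (d (nat_lit 0xfda620c)) e
 (c (d (nat_lit 0xfc6a80c)) e e)))))))
 (c (b (nat_lit 0xfdfe601)) e
 (c (nat_lit 0x7efff7efff7efff7effd7effe34201) e
 (c z e
 (c (b (nat_lit 0xfcce801)) e
 (c (b (nat_lit 0xff7de03)) e
 (c z e
 (c z e
 (c z e
 (c (b (nat_lit 0xff49003)) e
 (c (nat_lit 0x7e80c7e80c7e7f47e80c7e80c6f4a5) e
 (c (nat_lit 0x7fd347fd347fd347fc737fd3454825) e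
 (c (nat_lit 0x7f3637f3717f3b17f3b17f3b1d04c5) e
 (c (nat_lit 0x7ee897ee757ee897ee897ee8973307) e
 (c (b (nat_lit 0xfdc8807)) e
 (c (b (nat_lit 0xffd0407)) e
 (c z e
 (c (nat_lit 0x7e7ef7e8957e8957e8957e895104e7) e
 (c (b (nat_lit 0xfd8c209)) e
 (c (b (nat_lit 0xfcf040c)) e
 (c (nat_lit 0x7e7d27e7d27e7c57e7d27e7d26724c) e
 (c (nat_lit 0x7eaf37eaf37eaf37eab47eab4131ec) e
 (c z e
 (c (nat_lit 0x8000080000800007f9f97f9f93404b) e e)))))))))))))))))))))))) tt587)))))))) Tr.c Tr.e (nat_lit 0) C.t4 C.t5 C.t6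
noncomputable def tt598 : Tr := beta% (fun (c : Nat → Tr → Tr → Tr) (e : Tr) (z : Nat) (a b : Nat → Nat) =>
 (c (a (nat_lit 0x10200400))
 (c (b (nat_lit 0xfdff201))
 (c (nat_lit 0x7a8f07a8f07a8c67a8c67a8f07a8f0d1a87) e e)
 (c (nat_lit 0x7f01c7f01c7f01c7f00d7f00f6a281) e
 (c (nat_lit 0x7f08d7f08d7f08d7f08d7f007c6ac1) e
 (c (b (nat_lit 0xff42c01)) e
 (c (nat_lit 0x7fc187fc167fc107fc187fc1840b23) e
 (c (nat_lit 0x7fd3c7fd3c7fd397fd2d7fd3cb17c3) e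
 (c z e
 (c z e
 (c z e
 (c z e
 (c (nat_lit 0x7eed07f14a7f14a7f14a7f14ac0a45) e
 (c (b (nat_lit 0xffd1a07)) e
 (c z e
 (c (b (nat_lit 0x10253207)) e
 (c z e
 (c (b (nat_lit 0xfed8a07)) e
 (c (b (nat_lit 0xfdabe09)) e
 (c (b (nat_lit 0xfd0a209)) e
 (c (b (nat_lit 0xfd3ee09)) e
 (c (b (nat_lit 0xfcfd60c)) e
 (c (nat_lit 0x7e7f27e7f27e7f17e7df7e7f2feacc) e
 (c (nat_lit 0x8000080000800007f1f47f1f4716ec) e e))))))))))))))))))))))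
 (c (a (nat_lit 0x10200200))
 (c (b (nat_lit 0xfbcda01)) e
 (c (nat_lit 0x7e6767e66c7e6e67e6e67e6e6295c1) e
 (c (nat_lit 0x7ea087e9f77e9ed7ea087ea087cb43) e
 (c (nat_lit 0x7e4d57e4d57e4b57e4c47e4d51c1e3) e
 (c z e
 (c z e
 (c (b (nat_lit 0x1019f603)) e
 (c (b (nat_lit 0x10821c05)) e
 (c (nat_lit 0x7fc267fc717fc717fc717fc7168605) e
 (c z e
 (c (b (nat_lit 0xff8d807)) e
 (c (b (nat_lit 0xffc4e07)) e
 (c (b (nat_lit 0xff92407)) e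
 (c (b (nat_lit 0xfe35607)) e
 (c (nat_lit 0x7f9897f9897f96e7f9897f989c30e9) e
 (c (b (nat_lit 0xff8b209)) e
 (c (nat_lit 0x800008000080000800007ff1f52d49) e
 (c z e
 (c (nat_lit 0x80069800698003a800698006962d8c) e
 (c (nat_lit 0x800007ffcb8000080000800008f06c) e e))))))))))))))))))))
 (c (a (nat_lit 0x101ffc00))
 (c (b (nat_lit 0xfd41203)) e
 (c (b (nat_lit 0xfdb1403)) e
 (c z e
 (c (b (nat_lit 0x102c4003)) e
 (c (b (nat_lit 0x100e6a03)) e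
 (c (b (nat_lit 0x1037c405)) e
 (c z e
 (c (nat_lit 0x7eb687eb227eb4c7eb687eb6864647) e
 (c (nat_lit 0x7f5867f5867f53f7f5867f58639b67) e
 (c (b (nat_lit 0xffafc07)) e
 (c z e
 (c (b (nat_lit 0xfe99207)) e
 (c (nat_lit 0x7fc5d7fc407fc5d7fc5d7fc5d082e9) e
 (c (nat_lit 0x7f8127f8127f8067f8127f812d5ca9) e
 (c (nat_lit 0x7fda57fda57fda57fd677fd9427009) e
 (c z e
 (c (nat_lit 0x7fff37fff380000800008000037e09) e e)))))))))))))))))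
 (c (a (nat_lit 0x101ff200))
 (c (b (nat_lit 0xffa5e03)) e
 (c z e
 (c z e
 (c z e
 (c (b (nat_lit 0x10851a05)) e
 (c z e
 (c (nat_lit 0x7e5237e5237e4ef7e5237e5234e007) e
 (c z e
 (c z e
 (c (b (nat_lit 0xffec007)) e
 (c (nat_lit 0x7ffe07ffe07ffd48000080000637c8) e
 (c (b (nat_lit 0xff11c09)) e
 (c (nat_lit 0x7f88a7f88a7f88a7f8857f8865bd69) e
 (c z e
 (c z e
 (c (b (nat_lit 0xffebc09)) e e))))))))))))))))
 (c (a (nat_lit 0x101ffe00))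
 (c z e
 (c z e
 (c z e
 (c (b (nat_lit 0x10b83007)) e
 (c z e
 (c z e
 (c z e
 (c z e
 (c z e
 (c (nat_lit 0x7fcac7fca77fcac7fcac7fcac01748) e
 (c (nat_lit 0x80000800007fbc77fbd27fbd2dace8) e
 (c (nat_lit 0x8000080000800007fd9a7fda357bc8) e e))))))))))))
 (c (nat_lit 0x80ff480ff580ff580ff506a20)
 (c (b (nat_lit 0xfe88c05)) e
 (c (b (nat_lit 0xfb13207)) e
 (c z e
 (c z e
 (c z e
 (c z e
 (c (nat_lit 0x800007ffdf7ffe7800008000039bc8) e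
 (c (nat_lit 0x7ea727ea757ea757ea757ea7527f28) e
 (c (nat_lit 0x7e96d7e9627e96a7e96d7e96d55b28) e
 (c (nat_lit 0x80000800007fcff7fd037fd03180a8) e
 (c (nat_lit 0x8000080000800007fd127fd19bf688) e e)))))))))))
 (c (a (nat_lit 0x101ffa00))
 (c (b (nat_lit 0x1015e007)) e
 (c z e
 (c z e
 (c z e
 (c (nat_lit 0x7be047be047bdea7be047be045da68) e
 (c (b (nat_lit 0xf93a008)) e
 (c (b (nat_lit 0xfdb8c08)) e
 (c (b (nat_lit 0xfddba08)) e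
 (c (nat_lit 0x80000800007f2bc7f2bb7f2bc8fd88) e
 (c (nat_lit 0x8000080000800007f29c7f29ccc968) e
 (c (nat_lit 0x800008000080000800007f7dd90ec8) e e)))))))))))
 (c (a (nat_lit 0x10200200))
 (c z e
 (c (b (nat_lit 0xf84fe07)) e
 (c (nat_lit 0x7c2627c25d7c25d7c2627c26290d08) e
 (c (b (nat_lit 0xfaa9608)) e
 (c (nat_lit 0x7f7007f7067f7067f7067f7067f3e8) e
 (c (nat_lit 0x7f0147f02a7f0317f0317f031877a8) e
 (c (nat_lit 0x7eff57efdd7eff57eff57eff539c08) e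
 (c (nat_lit 0x80000800007efb87efbe7efbe42108) e
 (c (nat_lit 0x8000080000800007efaf7efafbce28) e
 (c (nat_lit 0x800008000080000800007f50da5028) e e))))))))))
 (c (nat_lit 0x810018100181000810004a0a0)
 (c (nat_lit 0x72bf572ba672bf572bf572bf544dc8) e
 (c (b (nat_lit 0xfa36808)) e
 (c (b (nat_lit 0xfe01808)) e
 (c (nat_lit 0x7f1627f1597f1627f1627f162eeb28) e
 (c (nat_lit 0x7ef777ef677ef717ef777ef775d988) e
 (c (nat_lit 0x7ef307ef0d7ef307ef307ef30bce28) e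
 (c (nat_lit 0x80000800007ef2f7ef467ef4676b48) e
 (c (nat_lit 0x8000080000800007ef627ef6a80b68) e
 (c (nat_lit 0x800008000080000800007f50bcd828) e e)))))))))
 (c (nat_lit 0x80ffa80ffb80ffb80ffb3b960) e
 (c (a (nat_lit 0x10200200)) e
 (c (nat_lit 0x80ffd80ffe80ffe80ffef8b10) e
 (c (nat_lit 0x80ffe80ffd80ffd80ffd89610) e
 (c (nat_lit 0x80ffd80ffd80ffe80ffde3950) e
 (c (nat_lit 0x80ffd80ffd80ffd80ffed5eb1) e
 (c (nat_lit 0x80ffe80ffe80ffe80fff1e361) e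
 (c (nat_lit 0x80aa580aa480aa480aa43b921) e
 (c (a (nat_lit 0x100cbc01)) e
 (c (nat_lit 0x80d2980d2980d2880d2993091) e
 (c (a (nat_lit 0x101e4603)) e
 (c (nat_lit 0x80f0880f0780f0880f08638d3) e
 (c (a (nat_lit 0x100a4c03)) e
 (c (nat_lit 0x7fe717fe707fe717fe704d823) e
 (c (a (nat_lit 0x1003a203)) e
 (c (nat_lit 0x7fd4c7fd987fd987fd9870665) e
 (c (a (nat_lit 0xffa1405)) e
 (c (nat_lit 0x8025080251802518025165467) e
 (c (nat_lit 0x8024c8024c8024c8024dad467) e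
 (c (nat_lit 0x800e6800e6800e5800e5ad977) e
 (c (nat_lit 0x7ff6d7ff6d7ff6c7ff6d79617) e
 (c (a (nat_lit 0xff6f607)) e e)))))))))))))))))))))))))))))))) Tr.c Tr.e (nat_lit 0) C.t4 C.t5
noncomputable def tt599 : Tr := beta% (fun (c : Nat → Tr → Tr → Tr) (e : Tr) (z : Nat) (a b : Nat → Nat) =>
 (c (a (nat_lit 0xfdffc00))
 (c (b (nat_lit 0x1044b403))
 (c z e
 (c z e
 (c z e
 (c z e
 (c (nat_lit 0x800008000080000800007fdb6800008000054a44) e e)))))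
 (c z e
 (c (b (nat_lit 0xf5d1803)) e
 (c z e
 (c (b (nat_lit 0x10212805)) e
 (c (b (nat_lit 0x101efe07)) e
 (c z e
 (c z e
 (c z e
 (c z e
 (c z e
 (c (nat_lit 0x7b2bd7b2bd7b2bd7adfc7b2bd7b2bd7e20b) e
 (c z e
 (c z e
 (c (b (nat_lit 0x1011f40b)) e e)))))))))))))))
 (c (a (nat_lit 0xfdff200))
 (c z e
 (c z e
 (c z e
 (c z e
 (c z e
 (c z e
 (c z e
 (c z e
 (c z e
 (c z e
 (c z e
 (c (b (nat_lit 0xfff140b)) e e))))))))))))
 (c (a (nat_lit 0xfdffc00)) e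
 (c (a (nat_lit 0xfe00200)) e
 (c (a (nat_lit 0xfe00000)) e
 (c (nat_lit 0x7f0097f0067f0067f0067f00610741)
 (c (nat_lit 0x7f5d77f5e97f5d57f5e97f5e97f5e9bd40b) e
 (c (nat_lit 0x8000080000800007fedb80000800009160b) e e))
 (c (nat_lit 0x7f00f7f00f7f00e7f00e7f00fd38a1)
 (c (nat_lit 0x800007fd4b80000800008000080000688cb) e e)
 (c (nat_lit 0x7f0207f0207f0207f0047f007b9fa1) e
 (c (a (nat_lit 0xfe22201)) e
 (c (a (nat_lit 0xfd97201)) e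
 (c (nat_lit 0x7ea8a7ea897ea8a7ea8a7ea8a38603) e
 (c (a (nat_lit 0xfd52003)) e
 (c z e
 (c z e
 (c (a (nat_lit 0xfe1b603)) e
 (c (a (nat_lit 0xfe0c605)) e
 (c (a (nat_lit 0xfc7b405)) e
 (c (a (nat_lit 0xffcd407)) e
 (c (a (nat_lit 0xfe66a07)) e
 (c (a (nat_lit 0xff69807)) e
 (c z e
 (c (a (nat_lit 0xff8aa07)) e
 (c (nat_lit 0x7f60b7f5fd7f60b7f60b7f60b60c6b) e
 (c (nat_lit 0x7efe37efe37eeec7efe37efe3a31ab) e
 (c (nat_lit 0x7fa957fa957fa6b7fa6b7fa6b838cb) e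
 (c z e
 (c (a (nat_lit 0xfee4a0b)) e e)))))))))))))))))))))))))))) Tr.c Tr.e (nat_lit 0) C.t5 C.t6
noncomputable def tt600 : Tr := beta% (fun (c : Nat → Tr → Tr → Tr) (e : Tr) (z : Nat) (a b : Nat → Nat) =>
 (c (a (nat_lit 0xfe01200))
 (c z
 (c z e
 (c z e
 (c z e
 (c z e
 (c z e
 (c z e
 (c z e
 (c (nat_lit 0x800007ff8580000800008000080000800000168d) e e))))))))
 (c (nat_lit 0x84085840858407d840858408584085c8503) e
 (c (nat_lit 0x822f8822f8822f6822f2822f8822f808383) e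
 (c z e
 (c z e
 (c z e
 (c z e
 (c z e
 (c z e
 (c z e
 (c z e
 (c z e
 (c z e
 (c (b (nat_lit 0xfa6b40b)) e
 (c (b (nat_lit 0x103cf40b)) e
 (c z e
 (c (b (nat_lit 0x1025c80b)) e e)))))))))))))))))
 (c (a (nat_lit 0xfe00a00))
 (c (nat_lit 0x7fda77fe5e80000800008000080000d5ac3) e
 (c z e
 (c z e
 (c z e
 (c z e
 (c z e
 (c z e
 (c z e
 (c z e
 (c z e
 (c z e
 (c z e
 (c (b (nat_lit 0x1041f00b)) e e)))))))))))))
 (c (a (nat_lit 0xfe00800)) e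
 (c (nat_lit 0x7f0097f0087f0097f0097f00998ea0)
 (c z e
 (c z e
 (c z e
 (c z e
 (c z e
 (c z e
 (c z e
 (c z e
 (c z e
 (c z e
 (c (b (nat_lit 0xfff580b)) e
 (c (b (nat_lit 0xfffc00d)) e e))))))))))))
 (c (a (nat_lit 0xfe00000)) e
 (c (a (nat_lit 0xfe00800)) e
 (c (a (nat_lit 0xfe00e00))
 (c z e
 (c (b (nat_lit 0x1020b40b)) e e))
 (c (a (nat_lit 0xfe01a01)) e
 (c (nat_lit 0x7f00c7f00c7f0077f0067f009f7941) e
 (c (a (nat_lit 0xfe02401)) e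
 (c (a (nat_lit 0xfd1ea01)) e
 (c (nat_lit 0x7db627db5f7db737db737db7378941) e
 (c (nat_lit 0x7db7b7db5f7db677db7b7db7bfe383) e
 (c (nat_lit 0x83566835668356683563835666a643) e
 (c (a (nat_lit 0xff47a03)) e
 (c z e
 (c (a (nat_lit 0xfef1803)) e
 (c (a (nat_lit 0xff41605)) e
 (c (a (nat_lit 0xff28405)) e
 (c z e
 (c (a (nat_lit 0xff73007)) e
 (c (a (nat_lit 0xffb3007)) e
 (c z e
 (c (a (nat_lit 0xfe98407)) e
 (c (nat_lit 0x7fa3c7fa3c7fa3c7fa077f9febd66b) e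
 (c z e
 (c z e
 (c (a (nat_lit 0xfd6120b)) e
 (c (a (nat_lit 0xfd56e0d)) e
 (c (a (nat_lit 0xfd14a0d)) e e))))))))))))))))))))))))))))))) Tr.c Tr.e (nat_lit 0) C.t5 C.t6
noncomputable def tt601 : Tr := beta% (fun (c : Nat → Tr → Tr → Tr) (e : Tr) (z : Nat) (a b d : Nat → Nat) =>
 (c (a (nat_lit 0xfe01800))
 (c (b (nat_lit 0x101fae01)) e
 (c (nat_lit 0x8100a8100a8100a80fed80ff180ff29adc1)
 (c z e
 (c z e
 (c z e
 (c z e
 (c z e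
 (c (d (nat_lit 0xffcea0b)) e e))))))
 (c (b (nat_lit 0x101f8e01)) e
 (c z e
 (c (nat_lit 0x82c1f82c0782c0a82c1f82c1f82c1fd3603) e
 (c (nat_lit 0x82d7882d7882d7382d7582d7882d7887083) e
 (c (b (nat_lit 0x1008de03)) e
 (c z e
 (c z e
 (c z e
 (c z e
 (c z e
 (c z e
 (c z e
 (c z e
 (c z e
 (c z e
 (c z e
 (c (b (nat_lit 0x1027720b)) e e)))))))))))))))))))
 (c (a (nat_lit 0xfe00a00))
 (c (b (nat_lit 0x101fe401)) e
 (c z e
 (c (nat_lit 0x833398331683314833398333983339f6103) e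
 (c (b (nat_lit 0x10521403)) e
 (c z e
 (c z e
 (c z e
 (c z e
 (c z e
 (c z e
 (c z e
 (c z e
 (c z e
 (c z e
 (c z e
 (c z e
 (c z e
 (c z e
 (c z e
 (c (nat_lit 0x800007fc927fc92800008000080000a7d95) e e))))))))))))))))))))
 (c (nat_lit 0x7f0057f0057f0037f0037f0052d240)
 (c (b (nat_lit 0x10556403)) e
 (c (b (nat_lit 0x10568203)) e
 (c z e
 (c z e
 (c z e
 (c (b (nat_lit 0xfec4805)) e
 (c z e
 (c (b (nat_lit 0xfcaf407)) e e))))))))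
 (c (a (nat_lit 0xfdfee00))
 (c z e
 (c z e
 (c z e
 (c z e
 (c z e
 (c z e
 (c z e
 (c z e
 (c z e
 (c z e
 (c z e
 (c z e
 (c z e
 (c z e
 (c (b (nat_lit 0xffbea0d)) e e)))))))))))))))
 (c (a (nat_lit 0xfe00800))
 (c z e
 (c z e
 (c z e
 (c (b (nat_lit 0xfc4ca07)) e e))))
 (c (a (nat_lit 0xfdffe00))
 (c z e
 (c z e
 (c z e
 (c z e
 (c z e
 (c z e
 (c z e
 (c z e
 (c z e
 (c z e
 (c (b (nat_lit 0xfffaa0d)) e e)))))))))))
 (c (a (nat_lit 0xfdfec00))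
 (c z e
 (c z e
 (c z e
 (c z e
 (c z e
 (c z e
 (c z e
 (c z e
 (c (b (nat_lit 0x1034760d)) e e)))))))))
 (c (a (nat_lit 0xfe00c00)) e
 (c (a (nat_lit 0xfe01600))
 (c z e
 (c z e
 (c z e
 (c z e
 (c z e
 (c (b (nat_lit 0x1017ca11)) e e))))))
 (c (a (nat_lit 0xfe00c01)) e
 (c (a (nat_lit 0xfe00a01)) e
 (c (nat_lit 0x7f00a7f00a7f0067f0067f00abf221) e
 (c (a (nat_lit 0xff26801)) e
 (c (nat_lit 0x7dfbb7dfaf7dfc27dfc27dfc2a95e1) e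
 (c (nat_lit 0x7efae7ef9d7ef9d7efae7efae68ec3) e
 (c (a (nat_lit 0xfde9403)) e
 (c (a (nat_lit 0x10027603)) e
 (c (a (nat_lit 0x10067603)) e
 (c (a (nat_lit 0xfeba603)) e
 (c (a (nat_lit 0xff18e05)) e
 (c (a (nat_lit 0xfefb605)) e
 (c (a (nat_lit 0xfef9007)) e
 (c z e
 (c z e
 (c z e
 (c z e
 (c z e
 (c z e
 (c (nat_lit 0x7efbe7efbe7efd67efd67efd62b26b) e
 (c (a (nat_lit 0xfe6340d)) e
 (c (a (nat_lit 0xfe6ea0d)) e e)))))))))))))))))))))))))))))))) Tr.c Tr.e (nat_lit 0) C.t5 C.t6 C.t7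
noncomputable def tt602 : Tr := beta% (fun (c : Nat → Tr → Tr → Tr) (e : Tr) (z : Nat) (a b d : Nat → Nat) =>
 (c (a (nat_lit 0xfe00a00))
 (c (b (nat_lit 0x101fd401))
 (c z e
 (c z e
 (c z e
 (c z e
 (c z e
 (c (d (nat_lit 0xfffe207)) e
 (c z e
 (c (d (nat_lit 0xffb300b)) e e))))))))
 (c (b (nat_lit 0x101fe401)) e
 (c (nat_lit 0x80ff080ff080ff080ff080fee80ff0505c1)
 (c z e
 (c z e
 (c z e
 (c z e
 (c (d (nat_lit 0xff8a80b)) e e)))))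
 (c (b (nat_lit 0x101ffe01)) e
 (c z e
 (c (nat_lit 0x82d7182d4282d3a82d7182d7182d71b0003) e
 (c (b (nat_lit 0x102b9603)) e
 (c z e
 (c z e
 (c (b (nat_lit 0xfee9e03)) e
 (c z e
 (c (b (nat_lit 0xf7b0a05)) e
 (c z e
 (c z e
 (c z e
 (c (b (nat_lit 0x10292007)) e
 (c z e
 (c z e
 (c z e
 (c z e
 (c (b (nat_lit 0x101f700d)) e e)))))))))))))))))))))
 (c (a (nat_lit 0xfe01200))
 (c (b (nat_lit 0x101fe001))
 (c z e
 (c z e
 (c z e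
 (c z e
 (c z e
 (c (d (nat_lit 0xffea40b)) e e))))))
 (c (nat_lit 0x80ff680ff680ff680ff680ff580ff64f281) e
 (c z e
 (c (b (nat_lit 0x106b2c03)) e
 (c (b (nat_lit 0x1054b603)) e
 (c (b (nat_lit 0x10267c03)) e
 (c (b (nat_lit 0x1015fa03)) e
 (c z e
 (c z e
 (c z e
 (c (b (nat_lit 0xfdc7a07)) e
 (c z e
 (c z e
 (c z e
 (c z e
 (c z e
 (c (b (nat_lit 0xfe1e00b)) e e)))))))))))))))))
 (c (nat_lit 0x7f0057f0057f0047f0047f00617a80)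
 (c z e
 (c (nat_lit 0x827df827fc827fc827fc827fc827fccadc3) e
 (c (b (nat_lit 0x10569003)) e
 (c z e
 (c z e
 (c z e
 (c z e
 (c z e
 (c (nat_lit 0x7ffa680000800008000080000800007c0c7) e e)))))))))
 (c (a (nat_lit 0xfe00200))
 (c z e
 (c z e
 (c z e
 (c z e
 (c z e
 (c z e
 (c z e
 (c z e
 (c z e
 (c z e
 (c z e
 (c z e
 (c z e
 (c z e
 (c z e
 (c (b (nat_lit 0xfffd613)) e e))))))))))))))))
 (c (a (nat_lit 0xfe00a00))
 (c z e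
 (c z e
 (c (b (nat_lit 0xfe70805)) e
 (c z e
 (c z e
 (c z e
 (c z e
 (c z e
 (c z e
 (c z e
 (c (b (nat_lit 0xfdff40b)) e
 (c (b (nat_lit 0xfeee20d)) e
 (c z e
 (c (b (nat_lit 0xff9e018)) e
 (c (b (nat_lit 0xfffbe18)) e e)))))))))))))))
 (c (a (nat_lit 0xfe00600))
 (c z e
 (c z e
 (c z e
 (c z e
 (c z e
 (c (nat_lit 0x8000080000800007fded7fded80000c4dc7) e
 (c z e
 (c z e
 (c z e
 (c z e
 (c z e
 (c (b (nat_lit 0x1018f014)) e e))))))))))))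
 (c (a (nat_lit 0xfe01a00))
 (c z e
 (c z e
 (c z e
 (c z e
 (c z e
 (c z e
 (c z e
 (c z e
 (c (b (nat_lit 0x1029740d)) e
 (c (b (nat_lit 0x101d4a14)) e
 (c (nat_lit 0x8080f8080f8080f8080a8080f8080f40b14) e e)))))))))))
 (c (a (nat_lit 0xfe01200))
 (c (b (nat_lit 0x10173207)) e
 (c z e
 (c z e
 (c (b (nat_lit 0xffef00b)) e
 (c z e
 (c z e
 (c z e
 (c (b (nat_lit 0x10102211)) e e))))))))
 (c (a (nat_lit 0xfe01600))
 (c z e
 (c z e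
 (c z e
 (c z e
 (c z e
 (c (b (nat_lit 0x10230011)) e
 (c (b (nat_lit 0x101a2611)) e e)))))))
 (c (nat_lit 0x7f0047f0027f0037f0047f0055ad00)
 (c (b (nat_lit 0xfffec0b)) e
 (c z e
 (c (b (nat_lit 0x10568e0d)) e
 (c (b (nat_lit 0x10491020)) e
 (c (b (nat_lit 0x1026cc20)) e e)))))
 (c (nat_lit 0x7f0147f0137f0137f0137f014539a1) e
 (c (nat_lit 0x7f0157f0157f0097f00c7f00eaa621)
 (c (nat_lit 0x800008000080000818c38190a8190ac53d0) e e)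
 (c (a (nat_lit 0xfdfa201)) e
 (c (nat_lit 0x7f0227f0227f0227f0227f009246e1) e
 (c (nat_lit 0x7f0067f0007f08c7f08c7f08c5c581) e
 (c (nat_lit 0x7f01a7eff87eff77f01a7f01a121a3) e
 (c (nat_lit 0x7eff97eff97eff57eff97eff995c23) e
 (c (a (nat_lit 0x1002ba03)) e
 (c (a (nat_lit 0x1002aa03)) e
 (c (a (nat_lit 0xfef7603)) e
 (c (a (nat_lit 0xff12e05)) e
 (c (a (nat_lit 0xff1b805)) e
 (c (a (nat_lit 0xff65607)) e
 (c (a (nat_lit 0xfe53407)) e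
 (c (nat_lit 0x7fb387fb387fb387fb2e7fb38620c7) e
 (c z e
 (c z e
 (c z e
 (c z e
 (c (a (nat_lit 0xfee9a0d)) e
 (c (a (nat_lit 0xfed700d)) e e)))))))))))))))))))))))))))))))) Tr.c Tr.e (nat_lit 0) C.t5 C.t6 C.t7
noncomputable def tt603 : Tr := beta% (fun (c : Nat → Tr → Tr → Tr) (e : Tr) (z : Nat) (a b : Nat → Nat) =>
 (c (a (nat_lit 0xfdff800))
 (c (b (nat_lit 0x101cea00))
 (c z e
 (c z e
 (c z e
 (c z e
 (c z e
 (c z e
 (c z e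
 (c z e
 (c (nat_lit 0x80000800008000080000800007fefa8000068807) e
 (c (nat_lit 0x800007f9e380000800008000080000800004310d) e e))))))))))
 (c (b (nat_lit 0x10188401)) e
 (c (b (nat_lit 0x101ff801)) e
 (c (b (nat_lit 0x10201401)) e
 (c (b (nat_lit 0x101ff001)) e
 (c z e
 (c (nat_lit 0x80ab380a9580aa080ab380ab380ab3827c3) e
 (c (nat_lit 0x80e5480e5480e1f80e2880e5480e546ab03) e
 (c (b (nat_lit 0x101bb203)) e e)))))))))
 (c (a (nat_lit 0xfe00a00))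
 (c (b (nat_lit 0x101fe801)) e
 (c (nat_lit 0x81002810028100280ffb80ffb80ffcfd981) e
 (c (b (nat_lit 0x101fea01)) e
 (c z e
 (c (b (nat_lit 0x106fc603)) e
 (c (nat_lit 0x814f0814f0814b8814c7814f0814f0ebb83) e
 (c (b (nat_lit 0x1024a003)) e
 (c z e
 (c z e
 (c (b (nat_lit 0xfbf8205)) e
 (c z e
 (c (nat_lit 0x800007ffa97ffa9800008000080000f6887) e
 (c z e
 (c z e
 (c z e
 (c z e
 (c z e
 (c z e
 (c (nat_lit 0x7f4397f4667f4667f4667f4667f466269cd) e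
 (c (b (nat_lit 0xffdf013)) e e))))))))))))))))))))
 (c (a (nat_lit 0xfdffe00))
 (c z e
 (c z e
 (c (b (nat_lit 0x105bb603)) e
 (c (nat_lit 0x8348c834488348c8348c8348c8348ca5603) e
 (c (b (nat_lit 0x100ed603)) e
 (c z e
 (c z e
 (c z e
 (c (nat_lit 0x800008000080000800007ff217ff2195143) e
 (c z e
 (c z e
 (c z e
 (c z e
 (c z e
 (c (b (nat_lit 0x1012cc0b)) e
 (c z e
 (c z e
 (c (b (nat_lit 0xffeb013)) e e))))))))))))))))))
 (c (a (nat_lit 0xfe00400))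
 (c (b (nat_lit 0x10458803)) e
 (c z e
 (c z e
 (c z e
 (c z e
 (c z e
 (c z e
 (c z e
 (c z e
 (c z e
 (c z e
 (c z e
 (c z e
 (c z e
 (c z e
 (c z e
 (c (b (nat_lit 0xffc4613)) e e)))))))))))))))))
 (c (a (nat_lit 0xfdff800))
 (c z e
 (c z e
 (c z e
 (c z e
 (c z e
 (c z e
 (c (nat_lit 0x8000080000800007fe1380000800001ddc7) e
 (c (nat_lit 0x7ca297ca297ca297ca0f7ca297ca29c9b47) e
 (c z e
 (c z e
 (c z e
 (c z e
 (c (b (nat_lit 0xfff200d)) e e)))))))))))))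
 (c (a (nat_lit 0xfdffc00))
 (c z e
 (c z e
 (c z e
 (c z e
 (c z e
 (c z e
 (c z e
 (c z e
 (c z e
 (c z e
 (c (b (nat_lit 0xfd8c80d)) e
 (c z e
 (c (nat_lit 0x808cd808cd808cd808b7808cd808cd43294) e
 (c (b (nat_lit 0xfef5c18)) e e))))))))))))))
 (c (a (nat_lit 0xfdff400))
 (c z e
 (c z e
 (c z e
 (c z e
 (c z e
 (c z e
 (c z e
 (c z e
 (c z e
 (c z e
 (c (b (nat_lit 0x1010ce14)) e e)))))))))))
 (c (a (nat_lit 0xfe00600)) e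
 (c (a (nat_lit 0xfe02c00))
 (c (nat_lit 0x800008000080000800007fffa7fffa02e87) e e)
 (c (a (nat_lit 0xfdfea00))
 (c z e
 (c z e
 (c z e
 (c (b (nat_lit 0x10440e20)) e e))))
 (c (a (nat_lit 0xfe02200))
 (c z e
 (c (b (nat_lit 0x10445620)) e e))
 (c (a (nat_lit 0xfe00801)) e
 (c (a (nat_lit 0xfdfec01)) e
 (c (nat_lit 0x7f0067f0067f0067f0017f002280a1) e
 (c (a (nat_lit 0xff36201)) e
 (c (a (nat_lit 0xfe51801)) e
 (c (nat_lit 0x7f3257f3137f3227f3257f3259aa03) e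
 (c (nat_lit 0x7f8087f8087f7e67f8087f8089bd63) e
 (c (a (nat_lit 0xffdd203)) e
 (c z e
 (c (a (nat_lit 0xfe9fa03)) e
 (c (a (nat_lit 0xff28405)) e
 (c (a (nat_lit 0xff0ac05)) e
 (c (nat_lit 0x7f20e7f2027f20e7f20e7f20e10127) e
 (c (nat_lit 0x7f0817f0817f0737f0817f0812ab47) e
 (c (nat_lit 0x7f6957f6957f6957f63a7f65ae83c7) e
 (c z e
 (c z e
 (c (a (nat_lit 0xfe3ae0b)) e
 (c (nat_lit 0x7fa867fa867fb7c7fb7c7fb7cff90d) e
 (c (a (nat_lit 0xff91a0d)) e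
 (c z e
 (c (nat_lit 0x8000080000800007ffec80000a3b6f) e e)))))))))))))))))))))))))))))))))) Tr.c Tr.e (nat_lit 0) C.t5 C.t6
noncomputable def tt604 : Tr := beta% (fun (c : Nat → Tr → Tr → Tr) (e : Tr) (z : Nat) (a b : Nat → Nat) =>
 (c (a (nat_lit 0x101ffc00))
 (c (b (nat_lit 0xf159001)) e
 (c (b (nat_lit 0xfd6ae01)) e
 (c (b (nat_lit 0xfbef403)) e
 (c z e
 (c z e
 (c z e
 (c (b (nat_lit 0xf4be603)) e
 (c z e
 (c z e
 (c z e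
 (c z e
 (c z e
 (c z e
 (c (b (nat_lit 0x10a34a07)) e
 (c (nat_lit 0x800007fd9b7fc4f8000080000800008000057a8b) e
 (c (nat_lit 0x84b6684b6684b668493584b6684b6684b665680d) e
 (c (nat_lit 0x800008000080000800007feb580000800006ed8d) e
 (c z e
 (c (b (nat_lit 0xfd7441c)) e e)))))))))))))))))))
 (c (a (nat_lit 0x101fc800))
 (c (nat_lit 0x7f1007f1007f1007f1007f1007f1007f0ff67203) e
 (c (b (nat_lit 0xff54003)) e
 (c (nat_lit 0x80f7b80f7b80f5680f7b80f7b80f7b80f7bed983) e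
 (c z e
 (c z e
 (c z e
 (c z e
 (c z e
 (c (b (nat_lit 0xfb7ec07)) e
 (c z e
 (c z e
 (c z e
 (c (nat_lit 0x7ffdd80000800008000080000800008000016e0b) e
 (c z e
 (c z e
 (c z e
 (c z e
 (c (nat_lit 0x80000800007fd9c8000080000800008000056d1c) e e))))))))))))))))))
 (c (a (nat_lit 0x101fb800))
 (c (nat_lit 0x7f5bf7f5bf7f5bf7f5af7f5bf7f5bf7f5bf51f83) e e)
 (c (a (nat_lit 0x101fac00))
 (c z e
 (c z e
 (c z e
 (c z e
 (c z e
 (c z e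
 (c (b (nat_lit 0xfffa607)) e e)))))))
 (c (a (nat_lit 0x101fc800)) e
 (c (a (nat_lit 0x101ffc01)) e
 (c (a (nat_lit 0x10200c01)) e
 (c (a (nat_lit 0x10200a01)) e
 (c z
 (c z e
 (c (b (nat_lit 0xfffbc19)) e e))
 (c (a (nat_lit 0x10094c01))
 (c (b (nat_lit 0xfa2781c)) e e)
 (c (a (nat_lit 0x100e5003)) e
 (c (a (nat_lit 0x100a7203)) e
 (c z e
 (c z e
 (c z e
 (c (a (nat_lit 0xffa9605)) e
 (c z e
 (c (a (nat_lit 0x100ce607)) e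
 (c (a (nat_lit 0x101a8e07)) e
 (c (a (nat_lit 0x1000e407)) e
 (c (a (nat_lit 0xff32e07)) e
 (c z e
 (c (a (nat_lit 0x1010300b)) e
 (c z e
 (c (a (nat_lit 0x1003880d)) e
 (c (nat_lit 0x809d98099d809cf809d9809d9809d978f59) e
 (c (a (nat_lit 0x1015161c)) e e)))))))))))))))))))))))))))) Tr.c Tr.e (nat_lit 0) C.t6 C.t7
noncomputable def tt605 : Tr := beta% (fun (c : Nat → Tr → Tr → Tr) (e : Tr) (z : Nat) (a b d f : Nat → Nat) =>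
 (c (a (nat_lit 0x10200200))
 (c (b (nat_lit 0xfdff200)) tt604
 (c (b (nat_lit 0xfe00200))
 (c (d (nat_lit 0x101f8400))
 (c (nat_lit 0x7f3307f1387f3307f3307f3307f3307f33045e83) e
 (c z e
 (c z e
 (c z e
 (c z e
 (c z e
 (c z e
 (c (f (nat_lit 0xf952c07)) e
 (c (f (nat_lit 0xfe78407)) e
 (c (f (nat_lit 0xfff4607)) e e))))))))))
 (c (d (nat_lit 0x101fb600)) e
 (c (d (nat_lit 0x101fa000)) e
 (c (d (nat_lit 0x101e9a01)) e
 (c (d (nat_lit 0x101ffa01)) e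
 (c (d (nat_lit 0x10200e01)) e
 (c (d (nat_lit 0x101ffc01)) e
 (c z e
 (c (d (nat_lit 0x10197403)) e
 (c (d (nat_lit 0x1024d203)) e
 (c z e
 (c (d (nat_lit 0xfd81c03)) e
 (c z e
 (c z e
 (c z e
 (c (d (nat_lit 0xfe82c07)) e
 (c z e
 (c (d (nat_lit 0xff89407)) e e)))))))))))))))))) tt603))
 (c (a (nat_lit 0x101ffa00))
 (c (b (nat_lit 0xfe00e00))
 (c (d (nat_lit 0x101f5000))
 (c (nat_lit 0x7ec9a7ec9a7ec9a7ec8d7ec567ec9a7ec9a9dc83) e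
 (c (nat_lit 0x80000800007ffd37ffc4800008000080000be003) e
 (c z e
 (c z e
 (c z e
 (c z e
 (c (f (nat_lit 0xf60b807)) e
 (c z e
 (c (f (nat_lit 0x10449207)) e
 (c z e
 (c (nat_lit 0x7fee0800008000080000800008000080000b8b0b) e
 (c (nat_lit 0x7feb98000080000800008000080000800009be0b) e
 (c z e
 (c (nat_lit 0x800008000080000800007fd9580000800000d58d) e e))))))))))))))
 (c (d (nat_lit 0x101f7c00)) e
 (c (d (nat_lit 0x101fe201)) e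
 (c (d (nat_lit 0x101fdc01)) e
 (c (d (nat_lit 0x101fe801))
 (c z e
 (c z e
 (c (f (nat_lit 0xffebc0b)) e
 (c z e
 (c (f (nat_lit 0xfef100d)) e
 (c (nat_lit 0x80000800007fa52800008000080000800005790d) e e))))))
 (c (d (nat_lit 0x101fce01)) e
 (c z
 (c z e
 (c z e
 (c z e
 (c (f (nat_lit 0xfffd619)) e e))))
 (c z e
 (c (d (nat_lit 0x10129403)) e
 (c (d (nat_lit 0x1018c003)) e
 (c z e
 (c z e
 (c z e
 (c z e
 (c z e
 (c z e
 (c z e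
 (c (d (nat_lit 0xff8b207)) e
 (c z e
 (c (d (nat_lit 0x1002420b)) e
 (c z e
 (c z e
 (c (nat_lit 0x800007ff77800008000080000800005530d) e
 (c (d (nat_lit 0xfff3619)) e e)))))))))))))))))))))))) tt602)
 (c (a (nat_lit 0x10200000)) tt601
 (c (a (nat_lit 0x101ff800)) tt600
 (c (a (nat_lit 0x10200000)) tt599
 (c (a (nat_lit 0x10200200))
 (c (b (nat_lit 0xfecfe00))
 (c z e
 (c z e
 (c z e
 (c z e
 (c (nat_lit 0x8000080000800007ff607ff608000037a87) e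
 (c z e
 (c z e
 (c (nat_lit 0x7ee927ee2c7ee927ee927ee927ee926b209) e
 (c (nat_lit 0x7e4257e4017e4257e4257e4257e42536b0b) e
 (c z e
 (c (d (nat_lit 0xfff980b)) e e)))))))))))
 (c (b (nat_lit 0xfe00200))
 (c z e
 (c z e
 (c z e
 (c z e
 (c z e
 (c z e
 (c z e
 (c (nat_lit 0x800007ffc37ffc38000080000800004e2cb) e e))))))))
 (c (b (nat_lit 0xfdffa00)) e
 (c (b (nat_lit 0xfe00601)) e
 (c (b (nat_lit 0xfdffa01))
 (c (nat_lit 0x80000800007fddd7ffeb80000800001b6cb) e e)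
 (c (b (nat_lit 0xfe01201)) e
 (c (b (nat_lit 0xfdef801)) e
 (c (b (nat_lit 0xfea4c01)) e
 (c (nat_lit 0x7ee0a7ee0a7ee077ee0a7ee0a19063) e
 (c (nat_lit 0x7ebbf7ebbf7ebba7ebb67ebbfe90c3) e
 (c z e
 (c z e
 (c z e
 (c (b (nat_lit 0xfe25405)) e
 (c (nat_lit 0x7e4bd7e4b17e56f7e56f7e56ff4dc5) e
 (c z e
 (c (b (nat_lit 0xff74407)) e
 (c (b (nat_lit 0xff24e07)) e
 (c z e
 (c (b (nat_lit 0xfef9a07)) e
 (c (b (nat_lit 0xfef4c09)) e
 (c (nat_lit 0x7f0e37f0987f0e37f0e37f0e3ae46b) e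
 (c (nat_lit 0x7f0e97f0e97f09f7f0e97f0e9edfeb) e
 (c (b (nat_lit 0xfe2f20b)) e
 (c (nat_lit 0x7feaf800008000080000800002c0cb) e e)))))))))))))))))))))))))
 (c (a (nat_lit 0x10200200))
 (c (b (nat_lit 0xff07800))
 (c (nat_lit 0x8000080000800007fff880000800002ed47) e
 (c z e
 (c z e
 (c (d (nat_lit 0xfffde07)) e
 (c z e
 (c z e
 (c (d (nat_lit 0xff18a0c)) e
 (c (nat_lit 0x8000080000800007ffae80000800008d3cc) e e))))))))
 (c (b (nat_lit 0xfdff001)) e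
 (c (b (nat_lit 0xfdff801)) e
 (c (b (nat_lit 0xfe01001)) e
 (c (b (nat_lit 0xffe1001)) e
 (c (nat_lit 0x7fab67fab07fad47fad47fad4d7561) e
 (c (nat_lit 0x7fbc97fbc97fbc87fbc97fbc9dd923) e
 (c (nat_lit 0x7f1417f1417f1417f13c7f14146a83) e
 (c z e
 (c z e
 (c (b (nat_lit 0xfdeb603)) e
 (c (b (nat_lit 0xfe82c05)) e
 (c (nat_lit 0x7e63b7e7677e7677e7677e767f20c5) e
 (c (b (nat_lit 0xfdec007)) e
 (c (b (nat_lit 0xfe3a607)) e
 (c z e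
 (c (b (nat_lit 0xffc4807)) e
 (c (nat_lit 0x7ff76800008000080000800006c8a7) e
 (c (nat_lit 0x7f5847f5aa7f5aa7f5aa7f5aa9d489) e
 (c (nat_lit 0x7ed527ed527edf97edf97edf9aa249) e
 (c (nat_lit 0x7eccf7ec967eccf7eccf7eccfbfe8c) e
 (c (nat_lit 0x7ed2b7ed2b7ecd97ed2b7ed2b3aa2c) e e)))))))))))))))))))))) tt598)))))))) Tr.c Tr.e (nat_lit 0) C.t4 C.t5 C.t6 C.t7
noncomputable def tt606 : Tr := beta% (fun (c : Nat → Tr → Tr → Tr) (e : Tr) (z : Nat) (a b d : Nat → Nat) =>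
 (c (a (nat_lit 0xfdffa00))
 (c (b (nat_lit 0x101f9200))
 (c z e
 (c z e
 (c z e
 (c z e
 (c z e
 (c z e
 (c z e
 (c z e
 (c z e
 (c z e
 (c z e
 (c z e
 (c z e
 (c (d (nat_lit 0xfcfe015)) e e))))))))))))))
 (c (b (nat_lit 0x101f9600)) e
 (c (nat_lit 0x80ffb80ffb80ff980ffb80ff980ffbd7581)
 (c z e
 (c z e
 (c z e
 (c (d (nat_lit 0xf364a07)) e e))))
 (c (b (nat_lit 0x10203c01))
 (c z e
 (c z e
 (c z e
 (c z e
 (c (d (nat_lit 0xffc4c0d)) e e)))))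
 (c (b (nat_lit 0x10201801)) e
 (c (nat_lit 0x81012810128101281012810118101272a01) e
 (c z e
 (c (b (nat_lit 0x1018f203)) e
 (c (b (nat_lit 0x10235603)) e
 (c z e
 (c (b (nat_lit 0x10311803)) e
 (c z e
 (c z e
 (c (b (nat_lit 0x10eb9205)) e
 (c z e
 (c (b (nat_lit 0x10086607)) e
 (c z e
 (c z e
 (c z e
 (c (b (nat_lit 0xfff3e0d)) e
 (c (b (nat_lit 0xfffc80d)) e
 (c z e
 (c z e
 (c (b (nat_lit 0xfff3815)) e e))))))))))))))))))))))))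
 (c (a (nat_lit 0xfe01600))
 (c (b (nat_lit 0x101fb201)) e
 (c (b (nat_lit 0x101ff201))
 (c (d (nat_lit 0xfab8807)) e e)
 (c (b (nat_lit 0x10193c01)) e
 (c (b (nat_lit 0x10136601)) e
 (c z e
 (c z e
 (c (b (nat_lit 0x100cd003)) e
 (c (nat_lit 0x80a0280a0280a02809f3809e280a02e7143) e
 (c z e
 (c z e
 (c z e
 (c (b (nat_lit 0x101b0a05)) e
 (c (b (nat_lit 0x10120a07)) e
 (c (b (nat_lit 0xfb4c607)) e
 (c z e
 (c z e
 (c (b (nat_lit 0x100b2607)) e e)))))))))))))))))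
 (c (a (nat_lit 0xfe00000))
 (c (b (nat_lit 0x10197401))
 (c (d (nat_lit 0xf98d607)) e e)
 (c (b (nat_lit 0x10202e01)) e
 (c z e
 (c (b (nat_lit 0x10674a03)) e
 (c (b (nat_lit 0x10053403)) e
 (c (b (nat_lit 0x1020cc03)) e
 (c (b (nat_lit 0x10123003)) e
 (c z e
 (c z e
 (c (b (nat_lit 0x104db005)) e
 (c (b (nat_lit 0x10510807)) e
 (c z e
 (c (b (nat_lit 0xfd91807)) e
 (c z e
 (c (b (nat_lit 0x102d6e07)) e
 (c (b (nat_lit 0x1025cc0d)) e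
 (c (b (nat_lit 0x10288a0d)) e
 (c z e
 (c (b (nat_lit 0xfffd813)) e
 (c (b (nat_lit 0xfffca13)) e e))))))))))))))))))))
 (c (a (nat_lit 0xfdfe800))
 (c z e
 (c z e
 (c (b (nat_lit 0x10659803)) e
 (c (b (nat_lit 0x10119803)) e
 (c z e
 (c z e
 (c z e
 (c (nat_lit 0x7e9e27e9a27ea307ea307ea307ea30b6e05) e
 (c z e
 (c (b (nat_lit 0x10431807)) e
 (c z e
 (c z e
 (c z e
 (c (b (nat_lit 0x1019940d)) e
 (c (b (nat_lit 0x10224c0d)) e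
 (c (b (nat_lit 0x100ea413)) e
 (c (b (nat_lit 0x100b9c13)) e
 (c (b (nat_lit 0x100bdc13)) e e))))))))))))))))))
 (c (a (nat_lit 0xfdfee00))
 (c (nat_lit 0x82a3182b8a82b8a82b8a82b8a82b8ab3643)
 (c (nat_lit 0x7728077280772807722177280772807728000e14) e e)
 (c z e
 (c z e
 (c z e
 (c z e
 (c (b (nat_lit 0x102c0205)) e
 (c (nat_lit 0x7e4717e4697e3fb7e4717e4717e471232c7) e
 (c (b (nat_lit 0xfea5407)) e
 (c z e
 (c z e
 (c (b (nat_lit 0x10268a07)) e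
 (c z e
 (c z e
 (c (b (nat_lit 0x1008ac14)) e
 (c (nat_lit 0x8000080000800007ffc58000080000ee98f) e e)))))))))))))))
 (c (a (nat_lit 0xfdff000))
 (c z e
 (c z e
 (c z e
 (c z e
 (c z e
 (c z e
 (c z e
 (c z e
 (c z e
 (c (b (nat_lit 0x1013200d)) e
 (c (b (nat_lit 0x1055960d)) e
 (c z e
 (c (b (nat_lit 0x100ff414)) e e)))))))))))))
 (c (a (nat_lit 0xfdffa00))
 (c (b (nat_lit 0x1069a005)) e
 (c (b (nat_lit 0x1030c605)) e
 (c z e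
 (c z e
 (c (b (nat_lit 0xfe7d407)) e
 (c z e
 (c z e
 (c (b (nat_lit 0xf568e0d)) e
 (c z e
 (c z e
 (c z e
 (c (b (nat_lit 0xfffb814)) e e))))))))))))
 (c (a (nat_lit 0xfe00800))
 (c z e
 (c (nat_lit 0x80000800007ff5e7ffc08000080000bcd47) e
 (c z e
 (c z e
 (c z e
 (c z e
 (c z e
 (c z e
 (c (b (nat_lit 0x10170611)) e
 (c (b (nat_lit 0xfff6211)) e e))))))))))
 (c (a (nat_lit 0xfe02a00))
 (c (nat_lit 0x8000080000800007fef57ff9280000fd287) e e)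
 (c (nat_lit 0x7f0077f0057f0057f0057f0061e700)
 (c (b (nat_lit 0x10210807)) e
 (c (b (nat_lit 0x1023920d)) e
 (c z e
 (c (b (nat_lit 0xf9baa20)) e e))))
 (c (nat_lit 0x7f01f7f01d7f01d7f01d7f01dc7a60)
 (c (nat_lit 0x7f5a57f7177f7177f7177f7177f71713f0d) e e)
 (c (nat_lit 0x7f0097f0087f0087f0097f009280a0)
 (c (nat_lit 0x80000800007ff82800008000080000c9690) e
 (c (nat_lit 0x800007ffbe7ffbe800008000080000404e0) e e))
 (c (a (nat_lit 0xfdfe801)) e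
 (c (nat_lit 0x7f00f7f00f7f0047f0067f00670ce1) e
 (c (a (nat_lit 0xfe00801)) e
 (c (nat_lit 0x7f1107f1107f1107f1107f003c4f41) e
 (c (nat_lit 0x7f0c77f0ba7f1507f1507f150afa41) e
 (c (nat_lit 0x7f1107f0c47f1107f1107f110db083) e
 (c (a (nat_lit 0xfe20c03)) e
 (c (a (nat_lit 0xfed0003)) e
 (c (a (nat_lit 0xff54e03)) e
 (c (a (nat_lit 0xff24603)) e
 (c (a (nat_lit 0xffbaa05)) e
 (c (a (nat_lit 0xfecf405)) e
 (c (nat_lit 0x7f2ba7f2ba7f2ac7f2ba7f2baf6ee7) e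
 (c (nat_lit 0x7f3577f3427f3577f33a7f357f5e27) e
 (c z e
 (c z e
 (c z e
 (c z e
 (c z e
 (c (nat_lit 0x80000800007ffdb8000080000fd12f) e
 (c (nat_lit 0x80000800007ffaf7ffd1800000292f) e e)))))))))))))))))))))))))))))))))) Tr.c Tr.e (nat_lit 0) C.t5 C.t6 C.t7
noncomputable def tt607 : Tr := beta% (fun (c : Nat → Tr → Tr → Tr) (e : Tr) (z : Nat) (a b : Nat → Nat) =>
 (c (a (nat_lit 0x101f5000))
 (c (b (nat_lit 0xfa3f603)) e
 (c (nat_lit 0x80000800007ff5d7ff4480000800008000088903) e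
 (c (nat_lit 0x7f59c7f59c7f59c7f59c7f5957f59c7f59c0eb03) e
 (c z e
 (c z e
 (c (b (nat_lit 0xf180805)) e
 (c z e
 (c z e
 (c z e
 (c z e
 (c z e
 (c z e
 (c (b (nat_lit 0x1066a80d)) e e)))))))))))))
 (c (a (nat_lit 0x101f9800))
 (c (b (nat_lit 0x1022b203)) e e)
 (c (a (nat_lit 0x101f7600))
 (c z e
 (c z e
 (c z e
 (c z e
 (c (b (nat_lit 0xf8e8607)) e e)))))
 (c (a (nat_lit 0x101f8a00))
 (c z e
 (c z e
 (c z e
 (c z e
 (c z e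
 (c z e
 (c z e
 (c z e
 (c z e
 (c z e
 (c z e
 (c (b (nat_lit 0xfff081c)) e e))))))))))))
 (c (a (nat_lit 0x101ffc01))
 (c z e
 (c z e
 (c z e
 (c z e
 (c z e
 (c (b (nat_lit 0xfcad40d)) e e))))))
 (c (a (nat_lit 0x101fee01)) e
 (c (a (nat_lit 0x101ff001)) e
 (c z e
 (c (nat_lit 0x808f9808db809598095980959809592fa01)
 (c (b (nat_lit 0xfffe61c)) e e)
 (c (a (nat_lit 0x10177403)) e
 (c (a (nat_lit 0x100d7203)) e
 (c (a (nat_lit 0x100f5a03)) e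
 (c z e
 (c z e
 (c z e
 (c (a (nat_lit 0x100c1405)) e
 (c (a (nat_lit 0x100eea07)) e
 (c z e
 (c z e
 (c z e
 (c z e
 (c z e
 (c z e
 (c z e
 (c (a (nat_lit 0xffa4215)) e
 (c (a (nat_lit 0xfff6a1c)) e e))))))))))))))))))))))))))) Tr.c Tr.e (nat_lit 0) C.t6 C.t7
noncomputable def tt608 : Tr := beta% (fun (c : Nat → Tr → Tr → Tr) (e : Tr) (z : Nat) (a b : Nat → Nat) =>
 (c (a (nat_lit 0x101fac00))
 (c (b (nat_lit 0xf72ae01)) e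
 (c (b (nat_lit 0xfd2a201)) e
 (c (b (nat_lit 0xfce0601)) e
 (c (b (nat_lit 0xfe1d803)) e
 (c z e
 (c z e
 (c (nat_lit 0x80000800007fc487fddf800008000080000eef83) e
 (c (b (nat_lit 0xf82ac03)) e
 (c z e
 (c (b (nat_lit 0xfffda05)) e
 (c (b (nat_lit 0xffef207)) e
 (c z e
 (c (b (nat_lit 0xffdde07)) e
 (c z e
 (c z e
 (c (nat_lit 0x80000800007fa528000080000800008000012b8d) e
 (c (b (nat_lit 0xffe660d)) e e)))))))))))))))))
 (c (a (nat_lit 0x101f8000))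
 (c (b (nat_lit 0xf78f201)) e
 (c (b (nat_lit 0xfe1ac03)) e
 (c z e
 (c (nat_lit 0x822e8822e8822e88228682287822e8822e8a6a83) e
 (c z e
 (c z e
 (c (b (nat_lit 0xf8ab205)) e
 (c z e
 (c z e
 (c z e
 (c z e
 (c z e
 (c z e
 (c z e
 (c z e
 (c z e
 (c z e
 (c (b (nat_lit 0x100ef01c)) e e))))))))))))))))))
 (c (a (nat_lit 0x101fb000))
 (c z e
 (c (b (nat_lit 0x1014b203)) e
 (c z e
 (c z e
 (c z e
 (c z e
 (c z e
 (c z e
 (c z e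
 (c z e
 (c z e
 (c z e
 (c z e
 (c z e
 (c z e
 (c z e
 (c z e
 (c z e
 (c z e
 (c z e
 (c (nat_lit 0x8000080000800008000080000800007ff6f60697) e e)))))))))))))))))))))
 (c (a (nat_lit 0x101f8400))
 (c (nat_lit 0x800007ff18800008000080000800008000017183) e
 (c z e
 (c z e
 (c z e
 (c z e
 (c z e
 (c z e
 (c z e
 (c z e
 (c z e
 (c z e
 (c z e
 (c (b (nat_lit 0xfff8e1c)) e e)))))))))))))
 (c (a (nat_lit 0x101fb000))
 (c (b (nat_lit 0xfd4a805)) e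
 (c z e
 (c z e
 (c (b (nat_lit 0xf741207)) e e))))
 (c (a (nat_lit 0x101fbc00)) e
 (c (a (nat_lit 0x101fe601))
 (c z e
 (c z e
 (c z e
 (c z e
 (c z e
 (c z e
 (c z e
 (c (b (nat_lit 0x10bd1a1c)) e e))))))))
 (c (a (nat_lit 0x101ff401))
 (c z e
 (c (b (nat_lit 0xffe0e0d)) e e))
 (c (a (nat_lit 0x101ffe01)) e
 (c (a (nat_lit 0x100e9201)) e
 (c (a (nat_lit 0x10120401)) e
 (c z e
 (c (a (nat_lit 0x10223203)) e
 (c z e
 (c z e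
 (c z e
 (c (a (nat_lit 0x10049e05)) e
 (c z e
 (c z e
 (c (a (nat_lit 0x1003f407)) e
 (c (a (nat_lit 0xfeb6a07)) e
 (c (a (nat_lit 0xfe8f207)) e
 (c z e
 (c z e
 (c (nat_lit 0x7fe507fe4c80000800008000080000c754d) e
 (c z e
 (c (a (nat_lit 0x100fb21c)) e e)))))))))))))))))))))))))))) Tr.c Tr.e (nat_lit 0) C.t6 C.t7
noncomputable def tt609 : Tr := beta% (fun (c : Nat → Tr → Tr → Tr) (e : Tr) (z : Nat) (a b : Nat → Nat) =>
 (c (a (nat_lit 0x101fa400))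
 (c (b (nat_lit 0xf636a00)) e
 (c (b (nat_lit 0xfd13c01)) e
 (c (b (nat_lit 0xfcb5801)) e
 (c z e
 (c (b (nat_lit 0xfd48c01)) e
 (c (b (nat_lit 0xf516201)) e
 (c (b (nat_lit 0xf5a5403)) e
 (c (b (nat_lit 0xf849a03)) e
 (c (b (nat_lit 0xfb1bc03)) e
 (c z e
 (c z e
 (c z e
 (c z e
 (c z e
 (c z e
 (c (b (nat_lit 0xed60e07)) e
 (c (b (nat_lit 0xf11c807)) e
 (c z e
 (c z e
 (c (b (nat_lit 0xff9460d)) e
 (c (b (nat_lit 0xffb001c)) e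
 (c (b (nat_lit 0xfff221c)) e e))))))))))))))))))))))
 (c (a (nat_lit 0x101fc000))
 (c (b (nat_lit 0xfc10001)) e
 (c (b (nat_lit 0xfd8cc01)) e
 (c (b (nat_lit 0xfd72a01)) e
 (c (b (nat_lit 0xfdd9a01)) e
 (c (b (nat_lit 0xf629403)) e
 (c z e
 (c z e
 (c (b (nat_lit 0xf458003)) e
 (c z e
 (c z e
 (c z e
 (c z e
 (c z e
 (c (b (nat_lit 0x10366407)) e
 (c z e
 (c (nat_lit 0x83ba1838da83ba183ba183ba183ba183ba1c9487) e
 (c z e
 (c (b (nat_lit 0xffce00d)) e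
 (c (nat_lit 0x80000800007fff8800008000080000800009909c) e e)))))))))))))))))))
 (c (a (nat_lit 0x101f8c00))
 (c (nat_lit 0x7cc357cccc7cccc7cccc7cccc7cccc7ccccb8f01) e
 (c (nat_lit 0x7e9057e8d37e9057e9057e9057e9057e9053b981) e
 (c (nat_lit 0x7de8f7de757de247de8f7de8f7de8f7de8f31383) e
 (c z e
 (c z e
 (c z e
 (c z e
 (c z e
 (c z e
 (c z e
 (c z e
 (c z e
 (c (b (nat_lit 0x10655807)) e
 (c z e
 (c z e
 (c (b (nat_lit 0xfffc80d)) e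
 (c z e
 (c (b (nat_lit 0xfff661c)) e e))))))))))))))))))
 (c (a (nat_lit 0x101fe800))
 (c (nat_lit 0x7f0ee7f0ee7f0ee7f0ee7f0ee7f0ee7f0dbc5d03) e
 (c (nat_lit 0x7f0fe7f0fe7f0ec7f0a97f0fe7f0fe7f0fe25c03) e
 (c z e
 (c z e
 (c z e
 (c z e
 (c z e
 (c z e
 (c z e
 (c z e
 (c (b (nat_lit 0x10382607)) e
 (c z e
 (c (nat_lit 0x800008000080000800007f50f800008000064607) e
 (c (b (nat_lit 0xf13680d)) e
 (c (nat_lit 0x7f8887f87f7f8177f82c7f8887f8887f888efa1c) e e)))))))))))))))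
 (c (a (nat_lit 0x101f9e00))
 (c (nat_lit 0x8000080000800007ffb97ff748000080000e5c83) e
 (c (b (nat_lit 0xfa06603)) e
 (c z e
 (c z e
 (c z e
 (c z e
 (c z e
 (c z e
 (c z e
 (c z e
 (c z e
 (c z e
 (c z e
 (c (b (nat_lit 0x1046e21c)) e e))))))))))))))
 (c (a (nat_lit 0x101fe800))
 (c (b (nat_lit 0xfffe603)) e
 (c z e
 (c z e
 (c (b (nat_lit 0xfc88c07)) e
 (c z e
 (c z e
 (c z e
 (c (b (nat_lit 0xfff3e07)) e
 (c z e
 (c z e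
 (c (b (nat_lit 0xfb1801c)) e
 (c (b (nat_lit 0x10987e1c)) e
 (c (b (nat_lit 0x105b4023)) e e)))))))))))))
 (c (a (nat_lit 0x10209000))
 (c z e
 (c (nat_lit 0x7a74c7a74c7a74c7a6647a74c7a74c7a74cc7707) e
 (c (nat_lit 0x71c5371c5371c5371c5371bcd71c5371c5322987) e
 (c z e
 (c z e
 (c z e
 (c z e
 (c (b (nat_lit 0x108e2a0d)) e e))))))))
 (c (a (nat_lit 0x101fee00))
 (c (b (nat_lit 0xefc7407)) e
 (c z e
 (c z e
 (c (b (nat_lit 0x1046f407)) e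
 (c z e
 (c z e
 (c (b (nat_lit 0x10c3ea1c)) e
 (c (nat_lit 0x873108731086fc08731087310873108731003a1c) e e))))))))
 (c (nat_lit 0x8103a8101b8101b8101b8101b8101bfba41)
 (c (b (nat_lit 0xffe6007)) e
 (c (b (nat_lit 0xfffbe07)) e
 (c z e
 (c z e
 (c (b (nat_lit 0xfff941c)) e e)))))
 (c (nat_lit 0x81022810228100d8100d8100d8100d26d41)
 (c (b (nat_lit 0xfd9820d)) e e)
 (c (a (nat_lit 0x101f4001))
 (c (nat_lit 0x8000080000800008000080000800007f4a507207) e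
 (c (b (nat_lit 0xfc0421c)) e e))
 (c (a (nat_lit 0x10174c01))
 (c (b (nat_lit 0xfcc1021)) e e)
 (c z e
 (c z e
 (c z e
 (c (a (nat_lit 0xfcf0c03)) e
 (c z e
 (c (a (nat_lit 0x100ea203)) e
 (c (a (nat_lit 0x100e9805)) e
 (c (a (nat_lit 0x10193a05)) e
 (c (a (nat_lit 0x10164807)) e
 (c (a (nat_lit 0x1013dc07)) e
 (c z e
 (c z e
 (c z e
 (c (a (nat_lit 0xfffa40d)) e
 (c (a (nat_lit 0x1001540d)) e
 (c (nat_lit 0x8068480684806848067280684806843021c) e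
 (c (nat_lit 0x806768067680676806768050180676d8d5c) e
 (c (nat_lit 0x800008000080000800007ff457fd06c838f) e e))))))))))))))))))))))))))))))) Tr.c Tr.e (nat_lit 0) C.t6 C.t7
noncomputable def tt610 : Tr := beta% (fun (c : Nat → Tr → Tr → Tr) (e : Tr) (z : Nat) (a b d f : Nat → Nat) =>
 (c (a (nat_lit 0xfe00000))
 (c (b (nat_lit 0x101ffc00))
 (c (d (nat_lit 0xfdffe00)) tt609
 (c (d (nat_lit 0xfe00200)) tt608
 (c (d (nat_lit 0xfe01200)) tt607 tt606))) tt605)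
 (c (a (nat_lit 0xfdffe00)) tt597
 (c (a (nat_lit 0xfdffe00)) tt586
 (c (a (nat_lit 0xfe00000))
 (c (b (nat_lit 0x101fe400)) tt579
 (c (nat_lit 0x80fff80ffe80ffe80ffee9710) tt578
 (c (b (nat_lit 0x10200000)) tt577
 (c (b (nat_lit 0x10200600))
 (c (d (nat_lit 0xfecd201))
 (c (f (nat_lit 0x102d5e05)) e
 (c (nat_lit 0x7b9547b9527b9547b9547b9547b9541bbc5) e
 (c z e
 (c (nat_lit 0x800007fd677fd67800007fe7a7fe114e507) e
 (c z e
 (c z e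
 (c z e
 (c z e
 (c z e
 (c z e
 (c (nat_lit 0x8000080000806d4806d4806d4806d4e2860) e e)))))))))))
 (c (nat_lit 0x7f0097f0097f0067f0067f00890bc1)
 (c (nat_lit 0x7ce3d7ce3d7cd3e7ce3d7ce3d7ce3d69747) e
 (c z e
 (c z e
 (c z e
 (c z e
 (c (f (nat_lit 0x1006d60b)) e
 (c (f (nat_lit 0xfffe00b)) e e)))))))
 (c (nat_lit 0x7f0047f0047f0047f0017f0022eb41) e
 (c z e
 (c (d (nat_lit 0xff87801))
 (c (f (nat_lit 0xfffea0b)) e e)
 (c (d (nat_lit 0xfd69603)) e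
 (c (nat_lit 0x7faf77fae07faf77faf77faf7943c3) e
 (c z e
 (c z e
 (c z e
 (c (nat_lit 0x80cde80cda80cd880cda80cdee8ea5) e
 (c (nat_lit 0x7dd927dd927dd8f7dd8e7dd92298c5) e
 (c (d (nat_lit 0xfd13005)) e
 (c (d (nat_lit 0xfe3fa05)) e
 (c (d (nat_lit 0xfd8bc05)) e
 (c (d (nat_lit 0xfdc8a07)) e
 (c (d (nat_lit 0xfe0b207)) e
 (c (d (nat_lit 0xfe43407)) e
 (c (nat_lit 0x8112f8112f811ae811ae811aee61a7) e
 (c (nat_lit 0x7e6e87e6e87e68c7e6e87e6e8752a7) e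
 (c (nat_lit 0x7ed007ed007ed007ecd97ed00e2c6b) e
 (c z e
 (c (d (nat_lit 0xffc040b)) e e))))))))))))))))))))))) tt576))))
 (c (a (nat_lit 0xfdffe00))
 (c (b (nat_lit 0x10200200)) tt575
 (c (b (nat_lit 0x10200000)) tt574 tt573))
 (c (a (nat_lit 0xfdffe00)) tt572
 (c (a (nat_lit 0xfdffe00)) tt570
 (c (a (nat_lit 0xfdffe00)) tt569
 (c (a (nat_lit 0xfdffe00)) tt568
 (c (a (nat_lit 0xfdffc00)) tt567
 (c (a (nat_lit 0xfdffe00))
 (c (nat_lit 0x8100181001810018100201ac0)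
 (c (nat_lit 0x7f4777f4937f4937f4937f493cd744) e
 (c (nat_lit 0x7f4727f46c7f4787f4787f47858824) e
 (c (d (nat_lit 0xfe7ac05)) e
 (c (nat_lit 0x7f58d7f58d7f5797f5627f56058105) e
 (c (nat_lit 0x7eb597eb597eb597eabc7eaa943c65) e
 (c (d (nat_lit 0xfe9ec05)) e
 (c (d (nat_lit 0xfc29605)) e e)))))))
 (c (nat_lit 0x80fff80fff80fff8100064350)
 (c (nat_lit 0x7f4b17f4b17f4b17f4a87f4b0a2805) e
 (c (nat_lit 0x7f4797f4797f4657f4657f479ea425) e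
 (c (nat_lit 0x7f8ab7f8ab7f77f7f77f7f8aba0565) e
 (c (nat_lit 0x7ed197f0a97f0a97efd47efd435f05) e
 (c (d (nat_lit 0xfe1d405)) e
 (c (d (nat_lit 0xfb3a209)) e e))))))
 (c (nat_lit 0x80ffe80fff80fff80fff3bd91)
 (c (nat_lit 0x7f65f7f54f7f54f7f6457f65f11945) e
 (c (d (nat_lit 0xfef9605)) e
 (c (nat_lit 0x7f6d17f6d17f6d17f6d17f250effe5) e e)))
 (c (nat_lit 0x80ffb80ffb80ffb80ffcec631)
 (c (nat_lit 0x7f58e7f0807f0807f58e7f58e44665) e e)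
 (c (b (nat_lit 0x101ff201)) e
 (c (b (nat_lit 0xfecb401)) e
 (c (nat_lit 0x7fd8a7fd897fd8a7fd88cf531) e
 (c (nat_lit 0x80d6680d6680d6580d6594d23) e
 (c (nat_lit 0x80d8780d8780d7880d7939a23) e
 (c (b (nat_lit 0x1017b003)) e
 (c (nat_lit 0x8036b8036b8036a8036a4bb53) e
 (c (b (nat_lit 0x10183e03)) e
 (c (nat_lit 0x8042280423804238042309ac4) e
 (c (b (nat_lit 0x10102c04)) e
 (c (nat_lit 0x8080b8080b8080c8080c964d4) e
 (c (nat_lit 0x804368043b8043b8043ba5094) e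
 (c (nat_lit 0x8042c8042e804338043a6b914) e
 (c (nat_lit 0x804008040b8040c8040cb8294) e
 (c (nat_lit 0x803c4803c3803c8803c721e94) e
 (c (nat_lit 0x803ab803ac803ad803ac56015) e
 (c (nat_lit 0x803a2803a3803a3803a475f65) e
 (c (nat_lit 0x803998039b8039a8039ac2315) e
 (c (nat_lit 0x800ce8035e8035d8035e3ba15) e
 (c (nat_lit 0x801df801da801e1801e132b25) e e)))))))))))))))))))))))) tt566)))))))))))) Tr.c Tr.e (nat_lit 0) C.t3 C.t4 C.t5 C.t6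
noncomputable def tt611 : Tr := beta% (fun (c : Nat → Tr → Tr → Tr) (e : Tr) (a : Nat → Nat) =>
 (c (a (nat_lit 0xfe00000)) tt565 tt610)) Tr.c Tr.e C.t3
noncomputable def tt613 : Tr := beta% (fun (c : Nat → Tr → Tr → Tr) (e : Tr) (z : Nat) (a b d : Nat → Nat) =>
 (c (nat_lit 0x81001810018100181002a8d60)
 (c (nat_lit 0x7f0067f0067f0057f0037f004e82e1)
 (c (nat_lit 0x80000800008000080000800007fdf1c9687) e
 (c z e
 (c (d (nat_lit 0x104c7009)) e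
 (c (d (nat_lit 0x10194e09)) e e))))
 (c (b (nat_lit 0xfd08e01))
 (c (d (nat_lit 0x101a2609)) e
 (c (d (nat_lit 0x102a7609)) e
 (c (d (nat_lit 0x1056aa0a)) e
 (c (nat_lit 0x81d9281d9281a8981d9281d9281d9258712) e e))))
 (c (b (nat_lit 0xfdf6801))
 (c z e
 (c (d (nat_lit 0x1038f411)) e e))
 (c (b (nat_lit 0xfe0f601))
 (c (d (nat_lit 0x10861c11)) e e)
 (c (nat_lit 0x7f9f37f9f27fa0f7fa3d7fa3db9002) e
 (c (b (nat_lit 0xfde1803)) e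
 (c (b (nat_lit 0xfe1b003)) e
 (c z e
 (c (b (nat_lit 0x108c8803)) e
 (c (nat_lit 0x7d2757d27b7d2967d2967d29602d43) e
 (c (b (nat_lit 0xfa48c06)) e
 (c (nat_lit 0x7d25f7d25f7d25d7d25f7d25fd8ea7) e
 (c (nat_lit 0x8041c8041c8041c803cd803e7d63a7) e
 (c z e
 (c z e
 (c (b (nat_lit 0xfdbdc07)) e
 (c (b (nat_lit 0xff40409)) e
 (c (nat_lit 0x7fd647fd647fd647fd647fce0764c9) e
 (c (b (nat_lit 0xff05409)) e
 (c (nat_lit 0x7ffba7ffba7ff837ffe87ffe89c3aa) e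
 (c (nat_lit 0x8000080000800007fffd7fffd5b10a) e e)))))))))))))))))))))
 (c (a (nat_lit 0x10200000))
 (c (b (nat_lit 0xfa73e01))
 (c z e
 (c (d (nat_lit 0x102e0809)) e e))
 (c (b (nat_lit 0xfb1da01))
 (c z e
 (c (nat_lit 0x80d9280bdb80d9280d9280d9280d9231892) e e))
 (c (b (nat_lit 0xfcf4202)) e
 (c (nat_lit 0x7e4d07e4c17e4d07e4d07e4d0f60c3) e
 (c (b (nat_lit 0xfee6a03)) e
 (c (b (nat_lit 0x10367003)) e
 (c (b (nat_lit 0x10528e03)) e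
 (c (b (nat_lit 0x10402e03)) e
 (c (b (nat_lit 0xff6f606)) e
 (c (b (nat_lit 0xff70c07)) e
 (c (b (nat_lit 0x1016b007)) e
 (c (b (nat_lit 0xff7aa07)) e
 (c (b (nat_lit 0xff4e207)) e
 (c (b (nat_lit 0xfe60007)) e
 (c (nat_lit 0x7fb4c7fb4c7fb357fb4c7fb4c8c369) e
 (c (b (nat_lit 0xff5a809)) e
 (c (b (nat_lit 0xffc4809)) e
 (c (b (nat_lit 0xfffb209)) e
 (c (nat_lit 0x7fff880000800008000080000b9a6a) e e)))))))))))))))))))
 (c (a (nat_lit 0x101ff400))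
 (c (nat_lit 0x7eb3a7ebf87ebf87ebf87ebf806a82) e
 (c (nat_lit 0x7eab27ea8e7eab27eab27eab2aaf83) e
 (c z e
 (c z e
 (c z e
 (c (nat_lit 0x800007ffd47ffd4800007ff52b6ac3) e
 (c (b (nat_lit 0x100cf206)) e
 (c (nat_lit 0x7f3737f3737f35f7f3737f373d12a7) e
 (c (b (nat_lit 0x100b7c07)) e
 (c (b (nat_lit 0xff93c07)) e
 (c (b (nat_lit 0xffdd407)) e
 (c (nat_lit 0x7f74e7f7397f74e7f74e7f74e0eda7) e
 (c (b (nat_lit 0xffdc009)) e
 (c (nat_lit 0x7f8417f8417f8417f82b7f841cd049) e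
 (c (b (nat_lit 0xff52c09)) e
 (c z e
 (c (b (nat_lit 0xffbfe09)) e
 (c (nat_lit 0x7ff9a7ff927ff9a7ff9a7ff9a5354a) e e))))))))))))))))))
 (c (a (nat_lit 0x10200000))
 (c (b (nat_lit 0xfe5f403)) e
 (c (b (nat_lit 0x10141c03)) e
 (c z e
 (c (nat_lit 0x7f4de7f4de7f4de7f4de7f4a3a2643) e
 (c z e
 (c (b (nat_lit 0x1027be07)) e
 (c (nat_lit 0x7e9017e9017e8bc7e9017e901ec1e7) e
 (c z e
 (c z e
 (c (nat_lit 0x7f3d17f3fe7f4587f47b7f47b15c87) e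
 (c (nat_lit 0x7ffc17ffc17fff98000080000aac88) e
 (c (b (nat_lit 0xff2aa09)) e
 (c (b (nat_lit 0xff13c09)) e
 (c (b (nat_lit 0xffc0a09)) e
 (c z e
 (c z e
 (c (nat_lit 0x8000080000800007fe8e7fe8e92809) e
 (c (nat_lit 0x800008000080000800007fff6dbd49) e e))))))))))))))))))
 (c (nat_lit 0x8100481001810018100169840)
 (c z e
 (c (nat_lit 0x7ef617ef617ef617eefd7eefd4de63) e
 (c z e
 (c z e
 (c z e
 (c z e
 (c z e
 (c (b (nat_lit 0xfb46c07)) e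
 (c (nat_lit 0x7e7a67e79f7e7a67e7a67e7a6830a8) e
 (c (nat_lit 0x7f0717f0717f0647f0717f071cb408) e
 (c (nat_lit 0x80000800007f4cc7f4c37f4cc88ce8) e
 (c (nat_lit 0x8000080000800007fd8f7fd8f7fa08) e
 (c (nat_lit 0x800008000080000800007ff28ceca8) e e)))))))))))))
 (c (a (nat_lit 0x101ff400))
 (c z e
 (c (b (nat_lit 0x10018407)) e
 (c z e
 (c z e
 (c z e
 (c (nat_lit 0x7eb3c7ea967eb9e7eb9e7eb9e51a27) e
 (c (nat_lit 0x7f9717f92b7f9717f9717f971d3d88) e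
 (c (b (nat_lit 0xfd42008)) e
 (c (b (nat_lit 0xfd41408)) e
 (c (nat_lit 0x80000800007fcc47fcc87fcd8b92a8) e
 (c (nat_lit 0x8000080000800007fd1c7fd1c41908) e
 (c (nat_lit 0x800008000080000800007ff8ab55c8) e e))))))))))))
 (c (a (nat_lit 0x101ff600))
 (c (b (nat_lit 0xff83607)) e
 (c (b (nat_lit 0xfedb607)) e
 (c z e
 (c (nat_lit 0x7a0f27a0e97a0f27a0f27a0f20c767) e
 (c (nat_lit 0x7edbb7edbb7edb47edbb7edbb87f08) e
 (c (b (nat_lit 0xf8a3c08)) e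
 (c (nat_lit 0x7eb9d7eb9d7eb9d7eb8c7eb9d77008) e
 (c (nat_lit 0x7ef997ef997ef957ef927ef915eb28) e
 (c (nat_lit 0x80000800007f3117f31c7f31c61cc8) e
 (c (nat_lit 0x8000080000800007f2d87f2fa4c108) e
 (c (nat_lit 0x800008000080000800007f4af74648) e e)))))))))))
 (c (a (nat_lit 0x10200000))
 (c z e
 (c (nat_lit 0x7b5887b55f7b5887b5887b588a36e7) e
 (c (nat_lit 0x7afbb7afbb7afa07afbb7afbbf6ec8) e
 (c (b (nat_lit 0xfb8bc08)) e
 (c (nat_lit 0x7eedb7eeee7eeee7eeee7eeeedeaa8) e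
 (c (nat_lit 0x7f0587f04c7f0607f0607f060b4148) e
 (c (nat_lit 0x7f0127f0127f00c7f0127f01276348) e
 (c (nat_lit 0x80000800007f0157f0117f01598e88) e
 (c (nat_lit 0x8000080000800007efe07efe0de868) e
 (c (nat_lit 0x800008000080000800007f239f7d68) e e))))))))))
 (c (a (nat_lit 0x10200200))
 (c (nat_lit 0x72e0f72d8672da672e0f72e0f1b2c8) e
 (c (b (nat_lit 0xfc3d008)) e
 (c (b (nat_lit 0xfdb9008)) e
 (c (b (nat_lit 0xfdfec08)) e
 (c (nat_lit 0x7efed7efed7efea7efec7efed0e468) e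
 (c (b (nat_lit 0xfdf7208)) e
 (c (nat_lit 0x80000800007efe27efdd7efd9feca8) e
 (c (nat_lit 0x8000080000800007f0107f009a9828) e
 (c (nat_lit 0x800008000080000800007f25417aa8) e e)))))))))
 (c (a (nat_lit 0x101ff400)) e
 (c (nat_lit 0x810008100081000810015a370) e
 (c (a (nat_lit 0x10200200)) e
 (c (nat_lit 0x80ff980ffa80ffa80ff9b1b80) e
 (c (nat_lit 0x80ffd80ffe80ffe80ffe3bbd0) e
 (c (nat_lit 0x80ffd80ffe80ffe80ffee0351) e
 (c (a (nat_lit 0x101fb601)) e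
 (c (nat_lit 0x80d6180d6280d6280d620cc01) e
 (c (a (nat_lit 0x1006b201)) e
 (c (a (nat_lit 0x1013a801)) e
 (c (nat_lit 0x80e4780e4980e4980e4aff652) e
 (c (nat_lit 0x80e3580e3580e3580e3470183) e
 (c (a (nat_lit 0x101c3a03)) e
 (c (a (nat_lit 0x1017c003)) e
 (c (a (nat_lit 0x10192c03)) e
 (c (nat_lit 0x80fc880fc880fc880fc9855b3) e
 (c (a (nat_lit 0x100e6006)) e
 (c (nat_lit 0x802048020680206802062ff07) e
 (c (nat_lit 0x801e3801e4801e5801e56aaf7) e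
 (c (nat_lit 0x7fd967fd957fd967fd96cb557) e
 (c (nat_lit 0x8032680326803258032535257) e
 (c (nat_lit 0x81fba81fcc81fcb81fcafb877) e e)))))))))))))))))))))))))))))))) Tr.c Tr.e (nat_lit 0) C.t4 C.t5 C.t6
noncomputable def tt614 : Tr := beta% (fun (c : Nat → Tr → Tr → Tr) (e : Tr) (z : Nat) (a b : Nat → Nat) =>
 (c (a (nat_lit 0xfed1200))
 (c z e
 (c (nat_lit 0x7eb307eb167eb307eb307eb307eb30b5a86) e
 (c (nat_lit 0x7d3ac7d3ac7d37f7d3837d3ac7d3ac24f07) e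
 (c (nat_lit 0x7fd28800008000080000800008000023607) e
 (c z e
 (c z e
 (c z e
 (c z e
 (c z e
 (c (b (nat_lit 0x1074aa20)) e
 (c (b (nat_lit 0x10273c20)) e e)))))))))))
 (c (a (nat_lit 0xfdffc00))
 (c (nat_lit 0x7f2157f2157f1e67f2157f2157f215a7407) e e)
 (c (a (nat_lit 0xfdff800))
 (c z e
 (c z e
 (c z e
 (c z e
 (c (b (nat_lit 0x106c8c0a)) e
 (c (b (nat_lit 0x10dbc811)) e e))))))
 (c (a (nat_lit 0xfdffe01))
 (c (nat_lit 0x7fe297fe29800008000080000800007f907) e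
 (c z e
 (c z e
 (c (b (nat_lit 0x1036aa11)) e
 (c z e
 (c (b (nat_lit 0x10551e12)) e e))))))
 (c (a (nat_lit 0xfe00c01))
 (c (nat_lit 0x7c0ff7bf5d7c0ff7c0ff7c0ff7c0fffedca) e
 (c (b (nat_lit 0x101fd411)) e
 (c (b (nat_lit 0x10707e11)) e e)))
 (c (a (nat_lit 0xfdfcc01))
 (c (nat_lit 0x80000800007fd48800008000080000b08d1) e
 (c (b (nat_lit 0x103fd811)) e e))
 (c (a (nat_lit 0xfc75c01)) e
 (c (a (nat_lit 0xfd79401)) e
 (c (a (nat_lit 0xfcc3202)) e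
 (c (nat_lit 0x7df987df557df607df987df9848ce3) e
 (c (a (nat_lit 0x10864203)) e
 (c (a (nat_lit 0x10386403)) e
 (c (a (nat_lit 0x100efe03)) e
 (c (a (nat_lit 0xfcb3a03)) e
 (c (nat_lit 0x7d59c7d5947d59c7d59c7d59ce6ec6) e
 (c (nat_lit 0x7e31a7e31a7e30b7e31a7e31a81da7) e
 (c (nat_lit 0x80a7d80a7d80a7d80a3e80a500d887) e
 (c (a (nat_lit 0x10021207)) e
 (c z e
 (c z e
 (c z e
 (c (nat_lit 0x7ff927ff927ff817ff927ff92c786a) e
 (c z e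
 (c (nat_lit 0x8000080000800007fff480000628ab) e
 (c z e
 (c (nat_lit 0x8000080000800007ffb07ffb0e6c2b) e e))))))))))))))))))))))))))) Tr.c Tr.e (nat_lit 0) C.t5 C.t6
noncomputable def tt615 : Tr := beta% (fun (c : Nat → Tr → Tr → Tr) (e : Tr) (z : Nat) (a b : Nat → Nat) =>
 (c (a (nat_lit 0xfe00400))
 (c (nat_lit 0x86c3886c38868ce86c3886c3886c3805283) e
 (c (b (nat_lit 0x104f3e03)) e
 (c (b (nat_lit 0xfb83c03)) e
 (c (b (nat_lit 0xfd38203)) e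
 (c (nat_lit 0x817fb817a3817ae817fb817fb817fbf55c6) e
 (c (b (nat_lit 0x1032d207)) e
 (c (nat_lit 0x821c7821c7821c4821c7821c7821c782ec7) e
 (c z e
 (c z e
 (c z e
 (c (nat_lit 0x7b46d7b75d7b78f7b78f7b78f7b78fac04a) e
 (c (nat_lit 0x8136581365813538128181365813658828b) e
 (c (b (nat_lit 0x10110a0b)) e
 (c (b (nat_lit 0xffe660b)) e
 (c (b (nat_lit 0xfff3a0b)) e
 (c (b (nat_lit 0xffe3c0b)) e e))))))))))))))))
 (c (a (nat_lit 0xfe00c00))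
 (c (b (nat_lit 0x10a1ec03)) e
 (c z e
 (c (b (nat_lit 0xfa76606)) e
 (c z e
 (c (b (nat_lit 0xfa6f207)) e
 (c z e
 (c z e
 (c z e
 (c (b (nat_lit 0xfccf40a)) e
 (c (b (nat_lit 0x104b980b)) e
 (c (b (nat_lit 0x10407c0b)) e
 (c (b (nat_lit 0x1010440b)) e
 (c z e
 (c (nat_lit 0x8000080000800007fa917fa91800003114b) e e))))))))))))))
 (c (a (nat_lit 0xfe00000))
 (c (nat_lit 0x7d04a7cfd07d01c7d04a7d04a7d04a5cb86) e
 (c (nat_lit 0x7ebb27ebb27eb9a7ebb27ebb27ebb2d45c7) e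
 (c (nat_lit 0x80000800007ffa17ffdd8000080000c6ec7) e e)))
 (c (nat_lit 0x7f00b7f00b7f00b7f00a7f00a87240) e
 (c (a (nat_lit 0xfdff000))
 (c z e
 (c (nat_lit 0x7ff4d8000080000800007fec68000072107) e
 (c (b (nat_lit 0xff7e80a)) e
 (c (b (nat_lit 0x10252a0b)) e
 (c z e
 (c z e
 (c z e
 (c z e
 (c z e
 (c (nat_lit 0x800008000080000800007ff6680000da14e) e e))))))))))
 (c (nat_lit 0x7f00c7f00b7f00c7f00c7f00c57961)
 (c (nat_lit 0x7f43c7f3d67f3e57f43c7f43c7f43ce0a0a) e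
 (c (nat_lit 0x80000800007ff237ff69800008000046f0b) e
 (c (b (nat_lit 0x103a8e0b)) e
 (c z e
 (c (b (nat_lit 0x103a420b)) e
 (c (b (nat_lit 0x1076000b)) e
 (c (nat_lit 0x8000080000840c4840c4840c4840c44b5e0) e e)))))))
 (c (a (nat_lit 0xfdfec01))
 (c (b (nat_lit 0x102c420b)) e
 (c (b (nat_lit 0x1037480b)) e
 (c (b (nat_lit 0xfffc00b)) e
 (c (b (nat_lit 0x1032000b)) e e))))
 (c (nat_lit 0x7efdc7efdc7e4da7efdc7efdcc9fa1)
 (c (b (nat_lit 0xfffec0b)) e e)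
 (c (a (nat_lit 0xff68601)) e
 (c (a (nat_lit 0xfa1b001)) e
 (c (nat_lit 0x7e2287e22a7e22f7e22f7e22f9c242) e
 (c (a (nat_lit 0xfbe2603)) e
 (c (nat_lit 0x80595805958057780595805951f143) e
 (c (a (nat_lit 0x10178603)) e
 (c z e
 (c (a (nat_lit 0xff64803)) e
 (c (nat_lit 0x7ef4d7ef4b7ef4d7ef4d7ef4d8d4c6) e
 (c (a (nat_lit 0xfdeae07)) e
 (c (nat_lit 0x7f4987f4987f4987f4917f49883ec7) e
 (c (a (nat_lit 0xff8ca07)) e
 (c z e
 (c (a (nat_lit 0xfaf8e07)) e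
 (c (nat_lit 0x7f6717f66f7f64a7f6717f671b3a2a) e
 (c (nat_lit 0x7ef4b7ef4b7ef4a7ef4b7ef4b0ef6b) e
 (c (a (nat_lit 0xfde7c0b)) e
 (c (a (nat_lit 0xfdf580b)) e
 (c (nat_lit 0x7f3fd7f3fd7f2c77f2c77f2c77b1ab) e
 (c (nat_lit 0x7f45c7f4687f4687f4687f40132a8b) e e))))))))))))))))))))))))))))) Tr.c Tr.e (nat_lit 0) C.t5 C.t6
noncomputable def tt616 : Tr := beta% (fun (c : Nat → Tr → Tr → Tr) (e : Tr) (z : Nat) (a b d : Nat → Nat) =>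
 (c (nat_lit 0x7f00b7f00a7f00a7f00a7f00a45300)
 (c (b (nat_lit 0xfff7e01))
 (c z e
 (c (nat_lit 0x8547085470854708547085470854708522709e87) e
 (c (d (nat_lit 0x10e2940b)) e
 (c (d (nat_lit 0x10a3240b)) e
 (c z e
 (c (d (nat_lit 0xffd8c0b)) e
 (c (d (nat_lit 0x109cf20b)) e
 (c (d (nat_lit 0x107f3a0e)) e e))))))))
 (c z
 (c (d (nat_lit 0x1100000b)) e
 (c (d (nat_lit 0x10a31a0b)) e
 (c z e
 (c z e
 (c z e
 (c (d (nat_lit 0x1100000e)) e e))))))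
 (c z e
 (c z e
 (c z e
 (c (b (nat_lit 0x10498003)) e
 (c z e
 (c (b (nat_lit 0xff61606)) e
 (c (nat_lit 0x80000800007ff73800008000080000cd707) e
 (c (nat_lit 0x8000080000800007ff7b80000800000b687) e
 (c (b (nat_lit 0x101a1c07)) e
 (c (b (nat_lit 0xfb78807)) e
 (c z e
 (c (b (nat_lit 0x102ab20b)) e
 (c (b (nat_lit 0x1021c20b)) e
 (c (b (nat_lit 0xff8e40b)) e
 (c z e
 (c (b (nat_lit 0x1035360b)) e e))))))))))))))))))
 (c (a (nat_lit 0xfe00c00))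
 (c z
 (c z e
 (c (d (nat_lit 0x10fe840b)) e e))
 (c (b (nat_lit 0x10326e03)) e
 (c (b (nat_lit 0xfcdf203)) e
 (c z e
 (c (b (nat_lit 0x10983c03)) e
 (c (b (nat_lit 0xf832206)) e
 (c (nat_lit 0x7e80f7e80f7e7e27e7ce7e80f7e80f19f87) e
 (c z e
 (c z e
 (c z e
 (c z e
 (c (b (nat_lit 0x103e500b)) e
 (c (b (nat_lit 0x1047da0b)) e
 (c (b (nat_lit 0x1017240b)) e e))))))))))))))
 (c (a (nat_lit 0xfdff400))
 (c z
 (c (d (nat_lit 0xfff5e0b)) e e)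
 (c z e
 (c z e
 (c z e
 (c z e
 (c z e
 (c z e
 (c z e
 (c z e
 (c z e
 (c (b (nat_lit 0xff5d00b)) e
 (c z e
 (c z e
 (c (b (nat_lit 0xffe920b)) e e))))))))))))))
 (c (nat_lit 0x7f00a7f0087f0087f0087f008b8ba0)
 (c (b (nat_lit 0xfaaba03)) e
 (c (nat_lit 0x822ac8225682263822ac822ac822ac89d46) e
 (c (nat_lit 0x800007ff1080000800008000080000927c7) e
 (c z e
 (c z e
 (c z e
 (c (b (nat_lit 0x10123a07)) e
 (c (b (nat_lit 0xfc1fa0b)) e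
 (c z e
 (c z e
 (c z e
 (c (b (nat_lit 0xfde480b)) e
 (c (nat_lit 0x8000080000800007fff180000800000ef8e) e e)))))))))))))
 (c (a (nat_lit 0xfdfd600))
 (c (nat_lit 0x813d98050281207811f6813d9813d9fbe07) e
 (c z e
 (c z e
 (c z e
 (c (nat_lit 0x804bb804bb804bb8047a804bb804bb47287) e
 (c (b (nat_lit 0x1039aa0b)) e
 (c (b (nat_lit 0x101f9a0b)) e
 (c z e
 (c (b (nat_lit 0xffff80b)) e
 (c (b (nat_lit 0x105a4e0b)) e
 (c (nat_lit 0x817238172381723816cc816cc81723109ce) e e)))))))))))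
 (c (a (nat_lit 0xfe01000))
 (c (nat_lit 0x810a6810a6810a680e9c810a6810a632e87) e
 (c z e
 (c (nat_lit 0x800007feca800008000080000800004d607) e
 (c (nat_lit 0x80000800007fb868000080000800005914b) e
 (c z e
 (c z e
 (c z e
 (c z e
 (c (b (nat_lit 0x1031520e)) e e)))))))))
 (c (a (nat_lit 0xfe01200))
 (c z e
 (c (nat_lit 0x800007ffe67ffd97ff4a80000800007b58b) e
 (c (nat_lit 0x8000080000800007fd9a8000080000971cb) e
 (c z e
 (c z e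
 (c z e
 (c (nat_lit 0x7e57d7e57d7e2977e57d7e57d7e57d2568e) e e)))))))
 (c (a (nat_lit 0xfe00001))
 (c (nat_lit 0x80000800007fdae800008000080000a744b) e
 (c z e
 (c z e
 (c z e
 (c (b (nat_lit 0xfd7480e)) e
 (c (nat_lit 0x80000800007f6647f67b7f67b7f67bd9aa0) e e))))))
 (c (a (nat_lit 0xfdf5601))
 (c z e
 (c z e
 (c (b (nat_lit 0xfd10c0e)) e e)))
 (c (a (nat_lit 0xfdb0601))
 (c (nat_lit 0x80f9380f9380f9380ef680f9380f93ae74e) e e)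
 (c (a (nat_lit 0xfdd3401)) e
 (c (nat_lit 0x7ddb07ddca7dddc7dddc7dddc421a1) e
 (c (a (nat_lit 0xfbb4402)) e
 (c (nat_lit 0x7edde7edde7edb27edde7edde86fe3) e
 (c (a (nat_lit 0xffcd603)) e
 (c (nat_lit 0x803d9803d9803d9803d9803a5ef203) e
 (c (a (nat_lit 0x100cc203)) e
 (c (a (nat_lit 0xffab003)) e
 (c (nat_lit 0x7f3dc7f3dc7f3c57f3dc7f3dc853e6) e
 (c (a (nat_lit 0xfe7f207)) e
 (c (a (nat_lit 0xfee6e07)) e
 (c z e
 (c (a (nat_lit 0xff42407)) e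
 (c (a (nat_lit 0xfaf8207)) e
 (c (nat_lit 0x7ef237ef187ef237ef237ef23d282b) e
 (c (nat_lit 0x7ef4f7ef4f7ef4f7ef4e7ef4fa1ccb) e
 (c (a (nat_lit 0xfdfc80b)) e
 (c (a (nat_lit 0xfe8280b)) e
 (c (nat_lit 0x7f0297f0297f0297f0297f0082758b) e
 (c (nat_lit 0x7fae87fac27fae87fab77fae8dd36e) e e))))))))))))))))))))))))))))))) Tr.c Tr.e (nat_lit 0) C.t5 C.t6 C.t7
noncomputable def tt617 : Tr := beta% (fun (c : Nat → Tr → Tr → Tr) (e : Tr) (z : Nat) (a b d : Nat → Nat) =>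
 (c (a (nat_lit 0xfe02200))
 (c (nat_lit 0x80fdb80fdb80fd680fd680fd680fd6e1701)
 (c (nat_lit 0x7c9d57c9d57c9127c9d57c9d57c9d57c9d50b506) e
 (c (nat_lit 0x7e6ff7e6ff7e6ff7e4f67e6ff7e6ff7e6ff4ab07) e
 (c (d (nat_lit 0xee03807)) e
 (c (d (nat_lit 0xf3df007)) e
 (c z e
 (c z e
 (c z e
 (c z e
 (c (nat_lit 0x800007fd1a8000080000800008000080000bdc0b) e e)))))))))
 (c (b (nat_lit 0x101dcc01))
 (c z e
 (c z e
 (c z e
 (c z e
 (c (nat_lit 0x8000080000800007fe8d8000080000800002480b) e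
 (c z e
 (c (d (nat_lit 0x101c860b)) e
 (c (d (nat_lit 0x103e160b)) e e))))))))
 (c (b (nat_lit 0x101fa601)) e
 (c (b (nat_lit 0x102db801)) e
 (c (b (nat_lit 0x100f3002))
 (c z e
 (c z e
 (c (d (nat_lit 0x10a7820e)) e e)))
 (c z
 (c (d (nat_lit 0xfffe00e)) e e)
 (c (b (nat_lit 0x10224a03)) e
 (c z e
 (c z e
 (c (b (nat_lit 0x1026f203)) e
 (c z e
 (c (b (nat_lit 0x1012f007)) e
 (c (b (nat_lit 0x10146807)) e
 (c z e
 (c z e
 (c z e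
 (c z e
 (c z e
 (c (nat_lit 0x7ffbf80000800008000080000800006310b) e
 (c (nat_lit 0x7fecd7fecd7ffe280000800008000089dcb) e e))))))))))))))))))))
 (c (a (nat_lit 0xfe00c00))
 (c z
 (c (nat_lit 0x7fa577fa577fa577fa577fa577f94b7fa57da087) e
 (c (d (nat_lit 0x103c9e07)) e
 (c (d (nat_lit 0x10a24407)) e
 (c (d (nat_lit 0x10a8d60b)) e
 (c z e
 (c (d (nat_lit 0xf84dc0b)) e
 (c (d (nat_lit 0x10288e0b)) e
 (c (d (nat_lit 0x1057440e)) e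
 (c (nat_lit 0x82f3d82f3d82f3d82f3d82c0882f3d82f3d10816) e e)))))))))
 (c (b (nat_lit 0x1075c601)) e
 (c z e
 (c (b (nat_lit 0x1045ca03))
 (c z e
 (c z e
 (c (d (nat_lit 0x10ffee16)) e e)))
 (c (b (nat_lit 0x104f3c03)) e
 (c (nat_lit 0x829628296282962828eb8296282962409c3)
 (c (nat_lit 0x80000800008000080000800007fcfc800005cc96) e e)
 (c (b (nat_lit 0x1002e203)) e
 (c z e
 (c z e
 (c (nat_lit 0x8209b8209b8209b81f8c8209b8209bcc0c7) e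
 (c z e
 (c z e
 (c z e
 (c (b (nat_lit 0x102d7007)) e
 (c (b (nat_lit 0x1037760b)) e
 (c (b (nat_lit 0x10223a0b)) e
 (c (b (nat_lit 0x100f2c0b)) e
 (c z e
 (c (b (nat_lit 0x101d6e0e)) e
 (c (b (nat_lit 0x1021ba16)) e e))))))))))))))))))))
 (c (nat_lit 0x7f00c7f00c7f00c7f00c7f00e53440)
 (c z e
 (c (b (nat_lit 0x10303003)) e
 (c z e
 (c (b (nat_lit 0x1051ec03)) e
 (c z e
 (c (nat_lit 0x7ee2c7f0a67f14e7f14e7f14e7f14ea9083) e
 (c (nat_lit 0x7e1cf7e1907e1cf7e1cf7e1cf7e1cfb3586) e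
 (c (nat_lit 0x7e8cc7e8cc7e8cc7e7c27e8cc7e8cc4b787) e
 (c z e
 (c z e
 (c z e
 (c z e
 (c (nat_lit 0x812b7812b1812b1812b7812b7812b790a4b) e
 (c (b (nat_lit 0x101d680b)) e e))))))))))))))
 (c (a (nat_lit 0xfe00200))
 (c z e
 (c z e
 (c z e
 (c z e
 (c (b (nat_lit 0xf8a9806)) e
 (c (nat_lit 0x7e8fe7e8fe7e5ec7e8fe7e8fe7e8fe72187) e
 (c z e
 (c z e
 (c z e
 (c z e
 (c z e
 (c z e
 (c z e
 (c (nat_lit 0x7fff97fff97fff97fff97ff617ff61d2c0b) e e))))))))))))))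
 (c (a (nat_lit 0xfe01000))
 (c z e
 (c (nat_lit 0x80000800007fffd7fffd8000080000c9383) e
 (c (b (nat_lit 0xfd92e06)) e
 (c (nat_lit 0x7efe67efe67ec3c7efe67efe67efe6c5187) e
 (c z e
 (c z e
 (c (b (nat_lit 0x10449807)) e
 (c (nat_lit 0x8149a8149a8149a80ce78149a8149ab8607) e
 (c z e
 (c (b (nat_lit 0x1026380b)) e
 (c z e
 (c (b (nat_lit 0xffffc0b)) e
 (c (b (nat_lit 0x1096be0e)) e e)))))))))))))
 (c (nat_lit 0x7f00d7f00b7f00b7f00a7f00ae20a0)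
 (c (nat_lit 0x7d4ca7d3967d4ca7d4ca7d4ca7d4ca30dc6) e
 (c (nat_lit 0x80000800007fc03800008000080000c0fc7) e
 (c z e
 (c z e
 (c (b (nat_lit 0x101bd607)) e
 (c (nat_lit 0x80000800007ff098000080000800003be47) e
 (c (b (nat_lit 0x1063b00b)) e
 (c z e
 (c z e
 (c z e
 (c (b (nat_lit 0x10911a0e)) e e)))))))))))
 (c (a (nat_lit 0xfe00200))
 (c (b (nat_lit 0x1024e407)) e
 (c z e
 (c z e
 (c z e
 (c (nat_lit 0x806bf806bf8057e8064a806bf806bf1f98b) e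
 (c (nat_lit 0x8000080000800007fcc58000080000a6bcb) e
 (c z e
 (c (b (nat_lit 0x10382a0b)) e
 (c (b (nat_lit 0x1030520e)) e e)))))))))
 (c (a (nat_lit 0xfe02000))
 (c z e
 (c (nat_lit 0x80000800007ffef800008000080000bf6c7) e
 (c z e
 (c z e
 (c z e
 (c (b (nat_lit 0x101b600b)) e
 (c z e
 (c (b (nat_lit 0x103e4a12)) e
 (c (nat_lit 0x8000080000800007fb527fb527fb5288f12) e e)))))))))
 (c (a (nat_lit 0xfdfea00))
 (c (nat_lit 0x7fb427fb427fa927fb427fb427fb4213d4b) e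
 (c z e
 (c z e
 (c z e
 (c (b (nat_lit 0x1019a20e)) e
 (c (b (nat_lit 0x1054ec11)) e e))))))
 (c (nat_lit 0x7f00a7f0097f00a7f00a7f00a74f01)
 (c z e
 (c (b (nat_lit 0x101e240b)) e e))
 (c (a (nat_lit 0xfe00801))
 (c (nat_lit 0x81504815048150481334812fa81504d480e) e e)
 (c (a (nat_lit 0xfde6c01)) e
 (c (nat_lit 0x7f1d37f1d37f1d37f1d37f0037c861) e
 (c (a (nat_lit 0xf699201)) e
 (c (nat_lit 0x7edab7ed7a7ed9f7edab7edabf19c2) e
 (c (nat_lit 0x7f04c7f04c7f00e7f02c7f04c1ec43) e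
 (c (nat_lit 0x8000080000800007ffa47ffcf066e2) e
 (c (a (nat_lit 0x100bf803)) e
 (c (a (nat_lit 0x1000fc03)) e
 (c (a (nat_lit 0xffb6a03)) e
 (c (nat_lit 0x7f4307f4307f3997f4307f4304a2a6) e
 (c (a (nat_lit 0xfe93207)) e
 (c (a (nat_lit 0xff34407)) e
 (c z e
 (c z e
 (c (a (nat_lit 0xfdf5007)) e
 (c (a (nat_lit 0xfe5840b)) e
 (c (a (nat_lit 0xfecf00b)) e
 (c z e
 (c z e
 (c (nat_lit 0x7fa8a7f9fe7f9fe7fa8a7fa8a92c2e) e e)))))))))))))))))))))))))))))))) Tr.c Tr.e (nat_lit 0) C.t5 C.t6 C.t7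
noncomputable def tt618 : Tr := beta% (fun (c : Nat → Tr → Tr → Tr) (e : Tr) (z : Nat) (a b d : Nat → Nat) =>
 (c (nat_lit 0x7f00e7f00e7f00e7f00e7f01059700)
 (c (nat_lit 0x80feb80fe580fe580fe480fe080fe4dcb41)
 (c z e
 (c (nat_lit 0x7eed07eed07eed07eed07eed07eed07ea360b106) e
 (c (d (nat_lit 0xf673007)) e
 (c (d (nat_lit 0xf661007)) e
 (c z e
 (c z e
 (c (d (nat_lit 0xfad6a07)) e
 (c z e
 (c z e
 (c z e
 (c (d (nat_lit 0x103f220e)) e e)))))))))))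
 (c (nat_lit 0x80fec80fec80fec80fec80fe980febf97c1)
 (c z e
 (c z e
 (c z e
 (c z e
 (c z e
 (c (d (nat_lit 0xfff2a0b)) e
 (c z e
 (c z e
 (c (d (nat_lit 0x1027800e)) e
 (c (nat_lit 0x8000080000800007fdeb800008000080000cbc96) e
 (c (nat_lit 0x8000080000800007ff98800008000080000f07a6) e e)))))))))))
 (c (b (nat_lit 0x101fc001)) e
 (c (b (nat_lit 0x101fd001))
 (c z e
 (c z e
 (c z e
 (c (d (nat_lit 0xfa3bc0b)) e e))))
 (c z e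
 (c (b (nat_lit 0x10134e02)) e
 (c (b (nat_lit 0x10272803)) e
 (c (b (nat_lit 0x102ad003)) e
 (c (b (nat_lit 0x101a2603)) e
 (c z e
 (c (nat_lit 0x8063580635806358063580635805a74b1c3) e
 (c z e
 (c z e
 (c z e
 (c z e
 (c z e
 (c z e
 (c z e
 (c z e
 (c z e
 (c z e
 (c (nat_lit 0x818738182881828818738187381873f35d6) e e))))))))))))))))))))))
 (c (a (nat_lit 0xfe01600))
 (c (b (nat_lit 0x101f9601))
 (c (d (nat_lit 0xf7a4c07)) e e)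
 (c z e
 (c z e
 (c (b (nat_lit 0x105c5202)) e
 (c (b (nat_lit 0x10519a03))
 (c z e
 (c (nat_lit 0x800008000080000800007fdf3800008000082c13) e e))
 (c (nat_lit 0x8156b8156b812fb8156b8156b8156b44143) e
 (c (b (nat_lit 0x10185803)) e
 (c z e
 (c z e
 (c z e
 (c (b (nat_lit 0x10176807)) e
 (c z e
 (c z e
 (c z e
 (c (b (nat_lit 0xfe4c207)) e
 (c (b (nat_lit 0xff2480b)) e
 (c z e
 (c z e
 (c z e
 (c z e
 (c (nat_lit 0x807c8807c8807c1807c8807c8807c82ad56) e e)))))))))))))))))))))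
 (c (a (nat_lit 0xfe01600))
 (c z e
 (c (b (nat_lit 0x105b8802)) e
 (c (b (nat_lit 0x10599e03)) e
 (c (b (nat_lit 0x101c7c03)) e
 (c z e
 (c z e
 (c z e
 (c (b (nat_lit 0xfed5e06)) e
 (c z e
 (c z e
 (c z e
 (c z e
 (c (b (nat_lit 0xff4c007)) e
 (c (b (nat_lit 0xfec420b)) e e))))))))))))))
 (c (a (nat_lit 0xfe01400))
 (c z e
 (c z e
 (c z e
 (c z e
 (c (b (nat_lit 0x103d0803)) e e)))))
 (c (a (nat_lit 0xfe01c00))
 (c z e
 (c z e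
 (c z e
 (c z e
 (c z e
 (c z e
 (c z e
 (c z e
 (c z e
 (c z e
 (c z e
 (c z e
 (c z e
 (c (b (nat_lit 0xfec4c18)) e e))))))))))))))
 (c (a (nat_lit 0xfe01000))
 (c (b (nat_lit 0xfb6be03)) e
 (c (nat_lit 0x7e7bb7e7bb7ddae7e7bb7e7bb7e7bbe8986) e
 (c z e
 (c z e
 (c z e
 (c z e
 (c (nat_lit 0x8264682646826468253e8264682646f5047) e
 (c z e
 (c z e
 (c (b (nat_lit 0x102fc60b)) e
 (c (b (nat_lit 0x1057160e)) e e)))))))))))
 (c (a (nat_lit 0xfe01400))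
 (c (b (nat_lit 0x10306c07)) e
 (c z e
 (c z e
 (c z e
 (c (nat_lit 0x80000800007ff9d7fcf4800008000053747) e
 (c (b (nat_lit 0x101d7c0b)) e
 (c z e
 (c (b (nat_lit 0x10221e0b)) e
 (c (b (nat_lit 0x102ad80e)) e
 (c (b (nat_lit 0x102b0012)) e
 (c (nat_lit 0x8000080000800007ffec800008000098c12) e e)))))))))))
 (c (nat_lit 0x7f01d7f01d7f01d7f01d7f01e6a060)
 (c z e
 (c z e
 (c z e
 (c z e
 (c z e
 (c (b (nat_lit 0x1045ae0b)) e
 (c (b (nat_lit 0x103ca00e)) e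
 (c (b (nat_lit 0x101a3e11)) e e))))))))
 (c (a (nat_lit 0xfe02600))
 (c (nat_lit 0x800007fea6800008000080000800006d007) e
 (c z e
 (c z e
 (c z e
 (c z e
 (c (b (nat_lit 0x102c9611)) e
 (c (b (nat_lit 0xfffc611)) e e)))))))
 (c (a (nat_lit 0xfdff600))
 (c z e
 (c z e
 (c z e
 (c (b (nat_lit 0x1052ac20)) e e))))
 (c (a (nat_lit 0xfe01e01))
 (c (b (nat_lit 0x102c540e)) e
 (c (nat_lit 0x80000800007fddd800008000080000151e0) e e))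
 (c (nat_lit 0x7f0207f0207f0197f0197f01b1d6a1)
 (c (nat_lit 0x800008000080000800007ff258000028210) e e)
 (c (nat_lit 0x7ef4e7efdf7efdf7efdf7efdf4ac61) e
 (c (a (nat_lit 0xfdf4e01)) e
 (c (a (nat_lit 0xfdb5a01)) e
 (c (nat_lit 0x7eea57ee647ee8a7eea57eea5a53c2) e
 (c (nat_lit 0x7ee8f7ee8f7ee6d7ee8f7ee8ff9c03) e
 (c (a (nat_lit 0x1003ca03)) e
 (c (a (nat_lit 0x10059a03)) e
 (c z e
 (c (a (nat_lit 0xff71203)) e
 (c (a (nat_lit 0xfe4b406)) e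
 (c (a (nat_lit 0xfed7007)) e
 (c (a (nat_lit 0xff03607)) e
 (c z e
 (c z e
 (c (nat_lit 0x7f5127f5127f4427f5127f51241087) e
 (c (nat_lit 0x80c8980c89809ca809ca809ca705eb) e
 (c (nat_lit 0x80e5f80e5f80e5f80c1980c1980c2b) e
 (c (nat_lit 0x80836808368086f8086f8086fa3a6b) e
 (c (nat_lit 0x7f20e7f20e7f3e87f3e87f3e8481ee) e e)))))))))))))))))))))))))))))))) Tr.c Tr.e (nat_lit 0) C.t5 C.t6 C.t7
noncomputable def tt619 : Tr := beta% (fun (c : Nat → Tr → Tr → Tr) (e : Tr) (z : Nat) (a b : Nat → Nat) =>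
 (c (a (nat_lit 0x101c5a00))
 (c z e
 (c (nat_lit 0x8258d8258d8258d825538258d8258d8258d34b83) e
 (c z e
 (c z e
 (c z e
 (c z e
 (c (b (nat_lit 0xfa67407)) e
 (c (b (nat_lit 0xf99ec07)) e
 (c z e
 (c z e
 (c (b (nat_lit 0xfff880b)) e
 (c z e
 (c (nat_lit 0x7ff5a800008000080000800008000080000f150b) e
 (c z e
 (c z e
 (c (b (nat_lit 0xfff0c19)) e e))))))))))))))))
 (c (a (nat_lit 0x101f6e00))
 (c z e
 (c z e
 (c z e
 (c z e
 (c z e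
 (c z e
 (c z e
 (c z e
 (c (b (nat_lit 0xffd780b)) e e)))))))))
 (c (a (nat_lit 0x10120801)) e
 (c (a (nat_lit 0x101fd801)) e
 (c (a (nat_lit 0x101dd201))
 (c z e
 (c z e
 (c z e
 (c z e
 (c z e
 (c (b (nat_lit 0xf122c0e)) e e))))))
 (c (a (nat_lit 0x101fb201)) e
 (c z e
 (c (a (nat_lit 0x100ef802)) e
 (c (a (nat_lit 0x1020c403)) e
 (c (a (nat_lit 0x10186403)) e
 (c (a (nat_lit 0x101bde03)) e
 (c z e
 (c z e
 (c z e
 (c z e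
 (c (a (nat_lit 0xffa9407)) e
 (c (a (nat_lit 0xffe5a07)) e
 (c z e
 (c (a (nat_lit 0xff29207)) e
 (c z e
 (c z e
 (c (a (nat_lit 0xffcd40b)) e e))))))))))))))))))))))) Tr.c Tr.e (nat_lit 0) C.t6 C.t7
noncomputable def tt620 : Tr := beta% (fun (c : Nat → Tr → Tr → Tr) (e : Tr) (z : Nat) (a b d : Nat → Nat) =>
 (c (a (nat_lit 0xfe00c00))
 (c (b (nat_lit 0x101f1e00)) e
 (c (b (nat_lit 0x101ff201)) e
 (c (b (nat_lit 0x101fc401)) e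
 (c (nat_lit 0x81009810098100980ffd80ffd80ffd80001) e
 (c (nat_lit 0x80ff680ff680ff680ff680ff580ff517e01) e
 (c z e
 (c (b (nat_lit 0x10181802)) e
 (c (nat_lit 0x8157a812e78157a8157a8157a8157aed783) e
 (c (nat_lit 0x815f7815f7815f7815c7815df815f78dc43) e
 (c z e
 (c z e
 (c z e
 (c z e
 (c (b (nat_lit 0x104f0c07)) e
 (c z e
 (c (b (nat_lit 0x1005a207)) e
 (c z e
 (c z e
 (c z e
 (c z e
 (c (b (nat_lit 0xffea80e)) e
 (c (b (nat_lit 0x100b4213)) e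
 (c (b (nat_lit 0xfec5e16)) e e)))))))))))))))))))))))
 (c (a (nat_lit 0xfdff400))
 (c (b (nat_lit 0x101ffe01))
 (c z e
 (c z e
 (c z e
 (c z e
 (c z e
 (c (d (nat_lit 0xffd9a0b)) e e))))))
 (c (b (nat_lit 0x101fea01)) e
 (c (b (nat_lit 0x10200801)) e
 (c z e
 (c (b (nat_lit 0x100bd002)) e
 (c (b (nat_lit 0x1027a203)) e
 (c (b (nat_lit 0x101c3203)) e
 (c (b (nat_lit 0x10220603)) e
 (c z e
 (c (nat_lit 0x800007ff977ff97800008000080000583c3) e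
 (c (b (nat_lit 0x10209006)) e
 (c z e
 (c z e
 (c z e
 (c z e
 (c z e
 (c z e
 (c (b (nat_lit 0xffe100b)) e
 (c z e
 (c z e
 (c z e
 (c (b (nat_lit 0xffe3e16)) e e))))))))))))))))))))))
 (c (a (nat_lit 0xfe00600))
 (c (b (nat_lit 0x10200a01)) e
 (c z e
 (c (b (nat_lit 0x10443202)) e
 (c (b (nat_lit 0x10182203)) e
 (c (b (nat_lit 0x100ab403)) e
 (c z e
 (c z e
 (c (b (nat_lit 0xfb06603)) e
 (c (nat_lit 0x7ec667ecdf7ecdf7ecdf7ecdf7ecdf05686) e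
 (c z e
 (c z e
 (c z e
 (c (b (nat_lit 0x10080007)) e
 (c z e
 (c z e
 (c z e
 (c z e
 (c (b (nat_lit 0xffe1a13)) e
 (c z e
 (c (b (nat_lit 0xfffb413)) e e))))))))))))))))))))
 (c (a (nat_lit 0xfe00800))
 (c (b (nat_lit 0x105c6c02)) e
 (c (b (nat_lit 0x104c8003)) e
 (c (nat_lit 0x800007ffb4800008000080000800007b743) e e)))
 (c (a (nat_lit 0xfe00000))
 (c (b (nat_lit 0x107e2a03))
 (c (nat_lit 0x7abc77abc77abc77abc77a98c7abc77abc743b98) e e)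
 (c z e
 (c z e
 (c z e
 (c z e
 (c z e
 (c z e
 (c z e
 (c z e
 (c z e
 (c z e
 (c z e
 (c (b (nat_lit 0xffb580e)) e
 (c z e
 (c (b (nat_lit 0xfd1f218)) e e)))))))))))))))
 (c (nat_lit 0x7f0057f0057f0057f0047f004243e0)
 (c z e
 (c z e
 (c z e
 (c z e
 (c z e
 (c z e
 (c z e
 (c z e
 (c z e
 (c z e
 (c z e
 (c (b (nat_lit 0x10118012)) e
 (c (nat_lit 0x7e7b27e7b27e7b27e7af7e7b27e7b27be98) e
 (c (b (nat_lit 0xffff218)) e e))))))))))))))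
 (c (a (nat_lit 0xfdffe00))
 (c (b (nat_lit 0x1012de06)) e
 (c z e
 (c z e
 (c z e
 (c z e
 (c z e
 (c z e
 (c (b (nat_lit 0x100abc0b)) e
 (c z e
 (c z e
 (c (b (nat_lit 0xffa4a12)) e
 (c z e
 (c z e
 (c (nat_lit 0x80000800008000080000800007fdd17274f) e e))))))))))))))
 (c (a (nat_lit 0xfe00a00)) e
 (c (a (nat_lit 0xfe01200))
 (c (b (nat_lit 0xfe1b407)) e
 (c z e
 (c z e
 (c z e
 (c z e
 (c z e
 (c z e
 (c (b (nat_lit 0xffa9611)) e e))))))))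
 (c (a (nat_lit 0xfdfde00))
 (c z e
 (c z e
 (c z e
 (c (b (nat_lit 0x10657220)) e e))))
 (c (a (nat_lit 0xfdff600))
 (c z e
 (c (b (nat_lit 0xfbe9820)) e e))
 (c (a (nat_lit 0xfe00e01)) e
 (c (nat_lit 0x7f0037f0037f0027f0027f003d4e21) e
 (c (nat_lit 0x7f00d7f00d7f00d7f0067f0066c481) e
 (c (a (nat_lit 0xffb2801)) e
 (c (nat_lit 0x7f46b7f4837f5167f5167f516508a1) e
 (c (nat_lit 0x7f47b7f4647f47b7f47b7f47b8dd22) e
 (c (nat_lit 0x7f4c67f4c67f4827f4c67f4c69bfe3) e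
 (c z e
 (c (a (nat_lit 0x1008c003)) e
 (c (a (nat_lit 0xff90803)) e
 (c (a (nat_lit 0xfe97003)) e
 (c (a (nat_lit 0xff54c06)) e
 (c (a (nat_lit 0xfed6007)) e
 (c (a (nat_lit 0xff76807)) e
 (c (a (nat_lit 0xff53207)) e
 (c z e
 (c z e
 (c z e
 (c (nat_lit 0x7f7d27f72b7f8067f8067f806537eb) e
 (c (a (nat_lit 0xfed780e)) e
 (c z e
 (c (nat_lit 0x8000080000800007ffd880000e2acf) e e)))))))))))))))))))))))))))))))))) Tr.c Tr.e (nat_lit 0) C.t5 C.t6 C.t7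
noncomputable def tt621 : Tr := beta% (fun (c : Nat → Tr → Tr → Tr) (e : Tr) (z : Nat) (a b : Nat → Nat) =>
 (c (a (nat_lit 0x101f9800))
 (c (b (nat_lit 0xec6ee01)) e
 (c (nat_lit 0x7c1577c1577c1577c1577bbf57c1577c1572b901) e
 (c (nat_lit 0x7ee5a7edff7ee077ee5a7ee5a7ee5a7ee5a37a02) e
 (c z e
 (c z e
 (c z e
 (c (nat_lit 0x800007f9937ff597fa8b8000080000800005f803) e
 (c (b (nat_lit 0xfd05803)) e
 (c z e
 (c (b (nat_lit 0x1023fa07)) e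
 (c z e
 (c (b (nat_lit 0xff93c07)) e
 (c (b (nat_lit 0xffe9c07)) e
 (c z e
 (c (b (nat_lit 0x109a820b)) e
 (c z e
 (c (b (nat_lit 0xfff300e)) e
 (c (b (nat_lit 0xfdc6a19)) e e))))))))))))))))))
 (c (a (nat_lit 0x101f8a00))
 (c (nat_lit 0x7d0e17d0c27d0957d0e17d0e17d0e17d0e1d3a82) e
 (c (b (nat_lit 0xfe10e03)) e
 (c z e
 (c z e
 (c z e
 (c z e
 (c z e
 (c (b (nat_lit 0x10330e07)) e
 (c z e
 (c z e
 (c z e
 (c z e
 (c z e
 (c (b (nat_lit 0x1076ee0b)) e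
 (c z e
 (c (b (nat_lit 0xfffea19)) e
 (c z e
 (c (b (nat_lit 0xffe4a2a)) e e))))))))))))))))))
 (c (a (nat_lit 0x101f7000))
 (c (nat_lit 0x80000800007fb1c8000080000800008000076c03) e
 (c (nat_lit 0x8000080000800007ffb2800008000080000cda03) e
 (c z e
 (c z e
 (c z e
 (c z e
 (c z e
 (c z e
 (c z e
 (c z e
 (c z e
 (c z e
 (c (b (nat_lit 0x10f6540e)) e
 (c (b (nat_lit 0xffe0819)) e e))))))))))))))
 (c (a (nat_lit 0x101ff200))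
 (c z e
 (c z e
 (c z e
 (c (b (nat_lit 0xf7bbc07)) e e))))
 (c (a (nat_lit 0x101fac00))
 (c z e
 (c z e
 (c z e
 (c z e
 (c z e
 (c z e
 (c (nat_lit 0x80000800007fd7c80000800008000080000a748b) e e)))))))
 (c (a (nat_lit 0x10112e01)) e
 (c (a (nat_lit 0x10200401)) e
 (c (a (nat_lit 0x101fc801)) e
 (c z e
 (c z e
 (c (a (nat_lit 0x1019d602)) e
 (c z e
 (c (nat_lit 0x813eb813eb813eb813388134f813eb48f83) e
 (c (a (nat_lit 0x1025f003)) e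
 (c z e
 (c (a (nat_lit 0x10514a03)) e
 (c z e
 (c (a (nat_lit 0x10199e07)) e
 (c (a (nat_lit 0x100f6e07)) e
 (c z e
 (c z e
 (c z e
 (c z e
 (c z e
 (c (a (nat_lit 0xfff560e)) e e)))))))))))))))))))))))))) Tr.c Tr.e (nat_lit 0) C.t6 C.t7
noncomputable def tt622 : Tr := beta% (fun (c : Nat → Tr → Tr → Tr) (e : Tr) (z : Nat) (a b d : Nat → Nat) =>
 (c (a (nat_lit 0xfe00000))
 (c (b (nat_lit 0x101fe801))
 (c z e
 (c z e
 (c z e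
 (c z e
 (c (d (nat_lit 0xffa8807)) e
 (c (d (nat_lit 0xffb5807)) e e))))))
 (c (b (nat_lit 0x101fea01)) e
 (c (b (nat_lit 0x10191801)) e
 (c z e
 (c z e
 (c z
 (c (d (nat_lit 0x10aed813)) e e)
 (c (b (nat_lit 0x10099c03)) e
 (c z e
 (c z e
 (c z e
 (c z e
 (c (b (nat_lit 0x107ca206)) e
 (c (b (nat_lit 0x10717a07)) e
 (c (b (nat_lit 0xfee7007)) e
 (c z e
 (c z e
 (c z e
 (c (nat_lit 0x7ffda7ff9a800008000080000800008ff4b) e
 (c (nat_lit 0x80000800007ffc18000080000800004524e) e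
 (c z e
 (c z e
 (c z e
 (c (b (nat_lit 0xff53616)) e e)))))))))))))))))))))))
 (c (a (nat_lit 0xfe01200))
 (c (b (nat_lit 0x101fe801))
 (c (d (nat_lit 0x10c9e207)) e
 (c z e
 (c z e
 (c z e
 (c z e
 (c z e
 (c (nat_lit 0x7ff9b7ff9b7ff9b7ff9b7ff9b7f7be7ff9b91a13) e e)))))))
 (c (b (nat_lit 0x101fdc01)) e
 (c z e
 (c (b (nat_lit 0x10494802)) e
 (c (b (nat_lit 0x10098203)) e
 (c (b (nat_lit 0x101c9803)) e
 (c (b (nat_lit 0x102f1603)) e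
 (c (b (nat_lit 0x1026b603)) e
 (c z e
 (c (b (nat_lit 0x10163406)) e
 (c z e
 (c (b (nat_lit 0xfcffa07)) e
 (c (b (nat_lit 0xf938e07)) e
 (c z e
 (c z e
 (c (b (nat_lit 0x10106e0b)) e
 (c (b (nat_lit 0x1034940e)) e
 (c (nat_lit 0x80b0d80b0d80b0d80af780b0480b0dc3353) e
 (c z e
 (c z e
 (c z e
 (c z e
 (c (nat_lit 0x800008000080000800007fe487fe4888f96) e e)))))))))))))))))))))))
 (c (a (nat_lit 0xfe00e00))
 (c z e
 (c z
 (c (nat_lit 0x86ba186ba186ae686ba186ba186ba186ba109b18) e e)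
 (c z e
 (c (b (nat_lit 0xfefa803)) e
 (c z e
 (c z e
 (c z e
 (c (b (nat_lit 0xfe44e06)) e
 (c (nat_lit 0x812b3812b38109d812b3812b3812b3171c7) e
 (c z e
 (c (b (nat_lit 0xfb76607)) e
 (c z e
 (c z e
 (c (b (nat_lit 0x102d7a0b)) e
 (c (b (nat_lit 0x1038360e)) e
 (c (b (nat_lit 0x1049ca18)) e e))))))))))))))))
 (c (a (nat_lit 0xfe01200))
 (c (nat_lit 0x824b8824a1824b8824b8824b8824b8f4a03)
 (c (nat_lit 0x841ec841ec841ec840d6841ec841ec841ec4b818) e e)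
 (c (b (nat_lit 0x10479a03)) e
 (c z e
 (c z e
 (c (b (nat_lit 0xfe18a03)) e
 (c z e
 (c (nat_lit 0x7cac17cac17ca807cac17cac17cac18e807) e
 (c (nat_lit 0x7f4347f4347f2877f4347f4347f43459e07) e
 (c (b (nat_lit 0x1040e007)) e
 (c z e
 (c z e
 (c z e
 (c z e
 (c z e
 (c (b (nat_lit 0x102c0e18)) e e)))))))))))))))
 (c (nat_lit 0x7f0067f0067f0067f0057f00529ae0)
 (c (nat_lit 0x8000080000800007f99e800008000026003) e
 (c z e
 (c z e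
 (c (b (nat_lit 0xf6bd606)) e
 (c (b (nat_lit 0xfbd3007)) e
 (c z e
 (c z e
 (c z e
 (c (b (nat_lit 0xfeb3207)) e
 (c (b (nat_lit 0x1068440b)) e e))))))))))
 (c (a (nat_lit 0xfdff400))
 (c (b (nat_lit 0x10a74c03)) e
 (c (nat_lit 0x826e38263b8263c826e3826e3826e3a0b46) e
 (c (nat_lit 0x82a9582c7682bf382c5082c7682c76ca5c7) e
 (c z e
 (c z e
 (c z e
 (c z e
 (c (b (nat_lit 0xf25060b)) e
 (c z e
 (c (b (nat_lit 0xffbf011)) e
 (c (b (nat_lit 0xfe40811)) e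
 (c z e
 (c (b (nat_lit 0xfffea18)) e e)))))))))))))
 (c (nat_lit 0x7f0197f0187f0187f0187f01880d20)
 (c (nat_lit 0x80ad180a5280aa480ad180ad180ad166607) e
 (c z e
 (c z e
 (c z e
 (c (b (nat_lit 0x1027aa07)) e
 (c z e
 (c z e
 (c z e
 (c (b (nat_lit 0xffa9e11)) e e)))))))))
 (c (a (nat_lit 0xfe00c00))
 (c (b (nat_lit 0x102a6a07)) e
 (c z e
 (c z e
 (c (nat_lit 0x83ed683dd983ed683ed683ed683ed68b1cb) e
 (c (nat_lit 0x80000800007f8128000080000800003ef8e) e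
 (c z e
 (c (nat_lit 0x8000080000800007fe5f800007ff5c61f0f) e
 (c (b (nat_lit 0xff7f011)) e e))))))))
 (c (a (nat_lit 0xfdff400))
 (c z e
 (c (nat_lit 0x7ffe080000800008000080000800009c7cb) e
 (c (b (nat_lit 0xf92960e)) e e)))
 (c (a (nat_lit 0xfe01c00))
 (c (b (nat_lit 0xf91480e)) e
 (c (nat_lit 0x7d8c27d8c27d7fc7d8c27d8c27d8c2aa790) e e))
 (c (a (nat_lit 0xfe02000))
 (c z e
 (c (nat_lit 0x8000080000800007fff17fff1800006f1cf) e e))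
 (c (a (nat_lit 0xfe00c01)) e
 (c (nat_lit 0x7f00f7f00f7f0077f0077f007ee4e1) e
 (c (a (nat_lit 0xfdfe201)) e
 (c (nat_lit 0x7f22c7f22c7f22c7f22c7f00b9a581) e
 (c (a (nat_lit 0xfeed401)) e
 (c (nat_lit 0x7ef567eee77ef567ef567ef560f362) e
 (c (a (nat_lit 0xfe30603)) e
 (c (a (nat_lit 0xfe9b403)) e
 (c (a (nat_lit 0xffcec03)) e
 (c (a (nat_lit 0x10109003)) e
 (c z e
 (c (a (nat_lit 0xff1cc06)) e
 (c (nat_lit 0x7f5297f5207f5077f5297f529ab227) e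
 (c (nat_lit 0x7f7977f7977f7977f7837f7974ace7) e
 (c (nat_lit 0x7f8427f8427f8427f8427f7eca9bc7) e
 (c z e
 (c z e
 (c (nat_lit 0x7f88f7f8db7f9587f9587f9581062b) e
 (c (nat_lit 0x7fa607fa867fa867fa867fa86cf70e) e
 (c z e
 (c (nat_lit 0x80000800007ffb580000800003a3af) e e))))))))))))))))))))))))))))))))) Tr.c Tr.e (nat_lit 0) C.t5 C.t6 C.t7
noncomputable def tt623 : Tr := beta% (fun (c : Nat → Tr → Tr → Tr) (e : Tr) (z : Nat) (a b : Nat → Nat) =>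
 (c (a (nat_lit 0x101f3a00))
 (c (b (nat_lit 0xfc8ca02)) e
 (c (nat_lit 0x80000800007ff3a7ff50800008000080000f9182) e
 (c (nat_lit 0x80ff780ff780ff780fed80ff780ff780ff7dfc83) e
 (c z e
 (c z e
 (c z e
 (c z e
 (c z e
 (c z e
 (c z e
 (c z e
 (c z e
 (c z e
 (c z e
 (c z e
 (c z e
 (c (b (nat_lit 0xffd6c1a)) e e)))))))))))))))))
 (c (a (nat_lit 0x101f6200))
 (c z e
 (c z e
 (c z e
 (c z e
 (c (b (nat_lit 0xfccee06)) e
 (c z e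
 (c z e
 (c z e
 (c z e
 (c z e
 (c z e
 (c z e
 (c z e
 (c z e
 (c (b (nat_lit 0xffcf01a)) e
 (c (b (nat_lit 0xff97c2a)) e e))))))))))))))))
 (c (a (nat_lit 0x101f8400)) e
 (c (a (nat_lit 0x101fbc00)) e
 (c (a (nat_lit 0x101fb001)) e
 (c (a (nat_lit 0x101fae01)) e
 (c (a (nat_lit 0x101fbc01)) e
 (c z e
 (c z e
 (c (nat_lit 0x80ae68099b809b480ae680ae680ae6338c2) e
 (c (nat_lit 0x8072980729806d48070a807298072998783) e
 (c (nat_lit 0x808d5808d5808d5808c7808d5808d596fc3) e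
 (c z e
 (c z e
 (c z e
 (c (a (nat_lit 0x100c0a06)) e
 (c (a (nat_lit 0x102aca07)) e
 (c z e
 (c z e
 (c z e
 (c z e
 (c z e
 (c (nat_lit 0x8000080000800007fef57fef580000523ce) e
 (c z e
 (c (a (nat_lit 0xfffc816)) e e)))))))))))))))))))))))))) Tr.c Tr.e (nat_lit 0) C.t6 C.t7
noncomputable def tt624 : Tr := beta% (fun (c : Nat → Tr → Tr → Tr) (e : Tr) (z : Nat) (a b : Nat → Nat) =>
 (c (a (nat_lit 0x101f9e00))
 (c (b (nat_lit 0xfe21401)) e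
 (c (b (nat_lit 0xfa8fc01)) e
 (c (b (nat_lit 0xfd45e01)) e
 (c z e
 (c z e
 (c z e
 (c (nat_lit 0x8000080000800007ff5380000800008000057403) e
 (c (b (nat_lit 0xf51fe03)) e
 (c z e
 (c z e
 (c (b (nat_lit 0x10131807)) e
 (c z e
 (c z e
 (c z e
 (c z e
 (c z e
 (c z e
 (c (b (nat_lit 0xfe9fa16)) e e))))))))))))))))))
 (c (a (nat_lit 0x101f7c00))
 (c (b (nat_lit 0xfc03801)) e
 (c (b (nat_lit 0xfe5c602)) e
 (c z e
 (c (b (nat_lit 0x10213c03)) e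
 (c z e
 (c z e
 (c z e
 (c z e
 (c z e
 (c z e
 (c z e
 (c z e
 (c z e
 (c z e
 (c z e
 (c (b (nat_lit 0x100ff016)) e e))))))))))))))))
 (c (a (nat_lit 0x101f7c00))
 (c (nat_lit 0x80000800007feff7ff1c800008000080000e0b82) e
 (c (b (nat_lit 0x101cf803)) e
 (c (nat_lit 0x82993829938299382993828af8299382993ef503) e
 (c z e
 (c z e
 (c (b (nat_lit 0xf487a06)) e
 (c z e
 (c z e
 (c z e
 (c z e
 (c z e
 (c z e
 (c z e
 (c z e
 (c z e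
 (c z e
 (c (b (nat_lit 0xffa642a)) e e)))))))))))))))))
 (c (a (nat_lit 0x101fde00))
 (c z e
 (c z e
 (c z e
 (c z e
 (c (b (nat_lit 0xf7fca07)) e
 (c z e
 (c z e
 (c z e
 (c z e
 (c z e
 (c z e
 (c z e
 (c z e
 (c z e
 (c (b (nat_lit 0xff6d426)) e e)))))))))))))))
 (c (a (nat_lit 0x101f8a00)) e
 (c (a (nat_lit 0x101f9400)) e
 (c (a (nat_lit 0x101fde01)) e
 (c (a (nat_lit 0x101fe001)) e
 (c (nat_lit 0x8101c8101c8101c810178101781017cb981) e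
 (c (a (nat_lit 0x101fb801)) e
 (c z e
 (c z e
 (c (a (nat_lit 0x1020ee03)) e
 (c (a (nat_lit 0x10185c03)) e
 (c z e
 (c z e
 (c (a (nat_lit 0x10038203)) e
 (c (a (nat_lit 0x10113e06)) e
 (c (a (nat_lit 0x100b9607)) e
 (c z e
 (c (a (nat_lit 0xfeb5c07)) e
 (c (a (nat_lit 0xfdcfe07)) e
 (c z e
 (c z e
 (c z e
 (c z e
 (c (a (nat_lit 0xffb2a1a)) e e)))))))))))))))))))))))))))) Tr.c Tr.e (nat_lit 0) C.t6 C.t7
noncomputable def tt625 : Tr := beta% (fun (c : Nat → Tr → Tr → Tr) (e : Tr) (z : Nat) (a b : Nat → Nat) =>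
 (c (a (nat_lit 0x101e9a00))
 (c (b (nat_lit 0xfd91200)) e
 (c (b (nat_lit 0xfdf2801)) e
 (c (b (nat_lit 0xfe37a01)) e
 (c (b (nat_lit 0xfda2801)) e
 (c (b (nat_lit 0xfc4b201)) e
 (c (b (nat_lit 0xfe23001)) e
 (c (b (nat_lit 0xfbf2c02)) e
 (c (b (nat_lit 0xfc49e03)) e
 (c (b (nat_lit 0x105f6203)) e
 (c (b (nat_lit 0x1082c803)) e
 (c (b (nat_lit 0x10ec3003)) e
 (c (b (nat_lit 0x10b68603)) e
 (c z e
 (c (b (nat_lit 0xffdb607)) e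
 (c z e
 (c (b (nat_lit 0x106e0607)) e
 (c z e
 (c z e
 (c (b (nat_lit 0xfc8420b)) e
 (c (b (nat_lit 0xfcb3c0e)) e
 (c (b (nat_lit 0xfbc8c1a)) e
 (c (b (nat_lit 0xfe86c38)) e e))))))))))))))))))))))
 (c (a (nat_lit 0x101f5800))
 (c (b (nat_lit 0xfd42201)) e
 (c (b (nat_lit 0xfe1a601)) e
 (c (b (nat_lit 0xfc98a01)) e
 (c (b (nat_lit 0xfe1ee01)) e
 (c z e
 (c z e
 (c (b (nat_lit 0x1027a403)) e
 (c (b (nat_lit 0xf1b1a03)) e
 (c z e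
 (c z e
 (c (b (nat_lit 0x10125e06)) e
 (c (b (nat_lit 0xfcb2807)) e
 (c (b (nat_lit 0xfc23e07)) e
 (c (b (nat_lit 0xfab0807)) e
 (c z e
 (c z e
 (c z e
 (c (b (nat_lit 0xfeed00e)) e
 (c (b (nat_lit 0xff0d81a)) e
 (c (b (nat_lit 0xff56c2a)) e e))))))))))))))))))))
 (c (a (nat_lit 0x101f2a00))
 (c (nat_lit 0x7d90e7d9d97d9d97d9d97d9d97d9d97d9d9ad381) e
 (c (b (nat_lit 0xfad6c01)) e
 (c (b (nat_lit 0xfe0e802)) e
 (c z e
 (c (b (nat_lit 0xffbda03)) e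
 (c (nat_lit 0x8000080000800007feb380000800008000038903) e
 (c (b (nat_lit 0xffcf403)) e
 (c z e
 (c (b (nat_lit 0x10227606)) e
 (c (b (nat_lit 0x101c4007)) e
 (c (b (nat_lit 0xffe7607)) e
 (c (b (nat_lit 0xfffa407)) e
 (c z e
 (c z e
 (c z e
 (c z e
 (c (b (nat_lit 0xffc6e1a)) e e)))))))))))))))))
 (c (a (nat_lit 0x101f4c00))
 (c (nat_lit 0x7e3dd7e2d77e2e17e3dd7e3dd7e3dd7e3dd4ca82) e
 (c (b (nat_lit 0xfeb2003)) e
 (c z e
 (c z e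
 (c z e
 (c (b (nat_lit 0xfc39403)) e
 (c z e
 (c z e
 (c z e
 (c z e
 (c z e
 (c (b (nat_lit 0x108e2207)) e
 (c z e
 (c (b (nat_lit 0xf4b000e)) e
 (c (b (nat_lit 0xfff0a1a)) e
 (c (b (nat_lit 0xffe1a23)) e e))))))))))))))))
 (c (a (nat_lit 0x101f6800))
 (c (nat_lit 0x7f7c57f7c57f7727f7c57f7c57f7c57f7c581803) e
 (c (nat_lit 0x7cc797cc797cc797cc6f7cc797cc797cc7914c83) e
 (c (nat_lit 0x800008000080000800007faa58000080000e5103) e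
 (c z e
 (c z e
 (c z e
 (c (b (nat_lit 0xffebe07)) e
 (c (b (nat_lit 0xfff9807)) e
 (c z e
 (c (nat_lit 0x800007f63c8000080000800008000080000f5107) e
 (c z e
 (c z e
 (c z e
 (c z e
 (c z e
 (c (b (nat_lit 0xffa8026)) e e))))))))))))))))
 (c (a (nat_lit 0x101f8200))
 (c z e
 (c z e
 (c z e
 (c (nat_lit 0x72a2e72a2e72a2e72a1c72a2e72a2e72a2e1b887) e
 (c z e
 (c (b (nat_lit 0xfc6e007)) e
 (c z e
 (c z e
 (c z e
 (c z e
 (c z e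
 (c z e
 (c z e
 (c (nat_lit 0x8000080000800007ff6c80000800008000059823) e e))))))))))))))
 (c (a (nat_lit 0x101f7400))
 (c z e
 (c (nat_lit 0x7938379383793647938379383793837938371487) e
 (c (nat_lit 0x7ab837ab837ab837ab6e7ab787ab837ab83d0f87) e
 (c z e
 (c z e
 (c z e
 (c z e
 (c (b (nat_lit 0x1056d80e)) e e))))))))
 (c (a (nat_lit 0x101f6000))
 (c (nat_lit 0x6fe396fe396fe396fdd86fe396fe396fe393bd87) e
 (c z e
 (c z e
 (c z e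
 (c (nat_lit 0x80000800008000080000800007ff797fa19bc407) e
 (c z e
 (c (b (nat_lit 0x10e5ec1a)) e
 (c (b (nat_lit 0x10804628)) e e))))))))
 (c (a (nat_lit 0x101fc401))
 (c z e
 (c z e
 (c z e
 (c (b (nat_lit 0x1094420e)) e e))))
 (c (a (nat_lit 0x101fe001))
 (c (b (nat_lit 0xf35000b)) e
 (c (b (nat_lit 0xf90e20e)) e
 (c (b (nat_lit 0xf43881a)) e e)))
 (c (a (nat_lit 0x101f2e01))
 (c (b (nat_lit 0xf85041a)) e
 (c (b (nat_lit 0xf89ac21)) e e))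
 (c z
 (c (nat_lit 0x7ae7b7ae7b7ae7b7ae7b7ae7b7ae7b7acf03c5a1) e e)
 (c z e
 (c z e
 (c (nat_lit 0x80000800007ff297ff3c800008000006202) e
 (c (a (nat_lit 0x107dd803)) e
 (c (nat_lit 0x8500a8500a8500a8500a850088500aada03) e
 (c (a (nat_lit 0x101ddc03)) e
 (c (a (nat_lit 0x1023ca03)) e
 (c (a (nat_lit 0x1018ea06)) e
 (c (a (nat_lit 0x10311007)) e
 (c (a (nat_lit 0x100f0207)) e
 (c (a (nat_lit 0x10038807)) e
 (c (a (nat_lit 0xff99207)) e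
 (c (a (nat_lit 0xfe79807)) e
 (c (a (nat_lit 0xff0300b)) e
 (c z e
 (c (a (nat_lit 0x1007ac1a)) e
 (c (nat_lit 0x8000080000800007fff880000800007a7cf) e
 (c (nat_lit 0x800008000080000800007ffad800004fb4f) e
 (c (nat_lit 0x80000800008000080000800007ffa77d7cf) e e)))))))))))))))))))))))))))))))) Tr.c Tr.e (nat_lit 0) C.t6 C.t7
noncomputable def tt626 : Tr := beta% (fun (c : Nat → Tr → Tr → Tr) (e : Tr) (z : Nat) (a b d : Nat → Nat) =>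
 (c (nat_lit 0x7f0187f0177f0177f0177f018f7100)
 (c z
 (c z e
 (c (d (nat_lit 0x10fffe0e)) e
 (c z e
 (c (d (nat_lit 0x10abc00f)) e e))))
 (c z e
 (c (b (nat_lit 0x1020b202)) e
 (c (nat_lit 0x7fecd7fe4b7fecd7fecd7fecd7fecd5a543) e
 (c z e
 (c z e
 (c (b (nat_lit 0x10342a03)) e
 (c z e
 (c z e
 (c z e
 (c (nat_lit 0x7ca9d7ca9d7c9517c8cb7ca9d7ca9de1347) e
 (c (b (nat_lit 0xfd1d407)) e
 (c z e
 (c (b (nat_lit 0x10473e07)) e
 (c (b (nat_lit 0x1057e20e)) e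
 (c (b (nat_lit 0x10702c0f)) e e))))))))))))))))
 (c (a (nat_lit 0xfe00000))
 (c (b (nat_lit 0x10124e02))
 (c (d (nat_lit 0x10fffe0f)) e e)
 (c z
 (c z e
 (c (d (nat_lit 0x10fffe0f)) e e))
 (c (b (nat_lit 0x100a1c03)) e
 (c (b (nat_lit 0xfe3e003)) e
 (c (b (nat_lit 0xfd9e003)) e
 (c (b (nat_lit 0x1056b003)) e
 (c (nat_lit 0x7cc4e7cc627cc627cc627cc627cc627dbc6) e
 (c (nat_lit 0x7e7e67e73c7e6fc7e7e67e7e67e7e659947) e
 (c (b (nat_lit 0x109b1a07)) e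
 (c (b (nat_lit 0x10186807)) e
 (c z e
 (c (b (nat_lit 0x1050a007)) e
 (c (b (nat_lit 0x1077cc0e)) e
 (c (nat_lit 0x8476b8476b8476b8476b8475a8476b5d14f) e
 (c (b (nat_lit 0x1016160f)) e
 (c z e
 (c z e
 (c (b (nat_lit 0x102d380f)) e e))))))))))))))))))
 (c (a (nat_lit 0xfdfda00))
 (c z e
 (c z e
 (c (b (nat_lit 0xfe8fc03)) e
 (c (b (nat_lit 0xfc83003)) e
 (c (b (nat_lit 0xf881006)) e
 (c (nat_lit 0x80000800007ff6980000800008000042007) e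
 (c (b (nat_lit 0xfeae607)) e
 (c z e
 (c (b (nat_lit 0xf347207)) e
 (c (b (nat_lit 0x10463407)) e
 (c (b (nat_lit 0x106f100e)) e
 (c (b (nat_lit 0x10995c0f)) e
 (c z e
 (c z e
 (c z e
 (c (nat_lit 0x82d5482d5482d5482ca482d5482d54e0acf) e e))))))))))))))))
 (c (a (nat_lit 0xfdff400))
 (c (b (nat_lit 0x10ba9403)) e
 (c (b (nat_lit 0x10941e03)) e
 (c (b (nat_lit 0x10496206)) e
 (c (b (nat_lit 0x10489407)) e
 (c z e
 (c z e
 (c (b (nat_lit 0xfc4b407)) e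
 (c (b (nat_lit 0xf462007)) e
 (c (b (nat_lit 0xffe720e)) e
 (c (b (nat_lit 0xffedc0f)) e
 (c (b (nat_lit 0xfe24e0f)) e
 (c z e
 (c (b (nat_lit 0x100db40f)) e
 (c (b (nat_lit 0x1012f20f)) e e))))))))))))))
 (c (a (nat_lit 0xfe01c00))
 (c (nat_lit 0x80d0080c6b80cfd80d0080d0080d0027106) e
 (c (b (nat_lit 0x1032fa07)) e
 (c (b (nat_lit 0xfefc407)) e
 (c (b (nat_lit 0x10106407)) e
 (c (b (nat_lit 0x102c0407)) e
 (c (b (nat_lit 0xfdd8a07)) e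
 (c (nat_lit 0x7eadc7e9c77eadc7ea137eadc7eadc275ce) e
 (c (b (nat_lit 0x1010700f)) e
 (c (b (nat_lit 0xff2ee0f)) e
 (c z e
 (c z e
 (c (b (nat_lit 0x10062e0f)) e
 (c (nat_lit 0x8000080000800007ff5f7fefb80000c1b92) e e)))))))))))))
 (c (a (nat_lit 0xfdf8200))
 (c (b (nat_lit 0x1014fc07)) e
 (c z e
 (c z e
 (c (b (nat_lit 0x10362607)) e
 (c (b (nat_lit 0xfef260e)) e
 (c (nat_lit 0x7d0c37d0c37d04d7d0c37cf877d0c3f98cf) e
 (c (b (nat_lit 0x1022780f)) e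
 (c (b (nat_lit 0xffbce0f)) e
 (c z e
 (c (b (nat_lit 0x10144a0f)) e e))))))))))
 (c (a (nat_lit 0xfdfb200))
 (c z e
 (c z e
 (c (nat_lit 0x7d43e7d35f7d43e7d43e7d43e7d43e9620e) e
 (c (nat_lit 0x7f3e47f3e47ec007f3e47f3e47f3e4a780f) e
 (c z e
 (c z e
 (c z e
 (c (b (nat_lit 0x104cfe0f)) e e))))))))
 (c (nat_lit 0x7f0197f0187f0187f0187f018912e0)
 (c (nat_lit 0x800007fdd67ff15800008000080000085ce) e
 (c (nat_lit 0x80000800007ffef7ff6c8000080000c14cf) e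
 (c z e
 (c z e
 (c z e
 (c (b (nat_lit 0x10264a0f)) e e))))))
 (c (nat_lit 0x7f0197f0187f0187f0187f01855ce0)
 (c (b (nat_lit 0xff53c0f)) e
 (c z e
 (c z e
 (c (b (nat_lit 0x10cda80f)) e e))))
 (c (nat_lit 0x7f0097f0097f00b7f00b7f00bba260)
 (c (b (nat_lit 0xfffbe0f)) e
 (c (b (nat_lit 0x1100160f)) e
 (c (nat_lit 0x8000080000800008317683176831761d810) e
 (c (nat_lit 0x8000080000800008000081dd781dd765550) e e))))
 (c (a (nat_lit 0xfdfe401))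
 (c (nat_lit 0x80000800008800088000880008800069c50) e
 (c (nat_lit 0x80000800008000081b3f81b4181b41fab50) e e))
 (c (a (nat_lit 0xfe01c01)) e
 (c (a (nat_lit 0xfdf9201)) e
 (c (nat_lit 0x7f03d7f03d7f03d7f03d7f015ba901) e
 (c (nat_lit 0x7f1447f2bd7f2bd7f2bd7f2bda64a1) e
 (c (a (nat_lit 0xfe71402)) e
 (c (a (nat_lit 0xfe4f403)) e
 (c (a (nat_lit 0xfe7ce03)) e
 (c z e
 (c (a (nat_lit 0x101faa03)) e
 (c (a (nat_lit 0xffa5003)) e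
 (c (nat_lit 0x7f6877f6787f6907f6a17f6a1d3e46) e
 (c (nat_lit 0x7f6b87f6b87f6b07f6b87f6b8e1d67) e
 (c (a (nat_lit 0xfedf007)) e
 (c (a (nat_lit 0xffc9a07)) e
 (c (a (nat_lit 0xff21607)) e
 (c (a (nat_lit 0xfdc4807)) e
 (c (nat_lit 0x7f8457f85f7f8347f85f7f85f73e4e) e
 (c (nat_lit 0x7fd867fd867fd867fd827fd86711af) e
 (c (nat_lit 0x7fdad7fc6b7fdad7fdad7fdad39a0f) e
 (c z e
 (c (a (nat_lit 0xff3ac0f)) e
 (c (a (nat_lit 0xf994a0f)) e e)))))))))))))))))))))))))))))))))) Tr.c Tr.e (nat_lit 0) C.t5 C.t6 C.t7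
noncomputable def tt627 : Tr := beta% (fun (c : Nat → Tr → Tr → Tr) (e : Tr) (z : Nat) (a b : Nat → Nat) =>
 (c (a (nat_lit 0x101f6e00))
 (c (b (nat_lit 0xf532e03)) e
 (c (nat_lit 0x7843d7843d784207843d7843d7843d7843d40306) e
 (c (b (nat_lit 0xfba9807)) e
 (c z e
 (c z e
 (c z e
 (c (nat_lit 0x8000080000800008000080000800007fccfacd87) e
 (c (nat_lit 0x81fa281fa281fa281fa281de781fa281fa26e28e) e
 (c z e
 (c (nat_lit 0x800007fa1b7fce4800008000080000800004b58f) e e))))))))))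
 (c (nat_lit 0x8100180ff780ff880ff580ff480ff6a1301)
 (c (b (nat_lit 0xf884a07)) e
 (c (nat_lit 0x7cfc97cfc97cfc97cfa27cf4b7cfc97cfc9af287) e
 (c (b (nat_lit 0x103e0007)) e
 (c (b (nat_lit 0x10aff607)) e
 (c z e
 (c (b (nat_lit 0x109fc80e)) e
 (c (b (nat_lit 0x1087f60f)) e
 (c z e
 (c z e
 (c z e
 (c z e
 (c (nat_lit 0x80000800007fb50800007ffdf8000080000761c0) e e))))))))))))
 (c (a (nat_lit 0x10200801))
 (c z e
 (c z e
 (c z e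
 (c (b (nat_lit 0x1049f20e)) e
 (c (b (nat_lit 0x1043400f)) e e)))))
 (c (a (nat_lit 0x101f9e01))
 (c (b (nat_lit 0x10efe807)) e
 (c z e
 (c (b (nat_lit 0x104f4a0f)) e
 (c (b (nat_lit 0x10440e0f)) e e))))
 (c (nat_lit 0x810918109181091810918106581066a7341)
 (c z e
 (c z e
 (c z e
 (c z e
 (c (b (nat_lit 0x1041ac0f)) e e)))))
 (c (a (nat_lit 0x100b3a01))
 (c (b (nat_lit 0x10c5060f)) e
 (c z e
 (c (b (nat_lit 0x10229e0f)) e e)))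
 (c (nat_lit 0x80e7580e1180e3c80e7580e7580e7548c82) e
 (c (a (nat_lit 0x10315c03)) e
 (c (nat_lit 0x81ff981ff981ff981f9381fdc81ff9f4dc3) e
 (c (a (nat_lit 0x10257803)) e
 (c (a (nat_lit 0x101de603)) e
 (c (a (nat_lit 0x10befc03)) e
 (c (a (nat_lit 0x105e9606)) e
 (c (a (nat_lit 0x1026c407)) e
 (c (a (nat_lit 0xff9fe07)) e
 (c (a (nat_lit 0xfda6407)) e
 (c z e
 (c (nat_lit 0x800007ff6b7ffad800008000080000e4187) e
 (c z e
 (c (nat_lit 0x8000080000800007ffdc80000800008eecf) e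
 (c z e
 (c (a (nat_lit 0xfe27c0f)) e
 (c z e
 (c (a (nat_lit 0x103c1c0f)) e e))))))))))))))))))))))))) Tr.c Tr.e (nat_lit 0) C.t6 C.t7
noncomputable def tt628 : Tr := beta% (fun (c : Nat → Tr → Tr → Tr) (e : Tr) (z : Nat) (a b : Nat → Nat) =>
 (c (a (nat_lit 0x101f7200))
 (c z e
 (c (nat_lit 0x7dea07dfd27dfd27dfd27dfd27dfd27dfd29fa83) e
 (c z e
 (c z e
 (c (b (nat_lit 0xf964806)) e
 (c (b (nat_lit 0xfeebc07)) e e))))))
 (c (a (nat_lit 0x101fc000))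
 (c z e
 (c (b (nat_lit 0xf33e803)) e
 (c (nat_lit 0x7cc007cc007cbfa7cc007cc007cc007cc0055e06) e
 (c (b (nat_lit 0xef3be07)) e
 (c (nat_lit 0x7f4667f4667f4667f2d67f4667f4667f466ae887) e
 (c (b (nat_lit 0xf9f4807)) e
 (c z e
 (c z e
 (c z e
 (c (b (nat_lit 0xfe46c0f)) e
 (c (b (nat_lit 0x100e780f)) e
 (c z e
 (c (b (nat_lit 0x1029460f)) e
 (c (b (nat_lit 0xfb2ac0f)) e
 (c z e
 (c (nat_lit 0x80000800008000080000800007ff8080000691a6) e e))))))))))))))))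
 (c (a (nat_lit 0x101ef800))
 (c (nat_lit 0x7e23c7e0d47e23c7e23c7e23c7e23c7e23cb1506) e
 (c (nat_lit 0x7b13f7b13f7b0967b13f7b13f7b13f7b13feb487) e
 (c z e
 (c z e
 (c z e
 (c z e
 (c (b (nat_lit 0x10485c0e)) e
 (c (b (nat_lit 0x105d2a0f)) e e))))))))
 (c (nat_lit 0x80fef80fec80fed80fed80fec80feeb2581)
 (c (nat_lit 0x7b6017b6017b6017b5ce7b6017b6017b6019d987) e
 (c z e
 (c z e
 (c (b (nat_lit 0x103fa407)) e
 (c (b (nat_lit 0x10a0be0e)) e e)))))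
 (c (a (nat_lit 0x101fec01))
 (c z e
 (c z e
 (c (nat_lit 0x8324e8324e8324e8324e8304d8324e8324e4cc8e) e
 (c (b (nat_lit 0x106cae0f)) e
 (c z e
 (c z e
 (c z e
 (c (b (nat_lit 0x104c1e0f)) e e))))))))
 (c (a (nat_lit 0x101f0401))
 (c (b (nat_lit 0x10714a0e)) e
 (c (nat_lit 0x8225182251822518225182212822518225186a0f) e e))
 (c z
 (c (nat_lit 0x7ff317ff317ff317ff317ff317fdbe7ff310db0f) e e)
 (c (a (nat_lit 0x10125e01)) e
 (c (nat_lit 0x80a23808b98090080a2380a2380a23fe9c2) e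
 (c (nat_lit 0x805f1805f180583805e0805f1805f1466c3) e
 (c (nat_lit 0x806f1806f1806f1806c4806f1806f18d7c3) e
 (c (nat_lit 0x807d5807d5807d5807d580594805e44bc83) e
 (c z e
 (c (a (nat_lit 0x10fbc003)) e
 (c (a (nat_lit 0x10299e06)) e
 (c (a (nat_lit 0x10209807)) e
 (c (a (nat_lit 0xff17c07)) e
 (c z e
 (c (a (nat_lit 0x10085807)) e
 (c z e
 (c z e
 (c (a (nat_lit 0x1005020f)) e
 (c z e
 (c z e
 (c z e
 (c (a (nat_lit 0x101a460f)) e e))))))))))))))))))))))))))) Tr.c Tr.e (nat_lit 0) C.t6 C.t7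
noncomputable def tt629 : Tr := beta% (fun (c : Nat → Tr → Tr → Tr) (e : Tr) (z : Nat) (a b : Nat → Nat) =>
 (c (a (nat_lit 0x101ea800))
 (c (b (nat_lit 0xfffc401)) e
 (c (b (nat_lit 0xfe2de02)) e
 (c z e
 (c z e
 (c z e
 (c (b (nat_lit 0xf9edc03)) e
 (c z e
 (c z e
 (c (b (nat_lit 0xfff9207)) e
 (c z e
 (c z e
 (c z e
 (c z e
 (c z e
 (c z e
 (c z e
 (c z e
 (c z e
 (c (b (nat_lit 0xfff6c0f)) e e)))))))))))))))))))
 (c (a (nat_lit 0x101f2800))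
 (c z e
 (c z e
 (c z e
 (c z e
 (c z e
 (c (b (nat_lit 0xfb83a06)) e
 (c z e
 (c z e
 (c z e
 (c (b (nat_lit 0xff84c07)) e e))))))))))
 (c (a (nat_lit 0x101f5200))
 (c z e
 (c z e
 (c (b (nat_lit 0xffeda03)) e
 (c (b (nat_lit 0xf6eac06)) e
 (c (b (nat_lit 0xf72fc07)) e
 (c z e
 (c (b (nat_lit 0xffdca07)) e
 (c z e
 (c z e
 (c (b (nat_lit 0xffe620e)) e
 (c z e
 (c z e
 (c z e
 (c z e
 (c (b (nat_lit 0x1010800f)) e e)))))))))))))))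
 (c (a (nat_lit 0x101f1c00))
 (c z e
 (c z e
 (c (b (nat_lit 0xf33f607)) e
 (c z e
 (c z e
 (c (b (nat_lit 0xffdac07)) e
 (c z e
 (c z e
 (c z e
 (c z e
 (c z e
 (c z e
 (c (nat_lit 0x800007ff297ff4e800008000080000800007598f) e e)))))))))))))
 (c (a (nat_lit 0x101ef600))
 (c z e
 (c z e
 (c z e
 (c (b (nat_lit 0xfff7407)) e e))))
 (c (a (nat_lit 0x101f8201))
 (c z e
 (c (b (nat_lit 0xffd5a07)) e e))
 (c (a (nat_lit 0x101fca01))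
 (c (b (nat_lit 0x10b74c07)) e
 (c (b (nat_lit 0x104f9a0e)) e e))
 (c (a (nat_lit 0x101a2a01))
 (c (b (nat_lit 0xfc7840f)) e e)
 (c z e
 (c z e
 (c z e
 (c (nat_lit 0x8099180991808bd808e880991809918e483) e
 (c (a (nat_lit 0x10132c03)) e
 (c z e
 (c z e
 (c (a (nat_lit 0x10250a03)) e
 (c (a (nat_lit 0x101ace06)) e
 (c (a (nat_lit 0x1017f007)) e
 (c z e
 (c z e
 (c z e
 (c z e
 (c (a (nat_lit 0x100a420e)) e
 (c z e
 (c z e
 (c z e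
 (c (nat_lit 0x7ff9c7ff9c7ff9c7ff9c7ff457ff4508a0f) e e)))))))))))))))))))))))))))) Tr.c Tr.e (nat_lit 0) C.t6 C.t7
noncomputable def tt630 : Tr := beta% (fun (c : Nat → Tr → Tr → Tr) (e : Tr) (z : Nat) (a b : Nat → Nat) =>
 (c (a (nat_lit 0x101fa600))
 (c (b (nat_lit 0xfb4fe01)) e
 (c (b (nat_lit 0xfc2d001)) e
 (c (b (nat_lit 0xfe3d601)) e
 (c (b (nat_lit 0xfe67801)) e
 (c (b (nat_lit 0xfe1f002)) e
 (c z e
 (c z e
 (c (b (nat_lit 0xf66f403)) e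
 (c z e
 (c z e
 (c z e
 (c z e
 (c (b (nat_lit 0xf56b207)) e
 (c (b (nat_lit 0xffe6c07)) e
 (c z e
 (c z e
 (c z e
 (c z e
 (c z e
 (c z e
 (c (b (nat_lit 0xfffce0f)) e
 (c (b (nat_lit 0xfd5860f)) e e))))))))))))))))))))))
 (c (a (nat_lit 0x101f1e00))
 (c (b (nat_lit 0xfbc0601)) e
 (c (nat_lit 0x7f02c7f03a7f0c77f0c77f0c77f0c77f0c776581) e
 (c (b (nat_lit 0xfe15e02)) e
 (c z e
 (c z e
 (c z e
 (c z e
 (c z e
 (c (b (nat_lit 0x10259806)) e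
 (c (b (nat_lit 0x100bf207)) e
 (c (b (nat_lit 0xffd2607)) e
 (c z e
 (c z e
 (c z e
 (c z e
 (c z e
 (c z e
 (c z e
 (c z e
 (c (b (nat_lit 0xffe980f)) e e))))))))))))))))))))
 (c (a (nat_lit 0x101fa200))
 (c (b (nat_lit 0xfe33a02)) e
 (c z e
 (c (b (nat_lit 0x1024d403)) e
 (c z e
 (c z e
 (c z e
 (c (b (nat_lit 0xfda9806)) e
 (c (b (nat_lit 0xfe16807)) e
 (c z e
 (c z e
 (c z e
 (c z e
 (c z e
 (c z e
 (c (b (nat_lit 0xff98e0f)) e e)))))))))))))))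
 (c (a (nat_lit 0x101ff200))
 (c (b (nat_lit 0x1013e403)) e
 (c (b (nat_lit 0xf857203)) e
 (c (nat_lit 0x8000080000800007fe758000080000800001fa83) e
 (c z e
 (c (b (nat_lit 0xfffe806)) e
 (c (b (nat_lit 0xfe0ba07)) e e))))))
 (c (a (nat_lit 0x101f7e00)) e
 (c (a (nat_lit 0x101f6000))
 (c (b (nat_lit 0xf7c2606)) e
 (c (b (nat_lit 0xfb08c07)) e
 (c z e
 (c z e
 (c (b (nat_lit 0xffe4607)) e
 (c z e
 (c z e
 (c z e
 (c (b (nat_lit 0x1082580f)) e e)))))))))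
 (c (a (nat_lit 0x101fb400)) e
 (c (a (nat_lit 0x101ffe01))
 (c z e
 (c z e
 (c (b (nat_lit 0xfffe40e)) e e)))
 (c (a (nat_lit 0x10200601))
 (c z e
 (c z e
 (c z e
 (c z e
 (c z e
 (c (b (nat_lit 0xfc0720f)) e e))))))
 (c (nat_lit 0x810088100881008810058100581005879c1) e
 (c (a (nat_lit 0x1015a001)) e
 (c z e
 (c (a (nat_lit 0x101c5602)) e
 (c (nat_lit 0x80e0880e0880d8880dca80e0880e0868943) e
 (c z e
 (c z e
 (c z e
 (c (a (nat_lit 0x10065c03)) e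
 (c (a (nat_lit 0x100a2806)) e
 (c (a (nat_lit 0x1007e607)) e
 (c (a (nat_lit 0xfeb1a07)) e
 (c (a (nat_lit 0xff69c07)) e
 (c z e
 (c z e
 (c (a (nat_lit 0xff05e0e)) e e)))))))))))))))))))))))))) Tr.c Tr.e (nat_lit 0) C.t6 C.t7
noncomputable def tt631 : Tr := beta% (fun (c : Nat → Tr → Tr → Tr) (e : Tr) (z : Nat) (a b : Nat → Nat) =>
 (c (a (nat_lit 0x101ec400))
 (c (b (nat_lit 0xfcc1800)) e
 (c (b (nat_lit 0xfe2d600)) e
 (c (b (nat_lit 0xfcce601)) e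
 (c (b (nat_lit 0xfccd001)) e
 (c (nat_lit 0x7f15e7f15e7f0a97f15e7f15e7f15e7f15edff01) e
 (c (b (nat_lit 0xfe24001)) e
 (c (b (nat_lit 0xfa76601)) e
 (c (b (nat_lit 0xf94c402)) e
 (c (b (nat_lit 0x107d8a03)) e
 (c (b (nat_lit 0x10827e03)) e
 (c (b (nat_lit 0x10f0d803)) e
 (c (b (nat_lit 0x1082be03)) e
 (c (b (nat_lit 0x1081b203)) e
 (c z e
 (c z e
 (c (nat_lit 0x8709d8709d864878709d8709d8709d8709d70d87) e
 (c (b (nat_lit 0x105a8807)) e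
 (c (b (nat_lit 0xfeaae07)) e
 (c (b (nat_lit 0xfffb007)) e
 (c z e
 (c (b (nat_lit 0xfdaa20f)) e
 (c (b (nat_lit 0xff6fa0f)) e e))))))))))))))))))))))
 (c (a (nat_lit 0x101f7000))
 (c (b (nat_lit 0xfe25a01)) e
 (c (b (nat_lit 0xfe2e601)) e
 (c (b (nat_lit 0xfdfe401)) e
 (c (b (nat_lit 0xfe13201)) e
 (c (b (nat_lit 0xfe29601)) e
 (c z e
 (c (b (nat_lit 0xfa72403)) e
 (c (nat_lit 0x81f9181f9181f9181f5e81f9181f9181f9156903) e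
 (c z e
 (c z e
 (c z e
 (c z e
 (c (b (nat_lit 0xfd28607)) e
 (c z e
 (c z e
 (c (b (nat_lit 0xfa12407)) e
 (c z e
 (c z e
 (c z e
 (c (b (nat_lit 0xffdc60f)) e
 (c z e
 (c z e
 (c (b (nat_lit 0xff9820f)) e e)))))))))))))))))))))))
 (c (a (nat_lit 0x101ed200))
 (c (b (nat_lit 0xfe40a01)) e
 (c (b (nat_lit 0xfbdb401)) e
 (c (b (nat_lit 0xfd29601)) e
 (c z e
 (c (nat_lit 0x80000800007ff5f80000800008000080000fbe82) e
 (c z e
 (c z e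
 (c z e
 (c z e
 (c z e
 (c z e
 (c z e
 (c (b (nat_lit 0xffff407)) e
 (c z e
 (c z e
 (c z e
 (c (b (nat_lit 0xfed4a0f)) e e)))))))))))))))))
 (c (a (nat_lit 0x101f4c00))
 (c (b (nat_lit 0xfb80601)) e
 (c (nat_lit 0x7ecca7ec987ecb17ecca7ecca7ecca7ecca07c02) e
 (c (nat_lit 0x800008000080000800007fed2800008000050f81) e
 (c (b (nat_lit 0xff04c03)) e
 (c z e
 (c z e
 (c z e
 (c z e
 (c z e
 (c (b (nat_lit 0xff48a07)) e
 (c (b (nat_lit 0x10351407)) e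
 (c z e
 (c z e
 (c (nat_lit 0x7dfae7dfae7decb7dfae7dfae7dfae7dfaef718e) e
 (c (b (nat_lit 0x10264a0f)) e e)))))))))))))))
 (c (a (nat_lit 0x101fda00))
 (c z e
 (c (nat_lit 0x80000800007ff6e8000080000800008000095583) e
 (c z e
 (c z e
 (c z e
 (c z e
 (c z e
 (c z e
 (c (b (nat_lit 0xfff0207)) e
 (c (b (nat_lit 0xffef807)) e
 (c z e
 (c z e
 (c z e
 (c (b (nat_lit 0xfff2e0f)) e e))))))))))))))
 (c (a (nat_lit 0x101f6600))
 (c z e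
 (c z e
 (c z e
 (c (b (nat_lit 0xe982e06)) e
 (c z e
 (c (b (nat_lit 0xfadfe07)) e
 (c (b (nat_lit 0xfb56207)) e
 (c (b (nat_lit 0xfa13a07)) e
 (c (nat_lit 0x800007ffcd8000080000800008000080000d7c07) e
 (c (b (nat_lit 0xfffbe0e)) e
 (c z e
 (c z e
 (c (b (nat_lit 0x1093f80f)) e e)))))))))))))
 (c (a (nat_lit 0x101f2800))
 (c z e
 (c z e
 (c (nat_lit 0x777b9777b9777b97778f777b9777b9777b927787) e
 (c (nat_lit 0x8000080000800007ffe67ffd180000800008c987) e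
 (c z e
 (c (b (nat_lit 0xff87407)) e
 (c (b (nat_lit 0xf9f3407)) e
 (c z e
 (c z e
 (c (b (nat_lit 0x1060d80f)) e e))))))))))
 (c (a (nat_lit 0x101f5200))
 (c (nat_lit 0x70a9570a9570a7f70a9570a9570a9570a9544687) e e)
 (c (a (nat_lit 0x101f8000))
 (c z e
 (c z e
 (c (b (nat_lit 0x10850c07)) e
 (c (b (nat_lit 0x106e880e)) e
 (c (b (nat_lit 0x10930c0f)) e e)))))
 (c (a (nat_lit 0x10202e01))
 (c (b (nat_lit 0xf2e1e07)) e
 (c (b (nat_lit 0xf7c500e)) e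
 (c (b (nat_lit 0xf97440f)) e
 (c z e
 (c (b (nat_lit 0xfff620f)) e e)))))
 (c (a (nat_lit 0x101f4201))
 (c (b (nat_lit 0xfdf180f)) e e)
 (c (a (nat_lit 0x1017fe01))
 (c (b (nat_lit 0xf7ac60f)) e e)
 (c z e
 (c z e
 (c z e
 (c (nat_lit 0x80000800007ffa27ffec8000080000d6442) e
 (c (a (nat_lit 0x10b37a03)) e
 (c (a (nat_lit 0x101a1a03)) e
 (c (a (nat_lit 0x100b8003)) e
 (c (a (nat_lit 0x10060003)) e
 (c (a (nat_lit 0x10193a06)) e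
 (c (a (nat_lit 0x100eee07)) e
 (c (a (nat_lit 0x1008f607)) e
 (c z e
 (c (a (nat_lit 0xfe39007)) e
 (c (a (nat_lit 0xff2a407)) e
 (c (nat_lit 0x800007ffa680000800008000080000f754e) e
 (c (nat_lit 0x804d1804c68046e804d1804d1804d16858f) e
 (c (nat_lit 0x800a1800a1800a180075800a1800a1bee8f) e
 (c (nat_lit 0x8000080000800007ff997ff338000002bcf) e
 (c (nat_lit 0x7f88b7f88b7f88b7f88b7f88b7f8327434f) e
 (c (a (nat_lit 0xfff180f)) e e))))))))))))))))))))))))))))))))) Tr.c Tr.e (nat_lit 0) C.t6 C.t7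
noncomputable def tt632 : Tr := beta% (fun (c : Nat → Tr → Tr → Tr) (e : Tr) (z : Nat) (a b : Nat → Nat) =>
 (c (a (nat_lit 0x101f5400))
 (c (b (nat_lit 0xfe4b200)) e
 (c (b (nat_lit 0xfdedc01)) e
 (c (b (nat_lit 0xfe22e01)) e
 (c (b (nat_lit 0xfe3e401)) e
 (c (b (nat_lit 0xfe22a01)) e
 (c (b (nat_lit 0xfaf8c01)) e
 (c (b (nat_lit 0xfd66002)) e
 (c z e
 (c (nat_lit 0x80000800008000080000800007fc6d8000028e01) e
 (c z e
 (c z e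
 (c z e
 (c z e
 (c (b (nat_lit 0xfc6e407)) e
 (c z e
 (c (b (nat_lit 0xffa4207)) e
 (c (nat_lit 0x7e8527e8527e6127e8527e8527e8527e85228007) e
 (c z e
 (c (b (nat_lit 0xffeae0e)) e
 (c (b (nat_lit 0xfff0a0f)) e
 (c z e
 (c z e
 (c z e
 (c (nat_lit 0x800007fa0380000800008000080000800005880f) e e))))))))))))))))))))))))
 (c (a (nat_lit 0x101e3200))
 (c (b (nat_lit 0xfdb2c01)) e
 (c (b (nat_lit 0xfd92801)) e
 (c (b (nat_lit 0xfe94601)) e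
 (c (b (nat_lit 0xfad2c01)) e
 (c (b (nat_lit 0xfc74e02)) e
 (c z e
 (c (b (nat_lit 0xfe9d403)) e
 (c (nat_lit 0x80000800008000080000800007ffed80000eb781) e
 (c z e
 (c z e
 (c z e
 (c z e
 (c (b (nat_lit 0xfd6be07)) e
 (c (b (nat_lit 0xf861c07)) e
 (c z e
 (c (b (nat_lit 0xfd97607)) e
 (c z e
 (c z e
 (c z e
 (c (b (nat_lit 0x100c500f)) e e))))))))))))))))))))
 (c (a (nat_lit 0x101f6a00))
 (c (nat_lit 0x7e0307e3ae7e3ae7e3ae7e3ae7e3ae7e3ae68201) e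
 (c (b (nat_lit 0xfcd3601)) e
 (c (b (nat_lit 0xfe37402)) e
 (c (b (nat_lit 0xfeffe03)) e
 (c (b (nat_lit 0xf7e2003)) e
 (c (nat_lit 0x7cc9f7cdc07cdc07cdc07cdc07cdc07cdc071f03) e
 (c z e
 (c z e
 (c z e
 (c z e
 (c z e
 (c (b (nat_lit 0x10849607)) e
 (c z e
 (c (b (nat_lit 0xe3fdc07)) e
 (c (b (nat_lit 0xfdc460e)) e
 (c (nat_lit 0x80000800008000080000800007fed080000c3607) e
 (c z e
 (c z e
 (c (b (nat_lit 0xffc6c0f)) e e)))))))))))))))))))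
 (c (a (nat_lit 0x101fd800))
 (c (nat_lit 0x80000800008000080000800007fafb8000036301) e
 (c z e
 (c z e
 (c (b (nat_lit 0xff9cc03)) e
 (c (b (nat_lit 0xf921c03)) e
 (c z e
 (c z e
 (c (b (nat_lit 0xfaa8407)) e
 (c (b (nat_lit 0xf837e07)) e
 (c z e
 (c (nat_lit 0x800007f84c800008000080000800008000066e87) e
 (c (nat_lit 0x80000800007ffeb800008000080000800008d187) e
 (c z e
 (c z e
 (c (b (nat_lit 0xffd700f)) e
 (c (b (nat_lit 0x1036ce0f)) e e))))))))))))))))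
 (c (a (nat_lit 0x101f0600))
 (c (b (nat_lit 0x1068e203)) e
 (c z e
 (c (b (nat_lit 0xfda3203)) e
 (c (b (nat_lit 0xf06d403)) e
 (c z e
 (c (nat_lit 0x7d1397d1397d0e07d1397d0477d1397d139ece07) e
 (c (nat_lit 0x7aa0c7aa0c7a84d7aa0c7aa0c7aa0c7aa0c3f207) e
 (c (nat_lit 0x78f2878f2878f2878eb778f2878f2878f2801b87) e
 (c z e
 (c z e
 (c z e
 (c (nat_lit 0x800008000080000800007fc608000080000bf70e) e
 (c (b (nat_lit 0x108ad40f)) e
 (c (b (nat_lit 0x10a6ee0f)) e e))))))))))))))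
 (c (a (nat_lit 0x101e6c00))
 (c (nat_lit 0x7b2ee7b24d7b5157b5157b5157b5157b51559083) e
 (c (b (nat_lit 0xfc9ce03)) e
 (c (nat_lit 0x748f4748f4748c0748f4748f4748f4748f4fc586) e
 (c z e
 (c (nat_lit 0x8000080000800007fefa7ff248000080000b0907) e
 (c (nat_lit 0x8000080000800007fda180000800008000021087) e
 (c (nat_lit 0x7a4437a4437a4437a4437a3987a4437a443d6207) e e)))))))
 (c (a (nat_lit 0x101f8200))
 (c (nat_lit 0x767a8767a8767a876783767a8767a8767a8c6786) e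
 (c (nat_lit 0x80000800007fe137fde57fe54800008000097407) e
 (c z e
 (c (nat_lit 0x8197481974819748195b81955819748197474707) e
 (c z e
 (c (b (nat_lit 0xf71c407)) e
 (c (b (nat_lit 0x10b0940e)) e
 (c (nat_lit 0x85a5a85a5a85a5a85a5a85a0b85a5a85a5a02a0f) e
 (c z e
 (c (b (nat_lit 0xfff400f)) e e))))))))))
 (c (a (nat_lit 0x10204600))
 (c z e
 (c (b (nat_lit 0x101d5c07)) e
 (c (b (nat_lit 0x1041ea07)) e
 (c (b (nat_lit 0x10601e07)) e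
 (c (b (nat_lit 0x10e91e0e)) e
 (c z e
 (c z e
 (c z e
 (c (b (nat_lit 0x10c9f60f)) e e)))))))))
 (c (a (nat_lit 0x101fd600))
 (c (nat_lit 0x77fe877fe877fe877fe877deb77fe877fe8e4007) e
 (c (nat_lit 0x78ce478ce478ce478ce478ce478a8878b0a4ae87) e
 (c (b (nat_lit 0xf7bcc0e)) e
 (c (nat_lit 0x80000800007fcd680000800008000080000c100f) e
 (c (b (nat_lit 0xfffea0f)) e
 (c (b (nat_lit 0xf76ce0f)) e
 (c z e
 (c (b (nat_lit 0x10f8b60f)) e e))))))))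
 (c z
 (c z e
 (c (b (nat_lit 0xfd7f00f)) e
 (c (nat_lit 0x8000080000800007fe4780000800008000036a8f) e
 (c z e
 (c z e
 (c (b (nat_lit 0x1066680f)) e e))))))
 (c z e
 (c z e
 (c z e
 (c (a (nat_lit 0x1003ae01)) e
 (c (a (nat_lit 0x10a74a02)) e
 (c (nat_lit 0x84aee84aee84a8e84a9d84aee84aee54a83) e
 (c (a (nat_lit 0x101ce603)) e
 (c (a (nat_lit 0x101e5403)) e
 (c (a (nat_lit 0x1017d603)) e
 (c (a (nat_lit 0x10072c03)) e
 (c (a (nat_lit 0x10044006)) e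
 (c (a (nat_lit 0x100b2007)) e
 (c (a (nat_lit 0x1003d407)) e
 (c (a (nat_lit 0xfd18607)) e
 (c (a (nat_lit 0xfc75807)) e
 (c z e
 (c z e
 (c z e
 (c (a (nat_lit 0xffff60f)) e
 (c (a (nat_lit 0xff3380f)) e
 (c (a (nat_lit 0xfffda0f)) e
 (c (nat_lit 0x81876818768180f8187681876818763388f) e e))))))))))))))))))))))))))))))))) Tr.c Tr.e (nat_lit 0) C.t6 C.t7
noncomputable def tt633 : Tr := beta% (fun (c : Nat → Tr → Tr → Tr) (e : Tr) (z : Nat) (a b : Nat → Nat) =>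
 (c (a (nat_lit 0x101e8800))
 (c (b (nat_lit 0xf645200)) e
 (c (b (nat_lit 0xfe90200)) e
 (c (b (nat_lit 0xfc00a00)) e
 (c (b (nat_lit 0xfe98a00)) e
 (c z e
 (c (b (nat_lit 0xf513401)) e
 (c z e
 (c z e
 (c z e
 (c (b (nat_lit 0x106c3401)) e
 (c (b (nat_lit 0x10a1ec02)) e
 (c (b (nat_lit 0x10de4c03)) e
 (c (b (nat_lit 0x10ed9e03)) e
 (c (b (nat_lit 0x10b0ee03)) e
 (c z e
 (c z e
 (c (b (nat_lit 0x1061ce06)) e
 (c (b (nat_lit 0x10d24807)) e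
 (c (b (nat_lit 0xfe1f207)) e
 (c (b (nat_lit 0xfcc4007)) e
 (c (b (nat_lit 0xfe61207)) e
 (c z e
 (c z e
 (c (b (nat_lit 0xfff960f)) e
 (c z e
 (c (b (nat_lit 0x1077220f)) e
 (c (b (nat_lit 0x1054400f)) e
 (c (b (nat_lit 0xff7b80f)) e e))))))))))))))))))))))))))))
 (c (a (nat_lit 0x101eb800))
 (c (b (nat_lit 0xfd19200)) e
 (c (b (nat_lit 0xfe2c200)) e
 (c (b (nat_lit 0xfe17800)) e
 (c (b (nat_lit 0xfde9801)) e
 (c z e
 (c (b (nat_lit 0xfe20a01)) e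
 (c (b (nat_lit 0xfb82c01)) e
 (c z e
 (c (b (nat_lit 0x105e9802)) e
 (c (b (nat_lit 0x1094c203)) e
 (c (b (nat_lit 0x10e9de03)) e
 (c (b (nat_lit 0x108dd403)) e
 (c (b (nat_lit 0x10caa803)) e
 (c z e
 (c z e
 (c (b (nat_lit 0x10fffe07)) e
 (c (b (nat_lit 0x10fffa07)) e
 (c (b (nat_lit 0xffde007)) e
 (c z e
 (c (b (nat_lit 0xffede07)) e
 (c z e
 (c z e
 (c z e
 (c z e
 (c z e
 (c (b (nat_lit 0xfed000f)) e e)))))))))))))))))))))))))) tt632))) Tr.c Tr.e (nat_lit 0) C.t6 C.t7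
noncomputable def tt634 : Tr := beta% (fun (c : Nat → Tr → Tr → Tr) (e : Tr) (z : Nat) (a b d f : Nat → Nat) =>
 (c (a (nat_lit 0x101fee00))
 (c (b (nat_lit 0xfe06400)) tt633
 (c (b (nat_lit 0xfe03000)) tt631
 (c (b (nat_lit 0xfe01000)) tt630
 (c (b (nat_lit 0xfe05800)) tt629
 (c (b (nat_lit 0xfe01200)) tt628
 (c (b (nat_lit 0xfdfec00)) tt627
 (c (nat_lit 0x7f0197f0187f0187f0187f019fe3a0)
 (c z
 (c (f (nat_lit 0x109b8e07)) e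
 (c (f (nat_lit 0xf66ca07)) e
 (c (f (nat_lit 0x10d87a07)) e
 (c (f (nat_lit 0x10971007)) e
 (c z e
 (c z e
 (c (f (nat_lit 0xf8b320f)) e
 (c z e
 (c (f (nat_lit 0xfffba0f)) e e)))))))))
 (c z
 (c (f (nat_lit 0xf794607)) e
 (c (f (nat_lit 0x103cb607)) e
 (c (f (nat_lit 0x10d3440e)) e e)))
 (c z
 (c (f (nat_lit 0x1100000e)) e e)
 (c (d (nat_lit 0x101c9001)) e
 (c (nat_lit 0x7ffe5800008000080000800008000079242) e
 (c (d (nat_lit 0x103bc803))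
 (c z e
 (c (nat_lit 0x800008000080000800007fecf8000080000bc1a2) e e))
 (c (d (nat_lit 0x1047d803)) e
 (c (d (nat_lit 0x10541203)) e
 (c z e
 (c (d (nat_lit 0x1063f803)) e
 (c z e
 (c (d (nat_lit 0x103bc607)) e
 (c (d (nat_lit 0xfaf5807)) e
 (c (d (nat_lit 0xfb19007)) e
 (c (d (nat_lit 0x10075607)) e
 (c (d (nat_lit 0x10192807)) e
 (c (d (nat_lit 0x1031dc0e)) e
 (c (d (nat_lit 0x102f920f)) e
 (c (nat_lit 0x810f5810f5810f5810f58104e810f5c354f) e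
 (c z e
 (c z e
 (c (d (nat_lit 0x1054d20f)) e e)))))))))))))))))))))) tt626)))))))
 (c (a (nat_lit 0x101ff400))
 (c (b (nat_lit 0xfe03600)) tt625
 (c (b (nat_lit 0xfe00c00)) tt624
 (c (b (nat_lit 0xfe02c00)) tt623
 (c (b (nat_lit 0xfe01a00))
 (c (d (nat_lit 0x101f5800))
 (c z e
 (c z e
 (c z e
 (c z e
 (c z e
 (c z e
 (c z e
 (c z e
 (c z e
 (c z e
 (c (nat_lit 0x7ff798000080000800008000080000800002aa8e) e e)))))))))))
 (c (d (nat_lit 0x101f8c00)) e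
 (c (d (nat_lit 0x101eea01)) e
 (c (d (nat_lit 0x101fdc01)) e
 (c (d (nat_lit 0x101fc601)) e
 (c (d (nat_lit 0x101fa801)) e
 (c z e
 (c (d (nat_lit 0x100f6002)) e
 (c (nat_lit 0x807c4807c4807c1807c4807c4807c4b0b03) e
 (c (d (nat_lit 0x10043e03)) e
 (c z e
 (c (d (nat_lit 0x106dc403)) e
 (c (d (nat_lit 0x1042d003)) e
 (c (d (nat_lit 0x100a8c06)) e
 (c (d (nat_lit 0xfd36207)) e
 (c z e
 (c z e
 (c z e
 (c z e
 (c z e
 (c z e
 (c z e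
 (c (d (nat_lit 0xffe9e13)) e e))))))))))))))))))))))) tt622))))
 (c (a (nat_lit 0x10200000))
 (c (b (nat_lit 0xfe00600)) tt621
 (c (b (nat_lit 0xfe01c00))
 (c (d (nat_lit 0x101f6400))
 (c (f (nat_lit 0xfcd4603)) e
 (c z e
 (c z e
 (c z e
 (c z e
 (c z e
 (c z e
 (c z e
 (c z e
 (c (f (nat_lit 0xffada07)) e
 (c (f (nat_lit 0x105a4c07)) e
 (c z e
 (c z e
 (c z e
 (c z e
 (c (f (nat_lit 0xff97819)) e e))))))))))))))))
 (c (d (nat_lit 0x101f9400)) e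
 (c (d (nat_lit 0x101fc000))
 (c z e
 (c z e
 (c z e
 (c z e
 (c z e
 (c (f (nat_lit 0xffc2407)) e e))))))
 (c (nat_lit 0x8100280ff680ff680ff680ff680ff60f581) e
 (c (nat_lit 0x80fef80fef80fed80fed80fed80fed895c1) e
 (c (d (nat_lit 0x101fd801)) e
 (c z e
 (c z
 (c z e
 (c (f (nat_lit 0x10471a19)) e e))
 (c z e
 (c (d (nat_lit 0x10133c03)) e
 (c z e
 (c z e
 (c (nat_lit 0x7ff358000080000800008000080000b5543) e
 (c z e
 (c z e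
 (c (d (nat_lit 0x100e5007)) e
 (c z e
 (c (d (nat_lit 0x10048007)) e e)))))))))))))))))) tt620))
 (c (a (nat_lit 0x101fee00))
 (c (b (nat_lit 0xfe02e00)) tt619 tt618)
 (c (a (nat_lit 0x101ff800)) tt617
 (c (a (nat_lit 0x10200000)) tt616
 (c (a (nat_lit 0x101ffa00)) tt615
 (c (a (nat_lit 0x10200000)) tt614
 (c (a (nat_lit 0x10200000))
 (c (b (nat_lit 0xff06200))
 (c (nat_lit 0x7a59f7a59f7a5547a58d7a59f7a59f6d607) e
 (c z e
 (c z e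
 (c z e
 (c z e
 (c z e
 (c (d (nat_lit 0x109b5c0a)) e
 (c (nat_lit 0x82dbb82dbb82d9482dbb82dbb82dbb29f60) e
 (c (d (nat_lit 0x104db020)) e e)))))))))
 (c (b (nat_lit 0xfdfb601))
 (c z e
 (c (nat_lit 0x7a5827a5827a1f67a5827a5827a582c6547) e
 (c (nat_lit 0x828568285682856828568285682841218c9) e
 (c z e
 (c (d (nat_lit 0x10a5de0a)) e
 (c z e
 (c (nat_lit 0x800008000087a8587a8587a8587a8579020) e e)))))))
 (c (b (nat_lit 0xfdffa01))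
 (c (nat_lit 0x8000080000800007fe1d800008000033109) e
 (c z e
 (c (d (nat_lit 0x103ea00a)) e
 (c (d (nat_lit 0x10667811)) e
 (c (d (nat_lit 0x104b7212)) e e)))))
 (c (nat_lit 0x7f00f7f00f7f00f7f00b7f00d37be1)
 (c (d (nat_lit 0x104fe40a)) e
 (c (d (nat_lit 0x103f1211)) e
 (c (d (nat_lit 0x104c8411)) e e)))
 (c z
 (c (d (nat_lit 0x10409e11)) e e)
 (c (b (nat_lit 0xfa2ca01)) e
 (c (nat_lit 0x7f9687f9797f9797f9797f979d44e2) e
 (c (b (nat_lit 0xfdda003)) e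
 (c (nat_lit 0x7b98d7b7297b7297b9227b98d9b963) e
 (c z e
 (c z e
 (c (nat_lit 0x7d9077d9227d9227d9227d92236fc3) e
 (c (nat_lit 0x7d5b57d57b7d59f7d5b57d5b53d846) e
 (c (nat_lit 0x7d5977d5977d58a7d5977d597f4867) e
 (c (b (nat_lit 0xff97607)) e
 (c (b (nat_lit 0x100cf007)) e
 (c z e
 (c (b (nat_lit 0xfe3c207)) e
 (c (b (nat_lit 0xffe2609)) e
 (c (nat_lit 0x7f8b87f97f7f97f7f97f7f97f831a9) e
 (c (nat_lit 0x7ffaf7ffc67ffe48000080000932ca) e e))))))))))))))))))))) tt613)))))))))) Tr.c Tr.e (nat_lit 0) C.t4 C.t5 C.t6 C.t7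
noncomputable def tt635 : Tr := beta% (fun (c : Nat → Tr → Tr → Tr) (e : Tr) (z : Nat) (a b d : Nat → Nat) =>
 (c (a (nat_lit 0xfe00000))
 (c (nat_lit 0x80ffe80fff80ffe80fff0c610)
 (c (nat_lit 0x7f4767f47c7f47c7f4937f49368f04) e
 (c (nat_lit 0x7f47f7f47f7f47f7f47e7f47ea8f85) e
 (c (nat_lit 0x7f4447f4447f4447f4277f434851e5) e
 (c (d (nat_lit 0xfdd6405)) e
 (c z e
 (c (d (nat_lit 0xf43e005)) e
 (c (d (nat_lit 0xfd65e06)) e
 (c (nat_lit 0x8000080000800008035b8039d010c6) e e))))))))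
 (c (nat_lit 0x81003810008100081000e5951)
 (c (nat_lit 0x7f4db7f4b47f4b47f4db7f4ad61285) e
 (c (d (nat_lit 0xfdf4805)) e
 (c (nat_lit 0x7ec237ec237ebd47ebd47ec2394ea5) e
 (c (d (nat_lit 0xfd34e05)) e
 (c (nat_lit 0x7ffea7ffea80000800008000014d06) e
 (c (nat_lit 0x80000800007e28b7e28b7e28bf7ff0) e e))))))
 (c (b (nat_lit 0x101ffa01))
 (c (d (nat_lit 0x1037f805)) e e)
 (c (b (nat_lit 0xff17801)) e
 (c (b (nat_lit 0xfc04401)) e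
 (c (nat_lit 0x7fe297fe2d7fe3d7fe3cd6911) e
 (c (nat_lit 0x7fe387fe337fe397fe3755042) e
 (c (nat_lit 0x80e1980e1980e1880e1af41a3) e
 (c (b (nat_lit 0x10044c03)) e
 (c (b (nat_lit 0x100d5003)) e
 (c (b (nat_lit 0x10059a03)) e
 (c (nat_lit 0x80b5080b5080b4f80b4e43d13) e
 (c (nat_lit 0x8036480360803658036577a54) e
 (c (nat_lit 0x807f4807f5807f5807f51b8b4) e
 (c (nat_lit 0x807f6807f6807f6807f74ae14) e
 (c (nat_lit 0x8042b8042d8042e8042fe7004) e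
 (c (nat_lit 0x8042880428804298042cb9e94) e
 (c (nat_lit 0x803ff8040780407804050f424) e
 (c (nat_lit 0x803c8803c8803c8803c615585) e
 (c (nat_lit 0x803b6803b6803b5803b790635) e
 (c (nat_lit 0x803a0803a080399803990bd95) e
 (c (nat_lit 0x805c1804d5804728031c2a105) e
 (c (nat_lit 0x805e1805cc805168051605915) e
 (c (nat_lit 0x80308803238032c8032f3e526) e
 (c (nat_lit 0x800008000080000800054dde6) e e)))))))))))))))))))))))))
 (c (a (nat_lit 0xfdffe00))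
 (c (nat_lit 0x81007810078100481004dd131)
 (c (d (nat_lit 0xfea0805)) e
 (c (d (nat_lit 0xfe2f005)) e
 (c (d (nat_lit 0xfce4a05)) e
 (c (nat_lit 0x7e11d7e11d7e11d7e11d7e0d1326e5) e
 (c z e
 (c (nat_lit 0x8000080000800007fb747fb748a490) e e))))))
 (c (nat_lit 0x8051c8051c8051c8051b6d911) e
 (c z e
 (c (nat_lit 0x7fe317fe307fe307fe30f4c31) e
 (c (nat_lit 0x7feab7fea97fea97fd989c5b2) e
 (c (nat_lit 0x7feb97feb97feb67feb9f4853) e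
 (c (nat_lit 0x814a8814a7814a7814a823eb3) e
 (c (b (nat_lit 0x1007e403)) e
 (c (nat_lit 0x803b7803b7803b7803b8732b3) e
 (c (nat_lit 0x80a6980a6b80a6b80a6c06073) e
 (c (nat_lit 0x8027d8027e8027f8027e09454) e
 (c (nat_lit 0x807708077180771807727d6d4) e
 (c (nat_lit 0x807a5807a6807a5807a6dac94) e
 (c (nat_lit 0x8040d8040c8040d8040da2a34) e
 (c (nat_lit 0x804228041e804188041d80974) e
 (c (nat_lit 0x8042f80427804178040e21da4) e
 (c (nat_lit 0x804288042680417803fd18f84) e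
 (c (nat_lit 0x80411804108040e803f63da25) e
 (c (nat_lit 0x8041080411804118040c56eb5) e
 (c (nat_lit 0x80405804068040680406c2745) e
 (c (nat_lit 0x803dd803dc803a2803a253b55) e
 (c (nat_lit 0x8024680583803dd803e384b55) e
 (c (nat_lit 0x80000800008000080366dd0f5) e e)))))))))))))))))))))))
 (c (a (nat_lit 0xfdffc00))
 (c (b (nat_lit 0x100b0801)) e
 (c (nat_lit 0x808b2808ae808b3808b404251) e
 (c (nat_lit 0x7fe297fe257fe277fe2ca0012) e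
 (c (nat_lit 0x7fbe57fbe67fbd47fbdec4523) e
 (c (b (nat_lit 0x10217403)) e
 (c (b (nat_lit 0x10043003)) e
 (c (b (nat_lit 0x1009c403)) e
 (c (nat_lit 0x8126c812758127581275afd33) e
 (c (nat_lit 0x80ad280ad180ad280ad36d9f4) e
 (c (b (nat_lit 0x10331e04)) e
 (c (nat_lit 0x817bf817be817be817bde3d54) e
 (c (nat_lit 0x8036e803698036880369c73a4) e
 (c (nat_lit 0x803878039180396803977f114) e
 (c (nat_lit 0x803c2803ae803b1803b8ccf14) e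
 (c (nat_lit 0x804f880749803d6803db651f4) e
 (c (nat_lit 0x7ffea805198076c803ed76e24) e
 (c (nat_lit 0x80000800008053680798d3a84) e
 (c (nat_lit 0x800008000080000804e4ad344) e
 (c z e
 (c z e
 (c (nat_lit 0x800008000080000806a79df05) e e)))))))))))))))))))))
 (c (a (nat_lit 0xfe00000))
 (c (nat_lit 0x808ca808c9808ca808ca4bb12) e
 (c (nat_lit 0x7ff467ff467ff447ff41b6f83) e
 (c (b (nat_lit 0x1007dc03)) e
 (c (nat_lit 0x811b1811af811af811afefca3) e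
 (c (b (nat_lit 0x100ac603)) e
 (c (nat_lit 0x80ec680ec980ebd80ec9d57f3) e
 (c (nat_lit 0x8055b8055a8055a8055a22a14) e
 (c (nat_lit 0x81dc781dc781dc781dc6738a4) e
 (c (nat_lit 0x81e7281e7181e7081e70ebd54) e
 (c (nat_lit 0x803a8803a8803a7803a94b524) e
 (c (nat_lit 0x8032680325803248032315114) e
 (c (nat_lit 0x803248032480321803210b124) e
 (c (nat_lit 0x80320803208031c8030d86fd4) e
 (c (nat_lit 0x80325803218031f8031214e24) e
 (c (nat_lit 0x801ac803298031d8031868524) e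
 (c (nat_lit 0x80000800008032380320d7d44) e
 (c (nat_lit 0x80000800008000080010d8c34) e
 (c z e
 (c z e
 (c z e
 (c (nat_lit 0x8000080000800007fff7c1cf5) e e)))))))))))))))))))))
 (c (a (nat_lit 0xfe00000))
 (c (nat_lit 0x80b7280b7280b7280b7399403) e
 (c (nat_lit 0x80a5d80a5c80a5c80a5c2a8e3) e
 (c (b (nat_lit 0x100e8603)) e
 (c (nat_lit 0x82e6d82e6e82e6e82e6e891d3) e
 (c (nat_lit 0x80bbf80bbe80bbe80bbe9cd84) e
 (c (b (nat_lit 0x1066fe04)) e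
 (c (nat_lit 0x8158f81590815908159251574) e
 (c (nat_lit 0x811e5811e6811e7811e7a41d4) e
 (c (nat_lit 0x80d5d80d5c80d5c80d5ba8fd4) e
 (c (nat_lit 0x80d6180d6480d6480d65be9c4) e
 (c (nat_lit 0x80d7380d6e80d7180d727c9e4) e
 (c (nat_lit 0x80db980dbe80d7080d74afab4) e
 (c (nat_lit 0x80dbb80dba80dbe80d7708fa4) e
 (c (nat_lit 0x80db080dc280dc480dc317204) e
 (c (nat_lit 0x800008000080dc580dc6ad1f4) e
 (c (nat_lit 0x80000800008000080b6c26354) e e))))))))))))))))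
 (c (a (nat_lit 0xfdffe00))
 (c (b (nat_lit 0x101f7003)) e
 (c (nat_lit 0x81aa381aa481aa481aa46a7e3) e
 (c (nat_lit 0x82198821978219682196ba9a4) e
 (c (b (nat_lit 0x10413804)) e
 (c (b (nat_lit 0x1023d804)) e
 (c (nat_lit 0x80ff180ff180ff180ff2acdb4) e
 (c (nat_lit 0x810048100581005810068e5b4) e
 (c (nat_lit 0x810118100f8100d8100df4644) e
 (c (nat_lit 0x81024810208101b8101d82e54) e
 (c (nat_lit 0x8102e8102d81026810176da54) e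
 (c (nat_lit 0x810c28102c810268101b14444) e
 (c (nat_lit 0x81940810d18102a810238fac4) e
 (c (nat_lit 0x80be881a2a810cd8101a455f4) e
 (c (nat_lit 0x800008000081a28810bfd4de4) e
 (c (nat_lit 0x80000800008000081a19b1b24) e e)))))))))))))))
 (c (a (nat_lit 0xfdffe00))
 (c (nat_lit 0x858f1858f5858f5858f165c64) e
 (c (nat_lit 0x81eb081eaf81eaf81eae7df34) e
 (c (nat_lit 0x8126e8126e8126d8126d3f854) e
 (c (b (nat_lit 0x10207204)) e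
 (c (nat_lit 0x8103d8103b8103a8103adb1a4) e
 (c (nat_lit 0x8104b8104a81048810492f094) e
 (c (nat_lit 0x8104781048810478104236574) e
 (c (nat_lit 0x81039810388103781035d16b4) e
 (c (nat_lit 0x81046810458103781033667c4) e
 (c (nat_lit 0x81035810348103081024b03c4) e
 (c (nat_lit 0x81745810258102581028dd5c4) e
 (c (nat_lit 0x80032818c68100e8100f5eff4) e
 (c (nat_lit 0x8000080000818ab80fde30d34) e
 (c (nat_lit 0x800008000080000818aa9bf54) e e))))))))))))))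
 (c (nat_lit 0x7f0007f0007efff183f8) e
 (c (a (nat_lit 0xfdffe00)) e
 (c (a (nat_lit 0xfdffe00)) e
 (c (a (nat_lit 0xfdffe00)) e
 (c (a (nat_lit 0xfdffe00)) e
 (c (nat_lit 0x7effe7efff7efffceac8) e
 (c (nat_lit 0x7effe7effe7efffb7170) e
 (c (a (nat_lit 0xfdffc00)) e
 (c (nat_lit 0x7effe7efff7efffb9b88) e
 (c (nat_lit 0x7effe7effe7efffc0bd8) e
 (c (nat_lit 0x7f0007effe7effefd6b8) e
 (c (nat_lit 0x7f0027f0007f000b5271) e
 (c (nat_lit 0x7f0037f0037f000a9ea1) e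
 (c (nat_lit 0x7f0177f0187f01781d61) e
 (c (nat_lit 0x7efee7efee7efef30401) e
 (c (nat_lit 0x7f0017f0037f00409121) e
 (c (nat_lit 0x7f5427f5427f5436c1d2) e
 (c (a (nat_lit 0xff4be03)) e
 (c (nat_lit 0x7fa607fa607fa619e74b) e
 (c (nat_lit 0x806128061280613b3913) e
 (c (nat_lit 0x8022a8022a80229b1603) e
 (c (a (nat_lit 0xfcb3403)) e e)))))))))))))))))))))))))))))) Tr.c Tr.e (nat_lit 0) C.t3 C.t4 C.t5
noncomputable def tt636 : Tr := beta% (fun (c : Nat → Tr → Tr → Tr) (e : Tr) (z : Nat) (a b : Nat → Nat) =>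
 (c (nat_lit 0x80fff80ffe80ffe80ffeaa060)
 (c (nat_lit 0x80000800007ffd67ffc980000f7344) e
 (c (nat_lit 0x7f4707f4707f4707f46e7f46f4c944) e
 (c (nat_lit 0x7f4877f4877f4877f45c7f486e3cc4) e
 (c (nat_lit 0x7f3bb7f3bb7f3bb7f3bb7f39891345) e
 (c (b (nat_lit 0xfea5405)) e
 (c (b (nat_lit 0xff3a005)) e
 (c (b (nat_lit 0x100e3805)) e
 (c (b (nat_lit 0xfb02405)) e e))))))))
 (c (a (nat_lit 0x101ffe00))
 (c (nat_lit 0x7f4947f4947f4947f48c7f4941ff24) e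
 (c (nat_lit 0x7f4837f4837f4837f4837f47db2bc5) e
 (c (nat_lit 0x7f3fe7f3fe7f3fe7f3fb7f3fb82605) e
 (c (b (nat_lit 0xfe63e05)) e
 (c z e
 (c (nat_lit 0x7ffe57ffe57ffe57ffe57fed72bc25) e
 (c (b (nat_lit 0xfe0c006)) e
 (c z e
 (c (nat_lit 0x8000080000800008014780147ed1ca) e e)))))))))
 (c (nat_lit 0x81001810018100080fff423d0)
 (c (b (nat_lit 0xfe8aa05)) e
 (c (b (nat_lit 0xfeefe05)) e
 (c (b (nat_lit 0xfe2b605)) e
 (c z e
 (c z e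
 (c (b (nat_lit 0xfbb2a09)) e e))))))
 (c (nat_lit 0x810028100181001810017e871)
 (c z e
 (c (nat_lit 0x7f52e7f4a87f4a87f52e7f52ee8945) e
 (c (nat_lit 0x7fd037fd037fcd77fcd77fd03463c6) e e)))
 (c (a (nat_lit 0x101ff401)) e
 (c (nat_lit 0x7f8807f8807f8807f88126561) e
 (c (nat_lit 0x7ce1a7ce1a7ce1a7ce1927231) e
 (c (nat_lit 0x7faef7faec7fb037fb03f0a31) e
 (c (nat_lit 0x80adf80ad680ad280ae080f12) e
 (c (nat_lit 0x80ad980ada80ad680ad9f4573) e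
 (c (nat_lit 0x8025080250802508023625833) e
 (c (a (nat_lit 0x10134a03)) e
 (c (a (nat_lit 0x100aa003)) e
 (c (nat_lit 0x80e7180e7080e7080e70355c3) e
 (c (a (nat_lit 0x100cf804)) e
 (c (nat_lit 0x807c6807c7807c6807c6137c4) e
 (c (nat_lit 0x807d5807d7807d5807d000564) e
 (c (nat_lit 0x8044d8044f804458044e86c44) e
 (c (nat_lit 0x80468804658045c8043b2fd54) e
 (c (nat_lit 0x80438804388042c8042424ff5) e
 (c (nat_lit 0x8043a8043b8043680422550d5) e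
 (c (nat_lit 0x80441804418041d8041b81db5) e
 (c (nat_lit 0x8054580554805528055112225) e
 (c (nat_lit 0x803ce8035680356803569da15) e
 (c (nat_lit 0x8050780508804f48050736686) e
 (c (nat_lit 0x8000080000800007fff85f566) e e))))))))))))))))))))))))))) Tr.c Tr.e (nat_lit 0) C.t4 C.t5
noncomputable def tt637 : Tr := beta% (fun (c : Nat → Tr → Tr → Tr) (e : Tr) (z : Nat) (a b : Nat → Nat) =>
 (c (a (nat_lit 0x101ffc00))
 (c (b (nat_lit 0xfd83603)) e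
 (c (nat_lit 0x7f0f67f0ec7f0e97f0f67f0f6f1ee4) e
 (c (nat_lit 0x7ef7a7ef797ef867ef867ef8603324) e
 (c (nat_lit 0x7dc157dc317dc387dc4a7dc4acfc84) e
 (c (nat_lit 0x7d7597d7597d7427d7597d759ec884) e
 (c (b (nat_lit 0xef76e05)) e
 (c (nat_lit 0x7d2957d2957d2857d2957d2959e025) e
 (c (b (nat_lit 0xfa10005)) e
 (c (b (nat_lit 0xfb7fa05)) e
 (c (nat_lit 0x787937e7c97e7c97e7c97e7c9325a5) e
 (c (nat_lit 0x7eaba7eab77eaba7eaba7eaba82f26) e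
 (c (nat_lit 0x80000800008000080b6380b7716526) e e))))))))))))
 (c (a (nat_lit 0x101ffa00))
 (c (nat_lit 0x7fd3b7fd3b7fd2d7fd257fd3b4e384) e
 (c (nat_lit 0x7eac27eac67eac67eace7eace974c4) e
 (c (nat_lit 0x7e8847e8847e8767e86c7e88032704) e
 (c (nat_lit 0x7e7a07e7a07e79c7e7937e7a051ce5) e
 (c (nat_lit 0x7e9877e9877e9537e94a7e93fd7da5) e
 (c (nat_lit 0x7e6e67e6e67e6ad7e6ad7e6e69adc5) e
 (c (nat_lit 0x8000080000800007ffd37ffd314345) e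
 (c (nat_lit 0x7ffd780000800008000080000673c5) e
 (c (nat_lit 0x7e9b37e9b37e9b77e9b77e9b7b06e6) e
 (c (nat_lit 0x7f6787f66e7f65f7f6787f67859c8a) e
 (c (nat_lit 0x8000080000800007fff080000959aa) e e)))))))))))
 (c (nat_lit 0x81000810018100181001c44b0)
 (c (nat_lit 0x7e8a47e8b27e8cf7e8d17e8d123b84) e
 (c (nat_lit 0x7e8a37e8907e8907e8a37e8a338ce5) e
 (c (nat_lit 0x7e7bd7e7b67e7ad7e7bd7e7bd7abc5) e
 (c (nat_lit 0x8000080000800007fe2780000a74c5) e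
 (c (nat_lit 0x7efb17efb17efb17ef697ef69fc945) e
 (c (nat_lit 0x7fff17fff17fff17fff17ffc75e525) e
 (c (b (nat_lit 0xfc7a206)) e
 (c (nat_lit 0x7e8107e8107e8e17e8e17e8e1fe7c9) e
 (c (b (nat_lit 0xfeeda0a)) e e)))))))))
 (c (a (nat_lit 0x10200000))
 (c (b (nat_lit 0xfd0d005)) e
 (c (b (nat_lit 0xfd5e205)) e
 (c z e
 (c (b (nat_lit 0xfd0a605)) e
 (c z e
 (c z e
 (c (b (nat_lit 0xfe8ae09)) e e)))))))
 (c (nat_lit 0x81000810018100181001f5170)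
 (c (b (nat_lit 0xff85605)) e
 (c z e
 (c (nat_lit 0x7dddf7db8f7db8f7dddf7dddf7f946) e e)))
 (c (a (nat_lit 0x101ffc01))
 (c (nat_lit 0x7d66d7d2257d2257d66d7d66ddb1e6) e
 (c (nat_lit 0x80000800007d9d77da1d7da1d2e530) e e))
 (c (nat_lit 0x80ffa80ffa80ffb80ffb29331)
 (c (nat_lit 0x8000080000800007fecd8000001cc8) e e)
 (c (a (nat_lit 0xfec0801)) e
 (c (nat_lit 0x7e4337e4337e4327e433c65f1) e
 (c (a (nat_lit 0x102a9e01)) e
 (c (nat_lit 0x8155c8155a815568155b25562) e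
 (c (nat_lit 0x81557815578155781554a00c3) e
 (c (nat_lit 0x7fca57fca47fca47fca480553) e
 (c (a (nat_lit 0xffe2e03)) e
 (c (a (nat_lit 0xff88403)) e
 (c (nat_lit 0x810368103981041810417e7e3) e
 (c (nat_lit 0x808418083b808418084124314) e
 (c (nat_lit 0x80fd980fda80fdc80fdc76834) e
 (c (nat_lit 0x80f9f80fb880fbd80fbfa8914) e
 (c (nat_lit 0x80f8d80f9980fa680faca7fa4) e
 (c (nat_lit 0x80fa880fa880fa880fab52c85) e
 (c (nat_lit 0x80fa980fa880fa780fa8b9d15) e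
 (c (nat_lit 0x80f9180f9180f8b80f9192625) e
 (c (nat_lit 0x80a8280a7e80a7d80a7df4a45) e
 (c (nat_lit 0x80a6380a6380a6680a66cdef5) e
 (c (nat_lit 0x8051e8052380541805239ff36) e
 (c (nat_lit 0x80000800008000080046e73a6) e
 (c z e
 (c z e
 (c z e
 (c (nat_lit 0x80000800008000080cf3df037) e e)))))))))))))))))))))))))))))))) Tr.c Tr.e (nat_lit 0) C.t4 C.t5
noncomputable def tt638 : Tr := beta% (fun (c : Nat → Tr → Tr → Tr) (e : Tr) (z : Nat) (a b : Nat → Nat) =>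
 (c (a (nat_lit 0x100f9000))
 (c (b (nat_lit 0x102b1a03)) e
 (c z e
 (c z e
 (c (nat_lit 0x80f2480f3280f3280f3280f325aaa3) e
 (c (nat_lit 0x7f7087f7057f70d7f70d7f70df4104) e
 (c (nat_lit 0x7f51e7f5287f5397f5397f539bcce4) e
 (c (nat_lit 0x7e5437e53e7e5527e5557e555bf084) e
 (c (nat_lit 0x7dc257dc057dc1b7dc257dc25a3825) e
 (c (b (nat_lit 0xf9ce405)) e
 (c z e
 (c (nat_lit 0x7ffcf80000800008000080000b5325) e
 (c (nat_lit 0x7e5107e5a87e5a87e5a87e5a8adc85) e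
 (c (nat_lit 0x7f0157f0117f01b7f01b7f01bc32e6) e e)))))))))))))
 (c (a (nat_lit 0x10200400))
 (c z e
 (c z e
 (c z e
 (c (nat_lit 0x7ef297ef1c7ef207ef297ef291b904) e
 (c (nat_lit 0x7d6d57d6d57d6c17d6d57d6d587e04) e
 (c (b (nat_lit 0xf721805)) e
 (c (b (nat_lit 0xf56c405)) e
 (c z e
 (c z e
 (c z e
 (c (nat_lit 0x7fff780000800008000080000590e6) e
 (c (nat_lit 0x7eb397eb367eb397eb397eb398ed4a) e e))))))))))))
 (c (a (nat_lit 0x10200400))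
 (c (b (nat_lit 0xff91004)) e
 (c (nat_lit 0x7fb8b7fb897fb8b7fb8b7fb8b35904) e
 (c (nat_lit 0x7e9967e98e7e9767e97d7e996d4ac4) e
 (c (nat_lit 0x7e49e7e49e7e49a7e4967e49e6c305) e
 (c (nat_lit 0x7ea2b7ea2b7e9dc7e9c07e9ec3ab45) e
 (c (b (nat_lit 0xfc27205)) e
 (c z e
 (c (nat_lit 0x7ff7580000800008000080000a7b85) e
 (c (nat_lit 0x7ed8f7ede07ede07ede07ede010266) e
 (c (b (nat_lit 0xfb58609)) e
 (c (nat_lit 0x7f0b27f0b27f0b07f0b27f0b2989aa) e e)))))))))))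
 (c (nat_lit 0x80ffb80ffc80ffd80ffc15e90)
 (c (nat_lit 0x7ea4b7ea4d7ea627ea657ea65d6264) e
 (c (nat_lit 0x7e9357e9357e9337e9357e935639e5) e
 (c (b (nat_lit 0xfd08005)) e
 (c (b (nat_lit 0xff8ee05)) e
 (c (nat_lit 0x8000080000800007fef37fef31b865) e
 (c (b (nat_lit 0xfd2a405)) e e))))))
 (c (nat_lit 0x8100081000810008100159dc0)
 (c (b (nat_lit 0xfd1e605)) e
 (c (b (nat_lit 0xfd5dc05)) e
 (c (nat_lit 0x8000080000800007ffc17fcff21065) e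
 (c (b (nat_lit 0xfe19c05)) e
 (c (b (nat_lit 0x10705206)) e e)))))
 (c (nat_lit 0x810018100281001810010c720)
 (c (b (nat_lit 0xfaf5205)) e
 (c (nat_lit 0x7df2c7df2c7df477df477df47a9f65) e
 (c (nat_lit 0x7d5187d50a7d50a7d5187d51811846) e
 (c (nat_lit 0x7d3297d3297d2bd7d3297d329fdfb0) e e))))
 (c (a (nat_lit 0x101ffe00))
 (c (nat_lit 0x7e9eb7e9eb7ea477ea477ea4789866) e
 (c (b (nat_lit 0xfbc1410)) e e))
 (c (nat_lit 0x80fff810008100081000a8711) e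
 (c (a (nat_lit 0x101ffa01)) e
 (c (a (nat_lit 0xfd39001)) e
 (c (a (nat_lit 0xff16801)) e
 (c (a (nat_lit 0x10259201)) e
 (c (nat_lit 0x8148481485814868148664ff2) e
 (c (a (nat_lit 0x10290203)) e
 (c (nat_lit 0x800c9800c9800c9800cabca43) e
 (c (nat_lit 0x8035780356803578035709823) e
 (c (nat_lit 0x804858048580486804863d683) e
 (c (nat_lit 0x8105d8105e810548105eb9243) e
 (c (nat_lit 0x80a5c80a6080a6280a5ecc724) e
 (c (nat_lit 0x80f5980f6580f6880f6a87404) e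
 (c (nat_lit 0x80f3680f3d80f4380f47cf414) e
 (c (nat_lit 0x80f2580f2680f2780f2b48505) e
 (c (nat_lit 0x80f1180f1280f1280f1218df5) e
 (c (nat_lit 0x80f0680f0780f0880f098fe95) e
 (c (nat_lit 0x7fad2807b6807b2807b224345) e
 (c (nat_lit 0x7fee97fee9800a9800a852d05) e
 (c (nat_lit 0x8052d8052d8053080532fc326) e e)))))))))))))))))))))))))))) Tr.c Tr.e (nat_lit 0) C.t4 C.t5
noncomputable def tt639 : Tr := beta% (fun (c : Nat → Tr → Tr → Tr) (e : Tr) (z : Nat) (a b d : Nat → Nat) =>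
 (c (a (nat_lit 0x1012fa00))
 (c (b (nat_lit 0xfa7f601))
 (c z e
 (c z e
 (c (d (nat_lit 0xfd40021)) e e)))
 (c (b (nat_lit 0xfd43202)) e
 (c (b (nat_lit 0xfeeb603)) e
 (c z e
 (c z e
 (c z e
 (c (b (nat_lit 0x101b9c03)) e
 (c (b (nat_lit 0x1003b804)) e
 (c (nat_lit 0x806ff806e9807238073f8073fcb784) e
 (c (nat_lit 0x7e4b27e4b27e4387e45d7e4b2f05e5) e
 (c (b (nat_lit 0xfb0d005)) e
 (c z e
 (c z e
 (c (b (nat_lit 0xfd98205)) e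
 (c (nat_lit 0x7ef967efa67efa77efa77efa7e77e6) e e)))))))))))))))
 (c (nat_lit 0x8100081001810018100152bd0)
 (c (b (nat_lit 0xfcec003)) e
 (c z e
 (c z e
 (c z e
 (c (nat_lit 0x7ffca7ffcc7ffd27ffeb7ffebf53e3) e
 (c (nat_lit 0x8079880770807988079880798cc544) e
 (c (nat_lit 0x7f1ef7f1da7f1f37f1f37f1f3fcfe4) e
 (c (nat_lit 0x7e59c7e5017e5017e59c7e59c292e5) e
 (c (nat_lit 0x7f23d7f23d7eea77eea77f23d617c5) e
 (c (b (nat_lit 0xf99ce05)) e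
 (c z e
 (c z e
 (c (nat_lit 0x7dc357dc2c7dc357dc357dc35fc7c6) e
 (c (b (nat_lit 0xfbde00a)) e
 (c (nat_lit 0x8000080000800007f2c87f2cb69647) e
 (c (nat_lit 0x8000080000800007f39e7f39ef28e7) e e))))))))))))))))
 (c (a (nat_lit 0x10200200))
 (c z e
 (c z e
 (c z e
 (c (b (nat_lit 0xfff2804)) e
 (c (nat_lit 0x7ed9a7ed7f7ed9a7ed9a7ed9a32684) e
 (c (b (nat_lit 0xf6ba805)) e
 (c z e
 (c z e
 (c z e
 (c z e
 (c z e
 (c z e
 (c (nat_lit 0x7e9d87e9d87e9d07e9d87e9d8916ca) e e)))))))))))))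
 (c (a (nat_lit 0x10200000))
 (c z e
 (c (b (nat_lit 0xff79404)) e
 (c (nat_lit 0x7f3d27f3c17f3c07f3d27f3d25b2a4) e
 (c (nat_lit 0x7e4fe7e4fe7e4e77e4f97e4fecde85) e
 (c z e
 (c (b (nat_lit 0xfd32005)) e
 (c z e
 (c z e
 (c (nat_lit 0x800007ffa67ffa680000800004b246) e e)))))))))
 (c (a (nat_lit 0x10200000))
 (c (nat_lit 0x7fa637fa5c7fa657fa6c7fa6c6f764) e
 (c (nat_lit 0x7ea007e9f77e9ed7ea007ea0010ae5) e
 (c (nat_lit 0x7e51c7e51c7e5167e51c7e51c54105) e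
 (c (nat_lit 0x80000800007fb047fb04800008fd65) e
 (c (nat_lit 0x7f5b77f5b77f5b77f5227f52215945) e
 (c z e
 (c (b (nat_lit 0xfd1f206)) e
 (c (nat_lit 0x7fa847fa847fa557fa847fa849d6a9) e e))))))))
 (c (a (nat_lit 0x10200400))
 (c (b (nat_lit 0xfd27405)) e
 (c (nat_lit 0x7e3907e3907e2817e2817e39001b65) e
 (c (nat_lit 0x8000080000800007ff227ff227b045) e
 (c (b (nat_lit 0xfeb5e05)) e
 (c z e
 (c (nat_lit 0x7eddb7eddb7eddb7ece87eddbbe2a9) e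
 (c (nat_lit 0x809de809c8809c8809c8809de2e689) e e)))))))
 (c (nat_lit 0x81004810038100381003e0300)
 (c z e
 (c (b (nat_lit 0xfff2005)) e
 (c (b (nat_lit 0xfe5d006)) e e)))
 (c (nat_lit 0x8100080fff80fff80fffffdb0)
 (c (nat_lit 0x7f22d7f2b37f2b37f2b37f2b3b7506) e
 (c (nat_lit 0x7fa6e7f9c77fa2f7fa6e7fa6ec3ac8) e e))
 (c (nat_lit 0x80ffe80fff80fff810002adf0)
 (c (nat_lit 0x816fa8169681696816fa816faafda8) e e)
 (c (nat_lit 0x80ffe80ffd80ffd80ffecc361) e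
 (c (nat_lit 0x8100080fff80fff81000981a1)
 (c (nat_lit 0x8000080000800008197981979d2a68) e e)
 (c (nat_lit 0x7f8cd7f8cc7f8cc7f8cdb54c1) e
 (c (nat_lit 0x7f8107f80f7f80f7f80f53091) e
 (c (nat_lit 0x803e9803e8803e8803e8d77e1) e
 (c (nat_lit 0x8149881497814978149756f92) e
 (c (nat_lit 0x80de780de580de580de64a853) e
 (c (a (nat_lit 0xff47403)) e
 (c (nat_lit 0x8024980249802498024846cf3) e
 (c (nat_lit 0x8040980409804098040a00303) e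
 (c (nat_lit 0x8100d8100d81005810099b813) e
 (c (nat_lit 0x80998809a9809a7809a7f74b4) e
 (c (nat_lit 0x80ed380ecd80ed480ed51d574) e
 (c (nat_lit 0x80ed880ed780ed780ed93b215) e
 (c (nat_lit 0x80ede80edf80edf80edfef895) e
 (c (nat_lit 0x80ed280ed580ed580ed19f055) e
 (c (nat_lit 0x80e3880e7080e5f80e5fa34f5) e
 (c (nat_lit 0x808eb808ea808eb808eb68615) e
 (c (nat_lit 0x8051980bcf80be6809ebe6286) e
 (c (nat_lit 0x8000080000806b3806cad4867) e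
 (c (nat_lit 0x800008000080000805e78bc27) e
 (c z e
 (c z e
 (c (nat_lit 0x80000805c9805c9805c90d437) e e)))))))))))))))))))))))))))))))))) Tr.c Tr.e (nat_lit 0) C.t4 C.t5 C.t6
noncomputable def tt640 : Tr := beta% (fun (c : Nat → Tr → Tr → Tr) (e : Tr) (z : Nat) (a b : Nat → Nat) =>
 (c (a (nat_lit 0xfdfee01))
 (c (b (nat_lit 0xfcda805)) e
 (c (b (nat_lit 0xfb77805)) e
 (c z e
 (c (b (nat_lit 0xfef4005)) e
 (c (b (nat_lit 0xfb2be06)) e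
 (c z e
 (c z e
 (c z e
 (c z e
 (c (nat_lit 0x800007ff967ff968000080000800001ff87) e
 (c (nat_lit 0x8000080000800007cf7d7cfac7cfaca18e0) e
 (c (nat_lit 0x800008000080000841c7841c7841c718960) e
 (c z e
 (c (nat_lit 0x80000800008000080000800007ed15c1d4c) e e))))))))))))))
 (c (a (nat_lit 0xfdfea01))
 (c z e
 (c (b (nat_lit 0xfd5b005)) e
 (c z e
 (c (nat_lit 0x7f4cc7f4cc7f4bd7f4bd7f4cc7f4cc86187) e
 (c z e
 (c z e
 (c z e
 (c z e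
 (c z e
 (c z e
 (c z e
 (c z e
 (c (nat_lit 0x80000800008000080000800007ffe8f23d4) e e)))))))))))))
 (c (a (nat_lit 0xfa07601))
 (c (b (nat_lit 0xfff9806)) e
 (c z e
 (c z e
 (c z e
 (c z e
 (c z e
 (c z e
 (c z e
 (c z e
 (c z e
 (c (nat_lit 0x80000800008000080000800007fdc840120) e e)))))))))))
 (c (a (nat_lit 0xfe53c01)) e
 (c (a (nat_lit 0xfd2b202))
 (c z e
 (c (nat_lit 0x7ff0e8000080000800008000080000aacc7) e e))
 (c (nat_lit 0x7ecbd7ecbd7ecba7ecb97ecbdd4d83) e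
 (c (a (nat_lit 0xfda5403)) e
 (c z e
 (c z e
 (c z e
 (c (a (nat_lit 0x10543a04)) e
 (c (a (nat_lit 0xfe5fa05)) e
 (c (nat_lit 0x7df977df977df8b7df827df82099e5) e
 (c (a (nat_lit 0xfd11605)) e
 (c (a (nat_lit 0xfed3805)) e
 (c (a (nat_lit 0xfc81605)) e
 (c (nat_lit 0x7f68f7f68f7f66d7f68f7f68fde806) e
 (c (a (nat_lit 0xfed8007)) e
 (c (nat_lit 0x7f75e7f75e7f75e7f7257f71773aa7) e
 (c (nat_lit 0x7f4eb7f4eb7f48b7f48b7f43f2a647) e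
 (c (nat_lit 0x7f7bc7f7bc7f8067f8067f806a1cc7) e
 (c (nat_lit 0x7e14a7e1267e1267e14a7e14afc7a7) e e))))))))))))))))))))))) Tr.c Tr.e (nat_lit 0) C.t5 C.t6
noncomputable def tt641 : Tr := beta% (fun (c : Nat → Tr → Tr → Tr) (e : Tr) (z : Nat) (a b : Nat → Nat) =>
 (c (nat_lit 0x810018100181001810023b000) tt640
 (c (a (nat_lit 0x10200200))
 (c (b (nat_lit 0xf6b2a01)) e
 (c z e
 (c (nat_lit 0x7f93e7f93c7f9357f93e7f93e2cd82) e
 (c (b (nat_lit 0xfdf1603)) e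
 (c z e
 (c z e
 (c z e
 (c (b (nat_lit 0x10038803)) e
 (c (nat_lit 0x821cc8234a8234a8234a8234adc6c4) e
 (c (nat_lit 0x7ea717ea6e7ea717ea717ea71db865) e
 (c (nat_lit 0x7c3ea7c1547c1547c3ea7c3ea0dbc5) e
 (c (nat_lit 0x7e18d7e18d7d8e47e18d7e18d54a85) e
 (c (b (nat_lit 0xffa4005)) e
 (c (b (nat_lit 0xfefcc05)) e
 (c (b (nat_lit 0xfc7d006)) e
 (c (b (nat_lit 0xff05e07)) e
 (c (nat_lit 0x7f86c7f86c7f86c7f8677f86c61c67) e
 (c (nat_lit 0x800008000080000800007ffa489527) e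
 (c z e
 (c (nat_lit 0x7fcb080000800008000080000e6f07) e e))))))))))))))))))))
 (c (nat_lit 0x810028100381003810032e9f0)
 (c z e
 (c (nat_lit 0x7f9327f92d7f9327f9247f9329ae43) e
 (c (b (nat_lit 0xfeb6803)) e
 (c z e
 (c z e
 (c (nat_lit 0x842b9842c6842ce842ce842ce590e3) e
 (c (nat_lit 0x8041980401804088040f80419bd044) e
 (c (nat_lit 0x807bc80790807a6807bc807bcdb645) e
 (c (b (nat_lit 0x10411e05)) e
 (c z e
 (c z e
 (c z e
 (c z e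
 (c (b (nat_lit 0xfc77a07)) e
 (c (nat_lit 0x7f8f17f8f17f8e97f8f17f8f1208c7) e e)))))))))))))))
 (c (a (nat_lit 0x101ffe00))
 (c z e
 (c z e
 (c z e
 (c z e
 (c (nat_lit 0x8076f8074d8076f8076f8076f3b084) e
 (c (nat_lit 0x7f98c7f97c7f9917f9a87f9a8ca1a5) e
 (c (nat_lit 0x8089a8089a80842808638089a6eee5) e
 (c z e
 (c z e
 (c (nat_lit 0x7ec747ec727ec747ec747ec74bdc25) e
 (c (b (nat_lit 0xfe1b606)) e
 (c (b (nat_lit 0xfe55207)) e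
 (c z e
 (c z e
 (c z e
 (c (b (nat_lit 0xfa48207)) e e))))))))))))))))
 (c (a (nat_lit 0x10200400))
 (c z e
 (c (nat_lit 0x7fe5e7fe5e7fe5e7fe5e7fe52627a3) e
 (c (nat_lit 0x7fba67fba67fba57fba67fba63d564) e
 (c (nat_lit 0x7f0ff7f0de7f0db7f0ff7f0fffdea5) e
 (c z e
 (c (nat_lit 0x7effb7effb7effb7efc97efc9987c5) e
 (c z e
 (c (b (nat_lit 0xfef6805)) e
 (c (b (nat_lit 0xfe2be06)) e
 (c (b (nat_lit 0xfed1407)) e
 (c z e
 (c z e
 (c (nat_lit 0x7fcda7fcf97fcf97fcf97fcea339c7) e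
 (c (nat_lit 0x7eee47eeb77eecb7eee47eee45bb47) e e))))))))))))))
 (c (nat_lit 0x80fff80ffe80ffe80ffe05e50)
 (c (nat_lit 0x7fa6d7fa6d7fa807fa807fa80e2ba4) e
 (c (nat_lit 0x7fa637fa627fa637fa637fa63132a5) e
 (c (nat_lit 0x7e5747e5747e4e77e4f27e5749af25) e
 (c z e
 (c (nat_lit 0x7f48e7f5487f5487f5487f5486a5c5) e
 (c (b (nat_lit 0xf86d405)) e
 (c (b (nat_lit 0xf87da06)) e
 (c (nat_lit 0x7edf67edf67edee7edf57edf6bf767) e
 (c z e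
 (c z e
 (c z e
 (c (b (nat_lit 0xfed6e07)) e e))))))))))))
 (c (nat_lit 0x81001810008100081000b3b40)
 (c (nat_lit 0x7e90e7e90e7e90e7e9047e90ef9e25) e
 (c (b (nat_lit 0xfd0a005)) e
 (c z e
 (c (b (nat_lit 0xffe0405)) e
 (c (nat_lit 0x7c4d47c4d27c4d27c4d47c4d454c86) e
 (c (nat_lit 0x7df617df617df357df357df6185527) e
 (c (b (nat_lit 0xff69607)) e
 (c z e
 (c (nat_lit 0x7f93b7f93e7f93e7f93e7f93e67787) e
 (c (b (nat_lit 0xfec5007)) e e))))))))))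
 (c (nat_lit 0x81003810018100181001d8cf0)
 (c z e
 (c (b (nat_lit 0xfef5605)) e
 (c (nat_lit 0x7fc607fda57fda57fda57fda5d99e6) e
 (c (nat_lit 0x7f87c7f87c7f87c7f7657f87c02e47) e e))))
 (c (a (nat_lit 0x101ffe00))
 (c (nat_lit 0x7f86e7f8e67f85b7f8497f8e682e86) e
 (c (nat_lit 0x7edcd7ec847edcd7edcd7edcd9ffa7) e
 (c z e
 (c z e
 (c z e
 (c (nat_lit 0x7f6707f6707f6707f6707f5286a227) e e))))))
 (c (nat_lit 0x80ffe810008100080fff677a0)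
 (c (nat_lit 0x82580824cf824cf825808258067587) e
 (c z e
 (c z e
 (c (nat_lit 0x7ea667ea557ea667ea667ea669bd47) e e))))
 (c (nat_lit 0x81000810018100181002a2be0)
 (c z e
 (c (b (nat_lit 0x1079ca07)) e
 (c (nat_lit 0x8000080000800007ffe180000e28c8) e e)))
 (c (a (nat_lit 0x10200401))
 (c (nat_lit 0x80000800007ffd0800008000033a88) e e)
 (c (nat_lit 0x80ffb80ffb80ffb80ffc77861) e
 (c (a (nat_lit 0x1016b401)) e
 (c (a (nat_lit 0x10057c01)) e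
 (c (a (nat_lit 0x10117001)) e
 (c (nat_lit 0x80f5180f5280f5280f510d372) e
 (c (nat_lit 0x80f4f80f4e80f4e80f4d8ca13) e
 (c (nat_lit 0x80ccb80ccb80ccb80cca7f5b3) e
 (c (nat_lit 0x80ae180ae180ae180ae07f7f3) e
 (c (nat_lit 0x7ffa07ff9f7ff9f7ff9fb5553) e
 (c (nat_lit 0x8100d810088100a8100afdeb3) e
 (c (nat_lit 0x8080b8080b808098080cca014) e
 (c (nat_lit 0x80fba80fba80fba80fbbdaa45) e
 (c (a (nat_lit 0x101f7405)) e
 (c (nat_lit 0x80f9f80fa080fa080fa0007b5) e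
 (c (nat_lit 0x80e5e80e6480e6580e68900b5) e
 (c (nat_lit 0x810598105e80f6280f5e77395) e
 (c (nat_lit 0x80b1a80b1980b1a80b2492786) e
 (c (nat_lit 0x805fd805fd805fc805fde3717) e
 (c (nat_lit 0x80600805ff805fb805fe80437) e
 (c (nat_lit 0x8034d8034a8034b8034b7df87) e
 (c (a (nat_lit 0x100bde07)) e
 (c (nat_lit 0x80ce2811768115180b0571c87) e e))))))))))))))))))))))))))))))))))) Tr.c Tr.e (nat_lit 0) C.t4 C.t5
noncomputable def tt642 : Tr := beta% (fun (c : Nat → Tr → Tr → Tr) (e : Tr) (z : Nat) (a b d : Nat → Nat) =>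
 (c (a (nat_lit 0x10200400))
 (c (nat_lit 0x7f5747f6737f6737f6737f673e33c1)
 (c z e
 (c z e
 (c z e
 (c z e
 (c z e
 (c z e
 (c z e
 (c z e
 (c z e
 (c z e
 (c z e
 (c (nat_lit 0x80000800008000080000800007f43c3134c) e e))))))))))))
 (c z e
 (c (b (nat_lit 0xfc89401)) e
 (c (nat_lit 0x7eebd7eeba7eead7eebd7eebd25fc2) e
 (c (b (nat_lit 0xfbcde03)) e
 (c z e
 (c z e
 (c z e
 (c (b (nat_lit 0x10462403)) e
 (c (b (nat_lit 0x10544805)) e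
 (c z e
 (c (nat_lit 0x7ef917ef917e7db7ef917ef91a9dc5) e
 (c (b (nat_lit 0xfeee605)) e
 (c (b (nat_lit 0xff02605)) e
 (c z e
 (c (nat_lit 0x7eda67ed867edaf7edaf7edafc2ce7) e
 (c (nat_lit 0x7f82f7f82f7f80f7f82f7f82f74267) e
 (c (nat_lit 0x7fef37fef37fef38000080000fb0e7) e e))))))))))))))))))
 (c (nat_lit 0x80ffd80ffe80ffe80ffe4d000)
 (c z e
 (c (b (nat_lit 0xfa87402))
 (c (d (nat_lit 0x106b3c07)) e
 (c (d (nat_lit 0x108c0e07)) e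
 (c (nat_lit 0x8000080000800007fe647fe648000076221) e e)))
 (c (b (nat_lit 0xfdd4203)) e
 (c (b (nat_lit 0xfdda403)) e
 (c z e
 (c (b (nat_lit 0x1010ca03)) e
 (c (nat_lit 0x803e3803ee803db803f8803f8f9963) e
 (c (nat_lit 0x823988237d823978239782398a5205) e
 (c (nat_lit 0x7f4b57f4b57f46a7f4807f4b5afaa5) e
 (c z e
 (c z e
 (c (b (nat_lit 0xfe6e005)) e
 (c (b (nat_lit 0xfe5ca06)) e
 (c (b (nat_lit 0xfd1c407)) e
 (c (nat_lit 0x7f79a80000800007fe077fe0758ac7) e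
 (c z e
 (c (nat_lit 0x800007ff857ff85800008000059087) e
 (c (b (nat_lit 0xf983a07)) e e))))))))))))))))))
 (c (nat_lit 0x81001810018100081000ffbb0)
 (c (b (nat_lit 0xfcbfa03))
 (c (d (nat_lit 0x1094b407)) e e)
 (c (b (nat_lit 0xff92603)) e
 (c z e
 (c z e
 (c (b (nat_lit 0xfe1da03)) e
 (c (b (nat_lit 0xfe52005)) e
 (c (b (nat_lit 0xff4b005)) e
 (c z e
 (c (b (nat_lit 0xfda6c05)) e
 (c (b (nat_lit 0xfba4005)) e
 (c (b (nat_lit 0xfc1de06)) e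
 (c (b (nat_lit 0xfd1f607)) e
 (c (nat_lit 0x7fa677ff7d7f66e7f66e7ff7dcd1a7) e
 (c z e
 (c (b (nat_lit 0xfed5e07)) e
 (c (b (nat_lit 0xfa88c07)) e e))))))))))))))))
 (c (a (nat_lit 0x101ffc00))
 (c z e
 (c (b (nat_lit 0x1009e203)) e
 (c (b (nat_lit 0xfe8fa03)) e
 (c z e
 (c (b (nat_lit 0xfe9de05)) e
 (c z e
 (c z e
 (c (nat_lit 0x7e5797e2a27e2a27e5797e57922fc5) e
 (c (nat_lit 0x7e9a87e9877e9a87e9a87e9a8cd986) e
 (c (nat_lit 0x7f42e7f42e7f4107f42e7f42e461e7) e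
 (c (b (nat_lit 0x1006f607)) e
 (c (b (nat_lit 0x100dde07)) e
 (c z e
 (c (nat_lit 0x7fd1a7fc707fc707fcac7fd1a44ce7) e e))))))))))))))
 (c (nat_lit 0x80ffe80ffe80ffe80ffd6b910)
 (c (b (nat_lit 0xfe09203)) e
 (c (b (nat_lit 0xff1de05)) e
 (c (b (nat_lit 0xfd6a605)) e
 (c (b (nat_lit 0x100d7c05)) e
 (c z e
 (c (b (nat_lit 0xfbb7c05)) e
 (c (nat_lit 0x7f3e07f4337f4337f4337f4336d6e6) e
 (c (nat_lit 0x7ef037ef037eed57ef037ef03f8c87) e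
 (c (nat_lit 0x801e5801e5801e58016c801e5e3b87) e
 (c (b (nat_lit 0x10077a07)) e
 (c z e
 (c z e
 (c z e
 (c (nat_lit 0x8000080000800007ffef7ffeff082a) e
 (c (nat_lit 0x800008000080000800007fff00e6ea) e e)))))))))))))))
 (c (a (nat_lit 0x101ffa00))
 (c (b (nat_lit 0xfefb205)) e
 (c (b (nat_lit 0xfee1e05)) e
 (c z e
 (c (b (nat_lit 0xffd5605)) e
 (c (nat_lit 0x7ff017ff017feee7ff017ff0199c26) e
 (c (nat_lit 0x7f17a7f17a7f17a7f1607f17aa5b47) e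
 (c (nat_lit 0x7f9cd7f9cd7f9387f9cd7f9cdba407) e
 (c z e
 (c (b (nat_lit 0xfffe007)) e
 (c (b (nat_lit 0xfed6207)) e
 (c (b (nat_lit 0xfec6609)) e e)))))))))))
 (c (nat_lit 0x810028100181001810014ece0)
 (c z e
 (c (b (nat_lit 0xfcabc05)) e
 (c (b (nat_lit 0xff9c006)) e
 (c (nat_lit 0x7e7b97e7b97e7917e7b97e7b998a47) e
 (c z e
 (c z e
 (c z e
 (c (b (nat_lit 0xfda4807)) e e))))))))
 (c (nat_lit 0x8100080fff80fff8100000460)
 (c (b (nat_lit 0xfccba06)) e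
 (c (nat_lit 0x7ec847ec847ec617ec847ec84a0367) e
 (c z e
 (c z e
 (c (b (nat_lit 0xfffc207)) e
 (c (b (nat_lit 0xfec7c07)) e e))))))
 (c (nat_lit 0x8100080fff80fff80fffb46e0)
 (c (b (nat_lit 0x101ed207)) e
 (c (b (nat_lit 0xfff8a07)) e
 (c z e
 (c (b (nat_lit 0xf511e07)) e
 (c (nat_lit 0x8000080000800007fbcb7fbcbbea08) e
 (c (nat_lit 0x800008000080000800007fbd3ee988) e e))))))
 (c (a (nat_lit 0x10200200))
 (c z e
 (c (nat_lit 0x7776b777657776b7776b7776bd1487) e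
 (c z e
 (c (nat_lit 0x8000080000800007ffff8000088788) e e))))
 (c (nat_lit 0x810018100181001810020d820)
 (c (nat_lit 0x7b8817b87b7b8817b8817b88117228) e
 (c (nat_lit 0x80000800007f0107f0177f01795628) e
 (c (nat_lit 0x8000080000800007f0137f017df368) e
 (c (nat_lit 0x800008000080000800007f68e5f108) e e))))
 (c (a (nat_lit 0x101ffc01)) e
 (c (nat_lit 0x810058100481002810028a801) e
 (c (a (nat_lit 0x10129001)) e
 (c (nat_lit 0x7fcae7fcad7fcae7fcaeee631) e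
 (c (nat_lit 0x805f7805f6805f6805f7586e1) e
 (c (nat_lit 0x80f4480f4380f4380f4486502) e
 (c (nat_lit 0x80f3f80f3f80f3e80f3ee1743) e
 (c (nat_lit 0x80d5e80d5e80d5e80d5bea4f3) e
 (c (nat_lit 0x80b0580b0580b0480b04f1c63) e
 (c (a (nat_lit 0x100cd403)) e
 (c (nat_lit 0x80fd880fd980fd180fdad5263) e
 (c (nat_lit 0x80f7f80f7a80f7d80f7df62c5) e
 (c (a (nat_lit 0x101efe05)) e
 (c (nat_lit 0x80f8a80f8980f8980f78bbaa5) e
 (c (nat_lit 0x80ff580ff480ff380ff42df35) e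
 (c (nat_lit 0x80f8580f8680f8780f878e445) e
 (c (nat_lit 0x80b1580b1580b0e80b15b1646) e
 (c (a (nat_lit 0x100c1007)) e
 (c (nat_lit 0x8060d8060e806058060541d97) e
 (c (nat_lit 0x80393803928037780377a2d47) e
 (c (nat_lit 0x806c7806c7806ef806ef57ff7) e
 (c (nat_lit 0x80c3980c3980e9a80e9a3d7e7) e e)))))))))))))))))))))))))))))))))) Tr.c Tr.e (nat_lit 0) C.t4 C.t5 C.t6
noncomputable def tt643 : Tr := beta% (fun (c : Nat → Tr → Tr → Tr) (e : Tr) (z : Nat) (a b d : Nat → Nat) =>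
 (c (a (nat_lit 0xfdffa00))
 (c z
 (c (d (nat_lit 0xd6c1407)) e
 (c (d (nat_lit 0x1092e807)) e e))
 (c (nat_lit 0x7f6f97f6f97f6967f6ad7f6c97f6f99d643) e
 (c (nat_lit 0x7cbef7cbef7cbef7cbbb7cb197cbef4d1c5) e
 (c (nat_lit 0x7e41c7e41c7e41c7e4117e3ec7e41cc4b05) e
 (c (b (nat_lit 0xff7dc05)) e
 (c (b (nat_lit 0x10245605)) e
 (c z e
 (c (nat_lit 0x800007ff0a7fec97ff07800008000061646) e
 (c (nat_lit 0x80000800007ff167ffd1800008000048047) e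
 (c (nat_lit 0x7efdc7efdc7efdc7ef7d7efdc7efdc85f47) e
 (c z e
 (c z e
 (c (nat_lit 0x7f77a7f77a7f1167f77a7f77a7f77a72807) e e)))))))))))))
 (c (a (nat_lit 0xfe00a00))
 (c (nat_lit 0x791a9791a97918f79168791a9791a941845) e
 (c (nat_lit 0x800007f5b580000800008000080000df005) e
 (c z e
 (c z e
 (c (b (nat_lit 0x1061da05)) e
 (c (b (nat_lit 0xfe1ba06)) e
 (c (nat_lit 0x83371833718330783371833718337163887) e
 (c z e
 (c z e
 (c z e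
 (c z e
 (c (nat_lit 0x86366863988636d8639886398863983df93) e
 (c (nat_lit 0x8000080000800008527a8527a8527a3fdd4) e e)))))))))))))
 (c (a (nat_lit 0xfdffa01))
 (c (nat_lit 0x7b72e7b72e7b5587b72e7b72e7b72eb67c5) e
 (c z e
 (c z e
 (c z e
 (c z e
 (c (b (nat_lit 0xffcc607)) e
 (c z e
 (c (b (nat_lit 0x10250c07)) e e))))))))
 (c (nat_lit 0x7f00e7f00e7f00b7f00b7f00b8dc41)
 (c z e
 (c z e
 (c (nat_lit 0x8000080000800007ff948000080000b5846) e e)))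
 (c (nat_lit 0x7f02e7f02e7f02e7f0057f0064c581)
 (c (b (nat_lit 0x1033ba07)) e
 (c (b (nat_lit 0x1036d007)) e
 (c z e
 (c z e
 (c (nat_lit 0x84b4284b42844d284b4284b4284b427ca47) e e)))))
 (c (a (nat_lit 0xfbc0201))
 (c (b (nat_lit 0xfff9007)) e
 (c z e
 (c z e
 (c (nat_lit 0x8000080000800007ffb88000080000a450c) e e))))
 (c (a (nat_lit 0xfd6f401))
 (c z e
 (c (nat_lit 0x7f5527f5067f5527f5527f5527f55209892) e e))
 (c (a (nat_lit 0xfd8c202)) e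
 (c (a (nat_lit 0xfdaf003)) e
 (c z e
 (c z e
 (c (a (nat_lit 0x1066ec03)) e
 (c z e
 (c (nat_lit 0x7f4ae7f49f7f4997f4777f4aecfee5) e
 (c (nat_lit 0x7ddfe7ddfe7ddfe7ddfa7ddfd7cd65) e
 (c (a (nat_lit 0xff93c05)) e
 (c (a (nat_lit 0xffcc005)) e
 (c (a (nat_lit 0xfdb2605)) e
 (c (a (nat_lit 0xfd4e006)) e
 (c (a (nat_lit 0xfd4f807)) e
 (c (a (nat_lit 0xfe3dc07)) e
 (c z e
 (c z e
 (c (a (nat_lit 0xfde7c07)) e e))))))))))))))))))))))))) Tr.c Tr.e (nat_lit 0) C.t5 C.t6 C.t7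
noncomputable def tt644 : Tr := beta% (fun (c : Nat → Tr → Tr → Tr) (e : Tr) (z : Nat) (a b d : Nat → Nat) =>
 (c (a (nat_lit 0x10200400))
 (c (b (nat_lit 0xfecfc01))
 (c z e
 (c z e
 (c z e
 (c z e
 (c z e
 (c z e
 (c z e
 (c z e
 (c z e
 (c z e
 (c (nat_lit 0x800008000080000800007fd0f80000fcd4b) e e)))))))))))
 (c (nat_lit 0x7f0017f0017f0017efff7f000f1f61) e
 (c z e
 (c z e
 (c (nat_lit 0x800007ffc17ffbc8000080000ab9c2) e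
 (c (b (nat_lit 0xfe8c603)) e
 (c (nat_lit 0x7f61e7f61e7f5c17f61e7f61e29563) e
 (c (b (nat_lit 0x1021b003)) e
 (c z e
 (c (nat_lit 0x8106e810668106e8106e8106e91b83) e
 (c (nat_lit 0x80d1980d1280d1280d1980d193dee5) e
 (c (nat_lit 0x7f7567f7567f60c7f7567f756c5705) e
 (c (b (nat_lit 0x100eca05)) e e)))))))))))))
 (c (a (nat_lit 0x101ffe00))
 (c z e
 (c (b (nat_lit 0xf9d3001))
 (c (d (nat_lit 0xfffee07)) e e)
 (c (nat_lit 0x7ef4b7ef477ef397ef4b7ef4bef122)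
 (c (nat_lit 0x800007fe7a80000800008000080000134d2) e e)
 (c (b (nat_lit 0xfe50403)) e
 (c z e
 (c z e
 (c z e
 (c (b (nat_lit 0xfd38603)) e
 (c (nat_lit 0x82a8082a6882a6b82a7b82a80e92c5) e
 (c z e
 (c z e
 (c z e
 (c (nat_lit 0x7ce6c7ce6c7ce1a7ce6c7ce6c09426) e
 (c z e
 (c z e
 (c z e
 (c (nat_lit 0x7ff507ff507ff508000080000364c7) e
 (c (b (nat_lit 0xfc28c07)) e e))))))))))))))))))
 (c (nat_lit 0x80ffd80ffe80ffe80ffe10ca0)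
 (c (b (nat_lit 0xfec4c02))
 (c (d (nat_lit 0x107c9207)) e
 (c (nat_lit 0x824798247982449824798247982479111a2) e
 (c (d (nat_lit 0xfffae22)) e e)))
 (c (b (nat_lit 0xfdc6e03)) e
 (c z e
 (c z e
 (c (b (nat_lit 0x1029c003)) e
 (c (b (nat_lit 0xfe5de03)) e
 (c (b (nat_lit 0xfc33c05)) e
 (c z e
 (c z e
 (c z e
 (c (nat_lit 0x7c86f7c8477c86f7c86f7c86fe3e86) e
 (c (b (nat_lit 0xf993c07)) e
 (c z e
 (c z e
 (c z e
 (c (nat_lit 0x7d4c27d4c27d6797d6797d679b1f27) e e))))))))))))))))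
 (c (a (nat_lit 0x10200000))
 (c (b (nat_lit 0xfe8ec03)) e
 (c z e
 (c z e
 (c (b (nat_lit 0xff37a03)) e
 (c (b (nat_lit 0xfe69e05)) e
 (c (b (nat_lit 0xffd3c05)) e
 (c z e
 (c (b (nat_lit 0xfd67a05)) e
 (c (nat_lit 0x7ebc97ebaa7ebc97ebc97ebc9be526) e
 (c (nat_lit 0x7ef587ef587ef047ef587ef58b0a87) e
 (c (b (nat_lit 0xfff4a07)) e
 (c (b (nat_lit 0x1005b607)) e
 (c z e
 (c (nat_lit 0x7f0917ed5c7ed5c7f0997f09997de7) e
 (c (b (nat_lit 0xffa880a)) e e)))))))))))))))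
 (c (a (nat_lit 0x101ffa00))
 (c z e
 (c (b (nat_lit 0xff00803)) e
 (c (b (nat_lit 0xfe1cc05)) e
 (c (b (nat_lit 0x101b6e05)) e
 (c z e
 (c z e
 (c (nat_lit 0x7f30f7f81d7f81d7f81d7f81de7fc6) e
 (c (nat_lit 0x7e8747e8747e86e7e8547e87485307) e
 (c (nat_lit 0x8096a8096a8096a809648096a5f227) e
 (c (b (nat_lit 0x10031207)) e
 (c z e
 (c z e
 (c (nat_lit 0x7fef27fef27ff267ff267ff265dba9) e
 (c (nat_lit 0x80000800007ffef80000800004cc2a) e e))))))))))))))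
 (c (a (nat_lit 0x101ffe00))
 (c (b (nat_lit 0xfeb4205)) e
 (c z e
 (c z e
 (c z e
 (c (nat_lit 0x800007ffbd7ffa58000080000b6b66) e
 (c (nat_lit 0x7f4a07f4a07f4907f4a07f4a00a6a7) e
 (c (nat_lit 0x800007ffee7ffee8000080000d4fc7) e
 (c z e
 (c z e
 (c (b (nat_lit 0xffb9007)) e
 (c (b (nat_lit 0xff66409)) e
 (c (b (nat_lit 0xffb7809)) e e))))))))))))
 (c (a (nat_lit 0x101ffc00))
 (c z e
 (c (nat_lit 0x7f4a07f4a07f6757f6757f67514405) e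
 (c (nat_lit 0x7e1de7dd917dd917e1de7e1de9c3a6) e
 (c (nat_lit 0x7f0bf7ea2b7f0bf7f0bf7f0bf09e27) e
 (c z e
 (c z e
 (c z e
 (c (b (nat_lit 0xfcdb607)) e
 (c z e
 (c z e
 (c z e
 (c (nat_lit 0x800008000080000800007feeccf7e9) e e))))))))))))
 (c (nat_lit 0x81001810008100081000e11b0)
 (c (nat_lit 0x7e6337e0267e0267e6337e63314386) e
 (c (b (nat_lit 0xfd16a07)) e
 (c (b (nat_lit 0x100e0807)) e
 (c z e
 (c z e
 (c (nat_lit 0x7ecae7eccd7eccd7eccd7eccd1fd07) e e))))))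
 (c (nat_lit 0x80ffc80ffc80ffd80ffcb79d0)
 (c (b (nat_lit 0xff1aa07)) e
 (c (b (nat_lit 0x10414807)) e
 (c z e
 (c (nat_lit 0x7948279449794827948279482065c7) e
 (c (nat_lit 0x80000800007e4397e4417e441f3908) e
 (c (nat_lit 0x8000080000800007e9517e95365748) e e))))))
 (c (nat_lit 0x8100081001810018100037e60)
 (c z e
 (c (nat_lit 0x7a0147a2587a2587a2587a2586b487) e
 (c (b (nat_lit 0xfeffc08)) e
 (c (nat_lit 0x80000800007e6827e6847e6845eec8) e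
 (c (nat_lit 0x8000080000800007ef4c7ef4f5a148) e e)))))
 (c (nat_lit 0x80fff81000810008100053040)
 (c (nat_lit 0x767d4767d4767b2767d4767d4ca748) e
 (c (nat_lit 0x7e6c47e6c37e6c47e6c47e6c4a35e8) e
 (c (nat_lit 0x80000800007f58f7f58c7f58fff5a8) e
 (c (nat_lit 0x8000080000800007f36f7f36e22108) e e))))
 (c (a (nat_lit 0x10200000)) e
 (c (a (nat_lit 0x101ffa01)) e
 (c (a (nat_lit 0x10194e01)) e
 (c (a (nat_lit 0xffc4e01)) e
 (c (a (nat_lit 0x10032001)) e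
 (c (nat_lit 0x8037f8037f8037f80380ff731) e
 (c (nat_lit 0x80fe780fe780fe680fe603422) e
 (c (nat_lit 0x80feb80feb80fe980fea631e3) e
 (c (a (nat_lit 0x101a8403)) e
 (c (nat_lit 0x802278022880228802279f953) e
 (c (nat_lit 0x8008780087800878008889113) e
 (c (nat_lit 0x80fc380fc580fc380fc3c5f33) e
 (c (nat_lit 0x80deb80dea80deb80deb92f85) e
 (c (nat_lit 0x80dd180dd280dd280dd443395) e
 (c (nat_lit 0x7fb207fce97fce97fce9eec25) e
 (c z e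
 (c (nat_lit 0x8091e8091d8091e8091ad3216) e
 (c (a (nat_lit 0x10081e07)) e
 (c (nat_lit 0x80414804168041680414c6477) e
 (c (nat_lit 0x80153801538010780107a87f7) e
 (c (nat_lit 0x803f880498805c5805c5c5127) e
 (c (nat_lit 0x80bda80bdb80bdb80bda86737) e e)))))))))))))))))))))))))))))))))) Tr.c Tr.e (nat_lit 0) C.t4 C.t5 C.t6
noncomputable def tt645 : Tr := beta% (fun (c : Nat → Tr → Tr → Tr) (e : Tr) (z : Nat) (a b d : Nat → Nat) =>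
 (c (nat_lit 0x7f0057f0047f0047f0067f006fb4e0)
 (c (b (nat_lit 0x10517e03))
 (c (d (nat_lit 0x10a5a207)) e e)
 (c (b (nat_lit 0xfd3e203)) e
 (c (nat_lit 0x7d5a07d5837d52f7d5a07d5a07d5a04a303) e
 (c (nat_lit 0x7e1867e04f7e1547e10d7e1867e186ebf85) e
 (c z e
 (c (b (nat_lit 0x10557805)) e
 (c (b (nat_lit 0xfed4c05)) e
 (c z e
 (c z e
 (c (b (nat_lit 0x1002c407)) e
 (c (nat_lit 0x7f22c7f22c7f22c7f2067f22c7f22c20907) e
 (c z e
 (c (b (nat_lit 0x10550607)) e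
 (c (b (nat_lit 0x100f140b)) e e))))))))))))))
 (c (nat_lit 0x7f0067f0057f0057f0057f00657920)
 (c (b (nat_lit 0xf847203)) e
 (c z e
 (c (nat_lit 0x7decc7decc7decc7de9d7decc7deccf30c5) e
 (c z e
 (c z e
 (c z e
 (c z e
 (c z e
 (c z e
 (c z e
 (c z e
 (c z e
 (c (b (nat_lit 0x103c8c13)) e
 (c (nat_lit 0x8000080000800008400984009840090b418) e e))))))))))))))
 (c (a (nat_lit 0xfdffe00))
 (c (b (nat_lit 0xf5a4c05)) e
 (c z e
 (c z e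
 (c z e
 (c z e
 (c z e
 (c z e
 (c z e
 (c z e
 (c (b (nat_lit 0xffff60b)) e
 (c (b (nat_lit 0xffff014)) e e)))))))))))
 (c (nat_lit 0x7f0067f0067f0057f0067f00603861)
 (c z e
 (c (b (nat_lit 0x1021d406)) e
 (c (nat_lit 0x7b2da7b2da7b0537b2da7b2da7b2da7c0c7) e e)))
 (c (nat_lit 0x7f0167f0167f0077f0097f009e90a1)
 (c (b (nat_lit 0x101a0a07)) e
 (c (b (nat_lit 0x10043c07)) e
 (c (b (nat_lit 0x1019a807)) e
 (c (b (nat_lit 0x100fc607)) e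
 (c z e
 (c (nat_lit 0x82ce082ce082ccf82ccf82ce082ce090c0b) e e))))))
 (c (a (nat_lit 0xfcc7c01))
 (c (b (nat_lit 0x101aa607)) e
 (c z e
 (c z e
 (c (nat_lit 0x80000800007fe668000080000800007848b) e e))))
 (c (nat_lit 0x7f0d17f0d17f0d17f0d17f00abe7a1)
 (c z e
 (c z e
 (c (b (nat_lit 0x10335412)) e e)))
 (c (nat_lit 0x7fb967fb887fc0a7fc0a7fc0ad9901) e
 (c (a (nat_lit 0xfdec402)) e
 (c (a (nat_lit 0xfc75e03)) e
 (c z e
 (c z e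
 (c z e
 (c (nat_lit 0x8022180211801fd8022180221080e3) e
 (c (nat_lit 0x7dfb77dfb77df977df837dfb70e745) e
 (c (nat_lit 0x7e81e7e81e7e81e7e8017e803e5e45) e
 (c z e
 (c (a (nat_lit 0xff63a05)) e
 (c (a (nat_lit 0xfcab006)) e
 (c (nat_lit 0x7ea577ea577ea487ea577ea5712de7) e
 (c (nat_lit 0x7ec797ec797ec797ec677ec79a2a07) e
 (c (a (nat_lit 0xffe0207)) e
 (c z e
 (c z e
 (c (nat_lit 0x7fbde7fbde7fb647fb647fbde4d7eb) e e)))))))))))))))))))))))))) Tr.c Tr.e (nat_lit 0) C.t5 C.t6 C.t7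
noncomputable def tt646 : Tr := beta% (fun (c : Nat → Tr → Tr → Tr) (e : Tr) (z : Nat) (a b d : Nat → Nat) =>
 (c (a (nat_lit 0xfe00c00))
 (c (b (nat_lit 0x102b4002))
 (c (d (nat_lit 0xe984c06)) e
 (c z e
 (c z e
 (c z e
 (c (d (nat_lit 0x10ec4407)) e
 (c (d (nat_lit 0x11000207)) e
 (c (d (nat_lit 0x10c0fc42)) e
 (c (nat_lit 0x80000800008000080000800007fd2a8000011d87) e e))))))))
 (c (b (nat_lit 0xfeab003))
 (c z e
 (c (d (nat_lit 0x106d6007)) e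
 (c z e
 (c z e
 (c (d (nat_lit 0x10fffa23)) e e)))))
 (c (b (nat_lit 0x1063b803)) e
 (c (nat_lit 0x86184861c6861c6861c6861c6861c671c83) e
 (c (b (nat_lit 0x10770203)) e
 (c (nat_lit 0x800007fce47fcea800008000080000ebb03) e
 (c (nat_lit 0x7f8f37f8f37f8f37f8d77f8f37f8f361345) e
 (c (b (nat_lit 0x1038f605)) e
 (c z e
 (c z e
 (c (nat_lit 0x7e83b7e83b7e7eb7e83b7e83b7e83bbd946) e
 (c (nat_lit 0x7ff707ff707fe5c7ff707ff707ff701ec87) e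
 (c (nat_lit 0x8000080000800007fdef8000080000e5f47) e
 (c (b (nat_lit 0x101e7807)) e
 (c z e
 (c (b (nat_lit 0x103c7207)) e e))))))))))))))))
 (c (a (nat_lit 0xfe00a00))
 (c z
 (c z e
 (c z e
 (c z e
 (c (d (nat_lit 0x10fb2813)) e e))))
 (c z e
 (c z e
 (c (b (nat_lit 0x1092bc03)) e
 (c (b (nat_lit 0xfcd0005)) e
 (c (b (nat_lit 0x10382405)) e
 (c z e
 (c (b (nat_lit 0xfe31605)) e
 (c z e
 (c (nat_lit 0x80000800007ff857ff858000080000d3e47) e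
 (c (nat_lit 0x7f6e57f6e57f5bc7f6e57f6e57f6e596787) e
 (c z e
 (c z e
 (c z e
 (c (b (nat_lit 0x103da213)) e e)))))))))))))))
 (c (nat_lit 0x7f0037f0037f0037f0027f0049ce40)
 (c z e
 (c (nat_lit 0x7d5557d68c7d68c7d68c7d68c7d68cef543) e
 (c (nat_lit 0x7d7517d7517d7217d7297d7517d75125b45) e e)))
 (c (a (nat_lit 0xfdffa00))
 (c (nat_lit 0x793887935179388793887938879388b0705) e
 (c z e
 (c z e
 (c z e
 (c z e
 (c z e
 (c z e
 (c z e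
 (c z e
 (c z e
 (c z e
 (c (b (nat_lit 0x10391214)) e e))))))))))))
 (c (a (nat_lit 0xfe00e00))
 (c z e
 (c z e
 (c (nat_lit 0x7c0bc7c09f7c0bc7c0bc7c0bc7c0bcf1c46) e e)))
 (c (nat_lit 0x7f0117f00e7f00e7f00e7f010b5361)
 (c (b (nat_lit 0x10696c06)) e e)
 (c (a (nat_lit 0xfdfe601))
 (c (nat_lit 0x8000080000800007fea88000080000e1107) e
 (c z e
 (c z e
 (c (nat_lit 0x800007fc7d800008000080000800003b847) e
 (c (nat_lit 0x81ba681ba681a5681ba681ba681ba6fb992) e e)))))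
 (c (a (nat_lit 0xfe01001))
 (c (b (nat_lit 0xffc4607)) e e)
 (c z e
 (c (a (nat_lit 0xfd2a201)) e
 (c (a (nat_lit 0xfe75602)) e
 (c (a (nat_lit 0xfdd4603)) e
 (c (a (nat_lit 0xfdd9003)) e
 (c z e
 (c z e
 (c (nat_lit 0x7f5ce7f56b7f57b7f5ce7f5ce5c903) e
 (c (nat_lit 0x7f1e07f1e07f1587f1697f1e0f9c65) e
 (c z e
 (c z e
 (c (a (nat_lit 0xfe6ea05)) e
 (c (nat_lit 0x7e6347e6347e62e7e6347e63491366) e
 (c (a (nat_lit 0xfcc9007)) e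
 (c (nat_lit 0x7ebaa7ebaa7ebaa7eba07eba4b0d27) e
 (c (nat_lit 0x800007fffb7fffb7fffb8000063c07) e
 (c (nat_lit 0x7fe947fe947fe9480000800000cd47) e
 (c (nat_lit 0x7f5387ef757ef757f5387f5382f747) e e))))))))))))))))))))))))))) Tr.c Tr.e (nat_lit 0) C.t5 C.t6 C.t7
noncomputable def tt647 : Tr := beta% (fun (c : Nat → Tr → Tr → Tr) (e : Tr) (z : Nat) (a b d : Nat → Nat) =>
 (c (a (nat_lit 0x101ffc00))
 (c (b (nat_lit 0xff07601)) e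
 (c z e
 (c z e
 (c (nat_lit 0x7fefe7ff6f7ff728000080000ffb62) e
 (c (nat_lit 0x800007fc547ffe87ffe980000b9a43) e
 (c (nat_lit 0x80000800007ff5a7ffbc8000016063) e
 (c z e
 (c z e
 (c z e
 (c z e
 (c z e
 (c z e
 (c (b (nat_lit 0xfe1a006)) e
 (c z e
 (c z e
 (c z e
 (c z e
 (c (b (nat_lit 0xfc87c07)) e
 (c (nat_lit 0x7ea3e7ea377ea3e7ea3e7ea3e1cb4c) e
 (c (nat_lit 0x7ea157ea157ea0d7ea157ea158496c) e
 (c (nat_lit 0x8000080000800007ffc27ffcb06fac) e e)))))))))))))))))))))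
 (c (a (nat_lit 0x101ffe00))
 (c (b (nat_lit 0xfcbd201)) e
 (c (b (nat_lit 0xfe02c02))
 (c (nat_lit 0x813e8813e88138b813e8813e8813e8b4112) e
 (c (d (nat_lit 0x103baa22)) e e))
 (c (b (nat_lit 0xfe6de03))
 (c (nat_lit 0x80000800008000082ef182f0482f0474712) e e)
 (c (nat_lit 0x8000080000800007ffec8000003562) e
 (c z e
 (c z e
 (c (b (nat_lit 0xfbd0c03)) e
 (c (b (nat_lit 0x103d5605)) e
 (c z e
 (c (b (nat_lit 0xfdd6205)) e
 (c (nat_lit 0x7c8517c83f7c8517c8517c85116ec6) e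
 (c (nat_lit 0x7cdc97cdc97cdb47cdc97cdc9cfa27) e
 (c (b (nat_lit 0x101fbe07)) e
 (c z e
 (c z e
 (c (b (nat_lit 0xfeb2c07)) e
 (c (nat_lit 0x7f9d77f9d77f9b07f9d77f9d77a98a) e
 (c (nat_lit 0x8000080000800007ffbb800007626a) e
 (c (nat_lit 0x800008000080000800007fffb8e82a) e e)))))))))))))))))))
 (c (nat_lit 0x80ffe80ffe80ffe80fff58bb0)
 (c (nat_lit 0x7e5c87e5c87e5b57e5b47e5c891503) e
 (c (b (nat_lit 0xfe43403)) e
 (c (b (nat_lit 0x1005a403)) e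
 (c z e
 (c (b (nat_lit 0xfe6d803)) e
 (c z e
 (c (b (nat_lit 0x1019de05)) e
 (c z e
 (c (b (nat_lit 0xfd15a06)) e
 (c (nat_lit 0x7ef6d7ef6d7ef697ef6d7ef6db3e47) e
 (c (b (nat_lit 0xffbc407)) e
 (c z e
 (c z e
 (c z e
 (c z e
 (c (nat_lit 0x7ffef7ffdd7ffef7ffef7ffefe17ea) e e))))))))))))))))
 (c (a (nat_lit 0x101ff400))
 (c z e
 (c z e
 (c z e
 (c z e
 (c z e
 (c z e
 (c (b (nat_lit 0xff12e06)) e
 (c (nat_lit 0x7e9e37e9e37e9dc7e9e37e9e37d447) e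
 (c z e
 (c z e
 (c z e
 (c z e
 (c z e
 (c z e
 (c (nat_lit 0x7fde57fdde7fde57fde57fde5963ca) e e)))))))))))))))
 (c (a (nat_lit 0x101ff800))
 (c (nat_lit 0x7f98e7f8fc7f98e7f98e7f98eb7323) e
 (c z e
 (c z e
 (c z e
 (c z e
 (c (nat_lit 0x7f1f07f1d87f1d77f1f07f1f0c2de7) e
 (c z e
 (c z e
 (c z e
 (c (b (nat_lit 0xffc5607)) e
 (c z e
 (c z e
 (c (b (nat_lit 0xffd5409)) e e)))))))))))))
 (c (nat_lit 0x81001810008100081000ad580)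
 (c z e
 (c z e
 (c (nat_lit 0x7ffa4800007feff800008000032ce6) e
 (c (nat_lit 0x7f2017f2017f1c77f2017f201f9427) e
 (c z e
 (c z e
 (c z e
 (c (b (nat_lit 0xfffda07)) e e))))))))
 (c (nat_lit 0x80ffb80ffb80ffc80ffced040)
 (c (b (nat_lit 0xfee0c06)) e
 (c (b (nat_lit 0xfc69e07)) e
 (c z e
 (c (b (nat_lit 0x10220407)) e
 (c z e
 (c (b (nat_lit 0x10179607)) e
 (c (nat_lit 0x80000800007ffd37ff01800001bec8) e
 (c z e
 (c (nat_lit 0x800008000080000800007ff367ff28) e e)))))))))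
 (c (nat_lit 0x80ffb80ffa80ffa80ff967440)
 (c (b (nat_lit 0xfdeb207)) e
 (c z e
 (c z e
 (c (nat_lit 0x7ff537ff5380000800008000085127) e
 (c (b (nat_lit 0xfc1c808)) e
 (c (nat_lit 0x80000800007d7117d7157d71599128) e
 (c (nat_lit 0x8000080000800007fe587fe58a9228) e
 (c (nat_lit 0x800008000080000800007ff7402268) e e))))))))
 (c (nat_lit 0x810008100081000810010c850)
 (c (b (nat_lit 0x100a7a07)) e
 (c z e
 (c (nat_lit 0x7b0737b0737b0617afbd7b073f3c88) e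
 (c (b (nat_lit 0xfb52408)) e
 (c (nat_lit 0x80000800007f1347f12e7f134a3f68) e
 (c (nat_lit 0x8000080000800007ffbd7ffaa5ee88) e
 (c (nat_lit 0x800008000080000800007ff27838e8) e e)))))))
 (c (a (nat_lit 0x101ffc00))
 (c (nat_lit 0x7306a7305e7306a7306a7306a1d608) e
 (c (b (nat_lit 0xfcc1008)) e
 (c (nat_lit 0x7f24a7f24a7f2497f24a7f24a6f9e8) e
 (c (nat_lit 0x80000800007f3897f3807f38088348) e
 (c (nat_lit 0x8000080000800007ff137ff07d63a8) e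
 (c (nat_lit 0x800008000080000800007fedf6e6c8) e e))))))
 (c (nat_lit 0x8100080fff80fff80fffeea00) e
 (c (a (nat_lit 0x10200000)) e
 (c (a (nat_lit 0x101ffe01)) e
 (c (a (nat_lit 0x10018c01)) e
 (c (a (nat_lit 0x10020c01)) e
 (c (nat_lit 0x802bc802bc802bc802bd9ddf1) e
 (c (a (nat_lit 0x10117c01)) e
 (c (nat_lit 0x810128100b8101281012cfba2) e
 (c (nat_lit 0x8100a8100a810078100a116a3) e
 (c (nat_lit 0x8100881009810078100198783) e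
 (c (nat_lit 0x8028f8028f8028f80290a0293) e
 (c (nat_lit 0x802c5802c4802c4802c4ed6b3) e
 (c (nat_lit 0x80fb580fb580fb280fb295473) e
 (c (nat_lit 0x7ea4c7ea4b7ea4b7ea4bd9585) e
 (c (nat_lit 0x7eeac7eead7eeaa7ee03eb295) e
 (c (nat_lit 0x7fb9f7fba17fba87fbabaef55) e
 (c (nat_lit 0x80861808618086080860daec6) e
 (c (nat_lit 0x8036b8036a8036a8036aba967) e
 (c (nat_lit 0x8036a8036a803668036a5b547) e
 (c (nat_lit 0x80081800828008280082a3927) e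
 (c (nat_lit 0x803c6803c68046c8048f21057) e
 (c (a (nat_lit 0xfe98e07)) e e))))))))))))))))))))))))))))))))) Tr.c Tr.e (nat_lit 0) C.t4 C.t5 C.t6
noncomputable def tt648 : Tr := beta% (fun (c : Nat → Tr → Tr → Tr) (e : Tr) (z : Nat) (a b d : Nat → Nat) =>
 (c (nat_lit 0x7f0067f0057f0057f0057f005413a0)
 (c (b (nat_lit 0x106f8603))
 (c (d (nat_lit 0x10fffc07)) e e)
 (c z e
 (c z e
 (c (b (nat_lit 0xfb9b003)) e
 (c (nat_lit 0x7de737de737dde47de737de737de73c9445) e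
 (c (nat_lit 0x8000080000800007fc198000080000f3005) e
 (c z e
 (c z e
 (c z e
 (c (b (nat_lit 0xfbe0207)) e
 (c z e
 (c z e
 (c z e
 (c z e
 (c (nat_lit 0x81aa48193d8191a8191a81aa481aa48d74b) e e)))))))))))))))
 (c (a (nat_lit 0xfe00600)) e
 (c (a (nat_lit 0xfe00000))
 (c z e
 (c z e
 (c z e
 (c z e
 (c z e
 (c z e
 (c z e
 (c z e
 (c z e
 (c (b (nat_lit 0xfffa20b)) e e))))))))))
 (c (nat_lit 0x7f0097f0087f0087f0087f00830180)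
 (c z e
 (c z e
 (c z e
 (c z e
 (c z e
 (c (b (nat_lit 0xfffc607)) e e))))))
 (c (a (nat_lit 0xfe00401))
 (c z e
 (c (nat_lit 0x8323583235831c483235832358323569347) e
 (c z e
 (c (b (nat_lit 0xfff7407)) e
 (c z e
 (c z e
 (c (nat_lit 0x80076800767fe7080076800768007632dcb) e e)))))))
 (c (a (nat_lit 0xfe00601))
 (c z e
 (c z e
 (c z e
 (c z e
 (c (b (nat_lit 0x1086640b)) e e)))))
 (c (nat_lit 0x7f00d7f00d7f00d7f00a7f00b774e1)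
 (c (b (nat_lit 0xffd9607)) e e)
 (c z
 (c (b (nat_lit 0x1038d40b)) e e)
 (c z e
 (c (nat_lit 0x7f9a77f97b7f97d7f9a77f9a74c682) e
 (c (nat_lit 0x7ef087ef087eefa7ef027ef08eaac3) e
 (c (nat_lit 0x7ecc97ecc97ecc97ecaf7ecc9039a3) e
 (c z e
 (c z e
 (c (a (nat_lit 0xff97a03)) e
 (c (a (nat_lit 0xff14e05)) e
 (c z e
 (c z e
 (c (a (nat_lit 0xfc49006)) e
 (c (a (nat_lit 0xfd5be07)) e
 (c (nat_lit 0x7e7c97e7c97e7c77e7c97e7c9b82a7) e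
 (c (a (nat_lit 0xffeac07)) e
 (c z e
 (c z e
 (c (nat_lit 0x7febe7fcc57fcc5800008000094beb) e
 (c (nat_lit 0x7eca07eca07ec1d7eca07eca07324b) e
 (c z e
 (c z e
 (c (nat_lit 0x800008000080000800007fb05daded) e e)))))))))))))))))))))))))))))) Tr.c Tr.e (nat_lit 0) C.t5 C.t6 C.t7
noncomputable def tt649 : Tr := beta% (fun (c : Nat → Tr → Tr → Tr) (e : Tr) (z : Nat) (a b d : Nat → Nat) =>
 (c (nat_lit 0x7f0057f0057f0057f0047f0055a620)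
 (c z
 (c (d (nat_lit 0xec1ea06)) e
 (c (nat_lit 0x788b9788b97873c788b9788b9788b9788b973207) e e))
 (c (b (nat_lit 0x10156c02)) e
 (c (nat_lit 0x8412d83e1c8412d8412d8412d8412d8fd03) e
 (c (nat_lit 0x82afd82afd829d082afd82afd82afdcb543) e
 (c z e
 (c z e
 (c (b (nat_lit 0x10398c03)) e
 (c z e
 (c z e
 (c (b (nat_lit 0x102c6005)) e
 (c (b (nat_lit 0xf8ee806)) e
 (c (nat_lit 0x7f5b67f5b67f5667f5b67f5b67f5b6e4447) e
 (c z e
 (c z e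
 (c z e
 (c z e
 (c (nat_lit 0x7fedc7fedc80000800008000080000b24cb) e e)))))))))))))))))
 (c (nat_lit 0x7f0047f0047f0047f0057f006d4460)
 (c z
 (c z e
 (c z e
 (c z e
 (c z e
 (c (d (nat_lit 0x11000013)) e e)))))
 (c z e
 (c z e
 (c (b (nat_lit 0xfbeea03)) e
 (c z e
 (c (nat_lit 0x80000800007ff38800008000080000c2ec5) e
 (c z e
 (c z e
 (c z e
 (c z e
 (c (b (nat_lit 0xfd53a07)) e
 (c z e
 (c z e
 (c z e
 (c z e
 (c (b (nat_lit 0x10236813)) e e))))))))))))))))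
 (c (a (nat_lit 0xfe00600)) e
 (c (nat_lit 0x7f0017f0007f0007f0007f00182ba0) e
 (c (nat_lit 0x7f0057f0047f0047f0047f00538560) e
 (c (a (nat_lit 0xfe00a00))
 (c z e
 (c (b (nat_lit 0x10250207)) e e))
 (c (nat_lit 0x7f0047f0037f0047f0037f00424081)
 (c (nat_lit 0x80000800007ff4a800008000080000f0387) e
 (c z e
 (c z e
 (c z e
 (c z e
 (c (nat_lit 0x7faa47faa47f9497faa47faa47faa40c1d2) e e))))))
 (c (nat_lit 0x7f0117f0117f00e7f00e7f01081921) e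
 (c (nat_lit 0x7f0187f0187f0187f0077f0091c741) e
 (c z e
 (c (a (nat_lit 0xff15401)) e
 (c (nat_lit 0x7ee3e7ee317ee307ee3e7ee3ea33c2) e
 (c (nat_lit 0x7ebdf7ebdf7ebd47ebdc7ebdf020a3) e
 (c z e
 (c z e
 (c z e
 (c (a (nat_lit 0xfecc403)) e
 (c z e
 (c (a (nat_lit 0xff84205)) e
 (c (a (nat_lit 0xff1d005)) e
 (c (nat_lit 0x7e99f7e99b7e9e37e9e37e9e304926) e
 (c (a (nat_lit 0xfc47a07)) e
 (c (a (nat_lit 0xfc8f207)) e
 (c (a (nat_lit 0xffa6207)) e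
 (c z e
 (c z e
 (c (nat_lit 0x7f9e87f9e87f9e87fa4e7fa4e44a0b) e
 (c z e
 (c z e
 (c (nat_lit 0x8000080000800007f82e7f82e95dcd) e e))))))))))))))))))))))))))))))) Tr.c Tr.e (nat_lit 0) C.t5 C.t6 C.t7
noncomputable def tt650 : Tr := beta% (fun (c : Nat → Tr → Tr → Tr) (e : Tr) (z : Nat) (a b d : Nat → Nat) =>
 (c (nat_lit 0x7f0097f0087f0087f0087f009f55c0)
 (c (b (nat_lit 0x1021ce01))
 (c (d (nat_lit 0x11000003)) e
 (c z e
 (c z e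
 (c (d (nat_lit 0xf29fa05)) e
 (c (d (nat_lit 0xef42206)) e
 (c z e
 (c z e
 (c (nat_lit 0x7b6997b6997b6997b6997b6997b6527b699a0e87) e
 (c z e
 (c z e
 (c (d (nat_lit 0x1078c20d)) e
 (c z e
 (c z e
 (c z e
 (c (nat_lit 0x8000080000800007ffc38000080000800007e840) e e)))))))))))))))
 (c (nat_lit 0x80ff180ff180ff180ff180ff080ff126281) e
 (c (nat_lit 0x80ff780ff780ff780ff780ff580ff6dcfc1) e
 (c z e
 (c z e
 (c (b (nat_lit 0x10494a03)) e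
 (c (b (nat_lit 0x107bd603)) e
 (c (nat_lit 0x84a6284a6284a628499c84a6284a6239203) e
 (c (b (nat_lit 0x1023da03)) e
 (c z e
 (c z e
 (c z e
 (c (b (nat_lit 0xfb48205)) e
 (c z e
 (c (b (nat_lit 0x10338007)) e
 (c z e
 (c (b (nat_lit 0xff17807)) e
 (c z e
 (c z e
 (c z e
 (c z e
 (c (nat_lit 0x7ff0780000800008000080000800002da0d) e e))))))))))))))))))))))
 (c (nat_lit 0x7f0057f0057f0057f0047f00655ee0)
 (c (nat_lit 0x80ff780ff780ff780ff780ff380ff7927c1) e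
 (c z e
 (c (b (nat_lit 0x1069a802)) e
 (c (nat_lit 0x822ac8221a822ac822ac822ac822ac91dc3) e
 (c (b (nat_lit 0x104e1803)) e
 (c z e
 (c z e
 (c z e
 (c z e
 (c z e
 (c z e
 (c z e
 (c z e
 (c z e
 (c (b (nat_lit 0xff08007)) e
 (c z e
 (c (b (nat_lit 0x104d3007)) e
 (c (b (nat_lit 0x1034140d)) e e))))))))))))))))))
 (c (a (nat_lit 0xfe00800))
 (c (b (nat_lit 0x10711e02)) e
 (c (nat_lit 0x856b6856b6856a8856a2856b6856b6e00c3) e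
 (c z e
 (c z e
 (c z e
 (c z e
 (c z e
 (c z e
 (c (b (nat_lit 0xf292405)) e
 (c z e
 (c z e
 (c z e
 (c z e
 (c z e
 (c (b (nat_lit 0xfe81207)) e e)))))))))))))))
 (c (a (nat_lit 0xfe00800))
 (c (nat_lit 0x82b8582b8582b7982b8582b8582b8524283) e
 (c z e
 (c z e
 (c z e
 (c z e
 (c z e
 (c z e
 (c z e
 (c z e
 (c z e
 (c z e
 (c z e
 (c (nat_lit 0x7fffc80000800008000080000800006ddc7) e
 (c (b (nat_lit 0xf90420d)) e
 (c (b (nat_lit 0xfff180d)) e e)))))))))))))))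
 (c (nat_lit 0x7f0037f0037f0027f0027f003808c0)
 (c z e
 (c z e
 (c z e
 (c z e
 (c z e
 (c (nat_lit 0x800007ff717ff718000080000800002e146) e
 (c z e
 (c z e
 (c z e
 (c z e
 (c z e
 (c z e
 (c (b (nat_lit 0xffea80d)) e e)))))))))))))
 (c (a (nat_lit 0xfe01400))
 (c z e
 (c z e
 (c (b (nat_lit 0xfb6cc05)) e
 (c z e
 (c z e
 (c z e
 (c z e
 (c z e
 (c (b (nat_lit 0xfff0807)) e e)))))))))
 (c (a (nat_lit 0xfe00a00))
 (c z e
 (c z e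
 (c (nat_lit 0x7ce2a7ce2a7cdd07ce2a7ce2a7ce2aee547) e e)))
 (c (a (nat_lit 0xfe00a00))
 (c (nat_lit 0x8109f8109f8109d8109f8109f8109f9e747) e
 (c (nat_lit 0x80af180af180acd80aec80af180af1dc647) e e))
 (c (nat_lit 0x7f0147f0127f0127f0127f012fda21)
 (c (nat_lit 0x7ff8f8000080000800008000080000cf9c7) e e)
 (c (a (nat_lit 0xfe00001)) e
 (c (a (nat_lit 0xfdfb401))
 (c (nat_lit 0x800007fc8f7fc8f8000080000800008878d) e
 (c (nat_lit 0x7ff637ff6380000800008000080000d28cd) e e))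
 (c (a (nat_lit 0xfdc8201)) e
 (c (a (nat_lit 0xfcac401)) e
 (c (nat_lit 0x7e3a37e36b7e3747e3a37e3a369fc2) e
 (c (nat_lit 0x7e1b77e1357e1b77e1b77e1b72e303) e
 (c (nat_lit 0x805c3805c3804b4805c3805c32c923) e
 (c (a (nat_lit 0x10080403)) e
 (c z e
 (c z e
 (c z e
 (c (a (nat_lit 0xff51205)) e
 (c (a (nat_lit 0xff80805)) e
 (c (a (nat_lit 0xfe7a806)) e
 (c (nat_lit 0x7f1577f1577f14d7f1577f157287c7) e
 (c (nat_lit 0x7f1927f1927f18b7f16e7f18e94ee7) e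
 (c (a (nat_lit 0xffc9207)) e e))))))))))))))))))))))))))) Tr.c Tr.e (nat_lit 0) C.t5 C.t6 C.t7
noncomputable def tt651 : Tr := beta% (fun (c : Nat → Tr → Tr → Tr) (e : Tr) (z : Nat) (a b : Nat → Nat) =>
 (c (a (nat_lit 0x101ffc00)) tt650
 (c (a (nat_lit 0x101ffc00)) tt649
 (c (a (nat_lit 0x101ffe00)) tt648
 (c (a (nat_lit 0x101ffe00))
 (c (b (nat_lit 0xfe00000))
 (c z e
 (c z e
 (c z e
 (c z e
 (c z e
 (c z e
 (c z e
 (c z e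
 (c z e
 (c z e
 (c z e
 (c z e
 (c (nat_lit 0x840138400f8401384013840138401394f4b) e e)))))))))))))
 (c (b (nat_lit 0xfe00200)) e
 (c (b (nat_lit 0xfe00001)) e
 (c (b (nat_lit 0xfe00601)) e
 (c (nat_lit 0x7f0027f0027f0027f0017f00171061) e
 (c (b (nat_lit 0xff02601)) e
 (c (nat_lit 0x7fb667fb647fb6d7fb6d7fb6dc64e1) e
 (c (b (nat_lit 0xff0e202)) e
 (c (nat_lit 0x7f9bf7f9bf7f9a67f9a57f9bf84423) e
 (c (b (nat_lit 0x10030c03)) e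
 (c z e
 (c z e
 (c z e
 (c (b (nat_lit 0x100e2205)) e
 (c (b (nat_lit 0xff8d605)) e
 (c z e
 (c (b (nat_lit 0xff1be06)) e
 (c (b (nat_lit 0xff47407)) e
 (c (b (nat_lit 0xff77007)) e
 (c z e
 (c z e
 (c z e
 (c z e
 (c (nat_lit 0x7f3d27f3947f3d27f3d27f3d28dd2b) e
 (c (nat_lit 0x7dd317dd317dd137dd317dd31afbeb) e e)))))))))))))))))))))))))
 (c (a (nat_lit 0x10200000))
 (c (nat_lit 0x7f6857f6847f6857f6857f68505701) e
 (c (b (nat_lit 0xfe00401)) e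
 (c (nat_lit 0x7f0077f0077f0077f0027f00325b41) e
 (c z e
 (c (b (nat_lit 0xfb20801)) e
 (c (nat_lit 0x800007fffe8000080000800002d382) e
 (c (b (nat_lit 0xfecdc03)) e
 (c z e
 (c z e
 (c z e
 (c z e
 (c z e
 (c z e
 (c z e
 (c z e
 (c z e
 (c z e
 (c (b (nat_lit 0xffe5407)) e
 (c z e
 (c (b (nat_lit 0xfda8407)) e
 (c (b (nat_lit 0xfe95c0c)) e
 (c (b (nat_lit 0xfeaca0c)) e e)))))))))))))))))))))) tt647)))))) Tr.c Tr.e (nat_lit 0) C.t4 C.t5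
noncomputable def tt652 : Tr := beta% (fun (c : Nat → Tr → Tr → Tr) (e : Tr) (z : Nat) (a b d : Nat → Nat) =>
 (c (a (nat_lit 0x10200200))
 (c (b (nat_lit 0xff05c01))
 (c z e
 (c z e
 (c z e
 (c (d (nat_lit 0xfd56a07)) e
 (c (nat_lit 0x800007ff947ff94800008000080000797ca) e
 (c (d (nat_lit 0xf73520c)) e e))))))
 (c (b (nat_lit 0xfdffe01)) e
 (c z e
 (c (nat_lit 0x7fece7fec7800008000080000fbf41) e
 (c (nat_lit 0x7fee87ff207ff207ff207ff20caa42) e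
 (c (nat_lit 0x7fc6c7fba77fc6c7fc6c7fc6c67243) e
 (c z e
 (c z e
 (c z e
 (c z e
 (c z e
 (c z e
 (c (b (nat_lit 0xff57006)) e
 (c (b (nat_lit 0xff29807)) e
 (c (b (nat_lit 0x101a0007)) e
 (c z e
 (c (b (nat_lit 0xfec7207)) e
 (c (nat_lit 0x7d6107d6107d6397d6397d639247c7) e
 (c (nat_lit 0x7e93b7e9327e92e7e93b7e93b3e94a) e
 (c (nat_lit 0x7e4367e4367e4357e4327e4367d84c) e
 (c (nat_lit 0x7e7eb7e7eb7e7de7e7d87e7deb8f8c) e
 (c (nat_lit 0x8000080000800007e6a17e6a1c322c) e e))))))))))))))))))))))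
 (c (a (nat_lit 0x101ffe00))
 (c (b (nat_lit 0xfe00c01)) e
 (c z e
 (c (nat_lit 0x7ffb18001180011800118001107722) e
 (c (nat_lit 0x7fc957fd34800008000080000e86e3) e
 (c z e
 (c z e
 (c z e
 (c z e
 (c z e
 (c (b (nat_lit 0xffc6205)) e
 (c z e
 (c (b (nat_lit 0xffb2407)) e
 (c (b (nat_lit 0x101b5c07)) e
 (c (b (nat_lit 0xff77207)) e
 (c z e
 (c z e
 (c (nat_lit 0x7f3357f31f7f3357f3357f335f51a9) e
 (c (nat_lit 0x7eb687eb667eb517eb687eb688f40a) e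
 (c (nat_lit 0x7eb9c7eb9c7eb8f7eb7c7eb9c58eac) e
 (c (nat_lit 0x7ef1e7ef1e7ef1e7ef147ef13806ac) e
 (c (nat_lit 0x8000080000800007ede67ede65d9ac) e e)))))))))))))))))))))
 (c (a (nat_lit 0x10200000))
 (c (nat_lit 0x7e6ac7e69a7e68d7e6ac7e6acc8d82)
 (c z e
 (c (d (nat_lit 0x10261222)) e e))
 (c (nat_lit 0x7e9f77e9f07e9d77e9d87e9f71daa3) e
 (c (b (nat_lit 0xff75003)) e
 (c z e
 (c z e
 (c z e
 (c z e
 (c z e
 (c (b (nat_lit 0xfd82806)) e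
 (c (b (nat_lit 0xfd5ac07)) e
 (c (b (nat_lit 0xffaea07)) e
 (c z e
 (c z e
 (c (b (nat_lit 0xffe5e07)) e
 (c (b (nat_lit 0xff5ce09)) e
 (c (nat_lit 0x7fc5e7fca17fca87fca87fca8dbb69) e
 (c (nat_lit 0x7fca57fc897fca57fca57fca58094a) e e)))))))))))))))))
 (c (a (nat_lit 0x101ffe00))
 (c (b (nat_lit 0xff06e03)) e
 (c (b (nat_lit 0x10053c03)) e
 (c z e
 (c z e
 (c z e
 (c z e
 (c z e
 (c (b (nat_lit 0xfccc007)) e
 (c (nat_lit 0x7fe817fe817fe817fe6e7fe81e9487) e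
 (c z e
 (c z e
 (c z e
 (c z e
 (c z e
 (c (b (nat_lit 0xff75809)) e e)))))))))))))))
 (c (a (nat_lit 0x101ff800))
 (c (b (nat_lit 0x1030e003)) e
 (c z e
 (c z e
 (c z e
 (c z e
 (c z e
 (c (nat_lit 0x7f7367f7367f6ed7f7367f736b0fe7) e
 (c z e
 (c z e
 (c (b (nat_lit 0xff93c07)) e
 (c (nat_lit 0x7f9df7f9df7f9de7f9df7f9dfd6129) e e)))))))))))
 (c (nat_lit 0x8100481002810028100203c20)
 (c z e
 (c z e
 (c z e
 (c z e
 (c (b (nat_lit 0x10231c07)) e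
 (c z e
 (c z e
 (c z e
 (c (nat_lit 0x80000800007ea607ea627ea620a0a8) e
 (c (nat_lit 0x8000080000800007eb127eb1b84528) e
 (c (nat_lit 0x800008000080000800007fb87176c8) e e)))))))))))
 (c (a (nat_lit 0x10200200))
 (c (nat_lit 0x7f5587f5467f5627f5627f56235646) e
 (c (b (nat_lit 0xfc87007)) e
 (c z e
 (c z e
 (c z e
 (c (b (nat_lit 0x10131c07)) e
 (c (nat_lit 0x7db247db247db1f7db247db24f4848) e
 (c (nat_lit 0x80000800007e5817e5837e583bac88) e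
 (c (nat_lit 0x8000080000800007e4f77e4fd88568) e e)))))))))
 (c (a (nat_lit 0x101ffc00))
 (c (b (nat_lit 0xfd77e07)) e
 (c (b (nat_lit 0x10451c07)) e
 (c z e
 (c (nat_lit 0x7fff380000800008000080000be847) e
 (c (nat_lit 0x7e5f67e5f67e5e87e5f67e5f66e528) e
 (c (nat_lit 0x7d4a57d4a37d4a57d4a57d4a568468) e
 (c (nat_lit 0x80000800007ebfa7ebfc7ec01257a8) e
 (c (nat_lit 0x8000080000800007ef197ef25381a8) e e))))))))
 (c (nat_lit 0x81001810018100181000f77d0)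
 (c z e
 (c z e
 (c (nat_lit 0x7cc4b7cc4b7cc307cc4b7cc4b66ac8) e
 (c (b (nat_lit 0xfd96208)) e
 (c (nat_lit 0x7ef277ef277ef267ef277ef27d1e88) e
 (c (nat_lit 0x80000800007f03a7f0327f03289608) e
 (c (nat_lit 0x8000080000800007f00a7f00094248) e
 (c (nat_lit 0x800008000080000800007fe6d9d988) e e))))))))
 (c (nat_lit 0x810008100080fff80fff20400)
 (c (nat_lit 0x72abd72aac72aa472abd72abdf9f88) e
 (c (b (nat_lit 0xfceae08)) e
 (c (b (nat_lit 0xfdf5008)) e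
 (c (nat_lit 0x7efd47efd47efd17efcb7efd4fb9c8) e
 (c (nat_lit 0x80000800007efdd7efcd7efc0e1888) e
 (c (nat_lit 0x8000080000800007efe17efcaea3a8) e
 (c (nat_lit 0x800008000080000800007fe61b5a28) e e)))))))
 (c (nat_lit 0x80ffe80fff80fff80fffd9160) e
 (c (nat_lit 0x81000810018100081000536c0) e
 (c (a (nat_lit 0x10200400)) e
 (c (a (nat_lit 0x101ff801)) e
 (c (a (nat_lit 0x101ff401)) e
 (c (nat_lit 0x801a0801a0801a08019f06061) e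
 (c (a (nat_lit 0x10074e01)) e
 (c (nat_lit 0x810b4810b6810b5810b67ce61) e
 (c (nat_lit 0x810e9810e9810e9810ea62bf2) e
 (c (nat_lit 0x810ef810ef810eb810ef9d1b3) e
 (c (a (nat_lit 0x101af403)) e
 (c (nat_lit 0x80e3c80e3d80e3d80e3c6ae93) e
 (c (nat_lit 0x803818038180381803823ef03) e
 (c (nat_lit 0x7f8807f87d7f87f7f87feef73) e
 (c z e
 (c (nat_lit 0x80b1d80b1d80b1d80b1c8bc35) e
 (c (a (nat_lit 0x100bd806)) e
 (c (a (nat_lit 0x1001b407)) e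
 (c (nat_lit 0x800df800df800de800d88d647) e
 (c (a (nat_lit 0xfff4607)) e
 (c (nat_lit 0x8026780267802b3802b2669a7) e
 (c (a (nat_lit 0xff91607)) e e))))))))))))))))))))))))))))))))) Tr.c Tr.e (nat_lit 0) C.t4 C.t5 C.t6
noncomputable def tt653 : Tr := beta% (fun (c : Nat → Tr → Tr → Tr) (e : Tr) (z : Nat) (a b : Nat → Nat) =>
 (c (a (nat_lit 0xfe00000))
 (c (nat_lit 0x8272b825138272b8272b8272b8272b88603) e
 (c z e
 (c z e
 (c z e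
 (c z e
 (c z e
 (c z e
 (c (b (nat_lit 0xf7d6806)) e
 (c z e
 (c z e
 (c z e
 (c z e
 (c z e
 (c z e
 (c z e
 (c z e
 (c z e
 (c z e
 (c (nat_lit 0x80000800008000080000800007f9877250d) e e)))))))))))))))))))
 (c (a (nat_lit 0xfe00200))
 (c z e
 (c z e
 (c z e
 (c z e
 (c z e
 (c z e
 (c z e
 (c z e
 (c z e
 (c z e
 (c z e
 (c z e
 (c z e
 (c (b (nat_lit 0xffe620b)) e e))))))))))))))
 (c (a (nat_lit 0xfdffc00)) e
 (c (a (nat_lit 0xfe00400))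
 (c z e
 (c z e
 (c z e
 (c z e
 (c z e
 (c z e
 (c z e
 (c z e
 (c z e
 (c (b (nat_lit 0xfff2c0b)) e e))))))))))
 (c (a (nat_lit 0xfe00400))
 (c z e
 (c z e
 (c z e
 (c (b (nat_lit 0xffef007)) e e))))
 (c (a (nat_lit 0xfe00a01))
 (c z e
 (c z e
 (c z e
 (c z e
 (c z e
 (c (nat_lit 0x80000800007ff8e7ff8e80000800004560b) e e))))))
 (c (a (nat_lit 0xfe00801)) e
 (c (nat_lit 0x7f0177f0177f0177f00b7f00d30b61)
 (c z e
 (c z e
 (c (b (nat_lit 0xffef211)) e e)))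
 (c z e
 (c (a (nat_lit 0xff13601)) e
 (c (nat_lit 0x7ee527ee527ee467ee527ee52b9ac2) e
 (c (nat_lit 0x7ec077ec077ec007ec047ec07f9563) e
 (c (nat_lit 0x7ec1b7ec1b7ec1b7ec127ec1b5dca3) e
 (c z e
 (c (a (nat_lit 0xff88403)) e
 (c (a (nat_lit 0xfee4e03)) e
 (c (a (nat_lit 0xfd89605)) e
 (c (a (nat_lit 0xfeff205)) e
 (c z e
 (c (a (nat_lit 0xffb5c07)) e
 (c (a (nat_lit 0xff3c207)) e
 (c z e
 (c z e
 (c z e
 (c z e
 (c z e
 (c (nat_lit 0x7fff880000800008000080000517cb) e e)))))))))))))))))))))))))))) Tr.c Tr.e (nat_lit 0) C.t5 C.t6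
noncomputable def tt654 : Tr := beta% (fun (c : Nat → Tr → Tr → Tr) (e : Tr) (z : Nat) (a b : Nat → Nat) =>
 (c (a (nat_lit 0xfe00a00))
 (c (b (nat_lit 0x101fe401)) e
 (c z e
 (c (nat_lit 0x82cde82d1582d1582d1582d1582d1576882) e
 (c (nat_lit 0x829718295f8297182971829718297115cc3) e
 (c (b (nat_lit 0x10614e03)) e
 (c z e
 (c z e
 (c z e
 (c z e
 (c z e
 (c z e
 (c z e
 (c z e
 (c z e
 (c z e
 (c z e
 (c z e
 (c (b (nat_lit 0xfff3c0b)) e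
 (c (b (nat_lit 0xf89620d)) e e)))))))))))))))))))
 (c (a (nat_lit 0xfe00400))
 (c (b (nat_lit 0x1058c202)) e
 (c (nat_lit 0x85579824e085579855618557985579f6bc3) e
 (c z e
 (c z e
 (c z e
 (c z e
 (c z e
 (c z e
 (c z e
 (c z e
 (c z e
 (c z e
 (c z e
 (c z e
 (c z e
 (c (b (nat_lit 0xfff9e0b)) e e))))))))))))))))
 (c (a (nat_lit 0xfe00400))
 (c (nat_lit 0x82652824d782652826528265282652ddd03) e
 (c z e
 (c z e
 (c z e
 (c z e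
 (c z e
 (c z e
 (c z e
 (c z e
 (c z e
 (c z e
 (c z e
 (c z e
 (c (b (nat_lit 0xfffe60b)) e e))))))))))))))
 (c (a (nat_lit 0xfdffc00))
 (c z e
 (c z e
 (c z e
 (c z e
 (c (nat_lit 0x800007ff467ff468000080000800007d986) e e)))))
 (c (a (nat_lit 0xfe00400))
 (c z e
 (c z e
 (c z e
 (c z e
 (c z e
 (c z e
 (c z e
 (c z e
 (c z e
 (c (b (nat_lit 0xfaea20b)) e
 (c (b (nat_lit 0xfd7920d)) e
 (c (b (nat_lit 0xfad680d)) e e))))))))))))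
 (c (a (nat_lit 0xfe00800))
 (c z e
 (c z e
 (c z e
 (c z e
 (c z e
 (c z e
 (c z e
 (c z e
 (c z e
 (c (b (nat_lit 0xfff0a0d)) e e))))))))))
 (c (a (nat_lit 0xfe00200)) e
 (c (a (nat_lit 0xfe01201)) e
 (c (a (nat_lit 0xfe00c01)) e
 (c (nat_lit 0x7f0097f0097f0097f0087f00950ec1) e
 (c (a (nat_lit 0xfd95001)) e
 (c (nat_lit 0x7e6e57e6dd7e6e57e6e57e6e591341) e
 (c (nat_lit 0x7e49f7e4917e4897e49f7e49f7fba2) e
 (c (nat_lit 0x7e4977e22c7e4977e4977e49756363) e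
 (c z e
 (c z e
 (c z e
 (c (a (nat_lit 0xff4b403)) e
 (c (a (nat_lit 0xff01205)) e
 (c z e
 (c z e
 (c (a (nat_lit 0xfef2a07)) e
 (c (nat_lit 0x7f81d7f81d7f8197f81d7f81dac447) e
 (c z e
 (c z e
 (c z e
 (c z e
 (c z e
 (c z e
 (c (a (nat_lit 0xfeb020d)) e e))))))))))))))))))))))))))))))) Tr.c Tr.e (nat_lit 0) C.t5 C.t6
noncomputable def tt655 : Tr := beta% (fun (c : Nat → Tr → Tr → Tr) (e : Tr) (z : Nat) (a b d : Nat → Nat) =>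
 (c (a (nat_lit 0xfe01200))
 (c (b (nat_lit 0x101fa801))
 (c z e
 (c z e
 (c z e
 (c z e
 (c z e
 (c z e
 (c (d (nat_lit 0xfa47207)) e
 (c (d (nat_lit 0xf989007)) e e))))))))
 (c (nat_lit 0x80ff480ff480ff380ff280ff180ff32b841) e
 (c (nat_lit 0x80ffa80ffa80ffa80ff880ff880ff86bc41) e
 (c z e
 (c z e
 (c (b (nat_lit 0x10534e02)) e
 (c (b (nat_lit 0x1024a203)) e
 (c (nat_lit 0x80e4080e4080ba380e4080e4080e4014c83) e
 (c (b (nat_lit 0x10302c03)) e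
 (c z e
 (c z e
 (c z e
 (c z e
 (c (b (nat_lit 0xfdefe06)) e
 (c z e
 (c z e
 (c z e
 (c z e
 (c (b (nat_lit 0xffe3207)) e
 (c (b (nat_lit 0x100b020b)) e
 (c z e
 (c z e
 (c (nat_lit 0x800007ffca7ffca8000080000800003068e) e e)))))))))))))))))))))))
 (c (a (nat_lit 0xfe00a00))
 (c (nat_lit 0x80ff580ff580ff580ff480ff480ff51ca41) e
 (c (nat_lit 0x80ffb80ffb80ffb80ffb80ff980ffa09a41) e
 (c z e
 (c (b (nat_lit 0x10671e02)) e
 (c (nat_lit 0x82664826428266482664826648266445d43) e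
 (c z e
 (c z e
 (c z e
 (c z e
 (c z e
 (c z e
 (c z e
 (c z e
 (c z e
 (c z e
 (c (b (nat_lit 0xff88207)) e e))))))))))))))))
 (c (a (nat_lit 0xfe00200))
 (c z e
 (c z e
 (c (nat_lit 0x821bc8215c821bc821bc821bc821bccc5c3) e
 (c (b (nat_lit 0x10503003)) e
 (c z e
 (c z e
 (c z e
 (c z e
 (c z e
 (c z e
 (c z e
 (c z e
 (c z e
 (c z e
 (c z e
 (c (b (nat_lit 0xfd4540b)) e
 (c (b (nat_lit 0xffffe0d)) e e)))))))))))))))))
 (c (a (nat_lit 0xfe00200))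
 (c (nat_lit 0x8405284052840528403a840528405299fc3) e
 (c z e
 (c z e
 (c z e
 (c z e
 (c z e
 (c z e
 (c z e
 (c z e
 (c z e
 (c (b (nat_lit 0xfffec07)) e
 (c z e
 (c z e
 (c z e
 (c (b (nat_lit 0xff0840d)) e
 (c (b (nat_lit 0xff9e60d)) e
 (c (nat_lit 0x7fd747fd7480000800008000080000e9d4e) e e)))))))))))))))))
 (c (a (nat_lit 0xfe00600)) e
 (c (a (nat_lit 0xfe00600))
 (c z e
 (c z e
 (c z e
 (c z e
 (c z e
 (c z e
 (c z e
 (c z e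
 (c z e
 (c (b (nat_lit 0xfff7e0b)) e e))))))))))
 (c (a (nat_lit 0xfe00600))
 (c z e
 (c z e
 (c z e
 (c z e
 (c z e
 (c z e
 (c z e
 (c z e
 (c (b (nat_lit 0xfff7a0d)) e e)))))))))
 (c (a (nat_lit 0xfe00600))
 (c z e
 (c (nat_lit 0x80000800007fffc800008000080000d5c87) e
 (c z e
 (c z e
 (c z e
 (c z e
 (c z e
 (c z e
 (c (nat_lit 0x80aff8092780aff80aff80aff80aff4260e) e e)))))))))
 (c (a (nat_lit 0xfe01400))
 (c (nat_lit 0x8000080000800007ffb67ffb58000042ec7) e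
 (c z e
 (c z e
 (c z e
 (c (b (nat_lit 0xff5ec0d)) e e)))))
 (c (nat_lit 0x7f00e7f00d7f00d7f00d7f00ee8601)
 (c z e
 (c (b (nat_lit 0xffe460b)) e e))
 (c (a (nat_lit 0xfdffa01)) e
 (c (a (nat_lit 0xfe00e01)) e
 (c z e
 (c z e
 (c (nat_lit 0x7df687df687df617df687df68a6fc2) e
 (c (nat_lit 0x7ef607ef607ef537ef4e7ef6043803) e
 (c (a (nat_lit 0xff3ca03)) e
 (c z e
 (c z e
 (c (a (nat_lit 0xff5e603)) e
 (c z e
 (c (a (nat_lit 0xff6b605)) e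
 (c (a (nat_lit 0xfefca06)) e
 (c (a (nat_lit 0xfe23207)) e
 (c (a (nat_lit 0xfe23207)) e
 (c (nat_lit 0x7fd1d7fd1d7fcba7fcba7fcba5e927) e
 (c z e
 (c z e
 (c z e
 (c z e
 (c (nat_lit 0x7fb1f7fb1f7fbd57fbd57fbd59d26d) e
 (c (nat_lit 0x7fb297fb0c7fb297fb297fb295218e) e e))))))))))))))))))))))))))))))))) Tr.c Tr.e (nat_lit 0) C.t5 C.t6 C.t7
noncomputable def tt656 : Tr := beta% (fun (c : Nat → Tr → Tr → Tr) (e : Tr) (z : Nat) (a b d : Nat → Nat) =>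
 (c (a (nat_lit 0xfe00c00))
 (c (b (nat_lit 0x101f5400))
 (c (nat_lit 0x822be822be822be8225b822be822be822bed6e03) e
 (c z e
 (c z e
 (c z e
 (c z e
 (c z e
 (c (d (nat_lit 0xe9c2207)) e
 (c z e
 (c z e
 (c z e
 (c (d (nat_lit 0xfff3207)) e e)))))))))))
 (c (nat_lit 0x80ff080fec80fec80fec80fec80fed3c401) e
 (c (nat_lit 0x8100a8100a81003810038100481004a2381) e
 (c (b (nat_lit 0x101ffa01)) e
 (c (b (nat_lit 0x101fe001)) e
 (c z e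
 (c (b (nat_lit 0x1044e402)) e
 (c (nat_lit 0x805b1805af805ad80593805b1805b129cc3)
 (c (d (nat_lit 0xff62016)) e e)
 (c z e
 (c z e
 (c z e
 (c z e
 (c z e
 (c z e
 (c z e
 (c (b (nat_lit 0x101a6a07)) e
 (c (b (nat_lit 0x10042807)) e
 (c (b (nat_lit 0x100a8207)) e
 (c z e
 (c z e
 (c z e
 (c z e
 (c (nat_lit 0x7ff247ff248000080000800008000033c4e) e
 (c (nat_lit 0x8096980969808ca8096980969809692e656) e e))))))))))))))))))))))))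
 (c (a (nat_lit 0xfe00c00))
 (c (b (nat_lit 0x101fae01))
 (c z e
 (c z e
 (c z e
 (c z e
 (c z e
 (c (d (nat_lit 0xffce007)) e e))))))
 (c (b (nat_lit 0x101ff801)) e
 (c (b (nat_lit 0x101fee01)) e
 (c z e
 (c (b (nat_lit 0x10369202)) e
 (c z e
 (c (b (nat_lit 0x100bd603)) e
 (c z e
 (c z e
 (c z e
 (c z e
 (c z e
 (c z e
 (c z e
 (c z e
 (c z e
 (c z e
 (c z e
 (c z e
 (c z e
 (c (b (nat_lit 0xffd320e)) e e)))))))))))))))))))))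
 (c (a (nat_lit 0xfdff400))
 (c (nat_lit 0x810118101181011810118100e810107af01)
 (c z e
 (c z e
 (c z e
 (c z e
 (c (d (nat_lit 0xfff9e07)) e e)))))
 (c z e
 (c (nat_lit 0x82b6082b8682b8682b8682b8682b868a102) e
 (c (nat_lit 0x82aa182a8f82aa182aa182aa182aa1d9243) e
 (c (nat_lit 0x81daa81daa81cfb81daa81daa81daa7c883) e
 (c (nat_lit 0x8165b8165b8165b815708165b8165b12283) e
 (c z e
 (c z e
 (c z e
 (c (b (nat_lit 0xf7b6c05)) e
 (c z e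
 (c z e
 (c z e
 (c z e
 (c z e
 (c z e
 (c (b (nat_lit 0xffd5c0d)) e e)))))))))))))))))
 (c (a (nat_lit 0xfe00000))
 (c z e
 (c (b (nat_lit 0x10308603)) e
 (c z e
 (c z e
 (c z e
 (c z e
 (c (b (nat_lit 0xfd31805)) e
 (c (b (nat_lit 0xfafd205)) e
 (c (b (nat_lit 0xf8d1c06)) e
 (c z e
 (c z e
 (c z e
 (c z e
 (c (b (nat_lit 0x10253607)) e e))))))))))))))
 (c (a (nat_lit 0xfe00600))
 (c z e
 (c z e
 (c z e
 (c z e
 (c z e
 (c (b (nat_lit 0xfe77205)) e e))))))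
 (c (a (nat_lit 0xfdffa00)) e
 (c (a (nat_lit 0xfe01000))
 (c z e
 (c z e
 (c z e
 (c z e
 (c z e
 (c z e
 (c z e
 (c z e
 (c z e
 (c z e
 (c (b (nat_lit 0x100b500e)) e
 (c (b (nat_lit 0x10156014)) e e))))))))))))
 (c (a (nat_lit 0xfe00a00))
 (c (nat_lit 0x823cc8245682456824568245682456edb06) e
 (c (b (nat_lit 0x10157a07)) e
 (c z e
 (c z e
 (c z e
 (c z e
 (c z e
 (c z e
 (c z e
 (c z e
 (c (nat_lit 0x800008000080000800007ff648000022192) e e)))))))))))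
 (c (a (nat_lit 0xfe00600))
 (c (nat_lit 0x80000800007ffda7ff987fff68000045d47) e
 (c z e
 (c z e
 (c z e
 (c z e
 (c z e
 (c z e
 (c (nat_lit 0x810448104481044810448104480d5fbc512) e e))))))))
 (c (a (nat_lit 0xfe01800))
 (c z e
 (c z e
 (c z e
 (c (b (nat_lit 0xfffb00d)) e e))))
 (c (a (nat_lit 0xfdfe201)) e
 (c (a (nat_lit 0xfdfde01))
 (c z e
 (c (nat_lit 0x800008000080000817268172681726f5fe0) e e))
 (c (nat_lit 0x7f01e7f01e7f01e7f0057f0079a6c1) e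
 (c (a (nat_lit 0xfc8ec01)) e
 (c (a (nat_lit 0xfbc2201)) e
 (c (nat_lit 0x7ee487ee297ee217ee487ee4888942) e
 (c (nat_lit 0x7ee217ee217ee1e7ee207ee2130603) e
 (c (nat_lit 0x7ee4d7ee4d7ee4d7ee327ee3cc4c83) e
 (c (a (nat_lit 0xffd4403)) e
 (c z e
 (c z e
 (c (a (nat_lit 0xffc9405)) e
 (c (a (nat_lit 0xfed2a05)) e
 (c (nat_lit 0x7f4327f42e7f4487f4487f44884e06) e
 (c (nat_lit 0x7f4227f4227f41e7f4227f42289527) e
 (c (a (nat_lit 0xff56407)) e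
 (c (nat_lit 0x7f9947f9947f9947f9947f9532e707) e
 (c z e
 (c z e
 (c (nat_lit 0x7fc4c7fc5d7fc5d7fc5d7fc5d470ad) e
 (c (a (nat_lit 0xfea860d)) e
 (c (a (nat_lit 0xff5840e)) e e))))))))))))))))))))))))))))))))) Tr.c Tr.e (nat_lit 0) C.t5 C.t6 C.t7
noncomputable def tt657 : Tr := beta% (fun (c : Nat → Tr → Tr → Tr) (e : Tr) (z : Nat) (a b : Nat → Nat) =>
 (c (a (nat_lit 0x101bb800))
 (c (b (nat_lit 0xe09cc02)) e
 (c (b (nat_lit 0xf51e603)) e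
 (c (nat_lit 0x7e40f7e40f7e33e7e40f7e40f7e40f7e40f9c003) e
 (c z e
 (c z e
 (c z e
 (c z e
 (c z e
 (c (nat_lit 0x837c6837c6836b8837c6837c6837c6837c6cbe86) e
 (c z e
 (c (b (nat_lit 0x10721807)) e
 (c (b (nat_lit 0x11000007)) e
 (c z e
 (c (nat_lit 0x7feba800008000080000800008000080000cc987) e
 (c z e
 (c z e
 (c (b (nat_lit 0xff9240e)) e e)))))))))))))))))
 (c (a (nat_lit 0x101f6600))
 (c (nat_lit 0x7f7247f7247f5ee7f7247f7247f7247f724be303) e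
 (c z e
 (c z e
 (c z e
 (c z e
 (c z e
 (c z e
 (c (b (nat_lit 0xfd16407)) e
 (c (b (nat_lit 0x103b0a07)) e
 (c z e
 (c z e
 (c z e
 (c z e
 (c z e
 (c (b (nat_lit 0xfe6140e)) e
 (c (b (nat_lit 0xff47426)) e e))))))))))))))))
 (c (a (nat_lit 0x101f6e00)) e
 (c (nat_lit 0x810168100f8100e8100c8100f8100fd5601)
 (c z e
 (c z e
 (c (b (nat_lit 0xf8d4606)) e
 (c z e
 (c (b (nat_lit 0xfff9807)) e
 (c z e
 (c (b (nat_lit 0xffd7207)) e e)))))))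
 (c (nat_lit 0x80ffd80ffd80ffd80ffd80ffb80ffd3ce41) e
 (c (a (nat_lit 0x101a7401)) e
 (c z e
 (c z e
 (c z
 (c (b (nat_lit 0xf57fc0e)) e e)
 (c z e
 (c z e
 (c (a (nat_lit 0x101cd403)) e
 (c z e
 (c z e
 (c z e
 (c z e
 (c (a (nat_lit 0x10288006)) e
 (c (nat_lit 0x815a9815a9815a9814a6815a9815a9f5fc7) e
 (c (a (nat_lit 0x102ac407)) e
 (c z e
 (c z e
 (c z e
 (c (a (nat_lit 0xffc860d)) e
 (c (nat_lit 0x80000800007ffc480000800008000011d4d) e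
 (c z e
 (c z e
 (c (nat_lit 0x80000800008000080000800007fef667bce) e e)))))))))))))))))))))))))))) Tr.c Tr.e (nat_lit 0) C.t6 C.t7
noncomputable def tt658 : Tr := beta% (fun (c : Nat → Tr → Tr → Tr) (e : Tr) (z : Nat) (a b d : Nat → Nat) =>
 (c (a (nat_lit 0x10200000))
 (c (b (nat_lit 0xfe00800)) tt657 tt656)
 (c (a (nat_lit 0x101ffc00)) tt655
 (c (a (nat_lit 0x10200000)) tt654
 (c (a (nat_lit 0x10200200)) tt653
 (c (a (nat_lit 0x10200200))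
 (c (b (nat_lit 0xfdff800))
 (c z e
 (c z e
 (c z e
 (c z e
 (c (d (nat_lit 0xfffdc06)) e e)))))
 (c (b (nat_lit 0xfe00200)) e
 (c (b (nat_lit 0xfdffa00)) e
 (c (b (nat_lit 0xfe00401)) e
 (c (b (nat_lit 0xfdffe01)) e
 (c (b (nat_lit 0xfe00601))
 (c (d (nat_lit 0x106af20b)) e e)
 (c (b (nat_lit 0xfea1201)) e
 (c z e
 (c (nat_lit 0x7f8dd7f8dd7f8da7f8dd7f8dd486c2) e
 (c (nat_lit 0x7ee5f7ee5f7ee5f7ee597ee5f20983) e
 (c z e
 (c z e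
 (c z e
 (c (b (nat_lit 0xfece403)) e
 (c (b (nat_lit 0xff4de05)) e
 (c (b (nat_lit 0xfe8e805)) e
 (c (b (nat_lit 0xfeec806)) e
 (c z e
 (c z e
 (c z e
 (c z e
 (c z e
 (c z e
 (c z e
 (c (b (nat_lit 0xff6700b)) e e)))))))))))))))))))))))))
 (c (a (nat_lit 0x10200000))
 (c (b (nat_lit 0xfed0a00)) e
 (c (nat_lit 0x7f0007f0007f0007efff7f0006e5c1) e
 (c (b (nat_lit 0xfe00401)) e
 (c (b (nat_lit 0xfe00601)) e
 (c z e
 (c z e
 (c (b (nat_lit 0xff85802)) e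
 (c (nat_lit 0x7f6997f6997f6987f6997f699d1183) e
 (c (nat_lit 0x7ec4d7ec4d7ec4d7ec017ec4d0c603) e
 (c z e
 (c z e
 (c (b (nat_lit 0xff65203)) e
 (c z e
 (c (b (nat_lit 0xff1de05)) e
 (c z e
 (c (b (nat_lit 0xff07007)) e
 (c (b (nat_lit 0x10276e07)) e
 (c z e
 (c z e
 (c (nat_lit 0x7ffd67ffd67ffd67fffc7fffce50e7) e
 (c (nat_lit 0x7ea1c7ea1c7ea1a7ea1c7ea1cc2c2c) e
 (c (b (nat_lit 0xfeffa0c)) e
 (c (nat_lit 0x8000080000800007f6f27f6f21d4ab) e e))))))))))))))))))))))) tt652))))))) Tr.c Tr.e (nat_lit 0) C.t4 C.t5 C.t6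
noncomputable def tt659 : Tr := beta% (fun (c : Nat → Tr → Tr → Tr) (e : Tr) (z : Nat) (a b : Nat → Nat) =>
 (c (a (nat_lit 0x10200000))
 (c (b (nat_lit 0xfe00801)) e
 (c z e
 (c z e
 (c (nat_lit 0x7fee87fec87febf7ff087ff08220e2) e
 (c (nat_lit 0x7fbf97fbd07fbed7fbef7fbf9f9f63) e
 (c z e
 (c z e
 (c z e
 (c z e
 (c (nat_lit 0x7cf267cfbf7cfbf7cfbf7cfbf30b05) e
 (c (nat_lit 0x7cfa27cf087cfa27cfa27cfa21ac66) e
 (c (b (nat_lit 0xfce1c07)) e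
 (c z e
 (c z e
 (c z e
 (c z e
 (c z e
 (c z e
 (c (nat_lit 0x7ff637ffbb7ffc77ffc77ffc7279aa) e
 (c (nat_lit 0x80000800007ffd38000080000d930c) e e))))))))))))))))))))
 (c (a (nat_lit 0x10200000))
 (c (nat_lit 0x7e4c87e4c37e4d17e4d17e4d132ec1) e
 (c (nat_lit 0x7e7cd7e7de7e7de7e7de7e7de995a2) e
 (c (b (nat_lit 0xfc8ce03)) e
 (c z e
 (c z e
 (c z e
 (c z e
 (c (nat_lit 0x84ad784ae884ae884ae884ae8ba805) e
 (c (nat_lit 0x7fbb07fb8f7fbb07fbb07fbb0100e6) e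
 (c (nat_lit 0x80000800007ffbf8000080000cbf27) e
 (c (b (nat_lit 0x10071807)) e
 (c (b (nat_lit 0xff7da07)) e
 (c z e
 (c (b (nat_lit 0xfe02007)) e
 (c z e
 (c z e
 (c z e
 (c (nat_lit 0x7ff127fefe7ff127ff127ff12fb02a) e
 (c (b (nat_lit 0xffe540c)) e e)))))))))))))))))))
 (c (a (nat_lit 0x101ff400))
 (c (b (nat_lit 0xfd6dc03)) e
 (c (b (nat_lit 0xfed0603)) e
 (c (b (nat_lit 0xfe95c03)) e
 (c z e
 (c z e
 (c z e
 (c (nat_lit 0x813cf8101281012813cf813cf25d86) e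
 (c (nat_lit 0x7ea107ea107e9f57ea107ea10666a7) e
 (c (nat_lit 0x7fde77fde77fde77fd997fde7edf87) e
 (c (b (nat_lit 0xffdf607)) e
 (c z e
 (c (nat_lit 0x7f5567f5707f5757f5757f575b5127) e
 (c (b (nat_lit 0xff9b609)) e
 (c z e
 (c (nat_lit 0x7fe8780000800008000080000a4469) e
 (c (nat_lit 0x7ffba7ffba8000080000800007f169) e
 (c (nat_lit 0x7ffab7ffab7ff7b7ffae7ffaedd40a) e e)))))))))))))))))
 (c (a (nat_lit 0x101ff800))
 (c z e
 (c z e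
 (c z e
 (c (b (nat_lit 0xfb79205)) e
 (c z e
 (c z e
 (c (nat_lit 0x80000800007fff2800008000030d07) e
 (c z e
 (c z e
 (c (nat_lit 0x7f70b7f6f57f7947f7947f794972c7) e
 (c (b (nat_lit 0xffd5809)) e
 (c (nat_lit 0x7f8d67f8d67f8d67f8d57f8d60dae9) e
 (c (b (nat_lit 0xffcfe09)) e
 (c (b (nat_lit 0xff8b609)) e
 (c (b (nat_lit 0xffd4e09)) e e)))))))))))))))
 (c (nat_lit 0x810018100081000810005d550)
 (c z e
 (c (b (nat_lit 0xfc78a05)) e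
 (c z e
 (c (b (nat_lit 0x1008e407)) e
 (c z e
 (c z e
 (c z e
 (c (nat_lit 0x7e0797e09a7e0c17e0c17e0c1a2b27) e
 (c (nat_lit 0x7f4757f44d7f4757f4757f47504da8) e
 (c (nat_lit 0x80000800007f9c47f9c37f9cd251c8) e
 (c (nat_lit 0x8000080000800007fa0d7fa0dcf608) e e)))))))))))
 (c (a (nat_lit 0x101ffa00))
 (c (b (nat_lit 0xfe6b806)) e
 (c z e
 (c z e
 (c z e
 (c z e
 (c (nat_lit 0x7e97a7ea4b7ea4b7ea4b7ea4b6b707) e
 (c (b (nat_lit 0xfd5be08)) e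
 (c (nat_lit 0x7ecc47ecbe7ecc47ecc47ecc4dfa28) e
 (c (nat_lit 0x80000800007ebcc7ebd77ebd7e29e8) e
 (c (nat_lit 0x8000080000800007fcd97fce5fc108) e e))))))))))
 (c (a (nat_lit 0x101ffa00))
 (c (nat_lit 0x807e4807e4807c5807e4807e461267) e
 (c z e
 (c z e
 (c (nat_lit 0x7ba4e7ba3e7ba857ba857ba85caae7) e
 (c (nat_lit 0x7c2587c20d7c2587c2587c258506a8) e
 (c (nat_lit 0x7c5ac7c5a87c5ab7c5ad7c5ad28ba8) e
 (c (nat_lit 0x7ecbc7ecbc7ecb87ecb87ecbc27d88) e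
 (c (nat_lit 0x80000800007ef6d7ef6d7ef6d450c8) e
 (c (nat_lit 0x8000080000800007f2a47f2a443f68) e
 (c (nat_lit 0x800008000080000800007f6b0c3188) e e))))))))))
 (c (a (nat_lit 0x10200000))
 (c z e
 (c (nat_lit 0x769c9769b9769c9769c9769c9290e7) e
 (c (nat_lit 0x7b8887b8887b87e7b8887b888aa008) e
 (c (b (nat_lit 0xfc5ce08)) e
 (c (b (nat_lit 0xfe87608)) e
 (c (nat_lit 0x7f1497f1497f1497f1457f14949008) e
 (c (nat_lit 0x80000800007effd7effd7effa66008) e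
 (c (nat_lit 0x8000080000800007eff07eff2de0a8) e
 (c (nat_lit 0x800008000080000800007f8107d6c8) e e)))))))))
 (c (a (nat_lit 0x101ffe00))
 (c (nat_lit 0x72b7072b5872b5972b7072b70cfa08) e
 (c (b (nat_lit 0xfae8808)) e
 (c (nat_lit 0x7ef407ef437ef437ef437ef43bcd88) e
 (c (nat_lit 0x7f0a87f0ab7f0ae7f0ae7f0aecd508) e
 (c (nat_lit 0x7efb37efac7efb17efb37efb34eae8) e
 (c (nat_lit 0x80000800007efa17efa37efa546708) e
 (c (nat_lit 0x8000080000800007efa37efa652c28) e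
 (c (nat_lit 0x800008000080000800007f7f4217c8) e e))))))))
 (c (a (nat_lit 0x10200000)) e
 (c (a (nat_lit 0x101ffc00)) e
 (c (a (nat_lit 0x10200000)) e
 (c (a (nat_lit 0x101ffc00)) e
 (c (a (nat_lit 0x101ff801)) e
 (c (nat_lit 0x8100080fff8100081000b6451) e
 (c (a (nat_lit 0x100f9a01)) e
 (c (nat_lit 0x80391803928039280392df711) e
 (c (a (nat_lit 0x10111e01)) e
 (c (nat_lit 0x80f3280f3580f3a80f3a9bbf2) e
 (c (nat_lit 0x80f2580f2580f2580f24d9e83) e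
 (c (nat_lit 0x80dfb80dfb80dfa80dfa264b3) e
 (c (nat_lit 0x80dbb80dba80dba80db9aa443) e
 (c (nat_lit 0x803318032f8033080330c1ad3) e
 (c (nat_lit 0x801eb801ea801ea801ea33733) e
 (c (nat_lit 0x8098780982809858098758155) e
 (c (nat_lit 0x8075780757807578075856366) e
 (c (nat_lit 0x8023980239802398023a870f7) e
 (c (nat_lit 0x80237802378023680236654b7) e
 (c (nat_lit 0x7fd357fd377fd377fd3841d37) e
 (c (nat_lit 0x803b0803b0803af803afc1a67) e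
 (c (nat_lit 0x7fb2d7fb2c7fb2c7fb2c29ad7) e e)))))))))))))))))))))))))))))))) Tr.c Tr.e (nat_lit 0) C.t4 C.t5
noncomputable def tt660 : Tr := beta% (fun (c : Nat → Tr → Tr → Tr) (e : Tr) (z : Nat) (a b d : Nat → Nat) =>
 (c (a (nat_lit 0xfdffe00))
 (c (b (nat_lit 0x10fa2c03))
 (c z e
 (c z e
 (c (d (nat_lit 0xfffee0b)) e e)))
 (c z
 (c (d (nat_lit 0xfff820b)) e e)
 (c z e
 (c (nat_lit 0x7de067dd107ddfc7de067de067de0646ec5) e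
 (c z e
 (c z e
 (c z e
 (c z e
 (c z e
 (c z e
 (c z e
 (c z e
 (c (b (nat_lit 0x101e980b)) e e)))))))))))))
 (c (a (nat_lit 0xfe00000))
 (c z e
 (c z e
 (c z e
 (c z e
 (c z e
 (c z e
 (c z e
 (c z e
 (c (nat_lit 0x7dd4a7dcfd7dd4a7dd4a7dd4a7dd4aea74b) e e)))))))))
 (c (a (nat_lit 0xfdffc00))
 (c (b (nat_lit 0xf672206)) e e)
 (c (a (nat_lit 0xfe00400)) e
 (c (a (nat_lit 0xfdffe01)) e
 (c (a (nat_lit 0xfe01401))
 (c (b (nat_lit 0x104cd40b)) e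
 (c (b (nat_lit 0x103ec20b)) e e))
 (c (a (nat_lit 0xfe00c01)) e
 (c (nat_lit 0x7f05e7f05e7f05e7f05e7f00ac9a41) e
 (c (a (nat_lit 0xff14001)) e
 (c (a (nat_lit 0xfd8be02)) e
 (c (nat_lit 0x7ea137ea107ea117ea137ea1347943) e
 (c z e
 (c (a (nat_lit 0x102c4c03)) e
 (c (a (nat_lit 0xffd2803)) e
 (c (a (nat_lit 0xff86a03)) e
 (c (a (nat_lit 0xfde5605)) e
 (c (a (nat_lit 0xfcf7806)) e
 (c (a (nat_lit 0xff79e07)) e
 (c (a (nat_lit 0xffda607)) e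
 (c z e
 (c z e
 (c (a (nat_lit 0xfce7407)) e
 (c (nat_lit 0x7f4927f5507f56b7f56b7f56b3c0cb) e
 (c (nat_lit 0x7f3057f2337f3037f3057f305f40cb) e
 (c (a (nat_lit 0xff3160b)) e e)))))))))))))))))))))))))) Tr.c Tr.e (nat_lit 0) C.t5 C.t6 C.t7
noncomputable def tt661 : Tr := beta% (fun (c : Nat → Tr → Tr → Tr) (e : Tr) (z : Nat) (a b : Nat → Nat) =>
 (c (a (nat_lit 0xfe00600))
 (c z e
 (c z e
 (c z e
 (c z e
 (c z e
 (c (b (nat_lit 0x10205c03)) e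
 (c (b (nat_lit 0x1021f805)) e
 (c z e
 (c z e
 (c z e
 (c z e
 (c (b (nat_lit 0xfa5ba07)) e
 (c z e
 (c (b (nat_lit 0xfe5980b)) e e))))))))))))))
 (c (a (nat_lit 0xfe00600))
 (c (nat_lit 0x800007fecd80000800008000080000dd143) e e)
 (c (a (nat_lit 0xfdffe00))
 (c z e
 (c z e
 (c z e
 (c z e
 (c z e
 (c z e
 (c z e
 (c z e
 (c z e
 (c z e
 (c z e
 (c (b (nat_lit 0xfff600b)) e e))))))))))))
 (c (nat_lit 0x7f0087f0077f0077f0077f0075f8c0)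
 (c z e
 (c z e
 (c z e
 (c z e
 (c z e
 (c z e
 (c z e
 (c z e
 (c z e
 (c z e
 (c (b (nat_lit 0xfe1d40b)) e e)))))))))))
 (c (a (nat_lit 0xfe00200)) e
 (c (a (nat_lit 0xfe00c00)) e
 (c (a (nat_lit 0xfe01801)) e
 (c (nat_lit 0x7f00c7f00c7f00a7f00a7f00ada0a1)
 (c (nat_lit 0x80000800007fd89800008000080000ca64b) e e)
 (c (nat_lit 0x7efb97f0067f0067f0047f005fd761) e
 (c (a (nat_lit 0xfe50c01)) e
 (c (a (nat_lit 0xfb77001)) e
 (c (nat_lit 0x7e2617e25e7e25a7e2617e261aada2) e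
 (c (nat_lit 0x7e2897dffb7e2647e2687e2891aa03) e
 (c (a (nat_lit 0x101bae03)) e
 (c z e
 (c z e
 (c z e
 (c (a (nat_lit 0xff57805)) e
 (c (a (nat_lit 0xfe8a606)) e
 (c (a (nat_lit 0x1001fa07)) e
 (c z e
 (c (a (nat_lit 0xff8e207)) e
 (c z e
 (c (a (nat_lit 0xfd05e07)) e
 (c (nat_lit 0x7e9f27e9f27e9ef7e9f27e9f236eeb) e
 (c z e
 (c z e
 (c (nat_lit 0x7ffd97ffd980000800007fff2c9fab) e
 (c (a (nat_lit 0xfcd560d)) e e)))))))))))))))))))))))))))))) Tr.c Tr.e (nat_lit 0) C.t5 C.t6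
noncomputable def tt662 : Tr := beta% (fun (c : Nat → Tr → Tr → Tr) (e : Tr) (z : Nat) (a b : Nat → Nat) =>
 (c (a (nat_lit 0xfe00e00))
 (c (b (nat_lit 0x101fe201)) e
 (c (b (nat_lit 0x101fea01)) e
 (c (b (nat_lit 0xf29d001))
 (c z e
 (c z e
 (c z e
 (c z e
 (c z e
 (c z e
 (c (nat_lit 0x800008000080000800007f9d28000080000b658d) e e)))))))
 (c (nat_lit 0x84566845638455a845668456684566ac142) e
 (c (b (nat_lit 0x10568003)) e
 (c (nat_lit 0x82c9582c9582c9582c7982c9582c951cc03) e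
 (c (nat_lit 0x81707817078170781707816aa816b84ff83) e
 (c z e
 (c z e
 (c z e
 (c (b (nat_lit 0xff86806)) e e)))))))))))
 (c (a (nat_lit 0xfe00a00))
 (c z e
 (c z e
 (c (b (nat_lit 0x10516403)) e e)))
 (c (nat_lit 0x7f0087f0077f0067f0077f0098a080)
 (c (nat_lit 0x838ee837cf838ee838ee838ee838ee9b843) e
 (c z e
 (c z e
 (c z e
 (c z e
 (c z e
 (c z e
 (c z e
 (c z e
 (c z e
 (c z e
 (c z e
 (c (b (nat_lit 0xff4120b)) e
 (c (b (nat_lit 0xffa840b)) e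
 (c (b (nat_lit 0xffc8a0b)) e e)))))))))))))))
 (c (a (nat_lit 0xfe00000))
 (c z e
 (c z e
 (c z e
 (c z e
 (c z e
 (c z e
 (c z e
 (c z e
 (c z e
 (c z e
 (c z e
 (c z e
 (c (b (nat_lit 0xfd9b00b)) e e)))))))))))))
 (c (a (nat_lit 0xfe00800)) e
 (c (a (nat_lit 0xfe00a00))
 (c z e
 (c (b (nat_lit 0xfe6c007)) e
 (c z e
 (c z e
 (c z e
 (c z e
 (c z e
 (c z e
 (c (b (nat_lit 0xfff100b)) e e)))))))))
 (c (a (nat_lit 0xfe00800)) e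
 (c (nat_lit 0x7f00b7f00b7f00b7f00b7f00caa8a0) e
 (c (nat_lit 0x7f00e7f00d7f00d7f00d7f00eba8e1) e
 (c (nat_lit 0x7f0157f0157f0097f00b7f00b3b201) e
 (c (a (nat_lit 0xfe00801)) e
 (c (a (nat_lit 0xf9e3a01)) e
 (c (a (nat_lit 0xfbec801)) e
 (c (nat_lit 0x7dfa97df727df6c7dfa97dfa9de742) e
 (c (nat_lit 0x80a5680a5680a3880a3680a5626563) e
 (c (nat_lit 0x7f86b7f86b7f86b7f82f7f833decc3) e
 (c z e
 (c z e
 (c (a (nat_lit 0xff5a803)) e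
 (c (a (nat_lit 0xff51c05)) e
 (c (a (nat_lit 0xff52e06)) e
 (c z e
 (c (a (nat_lit 0xff60a07)) e
 (c z e
 (c z e
 (c z e
 (c z e
 (c z e
 (c z e
 (c (a (nat_lit 0xfdd5c0d)) e
 (c (a (nat_lit 0xfde6c0e)) e e)))))))))))))))))))))))))))))))) Tr.c Tr.e (nat_lit 0) C.t5 C.t6
noncomputable def tt663 : Tr := beta% (fun (c : Nat → Tr → Tr → Tr) (e : Tr) (z : Nat) (a b d : Nat → Nat) =>
 (c (a (nat_lit 0xfe01600))
 (c (b (nat_lit 0x101f5200))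
 (c (nat_lit 0x8000080000800007fcd38000080000800009fb83) e
 (c z e
 (c z e
 (c z e
 (c z e
 (c z e
 (c (d (nat_lit 0xfadc607)) e
 (c z e
 (c z e
 (c (d (nat_lit 0xffa0a07)) e
 (c (nat_lit 0x80000800007fe14800008000080000800005090b) e
 (c z e
 (c z e
 (c z e
 (c (d (nat_lit 0xffee019)) e e)))))))))))))))
 (c (b (nat_lit 0x101fe401)) e
 (c (b (nat_lit 0x101fd601)) e
 (c (b (nat_lit 0x101ff801)) e
 (c (b (nat_lit 0x101fd201)) e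
 (c z e
 (c z e
 (c (b (nat_lit 0x1004de03)) e
 (c (b (nat_lit 0x10225a03)) e
 (c (b (nat_lit 0x1018b203)) e
 (c (b (nat_lit 0x100b5803)) e
 (c z e
 (c (nat_lit 0x7ffe48000080000800008000080000ae605) e
 (c z e
 (c z e
 (c (b (nat_lit 0xff1d407)) e
 (c z e
 (c z e
 (c z e
 (c z e
 (c (b (nat_lit 0x101a6e0b)) e
 (c (b (nat_lit 0xffe700d)) e e))))))))))))))))))))))
 (c (a (nat_lit 0xfe00e00))
 (c (b (nat_lit 0x101fe601)) e
 (c (b (nat_lit 0x101fe601)) e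
 (c (b (nat_lit 0x101fe201)) e
 (c z e
 (c z e
 (c (b (nat_lit 0x10598803)) e
 (c z e
 (c (b (nat_lit 0x10154203)) e
 (c z e
 (c z e
 (c z e
 (c z e
 (c z e
 (c z e
 (c z e
 (c z e
 (c z e
 (c z e
 (c (b (nat_lit 0xffff00b)) e e)))))))))))))))))))
 (c (a (nat_lit 0xfe00e00))
 (c z e
 (c z e
 (c (b (nat_lit 0x10526e02)) e
 (c (nat_lit 0x829748291f82974829748297482974ab4c3) e
 (c z e
 (c z e
 (c z e
 (c z e
 (c z e
 (c z e
 (c z e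
 (c z e
 (c z e
 (c z e
 (c z e
 (c z e
 (c (b (nat_lit 0xfffaa0b)) e e)))))))))))))))))
 (c (a (nat_lit 0xfe00000))
 (c (b (nat_lit 0x1059a402)) e
 (c (nat_lit 0x82214822098221482214822148221406f43) e
 (c (b (nat_lit 0x10504e03)) e e)))
 (c (a (nat_lit 0xfe00a00))
 (c z e
 (c z e
 (c z e
 (c z e
 (c z e
 (c z e
 (c z e
 (c z e
 (c z e
 (c z e
 (c z e
 (c z e
 (c z e
 (c (b (nat_lit 0xfff340d)) e
 (c (b (nat_lit 0xfffce0e)) e e)))))))))))))))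
 (c (a (nat_lit 0xfe01200)) e
 (c (a (nat_lit 0xfe00a00)) e
 (c (nat_lit 0x7f00b7f00b7f00b7f00a7f00a20620) e
 (c (nat_lit 0x7f0177f0167f0167f0167f0172c140)
 (c z e
 (c z e
 (c z e
 (c z e
 (c z e
 (c z e
 (c (b (nat_lit 0x106e960e)) e
 (c (nat_lit 0x81cef81cba81cef81cef81cef81cefbc812) e e))))))))
 (c (a (nat_lit 0xfe01a00)) e
 (c (nat_lit 0x7f0087f0067f0077f0087f008825e1) e
 (c (a (nat_lit 0xfe01601)) e
 (c (nat_lit 0x7f0117f0117f0117f00e7f010e8421) e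
 (c z e
 (c (a (nat_lit 0xfbf7c01)) e
 (c (nat_lit 0x7f0227eff37effc7f0227f022aca02) e
 (c (a (nat_lit 0xfdfca03)) e
 (c (a (nat_lit 0xfff1803)) e
 (c (a (nat_lit 0x1008c203)) e
 (c z e
 (c (a (nat_lit 0xff4a403)) e
 (c (a (nat_lit 0xff40605)) e
 (c (a (nat_lit 0xffab006)) e
 (c (a (nat_lit 0xff1d607)) e
 (c (a (nat_lit 0xfec8a07)) e
 (c z e
 (c z e
 (c z e
 (c z e
 (c (a (nat_lit 0x10205a0b)) e
 (c (nat_lit 0x7fd0d7fd0d7fd917fd917fd914af8d) e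
 (c (nat_lit 0x7fa3a7f8c77f8c77fa3a7fa3a733ee) e e))))))))))))))))))))))))))))))))) Tr.c Tr.e (nat_lit 0) C.t5 C.t6 C.t7
noncomputable def tt664 : Tr := beta% (fun (c : Nat → Tr → Tr → Tr) (e : Tr) (z : Nat) (a b : Nat → Nat) =>
 (c (a (nat_lit 0xfe00600))
 (c (b (nat_lit 0x101ee801)) e
 (c (b (nat_lit 0x101ff801)) e
 (c (b (nat_lit 0x101fd001)) e
 (c (b (nat_lit 0x101ffc01)) e
 (c z e
 (c (nat_lit 0x83326833268331e833268332683326ed742) e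
 (c (nat_lit 0x81141811418113581129811418114135d43) e
 (c z e
 (c z e
 (c z e
 (c z e
 (c z e
 (c z e
 (c (b (nat_lit 0x10221e07)) e
 (c z e
 (c z e
 (c z e
 (c (b (nat_lit 0xfff2607)) e
 (c (b (nat_lit 0xffff60b)) e
 (c (b (nat_lit 0xffa3e0d)) e
 (c z e
 (c (b (nat_lit 0xffea015)) e e))))))))))))))))))))))
 (c (a (nat_lit 0xfdffc00))
 (c (b (nat_lit 0x10200601)) e
 (c z e
 (c z e
 (c z e
 (c (b (nat_lit 0x10565803)) e
 (c (nat_lit 0x80fa480fa480df080fa480fa480fa4c9b43) e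
 (c z e
 (c (b (nat_lit 0x100a2e03)) e
 (c z e
 (c z e
 (c z e
 (c z e
 (c z e
 (c z e
 (c z e
 (c (b (nat_lit 0xff2fa07)) e e))))))))))))))))
 (c (a (nat_lit 0xfe00400))
 (c z e
 (c z e
 (c (b (nat_lit 0x104cb403)) e
 (c z e
 (c z e
 (c z e
 (c z e
 (c z e
 (c z e
 (c z e
 (c z e
 (c z e
 (c (b (nat_lit 0xffb2a07)) e e)))))))))))))
 (c (a (nat_lit 0xfe00200))
 (c (b (nat_lit 0x1034f603)) e
 (c z e
 (c z e
 (c z e
 (c z e
 (c z e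
 (c z e
 (c z e
 (c z e
 (c z e
 (c z e
 (c (b (nat_lit 0xff9f807)) e
 (c (b (nat_lit 0xfffe00b)) e
 (c (b (nat_lit 0xfd13a0d)) e e))))))))))))))
 (c (a (nat_lit 0xfe00200))
 (c z e
 (c z e
 (c z e
 (c z e
 (c z e
 (c z e
 (c z e
 (c z e
 (c z e
 (c z e
 (c z e
 (c z e
 (c (b (nat_lit 0x10408a0e)) e
 (c (nat_lit 0x80d2180d2180d2180cea80d2180d21c9fd8) e
 (c (nat_lit 0x8000080000800008081f807eb8081fa5318) e e)))))))))))))))
 (c (a (nat_lit 0xfe00200))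
 (c z e
 (c z e
 (c z e
 (c z e
 (c z e
 (c z e
 (c z e
 (c z e
 (c z e
 (c z e
 (c (b (nat_lit 0x1075ac0e)) e
 (c (b (nat_lit 0x1043c214)) e
 (c (b (nat_lit 0x100b3418)) e e)))))))))))))
 (c (a (nat_lit 0xfdff600))
 (c z e
 (c z e
 (c z e
 (c z e
 (c z e
 (c z e
 (c z e
 (c z e
 (c z e
 (c z e
 (c (b (nat_lit 0x1009f014)) e e)))))))))))
 (c (a (nat_lit 0xfe00e00))
 (c (nat_lit 0x8000080000800007ffce800008000027787) e
 (c (b (nat_lit 0xfea4807)) e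
 (c z e
 (c z e
 (c z e
 (c z e
 (c z e
 (c z e
 (c z e
 (c z e
 (c z e
 (c (nat_lit 0x80000800008000080000800007fbe0784cf) e e))))))))))))
 (c (a (nat_lit 0xfe01800)) e
 (c (nat_lit 0x7effb7effa7effb7effb7effbfd680) e
 (c (a (nat_lit 0xfe00c01))
 (c z e
 (c (nat_lit 0x8000080000807408070e807408074081be0) e e))
 (c (a (nat_lit 0xfe00801))
 (c (nat_lit 0x80000800008000083349833498335daea10) e e)
 (c (nat_lit 0x7f0047f0047f0047f0017f002e4321) e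
 (c (a (nat_lit 0xfbe4801)) e
 (c (a (nat_lit 0xfe31601)) e
 (c (a (nat_lit 0xfe45002)) e
 (c (nat_lit 0x7f2f57f2f57f2a47f2a77f2f5c3603) e
 (c (a (nat_lit 0xffe1e03)) e
 (c (a (nat_lit 0xff61003)) e
 (c z e
 (c (a (nat_lit 0xff7f603)) e
 (c (a (nat_lit 0xff13405)) e
 (c (a (nat_lit 0xfee7606)) e
 (c (nat_lit 0x7f04a7f02b7f00b7f04a7f04a1dea7) e
 (c (nat_lit 0x7f8b67f8b67f8b67f89f7f8b622687) e
 (c (a (nat_lit 0xff1a207)) e
 (c z e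
 (c z e
 (c (nat_lit 0x7f7ea7f7ea7f7ef7f7ef7f7ef302cb) e
 (c (nat_lit 0x7f6a27f6a27f7357f7357f7357cd6d) e
 (c (a (nat_lit 0xff3ba0e)) e e)))))))))))))))))))))))))))))))) Tr.c Tr.e (nat_lit 0) C.t5 C.t6
noncomputable def tt665 : Tr := beta% (fun (c : Nat → Tr → Tr → Tr) (e : Tr) (z : Nat) (a b : Nat → Nat) =>
 (c (a (nat_lit 0x101fc400))
 (c (nat_lit 0x76be276be276be276be276bb176be276be281901) e
 (c (b (nat_lit 0xf379802)) e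
 (c (b (nat_lit 0xfcaf803)) e
 (c z e
 (c z e
 (c z e
 (c z e
 (c z e
 (c (b (nat_lit 0x105ade06)) e
 (c z e
 (c z e
 (c (b (nat_lit 0xffd5007)) e
 (c z e
 (c z e
 (c (b (nat_lit 0x1100040b)) e
 (c z e
 (c (b (nat_lit 0xfe0060e)) e
 (c (b (nat_lit 0xfe4821a)) e
 (c (b (nat_lit 0xffdfc1c)) e e)))))))))))))))))))
 (c (a (nat_lit 0x101f9400))
 (c (b (nat_lit 0xfd4a603)) e
 (c (nat_lit 0x7fcd97fcd97fcd97fcd97fcd37fcd97fcd967303) e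
 (c z e
 (c z e
 (c z e
 (c z e
 (c z e
 (c z e
 (c (b (nat_lit 0xfff7a07)) e
 (c (b (nat_lit 0xffeb807)) e e))))))))))
 (c (a (nat_lit 0x101f9000))
 (c z e
 (c z e
 (c z e
 (c z e
 (c z e
 (c z e
 (c (b (nat_lit 0xffe8e07)) e e)))))))
 (c (a (nat_lit 0x101fd400)) e
 (c (a (nat_lit 0x101ff601))
 (c z e
 (c z e
 (c z e
 (c z e
 (c z e
 (c z e
 (c (nat_lit 0x7fff08000080000800008000080000800004908b) e e)))))))
 (c (a (nat_lit 0x101ff601)) e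
 (c (a (nat_lit 0x101ffa01)) e
 (c (a (nat_lit 0x101fee01)) e
 (c z
 (c z e
 (c (b (nat_lit 0xfb8981a)) e e))
 (c (nat_lit 0x809cf809778096a809cf809cf809cfc3a82) e
 (c (a (nat_lit 0x10137c03)) e
 (c z e
 (c z e
 (c (a (nat_lit 0x104ac803)) e
 (c z e
 (c (a (nat_lit 0x1071fc05)) e
 (c (a (nat_lit 0x101cb406)) e
 (c (a (nat_lit 0x10200007)) e
 (c (a (nat_lit 0x10193e07)) e
 (c (a (nat_lit 0xff8fe07)) e
 (c (a (nat_lit 0xfff0207)) e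
 (c z e
 (c z e
 (c z e
 (c z e
 (c (nat_lit 0x810ba81064810ba810ba810ba810babc01a) e
 (c (nat_lit 0x80000800007ffd4800008000080000f475c) e e)))))))))))))))))))))))))))) Tr.c Tr.e (nat_lit 0) C.t6 C.t7
noncomputable def tt666 : Tr := beta% (fun (c : Nat → Tr → Tr → Tr) (e : Tr) (z : Nat) (a b d : Nat → Nat) =>
 (c (a (nat_lit 0xfe01400))
 (c (b (nat_lit 0x101fe601)) e
 (c (b (nat_lit 0x101ff001)) e
 (c (b (nat_lit 0x101ff001)) e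
 (c z e
 (c z e
 (c (nat_lit 0x80f5280f5280f5280f4680f5280f5249243) e
 (c (b (nat_lit 0x100fbe03)) e
 (c (b (nat_lit 0x1021b603)) e
 (c z e
 (c z e
 (c z e
 (c (b (nat_lit 0x10737e06)) e
 (c (b (nat_lit 0x103ff207)) e
 (c (b (nat_lit 0xff77207)) e
 (c z e
 (c z e
 (c z e
 (c z e
 (c z e
 (c z e
 (c z e
 (c (b (nat_lit 0xffe2015)) e e))))))))))))))))))))))
 (c (a (nat_lit 0xfe00a00))
 (c (b (nat_lit 0x10200601)) e
 (c z e
 (c z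
 (c (d (nat_lit 0x1100000e)) e e)
 (c (b (nat_lit 0x10584e03)) e
 (c (nat_lit 0x800007fda780000800008000080000e2c43) e
 (c z e
 (c z e
 (c z e
 (c z e
 (c (b (nat_lit 0xff65c06)) e
 (c z e
 (c z e
 (c (b (nat_lit 0xfa92607)) e
 (c z e
 (c (b (nat_lit 0x1020bc07)) e
 (c (nat_lit 0x824e2824f8824a3824f8824f8824f8b940d) e
 (c (nat_lit 0x822ee822c9822e2822a9822ee822ee5f00e) e
 (c (b (nat_lit 0xfff2213)) e e))))))))))))))))))
 (c (a (nat_lit 0xfe00600))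
 (c z
 (c (d (nat_lit 0x1071c80d)) e
 (c (d (nat_lit 0x1100000e)) e e))
 (c z
 (c (nat_lit 0x8364c8364c8364c8364c835b98364c8364c4cd24) e e)
 (c z e
 (c z e
 (c z e
 (c z e
 (c z e
 (c (b (nat_lit 0xfc86406)) e
 (c (nat_lit 0x80000800007fee17fea08000080000f1507) e
 (c (b (nat_lit 0x10505e07)) e
 (c z e
 (c (b (nat_lit 0x10145607)) e
 (c (b (nat_lit 0x1019b207)) e
 (c (b (nat_lit 0x1045a20d)) e
 (c (b (nat_lit 0x1091900e)) e
 (c (nat_lit 0x80000800008000080d6e80d6e80d6e5a7d4) e e))))))))))))))))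
 (c (a (nat_lit 0xfe00e00))
 (c (b (nat_lit 0x104fa203)) e
 (c z e
 (c z e
 (c z e
 (c (nat_lit 0x800007ffd67ffd680000800008000062a85) e
 (c (nat_lit 0x80000800007ff5b800008000080000c21c6) e
 (c (nat_lit 0x7c1a97c1a97c1a97c0d07c1a97c1a9a5887) e
 (c (nat_lit 0x8000080000800007fef0800008000084147) e
 (c (b (nat_lit 0x10718607)) e
 (c z e
 (c z e
 (c z e
 (c z e
 (c (nat_lit 0x823da823da823bf823da823da823da116d4) e
 (c (nat_lit 0x800008000080000810b7810d98110f84594) e e)))))))))))))))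
 (c (a (nat_lit 0xfe00c00))
 (c z e
 (c (b (nat_lit 0xfe02603)) e
 (c z e
 (c (b (nat_lit 0xf4ef006)) e
 (c z e
 (c z e
 (c z e
 (c z e
 (c z e
 (c z e
 (c z e
 (c z e
 (c (nat_lit 0x821138211382113821118211382113dd054) e e)))))))))))))
 (c (a (nat_lit 0xfe01600))
 (c (b (nat_lit 0x1092f605)) e
 (c (nat_lit 0x820758207581fc48207582075820751cec6) e
 (c (nat_lit 0x82d6882d6882d6882c8c82d6882d681a207) e
 (c z e
 (c z e
 (c z e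
 (c z e
 (c (b (nat_lit 0xf48640d)) e
 (c z e
 (c (b (nat_lit 0xfff9a11)) e
 (c (nat_lit 0x80000800008000080000800007ff046ad4e) e
 (c (b (nat_lit 0xff6e814)) e e))))))))))))
 (c (a (nat_lit 0xfe03000))
 (c (nat_lit 0x8298b8298b828bd8298b8298b8298b7db07) e
 (c (b (nat_lit 0x104cfc07)) e
 (c z e
 (c z e
 (c (b (nat_lit 0x10507607)) e e)))))
 (c (a (nat_lit 0xfe02600))
 (c (b (nat_lit 0x1046da07)) e
 (c z e
 (c z e
 (c (nat_lit 0x800007fea580000800008000080000fab0d) e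
 (c z e
 (c z e
 (c (b (nat_lit 0xfea2611)) e
 (c (b (nat_lit 0xfff6a11)) e e))))))))
 (c (nat_lit 0x7f0087f0077f0087f0087f008366a0)
 (c z e
 (c (b (nat_lit 0xfae500d)) e
 (c (nat_lit 0x7ca967ca967c74f7ca967ca967ca965810e) e e)))
 (c (a (nat_lit 0xfe01c00))
 (c (nat_lit 0x7bbdc7bbdc7bb897bbdc7bbdc7bbdc5eb0e) e
 (c (b (nat_lit 0xfce2a20)) e e))
 (c (a (nat_lit 0xfe00a01)) e
 (c (nat_lit 0x7f00d7f00d7f00a7f00a7f00a35681) e
 (c (nat_lit 0x7f01b7f01b7f01b7f00c7f00c04a81) e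
 (c (a (nat_lit 0xfdf4201)) e
 (c (nat_lit 0x7ede57ede57ee417ee417ee4146e61) e
 (c (nat_lit 0x7edf37ede97edeb7edf37edf3d5942) e
 (c (nat_lit 0x7ee227ee227edf07ee227ee2201263) e
 (c (a (nat_lit 0xfea3c03)) e
 (c (a (nat_lit 0xff6ba03)) e
 (c z e
 (c z e
 (c z e
 (c (nat_lit 0x7f52f7f5267f5517f5517f551c51a6) e
 (c (a (nat_lit 0xfeab007)) e
 (c (a (nat_lit 0xfee9a07)) e
 (c (a (nat_lit 0xfeeb207)) e
 (c z e
 (c z e
 (c (a (nat_lit 0xff60c0d)) e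
 (c (nat_lit 0x7faa37fa7b7fa7a7faa37faa3973ee) e
 (c (nat_lit 0x8000080000800007ffd880000a32af) e
 (c (nat_lit 0x8000080000800007ffd17ffdf9cc2f) e e))))))))))))))))))))))))))))))))) Tr.c Tr.e (nat_lit 0) C.t5 C.t6 C.t7
noncomputable def tt667 : Tr := beta% (fun (c : Nat → Tr → Tr → Tr) (e : Tr) (z : Nat) (a b : Nat → Nat) =>
 (c (a (nat_lit 0x101fa800))
 (c (b (nat_lit 0xf3f9c01)) e
 (c (b (nat_lit 0xf1cb201)) e
 (c (nat_lit 0x7e99c7e99c7e9927e99c7e99c7e99c7e99c96d02) e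
 (c (nat_lit 0x80000800007ffdd7ffbb80000800008000016d82) e
 (c (b (nat_lit 0x101e2803)) e
 (c z e
 (c (b (nat_lit 0xecfc203)) e
 (c (b (nat_lit 0xf683803)) e
 (c z e
 (c z e
 (c (b (nat_lit 0xffbe407)) e
 (c (b (nat_lit 0xff00a07)) e
 (c z e
 (c z e
 (c (b (nat_lit 0x105e8c07)) e
 (c z e
 (c z e
 (c (b (nat_lit 0xffe8e16)) e e))))))))))))))))))
 (c (a (nat_lit 0x101f8600))
 (c (b (nat_lit 0xfbf1802)) e
 (c (nat_lit 0x7f9ed7f9ed7f9ed7f9e07f9ed7f9ed7f9ed44403) e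
 (c (nat_lit 0x809ab809ab809ab809a68099a809ab809ab96a03) e
 (c z e
 (c z e
 (c z e
 (c z e
 (c z e
 (c z e
 (c z e
 (c z e
 (c z e
 (c z e
 (c z e
 (c z e
 (c (b (nat_lit 0xffe3416)) e
 (c z e
 (c (b (nat_lit 0xffefe2c)) e e))))))))))))))))))
 (c (a (nat_lit 0x101f9400))
 (c z e
 (c z e
 (c z e
 (c z e
 (c z e
 (c z e
 (c z e
 (c z e
 (c z e
 (c z e
 (c z e
 (c z e
 (c z e
 (c z e
 (c (b (nat_lit 0xffe6c1c)) e e)))))))))))))))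
 (c (a (nat_lit 0x101fa800))
 (c z e
 (c z e
 (c z e
 (c z e
 (c z e
 (c z e
 (c z e
 (c z e
 (c z e
 (c (nat_lit 0x78d8078c0f78d8078d8078d8078d8078d8075c0d) e e))))))))))
 (c (a (nat_lit 0x101fa600)) e
 (c (nat_lit 0x81005810038100181002810028100240b81) e
 (c (a (nat_lit 0x101ff401)) e
 (c (a (nat_lit 0x101ff201)) e
 (c (nat_lit 0x8100f8100f8100f8100f8100681006ee841) e
 (c (a (nat_lit 0x10075e01)) e
 (c (a (nat_lit 0x100e7402)) e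
 (c (a (nat_lit 0x10160803)) e
 (c (nat_lit 0x80cdd80cdd80cdd80cd480cdd80cddf4dc3) e
 (c z e
 (c z e
 (c z e
 (c (a (nat_lit 0x10134005)) e
 (c (a (nat_lit 0x100d7006)) e
 (c (a (nat_lit 0x10109c07)) e
 (c (a (nat_lit 0xffbfa07)) e
 (c (a (nat_lit 0xff86607)) e
 (c (a (nat_lit 0xff38407)) e
 (c z e
 (c z e
 (c z e
 (c (a (nat_lit 0x1017fe16)) e
 (c (nat_lit 0x8000080000800007ff678000080000b769c) e
 (c (nat_lit 0x800008000080000800007ff5b800007998f) e e))))))))))))))))))))))))))))) Tr.c Tr.e (nat_lit 0) C.t6 C.t7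
noncomputable def tt668 : Tr := beta% (fun (c : Nat → Tr → Tr → Tr) (e : Tr) (z : Nat) (a b : Nat → Nat) =>
 (c (a (nat_lit 0x10148e00))
 (c (b (nat_lit 0xf30f801)) e
 (c (b (nat_lit 0xf379e01)) e
 (c (b (nat_lit 0xfaabe01)) e
 (c (b (nat_lit 0xfdd3c01)) e
 (c (nat_lit 0x7fe3a7fe167fe3a7fe3a7fbfe7fe3a7fe3a81401) e
 (c z e
 (c z e
 (c z e
 (c (b (nat_lit 0x10d30003)) e
 (c (b (nat_lit 0x10fff803)) e
 (c (b (nat_lit 0x11000003)) e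
 (c (b (nat_lit 0x10d2be05)) e
 (c (b (nat_lit 0x10a08606)) e
 (c z e
 (c z e
 (c (b (nat_lit 0x10ee9a07)) e
 (c (b (nat_lit 0x10e0b007)) e
 (c z e
 (c (b (nat_lit 0xfc4720d)) e
 (c (b (nat_lit 0xfb4fa0e)) e
 (c (b (nat_lit 0xfc0b21c)) e e)))))))))))))))))))))
 (c (a (nat_lit 0x101f9400))
 (c (b (nat_lit 0xf574401)) e
 (c (nat_lit 0x7cfbc7cffc7cffc7cffc7cffc7cffc7cffc45f01) e
 (c (b (nat_lit 0xfc70201)) e
 (c (b (nat_lit 0xfe19a02)) e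
 (c z e
 (c z e
 (c z e
 (c (b (nat_lit 0xf4a1003)) e
 (c z e
 (c (b (nat_lit 0x10373805)) e
 (c z e
 (c z e
 (c z e
 (c z e
 (c z e
 (c (nat_lit 0x80000800007ee0b80000800008000080000f0887) e
 (c z e
 (c (b (nat_lit 0xff7920e)) e
 (c (nat_lit 0x7f5707f4fb7f5707f4967f5647f5707f570f8b9c) e
 (c (nat_lit 0x80000800007ff90800008000080000800000c42c) e e))))))))))))))))))))
 (c (a (nat_lit 0x101f3e00))
 (c (b (nat_lit 0xf2c1801)) e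
 (c (nat_lit 0x7e0057e0057dfd47e0057e0057e0057e005bc202) e
 (c (nat_lit 0x7eba57eba57eba57eb847eba57eba57eba58ce03) e
 (c z e
 (c (nat_lit 0x7fd107fd107fd107fba07fd107fd107fd10a2703) e
 (c z e
 (c z e
 (c z e
 (c (b (nat_lit 0x1064d406)) e
 (c (b (nat_lit 0x102f4007)) e
 (c (b (nat_lit 0xffe6607)) e
 (c z e
 (c z e
 (c z e
 (c z e
 (c (b (nat_lit 0xffd500e)) e
 (c z e
 (c (b (nat_lit 0xffe3026)) e e))))))))))))))))))
 (c (a (nat_lit 0x101f6800))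
 (c (nat_lit 0x7f2e47f2e47f2e47f2e07f2e47f2e47f2e4e2403) e
 (c (b (nat_lit 0xffa1403)) e
 (c z e
 (c z e
 (c z e
 (c z e
 (c z e
 (c z e
 (c z e
 (c z e
 (c z e
 (c (nat_lit 0x85f5f85e6f85f5f85f5f85f5f85f5f85f5fc5d87) e
 (c z e
 (c (b (nat_lit 0xe95ba0e)) e
 (c z e
 (c z e
 (c (b (nat_lit 0xffd9226)) e e)))))))))))))))))
 (c (a (nat_lit 0x101f5200))
 (c (b (nat_lit 0x10809603)) e
 (c z e
 (c z e
 (c z e
 (c z e
 (c z e
 (c (b (nat_lit 0xffdae07)) e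
 (c (b (nat_lit 0xfff1c07)) e
 (c z e
 (c (b (nat_lit 0xfa12807)) e
 (c (nat_lit 0x800007fcd180000800008000080000800002c90d) e e)))))))))))
 (c (a (nat_lit 0x101f8000))
 (c z e
 (c z e
 (c (nat_lit 0x7a6907a6907a5f57a6907a6907a6907a69017f86) e
 (c (nat_lit 0x732ac732ac732ac731df732ac732ac732ace9507) e
 (c (nat_lit 0x7ffbb7ffbb7ffbb7ffbb7fd1a7fee07ffbbb7387) e
 (c z e
 (c (b (nat_lit 0xff8dc07)) e
 (c z e
 (c (b (nat_lit 0xfda0c0d)) e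
 (c (nat_lit 0x7d4737d4737d4617d4737d4737d4737d473aab0e) e e))))))))))
 (c (a (nat_lit 0x101fca00))
 (c (b (nat_lit 0xf282606)) e
 (c (b (nat_lit 0xf37fa07)) e
 (c (nat_lit 0x76144761447614476144761367614476144d4987) e
 (c z e
 (c z e
 (c z e
 (c (b (nat_lit 0xfc83c0d)) e
 (c (nat_lit 0x852138511185213852138521385213852134600e) e e))))))))
 (c (a (nat_lit 0x101fa601))
 (c (nat_lit 0x75ec675ec675ec675ec675cdc75ec675ec652d87) e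
 (c (b (nat_lit 0x106e3a07)) e
 (c z e
 (c (b (nat_lit 0x1046e407)) e
 (c (b (nat_lit 0x105cb00d)) e
 (c z e
 (c (b (nat_lit 0x10fffa1c)) e
 (c (nat_lit 0x8000080000813e4813e4813e4813e4813e4224c0) e e))))))))
 (c (a (nat_lit 0x101fb001))
 (c z e
 (c z e
 (c (b (nat_lit 0x10714a0d)) e
 (c (b (nat_lit 0x10c2780e)) e e))))
 (c (a (nat_lit 0x101f0601))
 (c (b (nat_lit 0xf5e900d)) e
 (c (b (nat_lit 0xf8a840e)) e
 (c (b (nat_lit 0xfa5221c)) e e)))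
 (c z
 (c (b (nat_lit 0xf1ebc1c)) e e)
 (c z
 (c (b (nat_lit 0xf13c421)) e e)
 (c z e
 (c (a (nat_lit 0x100fbc03)) e
 (c (a (nat_lit 0x102be203)) e
 (c (a (nat_lit 0x10c4c803)) e
 (c (a (nat_lit 0x10d0b803)) e
 (c (a (nat_lit 0x10219a03)) e
 (c (a (nat_lit 0x1038d205)) e
 (c (a (nat_lit 0x10401806)) e
 (c (a (nat_lit 0x1038a607)) e
 (c (a (nat_lit 0x100e4207)) e
 (c z e
 (c z e
 (c (a (nat_lit 0xff22c07)) e
 (c (nat_lit 0x7f5fb7f5fb7f5277f5fb7f5fb7f5fb6234d) e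
 (c z e
 (c z e
 (c (nat_lit 0x80000800008000080000800007fec8a51ce) e e)))))))))))))))))))))))))))))) Tr.c Tr.e (nat_lit 0) C.t6 C.t7
noncomputable def tt669 : Tr := beta% (fun (c : Nat → Tr → Tr → Tr) (e : Tr) (z : Nat) (a b d : Nat → Nat) =>
 (c (nat_lit 0x7f02c7f02b7f02b7f02b7f02c9e0a0) tt668
 (c (a (nat_lit 0xfe00e00)) tt667
 (c (a (nat_lit 0xfe02400))
 (c (b (nat_lit 0x101f6c00))
 (c (d (nat_lit 0xfd76203)) e
 (c z e
 (c z e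
 (c z e
 (c z e
 (c z e
 (c z e
 (c z e
 (c z e
 (c z e
 (c z e
 (c z e
 (c z e
 (c z e
 (c z e
 (c (d (nat_lit 0xfff8816)) e
 (c (d (nat_lit 0xffe621c)) e e)))))))))))))))))
 (c (b (nat_lit 0x101fa200)) e
 (c (b (nat_lit 0x101f8600)) e
 (c (nat_lit 0x810378100281000810008100181004becc1) e
 (c (nat_lit 0x80ff780ff780ff580ff580ff580ff643301) e
 (c (b (nat_lit 0x101fce01)) e
 (c (b (nat_lit 0x101fda01)) e
 (c z e
 (c z e
 (c (b (nat_lit 0x100e0003)) e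
 (c z e
 (c z e
 (c z e
 (c z e
 (c z e
 (c (b (nat_lit 0x101d8a06)) e
 (c (b (nat_lit 0x100c9c07)) e
 (c (b (nat_lit 0xfffc207)) e
 (c z e
 (c z e
 (c z e
 (c (b (nat_lit 0xfffc60d)) e e))))))))))))))))))))))
 (c (a (nat_lit 0xfe01600))
 (c (b (nat_lit 0x101f8200))
 (c z e
 (c z e
 (c z e
 (c z e
 (c (d (nat_lit 0xff33407)) e
 (c z e
 (c (d (nat_lit 0xf8ca807)) e
 (c (d (nat_lit 0xffd3a07)) e
 (c z e
 (c z e
 (c z e
 (c (d (nat_lit 0xfff9213)) e e))))))))))))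
 (c (b (nat_lit 0x101fe001))
 (c z e
 (c z e
 (c z e
 (c z e
 (c z e
 (c z e
 (c z e
 (c z e
 (c (nat_lit 0x80000800007ffef80000800008000080000cac8e) e e)))))))))
 (c (b (nat_lit 0x101fb801))
 (c z e
 (c z e
 (c z e
 (c (d (nat_lit 0xffd9007)) e e))))
 (c (b (nat_lit 0x101ffc01)) e
 (c z e
 (c z e
 (c (nat_lit 0x808cf808c1808bb808cf808cf808cff4402) e
 (c (b (nat_lit 0x10182403)) e
 (c (nat_lit 0x80ce180ce180ce180c7d80cb380ce1b7ac3) e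
 (c z e
 (c z e
 (c (b (nat_lit 0x1023a603)) e
 (c z e
 (c (b (nat_lit 0x10af1806)) e
 (c z e
 (c z e
 (c z e
 (c z e
 (c z e
 (c z e
 (c z e
 (c (b (nat_lit 0xffdd813)) e
 (c (b (nat_lit 0xffd0015)) e e))))))))))))))))))))))) tt666))))) Tr.c Tr.e (nat_lit 0) C.t5 C.t6 C.t7
noncomputable def tt670 : Tr := beta% (fun (c : Nat → Tr → Tr → Tr) (e : Tr) (z : Nat) (a b d f : Nat → Nat) =>
 (c (a (nat_lit 0x101fee00)) tt669
 (c (a (nat_lit 0x10200000))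
 (c (b (nat_lit 0xfe00000)) tt665
 (c (b (nat_lit 0xfe00e00))
 (c (d (nat_lit 0x101f8000))
 (c (f (nat_lit 0xfdaec03)) e
 (c (nat_lit 0x819f9819f9819f9819dc819f9819f9819f93e003) e
 (c z e
 (c z e
 (c z e
 (c z e
 (c z e
 (c (f (nat_lit 0xffdac07)) e e))))))))
 (c (d (nat_lit 0x101f9600)) e
 (c (d (nat_lit 0x101ff401)) e
 (c (d (nat_lit 0x101ff401)) e
 (c (d (nat_lit 0x101fe801)) e
 (c (d (nat_lit 0x101fa401)) e
 (c z e
 (c (d (nat_lit 0x10149002)) e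
 (c (nat_lit 0x80fbb80fbb80fa980fa780f9d80fbba9143) e
 (c (d (nat_lit 0x101e2803)) e
 (c z e
 (c z e
 (c z e
 (c z e
 (c z e
 (c (d (nat_lit 0xff57207)) e
 (c z e
 (c (d (nat_lit 0xff2e207)) e
 (c z e
 (c z e
 (c (d (nat_lit 0xffe260b)) e
 (c (d (nat_lit 0xffd1a0d)) e
 (c (d (nat_lit 0xfff040e)) e e))))))))))))))))))))))) tt664))
 (c (a (nat_lit 0x101ff800)) tt663
 (c (a (nat_lit 0x101ffc00)) tt662
 (c (a (nat_lit 0x101ffe00)) tt661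
 (c (a (nat_lit 0x101ffe00)) tt660
 (c (a (nat_lit 0x10200000))
 (c (b (nat_lit 0xfed0800))
 (c (nat_lit 0x7f6c87f67d7f6af7f6c87f6c87f6c816f45) e
 (c (nat_lit 0x7d25d7d25d7d2237d25d7d25d7d25d43506) e e))
 (c (b (nat_lit 0xfdffc00))
 (c (nat_lit 0x7f2ce7f2ce7f2ce7f2667f2ce7f2ce347c7) e
 (c z e
 (c z e
 (c z e
 (c z e
 (c z e
 (c (nat_lit 0x818b4818b48189c818b4818b4818b485bcc) e
 (c (d (nat_lit 0x1062c814)) e e))))))))
 (c (b (nat_lit 0xfdffe01)) e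
 (c (nat_lit 0x7f0047f0047f0037f0037f003b5461) e
 (c (nat_lit 0x7f00b7f00b7f00b7f0067f006fe2a1) e
 (c (b (nat_lit 0xfd97c01)) e
 (c z e
 (c (b (nat_lit 0xfd4e402)) e
 (c (b (nat_lit 0xfd2b203)) e
 (c (nat_lit 0x7e7ba7e7ba7e6aa7e7ad7e7babcee3) e
 (c z e
 (c z e
 (c z e
 (c (b (nat_lit 0xfc8f605)) e
 (c (nat_lit 0x7d6637d6637d6317d6637d663ff2c6) e
 (c (b (nat_lit 0xfeaae07)) e
 (c (nat_lit 0x8000080000800007ffdc80000e6aa7) e
 (c (b (nat_lit 0xffffc07)) e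
 (c z e
 (c z e
 (c (nat_lit 0x802c3802c38029d802c3802c35c6ca) e
 (c (b (nat_lit 0xffd220c)) e
 (c (nat_lit 0x8000080000800007ffc67ffa09884b) e
 (c (nat_lit 0x8000080000800007fffb800004dfcb) e e))))))))))))))))))))))))
 (c (a (nat_lit 0x101ffe00))
 (c (b (nat_lit 0xff07601))
 (c (nat_lit 0x7cd337cd337cd337cd337cb8e7cd335d307) e
 (c z e
 (c z e
 (c z e
 (c z e
 (c z e
 (c (d (nat_lit 0x10413a0c)) e
 (c (nat_lit 0x800008000083f6283ecd83f6283f6261aa0) e e))))))))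
 (c (b (nat_lit 0xfdffc01)) e
 (c (b (nat_lit 0xfe00001))
 (c (d (nat_lit 0xfffd409)) e
 (c z e
 (c z e
 (c z e
 (c (d (nat_lit 0xfffc014)) e e)))))
 (c z e
 (c z e
 (c (b (nat_lit 0xfe90002)) e
 (c (nat_lit 0x7fb867fb7e7fb867fb867fb86f9ae3) e
 (c (b (nat_lit 0xfce3a03)) e
 (c z e
 (c z e
 (c z e
 (c (nat_lit 0x7d5107d5137d5137d5137d5134d385) e
 (c (nat_lit 0x7d6e17d6c27d6db7d6e17d6e1a1566) e
 (c (b (nat_lit 0xfbde407)) e
 (c (nat_lit 0x7f57a7f57a7f57a7f5717f57a86ca7) e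
 (c z e
 (c (nat_lit 0x7ffd17ffd17ffd17fff28000091b87) e
 (c (nat_lit 0x7fb7f7fbc17fbc17fbc17fbc118207) e
 (c (nat_lit 0x7fa017fa0a7fa0a7fa0a7fa0af1609) e
 (c (nat_lit 0x7fe6f7fe8c7fe6f7fe8c7fe8c862ca) e
 (c (b (nat_lit 0xffda00c)) e e))))))))))))))))))))) tt659))))))))) Tr.c Tr.e (nat_lit 0) C.t4 C.t5 C.t6 C.t7
noncomputable def tt671 : Tr := beta% (fun (c : Nat → Tr → Tr → Tr) (e : Tr) (z : Nat) (a b d f : Nat → Nat) =>
 (c (a (nat_lit 0xfe00000)) tt670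
 (c (a (nat_lit 0xfdffe00)) tt658
 (c (a (nat_lit 0xfe00000)) tt651
 (c (a (nat_lit 0xfe00000))
 (c (b (nat_lit 0x101ffc00)) tt646
 (c (b (nat_lit 0x101ffc00)) tt645
 (c (nat_lit 0x80fff80fff80fff80ffef2dd0)
 (c (d (nat_lit 0xfdffe00))
 (c (nat_lit 0x7d3697d3697d3207d34d7d3697d369a1bc5) e
 (c (nat_lit 0x7e17b7e17b7e0c87e1787e17b7e17b8cf45) e
 (c z e
 (c z e
 (c z e
 (c z e
 (c (nat_lit 0x7d3e37d39d7d3e37d3e37d3e37d3e316647) e e)))))))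
 (c (nat_lit 0x7effd7effc7effc7effc7effdc52e1) e
 (c (nat_lit 0x7f0027f0027f0017f0017f00231161) e
 (c (nat_lit 0x7f0117f0117f0117f0087f00a1eb61) e
 (c z e
 (c (d (nat_lit 0xff49e01))
 (c (f (nat_lit 0xfcd8a0b)) e
 (c (nat_lit 0x7db107db107db107db107db107d8a0314cb) e e))
 (c (nat_lit 0x7fb917fb917fb847fb917fb91eed62)
 (c (nat_lit 0x800008000080000800007ff8f7ffd50c44b) e e)
 (c (nat_lit 0x7f8c67f8a07f8c67f8c27f8c6bf7c3) e
 (c z e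
 (c z e
 (c z e
 (c z e
 (c (nat_lit 0x7de6e7de6e7de407de587de6ef6e85) e
 (c (nat_lit 0x7e0597e0597e0597e0387e059f7de5) e
 (c z e
 (c (d (nat_lit 0xff8d005)) e
 (c z e
 (c (d (nat_lit 0xfdc0007)) e
 (c (nat_lit 0x7e8a07e8a07e8967e8a07e8a0cf647) e
 (c z e
 (c z e
 (c z e
 (c z e
 (c (d (nat_lit 0xffe1c0b)) e e)))))))))))))))))))))))) tt644)))
 (c (a (nat_lit 0xfdffe00))
 (c (b (nat_lit 0x101ffe00)) tt643
 (c (nat_lit 0x80fff80fff80fff8100012da0)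
 (c (nat_lit 0x7f0047f0047f0047f0017f002d17e1)
 (c (nat_lit 0x7e6f37e6f37e66f7e6547e6787e6f3a9b45) e
 (c (nat_lit 0x7e7be7e7be7e7be7e7b67e7af7e7be9c3c5) e
 (c (f (nat_lit 0x10ab9005)) e
 (c z e
 (c (nat_lit 0x87b2b87b2b87b2b87b2b87af087af02b606) e
 (c z e
 (c (nat_lit 0x835d3835d383592835d3835d3835d3166c7) e
 (c z e
 (c z e
 (c z e
 (c (nat_lit 0x7d2097d22b7d22b7d22b7d22b7d22beb48b) e
 (c (nat_lit 0x800008000080fc380fc380fc380fc366da0) e e))))))))))))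
 (c (d (nat_lit 0xfdffa01))
 (c z e
 (c z e
 (c z e
 (c z e
 (c (f (nat_lit 0x10d7e007)) e e)))))
 (c (d (nat_lit 0xfdfea01)) e
 (c z e
 (c (d (nat_lit 0xf628a01)) e
 (c (nat_lit 0x7fc427fc217fc0b7fc427fc4293262) e
 (c (d (nat_lit 0xfd64c03)) e
 (c (d (nat_lit 0xfe13603)) e
 (c z e
 (c z e
 (c (nat_lit 0x7fb8b7fb7a7fb717fb8b7fb8b20663) e
 (c (nat_lit 0x7efd67efd67efd67efd37efd6bb985) e
 (c (nat_lit 0x7d2a97d2a97d2a07d29a7d2a9d0005) e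
 (c (nat_lit 0x7e5887e5887e5887e57b7e57ae68e5) e
 (c (d (nat_lit 0x100e5405)) e
 (c z e
 (c z e
 (c (nat_lit 0x7fd657fd657fd527fd657fd65d9887) e
 (c (nat_lit 0x7fff97fff97fff97ffe57fff9fb267) e
 (c z e
 (c z e
 (c (nat_lit 0x7ffdd7ffdd80000800008000047ea7) e e)))))))))))))))))))))) tt642))
 (c (a (nat_lit 0xfdffe00)) tt641
 (c (a (nat_lit 0xfdffe00)) tt639
 (c (a (nat_lit 0xfdffe00)) tt638
 (c (a (nat_lit 0xfdffe00)) tt637
 (c (a (nat_lit 0xfdffe00)) tt636 tt635))))))))))) Tr.c Tr.e (nat_lit 0) C.t3 C.t4 C.t5 C.t6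
noncomputable def tt672 : Tr := beta% (fun (c : Nat → Tr → Tr → Tr) (e : Tr) (a : Nat → Nat) =>
 (c (a (nat_lit 0xfe00000)) tt634 tt671)) Tr.c Tr.e C.t3
noncomputable def tt673 : Tr := beta% (fun (c : Nat → Tr → Tr → Tr) (e : Tr) (z : Nat) (a b d : Nat → Nat) =>
 (c (a (nat_lit 0xfe00000))
 (c (nat_lit 0x8100380fff80fff8100070821)
 (c (nat_lit 0x7f4e87f4e87f4db7f4e67f4e8ecf05) e
 (c (nat_lit 0x7f4837f4837f47f7f4837f48391cc5) e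
 (c (d (nat_lit 0xff2fe05)) e
 (c z e
 (c (nat_lit 0x8000080000800007ff807ff80d5705) e
 (c z e
 (c (nat_lit 0x80000800007ee907ee977ee97c33b0) e e)))))))
 (c (nat_lit 0x810008100080fff80fff419b1)
 (c (d (nat_lit 0xfefb005)) e
 (c (d (nat_lit 0xff50205)) e
 (c z e
 (c (d (nat_lit 0xfab5c09)) e e))))
 (c (b (nat_lit 0x10129c01)) e
 (c (b (nat_lit 0xfb9cc01)) e
 (c (nat_lit 0x7ff347ff2e7ff337ff333d511) e
 (c (nat_lit 0x7fce77fce57fce37fce53f4d2) e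
 (c (nat_lit 0x814688147180f0f80f0e9d702) e
 (c (nat_lit 0x81591815998159c8159da44b3) e
 (c (nat_lit 0x81079810778107681077bca23) e
 (c (nat_lit 0x8077d8077d8077d8077c4c5e3) e
 (c (b (nat_lit 0x10079a03)) e
 (c (nat_lit 0x80d7e80d8080d7e80d7ea82b3) e
 (c (nat_lit 0x805a1805a3805a1805a3dd204) e
 (c (nat_lit 0x807b9807b0807bc807bc471d4) e
 (c (nat_lit 0x807ca807cb807c7807ca80a04) e
 (c (nat_lit 0x80412804138041280411189b4) e
 (c (nat_lit 0x8041e8041d8041c8041c8db84) e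
 (c (nat_lit 0x803fd803fe803fd803ff8a5b5) e
 (c (nat_lit 0x803e0803e1803e0803d93d435) e
 (c (nat_lit 0x803878038a8038a8038b39c75) e
 (c (b (nat_lit 0xff26605)) e
 (c (nat_lit 0x805418088580c0080c0405625) e
 (c (nat_lit 0x800008000080000807f1f9855) e
 (c z e
 (c (nat_lit 0x8000080000800007fde528cd6) e e)))))))))))))))))))))))))
 (c (a (nat_lit 0xfe00000))
 (c (nat_lit 0x809e4809e4809e5809e4ab411)
 (c (d (nat_lit 0xffacc05)) e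
 (c (d (nat_lit 0xfffcc05)) e
 (c z e
 (c (nat_lit 0x8000080000800007de267de2605c85) e e))))
 (c (nat_lit 0x7ff6b7ff6b7ff6a7ff6a54c01) e
 (c (b (nat_lit 0x1016e201)) e
 (c (nat_lit 0x800e7800e6800e8800e8b87c2) e
 (c (b (nat_lit 0xffd4602)) e
 (c (nat_lit 0x814ce81a4c81a46813aaf7393) e
 (c (nat_lit 0x8174581744817458174604b83) e
 (c (nat_lit 0x7ffe27ffe17ffe27ffe255c03) e
 (c (b (nat_lit 0xffcd003)) e
 (c (nat_lit 0x80701807028070280701025a3) e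
 (c (nat_lit 0x803e5803e6803e6803e426d44) e
 (c (nat_lit 0x80794807948079480793093f4) e
 (c (nat_lit 0x807a2807a2807a2807a16dd84) e
 (c (nat_lit 0x803fc803f9803f9803f5ed7e4) e
 (c (nat_lit 0x80408804088040280404aa544) e
 (c (nat_lit 0x8040d8040a8040e8040e28d14) e
 (c (nat_lit 0x803f1803f0803f0803f17ec25) e
 (c (nat_lit 0x803cd803cd803ce803cfd8245) e
 (c (nat_lit 0x8030b8030c8030f803119ef15) e
 (c (nat_lit 0x7f4367f5227f5297f529e9b75) e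
 (c (nat_lit 0x806588041c806e6806e4c6965) e
 (c (nat_lit 0x800008000080000803e7c1815) e e))))))))))))))))))))))
 (c (a (nat_lit 0xfdffe00))
 (c (nat_lit 0x80598805958059a8059a94d71) e
 (c (nat_lit 0x808a580895808a6808bc83b62) e
 (c (nat_lit 0x8037080372803698036b28b22) e
 (c (b (nat_lit 0xfd20e03)) e
 (c (nat_lit 0x80d9680d9580d9580d9523ef3) e
 (c (b (nat_lit 0xff0c803)) e
 (c z e
 (c (nat_lit 0x811fd811fd811fe811fe6c0b3) e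
 (c (nat_lit 0x804b8804b8805148051171c34) e
 (c (b (nat_lit 0x101f9804)) e
 (c (nat_lit 0x8102a8102881027810276b004) e
 (c (nat_lit 0x803368033480333803329dde4) e
 (c (nat_lit 0x808628044e803c9803c96be14) e
 (c (nat_lit 0x80f6c80f6180460803dd7e3f4) e
 (c (nat_lit 0x8067f80f8380f7980477d26f4) e
 (c (nat_lit 0x800008000080f8e80f8e9c454) e
 (c (nat_lit 0x80000800008000080f87769b4) e
 (c z e
 (c z e
 (c z e
 (c (nat_lit 0x80000800008000080c34407e5) e e)))))))))))))))))))))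
 (c (a (nat_lit 0xfe00000))
 (c (nat_lit 0x8131481310808ce808d0041b2) e
 (c (nat_lit 0x8172e8172c8172c80f1870843) e
 (c (nat_lit 0x802aa802aa802aa802abecc73) e
 (c (b (nat_lit 0x10035203)) e
 (c (b (nat_lit 0x10094c03)) e
 (c (nat_lit 0x7fe9f7fea07fea17fea18ff23) e
 (c (nat_lit 0x8030d8031080311803104b054) e
 (c (nat_lit 0x81c1a81c1c81c1c81c1d43274) e
 (c (nat_lit 0x81acc81acd81acc81acc8f4f4) e
 (c (nat_lit 0x8035480353803558035733084) e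
 (c (nat_lit 0x80317802fd8030280304570a4) e
 (c (nat_lit 0x803228031a802f3802f806754) e
 (c (nat_lit 0x806108061080317802f6bb674) e
 (c (nat_lit 0x805218061a806178031b17a24) e
 (c (nat_lit 0x80000800008062a80628cc084) e
 (c (nat_lit 0x8000080000800008061588a54) e
 (c z e
 (c z e
 (c z e
 (c (nat_lit 0x80000800008000080173e1e15) e e))))))))))))))))))))
 (c (a (nat_lit 0xfdffe00))
 (c (nat_lit 0x807ad807ac807ac807ad0b973) e
 (c (nat_lit 0x8080c8080c8080d8080c24763) e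
 (c z e
 (c (nat_lit 0x814bf814c2814c1814c231393) e
 (c (nat_lit 0x827dd827e5827eb827eec4fc4) e
 (c (nat_lit 0x83419834178341783416b94b4) e
 (c (nat_lit 0x814f6814f8814f9814f899674) e
 (c (nat_lit 0x811cc811ce811cd811cdfbc04) e
 (c (nat_lit 0x80d5b80d5c80d5b80d5ca14f4) e
 (c (nat_lit 0x80d6980d6580d6580d654de14) e
 (c (nat_lit 0x80df680de280d7180d73dfeb4) e
 (c (nat_lit 0x80e2180e2c80de380d72f3b54) e
 (c (nat_lit 0x8000180e2b80e3780de841c64) e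
 (c (nat_lit 0x800008000080e2f80e37d12c4) e
 (c (nat_lit 0x80000800008000080d2b4aea4) e e)))))))))))))))
 (c (a (nat_lit 0xfdffe00))
 (c (nat_lit 0x7ee6c7ee6b7ee6b7ee6bd3083) e
 (c (nat_lit 0x86609865ff865e186605f2a53) e
 (c (nat_lit 0x818b3818b0818af818afd74e4) e
 (c (nat_lit 0x8262182622826228262105164) e
 (c (b (nat_lit 0x101c4404)) e
 (c (nat_lit 0x81017810178101781016d39a4) e
 (c (b (nat_lit 0x10203c04)) e
 (c (nat_lit 0x81025810248102481024bb804) e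
 (c (nat_lit 0x8102681023810218101f6b274) e
 (c (nat_lit 0x814b6810228101c8101cc85f4) e
 (c (nat_lit 0x815bb814aa810138100f0e654) e
 (c (nat_lit 0x815c8815b3814a98100eb4374) e
 (c (nat_lit 0x8000080000815a4814a278694) e
 (c (nat_lit 0x800008000080000815a484334) e e))))))))))))))
 (c (a (nat_lit 0xfdffe00))
 (c (nat_lit 0x85a2c85a3185a2185a15de834) e
 (c (nat_lit 0x82738827388273882737e9f34) e
 (c (nat_lit 0x81124811248112581125d2244) e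
 (c (nat_lit 0x80f6880f6a80f6a80f6b59224) e
 (c (nat_lit 0x810668106681066810676e0f4) e
 (c (nat_lit 0x8106181062810638106526844) e
 (c (nat_lit 0x8105381054810568105856634) e
 (c (nat_lit 0x8106b8103a8103e81040b39a4) e
 (c (nat_lit 0x811918111a810218102270414) e
 (c (nat_lit 0x8116f811708110281001009b4) e
 (c (nat_lit 0x80029811598115e810f05fb44) e
 (c (nat_lit 0x80000800008114581147bbfb4) e
 (c (nat_lit 0x80000800008000081142e0c94) e e)))))))))))))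
 (c (a (nat_lit 0xfdffe00)) e
 (c (a (nat_lit 0xfdffe00)) e
 (c (a (nat_lit 0xfdffe00)) e
 (c (a (nat_lit 0xfdffe00)) e
 (c (a (nat_lit 0xfdffe00)) e
 (c (a (nat_lit 0xfdffe00)) e
 (c (a (nat_lit 0xfdffe00)) e
 (c (a (nat_lit 0xfdffe00)) e
 (c (a (nat_lit 0xfe00000)) e
 (c (nat_lit 0x7efff7f0007f000cb8d0) e
 (c (nat_lit 0x7f0017f0007f000bad41) e
 (c (nat_lit 0x7f0027f0027f00069279) e
 (c (nat_lit 0x7f00e7f00e7f00d51321) e
 (c (nat_lit 0x7ffd97ffd77ffd79c729) e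
 (c (nat_lit 0x7efff7effe7efffd9739) e
 (c (nat_lit 0x7f43b7f43a7f4393968a) e
 (c (nat_lit 0x7f43e7f43d7f43c44852) e
 (c (a (nat_lit 0xff2ba03)) e
 (c (a (nat_lit 0xff2be03)) e
 (c (nat_lit 0x7fb907fb927fb93ab69b) e
 (c (nat_lit 0x7ff7d7ff7c7ff7d1c6fb) e
 (c (nat_lit 0x7e6a07e69f7e69f77aeb) e e)))))))))))))))))))))))))))))) Tr.c Tr.e (nat_lit 0) C.t3 C.t4 C.t5
noncomputable def tt674 : Tr := beta% (fun (c : Nat → Tr → Tr → Tr) (e : Tr) (z : Nat) (a b : Nat → Nat) =>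
 (c (a (nat_lit 0x10200600))
 (c z e
 (c (nat_lit 0x7ef7c7ef7b7ef477ef477ef7c48184) e
 (c (nat_lit 0x7ef4c7ef4c7ef4c7ef307ef4c2f6c4) e
 (c (nat_lit 0x7dc177dbe67dbe67dc0d7dc1744764) e
 (c (b (nat_lit 0xf9ef205)) e
 (c (b (nat_lit 0xfc86405)) e
 (c z e
 (c z e
 (c (b (nat_lit 0xf5fae05)) e
 (c (nat_lit 0x7eac97eb067ebef7ebef7ebefc6846) e
 (c (nat_lit 0x7ea8b7ea777ea8b7ea8b7ea8b15fc6) e e)))))))))))
 (c (nat_lit 0x80fff8100080fff80ffe19360)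
 (c (nat_lit 0x7fd2b7fd2b7fd247fcec7fd2b55424) e
 (c (nat_lit 0x7ea887ea867ea7e7ea847ea880db24) e
 (c (nat_lit 0x7e8787e8787e8737e8637e866b3b25) e
 (c (b (nat_lit 0xfceb605)) e
 (c (b (nat_lit 0xfd2b205)) e
 (c (nat_lit 0x7d51c7d51c7d51c7d5197d519bfd85) e
 (c z e
 (c (nat_lit 0x7d34f7d3327d34f7d34f7d34ff7286) e
 (c (nat_lit 0x7f6ad7f6a47f6ad7f6ad7f6ad157a6) e
 (c (nat_lit 0x7eef67eef67eef47eef67eef6a000a) e e))))))))))
 (c (nat_lit 0x80ffd80ffe80ffe80ffd03800)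
 (c (nat_lit 0x7e8a17e89a7e89a7e89f7e8a10fb45) e
 (c (nat_lit 0x7e8957e8957e88d7e88d7e89559a25) e
 (c (nat_lit 0x7ed117ed117ed117ecf57ecf582525) e
 (c (nat_lit 0x7f00a7f00a7f00a7efcf7efcf404a5) e
 (c z e
 (c z e
 (c (b (nat_lit 0xf9e3a06)) e e)))))))
 (c (nat_lit 0x80ffd80ffe80fff80fff5f700)
 (c (b (nat_lit 0xfd36805)) e
 (c (b (nat_lit 0xfc3be05)) e
 (c (b (nat_lit 0xf8caa05)) e
 (c z e
 (c z e
 (c z e
 (c (nat_lit 0x8000080000800007ff868000089349) e e)))))))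
 (c (nat_lit 0x81004810028100281002cb191) e
 (c (a (nat_lit 0x10200001)) e
 (c (nat_lit 0x810038100a8100a81002a4e21) e
 (c (nat_lit 0x7d3be7d3be7d3be7d3c0b7151) e
 (c (nat_lit 0x8068e806868068e8068e14431) e
 (c (nat_lit 0x8167b81677816728167ad9b22) e
 (c (nat_lit 0x8167e816838167681672ee3b2) e
 (c (nat_lit 0x80644806448064580645b0033) e
 (c (nat_lit 0x809d2809d3809d4809d40dfe3) e
 (c (a (nat_lit 0xff6fa03)) e
 (c (a (nat_lit 0xffbc403)) e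
 (c (nat_lit 0x8086a808698086980869a22e3) e
 (c (nat_lit 0x807fe807fd807f18080096ec4) e
 (c (nat_lit 0x80faa80faa80fa780fa2c93e4) e
 (c (nat_lit 0x80fae80fae80fad80fab36504) e
 (c (nat_lit 0x80fb080fb280fb380fb4ef425) e
 (c (nat_lit 0x80fdb80fda80fd980fd6abdf5) e
 (c (nat_lit 0x80fd580fd580fd780fc714465) e
 (c (nat_lit 0x7fb167fb167fb097fb09e6f55) e
 (c (nat_lit 0x81104815f48159b8092c63315) e
 (c (nat_lit 0x8050980cc9811ba81161240c6) e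
 (c (nat_lit 0x805038050880cc28119e2b576) e e))))))))))))))))))))))))))) Tr.c Tr.e (nat_lit 0) C.t4 C.t5
noncomputable def tt675 : Tr := beta% (fun (c : Nat → Tr → Tr → Tr) (e : Tr) (z : Nat) (a b : Nat → Nat) =>
 (c (a (nat_lit 0x100f8a00))
 (c (b (nat_lit 0x1012f203)) e
 (c z e
 (c z e
 (c z e
 (c (nat_lit 0x7f5d77f5e07f5e07f5e07f5e0bb1c4) e
 (c (nat_lit 0x7e94c7e9477e9567e9717e9b0e37e4) e
 (c (nat_lit 0x7e1d57e1a57e19f7e1b07e1d552c65) e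
 (c (nat_lit 0x7dbdb7dbdb7dbca7dbca7dbdbd1765) e
 (c (b (nat_lit 0xfe57a05)) e
 (c (b (nat_lit 0xfa9a005)) e
 (c (nat_lit 0x7dba47dba77dbb97dbb97dbb95f065) e
 (c (nat_lit 0x7ebbb7ebae7ebbb7ebbb7ebbb38d66) e
 (c (nat_lit 0x7e67f7e67f7e6787e67f7e67fb4a06) e
 (c (nat_lit 0x8000080000800007fd317fd31a4a86) e
 (c (nat_lit 0x800008000080000800007fd52b27e6) e e)))))))))))))))
 (c (nat_lit 0x810028100281002810039a570)
 (c (b (nat_lit 0xffbde03)) e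
 (c z e
 (c z e
 (c (nat_lit 0x7edfc7edea7edf57edf77edfc5fe24) e
 (c (b (nat_lit 0xf9dde05)) e
 (c z e
 (c (nat_lit 0x80000800007ffc27ffc27ffc2e8165) e
 (c z e
 (c (nat_lit 0x8000080000800007fffa7ffface2c5) e
 (c (nat_lit 0x7d0a27d0957d0a27d0a27d0a2a23a6) e
 (c (nat_lit 0x7e8d77e8d77e8a27e8d77e8d742be6) e
 (c (b (nat_lit 0xfcfac0a)) e
 (c (nat_lit 0x8000080000800007fe397fe31ff7aa) e
 (c (nat_lit 0x800008000080000800007ff273cfea) e e))))))))))))))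
 (c (nat_lit 0x81002810018100181001c03b0)
 (c (b (nat_lit 0xff94804)) e
 (c (nat_lit 0x7fcb27fcac7fcb27fc987fcb2adba4) e
 (c (nat_lit 0x7e9b87e9847e97d7e9887e9b8159a5) e
 (c (b (nat_lit 0xfb9f605)) e
 (c (b (nat_lit 0xfdffe05)) e
 (c z e
 (c (b (nat_lit 0xfff9e05)) e
 (c z e
 (c (b (nat_lit 0xfd8b006)) e
 (c (nat_lit 0x7ea367ea317ea367ea367ea3687b2a) e
 (c (b (nat_lit 0xfda080a)) e e)))))))))))
 (c (nat_lit 0x80ff980ffb80ffb80ffbb86b0)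
 (c (nat_lit 0x7e9fb7e9ee7e9ee7e9fb7e9fbd2225) e
 (c (nat_lit 0x7e9217e9207e90c7e90c7e921d1fe5) e
 (c (nat_lit 0x7eec97eec97eec97eeb17eeb930205) e
 (c z e
 (c (b (nat_lit 0xf59ba05)) e
 (c z e
 (c z e
 (c (nat_lit 0x7edc97ed9d7edc97edc97edc96f989) e e))))))))
 (c (nat_lit 0x81001810008100080fff27450)
 (c (nat_lit 0x7e9d07e9d07e9d07e98f7e98fc2a65) e
 (c (nat_lit 0x7f2217f2217f2217f1f77f1f7b4ea5) e
 (c (nat_lit 0x7efa27efa27efa27efa27ef9a4bd25) e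
 (c (nat_lit 0x7ea9f7ea527ea527ea9f7ea9f44b46) e
 (c (nat_lit 0x7d3257d3257d2b97d2b97d325aff26) e
 (c z e
 (c (b (nat_lit 0xfc48c09)) e
 (c (nat_lit 0x8000080000800007f17e7f17eea809) e e))))))))
 (c (nat_lit 0x80fff810008100080fff9de10)
 (c (b (nat_lit 0xfe45e05)) e
 (c (nat_lit 0x7f1477f1477f16b7f16b7f16b10446) e
 (c (nat_lit 0x7ef2b7ee697ee697ef2b7ef2bf1f26) e e)))
 (c (nat_lit 0x80fff810008100081000c3c71)
 (c (nat_lit 0x7ecf87eb0a7ecf87ecf87ecf8919c6) e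
 (c (nat_lit 0x80000800007e8307e95f7e95f0b490) e e))
 (c (nat_lit 0x80fff80ffe80fff80fffb0e51) e
 (c (a (nat_lit 0xfd98601)) e
 (c (a (nat_lit 0xff67001)) e
 (c (nat_lit 0x815b4815b4815b7815b6a52c1) e
 (c (nat_lit 0x815b0815af815af815af26b82) e
 (c (a (nat_lit 0x102b5c02)) e
 (c (nat_lit 0x80d8c80d8c80d8b80d8b4d343) e
 (c (nat_lit 0x80f1780f1780f1780f160ce53) e
 (c (nat_lit 0x8005680057800578005769023) e
 (c (nat_lit 0x7ff6b7ff6c7ff6c7ff6cab613) e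
 (c (nat_lit 0x8102a81029810168100bf39f3) e
 (c (nat_lit 0x80a2980a2b80a2b80a2ac9c94) e
 (c (a (nat_lit 0x101e8204)) e
 (c (nat_lit 0x80f3780f3880f3880f394d015) e
 (c (nat_lit 0x80f3480f3380f3380f34b8215) e
 (c (nat_lit 0x805ab805af805af805afc48d5) e
 (c (nat_lit 0x7f55d7fd807fd807fd8029005) e
 (c (nat_lit 0x80bbe8101780a4e80a4ed99a5) e
 (c (nat_lit 0x8051c8077480bd380bd2581b6) e
 (c (nat_lit 0x80521805248077280bc8f8946) e
 (c (nat_lit 0x80000800008000080252667f6) e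
 (c z e
 (c z e
 (c z e
 (c (nat_lit 0x80000800008000080a6bd8c37) e e))))))))))))))))))))))))))))))))) Tr.c Tr.e (nat_lit 0) C.t4 C.t5
noncomputable def tt676 : Tr := beta% (fun (c : Nat → Tr → Tr → Tr) (e : Tr) (z : Nat) (a b : Nat → Nat) =>
 (c (a (nat_lit 0x1012fa00))
 (c z
 (c (nat_lit 0x7fa387fa387fa387f7667fa387fa3824b86) e
 (c (nat_lit 0x78d7d78d7d78d7d78c5178d7d78d7d92546) e e))
 (c (nat_lit 0x8072180721807218071d807215be22)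
 (c (nat_lit 0x7ac0e7ac0e7ac0e7aab07ac0e7ac0eb3d52) e e)
 (c z e
 (c z e
 (c z e
 (c z e
 (c (b (nat_lit 0x10193403)) e
 (c (b (nat_lit 0xff83004)) e
 (c (nat_lit 0x80d2e80d0c80d2a80d2e80d2e28925) e
 (c (nat_lit 0x7ec847eb337eb337ec847ec847e2a5) e
 (c z e
 (c z e
 (c (nat_lit 0x7ee897ef837ef837ef837ef83118c5) e
 (c (nat_lit 0x7e1547e1477e1547e1547e1548c646) e
 (c (nat_lit 0x7e1517e1517e1507e1517e151f0246) e
 (c (nat_lit 0x8000080000800007f5877f587b4826) e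
 (c (nat_lit 0x800008000080000800007ff8db0226) e
 (c z e
 (c z e
 (c (nat_lit 0x800008000080000800007ff0787ba7) e e))))))))))))))))))))
 (c (a (nat_lit 0x10200000))
 (c (b (nat_lit 0xfdabe03)) e
 (c z e
 (c z e
 (c z e
 (c z e
 (c z e
 (c (b (nat_lit 0xfd0dc05)) e
 (c (nat_lit 0x7df677dd307df0e7df0e7df67034e5) e
 (c (nat_lit 0x8000080000800007fec17fec12e0c5) e
 (c z e
 (c (b (nat_lit 0xfee8605)) e
 (c (nat_lit 0x7d0c77d0b87d0c77d0c77d0c7f0946) e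
 (c (b (nat_lit 0xfa12606)) e
 (c (nat_lit 0x7e2087e2087e2057e2087e208d24ca) e
 (c (nat_lit 0x8000080000800007eb907eb91aa46a) e e)))))))))))))))
 (c (a (nat_lit 0x10200200))
 (c z e
 (c z e
 (c z e
 (c (nat_lit 0x7fec07fec07fd707fd707fec0afda4) e
 (c z e
 (c z e
 (c z e
 (c z e
 (c z e
 (c z e
 (c (nat_lit 0x7e1b87e1ab7e1b87e1b87e1b8eadc6) e
 (c (nat_lit 0x7eb7a7eb787eb7a7eb7a7eb7a4bbea) e
 (c (b (nat_lit 0xfe4700a)) e e)))))))))))))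
 (c (a (nat_lit 0x101ffe00))
 (c (nat_lit 0x7ff808000080000800008000046d23) e
 (c (nat_lit 0x7fd4a7fd4b7fd367fd4b7fd4b33604) e
 (c (nat_lit 0x7f4147f4147f4057f4147f414c88e5) e
 (c z e
 (c z e
 (c z e
 (c z e
 (c z e
 (c z e
 (c z e
 (c (nat_lit 0x7f8b47f8b47f8b07f8b47f8b4cdeca) e
 (c (b (nat_lit 0xff2280a)) e e))))))))))))
 (c (nat_lit 0x80fff810008100081000bed80)
 (c (nat_lit 0x7fceb7fcdc7fceb7fceb7fcebacac5) e
 (c (nat_lit 0x7e9167e8c17e8c17e9167e91664245) e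
 (c (b (nat_lit 0xfd46a05)) e
 (c z e
 (c (nat_lit 0x7fcb480000800008000080000e6e05) e
 (c z e
 (c (nat_lit 0x7fe7780000800008000080000a4386) e
 (c z e
 (c (nat_lit 0x800007ffcd7ffcd7ffcd8000038889) e e)))))))))
 (c (nat_lit 0x80ffb80ffd80ffd80ffd70f20)
 (c (nat_lit 0x7ecb07ecb07ebb47ebb47ecb00c525) e
 (c (b (nat_lit 0xfbf1405)) e
 (c z e
 (c (nat_lit 0x7eccd7ecb77eccd7eccd7eccdc5f26) e e))))
 (c (nat_lit 0x810038100281002810027f720)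
 (c z e
 (c (nat_lit 0x7eeb77eeb77efa77efa77efa75cb46) e
 (c (b (nat_lit 0xfc6da06)) e e)))
 (c (nat_lit 0x80ffe80fff8100080fff939a0)
 (c (nat_lit 0x7f8907fa5d7fa5d7fa5d7fa5df3346) e
 (c (nat_lit 0x7e76a7e6577e76a7e76a7e76a07bf0) e e))
 (c (nat_lit 0x80ffe810008100081000551c1)
 (c (nat_lit 0x80000800008129e8129e8129eea228) e
 (c z e
 (c z e
 (c (nat_lit 0x800008000080000800007ec3ab7ee7) e e))))
 (c (nat_lit 0x80ffc80ffe80fff80fff69051) e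
 (c (nat_lit 0x7fe7f7fe807fe807fe80b7c11) e
 (c (a (nat_lit 0xffc5e01)) e
 (c (nat_lit 0x806c5806c5806f2806f1934e1) e
 (c (a (nat_lit 0x102ae202)) e
 (c (nat_lit 0x8156d8156e8156f8156fedc62) e
 (c (nat_lit 0x7fb2b7fb2a7fb2a7fb2a0a7e3) e
 (c (nat_lit 0x805fc805fc805fb805fbd4c23) e
 (c (nat_lit 0x80aeb80aeb80aeb80aecad843) e
 (c (a (nat_lit 0x100e8803)) e
 (c (nat_lit 0x8102e8102d810308102832543) e
 (c (nat_lit 0x809b5809bd809bd809b89f594) e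
 (c (nat_lit 0x80ed280ed680ed980eda99385) e
 (c (nat_lit 0x80ee580ee480ee580ee7e0355) e
 (c (nat_lit 0x80ee680ee080ee180ee27e6d5) e
 (c (nat_lit 0x8013d8013e7fe597fe39255a5) e
 (c (nat_lit 0x80a6a8115380fba804566c2d5) e
 (c (nat_lit 0x805268062480d0d80d0a248d6) e
 (c (nat_lit 0x80522805238061e80cf71f4d6) e
 (c z e
 (c z e
 (c z e
 (c z e
 (c (nat_lit 0x80000800008039080390b3f57) e e)))))))))))))))))))))))))))))))))) Tr.c Tr.e (nat_lit 0) C.t4 C.t5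
noncomputable def tt677 : Tr := beta% (fun (c : Nat → Tr → Tr → Tr) (e : Tr) (z : Nat) (a b d : Nat → Nat) =>
 (c (a (nat_lit 0x10200400))
 (c (b (nat_lit 0xfd91401))
 (c (d (nat_lit 0xf945c05)) e
 (c z e
 (c z e
 (c (d (nat_lit 0xf998606)) e
 (c (nat_lit 0x8000080000800007fa54800008000094fc6) e
 (c z e
 (c (d (nat_lit 0x1024b421)) e e)))))))
 (c (b (nat_lit 0xf9db601)) e
 (c z
 (c z e
 (c z e
 (c z e
 (c z e
 (c (d (nat_lit 0xfff4e21)) e e)))))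
 (c (nat_lit 0x8033b8033b803358033b8033b97fe2)
 (c (d (nat_lit 0xfffe012)) e e)
 (c (b (nat_lit 0xfef1402)) e
 (c z e
 (c z e
 (c z e
 (c z e
 (c z e
 (c (nat_lit 0x798f8797f8797f8798f8798f80bc45) e
 (c (nat_lit 0x7f9337f9337f8ee7f9337f93304fe5) e
 (c (nat_lit 0x7e7317e7317e7317e6807e731e1c45) e
 (c z e
 (c (b (nat_lit 0xfbfba05)) e
 (c (nat_lit 0x7e4ae7e4a97e4ae7e4ae7e4ae28b66) e
 (c (nat_lit 0x7e49b7e49b7e4987e49b7e49b43ce6) e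
 (c (nat_lit 0x8000080000800007f9c77f9e08c2c6) e e))))))))))))))))))
 (c (a (nat_lit 0x10200200))
 (c z e
 (c (nat_lit 0x801898018980187801898018915b02)
 (c (nat_lit 0x7bcfa7bcfa7bcfa7bcd87bcfa7bcfa88b0a) e e)
 (c (nat_lit 0x802548025480250802478025409382) e
 (c z e
 (c z e
 (c z e
 (c z e
 (c z e
 (c (b (nat_lit 0x10448005)) e
 (c z e
 (c (b (nat_lit 0xfe95605)) e
 (c z e
 (c z e
 (c z e
 (c (nat_lit 0x7e0607e0607e05c7e0607e060ccce6) e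
 (c (nat_lit 0x7ea337ea337ea327ea327ea333e26a) e
 (c (nat_lit 0x8000080000800007f6d97f6d946d07) e e)))))))))))))))))
 (c (a (nat_lit 0x10200400))
 (c (nat_lit 0x809fd809fc809fc809fd809fd21542)
 (c (d (nat_lit 0xf9bc80a)) e e)
 (c z e
 (c z e
 (c z e
 (c z e
 (c (b (nat_lit 0x1081d803)) e
 (c (b (nat_lit 0xf8f5c05)) e
 (c (nat_lit 0x80000800007fff67fff68000078585) e
 (c z e
 (c z e
 (c z e
 (c (b (nat_lit 0xfe1a606)) e
 (c (nat_lit 0x7d4f37d4ec7d4f37d4f37d4f319ee6) e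
 (c (nat_lit 0x7dea97dea87dea07dea97dea922eca) e
 (c (nat_lit 0x7e3387e3387e3387e3347e3387db4a) e
 (c (nat_lit 0x8000080000800007ffcd7ffcd5d9a7) e e))))))))))))))))
 (c (a (nat_lit 0x10200200))
 (c z e
 (c z e
 (c z e
 (c z e
 (c z e
 (c (nat_lit 0x80000800007ff667ff667ff66b2985) e
 (c z e
 (c z e
 (c z e
 (c z e
 (c z e
 (c (nat_lit 0x7e3d57e3d27e3d57e3d57e3d51fa69) e
 (c (nat_lit 0x7e05a7e05a7e0577e05a7e05a4b1aa) e
 (c (nat_lit 0x7f34a7f34a7f34a7f3407f34aad20a) e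
 (c z e
 (c z e
 (c (nat_lit 0x800008000080000800007fe3398f27) e e)))))))))))))))))
 (c (nat_lit 0x81000810018100181001a6530)
 (c z e
 (c z e
 (c (nat_lit 0x7fc1a7fc157fc1a7fc1a7fc1a00445) e
 (c (b (nat_lit 0xfdef405)) e
 (c z e
 (c z e
 (c z e
 (c (nat_lit 0x77e0177dd977dd977e0177e01bc106) e
 (c (b (nat_lit 0xfed2a06)) e
 (c z e
 (c (b (nat_lit 0x10030009)) e
 (c (nat_lit 0x80000800007ffef7ffed80000f974a) e e))))))))))))
 (c (a (nat_lit 0x101ffe00))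
 (c (nat_lit 0x7fcd97fcd97fcf37fcf37fcf381d85) e
 (c (nat_lit 0x7f3a97f3847f3847f3a97f3a90adc5) e
 (c (b (nat_lit 0xfe7de05)) e
 (c z e
 (c (b (nat_lit 0xfd20405)) e e)))))
 (c (nat_lit 0x80ffe80ffe80ffe80ffd4cbe0)
 (c (b (nat_lit 0xfd00005)) e
 (c (nat_lit 0x7efbb7efbb7efbb7ee5d7ee5d41dc5) e
 (c (b (nat_lit 0xfca7405)) e
 (c (nat_lit 0x7eaa27eab77eab77eab77eab716cc6) e
 (c (nat_lit 0x7eb8f7eb8f7eb807eb8f7eb8ff4326) e
 (c z e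
 (c z e
 (c (b (nat_lit 0xfff1209)) e
 (c (b (nat_lit 0xff1ee09)) e e)))))))))
 (c (nat_lit 0x810018100080fff80ffe40320)
 (c (nat_lit 0x7f9507f8fb7f9507f9507f9502f9e5) e
 (c (b (nat_lit 0xfeae606)) e
 (c (nat_lit 0x7eb357eb357eb357eb337eb352dcc6) e e)))
 (c (nat_lit 0x80ffd80ffe80ffe80ffe10340)
 (c (nat_lit 0x7e76b7e76b7e7127e76b7e76bb4f86) e
 (c (nat_lit 0x7e0397e2ad7e2ad7e2ad7e2ad2b2a8) e
 (c (b (nat_lit 0xf3f9a10)) e e)))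
 (c (nat_lit 0x81002810018100181001693b0)
 (c (nat_lit 0x818d68197b8197b8197b8197b2c688) e e)
 (c (a (nat_lit 0x10200401)) e
 (c (a (nat_lit 0x10200401))
 (c (nat_lit 0x8000080000800007fffc80000f3a48) e e)
 (c (nat_lit 0x808bc808bc80899808996fa31) e
 (c (a (nat_lit 0xffc7e01)) e
 (c (nat_lit 0x81660816608165f8165fac241) e
 (c (nat_lit 0x8165e8165f8165f8165f0acb2) e
 (c (nat_lit 0x816618166181660816600f022) e
 (c (nat_lit 0x7ff3f7ff3f7ff3e7ff3f170c3) e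
 (c (a (nat_lit 0x1023b203)) e
 (c (nat_lit 0x8086e8086f8086e8086dfa3c3) e
 (c (a (nat_lit 0xffbbc03)) e
 (c (nat_lit 0x7fe827fe877fe837fe83d9ae3) e
 (c (nat_lit 0x807ff807fd8082a80813d6935) e
 (c (nat_lit 0x80f7280f7080f7380f741eb55) e
 (c (a (nat_lit 0x10112805)) e
 (c (nat_lit 0x7fdf97fe207fe267fe26feca5) e
 (c (nat_lit 0x8057880dc380d8e809aa1cdc5) e
 (c (nat_lit 0x8050e80604808fc80939b9346) e
 (c (nat_lit 0x8051e8051c8060b8097c2fb06) e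
 (c z e
 (c z e
 (c (nat_lit 0x8000080000800eb800eba9347) e
 (c z e
 (c (nat_lit 0x80000804e4804e4804e412367) e e))))))))))))))))))))))))))))))))))) Tr.c Tr.e (nat_lit 0) C.t4 C.t5 C.t6
noncomputable def tt678 : Tr := beta% (fun (c : Nat → Tr → Tr → Tr) (e : Tr) (z : Nat) (a b d : Nat → Nat) =>
 (c (a (nat_lit 0x10200000))
 (c (b (nat_lit 0xfdffa01))
 (c (nat_lit 0x7d3997d3997d3997d36f7d3997d39924d85) e e)
 (c (b (nat_lit 0xfe00001)) e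
 (c z e
 (c (nat_lit 0x80afe80af080afe80afe80afe34fe1) e
 (c (nat_lit 0x7ff887ff767ff687ff887ff884e382) e
 (c (nat_lit 0x800007f269800008000080000f4cc2) e
 (c z e
 (c z e
 (c z e
 (c z e
 (c z e
 (c (nat_lit 0x7eabc7e86e7e86e7eabc7eabc03165) e
 (c (nat_lit 0x7fc487fc487fc487fc447fc48faa25) e
 (c (b (nat_lit 0x100d8405)) e
 (c z e
 (c (nat_lit 0x7f4757f5247f5247f5247f52459926) e
 (c (nat_lit 0x7f4417f44c7f4067f44c7f44ce5806) e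
 (c z e
 (c (nat_lit 0x800007fef3800007fff87ffe60de67) e e)))))))))))))))))))
 (c (nat_lit 0x81001810018100081000e6ad0)
 (c (b (nat_lit 0xfece001))
 (c z e
 (c z e
 (c z e
 (c z e
 (c (d (nat_lit 0xffc0c07)) e e)))))
 (c z e
 (c (nat_lit 0x7faa97faa97faa77faa97faa9b80c2) e
 (c (nat_lit 0x7ef267ef267ef227ef217ef261de02) e
 (c z e
 (c z e
 (c z e
 (c z e
 (c z e
 (c z e
 (c z e
 (c z e
 (c z e
 (c z e
 (c (b (nat_lit 0xfbaa206)) e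
 (c (b (nat_lit 0xfec7e07)) e
 (c (nat_lit 0x7fb497fb497fb457fb497fb498f847) e
 (c z e
 (c z e
 (c (nat_lit 0x8000080000800007fdd67fdd6b1467) e e))))))))))))))))))))
 (c (a (nat_lit 0x10200000))
 (c (b (nat_lit 0x1004ca02))
 (c (d (nat_lit 0xf6c5207)) e e)
 (c z e
 (c z e
 (c z e
 (c z e
 (c z e
 (c z e
 (c (nat_lit 0x80af480ae980ae980af480af4b33c5) e
 (c z e
 (c z e
 (c z e
 (c z e
 (c z e
 (c (nat_lit 0x7e51e7e51d7e51e7e51e7e51e05627) e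
 (c (nat_lit 0x7e3a37e3a37e3a27e3a37e3a35a6e7) e
 (c (nat_lit 0x7f24b7f24b7f24b7f23c7f24b858a7) e e))))))))))))))))
 (c (a (nat_lit 0x10200400))
 (c z e
 (c z e
 (c z e
 (c z e
 (c z e
 (c z e
 (c z e
 (c z e
 (c (b (nat_lit 0xfeccc05)) e
 (c (b (nat_lit 0xfdf6606)) e
 (c z e
 (c z e
 (c (nat_lit 0x7fb497fb3f7fb497fb497fb49dbf07) e e)))))))))))))
 (c (a (nat_lit 0x10200000))
 (c (b (nat_lit 0xfccdc03)) e
 (c z e
 (c z e
 (c z e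
 (c z e
 (c (b (nat_lit 0x1043c205)) e
 (c z e
 (c (nat_lit 0x7f5397f5397f4f87f5007f53905486) e e))))))))
 (c (a (nat_lit 0x101ffc00))
 (c (b (nat_lit 0xff50003)) e
 (c (b (nat_lit 0xfe31005)) e
 (c z e
 (c z e
 (c (nat_lit 0x800007fff17fff18000080000a7b65) e
 (c z e
 (c (b (nat_lit 0xfe74a06)) e
 (c z e
 (c (b (nat_lit 0xffef407)) e e)))))))))
 (c (a (nat_lit 0x101ffe00))
 (c (b (nat_lit 0xfd51c05)) e
 (c (nat_lit 0x8000080000800007fe327fe3295e05) e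
 (c (nat_lit 0x7f4ae7f4af7f4407f4af7f4afabd05) e
 (c (nat_lit 0x7f6547f70b7f70b7f70b7f70b5e026) e
 (c z e
 (c (b (nat_lit 0xf98c807)) e
 (c (b (nat_lit 0x1015b407)) e e)))))))
 (c (nat_lit 0x81000810008100080fff21a30)
 (c (b (nat_lit 0xfcf1e05)) e
 (c (nat_lit 0x7f8b77f8a67f8b77f8b77f8b7e4aa6) e
 (c (b (nat_lit 0xfadf206)) e
 (c z e
 (c z e
 (c (b (nat_lit 0x101b5e07)) e e))))))
 (c (nat_lit 0x8100080fff80fff80fffdfd80)
 (c (nat_lit 0x7eb547eb3c7eb247eb547eb54feb46) e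
 (c (nat_lit 0x7d74e7d7697d6c87d7697d7698c887) e
 (c (b (nat_lit 0xfd72007)) e e)))
 (c (a (nat_lit 0x10200000))
 (c (nat_lit 0x8120d811e3811e38120d8120d4d807) e
 (c (b (nat_lit 0xfb4d207)) e
 (c z e
 (c (b (nat_lit 0xfc82e07)) e e))))
 (c (a (nat_lit 0x10200000))
 (c z e
 (c z e
 (c (nat_lit 0x8000080000800007f5887f5884a648) e
 (c (nat_lit 0x800008000080000800007f5d4ca248) e e))))
 (c (nat_lit 0x8100781001810018100273891)
 (c (nat_lit 0x80000800007b5637b5697b56920dc8) e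
 (c z e
 (c (nat_lit 0x800008000080000800007fd34f22a8) e e)))
 (c (nat_lit 0x7eaf97eaf97eaf97eafa38bf1) e
 (c (nat_lit 0x806d6806d5806d5806d593ea1) e
 (c (nat_lit 0x8002480023800238002407381) e
 (c (nat_lit 0x80ec280ec380ec380ec31b0b1) e
 (c (nat_lit 0x80ec380ec480ec280ec402a32) e
 (c (nat_lit 0x80ecc80ece80ec280ecc61892) e
 (c (nat_lit 0x801c6801c6801c7801b42d143) e
 (c (nat_lit 0x80b1180b1180b1080b1100b33) e
 (c (nat_lit 0x80ab880ab880ab980ab92a5a3) e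
 (c (nat_lit 0x7fff67fff87fff77fff588483) e
 (c (a (nat_lit 0x101fc603)) e
 (c (nat_lit 0x80f7880f7680f7680f75d0085) e
 (c (a (nat_lit 0x100c4205)) e
 (c (nat_lit 0x8049d805ef8019480194e2365) e
 (c (nat_lit 0x80d9881474814b280d9580c65) e
 (c (nat_lit 0x80c9280c888104b8108cf7536) e
 (c (nat_lit 0x80c7e80c8180c8280c8088b56) e
 (c (nat_lit 0x8078e8078e8078d8078ce91a7) e
 (c (nat_lit 0x8079280792807928078879b57) e
 (c (a (nat_lit 0x100e2a07)) e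
 (c (a (nat_lit 0x100a5607)) e
 (c (nat_lit 0x80bc680bbd80bbc80bbc06d07) e e))))))))))))))))))))))))))))))))))) Tr.c Tr.e (nat_lit 0) C.t4 C.t5 C.t6
noncomputable def tt679 : Tr := beta% (fun (c : Nat → Tr → Tr → Tr) (e : Tr) (z : Nat) (a b d : Nat → Nat) =>
 (c (a (nat_lit 0xfdfec00))
 (c z
 (c (d (nat_lit 0xd9ffc07)) e e)
 (c z e
 (c z e
 (c z e
 (c z e
 (c z e
 (c (nat_lit 0x80000800007ffd77ff67800008000054b06) e
 (c z e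
 (c z e
 (c z e
 (c (b (nat_lit 0x1086f007)) e e)))))))))))
 (c (a (nat_lit 0xfe00601))
 (c (nat_lit 0x7902a7902a78ff77902a7902a7902ab6585) e
 (c z e
 (c z e
 (c z e
 (c z e
 (c z e
 (c z e
 (c z e
 (c z e
 (c z e
 (c z e
 (c (nat_lit 0x80000800007d39a7d3fc7d3fc7d3fc879a0) e e))))))))))))
 (c (a (nat_lit 0xfdffe01)) e
 (c (a (nat_lit 0xfe00001))
 (c z e
 (c z e
 (c z e
 (c z e
 (c (b (nat_lit 0xfe10407)) e e)))))
 (c (a (nat_lit 0xfdfca01)) e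
 (c (a (nat_lit 0xfd6e001)) e
 (c (nat_lit 0x7f8a87f9697f9697f9697f969f3942) e
 (c (nat_lit 0x7f02c7ee8b7f02c7f02c7f02cfad82) e
 (c z e
 (c (a (nat_lit 0x10128803)) e
 (c (a (nat_lit 0xf825e03)) e
 (c z e
 (c z e
 (c (a (nat_lit 0x104dde05)) e
 (c (nat_lit 0x7eaa77eaa77eaa77ea0b7eaa74dea5) e
 (c z e
 (c (a (nat_lit 0xfe05205)) e
 (c (nat_lit 0x7f03a7f0337f0547f0547f0541c6e6) e
 (c (nat_lit 0x7f0167f0127f0157f0167f016f0086) e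
 (c (a (nat_lit 0xff92a07)) e
 (c (nat_lit 0x7f7527f7527f73e7f7527f752c9cc7) e
 (c z e
 (c (nat_lit 0x80f5f80f5f80f5f80ecc80f5f82f27) e
 (c (a (nat_lit 0xffb9407)) e e))))))))))))))))))))))))) Tr.c Tr.e (nat_lit 0) C.t5 C.t6 C.t7
noncomputable def tt680 : Tr := beta% (fun (c : Nat → Tr → Tr → Tr) (e : Tr) (z : Nat) (a b : Nat → Nat) =>
 (c (nat_lit 0x80fff80fff8100080fff026a0)
 (c (b (nat_lit 0xfdffc01)) e
 (c (b (nat_lit 0xfdff801)) e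
 (c (b (nat_lit 0xfdffc01)) e
 (c z e
 (c (nat_lit 0x7ff197ff0f80000800008000084c81) e
 (c (nat_lit 0x8010280102800fc8010280102ab862) e
 (c (nat_lit 0x802797ff3e802b7802b7802b737742) e
 (c z e
 (c z e
 (c z e
 (c z e
 (c z e
 (c (nat_lit 0x811a2811a28116b8116b811a2409c5) e
 (c z e
 (c (b (nat_lit 0xfff4805)) e
 (c z e
 (c z e
 (c (nat_lit 0x7f8e97f8e97f8e87f8e97f8e94f947) e
 (c (b (nat_lit 0xfe1ee07)) e
 (c z e
 (c (nat_lit 0x80000800007ff277ff277ff27b96a7) e e)))))))))))))))))))))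
 (c (a (nat_lit 0x10200400))
 (c (nat_lit 0x7f6837f6837f6837f6817f682fdb41) e
 (c z e
 (c (nat_lit 0x809138090b8091980919809193b801) e
 (c (nat_lit 0x7fda57fd847fd847fda57fda5f9dc2) e
 (c (nat_lit 0x7ff4f7fda27ff4f7ff4f7ff4fbe2a2) e
 (c (b (nat_lit 0xfdaa203)) e
 (c z e
 (c z e
 (c z e
 (c z e
 (c z e
 (c z e
 (c z e
 (c z e
 (c z e
 (c (nat_lit 0x7f92a7f9207f92a7f92a7f92a2cb87) e
 (c (nat_lit 0x7ee8b7ee8b7ee7d7ee8b7ee8b6c4e7) e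
 (c (nat_lit 0x7f14d7f14d7f14d7f1467f14d0e2c7) e e))))))))))))))))))
 (c (a (nat_lit 0x10200000))
 (c z e
 (c (nat_lit 0x7fc2b7fc2a7fc277fc2b7fc2bc8422) e
 (c (nat_lit 0x7f0a37f0987f09b7f0a07f0a3cf1e2) e
 (c z e
 (c z e
 (c z e
 (c z e
 (c z e
 (c z e
 (c z e
 (c z e
 (c z e
 (c z e
 (c z e
 (c (nat_lit 0x7e73f7e73a7e73f7e73f7e73ff2747) e
 (c (nat_lit 0x7f6df7f6df7f6dc7f6df7f6df39847) e
 (c z e
 (c (b (nat_lit 0xffe9a07)) e e))))))))))))))))))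
 (c (a (nat_lit 0x10200200))
 (c (b (nat_lit 0xff9c602)) e
 (c z e
 (c z e
 (c z e
 (c z e
 (c z e
 (c z e
 (c z e
 (c z e
 (c (b (nat_lit 0xf837a06)) e
 (c z e
 (c z e
 (c (b (nat_lit 0xfff0a07)) e
 (c (b (nat_lit 0xfd55207)) e e))))))))))))))
 (c (a (nat_lit 0x101ffe00))
 (c (b (nat_lit 0xfc03803)) e
 (c z e
 (c z e
 (c z e
 (c z e
 (c (b (nat_lit 0xfd2d205)) e
 (c z e
 (c (nat_lit 0x7f2457f2457f1fa7f2457f2457c666) e
 (c (nat_lit 0x7e42d7e42d7e42d7e3ea7e42d10126) e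
 (c z e
 (c z e
 (c (b (nat_lit 0xfff6e07)) e
 (c z e
 (c z e
 (c (nat_lit 0x7ffdf80000800008000080000242aa) e e)))))))))))))))
 (c (a (nat_lit 0x101ffc00))
 (c z e
 (c z e
 (c z e
 (c z e
 (c z e
 (c z e
 (c z e
 (c (nat_lit 0x7f5c37f5c37f5c37f4b87f5c32dac7) e
 (c (nat_lit 0x80000800007ffbb7ffbb8000086c87) e
 (c z e
 (c (b (nat_lit 0xffe6c07)) e
 (c (nat_lit 0x7eb997ebdb7ebdb7ebdb7ebdbd4587) e e))))))))))))
 (c (a (nat_lit 0x101ffa00))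
 (c z e
 (c z e
 (c (b (nat_lit 0xfda7c05)) e
 (c (nat_lit 0x7fc977fc657fc417fc977fc9707aa6) e
 (c z e
 (c z e
 (c (nat_lit 0x7f7f47f7f47f7a47f7f47f7f45c1a7) e
 (c z e
 (c z e
 (c (b (nat_lit 0xfeb5007)) e
 (c (nat_lit 0x7fa027f9c87fa027fa027fa024d3e9) e e)))))))))))
 (c (a (nat_lit 0x101ffc00))
 (c (nat_lit 0x7e10d7e0ee7e10d7e10d7e10d785c5) e
 (c (nat_lit 0x7e7fe7e7fe7e7d67e7fe7e7fee8186) e
 (c (b (nat_lit 0xfccae06)) e e)))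
 (c (a (nat_lit 0x10200000))
 (c (nat_lit 0x7eeeb7eea57eeeb7eeeb7eeeb83946) e
 (c (nat_lit 0x7d2847d2847d25f7d2847d284dbb07) e
 (c (nat_lit 0x7d59e7d59e7d5477d5477d59e7d107) e e)))
 (c (nat_lit 0x80fff80fff80fff80ffeb6060)
 (c (nat_lit 0x7d6a77d6a77d6a77d69a7d6a740e87) e e)
 (c (nat_lit 0x810028100181001810018c570)
 (c (b (nat_lit 0xfff3e07)) e
 (c z e
 (c (nat_lit 0x80000800007e0907e0977e097f78e8) e
 (c (nat_lit 0x8000080000800007e0317e0315b3a8) e e))))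
 (c (nat_lit 0x80ffc8100081002810021c2d0)
 (c (b (nat_lit 0xf250208)) e
 (c (nat_lit 0x80000800007cb067cb077cb084d328) e
 (c (nat_lit 0x8000080000800007ef067ef05d7aa8) e e)))
 (c (nat_lit 0x810018100181000810019def1) e
 (c (a (nat_lit 0x10200201)) e
 (c (nat_lit 0x7ff497ff497ff497ff4a291e1) e
 (c (nat_lit 0x7ff7a7ff7b7ff7b7ff7b29341) e
 (c (nat_lit 0x810008100080fff8100028df1) e
 (c (nat_lit 0x80fff80fff80fff81000d0432) e
 (c (nat_lit 0x81003810058100181003af1c2) e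
 (c (nat_lit 0x80cb880cb880cba80cba17723) e
 (c (nat_lit 0x80fd880fd980fd980fd9c4df3) e
 (c (nat_lit 0x7fc2c7fc2d7fc2d7fc2c03583) e
 (c (a (nat_lit 0xff00c03)) e
 (c (a (nat_lit 0xfee9003)) e
 (c (a (nat_lit 0xfe52005)) e
 (c (a (nat_lit 0xfd2f405)) e
 (c (nat_lit 0x80e2b80e2f80e2080e2dca1a5) e
 (c (nat_lit 0x809fa809fd809ff80aa304c06) e
 (c (nat_lit 0x809ee809ec809f3809ee6b1f6) e
 (c (nat_lit 0x804e2804e3804e3804e3a7827) e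
 (c (nat_lit 0x804e2804e2804e3804e39ef37) e
 (c (nat_lit 0x803c880558805588055837877) e
 (c (a (nat_lit 0x1008fa07)) e
 (c (nat_lit 0x80a8180a8180a8180a8211d17) e e))))))))))))))))))))))))))))))))))) Tr.c Tr.e (nat_lit 0) C.t4 C.t5
noncomputable def tt681 : Tr := beta% (fun (c : Nat → Tr → Tr → Tr) (e : Tr) (z : Nat) (a b d : Nat → Nat) =>
 (c (a (nat_lit 0xfe00a00))
 (c (b (nat_lit 0x10587a02))
 (c (d (nat_lit 0xdfa9a06)) e e)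
 (c (b (nat_lit 0x1020fe03))
 (c (nat_lit 0x800008000080000800007ffe480000800005ce86) e e)
 (c z e
 (c z e
 (c z e
 (c z e
 (c z e
 (c z e
 (c (b (nat_lit 0xfa85005)) e
 (c (b (nat_lit 0xfba0a06)) e
 (c (nat_lit 0x7f3187f3187f3187f1f07f3187f318fea06) e
 (c (b (nat_lit 0xf611407)) e e))))))))))))
 (c (a (nat_lit 0xfe00600))
 (c (b (nat_lit 0x1088e603)) e
 (c z e
 (c z e
 (c z e
 (c z e
 (c z e
 (c (b (nat_lit 0xea0cc05)) e
 (c (nat_lit 0x800007ffc280000800008000080000e6fc6) e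
 (c (nat_lit 0x8150481504814e981504815048150407906) e
 (c (nat_lit 0x7fd597fd597fd597fd2c7fd597fd59c92c7) e
 (c (nat_lit 0x7a1a57a1a57a1a57a1a57a1717a1716b947) e e)))))))))))
 (c (a (nat_lit 0xfe00800)) e
 (c (a (nat_lit 0xfdffc00)) e
 (c (a (nat_lit 0xfe00a01)) e
 (c (a (nat_lit 0xfe00801)) e
 (c (nat_lit 0x7f0097f0097f0097f0087f008bebe1) e
 (c (a (nat_lit 0xff15e01)) e
 (c (nat_lit 0x7fb1e7fb247fb417fb417fb411ac61) e
 (c (nat_lit 0x7f8737f8527f85a7f8737f873184c2) e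
 (c (nat_lit 0x7f95e7f95e7f9517f95e7f95e6c962) e
 (c (nat_lit 0x841ad8416c8417b841ad841ade6323) e
 (c z e
 (c z e
 (c z e
 (c z e
 (c z e
 (c z e
 (c (nat_lit 0x7e86d7e8747e8747e8747e8743c125) e
 (c (nat_lit 0x7ec887ec5e7ec887ec887ec883a7a6) e
 (c (nat_lit 0x7ec447ec577ec557ec577ec5767a46) e
 (c (nat_lit 0x7efdf7efdf7efdf7efd37efdf632e7) e
 (c (nat_lit 0x7ed167ed167ecfe7ed167ed16f6ba7) e
 (c (nat_lit 0x800007ffe77ffe77ffe78000088227) e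
 (c (a (nat_lit 0xfffec07)) e
 (c (a (nat_lit 0xfff5c07)) e e))))))))))))))))))))))))))) Tr.c Tr.e (nat_lit 0) C.t5 C.t6 C.t7
noncomputable def tt682 : Tr := beta% (fun (c : Nat → Tr → Tr → Tr) (e : Tr) (z : Nat) (a b : Nat → Nat) =>
 (c (a (nat_lit 0x10200000))
 (c (nat_lit 0x7f6867f6867f6867f6857f6854ea81) e
 (c (b (nat_lit 0xfe00401)) e
 (c (b (nat_lit 0xfdfd201)) e
 (c (nat_lit 0x7fd437fd427fdfe7fdfe7fdfe016e1) e
 (c (b (nat_lit 0xffe4802))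
 (c (nat_lit 0x8000080000800007fd1a7fda67ff6e25f8c) e e)
 (c (nat_lit 0x800007f595800008000080000826c2) e
 (c z e
 (c z e
 (c z e
 (c z e
 (c z e
 (c z e
 (c (b (nat_lit 0xfe2f805)) e
 (c (b (nat_lit 0xfe83806)) e
 (c z e
 (c z e
 (c (b (nat_lit 0xfdfe807)) e
 (c (b (nat_lit 0xfe17a07)) e
 (c (b (nat_lit 0xfef6007)) e
 (c z e
 (c (nat_lit 0x800007ff217ff997ff9980000b454c) e e)))))))))))))))))))))
 (c (a (nat_lit 0x101ffe00))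
 (c z e
 (c z e
 (c (nat_lit 0x7fd627fd667fd6b7fd6b7fd6b0dac2) e
 (c (nat_lit 0x7fdc57fd877ff7a7ff7e800008d922) e
 (c z e
 (c z e
 (c z e
 (c z e
 (c z e
 (c z e
 (c z e
 (c z e
 (c (b (nat_lit 0xff10e06)) e
 (c z e
 (c (nat_lit 0x7ff9e7ff9e800008000080000ccfe7) e
 (c (b (nat_lit 0xfea1807)) e e))))))))))))))))
 (c (a (nat_lit 0x10200200))
 (c (nat_lit 0x7fd077fd027fcf97fd077fd0761be2) e
 (c (nat_lit 0x7f17a7f17a7f1737f1767f17a00942)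
 (c (nat_lit 0x7fd737fd737fd737fd737fd1d7fd736bf12) e e)
 (c z e
 (c z e
 (c z e
 (c z e
 (c z e
 (c z e
 (c z e
 (c (nat_lit 0x7dad17dad17da807dad17dad178c46) e
 (c (nat_lit 0x7c6087c6087c6087c5c87c60893626) e
 (c (b (nat_lit 0xfacee07)) e
 (c (b (nat_lit 0xfe69607)) e
 (c (b (nat_lit 0xfcb2e07)) e
 (c (b (nat_lit 0xfff6807)) e
 (c (nat_lit 0x7ffa57ffa5800008000080000c55e7) e
 (c (nat_lit 0x7fb227fb227fb247fb247fb24e1e6a) e e)))))))))))))))))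
 (c (a (nat_lit 0x101ffa00))
 (c (b (nat_lit 0x1017c803)) e
 (c (nat_lit 0x7f2447f2447f2447f2447f1907e8a3) e
 (c z e
 (c z e
 (c z e
 (c z e
 (c z e
 (c (b (nat_lit 0x10167c06)) e
 (c (nat_lit 0x7e4627e4627e4577e4467e462f7546) e
 (c (nat_lit 0x7f32f7f32f7f32f7f23a7f32f2e907) e
 (c (b (nat_lit 0xff25a07)) e
 (c (b (nat_lit 0x10136c07)) e
 (c z e
 (c z e
 (c (nat_lit 0x7fe547fe547fe067fe547fe547bf2a) e
 (c (nat_lit 0x7fe7d7fe7d7fee87fee87fee8499ca) e e))))))))))))))))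
 (c (nat_lit 0x80ffb80ffc80ffc80ffbf7f70)
 (c (b (nat_lit 0xfbdd603)) e
 (c z e
 (c z e
 (c z e
 (c z e
 (c z e
 (c (b (nat_lit 0xfad9006)) e
 (c (nat_lit 0x7f18a7f18a7f18a7f1097f10922607) e
 (c (nat_lit 0x7f8a17f8a17f8837f8a17f8a1b2cc7) e
 (c z e
 (c (b (nat_lit 0xff4be07)) e
 (c (b (nat_lit 0xff46207)) e
 (c (nat_lit 0x7f9467f8da7f9467f9467f946c55c9) e e)))))))))))))
 (c (a (nat_lit 0x101ffc00))
 (c z e
 (c z e
 (c z e
 (c z e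
 (c z e
 (c z e
 (c (nat_lit 0x7eb7d7eb797eb797eb7d7eb7d76f87) e
 (c (b (nat_lit 0xff1c807)) e
 (c z e
 (c (b (nat_lit 0xff5d207)) e
 (c (b (nat_lit 0xff14009)) e e)))))))))))
 (c (nat_lit 0x810008100080fff80fff481a0) e
 (c (nat_lit 0x80fff80fff80fff80ffe104b0)
 (c (nat_lit 0x7e3dd7e3dd7e38a7e3dd7e3dda5f86) e
 (c (nat_lit 0x7d44e7d4737d4737d4737d47304c87) e
 (c (b (nat_lit 0x10986607)) e e)))
 (c (nat_lit 0x80ffe80ffe80ffd80ffc50050)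
 (c (nat_lit 0x7c9487c9157c8f87c9487c94823be7) e
 (c z e
 (c z e
 (c z e
 (c (nat_lit 0x80000800007d9cc7d9cc7d9cca0448) e
 (c (nat_lit 0x8000080000800007da2c7da2ce95a8) e
 (c (nat_lit 0x800008000080000800007fdd2061c8) e e)))))))
 (c (nat_lit 0x80ffe810008100181001b54e0)
 (c z e
 (c (b (nat_lit 0xfad6607)) e
 (c (b (nat_lit 0xf961a08)) e
 (c (nat_lit 0x80000800007d7817d7817d7814f888) e
 (c (nat_lit 0x8000080000800007f1f47f1ec10568) e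
 (c (nat_lit 0x800008000080000800007fefc1f9c8) e e))))))
 (c (nat_lit 0x81000810008100080fff17fc0)
 (c (nat_lit 0x754877548775480754877548715808) e
 (c (b (nat_lit 0xfbb3208)) e
 (c (nat_lit 0x80000800007ef007eefb7ef00034e8) e
 (c (nat_lit 0x8000080000800007f0b57f0a50cd48) e
 (c (nat_lit 0x800008000080000800007fe9c285c8) e e)))))
 (c (a (nat_lit 0x101ffe00)) e
 (c (nat_lit 0x80fff81000810008100080ce1) e
 (c (a (nat_lit 0x10200201)) e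
 (c (nat_lit 0x80132801328013280131fbc61) e
 (c (nat_lit 0x800b8800b9800b9800b9c7171) e
 (c (nat_lit 0x81019810198101a8101a91371) e
 (c (nat_lit 0x81019810198101a8101a7be32) e
 (c (nat_lit 0x8101a8101a810178101b50072) e
 (c (nat_lit 0x80e7a80e7a80e7980e7abe983) e
 (c (nat_lit 0x80ffb80ffb80ffa80ff905083) e
 (c (a (nat_lit 0x10159603)) e
 (c (nat_lit 0x7ffe27ffe17ffe27ffe112e33) e
 (c (nat_lit 0x7f7bf7f7bd7f7be7f7be21a43) e
 (c (nat_lit 0x7fd4e7fd4d7fd4d7fd4d80685) e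
 (c (nat_lit 0x7fac77fac57fac57fac5df8f5) e
 (c (nat_lit 0x8095280953809518095557446) e
 (c (nat_lit 0x8096680964809658096463c86) e
 (c (a (nat_lit 0x1008b407)) e
 (c (nat_lit 0x8045c8045d8045d8045dfbff7) e
 (c (nat_lit 0x801398032c8032e80330601a7) e
 (c (a (nat_lit 0x10086607)) e
 (c (a (nat_lit 0x100f7c07)) e e)))))))))))))))))))))))))))))))))) Tr.c Tr.e (nat_lit 0) C.t4 C.t5
noncomputable def tt683 : Tr := beta% (fun (c : Nat → Tr → Tr → Tr) (e : Tr) (z : Nat) (a b d : Nat → Nat) =>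
 (c (a (nat_lit 0xfe00800))
 (c (b (nat_lit 0x10686c02))
 (c (d (nat_lit 0xd6dc806)) e
 (c (d (nat_lit 0xe7cb407)) e e))
 (c (b (nat_lit 0x10698402)) e
 (c (nat_lit 0x838208388483884838848388483884b3a03) e
 (c z e
 (c z e
 (c z e
 (c z e
 (c z e
 (c (nat_lit 0x80000800008000080000800007fffa9f343) e
 (c z e
 (c (b (nat_lit 0xf31b206)) e
 (c (nat_lit 0x7bbce7bbce7bb217bb217bbce7bbce70447) e
 (c z e
 (c z e
 (c z e
 (c z e
 (c (b (nat_lit 0x1046540b)) e e)))))))))))))))))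
 (c (a (nat_lit 0xfe00400))
 (c (b (nat_lit 0x10170203)) e
 (c z e
 (c z e
 (c z e
 (c z e
 (c z e
 (c z e
 (c z e
 (c (b (nat_lit 0xfd9f606)) e
 (c (nat_lit 0x7fef57fcba7fef57fef57fef57fef568287) e
 (c (b (nat_lit 0xfb14407)) e
 (c z e
 (c z e
 (c z e
 (c z e
 (c (b (nat_lit 0xffd9413)) e e))))))))))))))))
 (c (nat_lit 0x7f0037f0037f0017f0017f00399260) e
 (c (nat_lit 0x7f0017f0007f0007f0007f001e3aa0) e
 (c (a (nat_lit 0xfe00400)) e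
 (c (nat_lit 0x7f0017f0007f0017f0017f001f3301) e
 (c (a (nat_lit 0xfe00e01)) e
 (c (a (nat_lit 0xfdffe01)) e
 (c z e
 (c z e
 (c (nat_lit 0x7f8e17f8d57f8db7f8e17f8e12eb02) e
 (c (nat_lit 0x81fa881fa881f9781fa181fa8b6b02) e
 (c z e
 (c z e
 (c (a (nat_lit 0xfe5f003)) e
 (c (a (nat_lit 0xfdf7203)) e
 (c (a (nat_lit 0xffaf603)) e
 (c (a (nat_lit 0xff15805)) e
 (c (a (nat_lit 0xff37005)) e
 (c (a (nat_lit 0xfce7c06)) e
 (c (a (nat_lit 0xfc98006)) e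
 (c (nat_lit 0x7e6af7e6af7e6ac7e6af7e6af98d27) e
 (c (nat_lit 0x7ea897ea897ea607ea1f7ea89d3b47) e
 (c (a (nat_lit 0xff75007)) e e))))))))))))))))))))))))) Tr.c Tr.e (nat_lit 0) C.t5 C.t6 C.t7
noncomputable def tt684 : Tr := beta% (fun (c : Nat → Tr → Tr → Tr) (e : Tr) (z : Nat) (a b d : Nat → Nat) =>
 (c (nat_lit 0x7f0027f0017f0017f0017f002ba8a0)
 (c (b (nat_lit 0x101e5c01))
 (c (d (nat_lit 0x11000003)) e
 (c z e
 (c z e
 (c (d (nat_lit 0xed99006)) e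
 (c (nat_lit 0x7994f7994f7994f7994f797e47994f7994f1d406) e
 (c (d (nat_lit 0xebf8207)) e
 (c z e
 (c (d (nat_lit 0xf6d2007)) e e))))))))
 (c (nat_lit 0x80fff80fff80fff80fff80ffd80fff451c1) e
 (c z e
 (c (b (nat_lit 0x1053c802)) e
 (c (b (nat_lit 0x101fea02)) e
 (c (b (nat_lit 0x10225403)) e
 (c (nat_lit 0x8549a8549a852c2852dd8549a8549a1af83) e
 (c (nat_lit 0x828ed828ed828ed828a7828ed828ed15803) e
 (c z e
 (c z e
 (c z e
 (c z e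
 (c z e
 (c z e
 (c z e
 (c (nat_lit 0x7f9707f9707f9707f9707f9317f970adcc7) e
 (c (b (nat_lit 0x10383007)) e
 (c (b (nat_lit 0x10212a07)) e
 (c (b (nat_lit 0x1017ac07)) e e)))))))))))))))))))
 (c (nat_lit 0x7f0037f0037f0037f0027f0039c040)
 (c z e
 (c (b (nat_lit 0x10613602)) e
 (c (nat_lit 0x83c4183bff83c4183c4183c4183c414e842) e
 (c z e
 (c z e
 (c z e
 (c z e
 (c z e
 (c z e
 (c z e
 (c z e
 (c (nat_lit 0x7fffd7fffd80000800008000080000f33c6) e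
 (c z e
 (c z e
 (c z e
 (c z e
 (c z e
 (c z e
 (c (nat_lit 0x7f6857f6277f6277f6857f6857f6851f48d) e e)))))))))))))))))))
 (c (a (nat_lit 0xfe00600))
 (c (nat_lit 0x85545855458553985545855458554521202) e
 (c z e
 (c z e
 (c z e
 (c z e
 (c z e
 (c z e
 (c z e
 (c z e
 (c z e
 (c z e
 (c z e
 (c z e
 (c z e
 (c (b (nat_lit 0xffdc807)) e e)))))))))))))))
 (c (nat_lit 0x7f0047f0047f0037f0037f004cfc80)
 (c z e
 (c z e
 (c z e
 (c z e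
 (c z e
 (c z e
 (c (b (nat_lit 0xfa39c06)) e e)))))))
 (c (a (nat_lit 0xfe00200)) e
 (c (a (nat_lit 0xfe00a00))
 (c z e
 (c z e
 (c z e
 (c z e
 (c z e
 (c z e
 (c z e
 (c z e
 (c z e
 (c z e
 (c z e
 (c (nat_lit 0x8000080000800007ff977ffaf800008a294) e e))))))))))))
 (c (nat_lit 0x7f0017f0007f0007f0007f000e2720)
 (c z e
 (c z e
 (c (b (nat_lit 0x10432a07)) e
 (c (b (nat_lit 0x10826a07)) e e))))
 (c (nat_lit 0x7f00c7f0097f00a7f00a7f00a2f201)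
 (c (nat_lit 0x7e9507e9507e9507e8f17e9167e950e2dc7) e
 (c z e
 (c z e
 (c z e
 (c z e
 (c z e
 (c (nat_lit 0x817b78179b8179b817b7817b7817b71d88d) e e)))))))
 (c (nat_lit 0x7f0107f0107f00d7f00d7f00f3c261)
 (c (nat_lit 0x8231d81ed78231d8231d8231d8231daeb47) e
 (c z e
 (c z e
 (c z e
 (c z e
 (c (nat_lit 0x8000080000800007fa918000080000128e0) e e))))))
 (c (nat_lit 0x7f0207f0207f0207f0077f007149a1) e
 (c (a (nat_lit 0xfd93c01)) e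
 (c (a (nat_lit 0xfda7801)) e
 (c (nat_lit 0x7e5e67e5e37e5e27e5e67e5e686a82) e
 (c (nat_lit 0x7e3997e3997e38d7e3907e39914382) e
 (c z e
 (c (nat_lit 0x8083280832807dc807e380832faac3) e
 (c (a (nat_lit 0xfe12203)) e
 (c z e
 (c z e
 (c z e
 (c (a (nat_lit 0xfe54805)) e
 (c (nat_lit 0x7f5777f5487f5777f5777f577e7766) e
 (c (nat_lit 0x7f3097f2f27f2cd7f2ff7f309f3766) e
 (c (nat_lit 0x7f3557f3557f3557f3407f355ffb87) e
 (c (nat_lit 0x7f1d57f1d57f1d47f1d57f1d5fa407) e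
 (c (a (nat_lit 0xfe3a607)) e
 (c (a (nat_lit 0xffbf207)) e e)))))))))))))))))))))))))))) Tr.c Tr.e (nat_lit 0) C.t5 C.t6 C.t7
noncomputable def tt685 : Tr := beta% (fun (c : Nat → Tr → Tr → Tr) (e : Tr) (z : Nat) (a b d : Nat → Nat) =>
 (c (a (nat_lit 0x101ffe00)) tt684
 (c (a (nat_lit 0x101ffe00)) tt683
 (c (a (nat_lit 0x101ffe00))
 (c (b (nat_lit 0xfe00200))
 (c (nat_lit 0x85ebf85cb285ebf85ebf85ebf85ebf17803) e
 (c z e
 (c z e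
 (c z e
 (c z e
 (c z e
 (c (d (nat_lit 0xf837606)) e
 (c z e
 (c z e
 (c z e
 (c z e
 (c (nat_lit 0x800008000080000800007ff987ff98aac07) e e))))))))))))
 (c (b (nat_lit 0xfe00400)) e
 (c (b (nat_lit 0xfe00200)) e
 (c (b (nat_lit 0xfe00401)) e
 (c (b (nat_lit 0xfe00001)) e
 (c (nat_lit 0x7f00a7f00a7f00a7f0097f009e65c1) e
 (c (b (nat_lit 0xfe00001)) e
 (c (nat_lit 0x7fac97fac87fae27fae27fae250841) e
 (c (nat_lit 0x7f7f97f7f37f7f77f7f97f7f944302) e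
 (c (nat_lit 0x7f9c77f9c77f9bc7f9bd7f9c7f3a02) e
 (c z e
 (c z e
 (c z e
 (c z e
 (c z e
 (c z e
 (c z e
 (c z e
 (c (b (nat_lit 0xfcade06)) e
 (c (b (nat_lit 0xfe82607)) e
 (c (b (nat_lit 0xfebb007)) e
 (c (b (nat_lit 0xfdb4a07)) e
 (c z e
 (c (b (nat_lit 0xfe91607)) e e))))))))))))))))))))))))
 (c (nat_lit 0x81000810008100080fff87e90)
 (c (nat_lit 0x7f0007f0007efff7efff7f000c1080) e
 (c (b (nat_lit 0xfe00201)) e
 (c (b (nat_lit 0xfe00401)) e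
 (c (b (nat_lit 0xfe00401)) e
 (c z e
 (c z e
 (c (nat_lit 0x8028580284802818028580285834e2) e
 (c (nat_lit 0x7ffc87ffa57ffbe7ffc880000a7562) e
 (c z e
 (c z e
 (c z e
 (c z e
 (c (b (nat_lit 0xfe42a03)) e
 (c (b (nat_lit 0xff53605)) e
 (c (b (nat_lit 0xfe5de05)) e
 (c (b (nat_lit 0xfed1006)) e
 (c z e
 (c z e
 (c (b (nat_lit 0xff68807)) e
 (c (b (nat_lit 0xffe0e07)) e
 (c (b (nat_lit 0xfff1807)) e
 (c (b (nat_lit 0xffd2e07)) e e)))))))))))))))))))))) tt682))))) Tr.c Tr.e (nat_lit 0) C.t4 C.t5 C.t6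
noncomputable def tt686 : Tr := beta% (fun (c : Nat → Tr → Tr → Tr) (e : Tr) (z : Nat) (a b : Nat → Nat) =>
 (c (a (nat_lit 0x10200200))
 (c (b (nat_lit 0xff07601)) e
 (c (b (nat_lit 0xfdfee01)) e
 (c z e
 (c (nat_lit 0x7fe077fe6b7fe6b7fe6b7fe6bb71a2) e
 (c (nat_lit 0x800007ff0a800008000080000c95e2) e
 (c z e
 (c (b (nat_lit 0xfd19a03)) e
 (c z e
 (c (b (nat_lit 0x108abc03)) e
 (c z e
 (c (b (nat_lit 0xfa31605)) e
 (c (nat_lit 0x7d20c7d20c7d1cb7d20c7d20c457c6) e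
 (c (b (nat_lit 0xfd66e06)) e
 (c (b (nat_lit 0xfe65407)) e
 (c (b (nat_lit 0xfea2e07)) e
 (c z e
 (c (nat_lit 0x7ffe680000800008000080000cfdc7) e
 (c (b (nat_lit 0xfd5ec07)) e
 (c (nat_lit 0x7f14f7f14d7f1417f14f7f14f5328a) e
 (c (nat_lit 0x7ef607ef607ef5c7ef5a7ef60d722c) e
 (c (nat_lit 0x8000080000800007ef977ef949afcc) e
 (c (nat_lit 0x800008000080000800007f080613ac) e e))))))))))))))))))))))
 (c (a (nat_lit 0x10200200))
 (c z e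
 (c (nat_lit 0x7fde07fdda7fdd67fde47fde49c322)
 (c (nat_lit 0x7da4c7da4c7da4c7da477da4c7da4c1910a) e e)
 (c (nat_lit 0x7fe207fdcd7ffd77ffd3800000a322)
 (c (nat_lit 0x80000800008000083a8783a6583a87c730c) e e)
 (c (b (nat_lit 0x10051803)) e
 (c z e
 (c z e
 (c z e
 (c z e
 (c (nat_lit 0x81ab581ac081ac081ac081ac060b65) e
 (c (nat_lit 0x7cef47cf0f7cf287cf287cf285f586) e
 (c (b (nat_lit 0xfc04e06)) e
 (c (nat_lit 0x7ef9c7ef9c7ef9c7ef897ef9c13c67) e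
 (c (nat_lit 0x7ede37ede37ede37eddc7ede3c8f27) e
 (c z e
 (c z e
 (c z e
 (c (nat_lit 0x80751807418076e8077180771ec76a) e
 (c (nat_lit 0x800007ffcb7ffc58000080000f6caa) e
 (c (nat_lit 0x80000800007fff1800008000038c0c) e e)))))))))))))))))))
 (c (a (nat_lit 0x10200200))
 (c (b (nat_lit 0xfcb3602))
 (c (nat_lit 0x7fed27ffd67ffd67ffd67ffd67ffd6dd28a) e e)
 (c (nat_lit 0x7ea8a7ea8a7ea8a7e8f17ea8a15ac3) e
 (c z e
 (c z e
 (c z e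
 (c z e
 (c z e
 (c (nat_lit 0x818738187f8188f818a1818a15d226) e
 (c (nat_lit 0x7ea517ea517ea467ea517ea5189346) e
 (c (b (nat_lit 0xfdda407)) e
 (c (nat_lit 0x7f56f7f56f7f56f7f52e7f53660547) e
 (c (b (nat_lit 0xffb0e07)) e
 (c z e
 (c (nat_lit 0x800008000080000800007ff5409687) e
 (c (b (nat_lit 0xfff4809)) e
 (c (nat_lit 0x7ffbb7ffbb7ffa47ffbb7ffbb2730a) e
 (c (nat_lit 0x800007fff77ffe68000080000ac20a) e
 (c (nat_lit 0x8000080000800007ffeb80000220aa) e e))))))))))))))))))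
 (c (a (nat_lit 0x101ffc00))
 (c (nat_lit 0x7ef0f7ef0c7ef0f7ef0f7ef0fc3d63) e
 (c z e
 (c z e
 (c z e
 (c z e
 (c z e
 (c (nat_lit 0x7f42c7f3fe7f4107f42c7f42cf21a6) e
 (c (nat_lit 0x7f48f7f4607f47f7f48a7f48f4eb27) e
 (c (b (nat_lit 0xff51a07)) e
 (c (b (nat_lit 0xff06607)) e
 (c (b (nat_lit 0xff19807)) e
 (c (b (nat_lit 0xff1d407)) e
 (c (b (nat_lit 0xffbc209)) e
 (c (nat_lit 0x7f8527f93d7f93d7f93d7f93db2529) e e))))))))))))))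
 (c (a (nat_lit 0x101ffa00))
 (c z e
 (c z e
 (c z e
 (c (nat_lit 0x82b7482b3782b7482b7482b74394c6) e
 (c (nat_lit 0x8124f8124f810e8811278124f23206) e
 (c z e
 (c (nat_lit 0x7f1be7f1817f1817f1be7f1be32347) e
 (c z e
 (c z e
 (c (b (nat_lit 0xfedfc07)) e
 (c (b (nat_lit 0xff70a09)) e
 (c (b (nat_lit 0xffac209)) e
 (c (b (nat_lit 0xff17409)) e e)))))))))))))
 (c (nat_lit 0x810038100281002810026d3f0)
 (c z e
 (c (nat_lit 0x7e9f87ea037ea037ea037ea0391006) e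
 (c z e
 (c z e
 (c (b (nat_lit 0x108ff007)) e
 (c z e
 (c (b (nat_lit 0x100b6c07)) e
 (c (nat_lit 0x7e5a67e5a67e4de7e5a67e5a65bd87) e
 (c (nat_lit 0x8000080000800007ff9d80000f05a8) e
 (c (nat_lit 0x800008000080000800007ff361d928) e e))))))))))
 (c (a (nat_lit 0x101ffa00))
 (c (nat_lit 0x7f6307f61e7f6307f6307f63033a06) e
 (c (nat_lit 0x7ed557ed557ed407ed557ed559f787) e
 (c (b (nat_lit 0x107be207)) e
 (c (b (nat_lit 0x1069a207)) e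
 (c z e
 (c z e
 (c (nat_lit 0x80000800007efa97efae7efae1f968) e
 (c (nat_lit 0x8000080000800007efaa7efacfa3c8) e
 (c (nat_lit 0x800008000080000800007f835bf068) e e)))))))))
 (c (a (nat_lit 0x10200000))
 (c (nat_lit 0x7d9587d9357d8237d9587d9584ff47) e
 (c z e
 (c z e
 (c (b (nat_lit 0xf40ba07)) e
 (c (nat_lit 0x7d0dc7d0dc7d0a67d0dc7d0dcfb0c8) e
 (c (nat_lit 0x80000800007d9ca7d9cd7d9cd9d648) e
 (c (nat_lit 0x8000080000800007efad7efafcc588) e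
 (c (nat_lit 0x800008000080000800007f9cf92da8) e e))))))))
 (c (a (nat_lit 0x10200200))
 (c z e
 (c (nat_lit 0x71f9671fcc71fcc71fcc71fcc1d827) e
 (c (b (nat_lit 0xfaf7408)) e
 (c (nat_lit 0x7e5737e5727e5737e5737e573fa6c8) e
 (c (nat_lit 0x80000800007f0c97f0c77f0c9d74a8) e
 (c (nat_lit 0x8000080000800007f21e7f21f39dc8) e
 (c (nat_lit 0x800008000080000800007fa514cb68) e e)))))))
 (c (a (nat_lit 0x10200200))
 (c (nat_lit 0x7589b758657589b7589b7589b664a8) e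
 (c (nat_lit 0x7ddf57ddf17ddf57ddf57ddf5a9cc8) e
 (c (nat_lit 0x7f0257f0257f01f7f0257f0255cd88) e
 (c (nat_lit 0x80000800007f0a37f0967f09ea13c8) e
 (c (nat_lit 0x8000080000800007f1fe7f1f92ab08) e
 (c (nat_lit 0x800008000080000800007fa1daf268) e e))))))
 (c (a (nat_lit 0x10200000)) e
 (c (nat_lit 0x81001810008100081000b7780) e
 (c (nat_lit 0x80fff810008100080fff88721) e
 (c (nat_lit 0x80d9880d9980d9980d986f791) e
 (c (a (nat_lit 0x100b2001)) e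
 (c (nat_lit 0x802d8802d8802d9802d884ee1) e
 (c (nat_lit 0x810a3810a7810a9810a94fc41) e
 (c (nat_lit 0x81094810998109b8109adb422) e
 (c (nat_lit 0x810598105f810628106260a22) e
 (c (nat_lit 0x8103e8103f810408104020d73) e
 (c (a (nat_lit 0x10203003)) e
 (c (nat_lit 0x80f4280f4180f4180f40d5893) e
 (c (nat_lit 0x8066e80670806718066ff18c3) e
 (c (nat_lit 0x7ff297ff287ff287ff28198a3) e
 (c (nat_lit 0x80bd580bed80be980be757395) e
 (c (nat_lit 0x8077f80792807a2807a451c16) e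
 (c (nat_lit 0x8074580773807768077435456) e
 (c (a (nat_lit 0x10043407)) e
 (c (nat_lit 0x80215802158021580214257c7) e
 (c (nat_lit 0x7fd937fd967fd957fd95f18e7) e
 (c (nat_lit 0x7fbf57fbfb7fbfb7fbfa87bf7) e
 (c (nat_lit 0x80502805028050380503c44d7) e e))))))))))))))))))))))))))))))))) Tr.c Tr.e (nat_lit 0) C.t4 C.t5
noncomputable def tt687 : Tr := beta% (fun (c : Nat → Tr → Tr → Tr) (e : Tr) (z : Nat) (a b : Nat → Nat) =>
 (c (a (nat_lit 0xfe00a00))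
 (c z e
 (c (b (nat_lit 0x1045b802)) e
 (c (nat_lit 0x833cb83383833d1833d1833d1833d1b57c2) e
 (c (b (nat_lit 0x103cde03)) e
 (c z e
 (c z e
 (c z e
 (c z e
 (c z e
 (c z e
 (c z e
 (c z e
 (c z e
 (c z e
 (c (b (nat_lit 0xfff8c07)) e e)))))))))))))))
 (c (a (nat_lit 0xfe00200))
 (c (nat_lit 0x8248a823008248a8248a8248a8248aaffc2) e
 (c z e
 (c z e
 (c z e
 (c z e
 (c z e
 (c z e
 (c (nat_lit 0x800007ff437ff43800008000080000f0546) e e))))))))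
 (c (a (nat_lit 0xfe00400)) e
 (c (a (nat_lit 0xfe00000)) e
 (c (a (nat_lit 0xfe00400))
 (c z e
 (c z e
 (c z e
 (c z e
 (c z e
 (c z e
 (c z e
 (c z e
 (c z e
 (c (b (nat_lit 0xffeec0b)) e e))))))))))
 (c (a (nat_lit 0xfe00000)) e
 (c (a (nat_lit 0xfe00001))
 (c (b (nat_lit 0xfe39207)) e e)
 (c (a (nat_lit 0xfe00a01)) e
 (c (a (nat_lit 0xfe00e01)) e
 (c (a (nat_lit 0xfdcca01)) e
 (c (nat_lit 0x7f13c7f1417f1447f1447f144b9b41) e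
 (c (nat_lit 0x7e6b67e6b27e6b47e6b67e6b6ab262) e
 (c (nat_lit 0x7e4667e4427e45e7e4667e46650ea2) e
 (c (nat_lit 0x7ff387ff387ff38800008000033443) e
 (c z e
 (c (a (nat_lit 0x10014a03)) e
 (c z e
 (c (a (nat_lit 0xff11e03)) e
 (c (a (nat_lit 0xfe95405)) e
 (c (a (nat_lit 0xfe82c06)) e
 (c (a (nat_lit 0xff9d006)) e
 (c (nat_lit 0x7f44c7f4477f43b7f44c7f44c1c7c7) e
 (c (nat_lit 0x7f1507f1507f1507f1497f1503fa67) e
 (c z e
 (c z e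
 (c z e
 (c z e
 (c z e
 (c (nat_lit 0x7fe027fe027fe267fe267fe264a2ed) e e)))))))))))))))))))))))))))))) Tr.c Tr.e (nat_lit 0) C.t5 C.t6
noncomputable def tt688 : Tr := beta% (fun (c : Nat → Tr → Tr → Tr) (e : Tr) (z : Nat) (a b d : Nat → Nat) =>
 (c (a (nat_lit 0xfe00c00))
 (c (b (nat_lit 0x101fba01))
 (c z e
 (c z e
 (c z e
 (c z e
 (c z e
 (c z e
 (c (nat_lit 0x76d0e76d0e76d0e76d0e76bb176d0e76d0e4d207) e
 (c (d (nat_lit 0xf059007)) e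
 (c (d (nat_lit 0xffea807)) e
 (c z e
 (c (d (nat_lit 0x1100000b)) e
 (c (d (nat_lit 0x1100000d)) e e))))))))))))
 (c (nat_lit 0x80ff780ff780ff780ff580ff380ff525b01) e
 (c (nat_lit 0x80ff980ff980ff980ff980ff680ff677741) e
 (c z e
 (c z e
 (c (b (nat_lit 0x10522802))
 (c z e
 (c z e
 (c (d (nat_lit 0xfffba19)) e e)))
 (c z e
 (c (b (nat_lit 0x1099e003)) e
 (c (nat_lit 0x81a2681a2681a268198781a2681a26c9943) e
 (c z e
 (c (b (nat_lit 0xff7ae03)) e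
 (c z e
 (c z e
 (c z e
 (c z e
 (c (b (nat_lit 0xfc1b407)) e
 (c z e
 (c (b (nat_lit 0x10162c07)) e
 (c (b (nat_lit 0x10247a07)) e
 (c z e
 (c z e
 (c (b (nat_lit 0x1018a219)) e e))))))))))))))))))))))
 (c (nat_lit 0x7f0027f0027f0027f0027f0034fac0)
 (c (b (nat_lit 0x101fe401)) e
 (c z e
 (c z e
 (c z e
 (c z e
 (c z e
 (c (b (nat_lit 0x106f4803)) e
 (c z e
 (c (b (nat_lit 0xfc92e03)) e
 (c z e
 (c z e
 (c z e
 (c z e
 (c z e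
 (c (b (nat_lit 0xfd41807)) e e)))))))))))))))
 (c (a (nat_lit 0xfe00400))
 (c (b (nat_lit 0x106c7002)) e
 (c z e
 (c z e
 (c z e
 (c z e
 (c z e
 (c z e
 (c z e
 (c z e
 (c z e
 (c z e
 (c z e
 (c z e
 (c z e
 (c z e
 (c (b (nat_lit 0xfe8fe0b)) e
 (c z e
 (c (nat_lit 0x7fd987fd988000080000800008000004e53) e e))))))))))))))))))
 (c (nat_lit 0x7f0027f0027f0017f0017f00290720) e
 (c (a (nat_lit 0xfe00400))
 (c z e
 (c z e
 (c z e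
 (c z e
 (c z e
 (c z e
 (c z e
 (c z e
 (c z e
 (c z e
 (c z e
 (c (b (nat_lit 0xfdbb60b)) e e))))))))))))
 (c (a (nat_lit 0xfe00400))
 (c z e
 (c z e
 (c z e
 (c (nat_lit 0x7d4437d3b27d3b27d4437d4437d44317006) e e))))
 (c (a (nat_lit 0xfe00000))
 (c z e
 (c (b (nat_lit 0x10a6ac06)) e
 (c (b (nat_lit 0x103f5007)) e
 (c (b (nat_lit 0xffb9207)) e
 (c z e
 (c z e
 (c z e
 (c z e
 (c z e
 (c (b (nat_lit 0x107b7a14)) e e))))))))))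
 (c (nat_lit 0x7f0037f0037f0037f0047f00431d00)
 (c (nat_lit 0x8000080000800007ffbd800008000002e06) e
 (c (b (nat_lit 0x100e7a07)) e
 (c z e
 (c z e
 (c z e
 (c z e
 (c z e
 (c (b (nat_lit 0x105d2a12)) e e))))))))
 (c (a (nat_lit 0xfe00c01))
 (c z e
 (c z e
 (c z e
 (c z e
 (c z e
 (c z e
 (c (nat_lit 0x800008000085ddc85ddc85ddc85ddc1aea0) e e)))))))
 (c (a (nat_lit 0xfe00801))
 (c z e
 (c (b (nat_lit 0xffeea0b)) e e))
 (c (a (nat_lit 0xfdff601)) e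
 (c z e
 (c (a (nat_lit 0xfe44801)) e
 (c (a (nat_lit 0xfcc3c02)) e
 (c (nat_lit 0x7e7b87e7b87e6f27e6f57e7b8b2222) e
 (c (a (nat_lit 0x10285e03)) e
 (c (nat_lit 0x8028d8028d802828028d8028d97263) e
 (c z e
 (c (a (nat_lit 0xff67c03)) e
 (c (a (nat_lit 0xfe6ae03)) e
 (c (a (nat_lit 0xfe70805)) e
 (c (a (nat_lit 0xfe35406)) e
 (c (a (nat_lit 0xfe23a06)) e
 (c (nat_lit 0x7f05e7f05e7f04a7f05e7f05ecd7e7) e
 (c (nat_lit 0x7ef507ef507ef507ef317ef46e5ca7) e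
 (c (nat_lit 0x7f4487f4487f4487f4047f4047dcc7) e
 (c (nat_lit 0x7f9947f9947f9947f98d7f98d77687) e
 (c z e
 (c (nat_lit 0x7ffd37ffd38000080000800004836b) e e)))))))))))))))))))))))))))))) Tr.c Tr.e (nat_lit 0) C.t5 C.t6 C.t7
noncomputable def tt689 : Tr := beta% (fun (c : Nat → Tr → Tr → Tr) (e : Tr) (z : Nat) (a b : Nat → Nat) =>
 (c (a (nat_lit 0xfe00400))
 (c (b (nat_lit 0x101fd001)) e
 (c z e
 (c z e
 (c (b (nat_lit 0x1053a602)) e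
 (c (nat_lit 0x81cfb81cba81cfb81cfb81cfb81cfbac582) e
 (c z e
 (c (b (nat_lit 0x10338c03)) e
 (c z e
 (c z e
 (c z e
 (c z e
 (c z e
 (c z e
 (c z e
 (c z e
 (c z e
 (c z e
 (c (b (nat_lit 0xfff3607)) e e))))))))))))))))))
 (c (a (nat_lit 0xfdffc00))
 (c z e
 (c (b (nat_lit 0x10785002)) e
 (c (b (nat_lit 0x1057f802)) e
 (c (b (nat_lit 0x10348603)) e
 (c z e
 (c z e
 (c z e
 (c (b (nat_lit 0xfbed803)) e
 (c z e
 (c (b (nat_lit 0xf8cc806)) e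
 (c z e
 (c z e
 (c z e
 (c (b (nat_lit 0x10128807)) e
 (c (b (nat_lit 0x100e9007)) e
 (c z e
 (c z e
 (c (b (nat_lit 0x101a3a0e)) e
 (c (b (nat_lit 0x100db20e)) e e)))))))))))))))))))
 (c (a (nat_lit 0xfdffa00))
 (c (nat_lit 0x836a98366f836a9836a9836a9836a9e1302) e
 (c z e
 (c z e
 (c z e
 (c z e
 (c z e
 (c z e
 (c (b (nat_lit 0xf747206)) e
 (c (b (nat_lit 0xf87ea06)) e
 (c z e
 (c z e
 (c z e
 (c z e
 (c (b (nat_lit 0x100d4807)) e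
 (c (b (nat_lit 0x106dbe0d)) e
 (c (b (nat_lit 0x10674e0e)) e e))))))))))))))))
 (c (a (nat_lit 0xfdffe00))
 (c z e
 (c z e
 (c z e
 (c z e
 (c z e
 (c z e
 (c z e
 (c z e
 (c z e
 (c z e
 (c z e
 (c z e
 (c z e
 (c (nat_lit 0x85348853488533e853488534885348b700e) e
 (c (nat_lit 0x8352e8352e8352e835268352e8352e133ce) e e)))))))))))))))
 (c (nat_lit 0x7effd7effd7effc7effc7effc903e0)
 (c z e
 (c z e
 (c z e
 (c (nat_lit 0x7b8687b8687b83d7b8687b8687b8683dc46) e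
 (c (nat_lit 0x7b54f7b54f7b54f7b5037b54f7b54f98dc6) e
 (c z e
 (c z e
 (c z e
 (c z e
 (c z e
 (c z e
 (c (b (nat_lit 0x10cc000e)) e
 (c (b (nat_lit 0x104faa0e)) e
 (c (nat_lit 0x80000800008000080000817ff817fa1618e) e e))))))))))))))
 (c (a (nat_lit 0xfdffc00))
 (c (nat_lit 0x748fb748fb748bc748fb748fb748fb5a605) e
 (c (nat_lit 0x7a7977a7977a7867a7927a7977a797d7b06) e
 (c (nat_lit 0x7c3ac7c3ac7c3ac7c3ac7c3957c3ace7cc6) e
 (c (nat_lit 0x8000080000800007ffff7ffe9800004b346) e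
 (c z e
 (c z e
 (c z e
 (c z e
 (c (nat_lit 0x78fe778fed78fed78fed78fed78fed1938d) e
 (c (b (nat_lit 0x1081940e)) e
 (c (b (nat_lit 0x10709e0e)) e
 (c (nat_lit 0x800008000080000828ee828ee828ee9eb54) e
 (c (nat_lit 0x800008000080000800008198681986a9a54) e e)))))))))))))
 (c (a (nat_lit 0xfdffe00))
 (c (nat_lit 0x81bb581bb581baf81b5081bb581bb596b46) e
 (c (nat_lit 0x82a2282a2282a22829e68299882a2230947) e
 (c z e
 (c (b (nat_lit 0x102d4607)) e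
 (c z e
 (c z e
 (c z e
 (c (b (nat_lit 0xf43d20e)) e
 (c (nat_lit 0x8074a8074a8074a8074a806568074ade84e) e
 (c z e
 (c z e
 (c (nat_lit 0x80000800008000080000800007fce439412) e e))))))))))))
 (c (a (nat_lit 0xfe00600))
 (c (b (nat_lit 0x1087ca07)) e
 (c (b (nat_lit 0x101eb407)) e
 (c z e
 (c z e
 (c (b (nat_lit 0xfffe60d)) e
 (c z e
 (c (b (nat_lit 0xfdf4c0e)) e e)))))))
 (c (a (nat_lit 0xfe00001))
 (c z e
 (c z e
 (c (nat_lit 0x7ff4f7ff4f80000800008000080000a684d) e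
 (c (nat_lit 0x7cf137cf137cf477cf477cf477cf47b8f4e) e e))))
 (c (a (nat_lit 0xfdfe401))
 (c (b (nat_lit 0xf07540d)) e
 (c (nat_lit 0x7dee67dee67dee67dee67de917dee62c00e) e e))
 (c (a (nat_lit 0xfd91c01))
 (c (nat_lit 0x7dbb47dbc97dbc97dbc97dbc97dbc9825ce) e e)
 (c (a (nat_lit 0xfbde801)) e
 (c (a (nat_lit 0xfbb0801)) e
 (c (a (nat_lit 0xfbd0c02)) e
 (c (nat_lit 0x7ee9f7ee9f7ee837ee857ee9fe4ea2) e
 (c (nat_lit 0x7eee27eee27eee27ee957ee997a3c3) e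
 (c (a (nat_lit 0xfdee003)) e
 (c (a (nat_lit 0xfee0c03)) e
 (c (a (nat_lit 0x100f3003)) e
 (c (a (nat_lit 0x10020403)) e
 (c (nat_lit 0x7f2917f2847f2917f2917f2910bf85) e
 (c (a (nat_lit 0xfe58206)) e
 (c (nat_lit 0x7f2227f2137f20b7f1fc7f222c4146) e
 (c (nat_lit 0x7f0c07f0c07f0c07f0bd7f0c0c9607) e
 (c (nat_lit 0x7f0ec7f0ec7f0db7f0ec7f0d9cbfe7) e
 (c (nat_lit 0x7f2897f2897f27e7f2787f27fc4cc7) e
 (c (nat_lit 0x8000080000800007ff757ff85c92e7) e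
 (c z e
 (c (nat_lit 0x7f6607f65c7f6437f6607f660cddad) e
 (c (nat_lit 0x7f9af7f9af7f99e7f9817f9af82c6e) e
 (c (nat_lit 0x7fa2e7fa2e7fa0d7f9ee7f9d911e4e) e
 (c (nat_lit 0x800008000080000800007ff988286e) e e))))))))))))))))))))))))))))))))) Tr.c Tr.e (nat_lit 0) C.t5 C.t6
noncomputable def tt690 : Tr := beta% (fun (c : Nat → Tr → Tr → Tr) (e : Tr) (z : Nat) (a b : Nat → Nat) =>
 (c (a (nat_lit 0x101cba00))
 (c (nat_lit 0x6ff636ff636ff636ff636ff636fe336ff633a002) e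
 (c (nat_lit 0x7a7927a7927a7927a7927a7927a5907a79273f83) e
 (c z e
 (c (nat_lit 0x80000800007fec980000800008000080000f2f83) e
 (c z e
 (c z e
 (c z e
 (c (b (nat_lit 0xedd4806)) e
 (c (b (nat_lit 0x107cba06)) e
 (c z e
 (c z e
 (c (b (nat_lit 0x10fffe07)) e
 (c z e
 (c z e
 (c z e
 (c z e
 (c (b (nat_lit 0xff0540e)) e e)))))))))))))))))
 (c (a (nat_lit 0x101fca00))
 (c z e
 (c z e
 (c z e
 (c z e
 (c z e
 (c (b (nat_lit 0x11000006)) e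
 (c (b (nat_lit 0xf8dda06)) e
 (c (b (nat_lit 0xf3f0607)) e
 (c z e
 (c z e
 (c (nat_lit 0x800007fef58000080000800008000080000b9d07) e
 (c (b (nat_lit 0x10fff407)) e e))))))))))))
 (c (a (nat_lit 0x101fe801)) e
 (c (a (nat_lit 0x10202c01))
 (c z e
 (c z e
 (c z e
 (c z e
 (c z e
 (c z e
 (c (b (nat_lit 0xffd6807)) e e)))))))
 (c (a (nat_lit 0x10204001))
 (c (b (nat_lit 0xd7ea006)) e e)
 (c z e
 (c z e
 (c (a (nat_lit 0x1038f202))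
 (c z e
 (c (b (nat_lit 0x1100000e)) e
 (c (nat_lit 0x84d4884d4884b7584d4884d4884d4884d4860d0e) e e)))
 (c z
 (c (b (nat_lit 0xfee4e0e)) e e)
 (c (nat_lit 0x819078190781907818c7818bf8190752903) e
 (c (nat_lit 0x8161b8161b8161b8161b8154e8154a062c3) e
 (c (a (nat_lit 0x1010ae03)) e
 (c (a (nat_lit 0xfe14a03)) e
 (c z e
 (c z e
 (c z e
 (c (a (nat_lit 0x102a0c06)) e
 (c (a (nat_lit 0x101bee07)) e
 (c (a (nat_lit 0x101b9407)) e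
 (c (a (nat_lit 0x1014d607)) e
 (c z e
 (c z e
 (c (nat_lit 0x80000800007ff4d800008000080000226cd) e e)))))))))))))))))))))))) Tr.c Tr.e (nat_lit 0) C.t6 C.t7
noncomputable def tt691 : Tr := beta% (fun (c : Nat → Tr → Tr → Tr) (e : Tr) (z : Nat) (a b d f : Nat → Nat) =>
 (c (a (nat_lit 0x10200600))
 (c (b (nat_lit 0xfdfce00)) tt690
 (c (b (nat_lit 0xfe00200))
 (c (nat_lit 0x8100680fe180fe280fe280fe180fe232441)
 (c (f (nat_lit 0x1071aa03)) e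
 (c z e
 (c z e
 (c z e
 (c z e
 (c z e
 (c (nat_lit 0x750db750db750db750db74eae750db750dbbfc87) e
 (c (f (nat_lit 0xf41cc07)) e
 (c (f (nat_lit 0xf37cc07)) e
 (c (f (nat_lit 0xff6c807)) e
 (c (f (nat_lit 0x107f4207)) e e)))))))))))
 (c (d (nat_lit 0x101fde01)) e
 (c (d (nat_lit 0x101ff801)) e
 (c (nat_lit 0x80fff80fff80fff80fff80ffc80ffe291c1) e
 (c z e
 (c z e
 (c (d (nat_lit 0x1023cc02)) e
 (c (d (nat_lit 0x10566c03))
 (c z e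
 (c (nat_lit 0x800008000080000800007fb1380000800002a0a2) e e))
 (c (nat_lit 0x83b5383b5383b2d83aeb83b5383b53fb343) e
 (c (d (nat_lit 0x1035b803)) e
 (c (d (nat_lit 0xfece203)) e
 (c z e
 (c z e
 (c z e
 (c z e
 (c (d (nat_lit 0xfe3ee07)) e
 (c (d (nat_lit 0xfeed607)) e
 (c (d (nat_lit 0xff0c607)) e
 (c z e
 (c z e
 (c z e
 (c (nat_lit 0x800007ff3380000800008000080000c6b4e) e
 (c (nat_lit 0x7fec68000080000800008000080000a118e) e e))))))))))))))))))))))) tt689))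
 (c (a (nat_lit 0x10200000)) tt688
 (c (a (nat_lit 0x10200000)) tt687
 (c (a (nat_lit 0x10200000))
 (c (b (nat_lit 0xfe00000))
 (c (d (nat_lit 0x107bb803)) e
 (c z e
 (c z e
 (c z e
 (c z e
 (c z e
 (c z e
 (c z e
 (c z e
 (c z e
 (c z e
 (c z e
 (c z e
 (c z e
 (c (d (nat_lit 0xffdb20b)) e
 (c (d (nat_lit 0xffcda0b)) e e))))))))))))))))
 (c (b (nat_lit 0xfe00200)) e
 (c (b (nat_lit 0xfe00200)) e
 (c (b (nat_lit 0xfe00000)) e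
 (c (b (nat_lit 0xfe00001)) e
 (c (b (nat_lit 0xfdffc01))
 (c (nat_lit 0x800008000080000800007ff91800006cc47) e
 (c z e
 (c (d (nat_lit 0xffef607)) e e)))
 (c (b (nat_lit 0xfe00401)) e
 (c z e
 (c (b (nat_lit 0xfb75801)) e
 (c (nat_lit 0x7f8177f8107f8147f8177f817e2002) e
 (c (nat_lit 0x806f98070e807178071780719f8782) e
 (c z e
 (c z e
 (c z e
 (c z e
 (c z e
 (c (b (nat_lit 0xfcb5005)) e
 (c (b (nat_lit 0xfdc0a06)) e
 (c z e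
 (c (b (nat_lit 0xffc4e07)) e
 (c (nat_lit 0x7f0667f0667f0567f0667f06613407) e
 (c (nat_lit 0x7ef627efec7efec7efe07efec49bc7) e
 (c (nat_lit 0x7ff7a7fffc7fffc7fffc7fffcfee47) e
 (c (nat_lit 0x7efc87efc47ef6d7efc87efc88cd67) e
 (c (nat_lit 0x7ee867ee527ee527ee527ee86cc86b) e
 (c (b (nat_lit 0xffe2a0b)) e
 (c (nat_lit 0x7ffee800008000080000800002c88b) e e)))))))))))))))))))))))))))
 (c (a (nat_lit 0x10200200))
 (c (b (nat_lit 0xfdffa00))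
 (c z e
 (c z e
 (c z e
 (c z e
 (c z e
 (c z e
 (c z e
 (c z e
 (c z e
 (c (d (nat_lit 0xffec607)) e e))))))))))
 (c (b (nat_lit 0xfe00200)) e
 (c (b (nat_lit 0xfdffe01)) e
 (c (b (nat_lit 0xfdffe01)) e
 (c (b (nat_lit 0xfdffe01)) e
 (c (b (nat_lit 0xff9c001)) e
 (c (b (nat_lit 0xfeaaa01)) e
 (c (b (nat_lit 0xffd3202)) e
 (c (nat_lit 0x7ffc27ff9f7ffc17ffbe8000085ae2) e
 (c (nat_lit 0x817708167581682817708177025923) e
 (c z e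
 (c z e
 (c z e
 (c z e
 (c (nat_lit 0x7d93b7d90e7d93b7d93b7d93b0a565) e
 (c (nat_lit 0x7db7e7db7e7db3e7db7e7db7e07946) e
 (c (b (nat_lit 0xfde7a06)) e
 (c z e
 (c (b (nat_lit 0xfc4dc07)) e
 (c (b (nat_lit 0xfd7ce07)) e
 (c z e
 (c (b (nat_lit 0xffe6c07)) e e))))))))))))))))))))))
 (c (a (nat_lit 0x10200000))
 (c (b (nat_lit 0xfed0a01))
 (c (nat_lit 0x7c2b57c2b57c28d7c2b57c2b57c2b57fd86) e
 (c (nat_lit 0x7bdc87bdc87bdc87bd5b7bdc87bdc8ddec6) e e))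
 (c (nat_lit 0x7f0017f0017f0017f0007f00122dc1) e
 (c (b (nat_lit 0xfe00201)) e
 (c z e
 (c (nat_lit 0x7fdde7fde07fe047fe047fe04a8ee1) e
 (c (nat_lit 0x7ff997ffa57ffa88000080000edda2) e
 (c z e
 (c z e
 (c z e
 (c z e
 (c z e
 (c z e
 (c (nat_lit 0x7e5c97e5ad7e5c97e5c97e5c9b9725) e
 (c (nat_lit 0x7d6237d6237d60f7d6237d62369826) e
 (c (nat_lit 0x7e4237e4237e4237e4087e4232cf86) e
 (c z e
 (c z e
 (c z e
 (c (b (nat_lit 0xfefe607)) e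
 (c (b (nat_lit 0xfcffe07)) e
 (c (b (nat_lit 0x1007b40c)) e e))))))))))))))))))))) tt686))))))) Tr.c Tr.e (nat_lit 0) C.t4 C.t5 C.t6 C.t7
noncomputable def tt692 : Tr := beta% (fun (c : Nat → Tr → Tr → Tr) (e : Tr) (z : Nat) (a b d : Nat → Nat) =>
 (c (a (nat_lit 0x10200400))
 (c (nat_lit 0x7f8537f8537f83b7f83b7f83b1f7c1)
 (c (d (nat_lit 0xfaf6c07)) e
 (c z e
 (c z e
 (c (d (nat_lit 0x1056f607)) e
 (c (nat_lit 0x7d6f37d6af7d6bc7d6f37d6f37d6f32968a) e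
 (c (d (nat_lit 0x107dba0a)) e
 (c z e
 (c (nat_lit 0x80000800008000080bdf80bdf80bdf04520) e e))))))))
 (c (b (nat_lit 0xfdfe601)) e
 (c (b (nat_lit 0xfe63e01)) e
 (c (b (nat_lit 0xff35801)) e
 (c (b (nat_lit 0xffde402))
 (c (nat_lit 0x8000080000800007f1197f1437f143b05d1) e e)
 (c (b (nat_lit 0xfbef802)) e
 (c (b (nat_lit 0xff8c003)) e
 (c (nat_lit 0x7ec1b7ec1b7ec057ec1b7ec1b798e3) e
 (c z e
 (c z e
 (c (b (nat_lit 0xf9fb403)) e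
 (c (nat_lit 0x7d1c77d1ab7d1c77d1c77d1c7831a6) e
 (c (nat_lit 0x7d7257d7257d7087d7257d725ab246) e
 (c (b (nat_lit 0xff02207)) e
 (c (b (nat_lit 0xfea3407)) e
 (c z e
 (c z e
 (c (b (nat_lit 0xfc71807)) e
 (c (nat_lit 0x7f26e7f26e7f26c7f26e7f26e70eca) e
 (c (nat_lit 0x7ee487ee487ee487ee2b7ee483bf6a) e
 (c (nat_lit 0x8000080000800007ee6b7ee5d183ea) e
 (c (nat_lit 0x800008000080000800007eea56042a) e e))))))))))))))))))))))
 (c (a (nat_lit 0x10200600))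
 (c (b (nat_lit 0xfdd8e01)) e
 (c (nat_lit 0x7fcb97fca57fd3c7fd3c7fd3cd03e1) e
 (c (nat_lit 0x7feb87feb57fea97feb87feb8a6e02) e
 (c (nat_lit 0x800407fcd5800408004080040e87a2) e
 (c (b (nat_lit 0xfe01e03)) e
 (c (b (nat_lit 0xfdfc603)) e
 (c (b (nat_lit 0xff9e603)) e
 (c z e
 (c (nat_lit 0x81bbb81bae81bbb81bbb81bbb24e43) e
 (c (b (nat_lit 0xf987c06)) e
 (c (nat_lit 0x7cc437cc3a7cc437cc437cc43645c6) e
 (c (nat_lit 0x7ecdc7ecdc7ecca7ecd57ecdc31467) e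
 (c (b (nat_lit 0xfd9f607)) e
 (c (nat_lit 0x7fb837fb837fb837fb1d7fb3ab2507) e
 (c z e
 (c z e
 (c (nat_lit 0x80793807ba8074e807ba807ba8b109) e
 (c (nat_lit 0x7ffe97ffd7800008000080000036aa) e
 (c z e
 (c z e
 (c (nat_lit 0x800008000080000800007fffcfd26a) e e)))))))))))))))))))))
 (c (a (nat_lit 0x10200200))
 (c (nat_lit 0x7e5b87e5797e5747e5b87e5b810402)
 (c (nat_lit 0x80000800008000080000800007ffad88089) e
 (c (nat_lit 0x800007ffce7fe2a8000080000800007098a) e e))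
 (c (b (nat_lit 0xfc8ea02)) e
 (c (b (nat_lit 0xfce1603)) e
 (c z e
 (c z e
 (c z e
 (c z e
 (c (b (nat_lit 0x108d1206)) e
 (c (nat_lit 0x7f7517f7517f7437f7517f75145426) e
 (c (nat_lit 0x8000080000800007fff180000e8106) e
 (c (nat_lit 0x7f7807f7807f7807f7807f773fc8a7) e
 (c (nat_lit 0x7fbe87fbe87fbe87fae97fbe8a3b87) e
 (c (b (nat_lit 0xff6b007)) e
 (c (b (nat_lit 0xff8c407)) e
 (c (b (nat_lit 0xffe9c09)) e
 (c (nat_lit 0x7ff597ff597fe5a7ff597ff59b0a49) e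
 (c (b (nat_lit 0xffb0c0a)) e
 (c (b (nat_lit 0xfffba0a)) e
 (c z e
 (c (nat_lit 0x800008000080000800007fff553e8a) e e))))))))))))))))))))
 (c (a (nat_lit 0x101ffc00))
 (c (b (nat_lit 0xfe3b803)) e
 (c (b (nat_lit 0xff5dc03)) e
 (c z e
 (c z e
 (c z e
 (c z e
 (c (nat_lit 0x7f8c77f8597f8a37f9217f9216f546) e
 (c (nat_lit 0x7f40f7f3e57f4017f40f7f40ff8c47) e
 (c (nat_lit 0x7eb6d7eb6d7eb577eb6d7eb6d362e7) e
 (c (b (nat_lit 0xff49c07)) e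
 (c (b (nat_lit 0xff09607)) e
 (c (b (nat_lit 0xfde3007)) e
 (c (nat_lit 0x7fb787fb787fb617fb577fb789cf29) e
 (c (nat_lit 0x7fac57fb217fb217fb217fb2182b29) e
 (c (b (nat_lit 0xff46409)) e e)))))))))))))))
 (c (a (nat_lit 0x101ff600))
 (c (nat_lit 0x7f3737f3737f3737f35d7f3733dfa3) e
 (c (b (nat_lit 0x100d7c03)) e
 (c (b (nat_lit 0xfc54203)) e
 (c z e
 (c z e
 (c (nat_lit 0x7f2de7f3347f3347f3347f3348d9e7) e
 (c (nat_lit 0x80000800007ffd58000080000d9ec7) e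
 (c (nat_lit 0x80000800007fea380000800003cd47) e
 (c (b (nat_lit 0xffcaa07)) e
 (c (b (nat_lit 0xff18007)) e
 (c (b (nat_lit 0xff33209)) e
 (c (nat_lit 0x7f9317f9317f9317f8e17f8e5a02e9) e
 (c (nat_lit 0x7fd4a7fd4a7fd4a7fd4a7fcd5a37c9) e
 (c (nat_lit 0x7ff707ff707ff847ff847ff8445829) e e))))))))))))))
 (c (a (nat_lit 0x10200000))
 (c (b (nat_lit 0xfc6c003)) e
 (c (nat_lit 0x7fd267fd7b7fd7b7fd7b7fd7b784c6) e
 (c z e
 (c (b (nat_lit 0x105bee07)) e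
 (c z e
 (c (b (nat_lit 0x1015ea07)) e
 (c z e
 (c (b (nat_lit 0xfcc6e07)) e e))))))))
 (c (a (nat_lit 0x101ff800))
 (c (b (nat_lit 0xfc5e606)) e
 (c z e
 (c z e
 (c (b (nat_lit 0x1021fa07)) e
 (c z e
 (c (nat_lit 0x7ffe67ffb080000800008000080627) e
 (c (nat_lit 0x7f3737f3737f35b7f3737f373b26e8) e
 (c (nat_lit 0x80000800007f1b87f1b87f1b8bb788) e
 (c (nat_lit 0x8000080000800007f1987f19b10868) e e)))))))))
 (c (a (nat_lit 0x10200000))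
 (c (b (nat_lit 0xff8b007)) e
 (c z e
 (c z e
 (c (nat_lit 0x7d17b7d21f7d21f7d21f7d21fbd807) e
 (c (nat_lit 0x7bdf27bd447bdf27bdf27bdf2fb108) e
 (c (nat_lit 0x7d6177d6147d6177d5ee7d6171a108) e
 (c (nat_lit 0x80000800007efd27efd17efd223288) e
 (c (nat_lit 0x8000080000800007f1157f0edfaa28) e
 (c (nat_lit 0x800008000080000800007f60592588) e e)))))))))
 (c (nat_lit 0x81000810018100181001f7ca0)
 (c z e
 (c (nat_lit 0x71e8071e5271e8071e8071e80d67e7) e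
 (c (nat_lit 0x7dfb27dfb27dfa47dfb27dfb288188) e
 (c (b (nat_lit 0xfc5fe08)) e
 (c (nat_lit 0x7f90a7f9037f9047f90a7f90a81e68) e
 (c (nat_lit 0x80000800007f05a7f0577f05cb3868) e
 (c (nat_lit 0x8000080000800007eff37eff0d4d08) e
 (c (nat_lit 0x800008000080000800007f327a6448) e e))))))))
 (c (a (nat_lit 0x10200000))
 (c (nat_lit 0x745d7745cc745d7745d7745d739728) e
 (c (b (nat_lit 0xf9d5408)) e
 (c (nat_lit 0x7f0b97f0ba7f0be7f0be7f0beac368) e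
 (c (nat_lit 0x7f1927f18f7f18c7f1907f1921b608) e
 (c (nat_lit 0x80000800007ef907ef8e7ef90b15a8) e
 (c (nat_lit 0x8000080000800007ef977ef9b398e8) e
 (c (nat_lit 0x800008000080000800007f2e65b9e8) e e)))))))
 (c (a (nat_lit 0x10200200)) e
 (c (nat_lit 0x810008100080fff80ffff38a0) e
 (c (nat_lit 0x80ff980ffa80ffa80ffaa7c70) e
 (c (a (nat_lit 0x101ff001)) e
 (c (nat_lit 0x80fea80fe980fe980fe9e4d41) e
 (c (a (nat_lit 0x10195801)) e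
 (c (a (nat_lit 0x10155801)) e
 (c (a (nat_lit 0x101f7a01)) e
 (c (nat_lit 0x80fc280fc380fc280fc200c52) e
 (c (nat_lit 0x80f9080f9080f9180f91df732) e
 (c (a (nat_lit 0x101edc03)) e
 (c (nat_lit 0x80f4f80f4f80f4f80f4e52223) e
 (c (nat_lit 0x80f2280f2280f2280f2134b63) e
 (c (nat_lit 0x7fe397fe387fe327fe35929f3) e
 (c (nat_lit 0x7f86d7f86d7f86c7f86c478a3) e
 (c (nat_lit 0x807f78080c808108081bcc236) e
 (c (nat_lit 0x807c7807f1807f8807f607ac6) e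
 (c (a (nat_lit 0x10054607)) e
 (c (nat_lit 0x802a9802a9802a9802aa1ad87) e
 (c (nat_lit 0x802b7802bc802bd802bdff647) e
 (c (nat_lit 0x801fd801be801be801bed3a47) e
 (c (nat_lit 0x80fb980fb880fb780fb7cfe97) e e))))))))))))))))))))))))))))))))) Tr.c Tr.e (nat_lit 0) C.t4 C.t5 C.t6
noncomputable def tt693 : Tr := beta% (fun (c : Nat → Tr → Tr → Tr) (e : Tr) (z : Nat) (a b d : Nat → Nat) =>
 (c (a (nat_lit 0xfe00000))
 (c (nat_lit 0x817d68152e817d6817d6817d6817d6076c2)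
 (c z e
 (c z e
 (c z e
 (c (d (nat_lit 0x1100000b)) e e))))
 (c z e
 (c z e
 (c z e
 (c z e
 (c (b (nat_lit 0x10400c03)) e
 (c z e
 (c z e
 (c z e
 (c z e
 (c (b (nat_lit 0x10915407)) e
 (c z e
 (c z e
 (c (b (nat_lit 0xff1380b)) e e))))))))))))))
 (c (a (nat_lit 0xfe00000))
 (c z e
 (c z e
 (c z e
 (c z e
 (c z e
 (c z e
 (c z e
 (c z e
 (c z e
 (c z e
 (c z e
 (c z e
 (c z e
 (c (b (nat_lit 0xfffd20b)) e e))))))))))))))
 (c (a (nat_lit 0xfdffa00)) e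
 (c (a (nat_lit 0xfdffe00))
 (c (nat_lit 0x7d7967d63e7d7967d7967d7967d79601906) e
 (c z e
 (c z e
 (c z e
 (c z e
 (c z e
 (c z e
 (c (nat_lit 0x7e0207e0207dffb7e0207e0207e020146cb) e e))))))))
 (c (a (nat_lit 0xfdff400)) e
 (c (a (nat_lit 0xfe00201))
 (c (nat_lit 0x7f3a17f3a17f3a17f3667f3a17f3a152ec7) e e)
 (c (a (nat_lit 0xfe01a01)) e
 (c (a (nat_lit 0xfdfec01)) e
 (c (nat_lit 0x7f0a47f0a47f0a47f0a47f00364201) e
 (c (a (nat_lit 0xfdda601)) e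
 (c (nat_lit 0x7e4b87e4b87e4b27e4b87e4b82da82) e
 (c (nat_lit 0x7e2727e2727e26d7e2657e272c8a82) e
 (c (nat_lit 0x80000800007ff088000080000bd822) e
 (c (a (nat_lit 0x1022f603)) e
 (c z e
 (c z e
 (c (a (nat_lit 0xfe6bc03)) e
 (c (a (nat_lit 0xfe96a06)) e
 (c (a (nat_lit 0xfead406)) e
 (c z e
 (c (nat_lit 0x7f5967f5877f5757f5967f596fa887) e
 (c (nat_lit 0x7f60d7f60d7f60d7f5fd7f60de4467) e
 (c (a (nat_lit 0xffb8207)) e
 (c (a (nat_lit 0xfce9a07)) e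
 (c (nat_lit 0x7ecc47ecc47ecac7ecc47ecc437b0b) e
 (c (a (nat_lit 0xff2480b)) e
 (c (nat_lit 0x8000080000800007ffda80000a6a4b) e
 (c (nat_lit 0x8000080000800007ff7f7ff7f9ed8b) e e))))))))))))))))))))))))))))) Tr.c Tr.e (nat_lit 0) C.t5 C.t6 C.t7
noncomputable def tt694 : Tr := beta% (fun (c : Nat → Tr → Tr → Tr) (e : Tr) (z : Nat) (a b : Nat → Nat) =>
 (c (a (nat_lit 0xfe01600))
 (c z e
 (c z e
 (c (b (nat_lit 0x106a0a02)) e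
 (c (nat_lit 0x8327a8323c832cb832cb832cb832cbb7382) e
 (c (nat_lit 0x823ea823d4823ea823ea823ea823ea4ed03) e
 (c z e
 (c (b (nat_lit 0x10482603)) e
 (c z e
 (c z e
 (c z e
 (c (nat_lit 0x7fee8800008000080000800008000007c46) e e)))))))))))
 (c (a (nat_lit 0xfe00200))
 (c z e
 (c (nat_lit 0x823bd82380823bd823bd823bd823bd5ca42) e e))
 (c (a (nat_lit 0xfe00600))
 (c (nat_lit 0x82fc482fba82fbb82fc482fc482fc495743) e
 (c z e
 (c z e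
 (c z e
 (c (b (nat_lit 0xfe8d603)) e e)))))
 (c (a (nat_lit 0xfdff200))
 (c z e
 (c z e
 (c z e
 (c z e
 (c z e
 (c z e
 (c (nat_lit 0x7fe927fe928000080000800008000027ec7) e
 (c z e
 (c z e
 (c z e
 (c z e
 (c (b (nat_lit 0xfface0b)) e e))))))))))))
 (c (a (nat_lit 0xfdffa00)) e
 (c (a (nat_lit 0xfdff800)) e
 (c (a (nat_lit 0xfe00c00)) e
 (c (a (nat_lit 0xfe00a01)) e
 (c (a (nat_lit 0xfe01201)) e
 (c (nat_lit 0x7f0107f0107f0107f0067f006692a1) e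
 (c (a (nat_lit 0xfaa2e01)) e
 (c (a (nat_lit 0xfce5801)) e
 (c (a (nat_lit 0xfc9b402)) e
 (c (nat_lit 0x7e4977e2457e4977e4977e497bf042) e
 (c (a (nat_lit 0x101a9c03)) e
 (c z e
 (c z e
 (c z e
 (c (a (nat_lit 0xfebf403)) e
 (c (a (nat_lit 0xfec9206)) e
 (c (a (nat_lit 0xfe6ca06)) e
 (c (nat_lit 0x7f2db7f2de7f2f87f2f87f2f8b2627) e
 (c (a (nat_lit 0xfe15207)) e
 (c z e
 (c z e
 (c z e
 (c z e
 (c z e
 (c (nat_lit 0x7fd867fd867fd8680000800007ac8b) e e)))))))))))))))))))))))))))))) Tr.c Tr.e (nat_lit 0) C.t5 C.t6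
noncomputable def tt695 : Tr := beta% (fun (c : Nat → Tr → Tr → Tr) (e : Tr) (z : Nat) (a b d : Nat → Nat) =>
 (c (a (nat_lit 0xfe00e00))
 (c (nat_lit 0x80ff680fee80ff180ff180fee80fef7b8c1)
 (c z e
 (c z e
 (c z e
 (c z e
 (c z e
 (c z e
 (c (d (nat_lit 0xfbd8a07)) e
 (c (d (nat_lit 0xff24807)) e e))))))))
 (c (b (nat_lit 0x101bee01)) e
 (c (nat_lit 0x80ff380ff380ff380ff280ff380ff306dc1) e
 (c (nat_lit 0x80ff780ff780ff780ff780ff580ff7ab1c1) e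
 (c z e
 (c (nat_lit 0x83a5783a3c83a3e83a5783a5783a57c7542) e
 (c (b (nat_lit 0x101a7602)) e
 (c z e
 (c (b (nat_lit 0x1019da03)) e
 (c (b (nat_lit 0x102a1e03)) e
 (c z e
 (c z e
 (c (nat_lit 0x800007fde07fde0800008000080000211c6) e
 (c z e
 (c (b (nat_lit 0x10b53407)) e
 (c (b (nat_lit 0xff8c407)) e
 (c z e
 (c (b (nat_lit 0xffe6807)) e
 (c (b (nat_lit 0xffd1207)) e
 (c z e
 (c (nat_lit 0x7fe3080000800008000080000800003758b) e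
 (c z e
 (c (nat_lit 0x800007ffef7ffef800008000080000430ce) e e)))))))))))))))))))))))
 (c (a (nat_lit 0xfe00400))
 (c (b (nat_lit 0x101fe401)) e
 (c z e
 (c z e
 (c (b (nat_lit 0x107aa602)) e
 (c (nat_lit 0x8304a8308a8308a8308a8308a8308a76e82) e
 (c (b (nat_lit 0x1034e603)) e
 (c (b (nat_lit 0x101b2403)) e
 (c (b (nat_lit 0x1018ba03)) e
 (c z e
 (c z e
 (c z e
 (c z e
 (c z e
 (c z e
 (c (b (nat_lit 0xfec7c07)) e
 (c z e
 (c z e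
 (c (b (nat_lit 0xfdcc20b)) e
 (c (b (nat_lit 0xfff260b)) e e)))))))))))))))))))
 (c (a (nat_lit 0xfe00800))
 (c z
 (c z e
 (c z e
 (c z e
 (c z e
 (c z e
 (c z e
 (c (nat_lit 0x800008000080000800007ff4d8000080000fda8b) e e)))))))
 (c (b (nat_lit 0x107fde02)) e
 (c (nat_lit 0x82816828128286a8286a8286a8286ae7242) e
 (c (nat_lit 0x826c182663826c1826c1826c1826c1b2103) e
 (c z e
 (c z e
 (c z e
 (c z e
 (c z e
 (c (b (nat_lit 0xfb89806)) e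
 (c z e
 (c z e
 (c z e
 (c z e
 (c z e
 (c (b (nat_lit 0xffec40b)) e
 (c (b (nat_lit 0xffbf40b)) e
 (c (b (nat_lit 0xfdfbc0e)) e e))))))))))))))))))
 (c (a (nat_lit 0xfe00400))
 (c (b (nat_lit 0x1081fe02)) e e)
 (c (a (nat_lit 0xfdffa00))
 (c z e
 (c z e
 (c z e
 (c z e
 (c z e
 (c (nat_lit 0x800008000080000800007fe817fe818bf43) e
 (c z e
 (c z e
 (c z e
 (c z e
 (c z e
 (c z e
 (c (b (nat_lit 0x10184a0b)) e e)))))))))))))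
 (c (a (nat_lit 0xfe00400)) e
 (c (a (nat_lit 0xfdffe00)) e
 (c (a (nat_lit 0xfe01000))
 (c (nat_lit 0x7e3f27e1b77e3f27e3f27e3f27e3f219747) e
 (c (nat_lit 0x80cbe80cbe80bff80cbe80cbe80cbe4b847) e
 (c z e
 (c z e
 (c z e
 (c z e
 (c z e
 (c z e
 (c (b (nat_lit 0x102e220e)) e e)))))))))
 (c (nat_lit 0x7f00e7f00d7f00d7f00d7f00e53520)
 (c (b (nat_lit 0x103b9207)) e e)
 (c (nat_lit 0x7f00d7f00b7f00b7f00b7f00b29201)
 (c z e
 (c z e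
 (c z e
 (c z e
 (c (nat_lit 0x800007ffd77ffd7800008000080000f728e) e e)))))
 (c (nat_lit 0x7f0067f0067f0017f0037f00366801) e
 (c (nat_lit 0x7f0127f0127f0127f0067f008d4fc1) e
 (c (a (nat_lit 0xfc9e201)) e
 (c (nat_lit 0x7de7a7de6d7de8c7de8c7de8cf37a1) e
 (c (nat_lit 0x7de787de787de767de787de787a2c2) e
 (c (nat_lit 0x7ee707ee707ee687ee637ee7082a42) e
 (c (a (nat_lit 0xfed4e03)) e
 (c (a (nat_lit 0xff7e603)) e
 (c z e
 (c z e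
 (c (a (nat_lit 0xfeaa603)) e
 (c (a (nat_lit 0xfee8606)) e
 (c (a (nat_lit 0xfe83c06)) e
 (c (nat_lit 0x7f2d97f2d97f2d87f2d97f2d982027) e
 (c (nat_lit 0x7f08d7f08d7f08d7f07d7f08de0727) e
 (c (nat_lit 0x7f9bb7f9bb7f9a57f9a57f9bb68327) e
 (c z e
 (c z e
 (c z e
 (c z e
 (c (a (nat_lit 0xfe6500e)) e
 (c (a (nat_lit 0xfe45e0e)) e e))))))))))))))))))))))))))))))))) Tr.c Tr.e (nat_lit 0) C.t5 C.t6 C.t7
noncomputable def tt696 : Tr := beta% (fun (c : Nat → Tr → Tr → Tr) (e : Tr) (z : Nat) (a b : Nat → Nat) =>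
 (c (a (nat_lit 0xfe00400))
 (c (b (nat_lit 0x101fdc01)) e
 (c (b (nat_lit 0x101ff801))
 (c z e
 (c z e
 (c z e
 (c z e
 (c z e
 (c z e
 (c (nat_lit 0x80000800007fa57800008000080000800002678b) e e)))))))
 (c (b (nat_lit 0x101ff401)) e
 (c z e
 (c (b (nat_lit 0x10449202)) e
 (c (nat_lit 0x825e682589825e6825e6825e6825e6ad502) e
 (c z e
 (c (b (nat_lit 0xf67a403)) e
 (c z e
 (c z e
 (c z e
 (c z e
 (c z e
 (c z e
 (c z e
 (c z e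
 (c z e
 (c z e
 (c (nat_lit 0x8000080000800007ff4c7ff4c800001c14b) e e)))))))))))))))))))
 (c (a (nat_lit 0xfe00200))
 (c (b (nat_lit 0x101ff801)) e
 (c z e
 (c (b (nat_lit 0x10502a02)) e
 (c (nat_lit 0x828a082858828a0828a0828a0828a03b182) e
 (c z e
 (c z e
 (c z e
 (c z e
 (c z e
 (c z e
 (c z e
 (c z e
 (c z e
 (c z e
 (c z e
 (c z e
 (c (nat_lit 0x8106081044810448106081060810608cf0b) e e)))))))))))))))))
 (c (a (nat_lit 0xfdffc00))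
 (c (b (nat_lit 0x10742202)) e
 (c (b (nat_lit 0x102ae002)) e
 (c z e
 (c z e
 (c z e
 (c z e
 (c z e
 (c (b (nat_lit 0xf907c06)) e
 (c (b (nat_lit 0xf9dd406)) e
 (c z e
 (c z e
 (c z e
 (c z e
 (c z e
 (c (b (nat_lit 0x1069320b)) e
 (c (nat_lit 0x83c2183c2183c1783c1883c2183c210544e) e
 (c (b (nat_lit 0x103e360e)) e e)))))))))))))))))
 (c (a (nat_lit 0xfdff400))
 (c z e
 (c z e
 (c z e
 (c z e
 (c z e
 (c (b (nat_lit 0xf9c8006)) e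
 (c z e
 (c z e
 (c z e
 (c z e
 (c z e
 (c z e
 (c z e
 (c z e
 (c z e
 (c z e
 (c z e
 (c z e
 (c z e
 (c z e
 (c (nat_lit 0x80000800008000080000800007fe13e534f) e e)))))))))))))))))))))
 (c (a (nat_lit 0xfdffa00))
 (c (b (nat_lit 0x102f6403)) e
 (c z e
 (c z e
 (c (nat_lit 0x7b5207b4b57b5207b5207b5207b52022b86) e
 (c (nat_lit 0x7af087af087ae937af087af087af083c8c6) e
 (c z e
 (c z e
 (c z e
 (c z e
 (c z e
 (c z e
 (c z e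
 (c (b (nat_lit 0x10519a0e)) e
 (c (nat_lit 0x80000800008000080dc380dc380dc31b498) e
 (c (nat_lit 0x800008000080000800007ff377ff2eb8058) e e)))))))))))))))
 (c (a (nat_lit 0xfdffa00))
 (c z e
 (c (b (nat_lit 0xfd3ca06)) e
 (c (b (nat_lit 0xf5cfa06)) e
 (c (nat_lit 0x7e7af7e7a17e7777e7ae7e7af7e7af62907) e
 (c z e
 (c z e
 (c z e
 (c z e
 (c z e
 (c z e
 (c (b (nat_lit 0x1093aa0e)) e
 (c (b (nat_lit 0x1065d618)) e e))))))))))))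
 (c (a (nat_lit 0xfe00000))
 (c (nat_lit 0x808608084d8080a80860808608086067e06) e
 (c (nat_lit 0x8176f8176f8174d817298176f8176fff107) e
 (c z e
 (c z e
 (c z e
 (c z e
 (c z e
 (c z e
 (c z e
 (c (b (nat_lit 0x101cd212)) e e))))))))))
 (c (nat_lit 0x7f00d7f00d7f00d7f00c7f00cd92a0)
 (c (b (nat_lit 0x101f4007)) e e)
 (c (a (nat_lit 0xfe00400))
 (c z e
 (c z e
 (c z e
 (c (b (nat_lit 0xff1c20e)) e e))))
 (c (nat_lit 0x7effc7effb7effc7effc7effc5bc81)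
 (c (nat_lit 0x7b3887b3887b3437b3887b3887b3880ce0b) e
 (c (nat_lit 0x7b2467b2467b2467b1a67b2467b246ada4e) e e))
 (c (nat_lit 0x7f0147f0147f00e7f00e7f00ee9dc1)
 (c (nat_lit 0x7d5b77d5b77d5b77d5787d5b77d5b71c6ce) e e)
 (c (a (nat_lit 0xfdfe801)) e
 (c (a (nat_lit 0xfbca001)) e
 (c (a (nat_lit 0xfc44601)) e
 (c (nat_lit 0x7f2a57f28a7f28e7f2a57f2a56d5c2) e
 (c (nat_lit 0x7f2bc7f2bc7f28b7f2907f2bce5982) e
 (c (nat_lit 0x7f35b7f35b7f35b7f2b97f35bd1cc3) e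
 (c (a (nat_lit 0xfeca003)) e
 (c (a (nat_lit 0x100b4e03)) e
 (c (a (nat_lit 0x10135e03)) e
 (c (a (nat_lit 0xfee2e03)) e
 (c (nat_lit 0x7ef1c7ef387ef9d7ef9d7ef9d300e6) e
 (c (nat_lit 0x7efbd7ef937efb97eff47eff467286) e
 (c (nat_lit 0x7f0147f0147eff97f0147f014376e7) e
 (c (nat_lit 0x7f04c7f04c7f04c7f0487f04c31c07) e
 (c (nat_lit 0x7f1927f1927f18f7f18f7f192f4307) e
 (c (nat_lit 0x7f7537f7537f7537f73a7f73ab4d27) e
 (c z e
 (c (a (nat_lit 0xfe9f40b)) e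
 (c (nat_lit 0x7f94a7f9397f94a7f94a7f94a4be2e) e
 (c (nat_lit 0x7f9d57f9d57f9857f9d57f9d5a19ee) e e)))))))))))))))))))))))))))))))) Tr.c Tr.e (nat_lit 0) C.t5 C.t6
noncomputable def tt697 : Tr := beta% (fun (c : Nat → Tr → Tr → Tr) (e : Tr) (z : Nat) (a b : Nat → Nat) =>
 (c (a (nat_lit 0x10202e00))
 (c (b (nat_lit 0xdfd6c02)) e
 (c (nat_lit 0x7b36c7b36c7b36c7b36c7b36c7b36c7b330f7782) e
 (c (nat_lit 0x7fcd07fcd07fcd07fc517fc3c7fcd07fcd0f4583) e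
 (c z e
 (c (nat_lit 0x800007ffca800008000080000800008000043103) e
 (c z e
 (c z e
 (c (b (nat_lit 0xfffe206)) e
 (c z e
 (c z e
 (c (b (nat_lit 0xffd8e07)) e
 (c (b (nat_lit 0xffc9407)) e
 (c z e
 (c z e
 (c z e
 (c (nat_lit 0x8000080000800007ff4980000800008000045f8e) e
 (c z e
 (c (b (nat_lit 0xffff61a)) e e))))))))))))))))))
 (c (a (nat_lit 0x101fa800))
 (c (b (nat_lit 0xf999e03)) e
 (c (nat_lit 0x8000080000800007ff8d8000080000800009cd82) e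
 (c z e
 (c z e
 (c z e
 (c z e
 (c z e
 (c z e
 (c z e
 (c z e
 (c z e
 (c z e
 (c z e
 (c z e
 (c z e
 (c (b (nat_lit 0xffb301a)) e e))))))))))))))))
 (c (a (nat_lit 0x101f6c00)) e
 (c (a (nat_lit 0x10200a01))
 (c z e
 (c z e
 (c (b (nat_lit 0xf462806)) e
 (c z e
 (c z e
 (c z e
 (c z e
 (c (nat_lit 0x80000800007fd36800008000080000800004ce87) e e))))))))
 (c (a (nat_lit 0x10201c01))
 (c z e
 (c z e
 (c z e
 (c z e
 (c (b (nat_lit 0xffa9007)) e e)))))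
 (c (a (nat_lit 0x10202601)) e
 (c (a (nat_lit 0x101ffa01)) e
 (c z e
 (c z
 (c z e
 (c (b (nat_lit 0xfba1a1a)) e e))
 (c (nat_lit 0x81d4781d4781d4581d4181d4781d47db542) e
 (c (a (nat_lit 0x10445a03)) e
 (c z e
 (c z e
 (c z e
 (c z e
 (c (a (nat_lit 0x103b1406)) e
 (c (a (nat_lit 0x1024ce06)) e
 (c (a (nat_lit 0x1024e407)) e
 (c (a (nat_lit 0x101c5407)) e
 (c z e
 (c (nat_lit 0x7f2877f2d17f2d17f2d17f2d17f2d199187) e
 (c (a (nat_lit 0xfe8b407)) e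
 (c (nat_lit 0x7ff3d7ff457ffe48000080000800006650b) e
 (c (nat_lit 0x809cb809cb8091a809cb809cb809cb8670e) e
 (c (a (nat_lit 0x1014ce0e)) e
 (c (nat_lit 0x80e3a80e3a80e3a80dac80dcf80e3ae379a) e e))))))))))))))))))))))))))) Tr.c Tr.e (nat_lit 0) C.t6 C.t7
noncomputable def tt698 : Tr := beta% (fun (c : Nat → Tr → Tr → Tr) (e : Tr) (z : Nat) (a b d : Nat → Nat) =>
 (c (a (nat_lit 0xfdffa00))
 (c (b (nat_lit 0x10066401))
 (c (nat_lit 0x7ddda7ddda7ddda7ddda7dd4b7ddda7dddac0086) e e)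
 (c (b (nat_lit 0x10200e01)) e
 (c z e
 (c (b (nat_lit 0x101b2602))
 (c (d (nat_lit 0x1100040e)) e e)
 (c (nat_lit 0x8213481dbc8213482134821348213404342) e
 (c (nat_lit 0x806a7803ba803c9806a7806a7806a7a7d03) e
 (c (b (nat_lit 0x1020aa03)) e
 (c (b (nat_lit 0x101d4a03)) e
 (c z e
 (c z e
 (c (b (nat_lit 0x10315206)) e
 (c (nat_lit 0x8589b8589b8589b8583e8583e8589b551c6) e
 (c (b (nat_lit 0x10612607)) e
 (c (b (nat_lit 0xfcc1c07)) e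
 (c z e
 (c (b (nat_lit 0x1010d807)) e
 (c z e
 (c z e
 (c (nat_lit 0x8000080000800007ffd17ffba80000bd9ce) e
 (c (b (nat_lit 0xff4ec13)) e e))))))))))))))))))))
 (c (a (nat_lit 0xfdffa00))
 (c z e
 (c (b (nat_lit 0xfdc8002))
 (c z e
 (c (d (nat_lit 0x1100000e)) e e))
 (c (b (nat_lit 0x10656a02))
 (c (d (nat_lit 0x10fff40e)) e
 (c z e
 (c (d (nat_lit 0xffb1042)) e e)))
 (c (b (nat_lit 0x10511a03)) e
 (c z e
 (c z e
 (c z e
 (c z e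
 (c (nat_lit 0x7cfb77cfb77cfab7cfb77cfb77cfb798806) e
 (c (nat_lit 0x7f4cd7f4cd7f4cd7f1fc7f4cd7f4cddfcc6) e
 (c z e
 (c (b (nat_lit 0xf824a07)) e
 (c (b (nat_lit 0xfe28407)) e
 (c (b (nat_lit 0x1010a207)) e
 (c (b (nat_lit 0x105b5407)) e
 (c (b (nat_lit 0x1063680e)) e
 (c (b (nat_lit 0x105bbe0e)) e e)))))))))))))))))
 (c (a (nat_lit 0xfdf9600))
 (c (b (nat_lit 0x100bc002))
 (c (d (nat_lit 0x10d67c0e)) e
 (c (d (nat_lit 0x10df9a0e)) e e))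
 (c (b (nat_lit 0x106e9403)) e
 (c (b (nat_lit 0x1041a003)) e
 (c z e
 (c z e
 (c z e
 (c (b (nat_lit 0x10349206)) e
 (c (nat_lit 0x7ce177ce177cd977ce177ce177ce170be86) e
 (c z e
 (c z e
 (c z e
 (c z e
 (c z e
 (c (b (nat_lit 0x1066be0e)) e
 (c (b (nat_lit 0x106b2a0e)) e
 (c z e
 (c z e
 (c z e
 (c z e
 (c z e
 (c (nat_lit 0x80000800008000080000800007f675bfb4f) e e)))))))))))))))))))))
 (c (nat_lit 0x7effc7effb7effb7effb7effb00dc0)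
 (c z e
 (c z e
 (c z e
 (c (nat_lit 0x7c56d7c54c7c56d7c56d7c56d7c56de55c3) e
 (c (nat_lit 0x7ba9f7ba497ba877ba9f7ba9f7ba9fbb186) e
 (c (nat_lit 0x80000800007ff687ffb280000800007e8c6) e
 (c (nat_lit 0x7cb7f7cb7f7cb7f7ca927cb5d7cb7f33407) e
 (c (nat_lit 0x7f95d7f95d7f8ad7f95d7f95d7f95dd5dc7) e
 (c (b (nat_lit 0x1015c007)) e
 (c (b (nat_lit 0x103dd807)) e
 (c (b (nat_lit 0x1088ec07)) e
 (c (b (nat_lit 0x10b41a0e)) e
 (c (b (nat_lit 0x106ea00e)) e e)))))))))))))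
 (c (a (nat_lit 0xfdffc00))
 (c z e
 (c z e
 (c (nat_lit 0x7a94e7a94e7a9187a94e7a94e7a94e0d1c6) e
 (c (nat_lit 0x7b44d7b42e7b4437b4207b44d7b44d026c6) e
 (c z e
 (c z e
 (c z e
 (c z e
 (c (b (nat_lit 0xf868207)) e
 (c (b (nat_lit 0x105a1a0e)) e
 (c (b (nat_lit 0x102a820e)) e
 (c (b (nat_lit 0x103c1012)) e e))))))))))))
 (c (a (nat_lit 0xfdffe00))
 (c (b (nat_lit 0x102e7006)) e
 (c (nat_lit 0x828cd8288b8284f82832828cd828cdf4a86) e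
 (c (nat_lit 0x830ca830ca830bc83083830b9830ca51147) e
 (c z e
 (c z e
 (c z e
 (c z e
 (c (b (nat_lit 0xf66700e)) e
 (c z e
 (c z e
 (c (b (nat_lit 0x1014c812)) e e)))))))))))
 (c (a (nat_lit 0xfe00600))
 (c (nat_lit 0x830178301782fe5830178301783017f9ec7) e
 (c (nat_lit 0x811a9811a9810778119e811a9811a92ae07) e
 (c (b (nat_lit 0xffed207)) e
 (c (b (nat_lit 0x103dba07)) e
 (c (b (nat_lit 0x10146407)) e
 (c z e
 (c z e
 (c (nat_lit 0x7ff4f8000080000800008000080000bbc91) e e))))))))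
 (c (a (nat_lit 0xfe02000))
 (c (nat_lit 0x8311b8310b8311b8311b8311b8311be9dc7) e
 (c z e
 (c z e
 (c (nat_lit 0x7e4b97e4b97e4b97e4b97e4457e3fbab80e) e e))))
 (c (a (nat_lit 0xfdff600))
 (c (nat_lit 0x800007ff987ffe080000800008000075887) e
 (c (b (nat_lit 0xf79b00e)) e
 (c (nat_lit 0x7ed3a7ed3a7ed3a7ed1f7ed3a7ed3ab0a4e) e
 (c (b (nat_lit 0xfc7ec20)) e e))))
 (c (a (nat_lit 0xfe00a01))
 (c (nat_lit 0x7f9e77f9e77f77f7f9e77f9e77f9e7a1f8e) e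
 (c (nat_lit 0x8000080000800007fffa80000800006ce90) e e))
 (c (a (nat_lit 0xfdf0e01)) e
 (c (nat_lit 0x7ed577eff07eff07eff07eff02f281) e
 (c (a (nat_lit 0xfadd401)) e
 (c (a (nat_lit 0xfd87201)) e
 (c (nat_lit 0x7ed257ed257ed147ed257ed25fe9a2) e
 (c (nat_lit 0x7edd67edd67ed567ed2b7edd6eb702) e
 (c (nat_lit 0x7f1337f1337f1337f1047f133c5ce3) e
 (c (a (nat_lit 0xfe70603)) e
 (c (a (nat_lit 0xff6b003)) e
 (c (a (nat_lit 0xff2bc03)) e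
 (c (nat_lit 0x7f4c07f4b67f51b7f51b7f51b44e23) e
 (c (a (nat_lit 0xfe8d606)) e
 (c (nat_lit 0x7f56e7f5437f56e7f56e7f56e7b306) e
 (c (nat_lit 0x7f5997f5997f5647f5937f5995ba67) e
 (c (nat_lit 0x7f5e17f5e17f5e17f5a47f5d86e167) e
 (c (nat_lit 0x7f6177f6177f5c77f6177f607a2e47) e
 (c (nat_lit 0x80000800007ffde7fe337fe3362587) e
 (c z e
 (c (nat_lit 0x7f9cb7f9d57f9b07fa007fa00ac3ce) e
 (c (nat_lit 0x7fa307f9d37fa0f7f9f87fa301a16e) e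
 (c (nat_lit 0x800008000080000800007ffbaeafee) e
 (c (nat_lit 0x800008000080000800007ffa8ae04f) e
 (c z e
 (c z e
 (c (nat_lit 0x8000080000800007fefe7fefef580f) e e)))))))))))))))))))))))))))))))))))) Tr.c Tr.e (nat_lit 0) C.t5 C.t6 C.t7
noncomputable def tt699 : Tr := beta% (fun (c : Nat → Tr → Tr → Tr) (e : Tr) (z : Nat) (a b : Nat → Nat) =>
 (c (a (nat_lit 0x10201e00))
 (c (nat_lit 0x70f4270f4270f4270f4270f2470f4270f4279f01) e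
 (c (b (nat_lit 0xec2c802)) e
 (c (nat_lit 0x7f5487f5487f5127f4f07f5487f5487f548b8202) e
 (c z e
 (c z e
 (c z e
 (c (b (nat_lit 0xf7d7803)) e
 (c z e
 (c (b (nat_lit 0x10264606)) e
 (c (b (nat_lit 0x10204a06)) e
 (c z e
 (c (b (nat_lit 0x10717607)) e
 (c z e
 (c (nat_lit 0x8000080000800007ff68800008000080000d8b87) e
 (c z e
 (c z e
 (c z e
 (c (b (nat_lit 0xfc96c16)) e
 (c (b (nat_lit 0xfcfd632)) e e)))))))))))))))))))
 (c (a (nat_lit 0x101fce00))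
 (c (nat_lit 0x7f6fc7f6fc7f6fc7f6f67f6fc7f6fc7f6fc82902) e
 (c z e
 (c z e
 (c z e
 (c z e
 (c z e
 (c z e
 (c z e
 (c (b (nat_lit 0xffea007)) e e)))))))))
 (c (a (nat_lit 0x101fd800))
 (c z e
 (c z e
 (c z e
 (c z e
 (c z e
 (c (b (nat_lit 0xf668e06)) e e))))))
 (c (a (nat_lit 0x101fdc00))
 (c z e
 (c z e
 (c z e
 (c (b (nat_lit 0xf5b8606)) e e))))
 (c (a (nat_lit 0x10203001))
 (c (b (nat_lit 0xf098e06)) e
 (c z e
 (c z e
 (c z e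
 (c z e
 (c (b (nat_lit 0xfff1807)) e
 (c (nat_lit 0x800007ff828000080000800008000080000b6c07) e
 (c (nat_lit 0x80000800007ff7a80000800008000080000d220e) e e))))))))
 (c (a (nat_lit 0x10209a01))
 (c z e
 (c z e
 (c z e
 (c z e
 (c z e
 (c z e
 (c z e
 (c (b (nat_lit 0x109e3c16)) e e))))))))
 (c (a (nat_lit 0x10203801))
 (c (b (nat_lit 0xfe18407)) e
 (c z e
 (c z e
 (c z e
 (c (b (nat_lit 0x1100000e)) e e)))))
 (c (a (nat_lit 0x10202001))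
 (c z e
 (c z e
 (c (b (nat_lit 0x10efc40e)) e e)))
 (c z e
 (c z e
 (c (nat_lit 0x80e0180e0180dbb80d9f80e0180e0121bc2) e
 (c z e
 (c z e
 (c z e
 (c z e
 (c z e
 (c z e
 (c (a (nat_lit 0x10323606)) e
 (c (a (nat_lit 0x102a7207)) e
 (c z e
 (c (a (nat_lit 0xfe9b407)) e
 (c (a (nat_lit 0xfdc0007)) e e))))))))))))))))))))))) Tr.c Tr.e (nat_lit 0) C.t6 C.t7
noncomputable def tt700 : Tr := beta% (fun (c : Nat → Tr → Tr → Tr) (e : Tr) (z : Nat) (a b : Nat → Nat) =>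
 (c z
 (c (b (nat_lit 0xec99e01)) e
 (c (b (nat_lit 0xe791c01)) e
 (c (b (nat_lit 0xf3fb801)) e
 (c z e
 (c (b (nat_lit 0xec4ae02)) e
 (c (b (nat_lit 0xf834c02)) e
 (c (b (nat_lit 0xfdff203)) e
 (c z e
 (c (b (nat_lit 0x10e63803)) e
 (c (b (nat_lit 0x10f39203)) e
 (c (b (nat_lit 0x11000003)) e
 (c (b (nat_lit 0x10fffe06)) e
 (c (b (nat_lit 0x11000006)) e
 (c (b (nat_lit 0x10a73207)) e
 (c (b (nat_lit 0xffb0007)) e
 (c (b (nat_lit 0x10828407)) e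
 (c (b (nat_lit 0x109c1007)) e
 (c z e
 (c (b (nat_lit 0xfaa4e0e)) e
 (c (b (nat_lit 0xfbf7a0e)) e e))))))))))))))))))))
 (c (a (nat_lit 0x10204a00))
 (c (nat_lit 0x73e7273e7273e7273cf973e7273e7273e72ae081) e
 (c (b (nat_lit 0xf1ddc01)) e
 (c z e
 (c z e
 (c z e
 (c z e
 (c (nat_lit 0x7d05a7d1847d1847d1847d1847d1847d184e5c03) e
 (c z e
 (c z e
 (c (b (nat_lit 0x10ba7c06)) e
 (c (b (nat_lit 0x1057ea06)) e
 (c (b (nat_lit 0x106ed007)) e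
 (c z e
 (c (nat_lit 0x7d8287d8287d5f67d8287d8287d8287d8282e007) e
 (c z e
 (c (nat_lit 0x800007fed8800008000080000800008000033287) e
 (c z e
 (c (b (nat_lit 0xf7c9a0e)) e
 (c (b (nat_lit 0xf66d026)) e e)))))))))))))))))))
 (c (a (nat_lit 0x101f6c00))
 (c (nat_lit 0x7c4937c4937c4107c4937c4937c4937c49342402) e
 (c z e
 (c (nat_lit 0x7fe877fe877fe877fe807fdeb7fe877fe87ee003) e
 (c z e
 (c z e
 (c z e
 (c z e
 (c (b (nat_lit 0x10655006)) e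
 (c (b (nat_lit 0x10940a06)) e
 (c (b (nat_lit 0x107b5407)) e
 (c (b (nat_lit 0x103ee007)) e
 (c z e
 (c (nat_lit 0x80000800007fc838000080000800008000085407) e
 (c z e
 (c z e
 (c (b (nat_lit 0xfaca40e)) e
 (c (b (nat_lit 0xfd4f626)) e e)))))))))))))))))
 (c (a (nat_lit 0x1005b800))
 (c z e
 (c z e
 (c (b (nat_lit 0xfc23603)) e
 (c z e
 (c z e
 (c z e
 (c z e
 (c z e
 (c z e
 (c z e
 (c z e
 (c z e
 (c z e
 (c (b (nat_lit 0xf104e0e)) e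
 (c (b (nat_lit 0xffe8a23)) e e)))))))))))))))
 (c (a (nat_lit 0x10035600))
 (c z e
 (c z e
 (c z e
 (c (b (nat_lit 0xf74c806)) e
 (c (b (nat_lit 0xee9a206)) e
 (c (b (nat_lit 0x1081a807)) e
 (c z e
 (c z e
 (c z e
 (c (nat_lit 0x7fde88000080000800008000080000800001de07) e e))))))))))
 (c (a (nat_lit 0x101f8400))
 (c z e
 (c z e
 (c (nat_lit 0x71ec071ec071ec071d9a71ec071ec071ec0ee506) e
 (c (nat_lit 0x708eb708eb708eb708eb7081e708eb708ebeca07) e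
 (c z e
 (c z e
 (c z e
 (c (nat_lit 0x7684976605768497684976849768497684928407) e
 (c z e
 (c (nat_lit 0x80000800007ff79800008000080000800000990e) e
 (c z e
 (c (b (nat_lit 0x10fe0c40)) e e))))))))))))
 (c (a (nat_lit 0x1021e601))
 (c (b (nat_lit 0xfb63606)) e
 (c (b (nat_lit 0xe3b1807)) e
 (c (b (nat_lit 0xf054e07)) e
 (c z e
 (c z e
 (c z e
 (c (nat_lit 0x7ee2c7ee2c7ed4b7ee2c7ee2c7ee2c7ee2c44b8e) e
 (c (b (nat_lit 0x1052780e)) e e))))))))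
 (c (a (nat_lit 0x101f9401))
 (c z e
 (c (b (nat_lit 0x10595c07)) e
 (c z e
 (c (b (nat_lit 0x10be8e07)) e
 (c (b (nat_lit 0x10c8c60e)) e
 (c z e
 (c (nat_lit 0x800008000080000843bd843bd843bd843bdc26a2) e e)))))))
 (c (nat_lit 0x80fee80fee80fee80fd780fd780fd75fdc1)
 (c z e
 (c z e
 (c (b (nat_lit 0x1100000e)) e
 (c (b (nat_lit 0x1100000e)) e
 (c (b (nat_lit 0x10ab8e22)) e e)))))
 (c z
 (c (b (nat_lit 0xfb3960e)) e
 (c (b (nat_lit 0xf8eda0e)) e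
 (c (b (nat_lit 0xf501e22)) e e)))
 (c (nat_lit 0x7feba7fe2e8000080000800008000045001)
 (c (b (nat_lit 0xf571c21)) e e)
 (c z e
 (c z e
 (c z e
 (c z e
 (c (a (nat_lit 0x10cba003)) e
 (c (a (nat_lit 0x10f71003)) e
 (c (a (nat_lit 0x10457403)) e
 (c (a (nat_lit 0x104b5806)) e
 (c (a (nat_lit 0x10339806)) e
 (c (a (nat_lit 0x101dd007)) e
 (c (a (nat_lit 0x10149a07)) e e))))))))))))))))))))))) Tr.c Tr.e (nat_lit 0) C.t6 C.t7
noncomputable def tt701 : Tr := beta% (fun (c : Nat → Tr → Tr → Tr) (e : Tr) (z : Nat) (a b d : Nat → Nat) =>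
 (c (a (nat_lit 0xfe04e00)) tt700
 (c (a (nat_lit 0xfdfda00)) tt699
 (c (a (nat_lit 0xfe00800))
 (c (b (nat_lit 0x101f7c00))
 (c (d (nat_lit 0xfd5b403)) e
 (c z e
 (c z e
 (c z e
 (c z e
 (c z e
 (c z e
 (c z e
 (c z e
 (c z e
 (c z e
 (c z e
 (c z e
 (c z e
 (c (d (nat_lit 0xef05016)) e e)))))))))))))))
 (c (b (nat_lit 0x101fd600)) e
 (c (b (nat_lit 0x101ffc01)) e
 (c (nat_lit 0x8100a8100a80fff80fff810028100569441)
 (c z e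
 (c z e
 (c z e
 (c z e
 (c (d (nat_lit 0xffd5807)) e e)))))
 (c (b (nat_lit 0x10206c01)) e
 (c (b (nat_lit 0x10172a01)) e
 (c z e
 (c (nat_lit 0x7fed77fe777fe467fed77fed77fed7e9902) e
 (c z e
 (c z e
 (c z e
 (c z e
 (c z e
 (c z e
 (c (b (nat_lit 0x10450606)) e
 (c (b (nat_lit 0x10319006)) e
 (c (b (nat_lit 0x10141207)) e
 (c z e
 (c z e
 (c z e
 (c z e
 (c z e
 (c (nat_lit 0x7ffe480000800008000080000800003004e) e e)))))))))))))))))))))))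
 (c (a (nat_lit 0xfdffe00))
 (c (b (nat_lit 0x101fb801))
 (c z e
 (c z e
 (c (d (nat_lit 0xfd39206)) e e)))
 (c (b (nat_lit 0x10200601)) e
 (c (b (nat_lit 0x101fec01))
 (c z e
 (c z e
 (c z e
 (c (d (nat_lit 0xf9f9007)) e e))))
 (c z
 (c z e
 (c z e
 (c z e
 (c z e
 (c (nat_lit 0x8000080000800007ff93800008000080000c088e) e e)))))
 (c z e
 (c z e
 (c z
 (c (d (nat_lit 0xfb98022)) e e)
 (c (b (nat_lit 0x100f2403)) e
 (c (b (nat_lit 0x100f7c03)) e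
 (c z e
 (c z e
 (c z e
 (c z e
 (c (b (nat_lit 0x10981206)) e
 (c z e
 (c z e
 (c z e
 (c z e
 (c (b (nat_lit 0xffffc07)) e e))))))))))))))))))) tt698))))) Tr.c Tr.e (nat_lit 0) C.t5 C.t6 C.t7
noncomputable def tt702 : Tr := beta% (fun (c : Nat → Tr → Tr → Tr) (e : Tr) (z : Nat) (a b d f : Nat → Nat) =>
 (c (a (nat_lit 0x101ffe00)) tt701
 (c (a (nat_lit 0x10200200))
 (c (b (nat_lit 0xfdfec00)) tt697
 (c (nat_lit 0x7f0027f0027f0027f0027f003d9080)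
 (c (d (nat_lit 0x101f7a00))
 (c z e
 (c z e
 (c z e
 (c z e
 (c z e
 (c z e
 (c z e
 (c (f (nat_lit 0xf8a9a07)) e
 (c z e
 (c z e
 (c (nat_lit 0x800007fed780000800008000080000800008ab87) e
 (c z e
 (c z e
 (c z e
 (c (f (nat_lit 0xffeca16)) e e)))))))))))))))
 (c (nat_lit 0x80ff880ff880ff880ff880ff780ff81bc41) e
 (c (nat_lit 0x80ff980ff980ff980ff980ff880ff948281) e
 (c (nat_lit 0x80ffd80ffd80ffd80ffc80ffa80ffd59141) e
 (c (d (nat_lit 0x101ffe01)) e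
 (c z e
 (c (nat_lit 0x831908320883208832088320883208da2c2) e
 (c (d (nat_lit 0x101f7202)) e
 (c (d (nat_lit 0x102eb603)) e
 (c z e
 (c z e
 (c z e
 (c z e
 (c z e
 (c z e
 (c z e
 (c z e
 (c z e
 (c z e
 (c z e
 (c z e
 (c z e
 (c (d (nat_lit 0xfff680e)) e e))))))))))))))))))))))) tt696))
 (c (a (nat_lit 0x101ffc00)) tt695
 (c (a (nat_lit 0x10200000)) tt694
 (c (a (nat_lit 0x10200000)) tt693
 (c (a (nat_lit 0x10200200))
 (c (b (nat_lit 0xfdff400))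
 (c z e
 (c z e
 (c z e
 (c (nat_lit 0x7b88d7b88d7b8837b88d7b88d7b88ded446) e
 (c (nat_lit 0x792ad78fc7792ad792ad792ad792ad758c6) e e)))))
 (c (b (nat_lit 0xfdff800))
 (c z e
 (c (d (nat_lit 0xf78fc06)) e
 (c z e
 (c z e
 (c z e
 (c z e
 (c z e
 (c z e
 (c (d (nat_lit 0xf845012)) e e)))))))))
 (c (nat_lit 0x7effe7effd7effd7effd7effd03120)
 (c (d (nat_lit 0xf7d4a06)) e
 (c z e
 (c z e
 (c z e
 (c z e
 (c z e
 (c (nat_lit 0x8543e853da853da8543e8543e8543eed252) e e)))))))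
 (c (b (nat_lit 0xfdffa01)) e
 (c (b (nat_lit 0xfdffe01)) e
 (c (b (nat_lit 0xfdffe01)) e
 (c (nat_lit 0x7f0c37f0c37f0c37f0c37f00d5cc61) e
 (c (b (nat_lit 0xffab201)) e
 (c (nat_lit 0x7fe9a7fe9a7fe8f7fe9a7fe9aeaf62) e
 (c (nat_lit 0x7f4017f3e47f4017f4017f40172882) e
 (c (b (nat_lit 0xfcdd003)) e
 (c z e
 (c z e
 (c z e
 (c (nat_lit 0x7d6fc7d6b27d6fc7d6fc7d6fcdaf43) e
 (c (nat_lit 0x7d7137d7137d6b57d7137d71381266) e
 (c (nat_lit 0x7daeb7daeb7daea7daeb7daeb56026) e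
 (c (b (nat_lit 0xfff2a07)) e
 (c (b (nat_lit 0xfe7fe07)) e
 (c (b (nat_lit 0xff23807)) e
 (c z e
 (c (nat_lit 0x7fe8f7ffd680000800008000018387) e
 (c (nat_lit 0x8000080000800007ff9180000db28a) e
 (c (nat_lit 0x8000080000800007fbd67fb66d9eeb) e e))))))))))))))))))))))))
 (c (a (nat_lit 0x10200800))
 (c (b (nat_lit 0xfecf400))
 (c (nat_lit 0x7ee5f7ee047ee357ee3b7ee5f7ee5f46d06) e
 (c (nat_lit 0x7c4337c4337c3e57c4267c4337c43315346) e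
 (c (d (nat_lit 0x1064ce07)) e
 (c z e
 (c z e
 (c z e
 (c (nat_lit 0x8000080000800007ff697fc5b80000ff347) e
 (c (nat_lit 0x7f2827f2827f2827f2827f13a7f282c144a) e
 (c (d (nat_lit 0x1049ac20)) e e)))))))))
 (c (b (nat_lit 0xfdff001))
 (c z e
 (c (d (nat_lit 0x106db807)) e
 (c (d (nat_lit 0x102a6807)) e
 (c (d (nat_lit 0x10877a07)) e
 (c z e
 (c (nat_lit 0x821668216682166820e18216682166b58ca) e
 (c (nat_lit 0x8000080000800007fe2d80000800009684a) e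
 (c (nat_lit 0x800008000084745847458474584745cc160) e
 (c z e
 (c (nat_lit 0x8000080000800007ff1f7ff1f80000a79a0) e e))))))))))
 (c (b (nat_lit 0xfdff201)) e
 (c (nat_lit 0x7f0097f0097f0097f0007f001da141) e
 (c (b (nat_lit 0xfdb5401)) e
 (c (b (nat_lit 0xfee7001)) e
 (c (b (nat_lit 0xfbe0202)) e
 (c (nat_lit 0x7fc877fc827fc967fc967fc96d72e2) e
 (c (b (nat_lit 0xfdf8c03)) e
 (c z e
 (c z e
 (c z e
 (c (nat_lit 0x7f3d67f3d77f3d77f3d77f3d7fe923) e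
 (c (nat_lit 0x7de777de3e7de607de777de77507e6) e
 (c (nat_lit 0x7db017db017dae67db017db015b106) e
 (c (b (nat_lit 0x100f1a07)) e
 (c (nat_lit 0x7f97b7f97b7f97b7f97b7f91438d27) e
 (c (b (nat_lit 0xfe3d207)) e
 (c (b (nat_lit 0xfe95c07)) e
 (c (nat_lit 0x7ee3a7eef67eef67eef67eef6a1887) e
 (c (nat_lit 0x8017b8017b8017b8012f8017b3214a) e
 (c (nat_lit 0x8000080000800007fff080000f4f4a) e e)))))))))))))))))))))) tt692)))))))) Tr.c Tr.e (nat_lit 0) C.t4 C.t5 C.t6 C.t7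
noncomputable def tt703 : Tr := beta% (fun (c : Nat → Tr → Tr → Tr) (e : Tr) (z : Nat) (a b d f : Nat → Nat) =>
 (c (a (nat_lit 0xfe00000)) tt702
 (c (a (nat_lit 0xfdffe00)) tt691
 (c (a (nat_lit 0xfe00000)) tt685
 (c (a (nat_lit 0xfdffe00))
 (c (b (nat_lit 0x101ffc00)) tt681
 (c (b (nat_lit 0x10200000))
 (c (d (nat_lit 0xfdffc00))
 (c (nat_lit 0x82b8a82b8a829c182b8a82b8a82b8af7843) e
 (c z e
 (c z e
 (c z e
 (c z e
 (c z e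
 (c z e
 (c (nat_lit 0x80000800007ff6e800008000080000761c6) e
 (c z e
 (c z e
 (c (f (nat_lit 0xfd3d407)) e e)))))))))))
 (c (d (nat_lit 0xfe00400)) e
 (c (d (nat_lit 0xfe00001)) e
 (c (d (nat_lit 0xfe00601)) e
 (c (d (nat_lit 0xfe00001)) e
 (c z e
 (c (d (nat_lit 0xff2d001)) e
 (c (d (nat_lit 0xfeb0802)) e
 (c (nat_lit 0x7f3fe7f3b27f4007f4007f400b4302) e
 (c z
 (c (nat_lit 0x80000800008000080000800007f70699c8d) e e)
 (c (d (nat_lit 0x1062b003)) e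
 (c z e
 (c z e
 (c z e
 (c z e
 (c z e
 (c z e
 (c (d (nat_lit 0xfd9d806)) e
 (c (nat_lit 0x7f46c7f4737f4867f4867f486a2ca6) e
 (c (d (nat_lit 0xff5f407)) e
 (c (d (nat_lit 0xfe40407)) e
 (c (nat_lit 0x7e3ce7e3ce7e3ae7e3ae7e3aeb9b87) e
 (c (d (nat_lit 0xfc1ac07)) e
 (c (d (nat_lit 0xfda1e07)) e
 (c (d (nat_lit 0xfea9e0b)) e e))))))))))))))))))))))))) tt680))
 (c (a (nat_lit 0xfdffe00))
 (c (b (nat_lit 0x10200200)) tt679 tt678)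
 (c (a (nat_lit 0xfdffe00)) tt677
 (c (a (nat_lit 0xfdffe00)) tt676
 (c (a (nat_lit 0xfdffe00)) tt675
 (c (a (nat_lit 0xfdffc00)) tt674
 (c (a (nat_lit 0xfdffe00))
 (c (b (nat_lit 0x10200400))
 (c (nat_lit 0x7f8fc7f8f77f8eb7f8d77f8fd9b8e4) e
 (c (nat_lit 0x7f4617f4617f4617f4587f45a27024) e
 (c (nat_lit 0x7f4547f4547f44e7f4547f44be0d85) e
 (c (nat_lit 0x7f3c77f3c77f3c77f3c67f3c6dfaa5) e
 (c (d (nat_lit 0xfda9e05)) e
 (c z e
 (c (nat_lit 0x7ff3f8000080000800008000014d25) e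
 (c (d (nat_lit 0xfe53e06)) e
 (c (nat_lit 0x802aa8029b802aa802aa802aa9ea06) e e)))))))))
 (c (nat_lit 0x810008100080fff80fff46b70)
 (c (d (nat_lit 0xfe8d205)) e
 (c (d (nat_lit 0xfe8ca05)) e
 (c (nat_lit 0x7f6417f6417f6417f5897f589d7f45) e
 (c z e
 (c (d (nat_lit 0xf8cf605)) e
 (c z e
 (c (nat_lit 0x7e6917e5417e6917e6917e691736a6) e e)))))))
 (c (nat_lit 0x8100080fff80fff80fffdecd1)
 (c (d (nat_lit 0xfecee05)) e
 (c z e
 (c z e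
 (c z e
 (c (d (nat_lit 0xffffa06)) e
 (c (nat_lit 0x80000800007fef98000080000aae10) e e))))))
 (c (nat_lit 0x81001810018100081000462b1) e
 (c (nat_lit 0x810058100581005810027ed81) e
 (c (b (nat_lit 0x1003c801)) e
 (c (nat_lit 0x7f2fd7f2ff7f2ff7f300817c1) e
 (c (nat_lit 0x7fb017faff7faff7faff55642) e
 (c (nat_lit 0x80ada80ad980adb80adb137d2) e
 (c (nat_lit 0x806b3806b2806b1806b1d7653) e
 (c (nat_lit 0x80aa480aa480aa480aa3e8d73) e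
 (c (b (nat_lit 0x1011aa03)) e
 (c (b (nat_lit 0x10114803)) e
 (c (nat_lit 0x80f7480f7480f7480f726fa13) e
 (c (nat_lit 0x807b0807af807a6807ae45394) e
 (c (nat_lit 0x807d3807d0807c5807acbaa24) e
 (c (nat_lit 0x807de807de807dc807d4069c4) e
 (c (nat_lit 0x8044580443804428043e6a454) e
 (c (nat_lit 0x80452804518044f8044f03475) e
 (c (nat_lit 0x8043080430804238042e25e15) e
 (c (nat_lit 0x8044a8044b80433804091f5e5) e
 (c (nat_lit 0x7f93d7fcd27fcd37fcd5f2f05) e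
 (c (nat_lit 0x809278091e80ad880ab840025) e
 (c (nat_lit 0x8051580507804fc806b734f76) e
 (c (nat_lit 0x8027680526805138050b96d46) e
 (c (nat_lit 0x8000080000800007fffedd7a6) e e)))))))))))))))))))))))))) tt673))))))))))) Tr.c Tr.e (nat_lit 0) C.t3 C.t4 C.t5 C.t6
noncomputable def tt704 : Tr := beta% (fun (c : Nat → Tr → Tr → Tr) (e : Tr) (z : Nat) (a b d : Nat → Nat) =>
 (c (a (nat_lit 0xfdffe00))
 (c (nat_lit 0x8100181002810008100160ef1)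
 (c (d (nat_lit 0xfe90605)) e
 (c z e
 (c z e
 (c (nat_lit 0x7f7cb7f7cb7f7d77f7db7f7db5d5e5) e e))))
 (c (nat_lit 0x7f80c7f80c7f80c7f80b81641)
 (c (d (nat_lit 0x10280405)) e
 (c z e
 (c z e
 (c (nat_lit 0x8000080000800007fe707fe70a5d09) e e))))
 (c (b (nat_lit 0xfef5001)) e
 (c (nat_lit 0x809bc809bb809c2809c22f591) e
 (c (nat_lit 0x7ff367ff367ff347ff36cc4a2) e
 (c (nat_lit 0x80bf880bf880bed80bf151e72) e
 (c (nat_lit 0x8195a819598195881112771e2) e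
 (c (nat_lit 0x8165f8165f8165f8165e42893) e
 (c (nat_lit 0x80acc80ace80acd80acc4dc63) e
 (c (b (nat_lit 0x10146a03)) e
 (c (b (nat_lit 0x100a5603)) e
 (c (nat_lit 0x80da180da180da180da09cd93) e
 (c (nat_lit 0x805c6805c5805c3805c501994) e
 (c (nat_lit 0x807da807dc807cf807d7593e4) e
 (c (nat_lit 0x807f0807f0807e8807d8266c4) e
 (c (nat_lit 0x8043a80438804368042be53e4) e
 (c (nat_lit 0x8044a8044a80449804462d7a5) e
 (c (nat_lit 0x8045880458804438042bee745) e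
 (c (nat_lit 0x803f1803f5803f7803f77b4b5) e
 (c (nat_lit 0x801cf801cf80221802210d7d5) e
 (c (nat_lit 0x803db803db803da803cc938b5) e e)))))))))))))))))))))
 (c (a (nat_lit 0xfe00000))
 (c (nat_lit 0x7e9be7e9be7e9bf7e9c0d2f51)
 (c (d (nat_lit 0x10319c05)) e e)
 (c (nat_lit 0x80a6880a6780a6880a68eb721) e
 (c (nat_lit 0x80b9880b8580b7f80b96f5712) e
 (c (nat_lit 0x801898018f801908018f66562) e
 (c (nat_lit 0x80d1280d1280d1180cfe271c2) e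
 (c (nat_lit 0x824548245482456824509e0c3) e
 (c (nat_lit 0x80fbe80fbe80fbf80fbc0adf3) e
 (c (nat_lit 0x80406804058040680406156b3) e
 (c (b (nat_lit 0xff5c403)) e
 (c (nat_lit 0x80bd980bd980bda80bd95acb3) e
 (c (nat_lit 0x803ed803ec803eb803ec2a1f4) e
 (c (nat_lit 0x807798077b8077b8077b53ad4) e
 (c (nat_lit 0x8079480793807938079213124) e
 (c (nat_lit 0x804568044c8040d8040b51804) e
 (c (nat_lit 0x8045a804658044f8041cc85d4) e
 (c (nat_lit 0x8046380456804608044e1edd5) e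
 (c (nat_lit 0x8044c8044c8043f8044ccd815) e
 (c (nat_lit 0x8040b8040a8040b8040bedfd5) e
 (c (nat_lit 0x801d0801d0801d0801cffb285) e
 (c (nat_lit 0x803e3803e9803e4803e6da9b5) e e))))))))))))))))))))
 (c (a (nat_lit 0xfdffc00))
 (c (nat_lit 0x805a28059f8059f805a0ad4b2) e
 (c (nat_lit 0x818538185480e5380e5abb432) e
 (c (nat_lit 0x819ba819bb819bc8100339f82) e
 (c (nat_lit 0x81300812fd812fd812ff0ffc3) e
 (c (nat_lit 0x8168b8168b8168c8168b0a313) e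
 (c (b (nat_lit 0xffd6e03)) e
 (c (b (nat_lit 0xfffaa03)) e
 (c (nat_lit 0x813538136281361813605ec63) e
 (c (nat_lit 0x80074800798007c8007a6d6b4) e
 (c (nat_lit 0x8179e8179e8179e8179b515f4) e
 (c (nat_lit 0x8179d817a1817a0817a069034) e
 (c (nat_lit 0x80492803b7803b5803b477ec4) e
 (c (nat_lit 0x80556807bf803c8803c6f3884) e
 (c (nat_lit 0x80684807e0807e2803df38154) e
 (c (nat_lit 0x8000080000807f2807eb8d284) e
 (c (nat_lit 0x80000800008000080700c00e4) e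
 (c (nat_lit 0x8000080000800007fffc118a5) e e)))))))))))))))))
 (c (a (nat_lit 0xfdffe00))
 (c (nat_lit 0x815d9815d7815d680ff249f62) e
 (c (nat_lit 0x81c2d81f5f81f5f81f5fef313) e
 (c (nat_lit 0x7da4e7da4f7da4e7da4f3b973) e
 (c (nat_lit 0x7e54e7e54e7e54f7e54eda3a3) e
 (c (b (nat_lit 0x10086403)) e
 (c (nat_lit 0x7fabd7fac47fac27fac001fe3) e
 (c (nat_lit 0x808788087b8087d8087eddad4) e
 (c (nat_lit 0x81dd881dd681dd681dd7e75c4) e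
 (c (nat_lit 0x81c4681c5281c5281c5242ef4) e
 (c (nat_lit 0x8039e8039080391803925a514) e
 (c (nat_lit 0x8035e803318031e8031b1f0e4) e
 (c (nat_lit 0x804a0804a0803208031575ee4) e
 (c (nat_lit 0x800108049f804a48031733374) e
 (c (nat_lit 0x80000800008049b8049e8fff4) e
 (c (nat_lit 0x8000080000800008049d68c44) e e)))))))))))))))
 (c (a (nat_lit 0xfe00000))
 (c (nat_lit 0x8192f81931819338193453453) e
 (c (nat_lit 0x7fb327fb327fb327fb338b9e3) e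
 (c (b (nat_lit 0xff56e03)) e
 (c (nat_lit 0x82fc882fda82fdf82fdeafbb3) e
 (c (nat_lit 0x8148781487814878148870454) e
 (c (nat_lit 0x824898248a8248a8248ade894) e
 (c (nat_lit 0x8158481583815848158496684) e
 (c (nat_lit 0x811f5811fb811f8811f9d3ae4) e
 (c (nat_lit 0x80d3980d3980d3780d38a39f4) e
 (c (nat_lit 0x80d6080d5f80d5680d508de04) e
 (c (nat_lit 0x80d9080d8f80d9480d703a484) e
 (c (nat_lit 0x80da280d9680d9b80d9eff704) e
 (c (nat_lit 0x800008000080da580da6dc3f4) e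
 (c (nat_lit 0x80000800008000080c68cd644) e e))))))))))))))
 (c (a (nat_lit 0xfdffe00))
 (c (b (nat_lit 0xffcfe03)) e
 (c (nat_lit 0x8669b866968666b8669aaaeb3) e
 (c (nat_lit 0x81ee881ee981eea81eea22ed4) e
 (c (nat_lit 0x82143821448214382142b0f64) e
 (c (nat_lit 0x813db813da813da813d9f4d74) e
 (c (nat_lit 0x81039810398103981038dfc94) e
 (c (nat_lit 0x8102081020810228102120084) e
 (c (nat_lit 0x8100d81021810218101e6fe14) e
 (c (nat_lit 0x80f00810088101681017c8da4) e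
 (c (nat_lit 0x818d580efa8100081016c6ad4) e
 (c (nat_lit 0x80ffb81ae480eef80ff5a0a34) e
 (c (nat_lit 0x800008000081ae980eea04274) e
 (c (nat_lit 0x80000800008000081ae9197d4) e e)))))))))))))
 (c (a (nat_lit 0xfdffe00))
 (c (nat_lit 0x85ae685ae985adc85acf67674) e
 (c (nat_lit 0x81c7a81c7981c7881c77e5874) e
 (c (nat_lit 0x8119c8119b8119b8119ce8204) e
 (c (nat_lit 0x8104e8104e8104d8104b67164) e
 (c (nat_lit 0x81055810548105481053e2ab4) e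
 (c (nat_lit 0x8104d8104e8104f81050136a4) e
 (c (nat_lit 0x8104c810488104a81048a2114) e
 (c (nat_lit 0x810f7810368103281031ad234) e
 (c (nat_lit 0x81084811068102c8102746d74) e
 (c (nat_lit 0x8001981076810ee8101c258c4) e
 (c (nat_lit 0x800008000081068810cf77a34) e
 (c (nat_lit 0x8000080000800008106b5ca14) e e))))))))))))
 (c (a (nat_lit 0xfdffe00))
 (c z e
 (c z e
 (c z e
 (c z e
 (c z e
 (c z e
 (c z e
 (c z e
 (c z e
 (c z e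
 (c (nat_lit 0x8000080000800007fffedf334) e e)))))))))))
 (c (a (nat_lit 0xfdffe00)) e
 (c (a (nat_lit 0xfdffe00)) e
 (c (a (nat_lit 0xfdffe00)) e
 (c (a (nat_lit 0xfdffe00)) e
 (c (a (nat_lit 0xfdffe00)) e
 (c (a (nat_lit 0xfdffe00)) e
 (c (a (nat_lit 0xfdffe00)) e
 (c (a (nat_lit 0xfe00000)) e
 (c (a (nat_lit 0xfe00001)) e
 (c (a (nat_lit 0xfdffe01)) e
 (c (nat_lit 0x7f0067f0067efffc7739) e
 (c (nat_lit 0x7f9247f9257f92535fc1) e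
 (c (nat_lit 0x7f0037f0047f0043e0d1) e
 (c (nat_lit 0x7f3e67f3e87f3e96ff92) e
 (c (nat_lit 0x7f3e77f3e87f3e926a6a) e
 (c (a (nat_lit 0xfe7d202)) e
 (c (a (nat_lit 0xff20803)) e
 (c (a (nat_lit 0xff20a03)) e
 (c (nat_lit 0x7fbf27fbf47fbf40caab) e
 (c (a (nat_lit 0x1000fc03)) e
 (c (a (nat_lit 0xfcdf803)) e e)))))))))))))))))))))))))))))) Tr.c Tr.e (nat_lit 0) C.t3 C.t4 C.t5
noncomputable def tt705 : Tr := beta% (fun (c : Nat → Tr → Tr → Tr) (e : Tr) (z : Nat) (a b : Nat → Nat) =>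
 (c (nat_lit 0x81000810018100181001a5ea0)
 (c z e
 (c (nat_lit 0x7ef4c7ef4c7ef457ef4c7ef4c0ca84) e
 (c (nat_lit 0x7eefd7eefd7eefd7eeeb7eefdf7b44) e
 (c (nat_lit 0x7dbb37dbb37dbf07dbf07dbf0754a5) e
 (c z e
 (c z e
 (c z e
 (c z e
 (c (nat_lit 0x7ae357ae1e7ae357ae357ae3527e66) e
 (c (nat_lit 0x7e2dd7e2fc7e2fc7e2fc7e2fce4a86) e
 (c (nat_lit 0x7e3ba7e38b7e3b67e3ba7e3baa63e6) e e)))))))))))
 (c (nat_lit 0x8100080fff80fff80fff72970)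
 (c (nat_lit 0x7fd3d7fd257fd227fd1e7fd468c584) e
 (c (nat_lit 0x7eab37eab37eab47eab47eab407f65) e
 (c (nat_lit 0x7e8697e8697e85c7e8647e866c95c5) e
 (c (b (nat_lit 0xfcaf205)) e
 (c (nat_lit 0x7ee2b7ee2b7ee2b7ee277ee2761f25) e
 (c (b (nat_lit 0xfe0ee05)) e
 (c z e
 (c (nat_lit 0x7d05f7d05f7d04a7d05f7d05fedae6) e
 (c (b (nat_lit 0xfc07c06)) e
 (c (nat_lit 0x8000080000800007f2be7f2be5a5a6) e
 (c (nat_lit 0x800008000080000800007ffcec8166) e e)))))))))))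
 (c (nat_lit 0x80ffe80fff80ffe80ffd9ca20)
 (c (nat_lit 0x7e8d57e8d57e8cb7e8b97e8a44bd05) e
 (c (nat_lit 0x7f0877f0877ef5a7ef5a7f08750a65) e
 (c (b (nat_lit 0xfa22a05)) e
 (c (b (nat_lit 0xfe28605)) e
 (c z e
 (c z e
 (c (b (nat_lit 0xfcd4606)) e
 (c (nat_lit 0x8000080000800007ff08800007d806) e e))))))))
 (c (nat_lit 0x80ffb80ffd80ffd80ffd74671)
 (c (b (nat_lit 0xff00005)) e
 (c (nat_lit 0x7fffc7fffc7fffc7fffc7ffc13e165) e
 (c (nat_lit 0x7ff307ff3080000800008000055c46) e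
 (c (nat_lit 0x7fcda7fcda8000080000800005f386) e
 (c z e
 (c (nat_lit 0x8000080000821f08220e8220e1eeb0) e e))))))
 (c (a (nat_lit 0x10200401))
 (c z e
 (c (nat_lit 0x7f37c7f37c7f3417f3417f37cd5046) e
 (c z e
 (c z e
 (c z e
 (c (nat_lit 0x800008000080000800007fd0eb8589) e e))))))
 (c (nat_lit 0x8100c81006810088100267231) e
 (c (nat_lit 0x7f0557f0607f06b7f06be7561) e
 (c (nat_lit 0x806ca806c6806cb806cb00771) e
 (c (nat_lit 0x806d7806d2806ce806d5ab6d2) e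
 (c (nat_lit 0x816b6816b8816b6816b445992) e
 (c (nat_lit 0x8032a8032980329803298ab72) e
 (c (nat_lit 0x80a4880a4980a4980a4a570b3) e
 (c (a (nat_lit 0x10152803)) e
 (c (nat_lit 0x7ff107ff107ff117ff10a3e03) e
 (c (nat_lit 0x7fe237fe237fe237fe2256f23) e
 (c (nat_lit 0x810108100d8100e810110bb83) e
 (c (nat_lit 0x8081480817808168081750e24) e
 (c (nat_lit 0x80fbc80fbb80fbd80fbc7ebc4) e
 (c (nat_lit 0x80fb080faf80fae80faf04f95) e
 (c (nat_lit 0x80fb680fb280fb080fae42795) e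
 (c (nat_lit 0x80fbc80fbd80fbd80fbe00875) e
 (c (nat_lit 0x8037c8037e8037f8038b40725) e
 (c (nat_lit 0x8157b815368120b8032e4ebc5) e
 (c (nat_lit 0x80d73811978115380e26862a6) e
 (c (nat_lit 0x804c980d7d811908115440b46) e
 (c (nat_lit 0x802b88051280d77811908b4b6) e
 (c (nat_lit 0x8000080000800008085878cc6) e e)))))))))))))))))))))))))))) Tr.c Tr.e (nat_lit 0) C.t4 C.t5
noncomputable def tt706 : Tr := beta% (fun (c : Nat → Tr → Tr → Tr) (e : Tr) (z : Nat) (a b : Nat → Nat) =>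
 (c (a (nat_lit 0x100f9000))
 (c (b (nat_lit 0x101f7e03)) e
 (c z e
 (c z e
 (c z e
 (c (nat_lit 0x7f5397f5347f5407f5407f540a3f44) e
 (c (nat_lit 0x7e62a7e6137e6137e62a7e62a99605) e
 (c (nat_lit 0x7e3287e3287e3157e3287e3281aa05) e
 (c (b (nat_lit 0xf87b005)) e
 (c (nat_lit 0x7e0e57e0e57e0e57e05c7e05cab465) e
 (c (nat_lit 0x7d4eb7d4817d4817d4eb7d4eb69ee5) e
 (c (b (nat_lit 0xfdbda06)) e
 (c (b (nat_lit 0xfcde006)) e
 (c (nat_lit 0x7e63a7e63a7e6377e63a7e63a45226) e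
 (c (nat_lit 0x8000080000800007f3f27f3f257606) e
 (c (nat_lit 0x800008000080000800007f40063186) e e)))))))))))))))
 (c (nat_lit 0x810018100181002810027da60)
 (c z e
 (c z e
 (c (nat_lit 0x80000800007fff0800008000021924) e
 (c (nat_lit 0x7e5d87e5907e59e7e5d87e5d874025) e
 (c z e
 (c z e
 (c z e
 (c z e
 (c (nat_lit 0x7beec7bf417bf417bf417bf4133da6) e
 (c (nat_lit 0x7df6b7df6b7df6b7df377df6b6ffa6) e
 (c (b (nat_lit 0xfbee006)) e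
 (c (nat_lit 0x7e3027e3027e2fe7e2fc7e3021a76a) e
 (c (nat_lit 0x8000080000800007f8187f811ac78a) e
 (c (nat_lit 0x800008000080000800007f7cdea3ca) e e))))))))))))))
 (c (a (nat_lit 0x10200200))
 (c (nat_lit 0x7fcc57fcb87fcc97fcd17fcd743764) e
 (c (nat_lit 0x7fc6c7fc6c7fc697fc6c7fc6c66045) e
 (c (nat_lit 0x7e9a57e9a57e9587e9587e9a5aabc5) e
 (c (nat_lit 0x7f0787f0787f0557f0557f078054c5) e
 (c (nat_lit 0x8000080000800007ffe17ffe1f8405) e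
 (c z e
 (c z e
 (c (b (nat_lit 0xfc7e006)) e
 (c (b (nat_lit 0xfd3fe06)) e
 (c (nat_lit 0x8000080000800007f1827f1883e446) e
 (c (nat_lit 0x800008000080000800007f1927fc86) e e)))))))))))
 (c (nat_lit 0x810018100080fff80ffee3250)
 (c (nat_lit 0x7ea3c7ea197ea1f7ea117ea3ce9745) e
 (c (nat_lit 0x7f5487f5487f5277f5277f548a3805) e
 (c (nat_lit 0x7f4977f4977f4977f40c7f40cc05c5) e
 (c (b (nat_lit 0xfb96605)) e
 (c z e
 (c z e
 (c (nat_lit 0x7fa407f90a7fa407fa407fa40d3526) e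
 (c (nat_lit 0x8000080000800007f9ba7f9ba14906) e e))))))))
 (c (nat_lit 0x80fff80fff810008100059110)
 (c (b (nat_lit 0xfece205)) e
 (c (b (nat_lit 0xfde2e05)) e
 (c (b (nat_lit 0xfdc2406)) e
 (c (nat_lit 0x7ffd1800008000080000800000ddc6) e
 (c z e
 (c (b (nat_lit 0x1036d809)) e
 (c (nat_lit 0x8000080000800007f1c97f1e8c3169) e
 (c (nat_lit 0x800008000080000800007f1d6a2b49) e e))))))))
 (c (nat_lit 0x8100181003810038100221a31)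
 (c (b (nat_lit 0xfed6806)) e
 (c (nat_lit 0x7e93d7e7167e7167e93d7e93de94a6) e
 (c (b (nat_lit 0xfddd006)) e e)))
 (c (nat_lit 0x80fff80fff8100081000684d1)
 (c (nat_lit 0x7e71f7e71f7e65f7e71f7e71fe5826) e
 (c (nat_lit 0x8000080000800007fec07fec003446) e e))
 (c (nat_lit 0x8101e810098100581001a89a1) e
 (c (nat_lit 0x7f39d7f39d7f39c7f39c88191) e
 (c (nat_lit 0x80620806208062680625bfb51) e
 (c (nat_lit 0x815928158f8158f8158ea4a02) e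
 (c (nat_lit 0x8155d8155c81559815598d3e2) e
 (c (nat_lit 0x80f3980f3880f3780f35c8d22) e
 (c (a (nat_lit 0x10259e03)) e
 (c (a (nat_lit 0x1025aa03)) e
 (c (nat_lit 0x809c4809c5809ba809b912643) e
 (c (a (nat_lit 0x1002e603)) e
 (c (nat_lit 0x810268102981027810287f1d3) e
 (c (nat_lit 0x80a2d80a3280a3480a34f5024) e
 (c (nat_lit 0x80f4280f4380f4480f44f5c95) e
 (c (nat_lit 0x80f3780f3880f3980f3a2cdf5) e
 (c (nat_lit 0x80f3280f3180f3180f31c4245) e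
 (c (nat_lit 0x80330802e5802af802a06e945) e
 (c (nat_lit 0x80c5a80c5780c5680c4c1ea15) e
 (c (nat_lit 0x8087b808768086e8087021466) e
 (c (nat_lit 0x805b38088b808768086d8f846) e
 (c (nat_lit 0x80580805b88088a8087683da6) e
 (c (nat_lit 0x800008000080000803733f606) e e))))))))))))))))))))))))))))) Tr.c Tr.e (nat_lit 0) C.t4 C.t5
noncomputable def tt707 : Tr := beta% (fun (c : Nat → Tr → Tr → Tr) (e : Tr) (z : Nat) (a b : Nat → Nat) =>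
 (c (a (nat_lit 0x1012f800))
 (c (b (nat_lit 0x10293c02))
 (c (nat_lit 0x75c2c75c2c75c097598375c2c75c2cc7006) e
 (c (nat_lit 0x758237582375823751b27582375823ff906) e e))
 (c (b (nat_lit 0x1007a602))
 (c (nat_lit 0x7e9f07e9f07e9f07e9f07e95d7e9f0fed12) e e)
 (c (b (nat_lit 0x10230e03)) e
 (c (b (nat_lit 0xf86b203)) e
 (c (b (nat_lit 0xfcc8c03)) e
 (c (b (nat_lit 0x10124003)) e
 (c (nat_lit 0x80c3180c4f80c4680c7080c708d3e3) e
 (c (nat_lit 0x7de387dcf97dcf97de387de38aa485) e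
 (c z e
 (c (b (nat_lit 0xfdac005)) e
 (c (b (nat_lit 0xfaad205)) e
 (c (b (nat_lit 0xf75c605)) e
 (c (nat_lit 0x7dc137dc137dbf37dc137dc1364c06) e
 (c (nat_lit 0x7c8c97c8c97c8c97c88b7c8c983626) e
 (c (b (nat_lit 0xfcbee06)) e
 (c (nat_lit 0x8000080000800007e1347e1aaa63c6) e
 (c (nat_lit 0x800008000080000800007e0ca9c086) e e)))))))))))))))))
 (c (nat_lit 0x81000810008100081001ec900)
 (c (b (nat_lit 0x10078603))
 (c (nat_lit 0x800008000080000800007ffef8000088bc6) e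
 (c (nat_lit 0x800008000080000800007ff707ff70354ca) e e))
 (c (b (nat_lit 0xfbf3203)) e
 (c z e
 (c z e
 (c z e
 (c (b (nat_lit 0xfea8c05)) e
 (c (b (nat_lit 0xfd16205)) e
 (c (b (nat_lit 0xfc57005)) e
 (c z e
 (c (b (nat_lit 0xf690405)) e
 (c (nat_lit 0x7afc87afad7afc87afc87afc875446) e
 (c (nat_lit 0x7cbf97cbf97cbdf7cbf97cbf9b2f06) e
 (c (nat_lit 0x7d9a47d9a47d99f7d9a47d9a474e66) e
 (c (nat_lit 0x7dc767dc767dc767dc687dc765160a) e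
 (c (nat_lit 0x8000080000800007d9587d9a5bbfca) e
 (c (nat_lit 0x800008000080000800007d9b78c2aa) e e))))))))))))))))
 (c (a (nat_lit 0x10200000))
 (c z e
 (c z e
 (c (nat_lit 0x800007ffea800008000080000a51c3) e
 (c (b (nat_lit 0xffc3a05)) e
 (c (b (nat_lit 0xfd1be05)) e
 (c (b (nat_lit 0xffff805)) e
 (c z e
 (c z e
 (c (b (nat_lit 0xfab4406)) e
 (c (nat_lit 0x7ff9b80000800008000080000b6f26) e
 (c (b (nat_lit 0xfd3aa06)) e
 (c (nat_lit 0x7e5e87e5e87e5e27e5e17e5e8a142a) e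
 (c (b (nat_lit 0xfcd560a)) e e)))))))))))))
 (c (nat_lit 0x810018100081000810003fed0)
 (c z e
 (c (nat_lit 0x7fc647fbc17fbc17fc647fc64d9745) e
 (c (nat_lit 0x7f4117f4117f40b7f4117f411c7745) e
 (c z e
 (c z e
 (c (nat_lit 0x7e6237e5577e5577e6237e62328745) e
 (c (nat_lit 0x7e8a37e8a37e6487e6487e8a3790c6) e
 (c (nat_lit 0x7ed4f7ed5a7ed5a7ed5a7ed5ad94a6) e
 (c (nat_lit 0x7e4d27e4827e4d27e4d27e4d253586) e
 (c z e
 (c z e
 (c (nat_lit 0x800008000080000800007ffb1dba4a) e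
 (c (nat_lit 0x800008000080000800007fe538076a) e
 (c (nat_lit 0x800008000080000800007eb8c301ea) e e))))))))))))))
 (c (a (nat_lit 0x10200000))
 (c (b (nat_lit 0xff8a005)) e
 (c (nat_lit 0x7f70a7f70a7f6337f6337f70afa725) e
 (c (b (nat_lit 0xfe24a05)) e
 (c (b (nat_lit 0xfdfba05)) e
 (c (nat_lit 0x7e8f57e7e07e7e07e8f57e8f5e6466) e
 (c (b (nat_lit 0xfb5f606)) e
 (c (b (nat_lit 0xf88c206)) e
 (c (nat_lit 0x7e6c97e6d37e6d37e6d37e6d3e0449) e e))))))))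
 (c (nat_lit 0x80ffa80ffc80ffc80ffa21d70)
 (c (nat_lit 0x8000080000800007ff9e7ff9e2e225) e
 (c (b (nat_lit 0xfdb7805)) e
 (c (nat_lit 0x7edf57edf57edf57ed887edf5bdc66) e
 (c (nat_lit 0x7ea557ea557ea477ea557ea55da946) e
 (c (b (nat_lit 0xffe4606)) e
 (c z e
 (c (b (nat_lit 0xfcaf009)) e
 (c (nat_lit 0x8000080000800007f4a47f4a40c4c9) e e))))))))
 (c (a (nat_lit 0x10200400))
 (c (nat_lit 0x7f5087f5087f5087f4f77f50861806) e
 (c (b (nat_lit 0xfb9de06)) e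
 (c (b (nat_lit 0xf671606)) e e)))
 (c (a (nat_lit 0x10200001))
 (c (nat_lit 0x7dcb07dcb07dc457dcb07dcb07da46) e
 (c (nat_lit 0x80000800007c9a47c9bc7c9bc24d70) e
 (c (nat_lit 0x80000800007ffb27ffb28000064f10) e e)))
 (c (nat_lit 0x810018100181000810000e271)
 (c (nat_lit 0x8000080000800007f4767f47f11988) e e)
 (c (a (nat_lit 0xfea6601)) e
 (c (a (nat_lit 0xfe1a801)) e
 (c (nat_lit 0x815c9815c9815c8815c9d7a31) e
 (c (nat_lit 0x80ee880ee780ee680ee61c132) e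
 (c (nat_lit 0x815c9815c9815c8815c834482) e
 (c (nat_lit 0x80a0b80a0a80a0880a07d1b82) e
 (c (nat_lit 0x815ac815ac815aa815ab195e3) e
 (c (nat_lit 0x815ab815aa815aa815a99b543) e
 (c (nat_lit 0x815d3815d3815bf815c9b8e53) e
 (c (nat_lit 0x7fd617fd617fd627fd626c7d3) e
 (c (nat_lit 0x810238102781025810293d083) e
 (c (nat_lit 0x809b4809b4809b4809b33fb65) e
 (c (nat_lit 0x80eda80edb80edc80eddead65) e
 (c (nat_lit 0x80ee980ef780ed980ed9ece55) e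
 (c (nat_lit 0x7fd407fd427fd427fd47ead35) e
 (c (nat_lit 0x8094f8094e8094d809513e9d5) e
 (c (nat_lit 0x8056480560805608055cc6076) e
 (c (nat_lit 0x80520805718056180566c1116) e
 (c (nat_lit 0x8051f8051c805758055fd7d16) e
 (c z e
 (c z e
 (c z e
 (c z e
 (c (nat_lit 0x80000800008000080c1d128c7) e e)))))))))))))))))))))))))))))))))) Tr.c Tr.e (nat_lit 0) C.t4 C.t5
noncomputable def tt708 : Tr := beta% (fun (c : Nat → Tr → Tr → Tr) (e : Tr) (z : Nat) (a b d : Nat → Nat) =>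
 (c (a (nat_lit 0x10200600))
 (c z
 (c z e
 (c z e
 (c z e
 (c z e
 (c (d (nat_lit 0xfff0a06)) e e)))))
 (c z e
 (c (nat_lit 0x803188035380353803538035355242) e
 (c (nat_lit 0x8041a8041a804148040d8041ab6922) e
 (c (b (nat_lit 0x1048be02)) e
 (c z e
 (c (nat_lit 0x817cf817cf817c1817c1817cfe37c3) e
 (c (nat_lit 0x7e2247e2247e1ef7e1ef7e2245b2c3) e
 (c z e
 (c (nat_lit 0x7fce17fce17ff83800008000080e83) e
 (c (nat_lit 0x800007fef97fef980000800002a7a5) e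
 (c (nat_lit 0x7d1d67d1d67ced97ced97d1d694e45) e
 (c z e
 (c (nat_lit 0x7b33a7b33e7b3117b33e7b33ea1ca5) e
 (c (nat_lit 0x7bf017bef67bf017bed87bf01640a6) e
 (c (b (nat_lit 0xf810c06)) e
 (c (nat_lit 0x7e4c07e4c07e4bb7e4aa7e4c074da6) e
 (c (nat_lit 0x8000080000800007d60a7d60ac1ae6) e
 (c (nat_lit 0x800008000080000800007d606ceaa6) e
 (c (nat_lit 0x800008000080000800007ffd2130c7) e
 (c (nat_lit 0x800008000080000800007fffe757c7) e e)))))))))))))))))))))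
 (c (a (nat_lit 0x10200000))
 (c z
 (c (d (nat_lit 0xe57b006)) e e)
 (c (nat_lit 0x80211801f3802758027580275a4b42)
 (c (nat_lit 0x7a97b7a97b7a97b7a83d7a97b7a97b63bca) e e)
 (c z e
 (c (nat_lit 0x7e5437e5477e5477e5477e5471cea3) e
 (c (b (nat_lit 0xf8dd403)) e
 (c z e
 (c z e
 (c (b (nat_lit 0xff38403)) e
 (c (b (nat_lit 0xfcfe205)) e
 (c z e
 (c z e
 (c z e
 (c (nat_lit 0x7b75d7b75d7b7577b75d7b75d78a06) e
 (c (nat_lit 0x7be547be547be4d7be547be54f5786) e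
 (c (nat_lit 0x7df967df967df947df817df96e54c6) e
 (c (nat_lit 0x7df617df617df617df5c7df61a5e0a) e
 (c (nat_lit 0x8000080000800007d7e77d7e76fa8a) e
 (c (nat_lit 0x800008000080000800007d939f2b47) e e))))))))))))))))))
 (c (a (nat_lit 0x10200400))
 (c (b (nat_lit 0x1017f202))
 (c (nat_lit 0x7cd067cc817cd067cd067cd067cd06e544a) e e)
 (c z e
 (c z e
 (c z e
 (c z e
 (c z e
 (c (nat_lit 0x800007fb5680000800008000072ce5) e
 (c z e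
 (c z e
 (c z e
 (c z e
 (c (b (nat_lit 0xfefa606)) e
 (c (nat_lit 0x7e4097e4047e40a7e40a7e40a9b5c6) e
 (c (nat_lit 0x7e4c37e4c37e4c07e4c37e4c3cd9aa) e
 (c (b (nat_lit 0xfcf1a0a)) e e)))))))))))))))
 (c (a (nat_lit 0x10200200))
 (c z e
 (c z e
 (c z e
 (c z e
 (c z e
 (c (nat_lit 0x7f2ff7f2ff7f2ff7f29f7f2ffd1685) e
 (c z e
 (c z e
 (c z e
 (c (b (nat_lit 0xffff806)) e
 (c (b (nat_lit 0xfd6da06)) e
 (c (nat_lit 0x7ded67ded37ded07ded67ded682fea) e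
 (c (nat_lit 0x7de797de797de797de737de7992eca) e
 (c (nat_lit 0x7f4167f4167f4167f3f57f40653daa) e e))))))))))))))
 (c (a (nat_lit 0x10200200))
 (c z e
 (c z e
 (c (b (nat_lit 0xfe71a05)) e
 (c (nat_lit 0x8000080000800007fbd37fbd3f3445) e
 (c z e
 (c (b (nat_lit 0xfd13805)) e
 (c z e
 (c z e
 (c z e
 (c (nat_lit 0x7eb3b7eb327eb477eb477eb473d409) e e))))))))))
 (c (a (nat_lit 0x10200000))
 (c (b (nat_lit 0xff85c05)) e
 (c z e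
 (c (b (nat_lit 0xffdd205)) e
 (c (nat_lit 0x7edf07edf07ed427edf07edf0e9905) e
 (c (b (nat_lit 0xfe48006)) e
 (c (b (nat_lit 0xfa97606)) e
 (c (nat_lit 0x7f7b58000080000800008000024606) e
 (c (nat_lit 0x7feea7feea800008000080000d4409) e
 (c (nat_lit 0x7f5ff7f5ff7f5fe7f5ff7f5ff664c9) e
 (c (nat_lit 0x8000080000800007ffe180000caec9) e e))))))))))
 (c (nat_lit 0x810018100080fff80fffd30f0)
 (c z e
 (c (nat_lit 0x7ebf27ebce7ead07ebf27ebf2c3465) e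
 (c (nat_lit 0x7ec0a7ec0a7ebea7ec0a7ec0a1cac6) e
 (c (nat_lit 0x7e3367e3367e2a57e3367e33694da6) e
 (c z e
 (c (b (nat_lit 0x102b8e09)) e e))))))
 (c (nat_lit 0x8100181002810028100266a90)
 (c (b (nat_lit 0xfe8de06)) e
 (c (nat_lit 0x7ec587ea327ec587ec587ec58b47c6) e
 (c z e
 (c z e
 (c (b (nat_lit 0x10612410)) e e)))))
 (c (nat_lit 0x80ffe80fff810008100013b40)
 (c (nat_lit 0x7f5897f6987f6987f6987f698de8e6) e
 (c (b (nat_lit 0xf976610)) e e))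
 (c (a (nat_lit 0x10200001))
 (c (nat_lit 0x800008000080e6e80eda80eda7fb28) e
 (c z e
 (c (nat_lit 0x80000800007fdea7fdea800000ce30) e e)))
 (c (a (nat_lit 0x10200401)) e
 (c (a (nat_lit 0xfa0b401)) e
 (c (nat_lit 0x7f1a17f1a27f1a27f1a23a361) e
 (c (a (nat_lit 0x10221801)) e
 (c (nat_lit 0x816b3816b1816b1816b26e4f2) e
 (c (nat_lit 0x816b7816b7816b1816b831402) e
 (c (nat_lit 0x809a9809a9809aa809a479492) e
 (c (a (nat_lit 0x102a8a03)) e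
 (c (nat_lit 0x815418154181540815401b6d3) e
 (c (nat_lit 0x81539815388153b8153a19723) e
 (c (nat_lit 0x8012580123801208010be68b3) e
 (c (nat_lit 0x81007810068100580ff738cd3) e
 (c (nat_lit 0x8080a8080a8080a80809cc4d5) e
 (c (nat_lit 0x80aef80af380af580af752d75) e
 (c (nat_lit 0x8030f8030f8031080319881c5) e
 (c (nat_lit 0x80a6280a6280a6380a66c8355) e
 (c (nat_lit 0x8051180681806858068b007c6) e
 (c (nat_lit 0x805058050a8068280689f91b6) e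
 (c (nat_lit 0x8050f8050f8050f80684c0256) e
 (c (nat_lit 0x8000080000800007ffff14656) e
 (c (nat_lit 0x8000080000800007fff96d307) e
 (c (nat_lit 0x8000080000800008017a77c37) e
 (c z e
 (c (nat_lit 0x800008000080821808218ac07) e e))))))))))))))))))))))))))))))))))) Tr.c Tr.e (nat_lit 0) C.t4 C.t5 C.t6
noncomputable def tt709 : Tr := beta% (fun (c : Nat → Tr → Tr → Tr) (e : Tr) (z : Nat) (a b d : Nat → Nat) =>
 (c (nat_lit 0x8100181002810018100110e40)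
 (c (nat_lit 0x7eff57eff47eff57eff57eff51f141)
 (c (d (nat_lit 0x11000003)) e
 (c (d (nat_lit 0x10a3b403)) e
 (c z e
 (c z e
 (c z e
 (c z e
 (c z e
 (c (d (nat_lit 0xf3cf006)) e
 (c (nat_lit 0x79742796ab79742797427974279742df4cc) e
 (c (nat_lit 0x80000800007fd388000080000800006afcc) e e))))))))))
 (c (nat_lit 0x7f0057f0057f0047f0047f005525c1) e
 (c (b (nat_lit 0xfdffe01)) e
 (c z e
 (c (nat_lit 0x813508134f8135181351813517ac01) e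
 (c (nat_lit 0x8067980786807868078680786ed302)
 (c (nat_lit 0x788fa788e9788fa788fa788fa788fa42e4c) e e)
 (c (nat_lit 0x7ffe17fe2e8000080000800007c9e2) e
 (c (b (nat_lit 0x107bf002)) e
 (c (nat_lit 0x84c8e84c8584c8884c8e84c8e55863) e
 (c (b (nat_lit 0xfee4a03)) e
 (c (b (nat_lit 0x100eee03)) e
 (c z e
 (c (b (nat_lit 0xff4e203)) e
 (c (nat_lit 0x7d9cc7da167da167da167da1690bc5) e
 (c z e
 (c (nat_lit 0x7ea307e9ff7ea307ea307ea30abae5) e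
 (c (b (nat_lit 0xfbf1406)) e
 (c (b (nat_lit 0xfc03206)) e
 (c (nat_lit 0x7ed957ed917ed947ed957ed9554166) e
 (c (nat_lit 0x7e0447e0447e03b7e0377e044d224c) e
 (c (nat_lit 0x7e0917e0917e0917e0627e0663a2ac) e
 (c (nat_lit 0x7e7ba7e7ba7e7ba7e7aa7e7aa498ec) e
 (c (nat_lit 0x8000080000800007ecbb7ecbb6c2e7) e
 (c z e
 (c (nat_lit 0x800008000080000800007fc5bae2e7) e e)))))))))))))))))))))))))
 (c (a (nat_lit 0x10200200))
 (c (b (nat_lit 0xfdffc01)) e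
 (c z e
 (c z e
 (c (nat_lit 0x8138a81385813768138a8138a18782) e
 (c (nat_lit 0x800007fa3e8000080000800006a5a2) e
 (c z e
 (c z e
 (c z e
 (c z e
 (c z e
 (c z e
 (c z e
 (c (b (nat_lit 0x102fe405)) e
 (c z e
 (c (nat_lit 0x7e9187e90e7e9117e91c7e91cea7c6) e
 (c (b (nat_lit 0xfd0e806)) e
 (c (b (nat_lit 0xfddfc06)) e
 (c (nat_lit 0x7f3347f3347f3337f3347f3349792a) e
 (c (nat_lit 0x7ed5f7ed5f7ed5f7ed5b7ed5fed82c) e
 (c (b (nat_lit 0xfdac20c)) e e))))))))))))))))))))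
 (c (a (nat_lit 0x10200000))
 (c (b (nat_lit 0x10119601))
 (c z e
 (c z e
 (c z e
 (c z e
 (c z e
 (c (d (nat_lit 0xffd4021)) e e))))))
 (c (nat_lit 0x8023d80281802818028180281cd182) e
 (c (nat_lit 0x803588035880342803418035842cc2) e
 (c z e
 (c z e
 (c (b (nat_lit 0xfef5003)) e
 (c z e
 (c z e
 (c z e
 (c z e
 (c z e
 (c z e
 (c z e
 (c z e
 (c (b (nat_lit 0xfc13606)) e
 (c (nat_lit 0x7e0897e0897e0887e0807e089f21ca) e
 (c (b (nat_lit 0xfc4720a)) e e)))))))))))))))))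
 (c (a (nat_lit 0x10200200))
 (c (nat_lit 0x80ac8809da80ac880ac880ac84adc2)
 (c (d (nat_lit 0xf8cdc0a)) e e)
 (c z e
 (c z e
 (c z e
 (c z e
 (c z e
 (c z e
 (c z e
 (c z e
 (c z e
 (c z e
 (c (b (nat_lit 0xffeb406)) e
 (c (b (nat_lit 0xfc33006)) e
 (c (nat_lit 0x7de157de137de157de157de15107aa) e
 (c (b (nat_lit 0xfbc2e0a)) e
 (c (nat_lit 0x7f4317f4317f4317f4317f418e934a) e e))))))))))))))))
 (c (a (nat_lit 0x10200000))
 (c z e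
 (c (nat_lit 0x7f8c07f8c07f8ad7f8b47f8c0889c3) e
 (c z e
 (c z e
 (c z e
 (c z e
 (c z e
 (c z e
 (c (b (nat_lit 0xfa90e06)) e
 (c z e
 (c z e
 (c (nat_lit 0x7e67b7e67b7e64d7e67b7e67b1f849) e
 (c (b (nat_lit 0xfcc3c0a)) e
 (c (nat_lit 0x8000080000800007fff17fffb15327) e
 (c (b (nat_lit 0xff04a0a)) e e)))))))))))))))
 (c (a (nat_lit 0x101ffe00))
 (c z e
 (c z e
 (c z e
 (c (b (nat_lit 0xff50805)) e
 (c z e
 (c (b (nat_lit 0xfefce05)) e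
 (c z e
 (c (nat_lit 0x7d4f47d4f47d2be7d4f47d4f4c9486) e
 (c (b (nat_lit 0xfec5606)) e
 (c z e
 (c (nat_lit 0x7f15a7f15a7f0c37f15a7f15a9af09) e e)))))))))))
 (c (a (nat_lit 0x10200000))
 (c (b (nat_lit 0xfd92003)) e
 (c z e
 (c z e
 (c (nat_lit 0x7ed637ec587ed637ed637ed63cca45) e
 (c (nat_lit 0x7f81d7f93b7f93b7f93b7f93b88f86) e
 (c z e
 (c z e
 (c z e
 (c z e
 (c (b (nat_lit 0xff16c09)) e e))))))))))
 (c (nat_lit 0x80fff80fff80fff80ffef78b0)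
 (c z e
 (c z e
 (c (nat_lit 0x7e5017e5017e4e27e4e27e501253c6) e
 (c (nat_lit 0x7e0657e0657e0507e0657e0651ff66) e
 (c z e
 (c z e
 (c z e
 (c (b (nat_lit 0xfee8209)) e e))))))))
 (c (nat_lit 0x81003810028100281002ed390)
 (c (nat_lit 0x7ede17ede17edb57ede17ede188e66) e
 (c (nat_lit 0x7ea397ea397ea1a7ea397ea3912066) e
 (c (b (nat_lit 0xfc2ac06)) e
 (c z e
 (c (b (nat_lit 0xf764a10)) e e)))))
 (c (nat_lit 0x8100181000810008100096370)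
 (c (nat_lit 0x7f34d7f34d7f3077f3077f34da5926) e
 (c (nat_lit 0x7d2f87d3287d3287d3287d32882c48) e
 (c (b (nat_lit 0xfd4c610)) e
 (c (nat_lit 0x800008000080000800007fd56e63e7) e e))))
 (c (nat_lit 0x80ffd80fff8100081000205a0) e
 (c (a (nat_lit 0x10200201)) e
 (c (nat_lit 0x80ff880ff880ffe80ffe9fb21)
 (c (nat_lit 0x8000080000800007c3637c37957688) e e)
 (c (nat_lit 0x7fa287fa297fa297fa29cc241) e
 (c (nat_lit 0x7fb257fb257fb267fb260f621) e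
 (c (a (nat_lit 0x102d7401)) e
 (c (nat_lit 0x816c2816be816c1816c15ca52) e
 (c (a (nat_lit 0x102d7202)) e
 (c (nat_lit 0x809e4809ed809ed809ee1bc62) e
 (c (nat_lit 0x8168b8168b8168b8168c8f653) e
 (c (nat_lit 0x816808168181681816817a0d3) e
 (c (nat_lit 0x814f8814fa814f9814f834d73) e
 (c (nat_lit 0x80253802558025680255b92d3) e
 (c (nat_lit 0x80fc680fd480fda80fd024b03) e
 (c (nat_lit 0x80d7680f6580f6580f67f29a5) e
 (c (nat_lit 0x7ffcf8001c8001d7fac6796c5) e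
 (c (nat_lit 0x808ec808f18093480933cd445) e
 (c (nat_lit 0x805198051a80521805299cbd6) e
 (c (nat_lit 0x805098051380521805291cb96) e
 (c (nat_lit 0x805068050a8050e80519dc8c6) e
 (c z e
 (c (nat_lit 0x80000800007ffff800000a0c7) e
 (c (nat_lit 0x8000080000800f1800f140467) e
 (c z e
 (c (nat_lit 0x80000802d8802d8802d8acf97) e e)))))))))))))))))))))))))))))))))))) Tr.c Tr.e (nat_lit 0) C.t4 C.t5 C.t6

end Pool.Agent.Work.MP_82fd4a_nt.P.H
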