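import Pool.Agent.Work.MP_82fd4a_nt.P.H.T0
import Pool.Agent.Work.MP_82fd4a_nt.P.H.T1
import Pool.Agent.Work.MP_82fd4a_nt.P.H.T2
import Pool.Agent.Work.MP_82fd4a_nt.P.H.T3
import Pool.Agent.Work.MP_82fd4a_nt.P.H.T4
import Pool.Agent.Work.MP_82fd4a_nt.P.H.T5
import Pool.Agent.Work.MP_82fd4a_nt.P.H.T6

/-! The table of the weights. -/

set_option autoImplicit false
set_option linter.all false
set_option maxRecDepth 100000

namespace Pool.Agent.Work.MP_82fd4a_nt.P.H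

open Y Tr

noncomputable def tt201 : Tr := beta% (fun (c : Nat → Tr → Tr → Tr) (e : Tr) (z : Nat) (a b d f : Nat → Nat) =>
 (c (a (nat_lit 0xfe00000)) tt200
 (c (a (nat_lit 0xfe00000))
 (c (b (nat_lit 0x101ff600))
 (c (nat_lit 0x7f0087f0077f0097f0077f00821d40) tt188
 (c (d (nat_lit 0xfe02200)) tt187 tt186))
 (c (b (nat_lit 0x101ff600)) tt185
 (c (b (nat_lit 0x101ffa00)) tt184
 (c (b (nat_lit 0x10200000)) tt183
 (c (b (nat_lit 0x101ff400)) tt182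
 (c (b (nat_lit 0x101ff400))
 (c (d (nat_lit 0xff08e00))
 (c z e
 (c z e
 (c z e
 (c z e
 (c z e
 (c z e
 (c z e
 (c z e
 (c (f (nat_lit 0x10890e0b)) e
 (c (nat_lit 0x85d5185d8285d8285d8285d8285d821d34c) e
 (c (nat_lit 0x80000800008000080f5b80f5b80f5b16ecc) e e)))))))))))
 (c (d (nat_lit 0xfe00a01)) e
 (c (d (nat_lit 0xfe01801)) e
 (c (d (nat_lit 0xfe00201)) e
 (c (d (nat_lit 0xfdb5601)) e
 (c (nat_lit 0x7c83c7c8307c8307c83c7c83c67e83) e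
 (c (d (nat_lit 0xf9e3803)) e
 (c (d (nat_lit 0x103a5a03)) e
 (c z e
 (c (nat_lit 0x7e7ef7e7ef7e7e17e7ef7e7ef641c4) e
 (c (d (nat_lit 0xfd90c05)) e
 (c (d (nat_lit 0x100d9005)) e
 (c (d (nat_lit 0xff7ca05)) e
 (c z e
 (c (d (nat_lit 0xff4ec07)) e
 (c (d (nat_lit 0xff28007)) e
 (c z e
 (c (nat_lit 0x7f5a77f5a77f59a7f59a7f5a7e0fa7) e
 (c (nat_lit 0x7fcc77fcc77fccd7fcbc7fcbc348a9) e
 (c (nat_lit 0x7f81f7f8097f8187f81f7f81f7978b) e
 (c (d (nat_lit 0xfedec0b)) e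
 (c z e
 (c (nat_lit 0x7ebe87eb1d7ebe87ebe87ebe8034eb) e
 (c (nat_lit 0x7ead17ead17eacf7ead17ead1d87ec) e
 (c (nat_lit 0x8000080000800007eae87eae89dfcc) e
 (c (nat_lit 0x800008000080000800007ead5f1d4c) e e)))))))))))))))))))))))))) tt181))))))
 (c (a (nat_lit 0xfe00000))
 (c (b (nat_lit 0x101ffa00)) tt180
 (c (b (nat_lit 0x10200200)) tt179
 (c (b (nat_lit 0x101ffa00)) tt178
 (c (b (nat_lit 0x101ffa00)) tt177 tt176))))
 (c (a (nat_lit 0xfdffc00))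
 (c (b (nat_lit 0x10200a00)) tt175
 (c (b (nat_lit 0x10200200)) tt174
 (c (b (nat_lit 0x10200200)) tt173 tt172)))
 (c (a (nat_lit 0xfe00000)) tt171
 (c (a (nat_lit 0xfe00000)) tt168
 (c (a (nat_lit 0xfe00000)) tt167
 (c (a (nat_lit 0xfe00000)) tt166
 (c (a (nat_lit 0xfe00000)) tt165
 (c (a (nat_lit 0xfe00000))
 (c (nat_lit 0x80ffd80ffd80ffd80ffcdd870)
 (c (d (nat_lit 0xfe8c804)) e
 (c (d (nat_lit 0xfe8de04)) e
 (c (d (nat_lit 0xfe86e04)) e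
 (c (nat_lit 0x7f54e7f54e7f54e7f5497f54e418e4) e
 (c (d (nat_lit 0xfd59005)) e
 (c (nat_lit 0x7e8d27e8d27e8c37e8ab7e88097605) e
 (c (d (nat_lit 0xfc76605)) e e)))))))
 (c (b (nat_lit 0x101ff600))
 (c (nat_lit 0x7f4a77f4a77f49a7f4a27f4a7029a4) e
 (c (nat_lit 0x7f44e7f44e7f44e7f44c7f44e10884) e
 (c (nat_lit 0x7f5747f5747f5747f5747f57326405) e
 (c (d (nat_lit 0xfd5a605)) e
 (c (nat_lit 0x7f4bf7f4bf7f4bf7f4bf7f47c00205) e
 (c (d (nat_lit 0xfda4605)) e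
 (c (nat_lit 0x800008000080000800007ff04b5ae5) e e)))))))
 (c (nat_lit 0x80ffb80ffa80ffa80ffabc3b0)
 (c (d (nat_lit 0xfec2005)) e
 (c (d (nat_lit 0xfeac805)) e
 (c (nat_lit 0x7f2727f2727f2727f24f7f24f948a5) e e)))
 (c (nat_lit 0x80ffc80ffc80ffc80ffb8e0e0)
 (c (d (nat_lit 0xff0d405)) e
 (c (nat_lit 0x7f4cf7f4cf7f4cf7f4cf7f2ebfa1e5) e
 (c z e
 (c (nat_lit 0x7ec9b7ec9b7e7d77e7d77ec9ba1330) e e))))
 (c (nat_lit 0x80ffc80ffd80ffc80ffce9831) e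
 (c (b (nat_lit 0x101ff801)) e
 (c (b (nat_lit 0x10007401)) e
 (c (nat_lit 0x7fd057fd067fd067fd06696b1) e
 (c (b (nat_lit 0x1013b803)) e
 (c (nat_lit 0x80dd980dda80dda80dda4e203) e
 (c (nat_lit 0x808ec808ed808ed808ede6d63) e
 (c (nat_lit 0x80d9e80d9e80d9d80d9d1be53) e
 (c (nat_lit 0x807cf807d0807cf807cfab4c4) e
 (c (b (nat_lit 0x100fc204)) e
 (c (nat_lit 0x807f2807f1807f1807f0105e4) e
 (c (nat_lit 0x8043280431804318043037744) e
 (c (b (nat_lit 0x10084e04)) e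
 (c (nat_lit 0x804098040a8040b8040a1f864) e
 (c (nat_lit 0x803d4803d2803d4803d451974) e
 (c (nat_lit 0x803d2803d0803ce803cff6374) e
 (c (nat_lit 0x803d0803d1803cf803c938e74) e
 (c (nat_lit 0x803d6803d6803d5803cf0fc05) e
 (c (nat_lit 0x803e0803e0803d5803d5a58a5) e
 (c (nat_lit 0x803ab803ab803ed803b481455) e
 (c (nat_lit 0x7ff0c800c6800c5800c5785d5) e e))))))))))))))))))))))))) tt164))))))))))) Tr.c Tr.e (nat_lit 0) C.t3 C.t4 C.t5 C.t6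
noncomputable def tt202 : Tr := beta% (fun (c : Nat → Tr → Tr → Tr) (e : Tr) (a : Nat → Nat) =>
 (c (a (nat_lit 0xfdffe00)) tt163 tt201)) Tr.c Tr.e C.t3
noncomputable def tt203 : Tr := beta% (fun (c : Nat → Tr → Tr → Tr) (e : Tr) (a : Nat → Nat) =>
 (c (a (nat_lit 0xfe00000)) tt144 tt202)) Tr.c Tr.e C.t3
noncomputable def tt204 : Tr := beta% (fun (c : Nat → Tr → Tr → Tr) (e : Tr) (a : Nat → Nat) =>
 (c (a (nat_lit 0xfe00000)) tt118 tt203)) Tr.c Tr.e C.t3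
noncomputable def tt205 : Tr := beta% (fun (c : Nat → Tr → Tr → Tr) (e : Tr) (a : Nat → Nat) =>
 (c (a (nat_lit 0xfe00000)) tt71 tt204)) Tr.c Tr.e C.t3
noncomputable def tt349 : Tr := beta% (fun (c : Nat → Tr → Tr → Tr) (e : Tr) (z : Nat) (a b d f : Nat → Nat) =>
 (c (a (nat_lit 0x101ff600)) tt348
 (c (a (nat_lit 0x101fee00)) tt340
 (c (a (nat_lit 0x101ff400))
 (c (b (nat_lit 0xfe01e00)) tt335 tt334)
 (c (a (nat_lit 0x101fec00))
 (c (b (nat_lit 0xfe02a00)) tt333 tt332)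
 (c (a (nat_lit 0x101fee00))
 (c (b (nat_lit 0xfe02e00))
 (c (d (nat_lit 0x101df801))
 (c (nat_lit 0x7d97d7d6297d97d7d97d7d97d7d97d7d97dc6686) e
 (c (nat_lit 0x7da487da487d88d7da487da487da487da480f006) e
 (c z e
 (c z e
 (c z e
 (c z e
 (c z e
 (c (f (nat_lit 0x1040e20b)) e
 (c (f (nat_lit 0x1079140b)) e
 (c z e
 (c (nat_lit 0x857a9857a9857a98573b857a9857a9857a98078e) e
 (c (f (nat_lit 0x10876a0e)) e e))))))))))))
 (c (d (nat_lit 0x101fae01))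
 (c (nat_lit 0x8000080000800007fd7480000800008000007206) e
 (c z e
 (c z e
 (c z e
 (c z e
 (c (nat_lit 0x827438274382632827438274382743827438790b) e
 (c z e
 (c (nat_lit 0x800008000080000800007fc8e8000080000d168b) e e))))))))
 (c (d (nat_lit 0x101fc201)) e
 (c z
 (c z e
 (c z e
 (c z e
 (c z e
 (c z e
 (c (nat_lit 0x800008000080000800007faee8000080000f840e) e e))))))
 (c z e
 (c z e
 (c (d (nat_lit 0x102a7203)) e
 (c (d (nat_lit 0x10218203)) e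
 (c (d (nat_lit 0x10180003)) e
 (c z e
 (c z e
 (c z e
 (c z e
 (c z e
 (c z e
 (c z e
 (c z e
 (c (d (nat_lit 0x1024ce0b)) e
 (c (d (nat_lit 0x100a3a0b)) e
 (c z e
 (c z e
 (c (d (nat_lit 0x1036d60e)) e e)))))))))))))))))))))) tt331)
 (c (a (nat_lit 0x101ff000)) tt330
 (c (a (nat_lit 0x101ff200)) tt329
 (c (a (nat_lit 0x101ffa00)) tt328
 (c (a (nat_lit 0x101ffc00))
 (c (b (nat_lit 0xff07000))
 (c (nat_lit 0x7d2627d2627d2127d2627d2627d2622a247) e e)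
 (c (b (nat_lit 0xfdffe00)) e
 (c (b (nat_lit 0xfe00a01))
 (c (d (nat_lit 0xff75e09)) e e)
 (c (b (nat_lit 0xfe00a01)) e
 (c (b (nat_lit 0xfe01401)) e
 (c (b (nat_lit 0xfd16e01)) e
 (c (b (nat_lit 0xff54e02)) e
 (c z e
 (c z e
 (c z e
 (c z e
 (c (b (nat_lit 0x1006c003)) e
 (c z e
 (c (nat_lit 0x7e5017e5017e4c37e5017e50122da6) e
 (c (b (nat_lit 0x1011c407)) e
 (c z e
 (c z e
 (c z e
 (c (nat_lit 0x7f85c7f85c7f85c7f8597f85c5fc69) e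
 (c (b (nat_lit 0xffcfe09)) e
 (c (b (nat_lit 0xfec4a0a)) e
 (c (nat_lit 0x800007ff8580000800008000079e6a) e e))))))))))))))))))))))
 (c (a (nat_lit 0x101ff400))
 (c (b (nat_lit 0xfe01a01))
 (c z e
 (c z e
 (c z e
 (c z e
 (c (d (nat_lit 0x104b0e0a)) e
 (c (d (nat_lit 0x1084420a)) e
 (c (nat_lit 0x800008000083dd283dd283dd283dd25fda0) e e)))))))
 (c (b (nat_lit 0xfe02001))
 (c z e
 (c (d (nat_lit 0x1032c609)) e
 (c z e
 (c (d (nat_lit 0x104f7a0a)) e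
 (c (nat_lit 0x81cb081cb081c1781c1781cb081cb0be292) e e)))))
 (c (b (nat_lit 0xfdfd601)) e
 (c z e
 (c (b (nat_lit 0xfc19402)) e
 (c (nat_lit 0x7e9fd7e9927e9927ea607ea6011842) e
 (c (b (nat_lit 0xfef5003)) e
 (c z e
 (c z e
 (c z e
 (c z e
 (c (b (nat_lit 0xfc17a06)) e
 (c (nat_lit 0x8114381143811438113681143fd9a7) e
 (c z e
 (c z e
 (c z e
 (c (b (nat_lit 0xfef8e09)) e
 (c (b (nat_lit 0xfe5de09)) e
 (c (nat_lit 0x7f6597f6597f5f87f5f87f5f8c58e9) e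
 (c (b (nat_lit 0xfecf40a)) e
 (c (nat_lit 0x7ffcf7ffcf7ffc67ffcf7ffcfd792a) e e))))))))))))))))))))) tt327))))))))))) Tr.c Tr.e (nat_lit 0) C.t4 C.t5 C.t6 C.t7
noncomputable def tt387 : Tr := beta% (fun (c : Nat → Tr → Tr → Tr) (e : Tr) (a : Nat → Nat) =>
 (c (a (nat_lit 0xfe00000)) tt349 tt386)) Tr.c Tr.e C.t3
noncomputable def tt498 : Tr := beta% (fun (c : Nat → Tr → Tr → Tr) (e : Tr) (a : Nat → Nat) =>
 (c (a (nat_lit 0x10200200)) tt387 tt497)) Tr.c Tr.e C.t2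
noncomputable def tt499 : Tr := beta% (fun (c : Nat → Tr → Tr → Tr) (e : Tr) (a : Nat → Nat) =>
 (c (a (nat_lit 0x10200200)) tt326 tt498)) Tr.c Tr.e C.t2
noncomputable def tt500 : Tr := beta% (fun (c : Nat → Tr → Tr → Tr) (e : Tr) (a : Nat → Nat) =>
 (c (a (nat_lit 0x10200200)) tt205 tt499)) Tr.c Tr.e C.t2
noncomputable def tt540 : Tr := beta% (fun (c : Nat → Tr → Tr → Tr) (e : Tr) (z : Nat) (a b d f : Nat → Nat) =>
 (c (a (nat_lit 0x101f5000))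
 (c (b (nat_lit 0xfe30800)) tt539
 (c (b (nat_lit 0xfe0be00)) tt537
 (c (b (nat_lit 0xfe05c00))
 (c (d (nat_lit 0x101fc800))
 (c (f (nat_lit 0xfcc2800)) e
 (c (f (nat_lit 0xfe2ba00)) e
 (c (f (nat_lit 0xfd8ca00)) e
 (c (f (nat_lit 0xfdad200)) e
 (c (f (nat_lit 0xfd45800)) e
 (c (nat_lit 0x7f1637f1507f1507f1507f1507f1507f1502f601) e
 (c (f (nat_lit 0xfe7bc01)) e
 (c (f (nat_lit 0xfd58401)) e
 (c (f (nat_lit 0xf383601)) e
 (c (nat_lit 0x800007ffbc800008000080000800008000019f81) e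
 (c (f (nat_lit 0xfddb203)) e
 (c z e
 (c z e
 (c z e
 (c z e
 (c z e
 (c z e
 (c (f (nat_lit 0xfdf6007)) e
 (c z e
 (c (f (nat_lit 0xfe6e007)) e
 (c z e
 (c (f (nat_lit 0xff5520f)) e
 (c (f (nat_lit 0xffb2c0f)) e
 (c z e
 (c (f (nat_lit 0xfffda0f)) e e))))))))))))))))))))))))) tt535)
 (c (b (nat_lit 0xfe0c200)) tt534
 (c (b (nat_lit 0xfe0e200)) tt533
 (c (b (nat_lit 0xfe0ce00)) tt532
 (c (b (nat_lit 0xfe0a000)) tt531
 (c (b (nat_lit 0xfe08400)) tt530 tt529))))))))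
 (c (a (nat_lit 0x101ffc00)) tt528
 (c (a (nat_lit 0x101ffe00)) tt519
 (c (a (nat_lit 0x101ffe00))
 (c (b (nat_lit 0xfdff400)) tt514
 (c (b (nat_lit 0xfdff000)) tt513
 (c (b (nat_lit 0xfdfe600)) tt512
 (c (nat_lit 0x7f0047f0017f0017f0017f00454040)
 (c (d (nat_lit 0x101f9400))
 (c (nat_lit 0x779d0779d0779d077881779d0779d0779d0a0787) e
 (c z e
 (c z e
 (c z e
 (c z e
 (c z e
 (c z e
 (c (f (nat_lit 0xfca460b)) e e))))))))
 (c (d (nat_lit 0x10200401)) e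
 (c (d (nat_lit 0x101fa801)) e
 (c (d (nat_lit 0x10206e01))
 (c z e
 (c z e
 (c z e
 (c (f (nat_lit 0xfecd00f)) e e))))
 (c (d (nat_lit 0x10201801)) e
 (c (d (nat_lit 0x100ae801)) e
 (c (d (nat_lit 0x10374603)) e
 (c (d (nat_lit 0x10424e03)) e
 (c (d (nat_lit 0x1016f603)) e
 (c z e
 (c z e
 (c z e
 (c z e
 (c z e
 (c z e
 (c z e
 (c z e
 (c (d (nat_lit 0x1003460b)) e
 (c (d (nat_lit 0x100cd40b)) e
 (c z e
 (c z e
 (c (nat_lit 0x7fefc7fefc7fd027fd027fefc7fefcac14f) e e)))))))))))))))))))))) tt511))))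
 (c (a (nat_lit 0x101ff600))
 (c (b (nat_lit 0xfe00c00)) tt510
 (c (nat_lit 0x7f00e7f00e7f00e7f00e7f011ca5a0) tt509 tt508))
 (c (a (nat_lit 0x101ff800))
 (c (b (nat_lit 0xfe05c00)) tt507 tt506)
 (c (a (nat_lit 0x10200400)) tt505
 (c (a (nat_lit 0x10200400)) tt504
 (c (a (nat_lit 0x101fe600)) tt503
 (c (nat_lit 0x80ffd80ffd80ffe80ffda0410) tt502
 (c (a (nat_lit 0x10200000))
 (c (nat_lit 0x7f0147f0147f0147f0117f0112d1c0)
 (c (nat_lit 0x8000080000800007ffbe800007fed4f6fc7) e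
 (c (nat_lit 0x800008000080000800007ffc980000fd347) e
 (c z e
 (c (d (nat_lit 0x10200e09)) e
 (c z e
 (c z e
 (c (nat_lit 0x82037820378203781e6981e6982037510a0) e
 (c (d (nat_lit 0x107c6220)) e
 (c (d (nat_lit 0x10682420)) e e)))))))))
 (c (nat_lit 0x7f0247f0187f0187f01b7f01b82ba1)
 (c (nat_lit 0x8000080000800007fffe7fe06800004fc08) e
 (c (d (nat_lit 0x101b3409)) e
 (c z e
 (c (d (nat_lit 0x10639e09)) e
 (c (d (nat_lit 0x1021b411)) e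
 (c (nat_lit 0x80000800008195e8195e8195e8195e41b20) e e))))))
 (c (b (nat_lit 0xfdfd401))
 (c (nat_lit 0x8109b8109b8109b810038109b8109b3fe09) e
 (c (d (nat_lit 0x1040c009)) e
 (c (d (nat_lit 0x10411811)) e
 (c (d (nat_lit 0x104a7611)) e e))))
 (c (b (nat_lit 0xfd14201))
 (c (d (nat_lit 0x103de211)) e
 (c (d (nat_lit 0x1059ac11)) e e))
 (c (b (nat_lit 0xfd36201)) e
 (c (b (nat_lit 0xfc6b801)) e
 (c (nat_lit 0x7f1fc7f1e67f1de7f1fc7f1fca9243) e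
 (c (nat_lit 0x7dc527dc047dc047dc157dc52a0c23) e
 (c (b (nat_lit 0x102a6c03)) e
 (c (b (nat_lit 0xfaae403)) e
 (c (nat_lit 0x7e98b7e9847e92a7e98b7e98bb4203) e
 (c (b (nat_lit 0xfa3e807)) e
 (c (b (nat_lit 0xfa42607)) e
 (c (b (nat_lit 0x100ff007)) e
 (c z e
 (c (b (nat_lit 0xfde1207)) e
 (c (b (nat_lit 0xfee5c09)) e
 (c (b (nat_lit 0xfdfac09)) e
 (c (nat_lit 0x7f1f57f1f57f1f27f1f57f1f5a3149) e
 (c (b (nat_lit 0xfea7209)) e
 (c (nat_lit 0x7f10d7f1a57f1a57f1a57f1a5fa5c9) e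
 (c (nat_lit 0x8000080000800007f4ea7f4eaa0fe9) e
 (c (nat_lit 0x800008000080000800007f78382c09) e e))))))))))))))))))))))) tt501)))))))))))) Tr.c Tr.e (nat_lit 0) C.t4 C.t5 C.t6 C.t7
noncomputable def tt612 : Tr := beta% (fun (c : Nat → Tr → Tr → Tr) (e : Tr) (a : Nat → Nat) =>
 (c (a (nat_lit 0xfdffe00)) tt540 tt611)) Tr.c Tr.e C.t3
noncomputable def tt722 : Tr := beta% (fun (c : Nat → Tr → Tr → Tr) (e : Tr) (z : Nat) (a b d f : Nat → Nat) =>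
 (c (a (nat_lit 0xfdffe00)) tt721
 (c (a (nat_lit 0xfdffe00)) tt715
 (c (a (nat_lit 0xfdffe00))
 (c (b (nat_lit 0x101ffe00)) tt711
 (c (nat_lit 0x8100181000810008100123420)
 (c (nat_lit 0x7effd7effc7effd7effd7effdda200)
 (c (nat_lit 0x840b8842ed8414b842ed842ed842ede0f83)
 (c (f (nat_lit 0x10ec5807)) e e)
 (c z e
 (c z e
 (c z e
 (c z e
 (c z e
 (c z e
 (c z e
 (c z e
 (c (nat_lit 0x7e6237e6237e51b7e6237e6237e623e8847) e
 (c z e
 (c (nat_lit 0x80000800008000080000800007ffbd23b07) e e))))))))))))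
 (c (nat_lit 0x7f0027f0007f0017f0017f00197b81) e
 (c (d (nat_lit 0xfdffc01)) e
 (c (d (nat_lit 0xfe00201)) e
 (c z e
 (c (nat_lit 0x7fe247fe2c7fe6a7fe6a7fe6a076e1) e
 (c z e
 (c z e
 (c (d (nat_lit 0x10df3c02)) e
 (c (nat_lit 0x81e9c81e9c81e8781e8b81e9c8fa23) e
 (c (nat_lit 0x8113d8113d811398112f8113d5a6c3) e
 (c (d (nat_lit 0xfcb7a03)) e
 (c z e
 (c z e
 (c z e
 (c (d (nat_lit 0xfe3fe05)) e
 (c (d (nat_lit 0xfe1e806)) e
 (c (nat_lit 0x7e6487e6487e63a7e6487e648af846) e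
 (c (d (nat_lit 0xfd8bc06)) e
 (c (nat_lit 0x7e9417e9417e9417e93b7e941c38e7) e
 (c (nat_lit 0x7e6997e6997e6997e68c7e683270c7) e
 (c (d (nat_lit 0xfe5dc07)) e
 (c (nat_lit 0x80000800007ff7c7ff7c7ff7cac187) e
 (c (d (nat_lit 0xff0da07)) e e)))))))))))))))))))))))) tt710))
 (c (a (nat_lit 0xfdffe00)) tt709
 (c (a (nat_lit 0xfdffe00)) tt708
 (c (a (nat_lit 0xfe00000)) tt707
 (c (a (nat_lit 0xfdffe00)) tt706
 (c (a (nat_lit 0xfdffe00)) tt705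
 (c (a (nat_lit 0xfdffe00))
 (c (nat_lit 0x81002810018100181001c4ae0)
 (c z e
 (c (nat_lit 0x7f48a7f48a7f4817f4747f45ddd2e5) e
 (c (nat_lit 0x7f49b7f49b7f49b7f4747f4721e4c5) e
 (c z e
 (c z e
 (c (d (nat_lit 0xfb43005)) e
 (c (nat_lit 0x7f3fd7f3947f3fd7f3fd7f3fd78c10) e
 (c (nat_lit 0x7f7847f7847f7367f7847f784b8c10) e e))))))))
 (c (nat_lit 0x81003810018100181002aa3f1)
 (c (d (nat_lit 0xfe91c05)) e
 (c (d (nat_lit 0xff5ea05)) e
 (c z e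
 (c z e
 (c (nat_lit 0x7fb5e7fae87fae87fb5e7fb5efd849) e
 (c z e
 (c (nat_lit 0x80000800007f30f7f3327f33270eb0) e e)))))))
 (c (nat_lit 0x80ffc80ffb80ffb80ffa2f721) e
 (c (b (nat_lit 0xff83c01)) e
 (c (b (nat_lit 0xfde1c01)) e
 (c (nat_lit 0x7fd597fd547fd597fd5bdde41) e
 (c (nat_lit 0x7fb0a7fb087fb0a7fb0ac5cb2) e
 (c (nat_lit 0x816bc816b980f1280f13a8ca2) e
 (c (nat_lit 0x8164e8164d8164e8164eec5b2) e
 (c (nat_lit 0x816558164e8165381653ca7e3) e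
 (c (nat_lit 0x80bc580bc680bc680bc69da73) e
 (c (b (nat_lit 0x100dcc03)) e
 (c (nat_lit 0x805e8805e8805e9805e94c193) e
 (c (nat_lit 0x80fe880fe780fe680fe4ab453) e
 (c (nat_lit 0x807f2807f2807f2807f17d3f4) e
 (c (nat_lit 0x807f0807f0807ed807efd3c94) e
 (c (nat_lit 0x807e9807e8807e8807e647e04) e
 (c (nat_lit 0x80449804478044780446770c5) e
 (c (nat_lit 0x8044b8044b804498044758f45) e
 (c (nat_lit 0x804068040580406803fed5035) e
 (c (nat_lit 0x7ff13803a28021e8021e9e9b5) e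
 (c (nat_lit 0x803e5803e4803e37fe2be3995) e
 (c (nat_lit 0x8000080000800007fffd8ff85) e
 (c z e
 (c (nat_lit 0x8000080000800007ffff4dcf6) e
 (c (nat_lit 0x8000080000800007faee4bcf6) e e)))))))))))))))))))))))))) tt704)))))))))) Tr.c Tr.e (nat_lit 0) C.t3 C.t4 C.t5 C.t7
noncomputable def tt761 : Tr := beta% (fun (c : Nat → Tr → Tr → Tr) (e : Tr) (a : Nat → Nat) =>
 (c (a (nat_lit 0x10200200)) tt722 tt760)) Tr.c Tr.e C.t2
noncomputable def tt762 : Tr := beta% (fun (c : Nat → Tr → Tr → Tr) (e : Tr) (a : Nat → Nat) =>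
 (c (a (nat_lit 0x10200200)) tt703 tt761)) Tr.c Tr.e C.t2
noncomputable def tt763 : Tr := beta% (fun (c : Nat → Tr → Tr → Tr) (e : Tr) (a : Nat → Nat) =>
 (c (a (nat_lit 0x10200200)) tt672 tt762)) Tr.c Tr.e C.t2
noncomputable def tt764 : Tr := beta% (fun (c : Nat → Tr → Tr → Tr) (e : Tr) (a : Nat → Nat) =>
 (c (a (nat_lit 0x10200200)) tt612 tt763)) Tr.c Tr.e C.t2
noncomputable def tt905 : Tr := beta% (fun (c : Nat → Tr → Tr → Tr) (e : Tr) (z : Nat) (a b d f g : Nat → Nat) =>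
 (c (a (nat_lit 0x10200200))
 (c (b (nat_lit 0xfdffe00))
 (c (d (nat_lit 0x10200200)) tt904
 (c (d (nat_lit 0x101ffe00)) tt903
 (c (d (nat_lit 0x101ffe00))
 (c (f (nat_lit 0xfe00a01))
 (c (g (nat_lit 0x11000203)) e
 (c z e
 (c z e
 (c z e
 (c z e
 (c (nat_lit 0x7518f7518f751817518f7518f7518fb21c6) e
 (c (nat_lit 0x7b78f7b78f7b78f7b70c7b78f7b78f88686) e
 (c z e
 (c (nat_lit 0x80000800007fd448000080000800007720a) e
 (c (nat_lit 0x800008000080000800007fe7e80000dce87) e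
 (c (g (nat_lit 0xfe5a818)) e e)))))))))))
 (c (f (nat_lit 0xfe00401)) e
 (c (f (nat_lit 0xfe00001)) e
 (c (f (nat_lit 0xfdff601))
 (c z e
 (c (g (nat_lit 0xfffea0a)) e e))
 (c z e
 (c (nat_lit 0x807358073d807448075780757b8c41) e
 (c (nat_lit 0x808c3808b5808c3808c3808c3d9d82) e
 (c (nat_lit 0x8077f80670807788077f8077f4a642) e
 (c (f (nat_lit 0x10b79a02)) e
 (c (nat_lit 0x810cf810858106e81056810cf4d183) e
 (c (f (nat_lit 0xfeca403)) e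
 (c (f (nat_lit 0xfa7f803)) e
 (c z e
 (c (nat_lit 0x7a7f47a8647a8647a8647a8645c603) e
 (c (f (nat_lit 0xfdf1603)) e
 (c (nat_lit 0x7d4547d43e7d4547d4547d454a9286) e
 (c (nat_lit 0x7bd287bd287bd207bd287bd28cc946) e
 (c z e
 (c (f (nat_lit 0xfce980a)) e
 (c (nat_lit 0x7ed837ed837ed837ed247ed1d5936a) e
 (c (nat_lit 0x8000080000800007ec337ec3309867) e
 (c (nat_lit 0x800008000080000800007ff0ffada7) e e)))))))))))))))))))))) tt902)))
 (c (b (nat_lit 0xfe00000))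
 (c (d (nat_lit 0x101ffc00)) tt901 tt900)
 (c (b (nat_lit 0xfe00000)) tt899
 (c (b (nat_lit 0xfdffe00)) tt898
 (c (b (nat_lit 0xfdffe00)) tt897
 (c (b (nat_lit 0xfdffe00)) tt896
 (c (b (nat_lit 0xfdffe00)) tt895 tt894)))))))
 (c (a (nat_lit 0x10200200))
 (c (b (nat_lit 0xfe00000))
 (c (nat_lit 0x80ffa80ff980ffa80ffa3b820) tt893 tt892)
 (c (b (nat_lit 0xfe00000)) tt891
 (c (b (nat_lit 0xfdffe00)) tt890
 (c (b (nat_lit 0xfdffe00)) tt889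
 (c (b (nat_lit 0xfe00000)) tt888
 (c (b (nat_lit 0xfdffe00))
 (c (nat_lit 0x80ffc80ffd80ffd80ffbc4691)
 (c z e
 (c (f (nat_lit 0x10102005)) e
 (c z e
 (c (nat_lit 0x8000080000800007ffd07ffd0631c5) e
 (c (nat_lit 0x800008000080000800007ff3a03f65) e
 (c (nat_lit 0x800007fadf7fadf800007ff5dc9c85) e
 (c (nat_lit 0x80000800007f1897f1897f3c8f8670) e
 (c (nat_lit 0x80000800007d15e7d15e7d15ed6570) e
 (c (nat_lit 0x8000080000800007fde47fde497e70) e e)))))))))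
 (c (nat_lit 0x8100381003810008100080641)
 (c (f (nat_lit 0x101d7e05)) e
 (c (f (nat_lit 0xfeabe05)) e
 (c (f (nat_lit 0xfbb5805)) e
 (c (f (nat_lit 0xfc12805)) e
 (c (nat_lit 0x7f4487f3f57f3f57f4487f448a47c9) e
 (c (nat_lit 0x8000080000800007fa367fa36c91e9) e
 (c z e
 (c (nat_lit 0x8000080000800007ff827ff826f490) e e))))))))
 (c (nat_lit 0x802ee802ee802ee802f0bf441)
 (c z e
 (c z e
 (c (f (nat_lit 0xffc2809)) e
 (c (f (nat_lit 0xffee009)) e e))))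
 (c (d (nat_lit 0x10111801)) e
 (c (nat_lit 0x8069780696806958068cbf1d1) e
 (c (nat_lit 0x807af807b0807af807aee73a1) e
 (c (nat_lit 0x7fd297fd297fd2a7fd287f962) e
 (c (nat_lit 0x7fae07fae17fada7fae022b52) e
 (c (nat_lit 0x80d8880d8880d8680d87dfda2) e
 (c (nat_lit 0x8221c8221f822218221f774d2) e
 (c (nat_lit 0x81dcb81dc981dcc81dcce8583) e
 (c (nat_lit 0x81cce81ccf81cce81ccfddad3) e
 (c (nat_lit 0x80b7c80b7d80b7d80b7cbffc3) e
 (c (nat_lit 0x7f9137f9137f9157f912bf5c3) e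
 (c (nat_lit 0x7f14b7f14b7f14b7f0d40e3a3) e
 (c (nat_lit 0x81e0781dfe81e0581e09df643) e
 (c (nat_lit 0x81629816278161581621580d5) e
 (c (nat_lit 0x80d2380d2480d2380d10b2b15) e
 (c (nat_lit 0x806d880cc180cc280cc54a0d5) e
 (c (nat_lit 0x80358803588057380571d7715) e
 (c (nat_lit 0x801ac802af802b2802ace0cf5) e e))))))))))))))))))))) tt887))))))
 (c (a (nat_lit 0x10200200))
 (c (b (nat_lit 0xfdffe00)) tt886
 (c (b (nat_lit 0xfdffe00)) tt885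
 (c (b (nat_lit 0xfdffc00)) tt884
 (c (b (nat_lit 0xfdffe00)) tt883 tt882))))
 (c (a (nat_lit 0x10200200))
 (c (b (nat_lit 0xfdffc00)) tt881
 (c (b (nat_lit 0xfdffe00)) tt880
 (c (b (nat_lit 0xfdffc00))
 (c (nat_lit 0x807d2807cc807cc807cc20cd1)
 (c (f (nat_lit 0x10186203)) e
 (c z e
 (c z e
 (c z e
 (c z e
 (c (nat_lit 0x7a1f37a1617a1617a1f37a1f35b4c5) e
 (c z e
 (c z e
 (c (nat_lit 0x80000800007ff91800007feabf66b0) e
 (c (nat_lit 0x80000800007d9327d9327d932a7110) e e))))))))))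
 (c (nat_lit 0x80fff810008100081001f7721)
 (c (f (nat_lit 0xfff1803)) e
 (c z e
 (c z e
 (c z e
 (c z e
 (c z e
 (c z e
 (c z e
 (c (nat_lit 0x8000080000800007cce27caeb279d0) e e)))))))))
 (c (d (nat_lit 0x10044801)) e
 (c (nat_lit 0x807bd807bc807bb807bb74841) e
 (c (nat_lit 0x7f0df7f0df7f0df7f0e09f391) e
 (c (nat_lit 0x8064e8064f8064e8064f76951) e
 (c (nat_lit 0x80764807658076280762a8f32) e
 (c (nat_lit 0x80b1b80b1a80b1c80b1cf9372) e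
 (c (nat_lit 0x81981819818197f818e30cc12) e
 (c (nat_lit 0x82eb582eb582eb382eb06b1e2) e
 (c (nat_lit 0x821088210982106821069f202) e
 (c (nat_lit 0x81ef681ef381eee81eee64c62) e
 (c (nat_lit 0x81efb81efc81ef881ef4a85d3) e
 (c (nat_lit 0x81ef781ef881ef981ef821ce3) e
 (c (nat_lit 0x80332803338033480333e1c33) e
 (c (nat_lit 0x8048e8048e8048d8048d3dd23) e
 (c (d (nat_lit 0x1017cc03)) e
 (c z e
 (c (nat_lit 0x801988038b7fd8b7fd8b3a635) e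
 (c (nat_lit 0x80cdd80f3f8175680b5370925) e
 (c (nat_lit 0x80000800008000080815c5595) e e))))))))))))))))))))) tt879)))
 (c (a (nat_lit 0x10200200))
 (c (b (nat_lit 0xfed0600)) tt878 tt877)
 (c (a (nat_lit 0x10200200)) tt876
 (c (a (nat_lit 0x10200200)) tt875
 (c (a (nat_lit 0x10200200)) tt874
 (c (a (nat_lit 0x10200200)) tt873
 (c (a (nat_lit 0x10200200)) tt872 tt871))))))))))) Tr.c Tr.e (nat_lit 0) C.t2 C.t3 C.t4 C.t5 C.t6
noncomputable def tt906 : Tr := beta% (fun (c : Nat → Tr → Tr → Tr) (e : Tr) (a : Nat → Nat) =>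
 (c (a (nat_lit 0x10200200)) tt870 tt905)) Tr.c Tr.e C.t2
noncomputable def tt907 : Tr := beta% (fun (c : Nat → Tr → Tr → Tr) (e : Tr) (a : Nat → Nat) =>
 (c (a (nat_lit 0x10200200)) tt852 tt906)) Tr.c Tr.e C.t2
noncomputable def tt908 : Tr := beta% (fun (c : Nat → Tr → Tr → Tr) (e : Tr) (a : Nat → Nat) =>
 (c (a (nat_lit 0x10200200)) tt821 tt907)) Tr.c Tr.e C.t2
noncomputable def tt1068 : Tr := beta% (fun (c : Nat → Tr → Tr → Tr) (e : Tr) (z : Nat) (a b d f : Nat → Nat) =>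
 (c (a (nat_lit 0xfe00000))
 (c (b (nat_lit 0x101ff600))
 (c (d (nat_lit 0xfd63801))
 (c (nat_lit 0x7ddf27ddf27da057ddf27ddf27ddf252043) e
 (c (f (nat_lit 0x10e40c03)) e
 (c (f (nat_lit 0xdfb3003)) e
 (c (f (nat_lit 0xf965603)) e
 (c (nat_lit 0x6776e6776e672866776e6776e6776eb8583) e
 (c (f (nat_lit 0xc97c203)) e
 (c (f (nat_lit 0xd253a05)) e
 (c (nat_lit 0x720337203371f557203372033720332208c) e e))))))))
 (c (d (nat_lit 0xf1c9a01))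
 (c (nat_lit 0x84ca184ca1848d1848cd84ca184ca1ed103) e
 (c (nat_lit 0x766617666176284762ed766617666164883) e
 (c (nat_lit 0x6fb996fb996f6bf6f8ef6fb996fb998a583) e
 (c (nat_lit 0x63519635196351962aa8635196351976a43) e
 (c (nat_lit 0x67a9d67a9d673e367a9d67a9d67a9dea505) e
 (c (nat_lit 0x735f2735f27338f735f2735f2735f2fc08c) e e))))))
 (c (d (nat_lit 0xf60d601))
 (c (nat_lit 0x6d5f56d5f56d5ca6d41b6d5f56d5f573903) e
 (c (nat_lit 0x6d2706d4206d4206d4206d4206d420a7243) e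
 (c (f (nat_lit 0xcdc0e05)) e
 (c (f (nat_lit 0xb678c0c)) e
 (c (nat_lit 0x7c65f7c65f7c65f7beb47c65f7c65f457d1) e e)))))
 (c (d (nat_lit 0xf7d5401))
 (c (nat_lit 0x6c68f6c6666c68f6c68f6c68f6c68f3a4c5) e
 (c (nat_lit 0x66c3566c3566ae066c3566c3566c35cd58c) e e))
 (c (d (nat_lit 0x1032c201))
 (c (nat_lit 0x77c2277c2277c2277b0b77c2277bb3e8891) e e)
 (c (nat_lit 0x7ff767ff937ffa17ffad7ffe251541) e
 (c (d (nat_lit 0x10162801)) e
 (c (d (nat_lit 0x1012fc03)) e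
 (c (d (nat_lit 0xfccbc03)) e
 (c (d (nat_lit 0xfd89203)) e
 (c (nat_lit 0x80000800007fdd08000080000dd663) e
 (c z e
 (c (d (nat_lit 0xf929a03)) e
 (c (d (nat_lit 0xf779003)) e
 (c (nat_lit 0x7bbbe7bbe77bbe77bbb47bbc0752e3) e
 (c (nat_lit 0x7bcdf7bc6f7bcdf7bcdf7bcb8380c3) e
 (c (nat_lit 0x7bc347bc347bbe57bc347bc34beee5) e
 (c (nat_lit 0x7d2917d2917d2917d1f67d26af018c) e
 (c (nat_lit 0x8000080000800007f3ca7f3d2ca1ac) e
 (c (nat_lit 0x800008000080000800007f2e3c3c0c) e e)))))))))))))))))))) tt1067)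
 (c (a (nat_lit 0xfdffe00)) tt1066
 (c (a (nat_lit 0xfdffe00)) tt1065
 (c (a (nat_lit 0xfdffe00)) tt1064
 (c (a (nat_lit 0xfdffe00)) tt1063
 (c (nat_lit 0x7effe7efff7efffa0b80)
 (c (nat_lit 0x7d00d7d00d7d00e7d00fd25c1) e
 (c (nat_lit 0x801678018a8018c8018a9ca81) e
 (c (nat_lit 0x7fc4f7fc557fc577fc57c2441) e
 (c (nat_lit 0x7fc4e7fc507fc547fc542c481) e
 (c (nat_lit 0x7fbe17fbdb7fbdb7fbdf68b61) e
 (c (nat_lit 0x7fcf27fcf07fced7fcf159d51) e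
 (c (nat_lit 0x7f27d7f2797f2707f26b73701) e
 (c (nat_lit 0x7f0247f0267f0217f01dae073) e
 (c (nat_lit 0x7f0287f0277f0297f02624d93) e
 (c (nat_lit 0x7f5887f5887f5897f5898cce3) e
 (c (nat_lit 0x7f4797f47b7f47b7f47b78413) e
 (c (nat_lit 0x83a8783a86816668166409db3) e
 (c (nat_lit 0x8404a83a8a83a8b83a8c4d923) e
 (c (nat_lit 0x836b1848a983a9383a9409ec3) e
 (c (nat_lit 0x82abb82aec848a683a8a1e9e3) e
 (c (nat_lit 0x813ea81fc181fd582c1694b63) e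
 (c z e
 (c z e
 (c z e
 (c z e
 (c z e
 (c (nat_lit 0x8000080000800007fff16cea5) e
 (c (nat_lit 0x800008000080000805581ffd5) e e)))))))))))))))))))))))
 (c (a (nat_lit 0xfe00000))
 (c (nat_lit 0x80803808078080a8080a01751) e
 (c (nat_lit 0x808288082780827808269efb1) e
 (c (nat_lit 0x8082d8082b8082c8082e7a421) e
 (c (nat_lit 0x807c7807c4807be807baff531) e
 (c (nat_lit 0x808e3808de808d7808d30c3f1) e
 (c (nat_lit 0x7fe7e7fe7e7fe757fe6ea0f93) e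
 (c (nat_lit 0x81a3e81a3e81a3e81a3cfeba3) e
 (c (nat_lit 0x815a7815a7815a8815a824943) e
 (c (nat_lit 0x80a2b80a2b80a2b80a2c5a893) e
 (c (nat_lit 0x80a4580a4680a4480a447b5c3) e
 (c (nat_lit 0x80fb180f8780aac80a28bd8b3) e
 (c (nat_lit 0x81322814dc80e8780b6277fa3) e
 (c (nat_lit 0x812ef8130f815d08123976783) e
 (c (nat_lit 0x80a23813028130f8131bf9da3) e e))))))))))))))
 (c (a (nat_lit 0xfe00000))
 (c (nat_lit 0x8084a8084a8084a80849daa81) e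
 (c (nat_lit 0x808568084e8084f80852108e1) e
 (c (nat_lit 0x807f6807f4807ec807e2721a1) e
 (c (nat_lit 0x809108091180906808fb49fc3) e
 (c (nat_lit 0x7fe847fe847fe827fe83a3cd3) e
 (c (b (nat_lit 0x10380803)) e
 (c (nat_lit 0x849778497684954849683de63) e
 (c (nat_lit 0x80a4180a4280a4180a45761e3) e
 (c (nat_lit 0x80a2f80a2e80a2d80a2cb0363) e
 (c (nat_lit 0x80f8b8121780c1c80a574a843) e
 (c (nat_lit 0x80f7e80f8180f7a8079af1da3) e
 (c (nat_lit 0x80fa180f9d80f8980fa000d53) e e))))))))))))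
 (c (a (nat_lit 0xfe00000))
 (c (nat_lit 0x8085180853808528085299051) e
 (c (nat_lit 0x8081a8081a80809807fa93533) e
 (c (nat_lit 0x808fa808fb808fc808f9b8683) e
 (c (nat_lit 0x80c1880c1780c1780c1894da3) e
 (c (nat_lit 0x7fa627fa637fa647fa648a973) e
 (c (nat_lit 0x846cf846cf846c2846cce8453) e
 (c (nat_lit 0x80bf980bee80bee80bfb69463) e
 (c (nat_lit 0x80a1580a1b80a1b80a1b981b3) e
 (c (nat_lit 0x80fa080f9880f0080a4c4f8e3) e
 (c (nat_lit 0x810e8810f480f9680c3c8d403) e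
 (c (nat_lit 0x8000080000808eb80799d47b4) e
 (c (nat_lit 0x8000080000800008032071174) e e))))))))))))
 (c (a (nat_lit 0xfe00000))
 (c (nat_lit 0x80b6980b6980b6b80b6a64b33) e
 (c (nat_lit 0x80e8e80e8b80e8c80e8cf5a13) e
 (c (nat_lit 0x814dd814d9814d7814d88e363) e
 (c (nat_lit 0x831be831db831dc831d755cc3) e
 (c (nat_lit 0x839ab839ac839ac839ab6d263) e
 (c (nat_lit 0x809cd809c9809c9809cf997f3) e
 (c (nat_lit 0x80c9680c8f80a5f80a60c4d33) e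
 (c (nat_lit 0x8120d8167c80c8480c8656693) e
 (c (nat_lit 0x8082180a0f81288805031b564) e
 (c (nat_lit 0x80000800008069280693d3eb4) e e))))))))))
 (c (nat_lit 0x7f0007efff7efff71120)
 (c (nat_lit 0x80b6d80b6c80b6b80b6beccb3) e
 (c (nat_lit 0x81a6e81a6c81a6c81a6cc8593) e
 (c (nat_lit 0x810b5810b7810b7810b8b2633) e
 (c (nat_lit 0x82cc782ccd82ccd82cd04f283) e
 (c (nat_lit 0x8098d8098c80932809321a893) e
 (c (nat_lit 0x810f4810f580974806f921a83) e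
 (c (nat_lit 0x8077e8077780777801b02b0f4) e
 (c (nat_lit 0x7fd83807628077780776c3704) e
 (c (nat_lit 0x8000080000803908038b03724) e e)))))))))
 (c (nat_lit 0x7f0007f0007efffe71c0)
 (c (nat_lit 0x81dca81dca81dcb81dca66ba3) e
 (c (nat_lit 0x82477824788247d824817ab43) e
 (c (nat_lit 0x82b6d83c9883c9883ca4bb233) e
 (c (nat_lit 0x82887828ad8289281ad374463) e
 (c (nat_lit 0x8164e816448164481652118c4) e
 (c (nat_lit 0x815028161f8164a81649abab4) e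
 (c (nat_lit 0x80e70813b88149d8146e856c4) e
 (c (nat_lit 0x80000800008104c8104a10dc4) e e))))))))
 (c (a (nat_lit 0xfdffe00))
 (c (nat_lit 0x841bd8409a8409a841c563af3) e
 (c (nat_lit 0x8278e8279d827bf827a7ff633) e
 (c (nat_lit 0x7d4cb7d4cb7d4ef7d4ef69be4) e
 (c (nat_lit 0x82263822698226a8226302534) e
 (c (nat_lit 0x81783812ad8143b8143e8cea4) e
 (c (nat_lit 0x8023981c5d80e8080e80bf564) e
 (c (nat_lit 0x800008000081c5780e7dd60e4) e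
 (c (nat_lit 0x80000800008000081c63b4964) e e))))))))
 (c (nat_lit 0x7f0007efff7efff62788)
 (c (nat_lit 0x7a5357a5347a5347a53454b14) e
 (c (nat_lit 0x80f7480f7280f6f80f6b78914) e
 (c (nat_lit 0x8100280fff80ffb80ffddfab4) e
 (c (nat_lit 0x81254812378100080d305c8a4) e
 (c (nat_lit 0x80bf28128a8124a812b288024) e
 (c (nat_lit 0x80000800008129e8124df0024) e
 (c (nat_lit 0x8000080000800008063bf1194) e e)))))))
 (c (a (nat_lit 0xfdffe00)) e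
 (c (a (nat_lit 0xfdffe00)) e
 (c (a (nat_lit 0xfdffe00)) e
 (c (nat_lit 0x7f0007efff7efffe0250) e
 (c (nat_lit 0x7f0017f0007f000e02f9) e
 (c (nat_lit 0x7f0047f0047f000ff609) e
 (c (nat_lit 0x7faf57faf57faf4fbfb9) e
 (c (nat_lit 0x7f5057f5067f506fd751) e
 (c (nat_lit 0x7efd87efd77efd838091) e
 (c (nat_lit 0x7efdd7efdb7efdc14eb9) e
 (c (nat_lit 0x7efe07efde7efdbf05a1) e
 (c (nat_lit 0x7efe97efe67efdebc601) e
 (c (nat_lit 0x7eff27efef7efe60dc81) e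
 (c (nat_lit 0x7f4dc7f4d77f4c8528db) e
 (c (nat_lit 0x7f4ed7f4ec7f4eb954db) e
 (c (nat_lit 0x7f4f07f4ef7f4efba93b) e
 (c (a (nat_lit 0xfe9e603)) e
 (c (a (nat_lit 0xfe9ec03)) e
 (c (nat_lit 0x7efba7f4ec7f4e9ee00b) e
 (c (nat_lit 0x7e0377e6277eb556f1eb) e
 (c (nat_lit 0x7eb207e0307e621406cb) e
 (c (nat_lit 0x7eb257eb217e031e1a23) e e))))))))))))))))))))))))))))))))))))) Tr.c Tr.e (nat_lit 0) C.t3 C.t4 C.t5 C.t6
noncomputable def tt1071 : Tr := beta% (fun (c : Nat → Tr → Tr → Tr) (e : Tr) (z : Nat) (a b : Nat → Nat) =>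
 (c (nat_lit 0x7effa7effb7effa59a68)
 (c (nat_lit 0x81016810128101281016a0190) tt1070
 (c (nat_lit 0x8100481003810038100418e90)
 (c (a (nat_lit 0xfdfe801))
 (c (nat_lit 0x7c2017c0dd7c29e7c29e7c29e7c29e75a83) e
 (c (b (nat_lit 0x102c7c03)) e
 (c z e
 (c (b (nat_lit 0x10cab803)) e
 (c (nat_lit 0x6e5436e42e6e5436e5436e5436e543f1d43) e
 (c (b (nat_lit 0xdd02a03)) e
 (c (nat_lit 0x6ede46efcf6efcf6efcf6efcf6efcff8e83) e
 (c (b (nat_lit 0xe1de609)) e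
 (c (b (nat_lit 0xfd63a18)) e e)))))))))
 (c (a (nat_lit 0xfbae801))
 (c z e
 (c z e
 (c (b (nat_lit 0xfe71803)) e
 (c z e
 (c (nat_lit 0x67bab6791e67bab67bab67bab67babb5183) e
 (c (nat_lit 0x717c7717c7711a4717c7717c7717c7b2009) e
 (c (b (nat_lit 0xe5eac11)) e
 (c (b (nat_lit 0xf32f618)) e e))))))))
 (c (a (nat_lit 0xf57fc01))
 (c (b (nat_lit 0xf07b803)) e
 (c (b (nat_lit 0xd687203)) e
 (c (b (nat_lit 0xd306e03)) e
 (c (b (nat_lit 0xf47dc09)) e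
 (c (b (nat_lit 0xf50bc11)) e e)))))
 (c (a (nat_lit 0xf824e01))
 (c (b (nat_lit 0xdb85203)) e
 (c (nat_lit 0x69b556985169b5569b5569b5569b5534149) e
 (c (nat_lit 0x6ef256ef256ee226ef256ef256ef25cfa51) e
 (c (b (nat_lit 0x10a07411)) e e))))
 (c (a (nat_lit 0xfdcb801))
 (c (nat_lit 0x73e2773e2773ddb73e2773e2773e2745711) e e)
 (c (a (nat_lit 0xf9f3c01)) e
 (c (a (nat_lit 0x10125a01)) e
 (c z e
 (c z e
 (c (a (nat_lit 0xfe16403)) e
 (c (a (nat_lit 0xfce6003)) e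
 (c (a (nat_lit 0x10374c03)) e
 (c z e
 (c z e
 (c (nat_lit 0x7cbae7cba57cbae7cb917cb6efd503) e
 (c (nat_lit 0x7c7727c7727c7727c7727c76f85e83) e
 (c (nat_lit 0x7c7197c7197c7197c7197c1cdf0643) e
 (c (nat_lit 0x7c3b87c3b87c3b87c3b87c3a597c89) e
 (c (nat_lit 0x8000080000800007f8307f84b26a29) e
 (c (nat_lit 0x800008000080000800007f87e3a1a9) e e)))))))))))))))))))) tt1069)) tt1068)) Tr.c Tr.e (nat_lit 0) C.t5 C.t6
noncomputable def tt1072 : Tr := beta% (fun (c : Nat → Tr → Tr → Tr) (e : Tr) (z : Nat) (a b d f : Nat → Nat) =>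
 (c (a (nat_lit 0x10200200)) tt1071
 (c (a (nat_lit 0x10200200))
 (c (b (nat_lit 0xfe00000)) tt1062
 (c (b (nat_lit 0xfdffe00)) tt1061
 (c (b (nat_lit 0xfdffe00)) tt1060
 (c (b (nat_lit 0xfdffe00)) tt1059 tt1058))))
 (c (a (nat_lit 0x10200200))
 (c (b (nat_lit 0xfdffe00)) tt1057
 (c (b (nat_lit 0xfdffe00)) tt1056
 (c (b (nat_lit 0xfdffe00))
 (c (nat_lit 0x8097f8097d8097d8097c457e1)
 (c (nat_lit 0x818ec8190f8190f8190f8190f30603) e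
 (c (f (nat_lit 0xfd12203)) e
 (c z e
 (c z e
 (c (f (nat_lit 0xfc0ae03)) e
 (c (nat_lit 0x8392883928838a6838f48392834623) e
 (c (f (nat_lit 0x102ab603)) e
 (c (nat_lit 0x800008000080000800007ff5e145e3) e
 (c (f (nat_lit 0x1050e205)) e
 (c (nat_lit 0x80000800007ed187ecd67ed18ebad0) e
 (c (nat_lit 0x800008000083cb283d4c83c8506a70) e e)))))))))))
 (c (nat_lit 0x8100a810068100281002f0181)
 (c z e
 (c z e
 (c z e
 (c z e
 (c z e
 (c (f (nat_lit 0x104d3a05)) e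
 (c (nat_lit 0x818d5818d5818d5818d58183dc4aa5) e
 (c (nat_lit 0x7ed367eaf47ec5b7ed367ed369c149) e
 (c (nat_lit 0x8000080000800007c7867c78664da9) e e)))))))))
 (c (nat_lit 0x808618085c8085980859d4431) e
 (c (nat_lit 0x86479864798647a8647a152d1) e
 (c (nat_lit 0x80a1780a1980a1980a1748b01) e
 (c (nat_lit 0x80a1780a1480a1180a0d26b21) e
 (c (nat_lit 0x809a9809a8809a8809a5e8f71) e
 (c (nat_lit 0x80ab180ab280ab680ab1c48a1) e
 (c (nat_lit 0x8002d80030800348003137821) e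
 (c (nat_lit 0x7fdcc7fdce7fdd67fddd9f312) e
 (c (nat_lit 0x80144801467fdd07fdd8ccf32) e
 (c (nat_lit 0x815c4815bc815bc815b81a3f3) e
 (c (nat_lit 0x81fcf81fd081fc481fc440093) e
 (c (nat_lit 0x81c5f81c5e81c5b81c57a21b3) e
 (c (nat_lit 0x81c0781c0081bfd81bfcae003) e
 (c (nat_lit 0x8142d8142c8142b81428117b3) e
 (c (nat_lit 0x81e4481e6d81e6c81e6eeffc3) e
 (c (nat_lit 0x80c0581e1e81e4281e41c6303) e
 (c (nat_lit 0x8209480c0881e2181e36de933) e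
 (c (nat_lit 0x8204e820ab80c0a81e0676f43) e
 (c (nat_lit 0x80a3a80b7981a56805b2c3bf5) e
 (c (nat_lit 0x80f7e80f7e810c381fa09ec25) e
 (c (nat_lit 0x80000800008000080201154d5) e
 (c (nat_lit 0x800008000080000800ce8e386) e
 (c (nat_lit 0x8000080000800007fff809796) e e))))))))))))))))))))))))) tt1055)))
 (c (a (nat_lit 0x10200200))
 (c (b (nat_lit 0xfdffc00)) tt1054
 (c (b (nat_lit 0xfdffe00))
 (c (nat_lit 0x8098b809898097e8097f6b911)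
 (c (nat_lit 0x80000800007ff1a800008000051f03) e
 (c (f (nat_lit 0x100e2a03)) e
 (c z e
 (c z e
 (c (f (nat_lit 0x10221203)) e
 (c (f (nat_lit 0x1021ae03)) e
 (c z e
 (c (nat_lit 0x83284831758317583284831c9fba65) e
 (c (nat_lit 0x80000800008000083837838456c5c5) e
 (c z e
 (c (nat_lit 0x800008000080000813b7813b7727b0) e e)))))))))))
 (c (nat_lit 0x7d8577d8577e4387e437d69d1)
 (c (f (nat_lit 0x10394403)) e
 (c (f (nat_lit 0x1047be03)) e e))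
 (c (d (nat_lit 0xfb4ca01))
 (c (f (nat_lit 0x105b1403)) e
 (c z e
 (c (f (nat_lit 0x106b0603)) e e)))
 (c (nat_lit 0x809f5809f9809fb809fb477e1)
 (c (f (nat_lit 0x108d8603)) e
 (c (f (nat_lit 0x10653005)) e e))
 (c (nat_lit 0x80a1580a1780a1880a1834101) e
 (c (nat_lit 0x80a0880a1080a1480a12392b1) e
 (c (nat_lit 0x809a1809a4809a4809a879601) e
 (c (nat_lit 0x80aa880aa880aac80aad9fc21) e
 (c (nat_lit 0x800278002380027800281c8a2) e
 (c (nat_lit 0x8191781daf818fe8190b706b2) e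
 (c (nat_lit 0x82e3782e3f82e43829a9730b2) e
 (c (nat_lit 0x82070820688207182071f8283) e
 (c (nat_lit 0x81100810d4810d4810f9b2e53) e
 (c (nat_lit 0x816f0816ee816ed816eaf5373) e
 (c (nat_lit 0x8103c8103b8103b8103fb62b3) e
 (c (nat_lit 0x81aca81ac981aca81aca1c953) e
 (c (nat_lit 0x81e5381e5581e5081e4c051a3) e
 (c (nat_lit 0x8129781e6b81e7681e6e5f2a3) e
 (c (nat_lit 0x825fb8129c81e7081e8ce93b3) e
 (c (nat_lit 0x825b8825fe8129e8077a0a063) e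
 (c (nat_lit 0x8105481f87817e080c43df405) e
 (c (nat_lit 0x80000800008000080e5e1fe55) e
 (c z e
 (c z e
 (c (nat_lit 0x8000080000800007fff8bf986) e e))))))))))))))))))))))))) tt1053))
 (c (a (nat_lit 0x10200200)) tt1052
 (c (a (nat_lit 0x10200200)) tt1051
 (c (a (nat_lit 0x10200200)) tt1050
 (c (a (nat_lit 0x10200200)) tt1049 tt1048))))))))) Tr.c Tr.e (nat_lit 0) C.t2 C.t3 C.t4 C.t5
noncomputable def tt1118 : Tr := beta% (fun (c : Nat → Tr → Tr → Tr) (e : Tr) =>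
 (c (nat_lit 0x7efff00000) tt1072 tt1117)) Tr.c Tr.e
noncomputable def tt1119 : Tr := beta% (fun (c : Nat → Tr → Tr → Tr) (e : Tr) =>
 (c (nat_lit 0x7efff00000) tt1047 tt1118)) Tr.c Tr.e
noncomputable def tt1120 : Tr := beta% (fun (c : Nat → Tr → Tr → Tr) (e : Tr) =>
 (c (nat_lit 0x7efff00000) tt997 tt1119)) Tr.c Tr.e
noncomputable def tt1121 : Tr := beta% (fun (c : Nat → Tr → Tr → Tr) (e : Tr) =>
 (c (nat_lit 0x7efff00000) tt908 tt1120)) Tr.c Tr.e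
noncomputable def tt1122 : Tr := beta% (fun (c : Nat → Tr → Tr → Tr) (e : Tr) =>
 (c (nat_lit 0x7efff00000) tt764 tt1121)) Tr.c Tr.e
noncomputable def tb : Tr := beta% (fun (c : Nat → Tr → Tr → Tr) (e : Tr) =>
 (c (nat_lit 0x7efff00000) tt500 tt1122)) Tr.c Tr.e

end Pool.Agent.Work.MP_82fd4a_nt.P.H
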