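import Pool.Agent.Work.MP_82fd4a_nt.P.Tc3
import Pool.Agent.Work.MP_82fd4a_nt.P.H.Tb
import Pool.Agent.Work.MP_82fd4a_nt.P.H.CT

set_option autoImplicit false
set_option linter.all false

namespace Pool.Agent.Work.MP_82fd4a_nt.P.H

noncomputable def d0 : cjob3 (nat_lit 90) (nat_lit 3) (nat_lit 1) (nat_lit 21) (nat_lit 22) (nat_lit 22) (nat_lit 66)
    (nat_lit 0x3fffff) (nat_lit 0x3ffffffffffffffff) tb tc
    (nat_lit 0) (nat_lit 72057594037927936) = 0 := by decide +kernel

noncomputable def d1 : cjob3 (nat_lit 90) (nat_lit 3) (nat_lit 2) (nat_lit 22) (nat_lit 23) (nat_lit 46) (nat_lit 115)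
    (nat_lit 0x7fffff) (nat_lit 0x7ffffffffffffffffffffffffffff) tb tc
    (nat_lit 0) (nat_lit 72057594037927936) = 0 := by decide +kernel

noncomputable def d2 : cjob3 (nat_lit 90) (nat_lit 3) (nat_lit 3) (nat_lit 23) (nat_lit 24) (nat_lit 72) (nat_lit 168)
    (nat_lit 0xffffff) (nat_lit 0xffffffffffffffffffffffffffffffffffffffffff) tb tc
    (nat_lit 0) (nat_lit 72057594037927936) = 0 := by decide +kernel

noncomputable def d3 : cjob3 (nat_lit 90) (nat_lit 3) (nat_lit 4) (nat_lit 24) (nat_lit 25) (nat_lit 100) (nat_lit 225)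
    (nat_lit 0x1ffffff) (nat_lit 0x1ffffffffffffffffffffffffffffffffffffffffffffffffffffffff) tb tc
    (nat_lit 0) (nat_lit 72057594037927936) = 0 := by decide +kernel

noncomputable def dp : dpt tc 9 = 0 := by decide +kernel

noncomputable def dw : wtb tb 40 = 0 := by decide +kernel

end Pool.Agent.Work.MP_82fd4a_nt.P.H
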