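import Pool.Agent.Work.MP_82fd4a_nt.P.Tc3
import Pool.Agent.Work.MP_82fd4a_nt.P.H.Tb
import Pool.Agent.Work.MP_82fd4a_nt.P.H.CT

set_option autoImplicit false
set_option linter.all false

namespace Pool.Agent.Work.MP_82fd4a_nt.P.H

noncomputable def d8 : cjob3 (nat_lit 90) (nat_lit 3) (nat_lit 6) (nat_lit 26) (nat_lit 27) (nat_lit 162) (nat_lit 351)
    (nat_lit 0x7ffffff) (nat_lit 0x7fffffffffffffffffffffffffffffffffffffffffffffffffffffffffffffffffffffffffffffffffffffff) tb tc
    (nat_lit 1715480557699072) (nat_lit 2296127124881408) = 0 := by decide +kernel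

end Pool.Agent.Work.MP_82fd4a_nt.P.H
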