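import Pool.Agent.Work.MP_82fd4a_nt.P.KTc3
import Pool.Agent.Work.MP_82fd4a_nt.P.H.D0
import Pool.Agent.Work.MP_82fd4a_nt.P.H.D1
import Pool.Agent.Work.MP_82fd4a_nt.P.H.D2
import Pool.Agent.Work.MP_82fd4a_nt.P.H.D3
import Pool.Agent.Work.MP_82fd4a_nt.P.H.D4
import Pool.Agent.Work.MP_82fd4a_nt.P.H.D5
import Pool.Agent.Work.MP_82fd4a_nt.P.H.D6
import Pool.Agent.Work.MP_82fd4a_nt.P.H.D7
import Pool.Agent.Work.MP_82fd4a_nt.P.H.D8
import Pool.Agent.Work.MP_82fd4a_nt.P.H.D9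
import Pool.Agent.Work.MP_82fd4a_nt.P.H.D10
import Pool.Agent.Work.MP_82fd4a_nt.P.H.D11
import Pool.Agent.Work.MP_82fd4a_nt.P.H.D12
import Pool.Agent.Work.MP_82fd4a_nt.P.H.D13

set_option autoImplicit false
set_option linter.all false
set_option exponentiation.threshold 2000

namespace Pool.Agent.Work.MP_82fd4a_nt.P.H

theorem tcOK {P : Par} (hs : Sm P) (hN : P.N = 90) (hc : P.z / P.G = 3) : TcOK P tb tc := by
  have j : ∀ {K a b : ℕ}, 0 < K → cjob3 90 3 K (K + 20) (K + 21) ((K + 21) * K)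
      ((K + 21) * (2 * K + 1)) (2 ^ (K + 21) - 1) (2 ^ ((K + 21) * (2 * K + 1)) - 1) tb tc a b = 0 →
      TcK P tb tc K a b :=
    fun h h' => cjob3_spec hs h dw rfl rfl rfl rfl rfl rfl (by rw [hN, hc]; exact h')
  refine TcOK.of dp fun K h1 h2 => ?_
  interval_cases K
  · exact (j h1 d0)
  · exact (j h1 d1)
  · exact (j h1 d2)
  · exact (j h1 d3)
  · exact (((j h1 d4).trans
      (j h1 d5)).trans
      (j h1 d6))
  · exact (((j h1 d7).trans
      (j h1 d8)).trans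
      (j h1 d9))
  · exact ((((j h1 d10).trans
      (j h1 d11)).trans
      (j h1 d12)).trans
      (j h1 d13))
  · exact (((((j h1 d14).trans
      (j h1 d15)).trans
      (j h1 d16)).trans
      (j h1 d17)).trans
      (j h1 d18))
  · exact ((((j h1 d19).trans
      (j h1 d20)).trans
      (j h1 d21)).trans
      (j h1 d22))

end Pool.Agent.Work.MP_82fd4a_nt.P.H
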