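import Pool.Agent.Work.MP_82fd4a_nt.P.Ck2
import Pool.Agent.Work.MP_82fd4a_nt.P.H.Tb
import Pool.Agent.Work.MP_82fd4a_nt.P.H.Tq

/-! Checks of the tables. -/

set_option autoImplicit false
set_option linter.all false
set_option maxRecDepth 100000

namespace Pool.Agent.Work.MP_82fd4a_nt.P.H

open Y Tr P

noncomputable def k0 : P.chk2 90 23 44 tt17 3 [3, 3, 3, 3] = 0 := by decide +kernel
noncomputable def q0 : P.ckq tt17 uu17 1 5 = 0 := by decide +kernel
noncomputable def k1 : P.chk2 90 23 44 tt32 4 [3, 3, 3, 4] = 0 := by decide +kernel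
noncomputable def q1 : P.ckq tt32 uu32 2 5 = 0 := by decide +kernel
noncomputable def k2 : P.chk2 90 23 44 tt69 5 [3, 3, 3] = 0 := by decide +kernel
noncomputable def q2 : P.ckq tt69 uu69 3 4 = 0 := by decide +kernel
noncomputable def k3 : P.chk2 90 23 44 tt84 4 [3, 3, 4, 4] = 0 := by decide +kernel
noncomputable def q3 : P.ckq tt84 uu84 2 5 = 0 := by decide +kernel
noncomputable def k4 : P.chk2 90 23 44 tt117 5 [3, 3, 4] = 0 := by decide +kernel
noncomputable def q4 : P.ckq tt117 uu117 3 4 = 0 := by decide +kernel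

end Pool.Agent.Work.MP_82fd4a_nt.P.H
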