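import Pool.Agent.Work.MP_82fd4a_nt.P.Ck2
import Pool.Agent.Work.MP_82fd4a_nt.P.H.Tb
import Pool.Agent.Work.MP_82fd4a_nt.P.H.Tq

/-! Checks of the tables. -/

set_option autoImplicit false
set_option linter.all false
set_option maxRecDepth 100000

namespace Pool.Agent.Work.MP_82fd4a_nt.P.H

open Y Tr P

noncomputable def k5 : P.chk2 90 23 44 tt144 5 [3, 3, 5] = 0 := by decide +kernel
noncomputable def q5 : P.ckq tt144 uu144 3 4 = 0 := by decide +kernel
noncomputable def k6 : P.chk2 90 23 44 tt163 6 [3, 3, 6] = 0 := by decide +kernel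
noncomputable def q6 : P.ckq tt163 uu163 4 4 = 0 := by decide +kernel
noncomputable def k7 : P.chk2 90 23 44 tt201 7 [3, 3] = 0 := by decide +kernel
noncomputable def q7 : P.ckq tt201 uu201 5 3 = 0 := by decide +kernel
noncomputable def k8 : P.chk2 90 23 44 tt218 4 [3, 4, 4, 4] = 0 := by decide +kernel
noncomputable def q8 : P.ckq tt218 uu218 2 5 = 0 := by decide +kernel
noncomputable def k9 : P.chk2 90 23 44 tt249 5 [3, 4, 4] = 0 := by decide +kernel
noncomputable def q9 : P.ckq tt249 uu249 3 4 = 0 := by decide +kernel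

end Pool.Agent.Work.MP_82fd4a_nt.P.H
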