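import Pool.Agent.Work.MP_82fd4a_nt.P.Ck2
import Pool.Agent.Work.MP_82fd4a_nt.P.H.Tb
import Pool.Agent.Work.MP_82fd4a_nt.P.H.Tq

/-! Checks of the tables. -/

set_option autoImplicit false
set_option linter.all false
set_option maxRecDepth 100000

namespace Pool.Agent.Work.MP_82fd4a_nt.P.H

open Y Tr P

noncomputable def k10 : P.chk2 90 23 44 tt274 5 [3, 4, 5] = 0 := by decide +kernel
noncomputable def q10 : P.ckq tt274 uu274 3 4 = 0 := by decide +kernel
noncomputable def k11 : P.chk2 90 23 44 tt288 6 [3, 4, 6] = 0 := by decide +kernel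
noncomputable def q11 : P.ckq tt288 uu288 4 4 = 0 := by decide +kernel
noncomputable def k12 : P.chk2 90 23 44 tt323 7 [3, 4] = 0 := by decide +kernel
noncomputable def q12 : P.ckq tt323 uu323 5 3 = 0 := by decide +kernel
noncomputable def k13 : P.chk2 90 23 44 tt349 5 [3, 5, 5] = 0 := by decide +kernel
noncomputable def q13 : P.ckq tt349 uu349 3 4 = 0 := by decide +kernel
noncomputable def k14 : P.chk2 90 23 44 tt386 6 [3, 5] = 0 := by decide +kernel
noncomputable def q14 : P.ckq tt386 uu386 4 3 = 0 := by decide +kernel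

end Pool.Agent.Work.MP_82fd4a_nt.P.H
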