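import Pool.Agent.Work.MP_82fd4a_nt.P.Ck2
import Pool.Agent.Work.MP_82fd4a_nt.P.H.Tb
import Pool.Agent.Work.MP_82fd4a_nt.P.H.Tq

/-! Checks of the tables. -/

set_option autoImplicit false
set_option linter.all false
set_option maxRecDepth 100000

namespace Pool.Agent.Work.MP_82fd4a_nt.P.H

open Y Tr P

noncomputable def k15 : P.chk2 90 23 44 tt425 6 [3, 6] = 0 := by decide +kernel
noncomputable def q15 : P.ckq tt425 uu425 4 3 = 0 := by decide +kernel
noncomputable def k16 : P.chk2 90 23 44 tt450 7 [3, 7] = 0 := by decide +kernel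
noncomputable def q16 : P.ckq tt450 uu450 5 3 = 0 := by decide +kernel
noncomputable def k17 : P.chk2 90 23 44 tt464 8 [3, 8] = 0 := by decide +kernel
noncomputable def q17 : P.ckq tt464 uu464 6 3 = 0 := by decide +kernel
noncomputable def k18 : P.chk2 90 23 44 tt494 9 [3] = 0 := by decide +kernel
noncomputable def q18 : P.ckq tt494 uu494 7 2 = 0 := by decide +kernel

end Pool.Agent.Work.MP_82fd4a_nt.P.H
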