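import Pool.Agent.Work.MP_82fd4a_nt.P.Ck2
import Pool.Agent.Work.MP_82fd4a_nt.P.H.Tb
import Pool.Agent.Work.MP_82fd4a_nt.P.H.Tq

/-! Checks of the tables. -/

set_option autoImplicit false
set_option linter.all false
set_option maxRecDepth 100000

namespace Pool.Agent.Work.MP_82fd4a_nt.P.H

open Y Tr P

noncomputable def k19 : P.chk2 90 23 44 tt540 4 [4, 4, 4] = 0 := by decide +kernel
noncomputable def q19 : P.ckq tt540 uu540 2 4 = 0 := by decide +kernel
noncomputable def k20 : P.chk2 90 23 44 tt565 5 [4, 4, 5] = 0 := by decide +kernel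
noncomputable def q20 : P.ckq tt565 uu565 3 4 = 0 := by decide +kernel
noncomputable def k21 : P.chk2 90 23 44 tt610 6 [4, 4] = 0 := by decide +kernel
noncomputable def q21 : P.ckq tt610 uu610 4 3 = 0 := by decide +kernel

end Pool.Agent.Work.MP_82fd4a_nt.P.H
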