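import Pool.Agent.Work.MP_82fd4a_nt.P.Ck2
import Pool.Agent.Work.MP_82fd4a_nt.P.H.Tb
import Pool.Agent.Work.MP_82fd4a_nt.P.H.Tq

/-! Checks of the tables. -/

set_option autoImplicit false
set_option linter.all false
set_option maxRecDepth 100000

namespace Pool.Agent.Work.MP_82fd4a_nt.P.H

open Y Tr P

noncomputable def k26 : P.chk2 90 23 44 tt760 8 [4] = 0 := by decide +kernel
noncomputable def q26 : P.ckq tt760 uu760 6 2 = 0 := by decide +kernel
noncomputable def k27 : P.chk2 90 23 44 tt784 5 [5, 5, 5] = 0 := by decide +kernel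
noncomputable def q27 : P.ckq tt784 uu784 3 4 = 0 := by decide +kernel
noncomputable def k28 : P.chk2 90 23 44 tt820 6 [5, 5] = 0 := by decide +kernel
noncomputable def q28 : P.ckq tt820 uu820 4 3 = 0 := by decide +kernel
noncomputable def k29 : P.chk2 90 23 44 tt852 6 [5, 6] = 0 := by decide +kernel
noncomputable def q29 : P.ckq tt852 uu852 4 3 = 0 := by decide +kernel

end Pool.Agent.Work.MP_82fd4a_nt.P.H
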