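import Pool.Agent.Work.MP_82fd4a_nt.P.Ck2
import Pool.Agent.Work.MP_82fd4a_nt.P.H.Tb
import Pool.Agent.Work.MP_82fd4a_nt.P.H.Tq

/-! Checks of the tables. -/

set_option autoImplicit false
set_option linter.all false
set_option maxRecDepth 100000

namespace Pool.Agent.Work.MP_82fd4a_nt.P.H

open Y Tr P

noncomputable def k30 : P.chk2 90 23 44 tt870 7 [5, 7] = 0 := by decide +kernel
noncomputable def q30 : P.ckq tt870 uu870 5 3 = 0 := by decide +kernel
noncomputable def k31 : P.chk2 90 23 44 tt905 8 [5] = 0 := by decide +kernel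
noncomputable def q31 : P.ckq tt905 uu905 6 2 = 0 := by decide +kernel
noncomputable def k32 : P.chk2 90 23 44 tt940 6 [6, 6] = 0 := by decide +kernel
noncomputable def q32 : P.ckq tt940 uu940 4 3 = 0 := by decide +kernel
noncomputable def k33 : P.chk2 90 23 44 tt962 7 [6, 7] = 0 := by decide +kernel
noncomputable def q33 : P.ckq tt962 uu962 5 3 = 0 := by decide +kernel

end Pool.Agent.Work.MP_82fd4a_nt.P.H
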