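import Pool.Agent.Work.MP_82fd4a_nt.P.Ck2
import Pool.Agent.Work.MP_82fd4a_nt.P.H.Tb
import Pool.Agent.Work.MP_82fd4a_nt.P.H.Tq

/-! Checks of the tables. -/

set_option autoImplicit false
set_option linter.all false
set_option maxRecDepth 100000

namespace Pool.Agent.Work.MP_82fd4a_nt.P.H

open Y Tr P

noncomputable def k34 : P.chk2 90 23 44 tt995 8 [6] = 0 := by decide +kernel
noncomputable def q34 : P.ckq tt995 uu995 6 2 = 0 := by decide +kernel
noncomputable def k35 : P.chk2 90 23 44 tt1016 7 [7, 7] = 0 := by decide +kernel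
noncomputable def q35 : P.ckq tt1016 uu1016 5 3 = 0 := by decide +kernel
noncomputable def k36 : P.chk2 90 23 44 tt1046 8 [7] = 0 := by decide +kernel
noncomputable def q36 : P.ckq tt1046 uu1046 6 2 = 0 := by decide +kernel
noncomputable def k37 : P.chk2 90 23 44 tt1072 8 [8] = 0 := by decide +kernel
noncomputable def q37 : P.ckq tt1072 uu1072 6 2 = 0 := by decide +kernel

end Pool.Agent.Work.MP_82fd4a_nt.P.H
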