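import Pool.Agent.Work.MP_82fd4a_nt.P.KDefs
import Pool.Agent.Work.MP_82fd4a_nt.P.H.K0
import Pool.Agent.Work.MP_82fd4a_nt.P.H.K1
import Pool.Agent.Work.MP_82fd4a_nt.P.H.K2
import Pool.Agent.Work.MP_82fd4a_nt.P.H.K3
import Pool.Agent.Work.MP_82fd4a_nt.P.H.K4
import Pool.Agent.Work.MP_82fd4a_nt.P.H.K5
import Pool.Agent.Work.MP_82fd4a_nt.P.H.K6
import Pool.Agent.Work.MP_82fd4a_nt.P.H.K7
import Pool.Agent.Work.MP_82fd4a_nt.P.H.K8
import Pool.Agent.Work.MP_82fd4a_nt.P.H.K9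

/-! Checks of the tables. -/

set_option autoImplicit false
set_option linter.all false
set_option maxRecDepth 100000

namespace Pool.Agent.Work.MP_82fd4a_nt.P.H

open Y Tr P

theorem chk_c {N Q L v a a' : ℕ} {k r : Tr} {pre l : List ℕ} (hl : snoc pre a = l)
    (ha : Nat.succ a = a') (h1 : P.okv2 N Q L v l = 0) (h2 : P.chk2 N Q L k a l = 0)
    (h3 : P.chk2 N Q L r a' pre = 0) : P.chk2 N Q L (c v k r) a pre = 0 := by
  subst hl ha
  change BS.fl (snoc pre a) (fun l => Nat.add (Nat.add (P.okv2 N Q L v l) (P.chk2 N Q L k a l))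
    (BS.fz (Nat.succ a) fun a' => P.chk2 N Q L r a' pre)) = 0
  rw [BS.fl_eq, BS.fz_eq, h1, h2, h3]

theorem ckq_c {v y a n a' n' : ℕ} {k r k' r' : Tr} (hn : Nat.succ n = n') (ha : Nat.succ a = a')
    (h1 : Nat.beq y (Nat.add (env v n) (Nat.shiftLeft (chv n' k) (Nat.mul 156 a))) = true)
    (h2 : ckq k k' a n' = 0) (h3 : ckq r r' a' n = 0) : ckq (c v k r) (c y k' r') a n = 0 := by
  subst hn ha
  change BS.fz (Nat.succ n) (fun n' => Bool.rec 1
      (Nat.add (ckq k k' a n') (BS.fz (Nat.succ a) fun a' => ckq r r' a' n))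
      (Nat.beq y (Nat.add (env v n) (Nat.shiftLeft (chv n' k) (Nat.mul 156 a))))) = 0
  rw [BS.fz_eq, h1, BS.fz_eq, h2, h3]

theorem ckr_c {Y0 : ℕ} {tb tq : Tr} (h1 : Nat.beq Y0 (Nat.shiftLeft (chv 1 tb) 156) = true)
    (h2 : ckq tb tq 1 1 = 0) : ckr Y0 tb tq = 0 := by
  unfold ckr
  rw [h1]
  exact h2

theorem chkT : P.chk2 90 23 44 tb 3 [] = 0 :=
  (chk_c (l := [3]) (a' := 4) rfl rfl (by decide +kernel) (chk_c (l := [3, 3]) (a' := 4) rfl rfl (by decide +kernel) (chk_c (l := [3, 3, 3]) (a' := 4) rfl rfl (by decide +kernel) (chk_c (l := [3, 3, 3, 3]) (a' := 4) rfl rfl (by decide +kernel) k0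
    (chk_c (l := [3, 3, 3, 4]) (a' := 5) rfl rfl (by decide +kernel) k1
    k2))
    (chk_c (l := [3, 3, 4]) (a' := 5) rfl rfl (by decide +kernel) (chk_c (l := [3, 3, 4, 4]) (a' := 5) rfl rfl (by decide +kernel) k3
    k4)
    (chk_c (l := [3, 3, 5]) (a' := 6) rfl rfl (by decide +kernel) k5
    (chk_c (l := [3, 3, 6]) (a' := 7) rfl rfl (by decide +kernel) k6
    k7))))
    (chk_c (l := [3, 4]) (a' := 5) rfl rfl (by decide +kernel) (chk_c (l := [3, 4, 4]) (a' := 5) rfl rfl (by decide +kernel) (chk_c (l := [3, 4, 4, 4]) (a' := 5) rfl rfl (by decide +kernel) k8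
    k9)
    (chk_c (l := [3, 4, 5]) (a' := 6) rfl rfl (by decide +kernel) k10
    (chk_c (l := [3, 4, 6]) (a' := 7) rfl rfl (by decide +kernel) k11
    k12)))
    (chk_c (l := [3, 5]) (a' := 6) rfl rfl (by decide +kernel) (chk_c (l := [3, 5, 5]) (a' := 6) rfl rfl (by decide +kernel) k13
    k14)
    (chk_c (l := [3, 6]) (a' := 7) rfl rfl (by decide +kernel) k15
    (chk_c (l := [3, 7]) (a' := 8) rfl rfl (by decide +kernel) k16
    (chk_c (l := [3, 8]) (a' := 9) rfl rfl (by decide +kernel) k17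
    k18))))))
    (chk_c (l := [4]) (a' := 5) rfl rfl (by decide +kernel) (chk_c (l := [4, 4]) (a' := 5) rfl rfl (by decide +kernel) (chk_c (l := [4, 4, 4]) (a' := 5) rfl rfl (by decide +kernel) k19
    (chk_c (l := [4, 4, 5]) (a' := 6) rfl rfl (by decide +kernel) k20
    k21))
    (chk_c (l := [4, 5]) (a' := 6) rfl rfl (by decide +kernel) (chk_c (l := [4, 5, 5]) (a' := 6) rfl rfl (by decide +kernel) k22
    k23)
    (chk_c (l := [4, 6]) (a' := 7) rfl rfl (by decide +kernel) k24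
    (chk_c (l := [4, 7]) (a' := 8) rfl rfl (by decide +kernel) k25
    k26))))
    (chk_c (l := [5]) (a' := 6) rfl rfl (by decide +kernel) (chk_c (l := [5, 5]) (a' := 6) rfl rfl (by decide +kernel) (chk_c (l := [5, 5, 5]) (a' := 6) rfl rfl (by decide +kernel) k27
    k28)
    (chk_c (l := [5, 6]) (a' := 7) rfl rfl (by decide +kernel) k29
    (chk_c (l := [5, 7]) (a' := 8) rfl rfl (by decide +kernel) k30
    k31)))
    (chk_c (l := [6]) (a' := 7) rfl rfl (by decide +kernel) (chk_c (l := [6, 6]) (a' := 7) rfl rfl (by decide +kernel) k32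
    (chk_c (l := [6, 7]) (a' := 8) rfl rfl (by decide +kernel) k33
    k34))
    (chk_c (l := [7]) (a' := 8) rfl rfl (by decide +kernel) (chk_c (l := [7, 7]) (a' := 8) rfl rfl (by decide +kernel) k35
    k36)
    (chk_c (l := [8]) (a' := 9) rfl rfl (by decide +kernel) k37
    k38))))))

theorem ckrT : ckr Y0 tb tq = 0 :=
  ckr_c (by decide +kernel) (ckq_c (n' := 2) (a' := 2) rfl rfl (by decide +kernel) (ckq_c (n' := 3) (a' := 2) rfl rfl (by decide +kernel) (ckq_c (n' := 4) (a' := 2) rfl rfl (by decide +kernel) (ckq_c (n' := 5) (a' := 2) rfl rfl (by decide +kernel) q0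
    (ckq_c (n' := 5) (a' := 3) rfl rfl (by decide +kernel) q1
    q2))
    (ckq_c (n' := 4) (a' := 3) rfl rfl (by decide +kernel) (ckq_c (n' := 5) (a' := 3) rfl rfl (by decide +kernel) q3
    q4)
    (ckq_c (n' := 4) (a' := 4) rfl rfl (by decide +kernel) q5
    (ckq_c (n' := 4) (a' := 5) rfl rfl (by decide +kernel) q6
    q7))))
    (ckq_c (n' := 3) (a' := 3) rfl rfl (by decide +kernel) (ckq_c (n' := 4) (a' := 3) rfl rfl (by decide +kernel) (ckq_c (n' := 5) (a' := 3) rfl rfl (by decide +kernel) q8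
    q9)
    (ckq_c (n' := 4) (a' := 4) rfl rfl (by decide +kernel) q10
    (ckq_c (n' := 4) (a' := 5) rfl rfl (by decide +kernel) q11
    q12)))
    (ckq_c (n' := 3) (a' := 4) rfl rfl (by decide +kernel) (ckq_c (n' := 4) (a' := 4) rfl rfl (by decide +kernel) q13
    q14)
    (ckq_c (n' := 3) (a' := 5) rfl rfl (by decide +kernel) q15
    (ckq_c (n' := 3) (a' := 6) rfl rfl (by decide +kernel) q16
    (ckq_c (n' := 3) (a' := 7) rfl rfl (by decide +kernel) q17
    q18))))))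
    (ckq_c (n' := 2) (a' := 3) rfl rfl (by decide +kernel) (ckq_c (n' := 3) (a' := 3) rfl rfl (by decide +kernel) (ckq_c (n' := 4) (a' := 3) rfl rfl (by decide +kernel) q19
    (ckq_c (n' := 4) (a' := 4) rfl rfl (by decide +kernel) q20
    q21))
    (ckq_c (n' := 3) (a' := 4) rfl rfl (by decide +kernel) (ckq_c (n' := 4) (a' := 4) rfl rfl (by decide +kernel) q22
    q23)
    (ckq_c (n' := 3) (a' := 5) rfl rfl (by decide +kernel) q24
    (ckq_c (n' := 3) (a' := 6) rfl rfl (by decide +kernel) q25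
    q26))))
    (ckq_c (n' := 2) (a' := 4) rfl rfl (by decide +kernel) (ckq_c (n' := 3) (a' := 4) rfl rfl (by decide +kernel) (ckq_c (n' := 4) (a' := 4) rfl rfl (by decide +kernel) q27
    q28)
    (ckq_c (n' := 3) (a' := 5) rfl rfl (by decide +kernel) q29
    (ckq_c (n' := 3) (a' := 6) rfl rfl (by decide +kernel) q30
    q31)))
    (ckq_c (n' := 2) (a' := 5) rfl rfl (by decide +kernel) (ckq_c (n' := 3) (a' := 5) rfl rfl (by decide +kernel) q32
    (ckq_c (n' := 3) (a' := 6) rfl rfl (by decide +kernel) q33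
    q34))
    (ckq_c (n' := 2) (a' := 6) rfl rfl (by decide +kernel) (ckq_c (n' := 3) (a' := 6) rfl rfl (by decide +kernel) q35
    q36)
    (ckq_c (n' := 2) (a' := 7) rfl rfl (by decide +kernel) q37
    q38))))))

end Pool.Agent.Work.MP_82fd4a_nt.P.H
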