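import Pool.Agent.Work.MP_82fd4a_nt.P.H.JT

/-! Jobs. -/

set_option autoImplicit false
set_option linter.all false
set_option maxRecDepth 100000

namespace Pool.Agent.Work.MP_82fd4a_nt.P.H

open P Jt C

noncomputable def w1 : Nat.ble (cv 256 23040 768 J 249 0 1 3 [768] [1024] z0) 329353527296 = true := by decide +kernel
noncomputable def w3 : Nat.ble (cv 256 23040 768 J 248 0 2 3 [768, 768] [1024, 1024] z2) 102441680896 = true := by decide +kernel
noncomputable def w5 : Nat.ble (cv 256 23040 768 J 247 0 3 3 [768, 768, 768] [1024, 1024, 1024] z4) 0 = true := by decide +kernel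
noncomputable def w7 : Nat.ble (cv 256 23040 768 J 246 0 4 3 [768, 768, 768, 768] [1024, 1024, 1024, 1024] z6) 9225109504 = true := by decide +kernel
noncomputable def w9 : Nat.ble (cv 256 23040 768 J 245 0 5 3 [768, 768, 768, 768, 768] [1024, 1024, 1024, 1024, 1024] z8) 0 = true := by decide +kernel
noncomputable def w11 : Nat.ble (cv 256 23040 768 J 244 0 6 3 [768, 768, 768, 768, 768, 768] [1024, 1024, 1024, 1024, 1024, 1024] z10) 923041792 = true := by decide +kernel
noncomputable def w13 : Nat.ble (cv 256 23040 768 J 243 0 7 3 [768, 768, 768, 768, 768, 768, 768] [1024, 1024, 1024, 1024, 1024, 1024, 1024] z12) 1146355712 = true := by decide +kernel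
noncomputable def w15 : Nat.ble (cv 256 23040 768 J 242 0 8 3 [768, 768, 768, 768, 768, 768, 768, 768] [1024, 1024, 1024, 1024, 1024, 1024, 1024, 1024] z14) 357416960 = true := by decide +kernel
noncomputable def w17 : Nat.ble (cv 256 23040 768 J 242 1 9 3 [768, 768, 768, 768, 768, 768, 768, 768, 768] [1024, 1024, 1024, 1024, 1024, 1024, 1024, 1024, 1024] z16) 3719393333 = true := by decide +kernel
noncomputable def w19 : Nat.ble (xq 256 23040 768 J 242 9 [768, 768, 768, 768, 768, 768, 768, 768] [1024, 1024, 1024, 1024, 1024, 1024, 1024, 1024] 30 4 z18) 33596705212 = true := by decide +kernel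
noncomputable def w25 : Nat.ble (xq 256 23040 768 J 243 8 [768, 768, 768, 768, 768, 768, 768] [1024, 1024, 1024, 1024, 1024, 1024, 1024] 31 4 z24) 263839227840 = true := by decide +kernel
noncomputable def w31 : Nat.ble (xq 256 23040 768 J 244 7 [768, 768, 768, 768, 768, 768] [1024, 1024, 1024, 1024, 1024, 1024] 33 4 z30) 1642265202617 = true := by decide +kernel
noncomputable def w37 : Nat.ble (cv 256 23040 768 J 245 1 6 4 [768, 768, 768, 768, 768, 1024] [1024, 1024, 1024, 1024, 1024, 1280] z36) 2717564087548 = true := by decide +kernel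
noncomputable def w39 : Nat.ble (xq 256 23040 768 J 245 6 [768, 768, 768, 768, 768] [1024, 1024, 1024, 1024, 1024] 33 5 z38) 4884880621007 = true := by decide +kernel
noncomputable def w47 : Nat.ble (cv 256 23040 768 J 245 0 5 4 [768, 768, 768, 768, 1024] [1024, 1024, 1024, 1024, 1280] z46) 0 = true := by decide +kernel
noncomputable def w49 : Nat.ble (cv 256 23040 768 J 245 1 6 4 [768, 768, 768, 768, 1024, 1024] [1024, 1024, 1024, 1024, 1280, 1280] z48) 2936992136955 = true := by decide +kernel
noncomputable def w51 : Nat.ble (xq 256 23040 768 J 245 6 [768, 768, 768, 768, 1024] [1024, 1024, 1024, 1024, 1280] 33 5 z50) 3329861771323 = true := by decide +kernel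
noncomputable def w57 : Nat.ble (cv 256 23040 768 J 246 1 5 5 [768, 768, 768, 768, 1280] [1024, 1024, 1024, 1024, 1536] z56) 2468448914432 = true := by decide +kernel
noncomputable def w59 : Nat.ble (xq 256 23040 768 J 246 5 [768, 768, 768, 768] [1024, 1024, 1024, 1024] 34 6 z58) 6736707156203 = true := by decide +kernel
noncomputable def w69 : Nat.ble (cv 256 23040 768 J 246 0 4 4 [768, 768, 768, 1024] [1024, 1024, 1024, 1280] z68) 21371027456 = true := by decide +kernel
noncomputable def w71 : Nat.ble (cv 256 23040 768 J 245 0 5 4 [768, 768, 768, 1024, 1024] [1024, 1024, 1024, 1280, 1280] z70) 3749707776 = true := by decide +kernel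
noncomputable def w73 : Nat.ble (cv 256 23040 768 J 245 1 6 4 [768, 768, 768, 1024, 1024, 1024] [1024, 1024, 1024, 1280, 1280, 1280] z72) 2500924639036 = true := by decide +kernel
noncomputable def w75 : Nat.ble (xq 256 23040 768 J 245 6 [768, 768, 768, 1024, 1024] [1024, 1024, 1024, 1280, 1280] 32 5 z74) 2784848972972 = true := by decide +kernel
noncomputable def w81 : Nat.ble (cv 256 23040 768 J 246 1 5 5 [768, 768, 768, 1024, 1280] [1024, 1024, 1024, 1280, 1536] z80) 1479561426125 = true := by decide +kernel
noncomputable def w83 : Nat.ble (xq 256 23040 768 J 246 5 [768, 768, 768, 1024] [1024, 1024, 1024, 1280] 33 6 z82) 2237205343392 = true := by decide +kernel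

end Pool.Agent.Work.MP_82fd4a_nt.P.H
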