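import Pool.Agent.Work.MP_82fd4a_nt.P.H.JT

/-! Jobs. -/

set_option autoImplicit false
set_option linter.all false
set_option maxRecDepth 100000

namespace Pool.Agent.Work.MP_82fd4a_nt.P.H

open P Jt C

noncomputable def w91 : Nat.ble (cv 256 23040 768 J 247 1 4 5 [768, 768, 768, 1280] [1024, 1024, 1024, 1536] z90) 2416454586055 = true := by decide +kernel
noncomputable def w93 : Nat.ble (cv 256 23040 768 J 247 1 4 6 [768, 768, 768, 1536] [1024, 1024, 1024, 1792] z92) 3588775889718 = true := by decide +kernel
noncomputable def w95 : Nat.ble (xq 256 23040 768 J 247 4 [768, 768, 768] [1024, 1024, 1024] 34 7 z94) 5353679669412 = true := by decide +kernel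
noncomputable def w107 : Nat.ble (cv 256 23040 768 J 247 0 3 4 [768, 768, 1024] [1024, 1024, 1280] z106) 0 = true := by decide +kernel
noncomputable def w109 : Nat.ble (cv 256 23040 768 J 246 0 4 4 [768, 768, 1024, 1024] [1024, 1024, 1280, 1280] z108) 28039970816 = true := by decide +kernel
noncomputable def w111 : Nat.ble (cv 256 23040 768 J 246 1 5 4 [768, 768, 1024, 1024, 1024] [1024, 1024, 1280, 1280, 1280] z110) 4854735353347 = true := by decide +kernel
noncomputable def w113 : Nat.ble (xq 256 23040 768 J 246 5 [768, 768, 1024, 1024] [1024, 1024, 1280, 1280] 34 5 z112) 3599613056415 = true := by decide +kernel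
noncomputable def w119 : Nat.ble (cv 256 23040 768 J 247 1 4 5 [768, 768, 1024, 1280] [1024, 1024, 1280, 1536] z118) 1469095556176 = true := by decide +kernel
noncomputable def w121 : Nat.ble (xq 256 23040 768 J 247 4 [768, 768, 1024] [1024, 1024, 1280] 35 6 z120) 3382480428864 = true := by decide +kernel
noncomputable def w129 : Nat.ble (cv 256 23040 768 J 247 0 3 5 [768, 768, 1280] [1024, 1024, 1536] z128) 0 = true := by decide +kernel
noncomputable def w131 : Nat.ble (cv 256 23040 768 J 247 1 4 5 [768, 768, 1280, 1280] [1024, 1024, 1536, 1536] z130) 1596242098941 = true := by decide +kernel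
noncomputable def w133 : Nat.ble (xq 256 23040 768 J 247 4 [768, 768, 1280] [1024, 1024, 1536] 34 6 z132) 1114723212539 = true := by decide +kernel
noncomputable def w139 : Nat.ble (cv 256 23040 768 J 248 1 3 6 [768, 768, 1536] [1024, 1024, 1792] z138) 4769719775185 = true := by decide +kernel
noncomputable def w141 : Nat.ble (cv 256 23040 768 J 248 1 3 7 [768, 768, 1792] [1024, 1024, 2048] z140) 3477541251886 = true := by decide +kernel

end Pool.Agent.Work.MP_82fd4a_nt.P.H
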