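import Pool.Agent.Work.MP_82fd4a_nt.P.H.JT

/-! Jobs. -/

set_option autoImplicit false
set_option linter.all false
set_option maxRecDepth 100000

namespace Pool.Agent.Work.MP_82fd4a_nt.P.H

open P Jt C

noncomputable def w143 : Nat.ble (xq 256 23040 768 J 248 3 [768, 768] [1024, 1024] 35 8 z142) 10885893327996 = true := by decide +kernel
noncomputable def w157 : Nat.ble (cv 256 23040 768 J 248 0 2 4 [768, 1024] [1024, 1280] z156) 79450603520 = true := by decide +kernel
noncomputable def w159 : Nat.ble (cv 256 23040 768 J 247 0 3 4 [768, 1024, 1024] [1024, 1280, 1280] z158) 0 = true := by decide +kernel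
noncomputable def w161 : Nat.ble (cv 256 23040 768 J 246 0 4 4 [768, 1024, 1024, 1024] [1024, 1280, 1280, 1280] z160) 4433117184 = true := by decide +kernel
noncomputable def w163 : Nat.ble (cv 256 23040 768 J 246 1 5 4 [768, 1024, 1024, 1024, 1024] [1024, 1280, 1280, 1280, 1280] z162) 4412795723360 = true := by decide +kernel
noncomputable def w165 : Nat.ble (xq 256 23040 768 J 246 5 [768, 1024, 1024, 1024] [1024, 1280, 1280, 1280] 33 5 z164) 4663731907568 = true := by decide +kernel
noncomputable def w171 : Nat.ble (cv 256 23040 768 J 247 1 4 5 [768, 1024, 1024, 1280] [1024, 1280, 1280, 1536] z170) 1909624166904 = true := by decide +kernel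
noncomputable def w173 : Nat.ble (xq 256 23040 768 J 247 4 [768, 1024, 1024] [1024, 1280, 1280] 34 6 z172) 4742013858973 = true := by decide +kernel
noncomputable def w181 : Nat.ble (cv 256 23040 768 J 247 0 3 5 [768, 1024, 1280] [1024, 1280, 1536] z180) 0 = true := by decide +kernel
noncomputable def w183 : Nat.ble (cv 256 23040 768 J 247 1 4 5 [768, 1024, 1280, 1280] [1024, 1280, 1536, 1536] z182) 1929230253546 = true := by decide +kernel
noncomputable def w185 : Nat.ble (xq 256 23040 768 J 247 4 [768, 1024, 1280] [1024, 1280, 1536] 34 6 z184) 1372931379090 = true := by decide +kernel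
noncomputable def w191 : Nat.ble (cv 256 23040 768 J 248 1 3 6 [768, 1024, 1536] [1024, 1280, 1792] z190) 978015896314 = true := by decide +kernel
noncomputable def w193 : Nat.ble (xq 256 23040 768 J 248 3 [768, 1024] [1024, 1280] 35 7 z192) 10736491255852 = true := by decide +kernel
noncomputable def w203 : Nat.ble (cv 256 23040 768 J 248 0 2 5 [768, 1280] [1024, 1536] z202) 64912097280 = true := by decide +kernel
noncomputable def w205 : Nat.ble (cv 256 23040 768 J 247 0 3 5 [768, 1280, 1280] [1024, 1536, 1536] z204) 0 = true := by decide +kernel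
noncomputable def w207 : Nat.ble (cv 256 23040 768 J 247 1 4 5 [768, 1280, 1280, 1280] [1024, 1536, 1536, 1536] z206) 2350376084633 = true := by decide +kernel
noncomputable def w209 : Nat.ble (xq 256 23040 768 J 247 4 [768, 1280, 1280] [1024, 1536, 1536] 33 6 z208) 1282346133331 = true := by decide +kernel
noncomputable def w215 : Nat.ble (cv 256 23040 768 J 248 1 3 6 [768, 1280, 1536] [1024, 1536, 1792] z214) 1039412813126 = true := by decide +kernel

end Pool.Agent.Work.MP_82fd4a_nt.P.H
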