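import Pool.Agent.Work.MP_82fd4a_nt.P.H.JT

/-! Jobs. -/

set_option autoImplicit false
set_option linter.all false
set_option maxRecDepth 100000

namespace Pool.Agent.Work.MP_82fd4a_nt.P.H

open P Jt C

noncomputable def w217 : Nat.ble (xq 256 23040 768 J 248 3 [768, 1280] [1024, 1536] 35 7 z216) 4810842418620 = true := by decide +kernel
noncomputable def w225 : Nat.ble (cv 256 23040 768 J 248 0 2 6 [768, 1536] [1024, 1792] z224) 56299094016 = true := by decide +kernel
noncomputable def w227 : Nat.ble (cv 256 23040 768 J 248 1 3 6 [768, 1536, 1536] [1024, 1792, 1792] z226) 3665872471005 = true := by decide +kernel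
noncomputable def w229 : Nat.ble (xq 256 23040 768 J 248 3 [768, 1536] [1024, 1792] 34 7 z228) 9245369605547 = true := by decide +kernel
noncomputable def w235 : Nat.ble (cv 256 23040 768 J 249 1 2 7 [768, 1792] [1024, 2048] z234) 12056162391637 = true := by decide +kernel
noncomputable def w237 : Nat.ble (xq 256 23040 768 J 249 2 [768] [1024] 36 8 z236) 51076988669711 = true := by decide +kernel
noncomputable def w251 : Nat.ble (cv 256 23040 768 J 249 0 1 4 [1024] [1280] z250) 258448818176 = true := by decide +kernel
noncomputable def w253 : Nat.ble (cv 256 23040 768 J 248 0 2 4 [1024, 1024] [1280, 1280] z252) 61447602176 = true := by decide +kernel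
noncomputable def w255 : Nat.ble (cv 256 23040 768 J 247 0 3 4 [1024, 1024, 1024] [1280, 1280, 1280] z254) 14670626816 = true := by decide +kernel
noncomputable def w257 : Nat.ble (cv 256 23040 768 J 246 0 4 4 [1024, 1024, 1024, 1024] [1280, 1280, 1280, 1280] z256) 13780123648 = true := by decide +kernel
noncomputable def w259 : Nat.ble (cv 256 23040 768 J 246 1 5 4 [1024, 1024, 1024, 1024, 1024] [1280, 1280, 1280, 1280, 1280] z258) 3387623250949 = true := by decide +kernel
noncomputable def w261 : Nat.ble (xq 256 23040 768 J 246 5 [1024, 1024, 1024, 1024] [1280, 1280, 1280, 1280] 33 5 z260) 6848957626630 = true := by decide +kernel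
noncomputable def w267 : Nat.ble (cv 256 23040 768 J 247 1 4 5 [1024, 1024, 1024, 1280] [1280, 1280, 1280, 1536] z266) 3596566760156 = true := by decide +kernel
noncomputable def w269 : Nat.ble (xq 256 23040 768 J 247 4 [1024, 1024, 1024] [1280, 1280, 1280] 34 6 z268) 6371845867867 = true := by decide +kernel
noncomputable def w277 : Nat.ble (cv 256 23040 768 J 247 0 3 5 [1024, 1024, 1280] [1280, 1280, 1536] z276) 0 = true := by decide +kernel
noncomputable def w279 : Nat.ble (cv 256 23040 768 J 247 1 4 5 [1024, 1024, 1280, 1280] [1280, 1280, 1536, 1536] z278) 3776937299521 = true := by decide +kernel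
noncomputable def w281 : Nat.ble (xq 256 23040 768 J 247 4 [1024, 1024, 1280] [1280, 1280, 1536] 33 6 z280) 2572375059078 = true := by decide +kernel
noncomputable def w287 : Nat.ble (cv 256 23040 768 J 248 1 3 6 [1024, 1024, 1536] [1280, 1280, 1792] z286) 1393834619414 = true := by decide +kernel

end Pool.Agent.Work.MP_82fd4a_nt.P.H
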