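import Pool.Agent.Work.MP_82fd4a_nt.P.H.JT

/-! Jobs. -/

set_option autoImplicit false
set_option linter.all false
set_option maxRecDepth 100000

namespace Pool.Agent.Work.MP_82fd4a_nt.P.H

open P Jt C

noncomputable def w289 : Nat.ble (xq 256 23040 768 J 248 3 [1024, 1024] [1280, 1280] 35 7 z288) 16378200422526 = true := by decide +kernel
noncomputable def w299 : Nat.ble (cv 256 23040 768 J 248 0 2 5 [1024, 1280] [1280, 1536] z298) 50977570816 = true := by decide +kernel
noncomputable def w301 : Nat.ble (cv 256 23040 768 J 247 0 3 5 [1024, 1280, 1280] [1280, 1536, 1536] z300) 0 = true := by decide +kernel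
noncomputable def w303 : Nat.ble (cv 256 23040 768 J 247 1 4 5 [1024, 1280, 1280, 1280] [1280, 1536, 1536, 1536] z302) 4056893464931 = true := by decide +kernel
noncomputable def w305 : Nat.ble (xq 256 23040 768 J 247 4 [1024, 1280, 1280] [1280, 1536, 1536] 33 6 z304) 3568227171960 = true := by decide +kernel
noncomputable def w311 : Nat.ble (cv 256 23040 768 J 248 1 3 6 [1024, 1280, 1536] [1280, 1536, 1792] z310) 1688492765648 = true := by decide +kernel
noncomputable def w313 : Nat.ble (xq 256 23040 768 J 248 3 [1024, 1280] [1280, 1536] 34 7 z312) 10168314862458 = true := by decide +kernel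
noncomputable def w321 : Nat.ble (cv 256 23040 768 J 248 0 2 6 [1024, 1536] [1280, 1792] z320) 43484446720 = true := by decide +kernel
noncomputable def w323 : Nat.ble (cv 256 23040 768 J 248 1 3 6 [1024, 1536, 1536] [1280, 1792, 1792] z322) 2651708624045 = true := by decide +kernel
noncomputable def w325 : Nat.ble (xq 256 23040 768 J 248 3 [1024, 1536] [1280, 1792] 34 7 z324) 6160095390156 = true := by decide +kernel
noncomputable def w331 : Nat.ble (cv 256 23040 768 J 249 1 2 7 [1024, 1792] [1280, 2048] z330) 10059216263030 = true := by decide +kernel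
noncomputable def w333 : Nat.ble (xq 256 23040 768 J 249 2 [1024] [1280] 36 8 z332) 73122043694939 = true := by decide +kernel
noncomputable def w345 : Nat.ble (cv 256 23040 768 J 249 0 1 5 [1280] [1536] z344) 213670428672 = true := by decide +kernel
noncomputable def w347 : Nat.ble (cv 256 23040 768 J 248 0 2 5 [1280, 1280] [1536, 1536] z346) 42010148864 = true := by decide +kernel
noncomputable def w349 : Nat.ble (cv 256 23040 768 J 247 0 3 5 [1280, 1280, 1280] [1536, 1536, 1536] z348) 8350203904 = true := by decide +kernel
noncomputable def w351 : Nat.ble (cv 256 23040 768 J 247 1 4 5 [1280, 1280, 1280, 1280] [1536, 1536, 1536, 1536] z350) 6119214790147 = true := by decide +kernel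
noncomputable def w353 : Nat.ble (xq 256 23040 768 J 247 4 [1280, 1280, 1280] [1536, 1536, 1536] 32 6 z352) 5925672160799 = true := by decide +kernel
noncomputable def w359 : Nat.ble (cv 256 23040 768 J 248 1 3 6 [1280, 1280, 1536] [1536, 1536, 1792] z358) 3490849777526 = true := by decide +kernel
noncomputable def w361 : Nat.ble (xq 256 23040 768 J 248 3 [1280, 1280] [1536, 1536] 34 7 z360) 11549344677429 = true := by decide +kernel

end Pool.Agent.Work.MP_82fd4a_nt.P.H
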