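import Pool.Agent.Work.MP_82fd4a_nt.P.H.JT

/-! Jobs. -/

set_option autoImplicit false
set_option linter.all false
set_option maxRecDepth 100000

namespace Pool.Agent.Work.MP_82fd4a_nt.P.H

open P Jt C

noncomputable def w369 : Nat.ble (cv 256 23040 768 J 248 0 2 6 [1280, 1536] [1536, 1792] z368) 35964059648 = true := by decide +kernel
noncomputable def w371 : Nat.ble (cv 256 23040 768 J 248 1 3 6 [1280, 1536, 1536] [1536, 1792, 1792] z370) 4481543247467 = true := by decide +kernel
noncomputable def w373 : Nat.ble (xq 256 23040 768 J 248 3 [1280, 1536] [1536, 1792] 33 7 z372) 8447213499961 = true := by decide +kernel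
noncomputable def w379 : Nat.ble (cv 256 23040 768 J 249 1 2 7 [1280, 1792] [1536, 2048] z378) 8204734482088 = true := by decide +kernel
noncomputable def w381 : Nat.ble (xq 256 23040 768 J 249 2 [1280] [1536] 35 8 z380) 69455471452756 = true := by decide +kernel
noncomputable def w391 : Nat.ble (cv 256 23040 768 J 249 0 1 6 [1536] [1792] z390) 182821322752 = true := by decide +kernel
noncomputable def w393 : Nat.ble (cv 256 23040 768 J 248 0 2 6 [1536, 1536] [1792, 1792] z392) 31049908224 = true := by decide +kernel
noncomputable def w395 : Nat.ble (cv 256 23040 768 J 248 1 3 6 [1536, 1536, 1536] [1792, 1792, 1792] z394) 9182978394573 = true := by decide +kernel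
noncomputable def w397 : Nat.ble (xq 256 23040 768 J 248 3 [1536, 1536] [1792, 1792] 33 7 z396) 20293733639879 = true := by decide +kernel
noncomputable def w403 : Nat.ble (cv 256 23040 768 J 249 1 2 7 [1536, 1792] [1792, 2048] z402) 25106354364937 = true := by decide +kernel
noncomputable def w405 : Nat.ble (xq 256 23040 768 J 249 2 [1536] [1792] 35 8 z404) 108854642473296 = true := by decide +kernel
noncomputable def w413 : Nat.ble (cv 256 23040 768 J 249 0 1 7 [1792] [2048] z412) 160289521664 = true := by decide +kernel
noncomputable def w415 : Nat.ble (cv 256 23040 768 J 249 1 2 7 [1792, 1792] [2048, 2048] z414) 34915378733434 = true := by decide +kernel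
noncomputable def w417 : Nat.ble (xq 256 23040 768 J 249 2 [1792] [2048] 34 8 z416) 179410341849792 = true := by decide +kernel
noncomputable def w423 : Nat.ble (cv 256 23040 768 J 250 1 1 8 [2048] [2304] z422) 198118152298240 = true := by decide +kernel
noncomputable def w425 : Nat.ble (cv 256 23040 768 J 250 1 1 9 [2304] [2560] z424) 183150704350464 = true := by decide +kernel
noncomputable def w427 : Nat.ble (xq 256 23040 768 J 250 1 [] [] 36 10 z426) 3144353599137152 = true := by decide +kernel

end Pool.Agent.Work.MP_82fd4a_nt.P.H
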