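import Pool.Agent.Work.MP_82fd4a_nt.P.KCo
import Pool.Agent.Work.MP_82fd4a_nt.P.H.V0
import Pool.Agent.Work.MP_82fd4a_nt.P.H.V1
import Pool.Agent.Work.MP_82fd4a_nt.P.H.V2
import Pool.Agent.Work.MP_82fd4a_nt.P.H.V3
import Pool.Agent.Work.MP_82fd4a_nt.P.H.V4
import Pool.Agent.Work.MP_82fd4a_nt.P.H.V5

/-! Jobs. -/

set_option autoImplicit false
set_option linter.all false
set_option maxRecDepth 100000

namespace Pool.Agent.Work.MP_82fd4a_nt.P.H

open P Jt C

theorem w21 : Nat.ble (xq 256 23040 768 J 242 9 [768, 768, 768, 768, 768, 768, 768, 768] [1024, 1024, 1024, 1024, 1024, 1024, 1024, 1024] 31 3 z20) 37316098545 = true :=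
  xq_succ (k := 30) (c' := 4) (l := [768, 768, 768, 768, 768, 768, 768, 768, 768]) (h := [1024, 1024, 1024, 1024, 1024, 1024, 1024, 1024, 1024]) (a := z16) (b := z18) rfl rfl (by decide +kernel) (by decide +kernel)
    (by decide +kernel) (by decide +kernel) w17 w19 (by decide +kernel)
theorem w23 : Nat.ble (cv 256 23040 768 J 243 1 8 3 [768, 768, 768, 768, 768, 768, 768, 768] [1024, 1024, 1024, 1024, 1024, 1024, 1024, 1024] z22) 37673515505 = true :=
  cv_exp (f := 242) (n' := 9) (k := 31) (a := z14) (b := z20) rfl rfl (by decide +kernel) (by decide +kernel) (by decide +kernel)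
    (by decide +kernel) w15 w21 (by decide +kernel)
theorem w27 : Nat.ble (xq 256 23040 768 J 243 8 [768, 768, 768, 768, 768, 768, 768] [1024, 1024, 1024, 1024, 1024, 1024, 1024] 32 3 z26) 301512743345 = true :=
  xq_succ (k := 31) (c' := 4) (l := [768, 768, 768, 768, 768, 768, 768, 768]) (h := [1024, 1024, 1024, 1024, 1024, 1024, 1024, 1024]) (a := z22) (b := z24) rfl rfl (by decide +kernel) (by decide +kernel)
    (by decide +kernel) (by decide +kernel) w23 w25 (by decide +kernel)
theorem w29 : Nat.ble (cv 256 23040 768 J 244 1 7 3 [768, 768, 768, 768, 768, 768, 768] [1024, 1024, 1024, 1024, 1024, 1024, 1024] z28) 302659099057 = true :=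
  cv_exp (f := 243) (n' := 8) (k := 32) (a := z12) (b := z26) rfl rfl (by decide +kernel) (by decide +kernel) (by decide +kernel)
    (by decide +kernel) w13 w27 (by decide +kernel)
theorem w33 : Nat.ble (xq 256 23040 768 J 244 7 [768, 768, 768, 768, 768, 768] [1024, 1024, 1024, 1024, 1024, 1024] 34 3 z32) 1944924301674 = true :=
  xq_succ (k := 33) (c' := 4) (l := [768, 768, 768, 768, 768, 768, 768]) (h := [1024, 1024, 1024, 1024, 1024, 1024, 1024]) (a := z28) (b := z30) rfl rfl (by decide +kernel) (by decide +kernel)
    (by decide +kernel) (by decide +kernel) w29 w31 (by decide +kernel)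
theorem w35 : Nat.ble (cv 256 23040 768 J 245 1 6 3 [768, 768, 768, 768, 768, 768] [1024, 1024, 1024, 1024, 1024, 1024] z34) 1945847343466 = true :=
  cv_exp (f := 244) (n' := 7) (k := 34) (a := z10) (b := z32) rfl rfl (by decide +kernel) (by decide +kernel) (by decide +kernel)
    (by decide +kernel) w11 w33 (by decide +kernel)
theorem w41 : Nat.ble (xq 256 23040 768 J 245 6 [768, 768, 768, 768, 768] [1024, 1024, 1024, 1024, 1024] 34 4 z40) 7602444708555 = true :=
  xq_succ (k := 33) (c' := 5) (l := [768, 768, 768, 768, 768, 1024]) (h := [1024, 1024, 1024, 1024, 1024, 1280]) (a := z36) (b := z38) rfl rfl (by decide +kernel) (by decide +kernel)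
    (by decide +kernel) (by decide +kernel) w37 w39 (by decide +kernel)
theorem w43 : Nat.ble (xq 256 23040 768 J 245 6 [768, 768, 768, 768, 768] [1024, 1024, 1024, 1024, 1024] 35 3 z42) 9548292052021 = true :=
  xq_succ (k := 34) (c' := 4) (l := [768, 768, 768, 768, 768, 768]) (h := [1024, 1024, 1024, 1024, 1024, 1024]) (a := z34) (b := z40) rfl rfl (by decide +kernel) (by decide +kernel)
    (by decide +kernel) (by decide +kernel) w35 w41 (by decide +kernel)
theorem w45 : Nat.ble (cv 256 23040 768 J 246 1 5 3 [768, 768, 768, 768, 768] [1024, 1024, 1024, 1024, 1024] z44) 9548292052021 = true :=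
  cv_exp (f := 245) (n' := 6) (k := 35) (a := z8) (b := z42) rfl rfl (by decide +kernel) (by decide +kernel) (by decide +kernel)
    (by decide +kernel) w9 w43 (by decide +kernel)
theorem w53 : Nat.ble (xq 256 23040 768 J 245 6 [768, 768, 768, 768, 1024] [1024, 1024, 1024, 1024, 1280] 34 4 z52) 6266853908278 = true :=
  xq_succ (k := 33) (c' := 5) (l := [768, 768, 768, 768, 1024, 1024]) (h := [1024, 1024, 1024, 1024, 1280, 1280]) (a := z48) (b := z50) rfl rfl (by decide +kernel) (by decide +kernel)
    (by decide +kernel) (by decide +kernel) w49 w51 (by decide +kernel)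
theorem w55 : Nat.ble (cv 256 23040 768 J 246 1 5 4 [768, 768, 768, 768, 1024] [1024, 1024, 1024, 1024, 1280] z54) 6266853908278 = true :=
  cv_exp (f := 245) (n' := 6) (k := 34) (a := z46) (b := z52) rfl rfl (by decide +kernel) (by decide +kernel) (by decide +kernel)
    (by decide +kernel) w47 w53 (by decide +kernel)
theorem w61 : Nat.ble (xq 256 23040 768 J 246 5 [768, 768, 768, 768] [1024, 1024, 1024, 1024] 35 5 z60) 9205156070635 = true :=
  xq_succ (k := 34) (c' := 6) (l := [768, 768, 768, 768, 1280]) (h := [1024, 1024, 1024, 1024, 1536]) (a := z56) (b := z58) rfl rfl (by decide +kernel) (by decide +kernel)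
    (by decide +kernel) (by decide +kernel) w57 w59 (by decide +kernel)
theorem w63 : Nat.ble (xq 256 23040 768 J 246 5 [768, 768, 768, 768] [1024, 1024, 1024, 1024] 36 4 z62) 15472009978913 = true :=
  xq_succ (k := 35) (c' := 5) (l := [768, 768, 768, 768, 1024]) (h := [1024, 1024, 1024, 1024, 1280]) (a := z54) (b := z60) rfl rfl (by decide +kernel) (by decide +kernel)
    (by decide +kernel) (by decide +kernel) w55 w61 (by decide +kernel)
theorem w65 : Nat.ble (xq 256 23040 768 J 246 5 [768, 768, 768, 768] [1024, 1024, 1024, 1024] 37 3 z64) 25020302030934 = true :=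
  xq_succ (k := 36) (c' := 4) (l := [768, 768, 768, 768, 768]) (h := [1024, 1024, 1024, 1024, 1024]) (a := z44) (b := z62) rfl rfl (by decide +kernel) (by decide +kernel)
    (by decide +kernel) (by decide +kernel) w45 w63 (by decide +kernel)
theorem w67 : Nat.ble (cv 256 23040 768 J 247 1 4 3 [768, 768, 768, 768] [1024, 1024, 1024, 1024] z66) 25029527140438 = true :=
  cv_exp (f := 246) (n' := 5) (k := 37) (a := z6) (b := z64) rfl rfl (by decide +kernel) (by decide +kernel) (by decide +kernel)
    (by decide +kernel) w7 w65 (by decide +kernel)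
theorem w77 : Nat.ble (xq 256 23040 768 J 245 6 [768, 768, 768, 1024, 1024] [1024, 1024, 1024, 1280, 1280] 33 4 z76) 5285773612008 = true :=
  xq_succ (k := 32) (c' := 5) (l := [768, 768, 768, 1024, 1024, 1024]) (h := [1024, 1024, 1024, 1280, 1280, 1280]) (a := z72) (b := z74) rfl rfl (by decide +kernel) (by decide +kernel)
    (by decide +kernel) (by decide +kernel) w73 w75 (by decide +kernel)
theorem w79 : Nat.ble (cv 256 23040 768 J 246 1 5 4 [768, 768, 768, 1024, 1024] [1024, 1024, 1024, 1280, 1280] z78) 5289523319784 = true :=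
  cv_exp (f := 245) (n' := 6) (k := 33) (a := z70) (b := z76) rfl rfl (by decide +kernel) (by decide +kernel) (by decide +kernel)
    (by decide +kernel) w71 w77 (by decide +kernel)
theorem w85 : Nat.ble (xq 256 23040 768 J 246 5 [768, 768, 768, 1024] [1024, 1024, 1024, 1280] 34 5 z84) 3716766769517 = true :=
  xq_succ (k := 33) (c' := 6) (l := [768, 768, 768, 1024, 1280]) (h := [1024, 1024, 1024, 1280, 1536]) (a := z80) (b := z82) rfl rfl (by decide +kernel) (by decide +kernel)
    (by decide +kernel) (by decide +kernel) w81 w83 (by decide +kernel)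
theorem w87 : Nat.ble (xq 256 23040 768 J 246 5 [768, 768, 768, 1024] [1024, 1024, 1024, 1280] 35 4 z86) 9006290089301 = true :=
  xq_succ (k := 34) (c' := 5) (l := [768, 768, 768, 1024, 1024]) (h := [1024, 1024, 1024, 1280, 1280]) (a := z78) (b := z84) rfl rfl (by decide +kernel) (by decide +kernel)
    (by decide +kernel) (by decide +kernel) w79 w85 (by decide +kernel)
theorem w89 : Nat.ble (cv 256 23040 768 J 247 1 4 4 [768, 768, 768, 1024] [1024, 1024, 1024, 1280] z88) 9027661116757 = true :=
  cv_exp (f := 246) (n' := 5) (k := 35) (a := z68) (b := z86) rfl rfl (by decide +kernel) (by decide +kernel) (by decide +kernel)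
    (by decide +kernel) w69 w87 (by decide +kernel)
theorem w97 : Nat.ble (xq 256 23040 768 J 247 4 [768, 768, 768] [1024, 1024, 1024] 35 6 z96) 8942455559130 = true :=
  xq_succ (k := 34) (c' := 7) (l := [768, 768, 768, 1536]) (h := [1024, 1024, 1024, 1792]) (a := z92) (b := z94) rfl rfl (by decide +kernel) (by decide +kernel)
    (by decide +kernel) (by decide +kernel) w93 w95 (by decide +kernel)
theorem w99 : Nat.ble (xq 256 23040 768 J 247 4 [768, 768, 768] [1024, 1024, 1024] 36 5 z98) 11358910145185 = true :=
  xq_succ (k := 35) (c' := 6) (l := [768, 768, 768, 1280]) (h := [1024, 1024, 1024, 1536]) (a := z90) (b := z96) rfl rfl (by decide +kernel) (by decide +kernel)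
    (by decide +kernel) (by decide +kernel) w91 w97 (by decide +kernel)
theorem w101 : Nat.ble (xq 256 23040 768 J 247 4 [768, 768, 768] [1024, 1024, 1024] 37 4 z100) 20386571261942 = true :=
  xq_succ (k := 36) (c' := 5) (l := [768, 768, 768, 1024]) (h := [1024, 1024, 1024, 1280]) (a := z88) (b := z98) rfl rfl (by decide +kernel) (by decide +kernel)
    (by decide +kernel) (by decide +kernel) w89 w99 (by decide +kernel)
theorem w103 : Nat.ble (xq 256 23040 768 J 247 4 [768, 768, 768] [1024, 1024, 1024] 38 3 z102) 45416098402380 = true :=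
  xq_succ (k := 37) (c' := 4) (l := [768, 768, 768, 768]) (h := [1024, 1024, 1024, 1024]) (a := z66) (b := z100) rfl rfl (by decide +kernel) (by decide +kernel)
    (by decide +kernel) (by decide +kernel) w67 w101 (by decide +kernel)
theorem w105 : Nat.ble (cv 256 23040 768 J 248 1 3 3 [768, 768, 768] [1024, 1024, 1024] z104) 45416098402380 = true :=
  cv_exp (f := 247) (n' := 4) (k := 38) (a := z4) (b := z102) rfl rfl (by decide +kernel) (by decide +kernel) (by decide +kernel)
    (by decide +kernel) w5 w103 (by decide +kernel)
theorem w115 : Nat.ble (xq 256 23040 768 J 246 5 [768, 768, 1024, 1024] [1024, 1024, 1280, 1280] 35 4 z114) 8454348409762 = true :=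
  xq_succ (k := 34) (c' := 5) (l := [768, 768, 1024, 1024, 1024]) (h := [1024, 1024, 1280, 1280, 1280]) (a := z110) (b := z112) rfl rfl (by decide +kernel) (by decide +kernel)
    (by decide +kernel) (by decide +kernel) w111 w113 (by decide +kernel)
theorem w117 : Nat.ble (cv 256 23040 768 J 247 1 4 4 [768, 768, 1024, 1024] [1024, 1024, 1280, 1280] z116) 8482388380578 = true :=
  cv_exp (f := 246) (n' := 5) (k := 35) (a := z108) (b := z114) rfl rfl (by decide +kernel) (by decide +kernel) (by decide +kernel)
    (by decide +kernel) w109 w115 (by decide +kernel)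
theorem w123 : Nat.ble (xq 256 23040 768 J 247 4 [768, 768, 1024] [1024, 1024, 1280] 36 5 z122) 4851575985040 = true :=
  xq_succ (k := 35) (c' := 6) (l := [768, 768, 1024, 1280]) (h := [1024, 1024, 1280, 1536]) (a := z118) (b := z120) rfl rfl (by decide +kernel) (by decide +kernel)
    (by decide +kernel) (by decide +kernel) w119 w121 (by decide +kernel)
theorem w125 : Nat.ble (xq 256 23040 768 J 247 4 [768, 768, 1024] [1024, 1024, 1280] 37 4 z124) 13333964365618 = true :=
  xq_succ (k := 36) (c' := 5) (l := [768, 768, 1024, 1024]) (h := [1024, 1024, 1280, 1280]) (a := z116) (b := z122) rfl rfl (by decide +kernel) (by decide +kernel)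
    (by decide +kernel) (by decide +kernel) w117 w123 (by decide +kernel)
theorem w127 : Nat.ble (cv 256 23040 768 J 248 1 3 4 [768, 768, 1024] [1024, 1024, 1280] z126) 13333964365618 = true :=
  cv_exp (f := 247) (n' := 4) (k := 37) (a := z106) (b := z124) rfl rfl (by decide +kernel) (by decide +kernel) (by decide +kernel)
    (by decide +kernel) w107 w125 (by decide +kernel)
theorem w135 : Nat.ble (xq 256 23040 768 J 247 4 [768, 768, 1280] [1024, 1024, 1536] 35 5 z134) 2710965311480 = true :=
  xq_succ (k := 34) (c' := 6) (l := [768, 768, 1280, 1280]) (h := [1024, 1024, 1536, 1536]) (a := z130) (b := z132) rfl rfl (by decide +kernel) (by decide +kernel)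
    (by decide +kernel) (by decide +kernel) w131 w133 (by decide +kernel)
theorem w137 : Nat.ble (cv 256 23040 768 J 248 1 3 5 [768, 768, 1280] [1024, 1024, 1536] z136) 2710965311480 = true :=
  cv_exp (f := 247) (n' := 4) (k := 35) (a := z128) (b := z134) rfl rfl (by decide +kernel) (by decide +kernel) (by decide +kernel)
    (by decide +kernel) w129 w135 (by decide +kernel)
theorem w145 : Nat.ble (xq 256 23040 768 J 248 3 [768, 768] [1024, 1024] 36 7 z144) 14363434579882 = true :=
  xq_succ (k := 35) (c' := 8) (l := [768, 768, 1792]) (h := [1024, 1024, 2048]) (a := z140) (b := z142) rfl rfl (by decide +kernel) (by decide +kernel)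
    (by decide +kernel) (by decide +kernel) w141 w143 (by decide +kernel)
theorem w147 : Nat.ble (xq 256 23040 768 J 248 3 [768, 768] [1024, 1024] 37 6 z146) 19133154355067 = true :=
  xq_succ (k := 36) (c' := 7) (l := [768, 768, 1536]) (h := [1024, 1024, 1792]) (a := z138) (b := z144) rfl rfl (by decide +kernel) (by decide +kernel)
    (by decide +kernel) (by decide +kernel) w139 w145 (by decide +kernel)
theorem w149 : Nat.ble (xq 256 23040 768 J 248 3 [768, 768] [1024, 1024] 38 5 z148) 21844119666547 = true :=
  xq_succ (k := 37) (c' := 6) (l := [768, 768, 1280]) (h := [1024, 1024, 1536]) (a := z136) (b := z146) rfl rfl (by decide +kernel) (by decide +kernel)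
    (by decide +kernel) (by decide +kernel) w137 w147 (by decide +kernel)
theorem w151 : Nat.ble (xq 256 23040 768 J 248 3 [768, 768] [1024, 1024] 39 4 z150) 35178084032165 = true :=
  xq_succ (k := 38) (c' := 5) (l := [768, 768, 1024]) (h := [1024, 1024, 1280]) (a := z126) (b := z148) rfl rfl (by decide +kernel) (by decide +kernel)
    (by decide +kernel) (by decide +kernel) w127 w149 (by decide +kernel)
theorem w153 : Nat.ble (xq 256 23040 768 J 248 3 [768, 768] [1024, 1024] 40 3 z152) 80594182434545 = true :=
  xq_succ (k := 39) (c' := 4) (l := [768, 768, 768]) (h := [1024, 1024, 1024]) (a := z104) (b := z150) rfl rfl (by decide +kernel) (by decide +kernel)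
    (by decide +kernel) (by decide +kernel) w105 w151 (by decide +kernel)
theorem w155 : Nat.ble (cv 256 23040 768 J 249 1 2 3 [768, 768] [1024, 1024] z154) 80696624115441 = true :=
  cv_exp (f := 248) (n' := 3) (k := 40) (a := z2) (b := z152) rfl rfl (by decide +kernel) (by decide +kernel) (by decide +kernel)
    (by decide +kernel) w3 w153 (by decide +kernel)
theorem w167 : Nat.ble (xq 256 23040 768 J 246 5 [768, 1024, 1024, 1024] [1024, 1280, 1280, 1280] 34 4 z166) 9076527630928 = true :=
  xq_succ (k := 33) (c' := 5) (l := [768, 1024, 1024, 1024, 1024]) (h := [1024, 1280, 1280, 1280, 1280]) (a := z162) (b := z164) rfl rfl (by decide +kernel) (by decide +kernel)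
    (by decide +kernel) (by decide +kernel) w163 w165 (by decide +kernel)
theorem w169 : Nat.ble (cv 256 23040 768 J 247 1 4 4 [768, 1024, 1024, 1024] [1024, 1280, 1280, 1280] z168) 9080960748112 = true :=
  cv_exp (f := 246) (n' := 5) (k := 34) (a := z160) (b := z166) rfl rfl (by decide +kernel) (by decide +kernel) (by decide +kernel)
    (by decide +kernel) w161 w167 (by decide +kernel)
theorem w175 : Nat.ble (xq 256 23040 768 J 247 4 [768, 1024, 1024] [1024, 1280, 1280] 35 5 z174) 6651638025877 = true :=
  xq_succ (k := 34) (c' := 6) (l := [768, 1024, 1024, 1280]) (h := [1024, 1280, 1280, 1536]) (a := z170) (b := z172) rfl rfl (by decide +kernel) (by decide +kernel)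
    (by decide +kernel) (by decide +kernel) w171 w173 (by decide +kernel)
theorem w177 : Nat.ble (xq 256 23040 768 J 247 4 [768, 1024, 1024] [1024, 1280, 1280] 36 4 z176) 15732598773989 = true :=
  xq_succ (k := 35) (c' := 5) (l := [768, 1024, 1024, 1024]) (h := [1024, 1280, 1280, 1280]) (a := z168) (b := z174) rfl rfl (by decide +kernel) (by decide +kernel)
    (by decide +kernel) (by decide +kernel) w169 w175 (by decide +kernel)
theorem w179 : Nat.ble (cv 256 23040 768 J 248 1 3 4 [768, 1024, 1024] [1024, 1280, 1280] z178) 15732598773989 = true :=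
  cv_exp (f := 247) (n' := 4) (k := 36) (a := z158) (b := z176) rfl rfl (by decide +kernel) (by decide +kernel) (by decide +kernel)
    (by decide +kernel) w159 w177 (by decide +kernel)
theorem w187 : Nat.ble (xq 256 23040 768 J 247 4 [768, 1024, 1280] [1024, 1280, 1536] 35 5 z186) 3302161632636 = true :=
  xq_succ (k := 34) (c' := 6) (l := [768, 1024, 1280, 1280]) (h := [1024, 1280, 1536, 1536]) (a := z182) (b := z184) rfl rfl (by decide +kernel) (by decide +kernel)
    (by decide +kernel) (by decide +kernel) w183 w185 (by decide +kernel)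
theorem w189 : Nat.ble (cv 256 23040 768 J 248 1 3 5 [768, 1024, 1280] [1024, 1280, 1536] z188) 3302161632636 = true :=
  cv_exp (f := 247) (n' := 4) (k := 35) (a := z180) (b := z186) rfl rfl (by decide +kernel) (by decide +kernel) (by decide +kernel)
    (by decide +kernel) w181 w187 (by decide +kernel)
theorem w195 : Nat.ble (xq 256 23040 768 J 248 3 [768, 1024] [1024, 1280] 36 6 z194) 11714507152166 = true :=
  xq_succ (k := 35) (c' := 7) (l := [768, 1024, 1536]) (h := [1024, 1280, 1792]) (a := z190) (b := z192) rfl rfl (by decide +kernel) (by decide +kernel)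
    (by decide +kernel) (by decide +kernel) w191 w193 (by decide +kernel)
theorem w197 : Nat.ble (xq 256 23040 768 J 248 3 [768, 1024] [1024, 1280] 37 5 z196) 15016668784802 = true :=
  xq_succ (k := 36) (c' := 6) (l := [768, 1024, 1280]) (h := [1024, 1280, 1536]) (a := z188) (b := z194) rfl rfl (by decide +kernel) (by decide +kernel)
    (by decide +kernel) (by decide +kernel) w189 w195 (by decide +kernel)
theorem w199 : Nat.ble (xq 256 23040 768 J 248 3 [768, 1024] [1024, 1280] 38 4 z198) 30749267558791 = true :=
  xq_succ (k := 37) (c' := 5) (l := [768, 1024, 1024]) (h := [1024, 1280, 1280]) (a := z178) (b := z196) rfl rfl (by decide +kernel) (by decide +kernel)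
    (by decide +kernel) (by decide +kernel) w179 w197 (by decide +kernel)
theorem w201 : Nat.ble (cv 256 23040 768 J 249 1 2 4 [768, 1024] [1024, 1280] z200) 30828718162311 = true :=
  cv_exp (f := 248) (n' := 3) (k := 38) (a := z156) (b := z198) rfl rfl (by decide +kernel) (by decide +kernel) (by decide +kernel)
    (by decide +kernel) w157 w199 (by decide +kernel)
theorem w211 : Nat.ble (xq 256 23040 768 J 247 4 [768, 1280, 1280] [1024, 1536, 1536] 34 5 z210) 3632722217964 = true :=
  xq_succ (k := 33) (c' := 6) (l := [768, 1280, 1280, 1280]) (h := [1024, 1536, 1536, 1536]) (a := z206) (b := z208) rfl rfl (by decide +kernel) (by decide +kernel)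
    (by decide +kernel) (by decide +kernel) w207 w209 (by decide +kernel)
theorem w213 : Nat.ble (cv 256 23040 768 J 248 1 3 5 [768, 1280, 1280] [1024, 1536, 1536] z212) 3632722217964 = true :=
  cv_exp (f := 247) (n' := 4) (k := 34) (a := z204) (b := z210) rfl rfl (by decide +kernel) (by decide +kernel) (by decide +kernel)
    (by decide +kernel) w205 w211 (by decide +kernel)
theorem w219 : Nat.ble (xq 256 23040 768 J 248 3 [768, 1280] [1024, 1536] 36 6 z218) 5850255231746 = true :=
  xq_succ (k := 35) (c' := 7) (l := [768, 1280, 1536]) (h := [1024, 1536, 1792]) (a := z214) (b := z216) rfl rfl (by decide +kernel) (by decide +kernel)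
    (by decide +kernel) (by decide +kernel) w215 w217 (by decide +kernel)
theorem w221 : Nat.ble (xq 256 23040 768 J 248 3 [768, 1280] [1024, 1536] 37 5 z220) 9482977449710 = true :=
  xq_succ (k := 36) (c' := 6) (l := [768, 1280, 1280]) (h := [1024, 1536, 1536]) (a := z212) (b := z218) rfl rfl (by decide +kernel) (by decide +kernel)
    (by decide +kernel) (by decide +kernel) w213 w219 (by decide +kernel)
theorem w223 : Nat.ble (cv 256 23040 768 J 249 1 2 5 [768, 1280] [1024, 1536] z222) 9547889546990 = true :=
  cv_exp (f := 248) (n' := 3) (k := 37) (a := z202) (b := z220) rfl rfl (by decide +kernel) (by decide +kernel) (by decide +kernel)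
    (by decide +kernel) w203 w221 (by decide +kernel)
theorem w231 : Nat.ble (xq 256 23040 768 J 248 3 [768, 1536] [1024, 1792] 35 6 z230) 12911242076552 = true :=
  xq_succ (k := 34) (c' := 7) (l := [768, 1536, 1536]) (h := [1024, 1792, 1792]) (a := z226) (b := z228) rfl rfl (by decide +kernel) (by decide +kernel)
    (by decide +kernel) (by decide +kernel) w227 w229 (by decide +kernel)
theorem w233 : Nat.ble (cv 256 23040 768 J 249 1 2 6 [768, 1536] [1024, 1792] z232) 12967541170568 = true :=
  cv_exp (f := 248) (n' := 3) (k := 35) (a := z224) (b := z230) rfl rfl (by decide +kernel) (by decide +kernel) (by decide +kernel)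
    (by decide +kernel) w225 w231 (by decide +kernel)
theorem w239 : Nat.ble (xq 256 23040 768 J 249 2 [768] [1024] 37 7 z238) 63133151061348 = true :=
  xq_succ (k := 36) (c' := 8) (l := [768, 1792]) (h := [1024, 2048]) (a := z234) (b := z236) rfl rfl (by decide +kernel) (by decide +kernel)
    (by decide +kernel) (by decide +kernel) w235 w237 (by decide +kernel)
theorem w241 : Nat.ble (xq 256 23040 768 J 249 2 [768] [1024] 38 6 z240) 76100692231916 = true :=
  xq_succ (k := 37) (c' := 7) (l := [768, 1536]) (h := [1024, 1792]) (a := z232) (b := z238) rfl rfl (by decide +kernel) (by decide +kernel)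
    (by decide +kernel) (by decide +kernel) w233 w239 (by decide +kernel)
theorem w243 : Nat.ble (xq 256 23040 768 J 249 2 [768] [1024] 39 5 z242) 85648581778906 = true :=
  xq_succ (k := 38) (c' := 6) (l := [768, 1280]) (h := [1024, 1536]) (a := z222) (b := z240) rfl rfl (by decide +kernel) (by decide +kernel)
    (by decide +kernel) (by decide +kernel) w223 w241 (by decide +kernel)
theorem w245 : Nat.ble (xq 256 23040 768 J 249 2 [768] [1024] 40 4 z244) 116477299941217 = true :=
  xq_succ (k := 39) (c' := 5) (l := [768, 1024]) (h := [1024, 1280]) (a := z200) (b := z242) rfl rfl (by decide +kernel) (by decide +kernel)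
    (by decide +kernel) (by decide +kernel) w201 w243 (by decide +kernel)
theorem w247 : Nat.ble (xq 256 23040 768 J 249 2 [768] [1024] 41 3 z246) 197173924056658 = true :=
  xq_succ (k := 40) (c' := 4) (l := [768, 768]) (h := [1024, 1024]) (a := z154) (b := z244) rfl rfl (by decide +kernel) (by decide +kernel)
    (by decide +kernel) (by decide +kernel) w155 w245 (by decide +kernel)
theorem w249 : Nat.ble (cv 256 23040 768 J 250 1 1 3 [768] [1024] z248) 197503277583954 = true :=
  cv_exp (f := 249) (n' := 2) (k := 41) (a := z0) (b := z246) rfl rfl (by decide +kernel) (by decide +kernel) (by decide +kernel)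
    (by decide +kernel) w1 w247 (by decide +kernel)
theorem w263 : Nat.ble (xq 256 23040 768 J 246 5 [1024, 1024, 1024, 1024] [1280, 1280, 1280, 1280] 34 4 z262) 10236580877579 = true :=
  xq_succ (k := 33) (c' := 5) (l := [1024, 1024, 1024, 1024, 1024]) (h := [1280, 1280, 1280, 1280, 1280]) (a := z258) (b := z260) rfl rfl (by decide +kernel) (by decide +kernel)
    (by decide +kernel) (by decide +kernel) w259 w261 (by decide +kernel)
theorem w265 : Nat.ble (cv 256 23040 768 J 247 1 4 4 [1024, 1024, 1024, 1024] [1280, 1280, 1280, 1280] z264) 10250361001227 = true :=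
  cv_exp (f := 246) (n' := 5) (k := 34) (a := z256) (b := z262) rfl rfl (by decide +kernel) (by decide +kernel) (by decide +kernel)
    (by decide +kernel) w257 w263 (by decide +kernel)
theorem w271 : Nat.ble (xq 256 23040 768 J 247 4 [1024, 1024, 1024] [1280, 1280, 1280] 35 5 z270) 9968412628023 = true :=
  xq_succ (k := 34) (c' := 6) (l := [1024, 1024, 1024, 1280]) (h := [1280, 1280, 1280, 1536]) (a := z266) (b := z268) rfl rfl (by decide +kernel) (by decide +kernel)
    (by decide +kernel) (by decide +kernel) w267 w269 (by decide +kernel)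
theorem w273 : Nat.ble (xq 256 23040 768 J 247 4 [1024, 1024, 1024] [1280, 1280, 1280] 36 4 z272) 20218773629250 = true :=
  xq_succ (k := 35) (c' := 5) (l := [1024, 1024, 1024, 1024]) (h := [1280, 1280, 1280, 1280]) (a := z264) (b := z270) rfl rfl (by decide +kernel) (by decide +kernel)
    (by decide +kernel) (by decide +kernel) w265 w271 (by decide +kernel)
theorem w275 : Nat.ble (cv 256 23040 768 J 248 1 3 4 [1024, 1024, 1024] [1280, 1280, 1280] z274) 20233444256066 = true :=
  cv_exp (f := 247) (n' := 4) (k := 36) (a := z254) (b := z272) rfl rfl (by decide +kernel) (by decide +kernel) (by decide +kernel)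
    (by decide +kernel) w255 w273 (by decide +kernel)
theorem w283 : Nat.ble (xq 256 23040 768 J 247 4 [1024, 1024, 1280] [1280, 1280, 1536] 34 5 z282) 6349312358599 = true :=
  xq_succ (k := 33) (c' := 6) (l := [1024, 1024, 1280, 1280]) (h := [1280, 1280, 1536, 1536]) (a := z278) (b := z280) rfl rfl (by decide +kernel) (by decide +kernel)
    (by decide +kernel) (by decide +kernel) w279 w281 (by decide +kernel)
theorem w285 : Nat.ble (cv 256 23040 768 J 248 1 3 5 [1024, 1024, 1280] [1280, 1280, 1536] z284) 6349312358599 = true :=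
  cv_exp (f := 247) (n' := 4) (k := 34) (a := z276) (b := z282) rfl rfl (by decide +kernel) (by decide +kernel) (by decide +kernel)
    (by decide +kernel) w277 w283 (by decide +kernel)
theorem w291 : Nat.ble (xq 256 23040 768 J 248 3 [1024, 1024] [1280, 1280] 36 6 z290) 17772035041940 = true :=
  xq_succ (k := 35) (c' := 7) (l := [1024, 1024, 1536]) (h := [1280, 1280, 1792]) (a := z286) (b := z288) rfl rfl (by decide +kernel) (by decide +kernel)
    (by decide +kernel) (by decide +kernel) w287 w289 (by decide +kernel)
theorem w293 : Nat.ble (xq 256 23040 768 J 248 3 [1024, 1024] [1280, 1280] 37 5 z292) 24121347400539 = true :=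
  xq_succ (k := 36) (c' := 6) (l := [1024, 1024, 1280]) (h := [1280, 1280, 1536]) (a := z284) (b := z290) rfl rfl (by decide +kernel) (by decide +kernel)
    (by decide +kernel) (by decide +kernel) w285 w291 (by decide +kernel)
theorem w295 : Nat.ble (xq 256 23040 768 J 248 3 [1024, 1024] [1280, 1280] 38 4 z294) 44354791656605 = true :=
  xq_succ (k := 37) (c' := 5) (l := [1024, 1024, 1024]) (h := [1280, 1280, 1280]) (a := z274) (b := z292) rfl rfl (by decide +kernel) (by decide +kernel)
    (by decide +kernel) (by decide +kernel) w275 w293 (by decide +kernel)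
theorem w297 : Nat.ble (cv 256 23040 768 J 249 1 2 4 [1024, 1024] [1280, 1280] z296) 44416239258781 = true :=
  cv_exp (f := 248) (n' := 3) (k := 38) (a := z252) (b := z294) rfl rfl (by decide +kernel) (by decide +kernel) (by decide +kernel)
    (by decide +kernel) w253 w295 (by decide +kernel)
theorem w307 : Nat.ble (xq 256 23040 768 J 247 4 [1024, 1280, 1280] [1280, 1536, 1536] 34 5 z306) 7625120636891 = true :=
  xq_succ (k := 33) (c' := 6) (l := [1024, 1280, 1280, 1280]) (h := [1280, 1536, 1536, 1536]) (a := z302) (b := z304) rfl rfl (by decide +kernel) (by decide +kernel)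
    (by decide +kernel) (by decide +kernel) w303 w305 (by decide +kernel)
theorem w309 : Nat.ble (cv 256 23040 768 J 248 1 3 5 [1024, 1280, 1280] [1280, 1536, 1536] z308) 7625120636891 = true :=
  cv_exp (f := 247) (n' := 4) (k := 34) (a := z300) (b := z306) rfl rfl (by decide +kernel) (by decide +kernel) (by decide +kernel)
    (by decide +kernel) w301 w307 (by decide +kernel)
theorem w315 : Nat.ble (xq 256 23040 768 J 248 3 [1024, 1280] [1280, 1536] 35 6 z314) 11856807628106 = true :=
  xq_succ (k := 34) (c' := 7) (l := [1024, 1280, 1536]) (h := [1280, 1536, 1792]) (a := z310) (b := z312) rfl rfl (by decide +kernel) (by decide +kernel)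
    (by decide +kernel) (by decide +kernel) w311 w313 (by decide +kernel)
theorem w317 : Nat.ble (xq 256 23040 768 J 248 3 [1024, 1280] [1280, 1536] 36 5 z316) 19481928264997 = true :=
  xq_succ (k := 35) (c' := 6) (l := [1024, 1280, 1280]) (h := [1280, 1536, 1536]) (a := z308) (b := z314) rfl rfl (by decide +kernel) (by decide +kernel)
    (by decide +kernel) (by decide +kernel) w309 w315 (by decide +kernel)
theorem w319 : Nat.ble (cv 256 23040 768 J 249 1 2 5 [1024, 1280] [1280, 1536] z318) 19532905835813 = true :=
  cv_exp (f := 248) (n' := 3) (k := 36) (a := z298) (b := z316) rfl rfl (by decide +kernel) (by decide +kernel) (by decide +kernel)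
    (by decide +kernel) w299 w317 (by decide +kernel)
theorem w327 : Nat.ble (xq 256 23040 768 J 248 3 [1024, 1536] [1280, 1792] 35 6 z326) 8811804014201 = true :=
  xq_succ (k := 34) (c' := 7) (l := [1024, 1536, 1536]) (h := [1280, 1792, 1792]) (a := z322) (b := z324) rfl rfl (by decide +kernel) (by decide +kernel)
    (by decide +kernel) (by decide +kernel) w323 w325 (by decide +kernel)
theorem w329 : Nat.ble (cv 256 23040 768 J 249 1 2 6 [1024, 1536] [1280, 1792] z328) 8855288460921 = true :=
  cv_exp (f := 248) (n' := 3) (k := 35) (a := z320) (b := z326) rfl rfl (by decide +kernel) (by decide +kernel) (by decide +kernel)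
    (by decide +kernel) w321 w327 (by decide +kernel)
theorem w335 : Nat.ble (xq 256 23040 768 J 249 2 [1024] [1280] 37 7 z334) 83181259957969 = true :=
  xq_succ (k := 36) (c' := 8) (l := [1024, 1792]) (h := [1280, 2048]) (a := z330) (b := z332) rfl rfl (by decide +kernel) (by decide +kernel)
    (by decide +kernel) (by decide +kernel) w331 w333 (by decide +kernel)
theorem w337 : Nat.ble (xq 256 23040 768 J 249 2 [1024] [1280] 38 6 z336) 92036548418890 = true :=
  xq_succ (k := 37) (c' := 7) (l := [1024, 1536]) (h := [1280, 1792]) (a := z328) (b := z334) rfl rfl (by decide +kernel) (by decide +kernel)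
    (by decide +kernel) (by decide +kernel) w329 w335 (by decide +kernel)
theorem w339 : Nat.ble (xq 256 23040 768 J 249 2 [1024] [1280] 39 5 z338) 111569454254703 = true :=
  xq_succ (k := 38) (c' := 6) (l := [1024, 1280]) (h := [1280, 1536]) (a := z318) (b := z336) rfl rfl (by decide +kernel) (by decide +kernel)
    (by decide +kernel) (by decide +kernel) w319 w337 (by decide +kernel)
theorem w341 : Nat.ble (xq 256 23040 768 J 249 2 [1024] [1280] 40 4 z340) 155985693513484 = true :=
  xq_succ (k := 39) (c' := 5) (l := [1024, 1024]) (h := [1280, 1280]) (a := z296) (b := z338) rfl rfl (by decide +kernel) (by decide +kernel)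
    (by decide +kernel) (by decide +kernel) w297 w339 (by decide +kernel)
theorem w343 : Nat.ble (cv 256 23040 768 J 250 1 1 4 [1024] [1280] z342) 156244142331660 = true :=
  cv_exp (f := 249) (n' := 2) (k := 40) (a := z250) (b := z340) rfl rfl (by decide +kernel) (by decide +kernel) (by decide +kernel)
    (by decide +kernel) w251 w341 (by decide +kernel)
theorem w355 : Nat.ble (xq 256 23040 768 J 247 4 [1280, 1280, 1280] [1536, 1536, 1536] 33 5 z354) 12044886950946 = true :=
  xq_succ (k := 32) (c' := 6) (l := [1280, 1280, 1280, 1280]) (h := [1536, 1536, 1536, 1536]) (a := z350) (b := z352) rfl rfl (by decide +kernel) (by decide +kernel)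
    (by decide +kernel) (by decide +kernel) w351 w353 (by decide +kernel)
theorem w357 : Nat.ble (cv 256 23040 768 J 248 1 3 5 [1280, 1280, 1280] [1536, 1536, 1536] z356) 12053237154850 = true :=
  cv_exp (f := 247) (n' := 4) (k := 33) (a := z348) (b := z354) rfl rfl (by decide +kernel) (by decide +kernel) (by decide +kernel)
    (by decide +kernel) w349 w355 (by decide +kernel)
theorem w363 : Nat.ble (xq 256 23040 768 J 248 3 [1280, 1280] [1536, 1536] 35 6 z362) 15040194454955 = true :=
  xq_succ (k := 34) (c' := 7) (l := [1280, 1280, 1536]) (h := [1536, 1536, 1792]) (a := z358) (b := z360) rfl rfl (by decide +kernel) (by decide +kernel)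
    (by decide +kernel) (by decide +kernel) w359 w361 (by decide +kernel)
theorem w365 : Nat.ble (xq 256 23040 768 J 248 3 [1280, 1280] [1536, 1536] 36 5 z364) 27093431609805 = true :=
  xq_succ (k := 35) (c' := 6) (l := [1280, 1280, 1280]) (h := [1536, 1536, 1536]) (a := z356) (b := z362) rfl rfl (by decide +kernel) (by decide +kernel)
    (by decide +kernel) (by decide +kernel) w357 w363 (by decide +kernel)
theorem w367 : Nat.ble (cv 256 23040 768 J 249 1 2 5 [1280, 1280] [1536, 1536] z366) 27135441758669 = true :=
  cv_exp (f := 248) (n' := 3) (k := 36) (a := z346) (b := z364) rfl rfl (by decide +kernel) (by decide +kernel) (by decide +kernel)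
    (by decide +kernel) w347 w365 (by decide +kernel)
theorem w375 : Nat.ble (xq 256 23040 768 J 248 3 [1280, 1536] [1536, 1792] 34 6 z374) 12928756747428 = true :=
  xq_succ (k := 33) (c' := 7) (l := [1280, 1536, 1536]) (h := [1536, 1792, 1792]) (a := z370) (b := z372) rfl rfl (by decide +kernel) (by decide +kernel)
    (by decide +kernel) (by decide +kernel) w371 w373 (by decide +kernel)
theorem w377 : Nat.ble (cv 256 23040 768 J 249 1 2 6 [1280, 1536] [1536, 1792] z376) 12964720807076 = true :=
  cv_exp (f := 248) (n' := 3) (k := 34) (a := z368) (b := z374) rfl rfl (by decide +kernel) (by decide +kernel) (by decide +kernel)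
    (by decide +kernel) w369 w375 (by decide +kernel)
theorem w383 : Nat.ble (xq 256 23040 768 J 249 2 [1280] [1536] 36 7 z382) 77660205934844 = true :=
  xq_succ (k := 35) (c' := 8) (l := [1280, 1792]) (h := [1536, 2048]) (a := z378) (b := z380) rfl rfl (by decide +kernel) (by decide +kernel)
    (by decide +kernel) (by decide +kernel) w379 w381 (by decide +kernel)
theorem w385 : Nat.ble (xq 256 23040 768 J 249 2 [1280] [1536] 37 6 z384) 90624926741920 = true :=
  xq_succ (k := 36) (c' := 7) (l := [1280, 1536]) (h := [1536, 1792]) (a := z376) (b := z382) rfl rfl (by decide +kernel) (by decide +kernel)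
    (by decide +kernel) (by decide +kernel) w377 w383 (by decide +kernel)
theorem w387 : Nat.ble (xq 256 23040 768 J 249 2 [1280] [1536] 38 5 z386) 117760368500589 = true :=
  xq_succ (k := 37) (c' := 6) (l := [1280, 1280]) (h := [1536, 1536]) (a := z366) (b := z384) rfl rfl (by decide +kernel) (by decide +kernel)
    (by decide +kernel) (by decide +kernel) w367 w385 (by decide +kernel)
theorem w389 : Nat.ble (cv 256 23040 768 J 250 1 1 5 [1280] [1536] z388) 117974038929261 = true :=
  cv_exp (f := 249) (n' := 2) (k := 38) (a := z344) (b := z386) rfl rfl (by decide +kernel) (by decide +kernel) (by decide +kernel)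
    (by decide +kernel) w345 w387 (by decide +kernel)
theorem w399 : Nat.ble (xq 256 23040 768 J 248 3 [1536, 1536] [1792, 1792] 34 6 z398) 29476712034452 = true :=
  xq_succ (k := 33) (c' := 7) (l := [1536, 1536, 1536]) (h := [1792, 1792, 1792]) (a := z394) (b := z396) rfl rfl (by decide +kernel) (by decide +kernel)
    (by decide +kernel) (by decide +kernel) w395 w397 (by decide +kernel)
theorem w401 : Nat.ble (cv 256 23040 768 J 249 1 2 6 [1536, 1536] [1792, 1792] z400) 29507761942676 = true :=
  cv_exp (f := 248) (n' := 3) (k := 34) (a := z392) (b := z398) rfl rfl (by decide +kernel) (by decide +kernel) (by decide +kernel)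
    (by decide +kernel) w393 w399 (by decide +kernel)
theorem w407 : Nat.ble (xq 256 23040 768 J 249 2 [1536] [1792] 36 7 z406) 133960996838233 = true :=
  xq_succ (k := 35) (c' := 8) (l := [1536, 1792]) (h := [1792, 2048]) (a := z402) (b := z404) rfl rfl (by decide +kernel) (by decide +kernel)
    (by decide +kernel) (by decide +kernel) w403 w405 (by decide +kernel)
theorem w409 : Nat.ble (xq 256 23040 768 J 249 2 [1536] [1792] 37 6 z408) 163468758780909 = true :=
  xq_succ (k := 36) (c' := 7) (l := [1536, 1536]) (h := [1792, 1792]) (a := z400) (b := z406) rfl rfl (by decide +kernel) (by decide +kernel)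
    (by decide +kernel) (by decide +kernel) w401 w407 (by decide +kernel)
theorem w411 : Nat.ble (cv 256 23040 768 J 250 1 1 6 [1536] [1792] z410) 163651580103661 = true :=
  cv_exp (f := 249) (n' := 2) (k := 37) (a := z390) (b := z408) rfl rfl (by decide +kernel) (by decide +kernel) (by decide +kernel)
    (by decide +kernel) w391 w409 (by decide +kernel)
theorem w419 : Nat.ble (xq 256 23040 768 J 249 2 [1792] [2048] 35 7 z418) 214325720583226 = true :=
  xq_succ (k := 34) (c' := 8) (l := [1792, 1792]) (h := [2048, 2048]) (a := z414) (b := z416) rfl rfl (by decide +kernel) (by decide +kernel)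
    (by decide +kernel) (by decide +kernel) w415 w417 (by decide +kernel)
theorem w421 : Nat.ble (cv 256 23040 768 J 250 1 1 7 [1792] [2048] z420) 214486010104890 = true :=
  cv_exp (f := 249) (n' := 2) (k := 35) (a := z412) (b := z418) rfl rfl (by decide +kernel) (by decide +kernel) (by decide +kernel)
    (by decide +kernel) w413 w419 (by decide +kernel)
theorem w429 : Nat.ble (xq 256 23040 768 J 250 1 [] [] 37 9 z428) 3327504303487616 = true :=
  xq_succ (k := 36) (c' := 10) (l := [2304]) (h := [2560]) (a := z424) (b := z426) rfl rfl (by decide +kernel) (by decide +kernel)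
    (by decide +kernel) (by decide +kernel) w425 w427 (by decide +kernel)
theorem w431 : Nat.ble (xq 256 23040 768 J 250 1 [] [] 38 8 z430) 3525622455785856 = true :=
  xq_succ (k := 37) (c' := 9) (l := [2048]) (h := [2304]) (a := z422) (b := z428) rfl rfl (by decide +kernel) (by decide +kernel)
    (by decide +kernel) (by decide +kernel) w423 w429 (by decide +kernel)
theorem w433 : Nat.ble (xq 256 23040 768 J 250 1 [] [] 39 7 z432) 3740108465890746 = true :=
  xq_succ (k := 38) (c' := 8) (l := [1792]) (h := [2048]) (a := z420) (b := z430) rfl rfl (by decide +kernel) (by decide +kernel)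
    (by decide +kernel) (by decide +kernel) w421 w431 (by decide +kernel)
theorem w435 : Nat.ble (xq 256 23040 768 J 250 1 [] [] 40 6 z434) 3903760045994407 = true :=
  xq_succ (k := 39) (c' := 7) (l := [1536]) (h := [1792]) (a := z410) (b := z432) rfl rfl (by decide +kernel) (by decide +kernel)
    (by decide +kernel) (by decide +kernel) w411 w433 (by decide +kernel)
theorem w437 : Nat.ble (xq 256 23040 768 J 250 1 [] [] 41 5 z436) 4021734084923668 = true :=
  xq_succ (k := 40) (c' := 6) (l := [1280]) (h := [1536]) (a := z388) (b := z434) rfl rfl (by decide +kernel) (by decide +kernel)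
    (by decide +kernel) (by decide +kernel) w389 w435 (by decide +kernel)
theorem w439 : Nat.ble (xq 256 23040 768 J 250 1 [] [] 42 4 z438) 4177978227255328 = true :=
  xq_succ (k := 41) (c' := 5) (l := [1024]) (h := [1280]) (a := z342) (b := z436) rfl rfl (by decide +kernel) (by decide +kernel)
    (by decide +kernel) (by decide +kernel) w343 w437 (by decide +kernel)
theorem w441 : Nat.ble (xq 256 23040 768 J 250 1 [] [] 43 3 z440) 4375481504839282 = true :=
  xq_succ (k := 42) (c' := 4) (l := [768]) (h := [1024]) (a := z248) (b := z438) rfl rfl (by decide +kernel) (by decide +kernel)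
    (by decide +kernel) (by decide +kernel) w249 w439 (by decide +kernel)

theorem topJ : Nat.ble (Nat.mul 1000 (top 256 23040 768 3 J z440)) (Nat.mul 998 (Nat.pow 2 52)) = true :=
  top_le (k := 43) (by decide +kernel) w441 (by decide +kernel)

end Pool.Agent.Work.MP_82fd4a_nt.P.H
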