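import Pool.Agent.Work.MP_82fd4a_nt.P.KGi
import Pool.Agent.Work.MP_82fd4a_nt.P.KPr
import Pool.Agent.Work.MP_82fd4a_nt.P.KAd2
import Pool.Agent.Work.MP_82fd4a_nt.P.H.KT
import Pool.Agent.Work.MP_82fd4a_nt.P.H.DT
import Pool.Agent.Work.MP_82fd4a_nt.P.H.Top

/-! The numerical certificate. -/

set_option autoImplicit false
set_option linter.all false

namespace Pool.Agent.Work.MP_82fd4a_nt.P.H

open Y

theorem cert_aux {P : Par} {tb tq tc : Tr} {Y0 s N G M T U z c0 Q : ℕ} {J : Jt} (hs : Sm P)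
    (hN : P.N = N) (hG : P.G = G) (hM : P.N * P.G = M) (hT : P.T = T) (hU : P.G / 32 = U)
    (hz : P.z = z) (h0 : P.z / P.G = c0) (hQ : P.Q = Q)
    (h2 : P.z = P.z / P.G * P.G) (hL : P.T ≤ P.G * 44) (hc : Pool.Agent.Work.MP_82fd4a_nt.P.chk2 N Q 44 tb c0 [] = 0)
    (hq : ckr Y0 tb tq = 0) (hC : TcOK P tb tc)
    (hJ : Pool.Agent.Work.MP_82fd4a_nt.P.G.run9 G N M T U z c0 Y0 tb tq tc J = 0)
    (h : Nat.ble (Nat.mul 1000 (Pool.Agent.Work.MP_82fd4a_nt.P.top G M z c0 J s))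
      (Nat.mul 998 (Nat.pow 2 52)) = true) :
    Cert2 P (lamT N c0 tb) := by
  subst hN hG hM hT hU hz h0 hQ
  exact cert2_of hs hL hc (Nat.le_of_ble_eq_true h) fun _ _ _ _ _ hx =>
    G.top_spec9 G.gl_spec hx h2 hq hC hJ (by
      have := Nat.le_of_ble_eq_true h
      change 1000 * _ ≤ 998 * 2 ^ 52 at this
      rw [BAD_eq]
      omega)

theorem sm0 : Sm ⟨90, 256, 768, 23, 11129⟩ := by
  constructor <;> decide

/-- the certificate -/
theorem cert : Cert2 ⟨90, 256, 768, 23, 11129⟩ (lamT 90 3 tb) :=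
  cert_aux (N := 90) (G := 256) (M := 23040) (T := 11129) (U := 8) (z := 768) (c0 := 3) (Q := 23)
    sm0 rfl rfl (by norm_num) rfl (by norm_num) rfl (by norm_num) rfl (by norm_num)
    (by norm_num) chkT ckrT (tcOK sm0 rfl (by norm_num)) runJ topJ

end Pool.Agent.Work.MP_82fd4a_nt.P.H
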