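import Pool.Agent.Work.MP_82fd4a_nt.P.Pr
import Pool.Agent.Work.MP_82fd4a_nt.P.Dx
import Pool.Agent.Work.MP_82fd4a_nt.P.H.Tb
import Pool.Agent.Work.MP_82fd4a_nt.P.H.Tq
import Pool.Agent.Work.MP_82fd4a_nt.P.H.CT
import Pool.Agent.Work.MP_82fd4a_nt.P.H.BT

/-! Common definitions for the jobs. -/

set_option autoImplicit false
set_option linter.all false

namespace Pool.Agent.Work.MP_82fd4a_nt.P.H

open Y

/-- expand a piece -/
noncomputable def dc (x : ℕ) : ℕ := C.dec (nat_lit 1391) (nat_lit 18) dic x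

/-- a job -/
noncomputable def jb (x r s : ℕ) : Jt := C.jc (nat_lit 256) x r s

/-- a job -/
noncomputable def jj (x : ℕ) : Jt := C.jd (nat_lit 256) x (C.jm x) (C.js x)

/-- a job -/
noncomputable def jk (x : ℕ) : Jt := C.jd (nat_lit 256) x (C.jm x) (dc (C.js x))

/-- a job -/
noncomputable def jl (x s : ℕ) : Jt := C.jd (nat_lit 256) x (C.jm x) s

/-- zero if all the jobs respect their bounds -/
noncomputable def rn (J : Jt) : ℕ := G.run9 256 90 23040 11129 8 768 3 Y0 tb tq tc J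

theorem run_node {a b : Jt} (ha : rn a = 0) (hb : rn b = 0) : rn (Jt.node a b) = 0 :=
  Nat.add_eq_zero_iff.2 ⟨ha, hb⟩

end Pool.Agent.Work.MP_82fd4a_nt.P.H
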