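import Pool.Agent.Work.MP_82fd4a_nt.P.Dx

set_option autoImplicit false
set_option linter.all false
set_option maxRecDepth 100000

namespace Pool.Agent.Work.MP_82fd4a_nt.P.H
open Y Y.Tr

noncomputable def C0 : Tr := beta% (fun (c : Nat → Tr → Tr → Tr) (e : Tr) (z : Nat) (a : Nat → Nat) =>
 (c z
 (c (nat_lit 1)
 (c (a (nat_lit 0x202021))
 (c (a (nat_lit 0x1f59c4a6a3)) e
 (c (a (nat_lit 0x1a45430005)) e
 (c (a (nat_lit 0x1400000001)) e e)))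
 (c (a (nat_lit 0x2021))
 (c (a (nat_lit 0x1a47a00003)) e e)
 (c (a (nat_lit 0x204001)) e
 (c (a (nat_lit 0x802001)) e
 (c (a (nat_lit 0x5606001)) e
 (c (a (nat_lit 0x4408001)) e
 (c (a (nat_lit 0x92800a1)) e
 (c (a (nat_lit 0x604021)) e
 (c (a (nat_lit 0x4001)) e
 (c (a (nat_lit 0x806001)) e
 (c (a (nat_lit 0x1804001)) e e)))))))))))
 (c (a (nat_lit 0x2021))
 (c (a (nat_lit 0x4061))
 (c (a (nat_lit 0x160000001)) e e)
 (c (a (nat_lit 0xa001)) e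
 (c (a (nat_lit 0x1a06001)) e
 (c (a (nat_lit 0x2002001)) e
 (c (a (nat_lit 0xc04001)) e
 (c (a (nat_lit 0x204021)) e
 (c (a (nat_lit 0x202021)) e
 (c (a (nat_lit 0x204001)) e
 (c (a (nat_lit 0x808041)) e
 (c (a (nat_lit 0x200001)) e e))))))))))
 (c (a (nat_lit 0x21))
 (c (a (nat_lit 0x206001)) e
 (c (a (nat_lit 0x1608001)) e
 (c (a (nat_lit 0x1402001)) e
 (c (a (nat_lit 0x1002001)) e
 (c (a (nat_lit 0xc06041)) e
 (c (a (nat_lit 0x6001)) e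
 (c (a (nat_lit 0x206001)) e
 (c (a (nat_lit 0x4001)) e e))))))))
 (c (a (nat_lit 0x2021))
 (c (a (nat_lit 0x4021)) e
 (c (a (nat_lit 0x2021)) e
 (c (a (nat_lit 0x2001)) e
 (c (a (nat_lit 0x204041)) e
 (c (a (nat_lit 0xa001)) e
 (c (a (nat_lit 0x1404021)) e
 (c (a (nat_lit 0x200001)) e e)))))))
 (c (a (nat_lit 0x2021))
 (c (a (nat_lit 0x204001)) e
 (c (a (nat_lit 0xc04001)) e
 (c (a (nat_lit 0x10040a1)) e
 (c (a (nat_lit 0x204001)) e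
 (c (a (nat_lit 0x602001)) e e)))))
 (c (a (nat_lit 0x2021))
 (c (a (nat_lit 0x804041)) e
 (c (a (nat_lit 0x206021)) e
 (c (a (nat_lit 0x202021)) e
 (c (a (nat_lit 0x200001)) e e))))
 (c (a (nat_lit 0x2021))
 (c (a (nat_lit 0x202021)) e
 (c (a (nat_lit 0x202001)) e e))
 (c (a (nat_lit 0x2021))
 (c (a (nat_lit 0x200001)) e e)
 (c (a (nat_lit 0x2021)) e
 (c (a (nat_lit 0x2041)) e e))))))))))
 (c z
 (c z
 (c (a (nat_lit 0x2021)) e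
 (c (a (nat_lit 0x40e1)) e
 (c (a (nat_lit 0x4121)) e
 (c (a (nat_lit 0x4061)) e
 (c (a (nat_lit 0x4001)) e
 (c (a (nat_lit 0xc04021)) e
 (c (a (nat_lit 0x204041)) e
 (c (a (nat_lit 0x4021)) e
 (c (a (nat_lit 0x402001)) e e)))))))))
 (c (a (nat_lit 0x2021))
 (c (a (nat_lit 0x4001)) e
 (c (a (nat_lit 0x4041)) e
 (c (a (nat_lit 0x802001)) e
 (c (a (nat_lit 0x1200041)) e
 (c (a (nat_lit 0x4041)) e
 (c (a (nat_lit 0x2021)) e
 (c z e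
 (c (a (nat_lit 0x200001)) e e))))))))
 (c (a (nat_lit 0x2021))
 (c (a (nat_lit 0x6081)) e
 (c (a (nat_lit 0x2021)) e
 (c (a (nat_lit 0x602041)) e
 (c (a (nat_lit 0x2001)) e
 (c (a (nat_lit 0x202061)) e
 (c (a (nat_lit 0x2001)) e e))))))
 (c (a (nat_lit 0x2021))
 (c (a (nat_lit 0x202041)) e
 (c (a (nat_lit 0x4021)) e
 (c (a (nat_lit 0x204041)) e
 (c (a (nat_lit 0x202061)) e
 (c (a (nat_lit 0x200001)) e e)))))
 (c (a (nat_lit 0x2021))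
 (c (a (nat_lit 0x202021)) e
 (c (a (nat_lit 0x202021)) e
 (c (a (nat_lit 0x2001)) e e)))
 (c (a (nat_lit 0x2021))
 (c (a (nat_lit 0x202021)) e
 (c (a (nat_lit 0x200001)) e e))
 (c (a (nat_lit 0x2021)) e
 (c (a (nat_lit 0x2021)) e
 (c z e
 (c (a (nat_lit 0x2061)) e
 (c (a (nat_lit 0x61)) e e)))))))))))
 (c z
 (c z
 (c (a (nat_lit 0x6140c1)) e
 (c (a (nat_lit 0x602001)) e
 (c (a (nat_lit 0xe02021)) e
 (c (a (nat_lit 0x12004001)) e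
 (c (a (nat_lit 0x1d602004)) e
 (c z e
 (c (a (nat_lit 0x202001)) e e)))))))
 (c (a (nat_lit 0x2021))
 (c (a (nat_lit 0x2001)) e
 (c (a (nat_lit 0x11804021)) e
 (c (a (nat_lit 0x10802024)) e
 (c (a (nat_lit 0x202001)) e
 (c z e
 (c (a (nat_lit 0x400001)) e e))))))
 (c (a (nat_lit 0x2021))
 (c (a (nat_lit 0x2001)) e
 (c (a (nat_lit 0x402021)) e
 (c (a (nat_lit 0x404021)) e
 (c (a (nat_lit 0x202001)) e e))))
 (c (a (nat_lit 0x2021))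
 (c (a (nat_lit 0x202001)) e
 (c (a (nat_lit 0x400021)) e
 (c (a (nat_lit 0x200001)) e e)))
 (c (a (nat_lit 0x2021))
 (c (a (nat_lit 0x202001)) e e)
 (c (a (nat_lit 0x2021)) e
 (c z e
 (c (a (nat_lit 0x2021)) e
 (c (a (nat_lit 0x4041)) e e)))))))))
 (c z
 (c z
 (c (a (nat_lit 0x4001)) e
 (c (a (nat_lit 0x13e02024)) e
 (c (a (nat_lit 0x204021)) e
 (c z e
 (c (a (nat_lit 0x202001)) e e)))))
 (c (a (nat_lit 0x2021))
 (c (a (nat_lit 0x1ce02022)) e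
 (c (a (nat_lit 0x402041)) e
 (c (a (nat_lit 0x202021)) e
 (c (a (nat_lit 0x200001)) e e))))
 (c (a (nat_lit 0x2021))
 (c (a (nat_lit 0x200001)) e
 (c (a (nat_lit 0x2001)) e e))
 (c (a (nat_lit 0x2021))
 (c (a (nat_lit 0x200001)) e e)
 (c z e
 (c (a (nat_lit 0x6001)) e
 (c (a (nat_lit 0x2061)) e e)))))))
 (c z
 (c (a (nat_lit 0x2021))
 (c (a (nat_lit 0x202021)) e
 (c (a (nat_lit 0x202021)) e
 (c (a (nat_lit 0x202001)) e e)))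
 (c (a (nat_lit 0x2021))
 (c (a (nat_lit 0x1083)) e
 (c (a (nat_lit 0x200001)) e e))
 (c z e
 (c (nat_lit 1) e
 (c (a (nat_lit 0x4041)) e
 (c z e
 (c (a (nat_lit 0x4021)) e
 (c (nat_lit 1) e
 (c (a (nat_lit 0x2021)) e
 (c (a (nat_lit 0x2001)) e
 (c (a (nat_lit 0x4021)) e
 (c (a (nat_lit 0x4001)) e
 (c (a (nat_lit 0x4001)) e
 (c (a (nat_lit 0x6001)) e e))))))))))))))
 (c z
 (c z
 (c (a (nat_lit 0x1d2001)) e e)
 (c (a (nat_lit 0xa1)) e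
 (c (a (nat_lit 0x81)) e
 (c z e
 (c (a (nat_lit 0x21)) e
 (c (a (nat_lit 0x4001)) e
 (c (a (nat_lit 0x2001)) e
 (c (a (nat_lit 0x4001)) e
 (c (a (nat_lit 0x4001)) e
 (c (a (nat_lit 0x6001)) e
 (c (a (nat_lit 0x6001)) e
 (c (a (nat_lit 0xa021)) e e)))))))))))) e))))))) Tr.c Tr.e (nat_lit 0) C.cx
noncomputable def C1 : Tr := beta% (fun (c : Nat → Tr → Tr → Tr) (e : Tr) (z : Nat) (a : Nat → Nat) =>
 (c z
 (c (a (nat_lit 0x2021))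
 (c z
 (c (a (nat_lit 0xb61615e3)) e
 (c (a (nat_lit 0xbb0f105c5)) e
 (c (a (nat_lit 0x196f736e3)) e
 (c (a (nat_lit 0x47c585643)) e
 (c (a (nat_lit 0x21e1f1c6)) e
 (c (a (nat_lit 0x9cc5c5c46)) e
 (c (a (nat_lit 0xc3ecf6006)) e
 (c (a (nat_lit 0x1ae0000005)) e e))))))))
 (c z
 (c (a (nat_lit 0x16f6f720c4)) e
 (c (a (nat_lit 0x179977a0a4)) e
 (c (a (nat_lit 0x363033807)) e
 (c (a (nat_lit 0x181795667)) e
 (c (a (nat_lit 0x8b4948868)) e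
 (c (a (nat_lit 0x166b400008)) e e))))))
 (c (a (nat_lit 0x1e006002))
 (c (a (nat_lit 0x602057e6)) e
 (c (a (nat_lit 0x60b85807)) e
 (c (a (nat_lit 0x369692c7)) e
 (c (a (nat_lit 0x1333286008)) e
 (c (a (nat_lit 0x1500000007)) e e)))))
 (c (a (nat_lit 0xa02021))
 (c (a (nat_lit 0x179793a6)) e
 (c (a (nat_lit 0x1716f32187)) e
 (c (a (nat_lit 0x1348800008)) e e)))
 (c (a (nat_lit 0x1818101))
 (c (a (nat_lit 0x1511204006)) e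
 (c (a (nat_lit 0x1040000007)) e e))
 (c (a (nat_lit 0x200001)) e
 (c (a (nat_lit 0x804001)) e
 (c (a (nat_lit 0xa04001)) e
 (c (a (nat_lit 0x1606001)) e
 (c (a (nat_lit 0x1a08001)) e
 (c (a (nat_lit 0x1800a0a1)) e
 (c (a (nat_lit 0x202021)) e
 (c (a (nat_lit 0x4001)) e
 (c (a (nat_lit 0xa02001)) e
 (c (a (nat_lit 0x202001)) e e)))))))))))))))
 (c (a (nat_lit 0x2021))
 (c (a (nat_lit 0x10202003))
 (c (a (nat_lit 0x1c28041)) e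
 (c (a (nat_lit 0x202057c7)) e
 (c (a (nat_lit 0x405817e7)) e
 (c (a (nat_lit 0x36565287)) e
 (c (a (nat_lit 0x1313086008)) e
 (c (a (nat_lit 0x14e0000007)) e e))))))
 (c (a (nat_lit 0x36180c1))
 (c (a (nat_lit 0x2057f787)) e
 (c (a (nat_lit 0x57f7f408)) e
 (c (a (nat_lit 0x1676528128)) e
 (c (a (nat_lit 0x1308600009)) e e))))
 (c (a (nat_lit 0x4001))
 (c (a (nat_lit 0x17773363a7)) e
 (c (a (nat_lit 0x16b2e16008)) e
 (c (a (nat_lit 0x10e0000008)) e e)))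
 (c (a (nat_lit 0x202001))
 (c (a (nat_lit 0x10e0200007)) e e)
 (c (a (nat_lit 0x202001)) e
 (c (a (nat_lit 0xa06001)) e
 (c (a (nat_lit 0x2204001)) e
 (c (a (nat_lit 0x9674121)) e
 (c (a (nat_lit 0xf00c001)) e
 (c (a (nat_lit 0xa02001)) e
 (c (a (nat_lit 0x2001)) e
 (c (a (nat_lit 0x2001)) e
 (c (a (nat_lit 0x802021)) e
 (c (a (nat_lit 0x800001)) e e))))))))))))))
 (c (nat_lit 1)
 (c (a (nat_lit 0xa08001))
 (c (a (nat_lit 0x7f7f7a25)) e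
 (c (a (nat_lit 0x1817d40447)) e
 (c (a (nat_lit 0x1652812007)) e
 (c (a (nat_lit 0x10a0000007)) e e))))
 (c (a (nat_lit 0x2041))
 (c (a (nat_lit 0x173363a127)) e
 (c (a (nat_lit 0x12e1600008)) e e))
 (c (a (nat_lit 0x6061))
 (c (a (nat_lit 0x1e0000001)) e e)
 (c (a (nat_lit 0x404001)) e
 (c (a (nat_lit 0x1402001)) e
 (c (a (nat_lit 0x3008061)) e
 (c (a (nat_lit 0xfa561e1)) e
 (c (a (nat_lit 0x6838001)) e
 (c (a (nat_lit 0x4001)) e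
 (c (a (nat_lit 0x804021)) e
 (c (a (nat_lit 0x8001)) e
 (c (a (nat_lit 0x1a02001)) e e))))))))))))
 (c (a (nat_lit 0x2021))
 (c (a (nat_lit 0x60e1))
 (c (a (nat_lit 0x17a2c04005)) e
 (c (a (nat_lit 0x1ee0000002)) e e))
 (c (a (nat_lit 0x20e1)) e
 (c (a (nat_lit 0x2041)) e
 (c (a (nat_lit 0xc06001)) e
 (c (a (nat_lit 0x960c001)) e
 (c (a (nat_lit 0x10a0a041)) e
 (c (a (nat_lit 0x4001)) e
 (c (a (nat_lit 0x404001)) e
 (c (a (nat_lit 0x602001)) e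
 (c (a (nat_lit 0x404021)) e
 (c (a (nat_lit 0x200001)) e e)))))))))))
 (c (a (nat_lit 0x2021))
 (c (a (nat_lit 0x2001)) e
 (c (a (nat_lit 0xc0e001)) e
 (c (a (nat_lit 0x5602001)) e
 (c (a (nat_lit 0xa02021)) e
 (c (a (nat_lit 0x15602023)) e
 (c (a (nat_lit 0x60a001)) e
 (c (a (nat_lit 0x2c0a061)) e
 (c (a (nat_lit 0x602001)) e
 (c (a (nat_lit 0x2001)) e e)))))))))
 (c (a (nat_lit 0x2021))
 (c (a (nat_lit 0x16060a1)) e
 (c (a (nat_lit 0x6021)) e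
 (c (a (nat_lit 0x406001)) e
 (c (a (nat_lit 0x204061)) e
 (c (a (nat_lit 0x6001)) e
 (c (a (nat_lit 0x400001)) e
 (c (a (nat_lit 0x204021)) e
 (c (a (nat_lit 0x200001)) e e))))))))
 (c (a (nat_lit 0x2021))
 (c (a (nat_lit 0x202001)) e
 (c (a (nat_lit 0x1002001)) e
 (c (a (nat_lit 0x402001)) e
 (c (a (nat_lit 0x400021)) e
 (c (a (nat_lit 0x202021)) e
 (c (a (nat_lit 0x202001)) e e))))))
 (c (a (nat_lit 0x2021))
 (c (a (nat_lit 0x400021)) e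
 (c (a (nat_lit 0x202001)) e
 (c (a (nat_lit 0x202021)) e
 (c (a (nat_lit 0x404021)) e
 (c (a (nat_lit 0x200001)) e e)))))
 (c (a (nat_lit 0x2021))
 (c (a (nat_lit 0x202021)) e
 (c (a (nat_lit 0x202021)) e
 (c (a (nat_lit 0x202001)) e e)))
 (c (a (nat_lit 0x2021))
 (c (a (nat_lit 0x202021)) e
 (c (a (nat_lit 0x200001)) e e))
 (c (a (nat_lit 0x2021)) e
 (c (a (nat_lit 0x2021)) e
 (c (a (nat_lit 0x2021)) e
 (c (a (nat_lit 0x2021)) e e))))))))))))))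
 (c z
 (c (a (nat_lit 0x2001))
 (c (a (nat_lit 0xe0c061))
 (c (a (nat_lit 0x20403fa3)) e
 (c (a (nat_lit 0x207fff25)) e
 (c (a (nat_lit 0x5fbfba85)) e
 (c (a (nat_lit 0x1d9d786165)) e
 (c (a (nat_lit 0x194b200006)) e e)))))
 (c (a (nat_lit 0x382e221))
 (c (a (nat_lit 0x37979366)) e
 (c (a (nat_lit 0x17f7b3e407)) e
 (c (a (nat_lit 0x1632410007)) e
 (c (a (nat_lit 0x10a0000007)) e e))))
 (c (a (nat_lit 0x6021))
 (c (a (nat_lit 0x1713436106)) e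
 (c (a (nat_lit 0x12a1400007)) e e))
 (c (a (nat_lit 0x4061))
 (c (a (nat_lit 0x20000001)) e e)
 (c (a (nat_lit 0x204001)) e
 (c (a (nat_lit 0x802001)) e
 (c (a (nat_lit 0x1a06041)) e
 (c (a (nat_lit 0xae46121)) e
 (c (a (nat_lit 0x4a221a1)) e
 (c (a (nat_lit 0x1e1a001)) e
 (c (a (nat_lit 0x2001)) e
 (c (a (nat_lit 0x802001)) e
 (c (a (nat_lit 0xa02001)) e e)))))))))))))
 (c (nat_lit 1)
 (c (a (nat_lit 0xc04001))
 (c (a (nat_lit 0x1f9ef9e4a5)) e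
 (c (a (nat_lit 0x17b3c40247)) e
 (c (a (nat_lit 0x1241000007)) e e)))
 (c (a (nat_lit 0x20a1))
 (c (a (nat_lit 0x1323610007)) e
 (c (a (nat_lit 0x12a0000004)) e e))
 (c (a (nat_lit 0x6001)) e
 (c (a (nat_lit 0x602001)) e
 (c (a (nat_lit 0x2c0a001)) e
 (c (a (nat_lit 0xcc0c001)) e
 (c (a (nat_lit 0x8e9e841)) e
 (c (a (nat_lit 0x2610001)) e
 (c (a (nat_lit 0x200001)) e
 (c (a (nat_lit 0x206001)) e
 (c (a (nat_lit 0xc08001)) e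
 (c (a (nat_lit 0x1800001)) e e))))))))))))
 (c (a (nat_lit 0x2041))
 (c (a (nat_lit 0x40a1))
 (c (a (nat_lit 0x1281000002)) e e)
 (c (a (nat_lit 0x60c1)) e
 (c (a (nat_lit 0x40a001)) e
 (c (a (nat_lit 0x7a08001)) e
 (c (a (nat_lit 0x3a04041)) e
 (c (a (nat_lit 0x6021)) e
 (c (a (nat_lit 0x4021)) e
 (c (a (nat_lit 0x2021)) e
 (c (a (nat_lit 0x406041)) e
 (c (a (nat_lit 0x204001)) e e))))))))))
 (c (a (nat_lit 0x2021))
 (c (a (nat_lit 0x1804001)) e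
 (c (a (nat_lit 0x1604021)) e
 (c (a (nat_lit 0x3e06001)) e
 (c (a (nat_lit 0xa04001)) e
 (c (a (nat_lit 0x1b002002)) e
 (c (a (nat_lit 0x21)) e
 (c (a (nat_lit 0x604021)) e
 (c (a (nat_lit 0x400021)) e
 (c (a (nat_lit 0x200001)) e e)))))))))
 (c (a (nat_lit 0x2021))
 (c (a (nat_lit 0x606061)) e
 (c (a (nat_lit 0x204001)) e
 (c (a (nat_lit 0x2001)) e
 (c (a (nat_lit 0x2061)) e
 (c (a (nat_lit 0x2001)) e
 (c (a (nat_lit 0x202001)) e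
 (c (a (nat_lit 0x204001)) e e)))))))
 (c (a (nat_lit 0x2021))
 (c (a (nat_lit 0x2001)) e
 (c (a (nat_lit 0xa02001)) e
 (c (a (nat_lit 0x802021)) e
 (c (a (nat_lit 0x400001)) e
 (c (a (nat_lit 0x202021)) e
 (c (a (nat_lit 0x600001)) e e))))))
 (c (a (nat_lit 0x2021))
 (c (a (nat_lit 0x400021)) e
 (c (a (nat_lit 0x202021)) e
 (c (a (nat_lit 0x202001)) e
 (c (a (nat_lit 0x402001)) e e))))
 (c (a (nat_lit 0x2021))
 (c (a (nat_lit 0x202021)) e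
 (c (a (nat_lit 0x202021)) e
 (c (a (nat_lit 0x200001)) e e)))
 (c (a (nat_lit 0x2021))
 (c (a (nat_lit 0x202001)) e e)
 (c (a (nat_lit 0x2021)) e
 (c (a (nat_lit 0x2021)) e
 (c (a (nat_lit 0x2021)) e e))))))))))))
 C0))) Tr.c Tr.e (nat_lit 0) C.cx
noncomputable def C2 : Tr := beta% (fun (c : Nat → Tr → Tr → Tr) (e : Tr) (z : Nat) (a : Nat → Nat) =>
 (c (a (nat_lit 0x2021))
 (c (a (nat_lit 0x13804003))
 (c (a (nat_lit 0x2a9113126))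
 (c (a (nat_lit 0x1c8000000002)) e e)
 (c (a (nat_lit 0xa939795c7)) e
 (c (a (nat_lit 0x10d2d6d307)) e
 (c (a (nat_lit 0x176f935347)) e
 (c (a (nat_lit 0x136e31d1a7)) e
 (c (a (nat_lit 0xaed0bca8)) e
 (c (a (nat_lit 0x109e8f48)) e
 (c (a (nat_lit 0x3ba00007)) e e))))))))
 (c z
 (c (a (nat_lit 0xe56565447)) e
 (c (a (nat_lit 0x10f4f4f2e8)) e
 (c (a (nat_lit 0xf93333328)) e
 (c (a (nat_lit 0x6e8e8f4c9)) e
 (c (a (nat_lit 0xed0bcbca9)) e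
 (c (a (nat_lit 0x109e8f4009)) e
 (c (a (nat_lit 0x1ba0000008)) e e)))))))
 (c z
 (c (a (nat_lit 0x1575555187)) e
 (c (a (nat_lit 0x9e9e9f4e9)) e
 (c (a (nat_lit 0x929353429)) e
 (c (a (nat_lit 0x10fcfcece9)) e
 (c (a (nat_lit 0x1ecf600009)) e e)))))
 (c (a (nat_lit 0x14408002))
 (c (a (nat_lit 0x8a8d4b4a8)) e
 (c (a (nat_lit 0x8d4747289)) e
 (c (a (nat_lit 0x1c3c2d0009)) e
 (c (a (nat_lit 0x1e00000008)) e e))))
 (c (a (nat_lit 0x1204001))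
 (c (a (nat_lit 0x1393718328)) e
 (c (a (nat_lit 0x1b8ca00009)) e e))
 (c (a (nat_lit 0xc06001))
 (c (a (nat_lit 0x1560000007)) e e)
 (c (a (nat_lit 0xe04001)) e
 (c (a (nat_lit 0xc04001)) e
 (c (a (nat_lit 0x806021)) e
 (c (a (nat_lit 0x804041)) e
 (c (a (nat_lit 0x404001)) e
 (c (a (nat_lit 0x4e08021)) e
 (c (a (nat_lit 0x204001)) e
 (c (a (nat_lit 0x402041)) e
 (c (a (nat_lit 0x408021)) e
 (c (a (nat_lit 0x800001)) e e))))))))))))))))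
 (c (a (nat_lit 0x2021))
 (c (a (nat_lit 0x1edea001))
 (c (a (nat_lit 0x1efefef745)) e
 (c (a (nat_lit 0x1373737187)) e
 (c (a (nat_lit 0x9c9c9d4e8)) e
 (c (a (nat_lit 0x909151408)) e
 (c (a (nat_lit 0x10fcdcecc8)) e
 (c (a (nat_lit 0x1eaf600008)) e e))))))
 (c (a (nat_lit 0x1640a002))
 (c (a (nat_lit 0x8c8c8f4a8)) e
 (c (a (nat_lit 0x8e8f4f4e9)) e
 (c (a (nat_lit 0x854143229)) e
 (c (a (nat_lit 0x1bfbecc009)) e
 (c (a (nat_lit 0x1dc0000008)) e e)))))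
 (c (a (nat_lit 0x1406001))
 (c (a (nat_lit 0x8949492a8)) e
 (c (a (nat_lit 0x1454526529)) e
 (c (a (nat_lit 0x1c2ce00009)) e e)))
 (c (a (nat_lit 0x1204001))
 (c (a (nat_lit 0x1351632008)) e
 (c (a (nat_lit 0x1900000008)) e e))
 (c (a (nat_lit 0xa04001)) e
 (c (a (nat_lit 0x804001)) e
 (c (a (nat_lit 0x208001)) e
 (c (a (nat_lit 0x202041)) e
 (c (a (nat_lit 0x2021)) e
 (c (a (nat_lit 0x1406001)) e
 (c (a (nat_lit 0x204001)) e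
 (c (a (nat_lit 0x402021)) e
 (c (a (nat_lit 0x206001)) e
 (c (a (nat_lit 0x802001)) e e))))))))))))))
 (c (a (nat_lit 0x2021))
 (c (a (nat_lit 0x1604001))
 (c (a (nat_lit 0xbabdbbb86)) e
 (c (a (nat_lit 0x8f4f4f308)) e
 (c (a (nat_lit 0x1434124508)) e
 (c (a (nat_lit 0x1becc00008)) e e))))
 (c (a (nat_lit 0xc04001))
 (c (a (nat_lit 0x149492aac8)) e
 (c (a (nat_lit 0x1452652009)) e
 (c (a (nat_lit 0x19c0000008)) e e)))
 (c (a (nat_lit 0xc06001))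
 (c (a (nat_lit 0x1163200008)) e e)
 (c (a (nat_lit 0x61)) e
 (c (a (nat_lit 0x208021)) e
 (c (a (nat_lit 0x402001)) e
 (c (a (nat_lit 0x408021)) e
 (c (a (nat_lit 0xc06001)) e
 (c (a (nat_lit 0xa02001)) e
 (c (a (nat_lit 0xa04001)) e
 (c (a (nat_lit 0x204001)) e
 (c (a (nat_lit 0x604021)) e
 (c (a (nat_lit 0x200001)) e e)))))))))))))
 (c (a (nat_lit 0x2021))
 (c (a (nat_lit 0x20a1))
 (c (a (nat_lit 0x1a57cd4326)) e
 (c (a (nat_lit 0x1205000008)) e e))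
 (c (a (nat_lit 0x1a1))
 (c (a (nat_lit 0x1880000005)) e e)
 (c (a (nat_lit 0x21c1)) e
 (c (a (nat_lit 0x6181)) e
 (c (a (nat_lit 0x81e1)) e
 (c (a (nat_lit 0xc121)) e
 (c (a (nat_lit 0x4081)) e
 (c (a (nat_lit 0x4021)) e
 (c (a (nat_lit 0x406001)) e
 (c (a (nat_lit 0x204041)) e
 (c (a (nat_lit 0x4001)) e e)))))))))))
 (c (a (nat_lit 0x2021))
 (c (a (nat_lit 0x4121)) e
 (c (a (nat_lit 0x2201)) e
 (c (a (nat_lit 0x8281)) e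
 (c (a (nat_lit 0x18041)) e
 (c (a (nat_lit 0x204001)) e
 (c z e
 (c (a (nat_lit 0x406041)) e
 (c (a (nat_lit 0x602021)) e
 (c (a (nat_lit 0x202021)) e
 (c (a (nat_lit 0x400001)) e e))))))))))
 (c (a (nat_lit 0x2021))
 (c (a (nat_lit 0x22a1)) e
 (c (a (nat_lit 0xc141)) e
 (c (a (nat_lit 0x4041)) e
 (c z e
 (c (a (nat_lit 0x8041)) e
 (c (a (nat_lit 0x402001)) e
 (c (a (nat_lit 0x4021)) e
 (c (a (nat_lit 0x202001)) e e))))))))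
 (c (a (nat_lit 0x21))
 (c (a (nat_lit 0x402001)) e
 (c z e
 (c (a (nat_lit 0x204041)) e
 (c (a (nat_lit 0x402001)) e
 (c (a (nat_lit 0x202041)) e
 (c (a (nat_lit 0x4021)) e
 (c (nat_lit 1) e e)))))))
 (c (a (nat_lit 0x21))
 (c (a (nat_lit 0x4001)) e
 (c (a (nat_lit 0x202021)) e
 (c (a (nat_lit 0x2001)) e
 (c (a (nat_lit 0x4001)) e
 (c (a (nat_lit 0x404001)) e e)))))
 (c (a (nat_lit 0x2021))
 (c (a (nat_lit 0x202021)) e
 (c (a (nat_lit 0x202001)) e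
 (c (a (nat_lit 0x202021)) e
 (c (a (nat_lit 0x200001)) e e))))
 (c (a (nat_lit 0x2021))
 (c (a (nat_lit 0x202021)) e
 (c (a (nat_lit 0x202001)) e e))
 (c (a (nat_lit 0x2021))
 (c (a (nat_lit 0x200001)) e e)
 (c (a (nat_lit 0x2001)) e
 (c (a (nat_lit 0x2021)) e
 (c (a (nat_lit 0x2021)) e
 (c (a (nat_lit 0x2021)) e
 (c z e
 (c (a (nat_lit 0x2001)) e
 (c (nat_lit 1) e e))))))))))))))))))) Tr.c Tr.e (nat_lit 0) C.cx
noncomputable def C3 : Tr := beta% (fun (c : Nat → Tr → Tr → Tr) (e : Tr) (z : Nat) (a : Nat → Nat) =>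
 (c (a (nat_lit 0x2021))
 (c z
 (c (a (nat_lit 0x4ececfce5))
 (c (a (nat_lit 0x1e2760000004)) e e)
 (c (a (nat_lit 0x707cfd347)) e
 (c (a (nat_lit 0x8b0b0b5e7)) e
 (c (a (nat_lit 0x17d5cf92a7)) e
 (c (a (nat_lit 0x10b18c1127)) e
 (c (a (nat_lit 0x2004df068)) e
 (c (a (nat_lit 0x2e02f9e28)) e
 (c (a (nat_lit 0x3003aa007)) e
 (c (a (nat_lit 0x1100000005)) e e)))))))))
 (c (a (nat_lit 0x1bc04003))
 (c (a (nat_lit 0x62cb4b4a7)) e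
 (c (a (nat_lit 0xc51959388)) e
 (c (a (nat_lit 0x1a55591208)) e
 (c (a (nat_lit 0x110cd0b068)) e
 (c (a (nat_lit 0x6ce503c09)) e
 (c (a (nat_lit 0x2ffdef09)) e
 (c (a (nat_lit 0x3b000008)) e e)))))))
 (c z
 (c (a (nat_lit 0xc54543427)) e
 (c (a (nat_lit 0x15f9b9b2a8)) e
 (c (a (nat_lit 0x6c8a8b489)) e
 (c (a (nat_lit 0xe907c7c69)) e
 (c (a (nat_lit 0x105e4f2009)) e
 (c (a (nat_lit 0x1b60000008)) e e))))))
 (c (a (nat_lit 0x2e2c001))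
 (c (a (nat_lit 0xf0f0f3428)) e
 (c (a (nat_lit 0xb6b9773e9)) e
 (c (a (nat_lit 0x135f3f4cc9)) e
 (c (a (nat_lit 0x108840000a)) e e))))
 (c (a (nat_lit 0x18806002))
 (c (a (nat_lit 0x993131108)) e
 (c (a (nat_lit 0x1b9b0c6009)) e
 (c (a (nat_lit 0x1ce0000008)) e e)))
 (c (a (nat_lit 0x2021))
 (c (a (nat_lit 0x11e5400009)) e e)
 (c (a (nat_lit 0x4001)) e
 (c (a (nat_lit 0x802001)) e
 (c (a (nat_lit 0x804001)) e
 (c (a (nat_lit 0x1002001)) e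
 (c (a (nat_lit 0xe00001)) e
 (c (a (nat_lit 0x1200021)) e
 (c (a (nat_lit 0x402061)) e
 (c (a (nat_lit 0x6001)) e
 (c (a (nat_lit 0x402041)) e
 (c (a (nat_lit 0x204001)) e e))))))))))))))))
 (c (a (nat_lit 0x2021))
 (c z
 (c (a (nat_lit 0xd1d1d1ce5)) e
 (c (a (nat_lit 0x1236363247)) e
 (c (a (nat_lit 0xef2929267)) e
 (c (a (nat_lit 0x688889488)) e
 (c (a (nat_lit 0xe907c5c48)) e
 (c (a (nat_lit 0x103e2f2008)) e
 (c (a (nat_lit 0x1b40000007)) e e)))))))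
 (c (a (nat_lit 0xa8b6001))
 (c (a (nat_lit 0x1474745087)) e
 (c (a (nat_lit 0x969697469)) e
 (c (a (nat_lit 0x8a8b4b3a9)) e
 (c (a (nat_lit 0x107c7c6ca9)) e
 (c (a (nat_lit 0x1e4f200009)) e e)))))
 (c (a (nat_lit 0xa001))
 (c (a (nat_lit 0x808141408)) e
 (c (a (nat_lit 0x813d3d1e9)) e
 (c (a (nat_lit 0x1bbbaca009)) e
 (c (a (nat_lit 0x1d80000008)) e e))))
 (c (a (nat_lit 0x602001))
 (c (a (nat_lit 0x12f2d0e2e8)) e
 (c (a (nat_lit 0x1aec400009)) e e))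
 (c (a (nat_lit 0x4021))
 (c (a (nat_lit 0x1500000007)) e e)
 (c (a (nat_lit 0x802001)) e
 (c (a (nat_lit 0x602001)) e
 (c (a (nat_lit 0xa04001)) e
 (c (a (nat_lit 0xc02001)) e
 (c (a (nat_lit 0x1200021)) e
 (c (a (nat_lit 0x780c001)) e
 (c (a (nat_lit 0x1202001)) e
 (c (a (nat_lit 0x804001)) e
 (c (a (nat_lit 0x2021)) e
 (c (a (nat_lit 0x800001)) e e)))))))))))))))
 (c (a (nat_lit 0x2021))
 (c (a (nat_lit 0x12021))
 (c (a (nat_lit 0xb2b0b5b06)) e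
 (c (a (nat_lit 0x868947468)) e
 (c (a (nat_lit 0x7d3b3b1c8)) e
 (c (a (nat_lit 0x1b9b8ca008)) e
 (c (a (nat_lit 0x1d60000007)) e e)))))
 (c (a (nat_lit 0x600021))
 (c (a (nat_lit 0x814141228)) e
 (c (a (nat_lit 0x13d3d1e4e9)) e
 (c (a (nat_lit 0x1baca00009)) e e)))
 (c (a (nat_lit 0x8001))
 (c (a (nat_lit 0x12d0e2e008)) e
 (c (a (nat_lit 0x1880000008)) e e))
 (c (a (nat_lit 0x202021)) e
 (c (a (nat_lit 0x604001)) e
 (c (a (nat_lit 0x1006001)) e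
 (c (a (nat_lit 0xe06021)) e
 (c (a (nat_lit 0x1602001)) e
 (c (a (nat_lit 0x3202001)) e
 (c (a (nat_lit 0x403484)) e
 (c (a (nat_lit 0x6061)) e
 (c (a (nat_lit 0x2021)) e
 (c (a (nat_lit 0x4001)) e e)))))))))))))
 (c (a (nat_lit 0x2021))
 (c (a (nat_lit 0x20c1))
 (c (a (nat_lit 0x1999b72ca6)) e
 (c (a (nat_lit 0x1371a4c008)) e
 (c (a (nat_lit 0x18e0000007)) e e)))
 (c (a (nat_lit 0x121))
 (c (a (nat_lit 0x1103000008)) e e)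
 (c (a (nat_lit 0xc1)) e
 (c (a (nat_lit 0x2081)) e
 (c (a (nat_lit 0x4001)) e
 (c (a (nat_lit 0x2021)) e
 (c (a (nat_lit 0x20a1)) e
 (c (a (nat_lit 0x34c4)) e
 (c (a (nat_lit 0x206001)) e
 (c (a (nat_lit 0x4021)) e
 (c (a (nat_lit 0x404021)) e
 (c (a (nat_lit 0x200001)) e e))))))))))))
 (c (a (nat_lit 0x2021))
 (c (a (nat_lit 0x2081))
 (c (a (nat_lit 0x1340000003)) e e)
 (c (a (nat_lit 0xc1)) e
 (c (a (nat_lit 0x4001)) e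
 (c (a (nat_lit 0x6060c1)) e
 (c (a (nat_lit 0x60e1)) e
 (c (a (nat_lit 0x34a4)) e
 (c (a (nat_lit 0x202081)) e
 (c (a (nat_lit 0x200021)) e
 (c (a (nat_lit 0x202021)) e
 (c (a (nat_lit 0x804001)) e e))))))))))
 (c (a (nat_lit 0x2021))
 (c (a (nat_lit 0x4041)) e
 (c (a (nat_lit 0x8060a1)) e
 (c (a (nat_lit 0xa0c1)) e
 (c (a (nat_lit 0x34c4)) e
 (c (a (nat_lit 0x4041)) e
 (c (a (nat_lit 0x202001)) e
 (c (a (nat_lit 0x204021)) e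
 (c (a (nat_lit 0x202021)) e
 (c (a (nat_lit 0x200001)) e e)))))))))
 (c (a (nat_lit 0x2021))
 (c (a (nat_lit 0xc00001)) e
 (c (a (nat_lit 0x201484)) e
 (c (a (nat_lit 0x200021)) e
 (c (a (nat_lit 0x202021)) e
 (c (a (nat_lit 0x4001)) e
 (c (a (nat_lit 0x202021)) e
 (c (a (nat_lit 0x2001)) e e)))))))
 (c (a (nat_lit 0x2021))
 (c (a (nat_lit 0x202061)) e
 (c (a (nat_lit 0x2021)) e
 (c (a (nat_lit 0x41)) e
 (c (a (nat_lit 0x2021)) e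
 (c (a (nat_lit 0x204041)) e
 (c (a (nat_lit 0x200001)) e e))))))
 (c (a (nat_lit 0x2021))
 (c (a (nat_lit 0x202021)) e
 (c (a (nat_lit 0x202021)) e
 (c (a (nat_lit 0x202021)) e
 (c (a (nat_lit 0x202001)) e e))))
 (c (a (nat_lit 0x2021))
 (c (a (nat_lit 0x202021)) e
 (c (a (nat_lit 0x202021)) e
 (c (a (nat_lit 0x200001)) e e)))
 (c (a (nat_lit 0x2021))
 (c (a (nat_lit 0x202001)) e e)
 (c (a (nat_lit 0x2021)) e
 (c (a (nat_lit 0x2021)) e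
 (c (a (nat_lit 0x2021)) e
 (c (a (nat_lit 0x2021)) e
 (c (a (nat_lit 0x2021)) e
 (c z e
 (c (a (nat_lit 0x20c1)) e
 (c (a (nat_lit 0x61)) e e)))))))))))))))))))) Tr.c Tr.e (nat_lit 0) C.cx
noncomputable def C4 : Tr := beta% (fun (c : Nat → Tr → Tr → Tr) (e : Tr) (z : Nat) (a : Nat → Nat) =>
 (c z
 (c (a (nat_lit 0x2021))
 (c (a (nat_lit 0x20202001))
 (c (a (nat_lit 0xf0f0a09f044)) e
 (c (a (nat_lit 0x12e3a34f3286)) e
 (c (a (nat_lit 0x8802bf02b86)) e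
 (c (a (nat_lit 0x2c1149c846)) e
 (c (a (nat_lit 0x118c8862a006)) e
 (c (a (nat_lit 0x16a840000005)) e e))))))
 (c (a (nat_lit 0x200041))
 (c (a (nat_lit 0x208cf11ac7)) e
 (c (a (nat_lit 0x898f5403c8)) e
 (c (a (nat_lit 0xbeff307a8c8)) e
 (c (a (nat_lit 0x16dc66200007)) e
 (c (a (nat_lit 0x112000000007)) e e)))))
 (c (a (nat_lit 0x140c02001))
 (c (a (nat_lit 0x10b7752ae7a6)) e
 (c (a (nat_lit 0x1893ac028007)) e
 (c (a (nat_lit 0x1aec00000006)) e e)))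
 (c (a (nat_lit 0x40203483))
 (c (a (nat_lit 0x16f069c00005)) e
 (c (a (nat_lit 0x196000000005)) e e))
 (c (a (nat_lit 0x202037e4)) e
 (c (a (nat_lit 0x2dd3d3c6)) e
 (c (a (nat_lit 0x195f7f7da6)) e
 (c (a (nat_lit 0x12f2f30b87)) e
 (c (a (nat_lit 0x12f2f2c027)) e
 (c (a (nat_lit 0x13d3d3a4e6)) e
 (c (a (nat_lit 0x1737171705)) e
 (c (a (nat_lit 0x17170b8005)) e
 (c (a (nat_lit 0x1700000004)) e e)))))))))))))
 (c (a (nat_lit 0x202021))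
 (c (a (nat_lit 0x20c101))
 (c (a (nat_lit 0x6cb03d0027)) e
 (c (a (nat_lit 0x70a3102e489)) e
 (c (a (nat_lit 0x159e2d87c008)) e
 (c (a (nat_lit 0x13e260000008)) e e))))
 (c (a (nat_lit 0x60203a83))
 (c (a (nat_lit 0x10782aa28188)) e
 (c (a (nat_lit 0x13eb66400009)) e
 (c (a (nat_lit 0x18e000000005)) e e)))
 (c (a (nat_lit 0x2028f4e7))
 (c (a (nat_lit 0x1ac900000007)) e e)
 (c (a (nat_lit 0x278bb0c7)) e
 (c (a (nat_lit 0xdf4f6f8e8)) e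
 (c (a (nat_lit 0x16f8f92de8)) e
 (c (a (nat_lit 0x1bbbb766c8)) e
 (c (a (nat_lit 0x153525a028)) e
 (c (a (nat_lit 0x1d7be28167)) e
 (c (a (nat_lit 0x1a3a3a2d27)) e
 (c (a (nat_lit 0x1a2d200007)) e e)))))))))))
 (c (a (nat_lit 0x2021))
 (c (a (nat_lit 0x203005))
 (c (a (nat_lit 0x126d90448006)) e
 (c (a (nat_lit 0x110bc0000007)) e e))
 (c (a (nat_lit 0x14b4d4a4))
 (c (a (nat_lit 0x184000000005)) e e)
 (c (a (nat_lit 0x15979b46)) e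
 (c (a (nat_lit 0xbac304ba8)) e
 (c (a (nat_lit 0xf93d29007)) e
 (c (a (nat_lit 0x106c25e028)) e
 (c (a (nat_lit 0x1400602027)) e
 (c (a (nat_lit 0x1a40202547)) e
 (c (a (nat_lit 0x1c9c8e4006)) e
 (c (a (nat_lit 0x1c80000005)) e e))))))))))
 (c (a (nat_lit 0x202021))
 (c (a (nat_lit 0x15ffffe4)) e
 (c (a (nat_lit 0x149492dae6)) e
 (c (a (nat_lit 0xb4bf4f287)) e
 (c (a (nat_lit 0x1072525407)) e
 (c (a (nat_lit 0xa660230c8)) e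
 (c (a (nat_lit 0x40203048)) e
 (c (a (nat_lit 0x8a0203a67)) e
 (c (a (nat_lit 0x1c4e200006)) e e))))))))
 (c z
 (c (a (nat_lit 0x11d1d1dec6)) e
 (c (a (nat_lit 0x88c4f72a8)) e
 (c (a (nat_lit 0x64deef208)) e
 (c (a (nat_lit 0xd0cb3d6e8)) e
 (c (a (nat_lit 0x3832a7229)) e
 (c (a (nat_lit 0xa433fe007)) e
 (c (a (nat_lit 0x1280000006)) e e)))))))
 (c z
 (c (a (nat_lit 0x7f1955547)) e
 (c (a (nat_lit 0x9f3553528)) e
 (c (a (nat_lit 0x6ec2d1309)) e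
 (c (a (nat_lit 0x54cd3a9e9)) e
 (c (a (nat_lit 0x892400008)) e e)))))
 (c z
 (c (a (nat_lit 0x8cacad048)) e
 (c (a (nat_lit 0xc4d5352c9)) e
 (c (a (nat_lit 0xcb3a9e009)) e
 (c (a (nat_lit 0x1220000008)) e e))))
 (c (a (nat_lit 0x1824001))
 (c (a (nat_lit 0xf757586a8)) e
 (c (a (nat_lit 0x162b200009)) e e))
 (c (a (nat_lit 0x1a181))
 (c (a (nat_lit 0x1e00000006)) e e)
 (c (a (nat_lit 0x2041)) e
 (c (a (nat_lit 0x4021)) e
 (c (a (nat_lit 0x202001)) e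
 (c (a (nat_lit 0x202001)) e
 (c (a (nat_lit 0x600001)) e
 (c (a (nat_lit 0x602001)) e
 (c (a (nat_lit 0x800001)) e
 (c (a (nat_lit 0x81)) e
 (c (a (nat_lit 0x2041)) e
 (c (a (nat_lit 0x2001)) e e)))))))))))))))))))
 (c (a (nat_lit 0x2021))
 (c (a (nat_lit 0x202001))
 (c (a (nat_lit 0x809c01))
 (c (a (nat_lit 0xdef7ae70506)) e
 (c (a (nat_lit 0xbf424c302c8)) e
 (c (a (nat_lit 0x12e7a7800008)) e
 (c (a (nat_lit 0x1a4000000004)) e e))))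
 (c (a (nat_lit 0x203726))
 (c (a (nat_lit 0x190c4a616008)) e
 (c (a (nat_lit 0x116d20000008)) e e))
 (c (a (nat_lit 0x4ea9287))
 (c (a (nat_lit 0x16c000000006)) e e)
 (c (a (nat_lit 0x2c5476a7)) e
 (c (a (nat_lit 0x14185c5828)) e
 (c (a (nat_lit 0x15d5f32cc8)) e
 (c (a (nat_lit 0x1432a926e8)) e
 (c (a (nat_lit 0x1121202028)) e
 (c (a (nat_lit 0x11e1c02028)) e
 (c (a (nat_lit 0x1eff0f8007)) e
 (c (a (nat_lit 0x1f00000006)) e e)))))))))))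
 (c (a (nat_lit 0x404041))
 (c (a (nat_lit 0x29c39365))
 (c (a (nat_lit 0x123b69400006)) e
 (c (a (nat_lit 0x126000000007)) e e))
 (c (a (nat_lit 0x3b6dec7)) e
 (c (a (nat_lit 0x69336b548)) e
 (c (a (nat_lit 0xdf392ae89)) e
 (c (a (nat_lit 0x179695f628)) e
 (c (a (nat_lit 0xd23821249)) e
 (c (a (nat_lit 0x4602032e9)) e
 (c (a (nat_lit 0x120231e88)) e
 (c (a (nat_lit 0x1309800008)) e e)))))))))
 (c (a (nat_lit 0x404061))
 (c (a (nat_lit 0xb0f17dee7)) e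
 (c (a (nat_lit 0x94a8eb0c9)) e
 (c (a (nat_lit 0xbf2b173e9)) e
 (c (a (nat_lit 0xbcbee1109)) e
 (c (a (nat_lit 0x7eb1558a9)) e
 (c (a (nat_lit 0x461ab934a)) e
 (c (a (nat_lit 0x541710009)) e
 (c (a (nat_lit 0x12e0000007)) e e))))))))
 (c z
 (c (a (nat_lit 0xa8db1b1a8)) e
 (c (a (nat_lit 0x1012f4d4c9)) e
 (c (a (nat_lit 0x10d27450e9)) e
 (c (a (nat_lit 0x76bccb26a)) e
 (c (a (nat_lit 0x4ac5349aa)) e
 (c (a (nat_lit 0x191c00009)) e e))))))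
 (c (a (nat_lit 0x40c1))
 (c (a (nat_lit 0x13b7977788)) e
 (c (a (nat_lit 0xacbcbd02a)) e
 (c (a (nat_lit 0xd4e5453ea)) e
 (c (a (nat_lit 0xdf4ea800a)) e
 (c (a (nat_lit 0x1360000009)) e e)))))
 (c (a (nat_lit 0x217401))
 (c (a (nat_lit 0xb6b716e09)) e
 (c (a (nat_lit 0xe1414088a)) e
 (c (a (nat_lit 0x14aa60000a)) e e)))
 (c (a (nat_lit 0x17804022))
 (c (a (nat_lit 0x1656472009)) e
 (c (a (nat_lit 0x1740000009)) e e))
 (c (a (nat_lit 0xc04001)) e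
 (c (a (nat_lit 0xa06001)) e
 (c (a (nat_lit 0xc04001)) e
 (c (a (nat_lit 0x802001)) e
 (c (a (nat_lit 0x202061)) e
 (c (a (nat_lit 0x60c1)) e
 (c (a (nat_lit 0x241)) e
 (c (a (nat_lit 0xc0e1)) e
 (c (a (nat_lit 0x4001)) e
 (c z e
 (c (a (nat_lit 0x200001)) e e))))))))))))))))))
 C3))) Tr.c Tr.e (nat_lit 0) C.cx
noncomputable def C5 : Tr := beta% (fun (c : Nat → Tr → Tr → Tr) (e : Tr) (z : Nat) (a : Nat → Nat) =>
 (c (a (nat_lit 0x2021))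
 (c (a (nat_lit 0x202021))
 (c (a (nat_lit 0x604021))
 (c (a (nat_lit 0x100e00200003)) e
 (c (a (nat_lit 0x130000000004)) e e))
 (c (a (nat_lit 0x463425026)) e
 (c (a (nat_lit 0x145555546)) e
 (c (a (nat_lit 0xc5c1a11e7)) e
 (c (a (nat_lit 0x10d8170b47)) e
 (c (a (nat_lit 0x11c0203907)) e
 (c (a (nat_lit 0xf20605987)) e
 (c (a (nat_lit 0x1802038a7)) e
 (c (a (nat_lit 0x1bcde00005)) e e)))))))))
 (c z
 (c (a (nat_lit 0x263c852c7)) e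
 (c (a (nat_lit 0x54a8e93c8)) e
 (c (a (nat_lit 0xe3b345848)) e
 (c (a (nat_lit 0x13b50d1028)) e
 (c (a (nat_lit 0x82e3abfa8)) e
 (c (a (nat_lit 0x5202f1da9)) e
 (c (a (nat_lit 0x1803a2008)) e
 (c (a (nat_lit 0x1e60000005)) e e))))))))
 (c (a (nat_lit 0x11206003))
 (c (a (nat_lit 0x92bb3d1c7)) e
 (c (a (nat_lit 0x1054783828)) e
 (c (a (nat_lit 0x1a93b78fe8)) e
 (c (a (nat_lit 0x7ae907bc9)) e
 (c (a (nat_lit 0x44fbdaec9)) e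
 (c (a (nat_lit 0x1aa00008)) e e))))))
 (c (a (nat_lit 0x2410001))
 (c (a (nat_lit 0x15fd9d7d87)) e
 (c (a (nat_lit 0xd0f0f1729)) e
 (c (a (nat_lit 0x11b3bfbf09)) e
 (c (a (nat_lit 0x99068400a)) e
 (c (a (nat_lit 0x1de0000008)) e e)))))
 (c z
 (c (a (nat_lit 0xe8e9a92e8)) e
 (c (a (nat_lit 0x13bf5f4c49)) e
 (c (a (nat_lit 0x104820000a)) e e)))
 (c z
 (c (a (nat_lit 0x11d1c5a009)) e
 (c (a (nat_lit 0x12e0000009)) e e))
 (c (a (nat_lit 0x402001)) e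
 (c (a (nat_lit 0x206001)) e
 (c (a (nat_lit 0x404021)) e
 (c (a (nat_lit 0x606001)) e
 (c (a (nat_lit 0xa04001)) e
 (c (a (nat_lit 0xa02001)) e
 (c (a (nat_lit 0x120e001)) e
 (c (a (nat_lit 0x2802001)) e
 (c (a (nat_lit 0x202061)) e
 (c (a (nat_lit 0x606021)) e
 (c (a (nat_lit 0x600001)) e e)))))))))))))))))
 (c (a (nat_lit 0x2021))
 (c (a (nat_lit 0x10004081))
 (c (a (nat_lit 0x2a7d7d7c5)) e
 (c (a (nat_lit 0x6f0343427)) e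
 (c (a (nat_lit 0x1ffb1ef0e7)) e
 (c (a (nat_lit 0x12abcfaf67)) e
 (c (a (nat_lit 0xd6dafbb88)) e
 (c (a (nat_lit 0x24f7d6ec8)) e
 (c (a (nat_lit 0x1a800007)) e e)))))))
 (c z
 (c (a (nat_lit 0xd75757387)) e
 (c (a (nat_lit 0x1559191228)) e
 (c (a (nat_lit 0x668687449)) e
 (c (a (nat_lit 0xe503c3c29)) e
 (c (a (nat_lit 0x101e0f0009)) e
 (c (a (nat_lit 0x1b20000008)) e e))))))
 (c (a (nat_lit 0x2438001))
 (c (a (nat_lit 0xececef3e8)) e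
 (c (a (nat_lit 0xb2b3733a9)) e
 (c (a (nat_lit 0x12feff0ca9)) e
 (c (a (nat_lit 0x106840000a)) e e))))
 (c (a (nat_lit 0x1a404002))
 (c (a (nat_lit 0x912d2d0c8)) e
 (c (a (nat_lit 0x1b5acc4009)) e
 (c (a (nat_lit 0x1ca0000008)) e e)))
 (c (a (nat_lit 0x4021))
 (c (a (nat_lit 0x11a5400009)) e e)
 (c (a (nat_lit 0x202001)) e
 (c (a (nat_lit 0x604001)) e
 (c (a (nat_lit 0x4021)) e
 (c (a (nat_lit 0x402001)) e
 (c (a (nat_lit 0x200001)) e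
 (c (a (nat_lit 0x100c001)) e
 (c (a (nat_lit 0x403464)) e
 (c (a (nat_lit 0x404041)) e
 (c (a (nat_lit 0x4001)) e
 (c (a (nat_lit 0x602001)) e e)))))))))))))))
 (c (a (nat_lit 0x2021))
 (c (a (nat_lit 0xa16001))
 (c (a (nat_lit 0x1cdcdcf545)) e
 (c (a (nat_lit 0x929295448)) e
 (c (a (nat_lit 0x868747368)) e
 (c (a (nat_lit 0x105c5c4c88)) e
 (c (a (nat_lit 0x1e2f200008)) e e)))))
 (c (a (nat_lit 0x1c0e1))
 (c (a (nat_lit 0x7e7f3f3e8)) e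
 (c (a (nat_lit 0x7b3b3b1c9)) e
 (c (a (nat_lit 0x1b9b8ca009)) e
 (c (a (nat_lit 0x1d60000008)) e e))))
 (c (a (nat_lit 0x402001))
 (c (a (nat_lit 0x12d2b0c2e8)) e
 (c (a (nat_lit 0x1acc400009)) e e))
 (c (a (nat_lit 0x6061))
 (c (a (nat_lit 0x14e0000007)) e e)
 (c (a (nat_lit 0x402001)) e
 (c (a (nat_lit 0x406001)) e
 (c (a (nat_lit 0x604021)) e
 (c (a (nat_lit 0x402001)) e
 (c (a (nat_lit 0xa08001)) e
 (c (a (nat_lit 0x203464)) e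
 (c (a (nat_lit 0x4061)) e
 (c (a (nat_lit 0x4041)) e
 (c (a (nat_lit 0x2021)) e
 (c (a (nat_lit 0x400001)) e e))))))))))))))
 (c (a (nat_lit 0x2021))
 (c (a (nat_lit 0x2061))
 (c (a (nat_lit 0x9797976e6)) e
 (c (a (nat_lit 0x13535164a8)) e
 (c (a (nat_lit 0x1b2c600008)) e e)))
 (c (a (nat_lit 0x4101))
 (c (a (nat_lit 0x12d0e2e008)) e
 (c (a (nat_lit 0x1880000008)) e e))
 (c (a (nat_lit 0x4141)) e
 (c (a (nat_lit 0x40c1)) e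
 (c (a (nat_lit 0x4081)) e
 (c (a (nat_lit 0x20e1)) e
 (c (a (nat_lit 0x2241)) e
 (c (a (nat_lit 0x3504)) e
 (c (a (nat_lit 0x408001)) e
 (c (a (nat_lit 0x406081)) e
 (c (a (nat_lit 0x4041)) e
 (c (a (nat_lit 0x204001)) e e))))))))))))
 (c (a (nat_lit 0x2021))
 (c (a (nat_lit 0x2081))
 (c (a (nat_lit 0x14e2800006)) e e)
 (c (a (nat_lit 0x2121)) e
 (c (a (nat_lit 0x20a1)) e
 (c (a (nat_lit 0x2081)) e
 (c (a (nat_lit 0x6581)) e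
 (c (a (nat_lit 0x3504)) e
 (c (a (nat_lit 0x406101)) e
 (c (a (nat_lit 0x202021)) e
 (c (a (nat_lit 0x202021)) e
 (c (a (nat_lit 0x606061)) e
 (c (a (nat_lit 0x200001)) e e)))))))))))
 (c (a (nat_lit 0x2021))
 (c (a (nat_lit 0x2061)) e
 (c (a (nat_lit 0x2081)) e
 (c (a (nat_lit 0xa1e1)) e
 (c (a (nat_lit 0x3524)) e
 (c (a (nat_lit 0x202061)) e
 (c (a (nat_lit 0x204041)) e
 (c (a (nat_lit 0x6041)) e
 (c (a (nat_lit 0x202021)) e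
 (c (a (nat_lit 0x2001)) e e)))))))))
 (c (a (nat_lit 0x2021))
 (c (a (nat_lit 0x408041)) e
 (c (a (nat_lit 0x34c4)) e
 (c (a (nat_lit 0x402041)) e
 (c (a (nat_lit 0x202021)) e
 (c (a (nat_lit 0x200021)) e
 (c (a (nat_lit 0x202021)) e
 (c (a (nat_lit 0x200021)) e
 (c (a (nat_lit 0x200001)) e e))))))))
 (c (a (nat_lit 0x2001))
 (c (a (nat_lit 0x2021)) e
 (c (a (nat_lit 0x4021)) e
 (c (a (nat_lit 0x2001)) e
 (c (a (nat_lit 0x202021)) e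
 (c (a (nat_lit 0x2001)) e
 (c (a (nat_lit 0x204001)) e e))))))
 (c (a (nat_lit 0x2021))
 (c (a (nat_lit 0x202021)) e
 (c (a (nat_lit 0x202021)) e
 (c (a (nat_lit 0x202021)) e
 (c (a (nat_lit 0x202021)) e
 (c (a (nat_lit 0x200001)) e e)))))
 (c (a (nat_lit 0x2021))
 (c (a (nat_lit 0x202021)) e
 (c (a (nat_lit 0x202021)) e
 (c (a (nat_lit 0x202001)) e e)))
 (c (a (nat_lit 0x2021))
 (c (a (nat_lit 0x202021)) e
 (c (a (nat_lit 0x200001)) e e))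
 (c (a (nat_lit 0x2021)) e
 (c (a (nat_lit 0x2021)) e
 (c (a (nat_lit 0x2021)) e
 (c (a (nat_lit 0x2021)) e
 (c (a (nat_lit 0x2021)) e
 (c (a (nat_lit 0x2021)) e e)))))))))))))))))) Tr.c Tr.e (nat_lit 0) C.cx
noncomputable def C6 : Tr := beta% (fun (c : Nat → Tr → Tr → Tr) (e : Tr) (z : Nat) (a b : Nat → Nat) =>
 (c (a (nat_lit 0x2021))
 (c (a (nat_lit 0x202021))
 (c (a (nat_lit 0x20400001))
 (c (a (nat_lit 0x12b2b2b14f86)) e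
 (c (a (nat_lit 0x12f2e6270f68)) e
 (c (a (nat_lit 0x1dcc8b57bbc7)) e
 (c (a (nat_lit 0x420965c3327)) e
 (c (a (nat_lit 0x558972f6867)) e
 (c (a (nat_lit 0x1d340d600007)) e
 (c (a (nat_lit 0x126000000006)) e e)))))))
 (c (a (nat_lit 0x40204041))
 (c (a (nat_lit 0x1ca2c3355f48)) e
 (c (a (nat_lit 0x204f39b109)) e
 (c (a (nat_lit 0x310bbadaba9)) e
 (c (a (nat_lit 0x1133ac850009)) e
 (c (a (nat_lit 0x116600000009)) e e)))))
 (c (a (nat_lit 0xe0804001))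
 (c (a (nat_lit 0x6f918fe348)) e
 (c (a (nat_lit 0x1d3f3b024048)) e
 (c (a (nat_lit 0x127242000008)) e
 (c (a (nat_lit 0x128000000007)) e e))))
 (c (a (nat_lit 0x60403483))
 (c (a (nat_lit 0x172e22802007)) e
 (c (a (nat_lit 0x1046a0000007)) e e))
 (c (a (nat_lit 0x20203006))
 (c (a (nat_lit 0x126000000005)) e e)
 (c (a (nat_lit 0x8327ae7)) e
 (c (a (nat_lit 0x5d397b788)) e
 (c (a (nat_lit 0xff1716f09)) e
 (c (a (nat_lit 0x11b1b18f29)) e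
 (c (a (nat_lit 0x1cdcdcb548)) e
 (c (a (nat_lit 0x1959595947)) e
 (c (a (nat_lit 0x1959594ca7)) e
 (c (a (nat_lit 0x194ca00007)) e e)))))))))))))
 (c (a (nat_lit 0x404021))
 (c (a (nat_lit 0x204401))
 (c (a (nat_lit 0x214e7706a8)) e
 (c (a (nat_lit 0x903bad04c9)) e
 (c (a (nat_lit 0x117bcb462329)) e
 (c (a (nat_lit 0x13c784600009)) e
 (c (a (nat_lit 0x192000000006)) e e)))))
 (c (a (nat_lit 0x20203444))
 (c (a (nat_lit 0xdf58fc22189)) e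
 (c (a (nat_lit 0x12ab6561800a)) e
 (c (a (nat_lit 0x156e40000008)) e e)))
 (c (a (nat_lit 0x28f607))
 (c (a (nat_lit 0x1b9729200007)) e
 (c (a (nat_lit 0x19a000000007)) e e))
 (c (a (nat_lit 0x24bf248)) e
 (c (a (nat_lit 0x2d54b8a8)) e
 (c (a (nat_lit 0x14dabcb9c9)) e
 (c (a (nat_lit 0xf7070ac0a)) e
 (c (a (nat_lit 0x1d3d3c2689)) e
 (c (a (nat_lit 0x16f6f6e5c9)) e
 (c (a (nat_lit 0x1e1e1e1e08)) e
 (c (a (nat_lit 0x1e1e0f0008)) e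
 (c (a (nat_lit 0x1e00000007)) e e))))))))))))
 (c (a (nat_lit 0x404061))
 (c (a (nat_lit 0xa0203225))
 (c (a (nat_lit 0x12140423e247)) e
 (c (a (nat_lit 0x13cda6800008)) e
 (c (a (nat_lit 0x15c000000006)) e e)))
 (c (a (nat_lit 0x8e83d46))
 (c (a (nat_lit 0x160b00000007)) e e)
 (c (a (nat_lit 0x25559746)) e
 (c (a (nat_lit 0xdb5b99c88)) e
 (c (a (nat_lit 0x17fa1e5748)) e
 (c (a (nat_lit 0x1696d2e849)) e
 (c (a (nat_lit 0x1cfceac028)) e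
 (c (a (nat_lit 0x1cdc87e028)) e
 (c (a (nat_lit 0x1232322928)) e
 (c (a (nat_lit 0x1229200008)) e e))))))))))
 (c (a (nat_lit 0x404041))
 (c (a (nat_lit 0x25556c85))
 (c (a (nat_lit 0x100000000004)) e e)
 (c (a (nat_lit 0xa1c7cbb66)) e
 (c (a (nat_lit 0xcacae75a8)) e
 (c (a (nat_lit 0xe511555a8)) e
 (c (a (nat_lit 0x15dad48508)) e
 (c (a (nat_lit 0x11e0202028)) e
 (c (a (nat_lit 0x1ee1002ca7)) e
 (c (a (nat_lit 0x1212090008)) e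
 (c (a (nat_lit 0x1200000007)) e e)))))))))
 (c (a (nat_lit 0x202021))
 (c (a (nat_lit 0xeae4cb326)) e
 (c (a (nat_lit 0x5c42b7468)) e
 (c (a (nat_lit 0xaca157968)) e
 (c (a (nat_lit 0x4e5e73289)) e
 (c (a (nat_lit 0x20203069)) e
 (c (a (nat_lit 0x420203748)) e
 (c (a (nat_lit 0x1209000008)) e e)))))))
 (c (a (nat_lit 0x402021))
 (c (a (nat_lit 0x2842a50a8)) e
 (c (a (nat_lit 0x3691093c9)) e
 (c (a (nat_lit 0x72d95f909)) e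
 (c (a (nat_lit 0x3a0ab730a)) e
 (c (a (nat_lit 0x666f0e009)) e
 (c (a (nat_lit 0x1260000007)) e e))))))
 (c z
 (c (a (nat_lit 0x2f2565648)) e
 (c (a (nat_lit 0x58cedf3ea)) e
 (c (a (nat_lit 0x66d746a4a)) e
 (c (a (nat_lit 0xc12e00009)) e e))))
 (c z
 (c (a (nat_lit 0x1011f7f649)) e
 (c (a (nat_lit 0x10f80c200a)) e
 (c (a (nat_lit 0x1660000009)) e e)))
 (c (a (nat_lit 0x14241))
 (c (a (nat_lit 0x17c8000009)) e e)
 (c (a (nat_lit 0x26261)) e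
 (c (a (nat_lit 0x2081)) e
 (c (a (nat_lit 0x60a1)) e
 (c (a (nat_lit 0x2021)) e
 (c (a (nat_lit 0x206001)) e
 (c (a (nat_lit 0x400001)) e
 (c (nat_lit 1) e
 (c (a (nat_lit 0x21a1)) e
 (c (a (nat_lit 0x203504)) e
 (c (a (nat_lit 0x5801)) e
 (c (a (nat_lit 0x200001)) e e))))))))))))))))))))
 (c (a (nat_lit 0x2021))
 (c (a (nat_lit 0x202021))
 (c (a (nat_lit 0x62be81))
 (c (a (nat_lit 0x44f78444b06)) e
 (c (a (nat_lit 0xbf2a50460c8)) e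
 (c (a (nat_lit 0x10a425802008)) e
 (c (a (nat_lit 0x145880000006)) e e))))
 (c (a (nat_lit 0x203724))
 (c (a (nat_lit 0x178d46a3c108)) e
 (c (a (nat_lit 0x144e05800008)) e
 (c (a (nat_lit 0x1aa000000006)) e e)))
 (c (a (nat_lit 0x4033f3e3))
 (c (a (nat_lit 0x1b0dc0000005)) e e)
 (c (a (nat_lit 0x24ccd427)) e
 (c (a (nat_lit 0xb11b9bd07)) e
 (c (a (nat_lit 0x155abad708)) e
 (c (a (nat_lit 0x1ddddc88a8)) e
 (c (a (nat_lit 0x1c7bab8028)) e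
 (c (a (nat_lit 0x117163e2c8)) e
 (c (a (nat_lit 0x1ebedecf67)) e
 (c (a (nat_lit 0x1ecf600007)) e e)))))))))))
 (c (a (nat_lit 0x404041))
 (c (a (nat_lit 0x207a1501))
 (c (a (nat_lit 0x13c524c04007)) e
 (c (a (nat_lit 0x1cdb60000006)) e e))
 (c (a (nat_lit 0x96bb706))
 (c (a (nat_lit 0x112000000005)) e e)
 (c (a (nat_lit 0x24f3d987)) e
 (c (a (nat_lit 0xcb3ffdcc8)) e
 (c z e
 (c (a (nat_lit 0x1311e76189)) e
 (c (a (nat_lit 0x18c5a02028)) e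
 (c (a (nat_lit 0x1981a02668)) e
 (c (a (nat_lit 0x12d2c96008)) e
 (c (a (nat_lit 0x12c0000007)) e e))))))))))
 (c (a (nat_lit 0x202021))
 (c (a (nat_lit 0x29d53545)) e
 (c (a (nat_lit 0x44b339e47)) e
 (c (a (nat_lit 0xe313a33e8)) e
 (c (a (nat_lit 0x163dde55c8)) e
 (c (a (nat_lit 0x1ff168fe48)) e
 (c (a (nat_lit 0x1c02032e9)) e
 (c (a (nat_lit 0x9c0203b28)) e
 (c (a (nat_lit 0x12a9600008)) e e))))))))
 (c (a (nat_lit 0x202021))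
 (c (a (nat_lit 0xe0e163ec7)) e
 (c (a (nat_lit 0x76cb11389)) e
 (c (a (nat_lit 0x7cfb07409)) e
 (c (a (nat_lit 0xbed559909)) e
 (c (a (nat_lit 0xc02b732a)) e
 (c (a (nat_lit 0x1e030e009)) e
 (c (a (nat_lit 0x12a0000007)) e e)))))))
 (c z
 (c (a (nat_lit 0xc93773728)) e
 (c (a (nat_lit 0xdb5373729)) e
 (c z e
 (c (a (nat_lit 0x4edd4ca6a)) e
 (c (a (nat_lit 0x4f3400009)) e e)))))
 (c (b (nat_lit 0x1ddfe023))
 (c (a (nat_lit 0x9cbcbb149)) e e)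
 (c z
 (c (a (nat_lit 0x1096b6a709)) e
 (c (a (nat_lit 0x172ba0000a)) e e))
 (c (a (nat_lit 0x17206001))
 (c (a (nat_lit 0x1f60000007)) e e)
 (c (a (nat_lit 0x608001)) e
 (c (a (nat_lit 0x804001)) e
 (c (a (nat_lit 0x802001)) e
 (c (a (nat_lit 0x402041)) e
 (c (a (nat_lit 0x40c1)) e
 (c (a (nat_lit 0x141)) e
 (c (a (nat_lit 0x2341)) e
 (c (a (nat_lit 0x204001)) e
 (c (a (nat_lit 0x406061)) e
 (c (a (nat_lit 0x202001)) e e))))))))))))))))))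
 C5))) Tr.c Tr.e (nat_lit 0) C.cx C.cy
noncomputable def C7 : Tr := beta% (fun (c : Nat → Tr → Tr → Tr) (e : Tr) (z : Nat) (a b : Nat → Nat) =>
 (c (a (nat_lit 0x202021))
 (c (a (nat_lit 0x2021))
 (c (a (nat_lit 0x1d5d5d5d5d43))
 (c z e
 (c (a (nat_lit 0x18989c8ea00005)) e
 (c (a (nat_lit 0x18ce6000000005)) e e)))
 (c (a (nat_lit 0x127272727266))
 (c (a (nat_lit 0xe50c5e0000007)) e
 (c (a (nat_lit 0x10600000000007)) e e))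
 (c (a (nat_lit 0x12b2b2b2b346)) e
 (c (a (nat_lit 0x1d5d5d5e9425)) e
 (c (a (nat_lit 0x1d3d3e70eea5)) e
 (c (a (nat_lit 0x1d3e6b00c8e5)) e
 (c (a (nat_lit 0xf444044d066)) e
 (c (a (nat_lit 0x1b2e7bcf8005)) e
 (c (a (nat_lit 0x11c960000006)) e e)))))))))
 (c (a (nat_lit 0x202021))
 (c (a (nat_lit 0x1292929292c7))
 (c (a (nat_lit 0x16260000000007)) e e)
 (c (a (nat_lit 0x12d2d2d30b48)) e
 (c (a (nat_lit 0x1d7d7e0eae07)) e
 (c (a (nat_lit 0x1d7dee110dc7)) e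
 (c (a (nat_lit 0x1de6a4b272e7)) e
 (c (a (nat_lit 0xd353a99b027)) e
 (c (a (nat_lit 0x185868800007)) e
 (c (a (nat_lit 0x1fa000000006)) e e))))))))
 (c (a (nat_lit 0x20202021))
 (c (a (nat_lit 0x12f2f3442647)) e
 (c (a (nat_lit 0x1dfe64acd9a7)) e
 (c (a (nat_lit 0x1e63cc573a27)) e
 (c (a (nat_lit 0x249e7f94a7)) e
 (c (a (nat_lit 0xa19da276007)) e e)))))
 (c (a (nat_lit 0x202001))
 (c (a (nat_lit 0x1686a7b87386)) e
 (c (a (nat_lit 0x5a5b3ad4fe7)) e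
 (c (a (nat_lit 0x630ee2b6267)) e e)))
 (c (a (nat_lit 0x200001))
 (c (a (nat_lit 0xa514ba926c6)) e
 (c (a (nat_lit 0x1a7629868005)) e
 (c (a (nat_lit 0x1ca800000005)) e e)))
 (c (a (nat_lit 0x20a1))
 (c (a (nat_lit 0x134189a00004)) e
 (c (a (nat_lit 0x90000000001)) e e))
 (c (a (nat_lit 0x207543)) e
 (c (a (nat_lit 0x202ab765)) e
 (c (a (nat_lit 0x2f125247)) e
 (c (a (nat_lit 0x11f5353467)) e
 (c (a (nat_lit 0x1434343307)) e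
 (c (a (nat_lit 0x1bfbfbfbe5)) e
 (c (a (nat_lit 0x1999999985)) e
 (c (a (nat_lit 0x1999998cc5)) e
 (c (a (nat_lit 0x198cc00005)) e e)))))))))))))))
 (c (a (nat_lit 0x202021))
 (c (a (nat_lit 0x20404021))
 (c (a (nat_lit 0x12929292b527))
 (c (a (nat_lit 0x1ee00000000004)) e e)
 (c (a (nat_lit 0x1c3c3c4daa08)) e
 (c (a (nat_lit 0x165667ccd008)) e
 (c (a (nat_lit 0x1641e4ed1008)) e
 (c (a (nat_lit 0x48753fc5f07)) e
 (c (a (nat_lit 0x1255f469a008)) e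
 (c (a (nat_lit 0x12e660000008)) e e)))))))
 (c (a (nat_lit 0x204061))
 (c (a (nat_lit 0x1c9ca3e57628)) e
 (c (a (nat_lit 0x16a044311749)) e
 (c (a (nat_lit 0x21d2796829)) e
 (c (a (nat_lit 0x907709e8c9)) e
 (c (a (nat_lit 0xf3002c00009)) e
 (c (a (nat_lit 0x19e000000008)) e e))))))
 (c (a (nat_lit 0x40202001))
 (c (a (nat_lit 0x4e6f5348)) e
 (c (b (nat_lit 0x1ffd18d54368)) e
 (c (a (nat_lit 0x14353481c008)) e
 (c (a (nat_lit 0x120980000008)) e e))))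
 (c (a (nat_lit 0x60402001))
 (c (a (nat_lit 0x13142b6340a7)) e
 (c (a (nat_lit 0x1f7044c00006)) e
 (c (a (nat_lit 0x162000000006)) e e)))
 (c (a (nat_lit 0x2034a4))
 (c (a (nat_lit 0xa9040000004)) e e)
 (c (a (nat_lit 0x27b187)) e
 (c (a (nat_lit 0x86df0a8)) e
 (c (a (nat_lit 0x96ff0af09)) e
 (c (a (nat_lit 0x11b27271e9)) e
 (c (a (nat_lit 0x1070706d69)) e
 (c (a (nat_lit 0x1a9a9a9a87)) e
 (c (a (nat_lit 0x19f9f9f9e7)) e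
 (c (a (nat_lit 0x19f9ed0007)) e
 (c (a (nat_lit 0x19e0000006)) e e))))))))))))))
 (c (a (nat_lit 0x202021))
 (c (a (nat_lit 0x204101))
 (c (a (nat_lit 0x13406211d807)) e
 (c (a (nat_lit 0x61739d85a8)) e
 (c (a (nat_lit 0x329da124a8)) e
 (c (a (nat_lit 0x16f849280008)) e
 (c (a (nat_lit 0x1fc300000007)) e e)))))
 (c (a (nat_lit 0x2081))
 (c (a (nat_lit 0x28f164d82a8)) e
 (c (a (nat_lit 0xef3e862c209)) e
 (c (a (nat_lit 0x1acbaa200008)) e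
 (c (a (nat_lit 0x1ee000000006)) e e))))
 (c (a (nat_lit 0x2078e2))
 (c (a (nat_lit 0x1a4845c2a007)) e
 (c (a (nat_lit 0x1672a0000006)) e e))
 (c (a (nat_lit 0x283327))
 (c (a (nat_lit 0x118000000006)) e e)
 (c (a (nat_lit 0xa151327)) e
 (c (a (nat_lit 0xb3312d448)) e
 (c (a (nat_lit 0xc2fb0af89)) e
 (c (a (nat_lit 0x1031312c69)) e
 (c (a (nat_lit 0x16767675e8)) e
 (c (a (nat_lit 0x1b3b3b3b27)) e
 (c (a (nat_lit 0x1a9a9aad67)) e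
 (c (a (nat_lit 0x1a8d600007)) e e))))))))))))
 (c (a (nat_lit 0x202021))
 (c (a (nat_lit 0x604034a3))
 (c (a (nat_lit 0xe1278c26646)) e
 (c (a (nat_lit 0x126fedc68007)) e
 (c (a (nat_lit 0x1b31a0000006)) e e)))
 (c (a (nat_lit 0x40203925))
 (c (a (nat_lit 0xef307000007)) e
 (c (a (nat_lit 0x110000000007)) e e))
 (c (a (nat_lit 0xa911145)) e
 (c (a (nat_lit 0x369b47467)) e
 (c (a (nat_lit 0x13b3b4eda7)) e
 (c (a (nat_lit 0xdf5f7cf68)) e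
 (c (a (nat_lit 0x1b7fbfacc7)) e
 (c (a (nat_lit 0x1efefeeba7)) e
 (c (a (nat_lit 0x1e9e9e9e86)) e
 (c (a (nat_lit 0x1d5d4ea006)) e
 (c (a (nat_lit 0x1d40000005)) e e)))))))))))
 (c (a (nat_lit 0x202021))
 (c (a (nat_lit 0x255215e5))
 (c (a (nat_lit 0x166840000005)) e e)
 (c (a (nat_lit 0x12d6ace5)) e
 (c (a (nat_lit 0x1918b84266)) e
 (c (a (nat_lit 0xbebeeff86)) e
 (c (a (nat_lit 0xdd0761307)) e
 (c (a (nat_lit 0x1afeeec747)) e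
 (c (a (nat_lit 0x1dfdf2c027)) e
 (c (a (nat_lit 0x1e5e3e4fc6)) e
 (c (a (nat_lit 0x1d0e800006)) e e)))))))))
 (c (a (nat_lit 0x202021))
 (c (a (nat_lit 0x1b7b79f0c4)) e
 (c (a (nat_lit 0x1291603223)) e
 (c (a (nat_lit 0x9ea48d9a6)) e
 (c (a (nat_lit 0x1307496de6)) e
 (c (a (nat_lit 0x12c2602027)) e
 (c (a (nat_lit 0x1687660027)) e
 (c (a (nat_lit 0x1e3e2fc006)) e
 (c (a (nat_lit 0x1d00000005)) e e))))))))
 (c (a (nat_lit 0x404041))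
 (c (a (nat_lit 0x1380203b84)) e
 (c (a (nat_lit 0x6224876e7)) e
 (c (a (nat_lit 0x182c77407)) e
 (c (a (nat_lit 0x202034e7)) e
 (c (a (nat_lit 0x5c4e039e7)) e
 (c (a (nat_lit 0x1ed0000006)) e e))))))
 (c z
 (c (a (nat_lit 0x2828730e7)) e
 (c (a (nat_lit 0x266f356c8)) e
 (c (a (nat_lit 0x1036a71e9)) e
 (c (a (nat_lit 0x11afbf4007)) e
 (c (a (nat_lit 0x1100000006)) e e)))))
 (c z
 (c (a (nat_lit 0x2d6f7548)) e
 (c (a (nat_lit 0x6cf562b29)) e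
 (c (a (nat_lit 0x1134a00008)) e e)))
 (c z
 (c (a (nat_lit 0xf5747e008)) e
 (c (a (nat_lit 0x15a0000008)) e e))
 (c (a (nat_lit 0x14221)) e
 (c z e
 (c (a (nat_lit 0x2061)) e
 (c (a (nat_lit 0x4061)) e
 (c (a (nat_lit 0x4041)) e
 (c (a (nat_lit 0x4041)) e
 (c (a (nat_lit 0x41)) e
 (c (a (nat_lit 0x61)) e
 (c (a (nat_lit 0x4341)) e
 (c (a (nat_lit 0x402001)) e
 (c (a (nat_lit 0x4001)) e e)))))))))))))))))))))) Tr.c Tr.e (nat_lit 0) C.cx C.cy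
noncomputable def C8 : Tr := beta% (fun (c : Nat → Tr → Tr → Tr) (e : Tr) (z : Nat) (a : Nat → Nat) =>
 (c (a (nat_lit 0x2021))
 (c (a (nat_lit 0x123220e1))
 (c (a (nat_lit 0x121213885)) e
 (c (a (nat_lit 0x3cc3207)) e
 (c (a (nat_lit 0x33f59df67)) e
 (c (a (nat_lit 0x17b98ef0c7)) e
 (c (a (nat_lit 0x8cf6d5028)) e
 (c (a (nat_lit 0x9814f1de8)) e
 (c (a (nat_lit 0x203a2007)) e
 (c (a (nat_lit 0x1020000005)) e e))))))))
 (c (a (nat_lit 0xbc1c061))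
 (c (a (nat_lit 0x28b735347)) e
 (c (a (nat_lit 0x163bbf7868)) e
 (c (a (nat_lit 0x1b54583068)) e
 (c (a (nat_lit 0xfeed0bc09)) e
 (c (a (nat_lit 0x66ffdef09)) e
 (c (a (nat_lit 0x3ae00008)) e e))))))
 (c z
 (c (a (nat_lit 0x16de5e5e47)) e
 (c (a (nat_lit 0xd8f8f97a9)) e
 (c (a (nat_lit 0x92a100fca)) e
 (c (a (nat_lit 0x9b0a8600a)) e
 (c (a (nat_lit 0x1e60000008)) e e)))))
 (c z
 (c (a (nat_lit 0xf0f1b1368)) e
 (c (a (nat_lit 0x141fdfcc89)) e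
 (c (a (nat_lit 0x108840000a)) e e)))
 (c (a (nat_lit 0x11202004))
 (c (a (nat_lit 0x121205a009)) e
 (c (a (nat_lit 0x1300000009)) e e))
 (c (a (nat_lit 0x1402001)) e
 (c (a (nat_lit 0xc00001)) e
 (c (a (nat_lit 0x602021)) e
 (c (a (nat_lit 0x4061)) e
 (c (a (nat_lit 0x4001)) e
 (c (a (nat_lit 0x804001)) e
 (c z e
 (c (a (nat_lit 0x41a021)) e
 (c (a (nat_lit 0x1606061)) e
 (c (a (nat_lit 0x2021)) e
 (c (a (nat_lit 0xa00001)) e e))))))))))))))))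
 (c (a (nat_lit 0x2021))
 (c z
 (c (a (nat_lit 0xdddbdbda5)) e
 (c (a (nat_lit 0xeb090a9a8)) e
 (c (a (nat_lit 0x7090934e8)) e
 (c (a (nat_lit 0xef0dcdcc8)) e
 (c (a (nat_lit 0x10beaf6008)) e
 (c (a (nat_lit 0x1bc0000007)) e e))))))
 (c (a (nat_lit 0x2e40001))
 (c (a (nat_lit 0xf4f4f7468)) e
 (c (a (nat_lit 0xbabb7d429)) e
 (c (a (nat_lit 0x139f9f8ce9)) e
 (c (a (nat_lit 0x10c860000a)) e e))))
 (c (a (nat_lit 0x1b408002))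
 (c (a (nat_lit 0x933737168)) e
 (c (a (nat_lit 0x1bfb6c8009)) e
 (c (a (nat_lit 0x1d40000008)) e e)))
 (c (a (nat_lit 0xc02001))
 (c (a (nat_lit 0x1205600009)) e e)
 (c (a (nat_lit 0xc02001)) e
 (c (a (nat_lit 0x802001)) e
 (c (a (nat_lit 0x204041)) e
 (c (a (nat_lit 0x204001)) e
 (c (a (nat_lit 0x602001)) e
 (c z e
 (c (a (nat_lit 0x204021)) e
 (c (a (nat_lit 0x604001)) e
 (c (a (nat_lit 0x406021)) e
 (c (a (nat_lit 0xe02001)) e e))))))))))))))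
 (c (a (nat_lit 0x2021))
 (c (a (nat_lit 0xa04001))
 (c (a (nat_lit 0xa0a3a3a26)) e
 (c (a (nat_lit 0x7f3f3f208)) e
 (c (a (nat_lit 0x1bbbacc008)) e
 (c (a (nat_lit 0x1d80000007)) e e))))
 (c (a (nat_lit 0x800001))
 (c (a (nat_lit 0x1393718328)) e
 (c (a (nat_lit 0x1b8c800009)) e e))
 (c (a (nat_lit 0x20e1))
 (c (a (nat_lit 0x1540000007)) e e)
 (c (a (nat_lit 0x20c1)) e
 (c (a (nat_lit 0x20e1)) e
 (c (a (nat_lit 0x2101)) e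
 (c (a (nat_lit 0x6141)) e
 (c z e
 (c (a (nat_lit 0x40c021)) e
 (c (a (nat_lit 0x404101)) e
 (c (a (nat_lit 0x4041)) e
 (c (a (nat_lit 0x408021)) e
 (c (a (nat_lit 0x800001)) e e)))))))))))))
 (c (a (nat_lit 0x2021))
 (c (a (nat_lit 0x404021))
 (c (a (nat_lit 0x1835a2a006)) e
 (c (a (nat_lit 0x1800000007)) e e))
 (c (a (nat_lit 0xc1)) e
 (c (a (nat_lit 0x40a1)) e
 (c (a (nat_lit 0x6081)) e
 (c (a (nat_lit 0x40a1)) e
 (c z e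
 (c (a (nat_lit 0x404021)) e
 (c (a (nat_lit 0x404041)) e
 (c (a (nat_lit 0x2021)) e
 (c (a (nat_lit 0x202001)) e
 (c (a (nat_lit 0xc06001)) e e)))))))))))
 (c (a (nat_lit 0x2021))
 (c (a (nat_lit 0x4081)) e
 (c (a (nat_lit 0x6061)) e
 (c (a (nat_lit 0x200041)) e
 (c z e
 (c (a (nat_lit 0x406021)) e
 (c (a (nat_lit 0x404021)) e
 (c (a (nat_lit 0x6041)) e
 (c (a (nat_lit 0x404021)) e
 (c (a (nat_lit 0x602021)) e
 (c (a (nat_lit 0x600001)) e e))))))))))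
 (c (a (nat_lit 0x2021))
 (c (a (nat_lit 0x604021)) e
 (c z e
 (c (a (nat_lit 0x406041)) e
 (c (a (nat_lit 0x402021)) e
 (c (a (nat_lit 0x404021)) e
 (c (a (nat_lit 0x202041)) e
 (c (a (nat_lit 0x2021)) e
 (c (a (nat_lit 0x202001)) e e))))))))
 (c (a (nat_lit 0x2021))
 (c (a (nat_lit 0x8021)) e
 (c (a (nat_lit 0x200021)) e
 (c (a (nat_lit 0x202021)) e
 (c (a (nat_lit 0x202021)) e
 (c (a (nat_lit 0x202061)) e
 (c (a (nat_lit 0x2021)) e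
 (c (a (nat_lit 0x200001)) e e)))))))
 (c (a (nat_lit 0x2021))
 (c (a (nat_lit 0x202021)) e
 (c (a (nat_lit 0x202021)) e
 (c (a (nat_lit 0x202021)) e
 (c (a (nat_lit 0x202021)) e
 (c (a (nat_lit 0x202001)) e e)))))
 (c (a (nat_lit 0x2021))
 (c (a (nat_lit 0x202021)) e
 (c (a (nat_lit 0x202021)) e
 (c (a (nat_lit 0x202021)) e
 (c (a (nat_lit 0x200001)) e e))))
 (c (a (nat_lit 0x2021))
 (c (a (nat_lit 0x202021)) e
 (c (a (nat_lit 0x202001)) e e))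
 (c (a (nat_lit 0x2021))
 (c (a (nat_lit 0x200001)) e e)
 (c (a (nat_lit 0x2021)) e
 (c (a (nat_lit 0x2021)) e
 (c (a (nat_lit 0x2021)) e
 (c (a (nat_lit 0x2021)) e
 (c (a (nat_lit 0x2021)) e
 (c (a (nat_lit 0x2021)) e
 (c z e
 (c (a (nat_lit 0x2021)) e
 (c (nat_lit 1) e e))))))))))))))))))))) Tr.c Tr.e (nat_lit 0) C.cx
noncomputable def C9 : Tr := beta% (fun (c : Nat → Tr → Tr → Tr) (e : Tr) (z : Nat) (a b : Nat → Nat) =>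
 (c (a (nat_lit 0x2021))
 (c (a (nat_lit 0x202021))
 (c (a (nat_lit 0x20202001))
 (c (a (nat_lit 0x12f2f2f34ca6)) e
 (c (a (nat_lit 0x133333654848)) e
 (c (a (nat_lit 0x1e5ecb173a87)) e
 (c (a (nat_lit 0x1ec82b7a3767)) e
 (c (a (nat_lit 0x18c758ae6c7)) e
 (c (a (nat_lit 0x1b7fba414006)) e
 (c (a (nat_lit 0x1066e0000007)) e e)))))))
 (c (a (nat_lit 0x40204041))
 (c (a (nat_lit 0x1d1d42c6d588)) e
 (c (a (nat_lit 0x174407561149)) e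
 (c (a (nat_lit 0x6a973b34969)) e
 (c (a (nat_lit 0x6d08be5a289)) e
 (c (a (nat_lit 0x15f369a00008)) e
 (c (a (nat_lit 0x13e000000006)) e e))))))
 (c (a (nat_lit 0xc0802001))
 (c (a (nat_lit 0x663b42c0428)) e
 (c (a (nat_lit 0x1be57640048)) e
 (c (b (nat_lit 0x1c3fe5418008)) e
 (c (a (nat_lit 0x12f2e0000006)) e e))))
 (c (a (nat_lit 0x20203dc3))
 (c (a (nat_lit 0x156d06a14067)) e
 (c (a (nat_lit 0xf7cc7200006)) e
 (c (a (nat_lit 0x1d4000000004)) e e)))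
 (c (a (nat_lit 0x20203e85))
 (c (a (nat_lit 0x12a3e0000006)) e e)
 (c (a (nat_lit 0x28a93066)) e
 (c (a (nat_lit 0x82f7927)) e
 (c (a (nat_lit 0xa5b5e5d68)) e
 (c (a (nat_lit 0x10b2121009)) e
 (c (a (nat_lit 0x1b3b3b3aa8)) e
 (c (a (nat_lit 0x1b3b3b3b27)) e
 (c (a (nat_lit 0x1a3a3a3a07)) e
 (c (a (nat_lit 0x1a3a2d2007)) e
 (c (a (nat_lit 0x1a20000006)) e e))))))))))))))
 (c (a (nat_lit 0x202021))
 (c (a (nat_lit 0x408121))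
 (c (a (nat_lit 0x13a341550b08)) e
 (c (a (nat_lit 0x3a218cee969)) e
 (c (a (nat_lit 0xc50506744e9)) e
 (c (a (nat_lit 0x15e92641c008)) e
 (c (a (nat_lit 0x112fa0000007)) e e)))))
 (c (a (nat_lit 0x20203e64))
 (c (a (nat_lit 0x4964e650109)) e
 (c (a (nat_lit 0x1049256261aa)) e
 (c (a (nat_lit 0x79585000008)) e
 (c (a (nat_lit 0x128000000007)) e e))))
 (c (a (nat_lit 0x2028f467))
 (c (a (nat_lit 0x18f8dc08e007)) e
 (c (a (nat_lit 0x153220000007)) e e))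
 (c (a (nat_lit 0x212c1387))
 (c (a (nat_lit 0x12a000000005)) e e)
 (c (a (nat_lit 0x2812fb27)) e
 (c (a (nat_lit 0x38b5252a9)) e
 (c (a (nat_lit 0x11dd7f7be9)) e
 (c (a (nat_lit 0x1c7ededce9)) e
 (c (a (nat_lit 0x1cdcdcd889)) e
 (c (a (nat_lit 0x1f7f7f7f68)) e
 (c (a (nat_lit 0x1efefeef88)) e
 (c (a (nat_lit 0x1eef800008)) e e))))))))))))
 (c (a (nat_lit 0x202041))
 (c (a (nat_lit 0x402034a3))
 (c (a (nat_lit 0x1d2ae40642c7)) e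
 (c (a (nat_lit 0x1386a9428008)) e
 (c (a (nat_lit 0x104d00000007)) e e)))
 (c (a (nat_lit 0x202b59a5))
 (c (a (nat_lit 0xb9a45a00007)) e
 (c (a (nat_lit 0x13e000000006)) e e))
 (c (a (nat_lit 0x28a8bba6)) e
 (c (a (nat_lit 0xe575c9767)) e
 (c (a (nat_lit 0x62b547988)) e
 (c z e
 (c (a (nat_lit 0x14d6d6e9c9)) e
 (c (a (nat_lit 0x1232322869)) e
 (c (a (nat_lit 0x1393939388)) e
 (c (a (nat_lit 0x1313098008)) e
 (c (a (nat_lit 0x1300000007)) e e)))))))))))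
 (c (a (nat_lit 0x404041))
 (c (a (nat_lit 0x278312c5))
 (c (a (nat_lit 0x1c3740000004)) e e)
 (c (a (nat_lit 0x31dbaf46)) e
 (c (a (nat_lit 0x995352e87)) e
 (c (a (nat_lit 0xd2d313408)) e
 (c (a (nat_lit 0xb8d102b09)) e
 (c (a (nat_lit 0x1ada8b0028)) e
 (c (a (nat_lit 0x1090aae129)) e
 (c (a (nat_lit 0x1373736a08)) e
 (c (a (nat_lit 0x12c9600008)) e e)))))))))
 (c (a (nat_lit 0x404041))
 (c (a (nat_lit 0x6f2d14ac5)) e
 (c (a (nat_lit 0x14522b09a7)) e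
 (c (a (nat_lit 0xa8ac799a7)) e
 (c (a (nat_lit 0xdec0d70a8)) e
 (c (a (nat_lit 0x1421e02028)) e
 (c (a (nat_lit 0x190da60028)) e
 (c (a (nat_lit 0x13736a0008)) e
 (c (a (nat_lit 0x12c0000007)) e e))))))))
 (c (a (nat_lit 0x404041))
 (c (a (nat_lit 0xce0265426)) e
 (c (a (nat_lit 0x3c026b7a8)) e
 (c (a (nat_lit 0x1a40f59c8)) e
 (c (a (nat_lit 0x20e03928)) e
 (c (a (nat_lit 0x824c03627)) e
 (c (a (nat_lit 0x13aa200008)) e e))))))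
 (c (a (nat_lit 0x202041))
 (c (a (nat_lit 0x2028f348)) e
 (c (a (nat_lit 0x26555909)) e
 (c (a (nat_lit 0x2240b730a)) e
 (c (a (nat_lit 0x20230a009)) e
 (c (a (nat_lit 0x1320000007)) e e)))))
 (c z
 (c (a (nat_lit 0xceb0b689)) e
 (c (a (nat_lit 0x5d0976bca)) e
 (c (a (nat_lit 0x13f5c00009)) e e)))
 (c (a (nat_lit 0x1494a023))
 (c (a (nat_lit 0x1078684009)) e e)
 (c (a (nat_lit 0x232001)) e
 (c z e
 (c (a (nat_lit 0xa02001)) e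
 (c (a (nat_lit 0x404041)) e
 (c (a (nat_lit 0x202041)) e
 (c (a (nat_lit 0x206021)) e
 (c (a (nat_lit 0x404021)) e
 (c (a (nat_lit 0x404001)) e
 (c z e
 (c z e
 (c (a (nat_lit 0x202001)) e e))))))))))))))))))))
 (c (a (nat_lit 0x2021))
 (c (a (nat_lit 0x202021))
 (c (a (nat_lit 0x2055c2))
 (c (a (nat_lit 0x2c4fd084786)) e
 (c (a (nat_lit 0x77a6de4c507)) e
 (c (a (nat_lit 0x12ec28642147)) e
 (c (a (nat_lit 0x12cfc8600006)) e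
 (c (a (nat_lit 0x4000000001)) e e)))))
 (c (a (nat_lit 0x203005))
 (c (a (nat_lit 0x1aede542c3a8)) e
 (c (a (nat_lit 0x192828430008)) e
 (c (a (nat_lit 0x1e1de0000005)) e e)))
 (c (a (nat_lit 0x202331a4))
 (c (a (nat_lit 0x232e7a00006)) e
 (c (a (nat_lit 0x186000000005)) e e))
 (c (a (nat_lit 0x2f935345)) e
 (c (a (nat_lit 0x3256cd367)) e
 (c (a (nat_lit 0x46df1f208)) e
 (c (a (nat_lit 0xb6d72b0e9)) e
 (c (a (nat_lit 0x1d7e3e4e48)) e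
 (c (a (nat_lit 0x1ddddde688)) e
 (c (a (nat_lit 0x1f7f9f9f87)) e
 (c (a (nat_lit 0x1f9f8fc007)) e
 (c (a (nat_lit 0x1f80000006)) e e))))))))))))
 (c (a (nat_lit 0x404041))
 (c (a (nat_lit 0x2020bf43))
 (c (a (nat_lit 0x11a405e30107)) e
 (c (a (nat_lit 0x6d407a00007)) e
 (c (a (nat_lit 0x1b8000000003)) e e)))
 (c (a (nat_lit 0x2f96e045))
 (c (a (nat_lit 0x1fd6a0000005)) e e)
 (c (a (nat_lit 0x29e631a6)) e
 (c (a (nat_lit 0x209d668)) e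
 (c (a (nat_lit 0xf979bdce8)) e
 (c z e
 (c (a (nat_lit 0x1716ce6029)) e
 (c (a (nat_lit 0x1171866109)) e
 (c (a (nat_lit 0x13b3b3a9e8)) e
 (c (a (nat_lit 0x13a9e00008)) e e))))))))))
 (c (a (nat_lit 0x202021))
 (c (a (nat_lit 0x27e7f7e5))
 (c (a (nat_lit 0x2000000001)) e e)
 (c (a (nat_lit 0x7ebf386)) e
 (c (a (nat_lit 0xc6ec5608)) e
 (c (a (nat_lit 0x11949bf6e8)) e
 (c (a (nat_lit 0xbf1ad44e9)) e
 (c (a (nat_lit 0x1443802029)) e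
 (c (a (nat_lit 0x19eb002028)) e
 (c (a (nat_lit 0x137369c008)) e
 (c (a (nat_lit 0x1360000007)) e e)))))))))
 (c (a (nat_lit 0x202021))
 (c (a (nat_lit 0xa6e175b85)) e
 (c (a (nat_lit 0x7c78af088)) e
 (c (a (nat_lit 0x84938fa28)) e
 (c (a (nat_lit 0xb08ec5129)) e
 (c (a (nat_lit 0x7a1c03109)) e
 (c (a (nat_lit 0xaa0805868)) e
 (c (a (nat_lit 0x1369c00008)) e e)))))))
 (c (a (nat_lit 0x402041))
 (c (a (nat_lit 0x7c8d33e87)) e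
 (c (a (nat_lit 0x3eaf09469)) e
 (c (a (nat_lit 0x6acd43809)) e
 (c (a (nat_lit 0x4842b736a)) e
 (c (a (nat_lit 0xd68110009)) e
 (c (a (nat_lit 0x13a0000007)) e e))))))
 (c z
 (c (a (nat_lit 0x592f6d6c8)) e
 (c (a (nat_lit 0x5cc6d736a)) e
 (c z e
 (c (a (nat_lit 0xc13400009)) e e))))
 (c (b (nat_lit 0x1fffe1))
 (c (a (nat_lit 0xeb09694e9)) e e)
 (c (a (nat_lit 0x1574a002)) e
 (c (a (nat_lit 0x10a06002)) e
 (c (a (nat_lit 0x1804001)) e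
 (c (a (nat_lit 0x1202001)) e
 (c (a (nat_lit 0xc02001)) e
 (c (a (nat_lit 0x404081)) e
 (c (a (nat_lit 0x60e1)) e
 (c (a (nat_lit 0x6181)) e
 (c z e
 (c (a (nat_lit 0x20c021)) e
 (c (a (nat_lit 0xc02021)) e
 (c (a (nat_lit 0x200001)) e e)))))))))))))))))))
 (c (a (nat_lit 0x2021))
 (c (a (nat_lit 0x202021))
 (c (a (nat_lit 0x35756003))
 (c (a (nat_lit 0x4361d676003)) e
 (c (a (nat_lit 0x16ada0000005)) e e))
 (c (a (nat_lit 0x12ab442025))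
 (c (a (nat_lit 0x10a000000005)) e e)
 (c (a (nat_lit 0x1c1a03786)) e
 (c (a (nat_lit 0x23d2b0a7)) e
 (c (a (nat_lit 0x9123a5727)) e
 (c (a (nat_lit 0x1837902588)) e
 (c (a (nat_lit 0x13ce202027)) e
 (c (a (nat_lit 0x1441404027)) e
 (c (a (nat_lit 0x102f87c006)) e
 (c (a (nat_lit 0x1ee0000004)) e e))))))))))
 (c (a (nat_lit 0x202021))
 (c (a (nat_lit 0x800203785)) e
 (c (a (nat_lit 0x23c612c7)) e
 (c (a (nat_lit 0x1a8530c88)) e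
 (c (a (nat_lit 0x125c5cf2c8)) e
 (c (a (nat_lit 0x1bce689968)) e
 (c (a (nat_lit 0xae02036e8)) e
 (c (a (nat_lit 0x3c0203aa8)) e
 (c (a (nat_lit 0x1eef600006)) e e))))))))
 (c z
 (c (a (nat_lit 0x367689447)) e
 (c (a (nat_lit 0x9f07458e8)) e
 (c (a (nat_lit 0x91a313708)) e
 (c (a (nat_lit 0xb2a0e90e9)) e
 (c (a (nat_lit 0x6a40f3e29)) e
 (c (a (nat_lit 0x203a4008)) e
 (c (a (nat_lit 0x10a0000006)) e e)))))))
 (c z
 (c (a (nat_lit 0xa76de5e47)) e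
 (c (a (nat_lit 0x12397d7d48)) e
 (c z e
 (c (a (nat_lit 0x3a9d0c86a)) e
 (c (a (nat_lit 0xc9e600008)) e e)))))
 (c z
 (c (a (nat_lit 0xa8e6e7988)) e
 (c z e
 (c (a (nat_lit 0x9b068400a)) e
 (c (a (nat_lit 0x1de0000008)) e e))))
 (c (a (nat_lit 0x12926024))
 (c (a (nat_lit 0xcf2f2e5a9)) e e)
 (c (a (nat_lit 0x1d004003)) e
 (c (a (nat_lit 0xe04001)) e
 (c (a (nat_lit 0x804001)) e
 (c (a (nat_lit 0x602001)) e
 (c (a (nat_lit 0x404001)) e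
 (c (a (nat_lit 0x604001)) e
 (c (a (nat_lit 0xa02001)) e
 (c z e
 (c (a (nat_lit 0x60c001)) e
 (c (a (nat_lit 0x1202021)) e
 (c (a (nat_lit 0x802001)) e e)))))))))))))))))
 C8)))) Tr.c Tr.e (nat_lit 0) C.cx C.cy
noncomputable def C10 : Tr := beta% (fun (c : Nat → Tr → Tr → Tr) (e : Tr) (z : Nat) (a b : Nat → Nat) =>
 (c (a (nat_lit 0x202021))
 (c (a (nat_lit 0x402021))
 (c (a (nat_lit 0x135352b2b2a6))
 (c (a (nat_lit 0x19997978dcdc85)) e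
 (c (a (nat_lit 0xe0e0e30686008)) e
 (c (a (nat_lit 0x1c5c70a0000007)) e
 (c (a (nat_lit 0x17600000000006)) e e))))
 (c (a (nat_lit 0x12f2f2b2b2a8))
 (c (a (nat_lit 0x1a9a9f8b200008)) e
 (c (a (nat_lit 0x19cf6000000009)) e e))
 (c (a (nat_lit 0x131312f2f328))
 (c (a (nat_lit 0x14a00000000007)) e e)
 (c (a (nat_lit 0x1e3e3dde5ec7)) e
 (c (a (nat_lit 0x1e1e1e3ed147)) e
 (c (a (nat_lit 0x1e1e9ed605e7)) e
 (c (a (nat_lit 0x1ebf4281cfa7)) e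
 (c (a (nat_lit 0x1c8eb65c2e67)) e
 (c (a (nat_lit 0x12bf33000007)) e
 (c (a (nat_lit 0x1bc000000006)) e e))))))))))
 (c (a (nat_lit 0x202060a1))
 (c (a (nat_lit 0x1c3c3c3c3c48))
 (c (a (nat_lit 0x1b1fe8c0000008)) e
 (c (a (nat_lit 0x16a00000000009)) e e))
 (c (a (nat_lit 0x1c7c7c7cbce9)) e
 (c (a (nat_lit 0x169696b70989)) e
 (c (a (nat_lit 0x1676b6eeca29)) e
 (c (a (nat_lit 0x16b6eb2aeb49)) e
 (c (a (nat_lit 0x1704b1acac09)) e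
 (c (a (nat_lit 0x9b18f83a009)) e
 (c (a (nat_lit 0x132820000009)) e e))))))))
 (c (a (nat_lit 0x60402001))
 (c (a (nat_lit 0x1cdcdd1d2488)) e
 (c (a (nat_lit 0x16d717284b89)) e
 (c (a (nat_lit 0x16f7254e0ec9)) e
 (c (a (nat_lit 0x17056f324f69)) e
 (c (a (nat_lit 0x2fd02e26a9)) e e)))))
 (c (a (nat_lit 0x20206021))
 (c (a (nat_lit 0x113145691288)) e
 (c (a (nat_lit 0x10e5270c86a9)) e
 (c (a (nat_lit 0x92ff48401a8)) e
 (c (a (nat_lit 0x393d2c58007)) e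
 (c (a (nat_lit 0x134580000008)) e e)))))
 (c (a (nat_lit 0x404041))
 (c (a (nat_lit 0xc0cf44b4647)) e
 (c (a (nat_lit 0xe51a58163e7)) e
 (c (a (nat_lit 0x18ccc2200006)) e
 (c (a (nat_lit 0x17c000000005)) e e))))
 (c (a (nat_lit 0x20402021))
 (c (a (nat_lit 0x13d27532a004)) e
 (c (a (nat_lit 0x11e540000005)) e e))
 (c (a (nat_lit 0x203fc3))
 (c (a (nat_lit 0x13a000000004)) e e)
 (c (a (nat_lit 0x22dc66)) e
 (c (a (nat_lit 0x264d1228)) e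
 (c (a (nat_lit 0x5ef30d069)) e
 (c (a (nat_lit 0x1092323069)) e
 (c (a (nat_lit 0x1bfbfbfbe7)) e
 (c (a (nat_lit 0x1b7b7b7b67)) e
 (c (a (nat_lit 0x1a9a9a9a87)) e
 (c (a (nat_lit 0x1a9a8d4007)) e
 (c (a (nat_lit 0x1a80000006)) e e))))))))))))))))
 (c (a (nat_lit 0x202021))
 (c (a (nat_lit 0x406081))
 (c (a (nat_lit 0x12f2f2f2f328))
 (c (a (nat_lit 0x1123e000000008)) e e)
 (c (a (nat_lit 0x1c9c9cbceaa9)) e
 (c (a (nat_lit 0x16b6d709eea9)) e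
 (c (a (nat_lit 0x16b6e7aa2a09)) e
 (c (a (nat_lit 0x15c2e5ecc709)) e
 (c (a (nat_lit 0x27d1d6f0c08)) e
 (c (a (nat_lit 0x136a87000009)) e
 (c (a (nat_lit 0x148000000007)) e e))))))))
 (c (a (nat_lit 0xa0606061))
 (c (a (nat_lit 0x1cfd1d2547e9)) e
 (c (a (nat_lit 0x171722e9d20a)) e
 (c (a (nat_lit 0x1700c64dcf4a)) e
 (c z e
 (c (a (nat_lit 0x1012f7a58009)) e
 (c (a (nat_lit 0x166dc0000009)) e e))))))
 (c (a (nat_lit 0x40608001))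
 (c (a (nat_lit 0x10e0c56fe869)) e
 (c z e
 (c (b (nat_lit 0x3d47fe5e029)) e
 (c (a (nat_lit 0x16344c200008)) e e))))
 (c (a (nat_lit 0xc0c08001))
 (c (a (nat_lit 0x300884c0e8)) e
 (c (b (nat_lit 0x1ff673860007)) e
 (c (a (nat_lit 0x176ce0000007)) e e)))
 (c (a (nat_lit 0x20203ee4))
 (c (a (nat_lit 0x102544200005)) e
 (c (a (nat_lit 0x166000000005)) e e))
 (c (a (nat_lit 0x27ba07)) e
 (c (a (nat_lit 0x25c83028)) e
 (c z e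
 (c (a (nat_lit 0xd52d392ca)) e
 (c (a (nat_lit 0xe70706e8a)) e
 (c (a (nat_lit 0x1efefefee8)) e
 (c (a (nat_lit 0x1e7e7e7e68)) e
 (c (a (nat_lit 0x1e1e1e0f08)) e
 (c (a (nat_lit 0x1e0f000008)) e e))))))))))))))
 (c (a (nat_lit 0x202021))
 (c (a (nat_lit 0x204061))
 (c (a (nat_lit 0x13938246f468)) e
 (c (a (nat_lit 0x162067166be9)) e
 (c (a (nat_lit 0x2bb2ed82a9)) e
 (c (a (nat_lit 0xbfeda6c0888)) e
 (c (a (nat_lit 0x1491e6000008)) e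
 (c (a (nat_lit 0x178000000007)) e e))))))
 (c (a (nat_lit 0x600021))
 (c z e
 (c (a (nat_lit 0xa9c9784c049)) e
 (c (a (nat_lit 0x1aede9628009)) e
 (c (a (nat_lit 0x1a4780000008)) e e))))
 (c (a (nat_lit 0x20203f04))
 (c (a (nat_lit 0x1230260422a8)) e
 (c (a (nat_lit 0x10a948e00008)) e
 (c (a (nat_lit 0x1d2000000005)) e e)))
 (c (a (nat_lit 0x283707))
 (c (a (nat_lit 0x1187a0000007)) e e)
 (c (a (nat_lit 0x260f98e8)) e
 (c (a (nat_lit 0x553bb3948)) e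
 (c z e
 (c (a (nat_lit 0xd51f2f16a)) e
 (c (a (nat_lit 0x15bb7b76e9)) e
 (c (a (nat_lit 0x1f1f1f1f08)) e
 (c (a (nat_lit 0x1f1f1f1f08)) e
 (c (a (nat_lit 0x1ebeaf6008)) e
 (c (a (nat_lit 0x1ea0000007)) e e)))))))))))))
 (c (a (nat_lit 0x404041))
 (c (a (nat_lit 0x40203d43))
 (c (a (nat_lit 0x432eee4c367)) e
 (c (a (nat_lit 0x18b727a48428)) e
 (c (a (nat_lit 0x1c144dc00007)) e
 (c (a (nat_lit 0x12a000000005)) e e))))
 (c (a (nat_lit 0x20203066))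
 (c (a (nat_lit 0x15276ea56008)) e
 (c (a (nat_lit 0xef000000008)) e e))
 (c (a (nat_lit 0x29065f66))
 (c (a (nat_lit 0x148000000006)) e e)
 (c (a (nat_lit 0x33daf747)) e
 (c (a (nat_lit 0xe71100a68)) e
 (c (a (nat_lit 0x1adabddd08)) e
 (c (a (nat_lit 0xcf59792c9)) e
 (c (a (nat_lit 0xdb0f0f0c9)) e
 (c (a (nat_lit 0x1333333328)) e
 (c (a (nat_lit 0x13333329e8)) e
 (c (a (nat_lit 0x12c9600008)) e e)))))))))))
 (c (a (nat_lit 0x404041))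
 (c (a (nat_lit 0x238dd806))
 (c (a (nat_lit 0xfb645c00006)) e
 (c (a (nat_lit 0x182000000006)) e e))
 (c (a (nat_lit 0x2b71d1c7)) e
 (c (a (nat_lit 0x17de3e4f87)) e
 (c (a (nat_lit 0x1513f2ca87)) e
 (c (a (nat_lit 0x10d0d3f028)) e
 (c (a (nat_lit 0x88f112a49)) e
 (c (a (nat_lit 0xfb1b1abc9)) e
 (c (a (nat_lit 0x1313131368)) e
 (c (a (nat_lit 0x131309c008)) e
 (c (a (nat_lit 0x1280000007)) e e))))))))))
 (c (a (nat_lit 0x202021))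
 (c (a (nat_lit 0xf55d5cb06)) e
 (c (a (nat_lit 0x14f4f2a207)) e
 (c (a (nat_lit 0x128e2ec186)) e
 (c (a (nat_lit 0x11114a13a7)) e
 (c (a (nat_lit 0x11372d8bc8)) e
 (c (a (nat_lit 0x11332c0569)) e
 (c (a (nat_lit 0x13131369c8)) e
 (c (a (nat_lit 0x1309c00008)) e e))))))))
 (c (a (nat_lit 0x404021))
 (c (a (nat_lit 0x1bdbc02025)) e
 (c (a (nat_lit 0x188f002e06)) e
 (c (a (nat_lit 0xea0265ac7)) e
 (c (a (nat_lit 0x10c96665e8)) e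
 (c (a (nat_lit 0x1569e62007)) e
 (c (a (nat_lit 0x1353c9e008)) e
 (c (a (nat_lit 0x13c0000007)) e e)))))))
 (c (a (nat_lit 0x200001))
 (c (a (nat_lit 0xe0021f1a6)) e
 (c (a (nat_lit 0x2021b049)) e
 (c (a (nat_lit 0x23617208)) e
 (c (a (nat_lit 0x204037a8)) e
 (c (a (nat_lit 0x12a9600008)) e e)))))
 (c (a (nat_lit 0x402061))
 (c (a (nat_lit 0x140299049)) e
 (c (a (nat_lit 0x21cdd58a)) e
 (c (a (nat_lit 0x9734009)) e
 (c (a (nat_lit 0x1d40000007)) e e))))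
 (c z
 (c (a (nat_lit 0x2ff7e809)) e
 (c (a (nat_lit 0x656800009)) e e))
 (c (a (nat_lit 0x2e1e1))
 (c (a (nat_lit 0x1a00000007)) e e)
 (c (a (nat_lit 0x7cc2)) e
 (c z e
 (c (a (nat_lit 0x802001)) e
 (c (a (nat_lit 0x404081)) e
 (c (a (nat_lit 0x2061)) e
 (c (a (nat_lit 0x4061)) e
 (c (a (nat_lit 0x4081)) e
 (c (a (nat_lit 0x2081)) e
 (c z e
 (c z e
 (c (a (nat_lit 0x400001)) e e))))))))))))))))))))))) Tr.c Tr.e (nat_lit 0) C.cx C.cy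
noncomputable def C11 : Tr := beta% (fun (c : Nat → Tr → Tr → Tr) (e : Tr) (z : Nat) (a b : Nat → Nat) =>
 (c (a (nat_lit 0x202021))
 (c (a (nat_lit 0x80402021))
 (c (a (nat_lit 0x133333333327))
 (c (a (nat_lit 0xef163e0000007)) e
 (c (a (nat_lit 0x1fc00000000007)) e e))
 (c (a (nat_lit 0x1cfcfcfd1d88)) e
 (c (a (nat_lit 0x17171717ae68)) e
 (c (a (nat_lit 0x16f717898528)) e
 (c (a (nat_lit 0x15f665064a08)) e
 (c (a (nat_lit 0x16414664e948)) e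
 (c (a (nat_lit 0x913127a008)) e
 (c (a (nat_lit 0x15ea60000008)) e e))))))))
 (c (a (nat_lit 0x100802001))
 (c (a (nat_lit 0x1d5d5d5d8a08)) e
 (c (a (nat_lit 0x175777a83569)) e
 (c (a (nat_lit 0x17578689ca89)) e
 (c (a (nat_lit 0x1562438c2ca9)) e
 (c (a (nat_lit 0xc75523744e8)) e
 (c (a (nat_lit 0x1dd430e00008)) e
 (c (a (nat_lit 0x1a8000000007)) e e)))))))
 (c (a (nat_lit 0x20206001))
 (c (a (nat_lit 0x1131669b5228)) e
 (c (a (nat_lit 0x11648ae96ba9)) e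
 (c (b (nat_lit 0x1ff85167a808)) e
 (c (a (nat_lit 0x11afaae68008)) e
 (c (a (nat_lit 0x1e2260000007)) e e)))))
 (c (a (nat_lit 0x604021))
 (c (b (nat_lit 0x31ff23a6806)) e
 (c (b (nat_lit 0x1ff54aec4267)) e
 (c (a (nat_lit 0x9962f000006)) e
 (c (a (nat_lit 0x1f0000000005)) e e))))
 (c (a (nat_lit 0x20400001))
 (c (a (nat_lit 0x1980cfe40003)) e
 (c (a (nat_lit 0x11c660000005)) e e))
 (c (a (nat_lit 0x203dc4))
 (c (a (nat_lit 0x186000000002)) e e)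
 (c (a (nat_lit 0x2028d847)) e
 (c (a (nat_lit 0x2af0d1e8)) e
 (c (a (nat_lit 0x13bb5e1fe8)) e
 (c (a (nat_lit 0xdd1b27129)) e
 (c (a (nat_lit 0x670303008)) e
 (c (a (nat_lit 0x153f1f1f07)) e
 (c (a (nat_lit 0x19dededec7)) e
 (c (a (nat_lit 0x1edecf6007)) e
 (c (a (nat_lit 0x1ec0000006)) e e)))))))))))))))
 (c (nat_lit 1)
 (c (a (nat_lit 0x40202021))
 (c (a (nat_lit 0x13d3d3c5ad87)) e
 (c (a (nat_lit 0x169683561d88)) e
 (c (a (nat_lit 0x164128d18688)) e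
 (c (a (nat_lit 0x32d3076408)) e
 (c (a (nat_lit 0x12a688e54008)) e
 (c (a (nat_lit 0x112800000007)) e e))))))
 (c (a (nat_lit 0x404001))
 (c (a (nat_lit 0x1161d9f6c928)) e
 (c (b (nat_lit 0x1ff36d4a43a9)) e
 (c (a (nat_lit 0x117005e36109)) e
 (c (a (nat_lit 0x1acd67e00008)) e
 (c (a (nat_lit 0x1fa000000006)) e e)))))
 (c (a (nat_lit 0x604081))
 (c (a (nat_lit 0x1188a66563e8)) e
 (c (a (nat_lit 0x1d0dd2e72007)) e
 (c (a (nat_lit 0x100a40000006)) e e)))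
 (c (a (nat_lit 0x203204))
 (c (a (nat_lit 0x3e72800004)) e
 (c (a (nat_lit 0x186000000005)) e e))
 (c (a (nat_lit 0x277347)) e
 (c (a (nat_lit 0xbf3fb87)) e
 (c (a (nat_lit 0x9cfb1ae68)) e
 (c (a (nat_lit 0x100f307149)) e
 (c (a (nat_lit 0x127bfe1a08)) e
 (c (a (nat_lit 0x1dbfbfbfa7)) e
 (c (a (nat_lit 0x107fbfbfa7)) e
 (c (a (nat_lit 0x117f7f6fc7)) e
 (c (a (nat_lit 0x1f6fc00007)) e e)))))))))))))
 (c (a (nat_lit 0x202021))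
 (c (a (nat_lit 0x60400001))
 (c (a (nat_lit 0x30cf686167)) e
 (c (a (nat_lit 0xcecb004c5a8)) e
 (c (a (nat_lit 0x13c786434008)) e
 (c (a (nat_lit 0x17abc0000006)) e e))))
 (c (a (nat_lit 0x20203e04))
 (c (a (nat_lit 0x165d4d2a6687)) e
 (c (a (nat_lit 0x124dc8c00008)) e
 (c (a (nat_lit 0x1a8000000005)) e e)))
 (c (a (nat_lit 0x202037e6))
 (c (a (nat_lit 0x1fcb60000006)) e e)
 (c (a (nat_lit 0xc949567)) e
 (c (a (nat_lit 0x7afb08d27)) e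
 (c (a (nat_lit 0x1b7a98b547)) e
 (c (a (nat_lit 0xe6e70afc9)) e
 (c (a (nat_lit 0x88f919188)) e
 (c (a (nat_lit 0x11d3d3d3c7)) e
 (c (a (nat_lit 0x1133d3d3c7)) e
 (c (a (nat_lit 0x139389c007)) e
 (c (a (nat_lit 0x1380000006)) e e))))))))))))
 (c (a (nat_lit 0x202021))
 (c (a (nat_lit 0x2023db65))
 (c (a (nat_lit 0x177697e5e005)) e
 (c (a (nat_lit 0x10aac0000007)) e e))
 (c (a (nat_lit 0x29fa1a06))
 (c (a (nat_lit 0x170000000005)) e e)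
 (c (a (nat_lit 0xbf4141307)) e
 (c (a (nat_lit 0x11512fe387)) e
 (c (a (nat_lit 0x104f4dc647)) e
 (c (a (nat_lit 0x7274e35c7)) e
 (c (a (nat_lit 0x70f717168)) e
 (c (a (nat_lit 0x11b3b3b3a7)) e
 (c (a (nat_lit 0x13b3b3aa07)) e
 (c (a (nat_lit 0x1369a00007)) e e))))))))))
 (c (a (nat_lit 0x202021))
 (c (a (nat_lit 0xbfc1c1c05)) e
 (c (a (nat_lit 0x14747484e7)) e
 (c (a (nat_lit 0x121209aa05)) e
 (c (a (nat_lit 0x120dcdc3c6)) e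
 (c (a (nat_lit 0xf6f7f3846)) e
 (c (a (nat_lit 0x831534f48)) e
 (c (a (nat_lit 0x11b3b3b3e7)) e
 (c (a (nat_lit 0x1253aa0007)) e
 (c (a (nat_lit 0x1340000006)) e e)))))))))
 (c (a (nat_lit 0x202021))
 (c (a (nat_lit 0x1919392024)) e
 (c (a (nat_lit 0x1696864005)) e
 (c (a (nat_lit 0x152c402286)) e
 (c (a (nat_lit 0xf2f4dd666)) e
 (c (a (nat_lit 0xebb5733c7)) e
 (c (a (nat_lit 0x1213f42a27)) e
 (c (a (nat_lit 0x1f94400006)) e e)))))))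
 (c (a (nat_lit 0x200001))
 (c (a (nat_lit 0x1d1de027c4)) e
 (c (a (nat_lit 0x1723802026)) e
 (c (a (nat_lit 0xa6026f047)) e
 (c (a (nat_lit 0x1f9293d5c6)) e
 (c (a (nat_lit 0x71329a007)) e
 (c (a (nat_lit 0x1b20000004)) e e))))))
 (c (a (nat_lit 0x202021))
 (c (a (nat_lit 0x4e0203446)) e
 (c (a (nat_lit 0x54026f2a7)) e
 (c (a (nat_lit 0x22091368)) e
 (c (a (nat_lit 0x1f9da00006)) e e))))
 (c (a (nat_lit 0x202021))
 (c (a (nat_lit 0x202c9668)) e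
 (c (a (nat_lit 0x27d4c008)) e
 (c (a (nat_lit 0x16c0000006)) e e)))
 (c z
 (c (a (nat_lit 0x141a400006)) e e)
 (c (a (nat_lit 0x200001)) e
 (c (a (nat_lit 0x2032e1)) e
 (c (a (nat_lit 0x8001)) e
 (c (a (nat_lit 0xc02001)) e
 (c (a (nat_lit 0x600001)) e
 (c (a (nat_lit 0x202021)) e
 (c (a (nat_lit 0x204061)) e
 (c (a (nat_lit 0x4061)) e
 (c (a (nat_lit 0x202021)) e
 (c z e
 (c (a (nat_lit 0x402001)) e e)))))))))))))))))))))) Tr.c Tr.e (nat_lit 0) C.cx C.cy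
noncomputable def C12 : Tr := beta% (fun (c : Nat → Tr → Tr → Tr) (e : Tr) (z : Nat) (a : Nat → Nat) =>
 (c (a (nat_lit 0x202021))
 (c (a (nat_lit 0x1060200003))
 (c (a (nat_lit 0x5ac10303024))
 (c z e
 (c (a (nat_lit 0xff93833b413e5)) e
 (c (a (nat_lit 0x1e53d514341405)) e
 (c z e
 (c z e
 (c (a (nat_lit 0x165f2f60000004)) e e))))))
 (c (a (nat_lit 0xd3333f3f3e6))
 (c (a (nat_lit 0x135cb8d9b99966)) e
 (c (a (nat_lit 0x13d77938785867)) e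
 (c (a (nat_lit 0x127738b8786ec7)) e
 (c (a (nat_lit 0xef2d349c00007)) e
 (c (a (nat_lit 0x11898000000007)) e e)))))
 (c (a (nat_lit 0x123374341406))
 (c (a (nat_lit 0x16185879999e86)) e
 (c (a (nat_lit 0x153778d88ec007)) e
 (c (a (nat_lit 0x11d349a0000007)) e e)))
 (c (a (nat_lit 0x1272d3d3d3c6))
 (c (a (nat_lit 0x16777769e00006)) e
 (c (a (nat_lit 0x1289a000000007)) e e))
 (c (a (nat_lit 0x1b1d9f9f9f85)) e
 (c (a (nat_lit 0x1afd7f7f7f65)) e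
 (c (a (nat_lit 0xd2ecfcfd006)) e
 (c (a (nat_lit 0xd4eeff03026)) e
 (c (a (nat_lit 0x1b9d1f9f8025)) e
 (c (a (nat_lit 0xe3273554026)) e
 (c (a (nat_lit 0xff31b52c006)) e
 (c (a (nat_lit 0x144fa0000005)) e e))))))))))))
 (c (a (nat_lit 0x140402f61))
 (c (a (nat_lit 0x11f3d3d3d3c7))
 (c (a (nat_lit 0x1310d211d1d1e7)) e
 (c (a (nat_lit 0x16793918b8dda8)) e
 (c (a (nat_lit 0x1678f8f8ef0008)) e
 (c (a (nat_lit 0x1353aa00000008)) e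
 (c (a (nat_lit 0x13800000000007)) e e)))))
 (c (a (nat_lit 0xf3d3937368))
 (c (a (nat_lit 0x17f81938fdcaa8)) e
 (c (a (nat_lit 0x1718382e800009)) e
 (c (a (nat_lit 0x12e98000000009)) e e)))
 (c (a (nat_lit 0xe5393939388))
 (c (a (nat_lit 0x177709c0000008)) e e)
 (c (a (nat_lit 0x1abf3f3f1f07)) e
 (c (a (nat_lit 0x1d1f1f1f1fa7)) e
 (c (a (nat_lit 0x1d1f1f1fbfa7)) e
 (c (a (nat_lit 0x1d5f3fffe887)) e
 (c (a (nat_lit 0x1c9f3f318b87)) e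
 (c (a (nat_lit 0x10b32fcf0888)) e
 (c (a (nat_lit 0xad08ba00008)) e
 (c (a (nat_lit 0x18c000000007)) e e)))))))))))
 (c (a (nat_lit 0x1270b021))
 (c (a (nat_lit 0x9d393939387))
 (c (a (nat_lit 0xff2121565e007)) e
 (c (a (nat_lit 0x19392f20000008)) e
 (c (a (nat_lit 0x13800000000007)) e e)))
 (c (a (nat_lit 0x993b3b3b3a8))
 (c (a (nat_lit 0x1729c000000008)) e e)
 (c (a (nat_lit 0x1cbf5f5f5f87)) e
 (c (a (nat_lit 0x1f3f3f3f7fe7)) e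
 (c (a (nat_lit 0x1ddf3f7ff0a7)) e
 (c (a (nat_lit 0xe4ff02469a8)) e
 (c (a (nat_lit 0xc6fce754ae8)) e
 (c (a (nat_lit 0xcec14a54008)) e e))))))))
 (c (a (nat_lit 0x680c02001))
 (c (a (nat_lit 0x5b3d3d3d3e7))
 (c (a (nat_lit 0x13a00000000005)) e e)
 (c (a (nat_lit 0x1f7f7f7fbfa7)) e
 (c (a (nat_lit 0x1f5f5fbf8407)) e
 (c (a (nat_lit 0xfafcfc3f0c8)) e
 (c (a (nat_lit 0xf4fe9f668c8)) e
 (c (a (nat_lit 0x8c5f4e76488)) e e))))))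
 (c (a (nat_lit 0xa0402001))
 (c (a (nat_lit 0x1797b7d7c2e6)) e
 (c (a (nat_lit 0xbcbebe35588)) e
 (c (a (nat_lit 0xbaba457a3e8)) e
 (c (a (nat_lit 0xae458442248)) e
 (c (a (nat_lit 0xb383406008)) e e)))))
 (c (a (nat_lit 0x20202001))
 (c (a (nat_lit 0x177762a70066)) e
 (c (a (nat_lit 0x17862700a1e7)) e
 (c (a (nat_lit 0x821ccba3a64)) e
 (c (a (nat_lit 0x1dc2e200001)) e
 (c (a (nat_lit 0x156000000002)) e e)))))
 (c (a (nat_lit 0x202001))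
 (c (a (nat_lit 0xfe042611104)) e
 (c (a (nat_lit 0x7e6a3544004)) e
 (c (a (nat_lit 0x9a360000001)) e e)))
 (c (a (nat_lit 0x202061))
 (c (a (nat_lit 0x1aa764e00002)) e
 (c (a (nat_lit 0x120000000003)) e e))
 (c (a (nat_lit 0x202041)) e
 (c (a (nat_lit 0x203f03)) e
 (c (a (nat_lit 0x28f0a7)) e
 (c (a (nat_lit 0x250747467)) e
 (c (a (nat_lit 0x1155757566)) e
 (c (a (nat_lit 0x14f5757566)) e
 (c (a (nat_lit 0x14f4f4f4e6)) e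
 (c (a (nat_lit 0x14f4f4f4e6)) e
 (c (a (nat_lit 0x14f4ea8006)) e
 (c (a (nat_lit 0x14e0000005)) e e))))))))))))))))))
 (c (a (nat_lit 0x202021))
 (c (a (nat_lit 0x69dd1ca1))
 (c (a (nat_lit 0xd13b3535347))
 (c (a (nat_lit 0xceeae8e4e50c7)) e
 (c (a (nat_lit 0x1a5a3a39fecfe8)) e
 (c (a (nat_lit 0x1a5a5a4fa00008)) e
 (c (a (nat_lit 0x14cac000000008)) e e))))
 (c (a (nat_lit 0x19fcfcbcbca8))
 (c (a (nat_lit 0x12531336a80009)) e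
 (c (a (nat_lit 0x12726b2000000a)) e
 (c (a (nat_lit 0x1ce00000000008)) e e)))
 (c (a (nat_lit 0x193cfcfcfce8))
 (c (a (nat_lit 0x11a78000000009)) e e)
 (c (a (nat_lit 0x165717171788)) e
 (c (a (nat_lit 0x16f6f6f77788)) e
 (c (a (nat_lit 0x1696f7778ce8)) e
 (c (a (nat_lit 0x167797a84188)) e
 (c (a (nat_lit 0x1516a5c35368)) e
 (c (a (nat_lit 0x194e9def8008)) e
 (c (a (nat_lit 0x1779a0000007)) e e))))))))))
 (c (a (nat_lit 0xe1004021))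
 (c (a (nat_lit 0x1a7cfc9c9c88))
 (c (a (nat_lit 0x1ababfa8a00008)) e
 (c (a (nat_lit 0x12ab400000000a)) e e))
 (c (a (nat_lit 0x199d1cdcdd29))
 (c (a (nat_lit 0x1ce00000000008)) e e)
 (c (a (nat_lit 0x171716f73769)) e
 (c (a (nat_lit 0x171717376b29)) e
 (c (a (nat_lit 0x1717576aa989)) e
 (c (a (nat_lit 0x1717a44ac989)) e
 (c (a (nat_lit 0x1384b64a64e9)) e
 (c (a (nat_lit 0x635c9400009)) e
 (c (a (nat_lit 0x1d8000000008)) e e)))))))))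
 (c (a (nat_lit 0x1a0c04001))
 (c (a (nat_lit 0x1d3d3d3d7d68)) e
 (c (a (nat_lit 0x173737978529)) e
 (c (a (nat_lit 0x173777655009)) e
 (c (a (nat_lit 0x177769b2ce49)) e
 (c (a (nat_lit 0x1505d76ecd09)) e e)))))
 (c (a (nat_lit 0x40200001))
 (c (a (nat_lit 0x11719184b9a8)) e
 (c (a (nat_lit 0x115144ce8869)) e
 (c (a (nat_lit 0x11269065a029)) e e)))
 (c (a (nat_lit 0x204080a1))
 (c (a (nat_lit 0x1145644643a8)) e
 (c (a (nat_lit 0x130aaf2284a7)) e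
 (c (a (nat_lit 0x83902860005)) e
 (c (a (nat_lit 0x102320000006)) e e))))
 (c (a (nat_lit 0x2080a081))
 (c (a (nat_lit 0x14ad6078f1e4)) e
 (c (a (nat_lit 0x16d112000004)) e
 (c (a (nat_lit 0x1e2000000001)) e e)))
 (c (a (nat_lit 0x40c101))
 (c (a (nat_lit 0x17aaa0000004)) e e)
 (c (a (nat_lit 0x20205f84)) e
 (c (a (nat_lit 0x27b8e7)) e
 (c (a (nat_lit 0x1038bc28)) e
 (c (a (nat_lit 0xb11523229)) e
 (c (a (nat_lit 0x1dffbfbfa7)) e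
 (c (a (nat_lit 0x127fbfbfa7)) e
 (c (a (nat_lit 0x1d7e9e9e87)) e
 (c (a (nat_lit 0x1e9e9e8f47)) e
 (c (a (nat_lit 0x1e8f400007)) e e))))))))))))))))
 C11))) Tr.c Tr.e (nat_lit 0) C.cx
noncomputable def C13 : Tr := beta% (fun (c : Nat → Tr → Tr → Tr) (e : Tr) (z : Nat) (a : Nat → Nat) =>
 (c (a (nat_lit 0x2021))
 (c (a (nat_lit 0x202021))
 (c (a (nat_lit 0x60809b82)) e
 (c (a (nat_lit 0x2202095c6)) e
 (c (a (nat_lit 0x2c031eec7)) e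
 (c (a (nat_lit 0x5b4b6af47)) e
 (c (a (nat_lit 0x15506a0d28)) e
 (c (a (nat_lit 0x10ce228d28)) e
 (c (a (nat_lit 0x1380205847)) e
 (c (a (nat_lit 0x1e6f400005)) e e))))))))
 (c (a (nat_lit 0xf0f2041))
 (c (a (nat_lit 0x2109b1a7)) e
 (c (a (nat_lit 0x1565b1ec8)) e
 (c (a (nat_lit 0xb9cb5b788)) e
 (c (a (nat_lit 0x9f08f3089)) e
 (c (a (nat_lit 0x13296ffdc9)) e
 (c (a (nat_lit 0x860dae008)) e
 (c (a (nat_lit 0x1ea0000005)) e e)))))))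
 (c z
 (c (a (nat_lit 0xbb0f4aea8)) e
 (c (a (nat_lit 0x1239fdfda8)) e
 (c (a (nat_lit 0x11b2543fc9)) e
 (c (a (nat_lit 0x74990884a)) e
 (c (a (nat_lit 0xd5e000008)) e e)))))
 (c z
 (c (a (nat_lit 0xb8f6f7a68)) e
 (c (a (nat_lit 0x98a908fca)) e
 (c (a (nat_lit 0x9d0a8600a)) e
 (c (a (nat_lit 0x1e40000008)) e e))))
 (c z
 (c (a (nat_lit 0xcf2f2e5a9)) e
 (c (a (nat_lit 0x1349a0000a)) e e))
 (c (a (nat_lit 0x18e02003)) e
 (c (a (nat_lit 0x404001)) e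
 (c (a (nat_lit 0x400001)) e
 (c (a (nat_lit 0x202021)) e
 (c (a (nat_lit 0x2021)) e
 (c (a (nat_lit 0x202001)) e
 (c (a (nat_lit 0x202001)) e
 (c (a (nat_lit 0xa020e1)) e
 (c (a (nat_lit 0x402001)) e
 (c (a (nat_lit 0x202001)) e
 (c (a (nat_lit 0x804001)) e e))))))))))))))))
 (c (a (nat_lit 0x2021))
 (c (a (nat_lit 0x28121))
 (c (a (nat_lit 0x7573705)) e
 (c (a (nat_lit 0xe1b9f5f47)) e
 (c (a (nat_lit 0x112d8fc828)) e
 (c (a (nat_lit 0x10af513be8)) e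
 (c (a (nat_lit 0xd6fddcee8)) e
 (c (a (nat_lit 0x33ae00007)) e e))))))
 (c z
 (c (a (nat_lit 0x1195754f48)) e
 (c (a (nat_lit 0xd6f6f97a9)) e
 (c (a (nat_lit 0x92a100fca)) e
 (c (a (nat_lit 0x9b0a8600a)) e
 (c (a (nat_lit 0x1e60000008)) e e)))))
 (c (a (nat_lit 0x10001))
 (c (a (nat_lit 0xe8e9af348)) e
 (c (a (nat_lit 0x139f9fac89)) e
 (c (a (nat_lit 0x106840000a)) e e)))
 (c z
 (c (a (nat_lit 0x11f1e5a009)) e
 (c (a (nat_lit 0x1300000009)) e e))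
 (c (a (nat_lit 0xa00001)) e
 (c (a (nat_lit 0x402001)) e
 (c (a (nat_lit 0x404041)) e
 (c (a (nat_lit 0x4041)) e
 (c (a (nat_lit 0x202001)) e
 (c (a (nat_lit 0x204001)) e
 (c (a (nat_lit 0x604001)) e
 (c (a (nat_lit 0x404021)) e
 (c (a (nat_lit 0x4021)) e
 (c (a (nat_lit 0x402021)) e
 (c (a (nat_lit 0x800001)) e e)))))))))))))))
 (c (a (nat_lit 0x2021))
 (c (a (nat_lit 0x8261))
 (c (a (nat_lit 0x1131312d07)) e
 (c (a (nat_lit 0xdedf9f3c8)) e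
 (c (a (nat_lit 0xaf0f0e669)) e
 (c (a (nat_lit 0x11c8e00009)) e e))))
 (c (a (nat_lit 0x11002042))
 (c (a (nat_lit 0x953737168)) e
 (c (a (nat_lit 0x1bfb6c8009)) e
 (c (a (nat_lit 0x1d40000008)) e e)))
 (c (a (nat_lit 0x81))
 (c (a (nat_lit 0x1205600009)) e e)
 (c (a (nat_lit 0xc1)) e
 (c (a (nat_lit 0x20a1)) e
 (c (a (nat_lit 0x4101)) e
 (c (a (nat_lit 0x101)) e
 (c (a (nat_lit 0x20c1)) e
 (c (a (nat_lit 0x206021)) e
 (c (a (nat_lit 0x406061)) e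
 (c (a (nat_lit 0x2041)) e
 (c (a (nat_lit 0x2061)) e
 (c (a (nat_lit 0x4001)) e e)))))))))))))
 (c (a (nat_lit 0x2021))
 (c (a (nat_lit 0x2021))
 (c (a (nat_lit 0x18b835a2a6)) e
 (c (a (nat_lit 0x1a8c000008)) e e))
 (c (a (nat_lit 0x40c1))
 (c (a (nat_lit 0x14c0000007)) e e)
 (c (a (nat_lit 0xa1)) e
 (c (a (nat_lit 0x2081)) e
 (c (a (nat_lit 0x40e1)) e
 (c (a (nat_lit 0x20a1)) e
 (c (a (nat_lit 0x20a001)) e
 (c (a (nat_lit 0x6081)) e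
 (c (a (nat_lit 0x2021)) e
 (c (a (nat_lit 0x202001)) e
 (c (a (nat_lit 0xa06021)) e
 (c (a (nat_lit 0x400001)) e e))))))))))))
 (c (a (nat_lit 0x2021))
 (c (a (nat_lit 0x4081)) e
 (c (a (nat_lit 0x2061)) e
 (c (a (nat_lit 0x4041)) e
 (c (a (nat_lit 0x2081)) e
 (c (a (nat_lit 0x2001)) e
 (c (a (nat_lit 0x202021)) e
 (c (a (nat_lit 0x404041)) e
 (c (a (nat_lit 0x4021)) e
 (c (a (nat_lit 0x2041)) e
 (c (a (nat_lit 0x2001)) e e))))))))))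
 (c (a (nat_lit 0x2021))
 (c (a (nat_lit 0x202001)) e
 (c (a (nat_lit 0x804001)) e
 (c (a (nat_lit 0x606001)) e
 (c (a (nat_lit 0x200001)) e
 (c (a (nat_lit 0xa04001)) e
 (c (a (nat_lit 0x602001)) e
 (c (a (nat_lit 0x202001)) e
 (c (a (nat_lit 0x200021)) e
 (c (a (nat_lit 0x400001)) e e)))))))))
 (c (a (nat_lit 0x2021))
 (c (a (nat_lit 0x806021)) e
 (c (a (nat_lit 0xa041)) e
 (c (a (nat_lit 0x21)) e
 (c (a (nat_lit 0x202021)) e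
 (c (a (nat_lit 0x202041)) e
 (c (a (nat_lit 0x2001)) e
 (c (a (nat_lit 0x2001)) e e)))))))
 (c (a (nat_lit 0x2021))
 (c (a (nat_lit 0x202021)) e
 (c (a (nat_lit 0x202021)) e
 (c (a (nat_lit 0x202021)) e
 (c (a (nat_lit 0x202021)) e
 (c (a (nat_lit 0x202021)) e
 (c (a (nat_lit 0x200001)) e e))))))
 (c (a (nat_lit 0x2021))
 (c (a (nat_lit 0x202021)) e
 (c (a (nat_lit 0x202021)) e
 (c (a (nat_lit 0x202021)) e
 (c (a (nat_lit 0x202001)) e e))))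
 (c (a (nat_lit 0x2021))
 (c (a (nat_lit 0x202021)) e
 (c (a (nat_lit 0x202021)) e
 (c (a (nat_lit 0x200001)) e e)))
 (c (a (nat_lit 0x2021))
 (c (a (nat_lit 0x202001)) e e)
 (c (a (nat_lit 0x2021)) e
 (c (a (nat_lit 0x2021)) e
 (c (a (nat_lit 0x2021)) e
 (c (a (nat_lit 0x2021)) e
 (c (a (nat_lit 0x2021)) e
 (c (a (nat_lit 0x2021)) e
 (c (a (nat_lit 0x2021)) e
 (c z e
 (c (a (nat_lit 0x41)) e
 (c (a (nat_lit 0x21)) e e)))))))))))))))))))))) Tr.c Tr.e (nat_lit 0) C.cx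
noncomputable def C14 : Tr := beta% (fun (c : Nat → Tr → Tr → Tr) (e : Tr) (z : Nat) (a : Nat → Nat) =>
 (c (a (nat_lit 0x2021))
 (c (a (nat_lit 0x21))
 (c (a (nat_lit 0x208101))
 (c (a (nat_lit 0x13eb186ac786)) e
 (c (a (nat_lit 0xdd468c340e8)) e
 (c (a (nat_lit 0x14858580a268)) e
 (c (a (nat_lit 0x124bcb686006)) e
 (c (a (nat_lit 0x23c20000002)) e e)))))
 (c (a (nat_lit 0x30e5))
 (c (a (nat_lit 0x1dd005e203a8)) e
 (c (a (nat_lit 0x16c886a705a8)) e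
 (c (a (nat_lit 0x1159b2a00005)) e
 (c (a (nat_lit 0x1aa000000004)) e e))))
 (c (a (nat_lit 0x10638025))
 (c (a (nat_lit 0xa5099624005)) e
 (c (a (nat_lit 0x145a80000005)) e e))
 (c (a (nat_lit 0x121216a5))
 (c (a (nat_lit 0x66000000001)) e e)
 (c (a (nat_lit 0xf51f1ece5)) e
 (c (a (nat_lit 0x12bd3c7)) e
 (c (a (nat_lit 0x616fafae8)) e
 (c z e
 (c (a (nat_lit 0x1191919109)) e
 (c (a (nat_lit 0x10100fafa8)) e
 (c (a (nat_lit 0x1f5f5f4fa7)) e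
 (c (a (nat_lit 0x1f4fa00007)) e e))))))))))))
 (c (a (nat_lit 0x202021))
 (c (a (nat_lit 0x3b63e3e4))
 (c (a (nat_lit 0x11838420a527)) e
 (c (a (nat_lit 0x3010a9a006)) e
 (c (a (nat_lit 0xa3880000004)) e e)))
 (c (a (nat_lit 0x290911e6))
 (c (a (nat_lit 0x1f629200005)) e
 (c (a (nat_lit 0x18c000000004)) e e))
 (c (a (nat_lit 0x10d0f0f984)) e
 (c (a (nat_lit 0x202518a6)) e
 (c (a (nat_lit 0x270f93c8)) e
 (c (a (nat_lit 0xe385a5849)) e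
 (c z e
 (c (a (nat_lit 0x1bbbbbcd09)) e
 (c (a (nat_lit 0x13d3d39368)) e
 (c (a (nat_lit 0x139369c008)) e
 (c (a (nat_lit 0x1360000007)) e e)))))))))))
 (c (a (nat_lit 0x404041))
 (c (a (nat_lit 0x223b83))
 (c (a (nat_lit 0x1940a0000002)) e e)
 (c (a (nat_lit 0x202693c6)) e
 (c (a (nat_lit 0xe42e5327)) e
 (c (a (nat_lit 0x6ae7337a8)) e
 (c (a (nat_lit 0xb4c54abc9)) e
 (c z e
 (c (a (nat_lit 0x1292888029)) e
 (c (a (nat_lit 0x13b3b349a8)) e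
 (c (a (nat_lit 0x1349a00008)) e e)))))))))
 (c (a (nat_lit 0x404041))
 (c (a (nat_lit 0x6f3c64)) e
 (c (a (nat_lit 0x52b3075a7)) e
 (c (a (nat_lit 0x17d81b3947)) e
 (c (a (nat_lit 0x1a5dd43ba7)) e
 (c z e
 (c (a (nat_lit 0x1348646149)) e
 (c (a (nat_lit 0x13b3a9a008)) e
 (c (a (nat_lit 0x1340000007)) e e))))))))
 (c (a (nat_lit 0x202001))
 (c (a (nat_lit 0xf117038a6)) e
 (c (a (nat_lit 0x5c18956a8)) e
 (c (a (nat_lit 0xc8471fd88)) e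
 (c z e
 (c (a (nat_lit 0x1a57f23ec8)) e
 (c (a (nat_lit 0x13ea200008)) e e))))))
 (c (a (nat_lit 0x404041))
 (c (a (nat_lit 0x206a7368)) e
 (c (a (nat_lit 0x2c93638e9)) e
 (c z e
 (c (a (nat_lit 0xccc512009)) e
 (c (a (nat_lit 0x1320000007)) e e)))))
 (c z
 (c (a (nat_lit 0x1ceb09689)) e e)
 (c z e
 (c (a (nat_lit 0x13d50001)) e
 (c (a (nat_lit 0x12061)) e
 (c (a (nat_lit 0xa04001)) e
 (c (a (nat_lit 0xc04001)) e
 (c (a (nat_lit 0x804001)) e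
 (c (a (nat_lit 0x202061)) e
 (c (a (nat_lit 0x20c1)) e
 (c (a (nat_lit 0xe1)) e
 (c z e
 (c (a (nat_lit 0x806061)) e
 (c (a (nat_lit 0x202001)) e e)))))))))))))))))))
 (c (a (nat_lit 0x2021))
 (c (a (nat_lit 0x2021))
 (c (a (nat_lit 0x1664625a1))
 (c (a (nat_lit 0x4786a682e1)) e
 (c (a (nat_lit 0x2325a00001)) e
 (c (a (nat_lit 0x156000000002)) e e)))
 (c (a (nat_lit 0x181220041))
 (c (a (nat_lit 0x128120000001)) e e)
 (c (a (nat_lit 0x4040b822)) e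
 (c (a (nat_lit 0x202271e7)) e
 (c (a (nat_lit 0x1ea3287)) e
 (c (a (nat_lit 0x12d6f66a88)) e
 (c z e
 (c (a (nat_lit 0x14f4ed4488)) e
 (c (a (nat_lit 0x1edfdecf25)) e
 (c (a (nat_lit 0x1fcf200005)) e e))))))))))
 (c (a (nat_lit 0x2021))
 (c (a (nat_lit 0x2040bca2))
 (c (a (nat_lit 0x8000000001)) e e)
 (c (a (nat_lit 0x20203166)) e
 (c (a (nat_lit 0xc026d008)) e
 (c (a (nat_lit 0xa5b39308)) e
 (c (a (nat_lit 0xef4f04309)) e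
 (c z e
 (c (a (nat_lit 0x1951402008)) e
 (c (a (nat_lit 0x1e5e4f6006)) e
 (c (a (nat_lit 0x1e80000005)) e e)))))))))
 (c (a (nat_lit 0x204041))
 (c (a (nat_lit 0x500501f45)) e
 (c (a (nat_lit 0x2b4d96a7)) e
 (c (a (nat_lit 0x288732fa8)) e
 (c (a (nat_lit 0xd0b709b08)) e
 (c z e
 (c (a (nat_lit 0x1104c09548)) e
 (c (a (nat_lit 0x1eaf600006)) e e)))))))
 (c (a (nat_lit 0x2001))
 (c (a (nat_lit 0xa282a1187)) e
 (c (a (nat_lit 0x5add3f7e8)) e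
 (c (a (nat_lit 0x40a0f5129)) e
 (c z e
 (c (a (nat_lit 0x172d7b2008)) e
 (c (a (nat_lit 0x1020000006)) e e))))))
 (c z
 (c (a (nat_lit 0x9b51cdcc7)) e
 (c (a (nat_lit 0x5d213ffe9)) e
 (c z e
 (c (a (nat_lit 0x153de00008)) e e))))
 (c z
 (c (a (nat_lit 0xc2e1415e9)) e e)
 (c z e
 (c (a (nat_lit 0x18002003)) e
 (c (a (nat_lit 0x402021)) e
 (c (a (nat_lit 0x2001)) e
 (c (a (nat_lit 0x202021)) e
 (c (a (nat_lit 0x404001)) e
 (c (a (nat_lit 0x402001)) e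
 (c (a (nat_lit 0x802001)) e
 (c (a (nat_lit 0x203863)) e
 (c (a (nat_lit 0x4001)) e
 (c (a (nat_lit 0xa04021)) e
 (c (a (nat_lit 0x600001)) e e))))))))))))))))))
 C13))) Tr.c Tr.e (nat_lit 0) C.cx
noncomputable def C15 : Tr := beta% (fun (c : Nat → Tr → Tr → Tr) (e : Tr) (z : Nat) (a b : Nat → Nat) =>
 (c (a (nat_lit 0x202021))
 (c (a (nat_lit 0x20a0c1))
 (c (a (nat_lit 0x12d2d2d2d328))
 (c (a (nat_lit 0xeb123e0000008)) e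
 (c (a (nat_lit 0x1f600000000008)) e e))
 (c (a (nat_lit 0x1c9c9c9cfce9)) e
 (c (a (nat_lit 0x169697171689)) e
 (c (a (nat_lit 0x14f6f6f67489)) e
 (c (a (nat_lit 0x1315d551a649)) e
 (c (a (nat_lit 0x11515149cca9)) e
 (c (a (nat_lit 0x158c49642009)) e
 (c (a (nat_lit 0x1326a0000008)) e e))))))))
 (c (a (nat_lit 0xa0806021))
 (c (a (nat_lit 0x1cdcdd1d0f09)) e
 (c (a (nat_lit 0x16f737533b0a)) e
 (c (a (nat_lit 0x17172d5ac96a)) e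
 (c z e
 (c z e
 (c (a (nat_lit 0x1367a540000a)) e e))))))
 (c (a (nat_lit 0x6080c001))
 (c (a (nat_lit 0x10f0f055e3c9)) e
 (c z e
 (c z e
 (c (b (nat_lit 0x113fe8646009)) e
 (c (a (nat_lit 0x175140000007)) e e)))))
 (c (a (nat_lit 0xa04041))
 (c z e
 (c (b (nat_lit 0x129fe86b4028)) e
 (c (b (nat_lit 0x1ff73ac00006)) e
 (c (a (nat_lit 0x1b6000000005)) e e))))
 (c (a (nat_lit 0x80404001))
 (c (b (nat_lit 0x1fed7646e006)) e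
 (c (a (nat_lit 0x126b80000006)) e e))
 (c (a (nat_lit 0x2f3e86))
 (c (a (nat_lit 0x148000000004)) e e)
 (c (a (nat_lit 0x2b6b7a47)) e
 (c (a (nat_lit 0x29b092a8)) e
 (c (a (nat_lit 0x7d0977989)) e
 (c (a (nat_lit 0xa0ed170ca)) e
 (c (a (nat_lit 0x18befefee8)) e
 (c (a (nat_lit 0x13befefee8)) e
 (c (a (nat_lit 0x14fdddddc8)) e
 (c (a (nat_lit 0x1dddcee008)) e
 (c (a (nat_lit 0x1dc0000007)) e e)))))))))))))))
 (c (a (nat_lit 0x202021))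
 (c (a (nat_lit 0x80202041))
 (c (a (nat_lit 0x137393ae1a68)) e
 (c (a (nat_lit 0xb2b28d186ca)) e
 (c (a (nat_lit 0x1829be6d45e9)) e
 (c z e
 (c (b (nat_lit 0x173fffe10009)) e e)))))
 (c (a (nat_lit 0x80604061))
 (c z e
 (c z e
 (c (a (nat_lit 0x10440442e16a)) e
 (c (a (nat_lit 0x19d28ac00007)) e e))))
 (c (a (nat_lit 0x404101))
 (c (a (nat_lit 0x10e446816009)) e
 (c (b (nat_lit 0xa7ff82b8007)) e
 (c (a (nat_lit 0x179e0000004)) e e)))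
 (c (a (nat_lit 0x283307))
 (c (a (nat_lit 0x1b9e91a00006)) e
 (c (a (nat_lit 0x16e000000006)) e e))
 (c (a (nat_lit 0xe15b5a7)) e
 (c (a (nat_lit 0x26299168)) e
 (c z e
 (c z e
 (c (a (nat_lit 0x9ceb1914a)) e
 (c (a (nat_lit 0x1d5f5eff08)) e
 (c (a (nat_lit 0xd5f1f1f08)) e
 (c (a (nat_lit 0x13be9e8f48)) e
 (c (a (nat_lit 0x1e8f400008)) e e)))))))))))))
 (c (a (nat_lit 0x202021))
 (c (a (nat_lit 0x80800001))
 (c (a (nat_lit 0x11f9c581e627)) e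
 (c (a (nat_lit 0x14a562c2e049)) e
 (c (a (nat_lit 0x16341426a006)) e
 (c (a (nat_lit 0x45fe0000005)) e e))))
 (c (a (nat_lit 0x20203043))
 (c (a (nat_lit 0x134505e621a8)) e
 (c (a (nat_lit 0x73852000007)) e
 (c (a (nat_lit 0x11a000000005)) e e)))
 (c (a (nat_lit 0x369084e5))
 (c (a (nat_lit 0x14ede0000006)) e e)
 (c (a (nat_lit 0xa2ab1c7)) e
 (c (a (nat_lit 0x9d3f82e27)) e
 (c (a (nat_lit 0x1053f58fa8)) e
 (c z e
 (c (a (nat_lit 0xe145a3769)) e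
 (c (a (nat_lit 0xad3333328)) e
 (c (a (nat_lit 0x3f3333328)) e
 (c (a (nat_lit 0xb12a96008)) e
 (c (a (nat_lit 0x12a0000007)) e e))))))))))))
 (c (a (nat_lit 0x202021))
 (c (a (nat_lit 0x3bdbbac3))
 (c (a (nat_lit 0xe0dd5838005)) e
 (c (a (nat_lit 0x193540000006)) e e))
 (c (a (nat_lit 0x2eaebb86))
 (c (a (nat_lit 0x132000000005)) e e)
 (c (a (nat_lit 0xb329d96a7)) e
 (c (a (nat_lit 0x9d5775427)) e
 (c (a (nat_lit 0xfd1d12f68)) e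
 (c (a (nat_lit 0x1a3a3d1a28)) e
 (c (a (nat_lit 0x6ee947469)) e
 (c (a (nat_lit 0xa931312e8)) e
 (c (a (nat_lit 0x9f2f2e9c8)) e
 (c (a (nat_lit 0x912600007)) e e))))))))))
 (c (a (nat_lit 0x202021))
 (c (a (nat_lit 0x13131ff765)) e
 (c (a (nat_lit 0xeb514f3a7)) e
 (c (a (nat_lit 0x149493e887)) e
 (c (a (nat_lit 0x1bda9a86c7)) e
 (c (a (nat_lit 0xb6b550ee8)) e
 (c (a (nat_lit 0x54db37089)) e
 (c (a (nat_lit 0xcd2f2f368)) e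
 (c (a (nat_lit 0x12e9c008)) e
 (c (a (nat_lit 0x20000001)) e e)))))))))
 (c (a (nat_lit 0x402021))
 (c (a (nat_lit 0x1c3c3c2086)) e
 (c (a (nat_lit 0x1232684026)) e
 (c (a (nat_lit 0x136e202227)) e
 (c (a (nat_lit 0x127291bd87)) e
 (c (a (nat_lit 0xa94d8f528)) e
 (c (a (nat_lit 0x3353c9e8)) e
 (c (a (nat_lit 0x33c00007)) e e)))))))
 (c (a (nat_lit 0x402021))
 (c (a (nat_lit 0x17d8e02025)) e
 (c (a (nat_lit 0x1520202007)) e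
 (c (a (nat_lit 0x13602ddac7)) e
 (c (a (nat_lit 0x7616c3248)) e
 (c (a (nat_lit 0x32c96008)) e
 (c (a (nat_lit 0x380000001)) e e))))))
 (c (a (nat_lit 0x402021))
 (c (a (nat_lit 0xc20203586)) e
 (c (a (nat_lit 0x2026f9e8)) e
 (c (a (nat_lit 0x216d5348)) e
 (c (a (nat_lit 0x3d400007)) e e))))
 (c (a (nat_lit 0x202021))
 (c (a (nat_lit 0x2db649)) e
 (c (a (nat_lit 0x24d54009)) e
 (c (a (nat_lit 0x14a0000004)) e e)))
 (c (a (nat_lit 0x14021))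
 (c (a (nat_lit 0x32600007)) e e)
 (c (a (nat_lit 0x40a1)) e
 (c (a (nat_lit 0x3023)) e
 (c (a (nat_lit 0xa00081)) e
 (c (a (nat_lit 0x2061)) e
 (c (a (nat_lit 0x40c1)) e
 (c (a (nat_lit 0x41)) e
 (c (a (nat_lit 0x4061)) e
 (c (a (nat_lit 0x81)) e
 (c (a (nat_lit 0x2061)) e
 (c (a (nat_lit 0x4001)) e
 (c (a (nat_lit 0x402001)) e e)))))))))))))))))))))) Tr.c Tr.e (nat_lit 0) C.cx C.cy
noncomputable def C16 : Tr := beta% (fun (c : Nat → Tr → Tr → Tr) (e : Tr) (z : Nat) (a b : Nat → Nat) =>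
 (c (a (nat_lit 0x2021))
 (c (a (nat_lit 0x202021))
 (c (a (nat_lit 0x104bcbc2))
 (c (a (nat_lit 0x5b353535346))
 (c (a (nat_lit 0x15199979797d65)) e
 (c (a (nat_lit 0xe2e2e2e108888)) e
 (c (a (nat_lit 0x1c5c5c70a00007)) e
 (c (a (nat_lit 0x16abc000000007)) e e))))
 (c (a (nat_lit 0x512f2d2d2c8))
 (c (a (nat_lit 0x197a9a9f6b2008)) e
 (c (a (nat_lit 0x19b9cf60000009)) e
 (c (a (nat_lit 0x14800000000008)) e e)))
 (c (a (nat_lit 0xa3313131308))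
 (c (a (nat_lit 0x18ca6000000008)) e e)
 (c (a (nat_lit 0xefe1e1e1e87)) e
 (c (a (nat_lit 0x14fe1e1e9f07)) e
 (c (a (nat_lit 0xb4f0f4f9108)) e
 (c (a (nat_lit 0xb4f6fb281c8)) e
 (c (a (nat_lit 0x96e50c92ae8)) e
 (c (a (nat_lit 0x3920d86c008)) e
 (c (a (nat_lit 0x1be7c0000007)) e e))))))))))
 (c (a (nat_lit 0xc0c121))
 (c (a (nat_lit 0x135c3c1c1c08))
 (c (a (nat_lit 0x1afb1fe8c00008)) e
 (c (a (nat_lit 0x12eb600000000a)) e e))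
 (c (a (nat_lit 0x171c7c7c7cc9))
 (c (a (nat_lit 0x1d400000000008)) e e)
 (c (a (nat_lit 0x12b69676d709)) e
 (c (a (nat_lit 0x12b676d6f6e9)) e
 (c (a (nat_lit 0x11d6d6f5caa9)) e
 (c (a (nat_lit 0x1137382cca09)) e
 (c (a (nat_lit 0xbb46e88a4e9)) e
 (c (a (nat_lit 0x164c67000009)) e
 (c (a (nat_lit 0x15c000000007)) e e)))))))))
 (c (a (nat_lit 0xa0804041))
 (c (a (nat_lit 0x1cbcbcbcfd08)) e
 (c (a (nat_lit 0x16d6d71739c9)) e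
 (c (a (nat_lit 0x1396f72fd9a9)) e
 (c (a (nat_lit 0x1157323a1409)) e
 (c (a (nat_lit 0x9ae3670ea09)) e
 (c (a (nat_lit 0xdb63164c009)) e e))))))
 (c (a (nat_lit 0x402041))
 (c (a (nat_lit 0x10f11155b668)) e
 (c (a (nat_lit 0x10b0d0d10329)) e
 (c (a (nat_lit 0x10eaf200c029)) e
 (c (b (nat_lit 0xf91bfe543a8)) e
 (c (a (nat_lit 0x146542c00008)) e e)))))
 (c (a (nat_lit 0x206061))
 (c (a (nat_lit 0x1108ad25c408)) e
 (c (a (nat_lit 0xa9f63a4a3e7)) e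
 (c (a (nat_lit 0x14a6f2e86006)) e
 (c (a (nat_lit 0x10aaa0000006)) e e))))
 (c (a (nat_lit 0x404041))
 (c (a (nat_lit 0x21bed52984)) e
 (c (a (nat_lit 0x81cb8a00003)) e
 (c (a (nat_lit 0x10e000000005)) e e)))
 (c (a (nat_lit 0x208081))
 (c (a (nat_lit 0x1f0920000004)) e e)
 (c (a (nat_lit 0x22d1a6)) e
 (c (a (nat_lit 0x151d1d06)) e
 (c (a (nat_lit 0x2a581e47)) e
 (c (a (nat_lit 0x70d72d229)) e
 (c (a (nat_lit 0xf7bfbfbe7)) e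
 (c (a (nat_lit 0xddb7b7b67)) e
 (c (a (nat_lit 0x9da7a7a67)) e
 (c (a (nat_lit 0x1a5a7a6d47)) e
 (c (a (nat_lit 0x1a4d400007)) e e))))))))))))))))
 C15)
 (c (a (nat_lit 0x2021))
 (c (a (nat_lit 0x202021))
 (c (a (nat_lit 0x202021))
 (c (a (nat_lit 0x12f2f2f35346))
 (c (a (nat_lit 0x1ec5e000000005)) e e)
 (c (a (nat_lit 0x133333736848)) e
 (c (a (nat_lit 0xf2f6f735488)) e
 (c (a (nat_lit 0xf6f6d74e6e8)) e
 (c (a (nat_lit 0xd4d906324e8)) e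
 (c (a (nat_lit 0x14f706ad06c7)) e
 (c (a (nat_lit 0x12a6c6a00007)) e
 (c (a (nat_lit 0x124000000004)) e e))))))))
 (c (a (nat_lit 0x60402001))
 (c (a (nat_lit 0x1cfd3d691d28)) e
 (c (a (nat_lit 0x17576f9c87e9)) e
 (c (a (nat_lit 0xba550a584ea)) e
 (c (a (nat_lit 0xc5523a48769)) e
 (c (a (nat_lit 0x136147438009)) e
 (c (a (nat_lit 0x1000000006)) e e))))))
 (c (a (nat_lit 0x60a02001))
 (c (a (nat_lit 0x10d3950763e8)) e
 (c z e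
 (c (a (nat_lit 0x1e266563c028)) e
 (c (a (nat_lit 0x110808600006)) e
 (c (a (nat_lit 0xc0000000001)) e e)))))
 (c (a (nat_lit 0x60200001))
 (c (a (nat_lit 0x1f894e286027)) e
 (c (a (nat_lit 0xdf202c20006)) e
 (c (a (nat_lit 0x128520000002)) e e)))
 (c (a (nat_lit 0xa0602d81))
 (c (a (nat_lit 0xd9266200006)) e
 (c (a (nat_lit 0x118000000006)) e e))
 (c (a (nat_lit 0x25657447)) e
 (c (a (nat_lit 0x2ef93926)) e
 (c (a (nat_lit 0x76e1267)) e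
 (c (a (nat_lit 0x8907291a9)) e
 (c (a (nat_lit 0xf50d0cf89)) e
 (c (a (nat_lit 0x1b3b3b3b27)) e
 (c (a (nat_lit 0x1b3b3b3b27)) e
 (c (a (nat_lit 0x19f9f9ed07)) e
 (c (a (nat_lit 0x19ed000007)) e e))))))))))))))
 (c (a (nat_lit 0x202021))
 (c (a (nat_lit 0xa080c161))
 (c (a (nat_lit 0x13b3c676e4c8)) e
 (c (a (nat_lit 0x166c5aea65e9)) e
 (c (a (nat_lit 0xb7e4bc6c469)) e
 (c (a (nat_lit 0x142142046149)) e
 (c (a (nat_lit 0xcf019a00006)) e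
 (c (a (nat_lit 0xa8000000001)) e e))))))
 (c (a (nat_lit 0xc0806081))
 (c (a (nat_lit 0xe9629218329)) e
 (c (a (nat_lit 0x16e68483e1ea)) e
 (c (b (nat_lit 0x157ff9eae007)) e
 (c (a (nat_lit 0x13d80000006)) e e))))
 (c (a (nat_lit 0x2031ab06))
 (c (a (nat_lit 0x1a9275f56767)) e
 (c (a (nat_lit 0x10562fa00007)) e
 (c (a (nat_lit 0x4a000000001)) e e)))
 (c (a (nat_lit 0x272794c7))
 (c (a (nat_lit 0x146b80000006)) e e)
 (c (a (nat_lit 0xc0d1167)) e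
 (c (a (nat_lit 0x60b56da07)) e
 (c (a (nat_lit 0x2abf0b109)) e
 (c z e
 (c (a (nat_lit 0x1bfdfe1c09)) e
 (c (a (nat_lit 0x1fbfbf5f48)) e
 (c (a (nat_lit 0x1f5f5f5f48)) e
 (c (a (nat_lit 0x1ebeaf6008)) e
 (c (a (nat_lit 0x1ea0000007)) e e)))))))))))))
 (c (a (nat_lit 0x202021))
 (c (a (nat_lit 0x60403be3))
 (c (a (nat_lit 0x180be22282c7)) e
 (c (a (nat_lit 0x1582c184e428)) e
 (c (b (nat_lit 0x1fe652200006)) e
 (c (a (nat_lit 0x6000000001)) e e))))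
 (c (a (nat_lit 0x27243966))
 (c (a (nat_lit 0x8aa37298006)) e
 (c (a (nat_lit 0x4f560000006)) e e))
 (c (a (nat_lit 0x3f9e8d25))
 (c (a (nat_lit 0x1c0000000004)) e e)
 (c (a (nat_lit 0x932130f26)) e
 (c (a (nat_lit 0x6f363927)) e
 (c (a (nat_lit 0x15393d5dc8)) e
 (c z e
 (c (a (nat_lit 0x1afadad6e9)) e
 (c (a (nat_lit 0x1393939368)) e
 (c (a (nat_lit 0x1373736a08)) e
 (c (a (nat_lit 0x12e9800008)) e e)))))))))))
 (c (a (nat_lit 0x202021))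
 (c (a (nat_lit 0x3ddd9d64))
 (c (a (nat_lit 0x45dcf000004)) e
 (c (a (nat_lit 0x1be000000003)) e e))
 (c (a (nat_lit 0x2888bc05)) e
 (c (a (nat_lit 0x72ed5c7)) e
 (c (a (nat_lit 0x107a9ebec7)) e
 (c (a (nat_lit 0x14b4b8b368)) e
 (c (a (nat_lit 0x129c3e32a9)) e
 (c (a (nat_lit 0x11b3b3af09)) e
 (c (a (nat_lit 0x13737373e8)) e
 (c (a (nat_lit 0x13734a0008)) e
 (c (a (nat_lit 0x12a0000007)) e e))))))))))
 (c (a (nat_lit 0x202021))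
 (c (a (nat_lit 0x84833d305)) e
 (c (a (nat_lit 0xd12f2ad47)) e
 (c (a (nat_lit 0x1917f803e7)) e
 (c (a (nat_lit 0x1cfcf81247)) e
 (c (a (nat_lit 0x18bdf4d548)) e
 (c (a (nat_lit 0x1496b2eca9)) e
 (c (a (nat_lit 0x135353ea08)) e
 (c (a (nat_lit 0x134a000008)) e e))))))))
 (c (a (nat_lit 0x202021))
 (c (a (nat_lit 0x19b9b00006)) e
 (c (a (nat_lit 0x144b603746)) e
 (c (a (nat_lit 0xf6026bf87)) e
 (c (a (nat_lit 0x10e3090988)) e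
 (c (a (nat_lit 0x14b4058028)) e
 (c (a (nat_lit 0x13b42a2008)) e
 (c (a (nat_lit 0x1420000007)) e e)))))))
 (c (a (nat_lit 0x404041))
 (c (a (nat_lit 0xc60203a66)) e
 (c (a (nat_lit 0x2021d1c9)) e
 (c (a (nat_lit 0x16998e8)) e
 (c (a (nat_lit 0x16fbd05408)) e
 (c (a (nat_lit 0x1329a00008)) e e)))))
 (c (a (nat_lit 0x404021))
 (c (a (nat_lit 0x1402ab069)) e
 (c (a (nat_lit 0x244e75ca)) e
 (c (a (nat_lit 0x1333540009)) e
 (c (a (nat_lit 0x1da0000007)) e e))))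
 (c z
 (c (a (nat_lit 0x30382829)) e e)
 (c (b (nat_lit 0x1fe2c0c1)) e
 (c (a (nat_lit 0x5343)) e
 (c z e
 (c (a (nat_lit 0x2081)) e
 (c (a (nat_lit 0x2061)) e
 (c (a (nat_lit 0x41)) e
 (c (a (nat_lit 0x4001)) e
 (c (a (nat_lit 0x200001)) e
 (c (nat_lit 1) e
 (c (a (nat_lit 0x600001)) e
 (c z e
 (c (a (nat_lit 0x400001)) e e)))))))))))))))))))))
 C14))) Tr.c Tr.e (nat_lit 0) C.cx C.cy
noncomputable def C17 : Tr := beta% (fun (c : Nat → Tr → Tr → Tr) (e : Tr) (z : Nat) (a b : Nat → Nat) =>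
 (c (a (nat_lit 0x202021))
 (c (a (nat_lit 0x408060a1))
 (c (a (nat_lit 0x1abab93915c6))
 (c (a (nat_lit 0xde7bb2a600005)) e
 (c (a (nat_lit 0x1033a000000005)) e e))
 (c (a (nat_lit 0x111110af0d68)) e
 (c (a (nat_lit 0x8484644f9a8)) e
 (c (a (nat_lit 0x9c825db3328)) e
 (c (a (nat_lit 0x827d313ad69)) e
 (c (a (nat_lit 0x8932a26c5e9)) e
 (c (a (nat_lit 0xfce704ac4e9)) e
 (c (a (nat_lit 0x1d6f07a00009)) e
 (c (a (nat_lit 0x1c8000000006)) e e)))))))))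
 (c (a (nat_lit 0x100a04001))
 (c (a (nat_lit 0x8a8a847f3c9)) e
 (c (a (nat_lit 0x7a746f0eb6a)) e
 (c (a (nat_lit 0xaca360b0faa)) e
 (c (a (nat_lit 0xab328aae40a)) e
 (c z e
 (c (a (nat_lit 0x1351f1aa8009)) e
 (c (a (nat_lit 0x1066a0000009)) e e)))))))
 (c (a (nat_lit 0x20604041))
 (c (a (nat_lit 0x1271dd9c5a28)) e
 (c (a (nat_lit 0xd3c9618d429)) e
 (c z e
 (c (b (nat_lit 0x185ffe698028)) e
 (c (a (nat_lit 0x6d184e00009)) e e)))))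
 (c (a (nat_lit 0xa0606001))
 (c (a (nat_lit 0x190c72ec0988)) e
 (c (b (nat_lit 0x1e9ff113a3a7)) e
 (c (b (nat_lit 0x1fe79708e007)) e
 (c (a (nat_lit 0x1cae60000007)) e e))))
 (c (a (nat_lit 0xc0e06001))
 (c (a (nat_lit 0x6d3b55d4025)) e
 (c (a (nat_lit 0x11ccee00005)) e
 (c (a (nat_lit 0x108000000006)) e e)))
 (c (a (nat_lit 0x402021))
 (c (a (nat_lit 0x1aa240000003)) e e)
 (c (a (nat_lit 0x203cde25)) e
 (c (a (nat_lit 0x2a8ddce8)) e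
 (c (a (nat_lit 0x14d7777a9)) e
 (c (a (nat_lit 0x125a59ad89)) e
 (c (a (nat_lit 0x18d9602028)) e
 (c (a (nat_lit 0x20606041)) e
 (c (a (nat_lit 0x60806041)) e
 (c (a (nat_lit 0xa0802021)) e
 (c (a (nat_lit 0x80600001)) e e)))))))))))))))
 (c (a (nat_lit 0x202021))
 (c (a (nat_lit 0x160a04001))
 (c (a (nat_lit 0xbebebfa7007)) e
 (c (a (nat_lit 0xfcff48d8d69)) e
 (c (a (nat_lit 0xb33e88cc429)) e
 (c (a (nat_lit 0x1148646402c9)) e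
 (c (b (nat_lit 0x102c7fe42229)) e
 (c (a (nat_lit 0x1b4566c00008)) e
 (c (a (nat_lit 0x186000000004)) e e)))))))
 (c (a (nat_lit 0xc0404001))
 (c (a (nat_lit 0x7ef0a09d2a9)) e
 (c z e
 (c (a (nat_lit 0x6d21184c049)) e
 (c (a (nat_lit 0x17520882e009)) e
 (c (a (nat_lit 0x1883c0000009)) e e)))))
 (c (a (nat_lit 0x60408001))
 (c (a (nat_lit 0x3f4b096308)) e
 (c (a (nat_lit 0x1a22e8e5c029)) e
 (c (a (nat_lit 0x53592e00007)) e e)))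
 (c (a (nat_lit 0x40600001))
 (c (a (nat_lit 0xb6770c36006)) e
 (c (a (nat_lit 0x122b20000006)) e e))
 (c (a (nat_lit 0x2ed606))
 (c (a (nat_lit 0x11a000000004)) e e)
 (c (a (nat_lit 0xeb61e07)) e
 (c (a (nat_lit 0x22d919368)) e
 (c z e
 (c (a (nat_lit 0x10b2d2a6e9)) e
 (c (a (nat_lit 0x1718a02028)) e
 (c (a (nat_lit 0x242426381)) e
 (c (a (nat_lit 0xe0e001)) e
 (c (a (nat_lit 0x20e08001)) e
 (c (a (nat_lit 0x60000001)) e e))))))))))))))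
 (c (a (nat_lit 0x202021))
 (c (a (nat_lit 0xc0a04001))
 (c (a (nat_lit 0xa47699f2747)) e
 (c (a (nat_lit 0x2a73208e0c9)) e
 (c (a (nat_lit 0xbf1a461e209)) e
 (c (a (nat_lit 0x1022e1800009)) e
 (c (a (nat_lit 0x15a000000006)) e e)))))
 (c (a (nat_lit 0x1e1000001))
 (c (a (nat_lit 0x155ef345c268)) e
 (c (a (nat_lit 0x198c67432009)) e
 (c (a (nat_lit 0x146660000008)) e e)))
 (c (a (nat_lit 0x203fa3))
 (c (a (nat_lit 0xe3448a00007)) e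
 (c (a (nat_lit 0x14a000000007)) e e))
 (c (a (nat_lit 0x2c8b9367)) e
 (c (a (nat_lit 0xb93fbfdc7)) e
 (c z e
 (c z e
 (c (a (nat_lit 0x1232332708)) e
 (c (a (nat_lit 0x1096204027)) e
 (c (a (nat_lit 0xc0a16001)) e
 (c (a (nat_lit 0x1010061)) e
 (c (a (nat_lit 0x200001)) e e))))))))))))
 (c (a (nat_lit 0x202021))
 (c (a (nat_lit 0xe0804de1))
 (c (a (nat_lit 0x172ae6840107)) e
 (c (a (nat_lit 0x1c998ae00007)) e
 (c (a (nat_lit 0x1c0000000006)) e e)))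
 (c (a (nat_lit 0x2b2c1c26))
 (c (a (nat_lit 0x1004c0000008)) e e)
 (c (a (nat_lit 0x84cf0f0c8)) e
 (c (a (nat_lit 0xe12122d08)) e
 (c (a (nat_lit 0x1353536e68)) e
 (c (a (nat_lit 0x11b1718d28)) e
 (c (a (nat_lit 0x1a1a1bdf27)) e
 (c (a (nat_lit 0xbb1404047)) e
 (c (a (nat_lit 0x15c0202024)) e
 (c (a (nat_lit 0xc0a10001)) e
 (c (a (nat_lit 0x20000001)) e e)))))))))))
 (c (a (nat_lit 0x404041))
 (c (a (nat_lit 0xccf575746))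
 (c (a (nat_lit 0x1a4000000004)) e e)
 (c (a (nat_lit 0xf33334dc8)) e
 (c (a (nat_lit 0x181818c807)) e
 (c (a (nat_lit 0x193935ce87)) e
 (c (a (nat_lit 0x1410d0d5a7)) e
 (c (a (nat_lit 0x1494997c87)) e
 (c (a (nat_lit 0x6f8412146)) e
 (c (a (nat_lit 0x1640202006)) e
 (c (nat_lit 1) e e)))))))))
 (c (a (nat_lit 0x402021))
 (c (a (nat_lit 0x1111110687)) e
 (c (a (nat_lit 0x14f4f506a6)) e
 (c (a (nat_lit 0x13130ba007)) e
 (c (a (nat_lit 0x15ae4e45c7)) e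
 (c (a (nat_lit 0xeaeb83107)) e
 (c (a (nat_lit 0x34c02026)) e
 (c (a (nat_lit 0x1ec2004002)) e
 (c (a (nat_lit 0x100000001)) e e))))))))
 (c (a (nat_lit 0x404041))
 (c (a (nat_lit 0x1474954025)) e
 (c (a (nat_lit 0x14b4e24007)) e
 (c (a (nat_lit 0x1810e06347)) e
 (c (a (nat_lit 0x10314c0a27)) e
 (c (a (nat_lit 0x3f604024)) e
 (c (a (nat_lit 0xa1a00001)) e e))))))
 (c (a (nat_lit 0x404061))
 (c (a (nat_lit 0x1044a02027)) e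
 (c (a (nat_lit 0x1f80202027)) e
 (c (a (nat_lit 0x10e0202027)) e
 (c (a (nat_lit 0x3f602004)) e
 (c (nat_lit 1) e e)))))
 (c (a (nat_lit 0x202041))
 (c (a (nat_lit 0x20203026)) e
 (c (a (nat_lit 0x2031f6a8)) e
 (c (a (nat_lit 0x33c00007)) e e)))
 (c (a (nat_lit 0x204021))
 (c (a (nat_lit 0x3fe0006)) e
 (c (a (nat_lit 0x60000001)) e e))
 (c (a (nat_lit 0x4041)) e
 (c (a (nat_lit 0x4081)) e
 (c (a (nat_lit 0x208001)) e
 (c (a (nat_lit 0x80e1)) e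
 (c (a (nat_lit 0x4041)) e
 (c (a (nat_lit 0x202041)) e
 (c (a (nat_lit 0x406041)) e
 (c (a (nat_lit 0x206001)) e
 (c (a (nat_lit 0xa04001)) e
 (c (a (nat_lit 0x802001)) e
 (c (a (nat_lit 0xc06041)) e
 (c (a (nat_lit 0xa00001)) e e))))))))))))))))))))))) Tr.c Tr.e (nat_lit 0) C.cx C.cy
noncomputable def C18 : Tr := beta% (fun (c : Nat → Tr → Tr → Tr) (e : Tr) (a b : Nat → Nat) =>
 (c (a (nat_lit 0x202021))
 (c (a (nat_lit 0x1c60a4))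
 (c (a (nat_lit 0xcccdc7707c4))
 (c (a (nat_lit 0x768a3930503e5)) e
 (c (a (nat_lit 0x12b0d6d547e987)) e
 (c (a (nat_lit 0x18bad3f54ed0c7)) e
 (c (a (nat_lit 0x1166486b86e828)) e
 (c (a (nat_lit 0x16e95238164da6)) e
 (c (a (nat_lit 0x529b40ca00006)) e e))))))
 (c (a (nat_lit 0xd95b4eec1a7))
 (c (a (nat_lit 0x17733c0da6c8a8)) e
 (c (a (nat_lit 0x12ef122f886c49)) e
 (c (a (nat_lit 0xbed52af89ac49)) e
 (c (a (nat_lit 0x447f0f1a58008)) e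
 (c (b (nat_lit 0x1ff52f80000007)) e e)))))
 (c (a (nat_lit 0xed8b940a007))
 (c (a (nat_lit 0xff10cad2b6e48)) e
 (c (a (nat_lit 0x1819b57d77b308)) e
 (c (a (nat_lit 0xbadd50ca00008)) e e)))
 (c (a (nat_lit 0x1598b900c0c7))
 (c (a (nat_lit 0x1c4e72330bc007)) e
 (c (b (nat_lit 0x1ff5d5e0000005)) e e))
 (c (a (nat_lit 0x1251d6004466))
 (c (a (nat_lit 0x1a09c000000004)) e e)
 (c (a (nat_lit 0xcccd12ec046)) e
 (c (a (nat_lit 0xaeaf75200a5)) e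
 (c (a (nat_lit 0x44470a6c545)) e
 (c (a (nat_lit 0x77218d004)) e
 (c (a (nat_lit 0x40d2cac026)) e
 (c (a (nat_lit 0x262b8178727)) e
 (c (a (nat_lit 0x17fc400005)) e
 (c (a (nat_lit 0x19a000000004)) e e)))))))))))))
 (c (a (nat_lit 0xfdec02025))
 (c (a (nat_lit 0x4d60d6d6d68))
 (c (a (nat_lit 0xc91eee040e6e8)) e
 (c (a (nat_lit 0xe6ff08024ada9)) e
 (c (a (nat_lit 0xf361ba3295148)) e
 (c (b (nat_lit 0x1fe9b1a0200008)) e
 (c (a (nat_lit 0x34a000000006)) e e)))))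
 (c (a (nat_lit 0xfd14e2e2e09))
 (c (a (nat_lit 0x10e503a0264e29)) e
 (c (a (nat_lit 0x17cbf1eb76a008)) e
 (c (b (nat_lit 0x1ff0d940000006)) e e)))
 (c (a (nat_lit 0xd70ec8c8c89))
 (c (a (nat_lit 0xae8358dc00007)) e e)
 (c (a (nat_lit 0x11f912929287)) e
 (c (a (nat_lit 0x121df635f5c6)) e
 (c (a (nat_lit 0x2728807e806)) e
 (c (a (nat_lit 0x7414199c7)) e
 (c (a (nat_lit 0xa560788007)) e
 (c (a (nat_lit 0xd3dd820c8)) e
 (c (a (nat_lit 0x2f16694009)) e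
 (c (a (nat_lit 0x15b0a0000008)) e e)))))))))))
 (c (a (nat_lit 0x808a01))
 (c (a (nat_lit 0x3b6f63632e7))
 (c (a (nat_lit 0x11cb20e029a547)) e
 (c (a (nat_lit 0x1cdb6225a00007)) e
 (c (a (nat_lit 0x115bc000000006)) e e)))
 (c (a (nat_lit 0xb9191918fc8))
 (c (a (nat_lit 0x11ce00a0000008)) e e)
 (c (a (nat_lit 0x1053d3d3d047)) e
 (c (a (nat_lit 0x1f7e1df74c26)) e
 (c (a (nat_lit 0x5e3218035e8)) e
 (c (a (nat_lit 0x3a18033c008)) e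
 (c (a (nat_lit 0x5236ef0b189)) e
 (c (a (nat_lit 0x31112b667e9)) e e))))))))
 (c (a (nat_lit 0x517616121))
 (c (b (nat_lit 0x1ffc9c9c9c86))
 (c (a (nat_lit 0x19002000000007)) e e)
 (c (b (nat_lit 0x1fe08080b184)) e
 (c (a (nat_lit 0x2020203508)) e
 (c (b (nat_lit 0x1fe020b26008)) e
 (c (a (nat_lit 0x4656fcbb0e9)) e
 (c (a (nat_lit 0x2c0850c309)) e e))))))
 (c (a (nat_lit 0x1b60802002))
 (c (a (nat_lit 0x2020835746)) e
 (c (a (nat_lit 0x20bb4087)) e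
 (c (a (nat_lit 0x2187617069)) e
 (c (a (nat_lit 0x8e241d1128)) e
 (c (a (nat_lit 0x28170692009)) e e)))))
 (c (a (nat_lit 0xa0802001))
 (c (a (nat_lit 0x1e03e4466e6)) e
 (c (a (nat_lit 0xb596667c027)) e
 (c (a (nat_lit 0x15052a82c747)) e
 (c (a (nat_lit 0xb502a0a2006)) e
 (c (a (nat_lit 0x1582a0000007)) e e)))))
 (c (a (nat_lit 0x202001))
 (c (a (nat_lit 0x122967202446)) e
 (c (a (nat_lit 0x1624a1b19445)) e
 (c (a (nat_lit 0x1360a3800004)) e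
 (c (a (nat_lit 0x156000000003)) e e))))
 (c (a (nat_lit 0x604001))
 (c (a (nat_lit 0xca563702004)) e
 (c (a (nat_lit 0x190460000004)) e e))
 (c (a (nat_lit 0xc0a04001))
 (c (a (nat_lit 0x10e000000003)) e e)
 (c (a (nat_lit 0xa0402001)) e
 (c (a (nat_lit 0x203b7c45)) e
 (c (a (nat_lit 0x2c6cf5e6)) e
 (c (a (nat_lit 0xc7c4027a5)) e
 (c (a (nat_lit 0x18002029c4)) e
 (c (a (nat_lit 0x2020c001)) e
 (c (a (nat_lit 0x10c0406001)) e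
 (c (a (nat_lit 0x20202061)) e
 (c (a (nat_lit 0x200001)) e e))))))))))))))))))
 (c (a (nat_lit 0x202021))
 (c (a (nat_lit 0x120805302))
 (c (a (nat_lit 0x3bcbc1c1b86))
 (c (a (nat_lit 0x1043416105a907)) e
 (c (a (nat_lit 0x18a520e9f87b47)) e
 (c (a (nat_lit 0x1981c5151ea005)) e
 (c (a (nat_lit 0x1a19e4c0000006)) e
 (c (a (nat_lit 0x10800000000006)) e e)))))
 (c (a (nat_lit 0x73979595888))
 (c (a (nat_lit 0x60060e9d1aa88)) e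
 (c (a (nat_lit 0xa12673400007)) e
 (c (a (nat_lit 0x1fa000000001)) e e)))
 (c (a (nat_lit 0x31d1f1f1e8))
 (c (a (nat_lit 0x64070a0000005)) e e)
 (c (a (nat_lit 0x91f5f5f3f27)) e
 (c (a (nat_lit 0x979b9b93727)) e
 (c (a (nat_lit 0x347a7a773e8)) e
 (c (a (nat_lit 0x747c792e028)) e
 (c (a (nat_lit 0x5a5b0f12089)) e
 (c (a (nat_lit 0xd75d1eb26a9)) e
 (c (a (nat_lit 0x7d14ba00009)) e
 (c (a (nat_lit 0x16c000000008)) e e)))))))))))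
 (c (a (nat_lit 0x30967683))
 (c (a (nat_lit 0xbd736d6d508))
 (c (a (nat_lit 0x8a12695aaa007)) e
 (c (a (nat_lit 0x1140ee80000007)) e
 (c (a (nat_lit 0x200000000001)) e e)))
 (c (a (nat_lit 0x5f333333249))
 (c (a (nat_lit 0x19c84000000006)) e e)
 (c (a (nat_lit 0x8d8181654e8)) e
 (c (a (nat_lit 0x347c705b749)) e
 (c (a (nat_lit 0x42706362b09)) e
 (c (a (nat_lit 0x2c453e7680a)) e
 (c (a (nat_lit 0x6b1cf47474a)) e
 (c (a (nat_lit 0x8eff627e00a)) e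
 (c (a (nat_lit 0x1f1360000009)) e e)))))))))
 (c (a (nat_lit 0x741402001))
 (c (a (nat_lit 0x7f2d2d2d2a8)) e
 (c (a (nat_lit 0x44808083749)) e
 (c (a (nat_lit 0x528e877e049)) e
 (c (a (nat_lit 0x467340a51aa)) e
 (c (a (nat_lit 0x751ea122aca)) e e)))))
 (c (a (nat_lit 0xa0806081))
 (c (a (nat_lit 0x383c49d0dc7)) e
 (c (a (nat_lit 0x6a99a4eb0e9)) e
 (c (a (nat_lit 0x9f8ce16c929)) e e)))
 (c (a (nat_lit 0x60404021))
 (c (a (nat_lit 0xdf90a666808)) e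
 (c (a (nat_lit 0x160368e2e069)) e
 (c (b (nat_lit 0x1ffe6be64047)) e
 (c (a (nat_lit 0x133245400007)) e e))))
 (c (a (nat_lit 0x406001))
 (c (a (nat_lit 0x15f7ad241265)) e
 (c (a (nat_lit 0x17416346c006)) e
 (c (a (nat_lit 0x1d2dc0000003)) e e)))
 (c (a (nat_lit 0xa06081))
 (c (a (nat_lit 0x17374c400004)) e
 (c (a (nat_lit 0x10e000000004)) e e))
 (c (a (nat_lit 0x602101)) e
 (c (a (nat_lit 0x2c7ba6)) e
 (c (a (nat_lit 0x276e5468)) e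
 (c (a (nat_lit 0x34c121049)) e
 (c (a (nat_lit 0x3b4a02028)) e
 (c (a (nat_lit 0xa1608021)) e
 (c (a (nat_lit 0x80c122e1)) e
 (c (a (nat_lit 0xa1a2a1)) e
 (c (a (nat_lit 0x100a001)) e
 (c (a (nat_lit 0x40000001)) e e)))))))))))))))))
 C17))) Tr.c Tr.e C.cx C.cy
noncomputable def C19 : Tr := beta% (fun (c : Nat → Tr → Tr → Tr) (e : Tr) (z : Nat) (a b : Nat → Nat) =>
 (c (nat_lit 1)
 (c (a (nat_lit 0x7978e1))
 (c (a (nat_lit 0x1935d5d5d5c6))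
 (c (a (nat_lit 0x13ca4a4f470006)) e
 (c (a (nat_lit 0x15f27340000005)) e e))
 (c (a (nat_lit 0x133191112fa7)) e
 (c (a (nat_lit 0x7e848a77687)) e
 (c (a (nat_lit 0x948a73898a7)) e
 (c (a (nat_lit 0xb6ad2f35728)) e
 (c (a (nat_lit 0xb1313034328)) e
 (c (a (nat_lit 0xfd0d7c084a8)) e
 (c (a (nat_lit 0xefcf3a6e008)) e
 (c (a (nat_lit 0x1fab20000008)) e e)))))))))
 (c (a (nat_lit 0x100a061))
 (c (a (nat_lit 0x11b1b14fdca7)) e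
 (c (a (nat_lit 0xdce2cde1f48)) e
 (c (a (nat_lit 0x7a6f5154609)) e
 (c (a (nat_lit 0xb12b34d2d09)) e
 (c z e
 (c (a (nat_lit 0x1cdcad2a85a8)) e
 (c (a (nat_lit 0x1229a5200009)) e e)))))))
 (c (a (nat_lit 0x404061))
 (c (a (nat_lit 0xfaefadc5a07)) e
 (c (a (nat_lit 0x76d0d669309)) e
 (c z e
 (c (a (nat_lit 0x124f46ea8008)) e
 (c (a (nat_lit 0x164d0dc0c008)) e
 (c (a (nat_lit 0x1a0d40000008)) e e))))))
 (c (a (nat_lit 0x602041))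
 (c (b (nat_lit 0x16d6fffc5167)) e
 (c (a (nat_lit 0x114d14a7a048)) e
 (c (a (nat_lit 0x2b3e6c6c028)) e
 (c (a (nat_lit 0x125cca400007)) e
 (c (a (nat_lit 0x1ca000000007)) e e)))))
 (c (a (nat_lit 0x200001))
 (c (a (nat_lit 0x17aec3626247)) e
 (c (a (nat_lit 0x10804681e007)) e
 (c (a (nat_lit 0x1ad5e0000005)) e e)))
 (c (a (nat_lit 0x2000c1))
 (c (a (nat_lit 0x2bc5800001)) e
 (c (a (nat_lit 0x1da000000002)) e e))
 (c (a (nat_lit 0x2001)) e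
 (c (a (nat_lit 0x203a1bc5)) e
 (c (a (nat_lit 0xecf3e07)) e
 (c (a (nat_lit 0xf93973688)) e
 (c (a (nat_lit 0x135ad970c7)) e
 (c (a (nat_lit 0x1ab970c867)) e
 (c (a (nat_lit 0x806021)) e
 (c (a (nat_lit 0x1b60204064)) e
 (c (a (nat_lit 0x80606001)) e
 (c (a (nat_lit 0x20000001)) e e))))))))))))))))
 (c (a (nat_lit 0x202021))
 (c (a (nat_lit 0xa0604001))
 (c (a (nat_lit 0xc8c8bba1b26)) e
 (c (a (nat_lit 0xb6af31412c8)) e
 (c (a (nat_lit 0xad2b383d008)) e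
 (c (b (nat_lit 0xf90c3493fe8)) e
 (c (a (nat_lit 0xe90cd4021c8)) e
 (c (a (nat_lit 0x138daac50008)) e
 (c (a (nat_lit 0x1085c0000008)) e e)))))))
 (c (a (nat_lit 0x80602001))
 (c (a (nat_lit 0xf9a5cb1f6e7)) e
 (c z e
 (c (b (nat_lit 0x14bffbe78028)) e
 (c (a (nat_lit 0x19ba4d43c128)) e
 (c (a (nat_lit 0x187205600008)) e
 (c (a (nat_lit 0x10c000000008)) e e))))))
 (c (a (nat_lit 0x40200061))
 (c (b (nat_lit 0x125ff8974767)) e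
 (c (a (nat_lit 0x99ba94661a8)) e
 (c (a (nat_lit 0x184308a1c008)) e
 (c (a (nat_lit 0x16c880000007)) e e))))
 (c (a (nat_lit 0x40408141))
 (c (a (nat_lit 0x1ca6d17c4025)) e
 (c (a (nat_lit 0xc863d400004)) e
 (c (a (nat_lit 0x134000000005)) e e)))
 (c (a (nat_lit 0x20a161))
 (c (a (nat_lit 0xd340000002)) e e)
 (c (a (nat_lit 0xe3546)) e
 (c (a (nat_lit 0x3858b8a7)) e
 (c z e
 (c (a (nat_lit 0x11111351a8)) e
 (c (a (nat_lit 0x1357d871e7)) e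
 (c (a (nat_lit 0x161750e8c7)) e
 (c (a (nat_lit 0x1980202025)) e
 (c (a (nat_lit 0x1b00202024)) e
 (c (a (nat_lit 0x160600001)) e e))))))))))))))
 (c (nat_lit 1)
 (c (a (nat_lit 0x20202001))
 (c (a (nat_lit 0xe51404db645)) e
 (c (a (nat_lit 0xb223a7b03a7)) e
 (c (a (nat_lit 0x299f0a2e147)) e
 (c (a (nat_lit 0x19b4a7246007)) e
 (c (a (nat_lit 0x1322c0000007)) e e)))))
 (c (a (nat_lit 0x602001))
 (c (a (nat_lit 0x3394842028)) e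
 (c (a (nat_lit 0x14cba3c1e129)) e
 (c (a (nat_lit 0x19c3a2000008)) e
 (c (a (nat_lit 0x188000000005)) e e))))
 (c (a (nat_lit 0x402001))
 (c (a (nat_lit 0x1d704c46e006)) e
 (c (a (nat_lit 0x10dda0000005)) e e))
 (c (a (nat_lit 0x235364))
 (c (a (nat_lit 0x13c000000005)) e e)
 (c (a (nat_lit 0x1a7b7b66)) e
 (c (a (nat_lit 0x1c9dfdf987)) e
 (c z e
 (c (a (nat_lit 0x88fcfde44)) e
 (c (a (nat_lit 0xf6fb36f26)) e
 (c (a (nat_lit 0xcd0676786)) e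
 (c (a (nat_lit 0x1e80204003)) e
 (c (a (nat_lit 0x8e120a001)) e
 (c (a (nat_lit 0xa0000001)) e e)))))))))))))
 (c (nat_lit 1)
 (c (a (nat_lit 0x60604021))
 (c (a (nat_lit 0x10126441a027)) e
 (c (a (nat_lit 0x12268481e008)) e
 (c (a (nat_lit 0x158860000006)) e e)))
 (c (a (nat_lit 0x40403142))
 (c (a (nat_lit 0x1d7e8a200006)) e
 (c (a (nat_lit 0x10c000000007)) e e))
 (c (a (nat_lit 0x18f9f9e6)) e
 (c (a (nat_lit 0x1091111107)) e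
 (c (a (nat_lit 0x1e9e9e9c47)) e
 (c (a (nat_lit 0x1232328c07)) e
 (c (a (nat_lit 0x12ae4e51c6)) e
 (c (a (nat_lit 0x768ec5286)) e
 (c (a (nat_lit 0x113810cb45)) e
 (c (a (nat_lit 0x3a0606001)) e
 (c (a (nat_lit 0x1aa0200004)) e e)))))))))))
 (c (a (nat_lit 0x202021))
 (c (a (nat_lit 0x4f4351505))
 (c (a (nat_lit 0x1c66c0000005)) e e)
 (c (a (nat_lit 0x1272f2f2e7)) e
 (c (a (nat_lit 0x1191924627)) e
 (c (a (nat_lit 0x1090908887)) e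
 (c (a (nat_lit 0x13f3f1b186)) e
 (c (a (nat_lit 0x16f0d118a6)) e
 (c (a (nat_lit 0x909387885)) e
 (c (a (nat_lit 0x312488365)) e
 (c (a (nat_lit 0x1080202003)) e
 (c (a (nat_lit 0x1460000003)) e e))))))))))
 (c (a (nat_lit 0x200001))
 (c (a (nat_lit 0x19f9f9e826)) e
 (c (a (nat_lit 0x1878989885)) e
 (c (a (nat_lit 0x1212320c46)) e
 (c (a (nat_lit 0x13334d8d86)) e
 (c (a (nat_lit 0x150f6f7ae6)) e
 (c (a (nat_lit 0x360e85)) e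
 (c (a (nat_lit 0x36602825)) e
 (c (a (nat_lit 0x1fe0400004)) e e))))))))
 (c (a (nat_lit 0x202021))
 (c (a (nat_lit 0x1454547564)) e
 (c (a (nat_lit 0x12f2f32166)) e
 (c (a (nat_lit 0x16366fa426)) e
 (c (a (nat_lit 0x1750b294e6)) e
 (c (a (nat_lit 0x143ba02024)) e
 (c (a (nat_lit 0x2140e001)) e
 (c (a (nat_lit 0x40000001)) e e)))))))
 (c (a (nat_lit 0x21))
 (c (a (nat_lit 0x1efee8c005)) e
 (c (a (nat_lit 0x10eb426007)) e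
 (c (a (nat_lit 0x12ab403c06)) e
 (c (a (nat_lit 0x203a6926)) e
 (c (a (nat_lit 0x31800006)) e e)))))
 (c (nat_lit 1)
 (c (a (nat_lit 0x11c0202026)) e
 (c (a (nat_lit 0x13c0203dc6)) e
 (c (a (nat_lit 0x2033a006)) e
 (c (a (nat_lit 0x20000001)) e e))))
 (c (a (nat_lit 0x202021))
 (c (a (nat_lit 0x40602001)) e
 (c (a (nat_lit 0x40400001)) e e))
 (c (a (nat_lit 0x202001))
 (c (a (nat_lit 0x20000001)) e e)
 (c (a (nat_lit 0x602001)) e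
 (c (a (nat_lit 0x202001)) e
 (c (a (nat_lit 0x2001)) e
 (c (a (nat_lit 0xc00001)) e
 (c (a (nat_lit 0x2041)) e
 (c (a (nat_lit 0x41)) e
 (c (a (nat_lit 0x2061)) e
 (c (a (nat_lit 0x2061)) e
 (c (a (nat_lit 0x21)) e
 (c (nat_lit 1) e
 (c (nat_lit 1) e e))))))))))))))))))))))) Tr.c Tr.e (nat_lit 0) C.cx C.cy
noncomputable def C20 : Tr := beta% (fun (c : Nat → Tr → Tr → Tr) (e : Tr) (a b : Nat → Nat) =>
 (c (a (nat_lit 0x202021))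
 (c (a (nat_lit 0x20203686))
 (c (a (nat_lit 0x1e9e9e9e0044))
 (c (a (nat_lit 0x2e38608948686))
 (c (a (nat_lit 0x1e5911e200000006)) e
 (c (a (nat_lit 0x1fef400000000008)) e e))
 (c (a (nat_lit 0xb2f3092f34788))
 (c (a (nat_lit 0x15a0000000000008)) e e)
 (c (a (nat_lit 0xeb1b1adaae829)) e
 (c (a (nat_lit 0xfb2cc4f30ac49)) e
 (c (a (nat_lit 0x18b44c0d4fad28)) e
 (c (a (nat_lit 0xad1535b368006)) e
 (c (a (nat_lit 0xab10d40000006)) e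
 (c (a (nat_lit 0x15c00000000004)) e e))))))))
 (c (a (nat_lit 0xd8d9533a007))
 (c (a (nat_lit 0x10b0781a32c9e9)) e
 (c (a (nat_lit 0x1593f4902f690a)) e
 (c (a (nat_lit 0x178e9052b249ea)) e
 (c (a (nat_lit 0x14cb2c52d3a3e9)) e
 (c (a (nat_lit 0x8505ab1600008)) e e)))))
 (c (a (nat_lit 0x167a1b3a8028))
 (c (a (nat_lit 0xed32f4cf1ab29)) e
 (c (a (nat_lit 0xd4d2e6f510d8a)) e e))
 (c (a (nat_lit 0x1a7a7c9be108))
 (c (a (nat_lit 0xf716deeaf2789)) e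
 (c (a (nat_lit 0x1c10744b800008)) e e))
 (c (a (nat_lit 0x16975616e007))
 (c (a (nat_lit 0x12524520000006)) e e)
 (c (a (nat_lit 0x1213ca0c2)) e
 (c (a (nat_lit 0x98040742004)) e
 (c (a (nat_lit 0x52020322104)) e
 (c (a (nat_lit 0x2c05674c123)) e
 (c (a (nat_lit 0x3e020f54026)) e
 (c (a (nat_lit 0x1602394cd27)) e
 (c (a (nat_lit 0x19605b112004)) e
 (c (a (nat_lit 0x6880000001)) e e)))))))))))))
 (c (a (nat_lit 0x168047))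
 (c (a (nat_lit 0x9cf706ae029))
 (c (a (nat_lit 0xdcd712fe726c9)) e
 (c (a (nat_lit 0xe4fb0eec3e58a)) e
 (c (a (nat_lit 0x14b25419a565a9)) e
 (c (a (nat_lit 0xae7afd4206009)) e
 (c (a (nat_lit 0xbbaf300000008)) e e)))))
 (c (a (nat_lit 0xb7f38ea8869))
 (c (a (nat_lit 0x13361ce980a909)) e
 (c (a (nat_lit 0xfacd107c3e76a)) e
 (c (a (nat_lit 0x7b4df42a00008)) e e)))
 (c (a (nat_lit 0xfd292c4e449))
 (c (a (nat_lit 0x1ef925a2472008)) e e)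
 (c (a (nat_lit 0x1b7b7fe809e7)) e
 (c (a (nat_lit 0xe6e73542007)) e
 (c (a (nat_lit 0xc6c9bb6a4c6)) e
 (c (a (nat_lit 0x202e8f52a6)) e
 (c (a (nat_lit 0x2286501aa7)) e
 (c (a (nat_lit 0x6034f62328)) e
 (c (a (nat_lit 0x23902fe129)) e
 (c (a (nat_lit 0x2432400008)) e
 (c (a (nat_lit 0x8000000001)) e e))))))))))))
 (c (a (nat_lit 0xe90707068))
 (c (a (nat_lit 0x11518c6c6c69))
 (c (a (nat_lit 0xd11d6e3834b08)) e
 (c (a (nat_lit 0xc335020220009)) e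
 (c (a (nat_lit 0x1027c7c0000008)) e e)))
 (c (a (nat_lit 0x15d68fefee49))
 (c (a (nat_lit 0x1c7a7360200008)) e e)
 (c (a (nat_lit 0x17bc73131128)) e
 (c (a (nat_lit 0x19ded77773a7)) e
 (c (a (nat_lit 0x173eb4f25867)) e
 (c (a (nat_lit 0x366e32596a8)) e
 (c (a (nat_lit 0xe1e4b7be08)) e
 (c (a (nat_lit 0x3cdd49a3389)) e e))))))))
 (c (a (nat_lit 0x1030302c27))
 (c (a (nat_lit 0x1bd595957227))
 (c (a (nat_lit 0xad28020000008)) e e)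
 (c (a (nat_lit 0x1ed6163450c6)) e
 (c (a (nat_lit 0x130e0e0d1186)) e
 (c (a (nat_lit 0x66222a89b48)) e
 (c (a (nat_lit 0x682aafabde8)) e e)))))
 (c (a (nat_lit 0x1d5d5b7b46))
 (c (a (nat_lit 0x3072965f685)) e
 (c (a (nat_lit 0x20201049ba7)) e
 (c (a (nat_lit 0x14184fa6007)) e
 (c (a (nat_lit 0x1c658079ba7)) e
 (c (b (nat_lit 0x1fee659018a8)) e e)))))
 (c (a (nat_lit 0x1c00604022))
 (c (a (nat_lit 0xe020582806)) e
 (c (a (nat_lit 0x24ef3e12005)) e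
 (c (a (nat_lit 0x4b60441666)) e
 (c (a (nat_lit 0xbab2b544707)) e
 (c (a (nat_lit 0x109c6de00007)) e e)))))
 (c (a (nat_lit 0x402021))
 (c (a (nat_lit 0x183e2306c4)) e
 (c (a (nat_lit 0x105a80a27465)) e
 (c (a (nat_lit 0x1864634b0005)) e
 (c (a (nat_lit 0x15e2a0000006)) e e))))
 (c (a (nat_lit 0xa0c0e1))
 (c (a (nat_lit 0x1641c1199883)) e
 (c (a (nat_lit 0x1d84c0c00003)) e
 (c (a (nat_lit 0x1ac000000003)) e e)))
 (c (a (nat_lit 0x60204021))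
 (c (a (nat_lit 0x1c0040000003)) e e)
 (c (a (nat_lit 0x406001)) e
 (c (a (nat_lit 0xe0604001)) e
 (c (a (nat_lit 0xc08060e1)) e
 (c (a (nat_lit 0x1313002005)) e
 (c (a (nat_lit 0x2031a4)) e
 (c (a (nat_lit 0xa060a001)) e
 (c (a (nat_lit 0x60a001)) e
 (c (a (nat_lit 0xc020e1)) e
 (c (a (nat_lit 0x2001)) e
 (c (a (nat_lit 0x20000001)) e e)))))))))))))))))))
 (c (a (nat_lit 0x202001))
 (c (a (nat_lit 0x43121e1e7))
 (c (a (nat_lit 0x1bcf8987866))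
 (c (a (nat_lit 0xeb8b71490d146)) e
 (c (a (nat_lit 0xaae1106266988)) e
 (c (a (nat_lit 0x13b55b29888a67)) e
 (c (a (nat_lit 0x810d0e0a00007)) e
 (c (a (nat_lit 0x15928000000006)) e e)))))
 (c (a (nat_lit 0xeddfc1c1a07))
 (c (a (nat_lit 0xc530260272ee8)) e
 (c (a (nat_lit 0x18d66aeb2de008)) e
 (c (a (nat_lit 0xb7361c0000007)) e e)))
 (c (a (nat_lit 0x9f7f6d67667))
 (c (a (nat_lit 0x1d6a4126e00007)) e e)
 (c (b (nat_lit 0x1ffc5e7e7e66)) e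
 (c (a (nat_lit 0xcef107070e7)) e
 (c (a (nat_lit 0xb6e8f707da7)) e
 (c (a (nat_lit 0x7e96b914de8)) e
 (c (a (nat_lit 0x9eaf310b5e8)) e
 (c (a (nat_lit 0x8b7962e4028)) e
 (c (a (nat_lit 0x66851468009)) e
 (c (a (nat_lit 0x110dc0000008)) e e)))))))))))
 (c (a (nat_lit 0x1d9d7d65a4))
 (c (a (nat_lit 0xa76f6f6f367))
 (c (a (nat_lit 0x194aa1489368c7)) e
 (c (a (nat_lit 0x10a08769e00008)) e
 (c (a (nat_lit 0x1eb38000000002)) e e)))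
 (c (a (nat_lit 0x129b5b1ad928))
 (c (a (nat_lit 0x1fba7780000006)) e e)
 (c (a (nat_lit 0x490b0504f48)) e
 (c (a (nat_lit 0x892928f648)) e
 (c (a (nat_lit 0x2e888d795c8)) e
 (c (a (nat_lit 0xaac9513caa9)) e
 (c (a (nat_lit 0xa52d26fa249)) e
 (c (a (nat_lit 0x11b16dc7c089)) e
 (c (a (nat_lit 0xa312b800009)) e e)))))))))
 (c (b (nat_lit 0x1ff06100a3))
 (c (b (nat_lit 0x1ff61615d507))
 (c (a (nat_lit 0x14b34000000004)) e e)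
 (c (b (nat_lit 0x1fe868c83428)) e
 (c (a (nat_lit 0x28a8177568)) e
 (c (a (nat_lit 0x8ac5493d109)) e
 (c (a (nat_lit 0x79291d297c9)) e e)))))
 (c (a (nat_lit 0x11e0602023))
 (c (b (nat_lit 0x1fe020763406)) e
 (c (a (nat_lit 0x82f79b7ea88)) e
 (c (a (nat_lit 0x36c8c059529)) e e)))
 (c (a (nat_lit 0xa0804061))
 (c (a (nat_lit 0x2b8d6696967)) e
 (c (b (nat_lit 0x932ffeae468)) e
 (c (b (nat_lit 0x1ffffcc94267)) e
 (c (a (nat_lit 0xb83302c007)) e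
 (c (a (nat_lit 0x12e900000008)) e e)))))
 (c (a (nat_lit 0x606060a1))
 (c (a (nat_lit 0x1f66378021a6)) e
 (c (a (nat_lit 0x1ff460af8b65)) e
 (c (a (nat_lit 0x1c8106c00005)) e
 (c (a (nat_lit 0x188000000005)) e e))))
 (c (a (nat_lit 0x40a121))
 (c (a (nat_lit 0x1dc2a10e4003)) e
 (c (a (nat_lit 0x12a5a0000002)) e e))
 (c (a (nat_lit 0x406101))
 (c (a (nat_lit 0x104000000003)) e e)
 (c (a (nat_lit 0x2040c1)) e
 (c (a (nat_lit 0x202dd567)) e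
 (c (a (nat_lit 0x2651b108)) e
 (c (a (nat_lit 0x15533e847)) e
 (c (a (nat_lit 0x18e02007)) e
 (c (a (nat_lit 0x80e04041)) e
 (c (a (nat_lit 0x2004142a1)) e
 (c (a (nat_lit 0x404001)) e
 (c (a (nat_lit 0xa00001)) e e)))))))))))))))))
 C19))) Tr.c Tr.e C.cx C.cy
noncomputable def C21 : Tr := beta% (fun (c : Nat → Tr → Tr → Tr) (e : Tr) (z : Nat) (a b : Nat → Nat) =>
 (c (a (nat_lit 0x202001))
 (c (a (nat_lit 0x72747474741))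
 (c z e
 (c z
 (c (a (nat_lit 0x116b737b7a302a26)) e
 (c (a (nat_lit 0x6e98a91e5600008)) e e))
 (c (a (nat_lit 0x20e7350c5dc4)) e
 (c (a (nat_lit 0x1032beaf26605)) e
 (c (a (nat_lit 0x42c4c90430a05)) e
 (c (a (nat_lit 0xf2fe16a765164)) e e))))))
 (c (a (nat_lit 0xf6f8f6f2f01))
 (c (a (nat_lit 0x6521e4f345))
 (c (a (nat_lit 0x8d0bd970b430007)) e
 (c (a (nat_lit 0xb1153a9c0000009)) e e))
 (c (a (nat_lit 0x44e83736f06))
 (c (a (nat_lit 0xcd446e000000009)) e e)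
 (c (a (nat_lit 0x6ed53dd5155e7)) e
 (c z e
 (c z e
 (c (a (nat_lit 0x8055ce84eae5)) e
 (c z e
 (c (a (nat_lit 0x97f51e0000004)) e
 (c (a (nat_lit 0x12200000000004)) e e)))))))))
 (c (a (nat_lit 0x119191b19b24))
 (c (a (nat_lit 0x6938e3a335306))
 (c (a (nat_lit 0x1043000000000007)) e e)
 (c (a (nat_lit 0x1331d3f0111228)) e
 (c z e
 (c (a (nat_lit 0x5700e2c0bcda7)) e
 (c (a (nat_lit 0x10d7714ccfeb66)) e
 (c z e
 (c (a (nat_lit 0x154b6000000005)) e e)))))))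
 (c (a (nat_lit 0x143434141724))
 (c (a (nat_lit 0xf12d2ecee0dc7)) e
 (c (a (nat_lit 0x106e2d8d89eca8)) e
 (c (a (nat_lit 0x181ad0ee51d3a6)) e
 (c (a (nat_lit 0x188ec70aa6e006)) e
 (c (a (nat_lit 0x1c580f60000005)) e
 (c (a (nat_lit 0x15200000000004)) e e))))))
 (c (a (nat_lit 0x103132b2b426))
 (c (a (nat_lit 0xb1054e88c9346)) e
 (c (a (nat_lit 0x13cde5e8b40426)) e
 (c (a (nat_lit 0x1386ed2b800006)) e e)))
 (c (a (nat_lit 0x149494959085))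
 (c z e
 (c (a (nat_lit 0x17bb34a0000005)) e e))
 (c (a (nat_lit 0x108dcdeeef05))
 (c (a (nat_lit 0x1a4d4000000004)) e e)
 (c (a (nat_lit 0x2c525204001)) e
 (c (a (nat_lit 0x101032385c1)) e
 (c (a (nat_lit 0x1c4267f81)) e
 (c (a (nat_lit 0x1dbce3c04e82)) e
 (c (a (nat_lit 0x14d5466f1543)) e
 (c (a (nat_lit 0xc2db0cdc984)) e
 (c (a (nat_lit 0x2c50c02002)) e
 (c (a (nat_lit 0x1970a0000002)) e e)))))))))))))))
 (c (a (nat_lit 0x20202021))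
 (c (a (nat_lit 0x113131b1b464))
 (c (a (nat_lit 0x21610020d4e6))
 (c (a (nat_lit 0xf9e56ee21a00007)) e
 (c (a (nat_lit 0x19978bc000000009)) e e))
 (c (a (nat_lit 0x15ed18b5df47))
 (c (a (nat_lit 0x11e6a0000000000a)) e e)
 (c z e
 (c z e
 (c z e
 (c (a (nat_lit 0xa5192ee12f326)) e
 (c (a (nat_lit 0xe36d9f0400006)) e
 (c (a (nat_lit 0x13cb6000000006)) e e))))))))
 (c (a (nat_lit 0xbababbc20c5))
 (c (a (nat_lit 0xfcd6feeb10fa9))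
 (c (a (nat_lit 0x15e0000000000007)) e e)
 (c z e
 (c z e
 (c z e
 (c (a (nat_lit 0x11f02d72cfa008)) e
 (c (a (nat_lit 0x1919f300000007)) e
 (c (a (nat_lit 0x11e00000000006)) e e)))))))
 (c (a (nat_lit 0xf0f0fb1d288)) e
 (c z e
 (c z e
 (c (a (nat_lit 0x8288cca5104)) e
 (c (a (nat_lit 0x4e500405144)) e
 (c (a (nat_lit 0x121802070a4)) e
 (c (a (nat_lit 0x40293024)) e
 (c (a (nat_lit 0x11844022bd65)) e
 (c (a (nat_lit 0xa2020a091e6)) e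
 (c (a (nat_lit 0x175388ec4005)) e
 (c (a (nat_lit 0x680c0e00001)) e
 (c (nat_lit 1) e e))))))))))))))
 (c (a (nat_lit 0x2025e1))
 (c (a (nat_lit 0xa6a79174006))
 (c (a (nat_lit 0x16ddfa7d3a9146)) e
 (c (a (nat_lit 0x1a719456360448)) e
 (c z e
 (c z e
 (c (a (nat_lit 0x17a0f174e00005)) e e)))))
 (c (a (nat_lit 0xbd3f5afa4a8))
 (c (a (nat_lit 0x12efb4f7c7c028)) e e)
 (c z e
 (c z e
 (c (a (nat_lit 0x98b2aac7386)) e
 (c (a (nat_lit 0x240404fb584)) e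
 (c (a (nat_lit 0x20241026)) e
 (c (a (nat_lit 0x2022243ce6)) e
 (c (a (nat_lit 0x14020370de7)) e
 (c (a (nat_lit 0xb6d93b47)) e
 (c (a (nat_lit 0x19dc76a006)) e
 (c (a (nat_lit 0x1eea00000006)) e e))))))))))))
 (c (a (nat_lit 0x226221))
 (c (a (nat_lit 0xdf150c84307))
 (c (a (nat_lit 0xb8ed09162a387)) e
 (c (a (nat_lit 0xacc906be0a468)) e e))
 (c (a (nat_lit 0x12f410edcdc8))
 (c (a (nat_lit 0x72b3124418008)) e
 (c (a (nat_lit 0x136e65e0000007)) e e))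
 (c (a (nat_lit 0xff0b2ce8326))
 (c (a (nat_lit 0x19462000000006)) e e)
 (c (a (nat_lit 0x1b0db23f0685)) e
 (c (a (nat_lit 0x2033356ac4)) e
 (c (a (nat_lit 0x24ad1926)) e
 (c (a (nat_lit 0x21c39fdb26)) e
 (c (a (nat_lit 0x1803a359ae7)) e
 (c (b (nat_lit 0x327110ffe7)) e e)))))))))
 (c (a (nat_lit 0x14fc7c7c66))
 (c (a (nat_lit 0x12b3ad4d4d47))
 (c (a (nat_lit 0xeffd880600005)) e
 (c (a (nat_lit 0x14a98000000007)) e e))
 (c (a (nat_lit 0x13cf0d2d29a7)) e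
 (c (a (nat_lit 0x110eed8dcde7)) e
 (c (a (nat_lit 0x9cf0a8d1566)) e
 (c (a (nat_lit 0x586cb12ef47)) e
 (c (a (nat_lit 0x4a50ccd1048)) e
 (c (a (nat_lit 0x47d5e39ec87)) e e)))))))
 (c (a (nat_lit 0x1292928a86))
 (c (a (nat_lit 0x144cacad0885)) e
 (c (a (nat_lit 0x1132b4b5bb86)) e
 (c (a (nat_lit 0x60609cd71c6)) e
 (c (b (nat_lit 0xbea2fd19fe6)) e
 (c (b (nat_lit 0x92e371ff586)) e
 (c (a (nat_lit 0x135521358967)) e e))))))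
 (c (a (nat_lit 0x19595817e5))
 (c (a (nat_lit 0x18d3d258f965)) e
 (c (a (nat_lit 0xf0f15186045)) e
 (c (a (nat_lit 0x10d593e09005)) e
 (c (a (nat_lit 0x82b44c8d2c7)) e
 (c (a (nat_lit 0x110fb3cec007)) e e)))))
 (c (a (nat_lit 0x1200804041))
 (c (a (nat_lit 0x84074e044c3)) e
 (c (a (nat_lit 0xcbcab8254a3)) e
 (c (a (nat_lit 0x18d023046524)) e
 (c (a (nat_lit 0x9f0cc000003)) e
 (c (a (nat_lit 0x2c000000001)) e e)))))
 (c (a (nat_lit 0xd0d2d2d61))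
 (c (a (nat_lit 0xbaec0677e83)) e
 (c (a (nat_lit 0x18a2e0cc0003)) e
 (c (a (nat_lit 0x44920000001)) e e)))
 (c (a (nat_lit 0x20604081))
 (c (a (nat_lit 0x12a060400002)) e
 (c (a (nat_lit 0x1b2000000002)) e e))
 (c (a (nat_lit 0x202041)) e
 (c (a (nat_lit 0x202001)) e
 (c (a (nat_lit 0x202021)) e
 (c (a (nat_lit 0x1919191903)) e
 (c (a (nat_lit 0x10d0a02024)) e
 (c (a (nat_lit 0xa0402021)) e
 (c (a (nat_lit 0x1be0840682)) e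
 (c (a (nat_lit 0x618441)) e
 (c (a (nat_lit 0x2220a1)) e
 (c (a (nat_lit 0x101a00001)) e e))))))))))))))))))))) Tr.c Tr.e (nat_lit 0) C.cx C.cy
noncomputable def C22 : Tr := beta% (fun (c : Nat → Tr → Tr → Tr) (e : Tr) (z : Nat) (a : Nat → Nat) =>
 (c (a (nat_lit 0x2021))
 (c (a (nat_lit 0x2001))
 (c (a (nat_lit 0x2222160c1))
 (c (a (nat_lit 0x10000000001)) e e)
 (c (a (nat_lit 0xa8a40b143)) e
 (c (a (nat_lit 0x20205007)) e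
 (c (a (nat_lit 0x202ef1e7)) e
 (c (a (nat_lit 0x9111e548)) e
 (c z e
 (c (a (nat_lit 0x19d92520c7)) e
 (c (a (nat_lit 0x18988c4005)) e
 (c (a (nat_lit 0x1880000004)) e e)))))))))
 (c (nat_lit 1)
 (c (a (nat_lit 0x4c02038c5)) e
 (c (a (nat_lit 0x3e02af407)) e
 (c (a (nat_lit 0x27b351a8)) e
 (c (a (nat_lit 0x153c9c9808)) e
 (c z e
 (c (a (nat_lit 0x1729e05548)) e
 (c (a (nat_lit 0x184c600006)) e e)))))))
 (c (a (nat_lit 0x1014001))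
 (c (a (nat_lit 0x34153c87)) e
 (c (a (nat_lit 0xfd7d9f6a8)) e
 (c (a (nat_lit 0x4f1ced0a9)) e
 (c z e
 (c (a (nat_lit 0x1f4d7a2008)) e
 (c (a (nat_lit 0x18e0000005)) e e))))))
 (c z
 (c (a (nat_lit 0xa73bb5b07)) e
 (c (a (nat_lit 0xb51735f49)) e
 (c z e
 (c (a (nat_lit 0x13dce00008)) e e))))
 (c (a (nat_lit 0x1e4045))
 (c (a (nat_lit 0xa0dd3d3c9)) e e)
 (c z e
 (c (a (nat_lit 0xe041)) e
 (c (a (nat_lit 0x602001)) e
 (c (a (nat_lit 0x802001)) e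
 (c (a (nat_lit 0xc04001)) e
 (c (a (nat_lit 0x604001)) e
 (c (a (nat_lit 0x804001)) e
 (c (a (nat_lit 0xe02001)) e
 (c (a (nat_lit 0x602001)) e
 (c (a (nat_lit 0x802001)) e
 (c (a (nat_lit 0xc04021)) e
 (c (a (nat_lit 0x400001)) e e)))))))))))))))))
 (c (a (nat_lit 0x2021))
 (c (a (nat_lit 0x11918021))
 (c (a (nat_lit 0x2a2a6f6e5)) e
 (c (a (nat_lit 0xc59fd87)) e
 (c (a (nat_lit 0x191ad8f68)) e
 (c (a (nat_lit 0xd726f7068)) e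
 (c (a (nat_lit 0x16188f1d08)) e
 (c (a (nat_lit 0x17c4da2007)) e
 (c (a (nat_lit 0x1a40000004)) e e)))))))
 (c z
 (c (a (nat_lit 0x470d49488)) e
 (c (a (nat_lit 0x1053552ec9)) e
 (c (a (nat_lit 0x1312341ee9)) e
 (c (a (nat_lit 0x90930282a)) e
 (c (a (nat_lit 0xe7d400008)) e e)))))
 (c z
 (c (a (nat_lit 0xb6f4f5a28)) e
 (c (a (nat_lit 0x92a302f6a)) e
 (c (a (nat_lit 0x95048200a)) e
 (c (a (nat_lit 0x1da0000008)) e e))))
 (c (a (nat_lit 0x11916001))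
 (c (a (nat_lit 0xc52524589)) e
 (c (a (nat_lit 0x12c960000a)) e e))
 (c (a (nat_lit 0xe001)) e
 (c (a (nat_lit 0x402001)) e
 (c (a (nat_lit 0xa06021)) e
 (c (a (nat_lit 0xa04001)) e
 (c (a (nat_lit 0x604001)) e
 (c (a (nat_lit 0x806001)) e
 (c (a (nat_lit 0x602001)) e
 (c (a (nat_lit 0x206001)) e
 (c (a (nat_lit 0x404001)) e
 (c (a (nat_lit 0x4021)) e
 (c (a (nat_lit 0x402001)) e e)))))))))))))))
 (c (a (nat_lit 0x2021))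
 (c (a (nat_lit 0x204001))
 (c (a (nat_lit 0xd71313127)) e
 (c (a (nat_lit 0x187a7a79a8)) e
 (c (a (nat_lit 0xa2b313089)) e
 (c (a (nat_lit 0xa7168c009)) e
 (c (a (nat_lit 0x1fe0000007)) e e)))))
 (c (a (nat_lit 0x7de2))
 (c (a (nat_lit 0x13b3dfb2c8)) e
 (c (a (nat_lit 0xad0d0c62a)) e
 (c (a (nat_lit 0x1168c0000a)) e e)))
 (c (a (nat_lit 0x4004001))
 (c (a (nat_lit 0x1171658009)) e
 (c (a (nat_lit 0x1280000009)) e e))
 (c (a (nat_lit 0x41)) e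
 (c (a (nat_lit 0x21)) e
 (c (a (nat_lit 0x4081)) e
 (c (a (nat_lit 0x4061)) e
 (c (a (nat_lit 0x2061)) e
 (c (a (nat_lit 0x20a001)) e
 (c (a (nat_lit 0x204001)) e
 (c (a (nat_lit 0x204001)) e
 (c (a (nat_lit 0x20a1)) e
 (c (a (nat_lit 0x4021)) e
 (c (a (nat_lit 0x200001)) e e))))))))))))))
 (c (a (nat_lit 0x2021))
 (c (a (nat_lit 0x20221))
 (c (a (nat_lit 0xed7975426)) e
 (c (a (nat_lit 0x1ab96b8008)) e
 (c (a (nat_lit 0x1b40000007)) e e)))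
 (c (a (nat_lit 0x2061))
 (c (a (nat_lit 0x1125000009)) e e)
 (c (a (nat_lit 0x2001)) e
 (c (a (nat_lit 0x802001)) e
 (c (a (nat_lit 0x206081)) e
 (c (a (nat_lit 0x4081)) e
 (c (a (nat_lit 0x408001)) e
 (c (a (nat_lit 0x204081)) e
 (c (a (nat_lit 0x21)) e
 (c (a (nat_lit 0x4081)) e
 (c (a (nat_lit 0x2081)) e
 (c (a (nat_lit 0x2001)) e e))))))))))))
 (c (a (nat_lit 0x2021))
 (c (a (nat_lit 0x206041))
 (c (a (nat_lit 0x1840000005)) e e)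
 (c (a (nat_lit 0x604001)) e
 (c (a (nat_lit 0x402001)) e
 (c (a (nat_lit 0x404021)) e
 (c (a (nat_lit 0x2001)) e
 (c (a (nat_lit 0x202001)) e
 (c (a (nat_lit 0x804021)) e
 (c (a (nat_lit 0x2404021)) e
 (c (a (nat_lit 0x2001)) e
 (c (a (nat_lit 0x202021)) e
 (c (a (nat_lit 0x200001)) e e)))))))))))
 (c (a (nat_lit 0x2021))
 (c (a (nat_lit 0x604001)) e
 (c (a (nat_lit 0x1208001)) e
 (c (a (nat_lit 0xa02001)) e
 (c (a (nat_lit 0x120a021)) e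
 (c (a (nat_lit 0x202001)) e
 (c (a (nat_lit 0x202041)) e
 (c (a (nat_lit 0x200001)) e
 (c (a (nat_lit 0x21)) e
 (c (a (nat_lit 0x2001)) e e)))))))))
 (c (a (nat_lit 0x2021))
 (c (a (nat_lit 0x800041)) e
 (c (a (nat_lit 0x408041)) e
 (c (a (nat_lit 0x80c001)) e
 (c (a (nat_lit 0x400001)) e
 (c (a (nat_lit 0x802001)) e
 (c (a (nat_lit 0xa04001)) e
 (c (a (nat_lit 0x200021)) e
 (c (a (nat_lit 0x200001)) e e))))))))
 (c (a (nat_lit 0x2021))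
 (c (a (nat_lit 0x202021)) e
 (c (a (nat_lit 0x202021)) e
 (c (a (nat_lit 0x202021)) e
 (c (a (nat_lit 0x202021)) e
 (c (a (nat_lit 0x202021)) e
 (c (a (nat_lit 0x202001)) e e))))))
 (c (a (nat_lit 0x2021))
 (c (a (nat_lit 0x202021)) e
 (c (a (nat_lit 0x202021)) e
 (c (a (nat_lit 0x202021)) e
 (c (a (nat_lit 0x202021)) e
 (c (a (nat_lit 0x200001)) e e)))))
 (c (a (nat_lit 0x2021))
 (c (a (nat_lit 0x202021)) e
 (c (a (nat_lit 0x202021)) e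
 (c (a (nat_lit 0x202001)) e e)))
 (c (a (nat_lit 0x2021))
 (c (a (nat_lit 0x202021)) e
 (c (a (nat_lit 0x200001)) e e))
 (c (a (nat_lit 0x2021)) e
 (c (a (nat_lit 0x2021)) e
 (c (a (nat_lit 0x2021)) e
 (c (a (nat_lit 0x2021)) e
 (c (a (nat_lit 0x2021)) e
 (c (a (nat_lit 0x2021)) e
 (c (a (nat_lit 0x2021)) e
 (c (a (nat_lit 0x2041)) e
 (c z e
 (c (a (nat_lit 0x6021)) e
 (c (a (nat_lit 0x6021)) e e))))))))))))))))))))))) Tr.c Tr.e (nat_lit 0) C.cx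
noncomputable def C23 : Tr := beta% (fun (c : Nat → Tr → Tr → Tr) (e : Tr) (z : Nat) (a b : Nat → Nat) =>
 (c (a (nat_lit 0x2021))
 (c (a (nat_lit 0x21))
 (c (a (nat_lit 0x80204081))
 (c (a (nat_lit 0x13f3e97369e6)) e
 (c (a (nat_lit 0x1b75d6eb6507)) e
 (c (a (nat_lit 0xeb88e88a6e7)) e
 (c (a (nat_lit 0x13cc6462065)) e
 (c (a (nat_lit 0xaf831a00002)) e
 (c (a (nat_lit 0x17e000000002)) e e))))))
 (c (a (nat_lit 0x60607783))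
 (c (a (nat_lit 0x1812a903c428)) e
 (c (a (nat_lit 0x176c86258828)) e
 (c (a (nat_lit 0x14c501212007)) e
 (c (a (nat_lit 0x1d6600000004)) e e))))
 (c (a (nat_lit 0x1e3e7e65))
 (c (a (nat_lit 0x15b114efe7a6)) e
 (c (a (nat_lit 0x49608200006)) e
 (c (a (nat_lit 0x160000000005)) e e)))
 (c (a (nat_lit 0x407222))
 (c (a (nat_lit 0xab040000002)) e e)
 (c (a (nat_lit 0x1353534025)) e
 (c (a (nat_lit 0x20203c45)) e
 (c (a (nat_lit 0x202cf5c7)) e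
 (c (a (nat_lit 0xe303029)) e
 (c z e
 (c (a (nat_lit 0x1010101008)) e
 (c (a (nat_lit 0x10100f0ee8)) e
 (c (a (nat_lit 0x1dfdeee007)) e
 (c (a (nat_lit 0x1de0000006)) e e)))))))))))))
 (c (a (nat_lit 0x2021))
 (c (a (nat_lit 0x32953525))
 (c (a (nat_lit 0x15c605c5a5a7)) e
 (c (a (nat_lit 0x11edab8ae566)) e
 (c (a (nat_lit 0x11cd9000004)) e
 (c (a (nat_lit 0x42000000001)) e e))))
 (c (a (nat_lit 0xa1226001))
 (c (a (nat_lit 0x193f2c010003)) e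
 (c (a (nat_lit 0xbb020000004)) e e))
 (c (a (nat_lit 0x12d2d2a003))
 (c (a (nat_lit 0x114000000003)) e e)
 (c (a (nat_lit 0x407583)) e
 (c (a (nat_lit 0x225466)) e
 (c (a (nat_lit 0x31195d48)) e
 (c z e
 (c z e
 (c (a (nat_lit 0x13b3b33328)) e
 (c (a (nat_lit 0x1333320908)) e
 (c (a (nat_lit 0x1209000008)) e e)))))))))))
 (c (a (nat_lit 0x202021))
 (c (a (nat_lit 0x101018001))
 (c (a (nat_lit 0x33661200002)) e
 (c (a (nat_lit 0x19a000000003)) e e))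
 (c (a (nat_lit 0x40205c25)) e
 (c (a (nat_lit 0x23f3e6)) e
 (c (a (nat_lit 0x2b561a87)) e
 (c (a (nat_lit 0x1219dddea8)) e
 (c z e
 (c z e
 (c (a (nat_lit 0x1312f2f2e8)) e
 (c (a (nat_lit 0x12f2e90008)) e
 (c (a (nat_lit 0x11e0000007)) e e))))))))))
 (c (a (nat_lit 0x202021))
 (c (a (nat_lit 0x2258a4)) e
 (c (a (nat_lit 0x5d37c26)) e
 (c (a (nat_lit 0xef8b9d3e7)) e
 (c (a (nat_lit 0x18f4578a48)) e
 (c z e
 (c z e
 (c (a (nat_lit 0x12f2f2ea08)) e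
 (c (a (nat_lit 0x12ea000008)) e e))))))))
 (c (a (nat_lit 0x202021))
 (c (a (nat_lit 0x56d726f26)) e
 (c (a (nat_lit 0x177831c847)) e
 (c (a (nat_lit 0x96823f2e8)) e
 (c (a (nat_lit 0x14040e7227)) e
 (c z e
 (c (a (nat_lit 0x13344a2008)) e
 (c (a (nat_lit 0x1420000007)) e e)))))))
 (c (a (nat_lit 0x606061))
 (c (a (nat_lit 0xc40603326)) e
 (c (a (nat_lit 0x38022f0e9)) e
 (c (a (nat_lit 0x25e611e8)) e
 (c z e
 (c (a (nat_lit 0x1329a00008)) e e)))))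
 (c (a (nat_lit 0x41))
 (c (a (nat_lit 0xe02a1069)) e e)
 (c (b (nat_lit 0x3fffe1)) e
 (c z e
 (c z e
 (c (a (nat_lit 0xe08001)) e
 (c (a (nat_lit 0xc04001)) e
 (c (a (nat_lit 0x1006001)) e
 (c (a (nat_lit 0x1406001)) e
 (c (a (nat_lit 0xa02001)) e
 (c (a (nat_lit 0x404041)) e
 (c (a (nat_lit 0xa0c021)) e
 (c (a (nat_lit 0x204001)) e
 (c (a (nat_lit 0x4021)) e
 (c (a (nat_lit 0x400001)) e e))))))))))))))))))))
 (c (a (nat_lit 0x2021))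
 (c (a (nat_lit 0x202021))
 (c (a (nat_lit 0x111110c1))
 (c (a (nat_lit 0x1c4d71511141)) e
 (c (a (nat_lit 0xd08522c003)) e
 (c (a (nat_lit 0x67100000001)) e e)))
 (c (a (nat_lit 0x1c14280e1))
 (c (a (nat_lit 0x1f3843400001)) e
 (c (a (nat_lit 0x182000000002)) e e))
 (c (a (nat_lit 0x60e001)) e
 (c (a (nat_lit 0xb406051e3)) e
 (c (a (nat_lit 0x202313a6)) e
 (c (a (nat_lit 0x6e325228)) e
 (c z e
 (c (a (nat_lit 0x1616362d08)) e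
 (c (a (nat_lit 0x1d5d58f8c5)) e
 (c (a (nat_lit 0x18f9eca005)) e
 (c (a (nat_lit 0x1b60000004)) e e)))))))))))
 (c (nat_lit 1)
 (c (a (nat_lit 0x1e1214001))
 (c (a (nat_lit 0x174160000002)) e e)
 (c (a (nat_lit 0x261808001)) e
 (c (a (nat_lit 0x4021f646)) e
 (c (a (nat_lit 0x251108)) e
 (c (a (nat_lit 0x72b51acc9)) e
 (c z e
 (c (a (nat_lit 0x15f5f183c9)) e
 (c (a (nat_lit 0x1adad8cc66)) e
 (c (a (nat_lit 0x18ac600006)) e e)))))))))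
 (c (a (nat_lit 0x204061))
 (c (a (nat_lit 0x343603e44)) e
 (c (a (nat_lit 0x34f526)) e
 (c (a (nat_lit 0x266dbaa7)) e
 (c (a (nat_lit 0x12d2902aa8)) e
 (c z e
 (c (a (nat_lit 0x1a126d20a8)) e
 (c (a (nat_lit 0x1afb0c6006)) e
 (c (a (nat_lit 0x18e0000005)) e e))))))))
 (c (a (nat_lit 0x202001))
 (c (a (nat_lit 0x17b0da65)) e
 (c (a (nat_lit 0xa4a8b3e27)) e
 (c (a (nat_lit 0xaa38c54a8)) e
 (c z e
 (c (a (nat_lit 0xf900cf5a8)) e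
 (c (a (nat_lit 0x1c2f800006)) e e))))))
 (c (a (nat_lit 0x11b1a001))
 (c (a (nat_lit 0x607e71527)) e
 (c (a (nat_lit 0x2e46e5029)) e
 (c z e
 (c (a (nat_lit 0x1375daa008)) e
 (c (a (nat_lit 0x1f80000005)) e e)))))
 (c z
 (c (a (nat_lit 0xa4c3229)) e e)
 (c z e
 (c (a (nat_lit 0x1e22001)) e
 (c (a (nat_lit 0x8001)) e
 (c (a (nat_lit 0x402001)) e
 (c (a (nat_lit 0x606001)) e
 (c (a (nat_lit 0xa02001)) e
 (c (a (nat_lit 0xa04001)) e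
 (c (a (nat_lit 0x1004001)) e
 (c (a (nat_lit 0x403163)) e
 (c (a (nat_lit 0xc04001)) e
 (c (a (nat_lit 0x402001)) e
 (c (a (nat_lit 0x402001)) e e))))))))))))))))))
 C22))) Tr.c Tr.e (nat_lit 0) C.cx C.cy
noncomputable def C24 : Tr := beta% (fun (c : Nat → Tr → Tr → Tr) (e : Tr) (z : Nat) (a b : Nat → Nat) =>
 (c (a (nat_lit 0x202021))
 (c (a (nat_lit 0x202021))
 (c (a (nat_lit 0x127272727346))
 (c (a (nat_lit 0x1a7e45c0000005)) e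
 (c (a (nat_lit 0x11000000000007)) e e))
 (c (a (nat_lit 0x12b2b2b35368)) e
 (c (a (nat_lit 0x149d5e9e9b07)) e
 (c (a (nat_lit 0x14be7e9ccc87)) e
 (c (a (nat_lit 0x1a3a31c48367)) e
 (c (a (nat_lit 0x191160426be7)) e
 (c (a (nat_lit 0x184e2cca0006)) e
 (c (a (nat_lit 0x1240c0000004)) e e))))))))
 (c (a (nat_lit 0xa0802001))
 (c (a (nat_lit 0x1c3c3d7d7b28)) e
 (c (a (nat_lit 0x1657375bef29)) e
 (c (a (nat_lit 0xbabb007664a)) e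
 (c (a (nat_lit 0x11d66462c3e9)) e
 (c (a (nat_lit 0x13824224a269)) e
 (c (a (nat_lit 0x1fcb34400006)) e
 (c (a (nat_lit 0x44000000001)) e e)))))))
 (c (a (nat_lit 0x60602001))
 (c (a (nat_lit 0x14f0af7600c8)) e
 (c (a (nat_lit 0x10b7d0840269)) e
 (c (b (nat_lit 0x12b63fe1a2e8)) e
 (c (a (nat_lit 0x1400a224e008)) e
 (c (a (nat_lit 0x79fa0000005)) e e)))))
 (c (a (nat_lit 0x40602001))
 (c (b (nat_lit 0x1b279fe36248)) e
 (c (a (nat_lit 0x1df58943e327)) e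
 (c (a (nat_lit 0x19af87400006)) e
 (c (a (nat_lit 0x1cc000000004)) e e))))
 (c (a (nat_lit 0x60203ce2))
 (c (a (nat_lit 0x1b8ec8222006)) e
 (c (a (nat_lit 0x1d5da0000005)) e e))
 (c (a (nat_lit 0x2accba06))
 (c (a (nat_lit 0x11e000000005)) e e)
 (c (a (nat_lit 0x2d8b3886)) e
 (c (a (nat_lit 0x207e5dc4)) e
 (c (a (nat_lit 0x47a77346)) e
 (c (a (nat_lit 0x5d3f6f6e8)) e
 (c (a (nat_lit 0x171b3b3b27)) e
 (c (a (nat_lit 0x1b3b3b3b27)) e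
 (c (a (nat_lit 0x11d8989887)) e
 (c (a (nat_lit 0x18988c4007)) e
 (c (a (nat_lit 0x1880000006)) e e)))))))))))))))
 (c (a (nat_lit 0x202021))
 (c (a (nat_lit 0x120804001))
 (c (a (nat_lit 0x1313d3d22ae8)) e
 (c (a (nat_lit 0x17b67a0fc6c9)) e
 (c z e
 (c (a (nat_lit 0x1663c2218109)) e
 (c (a (nat_lit 0x2093c39a005)) e
 (c (a (nat_lit 0x141fc0000004)) e e))))))
 (c (a (nat_lit 0x60a06001))
 (c (a (nat_lit 0x10f51263e129)) e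
 (c (a (nat_lit 0x17adc4e201aa)) e
 (c (b (nat_lit 0x137fe3c4e2e9)) e
 (c (a (nat_lit 0x8d392c00006)) e
 (c (a (nat_lit 0x1ac000000005)) e e)))))
 (c (a (nat_lit 0x2031b526))
 (c (a (nat_lit 0x1dee8b08f048)) e
 (c (a (nat_lit 0x1d8a0e6a8008)) e
 (c (a (nat_lit 0x115c80000006)) e e)))
 (c (a (nat_lit 0x294b11c7))
 (c (a (nat_lit 0x14b66b600006)) e
 (c (a (nat_lit 0xd6000000001)) e e))
 (c (a (nat_lit 0x2d8a5086)) e
 (c (a (nat_lit 0x11515a6906)) e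
 (c (a (nat_lit 0x309b0bca7)) e
 (c z e
 (c z e
 (c (a (nat_lit 0x1dbfbfbfa8)) e
 (c (a (nat_lit 0xcffbe9e88)) e
 (c (a (nat_lit 0xc7d5d4ea8)) e
 (c (a (nat_lit 0x1d4ea00008)) e e)))))))))))))
 (c (a (nat_lit 0x2021))
 (c (a (nat_lit 0x60403fc3))
 (c (a (nat_lit 0x16bd44424267)) e
 (c (a (nat_lit 0x12a3c1e243a9)) e
 (c (b (nat_lit 0x133fec66c006)) e
 (c (a (nat_lit 0xb3440000003)) e e))))
 (c (a (nat_lit 0x28c49f45))
 (c (a (nat_lit 0x1f5056efe7e6)) e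
 (c (a (nat_lit 0x191e8e00007)) e
 (c (a (nat_lit 0x152000000006)) e e)))
 (c (a (nat_lit 0xd8693c6))
 (c (a (nat_lit 0xc5340000005)) e e)
 (c (a (nat_lit 0x13b3bcc046)) e
 (c (a (nat_lit 0x20219d25)) e
 (c (a (nat_lit 0x2dd333a8)) e
 (c z e
 (c z e
 (c (a (nat_lit 0x95352d2c8)) e
 (c (a (nat_lit 0x1172d2d2a8)) e
 (c (a (nat_lit 0x99168c008)) e
 (c (a (nat_lit 0x60000001)) e e))))))))))))
 (c (a (nat_lit 0x202021))
 (c (a (nat_lit 0x3ae29ae4))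
 (c (a (nat_lit 0x4317020c005)) e
 (c (a (nat_lit 0x1d1da0000004)) e e))
 (c (a (nat_lit 0x24d81365))
 (c (a (nat_lit 0x152000000003)) e e)
 (c (a (nat_lit 0x202072c6)) e
 (c (a (nat_lit 0x4f1b1b07)) e
 (c (a (nat_lit 0x131a3a3a08)) e
 (c z e
 (c (a (nat_lit 0x15d8da76c9)) e
 (c (a (nat_lit 0x10b2b2b2a8)) e
 (c (a (nat_lit 0x12b2b2aa08)) e
 (c (a (nat_lit 0x811400007)) e e))))))))))
 (c (a (nat_lit 0x202041))
 (c (a (nat_lit 0x406037e4)) e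
 (c (a (nat_lit 0x3d1fddf46)) e
 (c (a (nat_lit 0x13999ab747)) e
 (c (a (nat_lit 0x135332ca28)) e
 (c (a (nat_lit 0x15b5b6a848)) e
 (c (a (nat_lit 0x80ff1ee49)) e
 (c (a (nat_lit 0x10b2b2b3e8)) e
 (c (a (nat_lit 0x12b2aa0008)) e
 (c (a (nat_lit 0x1180000005)) e e)))))))))
 (c (a (nat_lit 0x202021))
 (c (a (nat_lit 0x177d7d7246)) e
 (c (a (nat_lit 0x1d7d784007)) e
 (c (a (nat_lit 0x1e58cb0407)) e
 (c (a (nat_lit 0x1777603686)) e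
 (c (a (nat_lit 0xdf854b688)) e
 (c (a (nat_lit 0x1112f42a28)) e
 (c (a (nat_lit 0x2f4200007)) e e)))))))
 (c (a (nat_lit 0x202021))
 (c (a (nat_lit 0x1b1c202005)) e
 (c (a (nat_lit 0x1760202327)) e
 (c (a (nat_lit 0x9e0259228)) e
 (c (a (nat_lit 0x988f39108)) e
 (c (a (nat_lit 0x15329a008)) e
 (c (a (nat_lit 0x60000001)) e e))))))
 (c (a (nat_lit 0x404021))
 (c (a (nat_lit 0x4002033a7)) e
 (c (a (nat_lit 0x140221209)) e
 (c (a (nat_lit 0x495997a28)) e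
 (c (a (nat_lit 0x3da00007)) e e))))
 (c (b (nat_lit 0x203fe1))
 (c (a (nat_lit 0x2a30c9)) e
 (c (a (nat_lit 0x113f2008)) e
 (c (a (nat_lit 0x1720000006)) e e)))
 (c (b (nat_lit 0x413fe1))
 (c (a (nat_lit 0x32200007)) e e)
 (c (a (nat_lit 0x3004001)) e
 (c z e
 (c (a (nat_lit 0x404041)) e
 (c (a (nat_lit 0x41)) e
 (c (a (nat_lit 0x4001)) e
 (c (a (nat_lit 0x602001)) e
 (c (a (nat_lit 0x204001)) e
 (c (a (nat_lit 0x602001)) e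
 (c (a (nat_lit 0x600001)) e
 (c z e
 (c (a (nat_lit 0x2001)) e e)))))))))))))))))))))) Tr.c Tr.e (nat_lit 0) C.cx C.cy
noncomputable def C25 : Tr := beta% (fun (c : Nat → Tr → Tr → Tr) (e : Tr) (z : Nat) (a b : Nat → Nat) =>
 (c (a (nat_lit 0x204041))
 (c (a (nat_lit 0x1dc0402023))
 (c (a (nat_lit 0xc12d2d2b2a7))
 (c (a (nat_lit 0x12523fab600006)) e
 (c (a (nat_lit 0x180fa000000007)) e e))
 (c (a (nat_lit 0x354141413e8))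
 (c (a (nat_lit 0x19c00000000006)) e e)
 (c (a (nat_lit 0x169494912a8)) e
 (c (a (nat_lit 0x489493a6c08)) e
 (c (a (nat_lit 0x1447244c529)) e
 (c (a (nat_lit 0x491ca484549)) e
 (c (a (nat_lit 0xd4c91c80768)) e
 (c (a (nat_lit 0x15cda9000007)) e
 (c (a (nat_lit 0x114000000005)) e e)))))))))
 (c (a (nat_lit 0xe100a001))
 (c (a (nat_lit 0x949496950c9)) e
 (c (a (nat_lit 0x6c8e931958a)) e
 (c (a (nat_lit 0x72995b9904a)) e
 (c z e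
 (c z e
 (c (a (nat_lit 0x12c9e3e2c00a)) e
 (c (a (nat_lit 0x12a060000009)) e e)))))))
 (c (a (nat_lit 0x20a04001))
 (c (a (nat_lit 0xece7d16ff28)) e
 (c (a (nat_lit 0xe3c92d54069)) e
 (c z e
 (c (a (nat_lit 0xe19484e2608)) e
 (c (a (nat_lit 0x15a5c4400009)) e
 (c (a (nat_lit 0x168000000005)) e e))))))
 (c (a (nat_lit 0x80806021))
 (c (b (nat_lit 0x19d11fffe088)) e
 (c (b (nat_lit 0x13ffffc8525)) e
 (c (b (nat_lit 0x1ffdb4918007)) e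
 (c (a (nat_lit 0x197500000006)) e e))))
 (c (a (nat_lit 0x2100e061))
 (c (b (nat_lit 0x1ffff1bc8025)) e
 (c (a (nat_lit 0x10712000007)) e
 (c (a (nat_lit 0x1ee000000005)) e e)))
 (c (a (nat_lit 0x2f32c6))
 (c (a (nat_lit 0x12ed60000006)) e e)
 (c (a (nat_lit 0x12729fe6)) e
 (c (a (nat_lit 0x154743aa6)) e
 (c (a (nat_lit 0x202bf048)) e
 (c (a (nat_lit 0x2dd1d148)) e
 (c (a (nat_lit 0x1196ef2588)) e
 (c (a (nat_lit 0x2a4022001)) e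
 (c (a (nat_lit 0x1a2a081)) e
 (c (a (nat_lit 0x81004001)) e
 (c (a (nat_lit 0x4a1200001)) e e)))))))))))))))
 (c (a (nat_lit 0x404041))
 (c (a (nat_lit 0x40404001))
 (c (a (nat_lit 0xcacad537568)) e
 (c (a (nat_lit 0x7e829f06b8a)) e
 (c (a (nat_lit 0xff3bab6e149)) e e)))
 (c (a (nat_lit 0x120606001))
 (c (b (nat_lit 0x7ced853ffe9)) e
 (c z e
 (c z e
 (c (a (nat_lit 0x1680c3e36009)) e e))))
 (c (a (nat_lit 0x408001))
 (c z e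
 (c (b (nat_lit 0x10e8dfe30109)) e
 (c (a (nat_lit 0x5d0ee400007)) e
 (c (a (nat_lit 0x102000000006)) e e))))
 (c (a (nat_lit 0x203053c6))
 (c (a (nat_lit 0x1eaadca7a007)) e
 (c (a (nat_lit 0xbd040000007)) e e))
 (c (a (nat_lit 0x11d97967))
 (c (a (nat_lit 0x142000000005)) e e)
 (c (a (nat_lit 0x21a0c0c1)) e
 (c (a (nat_lit 0x40473267)) e
 (c z e
 (c z e
 (c (a (nat_lit 0x13f6c16028)) e
 (c (a (nat_lit 0x1220a084)) e
 (c (a (nat_lit 0x1a1c561)) e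
 (c (a (nat_lit 0x1818001)) e
 (c (nat_lit 1) e e))))))))))))))
 (c (a (nat_lit 0x404041))
 (c (a (nat_lit 0xc100a001))
 (c (a (nat_lit 0xb569660c207)) e
 (c (a (nat_lit 0x1c576522a0a8)) e
 (c (a (nat_lit 0x1f8321c12048)) e
 (c (a (nat_lit 0x13aae0a00006)) e e))))
 (c (a (nat_lit 0x1e0e024c1))
 (c (a (nat_lit 0x15c98204a148)) e
 (c (a (nat_lit 0x1ea890e40007)) e
 (c (a (nat_lit 0x12ee20000006)) e e)))
 (c (a (nat_lit 0x3a31f204))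
 (c (a (nat_lit 0x115388e00006)) e
 (c (a (nat_lit 0x10e000000005)) e e))
 (c (a (nat_lit 0x1299797965)) e
 (c (a (nat_lit 0x1171520f46)) e
 (c (a (nat_lit 0x2af12b008)) e
 (c z e
 (c (a (nat_lit 0x1090918da9)) e
 (c (a (nat_lit 0x129642a027)) e
 (c (a (nat_lit 0x302e56121)) e
 (c (a (nat_lit 0xa22001)) e
 (c (a (nat_lit 0x600001)) e e))))))))))))
 (c (a (nat_lit 0x202021))
 (c (a (nat_lit 0x31115123))
 (c (a (nat_lit 0x4839a4a245)) e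
 (c (a (nat_lit 0x49a84000006)) e
 (c (a (nat_lit 0x122000000006)) e e)))
 (c (a (nat_lit 0x420200a1))
 (c (a (nat_lit 0x1b86c0000006)) e e)
 (c (a (nat_lit 0x135355f1a6)) e
 (c (a (nat_lit 0x29f07247)) e
 (c (a (nat_lit 0xa965752a8)) e
 (c z e
 (c (a (nat_lit 0x1292930c68)) e
 (c (a (nat_lit 0x1154e02027)) e
 (c (a (nat_lit 0x120040a0a4)) e
 (c (a (nat_lit 0xe1e001)) e
 (c (a (nat_lit 0x20000001)) e e)))))))))))
 (c (a (nat_lit 0x202021))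
 (c (a (nat_lit 0x9494971a5))
 (c (a (nat_lit 0x186000000003)) e e)
 (c (a (nat_lit 0x5ed539387)) e
 (c (a (nat_lit 0xe14b4f387)) e
 (c (a (nat_lit 0x1131310e08)) e
 (c (a (nat_lit 0x1510f0c9e8)) e
 (c (a (nat_lit 0xccccdf028)) e
 (c (a (nat_lit 0xd3a202026)) e
 (c (a (nat_lit 0x62226021)) e
 (c (a (nat_lit 0xe00001)) e e)))))))))
 (c (a (nat_lit 0x404041))
 (c (a (nat_lit 0x145ababaa6)) e
 (c (a (nat_lit 0x1bdbdbc327)) e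
 (c (a (nat_lit 0x1bfbf5c007)) e
 (c (a (nat_lit 0x12acaca4c7)) e
 (c (a (nat_lit 0xf6f77b047)) e
 (c (a (nat_lit 0x35e02026)) e
 (c (a (nat_lit 0xa4414001)) e
 (c (a (nat_lit 0x1c0000001)) e e))))))))
 (c (a (nat_lit 0x404061))
 (c (a (nat_lit 0x15d5f68005)) e
 (c (a (nat_lit 0x11d2002007)) e
 (c (a (nat_lit 0x14cf202027)) e
 (c (a (nat_lit 0x1c1d52faa6)) e
 (c (a (nat_lit 0x35002024)) e
 (c (a (nat_lit 0x204400001)) e e))))))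
 (c (a (nat_lit 0x404041))
 (c (a (nat_lit 0x18e0402006)) e
 (c (a (nat_lit 0x1300202c47)) e
 (c (a (nat_lit 0x1e6039e346)) e
 (c (a (nat_lit 0x75a00004)) e
 (c (nat_lit 1) e e)))))
 (c (a (nat_lit 0x404041))
 (c (a (nat_lit 0x20203087)) e
 (c (a (nat_lit 0x2045d328)) e
 (c (a (nat_lit 0x32a00007)) e e)))
 (c (a (nat_lit 0x404041))
 (c (a (nat_lit 0x882be2006)) e
 (c (nat_lit 1) e e))
 (c (a (nat_lit 0x604001)) e
 (c (a (nat_lit 0xa0a041)) e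
 (c (a (nat_lit 0x41a1)) e
 (c (a (nat_lit 0xc121)) e
 (c (a (nat_lit 0x60c1)) e
 (c (a (nat_lit 0x2001)) e
 (c (a (nat_lit 0x404021)) e
 (c (a (nat_lit 0x406021)) e
 (c (a (nat_lit 0x604001)) e
 (c (a (nat_lit 0x602001)) e
 (c (a (nat_lit 0x1004021)) e
 (c (a (nat_lit 0x400001)) e e))))))))))))))))))))))) Tr.c Tr.e (nat_lit 0) C.cx C.cy
noncomputable def C26 : Tr := beta% (fun (c : Nat → Tr → Tr → Tr) (e : Tr) (z : Nat) (a b : Nat → Nat) =>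
 (c (a (nat_lit 0x404041))
 (c (a (nat_lit 0x3586a6a4))
 (c (a (nat_lit 0x10b0b0b0b0a7))
 (c (a (nat_lit 0x8ec69f3c8c006)) e
 (c (a (nat_lit 0x1a4277e0000005)) e
 (c (a (nat_lit 0x13600000000007)) e e)))
 (c (b (nat_lit 0x1ff0f0f0f448))
 (c (a (nat_lit 0x2674000000001)) e e)
 (c (a (nat_lit 0x6a80808d888)) e
 (c (a (nat_lit 0x90969581bc8)) e
 (c (a (nat_lit 0x605f252ad29)) e
 (c (a (nat_lit 0x732f2a70029)) e
 (c (a (nat_lit 0xacff20be849)) e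
 (c (a (nat_lit 0x711eb858009)) e e))))))))
 (c (a (nat_lit 0x1a01008063))
 (c (a (nat_lit 0x311117ff48)) e
 (c (a (nat_lit 0x86c509e5e89)) e
 (c (a (nat_lit 0x5e8d495b7aa)) e e)))
 (c (a (nat_lit 0xa0608041))
 (c (a (nat_lit 0x101a5dbcf5c8)) e e)
 (c (a (nat_lit 0x40606081))
 (c z e
 (c z e
 (c (b (nat_lit 0x11bfffe74029)) e
 (c (a (nat_lit 0x16cbcc000008)) e
 (c (a (nat_lit 0x182000000007)) e e)))))
 (c (a (nat_lit 0x606021))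
 (c (b (nat_lit 0x115fe8c3e027)) e
 (c (b (nat_lit 0x1feab0eec006)) e
 (c (a (nat_lit 0x142940000007)) e e)))
 (c (a (nat_lit 0x804001))
 (c (a (nat_lit 0x3111a00005)) e
 (c (a (nat_lit 0x19c000000005)) e e))
 (c (a (nat_lit 0x2e7226)) e
 (c (a (nat_lit 0xeaebbc7)) e
 (c (a (nat_lit 0x76bd648)) e
 (c (a (nat_lit 0xaaeb35389)) e
 (c (a (nat_lit 0x3856e028)) e
 (c (a (nat_lit 0x38802028)) e
 (c (a (nat_lit 0x60e16001)) e
 (c (a (nat_lit 0x240620141)) e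
 (c (a (nat_lit 0x404001)) e
 (c (a (nat_lit 0xc0000001)) e e))))))))))))))))
 (c (a (nat_lit 0x404041))
 (c (a (nat_lit 0xa0204001))
 (c (a (nat_lit 0xcccd3ba5aa7)) e
 (c (a (nat_lit 0xb2f14738ea9)) e
 (c (a (nat_lit 0xeb2936f4c89)) e
 (c z e
 (c z e
 (c (b (nat_lit 0x17071fe34008)) e e))))))
 (c (a (nat_lit 0x120e06001))
 (c (a (nat_lit 0xa2f0eab10c9)) e
 (c z e
 (c z e
 (c (a (nat_lit 0x1490a56541e9)) e
 (c (a (nat_lit 0x15c423c00009)) e e)))))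
 (c (a (nat_lit 0x80604161))
 (c z e
 (c (a (nat_lit 0xab789a76009)) e
 (c (b (nat_lit 0x1a5ff0e5e008)) e
 (c (a (nat_lit 0x14eb80000007)) e e))))
 (c (a (nat_lit 0x608081))
 (c (a (nat_lit 0x1cd4934860a7)) e
 (c (a (nat_lit 0x1c148d600007)) e
 (c (a (nat_lit 0x1b4000000005)) e e)))
 (c (a (nat_lit 0x2ed286))
 (c (a (nat_lit 0x148700000005)) e e)
 (c (a (nat_lit 0x30523227)) e
 (c (a (nat_lit 0x63abd407)) e
 (c z e
 (c z e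
 (c (a (nat_lit 0x1213f58028)) e
 (c (a (nat_lit 0x14b8202028)) e
 (c (a (nat_lit 0xa1216041)) e
 (c (a (nat_lit 0xe1e081)) e
 (c (a (nat_lit 0xa00001)) e e))))))))))))))
 (c (a (nat_lit 0x404041))
 (c (a (nat_lit 0x40206001))
 (c (a (nat_lit 0x585c410a548)) e
 (c (a (nat_lit 0x7e6d3654769)) e
 (c (b (nat_lit 0x957fe361c9)) e
 (c (a (nat_lit 0x13e061c10009)) e
 (c (a (nat_lit 0x111e00000002)) e e)))))
 (c (a (nat_lit 0x60a08001))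
 (c (b (nat_lit 0x5b97feea2c8)) e
 (c (a (nat_lit 0x13e544c1210a)) e
 (c (a (nat_lit 0x353e7400007)) e
 (c (a (nat_lit 0x120000000007)) e e))))
 (c (a (nat_lit 0x40203784))
 (c (a (nat_lit 0x1d0dd347e007)) e
 (c (a (nat_lit 0x14adc0000007)) e e))
 (c (a (nat_lit 0x17dcdce6))
 (c (a (nat_lit 0x1ae000000004)) e e)
 (c (a (nat_lit 0x123089087)) e
 (c z e
 (c z e
 (c (a (nat_lit 0x1353527168)) e
 (c (a (nat_lit 0x129292a3a7)) e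
 (c (a (nat_lit 0x1196602027)) e
 (c (a (nat_lit 0x120c34121)) e
 (c (a (nat_lit 0xc0a12001)) e
 (c (a (nat_lit 0x20000001)) e e)))))))))))))
 (c (a (nat_lit 0x404041))
 (c (a (nat_lit 0x40405d62))
 (c (a (nat_lit 0x138ac72663c7)) e
 (c (a (nat_lit 0x1066cb434008)) e
 (c (a (nat_lit 0x11b520000006)) e e)))
 (c (a (nat_lit 0x39da1a44))
 (c (a (nat_lit 0x129b68600007)) e
 (c (a (nat_lit 0x134000000007)) e e))
 (c (a (nat_lit 0x26aaad2c7)) e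
 (c (a (nat_lit 0x54950eca8)) e
 (c (a (nat_lit 0xcf4b4afc8)) e
 (c z e
 (c (a (nat_lit 0xe71918e08)) e
 (c (a (nat_lit 0xa6ff10de7)) e
 (c (a (nat_lit 0x91c202045)) e
 (c (a (nat_lit 0x401220101)) e
 (c (a (nat_lit 0x400001)) e e)))))))))))
 (c (a (nat_lit 0x404041))
 (c (a (nat_lit 0x9cbabb3a6))
 (c (a (nat_lit 0x188680000006)) e e)
 (c (a (nat_lit 0x92e120cc8)) e
 (c (a (nat_lit 0x11d9f9f9e7)) e
 (c (a (nat_lit 0x10908feb88)) e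
 (c (a (nat_lit 0x148feea908)) e
 (c (a (nat_lit 0x1512b2f627)) e
 (c (a (nat_lit 0x9292f94c6)) e
 (c (a (nat_lit 0x3b004005)) e
 (c (a (nat_lit 0xa1e14001)) e
 (c (a (nat_lit 0xe0000001)) e e))))))))))
 (c (a (nat_lit 0x202021))
 (c (a (nat_lit 0xc70707067)) e
 (c (a (nat_lit 0x1f7f7f6a87)) e
 (c (a (nat_lit 0x19b9b9ca47)) e
 (c (a (nat_lit 0x14142c0c07)) e
 (c (a (nat_lit 0x14ececf647)) e
 (c (a (nat_lit 0x7c8223)) e
 (c (a (nat_lit 0x37a02026)) e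
 (c (a (nat_lit 0x221400001)) e e))))))))
 (c (a (nat_lit 0x404021))
 (c (a (nat_lit 0x1090b07165)) e
 (c (a (nat_lit 0x117171a207)) e
 (c (a (nat_lit 0x13b3ee44e7)) e
 (c (a (nat_lit 0x13ee4dc9e7)) e
 (c (a (nat_lit 0x80a0c001)) e
 (c (a (nat_lit 0x3f402004)) e
 (c (a (nat_lit 0x40000001)) e e)))))))
 (c (a (nat_lit 0x402021))
 (c (a (nat_lit 0x1999c5c246)) e
 (c (a (nat_lit 0x1b71822007)) e
 (c (a (nat_lit 0x11cbe02007)) e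
 (c (a (nat_lit 0x41202041)) e
 (c (a (nat_lit 0x30e00007)) e e)))))
 (c (a (nat_lit 0x404041))
 (c (a (nat_lit 0x12e0202007)) e
 (c (a (nat_lit 0x1860203fe6)) e
 (c (a (nat_lit 0x27de4006)) e
 (c (nat_lit 1) e e))))
 (c (a (nat_lit 0x404041))
 (c (a (nat_lit 0xf603d04)) e
 (c (a (nat_lit 0x80200001)) e e))
 (c (a (nat_lit 0x404001))
 (c (a (nat_lit 0x20000001)) e e)
 (c (a (nat_lit 0x804001)) e
 (c (a (nat_lit 0xc04001)) e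
 (c (a (nat_lit 0x21a1)) e
 (c (a (nat_lit 0xc061)) e
 (c (a (nat_lit 0x604041)) e
 (c (a (nat_lit 0x204081)) e
 (c (a (nat_lit 0x4081)) e
 (c (a (nat_lit 0x60a1)) e
 (c (a (nat_lit 0x60a1)) e
 (c (a (nat_lit 0x204121)) e
 (c (a (nat_lit 0x6001)) e e))))))))))))))))))))))) Tr.c Tr.e (nat_lit 0) C.cx C.cy
noncomputable def C27 : Tr := beta% (fun (c : Nat → Tr → Tr → Tr) (e : Tr) (z : Nat) (a b : Nat → Nat) =>
 (c (a (nat_lit 0x202021))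
 (c (a (nat_lit 0x1341))
 (c (a (nat_lit 0x1c1c3e1e2023))
 (c (a (nat_lit 0x80d0a04d44d85))
 (c z e
 (c (a (nat_lit 0x1749c00000000007)) e e))
 (c (a (nat_lit 0x16128cd4f74fc7)) e
 (c (a (nat_lit 0x1715da76f5b007)) e
 (c (a (nat_lit 0xcfdd2f2b690c7)) e
 (c (a (nat_lit 0x1e2563e6482687)) e
 (c (a (nat_lit 0x96148150da005)) e e))))))
 (c (a (nat_lit 0xccd52cb8167))
 (c (a (nat_lit 0xaa7cfb6cfb188)) e
 (c (a (nat_lit 0x13f697b6f58e89)) e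
 (c (a (nat_lit 0x19f3f2786e2e09)) e
 (c (a (nat_lit 0x12edb39730f028)) e
 (c (a (nat_lit 0x9af7991200007)) e e)))))
 (c (a (nat_lit 0xa96b8d780c7))
 (c (a (nat_lit 0x1c5bbdb754f088)) e
 (c (a (nat_lit 0x18dc3e1775f4e8)) e e))
 (c (a (nat_lit 0x5985a598427))
 (c (a (nat_lit 0xcb0ac6809e7a8)) e
 (c (b (nat_lit 0x11a89fe7400007)) e e))
 (c (a (nat_lit 0xff06ecf2026))
 (c (a (nat_lit 0x16a6a960000006)) e e)
 (c (a (nat_lit 0x10303030eac5)) e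
 (c (a (nat_lit 0xce9ea0d92e5)) e
 (c (a (nat_lit 0x966062ad3a5)) e
 (c (a (nat_lit 0x2e304e45a66)) e
 (c (a (nat_lit 0x5c506126767)) e
 (c (a (nat_lit 0x1404f16ecc7)) e
 (c (a (nat_lit 0x170c03c005)) e
 (c (a (nat_lit 0x180780000006)) e e)))))))))))))
 (c (a (nat_lit 0x3183a5))
 (c (a (nat_lit 0x952d4b0cd67))
 (c (a (nat_lit 0x78a520c6cacc8)) e
 (c (a (nat_lit 0x16d3f8db6d7009)) e
 (c (a (nat_lit 0xd0c502a4a0cea)) e
 (c (a (nat_lit 0xb2b324eeaa009)) e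
 (c (a (nat_lit 0x9726f80000008)) e e)))))
 (c (a (nat_lit 0x7937386e589))
 (c (a (nat_lit 0xbaf50eac6a9ea)) e
 (c (a (nat_lit 0x1517f0124eedaa)) e
 (c (a (nat_lit 0x1cd13556400008)) e e)))
 (c (a (nat_lit 0xff273426529))
 (c (a (nat_lit 0x1884690d880008)) e e)
 (c (a (nat_lit 0x76e10a3c0c8)) e
 (c (a (nat_lit 0xb4c9207c387)) e
 (c (a (nat_lit 0xd8c7a97a8e6)) e
 (c (a (nat_lit 0xaead2b18dc7)) e
 (c (a (nat_lit 0x769ac754767)) e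
 (c (a (nat_lit 0x74738d00388)) e
 (c (a (nat_lit 0x24b728c308)) e
 (c (a (nat_lit 0x3416800006)) e
 (c (a (nat_lit 0x6000000001)) e e))))))))))))
 (c (a (nat_lit 0xad3834326))
 (c (a (nat_lit 0x2fbf3333328))
 (c (a (nat_lit 0x14b53489ac5188)) e
 (c (a (nat_lit 0x1953b966c98008)) e
 (c (a (nat_lit 0x61f7320000008)) e e)))
 (c (a (nat_lit 0xe9b4bebab88))
 (c (b (nat_lit 0x1a3fe365e00007)) e e)
 (c (a (nat_lit 0xc9b731313c7)) e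
 (c (a (nat_lit 0x157acaccdc6)) e
 (c (a (nat_lit 0x188c4499f67)) e
 (c (a (nat_lit 0x3a7a89711e8)) e
 (c (a (nat_lit 0x506904e2fa9)) e
 (c (a (nat_lit 0x4130f13aac9)) e
 (c (a (nat_lit 0xc70586c8009)) e
 (c (a (nat_lit 0x12cdc0000009)) e e))))))))))
 (c (a (nat_lit 0x1e5e5e5824))
 (c (b (nat_lit 0x3fff3d3d3c7))
 (c (a (nat_lit 0x137404e0000006)) e e)
 (c (b (nat_lit 0x25fe442b367)) e
 (c (b (nat_lit 0x1fffe02eb827)) e
 (c (a (nat_lit 0x645cd175688)) e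
 (c (a (nat_lit 0x6e9f26e6e49)) e e)))))
 (c (a (nat_lit 0x13f8404003))
 (c (a (nat_lit 0x325e6089887)) e
 (c (a (nat_lit 0x40e28c1088)) e
 (c (a (nat_lit 0x426b0ae6048)) e
 (c (a (nat_lit 0x10967a0b849)) e e))))
 (c (a (nat_lit 0x1840202003))
 (c (a (nat_lit 0x524e9136347)) e
 (c (a (nat_lit 0x6d23c206ba7)) e
 (c (b (nat_lit 0x5f6c0f89fe7)) e e)))
 (c (a (nat_lit 0x80204021))
 (c (a (nat_lit 0x107506496286)) e
 (c (a (nat_lit 0x11c227406507)) e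
 (c (a (nat_lit 0x9643228006)) e
 (c (a (nat_lit 0x1f4120000006)) e e))))
 (c (a (nat_lit 0x6141))
 (c (a (nat_lit 0x2e120bc8b44)) e
 (c (a (nat_lit 0x144783600004)) e
 (c (a (nat_lit 0x1d0000000002)) e e)))
 (c (a (nat_lit 0x408181))
 (c (a (nat_lit 0x17c660000003)) e e)
 (c (a (nat_lit 0x806101)) e
 (c (a (nat_lit 0x3b7f25)) e
 (c (a (nat_lit 0xe521205)) e
 (c (a (nat_lit 0x1a1dfe0024)) e
 (c (a (nat_lit 0x38602026)) e
 (c (a (nat_lit 0x60612261)) e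
 (c (a (nat_lit 0x60c161)) e
 (c (a (nat_lit 0x406081)) e
 (c (a (nat_lit 0x206001)) e
 (c (nat_lit 1) e e)))))))))))))))))))
 (c (a (nat_lit 0x806081))
 (c (a (nat_lit 0x1d1bb922))
 (c (a (nat_lit 0xad40a8b8a26))
 (c (a (nat_lit 0xd93d40ff2dd66)) e
 (c (a (nat_lit 0x7103846698fc8)) e
 (c (a (nat_lit 0x197cbaf4370f08)) e
 (c (a (nat_lit 0x6505369400008)) e
 (c (a (nat_lit 0x14b2a000000007)) e e)))))
 (c (a (nat_lit 0x4b6298867c8))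
 (c (a (nat_lit 0xf56e9c123fbe9)) e
 (c (a (nat_lit 0x11496d48a7e00a)) e
 (c (b (nat_lit 0x1ffb7480000007)) e e)))
 (c (a (nat_lit 0x109128888869))
 (c (b (nat_lit 0x1ff457a4200007)) e e)
 (c (a (nat_lit 0xdd04a8a6a68)) e
 (c (a (nat_lit 0x13d8ae8e6d67)) e
 (c (a (nat_lit 0xd32e92a83e7)) e
 (c (a (nat_lit 0xa30c8a3b287)) e
 (c (a (nat_lit 0xbee69762007)) e
 (c (a (nat_lit 0x26e90a78988)) e
 (c (a (nat_lit 0x32e0e1a008)) e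
 (c (a (nat_lit 0x14c900000007)) e e)))))))))))
 (c (a (nat_lit 0x11d070e002))
 (c (a (nat_lit 0xb92d2d312c8))
 (c (a (nat_lit 0x1ee02020594b48)) e
 (c (a (nat_lit 0x1384404e400008)) e
 (c (a (nat_lit 0x1d2c000000006)) e e)))
 (c (a (nat_lit 0xc5515353529))
 (c (a (nat_lit 0x134fc040000007)) e e)
 (c (b (nat_lit 0x1feeee8f3146)) e
 (c (a (nat_lit 0x216160d5e7)) e
 (c (a (nat_lit 0x40c02cdf48)) e
 (c (a (nat_lit 0xb0a137b8089)) e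
 (c (a (nat_lit 0x6ae786a48e9)) e
 (c (a (nat_lit 0x2d7d019a6c9)) e e))))))))
 (c (a (nat_lit 0x16d7206003))
 (c (a (nat_lit 0x12141a19c66))
 (c (a (nat_lit 0x10002000000007)) e e)
 (c (a (nat_lit 0x4040707d07)) e
 (c (a (nat_lit 0x2063869469)) e
 (c (b (nat_lit 0x1fe106913189)) e
 (c (a (nat_lit 0xa507c99fa29)) e e)))))
 (c (a (nat_lit 0x14a0202004))
 (c (a (nat_lit 0x2021873008)) e
 (c (b (nat_lit 0x1fe025bec428)) e
 (c (a (nat_lit 0x23b0211289)) e e)))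
 (c (a (nat_lit 0xa08001))
 (c (a (nat_lit 0x14113e04da8)) e
 (c z e
 (c z e
 (c (b (nat_lit 0x1ff315e58007)) e
 (c (a (nat_lit 0x128a60000008)) e e)))))
 (c (a (nat_lit 0x608021))
 (c (a (nat_lit 0x116b50c46047)) e
 (c (b (nat_lit 0x1ff248608047)) e
 (c (a (nat_lit 0x19ce02a00006)) e e)))
 (c (a (nat_lit 0x4101e1))
 (c (a (nat_lit 0x10e8ed20c004)) e
 (c (a (nat_lit 0xb9000000005)) e e))
 (c (a (nat_lit 0xc0c241))
 (c (a (nat_lit 0x1ec000000003)) e e)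
 (c (a (nat_lit 0x38bfc5)) e
 (c (a (nat_lit 0x7b9a63)) e
 (c (a (nat_lit 0x20405845)) e
 (c (a (nat_lit 0x1218e023c6)) e
 (c (a (nat_lit 0x3f602024)) e
 (c (a (nat_lit 0x180e0a061)) e
 (c (a (nat_lit 0xe0806001)) e
 (c (a (nat_lit 0x83408001)) e
 (c (a (nat_lit 0x1006200001)) e e)))))))))))))))))
 C26))) Tr.c Tr.e (nat_lit 0) C.cx C.cy
noncomputable def C28 : Tr := beta% (fun (c : Nat → Tr → Tr → Tr) (e : Tr) (z : Nat) (a b : Nat → Nat) =>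
 (c (a (nat_lit 0x202001))
 (c (a (nat_lit 0x1575152345))
 (c (a (nat_lit 0x12d6f6f6f627))
 (c (a (nat_lit 0x12941a6a8fe727)) e
 (c (a (nat_lit 0x12bf6a65200008)) e
 (c (a (nat_lit 0x13a62000000008)) e e)))
 (c (b (nat_lit 0x123ff2921528))
 (c (a (nat_lit 0x1e2e4200000008)) e e)
 (c (a (nat_lit 0x3010191dc7)) e
 (c (a (nat_lit 0xbec4e51f369)) e
 (c (a (nat_lit 0xa4d51126f49)) e
 (c z e
 (c z e
 (c (a (nat_lit 0x153a1dd38148)) e e))))))))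
 (c (a (nat_lit 0x35608064))
 (c (a (nat_lit 0x31b1749e88)) e
 (c (a (nat_lit 0x509abd051ca)) e
 (c (a (nat_lit 0xc2df3340c6a)) e
 (c z e
 (c z e
 (c z e
 (c (a (nat_lit 0x6332f65200a)) e e)))))))
 (c (a (nat_lit 0x1500402004))
 (c (a (nat_lit 0x6d3779b15a8)) e
 (c (a (nat_lit 0xb5598539169)) e
 (c z e
 (c z e
 (c (a (nat_lit 0x732126520a9)) e
 (c (a (nat_lit 0x1b7c08600009)) e e))))))
 (c (a (nat_lit 0x180c0c001))
 (c (a (nat_lit 0x976716a5ea8)) e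
 (c z e
 (c z e
 (c (a (nat_lit 0x106f8d22a009)) e
 (c (a (nat_lit 0x16aaa0000009)) e e)))))
 (c (a (nat_lit 0x608001))
 (c (a (nat_lit 0x16120fc22028)) e
 (c (a (nat_lit 0x102683e82028)) e
 (c (a (nat_lit 0x1ad58c600007)) e e)))
 (c (a (nat_lit 0x408121))
 (c (a (nat_lit 0x1ab76c6c005)) e
 (c (a (nat_lit 0x16cee0000006)) e e))
 (c (a (nat_lit 0x404001))
 (c (a (nat_lit 0x102000000005)) e e)
 (c (a (nat_lit 0x203a1c25)) e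
 (c (a (nat_lit 0x40205ca5)) e
 (c (a (nat_lit 0x792125ce8)) e
 (c (a (nat_lit 0x80cf3f2a8)) e
 (c (a (nat_lit 0x63a58e328)) e
 (c (a (nat_lit 0x36202028)) e
 (c (a (nat_lit 0x1610061)) e
 (c (a (nat_lit 0x7a2408001)) e
 (c (a (nat_lit 0x440600001)) e e))))))))))))))))
 (c (a (nat_lit 0x202021))
 (c (a (nat_lit 0xc0e06001))
 (c (a (nat_lit 0x1272745edf87)) e
 (c (a (nat_lit 0xb2d31f2e949)) e
 (c (a (nat_lit 0xc713207c7c9)) e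
 (c z e
 (c z e
 (c (a (nat_lit 0x111b3df0a6c8)) e
 (c (a (nat_lit 0x13b427200009)) e e)))))))
 (c (a (nat_lit 0x26140c001))
 (c (a (nat_lit 0x13b7fb0d9c68)) e
 (c (a (nat_lit 0x8eac6e5d08a)) e
 (c z e
 (c (a (nat_lit 0xd9718e9c029)) e
 (c (a (nat_lit 0x175bee62e009)) e
 (c (a (nat_lit 0x1344e000000a)) e e))))))
 (c (a (nat_lit 0x80406001))
 (c (b (nat_lit 0x11eb3ffc4c68)) e
 (c z e
 (c (a (nat_lit 0x1276ab230029)) e
 (c (a (nat_lit 0x13eb43800009)) e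
 (c (a (nat_lit 0x106000000008)) e e)))))
 (c (a (nat_lit 0x1a0a02001))
 (c (a (nat_lit 0x1b0fe4436208)) e
 (c (a (nat_lit 0x14084aa6c008)) e
 (c (a (nat_lit 0x120520000008)) e e)))
 (c (a (nat_lit 0x20a141))
 (c (a (nat_lit 0x54216c00003)) e
 (c (a (nat_lit 0x148000000005)) e e))
 (c (a (nat_lit 0x2e31c6)) e
 (c (a (nat_lit 0x2aef5108)) e
 (c z e
 (c z e
 (c (a (nat_lit 0x1b7b64b166)) e
 (c (a (nat_lit 0x123476ada8)) e
 (c (a (nat_lit 0x1295ca2c68)) e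
 (c (a (nat_lit 0x1b00204025)) e
 (c (a (nat_lit 0x1540202004)) e
 (c (a (nat_lit 0x280000001)) e e)))))))))))))))
 (c (a (nat_lit 0x202021))
 (c (a (nat_lit 0x80802001))
 (c (a (nat_lit 0xbefac92bb26)) e
 (c (a (nat_lit 0xa6888bd27c8)) e
 (c (a (nat_lit 0x46313a300e9)) e
 (c (a (nat_lit 0x87044c2c189)) e
 (c (a (nat_lit 0x10c4c1a00009)) e
 (c (a (nat_lit 0x10e000000007)) e e))))))
 (c (a (nat_lit 0x140a04001))
 (c (a (nat_lit 0x3a3d0c94069)) e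
 (c (a (nat_lit 0x3358801e02a)) e
 (c (a (nat_lit 0x10e821e1400a)) e
 (c (a (nat_lit 0x18e220000008)) e e))))
 (c (a (nat_lit 0xc0c08001))
 (c (a (nat_lit 0x1444e2c2e149)) e
 (c (a (nat_lit 0x160844c00008)) e
 (c (a (nat_lit 0x16c000000005)) e e)))
 (c (a (nat_lit 0x20235a44))
 (c (a (nat_lit 0x152960000006)) e e)
 (c (a (nat_lit 0x14b91d26)) e
 (c (a (nat_lit 0x75393d208)) e
 (c z e
 (c (a (nat_lit 0x16b6b873c7)) e
 (c (a (nat_lit 0x12d512d866)) e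
 (c (a (nat_lit 0xdadb089a7)) e
 (c (a (nat_lit 0x12582a6a46)) e
 (c (a (nat_lit 0x1060204025)) e
 (c (a (nat_lit 0x1000001)) e e)))))))))))))
 (c (nat_lit 1)
 (c (a (nat_lit 0x40604001))
 (c (a (nat_lit 0x5833816247)) e
 (c (a (nat_lit 0x1aedc242c149)) e
 (c (a (nat_lit 0x14e765e00008)) e
 (c (a (nat_lit 0x130000000005)) e e))))
 (c (a (nat_lit 0x20405da3))
 (c (a (nat_lit 0x16e92f034008)) e
 (c (a (nat_lit 0x1692a0000008)) e e))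
 (c (a (nat_lit 0x17b7f906))
 (c (a (nat_lit 0x1de000000006)) e e)
 (c (a (nat_lit 0x756d75747)) e
 (c (a (nat_lit 0x1579797768)) e
 (c z e
 (c (a (nat_lit 0x1ae043b2e6)) e
 (c (a (nat_lit 0xdf3f3c065)) e
 (c (a (nat_lit 0x1e85f22185)) e
 (c (a (nat_lit 0x570a04025)) e
 (c (a (nat_lit 0x320a0a001)) e
 (c (a (nat_lit 0x120000001)) e e))))))))))))
 (c (a (nat_lit 0x202021))
 (c (a (nat_lit 0x58e1192a5))
 (c (a (nat_lit 0x16d885400006)) e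
 (c (a (nat_lit 0x13e000000007)) e e))
 (c (a (nat_lit 0x991b1f1e8)) e
 (c (a (nat_lit 0x10f1318ca8)) e
 (c (a (nat_lit 0x1292928d48)) e
 (c (a (nat_lit 0x1adad9f1e7)) e
 (c (a (nat_lit 0x132f2dd1a7)) e
 (c (a (nat_lit 0x112080b845)) e
 (c (a (nat_lit 0x36036c3e5)) e
 (c (a (nat_lit 0x34a10025)) e
 (c (a (nat_lit 0x2a0a00001)) e e))))))))))
 (c (a (nat_lit 0x202021))
 (c (a (nat_lit 0x1a1a5a50a7)) e
 (c (a (nat_lit 0x10303026a8)) e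
 (c (a (nat_lit 0x19b9b992c7)) e
 (c (a (nat_lit 0x1454544dc7)) e
 (c (a (nat_lit 0x12f30c8c87)) e
 (c (a (nat_lit 0x1960202005)) e
 (c (a (nat_lit 0xe169a021)) e
 (c (a (nat_lit 0x182e10001)) e
 (c (a (nat_lit 0xe0000001)) e e)))))))))
 (c (a (nat_lit 0x404041))
 (c (a (nat_lit 0x171736b6c5)) e
 (c (a (nat_lit 0x11517151a7)) e
 (c (a (nat_lit 0x12b2b2edc7)) e
 (c (a (nat_lit 0x1373ae65c7)) e
 (c (a (nat_lit 0xa602034e6)) e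
 (c (a (nat_lit 0x3da565)) e
 (c (a (nat_lit 0x38400005)) e e)))))))
 (c (nat_lit 1)
 (c (a (nat_lit 0x1b3b3b0846)) e
 (c (a (nat_lit 0x1f3f35a327)) e
 (c (a (nat_lit 0x102b658788)) e
 (c (a (nat_lit 0x4402036c7)) e
 (c (a (nat_lit 0x2050c007)) e
 (c (a (nat_lit 0x40000001)) e e))))))
 (c (a (nat_lit 0x202021))
 (c (a (nat_lit 0x1131202027)) e
 (c (a (nat_lit 0x10874021a8)) e
 (c (a (nat_lit 0x40a06041)) e
 (c (a (nat_lit 0x80400001)) e e))))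
 (c (a (nat_lit 0x202041))
 (c (a (nat_lit 0x3ba02044)) e
 (c (a (nat_lit 0x5e0804001)) e
 (c (a (nat_lit 0x1260000005)) e e)))
 (c (a (nat_lit 0x202041))
 (c (a (nat_lit 0x20200001)) e e)
 (c (a (nat_lit 0x202021)) e
 (c (a (nat_lit 0x6041)) e
 (c (a (nat_lit 0x206021)) e
 (c (a (nat_lit 0x204061)) e
 (c (a (nat_lit 0x2001)) e
 (c (nat_lit 1) e
 (c (nat_lit 1) e
 (c (a (nat_lit 0x402001)) e
 (c (a (nat_lit 0x202001)) e
 (c (a (nat_lit 0x202001)) e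
 (c (a (nat_lit 0x2021)) e
 (c (a (nat_lit 0x200001)) e e)))))))))))))))))))))))) Tr.c Tr.e (nat_lit 0) C.cx C.cy
noncomputable def C29 : Tr := beta% (fun (c : Nat → Tr → Tr → Tr) (e : Tr) (z : Nat) (a b : Nat → Nat) =>
 (c (a (nat_lit 0x202001))
 (c (a (nat_lit 0xc0e0c0e0e1))
 (c (a (nat_lit 0x20c040d5fa22))
 (c z e
 (c (a (nat_lit 0x12d1f1452f513427)) e
 (c (a (nat_lit 0xf6e8b6fef35cca7)) e e)))
 (c (a (nat_lit 0x402032b045e4))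
 (c (a (nat_lit 0xb2ae40ace6d93a9)) e
 (c (a (nat_lit 0x148e74b776d2e009)) e e))
 (c (a (nat_lit 0x20246410f3c6))
 (c (a (nat_lit 0x1598553fe9400007)) e e)
 (c (a (nat_lit 0x260b10329e46)) e
 (c (a (nat_lit 0x2a6cdac51c767)) e
 (c (a (nat_lit 0xf36ffc0347de5)) e
 (c (b (nat_lit 0x4e85fec73aae6)) e
 (c (a (nat_lit 0xf0de18059b964)) e
 (c (a (nat_lit 0xea520fe702004)) e e)))))))))
 (c (a (nat_lit 0xc0c0e0a001))
 (c (a (nat_lit 0x202683c3fec6))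
 (c (a (nat_lit 0xca6adf5519106a9)) e
 (c (a (nat_lit 0xcf2b9f4ed80000a)) e e))
 (c (a (nat_lit 0x22c1871314c8))
 (c (a (nat_lit 0x17db399260000009)) e e)
 (c (a (nat_lit 0x22e70c318a89)) e
 (c z e
 (c z e
 (c z e
 (c (a (nat_lit 0x4847cbed146)) e
 (c (a (nat_lit 0x4659e10e00006)) e
 (c (a (nat_lit 0xcb0c000000006)) e e)))))))))
 (c (a (nat_lit 0x60608201))
 (c (a (nat_lit 0x1122ee5b1b0e7)) e
 (c z e
 (c z e
 (c z e
 (c z e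
 (c (a (nat_lit 0x4e975958b0006)) e
 (c (a (nat_lit 0xb190cc0000006)) e
 (c (a (nat_lit 0x11600000000006)) e e))))))))
 (c (a (nat_lit 0x12d2d2d2f385))
 (c (a (nat_lit 0x1d7a7ff9773ac8)) e
 (c (a (nat_lit 0x14b894f134b029)) e
 (c (a (nat_lit 0x1397d531ae4ec8)) e
 (c (b (nat_lit 0x13f4ebffe2e047)) e
 (c (a (nat_lit 0x871cdc7600007)) e
 (c (a (nat_lit 0x1308a000000007)) e e))))))
 (c (a (nat_lit 0xe8fd0906e67))
 (c (a (nat_lit 0x12cc0ef008eb08)) e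
 (c (a (nat_lit 0x9f953c528a567)) e
 (c (a (nat_lit 0x177103a882e007)) e
 (c (a (nat_lit 0x13ca6840000007)) e
 (c (a (nat_lit 0x10e00000000005)) e e)))))
 (c (a (nat_lit 0xe3050707147))
 (c (a (nat_lit 0x136985a89041c6)) e
 (c (a (nat_lit 0x104d324ee00007)) e
 (c (a (nat_lit 0x12792000000005)) e e)))
 (c (a (nat_lit 0x15d5f5f5f107))
 (c (a (nat_lit 0x199f6f60000006)) e e)
 (c (a (nat_lit 0x16d171a94724)) e
 (c (a (nat_lit 0x163836561a1)) e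
 (c (a (nat_lit 0xa123c9fb81)) e
 (c (a (nat_lit 0x1edf3ec6e904)) e
 (c (a (nat_lit 0x1878384ecd45)) e
 (c (a (nat_lit 0x1b5b7f9b99c5)) e
 (c (a (nat_lit 0xd00035f5c3)) e
 (c (a (nat_lit 0x1fc040200002)) e
 (c (a (nat_lit 0x4000000001)) e e))))))))))))))))
 (c (a (nat_lit 0x20002021))
 (c (a (nat_lit 0x40a0806001))
 (c (a (nat_lit 0x23e1893553e6))
 (c (a (nat_lit 0xa503c1812e50008)) e
 (c (a (nat_lit 0xdd792ee0000000a)) e e))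
 (c (a (nat_lit 0x1258322a250e9))
 (c (a (nat_lit 0x180eeac00000000a)) e e)
 (c z e
 (c z e
 (c z e
 (c z e
 (c (a (nat_lit 0xcc7d87b90c007)) e
 (c (a (nat_lit 0x8374d60000007)) e
 (c (a (nat_lit 0x19600000000006)) e e)))))))))
 (c (a (nat_lit 0x117171724a26))
 (c (a (nat_lit 0x4c74f9a397909))
 (c (a (nat_lit 0x9f0c00000000007)) e e)
 (c z e
 (c z e
 (c z e
 (c z e
 (c (a (nat_lit 0x12db1c11400008)) e
 (c (a (nat_lit 0x17ccc000000008)) e e)))))))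
 (c (a (nat_lit 0x11918ff19948)) e
 (c z e
 (c z e
 (c z e
 (c (a (nat_lit 0x1b195941e104)) e
 (c (a (nat_lit 0x1efebe01a002)) e
 (c (a (nat_lit 0x20a2b0e5)) e
 (c (a (nat_lit 0x169643a0c006)) e
 (c (a (nat_lit 0x1e9e67632b26)) e
 (c (a (nat_lit 0x1475ea804ae6)) e
 (c (a (nat_lit 0x66060942005)) e
 (c (a (nat_lit 0x4100000001)) e e))))))))))))))
 (c (a (nat_lit 0x20204001))
 (c (a (nat_lit 0xb8b8bb2ec46))
 (c (a (nat_lit 0x88adbce321367)) e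
 (c z e
 (c z e
 (c z e
 (c z e
 (c (a (nat_lit 0x1a51a140000005)) e
 (c (a (nat_lit 0x1ac00000000005)) e e)))))))
 (c z e
 (c z e
 (c z e
 (c z e
 (c (a (nat_lit 0x464a2c0b305)) e
 (c (a (nat_lit 0x60408030a5)) e
 (c (a (nat_lit 0x81ee5464)) e
 (c (a (nat_lit 0x782206032e8)) e
 (c (a (nat_lit 0x7c027726ec8)) e
 (c (a (nat_lit 0x6403cafcbc7)) e
 (c (a (nat_lit 0xa0c0e00001)) e
 (c (a (nat_lit 0x2000000001)) e e)))))))))))))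
 (c (a (nat_lit 0x3e01))
 (c (a (nat_lit 0x12777cdb8048))
 (c (a (nat_lit 0x17d1b83adaf388)) e e)
 (c (a (nat_lit 0x9b2f3c74349))
 (c z e
 (c (a (nat_lit 0xa327409e00009)) e e))
 (c (a (nat_lit 0x39a6ef02ba8))
 (c (a (nat_lit 0x125548c0000008)) e e)
 (c (a (nat_lit 0xf5434388bc6)) e
 (c (a (nat_lit 0x480c04530c7)) e
 (c (a (nat_lit 0x20299307)) e
 (c (a (nat_lit 0xc0234e7488)) e
 (c (a (nat_lit 0x26512969)) e
 (c (a (nat_lit 0x29d6692648)) e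
 (c (a (nat_lit 0x15fef32b8008)) e
 (c (a (nat_lit 0x1526a0000008)) e e)))))))))))
 (c (a (nat_lit 0x4053b342))
 (c (a (nat_lit 0xbadf0240528))
 (c (a (nat_lit 0x5eb4d90438007)) e
 (c (a (nat_lit 0x145974c0000007)) e e))
 (c (a (nat_lit 0x1b9e6c650107))
 (c (a (nat_lit 0x10ed6000000006)) e e)
 (c (a (nat_lit 0x16a98ccc2d27)) e
 (c (a (nat_lit 0x6c106afd327)) e
 (c (a (nat_lit 0x26bd74c7)) e
 (c (a (nat_lit 0x22d1f723a8)) e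
 (c (a (nat_lit 0xcde2219c8)) e e)))))))
 (c (a (nat_lit 0xa9cdcdcc7))
 (c (a (nat_lit 0x1a9f4dcdde46)) e
 (c (a (nat_lit 0x12304d95cc88)) e
 (c (a (nat_lit 0x88e586b3147)) e
 (c (a (nat_lit 0x752cf11c6c7)) e
 (c (a (nat_lit 0x1373fab400a7)) e
 (c (a (nat_lit 0x87532259c88)) e e))))))
 (c (a (nat_lit 0x1474740c28))
 (c (a (nat_lit 0x1bb77d3291e7)) e
 (c (a (nat_lit 0xc5087c844c8)) e
 (c (a (nat_lit 0x186e104dc067)) e
 (c (b (nat_lit 0xacf2dbff4c8)) e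
 (c (a (nat_lit 0xe2da672c949)) e e)))))
 (c (a (nat_lit 0x1737513105))
 (c (a (nat_lit 0x1dc78560aea5)) e
 (c (a (nat_lit 0xfb1455013a5)) e
 (c (a (nat_lit 0x31027307e85)) e
 (c (a (nat_lit 0x30d1484006)) e
 (c (a (nat_lit 0x13ede0000005)) e e)))))
 (c (a (nat_lit 0x1700202023))
 (c (a (nat_lit 0x126303c68ea4)) e
 (c (a (nat_lit 0x2e42105d0a5)) e
 (c (a (nat_lit 0x1420e00003)) e
 (c (a (nat_lit 0x1fc000000001)) e e))))
 (c (a (nat_lit 0x80a0a001))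
 (c (a (nat_lit 0x15e1642f8003)) e
 (c (a (nat_lit 0x1561e0000004)) e e))
 (c (a (nat_lit 0x40804061))
 (c (a (nat_lit 0x102000000003)) e e)
 (c (a (nat_lit 0x20202001)) e
 (c (a (nat_lit 0x20204001)) e
 (c (a (nat_lit 0x406281)) e
 (c (a (nat_lit 0x1e9eb87744)) e
 (c (a (nat_lit 0x1c41002142)) e
 (c (a (nat_lit 0x604041)) e
 (c (a (nat_lit 0x120804041)) e
 (c (a (nat_lit 0xe0e08001)) e
 (c (a (nat_lit 0x1c1406001)) e
 (c (a (nat_lit 0xc0000001)) e e)))))))))))))))))))))) Tr.c Tr.e (nat_lit 0) C.cx C.cy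
noncomputable def C30 : Tr := beta% (fun (c : Nat → Tr → Tr → Tr) (e : Tr) (z : Nat) (a b : Nat → Nat) =>
 (c (a (nat_lit 0x2021))
 (c (a (nat_lit 0x202021)) C29
 (c (a (nat_lit 0x202041))
 (c (a (nat_lit 0x20002021))
 (c (a (nat_lit 0x10505050e065))
 (c (a (nat_lit 0x7c826447f06))
 (c z e
 (c (a (nat_lit 0x131029a000000009)) e e))
 (c (a (nat_lit 0x1c48ed49e1b08))
 (c (a (nat_lit 0x16c8c00000000009)) e e)
 (c z e
 (c z e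
 (c z e
 (c (a (nat_lit 0xe044a4ad973c7)) e
 (c (a (nat_lit 0x1ce3773800006)) e
 (c (a (nat_lit 0x19fc8000000004)) e e))))))))
 (c (a (nat_lit 0x147469edc026))
 (c (a (nat_lit 0x4905454f5cd09))
 (c (a (nat_lit 0x10a0000000000007)) e e)
 (c z e
 (c z e
 (c z e
 (c (a (nat_lit 0x7058834da4008)) e e)))))
 (c z e
 (c z e
 (c z e
 (c (b (nat_lit 0x99ff1016ba4)) e
 (c (a (nat_lit 0x8e7c0605025)) e
 (c (a (nat_lit 0x74720403225)) e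
 (c (a (nat_lit 0x6197f0c4)) e
 (c (a (nat_lit 0xbe24021b987)) e
 (c (a (nat_lit 0x110266f15bc7)) e
 (c (a (nat_lit 0x1f00aae04005)) e
 (c (a (nat_lit 0x23640a00001)) e
 (c (a (nat_lit 0x150000000001)) e e))))))))))))))
 (c (a (nat_lit 0x20203807))
 (c (b (nat_lit 0x66bd5379fe7))
 (c (a (nat_lit 0xf8ad413f0a028)) e
 (c z e
 (c z e
 (c z e
 (c (a (nat_lit 0x742f47fa00008)) e e)))))
 (c z e
 (c z e
 (c z e
 (c (a (nat_lit 0xdb04f31e007)) e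
 (c (a (nat_lit 0x400602dd246)) e
 (c (a (nat_lit 0x721407820e5)) e
 (c (a (nat_lit 0x199306004)) e
 (c (a (nat_lit 0x400433571c8)) e
 (c (a (nat_lit 0x443c835cb49)) e
 (c (a (nat_lit 0x641190a4008)) e
 (c (a (nat_lit 0x3a00000006)) e e))))))))))))
 (c (a (nat_lit 0x20382287))
 (c z e
 (c z e
 (c z e
 (c z e
 (c (a (nat_lit 0x402d94c2e7)) e
 (c (a (nat_lit 0x2028eef048)) e
 (c (a (nat_lit 0x21ead192c9)) e
 (c (a (nat_lit 0x25f8f83a89)) e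
 (c (a (nat_lit 0x258e70432a)) e
 (c (a (nat_lit 0xcf06b60000a)) e
 (c (a (nat_lit 0xe000000001)) e e)))))))))))
 (c (a (nat_lit 0x833d3d3a7)) e
 (c z e
 (c (a (nat_lit 0x1979604004))
 (c (a (nat_lit 0x58be38055a7)) e
 (c (b (nat_lit 0x1ffffff34087)) e e))
 (c (a (nat_lit 0x1720402004))
 (c (b (nat_lit 0x1ff3e2f543c5)) e
 (c (b (nat_lit 0x1ffaa3610b45)) e
 (c (a (nat_lit 0x213c8ef5b85)) e
 (c (a (nat_lit 0x593c1a00007)) e e))))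
 (c (a (nat_lit 0x60a14161))
 (c (a (nat_lit 0x10a0a0a28f05)) e
 (c (a (nat_lit 0x20c25ce004)) e
 (c (a (nat_lit 0x154120000006)) e e)))
 (c (a (nat_lit 0x806080e1))
 (c (a (nat_lit 0x1c514d600002)) e
 (c (a (nat_lit 0x102000000004)) e e))
 (c (a (nat_lit 0x608061)) e
 (c (a (nat_lit 0x8100e001)) e
 (c (a (nat_lit 0x60605842)) e
 (c (a (nat_lit 0xff0002026)) e
 (c (a (nat_lit 0x521a10001)) e
 (c (a (nat_lit 0x602610001)) e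
 (c (a (nat_lit 0x6040c121)) e
 (c (a (nat_lit 0x80c001)) e
 (c (a (nat_lit 0x2a1e04001)) e
 (c (a (nat_lit 0x4e1200001)) e e)))))))))))))))))))
 (c (a (nat_lit 0x204021))
 (c (a (nat_lit 0x20372107))
 (c (a (nat_lit 0x70e536fa1a6))
 (c (a (nat_lit 0x6cf155513b1c6)) e
 (c (a (nat_lit 0x969d0396ea5e8)) e
 (c z e
 (c (a (nat_lit 0x4830d150ba008)) e
 (c (a (nat_lit 0x13fa7f20000007)) e e)))))
 (c z e
 (c z e
 (c z e
 (c (a (nat_lit 0xabafed5f147)) e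
 (c (a (nat_lit 0xbabb1122007)) e
 (c (a (nat_lit 0xe4df23187c7)) e
 (c (a (nat_lit 0xa6ab00eb607)) e
 (c (a (nat_lit 0x3a5114ce028)) e
 (c (a (nat_lit 0x1e2d317c3e8)) e
 (c (a (nat_lit 0x2573800008)) e
 (c (a (nat_lit 0x17a000000006)) e e))))))))))))
 (c (b (nat_lit 0xb5ffff146)) e
 (c z e
 (c (a (nat_lit 0x157d406044))
 (c (a (nat_lit 0x352961416c8)) e
 (c (b (nat_lit 0x1ffef57a5f47)) e e))
 (c (a (nat_lit 0x1c20402004))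
 (c (a (nat_lit 0xecce3d05c7)) e e)
 (c (a (nat_lit 0x141410041))
 (c (a (nat_lit 0x3a90ee0026)) e
 (c (b (nat_lit 0x1feb110284e7)) e
 (c (a (nat_lit 0x33aed874006)) e
 (c (a (nat_lit 0x19e600000007)) e e))))
 (c (a (nat_lit 0x80c181))
 (c (a (nat_lit 0x10e0e0acc2a5)) e
 (c (a (nat_lit 0x1c841a800004)) e
 (c (a (nat_lit 0x150000000005)) e e)))
 (c (a (nat_lit 0xe06080a1))
 (c (a (nat_lit 0x11aba0000005)) e e)
 (c (a (nat_lit 0x806001)) e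
 (c (a (nat_lit 0x203b9f06)) e
 (c (a (nat_lit 0x2736faa7)) e
 (c (a (nat_lit 0x764037a5)) e
 (c (a (nat_lit 0x3d3d2385)) e
 (c (a (nat_lit 0x6100c0a1)) e
 (c (a (nat_lit 0x41014021)) e
 (c (a (nat_lit 0x2c04001)) e
 (c (a (nat_lit 0xbc4606001)) e
 (c (a (nat_lit 0x3e0000001)) e e))))))))))))))))))
 C28)))
 (c (a (nat_lit 0x2021)) C27
 (c (a (nat_lit 0x2021))
 (c (a (nat_lit 0x202021))
 (c (a (nat_lit 0xe2c30001))
 (c (a (nat_lit 0x13b3f39c9bc3))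
 (c z e
 (c (a (nat_lit 0xad202a74836e6)) e
 (c (a (nat_lit 0x16a028a5468005)) e
 (c (a (nat_lit 0x11d041e0000005)) e
 (c (a (nat_lit 0x11400000000005)) e e)))))
 (c (a (nat_lit 0x1859989cfba4))
 (c (a (nat_lit 0x1b602023326d67)) e
 (c (a (nat_lit 0x19e041c1600005)) e
 (c (a (nat_lit 0x1fc0c000000002)) e e)))
 (c (a (nat_lit 0xdf1f1f413c5))
 (c (a (nat_lit 0x14363e0000001)) e e)
 (c (a (nat_lit 0xd0d2cd09084)) e
 (c (a (nat_lit 0x106b8b8dcd25)) e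
 (c (a (nat_lit 0xa0a0a17506)) e
 (c (a (nat_lit 0x2408030a026)) e
 (c (a (nat_lit 0x645deb7d625)) e
 (c (a (nat_lit 0x3bd4cb64e86)) e
 (c (a (nat_lit 0x1d2f4e800005)) e
 (c (a (nat_lit 0x1e0000000003)) e e)))))))))))
 (c (a (nat_lit 0x83da02003))
 (c (a (nat_lit 0x10f0f0f0f0a7))
 (c (a (nat_lit 0x2223b2cbc007)) e
 (c (a (nat_lit 0xfa8c7c0000001)) e
 (c (a (nat_lit 0x9c00000000001)) e e)))
 (c (a (nat_lit 0x4d797977787))
 (c (a (nat_lit 0x1d002000000006)) e e)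
 (c (a (nat_lit 0xe9130f0ed26)) e
 (c (a (nat_lit 0x4e4e5033f07)) e
 (c (b (nat_lit 0x3434276bfe8)) e
 (c (a (nat_lit 0x42530868709)) e
 (c (a (nat_lit 0x374671e7c8)) e
 (c (a (nat_lit 0xec933e70008)) e
 (c (a (nat_lit 0x9f3e0000006)) e e)))))))))
 (c (a (nat_lit 0x1900604022))
 (c (a (nat_lit 0xf4f90311084))
 (c (a (nat_lit 0x1c400000000005)) e e)
 (c (a (nat_lit 0x202034a8)) e
 (c (a (nat_lit 0x2020b77c28)) e
 (c (a (nat_lit 0x60919ad1a9)) e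
 (c (a (nat_lit 0x30c52aec469)) e
 (c (a (nat_lit 0x95151a360c9)) e
 (c (a (nat_lit 0x169223e00009)) e e)))))))
 (c (a (nat_lit 0x806061))
 (c (a (nat_lit 0x406031fc27)) e
 (c (a (nat_lit 0x201f6b14ce8)) e
 (c (b (nat_lit 0x4f32d875fe8)) e
 (c (a (nat_lit 0x110511808487)) e
 (c (a (nat_lit 0x1cdf0d84e007)) e
 (c (a (nat_lit 0x16e4a0000008)) e e))))))
 (c (a (nat_lit 0x60404021))
 (c (a (nat_lit 0x536c2c587c7)) e
 (c z e
 (c (b (nat_lit 0xfff1456086)) e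
 (c (a (nat_lit 0xc3d45c00006)) e
 (c (a (nat_lit 0x16a000000003)) e e)))))
 (c (a (nat_lit 0x204001))
 (c (a (nat_lit 0x99e042e146)) e
 (c (a (nat_lit 0x43fd68e005)) e
 (c (a (nat_lit 0x104680000006)) e e)))
 (c (a (nat_lit 0x406081))
 (c (a (nat_lit 0x1418c2c00004)) e
 (c (a (nat_lit 0x1bc000000005)) e e))
 (c (a (nat_lit 0x202ad1c4)) e
 (c (a (nat_lit 0xeb07066)) e
 (c (a (nat_lit 0x1cbc9c64)) e
 (c (a (nat_lit 0x60809a43)) e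
 (c (a (nat_lit 0xcb1c9e406)) e
 (c (a (nat_lit 0x163804001)) e
 (c (a (nat_lit 0x60a12141)) e
 (c (a (nat_lit 0x840804001)) e
 (c (a (nat_lit 0x1c1a02001)) e
 (c (a (nat_lit 0x420000001)) e e)))))))))))))))))
 C25)
 (c (a (nat_lit 0x2021)) C24
 C23))))) Tr.c Tr.e (nat_lit 0) C.cx C.cy
noncomputable def C31 : Tr := beta% (fun (c : Nat → Tr → Tr → Tr) (e : Tr) (z : Nat) (a b : Nat → Nat) =>
 (c (a (nat_lit 0x202021))
 (c (b (nat_lit 0x1fffe0a001))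
 (c (a (nat_lit 0xb0b2b3010a7)) e
 (c (a (nat_lit 0xbab0fb12968)) e
 (c z e
 (c z e
 (c z e
 (c (a (nat_lit 0x13fccf402cc7)) e
 (c (a (nat_lit 0x10309488c008)) e e)))))))
 (c (a (nat_lit 0xbc0a02001))
 (c (a (nat_lit 0xed2b6ce13a7)) e
 (c (a (nat_lit 0xdb12a2e5308)) e
 (c (a (nat_lit 0x106eb3b5b108)) e
 (c (a (nat_lit 0x105392aec7e8)) e
 (c (a (nat_lit 0x1298b448e028)) e
 (c (a (nat_lit 0x122fa6800009)) e e))))))
 (c (a (nat_lit 0x140a0a001))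
 (c (a (nat_lit 0xf2db3087387)) e
 (c (a (nat_lit 0xe5391202a08)) e
 (c (a (nat_lit 0x135aae1020c8)) e
 (c (a (nat_lit 0x9f04d82c008)) e
 (c (a (nat_lit 0x1c6bc0000008)) e e)))))
 (c (a (nat_lit 0x1c1406001))
 (c (a (nat_lit 0x9f14b02c008)) e
 (c (a (nat_lit 0x13e323a22048)) e
 (c (a (nat_lit 0xcb724a00007)) e e)))
 (c (a (nat_lit 0x20404001))
 (c (a (nat_lit 0x6136356004)) e
 (c (a (nat_lit 0x14ea20000005)) e e))
 (c (a (nat_lit 0x60404001))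
 (c (a (nat_lit 0x1b4000000003)) e e)
 (c (a (nat_lit 0x202e1186)) e
 (c (a (nat_lit 0xe31b1a6)) e
 (c z e
 (c (a (nat_lit 0x12f2caaaa7)) e
 (c (a (nat_lit 0x1444602a46)) e
 (c (a (nat_lit 0xf2f3452e7)) e
 (c (a (nat_lit 0xdd2e964a7)) e
 (c (a (nat_lit 0x11e0202026)) e
 (c (a (nat_lit 0x60400001)) e e)))))))))))))))
 (c (nat_lit 1)
 (c (a (nat_lit 0x80408001))
 (c (a (nat_lit 0x46b8ac9df45)) e
 (c (a (nat_lit 0x74788cef087)) e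
 (c (a (nat_lit 0x424a33041c8)) e
 (c (a (nat_lit 0x9edbf660367)) e
 (c (a (nat_lit 0xb1185a1a008)) e
 (c (a (nat_lit 0x11e420000008)) e e))))))
 (c (a (nat_lit 0x120c04001))
 (c (a (nat_lit 0xe9172fe3286)) e
 (c (a (nat_lit 0x4a1f3e74149)) e
 (c (a (nat_lit 0x173a6ca48228)) e
 (c (a (nat_lit 0x1bace2c00008)) e
 (c (a (nat_lit 0x1f4000000006)) e e)))))
 (c (a (nat_lit 0x160c06001))
 (c (a (nat_lit 0x539650280a8)) e
 (c (a (nat_lit 0x1004a0410009)) e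
 (c (a (nat_lit 0x154340000007)) e e)))
 (c (a (nat_lit 0xa0606001))
 (c (a (nat_lit 0x15e300a00006)) e
 (c (a (nat_lit 0x162000000004)) e e))
 (c (a (nat_lit 0x20231a24)) e
 (c (a (nat_lit 0x2fd1b1a7)) e
 (c z e
 (c (a (nat_lit 0x1c5c7c7e26)) e
 (c (a (nat_lit 0x1f9f7dbd84)) e
 (c (a (nat_lit 0xcf08d5185)) e
 (c (a (nat_lit 0x1090b52d25)) e
 (c (a (nat_lit 0xcfec08063)) e
 (c (a (nat_lit 0x1140202004)) e
 (c (a (nat_lit 0x16a0000004)) e e))))))))))))))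
 (c (nat_lit 1)
 (c (a (nat_lit 0x120c06001))
 (c (a (nat_lit 0xba053cfe025)) e
 (c (a (nat_lit 0x582c230028)) e
 (c (a (nat_lit 0x16b329e80007)) e
 (c (a (nat_lit 0x13c660000006)) e e))))
 (c (a (nat_lit 0xe0604001))
 (c (a (nat_lit 0x1126c1a08069)) e
 (c (a (nat_lit 0x152be8000008)) e
 (c (a (nat_lit 0x184000000005)) e e)))
 (c (a (nat_lit 0x20225ee3))
 (c (a (nat_lit 0x144a40000007)) e e)
 (c (a (nat_lit 0x34b85846)) e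
 (c (a (nat_lit 0xf3898b5c7)) e
 (c z e
 (c (a (nat_lit 0x2a300bd42)) e
 (c (a (nat_lit 0x1dbd1cfce4)) e
 (c (a (nat_lit 0xa6cecb0e5)) e
 (c (a (nat_lit 0x144bf443e4)) e
 (c (a (nat_lit 0x4b58064e3)) e
 (c (a (nat_lit 0x17c0400004)) e e))))))))))))
 (c (nat_lit 1)
 (c (a (nat_lit 0x60201d22))
 (c (a (nat_lit 0x1d147103e005)) e
 (c (a (nat_lit 0x1047c0000007)) e e))
 (c (a (nat_lit 0x19b5efee6))
 (c (a (nat_lit 0x19c000000005)) e e)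
 (c (a (nat_lit 0xe70303027)) e
 (c (a (nat_lit 0x1111112fc7)) e
 (c (a (nat_lit 0x1cdcfc9c86)) e
 (c (a (nat_lit 0x18787877e5)) e
 (c (a (nat_lit 0x12b28aaa85)) e
 (c (a (nat_lit 0xfc9c9d065)) e
 (c (a (nat_lit 0xa032dd0e5)) e
 (c (a (nat_lit 0xa59cde004)) e
 (c (a (nat_lit 0x15a0000004)) e e)))))))))))
 (c (a (nat_lit 0x202021))
 (c (a (nat_lit 0x1a9c7c7c66)) e
 (c (a (nat_lit 0x1898988647)) e
 (c (a (nat_lit 0x1dddbdb346)) e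
 (c (a (nat_lit 0x1737373726)) e
 (c (a (nat_lit 0x11d1b1ca86)) e
 (c (a (nat_lit 0x106e402005)) e
 (c (a (nat_lit 0x1c4e003865)) e
 (c (a (nat_lit 0x100386b45)) e
 (c (a (nat_lit 0x39a400004)) e e)))))))))
 (c (a (nat_lit 0x202021))
 (c (a (nat_lit 0x17b7b6b6c4)) e
 (c (a (nat_lit 0x1333331326)) e
 (c (a (nat_lit 0x1515353566)) e
 (c (a (nat_lit 0x1696b6f2a6)) e
 (c (a (nat_lit 0x14354027e4)) e
 (c (a (nat_lit 0x880279265)) e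
 (c (a (nat_lit 0x1595a004)) e
 (c (nat_lit 1) e e))))))))
 (c (nat_lit 1)
 (c (a (nat_lit 0x1d1d1d1ce5)) e
 (c (a (nat_lit 0x1edeb8b046)) e
 (c (a (nat_lit 0x11110b8ca7)) e
 (c (a (nat_lit 0x1141258445)) e
 (c (a (nat_lit 0xed795b5a4)) e
 (c (a (nat_lit 0x980000001)) e e))))))
 (c (a (nat_lit 0x202021))
 (c (a (nat_lit 0x1adad878e5)) e
 (c (a (nat_lit 0x1bfb9c1d46)) e
 (c (a (nat_lit 0x1024c02005)) e
 (c (a (nat_lit 0x1760202004)) e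
 (c (a (nat_lit 0x20000001)) e e)))))
 (c (a (nat_lit 0x2021))
 (c (a (nat_lit 0x1131514967)) e
 (c (a (nat_lit 0x1a63004023)) e
 (c (a (nat_lit 0x10e0200003)) e e)))
 (c (a (nat_lit 0x202021))
 (c (a (nat_lit 0x20202001)) e
 (c (a (nat_lit 0x20000001)) e e))
 (c (a (nat_lit 0x202021)) e
 (c (a (nat_lit 0x202021)) e
 (c (a (nat_lit 0x2021)) e
 (c (a (nat_lit 0x404021)) e
 (c (a (nat_lit 0x200001)) e
 (c (a (nat_lit 0x6001)) e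
 (c (a (nat_lit 0x200001)) e
 (c (nat_lit 1) e
 (c (a (nat_lit 0x402001)) e
 (c (a (nat_lit 0x802001)) e
 (c (a (nat_lit 0x604001)) e
 (c (a (nat_lit 0x602001)) e e))))))))))))))))))))))) Tr.c Tr.e (nat_lit 0) C.cx C.cy
noncomputable def C32 : Tr := beta% (fun (c : Nat → Tr → Tr → Tr) (e : Tr) (z : Nat) (a b : Nat → Nat) =>
 (c (a (nat_lit 0x404041))
 (c (a (nat_lit 0x20202021))
 (c (a (nat_lit 0x62686c725e1))
 (c (a (nat_lit 0x4a9e71bc06443))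
 (c z e
 (c (a (nat_lit 0xdb7574920000008)) e e))
 (c (a (nat_lit 0xe025e71095e7))
 (c (a (nat_lit 0x15d2e58000000009)) e e)
 (c (a (nat_lit 0x26dad4ff04c68)) e
 (c z e
 (c z e
 (c z e
 (c (a (nat_lit 0x62a9b3b56004)) e e)))))))
 (c (a (nat_lit 0x1b1b9bdfe102))
 (c (a (nat_lit 0x36589b9b7d87))
 (c (a (nat_lit 0x16e5600000000008)) e e)
 (c z e
 (c z e
 (c z e
 (c z e
 (c (a (nat_lit 0x23d424600005)) e
 (c (a (nat_lit 0x1f9c0000000005)) e e)))))))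
 (c (a (nat_lit 0x8e8f0b08bc6))
 (c z e
 (c z e
 (c z e
 (c z e
 (c z e
 (c (a (nat_lit 0x1a00000000001)) e e))))))
 (c z e
 (c z e
 (c z e
 (c (a (nat_lit 0x111111284745)) e
 (c (a (nat_lit 0x137211c041c3)) e
 (c (a (nat_lit 0xa1d72ec2)) e
 (c (a (nat_lit 0x19f9686048a5)) e
 (c (a (nat_lit 0x1cfd6e0dd785)) e
 (c (a (nat_lit 0x17b0e60ea805)) e
 (c (a (nat_lit 0x2033202003)) e
 (c (a (nat_lit 0x3320000003)) e e))))))))))))))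
 (c (a (nat_lit 0x40202021))
 (c (a (nat_lit 0x13130c2c4025))
 (c (a (nat_lit 0x18d50f0704d87)) e
 (c (a (nat_lit 0x92ad3e907ec29)) e e))
 (c (a (nat_lit 0x609eb74a7c7))
 (c (a (nat_lit 0xe724c9152c969)) e e)
 (c z e
 (c z e
 (c z e
 (c (a (nat_lit 0xa8a068156e4)) e
 (c (a (nat_lit 0x11f2c0a21fa3)) e
 (c (a (nat_lit 0x354ba2003)) e
 (c (a (nat_lit 0x1ac7066696a6)) e
 (c (a (nat_lit 0x1989e8a09d07)) e
 (c (a (nat_lit 0x13a8212ab547)) e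
 (c (a (nat_lit 0x160080a00004)) e
 (c (a (nat_lit 0x6000000001)) e e)))))))))))))
 (c (a (nat_lit 0x1902))
 (c (b (nat_lit 0xeafb5f45fe8))
 (c (a (nat_lit 0xb6b6ff1b142e8)) e e)
 (c z e
 (c z e
 (c z e
 (c (a (nat_lit 0x28342297ae6)) e
 (c (a (nat_lit 0x1c181fd7ec6)) e
 (c (a (nat_lit 0x6027c7d048)) e
 (c (a (nat_lit 0x4443f41308)) e
 (c z e
 (c (a (nat_lit 0x290d182008)) e
 (c (a (nat_lit 0x3f820000007)) e e)))))))))))
 (c (a (nat_lit 0x1cbc62))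
 (c z e
 (c (b (nat_lit 0xf921fffffe8))
 (c (a (nat_lit 0x10ebc000000008)) e e)
 (c z e
 (c (a (nat_lit 0x1a1876ddbe7)) e
 (c (a (nat_lit 0x501ee907)) e
 (c (a (nat_lit 0x2a1cfb94c7)) e e))))))
 (c (a (nat_lit 0xe77d7d7a6))
 (c (a (nat_lit 0x16592d2d4ae7))
 (c (a (nat_lit 0x19400000000005)) e e)
 (c z e
 (c z e
 (c (a (nat_lit 0x9a9767bd626)) e e))))
 (c z e
 (c (a (nat_lit 0x1b1b127245))
 (c (b (nat_lit 0x2ffe4dbeba5)) e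
 (c (b (nat_lit 0x1feb1540b266)) e
 (c (b (nat_lit 0x1ff52c16f0e6)) e
 (c (a (nat_lit 0x8aa95c68006)) e
 (c (a (nat_lit 0x5b220000007)) e e)))))
 (c (a (nat_lit 0x10c0202024))
 (c (a (nat_lit 0x15d0a0276545)) e
 (c (a (nat_lit 0x1861aa2505a4)) e
 (c (a (nat_lit 0x844c3e00001)) e
 (c (a (nat_lit 0x16e000000004)) e e))))
 (c (a (nat_lit 0xa080e041))
 (c (a (nat_lit 0x1243e3202003)) e
 (c (a (nat_lit 0x5b080000001)) e e))
 (c (a (nat_lit 0x20608061))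
 (c (a (nat_lit 0x3c000000001)) e e)
 (c (a (nat_lit 0x406041)) e
 (c (a (nat_lit 0x60a0a081)) e
 (c (a (nat_lit 0x1adadb1ac4)) e
 (c (a (nat_lit 0x20a120a1)) e
 (c (a (nat_lit 0x1be0804043)) e
 (c (a (nat_lit 0xc100e1)) e
 (c (a (nat_lit 0xa0a10001)) e
 (c (a (nat_lit 0x802001)) e
 (c (a (nat_lit 0x701204001)) e
 (c (a (nat_lit 0x120000001)) e e))))))))))))))))))))
 (c (a (nat_lit 0x404041))
 (c (a (nat_lit 0x202037c6))
 (c (a (nat_lit 0x1347e80c8024))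
 (c (a (nat_lit 0xcae927050c585)) e
 (c (a (nat_lit 0xfd4ebad2fe027)) e
 (c z e
 (c (a (nat_lit 0xeb04b4ef349e7)) e
 (c (b (nat_lit 0xedfe756600005)) e e)))))
 (c (b (nat_lit 0x869d0309fe7))
 (c (a (nat_lit 0x10c96dd2c9c0a8)) e e)
 (c z e
 (c (a (nat_lit 0x10513111a027)) e
 (c (a (nat_lit 0xef10fb0c066)) e
 (c (a (nat_lit 0x6283566003)) e
 (c (a (nat_lit 0x8117a003)) e
 (c (a (nat_lit 0x2789440e3)) e
 (c (a (nat_lit 0x661605fc025)) e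
 (c (a (nat_lit 0x542e159c026)) e
 (c (a (nat_lit 0x100453a6005)) e
 (c (a (nat_lit 0x1ee0000003)) e e))))))))))))
 (c (a (nat_lit 0x3800e7))
 (c (b (nat_lit 0xab79b6c1fe7))
 (c (a (nat_lit 0x6f03817e067a7)) e e)
 (c z e
 (c (a (nat_lit 0x1c3376468267)) e
 (c (a (nat_lit 0x12d376af8ea7)) e
 (c (a (nat_lit 0xc5d0a127)) e
 (c (a (nat_lit 0x35326067)) e
 (c (a (nat_lit 0x5a1fe1bfc6)) e
 (c (b (nat_lit 0x2814cfebfe7)) e
 (c (a (nat_lit 0x44035a8a4e8)) e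
 (c (a (nat_lit 0x30a6800008)) e
 (c (a (nat_lit 0x13e000000007)) e e)))))))))))
 (c (a (nat_lit 0xe10505026))
 (c z e
 (c z e
 (c z e
 (c (a (nat_lit 0x46a10116307)) e
 (c (a (nat_lit 0x2ef6f615f47)) e e)))))
 (c (a (nat_lit 0x1333534dc6))
 (c (a (nat_lit 0x121409c48d85)) e
 (c (a (nat_lit 0x1d2dc92eeaa6)) e
 (c z e
 (c z e
 (c (a (nat_lit 0x633472c8)) e e)))))
 (c (a (nat_lit 0x18d8d3f3e6))
 (c (a (nat_lit 0xaa6e949f986)) e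
 (c z e
 (c (b (nat_lit 0x1ffff1c1b147)) e
 (c (b (nat_lit 0x1ff28190f387)) e e))))
 (c (a (nat_lit 0x12a0202004))
 (c (a (nat_lit 0xcf2c10104)) e
 (c (a (nat_lit 0xf960c10a24)) e
 (c (b (nat_lit 0x1fe74b110405)) e
 (c (a (nat_lit 0xfdf69800006)) e e))))
 (c (a (nat_lit 0xc0e001))
 (c (a (nat_lit 0x1ca140df02c2)) e
 (c (a (nat_lit 0xb2e9f8002)) e
 (c (a (nat_lit 0x1be0a0000004)) e e)))
 (c (a (nat_lit 0x404001))
 (c (a (nat_lit 0x18932cc00004)) e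
 (c (a (nat_lit 0x196000000002)) e e))
 (c (a (nat_lit 0x404001)) e
 (c (a (nat_lit 0xe0606001)) e
 (c (a (nat_lit 0x804054c2)) e
 (c (a (nat_lit 0x1bfb8060c3)) e
 (c (a (nat_lit 0x1e40402044)) e
 (c (a (nat_lit 0xc20001)) e
 (c (a (nat_lit 0x1000a06002)) e
 (c (a (nat_lit 0x28100a101)) e
 (c (a (nat_lit 0xa040c181)) e
 (c (a (nat_lit 0x200001)) e e))))))))))))))))))
 (c (nat_lit 1)
 (c (b (nat_lit 0x3d07fffe7))
 (c (a (nat_lit 0x15f831507106))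
 (c (a (nat_lit 0xaee2faf7634a6)) e e)
 (c z e
 (c (a (nat_lit 0xb6c6ced30e8)) e
 (c (a (nat_lit 0x751327cfac7)) e
 (c (a (nat_lit 0x96af1706b88)) e
 (c (a (nat_lit 0x950d0cbb088)) e
 (c (a (nat_lit 0x17fa56793167)) e
 (c (a (nat_lit 0xe5439f04027)) e
 (c (a (nat_lit 0x8bb1ac8e007)) e
 (c (a (nat_lit 0x12d4e0000007)) e e))))))))))
 (c z e
 (c (a (nat_lit 0x5b025a585))
 (c (a (nat_lit 0x111115d771a7)) e
 (c (a (nat_lit 0x85495efb4e8)) e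
 (c z e
 (c z e
 (c (b (nat_lit 0x4dff43ba1a8)) e
 (c (a (nat_lit 0x16bb0a2c009)) e e))))))
 (c (a (nat_lit 0x14a0202004))
 (c (a (nat_lit 0x83310b05227)) e
 (c z e
 (c (a (nat_lit 0x4712ea94a48)) e
 (c (a (nat_lit 0x36b09002e8)) e
 (c (a (nat_lit 0x110d46200009)) e e)))))
 (c (a (nat_lit 0xc080e001))
 (c (a (nat_lit 0xe71a4e48147)) e
 (c (a (nat_lit 0x1c2dc0602067)) e
 (c (a (nat_lit 0x1090adc54007)) e
 (c (a (nat_lit 0x19a900000007)) e e))))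
 (c (a (nat_lit 0x204001))
 (c (a (nat_lit 0x1b40a72fe4e6)) e
 (c (a (nat_lit 0x15726ca00005)) e
 (c (a (nat_lit 0x18a000000005)) e e)))
 (c (a (nat_lit 0x80604001))
 (c (a (nat_lit 0x11c5c0000006)) e e)
 (c (a (nat_lit 0x60604001)) e
 (c (a (nat_lit 0x60203d23)) e
 (c (a (nat_lit 0x2e51ff46)) e
 (c (a (nat_lit 0x72eeef567)) e
 (c (a (nat_lit 0x11145774c6)) e
 (c (a (nat_lit 0xaf5740a27)) e
 (c (a (nat_lit 0x1715cbe907)) e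
 (c (a (nat_lit 0x13c0202186)) e
 (c (a (nat_lit 0x1e0a08001)) e
 (c (a (nat_lit 0x20000001)) e e)))))))))))))))))
 C31)))) Tr.c Tr.e (nat_lit 0) C.cx C.cy
noncomputable def C33 : Tr := beta% (fun (c : Nat → Tr → Tr → Tr) (e : Tr) (z : Nat) (a b : Nat → Nat) =>
 (c (nat_lit 1)
 (c (a (nat_lit 0x2c282820201))
 (c (a (nat_lit 0x1414161419364))
 (c z e
 (c (a (nat_lit 0x147736744431b668)) e
 (c (a (nat_lit 0x1655332f539418e8)) e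
 (c (a (nat_lit 0x12b088f61d746008)) e e))))
 (c (a (nat_lit 0x4040203785c5))
 (c (a (nat_lit 0xb8b6aa3c92bf1aa)) e
 (c (a (nat_lit 0x14f40df1f356948a)) e e))
 (c (a (nat_lit 0x20202ac2fa06))
 (c (a (nat_lit 0x193af9f38e302008)) e e)
 (c (a (nat_lit 0x2a0f5abb67)) e
 (c (a (nat_lit 0x2528acc6f408)) e
 (c (a (nat_lit 0x8e6ed502beb87)) e
 (c (a (nat_lit 0x1480b45cdd2e7)) e
 (c (a (nat_lit 0x2eef5a2040f06)) e
 (c (a (nat_lit 0x101520e20ee7e6)) e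
 (c (a (nat_lit 0x1ba4c548c00006)) e
 (c (a (nat_lit 0x11828000000002)) e e)))))))))))
 (c (a (nat_lit 0x2a2c2a28281))
 (c (a (nat_lit 0x20202980fde6))
 (c (a (nat_lit 0x9e9a5e82b8dd34a)) e
 (c (a (nat_lit 0x1ab5b81d96b5600a)) e e))
 (c (a (nat_lit 0x40426024b0a9))
 (c (a (nat_lit 0x11f0710bc900000a)) e e)
 (c (a (nat_lit 0x26c8d1b75ca9)) e
 (c z e
 (c z e
 (c z e
 (c (a (nat_lit 0x1145658595d5a7)) e
 (c (a (nat_lit 0x681c5960ca007)) e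
 (c (a (nat_lit 0xa50f840000006)) e e)))))))))
 (c (a (nat_lit 0x2a28262a201))
 (c (a (nat_lit 0x240850ef068))
 (c (a (nat_lit 0x1c2b4a6d60000007)) e e)
 (c z e
 (c z e
 (c z e
 (c z e
 (c (b (nat_lit 0x1fe566d08f47a7)) e
 (c (a (nat_lit 0x1265189200007)) e
 (c (a (nat_lit 0x16f9a000000006)) e e))))))))
 (c (a (nat_lit 0x1212100f9c3))
 (c z e
 (c z e
 (c (a (nat_lit 0x1076b2ce4dcd29)) e
 (c (a (nat_lit 0x10f1f18ac72708)) e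
 (c (a (nat_lit 0x7c1710b854007)) e
 (c (a (nat_lit 0x1b28960000007)) e
 (c (a (nat_lit 0x1d200000000006)) e e)))))))
 (c (a (nat_lit 0xe8e92139067))
 (c (a (nat_lit 0xa52310d104a08)) e
 (c (a (nat_lit 0x1b913370accb68)) e
 (c (a (nat_lit 0x14ddf4884d4067)) e
 (c (a (nat_lit 0xd300ba7000008)) e
 (c (a (nat_lit 0x1aaa6000000007)) e e)))))
 (c (a (nat_lit 0x1032d2f2f2e7))
 (c (a (nat_lit 0x18399159555526)) e
 (c (a (nat_lit 0x14888bad898008)) e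
 (c (a (nat_lit 0x1016d5c0000006)) e
 (c (a (nat_lit 0x19a00000000005)) e e))))
 (c (a (nat_lit 0x11b2b2d2d048))
 (c (a (nat_lit 0x16f7fdad600007)) e e)
 (c (a (nat_lit 0x181838572c06)) e
 (c (a (nat_lit 0x123212004045)) e
 (c (a (nat_lit 0xe182e4d241)) e
 (c (a (nat_lit 0x1939797948e5)) e
 (c (a (nat_lit 0x1dbdbdddd405)) e
 (c (a (nat_lit 0x1191919271a7)) e
 (c (a (nat_lit 0x2740be84)) e
 (c (a (nat_lit 0xdc0be4003)) e
 (c (a (nat_lit 0xa120000001)) e e))))))))))))))))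
 (c (a (nat_lit 0x2021))
 (c (a (nat_lit 0x2080e100e1))
 (c (a (nat_lit 0x21e03775e6))
 (c (a (nat_lit 0xcebabf3923d84e8)) e
 (c (a (nat_lit 0xaeb528f2ba0000a)) e e))
 (c (a (nat_lit 0xa2e1436bd0e9))
 (c (a (nat_lit 0x11956c4a6000000a)) e e)
 (c z e
 (c z e
 (c z e
 (c z e
 (c (b (nat_lit 0x1fee2836d84e47)) e
 (c (a (nat_lit 0x6c9164de00007)) e
 (c (a (nat_lit 0x14b7a000000006)) e e)))))))))
 (c (a (nat_lit 0x406070c3))
 (c (a (nat_lit 0x30564a62c5fa8))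
 (c (a (nat_lit 0x1c092b6000000008)) e e)
 (c z e
 (c z e
 (c z e
 (c z e
 (c (a (nat_lit 0x1da85130e8e008)) e
 (c (a (nat_lit 0x952ca20000008)) e
 (c (a (nat_lit 0x17600000000007)) e e))))))))
 (c (a (nat_lit 0x20203a2006))
 (c z e
 (c z e
 (c z e
 (c z e
 (c (a (nat_lit 0x7738e0a400008)) e
 (c (a (nat_lit 0x132a6000000008)) e e))))))
 (c (b (nat_lit 0x9f31ff0cec7)) e
 (c z e
 (c z e
 (c (a (nat_lit 0x19da3a37e886)) e
 (c (a (nat_lit 0x1b7b5b666065)) e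
 (c (a (nat_lit 0x4080c41923)) e
 (c (a (nat_lit 0x19f9d968a446)) e
 (c (a (nat_lit 0x1d9d3d684906)) e
 (c (a (nat_lit 0x1fdffcd672c6)) e
 (c (a (nat_lit 0x6606396f6a5)) e
 (c (a (nat_lit 0x2c1600001)) e
 (c (nat_lit 1) e e)))))))))))))))
 (c (a (nat_lit 0x202001))
 (c (a (nat_lit 0xcacacb08165))
 (c (a (nat_lit 0x202ab22b8a07)) e
 (c (a (nat_lit 0x1953a512aafc8)) e
 (c z e
 (c z e
 (c z e
 (c (a (nat_lit 0xfbdf0ba00005)) e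
 (c (a (nat_lit 0x16acc000000006)) e e)))))))
 (c (b (nat_lit 0x3dffffff5c7)) e
 (c z e
 (c z e
 (c z e
 (c (a (nat_lit 0x13b3b3d3e526)) e
 (c (a (nat_lit 0x11b23220a045)) e
 (c (a (nat_lit 0xc063cdb304)) e
 (c (a (nat_lit 0x197966202446)) e
 (c (a (nat_lit 0x10706a4d4827)) e
 (c (a (nat_lit 0xe0c6fc7d1c7)) e
 (c (a (nat_lit 0x2e0520006)) e
 (c (a (nat_lit 0x14a080000004)) e e)))))))))))))
 (c (a (nat_lit 0xc0402001))
 (c z e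
 (c z e
 (c (a (nat_lit 0x6fb1aa027c8))
 (c (a (nat_lit 0x1195db4ae00008)) e e)
 (c (a (nat_lit 0x3998d4d0e48)) e
 (c (a (nat_lit 0x176426e4eb86)) e
 (c (a (nat_lit 0x38424411287)) e
 (c (a (nat_lit 0xc0319ae7)) e
 (c (a (nat_lit 0x5c0c9339428)) e
 (c (a (nat_lit 0x66751e945a8)) e
 (c (a (nat_lit 0x10b6528a8a68)) e
 (c (a (nat_lit 0x8f908800007)) e
 (c (a (nat_lit 0x104000000007)) e e))))))))))))
 (c (a (nat_lit 0x20001e22))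
 (c (a (nat_lit 0xc6c6e532027))
 (c (a (nat_lit 0x4a165123a6606)) e
 (c (a (nat_lit 0xc2d1557000007)) e e))
 (c (a (nat_lit 0x161a3f0e0007))
 (c (a (nat_lit 0x16975640000006)) e e)
 (c (a (nat_lit 0xe91e566a388)) e
 (c (a (nat_lit 0x13a3a3c7f0c7)) e
 (c (a (nat_lit 0x80c0473068)) e
 (c (a (nat_lit 0x2915ab48)) e
 (c (b (nat_lit 0x32535333fe8)) e
 (c z e
 (c z e
 (c (a (nat_lit 0x1e00c0000006)) e e))))))))))
 (c (a (nat_lit 0x203211e5))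
 (c (a (nat_lit 0xdcdd1e06086)) e
 (c (a (nat_lit 0x199b94cefba7)) e
 (c (a (nat_lit 0xa66c851c727)) e
 (c (a (nat_lit 0xfa7f85b40e6)) e
 (c (a (nat_lit 0x31fde276025)) e
 (c (a (nat_lit 0x8ad2e20967)) e
 (c z e
 (c (a (nat_lit 0x122540400007)) e
 (c (a (nat_lit 0x66000000001)) e e)))))))))
 (c (a (nat_lit 0xbb3939348))
 (c (a (nat_lit 0x1c1df81f11c7)) e
 (c (a (nat_lit 0x1270f40a8888)) e
 (c (a (nat_lit 0xe512ba6e4e8)) e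
 (c (b (nat_lit 0x1477f4975fe7)) e
 (c (a (nat_lit 0xb2c0b473189)) e e)))))
 (c (a (nat_lit 0x1434334667))
 (c (a (nat_lit 0x10b583a2e226)) e
 (c (a (nat_lit 0x142c6be2e027)) e
 (c (a (nat_lit 0x1b7839ec5846)) e
 (c (a (nat_lit 0x1355acd9ed46)) e
 (c (a (nat_lit 0x10b6bf400005)) e e)))))
 (c (a (nat_lit 0x1131402004))
 (c (a (nat_lit 0x1517d0c02806)) e
 (c (a (nat_lit 0x12cdee672826)) e
 (c (a (nat_lit 0x1d2d522a006)) e
 (c (a (nat_lit 0x1071c0000005)) e e))))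
 (c (a (nat_lit 0x13c0202004))
 (c (a (nat_lit 0xad509cdad24)) e
 (c (a (nat_lit 0x10a642200006)) e
 (c (a (nat_lit 0xae000000001)) e e)))
 (c (a (nat_lit 0x141214001))
 (c (a (nat_lit 0x16e3a0000005)) e e)
 (c (a (nat_lit 0xe0a02001)) e
 (c (a (nat_lit 0x100806001)) e
 (c (a (nat_lit 0xa0406001)) e
 (c (a (nat_lit 0x40203843)) e
 (c (a (nat_lit 0x1e3e30cc24)) e
 (c (a (nat_lit 0x40a0e0e1)) e
 (c (a (nat_lit 0xa0c001)) e
 (c (a (nat_lit 0x6246263a1)) e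
 (c (a (nat_lit 0x2a0a24141)) e
 (c (a (nat_lit 0xa00001)) e e)))))))))))))))))))))) Tr.c Tr.e (nat_lit 0) C.cx C.cy
noncomputable def C34 : Tr := beta% (fun (c : Nat → Tr → Tr → Tr) (e : Tr) (z : Nat) (a b : Nat → Nat) =>
 (c (nat_lit 1)
 (c (a (nat_lit 0x6080c0c0e1))
 (c (a (nat_lit 0x2a282e02219c5))
 (c (a (nat_lit 0xa49a7eacc8c3427)) e
 (c (a (nat_lit 0xfedf41b19724008)) e e))
 (c (a (nat_lit 0x2a30020501706))
 (c (a (nat_lit 0xaeff37587200009)) e e)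
 (c (a (nat_lit 0x26a765c5b487)) e
 (c z e
 (c z e
 (c z e
 (c (a (nat_lit 0x15404f444caae6)) e
 (c (a (nat_lit 0xa46e9fb302005)) e
 (c (a (nat_lit 0x1278fca0000004)) e e)))))))))
 (c (a (nat_lit 0x12161416141))
 (c (a (nat_lit 0xc08141661088))
 (c (a (nat_lit 0x1313532580000008)) e e)
 (c (a (nat_lit 0x8406702f28)) e
 (c z e
 (c z e
 (c z e
 (c (a (nat_lit 0xf156327c5e207)) e
 (c (a (nat_lit 0x1c8895ec400006)) e
 (c (a (nat_lit 0x191dc000000005)) e e))))))))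
 (c (a (nat_lit 0x18181818061))
 (c (a (nat_lit 0xaaef1554e0ce8)) e
 (c z e
 (c z e
 (c z e
 (c (a (nat_lit 0xa26b6ce05c006)) e
 (c (a (nat_lit 0x375cfa0000006)) e
 (c (a (nat_lit 0x11200000000006)) e e)))))))
 (c (b (nat_lit 0x405c7ffa44))
 (c z e
 (c z e
 (c z e
 (c (a (nat_lit 0xb68c69800006)) e
 (c (a (nat_lit 0x11e60000000006)) e e)))))
 (c (a (nat_lit 0x11325251ee26))
 (c (a (nat_lit 0x12236787c8a868)) e
 (c z e
 (c (a (nat_lit 0x91120000005)) e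
 (c (a (nat_lit 0x1da00000000001)) e e))))
 (c z e
 (c (a (nat_lit 0xf32b2d0aa85)) e
 (c (a (nat_lit 0x1b9bfc9e4223)) e
 (c (a (nat_lit 0x1c9d3de26103)) e
 (c (a (nat_lit 0x16763610a705)) e
 (c (a (nat_lit 0x173736970ca5)) e
 (c (a (nat_lit 0x1f9f1fbcd785)) e
 (c (a (nat_lit 0x4c5c0407f04)) e
 (c (a (nat_lit 0xba0605ee003)) e
 (c (a (nat_lit 0x15240000003)) e e)))))))))))))))
 (c (nat_lit 1)
 (c (a (nat_lit 0x10f0d0d0cee4))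
 (c (a (nat_lit 0x214229417cc5)) e
 (c (a (nat_lit 0x4204f89b1b307)) e
 (c z e
 (c (a (nat_lit 0xbb26f8908c808)) e
 (c (a (nat_lit 0x1951570c8ce8c6)) e
 (c (a (nat_lit 0x1f49b00b23a005)) e
 (c (a (nat_lit 0xa93e940000005)) e
 (c (a (nat_lit 0x11800000000005)) e e))))))))
 (c (a (nat_lit 0xf4f4f5052c5))
 (c (a (nat_lit 0x2357d4c0eb367)) e
 (c z e
 (c (a (nat_lit 0x1d7e2d0dcd4d68)) e
 (c (a (nat_lit 0x1250ee2ceb89a8)) e
 (c (a (nat_lit 0xfbbd347e00006)) e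
 (c (a (nat_lit 0x1b8fc000000006)) e e))))))
 (c (a (nat_lit 0xdf16fceed47))
 (c z e
 (c z e
 (c z e
 (c (a (nat_lit 0x572d000000007)) e
 (c (a (nat_lit 0x19600000000005)) e e)))))
 (c (a (nat_lit 0x126b0b4c2da6))
 (c (a (nat_lit 0x4f16529f18666)) e
 (c (a (nat_lit 0x14a7d151400006)) e e))
 (c (a (nat_lit 0x187a9a9a9e65))
 (c (a (nat_lit 0xa506b60000005)) e e)
 (c (a (nat_lit 0xe2030d61)) e
 (c (a (nat_lit 0x1a3a7abc83e3)) e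
 (c (a (nat_lit 0x1b9cfd447103)) e
 (c (a (nat_lit 0x1818184689e5)) e
 (c (a (nat_lit 0x14b4f56dedc5)) e
 (c (a (nat_lit 0x10d112ade886)) e
 (c (a (nat_lit 0x14219afa62)) e
 (c (a (nat_lit 0x1e0e00001)) e
 (c (nat_lit 1) e e))))))))))))))
 (c (a (nat_lit 0x20000001))
 (c (a (nat_lit 0x909f18fd666))
 (c (a (nat_lit 0x118fc8c78bd206)) e
 (c z e
 (c (a (nat_lit 0x15856df0d06d87)) e
 (c (a (nat_lit 0x465702f818006)) e
 (c (a (nat_lit 0x12d4ee00000006)) e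
 (c (a (nat_lit 0x1de00000000005)) e e))))))
 (c z e
 (c (a (nat_lit 0xcd036f66326))
 (c (a (nat_lit 0x80ab0d5a80006)) e
 (c (a (nat_lit 0xf55f160000006)) e e))
 (c (a (nat_lit 0x5f412604046))
 (c (a (nat_lit 0x187f4000000003)) e e)
 (c (a (nat_lit 0x1573c020e1c6)) e
 (c (a (nat_lit 0x1682e4444346)) e
 (c (a (nat_lit 0x384e5423706)) e
 (c (a (nat_lit 0xaac261b97a6)) e
 (c (b (nat_lit 0xa0a5d197fe6)) e
 (c (a (nat_lit 0x753ef402887)) e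
 (c (a (nat_lit 0x1bf7ca6a6006)) e
 (c (a (nat_lit 0x1ac020000005)) e e))))))))))))
 (c (a (nat_lit 0x20202021))
 (c (a (nat_lit 0xc4c4c4c50c6))
 (c (a (nat_lit 0xfd02f6f7ebdc5)) e
 (c (a (nat_lit 0xbab4b95f02006)) e e))
 (c (a (nat_lit 0xdcdef33b246))
 (c (a (nat_lit 0xe0c750e000005)) e e)
 (c (a (nat_lit 0xeaed49203a6)) e
 (c (a (nat_lit 0xdf26120a306)) e
 (c (a (nat_lit 0x122062e1edc6)) e
 (c (a (nat_lit 0x3c42557f966)) e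
 (c (a (nat_lit 0x503cfd12107)) e
 (c (b (nat_lit 0x99779bfe626)) e
 (c z e
 (c (a (nat_lit 0x1ff232200006)) e
 (c (a (nat_lit 0x2000000001)) e e)))))))))))
 (c (a (nat_lit 0x19c3))
 (c (a (nat_lit 0xe333357a844)) e
 (c (a (nat_lit 0xd4ff22cc5a5)) e
 (c (a (nat_lit 0x157a6b742764)) e
 (c (a (nat_lit 0x117ee565f744)) e
 (c (a (nat_lit 0x1088ee95c124)) e
 (c (a (nat_lit 0xca4b169c645)) e
 (c z e
 (c (a (nat_lit 0x642015c4006)) e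
 (c (a (nat_lit 0x1252c0000002)) e e)))))))))
 (c (a (nat_lit 0x203c5c43))
 (c (a (nat_lit 0xd2d3142c004)) e
 (c (a (nat_lit 0x15b9f3b1e024)) e
 (c (a (nat_lit 0xe52d6330924)) e
 (c (a (nat_lit 0x183b27412023)) e
 (c (a (nat_lit 0x395cc2be026)) e
 (c z e
 (c (a (nat_lit 0x92884e00001)) e
 (c (a (nat_lit 0x1fa000000002)) e e))))))))
 (c (a (nat_lit 0x31110ec4))
 (c (a (nat_lit 0xf3fd48ee383)) e
 (c (a (nat_lit 0x161c36374c04)) e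
 (c (a (nat_lit 0x1c1710272025)) e
 (c (a (nat_lit 0x1b8ae900f3e5)) e
 (c (a (nat_lit 0x11aa11aa004)) e
 (c (a (nat_lit 0x38a0000005)) e e))))))
 (c (a (nat_lit 0x1151516003))
 (c (a (nat_lit 0x15327db1c125)) e
 (c (a (nat_lit 0xc10cbc6e6a6)) e
 (c (a (nat_lit 0x16a632090505)) e
 (c (a (nat_lit 0xccdf8400003)) e
 (c (a (nat_lit 0x12a000000006)) e e)))))
 (c (a (nat_lit 0x1111004003))
 (c (a (nat_lit 0x90c12664625)) e
 (c (a (nat_lit 0x2102b634006)) e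
 (c (a (nat_lit 0x1be900000004)) e e)))
 (c (a (nat_lit 0x13c0202023))
 (c (a (nat_lit 0x1069c3e00005)) e
 (c (a (nat_lit 0x198000000002)) e e))
 (c (a (nat_lit 0xa080a001)) e
 (c (a (nat_lit 0x60402001)) e
 (c (a (nat_lit 0x10100fefc3)) e
 (c (a (nat_lit 0x125211d1a2)) e
 (c (a (nat_lit 0x1737371763)) e
 (c (a (nat_lit 0xfeff00924)) e
 (c (a (nat_lit 0x1b80406082)) e
 (c (a (nat_lit 0x6866768a1)) e
 (c (a (nat_lit 0x5c6a84901)) e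
 (c (a (nat_lit 0x627a48001)) e
 (c (a (nat_lit 0x300000001)) e e)))))))))))))))))))))) Tr.c Tr.e (nat_lit 0) C.cx C.cy
noncomputable def C35 : Tr := beta% (fun (c : Nat → Tr → Tr → Tr) (e : Tr) (z : Nat) (a b : Nat → Nat) =>
 (c (nat_lit 1)
 (c (a (nat_lit 0x1d7d7d74d4a2))
 (c z e
 (c (a (nat_lit 0xfcf91f2d393c1)) e
 (c z e
 (c z e
 (c (a (nat_lit 0x15c7a8888a1944)) e
 (c (a (nat_lit 0xd802020b110a4)) e
 (c z e
 (c z e
 (c (a (nat_lit 0x1532d1b895c103)) e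
 (c z e
 (c z e
 (c z e
 (c (a (nat_lit 0x1ec17940000001)) e e)))))))))))))
 (c (a (nat_lit 0x1edee0402002))
 (c (a (nat_lit 0x1151737535d701))
 (c (a (nat_lit 0x10b4ce2daf4e8c07))
 (c z e
 (c (a (nat_lit 0x12698000000000000a)) e e))
 (c (a (nat_lit 0x185413d6359209a8)) e
 (c (a (nat_lit 0x1413d5f5125073c8)) e
 (c (a (nat_lit 0x127594b1b03b7ea8)) e
 (c (a (nat_lit 0x11f00e0870ec2008)) e e)))))
 (c (a (nat_lit 0xfd092d30fd542))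
 (c (a (nat_lit 0x14747696534eaf48)) e
 (c (a (nat_lit 0x147635b3315113c9)) e
 (c (a (nat_lit 0x1594f27235b695a9)) e e)))
 (c (a (nat_lit 0x626c707689ac4))
 (c (a (nat_lit 0x11b10f50324d7468)) e e)
 (c (a (nat_lit 0xa161d3f0c6)) e
 (c (a (nat_lit 0xe02090550e46)) e
 (c (a (nat_lit 0x5602c4adbb7e5)) e
 (c (a (nat_lit 0x48d723798e485)) e
 (c (b (nat_lit 0x1fe81614ce1ba4)) e
 (c (a (nat_lit 0xaf56dee2ac345)) e
 (c (a (nat_lit 0xdcd766ae56865)) e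
 (c (a (nat_lit 0x73c640200005)) e
 (c (a (nat_lit 0x10a38000000005)) e e))))))))))))
 (c (a (nat_lit 0x1040e0c0e0c3))
 (c (a (nat_lit 0x1a597937bb8e02))
 (c (a (nat_lit 0xdae6e6cea8cb227)) e
 (c (a (nat_lit 0x14b4b1ef92b97948)) e
 (c (a (nat_lit 0x124fce326bec8008)) e e)))
 (c (a (nat_lit 0x1919181efa8c22))
 (c (a (nat_lit 0x112fae53b614cb88)) e
 (c (a (nat_lit 0xbcbedf0c8e00009)) e e))
 (c (a (nat_lit 0x20c12cca9226)) e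
 (c (a (nat_lit 0x208a4fb074e6)) e
 (c (a (nat_lit 0x223941d947905)) e
 (c z e
 (c (a (nat_lit 0x1ed6e115a8a4)) e
 (c (a (nat_lit 0x194ae56562cac5)) e
 (c (a (nat_lit 0x13daae2b4e0004)) e
 (c (a (nat_lit 0x10e02040000004)) e
 (c (a (nat_lit 0x6600000000001)) e e)))))))))))
 (c (a (nat_lit 0x181616100c1))
 (c (a (nat_lit 0x5a5e6c94710a4))
 (c (a (nat_lit 0xeae7a7534e4e006)) e
 (c (a (nat_lit 0xcb0ad67e0000008)) e e))
 (c (a (nat_lit 0x8daae0f1c6))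
 (c (a (nat_lit 0x138ae84000000007)) e e)
 (c (b (nat_lit 0x25a6bfe9b547)) e
 (c (a (nat_lit 0x23e4cc7951a6)) e
 (c (a (nat_lit 0x18636c06a9be5)) e
 (c (a (nat_lit 0x9462c3a2c526)) e
 (c (a (nat_lit 0x1470c58875ce44)) e
 (c (a (nat_lit 0x1d698c2fe00004)) e
 (c (a (nat_lit 0xa000000001)) e e)))))))))
 (c (a (nat_lit 0x3e3c3a36341))
 (c (a (nat_lit 0x27c77eb73f725)) e
 (c z e
 (c (a (nat_lit 0x1569127d7e2c05)) e
 (c (a (nat_lit 0x1847242664327)) e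
 (c (a (nat_lit 0x1862654346c506)) e
 (c (a (nat_lit 0xaa06310ea8005)) e
 (c z e
 (c (a (nat_lit 0xa00000000001)) e e))))))))
 (c (a (nat_lit 0x9694908c8a1))
 (c (b (nat_lit 0x10bff5202e30c5)) e
 (c (a (nat_lit 0x6f84eef96e8e5)) e
 (c (a (nat_lit 0xdf58730a78586)) e
 (c (a (nat_lit 0x128764de5e345)) e
 (c (a (nat_lit 0x29960e600004)) e
 (c (a (nat_lit 0x17912000000004)) e e))))))
 (c (a (nat_lit 0x1b7b5b5b3e63))
 (c z e
 (c (a (nat_lit 0x17846b43e4c626)) e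
 (c (a (nat_lit 0x17e823e1c40005)) e
 (c (a (nat_lit 0x178048c0000003)) e e))))
 (c (a (nat_lit 0xeaeb0102964))
 (c (a (nat_lit 0x39264c6ae404)) e
 (c (a (nat_lit 0x11a60844a00005)) e e))
 (c (a (nat_lit 0x189e5eb0f123)) e
 (c (a (nat_lit 0x140d2d2e0184)) e
 (c (a (nat_lit 0x16f717610163)) e
 (c (a (nat_lit 0x109090ca0a04)) e
 (c (a (nat_lit 0x1c5cbd3d5d83)) e
 (c (a (nat_lit 0xf0f8fb01023)) e
 (c (a (nat_lit 0x20409fc2)) e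
 (c (a (nat_lit 0x205f8e42)) e
 (c (a (nat_lit 0x209fa74002)) e
 (c (a (nat_lit 0x11d880000002)) e e))))))))))))))))))
 (c (a (nat_lit 0x20202021))
 (c (a (nat_lit 0x1aa1010100c3))
 (c (a (nat_lit 0xd6d6e2e8e9002))
 (c (a (nat_lit 0x140e2dcf8ecc8647)) e
 (c (a (nat_lit 0x1a9ade3d59879648)) e
 (c (a (nat_lit 0x1b1d9c38f4b9bae8)) e
 (c (a (nat_lit 0xe6d8bc871750e69)) e
 (c (a (nat_lit 0x108e83cf6d000008)) e
 (c (a (nat_lit 0x1ae6724000000006)) e e))))))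
 (c (a (nat_lit 0x2020207545))
 (c (a (nat_lit 0x1456b6742a8f73a9)) e
 (c (a (nat_lit 0x15d5336f507078aa)) e e))
 (c (a (nat_lit 0x20207522a5))
 (c (a (nat_lit 0x1fdbfe3df2b69568)) e e)
 (c (a (nat_lit 0x608e52d867)) e
 (c (a (nat_lit 0x204c92f6aa07)) e
 (c (a (nat_lit 0x9698f8f5407)) e
 (c (a (nat_lit 0x5e4ec2d08d007)) e
 (c (a (nat_lit 0x48cf974544c6)) e
 (c (a (nat_lit 0x1050da23628e46)) e
 (c (a (nat_lit 0x970a2a2a46007)) e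
 (c (a (nat_lit 0x1e21a020000006)) e
 (c (a (nat_lit 0xe00000000001)) e e))))))))))))
 (c (a (nat_lit 0x26222616121))
 (c (a (nat_lit 0x5c543a6fc6003))
 (c (a (nat_lit 0xd4d6c69c98bf089)) e
 (c (a (nat_lit 0x1412106f90f4124a)) e e))
 (c (a (nat_lit 0x18181c50031a7))
 (c (a (nat_lit 0x1cde7d380f2be009)) e e)
 (c (a (nat_lit 0x493039fa28)) e
 (c z e
 (c z e
 (c z e
 (c (a (nat_lit 0x5718283624c07)) e
 (c (a (nat_lit 0x1c4e66e7da8fa6)) e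
 (c (a (nat_lit 0x18090b2fc00006)) e
 (c (a (nat_lit 0x1ac7a000000001)) e e))))))))))
 (c (a (nat_lit 0x302a26201c1))
 (c (a (nat_lit 0x20224022f827))
 (c (a (nat_lit 0x1b3e0ad688800007)) e e)
 (c z e
 (c z e
 (c z e
 (c z e
 (c (a (nat_lit 0x16c249a2094727)) e
 (c (a (nat_lit 0xa6584f72c4006)) e
 (c (a (nat_lit 0xbeab0c0000006)) e
 (c (a (nat_lit 0x10a00000000001)) e e)))))))))
 (c (a (nat_lit 0x1cfcbb9b3aa1))
 (c z e
 (c z e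
 (c (a (nat_lit 0xa49906ce82809)) e
 (c (a (nat_lit 0xc9710d1eb4a68)) e
 (c (a (nat_lit 0xf892271e9e246)) e
 (c (a (nat_lit 0x2772f200006)) e
 (c (a (nat_lit 0xd13a000000006)) e e)))))))
 (c (a (nat_lit 0x6260605fe63))
 (c (a (nat_lit 0xbc60698accbc6)) e
 (c (a (nat_lit 0x732cb6925c588)) e
 (c (a (nat_lit 0x26d3427606367)) e
 (c (a (nat_lit 0xa8eb44620a006)) e
 (c (a (nat_lit 0x306660000006)) e
 (c (a (nat_lit 0x11000000000006)) e e))))))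
 (c (a (nat_lit 0xd6d6e9188e6))
 (c (a (nat_lit 0x1849c6e4cb6687)) e
 (c (a (nat_lit 0x115668700d4a07)) e
 (c (a (nat_lit 0x6063007e00006)) e
 (c (a (nat_lit 0xf154000000005)) e e))))
 (c (a (nat_lit 0x1335b6155547))
 (c (a (nat_lit 0x158d303087c007)) e e)
 (c (a (nat_lit 0x1170f1112606)) e
 (c (a (nat_lit 0x19597986e0e5)) e
 (c (a (nat_lit 0x1afb1b61a223)) e
 (c (a (nat_lit 0x15353570f105)) e
 (c (a (nat_lit 0x1b5b9bbbfc05)) e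
 (c (a (nat_lit 0x1454749496c6)) e
 (c (a (nat_lit 0x20923203)) e
 (c (a (nat_lit 0x71f211e3)) e
 (c (a (nat_lit 0xeb760200004)) e
 (c (a (nat_lit 0x2000000001)) e e)))))))))))))))))
 C34))) Tr.c Tr.e (nat_lit 0) C.cx C.cy
noncomputable def C36 : Tr := beta% (fun (c : Nat → Tr → Tr → Tr) (e : Tr) (z : Nat) (a b : Nat → Nat) =>
 (c (a (nat_lit 0x2021))
 (c (a (nat_lit 0x202001))
 (c (a (nat_lit 0x201a0e041))
 (c (a (nat_lit 0x300e0000001)) e e)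
 (c (a (nat_lit 0x2a1608001)) e
 (c (a (nat_lit 0x281c12001)) e
 (c (a (nat_lit 0x2020f0c7)) e
 (c (a (nat_lit 0x141fe1fc7)) e
 (c (a (nat_lit 0x10d5352d48)) e
 (c (a (nat_lit 0x1838382628)) e
 (c (a (nat_lit 0x1d7d966b45)) e
 (c (a (nat_lit 0x166b400005)) e e)))))))))
 (c (a (nat_lit 0x21))
 (c (a (nat_lit 0x1204076a1)) e
 (c (a (nat_lit 0x202032e7)) e
 (c (a (nat_lit 0x202b3a47)) e
 (c (a (nat_lit 0x2e942cc8)) e
 (c z e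
 (c (a (nat_lit 0x103008a169)) e
 (c (a (nat_lit 0x19b9eb6006)) e
 (c (a (nat_lit 0x1620000005)) e e))))))))
 (c (a (nat_lit 0x2001))
 (c (a (nat_lit 0x680389166)) e
 (c (a (nat_lit 0x2ecdf5a8)) e
 (c (a (nat_lit 0xe6d7310a9)) e
 (c z e
 (c (a (nat_lit 0x1a8faa9668)) e
 (c (a (nat_lit 0x1a4f000006)) e e))))))
 (c (a (nat_lit 0x402001))
 (c (a (nat_lit 0x88b689487)) e
 (c (a (nat_lit 0xad69b7f08)) e
 (c (a (nat_lit 0x9ccae9ca9)) e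
 (c (a (nat_lit 0x1454ad4009)) e
 (c (a (nat_lit 0x1d00000005)) e e)))))
 (c z
 (c (a (nat_lit 0x7ca0bf1e9)) e
 (c (a (nat_lit 0x58bd2e96a)) e e))
 (c (b (nat_lit 0xbfffe1))
 (c (a (nat_lit 0xb93c6a009)) e e)
 (c (a (nat_lit 0xf4e2)) e
 (c (a (nat_lit 0x6061)) e
 (c (a (nat_lit 0x2001)) e
 (c (a (nat_lit 0x402001)) e
 (c (a (nat_lit 0x202021)) e
 (c (a (nat_lit 0x2001)) e
 (c (a (nat_lit 0x604021)) e
 (c (a (nat_lit 0x402001)) e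
 (c (a (nat_lit 0x600001)) e
 (c (a (nat_lit 0xe04001)) e
 (c (a (nat_lit 0xc04001)) e e)))))))))))))))))
 (c (a (nat_lit 0x2021))
 (c (a (nat_lit 0x2021))
 (c (a (nat_lit 0x40403681)) e
 (c (a (nat_lit 0x5802056e6)) e
 (c (a (nat_lit 0x20331387)) e
 (c (a (nat_lit 0x2f1db4e7)) e
 (c (a (nat_lit 0xe1173f1a8)) e
 (c (a (nat_lit 0x1a6fc116a7)) e
 (c (a (nat_lit 0x168b800005)) e e)))))))
 (c (a (nat_lit 0xa0a001))
 (c (a (nat_lit 0x2a34bc27)) e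
 (c (a (nat_lit 0x22f2fb189)) e
 (c (a (nat_lit 0xb74b04f09)) e
 (c (a (nat_lit 0xed22f3ca9)) e
 (c (a (nat_lit 0x158cf9c008)) e
 (c (a (nat_lit 0x16a0000005)) e e))))))
 (c z
 (c (a (nat_lit 0xcf0744d88)) e
 (c (a (nat_lit 0xd4ff1dd09)) e
 (c (a (nat_lit 0x1131ffefc9)) e
 (c (a (nat_lit 0x15bce00008)) e e))))
 (c (b (nat_lit 0x3fffe1))
 (c (a (nat_lit 0x9ebd1d029)) e e)
 (c (b (nat_lit 0x1fffe061)) e
 (c (a (nat_lit 0xa0a001)) e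
 (c (a (nat_lit 0x202021)) e
 (c (a (nat_lit 0x404001)) e
 (c (a (nat_lit 0x202021)) e
 (c (a (nat_lit 0x4001)) e
 (c (a (nat_lit 0x404001)) e
 (c (a (nat_lit 0x204001)) e
 (c (a (nat_lit 0x406001)) e
 (c (a (nat_lit 0x602001)) e
 (c (a (nat_lit 0x602021)) e
 (c (a (nat_lit 0x200001)) e e))))))))))))))))
 (c (a (nat_lit 0x2021))
 (c z
 (c (a (nat_lit 0x8d713127)) e
 (c (a (nat_lit 0xed89a7a68)) e
 (c (a (nat_lit 0xd6d2e3109)) e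
 (c (a (nat_lit 0x9aa9148a9)) e
 (c (a (nat_lit 0x16bfa00007)) e e)))))
 (c z
 (c (a (nat_lit 0x177b7b7fc8)) e
 (c (a (nat_lit 0xc0d1310aa)) e
 (c (a (nat_lit 0xab1a8c00a)) e
 (c (a (nat_lit 0x1000000009)) e e))))
 (c (a (nat_lit 0xae81))
 (c (a (nat_lit 0xed4d4c589)) e
 (c (a (nat_lit 0x140a20000a)) e e))
 (c (a (nat_lit 0x18201))
 (c (a (nat_lit 0x1960000007)) e e)
 (c (a (nat_lit 0x2061)) e
 (c (a (nat_lit 0x20c1)) e
 (c (a (nat_lit 0x81)) e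
 (c (a (nat_lit 0x61)) e
 (c (a (nat_lit 0x206001)) e
 (c (a (nat_lit 0x6001)) e
 (c (a (nat_lit 0x202001)) e
 (c (a (nat_lit 0x2041)) e
 (c (a (nat_lit 0x20a1)) e
 (c (a (nat_lit 0x4001)) e e))))))))))))))
 (c (a (nat_lit 0x2021))
 (c (a (nat_lit 0x7ae1))
 (c (a (nat_lit 0x1131392bc7)) e
 (c (a (nat_lit 0xb90b0a5c9)) e
 (c (a (nat_lit 0x1108800009)) e e)))
 (c (a (nat_lit 0x8604001))
 (c (a (nat_lit 0x1170e56009)) e
 (c (a (nat_lit 0x1200000009)) e e))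
 (c (a (nat_lit 0x2041)) e
 (c (a (nat_lit 0x4001)) e
 (c (a (nat_lit 0x204121)) e
 (c (a (nat_lit 0x20a1)) e
 (c (a (nat_lit 0x208021)) e
 (c (a (nat_lit 0x202021)) e
 (c (a (nat_lit 0x21)) e
 (c (a (nat_lit 0x202061)) e
 (c (a (nat_lit 0x4061)) e
 (c (a (nat_lit 0x2021)) e
 (c (a (nat_lit 0x400001)) e e)))))))))))))
 (c (a (nat_lit 0x2021))
 (c (a (nat_lit 0x6061))
 (c (a (nat_lit 0x1ca6000007)) e e)
 (c (a (nat_lit 0x4061)) e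
 (c (a (nat_lit 0x21)) e
 (c (a (nat_lit 0x2041)) e
 (c (a (nat_lit 0x2001)) e
 (c (a (nat_lit 0x202001)) e
 (c (a (nat_lit 0x2001)) e
 (c (a (nat_lit 0x2602001)) e
 (c (a (nat_lit 0x1a08001)) e
 (c (a (nat_lit 0x2c02001)) e
 (c (a (nat_lit 0x2404001)) e e)))))))))))
 (c (a (nat_lit 0x2021))
 (c (a (nat_lit 0x2021)) e
 (c (a (nat_lit 0x404001)) e
 (c (a (nat_lit 0x804021)) e
 (c (a (nat_lit 0x4081)) e
 (c (a (nat_lit 0x6001)) e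
 (c (a (nat_lit 0x402041)) e
 (c (a (nat_lit 0x202001)) e
 (c (a (nat_lit 0x200001)) e
 (c (a (nat_lit 0x21)) e
 (c (a (nat_lit 0x200001)) e e))))))))))
 (c (a (nat_lit 0x2021))
 (c (a (nat_lit 0x602021)) e
 (c (a (nat_lit 0x202001)) e
 (c (a (nat_lit 0x808021)) e
 (c (a (nat_lit 0x408001)) e
 (c (a (nat_lit 0x804001)) e
 (c (a (nat_lit 0xa04001)) e
 (c (nat_lit 1) e
 (c (a (nat_lit 0x402001)) e e))))))))
 (c (a (nat_lit 0x2021))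
 (c (a (nat_lit 0x202021)) e
 (c (a (nat_lit 0x202021)) e
 (c (a (nat_lit 0x202021)) e
 (c (a (nat_lit 0x202021)) e
 (c (a (nat_lit 0x202021)) e
 (c (a (nat_lit 0x202021)) e
 (c (a (nat_lit 0x200001)) e e)))))))
 (c (a (nat_lit 0x2021))
 (c (a (nat_lit 0x202021)) e
 (c (a (nat_lit 0x202021)) e
 (c (a (nat_lit 0x202021)) e
 (c (a (nat_lit 0x202021)) e
 (c (a (nat_lit 0x202001)) e e)))))
 (c (a (nat_lit 0x2021))
 (c (a (nat_lit 0x202021)) e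
 (c (a (nat_lit 0x202021)) e
 (c (a (nat_lit 0x202021)) e
 (c (a (nat_lit 0x200001)) e e))))
 (c (a (nat_lit 0x2021))
 (c (a (nat_lit 0x202021)) e
 (c (a (nat_lit 0x202001)) e e))
 (c (a (nat_lit 0x2021))
 (c (a (nat_lit 0x200001)) e e)
 (c (a (nat_lit 0x2021)) e
 (c (a (nat_lit 0x2021)) e
 (c (a (nat_lit 0x2021)) e
 (c (a (nat_lit 0x2021)) e
 (c (a (nat_lit 0x2021)) e
 (c (a (nat_lit 0x2021)) e
 (c (a (nat_lit 0x2021)) e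
 (c (a (nat_lit 0x2041)) e
 (c z e
 (c (a (nat_lit 0x4041)) e
 (c (a (nat_lit 0x61)) e e)))))))))))))))))))))))) Tr.c Tr.e (nat_lit 0) C.cx C.cy
noncomputable def C37 : Tr := beta% (fun (c : Nat → Tr → Tr → Tr) (e : Tr) (z : Nat) (a b : Nat → Nat) =>
 (c (a (nat_lit 0x2021))
 (c (a (nat_lit 0x202021))
 (c (a (nat_lit 0x40200021))
 (c (a (nat_lit 0x1313f3f6c866)) e
 (c (a (nat_lit 0x1b5b5c44c027)) e
 (c (a (nat_lit 0x1b3acd2c0547)) e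
 (c (b (nat_lit 0x135fffe4e227)) e
 (c (a (nat_lit 0x19e30cc04004)) e
 (c (a (nat_lit 0xdf2a0000001)) e e))))))
 (c (a (nat_lit 0x20205983))
 (c (a (nat_lit 0x1153c5038388)) e
 (c (a (nat_lit 0x1086c64223e9)) e
 (c (a (nat_lit 0x4c8f6aac866)) e
 (c (a (nat_lit 0x1a6b80c00005)) e
 (c (a (nat_lit 0x11c000000004)) e e)))))
 (c (a (nat_lit 0x3c9c9c85))
 (c (a (nat_lit 0x1e51d0d06e66)) e
 (c (a (nat_lit 0x4f355a74006)) e
 (c (a (nat_lit 0x1290c0000005)) e e)))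
 (c (a (nat_lit 0x20c0e001))
 (c (a (nat_lit 0xa14a0400004)) e
 (c (a (nat_lit 0x18a000000002)) e e))
 (c (a (nat_lit 0x15b5b5a024)) e
 (c (a (nat_lit 0x241a161)) e
 (c (a (nat_lit 0x20207364)) e
 (c (a (nat_lit 0x202dbda6)) e
 (c z e
 (c (a (nat_lit 0x19dfffffe7)) e
 (c (a (nat_lit 0x6f0101008)) e
 (c (a (nat_lit 0x14bd5d4ea7)) e
 (c (a (nat_lit 0x1d4ea00007)) e e)))))))))))))
 (c (a (nat_lit 0x202041))
 (c (a (nat_lit 0x30b53525))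
 (c (a (nat_lit 0x196e0605c5c7)) e
 (c (a (nat_lit 0x1968e5856567)) e
 (c (a (nat_lit 0x1635b70ac005)) e
 (c (a (nat_lit 0x7200000003)) e e))))
 (c (a (nat_lit 0x181e0a1))
 (c (a (nat_lit 0x12ea00c0c025)) e
 (c (a (nat_lit 0x1494a1200004)) e
 (c (a (nat_lit 0x3a000000001)) e e)))
 (c (a (nat_lit 0xe0c16001))
 (c (a (nat_lit 0x160040000004)) e e)
 (c (a (nat_lit 0x1616001)) e
 (c (a (nat_lit 0x20a0e1c1)) e
 (c (a (nat_lit 0x202091c6)) e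
 (c (a (nat_lit 0x33f85c48)) e
 (c z e
 (c (a (nat_lit 0xff49493a8)) e
 (c (a (nat_lit 0x1213b2d2c8)) e
 (c (a (nat_lit 0x11b188c008)) e
 (c (a (nat_lit 0x1180000007)) e e))))))))))))
 (c (a (nat_lit 0x202021))
 (c (a (nat_lit 0xe081a101))
 (c (a (nat_lit 0x384c4e1c001)) e
 (c (a (nat_lit 0x92360000001)) e e))
 (c (a (nat_lit 0x261836121))
 (c (a (nat_lit 0x24000000001)) e e)
 (c (a (nat_lit 0x20203b05)) e
 (c (a (nat_lit 0x20203026)) e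
 (c (a (nat_lit 0x2d9878c8)) e
 (c (a (nat_lit 0xc4f909109)) e
 (c z e
 (c (a (nat_lit 0xe3392b2a8)) e
 (c (a (nat_lit 0x1012b2aa08)) e
 (c (a (nat_lit 0x1148a00008)) e e))))))))))
 (c (a (nat_lit 0x2021))
 (c (a (nat_lit 0x20203ae4)) e
 (c (a (nat_lit 0x20205786)) e
 (c (a (nat_lit 0x2c9d5d87)) e
 (c (a (nat_lit 0xd51312fc8)) e
 (c z e
 (c (a (nat_lit 0x109859ec29)) e
 (c (a (nat_lit 0x10b2b2b408)) e
 (c (a (nat_lit 0xff2aa0008)) e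
 (c (a (nat_lit 0x15c0000006)) e e)))))))))
 (c (a (nat_lit 0x2001))
 (c (a (nat_lit 0x234b58a6)) e
 (c (a (nat_lit 0x80c708ba8)) e
 (c (a (nat_lit 0x135595c2a8)) e
 (c (a (nat_lit 0x1bdbce46c8)) e
 (c (a (nat_lit 0x15baf41548)) e
 (c (a (nat_lit 0x652f44a28)) e
 (c (a (nat_lit 0xb74400007)) e e)))))))
 (c (a (nat_lit 0x404041))
 (c (a (nat_lit 0x10710be0e7)) e
 (c (a (nat_lit 0x1310602287)) e
 (c (a (nat_lit 0x1cc66ab8c7)) e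
 (c (b (nat_lit 0x1e64065fe7)) e
 (c (a (nat_lit 0x3329a008)) e
 (c (a (nat_lit 0xa0000001)) e e))))))
 (c (a (nat_lit 0x2021))
 (c (a (nat_lit 0x1201c036e7)) e
 (c (a (nat_lit 0x380cabee8)) e
 (c (a (nat_lit 0xe093108)) e
 (c (a (nat_lit 0x126ee00008)) e e))))
 (c (b (nat_lit 0x3fe1))
 (c (a (nat_lit 0xc0a9d0a9)) e
 (c z e
 (c (a (nat_lit 0x20000001)) e e)))
 (c (b (nat_lit 0x17fe1)) e
 (c (a (nat_lit 0x4081)) e
 (c z e
 (c (a (nat_lit 0xc06001)) e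
 (c (a (nat_lit 0x406001)) e
 (c (a (nat_lit 0xc06001)) e
 (c (a (nat_lit 0x202001)) e
 (c (nat_lit 1) e
 (c (a (nat_lit 0x80c021)) e
 (c (a (nat_lit 0x2001)) e
 (c (a (nat_lit 0x200001)) e
 (c (a (nat_lit 0x606001)) e e))))))))))))))))))))
 (c (a (nat_lit 0x2021))
 (c (nat_lit 1)
 (c (a (nat_lit 0x1fbdbdba1))
 (c (a (nat_lit 0x1b6383838384)) e
 (c (a (nat_lit 0x10474c07c3c3)) e
 (c (a (nat_lit 0xe7787a00002)) e
 (c (a (nat_lit 0x2000000001)) e e))))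
 (c (a (nat_lit 0xa08260c1))
 (c (a (nat_lit 0x48f4642e001)) e
 (c (a (nat_lit 0x1a4300000001)) e e))
 (c (a (nat_lit 0x8060e001))
 (c (a (nat_lit 0x12000000001)) e e)
 (c (a (nat_lit 0x12d1204001)) e
 (c (a (nat_lit 0x402038a2)) e
 (c (a (nat_lit 0x202211e6)) e
 (c (a (nat_lit 0x5b2969688)) e
 (c (a (nat_lit 0x1458f8f808)) e
 (c (a (nat_lit 0x1272726ea6)) e
 (c (a (nat_lit 0x1d5d574ba5)) e
 (c (a (nat_lit 0x184ca00005)) e e)))))))))))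
 (c (nat_lit 1)
 (c (a (nat_lit 0x261620001))
 (c (a (nat_lit 0x7a542000001)) e
 (c (a (nat_lit 0x72000000001)) e e))
 (c (a (nat_lit 0x301a0c001)) e
 (c (a (nat_lit 0x1e1811922)) e
 (c (a (nat_lit 0x20203226)) e
 (c (a (nat_lit 0xae52b928)) e
 (c (a (nat_lit 0xbb2d4d389)) e
 (c (a (nat_lit 0x16587872c9)) e
 (c (a (nat_lit 0x10908eed07)) e
 (c (a (nat_lit 0x19f9eb6006)) e
 (c (a (nat_lit 0x1680000005)) e e))))))))))
 (c (nat_lit 1)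
 (c (a (nat_lit 0xc0609881)) e
 (c (a (nat_lit 0x20215f06)) e
 (c (a (nat_lit 0x20307f26)) e
 (c (a (nat_lit 0xf7112ac88)) e
 (c z e
 (c (a (nat_lit 0x151712e769)) e
 (c (a (nat_lit 0x1d9dbdaea6)) e
 (c (a (nat_lit 0x19eea00006)) e e))))))))
 (c (nat_lit 1)
 (c (a (nat_lit 0x162377366)) e
 (c (a (nat_lit 0x4f544d67)) e
 (c (a (nat_lit 0x14548b0b28)) e
 (c (a (nat_lit 0x173573b5a8)) e
 (c (a (nat_lit 0x16516e0828)) e
 (c (a (nat_lit 0xf71096007)) e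
 (c (a (nat_lit 0x1dc0000005)) e e)))))))
 (c (a (nat_lit 0x402021))
 (c (a (nat_lit 0x911916ae6)) e
 (c (a (nat_lit 0xb044056c8)) e
 (c (a (nat_lit 0x18151d9c68)) e
 (c (a (nat_lit 0x62d8e5428)) e
 (c (a (nat_lit 0x1ff0800006)) e e)))))
 (c (a (nat_lit 0x1618001))
 (c (a (nat_lit 0x1c02d7828)) e
 (c (a (nat_lit 0x1848ab1aa)) e
 (c (a (nat_lit 0xc10f04009)) e
 (c (a (nat_lit 0x12c0000007)) e e))))
 (c z
 (c (a (nat_lit 0x2cc1406c9)) e e)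
 (c (a (nat_lit 0x834081)) e
 (c (a (nat_lit 0x403a43)) e
 (c (a (nat_lit 0x6041)) e
 (c (a (nat_lit 0x2021)) e
 (c (a (nat_lit 0x4001)) e
 (c (nat_lit 1) e
 (c (a (nat_lit 0x2001)) e
 (c (a (nat_lit 0x6038c2)) e
 (c (a (nat_lit 0x4001)) e
 (c (nat_lit 1) e
 (c (a (nat_lit 0x604021)) e
 (c (a (nat_lit 0x200001)) e e)))))))))))))))))))
 C36))) Tr.c Tr.e (nat_lit 0) C.cx C.cy
noncomputable def C38 : Tr := beta% (fun (c : Nat → Tr → Tr → Tr) (e : Tr) (z : Nat) (a b : Nat → Nat) =>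
 (c (a (nat_lit 0x202021))
 (c (a (nat_lit 0x1980200002))
 (c (a (nat_lit 0x1b3b7b5b3b22))
 (c z e
 (c (a (nat_lit 0x1386c000000005)) e e))
 (c (a (nat_lit 0x1cfcbcbcc184)) e
 (c (a (nat_lit 0x2c2e3007126)) e
 (c (a (nat_lit 0x20d43046)) e
 (c (a (nat_lit 0x105b77eec65)) e
 (c (a (nat_lit 0x104944e645)) e
 (c (a (nat_lit 0x10e3234ae265)) e
 (c (a (nat_lit 0x1cb047e00005)) e
 (c (a (nat_lit 0x1d2000000003)) e e)))))))))
 (c (a (nat_lit 0x120c06001))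
 (c (a (nat_lit 0x6c6c6e299a7)) e
 (c (a (nat_lit 0x787a5792ba8)) e
 (c (a (nat_lit 0x363110ae8a9)) e
 (c (b (nat_lit 0x4f18a9fe028)) e
 (c (a (nat_lit 0x10a8a1618247)) e
 (c (a (nat_lit 0xf7c2f78004)) e
 (c (a (nat_lit 0x1da060000004)) e e)))))))
 (c (a (nat_lit 0x20600001))
 (c (a (nat_lit 0x2a2aaf26208)) e
 (c (b (nat_lit 0x6d5fd06dfe8)) e
 (c z e
 (c (a (nat_lit 0x14e0a080e168)) e
 (c (a (nat_lit 0x1a8168400003)) e
 (c (a (nat_lit 0x1d2000000001)) e e))))))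
 (c (a (nat_lit 0x40600001))
 (c (b (nat_lit 0x11d7dfe68027)) e
 (c (b (nat_lit 0x129fe2e30028)) e
 (c (a (nat_lit 0x73ce0682005)) e
 (c (a (nat_lit 0x188c60000004)) e e))))
 (c (a (nat_lit 0x205403))
 (c (a (nat_lit 0x1dd98da6e1a6)) e
 (c (a (nat_lit 0x116726000007)) e
 (c (a (nat_lit 0x14c000000004)) e e)))
 (c (a (nat_lit 0xcb17185))
 (c (a (nat_lit 0x1c6d60000005)) e e)
 (c (a (nat_lit 0x33f3f423)) e
 (c (a (nat_lit 0x1a9adc5b83)) e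
 (c (a (nat_lit 0x446006001)) e
 (c (a (nat_lit 0x810001)) e
 (c (a (nat_lit 0x64b65d9e6)) e
 (c (a (nat_lit 0x4100a041)) e
 (c (a (nat_lit 0x6080c021)) e
 (c (a (nat_lit 0xe0c12021)) e
 (c (a (nat_lit 0xa0200001)) e e)))))))))))))))
 (c (a (nat_lit 0x202021))
 (c (a (nat_lit 0x161004001))
 (c (a (nat_lit 0x1676751f91c7)) e
 (c (a (nat_lit 0xdad51cce029)) e
 (c (a (nat_lit 0xb11cf880509)) e
 (c (b (nat_lit 0xcb13fffe3a8)) e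
 (c (a (nat_lit 0x190381056127)) e
 (c (a (nat_lit 0x1720a4a00005)) e
 (c (a (nat_lit 0x48000000001)) e e)))))))
 (c (a (nat_lit 0xe0604001))
 (c (a (nat_lit 0xebb5ee02048)) e
 (c (a (nat_lit 0x157a2ac52009)) e
 (c (b (nat_lit 0x149fffe5c2a9)) e
 (c (a (nat_lit 0x134549e68007)) e
 (c (a (nat_lit 0xb5860000004)) e e)))))
 (c (a (nat_lit 0x2031b686))
 (c (a (nat_lit 0x104948432489)) e
 (c (a (nat_lit 0xc48922c2908)) e
 (c (a (nat_lit 0x12ea07400007)) e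
 (c (a (nat_lit 0x12e000000005)) e e))))
 (c (a (nat_lit 0x2f0f3126))
 (c (a (nat_lit 0x859b4c8a006)) e
 (c (a (nat_lit 0x170ba0000006)) e e))
 (c (a (nat_lit 0xf554e182))
 (c (a (nat_lit 0x4000000001)) e e)
 (c (a (nat_lit 0x1adafae025)) e
 (c (a (nat_lit 0x1837977683)) e
 (c (a (nat_lit 0x20203107)) e
 (c z e
 (c (a (nat_lit 0x572886ca8)) e
 (c (a (nat_lit 0x12100e061)) e
 (c (a (nat_lit 0x1e4618141)) e
 (c (a (nat_lit 0x460c0e001)) e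
 (c (a (nat_lit 0xc0000001)) e e))))))))))))))
 (c (a (nat_lit 0x202021))
 (c (a (nat_lit 0x40403fe3))
 (c (a (nat_lit 0xc9eea230287)) e
 (c (a (nat_lit 0x158602c0a0c9)) e
 (c (a (nat_lit 0x1aac43e24127)) e
 (c (a (nat_lit 0x158164c00005)) e
 (c (a (nat_lit 0x12e000000003)) e e)))))
 (c (a (nat_lit 0x38ec8cc3))
 (c (a (nat_lit 0x2bfd04b8365)) e
 (c (a (nat_lit 0x18cd52010006)) e
 (c (a (nat_lit 0x14f8a0000005)) e e)))
 (c (a (nat_lit 0x14201e181))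
 (c (a (nat_lit 0xa34e0600005)) e
 (c (a (nat_lit 0x16a000000005)) e e))
 (c (a (nat_lit 0x1595b60065)) e
 (c (a (nat_lit 0x810181)) e
 (c (a (nat_lit 0x202027026)) e
 (c (a (nat_lit 0xe9454c8)) e
 (c (a (nat_lit 0xff0d0ee09)) e
 (c (a (nat_lit 0x1556c0e027)) e
 (c (a (nat_lit 0x5a60a063)) e
 (c (a (nat_lit 0x94ca381)) e
 (c (a (nat_lit 0xe00001)) e e))))))))))))
 (c (nat_lit 1)
 (c (a (nat_lit 0x101210021))
 (c (a (nat_lit 0x130a20806024)) e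
 (c (a (nat_lit 0x151541200003)) e
 (c (a (nat_lit 0x188000000004)) e e)))
 (c (a (nat_lit 0xe1624101))
 (c (a (nat_lit 0x162060000004)) e e)
 (c (a (nat_lit 0xe1e260a1)) e
 (c (a (nat_lit 0x203d65)) e
 (c (a (nat_lit 0x2dd3d3c8)) e
 (c (a (nat_lit 0x698fd9c88)) e
 (c (a (nat_lit 0x1f1f1f7c48)) e
 (c (a (nat_lit 0x12d642cda7)) e
 (c (a (nat_lit 0x141e40141)) e
 (c (a (nat_lit 0xe74001)) e
 (c (nat_lit 1) e e)))))))))))
 (c (a (nat_lit 0x202021))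
 (c (a (nat_lit 0x1a260a041))
 (c (a (nat_lit 0x10000000001)) e e)
 (c (a (nat_lit 0x2077e5)) e
 (c (a (nat_lit 0x2f19df67)) e
 (c (a (nat_lit 0xe147550e8)) e
 (c (a (nat_lit 0x19fa78f888)) e
 (c (a (nat_lit 0x1abadab6c8)) e
 (c (a (nat_lit 0xd33c04026)) e
 (c (a (nat_lit 0x2220781e1)) e
 (c (a (nat_lit 0x1e00001)) e e)))))))))
 (c (a (nat_lit 0x402021))
 (c (a (nat_lit 0x7353b1b06)) e
 (c (a (nat_lit 0xd90908f28)) e
 (c (a (nat_lit 0x149493e8a8)) e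
 (c (a (nat_lit 0x1695f56368)) e
 (c (a (nat_lit 0x19191c9327)) e
 (c (a (nat_lit 0x591a2a386)) e
 (c (a (nat_lit 0x103c1a001)) e
 (c (a (nat_lit 0xc0000001)) e e))))))))
 (c (a (nat_lit 0x202021))
 (c (a (nat_lit 0x139393c007)) e
 (c (a (nat_lit 0x1d5d8d4027)) e
 (c (a (nat_lit 0x1b73c028c7)) e
 (c (a (nat_lit 0x11b1cbf047)) e
 (c (a (nat_lit 0x54e02024)) e
 (c (a (nat_lit 0x101800001)) e e))))))
 (c (a (nat_lit 0x2001))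
 (c (a (nat_lit 0x1988602006)) e
 (c (a (nat_lit 0x1c248035e7)) e
 (c (a (nat_lit 0x1c60202027)) e
 (c (a (nat_lit 0x35002004)) e
 (c (nat_lit 1) e e)))))
 (c (a (nat_lit 0x202021))
 (c (a (nat_lit 0x3c0203c47)) e
 (c (a (nat_lit 0x120297108)) e
 (c (a (nat_lit 0x32800007)) e e)))
 (c (a (nat_lit 0x202061))
 (c (a (nat_lit 0x35e2006)) e
 (c (a (nat_lit 0x20000001)) e e))
 (c (a (nat_lit 0x4021)) e
 (c (a (nat_lit 0x2021)) e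
 (c (a (nat_lit 0x206001)) e
 (c (a (nat_lit 0x806081)) e
 (c (a (nat_lit 0x4041)) e
 (c (a (nat_lit 0x4001)) e
 (c (nat_lit 1) e
 (c (nat_lit 1) e
 (c (a (nat_lit 0xc1)) e
 (c (a (nat_lit 0x20e1)) e
 (c (a (nat_lit 0x2081)) e
 (c (a (nat_lit 0x200001)) e e))))))))))))))))))))))) Tr.c Tr.e (nat_lit 0) C.cx C.cy
noncomputable def C39 : Tr := beta% (fun (c : Nat → Tr → Tr → Tr) (e : Tr) (z : Nat) (a b : Nat → Nat) =>
 (c (a (nat_lit 0x202021))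
 (c (a (nat_lit 0x1373604004))
 (c (a (nat_lit 0x1757777756c4))
 (c (a (nat_lit 0x92051d9060005)) e
 (c (a (nat_lit 0x5761640000002)) e e))
 (c (a (nat_lit 0x18389817b825))
 (c (a (nat_lit 0x1860c000000003)) e e)
 (c (a (nat_lit 0x90f91522e06)) e
 (c (a (nat_lit 0xa0a142bce7)) e
 (c (a (nat_lit 0x4c2e2f04de7)) e
 (c (a (nat_lit 0x545572ee9a7)) e
 (c (a (nat_lit 0x37526ff106)) e
 (c (a (nat_lit 0x11158d086007)) e
 (c (a (nat_lit 0x15020000006)) e e)))))))))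
 (c (a (nat_lit 0x1360202005))
 (c (a (nat_lit 0x2eb6b6b7587))
 (c (a (nat_lit 0x1b400000000005)) e e)
 (c (a (nat_lit 0x608d3d28)) e
 (c (a (nat_lit 0x3c3ed364589)) e
 (c z e
 (c z e
 (c (b (nat_lit 0x11bfef3cbce6)) e
 (c (a (nat_lit 0x1e905e600004)) e
 (c (nat_lit 1) e e))))))))
 (c (a (nat_lit 0x240e14001))
 (c (a (nat_lit 0x645ad4e7)) e
 (c (b (nat_lit 0x58814127fe9)) e
 (c z e
 (c z e
 (c (a (nat_lit 0x1a35e6ad4007)) e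
 (c (a (nat_lit 0x5e20000005)) e e))))))
 (c (a (nat_lit 0xa04001))
 (c (b (nat_lit 0x552299fffe8)) e
 (c z e
 (c (b (nat_lit 0x3ff288a5c8)) e
 (c (b (nat_lit 0x1fe971600006)) e
 (c (a (nat_lit 0x104000000004)) e e)))))
 (c (a (nat_lit 0x602001))
 (c (b (nat_lit 0x13a81fe5a0e8)) e
 (c (b (nat_lit 0x111ff9ae4007)) e
 (c (a (nat_lit 0x1a3960000005)) e e)))
 (c (a (nat_lit 0x202f3406))
 (c (a (nat_lit 0x1d2feae00007)) e
 (c (a (nat_lit 0x1c6000000006)) e e))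
 (c (a (nat_lit 0xe3312e6)) e
 (c (a (nat_lit 0x10da7a6d85)) e
 (c (a (nat_lit 0x384226001)) e
 (c (a (nat_lit 0xe0e030e5)) e
 (c (a (nat_lit 0xb13e84026)) e
 (c (a (nat_lit 0x35004024)) e
 (c (a (nat_lit 0x194201c1a2)) e
 (c (a (nat_lit 0x808001)) e
 (c (a (nat_lit 0x221c04001)) e
 (c (a (nat_lit 0x220000001)) e e))))))))))))))))
 (c (a (nat_lit 0x202021))
 (c (a (nat_lit 0x1a1008001))
 (c (a (nat_lit 0x1151515fba87)) e
 (c (a (nat_lit 0xe8e939167a9)) e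
 (c (a (nat_lit 0xcd2d165c5e9)) e
 (c z e
 (c z e
 (c (b (nat_lit 0x1ebfe1260006)) e
 (c (a (nat_lit 0x15e3c0000001)) e e)))))))
 (c (a (nat_lit 0x180e08001))
 (c (a (nat_lit 0x113b1afa0448)) e
 (c z e
 (c z e
 (c z e
 (c (a (nat_lit 0x150427000007)) e e)))))
 (c (a (nat_lit 0x160802001))
 (c z e
 (c z e
 (c (a (nat_lit 0x12708641a008)) e
 (c (a (nat_lit 0xad4c0000006)) e e))))
 (c (a (nat_lit 0x304426))
 (c (a (nat_lit 0x993f575a4c7)) e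
 (c (a (nat_lit 0x15698aa00008)) e
 (c (a (nat_lit 0x11c000000005)) e e)))
 (c (a (nat_lit 0x1a1a3a06))
 (c (a (nat_lit 0x178de0000006)) e e)
 (c (a (nat_lit 0x22020001)) e
 (c (a (nat_lit 0xb4ac92001)) e
 (c (a (nat_lit 0x20203f27)) e
 (c z e
 (c (a (nat_lit 0xfb10028)) e
 (c (a (nat_lit 0x37616028)) e
 (c (a (nat_lit 0x47238001)) e
 (c (a (nat_lit 0xc3e16021)) e
 (c (a (nat_lit 0x581200001)) e e))))))))))))))
 (c (a (nat_lit 0x21))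
 (c (a (nat_lit 0x100806001))
 (c (a (nat_lit 0x111739330046)) e
 (c (a (nat_lit 0x10562c6221e8)) e
 (c (a (nat_lit 0x1cf5c5822008)) e
 (c (a (nat_lit 0x126522008008)) e
 (c (a (nat_lit 0xd5c80000004)) e e)))))
 (c (a (nat_lit 0x20203964))
 (c (a (nat_lit 0x1b2d0422a2c8)) e
 (c (a (nat_lit 0x150801e180c9)) e
 (c (a (nat_lit 0x1222a1e00008)) e e)))
 (c (a (nat_lit 0x382ccc43))
 (c (a (nat_lit 0x1eeec900e006)) e
 (c (a (nat_lit 0x11c800000006)) e e))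
 (c (a (nat_lit 0x183801a2))
 (c (a (nat_lit 0x122000000003)) e e)
 (c (a (nat_lit 0x1b1afae005)) e
 (c (a (nat_lit 0xa0411d65)) e
 (c (a (nat_lit 0x79013b3a8)) e
 (c (a (nat_lit 0xf31f1fba8)) e
 (c (a (nat_lit 0x13d3f4c907)) e
 (c (a (nat_lit 0xcd0444027)) e
 (c (a (nat_lit 0x1e4080a004)) e
 (c (a (nat_lit 0x2a1810001)) e
 (c (a (nat_lit 0x1080000004)) e e)))))))))))))
 (c (a (nat_lit 0x204041))
 (c (a (nat_lit 0x2c5f5f03))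
 (c (a (nat_lit 0x152644280406)) e
 (c (a (nat_lit 0x1289ade22006)) e
 (c (a (nat_lit 0x177600000005)) e e)))
 (c (a (nat_lit 0x2a2e0e1))
 (c (a (nat_lit 0xcd4e0400005)) e
 (c (a (nat_lit 0x11a000000006)) e e))
 (c (a (nat_lit 0x15d5d640a5)) e
 (c (a (nat_lit 0x20205985)) e
 (c (a (nat_lit 0x2c8fb088)) e
 (c (a (nat_lit 0xe91b290a8)) e
 (c (a (nat_lit 0x19973695e8)) e
 (c (a (nat_lit 0x1212716ba7)) e
 (c (a (nat_lit 0xdf483c3e6)) e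
 (c (a (nat_lit 0x1a80404005)) e
 (c (a (nat_lit 0x800001)) e e)))))))))))
 (c (a (nat_lit 0x2021))
 (c (a (nat_lit 0xe0e22001))
 (c (a (nat_lit 0x162020000004)) e e)
 (c (a (nat_lit 0x80807d25)) e
 (c (a (nat_lit 0xca90f387)) e
 (c (a (nat_lit 0x1098383088)) e
 (c (a (nat_lit 0x1050468609)) e
 (c (a (nat_lit 0x1494cca949)) e
 (c (a (nat_lit 0xe2e4fd366)) e
 (c (a (nat_lit 0x14804024)) e
 (c (a (nat_lit 0x2024001)) e
 (c (a (nat_lit 0x20000001)) e e))))))))))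
 (c (a (nat_lit 0x202021))
 (c (a (nat_lit 0x816bd1d06)) e
 (c (a (nat_lit 0x175dbdbd27)) e
 (c (a (nat_lit 0x1b54322a68)) e
 (c (a (nat_lit 0x12aead0488)) e
 (c (a (nat_lit 0x1bf7b7bf06)) e
 (c (a (nat_lit 0x1e1e1e161)) e
 (c (a (nat_lit 0x55406024)) e
 (c (a (nat_lit 0x4200001)) e e))))))))
 (c (a (nat_lit 0x202041))
 (c (a (nat_lit 0x1d5d7da926)) e
 (c (a (nat_lit 0x19597984c7)) e
 (c (a (nat_lit 0x1cbd35a026)) e
 (c (a (nat_lit 0x1591cd25c7)) e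
 (c (a (nat_lit 0x20e08001)) e
 (c (a (nat_lit 0x95802004)) e
 (c (a (nat_lit 0x1040000004)) e e)))))))
 (c (a (nat_lit 0x202021))
 (c (a (nat_lit 0x18f8ca4426)) e
 (c (a (nat_lit 0x1b94402027)) e
 (c (a (nat_lit 0x196f0073e7)) e
 (c (a (nat_lit 0x20572026)) e
 (c (a (nat_lit 0x10000007)) e e)))))
 (c (a (nat_lit 0x202021))
 (c (a (nat_lit 0x1020202027)) e
 (c (a (nat_lit 0x2c020d906)) e
 (c (a (nat_lit 0x255f4006)) e
 (c (a (nat_lit 0x20000001)) e e))))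
 (c (a (nat_lit 0x2001))
 (c (a (nat_lit 0x545c031e6)) e
 (c (a (nat_lit 0xa0600001)) e e))
 (c (a (nat_lit 0x202021))
 (c (a (nat_lit 0x20000001)) e e)
 (c (a (nat_lit 0x202041)) e
 (c (a (nat_lit 0x4001)) e
 (c (a (nat_lit 0x204061)) e
 (c (a (nat_lit 0x2061)) e
 (c (nat_lit 1) e
 (c (a (nat_lit 0x604001)) e
 (c (a (nat_lit 0x802001)) e
 (c (a (nat_lit 0x602001)) e
 (c (a (nat_lit 0x1204001)) e
 (c (a (nat_lit 0x2402001)) e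
 (c (a (nat_lit 0xc04001)) e e))))))))))))))))))))))) Tr.c Tr.e (nat_lit 0) C.cx C.cy
noncomputable def C40 : Tr := beta% (fun (c : Nat → Tr → Tr → Tr) (e : Tr) (z : Nat) (a b : Nat → Nat) =>
 (c (a (nat_lit 0x202021))
 (c (a (nat_lit 0x1fdfdfc186))
 (c (a (nat_lit 0x1b3b5b5b4d26))
 (c (a (nat_lit 0x186c81d4bfac65)) e
 (c (a (nat_lit 0xed40224600006)) e
 (c (a (nat_lit 0x18a06000000003)) e e)))
 (c (a (nat_lit 0x1b19b9bbf4e6))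
 (c (a (nat_lit 0x19e400a0000007)) e e)
 (c (a (nat_lit 0x74789902ee7)) e
 (c (b (nat_lit 0x1fff95f31825)) e
 (c (a (nat_lit 0x83391508686)) e
 (c (b (nat_lit 0x1257b446ffe7)) e
 (c (b (nat_lit 0xd329fffeee7)) e
 (c (b (nat_lit 0x11f43ff809c7)) e
 (c (a (nat_lit 0x190a8d200007)) e e)))))))))
 (c (a (nat_lit 0x101ae7a025))
 (c (b (nat_lit 0x1fe7ec4b9108))
 (c (a (nat_lit 0x14c3a000000007)) e e)
 (c (a (nat_lit 0x4a4b78d968)) e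
 (c (a (nat_lit 0x110e15f655a9)) e e)))
 (c (a (nat_lit 0x1980402004))
 (c (a (nat_lit 0x932377d2e86)) e e)
 (c (a (nat_lit 0x120806001))
 (c (a (nat_lit 0x8f1b26aa0a7)) e
 (c (b (nat_lit 0xb1b2c3fe1a7)) e
 (c (b (nat_lit 0xb7ffeb60107)) e
 (c (b (nat_lit 0xebff14b4008)) e
 (c (b (nat_lit 0x1ff5c0000007)) e e)))))
 (c (a (nat_lit 0x60604001))
 (c (b (nat_lit 0xae5ffe97346)) e
 (c (b (nat_lit 0x1ffffff763c7)) e
 (c (a (nat_lit 0x118c94200007)) e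
 (c (a (nat_lit 0x130000000006)) e e))))
 (c (a (nat_lit 0x40602021))
 (c (a (nat_lit 0x1740b1886007)) e
 (c (a (nat_lit 0xd9da0000006)) e e))
 (c (a (nat_lit 0x202e7346))
 (c (a (nat_lit 0x104000000006)) e e)
 (c (a (nat_lit 0x325252c6)) e
 (c (a (nat_lit 0x5a5a9a65)) e
 (c (a (nat_lit 0x20205ea5)) e
 (c (a (nat_lit 0x40614081)) e
 (c (a (nat_lit 0x3d002024)) e
 (c (a (nat_lit 0x3f002024)) e
 (c (a (nat_lit 0x6040e061)) e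
 (c (a (nat_lit 0x1300408024)) e
 (c (a (nat_lit 0x400001)) e e))))))))))))))))
 (c (a (nat_lit 0x202021))
 (c (a (nat_lit 0x1380402004))
 (c (a (nat_lit 0x3500e395aa7)) e
 (c (a (nat_lit 0xdad12938c69)) e
 (c (a (nat_lit 0xc9192aaeb09)) e e)))
 (c (a (nat_lit 0x80a0a001))
 (c (a (nat_lit 0x1218fcb02128)) e
 (c (a (nat_lit 0x13b80d482e29)) e e))
 (c (a (nat_lit 0xe0604001))
 (c (a (nat_lit 0x118ce89626e8)) e
 (c (a (nat_lit 0x1bf3d22a8aa8)) e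
 (c (a (nat_lit 0x5d4e742412a)) e
 (c (a (nat_lit 0x18c5e3a00009)) e
 (c (a (nat_lit 0x15e000000007)) e e)))))
 (c (a (nat_lit 0x80806001))
 (c (b (nat_lit 0x1afa7ff800c7)) e
 (c (a (nat_lit 0x1583eae3c009)) e
 (c (a (nat_lit 0x10c820000007)) e e)))
 (c (a (nat_lit 0x2ed386))
 (c (a (nat_lit 0xf744ca00007)) e
 (c (a (nat_lit 0x1aa000000006)) e e))
 (c (a (nat_lit 0x2df05067)) e
 (c (a (nat_lit 0x8db9b63a4)) e
 (c z e
 (c z e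
 (c (a (nat_lit 0x2befd2a7)) e
 (c (a (nat_lit 0x1014b62d48)) e
 (c (a (nat_lit 0x36a02048)) e
 (c (a (nat_lit 0x414100a1)) e
 (c (a (nat_lit 0x16140c001)) e
 (c (a (nat_lit 0x40000001)) e e)))))))))))))))
 (c (a (nat_lit 0x2021))
 (c (a (nat_lit 0x80600001))
 (c (a (nat_lit 0x70aa6a437c7)) e
 (c (a (nat_lit 0xdea493e11a8)) e
 (c (a (nat_lit 0x9e95dd045e8)) e
 (c z e
 (c (a (nat_lit 0x1acd60600008)) e e)))))
 (c (a (nat_lit 0xe0404001))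
 (c (a (nat_lit 0xaac5b6dcb68)) e
 (c (a (nat_lit 0x7970c27c009)) e
 (c (a (nat_lit 0x11a66160800a)) e
 (c (a (nat_lit 0x1ac820000008)) e e))))
 (c (a (nat_lit 0x1c080c001))
 (c (a (nat_lit 0x1bd285242048)) e
 (c (a (nat_lit 0x110363a00009)) e
 (c (a (nat_lit 0x1a8000000004)) e e)))
 (c (a (nat_lit 0xe2cb306))
 (c (a (nat_lit 0x1c90c0000006)) e e)
 (c (a (nat_lit 0x204056a5)) e
 (c (a (nat_lit 0x1111115907)) e
 (c z e
 (c (a (nat_lit 0xa72745087)) e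
 (c (a (nat_lit 0x1474b0f246)) e
 (c (a (nat_lit 0x10908fad07)) e
 (c (a (nat_lit 0x111a002026)) e
 (c (a (nat_lit 0xa0e220a1)) e
 (c (a (nat_lit 0xc00001)) e e)))))))))))))
 (c (a (nat_lit 0x202021))
 (c (a (nat_lit 0x20203343))
 (c (a (nat_lit 0xab129a36147)) e
 (c (a (nat_lit 0x1a4da5628148)) e
 (c (a (nat_lit 0x1fc5e2000007)) e e)))
 (c (a (nat_lit 0x37b7b7a3))
 (c (a (nat_lit 0x138828e0c007)) e
 (c (a (nat_lit 0x106c00000007)) e e))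
 (c (a (nat_lit 0x1c1c101))
 (c (a (nat_lit 0x1d6000000005)) e e)
 (c (a (nat_lit 0xdedadb566)) e
 (c (a (nat_lit 0x64f339368)) e
 (c z e
 (c (a (nat_lit 0x1191918e28)) e
 (c (a (nat_lit 0x112f2b4cc6)) e
 (c (a (nat_lit 0x1adafdfb45)) e
 (c (a (nat_lit 0x52202025)) e
 (c (a (nat_lit 0x60e10001)) e
 (c (a (nat_lit 0x11e0000007)) e e))))))))))))
 (c (a (nat_lit 0x21))
 (c (a (nat_lit 0xa0c0e001))
 (c (a (nat_lit 0xa9f60200004)) e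
 (c (a (nat_lit 0x140000000006)) e e))
 (c (a (nat_lit 0xacaeb5086)) e
 (c (a (nat_lit 0x49589e27)) e
 (c (a (nat_lit 0xdf2120fa8)) e
 (c (a (nat_lit 0x18181954e8)) e
 (c (a (nat_lit 0x14d4d24e28)) e
 (c (a (nat_lit 0x1e254544e5)) e
 (c (a (nat_lit 0x1b4261e461)) e
 (c (a (nat_lit 0x3e804024)) e
 (c (a (nat_lit 0x360e00001)) e e))))))))))
 (c (a (nat_lit 0x2021))
 (c (a (nat_lit 0x7d0545447)) e
 (c (a (nat_lit 0xcd0d0d0c8)) e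
 (c (a (nat_lit 0x143433ac88)) e
 (c (a (nat_lit 0x1d8fada548)) e
 (c (a (nat_lit 0x1270ccc6c7)) e
 (c (a (nat_lit 0x1426e02025)) e
 (c (a (nat_lit 0x1e80a06023)) e
 (c (a (nat_lit 0x198fa02005)) e
 (c (a (nat_lit 0x60000001)) e e)))))))))
 (c (a (nat_lit 0x202021))
 (c (a (nat_lit 0x10d0d0c667)) e
 (c (a (nat_lit 0x17b7b7b087)) e
 (c (a (nat_lit 0x1f7f7fed46)) e
 (c (a (nat_lit 0x13d40d8007)) e
 (c (a (nat_lit 0x15e02031a5)) e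
 (c (a (nat_lit 0xc1604021)) e
 (c (a (nat_lit 0x37600005)) e e)))))))
 (c (a (nat_lit 0x21))
 (c (a (nat_lit 0x181817ec26)) e
 (c (a (nat_lit 0x19d9d30027)) e
 (c (a (nat_lit 0x114dc02028)) e
 (c (a (nat_lit 0x19c0203be6)) e
 (c (a (nat_lit 0x8194006)) e
 (c (a (nat_lit 0x40000001)) e e))))))
 (c (a (nat_lit 0x202021))
 (c (a (nat_lit 0x1210602007)) e
 (c (a (nat_lit 0x1980202027)) e
 (c (a (nat_lit 0x3ec02024)) e
 (c (a (nat_lit 0x20200001)) e e))))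
 (c (a (nat_lit 0x202021))
 (c (a (nat_lit 0xf603264)) e
 (c (a (nat_lit 0x140406001)) e
 (c (a (nat_lit 0x20000001)) e e)))
 (c (a (nat_lit 0x202021))
 (c (a (nat_lit 0x200001)) e e)
 (c (a (nat_lit 0x21)) e
 (c (a (nat_lit 0x2021)) e
 (c (a (nat_lit 0x2021)) e
 (c (a (nat_lit 0x204021)) e
 (c (a (nat_lit 0x6001)) e
 (c (a (nat_lit 0x404001)) e
 (c (a (nat_lit 0xc06021)) e
 (c (a (nat_lit 0x200001)) e
 (c (a (nat_lit 0x402001)) e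
 (c (a (nat_lit 0xe06021)) e
 (c (a (nat_lit 0xe04021)) e
 (c (a (nat_lit 0x200001)) e e)))))))))))))))))))))))) Tr.c Tr.e (nat_lit 0) C.cx C.cy
noncomputable def C41 : Tr := beta% (fun (c : Nat → Tr → Tr → Tr) (e : Tr) (z : Nat) (a b : Nat → Nat) =>
 (c (a (nat_lit 0x202021))
 (c (nat_lit 1)
 (c (a (nat_lit 0x15d9bababaa2))
 (c (a (nat_lit 0x161f1c6d6053e3)) e
 (c (a (nat_lit 0xf2f87a6c7d226))
 (c (a (nat_lit 0x1307c00000000007)) e e)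
 (c (b (nat_lit 0xfa7a5d005bfe6)) e
 (c (a (nat_lit 0x6203749874a07)) e
 (c z e
 (c (a (nat_lit 0x37a160b2aba5)) e
 (c (a (nat_lit 0x15a0a265c00005)) e e)))))))
 (c (a (nat_lit 0x135636360024))
 (c (a (nat_lit 0x14ce918c747ae7)) e
 (c (a (nat_lit 0xd0b53e88db088)) e
 (c z e
 (c z e
 (c (b (nat_lit 0x1ff4bfe5482005)) e
 (c (a (nat_lit 0x12010160000006)) e e))))))
 (c (b (nat_lit 0x2ab5adfffe5)) e
 (c (a (nat_lit 0x4ae11d3d2e7)) e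
 (c (a (nat_lit 0x197d9f7bcee6)) e
 (c (a (nat_lit 0x131474509125)) e
 (c (a (nat_lit 0x1070ae4e9505)) e
 (c (a (nat_lit 0x1515145c7744)) e
 (c (a (nat_lit 0x565c88852c6)) e
 (c (a (nat_lit 0xc2aa8cff2a7)) e
 (c (a (nat_lit 0xd6037b60c66)) e
 (c (a (nat_lit 0xb90ed21c046)) e
 (c (a (nat_lit 0x1c1820200005)) e
 (c (a (nat_lit 0x16a000000005)) e e))))))))))))))
 (c (a (nat_lit 0x1383))
 (c (a (nat_lit 0xa0b3069c367))
 (c (a (nat_lit 0x110ecf19311987)) e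
 (c (a (nat_lit 0xa0dacef13f0a9)) e
 (c z e
 (c (a (nat_lit 0xa698c91a382e8)) e
 (c (a (nat_lit 0x14518d1e00006)) e
 (c (a (nat_lit 0x12e6c000000006)) e e))))))
 (c (a (nat_lit 0xdb41814f0c8))
 (c (a (nat_lit 0x16e6597d55b908)) e e)
 (c z e
 (c (a (nat_lit 0x161dd676c8a7)) e
 (c (a (nat_lit 0x890ef915125)) e
 (c (a (nat_lit 0x666c6ea32c7)) e
 (c (a (nat_lit 0xcad6f4e7347)) e
 (c (a (nat_lit 0xb0c6cf05008)) e
 (c (a (nat_lit 0x5a36b934388)) e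
 (c (a (nat_lit 0x128130faa87)) e
 (c (a (nat_lit 0xed307250007)) e
 (c (a (nat_lit 0x1ba0c0000006)) e e))))))))))))
 (c (a (nat_lit 0x2032e505))
 (c (b (nat_lit 0x19ffffffe285))
 (c (a (nat_lit 0x988538547b8e6)) e e)
 (c z e
 (c z e
 (c z e
 (c (a (nat_lit 0x2891abe7)) e
 (c (a (nat_lit 0x1440a310b87)) e
 (c (a (nat_lit 0xb9cfc087)) e
 (c (b (nat_lit 0xeba3fffe7)) e
 (c (a (nat_lit 0x12d71ff69867)) e
 (c (a (nat_lit 0x194cb4e00006)) e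
 (c (a (nat_lit 0x174000000001)) e e)))))))))))
 (c (a (nat_lit 0x4d68e6e67))
 (c z e
 (c z e
 (c z e
 (c z e
 (c z e
 (c (a (nat_lit 0x89d5caf0028)) e
 (c (b (nat_lit 0xfb889fff4e8)) e
 (c z e
 (c (a (nat_lit 0x19a0000005)) e e)))))))))
 (c (a (nat_lit 0x11d1d1c507))
 (c z e
 (c (a (nat_lit 0x773b04cb228)) e e))
 (c (a (nat_lit 0x1afd2ec004))
 (c (a (nat_lit 0x1969272b6787)) e
 (c (a (nat_lit 0x136ed0a7e347)) e
 (c z e
 (c z e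
 (c (b (nat_lit 0x11dffea5e007)) e e)))))
 (c (a (nat_lit 0x1ac0804003))
 (c (a (nat_lit 0x686604afe26)) e
 (c (b (nat_lit 0xa8e0951bfe6)) e
 (c (a (nat_lit 0x2693c92987)) e e)))
 (c (a (nat_lit 0x60404001))
 (c (a (nat_lit 0x10042e49d2e6)) e
 (c (a (nat_lit 0x1c8326c007)) e
 (c (a (nat_lit 0x11e0a0000008)) e e)))
 (c (a (nat_lit 0xc0400001))
 (c (a (nat_lit 0xdd7b4800004)) e
 (c (a (nat_lit 0x14a000000002)) e e))
 (c (a (nat_lit 0x20204001)) e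
 (c (a (nat_lit 0x2dd026)) e
 (c (a (nat_lit 0x3b7ddda4)) e
 (c (a (nat_lit 0x608061)) e
 (c (a (nat_lit 0xe16b6ab85)) e
 (c (a (nat_lit 0x7d5002026)) e
 (c (a (nat_lit 0x4060a081)) e
 (c (a (nat_lit 0x60622621)) e
 (c (a (nat_lit 0x41a1e1)) e
 (c (a (nat_lit 0x200001)) e e)))))))))))))))))))
 (c (a (nat_lit 0x202021))
 (c (a (nat_lit 0x335363))
 (c (a (nat_lit 0x11985a0c0705))
 (c (a (nat_lit 0xa0b5a47118cc6)) e
 (c (a (nat_lit 0xcc4ccb9707088)) e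
 (c (a (nat_lit 0x9c86df1072d29)) e
 (c (a (nat_lit 0x1a5798d614007)) e
 (c (a (nat_lit 0x2ebd480000006)) e e)))))
 (c (a (nat_lit 0xcb75ad83668))
 (c (a (nat_lit 0x147936cab90e9)) e
 (c (a (nat_lit 0x94c138acb27aa)) e
 (c (a (nat_lit 0xaf2f143400009)) e e)))
 (c z e
 (c (a (nat_lit 0x1b4fd3a620e7)) e
 (c (a (nat_lit 0x14547e2c96e6)) e
 (c (a (nat_lit 0x9a9cff30c47)) e
 (c (a (nat_lit 0xfd094cdf387)) e
 (c (a (nat_lit 0x2d06be086)) e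
 (c (a (nat_lit 0x2178c9aa48)) e
 (c (a (nat_lit 0xce9a82e407)) e
 (c (a (nat_lit 0x129cfda00005)) e
 (c (a (nat_lit 0x182000000004)) e e))))))))))))
 (c (a (nat_lit 0xb16795948))
 (c (a (nat_lit 0xd59b9fbd4e8))
 (c (a (nat_lit 0x7b00c88b01148)) e
 (c (a (nat_lit 0xa7493a7c62009)) e
 (c (a (nat_lit 0x12f763e0000008)) e e)))
 (c z e
 (c z e
 (c z e
 (c z e
 (c (a (nat_lit 0xd7173d31029)) e
 (c (a (nat_lit 0xa71326a41c9)) e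
 (c (a (nat_lit 0x4100c853289)) e
 (c (a (nat_lit 0x9326acb0009)) e e)))))))))
 (c (a (nat_lit 0x10b0b0a9e8))
 (c (a (nat_lit 0xbd656573708))
 (c (a (nat_lit 0x11d9c280000008)) e e) e)
 (c (a (nat_lit 0x1414076005))
 (c (b (nat_lit 0x1fffe5e4f0c7)) e
 (c (a (nat_lit 0x150ac83b54a7)) e
 (c z e
 (c z e
 (c z e
 (c (b (nat_lit 0xf1ff4c8c009)) e e))))))
 (c (a (nat_lit 0x1860604004))
 (c (a (nat_lit 0xd0a14586767)) e
 (c (a (nat_lit 0x63478e3c1e7)) e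
 (c z e
 (c (b (nat_lit 0x13107feb8027)) e
 (c (b (nat_lit 0x1ffff8800007)) e e)))))
 (c (a (nat_lit 0x2a1012001))
 (c (a (nat_lit 0x24db0141e8)) e
 (c (b (nat_lit 0x18b65fffe2e5)) e
 (c (a (nat_lit 0x1950b74be007)) e
 (c (a (nat_lit 0x1a6c80000008)) e e))))
 (c (a (nat_lit 0x804001))
 (c (b (nat_lit 0x1ff2a4c522a8)) e
 (c (a (nat_lit 0x1878c8000007)) e
 (c (a (nat_lit 0x194000000007)) e e)))
 (c (a (nat_lit 0x100406001))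
 (c (a (nat_lit 0x147b40000004)) e e)
 (c (a (nat_lit 0x202c7126)) e
 (c (a (nat_lit 0x363d5e4)) e
 (c (a (nat_lit 0x5058001)) e
 (c (a (nat_lit 0x201810001)) e
 (c (a (nat_lit 0xf96808846)) e
 (c (a (nat_lit 0x1f604044)) e
 (c (a (nat_lit 0x40a120c1)) e
 (c (a (nat_lit 0x1700202026)) e
 (c (a (nat_lit 0x1e1e001)) e
 (c (a (nat_lit 0x20000001)) e e))))))))))))))))))
 C40))) Tr.c Tr.e (nat_lit 0) C.cx C.cy
noncomputable def C42 : Tr := beta% (fun (c : Nat → Tr → Tr → Tr) (e : Tr) (z : Nat) (a b : Nat → Nat) =>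
 (c (a (nat_lit 0x202021))
 (c (b (nat_lit 0x1fffe08001))
 (c (a (nat_lit 0x20b2d8d9168)) e
 (c (a (nat_lit 0x8ae2cb208c9)) e
 (c z e
 (c z e
 (c z e
 (c z e
 (c (a (nat_lit 0xe944c62e009)) e e)))))))
 (c (a (nat_lit 0x19a0402004))
 (c (a (nat_lit 0x136f782d5208)) e
 (c (a (nat_lit 0xb930db26bc9)) e
 (c (a (nat_lit 0xeac722ccc89)) e
 (c z e
 (c (a (nat_lit 0x7539c048149)) e
 (c (a (nat_lit 0x1a97c6600009)) e e))))))
 (c (a (nat_lit 0x604001))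
 (c (a (nat_lit 0xfcc5207da28)) e
 (c (a (nat_lit 0xb92886d4589)) e
 (c (a (nat_lit 0x749b367220a)) e
 (c (a (nat_lit 0x1d3b10244009)) e
 (c (a (nat_lit 0x190680000009)) e e)))))
 (c (a (nat_lit 0xe0a06041))
 (c (b (nat_lit 0x11cf7fe422c8)) e
 (c (b (nat_lit 0x12275fe4c029)) e
 (c (a (nat_lit 0x13efaa000008)) e
 (c (a (nat_lit 0x1a2000000007)) e e))))
 (c (a (nat_lit 0x204060c1))
 (c (a (nat_lit 0x13a309c36008)) e
 (c (a (nat_lit 0x16a8e0000007)) e e))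
 (c (a (nat_lit 0xe32c6))
 (c (a (nat_lit 0x1fe000000004)) e e)
 (c (a (nat_lit 0x2ff25247)) e
 (c z e
 (c (a (nat_lit 0xc70507069)) e
 (c (a (nat_lit 0x117c7bd887)) e
 (c (a (nat_lit 0xed7002c66)) e
 (c (a (nat_lit 0x652d5eca8)) e
 (c (a (nat_lit 0x1be06027)) e
 (c (a (nat_lit 0x4160e061)) e
 (c (a (nat_lit 0x80e00001)) e e)))))))))))))))
 (c (nat_lit 1)
 (c (a (nat_lit 0xa0604001))
 (c (a (nat_lit 0x2ac8e4c7166)) e
 (c (a (nat_lit 0x7c9a9c69ea8)) e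
 (c (a (nat_lit 0x90a631ea4a8)) e
 (c (a (nat_lit 0x9efbee3e308)) e
 (c (a (nat_lit 0x432c140c009)) e
 (c (a (nat_lit 0x18a240000008)) e e))))))
 (c (a (nat_lit 0xe0804001))
 (c (a (nat_lit 0x48524b223e9)) e
 (c (a (nat_lit 0x562b0e5c12a)) e
 (c (a (nat_lit 0x6790842810a)) e
 (c (a (nat_lit 0x1fc963e00009)) e
 (c (a (nat_lit 0x136000000008)) e e)))))
 (c (a (nat_lit 0x20203445))
 (c (a (nat_lit 0x4b90c242028)) e
 (c (a (nat_lit 0x1788a2c1a009)) e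
 (c (a (nat_lit 0x10c480000008)) e e)))
 (c (a (nat_lit 0x40235c24))
 (c (a (nat_lit 0x19f209800007)) e
 (c (a (nat_lit 0x1ca000000006)) e e))
 (c (a (nat_lit 0x3f5e5e45)) e
 (c (a (nat_lit 0x619fb7124)) e
 (c z e
 (c (a (nat_lit 0x10cd4d4f07)) e
 (c (a (nat_lit 0x1190d44ee6)) e
 (c (a (nat_lit 0x13b753f906)) e
 (c (a (nat_lit 0x12d2d816e6)) e
 (c (a (nat_lit 0x82e200c1)) e
 (c (a (nat_lit 0x2410001)) e
 (c (a (nat_lit 0x14a0000005)) e e))))))))))))))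
 (c (nat_lit 1)
 (c (a (nat_lit 0x40402001))
 (c (a (nat_lit 0x7033dcfe4a7)) e
 (c (a (nat_lit 0x17849e2a149)) e
 (c (a (nat_lit 0x1fcd63c22009)) e
 (c (a (nat_lit 0x1183c0000008)) e e))))
 (c (a (nat_lit 0x80608041))
 (c (a (nat_lit 0x11c883c1e069)) e
 (c (a (nat_lit 0x12e824c00009)) e
 (c (a (nat_lit 0x122000000006)) e e)))
 (c (a (nat_lit 0x1c1c1ba5))
 (c (a (nat_lit 0x1cedc0000007)) e e)
 (c (a (nat_lit 0x837dc5d46)) e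
 (c (a (nat_lit 0x8d4145448)) e
 (c z e
 (c (a (nat_lit 0x10d0f0ac27)) e
 (c (a (nat_lit 0x13f3f3cd86)) e
 (c (a (nat_lit 0x1b574029e5)) e
 (c (a (nat_lit 0x1380202025)) e
 (c (a (nat_lit 0x4101c061)) e
 (c (a (nat_lit 0x120600001)) e e))))))))))))
 (c (a (nat_lit 0x202021))
 (c (a (nat_lit 0x1385777a2))
 (c (a (nat_lit 0x18abe420c006)) e
 (c (a (nat_lit 0x10a7e0000007)) e e))
 (c (a (nat_lit 0x20c210a3))
 (c (a (nat_lit 0x152000000006)) e e)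
 (c (a (nat_lit 0x9385992c7)) e
 (c (a (nat_lit 0x16f7373388)) e
 (c (a (nat_lit 0x15f5e54327)) e
 (c (a (nat_lit 0x1087804004)) e
 (c (a (nat_lit 0x1858202026)) e
 (c (a (nat_lit 0x1160202025)) e
 (c (a (nat_lit 0x100a12281)) e
 (c (a (nat_lit 0x121612001)) e
 (c (a (nat_lit 0x20000001)) e e)))))))))))
 (c (a (nat_lit 0x202021))
 (c (a (nat_lit 0xe38d913a7)) e
 (c (a (nat_lit 0x1212525248)) e
 (c (a (nat_lit 0x13d3d3cda8)) e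
 (c (a (nat_lit 0x1e1e1d12a7)) e
 (c (a (nat_lit 0x12726fcda7)) e
 (c (a (nat_lit 0x1126c02026)) e
 (c (a (nat_lit 0x1180604004)) e
 (c (a (nat_lit 0x20314566)) e
 (c (a (nat_lit 0x3bc00005)) e e)))))))))
 (c (a (nat_lit 0x202021))
 (c (a (nat_lit 0x1030302627)) e
 (c (a (nat_lit 0x1878787187)) e
 (c (a (nat_lit 0x1353722f67)) e
 (c (a (nat_lit 0x119191c027)) e
 (c (a (nat_lit 0x167a804023)) e
 (c (a (nat_lit 0x202af5c6)) e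
 (c (a (nat_lit 0x38972005)) e
 (c (a (nat_lit 0x16a0000001)) e e))))))))
 (c (nat_lit 1)
 (c (a (nat_lit 0x1979795926)) e
 (c (a (nat_lit 0x1adab8a0a7)) e
 (c (a (nat_lit 0x1edeca7707)) e
 (c (a (nat_lit 0x1a40202026)) e
 (c (a (nat_lit 0x21371d03)) e
 (c (a (nat_lit 0x17a0200002)) e e))))))
 (c (a (nat_lit 0x202021))
 (c (a (nat_lit 0x107064c027)) e
 (c (a (nat_lit 0x1c02402027)) e
 (c (a (nat_lit 0x40a04021)) e
 (c (a (nat_lit 0x6020c001)) e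
 (c (a (nat_lit 0x80000001)) e e)))))
 (c (a (nat_lit 0x2021))
 (c (a (nat_lit 0xaf3f3e588)) e
 (c (a (nat_lit 0x2a04021)) e
 (c (a (nat_lit 0x320600001)) e e)))
 (c (a (nat_lit 0x202021))
 (c (a (nat_lit 0x20202001)) e
 (c (a (nat_lit 0x20000001)) e e))
 (c (a (nat_lit 0x202001)) e
 (c (a (nat_lit 0x202001)) e
 (c (a (nat_lit 0x4021)) e
 (c (a (nat_lit 0x4001)) e
 (c (a (nat_lit 0x202001)) e
 (c (a (nat_lit 0x2041)) e
 (c (a (nat_lit 0x4021)) e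
 (c (a (nat_lit 0x402001)) e
 (c (a (nat_lit 0x21)) e
 (c (a (nat_lit 0x204001)) e
 (c (a (nat_lit 0xa04001)) e
 (c (a (nat_lit 0x1404001)) e e))))))))))))))))))))))) Tr.c Tr.e (nat_lit 0) C.cx C.cy
noncomputable def C43 : Tr := beta% (fun (c : Nat → Tr → Tr → Tr) (e : Tr) (z : Nat) (a b : Nat → Nat) =>
 (c (a (nat_lit 0x202021))
 (c (a (nat_lit 0x202041))
 (c (a (nat_lit 0xf8f8f718004))
 (c (a (nat_lit 0x2f8706f68c65))
 (c z e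
 (c (a (nat_lit 0xd1637ed00000008)) e e))
 (c (a (nat_lit 0x2624245ec5088))
 (c (a (nat_lit 0xf91e66000000009)) e e)
 (c (a (nat_lit 0x3816a8f1f08a8)) e
 (c z e
 (c z e
 (c z e
 (c (a (nat_lit 0xd1311298c8007)) e
 (c (a (nat_lit 0x92ba20000004)) e
 (c (a (nat_lit 0x19000000000004)) e e)))))))))
 (c (a (nat_lit 0x1abc80c0a004))
 (c (a (nat_lit 0x2ab47d78b688))
 (c (a (nat_lit 0x1183e00000000008)) e e)
 (c z e
 (c z e
 (c z e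
 (c z e
 (c (b (nat_lit 0xdbffeee00006)) e e))))))
 (c (a (nat_lit 0x17b5d634c024)) e
 (c z e
 (c z e
 (c z e
 (c (a (nat_lit 0x13134eac8c68)) e
 (c (a (nat_lit 0x1b64a32ea001)) e
 (c (a (nat_lit 0x616eb623)) e
 (c (a (nat_lit 0x1b1a8b827346)) e
 (c (a (nat_lit 0x1191070b6847)) e
 (c (a (nat_lit 0x1792f1203406)) e
 (c (a (nat_lit 0x3605f2004)) e
 (c (a (nat_lit 0x11e0a0000001)) e e))))))))))))))
 (c (a (nat_lit 0x60202021))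
 (c (a (nat_lit 0x10b1040502))
 (c (a (nat_lit 0x8b8fb12a6587)) e
 (c (a (nat_lit 0x88650a5a2456a)) e e))
 (c (a (nat_lit 0xa8ffbb92a08))
 (c (b (nat_lit 0xe9968ab49bfe9)) e e)
 (c z e
 (c z e
 (c z e
 (c (a (nat_lit 0x16b0cc0b4cc8)) e
 (c (a (nat_lit 0x6aa05425)) e
 (c (a (nat_lit 0xa099bba5)) e
 (c (a (nat_lit 0x1744664a1d47)) e
 (c (a (nat_lit 0x1605eda85aa8)) e
 (c (a (nat_lit 0xbc40990d968)) e
 (c (a (nat_lit 0xea2a00001)) e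
 (c (a (nat_lit 0x10000000001)) e e)))))))))))))
 (c (a (nat_lit 0x202038a7))
 (c (b (nat_lit 0xed2904e7fe8))
 (c (a (nat_lit 0x1eafbb8a6c2027)) e e)
 (c z e
 (c z e
 (c z e
 (c (a (nat_lit 0xf6d838fd2a7)) e
 (c (a (nat_lit 0x627154686)) e
 (c (a (nat_lit 0xa0eed62a27)) e
 (c (a (nat_lit 0x3602c34c747)) e
 (c (a (nat_lit 0xa5c673d2e9)) e
 (c (a (nat_lit 0x380a7714009)) e
 (c (a (nat_lit 0x3ac0000004)) e e)))))))))))
 (c (a (nat_lit 0x2038c387))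
 (c z e
 (c z e
 (c z e
 (c z e
 (c z e
 (c (a (nat_lit 0x20bb88cfc8)) e
 (c (a (nat_lit 0x35d8955f88)) e
 (c z e
 (c (a (nat_lit 0xb11d9000009)) e
 (c (a (nat_lit 0x78000000001)) e e))))))))))
 (c (a (nat_lit 0x3211f1e8)) e
 (c z e
 (c (a (nat_lit 0x19b5337288))
 (c (a (nat_lit 0x132f8a8bcb48)) e
 (c (b (nat_lit 0xe3ff1e5a007)) e
 (c (a (nat_lit 0x638104c5c68)) e e)))
 (c (a (nat_lit 0x1a00402024))
 (c (b (nat_lit 0x1ff2858ad106)) e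
 (c (a (nat_lit 0xc58c7038a6)) e
 (c (a (nat_lit 0x41300e00008)) e
 (c (a (nat_lit 0x112000000008)) e e))))
 (c (a (nat_lit 0x206001))
 (c (a (nat_lit 0xa22cb122005)) e
 (c (a (nat_lit 0x1b6240000005)) e e))
 (c (a (nat_lit 0x406001))
 (c (a (nat_lit 0x106000000002)) e e)
 (c (a (nat_lit 0x100806001)) e
 (c (a (nat_lit 0x406051e3)) e
 (c (a (nat_lit 0x1f1ec02024)) e
 (c (a (nat_lit 0x15a121a1a2)) e
 (c (a (nat_lit 0x4121a001)) e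
 (c (a (nat_lit 0x408180a1)) e
 (c (a (nat_lit 0x6060a041)) e
 (c (a (nat_lit 0x402001)) e
 (c (a (nat_lit 0xca1208001)) e
 (c (a (nat_lit 0xa0000001)) e e))))))))))))))))))))
 (c (a (nat_lit 0x202021))
 (c (a (nat_lit 0x20203363))
 (c (a (nat_lit 0x86955f5e005))
 (c (a (nat_lit 0xc4470468fc8a6)) e
 (c (a (nat_lit 0x129d4e8fd8ce27)) e
 (c z e
 (c z e
 (c (a (nat_lit 0xb870754000007)) e e)))))
 (c (a (nat_lit 0x10dbbef867c7))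
 (c (a (nat_lit 0x17e9cc9294faa8)) e e)
 (c z e
 (c z e
 (c (a (nat_lit 0x9589798b4a7)) e
 (c (b (nat_lit 0x1fe040411ac5)) e
 (c (a (nat_lit 0x1156121a8e06)) e
 (c (a (nat_lit 0xaa9d02f2d67)) e
 (c (a (nat_lit 0xaea079c6ca6)) e
 (c (a (nat_lit 0x34387909048)) e
 (c (a (nat_lit 0x2d184008)) e
 (c (a (nat_lit 0x157100000006)) e e))))))))))))
 (c (a (nat_lit 0x18a287))
 (c (a (nat_lit 0x95012b094e8))
 (c (a (nat_lit 0x7a84773f43428)) e e)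
 (c z e
 (c z e
 (c z e
 (c (a (nat_lit 0x40cf15667a8)) e
 (c (a (nat_lit 0xae9fed66267)) e
 (c (b (nat_lit 0x28f3427fe7)) e
 (c (a (nat_lit 0x4a45f4ccb87)) e
 (c (a (nat_lit 0x6c15950c7a8)) e e)))))))))
 (c (b (nat_lit 0x7dffff666)) e
 (c z e
 (c (a (nat_lit 0xc50402005)) e
 (c (a (nat_lit 0x1e60804024)) e
 (c (a (nat_lit 0x1e100c001))
 (c (b (nat_lit 0x1fe1f0a259c6)) e
 (c (a (nat_lit 0x1755160006)) e
 (c (a (nat_lit 0x1e5400000007)) e e)))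
 (c (a (nat_lit 0x180a06001))
 (c (a (nat_lit 0xdf177800004)) e
 (c (a (nat_lit 0x15c000000005)) e e))
 (c (a (nat_lit 0x100402001)) e
 (c (a (nat_lit 0x202dd027)) e
 (c (a (nat_lit 0x26f6d6c7)) e
 (c (a (nat_lit 0x1195f61445)) e
 (c (a (nat_lit 0xf9008001)) e
 (c (a (nat_lit 0x3d1d2025)) e
 (c (a (nat_lit 0x101a321)) e
 (c (a (nat_lit 0x80c0e0a1)) e
 (c (a (nat_lit 0x421008021)) e
 (c (a (nat_lit 0x3a1200001)) e e))))))))))))))))))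
 (c (a (nat_lit 0x202021))
 (c (a (nat_lit 0xddd5d3d27))
 (c (a (nat_lit 0x10bbdbffb8c7))
 (c (a (nat_lit 0x9a26def3095c7)) e e)
 (c z e
 (c z e
 (c z e
 (c z e
 (c (a (nat_lit 0x6d10daacb27)) e
 (c (a (nat_lit 0xf7cd992e347)) e
 (c (a (nat_lit 0x46bea0e9268)) e
 (c (a (nat_lit 0x31455ccc008)) e e)))))))))
 (c z e
 (c (a (nat_lit 0x19d9a04004)) e
 (c (a (nat_lit 0xe1002001))
 (c (a (nat_lit 0x129cad52ea7)) e
 (c (a (nat_lit 0x7cee6b968)) e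
 (c z e
 (c (a (nat_lit 0x3d4328862a9)) e
 (c (a (nat_lit 0x13f6e8400009)) e e)))))
 (c (a (nat_lit 0x180606001))
 (c (a (nat_lit 0xaf9d0e0b586)) e
 (c (b (nat_lit 0x173fffffe286)) e
 (c (a (nat_lit 0xe4951e68008)) e
 (c (a (nat_lit 0x15cea0000008)) e e))))
 (c (a (nat_lit 0x602061))
 (c (a (nat_lit 0x2ad26f12387)) e
 (c (a (nat_lit 0x1753b1600007)) e
 (c (a (nat_lit 0x198000000006)) e e)))
 (c (a (nat_lit 0x80606121))
 (c (a (nat_lit 0x152f20000006)) e e)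
 (c (a (nat_lit 0x3a3cc5)) e
 (c (a (nat_lit 0x23971964)) e
 (c (a (nat_lit 0x13b8936966)) e
 (c (a (nat_lit 0x173760c001)) e
 (c (a (nat_lit 0x3da02005)) e
 (c (a (nat_lit 0xc080a1)) e
 (c (a (nat_lit 0xa0e20081)) e
 (c (a (nat_lit 0x60a0c001)) e
 (c (a (nat_lit 0x10120c001)) e
 (c (a (nat_lit 0x140000001)) e e)))))))))))))))))
 C42)))) Tr.c Tr.e (nat_lit 0) C.cx C.cy
noncomputable def C44 : Tr := beta% (fun (c : Nat → Tr → Tr → Tr) (e : Tr) (z : Nat) (a b : Nat → Nat) =>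
 (c (a (nat_lit 0x20202021))
 (c (a (nat_lit 0x40402001))
 (c (a (nat_lit 0x32343e356a542))
 (c z e
 (c (a (nat_lit 0x10f2f1512cd256c7)) e
 (c (a (nat_lit 0x8478727088830e8)) e
 (c (a (nat_lit 0xe8b4cb0b5eea007)) e e))))
 (c (a (nat_lit 0xa1007221ae04))
 (c (a (nat_lit 0x16b556af365ef848)) e
 (c (a (nat_lit 0x14159254359cf209)) e e))
 (c (a (nat_lit 0x402440c4b666))
 (c (a (nat_lit 0xbaccb2853034008)) e
 (c (a (nat_lit 0x1075d5f4a0000008)) e e))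
 (c (a (nat_lit 0x2521a4979726))
 (c (a (nat_lit 0xfb40d4000000007)) e e)
 (c (a (nat_lit 0x767494b8d3028)) e
 (c (a (nat_lit 0xab157b8a3b466)) e
 (c (a (nat_lit 0x90eafc4d4f986)) e
 (c (a (nat_lit 0xc70c6676fef26)) e
 (c (a (nat_lit 0x13a480c0ff9004)) e
 (c z e
 (c (a (nat_lit 0x705a000000001)) e e)))))))))))
 (c (a (nat_lit 0x80404001))
 (c (a (nat_lit 0x6026c1c3b6e6))
 (c (a (nat_lit 0xc2d692dd48f1aa9)) e
 (c (a (nat_lit 0x122e711817f1400a)) e e))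
 (c (a (nat_lit 0x2300e1ed1448))
 (c (a (nat_lit 0xb8a0c32e6c0000a)) e e)
 (c z e
 (c z e
 (c z e
 (c z e
 (c (a (nat_lit 0x17ceb1f3943048)) e
 (c (a (nat_lit 0x1b6c5de30c006)) e
 (c (a (nat_lit 0x188f5140000006)) e
 (c (a (nat_lit 0x17200000000003)) e e))))))))))
 (c (a (nat_lit 0x20606241))
 (c (a (nat_lit 0x200c262603307))
 (c (a (nat_lit 0x5643a6840000007)) e e)
 (c (a (nat_lit 0x61ce6df9d448)) e
 (c z e
 (c z e
 (c z e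
 (c z e
 (c (a (nat_lit 0x6e5db0de00006)) e
 (c (a (nat_lit 0xad12000000006)) e e))))))))
 (c (a (nat_lit 0x40c3a301))
 (c (a (nat_lit 0x8d9597b36ce7)) e
 (c z e
 (c z e
 (c z e
 (c (a (nat_lit 0x199957e88b2006)) e
 (c (a (nat_lit 0x4bccce0000006)) e
 (c (a (nat_lit 0x12800000000006)) e e)))))))
 (c (a (nat_lit 0x1a1b3b3b3c07))
 (c (a (nat_lit 0x14fd0deeb30c28)) e
 (c (a (nat_lit 0x1127cc6b4908a9)) e
 (c (a (nat_lit 0x179739daa9aaa8)) e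
 (c z e
 (c (a (nat_lit 0x1d4ba000000007)) e e)))))
 (c (a (nat_lit 0x1af99b7b72e6))
 (c (a (nat_lit 0x9560a4eb58e87)) e
 (c (a (nat_lit 0x190b36cd06a008)) e e))
 (c (a (nat_lit 0xdf4b5151507))
 (c (b (nat_lit 0x79b5fe2800007)) e e)
 (c (a (nat_lit 0x1efefefef587)) e
 (c (a (nat_lit 0x15329280c0c5)) e
 (c (a (nat_lit 0x62818429c1)) e
 (c (a (nat_lit 0x107090b02785)) e
 (c (a (nat_lit 0x1696967648a5)) e
 (c (a (nat_lit 0x16d898965665)) e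
 (c (a (nat_lit 0xa0a0207664)) e
 (c (a (nat_lit 0x10040764003)) e
 (c (a (nat_lit 0xc0000001)) e e))))))))))))))))
 (c (a (nat_lit 0x40606081))
 (c (a (nat_lit 0x808040a001))
 (c (a (nat_lit 0x22a1e2a71547))
 (c (a (nat_lit 0xe4a8ff97459e5e8)) e
 (c (a (nat_lit 0x8ec94934c00000a)) e e))
 (c (a (nat_lit 0x8381e38c93a9))
 (c (a (nat_lit 0xaf27508a000000a)) e e)
 (c z e
 (c z e
 (c z e
 (c z e
 (c (a (nat_lit 0x1559dc3a955448)) e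
 (c (a (nat_lit 0x1c0856ade00007)) e
 (c (a (nat_lit 0x1c9b4000000006)) e e)))))))))
 (c (a (nat_lit 0xf6f6f51a025))
 (c (a (nat_lit 0x2063295632e9))
 (c (a (nat_lit 0xed9e6e000000008)) e e)
 (c z e
 (c z e
 (c z e
 (c z e
 (c z e
 (c (a (nat_lit 0xad6cc40000008)) e
 (c (a (nat_lit 0x1c200000000007)) e e))))))))
 (c (a (nat_lit 0x18b8b4f4f0a7)) e
 (c z e
 (c z e
 (c z e
 (c (a (nat_lit 0x145452318e29)) e
 (c (a (nat_lit 0x15f5f64123a5)) e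
 (c (a (nat_lit 0xa0242a9e881)) e
 (c (a (nat_lit 0x18f8f847c066)) e
 (c (a (nat_lit 0x157533a5e567)) e
 (c (a (nat_lit 0x1fbcb8d0cbc6)) e
 (c (a (nat_lit 0x640203d5d25)) e
 (c (a (nat_lit 0x20c1000001)) e
 (c (nat_lit 1) e e)))))))))))))))
 (c (a (nat_lit 0x40406061))
 (c (a (nat_lit 0x7477110e503))
 (c (a (nat_lit 0x2949f8870047)) e
 (c (a (nat_lit 0xcf0b54dc54528)) e
 (c z e
 (c z e
 (c z e
 (c z e
 (c (a (nat_lit 0x1b608000000005)) e e)))))))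
 (c (a (nat_lit 0x193b1b3baf85))
 (c (a (nat_lit 0x10f299e5410028)) e e)
 (c z e
 (c z e
 (c z e
 (c (a (nat_lit 0x13d3d3d3ee08)) e
 (c (a (nat_lit 0x11d1b1a96105)) e
 (c (a (nat_lit 0xa0c1e03505)) e
 (c (a (nat_lit 0x145400206006)) e
 (c (a (nat_lit 0x10aeb0b19627)) e
 (c (a (nat_lit 0xc6f98f936c7)) e
 (c (a (nat_lit 0x16a0e1a18002)) e
 (c (a (nat_lit 0x12020000001)) e e)))))))))))))
 (c (a (nat_lit 0x20202021))
 (c (a (nat_lit 0xc92fa52f2e7))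
 (c (a (nat_lit 0x18b38bf02191e7)) e e)
 (c z e
 (c z e
 (c z e
 (c (a (nat_lit 0x1676773037e7)) e
 (c (a (nat_lit 0xee84d335206)) e
 (c (a (nat_lit 0x21b4bd65)) e
 (c (a (nat_lit 0x1424f0f09fe6)) e
 (c (a (nat_lit 0x1b2021073aa6)) e
 (c (a (nat_lit 0x1068908bb407)) e
 (c (a (nat_lit 0x3020200006)) e
 (c (nat_lit 1) e e))))))))))))
 (c (a (nat_lit 0x20203802))
 (c (b (nat_lit 0xdbff6590027))
 (c z e
 (c (a (nat_lit 0x9e8d4ad400008)) e e))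
 (c (b (nat_lit 0x7b3de97fe7))
 (c (a (nat_lit 0xf9469e0000007)) e e)
 (c (a (nat_lit 0x65367283128)) e
 (c z e
 (c (a (nat_lit 0x2648a8bbaa7)) e
 (c (b (nat_lit 0x2409911fe8)) e
 (c (b (nat_lit 0x882f1dff167)) e
 (c z e
 (c (a (nat_lit 0xd6aae52e009)) e
 (c (a (nat_lit 0x1a3f20000006)) e e))))))))))
 (c (a (nat_lit 0x20313105))
 (c (a (nat_lit 0xc6c70cc5806)) e
 (c (a (nat_lit 0x96a8ab26088)) e
 (c z e
 (c (a (nat_lit 0x1d97663d6026)) e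
 (c (b (nat_lit 0x160a98cb1fe5)) e
 (c (b (nat_lit 0x33aa1fffe6)) e
 (c z e
 (c (a (nat_lit 0x123300400005)) e
 (c (a (nat_lit 0x10a000000004)) e e)))))))))
 (c (a (nat_lit 0x8ff9fdf47))
 (c (a (nat_lit 0x1498bf0989e6)) e
 (c z e
 (c (a (nat_lit 0x14b4966eafe8)) e
 (c (a (nat_lit 0x6f515596067)) e
 (c (a (nat_lit 0x11b475c99828)) e
 (c z e
 (c (a (nat_lit 0x7080000007)) e e)))))))
 (c (a (nat_lit 0x1bbbbb3168))
 (c z e
 (c (a (nat_lit 0x1473b06e4088)) e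
 (c (a (nat_lit 0x133319a5c208)) e e)))
 (c (a (nat_lit 0x16968908e4))
 (c (a (nat_lit 0x118d2f434706)) e
 (c (a (nat_lit 0x36f58f71c6)) e
 (c (a (nat_lit 0xb0f31c36006)) e
 (c (a (nat_lit 0xd1980000005)) e e))))
 (c (a (nat_lit 0x1040202024))
 (c (a (nat_lit 0x1c1b6d07463)) e
 (c (a (nat_lit 0x1e4121e00003)) e
 (c (a (nat_lit 0x108000000004)) e e)))
 (c (a (nat_lit 0x80c0a0a1))
 (c (a (nat_lit 0x1a44c0000003)) e e)
 (c (a (nat_lit 0x60604021)) e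
 (c (a (nat_lit 0x40606021)) e
 (c (a (nat_lit 0x202021e1)) e
 (c (a (nat_lit 0x6001a1c1)) e
 (c (a (nat_lit 0x1760a14022)) e
 (c (a (nat_lit 0x1d20408002)) e
 (c (a (nat_lit 0x404001)) e
 (c (a (nat_lit 0x80c00001)) e
 (c (a (nat_lit 0x1e0602061)) e
 (c (a (nat_lit 0x400001)) e e)))))))))))))))))))))) Tr.c Tr.e (nat_lit 0) C.cx C.cy
noncomputable def C45 : Tr := beta% (fun (c : Nat → Tr → Tr → Tr) (e : Tr) (z : Nat) (a b : Nat → Nat) =>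
 (c (a (nat_lit 0x202021))
 (c (b (nat_lit 0x121fffe122)) e
 (c (a (nat_lit 0x3d9204004))
 (c (a (nat_lit 0xd2bee8dd128)) e
 (c (a (nat_lit 0xb5512579f88)) e
 (c (a (nat_lit 0x6c8d2948849)) e
 (c (a (nat_lit 0x352d62d0d89)) e
 (c (a (nat_lit 0xc148b50e109)) e
 (c (a (nat_lit 0x1ad4da272009)) e e))))))
 (c (a (nat_lit 0x18a0602004))
 (c (a (nat_lit 0x84911b3ea08)) e
 (c (a (nat_lit 0x771b48aab69)) e
 (c (a (nat_lit 0x10754dfc50a9)) e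
 (c (a (nat_lit 0xd38f2894029)) e
 (c (a (nat_lit 0xc382bc00009)) e e)))))
 (c (a (nat_lit 0x200c06001))
 (c (a (nat_lit 0x1194116f81e8)) e
 (c (b (nat_lit 0x12d22adfe269)) e
 (c (a (nat_lit 0x102e06e30009)) e e)))
 (c (a (nat_lit 0x40808001))
 (c (a (nat_lit 0x12c92302c028)) e
 (c (a (nat_lit 0x152742200008)) e
 (c (a (nat_lit 0x120000000007)) e e)))
 (c (a (nat_lit 0x404001))
 (c (a (nat_lit 0x106360000006)) e e)
 (c (a (nat_lit 0x202e12c6)) e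
 (c (a (nat_lit 0xe7336a6)) e
 (c z e
 (c (a (nat_lit 0x13f4746ba8)) e
 (c (a (nat_lit 0x1030056568)) e
 (c (a (nat_lit 0x261212001)) e
 (c (a (nat_lit 0x3c3d7ab26)) e
 (c (a (nat_lit 0x14080e001)) e
 (c (a (nat_lit 0x101406001)) e
 (c (a (nat_lit 0x1760000003)) e e))))))))))))))))
 (c (a (nat_lit 0x202021))
 (c (a (nat_lit 0x18a0602002))
 (c (a (nat_lit 0x5f495b517e5)) e
 (c (a (nat_lit 0xd909312f807)) e
 (c (a (nat_lit 0x3a4c5437249)) e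
 (c (a (nat_lit 0x52605d14269)) e
 (c (a (nat_lit 0x52634a36149)) e
 (c (a (nat_lit 0x153fa8200008)) e e))))))
 (c (a (nat_lit 0x220e04001))
 (c (a (nat_lit 0x7e90a66d568)) e
 (c (a (nat_lit 0x90a22f90309)) e
 (c (a (nat_lit 0x5883567a12a)) e
 (c (a (nat_lit 0xa7064a1200a)) e
 (c (a (nat_lit 0x178700000009)) e e)))))
 (c (a (nat_lit 0xe0a08001))
 (c (a (nat_lit 0x5027a43a149)) e
 (c (a (nat_lit 0x3730461e0ca)) e
 (c (a (nat_lit 0x12a4a0a0000a)) e e)))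
 (c (a (nat_lit 0x80608001))
 (c (a (nat_lit 0x112520610009)) e
 (c (a (nat_lit 0x1280a0000008)) e e))
 (c (a (nat_lit 0x20233c24))
 (c (a (nat_lit 0x140000000002)) e e)
 (c (a (nat_lit 0x33d91ec6)) e
 (c z e
 (c (a (nat_lit 0xfb1719167)) e
 (c (a (nat_lit 0x15559272c6)) e
 (c (a (nat_lit 0x12522f4f26)) e
 (c (a (nat_lit 0x1c5db85fa5)) e
 (c (a (nat_lit 0x1d32002065)) e
 (c (a (nat_lit 0x216362e1)) e
 (c (a (nat_lit 0x1340200005)) e e))))))))))))))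
 (c (nat_lit 1)
 (c (a (nat_lit 0x120c06001))
 (c (a (nat_lit 0xb8d677ec526)) e
 (c (a (nat_lit 0x50056054149)) e
 (c (a (nat_lit 0xb7a8da40249)) e
 (c (a (nat_lit 0x188842400008)) e
 (c (a (nat_lit 0x10a000000006)) e e)))))
 (c (a (nat_lit 0x1e0e06001))
 (c (a (nat_lit 0x21e87828229)) e
 (c (a (nat_lit 0x18ea6422000a)) e
 (c (a (nat_lit 0x16e4c0000008)) e e)))
 (c (a (nat_lit 0x20215444))
 (c (a (nat_lit 0x170ec5400008)) e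
 (c (a (nat_lit 0x120000000007)) e e))
 (c (a (nat_lit 0x2fb49806)) e
 (c (a (nat_lit 0xad700e88)) e
 (c z e
 (c (a (nat_lit 0x6aca984e1)) e
 (c (a (nat_lit 0x12728ef286)) e
 (c (a (nat_lit 0x1d7d7e1d05)) e
 (c (a (nat_lit 0x189745a645)) e
 (c (a (nat_lit 0x15e0202005)) e
 (c (a (nat_lit 0x81214001)) e
 (c (a (nat_lit 0xa0000001)) e e)))))))))))))
 (c (nat_lit 1)
 (c (a (nat_lit 0x40403343))
 (c (a (nat_lit 0x1683c3e32088)) e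
 (c (a (nat_lit 0x136dc6800008)) e
 (c (a (nat_lit 0x156000000006)) e e)))
 (c (a (nat_lit 0x2e12f766))
 (c (a (nat_lit 0x1faaa0000007)) e e)
 (c (a (nat_lit 0xa985a1a07)) e
 (c z e
 (c (a (nat_lit 0x19f9f9f948)) e
 (c (a (nat_lit 0x1c5e018102)) e
 (c (a (nat_lit 0xff0505186)) e
 (c (a (nat_lit 0x1d5d528be5)) e
 (c (a (nat_lit 0x7e0203fe5)) e
 (c (a (nat_lit 0xdc6665)) e
 (c (a (nat_lit 0x1356c00005)) e e)))))))))))
 (c (nat_lit 1)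
 (c (a (nat_lit 0x995765647))
 (c (a (nat_lit 0x194000000004)) e e)
 (c (a (nat_lit 0x1475554f48)) e
 (c (a (nat_lit 0x13d3d3aec8)) e
 (c (a (nat_lit 0x10302fafa8)) e
 (c (a (nat_lit 0x19b9b9b9a7)) e
 (c (a (nat_lit 0x1676760d06)) e
 (c (a (nat_lit 0x1029602366)) e
 (c (a (nat_lit 0x20241246)) e
 (c (a (nat_lit 0x2c390005)) e
 (c (nat_lit 1) e e))))))))))
 (c (a (nat_lit 0x202021))
 (c (a (nat_lit 0x19795907e6)) e
 (c (a (nat_lit 0x18d8b8b387)) e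
 (c (a (nat_lit 0x17f7f7f787)) e
 (c (a (nat_lit 0x1373939047)) e
 (c (a (nat_lit 0x18f9202005)) e
 (c (a (nat_lit 0x5c1005725)) e
 (c (a (nat_lit 0x629720e66)) e
 (c (a (nat_lit 0x20200001)) e e))))))))
 (c (a (nat_lit 0x21))
 (c (a (nat_lit 0x1e3e1dfda6)) e
 (c (a (nat_lit 0x10502ce808)) e
 (c (a (nat_lit 0x15550f0e07)) e
 (c (a (nat_lit 0x1942602326)) e
 (c (a (nat_lit 0x17c4d16024)) e
 (c (a (nat_lit 0x2806001)) e
 (c (a (nat_lit 0x18e0000002)) e e)))))))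
 (c (a (nat_lit 0x202021))
 (c (a (nat_lit 0x1232308a06)) e
 (c (a (nat_lit 0x1af031d1c7)) e
 (c (a (nat_lit 0x129fffe004)) e
 (c (a (nat_lit 0x1520402022)) e
 (c (a (nat_lit 0x600001)) e e)))))
 (c (a (nat_lit 0x202001))
 (c (a (nat_lit 0x1353b3af88)) e
 (c (a (nat_lit 0x12e0204085)) e
 (c (a (nat_lit 0x6001)) e
 (c (a (nat_lit 0x20000001)) e e))))
 (c (a (nat_lit 0x202041))
 (c (a (nat_lit 0x20204021)) e
 (c (a (nat_lit 0x20200001)) e e))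
 (c (a (nat_lit 0x202021))
 (c (a (nat_lit 0x20000001)) e e)
 (c (a (nat_lit 0x202021)) e
 (c (a (nat_lit 0x202001)) e
 (c (a (nat_lit 0xa04041)) e
 (c (a (nat_lit 0x6021)) e
 (c (a (nat_lit 0x200021)) e
 (c (a (nat_lit 0x4001)) e
 (c (nat_lit 1) e
 (c (a (nat_lit 0x2001)) e
 (c (a (nat_lit 0x402001)) e
 (c (a (nat_lit 0xa04001)) e
 (c (a (nat_lit 0x1204021)) e
 (c (a (nat_lit 0x1200001)) e e)))))))))))))))))))))))) Tr.c Tr.e (nat_lit 0) C.cx C.cy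
noncomputable def C46 : Tr := beta% (fun (c : Nat → Tr → Tr → Tr) (e : Tr) (z : Nat) (a b : Nat → Nat) =>
 (c (a (nat_lit 0x202021))
 (c (a (nat_lit 0x20204041))
 (c (a (nat_lit 0x406061e1))
 (c (a (nat_lit 0x21c4e56bd266))
 (c z e
 (c (a (nat_lit 0x9d1fabeedc00008)) e e))
 (c (a (nat_lit 0x40e023b08ee8))
 (c (a (nat_lit 0x123a5b6960000009)) e e)
 (c (a (nat_lit 0x335ad174b6a7)) e
 (c z e
 (c z e
 (c z e
 (c (a (nat_lit 0xeebb5db8ff426)) e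
 (c (a (nat_lit 0x1612b5c600004)) e e))))))))
 (c (a (nat_lit 0x12d2d2dae003))
 (c (a (nat_lit 0x22b4db3577328))
 (c (a (nat_lit 0x1953e58000000009)) e e)
 (c z e
 (c z e
 (c z e
 (c z e
 (c z e
 (c (a (nat_lit 0x11deda0000007)) e
 (c (a (nat_lit 0x16c00000000007)) e e))))))))
 (c (a (nat_lit 0xc57642462)) e
 (c z e
 (c z e
 (c z e
 (c (a (nat_lit 0x10f151514b88)) e
 (c (a (nat_lit 0x16f737020146)) e
 (c (a (nat_lit 0x80c0e099c4)) e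
 (c (a (nat_lit 0x14d4b3a96926)) e
 (c (a (nat_lit 0xb8b33086327)) e
 (c (a (nat_lit 0x148fcf82c587)) e
 (c (a (nat_lit 0x180faba85)) e
 (c (a (nat_lit 0x2a1600001)) e
 (c (a (nat_lit 0x4000000001)) e e)))))))))))))))
 (c (a (nat_lit 0x20406081))
 (c (a (nat_lit 0x1d3e0908e0e4))
 (c (a (nat_lit 0x2854d9159607))
 (c (a (nat_lit 0x1785400000000007)) e e) e)
 (c z e
 (c z e
 (c z e
 (c z e
 (c (a (nat_lit 0x109491b04a08)) e
 (c (a (nat_lit 0x1588c8a16147)) e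
 (c (a (nat_lit 0x2080481366)) e
 (c (a (nat_lit 0x16350c4a82c7)) e
 (c (a (nat_lit 0x15d5a8a34048)) e
 (c (a (nat_lit 0x17f28502f488)) e
 (c (a (nat_lit 0x40020932007)) e
 (c (a (nat_lit 0x660000001)) e e)))))))))))))
 (c (a (nat_lit 0x80402021))
 (c z e
 (c z e
 (c z e
 (c z e
 (c (a (nat_lit 0x1bdbfd5977e7)) e
 (c (a (nat_lit 0x12507060cec6)) e
 (c (a (nat_lit 0x140276f30c7)) e
 (c (a (nat_lit 0xc44c4839848)) e
 (c z e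
 (c (a (nat_lit 0xd01ade93ac8)) e
 (c (a (nat_lit 0x3980600005)) e
 (c (a (nat_lit 0x194000000005)) e e))))))))))))
 (c (a (nat_lit 0x2010e4))
 (c z e
 (c (a (nat_lit 0x15d87a88a1a9))
 (c (a (nat_lit 0x1294eae0000009)) e e)
 (c z e
 (c z e
 (c (a (nat_lit 0x5727eb29107)) e
 (c (a (nat_lit 0x852613db28)) e e))))))
 (c (a (nat_lit 0x327246))
 (c (b (nat_lit 0x13333e7fffe6)) e
 (c z e
 (c z e
 (c z e
 (c z e
 (c z e
 (c z e
 (c (a (nat_lit 0x9d3b8e00005)) e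
 (c (a (nat_lit 0x162000000006)) e e)))))))))
 (c z e
 (c (a (nat_lit 0x1b7b7a91a8)) e
 (c (a (nat_lit 0x1a3a276005))
 (c (a (nat_lit 0x4d1344648a7)) e
 (c (a (nat_lit 0x6b050482707)) e
 (c (a (nat_lit 0x12d2fae4a007)) e
 (c (a (nat_lit 0x1335a0000008)) e e))))
 (c (a (nat_lit 0x1560202005))
 (c (a (nat_lit 0x1fe3896545e3)) e
 (c (a (nat_lit 0xef4200001)) e
 (c (nat_lit 1) e e)))
 (c (a (nat_lit 0xe0c12101))
 (c (a (nat_lit 0x1541c0000004)) e e)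
 (c (a (nat_lit 0x40406001)) e
 (c (a (nat_lit 0xe0808001)) e
 (c (a (nat_lit 0xc060a281)) e
 (c (a (nat_lit 0xa0c34301)) e
 (c (a (nat_lit 0x1024181)) e
 (c (a (nat_lit 0x221e0e1)) e
 (c (a (nat_lit 0x121020241)) e
 (c (a (nat_lit 0xa04021)) e
 (c (a (nat_lit 0x604021)) e
 (c (a (nat_lit 0x240200001)) e e))))))))))))))))))))
 (c (a (nat_lit 0x202021))
 (c (a (nat_lit 0x40202021))
 (c (a (nat_lit 0xf4febd4a8c3))
 (c (a (nat_lit 0x856b89bb677e5)) e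
 (c (a (nat_lit 0x80c304987c8c9)) e
 (c (a (nat_lit 0x13b3b7c62d2cc8)) e e)))
 (c (a (nat_lit 0x187cd9797767))
 (c (a (nat_lit 0x14f9116e9068a9)) e e)
 (c z e
 (c z e
 (c z e
 (c (a (nat_lit 0xa8e526ba4e5)) e
 (c (a (nat_lit 0x95e5f483)) e
 (c (a (nat_lit 0x6ddc3d44)) e
 (c (a (nat_lit 0x1c8924e03806)) e
 (c (a (nat_lit 0x1484202054e7)) e
 (c (a (nat_lit 0xae0a0219b47)) e
 (c (a (nat_lit 0x1880400001)) e
 (c (a (nat_lit 0x2000000001)) e e)))))))))))))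
 (c (a (nat_lit 0x203967))
 (c (a (nat_lit 0x14f5197ba767))
 (c (a (nat_lit 0x18b02d6dac2028)) e e)
 (c z e
 (c z e
 (c z e
 (c (a (nat_lit 0x1d4892d01c5)) e
 (c (a (nat_lit 0x42f932566)) e
 (c (a (nat_lit 0x9e24eda6025)) e
 (c (b (nat_lit 0x70161161fe7)) e
 (c (a (nat_lit 0x4834617a849)) e
 (c (a (nat_lit 0x62391ab4008)) e
 (c (a (nat_lit 0x3a60000005)) e e)))))))))))
 (c (a (nat_lit 0x20396227))
 (c z e
 (c z e
 (c z e
 (c z e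
 (c (b (nat_lit 0xcab133ff5a7)) e
 (c z e
 (c (a (nat_lit 0xa0375634e9)) e e)))))))
 (c (a (nat_lit 0x65c1c1bc6)) e
 (c z e
 (c (a (nat_lit 0x161a700ba6))
 (c (a (nat_lit 0x3e82ad78f07)) e
 (c (b (nat_lit 0x1fffef4dbf06)) e
 (c (b (nat_lit 0x1ffff56ca7a8)) e e)))
 (c (a (nat_lit 0x1420402025))
 (c (a (nat_lit 0x6182116f03)) e
 (c (b (nat_lit 0x1fe76dd98004)) e
 (c (a (nat_lit 0x971a4200008)) e e)))
 (c (a (nat_lit 0x281a1c081))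
 (c (a (nat_lit 0x1c62eac10003)) e
 (c (a (nat_lit 0x1d6480000005)) e e))
 (c (a (nat_lit 0xc0808001))
 (c (a (nat_lit 0x148000000002)) e e)
 (c (a (nat_lit 0x180c08001)) e
 (c (a (nat_lit 0x804054e3)) e
 (c (a (nat_lit 0x159540c084)) e
 (c (a (nat_lit 0x100c2c0e1)) e
 (c (a (nat_lit 0xe1c1a141)) e
 (c (a (nat_lit 0x10240e1)) e
 (c (a (nat_lit 0x9a060e001)) e
 (c (a (nat_lit 0x2820140a1)) e
 (c (a (nat_lit 0x16c0806003)) e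
 (c (a (nat_lit 0x20000001)) e e)))))))))))))))))))
 (c (a (nat_lit 0x202021))
 (c (a (nat_lit 0x386147))
 (c (a (nat_lit 0x6062b4859a6))
 (c (a (nat_lit 0xcea82503fed45)) e e)
 (c z e
 (c z e
 (c (a (nat_lit 0x1716f7eecca7)) e
 (c (a (nat_lit 0x892da9b8286)) e
 (c (a (nat_lit 0xd4c7270f166)) e
 (c (a (nat_lit 0x181eff8c906)) e
 (c (a (nat_lit 0x16050c32007)) e
 (c (a (nat_lit 0x7269587a026)) e
 (c (a (nat_lit 0xc1ce00007)) e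
 (c (a (nat_lit 0x116000000005)) e e)))))))))))
 (c (a (nat_lit 0x61726e6e8)) e
 (c z e
 (c (a (nat_lit 0xc56e04025))
 (c z e
 (c z e
 (c (b (nat_lit 0x1fffe7ab5629)) e e)))
 (c (a (nat_lit 0x15c0202005))
 (c (b (nat_lit 0x1fe543c03508)) e
 (c (b (nat_lit 0x1fe80b954288)) e
 (c (b (nat_lit 0x1fe4900702a9)) e e)))
 (c (a (nat_lit 0x80404001))
 (c (a (nat_lit 0xf99ce666647)) e
 (c (a (nat_lit 0x112f46c5c008)) e
 (c (a (nat_lit 0x158540000008)) e e)))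
 (c (a (nat_lit 0x60a04001))
 (c (a (nat_lit 0x176a64e00007)) e
 (c (a (nat_lit 0x1ca000000006)) e e))
 (c (a (nat_lit 0x80c0a001)) e
 (c (a (nat_lit 0x20203364)) e
 (c (a (nat_lit 0x2dd290e6)) e
 (c (a (nat_lit 0xd480a0c3)) e
 (c (a (nat_lit 0x3ae02005)) e
 (c (a (nat_lit 0x4080c1c1)) e
 (c (a (nat_lit 0x41c4c1)) e
 (c (a (nat_lit 0x81c0a1)) e
 (c (a (nat_lit 0x1e1c061)) e
 (c (a (nat_lit 0x620c00001)) e e)))))))))))))))))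
 C45)))) Tr.c Tr.e (nat_lit 0) C.cx C.cy
noncomputable def C47 : Tr := beta% (fun (c : Nat → Tr → Tr → Tr) (e : Tr) (z : Nat) (a b : Nat → Nat) =>
 (c (a (nat_lit 0x20202021))
 (c (a (nat_lit 0x17c1c1a1a1a4))
 (c (a (nat_lit 0x408080c15364))
 (c z e
 (c (a (nat_lit 0x14d476d552cbb549)) e
 (c (a (nat_lit 0x13b5f4311234b589)) e
 (c (a (nat_lit 0x15130f6ef4faf2a9)) e
 (c (a (nat_lit 0x1833b4bc57400008)) e
 (c (a (nat_lit 0xfd04b2000000008)) e e))))))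
 (c (a (nat_lit 0xa0606119fa25))
 (c (a (nat_lit 0x1496b5b42c33d72a)) e
 (c (a (nat_lit 0x1594529011f2f7ab)) e e))
 (c (a (nat_lit 0x206b6a55c6))
 (c (a (nat_lit 0x1d353cd6ce369009)) e e)
 (c (a (nat_lit 0x23a4ac3548)) e
 (c (a (nat_lit 0x2707d112b388)) e
 (c (a (nat_lit 0xd4df0d698a748)) e
 (c (a (nat_lit 0x90b113343d668)) e
 (c (a (nat_lit 0x6aa900183cc68)) e
 (c (a (nat_lit 0xfbfc324435c26)) e
 (c (a (nat_lit 0x1366e5a527e007)) e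
 (c (a (nat_lit 0x1107c160000002)) e
 (c (a (nat_lit 0x200000000001)) e e))))))))))))
 (c (a (nat_lit 0x60e140c001))
 (c (a (nat_lit 0x202026a99867))
 (c (a (nat_lit 0x1393120d1115570a)) e e)
 (c (a (nat_lit 0x22a3667149))
 (c (a (nat_lit 0xdd0ce906fed400b)) e e)
 (c (b (nat_lit 0x1fffe3a8511f09)) e
 (c z e
 (c z e
 (c z e
 (c z e
 (c (a (nat_lit 0x16e3a884740ac8)) e
 (c (a (nat_lit 0x1369d0d8800007)) e
 (c (a (nat_lit 0x11cf8000000002)) e e))))))))))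
 (c (a (nat_lit 0x20180c08001))
 (c (a (nat_lit 0x2302e1d45e48))
 (c (a (nat_lit 0x1247a86c05c00009)) e e)
 (c z e
 (c z e
 (c z e
 (c z e
 (c (b (nat_lit 0x131fffe8a86008)) e
 (c (a (nat_lit 0x4c304f2c88008)) e
 (c (a (nat_lit 0xd8bf760000007)) e
 (c (a (nat_lit 0x200000000001)) e e)))))))))
 (c (a (nat_lit 0x3e322a292a1))
 (c z e
 (c z e
 (c z e
 (c z e
 (c z e
 (c (a (nat_lit 0x560d4a8800008)) e
 (c (a (nat_lit 0x147e4000000007)) e e)))))))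
 (c (a (nat_lit 0x403b1d3cc4))
 (c z e
 (c (a (nat_lit 0x9992aaa8bc209)) e
 (c (a (nat_lit 0x1531d14e8ba609)) e
 (c z e
 (c (b (nat_lit 0x1ff023c0000008)) e
 (c (a (nat_lit 0x10200000000008)) e e))))))
 (c (a (nat_lit 0x1393d4343408))
 (c (a (nat_lit 0x1f177b1210d948)) e
 (c (a (nat_lit 0x1f7e723875abc9)) e e))
 (c (a (nat_lit 0x1c3cdd7d7c68))
 (c (a (nat_lit 0x11e9f20ae4e009)) e e)
 (c z e
 (c (a (nat_lit 0x19f9f9f52027)) e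
 (c (a (nat_lit 0x143454402026)) e
 (c (a (nat_lit 0x13b3938cace7)) e
 (c (a (nat_lit 0x101010105007)) e
 (c (a (nat_lit 0x10d0d130f0c7)) e
 (c (a (nat_lit 0x428060bf84)) e
 (c (a (nat_lit 0x240209f9f64)) e
 (c (a (nat_lit 0x42a2800001)) e
 (c (a (nat_lit 0x2000000001)) e e)))))))))))))))))
 (c (a (nat_lit 0x204041))
 (c (a (nat_lit 0x80c08001))
 (c (a (nat_lit 0x2023676d5487))
 (c (a (nat_lit 0xc6c6aebd0ae9d49)) e
 (c (a (nat_lit 0x12f1d55e38ba000a)) e e))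
 (c (a (nat_lit 0x232342a4d18a))
 (c (a (nat_lit 0xcecd22dc980000b)) e e)
 (c z e
 (c z e
 (c z e
 (c z e
 (c z e
 (c (a (nat_lit 0x96e86950c6008)) e
 (c (a (nat_lit 0x59297a0000007)) e
 (c (a (nat_lit 0x5400000000001)) e e))))))))))
 (c (a (nat_lit 0x3a2e161f341))
 (c (a (nat_lit 0x16342c2eeb72a))
 (c (a (nat_lit 0x10fef44b60000009)) e e)
 (c z e
 (c z e
 (c z e
 (c z e
 (c z e
 (c (a (nat_lit 0x1927f189200009)) e
 (c (a (nat_lit 0xf76c000000008)) e e))))))))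
 (c (b (nat_lit 0xdad8db85fe5))
 (c z e
 (c z e
 (c z e
 (c z e
 (c z e
 (c (a (nat_lit 0x6144a40000009)) e
 (c (a (nat_lit 0x1d600000000008)) e e)))))))
 (c (a (nat_lit 0xb523597d647)) e
 (c z e
 (c z e
 (c z e
 (c (a (nat_lit 0x11f1f1ed6028)) e
 (c (a (nat_lit 0x157595a0e0e6)) e
 (c (a (nat_lit 0x10f0d0acc5e8)) e
 (c (a (nat_lit 0x16f6f6348267)) e
 (c (a (nat_lit 0x15f5d514d1c8)) e
 (c (a (nat_lit 0x3c06054b486)) e
 (c (a (nat_lit 0x54326a2c001)) e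
 (c (a (nat_lit 0x44320000001)) e e)))))))))))))))
 (c (a (nat_lit 0x202001))
 (c (a (nat_lit 0x143413fb2004))
 (c (a (nat_lit 0x40412633c6c8))
 (c (a (nat_lit 0x199865a000000007)) e e)
 (c z e
 (c z e
 (c z e
 (c z e
 (c z e
 (c (a (nat_lit 0x1cea00000006)) e
 (c (a (nat_lit 0x1da00000000006)) e e))))))))
 (c (b (nat_lit 0x1e3e39545fe5)) e
 (c z e
 (c z e
 (c z e
 (c z e
 (c (a (nat_lit 0x19f9f9f9e3a7)) e
 (c (a (nat_lit 0x17b555612306)) e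
 (c (a (nat_lit 0x1efebe230187)) e
 (c (a (nat_lit 0xf4ed4094648)) e
 (c (a (nat_lit 0x19379fd2d8e8)) e
 (c (a (nat_lit 0x283c0353527)) e
 (c (a (nat_lit 0x124c3a00001)) e
 (c (a (nat_lit 0x4000000001)) e e))))))))))))))
 (c (a (nat_lit 0x2001))
 (c z e
 (c z e
 (c z e
 (c z e
 (c z e
 (c (a (nat_lit 0x1232324f2927)) e
 (c (a (nat_lit 0x1dfdfd0cd4c6)) e
 (c (a (nat_lit 0x108feb270548)) e
 (c (a (nat_lit 0x18986491e327)) e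
 (c (a (nat_lit 0x14d6b92f0527)) e
 (c (b (nat_lit 0x1ff13961e001)) e
 (c (a (nat_lit 0xfd560000001)) e e))))))))))))
 (c (nat_lit 1)
 (c (a (nat_lit 0xc9211f438a8))
 (c z e
 (c (a (nat_lit 0xc464df5ed4008)) e e))
 (c (a (nat_lit 0x9cbf014a148))
 (c (a (nat_lit 0x2f9894600006)) e
 (c (a (nat_lit 0x1ac9c000000006)) e e))
 (c (a (nat_lit 0x74d90c64309))
 (c (a (nat_lit 0x17000000000004)) e e)
 (c z e
 (c (a (nat_lit 0x1d01391b70c6)) e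
 (c (a (nat_lit 0xb89b1adb748)) e
 (c (a (nat_lit 0x7a806b469e8)) e
 (c z e
 (c z e
 (c (a (nat_lit 0xcb189600008)) e
 (c (a (nat_lit 0x106000000007)) e e)))))))))))
 (c (a (nat_lit 0x1286))
 (c (a (nat_lit 0x1097f7ff5426))
 (c (a (nat_lit 0x1d8dc160000002)) e
 (c (a (nat_lit 0x18e00000000004)) e e))
 (c (a (nat_lit 0x113314f41268)) e
 (c (a (nat_lit 0x10d2f014ee28)) e
 (c (a (nat_lit 0xc918ae36307)) e
 (c (a (nat_lit 0x90dd1edcba7)) e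
 (c (b (nat_lit 0x1045ab477fe7)) e
 (c z e
 (c (a (nat_lit 0xc53869a0007)) e
 (c (a (nat_lit 0x1ee9a0000005)) e e)))))))))
 (c (a (nat_lit 0x14d4defee7))
 (c (a (nat_lit 0xf2f314f4c08)) e
 (c (a (nat_lit 0x1b3cdbfb6468)) e
 (c (b (nat_lit 0x159c386cbfe8)) e
 (c (a (nat_lit 0x117dae4582e7)) e
 (c (a (nat_lit 0xc7d922fa008)) e
 (c z e
 (c (a (nat_lit 0x1f9340800007)) e
 (c (a (nat_lit 0x1fc000000005)) e e))))))))
 (c (a (nat_lit 0x91b9b9aa8)) e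
 (c (a (nat_lit 0x10909080e8))
 (c (a (nat_lit 0x10ededf10428)) e
 (c (a (nat_lit 0x15983c8b0a28)) e
 (c (a (nat_lit 0x9720c0ee4e8)) e
 (c (a (nat_lit 0xf5850a00007)) e e))))
 (c (a (nat_lit 0x199983c3a5))
 (c (a (nat_lit 0x7341b28c7e6)) e
 (c (a (nat_lit 0x64eb9e38007)) e
 (c (a (nat_lit 0x154d80000006)) e e)))
 (c (a (nat_lit 0x1a00202025))
 (c (a (nat_lit 0x671e5c00006)) e
 (c (a (nat_lit 0x1e4000000004)) e e))
 (c (a (nat_lit 0x24120e001)) e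
 (c (a (nat_lit 0xe0a0a001)) e
 (c (a (nat_lit 0xc0208001)) e
 (c (a (nat_lit 0xc0208a01)) e
 (c (a (nat_lit 0xc4a501)) e
 (c (a (nat_lit 0x1858321)) e
 (c (a (nat_lit 0x40c16061)) e
 (c (a (nat_lit 0x1608021)) e
 (c (a (nat_lit 0x141412141)) e
 (c (a (nat_lit 0x10100e001)) e
 (c (a (nat_lit 0x40000001)) e e))))))))))))))))))))))) Tr.c Tr.e (nat_lit 0) C.cx C.cy
noncomputable def C48 : Tr := beta% (fun (c : Nat → Tr → Tr → Tr) (e : Tr) (z : Nat) (a b : Nat → Nat) =>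
 (c (nat_lit 1)
 (c (a (nat_lit 0x2060a06001))
 (c (a (nat_lit 0x4040a3ac9b85))
 (c (a (nat_lit 0xdedcdcb4e511d68)) e e)
 (c (a (nat_lit 0x40c58d17c7))
 (c (a (nat_lit 0x106d9419bfaac00a)) e e)
 (c (a (nat_lit 0x42c484eef0a9)) e
 (c z e
 (c z e
 (c z e
 (c z e
 (c (a (nat_lit 0x1ba85825cea867)) e
 (c (a (nat_lit 0x160d6ed1c00006)) e
 (c (a (nat_lit 0x12864000000002)) e e))))))))))
 (c (a (nat_lit 0xc0a0c0c001))
 (c (a (nat_lit 0x63c2828330a9))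
 (c (a (nat_lit 0x72af0108480000a)) e e)
 (c (a (nat_lit 0xa22a9cbd29)) e
 (c z e
 (c z e
 (c z e
 (c z e
 (c (a (nat_lit 0x75a09cb052008)) e
 (c (a (nat_lit 0x11c8a8a0000008)) e e))))))))
 (c (a (nat_lit 0x221e0e08621))
 (c (a (nat_lit 0x43237553a5108)) e
 (c z e
 (c z e
 (c z e
 (c z e
 (c (a (nat_lit 0xa91a6cc00007)) e
 (c (a (nat_lit 0x1af6e000000007)) e e)))))))
 (c (a (nat_lit 0x3a391115145))
 (c z e
 (c z e
 (c z e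
 (c z e
 (c (a (nat_lit 0x364b80000008)) e
 (c (a (nat_lit 0x1ec00000000007)) e e))))))
 (c (a (nat_lit 0x113172121208))
 (c z e
 (c z e
 (c z e
 (c (a (nat_lit 0x1787e000000007)) e e))))
 (c z e
 (c z e
 (c (a (nat_lit 0x127f1f0bc8a6)) e
 (c (a (nat_lit 0x1a1a3a5a6045)) e
 (c (a (nat_lit 0x153535334f47)) e
 (c (a (nat_lit 0x1c5c5c365607)) e
 (c (a (nat_lit 0x109070501027)) e
 (c (a (nat_lit 0x20120413205)) e
 (c (a (nat_lit 0xa020717145)) e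
 (c (a (nat_lit 0x26161200001)) e
 (c (a (nat_lit 0x4000000001)) e e))))))))))))))))
 (c (nat_lit 1)
 (c (a (nat_lit 0x221a08068c1))
 (c (a (nat_lit 0xe08224b6dee6))
 (c (a (nat_lit 0x103a5b2680000007)) e
 (c (a (nat_lit 0x140c800000000009)) e e))
 (c (a (nat_lit 0x20c0e7c058a9)) e
 (c z e
 (c z e
 (c z e
 (c (a (nat_lit 0x12562ae6c34a68)) e
 (c (a (nat_lit 0x3f52b81200006)) e
 (c (a (nat_lit 0x14ce2000000006)) e e))))))))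
 (c (b (nat_lit 0x1555151b1fe4))
 (c (a (nat_lit 0x147aa6f5471c9)) e
 (c z e
 (c z e
 (c z e
 (c (a (nat_lit 0x1baf8be6286009)) e
 (c (a (nat_lit 0x162e4720000008)) e
 (c (a (nat_lit 0x1da00000000007)) e e)))))))
 (c (a (nat_lit 0xe8f70708f49))
 (c z e
 (c z e
 (c z e
 (c z e
 (c (a (nat_lit 0x15faa000000008)) e e)))))
 (c z e
 (c z e
 (c (a (nat_lit 0xd3030efcd87)) e
 (c (a (nat_lit 0x51d1d1b165)) e
 (c (a (nat_lit 0x1c5c7c9ac185)) e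
 (c (a (nat_lit 0x1856f6f447e7)) e
 (c (a (nat_lit 0x13133309a1c7)) e
 (c (a (nat_lit 0x1696d45402a6)) e
 (c (a (nat_lit 0x5002074f4c5)) e
 (c (a (nat_lit 0x221c1812001)) e
 (c (a (nat_lit 0xe0000001)) e e))))))))))))))
 (c (nat_lit 1)
 (c (a (nat_lit 0x199a9bb85646))
 (c (a (nat_lit 0xfb10fe34e8e67)) e
 (c z e
 (c z e
 (c (a (nat_lit 0x189d776e1bad67)) e
 (c (a (nat_lit 0x17f4ec0bc00007)) e
 (c (a (nat_lit 0x126c2000000006)) e e))))))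
 (c z e
 (c z e
 (c (a (nat_lit 0x1255d7978706)) e
 (c (a (nat_lit 0x179f3f4baee6)) e
 (c (a (nat_lit 0x145b67c7aa46)) e
 (c (a (nat_lit 0x148acb69c067)) e
 (c (a (nat_lit 0x1373f2e8abc7)) e
 (c (a (nat_lit 0x15f5944c83e7)) e
 (c (a (nat_lit 0xf6e3a464787)) e
 (c (a (nat_lit 0x5260f3f345)) e
 (c (a (nat_lit 0x1334d4a00005)) e
 (c (nat_lit 1) e e)))))))))))))
 (c (a (nat_lit 0x60404061))
 (c (a (nat_lit 0x1132121211c7))
 (c z e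
 (c (a (nat_lit 0xe8a6989100d08)) e e))
 (c (a (nat_lit 0x17d7f7997fe7))
 (c (a (nat_lit 0x1cde3a5c34a006)) e
 (c (a (nat_lit 0x101bae00000006)) e e))
 (c (a (nat_lit 0x1494b4bd1587))
 (c (a (nat_lit 0x17c18000000005)) e e)
 (c (a (nat_lit 0x131319b2e1e7)) e
 (c (a (nat_lit 0x1379e0e72247)) e
 (c (a (nat_lit 0x16c84887c367)) e
 (c (a (nat_lit 0xeee102b42e8)) e
 (c (b (nat_lit 0x1876975fffe7)) e
 (c z e
 (c (a (nat_lit 0x110e1d934007)) e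
 (c (a (nat_lit 0x7440000006)) e e)))))))))))
 (c (a (nat_lit 0x20000001))
 (c (a (nat_lit 0x105057575d45)) e
 (c (a (nat_lit 0x109437fafd46)) e
 (c (a (nat_lit 0x14d4d9594f26)) e
 (c (a (nat_lit 0xbad526a4047)) e
 (c (a (nat_lit 0x1751cf4e5586)) e
 (c (a (nat_lit 0x1f95f429c6e7)) e
 (c z e
 (c (a (nat_lit 0x541e2419528)) e
 (c (a (nat_lit 0x6d04d200004)) e
 (c (a (nat_lit 0x19c000000001)) e e))))))))))
 (c (a (nat_lit 0x202035c5))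
 (c (a (nat_lit 0xfb7371be445)) e
 (c (a (nat_lit 0x15b719140446)) e
 (c (a (nat_lit 0xfd1573200e6)) e
 (c (a (nat_lit 0x1652fb24ce85)) e
 (c (a (nat_lit 0x9f2396521c7)) e
 (c z e
 (c (a (nat_lit 0x1485e40a2006)) e
 (c (a (nat_lit 0x37220000003)) e e))))))))
 (c (a (nat_lit 0x169685))
 (c (a (nat_lit 0xe0d37c68025)) e
 (c (a (nat_lit 0x859b60b6966)) e
 (c (a (nat_lit 0xbd16bcba467)) e
 (c z e
 (c (a (nat_lit 0x1550948078c7)) e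
 (c (a (nat_lit 0xb41b7e00006)) e
 (c (a (nat_lit 0x1b8000000003)) e e)))))))
 (c (a (nat_lit 0x1ffa3a25))
 (c (a (nat_lit 0xc17d2319e66)) e
 (c (a (nat_lit 0x11f411f43267)) e
 (c (a (nat_lit 0x1792eb749da6)) e
 (c (a (nat_lit 0xd257726006)) e
 (c (a (nat_lit 0x21500000008)) e e)))))
 (c (a (nat_lit 0x139391a706))
 (c (a (nat_lit 0x124cb738f206)) e
 (c (a (nat_lit 0x2bce9087c7)) e
 (c (a (nat_lit 0x1d29000006)) e
 (c (a (nat_lit 0x14c000000008)) e e))))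
 (c (a (nat_lit 0x1fdfc04004))
 (c (a (nat_lit 0x29546c006)) e
 (c (a (nat_lit 0x2260000001)) e e))
 (c (a (nat_lit 0x1e00200004)) e
 (c (a (nat_lit 0x140a0c001)) e
 (c (a (nat_lit 0x80208001)) e
 (c (a (nat_lit 0x261e08001)) e
 (c (a (nat_lit 0x1e0a04001)) e
 (c (a (nat_lit 0x1636161684)) e
 (c (a (nat_lit 0x12602082c4)) e
 (c (a (nat_lit 0x210261a1)) e
 (c (a (nat_lit 0xa0e061)) e
 (c (a (nat_lit 0x101218061)) e
 (c (a (nat_lit 0xc0a00001)) e e)))))))))))))))))))))) Tr.c Tr.e (nat_lit 0) C.cx C.cy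
noncomputable def C49 : Tr := beta% (fun (c : Nat → Tr → Tr → Tr) (e : Tr) (z : Nat) (a b : Nat → Nat) =>
 (c (nat_lit 1)
 (c (a (nat_lit 0x4dd1d3d3024))
 (c (a (nat_lit 0x130ca942a2a1a3))
 (c z e
 (c z
 (c z e
 (c (a (nat_lit 0x78e32d2a9a000000a)) e
 (c (a (nat_lit 0x1538d0200000000009)) e e)))
 (c (a (nat_lit 0x185f1a7a5c385746))
 (c (a (nat_lit 0xff39386e000000009)) e e) e)))
 (c (a (nat_lit 0x16cfcfcfe0c085))
 (c (a (nat_lit 0xed1f2b1106e2ea8))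
 (c z e
 (c (a (nat_lit 0xed838ece00000000b)) e e))
 (c (a (nat_lit 0x13b31191f0b0f089))
 (c (a (nat_lit 0x16192880000000000b)) e e)
 (c (a (nat_lit 0x13b0906ff0700f49)) e
 (c (a (nat_lit 0x1070cf90f090b009)) e
 (c (a (nat_lit 0x13327271318f5529)) e
 (c (a (nat_lit 0x1431f3d3b10de008)) e
 (c (a (nat_lit 0x11b5586bc0000007)) e e)))))))
 (c (a (nat_lit 0x8704888c2e104))
 (c (a (nat_lit 0x14b473f2d312b1a8))
 (c (a (nat_lit 0x1e0820000000000009)) e e)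
 (c (a (nat_lit 0x15b4723251f1eda9)) e
 (c (a (nat_lit 0x11d212d2523012c9)) e
 (c (a (nat_lit 0x14559453f2d8b1c9)) e
 (c (a (nat_lit 0x100f2fad4cc00008)) e e)))))
 (c (a (nat_lit 0x1218ecad2ccfc3))
 (c (a (nat_lit 0x1030b02fb16cb0e8)) e
 (c (a (nat_lit 0x11f17071f0303529)) e
 (c (a (nat_lit 0x18dc1d59dbf6e008)) e e)))
 (c (a (nat_lit 0x17f801a323c185))
 (c (a (nat_lit 0x1332b61210a4ca87)) e e)
 (c (a (nat_lit 0xf7120c1c06506)) e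
 (c (a (nat_lit 0x10f1afe6623865)) e
 (c (a (nat_lit 0xed0e4a5ce5905)) e
 (c (a (nat_lit 0xcb20cf2d63785)) e
 (c (a (nat_lit 0xd30d11b776c85)) e
 (c (a (nat_lit 0xdd2edcf0af0a5)) e
 (c (a (nat_lit 0x16ca6707458445)) e
 (c (a (nat_lit 0x153b427c00004)) e
 (c (a (nat_lit 0x955a000000006)) e e))))))))))))))
 (c (a (nat_lit 0x14d4d4c7e7e7))
 (c (a (nat_lit 0x1edd9dde006064))
 (c (a (nat_lit 0x1afdfbb8d738f768))
 (c (a (nat_lit 0xc30d191e3a000000a)) e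
 (c (a (nat_lit 0xf918920000000000c)) e e))
 (c (a (nat_lit 0x157372b27392b06a))
 (c (a (nat_lit 0x1988c000000000000c)) e e)
 (c (a (nat_lit 0x1291f1d3122fef4a)) e
 (c (a (nat_lit 0x12d153725190362a)) e
 (c (a (nat_lit 0x11f2f0b0ed11ee2a)) e
 (c (a (nat_lit 0x1f3e5f9834200008)) e
 (c (a (nat_lit 0x1715aa6000000008)) e e)))))))
 (c (a (nat_lit 0x11c9e9ea2081c6))
 (c (a (nat_lit 0x1413133453d14dea)) e
 (c (a (nat_lit 0x1512d3f330ef2f8b)) e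
 (c (a (nat_lit 0x12b433327112d4eb)) e e)))
 (c (a (nat_lit 0x114b0b6b6242e6))
 (c (a (nat_lit 0xf906f8dae0d926a)) e e)
 (c (a (nat_lit 0xf8303c323d1c7)) e
 (c (a (nat_lit 0xd43a4250a92e8)) e
 (c (a (nat_lit 0xb454227761de7)) e
 (c (a (nat_lit 0xb690bec503028)) e
 (c (a (nat_lit 0xccb0df0afe028)) e
 (c (a (nat_lit 0x11d43c3a24d5e7)) e
 (c (a (nat_lit 0x1bd95bc6d22a07)) e
 (c (a (nat_lit 0x14f32430e4c007)) e
 (c (a (nat_lit 0x13e7c760000007)) e e))))))))))))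
 (c (a (nat_lit 0x153544c36365))
 (c (a (nat_lit 0x76b4c4a5318c1))
 (c (a (nat_lit 0x1738b958d7b27a08)) e
 (c (a (nat_lit 0x11d2d230ed51f9aa)) e e))
 (c (a (nat_lit 0x172201a6c08c24)) e
 (c (a (nat_lit 0x21002e5727)) e
 (c (a (nat_lit 0x424a4c9139428)) e
 (c (a (nat_lit 0x363c60ad37148)) e
 (c z e
 (c (a (nat_lit 0x1a5cbcba032c8)) e
 (c (a (nat_lit 0x138e626b83e7)) e
 (c (a (nat_lit 0x1939aaf509c646)) e
 (c (a (nat_lit 0xe64f205400006)) e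
 (c (a (nat_lit 0x704000000005)) e e)))))))))))
 (c (a (nat_lit 0x1ac9a9a9a985))
 (c (a (nat_lit 0x14121e0409066))
 (c (a (nat_lit 0xf90ec531c1a8988)) e
 (c (a (nat_lit 0xbe9ebd08860000a)) e e))
 (c (a (nat_lit 0xe1c02c937707))
 (c (a (nat_lit 0x1ab99ff1c0000008)) e e)
 (c (a (nat_lit 0x5a6c9aa493109)) e
 (c z e
 (c z e
 (c (a (nat_lit 0x86e5be7f71407)) e
 (c (a (nat_lit 0xbdf40420c2b66)) e
 (c (a (nat_lit 0x1b44e04f288006)) e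
 (c (a (nat_lit 0x821300000005)) e e)))))))))
 (c (a (nat_lit 0x1c7b9b7a9961))
 (c (a (nat_lit 0x1494dcc0f73c7)) e
 (c z e
 (c z e
 (c (b (nat_lit 0x1fe6e856a58848)) e
 (c (a (nat_lit 0xa0d91cb6525c8)) e
 (c (a (nat_lit 0x1d1100a08e26e6)) e
 (c (a (nat_lit 0x116aeb8d200006)) e
 (c (a (nat_lit 0x1cc28000000001)) e e))))))))
 (c (a (nat_lit 0x5e5a5040361))
 (c z e
 (c (a (nat_lit 0x54a3794353967)) e
 (c (a (nat_lit 0x58cd6e9ce2328)) e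
 (c (a (nat_lit 0x1efff44fa66027)) e
 (c (a (nat_lit 0x732574a250006)) e
 (c (a (nat_lit 0x199a2780000006)) e e))))))
 (c (a (nat_lit 0x4c46362ac41))
 (c (a (nat_lit 0x6135922e0226)) e
 (c (a (nat_lit 0x2b845ebc121c8)) e
 (c (a (nat_lit 0xc3105016040e8)) e
 (c (a (nat_lit 0x1708e0a3400007)) e
 (c (a (nat_lit 0x1d420000000005)) e e)))))
 (c (a (nat_lit 0x1232129292e5))
 (c (a (nat_lit 0x12e1e7c0c24348)) e
 (c (a (nat_lit 0x13abc244228008)) e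
 (c (a (nat_lit 0x1a25cb00000006)) e e)))
 (c (a (nat_lit 0x1070f555aa45))
 (c (a (nat_lit 0x15f562a5000004)) e
 (c (a (nat_lit 0x12ca2000000004)) e e))
 (c (a (nat_lit 0x10de3e5b77a5)) e
 (c (a (nat_lit 0x1af7b7d36085)) e
 (c (a (nat_lit 0x1afafb1ad085)) e
 (c (a (nat_lit 0x1d5d7dbddda5)) e
 (c (a (nat_lit 0x1c7c9cbcbe25)) e
 (c (a (nat_lit 0xa281fc0001)) e
 (c (a (nat_lit 0x120e7205423)) e
 (c (a (nat_lit 0x147a0549463)) e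
 (c (a (nat_lit 0x1ea040200001)) e
 (c (a (nat_lit 0x2000000001)) e e)))))))))))))))))))
 (c (a (nat_lit 0x2021))
 (c (a (nat_lit 0x1b7b66a68685))
 (c (a (nat_lit 0x15c6048200fe61))
 (c (a (nat_lit 0x17f654337573b148))
 (c (a (nat_lit 0x13d5b6a3e000000009)) e
 (c (a (nat_lit 0x1ace2000000000000b)) e e))
 (c (a (nat_lit 0x14b3b3d5b491caca)) e
 (c (a (nat_lit 0x13737553f0d1522a)) e
 (c (a (nat_lit 0x127513712fb67e6a)) e
 (c (a (nat_lit 0x11aeadeaeeed000a)) e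
 (c (a (nat_lit 0x1cbc781200000008)) e
 (c (a (nat_lit 0x1109e00000000008)) e e)))))))
 (c (a (nat_lit 0x101012143b9e5))
 (c (a (nat_lit 0xecf308fedc9acab)) e
 (c (a (nat_lit 0x1d3fbe39f7777aab)) e e))
 (c (a (nat_lit 0x16040624ab1e6))
 (c (a (nat_lit 0x199791d6b1f3d36a)) e e)
 (c (a (nat_lit 0xa02064ead308)) e
 (c (a (nat_lit 0x38185eb1e7a68)) e
 (c (a (nat_lit 0x24c94d5574e8)) e
 (c (a (nat_lit 0xdd0d1d75be028)) e
 (c z e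
 (c (a (nat_lit 0x714bbe20b0607)) e
 (c (a (nat_lit 0x125b66eb07c9c7)) e
 (c (a (nat_lit 0x1101a681e00007)) e
 (c (a (nat_lit 0x530000000003)) e e))))))))))))
 (c (a (nat_lit 0x14a040202026))
 (c (a (nat_lit 0xe0404127b346))
 (c (a (nat_lit 0x121352f12e6f308a)) e e)
 (c (a (nat_lit 0x2020a26634e8)) e
 (c (a (nat_lit 0x2041cb159d69)) e
 (c z e
 (c z e
 (c z e
 (c z e
 (c (a (nat_lit 0xd9701a585ee28)) e
 (c (a (nat_lit 0x1565c56848e008)) e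
 (c (a (nat_lit 0x2b1f0a0000005)) e e))))))))))
 (c (a (nat_lit 0x62483e18001))
 (c (a (nat_lit 0x20608144f0a8))
 (c (a (nat_lit 0xbb34e9412c8a009)) e e)
 (c z e
 (c z e
 (c z e
 (c z e
 (c z e
 (c (a (nat_lit 0x1460e722eca5e8)) e
 (c (a (nat_lit 0x869acd1c00007)) e
 (c (a (nat_lit 0x48000000001)) e e)))))))))
 (c (a (nat_lit 0xaca28c6c5c1))
 (c z e
 (c z e
 (c z e
 (c z e
 (c z e
 (c (b (nat_lit 0x1fe3e291864008)) e
 (c (a (nat_lit 0x1693b920000007)) e e)))))))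
 (c (a (nat_lit 0x60503224fc1))
 (c z e
 (c (a (nat_lit 0x48490cb648269)) e
 (c (a (nat_lit 0xa76b632a88449)) e
 (c z e
 (c (a (nat_lit 0xdc270a3800008)) e
 (c (a (nat_lit 0x12cda000000008)) e e))))))
 (c (a (nat_lit 0x402344d9a4))
 (c (a (nat_lit 0xf5ac87c0a068)) e
 (c (a (nat_lit 0x1c527125086bc9)) e
 (c z e
 (c (a (nat_lit 0x1d208a80000006)) e
 (c (a (nat_lit 0x1ba00000000004)) e e)))))
 (c (a (nat_lit 0x1696d7583548))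
 (c (a (nat_lit 0x1fbfd039f9e908)) e e)
 (c z e
 (c (a (nat_lit 0x181d7dbac547)) e
 (c (a (nat_lit 0x1c7c7c6b4046)) e
 (c (a (nat_lit 0x181818114dc7)) e
 (c (a (nat_lit 0x19b9b9d67727)) e
 (c (a (nat_lit 0x11b2525351e6)) e
 (c (a (nat_lit 0x405902a162)) e
 (c (a (nat_lit 0x300405ee5)) e
 (c (a (nat_lit 0x620a0bf0004)) e
 (c (a (nat_lit 0x60000001)) e e)))))))))))))))))
 C48))) Tr.c Tr.e (nat_lit 0) C.cx C.cy
noncomputable def C50 : Tr := beta% (fun (c : Nat → Tr → Tr → Tr) (e : Tr) (z : Nat) (a b : Nat → Nat) =>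
 (c (a (nat_lit 0x202021))
 (c (a (nat_lit 0x815a56567))
 (c (a (nat_lit 0xd31500f2da7)) e
 (c z e
 (c (a (nat_lit 0x43576955547)) e
 (c z e
 (c z e
 (c (a (nat_lit 0x52ab1512168)) e
 (c (a (nat_lit 0x7d25268a028)) e
 (c (a (nat_lit 0xb16f6266008)) e
 (c (a (nat_lit 0xe90e0000008)) e e)))))))))
 (c (a (nat_lit 0x1b7b3b0003))
 (c (a (nat_lit 0xe7abab8b886)) e
 (c (a (nat_lit 0x30988a81308)) e
 (c (a (nat_lit 0x588acf33328)) e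
 (c (a (nat_lit 0x2d74340448)) e
 (c (b (nat_lit 0xad3f39fe028)) e
 (c (a (nat_lit 0xc57cc80c088)) e
 (c (a (nat_lit 0x129948e00007)) e e)))))))
 (c (a (nat_lit 0x5f0c54005))
 (c (a (nat_lit 0x3aace335327)) e
 (c (a (nat_lit 0x70e33d303a8)) e
 (c (a (nat_lit 0x413f4c79b88)) e
 (c (b (nat_lit 0xa343fec8428)) e
 (c (a (nat_lit 0x1869f4484008)) e
 (c (a (nat_lit 0x1af260000007)) e e))))))
 (c (a (nat_lit 0x15e0202004))
 (c (b (nat_lit 0x75352dfebe7)) e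
 (c (b (nat_lit 0x10732dffffe8)) e e))
 (c (a (nat_lit 0x40606041))
 (c (a (nat_lit 0x1a378380a086)) e
 (c (a (nat_lit 0x159383630007)) e
 (c (a (nat_lit 0x15c580000007)) e e)))
 (c (a (nat_lit 0x6040a1))
 (c (a (nat_lit 0x1121c0800007)) e
 (c (a (nat_lit 0x13c000000005)) e e))
 (c (a (nat_lit 0x402101)) e
 (c (a (nat_lit 0x203384)) e
 (c z e
 (c (a (nat_lit 0x1194141407)) e
 (c (a (nat_lit 0x1474545447)) e
 (c (a (nat_lit 0x1252202006)) e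
 (c (a (nat_lit 0x202030c4)) e
 (c (a (nat_lit 0x2060a1c1)) e
 (c (a (nat_lit 0xe0a08181)) e
 (c (a (nat_lit 0x11c0200005)) e e))))))))))))))))
 (c (nat_lit 1)
 (c (a (nat_lit 0x10b08a8003))
 (c (a (nat_lit 0x15f6da723744)) e
 (c (a (nat_lit 0xc91f1701326)) e
 (c (a (nat_lit 0x10d21532d2c6)) e
 (c (a (nat_lit 0x1275d5e9db06)) e
 (c (a (nat_lit 0x545263180c8)) e
 (c (a (nat_lit 0xe7d56284007)) e
 (c (a (nat_lit 0x11e5e0000008)) e e)))))))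
 (c (a (nat_lit 0x1680802022))
 (c (a (nat_lit 0x10efd1919d86)) e
 (c (a (nat_lit 0x7e8c98890a8)) e
 (c (a (nat_lit 0x48502332929)) e
 (c (a (nat_lit 0x9dd98e66268)) e
 (c (a (nat_lit 0x12cf28c00008)) e
 (c (a (nat_lit 0x12a000000006)) e e))))))
 (c (a (nat_lit 0xa0204001))
 (c (b (nat_lit 0x8c86a3cdfe7)) e
 (c (a (nat_lit 0x8c6b4250288)) e
 (c (a (nat_lit 0x65e82e24008)) e
 (c (a (nat_lit 0x144600000008)) e e))))
 (c (a (nat_lit 0x406101))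
 (c (a (nat_lit 0x5ff4e45e1e6)) e
 (c (a (nat_lit 0x12e4a0a00008)) e
 (c (a (nat_lit 0x1ae000000006)) e e)))
 (c (a (nat_lit 0x2040c1))
 (c (a (nat_lit 0x1d4260000004)) e e)
 (c (a (nat_lit 0x21bb44)) e
 (c (a (nat_lit 0x14b1e9ea4)) e
 (c (a (nat_lit 0x1519f9fa06)) e
 (c (a (nat_lit 0x1393b3f3e5)) e
 (c (a (nat_lit 0x1393cd50e5)) e
 (c (a (nat_lit 0x1ab9b74ca4)) e
 (c (a (nat_lit 0x1839424004)) e
 (c (a (nat_lit 0x11e0605204)) e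
 (c (a (nat_lit 0x16c0c06002)) e
 (c (a (nat_lit 0x1c0000001)) e e)))))))))))))))
 (c (nat_lit 1)
 (c (a (nat_lit 0xa0402021))
 (c (a (nat_lit 0xa8aae2e3485)) e
 (c (b (nat_lit 0x7e983961fe7)) e
 (c (a (nat_lit 0x281d0e92169)) e
 (c (a (nat_lit 0x1a496601a008)) e
 (c (a (nat_lit 0x10d280000006)) e e)))))
 (c (a (nat_lit 0x406041))
 (c (a (nat_lit 0x440d0806028)) e
 (c (a (nat_lit 0x1f7aba362a9)) e
 (c (a (nat_lit 0x1745c2c00008)) e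
 (c (a (nat_lit 0x182000000006)) e e))))
 (c (a (nat_lit 0x208161))
 (c (a (nat_lit 0x1b6f83a1e008)) e
 (c (a (nat_lit 0x1fc640000007)) e e))
 (c (a (nat_lit 0x2053c4))
 (c (a (nat_lit 0x16000000001)) e e)
 (c (a (nat_lit 0x33d89886)) e
 (c (a (nat_lit 0x31d1d1c6)) e
 (c (a (nat_lit 0x202c2e1)) e
 (c (a (nat_lit 0x13d3ececc5)) e
 (c (a (nat_lit 0x19d9d9b6c4)) e
 (c (a (nat_lit 0x1975e70024)) e
 (c (a (nat_lit 0x1eec203c04)) e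
 (c (a (nat_lit 0xbe03be644)) e
 (c (a (nat_lit 0xf35a00004)) e e)))))))))))))
 (c (nat_lit 1)
 (c (a (nat_lit 0x204060c1))
 (c (b (nat_lit 0x1909fe16227)) e
 (c (a (nat_lit 0x1eab4c65e007)) e
 (c (a (nat_lit 0x1a76c0000005)) e e)))
 (c (a (nat_lit 0x20b404))
 (c (a (nat_lit 0x15efa5800007)) e
 (c (a (nat_lit 0x1c0000000006)) e e))
 (c (a (nat_lit 0x2fb49486)) e
 (c (a (nat_lit 0xc3110eaa6)) e
 (c (a (nat_lit 0x1333333327)) e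
 (c (a (nat_lit 0x1bdd80e0a2)) e
 (c (a (nat_lit 0x15d6362ba4)) e
 (c (a (nat_lit 0x19d9cf6b24)) e
 (c (a (nat_lit 0x1965a035e4)) e
 (c (a (nat_lit 0xb20335924)) e
 (c (a (nat_lit 0x13758004)) e
 (c (a (nat_lit 0x12e0000003)) e e))))))))))))
 (c (nat_lit 1)
 (c (a (nat_lit 0x3d052b2a6))
 (c (a (nat_lit 0x19e6e0000005)) e e)
 (c (a (nat_lit 0xff2525247)) e
 (c (a (nat_lit 0x1131312b67)) e
 (c (a (nat_lit 0x1999961625)) e
 (c (a (nat_lit 0x1c3c3c11c4)) e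
 (c (a (nat_lit 0x1bfc11a5c4)) e
 (c (a (nat_lit 0x1ad0803b04)) e
 (c (a (nat_lit 0x18006e7fe3)) e
 (c (a (nat_lit 0x2030e7a4)) e
 (c (a (nat_lit 0x1aa0200003)) e e))))))))))
 (c (a (nat_lit 0x202001))
 (c (a (nat_lit 0x12d2d2a546)) e
 (c (a (nat_lit 0x11f1f1f1c6)) e
 (c (a (nat_lit 0x1a1a1a1766)) e
 (c (a (nat_lit 0x17d7d2acc5)) e
 (c (a (nat_lit 0x16ec803704)) e
 (c (a (nat_lit 0x10e0482844)) e
 (c (a (nat_lit 0x2babb804)) e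
 (c (a (nat_lit 0x1c80402002)) e
 (c (a (nat_lit 0x1e0000001)) e e)))))))))
 (c (a (nat_lit 0x200001))
 (c (a (nat_lit 0x1f5f3f1c25)) e
 (c (a (nat_lit 0x10100ecd27)) e
 (c (a (nat_lit 0x13d12e1c06)) e
 (c (a (nat_lit 0x14002acfa5)) e
 (c (a (nat_lit 0xad5ba6f05)) e
 (c (a (nat_lit 0x1780602024)) e
 (c (a (nat_lit 0x1ce3800001)) e e)))))))
 (c (a (nat_lit 0x202021))
 (c (a (nat_lit 0x14d2cff4c5)) e
 (c (a (nat_lit 0xfae30f0e7)) e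
 (c (a (nat_lit 0x14f7b7b727)) e
 (c (a (nat_lit 0x203e03)) e
 (c (a (nat_lit 0x20402001)) e
 (c (a (nat_lit 0x1920000001)) e e))))))
 (c (a (nat_lit 0x202001))
 (c (a (nat_lit 0x1617777467)) e
 (c (a (nat_lit 0x18e0202084)) e
 (c (a (nat_lit 0x51a2)) e
 (c (a (nat_lit 0x300400001)) e e))))
 (c (a (nat_lit 0x202021))
 (c (a (nat_lit 0x202021)) e
 (c (a (nat_lit 0x20202001)) e
 (c (a (nat_lit 0x20000001)) e e)))
 (c (a (nat_lit 0x202021))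
 (c (a (nat_lit 0x20200001)) e e)
 (c (a (nat_lit 0x202021)) e
 (c (a (nat_lit 0x202001)) e
 (c (a (nat_lit 0x21)) e
 (c (a (nat_lit 0x2021)) e
 (c (a (nat_lit 0x2021)) e
 (c (a (nat_lit 0x41)) e
 (c (a (nat_lit 0x2041)) e
 (c (a (nat_lit 0x41)) e
 (c (a (nat_lit 0x2061)) e
 (c (a (nat_lit 0x61)) e
 (c (a (nat_lit 0x20c1)) e
 (c (a (nat_lit 0x2001)) e e)))))))))))))))))))))))) Tr.c Tr.e (nat_lit 0) C.cx C.cy
noncomputable def C51 : Tr := beta% (fun (c : Nat → Tr → Tr → Tr) (e : Tr) (z : Nat) (a b : Nat → Nat) =>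
 (c (a (nat_lit 0x202021))
 (c (a (nat_lit 0x20202021))
 (c (a (nat_lit 0x10b0c080e284))
 (c (a (nat_lit 0x482a4c510c45)) e
 (c (a (nat_lit 0xc970394c61e6)) e
 (c (a (nat_lit 0x7eaf7d6722ca7)) e
 (c (a (nat_lit 0x2fd46a51eaa6)) e
 (c (a (nat_lit 0xbeeca198aede5)) e e)))))
 (c (a (nat_lit 0x1fe70727a4a4))
 (c (a (nat_lit 0x78cd46be3e727)) e
 (c (a (nat_lit 0x5f5d5922248e8)) e e))
 (c (a (nat_lit 0xa0c0fa42)) e
 (c (a (nat_lit 0x1090d6339145))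
 (c (a (nat_lit 0x307f55205a006)) e
 (c (a (nat_lit 0xaf44a20000007)) e e))
 (c (a (nat_lit 0x11d4b1f514a6))
 (c (a (nat_lit 0x1fac6000000005)) e e)
 (c (a (nat_lit 0x193576fa5686)) e
 (c (a (nat_lit 0x14b596533307)) e
 (c (a (nat_lit 0x68e5b0da24)) e
 (c (a (nat_lit 0x124fa983a206)) e
 (c (a (nat_lit 0x12b5e3a40cc6)) e
 (c (a (nat_lit 0x15d5a16c2025)) e
 (c (a (nat_lit 0x17600a002)) e
 (c (a (nat_lit 0x3560000002)) e e)))))))))))))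
 (c (a (nat_lit 0x20000001))
 (c (a (nat_lit 0x1e2244001))
 (c (a (nat_lit 0x119a758da44026)) e
 (c (b (nat_lit 0xe70d11fffe2e8)) e e))
 (c (a (nat_lit 0x10b0b53c90c6)) e
 (c (a (nat_lit 0x10b5b7b6f967))
 (c (a (nat_lit 0x156f967400006)) e
 (c (a (nat_lit 0x1109e000000007)) e e))
 (c (a (nat_lit 0x1434d616ae27))
 (c (a (nat_lit 0x11600000000002)) e e)
 (c (a (nat_lit 0xd0e112d4e07)) e
 (c (a (nat_lit 0xaecf28e6b07)) e
 (c (a (nat_lit 0x1240679726a4)) e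
 (c (a (nat_lit 0x1d67e0e0bee6)) e
 (c (a (nat_lit 0x900204195e8)) e
 (c (a (nat_lit 0xba0e0419fe7)) e
 (c (a (nat_lit 0x2660600001)) e
 (c (a (nat_lit 0x2000000001)) e e))))))))))))
 (c (a (nat_lit 0x20203303))
 (c (b (nat_lit 0x787947adfe6))
 (c z e
 (c z e
 (c (a (nat_lit 0x1310c000000008)) e e)))
 (c (b (nat_lit 0x10b75967bfe8))
 (c (a (nat_lit 0x135b4dc0000008)) e e)
 (c (a (nat_lit 0x279cdcce6c8)) e
 (c z e
 (c (a (nat_lit 0xd311006c187)) e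
 (c (a (nat_lit 0x141e0e03028)) e
 (c (a (nat_lit 0x50024bf3168)) e
 (c (a (nat_lit 0x2457ffe348)) e
 (c (a (nat_lit 0x328e44a008)) e
 (c (a (nat_lit 0x108900000008)) e e))))))))))
 (c (a (nat_lit 0x20331305))
 (c (b (nat_lit 0x19b9fd079fe6))
 (c (a (nat_lit 0x1c0f0000000005)) e e)
 (c (b (nat_lit 0xe90e5ffffe7)) e
 (c z e
 (c z e
 (c (a (nat_lit 0x812a745d506)) e
 (c (a (nat_lit 0x2050a273c7)) e
 (c (b (nat_lit 0x24f4bfffe8)) e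
 (c (a (nat_lit 0x23152400007)) e
 (c (a (nat_lit 0x19a000000006)) e e)))))))))
 (c (a (nat_lit 0xcfcfcfbc6))
 (c (a (nat_lit 0x1175a3c3a526)) e
 (c z e
 (c z e
 (c (b (nat_lit 0x15cd6b7b1fe6)) e
 (c (a (nat_lit 0x9d12fc4e6e7)) e
 (c (b (nat_lit 0x150bfffe008)) e
 (c (a (nat_lit 0x1a7a40000007)) e e)))))))
 (c (a (nat_lit 0x1333324de7))
 (c (a (nat_lit 0x1271ae6b9426)) e
 (c (a (nat_lit 0x1d3a9a1a1447)) e
 (c (a (nat_lit 0xacb545e77e6)) e e)))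
 (c (a (nat_lit 0x17171452e7))
 (c (a (nat_lit 0x145756a6e627)) e
 (c (a (nat_lit 0x17b68c2b1087)) e
 (c (a (nat_lit 0x108e07e3a008)) e e)))
 (c (a (nat_lit 0x1387474745))
 (c (a (nat_lit 0x14a0428307c4)) e
 (c (a (nat_lit 0xb89800001)) e e))
 (c (a (nat_lit 0x1c1214061))
 (c (a (nat_lit 0x1a8560000004)) e e)
 (c (a (nat_lit 0x40604061)) e
 (c (a (nat_lit 0x100804041)) e
 (c (a (nat_lit 0x16f6d6f664)) e
 (c (a (nat_lit 0x11b1c3a305)) e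
 (c (a (nat_lit 0x1c60404464)) e
 (c (a (nat_lit 0x1210381)) e
 (c (a (nat_lit 0x82e301)) e
 (c (a (nat_lit 0x3030241)) e
 (c (a (nat_lit 0x10285e1)) e
 (c (a (nat_lit 0x400001)) e e)))))))))))))))))))
 (c (a (nat_lit 0x202021))
 (c (a (nat_lit 0x2018c6))
 (c (a (nat_lit 0x14f5353520a4))
 (c (a (nat_lit 0x11d25068e5c2a5)) e
 (c (b (nat_lit 0x1edcd17ffeeaa6)) e e))
 (c (b (nat_lit 0xaeaf3f81fe6))
 (c z e
 (c (a (nat_lit 0x8e712aa400008)) e e))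
 (c (a (nat_lit 0xdd2f4b9c987))
 (c (a (nat_lit 0x12fc90a0000006)) e
 (c (a (nat_lit 0x10200000000006)) e e))
 (c (a (nat_lit 0xf10d1d0c0e7)) e
 (c (a (nat_lit 0x1158ee0f9225)) e
 (c (a (nat_lit 0x97172a4c444)) e
 (c (a (nat_lit 0x40020253ba5)) e
 (c (b (nat_lit 0x500e0519fe6)) e
 (c (a (nat_lit 0x8021992007)) e
 (c (a (nat_lit 0x43f44006)) e
 (c (a (nat_lit 0x10c0000004)) e e)))))))))))
 (c (a (nat_lit 0x2038a167))
 (c (a (nat_lit 0x11f45e498a07))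
 (c z e
 (c (a (nat_lit 0xe7cf560000008)) e e))
 (c (a (nat_lit 0xe56efe9e3e8)) e
 (c z e
 (c z e
 (c z e
 (c (a (nat_lit 0x20268d52a8)) e
 (c (a (nat_lit 0x2472330028)) e
 (c (a (nat_lit 0x2438434208)) e
 (c (a (nat_lit 0x1aba000007)) e
 (c (a (nat_lit 0x2000000001)) e e))))))))))
 (c (a (nat_lit 0x113fdfdfc7))
 (c (a (nat_lit 0x1677b4331307))
 (c (a (nat_lit 0x18000000000004)) e e)
 (c (b (nat_lit 0x1c3d3ff30e67)) e
 (c z e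
 (c z e
 (c z e
 (c (a (nat_lit 0x2cd2b144ca8)) e
 (c (a (nat_lit 0x39b8846008)) e e)))))))
 (c (a (nat_lit 0x189897ec47))
 (c (a (nat_lit 0xf2b69091226)) e
 (c z e
 (c z e
 (c z e
 (c (a (nat_lit 0x52cedb3c6a8)) e
 (c (a (nat_lit 0xb132b200008)) e e))))))
 (c (a (nat_lit 0x17d6100d66))
 (c (b (nat_lit 0x7bff1a9f046)) e
 (c (b (nat_lit 0x1fe783289247)) e
 (c (b (nat_lit 0x65fe8d327c8)) e e)))
 (c (a (nat_lit 0x1700200004))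
 (c (a (nat_lit 0x1c40a1e0e7e3)) e
 (c (a (nat_lit 0x3e154e464a6)) e
 (c (a (nat_lit 0x109602200006)) e e)))
 (c (a (nat_lit 0xa0206061))
 (c (a (nat_lit 0x5d7a3e68006)) e
 (c (a (nat_lit 0x16c220000007)) e e))
 (c (a (nat_lit 0x806041))
 (c (a (nat_lit 0x1e4000000002)) e e)
 (c (a (nat_lit 0x202141)) e
 (c (a (nat_lit 0x20bb62)) e
 (c (a (nat_lit 0x1151802005)) e
 (c (a (nat_lit 0x2a1e08001)) e
 (c (a (nat_lit 0x1c14162a1)) e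
 (c (a (nat_lit 0x6120e1)) e
 (c (a (nat_lit 0x4080e1)) e
 (c (a (nat_lit 0x1c0a141c1)) e
 (c (a (nat_lit 0xe06001)) e
 (c (a (nat_lit 0x20000001)) e e))))))))))))))))))
 C50))) Tr.c Tr.e (nat_lit 0) C.cx C.cy
noncomputable def C52 : Tr := beta% (fun (c : Nat → Tr → Tr → Tr) (e : Tr) (z : Nat) (a b : Nat → Nat) =>
 (c (a (nat_lit 0x20202021))
 (c (a (nat_lit 0xc060606001))
 (c (a (nat_lit 0xe1c028133366))
 (c z e
 (c (a (nat_lit 0x1676741516ddf929)) e e))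
 (c (a (nat_lit 0x2ef4df3d0daa7))
 (c (a (nat_lit 0xa2b2aad14a8c00a)) e e)
 (c z e
 (c z e
 (c z e
 (c z e
 (c z e
 (c (a (nat_lit 0xf42f3086f0ae8)) e
 (c (a (nat_lit 0x2a10d57200006)) e
 (c (a (nat_lit 0x33c000000001)) e e))))))))))
 (c (a (nat_lit 0x4e462e16081))
 (c (a (nat_lit 0x4141c02ab5e8))
 (c (a (nat_lit 0xc27ae32e3e00009)) e
 (c (a (nat_lit 0xe19154000000009)) e e))
 (c (b (nat_lit 0x1fe484e6f41da9))
 (c (a (nat_lit 0x1c15200000000008)) e e)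
 (c z e
 (c z e
 (c z e
 (c z e
 (c (a (nat_lit 0xb04d8d2b2009)) e
 (c (a (nat_lit 0x16f8dce0000006)) e e))))))))
 (c (a (nat_lit 0xe08061fda1))
 (c (a (nat_lit 0xe0a025c51129)) e
 (c z e
 (c z e
 (c z e
 (c z e
 (c (a (nat_lit 0xd8614af800008)) e
 (c (a (nat_lit 0x650a000000007)) e e)))))))
 (c (b (nat_lit 0x203b5ff425)) e
 (c (a (nat_lit 0x8b20a8a9026)) e
 (c z e
 (c z e
 (c (a (nat_lit 0x15fb1b1b1748)) e
 (c (a (nat_lit 0x147474904027)) e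
 (c (a (nat_lit 0x191858732e67)) e
 (c (a (nat_lit 0x1d5c3d102f06)) e
 (c (a (nat_lit 0x163715745766)) e
 (c (a (nat_lit 0x5c260327265)) e
 (c (a (nat_lit 0x138020202026)) e
 (c (a (nat_lit 0xb7061c00001)) e
 (c (a (nat_lit 0xc000000001)) e e))))))))))))))))
 (c (a (nat_lit 0x20000021))
 (c (a (nat_lit 0x2418080b9e1))
 (c (a (nat_lit 0x3a94901837aa6))
 (c (a (nat_lit 0x6d52d4580000007)) e
 (c (a (nat_lit 0x14a7c00000000008)) e e))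
 (c (a (nat_lit 0x20456a16f108)) e
 (c z e
 (c z e
 (c z e
 (c z e
 (c (a (nat_lit 0x536700f400007)) e
 (c (a (nat_lit 0x31c000000004)) e e))))))))
 (c (a (nat_lit 0x109090b2c0a6))
 (c (a (nat_lit 0x5ac93142ec8)) e e)
 (c (b (nat_lit 0x2781ff30f26)) e
 (c z e
 (c z e
 (c z e
 (c (a (nat_lit 0x113939f837a8)) e
 (c (a (nat_lit 0x10f111f26387)) e
 (c (a (nat_lit 0x1cfdbe9b0fc7)) e
 (c (a (nat_lit 0x16375cd2e707)) e
 (c (a (nat_lit 0x14f399548da7)) e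
 (c (a (nat_lit 0x1e020205107)) e
 (c (a (nat_lit 0x202070e006)) e
 (c (a (nat_lit 0x3ef60000001)) e e))))))))))))))
 (c (nat_lit 1)
 (c (a (nat_lit 0x161e159580a5))
 (c (a (nat_lit 0x5eb0e1489e767)) e e)
 (c z e
 (c z e
 (c z e
 (c z e
 (c (a (nat_lit 0xab252b33168)) e
 (c (a (nat_lit 0x1a5c1e2e9086)) e
 (c (a (nat_lit 0x141516f5e307)) e
 (c (a (nat_lit 0x12f19286e007)) e
 (c (a (nat_lit 0x1bf817c6a666)) e
 (c (a (nat_lit 0x604578d885)) e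
 (c (a (nat_lit 0x2afe1800001)) e
 (c (a (nat_lit 0xae000000001)) e e)))))))))))))
 (c (a (nat_lit 0x2001))
 (c z e
 (c (a (nat_lit 0x8f21215f967))
 (c (a (nat_lit 0x104a94d48b6006)) e
 (c (a (nat_lit 0x91b0b40000006)) e e))
 (c (a (nat_lit 0x10f5375d46e7))
 (c (a (nat_lit 0x18c28000000005)) e e)
 (c (a (nat_lit 0x42f7166c028)) e
 (c (a (nat_lit 0x8b5a90c8d68)) e
 (c (a (nat_lit 0x17af71f7d0c7)) e
 (c (a (nat_lit 0x13b178e372c7)) e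
 (c z e
 (c (a (nat_lit 0x14f55cab3588)) e
 (c (a (nat_lit 0x81db0700007)) e
 (c (a (nat_lit 0x1a8020000006)) e e)))))))))))
 (c (a (nat_lit 0x20202021))
 (c (a (nat_lit 0x10d0d8175be5))
 (c (a (nat_lit 0x216f00800001)) e
 (c (a (nat_lit 0x18320000000002)) e e))
 (c (a (nat_lit 0x123557d9fde6)) e
 (c (a (nat_lit 0xa49abb176a7)) e
 (c (a (nat_lit 0xf9053d5a928)) e
 (c (a (nat_lit 0xe8e18686967)) e
 (c (a (nat_lit 0x120f05872728)) e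
 (c z e
 (c (a (nat_lit 0x1656482fe07)) e
 (c (a (nat_lit 0x3041400004)) e
 (c (a (nat_lit 0x18c000000003)) e e))))))))))
 (c (a (nat_lit 0x1505))
 (c (a (nat_lit 0x88aca2ef3a6)) e
 (c (a (nat_lit 0x14147a9dc266)) e
 (c (a (nat_lit 0x13563ab1cf08)) e
 (c (a (nat_lit 0xf1a74284367)) e
 (c (a (nat_lit 0x162aaf2062e7)) e
 (c z e
 (c (a (nat_lit 0x6234456c007)) e
 (c (a (nat_lit 0x77c80000003)) e e))))))))
 (c (a (nat_lit 0x2035d5c5))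
 (c (b (nat_lit 0x135672ffffe5)) e
 (c (a (nat_lit 0x107391afac08)) e
 (c (b (nat_lit 0xcd831315fe7)) e
 (c (b (nat_lit 0xc13a43fffe7)) e
 (c z e
 (c (a (nat_lit 0x6478c00006)) e
 (c (a (nat_lit 0x1c2000000004)) e e)))))))
 (c (a (nat_lit 0x107c1b7b08))
 (c (a (nat_lit 0x133bdbdbdbc8)) e
 (c (a (nat_lit 0x10f4f51509e9)) e
 (c (a (nat_lit 0x15b594f1cf48)) e
 (c (a (nat_lit 0xc7a89462008)) e
 (c (a (nat_lit 0xbda20000008)) e e)))))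
 (c (a (nat_lit 0x1d3d3c49a7))
 (c (a (nat_lit 0x1cbd3caae8e7)) e
 (c (a (nat_lit 0xe100ad064e7)) e
 (c (a (nat_lit 0x1a6caa000007)) e e)))
 (c (a (nat_lit 0x1353454025))
 (c (a (nat_lit 0x29b8ea8004)) e
 (c (a (nat_lit 0xbb2a0000001)) e e))
 (c (a (nat_lit 0x1a40200024)) e
 (c (a (nat_lit 0x80404001)) e
 (c (a (nat_lit 0x80606041)) e
 (c (a (nat_lit 0x202040a1)) e
 (c (a (nat_lit 0x700207de2)) e
 (c (a (nat_lit 0x122c4c1)) e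
 (c (a (nat_lit 0x121a28001)) e
 (c (a (nat_lit 0x181006001)) e
 (c (a (nat_lit 0xa0804001)) e
 (c (a (nat_lit 0x20e02021)) e
 (c (a (nat_lit 0x14c6e00002)) e e)))))))))))))))))))))) Tr.c Tr.e (nat_lit 0) C.cx C.cy
noncomputable def C53 : Tr := beta% (fun (c : Nat → Tr → Tr → Tr) (e : Tr) (z : Nat) (a b : Nat → Nat) =>
 (c (a (nat_lit 0x202021))
 (c (nat_lit 1)
 (c (a (nat_lit 0x10504d4cccc6))
 (c (a (nat_lit 0x18731334b4f2e3))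
 (c z e
 (c (a (nat_lit 0xe8faf10ce2eea28)) e
 (c (a (nat_lit 0x1070b28fefaf6d88)) e
 (c (a (nat_lit 0x1012706baef090e8)) e
 (c (a (nat_lit 0x1d738f38b993e007)) e e)))))
 (c (a (nat_lit 0x1c12223403b45))
 (c (a (nat_lit 0x11b15270724b6e69)) e
 (c (a (nat_lit 0x11b2d0f2eeed0f0a)) e e))
 (c (a (nat_lit 0x1234078efc5)) e
 (c (a (nat_lit 0x3e180356ace66)) e
 (c (a (nat_lit 0x6250fcbb4ac67)) e
 (c (a (nat_lit 0x652e44ffebd26)) e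
 (c (a (nat_lit 0xe676b70d32027)) e
 (c z e
 (c (a (nat_lit 0xc9073c84a0a87)) e
 (c (a (nat_lit 0xd500728c7c867)) e
 (c (a (nat_lit 0x11a2c261c00006)) e
 (c (a (nat_lit 0x1334000000003)) e e))))))))))))
 (c (a (nat_lit 0x1bb2f2d2d2c6))
 (c (a (nat_lit 0x1a162802f3906))
 (c (a (nat_lit 0x1131d0530d2ef2e9)) e e)
 (c (a (nat_lit 0x20520393d9da6)) e
 (c z e
 (c z e
 (c z e
 (c z e
 (c z e
 (c (a (nat_lit 0x935c3072b5108)) e
 (c (a (nat_lit 0x1ca0872c2cc007)) e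
 (c (a (nat_lit 0x4123060000005)) e e))))))))))
 (c (a (nat_lit 0x1a0a0c08001))
 (c (a (nat_lit 0x180c60222fac7))
 (c (a (nat_lit 0xad4a30855054008)) e
 (c (a (nat_lit 0x1de7681b60000008)) e e))
 (c (a (nat_lit 0x40021b3d608))
 (c (a (nat_lit 0x9a3500000000008)) e e)
 (c z e
 (c z e
 (c z e
 (c z e
 (c (a (nat_lit 0xa62280a304aa8)) e
 (c (a (nat_lit 0x538b4e00006)) e
 (c (a (nat_lit 0x576000000005)) e e)))))))))
 (c (a (nat_lit 0xc0a0602081))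
 (c (a (nat_lit 0x406466ef512c7)) e
 (c z e
 (c z e
 (c z e
 (c z e
 (c (a (nat_lit 0x2e5a7b16c6008)) e
 (c (a (nat_lit 0x1e8b3e0000006)) e e)))))))
 (c (a (nat_lit 0x4040407043))
 (c z e
 (c z e
 (c z e
 (c z e
 (c (a (nat_lit 0x400d0a6a00008)) e
 (c (a (nat_lit 0xef10000000007)) e e))))))
 (c (a (nat_lit 0x6066f70963))
 (c (a (nat_lit 0x9a034b404407)) e
 (c (a (nat_lit 0x13b396ea32e7c8)) e
 (c z e
 (c (a (nat_lit 0x118c6ac0000008)) e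
 (c (a (nat_lit 0x1d800000000005)) e e)))))
 (c (a (nat_lit 0x161e9f3f5de6))
 (c (b (nat_lit 0x108a6731bfe028)) e
 (c z e
 (c (a (nat_lit 0x1d59c000000008)) e e)))
 (c z e
 (c (a (nat_lit 0xcd3737211c8)) e
 (c (a (nat_lit 0x1292929285e7)) e
 (c (a (nat_lit 0x1353533068e6)) e
 (c (a (nat_lit 0x1473f3ed8d86)) e
 (c (a (nat_lit 0x18b8d95999c5)) e
 (c (a (nat_lit 0x406199a3)) e
 (c (a (nat_lit 0x40d91883)) e
 (c (a (nat_lit 0x4ea2808001)) e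
 (c (a (nat_lit 0x262e0000001)) e e)))))))))))))))))
 C52)
 (c (a (nat_lit 0x202021))
 (c (a (nat_lit 0x202021))
 (c (a (nat_lit 0x18161612101))
 (c (a (nat_lit 0x166277676d3e4)) e
 (c (b (nat_lit 0x1fed4c292bd946))
 (c (a (nat_lit 0xaeec8d1a6600008)) e e)
 (c (a (nat_lit 0x202a0eab8e5)) e
 (c (a (nat_lit 0xab0c82689cc7)) e
 (c z e
 (c z e
 (c (a (nat_lit 0xdec6de55308a6)) e
 (c (a (nat_lit 0x81eecda122006)) e
 (c (a (nat_lit 0x512b8e0000005)) e e)))))))))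
 (c (a (nat_lit 0x50483e3a001))
 (c (a (nat_lit 0x2340250e32a7))
 (c (a (nat_lit 0x1c3a5f06e0000007)) e
 (c (a (nat_lit 0x1d53a00000000008)) e e))
 (c (a (nat_lit 0xa6bf093f6f928))
 (c (a (nat_lit 0x1ea0000000000007)) e e)
 (c z e
 (c z e
 (c (a (nat_lit 0x112d2bc4ceeae8)) e
 (c z e
 (c (a (nat_lit 0x1565d62de00008)) e
 (c (a (nat_lit 0x16a000000007)) e e))))))))
 (c (b (nat_lit 0x103030727fe4))
 (c (a (nat_lit 0x107032b51366c7)) e e)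
 (c (a (nat_lit 0xddc5dbdbda5)) e
 (c z e
 (c (a (nat_lit 0x1a599d9048a6))
 (c (a (nat_lit 0xff6be6d200006)) e e)
 (c z e
 (c (a (nat_lit 0x1c5ededf7007)) e
 (c (a (nat_lit 0x1695f62b6aa6)) e
 (c (a (nat_lit 0x1ffe7f8e4e45)) e
 (c (a (nat_lit 0x14f5bb5ef766)) e
 (c (a (nat_lit 0x19785bfb7206)) e
 (c (a (nat_lit 0x2311321284)) e
 (c (a (nat_lit 0x116020604005)) e
 (c (a (nat_lit 0x80000001)) e e)))))))))))))))
 (c (a (nat_lit 0x20202021))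
 (c (a (nat_lit 0x11111110a225))
 (c (a (nat_lit 0x4668b0cd51906))
 (c (a (nat_lit 0x15aa238000000007)) e e)
 (c (a (nat_lit 0xa7178b97f3888)) e
 (c z e
 (c (a (nat_lit 0x164253cfe511e8)) e
 (c (a (nat_lit 0x13f1b6043e0fc7)) e e)))))
 (c (a (nat_lit 0x1050507070a8))
 (c (a (nat_lit 0x13581aff9b3888)) e e)
 (c z e
 (c (a (nat_lit 0x1552d4b0eda7))
 (c z e
 (c (b (nat_lit 0x1feeb726e00007)) e e))
 (c (a (nat_lit 0x1537920e5147))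
 (c (a (nat_lit 0xe11a900000007)) e e)
 (c z e
 (c (a (nat_lit 0x175b58d690e8)) e
 (c (a (nat_lit 0x12c7e9028727)) e
 (c (a (nat_lit 0xdaf102825e7)) e
 (c (a (nat_lit 0x1492b4690007)) e
 (c (a (nat_lit 0x1c79bae20a86)) e
 (c (a (nat_lit 0x2ba0567665)) e
 (c (a (nat_lit 0x1720c0200004)) e
 (c (a (nat_lit 0x12000000001)) e e))))))))))))))
 (c (a (nat_lit 0x20202021))
 (c (a (nat_lit 0x10b0d0b0b087))
 (c (a (nat_lit 0x1574b73a184f67)) e e)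
 (c z e
 (c z e
 (c (a (nat_lit 0x1ebede1bca06))
 (c (a (nat_lit 0x70c000000005)) e e)
 (c z e
 (c (a (nat_lit 0xbeed0116987)) e
 (c (a (nat_lit 0x1251f5ccfcc6)) e
 (c (a (nat_lit 0x11afac2443a7)) e
 (c z e
 (c (a (nat_lit 0xdf762804046)) e
 (c (a (nat_lit 0x1e4c34001)) e
 (c (a (nat_lit 0xa0000001)) e e))))))))))))
 (c (a (nat_lit 0x404060c1))
 (c z e
 (c (a (nat_lit 0x63316d7e047))
 (c (a (nat_lit 0x844b8e6e00007)) e
 (c (a (nat_lit 0x17376000000007)) e e))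
 (c (b (nat_lit 0x1053b65fe228))
 (c (a (nat_lit 0x19200000000005)) e e)
 (c z e
 (c (a (nat_lit 0x16729b984d87)) e
 (c (a (nat_lit 0xc309b95d4e7)) e
 (c z e
 (c z e
 (c (b (nat_lit 0x1c88e9ff0c8)) e
 (c (a (nat_lit 0x119e20200007)) e
 (c (a (nat_lit 0x1b0000000007)) e e)))))))))))
 (c (a (nat_lit 0x203305))
 (c (a (nat_lit 0x1416f25380e5))
 (c (a (nat_lit 0x3b8020000003)) e
 (c (a (nat_lit 0x1ba00000000004)) e e))
 (c (b (nat_lit 0x1736fb51bfe6)) e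
 (c (b (nat_lit 0xfd49ffffd86)) e
 (c z e
 (c z e
 (c (a (nat_lit 0x11ceeb7e86e7)) e
 (c z e
 (c (b (nat_lit 0x1ff2e3e04006)) e
 (c (a (nat_lit 0x12c040000006)) e e)))))))))
 (c (a (nat_lit 0x14f4e5))
 (c (a (nat_lit 0x6e68d041746)) e
 (c (b (nat_lit 0x6ca2d337fe7)) e
 (c z e
 (c z e
 (c (b (nat_lit 0xb0d14805fe7)) e
 (c (b (nat_lit 0x228101fe568)) e
 (c (a (nat_lit 0xaabb3000005)) e
 (c (a (nat_lit 0x130000000001)) e e))))))))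
 (c (a (nat_lit 0xd6161527))
 (c (a (nat_lit 0x5e9f2602006)) e
 (c z e
 (c z e
 (c z e
 (c z e
 (c (a (nat_lit 0x1e80000006)) e e))))))
 (c z
 (c (a (nat_lit 0x1312d3530508)) e
 (c (a (nat_lit 0x195897a964e8)) e
 (c (a (nat_lit 0x10312bac6588)) e
 (c (a (nat_lit 0x114a42600009)) e e))))
 (c (a (nat_lit 0x11716b8546))
 (c (a (nat_lit 0x16d48f8806a6)) e
 (c (a (nat_lit 0x17cff0406006)) e
 (c (a (nat_lit 0xf3240000005)) e e)))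
 (c (a (nat_lit 0x1bc0404024))
 (c (a (nat_lit 0x1a64a5200004)) e
 (c (a (nat_lit 0x182000000002)) e e))
 (c (a (nat_lit 0x80004001)) e
 (c (a (nat_lit 0x80606021)) e
 (c (a (nat_lit 0x2021)) e
 (c (a (nat_lit 0x13b3b3d383)) e
 (c (a (nat_lit 0x162c06001)) e
 (c (a (nat_lit 0x120e080c1)) e
 (c (a (nat_lit 0x1460404004)) e
 (c (a (nat_lit 0x2a2e12861)) e
 (c (a (nat_lit 0x80408061)) e
 (c (a (nat_lit 0x1bc0204001)) e
 (c (a (nat_lit 0x10a0000002)) e e)))))))))))))))))))))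
 C51))) Tr.c Tr.e (nat_lit 0) C.cx C.cy
noncomputable def C54 : Tr := beta% (fun (c : Nat → Tr → Tr → Tr) (e : Tr) (z : Nat) (a b : Nat → Nat) =>
 (c (nat_lit 1)
 (c (a (nat_lit 0x15c020202005))
 (c (a (nat_lit 0x80a160245286))
 (c (a (nat_lit 0x1ddd5b1bbcb83e27)) e e)
 (c (a (nat_lit 0x82c023b5b227)) e
 (c (a (nat_lit 0x83440aadf708)) e
 (c z e
 (c z e
 (c z e
 (c z e
 (c (a (nat_lit 0xb336327084b08)) e
 (c (a (nat_lit 0x1a280aaa6a2007)) e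
 (c (a (nat_lit 0x76bfa0000004)) e e))))))))))
 (c (a (nat_lit 0x4020200c001))
 (c (a (nat_lit 0x34686aeaa90e7))
 (c (a (nat_lit 0x102f523ffde8a009)) e e)
 (c (b (nat_lit 0x1fffe481a65909)) e
 (c z e
 (c z e
 (c z e
 (c z e
 (c (a (nat_lit 0xfe23246280629)) e
 (c (a (nat_lit 0xe5f5139400006)) e
 (c (a (nat_lit 0x18842000000006)) e e)))))))))
 (c (a (nat_lit 0xa0a0a06001))
 (c (a (nat_lit 0x2060b11e3107)) e
 (c z e
 (c z e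
 (c z e
 (c z e
 (c (b (nat_lit 0x1ffff2b60b0007)) e
 (c (a (nat_lit 0xd93500000007)) e e)))))))
 (c (a (nat_lit 0xe0c0c1a521))
 (c z e
 (c z e
 (c z e
 (c z e
 (c (a (nat_lit 0x16049087400009)) e
 (c (a (nat_lit 0x10546000000008)) e e))))))
 (c (a (nat_lit 0x100cdb82883))
 (c (b (nat_lit 0x2e4ba6806dfe8)) e
 (c z e
 (c z e
 (c (a (nat_lit 0x136a5340000006)) e e))))
 (c z e
 (c z e
 (c (a (nat_lit 0xe2e112e8888)) e
 (c (a (nat_lit 0x5325249cb26)) e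
 (c (a (nat_lit 0x139414116f48)) e
 (c (a (nat_lit 0x1d5cdc197227)) e
 (c (a (nat_lit 0x1c3b7bf0f406)) e
 (c (a (nat_lit 0x54660469325)) e
 (c (a (nat_lit 0x6202632f2c5)) e
 (c (a (nat_lit 0x1442200a001)) e
 (c (a (nat_lit 0x4100000001)) e e))))))))))))))))
 (c (a (nat_lit 0x21))
 (c (a (nat_lit 0x2a281a06001))
 (c (a (nat_lit 0x1e0c2a22611e6))
 (c (a (nat_lit 0x485f3ace3200008)) e
 (c (a (nat_lit 0x8d70c0000000009)) e e))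
 (c (a (nat_lit 0x1202020311408))
 (c (a (nat_lit 0x10aa200000000009)) e e)
 (c (a (nat_lit 0x228c27275049)) e
 (c z e
 (c z e
 (c (a (nat_lit 0x6f230a804a4e9)) e
 (c (b (nat_lit 0x1fed758a48a007)) e
 (c (a (nat_lit 0x62c9a60000004)) e e))))))))
 (c (a (nat_lit 0x52442434001))
 (c (a (nat_lit 0x404025a09749)) e
 (c z e
 (c z e
 (c z e
 (c (a (nat_lit 0x10d1ea874445aa)) e
 (c (a (nat_lit 0x1ed9ebc5200008)) e
 (c (a (nat_lit 0x196a6000000008)) e e)))))))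
 (c (a (nat_lit 0x10707737cfe7))
 (c z e
 (c z e
 (c z e
 (c z e
 (c (a (nat_lit 0x1ea9a980000009)) e e)))))
 (c (b (nat_lit 0x39fffffffe1)) e
 (c z e
 (c (a (nat_lit 0x16da1a3bb827)) e
 (c (a (nat_lit 0xe4e936eef87)) e
 (c (b (nat_lit 0x1ff3f5177945)) e
 (c (a (nat_lit 0x1cfd3d5a74a7)) e
 (c (a (nat_lit 0x159515d36b07)) e
 (c (a (nat_lit 0x1596b46e8fa7)) e
 (c (a (nat_lit 0xaa180517145)) e
 (c (a (nat_lit 0x41e0e16021)) e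
 (c (a (nat_lit 0x160e00001)) e
 (c (a (nat_lit 0xa000000001)) e e)))))))))))))))
 (c (a (nat_lit 0x21))
 (c (a (nat_lit 0x1a7a7a9b6025))
 (c (a (nat_lit 0x2c3ebe8c8f187)) e
 (c z e
 (c z e
 (c z e
 (c (a (nat_lit 0x1f324ce4a6e008)) e
 (c (a (nat_lit 0x1427e080000006)) e
 (c (a (nat_lit 0x13200000000006)) e e)))))))
 (c (a (nat_lit 0x8cf90cfec07)) e
 (c z e
 (c (a (nat_lit 0xd3089e6a727)) e
 (c (a (nat_lit 0x14b4b07131e7)) e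
 (c (a (nat_lit 0xde0f416d9c5)) e
 (c (a (nat_lit 0x319314ed66)) e
 (c (a (nat_lit 0x10f171ce4968)) e
 (c (a (nat_lit 0x1a7b5817e0e7)) e
 (c (a (nat_lit 0x16731325e047)) e
 (c (a (nat_lit 0x645c037f7e6)) e
 (c (a (nat_lit 0x138020202006)) e
 (c (a (nat_lit 0x120000001)) e e)))))))))))))
 (c (a (nat_lit 0x40406061))
 (c z e
 (c (a (nat_lit 0xfb0103030a8))
 (c (a (nat_lit 0x1c165592160f07)) e
 (c (a (nat_lit 0x1691cca7a00007)) e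
 (c (a (nat_lit 0x16e18000000005)) e e)))
 (c (a (nat_lit 0x16363514fca7))
 (c (a (nat_lit 0xf3fa860000004)) e
 (c (a (nat_lit 0x14000000000002)) e e))
 (c (a (nat_lit 0xf2f2f550c67)) e
 (c (a (nat_lit 0x143439f00947)) e
 (c (a (nat_lit 0x13ff68a744c7)) e
 (c (a (nat_lit 0x1ab494f20348)) e
 (c (b (nat_lit 0x1653f3bfffe8)) e
 (c z e
 (c (a (nat_lit 0x322497cab47)) e
 (c (a (nat_lit 0x2134600007)) e
 (c (a (nat_lit 0x2000000001)) e e))))))))))))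
 (c (a (nat_lit 0x20202021))
 (c (a (nat_lit 0x13b3f3fb5a05)) e
 (c (a (nat_lit 0x10d0f4971846)) e
 (c (a (nat_lit 0x1013927659a6)) e
 (c (a (nat_lit 0xaaa0ab44aa7)) e
 (c (a (nat_lit 0x14b6155b8b06)) e
 (c (a (nat_lit 0x15f310a8a608)) e
 (c z e
 (c (a (nat_lit 0x1011ab03c587)) e
 (c (a (nat_lit 0x148f146c005)) e
 (c (a (nat_lit 0x135a40000003)) e e))))))))))
 (c (a (nat_lit 0x20202001))
 (c (a (nat_lit 0x107076b53a65)) e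
 (c (a (nat_lit 0x10b354773166)) e
 (c (a (nat_lit 0x13119838c306)) e
 (c (a (nat_lit 0x15b95d3ae866)) e
 (c (a (nat_lit 0x1417da6c0d87)) e
 (c z e
 (c (a (nat_lit 0x364e1203a48)) e
 (c (a (nat_lit 0x71cfc800003)) e
 (c (a (nat_lit 0x20000000001)) e e)))))))))
 (c (a (nat_lit 0x20001725))
 (c (a (nat_lit 0xf93539dc005)) e
 (c (a (nat_lit 0xa0e1ecce6e6)) e
 (c (a (nat_lit 0xc93fed4efc6)) e
 (c z e
 (c (a (nat_lit 0x13b191182248)) e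
 (c (a (nat_lit 0xd2c6257a006)) e
 (c (a (nat_lit 0x7b1a0000001)) e e)))))))
 (c (a (nat_lit 0x18b2e5))
 (c (a (nat_lit 0xc4c332c2e46)) e
 (c (a (nat_lit 0xa6c51ee1307)) e
 (c (a (nat_lit 0xed92d506fe7)) e
 (c (a (nat_lit 0x246b8850027)) e
 (c (a (nat_lit 0x35a00008)) e
 (c (a (nat_lit 0x1ee000000004)) e e))))))
 (c (a (nat_lit 0x35d57386))
 (c (a (nat_lit 0x3b3ca8a26c6)) e
 (c (a (nat_lit 0x114a29aaf887)) e
 (c (b (nat_lit 0x1ff6e646c007)) e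
 (c (b (nat_lit 0x1ff4e0000008)) e e))))
 (c (a (nat_lit 0x1696934be7))
 (c (a (nat_lit 0x810a890e947)) e
 (c (a (nat_lit 0x190d89000007)) e e))
 (c (a (nat_lit 0x1bfbec06c5)) e
 (c (a (nat_lit 0x1f60402024)) e
 (c (a (nat_lit 0xe0004021)) e
 (c (a (nat_lit 0x565858461)) e
 (c (a (nat_lit 0x404001)) e
 (c (a (nat_lit 0x4020a261)) e
 (c (a (nat_lit 0x17578c2fa4)) e
 (c (a (nat_lit 0x176060e0a3)) e
 (c (a (nat_lit 0x61012081)) e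
 (c (a (nat_lit 0x4c101e121)) e
 (c (a (nat_lit 0x13b409e002)) e
 (c (a (nat_lit 0x1420000001)) e e))))))))))))))))))))))) Tr.c Tr.e (nat_lit 0) C.cx C.cy
noncomputable def C55 : Tr := beta% (fun (c : Nat → Tr → Tr → Tr) (e : Tr) (z : Nat) (a b : Nat → Nat) =>
 (c (a (nat_lit 0x20202021))
 (c (a (nat_lit 0xe0fbfbfbe5))
 (c (a (nat_lit 0x13f3efed612104))
 (c z e
 (c (a (nat_lit 0x8ec963978d279a7))
 (c (a (nat_lit 0x382e811d24faf83ea)) e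
 (c (a (nat_lit 0x4e82ff4f2c9a0000b)) e
 (c (a (nat_lit 0xdd6dab0a00000000a)) e e)))
 (c (a (nat_lit 0xc70d3d250924f68))
 (c (a (nat_lit 0x9733634674000000a)) e e)
 (c (a (nat_lit 0x13f55ab673f3f107)) e
 (c (a (nat_lit 0x11110feead6d0d88)) e
 (c (a (nat_lit 0x1210d331ce4eeec8)) e
 (c (a (nat_lit 0x1ffc19f55797dfa7)) e
 (c (a (nat_lit 0x12b48d6f722c6007)) e e))))))))
 (c (a (nat_lit 0x1f7b38b7b5c8a6))
 (c (a (nat_lit 0xe96db3c9419d0c8))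
 (c (a (nat_lit 0x48956da78f784e00a)) e
 (c (a (nat_lit 0x6ec54948a4000000c)) e e))
 (c (a (nat_lit 0xe9070cd6f2d2c2a))
 (c (a (nat_lit 0xb73b587400000000c)) e e)
 (c (a (nat_lit 0xe30ed2d8bebeb0a)) e
 (c (a (nat_lit 0x12cfd1cf4fcf310a)) e
 (c (a (nat_lit 0x10d43190cef06e2a)) e
 (c (a (nat_lit 0x1855b2525430cde9)) e
 (c (a (nat_lit 0x162f31b6e9200008)) e e)))))))
 (c (a (nat_lit 0x1e98fd393392c6))
 (c (a (nat_lit 0x1373f171f0cfaf09))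
 (c (a (nat_lit 0x1b3a0700000000000a)) e e)
 (c (a (nat_lit 0x12b1910eee4dcf0a)) e
 (c (a (nat_lit 0xf10b150cfd14eea)) e
 (c (a (nat_lit 0x1816569534f4dc4a)) e
 (c (a (nat_lit 0x12d1f0b20fed6009)) e e)))))
 (c (a (nat_lit 0x46adbc3492ec3))
 (c (a (nat_lit 0x1bf999f8973e51c8)) e
 (c (a (nat_lit 0x12b12fce71aded0a)) e
 (c (a (nat_lit 0x112b8d4e0c2daaca)) e e)))
 (c (a (nat_lit 0x13f4d76020c045))
 (c (a (nat_lit 0x14949238f5500de8)) e e)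
 (c (a (nat_lit 0x101011cba2c027))
 (c z e
 (c (a (nat_lit 0x149a90c000000008)) e
 (c (a (nat_lit 0x14e0000000000007)) e e)))
 (c (a (nat_lit 0x12d31410c72886))
 (c (a (nat_lit 0x1286c00000000007)) e e)
 (c (a (nat_lit 0x1070b2266c9366)) e
 (c (a (nat_lit 0x56969672f9026)) e
 (c (a (nat_lit 0x789304eef75a6)) e
 (c (a (nat_lit 0x3ea134c46c986)) e
 (c (a (nat_lit 0x13394a82476466)) e
 (c (a (nat_lit 0x1543f34d044006)) e
 (c (a (nat_lit 0xf4edbc0000007)) e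
 (c (a (nat_lit 0x1d400000000005)) e e)))))))))))))))
 (c (a (nat_lit 0x635b5b5aae8))
 (c (a (nat_lit 0xdd0d0b0a6e0c7))
 (c (a (nat_lit 0x16fc5f96d9f33608))
 (c (a (nat_lit 0x6cf9474d38380000a)) e
 (c (a (nat_lit 0xad2b60ae00000000c)) e e))
 (c (a (nat_lit 0x1739f45573f451aa))
 (c (a (nat_lit 0xcd0e5a0000000000d)) e e)
 (c (a (nat_lit 0x1c5717951693f1aa)) e
 (c (a (nat_lit 0x179b17399757538a)) e
 (c (a (nat_lit 0x1b989a95779237aa)) e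
 (c (a (nat_lit 0x1853cfd42c6ba009)) e
 (c (a (nat_lit 0x11b9340620000008)) e e)))))))
 (c (a (nat_lit 0x7d04acac9e127))
 (c (a (nat_lit 0x1c78d7f81856940a)) e
 (c (a (nat_lit 0x1c1b57f896f4510b)) e
 (c (a (nat_lit 0x1aba1af937f5160b)) e e)))
 (c (a (nat_lit 0x2ba91f4f5a226))
 (c (a (nat_lit 0x17b5969492514e8a)) e e)
 (c (a (nat_lit 0x3324a6a882ac8)) e
 (c (a (nat_lit 0x155cc5a6282ae8)) e
 (c (a (nat_lit 0x8e9e585c41208)) e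
 (c (b (nat_lit 0xb51ffe9d0f847)) e
 (c z e
 (c (a (nat_lit 0xeb354d678c6e8)) e
 (c (a (nat_lit 0x105ab6588655c8)) e
 (c (a (nat_lit 0x1a1293a591c588)) e
 (c (a (nat_lit 0x145d912ca00008)) e e))))))))))))
 (c (a (nat_lit 0x109090894868))
 (c (a (nat_lit 0x158a4a8ba1e046))
 (c (a (nat_lit 0x116ef0706f8f6ce9)) e
 (c (a (nat_lit 0x1a967897165175aa)) e
 (c z e
 (c z e
 (c (a (nat_lit 0x1b5f525360000008)) e e)))))
 (c (a (nat_lit 0x132f0bedc0c006)) e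
 (c (a (nat_lit 0xe058724405207)) e
 (c (a (nat_lit 0x16708f8f135948)) e
 (c (a (nat_lit 0xa68252bb33ce8)) e
 (c z e
 (c z e
 (c (a (nat_lit 0xc8d35f6450ea8)) e
 (c (a (nat_lit 0x10111383cd8cc8)) e
 (c (a (nat_lit 0x15768834ea4008)) e
 (c (a (nat_lit 0x1785a680000008)) e e)))))))))))
 (c (a (nat_lit 0x16564f8ecec7))
 (c (a (nat_lit 0x50405a3805126)) e
 (c (a (nat_lit 0x20301a02810e8))
 (c (a (nat_lit 0x1d13d03aacc00009)) e e)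
 (c (a (nat_lit 0xccd8c0e713a28)) e
 (c z e
 (c z e
 (c (a (nat_lit 0xdf1543e49dc28)) e
 (c (a (nat_lit 0x2c870836368c8)) e
 (c (a (nat_lit 0x97cc7a90f4687)) e
 (c (a (nat_lit 0x1ba46bcce00007)) e e)))))))))
 (c (a (nat_lit 0x1c2040202025))
 (c (a (nat_lit 0x2a127b29aa7))
 (c (a (nat_lit 0x19ee2d29a0000007)) e e)
 (c z e
 (c z e
 (c z e
 (c (a (nat_lit 0x69155553a6e08)) e
 (c (a (nat_lit 0x5794561c280e7)) e
 (c (a (nat_lit 0x1546f250a94006)) e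
 (c (a (nat_lit 0x4f02ca0000006)) e e))))))))
 (c (a (nat_lit 0x60806001))
 (c z e
 (c (a (nat_lit 0x8c50b758dbc8)) e
 (c (a (nat_lit 0x284e890ea0989)) e
 (c (a (nat_lit 0x407906bc52049)) e
 (c (a (nat_lit 0x10e6330e212028)) e
 (c (a (nat_lit 0x5926c21c00008)) e e))))))
 (c (a (nat_lit 0x38383220161))
 (c (a (nat_lit 0x214238518c07)) e
 (c (a (nat_lit 0x20d284c520e9)) e
 (c (a (nat_lit 0x1d02f04c10049)) e
 (c (a (nat_lit 0x7f6a982818008)) e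
 (c (a (nat_lit 0x1287c1a0000008)) e e)))))
 (c (a (nat_lit 0x11b150501441))
 (c (a (nat_lit 0xb9c227e08048)) e
 (c (a (nat_lit 0x18ae8781804149)) e
 (c (a (nat_lit 0x156dc121400008)) e
 (c (a (nat_lit 0x1a818000000006)) e e))))
 (c (a (nat_lit 0x12b2b43450a5))
 (c (a (nat_lit 0x16c3c1c0a0e008)) e
 (c (a (nat_lit 0x1b40e0e0000006)) e e))
 (c (a (nat_lit 0x7ce15f71206)) e
 (c (a (nat_lit 0xd9010b02966)) e
 (c (a (nat_lit 0x13b3b3b1f0a7)) e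
 (c (a (nat_lit 0x1c1bfc1c1c26)) e
 (c (a (nat_lit 0x1c1c1c1c3c26)) e
 (c (a (nat_lit 0xe302a001)) e
 (c (a (nat_lit 0x220c144a1)) e
 (c (a (nat_lit 0x6040411964)) e
 (c (a (nat_lit 0x41394003)) e
 (c (a (nat_lit 0x4180000001)) e e)))))))))))))))))))
 (c (nat_lit 1)
 (c (a (nat_lit 0x17d7d7c98948))
 (c (a (nat_lit 0x15f5557580e106))
 (c (a (nat_lit 0xef0accd4b4daaa8))
 (c z e
 (c (a (nat_lit 0xf56ab40000000000b)) e e))
 (c (a (nat_lit 0x120e4eae0f6d2c0a)) e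
 (c (a (nat_lit 0x10506f914f0ccd4a)) e
 (c (a (nat_lit 0x118ed12f4cccb04a)) e
 (c (a (nat_lit 0xdf04bebcb6dac2a)) e
 (c (a (nat_lit 0x1cf5d8352f200008)) e
 (c (a (nat_lit 0x1ae8062000000008)) e e)))))))
 (c (a (nat_lit 0x142e2e6f618007))
 (c (a (nat_lit 0x1a38f99b18968f8a)) e
 (c (a (nat_lit 0x1c99bb58f5f3920b)) e e))
 (c (a (nat_lit 0x122d8e6fa06b27)) e
 (c (a (nat_lit 0xdaa4ba3d41367)) e
 (c (a (nat_lit 0xfa5e54e4d7b88)) e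
 (c (a (nat_lit 0xa068ce831b7a8)) e
 (c (a (nat_lit 0xb8f0c2d0eb268)) e
 (c z e
 (c (a (nat_lit 0x17171abc87d0e8)) e
 (c (a (nat_lit 0x1c5b9e687148c8)) e
 (c (a (nat_lit 0x1373c30c222008)) e
 (c (a (nat_lit 0x1a4ac820000008)) e e))))))))))))
 (c (a (nat_lit 0x1cfcf1ceaea7))
 (c (a (nat_lit 0x2a22384a051a6))
 (c (a (nat_lit 0xf9131f0af6dccaa)) e e)
 (c (a (nat_lit 0x680e260463288)) e
 (c (a (nat_lit 0x1a1e0862a12e9)) e
 (c z e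
 (c z e
 (c z e
 (c z e
 (c (a (nat_lit 0x6ea7142a4a829)) e
 (c (a (nat_lit 0xa780265ea8708)) e
 (c (a (nat_lit 0x1b8609a8200008)) e e))))))))))
 (c (a (nat_lit 0x172040202006))
 (c (a (nat_lit 0x2a27ab319067)) e
 (c z e
 (c z e
 (c z e
 (c z e
 (c z e
 (c (a (nat_lit 0x6dd8be7250ca8)) e
 (c (a (nat_lit 0x1ccded85092007)) e
 (c (a (nat_lit 0x11692980000006)) e e)))))))))
 (c (a (nat_lit 0x5028261a001))
 (c z e
 (c z e
 (c z e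
 (c z e
 (c z e
 (c (a (nat_lit 0x1a00ef07f08a48)) e
 (c (a (nat_lit 0x194cb70200007)) e
 (c (a (nat_lit 0x10612000000006)) e e))))))))
 (c (a (nat_lit 0x3c342a16161))
 (c z e
 (c (a (nat_lit 0x424a7968f6649)) e
 (c (a (nat_lit 0x4481f36ca2489)) e
 (c z e
 (c (a (nat_lit 0x16fce6b2430008)) e
 (c (a (nat_lit 0x144927e0000009)) e e))))))
 (c (a (nat_lit 0xa080407f83))
 (c (a (nat_lit 0x1c11a0f46a208)) e
 (c (a (nat_lit 0x3ef1eb404049)) e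
 (c z e
 (c (a (nat_lit 0x10e7e342c00009)) e
 (c (a (nat_lit 0x1d476000000007)) e e)))))
 (c (a (nat_lit 0x1676597e3685))
 (c (a (nat_lit 0x13aae58224e129)) e
 (c z e
 (c (a (nat_lit 0x16f45280000008)) e
 (c (a (nat_lit 0xa800000000001)) e e))))
 (c (a (nat_lit 0x159a39fa99e7)) e
 (c (a (nat_lit 0x11b4b77770e8)) e
 (c (a (nat_lit 0x139abab3e867)) e
 (c (a (nat_lit 0x1bbb9b793407)) e
 (c (a (nat_lit 0x121232323048)) e
 (c (a (nat_lit 0x1332f3133307)) e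
 (c (a (nat_lit 0x842391a2)) e
 (c (a (nat_lit 0x606419e4)) e
 (c (a (nat_lit 0x16243997944)) e
 (c (a (nat_lit 0x10301e00001)) e
 (c (nat_lit 1) e e))))))))))))))))))
 C54))) Tr.c Tr.e (nat_lit 0) C.cx C.cy
noncomputable def C56 : Tr := beta% (fun (c : Nat → Tr → Tr → Tr) (e : Tr) (z : Nat) (a b : Nat → Nat) =>
 (c (a (nat_lit 0x20202021))
 (c (a (nat_lit 0x12080804001))
 (c (a (nat_lit 0x1362a2a864d4c3))
 (c z e
 (c (a (nat_lit 0x6eb962920000008)) e e))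
 (c (a (nat_lit 0x606604a8f225))
 (c (a (nat_lit 0xe57c92000000008)) e e)
 (c (a (nat_lit 0x5533259250045)) e
 (c (a (nat_lit 0x4020c5f1e447)) e
 (c (a (nat_lit 0x69559ecf8ea6)) e
 (c (a (nat_lit 0x1c412ce680388)) e
 (c (a (nat_lit 0xbae33528f0f46)) e
 (c (a (nat_lit 0x15b0c7c1600005)) e
 (c (a (nat_lit 0x12e62000000006)) e e)))))))))
 (c (a (nat_lit 0xe100a02121))
 (c (a (nat_lit 0x18141c5ba87))
 (c (a (nat_lit 0x1588400000000007)) e e)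
 (c (a (nat_lit 0x2795ce539d07)) e
 (c (a (nat_lit 0x252b16eaa988)) e
 (c (a (nat_lit 0x329936c692468)) e
 (c (a (nat_lit 0x53b970ee782e8)) e
 (c (a (nat_lit 0xa0b3406a16007)) e
 (c (a (nat_lit 0x19af8540000007)) e
 (c (a (nat_lit 0x18200000000006)) e e))))))))
 (c (a (nat_lit 0x1111111112e5))
 (c (a (nat_lit 0x3d34e1e4a5927)) e
 (c z e
 (c z e
 (c z e
 (c (a (nat_lit 0x10934cc2400008)) e e)))))
 (c (b (nat_lit 0x8080b7edfe4))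
 (c (a (nat_lit 0x1a3695ce928ea6)) e
 (c (a (nat_lit 0x1f266e858ccee6)) e e))
 (c (a (nat_lit 0xef009090a26))
 (c (b (nat_lit 0x7696453d0dfe5)) e e)
 (c (a (nat_lit 0x18f2d2d312c6)) e
 (c (a (nat_lit 0x1796f712b2a6)) e
 (c (a (nat_lit 0x2051517624)) e
 (c (a (nat_lit 0xc95f697b766)) e
 (c (a (nat_lit 0xfb010d190a7)) e
 (c (a (nat_lit 0x19bb5d3b1746)) e
 (c (a (nat_lit 0x10408080e3)) e
 (c (a (nat_lit 0x1f006040a0e2)) e
 (c (a (nat_lit 0x60604001)) e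
 (c (a (nat_lit 0x40000001)) e e)))))))))))))))
 (c (a (nat_lit 0x20202001))
 (c (a (nat_lit 0x26282636001))
 (c (a (nat_lit 0x4021404054c6)) e
 (c (a (nat_lit 0x45c7473368)) e
 (c (a (nat_lit 0x6ae1faf6f0d47)) e
 (c (b (nat_lit 0x9173fedc90427)) e
 (c (a (nat_lit 0x11522ac800c027)) e
 (c (a (nat_lit 0x12ce4cc3200006)) e
 (c (a (nat_lit 0x164aa000000006)) e e)))))))
 (c (a (nat_lit 0x101016f84e66))
 (c (a (nat_lit 0xb4ff589973228)) e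
 (c (a (nat_lit 0x111ff83c96ee48)) e
 (c (a (nat_lit 0x1c99bc9369ec68)) e
 (c z e
 (c (a (nat_lit 0x1f35a220000007)) e
 (c (a (nat_lit 0x13e00000000007)) e e))))))
 (c (a (nat_lit 0x1212b0b09087))
 (c (a (nat_lit 0x1226e847c70788)) e
 (c (a (nat_lit 0x3f19165908a6)) e e))
 (c (a (nat_lit 0x1dfdddddd8e5))
 (c (a (nat_lit 0x1eeea731c10004)) e e)
 (c (a (nat_lit 0x1210cd4d6f25)) e
 (c (a (nat_lit 0x20c0c7f163)) e
 (c (a (nat_lit 0x204bce51e5)) e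
 (c (a (nat_lit 0xef8fa1c17e6)) e
 (c (a (nat_lit 0x10f1b2d15107)) e
 (c (a (nat_lit 0x1b5d7b7b10c6)) e
 (c (a (nat_lit 0x1160a0a6a723)) e
 (c (a (nat_lit 0x2c203e361)) e
 (c (a (nat_lit 0xa180c00001)) e
 (c (nat_lit 1) e e))))))))))))))
 (c (a (nat_lit 0x202021))
 (c (a (nat_lit 0x14dbdd1cfce6))
 (c (a (nat_lit 0x13348d6d8b4927)) e
 (c (a (nat_lit 0x10292ac8a648c8)) e
 (c (a (nat_lit 0x1636518cf18cc7)) e e)))
 (c (a (nat_lit 0x12b7f7f7d6a6))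
 (c (a (nat_lit 0x11f470cc0f7606)) e
 (c (a (nat_lit 0x108b6609a78007)) e
 (c (a (nat_lit 0x1e813720000004)) e e)))
 (c (a (nat_lit 0x17f737575746))
 (c (a (nat_lit 0x13c85489600005)) e
 (c (a (nat_lit 0x59ca000000004)) e e))
 (c (a (nat_lit 0xf8fae8eb166)) e
 (c (a (nat_lit 0x1232325d4084)) e
 (c (a (nat_lit 0xc4c72eba3e6)) e
 (c (a (nat_lit 0x1035ef4e4b67)) e
 (c (a (nat_lit 0x1d76f5d1e947)) e
 (c (b (nat_lit 0x1c58786edfe6)) e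
 (c (a (nat_lit 0x22220c113c7)) e
 (c (a (nat_lit 0xae113b3a006)) e
 (c (a (nat_lit 0x1b8020000005)) e e))))))))))))
 (c (a (nat_lit 0x20202021))
 (c (a (nat_lit 0x145313535844)) e
 (c (a (nat_lit 0x1a3abadfdf24)) e
 (c (a (nat_lit 0x14143953b6e4)) e
 (c (a (nat_lit 0xcaf2c6b9d65)) e
 (c (a (nat_lit 0xf6cabd0f585)) e
 (c (a (nat_lit 0xff85658a826)) e
 (c (a (nat_lit 0x1190908da4c7)) e
 (c (a (nat_lit 0x112b8a854486)) e
 (c (a (nat_lit 0x8ed149554e3)) e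
 (c (a (nat_lit 0xb5e9b200002)) e
 (c (a (nat_lit 0x6e000000001)) e e)))))))))))
 (c (a (nat_lit 0x20202021))
 (c (a (nat_lit 0x1818383c9783)) e
 (c (a (nat_lit 0xc4c4c0c1445)) e
 (c (a (nat_lit 0xb6b08b65565)) e
 (c (a (nat_lit 0xcea731777c5)) e
 (c (a (nat_lit 0x1094b930a746)) e
 (c (a (nat_lit 0x14b7f50f6c66)) e
 (c (a (nat_lit 0x133574a08005)) e
 (c (a (nat_lit 0x1bb57526e003)) e
 (c (a (nat_lit 0x240c0000001)) e e)))))))))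
 (c (a (nat_lit 0x20202021))
 (c (a (nat_lit 0xf0c2ed57864)) e
 (c (a (nat_lit 0x9ea16b80025)) e
 (c (a (nat_lit 0x56c92f1c425)) e
 (c (a (nat_lit 0x162605ed8945)) e
 (c (a (nat_lit 0x96908a931a8)) e
 (c (a (nat_lit 0x446644033c7)) e
 (c (a (nat_lit 0x141c0200001)) e
 (c (a (nat_lit 0x1a000000001)) e e))))))))
 (c (a (nat_lit 0x202030e4))
 (c (a (nat_lit 0xa1b5b440044)) e
 (c (a (nat_lit 0x19d431a72ac5)) e
 (c (a (nat_lit 0x150e3df0ea45)) e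
 (c (a (nat_lit 0x40445d62187)) e
 (c (a (nat_lit 0xc033e006)) e
 (c (a (nat_lit 0x16b4c0000002)) e e))))))
 (c (a (nat_lit 0x20319104))
 (c (a (nat_lit 0xe25716dde64)) e
 (c (a (nat_lit 0x1cf340aec85)) e
 (c (a (nat_lit 0x5c710274628)) e
 (c (a (nat_lit 0x219be00006)) e
 (c (a (nat_lit 0x10e000000002)) e e)))))
 (c (a (nat_lit 0xa9ebe39e5))
 (c (a (nat_lit 0x307a2ab35c6)) e
 (c (a (nat_lit 0xa7eedcb8007)) e
 (c (a (nat_lit 0x3c00000006)) e e)))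
 (c (a (nat_lit 0x1b7b7b1526))
 (c (a (nat_lit 0x1769e2e00007)) e e)
 (c (a (nat_lit 0x15b5aa8024)) e
 (c (a (nat_lit 0x1e2b0aeae3)) e
 (c (a (nat_lit 0x100f8ff021)) e
 (c (a (nat_lit 0x13135393e1)) e
 (c (a (nat_lit 0x60c121e1)) e
 (c (a (nat_lit 0xbebec1064)) e
 (c (a (nat_lit 0x17d85b5ac3)) e
 (c (a (nat_lit 0x1014040c1)) e
 (c (a (nat_lit 0x1801e363a1)) e
 (c (a (nat_lit 0x1838784c82)) e
 (c (a (nat_lit 0x178bc00002)) e e)))))))))))))))))))))) Tr.c Tr.e (nat_lit 0) C.cx C.cy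
noncomputable def C57 : Tr := beta% (fun (c : Nat → Tr → Tr → Tr) (e : Tr) (z : Nat) (a b : Nat → Nat) =>
 (c (a (nat_lit 0x202001))
 (c (a (nat_lit 0x2020359585))
 (c (a (nat_lit 0x169696d2ab2004))
 (c (a (nat_lit 0x5090a94bdbf3e25))
 (c z e
 (c (a (nat_lit 0x24263656cf532aae9)) e
 (c (a (nat_lit 0x62668cd3c37b129e9)) e e)))
 (c (a (nat_lit 0x5874b50d1b18ca8))
 (c (a (nat_lit 0x2a3836975b38eed8a)) e
 (c (a (nat_lit 0x5250911573329600b)) e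
 (c (a (nat_lit 0x92d19fc918000000a)) e e)))
 (c (a (nat_lit 0xc0f14d776b17528)) e
 (c (a (nat_lit 0x1074147b9551afe7)) e
 (c (a (nat_lit 0x13545632d1cf6ea8)) e
 (c (a (nat_lit 0x14b65559b57090a8)) e
 (c (a (nat_lit 0xfd5320fcd8e2e48)) e
 (c (a (nat_lit 0x1fce0e8acaec89a8)) e
 (c (a (nat_lit 0x15688485c4a00007)) e e)))))))))
 (c (a (nat_lit 0x12747251f06ca7))
 (c z e
 (c z e
 (c (a (nat_lit 0x1374f973538eeec9)) e
 (c (a (nat_lit 0x1a1e16bcd4959469)) e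
 (c (a (nat_lit 0x1170b4904fccefca)) e
 (c (a (nat_lit 0x1b1895521013b149)) e
 (c (a (nat_lit 0x10ab2a2a6cc56009)) e e)))))))
 (c (a (nat_lit 0x136f4e704c4967))
 (c (a (nat_lit 0xd0ef0cb6d4ccbc9))
 (c (a (nat_lit 0xc375665c00000000a)) e e)
 (c z e
 (c (a (nat_lit 0x108d2e4fae6d2f2a)) e e)))
 (c (a (nat_lit 0x1850729c27efc4))
 (c (a (nat_lit 0x19991634f4117a48)) e
 (c (a (nat_lit 0x11512fae4c104b4a)) e
 (c (a (nat_lit 0x1091ec6c6dcccd6a)) e e)))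
 (c (a (nat_lit 0x17b9a850c02924))
 (c (a (nat_lit 0x19f6d6127974cfc8)) e
 (c (a (nat_lit 0x1cf65097785b92e8)) e e))
 (c (a (nat_lit 0x1b3b5b5f326046))
 (c z e
 (c (a (nat_lit 0x13f27a91c0000008)) e
 (c (a (nat_lit 0x1b93a00000000007)) e e)))
 (c (a (nat_lit 0x1497187bb42005))
 (c (a (nat_lit 0x163c2b0000000006)) e
 (c (a (nat_lit 0x1960000000000006)) e e))
 (c (a (nat_lit 0x133718d8c339a5)) e
 (c (a (nat_lit 0x164e3658d53e5)) e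
 (c (a (nat_lit 0x1cdaefd72d4a5)) e
 (c (a (nat_lit 0x2e48f9209a6e6)) e
 (c (a (nat_lit 0xeb79aaec3c326)) e
 (c (a (nat_lit 0x12cfa7d0e56147)) e
 (c (a (nat_lit 0xc4b0b1a200007)) e
 (c (a (nat_lit 0x1aad4000000006)) e e)))))))))))))))
 (c (a (nat_lit 0x1a1b8989887))
 (c z e
 (c z e
 (c z e
 (c z e
 (c (a (nat_lit 0xb90f28802a5a8))
 (c z e
 (c (a (nat_lit 0x118f8aa000000009)) e
 (c (a (nat_lit 0x1840000000000007)) e e)))
 (c (a (nat_lit 0x1132762c320b66))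
 (c (a (nat_lit 0x1028200000000007)) e e)
 (c (a (nat_lit 0xcb0b0ac95fc85)) e
 (c (a (nat_lit 0xc4f78139697c7)) e
 (c (a (nat_lit 0xc2d9291d1b328)) e
 (c (a (nat_lit 0x7ca508dcca008)) e
 (c z e
 (c z e
 (c (a (nat_lit 0xa4994a0000008)) e
 (c (a (nat_lit 0x1de00000000006)) e e))))))))))))))
 (c (a (nat_lit 0x5da5a5a2da7))
 (c (b (nat_lit 0x210dfffffe166))
 (c (a (nat_lit 0x171370d21371b108)) e
 (c (a (nat_lit 0x11504dd02eae0d8a)) e e))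
 (c (a (nat_lit 0x17d8f777582806)) e
 (c (b (nat_lit 0x1ff6dfffe966e6)) e e)))
 (c (a (nat_lit 0x11f1f1eac987))
 (c (a (nat_lit 0x1323694fa30085))
 (c (a (nat_lit 0xfceeccfeb499608)) e e)
 (c (a (nat_lit 0xae8f00480b666))
 (c (a (nat_lit 0x11552eec91c9e009)) e e)
 (c (a (nat_lit 0x10ab88c6a965e8)) e
 (c z e
 (c z e
 (c (a (nat_lit 0xbab4aeb70cc48)) e
 (c (a (nat_lit 0xbe5e790202207)) e
 (c (a (nat_lit 0x17ac9e089691e6)) e e))))))))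
 (c (a (nat_lit 0x14d5abc92926))
 (c (a (nat_lit 0x427a14024bbc6))
 (c (a (nat_lit 0x13f12a4da6000007)) e e)
 (c z e
 (c z e
 (c z e
 (c (a (nat_lit 0x828ca8ec75648)) e
 (c (a (nat_lit 0x1a7f387670ac7)) e
 (c (a (nat_lit 0x735e6724da607)) e e)))))))
 (c (a (nat_lit 0x1087e7c7c7c6))
 (c z e
 (c (a (nat_lit 0x290632949668)) e
 (c (a (nat_lit 0x46ecd6f5b1568)) e
 (c (a (nat_lit 0x6c82a18342728)) e
 (c (a (nat_lit 0xdd6ac37d16047)) e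
 (c (a (nat_lit 0x58713ca41e008)) e e))))))
 (c (a (nat_lit 0x4a3a3c3e3a1))
 (c (a (nat_lit 0x22c4251fb746)) e
 (c (a (nat_lit 0xa17586e6e8)) e
 (c (a (nat_lit 0x205371c3a028)) e
 (c (a (nat_lit 0x5259acc022027)) e
 (c (a (nat_lit 0x2312562000008)) e e)))))
 (c (a (nat_lit 0x1adafafadb02))
 (c (a (nat_lit 0x817ea5a804e7)) e
 (c (a (nat_lit 0xfcf206c200c8)) e
 (c (a (nat_lit 0x10964ee420c008)) e
 (c (a (nat_lit 0x12ce2600000007)) e e))))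
 (c (a (nat_lit 0xd6d8d6db6c3))
 (c (a (nat_lit 0x102fe380a080a8)) e
 (c (a (nat_lit 0x12462120400008)) e
 (c (a (nat_lit 0x11002000000006)) e e)))
 (c (a (nat_lit 0x868751731c5))
 (c (a (nat_lit 0x1deaa1e0000005)) e
 (c (a (nat_lit 0x10e00000000004)) e e))
 (c (a (nat_lit 0xc1afb7d3b45)) e
 (c z e
 (c (a (nat_lit 0x1e3ffffffe86)) e
 (c (a (nat_lit 0x117151515145)) e
 (c (a (nat_lit 0x80a0a8e1)) e
 (c (a (nat_lit 0x1006920e1)) e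
 (c (a (nat_lit 0xe8045011442)) e
 (c (a (nat_lit 0x4a0f4f482)) e
 (c (a (nat_lit 0x74200200001)) e
 (c (a (nat_lit 0x4000000001)) e e))))))))))))))))))))
 (c (a (nat_lit 0x202001))
 (c (a (nat_lit 0x2b0b0b0a647))
 (c (a (nat_lit 0x8f05010100886))
 (c (a (nat_lit 0x1076368f8f8ef326))
 (c z e
 (c (a (nat_lit 0x9ec792a6000000009)) e e))
 (c (a (nat_lit 0x11342c8d8ecf6ce8))
 (c (a (nat_lit 0x9192780000000000a)) e e)
 (c (a (nat_lit 0x1bd615f7b7f554a8)) e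
 (c (a (nat_lit 0x15d6957777705328)) e
 (c (a (nat_lit 0x1535f953331576e8)) e e)))))
 (c (a (nat_lit 0x1092f0f10de8c7))
 (c (a (nat_lit 0x1f5656b9391698c8)) e e)
 (c (a (nat_lit 0x2b812b516e9e6)) e
 (c (a (nat_lit 0x6f2cfd288dd06)) e
 (c (a (nat_lit 0xf1b0c6a93d227)) e
 (c (a (nat_lit 0x88aa255446f46)) e
 (c (b (nat_lit 0x68952bfe80a46)) e
 (c z e
 (c (a (nat_lit 0xf31f1b2926808)) e
 (c (a (nat_lit 0x10d67717046a07)) e
 (c z e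
 (c z e
 (c (a (nat_lit 0xaf38000000007)) e e)))))))))))))
 (c (a (nat_lit 0x14b4b4ab8a68))
 (c (a (nat_lit 0x1b1292b5444026))
 (c (a (nat_lit 0x10ae30514f8fcec8)) e e)
 (c (a (nat_lit 0x15b45337c02f46)) e
 (c (a (nat_lit 0x8a74a42ecf367)) e
 (c z e
 (c z e
 (c z e
 (c z e
 (c (a (nat_lit 0xf4f8f70c6c7c9)) e
 (c (a (nat_lit 0x15d315c388ccc8)) e e)))))))))
 (c (a (nat_lit 0x1afb8b25e5e5))
 (c (b (nat_lit 0x1febd369739285)) e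
 (c (a (nat_lit 0x2f0518721246)) e
 (c z e
 (c z e
 (c z e
 (c z e
 (c z e
 (c z e
 (c (a (nat_lit 0xa112f8d400007)) e e)))))))))
 (c (a (nat_lit 0x102020202025))
 (c z e
 (c z e
 (c z e
 (c z e
 (c z e
 (c (a (nat_lit 0xdd1ad8f0ecfa8)) e
 (c (a (nat_lit 0x144cc8edab0006)) e
 (c (a (nat_lit 0x18c38880000006)) e e))))))))
 (c (a (nat_lit 0x4a4040403e1))
 (c z e
 (c (a (nat_lit 0x28c48834e7c8)) e
 (c (a (nat_lit 0x9054a1c710c28)) e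
 (c (a (nat_lit 0x36630a444a4c9)) e
 (c (a (nat_lit 0xbd28a094c4608)) e
 (c (a (nat_lit 0x116e68e6600008)) e
 (c (a (nat_lit 0x17288000000007)) e e)))))))
 (c (a (nat_lit 0x406080a141))
 (c (a (nat_lit 0x2120af4670c7)) e
 (c (a (nat_lit 0x20b3ca6bc348)) e
 (c (a (nat_lit 0x9366cb422768)) e
 (c (a (nat_lit 0xd8e52b00b4008)) e
 (c (a (nat_lit 0x16d427c0000007)) e e)))))
 (c (a (nat_lit 0x10121217903))
 (c (a (nat_lit 0xd7cfa7032ca7)) e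
 (c (b (nat_lit 0x17ebe5646c7fe8)) e e))
 (c (a (nat_lit 0x22225510744))
 (c (a (nat_lit 0xbc9c497408006)) e
 (c (a (nat_lit 0x1171ef00000008)) e
 (c (a (nat_lit 0x11c00000000005)) e e)))
 (c (a (nat_lit 0x10f4d4d4d488))
 (c (a (nat_lit 0x14e94000000008)) e e)
 (c (a (nat_lit 0x10d0d2d2a7c7)) e
 (c (a (nat_lit 0xb34747472e6)) e
 (c (a (nat_lit 0x1e3e3e3e3d46)) e
 (c (a (nat_lit 0x1979999736c5)) e
 (c (a (nat_lit 0x7814047b442)) e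
 (c (a (nat_lit 0xe067741762)) e
 (c (a (nat_lit 0x3e6c87083)) e
 (c (a (nat_lit 0x187e9f4001)) e
 (c (a (nat_lit 0x60000001)) e e))))))))))))))))))
 (c (a (nat_lit 0x20202021))
 (c (a (nat_lit 0x11b1cdeaaaa6))
 (c (a (nat_lit 0x52327ca6034e3)) e
 (c (a (nat_lit 0x70144802511a6))
 (c (a (nat_lit 0x13144eb6778a7d48)) e e)
 (c (a (nat_lit 0x45404615b6c6)) e
 (c z e
 (c z e
 (c (a (nat_lit 0x1a514d50359147)) e
 (c z e
 (c (a (nat_lit 0x15f59bd5355227)) e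
 (c (a (nat_lit 0xc938e722b6b87)) e
 (c (a (nat_lit 0x17ae5364200006)) e e))))))))))
 (c (a (nat_lit 0x1f6060404024))
 (c (a (nat_lit 0x28aa04494ee05))
 (c (a (nat_lit 0xc6a2e0f2a330588)) e e)
 (c (b (nat_lit 0x1fffef714c32a5)) e
 (c z e
 (c (a (nat_lit 0xa4750fbd1a7)) e
 (c (a (nat_lit 0xbebb2be3879c7)) e
 (c z e
 (c (a (nat_lit 0x159e9174339a27)) e
 (c (a (nat_lit 0x1c8bf3e70e2006)) e
 (c (a (nat_lit 0x1186560000005)) e e)))))))))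
 (c (a (nat_lit 0x1a5979797901))
 (c (a (nat_lit 0xa36d6def1926)) e
 (c (a (nat_lit 0x254a2e6eb2c8)) e
 (c z e
 (c (a (nat_lit 0x3c9f3158c1547)) e
 (c z e
 (c (b (nat_lit 0xca6fff61b2e66)) e
 (c (a (nat_lit 0x5897713800006)) e
 (c (a (nat_lit 0x9d44000000005)) e e))))))))
 (c (a (nat_lit 0x131333333344))
 (c (a (nat_lit 0x939fcafbbbbe7)) e
 (c (a (nat_lit 0x161ced761d6dc7)) e
 (c (a (nat_lit 0x1630f759d2b5a8)) e
 (c z e
 (c (a (nat_lit 0x732a651658008)) e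
 (c (a (nat_lit 0x17eb0b80000008)) e e))))))
 (c (a (nat_lit 0x8a8a8c8d024))
 (c (a (nat_lit 0xa4273bcaec026)) e
 (c (a (nat_lit 0x65a76d0663147)) e
 (c z e
 (c (a (nat_lit 0x160d098b200008)) e e))))
 (c (a (nat_lit 0xe2e2fd1d065))
 (c (a (nat_lit 0x1fcfaf434be2c6)) e e)
 (c (a (nat_lit 0x183a9a9a7d05)) e
 (c (a (nat_lit 0x16d95939d1a7)) e
 (c (a (nat_lit 0x120c502969a6)) e
 (c (a (nat_lit 0xe76f6f6f686)) e
 (c (a (nat_lit 0x111111112f47)) e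
 (c (a (nat_lit 0x1ad91975ef25)) e
 (c (a (nat_lit 0xd004d21fca2)) e
 (c (a (nat_lit 0xca19c5aa2)) e
 (c (a (nat_lit 0xb60fb191942)) e
 (c (a (nat_lit 0x28220200001)) e
 (c (a (nat_lit 0x20000000001)) e e)))))))))))))))))
 C56)))) Tr.c Tr.e (nat_lit 0) C.cx C.cy
noncomputable def C58 : Tr := beta% (fun (c : Nat → Tr → Tr → Tr) (e : Tr) (z : Nat) (a b : Nat → Nat) =>
 (c (a (nat_lit 0x20202035e4))
 (c (a (nat_lit 0x135373536e8023))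
 (c (a (nat_lit 0x1c2a6a5f45a7a85))
 (c z e
 (c (a (nat_lit 0x2222203c6abf24dc9)) e
 (c (a (nat_lit 0x44464c76ad5334d09)) e
 (c (a (nat_lit 0x18344a46c90a50009)) e e))))
 (c (a (nat_lit 0x4a72931f717b727))
 (c (a (nat_lit 0x40325a6ad5e541029)) e
 (c z e
 (c (a (nat_lit 0x50526108f2a80000a)) e e)))
 (c z e
 (c (a (nat_lit 0x68d8e2db20e4b87)) e
 (c (a (nat_lit 0x15b775faf453f167)) e
 (c (a (nat_lit 0x1c3495f47c94ae67)) e
 (c (a (nat_lit 0x107055f32f6e8da7)) e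
 (c (a (nat_lit 0x87448a887a6a7a8)) e
 (c (a (nat_lit 0x1e8e454323034007)) e
 (c (a (nat_lit 0x15270481a0000006)) e e))))))))))
 (c (a (nat_lit 0xbcbd4712ceba5))
 (c z e
 (c z e
 (c z e
 (c (a (nat_lit 0xead16eb14c72827)) e
 (c (a (nat_lit 0xcad4dd02c6c08a9)) e
 (c (a (nat_lit 0xfb593128f6d90e8)) e
 (c (a (nat_lit 0x1ed00acc6d2de748)) e
 (c z e
 (c (a (nat_lit 0xd514a8000000007)) e e)))))))))
 (c (a (nat_lit 0x12f36fcf912b66)) e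
 (c (a (nat_lit 0x1089c969898746))
 (c (a (nat_lit 0x14b93e3957365107)) e
 (c (a (nat_lit 0xd90f00eed69cda9)) e
 (c (a (nat_lit 0x1253b42fcc0eb029)) e e)))
 (c (a (nat_lit 0x1bb970a9ec4de4))
 (c (a (nat_lit 0x1859b816d295d207)) e e)
 (c (a (nat_lit 0xfaf6f6f982004)) e
 (c (a (nat_lit 0x80a5ca958003)) e
 (c (a (nat_lit 0xdee12f6f4a0a4)) e
 (c (a (nat_lit 0x44f16a3055e3)) e
 (c (a (nat_lit 0x444667d7a704)) e
 (c (a (nat_lit 0x5664a36af6865)) e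
 (c (a (nat_lit 0x164fb9156d6025)) e
 (c (a (nat_lit 0xeb38fc9fb4246)) e
 (c (a (nat_lit 0x1632180f42006)) e
 (c (a (nat_lit 0x153328e0000005)) e
 (c (a (nat_lit 0x14a00000000004)) e e))))))))))))))))
 (c (a (nat_lit 0x14141567664))
 (c (a (nat_lit 0xd5573131241c5))
 (c z e
 (c z e
 (c z e
 (c z e
 (c z e
 (c (a (nat_lit 0x172e7871d2efedc7)) e
 (c (a (nat_lit 0x9a82bb265426007)) e
 (c z e
 (c (a (nat_lit 0x13ad200000000007)) e e)))))))))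
 (c z e
 (c z e
 (c z e
 (c (b (nat_lit 0xe3111d5dfffe5))
 (c z e
 (c z e
 (c (a (nat_lit 0x1188600000000007)) e e)))
 (c (a (nat_lit 0xe7032588b9c44)) e
 (c (a (nat_lit 0x8b1af991383)) e
 (c (a (nat_lit 0x66cca36574244)) e
 (c (a (nat_lit 0xfd091d2906f67)) e
 (c (a (nat_lit 0xff69d5a361465)) e
 (c (a (nat_lit 0xed4f54cc10105)) e
 (c z e
 (c (a (nat_lit 0x5c665b7200006)) e
 (c (a (nat_lit 0x164a4000000005)) e e))))))))))))))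
 (c (a (nat_lit 0x2223afafac5))
 (c (a (nat_lit 0xf8b50ececef65))
 (c z e
 (c (a (nat_lit 0x10710f8c708eecc8)) e
 (c z e
 (c (a (nat_lit 0x1790bc70b33f1367)) e e))))
 (c (a (nat_lit 0xed2cfad323525))
 (c (a (nat_lit 0x12108e6d2d6c6f68)) e
 (c z e
 (c z e
 (c (a (nat_lit 0x1afedb1ef6a00007)) e
 (c (a (nat_lit 0x14742b6000000007)) e e)))))
 (c (a (nat_lit 0x1ab074b8beaec4))
 (c z e
 (c z e
 (c z e
 (c (a (nat_lit 0x1ed0400000000006)) e e))))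
 (c (a (nat_lit 0x1213d5cd65c486))
 (c (a (nat_lit 0xad33eb7ca200007)) e
 (c (a (nat_lit 0xbb1c7e000000008)) e
 (c (a (nat_lit 0x12e0000000000007)) e e)))
 (c (a (nat_lit 0x1111752a89b0c5)) e
 (c (a (nat_lit 0xd72cf66f2b164)) e
 (c (a (nat_lit 0x1434d51314f6c5)) e
 (c z e
 (c (b (nat_lit 0x7a8106d4dbfe6)) e
 (c (b (nat_lit 0x86e8d681ff006)) e
 (c (a (nat_lit 0x868b0e1836007)) e
 (c (a (nat_lit 0x9ec3740000005)) e
 (c (a (nat_lit 0x16c00000000004)) e e)))))))))))))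
 (c (a (nat_lit 0x89898989065))
 (c (a (nat_lit 0x10340cb1986fe4))
 (c (a (nat_lit 0x15f32f8cee4f7346)) e
 (c (a (nat_lit 0x104d496aaa8e4fa8)) e
 (c (a (nat_lit 0x14ce1133ef632008)) e e)))
 (c (a (nat_lit 0x133172794baba5))
 (c (a (nat_lit 0x1cb394d3d79cb127)) e
 (c z e
 (c (a (nat_lit 0x106dede000000007)) e e)))
 (c (a (nat_lit 0xd7db1ed2a09c6))
 (c (a (nat_lit 0x84ef1a3a0000008)) e
 (c (a (nat_lit 0x1850400000000008)) e e))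
 (c (a (nat_lit 0x1378640c32cc65)) e
 (c (a (nat_lit 0x120ee34765c945)) e
 (c (a (nat_lit 0x13b2926eec10e5)) e
 (c (a (nat_lit 0xcb12706882925)) e
 (c (a (nat_lit 0x908a505295086)) e
 (c (a (nat_lit 0xb0b27d0128786)) e
 (c (a (nat_lit 0xd3dd528000006)) e
 (c (a (nat_lit 0x151bc000000006)) e e)))))))))))
 (c (a (nat_lit 0x11f1f1cb6a06))
 (c (a (nat_lit 0xd2d10abc82ea5)) e
 (c z e
 (c (a (nat_lit 0x13ce2e716f0fa6)) e
 (c (a (nat_lit 0x16ef5774151a65)) e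
 (c (a (nat_lit 0x525a5654493e7)) e
 (c (a (nat_lit 0x1691f30ff87ae5)) e
 (c (a (nat_lit 0xb0c0a5017b106)) e
 (c (a (nat_lit 0xcecb559ec2006)) e
 (c (a (nat_lit 0x110d8600000007)) e e)))))))))
 (c (a (nat_lit 0x10f48aa56564))
 (c (a (nat_lit 0x3e6a6a64638a6))
 (c (a (nat_lit 0x16c8a00000000006)) e e)
 (c (a (nat_lit 0x8a28bb51546)) e
 (c (a (nat_lit 0x36a45aa4a3487)) e
 (c (a (nat_lit 0x5a9c72651eb87)) e
 (c (a (nat_lit 0x842419c3a025)) e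
 (c (a (nat_lit 0x4ea703507c026)) e
 (c (a (nat_lit 0x14355c4a600006)) e
 (c (a (nat_lit 0x1d2f0000000006)) e e))))))))
 (c (a (nat_lit 0x1002c2c2c2c3))
 (c (a (nat_lit 0x2546c888bc04)) e
 (c (a (nat_lit 0xe0a101b388c6)) e
 (c (a (nat_lit 0x40a05351c026)) e
 (c (a (nat_lit 0x344359a264084)) e
 (c (a (nat_lit 0x200f4e101c006)) e
 (c (a (nat_lit 0x8948700000005)) e
 (c (a (nat_lit 0x1ea00000000003)) e e)))))))
 (c (a (nat_lit 0x1332f2f31321))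
 (c (a (nat_lit 0x40217d2a26e5)) e
 (c (a (nat_lit 0x181bd3403c206)) e
 (c (a (nat_lit 0xd1b66fc18086)) e
 (c (a (nat_lit 0x1d8e8682400006)) e
 (c (a (nat_lit 0x14cb2000000005)) e e)))))
 (c (a (nat_lit 0x1c5c5c7c9ca2))
 (c (a (nat_lit 0x190f20401e386)) e
 (c (a (nat_lit 0x1530c8a6a28006)) e
 (c (a (nat_lit 0x1621a0a0000006)) e e)))
 (c (a (nat_lit 0xd6d8dadfec2))
 (c (a (nat_lit 0x12ff061200004)) e
 (c (a (nat_lit 0x1d8f6000000004)) e e))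
 (c (a (nat_lit 0x4242db1eee4)) e
 (c (a (nat_lit 0x109e5e7e39e4)) e
 (c (a (nat_lit 0xef111110fe6)) e
 (c (a (nat_lit 0x1a7535555583)) e
 (c (a (nat_lit 0xa0e0e24001)) e
 (c (a (nat_lit 0x80a1e06721)) e
 (c (a (nat_lit 0x586e0491ce1)) e
 (c (a (nat_lit 0x3e0493d1d41)) e
 (c (a (nat_lit 0xd71dbee0002)) e
 (c (a (nat_lit 0x11ade0000002)) e e))))))))))))))))))))) Tr.c Tr.e (nat_lit 0) C.cx C.cy
noncomputable def C59 : Tr := beta% (fun (c : Nat → Tr → Tr → Tr) (e : Tr) (z : Nat) (a b : Nat → Nat) =>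
 (c z
 (c (a (nat_lit 0x2021))
 (c (a (nat_lit 0x202021))
 (c (a (nat_lit 0x202001))
 (c (a (nat_lit 0x3a3c3c3c3a1))
 (c z e
 (c (a (nat_lit 0x13b3d3d3d411e1))
 (c z e
 (c (a (nat_lit 0x1e3c548ba7d1d85))
 (c (a (nat_lit 0x38423e6076bb72ae8)) e e)
 (c (a (nat_lit 0x92aea2e75157566))
 (c (a (nat_lit 0x58606488a159604e8)) e e)
 (c (a (nat_lit 0x969900e8e101186)) e
 (c z e
 (c (a (nat_lit 0xa90274728710946)) e
 (c z e
 (c (a (nat_lit 0x948b9ce0a8aa7e6)) e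
 (c (a (nat_lit 0x4f6af46044423a6)) e
 (c (a (nat_lit 0x815494901e00005)) e e))))))))))
 (c (a (nat_lit 0x10b0d0d0f4aa42))
 (c z e
 (c z e
 (c z e
 (c z e
 (c z e
 (c z e
 (c (a (nat_lit 0x6b60cc90a2e68e6)) e
 (c (a (nat_lit 0x188d8987cf256006)) e e))))))))
 (c (a (nat_lit 0x17373a763076a2))
 (c z e
 (c (a (nat_lit 0x1155d4d85b7c58a6)) e
 (c (a (nat_lit 0x155355da381b38e6)) e
 (c (a (nat_lit 0x1856587efb1c3146)) e e))))
 (c (a (nat_lit 0x1737f171719044))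
 (c z e
 (c (a (nat_lit 0xaab3391f0ede9c7)) e
 (c (a (nat_lit 0xd55d654d129cce7)) e e)))
 (c (a (nat_lit 0x1614d4b4b333a5))
 (c z e
 (c (a (nat_lit 0xfd0500c07a8aac7)) e e))
 (c z e
 (c z e
 (c z e
 (c z e
 (c z e
 (c z e
 (c z e
 (c (a (nat_lit 0xfb2135230fc25)) e
 (c (a (nat_lit 0xa3442341d564)) e e)))))))))))))))
 C58)
 C57)
 (c (nat_lit 1) C55
 C53))
 (c (a (nat_lit 0x2021))
 (c (nat_lit 1) C49
 (c (a (nat_lit 0x202021)) C47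
 C46))
 (c (a (nat_lit 0x2021))
 (c (nat_lit 1) C44
 C43)
 (c (a (nat_lit 0x2021)) C41
 (c (a (nat_lit 0x2021))
 (c (a (nat_lit 0x202021))
 (c (a (nat_lit 0xb2b2b01))
 (c (a (nat_lit 0xb558ccaaaa4))
 (c z e
 (c (a (nat_lit 0x3a6ada0a271a6)) e
 (c (a (nat_lit 0x11af75c9ae4bc7)) e
 (c (a (nat_lit 0x3abea6a00005)) e
 (c (a (nat_lit 0xd52000000004)) e e)))))
 (c (a (nat_lit 0x1c99f2f2e385))
 (c (a (nat_lit 0x1cc81402e38e7)) e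
 (c (a (nat_lit 0xd55460869a008)) e
 (c (a (nat_lit 0xbd08160000007)) e e)))
 (c (a (nat_lit 0x297ae8e6e67))
 (c (a (nat_lit 0x16058d02a00007)) e e)
 (c (a (nat_lit 0x187e28480ae5)) e
 (c (a (nat_lit 0xcf28403e3e5)) e
 (c (a (nat_lit 0x105b0cec42e4)) e
 (c (a (nat_lit 0x15be40705904)) e
 (c (a (nat_lit 0xfb1f3d86fc5)) e
 (c (a (nat_lit 0x358af482fa6)) e
 (c (a (nat_lit 0xbdf4aed4005)) e
 (c (a (nat_lit 0x15c5a0000005)) e e)))))))))))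
 (c (a (nat_lit 0x1818180025))
 (c (a (nat_lit 0x104f0f0f08c6))
 (c (a (nat_lit 0x160741385ec706)) e
 (c (a (nat_lit 0x10e02064000008)) e
 (c (a (nat_lit 0x1200a000000007)) e e)))
 (c (a (nat_lit 0x14d4f4f4b0e7))
 (c (a (nat_lit 0xb02520000004)) e e)
 (c (a (nat_lit 0x1852935abac6)) e
 (c (a (nat_lit 0x1f0687c998a5)) e
 (c (a (nat_lit 0x90682a05b66)) e
 (c (a (nat_lit 0xe6c14792fc7)) e
 (c (a (nat_lit 0x88f6fabb6a6)) e
 (c (a (nat_lit 0x611e89106a7)) e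
 (c (a (nat_lit 0x148ae9000007)) e e)))))))))
 (c (a (nat_lit 0x8b3604024))
 (c (b (nat_lit 0x1ff18faf6ec5))
 (c (a (nat_lit 0x1aa08000000006)) e e)
 (c (b (nat_lit 0x1fe62767bc47)) e
 (c (b (nat_lit 0x1fe02030b008)) e
 (c (a (nat_lit 0xa4afcbaa668)) e
 (c (b (nat_lit 0x552f5fe028)) e
 (c (b (nat_lit 0x197fffffe887)) e
 (c (a (nat_lit 0x12e7cbe94007)) e
 (c (b (nat_lit 0x1ff5c0000005)) e e))))))))
 (c (a (nat_lit 0x1940404003))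
 (c (a (nat_lit 0x64e4eedce6)) e
 (c (a (nat_lit 0x7276cb3ce68)) e
 (c (b (nat_lit 0xbf29e5fffe7)) e
 (c z e
 (c (b (nat_lit 0x15ffeb278367)) e
 (c (a (nat_lit 0x1b7c91e00006)) e e))))))
 (c (a (nat_lit 0xc0c0c001))
 (c (b (nat_lit 0x5ea946a9fe7)) e
 (c (b (nat_lit 0x28c15dfffe8)) e
 (c (b (nat_lit 0x1dbfe4220026)) e
 (c (b (nat_lit 0x11dfe300e008)) e
 (c (a (nat_lit 0x1600000005)) e e)))))
 (c (a (nat_lit 0x60c04001))
 (c (b (nat_lit 0x2f43fe50028)) e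
 (c (a (nat_lit 0x147488e6e007)) e
 (c (a (nat_lit 0x13d043400007)) e
 (c (a (nat_lit 0x12e000000006)) e e))))
 (c (a (nat_lit 0x60202041))
 (c (a (nat_lit 0x914862a007)) e
 (c (a (nat_lit 0x1aa6a0000007)) e e))
 (c (a (nat_lit 0x402ad444))
 (c (a (nat_lit 0x174000000004)) e e)
 (c (a (nat_lit 0x323716c5)) e
 (c (a (nat_lit 0x19b9d944)) e
 (c (a (nat_lit 0x221c0c001)) e
 (c (a (nat_lit 0x1817d78b44)) e
 (c (a (nat_lit 0x7316a8685)) e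
 (c (a (nat_lit 0x11c0802024)) e
 (c (a (nat_lit 0x20808001)) e
 (c (a (nat_lit 0xa0a00021)) e
 (c (a (nat_lit 0x481800001)) e e)))))))))))))))))
 C39)
 (c (a (nat_lit 0x2021)) C38
 C37))))))
 (c z
 (c (a (nat_lit 0x2021))
 (c (a (nat_lit 0x202021)) C35
 (c (a (nat_lit 0x202021)) C33
 C32))
 C30)
 (c z
 (c (nat_lit 1)
 (c (a (nat_lit 0x202021)) C21
 C20)
 (c (a (nat_lit 0x2021)) C18
 C16))
 (c z
 (c (nat_lit 1) C12
 (c (a (nat_lit 0x2021)) C10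
 C9))
 (c z
 (c z C7
 C6)
 (c z C4
 (c z
 (c (a (nat_lit 0x2021))
 (c (nat_lit 1)
 (c (a (nat_lit 0x202034a2))
 (c (a (nat_lit 0xc3090a8c1c4)) e
 (c (a (nat_lit 0x1a5a11034005)) e
 (c (a (nat_lit 0x1c8a40000005)) e e)))
 (c (a (nat_lit 0x16023f3e5))
 (c (a (nat_lit 0x1a9727a00006)) e
 (c (a (nat_lit 0x182000000006)) e e))
 (c (a (nat_lit 0x1ac949486)) e
 (c (a (nat_lit 0x11f9597966)) e
 (c (a (nat_lit 0xd302f4c07)) e
 (c (a (nat_lit 0x155292d5e6)) e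
 (c (a (nat_lit 0xf26c53027)) e
 (c (a (nat_lit 0x3226031a7)) e
 (c (a (nat_lit 0x2a020d766)) e
 (c (a (nat_lit 0x152aa00006)) e e))))))))))
 (c z
 (c (a (nat_lit 0x82fd7ffe6))
 (c (a (nat_lit 0x178640000006)) e e)
 (c (a (nat_lit 0x7cdafb1a8)) e
 (c (a (nat_lit 0xe909090a8)) e
 (c (a (nat_lit 0x13f36e9068)) e
 (c (a (nat_lit 0xe8e8db188)) e
 (c (a (nat_lit 0x9a8359948)) e
 (c (a (nat_lit 0x3412bb3a9)) e
 (c (a (nat_lit 0x703914008)) e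
 (c (a (nat_lit 0x1860000006)) e e)))))))))
 (c z
 (c (a (nat_lit 0xc0e121207)) e
 (c (a (nat_lit 0xc70727268)) e
 (c (a (nat_lit 0x1633351208)) e
 (c (a (nat_lit 0xe4f515128)) e
 (c (a (nat_lit 0x74bac9289)) e
 (c (a (nat_lit 0x20c9389c9)) e
 (c (a (nat_lit 0x172000008)) e e)))))))
 (c z
 (c (a (nat_lit 0xeb2b2b2a7)) e
 (c (a (nat_lit 0x1395757268)) e
 (c (a (nat_lit 0xfb1919d88)) e
 (c (a (nat_lit 0xbccb2d2c9)) e
 (c (a (nat_lit 0xcb3a9e009)) e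
 (c (a (nat_lit 0x1220000008)) e e))))))
 (c (a (nat_lit 0x20ae61))
 (c (a (nat_lit 0x17b7b7bda7)) e
 (c (a (nat_lit 0xa2a302ea9)) e
 (c (a (nat_lit 0xe343428c9)) e
 (c (a (nat_lit 0x150a800009)) e e))))
 (c (a (nat_lit 0x5204001))
 (c (a (nat_lit 0x121c5c5a67)) e
 (c (a (nat_lit 0x1272288009)) e
 (c (a (nat_lit 0x1320000008)) e e)))
 (c (a (nat_lit 0xa04001))
 (c (a (nat_lit 0x1686e00008)) e e)
 (c (a (nat_lit 0xa04001)) e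
 (c (a (nat_lit 0xa04001)) e
 (c (a (nat_lit 0x600041)) e
 (c (a (nat_lit 0x20c1)) e
 (c (a (nat_lit 0x101)) e
 (c (a (nat_lit 0x2261)) e
 (c (a (nat_lit 0xe0c1)) e
 (c (nat_lit 1) e
 (c (a (nat_lit 0x200021)) e
 (c (a (nat_lit 0x402001)) e e)))))))))))))))))
 C2)
 C1)))))))) Tr.c Tr.e (nat_lit 0) C.cx C.cy
noncomputable def C60 : Tr := beta% (fun (c : Nat → Tr → Tr → Tr) (e : Tr) (z : Nat) (a b : Nat → Nat) =>
 (c (a (nat_lit 0x2021))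
 (c (nat_lit 1)
 (c (a (nat_lit 0x100a04001)) e
 (c (a (nat_lit 0x140e06381)) e
 (c (a (nat_lit 0x2020d846)) e
 (c (a (nat_lit 0x2029f407)) e
 (c (a (nat_lit 0xe1210b2c8)) e
 (c (a (nat_lit 0x14332dc088)) e
 (c (a (nat_lit 0x1ebea88005)) e
 (c (a (nat_lit 0x1fc0000003)) e e))))))))
 (c (a (nat_lit 0x202021))
 (c (a (nat_lit 0x20203125)) e
 (c (a (nat_lit 0x2530f928)) e
 (c (a (nat_lit 0xec136ca9)) e
 (c z e
 (c (a (nat_lit 0x1994c63308)) e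
 (c (a (nat_lit 0x17af600006)) e e))))))
 (c (a (nat_lit 0xe1a001))
 (c (a (nat_lit 0xe29d0c8)) e
 (c (a (nat_lit 0xe70b19009)) e
 (c z e
 (c (a (nat_lit 0x14b2fa8008)) e
 (c (a (nat_lit 0x1ac0000005)) e e)))))
 (c (b (nat_lit 0xa169fe2))
 (c (a (nat_lit 0x84a6c31e9)) e
 (c (a (nat_lit 0x92bb2c94a)) e e))
 (c (b (nat_lit 0x1ffffe1))
 (c (a (nat_lit 0xb93c68009)) e e)
 (c z e
 (c (a (nat_lit 0x20a021)) e
 (c (a (nat_lit 0xa00001)) e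
 (c (a (nat_lit 0x604001)) e
 (c (a (nat_lit 0x604001)) e
 (c (a (nat_lit 0x402001)) e
 (c (a (nat_lit 0x4001)) e
 (c (a (nat_lit 0x2001)) e
 (c (a (nat_lit 0x804001)) e
 (c (a (nat_lit 0xa02001)) e
 (c (a (nat_lit 0x604001)) e e))))))))))))))))
 (c (a (nat_lit 0x2021))
 (c (a (nat_lit 0x606001))
 (c (a (nat_lit 0x222629165)) e
 (c (a (nat_lit 0x16d123408)) e
 (c (a (nat_lit 0xbf954d6a8)) e
 (c (a (nat_lit 0x141874bb68)) e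
 (c (a (nat_lit 0x1e12988007)) e
 (c (a (nat_lit 0x1a60000003)) e e))))))
 (c z
 (c (a (nat_lit 0x9369a7a68)) e
 (c (a (nat_lit 0xb4d8e72ca)) e
 (c (a (nat_lit 0xaec12c88a)) e
 (c (a (nat_lit 0x116f600009)) e e))))
 (c z
 (c (a (nat_lit 0xf10f6f4a9)) e
 (c (a (nat_lit 0xf564c200a)) e e))
 (c (b (nat_lit 0x1fe12001))
 (c (a (nat_lit 0x1628200009)) e e)
 (c (b (nat_lit 0x1fe02001)) e
 (c (a (nat_lit 0x200041)) e
 (c (a (nat_lit 0x2041)) e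
 (c (a (nat_lit 0x61)) e
 (c (a (nat_lit 0x204001)) e
 (c (a (nat_lit 0x202001)) e
 (c (a (nat_lit 0x4001)) e
 (c (a (nat_lit 0x602021)) e
 (c (a (nat_lit 0x4001)) e
 (c (a (nat_lit 0x2021)) e
 (c (a (nat_lit 0x200001)) e e)))))))))))))))
 (c (a (nat_lit 0x2021))
 (c z
 (c (a (nat_lit 0xf33131927)) e
 (c (a (nat_lit 0xdeef4f0a9)) e
 (c (a (nat_lit 0xb7188a009)) e
 (c (a (nat_lit 0x1f40000007)) e e))))
 (c (a (nat_lit 0x5563))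
 (c (a (nat_lit 0xf35352549)) e
 (c (a (nat_lit 0x13c9e0000a)) e e))
 (c (a (nat_lit 0x2021))
 (c (a (nat_lit 0x18c0000007)) e e)
 (c (a (nat_lit 0x2001)) e
 (c (a (nat_lit 0x204001)) e
 (c (a (nat_lit 0x400021)) e
 (c (a (nat_lit 0x608001)) e
 (c (a (nat_lit 0x1e00001)) e
 (c (a (nat_lit 0x800001)) e
 (c (a (nat_lit 0x2802001)) e
 (c (a (nat_lit 0x1204001)) e
 (c (a (nat_lit 0xc02001)) e
 (c (a (nat_lit 0x1004001)) e e)))))))))))))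
 (c (a (nat_lit 0x2021))
 (c (a (nat_lit 0xe161))
 (c (a (nat_lit 0x1c1c072007)) e
 (c (a (nat_lit 0x16e0000008)) e e))
 (c (a (nat_lit 0x2041)) e
 (c (a (nat_lit 0x4001)) e
 (c (a (nat_lit 0x202001)) e
 (c (a (nat_lit 0x200001)) e
 (c (a (nat_lit 0xa00001)) e
 (c (a (nat_lit 0x2001)) e
 (c (a (nat_lit 0xc00001)) e
 (c (a (nat_lit 0x1202001)) e
 (c (a (nat_lit 0x1202001)) e
 (c (a (nat_lit 0x1c04021)) e
 (c (a (nat_lit 0xc00001)) e e))))))))))))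
 (c (a (nat_lit 0x2021))
 (c (a (nat_lit 0x202001)) e
 (c (a (nat_lit 0x602001)) e
 (c (a (nat_lit 0x802021)) e
 (c (a (nat_lit 0x2001)) e
 (c (a (nat_lit 0x202021)) e
 (c (a (nat_lit 0x80a0a1)) e
 (c (a (nat_lit 0x2041)) e
 (c (a (nat_lit 0x21)) e
 (c (a (nat_lit 0x2081)) e
 (c (a (nat_lit 0x2001)) e e))))))))))
 (c (a (nat_lit 0x2021))
 (c (a (nat_lit 0x600041)) e
 (c (a (nat_lit 0x204041)) e
 (c (nat_lit 1) e
 (c (a (nat_lit 0xe0a001)) e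
 (c (a (nat_lit 0x100e001)) e
 (c (a (nat_lit 0xa02001)) e
 (c (a (nat_lit 0x4021)) e
 (c (a (nat_lit 0x21)) e
 (c (a (nat_lit 0x200001)) e e)))))))))
 (c (a (nat_lit 0x2021))
 (c (a (nat_lit 0x202021)) e
 (c (a (nat_lit 0x202021)) e
 (c (a (nat_lit 0x202021)) e
 (c (a (nat_lit 0x202021)) e
 (c (a (nat_lit 0x202021)) e
 (c (a (nat_lit 0x202021)) e
 (c (a (nat_lit 0x202001)) e e)))))))
 (c (a (nat_lit 0x2021))
 (c (a (nat_lit 0x202021)) e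
 (c (a (nat_lit 0x202021)) e
 (c (a (nat_lit 0x202021)) e
 (c (a (nat_lit 0x202021)) e
 (c (a (nat_lit 0x202021)) e
 (c (a (nat_lit 0x200001)) e e))))))
 (c (a (nat_lit 0x2021))
 (c (a (nat_lit 0x202021)) e
 (c (a (nat_lit 0x202021)) e
 (c (a (nat_lit 0x202021)) e
 (c (a (nat_lit 0x202001)) e e))))
 (c (a (nat_lit 0x2021))
 (c (a (nat_lit 0x202021)) e
 (c (a (nat_lit 0x202021)) e
 (c (a (nat_lit 0x200001)) e e)))
 (c (a (nat_lit 0x2021))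
 (c (a (nat_lit 0x202001)) e e)
 (c (a (nat_lit 0x2021)) e
 (c (a (nat_lit 0x2021)) e
 (c (a (nat_lit 0x2021)) e
 (c (a (nat_lit 0x2021)) e
 (c (a (nat_lit 0x2021)) e
 (c (a (nat_lit 0x2021)) e
 (c (a (nat_lit 0x2021)) e
 (c (a (nat_lit 0x2021)) e
 (c (a (nat_lit 0x2021)) e
 (c z e
 (c (a (nat_lit 0x6001)) e
 (c (a (nat_lit 0x2041)) e e)))))))))))))))))))))))) Tr.c Tr.e (nat_lit 0) C.cx C.cy
noncomputable def C61 : Tr := beta% (fun (c : Nat → Tr → Tr → Tr) (e : Tr) (z : Nat) (a b : Nat → Nat) =>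
 (c (a (nat_lit 0x2021))
 (c (a (nat_lit 0x202021))
 (c (a (nat_lit 0x20402001))
 (c (a (nat_lit 0xa89a35a82a4)) e
 (c (a (nat_lit 0x3603984c025)) e
 (c (a (nat_lit 0x337da64c046)) e
 (c (b (nat_lit 0xdb5bfffe147)) e
 (c (a (nat_lit 0x572c502e066)) e
 (c (a (nat_lit 0x17e103c00004)) e
 (c (a (nat_lit 0x1e0000000001)) e e)))))))
 (c (a (nat_lit 0x40203f63))
 (c (a (nat_lit 0xc993c7067e6)) e
 (c (a (nat_lit 0x10b168020208)) e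
 (c (a (nat_lit 0x11e1e0812089)) e
 (c (a (nat_lit 0x1ccb22012007)) e
 (c (a (nat_lit 0x160840000005)) e e)))))
 (c (a (nat_lit 0x203f5f43))
 (c (a (nat_lit 0x12e062622207)) e
 (c (a (nat_lit 0x181149082425)) e
 (c (a (nat_lit 0x1ba3e2200006)) e
 (c (a (nat_lit 0x108000000004)) e e))))
 (c (a (nat_lit 0x21006081))
 (c (a (nat_lit 0xd9020602004)) e
 (c (a (nat_lit 0x187020000003)) e e))
 (c (a (nat_lit 0xc08001))
 (c (a (nat_lit 0x104000000001)) e e)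
 (c (a (nat_lit 0xc2434301)) e
 (c (a (nat_lit 0x20a18001)) e
 (c (a (nat_lit 0x80e121)) e
 (c (a (nat_lit 0x205304)) e
 (c (a (nat_lit 0x82fc7d2e6)) e
 (c (a (nat_lit 0x80a06041)) e
 (c (a (nat_lit 0x2e0c0a001)) e
 (c (a (nat_lit 0x13c1006003)) e
 (c (a (nat_lit 0x1a0000001)) e e))))))))))))))
 (c (a (nat_lit 0x404041))
 (c (a (nat_lit 0x207fdfe3))
 (c (a (nat_lit 0x109dadc54546)) e
 (c (a (nat_lit 0x168801212128)) e
 (c (a (nat_lit 0x186384842206)) e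
 (c (a (nat_lit 0x1241e2200006)) e
 (c (a (nat_lit 0x12a000000002)) e e)))))
 (c (a (nat_lit 0x201e0c1))
 (c (a (nat_lit 0x160940404026)) e
 (c (a (nat_lit 0xe7020e06005)) e
 (c (a (nat_lit 0x101020000004)) e e)))
 (c (a (nat_lit 0x40e12061))
 (c (a (nat_lit 0x40362400001)) e
 (c (a (nat_lit 0x2a000000001)) e e))
 (c (a (nat_lit 0x81e161)) e
 (c (a (nat_lit 0xe18141)) e
 (c (a (nat_lit 0x522012101)) e
 (c (a (nat_lit 0x289087)) e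
 (c (a (nat_lit 0x6b7dbdb08)) e
 (c (a (nat_lit 0xa9e2c1226)) e
 (c (a (nat_lit 0x3dddc003)) e
 (c (a (nat_lit 0xa0c68821)) e
 (c (a (nat_lit 0x400001)) e e))))))))))))
 (c (a (nat_lit 0x202021))
 (c (a (nat_lit 0xc0810001))
 (c (a (nat_lit 0x15a161818042)) e
 (c (a (nat_lit 0x1b8c1600003)) e
 (c (a (nat_lit 0x34000000001)) e e)))
 (c (a (nat_lit 0x161430201))
 (c (a (nat_lit 0x194100000003)) e e)
 (c (a (nat_lit 0x1816101)) e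
 (c (a (nat_lit 0xe22001)) e
 (c (a (nat_lit 0x20203fe5)) e
 (c (a (nat_lit 0x3179d9c8)) e
 (c (a (nat_lit 0xd0f3390e9)) e
 (c (a (nat_lit 0x14966c8ae7)) e
 (c (a (nat_lit 0x7a80a024)) e
 (c (a (nat_lit 0x166048001)) e
 (c (a (nat_lit 0x20000001)) e e)))))))))))
 (c (nat_lit 1)
 (c (a (nat_lit 0x100810001))
 (c (a (nat_lit 0x14000000001)) e e)
 (c (a (nat_lit 0xc0e08001)) e
 (c (a (nat_lit 0x2020d4c6)) e
 (c (a (nat_lit 0x2d917668)) e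
 (c (a (nat_lit 0x13b7b7b848)) e
 (c (a (nat_lit 0x16f6f795e9)) e
 (c (a (nat_lit 0x12b6840027)) e
 (c (a (nat_lit 0x245e101)) e
 (c (a (nat_lit 0x1a3000001)) e e)))))))))
 (c (a (nat_lit 0x402021))
 (c (a (nat_lit 0x20203025)) e
 (c (a (nat_lit 0x146eaf208)) e
 (c (a (nat_lit 0x14381e5a88)) e
 (c (a (nat_lit 0x10f37309c9)) e
 (c (a (nat_lit 0x1eff1a26c8)) e
 (c (a (nat_lit 0x178ba7e026)) e
 (c (a (nat_lit 0x200c001)) e
 (c (a (nat_lit 0x20000001)) e e))))))))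
 (c (a (nat_lit 0x202021))
 (c (a (nat_lit 0xe323271c7)) e
 (c (a (nat_lit 0x18385a21c8)) e
 (c (a (nat_lit 0x19ba4e41a8)) e
 (c (a (nat_lit 0x1c3c24e6a7)) e
 (c (a (nat_lit 0xef2e02026)) e
 (c (a (nat_lit 0xa0800001)) e e))))))
 (c (a (nat_lit 0x202021))
 (c (a (nat_lit 0xed1402007)) e
 (c (a (nat_lit 0x1562202348)) e
 (c (a (nat_lit 0x1ac0202987)) e
 (c (a (nat_lit 0x3ee02004)) e
 (c (a (nat_lit 0x20000001)) e e)))))
 (c (a (nat_lit 0x204021))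
 (c (a (nat_lit 0x1202035c7)) e
 (c (a (nat_lit 0x2022f028)) e
 (c (a (nat_lit 0x32000007)) e e)))
 (c (a (nat_lit 0x202021))
 (c (a (nat_lit 0x23fc4006)) e
 (c (a (nat_lit 0x40000001)) e e))
 (c (a (nat_lit 0x8021)) e
 (c (a (nat_lit 0x206081)) e
 (c (a (nat_lit 0x20c001)) e
 (c (a (nat_lit 0xc0e041)) e
 (c (a (nat_lit 0x804041)) e
 (c (a (nat_lit 0x604001)) e
 (c (a (nat_lit 0x202001)) e
 (c (a (nat_lit 0xc06041)) e
 (c (a (nat_lit 0x202081)) e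
 (c (a (nat_lit 0xa1)) e
 (c (a (nat_lit 0x8041)) e
 (c (a (nat_lit 0x200001)) e e)))))))))))))))))))))
 (c (a (nat_lit 0x2021))
 (c (a (nat_lit 0x202021))
 (c (a (nat_lit 0x14343442))
 (c (a (nat_lit 0x1142a2a2a2a5)) e
 (c (a (nat_lit 0x1ac545656544)) e
 (c (a (nat_lit 0x11b554ea8002)) e
 (c (a (nat_lit 0xd580000001)) e e))))
 (c (a (nat_lit 0x4021c141))
 (c (a (nat_lit 0x1661a4640101)) e
 (c (a (nat_lit 0x27922400002)) e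
 (c (a (nat_lit 0x2a000000001)) e e)))
 (c (a (nat_lit 0x40412041))
 (c (a (nat_lit 0x180c0000001)) e e)
 (c (a (nat_lit 0x60a06021)) e
 (c (a (nat_lit 0x40a001)) e
 (c (a (nat_lit 0xe040e0a1)) e
 (c (a (nat_lit 0x289087)) e
 (c (a (nat_lit 0x711757568)) e
 (c (a (nat_lit 0xa72727266)) e
 (c (a (nat_lit 0x127272aee6)) e
 (c (a (nat_lit 0x123228a005)) e
 (c (a (nat_lit 0x1120000004)) e e))))))))))))
 (c (a (nat_lit 0x202021))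
 (c (a (nat_lit 0xa0410081))
 (c (a (nat_lit 0x32362e0e001)) e
 (c (a (nat_lit 0x196120000003)) e e))
 (c (a (nat_lit 0x22141a001))
 (c (a (nat_lit 0x4a000000001)) e e)
 (c (a (nat_lit 0x141a14081)) e
 (c (a (nat_lit 0x101206001)) e
 (c (a (nat_lit 0x20205fc5)) e
 (c (a (nat_lit 0x5531b5e08)) e
 (c (a (nat_lit 0xd35b7b789)) e
 (c (a (nat_lit 0xdb27290a7)) e
 (c (a (nat_lit 0x10b0ad6767)) e
 (c (a (nat_lit 0x10a8600006)) e e))))))))))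
 (c (nat_lit 1)
 (c (a (nat_lit 0x80806001)) e
 (c (a (nat_lit 0x8060e001)) e
 (c (a (nat_lit 0x2020d126)) e
 (c (a (nat_lit 0x2d515288)) e
 (c (a (nat_lit 0x11d6bafc68)) e
 (c (a (nat_lit 0x1097595389)) e
 (c (a (nat_lit 0xb70ed7087)) e
 (c (a (nat_lit 0x135ab24006)) e
 (c (a (nat_lit 0x1080000005)) e e)))))))))
 (c (a (nat_lit 0x2001))
 (c (a (nat_lit 0x20203027)) e
 (c (a (nat_lit 0x606a9028)) e
 (c (a (nat_lit 0x1219196888)) e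
 (c (a (nat_lit 0x19d756aa88)) e
 (c (a (nat_lit 0x1ebefb1588)) e
 (c (a (nat_lit 0x9adf2a967)) e
 (c (a (nat_lit 0x1b32a00006)) e e)))))))
 (c (a (nat_lit 0x404041))
 (c (a (nat_lit 0x4110e07)) e
 (c (a (nat_lit 0xf55cd8028)) e
 (c (a (nat_lit 0x1111e77148)) e
 (c (a (nat_lit 0x15c74ceee8)) e
 (c (a (nat_lit 0x5f0886007)) e
 (c (a (nat_lit 0x1080000006)) e e))))))
 (c (a (nat_lit 0x202041))
 (c (a (nat_lit 0xf80403387)) e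
 (c (a (nat_lit 0xae02d7d48)) e
 (c (a (nat_lit 0x7581928)) e
 (c (a (nat_lit 0x12c00007)) e e))))
 (c (a (nat_lit 0x202001))
 (c (a (nat_lit 0x204a7269)) e
 (c (a (nat_lit 0x29d1c009)) e
 (c (a (nat_lit 0x17a0000002)) e e)))
 (c z
 (c (a (nat_lit 0xdf4e00007)) e e)
 (c (a (nat_lit 0x1610001)) e
 (c z e
 (c (a (nat_lit 0x608001)) e
 (c (a (nat_lit 0x802001)) e
 (c (a (nat_lit 0x204001)) e
 (c (a (nat_lit 0x400001)) e
 (c (a (nat_lit 0xa040a1)) e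
 (c (a (nat_lit 0x4081)) e
 (c (a (nat_lit 0x2041)) e
 (c (a (nat_lit 0x406061)) e
 (c (a (nat_lit 0x404001)) e e)))))))))))))))))))
 (c (a (nat_lit 0x2021))
 (c (a (nat_lit 0x2001))
 (c (a (nat_lit 0x40808041))
 (c (a (nat_lit 0x140c0400001)) e
 (c (a (nat_lit 0x28000000001)) e e))
 (c (a (nat_lit 0x160c06001)) e
 (c (a (nat_lit 0x202012001)) e
 (c (a (nat_lit 0x2a1404001)) e
 (c (a (nat_lit 0x161617646)) e
 (c (a (nat_lit 0x5f0141408)) e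
 (c (a (nat_lit 0x163a3a3808)) e
 (c (a (nat_lit 0x1292928ec6)) e
 (c (a (nat_lit 0x1d7d884005)) e
 (c (a (nat_lit 0x1060000004)) e e))))))))))
 (c (nat_lit 1)
 (c (a (nat_lit 0x2a220e001)) e
 (c (a (nat_lit 0x17e0602003)) e
 (c (a (nat_lit 0x20207367)) e
 (c (a (nat_lit 0x20ced408)) e
 (c (a (nat_lit 0xb51b3afc9)) e
 (c (a (nat_lit 0x1618180989)) e
 (c (a (nat_lit 0x10f0ed6787)) e
 (c (a (nat_lit 0x16aea00006)) e e))))))))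
 (c (a (nat_lit 0x2021))
 (c (a (nat_lit 0x20203c66)) e
 (c (a (nat_lit 0xe0dd95a7)) e
 (c (a (nat_lit 0x7befbd7e8)) e
 (c z e
 (c (a (nat_lit 0x1657ee2748)) e
 (c (a (nat_lit 0xd90e96007)) e
 (c (a (nat_lit 0x1de0000005)) e e)))))))
 (c (a (nat_lit 0x2021))
 (c (a (nat_lit 0x2db00547)) e
 (c (a (nat_lit 0x1251a57628)) e
 (c z e
 (c (a (nat_lit 0xaebead328)) e
 (c (a (nat_lit 0x1f30a00006)) e e)))))
 (c (nat_lit 1)
 (c (a (nat_lit 0x44c2c97c8)) e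
 (c (a (nat_lit 0x8072a716a)) e
 (c (a (nat_lit 0xbafb02009)) e
 (c (a (nat_lit 0x12e0000007)) e e))))
 (c z
 (c (a (nat_lit 0x42bd3c6a9)) e
 (c (a (nat_lit 0x992800009)) e e))
 (c z
 (c (a (nat_lit 0x1bc0000006)) e e)
 (c z e
 (c (a (nat_lit 0x6001)) e
 (c (a (nat_lit 0xa02001)) e
 (c (a (nat_lit 0x602001)) e
 (c (a (nat_lit 0x602001)) e
 (c (a (nat_lit 0x802001)) e
 (c (a (nat_lit 0xa02001)) e
 (c (a (nat_lit 0x600001)) e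
 (c (a (nat_lit 0x802001)) e
 (c (a (nat_lit 0x404021)) e
 (c (a (nat_lit 0x600001)) e e))))))))))))))))))
 C60)))) Tr.c Tr.e (nat_lit 0) C.cx C.cy
noncomputable def C62 : Tr := beta% (fun (c : Nat → Tr → Tr → Tr) (e : Tr) (z : Nat) (a b : Nat → Nat) =>
 (c (a (nat_lit 0x202021))
 (c (a (nat_lit 0x14b4c02003))
 (c (a (nat_lit 0x1313335352c3))
 (c z e
 (c (a (nat_lit 0x7aef0c0000004)) e e))
 (c (a (nat_lit 0x10f0f0f08e25)) e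
 (c (a (nat_lit 0x785454619a6)) e
 (c (a (nat_lit 0x3232456de66)) e
 (c (a (nat_lit 0x1e2668a7587)) e
 (c (a (nat_lit 0x9075b0b205)) e
 (c (a (nat_lit 0xed34a2848e6)) e
 (c (a (nat_lit 0x1048e7648006)) e
 (c (a (nat_lit 0x17e580000005)) e e)))))))))
 (c (a (nat_lit 0x1f60202024))
 (c (a (nat_lit 0xfaa49607104)) e
 (c (a (nat_lit 0x1210133be27)) e
 (c (a (nat_lit 0xa0cdf65108)) e
 (c (b (nat_lit 0xe3aed6bfe8)) e
 (c (a (nat_lit 0x97b4af44a27)) e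
 (c (a (nat_lit 0x1484e3e600c7)) e
 (c (a (nat_lit 0x21045400004)) e
 (c (a (nat_lit 0xb0000000001)) e e))))))))
 (c (a (nat_lit 0x40204021))
 (c (a (nat_lit 0x5a6d6156027)) e
 (c (a (nat_lit 0x73536108168)) e
 (c z e
 (c (a (nat_lit 0x14f0f1226167)) e
 (c (a (nat_lit 0x1eaae8c14006)) e
 (c (a (nat_lit 0x1db080000001)) e e))))))
 (c (a (nat_lit 0x602001))
 (c (a (nat_lit 0x10b476a180e7)) e
 (c (a (nat_lit 0xcf88bace068)) e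
 (c (a (nat_lit 0x19898a814026)) e
 (c (a (nat_lit 0x142a21a00007)) e
 (c (a (nat_lit 0x11e000000003)) e e)))))
 (c (a (nat_lit 0x201f43))
 (c (a (nat_lit 0x18e96dc14188)) e
 (c (a (nat_lit 0x1cb4e4430007)) e
 (c (a (nat_lit 0x1883a0000007)) e e)))
 (c (a (nat_lit 0x3f5f63))
 (c (a (nat_lit 0x1826c2a00006)) e
 (c (a (nat_lit 0x148000000005)) e e))
 (c (a (nat_lit 0x41412061)) e
 (c (a (nat_lit 0xe66561)) e
 (c (a (nat_lit 0x586602041)) e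
 (c (a (nat_lit 0xa0a0a1)) e
 (c (a (nat_lit 0x1c5b9b9985)) e
 (c (a (nat_lit 0x143e6a6925)) e
 (c (a (nat_lit 0xe0c001)) e
 (c (a (nat_lit 0x1006001)) e
 (c (a (nat_lit 0x260c0a001)) e
 (c (a (nat_lit 0x60000001)) e e))))))))))))))))
 (c (a (nat_lit 0x204041))
 (c (a (nat_lit 0x60806061))
 (c (a (nat_lit 0x484630033e6)) e
 (c (a (nat_lit 0x5a568b1c008)) e
 (c (b (nat_lit 0x245933ffe8)) e
 (c (b (nat_lit 0x2c379fe108)) e
 (c (a (nat_lit 0x179255eae667)) e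
 (c (a (nat_lit 0x12cb0ec04004)) e
 (c (a (nat_lit 0x1fc1c0000003)) e e)))))))
 (c (a (nat_lit 0xa0e02001))
 (c (a (nat_lit 0x48c30822048)) e
 (c (a (nat_lit 0xb91b06520a9)) e
 (c z e
 (c (a (nat_lit 0x15150546e588)) e
 (c (a (nat_lit 0x1ec2e4200006)) e
 (c (a (nat_lit 0x2000000001)) e e))))))
 (c (a (nat_lit 0x2031b966))
 (c (a (nat_lit 0x12d00cc6c668)) e
 (c (a (nat_lit 0x1164e58201aa)) e
 (c (a (nat_lit 0x1c2e26a36008)) e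
 (c (a (nat_lit 0x1a2780000006)) e e))))
 (c (a (nat_lit 0xa1c1a1))
 (c (a (nat_lit 0x1d4384802027)) e
 (c (a (nat_lit 0x104da4600006)) e
 (c (a (nat_lit 0x1ee000000004)) e e)))
 (c (a (nat_lit 0xcae9a1c1))
 (c (a (nat_lit 0x156a40000005)) e e)
 (c (a (nat_lit 0xbcef120a1)) e
 (c (a (nat_lit 0xe1020181)) e
 (c (a (nat_lit 0x1010161)) e
 (c (a (nat_lit 0x203465)) e
 (c (a (nat_lit 0x131cc363a6)) e
 (c (a (nat_lit 0x34b4c024)) e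
 (c (a (nat_lit 0x61210021)) e
 (c (a (nat_lit 0x3212001)) e
 (c (a (nat_lit 0x8e1600001)) e e))))))))))))))
 (c (a (nat_lit 0x404041))
 (c (a (nat_lit 0x20203f63))
 (c (a (nat_lit 0x18d7ad2dc546)) e
 (c (a (nat_lit 0xeb12ca30308)) e
 (c (a (nat_lit 0x1ecac7612128)) e
 (c (a (nat_lit 0x1167e0e12007)) e
 (c (a (nat_lit 0x1141c0000005)) e e)))))
 (c (a (nat_lit 0x5f3f24))
 (c (a (nat_lit 0x1547c2620208)) e
 (c (a (nat_lit 0x118462422108)) e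
 (c (a (nat_lit 0x16a1a2400007)) e
 (c (a (nat_lit 0x1d2000000002)) e e))))
 (c (a (nat_lit 0x20201a1))
 (c (a (nat_lit 0xd9000a02005)) e
 (c (a (nat_lit 0xd5fe0000003)) e e))
 (c (a (nat_lit 0x1066541))
 (c (a (nat_lit 0x10a000000002)) e e)
 (c (a (nat_lit 0x18101a001)) e
 (c (a (nat_lit 0xc0a20001)) e
 (c (a (nat_lit 0x2030fe26)) e
 (c (a (nat_lit 0x42d107068)) e
 (c (a (nat_lit 0xbb3737247)) e
 (c (a (nat_lit 0x1540e027)) e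
 (c (a (nat_lit 0x21834261)) e
 (c (a (nat_lit 0x13a1212004)) e
 (c (nat_lit 1) e e)))))))))))))
 (c (a (nat_lit 0x202021))
 (c (a (nat_lit 0x1414061))
 (c (a (nat_lit 0x18ca60404025)) e
 (c (a (nat_lit 0x13f020e08004)) e
 (c (a (nat_lit 0xeb060000003)) e e)))
 (c (a (nat_lit 0x121220041))
 (c (a (nat_lit 0x1f921400003)) e
 (c (a (nat_lit 0x188000000003)) e e))
 (c (a (nat_lit 0x80c081)) e
 (c (a (nat_lit 0x814041)) e
 (c (a (nat_lit 0x20203be5)) e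
 (c (a (nat_lit 0x2e95b588)) e
 (c (a (nat_lit 0x98b4ed129)) e
 (c (a (nat_lit 0xfb3d3cac7)) e
 (c (a (nat_lit 0x1012a2e147)) e
 (c (a (nat_lit 0x2a9c021)) e
 (c (a (nat_lit 0xc0600001)) e e)))))))))))
 (c (a (nat_lit 0x202021))
 (c (a (nat_lit 0x2c280e001))
 (c (a (nat_lit 0x4a1e0000001)) e e)
 (c (a (nat_lit 0xa0e0c001)) e
 (c (a (nat_lit 0x219a25)) e
 (c (a (nat_lit 0x2ddd9e88)) e
 (c (a (nat_lit 0x143a3b18c8)) e
 (c (a (nat_lit 0x1535745409)) e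
 (c (a (nat_lit 0x1898b1a9c6)) e
 (c (a (nat_lit 0x8d3006065)) e
 (c (a (nat_lit 0x143840001)) e
 (c (a (nat_lit 0x20000001)) e e))))))))))
 (c (a (nat_lit 0x404041))
 (c (a (nat_lit 0x2057c4)) e
 (c (a (nat_lit 0x217fdddc7)) e
 (c (a (nat_lit 0x177a5ab928)) e
 (c (a (nat_lit 0xf2f304d49)) e
 (c (a (nat_lit 0x161817cbe8)) e
 (c (a (nat_lit 0x150b002005)) e
 (c (a (nat_lit 0x34c04024)) e
 (c (a (nat_lit 0x1c00001)) e e))))))))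
 (c (a (nat_lit 0x202021))
 (c (a (nat_lit 0x11747472c7)) e
 (c (a (nat_lit 0x1c3c3c4c28)) e
 (c (a (nat_lit 0x185876e2c8)) e
 (c (a (nat_lit 0x1d1bd90a67)) e
 (c (a (nat_lit 0x1876a0e0e1)) e
 (c (a (nat_lit 0x34c02004)) e
 (c (a (nat_lit 0xa0000001)) e e)))))))
 (c (a (nat_lit 0x202021))
 (c (a (nat_lit 0x1b3b326187)) e
 (c (a (nat_lit 0x130ec02008)) e
 (c (a (nat_lit 0x1d30e034a7)) e
 (c (a (nat_lit 0x3a0046)) e
 (c (a (nat_lit 0x3ee00006)) e e)))))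
 (c (a (nat_lit 0x402021))
 (c (a (nat_lit 0x15e2002027)) e
 (c (a (nat_lit 0x1ca0203a27)) e
 (c (a (nat_lit 0x255e4006)) e
 (c (a (nat_lit 0x20000001)) e e))))
 (c (a (nat_lit 0x404041))
 (c (a (nat_lit 0x5ac803746)) e
 (c (a (nat_lit 0x400001)) e e))
 (c (a (nat_lit 0x202021))
 (c (a (nat_lit 0x20000001)) e e)
 (c (a (nat_lit 0x4021)) e
 (c (a (nat_lit 0x202021)) e
 (c (a (nat_lit 0x20a0e1)) e
 (c (a (nat_lit 0x4001)) e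
 (c (a (nat_lit 0x200021)) e
 (c (a (nat_lit 0x4021)) e
 (c (nat_lit 1) e
 (c (a (nat_lit 0x41)) e
 (c (a (nat_lit 0x61)) e
 (c (a (nat_lit 0x2081)) e
 (c (a (nat_lit 0x2001)) e e))))))))))))))))))))))) Tr.c Tr.e (nat_lit 0) C.cx C.cy
noncomputable def C63 : Tr := beta% (fun (c : Nat → Tr → Tr → Tr) (e : Tr) (z : Nat) (a b : Nat → Nat) =>
 (c (a (nat_lit 0x402021))
 (c (a (nat_lit 0x1e3e5e4025))
 (c (a (nat_lit 0x153555594ba5))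
 (c (a (nat_lit 0x920205d0bc545)) e
 (c (a (nat_lit 0x16150c2600005)) e
 (c (a (nat_lit 0x1fdb0000000006)) e e)))
 (c (a (nat_lit 0x1a55757909c5))
 (c (a (nat_lit 0x1404e040000006)) e e)
 (c (a (nat_lit 0x10126d9012e7)) e
 (c (a (nat_lit 0x403c38296a7)) e
 (c (a (nat_lit 0x5e5c33ef8a6)) e
 (c (a (nat_lit 0xbca1e91ce47)) e
 (c (a (nat_lit 0x2f0c9288da7)) e
 (c (a (nat_lit 0x18d06ef0e3a7)) e
 (c (a (nat_lit 0x121648200007)) e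
 (c (a (nat_lit 0x184000000004)) e e))))))))))
 (c (a (nat_lit 0x1f7f802005))
 (c (a (nat_lit 0x175412131346))
 (c (a (nat_lit 0x1ec54000000005)) e e)
 (c (a (nat_lit 0x54424e7d208)) e
 (c (a (nat_lit 0xdcd111e9f48)) e
 (c z e
 (c z e
 (c (a (nat_lit 0x1f1f1e745627)) e
 (c (a (nat_lit 0xa10b4470007)) e
 (c (a (nat_lit 0x1f800000004)) e e))))))))
 (c (a (nat_lit 0x1480202006))
 (c (a (nat_lit 0x58748d1aa08)) e
 (c (a (nat_lit 0x66790e90089)) e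
 (c z e
 (c z e
 (c (a (nat_lit 0x14cd0d2cc4a7)) e
 (c (a (nat_lit 0xdc48a00006)) e e))))))
 (c (a (nat_lit 0x100408001))
 (c (b (nat_lit 0x28e0754bfe8)) e
 (c (b (nat_lit 0x546511fe1a9)) e
 (c (b (nat_lit 0x197ffff67e46)) e
 (c (a (nat_lit 0x134e6e5c007)) e
 (c (a (nat_lit 0x1520000001)) e e)))))
 (c (a (nat_lit 0xe0a121))
 (c (b (nat_lit 0x439bff06048)) e
 (c (b (nat_lit 0x143fed04e1c9)) e
 (c (a (nat_lit 0x1048c6e00007)) e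
 (c (a (nat_lit 0x50000000001)) e e))))
 (c (a (nat_lit 0x202f3706))
 (c (a (nat_lit 0x3d92f066007)) e
 (c (a (nat_lit 0x158300000008)) e e))
 (c (a (nat_lit 0x4fb2a5))
 (c (a (nat_lit 0x196000000004)) e e)
 (c (a (nat_lit 0x1e7e4464)) e
 (c (a (nat_lit 0x32302e141)) e
 (c (a (nat_lit 0xb0d80e061)) e
 (c (a (nat_lit 0x814181)) e
 (c (a (nat_lit 0x153e082026)) e
 (c (a (nat_lit 0x55002024)) e
 (c (a (nat_lit 0x3818041)) e
 (c (a (nat_lit 0x19e0c02023)) e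
 (c (a (nat_lit 0x640600001)) e e))))))))))))))))
 (c (a (nat_lit 0x202021))
 (c (a (nat_lit 0x1f80202024))
 (c (a (nat_lit 0x140188312003)) e
 (c (a (nat_lit 0xfd55c5bd3e6)) e
 (c (a (nat_lit 0x14551b3d3167)) e
 (c z e
 (c z e
 (c (a (nat_lit 0x1f7e1393f0e6)) e
 (c (a (nat_lit 0x11f302800006)) e
 (c (a (nat_lit 0x122000000002)) e e))))))))
 (c (a (nat_lit 0xa060a001))
 (c (a (nat_lit 0xed4162a8127)) e
 (c (b (nat_lit 0xcb50d10ffe8)) e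
 (c (b (nat_lit 0x34594ffe029)) e
 (c z e
 (c (a (nat_lit 0x1cd4a9ed4007)) e
 (c (a (nat_lit 0x1f00a0000006)) e e))))))
 (c (a (nat_lit 0x80a08021))
 (c (b (nat_lit 0x588711fffe8)) e
 (c z e
 (c z e
 (c (a (nat_lit 0x132767000008)) e e))))
 (c (a (nat_lit 0x20305806))
 (c (a (nat_lit 0x1181458403a9)) e
 (c (a (nat_lit 0x311e9450008)) e
 (c (a (nat_lit 0x1c2680000007)) e e)))
 (c (a (nat_lit 0x5f5f64))
 (c (a (nat_lit 0x1b8562a00007)) e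
 (c (a (nat_lit 0x104000000006)) e e))
 (c (a (nat_lit 0x59595944)) e
 (c (a (nat_lit 0x20281c1)) e
 (c (a (nat_lit 0x10c1e12123)) e
 (c (a (nat_lit 0x2036c5)) e
 (c (a (nat_lit 0x82008101)) e
 (c (a (nat_lit 0x32b2c065)) e
 (c (a (nat_lit 0x34f52024)) e
 (c (a (nat_lit 0xc6e3a061)) e
 (c (a (nat_lit 0x15a0602004)) e
 (c (a (nat_lit 0x80000001)) e e)))))))))))))))
 (c (a (nat_lit 0x202021))
 (c (a (nat_lit 0x602001))
 (c (a (nat_lit 0x105248628326)) e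
 (c (a (nat_lit 0x174cb5b48247)) e
 (c (a (nat_lit 0x5d38da22088)) e
 (c (a (nat_lit 0x1464842602e8)) e
 (c (a (nat_lit 0x1a8388e00006)) e
 (c (a (nat_lit 0x196000000003)) e e))))))
 (c (a (nat_lit 0x203f84))
 (c (a (nat_lit 0x752eca36368)) e
 (c (a (nat_lit 0x172ee4c14129)) e
 (c (a (nat_lit 0x15bd65034007)) e
 (c (a (nat_lit 0x1d4fa0000004)) e e))))
 (c (a (nat_lit 0x26282a1))
 (c (a (nat_lit 0x1381e2e06028)) e
 (c (a (nat_lit 0x15760ca00005)) e e))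
 (c (a (nat_lit 0x90d0e303))
 (c (a (nat_lit 0x173480000004)) e e)
 (c (a (nat_lit 0x1393a28024)) e
 (c (a (nat_lit 0xc12220e1)) e
 (c (a (nat_lit 0x20311f66)) e
 (c (a (nat_lit 0x36f89887)) e
 (c (a (nat_lit 0x3797b7a5)) e
 (c (a (nat_lit 0xabd3d2e26)) e
 (c (a (nat_lit 0x3b056046)) e
 (c (a (nat_lit 0x3e52021)) e
 (c (a (nat_lit 0xe81000001)) e e)))))))))))))
 (c (nat_lit 1)
 (c (a (nat_lit 0x207f9f83))
 (c (a (nat_lit 0x120642a26227)) e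
 (c (a (nat_lit 0x1d67a2424127)) e
 (c (a (nat_lit 0x1ea042800006)) e
 (c (a (nat_lit 0x2000000001)) e e))))
 (c (a (nat_lit 0x182a1e0c1))
 (c (a (nat_lit 0xe3021206005)) e
 (c (a (nat_lit 0x69c80000004)) e e))
 (c (a (nat_lit 0x2220a2861))
 (c (a (nat_lit 0x116000000002)) e e)
 (c (a (nat_lit 0x2610134c2)) e
 (c (a (nat_lit 0x20205985)) e
 (c (a (nat_lit 0x2bb1b288)) e
 (c (a (nat_lit 0x10b4151188)) e
 (c (a (nat_lit 0x187b973725)) e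
 (c (a (nat_lit 0x13332c8c26)) e
 (c (a (nat_lit 0x438a12084)) e
 (c (a (nat_lit 0x82636001)) e
 (c (a (nat_lit 0x1740000004)) e e))))))))))))
 (c (nat_lit 1)
 (c (a (nat_lit 0x80e2a1a1))
 (c (a (nat_lit 0x20461a00001)) e
 (c (a (nat_lit 0x68000000001)) e e))
 (c (a (nat_lit 0x445014081)) e
 (c (a (nat_lit 0x2021bb45)) e
 (c (a (nat_lit 0x2cb4b4a8)) e
 (c (a (nat_lit 0x15183837e8)) e
 (c (a (nat_lit 0x1f5f5ab908)) e
 (c (a (nat_lit 0x1437694065)) e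
 (c (a (nat_lit 0xaa587c001)) e
 (c (a (nat_lit 0x14a06044)) e
 (c (a (nat_lit 0x161a00001)) e e))))))))))
 (c (a (nat_lit 0x202021))
 (c (a (nat_lit 0x205984)) e
 (c (a (nat_lit 0x5157bee7)) e
 (c (a (nat_lit 0x16b9f9f668)) e
 (c (a (nat_lit 0x1151538f68)) e
 (c (a (nat_lit 0x11514f44e9)) e
 (c (a (nat_lit 0x1e80604023)) e
 (c (a (nat_lit 0x241a18261)) e
 (c (a (nat_lit 0x75602004)) e
 (c (a (nat_lit 0x20000001)) e e)))))))))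
 (c (a (nat_lit 0x202021))
 (c (a (nat_lit 0x161c7c7aa6)) e
 (c (a (nat_lit 0x14d4d4cd48)) e
 (c (a (nat_lit 0x14f4f42c68)) e
 (c (a (nat_lit 0x1fffe78647)) e
 (c (a (nat_lit 0x263984)) e
 (c (a (nat_lit 0x2e46080c1)) e
 (c (a (nat_lit 0x5d2a00005)) e e)))))))
 (c (a (nat_lit 0x202021))
 (c (a (nat_lit 0x18f8f8c7c7)) e
 (c (a (nat_lit 0x17574fc028)) e
 (c (a (nat_lit 0x17b202a028)) e
 (c (a (nat_lit 0x2e0223607)) e
 (c (a (nat_lit 0x5596006)) e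
 (c (a (nat_lit 0x60000001)) e e))))))
 (c (a (nat_lit 0x202001))
 (c (a (nat_lit 0x1493002027)) e
 (c (a (nat_lit 0x1240202028)) e
 (c (a (nat_lit 0x34e1ef24)) e
 (c (a (nat_lit 0x20200001)) e e))))
 (c (a (nat_lit 0x402001))
 (c (a (nat_lit 0x11e4a023c6)) e
 (c (a (nat_lit 0x40806001)) e
 (c (nat_lit 1) e e)))
 (c (a (nat_lit 0x202001))
 (c (a (nat_lit 0x20200001)) e e)
 (c (a (nat_lit 0x202021)) e
 (c (a (nat_lit 0x4021)) e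
 (c (a (nat_lit 0x4041)) e
 (c (a (nat_lit 0x206001)) e
 (c (a (nat_lit 0x202001)) e
 (c (a (nat_lit 0x200041)) e
 (c (a (nat_lit 0x40a1)) e
 (c (a (nat_lit 0x2081)) e
 (c (a (nat_lit 0x20e1)) e
 (c (a (nat_lit 0xc1)) e
 (c (a (nat_lit 0x2061)) e
 (c (a (nat_lit 0x200001)) e e)))))))))))))))))))))))) Tr.c Tr.e (nat_lit 0) C.cx C.cy

end Pool.Agent.Work.MP_82fd4a_nt.P.H
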