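import Pool.Agent.Work.MP_82fd4a_nt.P.Dx

set_option autoImplicit false
set_option linter.all false
set_option maxRecDepth 100000

namespace Pool.Agent.Work.MP_82fd4a_nt.P.H
open Y Y.Tr

noncomputable def C573 : Tr := beta% (fun (c : Nat → Tr → Tr → Tr) (e : Tr) (z : Nat) (a : Nat → Nat) =>
 (c (a (nat_lit 0x2020202021))
 (c z
 (c (a (nat_lit 0x8888934b2282a03)) e
 (c z e
 (c z e
 (c z e
 (c z e
 (c z e
 (c z e
 (c z e
 (c z e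
 (c z e
 (c z e
 (c z e
 (c (a (nat_lit 0x1b9b7bdc39765a24)) e
 (c (a (nat_lit 0xe8eaf1109058025)) e
 (c (a (nat_lit 0x12f759f6f0d09585)) e e)))))))))))))))
 (c z
 (c z e
 (c z e
 (c z e
 (c z e
 (c z e
 (c z e
 (c z e
 (c z e
 (c z e
 (c z e
 (c z e
 (c z e
 (c (a (nat_lit 0x1474f7944b63e2e6)) e
 (c z e
 (c z e
 (c z e
 (c (a (nat_lit 0x1e25c343c00003)) e e)))))))))))))))))
 (c z
 (c z e
 (c z e
 (c z e
 (c z e
 (c z e
 (c z e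
 (c z e
 (c z e
 (c z e
 (c z e
 (c (a (nat_lit 0x115829f213802006)) e
 (c (a (nat_lit 0x1cef5759bb2c22a6)) e e))))))))))))
 (c z e
 (c (a (nat_lit 0x2020202036c6))
 (c z e
 (c z e
 (c z e
 (c z e
 (c z e
 (c z e
 (c (a (nat_lit 0x126505612642c107)) e e)))))))
 (c (a (nat_lit 0x2020203555c6)) e
 (c (a (nat_lit 0x20203b7c3106))
 (c z e
 (c z e
 (c z e
 (c (a (nat_lit 0x21c9dc0f8a9206)) e e))))
 (c (a (nat_lit 0x20306d4ae527)) e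
 (c z e
 (c z e
 (c z e
 (c z e
 (c z e
 (c z e
 (c z e
 (c z e
 (c (a (nat_lit 0x48805ec8bbf81)) e
 (c (a (nat_lit 0x401e2ba9b41)) e e))))))))))))))))))
 (c (a (nat_lit 0x2020202021))
 (c z
 (c (a (nat_lit 0x1bfab404ee042365))
 (c z e
 (c z e
 (c z e
 (c z e
 (c z e
 (c z e
 (c (a (nat_lit 0x6f255f9b0c94ac208)) e
 (c (a (nat_lit 0xab82e26c6c1c90727)) e e))))))))
 (c z e
 (c z e
 (c z e
 (c z e
 (c z e
 (c z e
 (c z e
 (c z e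
 (c z e
 (c z e
 (c (a (nat_lit 0x18997dfc1befa146)) e e))))))))))))
 (c z e
 (c (a (nat_lit 0x2020202030c8)) e
 (c (a (nat_lit 0x202020332e68)) e
 (c (a (nat_lit 0x202038d4cd88)) e
 (c (a (nat_lit 0x2037758e2828)) e e))))))
 (c (a (nat_lit 0x2020202021))
 (c (a (nat_lit 0x2020202034a7))
 (c z e
 (c z e
 (c z e
 (c z e
 (c z e
 (c z e
 (c z e
 (c z e
 (c z e
 (c (a (nat_lit 0xc05e965cd1008c7)) e e))))))))))
 (c (a (nat_lit 0x202020340de8)) e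
 (c (a (nat_lit 0x20203bd58f28)) e
 (c (a (nat_lit 0x203cb6ee28a8)) e e))))
 (c (a (nat_lit 0x2020202021))
 (c (a (nat_lit 0x20203c35aec7)) e
 (c (a (nat_lit 0x203cd6b009a8)) e e))
 (c (a (nat_lit 0x2020202021)) e
 (c (a (nat_lit 0x2020202021)) e
 (c (a (nat_lit 0x2020202021))
 (c z e
 (c z e
 (c z e
 (c z e
 (c z e
 (c z e
 (c z e
 (c z e
 (c z e
 (c z e
 (c z e
 (c z e
 (c z e
 (c (a (nat_lit 0x8d0a020000006)) e e))))))))))))))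
 (c (a (nat_lit 0x2020202021)) e
 (c (nat_lit 1)
 (c z e
 (c z e
 (c z e
 (c z e
 (c z e
 (c z e
 (c z e
 (c z e
 (c z e
 (c (a (nat_lit 0x163209c0402006)) e e))))))))))
 (c (a (nat_lit 0x20000001)) e
 (c (a (nat_lit 0x2020202021)) e
 (c (a (nat_lit 0x4060606041)) e
 (c (a (nat_lit 0x2020203726)) e
 (c (a (nat_lit 0x202037f086)) e
 (c (a (nat_lit 0x203089c006)) e e)))))))))))))))) Tr.c Tr.e (nat_lit 0) C.cx
noncomputable def C574 : Tr := beta% (fun (c : Nat → Tr → Tr → Tr) (e : Tr) (z : Nat) (a b : Nat → Nat) =>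
 (c (nat_lit 1)
 (c (a (nat_lit 0x2020404041)) e
 (c (a (nat_lit 0x6060606061)) e
 (c (nat_lit 1) e
 (c (a (nat_lit 0x20202038a8)) e
 (c (a (nat_lit 0x202036aa88)) e
 (c (a (nat_lit 0x203ff4c988)) e
 (c (a (nat_lit 0x3cb44927e8)) e
 (c z e
 (c z e
 (c z e
 (c z e
 (c z e
 (c z e
 (c z e
 (c (a (nat_lit 0xf54e0808065)) e
 (c (a (nat_lit 0x14a060405ae5)) e
 (c (a (nat_lit 0x2026d1a7)) e e)))))))))))))))))
 (c (a (nat_lit 0x20202021))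
 (c (nat_lit 1)
 (c (a (nat_lit 0x14424123822a44))
 (c (a (nat_lit 0x4f9652141e361c7)) e
 (c (a (nat_lit 0x1301ce2a4ae2abc8)) e e))
 (c z e
 (c z e
 (c z e
 (c z e
 (c z e
 (c (a (nat_lit 0x1e9c75a143e3e7)) e
 (c (a (nat_lit 0x1cb8f1666680a7)) e e))))))))
 (c (a (nat_lit 0x2020203da8)) e
 (c (a (nat_lit 0x20203a0e28)) e
 (c (a (nat_lit 0x203e9625e8)) e
 (c z e
 (c z e
 (c (a (nat_lit 0x172f340301e7))
 (c (b (nat_lit 0x5537cdfe5e028)) e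
 (c (a (nat_lit 0xddc51a4200009)) e e))
 (c (a (nat_lit 0xe79472729e7))
 (c (a (nat_lit 0x106ea240000009)) e e)
 (c z e
 (c z e
 (c z e
 (c z e
 (c z e
 (c (a (nat_lit 0x116240202946)) e
 (c (a (nat_lit 0x46020327985)) e e)))))))))))))))
 (c (nat_lit 1)
 (c (a (nat_lit 0x20203d6a67)) e
 (c (a (nat_lit 0x2032278469)) e e))
 (c (a (nat_lit 0x40404041))
 (c (a (nat_lit 0x15cf6521e7)) e
 (c z e
 (c z e
 (c z e
 (c z e
 (c z e
 (c z e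
 (c z e
 (c (a (nat_lit 0x41a24e02005)) e
 (c (a (nat_lit 0xfe562e27306)) e
 (c z e
 (c z e
 (c z e
 (c z e
 (c (a (nat_lit 0x10e240400005)) e
 (c (a (nat_lit 0x1d8000000001)) e e))))))))))))))))
 (c (a (nat_lit 0x40404041))
 (c (a (nat_lit 0x10af0d4023c6))
 (c (a (nat_lit 0x175a1ee9a0e005)) e
 (c (a (nat_lit 0xb4a28a14b5788)) e e))
 (c (a (nat_lit 0xdf084e370a6))
 (c (a (nat_lit 0x98aa157f2d0e8)) e e)
 (c z e
 (c z e
 (c z e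
 (c z e
 (c (a (nat_lit 0xf72ee8b6367)) e
 (c (a (nat_lit 0x16a48040dbe5)) e
 (c (a (nat_lit 0x3a0205b3985)) e
 (c z e
 (c z e
 (c z e
 (c (a (nat_lit 0x176020c06005)) e
 (c (a (nat_lit 0x320000001)) e e))))))))))))))
 (c (a (nat_lit 0xa0a0a0c1))
 (c (a (nat_lit 0x1361215019e4))
 (c (a (nat_lit 0x9e0d991284387)) e e)
 (c z e
 (c z e
 (c z e
 (c z e
 (c (a (nat_lit 0x12eef716f5e7)) e
 (c (a (nat_lit 0x46221f09046)) e
 (c z e
 (c z e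
 (c z e
 (c (a (nat_lit 0x176520406045)) e
 (c (a (nat_lit 0x13c080800003)) e
 (c (a (nat_lit 0x2000000001)) e e)))))))))))))
 (c (a (nat_lit 0x40404041))
 (c z e
 (c z e
 (c z e
 (c z e
 (c z e
 (c z e
 (c z e
 (c z e
 (c (a (nat_lit 0x1e078080c0a5)) e
 (c (a (nat_lit 0x1b80a0c04003)) e
 (c (a (nat_lit 0xe0000001)) e e)))))))))))
 (c (a (nat_lit 0x20202041))
 (c (a (nat_lit 0x109772c8e206)) e
 (c (a (nat_lit 0x179412c87267)) e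
 (c z e
 (c z e
 (c z e
 (c z e
 (c (a (nat_lit 0x1eeca0a14665)) e
 (c (a (nat_lit 0x1a8060a08003)) e
 (c (a (nat_lit 0x102c1200001)) e
 (c (a (nat_lit 0xe000000001)) e e))))))))))
 (c (nat_lit 1)
 (c (a (nat_lit 0x28302d1d5e5)) e
 (c z e
 (c z e
 (c z e
 (c (a (nat_lit 0xf26c38390a6)) e
 (c (a (nat_lit 0x30163636221)) e
 (c (a (nat_lit 0x1e1008001)) e
 (c (a (nat_lit 0x20000001)) e e))))))))
 (c (a (nat_lit 0x40404041))
 (c z e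
 (c z e
 (c (a (nat_lit 0xf26e140b0c6)) e
 (c (a (nat_lit 0x1e222436381)) e
 (c (a (nat_lit 0xe040a041)) e
 (c (a (nat_lit 0x40200001)) e
 (c (nat_lit 1) e e)))))))
 (c (a (nat_lit 0x20202021))
 (c (a (nat_lit 0x80360403046)) e
 (c (a (nat_lit 0x2c1e1210001)) e
 (c (a (nat_lit 0x2a1c180e001)) e
 (c (a (nat_lit 0x1a140a06001)) e
 (c (a (nat_lit 0x140c0000001)) e e)))))
 (c (a (nat_lit 0x40404041))
 (c (a (nat_lit 0x8060606061)) e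
 (c (a (nat_lit 0x80a0a0c061)) e
 (c (a (nat_lit 0xa0a0600001)) e
 (c (a (nat_lit 0x4000000001)) e e))))
 (c (a (nat_lit 0x20404041))
 (c (a (nat_lit 0x4060602001)) e
 (c (a (nat_lit 0x8060000001)) e e))
 (c (a (nat_lit 0x40404041))
 (c (a (nat_lit 0x2000000001)) e e)
 (c (a (nat_lit 0x20202021)) e
 (c (a (nat_lit 0x20202001)) e
 (c (a (nat_lit 0x20203087)) e
 (c (a (nat_lit 0x2030a607)) e
 (c (a (nat_lit 0x333a92567)) e
 (c z e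
 (c z e
 (c (a (nat_lit 0xc52202005)) e
 (c (a (nat_lit 0x12c060a6a5)) e e)))))))))))))))))))))))) Tr.c Tr.e (nat_lit 0) C.cx C.cy
noncomputable def C575 : Tr := beta% (fun (c : Nat → Tr → Tr → Tr) (e : Tr) (z : Nat) (a b : Nat → Nat) =>
 (c (nat_lit 1)
 (c (a (nat_lit 0x4040404041))
 (c z
 (c (a (nat_lit 0xa4a4a5c15508844)) e
 (c (a (nat_lit 0x222359b95452046))
 (c z e
 (c z e
 (c z e
 (c z e
 (c z e
 (c z e
 (c z e
 (c z e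
 (c z e
 (c (a (nat_lit 0x3e24729c826029a28)) e e))))))))))
 (c z e
 (c z e
 (c z e
 (c z e
 (c z e
 (c z e
 (c z e
 (c z e
 (c z e
 (c z e
 (c z e
 (c z e
 (c z e
 (c z e
 (c (a (nat_lit 0x1860e391228187a3)) e e)))))))))))))))))
 (c z e
 (c z e
 (c z e
 (c z
 (c z e
 (c z e
 (c z e
 (c z e
 (c z e
 (c z e
 (c z e
 (c (a (nat_lit 0x1d74afe9a582c027)) e e))))))))
 (c (a (nat_lit 0x2020202038a8))
 (c z e
 (c z e
 (c z e
 (c z e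
 (c z e
 (c (a (nat_lit 0x7f13d2ef4b0ce7)) e e))))))
 (c (a (nat_lit 0x202020399168))
 (c z e
 (c z e
 (c z e
 (c z e
 (c z e
 (c z e
 (c (b (nat_lit 0xe1e99ff5887fe8)) e e)))))))
 (c (a (nat_lit 0x202030698789)) e
 (c (a (nat_lit 0x20213cd476468)) e e)))))))))
 (c (nat_lit 1)
 (c z e
 (c z e
 (c z e
 (c (a (nat_lit 0x202020203a49)) e
 (c (a (nat_lit 0x2020203a1089)) e
 (c (a (nat_lit 0x202030ac07ca)) e
 (c (a (nat_lit 0x10c886a4aa)) e e)))))))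
 (c (nat_lit 1)
 (c z e
 (c (a (nat_lit 0x2020001929)) e
 (c (a (nat_lit 0x2020203b10c9)) e
 (c (a (nat_lit 0x2020328cc84a)) e
 (c (a (nat_lit 0x30ea65c3ea)) e e)))))
 (c (a (nat_lit 0x2020202021))
 (c (a (nat_lit 0x202020386ee8)) e
 (c (a (nat_lit 0x2020328c86ca)) e
 (c (a (nat_lit 0x2032acc7644a)) e e)))
 (c (a (nat_lit 0x4040404041))
 (c (a (nat_lit 0x12132ede78569)) e e)
 (c (a (nat_lit 0x2020404041)) e
 (c (nat_lit 1)
 (c z e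
 (c z e
 (c z e
 (c z e
 (c z e
 (c z e
 (c z e
 (c z e
 (c z e
 (c z e
 (c z e
 (c z e
 (c z e
 (c (a (nat_lit 0xae03161c00007)) e e))))))))))))))
 (c (a (nat_lit 0x2020202021)) e
 (c (nat_lit 1) e
 (c (a (nat_lit 0x40002001)) e
 (c (a (nat_lit 0x2021)) e
 (c (a (nat_lit 0x40404001)) e
 (c (a (nat_lit 0x808060a0a1)) e
 (c (a (nat_lit 0x20203728)) e
 (c (a (nat_lit 0x20203368a8)) e
 (c (a (nat_lit 0x2032a7e268)) e e))))))))))))))))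
 (c (a (nat_lit 0x20202021))
 (c (nat_lit 1)
 (c z e
 (c z e
 (c (a (nat_lit 0x202020203928)) e
 (c (a (nat_lit 0x2020203a4e88)) e
 (c (a (nat_lit 0x202030ab46a9)) e
 (c (a (nat_lit 0x10ec47a7a9))
 (c z e
 (c z e
 (c z e
 (c (a (nat_lit 0x17e7cfc19b4e047)) e e)))) e))))))
 (c (nat_lit 1)
 (c (a (nat_lit 0x202020203748)) e
 (c (a (nat_lit 0x202020378d49)) e
 (c (a (nat_lit 0x2020308ac5ea)) e
 (c (a (nat_lit 0x20300aa6060a)) e e))))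
 (c (a (nat_lit 0x20202001))
 (c (a (nat_lit 0x2020324d8889)) e
 (c (a (nat_lit 0x20334d87c6ca)) e e))
 (c (a (nat_lit 0x2040404041)) e
 (c (nat_lit 1) e
 (c (a (nat_lit 0x2020202021)) e
 (c (nat_lit 1) e
 (c (nat_lit 1) e
 (c (a (nat_lit 0x20000001)) e
 (c (a (nat_lit 0x2001)) e
 (c (a (nat_lit 0x80402001)) e
 (c (a (nat_lit 0x3288)) e
 (c (a (nat_lit 0x12e768)) e
 (c (b (nat_lit 0x203f08bfe7)) e e))))))))))))))
 (c (nat_lit 1)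
 (c (nat_lit 1)
 (c (a (nat_lit 0x2020203028a7)) e
 (c (a (nat_lit 0x2020302aa6a9)) e
 (c (a (nat_lit 0x203d720889e8)) e
 (c (a (nat_lit 0x21fd6ee2d2568)) e e))))
 (c (nat_lit 1)
 (c (a (nat_lit 0x20314c476569)) e e)
 (c (a (nat_lit 0x2020202021)) e
 (c (a (nat_lit 0x20000001)) e
 (c (a (nat_lit 0x20202021)) e
 (c (a (nat_lit 0x20200001)) e
 (c (nat_lit 1) e
 (c (a (nat_lit 0x4040202001)) e
 (c (a (nat_lit 0x20004001))
 (c z e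
 (c z e
 (c z e
 (c z e
 (c z e
 (c z e
 (c (a (nat_lit 0x10151088600008)) e e)))))))
 (c (a (nat_lit 0x20203428)) e
 (c (a (nat_lit 0x2020344648)) e
 (c (b (nat_lit 0x13475fe8)) e
 (c (b (nat_lit 0x3ee79fe047)) e e)))))))))))))
 (c (a (nat_lit 0x20202021))
 (c (a (nat_lit 0x4040404041)) e
 (c (a (nat_lit 0x4040404041)) e
 (c (a (nat_lit 0x2020202021)) e
 (c (a (nat_lit 0x2020404041)) e
 (c (nat_lit 1) e
 (c (a (nat_lit 0x2020200001)) e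
 (c (a (nat_lit 0x2020200001)) e
 (c (a (nat_lit 0x20203028))
 (c (a (nat_lit 0xa44a80741f167)) e e)
 (c (a (nat_lit 0x2020338608)) e
 (c (a (nat_lit 0x20378b2128)) e e))))))))))
 (c (a (nat_lit 0x40404041))
 (c (a (nat_lit 0x4040404041))
 (c z e
 (c z e
 (c z e
 (c z e
 (c z e
 (c (a (nat_lit 0xc8440614333e6))
 (c z e
 (c (a (nat_lit 0x116435ada0000008)) e e))
 (c (b (nat_lit 0x3c0402c3ffd66))
 (c (a (nat_lit 0x91eeb4000000006)) e e)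
 (c z e
 (c z e
 (c z e
 (c z e
 (c z e
 (c (a (nat_lit 0xc4a67a7f0d326)) e e)))))))))))))
 (c (a (nat_lit 0x2020204041)) e
 (c (a (nat_lit 0x4040606061)) e
 (c (a (nat_lit 0x2020202001)) e
 (c (a (nat_lit 0x8080a0c0c1))
 (c z e
 (c z e
 (c z e
 (c z e
 (c z e
 (c z e
 (c z e
 (c z e
 (c (a (nat_lit 0x426996e000006)) e e)))))))))
 (c (a (nat_lit 0x2020203728))
 (c z e
 (c (a (nat_lit 0x17cc8f732eac87)) e e))
 (c (a (nat_lit 0x20203708c8))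
 (c (a (nat_lit 0x14b6b355ff12a5)) e
 (c z e
 (c z e
 (c z e
 (c z e
 (c z e
 (c (a (nat_lit 0x1143a000000008)) e e)))))))
 (c (a (nat_lit 0x3d8e8208)) e
 (c z e
 (c z e
 (c z e
 (c z e
 (c z e
 (c z e
 (c z e
 (c z e
 (c (a (nat_lit 0xdf2414022e5)) e
 (c (a (nat_lit 0x144380c503e5)) e
 (c (a (nat_lit 0x56406259706)) e e)))))))))))))))))))
 C574)))))) Tr.c Tr.e (nat_lit 0) C.cx C.cy
noncomputable def C576 : Tr := beta% (fun (c : Nat → Tr → Tr → Tr) (e : Tr) (z : Nat) (a b : Nat → Nat) =>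
 (c (nat_lit 1)
 (c z
 (c z e
 (c z e
 (c z e
 (c z e
 (c z e
 (c z e
 (c z e
 (c z e
 (c z e
 (c (a (nat_lit 0xbac7be8336c0786)) e e))))))))))
 (c z
 (c z e
 (c z e
 (c z e
 (c z e
 (c z e
 (c z e
 (c z e
 (c z e
 (c z e
 (c (a (nat_lit 0x1271325acda549c7)) e e))))))))))
 (c (a (nat_lit 0x202020203628)) e
 (c (a (nat_lit 0x202020386d88))
 (c z e
 (c z e
 (c z e
 (c z e
 (c z e
 (c z e
 (c (a (nat_lit 0xa2f4dea15042688)) e e)))))))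
 (c (a (nat_lit 0x20203e70e8a8))
 (c z e
 (c z e
 (c z e
 (c (a (nat_lit 0x22ed4f48f0d328)) e e))))
 (c (a (nat_lit 0x203a4d89e6c8)) e
 (c (a (nat_lit 0x213ccc6e48228)) e e)))))))
 (c (a (nat_lit 0x2020202021))
 (c (a (nat_lit 0x2020202033e7))
 (c z e
 (c z e
 (c z e
 (c z e
 (c z e
 (c z e
 (c z e
 (c z e
 (c (a (nat_lit 0x1e4a5b0496f0007)) e e)))))))))
 (c (a (nat_lit 0x202020370d08)) e
 (c (a (nat_lit 0x202031ec4669)) e
 (c (a (nat_lit 0x203af488a788)) e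
 (c z e
 (c z e
 (c z e
 (c z e
 (c z e
 (c z e
 (c z e
 (c z e
 (c z e
 (c z e
 (c z e
 (c z e
 (c z e
 (c z e
 (c (a (nat_lit 0x1ba085a9e00004)) e e)))))))))))))))))))
 (c (a (nat_lit 0x6060606061))
 (c (a (nat_lit 0x202031ebc2c8))
 (c (a (nat_lit 0xe0e6ed3da4f6ca6))
 (c z e
 (c z e
 (c z e
 (c z e
 (c z e
 (c (a (nat_lit 0x17436f2c20e0000007)) e e))))))
 (c z e
 (c z e
 (c z e
 (c z e
 (c z e
 (c (a (nat_lit 0x6626d4dffdc846)) e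
 (c z e
 (c z e
 (c z e
 (c z e
 (c (a (nat_lit 0x805c5f1a0000008)) e
 (c (a (nat_lit 0x1bccc00000000004)) e e)))))))))))))
 (c (a (nat_lit 0x20316de6a489)) e
 (c z e
 (c z e
 (c z e
 (c z e
 (c z e
 (c z e
 (c z e
 (c z e
 (c z e
 (c z e
 (c z e
 (c z e
 (c z e
 (c z e
 (c (a (nat_lit 0x10406040202005)) e
 (c (a (nat_lit 0x622e120000001)) e e))))))))))))))))))
 (c (a (nat_lit 0x8080808081))
 (c (a (nat_lit 0xb2108b26a0a8)) e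
 (c z e
 (c z e
 (c z e
 (c z e
 (c z e
 (c z e
 (c z e
 (c (b (nat_lit 0x11323fe780e587)) e
 (c z e
 (c z e
 (c z e
 (c z e
 (c z e
 (c (a (nat_lit 0x1129c8e908e8e7)) e
 (c (a (nat_lit 0x11e3a1c0400003)) e e))))))))))))))))
 (c (a (nat_lit 0x4040404041))
 (c (a (nat_lit 0x136f0ee4432207))
 (c (a (nat_lit 0xf8a2b6a0a16dde6)) e
 (c z e
 (c z e
 (c z e
 (c z e
 (c z e
 (c (a (nat_lit 0x508b0874582a009)) e
 (c (a (nat_lit 0xdfa2ee300000008)) e e))))))))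
 (c z e
 (c z e
 (c z e
 (c z e
 (c z e
 (c (a (nat_lit 0xc908865042787)) e
 (c (a (nat_lit 0x1fb3f4464ad726)) e
 (c z e
 (c z e
 (c z e
 (c z e
 (c z e
 (c (a (nat_lit 0x172120a0a02003)) e e))))))))))))))
 (c (a (nat_lit 0x6060606061)) e
 (c (nat_lit 1) e
 (c (a (nat_lit 0x6060606061))
 (c (a (nat_lit 0x152dc18061a9a5))
 (c (a (nat_lit 0x573260162c06007)) e
 (c (a (nat_lit 0x15a5c785e0000007)) e e))
 (c (a (nat_lit 0x1882236493b2c5))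
 (c (a (nat_lit 0x37cb0000000006)) e e) e))
 (c (a (nat_lit 0xa0a0a0c0c1))
 (c (a (nat_lit 0x11d0b0dafb0f85))
 (c (a (nat_lit 0x1da8400000000005)) e e)
 (c z e
 (c z e
 (c z e
 (c z e
 (c z e
 (c (a (nat_lit 0x8071459345)) e e)))))))
 (c (a (nat_lit 0x40202001)) e
 (c (a (nat_lit 0x808080a0a1))
 (c (a (nat_lit 0x1358d776e06d25)) e
 (c (a (nat_lit 0xaf3960f8df526)) e e))
 (c (a (nat_lit 0xa0a0a0a081))
 (c (a (nat_lit 0x1c26181207807)) e e)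
 (c (a (nat_lit 0x2020203706))
 (c z e
 (c z e
 (c (a (nat_lit 0x13d3d3e0000008)) e e)))
 (c (a (nat_lit 0x2020358406))
 (c (a (nat_lit 0x1332f739c00008)) e
 (c (a (nat_lit 0x1d974000000006)) e e))
 (c (a (nat_lit 0x20386ae266)) e
 (c (a (nat_lit 0x384ae265c6)) e
 (c z e
 (c (a (nat_lit 0x15228b602005)) e
 (c (a (nat_lit 0x617a0e0b064)) e
 (c (a (nat_lit 0xbc040483125)) e
 (c z e
 (c z e
 (c z e
 (c z e
 (c (a (nat_lit 0x1a02a0602005)) e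
 (c (a (nat_lit 0x146180000002)) e e))))))))))))))))))))))))))) Tr.c Tr.e (nat_lit 0) C.cx C.cy
noncomputable def C577 : Tr := beta% (fun (c : Nat → Tr → Tr → Tr) (e : Tr) (z : Nat) (a b : Nat → Nat) =>
 (c z
 (c (a (nat_lit 0x2020202030e0a5))
 (c z e
 (c z e
 (c z e
 (c z e
 (c z e
 (c z e
 (c z e
 (c z e
 (c z e
 (c z e
 (c (a (nat_lit 0x9e7a8462527961b66)) e
 (c (a (nat_lit 0x68746e44766d8b5c7)) e
 (c (b (nat_lit 0x7e8a7ffe7b37d6fe7)) e e)))))))))))))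
 (c (a (nat_lit 0x2020203e7029a6))
 (c z e
 (c z e
 (c z e
 (c z e
 (c z e
 (c z e
 (c z e
 (c z e
 (c (a (nat_lit 0x10f1af3633132d72e7)) e
 (c z e
 (c z e
 (c (a (nat_lit 0x58682e348e965bbc9)) e e))))))))))))
 (c (a (nat_lit 0x202030c9470127))
 (c z e
 (c z e
 (c z e
 (c z e
 (c z e
 (c z e
 (c z e
 (c (a (nat_lit 0x126e770e8eeeae19a7)) e e))))))))
 (c (a (nat_lit 0x2030ace7e241e7))
 (c z e
 (c z e
 (c z e
 (c z e
 (c z e
 (c (a (nat_lit 0x10e785c86787068ae8)) e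
 (c (a (nat_lit 0xfce146ed04e99e887)) e e)))))))
 (c z e
 (c z e
 (c (a (nat_lit 0x17d56c840422c026))
 (c (a (nat_lit 0xb42a42ba14ef514c7)) e
 (c z e
 (c z e
 (c z e
 (c z e
 (c z e
 (c (a (nat_lit 0x10c6d2d68f4cc00008)) e
 (c (a (nat_lit 0x1ef31d09e000000008)) e e))))))))
 (c z e
 (c z e
 (c z e
 (c z e
 (c z e
 (c (a (nat_lit 0x1072f0ad298b8ba7)) e
 (c (a (nat_lit 0x1ad8b5b0d1f1ec07)) e
 (c z e
 (c z e
 (c z e
 (c z e
 (c z e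
 (c (a (nat_lit 0x1087a10140800004)) e e))))))))))))))))))))
 (c z
 (c (a (nat_lit 0x202032a9e3c6a6))
 (c z e
 (c z e
 (c z e
 (c z e
 (c z e
 (c z e
 (c z e
 (c z e
 (c z e
 (c z e
 (c (a (nat_lit 0x6e62328a5c5101027)) e e)))))))))))
 (c (a (nat_lit 0xc0df940c084ee6))
 (c z e
 (c z e
 (c z e
 (c z e
 (c z e
 (c z e
 (c z e
 (c z e
 (c z e
 (c (a (nat_lit 0x4e565642369bfac68)) e e)))))))))) e))
 (c z
 (c (a (nat_lit 0x3ed3af05c24405))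
 (c z e
 (c z e
 (c z e
 (c z e
 (c z e
 (c z e
 (c (a (nat_lit 0xd320d6f8a6aee3487)) e
 (c (a (nat_lit 0x402e5046263251308)) e
 (c (a (nat_lit 0x32342e2e145112c48)) e
 (c (a (nat_lit 0x322c321a513674588)) e
 (c (a (nat_lit 0x3a504e79efaf288e8)) e e)))))))))))
 (c z e
 (c z e
 (c z e
 (c z e
 (c z e
 (c z e
 (c z e
 (c z e
 (c z e
 (c z e
 (c z e
 (c (b (nat_lit 0xd10aebfe7c3a387)) e
 (c (a (nat_lit 0x14ad4c545029ce66)) e
 (c (a (nat_lit 0x1e6390e8304342a4)) e e)))))))))))))))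
 (c z
 (c z e
 (c z e
 (c z e
 (c z e
 (c z e
 (c z e
 (c z e
 (c z e
 (c z e
 (c z e
 (c (a (nat_lit 0x13b471cfe229a7a6)) e e)))))))))))
 (c z
 (c z e
 (c z e
 (c z e
 (c z e
 (c z e
 (c z e
 (c z e
 (c z e
 (c z e
 (c (a (nat_lit 0x150d8f2f2c8a3326)) e
 (c z e
 (c z e
 (c (a (nat_lit 0x2a4078c5164c245)) e e)))))))))))))
 (c z
 (c z e
 (c (b (nat_lit 0x1ab1523fe16dcb45))
 (c (a (nat_lit 0xaedcd10e64a6d0aa9)) e e)
 (c z e
 (c z e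
 (c z e
 (c (a (nat_lit 0x3a406788e0e6a26)) e
 (c z e
 (c (a (nat_lit 0xddbd8b953235c06)) e
 (c (a (nat_lit 0x12d0f9f7ac9d9546)) e e)))))))))
 (c z
 (c (a (nat_lit 0x6474787e8069066))
 (c (a (nat_lit 0xf355f770c2d91b4e7)) e e)
 (c z e
 (c z e
 (c z e
 (c z e
 (c z e
 (c (a (nat_lit 0x103291528bead727)) e
 (c (a (nat_lit 0x7296b68046c1d27)) e
 (c (a (nat_lit 0x4a565e427e67408)) e e)))))))))
 (c (a (nat_lit 0x202020203646))
 (c z e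
 (c z e
 (c z e
 (c z e
 (c z e
 (c (b (nat_lit 0x989ffe5f03686)) e e))))))
 (c (a (nat_lit 0x20202033c686))
 (c z e
 (c z e
 (c (a (nat_lit 0xa226220a718845)) e e)))
 (c (a (nat_lit 0x202037cac105))
 (c (a (nat_lit 0x2c8cf97bf0c84)) e e)
 (c (a (nat_lit 0x3e696202e4))
 (c (a (nat_lit 0x632677cd0e24e5)) e e)
 (c (a (nat_lit 0x570086606e6a5)) e
 (c (a (nat_lit 0x18124f50300fe5))
 (c (a (nat_lit 0x11b175cbe61229a7)) e
 (c (a (nat_lit 0x12ea640a86000008)) e e))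
 (c (a (nat_lit 0xdaacfcf8f94e5))
 (c (a (nat_lit 0xa6331e3c0000007)) e e)
 (c z e
 (c z e
 (c z e
 (c z e
 (c z e
 (c (a (nat_lit 0x184d00a0408b64)) e
 (c (a (nat_lit 0x18a0804095b1c3)) e
 (c (a (nat_lit 0xa08136b31623)) e e))))))))))))))))))))))) Tr.c Tr.e (nat_lit 0) C.cx C.cy
noncomputable def C578 : Tr := beta% (fun (c : Nat → Tr → Tr → Tr) (e : Tr) (z : Nat) (a b : Nat → Nat) =>
 (c (a (nat_lit 0x6060406061))
 (c z
 (c z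
 (c z
 (c z e
 (c (a (nat_lit 0x12f5f3f3b3d151b3b444)) e e))
 (c (a (nat_lit 0x565a94a4e6e911ba4)) e
 (c (a (nat_lit 0x44507314e77bcefe4)) e
 (c z e
 (c z e
 (c z e
 (c z e
 (c z e
 (c z e
 (c z e
 (c z e
 (c z e
 (c z e
 (c z e
 (c z e
 (c (a (nat_lit 0xbad4d6e0e4dad9ba6)) e
 (c (a (nat_lit 0xbcc0cae2e6e977f66)) e e)))))))))))))))))
 (c (a (nat_lit 0x3a3c3c3c3c3d201))
 (c z e
 (c z e
 (c z e
 (c z e
 (c z e
 (c z e
 (c (a (nat_lit 0x4622484e1824a1086))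
 (c z e
 (c (a (nat_lit 0x4cb68c884c466b05409)) e e))
 (c z e
 (c z e
 (c z e
 (c (a (nat_lit 0x8498b4a294828d326)) e
 (c (a (nat_lit 0x546a6c6234524b586)) e
 (c (a (nat_lit 0x98a2a4987c7309b06)) e
 (c (a (nat_lit 0x1a2628383c5291148)) e e))))))))))))))
 (c (a (nat_lit 0x20202020328243))
 (c z e
 (c z e
 (c z e
 (c z e
 (c z e
 (c z e
 (c z e
 (c z e
 (c z e
 (c z e
 (c z e
 (c (a (nat_lit 0xb4aec278b95324e06)) e e))))))))))))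
 (c (a (nat_lit 0x14161617e296b43))
 (c z e
 (c z e
 (c z e
 (c z e
 (c z e
 (c z e
 (c z e
 (c z e
 (c z e
 (c z e
 (c (a (nat_lit 0x48401c1a366a2d5e7)) e
 (c z e
 (c z e
 (c (a (nat_lit 0x38344699940000008)) e e))))))))))))))
 (c (a (nat_lit 0x1212134ce05a1e4))
 (c z e
 (c z e
 (c z e
 (c z e
 (c z e
 (c z e
 (c (a (nat_lit 0x84a066c86c64ad2c6)) e
 (c z e
 (c z e
 (c (a (nat_lit 0x54282056544add2e8)) e e))))))))))
 (c (a (nat_lit 0x1011995452163c4))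
 (c z e
 (c z e
 (c z e
 (c z e
 (c z e
 (c z e
 (c (a (nat_lit 0x40830545026090c7)) e e)))))))
 (c (a (nat_lit 0x97bb5aaaa322e4))
 (c z e
 (c (a (nat_lit 0x911b1ad0d872d7866)) e
 (c z e
 (c z e
 (c (a (nat_lit 0xa88e76ee9f1af7bc6)) e
 (c (a (nat_lit 0x808738e6b4b5956a6)) e
 (c z e
 (c (a (nat_lit 0xe535030a930b4d4a6)) e e))))))))
 (c (a (nat_lit 0x1432d1a9c482c2a4))
 (c z e
 (c z e
 (c z e
 (c (a (nat_lit 0xaea2b8d0fac101427)) e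
 (c z e
 (c (a (nat_lit 0x6aa0727c8ab0d1587)) e e))))))
 (c z e
 (c z e
 (c z e
 (c z e
 (c z e
 (c (a (nat_lit 0xc714b0b4aa808a5)) e
 (c (a (nat_lit 0x136d4dcc8767a7c5)) e
 (c (a (nat_lit 0x1c1cbd78b7d7e325)) e e))))))))))))))))
 C577)
 (c (nat_lit 1)
 (c z
 (c (b (nat_lit 0x20202035e3ffe5))
 (c z e
 (c z e
 (c z e
 (c z e
 (c z e
 (c z e
 (c z e
 (c z e
 (c z e
 (c z e
 (c (a (nat_lit 0x4a4e225a7f0942dc6)) e e)))))))))))
 (c (a (nat_lit 0x20203c2f2ae3c7))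
 (c z e
 (c z e
 (c z e
 (c z e
 (c z e
 (c z e
 (c z e
 (c z e
 (c z e
 (c z e
 (c z e
 (c z e
 (c z e
 (c z e
 (c (b (nat_lit 0x1fe0a510600000000b)) e e)))))))))))))))
 (c (a (nat_lit 0x2038b34de2a147)) e e)))
 (c z
 (c (a (nat_lit 0x203db6104a8827)) e e)
 (c z e
 (c z e
 (c z e
 (c z e
 (c (a (nat_lit 0x2020202039c8))
 (c z e
 (c z e
 (c z e
 (c z e
 (c z e
 (c z e
 (c z e
 (c (a (nat_lit 0x424e8248a52acc9)) e e))))))))
 (c (a (nat_lit 0x2020203b2ee8)) e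
 (c (a (nat_lit 0x2020364c6728)) e
 (c (a (nat_lit 0x16171eba5c3c8)) e e))))))))))
 (c (a (nat_lit 0x2020000001))
 (c z e
 (c z e
 (c z e
 (c z e
 (c (a (nat_lit 0x202020203788)) e
 (c (a (nat_lit 0x2020203a2f08)) e
 (c (a (nat_lit 0x203f8ce848)) e
 (c (a (nat_lit 0x20348ae42588)) e e))))))))
 C576)))) Tr.c Tr.e (nat_lit 0) C.cx C.cy
noncomputable def C579 : Tr := beta% (fun (c : Nat → Tr → Tr → Tr) (e : Tr) (z : Nat) (a b : Nat → Nat) =>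
 (c (a (nat_lit 0x60606061))
 (c (a (nat_lit 0x2020203946))
 (c z e
 (c (a (nat_lit 0x44525cfd394a5))
 (c (a (nat_lit 0x354e0380000006)) e e)
 (c z e
 (c z e
 (c z e
 (c z e
 (c (a (nat_lit 0x108c4b08d8f4a6)) e e)))))))
 (c (a (nat_lit 0x2020124587))
 (c (a (nat_lit 0x200826c74cb05)) e
 (c z e
 (c z e
 (c z e
 (c (a (nat_lit 0x1032bbcd8370e6)) e
 (c (a (nat_lit 0x96787e90871c8)) e e))))))
 (c (a (nat_lit 0x20324602e8)) e
 (c z e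
 (c z e
 (c (a (nat_lit 0xe9890438506))
 (c z e
 (c (a (nat_lit 0x16364b27200008)) e e))
 (c (a (nat_lit 0x1954e86a7266))
 (c (a (nat_lit 0x1e8b2580000007)) e e)
 (c z e
 (c z e
 (c z e
 (c (a (nat_lit 0x1fda06406084)) e
 (c (a (nat_lit 0x19e620609464)) e
 (c (a (nat_lit 0x5c020743d04)) e
 (c z e
 (c z e
 (c (a (nat_lit 0xc3130f0d0c5)) e
 (c (a (nat_lit 0x90341200001)) e
 (c (a (nat_lit 0x14000000001)) e e))))))))))))))))))
 (c (a (nat_lit 0x60606061))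
 (c (a (nat_lit 0x13f18666))
 (c (a (nat_lit 0x20b492af40a5)) e
 (c z e
 (c z e
 (c z e
 (c (a (nat_lit 0x645c3e503b1e8)) e
 (c (a (nat_lit 0x7e5c94c35e9a7)) e e))))))
 (c (a (nat_lit 0xd554472127)) e
 (c z e
 (c z e
 (c (a (nat_lit 0x144601c18d46))
 (c (a (nat_lit 0x57144c7a2a008)) e
 (c (a (nat_lit 0x15a56620000008)) e e))
 (c (a (nat_lit 0xd68a914d226))
 (c (a (nat_lit 0x12c92000000005)) e e)
 (c z e
 (c z e
 (c (a (nat_lit 0x1392532d8e44)) e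
 (c (a (nat_lit 0x84a4020df43)) e
 (c (a (nat_lit 0x58060f1f0c4)) e
 (c z e
 (c z e
 (c z e
 (c (a (nat_lit 0x1724a0a08003)) e
 (c (a (nat_lit 0x1140e0000001)) e e))))))))))))))))
 (c (a (nat_lit 0x40404041))
 (c (a (nat_lit 0x1d1d4e28e026))
 (c (a (nat_lit 0x15f2d2ea06c186)) e
 (c (a (nat_lit 0xbf32ac70092a7)) e e))
 (c (a (nat_lit 0xf5508c023c6))
 (c (a (nat_lit 0x1c8d0b03d74ec7)) e e)
 (c z e
 (c z e
 (c z e
 (c z e
 (c (a (nat_lit 0x10ed900eed07)) e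
 (c (b (nat_lit 0x1feb606051c3)) e
 (c (a (nat_lit 0xb6060d21b83)) e
 (c z e
 (c z e
 (c z e
 (c (a (nat_lit 0x1304e0404023)) e
 (c (a (nat_lit 0x1320a0a00001)) e
 (c (a (nat_lit 0x2000000001)) e e)))))))))))))))
 (c (a (nat_lit 0xc0c0c0c1))
 (c (a (nat_lit 0x1ac323002364))
 (c (a (nat_lit 0x5e52118e99286)) e e)
 (c z e
 (c z e
 (c z e
 (c z e
 (c (a (nat_lit 0xd2e77150d07)) e
 (c (a (nat_lit 0xbe1e1c43043)) e
 (c z e
 (c z e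
 (c z e
 (c (a (nat_lit 0x140640604003)) e
 (c (a (nat_lit 0x16e060806001)) e
 (c (a (nat_lit 0x2120000001)) e e)))))))))))))
 (c (a (nat_lit 0x40606061))
 (c z e
 (c z e
 (c z e
 (c z e
 (c z e
 (c z e
 (c z e
 (c z e
 (c (a (nat_lit 0x12a82302e263)) e
 (c (a (nat_lit 0x16e162014061)) e
 (c (a (nat_lit 0x141000001)) e
 (c (a (nat_lit 0xa000000001)) e e))))))))))))
 (c (a (nat_lit 0x60606061))
 (c (a (nat_lit 0x1915fc3a89e5)) e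
 (c (a (nat_lit 0x113473a54647)) e
 (c z e
 (c z e
 (c z e
 (c z e
 (c (a (nat_lit 0x126d67878d84)) e
 (c (a (nat_lit 0x54322480821)) e
 (c (a (nat_lit 0x101c14001)) e
 (c (a (nat_lit 0x3a8c0000001)) e e))))))))))
 (c (a (nat_lit 0x40404041))
 (c (a (nat_lit 0x632f3140003)) e
 (c z e
 (c z e
 (c z e
 (c (a (nat_lit 0xac540e0bb24)) e
 (c (a (nat_lit 0x58400e08081)) e
 (c (a (nat_lit 0x8881418001)) e
 (c (a (nat_lit 0x881e0400001)) e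
 (c (a (nat_lit 0x1e000000001)) e e)))))))))
 (c (a (nat_lit 0x60606061))
 (c z e
 (c z e
 (c (a (nat_lit 0x6e320205065)) e
 (c (a (nat_lit 0xe200a08001)) e
 (c (a (nat_lit 0x20240a06001)) e
 (c (a (nat_lit 0x30160402001)) e
 (c (a (nat_lit 0x200a0000001)) e e)))))))
 (c (a (nat_lit 0x60606061))
 (c (a (nat_lit 0x32180203045)) e
 (c (a (nat_lit 0xc1a0806001)) e
 (c (a (nat_lit 0x2a0e0416001)) e
 (c (a (nat_lit 0x18160c06001)) e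
 (c (a (nat_lit 0x221e0600001)) e
 (c (a (nat_lit 0x10000000001)) e e))))))
 (c (a (nat_lit 0x40404041))
 (c (a (nat_lit 0xa060606041)) e
 (c (a (nat_lit 0xe0e0c0a0e1)) e
 (c (a (nat_lit 0xe0e0a08001)) e
 (c (a (nat_lit 0xa040000001)) e e))))
 (c (a (nat_lit 0x60606061))
 (c (a (nat_lit 0x8080608041)) e
 (c (a (nat_lit 0x100c0800001)) e
 (c (a (nat_lit 0x6000000001)) e e)))
 (c (a (nat_lit 0x60604061))
 (c (a (nat_lit 0x6040000001)) e e)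
 (c (a (nat_lit 0x20202021)) e
 (c (a (nat_lit 0x60404041)) e
 (c (a (nat_lit 0x60606081)) e
 (c (a (nat_lit 0x20203d04)) e
 (c (a (nat_lit 0x203d3344)) e
 (c (a (nat_lit 0x188c651a6)) e
 (c z e
 (c (a (nat_lit 0x5b1006066)) e
 (c (a (nat_lit 0x10c0200026)) e
 (c (b (nat_lit 0x1c1e3bfe1)) e e))))))))))))))))))))))) Tr.c Tr.e (nat_lit 0) C.cx C.cy
noncomputable def C580 : Tr := beta% (fun (c : Nat → Tr → Tr → Tr) (e : Tr) (z : Nat) (a b : Nat → Nat) =>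
 (c (a (nat_lit 0x80808081))
 (c (a (nat_lit 0x4040404041))
 (c (a (nat_lit 0x1ef23de0203564))
 (c (a (nat_lit 0x1a8942c0806331a4)) e
 (c (a (nat_lit 0x15f64aa96abb08c5)) e
 (c z e
 (c z e
 (c (a (nat_lit 0x228282440310a7)) e
 (c (a (nat_lit 0x2c640323959466)) e
 (c (a (nat_lit 0x100214033f1a027)) e
 (c (a (nat_lit 0x4ce86d49105ad46)) e e))))))))
 (c (a (nat_lit 0x1097c42455b5c6))
 (c z e
 (c z e
 (c z e
 (c z e
 (c z e
 (c (b (nat_lit 0x14140cc101fe089)) e e))))))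
 (c z e
 (c z e
 (c (b (nat_lit 0x2bd03fe02065))
 (c z e
 (c z e
 (c (b (nat_lit 0x1349dfe88f420008)) e e)))
 (c (a (nat_lit 0x1e98c1a2228504))
 (c (a (nat_lit 0xa30250644048208)) e
 (c (a (nat_lit 0x1763a94ac3800008)) e e))
 (c (a (nat_lit 0xec0802040f585))
 (c (a (nat_lit 0xc7f50480000006)) e e)
 (c z e
 (c z e
 (c z e
 (c (a (nat_lit 0x117675b20e8267)) e
 (c (a (nat_lit 0x13108f0b838427)) e
 (c (a (nat_lit 0xcc50040433785)) e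
 (c (a (nat_lit 0x520402377eaa5)) e e))))))))))))))
 (c (a (nat_lit 0x2020204041))
 (c z e
 (c z e
 (c z e
 (c z e
 (c z e
 (c z e
 (c z e
 (c z e
 (c z e
 (c z e
 (c z e
 (c (b (nat_lit 0x19e70320cfffe5)) e e))))))))))))
 (c (a (nat_lit 0x6060606061)) e
 (c (a (nat_lit 0x2020202021)) e
 (c (a (nat_lit 0x14141414141))
 (c z e
 (c z e
 (c (a (nat_lit 0x419e704498a5)) e
 (c z e
 (c z e
 (c z e
 (c z e
 (c z e
 (c (a (nat_lit 0xb0064bc0ae004)) e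
 (c (a (nat_lit 0x200b0e0000004)) e e))))))))))
 (c (a (nat_lit 0x4040404041))
 (c (a (nat_lit 0x1008f5138c6b05)) e
 (c (a (nat_lit 0x53a5465e54b25)) e
 (c z e
 (c z e
 (c z e
 (c z e
 (c (a (nat_lit 0xc7637eb65cd47)) e
 (c (a (nat_lit 0x1003a0a0800006)) e
 (c (a (nat_lit 0x13a02000000003)) e e)))))))))
 (c (a (nat_lit 0x20202030c7))
 (c (a (nat_lit 0x72644c0e071a6)) e
 (c z e
 (c z e
 (c z e
 (c (a (nat_lit 0xaaeefefef16c9)) e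
 (c (a (nat_lit 0xf70366f546008)) e
 (c (a (nat_lit 0x914a060000005)) e e)))))))
 (c (a (nat_lit 0x20203427e7)) e
 (c (a (nat_lit 0x12ea8707)) e
 (c z e
 (c z e
 (c (a (nat_lit 0x147517284846)) e
 (c (a (nat_lit 0x13cf00202a86)) e
 (c (a (nat_lit 0x1e0040555185)) e
 (c z e
 (c z e
 (c (a (nat_lit 0x10cd04616104)) e
 (c (a (nat_lit 0x174780606263)) e
 (c (a (nat_lit 0x7c0c084b583)) e e)))))))))))))))))))
 (c (a (nat_lit 0x40404041))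
 (c (a (nat_lit 0x2040204041))
 (c z e
 (c z e
 (c z e
 (c z e
 (c z e
 (c z e
 (c z e
 (c z e
 (c z e
 (c z e
 (c z e
 (c (a (nat_lit 0xde6668e6e5545)) e e))))))))))))
 (c (a (nat_lit 0x6060606061)) e
 (c (a (nat_lit 0x2020202021)) e
 (c (a (nat_lit 0x4040404041)) e
 (c (a (nat_lit 0x20202035e7))
 (c z e
 (c z e
 (c z e
 (c z e
 (c z e
 (c z e
 (c (a (nat_lit 0xc328f5153a007)) e e)))))))
 (c (a (nat_lit 0x2020358847))
 (c (a (nat_lit 0x3e483e6789446)) e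
 (c z e
 (c z e
 (c z e
 (c z e
 (c z e
 (c (a (nat_lit 0x14a98000000005)) e e)))))))
 (c (a (nat_lit 0x20397184e7)) e
 (c z e
 (c z e
 (c z e
 (c z e
 (c z e
 (c z e
 (c z e
 (c (a (nat_lit 0x1c55ab682865)) e
 (c (a (nat_lit 0x1b06a0408344)) e
 (c (a (nat_lit 0x3402041b7c5)) e e)))))))))))))))))
 (c (a (nat_lit 0x40404041))
 (c (a (nat_lit 0x4040404041))
 (c (a (nat_lit 0x1542404153e563))
 (c (a (nat_lit 0x468594a88aee746)) e e) e)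
 (c (a (nat_lit 0xa0a0a0a0a1)) e
 (c (a (nat_lit 0x2020203287))
 (c (a (nat_lit 0xe02060e09408))
 (c (a (nat_lit 0x149acf0360000005)) e e) e)
 (c (a (nat_lit 0x2020388d67)) e
 (c (a (nat_lit 0x20310a6388)) e
 (c z e
 (c z e
 (c z e
 (c z e
 (c z e
 (c z e
 (c z e
 (c z e
 (c (a (nat_lit 0x78540205404)) e
 (c (a (nat_lit 0xbe6661ad224)) e
 (c z e
 (c z e
 (c z e
 (c (b (nat_lit 0x1fe140000001)) e e)))))))))))))))))))
 C579)))) Tr.c Tr.e (nat_lit 0) C.cx C.cy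
noncomputable def C581 : Tr := beta% (fun (c : Nat → Tr → Tr → Tr) (e : Tr) (z : Nat) (a b : Nat → Nat) =>
 (c (a (nat_lit 0x2020202021))
 (c (a (nat_lit 0x404040405c25))
 (c (a (nat_lit 0xb55880c618057a3))
 (c z e
 (c z e
 (c z e
 (c z e
 (c z e
 (c (a (nat_lit 0x8c9b0a4e427022687)) e e))))))
 (c (a (nat_lit 0x13680cc18112d725))
 (c (a (nat_lit 0xf6fef8cff59d1bbe7)) e
 (c z e
 (c z e
 (c z e
 (c z e
 (c (a (nat_lit 0x17ec33a7462b504cc7)) e e))))))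
 (c z e
 (c z e
 (c z e
 (c z e
 (c (a (nat_lit 0xd992c2f03c19004)) e
 (c z e
 (c (a (nat_lit 0xcac8ff24b6b1aa5)) e
 (c z e
 (c (a (nat_lit 0xb4b69c0c9327225)) e
 (c (a (nat_lit 0x3e3496e0d097206)) e
 (c (a (nat_lit 0x649d350622c1046)) e e)))))))))))))
 (c (a (nat_lit 0x202020340ac7))
 (c (a (nat_lit 0x70ac0a2a896ee66))
 (c (a (nat_lit 0x106f8af87614bdce27)) e
 (c z e
 (c z e
 (c z e
 (c (a (nat_lit 0x1738f34e8c52136cc9)) e
 (c (a (nat_lit 0xeb4c5c4a566a94148)) e e))))))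
 (c z e
 (c z e
 (c z e
 (c (a (nat_lit 0x121c28aca4d2ff66))
 (c z e
 (c (a (nat_lit 0x181e6f484720000008)) e e))
 (c (a (nat_lit 0xb41eb0140c55806)) e
 (c z e
 (c (a (nat_lit 0x6e6c966054bb9a7)) e
 (c z e
 (c (a (nat_lit 0x96881c6b94d06c7)) e
 (c (b (nat_lit 0x1fe82a5629ee3647)) e e)))))))))))
 (c (a (nat_lit 0x2020394dc687))
 (c z e
 (c z e
 (c z e
 (c z e
 (c z e
 (c (b (nat_lit 0x11c03fffe6c24686)) e e))))))
 (c (a (nat_lit 0x1011009e3e5c8))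
 (c z e
 (c z e
 (c z e
 (c z e
 (c z e
 (c (a (nat_lit 0xc686ebc69c609a6)) e e))))))
 (c z e
 (c (a (nat_lit 0x1a68c549436687))
 (c z e
 (c (a (nat_lit 0x1dd95993f07cc5c7)) e
 (c z e
 (c z e
 (c z e
 (c z e
 (c (a (nat_lit 0xeeaac9106200008)) e e)))))))
 (c (a (nat_lit 0x1a097464af6d45))
 (c (a (nat_lit 0xabbc76471640466)) e
 (c z e
 (c z e
 (c z e
 (c (a (nat_lit 0xf8a82513ecee007)) e
 (c (a (nat_lit 0x182876a980000007)) e e))))))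
 (c z e
 (c z e
 (c z e
 (c (a (nat_lit 0x173236e9269865)) e
 (c (a (nat_lit 0xaec294fd11207)) e
 (c z e
 (c z e
 (c z e
 (c z e
 (c (a (nat_lit 0x19f60de08ecbc5)) e e)))))))))))))))))
 (c (a (nat_lit 0x20202021))
 (c (a (nat_lit 0x40405bf2cd47))
 (c (a (nat_lit 0x8204043924bee26))
 (c z e
 (c z e
 (c z e
 (c z e
 (c (a (nat_lit 0x12ef8a0aeb8f8a6629)) e
 (c (a (nat_lit 0x10a62403e46742e248)) e e))))))
 (c z e
 (c z e
 (c z e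
 (c (a (nat_lit 0x19f251cefa1b2906))
 (c (a (nat_lit 0x1378a9c76caa400008)) e
 (c (a (nat_lit 0x1e0841822000000008)) e e))
 (c (a (nat_lit 0x60beb118bf3ff06)) e
 (c z e
 (c z e
 (c z e
 (c (a (nat_lit 0x962a4f2ce8fb087)) e
 (c (a (nat_lit 0x86c86495c5e6de7)) e e)))))))))))
 (c (a (nat_lit 0x2021c328b8d08)) e
 (c z e
 (c z e
 (c (a (nat_lit 0x124c7405c96b87))
 (c (a (nat_lit 0xf338ef6538c1c47)) e
 (c (b (nat_lit 0x54cacc6a3d2ffe8)) e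
 (c z e
 (c z e
 (c z e
 (c z e
 (c (a (nat_lit 0x11ca84e5a0000009)) e e)))))))
 (c (a (nat_lit 0x10fb66cc7438c6))
 (c (a (nat_lit 0x164ca2a20b61c027)) e
 (c z e
 (c z e
 (c z e
 (c (a (nat_lit 0xfe1e9ffce400007)) e
 (c (a (nat_lit 0x17d1f52000000007)) e e))))))
 (c z e
 (c z e
 (c z e
 (c (a (nat_lit 0xb2e25692a1247)) e
 (c (a (nat_lit 0xa05a90c102b48)) e
 (c z e
 (c z e
 (c z e
 (c (a (nat_lit 0x198cafa46c2bc6)) e
 (c (a (nat_lit 0x161c45b5543c65)) e e))))))))))))))))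
 (c (a (nat_lit 0x4040404041))
 (c z e
 (c z e
 (c z e
 (c z e
 (c z e
 (c z e
 (c z e
 (c z e
 (c z e
 (c z e
 (c z e
 (c z e
 (c z e
 (c (a (nat_lit 0x19d36c4b2a6b07)) e e))))))))))))))
 (c (a (nat_lit 0x4040404041)) e
 (c (a (nat_lit 0x4060606061)) e
 (c (a (nat_lit 0x2020202021))
 (c (a (nat_lit 0x17177bc92024c5))
 (c z e
 (c (b (nat_lit 0x81dfe97168a968)) e e))
 (c (b (nat_lit 0x1176e308bfea46))
 (c (a (nat_lit 0xa10b176e1014e7)) e e)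
 (c z e
 (c z e
 (c z e
 (c z e
 (c (a (nat_lit 0x744e4e8d355e8)) e
 (c z e
 (c z e
 (c z e
 (c z e
 (c (a (nat_lit 0x148b6f23400007)) e e))))))))))))
 (c (nat_lit 1)
 (c (a (nat_lit 0x17e94a07e82605))
 (c (a (nat_lit 0x32f5c4e4d67a7a5)) e e)
 (c z e
 (c z e
 (c z e
 (c (a (nat_lit 0x80b2741a9f346)) e
 (c (a (nat_lit 0x443e3cc8e1288)) e
 (c z e
 (c z e
 (c z e
 (c (a (nat_lit 0x5d08700602007)) e
 (c (a (nat_lit 0x1086a020000007)) e e)))))))))))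
 (c (a (nat_lit 0x2020202021))
 (c z e
 (c z e
 (c z e
 (c z e
 (c z e
 (c z e
 (c z e
 (c z e
 (c (a (nat_lit 0x1a74c1c0200006)) e e)))))))))
 (c (a (nat_lit 0x202021))
 (c (a (nat_lit 0x161dcda5dae204)) e
 (c z e
 (c z e
 (c z e
 (c z e
 (c z e
 (c (a (nat_lit 0x4fbf200606006)) e e)))))))
 (c (a (nat_lit 0x20406001)) e
 (c (a (nat_lit 0x2020203866))
 (c z e
 (c (a (nat_lit 0x425c58a2d9b48)) e e))
 (c (a (nat_lit 0x2020392986))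
 (c (a (nat_lit 0x2816044b4af48)) e e)
 (c (a (nat_lit 0x203462c106)) e
 (c z e
 (c z e
 (c (a (nat_lit 0xe8d05e13604)) e
 (c (a (nat_lit 0xce966b1ad25)) e
 (c z e
 (c z e
 (c z e
 (c (a (nat_lit 0x10710e6bd3a6)) e
 (c (a (nat_lit 0x13a9005eb7a4)) e e))))))))))))))))))))))) Tr.c Tr.e (nat_lit 0) C.cx C.cy
noncomputable def C582 : Tr := beta% (fun (c : Nat → Tr → Tr → Tr) (e : Tr) (z : Nat) (a b : Nat → Nat) =>
 (c (a (nat_lit 0x80808081))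
 (c (a (nat_lit 0x2020202021))
 (c z
 (c (a (nat_lit 0x29ecffc22c92a03))
 (c z e
 (c z e
 (c z e
 (c z e
 (c z e
 (c z e
 (c z e
 (c z e
 (c (a (nat_lit 0x3a2e402a2e3908627)) e
 (c (a (nat_lit 0x1e1a0a140d4640407)) e
 (c (a (nat_lit 0x44242c22390e948a7)) e
 (c (a (nat_lit 0x8eb072707fa4a2006)) e e))))))))))))
 (c z e
 (c z e
 (c z e
 (c z e
 (c z e
 (c z e
 (c z e
 (c z e
 (c z e
 (c z e
 (c (a (nat_lit 0xb6bb09410f1e5a5)) e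
 (c z e
 (c z e
 (c z e
 (c z e
 (c z e
 (c (a (nat_lit 0x11b1c14000000004)) e e))))))))))))))))))
 (c z
 (c z e
 (c z e
 (c z e
 (c z e
 (c z e
 (c z e
 (c z e
 (c z e
 (c z e
 (c z e
 (c z e
 (c (a (nat_lit 0x1ad0595892f1a066)) e e))))))))))))
 (c z
 (c z e
 (c z e
 (c z e
 (c z e
 (c z e
 (c z e
 (c z e
 (c z e
 (c (a (nat_lit 0x13aaa8e70204f1e7)) e e)))))))))
 (c (a (nat_lit 0x202020203767))
 (c z e
 (c z e
 (c z e
 (c z e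
 (c z e
 (c z e
 (c (a (nat_lit 0x8b048c1e1e90046)) e e)))))))
 (c (a (nat_lit 0x202020350ca7)) e
 (c (a (nat_lit 0x2020304c0568))
 (c z e
 (c z e
 (c z e
 (c z e
 (c z e
 (c (a (nat_lit 0x18498eee490a4627)) e e))))))
 (c (a (nat_lit 0x1011024e2c668)) e e)))))))
 (c (a (nat_lit 0x2020000001))
 (c z e
 (c (a (nat_lit 0x202020203348)) e
 (c (a (nat_lit 0x202020366ce8)) e
 (c (a (nat_lit 0x20203bd1e548)) e
 (c (a (nat_lit 0x101108a63e589)) e e)))))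
 (c (a (nat_lit 0x2020202021))
 (c (a (nat_lit 0x202020330ae7))
 (c z e
 (c z e
 (c z e
 (c z e
 (c z e
 (c z e
 (c z e
 (c z e
 (c z e
 (c z e
 (c (a (nat_lit 0x24ec26c8481b27)) e e)))))))))))
 (c (a (nat_lit 0x20203ff50dc8)) e
 (c (a (nat_lit 0x2021f15a9ab68)) e e)))
 (c (a (nat_lit 0x6060606061))
 (c (a (nat_lit 0x203c950c4ca7)) e e)
 (c (a (nat_lit 0x2020202021)) e
 (c (a (nat_lit 0x4040404041)) e
 (c (nat_lit 1) e
 (c (nat_lit 1) e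
 (c (a (nat_lit 0x4040202021)) e
 (c (a (nat_lit 0x200001)) e
 (c (a (nat_lit 0x20204041)) e
 (c (a (nat_lit 0x4040404041)) e
 (c (a (nat_lit 0x2020203846))
 (c (a (nat_lit 0x124c360411a07)) e e)
 (c (a (nat_lit 0x202030c366)) e
 (c (a (nat_lit 0x3e63a045)) e e)))))))))))))))
 (c (a (nat_lit 0x80808081)) C581
 (c (a (nat_lit 0x60606061))
 (c (nat_lit 1)
 (c (a (nat_lit 0x161704ce96846))
 (c (a (nat_lit 0x9090952700eaac5)) e
 (c z e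
 (c z e
 (c z e
 (c (a (nat_lit 0x19d0cc3a89ee2805)) e
 (c (a (nat_lit 0x8668c4d8c504a26)) e
 (c z e
 (c z e
 (c (a (nat_lit 0x300248b51c48886)) e
 (c (a (nat_lit 0x2e2c3eea6687b86)) e
 (c (a (nat_lit 0x7c461a8e730e467)) e e)))))))))))
 (c z e
 (c z e
 (c z e
 (c (a (nat_lit 0xdd4a3646b0e86))
 (c (a (nat_lit 0xa70504db77fd5c6)) e
 (c (a (nat_lit 0xd89af96d2b96a27)) e
 (c z e
 (c z e
 (c z e
 (c (a (nat_lit 0x15d892786ec00007)) e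
 (c (a (nat_lit 0x1ecccd0000000007)) e e)))))))
 (c (b (nat_lit 0x1c4585d71e5fe5))
 (c (a (nat_lit 0x521a3a355c68407)) e
 (c z e
 (c z e
 (c z e
 (c (a (nat_lit 0x140d898700000008)) e
 (c (a (nat_lit 0x154ac00000000007)) e e))))))
 (c z e
 (c z e
 (c z e
 (c (a (nat_lit 0x1064c4cc5d95a6)) e
 (c (a (nat_lit 0x262cdb6708ea7)) e
 (c z e
 (c z e
 (c (a (nat_lit 0x1acc0bc6658da5)) e
 (c (a (nat_lit 0xf8f49e91152c5)) e
 (c (a (nat_lit 0xa65246c6e12c5)) e e))))))))))))))))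
 (c (a (nat_lit 0x2020202021))
 (c (a (nat_lit 0x17b28c10676007))
 (c (a (nat_lit 0xaf612870788ac07))
 (c (a (nat_lit 0x9954484c407687ae7)) e
 (c (a (nat_lit 0x120765a3c6e7ed29a9)) e e))
 (c z e
 (c z e
 (c z e
 (c z e
 (c (b (nat_lit 0x1fffed6dc616aca7)) e
 (c (b (nat_lit 0x21fe6a66971d268)) e e)))))))
 (c z e
 (c z e
 (c z e
 (c z e
 (c (a (nat_lit 0x5b2f482c02006))
 (c z e
 (c (a (nat_lit 0x1ad3cb8b69cac009)) e e))
 (c (a (nat_lit 0xf15c12181aa06))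
 (c (a (nat_lit 0x15134d7368400008)) e e)
 (c z e
 (c z e
 (c z e
 (c z e
 (c (a (nat_lit 0xcf758ad4b2928)) e
 (c (a (nat_lit 0x17af65c7478e67)) e
 (c (a (nat_lit 0x13e0c024320de6)) e e))))))))))))))
 (c (a (nat_lit 0x4040404041))
 (c z e
 (c z e
 (c z e
 (c z e
 (c z e
 (c z e
 (c z e
 (c z e
 (c z e
 (c z e
 (c z e
 (c (a (nat_lit 0x124ba6c0202007)) e e))))))))))))
 (c (a (nat_lit 0x4040404041)) e
 (c (nat_lit 1)
 (c (a (nat_lit 0xe10c142c2e6a6))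
 (c z e
 (c (b (nat_lit 0x5ffe111330e88a7)) e e))
 (c (a (nat_lit 0x1b214065ce08c6))
 (c (a (nat_lit 0x2d9c131a4424a6)) e e)
 (c z e
 (c z e
 (c z e
 (c (a (nat_lit 0xbccad6cd6af28)) e
 (c (a (nat_lit 0x585cc12eaecc8)) e
 (c z e
 (c z e
 (c z e
 (c (a (nat_lit 0x2ea584423e005)) e
 (c (a (nat_lit 0xa144040000005)) e e))))))))))))
 (c (a (nat_lit 0x2020202021))
 (c (a (nat_lit 0x221493f004064))
 (c (a (nat_lit 0x2b2ee2340cac0e5)) e e)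
 (c z e
 (c z e
 (c z e
 (c (a (nat_lit 0xb0a6c8c10b5e6)) e
 (c (a (nat_lit 0x56513389f3147)) e
 (c z e
 (c z e
 (c (a (nat_lit 0x3fa324062a166)) e
 (c (a (nat_lit 0x1a520061800006)) e
 (c (a (nat_lit 0x10a02000000006)) e e)))))))))))
 (c (a (nat_lit 0x2020202021))
 (c z e
 (c (a (nat_lit 0x1f734a60a08385)) e
 (c z e
 (c z e
 (c z e
 (c z e
 (c z e
 (c (a (nat_lit 0xdfa096322c006)) e
 (c (a (nat_lit 0x17064040000006)) e e)))))))))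
 (c (a (nat_lit 0x4040606061))
 (c (a (nat_lit 0x1f1c0d4b45e163)) e
 (c z e
 (c z e
 (c z e
 (c z e
 (c (a (nat_lit 0x4ad940ce4f328)) e
 (c (a (nat_lit 0x164dccc0800006)) e e)))))))
 (c (a (nat_lit 0x2020203b66)) e
 (c (a (nat_lit 0x1bc9a6))
 (c (a (nat_lit 0x3c100a9362e47)) e
 (c (a (nat_lit 0xe2840b163768)) e e))
 (c (a (nat_lit 0x350be626))
 (c (a (nat_lit 0x4a183d3538548)) e e)
 (c (b (nat_lit 0x17aa28ffe5)) e
 (c (a (nat_lit 0x12ec2c264006)) e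
 (c (a (nat_lit 0x12d68d406085)) e
 (c (a (nat_lit 0x164d00407025)) e
 (c (a (nat_lit 0xc60202f9165)) e
 (c z e
 (c z e
 (c (a (nat_lit 0x1033e2a0a0c5)) e
 (c (a (nat_lit 0x1321e0203805)) e
 (c (a (nat_lit 0x2a080b8a645)) e e)))))))))))))))))))))
 C580)))) Tr.c Tr.e (nat_lit 0) C.cx C.cy
noncomputable def C583 : Tr := beta% (fun (c : Nat → Tr → Tr → Tr) (e : Tr) (z : Nat) (a b : Nat → Nat) =>
 (c (a (nat_lit 0x2020202021))
 (c z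
 (c (a (nat_lit 0x666666663997543))
 (c z e
 (c z e
 (c z e
 (c z e
 (c z e
 (c z e
 (c z e
 (c z e
 (c z e
 (c z e
 (c z e
 (c z e
 (c (a (nat_lit 0x5e627480fce27b6a6)) e e)))))))))))))
 (c (a (nat_lit 0x20202c508ca185)) e
 (c (a (nat_lit 0x2033598f466845)) e
 (c z e
 (c z e
 (c z e
 (c z e
 (c z e
 (c z e
 (c z e
 (c z e
 (c z e
 (c z e
 (c z e
 (c (b (nat_lit 0x1092517fe8488326)) e
 (c (a (nat_lit 0x104f102fc804c526)) e e))))))))))))))))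
 (c z
 (c (a (nat_lit 0x5656e32ce8a8426))
 (c z e
 (c z e
 (c z e
 (c z e
 (c z e
 (c z e
 (c z e
 (c z e
 (c (a (nat_lit 0x7c86db32bcbe9cc07)) e e)))))))))
 (c z e
 (c z e
 (c z e
 (c z e
 (c z e
 (c z e
 (c z e
 (c z e
 (c z e
 (c z e
 (c z e
 (c z e
 (c z e
 (c z e
 (c (a (nat_lit 0x7c826e91ee2c483)) e e))))))))))))))))
 (c z
 (c z e
 (c z e
 (c z e
 (c z e
 (c z e
 (c z e
 (c z e
 (c z e
 (c z e
 (c z e
 (c (a (nat_lit 0x1313326fe5e9e6c7)) e e)))))))))))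
 (c z
 (c z e
 (c z e
 (c z e
 (c z e
 (c z e
 (c z e
 (c z e
 (c z e
 (c z e
 (c (a (nat_lit 0x10ac6f45a6274027)) e e))))))))))
 (c z
 (c z e
 (c z e
 (c z e
 (c z e
 (c z e
 (c z e
 (c z e
 (c (a (nat_lit 0x933ebc82140c1c7)) e e))))))))
 (c z
 (c z e
 (c z e
 (c z e
 (c z e
 (c z e
 (c (a (nat_lit 0x285d1c36100c087)) e e))))))
 (c (a (nat_lit 0x1467))
 (c z e
 (c z e
 (c z e
 (c z e
 (c z e
 (c z e
 (c (b (nat_lit 0xc4e0fdfe4760ac7)) e e)))))))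
 (c (a (nat_lit 0x20202037aaa7)) e
 (c (a (nat_lit 0x161617cd443a6)) e
 (c (a (nat_lit 0x2223f36e469a6)) e e))))))))))
 (c (a (nat_lit 0x2020202021))
 (c z e
 (c z e
 (c z e
 (c z e
 (c (a (nat_lit 0x2020202033e8)) e
 (c (a (nat_lit 0x202020372d08)) e
 (c (a (nat_lit 0x20203f886468)) e
 (c (a (nat_lit 0x3839eb4052bc7)) e e))))))))
 (c (a (nat_lit 0x2020202021))
 (c z
 (c z e
 (c z e
 (c z e
 (c z e
 (c z e
 (c z e
 (c z e
 (c z e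
 (c z e
 (c (a (nat_lit 0x11aeab87ab052967)) e e))))))))))
 (c z e
 (c (a (nat_lit 0x202020203968))
 (c z e
 (c z e
 (c z e
 (c z e
 (c z e
 (c z e
 (c (b (nat_lit 0x17100a7fe2a960a7)) e e)))))))
 (c (a (nat_lit 0x20202038ed88)) e
 (c (a (nat_lit 0x202030a96289)) e
 (c (a (nat_lit 0x203debe6e868)) e e))))))
 (c (a (nat_lit 0x2020202021))
 (c (a (nat_lit 0x202020203467)) e
 (c (a (nat_lit 0x2020203a2d68)) e
 (c (a (nat_lit 0x20203029a309)) e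
 (c (a (nat_lit 0x203bd3c60828)) e e))))
 (c (a (nat_lit 0x4040404041))
 (c (a (nat_lit 0x20203ed2e8e7)) e
 (c (a (nat_lit 0x101104c4505c9))
 (c z e
 (c z e
 (c z e
 (c z e
 (c (b (nat_lit 0x78496bffa06fbc7)) e e))))) e))
 (c (a (nat_lit 0x4040404041)) e
 (c (a (nat_lit 0x2020202021)) e
 (c (a (nat_lit 0x2020202021)) e
 (c (a (nat_lit 0x6060606061)) e
 (c (a (nat_lit 0x6080808081)) e
 (c (a (nat_lit 0x200001)) e
 (c (a (nat_lit 0x20204021)) e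
 (c (a (nat_lit 0xa0a0a0a0a1)) e
 (c (a (nat_lit 0x4040402021)) e
 (c (a (nat_lit 0x2020203b66)) e
 (c (a (nat_lit 0x202039e4c6))
 (c (a (nat_lit 0x13b2741a200008)) e
 (c (a (nat_lit 0x1120a000000001)) e e))
 (c (a (nat_lit 0x203065e2a7)) e e)))))))))))))))))) Tr.c Tr.e (nat_lit 0) C.cx C.cy
noncomputable def C584 : Tr := beta% (fun (c : Nat → Tr → Tr → Tr) (e : Tr) (z : Nat) (a b : Nat → Nat) =>
 (c (a (nat_lit 0x2020202021))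
 (c z
 (c z e
 (c z e
 (c z e
 (c z e
 (c z e
 (c z e
 (c z e
 (c z e
 (c z e
 (c z e
 (c z e
 (c z e
 (c z e
 (c z e
 (c z e
 (c (a (nat_lit 0x1dbca0e0c0200004)) e e))))))))))))))))
 (c z e
 (c z e
 (c (a (nat_lit 0x202020203888)) e
 (c (a (nat_lit 0x20202039ec08)) e
 (c (a (nat_lit 0x20203de942e8)) e
 (c (a (nat_lit 0x101166bc1e348)) e e)))))))
 (c (a (nat_lit 0x2020202021))
 (c z
 (c z e
 (c z e
 (c z e
 (c z e
 (c z e
 (c z e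
 (c z e
 (c z e
 (c z e
 (c (a (nat_lit 0x9ea0e1308072d07)) e e))))))))))
 (c (a (nat_lit 0x2020202038e8))
 (c (a (nat_lit 0x485e2a2428437e7)) e e)
 (c (a (nat_lit 0x202020376bc8)) e
 (c (a (nat_lit 0x20203cd4e428))
 (c z e
 (c z e
 (c z e
 (c (a (nat_lit 0x685cd2dd07ff3c7)) e e))))
 (c (a (nat_lit 0x2a2bfcfe82a08)) e
 (c z e
 (c z e
 (c z e
 (c z e
 (c z e
 (c z e
 (c z e
 (c z e
 (c z e
 (c z e
 (c z e
 (c z e
 (c z e
 (c (a (nat_lit 0x11b76765e0a005)) e e)))))))))))))))))))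
 (c (a (nat_lit 0x6060606061))
 (c (a (nat_lit 0x20202038ad87))
 (c (a (nat_lit 0xb850485ef928525))
 (c z e
 (c (a (nat_lit 0xce463c893cbe68028)) e
 (c z e
 (c z e
 (c (a (nat_lit 0x1600a38c4d47822728)) e
 (c (a (nat_lit 0x134940646982200007)) e e))))))
 (c z e
 (c z e
 (c z e
 (c z e
 (c z e
 (c (a (nat_lit 0x190f0283f1b20f25)) e
 (c z e
 (c z e
 (c z e
 (c z e
 (c (a (nat_lit 0x1282724d1c00008)) e
 (c (a (nat_lit 0x1066c0a000000006)) e e)))))))))))))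
 (c (a (nat_lit 0x2020322cc329)) e
 (c (a (nat_lit 0x101120d436529)) e
 (c z e
 (c z e
 (c z e
 (c z e
 (c z e
 (c z e
 (c z e
 (c z e
 (c z e
 (c (a (nat_lit 0xac0a0860c31a5)) e
 (c z e
 (c z e
 (c z e
 (c (a (nat_lit 0x5335fe323c385)) e
 (c (a (nat_lit 0x109d0020400005)) e
 (c (a (nat_lit 0x1ba02000000005)) e e)))))))))))))))))))
 (c (a (nat_lit 0x6060606061))
 (c (a (nat_lit 0xa0b2afe58508))
 (c z e
 (c z e
 (c z e
 (c z e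
 (c (a (nat_lit 0xaa97653aeae76c6)) e e)))))
 (c z e
 (c z e
 (c z e
 (c z e
 (c z e
 (c z e
 (c z e
 (c z e
 (c z e
 (c z e
 (c z e
 (c z e
 (c z e
 (c z e
 (c (a (nat_lit 0x1f854020202006)) e
 (c (a (nat_lit 0x14608040000004)) e e)))))))))))))))))
 (c (a (nat_lit 0x4040404041)) e
 (c (nat_lit 1) e
 (c (a (nat_lit 0x4040404041)) e
 (c (a (nat_lit 0x4040406061))
 (c (a (nat_lit 0x1b198de7c6cba5))
 (c (b (nat_lit 0x1ffef4a6492581e7)) e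
 (c (a (nat_lit 0xe90090a64a00008)) e e))
 (c (a (nat_lit 0x1387e322236b86))
 (c (a (nat_lit 0x1253750620000007)) e e) e))
 (c (a (nat_lit 0x202001))
 (c (a (nat_lit 0x12c9e7eb3837c4))
 (c (a (nat_lit 0x1318e20000000005)) e e)
 (c z e
 (c z e
 (c z e
 (c z e
 (c z e
 (c (a (nat_lit 0x14a120608b1065)) e e)))))))
 (c (a (nat_lit 0x4060406041)) e
 (c (a (nat_lit 0x2021))
 (c (a (nat_lit 0xa50b4adcd4926)) e
 (c (a (nat_lit 0xbd3b190eb68c7)) e e))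
 (c (a (nat_lit 0x2020202021))
 (c (a (nat_lit 0x62625e3c2b0e7)) e e)
 (c (a (nat_lit 0x6060406061))
 (c z e
 (c z e
 (c (a (nat_lit 0x1938dad8c00008)) e
 (c (a (nat_lit 0x1f80c000000001)) e e))))
 (c (a (nat_lit 0x3966))
 (c (a (nat_lit 0x13f493975a6008)) e
 (c (a (nat_lit 0x10c02020000005)) e
 (c (a (nat_lit 0x200000000001)) e e)))
 (c (a (nat_lit 0x2020304767)) e
 (c (a (nat_lit 0x2030476127)) e
 (c z e
 (c z e
 (c (a (nat_lit 0x1d23caa02045)) e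
 (c (a (nat_lit 0x8d6a1622844)) e
 (c z e
 (c z e
 (c z e
 (c z e
 (c (a (nat_lit 0x126fe2402045)) e
 (c (a (nat_lit 0x1fa400400004)) e e))))))))))))))))))))))))))) Tr.c Tr.e (nat_lit 0) C.cx C.cy
noncomputable def C585 : Tr := beta% (fun (c : Nat → Tr → Tr → Tr) (e : Tr) (z : Nat) (a b : Nat → Nat) =>
 (c z
 (c (a (nat_lit 0x20202020203746))
 (c z e
 (c z e
 (c z e
 (c z e
 (c z e
 (c z e
 (c z e
 (c z e
 (c z e
 (c z e
 (c (a (nat_lit 0xacd8bcba98a8d50c6)) e e)))))))))))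
 (c (a (nat_lit 0x202020203e6c27)) e
 (c (a (nat_lit 0x2020203047a468)) e
 (c (a (nat_lit 0x2020314a4522e8)) e
 (c (a (nat_lit 0x20344d26040108)) e
 (c z e
 (c z e
 (c z e
 (c z e
 (c z e
 (c z e
 (c z e
 (c z e
 (c z e
 (c z e
 (c z e
 (c (a (nat_lit 0xb4b92b36a48e6e5)) e
 (c z e
 (c z e
 (c (a (nat_lit 0x18c805a245a06004)) e e))))))))))))))))))))
 (c z
 (c (a (nat_lit 0x20202032474267))
 (c z e
 (c z e
 (c z e
 (c z e
 (c z e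
 (c z e
 (c z e
 (c (a (nat_lit 0xc4663e405552bc4c6)) e
 (c z e
 (c (a (nat_lit 0xf8faf1690ca8e0c46)) e
 (c (a (nat_lit 0x1212b0ed73a7899806)) e e)))))))))))
 (c (a (nat_lit 0x20203026a22348)) e
 (c (a (nat_lit 0x10111cbc5a60448))
 (c z e
 (c z e
 (c z e
 (c z e
 (c z e
 (c z e
 (c z e
 (c z e
 (c (b (nat_lit 0x982117fe6efc2d007)) e e)))))))))
 (c z e
 (c z e
 (c z e
 (c z e
 (c z e
 (c z e
 (c z e
 (c z e
 (c z e
 (c z e
 (c (a (nat_lit 0x1a1a312f6e26e468)) e e))))))))))))))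
 (c z
 (c (a (nat_lit 0x203b8d054401e6))
 (c z e
 (c z e
 (c z e
 (c z e
 (c z e
 (c z e
 (c z e
 (c z e
 (c (a (nat_lit 0x9874584c5e2e81ee7)) e
 (c (a (nat_lit 0x724a504e364af1527)) e e))))))))))
 (c z e
 (c z e
 (c z e
 (c z e
 (c z e
 (c z e
 (c z e
 (c z e
 (c z e
 (c z e
 (c z e
 (c z e
 (c z e
 (c (a (nat_lit 0x19ec81238044e0e5)) e e)))))))))))))))
 (c z
 (c z e
 (c z e
 (c z e
 (c z e
 (c z e
 (c z e
 (c z e
 (c z e
 (c z e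
 (c z e
 (c (a (nat_lit 0xfb133702760a387)) e
 (c z e
 (c z e
 (c (a (nat_lit 0x14afc065e2100444)) e e))))))))))))))
 (c z
 (c z e
 (c z e
 (c z e
 (c z e
 (c z e
 (c z e
 (c (a (nat_lit 0x6248589fd4d87a6))
 (c (a (nat_lit 0x1431e7400000000007)) e e)
 (c z e
 (c z e
 (c z e
 (c z e
 (c z e
 (c (a (nat_lit 0xe448bb36e6de5c5)) e e)))))))))))))
 (c z
 (c z e
 (c z e
 (c z e
 (c z e
 (c z e
 (c z e
 (c z e
 (c z e
 (c (b (nat_lit 0x9b6cdbfed65d5e7)) e e)))))))))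
 (c z e
 (c z
 (c z e
 (c z e
 (c z e
 (c z e
 (c (a (nat_lit 0xe7aadcf472f406)) e e)))))
 (c (a (nat_lit 0x202020203187)) e
 (c (a (nat_lit 0x2020203eeae6))
 (c (a (nat_lit 0x1208915a7ea0d84)) e e)
 (c (a (nat_lit 0x20203e688066))
 (c (a (nat_lit 0x203c572e8ede5)) e
 (c z e
 (c z e
 (c z e
 (c z e
 (c z e
 (c (a (nat_lit 0x1eeba00000000005)) e e)))))))
 (c (a (nat_lit 0x1a1b609a1a506)) e
 (c z e
 (c z e
 (c z e
 (c z e
 (c z e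
 (c z e
 (c z e
 (c z e
 (c (a (nat_lit 0x130bc020406ae5)) e
 (c (a (nat_lit 0x16c02080b593e4)) e e))))))))))))))))))))))) Tr.c Tr.e (nat_lit 0) C.cx C.cy
noncomputable def C586 : Tr := beta% (fun (c : Nat → Tr → Tr → Tr) (e : Tr) (z : Nat) (a b : Nat → Nat) =>
 (c (a (nat_lit 0x8080808081))
 (c z
 (c z
 (c (a (nat_lit 0x1414068b51909615e3)) e
 (c z e
 (c z e
 (c z e
 (c z e
 (c z e
 (c z e
 (c z e
 (c z e
 (c z e
 (c z e
 (c z e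
 (c z e
 (c z e
 (c (a (nat_lit 0x281e60b8c4aa8f1a5)) e e)))))))))))))))
 (c z
 (c z e
 (c z e
 (c z e
 (c z e
 (c z e
 (c z e
 (c z e
 (c z e
 (c z e
 (c z e
 (c (a (nat_lit 0x110f7032ce8d2cce06)) e e)))))))))))
 (c (a (nat_lit 0x202020202038e5))
 (c z e
 (c z e
 (c z e
 (c z e
 (c z e
 (c z e
 (c z e
 (c z e
 (c (a (nat_lit 0x148c08c9eb6b0bad87)) e
 (c (a (nat_lit 0x126cef0e2eae2eb3c6)) e e))))))))))
 (c (a (nat_lit 0x20202020346425)) e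
 (c (a (nat_lit 0x20202039ef66a5))
 (c z e
 (c z e
 (c z e
 (c z e
 (c z e
 (c z e
 (c z e
 (c z e
 (c (a (nat_lit 0x154fb229aaf36f4e06)) e e)))))))))
 (c (a (nat_lit 0x202035aba362a6)) e
 (c (a (nat_lit 0x203030cb45a186))
 (c z e
 (c z e
 (c z e
 (c (a (nat_lit 0x12232441a297668646)) e
 (c (a (nat_lit 0x2c3c342dae22b33a6)) e
 (c z e
 (c (a (nat_lit 0xe0a5d55cfce605306)) e e)))))))
 (c z e
 (c z e
 (c z e
 (c z e
 (c z e
 (c z e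
 (c z e
 (c (a (nat_lit 0xb910c2bc925c526)) e e)))))))))))))))
 C585)
 (c (a (nat_lit 0x6060606061))
 (c z
 (c (a (nat_lit 0x2020202036ed65))
 (c z e
 (c z e
 (c z e
 (c z e
 (c z e
 (c z e
 (c z e
 (c z e
 (c z e
 (c z e
 (c z e
 (c (a (nat_lit 0x1c2428102e2512767)) e e))))))))))))
 (c (a (nat_lit 0x2020203bee28c7))
 (c z e
 (c z e
 (c z e
 (c z e
 (c z e
 (c z e
 (c z e
 (c z e
 (c z e
 (c z e
 (c (a (nat_lit 0xd8f45a84e1c0ec847)) e e)))))))))))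
 (c (a (nat_lit 0x2020308924e268))
 (c z e
 (c z e
 (c z e
 (c z e
 (c z e
 (c z e
 (c z e
 (c (a (nat_lit 0x1853d594b391d19387)) e e))))))))
 (c (a (nat_lit 0x203f96abc5e327)) e e))))
 (c z
 (c (a (nat_lit 0x1268e50528))
 (c z e
 (c z e
 (c z e
 (c z e
 (c z e
 (c z e
 (c z e
 (c z e
 (c z e
 (c (a (nat_lit 0xf2d6a7ad4b40ca227)) e e))))))))))
 (c (a (nat_lit 0x20306964a3c249)) e e))
 (c z e
 (c z
 (c z e
 (c z e
 (c z e
 (c z e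
 (c z e
 (c z e
 (c z e
 (c z e
 (c z e
 (c z e
 (c (b (nat_lit 0xa071e9fffe144c8)) e e)))))))))))
 (c z
 (c z e
 (c z e
 (c z e
 (c z e
 (c z e
 (c z e
 (c z e
 (c z e
 (c (a (nat_lit 0x163afe56edd18047)) e e)))))))))
 (c z e
 (c z e
 (c (a (nat_lit 0x202020203e08)) e
 (c (a (nat_lit 0x202020364ac8)) e
 (c (a (nat_lit 0x202036cd2268)) e
 (c (a (nat_lit 0x12137a98384a8)) e e)))))))))))
 (c (nat_lit 1)
 (c z
 (c (a (nat_lit 0x372de62c85a6))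
 (c z e
 (c z e
 (c z e
 (c z e
 (c z e
 (c z e
 (c z e
 (c z e
 (c (a (nat_lit 0x848b06ba9a926b047)) e
 (c (a (nat_lit 0x14423e14161e034e8)) e
 (c (a (nat_lit 0x463e3c101e3215448)) e e))))))))))) e)
 (c z
 (c z e
 (c z e
 (c z e
 (c z e
 (c z e
 (c z e
 (c z e
 (c z e
 (c z e
 (c z e
 (c z e
 (c (b (nat_lit 0x191533ffffffe7a7)) e e))))))))))))
 (c z e
 (c z e
 (c z e
 (c (a (nat_lit 0x1be8)) e
 (c (a (nat_lit 0x2020203bc888)) e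
 (c (a (nat_lit 0x2020368b4148)) e
 (c (a (nat_lit 0x161760c212728)) e e)))))))))
 C584)))) Tr.c Tr.e (nat_lit 0) C.cx C.cy
noncomputable def C587 : Tr := beta% (fun (c : Nat → Tr → Tr → Tr) (e : Tr) (z : Nat) (a b : Nat → Nat) =>
 (c (a (nat_lit 0x20002001))
 (c (a (nat_lit 0x202020203da5))
 (c (a (nat_lit 0x11156e52d010bd23))
 (c z e
 (c (a (nat_lit 0x6a68302cb1668c5a7)) e
 (c z e
 (c (a (nat_lit 0xde6df3bcc91d02ca6)) e
 (c (a (nat_lit 0x77c6d6111956b8806)) e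
 (c (a (nat_lit 0xb7262648443a2a007)) e
 (c (a (nat_lit 0x12012263e180000007)) e e)))))))
 (c (b (nat_lit 0x1b0d3030f8dfe4a4))
 (c z e
 (c z e
 (c z e
 (c z e
 (c (a (nat_lit 0x11012662c1e2800008)) e e)))))
 (c z e
 (c z e
 (c (a (nat_lit 0xbf38a2ee9e846e5)) e
 (c (a (nat_lit 0x1febe92f0d0a8023)) e
 (c (a (nat_lit 0x10ea09230368b444)) e
 (c (a (nat_lit 0xccc4c2c2d320506)) e
 (c (a (nat_lit 0xfefefd09591e0e5)) e
 (c z e
 (c (a (nat_lit 0x7a851ee6df2f367)) e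
 (c (a (nat_lit 0x1a80b4c28936006)) e
 (c (a (nat_lit 0x15026100c0000004)) e e)))))))))))))
 (c (a (nat_lit 0x2020203910c6))
 (c z e
 (c z e
 (c z e
 (c z e
 (c z e
 (c (a (nat_lit 0x116361c1c60bc586)) e
 (c z e
 (c z e
 (c z e
 (c z e
 (c (a (nat_lit 0x1175b5343f800007)) e e)))))))))))
 (c (a (nat_lit 0x1616174d083e7)) e
 (c (a (nat_lit 0x1617328c4c667))
 (c z e
 (c z e
 (c z e
 (c z e
 (c (b (nat_lit 0x1d2a79bff7c3fc06)) e e)))))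
 (c z e
 (c (a (nat_lit 0x16d7aa4c004226))
 (c (a (nat_lit 0x114d14c92667b246)) e
 (c (a (nat_lit 0x2244120806d5368)) e e))
 (c (a (nat_lit 0x10ed6f60404905))
 (c (a (nat_lit 0x5a36321d61d8467)) e e)
 (c z e
 (c z e
 (c z e
 (c (a (nat_lit 0xe771817f694c6)) e
 (c (a (nat_lit 0x11b2d1512f6726)) e
 (c (a (nat_lit 0x18e10da385a8e2)) e
 (c (a (nat_lit 0x4597cc94fae01)) e
 (c z e
 (c z e
 (c (a (nat_lit 0x4ae4f2fcf10c2)) e e)))))))))))))))))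
 (c (a (nat_lit 0x4040404041))
 (c (a (nat_lit 0xe0e0f4d2c1e6))
 (c z e
 (c z e
 (c z e
 (c z e
 (c z e
 (c z e
 (c z e
 (c z e
 (c z e
 (c z e
 (c z e
 (c (a (nat_lit 0x1d08800000000004)) e e))))))))))))
 (c (a (nat_lit 0x16176b4a34527)) e
 (c z e
 (c z e
 (c z e
 (c z e
 (c z e
 (c z e
 (c z e
 (c z e
 (c (a (nat_lit 0x1492d271adb287)) e
 (c (a (nat_lit 0x5c464e59994a5)) e
 (c z e
 (c z e
 (c z e
 (c (a (nat_lit 0x15f162c4e4e4e5)) e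
 (c (b (nat_lit 0x191fe020200004)) e e)))))))))))))))))
 (c (a (nat_lit 0xa0a0a0a0a1)) e
 (c (a (nat_lit 0x8080808081))
 (c (a (nat_lit 0x11f13245e7c7a5))
 (c z e
 (c (a (nat_lit 0x7a44586c60b5027)) e
 (c z e
 (c z e
 (c z e
 (c z e
 (c (a (nat_lit 0x1a3628c5c0000006)) e e)))))))
 (c (a (nat_lit 0x16b402e5096945))
 (c (a (nat_lit 0x4820423e99e1946)) e
 (c z e
 (c z e
 (c z e
 (c (a (nat_lit 0x716ee0f64a00007)) e
 (c (a (nat_lit 0x138e2a0000000007)) e e))))))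
 (c z e
 (c z e
 (c z e
 (c (a (nat_lit 0x14360a89418985)) e
 (c (a (nat_lit 0x108a6a81256366)) e
 (c z e
 (c z e
 (c z e
 (c (a (nat_lit 0x66b8e0cd16985)) e
 (c (a (nat_lit 0x1297b55e4e70a4)) e e))))))))))))
 (c (a (nat_lit 0x2020002021))
 (c (a (nat_lit 0x14a202b55aa843))
 (c (a (nat_lit 0x1e1e224dab2ef05)) e
 (c (a (nat_lit 0x28122360e0b0767)) e
 (c z e
 (c z e
 (c (a (nat_lit 0x1a4f0f2840000006)) e
 (c (a (nat_lit 0x13afc00000000005)) e e))))))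
 (c z e
 (c z e
 (c z e
 (c (a (nat_lit 0x1ef45465333204)) e
 (c (a (nat_lit 0x7688a31e5e465)) e
 (c z e
 (c z e
 (c (a (nat_lit 0x12f30a0b8ab023)) e
 (c (a (nat_lit 0x19c7ed8bf44222)) e
 (c (a (nat_lit 0x98ccb15432fe2)) e e)))))))))))
 (c (a (nat_lit 0xa0a0a0a0a1))
 (c (a (nat_lit 0x1237b24927c844))
 (c (a (nat_lit 0x125d629c3e62227)) e
 (c (a (nat_lit 0x10f3708b6ae42007)) e e))
 (c (a (nat_lit 0x130b4200e0a7a4))
 (c (a (nat_lit 0x19b1d5727600006)) e e)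
 (c z e
 (c z e
 (c z e
 (c z e
 (c (a (nat_lit 0x6c3a0e4433f84)) e
 (c (a (nat_lit 0xba0ce74c54f82)) e
 (c (a (nat_lit 0x28d33a50eac02)) e e)))))))))
 (c (a (nat_lit 0x2020404041))
 (c (a (nat_lit 0x108866a6e0e023)) e
 (c z e
 (c z e
 (c z e
 (c (a (nat_lit 0xc22949695126)) e
 (c (a (nat_lit 0x86d1d1b171a6)) e
 (c (a (nat_lit 0x20a12140d644)) e e)))))))
 (c (a (nat_lit 0x808080a081))
 (c z e
 (c z e
 (c z e
 (c z e
 (c z e
 (c z e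
 (c z e
 (c z e
 (c (a (nat_lit 0x4000000001)) e e)))))))))
 (c (a (nat_lit 0x2020202021))
 (c (a (nat_lit 0x45071300f7464)) e
 (c (a (nat_lit 0xecf190f0a865)) e
 (c z e
 (c z e
 (c z e
 (c z e
 (c (a (nat_lit 0x42420000001)) e e)))))))
 (c (a (nat_lit 0x2020204041))
 (c (a (nat_lit 0xf94953410fa64)) e
 (c z e
 (c z e
 (c z e
 (c (a (nat_lit 0xb4c170b600005)) e
 (c (a (nat_lit 0x1f874000000001)) e e))))))
 (c (a (nat_lit 0x4040404041))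
 (c z e
 (c z e
 (c (a (nat_lit 0xd6d6c2f710007)) e
 (c (a (nat_lit 0x1540c040000003)) e e))))
 (c (a (nat_lit 0x4040404041))
 (c (a (nat_lit 0x1a1a5a387c7786)) e
 (c (a (nat_lit 0x16752040400003)) e
 (c (a (nat_lit 0x15202000000003)) e e)))
 (c (a (nat_lit 0x4040405c83)) e
 (c (a (nat_lit 0x1bf7c3)) e
 (c (a (nat_lit 0x2debf324)) e
 (c (b (nat_lit 0x8e6c73bfe4)) e
 (c (a (nat_lit 0xf8d74c040a4)) e
 (c (a (nat_lit 0xc93e0402004)) e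
 (c (a (nat_lit 0x1420402021c4)) e
 (c (b (nat_lit 0x1e04fdfe1)) e
 (c z e
 (c z e
 (c (a (nat_lit 0x4e050006301)) e
 (c (a (nat_lit 0x3d0c1c26001)) e
 (c (a (nat_lit 0xd4000000001)) e e)))))))))))))))))))))))))) Tr.c Tr.e (nat_lit 0) C.cx C.cy
noncomputable def C588 : Tr := beta% (fun (c : Nat → Tr → Tr → Tr) (e : Tr) (z : Nat) (a b : Nat → Nat) =>
 (c (a (nat_lit 0x6060606061))
 (c z
 (c (a (nat_lit 0x16ea24c8060660e4))
 (c z e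
 (c z e
 (c z e
 (c z e
 (c z e
 (c (a (nat_lit 0x447e9e68927f58386)) e e))))))
 (c (a (nat_lit 0x17aa54ab8c236484))
 (c z e
 (c z e
 (c z e
 (c z e
 (c (a (nat_lit 0x106dabec4f53d5cb47)) e
 (c z e
 (c z e
 (c z e
 (c z e
 (c z e
 (c (a (nat_lit 0x15abc1c64000000007)) e e)))))))))))
 (c z e
 (c z e
 (c z e
 (c (a (nat_lit 0x16cbf3872d5353c4))
 (c z e
 (c (a (nat_lit 0x12c88a0c8c11126f67)) e e))
 (c z e
 (c z e
 (c z e
 (c (a (nat_lit 0x13d8d833d3688fe5)) e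
 (c (a (nat_lit 0x1631b27206ee0aa5)) e
 (c (a (nat_lit 0xccc92090c8945a6)) e
 (c z e
 (c z e
 (c z e
 (c z e
 (c (a (nat_lit 0x1b3e478240000003)) e e)))))))))))))))))
 (c z
 (c (a (nat_lit 0x11b710508fefa005))
 (c z e
 (c z e
 (c z e
 (c z e
 (c (a (nat_lit 0x7e8a78b8f530ae3e8)) e
 (c (a (nat_lit 0xeea230bec1602e7e7)) e
 (c z e
 (c z e
 (c z e
 (c z e
 (c (a (nat_lit 0x1d2291600000000006)) e e)))))))))))
 (c z e
 (c z e
 (c z e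
 (c (a (nat_lit 0x16fc4349ca36ca25))
 (c (a (nat_lit 0xedfa4ed3371c844a7)) e
 (c (a (nat_lit 0x108241080849e5a248)) e e))
 (c (a (nat_lit 0x19474a2716032d25)) e
 (c z e
 (c z e
 (c (b (nat_lit 0xbb51ff1828bc405)) e
 (c (a (nat_lit 0x13ee93abd0cee2e6)) e
 (c (b (nat_lit 0x9b4b111ffef0e86)) e
 (c z e
 (c z e
 (c z e
 (c (a (nat_lit 0x1293dd0c4ba00005)) e
 (c (a (nat_lit 0x871c0a000000005)) e e))))))))))))))))
 (c z
 (c (a (nat_lit 0xa7a30b806e3c024))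
 (c (a (nat_lit 0x26829ac2baa8e5a06)) e
 (c z e
 (c z e
 (c z e
 (c z e
 (c (a (nat_lit 0x82c915acaf0e84b08)) e
 (c (a (nat_lit 0x62d3e8825aca3c008)) e e)))))))
 (c z e
 (c z e
 (c z e
 (c z e
 (c z e
 (c (a (nat_lit 0x8a32af08eaa8a6)) e
 (c z e
 (c z e
 (c z e
 (c z e
 (c z e
 (c (a (nat_lit 0x12d5e0222100c005)) e
 (c (a (nat_lit 0x15612200a0000005)) e e))))))))))))))
 (c z e
 (c (a (nat_lit 0x2020202034e6))
 (c z e
 (c z e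
 (c z e
 (c z e
 (c (a (nat_lit 0x4e2d655554ed306)) e e)))))
 (c (a (nat_lit 0x20202034a446))
 (c (a (nat_lit 0x1038021239314c6))
 (c (a (nat_lit 0x7af16d757fa232005)) e
 (c (a (nat_lit 0xd32184ba580000007)) e e))
 (c (a (nat_lit 0x3c0412552f793a6))
 (c (a (nat_lit 0xc1045a2a000000007)) e e)
 (c z e
 (c z e
 (c z e
 (c z e
 (c (a (nat_lit 0x98a0bc86a77af87)) e e)))))))
 (c (a (nat_lit 0x2020334b4146))
 (c (a (nat_lit 0x443c4c94b11c626)) e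
 (c z e
 (c z e
 (c z e
 (c (a (nat_lit 0xb12712e8d68cda6)) e
 (c (a (nat_lit 0xa85484898044467)) e e))))))
 (c (a (nat_lit 0x2c2d78fc3e4c6)) e
 (c z e
 (c z e
 (c (a (nat_lit 0x108a8ad212dd84))
 (c z e
 (c (a (nat_lit 0x1cc8c32820000007)) e e))
 (c (a (nat_lit 0x269cf105b3ba4))
 (c (a (nat_lit 0x13c907a000000006)) e e)
 (c z e
 (c z e
 (c (a (nat_lit 0x12f0dd12b53323)) e
 (c (a (nat_lit 0x51126eba78003)) e
 (c (a (nat_lit 0x1cf2b8736b1523)) e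
 (c z e
 (c z e
 (c z e
 (c (a (nat_lit 0x143a140b0aa004)) e
 (c (a (nat_lit 0x1f93c0e0000003)) e e))))))))))))))))))))))
 (c (a (nat_lit 0x2020202021))
 (c z
 (c (a (nat_lit 0x1e1736fadc23a023)) e
 (c z e
 (c z e
 (c z e
 (c (a (nat_lit 0x11016162922e0945))
 (c z e
 (c (a (nat_lit 0x1141e889b485a425a7)) e
 (c (a (nat_lit 0x11e18549e163a00007)) e e)))
 (c (a (nat_lit 0x6e6c6f6082805a5)) e
 (c z e
 (c (a (nat_lit 0x3684e32221a8e4)) e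
 (c (a (nat_lit 0x12cd6e89892ba5a5)) e
 (c (a (nat_lit 0x11d35534178ecb85)) e
 (c (a (nat_lit 0x72828aa90290666)) e
 (c z e
 (c z e
 (c (a (nat_lit 0xfb8506997490004)) e
 (c (a (nat_lit 0x1d958e8e20000004)) e e)))))))))))))))
 (c z
 (c (a (nat_lit 0x12ccb1e92503e324))
 (c (a (nat_lit 0xaad2eeeae70109547)) e
 (c z e
 (c z e
 (c z e
 (c z e
 (c (a (nat_lit 0x939a412481898868)) e
 (c (a (nat_lit 0xf7304206284600008)) e e)))))))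
 (c z e
 (c z e
 (c z e
 (c z e
 (c z e
 (c (a (nat_lit 0x619d227c9ca8ce7)) e
 (c z e
 (c z e
 (c z e
 (c z e
 (c (a (nat_lit 0x425e5a8a7c79228)) e
 (c (a (nat_lit 0x13c040c080400004)) e e)))))))))))))
 (c (a (nat_lit 0x202020203e85))
 (c z e
 (c z e
 (c z e
 (c z e
 (c z e
 (c z e
 (c (b (nat_lit 0x10ea485fe506c166)) e
 (c z e
 (c z e
 (c z e
 (c z e
 (c (a (nat_lit 0xb8050c400000005)) e e))))))))))))
 (c (a (nat_lit 0x202020320cc6)) e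
 (c (a (nat_lit 0x40405f0562e6))
 (c (a (nat_lit 0x44645c653492647)) e
 (c (a (nat_lit 0x382a21045c1e3c7)) e
 (c z e
 (c z e
 (c z e
 (c (a (nat_lit 0xcea6cadf32f6d07)) e
 (c (a (nat_lit 0x5c7a7295bc6e127)) e e)))))))
 (c (a (nat_lit 0x6078d886a3a5))
 (c (a (nat_lit 0xbcb7130902f89a6)) e
 (c z e
 (c z e
 (c (a (nat_lit 0xe4c404a263d047)) e
 (c (a (nat_lit 0x9c7a76ae9724647)) e
 (c (a (nat_lit 0x802a493e780a407)) e e))))))
 (c (a (nat_lit 0x30e50e6054106))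
 (c z e
 (c (b (nat_lit 0x1fecd24c44650ee6)) e e))
 (c (a (nat_lit 0xb5953af6eeee4))
 (c (a (nat_lit 0xad8b870599e4c6)) e e)
 (c z e
 (c (a (nat_lit 0x124ff0301d5c65))
 (c (a (nat_lit 0xf7da9742aa00006)) e
 (c (a (nat_lit 0x1f20530000000006)) e e))
 (c (a (nat_lit 0x50545302face6))
 (c (a (nat_lit 0xd52e00000000005)) e e)
 (c z e
 (c (a (nat_lit 0x7b3f470cfcd46)) e
 (c (a (nat_lit 0x1b9d4beb083764)) e
 (c (a (nat_lit 0x1b0988e6152244)) e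
 (c (a (nat_lit 0x725e352a083c4)) e
 (c z e
 (c z e
 (c (a (nat_lit 0x1360c520402004)) e
 (c (a (nat_lit 0x334c200800002)) e
 (c (a (nat_lit 0x15c18000000002)) e e)))))))))))))))))))))
 C587))) Tr.c Tr.e (nat_lit 0) C.cx C.cy
noncomputable def C589 : Tr := beta% (fun (c : Nat → Tr → Tr → Tr) (e : Tr) (z : Nat) (a b : Nat → Nat) =>
 (c (a (nat_lit 0x4040404041))
 (c z
 (c (a (nat_lit 0x20202020203d41))
 (c z e
 (c z e
 (c z e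
 (c z e
 (c z e
 (c z e
 (c z e
 (c z e
 (c z e
 (c z e
 (c z e
 (c (a (nat_lit 0x3038383e24384db65)) e
 (c (a (nat_lit 0x908e928c6266e7046)) e e)))))))))))))
 (c (a (nat_lit 0x2020202030a685))
 (c z e
 (c z e
 (c z e
 (c z e
 (c z e
 (c z e
 (c z e
 (c z e
 (c z e
 (c z e
 (c (a (nat_lit 0x6c626e52266352986)) e e)))))))))))
 (c (a (nat_lit 0x2020203f50a645))
 (c z e
 (c z e
 (c z e
 (c z e
 (c z e
 (c z e
 (c (a (nat_lit 0x104f2e8e8eb3580ca6)) e e)))))))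
 (c (a (nat_lit 0x20203d7288c8e5))
 (c z e
 (c z e
 (c z e
 (c z e
 (c z e
 (c z e
 (c (a (nat_lit 0x647276a51a947c307)) e e)))))))
 (c (a (nat_lit 0x20314de647c226))
 (c z e
 (c z e
 (c z e
 (c z e
 (c (a (nat_lit 0xb28e9e88c68299e06)) e
 (c z e
 (c (a (nat_lit 0x3e4c584a5a6a23087)) e e)))))))
 (c z e
 (c z e
 (c z e
 (c z e
 (c z e
 (c z e
 (c z e
 (c z e
 (c z e
 (c z e
 (c (a (nat_lit 0x1637b7b46ead0346)) e
 (c (a (nat_lit 0x1edeb6b5cfd3cb84)) e e)))))))))))))))))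
 (c z
 (c (a (nat_lit 0x2020203f6ba425)) e
 (c (a (nat_lit 0x203167222487)) e
 (c (a (nat_lit 0x1213db52c8c4666)) e
 (c z e
 (c z e
 (c z e
 (c z e
 (c z e
 (c z e
 (c z e
 (c z e
 (c z e
 (c z e
 (c z e
 (c (a (nat_lit 0x1ddf5918758ceae6)) e
 (c (a (nat_lit 0x120969a828284925)) e e))))))))))))))))
 (c z
 (c (a (nat_lit 0x3168e3256586))
 (c z e
 (c z e
 (c z e
 (c z e
 (c z e
 (c z e
 (c z e
 (c z e
 (c (a (nat_lit 0x54585e56601845667)) e e)))))))))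
 (c z e
 (c z e
 (c z e
 (c z e
 (c z e
 (c z e
 (c z e
 (c z e
 (c z e
 (c z e
 (c (a (nat_lit 0xbd0116b26c3c1a7)) e
 (c z e
 (c (a (nat_lit 0x15b352f1aeccc967)) e e))))))))))))))
 (c z e
 (c z e
 (c z
 (c z e
 (c z e
 (c z e
 (c z e
 (c z e
 (c z e
 (c z e
 (c z e
 (c z e
 (c z e
 (c z e
 (c z e
 (c (a (nat_lit 0x13eefd8261e00003)) e e)))))))))))))
 (c z e
 (c z e
 (c (a (nat_lit 0x2020203366))
 (c z e
 (c (a (nat_lit 0x1147a060e52187e5)) e e))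
 (c (a (nat_lit 0x202020396846)) e
 (c (a (nat_lit 0x20203905c086)) e
 (c (a (nat_lit 0x1617346a1a626)) e e))))))))))))
 (c (a (nat_lit 0x2020202021))
 (c z
 (c (a (nat_lit 0x40405d6e05aec4)) e
 (c (a (nat_lit 0x3008c2e76686))
 (c z e
 (c z e
 (c z e
 (c z e
 (c z e
 (c z e
 (c z e
 (c z e
 (c (a (nat_lit 0x383a547038281f727)) e
 (c (a (nat_lit 0x20324e34201229248)) e e))))))))))
 (c z e
 (c z e
 (c z e
 (c z e
 (c z e
 (c z e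
 (c z e
 (c z e
 (c z e
 (c z e
 (c z e
 (c z e
 (c z e
 (c (a (nat_lit 0x589e91d35b45e62)) e e))))))))))))))))
 (c z
 (c z e
 (c z e
 (c z e
 (c z e
 (c z e
 (c z e
 (c z e
 (c z e
 (c z e
 (c z e
 (c (a (nat_lit 0x191e5791cd67c786)) e e)))))))))))
 (c z
 (c z e
 (c z e
 (c z e
 (c z e
 (c z e
 (c z e
 (c z e
 (c z e
 (c z e
 (c z e
 (c z e
 (c z e
 (c z e
 (c z e
 (c z e
 (c (a (nat_lit 0x1213f8e6e0000004)) e e))))))))))))))))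
 (c z
 (c z e
 (c z e
 (c z e
 (c z e
 (c z e
 (c z e
 (c z e
 (c z e
 (c z e
 (c (b (nat_lit 0xd555fffea652c06)) e e))))))))))
 (c z
 (c z e
 (c z e
 (c z e
 (c z e
 (c z e
 (c z e
 (c z e
 (c (a (nat_lit 0x150f902f8f478a47)) e e))))))))
 (c z
 (c z e
 (c z e
 (c z e
 (c z e
 (c z e
 (c (a (nat_lit 0x93fb3c6c34d205)) e e))))))
 (c (a (nat_lit 0x202020203626))
 (c z e
 (c z e
 (c z e
 (c (b (nat_lit 0x62ffee70115de6)) e e))))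
 (c (a (nat_lit 0x2020203e4fe5)) e
 (c (a (nat_lit 0x2020352e4106)) e
 (c (a (nat_lit 0x2a2b767440786)) e
 (c z e
 (c z e
 (c z e
 (c z e
 (c z e
 (c z e
 (c z e
 (c z e
 (c z e
 (c z e
 (c z e
 (c z e
 (c (a (nat_lit 0x11604140400003)) e e)))))))))))))))))))))))
 C588))) Tr.c Tr.e (nat_lit 0) C.cx C.cy
noncomputable def C590 : Tr := beta% (fun (c : Nat → Tr → Tr → Tr) (e : Tr) (z : Nat) (a b : Nat → Nat) =>
 (c z
 (c z
 (c z e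
 (c z e
 (c z e
 (c z e
 (c z e
 (c z e
 (c z e
 (c z e
 (c z e
 (c z e
 (c z e
 (c z e
 (c (a (nat_lit 0xa2aeb6beaa64632c7)) e e)))))))))))))
 (c (a (nat_lit 0x20202020203347))
 (c z e
 (c z e
 (c z e
 (c z e
 (c z e
 (c z e
 (c z e
 (c z e
 (c (a (nat_lit 0x160b28c80547a645e6)) e
 (c (a (nat_lit 0x1b1d1c37e968d17065)) e
 (c (a (nat_lit 0x1055118fc508309ca6)) e
 (c (a (nat_lit 0xbaacb2ac8c9702e48)) e e))))))))))))
 (c (a (nat_lit 0x2020202033a7e7))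
 (c z e
 (c z e
 (c z e
 (c z e
 (c z e
 (c z e
 (c z e
 (c z e
 (c (a (nat_lit 0x180d1052680883ee46)) e
 (c (a (nat_lit 0x1012d4e6e6eade6b26)) e e))))))))))
 (c (a (nat_lit 0x20202034ab4487))
 (c z e
 (c z e
 (c z e
 (c z e
 (c z e
 (c z e
 (c z e
 (c (a (nat_lit 0x1b87c78c2f240842e7)) e e))))))))
 (c (a (nat_lit 0x20203cd02566e7))
 (c z e
 (c z e
 (c z e
 (c z e
 (c z e
 (c (a (nat_lit 0xa412790ac192b2886)) e
 (c (a (nat_lit 0x8aa141cd430070366)) e e)))))))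
 (c (a (nat_lit 0x203d54e786e167))
 (c z e
 (c z e
 (c z e
 (c z e
 (c (a (nat_lit 0x884c84cfd6ecd266)) e e)))))
 (c z e
 (c z e
 (c z e
 (c z e
 (c z e
 (c z e
 (c z e
 (c z e
 (c z e
 (c z e
 (c (a (nat_lit 0x1c8c8d508dc82865)) e e)))))))))))))))))
 (c z
 (c (a (nat_lit 0x20202020360726))
 (c z e
 (c z e
 (c z e
 (c z e
 (c z e
 (c z e
 (c z e
 (c (a (nat_lit 0x1487c541c1822987a6)) e
 (c z e
 (c z e
 (c z e
 (c (a (nat_lit 0xef0742bad77318fa6)) e e))))))))))))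
 (c (a (nat_lit 0x20202033c700c7)) e
 (c (a (nat_lit 0x2020354ba4a647))
 (c z e
 (c z e
 (c z e
 (c z e
 (c z e
 (c z e
 (c z e
 (c (a (nat_lit 0x180c12ad08d40ca086)) e e))))))))
 (c (a (nat_lit 0x3a2fa4a82307)) e
 (c z e
 (c z e
 (c z e
 (c z e
 (c z e
 (c z e
 (c z e
 (c z e
 (c z e
 (c z e
 (c z e
 (c z e
 (c (a (nat_lit 0x17c7a041a1caa744)) e e)))))))))))))))))
 (c z
 (c (a (nat_lit 0x181819367a223a6)) e
 (c (a (nat_lit 0xe0f1ab04848347))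
 (c z e
 (c z e
 (c z e
 (c z e
 (c z e
 (c z e
 (c z e
 (c z e
 (c (a (nat_lit 0x44265e586c27f0a67)) e e))))))))) e))
 (c z
 (c z e
 (c (a (nat_lit 0x1fda46cd85414086))
 (c z e
 (c z e
 (c z e
 (c z e
 (c z e
 (c z e
 (c (a (nat_lit 0x5428280c2d411eac9)) e e)))))))
 (c z e
 (c z e
 (c z e
 (c z e
 (c z e
 (c z e
 (c z e
 (c z e
 (c z e
 (c z e
 (c z e
 (c (a (nat_lit 0x11b785c6c8618024)) e
 (c (a (nat_lit 0x12a9aa4bc8676b05)) e e)))))))))))))))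
 (c z
 (c (a (nat_lit 0x14c7d060a0a1a5e5))
 (c z e
 (c z e
 (c z e
 (c z e
 (c (a (nat_lit 0x6e728490768bb77a7)) e
 (c (a (nat_lit 0x4680662a3a230e828)) e
 (c (a (nat_lit 0x1a320a0c836a6c4a8)) e
 (c (a (nat_lit 0xfcb03431f3d7a2fc6)) e e))))))))
 (c z e
 (c z e
 (c z e
 (c z e
 (c (a (nat_lit 0xc6ec1e3e44a19a5))
 (c z e
 (c (a (nat_lit 0x1bc9a466a6e0000008)) e e))
 (c (a (nat_lit 0xec1632585f96825)) e
 (c z e
 (c z e
 (c (a (nat_lit 0x76cb7ad67a3e866)) e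
 (c z e
 (c (a (nat_lit 0xf8eb75613168ce6)) e
 (c (a (nat_lit 0x3cca26b39e5a6a4)) e
 (c (a (nat_lit 0xc01ebfac6878144)) e e))))))))))))))
 (c z e
 (c z e
 (c z e
 (c z
 (c z e
 (c z e
 (c z e
 (c (a (nat_lit 0x4e745655f8e924)) e e))))
 (c (a (nat_lit 0x2020202035e6))
 (c (a (nat_lit 0x7e9080cf5aac824)) e
 (c (a (nat_lit 0x18cd76becf424)) e e))
 (c (a (nat_lit 0x2020203586e6))
 (c (a (nat_lit 0x28ccae8ecd9424)) e
 (c z e
 (c z e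
 (c z e
 (c z e
 (c (a (nat_lit 0x4852688dc200008)) e
 (c (a (nat_lit 0xbf1c70000000005)) e e)))))))
 (c (b (nat_lit 0x20203ccd1fe5)) e
 (c (a (nat_lit 0x2c2d129c2e426)) e
 (c z e
 (c z e
 (c z e
 (c z e
 (c z e
 (c z e
 (c z e
 (c (a (nat_lit 0x4d42540416004)) e
 (c (a (nat_lit 0x14254061c02b04)) e
 (c (a (nat_lit 0xd03662258d9a3)) e e)))))))))))))))))))))))) Tr.c Tr.e (nat_lit 0) C.cx C.cy
noncomputable def C591 : Tr := beta% (fun (c : Nat → Tr → Tr → Tr) (e : Tr) (z : Nat) (a b : Nat → Nat) =>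
 (c z
 (c (a (nat_lit 0x20202039a18103))
 (c z e
 (c z e
 (c z e
 (c z e
 (c z e
 (c z e
 (c z e
 (c z e
 (c z e
 (c z e
 (c z e
 (c (a (nat_lit 0x707a68dab5deb2866)) e
 (c (a (nat_lit 0x3e405458c7e412007)) e e)))))))))))))
 (c (a (nat_lit 0x20203606e6e404))
 (c z e
 (c z e
 (c z e
 (c z e
 (c (a (nat_lit 0x642e483d9cd26c5c6)) e
 (c z e
 (c z e
 (c z e
 (c z e
 (c z e
 (c (a (nat_lit 0x3248706f6c443a3c7)) e e)))))))))))
 (c (a (nat_lit 0xc0da70644a4104))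
 (c z e
 (c z e
 (c z e
 (c z e
 (c z e
 (c z e
 (c (a (nat_lit 0x7a8286201e0c21806)) e
 (c (a (nat_lit 0x14b12bca4c83137d65)) e
 (c (a (nat_lit 0x10a869cb254f6edfa5)) e e)))))))))
 (c z e
 (c z e
 (c (a (nat_lit 0xee9524ce952c283))
 (c z e
 (c z e
 (c (a (nat_lit 0x76582c567c8952247)) e
 (c z e
 (c z e
 (c z e
 (c (a (nat_lit 0x1e27a6c58000000006)) e e)))))))
 (c (a (nat_lit 0x1e6c13329c4c3)) e
 (c z e
 (c (a (nat_lit 0xfae3773f0f6b0e4)) e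
 (c z e
 (c (a (nat_lit 0x116d6d56eb4a4624)) e
 (c (a (nat_lit 0xfb0762c4b8425c5)) e
 (c (a (nat_lit 0x11951554b34e6745)) e
 (c (b (nat_lit 0x1af8775fe8e342e4)) e e))))))))))))))
 (c z
 (c (a (nat_lit 0xfefef56b834f883))
 (c z e
 (c z e
 (c z e
 (c z e
 (c z e
 (c z e
 (c z e
 (c (a (nat_lit 0x8292ea9b3e90a7f24)) e e))))))))
 (c (a (nat_lit 0x846f8ce744e28a4))
 (c (a (nat_lit 0xb677a8c4629eb4d26)) e
 (c z e
 (c z e
 (c z e
 (c z e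
 (c (a (nat_lit 0xd0f352f6a6b8c7686)) e
 (c (a (nat_lit 0x5e704652563743267)) e
 (c (a (nat_lit 0x8a6c5ea637431e226)) e e))))))))
 (c z e
 (c z e
 (c (a (nat_lit 0x86de6489ae44043)) e
 (c (a (nat_lit 0x342ddb1ec48c3)) e
 (c z e
 (c (a (nat_lit 0x270c9e8a763c844)) e
 (c (a (nat_lit 0x198caf10503226e4)) e
 (c (a (nat_lit 0x193919977bcfe8c4)) e
 (c (a (nat_lit 0xed0547be8a140c4)) e
 (c z e
 (c (a (nat_lit 0x9b467a6656414c4)) e
 (c (a (nat_lit 0x192743c4c6e80683)) e e))))))))))))))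
 (c z
 (c (a (nat_lit 0x13dbd39eca6a4ec3))
 (c z e
 (c (a (nat_lit 0x98a41a2a3a7564a45)) e
 (c z e
 (c z e
 (c (a (nat_lit 0x5048504a446465406)) e
 (c (a (nat_lit 0x363a6c2026569d526)) e
 (c (a (nat_lit 0x28241a1c2081042e7)) e
 (c (a (nat_lit 0x6a34563c571a5eb86)) e e))))))))
 (c (a (nat_lit 0xe2e9322c2a72784))
 (c z e
 (c z e
 (c z e
 (c (a (nat_lit 0xccc0f2aed8b5ae626)) e
 (c z e
 (c (a (nat_lit 0x7a500a13dbfca62e6)) e e))))))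
 (c z e
 (c z e
 (c (b (nat_lit 0x347dff3e9058663))
 (c z e
 (c (a (nat_lit 0x2c6163482ec4a8966)) e
 (c (a (nat_lit 0x4727d0428cc054006)) e e)))
 (c (a (nat_lit 0x1c9718b2eeef56e3))
 (c (a (nat_lit 0x4cc3d89a7e7442446)) e
 (c (a (nat_lit 0x17bae48664c4800006)) e e))
 (c (a (nat_lit 0x11042b2656713c2)) e
 (c z e
 (c z e
 (c (b (nat_lit 0x15b6ffffe7034be3)) e
 (c (a (nat_lit 0x7ca108b270a31a4)) e
 (c (a (nat_lit 0xa2cf5183b15d8c4)) e e))))))))))))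
 (c z
 (c z e
 (c z e
 (c z e
 (c z e
 (c (a (nat_lit 0xa866100a0e575a4)) e
 (c (a (nat_lit 0xac3c3a3a47511c4)) e
 (c (a (nat_lit 0xbcc8c8d5f14ae84)) e
 (c (b (nat_lit 0x1a59ff75545e7a4)) e
 (c z e
 (c z e
 (c (a (nat_lit 0x133892d2f3547845)) e
 (c (a (nat_lit 0x1021c2e46dab0dc4)) e e))))))))))))
 (c z
 (c z e
 (c z e
 (c z e
 (c z e
 (c z e
 (c (a (nat_lit 0x605efebd5145a04)) e
 (c z e
 (c z e
 (c z e
 (c (a (nat_lit 0x5460cf02c712a85)) e e))))))))))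
 (c z
 (c (a (nat_lit 0xa2ae0202069b104))
 (c z e
 (c z e
 (c (a (nat_lit 0xc1385088b68644007)) e e)))
 (c (a (nat_lit 0x100060a112585804)) e
 (c z e
 (c z e
 (c z e
 (c (a (nat_lit 0x80d4fd174320ec5)) e
 (c (a (nat_lit 0x1e9af120f2bc7a5)) e e)))))))
 (c z
 (c z e
 (c z e
 (c z e
 (c (a (nat_lit 0x1331b6165cb583)) e
 (c (a (nat_lit 0x502ecad2e255643)) e
 (c (a (nat_lit 0x607cfb06debb4c5)) e e))))))
 (c z
 (c (a (nat_lit 0xd10d0877bff0c2)) e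
 (c z e
 (c (a (nat_lit 0x10d139fe7738fc23)) e
 (c z e
 (c z e
 (c z e
 (c (a (nat_lit 0x828c92905691426)) e e)))))))
 (c (a (nat_lit 0x2e2e2e2e2e021))
 (c (a (nat_lit 0x36a4d8e2d48be42)) e
 (c (a (nat_lit 0x2a4c948aa0eb084)) e
 (c z e
 (c z e
 (c (a (nat_lit 0x2a2e4c3e6d06d67)) e
 (c (a (nat_lit 0x8a9ecc92c978006)) e e))))))
 (c (b (nat_lit 0x20202021fee41))
 (c (a (nat_lit 0x505a583892ab064)) e e)
 (c (a (nat_lit 0x2828293478883))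
 (c (a (nat_lit 0x7a9caeb97d32744)) e
 (c (b (nat_lit 0x86ab6badf685fe5)) e e))
 (c (a (nat_lit 0xcecfa94702823))
 (c (a (nat_lit 0x92912396b81a625)) e e)
 (c (a (nat_lit 0xb9cb1efe08202)) e
 (c (a (nat_lit 0x182d6d2e2beae2)) e
 (c (a (nat_lit 0x1c3be7a6456721)) e
 (c (a (nat_lit 0x1fc927264ae4c1)) e e))))))))))))))))) Tr.c Tr.e (nat_lit 0) C.cx C.cy
noncomputable def C592 : Tr := beta% (fun (c : Nat → Tr → Tr → Tr) (e : Tr) (z : Nat) (a : Nat → Nat) =>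
 (c z
 (c z
 (c z
 (c z e
 (c z e
 (c z e
 (c z e
 (c z e
 (c z e
 (c z e
 (c z e
 (c z e
 (c z e
 (c z e
 (c z e
 (c (a (nat_lit 0x463c3a3a34403443127)) e
 (c z e
 (c z e
 (c (a (nat_lit 0x86868292f7aa8000008)) e e))))))))))))))))
 (c (a (nat_lit 0xa4a4a572b0ecbb024)) e
 (c (a (nat_lit 0x1818e21a2c4116564))
 (c z e
 (c z e
 (c z e
 (c z e
 (c z e
 (c z e
 (c z e
 (c z e
 (c z e
 (c z e
 (c (a (nat_lit 0x2c22263c262258612c7)) e e)))))))))))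
 (c z e
 (c z e
 (c z e
 (c z e
 (c z e
 (c z e
 (c z e
 (c z e
 (c (a (nat_lit 0x13b2f4349433133306)) e
 (c z e
 (c z e
 (c z e
 (c (a (nat_lit 0x1252b61abc3c3c7f05)) e
 (c (a (nat_lit 0xb2bed2e6e6e6e5067)) e e)))))))))))))))))
 (c z
 (c (a (nat_lit 0x52533e9a8c8898e64)) e
 (c z e
 (c z e
 (c z e
 (c z e
 (c z e
 (c z e
 (c z e
 (c z e
 (c z e
 (c z e
 (c z e
 (c z e
 (c (a (nat_lit 0xa4acef14d2a852ec5)) e
 (c (a (nat_lit 0x8311519bcbd3e3f45)) e e)))))))))))))))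
 (c z
 (c z e
 (c z e
 (c z e
 (c z e
 (c z e
 (c z e
 (c z e
 (c z e
 (c z e
 (c (a (nat_lit 0x12d24bc9694948a966)) e
 (c (a (nat_lit 0x1867eb28a9a965e585)) e
 (c z e
 (c (a (nat_lit 0x4c6c9498a46067c66)) e
 (c z e
 (c (a (nat_lit 0x304c72808e967f107)) e e)))))))))))))))
 (c z
 (c z e
 (c z e
 (c z e
 (c z e
 (c z e
 (c z e
 (c z e
 (c z e
 (c z e
 (c z e
 (c z e
 (c z e
 (c (a (nat_lit 0x304e585a64527d3a8)) e e)))))))))))))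
 (c (a (nat_lit 0x40404040405ea2)) e
 (c (a (nat_lit 0x20202020300865))
 (c (a (nat_lit 0x42404c7c867f78485)) e
 (c z e
 (c z e
 (c z e
 (c z e
 (c z e
 (c z e
 (c z e
 (c z e
 (c z e
 (c (a (nat_lit 0x28362c2a5902e8028)) e
 (c (a (nat_lit 0x6a446470bdcc00007)) e e))))))))))))
 (c (a (nat_lit 0x20202036318365))
 (c z e
 (c z e
 (c z e
 (c (a (nat_lit 0xe957d62a82ccc2165)) e
 (c (a (nat_lit 0x12fe43cb8eb0c927c5)) e
 (c (a (nat_lit 0x1d62a72930a88949c5)) e e))))))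
 (c (a (nat_lit 0x6a6a6bd18c96bc5)) e
 (c (a (nat_lit 0x6c6d2aac8c96786)) e
 (c (a (nat_lit 0xa76d36aebaaea85))
 (c z e
 (c (a (nat_lit 0x110d2a4c2b68419765)) e
 (c z e
 (c (a (nat_lit 0xd0d0ccdc8e9427606)) e e))))
 (c (a (nat_lit 0x1dbb3213d3131345))
 (c (a (nat_lit 0x5a4e544842201f2e7)) e
 (c (a (nat_lit 0x11f3d2512d4b7ad7e6)) e
 (c (a (nat_lit 0x18b2d9ab63324e3ca5)) e e)))
 (c (a (nat_lit 0x13307212d2d39265))
 (c (a (nat_lit 0xcab4a8b4a0a5985c6)) e e)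
 (c z e
 (c z e
 (c z e
 (c (a (nat_lit 0xad63733d614a544)) e
 (c (a (nat_lit 0x1a5ad93ab9f3b1a5)) e e)))))))))))))))))
 (c z
 (c z
 (c z e
 (c z e
 (c z e
 (c z e
 (c z e
 (c z e
 (c z e
 (c z e
 (c z e
 (c z e
 (c z e
 (c z e
 (c (a (nat_lit 0x1bbd1cd93a55a03724)) e
 (c (a (nat_lit 0x54ac9ae11cdb11a64)) e
 (c (a (nat_lit 0x66647e8e94a4852a6)) e e)))))))))))))))
 (c z
 (c z e
 (c z e
 (c z e
 (c z e
 (c z e
 (c z e
 (c z e
 (c z e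
 (c z e
 (c z e
 (c z e
 (c (a (nat_lit 0x18b7d836f76c2ffee5)) e e))))))))))))
 (c (a (nat_lit 0x202020202037c4)) e
 (c (a (nat_lit 0x2020202037a3e4))
 (c z e
 (c z e
 (c z e
 (c z e
 (c z e
 (c z e
 (c z e
 (c z e
 (c z e
 (c z e
 (c z e
 (c z e
 (c (a (nat_lit 0x38363a2e5d1800008)) e e)))))))))))))
 (c (a (nat_lit 0x202020370a6285)) e
 (c (a (nat_lit 0x2020399081c625))
 (c z e
 (c z e
 (c z e
 (c (a (nat_lit 0x1e1824070888a6c665)) e e))))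
 (c (a (nat_lit 0x5051f9686ec66c5)) e
 (c z e
 (c z e
 (c z e
 (c z e
 (c z e
 (c z e
 (c z e
 (c z e
 (c z e
 (c (a (nat_lit 0x1d8f9111aecc2804)) e
 (c (a (nat_lit 0x14d839734e05e743)) e
 (c z e
 (c (a (nat_lit 0x1691ccc4c6c14183)) e e))))))))))))))))))))
 (c z
 (c (a (nat_lit 0x20202020203943))
 (c z e
 (c z e
 (c z e
 (c z e
 (c z e
 (c z e
 (c z e
 (c z e
 (c z e
 (c z e
 (c z e
 (c z e
 (c (a (nat_lit 0x6ca09ea6bb08d79a5)) e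
 (c (a (nat_lit 0x2628363c428bda427)) e
 (c (a (nat_lit 0x343e4658509792007)) e e)))))))))))))))
 (c (a (nat_lit 0x2020202039c384)) e
 (c (a (nat_lit 0x2020203a69e844))
 (c z e
 (c z e
 (c z e
 (c z e
 (c z e
 (c z e
 (c z e
 (c z e
 (c z e
 (c z e
 (c (a (nat_lit 0x56608d6f0feca6966)) e e)))))))))))
 (c (a (nat_lit 0x202035cb842785)) e
 (c (a (nat_lit 0x1c1d810c30764e5))
 (c z e
 (c z e
 (c z e
 (c z e
 (c z e
 (c (a (nat_lit 0x38426058522c61a66)) e e))))))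
 (c z e
 (c z e
 (c z e
 (c z e
 (c z e
 (c z e
 (c z e
 (c (a (nat_lit 0x12f35030e9c88145)) e
 (c z e
 (c (a (nat_lit 0x1abc5d5c58070504)) e
 (c (a (nat_lit 0x1c157121c1616802)) e e))))))))))))))))
 C591)))) Tr.c Tr.e (nat_lit 0) C.cx
noncomputable def C593 : Tr := beta% (fun (c : Nat → Tr → Tr → Tr) (e : Tr) (z : Nat) (a b : Nat → Nat) =>
 (c (a (nat_lit 0xe0e0e0e0e1))
 (c z
 (c z
 (c z e
 (c (a (nat_lit 0xc6c6c6c6c6c7a65e1)) e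
 (c (a (nat_lit 0x88888888893258782)) e e)))
 (c z
 (c (a (nat_lit 0xe2e2e2e2e3066efc2))
 (c (a (nat_lit 0x12157476f6fad4d497a3)) e
 (c z e
 (c z e
 (c z e
 (c z e
 (c z e
 (c z e
 (c z e
 (c z e
 (c z e
 (c z e
 (c z e
 (c z e
 (c z e
 (c z e
 (c (a (nat_lit 0x90949490af39ea82007)) e e))))))))))))))))
 (c (a (nat_lit 0xb2b2b2b3c4bac2e23)) e
 (c (a (nat_lit 0x3838394e36305afe3)) e
 (c (a (nat_lit 0xcecf8ea6bccf3cfa3)) e
 (c (a (nat_lit 0x8490868e96c4c53a4))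
 (c z e
 (c z e
 (c z e
 (c z e
 (c z e
 (c z e
 (c (a (nat_lit 0x40405046463a4897607)) e
 (c (a (nat_lit 0x403e464a3658ad25587)) e e)))))))) e)))))
 (c z
 (c z e
 (c (a (nat_lit 0x464736322a84d48a3)) e e))
 (c z e
 (c z e
 (c z e
 (c (a (nat_lit 0x3c3c3c3c3c3d1c1)) e
 (c (a (nat_lit 0x202020203b06e2)) e
 (c (a (nat_lit 0x2a2a2a2b86e4383)) e
 (c (a (nat_lit 0x7070712a8c828e4)) e
 (c (a (nat_lit 0xdcddb13edce0cc3)) e
 (c (a (nat_lit 0x10be77f0924f3043)) e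
 (c (a (nat_lit 0x17d1f13231f1d343)) e
 (c z e
 (c z e
 (c z e
 (c (a (nat_lit 0xf6ef61614f57363)) e
 (c (a (nat_lit 0xb72727272d02b03)) e e))))))))))))))))))
 C592)
 (c (a (nat_lit 0x4040404041))
 (c z
 (c z
 (c (a (nat_lit 0xdcdcdc9288e0c1024))
 (c z e
 (c z e
 (c z e
 (c z e
 (c z e
 (c z e
 (c z e
 (c z e
 (c z e
 (c z e
 (c z e
 (c z e
 (c (a (nat_lit 0x2c2c2a24322447272a7)) e
 (c z e
 (c z e
 (c (a (nat_lit 0xa49eab0dd8aa0000008)) e e))))))))))))))))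
 (c (a (nat_lit 0x15f5f7123c147cbfa4)) e
 (c z e
 (c z e
 (c z e
 (c z e
 (c z e
 (c z e
 (c z e
 (c z e
 (c z e
 (c z e
 (c z e
 (c z e
 (c (a (nat_lit 0x1388edf7da5af53824)) e e)))))))))))))))
 (c z
 (c z e
 (c z e
 (c z e
 (c z e
 (c z e
 (c z e
 (c z e
 (c z e
 (c z e
 (c z e
 (c (a (nat_lit 0x128b4b2b4d28c78806)) e
 (c (a (nat_lit 0x110df4170f8e896b25)) e
 (c (a (nat_lit 0x10107552b270e20906)) e
 (c (b (nat_lit 0x163bfffe6e52494c7)) e e))))))))))))))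
 (c z
 (c z e
 (c z e
 (c z e
 (c z e
 (c z e
 (c z e
 (c z e
 (c z e
 (c z e
 (c (a (nat_lit 0x11e88646c52585e607)) e
 (c (a (nat_lit 0x11ab3671d3ebac9625)) e
 (c (a (nat_lit 0xa8e2e2f10a44496e6)) e
 (c z e
 (c (a (nat_lit 0x24344450584c61909)) e e))))))))))))))
 (c (a (nat_lit 0x20202020203625))
 (c z e
 (c z e
 (c z e
 (c z e
 (c z e
 (c z e
 (c z e
 (c z e
 (c (a (nat_lit 0x12cfee8d112eacb1c6)) e e)))))))))
 (c (a (nat_lit 0x202020203309a5))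
 (c z e
 (c z e
 (c z e
 (c z e
 (c z e
 (c z e
 (c (a (nat_lit 0x189714d49390569aa6)) e
 (c z e
 (c (a (nat_lit 0x112fedacaa0d6c0d06)) e e)))))))))
 (c (a (nat_lit 0x202020368c8286))
 (c (a (nat_lit 0x1606283a5f882e1e6)) e
 (c z e
 (c z e
 (c z e
 (c z e
 (c (a (nat_lit 0x11020123e7ac06a106)) e
 (c z e
 (c z e
 (c z e
 (c z e
 (c z e
 (c (a (nat_lit 0x2e3c3e69100000009)) e e))))))))))))
 (c (a (nat_lit 0x202036d247a566))
 (c z e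
 (c z e
 (c z e
 (c (a (nat_lit 0xd5ba1c5a788720426)) e
 (c (a (nat_lit 0x1960c5276814c189e6)) e
 (c (a (nat_lit 0x21c3e877852646c6)) e
 (c z e
 (c z e
 (c z e
 (c (a (nat_lit 0x482e67a5b62800008)) e e))))))))))
 (c (a (nat_lit 0x20331085454146)) e
 (c z e
 (c z e
 (c (a (nat_lit 0x16741454b4b5f546))
 (c (a (nat_lit 0xa6bea2baa041d4de7)) e e)
 (c (a (nat_lit 0xd8eaff010d2ada6))
 (c (a (nat_lit 0x3236362c3306401c8)) e e) e))))))))))))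
 C590)
 C589))) Tr.c Tr.e (nat_lit 0) C.cx C.cy
noncomputable def C595 : Tr := beta% (fun (c : Nat → Tr → Tr → Tr) (e : Tr) (z : Nat) (a b : Nat → Nat) =>
 (c (nat_lit 1)
 (c (a (nat_lit 0x202001))
 (c (a (nat_lit 0xa1212120e1)) e
 (c (a (nat_lit 0x121a1c20261)) e
 (c (a (nat_lit 0x2161e22221)) e
 (c (a (nat_lit 0x2020203527)) e
 (c (a (nat_lit 0x203c5ac7)) e
 (c (a (nat_lit 0x1153d598de7)) e
 (c z e
 (c (b (nat_lit 0x15dff46a49a5)) e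
 (c (b (nat_lit 0x1ffbe4000002)) e
 (c (a (nat_lit 0x182000000002)) e e))))))))))
 (c (a (nat_lit 0x20000001))
 (c (a (nat_lit 0x41016405a1)) e
 (c (a (nat_lit 0x204076e6)) e
 (c (a (nat_lit 0x204055bfc7)) e
 (c (a (nat_lit 0xc26ff2ad88)) e
 (c z e
 (c z e
 (c (a (nat_lit 0xfdcf8a94004)) e
 (c (a (nat_lit 0x126120000002)) e e))))))))
 (c (a (nat_lit 0x20404041))
 (c (a (nat_lit 0x202053e926)) e
 (c (a (nat_lit 0x20b4917728)) e e))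
 (c (a (nat_lit 0x202030a5))
 (c z e
 (c (a (nat_lit 0x1713daf89428)) e e))
 (c (a (nat_lit 0x20251327))
 (c (a (nat_lit 0x177faf917c7)) e e)
 (c (b (nat_lit 0x3ff8a806)) e
 (c z e
 (c (a (nat_lit 0x140e03c227)) e
 (c (b (nat_lit 0x17a3203fe6)) e
 (c (b (nat_lit 0x19c15fffe3)) e
 (c z e
 (c (b (nat_lit 0x1ffff5d5c4)) e
 (c (b (nat_lit 0x1fe1018021)) e
 (c (a (nat_lit 0x61608081)) e
 (c (a (nat_lit 0x1a100e061)) e
 (c (a (nat_lit 0x80c0a041)) e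
 (c (a (nat_lit 0x60804001)) e
 (c (a (nat_lit 0x40000001)) e e))))))))))))))))))
 (c (nat_lit 1)
 (c (nat_lit 1)
 (c (a (nat_lit 0xe102430281)) e
 (c (a (nat_lit 0x20407925)) e
 (c (a (nat_lit 0x2021d78f27)) e
 (c (a (nat_lit 0x146565a9047)) e
 (c z e
 (c (a (nat_lit 0x1490ec802488)) e
 (c (a (nat_lit 0x172f09200001)) e
 (c (a (nat_lit 0x50000000001)) e e))))))))
 (c (a (nat_lit 0x20203047))
 (c (a (nat_lit 0x202a4d3667)) e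
 (c (a (nat_lit 0xe4d02e9129)) e
 (c z e
 (c z e
 (c (a (nat_lit 0x1f96f3f26007)) e
 (c (a (nat_lit 0x1682e0000003)) e e))))))
 (c (a (nat_lit 0x30b3e7)) e
 (c (a (nat_lit 0x2ed776927)) e
 (c z e
 (c (a (nat_lit 0x114b002027)) e
 (c (b (nat_lit 0x1682e03fe6)) e
 (c (b (nat_lit 0x15fffe1)) e
 (c z e
 (c (b (nat_lit 0x5ff33324)) e
 (c (b (nat_lit 0x1fe08040e1)) e
 (c (a (nat_lit 0x41020361)) e
 (c (a (nat_lit 0x20e26321)) e
 (c (a (nat_lit 0x40c0a0c1)) e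
 (c (a (nat_lit 0x4080c081)) e
 (c (a (nat_lit 0x40400001)) e e))))))))))))))))
 (c (a (nat_lit 0x2021))
 (c (a (nat_lit 0x326747))
 (c (a (nat_lit 0x2053fed4c6)) e
 (c (a (nat_lit 0x3efb9b7f628)) e
 (c z e
 (c (a (nat_lit 0x1958bbd54de8)) e
 (c (a (nat_lit 0x16acbac00006)) e
 (c (a (nat_lit 0x5c000000001)) e e))))))
 (c (a (nat_lit 0x36b268e7)) e
 (c z e
 (c (a (nat_lit 0x12ef2d2d28)) e
 (c (a (nat_lit 0x1590100e66)) e
 (c (b (nat_lit 0x2e33fffe1)) e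
 (c z e
 (c (a (nat_lit 0x1046597945)) e
 (c (b (nat_lit 0x1fe1a2c3a1)) e
 (c (a (nat_lit 0x14304c1)) e
 (c (a (nat_lit 0x4102e261)) e
 (c (a (nat_lit 0x210280e1)) e
 (c (a (nat_lit 0x412101c1)) e
 (c (a (nat_lit 0x40c0c001)) e
 (c (a (nat_lit 0x20000001)) e e)))))))))))))))
 (c (nat_lit 1)
 (c z e
 (c (a (nat_lit 0x14ae202027))
 (c (a (nat_lit 0x17115be76008)) e e)
 (c z e
 (c z e
 (c z e
 (c (a (nat_lit 0xc87b13126)) e
 (c (b (nat_lit 0x1fff5f2004)) e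
 (c (a (nat_lit 0x782426701)) e
 (c (a (nat_lit 0x20409a84)) e
 (c (a (nat_lit 0x1c2618581)) e
 (c (a (nat_lit 0x2102a5c1)) e
 (c (a (nat_lit 0x220c1a181)) e
 (c (a (nat_lit 0x80400001)) e e)))))))))))))
 (c (nat_lit 1)
 (c (a (nat_lit 0xf2dedf0a6))
 (c (a (nat_lit 0xf3207a00007)) e e)
 (c z e
 (c z e
 (c (a (nat_lit 0x137115d5a7)) e
 (c (a (nat_lit 0x1059d9c646)) e
 (c (a (nat_lit 0x1ce02059e3)) e
 (c (a (nat_lit 0xa060d902)) e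
 (c (a (nat_lit 0x61028621)) e
 (c (a (nat_lit 0x40c10141)) e
 (c (a (nat_lit 0x20a0c241)) e
 (c (a (nat_lit 0x40a06001)) e
 (c (a (nat_lit 0x20000001)) e e))))))))))))
 (c (nat_lit 1)
 (c z e
 (c (a (nat_lit 0x177658b8a8)) e
 (c (b (nat_lit 0x1fe2a30021)) e
 (c (a (nat_lit 0xe06201)) e
 (c (a (nat_lit 0x20405c03)) e
 (c (a (nat_lit 0x16140c021)) e
 (c (a (nat_lit 0x81806021)) e
 (c (a (nat_lit 0x201006041)) e
 (c (a (nat_lit 0x181206021)) e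
 (c (a (nat_lit 0x220600001)) e e))))))))))
 (c (a (nat_lit 0x202021))
 (c (a (nat_lit 0x7f191a045)) e
 (c (a (nat_lit 0x21012041)) e
 (c (a (nat_lit 0x2161a8e1)) e
 (c (a (nat_lit 0x2a2c28501)) e
 (c (a (nat_lit 0x1c2812141)) e
 (c (a (nat_lit 0x82a0e141)) e
 (c (a (nat_lit 0x220a080e1)) e
 (c (a (nat_lit 0x80808001)) e
 (c (a (nat_lit 0xa0000001)) e e)))))))))
 (c (nat_lit 1)
 (c (nat_lit 1) e
 (c (a (nat_lit 0x20202001)) e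
 (c (a (nat_lit 0x202021)) e
 (c (a (nat_lit 0x20202021)) e
 (c (a (nat_lit 0x20202021)) e
 (c (a (nat_lit 0x20202001)) e
 (c (a (nat_lit 0x20200001)) e e)))))))
 (c (a (nat_lit 0x202021))
 (c (a (nat_lit 0x20202021)) e
 (c (a (nat_lit 0x40404041)) e
 (c (a (nat_lit 0x40404041)) e
 (c (a (nat_lit 0x40404021)) e
 (c (a (nat_lit 0x40402001)) e
 (c (a (nat_lit 0x20000001)) e e))))))
 (c (a (nat_lit 0x202021))
 (c (a (nat_lit 0x20202021)) e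
 (c (a (nat_lit 0x40404021)) e
 (c (a (nat_lit 0x40402021)) e
 (c (a (nat_lit 0x20200001)) e e))))
 (c (a (nat_lit 0x202021))
 (c (a (nat_lit 0x20202021)) e
 (c (a (nat_lit 0x20202001)) e
 (c (a (nat_lit 0x20000001)) e e)))
 (c (a (nat_lit 0x202021))
 (c (a (nat_lit 0x20200001)) e e)
 (c (a (nat_lit 0x202021)) e
 (c (a (nat_lit 0x204041)) e
 (c (a (nat_lit 0x404041)) e
 (c (a (nat_lit 0x404041)) e
 (c (a (nat_lit 0x404021)) e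
 (c (a (nat_lit 0x402041)) e
 (c (a (nat_lit 0x204041)) e
 (c (a (nat_lit 0x404021)) e
 (c (a (nat_lit 0x402041)) e
 (c (a (nat_lit 0x1207)) e
 (c z e
 (c z e
 (c (a (nat_lit 0x17002026)) e
 (c (a (nat_lit 0x200001)) e e))))))))))))))))))))))))))) Tr.c Tr.e (nat_lit 0) C.cx C.cy
noncomputable def C596 : Tr := beta% (fun (c : Nat → Tr → Tr → Tr) (e : Tr) (z : Nat) (a b : Nat → Nat) =>
 (c (nat_lit 1)
 (c (nat_lit 1)
 (c (a (nat_lit 0xbc6a5251dc4))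
 (c (a (nat_lit 0x13472464646146)) e
 (c z e
 (c z e
 (c z e
 (c (a (nat_lit 0x1bbedb7da11005)) e
 (c (b (nat_lit 0x1ffe4bcc4a40a5)) e
 (c z e
 (c (a (nat_lit 0xdd2b01000007)) e e))))))))
 (c z e
 (c z e
 (c (a (nat_lit 0x71fd6a72725)) e
 (c (a (nat_lit 0x19d3a0404045))
 (c (b (nat_lit 0x1ff33f88c140c4)) e
 (c (a (nat_lit 0x12be0d40c00006)) e e))
 (c (a (nat_lit 0x1e4040804024))
 (c (a (nat_lit 0x1a94a100000005)) e e)
 (c (a (nat_lit 0x10f0a0806d24)) e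
 (c (a (nat_lit 0x1997f7dfdc1)) e
 (c (a (nat_lit 0x7a76740c001)) e
 (c (a (nat_lit 0x20202032c7)) e
 (c (a (nat_lit 0x2022b3e5c7)) e
 (c (a (nat_lit 0x163f526e147)) e
 (c z e
 (c (a (nat_lit 0x13e020202027)) e
 (c (a (nat_lit 0x22181200001)) e
 (c (a (nat_lit 0x16000000001)) e e))))))))))))))))
 (c (a (nat_lit 0x20200001))
 (c z e
 (c z e
 (c (a (nat_lit 0x16555d3d3ce6))
 (c (b (nat_lit 0x1ffff04fb06ea7)) e
 (c (b (nat_lit 0x1fe330726ee767)) e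
 (c (a (nat_lit 0x8507a88a00007)) e e)))
 (c (a (nat_lit 0x1b0020204045))
 (c (a (nat_lit 0x1b214400a04006)) e
 (c (a (nat_lit 0x1a4dc560000007)) e e))
 (c (a (nat_lit 0x141400a08025))
 (c (a (nat_lit 0x19a58000000006)) e e)
 (c (a (nat_lit 0x7adafa39c4)) e
 (c (a (nat_lit 0x1a5c5c18001)) e
 (c (a (nat_lit 0x40404052e5)) e
 (c (b (nat_lit 0x202f7ff368)) e
 (c (a (nat_lit 0x5aa849029c7)) e
 (c z e
 (c z e
 (c (a (nat_lit 0x152900202006)) e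
 (c (a (nat_lit 0x11e040000005)) e e))))))))))))))
 (c (nat_lit 1)
 (c (a (nat_lit 0x141180c06024))
 (c (b (nat_lit 0x1fffff31c0c0a4)) e
 (c (b (nat_lit 0x1ff38240c04047)) e
 (c (b (nat_lit 0x121fe820e0c046)) e
 (c (a (nat_lit 0x1480a3e3000004)) e e))))
 (c (a (nat_lit 0x1960e0c08084))
 (c (a (nat_lit 0x11e202c0604027)) e
 (c (b (nat_lit 0x1ffebf44c1c004)) e
 (c (a (nat_lit 0x1f04e220000005)) e e)))
 (c (a (nat_lit 0x1abaa080a044))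
 (c (a (nat_lit 0x1a5cbd01600004)) e
 (c (a (nat_lit 0x1aa78000000005)) e e))
 (c (a (nat_lit 0x181ad0a8601)) e
 (c (a (nat_lit 0xe2e50144a1)) e
 (c (a (nat_lit 0x40404057e6)) e e))))))
 (c (a (nat_lit 0x2001))
 (c (a (nat_lit 0x19d9e0a08003))
 (c (a (nat_lit 0x10ed0d80a08024)) e
 (c (a (nat_lit 0x14bc9cc2200003)) e
 (c (a (nat_lit 0x1baee000000003)) e e)))
 (c (a (nat_lit 0x183e48300a1)) e
 (c (a (nat_lit 0x1c2c62262c1)) e
 (c (a (nat_lit 0x60405286)) e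
 (c (a (nat_lit 0x202e52cfa8)) e
 (c z e
 (c z e
 (c (b (nat_lit 0x16ffedaacfe5)) e
 (c (b (nat_lit 0x1fe685a79346)) e e)))))))))
 (c (nat_lit 1)
 (c (a (nat_lit 0x6268623e461)) e
 (c (a (nat_lit 0x2020203106)) e
 (c (a (nat_lit 0x202f190fe7)) e
 (c (a (nat_lit 0x16f538f6d68)) e
 (c z e
 (c (a (nat_lit 0x1fb5b754e107)) e
 (c (b (nat_lit 0x1fe307c63e86)) e
 (c (a (nat_lit 0x486e7b1e5a7)) e e))))))))
 (c (a (nat_lit 0x204021))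
 (c (a (nat_lit 0x606e9850a6)) e
 (c (a (nat_lit 0xb10abcc08)) e
 (c z e
 (c (a (nat_lit 0x116f116f0369)) e
 (c (a (nat_lit 0xf709084ed08)) e
 (c (a (nat_lit 0x3a3a6305287)) e e))))))
 (c (a (nat_lit 0x60604041))
 (c z e
 (c (a (nat_lit 0x18b2f5280028)) e e))
 (c (nat_lit 1)
 (c (a (nat_lit 0x1476b025cc67)) e
 (c z e
 (c z e
 (c (a (nat_lit 0xfdb6b040007)) e
 (c (a (nat_lit 0x106680000007)) e e)))))
 (c (a (nat_lit 0x202041))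
 (c z e
 (c (a (nat_lit 0xe7a983110e8)) e
 (c (a (nat_lit 0x16d242c00007)) e
 (c (a (nat_lit 0x164000000003)) e e))))
 (c (a (nat_lit 0x2641))
 (c (a (nat_lit 0xd86c5de2005)) e
 (c (a (nat_lit 0x460e0000001)) e e))
 (c (a (nat_lit 0xe3cc6))
 (c (nat_lit 1) e e)
 (c (a (nat_lit 0x38f11ab67)) e
 (c z e
 (c (a (nat_lit 0x1b70402026)) e
 (c (a (nat_lit 0x1040202966)) e
 (c (a (nat_lit 0x2052a365)) e
 (c z e
 (c (a (nat_lit 0x18308dcdc6)) e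
 (c (a (nat_lit 0x16a0604023)) e
 (c (a (nat_lit 0x100a08041)) e
 (c (a (nat_lit 0x181008021)) e
 (c (a (nat_lit 0x120400001)) e e))))))))))))))))))))))
 (c (nat_lit 1)
 (c (a (nat_lit 0x20202021))
 (c (a (nat_lit 0x8b25cd65644))
 (c z e
 (c z e
 (c z e
 (c z e
 (c (b (nat_lit 0x1ffffff26a8004)) e e)))))
 (c (b (nat_lit 0x1ff800a04003))
 (c (b (nat_lit 0x1febe7d6a04046)) e
 (c (a (nat_lit 0x3b7f00a08026)) e
 (c (a (nat_lit 0x968440a08026)) e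
 (c (a (nat_lit 0x19c38c25e00002)) e e))))
 (c (a (nat_lit 0x1e6060a12002))
 (c (a (nat_lit 0xbf476a660081)) e
 (c (a (nat_lit 0x17c3f03a16003)) e
 (c (a (nat_lit 0x1ba54160000004)) e e)))
 (c (a (nat_lit 0x1adae080c043))
 (c (a (nat_lit 0x191bdbe0a00003)) e
 (c (a (nat_lit 0x1ae74000000004)) e e))
 (c (a (nat_lit 0x28163c3c001)) e
 (c (a (nat_lit 0x3c566828281)) e
 (c (a (nat_lit 0x3e3424141e1)) e
 (c (a (nat_lit 0x2020203866)) e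
 (c (a (nat_lit 0x20333932c8)) e
 (c (a (nat_lit 0x1a959c023a6)) e
 (c z e
 (c (a (nat_lit 0x17e0e0402006)) e
 (c (a (nat_lit 0x1d5be2a00001)) e
 (c (a (nat_lit 0x192000000001)) e e))))))))))))))
 (c (a (nat_lit 0x40404041))
 (c (a (nat_lit 0x14e1c1a180c2))
 (c (a (nat_lit 0xae5b500404026)) e
 (c (a (nat_lit 0x18b44460404027)) e
 (c (a (nat_lit 0x120080a0a04006)) e e)))
 (c (a (nat_lit 0x1110e0606005))
 (c (a (nat_lit 0x15a8a8c0806026)) e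
 (c (a (nat_lit 0xff1d240c00005)) e
 (c (a (nat_lit 0x11c92000000005)) e e)))
 (c (a (nat_lit 0x34404a40001)) e
 (c (a (nat_lit 0x3e347028001)) e
 (c (a (nat_lit 0xe8e54385c1)) e
 (c (a (nat_lit 0x4040205106)) e
 (c (a (nat_lit 0x5c5d71b5be8)) e
 (c z e
 (c z e
 (c z e
 (c (a (nat_lit 0xebbe1606005)) e
 (c (a (nat_lit 0x1d6160000005)) e e))))))))))))
 (c (a (nat_lit 0x20202021))
 (c (a (nat_lit 0x2e16161e001)) e
 (c (a (nat_lit 0x3e3e4628121)) e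
 (c (a (nat_lit 0x384a4c32401)) e
 (c (a (nat_lit 0x60606090c5)) e
 (c (a (nat_lit 0x203afef787)) e
 (c (a (nat_lit 0x11736fda88)) e e))))))
 (c (nat_lit 1)
 (c (a (nat_lit 0x1e221a141e1)) e
 (c (a (nat_lit 0xc0a0c13723)) e
 (c (a (nat_lit 0x20369ea926)) e
 (c (a (nat_lit 0x12e8f8af148)) e e))))
 (c (a (nat_lit 0x204041))
 (c (a (nat_lit 0x2040667365)) e
 (c (a (nat_lit 0xb70cef6a7)) e
 (c z e
 (c z e
 (c (a (nat_lit 0xa10586c9068)) e e)))))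
 (c (a (nat_lit 0x40404041))
 (c z e
 (c (b (nat_lit 0x12bff8424008)) e e))
 (c (nat_lit 1)
 (c (a (nat_lit 0xc3e0e928aa6)) e e)
 (c (a (nat_lit 0x203585)) e
 (c (a (nat_lit 0x2add05))
 (c (a (nat_lit 0x121963c00007)) e
 (c (a (nat_lit 0x1ae000000007)) e e))
 (c (a (nat_lit 0x717f530a7)) e
 (c z e
 (c (a (nat_lit 0x10cf87e027)) e
 (c (a (nat_lit 0x1f030021e6)) e
 (c (a (nat_lit 0x160140a081)) e
 (c z e
 (c (b (nat_lit 0x1fffe12181)) e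
 (c (b (nat_lit 0x1fe060a021)) e
 (c (a (nat_lit 0x101406061)) e
 (c (a (nat_lit 0x2c0e06021)) e
 (c (a (nat_lit 0x201408001)) e
 (c (a (nat_lit 0xe0000001)) e e)))))))))))))))))))))
 (c (nat_lit 1)
 (c (nat_lit 1)
 (c (a (nat_lit 0x4e421818101)) e
 (c (a (nat_lit 0x2218322a181)) e
 (c (a (nat_lit 0x4061a14001)) e
 (c (a (nat_lit 0xe1e201c101)) e
 (c (a (nat_lit 0x18181418501)) e
 (c (a (nat_lit 0x2020203386)) e
 (c (a (nat_lit 0x202cb16ea8)) e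
 (c z e
 (c z e
 (c (b (nat_lit 0x125fe640e0c6)) e
 (c (b (nat_lit 0x1ff284a00003)) e
 (c (a (nat_lit 0x1c8000000002)) e e))))))))))))
 (c (a (nat_lit 0x60604041))
 (c (a (nat_lit 0x1c1c3026161)) e
 (c (a (nat_lit 0x1832302c201)) e
 (c (a (nat_lit 0x303e3636401)) e
 (c (a (nat_lit 0x202040bfa5)) e
 (c (a (nat_lit 0x202d711608)) e
 (c (a (nat_lit 0x2cba7cf9c8)) e
 (c z e
 (c z e
 (c (b (nat_lit 0x13dff200e004)) e
 (c (a (nat_lit 0xea0000001)) e e))))))))))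
 (c (nat_lit 1)
 (c (a (nat_lit 0x14141c1c4c1)) e
 (c (a (nat_lit 0x2020407f86)) e
 (c (a (nat_lit 0x20204976c7)) e
 (c (a (nat_lit 0x10e51f24ea8)) e e))))
 (c (a (nat_lit 0x60604041))
 (c (a (nat_lit 0x203934a6)) e
 (c (a (nat_lit 0x26b2bf1547)) e e))
 (c (a (nat_lit 0x40404041))
 (c z e
 (c (a (nat_lit 0x10b6b1627088)) e e))
 (c (a (nat_lit 0x3765))
 (c (a (nat_lit 0xc6647e83ca7)) e e)
 (c (b (nat_lit 0x3ff6e6)) e
 (c (a (nat_lit 0x120d7bf507)) e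
 (c z e
 (c (a (nat_lit 0x12ac21c087)) e
 (c (a (nat_lit 0x17c3008006)) e
 (c (b (nat_lit 0x1349269fe4)) e
 (c z e
 (c (b (nat_lit 0x5dff9d9a4)) e
 (c (b (nat_lit 0x1fe3c18101)) e
 (c (a (nat_lit 0x240c06061)) e
 (c (a (nat_lit 0xc0a06041)) e
 (c (a (nat_lit 0x14060c001)) e
 (c (a (nat_lit 0xa0800001)) e e)))))))))))))))))))
 C595)))) Tr.c Tr.e (nat_lit 0) C.cx C.cy
noncomputable def C597 : Tr := beta% (fun (c : Nat → Tr → Tr → Tr) (e : Tr) (z : Nat) (a b : Nat → Nat) =>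
 (c (a (nat_lit 0x20202021))
 (c (a (nat_lit 0x4e4f3a824e5))
 (c (a (nat_lit 0x4e4ea31f746c5))
 (c z e
 (c (a (nat_lit 0x58db21e378fb0c6)) e
 (c z e
 (c (a (nat_lit 0x8ec772aa7800006)) e
 (c (a (nat_lit 0xa1a682000000005)) e
 (c (a (nat_lit 0x1080000000000006)) e e))))))
 (c (a (nat_lit 0x82e63404a168)) e
 (c z e
 (c (a (nat_lit 0x143aecb132a086)) e
 (c (a (nat_lit 0x11e1a408666866)) e
 (c (a (nat_lit 0xc8c6e2cd0cec7)) e
 (c z e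
 (c (a (nat_lit 0x6e22a097b18c6)) e
 (c (a (nat_lit 0x5446442aef027)) e
 (c (a (nat_lit 0x10486b06130006)) e
 (c (a (nat_lit 0xbab7560000004)) e e)))))))))))
 (c z e
 (c z e
 (c (a (nat_lit 0x8e4242292c6))
 (c z e
 (c (a (nat_lit 0x1b9294a808a106)) e
 (c z e
 (c z e
 (c z e
 (c (a (nat_lit 0x1d552e2200008)) e e))))))
 (c (a (nat_lit 0x22220304566))
 (c (a (nat_lit 0xa09a421c4f7e7)) e
 (c (b (nat_lit 0x16cb691fe89fe7)) e
 (c z e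
 (c (a (nat_lit 0x711ed21a0e008)) e
 (c (a (nat_lit 0xd106060000009)) e e)))))
 (c (a (nat_lit 0xa8a520ce887))
 (c (b (nat_lit 0x1ab93fe7c1ad46)) e e)
 (c (a (nat_lit 0xcdb4e6aeae6)) e
 (c (a (nat_lit 0x1668c7e7c3e6)) e
 (c (a (nat_lit 0x1e775743c705)) e
 (c (a (nat_lit 0x14f500808744)) e
 (c (a (nat_lit 0x686240461)) e
 (c (a (nat_lit 0x2020203ae4)) e
 (c (a (nat_lit 0x404ab9fee5)) e
 (c (a (nat_lit 0x8afa5f4065)) e
 (c z e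
 (c (a (nat_lit 0x181a60202025)) e
 (c (a (nat_lit 0x1a6020200005)) e
 (c (a (nat_lit 0x2000000001)) e e))))))))))))))))))
 (c (nat_lit 1)
 (c (b (nat_lit 0x1bc39fe04006))
 (c (a (nat_lit 0x576e7026240c8))
 (c (a (nat_lit 0x952b2f0ca83e007)) e e)
 (c z e
 (c z e
 (c z e
 (c z e
 (c (a (nat_lit 0x81fc92f03467)) e e))))))
 (c z e
 (c z e
 (c z e
 (c z e
 (c (a (nat_lit 0x1e6b6fefcf66))
 (c (b (nat_lit 0x3ff044600007)) e e)
 (c (a (nat_lit 0x128a4a426046)) e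
 (c (a (nat_lit 0x1c1d08686b45)) e
 (c (a (nat_lit 0xfcfd5c7b63)) e
 (c (a (nat_lit 0xe161403105)) e
 (c (a (nat_lit 0x2022437dc8)) e
 (c (a (nat_lit 0x2264ddc568)) e
 (c z e
 (c z e
 (c (a (nat_lit 0x1ca560202008)) e
 (c (a (nat_lit 0x152020000006)) e e))))))))))))))))
 (c (a (nat_lit 0x20202021))
 (c z e
 (c z e
 (c (a (nat_lit 0x5390f89ea26)) e
 (c (a (nat_lit 0x1e57de9f7f66))
 (c (b (nat_lit 0x1ffff08a700807)) e e)
 (c (a (nat_lit 0x14e080c08084))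
 (c (a (nat_lit 0x7827e0000002)) e e)
 (c z e
 (c (a (nat_lit 0x2ba1a9a19a2)) e
 (c (a (nat_lit 0x142a3c0d3a3)) e
 (c (b (nat_lit 0x2036fffd07)) e
 (c (b (nat_lit 0x203fef7d26)) e e))))))))))
 (c (a (nat_lit 0x60606061))
 (c (a (nat_lit 0x1d5eae64645))
 (c (b (nat_lit 0xd2bb79ff32cc5)) e
 (c (a (nat_lit 0x4fb15470807)) e
 (c z e
 (c (b (nat_lit 0x20cfff8eae006)) e e))))
 (c (a (nat_lit 0x1ba4c0804025))
 (c (b (nat_lit 0x1ff311c3610048)) e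
 (c (a (nat_lit 0x160a8502206028)) e
 (c (a (nat_lit 0x1223c5e1400008)) e e)))
 (c (a (nat_lit 0x176060606024))
 (c (a (nat_lit 0x6835063812004)) e
 (c (a (nat_lit 0x1a9bcac0000006)) e e))
 (c (a (nat_lit 0x13f400808045))
 (c (a (nat_lit 0x19654000000006)) e e)
 (c (a (nat_lit 0x1adada7aa4)) e
 (c (a (nat_lit 0x4082c2d125)) e
 (c (a (nat_lit 0x375b7c67)) e
 (c z e
 (c z e
 (c (a (nat_lit 0x284e5d32f66)) e
 (c (a (nat_lit 0x54875cced26)) e e)))))))))))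
 (c (nat_lit 1)
 (c (a (nat_lit 0x22830100e1))
 (c (a (nat_lit 0xd922340404027)) e
 (c (a (nat_lit 0x10244160402008)) e
 (c (a (nat_lit 0x1ae44160000005)) e e)))
 (c (a (nat_lit 0x1232a0606044))
 (c (a (nat_lit 0x142a0ac0800005)) e
 (c (a (nat_lit 0x1705a000000005)) e e))
 (c (a (nat_lit 0x1428f2e09c1)) e
 (c (a (nat_lit 0x2080c09fa4)) e
 (c (a (nat_lit 0x3232fb19188)) e
 (c z e
 (c z e
 (c (a (nat_lit 0x186b20603ae5)) e
 (c (a (nat_lit 0x1c042a8b0a7)) e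
 (c (a (nat_lit 0x6e96f576a07)) e e))))))))))
 (c (nat_lit 1)
 (c (a (nat_lit 0x2c50483a1)) e
 (c (a (nat_lit 0x1a202c17d63)) e
 (c (a (nat_lit 0x2073da9686)) e
 (c (a (nat_lit 0x31bfe5d3707)) e
 (c z e
 (c (a (nat_lit 0x1bbada36e1e7)) e
 (c (a (nat_lit 0x16020217dc6)) e
 (c (a (nat_lit 0x20269dd8c6)) e e))))))))
 (c (a (nat_lit 0x202001))
 (c (a (nat_lit 0x204ef25126)) e
 (c (a (nat_lit 0x3136147367)) e
 (c z e
 (c (a (nat_lit 0x1c7b9efa4528)) e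
 (c (a (nat_lit 0x9a9b026a668)) e
 (c (a (nat_lit 0x9698ad90f46)) e e))))))
 (c (a (nat_lit 0x80606041))
 (c z e
 (c (a (nat_lit 0x1433138c2288)) e
 (c z e
 (c z e
 (c z e
 (c (a (nat_lit 0xb9d76b0005)) e
 (c (a (nat_lit 0x1a0c00000005)) e e)))))))
 (c (a (nat_lit 0x20000001))
 (c (a (nat_lit 0x147515252927)) e
 (c z e
 (c z e
 (c (a (nat_lit 0x6738c288847)) e
 (c (a (nat_lit 0x1ccd66000006)) e
 (c (a (nat_lit 0x1e0000000004)) e e))))))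
 (c (a (nat_lit 0x2041))
 (c z e
 (c (a (nat_lit 0x2cef29110e8)) e
 (c (a (nat_lit 0x158dc567c006)) e
 (c (a (nat_lit 0x152020000006)) e e))))
 (c (a (nat_lit 0x202001))
 (c (b (nat_lit 0x1ff375392005)) e
 (c (a (nat_lit 0x110040200005)) e
 (c (a (nat_lit 0x24000000001)) e e)))
 (c (a (nat_lit 0x20203d85))
 (c (a (nat_lit 0x4020000001)) e e)
 (c (a (nat_lit 0x2edb26)) e
 (c (a (nat_lit 0x2d19df226)) e
 (c z e
 (c (a (nat_lit 0x182d208006)) e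
 (c (a (nat_lit 0x1a81605845)) e
 (c (b (nat_lit 0x120383fe5)) e
 (c z e
 (c (b (nat_lit 0x1ddfe02025)) e
 (c (b (nat_lit 0x1fe0804001)) e
 (c (a (nat_lit 0x40a06061)) e
 (c (a (nat_lit 0x80808001)) e
 (c (a (nat_lit 0x40000001)) e e))))))))))))))))))))))))) Tr.c Tr.e (nat_lit 0) C.cx C.cy
noncomputable def C598 : Tr := beta% (fun (c : Nat → Tr → Tr → Tr) (e : Tr) (z : Nat) (a b : Nat → Nat) =>
 (c (a (nat_lit 0x40404041))
 (c (a (nat_lit 0x2020376466))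
 (c (a (nat_lit 0x1c1c52f9bbe26))
 (c (a (nat_lit 0x1c230f28db0ccc6)) e
 (c z e
 (c z e
 (c (a (nat_lit 0xec658524c030007)) e
 (c (a (nat_lit 0x102fb5c980000006)) e
 (c (a (nat_lit 0xdf0600000000007)) e e))))))
 (c (a (nat_lit 0x21048995c649)) e
 (c z e
 (c z e
 (c (a (nat_lit 0x16f22024c530c7)) e
 (c (a (nat_lit 0x1585854a8a7227)) e
 (c z e
 (c z e
 (c (a (nat_lit 0x4a665c56570e9)) e
 (c (a (nat_lit 0xceb6ab20e9408)) e
 (c (a (nat_lit 0x720a112c00005)) e e)))))))))))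
 (c (a (nat_lit 0x3ba58247))
 (c z e
 (c z e
 (c z e
 (c z e
 (c z e
 (c z e
 (c z e
 (c z e
 (c z e
 (c (a (nat_lit 0x26771c0000007)) e e))))))))))
 (c z e
 (c z e
 (c (a (nat_lit 0xa27674412e7))
 (c (a (nat_lit 0x85f95682565e7)) e
 (c (a (nat_lit 0x16d92e27a04788)) e
 (c z e
 (c z e
 (c (a (nat_lit 0x39fc62200009)) e e)))))
 (c (a (nat_lit 0x5c623d20b87))
 (c (a (nat_lit 0x10ea89c60ac048)) e e)
 (c z e
 (c z e
 (c (a (nat_lit 0x1ef695754b87)) e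
 (c (a (nat_lit 0x1109c9c9c027)) e
 (c (a (nat_lit 0x1e5a6266a01)) e
 (c (a (nat_lit 0x40404035e5)) e
 (c (a (nat_lit 0x20270c9946)) e
 (c (a (nat_lit 0x6754b991e6)) e
 (c z e
 (c z e
 (c (a (nat_lit 0x194f00402006)) e
 (c (a (nat_lit 0x1e4060000005)) e e))))))))))))))))))
 (c (a (nat_lit 0x20202041))
 (c z e
 (c z e
 (c z e
 (c z e
 (c z e
 (c (a (nat_lit 0x3bb74e22206))
 (c (a (nat_lit 0x25aa15f2c008)) e e)
 (c z e
 (c (a (nat_lit 0x134a0a0041c7)) e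
 (c z e
 (c (a (nat_lit 0x161a11164)) e
 (c (a (nat_lit 0x2020203606)) e
 (c (a (nat_lit 0x1c1c58cba07)) e e))))))))))))
 (c (a (nat_lit 0x20202021))
 (c z e
 (c z e
 (c z e
 (c (a (nat_lit 0x351d6658586)) e
 (c (a (nat_lit 0x1ddd5fbf9f66))
 (c (b (nat_lit 0x3ffa68400007)) e e)
 (c (a (nat_lit 0x1a70f36b8966)) e
 (c z e
 (c z e
 (c (a (nat_lit 0x14172335d87)) e
 (c (a (nat_lit 0x5858db0c6a7)) e
 (c z e
 (c (a (nat_lit 0x36502003548)) e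
 (c (a (nat_lit 0x5628077a408)) e e)))))))))))))
 (c (a (nat_lit 0x20202021))
 (c z e
 (c (a (nat_lit 0x47391c86866))
 (c (b (nat_lit 0x421b7bfe51967)) e e)
 (c (a (nat_lit 0x16daa322e005))
 (c (b (nat_lit 0x1ffffff648e0a4)) e
 (c (a (nat_lit 0x1732e61200007)) e e))
 (c (a (nat_lit 0x124080a06065))
 (c (b (nat_lit 0x1ff4c0c0000006)) e e)
 (c (a (nat_lit 0x10d0a080ad45)) e
 (c (a (nat_lit 0x4343435885)) e
 (c z e
 (c z e
 (c z e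
 (c (b (nat_lit 0x11ffe1603585)) e
 (c (b (nat_lit 0x1fe12f1579e5)) e
 (c (a (nat_lit 0x2f0b79bee65)) e e))))))))))))
 (c (a (nat_lit 0xa0c0c0a1))
 (c (a (nat_lit 0x142ee0406024))
 (c (b (nat_lit 0x1fff6a0366e045)) e
 (c (a (nat_lit 0x18a04545604027)) e
 (c (a (nat_lit 0x1192f3e0800006)) e e)))
 (c (a (nat_lit 0x160020202025))
 (c (a (nat_lit 0x1d01c560e04006)) e
 (c (a (nat_lit 0x12ada480000007)) e e))
 (c (a (nat_lit 0x1f3fa0e0a064))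
 (c (a (nat_lit 0x17e46000000006)) e e)
 (c (a (nat_lit 0x6c6c693e6)) e
 (c (a (nat_lit 0x181b39a3787)) e
 (c z e
 (c z e
 (c (a (nat_lit 0x162e0ba06285)) e
 (c (a (nat_lit 0x36240825066)) e
 (c (a (nat_lit 0x4c4088bf627)) e e))))))))))
 (c (a (nat_lit 0x80808081))
 (c (a (nat_lit 0x1657c0a12122))
 (c (a (nat_lit 0x8b9dc61200002)) e
 (c (a (nat_lit 0x10220000000005)) e e))
 (c (a (nat_lit 0x12483fd83)) e
 (c (a (nat_lit 0x205259bf06)) e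
 (c (a (nat_lit 0x2b5b7bbd567)) e
 (c z e
 (c (a (nat_lit 0x115392ae8608)) e
 (c (a (nat_lit 0x46080203106)) e
 (c (a (nat_lit 0xa020512966)) e e))))))))
 (c (a (nat_lit 0x204001))
 (c (a (nat_lit 0x407196b846)) e
 (c (a (nat_lit 0x30d7f75627)) e
 (c z e
 (c (a (nat_lit 0x1030118d8689)) e
 (c (a (nat_lit 0x1130b56d6928)) e
 (c (a (nat_lit 0x88727f73cc5)) e
 (c z e
 (c (b (nat_lit 0x1fe559c04005)) e
 (c (a (nat_lit 0x1ed9a0000005)) e e)))))))))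
 (c (a (nat_lit 0x80808081))
 (c z e
 (c (a (nat_lit 0x1f7c7eb280e7)) e
 (c z e
 (c z e
 (c z e
 (c (b (nat_lit 0x1ff36780e005)) e
 (c (a (nat_lit 0x1169c7e00006)) e
 (c (a (nat_lit 0x1dc000000002)) e e))))))))
 (c (a (nat_lit 0x40204041))
 (c (a (nat_lit 0x15f69687e8c7)) e
 (c z e
 (c z e
 (c (a (nat_lit 0x3afb04b4b47)) e
 (c (a (nat_lit 0x1051a8202006)) e
 (c (a (nat_lit 0x142020000005)) e e))))))
 (c (a (nat_lit 0x20000001))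
 (c z e
 (c (a (nat_lit 0x1336babaf8c8)) e
 (c (a (nat_lit 0xfb327e02006)) e
 (c (a (nat_lit 0x1740a0400003)) e
 (c (a (nat_lit 0x18000000001)) e e)))))
 (c (nat_lit 1)
 (c (a (nat_lit 0x6c730910d46)) e
 (c (a (nat_lit 0x21c746c001)) e
 (c (a (nat_lit 0x60000001)) e e)))
 (c (a (nat_lit 0x202021))
 (c (a (nat_lit 0x6060200001)) e
 (c (a (nat_lit 0x6000000001)) e e))
 (c (a (nat_lit 0x20203126)) e
 (c (a (nat_lit 0x20313a66)) e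
 (c (a (nat_lit 0x46d11ce07)) e
 (c z e
 (c (a (nat_lit 0x1910838066)) e
 (c (a (nat_lit 0x1023402986)) e
 (c (a (nat_lit 0x7e1d4c9a5)) e
 (c z e
 (c (a (nat_lit 0x1c514504e5)) e
 (c (a (nat_lit 0x18e0202024)) e
 (c (a (nat_lit 0xc0a08041)) e
 (c (a (nat_lit 0x140800001)) e e))))))))))))))))))))))))) Tr.c Tr.e (nat_lit 0) C.cx C.cy
noncomputable def C599 : Tr := beta% (fun (c : Nat → Tr → Tr → Tr) (e : Tr) (z : Nat) (a b : Nat → Nat) =>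
 (c (a (nat_lit 0x20202021))
 (c (a (nat_lit 0x2020203846))
 (c (a (nat_lit 0x2020276d33c6))
 (c (a (nat_lit 0x2026d8ed8c8e86)) e e)
 (c z e
 (c z e
 (c z e
 (c z e
 (c z e
 (c z e
 (c z e
 (c z e
 (c z e
 (c (b (nat_lit 0x1fe577399f6007)) e
 (c (a (nat_lit 0x440e0000001)) e e))))))))))))
 (c (a (nat_lit 0x13a228))
 (c z e
 (c z e
 (c z e
 (c z e
 (c z e
 (c z e
 (c z e
 (c z e
 (c z e
 (c z e
 (c (a (nat_lit 0xae18000000001)) e e)))))))))))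
 (c (a (nat_lit 0x20388220a8)) e
 (c z e
 (c z e
 (c z e
 (c z e
 (c z e
 (c z e
 (c z e
 (c (a (nat_lit 0x16cbfb330f47)) e
 (c (a (nat_lit 0x1e1812162e1)) e
 (c (a (nat_lit 0x4040609504)) e
 (c (a (nat_lit 0x204ed3f9a6)) e e))))))))))))))
 (c (a (nat_lit 0x20202021))
 (c (a (nat_lit 0x2030628027)) e
 (c z e
 (c z e
 (c z e
 (c z e
 (c z e
 (c z e
 (c (a (nat_lit 0x19f0ea8a60a7)) e
 (c (a (nat_lit 0x16a9c9c9c027)) e
 (c (b (nat_lit 0x1fecb1e381)) e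
 (c (a (nat_lit 0x2020203cc7)) e
 (c (a (nat_lit 0x606c7e80e7)) e
 (c z e
 (c (a (nat_lit 0xb5700204ee7)) e
 (c (a (nat_lit 0x1640202f8107)) e e)))))))))))))))
 (c (nat_lit 1)
 (c (a (nat_lit 0x19a648cb6227))
 (c (a (nat_lit 0xe5b7a5070d0e7)) e
 (c (a (nat_lit 0x167e9246066067)) e
 (c z e
 (c z e
 (c z e
 (c z e
 (c (b (nat_lit 0xe1fef576a4007)) e e)))))))
 (c (a (nat_lit 0x9c96c003247))
 (c (a (nat_lit 0x10ae46c602a848)) e
 (c z e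
 (c z e
 (c z e
 (c (b (nat_lit 0x6f07fea854228)) e
 (c (a (nat_lit 0xc395f4a800007)) e e))))))
 (c z e
 (c z e
 (c (a (nat_lit 0x999f4caaaa7))
 (c (b (nat_lit 0x1ffffff2c82007)) e e)
 (c (a (nat_lit 0x1e3936363247)) e
 (c (a (nat_lit 0x13ea0a0021c7)) e
 (c z e
 (c z e
 (c z e
 (c z e
 (c (a (nat_lit 0x152762007446)) e
 (c (a (nat_lit 0x721a0341ae6)) e
 (c (a (nat_lit 0x200949b7266)) e e))))))))))))))
 (c (nat_lit 1)
 (c (a (nat_lit 0x5e5c0518d46))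
 (c (b (nat_lit 0xd05e585513fe6)) e
 (c z e
 (c z e
 (c z e
 (c (a (nat_lit 0x1b45032461a007)) e
 (c (a (nat_lit 0x15a3c4c0000007)) e e))))))
 (c z e
 (c z e
 (c (a (nat_lit 0x1dd1624201e6))
 (c (a (nat_lit 0xc63dd44c00005)) e e)
 (c (a (nat_lit 0x17ea8a84e2c6)) e
 (c (a (nat_lit 0xfb191919204)) e
 (c z e
 (c z e
 (c z e
 (c (b (nat_lit 0x129fe44024a5)) e
 (c (b (nat_lit 0x1fe100213347)) e
 (c (a (nat_lit 0x20162345567)) e e))))))))))))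
 (c (nat_lit 1)
 (c (a (nat_lit 0x1ff122403e5)) e
 (c (a (nat_lit 0x1bf240402026))
 (c (b (nat_lit 0x87ffff8616085)) e
 (c (a (nat_lit 0x43d403400007)) e e))
 (c (a (nat_lit 0x1284a4e06046))
 (c (a (nat_lit 0x3563a0000006)) e e)
 (c (a (nat_lit 0x17f860e09884)) e
 (c z e
 (c z e
 (c z e
 (c (a (nat_lit 0x1f3458204004)) e
 (c (a (nat_lit 0x52620203046)) e
 (c (a (nat_lit 0x660e0f0fa26)) e e))))))))))
 (c (nat_lit 1)
 (c (a (nat_lit 0x162060402045))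
 (c (a (nat_lit 0x121d241606004)) e
 (c (a (nat_lit 0x116aa380000007)) e e))
 (c (a (nat_lit 0x17f8c0c0e064))
 (c (a (nat_lit 0x16444000000006)) e e)
 (c (a (nat_lit 0x393537007)) e
 (c z e
 (c z e
 (c (a (nat_lit 0x1d9cbbcc2006)) e
 (c (a (nat_lit 0x302202091a6)) e
 (c (a (nat_lit 0x2202071ae26)) e
 (c z e
 (c (b (nat_lit 0x1ff60f204005)) e
 (c (a (nat_lit 0x12c7a0000006)) e e)))))))))))
 (c (a (nat_lit 0x202021))
 (c (a (nat_lit 0xe11696b2c6)) e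
 (c z e
 (c z e
 (c z e
 (c (a (nat_lit 0xb8fd325eae6)) e
 (c (a (nat_lit 0x3c1a2137466)) e
 (c z e
 (c (a (nat_lit 0x550732ccb66)) e
 (c (a (nat_lit 0x14db00c00004)) e
 (c (a (nat_lit 0x1a6000000004)) e e))))))))))
 (c (a (nat_lit 0x60404061))
 (c z e
 (c (a (nat_lit 0x1573154e26c8)) e
 (c z e
 (c z e
 (c z e
 (c (a (nat_lit 0xc9bdbe9b046)) e
 (c (a (nat_lit 0x123220602006)) e
 (c (a (nat_lit 0x170020000005)) e e))))))))
 (c (a (nat_lit 0x20202021))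
 (c (a (nat_lit 0x121454c74787)) e
 (c z e
 (c z e
 (c (b (nat_lit 0x1fe4d761c005)) e
 (c (a (nat_lit 0x739c4208465)) e
 (c (a (nat_lit 0x158020200005)) e
 (c (a (nat_lit 0x2000000001)) e e)))))))
 (c (a (nat_lit 0x20202021))
 (c z e
 (c (b (nat_lit 0x1ff6b4f06004)) e
 (c (a (nat_lit 0x5cb20a0b4a3)) e
 (c (a (nat_lit 0x202026001)) e
 (c (a (nat_lit 0x60000001)) e e)))))
 (c (a (nat_lit 0x20202001))
 (c (a (nat_lit 0xa27a0203066)) e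
 (c (a (nat_lit 0x46202a1c1)) e
 (c (a (nat_lit 0xe0800001)) e
 (c (a (nat_lit 0x2000000001)) e e))))
 (c (a (nat_lit 0x21))
 (c (a (nat_lit 0x2020002001)) e
 (c (a (nat_lit 0x4000000001)) e e))
 (c (nat_lit 1)
 (c (nat_lit 1) e e)
 (c (a (nat_lit 0x20203306)) e
 (c (a (nat_lit 0x20331886)) e
 (c (a (nat_lit 0x7b133ee67)) e
 (c z e
 (c (a (nat_lit 0x15eb264046)) e
 (c (a (nat_lit 0xb06203a46)) e
 (c (a (nat_lit 0x8425c6f46)) e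
 (c z e
 (c (a (nat_lit 0x1ced802026)) e
 (c (a (nat_lit 0x1ae0202025)) e
 (c (a (nat_lit 0x80804001)) e
 (c (a (nat_lit 0x40000001)) e e)))))))))))))))))))))))))) Tr.c Tr.e (nat_lit 0) C.cx C.cy
noncomputable def C600 : Tr := beta% (fun (c : Nat → Tr → Tr → Tr) (e : Tr) (z : Nat) (a b : Nat → Nat) =>
 (c (a (nat_lit 0x20202021))
 (c (a (nat_lit 0x2020204021))
 (c (a (nat_lit 0x1c7fb3fa944c85))
 (c (a (nat_lit 0x14b456b6d5f5d786)) e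
 (c z e
 (c z e
 (c (a (nat_lit 0x8882e11eeaf5127)) e
 (c (a (nat_lit 0x1aafe19dbb61186)) e
 (c (a (nat_lit 0xad2ebaa50708be6)) e
 (c (a (nat_lit 0x16c7e41156c7b785)) e
 (c (a (nat_lit 0x904ed164f130f26)) e
 (c z e
 (c (a (nat_lit 0x10cf8c5628400006)) e
 (c (a (nat_lit 0x17936b0000000006)) e e)))))))))))
 (c z e
 (c (a (nat_lit 0xad34b60202026)) e
 (c (a (nat_lit 0x136ce0e1214106)) e
 (c (a (nat_lit 0x192343636368c5))
 (c (a (nat_lit 0x126baa6468b0a708)) e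
 (c (a (nat_lit 0x1d32454dd9316bc7)) e e))
 (c (b (nat_lit 0x606f3ffe83))
 (c (a (nat_lit 0x18a155c5e6edee25)) e e)
 (c z e
 (c z e
 (c z e
 (c (a (nat_lit 0x13163745a2e465)) e
 (c (a (nat_lit 0x16f6978a2a0806)) e
 (c z e
 (c (a (nat_lit 0xb8ac9ca31abc6)) e
 (c (a (nat_lit 0x9c889108c6686)) e
 (c (a (nat_lit 0x3c553cb802005)) e
 (c (a (nat_lit 0xaf965a0000005)) e
 (c (a (nat_lit 0x13e00000000005)) e e)))))))))))))))))
 (c (a (nat_lit 0x20202001))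
 (c (a (nat_lit 0x13f7d100202026))
 (c (a (nat_lit 0x142ecf54558dc427))
 (c z e
 (c (a (nat_lit 0xe4a658dd3cdc00009)) e e))
 (c (a (nat_lit 0xe4eb1d25052eda9))
 (c (a (nat_lit 0x7e70b3087e000000a)) e e)
 (c z e
 (c z e
 (c z e
 (c z e
 (c z e
 (c (a (nat_lit 0xfe7865147400009)) e e))))))))
 (c (a (nat_lit 0x18af2020202027))
 (c (a (nat_lit 0x4e50546eb8815ea))
 (c (a (nat_lit 0xd9011c50000000009)) e e) e)
 (c z e
 (c z e
 (c z e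
 (c z e
 (c z e
 (c (a (nat_lit 0x66d548d034347)) e
 (c z e
 (c z e
 (c z e
 (c (a (nat_lit 0x82e121c7f39e7)) e
 (c (a (nat_lit 0x8ccf757aa0a07)) e
 (c (a (nat_lit 0x16606040400004)) e
 (c (a (nat_lit 0x2c12000000001)) e e)))))))))))))))
 (c (a (nat_lit 0x402001))
 (c (a (nat_lit 0x1ac06060402625))
 (c (a (nat_lit 0x6c86a0a9154cc48)) e e)
 (c (a (nat_lit 0x20202021b5a8)) e
 (c z e
 (c z e
 (c z e
 (c z e
 (c z e
 (c z e
 (c z e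
 (c z e
 (c z e
 (c (a (nat_lit 0xef131752b0008)) e
 (c (a (nat_lit 0x1050aa40000008)) e
 (c (a (nat_lit 0x19800000000006)) e e))))))))))))))
 (c (a (nat_lit 0x202001))
 (c z e
 (c z e
 (c z e
 (c z e
 (c z e
 (c z e
 (c z e
 (c (b (nat_lit 0xebfec0e10f188)) e
 (c z e
 (c (a (nat_lit 0x7aecfd4b40c68)) e
 (c (a (nat_lit 0x100d5228a00008)) e
 (c (a (nat_lit 0x1c932000000007)) e e))))))))))))
 (c (a (nat_lit 0x2020203327))
 (c (a (nat_lit 0x1051ecc060ec26))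
 (c z e
 (c (a (nat_lit 0x11fc9030b1600007)) e e))
 (c (a (nat_lit 0xc4960c1263087))
 (c (a (nat_lit 0x1eb1f36ee0000007)) e e)
 (c z e
 (c z e
 (c z e
 (c (a (nat_lit 0xbec4f4f5558e8)) e
 (c (b (nat_lit 0x1fe5e887f01fe8)) e e)))))))
 (c (a (nat_lit 0x20203f2de6))
 (c (a (nat_lit 0x48020e2101166)) e
 (c z e
 (c z e
 (c z e
 (c (a (nat_lit 0x20a09894ad147)) e
 (c (a (nat_lit 0x6a6a666413428)) e e))))))
 (c (a (nat_lit 0x2032cb08a7)) e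
 (c z e
 (c (a (nat_lit 0x18ec89ca0007))
 (c (a (nat_lit 0xbad1c0f006487)) e e)
 (c (a (nat_lit 0x12ae54e1fc86))
 (c z e
 (c (a (nat_lit 0x5d38984c00009)) e e))
 (c (a (nat_lit 0xa4fa7d5aec7))
 (c (a (nat_lit 0x198da4e0000008)) e e)
 (c z e
 (c (a (nat_lit 0xbfad46b4b47)) e
 (c (a (nat_lit 0x1f5240202026)) e
 (c (a (nat_lit 0x124020202026)) e
 (c (a (nat_lit 0x20207864)) e
 (c (a (nat_lit 0x40787224)) e
 (c (a (nat_lit 0x2ba890e5)) e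
 (c z e
 (c (b (nat_lit 0x1fffee464621)) e
 (c (b (nat_lit 0x1fe820c00001)) e
 (c (a (nat_lit 0x70000000001)) e e))))))))))))))))))))))
 (c (nat_lit 1)
 (c (a (nat_lit 0x2020202021))
 (c (a (nat_lit 0x1a142020202025))
 (c z e
 (c (a (nat_lit 0x627680849087da9))
 (c (a (nat_lit 0xcf53c108000000008)) e e)
 (c (a (nat_lit 0x100b4d8e36779628)) e
 (c z e
 (c z e
 (c z e
 (c z e
 (c (a (nat_lit 0x9f3586b40000007)) e e))))))))
 (c (a (nat_lit 0x1aa02020204046))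
 (c (a (nat_lit 0x5a525a965f72c8a))
 (c (a (nat_lit 0x163a27800000000008)) e e)
 (c (a (nat_lit 0xa68466cba70ccaa)) e e))
 (c (a (nat_lit 0x2020202039a8)) e
 (c z e
 (c z e
 (c z e
 (c z e
 (c (a (nat_lit 0x14902ea4286ce7)) e
 (c z e
 (c z e
 (c z e
 (c (a (nat_lit 0x240d5756c667)) e
 (c (a (nat_lit 0xffadf3d402006)) e
 (c (a (nat_lit 0x1aa02020000006)) e
 (c (a (nat_lit 0x2000000000001)) e e)))))))))))))))
 (c (a (nat_lit 0x4040404041))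
 (c (a (nat_lit 0x202020203727))
 (c (a (nat_lit 0x6026044f7ab89e9)) e e)
 (c (b (nat_lit 0x20203ff34b29)) e
 (c z e
 (c z e
 (c z e
 (c z e
 (c z e
 (c z e
 (c z e
 (c z e
 (c (b (nat_lit 0x1fe48c6e10a889)) e
 (c (a (nat_lit 0x64607f7800008)) e
 (c (a (nat_lit 0x1d202000000007)) e e)))))))))))))
 (c (a (nat_lit 0x2020203448))
 (c z e
 (c z e
 (c z e
 (c z e
 (c z e
 (c z e
 (c z e
 (c z e
 (c z e
 (c (a (nat_lit 0xb11943510a009)) e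
 (c (a (nat_lit 0x107309c0000009)) e
 (c (a (nat_lit 0x12800000000008)) e e))))))))))))
 (c (a (nat_lit 0x2020362608)) e
 (c (a (nat_lit 0x328785e8)) e
 (c z e
 (c z e
 (c (a (nat_lit 0x16723934b947))
 (c (a (nat_lit 0x9bcd1138941e8)) e e)
 (c z e
 (c z e
 (c z e
 (c (a (nat_lit 0x1af2e4646027)) e
 (c (a (nat_lit 0x1d2020202026)) e
 (c (a (nat_lit 0x60c307a1)) e
 (c (a (nat_lit 0x20203707)) e
 (c (a (nat_lit 0x2036f007)) e
 (c z e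
 (c z e
 (c (b (nat_lit 0x1ffff2210001)) e
 (c (b (nat_lit 0x1ff1a0000001)) e e))))))))))))))))))))
 C599))) Tr.c Tr.e (nat_lit 0) C.cx C.cy
noncomputable def C601 : Tr := beta% (fun (c : Nat → Tr → Tr → Tr) (e : Tr) (z : Nat) (a b : Nat → Nat) =>
 (c (a (nat_lit 0x20202021))
 (c (a (nat_lit 0x20203b2087))
 (c (a (nat_lit 0x4420022b51727))
 (c (a (nat_lit 0x188d4a07af6ed0e6)) e
 (c (a (nat_lit 0xa4aed0a32730ae8)) e e))
 (c z e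
 (c z e
 (c z e
 (c (a (nat_lit 0xed1016201a5a8)) e
 (c (a (nat_lit 0x1124a42583cb28)) e
 (c z e
 (c z e
 (c (a (nat_lit 0x12b0b1b2320de8)) e
 (c (a (nat_lit 0xe3192fb600007)) e e))))))))))
 (c (a (nat_lit 0x203a406008)) e
 (c z e
 (c z e
 (c (a (nat_lit 0x8ea6886db26))
 (c (a (nat_lit 0xf54ae4a468268)) e
 (c (a (nat_lit 0xd1a314dc447e8)) e e))
 (c (a (nat_lit 0x8a80730eea7))
 (c (a (nat_lit 0xcbc658f463ec6)) e e)
 (c z e
 (c (a (nat_lit 0x756946b6b67)) e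
 (c (a (nat_lit 0x14130e8e8e88)) e
 (c (a (nat_lit 0x1b72728e2e87)) e
 (c (a (nat_lit 0x20404f1365)) e
 (c z e
 (c z e
 (c (a (nat_lit 0xae600403027)) e
 (c (a (nat_lit 0x5e0202fff07)) e
 (c (a (nat_lit 0x181897404c8)) e e))))))))))))))))
 (c (a (nat_lit 0x40402021))
 (c (a (nat_lit 0x14c0440627)) e
 (c (a (nat_lit 0x104485662148))
 (c (a (nat_lit 0x19efcf26646048)) e
 (c z e
 (c z e
 (c z e
 (c z e
 (c (b (nat_lit 0x1dfeb50246009)) e e))))))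
 (c z e
 (c z e
 (c z e
 (c z e
 (c (a (nat_lit 0xe3213f3e046)) e
 (c z e
 (c z e
 (c z e
 (c z e
 (c (a (nat_lit 0x126960402027)) e
 (c (a (nat_lit 0x96040203107)) e
 (c (a (nat_lit 0x8140717287)) e e))))))))))))))
 (c (nat_lit 1)
 (c (a (nat_lit 0x1f11ed405b84))
 (c (a (nat_lit 0x12d08ba5c582c6)) e
 (c (a (nat_lit 0x1e58cf0ac4a106)) e
 (c z e
 (c z e
 (c (a (nat_lit 0xd9307c6014026)) e
 (c (a (nat_lit 0xff45447400007)) e e))))))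
 (c (a (nat_lit 0x118d20799965))
 (c (a (nat_lit 0x184cec2a29d0e6)) e
 (c z e
 (c z e
 (c (a (nat_lit 0xb1029eb018008)) e
 (c (a (nat_lit 0x159664e0000008)) e e)))))
 (c z e
 (c (a (nat_lit 0xd36f970b066)) e
 (c (a (nat_lit 0xef0c908e106)) e
 (c (a (nat_lit 0x1f36b6e34be6)) e
 (c z e
 (c z e
 (c z e
 (c (a (nat_lit 0x1a76c4c02225)) e
 (c (a (nat_lit 0x1664a0223f45)) e
 (c (a (nat_lit 0x7c586b53766)) e e))))))))))))
 (c (a (nat_lit 0x40404041))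
 (c (a (nat_lit 0xf2794912aa5))
 (c (b (nat_lit 0x120fb07ffcf0e5)) e
 (c z e
 (c z e
 (c (a (nat_lit 0x106ff706600007)) e
 (c (a (nat_lit 0x1b67c000000007)) e e)))))
 (c z e
 (c (a (nat_lit 0x1a9a22c24204))
 (c (a (nat_lit 0x11134800600007)) e e)
 (c (a (nat_lit 0x1652f308af06)) e
 (c (a (nat_lit 0x42c1bbffe07)) e
 (c z e
 (c z e
 (c (a (nat_lit 0x191400402025)) e
 (c (a (nat_lit 0x142060405da5)) e
 (c (a (nat_lit 0xc0a0de4fe5)) e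
 (c z e
 (c (a (nat_lit 0x9129e80006)) e
 (c (a (nat_lit 0x164400000005)) e e)))))))))))))
 (c (a (nat_lit 0x40404041))
 (c (a (nat_lit 0xe1c80802024))
 (c (b (nat_lit 0xeb0dfe0e04027)) e
 (c (b (nat_lit 0x117fe420600007)) e e))
 (c (a (nat_lit 0x140080808bc5))
 (c (a (nat_lit 0x1a0b6500000006)) e e)
 (c (b (nat_lit 0xbffffffd26)) e
 (c z e
 (c z e
 (c (a (nat_lit 0x1efcb350c2c6)) e
 (c (a (nat_lit 0x9a020203106)) e
 (c (a (nat_lit 0xe0c0d1ca46)) e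
 (c z e
 (c (a (nat_lit 0x2f42ca8e8e6)) e
 (c (a (nat_lit 0x1687a0200005)) e
 (c (a (nat_lit 0x1e2000000003)) e e))))))))))))
 (c (a (nat_lit 0xa0c0c0a1))
 (c (a (nat_lit 0x4a4d5b95a26))
 (c (a (nat_lit 0x1b29e000000004)) e e)
 (c z e
 (c z e
 (c (a (nat_lit 0x1353d4afc288)) e
 (c (a (nat_lit 0x1d32f2c4ec26)) e
 (c (a (nat_lit 0xe0a79f4ac5)) e
 (c z e
 (c (a (nat_lit 0xcdfd5b23226)) e
 (c (a (nat_lit 0x1c46c0402005)) e
 (c (a (nat_lit 0x1b0040000003)) e e))))))))))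
 (c (nat_lit 1)
 (c z e
 (c (a (nat_lit 0x12f2d14ce648)) e
 (c z e
 (c z e
 (c z e
 (c (a (nat_lit 0x7182de5e466)) e
 (c (a (nat_lit 0x146a21a02806)) e
 (c (a (nat_lit 0x11e040400003)) e
 (c (nat_lit 1) e e)))))))))
 (c (a (nat_lit 0x2021))
 (c (a (nat_lit 0x1836d6aae667)) e
 (c z e
 (c z e
 (c (b (nat_lit 0x1ff22048a365)) e
 (c (a (nat_lit 0x13a06a0659a5)) e
 (c (a (nat_lit 0x1e263236001)) e
 (c (a (nat_lit 0x60000001)) e e)))))))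
 (c (a (nat_lit 0x202021))
 (c z e
 (c (a (nat_lit 0x8ba90eb6b86)) e
 (c (a (nat_lit 0xf45a0203046)) e
 (c (a (nat_lit 0x16101010081)) e
 (c (a (nat_lit 0x60a0a00001)) e
 (c (a (nat_lit 0x4000000001)) e e))))))
 (c (a (nat_lit 0x40404021))
 (c (a (nat_lit 0x7c2e0203066)) e
 (c (a (nat_lit 0x3c1a0c0c001)) e
 (c (a (nat_lit 0x2e2c080c001)) e
 (c (a (nat_lit 0x44120000001)) e e))))
 (c (a (nat_lit 0x40404041))
 (c (a (nat_lit 0x4080606021)) e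
 (c (a (nat_lit 0xc080200001)) e
 (c (a (nat_lit 0x4000000001)) e e)))
 (c (a (nat_lit 0x20000021))
 (c (a (nat_lit 0x4020000001)) e e)
 (c (a (nat_lit 0x20202021)) e
 (c (a (nat_lit 0x20203e25)) e
 (c (a (nat_lit 0xf3046)) e
 (c (a (nat_lit 0x5b4d5cfe6)) e
 (c z e
 (c (a (nat_lit 0x1cf1236025)) e
 (c (a (nat_lit 0x1143804ae5)) e
 (c (a (nat_lit 0x760f670c4)) e
 (c z e
 (c (a (nat_lit 0x1895eaaa85)) e
 (c (a (nat_lit 0x16a0202004)) e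
 (c (a (nat_lit 0x20400001)) e e))))))))))))))))))))))))) Tr.c Tr.e (nat_lit 0) C.cx C.cy
noncomputable def C602 : Tr := beta% (fun (c : Nat → Tr → Tr → Tr) (e : Tr) (z : Nat) (a b : Nat → Nat) =>
 (c (a (nat_lit 0x40404021))
 (c (a (nat_lit 0x4040606021))
 (c (a (nat_lit 0x18789d68f028c6))
 (c (a (nat_lit 0x90929112f4f5166))
 (c z e
 (c z e
 (c z e
 (c z e
 (c (a (nat_lit 0x14c484612d51000007)) e e)))))
 (c z e
 (c z e
 (c z e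
 (c (a (nat_lit 0x2004aed6c79f0c8)) e
 (c (a (nat_lit 0x2cb0b0751995ca7)) e
 (c z e
 (c z e
 (c z e
 (c (a (nat_lit 0x76dd30571e68008)) e
 (c (a (nat_lit 0x377e5a620000008)) e e)))))))))))
 (c z e
 (c z e
 (c (a (nat_lit 0xa765000202027)) e
 (c (a (nat_lit 0x12ae60202020c7))
 (c z e
 (c (a (nat_lit 0x17d36e0bef794b69)) e e))
 (c (a (nat_lit 0x1b40404181f7e6))
 (c (a (nat_lit 0x1a8c03e96e6ded47)) e e)
 (c z e
 (c z e
 (c z e
 (c (a (nat_lit 0xb52d0af07a808)) e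
 (c (a (nat_lit 0x12b0d18c652328)) e
 (c z e
 (c z e
 (c z e
 (c (a (nat_lit 0x123056782f8f87)) e
 (c (a (nat_lit 0x2bc4080200005)) e
 (c (a (nat_lit 0x1c808000000005)) e e)))))))))))))))))
 (c (a (nat_lit 0x2020404021))
 (c z e
 (c z e
 (c z e
 (c z e
 (c z e
 (c z e
 (c z e
 (c z e
 (c z e
 (c z e
 (c z e
 (c z e
 (c z e
 (c (a (nat_lit 0x1ab68e4880001)) e
 (c (a (nat_lit 0xd8c84e0000001)) e
 (c (a (nat_lit 0x5e00000000001)) e e))))))))))))))))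
 (c (a (nat_lit 0x6080808041))
 (c (a (nat_lit 0x13eb6020202387))
 (c (a (nat_lit 0x86746a64849b109)) e e)
 (c z e
 (c z e
 (c z e
 (c z e
 (c z e
 (c z e
 (c z e
 (c z e
 (c z e
 (c z e
 (c z e
 (c (a (nat_lit 0x12338740200007)) e
 (c (a (nat_lit 0x1aa74000000007)) e e))))))))))))))
 (c (a (nat_lit 0x4040404001)) e
 (c (a (nat_lit 0x6060604021))
 (c z e
 (c (a (nat_lit 0x1e3ce9c0c06127))
 (c (a (nat_lit 0x14755051cba00008)) e e)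
 (c z e
 (c z e
 (c z e
 (c z e
 (c (b (nat_lit 0x1fffef8a987028)) e e)))))))
 (c (a (nat_lit 0x2020203de7))
 (c (a (nat_lit 0x136720e040a926))
 (c (a (nat_lit 0x1dd04a8a60000006)) e e)
 (c z e
 (c z e
 (c z e
 (c (a (nat_lit 0x205dfe922527)) e
 (c (a (nat_lit 0x673b204a7a048)) e e))))))
 (c (a (nat_lit 0x20203d0b27)) e
 (c (a (nat_lit 0x370ba9e8)) e
 (c z e
 (c (a (nat_lit 0x15cdec080008))
 (c z e
 (c (a (nat_lit 0x8eab6cbc4200a)) e e))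
 (c (a (nat_lit 0x10ef17673787))
 (c (a (nat_lit 0x47bf0e5400009)) e e)
 (c z e
 (c z e
 (c z e
 (c (a (nat_lit 0x146e80404047)) e
 (c (a (nat_lit 0x1c80202025c6)) e
 (c (a (nat_lit 0x2025d9c6)) e
 (c (a (nat_lit 0x25998ae6)) e
 (c z e
 (c z e
 (c (b (nat_lit 0x119fe4402006)) e
 (c (a (nat_lit 0xc90a0000004)) e e))))))))))))))))))))))
 (c (a (nat_lit 0x40404041))
 (c (a (nat_lit 0x4040404041))
 (c (a (nat_lit 0xd32f1c0202005))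
 (c (a (nat_lit 0x150e6dcf0fd0c8a7))
 (c z e
 (c (a (nat_lit 0xc8d2eb7320d600008)) e e))
 (c (a (nat_lit 0x10af923334c51188))
 (c (a (nat_lit 0x9064ed36920000009)) e e) e))
 (c (a (nat_lit 0x1dd6e0204048c6))
 (c (a (nat_lit 0xb0c2d0e08eb3309))
 (c (a (nat_lit 0x40af5a44000000009)) e e) e)
 (c z e
 (c z e
 (c z e
 (c z e
 (c z e
 (c z e
 (c z e
 (c z e
 (c z e
 (c z e
 (c (a (nat_lit 0x3444d0e908027)) e
 (c (b (nat_lit 0x1fe46610400007)) e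
 (c (a (nat_lit 0x19402000000006)) e e)))))))))))))))
 (c (a (nat_lit 0x8080808081))
 (c (a (nat_lit 0x9a02020447107))
 (c (a (nat_lit 0xb45e6cee614da28))
 (c (a (nat_lit 0x731e0c00000000008)) e e) e)
 (c z e
 (c z e
 (c z e
 (c z e
 (c z e
 (c z e
 (c z e
 (c z e
 (c z e
 (c z e
 (c (a (nat_lit 0xe7cbdbfa02007)) e
 (c (a (nat_lit 0x1ca02020000007)) e
 (c (nat_lit 1) e e))))))))))))))
 (c (a (nat_lit 0x2020204041))
 (c z e
 (c z e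
 (c z e
 (c z e
 (c z e
 (c z e
 (c z e
 (c z e
 (c z e
 (c z e
 (c (a (nat_lit 0xdf0744a200009)) e e)))))))))))
 (c (a (nat_lit 0x2020203208)) e
 (c (a (nat_lit 0x20203ceb47)) e
 (c (a (nat_lit 0x203c0c6b67)) e
 (c z e
 (c z e
 (c z e
 (c z e
 (c z e
 (c z e
 (c (a (nat_lit 0x179580202006)) e
 (c (a (nat_lit 0x156020202966)) e
 (c (a (nat_lit 0x2020297e46)) e
 (c (a (nat_lit 0x24cf37c7)) e e))))))))))))))))
 (c (a (nat_lit 0x40404041))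
 (c (a (nat_lit 0x6080808081))
 (c (a (nat_lit 0x20204836abe5))
 (c (a (nat_lit 0xda2402178b47606)) e e)
 (c z e
 (c z e
 (c z e
 (c z e
 (c z e
 (c z e
 (c z e
 (c z e
 (c z e
 (c (b (nat_lit 0x1fffea0c338327)) e
 (c (a (nat_lit 0x6096ab2000007)) e
 (c (a (nat_lit 0x17202000000006)) e e)))))))))))))
 (c (a (nat_lit 0x2020203308))
 (c (a (nat_lit 0x21c181a19489))
 (c (a (nat_lit 0x147c96ca49ee4308)) e e)
 (c z e
 (c z e
 (c z e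
 (c z e
 (c (a (nat_lit 0x170cc54386ac89)) e
 (c z e
 (c z e
 (c z e
 (c (a (nat_lit 0x105718fcb2c009)) e
 (c (a (nat_lit 0x1213ac00000009)) e
 (c (a (nat_lit 0x1e800000000007)) e e))))))))))))
 (c (a (nat_lit 0x202034e488)) e
 (c (a (nat_lit 0x203165e468)) e
 (c z e
 (c z e
 (c (a (nat_lit 0x197657b69767))
 (c (a (nat_lit 0x1254d5ecb68aa8)) e e)
 (c z e
 (c z e
 (c z e
 (c (a (nat_lit 0x120bc4c4c067)) e
 (c (a (nat_lit 0x1c2040209205)) e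
 (c (a (nat_lit 0x4040497746)) e
 (c (a (nat_lit 0xc0ca17e966)) e
 (c z e
 (c (a (nat_lit 0xe780403307)) e
 (c (a (nat_lit 0x78040330427)) e e)))))))))))))))))
 C601)))) Tr.c Tr.e (nat_lit 0) C.cx C.cy
noncomputable def C603 : Tr := beta% (fun (c : Nat → Tr → Tr → Tr) (e : Tr) (z : Nat) (a b : Nat → Nat) =>
 (c (a (nat_lit 0x8080808081))
 (c (a (nat_lit 0x5455e72f59404))
 (c (a (nat_lit 0x6a6a6bc314809a1)) e
 (c z e
 (c z e
 (c (a (nat_lit 0xacf4d8c13119986))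
 (c (a (nat_lit 0x1ef673d3d6fc5958e7)) e
 (c (a (nat_lit 0x15cf4ba9f29b0cca28)) e e))
 (c (a (nat_lit 0xc6fb828d1096a85)) e
 (c z e
 (c z e
 (c (a (nat_lit 0x106cf3317cab97a5)) e
 (c (a (nat_lit 0xdf4383dd5f96fa5)) e
 (c (a (nat_lit 0x8caef489027d066)) e
 (c (a (nat_lit 0x6afa7e9223212a5)) e
 (c z e
 (c (a (nat_lit 0x1c687f228d000004)) e
 (c (a (nat_lit 0xa88740000000006)) e e))))))))))))))
 (c (a (nat_lit 0x57851926d8227))
 (c (a (nat_lit 0x9ae11d02a89d127))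
 (c (a (nat_lit 0x710afd3a8878707a8)) e e)
 (c z e
 (c z e
 (c z e
 (c z e
 (c (a (nat_lit 0xe09e6cff0659687)) e
 (c z e
 (c z e
 (c (a (nat_lit 0x848457d2df1d067)) e
 (c z e
 (c (b (nat_lit 0x9529ffd2e840007)) e e)))))))))))
 (c z e
 (c (a (nat_lit 0x191ada910c0966))
 (c z e
 (c (a (nat_lit 0x885abacf1f9ae08))
 (c (a (nat_lit 0xff4d02d4c40000009)) e e)
 (c z e
 (c (a (nat_lit 0x789ca4a24ebb628)) e
 (c z e
 (c z e
 (c (a (nat_lit 0x84189df4ce94227)) e e)))))))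
 (c (a (nat_lit 0x144acc8e0e8486))
 (c (a (nat_lit 0x909d4fe998d66a7)) e
 (c z e
 (c z e
 (c z e
 (c (a (nat_lit 0xcec69d186a3a588)) e
 (c (a (nat_lit 0xda5f10e8327a107)) e e))))))
 (c z e
 (c (a (nat_lit 0x12b459e0602044))
 (c (a (nat_lit 0xf35e9a52a2972a6)) e e)
 (c (a (nat_lit 0x13784040205f44))
 (c z e
 (c z e
 (c (a (nat_lit 0x1bf46a0f80000006)) e e)))
 (c (a (nat_lit 0xd602024921285))
 (c (a (nat_lit 0x15a0630621600006)) e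
 (c (a (nat_lit 0x1acccea000000005)) e e))
 (c (a (nat_lit 0x406b12b4af06)) e
 (c z e
 (c (a (nat_lit 0x98fb2abebe026)) e
 (c (b (nat_lit 0x131633133fffe6)) e
 (c (a (nat_lit 0x1350310a2909e6)) e
 (c (a (nat_lit 0x88cccec7032a6)) e
 (c (a (nat_lit 0x13537316b95da6)) e
 (c (a (nat_lit 0x968eccf53a6c6)) e
 (c (a (nat_lit 0xf12d56ce00006)) e
 (c (a (nat_lit 0x1cb0e000000005)) e e)))))))))))))))))))
 (c (a (nat_lit 0x2020202001))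
 (c (a (nat_lit 0x14cf2f8a606268))
 (c (a (nat_lit 0x8d473b66b98f726))
 (c (a (nat_lit 0x12563b4c8cecaac827)) e
 (c z e
 (c z e
 (c z e
 (c (a (nat_lit 0xa748826a0b3d4e008)) e e)))))
 (c z e
 (c z e
 (c z e
 (c (a (nat_lit 0x5404203c4aab229)) e
 (c (a (nat_lit 0x9454c0d633230a8)) e
 (c z e
 (c z e
 (c z e
 (c z e
 (c (a (nat_lit 0x8a3f283e2e00009)) e e)))))))))))
 (c z e
 (c z e
 (c z e
 (c (a (nat_lit 0xd5a9920202026))
 (c z e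
 (c (a (nat_lit 0x14d4ece8ecf07689)) e e))
 (c (a (nat_lit 0x19b74040202ae6))
 (c (a (nat_lit 0x1472d229b796bcc7)) e e)
 (c z e
 (c z e
 (c z e
 (c z e
 (c (a (nat_lit 0xf7470efe922e8)) e
 (c z e
 (c z e
 (c z e
 (c (a (nat_lit 0x1975b63d5cf5a7)) e
 (c (a (nat_lit 0x8a9d857446006)) e
 (c (a (nat_lit 0x153ba040000004)) e
 (c (a (nat_lit 0x1b600000000004)) e e))))))))))))))))))
 (c (a (nat_lit 0x2020202021))
 (c z e
 (c z e
 (c z e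
 (c z e
 (c (a (nat_lit 0x9e0202145d367)) e
 (c z e
 (c z e
 (c z e
 (c z e
 (c z e
 (c z e
 (c z e
 (c z e
 (c z e
 (c (a (nat_lit 0x89f21a0a00003)) e
 (c (a (nat_lit 0x1fe0e000000003)) e e))))))))))))))))
 (c (a (nat_lit 0x2001))
 (c (a (nat_lit 0x135cf2e0402025)) e
 (c (a (nat_lit 0x1ab4e040204f66))
 (c (a (nat_lit 0xbab0a2bcdf1af6a)) e
 (c z e
 (c z e
 (c z e
 (c z e
 (c (a (nat_lit 0x16b42a0780000009)) e e))))))
 (c z e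
 (c z e
 (c z e
 (c z e
 (c (a (nat_lit 0xa344ee478c7c7)) e
 (c z e
 (c z e
 (c z e
 (c (a (nat_lit 0x1bac350e0bd6e7)) e
 (c (a (nat_lit 0x830f375542b07)) e e))))))))))))
 (c (nat_lit 1)
 (c (a (nat_lit 0x16e222222f37e5))
 (c (a (nat_lit 0xd2b21d4d9ad6046)) e
 (c (b (nat_lit 0x90394cc1fe16068)) e
 (c z e
 (c z e
 (c (a (nat_lit 0x5eef1d311200007)) e
 (c (a (nat_lit 0x118c686000000006)) e e))))))
 (c z e
 (c z e
 (c z e
 (c (a (nat_lit 0xb4901402172e7)) e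
 (c (a (nat_lit 0x5006405d62267)) e
 (c z e
 (c z e
 (c (a (nat_lit 0x113a524daf56c8)) e
 (c (a (nat_lit 0x130def6e12ae08)) e
 (c (a (nat_lit 0x6517a164fc347)) e e)))))))))))
 (c (a (nat_lit 0x2040200001))
 (c z e
 (c (a (nat_lit 0x11740c614020a7))
 (c (a (nat_lit 0xa90c789a924c008)) e e)
 (c z e
 (c z e
 (c z e
 (c z e
 (c (a (nat_lit 0x884f6f5ac5787)) e e)))))))
 (c (a (nat_lit 0x6060606061))
 (c (a (nat_lit 0x10d184e082e5c5))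
 (c z e
 (c (a (nat_lit 0x115055e000000006)) e e))
 (c (a (nat_lit 0x1f6461c4496e65))
 (c (a (nat_lit 0x1bfe000000000005)) e e)
 (c z e
 (c z e
 (c z e
 (c (a (nat_lit 0xb33be0de54dc7)) e e))))))
 (c (a (nat_lit 0x2020203bc6))
 (c (a (nat_lit 0x56585c96d55e5)) e
 (c z e
 (c (b (nat_lit 0x1fffe2757afa26)) e e)))
 (c (a (nat_lit 0x20312487))
 (c (b (nat_lit 0x1fffe021651466)) e
 (c (a (nat_lit 0x2708953347)) e
 (c z e
 (c z e
 (c z e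
 (c (a (nat_lit 0x16f2939d200007)) e
 (c (a (nat_lit 0x15a9c000000007)) e e)))))))
 (c (a (nat_lit 0x348403a7))
 (c (a (nat_lit 0x3458f54550f06)) e
 (c z e
 (c z e
 (c (a (nat_lit 0xa8b33c828e008)) e
 (c (a (nat_lit 0xb06f100000008)) e
 (c (a (nat_lit 0x1b600000000005)) e e))))))
 (c (a (nat_lit 0x1ee9c86826)) e
 (c (a (nat_lit 0x1d718baa4026))
 (c (a (nat_lit 0xa06383925a008)) e e)
 (c (a (nat_lit 0xb8c33a97126)) e
 (c (a (nat_lit 0x9c9082f3046)) e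
 (c (a (nat_lit 0x104eb3f508a6)) e
 (c (a (nat_lit 0x14d7f90eaea6)) e
 (c (a (nat_lit 0x1274a0402005)) e
 (c (a (nat_lit 0x14c020203525)) e
 (c (a (nat_lit 0x2020355a05)) e
 (c (a (nat_lit 0x40557a2de5)) e
 (c z e
 (c (a (nat_lit 0xef8e0404024)) e
 (c (a (nat_lit 0x18c040400004)) e
 (c (a (nat_lit 0x2000000001)) e e))))))))))))))))))))))))) Tr.c Tr.e (nat_lit 0) C.cx C.cy
noncomputable def C604 : Tr := beta% (fun (c : Nat → Tr → Tr → Tr) (e : Tr) (z : Nat) (a b : Nat → Nat) =>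
 (c (a (nat_lit 0x20202021))
 (c (a (nat_lit 0x20202039e7))
 (c (b (nat_lit 0x1fee2040209e65))
 (c (a (nat_lit 0xe9128214064a027)) e e)
 (c z e
 (c z e
 (c z e
 (c (a (nat_lit 0x773cca9a020a7)) e
 (c (a (nat_lit 0x142d6840210047)) e
 (c z e
 (c z e
 (c z e
 (c (a (nat_lit 0x6cdd1b4918008)) e
 (c (a (nat_lit 0xe95ed20000007)) e
 (c (a (nat_lit 0x11200000000006)) e e))))))))))))
 (c (a (nat_lit 0x20203ba728)) e
 (c (a (nat_lit 0x326c0888)) e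
 (c z e
 (c (a (nat_lit 0x1a328f09e9e8))
 (c (a (nat_lit 0x8a80b8c891008)) e
 (c (a (nat_lit 0x7ca3309076829)) e e))
 (c (a (nat_lit 0x1871af0f0d67))
 (c (a (nat_lit 0x9f8cfa2ab6b68)) e e)
 (c z e
 (c z e
 (c z e
 (c (a (nat_lit 0x1bf4c0608006)) e
 (c (a (nat_lit 0x1480202537e6)) e
 (c (a (nat_lit 0x23b74c26)) e
 (c z e
 (c (b (nat_lit 0x1ff820202105)) e
 (c (a (nat_lit 0xc204020d086)) e
 (c (a (nat_lit 0xc0a0d10ba6)) e e))))))))))))))))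
 (c (a (nat_lit 0x202021))
 (c (a (nat_lit 0x2031e12088)) e
 (c z e
 (c z e
 (c z e
 (c (a (nat_lit 0x1007e7aff007))
 (c (b (nat_lit 0xd5186ffe90a47)) e e)
 (c z e
 (c z e
 (c (a (nat_lit 0x11926b2aaca7)) e
 (c (a (nat_lit 0x102c93522948)) e
 (c z e
 (c z e
 (c (a (nat_lit 0x18e400202006)) e
 (c (a (nat_lit 0x82080405d05)) e
 (c (a (nat_lit 0xa0605d26e5)) e e))))))))))))))
 (c (a (nat_lit 0x40404041))
 (c (a (nat_lit 0x18794a454045))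
 (c (a (nat_lit 0x5bb5a9a28305)) e
 (c (a (nat_lit 0xe5a2da5610026)) e
 (c z e
 (c z e
 (c (a (nat_lit 0xbab4d245108a8)) e
 (c (b (nat_lit 0x726d6dfe30008)) e e))))))
 (c (a (nat_lit 0x168a45605326))
 (c (a (nat_lit 0xf4c0a66e5f4e7)) e
 (c z e
 (c z e
 (c (a (nat_lit 0x667f1e82743c9)) e
 (c (a (nat_lit 0x396ca41e00009)) e e)))))
 (c z e
 (c z e
 (c (a (nat_lit 0xb36758e8e87)) e
 (c (a (nat_lit 0x15348f4f26c7)) e
 (c (a (nat_lit 0x148f1050e3e7)) e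
 (c z e
 (c z e
 (c (a (nat_lit 0x1568e6c04045)) e
 (c (a (nat_lit 0x24080207da5)) e
 (c (a (nat_lit 0x40205d4b65)) e
 (c z e
 (c (b (nat_lit 0x1ff463422005)) e
 (c (a (nat_lit 0x12e0a0000005)) e e)))))))))))))))
 (c (nat_lit 1)
 (c (a (nat_lit 0xba6c0f3ad25))
 (c (a (nat_lit 0xc4b490d6f3645)) e
 (c z e
 (c z e
 (c (a (nat_lit 0x2d9a228c06008)) e
 (c (a (nat_lit 0x134e6200000008)) e e)))))
 (c z e
 (c z e
 (c (a (nat_lit 0x1512096946c6)) e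
 (c (a (nat_lit 0x16d29c5531e7)) e
 (c z e
 (c z e
 (c (a (nat_lit 0x16eb67a020a5)) e
 (c (a (nat_lit 0x4406040f945)) e
 (c (a (nat_lit 0xe081794da5)) e
 (c z e
 (c (a (nat_lit 0x75fb43110e5)) e
 (c (a (nat_lit 0x1d6680400004)) e
 (c (a (nat_lit 0x19c000000002)) e e))))))))))))))
 (c (a (nat_lit 0x60606061))
 (c (a (nat_lit 0x9ce5067e7e6))
 (c z e
 (c (a (nat_lit 0xa8c94c4c18007)) e e))
 (c (a (nat_lit 0x19f940e0a4a5))
 (c (a (nat_lit 0x215a480800007)) e e)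
 (c z e
 (c z e
 (c z e
 (c (a (nat_lit 0x10cdcd0c2a07)) e
 (c (a (nat_lit 0x34080205d25)) e
 (c (a (nat_lit 0xc1a1beabe5)) e
 (c z e
 (c (b (nat_lit 0x1ff6a60403e5)) e
 (c (a (nat_lit 0x1261c0202005)) e
 (c (a (nat_lit 0xd00c0000001)) e e))))))))))))
 (c (a (nat_lit 0x40606061))
 (c (a (nat_lit 0x8e0f9ff7a85))
 (c (a (nat_lit 0x1408e0c0000005)) e e)
 (c z e
 (c z e
 (c (a (nat_lit 0x1bb89f18d787)) e
 (c (a (nat_lit 0x1190d0ccad66)) e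
 (c (a (nat_lit 0x36364506ae6)) e
 (c z e
 (c (b (nat_lit 0x1ffcf1c52505)) e
 (c (a (nat_lit 0x182ce0404025)) e
 (c (a (nat_lit 0x19c080200004)) e
 (c (a (nat_lit 0x28000000001)) e e)))))))))))
 (c (a (nat_lit 0xa0a0a0a1))
 (c z e
 (c (a (nat_lit 0x102e2eeb8748)) e
 (c z e
 (c z e
 (c z e
 (c (a (nat_lit 0x47d8e424005)) e
 (c (a (nat_lit 0x134ba5a02906)) e
 (c (a (nat_lit 0x15a060404003)) e
 (c (a (nat_lit 0x120c0000001)) e e)))))))))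
 (c (a (nat_lit 0x21))
 (c (a (nat_lit 0x16d8582a22c6)) e
 (c z e
 (c z e
 (c (b (nat_lit 0x1ffbaca1a005)) e
 (c (a (nat_lit 0x1b4f04407ea5)) e
 (c (a (nat_lit 0x2142042021)) e
 (c (a (nat_lit 0x1c1400001)) e
 (c (a (nat_lit 0x1a000000001)) e e))))))))
 (c (a (nat_lit 0x40404041))
 (c z e
 (c (b (nat_lit 0x1ffaeb406025)) e
 (c (a (nat_lit 0xd65a0203066)) e
 (c (a (nat_lit 0xc2a1416101)) e
 (c (a (nat_lit 0x16140e08001)) e
 (c (a (nat_lit 0x120c0000001)) e e))))))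
 (c (a (nat_lit 0x20202021))
 (c (a (nat_lit 0x6e300203066)) e
 (c (a (nat_lit 0x1c201e16001)) e
 (c (a (nat_lit 0xc1e1618041)) e
 (c (a (nat_lit 0x1c241000001)) e
 (c (a (nat_lit 0xe000000001)) e e)))))
 (c (nat_lit 1)
 (c (a (nat_lit 0x2040406021)) e
 (c (a (nat_lit 0xc0a1004001)) e
 (c (a (nat_lit 0x140e0000001)) e e)))
 (c (a (nat_lit 0x40404041))
 (c (a (nat_lit 0x80c0200001)) e
 (c (a (nat_lit 0x10000000001)) e e))
 (c (a (nat_lit 0xe0c0a0c1)) e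
 (c (a (nat_lit 0x60606061)) e
 (c (a (nat_lit 0x202032a5)) e
 (c (a (nat_lit 0x202977e6)) e
 (c (a (nat_lit 0x5aefd7086)) e
 (c z e
 (c (a (nat_lit 0x16a9c02026)) e
 (c (a (nat_lit 0x1360203705)) e
 (c (a (nat_lit 0x2036ee05)) e
 (c z e
 (c (a (nat_lit 0x10ac440406)) e
 (c (a (nat_lit 0x1060202005)) e
 (c (a (nat_lit 0x80000001)) e e)))))))))))))))))))))))))) Tr.c Tr.e (nat_lit 0) C.cx C.cy
noncomputable def C605 : Tr := beta% (fun (c : Nat → Tr → Tr → Tr) (e : Tr) (z : Nat) (a b : Nat → Nat) =>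
 (c (a (nat_lit 0x40404041))
 (c (a (nat_lit 0x6060606061))
 (c (a (nat_lit 0x16759d5b282825))
 (c z e
 (c (a (nat_lit 0x161894b23b3efd28))
 (c (a (nat_lit 0x13521a73d8b3e00008)) e e) e))
 (c (a (nat_lit 0xe702c00202367))
 (c (a (nat_lit 0xf0d0b0e13934f69))
 (c (a (nat_lit 0x111a37764ec0000008)) e e)
 (c z e
 (c z e
 (c z e
 (c (a (nat_lit 0xd4e1a154aec04e9)) e e)))))
 (c z e
 (c z e
 (c z e
 (c (a (nat_lit 0x4855d311541c6))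
 (c (a (nat_lit 0x118dab65a4a00008)) e e)
 (c z e
 (c z e
 (c z e
 (c (a (nat_lit 0x150f89cb2707e8)) e
 (c z e
 (c z e
 (c z e
 (c (a (nat_lit 0xfed6d966aa008)) e
 (c (a (nat_lit 0x1d3d5780000007)) e
 (c (a (nat_lit 0x17000000000005)) e e))))))))))))))))
 (c (nat_lit 1)
 (c (a (nat_lit 0x110a4020869247))
 (c (a (nat_lit 0x132f71fa1ad1db08))
 (c (a (nat_lit 0xf104bc62000000008)) e e)
 (c z e
 (c z e
 (c z e
 (c (a (nat_lit 0xe9d970c68478189)) e e)))))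
 (c z e
 (c z e
 (c (a (nat_lit 0xb715f76cff1e7)) e
 (c (a (nat_lit 0x9366d8be8a547))
 (c (a (nat_lit 0x1872d006a0000008)) e e)
 (c z e
 (c z e
 (c z e
 (c (a (nat_lit 0x102c2e4ae94a29)) e
 (c z e
 (c z e
 (c (a (nat_lit 0xf6dcd8ef40a89)) e
 (c (a (nat_lit 0x19b93c13200008)) e
 (c (a (nat_lit 0x1e520000000007)) e e))))))))))))))
 (c (a (nat_lit 0x2020204041))
 (c z e
 (c z e
 (c z e
 (c z e
 (c z e
 (c z e
 (c z e
 (c z e
 (c z e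
 (c z e
 (c z e
 (c (a (nat_lit 0x1a5e7660000006)) e e))))))))))))
 (c (a (nat_lit 0x6080808081)) e
 (c (a (nat_lit 0x2020203a47))
 (c z e
 (c (a (nat_lit 0x10f2ab2f2743a7)) e
 (c z e
 (c z e
 (c z e
 (c (a (nat_lit 0xc34d48c2da028)) e e))))))
 (c (a (nat_lit 0x2020397027))
 (c (a (nat_lit 0x5c1622860fd27)) e
 (c z e
 (c z e
 (c z e
 (c (a (nat_lit 0xcaceb2b047f09)) e e)))))
 (c (a (nat_lit 0x20368f8ce8)) e
 (c z e
 (c z e
 (c (a (nat_lit 0x155113a73207))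
 (c (a (nat_lit 0x371092220000a)) e e)
 (c z e
 (c z e
 (c (a (nat_lit 0xad4b2264647)) e
 (c (a (nat_lit 0x1cd7c02023c6)) e
 (c (a (nat_lit 0x17e0202419a6)) e
 (c (a (nat_lit 0x2a5792926)) e
 (c z e
 (c (b (nat_lit 0x1ff0408020a6)) e
 (c (b (nat_lit 0x10e140c4bfe6)) e e)))))))))))))))))))
 (c (a (nat_lit 0x40404041))
 (c (a (nat_lit 0x20002001))
 (c (a (nat_lit 0xbc1414b158d05))
 (c (a (nat_lit 0xc30f6d96bb7a9e6)) e
 (c z e
 (c z e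
 (c (a (nat_lit 0xaca76e625c60308)) e
 (c (a (nat_lit 0xf92a405a2c1a088)) e e)))))
 (c z e
 (c z e
 (c (a (nat_lit 0x3e520a5c73e26))
 (c z e
 (c (a (nat_lit 0x10878d2720000008)) e e))
 (c (a (nat_lit 0x5c0e6071b8046))
 (c (a (nat_lit 0x1576c4a000000006)) e e)
 (c z e
 (c z e
 (c (a (nat_lit 0xe76ade4242027)) e
 (c (a (nat_lit 0x1c97d9ca4b90a7)) e
 (c z e
 (c z e
 (c (a (nat_lit 0xc48cdb0a90008)) e
 (c (a (nat_lit 0xef88f40000007)) e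
 (c (a (nat_lit 0x12c00000000006)) e e))))))))))))))
 (c (a (nat_lit 0x6060606061))
 (c (b (nat_lit 0x1fffffc0a041c5))
 (c (a (nat_lit 0x100fb68d44a36a08)) e e)
 (c z e
 (c z e
 (c z e
 (c z e
 (c (a (nat_lit 0x43169e403e569)) e
 (c z e
 (c z e
 (c z e
 (c (a (nat_lit 0x3e0a88a71c649)) e
 (c (a (nat_lit 0xd6f30ebc00009)) e
 (c (a (nat_lit 0x114a8000000008)) e e))))))))))))
 (c (a (nat_lit 0x2020203028)) e
 (c (a (nat_lit 0x392fa7))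
 (c z e
 (c (b (nat_lit 0x5f14a65ab9fe7)) e
 (c z e
 (c z e
 (c z e
 (c (a (nat_lit 0x9650728611fe9)) e e))))))
 (c (a (nat_lit 0x4243c74ce47))
 (c (a (nat_lit 0xd004e67d03c05)) e
 (c z e
 (c z e
 (c (a (nat_lit 0x96aec272bb3c9)) e
 (c (a (nat_lit 0x689480413308a)) e e)))))
 (c (a (nat_lit 0x1db1eaa9e7)) e
 (c (a (nat_lit 0x14ec8928c2a8))
 (c (a (nat_lit 0x909718eca4d08)) e e)
 (c (a (nat_lit 0x1650cf029107))
 (c z e
 (c (a (nat_lit 0x6316c4300000a)) e e))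
 (c (a (nat_lit 0x15d84d3b3367))
 (c (a (nat_lit 0x1ab4e380000009)) e e)
 (c z e
 (c (a (nat_lit 0xc94708c6c68)) e
 (c (a (nat_lit 0x102860202707)) e
 (c (a (nat_lit 0x1080202e1306)) e
 (c (a (nat_lit 0x2d524bc6)) e
 (c z e
 (c (a (nat_lit 0x14a4604045a4)) e
 (c (a (nat_lit 0xe040217446)) e
 (c (a (nat_lit 0x1a18315e646)) e e))))))))))))))))))
 C604))) Tr.c Tr.e (nat_lit 0) C.cx C.cy
noncomputable def C606 : Tr := beta% (fun (c : Nat → Tr → Tr → Tr) (e : Tr) (z : Nat) (a b : Nat → Nat) =>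
 (c (a (nat_lit 0x40202001))
 (c (a (nat_lit 0x121213d8fafc6))
 (c (a (nat_lit 0xb0706a9774de764))
 (c z e
 (c z e
 (c z e
 (c z e
 (c (a (nat_lit 0x1b97b0eceb86270707)) e
 (c (a (nat_lit 0x1108e480c8a629c707)) e
 (c z e
 (c (a (nat_lit 0x19c02502c32382c008)) e e))))))))
 (c z e
 (c z e
 (c (a (nat_lit 0x4e2684900d3b027))
 (c z e
 (c (a (nat_lit 0xe718e284607eae68a)) e e))
 (c (a (nat_lit 0x1171c9f38157b506))
 (c (a (nat_lit 0x182ee948c6af214048)) e e)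
 (c z e
 (c z e
 (c (a (nat_lit 0x1f9d18d2ad33aaa6)) e
 (c (a (nat_lit 0x12ee688b8b932ea6)) e
 (c (a (nat_lit 0x11686f332fd60aa6)) e
 (c z e
 (c z e
 (c z e
 (c (a (nat_lit 0x343a25240000008)) e
 (c (a (nat_lit 0x1de9400000000006)) e e)))))))))))))))
 (c (a (nat_lit 0x2021ed615cb48)) e
 (c z e
 (c (a (nat_lit 0x199110ce0847e8))
 (c z e
 (c (a (nat_lit 0x503a9269017a9))
 (c (a (nat_lit 0x153112cd922e000009)) e e)
 (c z e
 (c z e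
 (c z e
 (c z e
 (c (b (nat_lit 0xd285fedd61196a8)) e e)))))))
 (c (a (nat_lit 0xfd1cce7eba9c7))
 (c (a (nat_lit 0x2ac8f315598d148)) e
 (c z e
 (c z e
 (c z e
 (c (a (nat_lit 0x76b88a6d165e649)) e
 (c (a (nat_lit 0xebb9189f2cb0aa8)) e e))))))
 (c z e
 (c z e
 (c z e
 (c (a (nat_lit 0xa0b6141473446))
 (c (a (nat_lit 0x1865426161608009)) e
 (c (a (nat_lit 0xb1669c9c0000007)) e e))
 (c (a (nat_lit 0x5a18472fa5ac7))
 (c (a (nat_lit 0x1630eb2000000006)) e e)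
 (c z e
 (c z e
 (c z e
 (c (a (nat_lit 0x181b7630ad04a7)) e
 (c (a (nat_lit 0x196c53715081c6)) e
 (c z e
 (c z e
 (c (a (nat_lit 0x1f1ca080606005)) e
 (c (a (nat_lit 0x1c806020000005)) e e)))))))))))))))))))
 (c (a (nat_lit 0x4040402001))
 (c z e
 (c z e
 (c z e
 (c z e
 (c z e
 (c z e
 (c z e
 (c z e
 (c z e
 (c z e
 (c z e
 (c z e
 (c z e
 (c z e
 (c z e
 (c z e
 (c (a (nat_lit 0x1b414241200005)) e e)))))))))))))))))
 (c (a (nat_lit 0x4040402021))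
 (c z e
 (c z e
 (c z e
 (c z e
 (c (a (nat_lit 0x102fe081027467)) e e)))))
 (c (a (nat_lit 0x20202001))
 (c z e
 (c (a (nat_lit 0xe19b120606b67))
 (c (a (nat_lit 0xbea8a08f0c8ff4a)) e
 (c z e
 (c z e
 (c z e
 (c z e
 (c (a (nat_lit 0xffad7d28b60000a)) e e))))))
 (c z e
 (c z e
 (c z e
 (c z e
 (c (a (nat_lit 0x1154d8b0cb98a8)) e
 (c z e
 (c z e
 (c z e
 (c (b (nat_lit 0x169f5ff7646007)) e
 (c (a (nat_lit 0x180a71d42ef3e7)) e e))))))))))))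
 (c (a (nat_lit 0x20202001))
 (c (a (nat_lit 0xba980406490c7))
 (c (a (nat_lit 0x7260429caf613c8)) e
 (c z e
 (c z e
 (c z e
 (c (a (nat_lit 0x1532d170ee27a009)) e
 (c (a (nat_lit 0x122d276680000009)) e e))))))
 (c z e
 (c z e
 (c z e
 (c (a (nat_lit 0xbd5cca1a06508)) e
 (c (a (nat_lit 0x1873a666ab7968)) e
 (c z e
 (c z e
 (c z e
 (c (a (nat_lit 0x1709070048688)) e
 (c (a (nat_lit 0x147272d2d41188)) e e)))))))))))
 (c (a (nat_lit 0x4060602001)) e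
 (c (a (nat_lit 0xa0a0a08061))
 (c (a (nat_lit 0x165614426043e6))
 (c (a (nat_lit 0x1db8fa2ef4472006)) e
 (c (a (nat_lit 0x1fd12d10e0000007)) e e))
 (c (a (nat_lit 0x1572c0e0c1a1a7))
 (c (a (nat_lit 0x19df1bc000000006)) e e) e))
 (c (a (nat_lit 0x4040402021))
 (c (a (nat_lit 0x12c020608261e6))
 (c (a (nat_lit 0x1acfa00000000005)) e e) e)
 (c (a (nat_lit 0x20201c87))
 (c (a (nat_lit 0x166492a69d7e5)) e
 (c (a (nat_lit 0xc2c0c5c750c8)) e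
 (c z e
 (c z e
 (c z e
 (c (a (nat_lit 0xe1251ab172009)) e
 (c (a (nat_lit 0x135f2120000006)) e e)))))))
 (c (a (nat_lit 0x2032e448))
 (c (a (nat_lit 0x904e5ac733a87)) e
 (c z e
 (c z e
 (c z e
 (c (a (nat_lit 0x4ea24f2800009)) e
 (c (a (nat_lit 0x13c04000000007)) e e))))))
 (c (a (nat_lit 0x203c0d2707)) e
 (c z e
 (c z e
 (c (a (nat_lit 0x86428e813c7)) e
 (c (a (nat_lit 0x7e200b59246)) e
 (c z e
 (c z e
 (c (a (nat_lit 0x104d20402a66)) e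
 (c (a (nat_lit 0x1a418054fc05)) e
 (c (a (nat_lit 0x564cf12b866)) e
 (c z e
 (c z e
 (c (a (nat_lit 0x16bd40202006)) e
 (c (a (nat_lit 0x1d4020000006)) e e))))))))))))))))))))))))) Tr.c Tr.e (nat_lit 0) C.cx C.cy
noncomputable def C607 : Tr := beta% (fun (c : Nat → Tr → Tr → Tr) (e : Tr) (z : Nat) (a b : Nat → Nat) =>
 (c (a (nat_lit 0x4040404041))
 (c (a (nat_lit 0x106d8d66e02148))
 (c z e
 (c (a (nat_lit 0x94b286c2bd71188))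
 (c (a (nat_lit 0x64b49c408d069ebc9)) e e)
 (c z e
 (c z e
 (c z e
 (c (a (nat_lit 0xe92afac8d734d08)) e
 (c z e
 (c z e
 (c z e
 (c (a (nat_lit 0xb529c0e47200008)) e e))))))))))
 (c (a (nat_lit 0x1f3d7b852c0747))
 (c (a (nat_lit 0x9842e55524f4e28))
 (c (a (nat_lit 0x9ebe6f017920e0a08)) e e)
 (c z e
 (c z e
 (c z e
 (c (a (nat_lit 0xa88a66dd2938929)) e
 (c z e
 (c z e
 (c z e
 (c (a (nat_lit 0x117dd0e820000009)) e e)))))))))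
 (c z e
 (c z e
 (c (a (nat_lit 0xc381705c5c466)) e
 (c (a (nat_lit 0x116fc021c2bc66))
 (c (a (nat_lit 0x79006adeb0701e8)) e e)
 (c z e
 (c z e
 (c z e
 (c (a (nat_lit 0xd77b91fdc2d67)) e
 (c z e
 (c z e
 (c z e
 (c (a (nat_lit 0x17078e0805d3e5)) e
 (c (a (nat_lit 0xa0dac89304466)) e e)))))))))))))))
 (c (a (nat_lit 0x2020202021))
 (c (b (nat_lit 0x108f864a041fe7))
 (c (a (nat_lit 0x705cd4dc8a9f2a7))
 (c z e
 (c (a (nat_lit 0x7ae9ae5c5c0000007)) e e))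
 (c z e
 (c z e
 (c (a (nat_lit 0xc66e99013f0f668)) e
 (c (a (nat_lit 0x7c95052925790c8)) e
 (c z e
 (c z e
 (c (a (nat_lit 0x1346126944c00008)) e
 (c (a (nat_lit 0x127b250000000008)) e e)))))))))
 (c z e
 (c z e
 (c (a (nat_lit 0x13cdc041e90e26))
 (c z e
 (c (a (nat_lit 0xe1a99fc9ccd0ec8)) e e))
 (c (a (nat_lit 0xd00a2ee11e2c6))
 (c (a (nat_lit 0x1249ec8d8b84a0c8)) e e)
 (c z e
 (c (b (nat_lit 0x2179e1fe020a5)) e
 (c (a (nat_lit 0xb0bc948a9d0a7)) e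
 (c (a (nat_lit 0xd6ad874944de7)) e
 (c z e
 (c (a (nat_lit 0xa0c93aeb146e7)) e
 (c (a (nat_lit 0x80f2cd0308d67)) e
 (c (a (nat_lit 0x18d3fadb9539c6)) e
 (c (a (nat_lit 0xbf2d32c288006)) e e))))))))))))))
 (c (nat_lit 1)
 (c (a (nat_lit 0xcd91460402705))
 (c (a (nat_lit 0x64745c7ea2e36a8)) e
 (c z e
 (c z e
 (c z e
 (c (a (nat_lit 0x4712d4bec2863a9)) e
 (c (a (nat_lit 0x1436d40c8a200008)) e e))))))
 (c z e
 (c z e
 (c z e
 (c (a (nat_lit 0x504d32786c707)) e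
 (c (a (nat_lit 0x1d005c0a0e727)) e
 (c z e
 (c z e
 (c z e
 (c (a (nat_lit 0x213f7917410c6)) e
 (c (a (nat_lit 0xb4d2c8e942c67)) e
 (c (a (nat_lit 0xaaa2c11a9c747)) e e))))))))))))
 (c (a (nat_lit 0x20204041))
 (c z e
 (c z e
 (c z e
 (c z e
 (c (a (nat_lit 0x1326a6666cbe46)) e e)))))
 (c (nat_lit 1)
 (c (a (nat_lit 0x1cb25521010164))
 (c (a (nat_lit 0x46b5125a98361c6)) e
 (c (a (nat_lit 0xb3e6a520dc00006)) e e))
 (c (a (nat_lit 0x125600e0e18bc5))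
 (c (a (nat_lit 0x17f7f3d000000006)) e e)
 (c (a (nat_lit 0x1540c060d04385)) e
 (c z e
 (c z e
 (c (b (nat_lit 0x1fe22f95b6ece7)) e
 (c z e
 (c z e
 (c z e
 (c (a (nat_lit 0x10cf2ec4000006)) e
 (c (a (nat_lit 0x14ca4000000006)) e e)))))))))))
 (c (a (nat_lit 0x6060406061))
 (c (a (nat_lit 0x1820c06187a7c4))
 (c (a (nat_lit 0x16c707e000000005)) e e)
 (c z e
 (c z e
 (c (a (nat_lit 0x381c20d39a6)) e
 (c (a (nat_lit 0x44a775b2e5e7)) e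
 (c z e
 (c z e
 (c (a (nat_lit 0x94e1047c06006)) e
 (c (a (nat_lit 0x1b7f6760000005)) e
 (c (a (nat_lit 0x18400000000005)) e e))))))))))
 (c (a (nat_lit 0x4040404041))
 (c (a (nat_lit 0x78737cdd8d884)) e
 (c (b (nat_lit 0x1fe8614161b524)) e
 (c (b (nat_lit 0x561059ffc1f46)) e
 (c z e
 (c z e
 (c (a (nat_lit 0x10b9bc0a205ee7)) e
 (c (a (nat_lit 0xf318584e00006)) e
 (c (a (nat_lit 0x18c1e000000005)) e e))))))))
 (c (a (nat_lit 0x202035a6))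
 (c (a (nat_lit 0x15f70d2da5e1a4)) e
 (c z e
 (c z e
 (c z e
 (c (a (nat_lit 0xa6bae6a972008)) e
 (c (a (nat_lit 0x7b7a640000004)) e e))))))
 (c (a (nat_lit 0x202035ebe6))
 (c z e
 (c (a (nat_lit 0x234649b2a9)) e e))
 (c (a (nat_lit 0x202f91e446))
 (c (a (nat_lit 0xc0c387f14ac9)) e e)
 (c (b (nat_lit 0xfd5ffffe5)) e
 (c (a (nat_lit 0xd5089c30046)) e
 (c (a (nat_lit 0x184ac5c03145)) e
 (c (a (nat_lit 0x58080514d05)) e
 (c (a (nat_lit 0x84830cea686)) e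
 (c (a (nat_lit 0xd5e7a4a09e5)) e
 (c (a (nat_lit 0x1450402049c5)) e
 (c (a (nat_lit 0x1060206a04a5)) e
 (c (a (nat_lit 0x6c710ab0805)) e
 (c z e
 (c (a (nat_lit 0x10c5c0606024)) e
 (c (a (nat_lit 0x18e2c0400002)) e
 (c (a (nat_lit 0x52000000001)) e e)))))))))))))))))))))))) Tr.c Tr.e (nat_lit 0) C.cx C.cy
noncomputable def C608 : Tr := beta% (fun (c : Nat → Tr → Tr → Tr) (e : Tr) (z : Nat) (a b : Nat → Nat) =>
 (c z
 (c (a (nat_lit 0x1a4ead6604a92901)) e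
 (c (a (nat_lit 0x1a1c1e123031b25))
 (c z e
 (c z e
 (c z e
 (c z e
 (c (a (nat_lit 0xb179af42f5acbae67)) e
 (c (a (nat_lit 0x86b3041c264c4a368)) e
 (c z e
 (c z e
 (c (a (nat_lit 0x243398140a26201a8)) e
 (c (a (nat_lit 0x51a86c38722400007)) e e))))))))))
 (c (a (nat_lit 0x2c36240404f3045))
 (c z e
 (c z e
 (c z e
 (c z e
 (c z e
 (c z e
 (c z e
 (c (a (nat_lit 0x61121a1c224626008)) e
 (c (a (nat_lit 0x13aa07048300000007)) e e)))))))))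
 (c (a (nat_lit 0x3a300439b1e9724))
 (c z e
 (c z e
 (c z e
 (c (a (nat_lit 0x14ca226a4d6e10c8c7)) e
 (c z e
 (c (a (nat_lit 0x278e1a661e3e02027)) e
 (c (a (nat_lit 0x13e3e623a826000007)) e e)))))))
 (c (a (nat_lit 0xe02131a702e445))
 (c z e
 (c (a (nat_lit 0x328906c178c070067)) e
 (c z e
 (c (a (nat_lit 0xb2ad3900789e8a927)) e
 (c (a (nat_lit 0x1a4809684a4541a007)) e e)))))
 (c (a (nat_lit 0x5864cd029e76785))
 (c z e
 (c z e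
 (c (a (nat_lit 0x8d68440e26a024026)) e e)))
 (c (a (nat_lit 0xbb90e8ba9c9e645)) e
 (c (a (nat_lit 0x19cbe709a9c26024)) e
 (c z e
 (c z e
 (c (a (nat_lit 0x16140a4a88150d03)) e
 (c z e
 (c (a (nat_lit 0xd11d4db708449c4)) e
 (c (a (nat_lit 0x6a7690984203706)) e
 (c (a (nat_lit 0x301a2c34260f5c6)) e
 (c z e
 (c (a (nat_lit 0x14b1688000000004)) e e)))))))))))))))))
 (c (a (nat_lit 0x2020202033a6))
 (c (a (nat_lit 0x1206222302766))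
 (c (a (nat_lit 0xceb8a6828eeb14e47))
 (c z e
 (c (a (nat_lit 0x40608263a349d45269)) e
 (c (a (nat_lit 0x12102a2a4899c5710a9)) e e)))
 (c z e
 (c z e
 (c z e
 (c (a (nat_lit 0x19d9b9111e078da4e8)) e
 (c z e
 (c z e
 (c z e
 (c (a (nat_lit 0x3f8e0a06122410009)) e
 (c (a (nat_lit 0x1207828543e0000008)) e e))))))))))
 (c (a (nat_lit 0x1a100222626f168)) e
 (c z e
 (c z e
 (c (a (nat_lit 0x515bc2dd0b1af26))
 (c (a (nat_lit 0x118cd60e8c890c4889)) e e)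
 (c z e
 (c z e
 (c z e
 (c (a (nat_lit 0x1070aa4843268f26)) e
 (c (a (nat_lit 0x1d7291c147ce2025)) e
 (c (b (nat_lit 0xe6c679fef713486)) e
 (c z e
 (c z e
 (c (a (nat_lit 0x444c54624b42008)) e
 (c (a (nat_lit 0x11906e03e0000006)) e e)))))))))))))))
 (c (a (nat_lit 0x20202036ac86)) e
 (c (a (nat_lit 0xe0e0f5508f87))
 (c (a (nat_lit 0x82ce2bb0d3cb26))
 (c z e
 (c (a (nat_lit 0xe73310da7eac72389)) e
 (c (a (nat_lit 0x15ec4545a705432968)) e e)))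
 (c (a (nat_lit 0x8f04a0f95d4efa6))
 (c (a (nat_lit 0x110e0ee8c5a621e6a9)) e
 (c z e
 (c z e
 (c z e
 (c (a (nat_lit 0x1c946a0ac000000007)) e e)))))
 (c z e
 (c z e
 (c z e
 (c (a (nat_lit 0x1b6d9418357b8085)) e
 (c z e
 (c z e
 (c z e
 (c (a (nat_lit 0x442e4054c10cb08)) e e))))))))))
 (c (a (nat_lit 0x505197754af46))
 (c (a (nat_lit 0xb65edcaf24a5a65))
 (c (a (nat_lit 0xad787e7e5c48ac8a7)) e e)
 (c z e
 (c z e
 (c (a (nat_lit 0x94e6cf6b76d03c6)) e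
 (c (a (nat_lit 0x10503af5f0cb9ae6)) e
 (c (a (nat_lit 0xb14f857c78a9d26)) e
 (c z e
 (c (a (nat_lit 0x58344ec8ce79407)) e
 (c (a (nat_lit 0x7638b3d1b1fe727)) e e)))))))))
 (c (a (nat_lit 0x2dffcba6ca9e6))
 (c (a (nat_lit 0x6c90d4fec6bf207))
 (c (a (nat_lit 0x16700f2c488e264007)) e e)
 (c z e
 (c z e
 (c z e
 (c (a (nat_lit 0xa0c31c849ed7fa7)) e
 (c (b (nat_lit 0x5ec3fe82610eda7)) e e))))))
 (c z e
 (c (a (nat_lit 0x1b916cc06ae9a4))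
 (c z e
 (c (a (nat_lit 0x786a5e444180187)) e
 (c z e
 (c z e
 (c z e
 (c (a (nat_lit 0x17bc3b6c40000007)) e e))))))
 (c (b (nat_lit 0x104741b6af9fe3))
 (c (a (nat_lit 0x2e3826213c32167)) e
 (c z e
 (c z e
 (c (a (nat_lit 0x2ba8763e1c00008)) e
 (c (a (nat_lit 0x14c9844000000008)) e e)))))
 (c (a (nat_lit 0xccbff7ac14103))
 (c z e
 (c (a (nat_lit 0x176034322e16008)) e e))
 (c (a (nat_lit 0x266a560807405))
 (c (a (nat_lit 0x198405a5e1c00007)) e e)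
 (c (a (nat_lit 0x4e441e972ae26)) e
 (c (a (nat_lit 0xa079118d51006)) e
 (c z e
 (c (a (nat_lit 0xf18b593b31106)) e
 (c (a (nat_lit 0x1e8f688a4a68e4)) e
 (c (a (nat_lit 0x118aac6cab6784)) e
 (c (a (nat_lit 0x187a7a99557164)) e
 (c (a (nat_lit 0x1bbb3a5672b924)) e
 (c (a (nat_lit 0x12516dca286004)) e
 (c (a (nat_lit 0x160e83a0000003)) e
 (c (a (nat_lit 0x15e00000000002)) e e))))))))))))))))))))))) Tr.c Tr.e (nat_lit 0) C.cx C.cy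
noncomputable def C609 : Tr := beta% (fun (c : Nat → Tr → Tr → Tr) (e : Tr) (z : Nat) (a b : Nat → Nat) =>
 (c (nat_lit 1)
 (c (a (nat_lit 0x60606061))
 (c (a (nat_lit 0x20202001)) C608
 (c (a (nat_lit 0x40200001))
 (c (a (nat_lit 0x202020310887))
 (c (a (nat_lit 0x24021a0997bcee4))
 (c z e
 (c z e
 (c z e
 (c z e
 (c (a (nat_lit 0x187c1579c7cba68588)) e
 (c (a (nat_lit 0x1e8928e24145c36888)) e
 (c z e
 (c z e
 (c (a (nat_lit 0x15e02100a200a00009)) e e)))))))))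
 (c z e
 (c z e
 (c z e
 (c (a (nat_lit 0x11964c0a66e91587))
 (c (a (nat_lit 0xbdaf1acaacc290609)) e e)
 (c z e
 (c z e
 (c z e
 (c (a (nat_lit 0x1d1651c2650bf706)) e
 (c (a (nat_lit 0x1c9a8a6ef1169226)) e
 (c z e
 (c z e
 (c z e
 (c (a (nat_lit 0x10443e3b9200008)) e
 (c (a (nat_lit 0x1551676000000007)) e e)))))))))))))))
 (c (a (nat_lit 0x20203e9614a8)) e
 (c (a (nat_lit 0x203953122888)) e
 (c (a (nat_lit 0x2f52f4e0a02e8)) e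
 (c (a (nat_lit 0x16f02f8746a428))
 (c (a (nat_lit 0xa6df43a57395de8))
 (c (a (nat_lit 0xb706906a965600008)) e e)
 (c z e
 (c z e
 (c z e
 (c (a (nat_lit 0xfaeaeab10124b49)) e
 (c (a (nat_lit 0x116e4f142b6c25e8)) e e))))))
 (c z e
 (c z e
 (c z e
 (c (a (nat_lit 0x46faf6807d6e6))
 (c (b (nat_lit 0xb9bfe183020189)) e
 (c (a (nat_lit 0x1fc061e402000009)) e e))
 (c (a (nat_lit 0x44300c6d00e67))
 (c (a (nat_lit 0xfe432cae0000006)) e e)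
 (c z e
 (c z e
 (c z e
 (c (a (nat_lit 0xfcf308f4de848)) e
 (c (a (nat_lit 0xc946a0a6400e5)) e
 (c z e
 (c z e
 (c (a (nat_lit 0x11cecce0204026)) e
 (c (a (nat_lit 0x1d398060400005)) e
 (c (a (nat_lit 0x19804000000005)) e e))))))))))))))))))))
 (c (a (nat_lit 0x4040404041))
 (c (a (nat_lit 0x2030ae8de5e8)) e
 (c z e
 (c z e
 (c z e
 (c z e
 (c z e
 (c z e
 (c z e
 (c z e
 (c z e
 (c z e
 (c z e
 (c z e
 (c z e
 (c z e
 (c z e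
 (c (a (nat_lit 0x98797a66001)) e
 (c (a (nat_lit 0x4e5a800000001)) e e))))))))))))))))))
 C607)))
 (c (a (nat_lit 0x40402021)) C606
 (c (a (nat_lit 0x20202021))
 (c (a (nat_lit 0x202021))
 (c z e
 (c z e
 (c z e
 (c z e
 (c (a (nat_lit 0x7542f20202027)) e
 (c (a (nat_lit 0x13ee4040802e07)) e
 (c z e
 (c z e
 (c z e
 (c z e
 (c z e
 (c z e
 (c z e
 (c z e
 (c z e
 (c (a (nat_lit 0x1580a485042003)) e
 (c (a (nat_lit 0x11e500000001)) e e)))))))))))))))))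
 (c (a (nat_lit 0x2020202021))
 (c z e
 (c z e
 (c z e
 (c z e
 (c z e
 (c z e
 (c z e
 (c z e
 (c z e
 (c z e
 (c z e
 (c z e
 (c z e
 (c z e
 (c (a (nat_lit 0xc324421200004)) e
 (c (a (nat_lit 0x14634000000004)) e e))))))))))))))))
 (c (a (nat_lit 0x2020202021)) e
 (c (a (nat_lit 0x2020202021)) e
 (c (a (nat_lit 0x2040406061)) e
 (c (a (nat_lit 0x2021)) e
 (c (a (nat_lit 0x2020203a67)) e
 (c (a (nat_lit 0x2020308848)) e
 (c (a (nat_lit 0x3aeeab68)) e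
 (c z e
 (c z e
 (c z e
 (c z e
 (c z e
 (c z e
 (c (a (nat_lit 0x16ef80202227)) e
 (c (a (nat_lit 0x1f2040447b86)) e
 (c (a (nat_lit 0x121257cb906)) e e))))))))))))))))))
 C605)))
 (c (nat_lit 1)
 (c (a (nat_lit 0x20202021)) C603
 C602)
 (c (nat_lit 1) C600
 (c (nat_lit 1)
 (c (a (nat_lit 0x20202021))
 (c (a (nat_lit 0x6060606061))
 (c (a (nat_lit 0x16246483c3c3a3))
 (c (a (nat_lit 0xe06121210a1a25)) e
 (c (a (nat_lit 0x208060679b6c07)) e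
 (c (a (nat_lit 0xc10d576beb26)) e
 (c (a (nat_lit 0x82f17127e62707)) e
 (c (a (nat_lit 0x73962c67c36466)) e
 (c (a (nat_lit 0xf33a90482e1c0a7)) e
 (c (a (nat_lit 0xd50e8c442600007)) e
 (c (a (nat_lit 0x1cc8034000000005)) e e))))))))
 (c (a (nat_lit 0x202020203247))
 (c (a (nat_lit 0x404041768a8488)) e
 (c (a (nat_lit 0x20a656ada86948)) e
 (c (a (nat_lit 0x34fd4a228705a8)) e
 (c z e
 (c (a (nat_lit 0x10a4c362e1806009)) e
 (c (a (nat_lit 0x1ef08b4ba0000007)) e e))))))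
 (c (a (nat_lit 0x8060683f5d06)) e
 (c z e
 (c z e
 (c (a (nat_lit 0x4110661202027)) e
 (c (a (nat_lit 0x1d0ec320a08306)) e
 (c (a (nat_lit 0x1ae48545004185)) e
 (c z e
 (c (a (nat_lit 0x10f1d837759366)) e
 (c (a (nat_lit 0x78852908e1147)) e
 (c (a (nat_lit 0x3a4c94b295206)) e e))))))))))))
 (c (a (nat_lit 0x2020203886))
 (c (a (nat_lit 0x606065cdd407))
 (c (a (nat_lit 0x606091c985c668)) e
 (c (a (nat_lit 0xa559391731ae08)) e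
 (c z e
 (c z e
 (c (a (nat_lit 0xdf0cf2da2c00007)) e
 (c (a (nat_lit 0xcecf12000000007)) e e))))))
 (c (a (nat_lit 0x60642f32dde8)) e
 (c z e
 (c z e
 (c (a (nat_lit 0x1b372dc140c1a7)) e
 (c (a (nat_lit 0xd50e160a32526)) e
 (c z e
 (c z e
 (c (a (nat_lit 0x92c72ae4b4e68)) e
 (c (a (nat_lit 0xb72d291151fa8)) e
 (c (b (nat_lit 0x1fe204269f0006)) e
 (c (a (nat_lit 0x582a0000001)) e e))))))))))))
 (c (a (nat_lit 0x20203844c6))
 (c z e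
 (c z e
 (c z e
 (c z e
 (c z e
 (c z e
 (c z e
 (c z e
 (c z e
 (c (a (nat_lit 0x4868793c00007)) e e))))))))))
 (c (a (nat_lit 0x203122a2e7))
 (c z e
 (c z e
 (c z e
 (c z e
 (c z e
 (c z e
 (c z e
 (c z e
 (c (a (nat_lit 0x7b07100000008)) e e)))))))))
 (c z e
 (c (a (nat_lit 0x11e7c684e046))
 (c (a (nat_lit 0x5e07c6ea300c6)) e
 (c (a (nat_lit 0x9ced384810f07)) e
 (c z e
 (c z e
 (c (a (nat_lit 0x2c353ade26009)) e e)))))
 (c (a (nat_lit 0xb890842fac5))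
 (c (a (nat_lit 0x6ba0ca82a3166)) e
 (c (a (nat_lit 0x75ac9deefbb67)) e e))
 (c (a (nat_lit 0xbcba57c55c5))
 (c (b (nat_lit 0x11635048ffe727)) e e)
 (c z e
 (c (a (nat_lit 0xb33d24cccc7)) e
 (c (a (nat_lit 0x1cb67bfbfbc5)) e
 (c (a (nat_lit 0x13082823c026)) e
 (c (a (nat_lit 0x22241c160c1)) e
 (c (a (nat_lit 0x20202030c7)) e
 (c (a (nat_lit 0x202410c727)) e
 (c (a (nat_lit 0x24632e94247)) e
 (c z e
 (c (a (nat_lit 0x10c420202027)) e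
 (c (a (nat_lit 0x1fc040200004)) e
 (c (a (nat_lit 0x20000000001)) e e))))))))))))))))))))
 C598)
 (c (nat_lit 1) C597
 C596)))))) Tr.c Tr.e (nat_lit 0) C.cx C.cy
noncomputable def C610 : Tr := beta% (fun (c : Nat → Tr → Tr → Tr) (e : Tr) (z : Nat) (a b : Nat → Nat) =>
 (c (a (nat_lit 0x60606061))
 (c (a (nat_lit 0x2020314608))
 (c z e
 (c z e
 (c z e
 (c z e
 (c z e
 (c z e
 (c z e
 (c z e
 (c z e
 (c (a (nat_lit 0x15060000000005)) e e))))))))))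
 (c (a (nat_lit 0x196b08c8)) e
 (c z e
 (c z e
 (c (a (nat_lit 0x104f6de92b08))
 (c (a (nat_lit 0x9944e226bc9a8)) e e)
 (c z e
 (c z e
 (c z e
 (c (a (nat_lit 0x6876daf9167)) e
 (c z e
 (c z e
 (c (a (nat_lit 0x114620202006)) e
 (c (a (nat_lit 0x62040403106)) e
 (c (a (nat_lit 0x24241f30f46)) e e))))))))))))))
 (c (a (nat_lit 0x20202021))
 (c (b (nat_lit 0x31a8e21fe6)) e
 (c (a (nat_lit 0x140da9e46007))
 (c (a (nat_lit 0xb74738ae0a486)) e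
 (c z e
 (c z e
 (c z e
 (c (a (nat_lit 0x68a7751472009)) e e)))))
 (c z e
 (c z e
 (c z e
 (c (a (nat_lit 0xeb4d4957548)) e
 (c z e
 (c z e
 (c z e
 (c (a (nat_lit 0x1ec02a40e005)) e
 (c (b (nat_lit 0x1fe5004032e6)) e
 (c (a (nat_lit 0xae645b8d026)) e
 (c z e
 (c (a (nat_lit 0xc5f96eeae66)) e
 (c (a (nat_lit 0x1148a0400006)) e
 (c (a (nat_lit 0x110000000005)) e e))))))))))))))))
 (c (a (nat_lit 0x40406061))
 (c (a (nat_lit 0x170d68c050c5))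
 (c (a (nat_lit 0x1294f40f299865)) e
 (c (a (nat_lit 0x84e6aa5ce9367)) e
 (c z e
 (c (a (nat_lit 0x9e769f8e983e8)) e
 (c (a (nat_lit 0x53d1a06600007)) e e)))))
 (c (a (nat_lit 0x100c6534d086))
 (c (a (nat_lit 0x8036306522048)) e e)
 (c z e
 (c (a (nat_lit 0x7f0af7191a7)) e
 (c (a (nat_lit 0xc2b91514a48)) e
 (c z e
 (c z e
 (c (a (nat_lit 0x12002a80c005)) e
 (c (a (nat_lit 0x6cbe7203666)) e
 (c (a (nat_lit 0x7a30258ac66)) e
 (c z e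
 (c (a (nat_lit 0x1176b232346)) e
 (c (a (nat_lit 0x148840404006)) e
 (c (a (nat_lit 0x102020000005)) e e))))))))))))))
 (c (a (nat_lit 0x40202021))
 (c (a (nat_lit 0xae9708f4e46))
 (c (a (nat_lit 0x3a4a87aa04807)) e e)
 (c (a (nat_lit 0x7d090f30f86))
 (c (b (nat_lit 0x1fec32c821a008)) e e)
 (c z e
 (c z e
 (c z e
 (c (a (nat_lit 0x168c0f8ac466)) e
 (c (a (nat_lit 0x88c07605706)) e
 (c (a (nat_lit 0x50060572e06)) e
 (c z e
 (c (a (nat_lit 0x279b08423e6)) e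
 (c (a (nat_lit 0x15cca0402026)) e
 (c (a (nat_lit 0x192040200005)) e
 (c (a (nat_lit 0x38000000001)) e e)))))))))))))
 (c (a (nat_lit 0x202001))
 (c (a (nat_lit 0xeaa9172cac5))
 (c (a (nat_lit 0xf150a21e00006)) e e)
 (c z e
 (c z e
 (c (a (nat_lit 0xfeed37250e8)) e
 (c (a (nat_lit 0x159a962f3786)) e
 (c (a (nat_lit 0xaa888514cc7)) e
 (c z e
 (c (b (nat_lit 0x1ff98f62a2c6)) e
 (c (a (nat_lit 0x172ce0204026)) e
 (c (a (nat_lit 0x198020202005)) e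
 (c (a (nat_lit 0x1a0000001)) e e)))))))))))
 (c (a (nat_lit 0xc0c0c0c1))
 (c z e
 (c (a (nat_lit 0x13d2f6756c87)) e
 (c z e
 (c z e
 (c z e
 (c (a (nat_lit 0x8b48ec86847)) e
 (c (a (nat_lit 0x188d40406366)) e
 (c (a (nat_lit 0x142020204005)) e
 (c (a (nat_lit 0x24220600001)) e
 (c (a (nat_lit 0x12000000001)) e e))))))))))
 (c (a (nat_lit 0x40404041))
 (c (a (nat_lit 0x193cbaec0906)) e
 (c z e
 (c z e
 (c (a (nat_lit 0x4bb2fc32346)) e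
 (c (a (nat_lit 0x180ce0404d46)) e
 (c (a (nat_lit 0x240618001)) e
 (c (a (nat_lit 0x241c0e06001)) e
 (c (a (nat_lit 0x220c0000001)) e e))))))))
 (c (nat_lit 1)
 (c z e
 (c (a (nat_lit 0x39aaf220086)) e
 (c (a (nat_lit 0x18cd40203026)) e
 (c (a (nat_lit 0x41012162a1)) e
 (c (a (nat_lit 0xe1e1e2e261)) e
 (c (a (nat_lit 0xc0400001)) e
 (c (nat_lit 1) e e)))))))
 (c (a (nat_lit 0x60404041))
 (c (a (nat_lit 0xc86c0203066)) e
 (c (a (nat_lit 0x81e1e18001)) e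
 (c (a (nat_lit 0x1018121a041)) e
 (c (a (nat_lit 0x24180e0a001)) e
 (c (a (nat_lit 0x40c0000001)) e e)))))
 (c (nat_lit 1)
 (c (a (nat_lit 0x20206021)) e
 (c (a (nat_lit 0x80a1008061)) e
 (c (a (nat_lit 0x60e0200001)) e
 (c (a (nat_lit 0xc000000001)) e e))))
 (c (a (nat_lit 0x60606061))
 (c (a (nat_lit 0x80c0804001)) e
 (c (a (nat_lit 0x14060000001)) e e))
 (c (a (nat_lit 0x20202021))
 (c (a (nat_lit 0x2000000001)) e e)
 (c (a (nat_lit 0xc0a0a0a1)) e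
 (c (a (nat_lit 0x40404041)) e
 (c (a (nat_lit 0x20203a26)) e
 (c (a (nat_lit 0x3a3646)) e
 (c (a (nat_lit 0x6b3b1abe7)) e
 (c z e
 (c (a (nat_lit 0x186cc36066)) e
 (c (a (nat_lit 0x1aa801f505)) e
 (c (a (nat_lit 0x10caddf645)) e
 (c z e
 (c z e
 (c (a (nat_lit 0x1d15200005)) e e))))))))))))))))))))))))) Tr.c Tr.e (nat_lit 0) C.cx C.cy
noncomputable def C611 : Tr := beta% (fun (c : Nat → Tr → Tr → Tr) (e : Tr) (z : Nat) (a b : Nat → Nat) =>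
 (c (a (nat_lit 0x40404041))
 (c (a (nat_lit 0x4040404041))
 (c z e
 (c (a (nat_lit 0x1038ffd946ede6)) e
 (c z e
 (c z e
 (c z e
 (c (a (nat_lit 0x2c1c900607126))
 (c (a (nat_lit 0x18f44709c3c18008)) e e)
 (c z e
 (c z e
 (c z e
 (c (a (nat_lit 0x1156f68c6aea48)) e
 (c z e
 (c z e
 (c z e
 (c (a (nat_lit 0xc947254340b08)) e
 (c (a (nat_lit 0x12705229200008)) e
 (c (a (nat_lit 0x1e61c000000006)) e e))))))))))))))))
 (c (a (nat_lit 0x80a0a0a081))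
 (c (a (nat_lit 0xd124b852d0e87))
 (c (a (nat_lit 0x1734111db4f13248))
 (c (a (nat_lit 0xe4ea6dbe780000008)) e e)
 (c z e
 (c z e
 (c z e
 (c (a (nat_lit 0x5434d10a6a2c20a)) e e)))))
 (c z e
 (c z e
 (c (a (nat_lit 0x6bc19e8870026)) e
 (c (a (nat_lit 0x13b58cafeb1047))
 (c (a (nat_lit 0x154f933b66a00008)) e e)
 (c z e
 (c z e
 (c z e
 (c (a (nat_lit 0xdf451eac92889)) e
 (c z e
 (c z e
 (c z e
 (c (a (nat_lit 0x16f1b1bbeb4008)) e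
 (c (a (nat_lit 0x175750a0000008)) e e))))))))))))))
 (c (a (nat_lit 0x6060404041)) e
 (c (a (nat_lit 0x4040404041)) e
 (c (a (nat_lit 0x2020202021))
 (c z e
 (c (a (nat_lit 0x425f642634107)) e
 (c z e
 (c z e
 (c z e
 (c (a (nat_lit 0xe6eb22aa64949)) e e))))))
 (c (a (nat_lit 0x2020203148))
 (c (a (nat_lit 0x4d5042162e406)) e
 (c z e
 (c z e
 (c z e
 (c (a (nat_lit 0x3d2976f4a80e8)) e e)))))
 (c (a (nat_lit 0x20203488a8)) e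
 (c (a (nat_lit 0x203acb4928)) e
 (c z e
 (c (a (nat_lit 0x132fcb652008))
 (c (a (nat_lit 0x2e350ac62000a)) e e)
 (c z e
 (c z e
 (c z e
 (c (a (nat_lit 0x992f0ac0b67)) e
 (c (a (nat_lit 0x1b5260606845)) e
 (c (a (nat_lit 0x11c044a7a005)) e
 (c z e
 (c (a (nat_lit 0x12b9c90040a4)) e
 (c (a (nat_lit 0x68240203c86)) e e)))))))))))))))))))
 (c (a (nat_lit 0x40404041))
 (c (a (nat_lit 0x6060604041))
 (c (a (nat_lit 0x1205804fcd8425))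
 (c (a (nat_lit 0x11ebda1258bd2fe6)) e
 (c z e
 (c z e
 (c (a (nat_lit 0x4096f51e86685a8)) e
 (c (a (nat_lit 0x8f977e6e3c124a8)) e e)))))
 (c z e
 (c z e
 (c (a (nat_lit 0x140d844424a9a6))
 (c z e
 (c (a (nat_lit 0x1947b24fa5e00008)) e e))
 (c (a (nat_lit 0x9a080860d1a06))
 (c (a (nat_lit 0x58bb10540000007)) e e)
 (c z e
 (c z e
 (c z e
 (c (a (nat_lit 0xed9cbe9e465e8)) e
 (c z e
 (c z e
 (c (a (nat_lit 0x1595d23d358f07)) e
 (c (a (nat_lit 0xd29d4e6a00007)) e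
 (c (a (nat_lit 0x116e6000000007)) e e))))))))))))))
 (c (a (nat_lit 0x2060200001))
 (c z e
 (c z e
 (c z e
 (c z e
 (c z e
 (c z e
 (c z e
 (c z e
 (c z e
 (c z e
 (c (a (nat_lit 0x1875741d2f0008)) e
 (c (a (nat_lit 0x14b34e20000008)) e e))))))))))))
 (c (a (nat_lit 0x2020202021)) e
 (c (a (nat_lit 0x2020203128))
 (c z e
 (c (a (nat_lit 0x38db608e780e7)) e
 (c z e
 (c z e
 (c z e
 (c (a (nat_lit 0x12d0cf09486769)) e e))))))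
 (c (a (nat_lit 0x202030a848))
 (c (a (nat_lit 0x10912045a45d46)) e
 (c z e
 (c z e
 (c z e
 (c (a (nat_lit 0x6c7a80663b0aa)) e e)))))
 (c (a (nat_lit 0x36cbc888)) e
 (c z e
 (c z e
 (c (a (nat_lit 0x132e4f471387))
 (c (a (nat_lit 0x29451a3000009)) e e)
 (c z e
 (c z e
 (c (a (nat_lit 0xd5a6a514e6)) e
 (c (a (nat_lit 0x1122209067a6)) e
 (c (a (nat_lit 0x1c0502762a6)) e
 (c z e
 (c (a (nat_lit 0x1fae64e02045)) e
 (c (a (nat_lit 0xe24c0205f45)) e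
 (c (a (nat_lit 0x2a0408ff726)) e e))))))))))))))))))
 (c (a (nat_lit 0x20000001))
 (c (a (nat_lit 0x2020002001))
 (c (a (nat_lit 0x31a0a14206a3))
 (c (a (nat_lit 0x47855cac6e50647)) e e)
 (c z e
 (c z e
 (c z e
 (c z e
 (c (a (nat_lit 0x10fb35ad840947)) e
 (c z e
 (c z e
 (c z e
 (c (a (nat_lit 0x12d0f77a799808)) e
 (c (a (nat_lit 0x136f7baa800006)) e
 (c (a (nat_lit 0x1530c000000006)) e e))))))))))))
 (c (a (nat_lit 0x20201d28))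
 (c z e
 (c z e
 (c z e
 (c z e
 (c z e
 (c z e
 (c z e
 (c z e
 (c z e
 (c (a (nat_lit 0x12b692a0000007)) e e))))))))))
 (c (a (nat_lit 0x2020312868)) e
 (c (a (nat_lit 0x33c9a688)) e
 (c z e
 (c (a (nat_lit 0x18ea27244028))
 (c (a (nat_lit 0xc2a5e11e69f47)) e e)
 (c z e
 (c z e
 (c z e
 (c (b (nat_lit 0x1ffbd54fd186)) e
 (c (a (nat_lit 0x18cbc0605105)) e
 (c (b (nat_lit 0x1720819fffe4)) e
 (c z e
 (c (a (nat_lit 0x13eb6c808004)) e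
 (c (a (nat_lit 0x2c300403026)) e
 (c (a (nat_lit 0x36080506cc6)) e e))))))))))))))))
 C610)))) Tr.c Tr.e (nat_lit 0) C.cx C.cy
noncomputable def C612 : Tr := beta% (fun (c : Nat → Tr → Tr → Tr) (e : Tr) (z : Nat) (a : Nat → Nat) =>
 (c (a (nat_lit 0x20200001))
 (c (a (nat_lit 0x202020203e87))
 (c (a (nat_lit 0x584c464a77092c6))
 (c (a (nat_lit 0x106fef8e3075d57727))
 (c z e
 (c z e
 (c (a (nat_lit 0x4e2018727ec31ce8e89)) e e)))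
 (c z e
 (c z e
 (c z e
 (c z e
 (c z e
 (c z e
 (c z e
 (c z e
 (c (a (nat_lit 0x1d6446c985a0000009)) e e))))))))))
 (c z e
 (c z e
 (c z e
 (c z e
 (c z e
 (c z e
 (c z e
 (c (a (nat_lit 0xcd00caaa229e7e7)) e
 (c (a (nat_lit 0x127031ec4bec2608)) e e))))))))))
 (c (a (nat_lit 0x20202031a949)) e
 (c (a (nat_lit 0x202038f13069)) e
 (c (a (nat_lit 0x2036edcc8509)) e
 (c z e
 (c z e
 (c z e
 (c z e
 (c z e
 (c (a (nat_lit 0x30d0b67ac5947))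
 (c (a (nat_lit 0x1182640762c0000a)) e e)
 (c z e
 (c z e
 (c z e
 (c z e
 (c z e
 (c z e
 (c z e
 (c z e
 (c (a (nat_lit 0x1670b0c1010006)) e
 (c (a (nat_lit 0x1edee060000005)) e e))))))))))))))))))))
 (c (a (nat_lit 0x6060606041))
 (c (a (nat_lit 0x2020306bab09)) e
 (c (a (nat_lit 0x203f16558929)) e e))
 (c (a (nat_lit 0x4040404041))
 (c z e
 (c (a (nat_lit 0x1a3554eba16529))
 (c (a (nat_lit 0xd716f8f0fb6d369))
 (c (a (nat_lit 0x11929393b4588e3309)) e e)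
 (c z e
 (c z e
 (c z e
 (c (a (nat_lit 0x164f900df955b8c9)) e
 (c z e
 (c z e
 (c z e
 (c (a (nat_lit 0x60510868300000b)) e e)))))))))
 (c z e
 (c z e
 (c z e
 (c (a (nat_lit 0x9b5540661e987))
 (c (a (nat_lit 0xcac95b5d5b35788)) e e)
 (c z e
 (c z e
 (c z e
 (c (a (nat_lit 0x8aa30131d2ee8)) e
 (c z e
 (c z e
 (c z e
 (c (a (nat_lit 0x1f519096d894e7)) e
 (c (a (nat_lit 0x8a790d66f8326)) e e)))))))))))))))
 (c (a (nat_lit 0x20002001))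
 (c (a (nat_lit 0x106f6ca3e7c488))
 (c (a (nat_lit 0x5ad270847679048))
 (c (a (nat_lit 0x134c8e0c1765b628c7)) e e)
 (c z e
 (c z e
 (c (a (nat_lit 0xd6ce74cec75ed89)) e
 (c (a (nat_lit 0x6c4682a90d95469)) e
 (c z e
 (c z e
 (c z e
 (c (a (nat_lit 0xbb9f2c6a0000009)) e e)))))))))
 (c z e
 (c z e
 (c (a (nat_lit 0x9d20c0104c7c7))
 (c z e
 (c (a (nat_lit 0x84b9e5fbc131569)) e e))
 (c (a (nat_lit 0x10ca406567c9c7))
 (c (a (nat_lit 0x675d2d50bd20709)) e e)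
 (c z e
 (c z e
 (c (a (nat_lit 0x4d1f129e29787)) e
 (c (a (nat_lit 0xe2dea943874e8)) e
 (c z e
 (c z e
 (c (a (nat_lit 0x83b7c74793c47)) e
 (c (a (nat_lit 0x1515efb4976b67)) e
 (c (a (nat_lit 0x114b2ff286a4c7)) e e))))))))))))))
 (c (a (nat_lit 0x4040202021))
 (c z e
 (c z e
 (c z e
 (c z e
 (c z e
 (c (a (nat_lit 0x26876a6826007)) e
 (c z e
 (c z e
 (c z e
 (c z e
 (c (a (nat_lit 0x3a98b8c51af68)) e
 (c (a (nat_lit 0x80c4df893e9a7)) e e))))))))))))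
 (c (a (nat_lit 0x2040404041))
 (c z e
 (c z e
 (c z e
 (c z e
 (c (a (nat_lit 0x148feb48a86be8)) e e)))))
 (c (a (nat_lit 0x2020202021))
 (c z e
 (c (a (nat_lit 0x1791770161c766))
 (c (a (nat_lit 0x1076fa0eab600007)) e e)
 (c z e
 (c z e
 (c z e
 (c (a (nat_lit 0x60228e1858e8)) e
 (c z e
 (c z e
 (c z e
 (c (a (nat_lit 0xc98b609640007)) e
 (c (a (nat_lit 0x163363a0000007)) e e)))))))))))
 (c (a (nat_lit 0xc0c0e0e0e1))
 (c (a (nat_lit 0x117922a2ec8b25))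
 (c (a (nat_lit 0xe1b4d08a0000006)) e e)
 (c z e
 (c z e
 (c (a (nat_lit 0x6666a2a45a87)) e
 (c (a (nat_lit 0x424e6a836d7c8)) e
 (c z e
 (c z e
 (c (a (nat_lit 0x3010a34500a7)) e
 (c (a (nat_lit 0x1555e8c7e00007)) e
 (c (a (nat_lit 0x1d00e000000006)) e e))))))))))
 (c (a (nat_lit 0x8080606061))
 (c z e
 (c (a (nat_lit 0x28a10aa4c2e07)) e
 (c z e
 (c z e
 (c z e
 (c z e
 (c (a (nat_lit 0x116b950e442007)) e
 (c (a (nat_lit 0x9d36680000007)) e e))))))))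
 (c (a (nat_lit 0x4060606041))
 (c (a (nat_lit 0x10975252eb8f86)) e e)
 (c (a (nat_lit 0x2020203467))
 (c z e
 (c (a (nat_lit 0x5448367af9309)) e e))
 (c (a (nat_lit 0x2020352d47))
 (c (a (nat_lit 0x362e229af5aa9)) e e)
 (c (a (nat_lit 0x30a96207)) e
 (c z e
 (c (a (nat_lit 0x168f49604007)) e
 (c (a (nat_lit 0x17ec004032c6)) e
 (c (a (nat_lit 0xcc0c0538f26)) e
 (c z e
 (c (a (nat_lit 0x891b00a29c7)) e
 (c (a (nat_lit 0x110da2a145e6)) e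
 (c (a (nat_lit 0x1ae4c24b7785)) e
 (c z e
 (c z e
 (c (a (nat_lit 0xbf840402005)) e
 (c (a (nat_lit 0x188060000005)) e e)))))))))))))))))))))))))) Tr.c Tr.e (nat_lit 0) C.cx
noncomputable def C613 : Tr := beta% (fun (c : Nat → Tr → Tr → Tr) (e : Tr) (z : Nat) (a b : Nat → Nat) =>
 (c (a (nat_lit 0x40404041))
 (c (nat_lit 1)
 (c z
 (c (a (nat_lit 0x18d609e5e321c044))
 (c z e
 (c z e
 (c z e
 (c z e
 (c z e
 (c z e
 (c z e
 (c (a (nat_lit 0x528880402c4c790c7)) e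
 (c (a (nat_lit 0x2e3a201c2102503c8)) e
 (c z e
 (c z e
 (c (a (nat_lit 0xb06599f32a6400007)) e
 (c (a (nat_lit 0x13bb566d8000000007)) e e)))))))))))))
 (c z e
 (c z e
 (c (a (nat_lit 0x7c746a142cdbbc6))
 (c z e
 (c (a (nat_lit 0xdebc8ce14530e0b09)) e
 (c z e
 (c z e
 (c (a (nat_lit 0x8ca46384b8802c2c8)) e
 (c (a (nat_lit 0x74555856825450409)) e e))))))
 (c (a (nat_lit 0xeca41cc7e7e7865))
 (c (a (nat_lit 0x146c6dfbde0e3a0fe7)) e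
 (c z e
 (c z e
 (c (a (nat_lit 0x989ed53f0486523a8)) e
 (c (a (nat_lit 0x8df26f52f8e06e3e8)) e e)))))
 (c z e
 (c z e
 (c (a (nat_lit 0x8989f9cc88e6465))
 (c (a (nat_lit 0x1340e726e665016007)) e e)
 (c (a (nat_lit 0xfb571a80f81a005)) e
 (c z e
 (c (a (nat_lit 0x146f940e6c4b0a26)) e
 (c (a (nat_lit 0x10342e2bcaac8966)) e
 (c (b (nat_lit 0xfcab0737528bfe6)) e
 (c (a (nat_lit 0xf50f272522d2a68)) e
 (c z e
 (c (a (nat_lit 0xc175c4b09e7a005)) e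
 (c (a (nat_lit 0x1156254240000005)) e
 (c (a (nat_lit 0x1743000000000005)) e e))))))))))))))))))
 (c z
 (c z e
 (c z e
 (c z e
 (c z e
 (c z e
 (c z e
 (c z e
 (c z e
 (c (a (nat_lit 0x179f9ff40fe27ec6)) e e)))))))))
 (c (a (nat_lit 0x202020203068)) e
 (c (a (nat_lit 0x202020310a68))
 (c z e
 (c (a (nat_lit 0x5a736313f542f27))
 (c (a (nat_lit 0x16b833b24d2a68260a)) e
 (c z e
 (c z e
 (c z e
 (c (a (nat_lit 0x128e4a656680000009)) e e)))))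
 (c z e
 (c z e
 (c z e
 (c (a (nat_lit 0x1eeed097db4df007)) e
 (c z e
 (c z e
 (c z e
 (c (b (nat_lit 0xa243fe46b6f3608)) e e))))))))))
 (c (a (nat_lit 0x202021710cf28))
 (c (a (nat_lit 0x142c062f0aac987))
 (c (a (nat_lit 0x1b703a0b7309a5e988)) e
 (c z e
 (c z e
 (c (a (nat_lit 0x1938f38c9769400008)) e
 (c (a (nat_lit 0x1f58d00c0000000008)) e e)))))
 (c z e
 (c z e
 (c (b (nat_lit 0x50edb03ad6ffe7)) e
 (c (a (nat_lit 0xcc88b712d24c2e8)) e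
 (c z e
 (c z e
 (c z e
 (c (a (nat_lit 0xbe3c8b579959828)) e e)))))))))
 (c (a (nat_lit 0x203711d00528)) e
 (c z e
 (c (a (nat_lit 0x1651afa4430867))
 (c z e
 (c (a (nat_lit 0x8920e87aba73368)) e
 (c z e
 (c z e
 (c z e
 (c (a (nat_lit 0x18c575026200009)) e e))))))
 (c (a (nat_lit 0x146e63e14ba886))
 (c (a (nat_lit 0xaaac48a459f44e7)) e
 (c z e
 (c z e
 (c z e
 (c (a (nat_lit 0xd5ccda9a0000009)) e e)))))
 (c z e
 (c z e
 (c z e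
 (c (a (nat_lit 0xc2b6ad6d83ac7)) e
 (c z e
 (c z e
 (c (a (nat_lit 0x2ecd61006aae6)) e
 (c (a (nat_lit 0x9728d07abebc6)) e
 (c (a (nat_lit 0x1e92e8b1b18285)) e
 (c z e
 (c (a (nat_lit 0xe1252ab2aca46)) e
 (c (a (nat_lit 0x10512240e00005)) e
 (c (a (nat_lit 0x1221c000000005)) e e))))))))))))))))))))))
 C612)
 (c (a (nat_lit 0x60606061))
 (c (nat_lit 1)
 (c (a (nat_lit 0x202020376ae6))
 (c (a (nat_lit 0xb8c8968b3b85684))
 (c z e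
 (c z e
 (c z e
 (c z e
 (c z e
 (c (a (nat_lit 0xa77d6c2c34706a807)) e
 (c (a (nat_lit 0x17103f26cc73e59026)) e
 (c z e
 (c (a (nat_lit 0x132323e4c5a2a00008)) e e)))))))))
 (c z e
 (c z e
 (c z e
 (c z e
 (c z e
 (c z e
 (c z e
 (c (a (nat_lit 0xced292c6fdeeea6)) e
 (c (b (nat_lit 0x5e327ab56bfef46)) e
 (c (b (nat_lit 0x448bff44660a366)) e e)))))))))))
 (c (a (nat_lit 0x20203b9150e8)) e
 (c (a (nat_lit 0x20354d2d46e8)) e
 (c z e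
 (c z e
 (c z e
 (c z e
 (c z e
 (c z e
 (c (a (nat_lit 0x545c2c5343fe6))
 (c (a (nat_lit 0x1227d00900000007)) e e)
 (c z e
 (c z e
 (c z e
 (c z e
 (c z e
 (c z e
 (c z e
 (c (a (nat_lit 0x104bef4ced0ce6)) e
 (c (a (nat_lit 0x12e0a0800003)) e
 (c (a (nat_lit 0x12804000000003)) e e))))))))))))))))))))
 (c (a (nat_lit 0x2040404001))
 (c (a (nat_lit 0x121304b4ae509)) e
 (c z e
 (c z e
 (c z e
 (c z e
 (c z e
 (c z e
 (c z e
 (c z e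
 (c z e
 (c z e
 (c z e
 (c z e
 (c z e
 (c z e
 (c z e
 (c (a (nat_lit 0x12b450d6ef0006)) e
 (c (a (nat_lit 0x1a133020000005)) e e))))))))))))))))))
 (c (a (nat_lit 0x4040404041)) e
 (c (a (nat_lit 0x4040404041)) e
 (c (a (nat_lit 0x20000001))
 (c (a (nat_lit 0x58f8c00823946)) e
 (c z e
 (c z e
 (c z e
 (c z e
 (c z e
 (c z e
 (c z e
 (c z e
 (c z e
 (c (a (nat_lit 0x930a8088a2569)) e e)))))))))))
 (c (a (nat_lit 0x6060604021)) e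
 (c (a (nat_lit 0x80a0a0a0a1)) e
 (c (a (nat_lit 0x20404041)) e
 (c (a (nat_lit 0x2020000001)) e
 (c (a (nat_lit 0x20203d07))
 (c (a (nat_lit 0xd148f0a32b6c6)) e e)
 (c (a (nat_lit 0x20203d6987)) e
 (c (a (nat_lit 0x203b6cc267)) e
 (c z e
 (c z e
 (c z e
 (c z e
 (c z e
 (c (a (nat_lit 0x895139316e6)) e
 (c (a (nat_lit 0x30040673a85)) e
 (c (a (nat_lit 0x28264693087)) e e))))))))))))))))))))
 (c (a (nat_lit 0x20202021))
 (c (a (nat_lit 0x2020404041))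
 (c z e
 (c z e
 (c z e
 (c z e
 (c z e
 (c z e
 (c z e
 (c z e
 (c z e
 (c z e
 (c z e
 (c z e
 (c z e
 (c z e
 (c z e
 (c (a (nat_lit 0xb9f98e6c70684)) e
 (c (a (nat_lit 0x19124040400004)) e
 (c (a (nat_lit 0x13014000000004)) e e))))))))))))))))))
 (c (a (nat_lit 0x2020202021))
 (c z e
 (c z e
 (c z e
 (c z e
 (c z e
 (c z e
 (c z e
 (c z e
 (c z e
 (c z e
 (c z e
 (c z e
 (c z e
 (c z e
 (c (a (nat_lit 0x9240a2626005)) e
 (c (a (nat_lit 0x12008060000005)) e e))))))))))))))))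
 (c (a (nat_lit 0x20202021)) e
 (c (a (nat_lit 0x2040202021)) e
 (c (a (nat_lit 0x4040404041)) e
 (c (a (nat_lit 0x8080808081)) e
 (c (a (nat_lit 0x200001)) e
 (c (a (nat_lit 0x2020203368)) e
 (c (a (nat_lit 0x2020380548)) e
 (c (a (nat_lit 0x203529e648)) e
 (c z e
 (c z e
 (c z e
 (c z e
 (c z e
 (c (a (nat_lit 0x922ae2c2a7)) e
 (c (a (nat_lit 0x1ef080402306)) e
 (c (b (nat_lit 0x1100a0839fe6)) e e))))))))))))))))))
 C611)))) Tr.c Tr.e (nat_lit 0) C.cx C.cy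
noncomputable def C614 : Tr := beta% (fun (c : Nat → Tr → Tr → Tr) (e : Tr) (z : Nat) (a b : Nat → Nat) =>
 (c (a (nat_lit 0x2020202021))
 (c z
 (c z e
 (c z e
 (c z e
 (c z e
 (c z e
 (c z e
 (c z e
 (c z e
 (c (a (nat_lit 0x18a4abe5c2655025)) e e)))))))))
 (c (a (nat_lit 0x202020203008))
 (c z e
 (c z e
 (c z e
 (c z e
 (c z e
 (c z e
 (c z e
 (c z e
 (c (b (nat_lit 0x110cf91ffb663ac5)) e e)))))))))
 (c (a (nat_lit 0x202020316aa8)) e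
 (c (a (nat_lit 0x2020372f2d48)) e
 (c (a (nat_lit 0x202188d4b6428)) e e)))))
 (c (a (nat_lit 0x2020202021))
 (c (a (nat_lit 0x202020332967)) e
 (c (a (nat_lit 0x20203cb1f088)) e
 (c (a (nat_lit 0x2021cf16f86c8)) e e)))
 (c (a (nat_lit 0x4040202021))
 (c (a (nat_lit 0x3731f12767))
 (c z e
 (c z e
 (c z e
 (c z e
 (c z e
 (c z e
 (c z e
 (c z e
 (c (a (nat_lit 0x8255250ef160e68)) e e)))))))))
 (c (a (nat_lit 0x217b37268e148))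
 (c z e
 (c z e
 (c z e
 (c z e
 (c z e
 (c z e
 (c z e
 (c z e
 (c (a (nat_lit 0x136de5ffd4258009)) e e)))))))))
 (c z e
 (c z e
 (c z e
 (c (a (nat_lit 0x8c83270ae0006))
 (c (a (nat_lit 0x266a2c715092a28)) e e)
 (c z e
 (c z e
 (c z e
 (c (a (nat_lit 0x117013aaec0f67)) e
 (c z e
 (c z e
 (c z e
 (c (a (nat_lit 0x7f0948ef1cde7)) e
 (c (a (nat_lit 0x127a6f350d6a46)) e e)))))))))))))))
 (c (nat_lit 1)
 (c (a (nat_lit 0x137230a7a06387))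
 (c (a (nat_lit 0x5f472266188c8e7))
 (c (a (nat_lit 0x4c3a225e565c232e8)) e e)
 (c z e
 (c z e
 (c z e
 (c (a (nat_lit 0x403e2844327f209)) e
 (c z e
 (c z e
 (c z e
 (c (a (nat_lit 0x88d9ccd87400008)) e e)))))))))
 (c z e
 (c z e
 (c (a (nat_lit 0xcecd02e4d4ce7)) e
 (c (a (nat_lit 0x3468cb0b25e5))
 (c (a (nat_lit 0x2a36d51aaa2a5e9)) e e)
 (c z e
 (c z e
 (c (a (nat_lit 0x98f5165e70426)) e
 (c (a (nat_lit 0x68663c4411088)) e
 (c z e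
 (c z e
 (c z e
 (c (a (nat_lit 0x12c4a483c608)) e
 (c (a (nat_lit 0x132524e44682a8)) e e))))))))))))))
 (c (a (nat_lit 0x4040202021))
 (c z e
 (c z e
 (c z e
 (c z e
 (c z e
 (c (a (nat_lit 0x13c9b04788eb06)) e
 (c (a (nat_lit 0xadc2ed130ffa5)) e
 (c (a (nat_lit 0x104e6f28a5a327)) e
 (c z e
 (c z e
 (c z e
 (c z e
 (c z e
 (c (a (nat_lit 0xeaed5cce00007)) e
 (c (a (nat_lit 0x1531c000000006)) e e)))))))))))))))
 (c (a (nat_lit 0x2020202021))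
 (c z e
 (c z e
 (c z e
 (c z e
 (c (a (nat_lit 0x12d1aa4c6f5287)) e
 (c z e
 (c z e
 (c z e
 (c z e
 (c z e
 (c z e
 (c (a (nat_lit 0x1428e28160e001)) e e))))))))))))
 (c (a (nat_lit 0x2020202021))
 (c z e
 (c (a (nat_lit 0x164e8864e343a6))
 (c (a (nat_lit 0xb7ffc7c98884006)) e e)
 (c z e
 (c z e
 (c z e
 (c (a (nat_lit 0xf6eb55171d727)) e
 (c z e
 (c z e
 (c z e
 (c (a (nat_lit 0x1136680a2c086)) e
 (c (a (nat_lit 0x15284242400006)) e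
 (c (a (nat_lit 0x18404000000004)) e e))))))))))))
 (c (a (nat_lit 0x200001))
 (c (a (nat_lit 0x645c2422271c5))
 (c (a (nat_lit 0x12bc5e7789400005)) e
 (c (a (nat_lit 0x1ebce68000000006)) e e))
 (c (a (nat_lit 0x5e0a080f16806))
 (c (a (nat_lit 0x1020800000000006)) e e)
 (c z e
 (c (a (nat_lit 0x7e7f9ae0ef4e6)) e
 (c (a (nat_lit 0x5358aabcc98a6)) e
 (c z e
 (c z e
 (c z e
 (c (a (nat_lit 0x19784e8ea16005)) e
 (c (a (nat_lit 0x14612120000004)) e e))))))))))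
 (c (a (nat_lit 0x4040202021))
 (c (a (nat_lit 0xd0c8d9ef8b625)) e
 (c (a (nat_lit 0x100d810ad70e6)) e e))
 (c (a (nat_lit 0x181a1a1a161))
 (c (b (nat_lit 0x1ff54d29650765)) e e)
 (c (a (nat_lit 0x4040404041))
 (c z e
 (c (a (nat_lit 0x445c181259588)) e e))
 (c (a (nat_lit 0x2020203746))
 (c (a (nat_lit 0x405252468f3c8)) e e)
 (c (a (nat_lit 0x20203f70a5)) e
 (c (b (nat_lit 0x3c2dbfe5)) e
 (c z e
 (c (a (nat_lit 0x14ed85402006)) e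
 (c (a (nat_lit 0x1b4ac0402cc5)) e
 (c (a (nat_lit 0x14c04058f4e4)) e
 (c (a (nat_lit 0x6e6b3719c65)) e
 (c (a (nat_lit 0x794527d6c65)) e
 (c (a (nat_lit 0xf4d78676285)) e
 (c z e
 (c z e
 (c (a (nat_lit 0x12a020604023)) e
 (c (a (nat_lit 0x220800001)) e
 (c (a (nat_lit 0x22000000001)) e e))))))))))))))))))))))))))) Tr.c Tr.e (nat_lit 0) C.cx C.cy
noncomputable def C615 : Tr := beta% (fun (c : Nat → Tr → Tr → Tr) (e : Tr) (z : Nat) (a b : Nat → Nat) =>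
 (c z
 (c (a (nat_lit 0xacacaccd53149c3))
 (c z e
 (c z e
 (c z e
 (c z e
 (c z e
 (c z e
 (c z e
 (c z e
 (c z e
 (c z e
 (c z e
 (c (a (nat_lit 0x908a9094ae92911c7)) e
 (c (a (nat_lit 0x3c405888824909626)) e
 (c (a (nat_lit 0x3a505e82b1354ea06)) e e))))))))))))))
 (c (b (nat_lit 0x4a4b1bff8618784))
 (c z e
 (c z e
 (c z e
 (c z e
 (c z e
 (c z e
 (c z e
 (c z e
 (c z e
 (c (a (nat_lit 0x509a98aed04c5d746)) e
 (c (a (nat_lit 0x160e165a221d8e6c7)) e e)))))))))))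
 (c (a (nat_lit 0x5119f17e0c6e104)) e
 (c (a (nat_lit 0x14aa178083828184))
 (c z e
 (c z e
 (c z e
 (c z e
 (c z e
 (c (a (nat_lit 0x285eba56543835407)) e
 (c z e
 (c (a (nat_lit 0x104bac85a6bfc432e6)) e
 (c (a (nat_lit 0x20482a2d662e42be8)) e e)))))))))
 (c (a (nat_lit 0x108d340b6404ed43))
 (c z e
 (c z e
 (c z e
 (c (a (nat_lit 0x1c9210fad05ced9a7)) e
 (c (a (nat_lit 0x9a72ba9e8e5950ac7)) e
 (c (a (nat_lit 0x36949a723d06e2567)) e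
 (c z e
 (c (a (nat_lit 0xfec0a1d8a8936ea47)) e e))))))))
 (c (a (nat_lit 0xcb309e321eb4643)) e
 (c z e
 (c z e
 (c z e
 (c z e
 (c z e
 (c z e
 (c (a (nat_lit 0x1455fbb3bc327024)) e
 (c (a (nat_lit 0xd502d0ce9882205)) e
 (c z e
 (c z e
 (c (a (nat_lit 0x157003006162a043)) e e)))))))))))))))))
 (c z
 (c (a (nat_lit 0x3d7ff5aa1a562a5))
 (c (a (nat_lit 0x8906ef2160e51cdc6)) e
 (c z e
 (c z e
 (c z e
 (c (a (nat_lit 0x684d229cd6f922828))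
 (c (a (nat_lit 0x4c6034286c546b0d369)) e e)
 (c z e
 (c z e
 (c (a (nat_lit 0x8258c9709a8c52667)) e
 (c z e
 (c z e
 (c z e
 (c z e
 (c (a (nat_lit 0x789121cff51600008)) e e)))))))))))))
 (c z e
 (c z e
 (c z e
 (c (a (nat_lit 0xbab0865229f2085))
 (c (a (nat_lit 0xcf010e62feaf0aec8)) e
 (c z e
 (c z e
 (c z e
 (c (a (nat_lit 0x725e509f08c618649)) e e)))))
 (c z e
 (c z e
 (c z e
 (c (b (nat_lit 0x33edffb7f0538a4))
 (c (a (nat_lit 0x1f752d71f4ccc00006)) e e)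
 (c z e
 (c z e
 (c (a (nat_lit 0xcd18aef696449c6)) e
 (c (a (nat_lit 0x189136320b4b48a6)) e
 (c z e
 (c z e
 (c z e
 (c (a (nat_lit 0xd74b6acac676005)) e
 (c (a (nat_lit 0x1193296500000005)) e e))))))))))))))))))
 (c z e
 (c z
 (c z e
 (c z e
 (c z e
 (c z e
 (c z e
 (c z e
 (c z e
 (c z e
 (c z e
 (c (a (nat_lit 0x1c5fb876bb702066)) e
 (c z e
 (c z e
 (c z e
 (c (a (nat_lit 0x135bc0446c202005)) e e))))))))))))))
 (c z
 (c z e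
 (c (a (nat_lit 0x1c9c757b656b1e25)) e
 (c z e
 (c z e
 (c z e
 (c (a (nat_lit 0x16535b0923879c6)) e
 (c z e
 (c z e
 (c z e
 (c (a (nat_lit 0x6b0f545778f9866)) e e))))))))))
 (c (a (nat_lit 0x202020203486))
 (c (a (nat_lit 0x1e1a1a020a0b048))
 (c (a (nat_lit 0x15f23839d14f0b8587)) e
 (c z e
 (c z e
 (c z e
 (c (a (nat_lit 0x18ae24875028200008)) e e)))))
 (c z e
 (c z e
 (c z e
 (c (a (nat_lit 0x14112838646e728)) e
 (c z e
 (c z e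
 (c z e
 (c (a (nat_lit 0x766ade648ebf387)) e e)))))))))
 (c (a (nat_lit 0x20202034d1c6)) e
 (c (a (nat_lit 0x20203f3733a6))
 (c z e
 (c z e
 (c (a (nat_lit 0x923ef9627858146)) e
 (c z e
 (c (a (nat_lit 0xc6d6a71136befa6)) e e)))))
 (c (a (nat_lit 0x5657715cd0425))
 (c z e
 (c z e
 (c (a (nat_lit 0x470ed6e8cc1c2e6)) e
 (c (a (nat_lit 0xa29668ca6c4f467)) e e))))
 (c (a (nat_lit 0x575964da4a6e5))
 (c (a (nat_lit 0x9f31296cc2e24e5)) e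
 (c z e
 (c z e
 (c z e
 (c (a (nat_lit 0x11755838da332007)) e e)))))
 (c z e
 (c (a (nat_lit 0x13ed8ceff15165))
 (c (a (nat_lit 0xe0ae8dc482612c7)) e e)
 (c z e
 (c (a (nat_lit 0xbae74b4fc7625)) e
 (c z e
 (c z e
 (c z e
 (c (a (nat_lit 0x17a40280c88264)) e
 (c (a (nat_lit 0x381e067c21be4)) e
 (c (a (nat_lit 0x5024ae57f6ac4)) e
 (c (a (nat_lit 0x1a5e33025e4a5)) e
 (c (a (nat_lit 0x66390a6652305)) e
 (c (a (nat_lit 0x4beea84200004)) e e)))))))))))))))))))))))) Tr.c Tr.e (nat_lit 0) C.cx C.cy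
noncomputable def C616 : Tr := beta% (fun (c : Nat → Tr → Tr → Tr) (e : Tr) (z : Nat) (a b : Nat → Nat) =>
 (c (a (nat_lit 0x20202001))
 (c (a (nat_lit 0x2020202001))
 (c (b (nat_lit 0x1ffca989e920a4))
 (c (a (nat_lit 0x284b70f4204e2a7)) e e)
 (c z e
 (c z e
 (c z e
 (c z e
 (c z e
 (c z e
 (c (a (nat_lit 0x12d02d8682e4a8)) e e))))))))
 (c (a (nat_lit 0x4060604021)) e
 (c (a (nat_lit 0x2020203388)) e
 (c (a (nat_lit 0x20203c0f87)) e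
 (c (a (nat_lit 0x20350a0708)) e
 (c z e
 (c z e
 (c (a (nat_lit 0x12ef0e29f2e7))
 (c (a (nat_lit 0x6b4c863400009)) e e)
 (c z e
 (c z e
 (c z e
 (c z e
 (c z e
 (c (a (nat_lit 0x1b44622c125)) e
 (c (a (nat_lit 0x122400a02fa5)) e
 (c (a (nat_lit 0xc4907780a65)) e e))))))))))))))))
 (c (a (nat_lit 0x20202021))
 (c (a (nat_lit 0x20202038e7)) e
 (c (a (nat_lit 0x20203548e8)) e
 (c (a (nat_lit 0x3509c828)) e
 (c z e
 (c z e
 (c z e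
 (c z e
 (c z e
 (c z e
 (c z e
 (c z e
 (c (a (nat_lit 0x382f1c1c0e6)) e
 (c (a (nat_lit 0x1dfc0404fc5)) e
 (c (a (nat_lit 0x15a5a4cda866)) e e))))))))))))))
 (c (a (nat_lit 0x40404041))
 (c (a (nat_lit 0x2031a8c607))
 (c (b (nat_lit 0xc25b07fe76145)) e e)
 (c z e
 (c z e
 (c z e
 (c z e
 (c z e
 (c z e
 (c z e
 (c z e
 (c (a (nat_lit 0x13db47a041a4)) e
 (c (a (nat_lit 0x7a2e0a15366)) e
 (c (a (nat_lit 0x28040f31486)) e
 (c z e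
 (c z e
 (c (a (nat_lit 0x1c7fa0402005)) e
 (c (a (nat_lit 0x100040000006)) e e))))))))))))))))
 (c (a (nat_lit 0x20202041))
 (c (a (nat_lit 0x1735f8e66125))
 (c (a (nat_lit 0x9109693a848a5)) e
 (c (a (nat_lit 0x4068825019208)) e e))
 (c (a (nat_lit 0x13328828b3e6))
 (c (a (nat_lit 0x92a490298f108)) e e)
 (c z e
 (c z e
 (c z e
 (c z e
 (c z e
 (c (a (nat_lit 0xdd143204005)) e
 (c (a (nat_lit 0x8e1c02031e6)) e
 (c (a (nat_lit 0x361c1d39386)) e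
 (c z e
 (c z e
 (c (a (nat_lit 0x1cbca0404005)) e
 (c (a (nat_lit 0x1ca020400005)) e
 (c (a (nat_lit 0x2000000001)) e e)))))))))))))))
 (c (nat_lit 1)
 (c (a (nat_lit 0x68485908d85))
 (c (b (nat_lit 0x6052135569fe7)) e e)
 (c z e
 (c z e
 (c z e
 (c z e
 (c z e
 (c (a (nat_lit 0xb62004051c6)) e
 (c (a (nat_lit 0xfadadf7d646)) e
 (c z e
 (c z e
 (c (a (nat_lit 0x1d5a60a0a085)) e
 (c (a (nat_lit 0x19c020202005)) e
 (c (a (nat_lit 0x100000001)) e e)))))))))))))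
 (c (a (nat_lit 0x202001))
 (c z e
 (c z e
 (c z e
 (c z e
 (c z e
 (c (a (nat_lit 0xf4e8eb1ed27)) e
 (c z e
 (c z e
 (c (a (nat_lit 0x11d04100e0e6)) e
 (c (a (nat_lit 0x1f8020204025)) e
 (c (a (nat_lit 0x6161800001)) e
 (c (nat_lit 1) e e))))))))))))
 (c (a (nat_lit 0x121212121))
 (c z e
 (c z e
 (c z e
 (c z e
 (c z e
 (c z e
 (c (a (nat_lit 0x12ce20c103c6)) e
 (c (a (nat_lit 0x152020402005)) e
 (c (a (nat_lit 0x302c240e001)) e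
 (c (a (nat_lit 0x48200000001)) e e))))))))))
 (c (nat_lit 1)
 (c (a (nat_lit 0x199cfc4eb7a6)) e
 (c z e
 (c z e
 (c z e
 (c (a (nat_lit 0x11edc0a06da6)) e
 (c (a (nat_lit 0x6438141c2e1)) e
 (c (a (nat_lit 0x140c121e041)) e
 (c (a (nat_lit 0x2121000001)) e
 (c (nat_lit 1) e e)))))))))
 (c (nat_lit 1)
 (c z e
 (c z e
 (c (a (nat_lit 0x12ade0403046)) e
 (c (a (nat_lit 0x10180c0c061)) e
 (c (a (nat_lit 0x1e181414161)) e
 (c (a (nat_lit 0x8080806001)) e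
 (c (a (nat_lit 0x40000001)) e e)))))))
 (c (nat_lit 1)
 (c (a (nat_lit 0x907a1409106)) e
 (c (a (nat_lit 0x1e384a24001)) e
 (c (a (nat_lit 0x2c261818001)) e
 (c (a (nat_lit 0x5c34101c001)) e
 (c (a (nat_lit 0x6e500a00001)) e
 (c (a (nat_lit 0x40000000001)) e e))))))
 (c (a (nat_lit 0x60404061))
 (c (a (nat_lit 0xa0808080c1)) e
 (c (a (nat_lit 0xc0e0a140c1)) e
 (c (a (nat_lit 0xc0a1006001)) e
 (c (a (nat_lit 0x100e0000001)) e e))))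
 (c (a (nat_lit 0x40404041))
 (c (a (nat_lit 0x6060a06021)) e
 (c (a (nat_lit 0x6100400001)) e
 (c (a (nat_lit 0xc000000001)) e e)))
 (c (a (nat_lit 0x20202021))
 (c (a (nat_lit 0x8020000001)) e e)
 (c (a (nat_lit 0xa0a0a0a1)) e
 (c (a (nat_lit 0x202021)) e
 (c (a (nat_lit 0x40406041)) e
 (c (a (nat_lit 0x20203e05)) e
 (c (a (nat_lit 0x202f1206)) e
 (c z e
 (c z e
 (c (a (nat_lit 0x1269004146)) e
 (c (a (nat_lit 0x11c04733e5)) e e))))))))))))))))))))))) Tr.c Tr.e (nat_lit 0) C.cx C.cy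
noncomputable def C617 : Tr := beta% (fun (c : Nat → Tr → Tr → Tr) (e : Tr) (z : Nat) (a b : Nat → Nat) =>
 (c (a (nat_lit 0x20202021))
 (c (nat_lit 1)
 (c z
 (c (a (nat_lit 0x1739b80d2ac08024))
 (c z e
 (c z e
 (c z e
 (c z e
 (c z e
 (c z e
 (c z e
 (c z e
 (c (a (nat_lit 0x607066544047bc7c7)) e
 (c (a (nat_lit 0x68824a36576234a67)) e e))))))))))
 (c z e
 (c z e
 (c z e
 (c z e
 (c z e
 (c z e
 (c z e
 (c z e
 (c z e
 (c z e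
 (c (a (nat_lit 0x1cb8de9a74b80025)) e
 (c z e
 (c z e
 (c z e
 (c z e
 (c (a (nat_lit 0x197c2f4b81a00004)) e e)))))))))))))))))
 (c z e
 (c z e
 (c (a (nat_lit 0x202020203088)) e
 (c (a (nat_lit 0x112a48)) e
 (c (a (nat_lit 0x20203890d028)) e
 (c (a (nat_lit 0x203828a946a8)) e e)))))))
 (c (a (nat_lit 0x6060604041))
 (c z e
 (c (a (nat_lit 0x202020203f28)) e
 (c (a (nat_lit 0x2020203128e9)) e
 (c (a (nat_lit 0x202037ae0dc9)) e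
 (c (a (nat_lit 0x20382b6b2569)) e e)))))
 (c (a (nat_lit 0x2040404021))
 (c (a (nat_lit 0x2020203f9167)) e
 (c (a (nat_lit 0x203e951069)) e
 (c (a (nat_lit 0x203ab10ec849)) e e)))
 (c (a (nat_lit 0x2040202021))
 (c (a (nat_lit 0x2223dd6d14a08)) e e)
 (c (nat_lit 1) e
 (c (a (nat_lit 0x2020202001)) e
 (c (a (nat_lit 0x20202021)) e
 (c (nat_lit 1)
 (c z e
 (c z e
 (c z e
 (c z e
 (c z e
 (c z e
 (c z e
 (c z e
 (c z e
 (c z e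
 (c (a (nat_lit 0x1ea507a00006)) e e)))))))))))
 (c (a (nat_lit 0x20004021)) e
 (c (a (nat_lit 0x2020202021)) e
 (c (a (nat_lit 0x2060604021)) e
 (c (a (nat_lit 0x4040202021)) e
 (c (a (nat_lit 0x20203327)) e
 (c (a (nat_lit 0x20203769a6)) e
 (c (a (nat_lit 0x2036284206)) e e)))))))))))))))
 (c (a (nat_lit 0x20202021))
 (c (a (nat_lit 0x2020202021))
 (c (a (nat_lit 0x2020202036c6)) e
 (c (a (nat_lit 0x202020306728)) e
 (c (a (nat_lit 0x202035abc9e8)) e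
 (c (a (nat_lit 0x2021a8f0faa68)) e e))))
 (c (a (nat_lit 0x4040404021))
 (c (a (nat_lit 0x20203ab22ea8)) e
 (c (a (nat_lit 0x2039efab8789)) e e))
 (c (a (nat_lit 0x4040404041)) e
 (c (a (nat_lit 0x20000001)) e
 (c (a (nat_lit 0x2020202001)) e
 (c (a (nat_lit 0x6060604041)) e
 (c (a (nat_lit 0x6060606061)) e
 (c (a (nat_lit 0x4040406041)) e
 (c (a (nat_lit 0x2020202001)) e
 (c (a (nat_lit 0x2040408021)) e
 (c (a (nat_lit 0x2020203347)) e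
 (c (a (nat_lit 0x203406c7)) e
 (c (b (nat_lit 0x3c3fffe6)) e e)))))))))))))
 (c (a (nat_lit 0x40404041))
 (c (a (nat_lit 0x4040606061))
 (c (a (nat_lit 0x20312c082547))
 (c z e
 (c z e
 (c z e
 (c z e
 (c z e
 (c z e
 (c z e
 (c z e
 (c z e
 (c z e
 (c (a (nat_lit 0x1506ee1cda92c086)) e e))))))))))) e)
 (c (a (nat_lit 0x4040404041)) e
 (c (a (nat_lit 0x4040402021)) e
 (c (a (nat_lit 0x2020404021)) e
 (c (a (nat_lit 0x4040404041)) e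
 (c (a (nat_lit 0x2020200001)) e
 (c (a (nat_lit 0x808080a0a1)) e
 (c (a (nat_lit 0x2040404041))
 (c z e
 (c z e
 (c z e
 (c z e
 (c z e
 (c z e
 (c (a (nat_lit 0x711ac25000008)) e e)))))))
 (c (a (nat_lit 0x20202037c7))
 (c z e
 (c z e
 (c z e
 (c z e
 (c z e
 (c (a (nat_lit 0xfb2ca60000008)) e e))))))
 (c (a (nat_lit 0x20203808a7)) e
 (c (b (nat_lit 0x20398f9fe7)) e e)))))))))))
 (c (a (nat_lit 0x20202021))
 (c (a (nat_lit 0x4040404041))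
 (c (a (nat_lit 0x9a8e581f7d204))
 (c (a (nat_lit 0x14ee81c342a544c6)) e
 (c z e
 (c z e
 (c z e
 (c (a (nat_lit 0x2a282a080c4dc68)) e
 (c z e
 (c (b (nat_lit 0x1fe7a2687015f7c7)) e
 (c (a (nat_lit 0x8da9d3dae5c7a7)) e e))))))))
 (c z e
 (c z e
 (c z e
 (c z e
 (c z e
 (c (a (nat_lit 0x458020407ba7))
 (c (a (nat_lit 0x10104ce4a0000008)) e e)
 (c z e
 (c z e
 (c z e
 (c z e
 (c z e
 (c (a (nat_lit 0x16c265e3632247)) e e)))))))))))))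
 (c (a (nat_lit 0x2020202021)) e
 (c (a (nat_lit 0x2020204021)) e
 (c (a (nat_lit 0x4040404021)) e
 (c (a (nat_lit 0x4040406061)) e
 (c (a (nat_lit 0x20204001))
 (c z e
 (c (a (nat_lit 0xdb0c725e30228)) e e))
 (c (a (nat_lit 0x2020203028))
 (c (a (nat_lit 0x19c5e8e1002006)) e e)
 (c (a (nat_lit 0x202034c4c8))
 (c z e
 (c z e
 (c z e
 (c z e
 (c z e
 (c (a (nat_lit 0x1887c000000008)) e e))))))
 (c (a (nat_lit 0x20340bc3e8)) e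
 (c z e
 (c z e
 (c (a (nat_lit 0x985a9497267)) e
 (c (a (nat_lit 0xca0a09ef385)) e
 (c z e
 (c z e
 (c z e
 (c z e
 (c z e
 (c (a (nat_lit 0x1a080407447)) e e)))))))))))))))))))
 (c (nat_lit 1)
 (c (nat_lit 1) e
 (c (a (nat_lit 0x2001)) e
 (c (nat_lit 1) e
 (c (a (nat_lit 0x6060606061)) e
 (c (a (nat_lit 0x3be7))
 (c (a (nat_lit 0xf132e84204f66)) e e)
 (c (a (nat_lit 0x1147e8))
 (c (a (nat_lit 0xa02e2c9c574e6)) e e)
 (c (a (nat_lit 0x203a6d6ac8)) e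
 (c z e
 (c z e
 (c z e
 (c z e
 (c z e
 (c z e
 (c z e
 (c z e
 (c (a (nat_lit 0x146a625c501)) e
 (c (a (nat_lit 0x20203106)) e
 (c (a (nat_lit 0x40405143e6)) e e))))))))))))))))))
 C616)))))) Tr.c Tr.e (nat_lit 0) C.cx C.cy
noncomputable def C618 : Tr := beta% (fun (c : Nat → Tr → Tr → Tr) (e : Tr) (z : Nat) (a b : Nat → Nat) =>
 (c (a (nat_lit 0x4040404041))
 (c z
 (c (b (nat_lit 0x1e1e1e1fff5eb23))
 (c z e
 (c z e
 (c z e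
 (c z e
 (c z e
 (c z e
 (c z e
 (c z e
 (c z e
 (c z e
 (c z e
 (c (a (nat_lit 0x885e0a505724d6a66)) e e))))))))))))
 (c (a (nat_lit 0x1e1e1f956d40026)) e
 (c (a (nat_lit 0x5e5f6dd988164c6)) e
 (c z e
 (c (a (nat_lit 0xe906fc4a1c1e2a7)) e
 (c z e
 (c z e
 (c z e
 (c z e
 (c z e
 (c z e
 (c z e
 (c z e
 (c z e
 (c z e
 (c z e
 (c (a (nat_lit 0x12b5a86c06e44445)) e
 (c z e
 (c (a (nat_lit 0x121e8f0785044003)) e
 (c (a (nat_lit 0x1c6a00c060000003)) e e))))))))))))))))))))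
 (c z
 (c (a (nat_lit 0x20323594422447)) e
 (c z e
 (c z e
 (c z e
 (c z e
 (c z e
 (c z e
 (c z e
 (c z e
 (c z e
 (c z e
 (c z e
 (c z e
 (c (b (nat_lit 0x889315fffffffe8)) e e))))))))))))))
 (c z e
 (c z e
 (c z e
 (c z e
 (c (a (nat_lit 0x202020203528)) e
 (c (a (nat_lit 0x202020396de8)) e
 (c (a (nat_lit 0x20203e108dc7)) e
 (c (a (nat_lit 0x34358718ea2c7)) e
 (c z e
 (c z e
 (c z e
 (c z e
 (c z e
 (c z e
 (c z e
 (c z e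
 (c (a (nat_lit 0x163bc605091445)) e
 (c (a (nat_lit 0x17c20044507ba5)) e
 (c (b (nat_lit 0x18044103b7fe5)) e e)))))))))))))))))))))
 (c (nat_lit 1)
 (c z e
 (c z e
 (c z e
 (c z e
 (c (a (nat_lit 0x202020203449)) e
 (c (a (nat_lit 0x202020362e09)) e
 (c (a (nat_lit 0x20203c6eeec9)) e
 (c (a (nat_lit 0x203db2b142a8)) e e))))))))
 (c (nat_lit 1)
 (c z e
 (c z e
 (c (a (nat_lit 0x2020202033e9)) e
 (c (a (nat_lit 0x2020362c69)) e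
 (c (a (nat_lit 0x202039ccec69)) e
 (c (a (nat_lit 0x20388e0ee449)) e e))))))
 (c (a (nat_lit 0x4040404041))
 (c (a (nat_lit 0x202020203288)) e
 (c (a (nat_lit 0x202020368bc9)) e
 (c (a (nat_lit 0x20203ef29009)) e
 (c (a (nat_lit 0x20386f6ce409)) e e))))
 (c (a (nat_lit 0xc0c0c0c0c1))
 (c (a (nat_lit 0x20203df46ec8)) e
 (c (a (nat_lit 0x203c757266e9)) e e))
 (c (a (nat_lit 0x2020202021)) e
 (c (a (nat_lit 0x2020002001))
 (c z e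
 (c z e
 (c z e
 (c z e
 (c z e
 (c z e
 (c z e
 (c (a (nat_lit 0x12ce2e2a2aa4a8)) e
 (c z e
 (c z e
 (c z e
 (c z e
 (c z e
 (c (a (nat_lit 0xe4f27b0498006)) e
 (c (a (nat_lit 0x18e9eda0000005)) e e)))))))))))))))
 (c (a (nat_lit 0x4040404041))
 (c z e
 (c z e
 (c z e
 (c z e
 (c z e
 (c z e
 (c z e
 (c z e
 (c z e
 (c z e
 (c z e
 (c z e
 (c (a (nat_lit 0x4df31c0400003)) e
 (c (a (nat_lit 0x19e9c000000004)) e e))))))))))))))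
 (c (a (nat_lit 0x2020202021))
 (c z e
 (c z e
 (c z e
 (c z e
 (c z e
 (c z e
 (c z e
 (c z e
 (c z e
 (c z e
 (c (a (nat_lit 0x13db101851c006)) e
 (c (a (nat_lit 0x1fe9ad40000005)) e e))))))))))))
 (c (a (nat_lit 0x204041))
 (c (b (nat_lit 0x1fff8b85a54946))
 (c (a (nat_lit 0x7ed19ab6c654007)) e
 (c (a (nat_lit 0x10b688a540000008)) e e))
 (c (a (nat_lit 0x1b26c0a064ee27))
 (c (a (nat_lit 0x1827634000000007)) e e) e))
 (c (a (nat_lit 0x4040202021))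
 (c (a (nat_lit 0xec040a9fb6945)) e e)
 (c (a (nat_lit 0xe10100e081)) e
 (c (nat_lit 1) e
 (c (a (nat_lit 0x2040404041))
 (c (a (nat_lit 0x5872847c69ce8)) e e)
 (c (a (nat_lit 0x2020203ba7)) e
 (c (a (nat_lit 0x20201a0e47))
 (c (a (nat_lit 0x1837faf7400009)) e
 (c (a (nat_lit 0x1b172000000006)) e e))
 (c (a (nat_lit 0x20308aa8e8)) e
 (c z e
 (c (a (nat_lit 0x1ff430a02027)) e
 (c (a (nat_lit 0x141080216767)) e
 (c (a (nat_lit 0x10a02167a607)) e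
 (c z e
 (c z e
 (c z e
 (c z e
 (c z e
 (c (a (nat_lit 0x1b6660202006)) e
 (c (a (nat_lit 0x19c060000004)) e e))))))))))))))))))))))))))))) Tr.c Tr.e (nat_lit 0) C.cx C.cy
noncomputable def C619 : Tr := beta% (fun (c : Nat → Tr → Tr → Tr) (e : Tr) (z : Nat) (a b : Nat → Nat) =>
 (c (a (nat_lit 0x6060606061))
 (c z
 (c z e
 (c z e
 (c z e
 (c z e
 (c z e
 (c z e
 (c z e
 (c z e
 (c z e
 (c (a (nat_lit 0x116f1590108d4ba6)) e e))))))))))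
 (c z e
 (c z e
 (c (a (nat_lit 0x202020203248))
 (c z e
 (c z e
 (c z e
 (c z e
 (c z e
 (c (a (nat_lit 0xa5256fbbb2d80e6)) e e))))))
 (c (a (nat_lit 0x2020203267c8)) e
 (c (a (nat_lit 0x2020340a8ae8)) e
 (c (a (nat_lit 0x3637f507004c7)) e e)))))))
 (c (a (nat_lit 0x6060606061))
 (c z e
 (c (a (nat_lit 0x202020203f67))
 (c z e
 (c z e
 (c z e
 (c z e
 (c z e
 (c z e
 (c z e
 (c z e
 (c (a (nat_lit 0xd2e51134b50c348)) e e)))))))))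
 (c (a (nat_lit 0x202020312788))
 (c z e
 (c z e
 (c z e
 (c z e
 (c z e
 (c z e
 (c (a (nat_lit 0x1b8ece71dba28f27)) e e)))))))
 (c (a (nat_lit 0x2020334c8868)) e
 (c (a (nat_lit 0x20352d2a2508)) e e)))))
 (c (a (nat_lit 0x6060606061))
 (c (a (nat_lit 0x2020203e8e66))
 (c (a (nat_lit 0x1228122a596c626))
 (c z e
 (c z e
 (c z e
 (c z e
 (c z e
 (c (a (nat_lit 0x15aa670e0823c00008)) e
 (c (a (nat_lit 0x15d376292000000007)) e e)))))))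
 (c z e
 (c z e
 (c z e
 (c z e
 (c z e
 (c z e
 (c (a (nat_lit 0x168486b90a502a7)) e
 (c z e
 (c z e
 (c z e
 (c z e
 (c (a (nat_lit 0x1d940e0000000005)) e e)))))))))))))
 (c (a (nat_lit 0x20203c950ee8)) e
 (c (a (nat_lit 0x22239b26c4708)) e e)))
 (c (a (nat_lit 0xc0c0c0c0c1))
 (c (a (nat_lit 0x203b7796eaa7)) e
 (c z e
 (c z e
 (c z e
 (c z e
 (c z e
 (c z e
 (c z e
 (c z e
 (c z e
 (c z e
 (c z e
 (c z e
 (c z e
 (c z e
 (c (a (nat_lit 0x14c06060804003)) e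
 (c (a (nat_lit 0x8a8a120000001)) e e)))))))))))))))))
 (c (a (nat_lit 0x6060606041))
 (c (a (nat_lit 0x132f6ec76202a7))
 (c (a (nat_lit 0x7ac84c161c89b26)) e
 (c z e
 (c z e
 (c z e
 (c z e
 (c z e
 (c z e
 (c (a (nat_lit 0x483b0e962600009)) e e))))))))
 (c z e
 (c z e
 (c z e
 (c z e
 (c z e
 (c z e
 (c (a (nat_lit 0x100fe98944a947)) e
 (c z e
 (c z e
 (c z e
 (c z e
 (c z e
 (c (a (nat_lit 0x1e3c2832261e1)) e
 (c (a (nat_lit 0x2e461200001)) e e)))))))))))))))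
 (c (a (nat_lit 0xa0a0a0a0a1)) e
 (c (a (nat_lit 0x6060606061)) e
 (c (a (nat_lit 0x6060608081))
 (c (a (nat_lit 0x20c900322e306))
 (c (a (nat_lit 0xa258dd5a3c5e2a7)) e
 (c (a (nat_lit 0x374b12284200008)) e e))
 (c (a (nat_lit 0x153c818040aa46))
 (c (a (nat_lit 0x1469630320000008)) e e) e))
 (c (a (nat_lit 0xa0a0a0a0a1))
 (c (a (nat_lit 0x1e21206049eb85)) e
 (c z e
 (c z e
 (c z e
 (c z e
 (c z e
 (c (a (nat_lit 0xc4c76734b7204)) e e)))))))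
 (c (a (nat_lit 0xe0e0e0e0c1)) e
 (c (nat_lit 1) e
 (c (a (nat_lit 0xa0a0a0a0a1))
 (c (a (nat_lit 0x1a7680806d866)) e
 (c z e
 (c z e
 (c z e
 (c (a (nat_lit 0x1478d260000007)) e e)))))
 (c (a (nat_lit 0x2020404041))
 (c z e
 (c z e
 (c (a (nat_lit 0x104db06ee00008)) e
 (c (a (nat_lit 0x276e000000004)) e e))))
 (c (a (nat_lit 0x2020203265))
 (c (a (nat_lit 0x1291f2b6f8c008)) e
 (c (a (nat_lit 0x10ac6c60000005)) e
 (c (nat_lit 1) e e)))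
 (c (a (nat_lit 0x2020302ac6)) e
 (c (a (nat_lit 0x20302ae766)) e
 (c z e
 (c (a (nat_lit 0x1bf0a9402005)) e
 (c (a (nat_lit 0x1109a0250c05)) e
 (c (a (nat_lit 0x15826c7ab304)) e
 (c z e
 (c z e
 (c z e
 (c z e
 (c (b (nat_lit 0x1a22ffe02006)) e
 (c (a (nat_lit 0x166040200003)) e e))))))))))))))))))))))))))) Tr.c Tr.e (nat_lit 0) C.cx C.cy
noncomputable def C620 : Tr := beta% (fun (c : Nat → Tr → Tr → Tr) (e : Tr) (z : Nat) (a : Nat → Nat) =>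
 (c z
 (c (a (nat_lit 0x20202020203384))
 (c z e
 (c z e
 (c z e
 (c z e
 (c z e
 (c z e
 (c z e
 (c z e
 (c z e
 (c z e
 (c (a (nat_lit 0x4a0e3e4c5c366b5e6)) e
 (c (a (nat_lit 0x5a68705e205a4d5a7)) e e))))))))))))
 (c (a (nat_lit 0x202020202ef0c6))
 (c z e
 (c z e
 (c z e
 (c z e
 (c z e
 (c z e
 (c z e
 (c z e
 (c z e
 (c (a (nat_lit 0x19999494ec93965ba6)) e e))))))))))
 (c (a (nat_lit 0x2020203472f0c6)) e
 (c (a (nat_lit 0x20203a784ec006))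
 (c z e
 (c z e
 (c z e
 (c z e
 (c z e
 (c z e
 (c (a (nat_lit 0x150f6db02f8e6f3627)) e e)))))))
 (c (a (nat_lit 0x2031b08a624247))
 (c z e
 (c z e
 (c z e
 (c z e
 (c z e
 (c (a (nat_lit 0x11b62e8acaa7b5a7e7)) e e))))))
 (c z e
 (c (a (nat_lit 0x1bb9d98743830326))
 (c z e
 (c z e
 (c z e
 (c z e
 (c z e
 (c z e
 (c z e
 (c (a (nat_lit 0x11f34fcd4780000009)) e e))))))))
 (c z e
 (c z e
 (c z e
 (c z e
 (c z e
 (c z e
 (c z e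
 (c z e
 (c z e
 (c z e
 (c z e
 (c z e
 (c (a (nat_lit 0x1eb5488060c0c004)) e
 (c (a (nat_lit 0x1467802020000004)) e e)))))))))))))))))))))
 (c z
 (c (a (nat_lit 0x2020202ff0eaa5)) e
 (c (a (nat_lit 0x20203310cd8466))
 (c z e
 (c z e
 (c z e
 (c z e
 (c z e
 (c z e
 (c z e
 (c (a (nat_lit 0x100f6c8eb1ed25b2e7)) e e))))))))
 (c (a (nat_lit 0x2039b9b025eee6)) e
 (c z e
 (c (a (nat_lit 0x1dfdbb0d51b24e66)) e
 (c z e
 (c z e
 (c z e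
 (c z e
 (c z e
 (c z e
 (c z e
 (c z e
 (c z e
 (c (a (nat_lit 0x1d7c9ddcac0880a5)) e
 (c z e
 (c (a (nat_lit 0x502ae04a5678001)) e e)))))))))))))))))
 (c z
 (c (a (nat_lit 0x2034f0f1442205)) e
 (c z e
 (c z e
 (c z e
 (c z e
 (c z e
 (c z e
 (c z e
 (c z e
 (c z e
 (c z e
 (c z e
 (c z e
 (c (a (nat_lit 0x16791755ce8b0526)) e
 (c z e
 (c (a (nat_lit 0x108e21e241c0c145)) e
 (c (a (nat_lit 0x1b6202c1e0e0c004)) e e)))))))))))))))))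
 (c z
 (c (a (nat_lit 0x1e3aec43c3666045)) e
 (c z e
 (c z e
 (c z e
 (c z e
 (c z e
 (c z e
 (c z e
 (c z e
 (c z e
 (c z e
 (c z e
 (c z e
 (c z e
 (c z e
 (c (a (nat_lit 0xd998e05c0e00003)) e e))))))))))))))))
 (c z
 (c z e
 (c z e
 (c z e
 (c z e
 (c z e
 (c z e
 (c z e
 (c z e
 (c z e
 (c z e
 (c z e
 (c (a (nat_lit 0xc6fd852b2b3fd06)) e
 (c (a (nat_lit 0xe8426b11c268a4)) e e)))))))))))))
 (c z e
 (c z
 (c (a (nat_lit 0x252b6260295385))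
 (c (a (nat_lit 0x5e7a9700f25e78408)) e e)
 (c z e
 (c z e
 (c z e
 (c z e
 (c (a (nat_lit 0xf95f475f1729286)) e
 (c z e
 (c (a (nat_lit 0x2d2d2ecd461b06)) e e))))))))
 (c z e
 (c (a (nat_lit 0x202020203086)) e
 (c (a (nat_lit 0x202020387004))
 (c z e
 (c (a (nat_lit 0x5a5c9d3163499a5)) e e))
 (c (a (nat_lit 0x808090e9a5a5))
 (c (a (nat_lit 0x49137f9b8f164)) e e)
 (c (a (nat_lit 0x5859ccd89c765)) e
 (c z e
 (c (a (nat_lit 0x104d67080b8de5))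
 (c (a (nat_lit 0x1651452183800007)) e e)
 (c (a (nat_lit 0xb494aee725105))
 (c (a (nat_lit 0x1c44800000000007)) e e)
 (c z e
 (c z e
 (c z e
 (c z e
 (c (a (nat_lit 0x230e080202006)) e
 (c (a (nat_lit 0x10e0a0e02022e6)) e
 (c (a (nat_lit 0x365408115e2c3)) e e))))))))))))))))))))))) Tr.c Tr.e (nat_lit 0) C.cx
noncomputable def C621 : Tr := beta% (fun (c : Nat → Tr → Tr → Tr) (e : Tr) (z : Nat) (a : Nat → Nat) =>
 (c (a (nat_lit 0xa0a0a0a0a1))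
 (c z
 (c z
 (c z e
 (c (a (nat_lit 0x13ea4c4c707739fb43)) e
 (c (a (nat_lit 0x667a628d375d4b944)) e e)))
 (c z
 (c (a (nat_lit 0x76aaa4a6dcff11e45))
 (c z e
 (c z e
 (c z e
 (c z e
 (c z e
 (c z e
 (c z e
 (c (a (nat_lit 0x807e8aa2a6344ebfd47)) e
 (c (a (nat_lit 0x24302e2e2c243c8b468)) e e)))))))))
 (c z e
 (c z e
 (c z e
 (c z e
 (c z e
 (c z e
 (c z e
 (c z e
 (c z e
 (c z e
 (c z e
 (c (a (nat_lit 0xaca0ba90923825166)) e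
 (c (a (nat_lit 0x3c4c5a74908aaf447)) e e))))))))))))))
 (c (a (nat_lit 0xe6e6e6e6e6e6101))
 (c z e
 (c z e
 (c z e
 (c z e
 (c z e
 (c z e
 (c z e
 (c z e
 (c z e
 (c z e
 (c z e
 (c z e
 (c z e
 (c (a (nat_lit 0x2e3c3e52485d03a28)) e e))))))))))))))
 (c (a (nat_lit 0xc0c0c0c0d0f902)) e
 (c (a (nat_lit 0x1a1a1a1b59d4483)) e
 (c (a (nat_lit 0x20203ad7e5a2a4)) e
 (c (a (nat_lit 0x4647293b22ac685))
 (c z e
 (c z e
 (c z e
 (c z e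
 (c (a (nat_lit 0x94d8beaa426728ea6)) e
 (c (a (nat_lit 0xbc989c3e60b4afa86)) e e))))))
 (c (a (nat_lit 0x55f00fa7a44104))
 (c z e
 (c z e
 (c z e
 (c z e
 (c z e
 (c z e
 (c (a (nat_lit 0xd6dca87ebfd0db846)) e e)))))))
 (c (a (nat_lit 0x19f1928a87a2c184))
 (c z e
 (c (a (nat_lit 0x2a32305626d8bf167)) e e))
 (c z e
 (c z e
 (c z e
 (c z e
 (c z e
 (c (a (nat_lit 0xbbc4ef04e696a45)) e
 (c (a (nat_lit 0x1c8f32104c844345)) e e))))))))))))))))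
 C620)
 (c (a (nat_lit 0x8080808081))
 (c z
 (c (a (nat_lit 0x202020203d0be4))
 (c z e
 (c z e
 (c z e
 (c z e
 (c z e
 (c z e
 (c z e
 (c z e
 (c z e
 (c (a (nat_lit 0xcc76867a9a6d5d126)) e
 (c (a (nat_lit 0x303e3a7046755d346)) e
 (c (a (nat_lit 0x5652541654494cf07)) e e))))))))))))
 (c (a (nat_lit 0x2020326fadc7)) e
 (c (a (nat_lit 0x2424255d16fa027)) e
 (c (a (nat_lit 0x141561610e0c267)) e
 (c z e
 (c z e
 (c z e
 (c z e
 (c z e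
 (c z e
 (c z e
 (c z e
 (c z e
 (c z e
 (c z e
 (c z e
 (c (a (nat_lit 0x19f7766cee848445)) e
 (c z e
 (c z e
 (c (a (nat_lit 0xed2a04080200004)) e
 (c (a (nat_lit 0x1340c0a000000004)) e e)))))))))))))))))))))
 (c z
 (c (a (nat_lit 0x20203633d244c7)) e
 (c (a (nat_lit 0x20357332c26768)) e e))
 (c z e
 (c z e
 (c z e
 (c z e
 (c z e
 (c (a (nat_lit 0x202020203728)) e
 (c (a (nat_lit 0x202020310968)) e
 (c (a (nat_lit 0x606077f02e27)) e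
 (c (a (nat_lit 0x3ab08e0167)) e
 (c z e
 (c z e
 (c z e
 (c z e
 (c z e
 (c z e
 (c z e
 (c z e
 (c (a (nat_lit 0x150e8341a3e626)) e
 (c (a (nat_lit 0x1a03a044e98745)) e e)))))))))))))))))))))
 (c (nat_lit 1)
 (c z
 (c (a (nat_lit 0xe0f6b7964d7925))
 (c z e
 (c z e
 (c z e
 (c z e
 (c z e
 (c z e
 (c z e
 (c z e
 (c z e
 (c (a (nat_lit 0x5886a0a66250bf1a7)) e
 (c (a (nat_lit 0x7c4e9a4c489177387)) e e)))))))))))
 (c z e
 (c (a (nat_lit 0x1c7a754a8dcd0aa7)) e e)))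
 (c z e
 (c z e
 (c z e
 (c z e
 (c (a (nat_lit 0x2020202031e8)) e
 (c (a (nat_lit 0x20202032a8a8)) e
 (c (a (nat_lit 0x20203a4e8c27)) e
 (c (a (nat_lit 0x161714ae88707)) e e)))))))))
 C619)))) Tr.c Tr.e (nat_lit 0) C.cx
noncomputable def C622 : Tr := beta% (fun (c : Nat → Tr → Tr → Tr) (e : Tr) (z : Nat) (a b : Nat → Nat) =>
 (c (a (nat_lit 0x60606061))
 (c (a (nat_lit 0x2020204041))
 (c z e
 (c (a (nat_lit 0x1a1006060d3c5))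
 (c (a (nat_lit 0xd63101020400007)) e e)
 (c z e
 (c z e
 (c z e
 (c z e
 (c (a (nat_lit 0x13f452a403c068)) e e)))))))
 (c (a (nat_lit 0x20202033e8))
 (c (a (nat_lit 0x2760a0c1d805))
 (c (a (nat_lit 0x343e20a0000005)) e
 (c (a (nat_lit 0x1bf1c00000000007)) e e))
 (c (a (nat_lit 0xfac4c496e9c67)) e
 (c z e
 (c z e
 (c (a (nat_lit 0xf93194d450048)) e
 (c (a (nat_lit 0x1a9bd0e844c428)) e e))))))
 (c (a (nat_lit 0x20203664c8))
 (c (a (nat_lit 0x5e5e1c7b72d47)) e e)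
 (c (a (nat_lit 0x20316222e9)) e
 (c z e
 (c (a (nat_lit 0x19478b072028))
 (c z e
 (c (a (nat_lit 0x12951131a70009)) e e))
 (c (a (nat_lit 0x125b190b1247))
 (c (a (nat_lit 0x14fa2c88000008)) e e)
 (c z e
 (c z e
 (c z e
 (c z e
 (c (a (nat_lit 0xce884419925)) e
 (c (a (nat_lit 0x66220573d25)) e
 (c z e
 (c z e
 (c z e
 (c (a (nat_lit 0xeff20404005)) e
 (c (a (nat_lit 0x1ec020000005)) e e))))))))))))))))))
 (c (a (nat_lit 0x60606061))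
 (c (a (nat_lit 0x202039ad66))
 (c (a (nat_lit 0x9e0e0e06b1da4)) e
 (c (a (nat_lit 0x2829735520d46)) e
 (c z e
 (c z e
 (c (a (nat_lit 0xef55222a4cb27)) e
 (c (a (nat_lit 0xa4464c8641da8)) e e))))))
 (c (a (nat_lit 0x20318c6548))
 (c (a (nat_lit 0x2cd98f4190346)) e e)
 (c z e
 (c z e
 (c (a (nat_lit 0x197fca836dc6))
 (c z e
 (c (a (nat_lit 0x1115ce26400009)) e e))
 (c (a (nat_lit 0x13cd89ef3247))
 (c (a (nat_lit 0x1745c660000008)) e e)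
 (c z e
 (c z e
 (c z e
 (c (a (nat_lit 0x8a6d5a02e45)) e
 (c (a (nat_lit 0x83700af97a5)) e
 (c z e
 (c z e
 (c z e
 (c (a (nat_lit 0x67680202026)) e
 (c (a (nat_lit 0x168020200006)) e
 (c (a (nat_lit 0x1c000000001)) e e)))))))))))))))))
 (c (a (nat_lit 0x40404041))
 (c (a (nat_lit 0x10ed858167))
 (c (b (nat_lit 0x3fe5fffffffe5)) e e)
 (c z e
 (c z e
 (c z e
 (c z e
 (c z e
 (c z e
 (c (b (nat_lit 0x1ffff20047e5)) e
 (c (b (nat_lit 0x1ff1e047f285)) e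
 (c z e
 (c z e
 (c z e
 (c (a (nat_lit 0x676e0604046)) e
 (c (a (nat_lit 0x16a020202006)) e
 (c (a (nat_lit 0x8080000001)) e e)))))))))))))))
 (c (a (nat_lit 0x40404041))
 (c (a (nat_lit 0xedae7e81045))
 (c (a (nat_lit 0x176785e2c95047)) e e)
 (c z e
 (c z e
 (c z e
 (c z e
 (c (a (nat_lit 0xb0b78aecc67)) e
 (c (a (nat_lit 0x6b6a06d17c5)) e
 (c z e
 (c z e
 (c z e
 (c (a (nat_lit 0x61680202006)) e
 (c (a (nat_lit 0x16c020202026)) e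
 (c (a (nat_lit 0x140c00001)) e
 (c (nat_lit 1) e e))))))))))))))
 (c (a (nat_lit 0x404021))
 (c z e
 (c z e
 (c z e
 (c z e
 (c z e
 (c z e
 (c z e
 (c z e
 (c (a (nat_lit 0x7b900604066)) e
 (c (a (nat_lit 0x18e020204066)) e
 (c (a (nat_lit 0x1a2e2a001)) e
 (c (a (nat_lit 0x140000001)) e e))))))))))))
 (c (a (nat_lit 0x1c1c1c1c1))
 (c z e
 (c (a (nat_lit 0x12b4776d27c8)) e
 (c z e
 (c z e
 (c z e
 (c z e
 (c (a (nat_lit 0xa3ac0202306)) e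
 (c (a (nat_lit 0x17c020202006)) e
 (c (a (nat_lit 0x46341a1c1a1)) e
 (c (a (nat_lit 0x140a00001)) e
 (c (nat_lit 1) e e)))))))))))
 (c (nat_lit 1)
 (c (a (nat_lit 0xeb20f468287)) e
 (c z e
 (c z e
 (c z e
 (c (a (nat_lit 0xa3b00606dc6)) e
 (c (a (nat_lit 0x1ac040204045)) e
 (c (a (nat_lit 0x2141816261)) e
 (c (a (nat_lit 0xe0a0e001)) e
 (c (a (nat_lit 0x60000001)) e e)))))))))
 (c (a (nat_lit 0x20404041))
 (c z e
 (c z e
 (c (a (nat_lit 0xa7ae0203066)) e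
 (c (a (nat_lit 0x150040404005)) e
 (c (a (nat_lit 0x2c38180c001)) e
 (c (a (nat_lit 0x6a441206001)) e
 (c (a (nat_lit 0x623a0800001)) e
 (c (a (nat_lit 0x2e000000001)) e e))))))))
 (c (a (nat_lit 0x40404041))
 (c (a (nat_lit 0x54d80203086)) e
 (c (a (nat_lit 0x14e060402005)) e
 (c (a (nat_lit 0x18201e26001)) e
 (c (a (nat_lit 0x72441e1e001)) e
 (c (a (nat_lit 0x66541612001)) e
 (c (a (nat_lit 0x7e1a0000001)) e e))))))
 (c (a (nat_lit 0x80806061))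
 (c (a (nat_lit 0xc0c0e0e061)) e
 (c (a (nat_lit 0x14181e0c141)) e
 (c (a (nat_lit 0xe16080e041)) e
 (c (a (nat_lit 0x1e100c00001)) e
 (c (a (nat_lit 0x4000000001)) e e)))))
 (c (a (nat_lit 0x60606061))
 (c (a (nat_lit 0xa0e060a061)) e
 (c (a (nat_lit 0x14060e04001)) e
 (c (a (nat_lit 0xe0c0000001)) e e)))
 (c (nat_lit 1)
 (c (a (nat_lit 0x40000001)) e
 (c (a (nat_lit 0x8000000001)) e e))
 (c (a (nat_lit 0x80808081)) e
 (c (nat_lit 1) e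
 (c (a (nat_lit 0xe0e10101)) e
 (c (a (nat_lit 0x60a0a0c1)) e
 (c (a (nat_lit 0x20203566)) e
 (c (a (nat_lit 0x20357046)) e
 (c (a (nat_lit 0xd78359b27)) e
 (c z e
 (c (a (nat_lit 0xa70034347)) e
 (c (a (nat_lit 0x19a0202646)) e e))))))))))))))))))))))) Tr.c Tr.e (nat_lit 0) C.cx C.cy
noncomputable def C623 : Tr := beta% (fun (c : Nat → Tr → Tr → Tr) (e : Tr) (z : Nat) (a b : Nat → Nat) =>
 (c (a (nat_lit 0x40404041))
 (c (a (nat_lit 0x202001))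
 (c (a (nat_lit 0x16161722ac8a7))
 (c (a (nat_lit 0xaeaaa4a11924f66))
 (c z e
 (c z e
 (c z e
 (c z e
 (c (a (nat_lit 0x120c00288b874426e7)) e e)))))
 (c z e
 (c z e
 (c z e
 (c (a (nat_lit 0xd304246286a0b06)) e
 (c (a (nat_lit 0xe24284c8c321ce6)) e
 (c z e
 (c z e
 (c z e
 (c (a (nat_lit 0x1249332ed166c106)) e
 (c (a (nat_lit 0x9f025a90e078ec7)) e e)))))))))))
 (c (a (nat_lit 0x2021bccca2c08)) e
 (c z e
 (c z e
 (c (a (nat_lit 0xaea11a30a4927))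
 (c (a (nat_lit 0x563660b6476ec68)) e
 (c (a (nat_lit 0x8bf3cad9570d88)) e
 (c z e
 (c z e
 (c z e
 (c (a (nat_lit 0x124a29440fc7c009)) e
 (c (a (nat_lit 0x1199630ac0000008)) e e)))))))
 (c (b (nat_lit 0xdd8c4f273ffe6))
 (c (a (nat_lit 0x6c54283ca918328)) e
 (c z e
 (c z e
 (c z e
 (c (a (nat_lit 0x13b94c7005400008)) e
 (c (a (nat_lit 0x1046a46000000009)) e e))))))
 (c z e
 (c z e
 (c z e
 (c (b (nat_lit 0x194c2dc6fff5a6)) e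
 (c (a (nat_lit 0x565c4ccf030e8)) e
 (c z e
 (c z e
 (c (b (nat_lit 0x1ff2f9c0a861c5)) e
 (c (a (nat_lit 0xd10c407e4d046)) e
 (c (a (nat_lit 0xea1c142ae5306)) e e))))))))))))))))
 (c (a (nat_lit 0x4060606061))
 (c z e
 (c z e
 (c z e
 (c z e
 (c z e
 (c z e
 (c z e
 (c z e
 (c z e
 (c z e
 (c z e
 (c z e
 (c (a (nat_lit 0x2e9d367e76a48)) e
 (c (a (nat_lit 0x4ed412045f227)) e e))))))))))))))
 (c (a (nat_lit 0x2020202021)) e
 (c (a (nat_lit 0x2020204041)) e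
 (c (a (nat_lit 0x8080806061))
 (c (a (nat_lit 0x105368824468c6))
 (c z e
 (c (b (nat_lit 0x3423fe268b3ac28)) e e))
 (c (b (nat_lit 0x10462040c45fe7))
 (c (a (nat_lit 0x10012c8be6ab6248)) e e)
 (c z e
 (c z e
 (c z e
 (c (a (nat_lit 0x14d479124c9988)) e
 (c (a (nat_lit 0xdef4c17dd3908)) e
 (c z e
 (c z e
 (c z e
 (c z e
 (c (a (nat_lit 0x6903280200007)) e e))))))))))))
 (c (nat_lit 1)
 (c (b (nat_lit 0x100e640edfea65))
 (c (a (nat_lit 0x17e50ee46181c0e6)) e e)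
 (c z e
 (c z e
 (c z e
 (c (a (nat_lit 0x143b70e6c3d167)) e
 (c (a (nat_lit 0x806a669ecd009)) e
 (c z e
 (c z e
 (c z e
 (c (a (nat_lit 0x3166d40c02007)) e
 (c (a (nat_lit 0x166cc040000007)) e e)))))))))))
 (c (a (nat_lit 0x10100e0e0e1))
 (c z e
 (c z e
 (c z e
 (c z e
 (c z e
 (c z e
 (c z e
 (c (a (nat_lit 0x3e976a606c5a7)) e
 (c (a (nat_lit 0x4d20181200007)) e e)))))))))
 (c (a (nat_lit 0x404001))
 (c (a (nat_lit 0x995a56080c626)) e e)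
 (c (a (nat_lit 0x60a0a0a041)) e
 (c (a (nat_lit 0x2020203967))
 (c z e
 (c (a (nat_lit 0x126e6ea335fc8)) e e))
 (c (a (nat_lit 0x20203a28e7))
 (c (a (nat_lit 0x28300a3ac90a9)) e e)
 (c (a (nat_lit 0x33830167)) e
 (c z e
 (c (a (nat_lit 0x13e463c2a007)) e
 (c (a (nat_lit 0x82906a05426)) e
 (c (a (nat_lit 0x906a0544ea6)) e
 (c z e
 (c z e
 (c z e
 (c (a (nat_lit 0x10a2ea402166)) e
 (c (a (nat_lit 0x635202356a5)) e e)))))))))))))))))))))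
 (c (a (nat_lit 0x60606061))
 (c (a (nat_lit 0x4040404041))
 (c (a (nat_lit 0x13c3a184230446))
 (c (a (nat_lit 0x434c5e26161a086))
 (c z e
 (c (a (nat_lit 0x1e1205e103888b8627)) e e))
 (c z e
 (c z e
 (c z e
 (c z e
 (c (a (nat_lit 0x3a34705242533c8)) e
 (c (a (nat_lit 0x4030423849709c7)) e e)))))))
 (c z e
 (c z e
 (c z e
 (c z e
 (c (a (nat_lit 0x1a54aca92d6886)) e
 (c (a (nat_lit 0x1aaac047610685))
 (c (a (nat_lit 0x1a910c5043800008)) e e)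
 (c z e
 (c z e
 (c z e
 (c z e
 (c z e
 (c (a (nat_lit 0x186801402020a7)) e
 (c (a (nat_lit 0x1083008040c8e6)) e e))))))))))))))
 (c (a (nat_lit 0x4040406061)) e
 (c (a (nat_lit 0x808080c0c1)) e
 (c (a (nat_lit 0x6060606061)) e
 (c (a (nat_lit 0xa0a0a0a0a1))
 (c z e
 (c z e
 (c z e
 (c z e
 (c z e
 (c z e
 (c z e
 (c z e
 (c z e
 (c (a (nat_lit 0x10537449e00005)) e e))))))))))
 (c (a (nat_lit 0x6080808041))
 (c z e
 (c z e
 (c z e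
 (c z e
 (c z e
 (c z e
 (c z e
 (c (b (nat_lit 0x1ff66a80202007)) e
 (c (a (nat_lit 0x162a6020000007)) e e)))))))))
 (c (a (nat_lit 0xa0a0808061))
 (c (a (nat_lit 0xdd9ef02e2c806)) e
 (c z e
 (c z e
 (c z e
 (c z e
 (c (a (nat_lit 0x92fd28c03eac9)) e
 (c (a (nat_lit 0x176a62e0400007)) e e)))))))
 (c (a (nat_lit 0x2020203068)) e
 (c (a (nat_lit 0x1084e8)) e
 (c (a (nat_lit 0x3aeb8607)) e
 (c z e
 (c z e
 (c (a (nat_lit 0x111884e02d65)) e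
 (c (a (nat_lit 0x1086c44b0046)) e
 (c z e
 (c z e
 (c z e
 (c (b (nat_lit 0x17ffe9c04024)) e
 (c (b (nat_lit 0x1feb01219904)) e e)))))))))))))))))))
 (c (a (nat_lit 0x20202021))
 (c (a (nat_lit 0x4040404041)) e
 (c (a (nat_lit 0x2020204041)) e
 (c (a (nat_lit 0x4040404041)) e
 (c (nat_lit 1) e
 (c (a (nat_lit 0x10101010101))
 (c z e
 (c z e
 (c z e
 (c z e
 (c z e
 (c z e
 (c z e
 (c (a (nat_lit 0x1dfbf367200006)) e e))))))))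
 (c (a (nat_lit 0x20202031e8))
 (c z e
 (c z e
 (c z e
 (c z e
 (c z e
 (c z e
 (c (a (nat_lit 0x166ca3c0000007)) e e)))))))
 (c (a (nat_lit 0x2020368568)) e
 (c (a (nat_lit 0x34eba4e8)) e
 (c z e
 (c z e
 (c z e
 (c z e
 (c z e
 (c z e
 (c z e
 (c (a (nat_lit 0x11656740e6e6)) e
 (c (a (nat_lit 0x11fa21b87b64)) e e)))))))))))))))))
 (c (a (nat_lit 0x20202021))
 (c (a (nat_lit 0x4040404041))
 (c (a (nat_lit 0x11804025804024))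
 (c (a (nat_lit 0x2022b1ed4a4666)) e
 (c z e
 (c z e
 (c z e
 (c z e
 (c (a (nat_lit 0x1a3080c000000007)) e e)))))) e)
 (c (a (nat_lit 0x8080806061)) e
 (c (a (nat_lit 0x10101012121))
 (c (a (nat_lit 0x384e643ca5b05))
 (c (a (nat_lit 0x5ee12a6a1000006)) e e) e)
 (c (a (nat_lit 0x20202034a8)) e
 (c (a (nat_lit 0x202037c848)) e
 (c (a (nat_lit 0x203ecc6528)) e
 (c z e
 (c z e
 (c z e
 (c z e
 (c z e
 (c z e
 (c z e
 (c (b (nat_lit 0x109ff3204664)) e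
 (c (b (nat_lit 0x1ff52128b704)) e
 (c z e
 (c z e
 (c z e
 (c (a (nat_lit 0x121680400005)) e
 (c (a (nat_lit 0x168000000005)) e e))))))))))))))))))))
 C622))))) Tr.c Tr.e (nat_lit 0) C.cx C.cy
noncomputable def C624 : Tr := beta% (fun (c : Nat → Tr → Tr → Tr) (e : Tr) (z : Nat) (a b : Nat → Nat) =>
 (c (a (nat_lit 0x2020202021))
 (c z
 (c z e
 (c (a (nat_lit 0x1252b58b6060b0c6))
 (c (a (nat_lit 0x9e969a968a9d00c49))
 (c (a (nat_lit 0x1c101e2c2e1ca92650a)) e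
 (c (a (nat_lit 0x1c3a78281ac31730c0a)) e e))
 (c z e
 (c z e
 (c z e
 (c z e
 (c (a (nat_lit 0x11798d30084c0625a8)) e e))))))
 (c z e
 (c z e
 (c z e
 (c z e
 (c (a (nat_lit 0x32a53eb4b0846e6)) e
 (c z e
 (c z e
 (c z e
 (c z e
 (c (a (nat_lit 0x984672c32c98847)) e e))))))))))))
 (c (a (nat_lit 0x2020202032a8))
 (c (a (nat_lit 0xc4c2440404751e7))
 (c (a (nat_lit 0x1131f0ee2ed9da12c8))
 (c (a (nat_lit 0x41418200a69062834a)) e e)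
 (c z e
 (c z e
 (c z e
 (c (a (nat_lit 0xfd611eb68098bc9ca)) e
 (c (a (nat_lit 0x10af8f22c842a42489)) e e))))))
 (c z e
 (c z e
 (c z e
 (c (a (nat_lit 0xaf9fd2f62206bc7))
 (c z e
 (c (a (nat_lit 0x1014d28ca948a00009)) e e))
 (c (a (nat_lit 0x81db2f027cfaf06)) e
 (c z e
 (c (a (nat_lit 0x6688d4b2cad3407)) e
 (c z e
 (c z e
 (c (a (nat_lit 0x86a3054123535c8)) e e)))))))))))
 (c (a (nat_lit 0x2020203307e8)) e
 (c (a (nat_lit 0x202039eb65e8)) e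
 (c (a (nat_lit 0x203b07a1e568)) e
 (c (a (nat_lit 0x216c58588a288))
 (c z e
 (c (a (nat_lit 0x44eec0de9ee33e9)) e
 (c z e
 (c z e
 (c z e
 (c z e
 (c (a (nat_lit 0x1136694fb46a0009)) e e)))))))
 (c (a (nat_lit 0x1b8a64c8c1c667))
 (c (a (nat_lit 0xc5f0e3220fc0c7)) e
 (c z e
 (c z e
 (c z e
 (c z e
 (c (a (nat_lit 0x1377577dcd400008)) e e))))))
 (c z e
 (c z e
 (c z e
 (c z e
 (c (a (nat_lit 0x131df58faa1187)) e
 (c z e
 (c z e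
 (c z e
 (c z e
 (c (a (nat_lit 0xa328ec74446a7)) e e)))))))))))))))))
 (c (a (nat_lit 0x202001))
 (c (a (nat_lit 0x20202032c7c8))
 (c (a (nat_lit 0xea461216359b686))
 (c (a (nat_lit 0x12d10b6cf5978a0627)) e
 (c z e
 (c z e
 (c z e
 (c (a (nat_lit 0x1c9bb128af310f4a69)) e
 (c (a (nat_lit 0x17316087868625c8c8)) e e))))))
 (c z e
 (c z e
 (c z e
 (c (a (nat_lit 0xab59008226a94e7))
 (c z e
 (c (a (nat_lit 0xb5166256580000009)) e e))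
 (c (a (nat_lit 0xed204b37013bc86)) e
 (c z e
 (c z e
 (c z e
 (c (a (nat_lit 0x147789f2385d3ac7)) e
 (c (a (nat_lit 0x64c4c0f7254bf88)) e e)))))))))))
 (c (a (nat_lit 0x2020388b48c9)) e
 (c (a (nat_lit 0x405bec66a769)) e
 (c z e
 (c (a (nat_lit 0x1868882921a469))
 (c z e
 (c (a (nat_lit 0x13eb1a5a3bbf77a8)) e
 (c z e
 (c z e
 (c z e
 (c z e
 (c (a (nat_lit 0x18d59bd22e400009)) e e)))))))
 (c (a (nat_lit 0x124c76060f5aa7))
 (c (a (nat_lit 0x3bc9465a9f6eac7)) e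
 (c z e
 (c z e
 (c z e
 (c (a (nat_lit 0x64a47a653c4e009)) e
 (c (a (nat_lit 0x1577ef0b00000009)) e e))))))
 (c z e
 (c z e
 (c z e
 (c (a (nat_lit 0x18de4ea861c4e7)) e
 (c (a (nat_lit 0x17f00d8f6e94c8)) e
 (c z e
 (c z e
 (c z e
 (c (a (nat_lit 0x659f6eae78ac7)) e
 (c (a (nat_lit 0x17f50925aa2e67)) e e))))))))))))))))
 (c (a (nat_lit 0x20000001))
 (c (a (nat_lit 0x2021508e6c948)) e e)
 (c (a (nat_lit 0x4040404041)) e
 (c (a (nat_lit 0x20202021)) e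
 (c (a (nat_lit 0x4040404041))
 (c z e
 (c (a (nat_lit 0xa380ca041c8c7))
 (c (a (nat_lit 0x562e32ed00b61c8)) e e)
 (c z e
 (c z e
 (c z e
 (c z e
 (c (a (nat_lit 0x1453b10a051528)) e
 (c z e
 (c z e
 (c z e
 (c z e
 (c (a (nat_lit 0x12db7695ac0008)) e e))))))))))))
 (c (a (nat_lit 0xa0a0a0a0a1))
 (c (a (nat_lit 0x15ab03c323c606))
 (c (a (nat_lit 0x1368a7d428e00a6)) e e)
 (c z e
 (c z e
 (c z e
 (c (a (nat_lit 0x167dbe64446b67)) e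
 (c (a (nat_lit 0x1292cda8478c88)) e
 (c z e
 (c z e
 (c z e
 (c (a (nat_lit 0xb92fe32698967)) e
 (c (a (nat_lit 0x9b468c0200007)) e e)))))))))))
 (c (a (nat_lit 0x6060606061)) e
 (c (nat_lit 1)
 (c (a (nat_lit 0xe551321a129c6)) e e)
 (c (a (nat_lit 0x4080a001)) e
 (c (a (nat_lit 0x8080a0a081))
 (c z e
 (c (a (nat_lit 0x648c7a56279a8)) e e))
 (c (a (nat_lit 0x20202037e7))
 (c (a (nat_lit 0x26423822411a9)) e e)
 (c (a (nat_lit 0x2020306007)) e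
 (c (b (nat_lit 0x20305fe007)) e
 (c z e
 (c (a (nat_lit 0x12c041e0e007)) e
 (c (a (nat_lit 0x127e3c09ec5)) e
 (c z e
 (c z e
 (c z e
 (c z e
 (c (a (nat_lit 0x1d0d076070a6)) e e))))))))))))))))))))))) Tr.c Tr.e (nat_lit 0) C.cx C.cy
noncomputable def C625 : Tr := beta% (fun (c : Nat → Tr → Tr → Tr) (e : Tr) (z : Nat) (a b : Nat → Nat) =>
 (c (nat_lit 1)
 (c (a (nat_lit 0x8080808081))
 (c z
 (c (a (nat_lit 0x3c3c3c3c3c1d2e4))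
 (c z e
 (c z e
 (c z e
 (c z e
 (c z e
 (c z e
 (c z e
 (c z e
 (c z e
 (c z e
 (c z e
 (c (a (nat_lit 0x1251f00e333398f006)) e e))))))))))))
 (c (a (nat_lit 0x202020383bb585)) e
 (c (a (nat_lit 0x202031b26b6026))
 (c z e
 (c z e
 (c z e
 (c z e
 (c z e
 (c z e
 (c z e
 (c z e
 (c z e
 (c z e
 (c (a (nat_lit 0xb6ecdb84d8a1a59c8)) e e)))))))))))
 (c (a (nat_lit 0x2038d65003c5a6)) e
 (c z e
 (c z e
 (c z e
 (c z e
 (c z e
 (c z e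
 (c z e
 (c z e
 (c z e
 (c z e
 (c z e
 (c (a (nat_lit 0xcad8e10aa45e207)) e
 (c z e
 (c z e
 (c (a (nat_lit 0x19c707e2a04020c4)) e e)))))))))))))))))))
 (c z
 (c (a (nat_lit 0x2020330b08a0e7))
 (c z e
 (c z e
 (c z e
 (c z e
 (c z e
 (c z e
 (c z e
 (c z e
 (c (a (nat_lit 0xc69c6ab58ad492c27)) e e)))))))))
 (c (a (nat_lit 0x20316d08c101c8)) e e))
 (c z e
 (c z e
 (c z e
 (c z e
 (c z e
 (c (a (nat_lit 0x202020203828))
 (c z e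
 (c z e
 (c z e
 (c (b (nat_lit 0x58ac43ffabce3e6)) e e))))
 (c (a (nat_lit 0x2020203848a7)) e
 (c (a (nat_lit 0x20203acc22e7)) e
 (c (a (nat_lit 0x1819f4944c5e7)) e e)))))))))))
 (c (nat_lit 1)
 (c z
 (c (a (nat_lit 0x34518cc6a1a6))
 (c z e
 (c z e
 (c z e
 (c z e
 (c z e
 (c z e
 (c z e
 (c z e
 (c z e
 (c (a (nat_lit 0x2a284a522e3633fc9)) e e)))))))))) e)
 (c z e
 (c z e
 (c z e
 (c z e
 (c (a (nat_lit 0x202020203729)) e
 (c (a (nat_lit 0x20202039a4a9)) e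
 (c (a (nat_lit 0x20203f09c268)) e
 (c (a (nat_lit 0x2021f6d04c6a8)) e e)))))))))
 (c (a (nat_lit 0x4040404041))
 (c z e
 (c z e
 (c z
 (c z e
 (c z e
 (c z e
 (c z e
 (c z e
 (c z e
 (c (a (nat_lit 0x131072e68206c468)) e e)))))))
 (c (a (nat_lit 0x202020203689)) e
 (c (a (nat_lit 0x2020203747a9)) e
 (c (a (nat_lit 0x20203bc7a549)) e
 (c (a (nat_lit 0x203ecb82a408)) e e)))))))
 (c (a (nat_lit 0x8080808081))
 (c z
 (c z e
 (c z e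
 (c z e
 (c z e
 (c z e
 (c z e
 (c z e
 (c (b (nat_lit 0x250889fe0652f87)) e e))))))))
 (c (a (nat_lit 0x202020203829)) e
 (c (a (nat_lit 0x202020384749)) e
 (c (a (nat_lit 0x20203b0cc5e9)) e
 (c (a (nat_lit 0x405dea08a7a9)) e e)))))
 (c (a (nat_lit 0x6060606061))
 (c (a (nat_lit 0x202020358768)) e
 (c (a (nat_lit 0x20203b8e4849)) e
 (c (a (nat_lit 0xe0fcaee88809)) e e)))
 (c (a (nat_lit 0x6060606061))
 (c (a (nat_lit 0x1415d72490808)) e e)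
 (c (a (nat_lit 0x4040202021)) e
 (c (nat_lit 1) e
 (c (nat_lit 1) e
 (c (a (nat_lit 0xc0e1010101)) e
 (c (a (nat_lit 0x4040202021)) e
 (c (a (nat_lit 0xe1212120a1)) e
 (c (a (nat_lit 0x2020202021)) e
 (c (a (nat_lit 0x4040402021)) e
 (c (a (nat_lit 0x4060404041))
 (c z e
 (c z e
 (c (a (nat_lit 0x15541454200009)) e
 (c (a (nat_lit 0x292a000000002)) e e))))
 (c (a (nat_lit 0x2020203ca7))
 (c (a (nat_lit 0x12d2b2b3b92009)) e
 (c (a (nat_lit 0x1e806040000004)) e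
 (c (a (nat_lit 0x1800000000001)) e e)))
 (c (a (nat_lit 0x202031e448)) e
 (c (a (nat_lit 0x11e42328)) e e))))))))))))))))))
 (c (a (nat_lit 0xa0a0a0a1))
 (c (a (nat_lit 0x2020202021))
 (c z
 (c (a (nat_lit 0x1ab383070670504))
 (c z e
 (c z e
 (c z e
 (c z e
 (c z e
 (c z e
 (c z e
 (c z e
 (c (a (nat_lit 0x18262e5436342f8a7)) e
 (c (a (nat_lit 0x24346c2a3431da547)) e e))))))))))
 (c z e
 (c z e
 (c z e
 (c z e
 (c z e
 (c z e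
 (c z e
 (c z e
 (c z e
 (c (a (nat_lit 0x1877b30d284365c5)) e
 (c z e
 (c (a (nat_lit 0x15f819b0c8474626)) e e)))))))))))))
 (c z e
 (c z e
 (c z e
 (c (a (nat_lit 0x202020203568)) e
 (c (a (nat_lit 0x202020398988)) e
 (c (a (nat_lit 0x2020304200e9)) e
 (c (a (nat_lit 0x203b8be32827)) e e))))))))
 (c (a (nat_lit 0x2020200001))
 (c z e
 (c z e
 (c (a (nat_lit 0x202020203409))
 (c z e
 (c z e
 (c z e
 (c z e
 (c z e
 (c z e
 (c (a (nat_lit 0x10f4074cea42a908)) e e)))))))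
 (c (a (nat_lit 0x20202035e8e9)) e
 (c (a (nat_lit 0x20203cac25a9)) e
 (c (a (nat_lit 0x203a642305e9)) e e))))))
 (c (a (nat_lit 0x4040404041))
 (c (a (nat_lit 0x202020203488)) e
 (c (a (nat_lit 0x20202036a8a9)) e
 (c (a (nat_lit 0x20203d2dc7a9)) e
 (c (a (nat_lit 0x2021e324bc9e9)) e e))))
 (c (a (nat_lit 0xa0a0a0a0a1))
 (c (a (nat_lit 0x20203a6e0b88))
 (c z e
 (c z e
 (c z e
 (c z e
 (c z e
 (c (a (nat_lit 0xca62a4e65b77348)) e e))))))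
 (c (a (nat_lit 0x20390de80809)) e e))
 (c (nat_lit 1) e
 (c (a (nat_lit 0x2020202021)) e
 (c (a (nat_lit 0xa0c0c0c0c1)) e
 (c (a (nat_lit 0x2040404041)) e
 (c (a (nat_lit 0x2020202021)) e
 (c (nat_lit 1) e
 (c (a (nat_lit 0x2060608021)) e
 (c (a (nat_lit 0x200001)) e
 (c (a (nat_lit 0x20004001)) e
 (c (a (nat_lit 0x20202036a7)) e
 (c (a (nat_lit 0x2020152067))
 (c (a (nat_lit 0x1a9a1c39e00009)) e
 (c (a (nat_lit 0x1c000000001)) e e))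
 (c (a (nat_lit 0x203c074627)) e e))))))))))))))))
 (c (a (nat_lit 0x20202021)) C624
 C623)))) Tr.c Tr.e (nat_lit 0) C.cx C.cy
noncomputable def C626 : Tr := beta% (fun (c : Nat → Tr → Tr → Tr) (e : Tr) (z : Nat) (a : Nat → Nat) =>
 (c (a (nat_lit 0x10101010101))
 (c z
 (c (a (nat_lit 0x20202020203566))
 (c z e
 (c z e
 (c z e
 (c z e
 (c z e
 (c z e
 (c z e
 (c z e
 (c z e
 (c z e
 (c (a (nat_lit 0x1090d8b18f71721726)) e
 (c (a (nat_lit 0x92e4a0963c6e7bee7)) e e))))))))))))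
 (c (a (nat_lit 0x17eae8))
 (c z e
 (c z e
 (c z e
 (c z e
 (c z e
 (c z e
 (c z e
 (c z e
 (c z e
 (c (a (nat_lit 0x100fcced2b0f4a6d08)) e e))))))))))
 (c (a (nat_lit 0x2020203aae69e8)) e
 (c (a (nat_lit 0x20203029260169)) e
 (c (a (nat_lit 0x314b87e30109)) e
 (c z e
 (c z e
 (c z e
 (c z e
 (c z e
 (c z e
 (c z e
 (c z e
 (c z e
 (c z e
 (c z e
 (c (a (nat_lit 0xb8ab857e48ac3c6)) e e)))))))))))))))))
 (c z
 (c (a (nat_lit 0x202020304725a9))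
 (c z e
 (c z e
 (c z e
 (c z e
 (c z e
 (c z e
 (c z e
 (c z e
 (c (a (nat_lit 0x1493aace2cf728ac27)) e e)))))))))
 (c (a (nat_lit 0x20203f2eca8349)) e
 (c (a (nat_lit 0x2031caa7a3218a)) e e)))
 (c z
 (c (a (nat_lit 0x2a2bf320d45a3a8)) e e)
 (c z e
 (c z e
 (c z e
 (c z e
 (c z e
 (c (a (nat_lit 0x202020203649)) e
 (c (a (nat_lit 0x202020350749)) e
 (c (a (nat_lit 0x20203686e449)) e
 (c (a (nat_lit 0x20368683e209)) e e))))))))))))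
 (c (nat_lit 1)
 (c z
 (c (a (nat_lit 0x20203889862727)) e
 (c (a (nat_lit 0x3dad28078828))
 (c z e
 (c z e
 (c z e
 (c z e
 (c z e
 (c z e
 (c z e
 (c (a (nat_lit 0xef1b3963125ca2a88)) e e)))))))) e))
 (c z e
 (c z e
 (c z e
 (c z e
 (c z e
 (c (a (nat_lit 0x202020203709)) e
 (c (a (nat_lit 0x202020338509)) e
 (c (a (nat_lit 0x202032862109)) e
 (c (a (nat_lit 0xc0d4c4c20489)) e e))))))))))
 (c (a (nat_lit 0x6060606061))
 (c z e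
 (c z e
 (c z e
 (c z e
 (c (a (nat_lit 0x202020203329)) e
 (c (a (nat_lit 0x202020340509)) e
 (c (a (nat_lit 0x2020324621a9)) e
 (c (a (nat_lit 0x10110e6614289)) e e))))))))
 (c (a (nat_lit 0x6060606061))
 (c z
 (c z e
 (c z e
 (c z e
 (c z e
 (c z e
 (c z e
 (c z e
 (c z e
 (c z e
 (c (a (nat_lit 0x16f00ff5de2b2fe7)) e e))))))))))
 (c z e
 (c (a (nat_lit 0x202020203289)) e
 (c (a (nat_lit 0x203327e9)) e
 (c (a (nat_lit 0x20203bc8a3c9)) e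
 (c (a (nat_lit 0x8093c8c1e229)) e e))))))
 (c (a (nat_lit 0x8080808081))
 (c (a (nat_lit 0x2020202033c8))
 (c z e
 (c z e
 (c z e
 (c z e
 (c z e
 (c z e
 (c z e
 (c z e
 (c z e
 (c z e
 (c z e
 (c z e
 (c (a (nat_lit 0x745b6a140000006)) e e)))))))))))))
 (c (a (nat_lit 0x20202034c809)) e
 (c (a (nat_lit 0x20203daf24e9)) e
 (c (a (nat_lit 0x10110c6c4646a)) e e))))
 (c (a (nat_lit 0x6060606061))
 (c (a (nat_lit 0x2020308a8589))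
 (c z e
 (c z e
 (c z e
 (c z e
 (c z e
 (c (a (nat_lit 0xce5a7d2f255d008)) e e))))))
 (c (a (nat_lit 0x203ed3690729)) e e))
 (c (a (nat_lit 0x6060606041)) e
 (c (a (nat_lit 0x8080808081)) e
 (c (a (nat_lit 0x8080808081)) e
 (c (a (nat_lit 0x1c1c1c1e1e1)) e
 (c (a (nat_lit 0xa0a0a0c0c1)) e
 (c (a (nat_lit 0x121614140e1)) e
 (c (a (nat_lit 0x2001)) e
 (c (a (nat_lit 0x6060606061))
 (c z e
 (c z e
 (c z e
 (c z e
 (c (a (nat_lit 0x10d13c71200008)) e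
 (c (a (nat_lit 0x10204000000004)) e e))))))
 (c (a (nat_lit 0x6080808081))
 (c z e
 (c z e
 (c (a (nat_lit 0xb8b8acc350009)) e
 (c (a (nat_lit 0x19004040000004)) e e))))
 (c (a (nat_lit 0x4040404041))
 (c (a (nat_lit 0x135373d37651e9)) e
 (c (a (nat_lit 0x1f204040200004)) e
 (c (a (nat_lit 0x604000000001)) e e)))
 (c (a (nat_lit 0x2020203188)) e
 (c (a (nat_lit 0x20203184e8)) e
 (c (a (nat_lit 0x2031850248)) e e)))))))))))))))))))) Tr.c Tr.e (nat_lit 0) C.cx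
noncomputable def C627 : Tr := beta% (fun (c : Nat → Tr → Tr → Tr) (e : Tr) (z : Nat) (a : Nat → Nat) =>
 (c z
 (c z
 (c (a (nat_lit 0x1212120a274c4e7583)) e
 (c (a (nat_lit 0x8e8e8660a266d51c5)) e
 (c z e
 (c z e
 (c z e
 (c z e
 (c z e
 (c z e
 (c z e
 (c z e
 (c z e
 (c z e
 (c z e
 (c z e
 (c (a (nat_lit 0x11104f33100fad39c5)) e e)))))))))))))))
 (c z
 (c z e
 (c z e
 (c z e
 (c z e
 (c z e
 (c z e
 (c z e
 (c z e
 (c z e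
 (c z e
 (c z e
 (c (a (nat_lit 0xf4f76b70f2881e806)) e
 (c (a (nat_lit 0x15b5d7355170826a27)) e e)))))))))))))
 (c z
 (c z e
 (c z e
 (c z e
 (c z e
 (c z e
 (c z e
 (c z e
 (c z e
 (c z e
 (c (a (nat_lit 0x10674786456585e6c7)) e e))))))))))
 (c (a (nat_lit 0x20202020203446))
 (c z e
 (c z e
 (c z e
 (c z e
 (c z e
 (c z e
 (c z e
 (c z e
 (c (a (nat_lit 0x1457314e8db02df1a6)) e
 (c (a (nat_lit 0x1831ee2c6bc8e69426)) e e))))))))))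
 (c (a (nat_lit 0x2020202032a5c6))
 (c z e
 (c z e
 (c z e
 (c z e
 (c z e
 (c z e
 (c (a (nat_lit 0x1f36c52da51a503505)) e
 (c (a (nat_lit 0xe05076433aaac24e6)) e e))))))))
 (c (a (nat_lit 0x20202034ca43e7))
 (c z e
 (c z e
 (c z e
 (c z e
 (c z e
 (c (a (nat_lit 0x1c0c2c67b20e717526)) e
 (c (a (nat_lit 0x9056209c82eb0e366)) e e)))))))
 (c (a (nat_lit 0x2020374ecc25e7)) e
 (c (a (nat_lit 0x2031aaa7e46167))
 (c z e
 (c z e
 (c z e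
 (c (a (nat_lit 0x12ed8f5068ba5fff47)) e e)))) e))))))))
 (c z
 (c z
 (c z e
 (c z e
 (c z e
 (c z e
 (c z e
 (c z e
 (c z e
 (c z e
 (c z e
 (c z e
 (c z e
 (c (a (nat_lit 0x92c714c4b02082907)) e e))))))))))))
 (c (a (nat_lit 0x20202020203be8)) e
 (c (a (nat_lit 0x202020203a2ba8))
 (c z e
 (c z e
 (c z e
 (c z e
 (c z e
 (c z e
 (c z e
 (c z e
 (c (a (nat_lit 0x10cd6a69a5c686aae8)) e e)))))))))
 (c (a (nat_lit 0x2020203008e549)) e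
 (c (a (nat_lit 0x202034ab46c2a9)) e
 (c (a (nat_lit 0x20342deb048109)) e
 (c z e
 (c z e
 (c z e
 (c z e
 (c z e
 (c z e
 (c z e
 (c z e
 (c z e
 (c z e
 (c (a (nat_lit 0x196ff15db144c166)) e e)))))))))))))))))
 (c z
 (c (a (nat_lit 0x202020203ca847))
 (c z e
 (c z e
 (c z e
 (c z e
 (c z e
 (c z e
 (c z e
 (c z e
 (c z e
 (c (a (nat_lit 0x130d8e2d4cccc94ae7)) e
 (c (a (nat_lit 0x13b3b48b2a5348eb67)) e e)))))))))))
 (c (a (nat_lit 0x2020203b69e608))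
 (c z e
 (c z e
 (c z e
 (c z e
 (c z e
 (c z e
 (c z e
 (c (a (nat_lit 0xbac4cef10acabc468)) e e))))))))
 (c (a (nat_lit 0x20203088848329)) e
 (c (a (nat_lit 0x20336a658424e9)) e e))))
 (c z
 (c (a (nat_lit 0x20203909a6a2a7)) e
 (c (a (nat_lit 0x203bcf682380a8))
 (c z e
 (c z e
 (c z e
 (c z e
 (c z e
 (c z e
 (c (a (nat_lit 0xb68b1b3f52a8c4ee8)) e e))))))) e))
 (c z e
 (c z
 (c z e
 (c z e
 (c z e
 (c z e
 (c z e
 (c z e
 (c z e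
 (c z e
 (c z e
 (c z e
 (c z e
 (c z e
 (c (a (nat_lit 0x1cc1014302028985)) e
 (c z e
 (c (a (nat_lit 0x242ab32a00003)) e e)))))))))))))))
 (c z e
 (c z e
 (c z e
 (c z e
 (c (a (nat_lit 0x202020203ee7)) e
 (c (a (nat_lit 0x2020310368))
 (c (a (nat_lit 0x2e2a44a64100e66)) e e)
 (c (a (nat_lit 0x202031030128)) e
 (c (a (nat_lit 0x3a3be6a666587)) e e))))))))))))))) Tr.c Tr.e (nat_lit 0) C.cx
noncomputable def C628 : Tr := beta% (fun (c : Nat → Tr → Tr → Tr) (e : Tr) (z : Nat) (a : Nat → Nat) =>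
 (c (nat_lit 1)
 (c z
 (c (a (nat_lit 0x10ca8b0c114ae965))
 (c (a (nat_lit 0x5274343a5e69e03e6)) e
 (c z e
 (c z e
 (c z e
 (c z e
 (c (a (nat_lit 0x3946f88c68703a2e8)) e
 (c (a (nat_lit 0x1dfaad48cd20e00007)) e e)))))))
 (c (a (nat_lit 0x442208461805027)) e
 (c z e
 (c z e
 (c z e
 (c z e
 (c (a (nat_lit 0x71650260a10027)) e
 (c z e
 (c (a (nat_lit 0x17d574536e62eb06)) e
 (c z e
 (c z e
 (c (a (nat_lit 0x3a364096a065068)) e e))))))))))))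
 (c (a (nat_lit 0x202020203d67))
 (c z e
 (c z e
 (c z e
 (c z e
 (c z e
 (c z e
 (c z e
 (c z e
 (c z e
 (c z e
 (c z e
 (c (a (nat_lit 0x1fc82e0940000006)) e e))))))))))))
 (c (a (nat_lit 0x2020203fd047)) e
 (c (a (nat_lit 0x20203944a268)) e
 (c (a (nat_lit 0x1c1dc71a60547)) e
 (c z e
 (c (a (nat_lit 0x1187c605850487))
 (c (a (nat_lit 0x1e562c1c1af1569)) e e)
 (c z e
 (c z e
 (c z e
 (c z e
 (c (a (nat_lit 0xfb535d835efc7)) e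
 (c (a (nat_lit 0xe5b318c52ae4)) e
 (c (a (nat_lit 0x285e722843946)) e
 (c z e
 (c z e
 (c z e
 (c (a (nat_lit 0x73d0640e04066)) e
 (c (a (nat_lit 0x1ca5e080200006)) e e)))))))))))))))))))
 (c (a (nat_lit 0x6060606061))
 (c (a (nat_lit 0x2020203eb146))
 (c z e
 (c z e
 (c z e
 (c z e
 (c z e
 (c z e
 (c z e
 (c z e
 (c z e
 (c z e
 (c z e
 (c (a (nat_lit 0x12ab002000000006)) e e))))))))))))
 (c (a (nat_lit 0x20203b93c2e8)) e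
 (c (a (nat_lit 0x203c8c04e608)) e
 (c z e
 (c z e
 (c z e
 (c z e
 (c z e
 (c z e
 (c z e
 (c (a (nat_lit 0x14300fec68e0c7)) e
 (c (a (nat_lit 0x3a3802121bc06)) e e))))))))))))
 (c (a (nat_lit 0x6060606061))
 (c (a (nat_lit 0x203df523a567)) e e)
 (c (a (nat_lit 0x20000001))
 (c (a (nat_lit 0x10c58686e1c268))
 (c z e
 (c (a (nat_lit 0x4e7c2e20283f748)) e
 (c z e
 (c z e
 (c z e
 (c z e
 (c (a (nat_lit 0x11cd81c4ee000007)) e e)))))))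
 (c (a (nat_lit 0x1dbffc02c46886))
 (c (a (nat_lit 0x7846181426c10e8)) e
 (c z e
 (c z e
 (c z e
 (c (a (nat_lit 0x92e8f1af8aa6008)) e
 (c (a (nat_lit 0x146f32a800000008)) e e))))))
 (c z e
 (c z e
 (c z e
 (c (a (nat_lit 0x13727269c44166)) e
 (c (a (nat_lit 0x1615f10e2724e7)) e
 (c z e
 (c z e
 (c z e
 (c z e
 (c (a (nat_lit 0xc598d8ecc4906)) e e))))))))))))
 (c (a (nat_lit 0x10101010101))
 (c (a (nat_lit 0x172cc100eeeb85))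
 (c (a (nat_lit 0x581206123f8adc7)) e
 (c z e
 (c z e
 (c z e
 (c (a (nat_lit 0x412acca23400008)) e
 (c (a (nat_lit 0x19ce278000000007)) e e))))))
 (c z e
 (c z e
 (c z e
 (c (a (nat_lit 0x109294aa61c9e6)) e
 (c (a (nat_lit 0x13d4d1a945cb47)) e
 (c z e
 (c z e
 (c z e
 (c (a (nat_lit 0x57462e361e246)) e
 (c (a (nat_lit 0x12a101a04081c6)) e e)))))))))))
 (c (a (nat_lit 0x8080808081))
 (c z e
 (c z e
 (c z e
 (c z e
 (c z e
 (c z e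
 (c z e
 (c (a (nat_lit 0x2136081e02006)) e
 (c (a (nat_lit 0x13a0a220202006)) e e)))))))))
 (c (a (nat_lit 0x18181a1a1a1))
 (c (a (nat_lit 0xef75303628b04))
 (c (a (nat_lit 0x775520a02400007)) e e)
 (c z e
 (c z e
 (c z e
 (c z e
 (c (a (nat_lit 0x189b231f31687)) e
 (c (a (nat_lit 0x1b69490b6a48e6)) e e)))))))
 (c (a (nat_lit 0xc1010100c1))
 (c z e
 (c z e
 (c z e
 (c z e
 (c z e
 (c z e
 (c z e
 (c z e
 (c (a (nat_lit 0x130dcaa0000005)) e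
 (c (a (nat_lit 0x18a00000000002)) e e))))))))))
 (c (nat_lit 1)
 (c z e
 (c (a (nat_lit 0x39a959390f806)) e
 (c z e
 (c z e
 (c z e
 (c z e
 (c (a (nat_lit 0xf657e5800003)) e
 (c (a (nat_lit 0x1349c000000004)) e e))))))))
 (c (a (nat_lit 0x6060606061))
 (c (a (nat_lit 0x3ac4cac6d31a6)) e
 (c z e
 (c z e
 (c z e
 (c (a (nat_lit 0xe4d4e1d294006)) e
 (c (a (nat_lit 0x10204020000004)) e
 (c (a (nat_lit 0x200000000001)) e e)))))))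
 (c (a (nat_lit 0x2040406061))
 (c z e
 (c z e
 (c (a (nat_lit 0x1edf7f5bdfdb67)) e
 (c (a (nat_lit 0x1f4041c0200004)) e
 (c (a (nat_lit 0x17b1e000000001)) e e)))))
 (c (a (nat_lit 0x8080808081))
 (c (a (nat_lit 0x13133333325128)) e
 (c (a (nat_lit 0x10802020202005)) e
 (c (a (nat_lit 0x2040000001)) e
 (c (nat_lit 1) e e))))
 (c (a (nat_lit 0xe0e0e0c0c1)) e
 (c (a (nat_lit 0x2020203965)) e
 (c (a (nat_lit 0x2020399085)) e
 (c (a (nat_lit 0x405990bca5)) e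
 (c (a (nat_lit 0x19305c4145)) e
 (c (a (nat_lit 0x16adf9e02005)) e
 (c (a (nat_lit 0xebaa0402a65)) e
 (c (a (nat_lit 0x1b40608b0005)) e
 (c z e
 (c z e
 (c z e
 (c (a (nat_lit 0x40633230305)) e
 (c (a (nat_lit 0x33020200005)) e e)))))))))))))))))))))))))) Tr.c Tr.e (nat_lit 0) C.cx
noncomputable def C629 : Tr := beta% (fun (c : Nat → Tr → Tr → Tr) (e : Tr) (z : Nat) (a b : Nat → Nat) =>
 (c (nat_lit 1)
 (c z
 (c (a (nat_lit 0x19ab66aa8606e5))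
 (c z e
 (c (a (nat_lit 0x42b6e2a4ee92e7707)) e
 (c z e
 (c z e
 (c z e
 (c z e
 (c (a (nat_lit 0x7c7e98aa8c85045e7)) e
 (c z e
 (c z e
 (c z e
 (c z e
 (c (a (nat_lit 0x9c851ebe9c6400008)) e e))))))))))))
 (c (a (nat_lit 0x164c6947c46382a7))
 (c (a (nat_lit 0x3c8c56969a9f12d68)) e
 (c z e
 (c z e
 (c z e
 (c (a (nat_lit 0x3a98808898e908a69)) e
 (c (a (nat_lit 0x7aa72888cd78991e7)) e
 (c z e
 (c z e
 (c z e
 (c z e
 (c (a (nat_lit 0x894ada4e6a0000009)) e e)))))))))))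
 (c z e
 (c z e
 (c z e
 (c (a (nat_lit 0xe137354c785f486))
 (c z e
 (c (a (nat_lit 0xb5327e78c6cae47a9)) e e))
 (c (a (nat_lit 0xd57974a03bb1945))
 (c (a (nat_lit 0x10c1a968100aa6e347)) e e)
 (c z e
 (c z e
 (c z e
 (c z e
 (c (a (nat_lit 0x173979fb0f8d2cc7)) e
 (c z e
 (c z e
 (c z e
 (c z e
 (c (a (nat_lit 0x10ef704b41200005)) e e)))))))))))))))))
 (c z
 (c (a (nat_lit 0xf4a124a0883c126))
 (c (a (nat_lit 0xce6a752f41792efa7))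
 (c z e
 (c z e
 (c (a (nat_lit 0x280e20362a904c8d069)) e e)))
 (c z e
 (c z e
 (c z e
 (c (a (nat_lit 0xac7276bcb4fd04809)) e
 (c (a (nat_lit 0x8eca867ee4e76a708)) e
 (c z e
 (c z e
 (c z e
 (c (a (nat_lit 0x14479126dacbc00007)) e
 (c (a (nat_lit 0x120842248000000009)) e e)))))))))))
 (c z e
 (c z e
 (c z e
 (c (a (nat_lit 0xdac0be38449d007))
 (c z e
 (c (b (nat_lit 0xb911fe60b8989a509)) e e))
 (c (a (nat_lit 0x15160ce308fa4d66))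
 (c (a (nat_lit 0x1151c65d2aafca6c87)) e e)
 (c z e
 (c z e
 (c z e
 (c (a (nat_lit 0x11ff1ab168ea8a27)) e
 (c (a (nat_lit 0x128fd14cc927e908)) e
 (c z e
 (c z e
 (c z e
 (c (a (nat_lit 0xdf47299e948a006)) e
 (c (a (nat_lit 0xc2a91e0c0000006)) e e))))))))))))))))
 (c z e
 (c z e
 (c z e
 (c (a (nat_lit 0x202020203c47))
 (c z e
 (c (a (nat_lit 0x686846183ef7228))
 (c (a (nat_lit 0x114a12ae83c0000008)) e e)
 (c z e
 (c z e
 (c z e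
 (c z e
 (c (a (nat_lit 0x14965933f80d9c68)) e e)))))))
 (c (a (nat_lit 0x20202031c6e7))
 (c (a (nat_lit 0x3a520c2e2a912e7)) e
 (c z e
 (c z e
 (c z e
 (c (a (nat_lit 0x78a70ac47efc548)) e
 (c (a (nat_lit 0x10183071755fd548)) e e))))))
 (c (a (nat_lit 0x2020388d61e7)) e
 (c (a (nat_lit 0x1819cc5840467)) e
 (c z e
 (c (a (nat_lit 0x10452464868b27))
 (c z e
 (c (a (nat_lit 0xb962964e6a00009)) e e))
 (c (a (nat_lit 0x464a6c8cdb0a7))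
 (c (a (nat_lit 0x14eb2603e0000009)) e e)
 (c z e
 (c z e
 (c z e
 (c (a (nat_lit 0x15b65755230fc5)) e
 (c (a (nat_lit 0x13143220ccbac5)) e
 (c z e
 (c z e
 (c z e
 (c z e
 (c (a (nat_lit 0xa3061a0200007)) e e))))))))))))))))))))))
 (c (a (nat_lit 0x4040404041))
 (c z
 (c (a (nat_lit 0xeb4aded8785a1a5))
 (c z e
 (c z e
 (c z e
 (c z e
 (c (a (nat_lit 0x605ec0bf469c823a8)) e
 (c (a (nat_lit 0xaeca60ce9fd2c6627)) e
 (c (a (nat_lit 0x13e2e2ce9f166f4426)) e e)))))))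
 (c z e
 (c z e
 (c z e
 (c (a (nat_lit 0xacb62e0c5966906))
 (c (a (nat_lit 0x150845026c2ee66628)) e
 (c (a (nat_lit 0xf524729eaec2685a8)) e e))
 (c (b (nat_lit 0xaa7e0c258069fe6))
 (c (a (nat_lit 0x116444e70204048148)) e e)
 (c z e
 (c z e
 (c (b (nat_lit 0x3102abfe5640527)) e
 (c (a (nat_lit 0x140d4a29e7c9a0e7)) e
 (c (a (nat_lit 0xf70136e6fb0eca7)) e
 (c z e
 (c z e
 (c (a (nat_lit 0xa568e3a25e84565)) e
 (c (a (nat_lit 0x138af70302c00005)) e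
 (c (a (nat_lit 0x87480a000000005)) e e))))))))))))))))
 (c z
 (c z e
 (c z e
 (c z e
 (c z e
 (c z e
 (c z e
 (c z e
 (c z e
 (c z e
 (c z e
 (c z e
 (c z e
 (c (a (nat_lit 0xd59d613c0540006)) e
 (c (a (nat_lit 0x16e7c14080000004)) e e))))))))))))))
 (c z e
 (c (a (nat_lit 0x202020203a27))
 (c z e
 (c z e
 (c z e
 (c z e
 (c (a (nat_lit 0x188436ab2526d947)) e e)))))
 (c (a (nat_lit 0x2020203bc487))
 (c (a (nat_lit 0x32343c2c4d40888))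
 (c z e
 (c (a (nat_lit 0x13aeace7c260000008)) e e))
 (c (a (nat_lit 0x364806130c7a588))
 (c (a (nat_lit 0x19935365c000000007)) e e)
 (c z e
 (c z e
 (c z e
 (c (a (nat_lit 0x188ecf50a9516468)) e
 (c (a (nat_lit 0x6ec110c2c91e588)) e e)))))))
 (c (a (nat_lit 0x2020368c2307))
 (c (a (nat_lit 0x1161a59d749ed865)) e
 (c z e
 (c z e
 (c z e
 (c (a (nat_lit 0x54ceaa68c2bd2e8)) e
 (c (a (nat_lit 0x8c6a3c411298569)) e e))))))
 (c (a (nat_lit 0x2a2b890c5e627)) e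
 (c z e
 (c z e
 (c (a (nat_lit 0x525c4c77054c6))
 (c z e
 (c (a (nat_lit 0x1e2ec5a7c0000008)) e e))
 (c (a (nat_lit 0x5a728af5170a7))
 (c (a (nat_lit 0x1de96aa000000007)) e e)
 (c z e
 (c z e
 (c (a (nat_lit 0x106ef0d4682726)) e
 (c (a (nat_lit 0x7e9cc81607026)) e
 (c (a (nat_lit 0xa4d21e150ace6)) e
 (c z e
 (c z e
 (c z e
 (c (a (nat_lit 0x151160e0808006)) e
 (c (a (nat_lit 0x1120a020000006)) e e)))))))))))))))))))))
 C628))) Tr.c Tr.e (nat_lit 0) C.cx C.cy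
noncomputable def C630 : Tr := beta% (fun (c : Nat → Tr → Tr → Tr) (e : Tr) (z : Nat) (a : Nat → Nat) =>
 (c (a (nat_lit 0x8080808081))
 (c z
 (c z
 (c z e
 (c z e
 (c z e
 (c z e
 (c z e
 (c z e
 (c z e
 (c z e
 (c z e
 (c z e
 (c z e
 (c (a (nat_lit 0xdb173efed69ec2fa5)) e
 (c z e
 (c z e
 (c z e
 (c (a (nat_lit 0x16223a4c50485d989)) e e))))))))))))))))
 (c (a (nat_lit 0x1b86))
 (c z e
 (c z e
 (c z e
 (c z e
 (c z e
 (c z e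
 (c z e
 (c z e
 (c z e
 (c (a (nat_lit 0x17ddb7788bd37c7686)) e e))))))))))
 (c (a (nat_lit 0x202020203007e7))
 (c z e
 (c z e
 (c z e
 (c z e
 (c z e
 (c z e
 (c z e
 (c z e
 (c (a (nat_lit 0xe50c6c94a71e90b67)) e e)))))))))
 (c (a (nat_lit 0x202020362b6687))
 (c z e
 (c z e
 (c z e
 (c z e
 (c z e
 (c z e
 (c z e
 (c (a (nat_lit 0x78564885c4da9e807)) e
 (c z e
 (c z e
 (c z e
 (c (a (nat_lit 0xdcd4b295ef44ea009)) e e))))))))))))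
 (c (a (nat_lit 0x203b2f094807))
 (c z e
 (c z e
 (c z e
 (c z e
 (c z e
 (c (a (nat_lit 0xf6cc896c550cb72c6)) e
 (c (a (nat_lit 0x13d218bc33fdb21246)) e e)))))))
 (c (a (nat_lit 0x203dd4a9080267)) e
 (c z e
 (c z e
 (c z e
 (c z e
 (c z e
 (c z e
 (c z e
 (c z e
 (c z e
 (c z e
 (c (a (nat_lit 0x1b14f2d70e66eca5)) e e)))))))))))))))))
 (c z
 (c (a (nat_lit 0x20202020368387))
 (c z e
 (c z e
 (c z e
 (c z e
 (c z e
 (c z e
 (c z e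
 (c z e
 (c (a (nat_lit 0xe11712d672e588f86)) e
 (c (a (nat_lit 0xf8f2cc7c970cce987)) e e))))))))))
 (c (a (nat_lit 0x20202038482328)) e
 (c (a (nat_lit 0x20203dccc8a648))
 (c z e
 (c z e
 (c z e
 (c z e
 (c z e
 (c z e
 (c (a (nat_lit 0x12542f1f34a7ccd307)) e e)))))))
 (c (a (nat_lit 0x203d8f6a08e428)) e e))))
 (c z
 (c (a (nat_lit 0x2020380a440527)) e
 (c (a (nat_lit 0x3c3fd116bea28c8)) e e))
 (c z e
 (c z e
 (c z e
 (c z e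
 (c z e
 (c z e
 (c (a (nat_lit 0x20202011a8)) e
 (c (a (nat_lit 0x202020332348)) e
 (c (a (nat_lit 0x202030a2e108)) e
 (c (a (nat_lit 0x2223e48a4a707)) e e)))))))))))))
 (c (nat_lit 1)
 (c z
 (c (a (nat_lit 0x20202037074306)) e
 (c (a (nat_lit 0x20203d4a040767))
 (c z e
 (c z e
 (c z e
 (c z e
 (c z e
 (c z e
 (c z e
 (c (a (nat_lit 0x15aa30ee084b474927)) e e))))))))
 (c (a (nat_lit 0x203d516c4aa5a7))
 (c z e
 (c z e
 (c z e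
 (c z e
 (c z e
 (c z e
 (c (a (nat_lit 0x8252b63a9e6291488)) e e)))))))
 (c z e
 (c z e
 (c z e
 (c z e
 (c z e
 (c z e
 (c z e
 (c z e
 (c z e
 (c z e
 (c z e
 (c z e
 (c (a (nat_lit 0x10d726a905c88504)) e e))))))))))))))))
 (c z
 (c (a (nat_lit 0x2038298446e787)) e e)
 (c z e
 (c z e
 (c z e
 (c z e
 (c z e
 (c (a (nat_lit 0x202020203b67)) e
 (c (a (nat_lit 0x2020203083c8)) e
 (c (a (nat_lit 0x20203202a168)) e
 (c (a (nat_lit 0x14150a3622408)) e e)))))))))))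
 C629))) Tr.c Tr.e (nat_lit 0) C.cx
noncomputable def C631 : Tr := beta% (fun (c : Nat → Tr → Tr → Tr) (e : Tr) (z : Nat) (a : Nat → Nat) =>
 (c z
 (c z
 (c (a (nat_lit 0x18f9191913853a5263)) e
 (c (a (nat_lit 0x444445e867042cc25)) e
 (c (a (nat_lit 0x1e1ede1e442b33246))
 (c z e
 (c z e
 (c z e
 (c z e
 (c z e
 (c z e
 (c (a (nat_lit 0xa0e0e82586c4123c68)) e
 (c z e
 (c z e
 (c z e
 (c (a (nat_lit 0x4852529048761cc16a8)) e
 (c (a (nat_lit 0xbcc512e692691db79a8)) e e))))))))))))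
 (c z e
 (c z e
 (c z e
 (c z e
 (c z e
 (c z e
 (c z e
 (c z e
 (c z e
 (c (a (nat_lit 0xfd7b8b9db31674a45)) e
 (c (a (nat_lit 0x105192b36e6d2a6b06)) e e))))))))))))))
 (c z
 (c (a (nat_lit 0x2a2b6ebcd42863306))
 (c z e
 (c z e
 (c z e
 (c z e
 (c z e
 (c z e
 (c z e
 (c z e
 (c z e
 (c z e
 (c (a (nat_lit 0x1a2474584a3038675a8)) e e))))))))))) e)
 (c z
 (c z e
 (c z e
 (c z e
 (c z e
 (c z e
 (c z e
 (c z e
 (c z e
 (c z e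
 (c (a (nat_lit 0x1e1aa8e7c5e3c4c687)) e
 (c (a (nat_lit 0x1d6c306ce98a834627)) e e)))))))))))
 (c z
 (c z e
 (c z e
 (c z e
 (c z e
 (c z e
 (c z e
 (c z e
 (c z e
 (c z e
 (c z e
 (c z e
 (c (a (nat_lit 0x829ac4d2e2d143be9)) e e))))))))))))
 (c (a (nat_lit 0x20202020203107))
 (c z e
 (c z e
 (c z e
 (c z e
 (c z e
 (c z e
 (c (a (nat_lit 0x135ef9a587062b2e46)) e
 (c (a (nat_lit 0x1c75e442c4b12ccf26)) e e))))))))
 (c (a (nat_lit 0x20202020376847))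
 (c z e
 (c z e
 (c z e
 (c z e
 (c z e
 (c (a (nat_lit 0x83985a50406e6e0e7)) e
 (c (a (nat_lit 0x17a3c34226a2e48087)) e
 (c (a (nat_lit 0xe6b8c916d4f0f2107)) e e))))))))
 (c (a (nat_lit 0x202020328b8688)) e
 (c (a (nat_lit 0x20203169e48348)) e
 (c (a (nat_lit 0x2031c645c42148)) e
 (c z e
 (c z e
 (c z e
 (c z e
 (c z e
 (c z e
 (c z e
 (c z e
 (c z e
 (c z e
 (c (a (nat_lit 0x405061265e52246)) e e))))))))))))))))))))
 (c z
 (c z e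
 (c z e
 (c (a (nat_lit 0x20202020203a88)) e
 (c (a (nat_lit 0x202020203b4aa8)) e
 (c (a (nat_lit 0x20202033c984c9)) e
 (c (a (nat_lit 0x202035ed06c469)) e
 (c (a (nat_lit 0x20356c258440c9)) e e)))))))
 (c z
 (c (a (nat_lit 0x202020202030e8))
 (c z e
 (c z e
 (c z e
 (c z e
 (c z e
 (c z e
 (c z e
 (c z e
 (c z e
 (c (a (nat_lit 0x1597ae6fababd164a6)) e e))))))))))
 (c (a (nat_lit 0x202020203ae6c8)) e
 (c (a (nat_lit 0x20202030670349)) e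
 (c (a (nat_lit 0x20203448a3c449)) e
 (c (a (nat_lit 0x20338aa44502e9)) e e)))))
 (c z
 (c (a (nat_lit 0x202020368701e7)) e
 (c (a (nat_lit 0x2020394be4a368)) e
 (c (a (nat_lit 0x3cad0344e1e8))
 (c z e
 (c z e
 (c z e
 (c z e
 (c (a (nat_lit 0xbca2df4ed6a46d948)) e e))))) e)))
 (c z
 (c (a (nat_lit 0x2036ed8424a387)) e e)
 (c z
 (c z e
 (c z e
 (c z e
 (c z e
 (c z e
 (c z e
 (c z e
 (c z e
 (c z e
 (c z e
 (c z e
 (c z e
 (c (a (nat_lit 0x1ac725c0e060a027)) e e)))))))))))))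
 (c z e
 (c z
 (c z e
 (c z e
 (c z e
 (c z e
 (c z e
 (c z e
 (c (a (nat_lit 0x22528cfd5b270e7)) e e)))))))
 (c z e
 (c z e
 (c z e
 (c (a (nat_lit 0x202020203b87))
 (c (a (nat_lit 0x8030bcc32e09b05)) e e)
 (c (a (nat_lit 0x202020300368)) e
 (c (a (nat_lit 0x20203b082247)) e
 (c (a (nat_lit 0x4243008442388)) e e)))))))))))))))) Tr.c Tr.e (nat_lit 0) C.cx
noncomputable def C632 : Tr := beta% (fun (c : Nat → Tr → Tr → Tr) (e : Tr) (z : Nat) (a : Nat → Nat) =>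
 (c z
 (c (a (nat_lit 0x40404040500445))
 (c z e
 (c (a (nat_lit 0x321222882d2d84585)) e
 (c z e
 (c z e
 (c z e
 (c (a (nat_lit 0x42624e324a2926aa7)) e
 (c z e
 (c z e
 (c z e
 (c (a (nat_lit 0xc65aae621c630c3c6)) e
 (c (a (nat_lit 0xc2f4cc688ecd328a6)) e
 (c (a (nat_lit 0x52505e54a689a0b08)) e e))))))))))))
 (c (a (nat_lit 0x2020203307c5e6))
 (c (a (nat_lit 0x7a78a65c8594749e6))
 (c z e
 (c z e
 (c z e
 (c z e
 (c (a (nat_lit 0xfb0a883e622e20504c8)) e e)))))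
 (c z e
 (c z e
 (c z e
 (c (a (nat_lit 0x2a42121221267e388)) e
 (c (a (nat_lit 0x140aaaecf017f3cfe6)) e
 (c z e
 (c z e
 (c z e
 (c (a (nat_lit 0x10d0e84b8a982739e6)) e
 (c (a (nat_lit 0x263a4482575664149)) e e)))))))))))
 (c (a (nat_lit 0x202039caa30646)) e
 (c (a (nat_lit 0x20312b61e3c387)) e
 (c z e
 (c (a (nat_lit 0x1062a26442224147))
 (c z e
 (c (a (nat_lit 0x1bd7f5119152d3f587)) e
 (c z e
 (c z e
 (c z e
 (c z e
 (c (a (nat_lit 0x979270804a0000008)) e e)))))))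
 (c (a (nat_lit 0xc82446b8ad8b8e4))
 (c (a (nat_lit 0xed084214e03bab546)) e
 (c z e
 (c z e
 (c z e
 (c (a (nat_lit 0x1244b030ccca800007)) e
 (c (a (nat_lit 0x1865a524e000000008)) e e))))))
 (c z e
 (c z e
 (c z e
 (c (a (nat_lit 0x15db3d1edd92d4c5)) e
 (c (a (nat_lit 0x17d95b3ad06a4906)) e
 (c z e
 (c z e
 (c (a (nat_lit 0xb294af56220e105)) e
 (c (a (nat_lit 0x88a14c080604065)) e
 (c (a (nat_lit 0xa34e0c0a0e065e5)) e
 (c (a (nat_lit 0x1be7a768486dc465)) e e))))))))))))))))))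
 (c z
 (c (a (nat_lit 0x2c2c2d1896886c5))
 (c z e
 (c z e
 (c z e
 (c z e
 (c (a (nat_lit 0x8a442651849a2e467)) e
 (c z e
 (c z e
 (c z e
 (c z e
 (c (a (nat_lit 0xea5e7460b0746d1e6)) e
 (c (a (nat_lit 0x2e3c3425281442268)) e e)))))))))))
 (c (a (nat_lit 0xdadddb851b53a66)) e
 (c z e
 (c z e
 (c (a (nat_lit 0xdce182aed72e3e4))
 (c (a (nat_lit 0x18ad086b8590f6c027)) e
 (c (a (nat_lit 0xbab4a228e6e301427)) e
 (c z e
 (c z e
 (c z e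
 (c (a (nat_lit 0xba2222bb66ce00007)) e
 (c (a (nat_lit 0x1380e2a42000000008)) e e)))))))
 (c (a (nat_lit 0x12085a5732dd265))
 (c (a (nat_lit 0x9032263461628e907)) e
 (c z e
 (c z e
 (c z e
 (c (a (nat_lit 0x9182e6b89c0000007)) e
 (c (a (nat_lit 0x1967ecc00000000006)) e e))))))
 (c z e
 (c z e
 (c z e
 (c (a (nat_lit 0xf6f71ec0b10c986)) e
 (c (a (nat_lit 0x193bd6b433e7c106)) e
 (c z e
 (c z e
 (c (a (nat_lit 0x11bff2a8488b47e5)) e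
 (c (a (nat_lit 0x180aa020c3602045)) e
 (c (a (nat_lit 0x188384a9a2e3a584)) e e))))))))))))))))
 (c z
 (c (a (nat_lit 0x947ce4702ec084))
 (c (a (nat_lit 0x9683c4525c40423a5)) e
 (c z e
 (c z e
 (c z e
 (c z e
 (c (a (nat_lit 0x162616400e0c5db27)) e
 (c (a (nat_lit 0x12100e0c121d158e8)) e e)))))))
 (c z e
 (c z e
 (c z e
 (c z e
 (c z e
 (c (a (nat_lit 0x3a52a2c9009c5e5))
 (c (a (nat_lit 0x1197a383e320600008)) e e)
 (c z e
 (c z e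
 (c z e
 (c z e
 (c (a (nat_lit 0xa903893f3d21446)) e
 (c (a (nat_lit 0x7fa208040802025)) e
 (c (a (nat_lit 0x1a40e04080204405)) e
 (c (a (nat_lit 0x9a82a87e8176723)) e e)))))))))))))))
 (c z
 (c z e
 (c z e
 (c z e
 (c z e
 (c z e
 (c (a (nat_lit 0xce6c06160e03e45)) e
 (c z e
 (c z e
 (c z e
 (c z e
 (c z e
 (c (a (nat_lit 0x1bc040406332d645)) e e))))))))))))
 (c z e
 (c z
 (c (a (nat_lit 0x1bd2f226e8ee3685))
 (c z e
 (c (a (nat_lit 0xe57f379d17b8ed3e7)) e e))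
 (c (a (nat_lit 0xa4a8043266e5546))
 (c (a (nat_lit 0xf5859aceb654a0547)) e e)
 (c z e
 (c z e
 (c (a (nat_lit 0xa42a114df029e6)) e
 (c (a (nat_lit 0x6893411f6f114c6)) e
 (c (a (nat_lit 0x2871dd371a1e06)) e e)))))))
 (c z
 (c (a (nat_lit 0xc63c103f2fb1284))
 (c (a (nat_lit 0x12ace4052905c68246)) e e)
 (c z e
 (c z e
 (c z e
 (c (a (nat_lit 0x32b06ebaac87166)) e
 (c (a (nat_lit 0x167b1daf93835e6)) e e))))))
 (c z e
 (c z
 (c (a (nat_lit 0x1d52b521d16ee64)) e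
 (c z e
 (c z e
 (c z e
 (c z e
 (c (a (nat_lit 0xacc904f0c6af9c8)) e
 (c (a (nat_lit 0xf5eed6d4b800004)) e e)))))))
 (c (a (nat_lit 0x202020203285)) e
 (c (a (nat_lit 0x20202032c925))
 (c z e
 (c (a (nat_lit 0x7496a54b24d84a7)) e e))
 (c (a (nat_lit 0x1e528ae4))
 (c (a (nat_lit 0xa276e33f7cce246)) e e)
 (c (a (nat_lit 0xc6c769130c825)) e
 (c (a (nat_lit 0xed7d2730c2be5)) e
 (c (a (nat_lit 0x198eefe4a38a84)) e
 (c (a (nat_lit 0x107183c38c2584)) e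
 (c (a (nat_lit 0x1f21a213a6a0e3)) e
 (c z e
 (c z e
 (c (a (nat_lit 0x14a7c9ce402003)) e
 (c (a (nat_lit 0x98b9001e10ba3)) e
 (c (a (nat_lit 0x26380202290c5)) e e))))))))))))))))))))))) Tr.c Tr.e (nat_lit 0) C.cx
noncomputable def C633 : Tr := beta% (fun (c : Nat → Tr → Tr → Tr) (e : Tr) (z : Nat) (a : Nat → Nat) =>
 (c z
 (c (a (nat_lit 0x119191919199225bc3)) e
 (c (a (nat_lit 0x141414153c4e76226))
 (c z e
 (c z e
 (c z e
 (c z e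
 (c z e
 (c z e
 (c z e
 (c z e
 (c z e
 (c z e
 (c z e
 (c z e
 (c z e
 (c (a (nat_lit 0x9ab4c375c57cb49c989)) e e))))))))))))))
 (c (a (nat_lit 0x2020217636463f106))
 (c z e
 (c z e
 (c z e
 (c z e
 (c z e
 (c z e
 (c z e
 (c z e
 (c z e
 (c z e
 (c z e
 (c (a (nat_lit 0x80929ed4b8603ab3c68)) e e))))))))))))
 (c (a (nat_lit 0x424382487c18ebe65))
 (c z e
 (c z e
 (c z e
 (c z e
 (c z e
 (c z e
 (c z e
 (c (a (nat_lit 0x4e968b22b63ca132f46)) e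
 (c (a (nat_lit 0x6a785686506ea06bf27)) e
 (c (a (nat_lit 0x2a2026482218267d349)) e
 (c (a (nat_lit 0x4448567a30409f4a889)) e e)))))))))))
 (c z e
 (c z e
 (c z e
 (c z e
 (c z e
 (c z e
 (c z e
 (c z e
 (c z e
 (c z e
 (c (a (nat_lit 0x1e3e9f1eba92915726)) e
 (c (a (nat_lit 0x1392f619f2f311fe26)) e
 (c z e
 (c (a (nat_lit 0x1b6b6786c6c927ca04)) e e))))))))))))))))))
 (c z
 (c (a (nat_lit 0xe0e0f2c706030406))
 (c z e
 (c z e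
 (c z e
 (c z e
 (c z e
 (c z e
 (c z e
 (c z e
 (c z e
 (c z e
 (c (a (nat_lit 0x403e5c7c563e3021887)) e e)))))))))))
 (c (a (nat_lit 0x141584644e42a6e47))
 (c z e
 (c z e
 (c z e
 (c z e
 (c z e
 (c z e
 (c z e
 (c z e
 (c (a (nat_lit 0x2c2634583428406d348)) e
 (c (a (nat_lit 0x1016202218200f56e29)) e
 (c (a (nat_lit 0x8cb8d6f88662f55bbc8)) e e)))))))))))
 (c z e
 (c z e
 (c z e
 (c z e
 (c z e
 (c z e
 (c z e
 (c z e
 (c z e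
 (c z e
 (c (a (nat_lit 0x11ce6ef0cca948a9e7)) e e)))))))))))))
 (c z
 (c z e
 (c z e
 (c z e
 (c z e
 (c z e
 (c z e
 (c z e
 (c z e
 (c z e
 (c (a (nat_lit 0xdf1ee6664c40343c7)) e
 (c (a (nat_lit 0x17946c8a88a74763a7)) e e)))))))))))
 (c z
 (c z e
 (c z e
 (c z e
 (c z e
 (c z e
 (c z e
 (c z e
 (c z e
 (c (a (nat_lit 0x15b14fb36ba8cb8d26)) e
 (c (a (nat_lit 0x11aefc0f0b8d6826c6)) e
 (c (a (nat_lit 0xcf46e4d102d40cac6)) e
 (c (a (nat_lit 0x5c648cb2aa9e998e8)) e e))))))))))))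
 (c z
 (c z e
 (c z e
 (c z e
 (c z e
 (c z e
 (c z e
 (c z e
 (c (a (nat_lit 0x10d56ee740c7cc0566)) e
 (c (a (nat_lit 0x173652a9afd405cfc6)) e e)))))))))
 (c (a (nat_lit 0x20202020203de6))
 (c z e
 (c z e
 (c z e
 (c z e
 (c z e
 (c z e
 (c (a (nat_lit 0x59d42844487230526)) e
 (c (a (nat_lit 0x1b2eb0cf32500faa07)) e e))))))))
 (c (a (nat_lit 0x20202020304887))
 (c z e
 (c z e
 (c z e
 (c z e
 (c z e
 (c (a (nat_lit 0xb7202a72c82abd086)) e e))))))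
 (c (a (nat_lit 0x20202037cf43c7)) e
 (c (a (nat_lit 0x181819b894706c7)) e
 (c (a (nat_lit 0xe0f048e2820127))
 (c z e
 (c z e
 (c z e
 (c (a (nat_lit 0xa4647c981419079a7)) e e))))
 (c z e
 (c z e
 (c z e
 (c z e
 (c z e
 (c z e
 (c z e
 (c z e
 (c z e
 (c z e
 (c z e
 (c z e
 (c (a (nat_lit 0x1b242a280202005)) e e)))))))))))))))))))))))) Tr.c Tr.e (nat_lit 0) C.cx
noncomputable def C634 : Tr := beta% (fun (c : Nat → Tr → Tr → Tr) (e : Tr) (z : Nat) (a : Nat → Nat) =>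
 (c z
 (c (a (nat_lit 0x202020328240a484)) e
 (c (a (nat_lit 0x1a1a1bbe26105ac45))
 (c z e
 (c z e
 (c z e
 (c z e
 (c z e
 (c z e
 (c z e
 (c z e
 (c z e
 (c (a (nat_lit 0x2c28282e2c203815547)) e
 (c z e
 (c (a (nat_lit 0x40566a86443e6661328)) e e))))))))))))
 (c (a (nat_lit 0x1a1b5e3e1a5e9cfc5))
 (c z e
 (c z e
 (c z e
 (c z e
 (c z e
 (c z e
 (c z e
 (c z e
 (c z e
 (c z e
 (c (a (nat_lit 0x94baf4745eb8f1b26c7)) e e)))))))))))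
 (c z e
 (c z e
 (c z e
 (c z e
 (c z e
 (c z e
 (c z e
 (c z e
 (c (a (nat_lit 0xcb28a8a89a78283e5)) e
 (c (a (nat_lit 0x13ebad4c09a8242445)) e
 (c (a (nat_lit 0x1655f690508e48ae25)) e
 (c (a (nat_lit 0x137252bbd3d3721c65)) e
 (c (a (nat_lit 0x7062b6e6ccc2c9186)) e e))))))))))))))))
 (c z
 (c (a (nat_lit 0x1617d44c20794f044))
 (c z e
 (c z e
 (c z e
 (c z e
 (c z e
 (c z e
 (c z e
 (c z e
 (c z e
 (c z e
 (c z e
 (c z e
 (c z e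
 (c (a (nat_lit 0x5275466230000000008)) e e))))))))))))))
 (c z e
 (c z e
 (c z e
 (c z e
 (c z e
 (c z e
 (c z e
 (c z e
 (c z e
 (c z e
 (c (a (nat_lit 0x16f0732ced2b876924)) e e))))))))))))
 (c z
 (c (a (nat_lit 0x1261e364ec6a8f2944)) e
 (c (a (nat_lit 0xc303acabd4cb7485))
 (c z e
 (c z e
 (c z e
 (c z e
 (c z e
 (c z e
 (c z e
 (c z e
 (c z e
 (c z e
 (c (a (nat_lit 0x11820122000000000008)) e e)))))))))))
 (c z e
 (c z e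
 (c z e
 (c z e
 (c z e
 (c z e
 (c z e
 (c z e
 (c z e
 (c (a (nat_lit 0x768305613f06d12e5)) e e))))))))))))
 (c z
 (c (a (nat_lit 0x7278c8c732d732e45)) e
 (c z e
 (c z e
 (c z e
 (c z e
 (c z e
 (c z e
 (c z e
 (c z e
 (c (a (nat_lit 0x148c6eac918de78ca4)) e
 (c (a (nat_lit 0x2274a4c0b0b0a36a6)) e
 (c (a (nat_lit 0xaeeb2710e2fcc3666)) e e))))))))))))
 (c z
 (c z e
 (c z e
 (c z e
 (c z e
 (c z e
 (c z e
 (c z e
 (c z e
 (c z e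
 (c z e
 (c z e
 (c (a (nat_lit 0x8282887c948e93687)) e e))))))))))))
 (c (a (nat_lit 0x20202020203e24)) e
 (c (a (nat_lit 0x101010101150a25)) e
 (c (a (nat_lit 0x10101011ee4a285))
 (c z e
 (c z e
 (c z e
 (c z e
 (c z e
 (c z e
 (c (a (nat_lit 0xdcdcc3cf28c6a6b06)) e e)))))))
 (c (a (nat_lit 0xa0a0b228e20165))
 (c z e
 (c z e
 (c z e
 (c z e
 (c z e
 (c (a (nat_lit 0xaa9f22fa804e46206)) e e))))))
 (c (a (nat_lit 0x1c1d40b430420c5))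
 (c z e
 (c (a (nat_lit 0x6a584c48382609146)) e e))
 (c (a (nat_lit 0x534361e2e24385))
 (c (a (nat_lit 0x786a9c563c378ede5)) e
 (c (a (nat_lit 0x6cb22a681f28825e5)) e e))
 (c z e
 (c (a (nat_lit 0x12adad6d153492a3)) e
 (c (a (nat_lit 0xd8e0e33f998d8e4)) e
 (c z e
 (c (a (nat_lit 0xd9053f4d4333185)) e
 (c (a (nat_lit 0x11e44963a3a62802)) e
 (c (a (nat_lit 0x60885a60727b043)) e
 (c (a (nat_lit 0xae5468969bae262)) e
 (c (a (nat_lit 0x484a4e711a56463)) e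
 (c z e
 (c (a (nat_lit 0x8cbde45e3c44122)) e
 (c (a (nat_lit 0x6f0440301a00003)) e
 (c (a (nat_lit 0x1fe762c000000002)) e e))))))))))))))))))))))))) Tr.c Tr.e (nat_lit 0) C.cx
noncomputable def C635 : Tr := beta% (fun (c : Nat → Tr → Tr → Tr) (e : Tr) (z : Nat) (a : Nat → Nat) =>
 (c z
 (c z
 (c z
 (c (a (nat_lit 0x8686876496849e98a01)) e
 (c (a (nat_lit 0x4e4f045454666c7e763)) e e))
 (c (a (nat_lit 0x121212121212131a3))
 (c z e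
 (c z e
 (c z e
 (c z e
 (c z e
 (c z e
 (c z e
 (c z e
 (c z e
 (c z e
 (c z e
 (c z e
 (c z e
 (c z e
 (c z e
 (c (a (nat_lit 0x4c585e62625c99332e7)) e
 (c (a (nat_lit 0x94a4aab0b6b517fe006)) e e)))))))))))))))))
 (c (a (nat_lit 0x12121212121332124)) e
 (c (a (nat_lit 0x8080808093804064)) e
 (c z e
 (c z e
 (c (a (nat_lit 0x1011d084127464443)) e e)))))))
 (c z
 (c (a (nat_lit 0x4e4e4e4e4e4ff2083))
 (c z e
 (c z e
 (c z e
 (c z e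
 (c z e
 (c z e
 (c z e
 (c z e
 (c z e
 (c z e
 (c z e
 (c z e
 (c z e
 (c z e
 (c (a (nat_lit 0xa8bacee0f3bdd75cbc7)) e
 (c (a (nat_lit 0x46565e5c548d5fb22e8)) e
 (c (a (nat_lit 0x646c6e6e70af6400008)) e e)))))))))))))))))
 (c (a (nat_lit 0x1414141415b6524e5)) e
 (c (a (nat_lit 0x14141415e43826385)) e
 (c (a (nat_lit 0x1e1e1f32202018865))
 (c z e
 (c z e
 (c z e
 (c z e
 (c z e
 (c z e
 (c z e
 (c z e
 (c z e
 (c z e
 (c (a (nat_lit 0x44546672ba2e46dd747)) e e)))))))))))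
 (c (a (nat_lit 0x2036e522e3f374a4))
 (c z e
 (c z e
 (c z e
 (c z e
 (c z e
 (c z e
 (c z e
 (c (a (nat_lit 0x202c121e240e18f55c7)) e
 (c (a (nat_lit 0x360e2e5620101cffe87)) e
 (c (a (nat_lit 0x5a5a546c303b23e6927)) e e))))))))))
 (c (a (nat_lit 0x1530ae36667c62525))
 (c z e
 (c z e
 (c z e
 (c z e
 (c (a (nat_lit 0x5e5e74524a7c927ff07)) e
 (c (a (nat_lit 0x323a3e3026302093927)) e
 (c (a (nat_lit 0x221e161a24148114388)) e
 (c (a (nat_lit 0x5a607a86406f27410e7)) e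
 (c (a (nat_lit 0x6278903842eb8cc8007)) e e)))))))))
 (c z e
 (c z e
 (c z e
 (c z e
 (c z e
 (c z e
 (c z e
 (c z e
 (c z e
 (c (a (nat_lit 0x177d5cbcda31309a25)) e
 (c (a (nat_lit 0xb4d0cb83373b35fe5)) e e)))))))))))))))))
 C634))
 (c z C633
 (c z
 (c z
 (c (a (nat_lit 0x28284072664e81904))
 (c z e
 (c z e
 (c z e
 (c z e
 (c z e
 (c z e
 (c z e
 (c z e
 (c z e
 (c z e
 (c z e
 (c z e
 (c (a (nat_lit 0xc90162be9286bbf8a47)) e e)))))))))))))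
 (c z e
 (c z e
 (c z e
 (c z e
 (c z e
 (c z e
 (c z e
 (c z e
 (c z e
 (c (a (nat_lit 0x1dd06be9ea680744c5)) e e)))))))))))
 (c z
 (c z e
 (c z e
 (c z e
 (c z e
 (c z e
 (c z e
 (c z e
 (c z e
 (c z e
 (c (a (nat_lit 0x1d0db152eeaec36665)) e
 (c (a (nat_lit 0xeced69371acc7eb06)) e
 (c (a (nat_lit 0x12d5347311d1060ca7)) e e))))))))))))
 (c z
 (c z e
 (c z e
 (c z e
 (c z e
 (c z e
 (c z e
 (c z e
 (c z e
 (c (a (nat_lit 0x1e3a9770294c896b85)) e e)))))))))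
 (c (a (nat_lit 0x20202020203866))
 (c z e
 (c z e
 (c z e
 (c z e
 (c z e
 (c z e
 (c (a (nat_lit 0x1210c86508e70aaa26)) e
 (c (a (nat_lit 0x1b8b88678810360805)) e
 (c (a (nat_lit 0xa290aacb3edcb9846)) e
 (c z e
 (c z e
 (c z e
 (c z e
 (c (a (nat_lit 0x11460364e320000006)) e e))))))))))))))
 (c (a (nat_lit 0x20202020314647))
 (c z e
 (c z e
 (c z e
 (c z e
 (c z e
 (c (a (nat_lit 0x158febac03ae652c85)) e
 (c (a (nat_lit 0x12eda4470c554ce205)) e e)))))))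
 (c (a (nat_lit 0x20202037ede2e7))
 (c z e
 (c z e
 (c z e
 (c z e
 (c (a (nat_lit 0x1e0602c263a5ed6626)) e e)))))
 (c (a (nat_lit 0x20394e830647)) e
 (c (a (nat_lit 0x809c67c5a82307)) e
 (c z e
 (c z e
 (c z e
 (c z e
 (c z e
 (c z e
 (c z e
 (c z e
 (c z e
 (c (a (nat_lit 0x15a7876728622086)) e e))))))))))))))))))
 (c z
 (c z
 (c z e
 (c z e
 (c z e
 (c z e
 (c z e
 (c z e
 (c z e
 (c z e
 (c z e
 (c z e
 (c z e
 (c (a (nat_lit 0x1979983574e5071f85)) e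
 (c (a (nat_lit 0x7a88a4aabab7012c7)) e e)))))))))))))
 (c (a (nat_lit 0x20202020203b26)) e
 (c (a (nat_lit 0x20202020396506))
 (c z e
 (c z e
 (c z e
 (c z e
 (c z e
 (c z e
 (c z e
 (c (a (nat_lit 0x150c0d2c11e9a4e3e6)) e e))))))))
 (c (a (nat_lit 0x202020340863e7)) e
 (c (a (nat_lit 0x202036ec420507)) e
 (c (a (nat_lit 0xc0dacf64a6e6a7))
 (c z e
 (c z e
 (c z e
 (c (a (nat_lit 0x1a8dcecb3555315b66)) e e))))
 (c z e
 (c z e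
 (c z e
 (c z e
 (c z e
 (c z e
 (c z e
 (c z e
 (c z e
 (c (a (nat_lit 0x1bab63a989802085)) e
 (c (a (nat_lit 0x1686f2d340c16344)) e e)))))))))))))))))
 C632))))) Tr.c Tr.e (nat_lit 0) C.cx
noncomputable def C636 : Tr := beta% (fun (c : Nat → Tr → Tr → Tr) (e : Tr) (z : Nat) (a b : Nat → Nat) =>
 (c (a (nat_lit 0x20202021))
 (c (a (nat_lit 0x2020203d84))
 (c (a (nat_lit 0x643c3e4041fc2)) e
 (c (a (nat_lit 0x1315d794734021)) e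
 (c (b (nat_lit 0x282c25ff5f8c3)) e
 (c z e
 (c (a (nat_lit 0xf9053f1a32006)) e
 (c (a (nat_lit 0x14f16d23c88867)) e e))))))
 (c (a (nat_lit 0x2039dec5))
 (c (a (nat_lit 0x16d7b7a9786743)) e
 (c (b (nat_lit 0x605b0dfe8cf25)) e
 (c z e
 (c (a (nat_lit 0x9d7578b053247)) e
 (c (a (nat_lit 0xeeaae0b259e48)) e e)))))
 (c (a (nat_lit 0x203a118826)) e
 (c (b (nat_lit 0x1d8e251fe6)) e
 (c (a (nat_lit 0xc762c62a046))
 (c z e
 (c (a (nat_lit 0x9f43629c50008)) e e))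
 (c (a (nat_lit 0x144ce9270f46))
 (c (a (nat_lit 0x1799e1e8a00007)) e e)
 (c z e
 (c z e
 (c z e
 (c (b (nat_lit 0xe9fe34077a2)) e
 (c (b (nat_lit 0x1fe0e04c1f23)) e
 (c (a (nat_lit 0x2a22851cde4)) e
 (c z e
 (c (a (nat_lit 0x89ef60ced23)) e
 (c (a (nat_lit 0x122960408063)) e
 (c (a (nat_lit 0x126040804002)) e
 (c (a (nat_lit 0x80a0000001)) e e)))))))))))))))))
 (c (a (nat_lit 0x80808081))
 (c (a (nat_lit 0x202b50c825))
 (c (a (nat_lit 0x3e3c4aba19282)) e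
 (c (b (nat_lit 0x896d47fee6985)) e
 (c z e
 (c (a (nat_lit 0xaac4762e4f9c7)) e
 (c (a (nat_lit 0x852ede273e767)) e e)))))
 (c (a (nat_lit 0x399960ce646)) e
 (c z e
 (c (a (nat_lit 0x144d85c2eb46))
 (c z e
 (c (a (nat_lit 0xaf2b288a00008)) e e))
 (c (a (nat_lit 0x108d0a326f06))
 (c (a (nat_lit 0x1469ca80000006)) e e)
 (c z e
 (c z e
 (c (b (nat_lit 0x1fffe140a381)) e
 (c (b (nat_lit 0x1fe0608199c3)) e
 (c (a (nat_lit 0x8199d2a3)) e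
 (c z e
 (c (b (nat_lit 0x1ff830286883)) e
 (c (a (nat_lit 0x108880c12143)) e
 (c (a (nat_lit 0x1f20e1224221)) e
 (c (a (nat_lit 0x60400001)) e
 (c (nat_lit 1) e e))))))))))))))))
 (c (a (nat_lit 0x60606061))
 (c (a (nat_lit 0x114b06432326))
 (c (a (nat_lit 0xbcea5c5c27706)) e
 (c (a (nat_lit 0x7c56782c819e8)) e e))
 (c (a (nat_lit 0x126a84648626))
 (c (a (nat_lit 0x587e74652b748)) e e)
 (c z e
 (c z e
 (c z e
 (c (a (nat_lit 0x1ebebd7d5566)) e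
 (c (a (nat_lit 0xc2160e7b823)) e
 (c (a (nat_lit 0x6122128ca3)) e
 (c z e
 (c (a (nat_lit 0x9d911af4e83)) e
 (c (a (nat_lit 0x19888240e042)) e
 (c (a (nat_lit 0xe2200a06001)) e
 (c (a (nat_lit 0x3a120a06001)) e
 (c (a (nat_lit 0x54240000001)) e e))))))))))))))
 (c (a (nat_lit 0x40604041))
 (c (a (nat_lit 0x1c0fcfd2aba4))
 (c (a (nat_lit 0x5c6c35d3e91a6)) e e)
 (c z e
 (c z e
 (c (a (nat_lit 0x125195b5b5a8)) e
 (c (a (nat_lit 0xfd1514ceaa7)) e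
 (c (a (nat_lit 0x11d2315d5664)) e
 (c z e
 (c (b (nat_lit 0x1ff7574c2b43)) e
 (c (a (nat_lit 0x17d7a300c002)) e
 (c (a (nat_lit 0x162260e0c002)) e
 (c (a (nat_lit 0x74342a12001)) e
 (c (a (nat_lit 0x5ea61200001)) e
 (c (a (nat_lit 0x76000000001)) e e)))))))))))))
 (c (a (nat_lit 0x101010101))
 (c z e
 (c (a (nat_lit 0x112fd1512387)) e
 (c z e
 (c z e
 (c z e
 (c (a (nat_lit 0xad7902b8c44)) e
 (c (a (nat_lit 0x176a81616d83)) e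
 (c (a (nat_lit 0x721e1c041)) e
 (c (a (nat_lit 0x50180e10001)) e
 (c (a (nat_lit 0x120e1606001)) e
 (c (a (nat_lit 0x60a0000001)) e e)))))))))))
 (c (a (nat_lit 0x20202021))
 (c (a (nat_lit 0x1a3b9b8806c6)) e
 (c z e
 (c z e
 (c (a (nat_lit 0xe15f24ff005)) e
 (c (a (nat_lit 0xc4500407ba4)) e
 (c (a (nat_lit 0x4242200c021)) e
 (c (a (nat_lit 0x3c260e06001)) e
 (c (a (nat_lit 0x20120a08021)) e
 (c (a (nat_lit 0x18120400001)) e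
 (c (a (nat_lit 0x14000000001)) e e))))))))))
 (c (a (nat_lit 0x20202021))
 (c z e
 (c (a (nat_lit 0xa3ecee1e1e3)) e
 (c (a (nat_lit 0x662a0403025)) e
 (c (a (nat_lit 0x18300c12101)) e
 (c (a (nat_lit 0x40161c22001)) e
 (c (a (nat_lit 0x160e1008001)) e
 (c (a (nat_lit 0x10140c04001)) e
 (c (a (nat_lit 0x6060000001)) e e))))))))
 (c (nat_lit 1)
 (c (a (nat_lit 0x3a180403105)) e
 (c (a (nat_lit 0x1c52100e001)) e
 (c (a (nat_lit 0x5e221c1c001)) e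
 (c (a (nat_lit 0x5c52346a001)) e
 (c (a (nat_lit 0x74442a9e061)) e
 (c (a (nat_lit 0xe4c82400001)) e
 (c (a (nat_lit 0xa6000000001)) e e)))))))
 (c (a (nat_lit 0x20202021))
 (c (a (nat_lit 0x808040a081)) e
 (c (a (nat_lit 0x100a14120c1)) e
 (c (a (nat_lit 0x6100e080e1)) e
 (c (a (nat_lit 0x1816120c001)) e
 (c (a (nat_lit 0x10060000001)) e e)))))
 (c (a (nat_lit 0x40404061))
 (c (a (nat_lit 0x60c0a080a1)) e
 (c (a (nat_lit 0x100e0a10041)) e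
 (c (a (nat_lit 0x18140c00001)) e
 (c (a (nat_lit 0x8000000001)) e e))))
 (c (a (nat_lit 0x20202021))
 (c (a (nat_lit 0x6040602001)) e
 (c (a (nat_lit 0x100c0000001)) e e))
 (c (a (nat_lit 0xa0a0a0a1))
 (c (a (nat_lit 0x6000000001)) e e)
 (c (a (nat_lit 0x60606061)) e
 (c (a (nat_lit 0xa0a0a0a1)) e
 (c (a (nat_lit 0xc0c0e0e1)) e
 (c (a (nat_lit 0x20404021)) e
 (c (a (nat_lit 0xa0a0a041)) e
 (c (a (nat_lit 0x202030e6)) e
 (c (a (nat_lit 0x141520b26)) e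
 (c z e
 (c (a (nat_lit 0x110a002026)) e
 (c (a (nat_lit 0x1440404125)) e
 (c (b (nat_lit 0x1e3901fe1)) e e)))))))))))))))))))))))) Tr.c Tr.e (nat_lit 0) C.cx C.cy
noncomputable def C637 : Tr := beta% (fun (c : Nat → Tr → Tr → Tr) (e : Tr) (z : Nat) (a b : Nat → Nat) =>
 (c (a (nat_lit 0x80808081))
 (c (a (nat_lit 0x6060606061))
 (c (a (nat_lit 0x48505304d6565))
 (c (a (nat_lit 0x1b7354b0c22488c4)) e
 (c z e
 (c z e
 (c (a (nat_lit 0x18a0438a2eeea045)) e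
 (c (a (nat_lit 0x1e24321a8110147)) e
 (c (a (nat_lit 0x19d95cdf2a831085)) e
 (c z e
 (c (a (nat_lit 0x12d8770667e00006)) e
 (c (a (nat_lit 0xf70416000000007)) e e)))))))))
 (c z e
 (c z e
 (c (a (nat_lit 0x164b2040216085))
 (c z e
 (c (a (nat_lit 0x2ef043e2e20029)) e e))
 (c (a (nat_lit 0x12e0e0c1610004))
 (c (a (nat_lit 0x11b783c10080a0a8)) e e)
 (c (a (nat_lit 0x1514f5936f0ea4)) e
 (c (a (nat_lit 0x6850705a47e65)) e
 (c (a (nat_lit 0x282a26e3ddb46)) e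
 (c (a (nat_lit 0x141efb775cee7)) e
 (c z e
 (c (a (nat_lit 0x151c7ab594c907)) e
 (c (a (nat_lit 0x1db6ac0d68e305)) e
 (c (a (nat_lit 0x158a8bc7e1e125)) e
 (c (a (nat_lit 0x15b83084a1a004)) e e))))))))))))))
 (c (a (nat_lit 0x4040404041))
 (c (a (nat_lit 0x3d1520a080c5))
 (c (a (nat_lit 0xf478020480d72a6)) e
 (c z e
 (c z e
 (c z e
 (c z e
 (c (a (nat_lit 0x81651a6a5400008)) e e))))))
 (c z e
 (c z e
 (c z e
 (c z e
 (c (a (nat_lit 0xa0c245277668)) e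
 (c (a (nat_lit 0x100442b59eb08)) e
 (c z e
 (c z e
 (c (a (nat_lit 0xb72cb6b68c229)) e
 (c (a (nat_lit 0x12c405c5a2c1c8)) e
 (c (a (nat_lit 0xc52d287430026)) e e))))))))))))
 (c (a (nat_lit 0x8080808081))
 (c z e
 (c z e
 (c (a (nat_lit 0xe2314eaee025)) e
 (c (a (nat_lit 0x40a9112ac5726)) e
 (c (a (nat_lit 0x56528c98f7147)) e e)))))
 (c (a (nat_lit 0xa0a0a0a0a1))
 (c (a (nat_lit 0xc50cc484003))
 (c (a (nat_lit 0x76870eeef0bc546)) e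
 (c (a (nat_lit 0x12d22f0d45800007)) e e))
 (c (a (nat_lit 0x76d69c6607fa4))
 (c (a (nat_lit 0x1c53d58520000006)) e e)
 (c (a (nat_lit 0x126ece09778284)) e
 (c z e
 (c z e
 (c (a (nat_lit 0x96a50718f4708)) e
 (c z e
 (c z e
 (c z e
 (c (a (nat_lit 0x13a720c0600004)) e
 (c (a (nat_lit 0x1b810000000002)) e e)))))))))))
 (c (a (nat_lit 0x12121212121))
 (c (a (nat_lit 0xeebc96119a043))
 (c (a (nat_lit 0x8bdc34000000004)) e e)
 (c z e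
 (c z e
 (c (a (nat_lit 0x15f20c44b7b926)) e
 (c (a (nat_lit 0x9a848ccb0c8c8)) e
 (c z e
 (c z e
 (c (b (nat_lit 0x1ff85690808005)) e
 (c (a (nat_lit 0x1412e7e0000006)) e
 (c (a (nat_lit 0x15e00000000005)) e e))))))))))
 (c (a (nat_lit 0x8080608081))
 (c z e
 (c (a (nat_lit 0xfcf4a20419646)) e
 (c z e
 (c z e
 (c z e
 (c (a (nat_lit 0x64bd08a260508)) e
 (c (a (nat_lit 0x15f2eda8000006)) e
 (c (a (nat_lit 0x10c5c000000006)) e e))))))))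
 (c (a (nat_lit 0x2020203ee5))
 (c (a (nat_lit 0x1b9736f6dcbb25)) e
 (c z e
 (c z e
 (c z e
 (c (a (nat_lit 0x64ef4b5320008)) e
 (c (a (nat_lit 0x1bd012c0000005)) e e))))))
 (c (a (nat_lit 0x20203f9d85))
 (c z e
 (c (b (nat_lit 0x1fe225c72ff388)) e e))
 (c (a (nat_lit 0x1e1ebb0e406))
 (c (a (nat_lit 0x8a4284d58f7c7)) e e)
 (c (a (nat_lit 0xbd05c4d0005)) e
 (c (a (nat_lit 0xe398f2080e5)) e
 (c (a (nat_lit 0x166c00207685)) e
 (c (a (nat_lit 0xca040972d85)) e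
 (c (a (nat_lit 0x7479e54a8a5)) e
 (c z e
 (c (a (nat_lit 0x15c600604025)) e
 (c (a (nat_lit 0x1720c0408ae3)) e
 (c (b (nat_lit 0x30241b79fe2)) e
 (c z e
 (c (a (nat_lit 0x155af0abebc4)) e
 (c (a (nat_lit 0x1e89e0400003)) e
 (c (a (nat_lit 0x132000000002)) e e))))))))))))))))))))))
 (c (nat_lit 1)
 (c (a (nat_lit 0x2020202021))
 (c (a (nat_lit 0x128b80e0c10024))
 (c (a (nat_lit 0x72024690ba97224)) e
 (c (b (nat_lit 0x4634cbff5acb246)) e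
 (c z e
 (c z e
 (c (a (nat_lit 0xedef5558d0ba006)) e
 (c (a (nat_lit 0x14ebe6e140000007)) e e))))))
 (c z e
 (c z e
 (c (a (nat_lit 0x11b393e689c9e3)) e
 (c (a (nat_lit 0x261e020e0f066)) e
 (c (a (nat_lit 0x120206a3c5306)) e
 (c z e
 (c z e
 (c (a (nat_lit 0xcb1ad0c0b8028)) e
 (c (a (nat_lit 0x19702f8ee364a7)) e
 (c (a (nat_lit 0x7226140a21a24)) e
 (c (a (nat_lit 0x1614d516b6e004)) e e))))))))))))
 (c (a (nat_lit 0x4040402021))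
 (c z e
 (c z e
 (c (a (nat_lit 0x40b9233738aa6))
 (c (a (nat_lit 0x1974bfeae0000007)) e e)
 (c (a (nat_lit 0xc6b4c4eca30c7)) e
 (c z e
 (c z e
 (c z e
 (c z e
 (c z e
 (c (b (nat_lit 0x1dc1afffe1dfe3)) e e))))))))))
 (c (a (nat_lit 0xa0a0a0a0a1))
 (c (a (nat_lit 0x2a6c24060da23))
 (c (a (nat_lit 0x1a0c6db40200a005)) e
 (c (a (nat_lit 0x1cd43e6700000006)) e e))
 (c (a (nat_lit 0x1602040421106))
 (c (a (nat_lit 0x137fa76000000006)) e e) e))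
 (c (a (nat_lit 0xc0c0c0c0a1))
 (c (a (nat_lit 0xf501045796dc4))
 (c (a (nat_lit 0x18e4800000000005)) e e)
 (c z e
 (c z e
 (c z e
 (c z e
 (c z e
 (c z e
 (c (a (nat_lit 0x1f96c20c00004)) e
 (c (a (nat_lit 0x12056000000005)) e e)))))))))
 (c (a (nat_lit 0x2020203067))
 (c (a (nat_lit 0x1b1ffa37e39804)) e
 (c (a (nat_lit 0x14902cf02fdd66)) e
 (c z e
 (c z e
 (c z e
 (c (a (nat_lit 0x6d04e6acbc008)) e
 (c (a (nat_lit 0xff08580000006)) e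
 (c (a (nat_lit 0x16200000000005)) e e))))))))
 (c (a (nat_lit 0x20203606a7))
 (c (a (nat_lit 0x3628268e9d0a7)) e
 (c z e
 (c z e
 (c (a (nat_lit 0xe90d553930ee9)) e
 (c (a (nat_lit 0xd724e74e00008)) e
 (c (a (nat_lit 0x1e48e000000006)) e e))))))
 (c (a (nat_lit 0x203a3006a6)) e
 (c z e
 (c (a (nat_lit 0x1d3b740b0b06)) e
 (c (a (nat_lit 0xf29084834a6)) e
 (c (a (nat_lit 0xfe0a0f48e25)) e
 (c (a (nat_lit 0xb4b5551abe6)) e
 (c z e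
 (c (a (nat_lit 0x11c700202025)) e
 (c (a (nat_lit 0x1c2060410ce3)) e
 (c (b (nat_lit 0x6e6e7d31fe3)) e
 (c z e
 (c (a (nat_lit 0xed18b4aeae5)) e
 (c (a (nat_lit 0x1ac1e0806003)) e
 (c (a (nat_lit 0x66020000001)) e e))))))))))))))))))))
 (c (a (nat_lit 0x80808081))
 (c (a (nat_lit 0x20002021))
 (c (a (nat_lit 0xb00f709084))
 (c z e
 (c (a (nat_lit 0x1dd49a75ed2e2846)) e
 (c (a (nat_lit 0x815965088a00006)) e e)))
 (c (a (nat_lit 0xb6a95d91a01))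
 (c (a (nat_lit 0xa7928840260a006)) e
 (c (a (nat_lit 0x1cb56cc8c0000007)) e e))
 (c (a (nat_lit 0x12081e2225305))
 (c (a (nat_lit 0x1592066000000006)) e e)
 (c (a (nat_lit 0x4656566104106)) e
 (c z e
 (c z e
 (c (a (nat_lit 0x15fe37d7644427)) e
 (c z e
 (c z e
 (c (a (nat_lit 0xac80833e5e006)) e e))))))))))
 (c (a (nat_lit 0x2020202021))
 (c (a (nat_lit 0x40a0c0fea3))
 (c z e
 (c (a (nat_lit 0x166def2000000006)) e e))
 (c (a (nat_lit 0x1030d120e0c105))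
 (c (a (nat_lit 0x1b2d200000000006)) e e)
 (c (b (nat_lit 0x20205ffff566)) e
 (c z e
 (c z e
 (c (a (nat_lit 0x1252b6064222a8)) e e))))))
 (c (a (nat_lit 0x2020203b06))
 (c (a (nat_lit 0x5c5e5e20276a6)) e
 (c (b (nat_lit 0x5051ffff18527)) e e))
 (c (a (nat_lit 0x2020342847)) e
 (c (a (nat_lit 0x203fe723e7))
 (c (a (nat_lit 0x266c49309267)) e
 (c z e
 (c z e
 (c z e
 (c (a (nat_lit 0x14d58e60000008)) e e)))))
 (c (a (nat_lit 0x1368078467)) e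
 (c (a (nat_lit 0x148eeb87e007))
 (c (a (nat_lit 0x13574e2d0a2007)) e e)
 (c z e
 (c (a (nat_lit 0x1cb11097d9e6)) e
 (c z e
 (c z e
 (c (a (nat_lit 0x1816408021a4)) e
 (c (a (nat_lit 0xb004020f245)) e
 (c (a (nat_lit 0x2020f22f05)) e
 (c z e
 (c (b (nat_lit 0x1ffca301e242)) e
 (c (a (nat_lit 0x1cc1004140e2)) e
 (c (a (nat_lit 0x22080c00001)) e
 (c (a (nat_lit 0x2000000001)) e e)))))))))))))))))))
 C636)))) Tr.c Tr.e (nat_lit 0) C.cx C.cy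

end Pool.Agent.Work.MP_82fd4a_nt.P.H
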