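import Pool.Agent.Work.MP_82fd4a_nt.P.Tc3
import Pool.Agent.Work.MP_82fd4a_nt.P.H.Tb
import Pool.Agent.Work.MP_82fd4a_nt.P.H.CT

set_option autoImplicit false
set_option linter.all false

namespace Pool.Agent.Work.MP_82fd4a_nt.P.H

noncomputable def d13 : cjob3 (nat_lit 90) (nat_lit 3) (nat_lit 7) (nat_lit 27) (nat_lit 28) (nat_lit 196) (nat_lit 420)
    (nat_lit 0xfffffff) (nat_lit 0xfffffffffffffffffffffffffffffffffffffffffffffffffffffffffffffffffffffffffffffffffffffffffffffffffffffffff) tb tc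
    (nat_lit 2278395874526592) (nat_lit 72057594037927936) = 0 := by decide +kernel

end Pool.Agent.Work.MP_82fd4a_nt.P.H
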