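import Pool.Agent.Work.MP_82fd4a_nt.P.Ck2
import Pool.Agent.Work.MP_82fd4a_nt.P.H.Tb
import Pool.Agent.Work.MP_82fd4a_nt.P.H.Tq

/-! Checks of the tables. -/

set_option autoImplicit false
set_option linter.all false
set_option maxRecDepth 100000

namespace Pool.Agent.Work.MP_82fd4a_nt.P.H

open Y Tr P

noncomputable def k38 : P.chk2 90 23 44 tt1117 9 [] = 0 := by decide +kernel
noncomputable def q38 : P.ckq tt1117 uu1117 7 1 = 0 := by decide +kernel

end Pool.Agent.Work.MP_82fd4a_nt.P.H
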