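import Pool.Agent.Work.MP_82fd4a_nt.P.Dx

/-! The table of the weights. -/

set_option autoImplicit false
set_option linter.all false
set_option maxRecDepth 100000

namespace Pool.Agent.Work.MP_82fd4a_nt.P.H

open Y Tr

noncomputable def tt0 : Tr := beta% (fun (c : Nat → Tr → Tr → Tr) (e : Tr) (z : Nat) (a b d : Nat → Nat) =>
 (c (nat_lit 0x7f0307f02f7f02f7f02f7f03044b40)
 (c z
 (c z e
 (c z e
 (c z e
 (c (nat_lit 0x7cd557cd557cd557cc267cd557cd557cd55ac7c1) e e))))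
 (c z
 (c (d (nat_lit 0xffb5021)) e e)
 (c (b (nat_lit 0x10071203)) e
 (c (b (nat_lit 0x10259803)) e
 (c (b (nat_lit 0x10063e03)) e
 (c (b (nat_lit 0x10055203)) e
 (c (b (nat_lit 0xf71de07)) e
 (c (b (nat_lit 0xfa4a807)) e
 (c (nat_lit 0x79f0279f0279f0279e2779f0279f0269e87) e
 (c z e
 (c z e
 (c (nat_lit 0x8000080000800007ff988000080000d39cf) e
 (c z e
 (c (b (nat_lit 0x100e320f)) e
 (c (b (nat_lit 0x100e4211)) e
 (c (b (nat_lit 0x100d6c11)) e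
 (c (nat_lit 0x8070c8078b8078b8078b8078b8078b504d1) e
 (c (nat_lit 0x803ea803cf803ea803ea803ea803ea35fd1) e
 (c z e
 (c z e
 (c z e
 (c z e
 (c (nat_lit 0x80000800008000080000800007fdbbf2793) e e)))))))))))))))))))))))
 (c (a (nat_lit 0xfe06a00))
 (c z e
 (c z e
 (c (b (nat_lit 0x1022cc03)) e
 (c z e
 (c z e
 (c z e
 (c (b (nat_lit 0xfde1c07)) e
 (c z e
 (c (b (nat_lit 0xfe3a60f)) e
 (c (b (nat_lit 0x100f960f)) e
 (c z e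
 (c (b (nat_lit 0x100a660f)) e
 (c (b (nat_lit 0x100d3210)) e
 (c (b (nat_lit 0x100c3a11)) e
 (c (b (nat_lit 0x1009c011)) e
 (c (nat_lit 0x8047880478803cb80478804788047838d91) e
 (c (nat_lit 0x8030d8030d8030d803018030d8030de7f91) e
 (c z e
 (c (nat_lit 0x80000800008000080000800007fe65002d1) e
 (c z e
 (c z e
 (c (nat_lit 0x80000800008000080000800007f7dd75cd3) e e))))))))))))))))))))))
 (c (a (nat_lit 0xfe00800))
 (c z e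
 (c (b (nat_lit 0x10452403)) e
 (c (b (nat_lit 0xfe4c407)) e
 (c (b (nat_lit 0x10500a07)) e
 (c z e
 (c z e
 (c z e
 (c z e
 (c z e
 (c z e
 (c (b (nat_lit 0x100c1810)) e
 (c (b (nat_lit 0x10079010)) e
 (c (b (nat_lit 0x100be411)) e
 (c (b (nat_lit 0x1007f811)) e
 (c (b (nat_lit 0x10079411)) e
 (c (b (nat_lit 0x10083611)) e e))))))))))))))))
 (c (a (nat_lit 0xfe05e00))
 (c (b (nat_lit 0x10b8b607)) e
 (c (b (nat_lit 0x10b2ba07)) e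
 (c (b (nat_lit 0x10321607)) e
 (c (b (nat_lit 0x10aeb007)) e
 (c (b (nat_lit 0xfa3240f)) e
 (c (b (nat_lit 0x100f140f)) e
 (c z e
 (c (b (nat_lit 0x1019100f)) e
 (c (b (nat_lit 0x1008c810)) e
 (c (b (nat_lit 0x1019c010)) e
 (c (b (nat_lit 0x101b5610)) e
 (c (b (nat_lit 0x10060a11)) e
 (c (b (nat_lit 0x1007e611)) e
 (c (b (nat_lit 0x10085c11)) e
 (c (b (nat_lit 0x10067011)) e e)))))))))))))))
 (c (a (nat_lit 0xfdfd800))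
 (c z e
 (c (b (nat_lit 0xfe05407)) e
 (c z e
 (c z e
 (c z e
 (c (b (nat_lit 0x107d6e0f)) e
 (c (b (nat_lit 0x100b4810)) e
 (c (b (nat_lit 0x102e5a10)) e
 (c (b (nat_lit 0x102f9c10)) e
 (c (nat_lit 0x7ffb77ffc57ffc57ffc57ffc57ffc53d4d0) e
 (c z e
 (c z e
 (c z e
 (c z e
 (c z e
 (c (nat_lit 0x80000800008000080000800007ffdc10951) e e))))))))))))))))
 (c (a (nat_lit 0xfe02200))
 (c (b (nat_lit 0xfb6100f)) e
 (c z e
 (c z e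
 (c (b (nat_lit 0x10c0600f)) e
 (c (b (nat_lit 0x10925a10)) e
 (c (b (nat_lit 0x10274410)) e
 (c (b (nat_lit 0x10218810)) e
 (c (nat_lit 0x80e1080dfc80dfc80e1080e1080e10ea250) e
 (c (b (nat_lit 0x10149a10)) e
 (c (nat_lit 0x800008000080a0580a0580a0580a0546d10) e e))))))))))
 (c (nat_lit 0x7f0377f0337f0337f0337f03341840)
 (c z e
 (c (b (nat_lit 0x10286e0f)) e
 (c (b (nat_lit 0x11000410)) e
 (c (b (nat_lit 0x101d9e10)) e
 (c (b (nat_lit 0x101e2410)) e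
 (c (b (nat_lit 0x10180610)) e
 (c (b (nat_lit 0x1019b410)) e
 (c (b (nat_lit 0x101b0210)) e
 (c (nat_lit 0x800008000080929809298092980929cce90) e e)))))))))
 (c (a (nat_lit 0xfdfec00))
 (c (b (nat_lit 0x10fffa10)) e
 (c (b (nat_lit 0x10164410)) e
 (c (b (nat_lit 0x10185610)) e
 (c (b (nat_lit 0x10199a10)) e
 (c (b (nat_lit 0x1018fe10)) e
 (c (b (nat_lit 0x101bfa10)) e
 (c (b (nat_lit 0x101e3810)) e
 (c (nat_lit 0x800008000080eeb80eeb80eeb80eeb0b810) e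
 (c (nat_lit 0x80000800008000080f0680f0680f0690690) e e)))))))))
 (c (a (nat_lit 0xfdffe00)) e
 (c (a (nat_lit 0xfdfbe00)) e
 (c (a (nat_lit 0xfe01200)) e
 (c (a (nat_lit 0xfe0a600)) e
 (c (a (nat_lit 0xfe04000)) e
 (c (a (nat_lit 0xfe07e00)) e
 (c (nat_lit 0x7f0197f0177f0177f0177f017fb001) e
 (c (nat_lit 0x7f0677f0677f03b7f03b7f03b24161) e
 (c (a (nat_lit 0xfdfa601)) e
 (c (a (nat_lit 0xfdea801)) e
 (c (a (nat_lit 0xfe3d603)) e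
 (c (a (nat_lit 0xfe7d803)) e
 (c (a (nat_lit 0xfdfd603)) e
 (c (a (nat_lit 0xffe4a03)) e
 (c (nat_lit 0x7f6477f6467f6477f6477f647d03c7) e
 (c (nat_lit 0x7f6477f6477f6437f6447f647f2d27) e
 (c (a (nat_lit 0xff40607)) e
 (c (a (nat_lit 0xff2ca07)) e
 (c (nat_lit 0x7ef8d7ef8d7ef767ef8d7ef8d6d90f) e
 (c (a (nat_lit 0x10080c0f)) e
 (c z e
 (c (a (nat_lit 0x1006540f)) e e))))))))))))))))))))))))))))))) Tr.c Tr.e (nat_lit 0) C.t5 C.t6 C.t7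
noncomputable def tt1 : Tr := beta% (fun (c : Nat → Tr → Tr → Tr) (e : Tr) (z : Nat) (a b : Nat → Nat) =>
 (c (a (nat_lit 0x10118c00))
 (c (b (nat_lit 0xff23207)) e
 (c z e
 (c z e
 (c z e
 (c (b (nat_lit 0x102ae60f)) e
 (c (nat_lit 0x827e5827e582711827e5827e5827e5827e506b0f) e
 (c z e
 (c z e
 (c (b (nat_lit 0x103fec13)) e
 (c z e
 (c (b (nat_lit 0x1033be13)) e e)))))))))))
 (c (a (nat_lit 0x101ec400))
 (c z e
 (c z e
 (c z e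
 (c z e
 (c z e
 (c z e
 (c z e
 (c (b (nat_lit 0xfc52413)) e
 (c z e
 (c (b (nat_lit 0x10490413)) e e))))))))))
 (c (a (nat_lit 0x101e4800))
 (c z e
 (c z e
 (c z e
 (c z e
 (c (b (nat_lit 0x10597813)) e
 (c z e
 (c z e
 (c z e
 (c (b (nat_lit 0xf5d9e23)) e e)))))))))
 (c (a (nat_lit 0x101f2c00))
 (c z e
 (c (b (nat_lit 0xffddc11)) e
 (c (b (nat_lit 0xff82a13)) e e)))
 (c (a (nat_lit 0x1016fe01))
 (c (nat_lit 0x7e88d7e7f57e88d7e88d7e88d7e88d7e88d94f13) e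
 (c (nat_lit 0x7e8447e8447e7447e8257e8447e8447e84469e93) e e))
 (c (a (nat_lit 0x1014c401))
 (c (b (nat_lit 0xffc9e13)) e
 (c (b (nat_lit 0x10258a13)) e e))
 (c (a (nat_lit 0x10193401)) e
 (c z e
 (c z e
 (c z e
 (c (a (nat_lit 0x10373003)) e
 (c (a (nat_lit 0x10611803)) e
 (c z e
 (c z e
 (c (a (nat_lit 0xfd4a407)) e
 (c z e
 (c (a (nat_lit 0x10152e0f)) e
 (c (a (nat_lit 0x1015d40f)) e
 (c z e
 (c (a (nat_lit 0x1013960f)) e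
 (c (a (nat_lit 0x100f0411)) e
 (c (nat_lit 0x80c5f80bb280c4f80c5f80c5f80c5fd04d3) e
 (c (nat_lit 0x80b3c80b6b80a9880b3b80b6b80b6b5c613) e
 (c (nat_lit 0x805ae809e1809e1809e1809e1809e1911d3) e
 (c (nat_lit 0x80000800007fd9a800008000080000b2813) e
 (c z e
 (c z e
 (c z e
 (c z e
 (c (nat_lit 0x80000800008000080000800007f9d2abed7) e e))))))))))))))))))))))))))))))) Tr.c Tr.e (nat_lit 0) C.t6 C.t7
noncomputable def tt2 : Tr := beta% (fun (c : Nat → Tr → Tr → Tr) (e : Tr) (z : Nat) (a b : Nat → Nat) =>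
 (c (a (nat_lit 0x101da000))
 (c (b (nat_lit 0x101b4203)) e
 (c z e
 (c z e
 (c (b (nat_lit 0xf7ab807)) e
 (c (nat_lit 0x7e7357e7c67e7c67e7c67e7c67e7c67e7c66a387) e
 (c z e
 (c (b (nat_lit 0xfee080f)) e
 (c (b (nat_lit 0xfc33c0f)) e
 (c z e
 (c (b (nat_lit 0x1069560f)) e
 (c (nat_lit 0x8486684a9284a9284a9284a9284a9284a926e493) e
 (c z e
 (c (b (nat_lit 0xffd3e13)) e
 (c (b (nat_lit 0xfff2813)) e e))))))))))))))
 (c (a (nat_lit 0x101f0600))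
 (c z e
 (c z e
 (c (b (nat_lit 0x104a6807)) e
 (c z e
 (c (b (nat_lit 0xfffba0f)) e
 (c z e
 (c z e
 (c z e
 (c (b (nat_lit 0xfad0213)) e
 (c (b (nat_lit 0x10300e13)) e
 (c (b (nat_lit 0x106ac213)) e e)))))))))))
 (c (a (nat_lit 0x101e8800))
 (c z e
 (c z e
 (c (b (nat_lit 0xff1be0f)) e
 (c z e
 (c z e
 (c z e
 (c z e
 (c z e
 (c z e
 (c (b (nat_lit 0x1057ac13)) e
 (c z e
 (c (b (nat_lit 0xfffa623)) e e))))))))))))
 (c (a (nat_lit 0x1020bc00))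
 (c (b (nat_lit 0x105ba20f)) e
 (c (b (nat_lit 0x1028300f)) e
 (c z e
 (c z e
 (c z e
 (c (b (nat_lit 0xfffc413)) e
 (c z e
 (c (b (nat_lit 0x10905813)) e
 (c z e
 (c z e
 (c (nat_lit 0x800007ffa37ff858000080000800008000027123) e e)))))))))))
 (c (a (nat_lit 0x101f1c00))
 (c z e
 (c z e
 (c z e
 (c (b (nat_lit 0xfa91e13)) e
 (c z e
 (c z e
 (c (b (nat_lit 0x1067d840)) e
 (c (b (nat_lit 0x102a1440)) e e))))))))
 (c (a (nat_lit 0x1012c800))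
 (c (b (nat_lit 0xffe3013)) e
 (c (nat_lit 0x8000080000800007ff428000080000800002f093) e
 (c z e
 (c z e
 (c z e
 (c z e
 (c (b (nat_lit 0x109aaa40)) e e)))))))
 (c (a (nat_lit 0x1015a001))
 (c (b (nat_lit 0x102e2a13)) e
 (c (b (nat_lit 0x102d6813)) e e))
 (c (a (nat_lit 0x10159a01))
 (c (b (nat_lit 0xf95c621)) e
 (c (b (nat_lit 0xf971e21)) e e))
 (c z e
 (c (a (nat_lit 0xffffe01)) e
 (c (a (nat_lit 0xff7e203)) e
 (c (nat_lit 0x80000800007ffd2800008000080000a2d83) e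
 (c (a (nat_lit 0x1027ea03)) e
 (c (a (nat_lit 0x1028f803)) e
 (c z e
 (c z e
 (c (a (nat_lit 0xfffe407)) e
 (c (a (nat_lit 0xfef3607)) e
 (c (a (nat_lit 0x1001180f)) e
 (c z e
 (c z e
 (c (a (nat_lit 0x1025920f)) e
 (c (nat_lit 0x803e9802e380286803e9803e9803e923013) e
 (c (a (nat_lit 0x100f2213)) e
 (c (nat_lit 0x8003e8022480224802248022480224fa353) e
 (c (nat_lit 0x800007ffcc80000800008000080000452d3) e
 (c z e
 (c z e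
 (c z e
 (c z e
 (c (nat_lit 0x80000800008000080000800007fa582ced7) e e)))))))))))))))))))))))))))))))) Tr.c Tr.e (nat_lit 0) C.t6 C.t7
noncomputable def tt3 : Tr := beta% (fun (c : Nat → Tr → Tr → Tr) (e : Tr) (z : Nat) (a b : Nat → Nat) =>
 (c (a (nat_lit 0x10208a00))
 (c (b (nat_lit 0xefa1001)) e
 (c (b (nat_lit 0xfa5a803)) e
 (c (b (nat_lit 0xf56f403)) e
 (c z e
 (c z e
 (c z e
 (c (b (nat_lit 0xf38ae07)) e
 (c (b (nat_lit 0xf5c0a07)) e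
 (c z e
 (c z e
 (c z e
 (c z e
 (c (b (nat_lit 0x10f5180f)) e
 (c (b (nat_lit 0xf9afa13)) e
 (c (b (nat_lit 0xff55e13)) e e)))))))))))))))
 (c (a (nat_lit 0x101f5200))
 (c (b (nat_lit 0xf8b5a03)) e
 (c (b (nat_lit 0xf823403)) e
 (c z e
 (c z e
 (c (nat_lit 0x80000800007fff28000080000800008000013b07) e
 (c (b (nat_lit 0x1036b407)) e
 (c (b (nat_lit 0x10304407)) e
 (c (b (nat_lit 0xfb64e0f)) e
 (c z e
 (c (b (nat_lit 0xfca6c0f)) e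
 (c z e
 (c z e
 (c (b (nat_lit 0x1032f013)) e e)))))))))))))
 (c (a (nat_lit 0x101f7200))
 (c z e
 (c z e
 (c z e
 (c z e
 (c z e
 (c z e
 (c z e
 (c z e
 (c z e
 (c z e
 (c (b (nat_lit 0x1073bc13)) e
 (c z e
 (c (b (nat_lit 0x103ba617)) e
 (c (b (nat_lit 0x10231417)) e
 (c (b (nat_lit 0x102ac017)) e e)))))))))))))))
 (c (a (nat_lit 0x101f2000))
 (c (b (nat_lit 0xfe3bc07)) e
 (c z e
 (c z e
 (c z e
 (c z e
 (c (b (nat_lit 0xfa71c0f)) e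
 (c z e
 (c (b (nat_lit 0xeeaa813)) e
 (c z e
 (c z e
 (c (b (nat_lit 0xf1f4c17)) e
 (c (b (nat_lit 0xf35d817)) e
 (c z e
 (c (nat_lit 0x7fef480000800008000080000800008000072a17) e e))))))))))))))
 (c (a (nat_lit 0x101f9a00))
 (c (b (nat_lit 0xfbbb607)) e
 (c z e
 (c z e
 (c z e
 (c (b (nat_lit 0x10c48c0f)) e
 (c (b (nat_lit 0xfc69613)) e
 (c (b (nat_lit 0x10713813)) e
 (c z e
 (c z e
 (c (b (nat_lit 0xf55ce17)) e e))))))))))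
 (c (a (nat_lit 0x101e8600))
 (c (b (nat_lit 0xffac60f)) e
 (c z e
 (c z e
 (c z e
 (c z e
 (c z e
 (c (b (nat_lit 0x10858617)) e
 (c (b (nat_lit 0x1055b417)) e
 (c (b (nat_lit 0x10ba9817)) e e)))))))))
 (c (a (nat_lit 0x101e6400))
 (c (b (nat_lit 0xffcfa0f)) e
 (c (nat_lit 0x80000800007fed9800008000080000800006e393) e
 (c z e
 (c (b (nat_lit 0x1027b213)) e
 (c z e
 (c z e
 (c (b (nat_lit 0x10584217)) e e)))))))
 (c (a (nat_lit 0x10174c00))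
 (c (nat_lit 0x8000080000800007fef380000800008000010c13) e
 (c (b (nat_lit 0xfd8f013)) e e))
 (c (a (nat_lit 0x101f1001))
 (c (b (nat_lit 0xfd38417)) e
 (c (b (nat_lit 0xf5c5017)) e e))
 (c (a (nat_lit 0x10209c01)) e
 (c (nat_lit 0x81089810898108981052810528105288bc1) e
 (c (a (nat_lit 0xfc5ca01)) e
 (c (a (nat_lit 0x101b9403)) e
 (c (a (nat_lit 0x10381803)) e
 (c (a (nat_lit 0x103b2a03)) e
 (c (a (nat_lit 0x101c5603)) e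
 (c z e
 (c z e
 (c (a (nat_lit 0xffa7007)) e
 (c (a (nat_lit 0xffcc007)) e
 (c z e
 (c (nat_lit 0x7ff12800028000280002800028000284e8f) e
 (c (nat_lit 0x7ff5680000800008000080000800008d38f) e
 (c (a (nat_lit 0x1011460f)) e
 (c (nat_lit 0x805bd807288072880728807288072878113) e
 (c z e
 (c (a (nat_lit 0x1008c413)) e
 (c (nat_lit 0x80b5480ae480b1e80b5480b5480b54ec797) e
 (c (nat_lit 0x80ab380ab380a9c80ab380ab380ab3e9817) e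
 (c z e
 (c (a (nat_lit 0xfff9217)) e e)))))))))))))))))))))))))))))))) Tr.c Tr.e (nat_lit 0) C.t6 C.t7
noncomputable def tt4 : Tr := beta% (fun (c : Nat → Tr → Tr → Tr) (e : Tr) (z : Nat) (a b : Nat → Nat) =>
 (c (a (nat_lit 0x101dc400))
 (c (b (nat_lit 0xfcda801)) e
 (c (b (nat_lit 0xfe35201)) e
 (c (b (nat_lit 0xf818201)) e
 (c (b (nat_lit 0xfc2ac01)) e
 (c (b (nat_lit 0xfc26003)) e
 (c (nat_lit 0x7eb227eb227eb227eb227eb227ea2d7eb2277d03) e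
 (c (b (nat_lit 0xf9ee403)) e
 (c (nat_lit 0x7d2917d2d57d3db7d3db7d3db7d3db7d3dbc9c83) e
 (c (nat_lit 0x7eaed7e9fb7ea977eaed7eaed7eaed7eaed1f807) e
 (c z e
 (c z e
 (c (b (nat_lit 0xf8ef007)) e
 (c (b (nat_lit 0xe84460f)) e
 (c (b (nat_lit 0xf58000f)) e
 (c (b (nat_lit 0xfdb240f)) e
 (c z e
 (c (b (nat_lit 0xfefda13)) e
 (c (b (nat_lit 0xfbcb013)) e
 (c z e
 (c (b (nat_lit 0xfec5017)) e
 (c z e
 (c (b (nat_lit 0x1034ec17)) e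
 (c z e
 (c z e
 (c (nat_lit 0x80000800008000080000800007ffce800004389f) e e)))))))))))))))))))))))))
 (c (a (nat_lit 0x10200800))
 (c (b (nat_lit 0xfc4f601)) e
 (c (b (nat_lit 0xf96be01)) e
 (c (b (nat_lit 0xfbb8603)) e
 (c (b (nat_lit 0xfe26603)) e
 (c z e
 (c z e
 (c z e
 (c (b (nat_lit 0xfeae807)) e
 (c z e
 (c z e
 (c z e
 (c (b (nat_lit 0xffffc0f)) e
 (c (b (nat_lit 0xfce3e0f)) e
 (c z e
 (c z e
 (c (b (nat_lit 0xff60013)) e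
 (c z e
 (c z e
 (c z e
 (c z e
 (c (b (nat_lit 0xff8c827)) e e)))))))))))))))))))))
 (c (a (nat_lit 0x101ede00))
 (c (b (nat_lit 0xef7ba03)) e
 (c (b (nat_lit 0xf195003)) e
 (c z e
 (c (b (nat_lit 0x101e4403)) e
 (c z e
 (c z e
 (c z e
 (c z e
 (c z e
 (c z e
 (c z e
 (c (b (nat_lit 0xfc9640f)) e
 (c z e
 (c (b (nat_lit 0x100ebc13)) e
 (c (b (nat_lit 0x104a9a17)) e
 (c (b (nat_lit 0x10469817)) e
 (c (b (nat_lit 0x10385017)) e e)))))))))))))))))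
 (c (a (nat_lit 0x101ee200))
 (c (b (nat_lit 0xf657c03)) e
 (c z e
 (c z e
 (c (nat_lit 0x80000800007ffca800008000080000800009f707) e
 (c (b (nat_lit 0x1028b807)) e
 (c (b (nat_lit 0x1017dc07)) e
 (c (b (nat_lit 0xfa81a0f)) e
 (c z e
 (c z e
 (c (b (nat_lit 0x100a260f)) e
 (c z e
 (c z e
 (c z e
 (c z e
 (c (b (nat_lit 0x10105217)) e e)))))))))))))))
 (c (a (nat_lit 0x101db600))
 (c z e
 (c z e
 (c z e
 (c (b (nat_lit 0xfac3007)) e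
 (c (b (nat_lit 0xfc7940f)) e
 (c (b (nat_lit 0xf51f20f)) e
 (c (b (nat_lit 0xfa5820f)) e
 (c (b (nat_lit 0xfd9c40f)) e
 (c (b (nat_lit 0x10bd7c13)) e e)))))))))
 (c (a (nat_lit 0x101d8800))
 (c (b (nat_lit 0xfc19407)) e
 (c z e
 (c z e
 (c (b (nat_lit 0x10337a0f)) e
 (c (b (nat_lit 0x103d400f)) e
 (c z e
 (c z e
 (c z e
 (c z e
 (c z e
 (c z e
 (c z e
 (c (b (nat_lit 0x10239623)) e e)))))))))))))
 (c (a (nat_lit 0x101e2c00))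
 (c (b (nat_lit 0xff8400f)) e
 (c z e
 (c z e
 (c z e
 (c z e
 (c z e
 (c (b (nat_lit 0x104ab017)) e
 (c (b (nat_lit 0x10977417)) e
 (c (b (nat_lit 0x10a62417)) e e)))))))))
 (c (a (nat_lit 0x101ebc00))
 (c (b (nat_lit 0x104d640f)) e
 (c (b (nat_lit 0x1072e60f)) e
 (c (b (nat_lit 0x1020de13)) e
 (c z e
 (c (b (nat_lit 0x10430417)) e
 (c (b (nat_lit 0x103a8617)) e
 (c (b (nat_lit 0x10308817)) e e)))))))
 (c (a (nat_lit 0x101dfe00))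
 (c (b (nat_lit 0x103ed413)) e
 (c z e
 (c (b (nat_lit 0x10224017)) e
 (c z e
 (c z e
 (c (b (nat_lit 0x10592617)) e e))))))
 (c (a (nat_lit 0x101e8800))
 (c z e
 (c (b (nat_lit 0xf99d617)) e
 (c z e
 (c (b (nat_lit 0xff15a17)) e
 (c (b (nat_lit 0x1067f221)) e e)))))
 (c (a (nat_lit 0x101fc801))
 (c z e
 (c (b (nat_lit 0xfffee17)) e e))
 (c (a (nat_lit 0x101e1e01)) e
 (c (a (nat_lit 0x101eac01)) e
 (c (a (nat_lit 0x101ae001)) e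
 (c (a (nat_lit 0x101d8803)) e
 (c (a (nat_lit 0x1036f803)) e
 (c (a (nat_lit 0x10349a03)) e
 (c (a (nat_lit 0x102c5c03)) e
 (c (a (nat_lit 0x1005a207)) e
 (c z e
 (c z e
 (c z e
 (c (a (nat_lit 0xff7a20f)) e
 (c (a (nat_lit 0xff3060f)) e
 (c z e
 (c (nat_lit 0x8103081165811658116581165811656298f) e
 (c (nat_lit 0x8013c80218802d7802d7802d7802d7ac613) e
 (c (nat_lit 0x7ffb07ff838000080000800008000073613) e
 (c (nat_lit 0x807f7807b880784807f7807f7807f7eee57) e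
 (c (nat_lit 0x807e3807e3807e3807d6807e3807e3e5097) e e))))))))))))))))))))))))))))))) Tr.c Tr.e (nat_lit 0) C.t6 C.t7
noncomputable def tt5 : Tr := beta% (fun (c : Nat → Tr → Tr → Tr) (e : Tr) (z : Nat) (a b : Nat → Nat) =>
 (c (a (nat_lit 0x101ed000))
 (c (b (nat_lit 0xfde5600)) e
 (c (b (nat_lit 0xfe21601)) e
 (c (b (nat_lit 0xfe23201)) e
 (c (b (nat_lit 0xfe47c01)) e
 (c (b (nat_lit 0xfe07601)) e
 (c (nat_lit 0x7e98d7e98d7e98d7e98d7e5747e98d7e98db9983) e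
 (c (b (nat_lit 0xfdc1203)) e
 (c z e
 (c z e
 (c z e
 (c z e
 (c (b (nat_lit 0xfa01407)) e
 (c (b (nat_lit 0xf618a07)) e
 (c (b (nat_lit 0xf87020f)) e
 (c z e
 (c (b (nat_lit 0xfd46a0f)) e e))))))))))))))))
 (c (a (nat_lit 0x101f0e00))
 (c (b (nat_lit 0xfe2ba01)) e
 (c (b (nat_lit 0xfd0b201)) e
 (c (b (nat_lit 0xfe3e601)) e
 (c (b (nat_lit 0xfcc4403)) e
 (c (b (nat_lit 0xfd87e03)) e
 (c z e
 (c z e
 (c z e
 (c (b (nat_lit 0xffffc07)) e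
 (c (b (nat_lit 0xfb59207)) e
 (c z e
 (c (b (nat_lit 0xfda060f)) e
 (c z e
 (c z e
 (c z e
 (c z e
 (c (b (nat_lit 0x1036b417)) e
 (c (b (nat_lit 0x10251417)) e
 (c (b (nat_lit 0x10527a17)) e
 (c z e
 (c z e
 (c (b (nat_lit 0xfffa027)) e e))))))))))))))))))))))
 (c (a (nat_lit 0x101ff800))
 (c (b (nat_lit 0xfe25e01)) e
 (c (b (nat_lit 0xfcfa003)) e
 (c (b (nat_lit 0xf952c03)) e
 (c (nat_lit 0x8000080000800007ff04800008000080000c9783) e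
 (c z e
 (c z e
 (c (b (nat_lit 0xfdc5a07)) e
 (c z e
 (c z e
 (c z e
 (c z e
 (c z e
 (c z e
 (c z e
 (c (b (nat_lit 0xffff217)) e
 (c z e
 (c (b (nat_lit 0xfffdc17)) e
 (c (b (nat_lit 0xffed017)) e
 (c z e
 (c z e
 (c (nat_lit 0x80000800008000080000800007fd5a80000e161f) e e)))))))))))))))))))))
 (c (a (nat_lit 0x101e5800))
 (c (b (nat_lit 0xff1d003)) e
 (c (b (nat_lit 0xfc5be03)) e
 (c z e
 (c (nat_lit 0x800007ffc07ffee80000800008000080000ec307) e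
 (c z e
 (c z e
 (c (b (nat_lit 0xfe77007)) e
 (c (b (nat_lit 0xf92980f)) e
 (c (b (nat_lit 0xf9e0e0f)) e
 (c z e
 (c z e
 (c z e
 (c z e
 (c (b (nat_lit 0xfdbe417)) e
 (c (b (nat_lit 0xfffae17)) e
 (c (b (nat_lit 0xffe7417)) e
 (c z e
 (c z e
 (c z e
 (c (nat_lit 0x80000800008000080000800007fc9e800007641f) e e))))))))))))))))))))
 (c (a (nat_lit 0x101e7a00))
 (c (b (nat_lit 0xfe2c203)) e
 (c z e
 (c z e
 (c (b (nat_lit 0x10215007)) e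
 (c (b (nat_lit 0x102e4e07)) e
 (c (b (nat_lit 0xfa2820f)) e
 (c (b (nat_lit 0xfa83a0f)) e
 (c z e
 (c (b (nat_lit 0x10281e0f)) e
 (c (b (nat_lit 0xf839e13)) e
 (c (b (nat_lit 0xf9c8417)) e
 (c (b (nat_lit 0xffee017)) e e))))))))))))
 (c (a (nat_lit 0x101f1200))
 (c (b (nat_lit 0x101a0e07)) e
 (c z e
 (c (b (nat_lit 0x100fbe07)) e
 (c z e
 (c (b (nat_lit 0xf97ea0f)) e
 (c (b (nat_lit 0xf8d820f)) e
 (c z e
 (c z e
 (c (b (nat_lit 0x10a3fe17)) e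
 (c (b (nat_lit 0x1024e817)) e
 (c z e
 (c z e
 (c (b (nat_lit 0x103ce823)) e
 (c (b (nat_lit 0x101d7823)) e e))))))))))))))
 (c (a (nat_lit 0x101f7000))
 (c (b (nat_lit 0xfe19007)) e
 (c (nat_lit 0x800007fe1c800007ffe98000080000800001400f) e
 (c (nat_lit 0x80000800007fe8b80000800008000080000e000f) e
 (c (b (nat_lit 0x101f160f)) e
 (c z e
 (c z e
 (c z e
 (c (b (nat_lit 0x10a96017)) e
 (c (b (nat_lit 0x103b6017)) e e)))))))))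
 (c (a (nat_lit 0x1020a000))
 (c (b (nat_lit 0xff78a0f)) e
 (c z e
 (c (b (nat_lit 0x106bb80f)) e
 (c z e
 (c (b (nat_lit 0x10286a17)) e
 (c (b (nat_lit 0xfd13817)) e e))))))
 (c (a (nat_lit 0x101e7c00))
 (c z e
 (c (b (nat_lit 0x106e1613)) e
 (c z e
 (c z e
 (c (b (nat_lit 0xfb99017)) e e)))))
 (c (a (nat_lit 0x101e7e00))
 (c (b (nat_lit 0xfbdd217)) e
 (c z e
 (c (b (nat_lit 0x10228c17)) e
 (c (b (nat_lit 0xf973217)) e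
 (c (b (nat_lit 0x10efce21)) e e)))))
 (c (a (nat_lit 0x101de400)) e
 (c (a (nat_lit 0x10205401)) e
 (c (a (nat_lit 0x101e7401)) e
 (c (a (nat_lit 0x10133001))
 (c z e
 (c (nat_lit 0x8000080000800008000080000800007ffaf13f20) e e))
 (c (a (nat_lit 0x1014fa01)) e
 (c (a (nat_lit 0x1011a203)) e
 (c (a (nat_lit 0x1018ec03)) e
 (c (a (nat_lit 0x1028e803)) e
 (c (a (nat_lit 0x1020b603)) e
 (c (a (nat_lit 0x100f4007)) e
 (c (a (nat_lit 0x1010fe07)) e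
 (c (a (nat_lit 0x10087207)) e
 (c z e
 (c (a (nat_lit 0x1003900f)) e
 (c z e
 (c (nat_lit 0x7fe728000080000800008000080000aec8f) e
 (c z e
 (c z e
 (c (nat_lit 0x7ff9e800007ffe5800008000080000f6817) e
 (c (nat_lit 0x800007ff95800007ffe380000800002f5d7) e e))))))))))))))))))))))))))))))) Tr.c Tr.e (nat_lit 0) C.t6 C.t7
noncomputable def tt6 : Tr := beta% (fun (c : Nat → Tr → Tr → Tr) (e : Tr) (z : Nat) (a b : Nat → Nat) =>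
 (c (a (nat_lit 0x101d0400))
 (c (b (nat_lit 0xfe82200)) e
 (c (b (nat_lit 0xfe49a00)) e
 (c (b (nat_lit 0xfe58c01)) e
 (c (b (nat_lit 0xfe51601)) e
 (c (b (nat_lit 0xfe7ac01)) e
 (c (b (nat_lit 0xfb72a01)) e
 (c (b (nat_lit 0xfda2403)) e
 (c (b (nat_lit 0xfd6c403)) e
 (c z e
 (c (b (nat_lit 0xff30403)) e
 (c z e
 (c z e
 (c z e
 (c (b (nat_lit 0x100b6a07)) e
 (c z e
 (c z e
 (c z e
 (c z e
 (c z e
 (c (b (nat_lit 0x100cc017)) e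
 (c (nat_lit 0x800007fd9f800008000080000800008000004297) e
 (c (b (nat_lit 0xfffa617)) e e))))))))))))))))))))))
 (c (a (nat_lit 0x101ed600))
 (c (b (nat_lit 0xfe9a601)) e
 (c (b (nat_lit 0xfcd5e01)) e
 (c (b (nat_lit 0xfe38001)) e
 (c (b (nat_lit 0xfe1fa01)) e
 (c (b (nat_lit 0xfd92203)) e
 (c (b (nat_lit 0xfbc6803)) e
 (c (b (nat_lit 0xfe7c803)) e
 (c z e
 (c (b (nat_lit 0xfebfe07)) e
 (c z e
 (c (b (nat_lit 0xfa56207)) e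
 (c (b (nat_lit 0xf9c6e07)) e
 (c (b (nat_lit 0xfa0200f)) e
 (c z e
 (c (b (nat_lit 0x10379e0f)) e
 (c z e
 (c z e
 (c z e
 (c z e
 (c z e
 (c z e
 (c z e
 (c (b (nat_lit 0xffd3427)) e e)))))))))))))))))))))))
 (c (a (nat_lit 0x101e4c00))
 (c (nat_lit 0x7e9f37e9f37e4477e9f37e9f37e9f37e9f338001) e
 (c (b (nat_lit 0xfcb2a01)) e
 (c (b (nat_lit 0xfd31e03)) e
 (c (b (nat_lit 0xfcb4a03)) e
 (c (nat_lit 0x7d90b7dcca7dcca7dcca7dcca7dcca7dcca7f483) e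
 (c z e
 (c z e
 (c z e
 (c z e
 (c z e
 (c z e
 (c (b (nat_lit 0xfaa860f)) e
 (c (b (nat_lit 0x10196a0f)) e
 (c z e
 (c z e
 (c (b (nat_lit 0xfec7017)) e
 (c (b (nat_lit 0xfffc617)) e
 (c (b (nat_lit 0xffb7a17)) e e))))))))))))))))))
 (c (a (nat_lit 0x101ef800))
 (c (b (nat_lit 0xfecd403)) e
 (c (b (nat_lit 0xfd79203)) e
 (c z e
 (c z e
 (c (nat_lit 0x7fa677f9d67fa227fa677fa677fa677fa6776707) e
 (c (nat_lit 0x80000800007ff2c7ffbc80000800008000006b87) e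
 (c (b (nat_lit 0xfea3a07)) e
 (c (b (nat_lit 0x1021fc07)) e
 (c z e
 (c z e
 (c (b (nat_lit 0xfec0e0f)) e
 (c z e
 (c z e
 (c (b (nat_lit 0x1038b217)) e
 (c (nat_lit 0x8072380723807238072380723806038072358597) e
 (c (b (nat_lit 0xffa7617)) e
 (c (b (nat_lit 0xfd28c23)) e e)))))))))))))))))
 (c (a (nat_lit 0x101e0c00))
 (c (b (nat_lit 0xfde1003)) e
 (c z e
 (c z e
 (c (nat_lit 0x80000800007ff577ff8e80000800008000023307) e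
 (c (nat_lit 0x8000080000800007ffc88000080000800004bd87) e
 (c (b (nat_lit 0x10295007)) e
 (c z e
 (c z e
 (c (b (nat_lit 0xf36b00f)) e
 (c z e
 (c (b (nat_lit 0xfc63a17)) e
 (c (b (nat_lit 0xfb58017)) e
 (c z e
 (c z e
 (c (b (nat_lit 0xf9f0023)) e
 (c (b (nat_lit 0xfbeb623)) e e))))))))))))))))
 (c (a (nat_lit 0x101e4e00))
 (c (b (nat_lit 0xeafbe07)) e
 (c (nat_lit 0x7a62e7a62e7a5af7a62e7a62e7a62e7a62ef4907) e
 (c z e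
 (c (b (nat_lit 0x102bd607)) e
 (c z e
 (c z e
 (c z e
 (c z e
 (c z e
 (c (b (nat_lit 0xf96be17)) e
 (c z e
 (c z e
 (c (b (nat_lit 0xfc81023)) e e)))))))))))))
 (c (a (nat_lit 0x101fd400))
 (c (nat_lit 0x80000800007ff448000080000800008000077d87) e
 (c (nat_lit 0x8000080000800007ffd6800008000080000b9707) e
 (c z e
 (c (b (nat_lit 0xf8b7c0f)) e
 (c z e
 (c (b (nat_lit 0x108f4c0f)) e
 (c z e
 (c (b (nat_lit 0x10383c17)) e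
 (c (b (nat_lit 0x105ed617)) e
 (c (b (nat_lit 0xfe32617)) e e))))))))))
 (c (a (nat_lit 0x10208400))
 (c (b (nat_lit 0xffe640f)) e
 (c (nat_lit 0x7f5127f5127f5127f4177f5127f5127f5126388f) e
 (c (b (nat_lit 0xfedf40f)) e
 (c (b (nat_lit 0x1026820f)) e
 (c z e
 (c z e
 (c z e
 (c z e
 (c (b (nat_lit 0xffd8621)) e e)))))))))
 (c (a (nat_lit 0x101ec800))
 (c z e
 (c z e
 (c z e
 (c z e
 (c z e
 (c z e
 (c (b (nat_lit 0xfc24e21)) e e)))))))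
 (c (a (nat_lit 0x101d0e00))
 (c (b (nat_lit 0xfc10017)) e
 (c (b (nat_lit 0xf51da17)) e
 (c z e
 (c z e
 (c (b (nat_lit 0x1082ae21)) e
 (c (b (nat_lit 0xfffc421)) e e))))))
 (c (a (nat_lit 0x101e0a00)) e
 (c (a (nat_lit 0x101c6e00)) e
 (c (a (nat_lit 0x101cc201)) e
 (c (a (nat_lit 0x10128801)) e
 (c (a (nat_lit 0x101fc801)) e
 (c (a (nat_lit 0x10164801)) e
 (c (a (nat_lit 0x100c9803)) e
 (c (a (nat_lit 0x101e5003)) e
 (c (a (nat_lit 0x101b6e03)) e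
 (c (a (nat_lit 0x10175a03)) e
 (c (a (nat_lit 0x100e4407)) e
 (c (a (nat_lit 0x1008bc07)) e
 (c z e
 (c z e
 (c (a (nat_lit 0x1015120f)) e
 (c (nat_lit 0x807f6809d5809d5809d5809d5809d574d8f) e
 (c (nat_lit 0x7feef80000800008000080000800003130f) e
 (c (nat_lit 0x7fa0b7f8d97fa0b7fa0b7fa0b7fa0b5620f) e
 (c (nat_lit 0x80dfc80dfc80dda80dfc80dfc80dfc09717) e
 (c (a (nat_lit 0x101c1c17)) e
 (c (nat_lit 0x7ffd77ffd78000080000800008000031497) e e)))))))))))))))))))))))))))))))) Tr.c Tr.e (nat_lit 0) C.t6 C.t7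
noncomputable def tt7 : Tr := beta% (fun (c : Nat → Tr → Tr → Tr) (e : Tr) (z : Nat) (a b : Nat → Nat) =>
 (c (a (nat_lit 0x101f9200))
 (c (b (nat_lit 0xfcb8600)) e
 (c (b (nat_lit 0xfe24400)) e
 (c (b (nat_lit 0xfe6d200)) e
 (c (b (nat_lit 0xfd98800)) e
 (c (b (nat_lit 0xfd27e00)) e
 (c (b (nat_lit 0xfe19400)) e
 (c (b (nat_lit 0xfe45201)) e
 (c (b (nat_lit 0xfb05a01)) e
 (c (nat_lit 0x7ef297ef5a7ef5a7ef5a7ef5a7ef5a7ef5a4d001) e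
 (c (nat_lit 0x7ecaf7ecaf7ecaf7eb737ecaf7ecaf7ecafbdc81) e
 (c (b (nat_lit 0xfd6dc03)) e
 (c (b (nat_lit 0xfde7a03)) e
 (c (b (nat_lit 0xfcfde03)) e
 (c z e
 (c (b (nat_lit 0xfc66207)) e
 (c (b (nat_lit 0xf940c07)) e
 (c (b (nat_lit 0xfec2007)) e
 (c (b (nat_lit 0xfeb8207)) e
 (c z e
 (c (b (nat_lit 0xfaa0c0f)) e
 (c (b (nat_lit 0xff1940f)) e
 (c z e
 (c (b (nat_lit 0xfff1c17)) e
 (c z e
 (c (b (nat_lit 0x1023e217)) e
 (c (b (nat_lit 0xffcd817)) e e))))))))))))))))))))))))))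
 (c (a (nat_lit 0x101eac00))
 (c (b (nat_lit 0xfe37200)) e
 (c (b (nat_lit 0xfe51e00)) e
 (c (b (nat_lit 0xfe38e00)) e
 (c (b (nat_lit 0xfe25e00)) e
 (c (b (nat_lit 0xfe3fc01)) e
 (c (b (nat_lit 0xfe51801)) e
 (c (b (nat_lit 0xfe3ce01)) e
 (c (b (nat_lit 0xfd46601)) e
 (c (b (nat_lit 0xfdb5c03)) e
 (c (b (nat_lit 0xfd8b803)) e
 (c (b (nat_lit 0xfe2ae03)) e
 (c (b (nat_lit 0xfd4f603)) e
 (c z e
 (c z e
 (c z e
 (c (b (nat_lit 0xff24a07)) e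
 (c (b (nat_lit 0xfda400f)) e
 (c z e
 (c z e
 (c z e
 (c (b (nat_lit 0xffef817)) e
 (c z e
 (c (b (nat_lit 0x10159e17)) e
 (c (b (nat_lit 0x10149c17)) e e)))))))))))))))))))))))) tt6))) Tr.c Tr.e (nat_lit 0) C.t6 C.t7
noncomputable def tt8 : Tr := beta% (fun (c : Nat → Tr → Tr → Tr) (e : Tr) (z : Nat) (a b : Nat → Nat) =>
 (c (a (nat_lit 0x10203200))
 (c (b (nat_lit 0xfba3e01)) e
 (c (b (nat_lit 0xfc6ec01)) e
 (c (b (nat_lit 0xfa8fc01)) e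
 (c (b (nat_lit 0xfd4e203)) e
 (c (b (nat_lit 0xfc28203)) e
 (c (b (nat_lit 0xfe69e03)) e
 (c (b (nat_lit 0xfddf803)) e
 (c z e
 (c (b (nat_lit 0xfffc407)) e
 (c z e
 (c z e
 (c z e
 (c z e
 (c z e
 (c z e
 (c z e
 (c (b (nat_lit 0xffd0c17)) e
 (c z e
 (c (b (nat_lit 0xff37a1f)) e
 (c (nat_lit 0x7fb6e7ffcf7ffcf7ffcf7ffcf7ffcf7ffcf6181f) e e))))))))))))))))))))
 (c (a (nat_lit 0x10201c00))
 (c (b (nat_lit 0xfddc001)) e
 (c (b (nat_lit 0xfa52a03)) e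
 (c (b (nat_lit 0xfc98403)) e
 (c (b (nat_lit 0xfa0c403)) e
 (c (nat_lit 0x7df5a7dcfe7df5a7df5a7df5a7df5a7df5abef03) e
 (c z e
 (c z e
 (c (b (nat_lit 0x10287207)) e
 (c z e
 (c z e
 (c (b (nat_lit 0xfb5940f)) e
 (c (b (nat_lit 0x1007b40f)) e
 (c z e
 (c (b (nat_lit 0xffff817)) e
 (c z e
 (c (b (nat_lit 0xfea6817)) e
 (c (b (nat_lit 0xfc1721f)) e
 (c (b (nat_lit 0xfc9061f)) e
 (c (b (nat_lit 0xffed21f)) e
 (c (b (nat_lit 0xffdfc1f)) e e))))))))))))))))))))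
 (c (a (nat_lit 0x10204c00))
 (c (nat_lit 0x7f9237f9237f78c7f9237f9237f9237f92395483) e
 (c (b (nat_lit 0xfe90e03)) e
 (c (b (nat_lit 0xfde2603)) e
 (c z e
 (c (nat_lit 0x8000080000800007ffb4800008000080000f0407) e
 (c z e
 (c z e
 (c z e
 (c z e
 (c z e
 (c (b (nat_lit 0x1057de0f)) e
 (c z e
 (c z e
 (c z e
 (c (b (nat_lit 0xfd34c1f)) e
 (c (b (nat_lit 0xfc1ee1f)) e
 (c z e
 (c (b (nat_lit 0xfffba1f)) e e))))))))))))))))))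
 (c (a (nat_lit 0x10211400))
 (c (b (nat_lit 0x1033ae03)) e
 (c z e
 (c z e
 (c z e
 (c (b (nat_lit 0x10489607)) e
 (c z e
 (c z e
 (c z e
 (c z e
 (c (b (nat_lit 0xfbcd017)) e
 (c z e
 (c (b (nat_lit 0x10082817)) e
 (c (b (nat_lit 0xfc1501f)) e e)))))))))))))
 (c (a (nat_lit 0x10213c00))
 (c (nat_lit 0x80000800007fca180000800008000080000eef07) e
 (c z e
 (c (b (nat_lit 0x101cf607)) e
 (c (b (nat_lit 0x103ab00f)) e
 (c (nat_lit 0x80000800007fe26800008000080000800002fa0f) e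
 (c (b (nat_lit 0x1032b20f)) e
 (c z e
 (c z e
 (c (b (nat_lit 0x104da017)) e
 (c (b (nat_lit 0xfffa417)) e
 (c (b (nat_lit 0x100ec81f)) e
 (c z e
 (c (b (nat_lit 0xffda21f)) e
 (c (b (nat_lit 0xfffbc1f)) e e))))))))))))))
 (c (a (nat_lit 0x1020f200))
 (c z e
 (c (b (nat_lit 0xff5a20f)) e
 (c (b (nat_lit 0xfffbc0f)) e
 (c z e
 (c z e
 (c z e
 (c (b (nat_lit 0xfbf5c17)) e
 (c z e
 (c (b (nat_lit 0xffa001f)) e e)))))))))
 (c (a (nat_lit 0x1020be00))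
 (c z e
 (c z e
 (c z e
 (c (b (nat_lit 0xfdff217)) e
 (c z e
 (c z e
 (c (b (nat_lit 0xfb9f01f)) e
 (c (nat_lit 0x800008000080000800007fef27ff2b800008391f) e
 (c z e
 (c (b (nat_lit 0xfff5c1f)) e e))))))))))
 (c (a (nat_lit 0x101f0c00))
 (c z e
 (c (b (nat_lit 0xfdb0217)) e
 (c z e
 (c z e
 (c z e
 (c (nat_lit 0x800008000080000800007fe1c800008000015d9f) e
 (c (b (nat_lit 0xffd8e1f)) e e)))))))
 (c (a (nat_lit 0x10202e00))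
 (c (b (nat_lit 0xfe7fc17)) e
 (c z e
 (c z e
 (c z e
 (c z e
 (c (nat_lit 0x8000080000800007fff58000080000800006f11f) e e))))))
 (c (a (nat_lit 0x10236600))
 (c z e
 (c z e
 (c z e
 (c z e
 (c z e
 (c z e
 (c (nat_lit 0x8000080000800008000080000800007fc9902320) e e)))))))
 (c (a (nat_lit 0x101f2c00))
 (c z e
 (c z e
 (c z e
 (c z e
 (c z e
 (c (nat_lit 0x8000080000800008000080000800007ff3fe9b20) e e))))))
 (c (a (nat_lit 0x10146c01)) e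
 (c (a (nat_lit 0x1020f601)) e
 (c (a (nat_lit 0x101ce201)) e
 (c (a (nat_lit 0x1015fc01)) e
 (c (a (nat_lit 0x1017da03)) e
 (c (a (nat_lit 0x1019cc03)) e
 (c (a (nat_lit 0x101c3e03)) e
 (c (a (nat_lit 0x101c0a03)) e
 (c (a (nat_lit 0x10109e07)) e
 (c (a (nat_lit 0x1010c207)) e
 (c (a (nat_lit 0xfe24e07)) e
 (c (a (nat_lit 0xfe90807)) e
 (c (a (nat_lit 0x101fcc0f)) e
 (c (a (nat_lit 0x1028720f)) e
 (c z e
 (c z e
 (c (a (nat_lit 0xff7ae17)) e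
 (c (a (nat_lit 0xffb2217)) e
 (c (a (nat_lit 0xffc2217)) e
 (c (a (nat_lit 0x100e201f)) e
 (c z e
 (c z e
 (c (a (nat_lit 0x10098a1f)) e e))))))))))))))))))))))))))))))))))) Tr.c Tr.e (nat_lit 0) C.t6 C.t7
noncomputable def tt9 : Tr := beta% (fun (c : Nat → Tr → Tr → Tr) (e : Tr) (z : Nat) (a b : Nat → Nat) =>
 (c (a (nat_lit 0x10217400))
 (c (b (nat_lit 0xfd2be00)) e
 (c (b (nat_lit 0xfde7000)) e
 (c (b (nat_lit 0xfe6f000)) e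
 (c (b (nat_lit 0xfde3c00)) e
 (c (b (nat_lit 0xfdec800)) e
 (c (b (nat_lit 0xfded800)) e
 (c (b (nat_lit 0xfdeae00)) e
 (c (b (nat_lit 0xfdb1a00)) e
 (c (b (nat_lit 0xfdb4200)) e
 (c (b (nat_lit 0xfd4ba01)) e
 (c (b (nat_lit 0xfdc5601)) e
 (c (b (nat_lit 0xfdd8201)) e
 (c (b (nat_lit 0xfd54001)) e
 (c (b (nat_lit 0xfdce803)) e
 (c (b (nat_lit 0xfa08203)) e
 (c (b (nat_lit 0xfc56e03)) e
 (c (b (nat_lit 0xfb6b803)) e
 (c z e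
 (c z e
 (c (b (nat_lit 0xfde4407)) e
 (c (b (nat_lit 0xfec9607)) e
 (c z e
 (c z e
 (c (b (nat_lit 0xffdce0f)) e
 (c (b (nat_lit 0xfe8f20f)) e
 (c z e
 (c (b (nat_lit 0x100c7017)) e
 (c z e
 (c (b (nat_lit 0xfd8061f)) e
 (c (b (nat_lit 0xfd4b21f)) e
 (c z e
 (c (b (nat_lit 0xff46e1f)) e e))))))))))))))))))))))))))))))))
 (c (a (nat_lit 0x101fb000))
 (c (b (nat_lit 0xfdaca00)) e
 (c (b (nat_lit 0xfe51800)) e
 (c (b (nat_lit 0xfe4b400)) e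
 (c (b (nat_lit 0xfe2fc00)) e
 (c (b (nat_lit 0xfd94600)) e
 (c (b (nat_lit 0xfddc600)) e
 (c (b (nat_lit 0xfe33a00)) e
 (c (b (nat_lit 0xfdd6001)) e
 (c (b (nat_lit 0xfdf2a01)) e
 (c (b (nat_lit 0xfe04e01)) e
 (c (b (nat_lit 0xfde8801)) e
 (c (b (nat_lit 0xfcf2a03)) e
 (c (b (nat_lit 0xfdc4203)) e
 (c (b (nat_lit 0xfd97203)) e
 (c (b (nat_lit 0xfe90403)) e
 (c (b (nat_lit 0xf8cb807)) e
 (c (b (nat_lit 0xfde1607)) e
 (c (b (nat_lit 0xfde0e07)) e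
 (c (b (nat_lit 0xff55c07)) e
 (c z e
 (c z e
 (c z e
 (c (b (nat_lit 0x10082c0f)) e
 (c (b (nat_lit 0x1015d817)) e
 (c (b (nat_lit 0x101ee417)) e
 (c z e
 (c z e
 (c (b (nat_lit 0xfc4d01f)) e e))))))))))))))))))))))))))))
 (c (a (nat_lit 0x101c5a00))
 (c (b (nat_lit 0xfe67e00)) e
 (c (b (nat_lit 0xfe4c200)) e
 (c (b (nat_lit 0xfe55800)) e
 (c (b (nat_lit 0xfe24200)) e
 (c (b (nat_lit 0xfe43c00)) e
 (c (b (nat_lit 0xfe57c01)) e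
 (c (b (nat_lit 0xfe45801)) e
 (c (b (nat_lit 0xfe43201)) e
 (c (b (nat_lit 0xfe1fe01)) e
 (c (b (nat_lit 0xfdbf603)) e
 (c (b (nat_lit 0xfe56203)) e
 (c (b (nat_lit 0xfcc8e03)) e
 (c z e
 (c (b (nat_lit 0xfc90007)) e
 (c z e
 (c (b (nat_lit 0xfeee807)) e
 (c (b (nat_lit 0xfca7407)) e e)))))))))))))))))
 (c (a (nat_lit 0x101eb200))
 (c (b (nat_lit 0xfe61400)) e
 (c (b (nat_lit 0xfe21400)) e
 (c (b (nat_lit 0xfe17a00)) e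
 (c (b (nat_lit 0xfe40801)) e
 (c (b (nat_lit 0xfe51c01)) e
 (c (b (nat_lit 0xfe42801)) e
 (c (b (nat_lit 0xfcf1e01)) e
 (c (b (nat_lit 0xfd8ac03)) e
 (c (nat_lit 0x7ed847ed847ed847ed847ed847eadf7ed841c103) e
 (c (b (nat_lit 0xfe8dc03)) e
 (c (b (nat_lit 0xfd2be03)) e
 (c z e
 (c (b (nat_lit 0x102c1807)) e
 (c (b (nat_lit 0xfed3007)) e
 (c z e
 (c (b (nat_lit 0xfb4aa0f)) e
 (c z e
 (c z e
 (c (b (nat_lit 0xffffc0f)) e
 (c z e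
 (c z e
 (c z e
 (c (b (nat_lit 0x101fca1f)) e
 (c (b (nat_lit 0x101b341f)) e
 (c z e
 (c (b (nat_lit 0xffd8a1f)) e e))))))))))))))))))))))))))
 (c (a (nat_lit 0x10204200))
 (c (b (nat_lit 0xfdef000)) e
 (c (b (nat_lit 0xfcfbe01)) e
 (c (b (nat_lit 0xfe1d201)) e
 (c (b (nat_lit 0xfe20a01)) e
 (c (b (nat_lit 0xfb14401)) e
 (c (b (nat_lit 0xfe00803)) e
 (c (nat_lit 0x7f2447f2447f2447f1417f2447f2447f17639703) e
 (c (b (nat_lit 0xfe60e03)) e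
 (c z e
 (c z e
 (c (b (nat_lit 0xfff8807)) e
 (c (b (nat_lit 0x107d5207)) e
 (c z e
 (c (b (nat_lit 0xfe8da0f)) e
 (c (b (nat_lit 0xfb79c0f)) e
 (c (b (nat_lit 0x100ffe0f)) e
 (c z e
 (c (b (nat_lit 0x10153417)) e
 (c z e
 (c z e
 (c (b (nat_lit 0xffdfa1f)) e
 (c z e
 (c z e
 (c (nat_lit 0x800007feaf7ffe580000800008000080000e0f9f) e e)))))))))))))))))))))))) tt8)))))) Tr.c Tr.e (nat_lit 0) C.t6 C.t7
noncomputable def tt10 : Tr := beta% (fun (c : Nat → Tr → Tr → Tr) (e : Tr) (z : Nat) (a b : Nat → Nat) =>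
 (c (a (nat_lit 0x101da800))
 (c (b (nat_lit 0xfe42200)) e
 (c (b (nat_lit 0xfe4e200)) e
 (c (b (nat_lit 0xfe54a01)) e
 (c (b (nat_lit 0xfe49e01)) e
 (c (b (nat_lit 0xfe55001)) e
 (c (b (nat_lit 0xfe28201)) e
 (c (nat_lit 0x7f4b57f4b57f4b57f4b57f4b57f40a7f40a05883) e
 (c z e
 (c (b (nat_lit 0xfe62603)) e
 (c z e
 (c z e
 (c (b (nat_lit 0x100f7207)) e
 (c z e
 (c z e
 (c z e
 (c z e
 (c z e
 (c z e
 (c (nat_lit 0x7ffdb80000800008000080000800008000091197) e e)))))))))))))))))))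
 (c (a (nat_lit 0x101e7800))
 (c (b (nat_lit 0xfe45e01)) e
 (c (b (nat_lit 0xfe45a01)) e
 (c (b (nat_lit 0xfe3fc01)) e
 (c (b (nat_lit 0xfd32201)) e
 (c (b (nat_lit 0xfe21a03)) e
 (c (b (nat_lit 0xfe3c403)) e
 (c (b (nat_lit 0xfd97a03)) e
 (c z e
 (c (b (nat_lit 0x1022da07)) e
 (c (b (nat_lit 0xfff9207)) e
 (c z e
 (c (b (nat_lit 0xfcad807)) e
 (c z e
 (c z e
 (c z e
 (c z e
 (c z e
 (c z e
 (c (nat_lit 0x800007fe8e80000800008000080000800002c81f) e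
 (c z e
 (c z e
 (c (nat_lit 0x7fe9e800007ff2e800007feea8000080000c941f) e e))))))))))))))))))))))
 (c (a (nat_lit 0x101ecc00))
 (c (b (nat_lit 0xff06001)) e
 (c (b (nat_lit 0xfe08e01)) e
 (c (b (nat_lit 0xfca9e03)) e
 (c (b (nat_lit 0xfe2f203)) e
 (c (b (nat_lit 0xfe36e03)) e
 (c (b (nat_lit 0xfe4b203)) e
 (c z e
 (c (b (nat_lit 0x101af007)) e
 (c z e
 (c z e
 (c z e
 (c z e
 (c z e
 (c z e
 (c z e
 (c z e
 (c (b (nat_lit 0xfe22c1f)) e e)))))))))))))))))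
 (c (a (nat_lit 0x101f0400))
 (c (nat_lit 0x800007ff9c8000080000800008000080000fbe83) e
 (c (b (nat_lit 0xfe75603)) e
 (c (b (nat_lit 0xfee6803)) e
 (c z e
 (c z e
 (c z e
 (c z e
 (c z e
 (c z e
 (c z e
 (c (b (nat_lit 0x1022de0f)) e e)))))))))))
 (c (a (nat_lit 0x101dee00))
 (c z e
 (c z e
 (c (b (nat_lit 0xfe8aa07)) e
 (c z e
 (c (b (nat_lit 0x1021fe07)) e
 (c (b (nat_lit 0xfff6607)) e
 (c z e
 (c z e
 (c z e
 (c (b (nat_lit 0xff2520f)) e e))))))))))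
 (c (a (nat_lit 0x101dcc00))
 (c z e
 (c z e
 (c (b (nat_lit 0x1013fa07)) e
 (c (b (nat_lit 0x1021f407)) e
 (c (b (nat_lit 0xfffba0f)) e
 (c (b (nat_lit 0x10250c0f)) e
 (c (b (nat_lit 0x103e760f)) e
 (c z e
 (c (b (nat_lit 0x100a4817)) e e)))))))))
 (c (a (nat_lit 0x101f2000))
 (c z e
 (c z e
 (c z e
 (c z e
 (c z e
 (c z e
 (c z e
 (c z e
 (c z e
 (c (b (nat_lit 0xffcf61f)) e
 (c z e
 (c (b (nat_lit 0xfff641f)) e e))))))))))))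
 (c (a (nat_lit 0x10200000))
 (c z e
 (c z e
 (c z e
 (c z e
 (c z e
 (c z e
 (c z e
 (c z e
 (c (nat_lit 0x7ff9c7ffd280000800008000080000800009881f) e e)))))))))
 (c (a (nat_lit 0x101eb600)) e
 (c (a (nat_lit 0x10208400))
 (c z e
 (c (b (nat_lit 0x100be817)) e
 (c z e
 (c (b (nat_lit 0x1010ec1f)) e e))))
 (c (a (nat_lit 0x101e7800)) e
 (c (a (nat_lit 0x101e1000))
 (c z e
 (c z e
 (c z e
 (c z e
 (c z e
 (c (nat_lit 0x80000800008000080000800007ffed8000027420) e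
 (c (nat_lit 0x8000080000800008000080000800007fef5fc8a0) e e)))))))
 (c (a (nat_lit 0x101ee200)) e
 (c (a (nat_lit 0x101f9801)) e
 (c (a (nat_lit 0x10202e01)) e
 (c (a (nat_lit 0x101ee201)) e
 (c (a (nat_lit 0x10134001)) e
 (c (a (nat_lit 0x1013f803)) e
 (c (a (nat_lit 0x1019aa03)) e
 (c (a (nat_lit 0x10179803)) e
 (c (a (nat_lit 0x101b5003)) e
 (c z e
 (c (a (nat_lit 0xfb8b607)) e
 (c (a (nat_lit 0xfdb1407)) e
 (c (a (nat_lit 0x100cb207)) e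
 (c (a (nat_lit 0x10090e0f)) e
 (c z e
 (c z e
 (c z e
 (c z e
 (c z e
 (c z e
 (c (a (nat_lit 0x1002901f)) e
 (c z e
 (c (a (nat_lit 0xfebdc1f)) e e)))))))))))))))))))))))))))))))))))) Tr.c Tr.e (nat_lit 0) C.t6 C.t7
noncomputable def tt11 : Tr := beta% (fun (c : Nat → Tr → Tr → Tr) (e : Tr) (z : Nat) (a b : Nat → Nat) =>
 (c (a (nat_lit 0x101d0c00))
 (c (b (nat_lit 0xfe63200)) e
 (c (b (nat_lit 0xfecc800)) e
 (c (b (nat_lit 0xfea4a00)) e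
 (c (b (nat_lit 0xfeab400)) e
 (c (b (nat_lit 0xfe8f200)) e
 (c (b (nat_lit 0xfe8b400)) e
 (c (b (nat_lit 0xfe5e800)) e
 (c (b (nat_lit 0xfe16400)) e
 (c (b (nat_lit 0xfe20200)) e
 (c (b (nat_lit 0xfe76800)) e
 (c (b (nat_lit 0xfe4c400)) e
 (c (b (nat_lit 0xfe37600)) e
 (c (b (nat_lit 0xfe41c01)) e
 (c (b (nat_lit 0xfcbc001)) e
 (c (b (nat_lit 0xfe23801)) e
 (c (b (nat_lit 0xfa43e01)) e
 (c (b (nat_lit 0xf6e6c03)) e
 (c (b (nat_lit 0xf856e03)) e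
 (c (b (nat_lit 0xfd62603)) e
 (c (b (nat_lit 0xfe45203)) e
 (c (b (nat_lit 0xfe64207)) e
 (c (b (nat_lit 0xfe50e07)) e
 (c z e
 (c z e
 (c z e
 (c (b (nat_lit 0xff0080f)) e
 (c z e
 (c (b (nat_lit 0x100ecc0f)) e
 (c (b (nat_lit 0x101a8017)) e
 (c z e
 (c (b (nat_lit 0xff8aa1f)) e
 (c z e
 (c z e
 (c (nat_lit 0x800007fef080000800008000080000800006969f) e e))))))))))))))))))))))))))))))))))
 (c (a (nat_lit 0x101ee400))
 (c (b (nat_lit 0xfe19800)) e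
 (c (b (nat_lit 0xfe8c800)) e
 (c (b (nat_lit 0xfe75800)) e
 (c (b (nat_lit 0xfe50200)) e
 (c (b (nat_lit 0xfe47000)) e
 (c (b (nat_lit 0xfe1e800)) e
 (c (b (nat_lit 0xfd55200)) e
 (c (b (nat_lit 0xfe1b600)) e
 (c (b (nat_lit 0xfe27600)) e
 (c (b (nat_lit 0xfe1e600)) e
 (c (b (nat_lit 0xfe13001)) e
 (c (b (nat_lit 0xfe05a01)) e
 (c (b (nat_lit 0xfe4a001)) e
 (c (nat_lit 0x7efc37ef2c7efc37efc37efc37efc37efc3bd881) e
 (c (b (nat_lit 0xfc11c03)) e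
 (c (b (nat_lit 0xf0b6a03)) e
 (c (b (nat_lit 0xf734603)) e
 (c (b (nat_lit 0xfe14203)) e
 (c z e
 (c z e
 (c (b (nat_lit 0xfeafc07)) e
 (c z e
 (c z e
 (c (nat_lit 0x800007fc4c7ffd08000080000800008000089e8f) e
 (c (b (nat_lit 0xfbc9e0f)) e
 (c z e
 (c (b (nat_lit 0x1004d017)) e
 (c (b (nat_lit 0x10110217)) e
 (c (nat_lit 0x7ffe87ffe87ffe87ffbe7ffe87ffe87ffe867e9f) e e)))))))))))))))))))))))))))))
 (c (a (nat_lit 0x101d3000))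
 (c (b (nat_lit 0xfe4aa00)) e
 (c (b (nat_lit 0xfe62200)) e
 (c (b (nat_lit 0xfe70c00)) e
 (c (b (nat_lit 0xfe66800)) e
 (c (b (nat_lit 0xfe50200)) e
 (c (b (nat_lit 0xfe49600)) e
 (c (b (nat_lit 0xfe42200)) e
 (c (b (nat_lit 0xfe66000)) e
 (c (b (nat_lit 0xfe5ce01)) e
 (c (b (nat_lit 0xfe2b201)) e
 (c (b (nat_lit 0xfe4aa01)) e
 (c (b (nat_lit 0xfe7fc01)) e
 (c (nat_lit 0x7f28d7f28d7f28d7f28d7f28d7f2617f26536083) e
 (c (b (nat_lit 0xfa94803)) e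
 (c (b (nat_lit 0xfcdf403)) e
 (c (b (nat_lit 0xfc80803)) e
 (c z e
 (c z e
 (c (b (nat_lit 0xff36407)) e
 (c (b (nat_lit 0x100f0c07)) e e))))))))))))))))))))
 (c (a (nat_lit 0x101c8c00))
 (c (b (nat_lit 0xfe72200)) e
 (c (b (nat_lit 0xfe6b800)) e
 (c (b (nat_lit 0xfe75600)) e
 (c (b (nat_lit 0xfe40400)) e
 (c (b (nat_lit 0xfe62400)) e
 (c (b (nat_lit 0xfe57e00)) e
 (c (b (nat_lit 0xfe57a01)) e
 (c (b (nat_lit 0xfe65001)) e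
 (c (b (nat_lit 0xfe28c01)) e
 (c (b (nat_lit 0xfdbc401)) e
 (c (nat_lit 0x7f4397f4397f4397f4397f4397f3ab7f3ab81783) e
 (c (b (nat_lit 0xfd73c03)) e
 (c (b (nat_lit 0xfbc8803)) e
 (c (b (nat_lit 0xfd74a03)) e
 (c (b (nat_lit 0xfd0b407)) e
 (c z e
 (c (b (nat_lit 0xfec4207)) e
 (c z e
 (c z e
 (c z e
 (c z e
 (c z e
 (c (nat_lit 0x80000800007ffbc800008000080000800001fc17) e
 (c z e
 (c (nat_lit 0x802d28038280382803828038280382803823ef1f) e e)))))))))))))))))))))))))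
 (c (a (nat_lit 0x101d4800))
 (c (b (nat_lit 0xfe5ac00)) e
 (c (b (nat_lit 0xfe50600)) e
 (c (b (nat_lit 0xfe4ce00)) e
 (c (b (nat_lit 0xfe51400)) e
 (c (b (nat_lit 0xfe45401)) e
 (c (b (nat_lit 0xfe45c01)) e
 (c (b (nat_lit 0xfe68a01)) e
 (c (b (nat_lit 0xfe25401)) e
 (c (b (nat_lit 0xfd65803)) e
 (c (nat_lit 0x7f31a7f31a7f31a7f31a7f31a7f31a7f2c859303) e
 (c (b (nat_lit 0xfe2d803)) e
 (c (b (nat_lit 0xfc7a403)) e
 (c (b (nat_lit 0x109cf607)) e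
 (c z e
 (c z e
 (c (b (nat_lit 0xfe3d007)) e
 (c z e
 (c (b (nat_lit 0x1011360f)) e
 (c z e
 (c z e
 (c z e
 (c z e
 (c (nat_lit 0x819748171481974819748197481974819744629f) e
 (c (nat_lit 0x807a8807e0807e0807e0807e0807e0807e0ff09f) e e)))))))))))))))))))))))) tt10)))))) Tr.c Tr.e (nat_lit 0) C.t6 C.t7
noncomputable def tt12 : Tr := beta% (fun (c : Nat → Tr → Tr → Tr) (e : Tr) (z : Nat) (a b : Nat → Nat) =>
 (c (a (nat_lit 0x101d0c00))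
 (c (b (nat_lit 0xfd3d600)) e
 (c (b (nat_lit 0xfd06e01)) e
 (c (nat_lit 0x7e4937defb7e4937e4937e4937e4937e493aed81) e
 (c (b (nat_lit 0xfcb8c01)) e
 (c (nat_lit 0x7f2507f2507f1c77f1b07f2507f2507f2507e181) e
 (c (b (nat_lit 0xfe43e03)) e
 (c (b (nat_lit 0xfe33a03)) e
 (c (b (nat_lit 0xfd70003)) e
 (c (b (nat_lit 0xffff603)) e
 (c z e
 (c (b (nat_lit 0xffda207)) e
 (c (b (nat_lit 0x10144c07)) e
 (c z e
 (c z e
 (c z e
 (c z e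
 (c z e
 (c (nat_lit 0x7ffab800008000080000800008000080000f0517) e
 (c z e
 (c z e
 (c z e
 (c (nat_lit 0x7fcef7ffd880000800007ff4d800008000098a1f) e e))))))))))))))))))))))
 (c (a (nat_lit 0x101e6400))
 (c (b (nat_lit 0xfd68601)) e
 (c (nat_lit 0x7dbf37dbf37da717dbf37dbf37dbf37dbf3a9201) e
 (c (b (nat_lit 0xfdee801)) e
 (c (b (nat_lit 0xfddb603)) e
 (c (b (nat_lit 0xfdda403)) e
 (c (b (nat_lit 0xfdb0603)) e
 (c z e
 (c z e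
 (c z e
 (c (b (nat_lit 0xfff7e07)) e
 (c (b (nat_lit 0xe864e07)) e
 (c z e
 (c z e
 (c z e
 (c z e
 (c z e
 (c z e
 (c z e
 (c z e
 (c z e
 (c (nat_lit 0x800007ffcc7fc3980000800008000080000fd8b1) e e)))))))))))))))))))))
 (c (a (nat_lit 0x101e3e00))
 (c (b (nat_lit 0xf65e001)) e
 (c (nat_lit 0x7e25f7df017e25f7e25f7e25f7e25f7e25f83c83) e
 (c (b (nat_lit 0xfa96e03)) e
 (c (b (nat_lit 0xfd09403)) e
 (c z e
 (c z e
 (c z e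
 (c (b (nat_lit 0x1015be07)) e
 (c z e
 (c (b (nat_lit 0x1035060f)) e
 (c z e
 (c z e
 (c z e
 (c z e
 (c z e
 (c z e
 (c z e
 (c z e
 (c (b (nat_lit 0xfffb223)) e
 (c (nat_lit 0x80000800007ffd48000080000800008000080731) e e))))))))))))))))))))
 (c (a (nat_lit 0x101e4c00))
 (c (b (nat_lit 0xfbe4803)) e
 (c (b (nat_lit 0xfc6c003)) e
 (c z e
 (c z e
 (c z e
 (c z e
 (c (b (nat_lit 0x109fe007)) e
 (c (b (nat_lit 0x105c940f)) e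
 (c (b (nat_lit 0x1085f40f)) e
 (c (b (nat_lit 0x10134c0f)) e
 (c (b (nat_lit 0xf92960f)) e
 (c z e
 (c (b (nat_lit 0x100e0a1f)) e
 (c (b (nat_lit 0x1011261f)) e
 (c z e
 (c z e
 (c z e
 (c (b (nat_lit 0xffffa23)) e e))))))))))))))))))
 (c (a (nat_lit 0x101f6400))
 (c z e
 (c z e
 (c z e
 (c z e
 (c (b (nat_lit 0xfa0c007)) e
 (c z e
 (c z e
 (c (b (nat_lit 0xfff7a0f)) e
 (c (b (nat_lit 0x10797c0f)) e e)))))))))
 (c (a (nat_lit 0x101fd800))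
 (c z e
 (c z e
 (c (b (nat_lit 0xf7e1e07)) e
 (c (nat_lit 0x80000800008000080000800007fb7f800007d907) e
 (c (b (nat_lit 0xf94060f)) e
 (c z e
 (c (b (nat_lit 0xf40fe0f)) e
 (c (b (nat_lit 0xfffa217)) e
 (c (b (nat_lit 0x1024261f)) e
 (c z e
 (c (b (nat_lit 0xffe061f)) e
 (c (b (nat_lit 0xfff881f)) e e))))))))))))
 (c (a (nat_lit 0x101f8200))
 (c z e
 (c (b (nat_lit 0xfd7ae0f)) e
 (c z e
 (c z e
 (c (b (nat_lit 0x100f3a0f)) e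
 (c (b (nat_lit 0xf090a17)) e
 (c z e
 (c (b (nat_lit 0xfff5e1f)) e
 (c (b (nat_lit 0xfffc41f)) e
 (c (b (nat_lit 0xfff221f)) e e))))))))))
 (c (a (nat_lit 0x101fe000))
 (c (b (nat_lit 0xfadb00f)) e
 (c (b (nat_lit 0xff01a0f)) e
 (c z e
 (c (b (nat_lit 0x10198817)) e
 (c z e
 (c (nat_lit 0x800008000080000800007ff4a8000080000e0e1f) e
 (c z e
 (c z e
 (c (nat_lit 0x7fed9800008000080000800008000080000c60a1) e
 (c (b (nat_lit 0xfaf6821)) e e))))))))))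
 (c (a (nat_lit 0x101fea00)) e
 (c (a (nat_lit 0x101ed400))
 (c z e
 (c z e
 (c (b (nat_lit 0xff1e01f)) e e)))
 (c (a (nat_lit 0x101dde00))
 (c z e
 (c z e
 (c (b (nat_lit 0xea38020)) e
 (c z e
 (c z e
 (c (nat_lit 0x800008000080000800007f63b7f63b7f63bbcca0) e
 (c (nat_lit 0x80000800008000080000800007f9777f97785620) e e)))))))
 (c (a (nat_lit 0x101efa00))
 (c (b (nat_lit 0xf7c1a20)) e
 (c (b (nat_lit 0xfd91820)) e e))
 (c (a (nat_lit 0x101fcc00)) e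
 (c (a (nat_lit 0x101ff201)) e
 (c (a (nat_lit 0x10201e01)) e
 (c (a (nat_lit 0x1018c001)) e
 (c (a (nat_lit 0x10151401)) e
 (c (a (nat_lit 0x10165403)) e
 (c (a (nat_lit 0x1016fc03)) e
 (c (a (nat_lit 0x10164603)) e
 (c (a (nat_lit 0x10115003)) e
 (c (a (nat_lit 0x10248607)) e
 (c (a (nat_lit 0x100fc207)) e
 (c (a (nat_lit 0xffa5a07)) e
 (c z e
 (c z e
 (c (a (nat_lit 0x100f4a0f)) e
 (c z e
 (c z e
 (c (a (nat_lit 0x1007ca17)) e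
 (c (nat_lit 0x8081a8081a8081a8081a8081a8067a4bd5f) e
 (c (a (nat_lit 0x1006e61f)) e e))))))))))))))))))))))))))))))))) Tr.c Tr.e (nat_lit 0) C.t6 C.t7
noncomputable def tt13 : Tr := beta% (fun (c : Nat → Tr → Tr → Tr) (e : Tr) (z : Nat) (a b : Nat → Nat) =>
 (c (a (nat_lit 0x101df400))
 (c (b (nat_lit 0xfdfde00)) e
 (c (b (nat_lit 0xfe48200)) e
 (c (b (nat_lit 0xfee8200)) e
 (c (b (nat_lit 0xff03a00)) e
 (c (b (nat_lit 0xff07200)) e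
 (c (b (nat_lit 0xfefd000)) e
 (c (b (nat_lit 0xfe5aa00)) e
 (c (b (nat_lit 0xfe46000)) e
 (c (b (nat_lit 0xfe36400)) e
 (c (b (nat_lit 0xfe55000)) e
 (c (b (nat_lit 0xfe35c00)) e
 (c (b (nat_lit 0xfe12c00)) e
 (c (b (nat_lit 0xfe15000)) e
 (c (b (nat_lit 0xfe23c01)) e
 (c (b (nat_lit 0xfe30a01)) e
 (c (b (nat_lit 0xfd29c01)) e
 (c (b (nat_lit 0xf653a01)) e
 (c (b (nat_lit 0xf9dbc03)) e
 (c (nat_lit 0x7f1fe7f1fe7f1fe7f1fe7f1fe7f1fe7f0f0f2003) e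
 (c (b (nat_lit 0xfe1b603)) e
 (c (b (nat_lit 0xfee6a03)) e
 (c z e
 (c (b (nat_lit 0xff68807)) e
 (c (b (nat_lit 0xff46a07)) e
 (c z e
 (c (b (nat_lit 0x100edc0f)) e
 (c z e
 (c (nat_lit 0x83e7683e7683dfd83e7683e7683e7683e761e50f) e
 (c (b (nat_lit 0x1004d40f)) e
 (c (nat_lit 0x800008000080000800007ffd680000800006b617) e
 (c (nat_lit 0x7f7647f7647f7647f7647f7647f3e97f7646579f) e e)))))))))))))))))))))))))))))))
 (c (a (nat_lit 0x101edc00))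
 (c (b (nat_lit 0xfdf9000)) e
 (c (b (nat_lit 0xfe9a400)) e
 (c (b (nat_lit 0xfec7200)) e
 (c (b (nat_lit 0xfec7200)) e
 (c (b (nat_lit 0xfebfc00)) e
 (c (b (nat_lit 0xfe38e00)) e
 (c (b (nat_lit 0xfe30a00)) e
 (c (b (nat_lit 0xfe2d000)) e
 (c (b (nat_lit 0xfe21800)) e
 (c (b (nat_lit 0xfe16800)) e
 (c (b (nat_lit 0xfdf7400)) e
 (c (b (nat_lit 0xfdeb601)) e
 (c (b (nat_lit 0xfde4c01)) e
 (c (b (nat_lit 0xfe0c001)) e
 (c (b (nat_lit 0xfc90a01)) e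
 (c (b (nat_lit 0xf754803)) e
 (c (b (nat_lit 0xf84c803)) e
 (c (b (nat_lit 0xfe24603)) e
 (c z e
 (c z e
 (c z e
 (c (b (nat_lit 0xfe61e07)) e
 (c (b (nat_lit 0xffa2a07)) e
 (c (b (nat_lit 0x100d2c0f)) e
 (c (b (nat_lit 0x100eb20f)) e
 (c (nat_lit 0x7ff868000080000800008000080000800002080f) e
 (c (b (nat_lit 0x10762a0f)) e
 (c (nat_lit 0x80a4680a46809db80a4680a4680a4680a46c7517) e
 (c z e
 (c z e
 (c (nat_lit 0x80000800008000080000800007feea800004aa1f) e e)))))))))))))))))))))))))))))))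
 (c (a (nat_lit 0x101d2200))
 (c (b (nat_lit 0xfe4de00)) e
 (c (b (nat_lit 0xfe52c00)) e
 (c (b (nat_lit 0xfe85e00)) e
 (c (b (nat_lit 0xfe75200)) e
 (c (b (nat_lit 0xfe62200)) e
 (c (b (nat_lit 0xfe57c00)) e
 (c (b (nat_lit 0xfe5a400)) e
 (c (b (nat_lit 0xfe5c000)) e
 (c (b (nat_lit 0xfe33600)) e
 (c (b (nat_lit 0xfe02a01)) e
 (c (b (nat_lit 0xfe33401)) e
 (c (b (nat_lit 0xfdf8001)) e
 (c (b (nat_lit 0xfda2401)) e
 (c (b (nat_lit 0xfb50e03)) e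
 (c (b (nat_lit 0xfb01403)) e
 (c (b (nat_lit 0xfab2c03)) e
 (c (b (nat_lit 0xfd4b203)) e
 (c z e
 (c (b (nat_lit 0xfe18e07)) e
 (c (b (nat_lit 0xfddd807)) e
 (c z e
 (c z e
 (c z e
 (c z e
 (c z e
 (c (b (nat_lit 0xfff9017)) e
 (c (b (nat_lit 0x1013a41f)) e
 (c (b (nat_lit 0x1004a81f)) e e))))))))))))))))))))))))))))
 (c (a (nat_lit 0x101e4e00))
 (c (b (nat_lit 0xfe3d600)) e
 (c (b (nat_lit 0xfe4e800)) e
 (c (b (nat_lit 0xfe6b400)) e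
 (c (b (nat_lit 0xfe2ce00)) e
 (c (b (nat_lit 0xfe61c00)) e
 (c (b (nat_lit 0xfe22400)) e
 (c (b (nat_lit 0xfe31200)) e
 (c (b (nat_lit 0xfe22c01)) e
 (c (b (nat_lit 0xfe02801)) e
 (c (b (nat_lit 0xfe38e01)) e
 (c (b (nat_lit 0xfe23a01)) e
 (c (b (nat_lit 0xfd9ca03)) e
 (c (b (nat_lit 0xfa97a03)) e
 (c (b (nat_lit 0xfe6ea03)) e
 (c (b (nat_lit 0xfe5f203)) e
 (c (b (nat_lit 0xfe84e07)) e
 (c z e
 (c (b (nat_lit 0xfdf9607)) e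
 (c (b (nat_lit 0xfe37407)) e
 (c z e
 (c z e
 (c z e
 (c (nat_lit 0x7feea7ffe87ffe87ffe87ffe87ffe87ffe88080f) e
 (c z e
 (c (nat_lit 0x7ffc47fec880000800008000080000800009da9f) e
 (c (nat_lit 0x803c8803c88036f803c8803c8803c8803c89bd1f) e e))))))))))))))))))))))))))
 (c (a (nat_lit 0x101ce400))
 (c (b (nat_lit 0xfe7d400)) e
 (c (b (nat_lit 0xfe72c00)) e
 (c (b (nat_lit 0xfe68800)) e
 (c (b (nat_lit 0xfe59a00)) e
 (c (b (nat_lit 0xfdeb400)) e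
 (c (b (nat_lit 0xfe59401)) e
 (c (b (nat_lit 0xfe54401)) e
 (c (b (nat_lit 0xfe3f201)) e
 (c (b (nat_lit 0xfe67e01)) e
 (c (b (nat_lit 0xfe5de03)) e
 (c (b (nat_lit 0xfe35403)) e
 (c (b (nat_lit 0xfe1c403)) e
 (c (b (nat_lit 0xfffe603)) e
 (c z e
 (c (b (nat_lit 0xfdeac07)) e
 (c (b (nat_lit 0xfd9ec07)) e
 (c z e
 (c z e
 (c z e
 (c z e
 (c z e
 (c z e
 (c (b (nat_lit 0x1015501f)) e
 (c (b (nat_lit 0x10144e1f)) e e))))))))))))))))))))))))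
 (c (a (nat_lit 0x101bf200))
 (c (b (nat_lit 0xfe89c00)) e
 (c (b (nat_lit 0xfe6d000)) e
 (c (b (nat_lit 0xfe67200)) e
 (c (b (nat_lit 0xfe1c201)) e
 (c (nat_lit 0x7f3d87f3d87f3bf7f3bf7f3bf7f3bf7f3c593b01) e
 (c (b (nat_lit 0xfe62201)) e
 (c (b (nat_lit 0xfe2ce01)) e
 (c (b (nat_lit 0xfecea03)) e
 (c (nat_lit 0x7f3017f3017f3017f3017f3017f3017f27976e83) e
 (c (b (nat_lit 0xfc2aa03)) e
 (c (b (nat_lit 0xfc89803)) e
 (c z e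
 (c z e
 (c z e
 (c z e
 (c z e
 (c z e
 (c (b (nat_lit 0x1004ac0f)) e
 (c z e
 (c (nat_lit 0x800007ff28800008000080000800008000018697) e
 (c (b (nat_lit 0x101b7e1f)) e
 (c (b (nat_lit 0x10186a1f)) e
 (c z e
 (c (b (nat_lit 0xfff661f)) e e)))))))))))))))))))))))) tt12))))))) Tr.c Tr.e (nat_lit 0) C.t6 C.t7
noncomputable def tt14 : Tr := beta% (fun (c : Nat → Tr → Tr → Tr) (e : Tr) (z : Nat) (a b : Nat → Nat) =>
 (c (a (nat_lit 0x101da200))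
 (c (b (nat_lit 0xf74ba00)) e
 (c (b (nat_lit 0xfb3fe00)) e
 (c (b (nat_lit 0xf934001)) e
 (c (nat_lit 0x7cc317c7177cc317cc317cc317cc317cc310ae81) e
 (c (nat_lit 0x7effd7f1657f1657f1657f1657f1657f16504b01) e
 (c z e
 (c (b (nat_lit 0xffefa03)) e
 (c z e
 (c z e
 (c z e
 (c z e
 (c (b (nat_lit 0xfc5ac07)) e
 (c (b (nat_lit 0xfbac007)) e
 (c (b (nat_lit 0xfbcb607)) e
 (c z e
 (c z e
 (c z e
 (c z e
 (c z e
 (c z e
 (c (nat_lit 0x7fd378000080000800008000080000800001671f) e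
 (c (nat_lit 0x7ecc77ec7a7ecc77ecc77ecc77ecc77ecc74429f) e e))))))))))))))))))))))
 (c (a (nat_lit 0x101d7800))
 (c (b (nat_lit 0xf8d1601)) e
 (c (b (nat_lit 0xfa68c01)) e
 (c (nat_lit 0x7d5007d5007d3867d5007d5007d5007d50019b81) e
 (c (b (nat_lit 0xfdab801)) e
 (c z e
 (c (b (nat_lit 0xffff803)) e
 (c (b (nat_lit 0xff26003)) e
 (c z e
 (c z e
 (c z e
 (c (b (nat_lit 0xf4fba07)) e
 (c (nat_lit 0x7ac4b7ac6b7ac6b7ac6b7ac6b7ac6b7ac6b89987) e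
 (c z e
 (c z e
 (c (b (nat_lit 0x1017240f)) e
 (c (b (nat_lit 0xffb380f)) e e))))))))))))))))
 (c (a (nat_lit 0x101d4200))
 (c (b (nat_lit 0xfc29001)) e
 (c (b (nat_lit 0xf823a01)) e
 (c (b (nat_lit 0xfb8ae03)) e
 (c (b (nat_lit 0xfffbc03)) e
 (c z e
 (c z e
 (c (b (nat_lit 0x10133c07)) e
 (c z e
 (c (b (nat_lit 0xfcd0607)) e
 (c (b (nat_lit 0xe224407)) e
 (c (b (nat_lit 0xfdffe0f)) e
 (c (b (nat_lit 0xfe9c80f)) e
 (c z e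
 (c z e
 (c (b (nat_lit 0xfd79a1f)) e
 (c (b (nat_lit 0xfca5e1f)) e
 (c z e
 (c z e
 (c (b (nat_lit 0xffee823)) e
 (c (b (nat_lit 0xfff4023)) e e))))))))))))))))))))
 (c (a (nat_lit 0x101c9c00))
 (c (b (nat_lit 0x1097ae03)) e
 (c (b (nat_lit 0xfd40c03)) e
 (c (b (nat_lit 0xfdd9c03)) e
 (c z e
 (c (b (nat_lit 0xecc1007)) e
 (c z e
 (c (b (nat_lit 0xfc60407)) e
 (c z e
 (c (b (nat_lit 0x10b4d20f)) e
 (c (b (nat_lit 0x106eac0f)) e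
 (c (b (nat_lit 0xfb7b60f)) e
 (c z e
 (c (b (nat_lit 0x103bb01f)) e
 (c z e
 (c z e
 (c z e
 (c z e
 (c z e
 (c (b (nat_lit 0xfff2223)) e e)))))))))))))))))))
 (c (a (nat_lit 0x101e0a00))
 (c z e
 (c (b (nat_lit 0xff6ee03)) e
 (c (b (nat_lit 0xfeda007)) e
 (c (b (nat_lit 0xf5e2207)) e
 (c z e
 (c z e
 (c (b (nat_lit 0x10e4c80f)) e
 (c (b (nat_lit 0x10bef60f)) e
 (c (b (nat_lit 0x109da60f)) e
 (c z e
 (c z e
 (c z e
 (c (b (nat_lit 0xffebe1f)) e e)))))))))))))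
 (c (a (nat_lit 0x101b8600))
 (c (b (nat_lit 0xf811e07)) e
 (c z e
 (c (b (nat_lit 0xfb2d807)) e
 (c (b (nat_lit 0x1019c807)) e
 (c z e
 (c z e
 (c z e
 (c z e
 (c (b (nat_lit 0x1028741f)) e e)))))))))
 (c (a (nat_lit 0x101f7000))
 (c (b (nat_lit 0xf71ba07)) e
 (c (b (nat_lit 0xf886807)) e
 (c (b (nat_lit 0x1022160f)) e
 (c z e
 (c z e
 (c z e
 (c (b (nat_lit 0xffdc01f)) e e)))))))
 (c (a (nat_lit 0x101cf600))
 (c (b (nat_lit 0xe89dc0f)) e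
 (c (b (nat_lit 0xea4980f)) e
 (c (b (nat_lit 0xfa2020f)) e
 (c (b (nat_lit 0xd36fc0f)) e
 (c (b (nat_lit 0x105ee61f)) e e)))))
 (c (a (nat_lit 0x101ae800))
 (c z e
 (c z e
 (c z e
 (c z e
 (c (b (nat_lit 0xfff881f)) e
 (c (b (nat_lit 0xf3c161f)) e e))))))
 (c (a (nat_lit 0x101dd800))
 (c z e
 (c z e
 (c z e
 (c (b (nat_lit 0xe4e801f)) e
 (c (b (nat_lit 0xeef1e20)) e e)))))
 (c (a (nat_lit 0x101a9400))
 (c (b (nat_lit 0xfffa21f)) e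
 (c (b (nat_lit 0xfd2261f)) e
 (c (b (nat_lit 0xeb3fc20)) e e)))
 (c (a (nat_lit 0x101f7000))
 (c (b (nat_lit 0xea0b820)) e e)
 (c (a (nat_lit 0x101f9800)) e
 (c (a (nat_lit 0x101a2e00)) e
 (c (a (nat_lit 0x1009c201)) e
 (c (a (nat_lit 0x10121e01)) e
 (c (a (nat_lit 0x10133c01)) e
 (c (a (nat_lit 0x1012da01)) e
 (c (a (nat_lit 0x10145a03)) e
 (c (a (nat_lit 0x10164603)) e
 (c (a (nat_lit 0x10188e03)) e
 (c (a (nat_lit 0x10257203)) e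
 (c (a (nat_lit 0x100c3207)) e
 (c z e
 (c (a (nat_lit 0x10332407)) e
 (c z e
 (c z e
 (c z e
 (c (a (nat_lit 0xfffd40f)) e
 (c (a (nat_lit 0xfff2a0f)) e
 (c (a (nat_lit 0x1022161f)) e e)))))))))))))))))))))))))))))))) Tr.c Tr.e (nat_lit 0) C.t6 C.t7
noncomputable def tt15 : Tr := beta% (fun (c : Nat → Tr → Tr → Tr) (e : Tr) (z : Nat) (a b : Nat → Nat) =>
 (c (a (nat_lit 0x101c3400))
 (c (b (nat_lit 0xfd6b000)) e
 (c (b (nat_lit 0xfe2a400)) e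
 (c (b (nat_lit 0xfef2000)) e
 (c (b (nat_lit 0xff10600)) e
 (c (b (nat_lit 0xfedac00)) e
 (c (b (nat_lit 0xfec0400)) e
 (c (b (nat_lit 0xfe72600)) e
 (c (b (nat_lit 0xfde5e00)) e
 (c (b (nat_lit 0xfe4e600)) e
 (c (b (nat_lit 0xfe91200)) e
 (c (b (nat_lit 0xfe8e600)) e
 (c (b (nat_lit 0xfe6ea00)) e
 (c (b (nat_lit 0xfdd3200)) e
 (c (b (nat_lit 0xfe6ae00)) e
 (c (b (nat_lit 0xfcfd401)) e
 (c (b (nat_lit 0xfe2ac01)) e
 (c (b (nat_lit 0xfcfde01)) e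
 (c (b (nat_lit 0xfc3d001)) e
 (c (b (nat_lit 0xfdecc03)) e
 (c (b (nat_lit 0xfde6203)) e
 (c (b (nat_lit 0xfe25403)) e
 (c z e
 (c z e
 (c (b (nat_lit 0xff68007)) e
 (c (b (nat_lit 0xfefee07)) e
 (c (b (nat_lit 0xfeb3c07)) e
 (c z e
 (c (b (nat_lit 0x106c220f)) e
 (c (b (nat_lit 0x1035720f)) e e)))))))))))))))))))))))))))))
 (c (a (nat_lit 0x101f2c00))
 (c (b (nat_lit 0xfd78e00)) e
 (c (b (nat_lit 0xfe26e00)) e
 (c (b (nat_lit 0xff40a00)) e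
 (c (b (nat_lit 0xfe58800)) e
 (c (b (nat_lit 0xfe1fa00)) e
 (c (b (nat_lit 0xfdc4400)) e
 (c (b (nat_lit 0xfe2a000)) e
 (c (b (nat_lit 0xfd9f600)) e
 (c (b (nat_lit 0xfdf2000)) e
 (c (b (nat_lit 0xfddaa00)) e
 (c (b (nat_lit 0xfe07600)) e
 (c (b (nat_lit 0xfde2000)) e
 (c (b (nat_lit 0xfceae01)) e
 (c (b (nat_lit 0xfe00a01)) e
 (c (b (nat_lit 0xfb31401)) e
 (c (b (nat_lit 0xfb2e601)) e
 (c (b (nat_lit 0xfe2a003)) e
 (c (b (nat_lit 0xfca1203)) e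
 (c (b (nat_lit 0xfe28a03)) e
 (c (b (nat_lit 0xff77403)) e
 (c z e
 (c (b (nat_lit 0xfe6f607)) e
 (c (b (nat_lit 0xfe16807)) e
 (c (b (nat_lit 0xfe8fc07)) e
 (c z e
 (c z e
 (c (b (nat_lit 0x1033e80f)) e
 (c (b (nat_lit 0x1022a00f)) e
 (c z e
 (c (b (nat_lit 0xfd5ec1f)) e
 (c (b (nat_lit 0xfde4a1f)) e
 (c z e
 (c z e
 (c (b (nat_lit 0xffd282f)) e e))))))))))))))))))))))))))))))))))
 (c (a (nat_lit 0x101d0600))
 (c (b (nat_lit 0xfe3aa00)) e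
 (c (b (nat_lit 0xfe5ee00)) e
 (c (b (nat_lit 0xfed0600)) e
 (c (b (nat_lit 0xfe57a00)) e
 (c (b (nat_lit 0xfe83000)) e
 (c (b (nat_lit 0xfe40400)) e
 (c (b (nat_lit 0xfe3fe00)) e
 (c (b (nat_lit 0xfe72600)) e
 (c (b (nat_lit 0xfe1c400)) e
 (c (b (nat_lit 0xfe13000)) e
 (c (b (nat_lit 0xfcb0001)) e
 (c (b (nat_lit 0xfcd4801)) e
 (c (b (nat_lit 0xfda3201)) e
 (c (b (nat_lit 0xf935801)) e
 (c (b (nat_lit 0xf976203)) e
 (c (b (nat_lit 0xfccb603)) e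
 (c (b (nat_lit 0xfd2fe03)) e
 (c (b (nat_lit 0xfee6803)) e
 (c z e
 (c (b (nat_lit 0xfe12007)) e
 (c (b (nat_lit 0xfe07a07)) e
 (c (b (nat_lit 0xfee7007)) e
 (c (b (nat_lit 0xffe820f)) e
 (c z e
 (c z e
 (c (b (nat_lit 0xffc340f)) e e))))))))))))))))))))))))))
 (c (a (nat_lit 0x101de600))
 (c (b (nat_lit 0xfe2e800)) e
 (c (b (nat_lit 0xfe52800)) e
 (c (b (nat_lit 0xfce7800)) e
 (c (b (nat_lit 0xfdb1e00)) e
 (c (b (nat_lit 0xfe7c000)) e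
 (c (b (nat_lit 0xfe5e000)) e
 (c (b (nat_lit 0xfdf7c00)) e
 (c (b (nat_lit 0xfe24600)) e
 (c (b (nat_lit 0xfe2ce01)) e
 (c (b (nat_lit 0xfe47001)) e
 (c (b (nat_lit 0xfe56801)) e
 (c (b (nat_lit 0xfe7fe01)) e
 (c (b (nat_lit 0xfc9c403)) e
 (c (b (nat_lit 0xfcfb203)) e
 (c (b (nat_lit 0xf6c9e03)) e
 (c (b (nat_lit 0xfea7603)) e
 (c z e
 (c z e
 (c (b (nat_lit 0xfc8be07)) e
 (c (b (nat_lit 0xfd93a07)) e
 (c z e
 (c z e
 (c z e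
 (c z e
 (c z e
 (c z e
 (c z e
 (c z e
 (c (nat_lit 0x80000800007ffa58000080000800008000050fa7) e e)))))))))))))))))))))))))))))
 (c (a (nat_lit 0x101d7a00))
 (c (b (nat_lit 0xfe8f800)) e
 (c (b (nat_lit 0xfe17000)) e
 (c (b (nat_lit 0xfe4e400)) e
 (c (b (nat_lit 0xfe5be00)) e
 (c (b (nat_lit 0xfe66800)) e
 (c (b (nat_lit 0xfe9de00)) e
 (c (b (nat_lit 0xfce9001)) e
 (c (b (nat_lit 0xfe6ac01)) e
 (c (b (nat_lit 0xfe7b601)) e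
 (c (b (nat_lit 0xfe6b201)) e
 (c (b (nat_lit 0xfe72c03)) e
 (c (b (nat_lit 0xfdbf003)) e
 (c (b (nat_lit 0xf352603)) e
 (c (b (nat_lit 0xf68ae03)) e
 (c (b (nat_lit 0xfc3e007)) e
 (c (b (nat_lit 0xfb40c07)) e
 (c (b (nat_lit 0xfae0407)) e
 (c (b (nat_lit 0xfbd2207)) e
 (c z e
 (c z e
 (c z e
 (c (b (nat_lit 0xff7680f)) e
 (c (b (nat_lit 0x101cb41f)) e
 (c (b (nat_lit 0x1026541f)) e e))))))))))))))))))))))))
 (c (a (nat_lit 0x101f0a00))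
 (c (b (nat_lit 0xfb3b800)) e
 (c (b (nat_lit 0xfe46c00)) e
 (c (b (nat_lit 0xfe4c000)) e
 (c (b (nat_lit 0xfe16600)) e
 (c (b (nat_lit 0xfdf3601)) e
 (c (b (nat_lit 0xfc2a601)) e
 (c (b (nat_lit 0xfdeea01)) e
 (c (b (nat_lit 0xfdfa401)) e
 (c (b (nat_lit 0xfe60603)) e
 (c (nat_lit 0x7f4137f4137f4137f4137f4137f4137f30815883) e
 (c (b (nat_lit 0xfab7803)) e
 (c z e
 (c (b (nat_lit 0xf6aba07)) e
 (c (b (nat_lit 0xf6c2207)) e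
 (c (b (nat_lit 0xf89fc07)) e e))))))))))))))) tt14))))))) Tr.c Tr.e (nat_lit 0) C.t6 C.t7
noncomputable def tt16 : Tr := beta% (fun (c : Nat → Tr → Tr → Tr) (e : Tr) (z : Nat) (a b : Nat → Nat) =>
 (c (a (nat_lit 0x101ac400))
 (c (b (nat_lit 0xf7b4800)) e
 (c (b (nat_lit 0xfa4dc00)) e
 (c (b (nat_lit 0xfd05400)) e
 (c (b (nat_lit 0xfc45c00)) e
 (c (b (nat_lit 0xfeb6200)) e
 (c (b (nat_lit 0xfcc0800)) e
 (c (b (nat_lit 0xfc6c800)) e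
 (c (b (nat_lit 0xfe4a200)) e
 (c (b (nat_lit 0xfb70a00)) e
 (c (b (nat_lit 0xfda5800)) e
 (c (b (nat_lit 0xfe9ea00)) e
 (c (b (nat_lit 0xfa05c00)) e
 (c (b (nat_lit 0xf983400)) e
 (c (b (nat_lit 0xfbb3600)) e
 (c (b (nat_lit 0xfd06a00)) e
 (c (b (nat_lit 0xfe1be00)) e
 (c (b (nat_lit 0xfa42400)) e
 (c (b (nat_lit 0xfb0f000)) e
 (c (b (nat_lit 0xfab2401)) e
 (c (b (nat_lit 0xf9d5c01)) e
 (c (b (nat_lit 0xfbf3801)) e
 (c (b (nat_lit 0xfef4a01)) e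
 (c z e
 (c z e
 (c z e
 (c z e
 (c z e
 (c z e
 (c z e
 (c (b (nat_lit 0xfb47c07)) e
 (c z e
 (c z e
 (c (b (nat_lit 0xf85060f)) e
 (c (b (nat_lit 0xfd88c0f)) e
 (c z e
 (c z e
 (c z e
 (c (b (nat_lit 0xfebe81f)) e e))))))))))))))))))))))))))))))))))))))
 (c (a (nat_lit 0x101bc400))
 (c (b (nat_lit 0xfc31c00)) e
 (c (b (nat_lit 0xfce0800)) e
 (c (b (nat_lit 0xfd3fe00)) e
 (c (b (nat_lit 0xfec3600)) e
 (c (b (nat_lit 0xfe7f000)) e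
 (c (b (nat_lit 0xfee4200)) e
 (c (b (nat_lit 0xff58a00)) e
 (c (b (nat_lit 0xfed6800)) e
 (c (b (nat_lit 0xfe75200)) e
 (c (b (nat_lit 0xfe64c00)) e
 (c (b (nat_lit 0xfe75200)) e
 (c (b (nat_lit 0xfe46c00)) e
 (c (b (nat_lit 0xfe52200)) e
 (c (b (nat_lit 0xfe37600)) e
 (c (b (nat_lit 0xfe11c00)) e
 (c (b (nat_lit 0xfe63e00)) e
 (c (b (nat_lit 0xfd99801)) e
 (c (nat_lit 0x7ea277e3d27ea277ea277ea277ea277ea2732181) e
 (c (b (nat_lit 0xfba1e01)) e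
 (c (b (nat_lit 0xfd1c401)) e
 (c (b (nat_lit 0xfd54003)) e
 (c (b (nat_lit 0xfe3e203)) e
 (c (b (nat_lit 0xfe98003)) e
 (c z e
 (c z e
 (c z e
 (c (b (nat_lit 0xffa7e07)) e
 (c z e
 (c (b (nat_lit 0xfaf1e0f)) e
 (c (b (nat_lit 0x100a800f)) e
 (c z e
 (c z e
 (c z e
 (c (b (nat_lit 0xfff0c1f)) e e)))))))))))))))))))))))))))))))))) tt15))) Tr.c Tr.e (nat_lit 0) C.t6 C.t7
noncomputable def tt17 : Tr := beta% (fun (c : Nat → Tr → Tr → Tr) (e : Tr) (z : Nat) (a b d : Nat → Nat) =>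
 (c (a (nat_lit 0xfe0be00)) tt16
 (c (a (nat_lit 0xfe09600))
 (c (b (nat_lit 0x101dbe00))
 (c (d (nat_lit 0xfe0ee00)) e
 (c (d (nat_lit 0xfde5400)) e
 (c (d (nat_lit 0xfe2cc00)) e
 (c (d (nat_lit 0xfe86e00)) e
 (c (d (nat_lit 0xfe54000)) e
 (c (d (nat_lit 0xfee4800)) e
 (c (d (nat_lit 0xfeda600)) e
 (c (d (nat_lit 0xfe77a00)) e
 (c (d (nat_lit 0xfe4ec00)) e
 (c (d (nat_lit 0xfe17800)) e
 (c (d (nat_lit 0xfe5f600)) e
 (c (d (nat_lit 0xfe0d000)) e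
 (c (d (nat_lit 0xfdfc800)) e
 (c (d (nat_lit 0xfe29800)) e
 (c (d (nat_lit 0xfe0ec00)) e
 (c (d (nat_lit 0xfdf6a01)) e
 (c (d (nat_lit 0xfd75401)) e
 (c (d (nat_lit 0xfcee201)) e
 (c (d (nat_lit 0xfa3ac01)) e
 (c (d (nat_lit 0xfe02e03)) e
 (c (d (nat_lit 0xfd6b003)) e
 (c (d (nat_lit 0xfea8603)) e
 (c (d (nat_lit 0xfeea603)) e
 (c (d (nat_lit 0xff39607)) e
 (c (d (nat_lit 0xfe7c207)) e
 (c (d (nat_lit 0xfed8807)) e
 (c (d (nat_lit 0xff6f207)) e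
 (c z e
 (c (d (nat_lit 0xfe2c80f)) e
 (c z e
 (c z e
 (c z e
 (c z e
 (c z e
 (c z e
 (c z e
 (c (d (nat_lit 0xffdb437)) e e))))))))))))))))))))))))))))))))))))) tt13)
 (c (a (nat_lit 0xfe04e00)) tt11
 (c (a (nat_lit 0xfdfee00)) tt9
 (c (nat_lit 0x7f04e7f04e7f04b7f04b7f04eedd00) tt7
 (c (a (nat_lit 0xfe05e00))
 (c (b (nat_lit 0x101f5c00))
 (c (d (nat_lit 0xfdd2e00)) e
 (c (d (nat_lit 0xfe1bc00)) e
 (c (d (nat_lit 0xfbd8c00)) e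
 (c (d (nat_lit 0xfdfaa01)) e
 (c (d (nat_lit 0xfe36c01)) e
 (c (d (nat_lit 0xfe45001)) e
 (c (d (nat_lit 0xfe1ca01)) e
 (c (d (nat_lit 0xfb81203)) e
 (c (d (nat_lit 0xfdd9603)) e
 (c z e
 (c (d (nat_lit 0xfc91c03)) e
 (c z e
 (c z e
 (c z e
 (c (d (nat_lit 0xfb72a07)) e
 (c (d (nat_lit 0xfd18c0f)) e
 (c (d (nat_lit 0xfc9b40f)) e
 (c (d (nat_lit 0xfef5a0f)) e
 (c z e
 (c (d (nat_lit 0xfe13013)) e
 (c (d (nat_lit 0xffba417)) e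
 (c z e
 (c z e
 (c (d (nat_lit 0xfffd417)) e e)))))))))))))))))))))))) tt5)
 (c (a (nat_lit 0xfe06e00)) tt4
 (c (a (nat_lit 0xfdfe800)) tt3
 (c (nat_lit 0x7f0337f02f7f02f7f02f7f033a8d20) tt2
 (c (a (nat_lit 0xfe02e00)) tt1
 (c (a (nat_lit 0xfe08600))
 (c z
 (c z e
 (c z e
 (c z e
 (c z e
 (c (d (nat_lit 0xff51811)) e
 (c (d (nat_lit 0xfb99c11)) e e))))))
 (c (b (nat_lit 0x101eca00))
 (c (d (nat_lit 0x10cd180f)) e
 (c z e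
 (c z e
 (c (d (nat_lit 0xfca7611)) e e))))
 (c (b (nat_lit 0x101f0601))
 (c z e
 (c z e
 (c (d (nat_lit 0xfec6813)) e e)))
 (c (b (nat_lit 0x10110e01))
 (c z e
 (c (nat_lit 0x8000080000800007ffb2800008000080000a8b93) e
 (c (d (nat_lit 0x10257013)) e e)))
 (c z e
 (c z e
 (c (nat_lit 0x800007ffce80000800008000080000affc3) e
 (c (nat_lit 0x7f5e87f5e87f5707f5e87f5e87f5e8a8d03) e
 (c z e
 (c (b (nat_lit 0x10f67803)) e
 (c (b (nat_lit 0x101a5207)) e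
 (c (b (nat_lit 0x101a6a07)) e
 (c (b (nat_lit 0xff0ac07)) e
 (c z e
 (c (b (nat_lit 0x102ba20f)) e
 (c (b (nat_lit 0x1036800f)) e
 (c z e
 (c (b (nat_lit 0x10148e0f)) e
 (c (b (nat_lit 0x10117811)) e
 (c (b (nat_lit 0x101b0a11)) e
 (c (nat_lit 0x80cab80bd980cab80cab80cab80cab4f953) e
 (c (nat_lit 0x80bc280bc280aff80bc280bc280bc2ef613) e
 (c (nat_lit 0x80bb280bb280c8c80c8c80c8c80c8c14ed3) e
 (c (b (nat_lit 0x1016e813)) e e))))))))))))))))))))))))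
 (c (a (nat_lit 0xfe07e00))
 (c (b (nat_lit 0xf97f001))
 (c (d (nat_lit 0xf8b9e0f)) e
 (c (d (nat_lit 0xfc8a211)) e
 (c (d (nat_lit 0xffee811)) e e)))
 (c (b (nat_lit 0x101e4401))
 (c (d (nat_lit 0xff06811)) e
 (c (d (nat_lit 0xfdb3e11)) e
 (c z e
 (c (d (nat_lit 0xfc4e813)) e e))))
 (c (b (nat_lit 0x101bc401))
 (c (d (nat_lit 0xfeca813)) e
 (c (d (nat_lit 0xffe3013)) e e))
 (c (b (nat_lit 0x10073e01))
 (c z e
 (c (d (nat_lit 0x10514813)) e e))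
 (c (b (nat_lit 0x101d0003)) e
 (c z e
 (c z e
 (c (b (nat_lit 0xfd84003)) e
 (c (b (nat_lit 0xf72dc07)) e
 (c (b (nat_lit 0xfc7d207)) e
 (c (b (nat_lit 0x1008f207)) e
 (c (b (nat_lit 0xffe0607)) e
 (c z e
 (c z e
 (c z e
 (c (b (nat_lit 0x10030e0f)) e
 (c (nat_lit 0x80797805f480797807978079780797787d1) e
 (c (b (nat_lit 0x101b0811)) e
 (c (b (nat_lit 0x101ba011)) e
 (c (nat_lit 0x80d9080d9080d9080d9080b9980d90a7dd3) e
 (c (nat_lit 0x80ce180ce180ce180c7080ce1809e853353) e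
 (c (nat_lit 0x80b0280bd880bd880bd880bd880bd8fcf13) e
 (c (nat_lit 0x80497804288042c80497804978049735a53) e e))))))))))))))))))))))) tt0))))))))))))) Tr.c Tr.e (nat_lit 0) C.t5 C.t6 C.t7
noncomputable def tt18 : Tr := beta% (fun (c : Nat → Tr → Tr → Tr) (e : Tr) (z : Nat) (a b d : Nat → Nat) =>
 (c (a (nat_lit 0xfe04e00))
 (c (b (nat_lit 0x101f3e01))
 (c (d (nat_lit 0xf61520f)) e
 (c z e
 (c z e
 (c z e
 (c z e
 (c z e
 (c (d (nat_lit 0xff0ca13)) e e)))))))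
 (c (b (nat_lit 0x101f7401))
 (c (nat_lit 0x7fb6b800008000080000800008000080000b5911) e e)
 (c z
 (c z e
 (c (d (nat_lit 0xfeee213)) e e))
 (c z e
 (c z e
 (c z e
 (c (b (nat_lit 0xf89a403)) e
 (c (b (nat_lit 0xfc73407)) e
 (c z e
 (c z e
 (c (b (nat_lit 0x1065aa07)) e
 (c (b (nat_lit 0xff9800b)) e
 (c z e
 (c (b (nat_lit 0xff1400f)) e
 (c z e
 (c (b (nat_lit 0x1007820f)) e
 (c z e
 (c (b (nat_lit 0x10075c11)) e
 (c (b (nat_lit 0x1006ae13)) e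
 (c (b (nat_lit 0x100e6613)) e
 (c (nat_lit 0x800007ffcc7ffcc800008000080000b70d3) e
 (c (b (nat_lit 0x10090813)) e e))))))))))))))))))))))
 (c (a (nat_lit 0xfe00200))
 (c z
 (c (nat_lit 0x7ee987eb437ee987ee987ee987ee987ee9857511) e
 (c (nat_lit 0x800007fe3780000800008000080000800003a018) e
 (c (d (nat_lit 0xffc4e41)) e e)))
 (c z
 (c (nat_lit 0x7eed57eed57ee037eed57eed57eed57eed5fd0a8) e e)
 (c z e
 (c z e
 (c (b (nat_lit 0x10695c03)) e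
 (c (nat_lit 0x80e8d80e8d80e8d80e8d80dbc80dbca4887) e
 (c z e
 (c (b (nat_lit 0x10393607)) e
 (c (b (nat_lit 0xf9de807)) e
 (c z e
 (c z e
 (c z e
 (c z e
 (c z e
 (c (b (nat_lit 0x100d2e11)) e
 (c (nat_lit 0x8076e8076e807608076e8076e8076e50bd1) e
 (c (nat_lit 0x8066a806588066a806168066a8066aa0511) e
 (c (b (nat_lit 0x10056218)) e e))))))))))))))))))
 (c (a (nat_lit 0xfe00a00))
 (c z e
 (c (b (nat_lit 0x100ed403)) e
 (c (b (nat_lit 0x1093dc03)) e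
 (c z e
 (c (b (nat_lit 0x10545a07)) e
 (c (b (nat_lit 0xff70807)) e
 (c (b (nat_lit 0x108be407)) e
 (c z e
 (c (b (nat_lit 0xfedca0f)) e
 (c (b (nat_lit 0x10053c0f)) e
 (c z e
 (c (b (nat_lit 0x10063e0f)) e
 (c (b (nat_lit 0x100afa11)) e
 (c (b (nat_lit 0x100ec011)) e
 (c (nat_lit 0x8074a807c2807c2807c2807c2807c2e5f51) e
 (c (nat_lit 0x80277801db802988029480298802983e011) e
 (c (nat_lit 0x802bb802bb802a2802bb802bb802bb6fa98) e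
 (c z e
 (c z e
 (c z e
 (c (nat_lit 0x80000800008000080000800007fe9302a93) e e)))))))))))))))))))))
 (c (a (nat_lit 0xfe00600))
 (c (b (nat_lit 0x101c2a03)) e
 (c (b (nat_lit 0x103afa07)) e
 (c (nat_lit 0x800008000080000800007ffae7ffae5e103) e
 (c z e
 (c z e
 (c (b (nat_lit 0x10caee0b)) e
 (c z e
 (c z e
 (c (b (nat_lit 0xff97e0f)) e
 (c z e
 (c (b (nat_lit 0x10066610)) e
 (c (b (nat_lit 0x100c4e11)) e
 (c (b (nat_lit 0x100cfc11)) e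
 (c (b (nat_lit 0x10077611)) e
 (c (b (nat_lit 0x1003cc11)) e
 (c (b (nat_lit 0x10059c18)) e
 (c z e
 (c z e
 (c z e
 (c z e
 (c (nat_lit 0x80000800008000080000800007fc36cf793) e e)))))))))))))))))))))
 (c (a (nat_lit 0xfdfce00))
 (c (b (nat_lit 0x102bd807)) e
 (c z e
 (c z e
 (c (b (nat_lit 0xf61180b)) e
 (c (b (nat_lit 0x105e220f)) e
 (c z e
 (c z e
 (c z e
 (c (b (nat_lit 0x100df810)) e
 (c (nat_lit 0x81caa81c6c81caa81c9f81caa81caa3a990) e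
 (c (b (nat_lit 0x10275811)) e
 (c (b (nat_lit 0x10071c11)) e
 (c (nat_lit 0x80242803668036680366803568036653a51) e
 (c (nat_lit 0x800837ffd88008380083800838008393991) e e))))))))))))))
 (c (a (nat_lit 0xfe00a00))
 (c z e
 (c (b (nat_lit 0x1011840b)) e
 (c z e
 (c z e
 (c z e
 (c z e
 (c (nat_lit 0x7ffff7ffff7ffc67ffc67ffff7ffff24990) e
 (c (nat_lit 0x809f280a8c80a8c80a8c80a8c80a8c7d6d0) e
 (c (nat_lit 0x80880807d380874808808088080880cc410) e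
 (c (nat_lit 0x80000800007ffd38000080000800000c8d0) e e))))))))))
 (c (a (nat_lit 0xfe01200))
 (c z e
 (c z e
 (c z e
 (c (b (nat_lit 0x1020c00f)) e
 (c (b (nat_lit 0x1025ae10)) e
 (c (b (nat_lit 0x10235210)) e
 (c (b (nat_lit 0x101aa410)) e
 (c (b (nat_lit 0x101b8c10)) e
 (c (nat_lit 0x800008000080b0580b0580b0580b056fe10) e
 (c (nat_lit 0x80000800008000080b0a80b0a80b0a4de10) e e))))))))))
 (c (nat_lit 0x7f0267f0257f0257f0257f025d9a60)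
 (c z e
 (c (b (nat_lit 0xfcc0a0f)) e
 (c (b (nat_lit 0x11001410)) e
 (c (b (nat_lit 0x101d6810)) e
 (c (b (nat_lit 0x100d6410)) e
 (c (nat_lit 0x80f3b80f3b80f2180f3b80f3b80f3bcc350) e
 (c (b (nat_lit 0x101e4610)) e
 (c (nat_lit 0x800008000080fa880fa880f9080fa81ad10) e
 (c (nat_lit 0x800008000080000810ce8107f8101d9ce10) e e)))))))))
 (c (a (nat_lit 0xfe01200))
 (c (b (nat_lit 0x11000c10)) e
 (c (b (nat_lit 0x102fb210)) e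
 (c (b (nat_lit 0x1016f610)) e
 (c (b (nat_lit 0x10141e10)) e
 (c (nat_lit 0x80bb380bf180bf180bf180bf180bf120050) e
 (c (b (nat_lit 0x101ada10)) e
 (c (nat_lit 0x800008000080dc280dc280dc280dc2b1690) e
 (c (nat_lit 0x80000800008000080d3380d3380d3342ad0) e
 (c (nat_lit 0x8000080000800008000080d3f80d3f9fd10) e e)))))))))
 (c (a (nat_lit 0xfdfde00)) e
 (c (a (nat_lit 0xfe00400)) e
 (c (a (nat_lit 0xfdff200)) e
 (c (a (nat_lit 0xfe07000)) e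
 (c (nat_lit 0x7f0207f01f7f01f7f01f7f01f137e0) e
 (c (a (nat_lit 0xfe05a01)) e
 (c (a (nat_lit 0xfe01201)) e
 (c (nat_lit 0x7f06c7f06c7f06c7f0277f02af4741) e
 (c (a (nat_lit 0xfe3ba01)) e
 (c (a (nat_lit 0xfe13203)) e
 (c (a (nat_lit 0xfe3a603)) e
 (c z e
 (c (a (nat_lit 0x10037c03)) e
 (c (a (nat_lit 0xff3aa07)) e
 (c (a (nat_lit 0xfee0407)) e
 (c (nat_lit 0x800007fedd7fedd7ff898000062c67) e
 (c z e
 (c (nat_lit 0x7fbd37fbd37fbd37fbb87fbb878d0b) e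
 (c (a (nat_lit 0xff1580f)) e
 (c z e
 (c z e
 (c (a (nat_lit 0xff0c60f)) e e)))))))))))))))))))))))))))))))) Tr.c Tr.e (nat_lit 0) C.t5 C.t6 C.t7
noncomputable def tt19 : Tr := beta% (fun (c : Nat → Tr → Tr → Tr) (e : Tr) (z : Nat) (a b : Nat → Nat) =>
 (c (a (nat_lit 0x101ee000))
 (c (b (nat_lit 0xfa4e403)) e
 (c z e
 (c z e
 (c z e
 (c z e
 (c z e
 (c z e
 (c (nat_lit 0x7ff717ff717ff717ff717facc7ff717ff71e6f0f) e
 (c z e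
 (c z e
 (c (b (nat_lit 0x1061d813)) e
 (c (b (nat_lit 0x102bc613)) e e))))))))))))
 (c (a (nat_lit 0x101f3000))
 (c (nat_lit 0x8000080000800008000080000800007fd3cc1883) e
 (c z e
 (c (b (nat_lit 0xfeb1007)) e
 (c z e
 (c (b (nat_lit 0xfc1b20f)) e
 (c z e
 (c z e
 (c z e
 (c z e
 (c (b (nat_lit 0x1032aa13)) e
 (c (b (nat_lit 0x1057e013)) e
 (c z e
 (c (b (nat_lit 0xfffb029)) e
 (c z e
 (c z e
 (c (nat_lit 0x80000800008000080000800007ff6280000d9497) e e))))))))))))))))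
 (c (a (nat_lit 0x101f0200))
 (c z e
 (c z e
 (c z e
 (c z e
 (c z e
 (c (b (nat_lit 0x1078e60f)) e e))))))
 (c (a (nat_lit 0x101fee00)) e
 (c (a (nat_lit 0x101f6800))
 (c z e
 (c (b (nat_lit 0xffe300f)) e e))
 (c (a (nat_lit 0x101e9801))
 (c (nat_lit 0x8000080000800007ff8780000800008000007c13) e
 (c z e
 (c (b (nat_lit 0xfebf013)) e e)))
 (c (a (nat_lit 0x101f9c01))
 (c (nat_lit 0x80000800008000080000800007fed78000038213) e e)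
 (c (a (nat_lit 0x101eae01)) e
 (c (a (nat_lit 0x10175e01)) e
 (c z e
 (c z e
 (c z e
 (c (a (nat_lit 0x10140003)) e
 (c z e
 (c z e
 (c (a (nat_lit 0xff06a07)) e
 (c z e
 (c z e
 (c (a (nat_lit 0x100fc60f)) e
 (c (a (nat_lit 0x100d920f)) e
 (c z e
 (c (a (nat_lit 0x100f020f)) e
 (c (nat_lit 0x8065680656805c580656806568065609153) e
 (c (a (nat_lit 0x100b9a13)) e
 (c z e
 (c (a (nat_lit 0x10114019)) e e))))))))))))))))))))))))))) Tr.c Tr.e (nat_lit 0) C.t6 C.t7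
noncomputable def tt20 : Tr := beta% (fun (c : Nat → Tr → Tr → Tr) (e : Tr) (z : Nat) (a b : Nat → Nat) =>
 (c (a (nat_lit 0x101fa000))
 (c (b (nat_lit 0xf667e03)) e
 (c (b (nat_lit 0xfb19803)) e
 (c z e
 (c z e
 (c (b (nat_lit 0xfd93e07)) e
 (c z e
 (c z e
 (c z e
 (c z e
 (c z e
 (c z e
 (c z e
 (c (b (nat_lit 0x106ef20f)) e
 (c (b (nat_lit 0x100ee813)) e
 (c (b (nat_lit 0x101b1c13)) e
 (c z e
 (c z e
 (c (b (nat_lit 0xfff9217)) e e))))))))))))))))))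
 (c (a (nat_lit 0x101fa600))
 (c z e
 (c (b (nat_lit 0xf4c3003)) e
 (c z e
 (c z e
 (c z e
 (c z e
 (c z e
 (c (b (nat_lit 0xff2fc0f)) e
 (c z e
 (c z e
 (c z e
 (c z e
 (c (b (nat_lit 0x10210813)) e
 (c z e
 (c z e
 (c (b (nat_lit 0xfff7a17)) e e))))))))))))))))
 (c (a (nat_lit 0x101f6400))
 (c z e
 (c z e
 (c z e
 (c z e
 (c z e
 (c z e
 (c z e
 (c z e
 (c z e
 (c z e
 (c z e
 (c (b (nat_lit 0x10248417)) e e))))))))))))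
 (c (a (nat_lit 0x101f3400))
 (c z e
 (c z e
 (c z e
 (c (b (nat_lit 0xffd460f)) e
 (c z e
 (c z e
 (c z e
 (c z e
 (c z e
 (c z e
 (c z e
 (c (b (nat_lit 0x1026ec17)) e e))))))))))))
 (c (a (nat_lit 0x101f6600))
 (c z e
 (c z e
 (c z e
 (c z e
 (c (b (nat_lit 0x101e480f)) e e)))))
 (c (a (nat_lit 0x101f9600)) e
 (c (a (nat_lit 0x101fda00)) e
 (c (a (nat_lit 0x10201401)) e
 (c (a (nat_lit 0x10203001)) e
 (c (a (nat_lit 0x101ff801)) e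
 (c (nat_lit 0x81034810348103481034810218102157141) e
 (c z e
 (c (a (nat_lit 0x100ec403)) e
 (c (a (nat_lit 0x10154003)) e
 (c z e
 (c z e
 (c z e
 (c (a (nat_lit 0xff53c07)) e
 (c (a (nat_lit 0xff9d607)) e
 (c z e
 (c z e
 (c z e
 (c (a (nat_lit 0x10176a0f)) e
 (c (a (nat_lit 0x1017160f)) e
 (c (a (nat_lit 0x100a9e13)) e
 (c (a (nat_lit 0x100ca813)) e
 (c (a (nat_lit 0x10163c17)) e
 (c (a (nat_lit 0x1018f617)) e e))))))))))))))))))))))))))))) Tr.c Tr.e (nat_lit 0) C.t6 C.t7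
noncomputable def tt21 : Tr := beta% (fun (c : Nat → Tr → Tr → Tr) (e : Tr) (z : Nat) (a b : Nat → Nat) =>
 (c (a (nat_lit 0x101f0e00))
 (c (b (nat_lit 0xfdac601)) e
 (c (b (nat_lit 0xfe2fe01)) e
 (c (b (nat_lit 0xfe31201)) e
 (c (b (nat_lit 0xfbf7403)) e
 (c (b (nat_lit 0xfd8e803)) e
 (c (b (nat_lit 0xfde2e03)) e
 (c z e
 (c z e
 (c z e
 (c z e
 (c (b (nat_lit 0x100cc607)) e
 (c (b (nat_lit 0x1034300b)) e
 (c z e
 (c z e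
 (c (b (nat_lit 0xfe4320f)) e
 (c (b (nat_lit 0x100fe40f)) e
 (c z e
 (c z e
 (c (b (nat_lit 0xffeaa17)) e
 (c z e
 (c (b (nat_lit 0xfffa617)) e
 (c (nat_lit 0x8000080000800008000080000800007ff9873897) e e))))))))))))))))))))))
 (c (a (nat_lit 0x101f7200))
 (c (b (nat_lit 0xfe25c01)) e
 (c (b (nat_lit 0xfe08c03)) e
 (c z e
 (c z e
 (c (b (nat_lit 0xfc1c803)) e
 (c z e
 (c z e
 (c z e
 (c (b (nat_lit 0xfffe007)) e
 (c z e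
 (c (b (nat_lit 0x102a3a0f)) e
 (c z e
 (c z e
 (c (b (nat_lit 0x100a020f)) e
 (c (b (nat_lit 0xfffec13)) e
 (c z e
 (c (b (nat_lit 0x10104a17)) e
 (c z e
 (c (nat_lit 0x800007fef380000800008000080000800004b497) e
 (c (nat_lit 0x80000800007fedf800008000080000800005639b) e
 (c z e
 (c (nat_lit 0x8000080000800008000080000800007feaa3209b) e e))))))))))))))))))))))
 (c (a (nat_lit 0x101f2400))
 (c z e
 (c (b (nat_lit 0xfe4ba03)) e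
 (c z e
 (c z e
 (c z e
 (c (b (nat_lit 0x1009ba07)) e
 (c z e
 (c z e
 (c z e
 (c z e
 (c z e
 (c z e
 (c z e
 (c (b (nat_lit 0x102bc817)) e e))))))))))))))
 (c (a (nat_lit 0x101f1600))
 (c z e
 (c z e
 (c z e
 (c (b (nat_lit 0x10194e07)) e
 (c z e
 (c z e
 (c (b (nat_lit 0xfb7e80f)) e e)))))))
 (c (a (nat_lit 0x101ec600))
 (c z e
 (c z e
 (c z e
 (c z e
 (c (b (nat_lit 0xffbcc0f)) e
 (c (b (nat_lit 0xfb3bc0f)) e
 (c z e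
 (c z e
 (c z e
 (c z e
 (c (b (nat_lit 0xfd04c17)) e e)))))))))))
 (c (a (nat_lit 0x101f0e00))
 (c z e
 (c z e
 (c z e
 (c z e
 (c z e
 (c z e
 (c z e
 (c z e
 (c z e
 (c z e
 (c (b (nat_lit 0x102f3217)) e e)))))))))))
 (c (a (nat_lit 0x101f7400)) e
 (c (a (nat_lit 0x101f4c00)) e
 (c (a (nat_lit 0x101f0000)) e
 (c (a (nat_lit 0x101f2201)) e
 (c (a (nat_lit 0x10202601)) e
 (c (a (nat_lit 0x101f4801)) e
 (c (a (nat_lit 0x101b7c01)) e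
 (c z e
 (c (a (nat_lit 0x10276803)) e
 (c (a (nat_lit 0x10248003)) e
 (c (a (nat_lit 0x10025603)) e
 (c z e
 (c z e
 (c (a (nat_lit 0xffaa607)) e
 (c (a (nat_lit 0xff9c807)) e
 (c (a (nat_lit 0xff3560b)) e
 (c z e
 (c z e
 (c z e
 (c z e
 (c z e
 (c (nat_lit 0x804a3803ed804a3804a3804a3804a39ad57) e
 (c (nat_lit 0x80566805668051280512805668056651617) e
 (c z e
 (c z e
 (c (a (nat_lit 0xffdf01b)) e e))))))))))))))))))))))))))))))))) Tr.c Tr.e (nat_lit 0) C.t6 C.t7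
noncomputable def tt22 : Tr := beta% (fun (c : Nat → Tr → Tr → Tr) (e : Tr) (z : Nat) (a b : Nat → Nat) =>
 (c (a (nat_lit 0x101efe00))
 (c (b (nat_lit 0xfe0e600)) e
 (c (b (nat_lit 0xfe2a800)) e
 (c (b (nat_lit 0xfd80801)) e
 (c (b (nat_lit 0xfe16e01)) e
 (c (b (nat_lit 0xfe39001)) e
 (c (b (nat_lit 0xfe35001)) e
 (c (b (nat_lit 0xfdd5203)) e
 (c (b (nat_lit 0xfdd9403)) e
 (c (b (nat_lit 0xfe0b603)) e
 (c z e
 (c z e
 (c z e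
 (c (b (nat_lit 0xfff2e07)) e
 (c z e
 (c (b (nat_lit 0xf75960b)) e
 (c (nat_lit 0x7ed1e7ed1e7ecd27ed1e7ed1e7ed1e7ed1ed718f) e
 (c (b (nat_lit 0xfdb6c0f)) e
 (c z e
 (c z e
 (c z e
 (c z e
 (c (b (nat_lit 0xffc3017)) e
 (c (b (nat_lit 0xffcf017)) e
 (c (b (nat_lit 0xffeca1b)) e
 (c (nat_lit 0x7fa917fa177fa917fa917fa917fa917fa91661b8) e e)))))))))))))))))))))))))
 (c (a (nat_lit 0x101f5400))
 (c (b (nat_lit 0xfe2f401)) e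
 (c (b (nat_lit 0xfe28c01)) e
 (c (b (nat_lit 0xfe21c01)) e
 (c (b (nat_lit 0xfe37201)) e
 (c (nat_lit 0x7f1d67f1d67f1d67f1d67f1d67f1947f195d3d83) e
 (c z e
 (c z e
 (c z e
 (c (b (nat_lit 0xfe64807)) e
 (c (b (nat_lit 0xfe3e607)) e
 (c z e
 (c (b (nat_lit 0xfb97c07)) e
 (c z e
 (c (b (nat_lit 0xfff8a0f)) e
 (c (b (nat_lit 0x1020760f)) e
 (c (b (nat_lit 0xfe34c0f)) e
 (c (b (nat_lit 0x10081c0f)) e
 (c (b (nat_lit 0x102e0417)) e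
 (c (b (nat_lit 0x10174217)) e
 (c (b (nat_lit 0x1015ac17)) e e))))))))))))))))))))
 (c (a (nat_lit 0x101f6400))
 (c (b (nat_lit 0xfe2a201)) e
 (c (b (nat_lit 0xfe1cc01)) e
 (c (b (nat_lit 0xfdbd003)) e
 (c z e
 (c (b (nat_lit 0xfdc0003)) e
 (c z e
 (c z e
 (c z e
 (c z e
 (c (b (nat_lit 0xffea407)) e
 (c z e
 (c z e
 (c z e
 (c (b (nat_lit 0x100dae0f)) e
 (c z e
 (c (b (nat_lit 0x10269c17)) e
 (c (b (nat_lit 0x10226417)) e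
 (c z e
 (c z e
 (c (b (nat_lit 0xffea41b)) e e))))))))))))))))))))
 (c (a (nat_lit 0x101fd800))
 (c (b (nat_lit 0xfe08603)) e
 (c (b (nat_lit 0xfdfe403)) e
 (c (b (nat_lit 0xfffb203)) e e)))
 (c (a (nat_lit 0x101eaa00))
 (c (b (nat_lit 0xfed7603)) e
 (c (b (nat_lit 0xff60a03)) e
 (c z e
 (c z e
 (c (nat_lit 0x7f4837f4837f4837f3e37f4837f4837f483fe307) e
 (c z e
 (c (b (nat_lit 0xff2940b)) e
 (c (b (nat_lit 0xfbcc60f)) e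
 (c z e
 (c z e
 (c z e
 (c (b (nat_lit 0xfee8e17)) e
 (c (b (nat_lit 0xfcb5817)) e
 (c (b (nat_lit 0xfda6017)) e
 (c z e
 (c (b (nat_lit 0x1021541b)) e e))))))))))))))))
 (c (a (nat_lit 0x101efe00))
 (c z e
 (c z e
 (c z e
 (c z e
 (c z e
 (c (b (nat_lit 0xfc3080f)) e
 (c (b (nat_lit 0xffeaa0f)) e
 (c z e
 (c z e
 (c z e
 (c (b (nat_lit 0xfad5c17)) e
 (c (b (nat_lit 0xfd6f817)) e
 (c z e
 (c z e
 (c (b (nat_lit 0xffee029)) e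
 (c z e
 (c (nat_lit 0x800008000080000800007fe8d8000080000840b0) e e)))))))))))))))))
 (c (a (nat_lit 0x101f8a00))
 (c z e
 (c z e
 (c z e
 (c z e
 (c (b (nat_lit 0xfffec0f)) e
 (c z e
 (c z e
 (c z e
 (c (b (nat_lit 0x101dc217)) e e)))))))))
 (c (a (nat_lit 0x101f6c00))
 (c (b (nat_lit 0xfffd40b)) e
 (c (nat_lit 0x7fcd97fa617fcd97fcd97fcd97fcd97fcd959e0f) e
 (c (nat_lit 0x80000800007fcda800008000080000800002308f) e
 (c (b (nat_lit 0x1015620f)) e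
 (c z e
 (c (b (nat_lit 0x1024a617)) e
 (c z e
 (c (b (nat_lit 0x10056617)) e e))))))))
 (c (a (nat_lit 0x10206000))
 (c (nat_lit 0x7eb337eb337ea8e7eb337eb337eb337eb337948f) e
 (c z e
 (c z e
 (c z e
 (c z e
 (c z e
 (c z e
 (c z e
 (c (nat_lit 0x8000080000800007ffcc7ffd980000800000c7a8) e
 (c z e
 (c z e
 (c (nat_lit 0x80000800008000080000800007ff90800009531f) e e))))))))))))
 (c (a (nat_lit 0x101f0800))
 (c z e
 (c z e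
 (c z e
 (c z e
 (c z e
 (c z e
 (c (b (nat_lit 0xfe64c28)) e e)))))))
 (c (a (nat_lit 0x101f6800))
 (c (b (nat_lit 0xffc4e17)) e e)
 (c (a (nat_lit 0x101f1001)) e
 (c (a (nat_lit 0x10201401)) e
 (c z e
 (c z e
 (c (nat_lit 0x8105581055810558105581055810424ac43) e
 (c (a (nat_lit 0x10191c03)) e
 (c (a (nat_lit 0x1021fa03)) e
 (c (a (nat_lit 0x101c8603)) e
 (c (a (nat_lit 0x100b1c07)) e
 (c (a (nat_lit 0x100a5807)) e
 (c (a (nat_lit 0x10048407)) e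
 (c z e
 (c (a (nat_lit 0x1009080b)) e
 (c (a (nat_lit 0x100e180f)) e
 (c (a (nat_lit 0x100ee20f)) e
 (c z e
 (c z e
 (c (nat_lit 0x8059f803d48059f8059f8059f8059f79597) e
 (c (a (nat_lit 0x1007fc17)) e e))))))))))))))))))))))))))))))) Tr.c Tr.e (nat_lit 0) C.t6 C.t7
noncomputable def tt23 : Tr := beta% (fun (c : Nat → Tr → Tr → Tr) (e : Tr) (z : Nat) (a b : Nat → Nat) =>
 (c (a (nat_lit 0x101eac00))
 (c (b (nat_lit 0xfe3e800)) e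
 (c (b (nat_lit 0xfe38601)) e
 (c (b (nat_lit 0xfe32201)) e
 (c (b (nat_lit 0xfe3ea01)) e
 (c (b (nat_lit 0xfe47a01)) e
 (c (b (nat_lit 0xfdd3c03)) e
 (c z e
 (c z e
 (c (b (nat_lit 0xfeda803)) e
 (c z e
 (c z e
 (c z e
 (c z e
 (c (b (nat_lit 0xfff800b)) e
 (c z e
 (c z e
 (c z e
 (c z e
 (c z e
 (c (b (nat_lit 0xffe6e17)) e e))))))))))))))))))))
 (c (a (nat_lit 0x101f4e00))
 (c (b (nat_lit 0xfe47e01)) e
 (c (nat_lit 0x7f14e7f14e7f14e7f14c7f14c7f14c7f14e5ed81) e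
 (c (nat_lit 0x7f1ca7f1ca7f1ca7f1ca7f1c57f1c87f1c9e1a01) e
 (c (nat_lit 0x7f1a37f1a37f1a37f1a37f1a37f1367f13d46683) e
 (c (nat_lit 0x7f1f17f1f17f1f17f1f17f1f17f1f17f13910e83) e
 (c (b (nat_lit 0xfe73e03)) e
 (c (b (nat_lit 0xff65a03)) e
 (c z e
 (c z e
 (c z e
 (c (b (nat_lit 0x101e8607)) e
 (c z e
 (c (b (nat_lit 0x10117e0f)) e
 (c z e
 (c (b (nat_lit 0x10043a0f)) e
 (c (b (nat_lit 0xffff40f)) e
 (c z e
 (c (nat_lit 0x7ff30800008000080000800008000080000cff17) e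
 (c (nat_lit 0x800007ffef80000800008000080000800001d317) e
 (c (nat_lit 0x80645806458061880645806458064580645eb91b) e
 (c (nat_lit 0x8000080000800007ffff8000080000800008d627) e
 (c (b (nat_lit 0xfff1627)) e e))))))))))))))))))))))
 (c (a (nat_lit 0x101f2a00))
 (c (b (nat_lit 0xfe32e01)) e
 (c (b (nat_lit 0xfdff203)) e
 (c z e
 (c (b (nat_lit 0xfee0e03)) e
 (c z e
 (c (nat_lit 0x800007fe928000080000800008000080000a5c87) e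
 (c z e
 (c z e
 (c z e
 (c (b (nat_lit 0xfff7e0b)) e
 (c z e
 (c (b (nat_lit 0xffed40f)) e
 (c z e
 (c z e
 (c (b (nat_lit 0xffeba17)) e
 (c (b (nat_lit 0xffe4217)) e e))))))))))))))))
 (c (a (nat_lit 0x101ec000))
 (c (b (nat_lit 0xfe95003)) e
 (c z e
 (c z e
 (c z e
 (c z e
 (c z e
 (c z e
 (c z e
 (c (nat_lit 0x8000080000800007fe988000080000800007740f) e
 (c z e
 (c z e
 (c z e
 (c z e
 (c z e
 (c (b (nat_lit 0xfff5417)) e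
 (c z e
 (c (nat_lit 0x800007feda80000800008000080000800004c429) e e)))))))))))))))))
 (c (a (nat_lit 0x101eda00))
 (c z e
 (c z e
 (c z e
 (c z e
 (c z e
 (c z e
 (c (b (nat_lit 0xffe460f)) e
 (c (b (nat_lit 0x1038e00f)) e
 (c z e
 (c z e
 (c z e
 (c (b (nat_lit 0xfeeb617)) e
 (c (b (nat_lit 0xfffe417)) e
 (c z e
 (c (b (nat_lit 0x10228a23)) e e)))))))))))))))
 (c (a (nat_lit 0x101ebc00))
 (c z e
 (c z e
 (c z e
 (c z e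
 (c (b (nat_lit 0xfa9020f)) e
 (c z e
 (c (b (nat_lit 0x1030b40f)) e
 (c z e
 (c z e
 (c z e
 (c z e
 (c (b (nat_lit 0x1013521b)) e
 (c z e
 (c (b (nat_lit 0xfffd823)) e e))))))))))))))
 (c (a (nat_lit 0x101fa400))
 (c z e
 (c (nat_lit 0x7fed47fed47fe787fed47fed47fed47fed418e8b) e
 (c (b (nat_lit 0x1019040f)) e
 (c z e
 (c z e
 (c z e
 (c z e
 (c z e
 (c (b (nat_lit 0xfff5817)) e e)))))))))
 (c (a (nat_lit 0x10201200))
 (c (nat_lit 0x8000080000800007ff57800008000080000e8c0f) e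
 (c z e
 (c z e
 (c z e
 (c (b (nat_lit 0xfffba17)) e
 (c (b (nat_lit 0x100bcc17)) e
 (c z e
 (c z e
 (c (b (nat_lit 0xffa9a28)) e e)))))))))
 (c (a (nat_lit 0x101f8a00))
 (c z e
 (c (b (nat_lit 0xfff460f)) e
 (c z e
 (c z e
 (c z e
 (c z e
 (c (b (nat_lit 0xfff7021)) e
 (c (b (nat_lit 0xfff9e28)) e e))))))))
 (c (a (nat_lit 0x101f3c00)) e
 (c (a (nat_lit 0x101e8a00)) e
 (c (a (nat_lit 0x101e8401)) e
 (c (a (nat_lit 0x101f9001)) e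
 (c (a (nat_lit 0x101f7401))
 (c z e
 (c (nat_lit 0x80000800008000080000800007e90f7e90f45f20) e e))
 (c (a (nat_lit 0x101d1e01)) e
 (c (a (nat_lit 0x10151003)) e
 (c (a (nat_lit 0x1023b603)) e
 (c (a (nat_lit 0x10231403)) e
 (c (a (nat_lit 0x100ea403)) e
 (c (a (nat_lit 0x1003ea07)) e
 (c (a (nat_lit 0x1005fe07)) e
 (c z e
 (c (a (nat_lit 0xfe8c207)) e
 (c z e
 (c z e
 (c z e
 (c z e
 (c z e
 (c (a (nat_lit 0x1001da17)) e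
 (c z e
 (c (a (nat_lit 0xffffe17)) e
 (c (a (nat_lit 0x100e021b)) e e))))))))))))))))))))))))))))))))) Tr.c Tr.e (nat_lit 0) C.t6 C.t7
noncomputable def tt24 : Tr := beta% (fun (c : Nat → Tr → Tr → Tr) (e : Tr) (z : Nat) (a b : Nat → Nat) =>
 (c (a (nat_lit 0x101f3e00))
 (c (b (nat_lit 0xfd90c00)) e
 (c (b (nat_lit 0xfe24e00)) e
 (c (b (nat_lit 0xfe3a400)) e
 (c (b (nat_lit 0xfe25800)) e
 (c (b (nat_lit 0xfe2c800)) e
 (c (b (nat_lit 0xfe3e001)) e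
 (c (b (nat_lit 0xfe32a01)) e
 (c (b (nat_lit 0xfe33401)) e
 (c (nat_lit 0x7f1157f1157f1157f1157f0ed7f0ed7f0f06d801) e
 (c (b (nat_lit 0xfddee03)) e
 (c (b (nat_lit 0xfebb603)) e
 (c (b (nat_lit 0xfdcaa03)) e
 (c (b (nat_lit 0xfd75203)) e
 (c z e
 (c z e
 (c z e
 (c z e
 (c (b (nat_lit 0xfeb6e0b)) e
 (c (b (nat_lit 0xfeb820f)) e
 (c z e
 (c z e
 (c (b (nat_lit 0x1012580f)) e
 (c (b (nat_lit 0x10080e17)) e
 (c (b (nat_lit 0xffffc17)) e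
 (c (b (nat_lit 0xffff017)) e
 (c (b (nat_lit 0xfffe61b)) e e))))))))))))))))))))))))))
 (c (a (nat_lit 0x101f0600))
 (c (b (nat_lit 0xfe36600)) e
 (c (b (nat_lit 0xfe36400)) e
 (c (b (nat_lit 0xfe1e600)) e
 (c (b (nat_lit 0xfe22801)) e
 (c (b (nat_lit 0xfe43c01)) e
 (c (b (nat_lit 0xfe39201)) e
 (c (b (nat_lit 0xfe32e01)) e
 (c (b (nat_lit 0xfdf7a03)) e
 (c (b (nat_lit 0xfd92603)) e
 (c (b (nat_lit 0xfeb1603)) e
 (c (b (nat_lit 0xfe5f603)) e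
 (c z e
 (c z e
 (c z e
 (c z e
 (c z e
 (c (b (nat_lit 0xfd3b60f)) e
 (c z e
 (c (b (nat_lit 0xff8300f)) e
 (c z e
 (c (b (nat_lit 0x10076017)) e
 (c (b (nat_lit 0x100ebe17)) e
 (c (nat_lit 0x7fec07ffcd7ffcd7ffcd7ffcd7ffcd7ffcd75717) e
 (c (nat_lit 0x7ff877fd1f7ff877ff877ff877ff877ff877a31b) e
 (c z e
 (c z e
 (c z e
 (c (nat_lit 0x80000800008000080000800007ffed80000bc81f) e e)))))))))))))))))))))))))))) tt23))) Tr.c Tr.e (nat_lit 0) C.t6 C.t7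
noncomputable def tt25 : Tr := beta% (fun (c : Nat → Tr → Tr → Tr) (e : Tr) (z : Nat) (a b : Nat → Nat) =>
 (c (a (nat_lit 0x101d7200))
 (c (b (nat_lit 0xfe70c00)) e
 (c (b (nat_lit 0xfe5e800)) e
 (c (b (nat_lit 0xfe40001)) e
 (c (b (nat_lit 0xfe4f201)) e
 (c (b (nat_lit 0xfe56001)) e
 (c (b (nat_lit 0xfe48401)) e
 (c (nat_lit 0x7f2567f2567f2397f2567f2567f1ef7f1f024503) e
 (c (b (nat_lit 0xfeb7003)) e
 (c (b (nat_lit 0xfede803)) e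
 (c z e
 (c z e
 (c z e
 (c z e
 (c (b (nat_lit 0xfeb7c07)) e
 (c z e
 (c z e
 (c z e
 (c z e
 (c (b (nat_lit 0xfffb00f)) e
 (c (b (nat_lit 0x10063e17)) e
 (c (b (nat_lit 0x10153217)) e
 (c (b (nat_lit 0x1011301b)) e
 (c z e
 (c z e
 (c (b (nat_lit 0xffcc62b)) e e)))))))))))))))))))))))))
 (c (a (nat_lit 0x101e2000))
 (c (b (nat_lit 0xfe4a601)) e
 (c (b (nat_lit 0xfdce201)) e
 (c (b (nat_lit 0xfe3f601)) e
 (c (nat_lit 0x7f27e7f27e7f27e7f27e7f25c7f25c7f25c89d81) e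
 (c (b (nat_lit 0xfdcc203)) e
 (c (b (nat_lit 0xfedd203)) e
 (c (b (nat_lit 0xfeb5003)) e
 (c (b (nat_lit 0xfe61003)) e
 (c z e
 (c (b (nat_lit 0xfe18c07)) e
 (c z e
 (c z e
 (c z e
 (c z e
 (c (b (nat_lit 0x1009a60f)) e
 (c z e
 (c z e
 (c z e
 (c z e
 (c z e
 (c z e
 (c (nat_lit 0x7ff867fd257ff867ff867ff867ff867ff868aa27) e e))))))))))))))))))))))
 (c (a (nat_lit 0x101f9e00))
 (c (b (nat_lit 0xfe25601)) e
 (c (b (nat_lit 0xfe23001)) e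
 (c (nat_lit 0x7ea797ea737ea797ea797ea797ea797ea7968883) e
 (c z e
 (c (b (nat_lit 0xff1f203)) e
 (c (b (nat_lit 0xfe77c03)) e
 (c z e
 (c z e
 (c z e
 (c (b (nat_lit 0xffe4007)) e
 (c z e
 (c z e
 (c z e
 (c z e
 (c z e
 (c z e
 (c z e
 (c (b (nat_lit 0xfffce1b)) e e))))))))))))))))))
 (c (a (nat_lit 0x101f8400))
 (c (b (nat_lit 0xfede603)) e
 (c z e
 (c z e
 (c z e
 (c z e
 (c z e
 (c z e
 (c z e
 (c (b (nat_lit 0xfffb60b)) e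
 (c (b (nat_lit 0xfffea0f)) e
 (c z e
 (c z e
 (c z e
 (c z e
 (c z e
 (c (b (nat_lit 0xffd561b)) e e))))))))))))))))
 (c (a (nat_lit 0x101f6e00))
 (c z e
 (c z e
 (c z e
 (c z e
 (c z e
 (c (b (nat_lit 0xfff9807)) e
 (c z e
 (c z e
 (c z e
 (c z e
 (c z e
 (c z e
 (c (b (nat_lit 0xfff9c17)) e e)))))))))))))
 (c (a (nat_lit 0x101fa800))
 (c z e
 (c z e
 (c (b (nat_lit 0x10208607)) e
 (c (b (nat_lit 0x101af407)) e
 (c z e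
 (c z e
 (c z e
 (c z e
 (c z e
 (c z e
 (c (b (nat_lit 0xfffea17)) e
 (c (b (nat_lit 0xffff81b)) e
 (c z e
 (c (nat_lit 0x7ffbf7ffbf7ffbf7ff247ffbf7ffbf7ffbfafea3) e e))))))))))))))
 (c (a (nat_lit 0x101fc800))
 (c z e
 (c z e
 (c z e
 (c z e
 (c z e
 (c z e
 (c z e
 (c z e
 (c z e
 (c (b (nat_lit 0xfff7e1b)) e
 (c (nat_lit 0x7fffd7ffa17fffd7fffd7fffd7fffd7fffdc0128) e
 (c (nat_lit 0x8036b8036b8028d802ee803228036b8036bd4e30) e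
 (c (nat_lit 0x8000080000800007ffce800008000080000ec19f) e e)))))))))))))
 (c (a (nat_lit 0x10202400))
 (c z e
 (c z e
 (c (b (nat_lit 0xff31a0f)) e
 (c (b (nat_lit 0x1035ec0f)) e e))))
 (c (a (nat_lit 0x10208200))
 (c z e
 (c (b (nat_lit 0xfff600f)) e
 (c z e
 (c z e
 (c (b (nat_lit 0x102c6817)) e e)))))
 (c (a (nat_lit 0x10207200))
 (c z e
 (c z e
 (c z e
 (c (b (nat_lit 0x10235c1b)) e
 (c z e
 (c (b (nat_lit 0xfff3e21)) e e))))))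
 (c (a (nat_lit 0x101eec00)) e
 (c (a (nat_lit 0x1020e800))
 (c z e
 (c z e
 (c z e
 (c z e
 (c (nat_lit 0x80000800008000080000800007fdf48000030b20) e e)))))
 (c (a (nat_lit 0x101f6a01)) e
 (c (a (nat_lit 0x101ff401))
 (c (nat_lit 0x8000080000800008184381843818438184382aa0) e
 (c (nat_lit 0x800008000080000800007e74b7e74b7e74bae020) e
 (c z e
 (c (nat_lit 0x8000080000800008000080000800007fe41f6a20) e e))))
 (c (nat_lit 0x8104c8104c8104c81044810448104731341) e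
 (c (a (nat_lit 0x1014c401)) e
 (c (a (nat_lit 0x10162803)) e
 (c (a (nat_lit 0x10162203)) e
 (c (a (nat_lit 0x101a8003)) e
 (c (a (nat_lit 0x1011da03)) e
 (c (a (nat_lit 0x10043c07)) e
 (c z e
 (c z e
 (c (a (nat_lit 0xf8fbe07)) e
 (c (a (nat_lit 0xff7740b)) e e)))))))))))))))))))))))))) Tr.c Tr.e (nat_lit 0) C.t6 C.t7
noncomputable def tt26 : Tr := beta% (fun (c : Nat → Tr → Tr → Tr) (e : Tr) (z : Nat) (a b : Nat → Nat) =>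
 (c (a (nat_lit 0x10208400))
 (c (b (nat_lit 0xfdd1200)) e
 (c (b (nat_lit 0xfe2b200)) e
 (c (b (nat_lit 0xfe84800)) e
 (c (b (nat_lit 0xfe51200)) e
 (c (b (nat_lit 0xfe3ba00)) e
 (c (b (nat_lit 0xfe0bc00)) e
 (c (b (nat_lit 0xfe00000)) e
 (c (b (nat_lit 0xfe04600)) e
 (c (b (nat_lit 0xfe06001)) e
 (c (b (nat_lit 0xfe07201)) e
 (c (b (nat_lit 0xfdff201)) e
 (c (nat_lit 0x7efdf7efdf7efdf7efdf7efa37efa37efa3c1481) e
 (c (b (nat_lit 0xfdcb003)) e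
 (c (b (nat_lit 0xfe21803)) e
 (c (b (nat_lit 0xfc26003)) e
 (c (b (nat_lit 0xf909603)) e
 (c z e
 (c (b (nat_lit 0xfeee007)) e
 (c (b (nat_lit 0xffb9c07)) e
 (c (b (nat_lit 0xffffc07)) e
 (c (b (nat_lit 0xffff20b)) e
 (c (b (nat_lit 0x10072e0f)) e
 (c (b (nat_lit 0x1007b20f)) e
 (c (b (nat_lit 0x1007440f)) e
 (c z e
 (c (b (nat_lit 0xfffe217)) e
 (c (b (nat_lit 0x1026f617)) e
 (c (b (nat_lit 0x100ccc1b)) e
 (c z e
 (c z e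
 (c (b (nat_lit 0xfffc039)) e e)))))))))))))))))))))))))))))))
 (c (a (nat_lit 0x101e0600))
 (c (b (nat_lit 0xfe40e00)) e
 (c (b (nat_lit 0xfe54e00)) e
 (c (b (nat_lit 0xfe61600)) e
 (c (b (nat_lit 0xfe54c00)) e
 (c (b (nat_lit 0xfe31000)) e
 (c (b (nat_lit 0xfe3c800)) e
 (c (b (nat_lit 0xfe4a801)) e
 (c (b (nat_lit 0xfe3cc01)) e
 (c (b (nat_lit 0xfe30601)) e
 (c (b (nat_lit 0xfe24e01)) e
 (c (b (nat_lit 0xfe2ae03)) e
 (c (b (nat_lit 0xfdef803)) e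
 (c (b (nat_lit 0xfe4a403)) e
 (c (b (nat_lit 0xf7fb803)) e
 (c z e
 (c z e
 (c (b (nat_lit 0xfef9a07)) e
 (c z e
 (c (b (nat_lit 0xffe0a0b)) e
 (c z e
 (c z e
 (c z e
 (c (b (nat_lit 0x10018c0f)) e
 (c z e
 (c z e
 (c (b (nat_lit 0x1014c81b)) e
 (c (b (nat_lit 0x10101a2b)) e e)))))))))))))))))))))))))))
 (c (a (nat_lit 0x101dfc00))
 (c (b (nat_lit 0xfe4b600)) e
 (c (b (nat_lit 0xfe28600)) e
 (c (b (nat_lit 0xfe4d200)) e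
 (c (b (nat_lit 0xfe28e00)) e
 (c (b (nat_lit 0xfe49601)) e
 (c (b (nat_lit 0xfe46801)) e
 (c (b (nat_lit 0xfe3b801)) e
 (c (nat_lit 0x7f2587f2587f2587f2587f24b7f24b7f24cbb301) e
 (c (nat_lit 0x7f1367f1367f1367f1367f1367f0f47f0f505483) e
 (c (b (nat_lit 0xfec2803)) e
 (c (b (nat_lit 0xfe96203)) e
 (c z e
 (c (b (nat_lit 0xfff2207)) e
 (c (b (nat_lit 0xffe0207)) e
 (c z e
 (c z e
 (c z e
 (c z e
 (c z e
 (c z e
 (c z e
 (c z e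
 (c (b (nat_lit 0xfffba17)) e
 (c z e
 (c (b (nat_lit 0x102b9027)) e e))))))))))))))))))))))))) tt25)))) Tr.c Tr.e (nat_lit 0) C.t6 C.t7
noncomputable def tt27 : Tr := beta% (fun (c : Nat → Tr → Tr → Tr) (e : Tr) (z : Nat) (a b : Nat → Nat) =>
 (c (a (nat_lit 0x101d9c00))
 (c (b (nat_lit 0xfe60000)) e
 (c (b (nat_lit 0xfe43201)) e
 (c (b (nat_lit 0xfe31801)) e
 (c (b (nat_lit 0xfe4a601)) e
 (c (b (nat_lit 0xfe4de01)) e
 (c (b (nat_lit 0xfe46e03)) e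
 (c (b (nat_lit 0xfec3603)) e
 (c (b (nat_lit 0xfe4a003)) e
 (c (b (nat_lit 0xfde3a03)) e
 (c z e
 (c z e
 (c z e
 (c z e
 (c z e
 (c z e
 (c (b (nat_lit 0x10168a0f)) e
 (c z e
 (c z e
 (c z e
 (c z e
 (c (nat_lit 0x802e78031f8031f8031f8031f8031f8031f6d49f) e e)))))))))))))))))))))
 (c (a (nat_lit 0x101f4400))
 (c (b (nat_lit 0xfdfe001)) e
 (c (nat_lit 0x7efeb7f1637f1637f1637f1637f1637f1632fe01) e
 (c (nat_lit 0x7f1157f0a97f1157f1157f1157f1157f11579f81) e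
 (c (b (nat_lit 0xfe1a603)) e
 (c (b (nat_lit 0xfeddc03)) e
 (c (b (nat_lit 0xff05003)) e
 (c z e
 (c z e
 (c z e
 (c z e
 (c z e
 (c z e
 (c z e
 (c z e
 (c z e
 (c z e
 (c z e
 (c z e
 (c (b (nat_lit 0xfff021f)) e e)))))))))))))))))))
 (c (a (nat_lit 0x101f4e00))
 (c (nat_lit 0x7f7787f4a07f7787f7787f7787f7787f7785ef81) e
 (c (nat_lit 0x7f0707f0707ef637f0707f0707f0707f070b7e83) e
 (c (b (nat_lit 0xfd23403)) e
 (c (b (nat_lit 0xfefea03)) e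
 (c (b (nat_lit 0xfec0e03)) e
 (c z e
 (c z e
 (c (b (nat_lit 0x101b7c07)) e
 (c z e
 (c z e
 (c z e
 (c z e
 (c z e
 (c z e
 (c z e
 (c (b (nat_lit 0xfffa81b)) e e))))))))))))))))
 (c (a (nat_lit 0x101f8a00))
 (c z e
 (c z e
 (c z e
 (c z e
 (c z e
 (c z e
 (c z e
 (c z e
 (c z e
 (c z e
 (c z e
 (c z e
 (c z e
 (c z e
 (c (b (nat_lit 0xfffce1f)) e
 (c z e
 (c z e
 (c (nat_lit 0x80000800008000080000800007ff1680000c859f) e e))))))))))))))))))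
 (c (a (nat_lit 0x101ef600))
 (c z e
 (c (b (nat_lit 0xfc9fc07)) e
 (c (b (nat_lit 0x1019ce07)) e
 (c (b (nat_lit 0x10205207)) e
 (c z e
 (c (b (nat_lit 0x101fea0b)) e
 (c z e
 (c (b (nat_lit 0xff18c0f)) e
 (c z e
 (c z e
 (c (b (nat_lit 0xfffd217)) e e)))))))))))
 (c (a (nat_lit 0x101f9600))
 (c z e
 (c (b (nat_lit 0x102eb607)) e
 (c z e
 (c z e
 (c (b (nat_lit 0x10271c0f)) e e)))))
 (c (a (nat_lit 0x101ff800))
 (c z e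
 (c z e
 (c z e
 (c (b (nat_lit 0x1023dc0f)) e
 (c z e
 (c (b (nat_lit 0xfd8500f)) e
 (c z e
 (c z e
 (c z e
 (c z e
 (c z e
 (c (b (nat_lit 0xffff81f)) e e))))))))))))
 (c (a (nat_lit 0x101fe800))
 (c z e
 (c z e
 (c (b (nat_lit 0x100f140f)) e
 (c z e
 (c z e
 (c (b (nat_lit 0xfd84a1b)) e e))))))
 (c (a (nat_lit 0x101ffa00))
 (c z e
 (c z e
 (c z e
 (c z e
 (c z e
 (c (b (nat_lit 0xfffba1f)) e e))))))
 (c (a (nat_lit 0x101ebc00)) e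
 (c (a (nat_lit 0x101f7e00))
 (c z e
 (c z e
 (c z e
 (c z e
 (c (nat_lit 0x800008000080000800007ff3c8000080000fbba0) e
 (c (nat_lit 0x80000800008000080000800007fd787fd7880420) e e))))))
 (c (a (nat_lit 0x101f2a00))
 (c z e
 (c z e
 (c z e
 (c z e
 (c z e
 (c (nat_lit 0x8000080000800008000080000800007fe55636a0) e e))))))
 (c (a (nat_lit 0x101fa601))
 (c z e
 (c (nat_lit 0x8000080000800007f3127f3127f3127f3122d420) e
 (c z e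
 (c (nat_lit 0x80000800008000080000800007ffea7fddd64b20) e
 (c (nat_lit 0x8000080000800008000080000800007ff030fa20) e e)))))
 (c (a (nat_lit 0x10204001)) e
 (c (a (nat_lit 0x101faa01)) e
 (c (a (nat_lit 0x101b1601)) e
 (c (a (nat_lit 0x10164e03)) e
 (c (a (nat_lit 0x1016bc03)) e
 (c (a (nat_lit 0x1017b003)) e
 (c (a (nat_lit 0x100f5403)) e
 (c z e
 (c (a (nat_lit 0x100be207)) e
 (c (a (nat_lit 0xf907207)) e
 (c (a (nat_lit 0xfffb407)) e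
 (c z e
 (c z e
 (c z e
 (c z e
 (c z e
 (c z e
 (c z e
 (c z e
 (c (a (nat_lit 0xffffc1f)) e e)))))))))))))))))))))))))))))))))) Tr.c Tr.e (nat_lit 0) C.t6 C.t7
noncomputable def tt28 : Tr := beta% (fun (c : Nat → Tr → Tr → Tr) (e : Tr) (z : Nat) (a b : Nat → Nat) =>
 (c (a (nat_lit 0x101fda00))
 (c (b (nat_lit 0xfe73200)) e
 (c (b (nat_lit 0xfe8ac00)) e
 (c (b (nat_lit 0xfe90a00)) e
 (c (b (nat_lit 0xfe84000)) e
 (c (b (nat_lit 0xfe72200)) e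
 (c (b (nat_lit 0xfe5a800)) e
 (c (b (nat_lit 0xfe26200)) e
 (c (b (nat_lit 0xfe1c800)) e
 (c (b (nat_lit 0xfe19a00)) e
 (c (b (nat_lit 0xfe3cc00)) e
 (c (b (nat_lit 0xfe06200)) e
 (c (b (nat_lit 0xfe02c01)) e
 (c (b (nat_lit 0xfe1e801)) e
 (c (b (nat_lit 0xfe18401)) e
 (c (b (nat_lit 0xfdc0e01)) e
 (c (nat_lit 0x7eba17eba17eb7c7eba17eba17eba17eba1ae803) e
 (c (b (nat_lit 0xec5fe03)) e
 (c (b (nat_lit 0xf807203)) e
 (c (b (nat_lit 0xfe97003)) e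
 (c (b (nat_lit 0xfe03e07)) e
 (c (b (nat_lit 0xff09c07)) e
 (c (b (nat_lit 0xff26e07)) e
 (c (b (nat_lit 0xffe6e07)) e
 (c z e
 (c z e
 (c z e
 (c (b (nat_lit 0xfffec0f)) e
 (c (b (nat_lit 0x10250e0f)) e
 (c z e
 (c (b (nat_lit 0xfffb61b)) e
 (c z e
 (c (b (nat_lit 0xfffea1f)) e
 (c (nat_lit 0x7ffb47febc7ffb47ffb47ffb47ffb47ffb4aad9f) e e)))))))))))))))))))))))))))))))))
 (c (a (nat_lit 0x101f6200))
 (c (b (nat_lit 0xfe73c00)) e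
 (c (b (nat_lit 0xfe6b600)) e
 (c (b (nat_lit 0xfe6b200)) e
 (c (b (nat_lit 0xfe68800)) e
 (c (b (nat_lit 0xfe6a600)) e
 (c (b (nat_lit 0xfe1da00)) e
 (c (b (nat_lit 0xfe1ce00)) e
 (c (b (nat_lit 0xfe21400)) e
 (c (b (nat_lit 0xfe28800)) e
 (c (b (nat_lit 0xfe1d601)) e
 (c (b (nat_lit 0xfdfce01)) e
 (c (b (nat_lit 0xfe12401)) e
 (c (b (nat_lit 0xfe1ea01)) e
 (c (b (nat_lit 0xfe2b003)) e
 (c (b (nat_lit 0xf6ee403)) e
 (c (b (nat_lit 0xf3c9003)) e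
 (c (b (nat_lit 0xf89d203)) e
 (c (b (nat_lit 0xfeefe07)) e
 (c (b (nat_lit 0xfedbe07)) e
 (c (b (nat_lit 0xff61e07)) e
 (c (b (nat_lit 0xff6e207)) e
 (c z e
 (c z e
 (c (b (nat_lit 0x1002e60f)) e
 (c (b (nat_lit 0xfee720f)) e
 (c z e
 (c (nat_lit 0x802a5805c0805c0805c0805c0805c0805c058717) e
 (c z e
 (c z e
 (c (nat_lit 0x8000080000800007ff5c80000800008000017e9f) e e))))))))))))))))))))))))))))))
 (c (a (nat_lit 0x101d8000))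
 (c (b (nat_lit 0xfe4e200)) e
 (c (b (nat_lit 0xfe6d600)) e
 (c (b (nat_lit 0xfe68600)) e
 (c (b (nat_lit 0xfe5a400)) e
 (c (b (nat_lit 0xfe40e00)) e
 (c (b (nat_lit 0xfe47c00)) e
 (c (b (nat_lit 0xfe43e00)) e
 (c (b (nat_lit 0xfe5ac01)) e
 (c (b (nat_lit 0xfe4c001)) e
 (c (b (nat_lit 0xfe25201)) e
 (c (b (nat_lit 0xfe41a01)) e
 (c (nat_lit 0x7f23c7f23c7f23c7f23c7f23c7f2177f21888303) e
 (c (b (nat_lit 0xfe75c03)) e
 (c (b (nat_lit 0xf7d3e03)) e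
 (c (b (nat_lit 0xfdc5803)) e
 (c z e
 (c z e
 (c z e
 (c (b (nat_lit 0xfffea07)) e
 (c z e
 (c z e
 (c z e
 (c z e
 (c z e
 (c (nat_lit 0x802208028b8028b8028b8028b8028b8028be3c17) e
 (c (b (nat_lit 0x1016de1b)) e
 (c (b (nat_lit 0x10071a1f)) e e)))))))))))))))))))))))))))
 (c (a (nat_lit 0x101cc000))
 (c (b (nat_lit 0xfe77a00)) e
 (c (b (nat_lit 0xfe6f000)) e
 (c (b (nat_lit 0xfe67400)) e
 (c (b (nat_lit 0xfe42c00)) e
 (c (b (nat_lit 0xfe5a400)) e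
 (c (b (nat_lit 0xfe59401)) e
 (c (b (nat_lit 0xfe49201)) e
 (c (b (nat_lit 0xfe57801)) e
 (c (b (nat_lit 0xfe3ce01)) e
 (c (b (nat_lit 0xfe47203)) e
 (c (b (nat_lit 0xfe98c03)) e
 (c (b (nat_lit 0xfecaa03)) e
 (c z e
 (c (b (nat_lit 0xfff0e07)) e
 (c z e
 (c (b (nat_lit 0xff3b807)) e
 (c z e
 (c z e
 (c z e
 (c (b (nat_lit 0x1003880f)) e
 (c z e
 (c (b (nat_lit 0xfff980f)) e
 (c (nat_lit 0x7ff35800008000080000800008000080000a6797) e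
 (c (nat_lit 0x800007fd238000080000800008000080000e171b) e
 (c (nat_lit 0x8082f8082f806908082f8082f8082f8082fce01f) e
 (c z e
 (c z e
 (c (b (nat_lit 0xffdf41f)) e e))))))))))))))))))))))))))))
 (c (a (nat_lit 0x101d0600))
 (c (b (nat_lit 0xfe66a00)) e
 (c (b (nat_lit 0xfe65a00)) e
 (c (b (nat_lit 0xfe53a00)) e
 (c (b (nat_lit 0xfe4fa01)) e
 (c (b (nat_lit 0xfe48a01)) e
 (c (b (nat_lit 0xfe5c401)) e
 (c (nat_lit 0x7f2b87f2b87f2b87f2b87f2957f2957f2961c281) e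
 (c (b (nat_lit 0xfe34c03)) e
 (c (b (nat_lit 0xff52c03)) e
 (c (b (nat_lit 0xfe1b603)) e
 (c (b (nat_lit 0xfeca003)) e
 (c z e
 (c z e
 (c z e
 (c z e
 (c (b (nat_lit 0xff3780b)) e
 (c z e
 (c (b (nat_lit 0x1014cc0f)) e
 (c (b (nat_lit 0x10076a0f)) e
 (c z e
 (c z e
 (c (b (nat_lit 0x1011fa1b)) e
 (c (b (nat_lit 0x10172a1f)) e e))))))))))))))))))))))) tt27)))))) Tr.c Tr.e (nat_lit 0) C.t6 C.t7
noncomputable def tt29 : Tr := beta% (fun (c : Nat → Tr → Tr → Tr) (e : Tr) (z : Nat) (a b : Nat → Nat) =>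
 (c (a (nat_lit 0x101e7a00))
 (c (b (nat_lit 0xfdd8601)) e
 (c (b (nat_lit 0xf8aa001)) e
 (c (b (nat_lit 0xfd3a403)) e
 (c (nat_lit 0x7ed1f7ed1f7eb007ed1f7ed1f7ed1f7ed1f2f483) e
 (c (b (nat_lit 0xfd99c03)) e
 (c (b (nat_lit 0xfd53603)) e
 (c (b (nat_lit 0xfde5407)) e
 (c (b (nat_lit 0xfffd407)) e
 (c z e
 (c z e
 (c (b (nat_lit 0xfbbac0b)) e
 (c (b (nat_lit 0xfffa00f)) e
 (c (b (nat_lit 0x1010d20f)) e
 (c z e
 (c (b (nat_lit 0xfff400f)) e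
 (c z e
 (c z e
 (c z e
 (c z e
 (c (nat_lit 0x7ec847ec827ec777ec847ec847ec847ec845189f) e e))))))))))))))))))))
 (c (a (nat_lit 0x101ec000))
 (c (b (nat_lit 0xf746603)) e
 (c (b (nat_lit 0xfcdea03)) e
 (c z e
 (c z e
 (c z e
 (c (b (nat_lit 0xff52a07)) e
 (c z e
 (c z e
 (c (b (nat_lit 0xf85b00b)) e
 (c z e
 (c z e
 (c z e
 (c (b (nat_lit 0xffff80f)) e
 (c z e
 (c (b (nat_lit 0xff3d41f)) e
 (c z e
 (c z e
 (c (b (nat_lit 0xfff881f)) e e))))))))))))))))))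
 (c (a (nat_lit 0x101e1e00))
 (c z e
 (c z e
 (c (b (nat_lit 0xfce7807)) e
 (c z e
 (c (b (nat_lit 0x10269607)) e
 (c (b (nat_lit 0x101ee607)) e
 (c (b (nat_lit 0x1085b60b)) e
 (c z e
 (c (b (nat_lit 0x1014020f)) e
 (c z e
 (c (b (nat_lit 0xf6e380f)) e
 (c z e
 (c (b (nat_lit 0xff1701f)) e e)))))))))))))
 (c (a (nat_lit 0x101fdc00))
 (c z e
 (c z e
 (c (b (nat_lit 0x101f7807)) e
 (c z e
 (c (b (nat_lit 0xf51a40b)) e
 (c z e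
 (c z e
 (c z e
 (c (b (nat_lit 0x10168e0f)) e
 (c (b (nat_lit 0xffeee1b)) e
 (c (nat_lit 0x8000080000800007ffdf80000800008000071a9f) e
 (c (nat_lit 0x7ff8d7ffee7ffee7ffee7ffee7ffee7ffeea0b9f) e
 (c (nat_lit 0x7febb7fe4a7febb7febb7febb7febb7febbffa1f) e e)))))))))))))
 (c (a (nat_lit 0x101fd000))
 (c z e
 (c (b (nat_lit 0xfe75e07)) e
 (c (b (nat_lit 0xf91d40b)) e
 (c (b (nat_lit 0x1027e00f)) e
 (c (b (nat_lit 0xf82d40f)) e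
 (c z e
 (c (b (nat_lit 0xf8b280f)) e
 (c z e
 (c (b (nat_lit 0x10141c1f)) e
 (c (b (nat_lit 0xffec21f)) e
 (c (nat_lit 0x800007fd988000080000800008000080000a629f) e
 (c (b (nat_lit 0xffeb41f)) e e))))))))))))
 (c (a (nat_lit 0x101f5a00))
 (c (b (nat_lit 0xf7f0e0b)) e
 (c (b (nat_lit 0xfd7b60f)) e
 (c (b (nat_lit 0x10242a0f)) e
 (c z e
 (c z e
 (c (b (nat_lit 0xf626c1b)) e
 (c (b (nat_lit 0xfffd81f)) e
 (c z e
 (c (nat_lit 0x7fc308000080000800008000080000800007029f) e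
 (c (nat_lit 0x800007fff880000800008000080000800006fe9f) e
 (c z e
 (c (nat_lit 0x8000080000800007ffe9800008000080000b8a28) e
 (c (nat_lit 0x800008000080000800007ffa08000080000262a8) e e)))))))))))))
 (c (a (nat_lit 0x101ff000))
 (c (b (nat_lit 0xfc1840f)) e
 (c (b (nat_lit 0xfecfa0f)) e
 (c (b (nat_lit 0x1019ec0f)) e
 (c (b (nat_lit 0x1055fa1b)) e
 (c (b (nat_lit 0xf5f801f)) e
 (c (b (nat_lit 0xff13e1f)) e
 (c z e
 (c (nat_lit 0x7fce38000080000800008000080000800002cf9f) e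
 (c (nat_lit 0x7ffca7feb97ffca7ffca7ffca7ffca7ffca47021) e e)))))))))
 (c (a (nat_lit 0x101e8800))
 (c z e
 (c z e
 (c (b (nat_lit 0x1060f41f)) e
 (c (b (nat_lit 0xfff7c1f)) e e))))
 (c (a (nat_lit 0x101f5e00))
 (c (b (nat_lit 0xffe1e1f)) e
 (c z e
 (c z e
 (c (b (nat_lit 0x1016981f)) e
 (c z e
 (c z e
 (c z e
 (c (nat_lit 0x8000080000800008000080000800007fb6dbb620) e e))))))))
 (c (a (nat_lit 0x101ee600))
 (c z e
 (c (b (nat_lit 0x1032f81f)) e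
 (c z e
 (c z e
 (c z e
 (c (nat_lit 0x80000800008000080000800007fcc97fabf13920) e
 (c (nat_lit 0x8000080000800008000080000800007fef3372a0) e e)))))))
 (c (a (nat_lit 0x101f8a00)) e
 (c (a (nat_lit 0x101fc001)) e
 (c (a (nat_lit 0x101fe001)) e
 (c (a (nat_lit 0x101af001)) e
 (c (a (nat_lit 0x10195a01)) e
 (c (a (nat_lit 0x101bbe03)) e
 (c (a (nat_lit 0x101ef203)) e
 (c (a (nat_lit 0x101ce403)) e
 (c (a (nat_lit 0x101b1c03)) e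
 (c (a (nat_lit 0x1010c007)) e
 (c (a (nat_lit 0x10168c07)) e
 (c (a (nat_lit 0x100f1607)) e
 (c (a (nat_lit 0xff75407)) e
 (c (a (nat_lit 0xff8b40b)) e
 (c (nat_lit 0x8028080203801b0802808028080280172cf) e
 (c z e
 (c z e
 (c z e
 (c z e
 (c (a (nat_lit 0x10027c1f)) e
 (c (nat_lit 0x7ffc18000080000800008000080000189df) e
 (c (nat_lit 0x7ffc97ffc980000800008000080000aefdf) e
 (c (a (nat_lit 0x1012561f)) e e)))))))))))))))))))))))))))))))))) Tr.c Tr.e (nat_lit 0) C.t6 C.t7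
noncomputable def tt30 : Tr := beta% (fun (c : Nat → Tr → Tr → Tr) (e : Tr) (z : Nat) (a b : Nat → Nat) =>
 (c (a (nat_lit 0x101eb800))
 (c (b (nat_lit 0xfe0b600)) e
 (c (b (nat_lit 0xfeade00)) e
 (c (b (nat_lit 0xfea1400)) e
 (c (b (nat_lit 0xfe87600)) e
 (c (b (nat_lit 0xfe6be00)) e
 (c (b (nat_lit 0xfe32000)) e
 (c (b (nat_lit 0xfe39000)) e
 (c (b (nat_lit 0xfe3aa00)) e
 (c (b (nat_lit 0xfe3f400)) e
 (c (b (nat_lit 0xfe2e000)) e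
 (c (b (nat_lit 0xfe21c01)) e
 (c (b (nat_lit 0xfe04a01)) e
 (c (b (nat_lit 0xfe0b601)) e
 (c (b (nat_lit 0xfda5001)) e
 (c (b (nat_lit 0xfd34a03)) e
 (c (b (nat_lit 0xf265803)) e
 (c (b (nat_lit 0xfb4e003)) e
 (c (b (nat_lit 0xfeb8603)) e
 (c (b (nat_lit 0xff43a07)) e
 (c (b (nat_lit 0xff2ea07)) e
 (c (b (nat_lit 0xff6ba07)) e
 (c z e
 (c z e
 (c z e
 (c z e
 (c (b (nat_lit 0xfff000f)) e
 (c (b (nat_lit 0x1039140f)) e
 (c z e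
 (c z e
 (c (nat_lit 0x800008000080000800007ffc880000800000b01f) e
 (c (nat_lit 0x800008000080000800007fff57ff8880000c8f9f) e
 (c (b (nat_lit 0xfff181f)) e e))))))))))))))))))))))))))))))))
 (c (a (nat_lit 0x101dde00))
 (c (b (nat_lit 0xfe4a600)) e
 (c (b (nat_lit 0xfe4dc00)) e
 (c (b (nat_lit 0xfe73c00)) e
 (c (b (nat_lit 0xfe53a00)) e
 (c (b (nat_lit 0xfe42400)) e
 (c (b (nat_lit 0xfe55200)) e
 (c (b (nat_lit 0xfe49600)) e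
 (c (b (nat_lit 0xfe59200)) e
 (c (b (nat_lit 0xfe2b801)) e
 (c (b (nat_lit 0xfe29601)) e
 (c (b (nat_lit 0xfe2e201)) e
 (c (b (nat_lit 0xfe2cc01)) e
 (c (b (nat_lit 0xfe21203)) e
 (c (b (nat_lit 0xfa90603)) e
 (c (b (nat_lit 0xf85be03)) e
 (c (b (nat_lit 0xfee7803)) e
 (c (b (nat_lit 0xff05607)) e
 (c (b (nat_lit 0xfeefa07)) e
 (c (b (nat_lit 0xfde4407)) e
 (c (b (nat_lit 0xfeb0607)) e
 (c z e
 (c z e
 (c z e
 (c z e
 (c (nat_lit 0x80b9a80ae680c9180c9180c9180c9180c915588f) e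
 (c (nat_lit 0x80498804988043a804988049880498804984061b) e
 (c (b (nat_lit 0x1011c21f)) e
 (c (b (nat_lit 0x1005581f)) e
 (c z e
 (c (b (nat_lit 0xffef81f)) e e))))))))))))))))))))))))))))))
 (c (a (nat_lit 0x101eb600))
 (c (b (nat_lit 0xfe37600)) e
 (c (b (nat_lit 0xfe4c000)) e
 (c (b (nat_lit 0xfe3fa00)) e
 (c (b (nat_lit 0xfe20c00)) e
 (c (b (nat_lit 0xfe49a00)) e
 (c (b (nat_lit 0xfe3ae00)) e
 (c (b (nat_lit 0xfe31401)) e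
 (c (b (nat_lit 0xfe2b401)) e
 (c (b (nat_lit 0xfe00a01)) e
 (c (b (nat_lit 0xfe3ee01)) e
 (c (nat_lit 0x7f1cf7f1cf7f1cf7f1cf7f1cf7f1a67f1aa02d03) e
 (c (b (nat_lit 0xfd21803)) e
 (c (b (nat_lit 0xfae3e03)) e
 (c (b (nat_lit 0xfea9803)) e
 (c (b (nat_lit 0xfec0607)) e
 (c (b (nat_lit 0xfe10e07)) e
 (c (b (nat_lit 0xfe8f407)) e
 (c (b (nat_lit 0xfe30a07)) e
 (c (b (nat_lit 0xffefa0b)) e
 (c z e
 (c z e
 (c (nat_lit 0x7fea1800008000080000800008000080000afa8f) e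
 (c z e
 (c z e
 (c z e
 (c (nat_lit 0x7feae7fffe7fffe7fffe7fffe7fffe7fffe6a81f) e
 (c (nat_lit 0x7ff767ff717ff767ff767ff767ff767ff7656f1f) e
 (c (b (nat_lit 0xffe641f)) e
 (c (b (nat_lit 0xffdd639)) e e)))))))))))))))))))))))))))))
 (c (a (nat_lit 0x101d0800))
 (c (b (nat_lit 0xfe76800)) e
 (c (b (nat_lit 0xfe62a00)) e
 (c (b (nat_lit 0xfe5a600)) e
 (c (b (nat_lit 0xfe5a600)) e
 (c (b (nat_lit 0xfdf6001)) e
 (c (b (nat_lit 0xfe62001)) e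
 (c (b (nat_lit 0xfe38e01)) e
 (c (b (nat_lit 0xfdc5801)) e
 (c (b (nat_lit 0xfe41a03)) e
 (c (b (nat_lit 0xfe5ba03)) e
 (c (b (nat_lit 0xfdeee03)) e
 (c z e
 (c (b (nat_lit 0xfed2407)) e
 (c (b (nat_lit 0xff8ac07)) e
 (c (b (nat_lit 0xfd6a607)) e
 (c (b (nat_lit 0xfe50607)) e
 (c z e
 (c (b (nat_lit 0xfffce0f)) e
 (c z e
 (c z e
 (c (nat_lit 0x7ff6b80000800008000080000800008000091e0f) e
 (c (nat_lit 0x7fe927fca78000080000800008000080000b1c9b) e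
 (c z e
 (c z e
 (c (nat_lit 0x800008000080000800007ff26800008000071a1f) e e)))))))))))))))))))))))))
 (c (a (nat_lit 0x101e1000))
 (c (b (nat_lit 0xfe63600)) e
 (c (b (nat_lit 0xfdc8000)) e
 (c (b (nat_lit 0xfe46e01)) e
 (c (b (nat_lit 0xfe2a801)) e
 (c (b (nat_lit 0xfe4fc01)) e
 (c (b (nat_lit 0xfe25401)) e
 (c (b (nat_lit 0xfe12203)) e
 (c (b (nat_lit 0xfe0dc03)) e
 (c (b (nat_lit 0xfdd0603)) e
 (c z e
 (c z e
 (c z e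
 (c z e
 (c z e
 (c z e
 (c z e
 (c (b (nat_lit 0x1013240f)) e
 (c z e
 (c z e
 (c z e
 (c (b (nat_lit 0x1004361f)) e
 (c (nat_lit 0x803ad7fef6803ad803ad803ad803ad803ad9b89f) e
 (c z e
 (c z e
 (c (b (nat_lit 0xfffaa27)) e e)))))))))))))))))))))))))
 (c (a (nat_lit 0x101e8200))
 (c (b (nat_lit 0xfd59c01)) e
 (c (b (nat_lit 0xfd26c01)) e
 (c (nat_lit 0x7ec367ec367eb687ec367ec367ec367ec3699601) e
 (c (b (nat_lit 0xfe44e01)) e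
 (c (nat_lit 0x7f06b7efd87f06b7f06b7f06b7f06b7f06bae583) e
 (c (b (nat_lit 0xfe4c403)) e
 (c (b (nat_lit 0xfe5f403)) e
 (c z e
 (c z e
 (c z e
 (c (b (nat_lit 0xfff8207)) e
 (c (b (nat_lit 0xf8f7a07)) e
 (c z e
 (c z e
 (c z e
 (c (b (nat_lit 0x1019620f)) e
 (c (b (nat_lit 0xff73e0f)) e
 (c (b (nat_lit 0xfffca1b)) e
 (c (b (nat_lit 0xff5e81f)) e
 (c z e
 (c (b (nat_lit 0xffefe1f)) e e))))))))))))))))))))) tt29))))))) Tr.c Tr.e (nat_lit 0) C.t6 C.t7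
noncomputable def tt31 : Tr := beta% (fun (c : Nat → Tr → Tr → Tr) (e : Tr) (z : Nat) (a b : Nat → Nat) =>
 (c (a (nat_lit 0x101edc00))
 (c (b (nat_lit 0xfe38a00)) e
 (c (b (nat_lit 0xfe87200)) e
 (c (b (nat_lit 0xfe7c000)) e
 (c (b (nat_lit 0xfe5b800)) e
 (c (b (nat_lit 0xfe3d200)) e
 (c (b (nat_lit 0xfe8c600)) e
 (c (b (nat_lit 0xfe66c00)) e
 (c (b (nat_lit 0xfe46200)) e
 (c (b (nat_lit 0xfe52e00)) e
 (c (b (nat_lit 0xfe3d600)) e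
 (c (b (nat_lit 0xfdafc00)) e
 (c (b (nat_lit 0xfdf5400)) e
 (c (b (nat_lit 0xfe00a00)) e
 (c (b (nat_lit 0xfe1bc00)) e
 (c (b (nat_lit 0xfdea401)) e
 (c (b (nat_lit 0xfdd8401)) e
 (c (b (nat_lit 0xfbaa801)) e
 (c (b (nat_lit 0xf8f1e01)) e
 (c (b (nat_lit 0xfa0b003)) e
 (c (b (nat_lit 0xfdee003)) e
 (c (b (nat_lit 0xfe18603)) e
 (c (b (nat_lit 0xffaa003)) e
 (c (b (nat_lit 0xfe94607)) e
 (c (b (nat_lit 0xfe30407)) e
 (c (b (nat_lit 0xfdc1407)) e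
 (c (b (nat_lit 0xfec1a07)) e
 (c (b (nat_lit 0xfea440b)) e
 (c (b (nat_lit 0xffcf40f)) e
 (c z e
 (c z e
 (c z e
 (c (b (nat_lit 0xfff841b)) e
 (c z e
 (c (b (nat_lit 0x1012161f)) e
 (c (b (nat_lit 0xffec61f)) e
 (c (b (nat_lit 0xffee81f)) e
 (c (b (nat_lit 0xfff743b)) e e)))))))))))))))))))))))))))))))))))))
 (c (a (nat_lit 0x101e8600))
 (c (b (nat_lit 0xfe44c00)) e
 (c (b (nat_lit 0xfe82000)) e
 (c (b (nat_lit 0xfeada00)) e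
 (c (b (nat_lit 0xfeb7e00)) e
 (c (b (nat_lit 0xfe91e00)) e
 (c (b (nat_lit 0xfe7dc00)) e
 (c (b (nat_lit 0xfe3bc00)) e
 (c (b (nat_lit 0xfe37c00)) e
 (c (b (nat_lit 0xfe2c800)) e
 (c (b (nat_lit 0xfe56000)) e
 (c (b (nat_lit 0xfe29a00)) e
 (c (b (nat_lit 0xfe14400)) e
 (c (b (nat_lit 0xfe29c01)) e
 (c (b (nat_lit 0xfe1de01)) e
 (c (b (nat_lit 0xfdb2e01)) e
 (c (b (nat_lit 0xfcc6a01)) e
 (c (b (nat_lit 0xefa3003)) e
 (c (b (nat_lit 0xf7ff203)) e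
 (c (b (nat_lit 0xfe0ae03)) e
 (c (b (nat_lit 0xfe6d203)) e
 (c (b (nat_lit 0xfeda407)) e
 (c (b (nat_lit 0xff66a07)) e
 (c (b (nat_lit 0xffb5007)) e
 (c z e
 (c (nat_lit 0x7fe0c8000080000800008000080000800002fa8b) e
 (c (nat_lit 0x8041a800eb8041a8041a8041a8041a8041af2d0f) e
 (c (nat_lit 0x7fcaa7ff7e7ff7e7ff7e7ff7e7ff7e7ff7e44b0f) e
 (c (b (nat_lit 0x1033ae0f)) e
 (c (b (nat_lit 0xfffe40f)) e
 (c z e
 (c (nat_lit 0x80000800007ff887ffd87febf80000800004a91f) e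
 (c (b (nat_lit 0xfff6c1f)) e
 (c (nat_lit 0x800007ffb280000800007ffe08000080000c761f) e
 (c (b (nat_lit 0xfff8c1f)) e e)))))))))))))))))))))))))))))))))) tt30))) Tr.c Tr.e (nat_lit 0) C.t6 C.t7
noncomputable def tt32 : Tr := beta% (fun (c : Nat → Tr → Tr → Tr) (e : Tr) (z : Nat) (a b d : Nat → Nat) =>
 (c (a (nat_lit 0xfe08800)) tt31
 (c (a (nat_lit 0xfe03600)) tt28
 (c (a (nat_lit 0xfe02400)) tt26
 (c (a (nat_lit 0xfe07200)) tt24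
 (c (a (nat_lit 0xfe04200)) tt22
 (c (a (nat_lit 0xfe04a00)) tt21
 (c (a (nat_lit 0xfe00800)) tt20
 (c (a (nat_lit 0xfe05000)) tt19
 (c (a (nat_lit 0xfe04a00))
 (c (b (nat_lit 0x10122e00))
 (c (d (nat_lit 0xfe6d207)) e
 (c (d (nat_lit 0x103ec007)) e
 (c (d (nat_lit 0x104eee0b)) e
 (c z e
 (c z e
 (c (d (nat_lit 0x10468e0f)) e
 (c (d (nat_lit 0x101b360f)) e e)))))))
 (c (b (nat_lit 0x101f2000))
 (c z e
 (c z e
 (c z e
 (c z e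
 (c z e
 (c z e
 (c z e
 (c z e
 (c z e
 (c z e
 (c (d (nat_lit 0xfebce29)) e e)))))))))))
 (c (b (nat_lit 0x101f0600)) e
 (c (b (nat_lit 0x101f3001))
 (c z e
 (c (nat_lit 0x80000800007fd2c80000800008000080000ddd13) e
 (c (nat_lit 0x80000800007fd907faaa80000800008000048c13) e e)))
 (c (b (nat_lit 0x101fd001))
 (c (nat_lit 0x7e94b7e94b7e8327e94b7e94b7e94b7e94b5c493) e
 (c z e
 (c z e
 (c z e
 (c (nat_lit 0x8000080000800008000080000800007fc0ab0313) e e)))))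
 (c (b (nat_lit 0x101fe201)) e
 (c (b (nat_lit 0x100b4801)) e
 (c (b (nat_lit 0x100be603)) e
 (c z e
 (c z e
 (c (b (nat_lit 0x10960203)) e
 (c (b (nat_lit 0x10046a07)) e
 (c z e
 (c z e
 (c z e
 (c z e
 (c (b (nat_lit 0x10144a0f)) e
 (c (b (nat_lit 0x1015ba0f)) e
 (c z e
 (c (b (nat_lit 0x101bd80f)) e
 (c (nat_lit 0x8077a8063f806de8077a8077a8077acc053) e
 (c (nat_lit 0x80b2080b2080b1480b2080b2080b2043593) e
 (c (b (nat_lit 0x100dbc13)) e e)))))))))))))))))))))))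
 (c (a (nat_lit 0xfe04a00))
 (c (b (nat_lit 0x100ea200))
 (c z e
 (c z e
 (c z e
 (c z e
 (c z e
 (c z e
 (c (d (nat_lit 0xfff7213)) e e)))))))
 (c (b (nat_lit 0x101f6c01)) e
 (c (b (nat_lit 0x101fd801)) e
 (c (nat_lit 0x8101881018810188101281012810123db01)
 (c (d (nat_lit 0xfef9413)) e
 (c (d (nat_lit 0xffc2613)) e e))
 (c (b (nat_lit 0x100a9401)) e
 (c (b (nat_lit 0x100fe403)) e
 (c (b (nat_lit 0x100dd003)) e
 (c z e
 (c (b (nat_lit 0x101ecc03)) e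
 (c z e
 (c (b (nat_lit 0x10147a07)) e
 (c z e
 (c (b (nat_lit 0xffe1207)) e
 (c z e
 (c (b (nat_lit 0x1018980f)) e
 (c (b (nat_lit 0x100f7a0f)) e
 (c z e
 (c z e
 (c (nat_lit 0x807768065a80776807768077680776ecf11) e
 (c (b (nat_lit 0x10157e13)) e
 (c (b (nat_lit 0x10153e13)) e
 (c (b (nat_lit 0x10100013)) e
 (c (b (nat_lit 0x10082013)) e
 (c (b (nat_lit 0x10106419)) e e)))))))))))))))))))))))) tt18))))))))))) Tr.c Tr.e (nat_lit 0) C.t5 C.t6 C.t7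
noncomputable def tt33 : Tr := beta% (fun (c : Nat → Tr → Tr → Tr) (e : Tr) (z : Nat) (a b d : Nat → Nat) =>
 (c (a (nat_lit 0x101fdc00))
 (c (b (nat_lit 0xfe00401))
 (c z e
 (c (d (nat_lit 0x1007a009)) e
 (c (nat_lit 0x80d7680d7680d7680c4880c5280c79e8a49) e
 (c (nat_lit 0x80c0180c0180c0180c0180a7e80b209a149) e
 (c (nat_lit 0x800008000080000800007fb6b7fb6ba7989) e e)))))
 (c (b (nat_lit 0xfe02401))
 (c (d (nat_lit 0x10075409)) e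
 (c (d (nat_lit 0x102dd609)) e e))
 (c (b (nat_lit 0xfe03601))
 (c z e
 (c (d (nat_lit 0x100c8811)) e e))
 (c (nat_lit 0x7f0477f0477f0477f0477f01eb4981) e
 (c (b (nat_lit 0xfd47803)) e
 (c (b (nat_lit 0xfd24203)) e
 (c z e
 (c (b (nat_lit 0x100c1c03)) e
 (c z e
 (c (nat_lit 0x7f4247f4247f4227f4247f42417e67) e
 (c (b (nat_lit 0xff89807)) e
 (c (b (nat_lit 0xfecf007)) e
 (c (b (nat_lit 0xff0c608)) e
 (c (b (nat_lit 0xff01808)) e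
 (c (b (nat_lit 0xfefda08)) e
 (c (b (nat_lit 0xff76408)) e
 (c (nat_lit 0x7fc077fc147fc147fbf67fbe04b9a8) e
 (c (nat_lit 0x7fc4c7fc287fc457fc3e7fc201a009) e
 (c (b (nat_lit 0xff98009)) e
 (c (b (nat_lit 0xffa9209)) e
 (c (nat_lit 0x7fcc27fd847fd847fd847fd846be49) e e)))))))))))))))))))))
 (c (a (nat_lit 0x101ffa00))
 (c (b (nat_lit 0xfdf7401))
 (c z e
 (c (d (nat_lit 0x10374009)) e e))
 (c (b (nat_lit 0xfc11601))
 (c (d (nat_lit 0x101f3411)) e e)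
 (c (b (nat_lit 0xfecfe03)) e
 (c (b (nat_lit 0xfa98203)) e
 (c z e
 (c z e
 (c (nat_lit 0x7fa827fa687fa697fa827fa823ac87) e
 (c (nat_lit 0x7f9b87f9b87f9687f9b87f9b870267) e
 (c z e
 (c (b (nat_lit 0xff59c07)) e
 (c (b (nat_lit 0xff20208)) e
 (c (b (nat_lit 0xff22608)) e
 (c (b (nat_lit 0xff15e08)) e
 (c (b (nat_lit 0xff7b608)) e
 (c (nat_lit 0x7fbe37fbd57fbea7fbea7fbeaddde8) e
 (c (nat_lit 0x7fbcb7fbf17fbdb7fbfb7fbf7c8ca8) e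
 (c (nat_lit 0x7fc6f7fbf17fc1b7fc117fc53ac329) e
 (c (nat_lit 0x7fc727fc727fc5b7fc727fc72f98c9) e
 (c (b (nat_lit 0xff92609)) e
 (c (b (nat_lit 0xff77809)) e
 (c (nat_lit 0x800008000080000800007fd0869329) e e)))))))))))))))))))))
 (c (a (nat_lit 0x101ff000))
 (c (b (nat_lit 0xfadf603)) e
 (c (nat_lit 0x7d6d27d6897d6897d6917d6d2da603) e
 (c z e
 (c (b (nat_lit 0x108e5603)) e
 (c (b (nat_lit 0x10089407)) e
 (c (b (nat_lit 0xfea2e07)) e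
 (c z e
 (c (b (nat_lit 0xfe34407)) e
 (c (b (nat_lit 0xff05e08)) e
 (c (b (nat_lit 0xfc89e08)) e
 (c (b (nat_lit 0xfc7ca08)) e
 (c (nat_lit 0x7fc2e7fc427fc427fc427fc4222888) e
 (c (b (nat_lit 0xff7de08)) e
 (c (nat_lit 0x7fbfb7fbfb7fbf47fbfb7fbfbcb468) e
 (c (nat_lit 0x7fc0f7fc1b7fc407fbf27fc32ee8c8) e
 (c (nat_lit 0x7fc1e7fbf27fc0f7fc1e7fbe65ac69) e
 (c (b (nat_lit 0xff87c09)) e
 (c (b (nat_lit 0xff8ba09)) e
 (c (b (nat_lit 0xff65c09)) e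
 (c (nat_lit 0x8000080000800007ff1c7fd0e62a29) e e))))))))))))))))))))
 (c (a (nat_lit 0x10200200))
 (c (nat_lit 0x7ecfe7ecfe7ee957ee957ee952d8e3) e
 (c (b (nat_lit 0x10365e03)) e
 (c (b (nat_lit 0x102d8007)) e
 (c z e
 (c z e
 (c (b (nat_lit 0xfb2a607)) e
 (c (nat_lit 0x7f9c27f9c07f9c27f9b87f9c211448) e
 (c (b (nat_lit 0xfc13208)) e
 (c (b (nat_lit 0xfc67408)) e
 (c (b (nat_lit 0xffc9808)) e
 (c (nat_lit 0x7fe217fe187fe067fe217fe218edc8) e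
 (c (nat_lit 0x7fdd97fdac7fdd97fdd67fdd99b588) e
 (c (nat_lit 0x7fd4d7fd4d7fd277fd337fd422a948) e
 (c (nat_lit 0x7fd017fd017fcfe7fcf47fd0174a48) e
 (c (nat_lit 0x80000800007fcaa7fcaa7fcaaae448) e
 (c (nat_lit 0x8000080000800007fca27fca2eb948) e
 (c (nat_lit 0x800008000080000800007fcedb42c8) e e)))))))))))))))))
 (c (a (nat_lit 0x10200200))
 (c (nat_lit 0x8116e80fae80fae8116e8116ee3207) e
 (c (b (nat_lit 0x100d3207)) e
 (c z e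
 (c (nat_lit 0x7ced87ced87ced87ced77ceb2d34c7) e
 (c (nat_lit 0x7d6897d6897d6887d6897d689abfe8) e
 (c (b (nat_lit 0xfc40408)) e
 (c (b (nat_lit 0xfd6ee08)) e
 (c (b (nat_lit 0xfddea08)) e
 (c (nat_lit 0x7f3837f3917f3917f3917f3919e348) e
 (c (nat_lit 0x7f2d87f2f17f2fd7f2fd7f2fd88908) e
 (c (nat_lit 0x7f2a27f29e7f2a27f2a27f2a234ea8) e
 (c (nat_lit 0x7f2617f26f7f26c7f2777f27773be8) e
 (c (nat_lit 0x7f2537f22b7f2407f2537f25375668) e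
 (c (nat_lit 0x80000800007f1d57f1d57f1d5886c8) e
 (c (nat_lit 0x8000080000800007f1cd7f1cd2c2e8) e
 (c (nat_lit 0x800008000080000800007f25e7b0a8) e e))))))))))))))))
 (c (nat_lit 0x80ff680ff780ff780ff7da0b0)
 (c z e
 (c (b (nat_lit 0xfb82407)) e
 (c (nat_lit 0x788f478892788cd788f4788f4570c8) e
 (c (b (nat_lit 0xfd7ee08)) e
 (c (b (nat_lit 0xfdd5c08)) e
 (c (b (nat_lit 0xfe26408)) e
 (c (b (nat_lit 0xfe16808)) e
 (c (nat_lit 0x7f00b7f04a7f05a7f05a7f05aec3e8) e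
 (c (nat_lit 0x7efa97efd27f0067f00c7f00c9e2a8) e
 (c (nat_lit 0x7ef757ef7b7efa87efab7efab671c8) e
 (c (nat_lit 0x7ef377ef327ef377ef377ef37bf348) e
 (c (nat_lit 0x7ef357ef257ef227ef357ef3509e88) e
 (c (nat_lit 0x80000800007ef227ef217ef23d9088) e
 (c (nat_lit 0x8000080000800007ef617ef61ccc48) e
 (c (nat_lit 0x800008000080000800007efc12bb68) e e)))))))))))))))
 (c (a (nat_lit 0x10200200))
 (c (nat_lit 0x7911d791167911d7911d7911d2e768) e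
 (c (b (nat_lit 0xfde8208)) e
 (c (b (nat_lit 0xfddaa08)) e
 (c (b (nat_lit 0xfe1e608)) e
 (c (b (nat_lit 0xfe20608)) e
 (c (nat_lit 0x7f0aa7f0b07f0b07f0b07f0b0b9c08) e
 (c (nat_lit 0x7f0527f0507f0527f0527f052991c8) e
 (c (nat_lit 0x7f0227f01c7f0137f0267f022ac1a8) e
 (c (b (nat_lit 0xfdfde08)) e
 (c (nat_lit 0x7ef927ef947ef947ef947ef9496d28) e
 (c (nat_lit 0x7ef727ef557ef727ef727ef72c5368) e
 (c (nat_lit 0x80000800007ef187ef2b7ef2b362a8) e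
 (c (nat_lit 0x8000080000800007ef557ef584bbc8) e
 (c (nat_lit 0x800008000080000800007efdc6d168) e e))))))))))))))
 (c (nat_lit 0x80ff980ffa80ffa80ffa45a50) e
 (c (a (nat_lit 0x10200200)) e
 (c (nat_lit 0x80ffd80ffd80ffd80ffeb7a80) e
 (c (a (nat_lit 0x101fd400)) e
 (c (a (nat_lit 0x101ff400)) e
 (c (a (nat_lit 0x101fea00)) e
 (c (a (nat_lit 0x10200200)) e
 (c (a (nat_lit 0x101ff000)) e
 (c (a (nat_lit 0x10200e00)) e
 (c (a (nat_lit 0x10200800)) e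
 (c (nat_lit 0x810068100481004810048d501) e
 (c (a (nat_lit 0x101f3a01)) e
 (c (nat_lit 0x80f1080f1180f1180f1287631) e
 (c (a (nat_lit 0x10140c01)) e
 (c (nat_lit 0x80e6f80e7080e6f80e70b8563) e
 (c (a (nat_lit 0x101cde03)) e
 (c (nat_lit 0x80c6880c6780c6780c6770173) e
 (c (nat_lit 0x80cf680cf580cf480cf43de23) e
 (c (nat_lit 0x80f8d80f8d80f8d80f8c8a897) e
 (c (nat_lit 0x7f9987f9997f9997f99972ad7) e
 (c (a (nat_lit 0xffd0007)) e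
 (c (nat_lit 0x80632806328063280631a2cb7) e e)))))))))))))))))))))))))))))) Tr.c Tr.e (nat_lit 0) C.t4 C.t5 C.t6
noncomputable def tt34 : Tr := beta% (fun (c : Nat → Tr → Tr → Tr) (e : Tr) (z : Nat) (a b : Nat → Nat) =>
 (c (a (nat_lit 0xfe03e00))
 (c (b (nat_lit 0x10441a07)) e
 (c (nat_lit 0x81e9181e9181e9181e9181e4881e91d6188) e
 (c (b (nat_lit 0x10386008)) e
 (c (nat_lit 0x821be821be821be821be821be821a3dc208) e
 (c (b (nat_lit 0x1045f609)) e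
 (c (b (nat_lit 0x10458a09)) e
 (c (b (nat_lit 0x105a2009)) e
 (c (b (nat_lit 0x10642a09)) e
 (c z e
 (c (nat_lit 0x81b8e81b8e81b8e81b3581b8e81b8e1110b) e
 (c (nat_lit 0x7ff118000080000800008000080000ed4cb) e
 (c (b (nat_lit 0xfff300b)) e e))))))))))))
 (c (nat_lit 0x7f0227f0217f0217f0217f0224c440)
 (c (nat_lit 0x8133f8133f8133f8133f8126381222eb908) e
 (c (nat_lit 0x81468814688146881468814128130452808) e
 (c (nat_lit 0x81731817318173181731816fc81706a8889) e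
 (c (b (nat_lit 0x102ed609)) e
 (c (b (nat_lit 0x102ea409)) e
 (c (b (nat_lit 0x1042d809)) e
 (c (b (nat_lit 0x104c560b)) e
 (c (nat_lit 0x8204c82047820478204c8204c8204c00f4b) e
 (c z e
 (c (b (nat_lit 0x1021600b)) e e))))))))))
 (c (a (nat_lit 0xfe06600))
 (c (nat_lit 0x8162b8162b8162b8162b8162b815e639049) e
 (c (b (nat_lit 0x102d9009)) e
 (c (b (nat_lit 0x102ee209)) e
 (c (b (nat_lit 0x102cac09)) e
 (c (b (nat_lit 0x1041280b)) e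
 (c (b (nat_lit 0x104d5c0b)) e
 (c (b (nat_lit 0x1045b80b)) e e)))))))
 (c (a (nat_lit 0xfe03200))
 (c (b (nat_lit 0x10204c09)) e
 (c (nat_lit 0x800007fd5880000800008000080000fe049) e
 (c (b (nat_lit 0x101ac00b)) e
 (c (b (nat_lit 0x1038960b)) e
 (c (b (nat_lit 0x101efa0b)) e e)))))
 (c (nat_lit 0x7f0297f01b7f01b7f01b7f01b6ab81)
 (c (nat_lit 0x7ea587ea587e9cb7ea587ea587ea582f98b) e
 (c (nat_lit 0x8000080000800007ff8980000800006aa4b) e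
 (c z e
 (c z e
 (c (nat_lit 0x800008000082737827378273782737baaa0) e e)))))
 (c (a (nat_lit 0xfdff601))
 (c (nat_lit 0x80000800007f5b38000080000800007da0b) e e)
 (c (nat_lit 0x7f04e7f04e7f04e7f00f7f012dfea1) e
 (c (a (nat_lit 0xfd58001)) e
 (c (nat_lit 0x7ed1e7eca17ed1e7ed1e7ed1e6ad43) e
 (c (a (nat_lit 0xff91403)) e
 (c z e
 (c (a (nat_lit 0x100cf003)) e
 (c (a (nat_lit 0xfd5ba07)) e
 (c (a (nat_lit 0xfecee07)) e
 (c z e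
 (c (nat_lit 0x7f9607f9f37f9f37f9f37f9f3bddc7) e
 (c (a (nat_lit 0xfeeea08)) e
 (c (nat_lit 0x7efc87efe67efe67efe67efe60e1a8) e
 (c (nat_lit 0x7eff07efe47f0027f00b7f00ba05e8) e
 (c (nat_lit 0x7f0267f0127f0087f01d7f0266e1c9) e
 (c (a (nat_lit 0xfe0fe09)) e
 (c (a (nat_lit 0xfe22809)) e
 (c (a (nat_lit 0xfe80609)) e
 (c (nat_lit 0x7f0e07f0e07f0cc7f0e07f0e03288b) e
 (c (a (nat_lit 0xfe17e0b)) e
 (c (a (nat_lit 0xfffd00b)) e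
 (c (a (nat_lit 0xffff40b)) e
 (c z e
 (c z e
 (c z e
 (c (nat_lit 0x800008000080000800007fff9bbc8f) e e)))))))))))))))))))))))))))))))) Tr.c Tr.e (nat_lit 0) C.t5 C.t6
noncomputable def tt35 : Tr := beta% (fun (c : Nat → Tr → Tr → Tr) (e : Tr) (z : Nat) (a b : Nat → Nat) =>
 (c (a (nat_lit 0xff0c800))
 (c z e
 (c z e
 (c z e
 (c (nat_lit 0x80000800007ffb8800008000080000876c7) e
 (c (nat_lit 0x819b0819548197c8193b819b0819b026308) e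
 (c (nat_lit 0x81c9881c9881c9881c9881c8881c985c588) e
 (c (nat_lit 0x81c0b81bcc81c0b81c0b81c0b81c0bd9dc9) e
 (c (b (nat_lit 0x103a9e09)) e
 (c (b (nat_lit 0x100c2009)) e
 (c (b (nat_lit 0x102cb409)) e
 (c (b (nat_lit 0x100f760b)) e
 (c (b (nat_lit 0x1024000b)) e
 (c (b (nat_lit 0xfff9e0b)) e
 (c (b (nat_lit 0x101ce80b)) e e))))))))))))))
 (c (a (nat_lit 0xfe03200))
 (c (b (nat_lit 0xf2fca07)) e
 (c z e
 (c (b (nat_lit 0x10239e08)) e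
 (c (nat_lit 0x81fdf81fdf81fdf81fdf81fc181fdfdf688) e
 (c (nat_lit 0x824288240d824288242882428823dbb3d49) e
 (c (b (nat_lit 0x10284a09)) e
 (c (b (nat_lit 0x103ab409)) e
 (c (b (nat_lit 0x105dca09)) e
 (c (b (nat_lit 0x1078160b)) e
 (c (b (nat_lit 0x102b4a0b)) e
 (c (b (nat_lit 0x1015ea0b)) e e)))))))))))
 (c (nat_lit 0x7f01d7f01c7f01c7f01c7f01db6880)
 (c (b (nat_lit 0x10278c08)) e
 (c (nat_lit 0x811b0811b0811b0811b0811aa811b03bc88) e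
 (c (nat_lit 0x8160d8160d8160d8160d8160d815cbac0c9) e
 (c (nat_lit 0x816e2816e2816cc816cd816c3816e2841c9) e
 (c (b (nat_lit 0x102acc09)) e
 (c (b (nat_lit 0x103a9409)) e
 (c (b (nat_lit 0x105a620b)) e
 (c (b (nat_lit 0x1077520b)) e e))))))))
 (c (a (nat_lit 0xfe02600))
 (c (b (nat_lit 0x10282209)) e
 (c (b (nat_lit 0x102a6209)) e
 (c z e
 (c (nat_lit 0x813f98118e813f9813f9813f9813f911bc9) e
 (c (nat_lit 0x81f4981f1b81f1b81f4981f4981f49cc40b) e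
 (c (b (nat_lit 0x102a480b)) e
 (c (b (nat_lit 0x10377e0b)) e e)))))))
 (c (a (nat_lit 0xfe01400))
 (c (b (nat_lit 0x1024e209)) e
 (c (nat_lit 0x7fe2f7ff2a80000800008000080000d0889) e
 (c (b (nat_lit 0x102f6e0b)) e
 (c (b (nat_lit 0x1046fc0b)) e
 (c (b (nat_lit 0x107be00b)) e
 (c (b (nat_lit 0x1068d60b)) e e))))))
 (c (a (nat_lit 0xfe02200))
 (c (nat_lit 0x800007fced7fdd98000080000800003058b) e
 (c (b (nat_lit 0x10224c0b)) e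
 (c (b (nat_lit 0x1047a40b)) e
 (c z e
 (c (b (nat_lit 0x103c9a11)) e e)))))
 (c (a (nat_lit 0xfe02401))
 (c (nat_lit 0x8104d8104d8104d8104d810448104464dcb) e
 (c (b (nat_lit 0x1010e60b)) e e))
 (c (a (nat_lit 0xfdff201)) e
 (c (a (nat_lit 0xfde5001)) e
 (c (a (nat_lit 0xf81a401)) e
 (c (nat_lit 0x7f0e57f08e7f0e57f0e57f0e50ccc3) e
 (c (a (nat_lit 0xfe07c03)) e
 (c z e
 (c (a (nat_lit 0x10029003)) e
 (c (a (nat_lit 0xfd26c07)) e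
 (c (a (nat_lit 0xfcc0c07)) e
 (c z e
 (c (a (nat_lit 0xfe3f207)) e
 (c (nat_lit 0x7f5bc7f61e7f61e7f61e7f61ef9de8) e
 (c (nat_lit 0x7f0bb7f0aa7f0bb7f0bb7f0bb25ee8) e
 (c (nat_lit 0x7f0b97f0607f0a37f0b37f0b9fe3e9) e
 (c (nat_lit 0x7f0e47f0e47f0df7f0e47f0e467fa9) e
 (c (nat_lit 0x7f1417f1417f1297f1417f14159ea9) e
 (c (a (nat_lit 0xfe39409)) e
 (c (a (nat_lit 0xfdbd60b)) e
 (c (a (nat_lit 0xfdbb40b)) e
 (c z e
 (c (a (nat_lit 0x100d920b)) e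
 (c (nat_lit 0x800008000080000800007fc994edeb) e e)))))))))))))))))))))))))))))) Tr.c Tr.e (nat_lit 0) C.t5 C.t6
noncomputable def tt36 : Tr := beta% (fun (c : Nat → Tr → Tr → Tr) (e : Tr) (z : Nat) (a b : Nat → Nat) =>
 (c (a (nat_lit 0xfed2a00))
 (c z
 (c z e
 (c z e
 (c z e
 (c z e
 (c z e
 (c z e
 (c z e
 (c z e
 (c (nat_lit 0x8000080000800008000080000800007ff812ef8f) e e)))))))))
 (c (nat_lit 0x8091d8096680966809668096680966559c3) e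
 (c z e
 (c (nat_lit 0x7ffa080000800008000080000800002e387) e
 (c z e
 (c (nat_lit 0x7d29b7d2517d29b7d2657d29b7d29b0ff47) e
 (c (b (nat_lit 0xfc21207)) e
 (c z e
 (c (nat_lit 0x7e38a7e38a7e38a7e3887e3197e38ac7809) e
 (c z e
 (c (b (nat_lit 0x10172c09)) e
 (c (b (nat_lit 0x101e6209)) e
 (c (b (nat_lit 0x1015bc0b)) e
 (c (nat_lit 0x80c2080c2080c1680c1680c2080c2000fcb) e
 (c (nat_lit 0x7ff6a7ff6a80000800008000080000c6a8b) e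
 (c (b (nat_lit 0xfffbe0b)) e e))))))))))))))))
 (c (nat_lit 0x7f0157f0157f0157f0137f013adbe0)
 (c z e
 (c z e
 (c z e
 (c z e
 (c z e
 (c (b (nat_lit 0x10333208)) e
 (c (nat_lit 0x813d7813d7813d7813d081322813d71a049) e
 (c (nat_lit 0x82e6d82e6d82e6d82e6d82e6d82e667d289) e
 (c (b (nat_lit 0x1022dc09)) e
 (c z e
 (c (b (nat_lit 0x1028780b)) e
 (c (b (nat_lit 0x1029ca0b)) e
 (c (b (nat_lit 0x1019500b)) e
 (c (b (nat_lit 0x1006f60b)) e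
 (c (b (nat_lit 0x101fb013)) e e)))))))))))))))
 (c (a (nat_lit 0xfe02a00))
 (c z e
 (c (b (nat_lit 0xfe41407)) e
 (c z e
 (c z e
 (c z e
 (c z e
 (c z e
 (c (b (nat_lit 0x1035ee09)) e
 (c (b (nat_lit 0x1079340b)) e
 (c (b (nat_lit 0x1005a60b)) e e))))))))))
 (c (a (nat_lit 0xfe01a00))
 (c z e
 (c (nat_lit 0x80f4b80f4b80f4b80f4b80f4b80e9c012c8) e
 (c (b (nat_lit 0x101e6609)) e
 (c (b (nat_lit 0x10208009)) e
 (c (b (nat_lit 0x102c6009)) e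
 (c (b (nat_lit 0x10297809)) e
 (c (b (nat_lit 0x1061980b)) e
 (c (b (nat_lit 0x105fec0b)) e
 (c (b (nat_lit 0xfd8c60b)) e
 (c (b (nat_lit 0x100a960b)) e e))))))))))
 (c (a (nat_lit 0xfe02e00))
 (c (nat_lit 0x8108581085810858106b80f868108562309) e
 (c (nat_lit 0x8151581515815158151581515814e572b09) e
 (c z e
 (c (b (nat_lit 0x10123009)) e
 (c (b (nat_lit 0x103d260b)) e
 (c (b (nat_lit 0x104ee60b)) e
 (c (b (nat_lit 0x1058c00b)) e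
 (c (b (nat_lit 0x1018ce0b)) e e))))))))
 (c (a (nat_lit 0xfdfea00))
 (c (b (nat_lit 0x10217809)) e
 (c z e
 (c (nat_lit 0x80aca80a7380a7380aca80aca80acaa460b) e
 (c (b (nat_lit 0x103ede0b)) e
 (c (b (nat_lit 0x108e780b)) e
 (c z e
 (c (b (nat_lit 0x101e0611)) e e)))))))
 (c (a (nat_lit 0xfe00e00))
 (c z e
 (c (b (nat_lit 0x1015640b)) e
 (c (b (nat_lit 0x1020480b)) e
 (c z e
 (c (b (nat_lit 0x10493811)) e
 (c (b (nat_lit 0x101c1811)) e e))))))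
 (c (a (nat_lit 0xfe00a00))
 (c (b (nat_lit 0x1038420b)) e
 (c (b (nat_lit 0x1052ce0b)) e
 (c (b (nat_lit 0x10687220)) e
 (c (b (nat_lit 0x10587820)) e e))))
 (c (nat_lit 0x7f0077efff7f0027f0027f00281f41)
 (c (nat_lit 0x800008000083980839808398083980fa910) e e)
 (c (a (nat_lit 0xfdfe601)) e
 (c (a (nat_lit 0xfcfca01))
 (c (nat_lit 0x800008000080000800007ecb07ecb0db350) e
 (c (nat_lit 0x80000800008000080000800007fb12a6b50) e e))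
 (c (a (nat_lit 0xfcd0201)) e
 (c (a (nat_lit 0xfec5e03)) e
 (c (a (nat_lit 0xfed7e03)) e
 (c (a (nat_lit 0x100c8403)) e
 (c z e
 (c (a (nat_lit 0xfe1ba07)) e
 (c (a (nat_lit 0xfe0aa07)) e
 (c z e
 (c (a (nat_lit 0xfe26607)) e
 (c (nat_lit 0x7f6367f67c7f67c7f67c7f67c652a8) e
 (c (nat_lit 0x7f1007f0bd7f1007f1007f100d1d09) e
 (c (nat_lit 0x7f1277f1277f11f7f1277f1274df09) e
 (c (nat_lit 0x7f19e7f19e7f03f7f19e7f19e421e9) e
 (c (a (nat_lit 0xfe73c09)) e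
 (c (nat_lit 0x7f0297f0297f0267f0297f029d638b) e
 (c (a (nat_lit 0xfe03e0b)) e
 (c (a (nat_lit 0xfe52a0b)) e
 (c (a (nat_lit 0x100e1a0b)) e
 (c (nat_lit 0x8000080000800007fff47fff43e0af) e e))))))))))))))))))))))))))))))) Tr.c Tr.e (nat_lit 0) C.t5 C.t6
noncomputable def tt37 : Tr := beta% (fun (c : Nat → Tr → Tr → Tr) (e : Tr) (z : Nat) (a b d : Nat → Nat) =>
 (c (nat_lit 0x7f0217f01f7f01f7f01f7f02151000)
 (c z
 (c z e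
 (c z e
 (c z e
 (c z e
 (c (d (nat_lit 0xf6a3a0b)) e
 (c z e
 (c z e
 (c (nat_lit 0x7f0477f0477f0477f0477ef487f0477f04771841) e
 (c (nat_lit 0x800008000080000800007ffe280000800007bd8f) e e)))))))))
 (c (b (nat_lit 0x101b4201)) e
 (c z e
 (c (b (nat_lit 0x1043bc03)) e
 (c (b (nat_lit 0x103ee403)) e
 (c (b (nat_lit 0x10259003)) e
 (c (b (nat_lit 0x10305207)) e
 (c (b (nat_lit 0x104a3607)) e
 (c z e
 (c (b (nat_lit 0xf899c07)) e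
 (c (b (nat_lit 0xf3f7e09)) e
 (c (b (nat_lit 0xfdb3c09)) e
 (c (b (nat_lit 0x102a6c09)) e
 (c (b (nat_lit 0x102c5209)) e
 (c (nat_lit 0x8122c8122b8122b8124481244812446ed0b) e
 (c (b (nat_lit 0x101eec0b)) e
 (c (b (nat_lit 0x1018520b)) e e)))))))))))))))))
 (c (nat_lit 0x7f0127f0117f0117f0117f012d6d20)
 (c (b (nat_lit 0x10110203))
 (c z e
 (c (d (nat_lit 0x1065980b)) e e))
 (c z e
 (c z e
 (c (b (nat_lit 0x10235e03)) e
 (c (b (nat_lit 0x10330207)) e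
 (c (b (nat_lit 0x10345c07)) e
 (c z e
 (c (b (nat_lit 0xff2a607)) e
 (c (nat_lit 0x824d1824d1824d1824ca824d1824d1f63c9) e
 (c (nat_lit 0x7eb347eb347eb347eb1d7eaa57eb3465c89) e
 (c z e
 (c (b (nat_lit 0x1018c409)) e
 (c (b (nat_lit 0x10256a0b)) e
 (c (nat_lit 0x811ad811ad80fbc811ad811ad811adf408b) e
 (c (b (nat_lit 0x101bf40b)) e
 (c (b (nat_lit 0x10098a0b)) e
 (c (b (nat_lit 0x10121613)) e e)))))))))))))))))
 (c (nat_lit 0x7f01f7f01f7f01f7f01c7f01ded2e0)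
 (c z e
 (c z e
 (c z e
 (c z e
 (c z e
 (c z e
 (c z e
 (c (b (nat_lit 0xfd26a09)) e
 (c (b (nat_lit 0x10405609)) e
 (c z e
 (c (b (nat_lit 0x1024c80b)) e
 (c (b (nat_lit 0x1029be0b)) e
 (c (b (nat_lit 0x1022b80b)) e
 (c (b (nat_lit 0x102bf80b)) e
 (c (b (nat_lit 0x1051da13)) e
 (c (b (nat_lit 0x10153013)) e e))))))))))))))))
 (c (a (nat_lit 0xfdfa200))
 (c (b (nat_lit 0xfd72c07)) e
 (c (nat_lit 0x80000800007ffca7fffa8000080000117c7) e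
 (c (b (nat_lit 0xfeed007)) e
 (c z e
 (c (nat_lit 0x811c38118a810fb81082811c3811c398509) e
 (c (b (nat_lit 0x10166009)) e
 (c (b (nat_lit 0x101d2e09)) e
 (c z e
 (c (b (nat_lit 0x1051420b)) e
 (c (b (nat_lit 0x102a5a0b)) e
 (c (b (nat_lit 0x10140e0b)) e
 (c z e
 (c (nat_lit 0x8181f8181f817be8181f8181f8181f12013) e
 (c (b (nat_lit 0x101b7013)) e e))))))))))))))
 (c (a (nat_lit 0xfe02a00))
 (c (b (nat_lit 0x1006be07)) e
 (c (nat_lit 0x7ffad7fff980000800008000080000e0347) e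
 (c (b (nat_lit 0x1014d409)) e
 (c (nat_lit 0x815198151981519815198150b81519bce89) e
 (c z e
 (c (b (nat_lit 0x10424409)) e
 (c z e
 (c z e
 (c z e
 (c (b (nat_lit 0x1018c80b)) e
 (c z e
 (c (nat_lit 0x800008000080000806ae806ae806ae3d44f) e e))))))))))))
 (c (nat_lit 0x7f03a7f0397f0397f0397f03a238e0)
 (c (nat_lit 0x80e1880e1880e1880e1880e1880b4a2db09) e
 (c (b (nat_lit 0x101a6409)) e
 (c (b (nat_lit 0x100cac09)) e
 (c (nat_lit 0x8110e810c7811de811de811de811dea0849) e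
 (c (b (nat_lit 0x10397e0b)) e
 (c (b (nat_lit 0x105bca0b)) e
 (c z e
 (c (b (nat_lit 0x100cdc0b)) e
 (c (nat_lit 0x80a5880a7d80a5980a9a80a9a80a9a92851) e e)))))))))
 (c (a (nat_lit 0xfe01e00))
 (c z e
 (c z e
 (c (nat_lit 0x80ad580ad580a8680ad580ad580ad56cccb) e
 (c (b (nat_lit 0x1026a00b)) e
 (c (b (nat_lit 0x1041860b)) e
 (c (b (nat_lit 0x1062d00b)) e
 (c (b (nat_lit 0x10142011)) e
 (c (b (nat_lit 0x10171211)) e e))))))))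
 (c (a (nat_lit 0xfe00c00))
 (c (nat_lit 0x821238208f820cc8212382123821233260b) e
 (c (nat_lit 0x822de822de822868229f822de822de6accb) e
 (c (b (nat_lit 0x10217c0b)) e
 (c z e
 (c (nat_lit 0x82e9e82e9e82e3e82e9e82e9e82e9ebac51) e e)))))
 (c (a (nat_lit 0xfe00000))
 (c (b (nat_lit 0x101e420b)) e
 (c z e
 (c (b (nat_lit 0x1054d620)) e
 (c (b (nat_lit 0x1082a220)) e e))))
 (c (a (nat_lit 0xfe00400))
 (c (b (nat_lit 0x1049dc10)) e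
 (c (b (nat_lit 0x1035e020)) e e))
 (c (nat_lit 0x7f01f7f0187f0187f0187f0192e2c1) e
 (c (nat_lit 0x7f0187f0187f00b7f00b7f00c8e941)
 (c z e
 (c (nat_lit 0x800008000080000800007f7f07f7f084590) e
 (c (nat_lit 0x80000800008000080000800007f831cc8d0) e e)))
 (c (a (nat_lit 0xfe01001)) e
 (c (a (nat_lit 0xfdf8001)) e
 (c (a (nat_lit 0xfed8803)) e
 (c (a (nat_lit 0xff05c03)) e
 (c (a (nat_lit 0x10004203)) e
 (c (a (nat_lit 0x10114a03)) e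
 (c (a (nat_lit 0xfefa207)) e
 (c (a (nat_lit 0xfefe807)) e
 (c z e
 (c (a (nat_lit 0xfdc4407)) e
 (c (a (nat_lit 0xfef5e09)) e
 (c (nat_lit 0x7f08b7f08b7f08b7f0837f08b48dc9) e
 (c (a (nat_lit 0xfe1e209)) e
 (c (a (nat_lit 0xfe48e09)) e
 (c (nat_lit 0x7f0217f0107f0067f0217f021b34ab) e
 (c (nat_lit 0x7f0047f0047f0047f0007f004321eb) e
 (c z e
 (c (nat_lit 0x7fcf37fcf37fcf37fcf37fcef66f6b) e
 (c (nat_lit 0x80000800007febe7febe7febefa1cf) e e)))))))))))))))))))))))))))))))) Tr.c Tr.e (nat_lit 0) C.t5 C.t6 C.t7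
noncomputable def tt38 : Tr := beta% (fun (c : Nat → Tr → Tr → Tr) (e : Tr) (z : Nat) (a b d : Nat → Nat) =>
 (c (a (nat_lit 0xfe00000))
 (c (b (nat_lit 0x101f9c01))
 (c z e
 (c (d (nat_lit 0xf336809)) e
 (c z e
 (c z e
 (c (nat_lit 0x8000080000800007feea8000080000800008da8b) e
 (c z e
 (c z e
 (c (d (nat_lit 0xf54660f)) e
 (c (d (nat_lit 0xf7b620f)) e e)))))))))
 (c (b (nat_lit 0x101ff001))
 (c z e
 (c z e
 (c z e
 (c z e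
 (c z e
 (c z e
 (c z e
 (c z e
 (c z e
 (c z e
 (c z e
 (c z e
 (c (nat_lit 0x8000080000800008000080000800007fee2c28a8) e e)))))))))))))
 (c (b (nat_lit 0xfdc5e01)) e
 (c z e
 (c (b (nat_lit 0xff59e03))
 (c (d (nat_lit 0x10299c0f)) e e)
 (c (b (nat_lit 0xfef9403)) e
 (c (b (nat_lit 0xfd8f003)) e
 (c (b (nat_lit 0x107d9a07)) e
 (c (b (nat_lit 0x1044ea07)) e
 (c (nat_lit 0x80000800008000080000800007ffffd6283) e
 (c z e
 (c (b (nat_lit 0x10351a09)) e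
 (c z e
 (c (b (nat_lit 0x100fe009)) e
 (c (b (nat_lit 0x1015ee0b)) e
 (c (b (nat_lit 0x100e3e0b)) e
 (c z e
 (c z e
 (c z e
 (c (b (nat_lit 0xfee920f)) e e))))))))))))))))))))
 (c (a (nat_lit 0xfdff800))
 (c z e
 (c z e
 (c z e
 (c z e
 (c z e
 (c z e
 (c z e
 (c z e
 (c z e
 (c z e
 (c (nat_lit 0x7d8787d8787d8787d8787d8477d87899549) e
 (c (b (nat_lit 0xfc4fe09)) e
 (c z e
 (c z e
 (c z e
 (c (b (nat_lit 0xffffc0b)) e
 (c z e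
 (c (b (nat_lit 0x1011be0f)) e
 (c (b (nat_lit 0xffe6e0f)) e e)))))))))))))))))))
 (c (a (nat_lit 0xfe02000))
 (c (b (nat_lit 0x100f8803))
 (c (nat_lit 0x800007fdc880000800008000080000800005560f) e
 (c z e
 (c z e
 (c (d (nat_lit 0xfae3c0f)) e e))))
 (c (b (nat_lit 0x10213803)) e
 (c (b (nat_lit 0xff62a03)) e
 (c (b (nat_lit 0x10147c07)) e
 (c (b (nat_lit 0x102e1407)) e
 (c (b (nat_lit 0x104a1607)) e
 (c z e
 (c (nat_lit 0x85ba085ba085b4a85ad785ba085ba09bf09) e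
 (c (b (nat_lit 0xffb9a09)) e
 (c (b (nat_lit 0x1049ae09)) e
 (c (b (nat_lit 0x10660c0b)) e
 (c (b (nat_lit 0x105de60b)) e
 (c (b (nat_lit 0x10104a0b)) e
 (c z e
 (c (nat_lit 0x80f2180f2180eb880f2180f2180f214d58f) e
 (c (b (nat_lit 0x10123e0f)) e
 (c (b (nat_lit 0xfffac0f)) e
 (c (b (nat_lit 0x102f900f)) e
 (c z e
 (c z e
 (c z e
 (c (nat_lit 0x80000800008000080000800007ffe601ad7) e e))))))))))))))))))))))
 (c (a (nat_lit 0xfdff200))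
 (c (b (nat_lit 0x1083f403))
 (c (d (nat_lit 0xfe61e0f)) e e)
 (c z e
 (c (b (nat_lit 0xfdbe607)) e
 (c z e
 (c (b (nat_lit 0xf821207)) e
 (c z e
 (c (b (nat_lit 0xfcf0209)) e
 (c z e
 (c (b (nat_lit 0x105d5a0b)) e
 (c (nat_lit 0x82487824878242482487824878248703bcb) e
 (c z e
 (c (b (nat_lit 0x10094c0b)) e
 (c (b (nat_lit 0x1037880f)) e
 (c (nat_lit 0x8143d8143d8143d8140e8143d8143d4fa0f) e
 (c z e
 (c (b (nat_lit 0x1024ce0f)) e e))))))))))))))))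
 (c (nat_lit 0x7f00f7f00e7f00e7f00e7f00f34c60)
 (c (b (nat_lit 0xfff8007)) e
 (c z e
 (c z e
 (c z e
 (c z e
 (c (b (nat_lit 0x1035dc09)) e
 (c (b (nat_lit 0xff24c0b)) e
 (c z e
 (c (b (nat_lit 0xf9c9a0b)) e
 (c (b (nat_lit 0x1010a40b)) e
 (c (b (nat_lit 0x10252c0f)) e
 (c (b (nat_lit 0x101f3a0f)) e e))))))))))))
 (c (a (nat_lit 0xfe04200))
 (c z e
 (c (b (nat_lit 0x1013b409)) e
 (c (b (nat_lit 0x100e4009)) e
 (c z e
 (c (b (nat_lit 0x10267a0b)) e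
 (c (b (nat_lit 0x1067c60b)) e
 (c z e
 (c (b (nat_lit 0x1004bc0b)) e
 (c (b (nat_lit 0x10191c0f)) e
 (c (b (nat_lit 0x1005fe0f)) e e))))))))))
 (c (a (nat_lit 0xfdff000))
 (c (b (nat_lit 0x1019f609)) e
 (c (b (nat_lit 0x10383e09)) e
 (c (nat_lit 0x80de180de180e7180e7180dc680dc68e8cb) e
 (c (nat_lit 0x81cc981cc981c4c81c2d81cc981cc92d3cb) e
 (c (b (nat_lit 0x1045980b)) e
 (c z e
 (c (b (nat_lit 0x1018320f)) e
 (c (b (nat_lit 0x100cee0f)) e e))))))))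
 (c (nat_lit 0x7f0087f0087f0087f0087f00b318c0)
 (c (b (nat_lit 0x102ee60b)) e
 (c (b (nat_lit 0x10702c0b)) e
 (c z e
 (c z e
 (c (nat_lit 0x8000080000800007ffbb8000080000f49cf) e
 (c (b (nat_lit 0x1015440f)) e
 (c z e
 (c (nat_lit 0x800008000080000800007ff787ff78f3fcf) e e))))))))
 (c (a (nat_lit 0xfdfc400))
 (c z e
 (c z e
 (c (b (nat_lit 0x1020260f)) e e)))
 (c (a (nat_lit 0xfdfd800))
 (c (nat_lit 0x824ba824ba824ba82438824ba822ca989cf) e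
 (c (b (nat_lit 0x1035c20f)) e
 (c z e
 (c (nat_lit 0x800008000080000800007ff3f80000a634f) e e))))
 (c (a (nat_lit 0xfe00a00))
 (c z e
 (c (b (nat_lit 0x10ffec0f)) e
 (c (nat_lit 0x8000080000800007fab27fab27f962b4e50) e
 (c (nat_lit 0x800008000080000800007fae17fae19eed0) e e))))
 (c (a (nat_lit 0xfdfe601))
 (c (nat_lit 0x800008000086bf086bf086bf086bf0e59d0) e
 (c (nat_lit 0x800008000080000810308104f8104f63310) e e))
 (c (a (nat_lit 0xfdfd401)) e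
 (c (nat_lit 0x7f03d7f03d7f03d7f0057f0088a461) e
 (c (a (nat_lit 0xfdfbc01)) e
 (c (a (nat_lit 0xff0e003)) e
 (c (a (nat_lit 0xff0cc03)) e
 (c z e
 (c z e
 (c (a (nat_lit 0xfe87207)) e
 (c (a (nat_lit 0xfe7f607)) e
 (c (a (nat_lit 0xff3a007)) e
 (c (nat_lit 0x7f0907f0927f0e17f0e17f0e102127) e
 (c (a (nat_lit 0xfe15609)) e
 (c (nat_lit 0x7f0eb7f13b7f0f57f13b7f13b675c9) e
 (c (a (nat_lit 0xfe20a09)) e
 (c (a (nat_lit 0xfda660b)) e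
 (c (a (nat_lit 0xfda800b)) e
 (c z e
 (c (a (nat_lit 0x102b6c0b)) e
 (c (a (nat_lit 0xfd20a0f)) e
 (c (nat_lit 0x8000080000800007ffcb7ffcba7f8f) e
 (c z e
 (c (nat_lit 0x7eba07ec2f7ec2f7ec2f7ec2f2a70f) e e))))))))))))))))))))))))))))))))))) Tr.c Tr.e (nat_lit 0) C.t5 C.t6 C.t7
noncomputable def tt39 : Tr := beta% (fun (c : Nat → Tr → Tr → Tr) (e : Tr) (z : Nat) (a b : Nat → Nat) =>
 (c (a (nat_lit 0x10203800))
 (c (b (nat_lit 0x107d4c07)) e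
 (c (b (nat_lit 0xe037807)) e
 (c z e
 (c z e
 (c z e
 (c z e
 (c (b (nat_lit 0xff9ca0b)) e
 (c z e
 (c (b (nat_lit 0x10a8c20b)) e
 (c z e
 (c z e
 (c (b (nat_lit 0x10ff800f)) e
 (c (b (nat_lit 0x1075dc0f)) e
 (c z e
 (c z e
 (c z e
 (c z e
 (c z e
 (c (nat_lit 0x8000080000800008000080000800007fff642219) e e)))))))))))))))))))
 (c (nat_lit 0x810438103e8103e8103e8103e8103f0c7c1)
 (c (b (nat_lit 0xeeb8e09)) e
 (c z e
 (c z e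
 (c z e
 (c (b (nat_lit 0x105c6a0b)) e
 (c (b (nat_lit 0x1068200b)) e
 (c (b (nat_lit 0x105f2c0b)) e
 (c z e
 (c (b (nat_lit 0x1056960f)) e e)))))))))
 (c (a (nat_lit 0x10202201))
 (c z e
 (c z e
 (c z e
 (c z e
 (c z e
 (c z e
 (c z e
 (c z e
 (c z e
 (c z e
 (c z e
 (c (nat_lit 0x80000800008000080000800007ffbd800008c527) e e))))))))))))
 (c (a (nat_lit 0x101ba001))
 (c z e
 (c z e
 (c (b (nat_lit 0xfff620b)) e
 (c (b (nat_lit 0x102e060f)) e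
 (c (nat_lit 0x800008000080000800007ffd880000800003038f) e e)))))
 (c (a (nat_lit 0x10108001))
 (c z e
 (c z e
 (c z e
 (c z e
 (c (b (nat_lit 0x1083100f)) e e)))))
 (c z
 (c z e
 (c z e
 (c (b (nat_lit 0xfff280f)) e e)))
 (c (a (nat_lit 0x10363603)) e
 (c (a (nat_lit 0x103f1803)) e
 (c z e
 (c z e
 (c (nat_lit 0x8192d8192d81821817fa8192d8192de8f47) e
 (c (a (nat_lit 0xfda6407)) e
 (c (a (nat_lit 0xedb2007)) e
 (c (a (nat_lit 0x1032fc09)) e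
 (c (a (nat_lit 0x1016fa09)) e
 (c z e
 (c z e
 (c (a (nat_lit 0x1012dc0b)) e
 (c z e
 (c z e
 (c (a (nat_lit 0x1008ae0f)) e
 (c (nat_lit 0x804ff804ff804ff804ff804bb804ffd3a0f) e e))))))))))))))))))))))) Tr.c Tr.e (nat_lit 0) C.t6 C.t7
noncomputable def tt40 : Tr := beta% (fun (c : Nat → Tr → Tr → Tr) (e : Tr) (z : Nat) (a b d : Nat → Nat) =>
 (c (a (nat_lit 0xfe02a00))
 (c (b (nat_lit 0x101f7601))
 (c (d (nat_lit 0xf7ab209)) e e)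
 (c (b (nat_lit 0x101fbe01))
 (c z e
 (c (d (nat_lit 0xe1f9c0b)) e e))
 (c (b (nat_lit 0x101f3401)) e
 (c z e
 (c z e
 (c z e
 (c z e
 (c z e
 (c (b (nat_lit 0xff07c07)) e
 (c (b (nat_lit 0xfe89c07)) e
 (c z e
 (c (b (nat_lit 0x10536007)) e
 (c (nat_lit 0x8079e8079e8079e807588079e8079eadf49) e
 (c z e
 (c z e
 (c z e
 (c z e
 (c z e
 (c z e
 (c (b (nat_lit 0x1011480f)) e e))))))))))))))))))))
 (c (a (nat_lit 0xfe02400))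
 (c (b (nat_lit 0x10122601))
 (c (nat_lit 0x7ec367ec367e91c7ec367ec367ec367ec363278b) e
 (c z e
 (c z e
 (c z e
 (c (d (nat_lit 0x104fec0f)) e
 (c z e
 (c (d (nat_lit 0xfb2800f)) e
 (c (d (nat_lit 0xf7eaa18)) e e))))))))
 (c (b (nat_lit 0x101f7801)) e
 (c (b (nat_lit 0x10130403)) e
 (c (b (nat_lit 0x10043203)) e
 (c (nat_lit 0x7f7957f7fb7f7fb7f7fb7f7fb7f7fbc3943) e
 (c z e
 (c (b (nat_lit 0x10603a07)) e
 (c (b (nat_lit 0x10324a07)) e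
 (c z e
 (c z e
 (c (b (nat_lit 0x101e9209)) e
 (c (b (nat_lit 0x101c6209)) e
 (c (b (nat_lit 0x10123e0b)) e
 (c (b (nat_lit 0x1014200b)) e
 (c z e
 (c (b (nat_lit 0x1002520b)) e
 (c (nat_lit 0x80256802568023f8025680256802564cb0f) e
 (c (nat_lit 0x8000080000800007ffcb7ffe1800006150f) e
 (c z e
 (c (nat_lit 0x7ffe27ffe27ffe27ff347ffe27ffe29de8f) e
 (c (nat_lit 0x80000800008000080000800007ff54e1d8f) e
 (c (nat_lit 0x800008000080000800007ffe57fd9493317) e e))))))))))))))))))))))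
 (c (a (nat_lit 0xfe04800))
 (c z
 (c z e
 (c (d (nat_lit 0xffff60f)) e e))
 (c (b (nat_lit 0x10174203)) e
 (c (b (nat_lit 0x10139003)) e
 (c (b (nat_lit 0x104eb603)) e
 (c (b (nat_lit 0x1039de07)) e
 (c (b (nat_lit 0x10891807)) e
 (c (b (nat_lit 0x1044aa07)) e
 (c z e
 (c (b (nat_lit 0xf371209)) e
 (c z e
 (c (b (nat_lit 0x10241c0b)) e
 (c (b (nat_lit 0x101aac0b)) e
 (c z e
 (c z e
 (c (b (nat_lit 0x1021e20f)) e
 (c (b (nat_lit 0x1039080f)) e e))))))))))))))))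
 (c (nat_lit 0x7f0207f0207f0207f0207f023dc9c0)
 (c (b (nat_lit 0x1024b203)) e
 (c z e
 (c (b (nat_lit 0xff19a07)) e
 (c (b (nat_lit 0xfe43607)) e
 (c (b (nat_lit 0xff68c07)) e
 (c (b (nat_lit 0xff35807)) e
 (c z e
 (c z e
 (c z e
 (c (b (nat_lit 0x1031720b)) e e))))))))))
 (c (nat_lit 0x7f01d7f01c7f01c7f01c7f01d00920)
 (c z e
 (c (nat_lit 0x80000800007ffff800008000080000b9fc7) e
 (c z e
 (c (nat_lit 0x800007ffd27ffd280000800008000036787) e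
 (c z e
 (c z e
 (c z e
 (c z e
 (c (b (nat_lit 0xfa57c0b)) e
 (c (b (nat_lit 0x1011240b)) e
 (c (b (nat_lit 0x101bd80f)) e
 (c (b (nat_lit 0xff44a0f)) e e))))))))))))
 (c (a (nat_lit 0xfe06000))
 (c (b (nat_lit 0xfe07607)) e
 (c (b (nat_lit 0xf844607)) e
 (c z e
 (c z e
 (c z e
 (c z e
 (c z e
 (c z e
 (c (b (nat_lit 0x100aa40f)) e
 (c z e
 (c z e
 (c (b (nat_lit 0xffaaa0f)) e e))))))))))))
 (c (a (nat_lit 0xfe04600))
 (c z e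
 (c z e
 (c z e
 (c (b (nat_lit 0x102f380b)) e
 (c z e
 (c (b (nat_lit 0xfe4de0b)) e
 (c (b (nat_lit 0x1016780f)) e
 (c (b (nat_lit 0x100e300f)) e e))))))))
 (c (a (nat_lit 0xfe03800))
 (c (b (nat_lit 0x1014ce0b)) e
 (c (b (nat_lit 0x103dfc0b)) e
 (c z e
 (c z e
 (c (nat_lit 0x7f1437f0927f1267f1437f1437f143a378f) e
 (c (b (nat_lit 0x1017720f)) e
 (c (b (nat_lit 0xffffe0f)) e
 (c (b (nat_lit 0xfcb340f)) e
 (c (b (nat_lit 0x10121411)) e e)))))))))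
 (c (a (nat_lit 0xfdffa00))
 (c (b (nat_lit 0x101b0e0b)) e
 (c z e
 (c z e
 (c (b (nat_lit 0x101e320f)) e e))))
 (c (nat_lit 0x7f0167f0137f0137f0137f0131ff80)
 (c (b (nat_lit 0x105a060f)) e
 (c (b (nat_lit 0x102db20f)) e e))
 (c (a (nat_lit 0xfe02200))
 (c z e
 (c z e
 (c z e
 (c (nat_lit 0x8000080000800007ffd58000080000176d0) e e))))
 (c (a (nat_lit 0xfe02600))
 (c (b (nat_lit 0x10fef210)) e
 (c (nat_lit 0x800008000080dc580dc580dc580dc5ac550) e e))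
 (c (a (nat_lit 0xfe02801)) e
 (c (a (nat_lit 0xfdfea01)) e
 (c (a (nat_lit 0xfdffa01)) e
 (c (nat_lit 0x7f0a17f0a17f0a17f0a17f033dcd81) e
 (c (a (nat_lit 0xfed8203)) e
 (c (a (nat_lit 0xfeefc03)) e
 (c (a (nat_lit 0xff51403)) e
 (c (a (nat_lit 0x10056003)) e
 (c (a (nat_lit 0xfeec407)) e
 (c (a (nat_lit 0xfefd807)) e
 (c (a (nat_lit 0xfeef007)) e
 (c (a (nat_lit 0xfd83607)) e
 (c (a (nat_lit 0xfe52a09)) e
 (c (nat_lit 0x7f4387f4377f4387f4387f4384ed49) e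
 (c (nat_lit 0x7f0217f0217f0057f0217f021f9d2b) e
 (c (nat_lit 0x7effa7f0157f0157f0157f0150430b) e
 (c (nat_lit 0x7f25f7f25f7f25f7f25d7f25fe462b) e
 (c z e
 (c (a (nat_lit 0xfcdb80f)) e
 (c (nat_lit 0x7ffad800008000080000800003566f) e
 (c (nat_lit 0x7ff987ff987fffb80000800009398f) e
 (c (nat_lit 0x7f4bb7f4bb7f4bb7f4bb7f19dd4dcf) e e))))))))))))))))))))))))))))))))))) Tr.c Tr.e (nat_lit 0) C.t5 C.t6 C.t7
noncomputable def tt41 : Tr := beta% (fun (c : Nat → Tr → Tr → Tr) (e : Tr) (z : Nat) (a b : Nat → Nat) =>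
 (c (a (nat_lit 0x10202e00))
 (c z e
 (c (b (nat_lit 0xdd0d007)) e
 (c z e
 (c z e
 (c (b (nat_lit 0xfc31209)) e
 (c (b (nat_lit 0x1037000b)) e
 (c (b (nat_lit 0xf9f0a0b)) e
 (c z e
 (c z e
 (c (b (nat_lit 0x1072180f)) e
 (c z e
 (c (b (nat_lit 0xfffd40f)) e e))))))))))))
 (c (a (nat_lit 0x101fbc00))
 (c z e
 (c z e
 (c z e
 (c z e
 (c z e
 (c z e
 (c z e
 (c z e
 (c z e
 (c z e
 (c z e
 (c z e
 (c z e
 (c (nat_lit 0x80000800008000080000828198283082830d8db0) e e))))))))))))))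
 (c (a (nat_lit 0x10200a01)) e
 (c (a (nat_lit 0x101f9c01))
 (c z e
 (c z e
 (c z e
 (c (b (nat_lit 0xfff980f)) e
 (c z e
 (c z e
 (c z e
 (c (b (nat_lit 0xf718417)) e e))))))))
 (c (a (nat_lit 0x101f8801)) e
 (c z e
 (c (a (nat_lit 0x10171803)) e
 (c (a (nat_lit 0x100e7803)) e
 (c (a (nat_lit 0x100df403)) e
 (c z e
 (c z e
 (c z e
 (c z e
 (c z e
 (c (a (nat_lit 0xfdf6009)) e
 (c (a (nat_lit 0x1019c609)) e
 (c (a (nat_lit 0xff4b60b)) e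
 (c (a (nat_lit 0x1014880b)) e
 (c (a (nat_lit 0x1006d00b)) e
 (c z e
 (c z e
 (c (nat_lit 0x8049980499804048031a80499804996b38f) e
 (c (nat_lit 0x800008000080000800007ff7880000aa78f) e
 (c z e
 (c (nat_lit 0x8000080000800007feb37feb38000075ad7) e e)))))))))))))))))))))))))) Tr.c Tr.e (nat_lit 0) C.t6 C.t7
noncomputable def tt42 : Tr := beta% (fun (c : Nat → Tr → Tr → Tr) (e : Tr) (z : Nat) (a b : Nat → Nat) =>
 (c (a (nat_lit 0x1020c600))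
 (c (b (nat_lit 0xeae3003)) e
 (c (b (nat_lit 0xf651203)) e
 (c z e
 (c (b (nat_lit 0x1080ee07)) e
 (c (nat_lit 0x831cf831cf8310c831cf831cf831cf831cff4887) e
 (c z e
 (c z e
 (c z e
 (c (b (nat_lit 0x1055060b)) e
 (c (b (nat_lit 0x1044940b)) e
 (c (b (nat_lit 0x1092180b)) e
 (c (nat_lit 0x80000800008000080000800007fe2d800001548b) e
 (c (b (nat_lit 0xf46f40f)) e
 (c (b (nat_lit 0xee3600f)) e
 (c (b (nat_lit 0xf9f880f)) e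
 (c (b (nat_lit 0xfe0260f)) e e))))))))))))))))
 (c (a (nat_lit 0x101f8200))
 (c z e
 (c z e
 (c z e
 (c z e
 (c z e
 (c z e
 (c z e
 (c (b (nat_lit 0x1050fe0b)) e e))))))))
 (c (a (nat_lit 0x101f4200)) e
 (c (a (nat_lit 0x101efa00))
 (c (b (nat_lit 0xf63a409)) e
 (c (b (nat_lit 0xf928209)) e
 (c (b (nat_lit 0x101e780b)) e
 (c z e
 (c (b (nat_lit 0x1067da0b)) e
 (c z e
 (c (b (nat_lit 0xf693c0f)) e
 (c (b (nat_lit 0xf90d20f)) e e))))))))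
 (c (a (nat_lit 0x101ef201))
 (c z e
 (c z e
 (c z e
 (c (b (nat_lit 0xf496a0b)) e
 (c z e
 (c (b (nat_lit 0xf8d000f)) e
 (c (nat_lit 0x8000080000800007ff788000080000800004bf8f) e e)))))))
 (c (a (nat_lit 0x101f3a01))
 (c z e
 (c (b (nat_lit 0x104b8c0b)) e e))
 (c (a (nat_lit 0x101cbe01))
 (c z e
 (c z e
 (c z e
 (c (b (nat_lit 0xfd56a0f)) e e))))
 (c (a (nat_lit 0x101b1801))
 (c z e
 (c (b (nat_lit 0x101e020f)) e e))
 (c (a (nat_lit 0x100f7803)) e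
 (c z e
 (c (nat_lit 0x7f6bb7f6bb7f6bb7f62a7f6bb7f6bb80ac3) e
 (c (a (nat_lit 0x10297c03)) e
 (c (nat_lit 0x875868758687586874ca874ca8758621cc7) e
 (c (a (nat_lit 0x1094c607)) e
 (c (nat_lit 0x81b1d81b0f81b1d81b1d81b1d81b1d11687) e
 (c (a (nat_lit 0xfa89407)) e
 (c (a (nat_lit 0x10145409)) e
 (c (a (nat_lit 0x1037f809)) e
 (c (a (nat_lit 0x10232c0b)) e
 (c (a (nat_lit 0x10340c0b)) e
 (c (a (nat_lit 0x1022b20b)) e
 (c (a (nat_lit 0xfebb40b)) e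
 (c z e
 (c (a (nat_lit 0x100b740f)) e
 (c (nat_lit 0x7ffee7ffee800007ffe87ffe8800001c4cf) e
 (c (nat_lit 0x80000800007ffbf7ffbf8000080000f56cf) e
 (c (nat_lit 0x80000800008000080000800007fdf7ba8cf) e
 (c (nat_lit 0x800008000080000800007ff5c7ff5cc5799) e e))))))))))))))))))))))))))))) Tr.c Tr.e (nat_lit 0) C.t6 C.t7
noncomputable def tt43 : Tr := beta% (fun (c : Nat → Tr → Tr → Tr) (e : Tr) (z : Nat) (a b d : Nat → Nat) =>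
 (c (a (nat_lit 0xfe02e00))
 (c (b (nat_lit 0x10123201))
 (c z e
 (c z e
 (c z e
 (c z e
 (c z e
 (c z e
 (c z e
 (c (d (nat_lit 0xf694218)) e e))))))))
 (c (b (nat_lit 0x101f8401)) e
 (c z e
 (c z
 (c z e
 (c (nat_lit 0x7ff1880000800008000080000800008000031b98) e e))
 (c (b (nat_lit 0x1001e003)) e
 (c (b (nat_lit 0x100da603)) e
 (c (b (nat_lit 0x101c1c03)) e
 (c (b (nat_lit 0x109f3807)) e
 (c (nat_lit 0x83bb883bb883ba083bb583bb883bb88ff47) e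
 (c z e
 (c z e
 (c (b (nat_lit 0x100b2609)) e
 (c (b (nat_lit 0x101fde0b)) e
 (c (b (nat_lit 0x102fa80b)) e
 (c (b (nat_lit 0x101b640b)) e
 (c (b (nat_lit 0xff1aa0b)) e
 (c (b (nat_lit 0x1006e80f)) e
 (c (b (nat_lit 0x100c2e0f)) e
 (c z e
 (c z e
 (c (nat_lit 0x80000800008000080000800007fce01fdcf) e
 (c z e
 (c z e
 (c z e
 (c (nat_lit 0x80000800008000080000800007ff0ed1a57) e e)))))))))))))))))))))))))
 (c (a (nat_lit 0xfe04400))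
 (c z e
 (c z e
 (c z e
 (c z e
 (c z e
 (c (b (nat_lit 0x10a15c07)) e
 (c (b (nat_lit 0x10821c07)) e
 (c z e
 (c z e
 (c (b (nat_lit 0x1065f209)) e
 (c (b (nat_lit 0x1057a80b)) e
 (c z e
 (c z e
 (c z e
 (c (b (nat_lit 0x1006840f)) e
 (c (b (nat_lit 0x100bee0f)) e
 (c (b (nat_lit 0xfff280f)) e
 (c z e
 (c (b (nat_lit 0xffa1213)) e
 (c z e
 (c (nat_lit 0x8000080000800007fff8800008000001018) e e)))))))))))))))))))))
 (c (a (nat_lit 0xfe01400))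
 (c (b (nat_lit 0xff3a203)) e
 (c z e
 (c (b (nat_lit 0xff3f203)) e
 (c (b (nat_lit 0xffba207)) e
 (c (b (nat_lit 0x1054d607)) e
 (c (b (nat_lit 0x10878807)) e
 (c z e
 (c z e
 (c (b (nat_lit 0xfac360b)) e
 (c z e
 (c (b (nat_lit 0x10216c0b)) e e)))))))))))
 (c (a (nat_lit 0xfe02400))
 (c (b (nat_lit 0x10346e03)) e
 (c (b (nat_lit 0x10299a07)) e
 (c (b (nat_lit 0x10182807)) e
 (c z e
 (c (nat_lit 0x7eeea7ee8e7ee8e7eeea7eeea7eeea4afc7) e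
 (c (nat_lit 0x7f6bf7f1ef7f6bf7f6bf7f6bf7f6bf95a49) e
 (c (b (nat_lit 0x1026640b)) e
 (c (b (nat_lit 0xfcd840b)) e
 (c (b (nat_lit 0xfd5d80b)) e
 (c z e
 (c (b (nat_lit 0x1010ae0f)) e
 (c (b (nat_lit 0xfffd80f)) e
 (c z e
 (c z e
 (c z e
 (c z e
 (c z e
 (c (nat_lit 0x80000800008000080000800007fef147193) e e))))))))))))))))))
 (c (a (nat_lit 0xfdfd200))
 (c (b (nat_lit 0x10253c07)) e
 (c z e
 (c (b (nat_lit 0xf6e5e07)) e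
 (c (b (nat_lit 0x10151809)) e
 (c z e
 (c (b (nat_lit 0x10200e0b)) e
 (c z e
 (c z e
 (c (b (nat_lit 0x1006740f)) e
 (c (b (nat_lit 0xfff3a0f)) e
 (c (b (nat_lit 0xfffce0f)) e e)))))))))))
 (c (a (nat_lit 0xfe05400))
 (c z e
 (c (b (nat_lit 0xfa53c09)) e
 (c (b (nat_lit 0x1015d60b)) e
 (c z e
 (c z e
 (c z e
 (c (b (nat_lit 0x100f4e0f)) e
 (c (b (nat_lit 0xffbe00f)) e
 (c (nat_lit 0x800007ffb67ffb680000800008000092bcf) e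
 (c z e
 (c (b (nat_lit 0x1009e011)) e e)))))))))))
 (c (a (nat_lit 0xfe03a00))
 (c (b (nat_lit 0x10366c0b)) e
 (c (b (nat_lit 0x102a100b)) e
 (c z e
 (c (b (nat_lit 0x1078300b)) e
 (c (b (nat_lit 0xf991e0f)) e
 (c (nat_lit 0x7fbb47fbb47fbb47fbb47fb167fbb48040f) e
 (c z e
 (c (b (nat_lit 0x100e520f)) e e))))))))
 (c (nat_lit 0x7f0207f0207f0207f0207f023d07a0)
 (c (b (nat_lit 0x100b740b)) e
 (c z e
 (c z e
 (c (b (nat_lit 0x103c240f)) e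
 (c z e
 (c (b (nat_lit 0x102f020f)) e e))))))
 (c (a (nat_lit 0xfdfe200))
 (c (nat_lit 0x82aa582a3282a0682aa582aa582aa5f774f) e
 (c z e
 (c (b (nat_lit 0xfc9fe0f)) e
 (c z e
 (c z e
 (c (nat_lit 0x80000800008000081063810638106335b10) e e))))))
 (c (nat_lit 0x7f0197f0187f0187f0187f018e9dc0)
 (c z e
 (c (b (nat_lit 0x1100200f)) e
 (c (b (nat_lit 0x10e46a10)) e
 (c z e
 (c (nat_lit 0x8000080000800008084980849808491dd50) e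
 (c (nat_lit 0x8000080000800008000080f5280f52d2a90) e e))))))
 (c (nat_lit 0x7f0117f0117f0147f0147f01469780)
 (c (b (nat_lit 0x11000610)) e
 (c (b (nat_lit 0x101f4c10)) e
 (c (nat_lit 0x8000080000810dd810dd810dd810dded1d0) e
 (c (nat_lit 0x80000800008000080f1b80eff80ededa4d0) e e))))
 (c (a (nat_lit 0xfdfde00)) e
 (c (a (nat_lit 0xfdfd601)) e
 (c (nat_lit 0x7f0327f0327f01e7f01d7f0204b3e1) e
 (c (nat_lit 0x7f0657f0657f0657f0317f03421c81) e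
 (c (nat_lit 0x7f0e07f0e07f0e07f0e07f01ef16c1) e
 (c (a (nat_lit 0xfe5e203)) e
 (c (a (nat_lit 0xfe58203)) e
 (c (a (nat_lit 0xfecba03)) e
 (c (a (nat_lit 0xff9a603)) e
 (c (a (nat_lit 0xfee0407)) e
 (c (a (nat_lit 0xfef7a07)) e
 (c (a (nat_lit 0xff20407)) e
 (c (a (nat_lit 0xff04c07)) e
 (c (a (nat_lit 0xfee2209)) e
 (c (nat_lit 0x7f5017f5017f4e07f5017f5012ae8b) e
 (c (nat_lit 0x7f5077f5077f5077f4ea7f5077c04b) e
 (c z e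
 (c z e
 (c (nat_lit 0x7e7ab7e7a07e7ab7e7ab7e7ab06bcf) e
 (c z e
 (c z e
 (c (nat_lit 0x7f4967f4967f4b37f4b37f4b383b2f) e e)))))))))))))))))))))))))))))))))) Tr.c Tr.e (nat_lit 0) C.t5 C.t6 C.t7
noncomputable def tt44 : Tr := beta% (fun (c : Nat → Tr → Tr → Tr) (e : Tr) (z : Nat) (a b : Nat → Nat) =>
 (c (a (nat_lit 0x101f0200))
 (c (b (nat_lit 0xec35c03)) e
 (c z e
 (c (b (nat_lit 0xf9d6203)) e
 (c (b (nat_lit 0xff41807)) e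
 (c (nat_lit 0x81af281af281a8f81ac281af281af281af20fd07) e
 (c z e
 (c z e
 (c z e
 (c z e
 (c z e
 (c z e
 (c z e
 (c z e
 (c z e
 (c (nat_lit 0x7f1e87f1e87f1e87f1ae7f1e87f1e87f1e857f0f) e
 (c z e
 (c (b (nat_lit 0xfffd817)) e e)))))))))))))))))
 (c (a (nat_lit 0x101f8400))
 (c z e
 (c z e
 (c z e
 (c z e
 (c z e
 (c z e
 (c z e
 (c z e
 (c z e
 (c z e
 (c z e
 (c z e
 (c z e
 (c z e
 (c (b (nat_lit 0xfff9617)) e e)))))))))))))))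
 (c (a (nat_lit 0x101fb000))
 (c z e
 (c z e
 (c z e
 (c z e
 (c z e
 (c z e
 (c (b (nat_lit 0xff1780b)) e
 (c z e
 (c z e
 (c z e
 (c z e
 (c (b (nat_lit 0xfffde0f)) e e))))))))))))
 (c (a (nat_lit 0x101f3200))
 (c z e
 (c (b (nat_lit 0xfce2a09)) e e))
 (c (a (nat_lit 0x101edc00))
 (c (b (nat_lit 0xfe8180b)) e
 (c z e
 (c z e
 (c z e
 (c z e
 (c z e
 (c z e
 (c z e
 (c z e
 (c z e
 (c (nat_lit 0x8000080000800007ffcc80000800008000048c28) e e)))))))))))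
 (c (a (nat_lit 0x101f9601)) e
 (c (nat_lit 0x80fed80fed80fe980fe980fe880fe9ffc01) e
 (c (a (nat_lit 0x101b4e01)) e
 (c (a (nat_lit 0x10155201)) e
 (c (a (nat_lit 0x10182c03)) e
 (c (a (nat_lit 0x1019e603)) e
 (c (a (nat_lit 0x103dd603)) e
 (c (a (nat_lit 0x103d9603)) e
 (c (a (nat_lit 0x108eba07)) e
 (c z e
 (c (a (nat_lit 0x101b4407)) e
 (c (a (nat_lit 0xffbfc07)) e
 (c z e
 (c (a (nat_lit 0x1001f40b)) e
 (c (a (nat_lit 0xffcb80b)) e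
 (c z e
 (c (nat_lit 0x7ff8680000800008000080000800008628b) e
 (c (nat_lit 0x800007ffb180000800008000080000def8f) e e)))))))))))))))))))))))) Tr.c Tr.e (nat_lit 0) C.t6 C.t7
noncomputable def tt45 : Tr := beta% (fun (c : Nat → Tr → Tr → Tr) (e : Tr) (z : Nat) (a b : Nat → Nat) =>
 (c (a (nat_lit 0x101f2800))
 (c (b (nat_lit 0xf65a201)) e
 (c (b (nat_lit 0xfba0201)) e
 (c (b (nat_lit 0xfaad203)) e
 (c (b (nat_lit 0xfdc3a03)) e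
 (c (b (nat_lit 0xf770403)) e
 (c (b (nat_lit 0xfa42803)) e
 (c z e
 (c z e
 (c z e
 (c z e
 (c z e
 (c z e
 (c (nat_lit 0x7e77c7e4917e77c7e77c7e77c7e77c7e77cf850b) e
 (c z e
 (c (b (nat_lit 0x1096120b)) e
 (c z e
 (c z e
 (c z e
 (c z e
 (c (b (nat_lit 0xffec619)) e e))))))))))))))))))))
 (c (a (nat_lit 0x101f4a00))
 (c (nat_lit 0x7c81d7c8197c81d7c81d7c81d7c81d7c81d8fc03) e
 (c (b (nat_lit 0xf85ec03)) e
 (c (b (nat_lit 0xfc46803)) e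
 (c (b (nat_lit 0xfe1cc03)) e
 (c (b (nat_lit 0xf7e3607)) e
 (c z e
 (c z e
 (c z e
 (c z e
 (c z e
 (c z e
 (c z e
 (c z e
 (c z e
 (c z e
 (c z e
 (c (b (nat_lit 0xfffba0f)) e
 (c (b (nat_lit 0x101c9619)) e e))))))))))))))))))
 (c (a (nat_lit 0x101f4a00))
 (c (b (nat_lit 0xf2f3203)) e
 (c z e
 (c z e
 (c z e
 (c (b (nat_lit 0x103a0e07)) e
 (c z e
 (c z e
 (c (b (nat_lit 0x1015480b)) e
 (c (b (nat_lit 0xfffee0b)) e
 (c (b (nat_lit 0x10485c0b)) e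
 (c z e
 (c z e
 (c z e
 (c (b (nat_lit 0xffe300f)) e
 (c z e
 (c z e
 (c (b (nat_lit 0xfff5627)) e e)))))))))))))))))
 (c (a (nat_lit 0x10201e00))
 (c z e
 (c z e
 (c z e
 (c z e
 (c z e
 (c z e
 (c (b (nat_lit 0xff05c0b)) e
 (c z e
 (c z e
 (c z e
 (c (b (nat_lit 0xfd62c0f)) e
 (c (b (nat_lit 0x100f7e0f)) e e))))))))))))
 (c (a (nat_lit 0x101f5e00))
 (c z e
 (c z e
 (c z e
 (c z e
 (c (b (nat_lit 0x10224a0b)) e
 (c z e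
 (c (b (nat_lit 0x1011d00b)) e
 (c (b (nat_lit 0xfd9dc0f)) e
 (c (nat_lit 0x7e27d7e27d7e27d7e1447e27d7e27d7e27d6e18f) e e)))))))))
 (c (a (nat_lit 0x101f1200))
 (c z e
 (c z e
 (c z e
 (c z e
 (c z e
 (c (b (nat_lit 0xf5b640f)) e
 (c z e
 (c z e
 (c z e
 (c z e
 (c (b (nat_lit 0xfbe0028)) e e)))))))))))
 (c (a (nat_lit 0x101fac00)) e
 (c (a (nat_lit 0x101f2a01))
 (c z e
 (c z e
 (c (b (nat_lit 0xffff80f)) e e)))
 (c (nat_lit 0x81066810668104f8104f8104f8105251601)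
 (c (b (nat_lit 0xfc95e0f)) e
 (c z e
 (c (b (nat_lit 0x10406a0f)) e e)))
 (c (a (nat_lit 0x1012e001))
 (c z e
 (c (b (nat_lit 0x10549e19)) e e))
 (c (a (nat_lit 0x1013c401)) e
 (c z e
 (c z e
 (c (a (nat_lit 0xfe02603)) e
 (c (a (nat_lit 0x104c8203)) e
 (c (a (nat_lit 0x10235c07)) e
 (c (a (nat_lit 0x102d1a07)) e
 (c z e
 (c (a (nat_lit 0xfda0007)) e
 (c (a (nat_lit 0x101eba09)) e
 (c (a (nat_lit 0x10164c0b)) e
 (c z e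
 (c z e
 (c (nat_lit 0x7ffe78000080000800008000080000fc74b) e
 (c (nat_lit 0x8079e807888079e8079e8079e8079e18b8f) e
 (c (nat_lit 0x80000800007ffd78000080000800003e58f) e
 (c (a (nat_lit 0xff19a0f)) e
 (c (a (nat_lit 0xfff6c0f)) e e))))))))))))))))))))))))))))) Tr.c Tr.e (nat_lit 0) C.t6 C.t7
noncomputable def tt46 : Tr := beta% (fun (c : Nat → Tr → Tr → Tr) (e : Tr) (z : Nat) (a b d : Nat → Nat) =>
 (c (a (nat_lit 0xfe02600)) tt45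
 (c (a (nat_lit 0xfe03200)) tt44
 (c (a (nat_lit 0xfe02200))
 (c (b (nat_lit 0x101f9c00))
 (c z e
 (c z e
 (c z e
 (c (d (nat_lit 0xfffce07)) e
 (c z e
 (c z e
 (c z e
 (c z e
 (c z e
 (c (d (nat_lit 0x1048b40f)) e e))))))))))
 (c (b (nat_lit 0x101fb600))
 (c z e
 (c z e
 (c z e
 (c z e
 (c z e
 (c z e
 (c (d (nat_lit 0xfffca0b)) e e)))))))
 (c (b (nat_lit 0x101f4c00)) e
 (c (b (nat_lit 0x101f7401)) e
 (c (b (nat_lit 0x101ff401)) e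
 (c (b (nat_lit 0x101f5c01)) e
 (c (b (nat_lit 0x10095a01)) e
 (c (b (nat_lit 0x100e1603)) e
 (c (b (nat_lit 0x100d7803)) e
 (c (b (nat_lit 0x102dfe03)) e
 (c z e
 (c (b (nat_lit 0xfda1607)) e
 (c z e
 (c z e
 (c (b (nat_lit 0xfdf8a07)) e
 (c z e
 (c (b (nat_lit 0xfd1d60b)) e
 (c (b (nat_lit 0xfed6e0b)) e
 (c (b (nat_lit 0xff3b60b)) e
 (c z e
 (c z e
 (c z e
 (c z e
 (c z e
 (c z e
 (c (b (nat_lit 0xfea1a17)) e e))))))))))))))))))))))))))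
 (c (a (nat_lit 0xfdfea00))
 (c (b (nat_lit 0x101fb000))
 (c z e
 (c (nat_lit 0x7727377273772737727377245772737727395309) e e))
 (c (b (nat_lit 0x101ff601))
 (c (d (nat_lit 0xfc54e0b)) e
 (c z e
 (c z e
 (c z e
 (c z e
 (c z e
 (c z e
 (c z e
 (c (d (nat_lit 0xf7a2e28)) e e)))))))))
 (c (b (nat_lit 0x101fb801)) e
 (c (b (nat_lit 0x10209001)) e
 (c z e
 (c z e
 (c (b (nat_lit 0x101d2603)) e
 (c (b (nat_lit 0x1012ba03)) e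
 (c (b (nat_lit 0x10259e03)) e
 (c (b (nat_lit 0x1028a807)) e
 (c (b (nat_lit 0x10220207)) e
 (c z e
 (c z e
 (c (b (nat_lit 0x100f8e09)) e
 (c (b (nat_lit 0x1015c80b)) e
 (c (b (nat_lit 0x1002ea0b)) e
 (c (b (nat_lit 0x100efc0b)) e
 (c z e
 (c (b (nat_lit 0x100f740f)) e
 (c (b (nat_lit 0x100e040f)) e
 (c z e
 (c (nat_lit 0x80000800008000080000800007fc451f0cf) e
 (c z e
 (c z e
 (c z e
 (c z e
 (c (nat_lit 0x80000800008000080000800007ff7d8cad9) e e))))))))))))))))))))))))))) tt43))))) Tr.c Tr.e (nat_lit 0) C.t5 C.t6 C.t7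
noncomputable def tt47 : Tr := beta% (fun (c : Nat → Tr → Tr → Tr) (e : Tr) (z : Nat) (a b d : Nat → Nat) =>
 (c (a (nat_lit 0xfe02800))
 (c (nat_lit 0x8096880961809608095a8095a8095c7f801)
 (c (d (nat_lit 0x1032440b)) e
 (c (d (nat_lit 0xfc19c0b)) e
 (c z e
 (c z e
 (c z e
 (c (d (nat_lit 0xfde380f)) e e))))))
 (c (b (nat_lit 0x101f6601)) e
 (c (b (nat_lit 0x101f3001)) e
 (c (nat_lit 0x804c9804ed80525805258052580525c4c81) e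
 (c (b (nat_lit 0x100ea403)) e
 (c (b (nat_lit 0x100c6a03)) e
 (c (b (nat_lit 0x101eea03)) e
 (c z e
 (c (b (nat_lit 0x10154007)) e
 (c z e
 (c (b (nat_lit 0x1019de07)) e
 (c z e
 (c (b (nat_lit 0x100f9e0b)) e
 (c (b (nat_lit 0x1001460b)) e
 (c z e
 (c (b (nat_lit 0x1012ce0b)) e
 (c (b (nat_lit 0x102e100f)) e
 (c (b (nat_lit 0x101fac0f)) e
 (c z e
 (c (nat_lit 0x80000800007fffe7fffe8000080000baa4f) e
 (c (b (nat_lit 0x10176e13)) e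
 (c (nat_lit 0x8000080000800007fffd800008000032898) e e))))))))))))))))))))))
 (c (nat_lit 0x7f0377f0367f0357f0357f03714a40)
 (c z e
 (c z e
 (c z e
 (c (b (nat_lit 0x10133403)) e
 (c (b (nat_lit 0x10174803)) e
 (c z e
 (c (b (nat_lit 0x101f3a07)) e
 (c (b (nat_lit 0x1029c007)) e
 (c (b (nat_lit 0x10750e07)) e
 (c z e
 (c (nat_lit 0x8164c8164c8161b8164c8164c8164c45f8b) e
 (c (b (nat_lit 0x1051140b)) e
 (c (b (nat_lit 0x101dda0b)) e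
 (c (b (nat_lit 0x10105a0b)) e
 (c (b (nat_lit 0x10514a0f)) e
 (c (b (nat_lit 0x104b5a0f)) e
 (c z e
 (c (b (nat_lit 0x1013fe0f)) e
 (c (b (nat_lit 0x1008ec13)) e
 (c z e
 (c (nat_lit 0x80000800008000080000800007fd7a13353) e e)))))))))))))))))))))
 (c (a (nat_lit 0xfe04a00))
 (c (nat_lit 0x8109f8109f8109f8109f8109f80fe43ac83)
 (c (d (nat_lit 0xda4b40f)) e e)
 (c (b (nat_lit 0x1029c203)) e
 (c z e
 (c z e
 (c (b (nat_lit 0x10531207)) e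
 (c (b (nat_lit 0x10496007)) e
 (c z e
 (c z e
 (c (b (nat_lit 0x102b120b)) e
 (c (b (nat_lit 0x10900a0b)) e
 (c z e
 (c z e
 (c (b (nat_lit 0x103b140f)) e
 (c (b (nat_lit 0x1013740f)) e
 (c (nat_lit 0x7fda98000080000800008000080000062cf) e
 (c (nat_lit 0x804f88041e804f8804f8804f8804f8c438f) e
 (c (b (nat_lit 0x100b6e13)) e
 (c (b (nat_lit 0x10134e13)) e
 (c z e
 (c (nat_lit 0x80000800008000080000800007f8295a593) e e))))))))))))))))))))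
 (c (a (nat_lit 0xfdff200))
 (c (b (nat_lit 0x1011de03)) e
 (c (b (nat_lit 0x10211203)) e
 (c (b (nat_lit 0xfff8807)) e
 (c (b (nat_lit 0x10403c07)) e
 (c (b (nat_lit 0xfff5407)) e
 (c (b (nat_lit 0xf5fd807)) e
 (c (nat_lit 0x80a4c80a4c80a2f80a2f80a4c80a4c13bcb) e
 (c z e
 (c (b (nat_lit 0xfd42c0b)) e
 (c (b (nat_lit 0x101a9e0b)) e
 (c (b (nat_lit 0x1023560f)) e
 (c (b (nat_lit 0x1004960f)) e e))))))))))))
 (c (a (nat_lit 0xfdffa00))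
 (c (b (nat_lit 0x10270207)) e
 (c (b (nat_lit 0x1024ba07)) e
 (c z e
 (c (b (nat_lit 0xfd3a207)) e
 (c (b (nat_lit 0x1004b80b)) e
 (c z e
 (c z e
 (c (b (nat_lit 0x1003420b)) e
 (c (b (nat_lit 0x101aa60f)) e
 (c z e
 (c z e
 (c (b (nat_lit 0x10100c0f)) e
 (c (b (nat_lit 0x100bd011)) e e)))))))))))))
 (c (nat_lit 0x7f0237f0237f0227f0227f0232cde0)
 (c (b (nat_lit 0x1017ac07)) e
 (c (b (nat_lit 0x101cf407)) e
 (c (nat_lit 0x7eb447eb447eb447eb447eb057eb059ad4b) e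
 (c (b (nat_lit 0x1045620b)) e
 (c z e
 (c (b (nat_lit 0x102a6c0b)) e
 (c (b (nat_lit 0x1028740f)) e
 (c z e
 (c (nat_lit 0x7ff957ff9580000800008000080000ebe0f) e
 (c z e
 (c (b (nat_lit 0x100bdc11)) e
 (c (b (nat_lit 0x100c1e11)) e e))))))))))))
 (c (nat_lit 0x7f02b7f02b7f02a7f02a7f02b6c600)
 (c (nat_lit 0x815f8815ce8158d815f8815f8815f8879cb) e
 (c (nat_lit 0x831e8831e8830f2831e8831e8831e8b158b) e
 (c z e
 (c (b (nat_lit 0xfff7e0b)) e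
 (c (b (nat_lit 0xfd1820f)) e
 (c (b (nat_lit 0xfeb320f)) e
 (c z e
 (c z e
 (c (b (nat_lit 0x100c7e11)) e
 (c (b (nat_lit 0x1036e011)) e
 (c (b (nat_lit 0x10360811)) e e)))))))))))
 (c (nat_lit 0x7f0257f0257f0247f0247f02554380)
 (c (nat_lit 0x817828178281782815f08178281782a650b) e
 (c (b (nat_lit 0x102e080b)) e
 (c (b (nat_lit 0x10131c0f)) e
 (c (b (nat_lit 0x101eb40f)) e
 (c z e
 (c (b (nat_lit 0x1020e00f)) e
 (c (nat_lit 0x80000800008042e8042e8042e8042e4e390) e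
 (c (nat_lit 0x80000800008000080cb480cb480cb428890) e e))))))))
 (c (nat_lit 0x7f0377f0377f0367f0367f03716ba0)
 (c (nat_lit 0x81f7981f7981f3281f7981f7981f792410f) e
 (c (b (nat_lit 0x10291e0f)) e
 (c (b (nat_lit 0x101b880f)) e
 (c (b (nat_lit 0x1025920f)) e
 (c (b (nat_lit 0x10433610)) e
 (c (nat_lit 0x8000080000813af813af813af813af3e150) e
 (c (nat_lit 0x80000800008000080fff80fff80fff98410) e e)))))))
 (c (a (nat_lit 0xfe00a00))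
 (c (b (nat_lit 0x1029b40f)) e
 (c (b (nat_lit 0x1012260f)) e
 (c (b (nat_lit 0x10f3c610)) e
 (c (nat_lit 0x809c9809c4809c9809c9809c9809c93ba10) e
 (c (nat_lit 0x80000800008119a811a4811b7811b7e5910) e
 (c (nat_lit 0x80000800008000080ebf80ebf80ebf3fa10) e e))))))
 (c (a (nat_lit 0xfe02200))
 (c (b (nat_lit 0x11000210)) e
 (c (b (nat_lit 0x101ce210)) e
 (c (b (nat_lit 0x101fb010)) e
 (c (nat_lit 0x800008000080f2e80f2e80f2080efc86d10) e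
 (c (nat_lit 0x80000800008000080ed380ed380ed3b8810) e e)))))
 (c (a (nat_lit 0xfe01e00)) e
 (c (a (nat_lit 0xfe01200)) e
 (c (a (nat_lit 0xfe01601)) e
 (c (a (nat_lit 0xfe06a01)) e
 (c (nat_lit 0x7f0297f0297f0297f01f7f02046441) e
 (c (nat_lit 0x7f10a7f10a7f10a7f10a7f03431801) e
 (c (a (nat_lit 0xfe58403)) e
 (c (a (nat_lit 0xfe7ae03)) e
 (c (a (nat_lit 0xfee7e03)) e
 (c z e
 (c (a (nat_lit 0xfdbcc07)) e
 (c (a (nat_lit 0xfdc7e07)) e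
 (c (a (nat_lit 0xff94807)) e
 (c z e
 (c (nat_lit 0x7f27a7f2727f25d7f27a7f27aca26b) e
 (c (nat_lit 0x7f2707f2707f2707f26d7f270335eb) e
 (c z e
 (c (nat_lit 0x7f8927f8717f8927f8927f892ab86b) e
 (c (a (nat_lit 0xfebb80f)) e
 (c z e
 (c (nat_lit 0x7faf07fb047fb047fb047fb04e40af) e
 (c (nat_lit 0x7f3d27f4227f4227f4227f33d65aaf) e e)))))))))))))))))))))))))))))))))) Tr.c Tr.e (nat_lit 0) C.t5 C.t6 C.t7
noncomputable def tt48 : Tr := beta% (fun (c : Nat → Tr → Tr → Tr) (e : Tr) (z : Nat) (a b : Nat → Nat) =>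
 (c (a (nat_lit 0x101f4a00))
 (c z e
 (c z e
 (c z e
 (c z e
 (c z e
 (c z e
 (c z e
 (c z e
 (c (b (nat_lit 0xffffc0f)) e
 (c z e
 (c (b (nat_lit 0xfff7240)) e
 (c (b (nat_lit 0x106d4240)) e e))))))))))))
 (c (a (nat_lit 0x101f4e00))
 (c (b (nat_lit 0xfae260b)) e
 (c z e
 (c z e
 (c z e
 (c (nat_lit 0x7d0bb7d05c7d0bb7d0bb7d0bb7d0bb7d0bba0c8f) e e)))))
 (c (nat_lit 0x80fc380fc380fc380fc180fc380fc3c2681) e
 (c (a (nat_lit 0x10204a01))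
 (c z e
 (c z e
 (c z e
 (c z e
 (c (b (nat_lit 0xfbe3223)) e
 (c (b (nat_lit 0xfec6423)) e e))))))
 (c (a (nat_lit 0x101ed801))
 (c z e
 (c z e
 (c z e
 (c (nat_lit 0x8000080000800007fe0880000800008000000c41) e e))))
 (c (a (nat_lit 0x100a3801)) e
 (c z e
 (c (nat_lit 0x8047180471803fe8047180471804710ab83) e
 (c (nat_lit 0x8052a8052a8052a804e08052a8052a55903) e
 (c z e
 (c (a (nat_lit 0x10197e07)) e
 (c (a (nat_lit 0x10589407)) e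
 (c (nat_lit 0x7f4c47f4c47f4c47f4687f4c47f4c487507) e
 (c (a (nat_lit 0xfe09a07)) e
 (c (a (nat_lit 0x1016280b)) e
 (c (a (nat_lit 0x1029e60b)) e
 (c (a (nat_lit 0x10033a0b)) e
 (c (a (nat_lit 0x1005f00b)) e
 (c (a (nat_lit 0x1016340f)) e
 (c (a (nat_lit 0x1017640f)) e
 (c z e
 (c z e
 (c z e
 (c (nat_lit 0x800008000080000805598055c8055cbcd57) e
 (c z e
 (c z e
 (c (nat_lit 0x80000800008000080000800007ff3395797) e
 (c (nat_lit 0x80000800008000080000800007fcb196b99) e e))))))))))))))))))))))))))))) Tr.c Tr.e (nat_lit 0) C.t6 C.t7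
noncomputable def tt49 : Tr := beta% (fun (c : Nat → Tr → Tr → Tr) (e : Tr) (z : Nat) (a b : Nat → Nat) =>
 (c (a (nat_lit 0x101e1400))
 (c (nat_lit 0x7d15b7d1157d15b7d15b7d15b7d15b7d15b9f903) e
 (c z e
 (c z e
 (c z e
 (c z e
 (c z e
 (c z e
 (c z e
 (c z e
 (c (b (nat_lit 0x1012c80f)) e
 (c z e
 (c z e
 (c z e
 (c (b (nat_lit 0xf10f417)) e
 (c (nat_lit 0x800008000080000800007fea18000080000c9817) e e)))))))))))))))
 (c (a (nat_lit 0x101fa200))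
 (c z e
 (c z e
 (c z e
 (c (b (nat_lit 0xf776a0b)) e
 (c z e
 (c z e
 (c z e
 (c z e
 (c z e
 (c (b (nat_lit 0x10392a0f)) e
 (c z e
 (c (b (nat_lit 0xf4c0c17)) e
 (c (nat_lit 0x7c4407c4407c4407c4397c4407c4407c44040a97) e e)))))))))))))
 (c (a (nat_lit 0x101f6800))
 (c z e
 (c z e
 (c z e
 (c z e
 (c z e
 (c z e
 (c z e
 (c z e
 (c z e
 (c z e
 (c z e
 (c (b (nat_lit 0xffffe17)) e e))))))))))))
 (c (a (nat_lit 0x101f4800))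
 (c z e
 (c z e
 (c z e
 (c z e
 (c (b (nat_lit 0xf84e20f)) e
 (c z e
 (c z e
 (c z e
 (c (b (nat_lit 0xfff9a17)) e e)))))))))
 (c (a (nat_lit 0x101f7e01))
 (c (nat_lit 0x80000800008000080000800007fd7f80000f998b) e
 (c z e
 (c z e
 (c (b (nat_lit 0xfff660f)) e
 (c (b (nat_lit 0x1013680f)) e
 (c (b (nat_lit 0xfad7617)) e e))))))
 (c (a (nat_lit 0x101fd601))
 (c (b (nat_lit 0x1019060f)) e e)
 (c (a (nat_lit 0x101a9601))
 (c z e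
 (c (b (nat_lit 0xfff8217)) e e))
 (c (a (nat_lit 0x100e2201)) e
 (c (a (nat_lit 0x101b3403)) e
 (c (a (nat_lit 0x1009e003)) e
 (c (a (nat_lit 0x101d3e03)) e
 (c (a (nat_lit 0x10430603)) e
 (c (a (nat_lit 0x10616c07)) e
 (c (a (nat_lit 0x101e4007)) e
 (c (a (nat_lit 0xfb52a07)) e
 (c (a (nat_lit 0x10068607)) e
 (c (a (nat_lit 0x1010b60b)) e
 (c (a (nat_lit 0x1011700b)) e
 (c (a (nat_lit 0xff6360b)) e
 (c z e
 (c (a (nat_lit 0x1016d20f)) e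
 (c (nat_lit 0x808868089f8089f80891808758089fbd2cf) e
 (c z e
 (c (a (nat_lit 0x101ee80f)) e
 (c (a (nat_lit 0x1020d217)) e e)))))))))))))))))))))))))) Tr.c Tr.e (nat_lit 0) C.t6 C.t7
noncomputable def tt50 : Tr := beta% (fun (c : Nat → Tr → Tr → Tr) (e : Tr) (z : Nat) (a b : Nat → Nat) =>
 (c (a (nat_lit 0x101f2000))
 (c (b (nat_lit 0xfe44c01)) e
 (c (b (nat_lit 0xfe2f401)) e
 (c (b (nat_lit 0xfdf4e01)) e
 (c (b (nat_lit 0xfc24c03)) e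
 (c (b (nat_lit 0xfcf4c03)) e
 (c (b (nat_lit 0xfe46003)) e
 (c z e
 (c z e
 (c z e
 (c z e
 (c (b (nat_lit 0xfe3da07)) e
 (c (b (nat_lit 0xfc9ca0b)) e
 (c z e
 (c (b (nat_lit 0x1066ac0b)) e
 (c z e
 (c z e
 (c z e
 (c (b (nat_lit 0x1014200f)) e
 (c z e
 (c z e
 (c z e
 (c z e
 (c z e
 (c (nat_lit 0x80000800008000080000800007fdcf80000c101b) e e))))))))))))))))))))))))
 (c (a (nat_lit 0x101f3400))
 (c (nat_lit 0x7bcdc7bd9f7bd9f7bd9f7bd9f7bd9f7bd9fdc001) e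
 (c (nat_lit 0x7db037dae97db037db037db037db037db0333683) e
 (c z e
 (c z e
 (c z e
 (c z e
 (c z e
 (c z e
 (c z e
 (c z e
 (c z e
 (c (b (nat_lit 0xffeda0b)) e
 (c z e
 (c z e
 (c z e
 (c (b (nat_lit 0xfffde0f)) e
 (c (b (nat_lit 0xfffda0f)) e e)))))))))))))))))
 (c (a (nat_lit 0x101f4a00))
 (c (b (nat_lit 0xfd9ce03)) e
 (c z e
 (c z e
 (c z e
 (c z e
 (c z e
 (c z e
 (c z e
 (c z e
 (c z e
 (c (b (nat_lit 0x1024ca0b)) e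
 (c z e
 (c z e
 (c (b (nat_lit 0x1014f00f)) e
 (c (b (nat_lit 0xfffb40f)) e e)))))))))))))))
 (c (a (nat_lit 0x101fb000))
 (c z e
 (c z e
 (c z e
 (c z e
 (c z e
 (c z e
 (c z e
 (c z e
 (c z e
 (c (nat_lit 0x820de820de820de820de820de81b60820deabd8f) e e))))))))))
 (c (a (nat_lit 0x101f2000))
 (c (b (nat_lit 0xfdafe07)) e
 (c z e
 (c z e
 (c z e
 (c z e
 (c z e
 (c z e
 (c z e
 (c z e
 (c z e
 (c (b (nat_lit 0x103b260f)) e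
 (c z e
 (c (b (nat_lit 0xffa6230)) e e)))))))))))))
 (c (a (nat_lit 0x101ef000)) e
 (c (a (nat_lit 0x101f5c00)) e
 (c (a (nat_lit 0x101fb200)) e
 (c (a (nat_lit 0x10201a01))
 (c (b (nat_lit 0xfff4c0f)) e e)
 (c (a (nat_lit 0x101f1201))
 (c z e
 (c (b (nat_lit 0x101bf817)) e e))
 (c (a (nat_lit 0x101f3a01)) e
 (c (a (nat_lit 0x101f1e01)) e
 (c (a (nat_lit 0xfefe203)) e
 (c (a (nat_lit 0xfe01003)) e
 (c z e
 (c (a (nat_lit 0x1017b003)) e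
 (c (a (nat_lit 0x103d7807)) e
 (c z e
 (c (a (nat_lit 0x10068e07)) e
 (c (a (nat_lit 0xff51c07)) e
 (c (a (nat_lit 0x10121a0b)) e
 (c (a (nat_lit 0x100e900b)) e
 (c (nat_lit 0x7fd2c7fee97fee97fee97fee97fee93bb4b) e
 (c (nat_lit 0x7ff937ff6f8000080000800008000092acb) e
 (c z e
 (c (nat_lit 0x80d9380d2980d5d80d3f80d9380d93a284f) e
 (c z e
 (c z e
 (c z e
 (c z e
 (c z e
 (c z e
 (c z e
 (c (nat_lit 0x80000800008000080000800007ff34d2a5b) e e))))))))))))))))))))))))))))))))))) Tr.c Tr.e (nat_lit 0) C.t6 C.t7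
noncomputable def tt51 : Tr := beta% (fun (c : Nat → Tr → Tr → Tr) (e : Tr) (z : Nat) (a b : Nat → Nat) =>
 (c (a (nat_lit 0x101fde00))
 (c (b (nat_lit 0xfd45200)) e
 (c (b (nat_lit 0xfdba000)) e
 (c (b (nat_lit 0xfde4a01)) e
 (c (b (nat_lit 0xfdd9c01)) e
 (c (b (nat_lit 0xfb35801)) e
 (c (b (nat_lit 0xfb92601)) e
 (c (b (nat_lit 0xf8c6403)) e
 (c (b (nat_lit 0xfd5c003)) e
 (c (nat_lit 0x7e37f7e37f7e37f7e2ac7e37f7e37f7e37f72183) e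
 (c z e
 (c z e
 (c z e
 (c (b (nat_lit 0x1011ac07)) e
 (c z e
 (c z e
 (c (b (nat_lit 0xf61800b)) e e))))))))))))))))
 (c (a (nat_lit 0x101f9000))
 (c (b (nat_lit 0xfe2e401)) e
 (c (b (nat_lit 0xfdc7401)) e
 (c (b (nat_lit 0xfe31601)) e
 (c (b (nat_lit 0xfe20e01)) e
 (c (b (nat_lit 0xfc01603)) e
 (c (b (nat_lit 0xfc27c03)) e
 (c (nat_lit 0x7a1487a1487a1487a0ea7a1487a1487a1485b303) e
 (c z e
 (c z e
 (c z e
 (c z e
 (c (b (nat_lit 0x101bc207)) e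
 (c z e
 (c (b (nat_lit 0x101cb20b)) e
 (c (b (nat_lit 0xfffe40b)) e
 (c z e
 (c z e
 (c (nat_lit 0x8099180991807c880991809918099180991ba40f) e e))))))))))))))))))
 (c (a (nat_lit 0x101f1600))
 (c (b (nat_lit 0xfe3e001)) e
 (c (nat_lit 0x7c3e87c4fc7c4fc7c4fc7c4fc7c4fc7c4fc80601) e
 (c (b (nat_lit 0xfae6a03)) e
 (c (b (nat_lit 0xfe2a203)) e
 (c (b (nat_lit 0xfd62003)) e
 (c z e
 (c z e
 (c z e
 (c (b (nat_lit 0xfe69007)) e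
 (c z e
 (c z e
 (c z e
 (c (b (nat_lit 0x10748c0b)) e
 (c z e
 (c (b (nat_lit 0xff1340f)) e
 (c z e
 (c z e
 (c z e
 (c (b (nat_lit 0x10203027)) e e)))))))))))))))))))
 (c (a (nat_lit 0x101f2600))
 (c (nat_lit 0x7c2cb7c16a7c2cb7c2cb7c2cb7c2cb7c2cb5b903) e
 (c (nat_lit 0x7a7087a7087a6677a7087a7087a7087a708a1f83) e
 (c (b (nat_lit 0xfde4e03)) e
 (c z e
 (c z e
 (c z e
 (c (b (nat_lit 0xfd10e07)) e
 (c z e
 (c (b (nat_lit 0xfe0f00b)) e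
 (c z e
 (c z e
 (c z e
 (c (b (nat_lit 0xffd340f)) e
 (c (b (nat_lit 0xfff0c0f)) e
 (c (b (nat_lit 0x1035600f)) e
 (c z e
 (c z e
 (c (b (nat_lit 0xffeca27)) e
 (c (b (nat_lit 0xffe7027)) e e)))))))))))))))))))
 (c (a (nat_lit 0x101f8800))
 (c (b (nat_lit 0xf5bb603)) e
 (c (b (nat_lit 0xf93e603)) e
 (c z e
 (c (b (nat_lit 0xf536c07)) e
 (c (b (nat_lit 0xfcefa07)) e
 (c (b (nat_lit 0xffff407)) e
 (c z e
 (c z e
 (c z e
 (c z e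
 (c z e
 (c z e
 (c (b (nat_lit 0x101bd40f)) e e)))))))))))))
 (c (a (nat_lit 0x101fb200))
 (c (nat_lit 0x8000080000800007ff7d80000800008000087b03) e
 (c z e
 (c z e
 (c z e
 (c z e
 (c z e
 (c z e
 (c z e
 (c (b (nat_lit 0xfffd80f)) e
 (c z e
 (c (b (nat_lit 0xfa65e0f)) e e)))))))))))
 (c (a (nat_lit 0x101f0800))
 (c z e
 (c (b (nat_lit 0x106fc807)) e
 (c z e
 (c z e
 (c (b (nat_lit 0xfe87e0b)) e
 (c z e
 (c z e
 (c (b (nat_lit 0x1059800f)) e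
 (c z e
 (c z e
 (c (b (nat_lit 0xffee823)) e e)))))))))))
 (c (a (nat_lit 0x101fb000))
 (c z e
 (c z e
 (c z e
 (c z e
 (c (b (nat_lit 0xfb8ca0f)) e
 (c (b (nat_lit 0xfd57a0f)) e
 (c z e
 (c (b (nat_lit 0x103da00f)) e
 (c (b (nat_lit 0x10a5e823)) e
 (c (b (nat_lit 0xef0c423)) e e))))))))))
 (c (a (nat_lit 0x10208a00))
 (c z e
 (c z e
 (c z e
 (c (b (nat_lit 0xfae0a0f)) e
 (c (nat_lit 0x8000080000800008000080000800007f9baf4d0b) e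
 (c (b (nat_lit 0x1052720f)) e
 (c (b (nat_lit 0xfb4ca40)) e
 (c (b (nat_lit 0x1094d840)) e e))))))))
 (c (a (nat_lit 0x10207c00)) e
 (c (a (nat_lit 0x101fb401))
 (c z e
 (c z e
 (c z e
 (c (b (nat_lit 0xfae1021)) e e))))
 (c (a (nat_lit 0x101fbc01)) e
 (c (nat_lit 0x8106381063810638101f8101d81022d8381) e
 (c (a (nat_lit 0xff0d001)) e
 (c (nat_lit 0x800007fd3d80000800008000080000e34c3) e
 (c (nat_lit 0x7ffd17ffd17fd377ffd17ffd17ffd17c683) e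
 (c (a (nat_lit 0x10199603)) e
 (c (nat_lit 0x80eb980eb980eb980eb980e5180eb926143) e
 (c (a (nat_lit 0x10192a07)) e
 (c (a (nat_lit 0x102cd207)) e
 (c (a (nat_lit 0x10101e07)) e
 (c z e
 (c (a (nat_lit 0x1013e20b)) e
 (c (a (nat_lit 0x1012b40b)) e
 (c (nat_lit 0x7fd4f80000800008000080000800009f50b) e
 (c z e
 (c (a (nat_lit 0x102b580f)) e
 (c (a (nat_lit 0x102acc0f)) e
 (c z e
 (c (nat_lit 0x800007fefc80000800008000080000d318f) e e))))))))))))))))))))))))))))))) Tr.c Tr.e (nat_lit 0) C.t6 C.t7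
noncomputable def tt52 : Tr := beta% (fun (c : Nat → Tr → Tr → Tr) (e : Tr) (z : Nat) (a b d : Nat → Nat) =>
 (c (a (nat_lit 0xfdfce00))
 (c (b (nat_lit 0x100f9e01))
 (c z e
 (c z e
 (c z e
 (c (d (nat_lit 0xfcff60f)) e
 (c (d (nat_lit 0xfff3613)) e e)))))
 (c (b (nat_lit 0x10203e01)) e
 (c (b (nat_lit 0x101f0c01)) e
 (c z e
 (c (b (nat_lit 0x1010ce03)) e
 (c (b (nat_lit 0x1011c203)) e
 (c (b (nat_lit 0x100ba403)) e
 (c z e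
 (c z e
 (c z e
 (c (b (nat_lit 0xfb64807)) e
 (c (b (nat_lit 0x1025bc0b)) e
 (c (b (nat_lit 0x10130c0b)) e
 (c z e
 (c (b (nat_lit 0x1029600f)) e
 (c (nat_lit 0x818518186b8186b8186b8186b8186be258f) e
 (c (b (nat_lit 0x1004c20f)) e
 (c (b (nat_lit 0x1017300f)) e
 (c (nat_lit 0x8083b8083b8083b808118083b8083beaf13) e e)))))))))))))))))))
 (c (a (nat_lit 0xfdf9200))
 (c z e
 (c (nat_lit 0x800007fe847fe848000080000800002d7c3) e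
 (c (b (nat_lit 0x1007ca03)) e
 (c (b (nat_lit 0x10110003)) e
 (c (nat_lit 0x800008000080000800007ffa27ffa2c3783) e
 (c (b (nat_lit 0xffa0c07)) e
 (c z e
 (c z e
 (c z e
 (c (b (nat_lit 0x104b6c0b)) e
 (c (b (nat_lit 0x1013600b)) e
 (c (b (nat_lit 0xff7020b)) e
 (c (b (nat_lit 0x1049ce0f)) e
 (c (b (nat_lit 0x1020e00f)) e
 (c z e
 (c z e
 (c (b (nat_lit 0x100e3613)) e
 (c (b (nat_lit 0x10192613)) e
 (c z e
 (c z e
 (c (nat_lit 0x80000800008000080000800007fffb4d293) e e)))))))))))))))))))))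
 (c (a (nat_lit 0xfdfa000))
 (c z
 (c (d (nat_lit 0xfcd7818)) e
 (c (nat_lit 0x7e8457e8457e8457e7e57e8457e8457e845d4e18) e e))
 (c z
 (c (nat_lit 0x800008000080000800007fa128000080000fa098) e e)
 (c z e
 (c z e
 (c (b (nat_lit 0x10249807)) e
 (c z e
 (c (b (nat_lit 0x10107c07)) e
 (c (b (nat_lit 0x1026ee0b)) e
 (c (b (nat_lit 0xfd1900b)) e
 (c z e
 (c z e
 (c z e
 (c (b (nat_lit 0x1003240f)) e
 (c (b (nat_lit 0x1010100f)) e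
 (c (b (nat_lit 0x100c1211)) e
 (c (nat_lit 0x8064d80637805da8064d8064d8064dd8c18) e
 (c (nat_lit 0x8058580585805858057d805858058530498) e e)))))))))))))))))
 (c (a (nat_lit 0xfdfe600))
 (c (b (nat_lit 0x10209c03)) e
 (c (b (nat_lit 0x1024ea07)) e
 (c (b (nat_lit 0xfec7607)) e
 (c z e
 (c z e
 (c z e
 (c (b (nat_lit 0x1066fa0b)) e
 (c (b (nat_lit 0x1004ee0b)) e
 (c (b (nat_lit 0x1019ac0f)) e
 (c z e
 (c z e
 (c (nat_lit 0x800007fff8800008000080000800007244f) e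
 (c (nat_lit 0x8079e8079e8076a807738079e8079ebc191) e
 (c (b (nat_lit 0x100e5c11)) e e))))))))))))))
 (c (a (nat_lit 0xfdfe800))
 (c (b (nat_lit 0x1012da07)) e
 (c (nat_lit 0x7f8d57f8d57f8d57f8aa7f86d7f86dca587) e
 (c z e
 (c (nat_lit 0x81cb581cb581cb581c1581cb581cb57870b) e
 (c z e
 (c (b (nat_lit 0x10327a0b)) e
 (c (b (nat_lit 0x1038d40f)) e
 (c z e
 (c z e
 (c z e
 (c (b (nat_lit 0x100b7411)) e
 (c (b (nat_lit 0x100b2611)) e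
 (c (b (nat_lit 0x100bd011)) e e)))))))))))))
 (c (a (nat_lit 0xfe01600))
 (c z e
 (c (b (nat_lit 0x101cb80b)) e
 (c z e
 (c z e
 (c (b (nat_lit 0x10304c0f)) e
 (c (b (nat_lit 0xff2b40f)) e
 (c z e
 (c z e
 (c (nat_lit 0x804a780457804a78048b804a7804a7bf811) e
 (c (b (nat_lit 0x102cbe11)) e
 (c (b (nat_lit 0x102d0611)) e
 (c (nat_lit 0x803be803be803be803be8030b803beabc51) e e))))))))))))
 (c (a (nat_lit 0xfdfe400))
 (c (b (nat_lit 0x1024260b)) e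
 (c z e
 (c z e
 (c z e
 (c z e
 (c z e
 (c (b (nat_lit 0x10059c10)) e
 (c (nat_lit 0x800008000080f4580f4580f4580f45d62d0) e
 (c (nat_lit 0x800008000080000803ee803ee803ee57110) e e)))))))))
 (c (a (nat_lit 0xfdef000))
 (c (nat_lit 0x821ad821ad821ad821ad821ad8215e1dbcf) e
 (c (b (nat_lit 0x101ae40f)) e
 (c z e
 (c z e
 (c (b (nat_lit 0x10177410)) e
 (c (b (nat_lit 0x10429810)) e
 (c (nat_lit 0x80000800008124a8124a8124a8124aa8190) e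
 (c (nat_lit 0x80000800008000081009810098100971f10) e e))))))))
 (c (a (nat_lit 0xfe01800))
 (c z e
 (c z e
 (c (b (nat_lit 0x10c02410)) e
 (c (b (nat_lit 0x1012bc10)) e
 (c (nat_lit 0x809f2809f2809ea809f2809f2809f276590) e
 (c (nat_lit 0x800008000080e3080e3080e3080e300ca90) e
 (c (nat_lit 0x80000800008000080f3080f2780f3076e50) e e)))))))
 (c (a (nat_lit 0xfdff200))
 (c (b (nat_lit 0x11000a10)) e
 (c (b (nat_lit 0x10278c10)) e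
 (c (b (nat_lit 0x101c9c10)) e
 (c (b (nat_lit 0x101a6410)) e
 (c (nat_lit 0x800008000080dca80dca80dca80dca736d0) e
 (c (nat_lit 0x800008000080000810a5810a580fb869390) e e))))))
 (c (a (nat_lit 0xfdfa600)) e
 (c (a (nat_lit 0xfdfe000)) e
 (c (a (nat_lit 0xfe01400)) e
 (c (a (nat_lit 0xfe01401)) e
 (c (a (nat_lit 0xfe00401)) e
 (c (nat_lit 0x7f07c7f07c7f07c7f0207f02326661) e
 (c (nat_lit 0x7f0747f0747f0747f0747f005b1581) e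
 (c (a (nat_lit 0xfe3f203)) e
 (c (a (nat_lit 0xfe3e603)) e
 (c (a (nat_lit 0x10024603)) e
 (c (a (nat_lit 0x1004fa03)) e
 (c (a (nat_lit 0xfd8b407)) e
 (c (a (nat_lit 0xfd95c07)) e
 (c (a (nat_lit 0xff9c007)) e
 (c (a (nat_lit 0xff73e07)) e
 (c (a (nat_lit 0x1004500b)) e
 (c (a (nat_lit 0xffff00b)) e
 (c (a (nat_lit 0xfffd40b)) e
 (c (a (nat_lit 0xff21c0f)) e
 (c (a (nat_lit 0xfff3a0f)) e
 (c z e
 (c (a (nat_lit 0xfe4d20f)) e e))))))))))))))))))))))))))))))))) Tr.c Tr.e (nat_lit 0) C.t5 C.t6 C.t7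
noncomputable def tt53 : Tr := beta% (fun (c : Nat → Tr → Tr → Tr) (e : Tr) (z : Nat) (a b : Nat → Nat) =>
 (c (a (nat_lit 0x10209800))
 (c (nat_lit 0x7d5dc7dc0f7dc0f7dc0f7dc0f7dc0f7dc0f3ea83) e
 (c z e
 (c z e
 (c z e
 (c z e
 (c z e
 (c z e
 (c z e
 (c z e
 (c (b (nat_lit 0x1024e80f)) e
 (c (b (nat_lit 0x102cc20f)) e
 (c z e
 (c (b (nat_lit 0x103cf00f)) e
 (c (b (nat_lit 0xf881617)) e
 (c (b (nat_lit 0xf31bc17)) e
 (c (b (nat_lit 0xfff6e17)) e e))))))))))))))))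
 (c (a (nat_lit 0x10200800))
 (c z e
 (c z e
 (c z e
 (c z e
 (c z e
 (c z e
 (c (b (nat_lit 0xffea40b)) e
 (c z e
 (c z e
 (c z e
 (c z e
 (c z e
 (c (b (nat_lit 0xf99be17)) e
 (c (b (nat_lit 0x10484017)) e e))))))))))))))
 (c (a (nat_lit 0x10200200)) e
 (c (a (nat_lit 0x101fca00))
 (c z e
 (c z e
 (c z e
 (c (b (nat_lit 0xfe5da0f)) e
 (c (nat_lit 0x79dca79dca79dca79cd179dca79dca79dca8db0f) e
 (c z e
 (c z e
 (c (b (nat_lit 0xfd8c217)) e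
 (c z e
 (c z e
 (c (nat_lit 0x800007ffbb7ffac7ffb2800008000080000e3f17) e e)))))))))))
 (c (a (nat_lit 0x10208000)) e
 (c (a (nat_lit 0x10205401)) e
 (c (a (nat_lit 0x101f8401)) e
 (c (a (nat_lit 0x10164401)) e
 (c (a (nat_lit 0x100d7401)) e
 (c (a (nat_lit 0x10079603)) e
 (c z e
 (c (a (nat_lit 0xfb65e03)) e
 (c (a (nat_lit 0x10268a03)) e
 (c (a (nat_lit 0x101b2807)) e
 (c (a (nat_lit 0x10263407)) e
 (c (a (nat_lit 0xfee0807)) e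
 (c z e
 (c (a (nat_lit 0x1007300b)) e
 (c z e
 (c z e
 (c (nat_lit 0x80cfb80ce380cfb80cfb80cfb80cfb8690f) e
 (c (nat_lit 0x80bd080c7a80c7a80c7a80c7a80c7aa478f) e
 (c z e
 (c z e
 (c (nat_lit 0x80aaf80c8780c8780c8780c8780c87e6457) e
 (c (nat_lit 0x80e4480b9380e4480dde80e4480e448ce97) e
 (c z e
 (c (nat_lit 0x80cc380b7e80b7e80cc380cc380cc3f1c57) e e))))))))))))))))))))))))))))) Tr.c Tr.e (nat_lit 0) C.t6 C.t7
noncomputable def tt54 : Tr := beta% (fun (c : Nat → Tr → Tr → Tr) (e : Tr) (z : Nat) (a b : Nat → Nat) =>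
 (c (a (nat_lit 0x101eb200))
 (c (b (nat_lit 0xfc21a01)) e
 (c (b (nat_lit 0xfe21a03)) e
 (c (b (nat_lit 0xece6603)) e
 (c (nat_lit 0x7a9797a9797a9797a92e7a9797a9797a979e2b03) e
 (c (b (nat_lit 0xfe73403)) e
 (c z e
 (c z e
 (c (nat_lit 0x7ec8c7ebd67ec8c7ec8c7ec8c7ec8c7ec8cd0087) e
 (c z e
 (c z e
 (c (nat_lit 0x800008000080000800007fe5580000800007130b) e
 (c (b (nat_lit 0x104b460b)) e
 (c z e
 (c (nat_lit 0x7fcfc7fcfc7fcfc7fc6a7fc057fcfc7fcfc2408f) e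
 (c (b (nat_lit 0x101cb80f)) e
 (c (nat_lit 0x80000800007febd80000800008000080000c5d0f) e
 (c z e
 (c (nat_lit 0x80475804758047580475803df8047580475b4f17) e e))))))))))))))))))
 (c (a (nat_lit 0x101fb000))
 (c (b (nat_lit 0xf9fe003)) e
 (c (b (nat_lit 0xf8d1803)) e
 (c z e
 (c z e
 (c z e
 (c z e
 (c z e
 (c z e
 (c z e
 (c z e
 (c z e
 (c z e
 (c z e
 (c z e
 (c (nat_lit 0x800008000080000800007fef28000080000c1f97) e
 (c (b (nat_lit 0x1007aa17)) e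
 (c z e
 (c (b (nat_lit 0xfff8427)) e e))))))))))))))))))
 (c (a (nat_lit 0x101fb400))
 (c z e
 (c z e
 (c z e
 (c z e
 (c z e
 (c z e
 (c z e
 (c z e
 (c z e
 (c z e
 (c (b (nat_lit 0x103de40f)) e
 (c (b (nat_lit 0xfffc00f)) e
 (c (b (nat_lit 0x1028ca17)) e
 (c (b (nat_lit 0xfe12417)) e e))))))))))))))
 (c (a (nat_lit 0x101f6a00))
 (c (b (nat_lit 0xfbeb007)) e
 (c z e
 (c z e
 (c (nat_lit 0x7fcfb800008000080000800008000080000cf58b) e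
 (c z e
 (c z e
 (c z e
 (c z e
 (c z e
 (c z e
 (c (b (nat_lit 0xfcbf017)) e
 (c z e
 (c z e
 (c (b (nat_lit 0xfeb7030)) e
 (c z e
 (c z e
 (c (nat_lit 0x8000080000800008000080000800007fe683ef9b) e e)))))))))))))))))
 (c (a (nat_lit 0x101f2400))
 (c z e
 (c z e
 (c z e
 (c z e
 (c (b (nat_lit 0xff1420f)) e e)))))
 (c (a (nat_lit 0x101f7200)) e
 (c (a (nat_lit 0x101f8600)) e
 (c (a (nat_lit 0x101fa401))
 (c (b (nat_lit 0x102e880f)) e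
 (c (b (nat_lit 0xfff360f)) e e))
 (c (a (nat_lit 0x101fe401)) e
 (c (a (nat_lit 0x101f4c01)) e
 (c (a (nat_lit 0x101d7401)) e
 (c z e
 (c (a (nat_lit 0xfd07e03)) e
 (c (a (nat_lit 0x100fae03)) e
 (c (a (nat_lit 0x10138803)) e
 (c (a (nat_lit 0x102a9207)) e
 (c (a (nat_lit 0xff89c07)) e
 (c (a (nat_lit 0xff6b207)) e
 (c (a (nat_lit 0xffd5607)) e
 (c z e
 (c z e
 (c z e
 (c z e
 (c (nat_lit 0x7fe7f80000800008000080000800004848f) e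
 (c z e
 (c (nat_lit 0x8000080000800007ffb380000800000ec8f) e
 (c z e
 (c z e
 (c (a (nat_lit 0xffffa17)) e
 (c z e
 (c z e
 (c z e
 (c (nat_lit 0x80000800008000080000800007fdd2f9b1b) e e)))))))))))))))))))))))))))))))))) Tr.c Tr.e (nat_lit 0) C.t6 C.t7
noncomputable def tt55 : Tr := beta% (fun (c : Nat → Tr → Tr → Tr) (e : Tr) (z : Nat) (a b : Nat → Nat) =>
 (c (a (nat_lit 0x101fca00))
 (c (b (nat_lit 0xfe24401)) e
 (c (b (nat_lit 0xfe20c01)) e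
 (c (b (nat_lit 0xfe24a01)) e
 (c (b (nat_lit 0xfd8ec01)) e
 (c (nat_lit 0x7f0bb7f0bb7f0bb7f0bb7f0bb7f0ba7f0babb283) e
 (c (b (nat_lit 0xf89a403)) e
 (c (b (nat_lit 0xff78a03)) e
 (c z e
 (c z e
 (c z e
 (c z e
 (c (b (nat_lit 0x101f3a07)) e
 (c (b (nat_lit 0x1035f60b)) e
 (c z e
 (c z e
 (c z e
 (c z e
 (c z e
 (c z e
 (c z e
 (c (b (nat_lit 0xffffc17)) e
 (c (b (nat_lit 0xfff4631)) e e))))))))))))))))))))))
 (c (a (nat_lit 0x101fb200))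
 (c (b (nat_lit 0xfd91801)) e
 (c (b (nat_lit 0xfd1f001)) e
 (c (b (nat_lit 0xfc02003)) e
 (c (b (nat_lit 0xfe1a003)) e
 (c (b (nat_lit 0xfdc0803)) e
 (c z e
 (c z e
 (c z e
 (c z e
 (c z e
 (c z e
 (c (b (nat_lit 0x1047600b)) e
 (c z e
 (c z e
 (c (b (nat_lit 0xfffbe0f)) e
 (c z e
 (c z e
 (c (b (nat_lit 0x1007d417)) e e))))))))))))))))))
 (c (a (nat_lit 0x101fca00))
 (c (nat_lit 0x7efcd7f03f7f03f7f03f7f03f7f03f7f03fdbc03) e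
 (c z e
 (c z e
 (c z e
 (c z e
 (c z e
 (c z e
 (c (b (nat_lit 0xffc3207)) e
 (c z e
 (c z e
 (c (b (nat_lit 0x1026740b)) e e)))))))))))
 (c (a (nat_lit 0x10203200))
 (c z e
 (c z e
 (c z e
 (c z e
 (c z e
 (c z e
 (c z e
 (c z e
 (c z e
 (c z e
 (c z e
 (c z e
 (c z e
 (c (b (nat_lit 0xfffee17)) e e))))))))))))))
 (c (a (nat_lit 0x101fb600))
 (c z e
 (c z e
 (c z e
 (c z e
 (c z e
 (c z e
 (c z e
 (c z e
 (c z e
 (c z e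
 (c z e
 (c z e
 (c (b (nat_lit 0x100ee017)) e e)))))))))))))
 (c (a (nat_lit 0x101fc200))
 (c z e
 (c z e
 (c z e
 (c z e
 (c z e
 (c z e
 (c (b (nat_lit 0x1035260f)) e e)))))))
 (c (a (nat_lit 0x10202600))
 (c z e
 (c z e
 (c z e
 (c (b (nat_lit 0xffaba0f)) e
 (c (b (nat_lit 0xfffc60f)) e
 (c z e
 (c z e
 (c z e
 (c z e
 (c (b (nat_lit 0xffff623)) e e))))))))))
 (c (a (nat_lit 0x101fd200))
 (c z e
 (c z e
 (c z e
 (c z e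
 (c z e
 (c z e
 (c z e
 (c (b (nat_lit 0x101a9028)) e e))))))))
 (c (a (nat_lit 0x10203000)) e
 (c (a (nat_lit 0x101f9201)) e
 (c (a (nat_lit 0x101fba01)) e
 (c (a (nat_lit 0x101fca01)) e
 (c z e
 (c z e
 (c (a (nat_lit 0x100c1003)) e
 (c (a (nat_lit 0x101b5403)) e
 (c (a (nat_lit 0x1023e403)) e
 (c z e
 (c (a (nat_lit 0x100ef007)) e
 (c z e
 (c (a (nat_lit 0xff3a807)) e
 (c z e
 (c z e
 (c z e
 (c z e
 (c (a (nat_lit 0xfef9a0f)) e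
 (c z e
 (c z e
 (c z e
 (c z e
 (c (nat_lit 0x80000800008000080000800007ffe1555d7) e e)))))))))))))))))))))))))))))))) Tr.c Tr.e (nat_lit 0) C.t6 C.t7
noncomputable def tt56 : Tr := beta% (fun (c : Nat → Tr → Tr → Tr) (e : Tr) (z : Nat) (a b : Nat → Nat) =>
 (c (a (nat_lit 0x101fb400))
 (c (b (nat_lit 0xfe18600)) e
 (c (b (nat_lit 0xfe27e01)) e
 (c (b (nat_lit 0xfd2bc01)) e
 (c (b (nat_lit 0xfe18e01)) e
 (c (b (nat_lit 0xfe24e01)) e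
 (c (b (nat_lit 0xfe22803)) e
 (c z e
 (c (b (nat_lit 0xff0d203)) e
 (c z e
 (c z e
 (c z e
 (c (b (nat_lit 0x10179a07)) e
 (c z e
 (c z e
 (c z e
 (c (b (nat_lit 0xfff5c0b)) e e))))))))))))))))
 (c (a (nat_lit 0x101f3400))
 (c (b (nat_lit 0xfe2e401)) e
 (c (b (nat_lit 0xfe31401)) e
 (c (b (nat_lit 0xfe25801)) e
 (c (b (nat_lit 0xfe1e003)) e
 (c (b (nat_lit 0xfe1c003)) e
 (c z e
 (c (b (nat_lit 0xff1c403)) e
 (c z e
 (c (b (nat_lit 0xfe1d007)) e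
 (c (b (nat_lit 0xfe34c07)) e
 (c z e
 (c z e
 (c (b (nat_lit 0x1055ea0b)) e
 (c z e
 (c z e
 (c z e
 (c (b (nat_lit 0xfff880f)) e
 (c z e
 (c (b (nat_lit 0x10115217)) e
 (c (b (nat_lit 0x1012681b)) e e))))))))))))))))))))
 (c (a (nat_lit 0x101f5a00))
 (c (nat_lit 0x7ebe87efff7efff7efff7efff7efff7efffe6581) e
 (c (b (nat_lit 0xfe14603)) e
 (c (b (nat_lit 0xff82203)) e
 (c (nat_lit 0x7f26e7f26e7f26e7f1f57f26e7f26e7f26ed9403) e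
 (c z e
 (c z e
 (c (b (nat_lit 0xfe90a07)) e
 (c (b (nat_lit 0xfd3c807)) e
 (c z e
 (c z e
 (c z e
 (c z e
 (c z e
 (c (b (nat_lit 0xfe2240f)) e
 (c (b (nat_lit 0x1020120f)) e
 (c z e
 (c z e
 (c (nat_lit 0x7ff958000080000800008000080000800000061b) e e))))))))))))))))))
 (c (a (nat_lit 0x101fc800))
 (c (nat_lit 0x7bba77bba77ba797bba77bba77bba77bba7a5f83) e
 (c z e
 (c z e
 (c z e
 (c (nat_lit 0x7dfa07dfa07debd7deea7dfa07dfa07dfa02d007) e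
 (c (b (nat_lit 0xfe11607)) e
 (c z e
 (c (b (nat_lit 0xfaf360b)) e
 (c (b (nat_lit 0xfffd20b)) e
 (c z e
 (c z e
 (c z e
 (c z e
 (c z e
 (c (b (nat_lit 0xffff017)) e
 (c (b (nat_lit 0xff0981b)) e
 (c (nat_lit 0x80212802128021280212801d980212802127d19b) e e)))))))))))))))))
 (c (a (nat_lit 0x101fcc00))
 (c z e
 (c z e
 (c z e
 (c z e
 (c z e
 (c z e
 (c z e
 (c z e
 (c z e
 (c z e
 (c z e
 (c z e
 (c z e
 (c z e
 (c (b (nat_lit 0x1021a01b)) e e)))))))))))))))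
 (c (a (nat_lit 0x101f2c00))
 (c z e
 (c (b (nat_lit 0xffec607)) e
 (c z e
 (c z e
 (c (b (nat_lit 0xfd4320b)) e
 (c z e
 (c z e
 (c z e
 (c z e
 (c z e
 (c z e
 (c (b (nat_lit 0xf94101b)) e e))))))))))))
 (c (a (nat_lit 0x10202c00))
 (c (b (nat_lit 0x10964807)) e
 (c z e
 (c (b (nat_lit 0xffe420b)) e
 (c z e
 (c (b (nat_lit 0xfe8d60f)) e
 (c (b (nat_lit 0x1023e40f)) e
 (c z e
 (c z e
 (c (b (nat_lit 0xffdce17)) e
 (c (nat_lit 0x786087860878608786087838078608786080e89b) e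
 (c z e
 (c (b (nat_lit 0xffefc1b)) e e))))))))))))
 (c (a (nat_lit 0x10204600))
 (c z e
 (c (b (nat_lit 0x1012d40b)) e
 (c (b (nat_lit 0x1015f20f)) e
 (c (b (nat_lit 0x102c5c0f)) e
 (c (nat_lit 0x80000800008000080000800007ff9f80000f380f) e
 (c z e
 (c z e
 (c (b (nat_lit 0x109bf81b)) e e))))))))
 (c (a (nat_lit 0x101f7600))
 (c z e
 (c (b (nat_lit 0x101ece0f)) e
 (c z e
 (c z e
 (c (b (nat_lit 0xff72617)) e e)))))
 (c (a (nat_lit 0x101ee000))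
 (c (b (nat_lit 0x1022120f)) e
 (c z e
 (c z e
 (c (b (nat_lit 0xfbe321b)) e e))))
 (c (a (nat_lit 0x101f3c01)) e
 (c (a (nat_lit 0x101f7c01)) e
 (c (a (nat_lit 0x101f9601)) e
 (c z e
 (c (a (nat_lit 0x101f0a03)) e
 (c (a (nat_lit 0x10274c03)) e
 (c (a (nat_lit 0x10261003)) e
 (c (a (nat_lit 0x101d1803)) e
 (c z e
 (c z e
 (c z e
 (c (a (nat_lit 0xffaaa07)) e
 (c z e
 (c (nat_lit 0x7ffc9800008000080000800008000095ecb) e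
 (c z e
 (c z e
 (c (a (nat_lit 0x102f180f)) e
 (c z e
 (c z e
 (c (a (nat_lit 0x100b5617)) e
 (c (nat_lit 0x80000800007fff78000080000800004aa5b) e
 (c (a (nat_lit 0xff0ca1b)) e e))))))))))))))))))))))))))))))))) Tr.c Tr.e (nat_lit 0) C.t6 C.t7
noncomputable def tt57 : Tr := beta% (fun (c : Nat → Tr → Tr → Tr) (e : Tr) (z : Nat) (a b : Nat → Nat) =>
 (c (a (nat_lit 0x10204000))
 (c (b (nat_lit 0xfe04000)) e
 (c (b (nat_lit 0xfdea800)) e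
 (c (b (nat_lit 0xfe0d801)) e
 (c (b (nat_lit 0xfe0f801)) e
 (c (b (nat_lit 0xfe14201)) e
 (c (b (nat_lit 0xfd45201)) e
 (c (b (nat_lit 0xfc0e003)) e
 (c (b (nat_lit 0xfd94003)) e
 (c (b (nat_lit 0xfd50603)) e
 (c (b (nat_lit 0xfe98c03)) e
 (c z e
 (c z e
 (c (b (nat_lit 0xffed607)) e
 (c (b (nat_lit 0x10202407)) e
 (c z e
 (c z e
 (c z e
 (c z e
 (c (b (nat_lit 0xffe300f)) e
 (c z e
 (c z e
 (c (b (nat_lit 0xfff2a1b)) e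
 (c (b (nat_lit 0xffea81b)) e
 (c z e
 (c (b (nat_lit 0xffda038)) e e)))))))))))))))))))))))))
 (c (a (nat_lit 0x101fdc00))
 (c (b (nat_lit 0xfd5ec01)) e
 (c (b (nat_lit 0xfe18c01)) e
 (c (b (nat_lit 0xfd54e01)) e
 (c (b (nat_lit 0xfccfe01)) e
 (c (nat_lit 0x7f1277f1277f1277f1277f1277f0a57f0a5c2403) e
 (c (b (nat_lit 0xfdfce03)) e
 (c (nat_lit 0x8000080000800007ffcb80000800008000096903) e
 (c z e
 (c (b (nat_lit 0xfe51007)) e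
 (c z e
 (c (b (nat_lit 0xfbe1607)) e
 (c z e
 (c z e
 (c z e
 (c z e
 (c (b (nat_lit 0x100be60f)) e
 (c z e
 (c z e
 (c z e
 (c (b (nat_lit 0x1035fe1b)) e
 (c (b (nat_lit 0x1025de1b)) e e)))))))))))))))))))))
 (c (a (nat_lit 0x1020b200))
 (c (b (nat_lit 0xfd57e01)) e
 (c (b (nat_lit 0xf8f2601)) e
 (c (b (nat_lit 0xfd4de03)) e
 (c (nat_lit 0x7f0f67f0f67f0f67f0f67f0f67f0f67f034a9483) e
 (c z e
 (c (b (nat_lit 0xfe15803)) e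
 (c z e
 (c (b (nat_lit 0xfe34607)) e
 (c z e
 (c z e
 (c z e
 (c (b (nat_lit 0x1052020b)) e
 (c z e
 (c z e
 (c (b (nat_lit 0xfff220f)) e
 (c (b (nat_lit 0x100f7e0f)) e
 (c (b (nat_lit 0xffb8c0f)) e
 (c (nat_lit 0x80594805d6805d6805d6805d6805d6805d61ca9b) e
 (c (nat_lit 0x800007fe8b80000800008000080000800007651b) e e)))))))))))))))))))
 (c (a (nat_lit 0x10205a00))
 (c (nat_lit 0x7da7e7d6417da7e7da7e7da7e7da7e7da7e66d83) e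
 (c (b (nat_lit 0xfa8d203)) e
 (c (b (nat_lit 0xfaf0a03)) e
 (c z e
 (c z e
 (c z e
 (c z e
 (c z e
 (c z e
 (c (b (nat_lit 0x1053ae0b)) e
 (c z e
 (c z e
 (c z e
 (c z e
 (c z e
 (c z e
 (c z e
 (c (b (nat_lit 0xffe381b)) e e))))))))))))))))))
 (c (a (nat_lit 0x1020f400))
 (c (nat_lit 0x7f6667fa0b7fa1e7f9467fa1e7fa1e7fa1ecbf03) e
 (c (b (nat_lit 0xfcc4003)) e
 (c z e
 (c (b (nat_lit 0xfdb2407)) e
 (c z e
 (c z e
 (c z e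
 (c z e
 (c (b (nat_lit 0x10523c0b)) e
 (c z e
 (c z e
 (c z e
 (c (b (nat_lit 0xff88c0f)) e
 (c (b (nat_lit 0xfd0e81b)) e e))))))))))))))
 (c (a (nat_lit 0x10219400))
 (c (nat_lit 0x7f1627f1627ef727f1627f1627f1627f16240e87) e
 (c (b (nat_lit 0xfd9dc07)) e
 (c z e
 (c z e
 (c z e
 (c z e
 (c (b (nat_lit 0x102e720b)) e
 (c z e
 (c (b (nat_lit 0xfff920f)) e
 (c z e
 (c (nat_lit 0x80000800007fa808000080000800008000080e8f) e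
 (c (b (nat_lit 0xfaeba1b)) e
 (c (b (nat_lit 0xfff3c1b)) e
 (c (b (nat_lit 0xfff9c1b)) e e))))))))))))))
 (c (a (nat_lit 0x1021b800))
 (c z e
 (c z e
 (c z e
 (c z e
 (c z e
 (c z e
 (c z e
 (c z e
 (c (b (nat_lit 0x1072c00f)) e
 (c (b (nat_lit 0xf68841b)) e
 (c (nat_lit 0x79783798d2798d2798d2798d2798d2798d23d31b) e
 (c (nat_lit 0x7fe38800008000080000800008000080000bde1b) e e))))))))))))
 (c (a (nat_lit 0x10217200))
 (c z e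
 (c (nat_lit 0x800008000080000800007ff5e8000080000a1a0b) e
 (c z e
 (c (b (nat_lit 0x1017b20f)) e e))))
 (c (a (nat_lit 0x10208800)) e
 (c (a (nat_lit 0x10209600))
 (c z e
 (c (nat_lit 0x8000080000800008000080000800007fff2c918b) e
 (c z e
 (c (b (nat_lit 0xfdde01b)) e e))))
 (c (a (nat_lit 0x10201000))
 (c z e
 (c z e
 (c z e
 (c z e
 (c (b (nat_lit 0xfbd2021)) e
 (c (nat_lit 0x800008000080000800007fe2a80000800000a9a1) e e))))))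
 (c (a (nat_lit 0x10211e01)) e
 (c (nat_lit 0x8125181251812498124c8124c8124c98f81) e
 (c z e
 (c (a (nat_lit 0x100bf801))
 (c z e
 (c (nat_lit 0x8000080000800008000080000800007ff76c22a0) e e))
 (c (a (nat_lit 0x1011ce03)) e
 (c (a (nat_lit 0x100c5003)) e
 (c (a (nat_lit 0x1024be03)) e
 (c (a (nat_lit 0x1019ae03)) e
 (c z e
 (c (a (nat_lit 0x10040407)) e
 (c (nat_lit 0x804bc805a6805a6805a6805a6805a650107) e
 (c (a (nat_lit 0x10184807)) e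
 (c (a (nat_lit 0x10168a0b)) e
 (c (nat_lit 0x800007ff49800007ffac80000800004d1cb) e
 (c (a (nat_lit 0xffd460b)) e
 (c (a (nat_lit 0x1030580f)) e
 (c (nat_lit 0x81738816bd817388173881738817380648f) e
 (c z e
 (c z e
 (c z e
 (c z e
 (c (a (nat_lit 0xffff21b)) e e)))))))))))))))))))))))))))))))))) Tr.c Tr.e (nat_lit 0) C.t6 C.t7
noncomputable def tt58 : Tr := beta% (fun (c : Nat → Tr → Tr → Tr) (e : Tr) (z : Nat) (a b : Nat → Nat) =>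
 (c (a (nat_lit 0x10220800))
 (c (b (nat_lit 0xfd93c00)) e
 (c (b (nat_lit 0xfddc400)) e
 (c (b (nat_lit 0xfdcba00)) e
 (c (b (nat_lit 0xfdf6800)) e
 (c (b (nat_lit 0xfddb200)) e
 (c (b (nat_lit 0xfdfc000)) e
 (c (b (nat_lit 0xfdbf401)) e
 (c (b (nat_lit 0xfd9ea01)) e
 (c (b (nat_lit 0xfd7f801)) e
 (c (b (nat_lit 0xfbde401)) e
 (c (nat_lit 0x7e9157e9157e9157e9157e7a67e9157e91564183) e
 (c (b (nat_lit 0xfc8be03)) e
 (c (b (nat_lit 0xfc62e03)) e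
 (c (b (nat_lit 0xfb1da03)) e
 (c (b (nat_lit 0xfc3e207)) e
 (c (b (nat_lit 0x10315607)) e
 (c z e
 (c (b (nat_lit 0xfe59607)) e
 (c (b (nat_lit 0xfffee0b)) e
 (c (b (nat_lit 0xfd5bc0b)) e
 (c (b (nat_lit 0xfef860b)) e
 (c z e
 (c z e
 (c (b (nat_lit 0xfffe00f)) e
 (c (b (nat_lit 0xfe5f80f)) e
 (c z e
 (c (b (nat_lit 0x101f501b)) e
 (c (b (nat_lit 0x1009f01b)) e e))))))))))))))))))))))))))))
 (c (a (nat_lit 0x1020a000))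
 (c (b (nat_lit 0xfdf5200)) e
 (c (b (nat_lit 0xfe0e000)) e
 (c (b (nat_lit 0xfe1f600)) e
 (c (b (nat_lit 0xfe1e000)) e
 (c (b (nat_lit 0xfe0e601)) e
 (c (b (nat_lit 0xfdfd801)) e
 (c (b (nat_lit 0xfd48a01)) e
 (c (b (nat_lit 0xfc7a601)) e
 (c (b (nat_lit 0xfdbce03)) e
 (c (b (nat_lit 0xfdfa403)) e
 (c (b (nat_lit 0xfe6be03)) e
 (c z e
 (c z e
 (c (b (nat_lit 0xfe27e07)) e
 (c (b (nat_lit 0xffc5a07)) e
 (c z e
 (c (b (nat_lit 0xfef580b)) e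
 (c (b (nat_lit 0xfda720b)) e
 (c z e
 (c z e
 (c (b (nat_lit 0x1014de0f)) e
 (c (nat_lit 0x7fde5800008000080000800008000080000b710f) e
 (c (nat_lit 0x7ff9c7ff187ff9c7ff9c7ff9c7ff9c7ff9c4fb0f) e
 (c (nat_lit 0x80000800007fc98800008000080000800001639b) e
 (c (b (nat_lit 0xffde41b)) e
 (c (b (nat_lit 0x101e861b)) e
 (c (b (nat_lit 0x101e1a2b)) e e))))))))))))))))))))))))))) tt57))) Tr.c Tr.e (nat_lit 0) C.t6 C.t7
noncomputable def tt59 : Tr := beta% (fun (c : Nat → Tr → Tr → Tr) (e : Tr) (z : Nat) (a b d : Nat → Nat) =>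
 (c (a (nat_lit 0xfdf8200)) tt58
 (c (a (nat_lit 0xfe00a00))
 (c (b (nat_lit 0x10200800))
 (c (d (nat_lit 0xfdb8800)) e
 (c (d (nat_lit 0xfdf3000)) e
 (c (d (nat_lit 0xfe27000)) e
 (c (d (nat_lit 0xfe40a01)) e
 (c (d (nat_lit 0xfdd5001)) e
 (c (d (nat_lit 0xfe12e01)) e
 (c (d (nat_lit 0xfd58601)) e
 (c (d (nat_lit 0xfc3ac03)) e
 (c (d (nat_lit 0xfd15003)) e
 (c (d (nat_lit 0xfe16a03)) e
 (c (d (nat_lit 0xfeb8803)) e
 (c z e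
 (c (d (nat_lit 0x1012c607)) e
 (c (d (nat_lit 0xfff2007)) e
 (c z e
 (c (d (nat_lit 0x103b8a0b)) e
 (c (d (nat_lit 0xfd3ba0b)) e
 (c (d (nat_lit 0xfd3b80b)) e
 (c (d (nat_lit 0xfff760f)) e
 (c (d (nat_lit 0x100bd40f)) e
 (c (d (nat_lit 0x101a980f)) e e))))))))))))))))))))) tt56)
 (c (a (nat_lit 0xfdff000)) tt55
 (c (a (nat_lit 0xfe02600)) tt54
 (c (a (nat_lit 0xfdfc200)) tt53
 (c (a (nat_lit 0xfdfe000))
 (c (b (nat_lit 0x101f9200))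
 (c (nat_lit 0x8000080000800008000080000800007ffd389203) e
 (c z e
 (c z e
 (c (nat_lit 0x800007feae800008000080000800008000081c0b) e
 (c (d (nat_lit 0x101dfc0b)) e
 (c z e
 (c z e
 (c z e
 (c (d (nat_lit 0xfffc20f)) e
 (c z e
 (c (d (nat_lit 0x10968a13)) e
 (c z e
 (c (d (nat_lit 0xfffea19)) e
 (c (d (nat_lit 0x101be619)) e e))))))))))))))
 (c (b (nat_lit 0x101fe400)) e
 (c (b (nat_lit 0x101ff800)) e
 (c (b (nat_lit 0x10211e01))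
 (c z e
 (c (d (nat_lit 0xfa9740f)) e e))
 (c (b (nat_lit 0x10208401))
 (c (d (nat_lit 0xfa3e20f)) e e)
 (c (nat_lit 0x8106081060810608101c8101b8101ceb4c1) e
 (c (b (nat_lit 0x101f7201))
 (c z e
 (c (d (nat_lit 0xf8e4e19)) e e))
 (c (b (nat_lit 0x100ba603)) e
 (c (b (nat_lit 0x1013b403)) e
 (c z e
 (c (nat_lit 0x7ff238000080000800008000080000f0603) e
 (c (b (nat_lit 0x1015ba07)) e
 (c (b (nat_lit 0x10092607)) e
 (c z e
 (c z e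
 (c (b (nat_lit 0x1013780b)) e
 (c (b (nat_lit 0x10013e0b)) e
 (c z e
 (c (b (nat_lit 0x101a1e0f)) e
 (c (b (nat_lit 0x1017020f)) e
 (c z e
 (c (b (nat_lit 0x1005dc0f)) e
 (c z e
 (c (nat_lit 0x80f7f80f7f80f7f80f4d80f4d80f7f574d9) e
 (c (nat_lit 0x8114b8114b8114b81119810f581121c4ed9) e
 (c (nat_lit 0x800008000080000800007ffd67ffb602f97) e e))))))))))))))))))))))))))
 (c (a (nat_lit 0xfdfd200))
 (c (b (nat_lit 0x1012fa00))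
 (c z e
 (c z e
 (c z e
 (c z e
 (c (d (nat_lit 0xfd3c00f)) e
 (c z e
 (c z e
 (c z e
 (c z e
 (c z e
 (c (d (nat_lit 0xf188840)) e e)))))))))))
 (c (b (nat_lit 0x10205201)) e
 (c (b (nat_lit 0x10208c01)) e
 (c (b (nat_lit 0x1020c601))
 (c z e
 (c z e
 (c z e
 (c z e
 (c (d (nat_lit 0xfdac628)) e e)))))
 (c (b (nat_lit 0x10203601))
 (c (d (nat_lit 0xfff9613)) e e)
 (c (b (nat_lit 0x1015a003)) e
 (c (b (nat_lit 0x1013c603)) e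
 (c z e
 (c z e
 (c (b (nat_lit 0xfbd7607)) e
 (c (b (nat_lit 0x10376607)) e
 (c z e
 (c z e
 (c (b (nat_lit 0x10221e0b)) e
 (c (b (nat_lit 0x1010580b)) e
 (c (b (nat_lit 0x1011f60b)) e
 (c (b (nat_lit 0x102dcc0f)) e
 (c (b (nat_lit 0x1029840f)) e
 (c z e
 (c z e
 (c z e
 (c (nat_lit 0x800007ffc87ffc88000080000800005a693) e
 (c z e
 (c z e
 (c (nat_lit 0x80000800008000080000800007fe9a5fa57) e e))))))))))))))))))))))))) tt52)))))))) Tr.c Tr.e (nat_lit 0) C.t5 C.t6 C.t7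
noncomputable def tt60 : Tr := beta% (fun (c : Nat → Tr → Tr → Tr) (e : Tr) (z : Nat) (a b d : Nat → Nat) =>
 (c (a (nat_lit 0xfe03800))
 (c (b (nat_lit 0x101f7601))
 (c z e
 (c z e
 (c (d (nat_lit 0xfbf0613)) e e)))
 (c (b (nat_lit 0x10095a01))
 (c z e
 (c (d (nat_lit 0xff45813)) e e))
 (c (b (nat_lit 0x1020ae03)) e
 (c (b (nat_lit 0x10159003)) e
 (c z e
 (c z e
 (c (b (nat_lit 0xfee8207)) e
 (c (b (nat_lit 0xfdb3207)) e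
 (c z e
 (c (b (nat_lit 0x100f8e07)) e
 (c z e
 (c (b (nat_lit 0xff2ae0b)) e
 (c (b (nat_lit 0x100efa0f)) e
 (c (b (nat_lit 0x10063a0f)) e
 (c z e
 (c z e
 (c (b (nat_lit 0x100f4011)) e
 (c (b (nat_lit 0x10157613)) e
 (c (b (nat_lit 0x10104e13)) e e)))))))))))))))))))
 (c (nat_lit 0x7f01f7f01e7f01e7f01e7f01f9ff40)
 (c z
 (c (nat_lit 0x7f81c7f3847f4627f81c7f81c7f81c7f81c84098) e e)
 (c z e
 (c z e
 (c z e
 (c z e
 (c z e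
 (c z e
 (c (b (nat_lit 0x10259c07)) e
 (c z e
 (c z e
 (c z e
 (c z e
 (c (b (nat_lit 0x10034e0f)) e
 (c z e
 (c (b (nat_lit 0x100dc011)) e
 (c (b (nat_lit 0x100de211)) e
 (c z e
 (c z e
 (c z e
 (c z e
 (c z e
 (c (nat_lit 0x80000800008000080000800007ffa1544d3) e e))))))))))))))))))))))
 (c (a (nat_lit 0xfe03400))
 (c (b (nat_lit 0x101c9c03)) e
 (c z e
 (c (b (nat_lit 0xfe5e007)) e
 (c z e
 (c z e
 (c z e
 (c (b (nat_lit 0x1019980b)) e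
 (c z e
 (c z e
 (c z e
 (c z e
 (c (b (nat_lit 0x10019e0f)) e
 (c (b (nat_lit 0x1008be11)) e
 (c (b (nat_lit 0x100e9011)) e
 (c (b (nat_lit 0x100f0611)) e
 (c (nat_lit 0x80000800008000080000800007fe148d0d1) e
 (c (b (nat_lit 0xfffee18)) e e)))))))))))))))))
 (c (a (nat_lit 0xfdffc00))
 (c z e
 (c z e
 (c z e
 (c (b (nat_lit 0x101af607)) e
 (c z e
 (c (b (nat_lit 0x101c360b)) e
 (c (b (nat_lit 0x101e5c0f)) e
 (c (nat_lit 0x8000080000800007ffed7ffed800002224f) e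
 (c z e
 (c z e
 (c (nat_lit 0x8046b804698046b8046b8046b8046bbf4d1) e
 (c (nat_lit 0x8057e8057e8052a8053b8057e8057e87e91) e
 (c (b (nat_lit 0x100c5211)) e
 (c z e
 (c (nat_lit 0x80000800008000080000800007fdfd68951) e e)))))))))))))))
 (c (a (nat_lit 0xfe01600))
 (c (b (nat_lit 0xfff8207)) e
 (c z e
 (c z e
 (c z e
 (c (b (nat_lit 0x10024a0f)) e
 (c z e
 (c z e
 (c z e
 (c (nat_lit 0x8025280322803228032280322803228c6d0) e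
 (c (b (nat_lit 0x1025f811)) e
 (c (b (nat_lit 0x10292011)) e
 (c (nat_lit 0x802438024380243802178024380243a2511) e
 (c (b (nat_lit 0x1004e611)) e e)))))))))))))
 (c (a (nat_lit 0xfdfbe00))
 (c (b (nat_lit 0x1007f80b)) e
 (c z e
 (c z e
 (c (b (nat_lit 0xfee160f)) e
 (c z e
 (c z e
 (c z e
 (c (b (nat_lit 0x10197610)) e
 (c (nat_lit 0x800008000080c8880c8880c8880c8849450) e e)))))))))
 (c (a (nat_lit 0xfe01800))
 (c (b (nat_lit 0x1037420f)) e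
 (c z e
 (c z e
 (c z e
 (c (b (nat_lit 0x1018cc10)) e
 (c (nat_lit 0x8114381156811568115681156811566ddd0) e
 (c (nat_lit 0x8051c8050e8051c8051c8051c8051c4e4d0) e
 (c (nat_lit 0x800008000080497804a1804a1804a17ae90) e
 (c (nat_lit 0x80000800008000080c1780c1780c17f0790) e e)))))))))
 (c (nat_lit 0x7f0177f0167f0167f0167f019fe920)
 (c z e
 (c z e
 (c (b (nat_lit 0x10c94010)) e
 (c (b (nat_lit 0x1011f610)) e
 (c (nat_lit 0x7ffa67ffa580000800008000080000f5210) e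
 (c (nat_lit 0x80deb80deb80dd780deb80deb80deb8e410) e
 (c (nat_lit 0x800008000080eaf80eaf80eaf80eafcce90) e
 (c (nat_lit 0x80000800008000080ef480ef480ef4554d0) e e))))))))
 (c (nat_lit 0x7f00e7f00c7f00c7f00c7f00c70220)
 (c (b (nat_lit 0x11000210)) e
 (c (b (nat_lit 0x10180210)) e
 (c (nat_lit 0x804d5805e1805e1805e1805e1805e196010) e
 (c (b (nat_lit 0x1017d210)) e
 (c (b (nat_lit 0x1019be10)) e
 (c (nat_lit 0x800008000080df180df180df180df189b50) e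
 (c (nat_lit 0x80000800008000080ff180ee880ff175f90) e
 (c (nat_lit 0x8000080000800008000080e7580e7544f50) e e))))))))
 (c (a (nat_lit 0xfdfe600)) e
 (c (a (nat_lit 0xfdfee00)) e
 (c (a (nat_lit 0xfdffc00)) e
 (c (a (nat_lit 0xfe05200)) e
 (c (a (nat_lit 0xfe01401)) e
 (c (nat_lit 0x7f0277f0277f0217f0217f02105e21) e
 (c (nat_lit 0x7f0397f0397f0397f0157f01530ec1) e
 (c (nat_lit 0x7f0827f0827f0827f0827f01b87f21) e
 (c (a (nat_lit 0xfed6603)) e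
 (c (a (nat_lit 0x1005b403)) e
 (c (a (nat_lit 0x10105a03)) e
 (c (a (nat_lit 0xff74c03)) e
 (c z e
 (c z e
 (c z e
 (c (a (nat_lit 0xff95407)) e
 (c z e
 (c (a (nat_lit 0x101a6c0b)) e
 (c (a (nat_lit 0x1005cc0f)) e
 (c z e
 (c z e
 (c (nat_lit 0x7fffd7fffd800008000080000d29cf) e e)))))))))))))))))))))))))))))))) Tr.c Tr.e (nat_lit 0) C.t5 C.t6 C.t7
noncomputable def tt61 : Tr := beta% (fun (c : Nat → Tr → Tr → Tr) (e : Tr) (z : Nat) (a b : Nat → Nat) =>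
 (c (a (nat_lit 0x101fdc00))
 (c z e
 (c z e
 (c z e
 (c z e
 (c z e
 (c z e
 (c z e
 (c z e
 (c z e
 (c z e
 (c z e
 (c z e
 (c (b (nat_lit 0x1045ca0f)) e e)))))))))))))
 (c (a (nat_lit 0x101f6800))
 (c z e
 (c z e
 (c z e
 (c z e
 (c z e
 (c z e
 (c z e
 (c z e
 (c z e
 (c z e
 (c z e
 (c (b (nat_lit 0x10425213)) e
 (c z e
 (c (b (nat_lit 0x10302217)) e e))))))))))))))
 (c (a (nat_lit 0x101f7e00))
 (c z e
 (c z e
 (c z e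
 (c z e
 (c z e
 (c (b (nat_lit 0xfffe60f)) e
 (c z e
 (c z e
 (c z e
 (c z e
 (c z e
 (c (b (nat_lit 0x104d1e17)) e e))))))))))))
 (c (a (nat_lit 0x101f6a00))
 (c z e
 (c z e
 (c z e
 (c z e
 (c z e
 (c z e
 (c z e
 (c z e
 (c z e
 (c z e
 (c (b (nat_lit 0x1029dc17)) e e)))))))))))
 (c (a (nat_lit 0x101f6000)) e
 (c (a (nat_lit 0x101ec800)) e
 (c (a (nat_lit 0x101eaa01))
 (c (b (nat_lit 0xfe6e20f)) e e)
 (c (a (nat_lit 0x10201801)) e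
 (c (nat_lit 0x810048100481004810038100081003c4441) e
 (c (a (nat_lit 0x1013d401)) e
 (c z e
 (c (a (nat_lit 0xff6d203)) e
 (c (a (nat_lit 0x100b0003)) e
 (c z e
 (c (a (nat_lit 0x10025007)) e
 (c z e
 (c z e
 (c z e
 (c z e
 (c (a (nat_lit 0xffabc0b)) e
 (c z e
 (c z e
 (c (a (nat_lit 0x10074a0f)) e
 (c z e
 (c z e
 (c z e
 (c z e
 (c (a (nat_lit 0xffb8817)) e
 (c (nat_lit 0x800008000080000800007ffa27ffa28c057) e e)))))))))))))))))))))))))))))) Tr.c Tr.e (nat_lit 0) C.t6 C.t7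
noncomputable def tt62 : Tr := beta% (fun (c : Nat → Tr → Tr → Tr) (e : Tr) (z : Nat) (a b : Nat → Nat) =>
 (c (a (nat_lit 0x101fc600))
 (c (b (nat_lit 0xfd98401)) e
 (c (b (nat_lit 0xfe22c01)) e
 (c (b (nat_lit 0xf385203)) e
 (c (b (nat_lit 0xf785603)) e
 (c z e
 (c z e
 (c z e
 (c z e
 (c z e
 (c z e
 (c z e
 (c (b (nat_lit 0x1039580b)) e
 (c z e
 (c z e
 (c z e
 (c z e
 (c z e
 (c (b (nat_lit 0x10333817)) e
 (c (b (nat_lit 0x101bf417)) e e)))))))))))))))))))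
 (c (a (nat_lit 0x101faa00))
 (c (b (nat_lit 0xfe0ca03)) e
 (c (b (nat_lit 0xfeb5403)) e e))
 (c (a (nat_lit 0x101f7400))
 (c z e
 (c z e
 (c z e
 (c z e
 (c z e
 (c z e
 (c z e
 (c z e
 (c z e
 (c z e
 (c z e
 (c z e
 (c (b (nat_lit 0x10321817)) e
 (c z e
 (c z e
 (c (b (nat_lit 0xffd8a17)) e e))))))))))))))))
 (c (a (nat_lit 0x101f7200))
 (c z e
 (c z e
 (c z e
 (c z e
 (c z e
 (c z e
 (c z e
 (c z e
 (c (b (nat_lit 0x1041160f)) e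
 (c z e
 (c z e
 (c (b (nat_lit 0x10328c17)) e
 (c z e
 (c (b (nat_lit 0xffe5417)) e e))))))))))))))
 (c (a (nat_lit 0x101f5000)) e
 (c (a (nat_lit 0x101f1400))
 (c z e
 (c z e
 (c (b (nat_lit 0xffeb20f)) e e)))
 (c (a (nat_lit 0x101f0c00)) e
 (c (a (nat_lit 0x101fb000))
 (c z e
 (c (b (nat_lit 0xffeaa0f)) e e))
 (c (a (nat_lit 0x101f8401)) e
 (c (a (nat_lit 0x101f7e01)) e
 (c (a (nat_lit 0x10207801)) e
 (c (a (nat_lit 0x10171a01)) e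
 (c (a (nat_lit 0xfb6da03)) e
 (c (a (nat_lit 0x10091003)) e
 (c (a (nat_lit 0x100cba03)) e
 (c (a (nat_lit 0x101afc03)) e
 (c z e
 (c (a (nat_lit 0xfd94e07)) e
 (c (a (nat_lit 0xff92807)) e
 (c z e
 (c z e
 (c z e
 (c (a (nat_lit 0xfd83a0f)) e e)))))))))))))))))))))))) Tr.c Tr.e (nat_lit 0) C.t6 C.t7
noncomputable def tt63 : Tr := beta% (fun (c : Nat → Tr → Tr → Tr) (e : Tr) (z : Nat) (a b : Nat → Nat) =>
 (c (a (nat_lit 0x101f6e00))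
 (c (b (nat_lit 0xfca8600)) e
 (c (b (nat_lit 0xfe2bc01)) e
 (c (b (nat_lit 0xfdf4c01)) e
 (c (b (nat_lit 0xfe18a01)) e
 (c (b (nat_lit 0xfe25e01)) e
 (c (b (nat_lit 0xfc73e03)) e
 (c z e
 (c z e
 (c (b (nat_lit 0xfecb603)) e
 (c z e
 (c z e
 (c (b (nat_lit 0x1029ba07)) e
 (c z e
 (c z e
 (c z e
 (c z e
 (c (b (nat_lit 0xff3520f)) e
 (c z e
 (c (b (nat_lit 0x1009400f)) e
 (c (b (nat_lit 0xfff6e17)) e
 (c z e
 (c (nat_lit 0x7ffd98000080000800008000080000800000a417) e e))))))))))))))))))))))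
 (c (a (nat_lit 0x101f7a00))
 (c (b (nat_lit 0xfe01c01)) e
 (c (b (nat_lit 0xfe29601)) e
 (c (b (nat_lit 0xfe21201)) e
 (c (b (nat_lit 0xfe13c03)) e
 (c z e
 (c z e
 (c (b (nat_lit 0xffb7803)) e
 (c z e
 (c z e
 (c z e
 (c z e
 (c (b (nat_lit 0x1016700b)) e
 (c (b (nat_lit 0x101f6c0b)) e
 (c z e
 (c (b (nat_lit 0x1004080f)) e
 (c z e
 (c (b (nat_lit 0x10059e0f)) e e)))))))))))))))))
 (c (a (nat_lit 0x101f4000))
 (c (b (nat_lit 0xfdc8001)) e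
 (c (b (nat_lit 0xfd30603)) e
 (c z e
 (c z e
 (c z e
 (c z e
 (c z e
 (c z e
 (c z e
 (c z e
 (c (b (nat_lit 0x1071d80b)) e
 (c z e
 (c z e
 (c z e
 (c z e
 (c z e
 (c z e
 (c z e
 (c (b (nat_lit 0xffffc1b)) e e)))))))))))))))))))
 (c (a (nat_lit 0x101fce00))
 (c (b (nat_lit 0xfd15003)) e
 (c z e
 (c z e
 (c z e
 (c z e
 (c z e
 (c (b (nat_lit 0xffe1c07)) e
 (c z e
 (c z e
 (c z e
 (c z e
 (c z e
 (c (b (nat_lit 0xffa9c0f)) e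
 (c (b (nat_lit 0xfe66417)) e
 (c (nat_lit 0x7ffaa800008000080000800008000080000d8217) e
 (c z e
 (c (nat_lit 0x80000800007ffe38000080000800008000062a9b) e
 (c (nat_lit 0x8000080000800007ffbc800008000080000acc9b) e e))))))))))))))))))
 (c (a (nat_lit 0x101f5000))
 (c z e
 (c z e
 (c z e
 (c z e
 (c z e
 (c z e
 (c z e
 (c z e
 (c (b (nat_lit 0x103fce0f)) e
 (c (b (nat_lit 0x1015120f)) e
 (c z e
 (c z e
 (c z e
 (c z e
 (c z e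
 (c (b (nat_lit 0xffeec1b)) e e))))))))))))))))
 (c (a (nat_lit 0x101f5600))
 (c z e
 (c z e
 (c z e
 (c z e
 (c (b (nat_lit 0x1016720b)) e
 (c z e
 (c z e
 (c z e
 (c z e
 (c z e
 (c z e
 (c z e
 (c z e
 (c (b (nat_lit 0xffb961b)) e e))))))))))))))
 (c (a (nat_lit 0x101f7c00)) e
 (c (a (nat_lit 0x101f0200)) e
 (c (a (nat_lit 0x101ff600))
 (c z e
 (c (b (nat_lit 0xfffcc0f)) e e))
 (c (a (nat_lit 0x101ef400)) e
 (c (a (nat_lit 0x101f2e01)) e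
 (c (a (nat_lit 0x101f4601)) e
 (c (a (nat_lit 0x101fd201)) e
 (c z e
 (c (a (nat_lit 0x101fd803)) e
 (c (a (nat_lit 0x10187c03)) e
 (c (a (nat_lit 0x10209803)) e
 (c (a (nat_lit 0x10103e03)) e
 (c z e
 (c (a (nat_lit 0x1003f407)) e
 (c z e
 (c (a (nat_lit 0x10016e07)) e
 (c z e
 (c z e
 (c z e
 (c (a (nat_lit 0xff1ac0f)) e
 (c z e
 (c z e
 (c z e
 (c z e
 (c z e
 (c z e
 (c (a (nat_lit 0xfffdc1b)) e e)))))))))))))))))))))))))))))))))) Tr.c Tr.e (nat_lit 0) C.t6 C.t7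
noncomputable def tt64 : Tr := beta% (fun (c : Nat → Tr → Tr → Tr) (e : Tr) (z : Nat) (a b : Nat → Nat) =>
 (c (a (nat_lit 0x10201e00))
 (c (b (nat_lit 0xfe08200)) e
 (c (b (nat_lit 0xfdf1000)) e
 (c (b (nat_lit 0xfe22800)) e
 (c (b (nat_lit 0xfe27c00)) e
 (c (b (nat_lit 0xfe1c401)) e
 (c (b (nat_lit 0xfe1ba01)) e
 (c (b (nat_lit 0xfd76201)) e
 (c (b (nat_lit 0xfcc7e01)) e
 (c (b (nat_lit 0xfdaf603)) e
 (c (b (nat_lit 0xfe96a03)) e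
 (c (b (nat_lit 0xfda9603)) e
 (c z e
 (c z e
 (c z e
 (c z e
 (c (b (nat_lit 0x10347607)) e
 (c (b (nat_lit 0xfff9e0b)) e
 (c (b (nat_lit 0xff4a80b)) e
 (c z e
 (c z e
 (c (b (nat_lit 0x1010c40f)) e
 (c z e
 (c z e
 (c (nat_lit 0x7ffd77ff597ffd77ffd77ffd77ffd77ffd716917) e
 (c (b (nat_lit 0xfff621b)) e
 (c (nat_lit 0x8000080000800007ff60800008000080000bda9b) e e))))))))))))))))))))))))))
 (c (a (nat_lit 0x101fb200))
 (c (b (nat_lit 0xfe1ba00)) e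
 (c (b (nat_lit 0xfe19e00)) e
 (c (b (nat_lit 0xfe1fe01)) e
 (c (b (nat_lit 0xfe16801)) e
 (c (b (nat_lit 0xfe27401)) e
 (c (b (nat_lit 0xfe1e201)) e
 (c (nat_lit 0x7f1117f1117f1117f1117f1117f0de7f0dfd4b03) e
 (c (b (nat_lit 0xfec0c03)) e
 (c (b (nat_lit 0xff9b403)) e
 (c z e
 (c z e
 (c (b (nat_lit 0x1011ca07)) e
 (c z e
 (c (b (nat_lit 0xffda807)) e
 (c z e
 (c z e
 (c (b (nat_lit 0xfe5040f)) e
 (c z e
 (c (b (nat_lit 0xfffe40f)) e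
 (c z e
 (c z e
 (c (b (nat_lit 0xfff7017)) e
 (c z e
 (c (b (nat_lit 0xfffa01b)) e
 (c (b (nat_lit 0xffe862b)) e e)))))))))))))))))))))))))
 (c (a (nat_lit 0x101f8c00))
 (c (b (nat_lit 0xfe27401)) e
 (c (b (nat_lit 0xfe29c01)) e
 (c (b (nat_lit 0xfe25a01)) e
 (c (b (nat_lit 0xfe2a801)) e
 (c (b (nat_lit 0xfc98203)) e
 (c z e
 (c z e
 (c (b (nat_lit 0xffe9803)) e
 (c z e
 (c z e
 (c z e
 (c z e
 (c z e
 (c (b (nat_lit 0x1042360b)) e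
 (c z e
 (c z e
 (c z e
 (c (b (nat_lit 0x100d120f)) e
 (c (b (nat_lit 0x100e4417)) e e)))))))))))))))))))
 (c (a (nat_lit 0x101f7400))
 (c (b (nat_lit 0xfe3f601)) e
 (c (b (nat_lit 0xfdc6401)) e
 (c (b (nat_lit 0xfe18403)) e
 (c z e
 (c z e
 (c z e
 (c z e
 (c z e
 (c (b (nat_lit 0x1013e007)) e
 (c z e
 (c z e
 (c z e
 (c z e
 (c z e
 (c (b (nat_lit 0x100fcc0f)) e
 (c z e
 (c (b (nat_lit 0x100bbc17)) e
 (c (b (nat_lit 0xfffd017)) e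
 (c z e
 (c (b (nat_lit 0xffe241b)) e
 (c (b (nat_lit 0xfff2c27)) e e)))))))))))))))))))))
 (c (a (nat_lit 0x101faa00))
 (c (b (nat_lit 0xfe14603)) e
 (c z e
 (c z e
 (c z e
 (c z e
 (c z e
 (c z e
 (c z e
 (c z e
 (c (b (nat_lit 0x103dc40b)) e
 (c z e
 (c z e
 (c z e
 (c z e
 (c z e
 (c z e
 (c (b (nat_lit 0xfff261b)) e e)))))))))))))))))
 (c (a (nat_lit 0x101fa800)) e
 (c (a (nat_lit 0x101f8a00))
 (c z e
 (c z e
 (c z e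
 (c z e
 (c z e
 (c z e
 (c z e
 (c (b (nat_lit 0x103c080f)) e
 (c z e
 (c (b (nat_lit 0xfffec0f)) e
 (c z e
 (c z e
 (c z e
 (c (b (nat_lit 0xffefc1b)) e e))))))))))))))
 (c (a (nat_lit 0x101f3600)) e
 (c (a (nat_lit 0x101f4a00))
 (c z e
 (c z e
 (c (b (nat_lit 0x1015000f)) e
 (c (b (nat_lit 0x1021f40f)) e e))))
 (c (a (nat_lit 0x101fc200))
 (c z e
 (c (b (nat_lit 0xfff7e0f)) e
 (c (b (nat_lit 0x10283a0f)) e e)))
 (c (a (nat_lit 0x101f6400)) e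
 (c (a (nat_lit 0x101f0400)) e
 (c (a (nat_lit 0x101fde01)) e
 (c (a (nat_lit 0x101f0201)) e
 (c z e
 (c (a (nat_lit 0x1009ec01)) e
 (c (a (nat_lit 0x1013b003)) e
 (c (a (nat_lit 0x10152403)) e
 (c (a (nat_lit 0x101af603)) e
 (c (a (nat_lit 0x10028a03)) e
 (c z e
 (c z e
 (c z e
 (c (a (nat_lit 0xffe2207)) e
 (c (a (nat_lit 0xffff40b)) e
 (c z e
 (c (a (nat_lit 0xfff140f)) e e)))))))))))))))))))))))))))) Tr.c Tr.e (nat_lit 0) C.t6 C.t7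
noncomputable def tt65 : Tr := beta% (fun (c : Nat → Tr → Tr → Tr) (e : Tr) (z : Nat) (a b : Nat → Nat) =>
 (c (a (nat_lit 0x101e9600))
 (c (b (nat_lit 0xfe33e00)) e
 (c (b (nat_lit 0xfe2a400)) e
 (c (b (nat_lit 0xfe32600)) e
 (c (b (nat_lit 0xfe3b400)) e
 (c (b (nat_lit 0xfe2a800)) e
 (c (b (nat_lit 0xfe30a01)) e
 (c (b (nat_lit 0xfe3ea01)) e
 (c (b (nat_lit 0xfe35a01)) e
 (c (b (nat_lit 0xfe38601)) e
 (c (nat_lit 0x7f2137f2137f2137f2137f2137f1e77f1e8bd703) e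
 (c (b (nat_lit 0xfe9ac03)) e
 (c (b (nat_lit 0xfeb9e03)) e
 (c z e
 (c (b (nat_lit 0xfe2f607)) e
 (c z e
 (c z e
 (c z e
 (c (b (nat_lit 0xff7f80b)) e
 (c (b (nat_lit 0xfe7140b)) e
 (c z e
 (c z e
 (c (b (nat_lit 0x100ae40f)) e
 (c z e
 (c (b (nat_lit 0xfffc217)) e e))))))))))))))))))))))))
 (c (a (nat_lit 0x101fb000))
 (c (b (nat_lit 0xfe21200)) e
 (c (b (nat_lit 0xfe1e400)) e
 (c (b (nat_lit 0xfe22a00)) e
 (c (b (nat_lit 0xfe15801)) e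
 (c (b (nat_lit 0xfe26001)) e
 (c (b (nat_lit 0xfe22c01)) e
 (c (b (nat_lit 0xfe26001)) e
 (c (b (nat_lit 0xfe13e03)) e
 (c (b (nat_lit 0xff3a803)) e
 (c (b (nat_lit 0xfeab403)) e
 (c (b (nat_lit 0xfee9a03)) e
 (c (b (nat_lit 0xff0d207)) e
 (c z e
 (c z e
 (c z e
 (c z e
 (c z e
 (c z e
 (c z e
 (c z e
 (c z e
 (c (b (nat_lit 0x100c5817)) e
 (c (b (nat_lit 0xffcd01b)) e
 (c z e
 (c z e
 (c (b (nat_lit 0xfff5e2b)) e e))))))))))))))))))))))))))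
 (c (a (nat_lit 0x101f5c00))
 (c (b (nat_lit 0xfe2ae00)) e
 (c (b (nat_lit 0xfe2b001)) e
 (c (b (nat_lit 0xfe1cc01)) e
 (c (b (nat_lit 0xfe2d801)) e
 (c (b (nat_lit 0xfe2d001)) e
 (c (b (nat_lit 0xfc76e03)) e
 (c (nat_lit 0x7f25f7f25f7f25f7f25f7f25f7f25f7f13b39203) e
 (c (b (nat_lit 0xfeb2803)) e
 (c (b (nat_lit 0xfe7a203)) e
 (c z e
 (c z e
 (c z e
 (c z e
 (c z e
 (c z e
 (c (b (nat_lit 0xfffa20f)) e
 (c (b (nat_lit 0x100c4a0f)) e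
 (c (b (nat_lit 0x1015600f)) e
 (c (b (nat_lit 0xfff960f)) e
 (c (b (nat_lit 0x1007f017)) e
 (c (nat_lit 0x806cd807b5807b5807b5807b5807b5807b5b4f1b) e
 (c (b (nat_lit 0xfff741b)) e e))))))))))))))))))))))
 (c (a (nat_lit 0x101f7e00))
 (c (b (nat_lit 0xfe10a01)) e
 (c (b (nat_lit 0xfe25401)) e
 (c (b (nat_lit 0xfe24001)) e
 (c (b (nat_lit 0xfd23003)) e
 (c (b (nat_lit 0xfe8a203)) e
 (c (b (nat_lit 0xfe95803)) e
 (c (b (nat_lit 0xfe70803)) e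
 (c z e
 (c z e
 (c z e
 (c z e
 (c z e
 (c z e
 (c z e
 (c z e
 (c z e
 (c z e
 (c z e
 (c z e
 (c z e
 (c (b (nat_lit 0xfffec27)) e e)))))))))))))))))))))
 (c (a (nat_lit 0x101fbc00))
 (c (b (nat_lit 0xfe21801)) e
 (c (nat_lit 0x7f0c97f0c97f0c97f0c97f0c97f0b57f0b6ebc83) e
 (c z e
 (c z e
 (c (b (nat_lit 0xff7e203)) e
 (c z e
 (c z e
 (c z e
 (c (b (nat_lit 0xffeb007)) e
 (c z e
 (c z e
 (c (b (nat_lit 0x101bd00f)) e e))))))))))))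
 (c (a (nat_lit 0x101fd400))
 (c (b (nat_lit 0xfeb7603)) e
 (c z e
 (c z e
 (c z e
 (c z e
 (c z e
 (c z e
 (c (b (nat_lit 0x101a8e0b)) e
 (c (b (nat_lit 0x101a940b)) e e)))))))))
 (c (a (nat_lit 0x101fc200))
 (c (b (nat_lit 0xfe42a03)) e
 (c z e
 (c z e
 (c z e
 (c z e
 (c z e
 (c (b (nat_lit 0x103b4c0b)) e
 (c (b (nat_lit 0x102e7a0f)) e e))))))))
 (c (a (nat_lit 0x101fa600))
 (c z e
 (c z e
 (c (b (nat_lit 0xfffc207)) e e)))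
 (c (a (nat_lit 0x101fca00))
 (c z e
 (c z e
 (c z e
 (c z e
 (c z e
 (c z e
 (c z e
 (c z e
 (c z e
 (c (b (nat_lit 0xffe8a1b)) e e))))))))))
 (c (a (nat_lit 0x101fba00)) e
 (c (a (nat_lit 0x101f5800)) e
 (c (a (nat_lit 0x101f2600)) e
 (c (a (nat_lit 0x10200e00)) e
 (c (a (nat_lit 0x1020f401)) e
 (c (a (nat_lit 0x101f9e01)) e
 (c (a (nat_lit 0x101fc601))
 (c z e
 (c (nat_lit 0x80000800008000080000800007f47d7f50ff4da0) e e))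
 (c (a (nat_lit 0x101a7201)) e
 (c (a (nat_lit 0x1013e003)) e
 (c (a (nat_lit 0x10162603)) e
 (c (a (nat_lit 0x10210c03)) e
 (c (a (nat_lit 0x101a6e03)) e
 (c (a (nat_lit 0x100f7407)) e
 (c (a (nat_lit 0x10093407)) e
 (c (a (nat_lit 0x104eea07)) e
 (c z e
 (c z e
 (c (a (nat_lit 0xfecde0b)) e e)))))))))))))))))))))))))))) Tr.c Tr.e (nat_lit 0) C.t6 C.t7
noncomputable def tt66 : Tr := beta% (fun (c : Nat → Tr → Tr → Tr) (e : Tr) (z : Nat) (a b : Nat → Nat) =>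
 (c (a (nat_lit 0x101eae00))
 (c (b (nat_lit 0xfe21c00)) e
 (c (b (nat_lit 0xfe38800)) e
 (c (b (nat_lit 0xfe3b801)) e
 (c (b (nat_lit 0xfe37001)) e
 (c (b (nat_lit 0xfe10c01)) e
 (c (b (nat_lit 0xfe52c01)) e
 (c (b (nat_lit 0xfd6fc03)) e
 (c (b (nat_lit 0xff39003)) e
 (c (b (nat_lit 0xfe0dc03)) e
 (c z e
 (c z e
 (c z e
 (c z e
 (c z e
 (c z e
 (c (b (nat_lit 0x1014ea0b)) e
 (c (b (nat_lit 0x100b1c0f)) e
 (c (b (nat_lit 0x1014a40f)) e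
 (c z e
 (c z e
 (c z e
 (c (nat_lit 0x7fd8b80000800008000080000800008000030d1b) e
 (c (nat_lit 0x800007faf0800008000080000800008000093927) e e)))))))))))))))))))))))
 (c (a (nat_lit 0x101e8c00))
 (c (b (nat_lit 0xfe36a01)) e
 (c (b (nat_lit 0xfe46001)) e
 (c (b (nat_lit 0xfe36601)) e
 (c (b (nat_lit 0xfbb7601)) e
 (c (b (nat_lit 0xfdf1403)) e
 (c (b (nat_lit 0xfdd7c03)) e
 (c (b (nat_lit 0xfe6a403)) e
 (c (b (nat_lit 0xff43e03)) e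
 (c z e
 (c z e
 (c (b (nat_lit 0x10197607)) e
 (c z e
 (c (b (nat_lit 0x10367e0b)) e
 (c z e
 (c z e
 (c z e
 (c z e
 (c (nat_lit 0x7feff80000800008000080000800008000032c0f) e
 (c z e
 (c z e
 (c z e
 (c (nat_lit 0x7ffd47ffd47fde27ffd47fdce7ffd47ffd4eeea7) e
 (c (nat_lit 0x7fea47fea47fea47fea47fea47fc047fea462327) e e)))))))))))))))))))))))
 (c (a (nat_lit 0x101eb200))
 (c (b (nat_lit 0xfe2c801)) e
 (c (b (nat_lit 0xfbf9601)) e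
 (c (b (nat_lit 0xfca4003)) e
 (c z e
 (c (b (nat_lit 0xfd71003)) e
 (c z e
 (c z e
 (c z e
 (c z e
 (c z e
 (c (b (nat_lit 0xfffba0b)) e
 (c (b (nat_lit 0x10633e0b)) e
 (c z e
 (c z e
 (c (b (nat_lit 0x1009440f)) e
 (c (b (nat_lit 0xfff040f)) e
 (c z e
 (c (b (nat_lit 0x1007241b)) e e))))))))))))))))))
 (c (a (nat_lit 0x101f0000))
 (c (b (nat_lit 0xfde6e03)) e
 (c (b (nat_lit 0xfc02603)) e
 (c z e
 (c z e
 (c z e
 (c z e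
 (c z e
 (c (b (nat_lit 0x1012b007)) e
 (c (b (nat_lit 0xfff780b)) e
 (c z e
 (c z e
 (c (b (nat_lit 0xfe4a20f)) e
 (c z e
 (c (b (nat_lit 0xfffcc0f)) e
 (c z e
 (c z e
 (c (b (nat_lit 0xfff7e23)) e
 (c (b (nat_lit 0xffee229)) e
 (c (b (nat_lit 0xffc5829)) e e)))))))))))))))))))
 (c (a (nat_lit 0x101f0400))
 (c (b (nat_lit 0xfef8c03)) e
 (c z e
 (c z e
 (c z e
 (c z e
 (c z e
 (c z e
 (c (b (nat_lit 0xfffbe0b)) e e))))))))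
 (c (a (nat_lit 0x101e2e00))
 (c z e
 (c z e
 (c z e
 (c z e
 (c z e
 (c z e
 (c z e
 (c z e
 (c z e
 (c (b (nat_lit 0xffff00f)) e
 (c (b (nat_lit 0xfeb8e1b)) e
 (c z e
 (c z e
 (c z e
 (c (b (nat_lit 0xff92423)) e e)))))))))))))))
 (c (a (nat_lit 0x101f2c00))
 (c z e
 (c (b (nat_lit 0xfdb2207)) e e))
 (c (a (nat_lit 0x101f1000))
 (c z e
 (c z e
 (c z e
 (c z e
 (c z e
 (c z e
 (c z e
 (c z e
 (c z e
 (c z e
 (c (b (nat_lit 0xffdf628)) e e)))))))))))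
 (c (a (nat_lit 0x101e6800)) e
 (c (a (nat_lit 0x101eec00))
 (c z e
 (c z e
 (c z e
 (c z e
 (c z e
 (c z e
 (c (b (nat_lit 0xffdd821)) e e)))))))
 (c (a (nat_lit 0x101f8800)) e
 (c (a (nat_lit 0x101e7600)) e
 (c (a (nat_lit 0x101ef001)) e
 (c (a (nat_lit 0x101df801))
 (c z e
 (c (nat_lit 0x800008000080000800007f52e7f52e7f52e326a0) e e))
 (c (a (nat_lit 0x101fec01)) e
 (c (a (nat_lit 0x101eec01)) e
 (c (a (nat_lit 0x101dfa03)) e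
 (c (a (nat_lit 0x101efc03)) e
 (c (a (nat_lit 0x10119203)) e
 (c (a (nat_lit 0x1007c803)) e
 (c (a (nat_lit 0x100ce007)) e
 (c (a (nat_lit 0x1020ca07)) e
 (c (a (nat_lit 0x10072c07)) e
 (c (a (nat_lit 0xfffee07)) e
 (c (a (nat_lit 0xff1180b)) e
 (c z e
 (c z e
 (c (a (nat_lit 0xff8280f)) e
 (c z e
 (c z e
 (c z e
 (c z e
 (c (nat_lit 0x8000080000800007ff3e7ff3e7ffc42219f) e e)))))))))))))))))))))))))))))))))) Tr.c Tr.e (nat_lit 0) C.t6 C.t7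
noncomputable def tt67 : Tr := beta% (fun (c : Nat → Tr → Tr → Tr) (e : Tr) (z : Nat) (a b : Nat → Nat) =>
 (c (a (nat_lit 0x101e7800))
 (c (b (nat_lit 0xfdece00)) e
 (c (b (nat_lit 0xfe91e00)) e
 (c (b (nat_lit 0xfe6f800)) e
 (c (b (nat_lit 0xfe5a600)) e
 (c (b (nat_lit 0xfe42000)) e
 (c (b (nat_lit 0xfe50200)) e
 (c (b (nat_lit 0xfe4b800)) e
 (c (b (nat_lit 0xfe37600)) e
 (c (b (nat_lit 0xfe38000)) e
 (c (b (nat_lit 0xfe04a00)) e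
 (c (b (nat_lit 0xfe0d401)) e
 (c (b (nat_lit 0xfd27601)) e
 (c (b (nat_lit 0xfe4fe01)) e
 (c (b (nat_lit 0xfe0f401)) e
 (c (b (nat_lit 0xfe27003)) e
 (c (b (nat_lit 0xfa0c603)) e
 (c (b (nat_lit 0xfe87e03)) e
 (c (b (nat_lit 0xfd61203)) e
 (c (b (nat_lit 0xfcee007)) e
 (c (b (nat_lit 0xfe53807)) e
 (c (b (nat_lit 0xff06407)) e
 (c (b (nat_lit 0xfe75207)) e
 (c (b (nat_lit 0xfef300b)) e
 (c z e
 (c z e
 (c (b (nat_lit 0xff2400f)) e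
 (c z e
 (c z e
 (c z e
 (c z e
 (c (b (nat_lit 0xffdee39)) e
 (c z e
 (c z e
 (c (nat_lit 0x800008000080000800007fffa7fb8e8000010b1f) e e))))))))))))))))))))))))))))))))))
 (c (a (nat_lit 0x101cd200))
 (c (b (nat_lit 0xfe63400)) e
 (c (b (nat_lit 0xfe73200)) e
 (c (b (nat_lit 0xfe57000)) e
 (c (b (nat_lit 0xfe55e00)) e
 (c (b (nat_lit 0xfe5b800)) e
 (c (b (nat_lit 0xfe4d200)) e
 (c (b (nat_lit 0xfe40800)) e
 (c (b (nat_lit 0xfe4b200)) e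
 (c (b (nat_lit 0xfe66401)) e
 (c (b (nat_lit 0xfe43801)) e
 (c (b (nat_lit 0xfe44001)) e
 (c (b (nat_lit 0xfe5b801)) e
 (c (b (nat_lit 0xfd8ca03)) e
 (c (b (nat_lit 0xfbf9203)) e
 (c (b (nat_lit 0xfa5be03)) e
 (c z e
 (c (b (nat_lit 0xfff4807)) e
 (c (b (nat_lit 0xffabc07)) e
 (c (b (nat_lit 0xfe45807)) e
 (c (b (nat_lit 0xfec1007)) e
 (c (b (nat_lit 0xffeb20b)) e
 (c (b (nat_lit 0xff0440b)) e
 (c z e
 (c z e
 (c (b (nat_lit 0xfc1c00f)) e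
 (c z e
 (c (nat_lit 0x7ff1280000800008000080000800008000010a9b) e
 (c (nat_lit 0x800007fe0d8000080000800008000080000fee9b) e
 (c (nat_lit 0x80000800007fe4480000800008000080000ad02b) e
 (c z e
 (c (b (nat_lit 0xfffce39)) e e)))))))))))))))))))))))))))))))
 (c (a (nat_lit 0x101e9400))
 (c (b (nat_lit 0xfe2a000)) e
 (c (b (nat_lit 0xfe37e00)) e
 (c (b (nat_lit 0xfe38e00)) e
 (c (b (nat_lit 0xfe3d200)) e
 (c (b (nat_lit 0xfe38000)) e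
 (c (b (nat_lit 0xfe2ce00)) e
 (c (b (nat_lit 0xfe38801)) e
 (c (b (nat_lit 0xfe48801)) e
 (c (b (nat_lit 0xfe37801)) e
 (c (b (nat_lit 0xfd66a01)) e
 (c (nat_lit 0x7f0c37f0c37ee847f0c37f0c37f0c37f0c317683) e
 (c (b (nat_lit 0xfe9e203)) e
 (c (b (nat_lit 0xfccca03)) e
 (c (b (nat_lit 0xfe5fe03)) e
 (c z e
 (c (b (nat_lit 0xfffb007)) e
 (c (b (nat_lit 0xff40407)) e
 (c (b (nat_lit 0xff6e807)) e
 (c (b (nat_lit 0xff2ea0b)) e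
 (c z e
 (c (b (nat_lit 0x1017520f)) e
 (c (b (nat_lit 0x101bac0f)) e
 (c z e
 (c z e
 (c z e
 (c z e
 (c z e
 (c (b (nat_lit 0xfff782b)) e e))))))))))))))))))))))))))))
 (c (a (nat_lit 0x101e5000))
 (c (b (nat_lit 0xfe3f600)) e
 (c (b (nat_lit 0xfe3d400)) e
 (c (b (nat_lit 0xfe42e00)) e
 (c (b (nat_lit 0xfe30c00)) e
 (c (b (nat_lit 0xfe3ea01)) e
 (c (b (nat_lit 0xfe3a201)) e
 (c (b (nat_lit 0xfe4ae01)) e
 (c (b (nat_lit 0xfe1bc01)) e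
 (c (b (nat_lit 0xfe10603)) e
 (c (b (nat_lit 0xff48003)) e
 (c (b (nat_lit 0xfe67203)) e
 (c z e
 (c (b (nat_lit 0xfed0c07)) e
 (c z e
 (c z e
 (c z e
 (c z e
 (c z e
 (c z e
 (c (b (nat_lit 0x100a820f)) e
 (c z e
 (c z e
 (c (b (nat_lit 0xffdbc1b)) e
 (c z e
 (c (nat_lit 0x80000800008000080000800007fff8800002961b) e e))))))))))))))))))))))))) tt66))))) Tr.c Tr.e (nat_lit 0) C.t6 C.t7
noncomputable def tt68 : Tr := beta% (fun (c : Nat → Tr → Tr → Tr) (e : Tr) (z : Nat) (a b d : Nat → Nat) =>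
 (c (nat_lit 0x7f03a7f03a7f0377f0377f03aab1c0) tt67
 (c (a (nat_lit 0xfe01800))
 (c (b (nat_lit 0x101ff400))
 (c (d (nat_lit 0xfdfa200)) e
 (c (d (nat_lit 0xfe35000)) e
 (c (d (nat_lit 0xfe16400)) e
 (c (d (nat_lit 0xfe22c00)) e
 (c (d (nat_lit 0xfe13e00)) e
 (c (d (nat_lit 0xfe11000)) e
 (c (d (nat_lit 0xfe07600)) e
 (c (d (nat_lit 0xfe08c01)) e
 (c (d (nat_lit 0xfe09201)) e
 (c (d (nat_lit 0xfe0ac01)) e
 (c (d (nat_lit 0xfdfa201)) e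
 (c (nat_lit 0x7f0fe7f0fe7f0fe7f0fe7f0fe7f0f27f0f381483) e
 (c (d (nat_lit 0xfe25603)) e
 (c (d (nat_lit 0xfdb3003)) e
 (c (d (nat_lit 0xfbe8003)) e
 (c (d (nat_lit 0x102f1a07)) e
 (c (d (nat_lit 0xfff9407)) e
 (c (d (nat_lit 0xff0ae07)) e
 (c (d (nat_lit 0xff5a607)) e
 (c (d (nat_lit 0xff7440b)) e
 (c (d (nat_lit 0xfe9f40b)) e
 (c z e
 (c z e
 (c z e
 (c (d (nat_lit 0xfd9580f)) e
 (c z e
 (c z e
 (c z e
 (c (nat_lit 0x8000080000800007ff9d800008000080000ddfb3) e e))))))))))))))))))))))))))))) tt65)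
 (c (a (nat_lit 0xfe00600)) tt64
 (c (a (nat_lit 0xfe02800)) tt63
 (c (a (nat_lit 0xfe01600)) tt62
 (c (a (nat_lit 0xfe01200)) tt61
 (c (nat_lit 0x7f0137f0127f0127f0127f013ce880)
 (c (b (nat_lit 0x101f5600))
 (c z e
 (c z e
 (c z e
 (c z e
 (c z e
 (c z e
 (c z e
 (c z e
 (c z e
 (c z e
 (c z e
 (c (d (nat_lit 0x102a4613)) e
 (c (d (nat_lit 0xffffa19)) e e)))))))))))))
 (c (b (nat_lit 0x101f4e00)) e
 (c (b (nat_lit 0x101f4a00)) e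
 (c (b (nat_lit 0x101fd200)) e
 (c (b (nat_lit 0x101fd001)) e
 (c (b (nat_lit 0x101f9001)) e
 (c (b (nat_lit 0x10200c01)) e
 (c (b (nat_lit 0x100a6a01)) e
 (c z e
 (c z e
 (c z e
 (c z e
 (c (b (nat_lit 0x10057a07)) e
 (c (b (nat_lit 0x10032a07)) e
 (c z e
 (c z e
 (c z e
 (c z e
 (c (b (nat_lit 0x1008c20f)) e
 (c z e
 (c z e
 (c (b (nat_lit 0x101b360f)) e e))))))))))))))))))))))
 (c (a (nat_lit 0xfe00c00))
 (c (b (nat_lit 0x10128800)) e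
 (c (b (nat_lit 0x101f7600)) e
 (c (b (nat_lit 0x101fbc01)) e
 (c (b (nat_lit 0x101f9001)) e
 (c (nat_lit 0x8101a8101a8101a8100281002810024bb41) e
 (c (b (nat_lit 0x101fcc01)) e
 (c (b (nat_lit 0x100d2e03)) e
 (c z e
 (c z e
 (c z e
 (c z e
 (c z e
 (c z e
 (c z e
 (c z e
 (c z e
 (c (b (nat_lit 0x1014aa0f)) e
 (c (b (nat_lit 0x1009420f)) e
 (c z e
 (c (b (nat_lit 0x1008800f)) e
 (c z e
 (c z e
 (c (b (nat_lit 0xfef0813)) e e)))))))))))))))))))))))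
 (c (a (nat_lit 0xfe01a00))
 (c (b (nat_lit 0x100f3c01))
 (c z e
 (c z e
 (c (d (nat_lit 0xffff80f)) e e)))
 (c (b (nat_lit 0x101f9a01)) e
 (c (b (nat_lit 0x101f5c01)) e
 (c z e
 (c (b (nat_lit 0x1006e803)) e
 (c (b (nat_lit 0x100f1e03)) e
 (c z e
 (c (b (nat_lit 0x10030003)) e
 (c z e
 (c (b (nat_lit 0xfed0e07)) e
 (c (b (nat_lit 0xfdc2e07)) e
 (c z e
 (c z e
 (c z e
 (c (b (nat_lit 0x100b3a0f)) e
 (c z e
 (c z e
 (c z e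
 (c (b (nat_lit 0x100d7c13)) e
 (c (b (nat_lit 0x100f9813)) e
 (c (b (nat_lit 0x100adc13)) e
 (c (b (nat_lit 0x1006ac13)) e e)))))))))))))))))))))) tt60)))))))))) Tr.c Tr.e (nat_lit 0) C.t5 C.t6 C.t7
noncomputable def tt69 : Tr := beta% (fun (c : Nat → Tr → Tr → Tr) (e : Tr) (z : Nat) (a b d f : Nat → Nat) =>
 (c (a (nat_lit 0x101ff400)) tt68
 (c (a (nat_lit 0x10200200)) tt59
 (c (nat_lit 0x80ff080ff080ff180ff0b7c00)
 (c (b (nat_lit 0xfe00400)) tt51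
 (c (b (nat_lit 0xfe03e00)) tt50
 (c (b (nat_lit 0xfe05200))
 (c (d (nat_lit 0x101ece00))
 (c (f (nat_lit 0xfc54c03)) e
 (c (f (nat_lit 0xfbf7803)) e e))
 (c (d (nat_lit 0x101f4800))
 (c (f (nat_lit 0xf04a203)) e
 (c z e
 (c z e
 (c z e
 (c z e
 (c z e
 (c z e
 (c z e
 (c z e
 (c z e
 (c z e
 (c (f (nat_lit 0xfffe00f)) e
 (c (f (nat_lit 0x10248a0f)) e
 (c z e
 (c z e
 (c z e
 (c (f (nat_lit 0xffefc27)) e e)))))))))))))))))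
 (c (d (nat_lit 0x101f5400)) e
 (c (d (nat_lit 0x101f3e00)) e
 (c (d (nat_lit 0x101ea000))
 (c z e
 (c z e
 (c z e
 (c z e
 (c (f (nat_lit 0xffbf40f)) e e)))))
 (c (d (nat_lit 0x101efe00)) e
 (c (d (nat_lit 0x101fc601)) e
 (c (d (nat_lit 0x101f1a01)) e
 (c (d (nat_lit 0x101ab001)) e
 (c (d (nat_lit 0x1014b401)) e
 (c (d (nat_lit 0x101c9403)) e
 (c (d (nat_lit 0x1011fa03)) e
 (c z e
 (c z e
 (c z e
 (c (d (nat_lit 0x1008e807)) e e))))))))))))))))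
 (c (b (nat_lit 0xfe02a00)) tt49
 (c (b (nat_lit 0xfe02c00)) tt48 tt47)))))
 (c (a (nat_lit 0x101ff000)) tt46
 (c (a (nat_lit 0x101fec00))
 (c (b (nat_lit 0xfe03000)) tt42
 (c (b (nat_lit 0xfdfe600)) tt41 tt40))
 (c (a (nat_lit 0x10200800))
 (c (b (nat_lit 0xfdfb000)) tt39 tt38)
 (c (nat_lit 0x80ff780ff880ff880ff705a60) tt37
 (c (a (nat_lit 0x101ffc00)) tt36
 (c (a (nat_lit 0x101fe600)) tt35
 (c (a (nat_lit 0x101fe800)) tt34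
 (c (nat_lit 0x80ff780ff880ff880ff7a4350)
 (c (nat_lit 0x7f01c7f01a7f01a7f01a7f01c082e0)
 (c (d (nat_lit 0x10082c08)) e
 (c (d (nat_lit 0x10094808)) e
 (c (nat_lit 0x80c2a80bb680bdb80bef80bd180b5332bc9) e
 (c (d (nat_lit 0x1016d209)) e
 (c (nat_lit 0x80bd580bd580bb680bb680baf80bd55f309) e
 (c (nat_lit 0x7ffed7fed6800008000080000800008f749) e e))))))
 (c (b (nat_lit 0xfe05800))
 (c (d (nat_lit 0x1015ae09)) e
 (c (nat_lit 0x80bf180bf180bac80bcf80bb180bbcaa209) e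
 (c (nat_lit 0x80c1080c1080c1080bf580c1080c030f889) e
 (c (nat_lit 0x80bb480bb480bb480bb480b3780b58c6689) e
 (c (nat_lit 0x81687813cc816878168781687816870b851) e
 (c (d (nat_lit 0x10431420)) e
 (c (d (nat_lit 0x103b5a20)) e e)))))))
 (c (b (nat_lit 0xfe02201))
 (c (nat_lit 0x80bca80bca80bca80b8380bca80bca0c609) e
 (c (d (nat_lit 0x10277c09)) e
 (c (nat_lit 0x80ca980ca980ca980ca980b1a80b1a66ad1) e
 (c (d (nat_lit 0x1037bc11)) e e))))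
 (c (nat_lit 0x7f02e7f02e7f01a7f01a7f01b34e61)
 (c (d (nat_lit 0x10198411)) e
 (c (d (nat_lit 0x1027f811)) e
 (c (d (nat_lit 0x10301a11)) e e)))
 (c (b (nat_lit 0xfdfcc01)) e
 (c (b (nat_lit 0xfd1e401)) e
 (c (nat_lit 0x7e9067e8957e9067e9067e9061f023) e
 (c (nat_lit 0x7e89d7e89d7e88d7e89d7e89d839a3) e
 (c (b (nat_lit 0x105ad803)) e
 (c z e
 (c (b (nat_lit 0xff17007)) e
 (c (nat_lit 0x7fa9d7fa9d7fa8a7fa9d7fa9de1f27) e
 (c (b (nat_lit 0xff95207)) e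
 (c (b (nat_lit 0xfe95407)) e
 (c (b (nat_lit 0xff06808)) e
 (c (b (nat_lit 0xff07e08)) e
 (c (b (nat_lit 0xff03a08)) e
 (c (nat_lit 0x7fbcb7fbca7fbd77fbce7fba3fc468) e
 (c (nat_lit 0x7fc097fbce7fbcd7fbe17fc09d1609) e
 (c (b (nat_lit 0xff86809)) e
 (c (nat_lit 0x7fd0d7fd0d7fcee7fcea7fce849409) e
 (c (b (nat_lit 0xffc7c09)) e
 (c (nat_lit 0x8000080000800007fe967fe96c6a69) e
 (c (nat_lit 0x8000080000800007ffce7ffce5484b) e e)))))))))))))))))))))))) tt33)))))))))))) Tr.c Tr.e (nat_lit 0) C.t4 C.t5 C.t6 C.t7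
noncomputable def tt70 : Tr := beta% (fun (c : Nat → Tr → Tr → Tr) (e : Tr) (a : Nat → Nat) =>
 (c (a (nat_lit 0x101fe200)) tt32 tt69)) Tr.c Tr.e C.t4
noncomputable def tt71 : Tr := beta% (fun (c : Nat → Tr → Tr → Tr) (e : Tr) (a : Nat → Nat) =>
 (c (a (nat_lit 0x101fd800)) tt17 tt70)) Tr.c Tr.e C.t4
noncomputable def tt72 : Tr := beta% (fun (c : Nat → Tr → Tr → Tr) (e : Tr) (z : Nat) (a b d : Nat → Nat) =>
 (c (nat_lit 0x7f0357f0327f0327f0327f034be740)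
 (c (b (nat_lit 0x101ecc01)) e
 (c z
 (c z e
 (c z e
 (c (d (nat_lit 0xfe75213)) e e)))
 (c (b (nat_lit 0x1032e203)) e
 (c (b (nat_lit 0x1003f603)) e
 (c z e
 (c z e
 (c (b (nat_lit 0xf84b805)) e
 (c z e
 (c z e
 (c z e
 (c (b (nat_lit 0x10898407)) e
 (c (b (nat_lit 0x1019a40d)) e
 (c (b (nat_lit 0x1028ec0f)) e
 (c z e
 (c z e
 (c (b (nat_lit 0x10171c0f)) e
 (c (b (nat_lit 0x10195a11)) e
 (c (nat_lit 0x815c7815b2815c7815c7815c7815c71a653) e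
 (c (b (nat_lit 0x10296213)) e
 (c (nat_lit 0x811a7811a7811a78113c8113c811a72c193) e
 (c (nat_lit 0x811ba811ba811ba80def80def811ba00f13) e e)))))))))))))))))))))
 (c (a (nat_lit 0xfe01e00))
 (c z
 (c (d (nat_lit 0xfc3ee14)) e
 (c (d (nat_lit 0xfd54244)) e e))
 (c z
 (c (nat_lit 0x8000080000800007ff8b800008000080000f6424) e e)
 (c z e
 (c (b (nat_lit 0x101ebc03)) e
 (c (b (nat_lit 0x10862005)) e
 (c (b (nat_lit 0x10235807)) e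
 (c (b (nat_lit 0xfdc1607)) e
 (c z e
 (c z e
 (c (b (nat_lit 0xffc9e0d)) e
 (c (b (nat_lit 0x1005fa0f)) e
 (c z e
 (c z e
 (c (nat_lit 0x800007ff4580000800008000080000744cf) e
 (c (b (nat_lit 0x100a2811)) e
 (c (b (nat_lit 0x10087011)) e
 (c (nat_lit 0x80495804358049580495804958049566354) e e)))))))))))))))))
 (c (a (nat_lit 0xfe04600))
 (c z e
 (c (b (nat_lit 0x10285803)) e
 (c (b (nat_lit 0x10527605)) e
 (c z e
 (c (nat_lit 0x835c3835c3834ed835c3835c3835c3c4747) e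
 (c (b (nat_lit 0xfe43807)) e
 (c (b (nat_lit 0x1022e007)) e
 (c (b (nat_lit 0xff8560d)) e
 (c z e
 (c (b (nat_lit 0x100a3a0f)) e
 (c z e
 (c (b (nat_lit 0xfffca0f)) e
 (c (b (nat_lit 0x1005ba11)) e
 (c (b (nat_lit 0x100c2411)) e
 (c (b (nat_lit 0x100b6c11)) e
 (c (b (nat_lit 0x10013414)) e e))))))))))))))))
 (c (a (nat_lit 0xfe03e00))
 (c (b (nat_lit 0x105ada05)) e
 (c (nat_lit 0x816fd816fd8155e816fd816fd816fd39707) e
 (c z e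
 (c z e
 (c z e
 (c (b (nat_lit 0x105ab40d)) e
 (c (b (nat_lit 0x101e3a0f)) e
 (c (b (nat_lit 0xffff40f)) e
 (c z e
 (c (nat_lit 0x80000800007ffde80000800008000055c8f) e
 (c (nat_lit 0x800007ff8a800007ffb88000080000e0dd1) e
 (c (b (nat_lit 0x100ae811)) e
 (c (b (nat_lit 0x100cb811)) e
 (c (nat_lit 0x804ac804ac804ac804ac803ea804ac86811) e
 (c (b (nat_lit 0x1002a014)) e
 (c z e
 (c z e
 (c z e
 (c z e
 (c (nat_lit 0x80000800008000080000800007fee3ca253) e e))))))))))))))))))))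
 (c (a (nat_lit 0xfe02000))
 (c (nat_lit 0x82150821508215082102821508215065447) e
 (c z e
 (c (b (nat_lit 0xfff1607)) e
 (c (b (nat_lit 0xfa6900d)) e
 (c (nat_lit 0x845b8845b8843ee845b8845b8845b83f7cf) e
 (c z e
 (c z e
 (c (b (nat_lit 0xff6fc0f)) e
 (c (nat_lit 0x7ffee800008000080000800008000056a50) e
 (c (b (nat_lit 0x101aa011)) e
 (c (b (nat_lit 0x101d6011)) e
 (c (nat_lit 0x8015380153801538013480134801532d991) e e))))))))))))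
 (c (nat_lit 0x7f04d7f04c7f04c7f04c7f04c73ba0)
 (c z e
 (c (nat_lit 0x800008000080000800007ff288000005c47) e
 (c z e
 (c z e
 (c z e
 (c (nat_lit 0x7fcc77fc8d7fd1b7fd877fd877fd874eccf) e
 (c z e
 (c (nat_lit 0x800398007f8010f8010f8010f8010f99310) e e))))))))
 (c (a (nat_lit 0xfe02000))
 (c (nat_lit 0x8000080000800007fdbe800008000070dcf) e
 (c z e
 (c z e
 (c (b (nat_lit 0xff8dc0f)) e
 (c (b (nat_lit 0x102afa10)) e
 (c (nat_lit 0x814ee8153981539815398153981539ce350) e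
 (c (b (nat_lit 0x10170210)) e
 (c (nat_lit 0x800008000080fa780fa780fa780fa77fe50) e
 (c (nat_lit 0x80000800008000080bfa80bfa80bfaf66d0) e e)))))))))
 (c (a (nat_lit 0xfe03200))
 (c z e
 (c (nat_lit 0x7d4527d4527d4527d4127d2fa7d2fa9cb8f) e
 (c (b (nat_lit 0x10bd1c10)) e
 (c (b (nat_lit 0x102af810)) e
 (c (nat_lit 0x804578044b80457804578045780457cc610) e
 (c (nat_lit 0x80ff580ff580fe880ff380ff580ff534790) e
 (c (nat_lit 0x800008000080fd880fd880fd880fd8e44d0) e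
 (c (nat_lit 0x80000800008000080f4080f4080f401ec90) e e))))))))
 (c (a (nat_lit 0xfe00000))
 (c (b (nat_lit 0x11002010)) e
 (c (b (nat_lit 0x10232410)) e
 (c (b (nat_lit 0x1016e010)) e
 (c (b (nat_lit 0x10189810)) e
 (c (b (nat_lit 0x10190a10)) e
 (c (nat_lit 0x800008000080f0680f0680f0680f063bb50) e
 (c (nat_lit 0x8000080000800008116781167811673ee90) e e)))))))
 (c (a (nat_lit 0xfe01e00)) e
 (c (a (nat_lit 0xfe01200)) e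
 (c (a (nat_lit 0xfdff800)) e
 (c (a (nat_lit 0xfe06000)) e
 (c (a (nat_lit 0xfe04801)) e
 (c (a (nat_lit 0xfe05e01)) e
 (c (a (nat_lit 0xfe03401)) e
 (c (a (nat_lit 0xfdfc001)) e
 (c (a (nat_lit 0xfe33a03)) e
 (c (a (nat_lit 0xfe31a03)) e
 (c (a (nat_lit 0xfe8f203)) e
 (c z e
 (c (a (nat_lit 0xfff2405)) e
 (c (a (nat_lit 0xfee3607)) e
 (c (nat_lit 0x7f9777f9777f9777f96b7f97734387) e
 (c (a (nat_lit 0x10033007)) e
 (c z e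
 (c (a (nat_lit 0xffc200d)) e
 (c (nat_lit 0x7fc347fbae7fbbb7fc347fc34d38ef) e
 (c z e
 (c z e
 (c (a (nat_lit 0xfd3bc0f)) e e)))))))))))))))))))))))))))))))) Tr.c Tr.e (nat_lit 0) C.t5 C.t6 C.t7
noncomputable def tt73 : Tr := beta% (fun (c : Nat → Tr → Tr → Tr) (e : Tr) (z : Nat) (a b : Nat → Nat) =>
 (c (a (nat_lit 0x101f1600))
 (c (b (nat_lit 0xfa45c05)) e
 (c z e
 (c (nat_lit 0x7ff3f8000080000800008000080000800000a107) e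
 (c z e
 (c z e
 (c z e
 (c z e
 (c z e
 (c z e
 (c z e
 (c (b (nat_lit 0x1075ce13)) e
 (c (b (nat_lit 0x10319a13)) e
 (c (b (nat_lit 0xfffb815)) e e)))))))))))))
 (c (a (nat_lit 0x101f0000))
 (c (b (nat_lit 0xfcb9c07)) e
 (c (b (nat_lit 0x10265607)) e
 (c z e
 (c (nat_lit 0x800007ff9680000800008000080000800005dc0d) e
 (c (nat_lit 0x7dd1d7dd1d7dd1d7db997dd1d7dd1d7dd1d5fd8f) e
 (c (b (nat_lit 0x1012d80f)) e
 (c z e
 (c z e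
 (c z e
 (c (b (nat_lit 0x1018da13)) e
 (c z e
 (c z e
 (c (b (nat_lit 0xffea82c)) e
 (c (nat_lit 0x800008000080000800007ff6d80000800006932c) e e))))))))))))))
 (c (a (nat_lit 0x101f1000))
 (c z e
 (c z e
 (c (b (nat_lit 0xffd860f)) e e)))
 (c (a (nat_lit 0x101f0800)) e
 (c (a (nat_lit 0x101f8601))
 (c z e
 (c (b (nat_lit 0x100ac00f)) e e))
 (c (a (nat_lit 0x101eb001))
 (c z e
 (c z e
 (c z e
 (c (b (nat_lit 0xfdf601c)) e e))))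
 (c (a (nat_lit 0x101f0601))
 (c (nat_lit 0x80000800007ff278000080000800008000018195) e
 (c (b (nat_lit 0xff09e1c)) e e))
 (c z e
 (c z e
 (c z e
 (c z e
 (c (a (nat_lit 0x1061b603)) e
 (c (a (nat_lit 0x100db005)) e
 (c z e
 (c z e
 (c (a (nat_lit 0xfe36e07)) e
 (c z e
 (c (a (nat_lit 0x100e3e0d)) e
 (c (a (nat_lit 0x10214e0f)) e
 (c (a (nat_lit 0x100e1e0f)) e
 (c (nat_lit 0x800007ff4380000800008000080000b05cf) e
 (c (a (nat_lit 0x10124e0f)) e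
 (c (a (nat_lit 0x10136e13)) e
 (c (a (nat_lit 0x1010f213)) e
 (c (nat_lit 0x7ffce800008000080000800008000060395) e
 (c (nat_lit 0x804da804da804cd804da804da804dab485c) e e))))))))))))))))))))))))))) Tr.c Tr.e (nat_lit 0) C.t6 C.t7
noncomputable def tt74 : Tr := beta% (fun (c : Nat → Tr → Tr → Tr) (e : Tr) (z : Nat) (a b : Nat → Nat) =>
 (c (a (nat_lit 0x101e8400))
 (c (b (nat_lit 0xfdd2003)) e
 (c (b (nat_lit 0xfd70003)) e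
 (c z e
 (c (b (nat_lit 0xfdf8c05)) e
 (c z e
 (c (b (nat_lit 0xff84207)) e
 (c z e
 (c z e
 (c z e
 (c z e
 (c z e
 (c z e
 (c z e
 (c z e
 (c z e
 (c z e
 (c (b (nat_lit 0xff18c30)) e e)))))))))))))))))
 (c (a (nat_lit 0x101f3a00))
 (c (b (nat_lit 0xf0ccc03)) e
 (c z e
 (c z e
 (c z e
 (c z e
 (c z e
 (c z e
 (c (b (nat_lit 0x102cea0f)) e
 (c z e
 (c z e
 (c z e
 (c z e
 (c (b (nat_lit 0x1069d015)) e
 (c (b (nat_lit 0xffffa1c)) e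
 (c (b (nat_lit 0xfd5342c)) e
 (c (nat_lit 0x800008000080000800007fff68000080000d4a17) e
 (c z e
 (c z e
 (c (nat_lit 0x8000080000800008000080000800007f78c52a17) e e)))))))))))))))))))
 (c (a (nat_lit 0x101f0200)) e
 (c (a (nat_lit 0x101f1600)) e
 (c (a (nat_lit 0x101f1400)) e
 (c (a (nat_lit 0x101f9000)) e
 (c (a (nat_lit 0x101fb401)) e
 (c (a (nat_lit 0x101fa601)) e
 (c (a (nat_lit 0x101d4c01)) e
 (c (a (nat_lit 0x1018d201)) e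
 (c z e
 (c z e
 (c z e
 (c (a (nat_lit 0x10023203)) e
 (c z e
 (c (a (nat_lit 0xff89407)) e
 (c (a (nat_lit 0xfe20207)) e
 (c (a (nat_lit 0xff36c07)) e
 (c (a (nat_lit 0xffd1607)) e
 (c (a (nat_lit 0x100aa80d)) e
 (c (a (nat_lit 0x1007b80f)) e
 (c (a (nat_lit 0x1002d00f)) e
 (c (a (nat_lit 0x1005760f)) e
 (c (a (nat_lit 0x1018d80f)) e
 (c (a (nat_lit 0x10150a13)) e
 (c z e
 (c (nat_lit 0x80a1b809b680a1b80a1b80a1b80a1ba421c) e e)))))))))))))))))))))))))))) Tr.c Tr.e (nat_lit 0) C.t6 C.t7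
noncomputable def tt75 : Tr := beta% (fun (c : Nat → Tr → Tr → Tr) (e : Tr) (z : Nat) (a b : Nat → Nat) =>
 (c (a (nat_lit 0x101ecc00))
 (c (b (nat_lit 0xfcdb201)) e
 (c (b (nat_lit 0xfc6ac01)) e
 (c (b (nat_lit 0xf4b1003)) e
 (c (b (nat_lit 0xfd81603)) e
 (c (nat_lit 0x7ec897ec897ec897ebc27ec897ec897ec895ba83) e
 (c (b (nat_lit 0xfd58c03)) e
 (c z e
 (c (b (nat_lit 0xfe32807)) e
 (c z e
 (c (nat_lit 0x80000800007fea180000800008000080000daa87) e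
 (c z e
 (c (b (nat_lit 0x1021060d)) e
 (c (b (nat_lit 0xfbeae0f)) e
 (c (b (nat_lit 0x103fa20f)) e
 (c (b (nat_lit 0xfff9a0f)) e
 (c z e
 (c (b (nat_lit 0xffff415)) e
 (c (b (nat_lit 0xfdc0a17)) e
 (c (b (nat_lit 0xff5e017)) e
 (c (b (nat_lit 0xffee817)) e e))))))))))))))))))))
 (c (a (nat_lit 0x101eee00))
 (c (b (nat_lit 0xfddf803)) e
 (c z e
 (c z e
 (c z e
 (c z e
 (c z e
 (c z e
 (c z e
 (c z e
 (c z e
 (c z e
 (c z e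
 (c z e
 (c z e
 (c z e
 (c (b (nat_lit 0xffed217)) e
 (c (nat_lit 0x80000800007fff180000800008000080000ac817) e
 (c (b (nat_lit 0xfff5817)) e
 (c (nat_lit 0x800008000080000800007ffff800008000002517) e e)))))))))))))))))))
 (c (a (nat_lit 0x101ef200))
 (c (b (nat_lit 0xfb3c403)) e
 (c z e
 (c z e
 (c z e
 (c z e
 (c z e
 (c z e
 (c z e
 (c z e
 (c z e
 (c z e
 (c z e
 (c z e
 (c (b (nat_lit 0xfff7017)) e e))))))))))))))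
 (c (a (nat_lit 0x101eec00))
 (c z e
 (c z e
 (c z e
 (c z e
 (c z e
 (c z e
 (c (b (nat_lit 0xf9ec80f)) e
 (c z e
 (c z e
 (c z e
 (c (b (nat_lit 0x10499415)) e
 (c z e
 (c (b (nat_lit 0x10097017)) e e)))))))))))))
 (c (a (nat_lit 0x101ee000))
 (c (nat_lit 0x800007ff9a800008000080000800008000050d07) e
 (c z e
 (c z e
 (c z e
 (c (b (nat_lit 0xfce2e0f)) e
 (c (b (nat_lit 0xf6ff40f)) e
 (c z e
 (c z e
 (c z e
 (c (b (nat_lit 0xfc6fe17)) e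
 (c (b (nat_lit 0xfb4de17)) e e)))))))))))
 (c (a (nat_lit 0x101ee200)) e
 (c (a (nat_lit 0x101fde00))
 (c (nat_lit 0x7dd237dcc57dd237dd237dd237dd237dd2344d8f) e
 (c (nat_lit 0x80000800007ffcc800008000080000800008ce0f) e
 (c z e
 (c z e
 (c z e
 (c z e
 (c z e
 (c z e
 (c (b (nat_lit 0xffc6817)) e e)))))))))
 (c (a (nat_lit 0x101ec200))
 (c (nat_lit 0x8000080000800007ffe77ff6480000800001488f) e e)
 (c (nat_lit 0x80fd080fcc80fcc80fcc80fcc80fce75cc1) e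
 (c (a (nat_lit 0x101ee601))
 (c (b (nat_lit 0xfb05c17)) e e)
 (c (nat_lit 0x81003810038100380fd880fd880fd879c01) e
 (c z e
 (c z e
 (c (a (nat_lit 0x100a2a03)) e
 (c (a (nat_lit 0x1029b203)) e
 (c (a (nat_lit 0x101f8a03)) e
 (c (a (nat_lit 0x1007b005)) e
 (c (a (nat_lit 0x100df607)) e
 (c (a (nat_lit 0x10039407)) e
 (c (a (nat_lit 0xff67c07)) e
 (c (a (nat_lit 0xff9c407)) e
 (c z e
 (c (a (nat_lit 0x100cda0f)) e
 (c (nat_lit 0x8060580605805e78056c8060580605bc20f) e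
 (c z e
 (c z e
 (c (a (nat_lit 0x10071e15)) e
 (c (nat_lit 0x808b6808ad808b6808b6808b6808b67abd7) e
 (c (nat_lit 0x807ee807ee8079e807ba807ee807ee79497) e
 (c (a (nat_lit 0xff4b617)) e e))))))))))))))))))))))))))))))) Tr.c Tr.e (nat_lit 0) C.t6 C.t7
noncomputable def tt76 : Tr := beta% (fun (c : Nat → Tr → Tr → Tr) (e : Tr) (z : Nat) (a b : Nat → Nat) =>
 (c (a (nat_lit 0x101f1e00))
 (c (b (nat_lit 0xfe3a201)) e
 (c (b (nat_lit 0xfe32601)) e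
 (c (b (nat_lit 0xfe2e401)) e
 (c (b (nat_lit 0xfe30403)) e
 (c (b (nat_lit 0xfd8ba03)) e
 (c (b (nat_lit 0xfdc7003)) e
 (c z e
 (c (b (nat_lit 0xff0ba05)) e
 (c (b (nat_lit 0xfd61807)) e
 (c (b (nat_lit 0xfc2d807)) e
 (c z e
 (c z e
 (c z e
 (c z e
 (c (b (nat_lit 0x103f260f)) e
 (c z e
 (c (b (nat_lit 0x100cea0f)) e
 (c (b (nat_lit 0x10246417)) e
 (c (b (nat_lit 0x10125e17)) e
 (c (b (nat_lit 0x101e1817)) e
 (c (nat_lit 0x800008000080000800007ffa47ff568000089817) e e)))))))))))))))))))))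
 (c (a (nat_lit 0x101f2400))
 (c (b (nat_lit 0xfe35e01)) e
 (c (b (nat_lit 0xfb8d003)) e
 (c z e
 (c (b (nat_lit 0xff25e03)) e
 (c z e
 (c z e
 (c z e
 (c z e
 (c z e
 (c z e
 (c z e
 (c z e
 (c z e
 (c z e
 (c z e
 (c (b (nat_lit 0x100e3417)) e
 (c (b (nat_lit 0x1023e017)) e e)))))))))))))))))
 (c (a (nat_lit 0x101f4800))
 (c (b (nat_lit 0xfdfaa03)) e
 (c (b (nat_lit 0xfd0a003)) e
 (c z e
 (c z e
 (c z e
 (c (nat_lit 0x7fd147fd147fd147fd067fd147fd147fd1454487) e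
 (c z e
 (c z e
 (c z e
 (c z e
 (c z e
 (c z e
 (c z e
 (c (b (nat_lit 0xff55e17)) e
 (c (b (nat_lit 0xfe4fa17)) e
 (c (b (nat_lit 0xfff6417)) e e))))))))))))))))
 (c (a (nat_lit 0x101eda00))
 (c z e
 (c z e
 (c z e
 (c (nat_lit 0x8000080000800007ff918000080000800004ce87) e
 (c (b (nat_lit 0xfd52a07)) e
 (c (b (nat_lit 0xffff407)) e
 (c (b (nat_lit 0xfeb060d)) e
 (c z e
 (c z e
 (c z e
 (c z e
 (c (nat_lit 0x7dd187dd187dd187dcd27dd187dd187dd18dd197) e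
 (c (b (nat_lit 0xfc40e17)) e
 (c (b (nat_lit 0xfdae217)) e e))))))))))))))
 (c (a (nat_lit 0x101f2000))
 (c (nat_lit 0x7ee017ee017ee017ee017ee017ee017e9e7b2287) e
 (c z e
 (c z e
 (c (b (nat_lit 0xfeeac07)) e
 (c (b (nat_lit 0xff10c0d)) e
 (c z e
 (c z e
 (c z e
 (c z e
 (c z e
 (c (b (nat_lit 0xfb39417)) e
 (c (b (nat_lit 0xfed3017)) e
 (c z e
 (c (b (nat_lit 0xffeec1d)) e e))))))))))))))
 (c (a (nat_lit 0x101f4200))
 (c z e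
 (c z e
 (c z e
 (c z e
 (c z e
 (c z e
 (c z e
 (c z e
 (c z e
 (c z e
 (c z e
 (c (b (nat_lit 0xfe09e1d)) e e))))))))))))
 (c (a (nat_lit 0x101f2000))
 (c z e
 (c (nat_lit 0x8000080000800007ffd78000080000800006cb8f) e
 (c (nat_lit 0x80553805538055380553803a680553805539be0f) e
 (c z e
 (c (b (nat_lit 0xfe1ae0f)) e
 (c z e
 (c (b (nat_lit 0x10294c17)) e
 (c z e
 (c z e
 (c (b (nat_lit 0xfeb6a1d)) e e))))))))))
 (c (a (nat_lit 0x101ff200))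
 (c (b (nat_lit 0xfdd740f)) e
 (c (b (nat_lit 0xffee00f)) e
 (c (b (nat_lit 0xfe1ce0f)) e
 (c z e
 (c z e
 (c z e
 (c z e
 (c (b (nat_lit 0xff8461d)) e e))))))))
 (c (a (nat_lit 0x101ee600))
 (c z e
 (c z e
 (c z e
 (c z e
 (c z e
 (c (b (nat_lit 0x1045a61d)) e e))))))
 (c (a (nat_lit 0x101f2001))
 (c z e
 (c z e
 (c (b (nat_lit 0x1058c017)) e e)))
 (c (a (nat_lit 0x101eb801)) e
 (c (nat_lit 0x80fe880fe880fe880fe280fe380fe535501) e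
 (c (a (nat_lit 0x1009e801)) e
 (c z e
 (c (a (nat_lit 0x1023fc03)) e
 (c (a (nat_lit 0x10234203)) e
 (c (a (nat_lit 0x1021f603)) e
 (c (a (nat_lit 0x100eee05)) e
 (c (a (nat_lit 0x1008b407)) e
 (c (a (nat_lit 0x1002b407)) e
 (c z e
 (c (a (nat_lit 0xffa0e07)) e
 (c (nat_lit 0x8084c8082a8084c8084c8084c8084ca6ecd) e
 (c (nat_lit 0x807cd807cd8076a807cd807cd807cd7bc0f) e
 (c (a (nat_lit 0x100eee0f)) e
 (c (a (nat_lit 0xffc780f)) e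
 (c z e
 (c (a (nat_lit 0x100f6817)) e
 (c (a (nat_lit 0x100c7217)) e
 (c (a (nat_lit 0xffef017)) e e))))))))))))))))))))))))))))))) Tr.c Tr.e (nat_lit 0) C.t6 C.t7
noncomputable def tt77 : Tr := beta% (fun (c : Nat → Tr → Tr → Tr) (e : Tr) (z : Nat) (a b : Nat → Nat) =>
 (c (a (nat_lit 0x101eb800))
 (c (b (nat_lit 0xfe0ae00)) e
 (c (b (nat_lit 0xfe3dc00)) e
 (c (b (nat_lit 0xfddea01)) e
 (c (b (nat_lit 0xfe2fc01)) e
 (c (b (nat_lit 0xfe49401)) e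
 (c (b (nat_lit 0xfe34201)) e
 (c (b (nat_lit 0xfc29803)) e
 (c (b (nat_lit 0xfddc203)) e
 (c (b (nat_lit 0xfd98c03)) e
 (c (b (nat_lit 0xfe6de03)) e
 (c (b (nat_lit 0xfff8205)) e
 (c (b (nat_lit 0x101ee207)) e
 (c (b (nat_lit 0xff56c07)) e
 (c z e
 (c z e
 (c z e
 (c (b (nat_lit 0xfd64a0f)) e
 (c (b (nat_lit 0x101b960f)) e
 (c z e
 (c (nat_lit 0x7ffff80000800008000080000800008000049f8f) e
 (c (b (nat_lit 0x100daa17)) e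
 (c (b (nat_lit 0x1010c417)) e
 (c (nat_lit 0x7ff458000080000800008000080000800005b397) e
 (c (nat_lit 0x800007ffa580000800008000080000800008c11d) e e))))))))))))))))))))))))
 (c (a (nat_lit 0x101e7c00))
 (c (b (nat_lit 0xfe4d201)) e
 (c (b (nat_lit 0xfe41601)) e
 (c (b (nat_lit 0xfe3d401)) e
 (c (b (nat_lit 0xfe45a01)) e
 (c (b (nat_lit 0xfe3ce03)) e
 (c (b (nat_lit 0xfd86e03)) e
 (c (b (nat_lit 0xff03e03)) e
 (c z e
 (c z e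
 (c z e
 (c z e
 (c (b (nat_lit 0x10484207)) e
 (c z e
 (c z e
 (c (b (nat_lit 0xfffdc0f)) e
 (c z e
 (c z e
 (c (b (nat_lit 0xffe6c0f)) e
 (c z e
 (c z e
 (c (nat_lit 0x7fec98000080000800008000080000800002e597) e
 (c (nat_lit 0x800007fc368000080000800008000080000a999d) e
 (c (b (nat_lit 0xffdce27)) e e)))))))))))))))))))))))
 (c (a (nat_lit 0x101ecc00))
 (c (b (nat_lit 0xfe40601)) e
 (c (b (nat_lit 0xfe34401)) e
 (c (b (nat_lit 0xfe3a003)) e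
 (c z e
 (c (b (nat_lit 0xff98803)) e
 (c z e
 (c z e
 (c z e
 (c z e
 (c z e
 (c z e
 (c z e
 (c z e
 (c z e
 (c z e
 (c (b (nat_lit 0x1002e40f)) e
 (c (b (nat_lit 0x1010fe17)) e
 (c (b (nat_lit 0xfff3817)) e
 (c z e
 (c (nat_lit 0x7fe2c80000800008000080000800008000004a9d) e
 (c (nat_lit 0x800007ffe68000080000800008000080000480b1) e e)))))))))))))))))))))
 (c (a (nat_lit 0x101ee200))
 (c (b (nat_lit 0xfa8e203)) e
 (c (b (nat_lit 0xfd9bc03)) e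
 (c z e
 (c z e
 (c z e
 (c z e
 (c z e
 (c z e
 (c z e
 (c z e
 (c z e
 (c z e
 (c (b (nat_lit 0xfffce0f)) e
 (c (b (nat_lit 0xffefe0f)) e
 (c z e
 (c (nat_lit 0x7ff6f80000800008000080000800008000035a17) e
 (c (nat_lit 0x7fc537ff0c800008000080000800008000033017) e
 (c (b (nat_lit 0xfff641d)) e e))))))))))))))))))
 (c (a (nat_lit 0x101e7600))
 (c (b (nat_lit 0xfff6003)) e
 (c z e
 (c z e
 (c z e
 (c (b (nat_lit 0xfea9e07)) e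
 (c z e
 (c z e
 (c z e
 (c (b (nat_lit 0xfdbbe0f)) e
 (c z e
 (c (b (nat_lit 0x1011580f)) e
 (c z e
 (c (nat_lit 0x8000080000800007ff9580000800008000098317) e
 (c z e
 (c z e
 (c z e
 (c (b (nat_lit 0xffed82c)) e e)))))))))))))))))
 (c (a (nat_lit 0x101f0e00)) e
 (c (a (nat_lit 0x101e7c00))
 (c z e
 (c (b (nat_lit 0x100f7c07)) e
 (c z e
 (c z e
 (c (b (nat_lit 0xfcafc0f)) e e)))))
 (c (a (nat_lit 0x101f5800))
 (c z e
 (c (b (nat_lit 0xfedce0d)) e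
 (c (nat_lit 0x800008000080000800007fe6e80000800003710d) e
 (c (b (nat_lit 0xffe880f)) e
 (c (b (nat_lit 0xfffec0f)) e
 (c (nat_lit 0x7eac57eac57e8fc7eac57eac57eac57eac5a7c8f) e
 (c (b (nat_lit 0x104f6817)) e
 (c (b (nat_lit 0x10261617)) e e))))))))
 (c (a (nat_lit 0x101eee00))
 (c (b (nat_lit 0xff2020f)) e
 (c z e
 (c z e
 (c (b (nat_lit 0x100ab20f)) e
 (c z e
 (c z e
 (c z e
 (c (b (nat_lit 0xff73c1d)) e e))))))))
 (c (a (nat_lit 0x101ef400)) e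
 (c (a (nat_lit 0x101f5800))
 (c (b (nat_lit 0xfff8c17)) e e)
 (c (a (nat_lit 0x101e5c01)) e
 (c (a (nat_lit 0x101f4801)) e
 (c (a (nat_lit 0x101f7e01)) e
 (c (a (nat_lit 0xfda8001)) e
 (c (a (nat_lit 0x1019e403)) e
 (c (a (nat_lit 0x10205a03)) e
 (c (a (nat_lit 0x10252003)) e
 (c (a (nat_lit 0x10143003)) e
 (c (a (nat_lit 0x100bd405)) e
 (c (a (nat_lit 0x1003ec07)) e
 (c (a (nat_lit 0x1000d007)) e
 (c (a (nat_lit 0xffa7e07)) e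
 (c (a (nat_lit 0xfd78c07)) e
 (c (a (nat_lit 0xffff80d)) e
 (c (nat_lit 0x8000080000800007ff8780000800005090f) e
 (c z e
 (c z e
 (c z e
 (c (a (nat_lit 0xfff9e17)) e
 (c (a (nat_lit 0xfffc617)) e
 (c z e
 (c (a (nat_lit 0xffec01d)) e e)))))))))))))))))))))))))))))))))) Tr.c Tr.e (nat_lit 0) C.t6 C.t7
noncomputable def tt78 : Tr := beta% (fun (c : Nat → Tr → Tr → Tr) (e : Tr) (z : Nat) (a b : Nat → Nat) =>
 (c (a (nat_lit 0x101f2200))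
 (c (b (nat_lit 0xfe29200)) e
 (c (b (nat_lit 0xfe36201)) e
 (c (b (nat_lit 0xfe2e401)) e
 (c (b (nat_lit 0xfe34a01)) e
 (c (b (nat_lit 0xfe37801)) e
 (c (b (nat_lit 0xfd92c03)) e
 (c (b (nat_lit 0xff4f603)) e
 (c (b (nat_lit 0xff5d003)) e
 (c z e
 (c z e
 (c z e
 (c z e
 (c z e
 (c z e
 (c z e
 (c (b (nat_lit 0xfffdc0f)) e
 (c z e
 (c (b (nat_lit 0xfff120f)) e
 (c z e
 (c (b (nat_lit 0xfff4417)) e
 (c z e
 (c (nat_lit 0x800007fcd980000800008000080000800001589d) e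
 (c (b (nat_lit 0xfff2827)) e e)))))))))))))))))))))))
 (c (a (nat_lit 0x101f1600))
 (c (b (nat_lit 0xfe34601)) e
 (c (b (nat_lit 0xfe2b201)) e
 (c (b (nat_lit 0xfe30c01)) e
 (c (b (nat_lit 0xfd7f003)) e
 (c z e
 (c (nat_lit 0x7f4e37f4e37f4e37f4e37f2177f4e37f4e31b003) e
 (c (b (nat_lit 0xffb8203)) e
 (c (b (nat_lit 0xfff2005)) e
 (c (b (nat_lit 0xffef207)) e
 (c (b (nat_lit 0xffea807)) e
 (c (b (nat_lit 0xfc86e07)) e
 (c z e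
 (c z e
 (c (b (nat_lit 0x1018300f)) e
 (c (b (nat_lit 0x10042e0f)) e
 (c (b (nat_lit 0xfff5e0f)) e
 (c z e
 (c z e
 (c z e
 (c (b (nat_lit 0xfff261d)) e
 (c (b (nat_lit 0x10120c31)) e e)))))))))))))))))))))
 (c (a (nat_lit 0x101f2a00))
 (c (b (nat_lit 0xfe25601)) e
 (c (b (nat_lit 0xfd91c03)) e
 (c z e
 (c (b (nat_lit 0xff94e03)) e
 (c (b (nat_lit 0xfe7c803)) e
 (c z e
 (c z e
 (c z e
 (c z e
 (c z e
 (c z e
 (c z e
 (c z e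
 (c z e
 (c z e
 (c z e
 (c (b (nat_lit 0xffdf217)) e
 (c z e
 (c (b (nat_lit 0xfed102c)) e e)))))))))))))))))))
 (c (a (nat_lit 0x101f1400))
 (c (b (nat_lit 0xfec7e03)) e
 (c z e
 (c z e
 (c z e
 (c z e
 (c (b (nat_lit 0xfff2e07)) e
 (c z e
 (c z e
 (c z e
 (c z e
 (c z e
 (c z e
 (c z e
 (c z e
 (c z e
 (c (b (nat_lit 0xfffb61d)) e e))))))))))))))))
 (c (a (nat_lit 0x101f2400))
 (c z e
 (c z e
 (c z e
 (c z e
 (c z e
 (c z e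
 (c (b (nat_lit 0x1027340d)) e
 (c z e
 (c z e
 (c z e
 (c z e
 (c z e
 (c z e
 (c z e
 (c (b (nat_lit 0xfffaa23)) e
 (c (b (nat_lit 0xffffa25)) e e))))))))))))))))
 (c (a (nat_lit 0x101ef800))
 (c z e
 (c z e
 (c (b (nat_lit 0x1015e607)) e
 (c z e
 (c z e
 (c (b (nat_lit 0x1025280f)) e
 (c z e
 (c (b (nat_lit 0x106fc20f)) e
 (c z e
 (c z e
 (c (b (nat_lit 0xff5a017)) e e)))))))))))
 (c (a (nat_lit 0x101f1e00))
 (c z e
 (c z e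
 (c z e
 (c z e
 (c z e
 (c z e
 (c z e
 (c z e
 (c (nat_lit 0x7ffe47ffe47ff907ffbc7ffe47ffe47ffe44c997) e
 (c (b (nat_lit 0xfffae1d)) e e))))))))))
 (c (a (nat_lit 0x101f2800))
 (c z e
 (c z e
 (c (b (nat_lit 0xfff500f)) e
 (c z e
 (c z e
 (c z e
 (c z e
 (c (b (nat_lit 0xfff601d)) e
 (c (b (nat_lit 0xfffb424)) e e)))))))))
 (c (a (nat_lit 0x101faa00)) e
 (c (a (nat_lit 0x101fce00)) e
 (c (a (nat_lit 0x101dc200)) e
 (c (a (nat_lit 0x101ffc01)) e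
 (c (a (nat_lit 0x101fa801)) e
 (c (a (nat_lit 0x101fe001))
 (c z e
 (c (nat_lit 0x80000800008000080000800007e8117e81182520) e
 (c (nat_lit 0x8000080000800008000080000800007fc1720ea0) e e)))
 (c (a (nat_lit 0x1019ec01)) e
 (c (a (nat_lit 0x101d9603)) e
 (c (a (nat_lit 0x101af203)) e
 (c (a (nat_lit 0x10181403)) e
 (c (a (nat_lit 0x1007c603)) e
 (c (a (nat_lit 0x100c5a05)) e
 (c (a (nat_lit 0x100ce407)) e
 (c (a (nat_lit 0x1004ce07)) e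
 (c z e
 (c (a (nat_lit 0xfd6e207)) e e))))))))))))))))))))))))) Tr.c Tr.e (nat_lit 0) C.t6 C.t7
noncomputable def tt79 : Tr := beta% (fun (c : Nat → Tr → Tr → Tr) (e : Tr) (z : Nat) (a b : Nat → Nat) =>
 (c (a (nat_lit 0x101fb200))
 (c (b (nat_lit 0xfe3d800)) e
 (c (b (nat_lit 0xfe41400)) e
 (c (b (nat_lit 0xfe7be00)) e
 (c (b (nat_lit 0xfe1ae00)) e
 (c (b (nat_lit 0xfe21400)) e
 (c (b (nat_lit 0xfe19c00)) e
 (c (b (nat_lit 0xfe17c00)) e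
 (c (b (nat_lit 0xfe24401)) e
 (c (b (nat_lit 0xfe21401)) e
 (c (b (nat_lit 0xfe22401)) e
 (c (b (nat_lit 0xfdd0601)) e
 (c (b (nat_lit 0xfdc2403)) e
 (c (b (nat_lit 0xfdd2603)) e
 (c (b (nat_lit 0xfedb203)) e
 (c (b (nat_lit 0xfc3ae03)) e
 (c z e
 (c (b (nat_lit 0xfde0407)) e
 (c (b (nat_lit 0xfd7b007)) e
 (c (b (nat_lit 0xfe5a807)) e
 (c (b (nat_lit 0xffbfc07)) e
 (c z e
 (c (b (nat_lit 0x10038a0f)) e
 (c (b (nat_lit 0x1006900f)) e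
 (c z e
 (c z e
 (c z e
 (c z e
 (c z e
 (c z e
 (c (nat_lit 0x800007f99b800008000080000800008000042735) e e))))))))))))))))))))))))))))))
 (c (a (nat_lit 0x101dbe00))
 (c (b (nat_lit 0xfe45a00)) e
 (c (b (nat_lit 0xfe5ae00)) e
 (c (b (nat_lit 0xfe4d600)) e
 (c (b (nat_lit 0xfe47200)) e
 (c (b (nat_lit 0xfe34600)) e
 (c (b (nat_lit 0xfe4a401)) e
 (c (b (nat_lit 0xfe49e01)) e
 (c (b (nat_lit 0xfe4b601)) e
 (c (b (nat_lit 0xfe3b401)) e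
 (c (nat_lit 0x7f28c7f28c7f28c7f28c7f28c7f23b7f23b86703) e
 (c (b (nat_lit 0xfe7ce03)) e
 (c (b (nat_lit 0xfe42a03)) e
 (c (b (nat_lit 0xfedfa03)) e
 (c (b (nat_lit 0xfd78005)) e
 (c z e
 (c z e
 (c z e
 (c z e
 (c z e
 (c z e
 (c z e
 (c z e
 (c z e
 (c (b (nat_lit 0xfff1e17)) e
 (c (b (nat_lit 0x1003c417)) e
 (c z e
 (c (b (nat_lit 0x100eb42d)) e e)))))))))))))))))))))))))))
 (c (a (nat_lit 0x101dbe00))
 (c (b (nat_lit 0xfe5a400)) e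
 (c (b (nat_lit 0xfe34000)) e
 (c (b (nat_lit 0xfe3ee00)) e
 (c (b (nat_lit 0xfe42201)) e
 (c (b (nat_lit 0xfe4ac01)) e
 (c (b (nat_lit 0xfe48601)) e
 (c (b (nat_lit 0xfe43a01)) e
 (c (b (nat_lit 0xfe30603)) e
 (c (b (nat_lit 0xfeb5803)) e
 (c (b (nat_lit 0xfe7bc03)) e
 (c (b (nat_lit 0xff32a03)) e
 (c z e
 (c z e
 (c z e
 (c z e
 (c (b (nat_lit 0x10097c07)) e
 (c z e
 (c z e
 (c z e
 (c z e
 (c (b (nat_lit 0xfffa20f)) e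
 (c (b (nat_lit 0x10032217)) e
 (c (nat_lit 0x801348030180301803018030180301803018fc17) e e))))))))))))))))))))))) tt78)))) Tr.c Tr.e (nat_lit 0) C.t6 C.t7
noncomputable def tt80 : Tr := beta% (fun (c : Nat → Tr → Tr → Tr) (e : Tr) (z : Nat) (a b : Nat → Nat) =>
 (c (a (nat_lit 0x101dda00))
 (c (b (nat_lit 0xfe50e00)) e
 (c (b (nat_lit 0xfe39600)) e
 (c (b (nat_lit 0xfe3a600)) e
 (c (b (nat_lit 0xfe36e00)) e
 (c (b (nat_lit 0xfe49001)) e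
 (c (b (nat_lit 0xfe43201)) e
 (c (b (nat_lit 0xfe32e01)) e
 (c (b (nat_lit 0xfe4ba01)) e
 (c (nat_lit 0x7f1b87f1b87f1b87f1b87f1b87f17b7f17e87203) e
 (c (b (nat_lit 0xfee4803)) e
 (c (b (nat_lit 0xfeaa003)) e
 (c (b (nat_lit 0xff76c03)) e
 (c (b (nat_lit 0xfd72405)) e
 (c z e
 (c z e
 (c z e
 (c z e
 (c (b (nat_lit 0xfff920d)) e
 (c z e
 (c (b (nat_lit 0x1004cc0f)) e
 (c z e
 (c z e
 (c (b (nat_lit 0x10036a17)) e
 (c (b (nat_lit 0x1003e21d)) e e))))))))))))))))))))))))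
 (c (a (nat_lit 0x101f5800))
 (c (b (nat_lit 0xfe22600)) e
 (c (b (nat_lit 0xfe2b000)) e
 (c (nat_lit 0x7f1ea7f1ea7f1ea7f1ea7f1e77f1e77f1e9d2381) e
 (c (b (nat_lit 0xfe2a401)) e
 (c (b (nat_lit 0xfe2da01)) e
 (c (nat_lit 0x7f2187f2187f2187f2187f1f57f1f57f1fb00681) e
 (c (b (nat_lit 0xfe11803)) e
 (c (b (nat_lit 0xfeb9e03)) e
 (c (b (nat_lit 0xfeeee03)) e
 (c z e
 (c z e
 (c z e
 (c z e
 (c z e
 (c z e
 (c z e
 (c (b (nat_lit 0xfffca0f)) e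
 (c z e
 (c (b (nat_lit 0xffea80f)) e
 (c (b (nat_lit 0xffff00f)) e
 (c (nat_lit 0x7fd458000080000800008000080000800001a397) e
 (c (nat_lit 0x7fd79800008000080000800008000080000f339d) e
 (c (nat_lit 0x800007fd5c80000800008000080000800001a5a7) e e)))))))))))))))))))))))
 (c (a (nat_lit 0x101f2200))
 (c (b (nat_lit 0xfe41001)) e
 (c (b (nat_lit 0xfdfa601)) e
 (c (b (nat_lit 0xfe2e001)) e
 (c (b (nat_lit 0xfe35401)) e
 (c (b (nat_lit 0xfdeb203)) e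
 (c (b (nat_lit 0xfe7c603)) e
 (c (b (nat_lit 0xfe91e03)) e
 (c z e
 (c z e
 (c z e
 (c (b (nat_lit 0xfff4c07)) e
 (c z e
 (c z e
 (c z e
 (c (b (nat_lit 0x1006320f)) e
 (c (b (nat_lit 0x1010d00f)) e
 (c (b (nat_lit 0xfffbc0f)) e
 (c (b (nat_lit 0xfffa40f)) e e))))))))))))))))))
 (c (a (nat_lit 0x101efa00))
 (c (b (nat_lit 0xfd3ba01)) e
 (c (nat_lit 0x7f1407ee4e7f1407f1407f1407f1407f1408d381) e
 (c (b (nat_lit 0xfccbc03)) e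
 (c z e
 (c (b (nat_lit 0xfe97003)) e
 (c (b (nat_lit 0xff0d603)) e
 (c z e
 (c (b (nat_lit 0xfefec07)) e
 (c z e
 (c z e
 (c z e
 (c z e
 (c z e
 (c (b (nat_lit 0x100ef20f)) e
 (c z e
 (c z e
 (c (b (nat_lit 0xffe8017)) e e)))))))))))))))))
 (c (a (nat_lit 0x101f2400))
 (c (nat_lit 0x7f6e47f6e47f6637f6e47f6e47f6e47f6e4c1d03) e
 (c z e
 (c z e
 (c (b (nat_lit 0xfed9403)) e
 (c z e
 (c (b (nat_lit 0xfffec07)) e e))))))
 (c (a (nat_lit 0x101f5800))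
 (c z e
 (c z e
 (c (b (nat_lit 0xfd6d605)) e
 (c z e
 (c z e
 (c (b (nat_lit 0x101e5c07)) e
 (c (b (nat_lit 0x10131e07)) e
 (c (b (nat_lit 0xffdca0d)) e
 (c z e
 (c z e
 (c z e
 (c z e
 (c (b (nat_lit 0xffec417)) e
 (c (b (nat_lit 0xff2b21d)) e
 (c (b (nat_lit 0xfffce23)) e e)))))))))))))))
 (c (a (nat_lit 0x101e8a00))
 (c z e
 (c z e
 (c z e
 (c z e
 (c z e
 (c (b (nat_lit 0x101d360d)) e
 (c z e
 (c z e
 (c z e
 (c z e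
 (c (b (nat_lit 0xfea1817)) e
 (c (b (nat_lit 0xfe7641d)) e
 (c z e
 (c (b (nat_lit 0xfff0c23)) e e))))))))))))))
 (c (a (nat_lit 0x101f0e00))
 (c z e
 (c z e
 (c (b (nat_lit 0x10139c07)) e e)))
 (c (a (nat_lit 0x101f7600))
 (c z e
 (c z e
 (c z e
 (c (b (nat_lit 0x101be20f)) e e))))
 (c (a (nat_lit 0x101f5200)) e
 (c (a (nat_lit 0x101f4e00)) e
 (c (a (nat_lit 0x101d2400)) e
 (c (a (nat_lit 0x101f5800)) e
 (c (a (nat_lit 0x101f8c01)) e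
 (c (a (nat_lit 0x101fae01))
 (c (nat_lit 0x80000800008000081b5a81b5a81b5a81b5ae4f20) e
 (c z e
 (c z e
 (c (nat_lit 0x8000080000800008000080000800007f5bc202a0) e e))))
 (c (a (nat_lit 0x101fac01)) e
 (c (nat_lit 0x8102281022810228102280ffc80ffc7ec81) e
 (c (a (nat_lit 0x101dce03)) e
 (c (a (nat_lit 0x101a0603)) e
 (c (a (nat_lit 0x1018e603)) e
 (c (a (nat_lit 0x100cec03)) e
 (c (a (nat_lit 0x100bbe05)) e
 (c (a (nat_lit 0x10064c07)) e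
 (c (a (nat_lit 0x100b5207)) e
 (c (a (nat_lit 0xfd77007)) e
 (c (a (nat_lit 0xfff0207)) e
 (c z e
 (c z e
 (c (a (nat_lit 0xffb820f)) e
 (c z e
 (c z e
 (c z e
 (c (a (nat_lit 0xfffd41d)) e e)))))))))))))))))))))))))))))))))) Tr.c Tr.e (nat_lit 0) C.t6 C.t7
noncomputable def tt81 : Tr := beta% (fun (c : Nat → Tr → Tr → Tr) (e : Tr) (z : Nat) (a b : Nat → Nat) =>
 (c (a (nat_lit 0x101e6600))
 (c (b (nat_lit 0xfea2000)) e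
 (c (b (nat_lit 0xfea3e00)) e
 (c (b (nat_lit 0xfe7d200)) e
 (c (b (nat_lit 0xfe72c00)) e
 (c (b (nat_lit 0xfe2ea00)) e
 (c (b (nat_lit 0xfe34000)) e
 (c (b (nat_lit 0xfe3f400)) e
 (c (b (nat_lit 0xfe2f600)) e
 (c (b (nat_lit 0xfe33a00)) e
 (c (b (nat_lit 0xfe17000)) e
 (c (b (nat_lit 0xfe39201)) e
 (c (b (nat_lit 0xfe31001)) e
 (c (b (nat_lit 0xfe24801)) e
 (c (b (nat_lit 0xfda9001)) e
 (c (b (nat_lit 0xfdc5603)) e
 (c (b (nat_lit 0xfd0a803)) e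
 (c (b (nat_lit 0xf5e4e03)) e
 (c (b (nat_lit 0xfa73a03)) e
 (c (b (nat_lit 0xfe2fe05)) e
 (c (b (nat_lit 0xfdb1a07)) e
 (c (b (nat_lit 0xfe87207)) e
 (c (b (nat_lit 0xff30007)) e
 (c (b (nat_lit 0xff47407)) e
 (c z e
 (c z e
 (c z e
 (c z e
 (c z e
 (c (b (nat_lit 0xfff0817)) e e)))))))))))))))))))))))))))))
 (c (a (nat_lit 0x101db600))
 (c (b (nat_lit 0xfe87400)) e
 (c (b (nat_lit 0xfe5ce00)) e
 (c (b (nat_lit 0xfe6c600)) e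
 (c (b (nat_lit 0xfe3c200)) e
 (c (b (nat_lit 0xfe40200)) e
 (c (b (nat_lit 0xfe41200)) e
 (c (b (nat_lit 0xfe3a800)) e
 (c (b (nat_lit 0xfe40600)) e
 (c (b (nat_lit 0xfe47e01)) e
 (c (b (nat_lit 0xfe42601)) e
 (c (b (nat_lit 0xfe2f201)) e
 (c (b (nat_lit 0xfda6e01)) e
 (c (nat_lit 0x7f20b7f20b7f20b7f20b7f20b7f1b27f1b50e783) e
 (c (b (nat_lit 0xfdeb003)) e
 (c (b (nat_lit 0xf76aa03)) e
 (c (b (nat_lit 0xf831603)) e
 (c (b (nat_lit 0xffeac05)) e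
 (c (b (nat_lit 0xff16807)) e
 (c (b (nat_lit 0xff0ce07)) e
 (c (b (nat_lit 0xff0fa07)) e
 (c z e
 (c (b (nat_lit 0x1001fc0d)) e
 (c z e
 (c z e
 (c z e
 (c z e
 (c z e
 (c (nat_lit 0x800007fdb380000800008000080000800001fa1d) e e))))))))))))))))))))))))))))
 (c (a (nat_lit 0x101e4600))
 (c (b (nat_lit 0xfe3c400)) e
 (c (b (nat_lit 0xfe50c00)) e
 (c (b (nat_lit 0xfe3ac00)) e
 (c (b (nat_lit 0xfe36200)) e
 (c (b (nat_lit 0xfe39400)) e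
 (c (b (nat_lit 0xfe3de00)) e
 (c (b (nat_lit 0xfe3a601)) e
 (c (b (nat_lit 0xfe52401)) e
 (c (b (nat_lit 0xfe42601)) e
 (c (b (nat_lit 0xfe2e601)) e
 (c (b (nat_lit 0xfe0da03)) e
 (c (b (nat_lit 0xfe9f003)) e
 (c (b (nat_lit 0xfe7d403)) e
 (c (b (nat_lit 0xfb9ec03)) e
 (c z e
 (c (b (nat_lit 0xffe4a07)) e
 (c z e
 (c (b (nat_lit 0xffffe07)) e
 (c (b (nat_lit 0xfffe407)) e
 (c z e
 (c (b (nat_lit 0x1001dc0f)) e
 (c (b (nat_lit 0x1002e40f)) e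
 (c z e
 (c (b (nat_lit 0x1007d00f)) e
 (c (b (nat_lit 0x10046e17)) e e))))))))))))))))))))))))) tt80)))) Tr.c Tr.e (nat_lit 0) C.t6 C.t7
noncomputable def tt82 : Tr := beta% (fun (c : Nat → Tr → Tr → Tr) (e : Tr) (z : Nat) (a b : Nat → Nat) =>
 (c (a (nat_lit 0x101e9600))
 (c (b (nat_lit 0xfdb8401)) e
 (c (b (nat_lit 0xfd7fc01)) e
 (c (nat_lit 0x7d95d7dc2f7dc2f7dc2f7dc2f7dc2f7dc2f65781) e
 (c (b (nat_lit 0xfc9f003)) e
 (c (nat_lit 0x7eb777eb777ea4b7eb777eb777eb777eb77d0083) e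
 (c (b (nat_lit 0xfde7403)) e
 (c (b (nat_lit 0xfe5f403)) e
 (c (b (nat_lit 0x101cce05)) e
 (c z e
 (c z e
 (c z e
 (c (b (nat_lit 0xf28ea07)) e
 (c z e
 (c z e
 (c (b (nat_lit 0x1005de0f)) e
 (c (b (nat_lit 0x101bbc0f)) e
 (c z e
 (c (b (nat_lit 0xff19e1d)) e
 (c (b (nat_lit 0xfe2481f)) e
 (c (nat_lit 0x800007ffb080000800008000080000800003a21f) e
 (c z e
 (c (nat_lit 0x8000080000800007ff738000080000800001241f) e e))))))))))))))))))))))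
 (c (a (nat_lit 0x101e1c00))
 (c (nat_lit 0x7e78d7ebef7ebef7ebef7ebef7ebef7ebefb1301) e
 (c (b (nat_lit 0xfab9603)) e
 (c (b (nat_lit 0xfd24c03)) e
 (c (b (nat_lit 0xfcf2403)) e
 (c (b (nat_lit 0xfd7a203)) e
 (c (b (nat_lit 0xfe54e05)) e
 (c (b (nat_lit 0xfd2be07)) e
 (c z e
 (c (b (nat_lit 0xfe98207)) e
 (c z e
 (c (nat_lit 0x800007fde87fbac80000800008000080000fb80d) e
 (c z e
 (c (b (nat_lit 0x1007fe0f)) e
 (c z e
 (c z e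
 (c z e
 (c z e
 (c z e
 (c (nat_lit 0x800007ff6d80000800008000080000800002181f) e
 (c (nat_lit 0x7ec5c7ec5c7ec317ec5c7ec5c7ec5c7ec5c5469f) e e))))))))))))))))))))
 (c (a (nat_lit 0x101f2e00))
 (c (nat_lit 0x7d8f67d8f67d75b7d8f67d8f67d8f67d8f62c883) e
 (c z e
 (c (b (nat_lit 0xfd0ec03)) e
 (c (b (nat_lit 0xfe1c405)) e
 (c z e
 (c (b (nat_lit 0xff54e07)) e
 (c z e
 (c z e
 (c (b (nat_lit 0xf5f120d)) e
 (c (nat_lit 0x7d4267d4267d1a97d4267d4267d4267d426e268f) e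
 (c z e
 (c z e
 (c (b (nat_lit 0xff9880f)) e
 (c z e
 (c (b (nat_lit 0xfcdc21f)) e
 (c (b (nat_lit 0xfea6e1f)) e
 (c (nat_lit 0x7ff788000080000800008000080000800007fc9f) e
 (c (nat_lit 0x7fef77feb77fef77fef77fef77fef77fef776d1f) e e))))))))))))))))))
 (c (a (nat_lit 0x101e1600))
 (c (b (nat_lit 0xfa59603)) e
 (c z e
 (c (b (nat_lit 0xfe36a07)) e
 (c (b (nat_lit 0xffb0007)) e
 (c z e
 (c z e
 (c (b (nat_lit 0x108c360d)) e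
 (c z e
 (c z e
 (c z e
 (c (b (nat_lit 0xf600a0f)) e
 (c (b (nat_lit 0xfb9681d)) e
 (c (b (nat_lit 0xfff581f)) e
 (c z e
 (c (b (nat_lit 0xffdea1f)) e e)))))))))))))))
 (c (a (nat_lit 0x10201200))
 (c z e
 (c (b (nat_lit 0x10103407)) e
 (c (nat_lit 0x800008000080000800007fe528000080000c4f87) e
 (c z e
 (c (b (nat_lit 0xfbd120d)) e
 (c z e
 (c z e
 (c z e
 (c (b (nat_lit 0xfefa40f)) e
 (c z e
 (c (nat_lit 0x7ffe280000800007ff7980000800008000070a9f) e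
 (c z e
 (c (nat_lit 0x80000800007fffd80000800008000080000e201f) e
 (c (b (nat_lit 0xffe741f)) e e))))))))))))))
 (c (a (nat_lit 0x101f7600))
 (c z e
 (c (b (nat_lit 0xfc7a807)) e
 (c (b (nat_lit 0xfdd9a0d)) e
 (c (b (nat_lit 0x1028820f)) e
 (c (b (nat_lit 0xfa89e0f)) e
 (c z e
 (c (b (nat_lit 0xfffb80f)) e
 (c z e
 (c z e
 (c (b (nat_lit 0xfff061f)) e e))))))))))
 (c (a (nat_lit 0x101f6000))
 (c (b (nat_lit 0xf942a0d)) e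
 (c (b (nat_lit 0xfe4de0f)) e
 (c z e
 (c z e
 (c (b (nat_lit 0xfffb60f)) e
 (c (b (nat_lit 0xfe4c41d)) e
 (c (b (nat_lit 0xfb7781f)) e e)))))))
 (c (a (nat_lit 0x101f3200))
 (c (b (nat_lit 0xf77240f)) e
 (c (b (nat_lit 0xffd2c0f)) e
 (c z e
 (c z e
 (c (b (nat_lit 0xf7abc1f)) e
 (c (b (nat_lit 0xfdbda1f)) e
 (c (nat_lit 0x7fca47ffce7ffce7ffce7ffce7ffce7ffcedbd9f) e
 (c (nat_lit 0x7ff857fdab7ff857ff857ff857ff857ff852ad9f) e e))))))))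
 (c (a (nat_lit 0x101dfa00))
 (c (b (nat_lit 0xf72720f)) e e)
 (c (a (nat_lit 0x101f5800))
 (c z e
 (c (b (nat_lit 0x100fba1f)) e
 (c (b (nat_lit 0x1020221f)) e
 (c z e
 (c z e
 (c (nat_lit 0x80000800008000080000800007ffb380000ba920) e
 (c (nat_lit 0x8000080000800008000080000800007ff3b63820) e e)))))))
 (c (a (nat_lit 0x101f5e00))
 (c z e
 (c (b (nat_lit 0x104a761f)) e
 (c z e
 (c z e
 (c z e
 (c (nat_lit 0x8000080000800008000080000800007f39846ca0) e e))))))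
 (c (a (nat_lit 0x10207801)) e
 (c (a (nat_lit 0x10204801)) e
 (c (a (nat_lit 0x101cce01)) e
 (c (a (nat_lit 0x10131e01)) e
 (c (a (nat_lit 0x101b7e03)) e
 (c (a (nat_lit 0x1020ac03)) e
 (c (a (nat_lit 0x10200003)) e
 (c (a (nat_lit 0x101c8003)) e
 (c (a (nat_lit 0x101fdc05)) e
 (c (a (nat_lit 0x1011f007)) e
 (c (a (nat_lit 0x100fbe07)) e
 (c (a (nat_lit 0x1007e007)) e
 (c (a (nat_lit 0xffd2c07)) e
 (c z e
 (c (nat_lit 0x8041780417803b98041780417804177e10f) e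
 (c (nat_lit 0x7ffd280048800467ffc38004880048b42cf) e
 (c z e
 (c (a (nat_lit 0xffb820f)) e
 (c z e
 (c z e
 (c (nat_lit 0x80000800007ffd37ffd380000800003335f) e
 (c z e
 (c (nat_lit 0x80ef88135a8135a8135a8135a8135a7c8df) e e))))))))))))))))))))))))))))))))))) Tr.c Tr.e (nat_lit 0) C.t6 C.t7
noncomputable def tt83 : Tr := beta% (fun (c : Nat → Tr → Tr → Tr) (e : Tr) (z : Nat) (a b : Nat → Nat) =>
 (c (a (nat_lit 0x101d6c00))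
 (c (b (nat_lit 0xfe93c00)) e
 (c (b (nat_lit 0xfea4400)) e
 (c (b (nat_lit 0xfe7c000)) e
 (c (b (nat_lit 0xfe83a00)) e
 (c (b (nat_lit 0xfe3a600)) e
 (c (b (nat_lit 0xfe46800)) e
 (c (b (nat_lit 0xfe53000)) e
 (c (b (nat_lit 0xfe4c200)) e
 (c (b (nat_lit 0xfe3ca00)) e
 (c (b (nat_lit 0xfe27200)) e
 (c (b (nat_lit 0xfe32200)) e
 (c (b (nat_lit 0xfe32a01)) e
 (c (b (nat_lit 0xfe3de01)) e
 (c (b (nat_lit 0xfe2ba01)) e
 (c (b (nat_lit 0xfe8f201)) e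
 (c (nat_lit 0x7ed4d7ed4d7ec847ed4d7ed4d7ed4d7ed4df3983) e
 (c (b (nat_lit 0xf690803)) e
 (c (b (nat_lit 0xf8c5603)) e
 (c (b (nat_lit 0xfe82003)) e
 (c (b (nat_lit 0xfe3a205)) e
 (c (b (nat_lit 0xfefa007)) e
 (c (b (nat_lit 0xfee9007)) e
 (c (b (nat_lit 0xff2b407)) e
 (c z e
 (c (nat_lit 0x800007ff33800008000080000800008000027e0d) e
 (c z e
 (c z e
 (c z e
 (c z e
 (c (b (nat_lit 0xfffb41d)) e
 (c z e
 (c (nat_lit 0x7fe348000080000800008000080000800009231f) e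
 (c (nat_lit 0x800007fdbd80000800008000080000800008e41f) e e)))))))))))))))))))))))))))))))))
 (c (a (nat_lit 0x101d8c00))
 (c (b (nat_lit 0xfe61200)) e
 (c (b (nat_lit 0xfe8a800)) e
 (c (b (nat_lit 0xfea5800)) e
 (c (b (nat_lit 0xfe45800)) e
 (c (b (nat_lit 0xfe0d600)) e
 (c (b (nat_lit 0xfe48600)) e
 (c (b (nat_lit 0xfe51400)) e
 (c (b (nat_lit 0xfe39600)) e
 (c (b (nat_lit 0xfe50000)) e
 (c (b (nat_lit 0xfe49001)) e
 (c (b (nat_lit 0xfe45a01)) e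
 (c (b (nat_lit 0xfe30c01)) e
 (c (b (nat_lit 0xfe2da01)) e
 (c (b (nat_lit 0xfe51003)) e
 (c (b (nat_lit 0xfbc3003)) e
 (c (b (nat_lit 0xf5da003)) e
 (c (b (nat_lit 0xfb75403)) e
 (c z e
 (c (b (nat_lit 0xfedca07)) e
 (c (b (nat_lit 0xff45c07)) e
 (c (b (nat_lit 0xff6d407)) e
 (c (b (nat_lit 0x100ab807)) e
 (c z e
 (c (b (nat_lit 0xfffaa0f)) e
 (c (b (nat_lit 0xfff900f)) e
 (c z e
 (c (b (nat_lit 0x1013320f)) e
 (c (nat_lit 0x800007ff1a7febe800008000080000800008929d) e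
 (c z e
 (c (nat_lit 0x7fe358000080000800007ffef80000800002911f) e e))))))))))))))))))))))))))))))
 (c (a (nat_lit 0x101e6600))
 (c (b (nat_lit 0xfe27000)) e
 (c (b (nat_lit 0xfe45c00)) e
 (c (b (nat_lit 0xfe48e00)) e
 (c (b (nat_lit 0xfe45200)) e
 (c (b (nat_lit 0xfe3f200)) e
 (c (b (nat_lit 0xfe58600)) e
 (c (b (nat_lit 0xfe2bc00)) e
 (c (b (nat_lit 0xfe2ac01)) e
 (c (b (nat_lit 0xfe11e01)) e
 (c (b (nat_lit 0xfe34a01)) e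
 (c (b (nat_lit 0xfe4a201)) e
 (c (b (nat_lit 0xfe03403)) e
 (c (b (nat_lit 0xfe30803)) e
 (c (b (nat_lit 0xfb7b003)) e
 (c (b (nat_lit 0xfc3f203)) e
 (c z e
 (c (b (nat_lit 0xfdc3c07)) e
 (c (b (nat_lit 0xfe3d407)) e
 (c (b (nat_lit 0xfdf5c07)) e
 (c (b (nat_lit 0xfffc407)) e
 (c z e
 (c z e
 (c (nat_lit 0x7fdd9800008000080000800008000080000db90f) e
 (c z e
 (c (b (nat_lit 0x1020560f)) e
 (c (b (nat_lit 0x1011f61d)) e
 (c (b (nat_lit 0x100f2e1f)) e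
 (c (b (nat_lit 0xffeaa1f)) e e))))))))))))))))))))))))))))
 (c (a (nat_lit 0x101eca00))
 (c (b (nat_lit 0xfe2de00)) e
 (c (b (nat_lit 0xfe34c00)) e
 (c (b (nat_lit 0xfe35400)) e
 (c (b (nat_lit 0xfe32200)) e
 (c (b (nat_lit 0xfe4b400)) e
 (c (b (nat_lit 0xfdd3001)) e
 (c (b (nat_lit 0xfe34e01)) e
 (c (b (nat_lit 0xfde0001)) e
 (c (b (nat_lit 0xfdefa01)) e
 (c (nat_lit 0x7f1df7f1df7f1df7f1df7f1df7f1787f184f3083) e
 (c (b (nat_lit 0xfd9f603)) e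
 (c (b (nat_lit 0xfc57003)) e
 (c (b (nat_lit 0xfb11603)) e
 (c (b (nat_lit 0xff79805)) e
 (c (b (nat_lit 0xfde1c07)) e
 (c (b (nat_lit 0xfc58007)) e
 (c (b (nat_lit 0xfe33007)) e
 (c (b (nat_lit 0xfdbae07)) e
 (c z e
 (c z e
 (c z e
 (c (b (nat_lit 0xffe9c0f)) e
 (c z e
 (c z e
 (c z e
 (c (b (nat_lit 0xffeb41f)) e
 (c (nat_lit 0x800007feb07ff238000080000800008000002c9f) e
 (c (b (nat_lit 0xfffd41f)) e e))))))))))))))))))))))))))))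
 (c (a (nat_lit 0x101ed400))
 (c (b (nat_lit 0xfd16200)) e
 (c (b (nat_lit 0xfe41e00)) e
 (c (b (nat_lit 0xfe3ee00)) e
 (c (b (nat_lit 0xfddae01)) e
 (c (nat_lit 0x7e9237e1447e9237e9237e9237e9237e923da601) e
 (c (b (nat_lit 0xfe48601)) e
 (c (b (nat_lit 0xfc74401)) e
 (c (b (nat_lit 0xfd6f603)) e
 (c (b (nat_lit 0xfdc3a03)) e
 (c (b (nat_lit 0xfe93603)) e
 (c (b (nat_lit 0xfde8603)) e
 (c (b (nat_lit 0xfff8205)) e
 (c z e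
 (c z e
 (c (b (nat_lit 0xfdde007)) e
 (c (b (nat_lit 0xfe72407)) e
 (c z e
 (c z e
 (c z e
 (c z e
 (c (b (nat_lit 0xfffba0f)) e
 (c z e
 (c z e
 (c (b (nat_lit 0xffe3a1f)) e
 (c z e
 (c (b (nat_lit 0xfffbe1f)) e e))))))))))))))))))))))))))
 (c (a (nat_lit 0x101eaa00))
 (c (b (nat_lit 0xfe58a00)) e
 (c (b (nat_lit 0xfd51201)) e
 (c (b (nat_lit 0xfd9a001)) e
 (c (b (nat_lit 0xfe3ac01)) e
 (c (b (nat_lit 0xfe04801)) e
 (c (nat_lit 0x7f0e97f0e97f0e97f0e97f0e97f0bc7f0bcb2403) e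
 (c (b (nat_lit 0xfdbb403)) e
 (c (b (nat_lit 0xfd4ec03)) e
 (c z e
 (c (b (nat_lit 0xfdd9805)) e
 (c z e
 (c z e
 (c (b (nat_lit 0x102a6007)) e
 (c z e
 (c z e
 (c z e
 (c (b (nat_lit 0x102fd40f)) e
 (c (b (nat_lit 0xfff680f)) e
 (c (b (nat_lit 0xffff80f)) e
 (c z e
 (c z e
 (c (nat_lit 0x800007fed880000800008000080000800002529f) e
 (c z e
 (c (b (nat_lit 0xfff961f)) e e)))))))))))))))))))))))) tt82))))))) Tr.c Tr.e (nat_lit 0) C.t6 C.t7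
noncomputable def tt84 : Tr := beta% (fun (c : Nat → Tr → Tr → Tr) (e : Tr) (z : Nat) (a b d : Nat → Nat) =>
 (c (a (nat_lit 0xfe06200))
 (c (b (nat_lit 0x101e3400))
 (c (d (nat_lit 0xfe26a00)) e
 (c (d (nat_lit 0xfeb0a00)) e
 (c (d (nat_lit 0xfe98e00)) e
 (c (d (nat_lit 0xfe5ca00)) e
 (c (d (nat_lit 0xfe51e00)) e
 (c (d (nat_lit 0xfe46000)) e
 (c (d (nat_lit 0xfe67200)) e
 (c (d (nat_lit 0xfe4c000)) e
 (c (d (nat_lit 0xfe76a00)) e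
 (c (d (nat_lit 0xfe40a00)) e
 (c (d (nat_lit 0xfe19e00)) e
 (c (d (nat_lit 0xfe09800)) e
 (c (d (nat_lit 0xfe1fa00)) e
 (c (d (nat_lit 0xfded201)) e
 (c (d (nat_lit 0xfcf1201)) e
 (c (d (nat_lit 0xfd8e401)) e
 (c (d (nat_lit 0xfbd9c01)) e
 (c (d (nat_lit 0xf90ca03)) e
 (c (d (nat_lit 0xf969603)) e
 (c (d (nat_lit 0xfcfc803)) e
 (c (d (nat_lit 0xff5f603)) e
 (c (d (nat_lit 0xffbaa05)) e
 (c (d (nat_lit 0xfe0d207)) e
 (c (d (nat_lit 0xfd8da07)) e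
 (c (d (nat_lit 0xfe39e07)) e
 (c (d (nat_lit 0xfea2007)) e
 (c (d (nat_lit 0xfe50c0d)) e
 (c z e
 (c (d (nat_lit 0xfff340f)) e
 (c (d (nat_lit 0x10041e0f)) e
 (c z e
 (c (d (nat_lit 0xfffb61d)) e
 (c (d (nat_lit 0xffc861f)) e
 (c z e
 (c (d (nat_lit 0xfffec1f)) e e))))))))))))))))))))))))))))))))))) tt83)
 (c (a (nat_lit 0xfe06800)) tt81
 (c (nat_lit 0x7f02f7f02e7f02e7f02e7f02e6dac0) tt79
 (c (nat_lit 0x7f03b7f03a7f03a7f03a7f03a19100)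
 (c (b (nat_lit 0x101ee800))
 (c (d (nat_lit 0xfdb0c00)) e
 (c (d (nat_lit 0xfe2d000)) e
 (c (d (nat_lit 0xfe3ec00)) e
 (c (d (nat_lit 0xfe31a00)) e
 (c (d (nat_lit 0xfe3ce01)) e
 (c (d (nat_lit 0xfe46e01)) e
 (c (d (nat_lit 0xfe31401)) e
 (c (d (nat_lit 0xfe3cc01)) e
 (c (d (nat_lit 0xfda3c03)) e
 (c (d (nat_lit 0xfd88003)) e
 (c (d (nat_lit 0xfe7c403)) e
 (c (d (nat_lit 0xff0e803)) e
 (c z e
 (c (d (nat_lit 0xffdf607)) e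
 (c z e
 (c z e
 (c z e
 (c (d (nat_lit 0xfdebe0d)) e
 (c (d (nat_lit 0xfe39e0f)) e
 (c z e
 (c z e
 (c (nat_lit 0x807778066f80777807778077780777807770290f) e
 (c (nat_lit 0x8038b8038b8028a8038b8038b8038b8038bcb217) e
 (c (d (nat_lit 0xffee617)) e
 (c (d (nat_lit 0xfffc417)) e e))))))))))))))))))))))))) tt77)
 (c (a (nat_lit 0xfe06200))
 (c (b (nat_lit 0x101ef400))
 (c (d (nat_lit 0xfc45800)) e
 (c (d (nat_lit 0xfe33801)) e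
 (c (d (nat_lit 0xfbb7e01)) e
 (c (d (nat_lit 0xfe26201)) e
 (c (d (nat_lit 0xfe37401)) e
 (c (d (nat_lit 0xfdc2003)) e
 (c z e
 (c (d (nat_lit 0xfd69e03)) e
 (c (d (nat_lit 0xfd99203)) e
 (c z e
 (c z e
 (c (d (nat_lit 0xfe76e07)) e
 (c (d (nat_lit 0xfdb3a07)) e
 (c z e
 (c (d (nat_lit 0xfa4f80d)) e
 (c (nat_lit 0x7edd07edd07ec7e7edd07edd07edd07edd0c058f) e
 (c (d (nat_lit 0xfdb320f)) e
 (c (d (nat_lit 0x100a940f)) e
 (c (d (nat_lit 0xfffd60f)) e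
 (c (d (nat_lit 0xfff2217)) e
 (c (d (nat_lit 0x10055c17)) e
 (c (d (nat_lit 0xffe8217)) e
 (c z e
 (c (d (nat_lit 0xffece1d)) e e)))))))))))))))))))))))) tt76)
 (c (a (nat_lit 0xfe05e00)) tt75
 (c (nat_lit 0x7f0297f0287f0287f0287f028a5cc0) tt74
 (c (nat_lit 0x7f0317f0307f0307f0307f030e0560) tt73
 (c (nat_lit 0x7f0377f0367f0367f0367f036e7fa0)
 (c (b (nat_lit 0x10121600))
 (c (d (nat_lit 0xf77d007)) e
 (c (d (nat_lit 0x104a2007)) e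
 (c z e
 (c z e
 (c z e
 (c (d (nat_lit 0x1064320f)) e
 (c (d (nat_lit 0x100fc80f)) e
 (c z e
 (c z e
 (c z e
 (c z e
 (c (nat_lit 0x800007ffd47ff877ffc380000800008000099a9c) e
 (c (nat_lit 0x800008000080000800007ffaa800008000029c1c) e e)))))))))))))
 (c (b (nat_lit 0x101f2c00))
 (c z e
 (c z e
 (c z e
 (c z e
 (c z e
 (c (d (nat_lit 0xffde013)) e e))))))
 (c (b (nat_lit 0x101f4e01)) e
 (c (b (nat_lit 0x101f6801)) e
 (c (b (nat_lit 0x101fd401))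
 (c (nat_lit 0x8000080000800007fd288000080000800005b713) e
 (c z e
 (c z e
 (c (d (nat_lit 0xfffec1c)) e e))))
 (c (nat_lit 0x8109481094810948109480fe380fe593f01) e
 (c (b (nat_lit 0x1025ce03)) e
 (c (b (nat_lit 0x10102403)) e
 (c z e
 (c z e
 (c z e
 (c (b (nat_lit 0x100ae207)) e
 (c (b (nat_lit 0xffcf207)) e
 (c z e
 (c z e
 (c (b (nat_lit 0x100eba0d)) e
 (c (b (nat_lit 0x1015de0f)) e
 (c (b (nat_lit 0x1015e60f)) e
 (c z e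
 (c (b (nat_lit 0x1033460f)) e
 (c (nat_lit 0x806338052680625806338063380633dbed3) e
 (c (b (nat_lit 0x10147c13)) e
 (c (b (nat_lit 0x100c4e13)) e
 (c (b (nat_lit 0x10123c15)) e
 (c (b (nat_lit 0x101eda1c)) e e)))))))))))))))))))))))))
 (c (a (nat_lit 0xfe03e00))
 (c (b (nat_lit 0x100f4201))
 (c z e
 (c z e
 (c z e
 (c z e
 (c z e
 (c (d (nat_lit 0xffeaa13)) e
 (c z e
 (c z e
 (c z e
 (c z e
 (c (nat_lit 0x80000800008000080000800007fabc800007fa15) e e)))))))))))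
 (c (b (nat_lit 0x101f6801)) e
 (c (b (nat_lit 0x101ffc01)) e
 (c (b (nat_lit 0x10124e01)) e
 (c (b (nat_lit 0x100c9603)) e
 (c (b (nat_lit 0x1013fa03)) e
 (c z e
 (c (b (nat_lit 0x1009ae03)) e
 (c (b (nat_lit 0x10a2d805)) e
 (c (b (nat_lit 0x103a2c07)) e
 (c (b (nat_lit 0x10078a07)) e
 (c z e
 (c z e
 (c (b (nat_lit 0x1007280d)) e
 (c (b (nat_lit 0x101dca0f)) e
 (c (b (nat_lit 0x1003b40f)) e
 (c z e
 (c (b (nat_lit 0xfff340f)) e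
 (c (nat_lit 0x80666805af804ff806668066680666c2553) e
 (c (nat_lit 0x80a7880a7880a78809f780a7880a78b9fd3) e
 (c (nat_lit 0x807d9807d9807d9807d98076f807d99a513) e
 (c (b (nat_lit 0x10134e13)) e
 (c z e
 (c z e
 (c (nat_lit 0x800008000080000800008104e8104ec79dc) e e))))))))))))))))))))))))) tt72))))))))))) Tr.c Tr.e (nat_lit 0) C.t5 C.t6 C.t7
noncomputable def tt85 : Tr := beta% (fun (c : Nat → Tr → Tr → Tr) (e : Tr) (z : Nat) (a b d : Nat → Nat) =>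
 (c (a (nat_lit 0x101fee00))
 (c (b (nat_lit 0xfdfe201))
 (c (nat_lit 0x80833806c3806c3808338083380833cccc9) e
 (c (d (nat_lit 0x10143209)) e e))
 (c (b (nat_lit 0xfe01c01))
 (c (nat_lit 0x80b6380b6380b6380b6380b0080b2cb8ec9) e
 (c z e
 (c (d (nat_lit 0x10168814)) e e)))
 (c (b (nat_lit 0xf9df601)) e
 (c (b (nat_lit 0xfdf7803)) e
 (c (b (nat_lit 0xfb18a03)) e
 (c z e
 (c z e
 (c z e
 (c (nat_lit 0x7fb937fb937fb397fb937fb9349f27) e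
 (c (b (nat_lit 0xff01c07)) e
 (c (b (nat_lit 0xff92a07)) e
 (c (b (nat_lit 0xff66607)) e
 (c (nat_lit 0x7fa327fa2f7fa327fa327fa3292788) e
 (c (b (nat_lit 0xff03e08)) e
 (c (b (nat_lit 0xff01608)) e
 (c (nat_lit 0x7fbd37fbd37fbd37fbd07fbcbc7448) e
 (c (nat_lit 0x7fbe97fbe97fbe37fbe97fbe91ece9) e
 (c (nat_lit 0x7fc327fc327fbf97fbfc7fc0ded1a9) e
 (c (b (nat_lit 0xffd4209)) e
 (c (b (nat_lit 0xffd3609)) e
 (c (b (nat_lit 0xffd120c)) e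
 (c (nat_lit 0x8000080000800007ff977ffff50a2c) e e))))))))))))))))))))))
 (c (a (nat_lit 0x101ff800))
 (c (nat_lit 0x7f0347f0347f0347f0347f005d3361) e
 (c (b (nat_lit 0xfcd6e03)) e
 (c (b (nat_lit 0xfe0b003)) e
 (c z e
 (c z e
 (c (nat_lit 0x7eacb7eacb7eb137eb137eb134b1e5) e
 (c (b (nat_lit 0xfe90a07)) e
 (c (b (nat_lit 0xff98e07)) e
 (c z e
 (c (b (nat_lit 0xffb7a07)) e
 (c (b (nat_lit 0xff86a08)) e
 (c (b (nat_lit 0xff1c608)) e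
 (c (nat_lit 0x7f89c7f8a67f8a67f8a67f8a625c28) e
 (c (b (nat_lit 0xff7f408)) e
 (c (nat_lit 0x7fbf07fbf07fbe57fbf07fbf006c48) e
 (c (nat_lit 0x7fc027fc027fbee7fbe47fc024f209) e
 (c (nat_lit 0x7fc587fc587fc2a7fc0b7fc0a44bc9) e
 (c (b (nat_lit 0xffe3a09)) e
 (c (b (nat_lit 0xffea209)) e
 (c (nat_lit 0x7ffab7ffab7ffb380000800000976c) e e))))))))))))))))))))
 (c (nat_lit 0x8100080fff80fff80fff21870)
 (c (b (nat_lit 0xfddc203)) e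
 (c z e
 (c z e
 (c (b (nat_lit 0x10c03a05)) e
 (c (b (nat_lit 0xfbebc07)) e
 (c (nat_lit 0x80000800007ff2b7ffeb80000089e7) e
 (c z e
 (c z e
 (c (nat_lit 0x7f8a17f8777f8a17f8a17f8a11c8a8) e
 (c (b (nat_lit 0xfc8f008)) e
 (c (b (nat_lit 0xfc84a08)) e
 (c (b (nat_lit 0xff8a808)) e
 (c (nat_lit 0x7fc607fc607fc607fc537fc60651c8) e
 (c (nat_lit 0x7fc927fc927fc927fc507fc2df20a8) e
 (c (nat_lit 0x7fc8f7fc8f7fc8f7fc797fc3add909) e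
 (c (nat_lit 0x7fc4e7fc4e7fc377fc4e7fc4e43309) e
 (c (b (nat_lit 0xfff3e09)) e
 (c (nat_lit 0x7fde87fde87feac7feac7feac29d49) e e))))))))))))))))))
 (c (a (nat_lit 0x101fea00))
 (c z e
 (c z e
 (c z e
 (c z e
 (c (b (nat_lit 0xffb5407)) e
 (c z e
 (c (b (nat_lit 0xffbdc08)) e
 (c (b (nat_lit 0xfdd1408)) e
 (c (b (nat_lit 0xfdfda08)) e
 (c (nat_lit 0x7fdbd7fdc87fdc87fdc87fdc8e6b48) e
 (c (nat_lit 0x7fdd77fdb77fdcc7fdd77fdd752e68) e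
 (c (nat_lit 0x7fd667fd667fd517fd667fd66c7bc8) e
 (c (nat_lit 0x7fd1b7fd1b7fd1b7fd0b7fd1b4aca8) e
 (c (nat_lit 0x80000800007fd147fd087fd0316728) e
 (c (nat_lit 0x8000080000800007fce87fce87d2e8) e
 (c z e
 (c z e
 (c (nat_lit 0x800008000080000800007ff0c415a9) e
 (c (nat_lit 0x800008000080000800007ff2420ee9) e e)))))))))))))))))))
 (c (a (nat_lit 0x101ffc00))
 (c (b (nat_lit 0x100b5007)) e
 (c z e
 (c z e
 (c (b (nat_lit 0xfd8e007)) e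
 (c (nat_lit 0x7e52b7e52b7e4ed7e52b7e52b809c8) e
 (c (b (nat_lit 0xfc41008)) e
 (c (b (nat_lit 0xfdc8408)) e
 (c (b (nat_lit 0xfdd9408)) e
 (c (nat_lit 0x7f30e7f3247f3247f3247f32466348) e
 (c (nat_lit 0x7f2d57f2c67f2e37f2e37f2e3e1c28) e
 (c (nat_lit 0x7f2907f2907f28d7f2907f2904d0e8) e
 (c (nat_lit 0x7f2647f2637f2647f2647f264a2d88) e
 (c (nat_lit 0x80000800007f23f7f23f7f23f6c3c8) e
 (c (nat_lit 0x8000080000800007f1f77f1f759828) e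
 (c (nat_lit 0x800008000080000800007fa042ef08) e e)))))))))))))))
 (c (a (nat_lit 0x101ff400))
 (c z e
 (c (b (nat_lit 0x102e8e07)) e
 (c (nat_lit 0x78e5778e1478e1778e5778e57a8b08) e
 (c (b (nat_lit 0xfce2808)) e
 (c (b (nat_lit 0xfe8c008)) e
 (c (b (nat_lit 0xfdfca08)) e
 (c (nat_lit 0x7efd67efdf7efdf7efdf7efdf50c88) e
 (c (nat_lit 0x7efdc7efce7efd67efdc7efdca1fc8) e
 (c (b (nat_lit 0xfdf9208)) e
 (c (nat_lit 0x7efe47efe47efe47efd77efe14b3c8) e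
 (c (nat_lit 0x7efed7efeb7efe97efed7efed6a768) e
 (c (nat_lit 0x80000800007eff47effa7effa0d9a8) e
 (c (nat_lit 0x8000080000800007f0017f00177928) e
 (c (nat_lit 0x800008000080000800007f82b088c8) e e))))))))))))))
 (c (a (nat_lit 0x101ffe00))
 (c (nat_lit 0x76ce876cd076c6076ce876ce88b128) e
 (c (b (nat_lit 0xfcb5c08)) e
 (c (b (nat_lit 0xfdf8608)) e
 (c (b (nat_lit 0xfe26608)) e
 (c (b (nat_lit 0xfe16208)) e
 (c (nat_lit 0x7ef5c7efea7f00d7f00d7f00d14348) e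
 (c (nat_lit 0x7eef67ef2e7ef747ef747ef74474e8) e
 (c (nat_lit 0x7eeaf7eeec7ef0f7ef0f7ef0f8dd88) e
 (c (nat_lit 0x7ee997eeae7eecd7eecd7eecd6bd08) e
 (c (nat_lit 0x7ee987ee8d7ee987ee987ee98147e8) e
 (c (nat_lit 0x80000800007ee907ee987ee98b8848) e
 (c (nat_lit 0x8000080000800007ee707ee7178268) e
 (c (nat_lit 0x800008000080000800007f6b810628) e e)))))))))))))
 (c (a (nat_lit 0x101ff600)) e
 (c (a (nat_lit 0x101ffa00)) e
 (c (a (nat_lit 0x101ffe00)) e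
 (c (a (nat_lit 0x101fe800)) e
 (c (nat_lit 0x80ffc80ffd80ffd80ffdd7840) e
 (c (a (nat_lit 0x101ff200)) e
 (c (nat_lit 0x80ffe80fff80fff80fff03570) e
 (c (nat_lit 0x80ffd80ffd80ffd80ffc8b0a0) e
 (c (a (nat_lit 0x10200000)) e
 (c (a (nat_lit 0x101ffc01)) e
 (c (nat_lit 0x81005810068100281002a9e51) e
 (c (a (nat_lit 0x100fa601)) e
 (c (a (nat_lit 0x10096801)) e
 (c (a (nat_lit 0x10194e03)) e
 (c (a (nat_lit 0x1017ba03)) e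
 (c (nat_lit 0x801c0801c0801c0801c188a63) e
 (c (nat_lit 0x804b8804b9804b9804b9b0883) e
 (c (nat_lit 0x8076f8076f8076f80770f1445) e
 (c (nat_lit 0x808f5808f5808f6808f5b9937) e
 (c (nat_lit 0x7ff327ff337ff337ff338ef97) e
 (c (a (nat_lit 0xffec407)) e
 (c (a (nat_lit 0x10258807)) e e)))))))))))))))))))))))))))))) Tr.c Tr.e (nat_lit 0) C.t4 C.t5 C.t6
noncomputable def tt86 : Tr := beta% (fun (c : Nat → Tr → Tr → Tr) (e : Tr) (z : Nat) (a b : Nat → Nat) =>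
 (c (a (nat_lit 0xff09200))
 (c z e
 (c z e
 (c z e
 (c (nat_lit 0x7ff447ff1380000800008000080000fea87) e
 (c (nat_lit 0x81309812de81293812f3813098130960808) e
 (c (nat_lit 0x81302813028130281302812da81302ee309) e
 (c (b (nat_lit 0x103a2e09)) e
 (c (b (nat_lit 0x10486609)) e
 (c z e
 (c z e
 (c (b (nat_lit 0x10306a0b)) e
 (c (b (nat_lit 0x100abc0b)) e
 (c z e
 (c (b (nat_lit 0xfffa20d)) e e))))))))))))))
 (c (a (nat_lit 0xfe01c00))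
 (c z e
 (c z e
 (c z e
 (c (nat_lit 0x819b7819b7819b7819b381996819b75d309) e
 (c z e
 (c z e
 (c z e
 (c z e
 (c z e
 (c (b (nat_lit 0x1023d60b)) e
 (c z e
 (c (nat_lit 0x80000800008000080000800007fe9856acb) e e))))))))))))
 (c (a (nat_lit 0xfe00800))
 (c (nat_lit 0x80b7180b4f80b0b80b7180b7180b71f7688) e
 (c (nat_lit 0x80b2380b2380b0f80b0c80b2380b23ebd89) e
 (c (nat_lit 0x816988166f8166f816988167c81698a3d89) e
 (c (b (nat_lit 0x10328209)) e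
 (c z e
 (c z e
 (c z e
 (c z e
 (c (b (nat_lit 0xffdba0b)) e e)))))))))
 (c (a (nat_lit 0xfe00e00))
 (c (b (nat_lit 0x102b1609)) e
 (c (nat_lit 0x816da816da816da816da816c4816dacf889) e e))
 (c (a (nat_lit 0xfe00800))
 (c (nat_lit 0x81703817038170381703816de8170213fc9) e
 (c (b (nat_lit 0x100a680b)) e e))
 (c (a (nat_lit 0xfe00201))
 (c (nat_lit 0x80000800007feba7fed880000800002684b) e
 (c (b (nat_lit 0x10166c0b)) e
 (c (b (nat_lit 0x101d320b)) e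
 (c (b (nat_lit 0x1012fe0d)) e e))))
 (c (a (nat_lit 0xfe02801)) e
 (c (a (nat_lit 0xfdfd801)) e
 (c (a (nat_lit 0xfc72c01)) e
 (c (a (nat_lit 0xfbec803)) e
 (c (nat_lit 0x7ef737ef737ef6c7ef737ef730b543) e
 (c (a (nat_lit 0xff9dc03)) e
 (c z e
 (c (a (nat_lit 0xff9a005)) e
 (c (a (nat_lit 0xfddb207)) e
 (c (a (nat_lit 0xfed9207)) e
 (c z e
 (c (a (nat_lit 0x10010007)) e
 (c (a (nat_lit 0xfeb4a08)) e
 (c (a (nat_lit 0xfe12809)) e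
 (c (a (nat_lit 0xfe15209)) e
 (c (a (nat_lit 0xfe68e09)) e
 (c (a (nat_lit 0xfe99009)) e
 (c (nat_lit 0x7ef827ef677ef737ef827ef827972b) e
 (c (nat_lit 0x7f0427f0427f03c7f0427f0425d26b) e
 (c z e
 (c z e
 (c (nat_lit 0x7ff627ff627fff67fff67fff6be6cd) e e))))))))))))))))))))))))))))) Tr.c Tr.e (nat_lit 0) C.t5 C.t6
noncomputable def tt87 : Tr := beta% (fun (c : Nat → Tr → Tr → Tr) (e : Tr) (z : Nat) (a b d : Nat → Nat) =>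
 (c (a (nat_lit 0xfed2800))
 (c (b (nat_lit 0x10289a03))
 (c z e
 (c (d (nat_lit 0x10579a0b)) e e))
 (c (b (nat_lit 0xfe15603)) e
 (c z e
 (c z e
 (c (nat_lit 0x8000080000800007ffdf800008000079447) e
 (c (nat_lit 0x7bff07bff07bee87bff07bff07bff049b87) e
 (c (b (nat_lit 0xfc8ac07)) e
 (c (nat_lit 0x8000080000800007ff21800008000088708) e
 (c (nat_lit 0x7ef6f7ef6f7eeaf7eef17ef6f7ef6f73249) e
 (c (b (nat_lit 0x101d4a09)) e
 (c z e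
 (c (b (nat_lit 0x101d620b)) e
 (c (nat_lit 0x80f0c80ee080ee080eed80f0c80f0c3390b) e
 (c (nat_lit 0x807c9808f3808f3808f3808f3808f35b88b) e
 (c z e
 (c (nat_lit 0x8126d810a68126d8126d8126d8126dfdb0d) e e))))))))))))))))
 (c (a (nat_lit 0xfe01c00))
 (c z e
 (c z e
 (c z e
 (c z e
 (c z e
 (c (b (nat_lit 0x1018fc09)) e
 (c z e
 (c z e
 (c (b (nat_lit 0x10443609)) e
 (c z e
 (c (b (nat_lit 0x1039180b)) e
 (c (b (nat_lit 0x101a300b)) e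
 (c (b (nat_lit 0x10157c0b)) e
 (c z e
 (c (b (nat_lit 0x102b6e15)) e e)))))))))))))))
 (c (a (nat_lit 0xfe02200))
 (c z e
 (c z e
 (c z e
 (c z e
 (c z e
 (c z e
 (c (b (nat_lit 0x10764409)) e
 (c (b (nat_lit 0x1066400b)) e
 (c (b (nat_lit 0x106d280b)) e
 (c (b (nat_lit 0x10274a0b)) e e))))))))))
 (c (a (nat_lit 0xfe02600))
 (c z e
 (c (b (nat_lit 0x10130c09)) e
 (c (b (nat_lit 0x1015c809)) e
 (c z e
 (c (b (nat_lit 0x102ae009)) e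
 (c (b (nat_lit 0x1040600b)) e
 (c (b (nat_lit 0x1043cc0b)) e
 (c (b (nat_lit 0x102af80b)) e
 (c z e
 (c (nat_lit 0x800007ff8b7ff8b8000080000800006ffcd) e e))))))))))
 (c (a (nat_lit 0xfe00e00))
 (c (b (nat_lit 0x10147409)) e
 (c (nat_lit 0x808928090980909809098090980909fce49) e
 (c (b (nat_lit 0x10263009)) e
 (c (b (nat_lit 0x1016d00b)) e
 (c (b (nat_lit 0x1057de0b)) e
 (c (b (nat_lit 0x108d620b)) e
 (c (b (nat_lit 0x103b5e0b)) e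
 (c (b (nat_lit 0xffcaa0d)) e e))))))))
 (c (a (nat_lit 0xfe00000))
 (c z e
 (c (nat_lit 0x807a880766807a8807a8807a8807a8c020b) e
 (c (b (nat_lit 0x1030000b)) e
 (c (b (nat_lit 0x1041480b)) e
 (c (b (nat_lit 0x10408c0b)) e
 (c (b (nat_lit 0x101b460d)) e
 (c (b (nat_lit 0x10170e14)) e
 (c z e
 (c z e
 (c z e
 (c (nat_lit 0x80000800008000080000800007ff447bf0f) e e)))))))))))
 (c (a (nat_lit 0xfdffa00))
 (c (nat_lit 0x80000800007ff168000080000800000a7cb) e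
 (c (b (nat_lit 0x1010020b)) e
 (c z e
 (c z e
 (c (b (nat_lit 0x101dd411)) e e)))))
 (c (a (nat_lit 0xfe03201))
 (c z e
 (c (b (nat_lit 0x101d920d)) e e))
 (c (nat_lit 0x7f00e7f00e7f00a7f00a7f00c9a901) e
 (c (a (nat_lit 0xfdfea01)) e
 (c (a (nat_lit 0xfe26a01)) e
 (c (a (nat_lit 0xfebd403)) e
 (c (a (nat_lit 0xfeb9803)) e
 (c (a (nat_lit 0xff06e03)) e
 (c (a (nat_lit 0xffdb803)) e
 (c (a (nat_lit 0xfebfe05)) e
 (c (a (nat_lit 0xfddc007)) e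
 (c (a (nat_lit 0xfdca007)) e
 (c (nat_lit 0x7ff47800008000080000800002d747) e
 (c (a (nat_lit 0xfdd5407)) e
 (c (nat_lit 0x7f6997f6497f6997f6997f6990fe49) e
 (c (nat_lit 0x7f12e7f12e7f0c47f1187f12e668c9) e
 (c (nat_lit 0x7f2337f3007f3007f3007f3000f489) e
 (c (nat_lit 0x7f3c47f3c47f43c7f43c7f43ce0869) e
 (c (a (nat_lit 0xfdea40b)) e
 (c (a (nat_lit 0xfdf360b)) e
 (c (a (nat_lit 0xfef740b)) e
 (c (a (nat_lit 0x100b540b)) e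
 (c (a (nat_lit 0xffd9a0d)) e
 (c z e
 (c z e
 (c z e
 (c (nat_lit 0x8000080000800007ffe57ffe57ba2f) e e)))))))))))))))))))))))))))))))))) Tr.c Tr.e (nat_lit 0) C.t5 C.t6 C.t7
noncomputable def tt88 : Tr := beta% (fun (c : Nat → Tr → Tr → Tr) (e : Tr) (z : Nat) (a b d : Nat → Nat) =>
 (c (a (nat_lit 0xfe02200))
 (c (b (nat_lit 0xff7c401)) e
 (c z
 (c (d (nat_lit 0x103f780b)) e
 (c z e
 (c z e
 (c z e
 (c (d (nat_lit 0xffdea25)) e e)))))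
 (c (b (nat_lit 0x1015da03)) e
 (c z e
 (c z e
 (c (b (nat_lit 0x10214805)) e
 (c z e
 (c (nat_lit 0x8000080000800007ffb880000800005df87) e
 (c z e
 (c (nat_lit 0x80000800007ff4d7f8738000080000f3d07) e
 (c (b (nat_lit 0xfc76809)) e
 (c z e
 (c (b (nat_lit 0x101da209)) e
 (c (b (nat_lit 0x1015b60b)) e
 (c (nat_lit 0x8134681342813428134681346813460ed0b) e
 (c (b (nat_lit 0x100f1e0b)) e
 (c (b (nat_lit 0x1010f00b)) e
 (c (b (nat_lit 0x101b280d)) e e))))))))))))))))))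
 (c (a (nat_lit 0xfe02200))
 (c (b (nat_lit 0x1010a403))
 (c z e
 (c (d (nat_lit 0x1049720b)) e e))
 (c z
 (c (d (nat_lit 0xff4b60d)) e
 (c z e
 (c (d (nat_lit 0xfd31625)) e e)))
 (c (b (nat_lit 0x1017f003)) e
 (c (nat_lit 0x807a180309807de807de807de807de7cd05) e
 (c (b (nat_lit 0x104a8807)) e
 (c z e
 (c z e
 (c z e
 (c z e
 (c z e
 (c z e
 (c (b (nat_lit 0x1028d80b)) e
 (c (b (nat_lit 0x102a320b)) e
 (c (nat_lit 0x81110811108110b8110b8111081110871cb) e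
 (c (b (nat_lit 0x1026c60b)) e
 (c (nat_lit 0x810c9810c9810c98109b8109b810c989b4d) e e))))))))))))))))
 (c (a (nat_lit 0xfe02000))
 (c z e
 (c z e
 (c (b (nat_lit 0xff6ca07)) e
 (c (b (nat_lit 0xff15c07)) e
 (c z e
 (c (nat_lit 0x7ba727ba727b9fd7ba727ba727ba72032c7) e
 (c z e
 (c z e
 (c z e
 (c (b (nat_lit 0x10619c0b)) e
 (c (b (nat_lit 0x102d9c0b)) e
 (c (b (nat_lit 0x1019ee0b)) e e))))))))))))
 (c (a (nat_lit 0xfe00200))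
 (c z e
 (c z e
 (c z e
 (c z e
 (c z e
 (c z e
 (c z e
 (c z e
 (c (b (nat_lit 0x10498e0b)) e e)))))))))
 (c (a (nat_lit 0xfe01a00))
 (c z e
 (c (nat_lit 0x800007ff907ff908000080000800005a387) e
 (c z e
 (c z e
 (c z e
 (c (b (nat_lit 0x1029680b)) e e))))))
 (c (a (nat_lit 0xfe04e00))
 (c (b (nat_lit 0x100c1e09)) e
 (c z e
 (c (b (nat_lit 0x10316209)) e
 (c (b (nat_lit 0x1039a60b)) e
 (c (b (nat_lit 0x1047fe0b)) e
 (c (b (nat_lit 0x1039ca0b)) e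
 (c (b (nat_lit 0x1046960b)) e
 (c z e
 (c (nat_lit 0x8050e804c3804d28050e8050e8050e1e7d4) e e)))))))))
 (c (a (nat_lit 0xfe02800))
 (c (b (nat_lit 0x10214e09)) e
 (c (b (nat_lit 0x10261c0b)) e
 (c z e
 (c z e
 (c (b (nat_lit 0x102d340b)) e
 (c z e
 (c z e
 (c (b (nat_lit 0x100fa014)) e e))))))))
 (c (a (nat_lit 0xfdffa00))
 (c (nat_lit 0x811be811be8113d810b9811be811beefd4b) e
 (c (b (nat_lit 0x10106c0b)) e
 (c z e
 (c z e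
 (c (b (nat_lit 0x10335411)) e e)))))
 (c (a (nat_lit 0xfe03000)) e
 (c (a (nat_lit 0xfe00801)) e
 (c (a (nat_lit 0xfe01c01)) e
 (c (a (nat_lit 0xfdfc001))
 (c z e
 (c (nat_lit 0x80000800008000080000800007fd358bf10) e e))
 (c (a (nat_lit 0xfdcfe01)) e
 (c (a (nat_lit 0xff00c03)) e
 (c (a (nat_lit 0xfec7803)) e
 (c (a (nat_lit 0x10012a03)) e
 (c z e
 (c (a (nat_lit 0xff2ee05)) e
 (c (a (nat_lit 0xfe06807)) e
 (c (a (nat_lit 0xfe40807)) e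
 (c (nat_lit 0x7ffbb8000080000800008000079c47) e
 (c (a (nat_lit 0xfea2e07)) e
 (c (a (nat_lit 0xfef8809)) e
 (c (a (nat_lit 0xfe74409)) e
 (c (a (nat_lit 0xfeaf609)) e
 (c (nat_lit 0x7f0f17f0f17f0e37f0f17f0f17c58b) e
 (c (a (nat_lit 0xfe3480b)) e
 (c z e
 (c z e
 (c (nat_lit 0x7f5b77f5b77f5b77f6e37f6e3c06cd) e e))))))))))))))))))))))))))))))) Tr.c Tr.e (nat_lit 0) C.t5 C.t6 C.t7
noncomputable def tt89 : Tr := beta% (fun (c : Nat → Tr → Tr → Tr) (e : Tr) (z : Nat) (a b d : Nat → Nat) =>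
 (c (nat_lit 0x7f0077f0067f0067f0067f00677a80)
 (c (b (nat_lit 0x101fd201))
 (c (d (nat_lit 0x1057f007)) e
 (c z e
 (c z e
 (c z e
 (c z e
 (c z e
 (c (d (nat_lit 0x1065180b)) e
 (c (d (nat_lit 0x1026680b)) e
 (c z e
 (c z e
 (c (nat_lit 0x83c4183c4183c4183c4183c4183b9283c41ddc98) e e)))))))))))
 (c (b (nat_lit 0x10200001)) e
 (c (b (nat_lit 0x101fcc01)) e
 (c (b (nat_lit 0x101fc801)) e
 (c z e
 (c z e
 (c z e
 (c (b (nat_lit 0xfeb1203)) e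
 (c (nat_lit 0x80dd980bc680dd980dd980dd980dd9ac905) e
 (c z e
 (c z e
 (c z e
 (c (b (nat_lit 0xf834807)) e
 (c z e
 (c z e
 (c (b (nat_lit 0x1016cc0b)) e
 (c (b (nat_lit 0x102ed40b)) e
 (c z e
 (c z e
 (c (b (nat_lit 0x100d140d)) e
 (c (b (nat_lit 0x100f4a18)) e
 (c (b (nat_lit 0x100a7e18)) e e))))))))))))))))))))))
 (c (a (nat_lit 0xfe00800))
 (c (b (nat_lit 0x101fec01)) e
 (c z e
 (c z e
 (c z e
 (c z e
 (c z e
 (c z e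
 (c (b (nat_lit 0x102c2407)) e
 (c z e
 (c z e
 (c z e
 (c z e
 (c z e
 (c (b (nat_lit 0x102b180b)) e
 (c (b (nat_lit 0x102ffe0b)) e
 (c (b (nat_lit 0x1028480b)) e
 (c (b (nat_lit 0x100b860b)) e
 (c z e
 (c z e
 (c (b (nat_lit 0xffe9418)) e
 (c (b (nat_lit 0xffff018)) e e)))))))))))))))))))))
 (c (a (nat_lit 0xfe01800))
 (c z e
 (c z e
 (c z e
 (c z e
 (c z e
 (c z e
 (c z e
 (c z e
 (c z e
 (c z e
 (c z e
 (c (b (nat_lit 0x1023880b)) e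
 (c (b (nat_lit 0x102c760b)) e
 (c z e
 (c z e
 (c (b (nat_lit 0xfffb40d)) e
 (c (b (nat_lit 0xfff7e13)) e
 (c (b (nat_lit 0xfeff015)) e e))))))))))))))))))
 (c (a (nat_lit 0xfe01a00))
 (c z e
 (c z e
 (c z e
 (c z e
 (c z e
 (c (b (nat_lit 0xfffac07)) e
 (c z e
 (c z e
 (c z e
 (c z e
 (c (b (nat_lit 0x1025560b)) e
 (c z e
 (c z e
 (c (nat_lit 0x807e9807d7807e9807e9807e9807e9dde8d) e
 (c z e
 (c (nat_lit 0x800008000080000800007ffee800006decf) e e))))))))))))))))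
 (c (a (nat_lit 0xfe00c00))
 (c z e
 (c z e
 (c (b (nat_lit 0xff26607)) e
 (c z e
 (c (b (nat_lit 0xfffd407)) e
 (c z e
 (c z e
 (c z e
 (c z e
 (c z e
 (c (b (nat_lit 0x1023720b)) e
 (c z e
 (c (b (nat_lit 0x103b3c13)) e
 (c (nat_lit 0x80bc480bc480bc480bc480bc280bc4ba393) e
 (c (b (nat_lit 0xfffe413)) e e)))))))))))))))
 (c (a (nat_lit 0xfe00c00))
 (c z e
 (c z e
 (c z e
 (c z e
 (c z e
 (c z e
 (c z e
 (c z e
 (c z e
 (c z e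
 (c (b (nat_lit 0x101d0214)) e e)))))))))))
 (c (a (nat_lit 0xfe00a00))
 (c z e
 (c z e
 (c z e
 (c z e
 (c z e
 (c z e
 (c z e
 (c z e
 (c z e
 (c (b (nat_lit 0xfffee14)) e e))))))))))
 (c (a (nat_lit 0xfe00800))
 (c z e
 (c z e
 (c z e
 (c z e
 (c z e
 (c z e
 (c (b (nat_lit 0x1021a611)) e
 (c (b (nat_lit 0x1009d811)) e e))))))))
 (c (a (nat_lit 0xfdffc00))
 (c z e
 (c z e
 (c z e
 (c z e
 (c (b (nat_lit 0x10352c11)) e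
 (c (b (nat_lit 0x100dd811)) e e))))))
 (c (a (nat_lit 0xfe01000))
 (c z e
 (c z e
 (c (b (nat_lit 0x101a1e20)) e
 (c (b (nat_lit 0x102ce620)) e e))))
 (c (a (nat_lit 0xfe00200))
 (c z e
 (c (b (nat_lit 0x10280e20)) e e))
 (c (nat_lit 0x7f00c7f00b7f00b7f00a7f00a47f01)
 (c z e
 (c z e
 (c (nat_lit 0x800008000080000800007f1777f1770c810) e e)))
 (c (a (nat_lit 0xfe00401)) e
 (c (a (nat_lit 0xfdffc01)) e
 (c (a (nat_lit 0xfee4601)) e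
 (c (a (nat_lit 0xff24403)) e
 (c (a (nat_lit 0xff23e03)) e
 (c (a (nat_lit 0x100a0803)) e
 (c (a (nat_lit 0x1006c603)) e
 (c (a (nat_lit 0xff07605)) e
 (c (a (nat_lit 0xfe7da07)) e
 (c (a (nat_lit 0xfea9207)) e
 (c (a (nat_lit 0xfe5c207)) e
 (c (a (nat_lit 0xfd5f407)) e
 (c (a (nat_lit 0xfe36e09)) e
 (c (nat_lit 0x7f23d7f2467f2467f2467f246c9549) e
 (c (a (nat_lit 0xfd4800b)) e
 (c (a (nat_lit 0xfd5c60b)) e e))))))))))))))))))))))))))))) Tr.c Tr.e (nat_lit 0) C.t5 C.t6 C.t7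
noncomputable def tt90 : Tr := beta% (fun (c : Nat → Tr → Tr → Tr) (e : Tr) (z : Nat) (a b d : Nat → Nat) =>
 (c (a (nat_lit 0xfe01800))
 (c (b (nat_lit 0x101f9000))
 (c (d (nat_lit 0xfae9e07)) e e)
 (c (nat_lit 0x80ff680ff480ff480ff480ff580ff5f3dc1) e
 (c (b (nat_lit 0x101fd201)) e
 (c (b (nat_lit 0x101fb801)) e
 (c (b (nat_lit 0x101fd601)) e
 (c z e
 (c z e
 (c (b (nat_lit 0x10152e03)) e
 (c z e
 (c z e
 (c z e
 (c z e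
 (c z e
 (c z e
 (c z e
 (c (b (nat_lit 0x1012380b)) e
 (c (b (nat_lit 0x1003740b)) e
 (c (b (nat_lit 0x100b100b)) e
 (c (b (nat_lit 0xff47a0b)) e
 (c z e
 (c (b (nat_lit 0x1008c20f)) e
 (c (nat_lit 0x80000800007fee37febf7febf800009bfcf) e
 (c (nat_lit 0x800008000080000800007feb17feb17c9cf) e e)))))))))))))))))))))))
 (c (a (nat_lit 0xfe02400))
 (c (b (nat_lit 0x101fc401)) e
 (c (b (nat_lit 0x101fcc01)) e
 (c z e
 (c z e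
 (c z e
 (c z e
 (c z e
 (c z e
 (c (b (nat_lit 0xfe40e07)) e
 (c z e
 (c z e
 (c z e
 (c z e
 (c z e
 (c (b (nat_lit 0x1036160b)) e
 (c (b (nat_lit 0x1031240b)) e
 (c (b (nat_lit 0x100ea00b)) e
 (c z e
 (c (b (nat_lit 0x100bf80f)) e e)))))))))))))))))))
 (c (a (nat_lit 0xfe02400))
 (c (b (nat_lit 0x1012c401)) e
 (c z e
 (c z e
 (c z e
 (c (b (nat_lit 0x102ede03)) e
 (c (b (nat_lit 0x101dd405)) e
 (c (b (nat_lit 0x10814807)) e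
 (c z e
 (c z e
 (c z e
 (c z e
 (c (b (nat_lit 0x1005ba0b)) e
 (c (b (nat_lit 0x1024360b)) e
 (c z e
 (c z e
 (c (b (nat_lit 0x1011e60d)) e
 (c z e
 (c z e
 (c z e
 (c (b (nat_lit 0xfffe80f)) e e))))))))))))))))))))
 (c (a (nat_lit 0xfe02a00))
 (c (b (nat_lit 0x10078603))
 (c (d (nat_lit 0xffcec0f)) e e)
 (c z e
 (c z e
 (c z e
 (c (b (nat_lit 0x102b8007)) e
 (c (b (nat_lit 0x105dba07)) e
 (c z e
 (c (b (nat_lit 0xfe81207)) e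
 (c (b (nat_lit 0xfb0a409)) e
 (c (nat_lit 0x80d3f80cbd80cbd80d3f80d3f80d3faa04b) e
 (c (b (nat_lit 0x10462e0b)) e
 (c z e
 (c z e
 (c (b (nat_lit 0xffff40d)) e
 (c (b (nat_lit 0x100cd00f)) e
 (c z e
 (c z e
 (c (nat_lit 0x7ff007ff007ff1a7fff27fff27fff2bd9cf) e e))))))))))))))))))
 (c (a (nat_lit 0xfe02400))
 (c z e
 (c (b (nat_lit 0x100cec05)) e
 (c z e
 (c z e
 (c z e
 (c z e
 (c z e
 (c z e
 (c z e
 (c z e
 (c z e
 (c (b (nat_lit 0x1022a60d)) e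
 (c (b (nat_lit 0x1025bc0f)) e
 (c (nat_lit 0x812ce812ce812ce812b4812ce812ce44dcf) e e))))))))))))))
 (c (a (nat_lit 0xfe00600))
 (c (b (nat_lit 0x101aa607)) e
 (c z e
 (c z e
 (c z e
 (c z e
 (c (b (nat_lit 0xfcf6c0b)) e
 (c z e
 (c z e
 (c z e
 (c (b (nat_lit 0x1013ec0d)) e
 (c (b (nat_lit 0x1014f60f)) e
 (c (b (nat_lit 0xffad80f)) e e))))))))))))
 (c (a (nat_lit 0xfe03400))
 (c (b (nat_lit 0xffd9c07)) e
 (c (b (nat_lit 0xff9d607)) e e))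
 (c (a (nat_lit 0xfe03000))
 (c z e
 (c (nat_lit 0x8095a8083c807888095a8095a8095ab478b) e
 (c z e
 (c z e
 (c z e
 (c (b (nat_lit 0x102c7a0d)) e
 (c (b (nat_lit 0x100cc60f)) e e)))))))
 (c (nat_lit 0x7f0167f0157f0167f0177f017755a0)
 (c (nat_lit 0x80d6280d6280d6280d5b80d6280d62e7acb) e
 (c z e
 (c z e
 (c (b (nat_lit 0xffec80d)) e
 (c (b (nat_lit 0x10328a0f)) e
 (c z e
 (c z e
 (c (b (nat_lit 0xfdbdc0f)) e e))))))))
 (c (a (nat_lit 0xfe00400))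
 (c z e
 (c z e
 (c (b (nat_lit 0x1029f60f)) e
 (c (b (nat_lit 0x1036460f)) e e))))
 (c (nat_lit 0x7f0107f00e7f00e7f00e7f00ec2380)
 (c z e
 (c z e
 (c (b (nat_lit 0x101ac00f)) e e)))
 (c (a (nat_lit 0xfe01c00))
 (c z e
 (c z e
 (c z e
 (c (nat_lit 0x80000800008000080000810778107721950) e e))))
 (c (nat_lit 0x7f00e7f00d7f00e7f00e7f00e54c41)
 (c (nat_lit 0x800008000083ef283ef283ef283ef22d990) e
 (c (nat_lit 0x80000800008000081e0d81e0d81e0dbc0d0) e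
 (c (nat_lit 0x8000080000800008000080ffe80fe199090) e e)))
 (c (a (nat_lit 0xfe01e01)) e
 (c (a (nat_lit 0xfdfe201)) e
 (c (a (nat_lit 0xff02801)) e
 (c (a (nat_lit 0xfeeae03)) e
 (c (a (nat_lit 0xff2b603)) e
 (c (a (nat_lit 0xffe5203)) e
 (c (a (nat_lit 0x1004ac03)) e
 (c z e
 (c (a (nat_lit 0xfe64e07)) e
 (c (a (nat_lit 0xfe81007)) e
 (c (a (nat_lit 0xff9c607)) e
 (c (a (nat_lit 0xff1ae07)) e
 (c (a (nat_lit 0xfeb1a09)) e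
 (c (nat_lit 0x7f04f7f0207efa67f04f7f04fb618b) e
 (c (a (nat_lit 0xfe0e80b)) e
 (c z e
 (c (a (nat_lit 0xff30e0b)) e
 (c z e
 (c (a (nat_lit 0xfe9aa0f)) e
 (c (a (nat_lit 0x1000980f)) e
 (c z e
 (c (a (nat_lit 0xff6f00f)) e e)))))))))))))))))))))))))))))))))))) Tr.c Tr.e (nat_lit 0) C.t5 C.t6 C.t7
noncomputable def tt91 : Tr := beta% (fun (c : Nat → Tr → Tr → Tr) (e : Tr) (z : Nat) (a b : Nat → Nat) =>
 (c (a (nat_lit 0x10202a00))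
 (c (nat_lit 0x79c4079d1379d1379d1379d1379d1379d13bbb03) e
 (c z e
 (c z e
 (c z e
 (c (nat_lit 0x822cc822cc82243822cc822cc822cc822ccc3707) e
 (c z e
 (c (b (nat_lit 0x10484209)) e
 (c (b (nat_lit 0x1052120b)) e
 (c (b (nat_lit 0x104ea60b)) e
 (c (b (nat_lit 0x104f2a0b)) e
 (c z e
 (c z e
 (c z e
 (c z e
 (c z e
 (c (b (nat_lit 0xfffa00f)) e e))))))))))))))))
 (c (a (nat_lit 0x101f7a00)) e
 (c (a (nat_lit 0x101f7600)) e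
 (c (a (nat_lit 0x101fae01))
 (c z e
 (c z e
 (c z e
 (c z e
 (c z e
 (c z e
 (c (b (nat_lit 0xf5e780f)) e e)))))))
 (c (a (nat_lit 0x101f8e01))
 (c (b (nat_lit 0xfcede0b)) e
 (c z e
 (c z e
 (c z e
 (c z e
 (c (b (nat_lit 0xf9fb20f)) e e))))))
 (c (nat_lit 0x80fe280fe280fe280fe280fe080fe210181) e
 (c z e
 (c z e
 (c z e
 (c (a (nat_lit 0x10101803)) e
 (c z e
 (c (a (nat_lit 0xff07405)) e
 (c (a (nat_lit 0x1032d207)) e
 (c z e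
 (c z e
 (c (a (nat_lit 0xfe02607)) e
 (c (a (nat_lit 0x10156a09)) e
 (c (a (nat_lit 0x10317e0b)) e
 (c (a (nat_lit 0x1022840b)) e
 (c (a (nat_lit 0x1012040b)) e
 (c (a (nat_lit 0x100a060b)) e
 (c (a (nat_lit 0x100fa60d)) e
 (c (a (nat_lit 0x101dd40f)) e
 (c z e
 (c (a (nat_lit 0xfff980f)) e
 (c z e
 (c (nat_lit 0x80000800008000080000800007fe64fdfcf) e e)))))))))))))))))))))))))))) Tr.c Tr.e (nat_lit 0) C.t6 C.t7
noncomputable def tt92 : Tr := beta% (fun (c : Nat → Tr → Tr → Tr) (e : Tr) (z : Nat) (a b d : Nat → Nat) =>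
 (c (a (nat_lit 0xfe03400))
 (c (b (nat_lit 0x1004a801))
 (c z e
 (c z e
 (c z e
 (c z e
 (c z e
 (c z e
 (c (d (nat_lit 0xfffea0f)) e
 (c (nat_lit 0x800008000080000800007f6f88000080000e1f95) e e))))))))
 (c (nat_lit 0x80fe780fe780fe780fe780fe580fe535dc1) e
 (c z e
 (c (b (nat_lit 0x10074e03)) e
 (c (b (nat_lit 0x10202803)) e
 (c (b (nat_lit 0x100fc003)) e
 (c (b (nat_lit 0x1033c405)) e
 (c (b (nat_lit 0x10511807)) e
 (c (nat_lit 0x8081f8081f806618081f8081f8081fe4ac7) e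
 (c (b (nat_lit 0xffaf607)) e
 (c (b (nat_lit 0x10096407)) e
 (c (b (nat_lit 0x1037f20b)) e
 (c (b (nat_lit 0x10429e0b)) e
 (c (b (nat_lit 0x1030e00b)) e
 (c (b (nat_lit 0x1003340b)) e
 (c z e
 (c (b (nat_lit 0x1017160f)) e
 (c (b (nat_lit 0x100dc20f)) e
 (c (b (nat_lit 0x1005260f)) e
 (c z e
 (c z e
 (c z e
 (c z e
 (c z e
 (c (nat_lit 0x80000800008000080000800007faf795757) e e)))))))))))))))))))))))))
 (c (a (nat_lit 0xfe02a00))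
 (c (b (nat_lit 0x1004d403)) e
 (c (b (nat_lit 0x101ec203)) e
 (c (b (nat_lit 0x100a7a03)) e
 (c (b (nat_lit 0x102c1403)) e
 (c (b (nat_lit 0x1022c005)) e
 (c (nat_lit 0x82c5d82c5d82b3b82c5d82c5d82c5d19487) e
 (c z e
 (c z e
 (c z e
 (c (b (nat_lit 0x1027d60b)) e
 (c (b (nat_lit 0x1054600b)) e
 (c (b (nat_lit 0x1019260b)) e
 (c z e
 (c (b (nat_lit 0x100c460d)) e
 (c (b (nat_lit 0x1015420f)) e
 (c (nat_lit 0x8054180541805418052380541805419978f) e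
 (c z e
 (c (nat_lit 0x8000080000800007ffa17ffa180000dc44f) e
 (c z e
 (c (nat_lit 0x8000080000800008041e8042c8042c3e0d8) e
 (c (nat_lit 0x80000800008000080000805dc805dc99f98) e
 (c z e
 (c z e
 (c (nat_lit 0x80000800008000080000800007fff93d517) e e))))))))))))))))))))))))
 (c (a (nat_lit 0xfe00c00))
 (c z e
 (c z e
 (c z e
 (c z e
 (c z e
 (c z e
 (c z e
 (c z e
 (c z e
 (c z e
 (c z e
 (c (b (nat_lit 0x1040320d)) e e))))))))))))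
 (c (a (nat_lit 0xfe02a00))
 (c (b (nat_lit 0x10193a05)) e
 (c (b (nat_lit 0x10259a07)) e
 (c (b (nat_lit 0x100e2007)) e
 (c (b (nat_lit 0xff43207)) e
 (c z e
 (c z e
 (c z e
 (c (b (nat_lit 0x101d460b)) e
 (c z e
 (c (nat_lit 0x8081c8081c8081c8081c8081c8081954d8d) e
 (c (b (nat_lit 0x1010620f)) e
 (c z e
 (c (nat_lit 0x80000800007ffa77ffa780000800008650f) e e)))))))))))))
 (c (a (nat_lit 0xfdff600))
 (c (nat_lit 0x8177e8177e8177e817748177e8177ebb587) e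
 (c z e
 (c z e
 (c (b (nat_lit 0x100e9e0b)) e
 (c (b (nat_lit 0x1022600b)) e
 (c z e
 (c z e
 (c (b (nat_lit 0x10104e0d)) e
 (c (nat_lit 0x80ab880a8d80a8d80ab880ab880ab849fcf) e
 (c (nat_lit 0x7fb0d7fb947fb947fb947fb947fb945850f) e
 (c z e
 (c z e
 (c z e
 (c z e
 (c z e
 (c (nat_lit 0x80000800008000080000800007ff3089ad3) e e))))))))))))))))
 (c (a (nat_lit 0xfe03c00))
 (c z e
 (c (nat_lit 0x8092a80678807208092a8092a8092acac8b) e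
 (c (b (nat_lit 0x1017ba0b)) e
 (c z e
 (c z e
 (c z e
 (c (b (nat_lit 0x101cfa0f)) e
 (c (b (nat_lit 0xffdf40f)) e
 (c z e
 (c (b (nat_lit 0xfff6c0f)) e
 (c z e
 (c z e
 (c (nat_lit 0x800008000080000800007ffff8000031994) e e)))))))))))))
 (c (nat_lit 0x7f0147f0137f0147f0147f014f8720)
 (c (b (nat_lit 0x10143c0b)) e
 (c z e
 (c z e
 (c z e
 (c (nat_lit 0x80df980df980df980ccc80df980df96ee4f) e
 (c (b (nat_lit 0xff9c00f)) e e))))))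
 (c (a (nat_lit 0xfe05000))
 (c z e
 (c (b (nat_lit 0x1038ea0d)) e
 (c (b (nat_lit 0x10293a0f)) e e)))
 (c (a (nat_lit 0xfe00c00))
 (c (nat_lit 0x817ed817ed81675817ed817ed817edae78f) e
 (c (b (nat_lit 0xffeb20f)) e e))
 (c (a (nat_lit 0xfe02400))
 (c z e
 (c (b (nat_lit 0x1029c60f)) e
 (c (nat_lit 0x8000080000854ed854ed854ed854edd6550) e
 (c (nat_lit 0x800008000080000811758117581175ad490) e
 (c (nat_lit 0x80000800008000080000805f4805f40a7d0) e e)))))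
 (c (a (nat_lit 0xfe01a00))
 (c (b (nat_lit 0x10fff610)) e
 (c (nat_lit 0x80000800008198b8198b8198b8198b19810) e
 (c (nat_lit 0x8000080000800008100c80ffe8100c81450) e
 (c (nat_lit 0x8000080000800008000080e4d80e4d649d0) e e))))
 (c (a (nat_lit 0xfdfa001)) e
 (c (a (nat_lit 0xfdffa01)) e
 (c (nat_lit 0x7f0857f0857f0857f01c7f01f25721) e
 (c (a (nat_lit 0xfdf5601)) e
 (c (a (nat_lit 0xfe9fa03)) e
 (c (a (nat_lit 0xfeab603)) e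
 (c (a (nat_lit 0xff52803)) e
 (c (a (nat_lit 0x1001ca03)) e
 (c (a (nat_lit 0xfe6ce05)) e
 (c (a (nat_lit 0xfe60207)) e
 (c (a (nat_lit 0xfe24e07)) e
 (c (a (nat_lit 0xffa0207)) e
 (c (nat_lit 0x7fc6c7fca97fca97fca97fca9fe5e7) e
 (c (a (nat_lit 0xfe7140b)) e
 (c (a (nat_lit 0xfe8dc0b)) e
 (c z e
 (c z e
 (c z e
 (c (a (nat_lit 0xfe6ce0f)) e
 (c (nat_lit 0x7ffec8000080000800008000067e2f) e
 (c z e
 (c (nat_lit 0x7f91f7f91f7f91f7f83b7f83b52f8f) e e)))))))))))))))))))))))))))))))))) Tr.c Tr.e (nat_lit 0) C.t5 C.t6 C.t7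
noncomputable def tt93 : Tr := beta% (fun (c : Nat → Tr → Tr → Tr) (e : Tr) (z : Nat) (a b : Nat → Nat) =>
 (c (a (nat_lit 0x101f4c00))
 (c (b (nat_lit 0xf818a03)) e
 (c (b (nat_lit 0xfa23203)) e
 (c z e
 (c z e
 (c (nat_lit 0x7faf87faf87faf87fa827faf87faf87faf8c0387) e
 (c z e
 (c z e
 (c (b (nat_lit 0xfff5e0b)) e
 (c (b (nat_lit 0xfeaca0b)) e
 (c z e
 (c (b (nat_lit 0xfff860b)) e
 (c (nat_lit 0x800007fc5e80000800008000080000800001920d) e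
 (c z e
 (c z e
 (c (nat_lit 0x82b3282b3282b3282b2382b3282b3282b321d70f) e
 (c z e
 (c (b (nat_lit 0xffe9217)) e e)))))))))))))))))
 (c (a (nat_lit 0x101f8000))
 (c z e
 (c z e
 (c z e
 (c z e
 (c z e
 (c z e
 (c (b (nat_lit 0xffd8e0b)) e e)))))))
 (c (a (nat_lit 0x101f9400)) e
 (c (a (nat_lit 0x101f5c00))
 (c z e
 (c z e
 (c z e
 (c z e
 (c z e
 (c z e
 (c (b (nat_lit 0xfaf8e0f)) e
 (c z e
 (c z e
 (c z e
 (c (b (nat_lit 0xffd4817)) e e)))))))))))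
 (c (a (nat_lit 0x101f9601))
 (c z e
 (c z e
 (c z e
 (c z e
 (c z e
 (c (b (nat_lit 0xfdb900f)) e e))))))
 (c (a (nat_lit 0x101fe001)) e
 (c (nat_lit 0x8100f8100f8100f80ffc80ffc80ffda7d01) e
 (c (a (nat_lit 0x10118201)) e
 (c (a (nat_lit 0x10295c03)) e
 (c (a (nat_lit 0x102b8c03)) e
 (c (a (nat_lit 0x100dea03)) e
 (c (a (nat_lit 0x1016b803)) e
 (c z e
 (c (a (nat_lit 0x10269807)) e
 (c (a (nat_lit 0xfa6d207)) e
 (c z e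
 (c (a (nat_lit 0xfec9e07)) e
 (c (a (nat_lit 0xfd6a60b)) e
 (c (a (nat_lit 0xff9300b)) e
 (c (a (nat_lit 0xff4100b)) e
 (c (a (nat_lit 0x100a820b)) e
 (c (nat_lit 0x7fdbc7ffea800008000080000800002854d) e
 (c (a (nat_lit 0x1015580f)) e
 (c (nat_lit 0x80bed80bed80abf80bed80bed80bed3eb0f) e
 (c (a (nat_lit 0xffe6a0f)) e e)))))))))))))))))))))))))) Tr.c Tr.e (nat_lit 0) C.t6 C.t7
noncomputable def tt94 : Tr := beta% (fun (c : Nat → Tr → Tr → Tr) (e : Tr) (z : Nat) (a b : Nat → Nat) =>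
 (c (a (nat_lit 0x101ebe00))
 (c z e
 (c (nat_lit 0x7e3a77e3627e3a77e3a77e3a77e3a77e3a70dc83) e
 (c z e
 (c (nat_lit 0x7f2047f2047eb157f2047f2047f2047f20461803) e
 (c z e
 (c z e
 (c z e
 (c z e
 (c (b (nat_lit 0xfe7be07)) e
 (c z e
 (c z e
 (c z e
 (c (b (nat_lit 0x10511a0b)) e
 (c (b (nat_lit 0x106e720b)) e
 (c z e
 (c z e
 (c z e
 (c z e
 (c (nat_lit 0x7ff027ffdb7ffdb7ffdb7ffdb7ffdb7ffdbfce8f) e
 (c (b (nat_lit 0x1010701c)) e e))))))))))))))))))))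
 (c (a (nat_lit 0x101f4800))
 (c (nat_lit 0x7d0c87d0c87ce397d0c87d0c87d0c87d0c8b8983) e
 (c z e
 (c z e
 (c z e
 (c (nat_lit 0x80000800007ff237ff9180000800008000093987) e
 (c z e
 (c z e
 (c z e
 (c z e
 (c z e
 (c z e
 (c z e
 (c z e
 (c z e
 (c (b (nat_lit 0x1057bc0f)) e
 (c (b (nat_lit 0xfff620f)) e
 (c (b (nat_lit 0xffd520f)) e e)))))))))))))))))
 (c (a (nat_lit 0x101f7000))
 (c z e
 (c z e
 (c z e
 (c z e
 (c z e
 (c (b (nat_lit 0x10288607)) e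
 (c z e
 (c z e
 (c z e
 (c z e
 (c z e
 (c z e
 (c z e
 (c z e
 (c (b (nat_lit 0xffc100f)) e e)))))))))))))))
 (c (a (nat_lit 0x101f9400))
 (c z e
 (c (b (nat_lit 0xfc96e07)) e
 (c (b (nat_lit 0xfff6807)) e
 (c z e
 (c z e
 (c (b (nat_lit 0xffe740b)) e
 (c (b (nat_lit 0x101e380b)) e
 (c (b (nat_lit 0xfff760b)) e
 (c (nat_lit 0x7fd0f800008000080000800008000080000b5b0d) e e)))))))))
 (c (a (nat_lit 0x101f5200))
 (c (b (nat_lit 0xfa2a807)) e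
 (c z e
 (c z e
 (c z e
 (c (b (nat_lit 0x1031980b)) e
 (c z e
 (c z e
 (c (b (nat_lit 0xfd9920f)) e
 (c z e
 (c z e
 (c z e
 (c (b (nat_lit 0xfe9b41c)) e e))))))))))))
 (c (a (nat_lit 0x101f3800))
 (c z e
 (c z e
 (c z e
 (c z e
 (c z e
 (c (b (nat_lit 0xf572a0f)) e e))))))
 (c (a (nat_lit 0x101fb601)) e
 (c (a (nat_lit 0x101f6e01))
 (c z e
 (c z e
 (c z e
 (c z e
 (c z e
 (c (b (nat_lit 0xfedde1c)) e e))))))
 (c (nat_lit 0x8101481014810148100f8100f8101153041)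
 (c (b (nat_lit 0xfa79a0f)) e e)
 (c (a (nat_lit 0x100c6c01)) e
 (c (a (nat_lit 0x100c1e03)) e
 (c (a (nat_lit 0x1017ec03)) e
 (c z e
 (c z e
 (c (a (nat_lit 0x10698c05)) e
 (c (a (nat_lit 0x101c0607)) e
 (c (a (nat_lit 0x101dd407)) e
 (c (a (nat_lit 0xfe93207)) e
 (c (a (nat_lit 0xff84a07)) e
 (c (a (nat_lit 0x1011f40b)) e
 (c (a (nat_lit 0x1010e40b)) e
 (c z e
 (c z e
 (c (a (nat_lit 0x10153e0d)) e
 (c (nat_lit 0x80c2b80c2b80c1980c2b80c2b80c2be5c8f) e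
 (c (a (nat_lit 0x10162a0f)) e
 (c z e
 (c z e
 (c (nat_lit 0x806358062780580806358063580635291dc) e e)))))))))))))))))))))))))))))) Tr.c Tr.e (nat_lit 0) C.t6 C.t7
noncomputable def tt95 : Tr := beta% (fun (c : Nat → Tr → Tr → Tr) (e : Tr) (z : Nat) (a b d : Nat → Nat) =>
 (c (a (nat_lit 0xfe04200)) tt94
 (c (a (nat_lit 0xfe02200)) tt93
 (c (a (nat_lit 0xfe01a00))
 (c (b (nat_lit 0x101f8800)) e
 (c (b (nat_lit 0x101fb000)) e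
 (c (b (nat_lit 0x101fc401)) e
 (c (b (nat_lit 0x101fc401)) e
 (c (b (nat_lit 0x101ff601)) e
 (c z e
 (c (b (nat_lit 0x101c8e03)) e
 (c (b (nat_lit 0x10163803)) e
 (c (b (nat_lit 0x100da803)) e
 (c z e
 (c z e
 (c z e
 (c z e
 (c z e
 (c z e
 (c z e
 (c (b (nat_lit 0xfe66c0b)) e e)))))))))))))))))
 (c (a (nat_lit 0xfe00c00))
 (c (nat_lit 0x8100b8100a8100a8100a8100a8100a79b81)
 (c z e
 (c (d (nat_lit 0xf11600b)) e
 (c z e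
 (c z e
 (c (d (nat_lit 0xffc000b)) e
 (c z e
 (c z e
 (c z e
 (c z e
 (c (d (nat_lit 0xffe8a0f)) e e))))))))))
 (c (b (nat_lit 0x101fc401))
 (c z e
 (c z e
 (c z e
 (c z e
 (c (d (nat_lit 0x1021b80f)) e
 (c z e
 (c (d (nat_lit 0xfffd40f)) e e)))))))
 (c (b (nat_lit 0x101fc401)) e
 (c (b (nat_lit 0x1018c801)) e
 (c (b (nat_lit 0x10161c03)) e
 (c (b (nat_lit 0x100dde03)) e
 (c z e
 (c z e
 (c z e
 (c (b (nat_lit 0x1021d207)) e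
 (c z e
 (c z e
 (c (b (nat_lit 0xffe8607)) e
 (c (b (nat_lit 0x100f5c0b)) e
 (c (b (nat_lit 0x101de20b)) e
 (c z e
 (c z e
 (c (nat_lit 0x8080280802807e78080280802808023de8d) e
 (c (nat_lit 0x808b9808b9808b980895808b9808b98d70f) e
 (c (nat_lit 0x800008000080000800007ffb0800002340f) e
 (c z e
 (c z e
 (c z e
 (c z e
 (c (nat_lit 0x800008000080000800007fd567fd5631357) e
 (c (nat_lit 0x80000800008000080000800007ff91c1cd7) e e)))))))))))))))))))))))))) tt92))))) Tr.c Tr.e (nat_lit 0) C.t5 C.t6 C.t7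
noncomputable def tt96 : Tr := beta% (fun (c : Nat → Tr → Tr → Tr) (e : Tr) (z : Nat) (a b d : Nat → Nat) =>
 (c (nat_lit 0x7f01d7f01d7f01d7f01c7f01c075a0)
 (c (nat_lit 0x80961809618095b809598095b8095cd6001)
 (c z e
 (c z e
 (c z e
 (c z e
 (c (nat_lit 0x8000080000800007fef5800008000080000d668f) e e)))))
 (c (b (nat_lit 0x101f8a01)) e
 (c z
 (c z e
 (c (d (nat_lit 0xfff320f)) e e))
 (c (b (nat_lit 0x100e2c03)) e
 (c (b (nat_lit 0x1010de03))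
 (c (nat_lit 0x8000080000800007fec1800008000080000eaca4) e e)
 (c z e
 (c (b (nat_lit 0x10045403)) e
 (c (nat_lit 0x80dfb80dfb80dfb80dfb80ddc80ddcdb9c5) e
 (c (b (nat_lit 0x10380407)) e
 (c z e
 (c z e
 (c z e
 (c z e
 (c (b (nat_lit 0x1018ba0b)) e
 (c z e
 (c (b (nat_lit 0x1015e40d)) e
 (c (b (nat_lit 0x1018360f)) e
 (c (b (nat_lit 0x101ca20f)) e
 (c (b (nat_lit 0x1008120f)) e
 (c (nat_lit 0x805ae805ae805ae804a8804a8805ae51ccf) e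
 (c (nat_lit 0x8027c8008e8008e8027c8027c8027cb1b95) e e)))))))))))))))))))))
 (c (a (nat_lit 0xfe02e00))
 (c (b (nat_lit 0x100f3e01)) e
 (c z e
 (c (b (nat_lit 0x101ad603)) e
 (c z e
 (c z e
 (c (b (nat_lit 0x10173e05)) e
 (c (b (nat_lit 0x10285207)) e
 (c z e
 (c z e
 (c z e
 (c z e
 (c (b (nat_lit 0x1015a40b)) e
 (c z e
 (c (b (nat_lit 0x100eb00d)) e
 (c z e
 (c (b (nat_lit 0x100b600f)) e
 (c z e
 (c z e
 (c (b (nat_lit 0xfff7413)) e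
 (c (nat_lit 0x7fe9e8000080000800008000080000d8855) e e))))))))))))))))))))
 (c (nat_lit 0x7f01e7f01d7f01d7f01d7f01e719c0)
 (c z e
 (c z e
 (c z e
 (c z e
 (c (b (nat_lit 0x10794607)) e
 (c z e
 (c z e
 (c z e
 (c z e
 (c (b (nat_lit 0xffd0c0b)) e
 (c z e
 (c (b (nat_lit 0xff39e0d)) e
 (c z e
 (c z e
 (c z e
 (c (b (nat_lit 0x1011240f)) e
 (c z e
 (c (b (nat_lit 0xffd7813)) e e))))))))))))))))))
 (c (a (nat_lit 0xfe00c00))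
 (c (b (nat_lit 0x101dae03)) e
 (c (b (nat_lit 0x1028ae05))
 (c (nat_lit 0x80000800008000080000800007fc1d80000bb893) e e)
 (c z e
 (c z e
 (c z e
 (c z e
 (c z e
 (c z e
 (c (b (nat_lit 0x1019e80b)) e
 (c (b (nat_lit 0x1012020d)) e
 (c (b (nat_lit 0x1008220f)) e
 (c (b (nat_lit 0xfffa00f)) e e))))))))))))
 (c (a (nat_lit 0xfe01600))
 (c (b (nat_lit 0x10264a07)) e
 (c (b (nat_lit 0x10068c07)) e
 (c z e
 (c z e
 (c (b (nat_lit 0x1031380b)) e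
 (c z e
 (c z e
 (c (b (nat_lit 0x100cb20d)) e
 (c (b (nat_lit 0x1010040f)) e
 (c (b (nat_lit 0xff7ae0f)) e
 (c (b (nat_lit 0xfffd80f)) e
 (c (b (nat_lit 0x100c620f)) e
 (c (nat_lit 0x801347ff007fece801348013480134078d4) e e)))))))))))))
 (c (a (nat_lit 0xfe01200))
 (c z e
 (c z e
 (c z e
 (c z e
 (c z e
 (c z e
 (c (b (nat_lit 0x101da80f)) e
 (c z e
 (c z e
 (c (b (nat_lit 0xffffe0f)) e
 (c (b (nat_lit 0x10040211)) e
 (c (nat_lit 0x80000800007fcac80000800008000043194) e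
 (c (nat_lit 0x8000080000800007fe0c800008000006514) e e)))))))))))))
 (c (a (nat_lit 0xfe01000))
 (c (b (nat_lit 0x1012a40b)) e
 (c z e
 (c z e
 (c z e
 (c z e
 (c z e
 (c z e
 (c z e
 (c (b (nat_lit 0xfffda11)) e
 (c (b (nat_lit 0x10180a11)) e e))))))))))
 (c (a (nat_lit 0xfe05400))
 (c z e
 (c (b (nat_lit 0x1036ee0d)) e e))
 (c (a (nat_lit 0xfe04000))
 (c (b (nat_lit 0x10212a0f)) e
 (c z e
 (c (b (nat_lit 0xfffbc0f)) e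
 (c (b (nat_lit 0x102dbc0f)) e
 (c (nat_lit 0x80000800008103a8103a8103a8103aab550) e
 (c (nat_lit 0x800008000080000814fc814fc814fcbb2d0) e
 (c (nat_lit 0x8000080000800008000081123810e500590) e e)))))))
 (c (a (nat_lit 0xfe01200))
 (c z e
 (c (b (nat_lit 0x1052000f)) e
 (c (b (nat_lit 0x10b33e10)) e
 (c (nat_lit 0x800008000080b3880b3880b3880b3860cd0) e
 (c (nat_lit 0x80000800008000080d0480cf580d2920990) e
 (c (nat_lit 0x800008000080000800008103c8101774d10) e e))))))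
 (c (a (nat_lit 0xfe02600))
 (c (b (nat_lit 0x10fff810)) e
 (c (b (nat_lit 0x1032a210)) e
 (c (nat_lit 0x800008000080ef780ef380ef780ef721290) e
 (c (nat_lit 0x80000800008000080ee280eb980ec1d2910) e e))))
 (c (a (nat_lit 0xfe00400)) e
 (c (a (nat_lit 0xfe00e01)) e
 (c (a (nat_lit 0xfe01001)) e
 (c (a (nat_lit 0xfe03401)) e
 (c (a (nat_lit 0xfe69601)) e
 (c (a (nat_lit 0xfefb203)) e
 (c (a (nat_lit 0xfee5403)) e
 (c z e
 (c (a (nat_lit 0x101dda03)) e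
 (c (a (nat_lit 0xff4f605)) e
 (c (a (nat_lit 0xfecd407)) e
 (c (a (nat_lit 0xff79807)) e
 (c (a (nat_lit 0xffbce07)) e
 (c (a (nat_lit 0xffb4207)) e
 (c z e
 (c z e
 (c (a (nat_lit 0xffcea0b)) e
 (c (a (nat_lit 0xfe0ec0d)) e
 (c (a (nat_lit 0xfebec0f)) e
 (c (nat_lit 0x7ffb5800008000080000800002ea6f) e
 (c (a (nat_lit 0xffdbe0f)) e e))))))))))))))))))))))))))))))))) Tr.c Tr.e (nat_lit 0) C.t5 C.t6 C.t7
noncomputable def tt97 : Tr := beta% (fun (c : Nat → Tr → Tr → Tr) (e : Tr) (z : Nat) (a b : Nat → Nat) =>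
 (c (a (nat_lit 0x101f1000))
 (c (b (nat_lit 0xfe4c001)) e
 (c (b (nat_lit 0xfa9d801)) e
 (c (b (nat_lit 0xfd92403)) e
 (c (b (nat_lit 0xfcaa603)) e
 (c (b (nat_lit 0xfd9e203)) e
 (c (b (nat_lit 0xf613003)) e
 (c z e
 (c z e
 (c (b (nat_lit 0xff98807)) e
 (c z e
 (c z e
 (c z e
 (c z e
 (c z e
 (c z e
 (c (b (nat_lit 0x1014ae0f)) e
 (c z e
 (c (b (nat_lit 0x1017a60f)) e
 (c (b (nat_lit 0xff8bc0f)) e
 (c z e
 (c (b (nat_lit 0xffea234)) e e)))))))))))))))))))))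
 (c (a (nat_lit 0x101f3e00))
 (c (b (nat_lit 0xfbfc003)) e
 (c z e
 (c z e
 (c z e
 (c z e
 (c z e
 (c z e
 (c z e
 (c z e
 (c z e
 (c z e
 (c z e
 (c z e
 (c z e
 (c z e
 (c z e
 (c (b (nat_lit 0xfff800f)) e
 (c z e
 (c (b (nat_lit 0xffc7427)) e e)))))))))))))))))))
 (c (a (nat_lit 0x101fa000))
 (c z e
 (c z e
 (c z e
 (c z e
 (c z e
 (c z e
 (c (b (nat_lit 0xfffb407)) e
 (c z e
 (c z e
 (c z e
 (c z e
 (c z e
 (c z e
 (c z e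
 (c (b (nat_lit 0xffede0f)) e e)))))))))))))))
 (c (a (nat_lit 0x101f8a00))
 (c z e
 (c (nat_lit 0x80000800007ffdb80000800008000080000f6f07) e
 (c z e
 (c z e
 (c z e
 (c (nat_lit 0x8000080000800008000080000800007fe74c9f07) e
 (c (b (nat_lit 0x101ae20b)) e e)))))))
 (c (a (nat_lit 0x101f1200))
 (c (b (nat_lit 0xfbdf607)) e
 (c z e
 (c z e
 (c (b (nat_lit 0xfe6860b)) e
 (c z e
 (c z e
 (c z e
 (c z e
 (c (b (nat_lit 0x1004e60f)) e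
 (c z e
 (c z e
 (c (b (nat_lit 0xff6b617)) e e))))))))))))
 (c (a (nat_lit 0x101f5800))
 (c z e
 (c z e
 (c z e
 (c z e
 (c z e
 (c z e
 (c z e
 (c z e
 (c z e
 (c z e
 (c z e
 (c (nat_lit 0x8000080000800007ffd8800008000080000d2db0) e
 (c (nat_lit 0x800008000080000800007ff7380000800000dbb0) e e)))))))))))))
 (c (a (nat_lit 0x101f6c00)) e
 (c (nat_lit 0x80ffd80fed80fed80fed80fed80fed63841) e
 (c (a (nat_lit 0x10201001)) e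
 (c (a (nat_lit 0x101f8a01)) e
 (c (a (nat_lit 0x101fa001)) e
 (c z e
 (c (a (nat_lit 0x10036803)) e
 (c z e
 (c z e
 (c (a (nat_lit 0x100d8605)) e
 (c (a (nat_lit 0x102eb807)) e
 (c (a (nat_lit 0xfe30207)) e
 (c (a (nat_lit 0x10084007)) e
 (c (a (nat_lit 0xffcda07)) e
 (c (a (nat_lit 0x100a020b)) e
 (c z e
 (c z e
 (c z e
 (c (a (nat_lit 0x10093a0f)) e
 (c (nat_lit 0x80971809718094b809658097180971eb58f) e
 (c (a (nat_lit 0xfffc00f)) e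
 (c z e
 (c (nat_lit 0x80000800007ffbc8000080000800003d5d7) e e)))))))))))))))))))))))))))))) Tr.c Tr.e (nat_lit 0) C.t6 C.t7
noncomputable def tt98 : Tr := beta% (fun (c : Nat → Tr → Tr → Tr) (e : Tr) (z : Nat) (a b : Nat → Nat) =>
 (c (a (nat_lit 0x101f3800))
 (c (b (nat_lit 0xfcf5e00)) e
 (c (b (nat_lit 0xfe1ae01)) e
 (c (b (nat_lit 0xfe03401)) e
 (c (b (nat_lit 0xfe2f601)) e
 (c (b (nat_lit 0xfd2c401)) e
 (c (nat_lit 0x7f1c77f1c77f1c77f1c77f1c77f1b17f1b12c003) e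
 (c (nat_lit 0x7f1517f1517f1517f1517f1517f1517f126b3b03) e
 (c (b (nat_lit 0xf73e603)) e
 (c z e
 (c z e
 (c z e
 (c z e
 (c z e
 (c z e
 (c (b (nat_lit 0x1074a60b)) e
 (c z e
 (c z e
 (c z e
 (c z e
 (c z e
 (c (nat_lit 0x80000800007fd6380000800008000080000e688f) e
 (c (b (nat_lit 0x100a280f)) e e))))))))))))))))))))))
 (c (a (nat_lit 0x101f7a00))
 (c (b (nat_lit 0xfe2fc01)) e
 (c (b (nat_lit 0xfe2fe01)) e
 (c (b (nat_lit 0xfe22601)) e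
 (c (b (nat_lit 0xfd84e03)) e
 (c (b (nat_lit 0xfccf603)) e
 (c (b (nat_lit 0xfa79003)) e
 (c z e
 (c z e
 (c z e
 (c z e
 (c z e
 (c z e
 (c z e
 (c z e
 (c z e
 (c z e
 (c z e
 (c (b (nat_lit 0x1024040f)) e
 (c (b (nat_lit 0xffd6a0f)) e e)))))))))))))))))))
 (c (a (nat_lit 0x101f2600))
 (c (nat_lit 0x7dce67ddd07ddd07ddd07ddd07ddd07ddd0d4981) e
 (c (b (nat_lit 0xfce7203)) e
 (c (nat_lit 0x7d6fe7d5227d6fe7d6fe7d6fe7d6fe7d6fe82803) e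
 (c z e
 (c z e
 (c z e
 (c z e
 (c z e
 (c z e
 (c z e
 (c (b (nat_lit 0x1029060b)) e
 (c z e
 (c z e
 (c z e
 (c (b (nat_lit 0xfff240f)) e e)))))))))))))))
 (c (a (nat_lit 0x101f6e00))
 (c (b (nat_lit 0xfc24203)) e
 (c (nat_lit 0x7c7827c7827c7827c7497c7827c7827c782a5783) e
 (c z e
 (c z e
 (c z e
 (c z e
 (c z e
 (c z e
 (c (b (nat_lit 0xfffce0b)) e
 (c (b (nat_lit 0x102f460b)) e
 (c z e
 (c z e
 (c (b (nat_lit 0x1026780f)) e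
 (c z e
 (c (nat_lit 0x7ff0b7fffc7fffc7fffc7fffc7fffc7fffc0cd0f) e
 (c (b (nat_lit 0xffe160f)) e
 (c (b (nat_lit 0xfff3e29)) e e)))))))))))))))))
 (c (a (nat_lit 0x101f5a00))
 (c z e
 (c (nat_lit 0x800007f3e88000080000800008000080000d6c05) e
 (c z e
 (c z e
 (c z e
 (c (b (nat_lit 0xfd48407)) e
 (c z e
 (c (b (nat_lit 0x100ca80b)) e
 (c z e
 (c (nat_lit 0x80000800008000080000800007fe38800007f80b) e
 (c z e
 (c z e
 (c z e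
 (c (b (nat_lit 0xffe4c0f)) e e))))))))))))))
 (c (a (nat_lit 0x101f0600))
 (c (nat_lit 0x80000800007ff3b800008000080000800004ff07) e
 (c z e
 (c z e
 (c z e
 (c (b (nat_lit 0xfff6e0b)) e e)))))
 (c (a (nat_lit 0x101f5c00)) e
 (c (a (nat_lit 0x101f5600))
 (c z e
 (c z e
 (c z e
 (c z e
 (c (b (nat_lit 0xfea3c0f)) e
 (c z e
 (c z e
 (c (b (nat_lit 0xfff760f)) e
 (c (b (nat_lit 0x10589423)) e e)))))))))
 (c (a (nat_lit 0x101faa00)) e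
 (c (a (nat_lit 0x101f9201))
 (c z e
 (c z e
 (c z e
 (c z e
 (c (b (nat_lit 0xfdaa824)) e e)))))
 (c (a (nat_lit 0x10200401)) e
 (c (nat_lit 0x8104c8104c8104c810378103781037d3ec1) e
 (c (a (nat_lit 0x101ea201)) e
 (c (a (nat_lit 0xffe9203)) e
 (c (a (nat_lit 0xfd9fc03)) e
 (c z e
 (c (a (nat_lit 0x100a0c03)) e
 (c (a (nat_lit 0x10211605)) e
 (c (a (nat_lit 0x101b5007)) e
 (c (a (nat_lit 0x100dbc07)) e
 (c z e
 (c (a (nat_lit 0xff0e207)) e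
 (c (a (nat_lit 0x100c960b)) e
 (c z e
 (c z e
 (c (a (nat_lit 0x1005840d)) e
 (c (nat_lit 0x806068060680597806068060680606728cf) e
 (c z e
 (c (a (nat_lit 0xfffdc0f)) e
 (c (a (nat_lit 0xff74a0f)) e e))))))))))))))))))))))))))))))) Tr.c Tr.e (nat_lit 0) C.t6 C.t7
noncomputable def tt99 : Tr := beta% (fun (c : Nat → Tr → Tr → Tr) (e : Tr) (z : Nat) (a b d : Nat → Nat) =>
 (c (a (nat_lit 0xfe02a00)) tt98
 (c (a (nat_lit 0xfe03000)) tt97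
 (c (a (nat_lit 0xfe03e00))
 (c (b (nat_lit 0x101f2200)) e
 (c (b (nat_lit 0x101f5000))
 (c z e
 (c z e
 (c z e
 (c z e
 (c z e
 (c z e
 (c z e
 (c z e
 (c (d (nat_lit 0xffdca0b)) e e)))))))))
 (c (b (nat_lit 0x101f5c00))
 (c z e
 (c z e
 (c z e
 (c z e
 (c z e
 (c (d (nat_lit 0xffea00b)) e
 (c z e
 (c (d (nat_lit 0xfe5880d)) e e))))))))
 (c (b (nat_lit 0x101f3200)) e
 (c (b (nat_lit 0x101f2800)) e
 (c (b (nat_lit 0x101f9001)) e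
 (c (b (nat_lit 0x101fe601)) e
 (c (b (nat_lit 0x101b7601))
 (c z e
 (c (d (nat_lit 0xfffe20f)) e e))
 (c (nat_lit 0x8100281002810028100280fd680fd87a401) e
 (c (b (nat_lit 0x1018d403)) e
 (c z e
 (c z e
 (c z e
 (c z e
 (c (b (nat_lit 0x10041407)) e
 (c (b (nat_lit 0x10055407)) e
 (c z e
 (c (b (nat_lit 0xfff9c07)) e
 (c (b (nat_lit 0x1002920b)) e
 (c z e
 (c (b (nat_lit 0xffd020b)) e
 (c (b (nat_lit 0xff61c0d)) e
 (c (b (nat_lit 0xffa6c0f)) e e)))))))))))))))))))))))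
 (c (a (nat_lit 0xfe01a00))
 (c (b (nat_lit 0x101f9400)) e
 (c (b (nat_lit 0x101f9000))
 (c z e
 (c z e
 (c z e
 (c z e
 (c z e
 (c (d (nat_lit 0xfbd700b)) e
 (c z e
 (c (d (nat_lit 0xfeaa00f)) e
 (c z e
 (c z e
 (c z e
 (c (d (nat_lit 0x105f4e19)) e e))))))))))))
 (c (b (nat_lit 0x101f5e00)) e
 (c (b (nat_lit 0x101fba01)) e
 (c (b (nat_lit 0x101fb201)) e
 (c (nat_lit 0x8101781017810178100281002810025f101) e
 (c (b (nat_lit 0x10192001)) e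
 (c (b (nat_lit 0x10124203)) e
 (c (b (nat_lit 0x10116403)) e
 (c (b (nat_lit 0x10103403)) e
 (c z e
 (c (b (nat_lit 0xfb4ee05)) e
 (c z e
 (c (b (nat_lit 0x10074a07)) e
 (c z e
 (c z e
 (c (b (nat_lit 0x1006120b)) e
 (c (b (nat_lit 0xfff480b)) e
 (c (b (nat_lit 0xffaa40b)) e
 (c z e
 (c z e
 (c z e
 (c (b (nat_lit 0xffff00f)) e e)))))))))))))))))))))))
 (c (a (nat_lit 0xfe02400))
 (c (b (nat_lit 0x101f8a00))
 (c z e
 (c z e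
 (c z e
 (c z e
 (c z e
 (c (nat_lit 0x7c6377c6377c2a87c6377c6377c6377c6378ad8d) e
 (c (d (nat_lit 0xf7bec0f)) e e)))))))
 (c (b (nat_lit 0x101f8601))
 (c (nat_lit 0x8000080000800008000080000800007fdd31d187) e
 (c z e
 (c z e
 (c z e
 (c (nat_lit 0x7bfad7bfad7be157bfad7bfad7bfad7bfad8de8f) e e)))))
 (c (b (nat_lit 0x101fc201)) e
 (c (b (nat_lit 0x101fd001)) e
 (c (b (nat_lit 0x10110e01)) e
 (c (b (nat_lit 0x1013ec03)) e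
 (c (b (nat_lit 0x100fb403)) e
 (c (b (nat_lit 0x101a5603)) e
 (c z e
 (c (b (nat_lit 0x1029f005)) e
 (c (b (nat_lit 0x1019ea07)) e
 (c (b (nat_lit 0x101be207)) e
 (c (b (nat_lit 0x100d8607)) e
 (c (b (nat_lit 0xffb5c07)) e
 (c (b (nat_lit 0x1008020b)) e
 (c (b (nat_lit 0x10073e0b)) e
 (c z e
 (c (b (nat_lit 0x100f120d)) e
 (c (b (nat_lit 0x1019a60f)) e
 (c (b (nat_lit 0x100d060f)) e e)))))))))))))))))))) tt96)))))) Tr.c Tr.e (nat_lit 0) C.t5 C.t6 C.t7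
noncomputable def tt100 : Tr := beta% (fun (c : Nat → Tr → Tr → Tr) (e : Tr) (z : Nat) (a b : Nat → Nat) =>
 (c (nat_lit 0x7f00a7f00a7f00b7f00b7f00b83120)
 (c (b (nat_lit 0x100f6201)) e
 (c z e
 (c (b (nat_lit 0x10151c03)) e
 (c (b (nat_lit 0x100ee603)) e
 (c (b (nat_lit 0x10158c03)) e
 (c z e
 (c z e
 (c z e
 (c z e
 (c z e
 (c z e
 (c (b (nat_lit 0xfffb60b)) e
 (c (b (nat_lit 0x1000e60b)) e
 (c z e
 (c (b (nat_lit 0x100b180f)) e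
 (c z e
 (c z e
 (c z e
 (c z e
 (c (b (nat_lit 0x100b2c13)) e
 (c (b (nat_lit 0x101c7e15)) e e)))))))))))))))))))))
 (c (a (nat_lit 0xfe00c00))
 (c z e
 (c (b (nat_lit 0x10207e03)) e
 (c z e
 (c z e
 (c z e
 (c z e
 (c z e
 (c z e
 (c z e
 (c (b (nat_lit 0xffa260b)) e
 (c z e
 (c z e
 (c (nat_lit 0x800007fff17fff17ffff7ffff800005578f) e
 (c z e
 (c z e
 (c z e
 (c (b (nat_lit 0x10193c13)) e e)))))))))))))))))
 (c (a (nat_lit 0xfe01200))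
 (c (b (nat_lit 0x101b3003)) e
 (c z e
 (c z e
 (c z e
 (c (b (nat_lit 0xff48607)) e
 (c z e
 (c z e
 (c z e
 (c z e
 (c (b (nat_lit 0xffc9a0d)) e
 (c (b (nat_lit 0x1009540f)) e
 (c z e
 (c (b (nat_lit 0x1002ce0f)) e e)))))))))))))
 (c (a (nat_lit 0xfe01200))
 (c (b (nat_lit 0x10255805)) e
 (c (b (nat_lit 0x1013f807)) e
 (c z e
 (c (b (nat_lit 0xff4ce07)) e
 (c (b (nat_lit 0xff9ce07)) e
 (c z e
 (c (b (nat_lit 0x1024fc0b)) e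
 (c (b (nat_lit 0x100a720d)) e
 (c (b (nat_lit 0x1017280f)) e
 (c z e
 (c z e
 (c z e
 (c z e
 (c (b (nat_lit 0x10037e14)) e e))))))))))))))
 (c (a (nat_lit 0xfdfee00))
 (c z e
 (c z e
 (c z e
 (c (b (nat_lit 0xfe08a0b)) e
 (c z e
 (c z e
 (c (b (nat_lit 0x101b420f)) e
 (c z e
 (c (b (nat_lit 0x1004fc0f)) e
 (c z e
 (c (nat_lit 0x804168041680416803d3804168041667891) e
 (c (b (nat_lit 0x1006e411)) e
 (c (nat_lit 0x8026180261802618026180261801ce0f554) e e)))))))))))))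
 (c (a (nat_lit 0xfdfd800))
 (c z e
 (c z e
 (c z e
 (c z e
 (c z e
 (c z e
 (c z e
 (c (b (nat_lit 0xffc040f)) e
 (c (b (nat_lit 0x1005da11)) e
 (c (b (nat_lit 0x10197811)) e
 (c (b (nat_lit 0x10150211)) e
 (c (nat_lit 0x80000800008000080000800007fe64955d1) e e))))))))))))
 (c (a (nat_lit 0xfe04800))
 (c z e
 (c z e
 (c z e
 (c z e
 (c z e
 (c z e
 (c z e
 (c (nat_lit 0x80000800008000080563805638056392a50) e
 (c z e
 (c (nat_lit 0x80000800008000080000800007ff7079a10) e e))))))))))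
 (c (a (nat_lit 0xfdfd400))
 (c z e
 (c z e
 (c (b (nat_lit 0x103a160f)) e
 (c (b (nat_lit 0x101c0c0f)) e
 (c (b (nat_lit 0x1047fc10)) e
 (c (nat_lit 0x8000080000826bb826bb826bb826bb67350) e
 (c (nat_lit 0x800008000080000810b6810b6810b6c9810) e
 (c (nat_lit 0x80000800008000080000810928109235ad0) e e))))))))
 (c (a (nat_lit 0xfe01800))
 (c z e
 (c z e
 (c (b (nat_lit 0x10e5de10)) e
 (c (b (nat_lit 0x1020ac10)) e
 (c (nat_lit 0x800008000080254802548025480254b7110) e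
 (c (nat_lit 0x80000800008000080fb280fb280fb2a4910) e e))))))
 (c (a (nat_lit 0xfdffe00))
 (c (b (nat_lit 0x11000410)) e
 (c (b (nat_lit 0x1045c210)) e
 (c (b (nat_lit 0x101a5610)) e
 (c (nat_lit 0x800008000080cef80cef80cef80ceffc150) e
 (c (nat_lit 0x80000800008000080f0280f2080efacbe10) e
 (c (nat_lit 0x800008000080000800008105b8107c4bed0) e e))))))
 (c (a (nat_lit 0xfdffc00)) e
 (c (a (nat_lit 0xfe00400)) e
 (c (a (nat_lit 0xfdff801)) e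
 (c (a (nat_lit 0xfe03401)) e
 (c (a (nat_lit 0xfdfe401)) e
 (c (a (nat_lit 0xfe55e01)) e
 (c (a (nat_lit 0xfea0003)) e
 (c (a (nat_lit 0xfef0603)) e
 (c (a (nat_lit 0x1001dc03)) e
 (c (a (nat_lit 0x103baa03)) e
 (c (a (nat_lit 0xff2be05)) e
 (c (a (nat_lit 0xff06407)) e
 (c (a (nat_lit 0xff2be07)) e
 (c (a (nat_lit 0xffb8a07)) e
 (c z e
 (c (a (nat_lit 0x1007620b)) e
 (c z e
 (c (a (nat_lit 0xff27e0d)) e
 (c (a (nat_lit 0xff27c0f)) e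
 (c z e
 (c z e
 (c (nat_lit 0x7f9687fa1a7fa1a7fa1a7fa1a61eaf) e e))))))))))))))))))))))))))))))))) Tr.c Tr.e (nat_lit 0) C.t5 C.t6
noncomputable def tt101 : Tr := beta% (fun (c : Nat → Tr → Tr → Tr) (e : Tr) (z : Nat) (a b : Nat → Nat) =>
 (c (a (nat_lit 0x101f5c00))
 (c (b (nat_lit 0xfb14403)) e
 (c z e
 (c z e
 (c z e
 (c z e
 (c z e
 (c z e
 (c z e
 (c z e
 (c z e
 (c z e
 (c z e
 (c z e
 (c z e
 (c z e
 (c (b (nat_lit 0x100d0e0f)) e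
 (c z e
 (c (b (nat_lit 0xfffbe17)) e e))))))))))))))))))
 (c (a (nat_lit 0x101f7a00)) e
 (c (a (nat_lit 0x101f9200))
 (c z e
 (c z e
 (c z e
 (c z e
 (c z e
 (c z e
 (c z e
 (c z e
 (c z e
 (c z e
 (c z e
 (c z e
 (c z e
 (c (b (nat_lit 0x1017ba17)) e
 (c (b (nat_lit 0xfffca17)) e e)))))))))))))))
 (c (a (nat_lit 0x101f7a00))
 (c z e
 (c z e
 (c z e
 (c z e
 (c z e
 (c (b (nat_lit 0xffef80d)) e e))))))
 (c (a (nat_lit 0x101f6200)) e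
 (c (a (nat_lit 0x101f8800)) e
 (c (a (nat_lit 0x101fe001)) e
 (c (a (nat_lit 0x101fc201)) e
 (c (a (nat_lit 0x101fe201)) e
 (c (a (nat_lit 0x1010c201)) e
 (c (a (nat_lit 0x1019e603)) e
 (c z e
 (c z e
 (c z e
 (c z e
 (c (a (nat_lit 0xff99007)) e
 (c z e
 (c z e
 (c (a (nat_lit 0xff86a07)) e
 (c z e
 (c z e
 (c z e
 (c z e
 (c (nat_lit 0x80000800007fffc7fffc80000800004dc0f) e
 (c z e
 (c (a (nat_lit 0xffb5e0f)) e e))))))))))))))))))))))))))) Tr.c Tr.e (nat_lit 0) C.t6 C.t7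
noncomputable def tt102 : Tr := beta% (fun (c : Nat → Tr → Tr → Tr) (e : Tr) (z : Nat) (a b : Nat → Nat) =>
 (c (a (nat_lit 0x101f4e00))
 (c (b (nat_lit 0xfe3a601)) e
 (c (b (nat_lit 0xfe26001)) e
 (c (b (nat_lit 0xfe26201)) e
 (c (b (nat_lit 0xfb28203)) e
 (c z e
 (c z e
 (c (b (nat_lit 0xfde7003)) e
 (c z e
 (c z e
 (c z e
 (c z e
 (c z e
 (c z e
 (c z e
 (c z e
 (c (b (nat_lit 0x1006de0f)) e
 (c (b (nat_lit 0x1009780f)) e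
 (c (b (nat_lit 0x101a3c0f)) e
 (c (nat_lit 0x7f75d800008000080000800008000080000b0f8f) e
 (c (b (nat_lit 0xfffac17)) e e))))))))))))))))))))
 (c (a (nat_lit 0x101fa600))
 (c (b (nat_lit 0xfe26c01)) e
 (c (b (nat_lit 0xfe1aa03)) e
 (c z e
 (c z e
 (c z e
 (c z e
 (c z e
 (c z e
 (c z e
 (c z e
 (c z e
 (c z e
 (c z e
 (c z e
 (c z e
 (c z e
 (c z e
 (c (b (nat_lit 0x101b8a17)) e
 (c z e
 (c (b (nat_lit 0x100f5227)) e e))))))))))))))))))))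
 (c (a (nat_lit 0x101f9c00))
 (c z e
 (c z e
 (c z e
 (c z e
 (c z e
 (c z e
 (c z e
 (c z e
 (c z e
 (c z e
 (c z e
 (c z e
 (c z e
 (c z e
 (c z e
 (c z e
 (c z e
 (c (b (nat_lit 0xfff9c2c)) e e))))))))))))))))))
 (c (a (nat_lit 0x101fac00))
 (c z e
 (c z e
 (c z e
 (c z e
 (c z e
 (c z e
 (c z e
 (c (b (nat_lit 0xfff120b)) e
 (c z e
 (c z e
 (c z e
 (c z e
 (c z e
 (c z e
 (c (b (nat_lit 0xffe5017)) e
 (c (b (nat_lit 0xffe2229)) e e))))))))))))))))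
 (c (a (nat_lit 0x101f7600))
 (c z e
 (c z e
 (c z e
 (c z e
 (c z e
 (c (b (nat_lit 0xfff360b)) e e))))))
 (c (a (nat_lit 0x101f6c00))
 (c z e
 (c z e
 (c z e
 (c z e
 (c z e
 (c z e
 (c z e
 (c z e
 (c z e
 (c z e
 (c (b (nat_lit 0xffdc617)) e e)))))))))))
 (c (a (nat_lit 0x101f9a00)) e
 (c (a (nat_lit 0x101f4400)) e
 (c (a (nat_lit 0x101fe601)) e
 (c (a (nat_lit 0x101fc601)) e
 (c (a (nat_lit 0x101fe801)) e
 (c (a (nat_lit 0x10148a01)) e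
 (c z e
 (c z e
 (c z e
 (c z e
 (c z e
 (c z e
 (c (a (nat_lit 0x1006e807)) e
 (c (a (nat_lit 0x1004de07)) e
 (c z e
 (c (a (nat_lit 0x1005840b)) e
 (c (a (nat_lit 0x1001960b)) e
 (c z e
 (c (a (nat_lit 0xfd6e00f)) e e)))))))))))))))))))))))))) Tr.c Tr.e (nat_lit 0) C.t6 C.t7
noncomputable def tt103 : Tr := beta% (fun (c : Nat → Tr → Tr → Tr) (e : Tr) (z : Nat) (a b : Nat → Nat) =>
 (c (a (nat_lit 0x101fd600))
 (c (b (nat_lit 0xfe1ec00)) e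
 (c (b (nat_lit 0xfe1ee00)) e
 (c (b (nat_lit 0xfe29201)) e
 (c (b (nat_lit 0xfe2b201)) e
 (c (b (nat_lit 0xfe1ca01)) e
 (c (b (nat_lit 0xfe21201)) e
 (c (b (nat_lit 0xfb6be03)) e
 (c z e
 (c z e
 (c z e
 (c z e
 (c z e
 (c z e
 (c z e
 (c z e
 (c z e
 (c z e
 (c z e
 (c z e
 (c (b (nat_lit 0xfff740f)) e
 (c (b (nat_lit 0x100bb60f)) e
 (c (b (nat_lit 0xfff2e0f)) e e))))))))))))))))))))))
 (c (a (nat_lit 0x101f7c00))
 (c (b (nat_lit 0xfe2d001)) e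
 (c (b (nat_lit 0xfe29001)) e
 (c (b (nat_lit 0xfe24401)) e
 (c (b (nat_lit 0xfe21601)) e
 (c (b (nat_lit 0xfe22203)) e
 (c z e
 (c z e
 (c (b (nat_lit 0xfe03203)) e
 (c z e
 (c z e
 (c z e
 (c z e
 (c z e
 (c z e
 (c z e
 (c z e
 (c (b (nat_lit 0xfffca0f)) e
 (c z e
 (c z e
 (c z e
 (c (b (nat_lit 0x1005b617)) e e)))))))))))))))))))))
 (c (a (nat_lit 0x101f6200))
 (c (b (nat_lit 0xfe31201)) e
 (c (b (nat_lit 0xfe2c201)) e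
 (c (b (nat_lit 0xfcbde03)) e
 (c z e
 (c z e
 (c z e
 (c z e
 (c z e
 (c z e
 (c z e
 (c z e
 (c z e
 (c z e
 (c (b (nat_lit 0x1023a20d)) e
 (c z e
 (c z e
 (c z e
 (c (b (nat_lit 0xffe4a0f)) e
 (c z e
 (c z e
 (c (b (nat_lit 0xfffc41b)) e e)))))))))))))))))))))
 (c (a (nat_lit 0x101f8e00))
 (c (b (nat_lit 0xfe1c803)) e
 (c z e
 (c z e
 (c z e
 (c z e
 (c z e
 (c z e
 (c z e
 (c z e
 (c z e
 (c z e
 (c z e
 (c z e
 (c (b (nat_lit 0xffe520f)) e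
 (c z e
 (c (b (nat_lit 0x10061a0f)) e e))))))))))))))))
 (c (a (nat_lit 0x101fc400))
 (c (b (nat_lit 0xfc3f203)) e
 (c z e
 (c z e
 (c z e
 (c (b (nat_lit 0x10119007)) e
 (c z e
 (c z e
 (c z e
 (c z e
 (c z e
 (c z e
 (c z e
 (c (b (nat_lit 0xffe9c0f)) e
 (c (b (nat_lit 0xffff20f)) e
 (c z e
 (c z e
 (c (nat_lit 0x8000080000800007ffa48000080000800002ea1b) e e)))))))))))))))))
 (c (a (nat_lit 0x101f9000))
 (c z e
 (c z e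
 (c z e
 (c z e
 (c z e
 (c z e
 (c z e
 (c z e
 (c z e
 (c z e
 (c z e
 (c (b (nat_lit 0xffefa0f)) e e))))))))))))
 (c (a (nat_lit 0x101f6400))
 (c z e
 (c z e
 (c z e
 (c z e
 (c z e
 (c z e
 (c z e
 (c z e
 (c z e
 (c z e
 (c (b (nat_lit 0x1029d017)) e
 (c (b (nat_lit 0x100e0c1b)) e
 (c (b (nat_lit 0x10223a1b)) e e)))))))))))))
 (c (a (nat_lit 0x101f9800)) e
 (c (a (nat_lit 0x101fb400))
 (c (b (nat_lit 0xffe660b)) e e)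
 (c (a (nat_lit 0x101f8000)) e
 (c (a (nat_lit 0x101fd801)) e
 (c (a (nat_lit 0x10201e01)) e
 (c (a (nat_lit 0x101f2401)) e
 (c (a (nat_lit 0x101ff201)) e
 (c (a (nat_lit 0xfeed603)) e
 (c z e
 (c (a (nat_lit 0x10199a03)) e
 (c (a (nat_lit 0x10026603)) e
 (c (a (nat_lit 0x100cb005)) e
 (c (a (nat_lit 0x10094607)) e
 (c (a (nat_lit 0x10021c07)) e
 (c z e
 (c z e
 (c z e
 (c z e
 (c (a (nat_lit 0xff64e0d)) e
 (c z e
 (c z e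
 (c z e
 (c z e
 (c (a (nat_lit 0xfff1417)) e e)))))))))))))))))))))))))))))))) Tr.c Tr.e (nat_lit 0) C.t6 C.t7
noncomputable def tt104 : Tr := beta% (fun (c : Nat → Tr → Tr → Tr) (e : Tr) (z : Nat) (a b : Nat → Nat) =>
 (c (a (nat_lit 0x101e3800))
 (c (b (nat_lit 0xfe51e00)) e
 (c (b (nat_lit 0xfe35001)) e
 (c (b (nat_lit 0xfdea201)) e
 (c (b (nat_lit 0xfe36801)) e
 (c (b (nat_lit 0xfe34e01)) e
 (c (b (nat_lit 0xfe2aa03)) e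
 (c z e
 (c z e
 (c z e
 (c z e
 (c z e
 (c (b (nat_lit 0xffcb807)) e
 (c z e
 (c z e
 (c z e
 (c z e
 (c z e
 (c z e
 (c z e
 (c z e
 (c z e
 (c (nat_lit 0x7fdff7ffbe7ffbe7ffbe7ffbe7ffbe7ffbe1181b) e
 (c (nat_lit 0x7ffb07fde37ffb07ffb07ffb07ffb07ffb0ce71b) e
 (c (nat_lit 0x80000800007fd76800008000080000800001411d) e
 (c (nat_lit 0x80000800008000080000800007fde980000e4a9d) e e)))))))))))))))))))))))))
 (c (a (nat_lit 0x101fc400))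
 (c (b (nat_lit 0xfe29401)) e
 (c (b (nat_lit 0xfe23601)) e
 (c (b (nat_lit 0xfe1ee01)) e
 (c (nat_lit 0x7f0c87f0c87f0c87f0c87f0c87f0af7f0b34c103) e
 (c z e
 (c z e
 (c z e
 (c z e
 (c z e
 (c (b (nat_lit 0xfffbc07)) e
 (c z e
 (c z e
 (c z e
 (c (b (nat_lit 0x1048a20b)) e
 (c z e
 (c (b (nat_lit 0x100c540f)) e
 (c z e
 (c z e
 (c z e
 (c (nat_lit 0x7fc59800008000080000800008000080000da61b) e
 (c (b (nat_lit 0xffffe1b)) e e)))))))))))))))))))))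
 (c (a (nat_lit 0x101fde00))
 (c (b (nat_lit 0xfe19201)) e
 (c (b (nat_lit 0xfb81a03)) e
 (c z e
 (c z e
 (c (b (nat_lit 0xfe21203)) e
 (c z e
 (c z e
 (c z e
 (c z e
 (c z e
 (c (b (nat_lit 0x103dfe0b)) e
 (c z e
 (c z e
 (c z e
 (c z e
 (c z e
 (c z e
 (c (b (nat_lit 0x1006a21b)) e
 (c (b (nat_lit 0x10138e1b)) e e)))))))))))))))))))
 (c (a (nat_lit 0x101fd400))
 (c z e
 (c z e
 (c z e
 (c z e
 (c z e
 (c z e
 (c z e
 (c z e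
 (c z e
 (c z e
 (c z e
 (c z e
 (c z e
 (c z e
 (c z e
 (c (b (nat_lit 0x10152c1b)) e
 (c z e
 (c (b (nat_lit 0xfffe81d)) e e))))))))))))))))))
 (c (a (nat_lit 0x10203200))
 (c z e
 (c z e
 (c z e
 (c z e
 (c z e
 (c z e
 (c (b (nat_lit 0x101cbc0b)) e e)))))))
 (c (a (nat_lit 0x101ffe00))
 (c z e
 (c z e
 (c z e
 (c z e
 (c z e
 (c z e
 (c z e
 (c z e
 (c z e
 (c z e
 (c (b (nat_lit 0xfffee0f)) e e)))))))))))
 (c (a (nat_lit 0x10201200))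
 (c z e
 (c z e
 (c z e
 (c z e
 (c z e
 (c z e
 (c z e
 (c z e
 (c z e
 (c z e
 (c z e
 (c (b (nat_lit 0xfff761d)) e e))))))))))))
 (c (a (nat_lit 0x10200200))
 (c z e
 (c z e
 (c z e
 (c z e
 (c z e
 (c z e
 (c z e
 (c (b (nat_lit 0xff6061b)) e
 (c (b (nat_lit 0xfff941b)) e
 (c z e
 (c z e
 (c z e
 (c z e
 (c (nat_lit 0x8000080000800008000080000800007fd82a4c9f) e e))))))))))))))
 (c (a (nat_lit 0x101fd000)) e
 (c (a (nat_lit 0x10203800)) e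
 (c (nat_lit 0x8106b810618106181066810668106638841) e
 (c (a (nat_lit 0x101f7801)) e
 (c (a (nat_lit 0x10212a01)) e
 (c (nat_lit 0x80fcc80ea880fcc80fcc80fcc80fcca3f01) e
 (c z e
 (c (a (nat_lit 0x101f4803)) e
 (c (a (nat_lit 0x101c9403)) e
 (c (a (nat_lit 0x10077803)) e
 (c (a (nat_lit 0x100cf605)) e
 (c (a (nat_lit 0x1006c807)) e
 (c z e
 (c z e
 (c z e
 (c (a (nat_lit 0xffc720b)) e
 (c (a (nat_lit 0xfda3e0b)) e
 (c z e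
 (c z e
 (c z e
 (c (nat_lit 0x800007feb77feb78000080000800005458f) e e)))))))))))))))))))))))))))))) Tr.c Tr.e (nat_lit 0) C.t6 C.t7
noncomputable def tt105 : Tr := beta% (fun (c : Nat → Tr → Tr → Tr) (e : Tr) (z : Nat) (a b : Nat → Nat) =>
 (c (a (nat_lit 0x1020e200))
 (c (b (nat_lit 0xfd42800)) e
 (c (b (nat_lit 0xfdfe400)) e
 (c (b (nat_lit 0xfe56800)) e
 (c (b (nat_lit 0xfe01600)) e
 (c (b (nat_lit 0xfdffa00)) e
 (c (b (nat_lit 0xfe0d001)) e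
 (c (b (nat_lit 0xfdee601)) e
 (c (b (nat_lit 0xfdfda01)) e
 (c (b (nat_lit 0xfe03a01)) e
 (c (b (nat_lit 0xfdf8403)) e
 (c (b (nat_lit 0xfe40a03)) e
 (c z e
 (c z e
 (c z e
 (c (b (nat_lit 0xfd83007)) e
 (c z e
 (c z e
 (c (b (nat_lit 0xff3ca07)) e
 (c (b (nat_lit 0xff80a0b)) e
 (c z e
 (c z e
 (c (b (nat_lit 0x100d5a0f)) e
 (c (nat_lit 0x809a180b0f80b0f80b0f80b0f80b0f80b0f5d58f) e
 (c z e
 (c (b (nat_lit 0xffe5e0f)) e e)))))))))))))))))))))))))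
 (c (a (nat_lit 0x10202a00))
 (c (b (nat_lit 0xfe04800)) e
 (c (b (nat_lit 0xfe33600)) e
 (c (b (nat_lit 0xfe1d800)) e
 (c (b (nat_lit 0xfe18e01)) e
 (c (b (nat_lit 0xfe11a01)) e
 (c (b (nat_lit 0xfe11601)) e
 (c (b (nat_lit 0xfe20201)) e
 (c (b (nat_lit 0xfe0aa03)) e
 (c (b (nat_lit 0xfe6f003)) e
 (c z e
 (c (b (nat_lit 0xff00403)) e
 (c z e
 (c z e
 (c z e
 (c z e
 (c z e
 (c (b (nat_lit 0xfefa80b)) e
 (c z e
 (c z e
 (c z e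
 (c (b (nat_lit 0x100ac00f)) e
 (c z e
 (c z e
 (c (b (nat_lit 0xfff841b)) e e)))))))))))))))))))))))) tt104))) Tr.c Tr.e (nat_lit 0) C.t6 C.t7
noncomputable def tt106 : Tr := beta% (fun (c : Nat → Tr → Tr → Tr) (e : Tr) (z : Nat) (a b d : Nat → Nat) =>
 (c (a (nat_lit 0xfdfe200)) tt105
 (c (a (nat_lit 0xfe00e00)) tt103
 (c (a (nat_lit 0xfe02000)) tt102
 (c (a (nat_lit 0xfe01e00)) tt101
 (c (a (nat_lit 0xfe00c00))
 (c (b (nat_lit 0x101fba00))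
 (c z e
 (c z e
 (c z e
 (c z e
 (c z e
 (c (d (nat_lit 0xfff8207)) e
 (c z e
 (c z e
 (c z e
 (c z e
 (c z e
 (c z e
 (c z e
 (c z e
 (c (d (nat_lit 0xfff3e19)) e e)))))))))))))))
 (c (b (nat_lit 0x101fb200)) e
 (c (b (nat_lit 0x101f9a00)) e
 (c (b (nat_lit 0x101f7600)) e
 (c (b (nat_lit 0x101ff801)) e
 (c (b (nat_lit 0x101fe801)) e
 (c (b (nat_lit 0x101ffa01)) e
 (c (b (nat_lit 0x10201001)) e
 (c (b (nat_lit 0x100b6a03)) e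
 (c (b (nat_lit 0x101ed803)) e
 (c z e
 (c z e
 (c z e
 (c z e
 (c z e
 (c (b (nat_lit 0x10006807)) e
 (c z e
 (c z e
 (c z e
 (c z e
 (c z e
 (c (b (nat_lit 0xfff500f)) e
 (c z e
 (c z e
 (c (nat_lit 0x8000080000800007ff2d7ff2d8000031bd7) e e)))))))))))))))))))))))))
 (c (a (nat_lit 0xfe01000))
 (c (b (nat_lit 0x101fa600)) e
 (c (b (nat_lit 0x101f9c00)) e
 (c (b (nat_lit 0x101fe601)) e
 (c (b (nat_lit 0x10201001)) e
 (c (b (nat_lit 0x101fee01)) e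
 (c (b (nat_lit 0x101f9201)) e
 (c (b (nat_lit 0x100dde03)) e
 (c (b (nat_lit 0x100e3e03)) e
 (c (b (nat_lit 0x100f5203)) e
 (c z e
 (c z e
 (c z e
 (c z e
 (c z e
 (c z e
 (c z e
 (c z e
 (c z e
 (c (b (nat_lit 0x101d100f)) e
 (c (nat_lit 0x802f08035a802248035a8035a8035aeff8f) e e))))))))))))))))))))
 (c (a (nat_lit 0xfe01000))
 (c (nat_lit 0x8097d8097c8097c8097c8097c8097cad001) e
 (c (b (nat_lit 0x101fde01)) e
 (c (b (nat_lit 0x101fee01)) e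
 (c (b (nat_lit 0x101ff601)) e
 (c (b (nat_lit 0x10160803)) e
 (c (b (nat_lit 0x100e4603)) e
 (c (b (nat_lit 0x1005e603)) e
 (c z e
 (c (b (nat_lit 0xff87e05)) e
 (c z e
 (c (b (nat_lit 0xff08207)) e
 (c z e
 (c z e
 (c z e
 (c z e
 (c z e
 (c z e
 (c (b (nat_lit 0xffff60f)) e
 (c (b (nat_lit 0xfff940f)) e
 (c z e
 (c (b (nat_lit 0x10117213)) e
 (c (b (nat_lit 0x101eae15)) e e)))))))))))))))))))))) tt100)))))))) Tr.c Tr.e (nat_lit 0) C.t5 C.t6 C.t7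
noncomputable def tt107 : Tr := beta% (fun (c : Nat → Tr → Tr → Tr) (e : Tr) (z : Nat) (a b d : Nat → Nat) =>
 (c (a (nat_lit 0xfe00800))
 (c (b (nat_lit 0x100f8801)) e
 (c (b (nat_lit 0x101fd401)) e
 (c (nat_lit 0x810918109181091810918101281012f95c1) e
 (c (b (nat_lit 0x101e7403)) e
 (c (b (nat_lit 0x10214203)) e
 (c z e
 (c z e
 (c z e
 (c z e
 (c z e
 (c z e
 (c (b (nat_lit 0xff35c07)) e
 (c z e
 (c (b (nat_lit 0x1009040d)) e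
 (c z e
 (c (b (nat_lit 0x1007520f)) e
 (c z e
 (c z e
 (c z e
 (c (b (nat_lit 0xfff1e13)) e
 (c z e
 (c (b (nat_lit 0xfffde15)) e e))))))))))))))))))))))
 (c (a (nat_lit 0xfe02a00))
 (c (b (nat_lit 0x101f9001))
 (c z e
 (c (d (nat_lit 0xfb74e13)) e
 (c z e
 (c (d (nat_lit 0xfffd413)) e e))))
 (c (b (nat_lit 0x104dac03))
 (c (d (nat_lit 0xfd4ce13)) e
 (c (d (nat_lit 0xfdec213)) e e))
 (c z e
 (c z e
 (c (b (nat_lit 0xffb2803)) e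
 (c z e
 (c z e
 (c z e
 (c (b (nat_lit 0x1024e607)) e
 (c (b (nat_lit 0xfe09c07)) e
 (c z e
 (c z e
 (c (b (nat_lit 0xffe0e0f)) e
 (c z e
 (c z e
 (c (b (nat_lit 0xffec00f)) e
 (c (b (nat_lit 0x100da013)) e
 (c (b (nat_lit 0x10042013)) e e))))))))))))))))))
 (c (a (nat_lit 0xfe00e00))
 (c (b (nat_lit 0x1016e403)) e
 (c z e
 (c z e
 (c z e
 (c z e
 (c z e
 (c z e
 (c z e
 (c z e
 (c z e
 (c z e
 (c z e
 (c z e
 (c z e
 (c (b (nat_lit 0x10047011)) e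
 (c (b (nat_lit 0x10068e14)) e
 (c (b (nat_lit 0x10071618)) e e)))))))))))))))))
 (c (a (nat_lit 0xfe00a00))
 (c (b (nat_lit 0x10112203)) e
 (c (b (nat_lit 0xff3e405)) e
 (c z e
 (c (b (nat_lit 0xff24c07)) e
 (c z e
 (c z e
 (c z e
 (c z e
 (c z e
 (c z e
 (c z e
 (c (b (nat_lit 0xffcda0f)) e e))))))))))))
 (c (a (nat_lit 0xfe00e00))
 (c (b (nat_lit 0x10114c07)) e
 (c z e
 (c z e
 (c z e
 (c z e
 (c z e
 (c (b (nat_lit 0x1020380f)) e e)))))))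
 (c (a (nat_lit 0xfdffa00))
 (c z e
 (c z e
 (c z e
 (c z e
 (c z e
 (c (b (nat_lit 0xfff940f)) e
 (c z e
 (c z e
 (c (b (nat_lit 0x10086011)) e
 (c (b (nat_lit 0x10182a11)) e
 (c (b (nat_lit 0x101d7411)) e e)))))))))))
 (c (a (nat_lit 0xfe05c00))
 (c z e
 (c z e
 (c (b (nat_lit 0x104f7a0f)) e
 (c (b (nat_lit 0x1007f20f)) e
 (c z e
 (c (b (nat_lit 0x1008800f)) e
 (c (nat_lit 0x7ffaa800008000080000800008000027c50) e
 (c (nat_lit 0x80000800008041a8041a8041a8041a3b110) e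
 (c (nat_lit 0x800008000080000805b88058d805c8b3490) e
 (c z e
 (c (nat_lit 0x80000800008000080000800007ff5132450) e e)))))))))))
 (c (a (nat_lit 0xfe00a00))
 (c (b (nat_lit 0x1030020f)) e
 (c (b (nat_lit 0x104cd60f)) e
 (c (b (nat_lit 0x104dc20f)) e
 (c z e
 (c (b (nat_lit 0x102b6a10)) e
 (c (nat_lit 0x818348182e81834818348183481834c6290) e
 (c (nat_lit 0x80000800008075b8075b8075b8075bbc290) e
 (c (nat_lit 0x800008000080000808ce808ce808ce74b90) e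
 (c (nat_lit 0x8000080000800008000080c5180c51b5490) e e)))))))))
 (c (a (nat_lit 0xfe01400))
 (c z e
 (c (b (nat_lit 0x1038c40f)) e
 (c (b (nat_lit 0x10fc7610)) e
 (c (b (nat_lit 0x1014f210)) e
 (c (b (nat_lit 0xffcfe10)) e
 (c (nat_lit 0x800008000080f6480f6480f6480f64137d0) e
 (c (nat_lit 0x800008000080000810048100481004122d0) e
 (c (nat_lit 0x8000080000800008000080fe180fe1c2990) e e))))))))
 (c (a (nat_lit 0xfe01000))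
 (c (b (nat_lit 0x11000c10)) e
 (c (b (nat_lit 0x10251010)) e
 (c (b (nat_lit 0x100dee10)) e
 (c (b (nat_lit 0x101c9810)) e
 (c (nat_lit 0x800008000080eda80eda80eda80edad1dd0) e
 (c (nat_lit 0x80000800008000080fd580fd580fd54d710) e
 (c (nat_lit 0x80000800008000080000810fc8112206e50) e e)))))))
 (c (a (nat_lit 0xfe00600)) e
 (c (a (nat_lit 0xfe00a00)) e
 (c (a (nat_lit 0xfdff200)) e
 (c (a (nat_lit 0xfe02201)) e
 (c (a (nat_lit 0xfdfc601)) e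
 (c (nat_lit 0x7f0337f0337f0337f01f7f01f85841) e
 (c (a (nat_lit 0xfe5fa01)) e
 (c (a (nat_lit 0xfed7e03)) e
 (c (a (nat_lit 0xfe77403)) e
 (c (a (nat_lit 0x10402a03)) e
 (c z e
 (c (a (nat_lit 0xffda605)) e
 (c z e
 (c (a (nat_lit 0x1000d807)) e
 (c z e
 (c z e
 (c z e
 (c (a (nat_lit 0xfff600d)) e
 (c (a (nat_lit 0xffd160f)) e
 (c (a (nat_lit 0x10035c0f)) e
 (c (a (nat_lit 0x1002240f)) e
 (c (a (nat_lit 0xff9c80f)) e e))))))))))))))))))))))))))))))))) Tr.c Tr.e (nat_lit 0) C.t5 C.t6 C.t7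
noncomputable def tt108 : Tr := beta% (fun (c : Nat → Tr → Tr → Tr) (e : Tr) (z : Nat) (a b : Nat → Nat) =>
 (c (a (nat_lit 0x101f9600))
 (c z e
 (c z e
 (c z e
 (c z e
 (c z e
 (c z e
 (c z e
 (c z e
 (c z e
 (c z e
 (c z e
 (c z e
 (c (b (nat_lit 0xfff1619)) e e)))))))))))))
 (c (a (nat_lit 0x101f8a00))
 (c z e
 (c z e
 (c z e
 (c z e
 (c z e
 (c z e
 (c z e
 (c z e
 (c z e
 (c z e
 (c z e
 (c (b (nat_lit 0xffcfc1c)) e e))))))))))))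
 (c (a (nat_lit 0x101f8e00))
 (c z e
 (c z e
 (c z e
 (c (b (nat_lit 0xffd040f)) e e))))
 (c (a (nat_lit 0x101fdc01)) e
 (c (a (nat_lit 0x10200401)) e
 (c (a (nat_lit 0x101f9601)) e
 (c (a (nat_lit 0x100ed601))
 (c (b (nat_lit 0xfff8819)) e e)
 (c (a (nat_lit 0x10125803)) e
 (c z e
 (c z e
 (c z e
 (c z e
 (c (a (nat_lit 0x1004a007)) e
 (c (a (nat_lit 0xffec607)) e
 (c (a (nat_lit 0x10066807)) e
 (c z e
 (c z e
 (c (a (nat_lit 0x100af80d)) e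
 (c (a (nat_lit 0x100b200f)) e
 (c (a (nat_lit 0x10053a0f)) e
 (c z e
 (c z e
 (c (a (nat_lit 0x10048013)) e
 (c (nat_lit 0x8040e8040e8040e803af803af8040ed53d5) e e))))))))))))))))))))))))) Tr.c Tr.e (nat_lit 0) C.t6 C.t7
noncomputable def tt109 : Tr := beta% (fun (c : Nat → Tr → Tr → Tr) (e : Tr) (z : Nat) (a b : Nat → Nat) =>
 (c (a (nat_lit 0x101f8400))
 (c z e
 (c z e
 (c z e
 (c z e
 (c z e
 (c z e
 (c z e
 (c z e
 (c z e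
 (c z e
 (c z e
 (c z e
 (c z e
 (c z e
 (c z e
 (c (b (nat_lit 0xfff0a1c)) e
 (c z e
 (c z e
 (c z e
 (c (nat_lit 0x8000080000800008000080000800007ff2c70e17) e e))))))))))))))))))))
 (c (a (nat_lit 0x101fa000))
 (c z e
 (c z e
 (c z e
 (c z e
 (c z e
 (c z e
 (c z e
 (c z e
 (c z e
 (c z e
 (c z e
 (c z e
 (c z e
 (c (b (nat_lit 0xfffde1c)) e e))))))))))))))
 (c (a (nat_lit 0x101fa600))
 (c z e
 (c z e
 (c z e
 (c z e
 (c z e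
 (c z e
 (c z e
 (c z e
 (c z e
 (c z e
 (c (b (nat_lit 0xffeca19)) e
 (c z e
 (c (b (nat_lit 0xfff9229)) e e)))))))))))))
 (c (a (nat_lit 0x101f8800))
 (c z e
 (c z e
 (c z e
 (c z e
 (c (b (nat_lit 0xfff760f)) e
 (c z e
 (c z e
 (c z e
 (c z e
 (c z e
 (c (b (nat_lit 0xffebe25)) e e)))))))))))
 (c (a (nat_lit 0x101f8e00)) e
 (c (a (nat_lit 0x101fc001)) e
 (c (a (nat_lit 0x101fec01)) e
 (c (a (nat_lit 0x101fda01)) e
 (c (a (nat_lit 0x10201201)) e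
 (c (a (nat_lit 0x10157c03)) e
 (c z e
 (c z e
 (c z e
 (c z e
 (c z e
 (c (a (nat_lit 0xfec6207)) e
 (c (a (nat_lit 0x1000b807)) e
 (c z e
 (c z e
 (c z e
 (c z e
 (c z e
 (c (nat_lit 0x800007ffda7ffda800008000080000be6cf) e e)))))))))))))))))))))))) Tr.c Tr.e (nat_lit 0) C.t6 C.t7
noncomputable def tt110 : Tr := beta% (fun (c : Nat → Tr → Tr → Tr) (e : Tr) (z : Nat) (a b : Nat → Nat) =>
 (c (a (nat_lit 0x101fba00))
 (c (b (nat_lit 0xfd63401)) e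
 (c (b (nat_lit 0xfe1aa03)) e e))
 (c (a (nat_lit 0x101f9600))
 (c z e
 (c z e
 (c z e
 (c z e
 (c z e
 (c z e
 (c (b (nat_lit 0x1011ee07)) e
 (c (b (nat_lit 0xfff7e07)) e e))))))))
 (c (a (nat_lit 0x101f6600))
 (c z e
 (c z e
 (c z e
 (c z e
 (c z e
 (c z e
 (c z e
 (c z e
 (c z e
 (c z e
 (c z e
 (c z e
 (c (b (nat_lit 0x10451a17)) e e)))))))))))))
 (c (a (nat_lit 0x101f9e00))
 (c z e
 (c z e
 (c z e
 (c z e
 (c z e
 (c z e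
 (c z e
 (c z e
 (c z e
 (c z e
 (c z e
 (c z e
 (c (b (nat_lit 0xfff4217)) e
 (c (b (nat_lit 0x101f6e17)) e e))))))))))))))
 (c (a (nat_lit 0x101f9400))
 (c z e
 (c z e
 (c z e
 (c z e
 (c z e
 (c z e
 (c z e
 (c z e
 (c z e
 (c z e
 (c (b (nat_lit 0xffdf417)) e e)))))))))))
 (c (a (nat_lit 0x101f6600))
 (c z e
 (c z e
 (c (b (nat_lit 0xffe4c0f)) e e)))
 (c (a (nat_lit 0x101fae00)) e
 (c (a (nat_lit 0x101ff601)) e
 (c (a (nat_lit 0x101f9401)) e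
 (c (a (nat_lit 0x101f9801)) e
 (c (nat_lit 0x8103981039810398103980ff180ff12df01) e
 (c z e
 (c z e
 (c z e
 (c z e
 (c (a (nat_lit 0x100e9e05)) e
 (c z e
 (c (a (nat_lit 0xff1f007)) e
 (c (a (nat_lit 0xffac207)) e
 (c (a (nat_lit 0xffe6c07)) e e))))))))))))))))))))) Tr.c Tr.e (nat_lit 0) C.t6 C.t7
noncomputable def tt111 : Tr := beta% (fun (c : Nat → Tr → Tr → Tr) (e : Tr) (z : Nat) (a b : Nat → Nat) =>
 (c (a (nat_lit 0x101f2800))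
 (c (b (nat_lit 0xfe37601)) e
 (c (b (nat_lit 0xfe2de01)) e
 (c (b (nat_lit 0xfe28a01)) e
 (c (b (nat_lit 0xfe26001)) e
 (c (nat_lit 0x7f1667f1667f1667f1667f1667f12e7f12fe3883) e
 (c (b (nat_lit 0xff61403)) e
 (c z e
 (c (b (nat_lit 0xff06e03)) e
 (c z e
 (c z e
 (c (b (nat_lit 0xfeebc07)) e
 (c (b (nat_lit 0xffeee07)) e
 (c z e
 (c z e
 (c (b (nat_lit 0x1037f20d)) e
 (c z e
 (c z e
 (c z e
 (c (b (nat_lit 0x100f260f)) e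
 (c (b (nat_lit 0x100a3017)) e
 (c z e
 (c z e
 (c (b (nat_lit 0xffbd21b)) e e)))))))))))))))))))))))
 (c (a (nat_lit 0x101f7a00))
 (c (b (nat_lit 0xfe26601)) e
 (c (b (nat_lit 0xfe26801)) e
 (c (b (nat_lit 0xfe1d003)) e
 (c z e
 (c z e
 (c z e
 (c z e
 (c (b (nat_lit 0x101ba207)) e
 (c z e
 (c z e
 (c z e
 (c z e
 (c z e
 (c z e
 (c (b (nat_lit 0x100d980f)) e
 (c z e
 (c (b (nat_lit 0x1012ba0f)) e
 (c (b (nat_lit 0x101d1617)) e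
 (c z e
 (c (b (nat_lit 0xfff6017)) e
 (c (b (nat_lit 0xffeee1b)) e e)))))))))))))))))))))
 (c (a (nat_lit 0x101f8200))
 (c (b (nat_lit 0xfe1da03)) e
 (c z e
 (c z e
 (c z e
 (c z e
 (c z e
 (c z e
 (c z e
 (c z e
 (c z e
 (c z e
 (c z e
 (c z e
 (c (b (nat_lit 0xfffa80f)) e e))))))))))))))
 (c (a (nat_lit 0x101f9400))
 (c z e
 (c z e
 (c z e
 (c z e
 (c z e
 (c (b (nat_lit 0x10211207)) e
 (c (b (nat_lit 0x1015c607)) e e)))))))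
 (c (a (nat_lit 0x101f5800)) e
 (c (a (nat_lit 0x101f6000)) e
 (c (a (nat_lit 0x101faa00)) e
 (c (a (nat_lit 0x101f5800)) e
 (c (a (nat_lit 0x101f8e00)) e
 (c (a (nat_lit 0x101f4c01)) e
 (c (a (nat_lit 0x101f9e01)) e
 (c (a (nat_lit 0x101ea401)) e
 (c (a (nat_lit 0x1010ee01)) e
 (c z e
 (c z e
 (c (a (nat_lit 0x10159803)) e
 (c (a (nat_lit 0x10026403)) e
 (c (a (nat_lit 0x1006d005)) e
 (c (a (nat_lit 0x1004a807)) e
 (c z e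
 (c (a (nat_lit 0x1001ae07)) e
 (c z e
 (c (a (nat_lit 0xffab60b)) e
 (c (a (nat_lit 0x10073c0d)) e
 (c (a (nat_lit 0xff8ca0f)) e
 (c z e
 (c (a (nat_lit 0xffb5a0f)) e e)))))))))))))))))))))))))))) Tr.c Tr.e (nat_lit 0) C.t6 C.t7
noncomputable def tt112 : Tr := beta% (fun (c : Nat → Tr → Tr → Tr) (e : Tr) (z : Nat) (a b : Nat → Nat) =>
 (c (a (nat_lit 0x101fee00))
 (c (b (nat_lit 0xfd72800)) e
 (c (b (nat_lit 0xfe19e00)) e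
 (c (b (nat_lit 0xfe20000)) e
 (c (nat_lit 0x7f1167f10a7f1087f1087f1097f10a7f10a1fc01) e
 (c (b (nat_lit 0xfe23401)) e
 (c (b (nat_lit 0xfe26a01)) e
 (c (nat_lit 0x7f11d7f11d7f11d7f11d7f1127f1127f118b6781) e
 (c (b (nat_lit 0xfbaa003)) e
 (c (b (nat_lit 0xff09803)) e
 (c (b (nat_lit 0xff74a03)) e
 (c z e
 (c z e
 (c z e
 (c z e
 (c (b (nat_lit 0x106ba807)) e
 (c z e
 (c z e
 (c (b (nat_lit 0xffcb00d)) e
 (c (b (nat_lit 0x1005e00f)) e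
 (c z e
 (c (b (nat_lit 0x100a4a0f)) e
 (c z e
 (c z e
 (c z e
 (c (b (nat_lit 0xfffd61b)) e
 (c (b (nat_lit 0xfff641d)) e e))))))))))))))))))))))))))
 (c (a (nat_lit 0x101f7200))
 (c (b (nat_lit 0xfe2d800)) e
 (c (b (nat_lit 0xfe25401)) e
 (c (b (nat_lit 0xfe1f601)) e
 (c (b (nat_lit 0xfe24401)) e
 (c (b (nat_lit 0xfe2e001)) e
 (c (nat_lit 0x7f1187f1187f1187f1187f1187f1087f10b81583) e
 (c z e
 (c (b (nat_lit 0xfeed003)) e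
 (c z e
 (c z e
 (c z e
 (c z e
 (c z e
 (c z e
 (c z e
 (c z e
 (c (b (nat_lit 0xffe340f)) e
 (c (b (nat_lit 0x1007000f)) e
 (c z e
 (c z e
 (c z e
 (c (b (nat_lit 0xffea217)) e
 (c z e
 (c (b (nat_lit 0xffc9a1d)) e e))))))))))))))))))))))))
 (c (a (nat_lit 0x101f9a00))
 (c (b (nat_lit 0xfe26e01)) e
 (c (b (nat_lit 0xfe25601)) e
 (c (b (nat_lit 0xfe28201)) e
 (c (b (nat_lit 0xfe1d003)) e
 (c z e
 (c z e
 (c (b (nat_lit 0xfea3a03)) e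
 (c z e
 (c z e
 (c z e
 (c z e
 (c z e
 (c z e
 (c z e
 (c z e
 (c z e
 (c z e
 (c z e
 (c z e
 (c z e
 (c (b (nat_lit 0xffee21b)) e e)))))))))))))))))))))
 (c (a (nat_lit 0x101fc000))
 (c (b (nat_lit 0xfe22a01)) e
 (c (nat_lit 0x7f0d17f0d17f0d17f0d17f0d17f0cb7f0cb1f403) e
 (c z e
 (c z e
 (c z e
 (c z e
 (c z e
 (c z e
 (c z e
 (c z e
 (c z e
 (c z e
 (c z e
 (c z e
 (c z e
 (c z e
 (c z e
 (c z e
 (c (b (nat_lit 0xffc561b)) e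
 (c (b (nat_lit 0xffeaa1d)) e e))))))))))))))))))))
 (c (a (nat_lit 0x101fa800))
 (c z e
 (c z e
 (c z e
 (c z e
 (c z e
 (c z e
 (c z e
 (c z e
 (c z e
 (c z e
 (c z e
 (c z e
 (c (b (nat_lit 0xfff3c0f)) e e)))))))))))))
 (c (a (nat_lit 0x101f8c00))
 (c z e
 (c z e
 (c z e
 (c z e
 (c z e
 (c (b (nat_lit 0x1017ba07)) e
 (c z e
 (c z e
 (c z e
 (c z e
 (c z e
 (c z e
 (c z e
 (c z e
 (c (b (nat_lit 0xfffd21b)) e e)))))))))))))))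
 (c (a (nat_lit 0x101f9c00)) e
 (c (a (nat_lit 0x101f5400)) e
 (c (a (nat_lit 0x101f8600))
 (c (b (nat_lit 0xfff740b)) e e)
 (c (a (nat_lit 0x101fea00)) e
 (c (a (nat_lit 0x101f9800)) e
 (c (a (nat_lit 0x10200201))
 (c (b (nat_lit 0xff90417)) e e)
 (c (a (nat_lit 0x101f3601)) e
 (c (a (nat_lit 0x101fb801)) e
 (c z e
 (c z e
 (c (a (nat_lit 0x1011d403)) e
 (c (a (nat_lit 0x100f8a03)) e
 (c (a (nat_lit 0x10056203)) e
 (c (a (nat_lit 0x10089805)) e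
 (c (a (nat_lit 0x10025607)) e
 (c (a (nat_lit 0x1004bc07)) e
 (c (a (nat_lit 0xffefe07)) e
 (c z e
 (c (a (nat_lit 0xff85c0b)) e
 (c (a (nat_lit 0xfeda60d)) e
 (c (a (nat_lit 0xffd000f)) e e)))))))))))))))))))))))))))) Tr.c Tr.e (nat_lit 0) C.t6 C.t7
noncomputable def tt113 : Tr := beta% (fun (c : Nat → Tr → Tr → Tr) (e : Tr) (z : Nat) (a b : Nat → Nat) =>
 (c (a (nat_lit 0x101f6000))
 (c (b (nat_lit 0xfe2d000)) e
 (c (b (nat_lit 0xfe0da00)) e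
 (c (b (nat_lit 0xfe29001)) e
 (c (b (nat_lit 0xfe23401)) e
 (c (b (nat_lit 0xfe27e01)) e
 (c (b (nat_lit 0xfe2ac01)) e
 (c (nat_lit 0x7f1527f1527f1527f1527f1527f0fa7f0fb41f03) e
 (c (b (nat_lit 0xfdace03)) e
 (c (b (nat_lit 0xfecd003)) e
 (c (b (nat_lit 0xfff1403)) e
 (c z e
 (c z e
 (c z e
 (c z e
 (c z e
 (c (b (nat_lit 0xffff60b)) e
 (c (b (nat_lit 0x100adc0d)) e
 (c (b (nat_lit 0x1007520f)) e
 (c (b (nat_lit 0xffffa0f)) e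
 (c z e
 (c z e
 (c (b (nat_lit 0x10038017)) e
 (c z e
 (c z e
 (c (b (nat_lit 0xffeaa2b)) e e)))))))))))))))))))))))))
 (c (a (nat_lit 0x101fa800))
 (c (b (nat_lit 0xfe26801)) e
 (c (b (nat_lit 0xfe28a01)) e
 (c (b (nat_lit 0xfe26e01)) e
 (c (b (nat_lit 0xfe23001)) e
 (c (b (nat_lit 0xfe1c403)) e
 (c z e
 (c (b (nat_lit 0xff4ac03)) e
 (c z e
 (c z e
 (c z e
 (c z e
 (c (b (nat_lit 0x10583e07)) e
 (c z e
 (c z e
 (c z e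
 (c (b (nat_lit 0xfffb80f)) e
 (c z e
 (c z e
 (c (b (nat_lit 0xfff3a0f)) e e)))))))))))))))))))
 (c (a (nat_lit 0x101f8800))
 (c (b (nat_lit 0xfe26c01)) e
 (c (b (nat_lit 0xfe23e01)) e
 (c (b (nat_lit 0xfe19003)) e
 (c z e
 (c z e
 (c z e
 (c z e
 (c z e
 (c z e
 (c z e
 (c z e
 (c z e
 (c z e
 (c z e
 (c z e
 (c z e
 (c z e
 (c z e
 (c z e
 (c z e
 (c (b (nat_lit 0xffad434)) e e)))))))))))))))))))))
 (c (a (nat_lit 0x101fb000))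
 (c (b (nat_lit 0xfe0f003)) e
 (c z e
 (c z e
 (c z e
 (c z e
 (c z e
 (c z e
 (c z e
 (c (b (nat_lit 0x1014d207)) e
 (c z e
 (c z e
 (c z e
 (c (b (nat_lit 0x10121c0f)) e
 (c z e
 (c (b (nat_lit 0xffe840f)) e
 (c (b (nat_lit 0xffdba17)) e
 (c z e
 (c z e
 (c (b (nat_lit 0xffe8c2c)) e e)))))))))))))))))))
 (c (a (nat_lit 0x101fcc00))
 (c z e
 (c z e
 (c z e
 (c z e
 (c (b (nat_lit 0xfffc207)) e
 (c z e
 (c (b (nat_lit 0x10102407)) e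
 (c (b (nat_lit 0x1019220b)) e
 (c z e
 (c z e
 (c z e
 (c z e
 (c z e
 (c (b (nat_lit 0x100a6217)) e
 (c (b (nat_lit 0xfffc41b)) e e)))))))))))))))
 (c (a (nat_lit 0x101fa400))
 (c z e
 (c z e
 (c z e
 (c z e
 (c (b (nat_lit 0xfff0a07)) e
 (c z e
 (c z e
 (c z e
 (c z e
 (c z e
 (c (b (nat_lit 0xfffdc0f)) e
 (c (b (nat_lit 0xfff1817)) e e))))))))))))
 (c (a (nat_lit 0x101f9400))
 (c z e
 (c (b (nat_lit 0xfffc007)) e e))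
 (c (a (nat_lit 0x101fbe00))
 (c z e
 (c (b (nat_lit 0xfffb20b)) e
 (c z e
 (c z e
 (c z e
 (c z e
 (c z e
 (c z e
 (c (b (nat_lit 0xfff481b)) e
 (c z e
 (c (b (nat_lit 0xfff9030)) e e)))))))))))
 (c (a (nat_lit 0x10200c00))
 (c z e
 (c z e
 (c z e
 (c (b (nat_lit 0xffe460f)) e
 (c z e
 (c z e
 (c z e
 (c z e
 (c (b (nat_lit 0xffff628)) e e)))))))))
 (c (a (nat_lit 0x101fba00)) e
 (c (a (nat_lit 0x101fe000)) e
 (c (a (nat_lit 0x101ee001)) e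
 (c (a (nat_lit 0x10204001)) e
 (c (a (nat_lit 0x101fea01)) e
 (c z e
 (c (a (nat_lit 0x101b6603)) e
 (c (a (nat_lit 0x101f6e03)) e
 (c (a (nat_lit 0x1016b803)) e
 (c (a (nat_lit 0x100c5c03)) e
 (c (a (nat_lit 0x10069605)) e
 (c (a (nat_lit 0x1008ca07)) e
 (c (a (nat_lit 0x10061607)) e
 (c (a (nat_lit 0x100e6e07)) e
 (c z e
 (c (a (nat_lit 0xffad60b)) e e)))))))))))))))))))))))))) Tr.c Tr.e (nat_lit 0) C.t6 C.t7
noncomputable def tt114 : Tr := beta% (fun (c : Nat → Tr → Tr → Tr) (e : Tr) (z : Nat) (a b : Nat → Nat) =>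
 (c (a (nat_lit 0x101f7600))
 (c (b (nat_lit 0xfe25a00)) e
 (c (b (nat_lit 0xfdf2201)) e
 (c (b (nat_lit 0xfe34401)) e
 (c (b (nat_lit 0xfe22801)) e
 (c (b (nat_lit 0xfe23001)) e
 (c (b (nat_lit 0xfe29003)) e
 (c (b (nat_lit 0xfece003)) e
 (c (b (nat_lit 0xfefae03)) e
 (c z e
 (c z e
 (c z e
 (c z e
 (c (b (nat_lit 0xffb2007)) e
 (c z e
 (c z e
 (c (b (nat_lit 0x100ba40d)) e
 (c (b (nat_lit 0x1005720f)) e
 (c (b (nat_lit 0xffdbe0f)) e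
 (c z e
 (c z e
 (c z e
 (c z e
 (c (b (nat_lit 0xffbde27)) e
 (c (b (nat_lit 0xffe2627)) e e))))))))))))))))))))))))
 (c (a (nat_lit 0x101f9600))
 (c (b (nat_lit 0xfe2a401)) e
 (c (b (nat_lit 0xfe2a201)) e
 (c (b (nat_lit 0xfe21a01)) e
 (c (nat_lit 0x7f1137f1137f1137f1137f1137f1127f11395883) e
 (c (b (nat_lit 0xfcb8003)) e
 (c (b (nat_lit 0xfdf3003)) e
 (c z e
 (c z e
 (c z e
 (c z e
 (c z e
 (c z e
 (c z e
 (c (b (nat_lit 0x1016420d)) e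
 (c z e
 (c (b (nat_lit 0x10177e0f)) e
 (c (b (nat_lit 0xfff600f)) e
 (c (b (nat_lit 0xfff620f)) e
 (c (b (nat_lit 0x1008001b)) e
 (c (b (nat_lit 0x10166e1d)) e e))))))))))))))))))))
 (c (a (nat_lit 0x101f6000))
 (c (b (nat_lit 0xfcf5a01)) e
 (c (b (nat_lit 0xfe12c03)) e
 (c z e
 (c (b (nat_lit 0xfeb5603)) e
 (c z e
 (c z e
 (c z e
 (c z e
 (c (b (nat_lit 0x1026b607)) e
 (c z e
 (c z e
 (c (b (nat_lit 0x102f680d)) e
 (c (b (nat_lit 0x1009e60f)) e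
 (c (b (nat_lit 0x1009aa0f)) e
 (c z e
 (c z e
 (c z e
 (c z e
 (c (nat_lit 0x7ff45800008000080000800008000080000763a9) e
 (c (nat_lit 0x800007f75e800008000080000800008000013bac) e e))))))))))))))))))))
 (c (a (nat_lit 0x101fb800))
 (c z e
 (c z e
 (c z e
 (c z e
 (c z e
 (c z e
 (c (b (nat_lit 0x101c8207)) e
 (c (b (nat_lit 0x10175207)) e e))))))))
 (c (a (nat_lit 0x101fb600))
 (c z e
 (c (b (nat_lit 0xfffa605)) e
 (c z e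
 (c z e
 (c z e
 (c z e
 (c (b (nat_lit 0x1033de0b)) e
 (c z e
 (c z e
 (c z e
 (c z e
 (c z e
 (c z e
 (c z e
 (c (b (nat_lit 0xfffc623)) e e)))))))))))))))
 (c (a (nat_lit 0x101ef600))
 (c z e
 (c z e
 (c z e
 (c z e
 (c (b (nat_lit 0xffed60b)) e
 (c z e
 (c z e
 (c (b (nat_lit 0xffb1c0f)) e
 (c z e
 (c z e
 (c z e
 (c z e
 (c (b (nat_lit 0xfff5823)) e e)))))))))))))
 (c (a (nat_lit 0x10200200))
 (c (b (nat_lit 0xfffae07)) e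
 (c z e
 (c z e
 (c z e
 (c z e
 (c z e
 (c z e
 (c z e
 (c z e
 (c z e
 (c (b (nat_lit 0xff9fa28)) e
 (c z e
 (c z e
 (c (nat_lit 0x80000800008000080000800007fd5b80000ec81f) e e))))))))))))))
 (c (a (nat_lit 0x101fd800))
 (c z e
 (c z e
 (c (b (nat_lit 0xfff340f)) e
 (c z e
 (c z e
 (c z e
 (c z e
 (c z e
 (c (b (nat_lit 0xfffee24)) e e)))))))))
 (c (a (nat_lit 0x101f9400)) e
 (c (a (nat_lit 0x101fb800))
 (c z e
 (c z e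
 (c z e
 (c z e
 (c z e
 (c (b (nat_lit 0xffeea21)) e e))))))
 (c (a (nat_lit 0x101e0800)) e
 (c (a (nat_lit 0x101fe201)) e
 (c (a (nat_lit 0x101fde01)) e
 (c (a (nat_lit 0x101ffa01))
 (c z e
 (c (nat_lit 0x80000800008000080000800007f94e7f98a20f20) e e))
 (c (a (nat_lit 0x101d9401)) e
 (c (a (nat_lit 0x1021b203)) e
 (c (a (nat_lit 0x101b2603)) e
 (c (a (nat_lit 0x101b7c03)) e
 (c (a (nat_lit 0x1017a403)) e
 (c (a (nat_lit 0x100e9a05)) e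
 (c (a (nat_lit 0x100d5207)) e
 (c (a (nat_lit 0x100dea07)) e
 (c z e
 (c (a (nat_lit 0xfeb0807)) e
 (c z e
 (c z e
 (c z e
 (c z e
 (c (nat_lit 0x7ffcd7ffcd7ffee8000080000800004a5cf) e
 (c z e
 (c z e
 (c (a (nat_lit 0xfff001d)) e e))))))))))))))))))))))))))))))))) Tr.c Tr.e (nat_lit 0) C.t6 C.t7
noncomputable def tt115 : Tr := beta% (fun (c : Nat → Tr → Tr → Tr) (e : Tr) (z : Nat) (a b : Nat → Nat) =>
 (c (a (nat_lit 0x101d6600))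
 (c (b (nat_lit 0xfe83600)) e
 (c (b (nat_lit 0xfe8fa00)) e
 (c (b (nat_lit 0xfe7d000)) e
 (c (b (nat_lit 0xfe68000)) e
 (c (b (nat_lit 0xfe44e00)) e
 (c (b (nat_lit 0xfdf2000)) e
 (c (b (nat_lit 0xfe58a00)) e
 (c (b (nat_lit 0xfe41000)) e
 (c (b (nat_lit 0xfe3ce00)) e
 (c (b (nat_lit 0xfe66c01)) e
 (c (b (nat_lit 0xfe28e01)) e
 (c (b (nat_lit 0xfe34a01)) e
 (c (b (nat_lit 0xfe3f201)) e
 (c (b (nat_lit 0xfd55403)) e
 (c (b (nat_lit 0xfd18403)) e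
 (c (b (nat_lit 0xfb07803)) e
 (c z e
 (c (b (nat_lit 0xffef005)) e
 (c (b (nat_lit 0xfe3dc07)) e
 (c (b (nat_lit 0xfe8a807)) e
 (c (b (nat_lit 0xfea4007)) e
 (c (b (nat_lit 0xfed9607)) e
 (c (b (nat_lit 0xff8020b)) e
 (c z e
 (c (b (nat_lit 0xfffcc0f)) e
 (c (b (nat_lit 0xfff260f)) e
 (c (b (nat_lit 0x100cf20f)) e
 (c z e
 (c z e
 (c z e
 (c z e
 (c (b (nat_lit 0xfff083c)) e e))))))))))))))))))))))))))))))))
 (c (a (nat_lit 0x101e1200))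
 (c (b (nat_lit 0xfe8ba00)) e
 (c (b (nat_lit 0xfe40800)) e
 (c (b (nat_lit 0xfe49600)) e
 (c (b (nat_lit 0xfe36c00)) e
 (c (b (nat_lit 0xfe3cc00)) e
 (c (b (nat_lit 0xfe3b800)) e
 (c (b (nat_lit 0xfe2f200)) e
 (c (b (nat_lit 0xfe3e201)) e
 (c (b (nat_lit 0xfe4c601)) e
 (c (b (nat_lit 0xfe2f601)) e
 (c (b (nat_lit 0xfe16201)) e
 (c (b (nat_lit 0xfe47a03)) e
 (c (b (nat_lit 0xfde5603)) e
 (c (b (nat_lit 0xff18203)) e
 (c z e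
 (c z e
 (c z e
 (c (b (nat_lit 0xff13407)) e
 (c (b (nat_lit 0xff39207)) e
 (c (b (nat_lit 0xff99207)) e
 (c z e
 (c z e
 (c (b (nat_lit 0x1001840f)) e
 (c z e
 (c (b (nat_lit 0xff54e0f)) e
 (c z e
 (c (b (nat_lit 0xff7d81b)) e
 (c z e
 (c z e
 (c (nat_lit 0x7fff17fff17ff427fff17fff17fff17fff186c39) e e))))))))))))))))))))))))))))))
 (c (a (nat_lit 0x101eb200))
 (c (b (nat_lit 0xfe36a00)) e
 (c (b (nat_lit 0xfe3ee00)) e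
 (c (b (nat_lit 0xfe32e00)) e
 (c (b (nat_lit 0xfe29200)) e
 (c (b (nat_lit 0xfe30600)) e
 (c (b (nat_lit 0xfe33201)) e
 (c (b (nat_lit 0xfe34401)) e
 (c (b (nat_lit 0xfe45401)) e
 (c (nat_lit 0x7f1a27f0c17f1a27f1a27f1a27f1a27f1a217901) e
 (c (b (nat_lit 0xfe06203)) e
 (c (b (nat_lit 0xfe22403)) e
 (c (b (nat_lit 0xfea5c03)) e
 (c z e
 (c z e
 (c z e
 (c z e
 (c (b (nat_lit 0xff72e07)) e
 (c (b (nat_lit 0xff95007)) e
 (c z e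
 (c z e
 (c (b (nat_lit 0x10093c0f)) e
 (c (b (nat_lit 0x10059a0f)) e
 (c (b (nat_lit 0xfffac0f)) e
 (c (b (nat_lit 0xffec40f)) e e))))))))))))))))))))))))
 (c (a (nat_lit 0x101ed600))
 (c (b (nat_lit 0xfe3be00)) e
 (c (b (nat_lit 0xfe2ee00)) e
 (c (b (nat_lit 0xfe2a600)) e
 (c (b (nat_lit 0xfe32a01)) e
 (c (b (nat_lit 0xfe31401)) e
 (c (b (nat_lit 0xfe32001)) e
 (c (b (nat_lit 0xfd40401)) e
 (c (b (nat_lit 0xfe11603)) e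
 (c (b (nat_lit 0xfe0f803)) e
 (c (b (nat_lit 0xfea4403)) e
 (c z e
 (c z e
 (c (b (nat_lit 0xffe3807)) e
 (c z e
 (c z e
 (c z e
 (c (b (nat_lit 0x1008f60b)) e
 (c (b (nat_lit 0x1004aa0d)) e
 (c z e
 (c z e
 (c z e
 (c z e
 (c (nat_lit 0x7fcdb8000080000800008000080000800003681b) e
 (c (nat_lit 0x800007fce98000080000800008000080000d6c1d) e e)))))))))))))))))))))))) tt114))))) Tr.c Tr.e (nat_lit 0) C.t6 C.t7
noncomputable def tt116 : Tr := beta% (fun (c : Nat → Tr → Tr → Tr) (e : Tr) (z : Nat) (a b d : Nat → Nat) =>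
 (c (a (nat_lit 0xfe00800)) tt115
 (c (a (nat_lit 0xfe00400))
 (c (b (nat_lit 0x101dfe00))
 (c (d (nat_lit 0xfe63800)) e
 (c (d (nat_lit 0xfe30000)) e
 (c (d (nat_lit 0xfe57a00)) e
 (c (d (nat_lit 0xfe39000)) e
 (c (d (nat_lit 0xfe3a800)) e
 (c (d (nat_lit 0xfe36a00)) e
 (c (d (nat_lit 0xfe31801)) e
 (c (d (nat_lit 0xfe3c601)) e
 (c (d (nat_lit 0xfe3a001)) e
 (c (d (nat_lit 0xfe32001)) e
 (c (d (nat_lit 0xfd84603)) e
 (c (d (nat_lit 0xfda5803)) e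
 (c (d (nat_lit 0xfe30e03)) e
 (c z e
 (c (d (nat_lit 0xfff3805)) e
 (c z e
 (c z e
 (c (d (nat_lit 0xffb2807)) e
 (c (d (nat_lit 0xfecb607)) e
 (c z e
 (c z e
 (c (d (nat_lit 0x10069e0f)) e
 (c z e
 (c z e
 (c (d (nat_lit 0xffdfe0f)) e e)))))))))))))))))))))))))
 (c (b (nat_lit 0x101fdc00))
 (c (d (nat_lit 0xfe13e00)) e
 (c (d (nat_lit 0xfe1fc00)) e
 (c (d (nat_lit 0xfe1ae00)) e
 (c (d (nat_lit 0xfe1d600)) e
 (c (d (nat_lit 0xfe1ce01)) e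
 (c (d (nat_lit 0xfe1fa01)) e
 (c (d (nat_lit 0xfe26001)) e
 (c (nat_lit 0x7f1517f1517f1517f1517f1447f1447f145fa381) e
 (c (d (nat_lit 0xfd44003)) e
 (c (d (nat_lit 0xff2c803)) e
 (c (d (nat_lit 0xfee7403)) e
 (c (d (nat_lit 0xfe9f203)) e
 (c z e
 (c z e
 (c z e
 (c z e
 (c (d (nat_lit 0xffad007)) e
 (c (d (nat_lit 0xfffe80b)) e
 (c z e
 (c (d (nat_lit 0xfffa60f)) e
 (c (d (nat_lit 0x10087e0f)) e
 (c (d (nat_lit 0xfffb40f)) e e)))))))))))))))))))))) tt113))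
 (c (a (nat_lit 0xfe00000)) tt112
 (c (a (nat_lit 0xfe03800)) tt111
 (c (a (nat_lit 0xfe01000)) tt110
 (c (a (nat_lit 0xfe00c00)) tt109
 (c (a (nat_lit 0xfe01a00)) tt108
 (c (a (nat_lit 0xfe01200))
 (c (b (nat_lit 0x1012a600))
 (c z e
 (c z e
 (c z e
 (c z e
 (c (d (nat_lit 0xffe300f)) e e)))))
 (c (b (nat_lit 0x101fec01)) e
 (c (b (nat_lit 0x101fcc01)) e
 (c (b (nat_lit 0x101fb401)) e
 (c (nat_lit 0x810868108681086810868101c8101c2eec1) e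
 (c (b (nat_lit 0x100da203)) e
 (c (b (nat_lit 0x10053a03)) e
 (c z e
 (c (b (nat_lit 0xfee7c03)) e
 (c z e
 (c z e
 (c z e
 (c z e
 (c z e
 (c z e
 (c (b (nat_lit 0x101bdc0d)) e
 (c (b (nat_lit 0x1005de0f)) e
 (c z e
 (c z e
 (c (b (nat_lit 0xffddc0f)) e
 (c (b (nat_lit 0xffd6213)) e
 (c (b (nat_lit 0xfffa613)) e e)))))))))))))))))))))) tt107))))))))) Tr.c Tr.e (nat_lit 0) C.t5 C.t6 C.t7
noncomputable def tt117 : Tr := beta% (fun (c : Nat → Tr → Tr → Tr) (e : Tr) (z : Nat) (a b d : Nat → Nat) =>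
 (c (a (nat_lit 0x101ff400)) tt116
 (c (a (nat_lit 0x101ff400)) tt106
 (c (a (nat_lit 0x101fe800)) tt99
 (c (a (nat_lit 0x101fec00)) tt95
 (c (a (nat_lit 0x101ff000))
 (c (b (nat_lit 0xfe02000)) tt91 tt90)
 (c (a (nat_lit 0x101ffa00)) tt89
 (c (a (nat_lit 0x101fee00)) tt88
 (c (a (nat_lit 0x101fee00)) tt87
 (c (a (nat_lit 0x101ff400)) tt86
 (c (nat_lit 0x80ff780ff880ff880ff735c70)
 (c (nat_lit 0x7f0167f0147f0147f0147f0162e540)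
 (c (nat_lit 0x8282a8282a8282a8282a8282a82776bdb87) e
 (c (nat_lit 0x816ee816ee816ee816d2816ee816ee09448) e
 (c (nat_lit 0x81741817418174181741817408174100d08) e
 (c (d (nat_lit 0x10455609)) e
 (c (d (nat_lit 0x10473e09)) e
 (c z e
 (c z e
 (c z e
 (c z e
 (c z e
 (c (d (nat_lit 0xffe2a0b)) e e)))))))))))
 (c (b (nat_lit 0xfe02400))
 (c (d (nat_lit 0x1013fe08)) e
 (c (nat_lit 0x814ba814ba814ba814ba814a1814ba069c9) e
 (c (nat_lit 0x8179c8179c817878178d817668177cc6689) e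
 (c (d (nat_lit 0x101f1a09)) e e))))
 (c (b (nat_lit 0xfe02a00))
 (c (d (nat_lit 0x102cee09)) e
 (c (nat_lit 0x81737817378173781737817378172bce0c9) e e))
 (c (b (nat_lit 0xfe01801))
 (c (d (nat_lit 0x102ec609)) e e)
 (c (b (nat_lit 0xfe00a01))
 (c (nat_lit 0x80000800007fecd7fc5c80000800006db0b) e
 (c (d (nat_lit 0x1053360b)) e e))
 (c (b (nat_lit 0xfe01601)) e
 (c z e
 (c z e
 (c (nat_lit 0x7dd707dd707da9a7dd707dd7033163) e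
 (c (b (nat_lit 0xffcc003)) e
 (c (b (nat_lit 0xfcd8e03)) e
 (c z e
 (c (b (nat_lit 0xff50a07)) e
 (c (b (nat_lit 0x100c6407)) e
 (c z e
 (c (nat_lit 0x7f39a7f3887f43b7f43b7f43b436c7) e
 (c (nat_lit 0x7f77c7f76c7f7687f77c7f77cd7568) e
 (c (b (nat_lit 0xfdfb208)) e
 (c (b (nat_lit 0xfe02209)) e
 (c (nat_lit 0x7f0367f0367f0367f0347f0362f629) e
 (c (b (nat_lit 0xfe66809)) e
 (c (nat_lit 0x7f4cb7f4cb7f4cb7f4cb7f4bc4a0a9) e
 (c (nat_lit 0x7f23b7f1cd7f23b7f23b7f23ba856b) e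
 (c (nat_lit 0x7f2ef7f2ef7f2977f2ef7f2ef5d38b) e
 (c (b (nat_lit 0xfe9ea0b)) e
 (c (b (nat_lit 0xfe1620b)) e e))))))))))))))))))))))))))
 (c (a (nat_lit 0x101ff800))
 (c (b (nat_lit 0xfe00800))
 (c (d (nat_lit 0x100c6808)) e
 (c (d (nat_lit 0x100b1209)) e
 (c (nat_lit 0x80bda80bda80b2c80bda80bda80bb415189) e
 (c z e
 (c z e
 (c (d (nat_lit 0x10112c0c)) e e))))))
 (c (b (nat_lit 0xfe02401))
 (c (nat_lit 0x80b7c80b7c80b3e80b7c80b7c80b6c43509) e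
 (c (nat_lit 0x80bdf80bdf80bdf80b4980bc080bc563749) e
 (c (d (nat_lit 0x10302409)) e
 (c (d (nat_lit 0x1025900c)) e
 (c (d (nat_lit 0x102b9414)) e e)))))
 (c (b (nat_lit 0xfdff601))
 (c (d (nat_lit 0x1015a609)) e e)
 (c (b (nat_lit 0xfe01601)) e
 (c (b (nat_lit 0xfb41201)) e
 (c (nat_lit 0x7e2f27e32c7e32c7e32c7e32c15a03) e
 (c (nat_lit 0x7eebe7eebe7ee9b7ee9b7ee9b655e3) e
 (c z e
 (c (b (nat_lit 0x102c6c03)) e
 (c z e
 (c (b (nat_lit 0xff43207)) e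
 (c (b (nat_lit 0xff7d007)) e
 (c (b (nat_lit 0xff96407)) e
 (c (b (nat_lit 0xff7b007)) e
 (c (nat_lit 0x7f84e7f8327f87a7f87a7f87a44848) e
 (c (b (nat_lit 0xff02a08)) e
 (c (b (nat_lit 0xff01a08)) e
 (c (b (nat_lit 0xff7a009)) e
 (c (nat_lit 0x7fbf27fbf27fb817fbd57fbe6a9b89) e
 (c (b (nat_lit 0xffcf209)) e
 (c (b (nat_lit 0xffcd409)) e
 (c (nat_lit 0x7fac97fac97fac97fb8b7fb8bb6d4c) e e)))))))))))))))))))))) tt85)))))))))))) Tr.c Tr.e (nat_lit 0) C.t4 C.t5 C.t6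
noncomputable def tt118 : Tr := beta% (fun (c : Nat → Tr → Tr → Tr) (e : Tr) =>
 (c (nat_lit 0x80fe980fea80fea80fea41be0) tt84 tt117)) Tr.c Tr.e
noncomputable def tt119 : Tr := beta% (fun (c : Nat → Tr → Tr → Tr) (e : Tr) (z : Nat) (a b d : Nat → Nat) =>
 (c (a (nat_lit 0x101ff200))
 (c (b (nat_lit 0xfe02401))
 (c (nat_lit 0x809668096680934809638096680966ad2c9) e
 (c (nat_lit 0x80b3b80b3b80b3b80b1c80b3b80b3bd5449) e
 (c z e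
 (c z e
 (c z e
 (c (nat_lit 0x800007ff5d7ff578000080000800005550c) e e))))))
 (c (b (nat_lit 0xfe02c01))
 (c (nat_lit 0x80b3a80b3a80b3a80af680b3a80b3a57e49) e
 (c (d (nat_lit 0x101e8009)) e e))
 (c (nat_lit 0x7f0487f0487f0487f0177f0193cc41) e
 (c (nat_lit 0x7f12d7f12d7f12d7f12d7f01395381) e
 (c (b (nat_lit 0xff3dc03)) e
 (c (b (nat_lit 0xfd96603)) e
 (c z e
 (c (b (nat_lit 0x101c1803)) e
 (c z e
 (c z e
 (c (b (nat_lit 0xfff8207)) e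
 (c z e
 (c z e
 (c z e
 (c (b (nat_lit 0xff23008)) e
 (c (nat_lit 0x7f81a7f80f7f81a7f81a7f81a9d868) e
 (c (nat_lit 0x7f8117f8117f8057f8117f81121f49) e
 (c (nat_lit 0x7fbbe7fbbe7fbbe7fbb27fbbe8c849) e
 (c (b (nat_lit 0xfff7209)) e
 (c (b (nat_lit 0xfff3009)) e e))))))))))))))))))))
 (c (a (nat_lit 0x101fee00))
 (c (nat_lit 0x7f03e7f03e7f03e7f0157f01711101) e
 (c (b (nat_lit 0xff96401)) e
 (c z e
 (c (b (nat_lit 0xff73003)) e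
 (c z e
 (c z e
 (c z e
 (c (b (nat_lit 0xffe1c05)) e
 (c (b (nat_lit 0xffdc607)) e
 (c z e
 (c z e
 (c z e
 (c (nat_lit 0x7fae67fafe7fb067fb067fb06f0628) e
 (c (nat_lit 0x7f82b7f84b7f84b7f84b7f84b11268) e
 (c (nat_lit 0x7f8137f7f77f8137f8137f81380948) e
 (c (nat_lit 0x7fbae7fbae7fbac7fbae7fbae88b69) e
 (c (b (nat_lit 0xff74009)) e
 (c (b (nat_lit 0xffe1409)) e
 (c (b (nat_lit 0xffcd609)) e
 (c (b (nat_lit 0xffd580c)) e e))))))))))))))))))))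
 (c (a (nat_lit 0x101ff000))
 (c (b (nat_lit 0xfede403)) e
 (c z e
 (c z e
 (c z e
 (c z e
 (c z e
 (c (nat_lit 0x7e7357e7357e7747e7747e77487747) e
 (c z e
 (c (b (nat_lit 0xfff4207)) e
 (c (b (nat_lit 0x10284607)) e
 (c (nat_lit 0x7fa487fa6c7fa6c7fa6c7fa6c8f3e8) e
 (c (nat_lit 0x7f9007f9617f9617f9617f96173208) e
 (c (nat_lit 0x7f8d47f8bf7f8d47f8d47f8d485e68) e
 (c (nat_lit 0x7fc257fbe67fc1b7fc257fc252ace8) e
 (c (nat_lit 0x7fbc07fbbf7fbaa7fbc07fbc035489) e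
 (c (nat_lit 0x7fbd37fbd37fba87fba67fbd31fbc9) e
 (c (b (nat_lit 0xff6d809)) e
 (c (b (nat_lit 0xffbc609)) e e))))))))))))))))))
 (c (a (nat_lit 0x101ffc00))
 (c (b (nat_lit 0xffb8003)) e
 (c z e
 (c z e
 (c z e
 (c z e
 (c z e
 (c z e
 (c (b (nat_lit 0x10292007)) e
 (c (nat_lit 0x7fb9d7fbaf7fbaf7fbaf7fbaffae48) e
 (c (b (nat_lit 0xfd00408)) e
 (c (nat_lit 0x7e4a27e4bf7e4bf7e4bf7e4bfb1728) e
 (c (nat_lit 0x7fc237fc5d7fc787fc787fc783f8a8) e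
 (c (nat_lit 0x7fc357fbef7fc2c7fc357fc35e05e8) e
 (c (nat_lit 0x7fbcb7fbcb7fbb57fbcb7fbcbe0209) e
 (c (b (nat_lit 0xff6ea09)) e
 (c (b (nat_lit 0xffb1c09)) e
 (c (b (nat_lit 0xffefc09)) e e)))))))))))))))))
 (c (a (nat_lit 0x101ffe00))
 (c z e
 (c z e
 (c z e
 (c z e
 (c z e
 (c (b (nat_lit 0x10153e07)) e
 (c z e
 (c (b (nat_lit 0xfd77a08)) e
 (c (b (nat_lit 0xfd9ae08)) e
 (c (nat_lit 0x7fdb27fdf67fe047fe047fe04f0b68) e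
 (c (nat_lit 0x7fd1c7fd187fd527fd597fd59f6a48) e
 (c (nat_lit 0x7fd107fcf27fcfc7fd107fd10fd568) e
 (c (nat_lit 0x80000800007fcd07fcd77fcdcf6fc8) e
 (c (nat_lit 0x8000080000800007fcaa7fcaad3108) e e))))))))))))))
 (c (a (nat_lit 0x101ffa00))
 (c (b (nat_lit 0xfbc4c07)) e
 (c z e
 (c z e
 (c (b (nat_lit 0x103caa07)) e
 (c (b (nat_lit 0xfe06208)) e
 (c (b (nat_lit 0xfc90608)) e
 (c (b (nat_lit 0xfe96408)) e
 (c (nat_lit 0x7f6457f6527f6527f6527f65273e28) e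
 (c (nat_lit 0x7f2fb7f2fd7f3097f3097f309f5c08) e
 (c (nat_lit 0x7f2cd7f2be7f2c67f2cd7f2cd3eee8) e
 (c (nat_lit 0x7f2b37f2b37f2a57f2af7f2b31e388) e
 (c (nat_lit 0x80000800007f2897f27c7f28777d88) e
 (c (nat_lit 0x8000080000800007f26c7f26c41668) e
 (c (nat_lit 0x800008000080000800007feaf62208) e e))))))))))))))
 (c (nat_lit 0x80ffd80ffd80ffd80ffca26e0)
 (c z e
 (c (b (nat_lit 0x10223c07)) e
 (c (nat_lit 0x7947e7947e794757947e7947e5d428) e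
 (c (b (nat_lit 0xfdd7608)) e
 (c (b (nat_lit 0xff30e08)) e
 (c (b (nat_lit 0xfe0f608)) e
 (c (b (nat_lit 0xfe05c08)) e
 (c (nat_lit 0x7f0207f0147f01e7f01c7f0208bbc8) e
 (c (nat_lit 0x7effe7f0117eff87f0047f00402b88) e
 (c (nat_lit 0x7eff17efd77eff17efd47efedc79a8) e
 (c (nat_lit 0x80000800007efb77efc67efc6f2bc8) e
 (c (nat_lit 0x8000080000800007efb77efb732d08) e
 (c (nat_lit 0x800008000080000800007fbfbc6008) e e)))))))))))))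
 (c (nat_lit 0x80ffd80ffe80ffe80ffed78c0)
 (c (nat_lit 0x7580b75801757d97580b7580b44fa8) e
 (c (b (nat_lit 0xfd93008)) e
 (c (b (nat_lit 0xfecd408)) e
 (c (b (nat_lit 0xfe0aa08)) e
 (c (nat_lit 0x7f0547f05f7f05f7f05f7f05f26288) e
 (c (nat_lit 0x7f0227f0167f0227f02c7f02c88948) e
 (c (b (nat_lit 0xfdfd808)) e
 (c (nat_lit 0x7effe7effe7eff97eff27eff96d8a8) e
 (c (nat_lit 0x7eff67efed7eff67efec7efe60fee8) e
 (c (nat_lit 0x80000800007efd27efd97efd9c70a8) e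
 (c (nat_lit 0x8000080000800007efc67efc6278c8) e
 (c (nat_lit 0x800008000080000800007fc0ae53c8) e e))))))))))))
 (c (a (nat_lit 0x101ffe00)) e
 (c (a (nat_lit 0x10200000)) e
 (c (nat_lit 0x80fff810008100081000d7be0) e
 (c (nat_lit 0x80ffa80ffb80ffb80ffbc7420) e
 (c (a (nat_lit 0x10200000)) e
 (c (a (nat_lit 0x101ff600)) e
 (c (a (nat_lit 0x101ff800)) e
 (c (a (nat_lit 0x101ffa00)) e
 (c (a (nat_lit 0x10200601)) e
 (c (nat_lit 0x81006810068100281002b41c1) e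
 (c (a (nat_lit 0x10075201)) e
 (c (a (nat_lit 0x100cae01)) e
 (c (a (nat_lit 0x1005c603)) e
 (c (a (nat_lit 0x100ccc03)) e
 (c (nat_lit 0x7ff9c7ff9b7ff9b7ff9b846e3) e
 (c (a (nat_lit 0x100b7803)) e
 (c (a (nat_lit 0x10095405)) e
 (c (nat_lit 0x7f5c37f5c37f5c27f5c224165) e
 (c (nat_lit 0x80227802278022880229ec427) e
 (c (a (nat_lit 0xff92207)) e
 (c (a (nat_lit 0xffe6807)) e
 (c (nat_lit 0x80fb380fb380fb480fb446187) e e))))))))))))))))))))))))))))))) Tr.c Tr.e (nat_lit 0) C.t4 C.t5 C.t6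
noncomputable def tt120 : Tr := beta% (fun (c : Nat → Tr → Tr → Tr) (e : Tr) (z : Nat) (a b : Nat → Nat) =>
 (c (a (nat_lit 0xfed1000))
 (c z e
 (c z e
 (c z e
 (c z e
 (c z e
 (c z e
 (c z e
 (c (nat_lit 0x7d8877d8877d8877d8877d8457d887f3e09) e
 (c z e
 (c z e
 (c z e
 (c (b (nat_lit 0x101c160b)) e
 (c (b (nat_lit 0x1019340b)) e e)))))))))))))
 (c (a (nat_lit 0xfe00800))
 (c z e
 (c z e
 (c z e
 (c z e
 (c z e
 (c z e
 (c z e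
 (c z e
 (c z e
 (c z e
 (c z e
 (c z e
 (c (b (nat_lit 0xfffea0d)) e e)))))))))))))
 (c (a (nat_lit 0xfe00c00)) e
 (c (a (nat_lit 0xfe01200))
 (c z e
 (c (nat_lit 0x8092b8092b8092b8087b8092b8092bb8a49) e
 (c z e
 (c z e
 (c z e
 (c z e
 (c z e
 (c z e
 (c z e
 (c (b (nat_lit 0xfffe80d)) e e))))))))))
 (c (a (nat_lit 0xfe00400)) e
 (c (a (nat_lit 0xfe01800)) e
 (c (a (nat_lit 0xfe00201)) e
 (c (a (nat_lit 0xfdffc01)) e
 (c (a (nat_lit 0xfdff401)) e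
 (c (nat_lit 0x7f0337f0337f0337f0337f00be3a61) e
 (c (a (nat_lit 0xfe7a403)) e
 (c (a (nat_lit 0xff36e03)) e
 (c (a (nat_lit 0xfeefa03)) e
 (c z e
 (c z e
 (c (a (nat_lit 0xff81a05)) e
 (c z e
 (c (a (nat_lit 0xff7d807)) e
 (c z e
 (c z e
 (c (nat_lit 0x7f6d57f6d57f6737f6d57f6d540aa9) e
 (c (a (nat_lit 0xff40e09)) e
 (c z e
 (c (a (nat_lit 0xff2880b)) e
 (c (a (nat_lit 0xfec180b)) e
 (c z e
 (c z e
 (c (a (nat_lit 0xfeeb40d)) e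
 (c (a (nat_lit 0xffece0d)) e e)))))))))))))))))))))))))))))) Tr.c Tr.e (nat_lit 0) C.t5 C.t6
noncomputable def tt121 : Tr := beta% (fun (c : Nat → Tr → Tr → Tr) (e : Tr) (z : Nat) (a b : Nat → Nat) =>
 (c (a (nat_lit 0xfe00a00))
 (c z e
 (c z e
 (c z e
 (c z e
 (c z e
 (c z e
 (c z e
 (c z e
 (c z e
 (c z e
 (c (b (nat_lit 0xf9cbe09)) e
 (c (b (nat_lit 0xfd79c09)) e
 (c (b (nat_lit 0x1022ec0b)) e
 (c (b (nat_lit 0x10255c0b)) e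
 (c (nat_lit 0x81256812568125681256810f381256df44b) e
 (c (b (nat_lit 0x1025a20b)) e e))))))))))))))))
 (c (nat_lit 0x7f0087f0077f0077f0077f007b1fc0)
 (c z e
 (c z e
 (c z e
 (c z e
 (c z e
 (c (b (nat_lit 0x1006d007)) e
 (c z e
 (c z e
 (c z e
 (c z e
 (c z e
 (c (b (nat_lit 0x1024e00b)) e
 (c z e
 (c (b (nat_lit 0xfffcc0b)) e
 (c (b (nat_lit 0xfffbe0d)) e e)))))))))))))))
 (c (a (nat_lit 0xfe01400))
 (c z e
 (c z e
 (c z e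
 (c z e
 (c z e
 (c z e
 (c z e
 (c z e
 (c z e
 (c z e
 (c (b (nat_lit 0x1040480b)) e e)))))))))))
 (c (a (nat_lit 0xfe00200))
 (c z e
 (c z e
 (c z e
 (c z e
 (c z e
 (c z e
 (c z e
 (c z e
 (c z e
 (c (b (nat_lit 0xff89c0b)) e e))))))))))
 (c (a (nat_lit 0xfdffc00))
 (c z e
 (c z e
 (c z e
 (c z e
 (c z e
 (c z e
 (c z e
 (c z e
 (c (b (nat_lit 0x1006480d)) e e)))))))))
 (c (a (nat_lit 0xfe01e00))
 (c z e
 (c z e
 (c z e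
 (c z e
 (c z e
 (c z e
 (c z e
 (c z e
 (c (nat_lit 0x80000800007ffd3800008000080000721d4) e e)))))))))
 (c (a (nat_lit 0xfe00c00))
 (c z e
 (c z e
 (c z e
 (c z e
 (c z e
 (c (b (nat_lit 0x10487c0d)) e e))))))
 (c (a (nat_lit 0xfe00200)) e
 (c (a (nat_lit 0xfe00001)) e
 (c (a (nat_lit 0xfdfea01)) e
 (c (nat_lit 0x7f01b7f01b7f01b7f00a7f00dc67e1) e
 (c z e
 (c (a (nat_lit 0xfeb3603)) e
 (c (a (nat_lit 0xfeb4403)) e
 (c (a (nat_lit 0xfec6e03)) e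
 (c z e
 (c (a (nat_lit 0xffb0e05)) e
 (c (a (nat_lit 0xff7f205)) e
 (c (a (nat_lit 0xff31a07)) e
 (c (a (nat_lit 0xff86207)) e
 (c z e
 (c (a (nat_lit 0xfe81607)) e
 (c (a (nat_lit 0xffcde09)) e
 (c (a (nat_lit 0xff8a809)) e
 (c (nat_lit 0x7fe1b7fe1b7fe3a7fe3a7fe3ac792b) e
 (c (a (nat_lit 0xff58e0b)) e
 (c z e
 (c z e
 (c (a (nat_lit 0xfeb880d)) e
 (c (a (nat_lit 0xfef600d)) e e))))))))))))))))))))))))))))))) Tr.c Tr.e (nat_lit 0) C.t5 C.t6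
noncomputable def tt122 : Tr := beta% (fun (c : Nat → Tr → Tr → Tr) (e : Tr) (z : Nat) (a b : Nat → Nat) =>
 (c (a (nat_lit 0xfdffc00))
 (c (b (nat_lit 0x10202a01))
 (c z e
 (c z e
 (c z e
 (c z e
 (c z e
 (c (nat_lit 0x8000080000800007ffd78000080000800003268b) e e))))))
 (c (b (nat_lit 0x101ff801)) e
 (c (b (nat_lit 0x101ffa01)) e
 (c z e
 (c z e
 (c (b (nat_lit 0x100d2603)) e
 (c z e
 (c z e
 (c z e
 (c z e
 (c (nat_lit 0x80000800007fefe7fed180000800008c847) e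
 (c z e
 (c (b (nat_lit 0xfda3607)) e
 (c (b (nat_lit 0x10092a09)) e
 (c (b (nat_lit 0x1025480b)) e
 (c (b (nat_lit 0x1018a20b)) e
 (c (b (nat_lit 0x1025800b)) e
 (c z e
 (c (b (nat_lit 0x100e220d)) e
 (c z e
 (c (nat_lit 0x7faa67faa67fa9d7faa67faa67faa69d1d8) e e)))))))))))))))))))))
 (c (a (nat_lit 0xfe00e00))
 (c (b (nat_lit 0x101ff001)) e
 (c z e
 (c z e
 (c z e
 (c z e
 (c (b (nat_lit 0x1026ce05)) e
 (c (b (nat_lit 0x10141805)) e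
 (c z e
 (c z e
 (c z e
 (c z e
 (c z e
 (c (b (nat_lit 0x103c800b)) e
 (c z e
 (c (b (nat_lit 0x102aa00b)) e
 (c (b (nat_lit 0xffd6c0b)) e
 (c z e
 (c z e
 (c (b (nat_lit 0xff8ee15)) e
 (c (b (nat_lit 0xff13c18)) e e))))))))))))))))))))
 (c (a (nat_lit 0xfe00400))
 (c z e
 (c z e
 (c z e
 (c z e
 (c z e
 (c z e
 (c (b (nat_lit 0xfff2207)) e
 (c z e
 (c z e
 (c z e
 (c z e
 (c z e
 (c (b (nat_lit 0x1034060b)) e
 (c (b (nat_lit 0x1020600b)) e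
 (c z e
 (c (nat_lit 0x800008000080000800007fdd57fdd516b4d) e e))))))))))))))))
 (c (a (nat_lit 0xfe01200))
 (c z e
 (c z e
 (c z e
 (c z e
 (c z e
 (c (b (nat_lit 0xfffee07)) e
 (c z e
 (c z e
 (c z e
 (c z e
 (c z e
 (c (b (nat_lit 0xffed40b)) e e))))))))))))
 (c (a (nat_lit 0xfe00e00)) e
 (c (a (nat_lit 0xfe02000)) e
 (c (a (nat_lit 0xfe02c00))
 (c z e
 (c z e
 (c z e
 (c z e
 (c z e
 (c z e
 (c z e
 (c (b (nat_lit 0xfff9e0d)) e e))))))))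
 (c (a (nat_lit 0xfe01200)) e
 (c (a (nat_lit 0xfdffc00)) e
 (c (a (nat_lit 0xfdffc00)) e
 (c (nat_lit 0x7f00c7f0097f0087f0087f00abec61) e
 (c (a (nat_lit 0xfe00c01)) e
 (c (a (nat_lit 0xfdfc601)) e
 (c (a (nat_lit 0xff60401)) e
 (c (a (nat_lit 0xfe94a03)) e
 (c (a (nat_lit 0xff14e03)) e
 (c (a (nat_lit 0xff72c03)) e
 (c z e
 (c (a (nat_lit 0xff76a05)) e
 (c (a (nat_lit 0xffa4405)) e
 (c (a (nat_lit 0xff63807)) e
 (c (a (nat_lit 0xff19e07)) e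
 (c (a (nat_lit 0xff02607)) e
 (c z e
 (c (a (nat_lit 0xfefa209)) e
 (c (a (nat_lit 0xff1e80b)) e
 (c (a (nat_lit 0xfed920b)) e e)))))))))))))))))))))))))))) Tr.c Tr.e (nat_lit 0) C.t5 C.t6
noncomputable def tt123 : Tr := beta% (fun (c : Nat → Tr → Tr → Tr) (e : Tr) (z : Nat) (a b d : Nat → Nat) =>
 (c (a (nat_lit 0xfdff600))
 (c (b (nat_lit 0x10209200))
 (c (d (nat_lit 0xffffe05)) e
 (c z e
 (c z e
 (c z e
 (c z e
 (c z e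
 (c z e
 (c (d (nat_lit 0x10526c0b)) e
 (c z e
 (c z e
 (c (d (nat_lit 0x1051280d)) e e)))))))))))
 (c (b (nat_lit 0x101fb600)) e
 (c (b (nat_lit 0x10200401)) e
 (c (b (nat_lit 0x101ffc01)) e
 (c (b (nat_lit 0x101fe201)) e
 (c z e
 (c z e
 (c z e
 (c (b (nat_lit 0x10139003)) e
 (c z e
 (c z e
 (c z e
 (c z e
 (c z e
 (c z e
 (c z e
 (c (b (nat_lit 0x101eb80b)) e e)))))))))))))))))
 (c (a (nat_lit 0xfe00800))
 (c (b (nat_lit 0x10200c01)) e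
 (c (b (nat_lit 0x101fea01)) e
 (c (b (nat_lit 0x101ff601)) e
 (c (nat_lit 0x80ff680ff680ff680ff680ff380ff3a1b81) e
 (c z e
 (c z e
 (c z e
 (c z e
 (c (b (nat_lit 0xff96e05)) e
 (c z e
 (c (b (nat_lit 0x1016f407)) e
 (c z e
 (c z e
 (c (b (nat_lit 0x1006d407)) e
 (c (b (nat_lit 0x10121a0b)) e
 (c (b (nat_lit 0x101bf60b)) e e))))))))))))))))
 (c (a (nat_lit 0xfe00c00))
 (c (b (nat_lit 0x101fea01)) e
 (c z e
 (c z e
 (c z e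
 (c z e
 (c z e
 (c (b (nat_lit 0xfe82a05)) e
 (c z e
 (c z e
 (c z e
 (c z e
 (c z e
 (c z e
 (c (b (nat_lit 0x10408c0b)) e
 (c (b (nat_lit 0x1035300b)) e
 (c (b (nat_lit 0x1010f40b)) e
 (c z e
 (c (b (nat_lit 0xffe9e0d)) e e))))))))))))))))))
 (c (a (nat_lit 0xfe00800))
 (c z e
 (c z e
 (c z e
 (c z e
 (c z e
 (c z e
 (c z e
 (c z e
 (c z e
 (c z e
 (c z e
 (c z e
 (c z e
 (c z e
 (c z e
 (c (b (nat_lit 0xfff800d)) e e))))))))))))))))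
 (c (a (nat_lit 0xfe01000))
 (c z e
 (c z e
 (c z e
 (c (b (nat_lit 0x101d8e05)) e
 (c z e
 (c z e
 (c z e
 (c z e
 (c z e
 (c z e
 (c z e
 (c z e
 (c z e
 (c (b (nat_lit 0xfff900d)) e
 (c z e
 (c (b (nat_lit 0xfff2a13)) e e))))))))))))))))
 (c (a (nat_lit 0xfe01a00))
 (c z e
 (c z e
 (c z e
 (c z e
 (c z e
 (c z e
 (c z e
 (c z e
 (c z e
 (c (b (nat_lit 0xffcd80b)) e e))))))))))
 (c (a (nat_lit 0xfe01e00))
 (c z e
 (c z e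
 (c z e
 (c z e
 (c z e
 (c z e
 (c z e
 (c z e
 (c (b (nat_lit 0x100a700d)) e
 (c (b (nat_lit 0x100f3a0d)) e e))))))))))
 (c (a (nat_lit 0xfe00e00)) e
 (c (a (nat_lit 0xfe03000)) e
 (c (nat_lit 0x7f00e7f00d7f00d7f00e7f00ebac00)
 (c z e
 (c z e
 (c z e
 (c z e
 (c (b (nat_lit 0x1016c011)) e e)))))
 (c (a (nat_lit 0xfdff400))
 (c (b (nat_lit 0x10269c0d)) e
 (c (b (nat_lit 0x103b020d)) e
 (c z e
 (c (b (nat_lit 0x10139e20)) e e))))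
 (c (a (nat_lit 0xfe01600))
 (c (nat_lit 0x800007fbfe8000080000800008000007e50) e e)
 (c (a (nat_lit 0xfdffe01))
 (c z e
 (c z e
 (c z e
 (c (nat_lit 0x80000800008000080000800007f2afa9590) e e))))
 (c (a (nat_lit 0xfe00c01))
 (c (nat_lit 0x80000800008000082fd182fd182fd112010) e
 (c (nat_lit 0x8000080000800008000080717807171c150) e e))
 (c (a (nat_lit 0xfdffa01)) e
 (c (a (nat_lit 0xfdff001)) e
 (c (a (nat_lit 0xfee9403)) e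
 (c (a (nat_lit 0x100d7603)) e
 (c z e
 (c z e
 (c z e
 (c (a (nat_lit 0xff52405)) e
 (c z e
 (c (a (nat_lit 0xff52607)) e
 (c z e
 (c z e
 (c (a (nat_lit 0xff4c40b)) e
 (c (a (nat_lit 0xff0340b)) e
 (c (a (nat_lit 0xfffda0b)) e
 (c z e
 (c (a (nat_lit 0xfff100d)) e
 (c (a (nat_lit 0xffebc0d)) e e))))))))))))))))))))))))))))))))) Tr.c Tr.e (nat_lit 0) C.t5 C.t6 C.t7
noncomputable def tt124 : Tr := beta% (fun (c : Nat → Tr → Tr → Tr) (e : Tr) (z : Nat) (a b : Nat → Nat) =>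
 (c (a (nat_lit 0xfe01a00))
 (c (b (nat_lit 0x101f9000)) e
 (c (b (nat_lit 0x101fe801)) e
 (c (b (nat_lit 0x101fd801)) e
 (c (b (nat_lit 0x101fd001)) e
 (c z e
 (c z e
 (c z e
 (c z e
 (c z e
 (c z e
 (c (b (nat_lit 0xf9e3a05)) e
 (c z e
 (c z e
 (c z e
 (c z e
 (c (b (nat_lit 0x101e320b)) e
 (c (b (nat_lit 0x1006be0b)) e
 (c z e
 (c (b (nat_lit 0x100dbc0d)) e e)))))))))))))))))))
 (c (a (nat_lit 0xfe00400))
 (c (b (nat_lit 0x10200401)) e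
 (c (b (nat_lit 0x101fee01)) e
 (c (b (nat_lit 0x101fce01)) e
 (c z e
 (c (b (nat_lit 0x1010a603)) e
 (c z e
 (c z e
 (c z e
 (c z e
 (c z e
 (c z e
 (c z e
 (c (b (nat_lit 0x10027207)) e
 (c (b (nat_lit 0x102ac80b)) e
 (c (b (nat_lit 0x10060c0b)) e
 (c (b (nat_lit 0x1003920b)) e
 (c z e
 (c z e
 (c z e
 (c (b (nat_lit 0xfff480f)) e e))))))))))))))))))))
 (c (a (nat_lit 0xfe01400))
 (c z e
 (c z e
 (c z e
 (c (b (nat_lit 0x100eb603)) e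
 (c (b (nat_lit 0xff95403)) e
 (c (b (nat_lit 0xff82805)) e
 (c (b (nat_lit 0x10114c05)) e
 (c (b (nat_lit 0x101c4c07)) e
 (c z e
 (c z e
 (c z e
 (c (b (nat_lit 0x102a0a0b)) e
 (c (b (nat_lit 0x10217a0b)) e
 (c z e
 (c z e
 (c z e
 (c z e
 (c z e
 (c z e
 (c (b (nat_lit 0xffeee0f)) e e))))))))))))))))))))
 (c (a (nat_lit 0xfe01800))
 (c z e
 (c z e
 (c z e
 (c z e
 (c z e
 (c z e
 (c z e
 (c z e
 (c z e
 (c z e
 (c (b (nat_lit 0x1020d40b)) e e)))))))))))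
 (c (a (nat_lit 0xfe00800))
 (c z e
 (c z e
 (c z e
 (c z e
 (c z e
 (c z e
 (c z e
 (c z e
 (c z e
 (c z e
 (c z e
 (c z e
 (c z e
 (c z e
 (c z e
 (c (b (nat_lit 0xfffdc0f)) e e))))))))))))))))
 (c (a (nat_lit 0xfe02400))
 (c (b (nat_lit 0x100bb805)) e
 (c (b (nat_lit 0x1027fa07)) e e))
 (c (a (nat_lit 0xfe01600))
 (c z e
 (c (b (nat_lit 0xffe9407)) e
 (c z e
 (c z e
 (c z e
 (c z e
 (c z e
 (c (b (nat_lit 0x100db80d)) e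
 (c z e
 (c z e
 (c z e
 (c (b (nat_lit 0xff5de0f)) e e))))))))))))
 (c (a (nat_lit 0xfe04600)) e
 (c (nat_lit 0x7f0127f0117f0117f0117f011f6ca0)
 (c z e
 (c z e
 (c z e
 (c z e
 (c (b (nat_lit 0x1010260f)) e
 (c (b (nat_lit 0xfec640f)) e
 (c (b (nat_lit 0xfffd60f)) e e)))))))
 (c (nat_lit 0x7f0157f0157f0157f0157f0163b020) e
 (c (a (nat_lit 0xfe01400)) e
 (c (a (nat_lit 0xfe01000))
 (c z e
 (c z e
 (c z e
 (c z e
 (c (nat_lit 0x80000800008000080000800007fdbf8ead0) e e)))))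
 (c (nat_lit 0x7f0137f00e7f0117f0117f01319ac1)
 (c (nat_lit 0x8000080000871ef871ef871ef871efd3850) e
 (c (nat_lit 0x80000800008000080ef480ef880ef84d310) e
 (c (nat_lit 0x80000800008000080000804e8804eac4cd0) e e)))
 (c (a (nat_lit 0xfdff401)) e
 (c (a (nat_lit 0xfdff001)) e
 (c (a (nat_lit 0xfe59401)) e
 (c (a (nat_lit 0xff45e03)) e
 (c (a (nat_lit 0xfeed603)) e
 (c z e
 (c z e
 (c (a (nat_lit 0xfffee05)) e
 (c (a (nat_lit 0xff47c05)) e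
 (c (a (nat_lit 0xfeef207)) e
 (c z e
 (c z e
 (c z e
 (c (a (nat_lit 0xfe9820b)) e
 (c z e
 (c z e
 (c z e
 (c z e
 (c (a (nat_lit 0xff2d00f)) e
 (c (nat_lit 0x7ff79800008000080000800003e26f) e
 (c (a (nat_lit 0xfff580f)) e
 (c (nat_lit 0x7fc027fbff7fbff7fbff7fc029ebef) e e)))))))))))))))))))))))))))))))))))) Tr.c Tr.e (nat_lit 0) C.t5 C.t6
noncomputable def tt125 : Tr := beta% (fun (c : Nat → Tr → Tr → Tr) (e : Tr) (z : Nat) (a b : Nat → Nat) =>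
 (c (a (nat_lit 0x101f7400))
 (c (b (nat_lit 0xfe1b603)) e
 (c z e
 (c z e
 (c z e
 (c z e
 (c z e
 (c z e
 (c (b (nat_lit 0xfc49207)) e
 (c (b (nat_lit 0xfff1007)) e
 (c z e
 (c z e
 (c z e
 (c (b (nat_lit 0xffe3e0b)) e
 (c z e
 (c (b (nat_lit 0xffed20d)) e e)))))))))))))))
 (c (a (nat_lit 0x101f6c00))
 (c z e
 (c z e
 (c z e
 (c z e
 (c z e
 (c z e
 (c z e
 (c z e
 (c z e
 (c (b (nat_lit 0xfffc20b)) e
 (c z e
 (c z e
 (c z e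
 (c z e
 (c (b (nat_lit 0xffafe0f)) e e)))))))))))))))
 (c (a (nat_lit 0x101f7c00))
 (c z e
 (c z e
 (c z e
 (c z e
 (c z e
 (c (b (nat_lit 0xffe9407)) e
 (c z e
 (c z e
 (c (b (nat_lit 0xfe48c0b)) e e)))))))))
 (c (a (nat_lit 0x101fb000)) e
 (c (a (nat_lit 0x101f9000)) e
 (c (a (nat_lit 0x101fc601)) e
 (c (a (nat_lit 0x101fe801)) e
 (c (a (nat_lit 0x101f7a01))
 (c z e
 (c (b (nat_lit 0xfc46e0f)) e e))
 (c (a (nat_lit 0x101fae01)) e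
 (c (a (nat_lit 0x1014ac03)) e
 (c (a (nat_lit 0x1019b003)) e
 (c z e
 (c z e
 (c z e
 (c z e
 (c z e
 (c (a (nat_lit 0x10059a07)) e
 (c z e
 (c (a (nat_lit 0xff6fc07)) e
 (c (a (nat_lit 0x100c180b)) e
 (c (a (nat_lit 0xffd020b)) e
 (c z e
 (c z e
 (c z e
 (c (nat_lit 0x8018380183801768017680183801835b88f) e e)))))))))))))))))))))))))) Tr.c Tr.e (nat_lit 0) C.t6 C.t7
noncomputable def tt126 : Tr := beta% (fun (c : Nat → Tr → Tr → Tr) (e : Tr) (z : Nat) (a b : Nat → Nat) =>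
 (c (a (nat_lit 0xfe00e00))
 (c (b (nat_lit 0x101fb600)) e
 (c (b (nat_lit 0x101fa400)) e
 (c (b (nat_lit 0x101ff401)) e
 (c (b (nat_lit 0x101fd601)) e
 (c (b (nat_lit 0x101fd001)) e
 (c (b (nat_lit 0x101c4e01)) e
 (c (b (nat_lit 0x1010f003)) e
 (c (b (nat_lit 0x10120003)) e
 (c z e
 (c z e
 (c (b (nat_lit 0xffe1405)) e
 (c z e
 (c z e
 (c z e
 (c z e
 (c z e
 (c z e
 (c (b (nat_lit 0x1012160b)) e
 (c z e
 (c (b (nat_lit 0xffe920d)) e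
 (c z e
 (c z e
 (c z e
 (c z e
 (c (b (nat_lit 0xfff7419)) e e)))))))))))))))))))))))))
 (c (a (nat_lit 0xfe00400))
 (c (b (nat_lit 0x10200a01)) e
 (c (b (nat_lit 0x101fe001)) e
 (c (b (nat_lit 0x101fd801)) e
 (c z e
 (c (b (nat_lit 0x101a7203)) e
 (c z e
 (c (b (nat_lit 0x1015e003)) e
 (c (b (nat_lit 0x100bca03)) e
 (c z e
 (c z e
 (c z e
 (c z e
 (c (b (nat_lit 0x10035807)) e
 (c (b (nat_lit 0xffcaa07)) e e))))))))))))))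
 (c (a (nat_lit 0xfe00600))
 (c (b (nat_lit 0x1012c401)) e
 (c (b (nat_lit 0x101fda01)) e
 (c z e
 (c z e
 (c (b (nat_lit 0x1013d603)) e
 (c (b (nat_lit 0x10044603)) e
 (c z e
 (c (b (nat_lit 0x100bda05)) e
 (c z e
 (c z e
 (c z e
 (c z e
 (c z e
 (c (b (nat_lit 0x1005ba0b)) e e))))))))))))))
 (c (a (nat_lit 0xfe01400))
 (c z e
 (c z e
 (c z e
 (c z e
 (c z e
 (c (b (nat_lit 0x10235c05)) e
 (c z e
 (c z e
 (c z e
 (c z e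
 (c z e
 (c z e
 (c z e
 (c z e
 (c z e
 (c (b (nat_lit 0xfffd00f)) e e))))))))))))))))
 (c (a (nat_lit 0xfe01600))
 (c z e
 (c z e
 (c (b (nat_lit 0x10035605)) e
 (c (b (nat_lit 0x100ab005)) e
 (c z e
 (c z e
 (c z e
 (c z e
 (c z e
 (c (b (nat_lit 0xff5cc0b)) e
 (c z e
 (c z e
 (c (b (nat_lit 0xff4d40f)) e
 (c (b (nat_lit 0xffdba0f)) e
 (c z e
 (c (b (nat_lit 0xfff980f)) e e))))))))))))))))
 (c (a (nat_lit 0xfe01600))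
 (c z e
 (c z e
 (c (b (nat_lit 0xffcdc07)) e
 (c z e
 (c z e
 (c z e
 (c z e
 (c z e
 (c z e
 (c z e
 (c (b (nat_lit 0x100ce80f)) e e)))))))))))
 (c (a (nat_lit 0xfe02400))
 (c (b (nat_lit 0xfc69207)) e
 (c (b (nat_lit 0xff4bc07)) e
 (c (b (nat_lit 0xff1a007)) e
 (c z e
 (c z e
 (c z e
 (c z e
 (c (b (nat_lit 0xffe560d)) e
 (c z e
 (c z e
 (c z e
 (c (b (nat_lit 0xff9e80f)) e e))))))))))))
 (c (a (nat_lit 0xfe02c00))
 (c z e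
 (c (b (nat_lit 0xfedbc07)) e
 (c z e
 (c z e
 (c z e
 (c z e
 (c z e
 (c z e
 (c z e
 (c (b (nat_lit 0xfff060f)) e e))))))))))
 (c (nat_lit 0x7f00b7f00a7f00a7f00a7f00aab780) e
 (c (a (nat_lit 0xfe00e00)) e
 (c (nat_lit 0x7f0137f0137f0137f0137f01410a80)
 (c z e
 (c (b (nat_lit 0x1033c60f)) e
 (c (b (nat_lit 0x1046560f)) e
 (c z e
 (c z e
 (c (nat_lit 0x80000800008000080000811ac811acd4310) e e))))))
 (c (a (nat_lit 0xfe00a00))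
 (c z e
 (c z e
 (c (nat_lit 0x80000800008248a8248a8248a8248af11d0) e e)))
 (c (a (nat_lit 0xfe01000))
 (c (b (nat_lit 0x10f18010)) e
 (c (nat_lit 0x800008000080d8880d8980d8980d892b550) e
 (c (nat_lit 0x80000800008000080838808398083914d50) e
 (c (nat_lit 0x8000080000800008000080faf80fb1a2d50) e e))))
 (c (a (nat_lit 0xfe00201)) e
 (c (a (nat_lit 0xfdff801)) e
 (c (nat_lit 0x7f0067f0067f0067f0027f004d6341) e
 (c (a (nat_lit 0xfea2201)) e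
 (c (a (nat_lit 0xff30603)) e
 (c (a (nat_lit 0xfef9603)) e
 (c (a (nat_lit 0x1002a403)) e
 (c z e
 (c z e
 (c (a (nat_lit 0xffdf805)) e
 (c z e
 (c z e
 (c (a (nat_lit 0xff0ae07)) e
 (c z e
 (c z e
 (c z e
 (c z e
 (c z e
 (c (a (nat_lit 0xfffd80f)) e e))))))))))))))))))))))))))))))))) Tr.c Tr.e (nat_lit 0) C.t5 C.t6
noncomputable def tt127 : Tr := beta% (fun (c : Nat → Tr → Tr → Tr) (e : Tr) (z : Nat) (a b : Nat → Nat) =>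
 (c (a (nat_lit 0x101f8200))
 (c (b (nat_lit 0xfda6001)) e
 (c (b (nat_lit 0xfd63c03)) e
 (c z e
 (c z e
 (c z e
 (c z e
 (c z e
 (c z e
 (c (b (nat_lit 0xfff6a07)) e e)))))))))
 (c (a (nat_lit 0x101faa00))
 (c z e
 (c z e
 (c z e
 (c z e
 (c z e
 (c z e
 (c z e
 (c (b (nat_lit 0xffc7a07)) e
 (c z e
 (c z e
 (c (b (nat_lit 0x102ed20b)) e e)))))))))))
 (c (a (nat_lit 0x101f9c00))
 (c z e
 (c z e
 (c z e
 (c z e
 (c z e
 (c z e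
 (c z e
 (c (b (nat_lit 0xffdec0b)) e
 (c z e
 (c z e
 (c z e
 (c z e
 (c z e
 (c z e
 (c (b (nat_lit 0xffd420f)) e e)))))))))))))))
 (c (a (nat_lit 0x101fbe00)) e
 (c (a (nat_lit 0x101f8400)) e
 (c (a (nat_lit 0x101f9000)) e
 (c (a (nat_lit 0x101fe601)) e
 (c (a (nat_lit 0x101fbe01)) e
 (c (a (nat_lit 0x101f9e01)) e
 (c (a (nat_lit 0x1018c001)) e
 (c (a (nat_lit 0x100a9a03)) e
 (c z e
 (c z e
 (c z e
 (c z e
 (c z e
 (c (a (nat_lit 0x101ab607)) e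
 (c (a (nat_lit 0x10022607)) e
 (c z e
 (c z e
 (c z e
 (c z e
 (c z e
 (c z e
 (c z e
 (c (a (nat_lit 0xfffb40f)) e
 (c (a (nat_lit 0xfff580f)) e e)))))))))))))))))))))))))))) Tr.c Tr.e (nat_lit 0) C.t6 C.t7
noncomputable def tt128 : Tr := beta% (fun (c : Nat → Tr → Tr → Tr) (e : Tr) (z : Nat) (a b : Nat → Nat) =>
 (c (a (nat_lit 0x101f9c00))
 (c (b (nat_lit 0xfee9201)) e
 (c (b (nat_lit 0xfddbe01)) e
 (c (b (nat_lit 0xfe29601)) e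
 (c (nat_lit 0x7f1f27f1f27f1f27f1f27f1b17f1b47f1b467001) e
 (c (b (nat_lit 0xfe1f203)) e
 (c z e
 (c z e
 (c z e
 (c z e
 (c z e
 (c z e
 (c z e
 (c z e
 (c (b (nat_lit 0x10436007)) e
 (c z e
 (c z e
 (c z e
 (c z e
 (c z e
 (c z e
 (c z e
 (c (nat_lit 0x7ff157ff0e7ff157ff157ff157ff157ff151308f) e e))))))))))))))))))))))
 (c (a (nat_lit 0x101faa00))
 (c (b (nat_lit 0xfe27a01)) e
 (c (nat_lit 0x7f1597f1597f1597f1597f1247f1247f12436401) e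
 (c (b (nat_lit 0xfe1c003)) e
 (c z e
 (c z e
 (c z e
 (c z e
 (c z e
 (c z e
 (c z e
 (c z e
 (c z e
 (c (b (nat_lit 0x103e980b)) e
 (c z e
 (c z e
 (c z e
 (c z e
 (c z e
 (c (b (nat_lit 0xff7f80f)) e e)))))))))))))))))))
 (c (a (nat_lit 0x101f9000))
 (c (b (nat_lit 0xfe1f203)) e
 (c z e
 (c z e
 (c z e
 (c z e
 (c (b (nat_lit 0xffe8c05)) e
 (c z e
 (c z e
 (c z e
 (c z e
 (c z e
 (c z e
 (c z e
 (c z e
 (c z e
 (c z e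
 (c (b (nat_lit 0xfff2a0f)) e e)))))))))))))))))
 (c (a (nat_lit 0x101f7600))
 (c z e
 (c z e
 (c z e
 (c z e
 (c z e
 (c z e
 (c z e
 (c z e
 (c (b (nat_lit 0x10165e0b)) e
 (c z e
 (c z e
 (c (b (nat_lit 0xfffaa0d)) e e))))))))))))
 (c (a (nat_lit 0x101fa800))
 (c z e
 (c z e
 (c (b (nat_lit 0xffef007)) e
 (c z e
 (c z e
 (c z e
 (c z e
 (c z e
 (c z e
 (c z e
 (c z e
 (c z e
 (c (b (nat_lit 0xffcf80f)) e
 (c (b (nat_lit 0xffe6c0f)) e e))))))))))))))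
 (c (a (nat_lit 0x101fa200)) e
 (c (a (nat_lit 0x101f9000)) e
 (c (a (nat_lit 0x101fa200)) e
 (c (a (nat_lit 0x101fce01)) e
 (c (a (nat_lit 0x101f8e01)) e
 (c (a (nat_lit 0x101fd601)) e
 (c z e
 (c z e
 (c z e
 (c z e
 (c z e
 (c (a (nat_lit 0x100a8c05)) e
 (c (a (nat_lit 0x1012a405)) e
 (c (a (nat_lit 0x10071807)) e
 (c z e
 (c (a (nat_lit 0xff13207)) e e)))))))))))))))))))))) Tr.c Tr.e (nat_lit 0) C.t6 C.t7
noncomputable def tt129 : Tr := beta% (fun (c : Nat → Tr → Tr → Tr) (e : Tr) (z : Nat) (a b : Nat → Nat) =>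
 (c (a (nat_lit 0xfdffc00))
 (c (b (nat_lit 0x10130c01)) e
 (c (b (nat_lit 0x10200c01)) e
 (c z e
 (c z e
 (c (b (nat_lit 0x10148203)) e
 (c (b (nat_lit 0x1010a403)) e
 (c (b (nat_lit 0x1017a203)) e
 (c z e
 (c z e
 (c z e
 (c (b (nat_lit 0x102ae207)) e
 (c z e
 (c z e
 (c z e
 (c (b (nat_lit 0x100ca00d)) e
 (c z e
 (c (b (nat_lit 0xffbb20f)) e e)))))))))))))))))
 (c (a (nat_lit 0xfe00800))
 (c (b (nat_lit 0x100f7801)) e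
 (c z e
 (c z e
 (c (b (nat_lit 0x10243603)) e
 (c z e
 (c (b (nat_lit 0x1004d205)) e
 (c z e
 (c z e
 (c (b (nat_lit 0xff40607)) e
 (c z e
 (c (b (nat_lit 0xffbd207)) e
 (c z e
 (c z e
 (c (b (nat_lit 0x1007ba0d)) e
 (c z e
 (c (b (nat_lit 0xffff60f)) e e))))))))))))))))
 (c (a (nat_lit 0xfe00800))
 (c z e
 (c z e
 (c z e
 (c z e
 (c z e
 (c (b (nat_lit 0xfd13a07)) e
 (c z e
 (c z e
 (c z e
 (c (b (nat_lit 0xfd8ce0b)) e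
 (c z e
 (c z e
 (c z e
 (c z e
 (c z e
 (c z e
 (c z e
 (c (b (nat_lit 0xffbf813)) e e))))))))))))))))))
 (c (a (nat_lit 0xfe00400))
 (c (b (nat_lit 0x10202003)) e
 (c (b (nat_lit 0x10199205)) e
 (c (b (nat_lit 0x1024a605)) e
 (c z e
 (c z e
 (c z e
 (c z e
 (c z e
 (c (b (nat_lit 0xff8900d)) e
 (c (b (nat_lit 0xffd400d)) e
 (c z e
 (c z e
 (c z e
 (c (b (nat_lit 0xff81e0f)) e
 (c (b (nat_lit 0x10068614)) e e)))))))))))))))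
 (c (a (nat_lit 0xfe02400))
 (c z e
 (c z e
 (c z e
 (c z e
 (c z e
 (c z e
 (c z e
 (c (b (nat_lit 0x100c1c0d)) e
 (c (b (nat_lit 0x100a5e0f)) e
 (c z e
 (c (b (nat_lit 0xffb660f)) e
 (c (b (nat_lit 0xffd3c0f)) e
 (c (b (nat_lit 0x1004da14)) e
 (c (b (nat_lit 0x1006a414)) e e))))))))))))))
 (c (nat_lit 0x7f01d7f01b7f01b7f01b7f01b3cbc0)
 (c z e
 (c z e
 (c z e
 (c z e
 (c z e
 (c z e
 (c z e
 (c z e
 (c (b (nat_lit 0xfff840f)) e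
 (c (b (nat_lit 0xfea020f)) e e))))))))))
 (c (nat_lit 0x7f00b7f00a7f00a7f00a7f00c4ee80)
 (c z e
 (c z e
 (c z e
 (c z e
 (c z e
 (c z e
 (c z e
 (c (b (nat_lit 0xfd5e60f)) e
 (c (nat_lit 0x8000080000800007ff628000080000e1b51) e e)))))))))
 (c (a (nat_lit 0xfe00a00))
 (c z e
 (c (b (nat_lit 0x1050de0d)) e
 (c (b (nat_lit 0x102cc40f)) e
 (c (b (nat_lit 0x1017780f)) e
 (c z e
 (c (b (nat_lit 0xfef5c0f)) e e))))))
 (c (a (nat_lit 0xfdfe400))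
 (c z e
 (c z e
 (c z e
 (c (b (nat_lit 0xf93580f)) e
 (c (nat_lit 0x800008000081ef781ef781ef781ef73bb50) e
 (c (nat_lit 0x80000800008000082324823248232422850) e
 (c (nat_lit 0x80000800008000080000809d2809d2bcf10) e e)))))))
 (c (a (nat_lit 0xfe01400))
 (c z e
 (c z e
 (c (b (nat_lit 0x10bc0810)) e
 (c (nat_lit 0x80000800008050c805148051480514a6790) e
 (c z e
 (c (nat_lit 0x8000080000800008000080e1c80e208b8d0) e e))))))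
 (c (a (nat_lit 0xfe00c00))
 (c (b (nat_lit 0x11000e10)) e
 (c (b (nat_lit 0x103b5410)) e
 (c (nat_lit 0x80000800008088e8088280896808961a950) e
 (c (nat_lit 0x80000800008000080f1880f0380f18b5ed0) e
 (c (nat_lit 0x8000080000800008000080f6d80f5f67910) e e)))))
 (c (a (nat_lit 0xfdff800)) e
 (c (a (nat_lit 0xfe00201)) e
 (c (a (nat_lit 0xfe01201)) e
 (c (a (nat_lit 0xfdfce01)) e
 (c (a (nat_lit 0xfdd0c01)) e
 (c (a (nat_lit 0xfe4dc03)) e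
 (c (a (nat_lit 0xfeb5803)) e
 (c (a (nat_lit 0xfcdc203)) e
 (c z e
 (c (a (nat_lit 0xffe1005)) e
 (c z e
 (c (a (nat_lit 0xff9a207)) e
 (c (a (nat_lit 0xffafa07)) e
 (c z e
 (c z e
 (c z e
 (c (a (nat_lit 0xff02c0d)) e
 (c (a (nat_lit 0xff5740d)) e
 (c (a (nat_lit 0x10020c0f)) e
 (c z e
 (c (a (nat_lit 0x10043a0f)) e
 (c (a (nat_lit 0x100cc00f)) e e)))))))))))))))))))))))))))))))))) Tr.c Tr.e (nat_lit 0) C.t5 C.t6
noncomputable def tt130 : Tr := beta% (fun (c : Nat → Tr → Tr → Tr) (e : Tr) (z : Nat) (a b : Nat → Nat) =>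
 (c (a (nat_lit 0x101f8000))
 (c (nat_lit 0x7f1197f1197f1197f1197f1197f1197f0e5a8c83) e
 (c z e
 (c z e
 (c z e
 (c z e
 (c z e
 (c z e
 (c z e
 (c z e
 (c (b (nat_lit 0x1032fa0b)) e
 (c (b (nat_lit 0x102eee0d)) e
 (c z e
 (c z e
 (c z e
 (c z e
 (c z e
 (c (b (nat_lit 0xffe921c)) e e)))))))))))))))))
 (c (a (nat_lit 0x101f8200))
 (c z e
 (c z e
 (c z e
 (c z e
 (c z e
 (c z e
 (c z e
 (c (b (nat_lit 0xfffe80b)) e
 (c (b (nat_lit 0xfff400d)) e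
 (c z e
 (c z e
 (c z e
 (c z e
 (c z e
 (c z e
 (c (b (nat_lit 0x1018a41c)) e e))))))))))))))))
 (c (a (nat_lit 0x101fa400))
 (c z e
 (c z e
 (c z e
 (c z e
 (c z e
 (c z e
 (c (b (nat_lit 0x10287a0d)) e e)))))))
 (c (a (nat_lit 0x101f9000)) e
 (c (a (nat_lit 0x101f9000))
 (c z e
 (c z e
 (c z e
 (c (b (nat_lit 0xffe3c0d)) e e))))
 (c (a (nat_lit 0x101fca01)) e
 (c (a (nat_lit 0x101fc401))
 (c (b (nat_lit 0xfff220f)) e e)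
 (c (a (nat_lit 0x101fd001)) e
 (c (a (nat_lit 0x101f7201)) e
 (c (a (nat_lit 0x100cea03)) e
 (c z e
 (c z e
 (c z e
 (c z e
 (c (a (nat_lit 0x1016d205)) e
 (c (a (nat_lit 0x10091807)) e
 (c (a (nat_lit 0xff93207)) e
 (c (a (nat_lit 0xfecf607)) e
 (c (a (nat_lit 0xffcca07)) e
 (c z e
 (c (a (nat_lit 0xff6840d)) e
 (c (a (nat_lit 0xffe2a0d)) e
 (c z e
 (c z e
 (c z e
 (c (a (nat_lit 0xffb180f)) e e))))))))))))))))))))))))))) Tr.c Tr.e (nat_lit 0) C.t6 C.t7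
noncomputable def tt131 : Tr := beta% (fun (c : Nat → Tr → Tr → Tr) (e : Tr) (z : Nat) (a b : Nat → Nat) =>
 (c (a (nat_lit 0x101f7400))
 (c (b (nat_lit 0xfe2c001)) e
 (c (b (nat_lit 0xfe26e01)) e
 (c (b (nat_lit 0xfe14003)) e
 (c z e
 (c z e
 (c z e
 (c z e
 (c z e
 (c z e
 (c z e
 (c z e
 (c z e
 (c z e
 (c z e
 (c z e
 (c z e
 (c z e
 (c z e
 (c (b (nat_lit 0xffe5c0f)) e e)))))))))))))))))))
 (c (a (nat_lit 0x101f9800))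
 (c (nat_lit 0x7f0f37f0f37f0f37f0f37f0f37f0f07f0f0f9703) e
 (c z e
 (c z e
 (c z e
 (c z e
 (c z e
 (c z e
 (c z e
 (c z e
 (c z e
 (c z e
 (c z e
 (c z e
 (c (b (nat_lit 0xffec80f)) e
 (c z e
 (c z e
 (c (b (nat_lit 0xfff080f)) e e)))))))))))))))))
 (c (a (nat_lit 0x101f8a00))
 (c z e
 (c z e
 (c z e
 (c z e
 (c z e
 (c z e
 (c z e
 (c z e
 (c z e
 (c z e
 (c z e
 (c z e
 (c z e
 (c (b (nat_lit 0xfffcc0f)) e
 (c z e
 (c (b (nat_lit 0xff7d017)) e e))))))))))))))))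
 (c (a (nat_lit 0x101fae00))
 (c z e
 (c z e
 (c z e
 (c z e
 (c z e
 (c z e
 (c z e
 (c z e
 (c z e
 (c z e
 (c z e
 (c z e
 (c (b (nat_lit 0xfff440f)) e
 (c (b (nat_lit 0xffe1217)) e
 (c (b (nat_lit 0xfff9417)) e e)))))))))))))))
 (c (a (nat_lit 0x101f9800)) e
 (c (a (nat_lit 0x101f9600))
 (c z e
 (c z e
 (c z e
 (c z e
 (c z e
 (c z e
 (c z e
 (c z e
 (c z e
 (c z e
 (c (b (nat_lit 0xfffee17)) e e)))))))))))
 (c (a (nat_lit 0x101f9c00)) e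
 (c (a (nat_lit 0x101f8a01)) e
 (c (a (nat_lit 0x101fb601)) e
 (c (a (nat_lit 0x101f3801)) e
 (c (a (nat_lit 0x101f8e01)) e
 (c (a (nat_lit 0x101c8a03)) e
 (c z e
 (c z e
 (c (a (nat_lit 0xfed4203)) e
 (c z e
 (c z e
 (c z e
 (c (a (nat_lit 0x10048a07)) e
 (c z e
 (c z e
 (c (a (nat_lit 0xff1ce0b)) e
 (c z e
 (c (a (nat_lit 0xff7940d)) e e))))))))))))))))))))))))) Tr.c Tr.e (nat_lit 0) C.t6 C.t7
noncomputable def tt132 : Tr := beta% (fun (c : Nat → Tr → Tr → Tr) (e : Tr) (z : Nat) (a b : Nat → Nat) =>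
 (c (a (nat_lit 0x101fce00))
 (c (b (nat_lit 0xfe1b600)) e
 (c (nat_lit 0x7f1167f1147f1147f1147f1147f1147f114b7201) e
 (c (b (nat_lit 0xfe22e01)) e
 (c (b (nat_lit 0xfe2b801)) e
 (c (b (nat_lit 0xfd50601)) e
 (c (b (nat_lit 0xfe0d003)) e
 (c z e
 (c z e
 (c z e
 (c z e
 (c z e
 (c z e
 (c z e
 (c z e
 (c z e
 (c z e
 (c z e
 (c z e
 (c z e
 (c (b (nat_lit 0xfff100f)) e
 (c (b (nat_lit 0x100fe20f)) e
 (c z e
 (c (b (nat_lit 0xffde217)) e e)))))))))))))))))))))))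
 (c (a (nat_lit 0x101f9c00))
 (c (b (nat_lit 0xfe26601)) e
 (c (b (nat_lit 0xfe22a01)) e
 (c (b (nat_lit 0xfe26001)) e
 (c (b (nat_lit 0xfe16a03)) e
 (c z e
 (c z e
 (c z e
 (c z e
 (c z e
 (c (b (nat_lit 0xffe7c07)) e
 (c z e
 (c z e
 (c (b (nat_lit 0x10603807)) e
 (c z e
 (c z e
 (c z e
 (c z e
 (c (b (nat_lit 0x10068c0f)) e
 (c z e
 (c (b (nat_lit 0xfffb20f)) e
 (c (b (nat_lit 0xff90817)) e e)))))))))))))))))))))
 (c (a (nat_lit 0x101f9c00))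
 (c (b (nat_lit 0xfe27c01)) e
 (c (b (nat_lit 0xfe1ea03)) e
 (c z e
 (c z e
 (c z e
 (c z e
 (c z e
 (c (b (nat_lit 0xfffc407)) e
 (c z e
 (c z e
 (c z e
 (c z e
 (c z e
 (c z e
 (c z e
 (c z e
 (c z e
 (c (b (nat_lit 0xfff8c0f)) e e))))))))))))))))))
 (c (a (nat_lit 0x101f7a00))
 (c z e
 (c z e
 (c z e
 (c z e
 (c z e
 (c z e
 (c z e
 (c z e
 (c z e
 (c z e
 (c z e
 (c z e
 (c z e
 (c z e
 (c z e
 (c z e
 (c (b (nat_lit 0xfffa217)) e e)))))))))))))))))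
 (c (a (nat_lit 0x101fb400))
 (c z e
 (c z e
 (c z e
 (c z e
 (c z e
 (c z e
 (c z e
 (c z e
 (c (b (nat_lit 0x103f5e0d)) e e)))))))))
 (c (a (nat_lit 0x101fb800)) e
 (c (a (nat_lit 0x101f7600)) e
 (c (a (nat_lit 0x101fa600)) e
 (c (a (nat_lit 0x101f8200)) e
 (c (a (nat_lit 0x101f4e01)) e
 (c (a (nat_lit 0x101f5601)) e
 (c (a (nat_lit 0x101fa801)) e
 (c (a (nat_lit 0x100f9a01)) e
 (c z e
 (c z e
 (c z e
 (c z e
 (c (a (nat_lit 0x100d3605)) e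
 (c (a (nat_lit 0x10233e05)) e
 (c (a (nat_lit 0x1006de07)) e
 (c (a (nat_lit 0x1000e007)) e
 (c z e
 (c (a (nat_lit 0xffcba07)) e
 (c z e
 (c (nat_lit 0x7ffab7ffab800008000080000800006ac0d) e e)))))))))))))))))))))))))) Tr.c Tr.e (nat_lit 0) C.t6 C.t7
noncomputable def tt133 : Tr := beta% (fun (c : Nat → Tr → Tr → Tr) (e : Tr) (z : Nat) (a b : Nat → Nat) =>
 (c (a (nat_lit 0x101fd400))
 (c (b (nat_lit 0xfe0f600)) e
 (c (b (nat_lit 0xfe1d600)) e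
 (c (b (nat_lit 0xfe23c01)) e
 (c (b (nat_lit 0xfe25201)) e
 (c (b (nat_lit 0xfe1e001)) e
 (c (b (nat_lit 0xfe18c01)) e
 (c (b (nat_lit 0xfc01003)) e
 (c z e
 (c (b (nat_lit 0xff2de03)) e
 (c z e
 (c z e
 (c z e
 (c z e
 (c z e
 (c z e
 (c z e
 (c z e
 (c z e
 (c z e
 (c (b (nat_lit 0xffeae0f)) e
 (c (b (nat_lit 0x100a800f)) e
 (c z e
 (c (nat_lit 0x7fed07ff347ff347ff347ff347ff347ff346cc8f) e
 (c (b (nat_lit 0xfff0e1b)) e e))))))))))))))))))))))))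
 (c (a (nat_lit 0x101f9400))
 (c (b (nat_lit 0xfe24a01)) e
 (c (b (nat_lit 0xfe21c01)) e
 (c (b (nat_lit 0xfe21c01)) e
 (c (b (nat_lit 0xfe20a01)) e
 (c (b (nat_lit 0xf8b3003)) e
 (c z e
 (c z e
 (c (b (nat_lit 0xffd1603)) e
 (c (b (nat_lit 0x100a7e05)) e
 (c z e
 (c z e
 (c z e
 (c (b (nat_lit 0x106aea07)) e
 (c z e
 (c z e
 (c z e
 (c (b (nat_lit 0xfff020d)) e
 (c z e
 (c z e
 (c z e
 (c z e
 (c (b (nat_lit 0xfff801b)) e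
 (c (b (nat_lit 0xff74827)) e e)))))))))))))))))))))))
 (c (a (nat_lit 0x101f9200))
 (c (b (nat_lit 0xfe2b201)) e
 (c (b (nat_lit 0xfe25a01)) e
 (c (b (nat_lit 0xfe0fe03)) e
 (c (nat_lit 0x7f0d97f0d97f0d97f0d97f0d97f0d97f0d216383) e
 (c z e
 (c z e
 (c z e
 (c z e
 (c z e
 (c z e
 (c z e
 (c z e
 (c (b (nat_lit 0x10888e0b)) e
 (c (b (nat_lit 0x105dba0d)) e
 (c (b (nat_lit 0xff35e0d)) e
 (c z e
 (c z e
 (c (b (nat_lit 0x1011480f)) e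
 (c z e
 (c (b (nat_lit 0x10046a1b)) e
 (c (b (nat_lit 0x101b662c)) e e)))))))))))))))))))))
 (c (a (nat_lit 0x101fba00))
 (c (b (nat_lit 0xfe13203)) e
 (c z e
 (c z e
 (c z e
 (c z e
 (c z e
 (c (b (nat_lit 0xfeeb807)) e
 (c z e
 (c z e
 (c z e
 (c (b (nat_lit 0x1053760b)) e
 (c z e
 (c z e
 (c (b (nat_lit 0x1013440f)) e
 (c (b (nat_lit 0xfffa20f)) e
 (c z e
 (c (b (nat_lit 0x100d5a0f)) e e)))))))))))))))))
 (c (a (nat_lit 0x101fb000))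
 (c (b (nat_lit 0xf4e1803)) e
 (c z e
 (c z e
 (c (b (nat_lit 0xfff0005)) e
 (c z e
 (c z e
 (c z e
 (c z e
 (c z e
 (c (b (nat_lit 0x102f8e0d)) e
 (c z e
 (c z e
 (c (nat_lit 0x80bdb80bdb809a280bdb80bdb80bdb80bdb7670f) e
 (c z e
 (c z e
 (c (b (nat_lit 0x10117a1b)) e
 (c (nat_lit 0x800007f9168000080000800008000080000649a9) e e)))))))))))))))))
 (c (a (nat_lit 0x10200a00))
 (c z e
 (c z e
 (c (b (nat_lit 0x10288207)) e
 (c z e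
 (c z e
 (c (b (nat_lit 0x10135e07)) e
 (c z e
 (c z e
 (c z e
 (c z e
 (c z e
 (c (nat_lit 0x80000800007fea57ff358000080000800004078f) e e))))))))))))
 (c (a (nat_lit 0x101ffc00))
 (c z e
 (c z e
 (c z e
 (c z e
 (c z e
 (c (b (nat_lit 0xffd080d)) e e))))))
 (c (a (nat_lit 0x101ffa00))
 (c z e
 (c z e
 (c z e
 (c z e
 (c z e
 (c z e
 (c z e
 (c z e
 (c (b (nat_lit 0xfff2a0f)) e e)))))))))
 (c (a (nat_lit 0x101fe600))
 (c z e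
 (c (b (nat_lit 0xf9a0a0d)) e
 (c (b (nat_lit 0xfe2340d)) e
 (c z e
 (c z e
 (c z e
 (c z e
 (c z e
 (c (b (nat_lit 0xfff1628)) e e)))))))))
 (c (a (nat_lit 0x101f8e00))
 (c z e
 (c (b (nat_lit 0xfefd20f)) e e))
 (c (a (nat_lit 0x101fa801)) e
 (c (a (nat_lit 0x101fbc01)) e
 (c (a (nat_lit 0x10202c01)) e
 (c (a (nat_lit 0x1020c801)) e
 (c (a (nat_lit 0xfea9c03)) e
 (c z e
 (c (a (nat_lit 0x10242603)) e
 (c (a (nat_lit 0x10218603)) e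
 (c (a (nat_lit 0x10158205)) e
 (c (a (nat_lit 0x101c0e05)) e
 (c (a (nat_lit 0x100e1e07)) e
 (c (a (nat_lit 0x10074007)) e
 (c z e
 (c (a (nat_lit 0x101d4007)) e
 (c z e
 (c z e
 (c (nat_lit 0x800007ff5f7ff5f8000080000800008094d) e
 (c (a (nat_lit 0x1001b80f)) e
 (c z e
 (c z e
 (c (a (nat_lit 0xfffd80f)) e e)))))))))))))))))))))))))))))))) Tr.c Tr.e (nat_lit 0) C.t6 C.t7
noncomputable def tt134 : Tr := beta% (fun (c : Nat → Tr → Tr → Tr) (e : Tr) (z : Nat) (a b d : Nat → Nat) =>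
 (c (a (nat_lit 0xfe00000))
 (c (b (nat_lit 0x10201800))
 (c (d (nat_lit 0xf94b800)) e
 (c (d (nat_lit 0xfe07c00)) e
 (c (d (nat_lit 0xfe1c600)) e
 (c (d (nat_lit 0xfe17e00)) e
 (c (d (nat_lit 0xfdf0601)) e
 (c (d (nat_lit 0xfe1be01)) e
 (c (d (nat_lit 0xfe01e01)) e
 (c (d (nat_lit 0xfce4401)) e
 (c (d (nat_lit 0xfbf4003)) e
 (c (d (nat_lit 0xfd6ce03)) e
 (c z e
 (c z e
 (c (d (nat_lit 0xff4f005)) e
 (c (d (nat_lit 0xffe8205)) e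
 (c (d (nat_lit 0xfc2f407)) e
 (c (d (nat_lit 0xf691007)) e
 (c (d (nat_lit 0xf89d007)) e
 (c (d (nat_lit 0xfeda807)) e
 (c (d (nat_lit 0xfed460b)) e
 (c (d (nat_lit 0xfff420d)) e
 (c (d (nat_lit 0xfe62a0d)) e
 (c z e
 (c (d (nat_lit 0xfff860f)) e
 (c z e
 (c (d (nat_lit 0xff7440f)) e
 (c (d (nat_lit 0xfff4e1b)) e e)))))))))))))))))))))))))) tt133)
 (c (a (nat_lit 0xfe00600)) tt132
 (c (a (nat_lit 0xfe01800)) tt131
 (c (a (nat_lit 0xfe01400)) tt130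
 (c (a (nat_lit 0xfe00c00))
 (c (b (nat_lit 0x101fc400)) e
 (c (b (nat_lit 0x101f9200)) e
 (c (b (nat_lit 0x101faa00)) e
 (c (b (nat_lit 0x101fda01)) e
 (c (b (nat_lit 0x101ff001)) e
 (c (b (nat_lit 0x101fd401)) e
 (c (b (nat_lit 0x101f8801)) e
 (c (b (nat_lit 0x1014b803)) e
 (c (b (nat_lit 0x10119e03)) e
 (c z e
 (c z e
 (c z e
 (c z e
 (c (b (nat_lit 0xff62407)) e
 (c (b (nat_lit 0x10052807)) e
 (c z e
 (c z e
 (c z e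
 (c (b (nat_lit 0x100fca0d)) e
 (c z e
 (c (b (nat_lit 0xffca80f)) e
 (c z e
 (c z e
 (c z e
 (c (nat_lit 0x8000080000800007ffc47ffc480000f76d9) e e)))))))))))))))))))))))))
 (c (a (nat_lit 0xfe00a00))
 (c (b (nat_lit 0x101fac00))
 (c z e
 (c z e
 (c z e
 (c z e
 (c z e
 (c (d (nat_lit 0xffd860d)) e
 (c z e
 (c z e
 (c (nat_lit 0x80000800007fc598000080000800008000030b0f) e e)))))))))
 (c (b (nat_lit 0x101fea01)) e
 (c (b (nat_lit 0x101ff001)) e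
 (c (b (nat_lit 0x101ff001)) e
 (c (b (nat_lit 0x10201601)) e
 (c z e
 (c (b (nat_lit 0x100b3003)) e
 (c (b (nat_lit 0x10198203)) e
 (c z e
 (c z e
 (c z e
 (c z e
 (c (b (nat_lit 0xff6ec07)) e
 (c z e
 (c z e
 (c (b (nat_lit 0xffb8c0b)) e
 (c (b (nat_lit 0x100cf60d)) e
 (c z e
 (c z e
 (c z e
 (c z e
 (c (b (nat_lit 0xfd8ce0f)) e e)))))))))))))))))))))) tt129))))))) Tr.c Tr.e (nat_lit 0) C.t5 C.t6 C.t7
noncomputable def tt135 : Tr := beta% (fun (c : Nat → Tr → Tr → Tr) (e : Tr) (z : Nat) (a b : Nat → Nat) =>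
 (c (a (nat_lit 0xfe02600))
 (c (b (nat_lit 0x1012b801)) e
 (c (b (nat_lit 0x101fcc01)) e
 (c (b (nat_lit 0x101f9201)) e
 (c z e
 (c z e
 (c (b (nat_lit 0x10107203)) e
 (c (b (nat_lit 0x1017a603)) e
 (c z e
 (c z e
 (c z e
 (c z e
 (c z e
 (c (b (nat_lit 0x10099407)) e
 (c z e
 (c z e
 (c z e
 (c (b (nat_lit 0xfe9f60f)) e
 (c z e
 (c z e
 (c z e
 (c (b (nat_lit 0x102ab013)) e
 (c z e
 (c (b (nat_lit 0xfffb615)) e e)))))))))))))))))))))))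
 (c (a (nat_lit 0xfe02e00))
 (c (b (nat_lit 0x100a1a01)) e
 (c (b (nat_lit 0x101f7a01)) e
 (c z e
 (c z e
 (c (b (nat_lit 0x100c9603)) e
 (c (b (nat_lit 0x10172e03)) e
 (c z e
 (c z e
 (c z e
 (c z e
 (c z e
 (c z e
 (c z e
 (c (b (nat_lit 0x101a6c0d)) e e))))))))))))))
 (c (nat_lit 0x7f0247f0247f0237f0237f02493280)
 (c z e
 (c z e
 (c z e
 (c z e
 (c (b (nat_lit 0x102d0005)) e
 (c z e
 (c z e
 (c z e
 (c z e
 (c z e
 (c (b (nat_lit 0x1012a00d)) e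
 (c (b (nat_lit 0x1021600d)) e e))))))))))))
 (c (a (nat_lit 0xfe02200))
 (c (b (nat_lit 0x10135603)) e
 (c (b (nat_lit 0x1036be03)) e
 (c (b (nat_lit 0x1028ce05)) e
 (c z e
 (c z e
 (c z e
 (c z e
 (c z e
 (c (b (nat_lit 0xff9540d)) e
 (c (b (nat_lit 0xffc320d)) e
 (c (b (nat_lit 0xff1c40f)) e
 (c (b (nat_lit 0xffe700f)) e
 (c z e
 (c (b (nat_lit 0xfff920f)) e
 (c (b (nat_lit 0x10054614)) e e)))))))))))))))
 (c (a (nat_lit 0xfe04200))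
 (c (b (nat_lit 0x1015e605)) e
 (c z e
 (c z e
 (c z e
 (c z e
 (c z e
 (c z e
 (c z e
 (c (b (nat_lit 0xffb100f)) e
 (c (b (nat_lit 0xffc860f)) e
 (c z e
 (c (b (nat_lit 0xfffce0f)) e
 (c (b (nat_lit 0x10027611)) e e)))))))))))))
 (c (nat_lit 0x7f0387f0387f0357f0357f036e3ae0)
 (c z e
 (c z e
 (c z e
 (c z e
 (c z e
 (c z e
 (c z e
 (c (b (nat_lit 0xff1ea0f)) e
 (c z e
 (c (b (nat_lit 0xfd5d40f)) e
 (c (b (nat_lit 0x1003c011)) e e)))))))))))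
 (c (nat_lit 0x7f01d7f01a7f0197f0197f01ac4360)
 (c z e
 (c z e
 (c z e
 (c z e
 (c z e
 (c z e
 (c z e
 (c (b (nat_lit 0xfe02e0f)) e
 (c z e
 (c (b (nat_lit 0x10156011)) e
 (c (nat_lit 0x80dd980dd980dd980dd980dc080dd93e391) e
 (c (nat_lit 0x80000800008000080000800007ffdf60391) e e))))))))))))
 (c (nat_lit 0x7f01e7f01e7f01d7f01d7f01e662a0)
 (c z e
 (c z e
 (c z e
 (c z e
 (c z e
 (c z e
 (c (nat_lit 0x800008000080000800007ff19800007b490) e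
 (c z e
 (c z e
 (c (nat_lit 0x80000800008000080000800007ff9a83ad0) e e))))))))))
 (c (nat_lit 0x7f01f7f01f7f01e7f01e7f01feb980)
 (c (b (nat_lit 0x102ed80f)) e
 (c z e
 (c z e
 (c z e
 (c (b (nat_lit 0x102f2c10)) e
 (c (nat_lit 0x8000080000814e9814f0814f0814f0d8950) e e))))))
 (c (a (nat_lit 0xfe03000))
 (c z e
 (c z e
 (c (b (nat_lit 0x10a2d210)) e
 (c (b (nat_lit 0x101f0a10)) e
 (c (nat_lit 0x80000800007fa617fa5e7fa617fa61f65d0) e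
 (c (nat_lit 0x80000800008000080f0480f0480f0427e50) e
 (c (nat_lit 0x8000080000800008000080f8680f861b410) e e)))))))
 (c (nat_lit 0x7f0227f0207f01f7f01f7f02060a80)
 (c (b (nat_lit 0x11000a10)) e
 (c (b (nat_lit 0x10245610)) e
 (c (b (nat_lit 0x1001a610)) e
 (c (nat_lit 0x800008000080f6c80f6c80f6b80f6c25450) e
 (c (nat_lit 0x80000800008000080f8d80f8d80f8cee450) e
 (c (nat_lit 0x8000080000800008000080e8480e84eb2d0) e e))))))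
 (c (a (nat_lit 0xfdff800)) e
 (c (a (nat_lit 0xfe01e00)) e
 (c (a (nat_lit 0xfe00a01)) e
 (c (a (nat_lit 0xfe00201)) e
 (c (nat_lit 0x7f02e7f02e7f02e7f0177f01a710a1) e
 (c (a (nat_lit 0xfe93201)) e
 (c (a (nat_lit 0xfe6a603)) e
 (c (a (nat_lit 0xfda9c03)) e
 (c (a (nat_lit 0xfeca803)) e
 (c (a (nat_lit 0xfea8403)) e
 (c (a (nat_lit 0xffae605)) e
 (c (a (nat_lit 0xff5ea05)) e
 (c (a (nat_lit 0xffe5a07)) e
 (c z e
 (c (a (nat_lit 0x1003b407)) e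
 (c z e
 (c (a (nat_lit 0xff9b40d)) e
 (c z e
 (c (nat_lit 0x7ffd97ffd98000080000800003424f) e
 (c (nat_lit 0x7ffea7ffea80000800008000097d6f) e
 (c (nat_lit 0x7ffac800168001680016800164c34f) e
 (c (nat_lit 0x7f8997f8997f9457f9457f945b5d2f) e e)))))))))))))))))))))))))))))))))) Tr.c Tr.e (nat_lit 0) C.t5 C.t6
noncomputable def tt136 : Tr := beta% (fun (c : Nat → Tr → Tr → Tr) (e : Tr) (z : Nat) (a b : Nat → Nat) =>
 (c (a (nat_lit 0x101f2400))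
 (c (b (nat_lit 0xf7de403)) e
 (c z e
 (c z e
 (c z e
 (c z e
 (c z e
 (c z e
 (c z e
 (c z e
 (c z e
 (c (b (nat_lit 0x103cd00f)) e
 (c (b (nat_lit 0xffe1c0f)) e e))))))))))))
 (c (a (nat_lit 0x101f1a00))
 (c z e
 (c z e
 (c z e
 (c z e
 (c z e
 (c z e
 (c z e
 (c z e
 (c z e
 (c z e
 (c z e
 (c z e
 (c (b (nat_lit 0xfd2e21c)) e e)))))))))))))
 (c (a (nat_lit 0x101f6800))
 (c z e
 (c z e
 (c z e
 (c z e
 (c (b (nat_lit 0xffd1a0d)) e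
 (c z e
 (c z e
 (c z e
 (c z e
 (c z e
 (c z e
 (c (b (nat_lit 0x1020ac1c)) e e))))))))))))
 (c (a (nat_lit 0x101f3a00)) e
 (c (a (nat_lit 0x101f5a01))
 (c z e
 (c z e
 (c z e
 (c z e
 (c z e
 (c (b (nat_lit 0xfd08415)) e e))))))
 (c (a (nat_lit 0x101f6001))
 (c (nat_lit 0x7f2507f2507f2507f1737f2507f2507f250b230f) e e)
 (c (a (nat_lit 0x101f2001)) e
 (c (a (nat_lit 0x100fbe01)) e
 (c (a (nat_lit 0x100c1403)) e
 (c z e
 (c z e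
 (c z e
 (c z e
 (c z e
 (c z e
 (c z e
 (c z e
 (c z e
 (c z e
 (c (a (nat_lit 0x1001ee0d)) e
 (c (nat_lit 0x8018f8018f800208018f8018f8018f9a2cf) e
 (c (nat_lit 0x8000080000800007ffc0800008000047ccf) e
 (c z e
 (c (a (nat_lit 0xfff860f)) e
 (c (nat_lit 0x800007ff2e800008000080000800000c2d5) e
 (c (nat_lit 0x80000800007ff50800008000080000c6b5c) e
 (c (nat_lit 0x8000080000800007ff507ff508000086c1c) e e)))))))))))))))))))))))))))) Tr.c Tr.e (nat_lit 0) C.t6 C.t7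
noncomputable def tt137 : Tr := beta% (fun (c : Nat → Tr → Tr → Tr) (e : Tr) (z : Nat) (a b : Nat → Nat) =>
 (c (a (nat_lit 0x101f4e00))
 (c (b (nat_lit 0xfe50c03)) e
 (c z e
 (c z e
 (c z e
 (c z e
 (c z e
 (c (b (nat_lit 0xffef607)) e
 (c z e
 (c (b (nat_lit 0xffeee07)) e
 (c z e
 (c z e
 (c z e
 (c z e
 (c z e
 (c z e
 (c (b (nat_lit 0x101ba40f)) e e))))))))))))))))
 (c (a (nat_lit 0x101f2800))
 (c z e
 (c z e
 (c z e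
 (c z e
 (c (b (nat_lit 0xf8a0207)) e
 (c (b (nat_lit 0xffe2807)) e
 (c (b (nat_lit 0xffed007)) e
 (c z e
 (c (b (nat_lit 0xffc9e0d)) e
 (c z e
 (c z e
 (c z e
 (c z e
 (c z e
 (c (b (nat_lit 0x10194e1c)) e e)))))))))))))))
 (c (a (nat_lit 0x101f3200))
 (c z e
 (c z e
 (c z e
 (c z e
 (c z e
 (c (b (nat_lit 0xfff4407)) e
 (c z e
 (c (b (nat_lit 0xffed20d)) e e))))))))
 (c (a (nat_lit 0x101f6a00)) e
 (c (a (nat_lit 0x101f5800)) e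
 (c (a (nat_lit 0x101ef600)) e
 (c (a (nat_lit 0x101f8c01)) e
 (c (a (nat_lit 0x101f9e01)) e
 (c (a (nat_lit 0x101ed601)) e
 (c (a (nat_lit 0x100d8c01)) e
 (c z e
 (c z e
 (c z e
 (c (a (nat_lit 0xfedc603)) e
 (c (a (nat_lit 0x100d6e05)) e
 (c (a (nat_lit 0xfe41005)) e
 (c (a (nat_lit 0xff78407)) e
 (c (a (nat_lit 0xfe48e07)) e
 (c z e
 (c z e
 (c z e
 (c (a (nat_lit 0x10097c0d)) e e))))))))))))))))))))))) Tr.c Tr.e (nat_lit 0) C.t6 C.t7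
noncomputable def tt138 : Tr := beta% (fun (c : Nat → Tr → Tr → Tr) (e : Tr) (z : Nat) (a b : Nat → Nat) =>
 (c (a (nat_lit 0x101eec00))
 (c (b (nat_lit 0xfe1d001)) e
 (c (b (nat_lit 0xfe35a01)) e
 (c (b (nat_lit 0xfe33e01)) e
 (c (nat_lit 0x7f16a7f16a7f16a7f16a7f16a7f14f7f15042983) e
 (c (b (nat_lit 0xf98a403)) e
 (c (b (nat_lit 0xff8ca03)) e
 (c z e
 (c z e
 (c z e
 (c (b (nat_lit 0xfee4807)) e
 (c (b (nat_lit 0xffeb407)) e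
 (c z e
 (c z e
 (c z e
 (c z e
 (c (b (nat_lit 0x101bde0f)) e
 (c z e
 (c (nat_lit 0x7fc8a800008000080000800008000080000f428f) e
 (c z e
 (c (nat_lit 0x7fe8b7fcd37fe8b7fe8b7fe8b7fe8b7fe8bc3517) e
 (c z e
 (c (nat_lit 0x800007ff34800007fe6880000800008000032d17) e
 (c z e
 (c (nat_lit 0x80000800008000080000800007fe56800004a11d) e e))))))))))))))))))))))))
 (c (a (nat_lit 0x101f0c00))
 (c (b (nat_lit 0xfe2dc01)) e
 (c (nat_lit 0x7f1607f1607f1607f1607f1607f15d7f15f3df03) e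
 (c (b (nat_lit 0xfed3a03)) e
 (c z e
 (c z e
 (c z e
 (c z e
 (c z e
 (c z e
 (c z e
 (c z e
 (c z e
 (c z e
 (c z e
 (c z e
 (c (b (nat_lit 0x1017ce0f)) e
 (c z e
 (c z e
 (c (b (nat_lit 0xffe1017)) e
 (c (b (nat_lit 0xfff5017)) e e))))))))))))))))))))
 (c (a (nat_lit 0x101efe00))
 (c z e
 (c z e
 (c z e
 (c z e
 (c z e
 (c z e
 (c z e
 (c z e
 (c z e
 (c z e
 (c (b (nat_lit 0x1055b00d)) e
 (c z e
 (c z e
 (c z e
 (c z e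
 (c z e
 (c (b (nat_lit 0xfff7417)) e
 (c (b (nat_lit 0xfff1a17)) e e))))))))))))))))))
 (c (a (nat_lit 0x101f3600))
 (c z e
 (c z e
 (c z e
 (c z e
 (c z e
 (c z e
 (c z e
 (c z e
 (c (b (nat_lit 0xffe2a0d)) e
 (c z e
 (c z e
 (c z e
 (c z e
 (c (b (nat_lit 0xfff2617)) e e))))))))))))))
 (c (a (nat_lit 0x101f3000)) e
 (c (a (nat_lit 0x101f3400))
 (c z e
 (c z e
 (c z e
 (c z e
 (c (b (nat_lit 0xffd620d)) e
 (c z e
 (c z e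
 (c z e
 (c z e
 (c z e
 (c z e
 (c (b (nat_lit 0xffe6017)) e e))))))))))))
 (c (a (nat_lit 0x101efc00)) e
 (c (a (nat_lit 0x101f0a00)) e
 (c (a (nat_lit 0x101f7801)) e
 (c (a (nat_lit 0x101e7e01)) e
 (c (a (nat_lit 0x101f1201)) e
 (c (a (nat_lit 0x100b9001)) e
 (c z e
 (c z e
 (c z e
 (c z e
 (c z e
 (c z e
 (c z e
 (c z e
 (c z e
 (c (a (nat_lit 0xffcec07)) e e))))))))))))))))))))))) Tr.c Tr.e (nat_lit 0) C.t6 C.t7
noncomputable def tt139 : Tr := beta% (fun (c : Nat → Tr → Tr → Tr) (e : Tr) (z : Nat) (a b : Nat → Nat) =>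
 (c (a (nat_lit 0x101f8000))
 (c (b (nat_lit 0xfe46a00)) e
 (c (b (nat_lit 0xfe23e00)) e
 (c (b (nat_lit 0xfe28801)) e
 (c (b (nat_lit 0xfe2b401)) e
 (c (b (nat_lit 0xfe29c01)) e
 (c (b (nat_lit 0xfe25201)) e
 (c (b (nat_lit 0xfb81603)) e
 (c (b (nat_lit 0xf689c03)) e
 (c z e
 (c z e
 (c z e
 (c z e
 (c z e
 (c z e
 (c (b (nat_lit 0x10507007)) e
 (c z e
 (c z e
 (c z e
 (c z e
 (c z e
 (c z e
 (c (nat_lit 0x800007fdc68000080000800008000080000f138f) e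
 (c (b (nat_lit 0xffe3617)) e
 (c (nat_lit 0x800007fc1d80000800008000080000800009e917) e e))))))))))))))))))))))))
 (c (a (nat_lit 0x101f3000))
 (c (b (nat_lit 0xfe2a601)) e
 (c (b (nat_lit 0xfe22c01)) e
 (c (b (nat_lit 0xfe2cc01)) e
 (c (b (nat_lit 0xfe29c01)) e
 (c (b (nat_lit 0xfe23c03)) e
 (c z e
 (c (b (nat_lit 0xfe80c03)) e
 (c z e
 (c (b (nat_lit 0xff0b205)) e
 (c (b (nat_lit 0xfe88605)) e
 (c z e
 (c (b (nat_lit 0x10291807)) e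
 (c (b (nat_lit 0x1067c807)) e
 (c z e
 (c z e
 (c z e
 (c z e
 (c (b (nat_lit 0x1004e00f)) e
 (c (nat_lit 0x7ff54800008000080000800008000080000f848f) e
 (c (b (nat_lit 0xfffe00f)) e
 (c (nat_lit 0x80000800007fc778000080000800008000031597) e
 (c (nat_lit 0x7ffc07ffc07ffc07ff997ffc07ffc07ffc053597) e
 (c (b (nat_lit 0xffdd627)) e e)))))))))))))))))))))))
 (c (a (nat_lit 0x101f5000))
 (c (b (nat_lit 0xfe2b801)) e
 (c (b (nat_lit 0xfe2f001)) e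
 (c (b (nat_lit 0xfe22a03)) e
 (c z e
 (c z e
 (c z e
 (c z e
 (c z e
 (c z e
 (c z e
 (c z e
 (c (b (nat_lit 0x1054fc07)) e
 (c z e
 (c z e
 (c z e
 (c z e
 (c z e
 (c z e
 (c z e
 (c (b (nat_lit 0xffe7817)) e e))))))))))))))))))))
 (c (a (nat_lit 0x101f3c00))
 (c (b (nat_lit 0xfe23803)) e
 (c z e
 (c z e
 (c z e
 (c z e
 (c z e
 (c z e
 (c z e
 (c z e
 (c z e
 (c (b (nat_lit 0x101fd00d)) e e)))))))))))
 (c (a (nat_lit 0x101f5200))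
 (c z e
 (c z e
 (c z e
 (c z e
 (c z e
 (c z e
 (c z e
 (c z e
 (c z e
 (c z e
 (c z e
 (c z e
 (c z e
 (c (b (nat_lit 0xfff220f)) e e))))))))))))))
 (c (a (nat_lit 0x101f7e00))
 (c z e
 (c z e
 (c z e
 (c z e
 (c z e
 (c z e
 (c z e
 (c z e
 (c z e
 (c z e
 (c z e
 (c z e
 (c (b (nat_lit 0xfffbc17)) e e)))))))))))))
 (c (a (nat_lit 0x101f5c00))
 (c z e
 (c z e
 (c z e
 (c z e
 (c z e
 (c z e
 (c z e
 (c z e
 (c z e
 (c z e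
 (c z e
 (c (b (nat_lit 0xfff9817)) e e))))))))))))
 (c (a (nat_lit 0x101f2400)) e
 (c (a (nat_lit 0x101f6400)) e
 (c (a (nat_lit 0x101f5200)) e
 (c (a (nat_lit 0x101f1201)) e
 (c (a (nat_lit 0x101f8001)) e
 (c (a (nat_lit 0x101fbe01)) e
 (c z e
 (c z e
 (c z e
 (c (a (nat_lit 0x101c8a03)) e
 (c (a (nat_lit 0x1012b003)) e
 (c (a (nat_lit 0x10155a05)) e
 (c (a (nat_lit 0x100bd005)) e
 (c (a (nat_lit 0xff6e007)) e
 (c (a (nat_lit 0xfee1607)) e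
 (c (a (nat_lit 0xffd2e07)) e
 (c (a (nat_lit 0xfffda07)) e e))))))))))))))))))))))))) Tr.c Tr.e (nat_lit 0) C.t6 C.t7
noncomputable def tt140 : Tr := beta% (fun (c : Nat → Tr → Tr → Tr) (e : Tr) (z : Nat) (a b : Nat → Nat) =>
 (c (a (nat_lit 0x101f6400))
 (c (b (nat_lit 0xfe19000)) e
 (c (b (nat_lit 0xfe28c00)) e
 (c (b (nat_lit 0xfe20800)) e
 (c (b (nat_lit 0xfe2d801)) e
 (c (b (nat_lit 0xfe27001)) e
 (c (b (nat_lit 0xfe23e01)) e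
 (c (b (nat_lit 0xfe28601)) e
 (c (b (nat_lit 0xfd0cc03)) e
 (c (b (nat_lit 0xfe93e03)) e
 (c (b (nat_lit 0xff89a03)) e
 (c z e
 (c z e
 (c z e
 (c (b (nat_lit 0xfffa207)) e
 (c z e
 (c (b (nat_lit 0xfff7c07)) e
 (c z e
 (c z e
 (c (b (nat_lit 0xfec660d)) e
 (c z e
 (c (b (nat_lit 0x1009a40f)) e
 (c z e
 (c z e
 (c z e
 (c (b (nat_lit 0xfff9a1d)) e e)))))))))))))))))))))))))
 (c (a (nat_lit 0x101ee000))
 (c (b (nat_lit 0xfe34400)) e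
 (c (b (nat_lit 0xfe24001)) e
 (c (b (nat_lit 0xfe30601)) e
 (c (b (nat_lit 0xfe2ea01)) e
 (c (b (nat_lit 0xfe2e001)) e
 (c (b (nat_lit 0xfde4803)) e
 (c (b (nat_lit 0xfda9603)) e
 (c (b (nat_lit 0xfea8603)) e
 (c z e
 (c z e
 (c z e
 (c z e
 (c z e
 (c z e
 (c z e
 (c (b (nat_lit 0x100d7a0d)) e
 (c z e
 (c z e
 (c z e
 (c z e
 (c z e
 (c z e
 (c (b (nat_lit 0xff5701d)) e
 (c (b (nat_lit 0xffe5e1d)) e e))))))))))))))))))))))))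
 (c (a (nat_lit 0x101f2000))
 (c (b (nat_lit 0xfe31601)) e
 (c (b (nat_lit 0xfe32201)) e
 (c (b (nat_lit 0xfe2e201)) e
 (c (nat_lit 0x7f11d7f11d7f11d7f11d7f11d7f1187f11baae83) e
 (c (b (nat_lit 0xfe2ce03)) e
 (c z e
 (c z e
 (c z e
 (c z e
 (c z e
 (c z e
 (c z e
 (c z e
 (c z e
 (c z e
 (c (b (nat_lit 0x100eba0f)) e
 (c z e
 (c (b (nat_lit 0x100a3a0f)) e
 (c (b (nat_lit 0xff5c40f)) e
 (c z e
 (c (b (nat_lit 0xfffae1d)) e e)))))))))))))))))))))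
 (c (a (nat_lit 0x101f0a00))
 (c (b (nat_lit 0xfe2c601)) e
 (c (b (nat_lit 0xfcbb003)) e
 (c z e
 (c z e
 (c z e
 (c z e
 (c z e
 (c z e
 (c z e
 (c (b (nat_lit 0x102c2007)) e
 (c (b (nat_lit 0x1047d007)) e
 (c z e
 (c z e
 (c z e
 (c z e
 (c z e
 (c z e
 (c z e
 (c (b (nat_lit 0xfff0e1d)) e e)))))))))))))))))))
 (c (a (nat_lit 0x101f3a00))
 (c (b (nat_lit 0xfecd203)) e
 (c z e
 (c z e
 (c z e
 (c z e
 (c (b (nat_lit 0x101efa07)) e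
 (c z e
 (c z e
 (c z e
 (c (b (nat_lit 0x1030820d)) e
 (c z e
 (c z e
 (c z e
 (c z e
 (c (nat_lit 0x7ffbe800008000080000800008000080000c810f) e
 (c (nat_lit 0x7ff9d7fb7f8000080000800008000080000f0797) e
 (c (b (nat_lit 0xffe881d)) e
 (c (nat_lit 0x8000080000800007ffd28000080000800003189d) e e))))))))))))))))))
 (c (a (nat_lit 0x101f8200))
 (c z e
 (c z e
 (c z e
 (c z e
 (c z e
 (c z e
 (c z e
 (c (b (nat_lit 0x1021e80d)) e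
 (c z e
 (c z e
 (c z e
 (c z e
 (c (b (nat_lit 0xffe1a0f)) e
 (c z e
 (c (b (nat_lit 0xffff81d)) e e)))))))))))))))
 (c (a (nat_lit 0x101f4a00))
 (c z e
 (c z e
 (c z e
 (c z e
 (c z e
 (c (b (nat_lit 0xfff1c0d)) e
 (c (b (nat_lit 0x1032460d)) e
 (c z e
 (c z e
 (c z e
 (c (b (nat_lit 0xff7160f)) e
 (c z e
 (c z e
 (c (b (nat_lit 0x1016bc1d)) e e))))))))))))))
 (c (a (nat_lit 0x101ee800)) e
 (c (a (nat_lit 0x101f7400))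
 (c z e
 (c (b (nat_lit 0xf616e0d)) e
 (c (b (nat_lit 0xfced40d)) e
 (c (b (nat_lit 0x1041dc0f)) e e))))
 (c (a (nat_lit 0x101f4200)) e
 (c (a (nat_lit 0x101e3400)) e
 (c (a (nat_lit 0x101f3801)) e
 (c (a (nat_lit 0x101f6001)) e
 (c (a (nat_lit 0x101fa001)) e
 (c z e
 (c (a (nat_lit 0xfeece03)) e
 (c (a (nat_lit 0x10156003)) e
 (c (a (nat_lit 0x10245e03)) e
 (c (a (nat_lit 0x10225403)) e
 (c (a (nat_lit 0x1004fa05)) e
 (c (a (nat_lit 0x101a4a05)) e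
 (c (a (nat_lit 0x100cc807)) e
 (c (a (nat_lit 0x100acc07)) e
 (c (a (nat_lit 0x10391807)) e
 (c z e
 (c z e
 (c z e
 (c z e
 (c (nat_lit 0x8000080000800007ff657ff6580000d670f) e e)))))))))))))))))))))))))))))) Tr.c Tr.e (nat_lit 0) C.t6 C.t7
noncomputable def tt141 : Tr := beta% (fun (c : Nat → Tr → Tr → Tr) (e : Tr) (z : Nat) (a b : Nat → Nat) =>
 (c (a (nat_lit 0x101e6800))
 (c (b (nat_lit 0xfe43e00)) e
 (c (b (nat_lit 0xfe3a600)) e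
 (c (b (nat_lit 0xfe45001)) e
 (c (b (nat_lit 0xfe3da01)) e
 (c (b (nat_lit 0xfe3a601)) e
 (c (b (nat_lit 0xfcf6001)) e
 (c (b (nat_lit 0xfde6c03)) e
 (c (b (nat_lit 0xfe58003)) e
 (c z e
 (c z e
 (c (b (nat_lit 0xfe73405)) e
 (c (b (nat_lit 0xfffbc05)) e
 (c z e
 (c (b (nat_lit 0x10245a07)) e
 (c z e
 (c (b (nat_lit 0x1007d607)) e
 (c z e
 (c (b (nat_lit 0x100e440d)) e
 (c z e
 (c (b (nat_lit 0xffd2c0f)) e
 (c (b (nat_lit 0xfff060f)) e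
 (c (nat_lit 0x7ff617ffdd80000800008000080000800002228f) e
 (c (nat_lit 0x7fa247f9067f9827fa247fa247fa247fa2456f1d) e e)))))))))))))))))))))))
 (c (a (nat_lit 0x101f1000))
 (c (b (nat_lit 0xfe32a01)) e
 (c (b (nat_lit 0xfe3a601)) e
 (c (b (nat_lit 0xfe3c401)) e
 (c (b (nat_lit 0xfe2a801)) e
 (c (b (nat_lit 0xfcc7e03)) e
 (c (b (nat_lit 0xfb93c03)) e
 (c (b (nat_lit 0xff76e03)) e
 (c z e
 (c z e
 (c z e
 (c z e
 (c (b (nat_lit 0xfe47007)) e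
 (c (b (nat_lit 0x10326807)) e
 (c (b (nat_lit 0x10509c07)) e
 (c z e
 (c (b (nat_lit 0x1025580d)) e
 (c z e
 (c (b (nat_lit 0x1007320f)) e
 (c z e
 (c (b (nat_lit 0xfff980f)) e
 (c z e
 (c (nat_lit 0x7fc0280000800008000080000800008000090e9d) e e))))))))))))))))))))))
 (c (a (nat_lit 0x101eac00))
 (c (b (nat_lit 0xfe48e01)) e
 (c (b (nat_lit 0xfe3f801)) e
 (c (nat_lit 0x7f1647f1647f1647f1647f1647f1627f164d7383) e
 (c (b (nat_lit 0xfff9003)) e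
 (c z e
 (c (b (nat_lit 0xffef203)) e
 (c z e
 (c z e
 (c z e
 (c (b (nat_lit 0x10124007)) e
 (c (nat_lit 0x80000800007fe6a800008000080000800005fd07) e
 (c z e
 (c z e
 (c z e
 (c z e
 (c z e
 (c (b (nat_lit 0xffeac0f)) e
 (c z e
 (c z e
 (c (nat_lit 0x800007fcdf7ff9a800008000080000800009849d) e
 (c (nat_lit 0x80000800007fe0b80000800008000080000fe02c) e e)))))))))))))))))))))
 (c (a (nat_lit 0x101eae00))
 (c (b (nat_lit 0xfd60603)) e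
 (c (b (nat_lit 0xfdd9403)) e
 (c z e
 (c (b (nat_lit 0xfd36203)) e
 (c z e
 (c z e
 (c z e
 (c z e
 (c z e
 (c z e
 (c z e
 (c (b (nat_lit 0x10119a0d)) e
 (c (nat_lit 0x8075080750806c5807508075080750807509658f) e
 (c z e
 (c (nat_lit 0x800008000080000800007fe2180000800001e00f) e
 (c z e
 (c z e
 (c (b (nat_lit 0xff8741d)) e e))))))))))))))))))
 (c (a (nat_lit 0x101f4200))
 (c z e
 (c z e
 (c z e
 (c z e
 (c z e
 (c z e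
 (c z e
 (c z e
 (c z e
 (c z e
 (c z e
 (c (b (nat_lit 0xff6760f)) e e))))))))))))
 (c (a (nat_lit 0x101f6400))
 (c z e
 (c (b (nat_lit 0xfd86605)) e e))
 (c (a (nat_lit 0x101ed000))
 (c z e
 (c z e
 (c (b (nat_lit 0x100c8207)) e
 (c z e
 (c z e
 (c z e
 (c z e
 (c (b (nat_lit 0xfffbc0f)) e
 (c z e
 (c z e
 (c z e
 (c (b (nat_lit 0xfbc681d)) e
 (c (b (nat_lit 0xfd46223)) e e)))))))))))))
 (c (a (nat_lit 0x101f6a00))
 (c (b (nat_lit 0xfe5ae07)) e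
 (c (b (nat_lit 0xfaff607)) e
 (c (b (nat_lit 0xfcb3e0d)) e
 (c z e
 (c (b (nat_lit 0xffe160f)) e
 (c z e
 (c z e
 (c z e
 (c (b (nat_lit 0xfff441d)) e
 (c (b (nat_lit 0xffce01d)) e e))))))))))
 (c (a (nat_lit 0x101f7400))
 (c (b (nat_lit 0xfffba0d)) e
 (c z e
 (c z e
 (c (b (nat_lit 0xffe2e0f)) e
 (c z e
 (c z e
 (c z e
 (c z e
 (c (b (nat_lit 0xffef624)) e e)))))))))
 (c (a (nat_lit 0x101e0000))
 (c (b (nat_lit 0xfd7d60f)) e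
 (c (b (nat_lit 0xff0880f)) e e))
 (c (a (nat_lit 0x101f7a00)) e
 (c (a (nat_lit 0x101f1001)) e
 (c (a (nat_lit 0x101f2601)) e
 (c z e
 (c z e
 (c (a (nat_lit 0x1026da03)) e
 (c (a (nat_lit 0x101d8803)) e
 (c (a (nat_lit 0x101abc03)) e
 (c (a (nat_lit 0x10217403)) e
 (c (a (nat_lit 0x10172a05)) e
 (c (a (nat_lit 0x100b2e05)) e
 (c (a (nat_lit 0x100f3407)) e
 (c (a (nat_lit 0x10168807)) e
 (c z e
 (c z e
 (c z e
 (c (a (nat_lit 0x1003d20d)) e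
 (c z e
 (c (nat_lit 0x7fadc7fadc7faa77fadc7fadc7fadcd2a8f) e
 (c z e
 (c (nat_lit 0x800007ff1a7ff1a800008000080000c59cf) e
 (c (a (nat_lit 0xfff7a1d)) e e))))))))))))))))))))))))))))))))) Tr.c Tr.e (nat_lit 0) C.t6 C.t7
noncomputable def tt142 : Tr := beta% (fun (c : Nat → Tr → Tr → Tr) (e : Tr) (z : Nat) (a b : Nat → Nat) =>
 (c (a (nat_lit 0x10217600))
 (c (b (nat_lit 0xfa81000)) e
 (c (b (nat_lit 0xfdf3a00)) e
 (c (b (nat_lit 0xfe2b400)) e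
 (c (b (nat_lit 0xfdba200)) e
 (c (b (nat_lit 0xfdfd600)) e
 (c (b (nat_lit 0xfb5a000)) e
 (c (b (nat_lit 0xfda2a00)) e
 (c (b (nat_lit 0xfe05600)) e
 (c (b (nat_lit 0xfde2e01)) e
 (c (b (nat_lit 0xfdb4401)) e
 (c (b (nat_lit 0xfdf7e01)) e
 (c (b (nat_lit 0xfb68401)) e
 (c (b (nat_lit 0xfeb1203)) e
 (c (b (nat_lit 0xfc7e003)) e
 (c (b (nat_lit 0xfc63403)) e
 (c (b (nat_lit 0xfda3003)) e
 (c (b (nat_lit 0xf682805)) e
 (c (b (nat_lit 0xf7b1e05)) e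
 (c (nat_lit 0x7e4a97e4a97e22c7e4a97e4a97e4a97e4a98e807) e
 (c (b (nat_lit 0xff2ec07)) e
 (c (b (nat_lit 0xff6b207)) e
 (c (b (nat_lit 0xfe55207)) e
 (c (b (nat_lit 0xff8a20d)) e
 (c z e
 (c (b (nat_lit 0xffffc0f)) e
 (c z e
 (c (b (nat_lit 0xfff380f)) e e)))))))))))))))))))))))))))
 (c (a (nat_lit 0x101ed400))
 (c (b (nat_lit 0xfe21600)) e
 (c (b (nat_lit 0xfe32c00)) e
 (c (b (nat_lit 0xfe42600)) e
 (c (b (nat_lit 0xfe2d200)) e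
 (c (b (nat_lit 0xfe38000)) e
 (c (b (nat_lit 0xfe2d600)) e
 (c (b (nat_lit 0xfe26201)) e
 (c (b (nat_lit 0xfe2fa01)) e
 (c (b (nat_lit 0xfe44401)) e
 (c (b (nat_lit 0xfe2aa01)) e
 (c (b (nat_lit 0xfca7403)) e
 (c (b (nat_lit 0xfc8d603)) e
 (c (b (nat_lit 0xfb7ce03)) e
 (c (b (nat_lit 0xff2be03)) e
 (c (b (nat_lit 0xfc0ae05)) e
 (c (b (nat_lit 0xf62fc05)) e
 (c (b (nat_lit 0xfabb807)) e
 (c (b (nat_lit 0xffb4007)) e
 (c (b (nat_lit 0xfeaea07)) e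
 (c (b (nat_lit 0xfe7e207)) e
 (c z e
 (c (b (nat_lit 0xff94a0d)) e
 (c z e
 (c (b (nat_lit 0xffe980f)) e
 (c (b (nat_lit 0xfddc80f)) e
 (c z e
 (c (b (nat_lit 0xfff7e1d)) e
 (c z e
 (c z e
 (c (nat_lit 0x80000800008000080000800007fd6e800006e39f) e e))))))))))))))))))))))))))))))
 (c (a (nat_lit 0x101e7e00))
 (c (b (nat_lit 0xfe8d600)) e
 (c (b (nat_lit 0xfe3e200)) e
 (c (b (nat_lit 0xfe35000)) e
 (c (b (nat_lit 0xfe41800)) e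
 (c (nat_lit 0x7f2407f2357f2327f2347f2327f2327f2364be01) e
 (c (b (nat_lit 0xfe34801)) e
 (c (b (nat_lit 0xfe37e01)) e
 (c (b (nat_lit 0xfc1a201)) e
 (c (b (nat_lit 0xfd14e03)) e
 (c (b (nat_lit 0xfccf203)) e
 (c (b (nat_lit 0xfe1b203)) e
 (c z e
 (c (b (nat_lit 0xffe9605)) e
 (c z e
 (c z e
 (c z e
 (c z e
 (c z e
 (c (b (nat_lit 0xffa4a0d)) e
 (c (b (nat_lit 0xfff660d)) e
 (c (b (nat_lit 0x100a220f)) e
 (c (nat_lit 0x80a508090e80a5080a5080a5080a5080a50e868f) e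
 (c z e
 (c (b (nat_lit 0xffe360f)) e e)))))))))))))))))))))))) tt141)))) Tr.c Tr.e (nat_lit 0) C.t6 C.t7
noncomputable def tt143 : Tr := beta% (fun (c : Nat → Tr → Tr → Tr) (e : Tr) (z : Nat) (a b d : Nat → Nat) =>
 (c (a (nat_lit 0xfe05400)) tt142
 (c (nat_lit 0x7f0287f0287f0277f0277f0289cbc0)
 (c (b (nat_lit 0x101f6800))
 (c (d (nat_lit 0xfd71600)) e
 (c (d (nat_lit 0xfe1da00)) e
 (c (d (nat_lit 0xfe2de00)) e
 (c (d (nat_lit 0xfe27000)) e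
 (c (d (nat_lit 0xfe20000)) e
 (c (d (nat_lit 0xfe26001)) e
 (c (d (nat_lit 0xfe19001)) e
 (c (d (nat_lit 0xfe1fa01)) e
 (c (d (nat_lit 0xfe2be01)) e
 (c (d (nat_lit 0xfe04c03)) e
 (c (d (nat_lit 0xfd3dc03)) e
 (c (d (nat_lit 0xfe14803)) e
 (c (d (nat_lit 0xfda9803)) e
 (c (d (nat_lit 0xfe15805)) e
 (c (d (nat_lit 0xfb7b005)) e
 (c (d (nat_lit 0xfef1807)) e
 (c (d (nat_lit 0xff69207)) e
 (c (d (nat_lit 0xfe8f807)) e
 (c (d (nat_lit 0xfe40c07)) e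
 (c (d (nat_lit 0xfec300d)) e
 (c z e
 (c (d (nat_lit 0xffdfa0f)) e
 (c z e
 (c z e
 (c (d (nat_lit 0xfea780f)) e
 (c z e
 (c (d (nat_lit 0xfff1a1d)) e
 (c (d (nat_lit 0xffd381d)) e e)))))))))))))))))))))))))))) tt140)
 (c (a (nat_lit 0xfe03400)) tt139
 (c (nat_lit 0x7f02c7f02c7f02b7f02b7f02cc0500) tt138
 (c (nat_lit 0x7f0227f0227f0217f0217f02242240) tt137
 (c (nat_lit 0x7f0227f0227f0217f0217f022df740) tt136
 (c (nat_lit 0x7f0227f0227f0217f0217f022fe920)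
 (c (b (nat_lit 0x101f7800))
 (c (d (nat_lit 0xedb3207)) e
 (c z e
 (c z e
 (c z e
 (c z e
 (c (d (nat_lit 0xffdcc0d)) e
 (c z e
 (c z e
 (c z e
 (c z e
 (c (d (nat_lit 0x10c72c15)) e
 (c z e
 (c z e
 (c z e
 (c z e
 (c z e
 (c (nat_lit 0x8000080000800008000080000800007ff53cd197) e e)))))))))))))))))
 (c (b (nat_lit 0x101f4a00)) e
 (c (b (nat_lit 0x101f9c01)) e
 (c (b (nat_lit 0x101f7001)) e
 (c (nat_lit 0x8101f8101f8101f8101c8101b8101c79e41) e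
 (c (b (nat_lit 0x10141801)) e
 (c (b (nat_lit 0x100d0c03)) e
 (c (b (nat_lit 0x101b8003)) e
 (c (b (nat_lit 0x10123003)) e
 (c z e
 (c (b (nat_lit 0x10346405)) e
 (c (b (nat_lit 0xfd73a05)) e
 (c z e
 (c z e
 (c z e
 (c z e
 (c z e
 (c z e
 (c z e
 (c (nat_lit 0x80000800007ffa67ffa68000080000f0acf) e
 (c (nat_lit 0x7ffb57ffb57ffb57ffac7ffac7ffb52d68f) e e))))))))))))))))))))) tt135)))))))) Tr.c Tr.e (nat_lit 0) C.t5 C.t6 C.t7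
noncomputable def tt144 : Tr := beta% (fun (c : Nat → Tr → Tr → Tr) (e : Tr) (z : Nat) (a b d f : Nat → Nat) =>
 (c (nat_lit 0x80fef80fef80ff080fef6f0e0) tt143
 (c (a (nat_lit 0x101ff800)) tt134
 (c (a (nat_lit 0x101ffc00))
 (c (b (nat_lit 0xfdffe00)) tt128
 (c (b (nat_lit 0xfe00e00)) tt127
 (c (b (nat_lit 0xfe00c00))
 (c (d (nat_lit 0x101f9e00))
 (c z e
 (c z e
 (c z e
 (c z e
 (c z e
 (c z e
 (c z e
 (c z e
 (c z e
 (c z e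
 (c z e
 (c z e
 (c (f (nat_lit 0xfff720f)) e
 (c z e
 (c z e
 (c (f (nat_lit 0xffce80f)) e e))))))))))))))))
 (c (d (nat_lit 0x101f8e00)) e
 (c (d (nat_lit 0x101fa200)) e
 (c (d (nat_lit 0x101f9400)) e
 (c (d (nat_lit 0x101fd601)) e
 (c (d (nat_lit 0x101fd001)) e
 (c (d (nat_lit 0x101fca01)) e
 (c (d (nat_lit 0x101b7401)) e
 (c (d (nat_lit 0x10156a03)) e
 (c (d (nat_lit 0x101c1c03)) e
 (c z e
 (c (d (nat_lit 0xff36a03)) e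
 (c z e
 (c z e
 (c z e
 (c z e
 (c z e
 (c (d (nat_lit 0xff83007)) e
 (c z e
 (c (d (nat_lit 0xff7cc0b)) e
 (c z e
 (c (nat_lit 0x7f2d37f2d37f4577f4577f4577f45746f0d) e
 (c (nat_lit 0x800007ff427ff42800008000080000e4a0f) e e))))))))))))))))))))))) tt126)))
 (c (a (nat_lit 0x101ff400))
 (c (b (nat_lit 0xfe01c00)) tt125
 (c (b (nat_lit 0xfe01400))
 (c (d (nat_lit 0x101fa200)) e
 (c (d (nat_lit 0x101f8c00)) e
 (c (d (nat_lit 0x101fa600)) e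
 (c (d (nat_lit 0x101fe401)) e
 (c (d (nat_lit 0x101fca01)) e
 (c (nat_lit 0x81000810008100080ff880ff880ffaa8e41) e
 (c (d (nat_lit 0x101fd201)) e
 (c z e
 (c (d (nat_lit 0x10127603)) e
 (c (d (nat_lit 0x10149203)) e
 (c z e
 (c z e
 (c z e
 (c z e
 (c z e
 (c z e
 (c z e
 (c z e
 (c z e
 (c z e
 (c z e
 (c (d (nat_lit 0xfeade0d)) e
 (c (d (nat_lit 0x1015f00f)) e e))))))))))))))))))))))) tt124))
 (c (a (nat_lit 0x101ffc00)) tt123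
 (c (a (nat_lit 0x101ffc00)) tt122
 (c (a (nat_lit 0x101ffc00)) tt121
 (c (a (nat_lit 0x10200000)) tt120
 (c (a (nat_lit 0x101ffa00))
 (c (b (nat_lit 0xff08a00))
 (c z e
 (c z e
 (c z e
 (c z e
 (c (nat_lit 0x80f3680f3680f3680ec480f3680f36a2989) e
 (c (d (nat_lit 0x10246c09)) e e))))))
 (c (b (nat_lit 0xfe01600)) e
 (c (nat_lit 0x7f00d7f00c7f00c7f00c7f00c080e0)
 (c (nat_lit 0x80ac380ac380ac380a7c80ac380ac34e289) e
 (c (d (nat_lit 0x10151609)) e e))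
 (c (b (nat_lit 0xfe01800))
 (c (nat_lit 0x811f6811f6811f6811b9811f6811f67ab89) e e)
 (c (b (nat_lit 0xfe01201)) e
 (c (b (nat_lit 0xfe00a01)) e
 (c (b (nat_lit 0xfe01001)) e
 (c (b (nat_lit 0xfe28c01)) e
 (c (b (nat_lit 0xfdeb203)) e
 (c z e
 (c z e
 (c z e
 (c z e
 (c (b (nat_lit 0xff9d805)) e
 (c z e
 (c z e
 (c z e
 (c z e
 (c (nat_lit 0x7f5a07f5967f5967f5a07f5a058769) e
 (c (b (nat_lit 0xfe10e09)) e
 (c (b (nat_lit 0xfef3a09)) e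
 (c (nat_lit 0x7f5507f5507f5507f4f77f4f7ef4a9) e
 (c (nat_lit 0x7f6a17f6a17f6a17f6a17f5c87a3ab) e
 (c (b (nat_lit 0xff2ac0b)) e e))))))))))))))))))))))))
 (c (a (nat_lit 0x101ff600))
 (c (b (nat_lit 0xfe01800))
 (c z e
 (c (nat_lit 0x8189b8189b8189b818858189b8189bbac08) e
 (c (d (nat_lit 0x1030e009)) e e)))
 (c (b (nat_lit 0xfe02200))
 (c (nat_lit 0x80c3680c2780c3280c2e80c3680c36226c9) e
 (c (nat_lit 0x814f6814f6814e9814f6814f6814f6d9909) e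
 (c (nat_lit 0x810ac810ac810ac81069810ac810acc26c9) e e)))
 (c (b (nat_lit 0xfe02201))
 (c (d (nat_lit 0x1023b209)) e e)
 (c (b (nat_lit 0xfe02601)) e
 (c (nat_lit 0x7f01c7f01c7f01c7f0097f00b06281) e
 (c z e
 (c z e
 (c (nat_lit 0x7ff777ff777ff778000080000c6583) e
 (c z e
 (c z e
 (c (b (nat_lit 0x10015a05)) e
 (c z e
 (c z e
 (c (b (nat_lit 0xffbbc07)) e
 (c z e
 (c (b (nat_lit 0x10043c07)) e
 (c (b (nat_lit 0xfef1208)) e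
 (c (nat_lit 0x7effe7effe7effc7effe7effe7ebe9) e
 (c (b (nat_lit 0xfe03c09)) e
 (c (b (nat_lit 0xfe8e609)) e
 (c (b (nat_lit 0xfe36609)) e
 (c (b (nat_lit 0xfe8f40b)) e
 (c (b (nat_lit 0xfe68a0b)) e e))))))))))))))))))))))) tt119))))))))))) Tr.c Tr.e (nat_lit 0) C.t4 C.t5 C.t6 C.t7
noncomputable def tt145 : Tr := beta% (fun (c : Nat → Tr → Tr → Tr) (e : Tr) (z : Nat) (a b d : Nat → Nat) =>
 (c (a (nat_lit 0x10200600))
 (c (b (nat_lit 0xfdfc601))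
 (c (d (nat_lit 0x101d8009)) e
 (c (nat_lit 0x80be080be080be080afe80be080bbdc1809) e
 (c (d (nat_lit 0x101b2a09)) e
 (c z e
 (c (nat_lit 0x80d0f80d0f80c5780d0f80d0f80d0f7d8cc) e
 (c (d (nat_lit 0x1038920c)) e e))))))
 (c (nat_lit 0x7f01a7f01a7f01a7f0137f013dbfc1)
 (c (nat_lit 0x8097680a9680a9680a9680a9680a960e5c9) e
 (c (d (nat_lit 0x1020860c)) e
 (c (d (nat_lit 0x101f5c0c)) e
 (c (nat_lit 0x81343813438134380fba81343813433e84c) e e))))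
 (c (b (nat_lit 0xfdf1601)) e
 (c (b (nat_lit 0xfd49c03)) e
 (c (b (nat_lit 0xfd39c03)) e
 (c z e
 (c (b (nat_lit 0x10377803)) e
 (c (b (nat_lit 0xfe0a205)) e
 (c (b (nat_lit 0x1007fe05)) e
 (c (b (nat_lit 0x10057805)) e
 (c (b (nat_lit 0xff5f207)) e
 (c (b (nat_lit 0xff5c407)) e
 (c (b (nat_lit 0xffbac07)) e
 (c (b (nat_lit 0xfe5ca07)) e
 (c (nat_lit 0x7f8527f86d7f83f7f89e7f89e48368) e
 (c (b (nat_lit 0xff02009)) e
 (c (nat_lit 0x7f8327f8327f8327f8327f82662849) e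
 (c (b (nat_lit 0xffade09)) e
 (c (b (nat_lit 0xffa8809)) e
 (c (nat_lit 0x7fc3d7fc157fc3d7fc3d7fc3d12e8c) e
 (c (nat_lit 0x7fc557fc557fc177fc4f7fc4f11f8c) e
 (c (nat_lit 0x8000080000800007fefa7fefa9996b) e
 (c (nat_lit 0x8000080000800007fea87fea83694b) e e)))))))))))))))))))))))
 (c (a (nat_lit 0x101ff200))
 (c (b (nat_lit 0xfd6f601))
 (c (d (nat_lit 0x1015b209)) e
 (c (d (nat_lit 0x10166e21)) e e))
 (c (nat_lit 0x7eb437eb437eb437eb437eacc5cea3) e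
 (c z e
 (c (nat_lit 0x7f1eb7f1eb7f1f47f1f47f1f4b5463) e
 (c (b (nat_lit 0x10206803)) e
 (c z e
 (c (b (nat_lit 0xfbb6c05)) e
 (c (b (nat_lit 0xfebbc05)) e
 (c (nat_lit 0x7e9fc7e9ab7e98f7e9fc7e9fc55d47) e
 (c (b (nat_lit 0xffc3e07)) e
 (c z e
 (c z e
 (c (b (nat_lit 0xff0b208)) e
 (c (nat_lit 0x7f8617f85e7f8617f8617f861ca1e8) e
 (c (nat_lit 0x7f8397f8397f8367f8397f839e8809) e
 (c (nat_lit 0x7fc2d7fc2d7fc187fbef7fc006e689) e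
 (c (b (nat_lit 0xffcfa09)) e
 (c (nat_lit 0x7fe887fef27fef27fef27fef2b5069) e e))))))))))))))))))
 (c (a (nat_lit 0x101ff600))
 (c (b (nat_lit 0xfdd9403)) e
 (c z e
 (c z e
 (c (nat_lit 0x7f12c7f11d7f11d7f12c7f12c9c005) e
 (c z e
 (c (b (nat_lit 0xfdade05)) e
 (c (b (nat_lit 0xfcdce07)) e
 (c (b (nat_lit 0xfff1e07)) e
 (c z e
 (c z e
 (c (nat_lit 0x7f8e07f8f57f8f57f8f57f8f54ca88) e
 (c (nat_lit 0x7f8ec7f9097f9097f9097f9099c828) e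
 (c (nat_lit 0x7f8a57f87a7f8987f8a57f8a566948) e
 (c (nat_lit 0x7fc027fc027fbf37fc027fc025cc89) e
 (c (nat_lit 0x7fbfa7fbfa7fbf97fbee7fbfa7b1e9) e
 (c (nat_lit 0x7fed77fed77fec37fec37fed7324e9) e
 (c (nat_lit 0x800007ffdb7ffdb8000080000aa2a9) e
 (c (nat_lit 0x8000080000800007fff97fd9b76889) e e))))))))))))))))))
 (c (a (nat_lit 0x101ffc00))
 (c z e
 (c (b (nat_lit 0xfdf2e05)) e
 (c z e
 (c z e
 (c (b (nat_lit 0xfb25c07)) e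
 (c (nat_lit 0x80664806648062b8063280664497a7) e
 (c z e
 (c z e
 (c (b (nat_lit 0xff51a08)) e
 (c (b (nat_lit 0xfceca08)) e
 (c (b (nat_lit 0xfceca08)) e
 (c (nat_lit 0x7fc087fc087fc087fc037fc08e92e8) e
 (c (nat_lit 0x7fc217fc217fc1a7fc167fc0665969) e
 (c (nat_lit 0x7fc6b7fc6b7fc6b7fc337fc3252729) e
 (c (b (nat_lit 0xffc2609)) e
 (c (b (nat_lit 0xffedc09)) e e))))))))))))))))
 (c (a (nat_lit 0x10200000))
 (c (b (nat_lit 0xfd20a05)) e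
 (c z e
 (c z e
 (c z e
 (c z e
 (c z e
 (c (nat_lit 0x7fb617fb617fb587fb617fb614f5e8) e
 (c (b (nat_lit 0xfce6a08)) e
 (c (nat_lit 0x7ea5d7ea617ea617ea617ea6120528) e
 (c (nat_lit 0x7fd687fd647fd6b7fd727fd72774a8) e
 (c (nat_lit 0x7fd927fd817fd7f7fd8c7fd92a0228) e
 (c (nat_lit 0x80000800007fd4a7fd4a7fd4a45548) e
 (c (nat_lit 0x8000080000800007fd1a7fd1cea168) e e)))))))))))))
 (c (a (nat_lit 0x10200800))
 (c (b (nat_lit 0xfb31007)) e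
 (c z e
 (c (b (nat_lit 0xfe91007)) e
 (c z e
 (c (b (nat_lit 0xfe3f808)) e
 (c (b (nat_lit 0xfaafa08)) e
 (c (b (nat_lit 0xfd57008)) e
 (c (b (nat_lit 0xfdcce08)) e
 (c (nat_lit 0x7f34d7f34d7f34d7f3437f34decf88) e
 (c (nat_lit 0x7f2f47f2f47f2f47f2f07f2d7d9768) e
 (c (nat_lit 0x80000800007f2a87f2a87f2a8b6d88) e
 (c (nat_lit 0x8000080000800007f2877f28710ee8) e
 (c (nat_lit 0x800008000080000800007f8a351408) e e)))))))))))))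
 (c (a (nat_lit 0x101ffc00))
 (c z e
 (c (b (nat_lit 0x10198a07)) e
 (c (nat_lit 0x7a65d7a65d7a6537a65d7a65d8bfa8) e
 (c (b (nat_lit 0xfdb8608)) e
 (c (b (nat_lit 0xfe48208)) e
 (c (nat_lit 0x7f0507f0677f0677f0677f067fcf48) e
 (c (nat_lit 0x7efe57effc7f0137f0167f0161b208) e
 (c (nat_lit 0x7efb17efc67efe07efe17efe15aa88) e
 (c (nat_lit 0x7efbc7ef997efb77efbc7efbca6388) e
 (c (nat_lit 0x80000800007ef7f7ef907ef90c75e8) e
 (c (nat_lit 0x8000080000800007ef817ef81b0fa8) e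
 (c (nat_lit 0x800008000080000800007f5a330548) e e))))))))))))
 (c (a (nat_lit 0x10200400))
 (c (nat_lit 0x747807477974765747807478003268) e
 (c (b (nat_lit 0xfc75408)) e
 (c (b (nat_lit 0xfdddc08)) e
 (c (b (nat_lit 0xfe1be08)) e
 (c (nat_lit 0x7f05a7f08c7f09d7f09d7f09db5c68) e
 (c (nat_lit 0x7f0067f0087f02b7f02b7f02b63048) e
 (c (nat_lit 0x7efd37efc67efcd7efd37efd3f0448) e
 (c (b (nat_lit 0xfdf2008)) e
 (c (nat_lit 0x80000800007ef817ef847ef8495de8) e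
 (c (nat_lit 0x8000080000800007ef7c7ef7c34188) e
 (c (nat_lit 0x800008000080000800007f574fb428) e e)))))))))))
 (c (a (nat_lit 0x10200200)) e
 (c (a (nat_lit 0x10200000)) e
 (c (a (nat_lit 0x101ffa00)) e
 (c (nat_lit 0x80ffe80ffe80ffe80ffdf6310) e
 (c (nat_lit 0x80fff810008100081000e9af0) e
 (c (nat_lit 0x80ff980ffa80ffa80ff9ca6a0) e
 (c (a (nat_lit 0x10200000)) e
 (c (nat_lit 0x81000810018100181001d8681) e
 (c (nat_lit 0x810018100081000810009fde1) e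
 (c (nat_lit 0x809d1809d2809d2809d2dad41) e
 (c (nat_lit 0x807ea807eb807eb807ebba831) e
 (c (nat_lit 0x8121081211812108121040673) e
 (c (nat_lit 0x8121e8121d8121d8121e4f833) e
 (c (a (nat_lit 0x1017e203)) e
 (c (a (nat_lit 0x1015b403)) e
 (c (nat_lit 0x80510805118051180511c03f5) e
 (c (nat_lit 0x806c1806c1806c0806c177395) e
 (c (a (nat_lit 0x100d4a05)) e
 (c (a (nat_lit 0x10134607)) e
 (c (nat_lit 0x800047fff77fff67fff663367) e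
 (c (a (nat_lit 0xfff2a07)) e
 (c (nat_lit 0x8144881449814548145402557) e e))))))))))))))))))))))))))))))) Tr.c Tr.e (nat_lit 0) C.t4 C.t5 C.t6
noncomputable def tt146 : Tr := beta% (fun (c : Nat → Tr → Tr → Tr) (e : Tr) (z : Nat) (a b : Nat → Nat) =>
 (c (a (nat_lit 0xff07200))
 (c (nat_lit 0x7ec487ec487ec487ec487ec487e9819a647) e
 (c z e
 (c (b (nat_lit 0x10214e07)) e
 (c (nat_lit 0x82e1382e1382e1382e1382e1382dfb8f9c7) e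
 (c (b (nat_lit 0x10199c09)) e
 (c (b (nat_lit 0x10338a09)) e
 (c z e
 (c (nat_lit 0x80e4880e1780e4880e4880e4880e4857ccb) e
 (c (b (nat_lit 0x10557c0b)) e
 (c z e
 (c (b (nat_lit 0xfff280b)) e e)))))))))))
 (c (a (nat_lit 0xfdfe800))
 (c z e
 (c (b (nat_lit 0x103c4607)) e
 (c z e
 (c (nat_lit 0x80000800007fa62800008000080000b3909) e
 (c (b (nat_lit 0x101dd609)) e
 (c z e
 (c (b (nat_lit 0x1053520b)) e
 (c (b (nat_lit 0x101fe60b)) e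
 (c z e
 (c (b (nat_lit 0x102d4c13)) e e))))))))))
 (c (nat_lit 0x7f0007effe7effe7effe7effe775e0)
 (c (b (nat_lit 0x10146c09)) e
 (c (nat_lit 0x8094680946809468094680827809462b6c9) e
 (c (b (nat_lit 0x101b1a09)) e e)))
 (c (a (nat_lit 0xfe01001))
 (c z e
 (c (nat_lit 0x80eda80c6880eda80eda80eda80eda67b4b) e
 (c (b (nat_lit 0x1030e60b)) e
 (c (b (nat_lit 0x1031e00b)) e
 (c (b (nat_lit 0x101e580b)) e e)))))
 (c (a (nat_lit 0xfdffa01))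
 (c (b (nat_lit 0x101b420b)) e
 (c (b (nat_lit 0x1041240b)) e
 (c (b (nat_lit 0x101c2a0b)) e e)))
 (c (a (nat_lit 0xfdfbc01))
 (c (b (nat_lit 0x1031700b)) e e)
 (c (nat_lit 0x7ee947ee947ef187ef187ef1881a61) e
 (c (a (nat_lit 0xfe7a203)) e
 (c (a (nat_lit 0xfea6803)) e
 (c (a (nat_lit 0x10273a03)) e
 (c (a (nat_lit 0x1025b003)) e
 (c (nat_lit 0x7e72e7e72e7e6f47e72e7e72ef03e5) e
 (c (nat_lit 0x7f1db7f1db7f1db7f1737f1db70a85) e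
 (c (a (nat_lit 0x10026805)) e
 (c (a (nat_lit 0xfe06c07)) e
 (c (a (nat_lit 0xfddca07)) e
 (c z e
 (c (a (nat_lit 0xfe0ce07)) e
 (c (a (nat_lit 0xfeb8609)) e
 (c (a (nat_lit 0xfebc409)) e
 (c (nat_lit 0x7f3637f3b97f3b97f3b97f3b902989) e
 (c (nat_lit 0x7f19f7f1917f19f7f19f7f19f76a8b) e
 (c (nat_lit 0x7f1b07f1b07f1947f1b07f1b01446b) e
 (c (nat_lit 0x8000080000800007ff617ff612918b) e
 (c (a (nat_lit 0xfeef00b)) e
 (c (nat_lit 0x800008000080000800007fd214f14b) e e))))))))))))))))))))))))))) Tr.c Tr.e (nat_lit 0) C.t5 C.t6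
noncomputable def tt147 : Tr := beta% (fun (c : Nat → Tr → Tr → Tr) (e : Tr) (z : Nat) (a b : Nat → Nat) =>
 (c (a (nat_lit 0xfecfe00))
 (c (b (nat_lit 0x100fa805)) e
 (c (b (nat_lit 0x10445005)) e
 (c (b (nat_lit 0x102e4605)) e
 (c z e
 (c (nat_lit 0x81942819428191181931819428194252247) e
 (c z e
 (c z e
 (c z e
 (c (nat_lit 0x7ff9880000800008000080000800006b809) e
 (c (b (nat_lit 0x10300c0b)) e
 (c (nat_lit 0x86be286be286be286a4186be286be2b8f4b) e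
 (c (nat_lit 0x80c7f80c7f80c7f80b7e80c2c80c7f74ecb) e
 (c z e
 (c z e
 (c (nat_lit 0x80000800008000080000810538111175fcd) e e)))))))))))))))
 (c (a (nat_lit 0xfdff600))
 (c z e
 (c z e
 (c (nat_lit 0x80000800008000080000800007ff514e645) e
 (c z e
 (c z e
 (c z e
 (c z e
 (c z e
 (c z e
 (c (b (nat_lit 0x1024a40b)) e
 (c z e
 (c (b (nat_lit 0x1039a413)) e e))))))))))))
 (c (a (nat_lit 0xfdfe600)) e
 (c (a (nat_lit 0xfdfe200))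
 (c z e
 (c z e
 (c (b (nat_lit 0x10251209)) e
 (c (b (nat_lit 0x1026260b)) e
 (c (b (nat_lit 0x1036dc0b)) e
 (c z e
 (c (b (nat_lit 0x10084e0b)) e
 (c (b (nat_lit 0x10561c14)) e
 (c (b (nat_lit 0x100d1c14)) e e)))))))))
 (c (a (nat_lit 0xfdffc00))
 (c (b (nat_lit 0x1006d209)) e
 (c (b (nat_lit 0x1023ee0b)) e
 (c (b (nat_lit 0x1023fa0b)) e
 (c (b (nat_lit 0x103a080b)) e
 (c (b (nat_lit 0x1043f60b)) e
 (c (b (nat_lit 0x10889a20)) e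
 (c (b (nat_lit 0x106f2e20)) e e)))))))
 (c (a (nat_lit 0xfe00401))
 (c (b (nat_lit 0x10242a0b)) e
 (c (b (nat_lit 0x1026760b)) e e))
 (c (nat_lit 0x7f0057f0057f0047f0047f005268e1) e
 (c (nat_lit 0x7f00f7f00f7f00f7f0047f00413001)
 (c (nat_lit 0x800008000080000800007fe08800001224d) e e)
 (c (a (nat_lit 0xfd94201)) e
 (c z e
 (c (a (nat_lit 0xfc7d803)) e
 (c (a (nat_lit 0xff24603)) e
 (c z e
 (c (nat_lit 0x7e9dd7e9dd7e9a67e9dd7e9dd0dd25) e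
 (c (a (nat_lit 0xfdc2e05)) e
 (c z e
 (c (a (nat_lit 0xfe2c207)) e
 (c (a (nat_lit 0xfe1f207)) e
 (c z e
 (c (a (nat_lit 0x1000f207)) e
 (c (nat_lit 0x7f9e67f9e67f9e67f9d47f9d47a9e9) e
 (c (a (nat_lit 0xfe9be09)) e
 (c (nat_lit 0x7f48d7f45f7f48d7f48d7f48d0b08b) e
 (c (nat_lit 0x7f4807f4807f4647f4807f48006dcb) e
 (c (a (nat_lit 0xfff880b)) e
 (c (nat_lit 0x7f9617f7a97f7a97f9617f961bf74b) e
 (c (nat_lit 0x8000080000800007ff8f7ffac27e0d) e e)))))))))))))))))))))))))))) Tr.c Tr.e (nat_lit 0) C.t5 C.t6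
noncomputable def tt148 : Tr := beta% (fun (c : Nat → Tr → Tr → Tr) (e : Tr) (z : Nat) (a b d : Nat → Nat) =>
 (c (a (nat_lit 0xfe00800))
 (c (b (nat_lit 0x10189003))
 (c z e
 (c z e
 (c z e
 (c z e
 (c (d (nat_lit 0x103f0c0d)) e e)))))
 (c z e
 (c z e
 (c (b (nat_lit 0x10174605)) e
 (c z e
 (c z e
 (c z e
 (c z e
 (c z e
 (c z e
 (c (b (nat_lit 0xf788209)) e
 (c (nat_lit 0x800007ffda7ffda8000080000800004438b) e
 (c (b (nat_lit 0x10275c0b)) e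
 (c z e
 (c z e
 (c (nat_lit 0x80f1180f1180e9280f1180f1180f11a090d) e
 (c z e
 (c (nat_lit 0x7fc288000080000800008000080000125cd) e e))))))))))))))))))
 (c (a (nat_lit 0xfe00200))
 (c z e
 (c z e
 (c z e
 (c z e
 (c z e
 (c z e
 (c z e
 (c z e
 (c z e
 (c z e
 (c z e
 (c (b (nat_lit 0x1032ea0b)) e
 (c (b (nat_lit 0xfff960b)) e
 (c z e
 (c (nat_lit 0x814a3814a3814a381497814a3814a377e8d) e
 (c (b (nat_lit 0x10191a0d)) e e))))))))))))))))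
 (c (a (nat_lit 0xfdff800))
 (c z e
 (c z e
 (c z e
 (c z e
 (c z e
 (c z e
 (c z e
 (c z e
 (c z e
 (c z e
 (c z e
 (c (b (nat_lit 0xfffb00d)) e e))))))))))))
 (c (a (nat_lit 0xfdfdc00))
 (c z e
 (c (nat_lit 0x8280582805827e6828058280582805bd447) e
 (c z e
 (c z e
 (c (nat_lit 0x800007fc2f800008000080000800009c709) e
 (c z e
 (c z e
 (c z e
 (c (b (nat_lit 0x10798e0b)) e
 (c (nat_lit 0x82ec382ec382eb182eb182ec382ec38d64d) e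
 (c (b (nat_lit 0x1014f20d)) e
 (c (nat_lit 0x800008000080000800007fe677fe67c5f8d) e e))))))))))))
 (c (a (nat_lit 0xfdff200))
 (c (b (nat_lit 0x10258a07)) e
 (c z e
 (c z e
 (c z e
 (c z e
 (c z e
 (c (b (nat_lit 0x10536a0b)) e
 (c (b (nat_lit 0x109a420d)) e
 (c (b (nat_lit 0x1035f80d)) e
 (c z e
 (c (nat_lit 0x80000800008000080000800007ffb0628cd) e e)))))))))))
 (c (a (nat_lit 0xfe01400))
 (c z e
 (c (nat_lit 0x80df480df480d7a80df480df480df449acb) e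
 (c (b (nat_lit 0x1034720b)) e
 (c z e
 (c z e
 (c (b (nat_lit 0x105ac80d)) e
 (c (b (nat_lit 0x1050a00d)) e e)))))))
 (c (a (nat_lit 0xfe01c00))
 (c (nat_lit 0x80d4880eef80eef80eef80eef80eeff57cb) e
 (c (b (nat_lit 0x108b1c0b)) e
 (c (b (nat_lit 0x102b240b)) e
 (c z e
 (c z e
 (c (b (nat_lit 0x103c220d)) e e))))))
 (c (a (nat_lit 0xfe00601))
 (c z e
 (c z e
 (c (b (nat_lit 0x1047bc0d)) e
 (c z e
 (c (nat_lit 0x80000800007fef680000800008000073020) e e)))))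
 (c (a (nat_lit 0xfdff601))
 (c (nat_lit 0x8000080000800007ffc08000080000d110d) e e)
 (c (a (nat_lit 0xfdfd601)) e
 (c (a (nat_lit 0xfdf2001)) e
 (c (a (nat_lit 0xfc91a03)) e
 (c (a (nat_lit 0xfe8fe03)) e
 (c z e
 (c (a (nat_lit 0x100c7a03)) e
 (c (a (nat_lit 0xfdb1605)) e
 (c (a (nat_lit 0xfed2405)) e
 (c (a (nat_lit 0x10040c05)) e
 (c (nat_lit 0x7eddc7ed717eddc7eddc7eddcd85a7) e
 (c (nat_lit 0x7edc37edc37ed787edc37edc3a17e7) e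
 (c z e
 (c z e
 (c (a (nat_lit 0xff63609)) e
 (c (a (nat_lit 0xfdbf60b)) e
 (c (a (nat_lit 0xfdaec0b)) e
 (c (nat_lit 0x7f71d7f6c27f71d7f71d7f71d73cab) e
 (c (nat_lit 0x7f8507f8507f8127f8507f850fb56b) e
 (c (nat_lit 0x7fbbe7fbbe7fbbe7fb9b7fbbebfacd) e
 (c (a (nat_lit 0xffebe0d)) e
 (c (a (nat_lit 0xff4140d)) e
 (c (nat_lit 0x800008000080000800007fffa36b2d) e e)))))))))))))))))))))))))))))))) Tr.c Tr.e (nat_lit 0) C.t5 C.t6 C.t7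
noncomputable def tt149 : Tr := beta% (fun (c : Nat → Tr → Tr → Tr) (e : Tr) (z : Nat) (a b d : Nat → Nat) =>
 (c (a (nat_lit 0xfdfca00))
 (c z
 (c z e
 (c z e
 (c z e
 (c z e
 (c (nat_lit 0x83afc83afc83afc83afc833ef83afc83afcb298b) e
 (c z e
 (c (nat_lit 0x8000080000800007fe8a8000080000800008c58d) e
 (c (d (nat_lit 0xfff820d)) e e))))))))
 (c (b (nat_lit 0x10204201)) e
 (c z e
 (c z
 (c (d (nat_lit 0x10cc920d)) e e)
 (c z e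
 (c z e
 (c (b (nat_lit 0x10197e05)) e
 (c (b (nat_lit 0x1018d805)) e
 (c z e
 (c z e
 (c z e
 (c z e
 (c (b (nat_lit 0xff9f007)) e
 (c (b (nat_lit 0x10669a0b)) e
 (c (b (nat_lit 0x108a4e0b)) e
 (c (b (nat_lit 0x1006660b)) e
 (c (b (nat_lit 0x1015ca0b)) e
 (c (b (nat_lit 0x102cd60d)) e
 (c (nat_lit 0x80a9f80ec080ec080ec080ec080ec00aa8d) e
 (c z e
 (c z e
 (c z e
 (c z e
 (c (nat_lit 0x80000800008000080000800007ffa5c0b8f) e e))))))))))))))))))))))))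
 (c (a (nat_lit 0xfdffc00))
 (c z e
 (c z e
 (c z e
 (c z e
 (c z e
 (c z e
 (c z e
 (c z e
 (c z e
 (c z e
 (c z e
 (c z e
 (c (b (nat_lit 0x108dd40b)) e
 (c z e
 (c z e
 (c (b (nat_lit 0x101f7a0d)) e
 (c (b (nat_lit 0x1012000d)) e
 (c (b (nat_lit 0x10132e0d)) e
 (c (nat_lit 0x80338803388033880338803128033876655) e
 (c (nat_lit 0x80000800008000080000800007fe34ab0cd) e e))))))))))))))))))))
 (c (a (nat_lit 0xfdff600)) e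
 (c (a (nat_lit 0xfe00400))
 (c (nat_lit 0x807658076580760807658076580765f7805) e
 (c z e
 (c z e
 (c (b (nat_lit 0x101cb007)) e
 (c (nat_lit 0x85c0785c0785bde85c0785c0785c0733387) e
 (c z e
 (c z e
 (c (nat_lit 0x80e5480e5480d3880e5480e5480e54a838b) e
 (c z e
 (c z e
 (c (b (nat_lit 0x102f620b)) e
 (c (nat_lit 0x83145831458314183141831428314595d0d) e
 (c (b (nat_lit 0x1044ba0d)) e
 (c (b (nat_lit 0x1021920d)) e e))))))))))))))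
 (c (a (nat_lit 0xfdfdc00))
 (c z e
 (c z e
 (c z e
 (c z e
 (c z e
 (c z e
 (c (b (nat_lit 0x1055220b)) e
 (c z e
 (c (b (nat_lit 0x105fa80b)) e
 (c (b (nat_lit 0x1087700d)) e
 (c (b (nat_lit 0x108c280d)) e
 (c (b (nat_lit 0xfec3a0d)) e
 (c z e
 (c z e
 (c z e
 (c z e
 (c (nat_lit 0x80000800008000080000800007ff79169cf) e e)))))))))))))))))
 (c (a (nat_lit 0xfdff200))
 (c z e
 (c z e
 (c z e
 (c z e
 (c (nat_lit 0x80000800007ff407ff8a80000800008818b) e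
 (c z e
 (c z e
 (c (b (nat_lit 0x1034fc0d)) e
 (c (b (nat_lit 0x102e740d)) e e)))))))))
 (c (a (nat_lit 0xfe01e00))
 (c z e
 (c (b (nat_lit 0x10174c0b)) e
 (c z e
 (c z e
 (c (b (nat_lit 0x10259a0b)) e
 (c z e
 (c z e
 (c (b (nat_lit 0xfffe20d)) e e))))))))
 (c (a (nat_lit 0xfe00400))
 (c (nat_lit 0x80dcf80dcf80ca380ca480dcf80dcfecccb) e
 (c (b (nat_lit 0x1023ca0b)) e
 (c z e
 (c (nat_lit 0x820468204681eeb820468204682046f458d) e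
 (c (b (nat_lit 0x1034f80d)) e
 (c (b (nat_lit 0x105c0e0d)) e e))))))
 (c (a (nat_lit 0xfe00200))
 (c z e
 (c (b (nat_lit 0x1035d60d)) e
 (c z e
 (c z e
 (c (b (nat_lit 0x10744411)) e e)))))
 (c (a (nat_lit 0xfdff801))
 (c (nat_lit 0x8000080000800007ff1b80000800003128d) e
 (c (b (nat_lit 0x103cb00d)) e e))
 (c (a (nat_lit 0xfdfe801)) e
 (c (a (nat_lit 0xfdfc401)) e
 (c (a (nat_lit 0xfbe5801)) e
 (c (nat_lit 0x7ef847ef5e7ef847ef847ef84ff303) e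
 (c (nat_lit 0x7ef727ef727ef637ef727ef72d0b03) e
 (c (a (nat_lit 0x100ba803)) e
 (c (a (nat_lit 0xffcca03)) e
 (c (a (nat_lit 0xfdb3605)) e
 (c (a (nat_lit 0xfe53005)) e
 (c (a (nat_lit 0xffdf605)) e
 (c (a (nat_lit 0xfdf1007)) e
 (c (a (nat_lit 0xfdf0a07)) e
 (c (nat_lit 0x7fca07fca87fd017fd017fd012bf27) e
 (c (a (nat_lit 0xff92007)) e
 (c (a (nat_lit 0xfe0040b)) e
 (c (a (nat_lit 0xfdf140b)) e
 (c z e
 (c (a (nat_lit 0xfdb840b)) e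
 (c (a (nat_lit 0xfe6f00d)) e
 (c (nat_lit 0x7ffcd7ffcd8000080000800003a9ed) e
 (c (a (nat_lit 0x100a9e0d)) e e)))))))))))))))))))))))))))))))) Tr.c Tr.e (nat_lit 0) C.t5 C.t6 C.t7
noncomputable def tt150 : Tr := beta% (fun (c : Nat → Tr → Tr → Tr) (e : Tr) (z : Nat) (a b d : Nat → Nat) =>
 (c (a (nat_lit 0xfe00600))
 (c (b (nat_lit 0x10201a01))
 (c z e
 (c z e
 (c z e
 (c z e
 (c (d (nat_lit 0x1060460b)) e
 (c z e
 (c z e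
 (c (d (nat_lit 0xfff620d)) e
 (c (d (nat_lit 0xfff920d)) e e)))))))))
 (c (b (nat_lit 0x101ff401)) e
 (c (nat_lit 0x8101281012810128101281001810032d201) e
 (c z
 (c z e
 (c z e
 (c (d (nat_lit 0xffdc40d)) e e)))
 (c (nat_lit 0x7fe1c7fe1c7fe027fe027fe1c7fe1c49c43) e
 (c z e
 (c z e
 (c (b (nat_lit 0x10284605)) e
 (c (b (nat_lit 0xffac005)) e
 (c (b (nat_lit 0x100dfe05)) e
 (c z e
 (c z e
 (c z e
 (c (b (nat_lit 0x10031207)) e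
 (c (b (nat_lit 0x100fac0b)) e
 (c z e
 (c z e
 (c (b (nat_lit 0x100afe0d)) e
 (c (nat_lit 0x816c9816c9816c98169c816b2816c99c6cd) e
 (c (b (nat_lit 0x101c2a0d)) e
 (c (nat_lit 0x80000800008000080000800007fd9953e8d) e e)))))))))))))))))))))
 (c (a (nat_lit 0xfe00800))
 (c (b (nat_lit 0x101ffa01)) e
 (c z e
 (c z e
 (c z e
 (c z e
 (c z e
 (c (b (nat_lit 0xfef9205)) e
 (c z e
 (c z e
 (c z e
 (c z e
 (c z e
 (c z e
 (c (b (nat_lit 0x103ed80b)) e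
 (c (b (nat_lit 0x1028a60b)) e
 (c (b (nat_lit 0x102a4e0d)) e
 (c (b (nat_lit 0x1013560d)) e e)))))))))))))))))
 (c (a (nat_lit 0xfe00a00))
 (c (b (nat_lit 0xfdd9203))
 (c (d (nat_lit 0x1036360d)) e
 (c (d (nat_lit 0x10ac1e0d)) e e))
 (c (b (nat_lit 0xfe58203))
 (c (d (nat_lit 0xfffba0d)) e e)
 (c z e
 (c (b (nat_lit 0x103efe05)) e
 (c (b (nat_lit 0x102f9605)) e
 (c z e
 (c (b (nat_lit 0x1005a807)) e
 (c (b (nat_lit 0x1022a207)) e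
 (c z e
 (c (b (nat_lit 0x10153007)) e
 (c (b (nat_lit 0x10495c0b)) e
 (c (b (nat_lit 0x1026900b)) e
 (c (b (nat_lit 0x101ee20b)) e
 (c (b (nat_lit 0x101f1a0d)) e
 (c (b (nat_lit 0x1012c60d)) e
 (c z e
 (c (b (nat_lit 0x101d0218)) e
 (c (nat_lit 0x8104f8104f8104f80fd38104f8104fe8e58) e e))))))))))))))))))
 (c (a (nat_lit 0xfe01000))
 (c z e
 (c z e
 (c z e
 (c z e
 (c (b (nat_lit 0x100c2407)) e
 (c z e
 (c (nat_lit 0x80cfd8062980cfd80cfd80cfd80cfdc5e47) e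
 (c z e
 (c z e
 (c z e
 (c z e
 (c (b (nat_lit 0x1071560d)) e
 (c (b (nat_lit 0x104eae0d)) e
 (c z e
 (c (b (nat_lit 0x10223a13)) e e)))))))))))))))
 (c (a (nat_lit 0xfe00400))
 (c z e
 (c z e
 (c z e
 (c z e
 (c z e
 (c z e
 (c z e
 (c z e
 (c z e
 (c (b (nat_lit 0x1046620d)) e
 (c (b (nat_lit 0x104d820d)) e e)))))))))))
 (c (a (nat_lit 0xfe00600))
 (c z e
 (c (b (nat_lit 0x1008e207)) e
 (c (nat_lit 0x800008000080000800007fe3c7fe3c5be07) e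
 (c z e
 (c z e
 (c z e
 (c z e
 (c (b (nat_lit 0x1040ee0d)) e
 (c (nat_lit 0x819238192381923817bd817bd81923c0acd) e
 (c (b (nat_lit 0x101fa20d)) e
 (c (nat_lit 0x810df810df810af810df810df810dfd0bd4) e e)))))))))))
 (c (a (nat_lit 0xfe02c00))
 (c (b (nat_lit 0xfdc3607)) e
 (c (b (nat_lit 0x1003ea07)) e
 (c z e
 (c (b (nat_lit 0x1017320b)) e e))))
 (c (a (nat_lit 0xfe01600))
 (c (nat_lit 0x8196381963819638195d81963819631ce8b) e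
 (c z e
 (c z e
 (c z e
 (c z e
 (c z e
 (c (b (nat_lit 0x100d7a11)) e e)))))))
 (c (nat_lit 0x7f00f7f00d7f00d7f00d7f00d39d60)
 (c z e
 (c (nat_lit 0x80e9780e9780d3e80e9780e9780e97dae0d) e
 (c (b (nat_lit 0x1016040d)) e
 (c z e
 (c (nat_lit 0x82f5582f5582f5582f5582f5582700349d1) e e)))))
 (c (a (nat_lit 0xfdfe800))
 (c (b (nat_lit 0x1014a00d)) e
 (c (b (nat_lit 0x1044140d)) e
 (c (b (nat_lit 0x10608420)) e
 (c (b (nat_lit 0x10754c20)) e e))))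
 (c (a (nat_lit 0xfdff001)) e
 (c (a (nat_lit 0xfe00e01)) e
 (c (a (nat_lit 0xfd5ea01)) e
 (c (a (nat_lit 0xfdf8801)) e
 (c (a (nat_lit 0xfe00403)) e
 (c (nat_lit 0x80000800007fff3800008000006e43) e
 (c (a (nat_lit 0x1006e603)) e
 (c (a (nat_lit 0x10059e03)) e
 (c (a (nat_lit 0xfddb605)) e
 (c (a (nat_lit 0xfe0ce05)) e
 (c (a (nat_lit 0xff1ce05)) e
 (c (a (nat_lit 0xfe5c207)) e
 (c (a (nat_lit 0xfe7ae07)) e
 (c (nat_lit 0x7f78e7f78e7f7c47f7c47f7c440b07) e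
 (c (a (nat_lit 0xffcc407)) e
 (c (nat_lit 0x7fb917fb917faf27fb917fb919916b) e
 (c (a (nat_lit 0xff2880b)) e
 (c (a (nat_lit 0xff2de0b)) e
 (c (nat_lit 0x7f6a27f6a27f6537f6a27f6a28822d) e
 (c (nat_lit 0x7f5667f5667f5667f4ad7f5668752d) e
 (c (nat_lit 0x7fc997fc997fc997fcab7fcab79bcd) e e)))))))))))))))))))))))))))))))) Tr.c Tr.e (nat_lit 0) C.t5 C.t6 C.t7
noncomputable def tt151 : Tr := beta% (fun (c : Nat → Tr → Tr → Tr) (e : Tr) (z : Nat) (a b : Nat → Nat) =>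
 (c (a (nat_lit 0xfe00800))
 (c (b (nat_lit 0x101f7400)) e
 (c (b (nat_lit 0x101f9c00)) e
 (c (b (nat_lit 0x10200801)) e
 (c (b (nat_lit 0x101ff001)) e
 (c (b (nat_lit 0x101fe001)) e
 (c (b (nat_lit 0x10201001)) e
 (c (b (nat_lit 0x10187c03)) e
 (c (b (nat_lit 0x10144a03)) e
 (c (b (nat_lit 0x10160803)) e
 (c (b (nat_lit 0x1015a203)) e
 (c z e
 (c (b (nat_lit 0xfe9e205)) e
 (c z e
 (c z e
 (c z e
 (c z e
 (c z e
 (c z e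
 (c z e
 (c z e
 (c (b (nat_lit 0xfffda0d)) e
 (c z e
 (c z e
 (c z e
 (c (b (nat_lit 0xfff2c19)) e e)))))))))))))))))))))))))
 (c (a (nat_lit 0xfe00400))
 (c (b (nat_lit 0x10202001)) e
 (c (b (nat_lit 0x10200401)) e
 (c (b (nat_lit 0x101ff201)) e
 (c (b (nat_lit 0x101fe801)) e
 (c z e
 (c z e
 (c z e
 (c z e
 (c z e
 (c z e
 (c z e
 (c z e
 (c (b (nat_lit 0x10138e07)) e
 (c z e
 (c z e
 (c z e
 (c z e
 (c (b (nat_lit 0x1012160d)) e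
 (c (b (nat_lit 0x10157c0d)) e e)))))))))))))))))))
 (c (a (nat_lit 0xfdffa00))
 (c (b (nat_lit 0x10200801)) e
 (c (b (nat_lit 0x101ffa01)) e
 (c z e
 (c z e
 (c z e
 (c z e
 (c z e
 (c z e
 (c z e
 (c z e
 (c z e
 (c z e
 (c z e
 (c z e
 (c z e
 (c (b (nat_lit 0x100be20d)) e e))))))))))))))))
 (c (a (nat_lit 0xfe00600))
 (c (nat_lit 0x7fbfc80000800008000080000800004c303) e
 (c z e
 (c z e
 (c (b (nat_lit 0x1008c803)) e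
 (c (b (nat_lit 0xffbf405)) e
 (c (b (nat_lit 0xffa6205)) e
 (c z e
 (c z e
 (c z e
 (c z e
 (c z e
 (c z e
 (c z e
 (c (b (nat_lit 0xff66c0d)) e e))))))))))))))
 (c (a (nat_lit 0xfe00400)) e
 (c (a (nat_lit 0xfdfea00))
 (c z e
 (c z e
 (c z e
 (c z e
 (c z e
 (c z e
 (c z e
 (c z e
 (c z e
 (c (b (nat_lit 0x1042860d)) e
 (c (b (nat_lit 0x103e0c0d)) e
 (c (b (nat_lit 0x1022900d)) e e))))))))))))
 (c (a (nat_lit 0xfe00c00))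
 (c z e
 (c z e
 (c z e
 (c (nat_lit 0x80000800008000080000800007ffad4af85) e
 (c z e
 (c z e
 (c z e
 (c z e
 (c (b (nat_lit 0x1019440d)) e
 (c z e
 (c z e
 (c z e
 (c (b (nat_lit 0xff57c14)) e e)))))))))))))
 (c (a (nat_lit 0xfe01200)) e
 (c (a (nat_lit 0xfe03000))
 (c z e
 (c z e
 (c z e
 (c z e
 (c z e
 (c z e
 (c (b (nat_lit 0x100ffc11)) e e)))))))
 (c (nat_lit 0x7f00a7f00a7f0097f0097f009bfea0)
 (c z e
 (c z e
 (c z e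
 (c z e
 (c z e
 (c (b (nat_lit 0xffa0e11)) e e))))))
 (c (a (nat_lit 0xfe00c00)) e
 (c (a (nat_lit 0xfdfe200))
 (c z e
 (c (b (nat_lit 0x102a4820)) e e))
 (c (nat_lit 0x7f00e7f0057f0077f0097f00996781) e
 (c (a (nat_lit 0xfe00401))
 (c (nat_lit 0x8000080000800008682f8682f8682f38250) e
 (c (nat_lit 0x8000080000800008000080f9480f9472210) e e))
 (c (a (nat_lit 0xfdfe201)) e
 (c (a (nat_lit 0xfdf6c01)) e
 (c (a (nat_lit 0xff46c03)) e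
 (c (a (nat_lit 0xfdf5603)) e
 (c (a (nat_lit 0x1003f203)) e
 (c (a (nat_lit 0x1013fe03)) e
 (c z e
 (c (a (nat_lit 0xffa1405)) e
 (c (a (nat_lit 0xff8de05)) e
 (c (a (nat_lit 0xff7e607)) e
 (c (a (nat_lit 0xffd0607)) e
 (c (a (nat_lit 0xffa8407)) e
 (c z e
 (c z e
 (c (a (nat_lit 0xfe4840b)) e
 (c (a (nat_lit 0xfef960d)) e
 (c z e
 (c (a (nat_lit 0xfffda0d)) e
 (c z e
 (c z e
 (c z e
 (c (nat_lit 0x800007ffeb7ffeb7ffeb80000759ef) e e))))))))))))))))))))))))))))))))))))) Tr.c Tr.e (nat_lit 0) C.t5 C.t6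
noncomputable def tt152 : Tr := beta% (fun (c : Nat → Tr → Tr → Tr) (e : Tr) (z : Nat) (a b : Nat → Nat) =>
 (c (a (nat_lit 0x101f9800))
 (c z e
 (c z e
 (c z e
 (c z e
 (c z e
 (c z e
 (c z e
 (c (b (nat_lit 0xfb47807)) e
 (c z e
 (c z e
 (c (nat_lit 0x800008000080000800007fd8a800008000001a07) e
 (c z e
 (c z e
 (c z e
 (c z e
 (c z e
 (c (b (nat_lit 0xfda7419)) e e)))))))))))))))))
 (c (a (nat_lit 0x101f9c00))
 (c z e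
 (c z e
 (c z e
 (c z e
 (c z e
 (c (b (nat_lit 0x1026ee07)) e
 (c z e
 (c z e
 (c (b (nat_lit 0xfff460b)) e
 (c (b (nat_lit 0xffc5c0b)) e e))))))))))
 (c (a (nat_lit 0x101fa000))
 (c z e
 (c z e
 (c z e
 (c z e
 (c z e
 (c z e
 (c z e
 (c z e
 (c z e
 (c (nat_lit 0x80000800007fd59800008000080000800005e08d) e e))))))))))
 (c (a (nat_lit 0x101fba00))
 (c z e
 (c z e
 (c z e
 (c z e
 (c z e
 (c (b (nat_lit 0xffc9a0b)) e e))))))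
 (c (a (nat_lit 0x101ff001)) e
 (c (a (nat_lit 0x101fe401)) e
 (c (a (nat_lit 0x10201801)) e
 (c (a (nat_lit 0x101fa201)) e
 (c (a (nat_lit 0x1008fc03)) e
 (c (a (nat_lit 0x100fd003)) e
 (c (a (nat_lit 0x10149c03)) e
 (c z e
 (c z e
 (c z e
 (c z e
 (c (a (nat_lit 0x10032a07)) e
 (c (a (nat_lit 0x101c6607)) e
 (c z e
 (c z e
 (c z e
 (c z e
 (c z e
 (c z e
 (c (nat_lit 0x7ff247ff247ff247ff247ff247fe87ad78d) e
 (c (a (nat_lit 0xfffb219)) e e)))))))))))))))))))))))))) Tr.c Tr.e (nat_lit 0) C.t6 C.t7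
noncomputable def tt153 : Tr := beta% (fun (c : Nat → Tr → Tr → Tr) (e : Tr) (z : Nat) (a b d : Nat → Nat) =>
 (c (a (nat_lit 0xfe00600))
 (c (b (nat_lit 0x101fea01))
 (c (nat_lit 0x8000080000800008000080000800007fe18c3805) e
 (c z e
 (c z e
 (c z e
 (c (nat_lit 0x7c6977c6977c58a7c6977c6977c6977c6978d78d) e
 (c z e
 (c z e
 (c (d (nat_lit 0xffff00f)) e
 (c (d (nat_lit 0x105d3a0f)) e e)))))))))
 (c (b (nat_lit 0x101fe001)) e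
 (c (b (nat_lit 0x101ff201)) e
 (c (b (nat_lit 0xfdcfc03))
 (c (d (nat_lit 0x1050fa0f)) e e)
 (c (b (nat_lit 0x10172c03))
 (c (d (nat_lit 0x10526e0f)) e e)
 (c (b (nat_lit 0x102cae03)) e
 (c z e
 (c (b (nat_lit 0x1073b405)) e
 (c (nat_lit 0x80d3480d3480d0380b8f80d3480d3498985) e
 (c z e
 (c (b (nat_lit 0x103f6c07)) e
 (c z e
 (c (b (nat_lit 0x10080207)) e
 (c (b (nat_lit 0xff0d207)) e
 (c z e
 (c (b (nat_lit 0x1023d80d)) e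
 (c z e
 (c z e
 (c (b (nat_lit 0x1018a60f)) e
 (c (b (nat_lit 0x1027a20f)) e e))))))))))))))))))))
 (c (a (nat_lit 0xfe00400))
 (c (nat_lit 0x8098480984809848098480983809846a801) e
 (c z e
 (c z e
 (c z e
 (c z e
 (c z e
 (c z e
 (c z e
 (c z e
 (c z e
 (c z e
 (c z e
 (c z e
 (c (b (nat_lit 0x101c8a0d)) e e))))))))))))))
 (c (nat_lit 0x7f00f7f00e7f00e7f00e7f00f3d820)
 (c (b (nat_lit 0xfcfd203))
 (c z e
 (c z e
 (c (d (nat_lit 0x1054fe0f)) e e)))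
 (c (b (nat_lit 0x10052003)) e
 (c z e
 (c (nat_lit 0x818c1818c1818c1818c1818b6818b676205) e
 (c (b (nat_lit 0x103d5405)) e
 (c (b (nat_lit 0x100b6605)) e
 (c z e
 (c (nat_lit 0x7ff05800008000080000800008000020b47) e
 (c z e
 (c z e
 (c z e
 (c (b (nat_lit 0x10724c0d)) e
 (c (b (nat_lit 0x1003ca0d)) e
 (c (b (nat_lit 0x1002c20d)) e
 (c (b (nat_lit 0x10117c0f)) e
 (c z e
 (c z e
 (c (b (nat_lit 0x101db60f)) e e))))))))))))))))))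
 (c (a (nat_lit 0xfdfea00))
 (c z e
 (c (b (nat_lit 0x10446005)) e
 (c (b (nat_lit 0x10340005)) e
 (c z e
 (c z e
 (c z e
 (c z e
 (c z e
 (c (b (nat_lit 0x10399e0b)) e
 (c (b (nat_lit 0x10b7780d)) e
 (c z e
 (c z e
 (c (b (nat_lit 0xfff300f)) e
 (c (b (nat_lit 0x100c720f)) e e))))))))))))))
 (c (a (nat_lit 0xfdffa00))
 (c (b (nat_lit 0x10172205)) e
 (c z e
 (c z e
 (c (nat_lit 0x800007ffe180000800008000080000cf907) e
 (c (nat_lit 0x80bec80bec809ea80bec80bec80beca3047) e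
 (c (b (nat_lit 0x10101e07)) e
 (c z e
 (c (nat_lit 0x7cd207cd207cc967cd037cd207cd20263cd) e
 (c (nat_lit 0x80e1e80e1e80e1e80e1180e1e80e1e42ccd) e
 (c (b (nat_lit 0x100f320d)) e
 (c (b (nat_lit 0x1005c40f)) e
 (c (b (nat_lit 0x1007100f)) e
 (c (b (nat_lit 0xfff700f)) e e)))))))))))))
 (c (nat_lit 0x7f01c7f01b7f01b7f01b7f01b8f9c0)
 (c (nat_lit 0x800007fe32800008000080000800004cfc7) e
 (c (b (nat_lit 0xff6b607)) e
 (c z e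
 (c z e
 (c z e
 (c z e
 (c z e
 (c z e
 (c (b (nat_lit 0x1011b80f)) e
 (c (b (nat_lit 0xffa320f)) e
 (c (b (nat_lit 0xfef660f)) e
 (c (b (nat_lit 0xffbc20f)) e e))))))))))))
 (c (a (nat_lit 0xfe02e00))
 (c (b (nat_lit 0xfecda07)) e
 (c z e
 (c z e
 (c (b (nat_lit 0x1048d60d)) e
 (c z e
 (c z e
 (c (b (nat_lit 0x1014400f)) e
 (c (b (nat_lit 0xff58a0f)) e
 (c (b (nat_lit 0xffd580f)) e e)))))))))
 (c (nat_lit 0x7f00d7f00d7f00d7f00f7f00f37720)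
 (c (nat_lit 0x800008000080000800007fcd17fc8345cc7) e
 (c (b (nat_lit 0x103dfa0d)) e
 (c z e
 (c z e
 (c (nat_lit 0x8406583f328406584065840658406568ccf) e
 (c (b (nat_lit 0xfebec0f)) e
 (c (nat_lit 0x8000080000800007ffbc7ffbc80000c9c8f) e e)))))))
 (c (a (nat_lit 0xfe02200))
 (c (nat_lit 0x8000080000800007fb838000080000e830d) e
 (c z e
 (c (b (nat_lit 0x10383e0f)) e
 (c (b (nat_lit 0x1079d00f)) e
 (c z e
 (c (b (nat_lit 0x1015360f)) e e))))))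
 (c (a (nat_lit 0xfe00800))
 (c (b (nat_lit 0x102ed20f)) e
 (c z e
 (c (b (nat_lit 0xffe860f)) e
 (c (b (nat_lit 0x1019560f)) e e))))
 (c (a (nat_lit 0xfe00000)) e
 (c (a (nat_lit 0xfe00401))
 (c (nat_lit 0x80000800008803c8803c8803c8803cb5b50) e
 (c (nat_lit 0x800008000080000817608177a8177a0f150) e
 (c (nat_lit 0x800008000080000800008105b8106f89010) e e)))
 (c (a (nat_lit 0xfe00401)) e
 (c (nat_lit 0x7f00f7f00f7f00f7f00c7f00c71ee1) e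
 (c (a (nat_lit 0xfdf7801)) e
 (c (a (nat_lit 0xff32603)) e
 (c (a (nat_lit 0xff2ec03)) e
 (c z e
 (c (a (nat_lit 0x1008bc03)) e
 (c (a (nat_lit 0xfe44a05)) e
 (c (a (nat_lit 0xfe38605)) e
 (c (nat_lit 0x7f7187f7da7f7da7f7da7f7dacbb05) e
 (c (nat_lit 0x7f1c97f1ae7f2377f2377f237541e7) e
 (c (nat_lit 0x7e7a87e7a87e7947e7a87e7a8671c7) e
 (c (nat_lit 0x7f7737f7b77f7b77f7b77f7b712067) e
 (c z e
 (c (a (nat_lit 0xfebe80b)) e
 (c (a (nat_lit 0xff7e60d)) e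
 (c (nat_lit 0x80000800007ffe97ffe980000c5d2d) e
 (c (nat_lit 0x7fac17fa8d7fb1b7fb1b7fa331c4cd) e
 (c (nat_lit 0x7f84a7f80e7f8217f84a7f84a1c68f) e
 (c (a (nat_lit 0x10110a0f)) e
 (c (a (nat_lit 0x100fae0f)) e
 (c (a (nat_lit 0x1008960f)) e e))))))))))))))))))))))))))))))))))) Tr.c Tr.e (nat_lit 0) C.t5 C.t6 C.t7
noncomputable def tt154 : Tr := beta% (fun (c : Nat → Tr → Tr → Tr) (e : Tr) (z : Nat) (a b : Nat → Nat) =>
 (c (a (nat_lit 0x101f7e00))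
 (c (b (nat_lit 0xfe27403)) e
 (c z e
 (c z e
 (c z e
 (c z e
 (c z e
 (c z e
 (c (b (nat_lit 0xf9e5807)) e
 (c (b (nat_lit 0xffff807)) e
 (c z e
 (c z e
 (c z e
 (c z e
 (c z e
 (c z e
 (c (b (nat_lit 0x10212c0f)) e
 (c z e
 (c (b (nat_lit 0x1030140f)) e e))))))))))))))))))
 (c (a (nat_lit 0x101f8a00))
 (c z e
 (c z e
 (c z e
 (c z e
 (c z e
 (c z e
 (c (b (nat_lit 0xfab3607)) e
 (c (b (nat_lit 0x104cb607)) e
 (c z e
 (c z e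
 (c z e
 (c z e
 (c z e
 (c z e
 (c (b (nat_lit 0x10354c0f)) e e)))))))))))))))
 (c (a (nat_lit 0x101f8400)) e
 (c (a (nat_lit 0x101fae00)) e
 (c (a (nat_lit 0x101f8800)) e
 (c (a (nat_lit 0x101fbe01)) e
 (c (a (nat_lit 0x10201c01)) e
 (c (a (nat_lit 0x101fcc01)) e
 (c (a (nat_lit 0x1007be01)) e
 (c z e
 (c (a (nat_lit 0x10146a03)) e
 (c z e
 (c z e
 (c z e
 (c z e
 (c (a (nat_lit 0xfe7a405)) e
 (c z e
 (c z e
 (c (a (nat_lit 0xffe9407)) e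
 (c z e
 (c (a (nat_lit 0xfff420b)) e
 (c z e
 (c z e
 (c z e
 (c z e
 (c z e
 (c (a (nat_lit 0xffea40f)) e e)))))))))))))))))))))))))))) Tr.c Tr.e (nat_lit 0) C.t6 C.t7
noncomputable def tt155 : Tr := beta% (fun (c : Nat → Tr → Tr → Tr) (e : Tr) (z : Nat) (a b : Nat → Nat) =>
 (c (a (nat_lit 0x101f7600))
 (c (b (nat_lit 0xf9e5801)) e
 (c (b (nat_lit 0xfe2aa01)) e
 (c (b (nat_lit 0xfac2c01)) e
 (c (b (nat_lit 0xf8f9603)) e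
 (c (nat_lit 0x7baad7baad7b8797baad7baad7baad7baaddbf03) e
 (c (b (nat_lit 0xef08203)) e
 (c (nat_lit 0x7dab37d9777dab37dab37dab37dab37dab3f0d03) e
 (c (nat_lit 0x7b8a87b82b7b8a87b8a87b8a87b8a87b8a871585) e
 (c z e
 (c z e
 (c z e
 (c (b (nat_lit 0xfaa7007)) e
 (c z e
 (c (b (nat_lit 0x1032ba07)) e
 (c z e
 (c z e
 (c (nat_lit 0x7ed457ed457ed457ec6f7ed0d7ed457ed45c530d) e
 (c (b (nat_lit 0xfd6900d)) e
 (c z e
 (c z e
 (c (b (nat_lit 0x1017a80f)) e e)))))))))))))))))))))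
 (c (a (nat_lit 0x101fa600))
 (c (b (nat_lit 0xfe2a201)) e
 (c (b (nat_lit 0xfc27803)) e
 (c z e
 (c z e
 (c z e
 (c z e
 (c z e
 (c z e
 (c (b (nat_lit 0xfa50007)) e
 (c z e
 (c z e
 (c z e
 (c z e
 (c z e
 (c z e
 (c z e
 (c z e
 (c (b (nat_lit 0x1012e80f)) e
 (c (b (nat_lit 0xfffcc0f)) e e)))))))))))))))))))
 (c (a (nat_lit 0x101f7600))
 (c z e
 (c (b (nat_lit 0xfcd1e03)) e
 (c z e
 (c z e
 (c z e
 (c z e
 (c (b (nat_lit 0xfe24a07)) e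
 (c z e
 (c z e
 (c z e
 (c z e
 (c z e
 (c z e
 (c z e
 (c (b (nat_lit 0xffe800f)) e
 (c (b (nat_lit 0xffcf20f)) e e))))))))))))))))
 (c (a (nat_lit 0x101f3600))
 (c (b (nat_lit 0xf959c03)) e
 (c z e
 (c z e
 (c z e
 (c z e
 (c z e
 (c z e
 (c z e
 (c z e
 (c z e
 (c z e
 (c z e
 (c z e
 (c z e
 (c (nat_lit 0x809c3808a1809c3809c3809c3809c3809c3ced0f) e
 (c (nat_lit 0x80000800007fef7800008000080000800001af8f) e e))))))))))))))))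
 (c (a (nat_lit 0x101fae00))
 (c (nat_lit 0x80000800007ff6e8000080000800007fb84c7305) e
 (c z e
 (c z e
 (c z e
 (c z e
 (c (b (nat_lit 0xfff3207)) e
 (c (b (nat_lit 0xffe060b)) e
 (c (b (nat_lit 0xf63000d)) e
 (c z e
 (c z e
 (c z e
 (c (nat_lit 0x80000800007fe5a800008000080000800002120f) e
 (c z e
 (c (b (nat_lit 0x1012dc0f)) e e))))))))))))))
 (c (a (nat_lit 0x101fc000))
 (c z e
 (c z e
 (c z e
 (c z e
 (c (b (nat_lit 0xfff4e0b)) e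
 (c (b (nat_lit 0xffe5c0d)) e e))))))
 (c (a (nat_lit 0x101f5200))
 (c (nat_lit 0x82e9882e9882e9882e9882e9082e9882e9880807) e
 (c z e
 (c z e
 (c z e
 (c z e
 (c z e
 (c z e
 (c (b (nat_lit 0x105c200f)) e e))))))))
 (c (a (nat_lit 0x10205201))
 (c z e
 (c z e
 (c (b (nat_lit 0x100f7e0d)) e
 (c z e
 (c (b (nat_lit 0xfff140f)) e e)))))
 (c (a (nat_lit 0x10202401))
 (c z e
 (c z e
 (c z e
 (c z e
 (c (b (nat_lit 0xfff700f)) e e)))))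
 (c (a (nat_lit 0x101f4601))
 (c (b (nat_lit 0xf7ebc0f)) e e)
 (c (a (nat_lit 0x101e8001)) e
 (c (a (nat_lit 0x10119203)) e
 (c z e
 (c z e
 (c z e
 (c z e
 (c (a (nat_lit 0x10296205)) e
 (c (a (nat_lit 0x102afe05)) e
 (c (a (nat_lit 0x10109407)) e
 (c (a (nat_lit 0x1000b807)) e
 (c (a (nat_lit 0xff10407)) e
 (c (a (nat_lit 0xffd7a07)) e
 (c z e
 (c (nat_lit 0x80a5680a5680a1280a5680a5680a568cd0d) e
 (c (nat_lit 0x8085a808f6808f6808f6808f6808f6bbf8d) e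
 (c (a (nat_lit 0x1007440d)) e
 (c (a (nat_lit 0x101f940f)) e
 (c (a (nat_lit 0x1021540f)) e e))))))))))))))))))))))))))))) Tr.c Tr.e (nat_lit 0) C.t6 C.t7
noncomputable def tt156 : Tr := beta% (fun (c : Nat → Tr → Tr → Tr) (e : Tr) (z : Nat) (a b d : Nat → Nat) =>
 (c (a (nat_lit 0xfe00000)) tt155
 (c (a (nat_lit 0xfe00e00)) tt154
 (c (a (nat_lit 0xfe01c00))
 (c (b (nat_lit 0x101f4000)) e
 (c (b (nat_lit 0x101f6c00))
 (c (nat_lit 0x80000800007fe5d8000080000800008000049685) e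
 (c z e
 (c z e
 (c z e
 (c z e
 (c z e
 (c z e
 (c z e
 (c z e
 (c z e
 (c z e
 (c (d (nat_lit 0x1056d40f)) e
 (c (d (nat_lit 0xffe060f)) e e)))))))))))))
 (c (b (nat_lit 0x101f9200)) e
 (c (b (nat_lit 0x101fd801)) e
 (c (b (nat_lit 0x101fb001)) e
 (c (b (nat_lit 0x101ff601)) e
 (c (b (nat_lit 0x101fe201)) e
 (c (b (nat_lit 0x10142c03)) e
 (c (b (nat_lit 0x10251403)) e
 (c (b (nat_lit 0x102a9603)) e
 (c z e
 (c z e
 (c z e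
 (c z e
 (c (b (nat_lit 0xff27207)) e
 (c z e
 (c z e
 (c (b (nat_lit 0xffa1007)) e
 (c z e
 (c z e
 (c (nat_lit 0x7febb7febb80000800008000080000b74cd) e
 (c (nat_lit 0x809e4809c7809c7809e4809e4809e4b3f8d) e
 (c (nat_lit 0x80c2980c2980c2780c2780c2980c29399cf) e
 (c (b (nat_lit 0x10128a0f)) e e))))))))))))))))))))))))
 (c (nat_lit 0x7f0087f0087f0077f0077f007fe0c0)
 (c (b (nat_lit 0x101f9800))
 (c z e
 (c z e
 (c z e
 (c (d (nat_lit 0xfc5de07)) e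
 (c (d (nat_lit 0xfff6a07)) e
 (c z e
 (c (d (nat_lit 0xfee200d)) e
 (c (d (nat_lit 0xff3c00d)) e
 (c z e
 (c z e
 (c (nat_lit 0x8261d8261d8261d8261d821478261d8261dc070f) e
 (c (d (nat_lit 0x107d8e0f)) e e))))))))))))
 (c (b (nat_lit 0x101fec01)) e
 (c (b (nat_lit 0x101fea01)) e
 (c (b (nat_lit 0x101f9c01))
 (c (d (nat_lit 0x102c0c0d)) e
 (c z e
 (c z e
 (c z e
 (c (d (nat_lit 0xfb27c0f)) e e)))))
 (c (b (nat_lit 0x101fee01)) e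
 (c z e
 (c (b (nat_lit 0x10221403)) e
 (c (b (nat_lit 0x10316e03)) e
 (c z e
 (c z e
 (c (b (nat_lit 0xff61205)) e
 (c z e
 (c z e
 (c (b (nat_lit 0x102b5407)) e
 (c (b (nat_lit 0xfe0e607)) e
 (c z e
 (c (b (nat_lit 0x1008940b)) e
 (c (b (nat_lit 0x101c920d)) e
 (c z e
 (c z e
 (c (nat_lit 0x80bf280bf280b5b80bf280bf280bf25b10f) e
 (c (b (nat_lit 0x101bd20f)) e
 (c z e
 (c (b (nat_lit 0x1004e40f)) e e)))))))))))))))))))))))) tt153))))) Tr.c Tr.e (nat_lit 0) C.t5 C.t6 C.t7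
noncomputable def tt157 : Tr := beta% (fun (c : Nat → Tr → Tr → Tr) (e : Tr) (z : Nat) (a b d : Nat → Nat) =>
 (c (a (nat_lit 0xfdfb400))
 (c z
 (c (nat_lit 0x7e3d37e3d37e2927e3d37e3d37e3d37e3d32b70d) e
 (c (nat_lit 0x7a2947a2947a2947a2117a2947a2947a294c8c0d) e
 (c z e
 (c (d (nat_lit 0xfff3c0f)) e
 (c (d (nat_lit 0xfe68e0f)) e
 (c (d (nat_lit 0xfffc00f)) e e))))))
 (c (b (nat_lit 0x10209801)) e
 (c z e
 (c z e
 (c z e
 (c (b (nat_lit 0x1002a003)) e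
 (c z e
 (c (b (nat_lit 0x1013ba05)) e
 (c z e
 (c z e
 (c (nat_lit 0x80000800007ffd97ffc980000800004e687) e
 (c (nat_lit 0x8000080000800007ff4a8000080000db987) e
 (c z e
 (c (b (nat_lit 0x1032120d)) e
 (c (b (nat_lit 0x1022740d)) e
 (c z e
 (c (b (nat_lit 0x1020e40f)) e
 (c (b (nat_lit 0x101bc60f)) e e))))))))))))))))))
 (c (a (nat_lit 0xfdfa200))
 (c (b (nat_lit 0xfd20803)) e
 (c z e
 (c z e
 (c (b (nat_lit 0x101b5a03)) e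
 (c (nat_lit 0x80a9b80a9b80a2080a9b80a9b80a9ba1dc5) e
 (c (b (nat_lit 0x10131a05)) e
 (c z e
 (c (nat_lit 0x7fa007fa007fa007fa007fa007f9a935cc7) e
 (c (b (nat_lit 0x10600607)) e
 (c z e
 (c z e
 (c (b (nat_lit 0x1066000d)) e
 (c (b (nat_lit 0x101c2e0d)) e
 (c z e
 (c (b (nat_lit 0x1014bc0f)) e
 (c (b (nat_lit 0x1022860f)) e
 (c z e
 (c (nat_lit 0x7ffb67ffb680000800008000080000eb24f) e e))))))))))))))))))
 (c (a (nat_lit 0xfdf9800))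
 (c z e
 (c z e
 (c (b (nat_lit 0x10197c05)) e
 (c z e
 (c z e
 (c z e
 (c z e
 (c z e
 (c (b (nat_lit 0xfc79a07)) e
 (c (b (nat_lit 0x10943e0d)) e
 (c (b (nat_lit 0x109e9a0d)) e
 (c z e
 (c (b (nat_lit 0x1004ca0f)) e
 (c (b (nat_lit 0x1010b40f)) e
 (c (nat_lit 0x8000080000800007ffef800008000051f0f) e
 (c (nat_lit 0x8000080000800007ffa47ffa4800003550f) e
 (c (b (nat_lit 0xfe50013)) e e)))))))))))))))))
 (c (a (nat_lit 0xfdfaa00))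
 (c (nat_lit 0x816c5816c5816c5815e9816c5816c5fe085) e
 (c (b (nat_lit 0x102ed805)) e
 (c (b (nat_lit 0x10275805)) e
 (c (nat_lit 0x800007ff307ff24800008000080000aa647) e
 (c (nat_lit 0x80af680af680a8a80ad080af680af6abe47) e
 (c z e
 (c z e
 (c z e
 (c (b (nat_lit 0x100e380d)) e
 (c (b (nat_lit 0xff8d60d)) e
 (c z e
 (c (b (nat_lit 0x10036a0f)) e
 (c z e
 (c (nat_lit 0x8030080300803008028d8030080300f930f) e e))))))))))))))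
 (c (a (nat_lit 0xfe02000))
 (c z e
 (c (nat_lit 0x7fade7fa417f9bc7fade7fade7fadec52c7) e
 (c z e
 (c (nat_lit 0x8176e8176e8176e81668816be8176e06007) e
 (c z e
 (c z e
 (c (nat_lit 0x8043b8043b8043b802cc8043b8043bb070d) e
 (c (b (nat_lit 0x10147e0d)) e
 (c (b (nat_lit 0x1035e40f)) e
 (c (nat_lit 0x7fa6d7fb6d7fb6d7fb6d7fb6d7fb6d31ccf) e
 (c (b (nat_lit 0xff8ba0f)) e e)))))))))))
 (c (a (nat_lit 0xfdffa00))
 (c (nat_lit 0x80000800007ffe67ff8f800008000066087) e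
 (c (b (nat_lit 0xfd29007)) e
 (c z e
 (c (b (nat_lit 0x1034be0d)) e
 (c z e
 (c z e
 (c z e
 (c (nat_lit 0x7fe8d7fe8d7fe367fe8d7fe8d7fe8de8bcf) e
 (c (b (nat_lit 0xffed80f)) e
 (c (nat_lit 0x7fc487fc487fc487fc487fc227fc226fc4f) e e))))))))))
 (c (a (nat_lit 0xfdff000))
 (c z e
 (c (b (nat_lit 0x102d220d)) e
 (c z e
 (c z e
 (c (b (nat_lit 0x1056ea0f)) e
 (c (b (nat_lit 0xff3300f)) e
 (c z e
 (c (nat_lit 0x80000800007ffcb800008000080000d1b8f) e e))))))))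
 (c (a (nat_lit 0xfdfc600))
 (c (nat_lit 0x8196c8196c8196c819388196c8196c0b58d) e
 (c z e
 (c z e
 (c (b (nat_lit 0x102f0c0f)) e e))))
 (c (a (nat_lit 0xfdf4000))
 (c (nat_lit 0x807f980755807f9807f9807f9807f9c490f) e
 (c (b (nat_lit 0x1040260f)) e
 (c (nat_lit 0x7fcaf7fcaf8000080000800008000043d0f) e
 (c z e
 (c z e
 (c (nat_lit 0x8000080000800008000080b0d80b0d3e6d0) e e))))))
 (c (a (nat_lit 0xfe00000))
 (c z e
 (c (b (nat_lit 0xfffc40f)) e e))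
 (c (a (nat_lit 0xfdff000))
 (c (b (nat_lit 0x11000210)) e
 (c (nat_lit 0x8000080000823b4823b4823b4823b4deb90) e
 (c (nat_lit 0x80000800008000080fd980fd980fd9ab690) e
 (c (nat_lit 0x8000080000800008000080e7580e752b190) e e))))
 (c (a (nat_lit 0xfdff201)) e
 (c (a (nat_lit 0xfdffc01)) e
 (c (a (nat_lit 0xfdffe01)) e
 (c (nat_lit 0x7f0607f0607f0607f0607f00e2ebc1) e
 (c (a (nat_lit 0xfeed803)) e
 (c (a (nat_lit 0xfed4603)) e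
 (c (a (nat_lit 0xfec0c03)) e
 (c (a (nat_lit 0xff1ca03)) e
 (c (a (nat_lit 0xfdebe05)) e
 (c (a (nat_lit 0xfecde05)) e
 (c (a (nat_lit 0xff25405)) e
 (c (a (nat_lit 0xfd70207)) e
 (c (a (nat_lit 0xfd72807)) e
 (c (a (nat_lit 0xff61807)) e
 (c (a (nat_lit 0x100d0407)) e
 (c (a (nat_lit 0xff21e0d)) e
 (c (a (nat_lit 0xff2500d)) e
 (c (a (nat_lit 0xff6ba0d)) e
 (c (nat_lit 0x7f9fe7f97f7f9fe7f9fe7f9fe8f6ef) e
 (c z e
 (c z e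
 (c (a (nat_lit 0xff1920f)) e e)))))))))))))))))))))))))))))))))) Tr.c Tr.e (nat_lit 0) C.t5 C.t6 C.t7
noncomputable def tt158 : Tr := beta% (fun (c : Nat → Tr → Tr → Tr) (e : Tr) (z : Nat) (a b : Nat → Nat) =>
 (c (a (nat_lit 0x101f5000))
 (c (b (nat_lit 0xf99ea03)) e
 (c (b (nat_lit 0xf9a8003)) e
 (c z e
 (c z e
 (c (b (nat_lit 0xfd71c05)) e
 (c z e
 (c (nat_lit 0x7db707db707db707dadc7db707db707db70ec107) e e)))))))
 (c (a (nat_lit 0x101fae00))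
 (c z e
 (c z e
 (c z e
 (c z e
 (c z e
 (c z e
 (c z e
 (c (b (nat_lit 0xfff7c0d)) e
 (c (b (nat_lit 0xffcd40d)) e
 (c z e
 (c (b (nat_lit 0xfffd00f)) e e)))))))))))
 (c (a (nat_lit 0x101fb800)) e
 (c (a (nat_lit 0x101fec00))
 (c (b (nat_lit 0xfd4fc07)) e
 (c (nat_lit 0x800007f90e8000080000800008000080000a4387) e
 (c z e
 (c z e
 (c z e
 (c (b (nat_lit 0xffd8c0d)) e
 (c z e
 (c z e
 (c (nat_lit 0x7ffa98000080000800008000080000800006a80f) e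
 (c z e
 (c (b (nat_lit 0xfcd7c30)) e e)))))))))))
 (c (a (nat_lit 0x10202a01)) e
 (c (a (nat_lit 0x10204801)) e
 (c (a (nat_lit 0x10204a01))
 (c z e
 (c z e
 (c z e
 (c z e
 (c (nat_lit 0x800008000080000800007fec48000080000709a4) e e)))))
 (c (a (nat_lit 0x1016f401))
 (c (nat_lit 0x7fb2a7fb2a7fb2a7fb2a7f8d17fb2a7fb2ace38f) e e)
 (c (nat_lit 0x8113481134811348113481134810119f003) e
 (c (a (nat_lit 0x100da003)) e
 (c (nat_lit 0x8236482364823648232f823648236498483) e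
 (c (a (nat_lit 0x10340803)) e
 (c (a (nat_lit 0x10279005)) e
 (c (a (nat_lit 0x10203405)) e
 (c z e
 (c (a (nat_lit 0xfe01407)) e
 (c (a (nat_lit 0xff6ee07)) e
 (c (a (nat_lit 0xfed2607)) e
 (c z e
 (c z e
 (c (nat_lit 0x7fe9280000800008000080000800001f94d) e
 (c z e
 (c (nat_lit 0x8081e8081e8074f8081e8081e8081e49acf) e
 (c (nat_lit 0x80712808eb808eb808eb808eb808eb248cf) e
 (c (a (nat_lit 0x100ba80f)) e
 (c (nat_lit 0x80000800007ff9c7ff9c8000080000f4c8f) e e))))))))))))))))))))))))))) Tr.c Tr.e (nat_lit 0) C.t6 C.t7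
noncomputable def tt159 : Tr := beta% (fun (c : Nat → Tr → Tr → Tr) (e : Tr) (z : Nat) (a b : Nat → Nat) =>
 (c (a (nat_lit 0x101fb600))
 (c (b (nat_lit 0xfddc201)) e
 (c (b (nat_lit 0xfe16203)) e
 (c z e
 (c z e
 (c z e
 (c (b (nat_lit 0xfffc605)) e
 (c z e
 (c z e
 (c (b (nat_lit 0xfd78c07)) e
 (c z e
 (c z e
 (c z e
 (c (b (nat_lit 0x1046520d)) e
 (c z e
 (c z e
 (c z e
 (c z e
 (c z e
 (c (nat_lit 0x7fedd800008000080000800008000080000a6a0f) e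
 (c (b (nat_lit 0xffda81c)) e e))))))))))))))))))))
 (c (a (nat_lit 0x101fc800))
 (c (b (nat_lit 0xfdbae03)) e
 (c z e
 (c z e
 (c z e
 (c z e
 (c z e
 (c z e
 (c z e
 (c z e
 (c z e
 (c (b (nat_lit 0x1016bc0d)) e
 (c z e
 (c z e
 (c z e
 (c (b (nat_lit 0xfe2360f)) e e)))))))))))))))
 (c (a (nat_lit 0x101fd000))
 (c z e
 (c z e
 (c z e
 (c z e
 (c z e
 (c z e
 (c z e
 (c z e
 (c (b (nat_lit 0xffa960d)) e e)))))))))
 (c (a (nat_lit 0x101fbe00))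
 (c z e
 (c z e
 (c z e
 (c z e
 (c z e
 (c z e
 (c z e
 (c z e
 (c z e
 (c z e
 (c z e
 (c z e
 (c z e
 (c (b (nat_lit 0xfff521c)) e e))))))))))))))
 (c (a (nat_lit 0x101fe400)) e
 (c (a (nat_lit 0x10200200)) e
 (c (a (nat_lit 0x10206801)) e
 (c (a (nat_lit 0x101ff201))
 (c z e
 (c (b (nat_lit 0xff2ba0f)) e e))
 (c (a (nat_lit 0x101fc801))
 (c (nat_lit 0x7f4027f4027f4027f4027f39c7f1e07f40265e0f) e e)
 (c (a (nat_lit 0x101e5e01)) e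
 (c (a (nat_lit 0x100b2803)) e
 (c (a (nat_lit 0x10091e03)) e
 (c z e
 (c z e
 (c z e
 (c (a (nat_lit 0x100d1005)) e
 (c (a (nat_lit 0x1006fc05)) e
 (c z e
 (c (a (nat_lit 0x10168c07)) e
 (c z e
 (c (a (nat_lit 0xfffd807)) e
 (c z e
 (c (a (nat_lit 0xffdfa0d)) e
 (c z e
 (c z e
 (c (nat_lit 0x800007ff8c7ff8c8000080000800000c00f) e
 (c z e
 (c (a (nat_lit 0xffe3e0f)) e
 (c (a (nat_lit 0xffe901c)) e e)))))))))))))))))))))))))))))) Tr.c Tr.e (nat_lit 0) C.t6 C.t7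
noncomputable def tt160 : Tr := beta% (fun (c : Nat → Tr → Tr → Tr) (e : Tr) (z : Nat) (a b : Nat → Nat) =>
 (c (a (nat_lit 0x10204400))
 (c (b (nat_lit 0xfc65001)) e
 (c (b (nat_lit 0xfd8f001)) e
 (c (b (nat_lit 0xfe24001)) e
 (c (b (nat_lit 0xfe2a801)) e
 (c (b (nat_lit 0xf9b8203)) e
 (c (b (nat_lit 0xf710403)) e
 (c (nat_lit 0x7d8b17d6097d8b17d8b17d8b17d8b17d8b158f83) e
 (c (nat_lit 0x7bd087bd087bd087bca07bd087bd087bd08f6603) e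
 (c z e
 (c z e
 (c (b (nat_lit 0xfdd5205)) e
 (c z e
 (c z e
 (c z e
 (c (b (nat_lit 0x10567007)) e
 (c z e
 (c (b (nat_lit 0xfebf80d)) e
 (c (b (nat_lit 0xfc1560d)) e
 (c z e
 (c z e
 (c z e
 (c (nat_lit 0x800007fe6d8000080000800008000080000bec0f) e e))))))))))))))))))))))
 (c (a (nat_lit 0x101fc000))
 (c (b (nat_lit 0xfe24201)) e
 (c (b (nat_lit 0xfe24401)) e
 (c (b (nat_lit 0xfe1b203)) e
 (c z e
 (c z e
 (c z e
 (c z e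
 (c z e
 (c z e
 (c z e
 (c z e
 (c z e
 (c z e
 (c z e
 (c z e
 (c z e
 (c z e
 (c (b (nat_lit 0xff00c0f)) e
 (c (nat_lit 0x7fd588000080000800008000080000800009600f) e
 (c z e
 (c (b (nat_lit 0xffeca17)) e e)))))))))))))))))))))
 (c (a (nat_lit 0x101f8a00))
 (c (nat_lit 0x7f1f57f1f57f1f57f1f57f1f57f18f7f19017003) e
 (c (b (nat_lit 0xfcacc03)) e
 (c (b (nat_lit 0xfd01003)) e
 (c z e
 (c z e
 (c z e
 (c z e
 (c z e
 (c (b (nat_lit 0xfc29a07)) e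
 (c z e
 (c z e
 (c (b (nat_lit 0x104b8e0d)) e
 (c z e
 (c z e
 (c z e
 (c (b (nat_lit 0x1005e00f)) e e))))))))))))))))
 (c (a (nat_lit 0x101f9000))
 (c (b (nat_lit 0xfc51e03)) e
 (c z e
 (c z e
 (c (b (nat_lit 0xfe9a205)) e
 (c z e
 (c z e
 (c z e
 (c (b (nat_lit 0xfe31407)) e
 (c z e
 (c z e
 (c z e
 (c z e
 (c (b (nat_lit 0x102dc60f)) e
 (c (nat_lit 0x80000800007fefe80000800008000080000ac40f) e
 (c z e
 (c (nat_lit 0x7fec07ffbe7ff68800007ff2780000800006970f) e e))))))))))))))))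
 (c (a (nat_lit 0x101fe000))
 (c z e
 (c z e
 (c z e
 (c z e
 (c z e
 (c z e
 (c z e
 (c z e
 (c z e
 (c z e
 (c z e
 (c (b (nat_lit 0xffef00f)) e
 (c (b (nat_lit 0xfff120f)) e e)))))))))))))
 (c (a (nat_lit 0x10202400))
 (c z e
 (c z e
 (c z e
 (c z e
 (c (b (nat_lit 0xffee207)) e e)))))
 (c (a (nat_lit 0x101fd600))
 (c z e
 (c z e
 (c z e
 (c z e
 (c z e
 (c z e
 (c z e
 (c (b (nat_lit 0x108e3a0f)) e
 (c (b (nat_lit 0x10316e0f)) e e)))))))))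
 (c (a (nat_lit 0x10206400)) e
 (c (a (nat_lit 0x10207801)) e
 (c (a (nat_lit 0x101f4001)) e
 (c (a (nat_lit 0x101f7201))
 (c (b (nat_lit 0xffffc0f)) e e)
 (c (a (nat_lit 0x1009b201)) e
 (c z e
 (c z e
 (c z e
 (c z e
 (c (a (nat_lit 0x10112805)) e
 (c (a (nat_lit 0x10247205)) e
 (c (a (nat_lit 0x10080205)) e
 (c z e
 (c (a (nat_lit 0xff75807)) e
 (c (a (nat_lit 0xffde007)) e
 (c z e
 (c (a (nat_lit 0x1016a80d)) e
 (c (a (nat_lit 0x1019ce0d)) e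
 (c z e
 (c z e
 (c (a (nat_lit 0x10202e0f)) e
 (c (a (nat_lit 0x10108c0f)) e
 (c z e
 (c (a (nat_lit 0x10088617)) e e)))))))))))))))))))))))))))))))) Tr.c Tr.e (nat_lit 0) C.t6 C.t7
noncomputable def tt161 : Tr := beta% (fun (c : Nat → Tr → Tr → Tr) (e : Tr) (z : Nat) (a b : Nat → Nat) =>
 (c (a (nat_lit 0x1022ae00))
 (c (b (nat_lit 0xfa10c00)) e
 (c (b (nat_lit 0xfd7de00)) e
 (c (b (nat_lit 0xfbc6e00)) e
 (c (b (nat_lit 0xfbf1601)) e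
 (c (b (nat_lit 0xfa90a01)) e
 (c (b (nat_lit 0xfd5e201)) e
 (c (b (nat_lit 0xfc70001)) e
 (c (b (nat_lit 0xf93ae03)) e
 (c (b (nat_lit 0xfa9e803)) e
 (c (b (nat_lit 0xf9d9603)) e
 (c z e
 (c (b (nat_lit 0xfd7de05)) e
 (c z e
 (c z e
 (c (b (nat_lit 0xfffa407)) e
 (c (b (nat_lit 0xfc22007)) e
 (c (b (nat_lit 0xf7ae407)) e
 (c (b (nat_lit 0xfe71a07)) e
 (c (b (nat_lit 0xfef980d)) e
 (c (b (nat_lit 0xfd1f00d)) e
 (c (b (nat_lit 0xfe9c80d)) e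
 (c z e
 (c (b (nat_lit 0xffe360f)) e
 (c z e
 (c (b (nat_lit 0xfea520f)) e e)))))))))))))))))))))))))
 (c (a (nat_lit 0x1020b800))
 (c (b (nat_lit 0xfc71000)) e
 (c (b (nat_lit 0xfd8de01)) e
 (c (b (nat_lit 0xfe1e801)) e
 (c (b (nat_lit 0xfdfba01)) e
 (c (b (nat_lit 0xfe09201)) e
 (c (b (nat_lit 0xfc60e03)) e
 (c (nat_lit 0x7d93f7dd757dd757dd757dd757dd757dd75c8883) e
 (c (b (nat_lit 0xfb8ca03)) e
 (c z e
 (c z e
 (c z e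
 (c z e
 (c z e
 (c z e
 (c z e
 (c (b (nat_lit 0x10200c07)) e
 (c z e
 (c (b (nat_lit 0xff4f40d)) e
 (c z e
 (c (nat_lit 0x7fff0800008000080000800008000080000d550f) e
 (c (b (nat_lit 0x1005840f)) e e)))))))))))))))))))))
 (c (a (nat_lit 0x10202000))
 (c (b (nat_lit 0xfe11a01)) e
 (c (b (nat_lit 0xfe14e01)) e
 (c (b (nat_lit 0xfe04c01)) e
 (c (b (nat_lit 0xfe0fe03)) e
 (c (b (nat_lit 0xfa14c03)) e
 (c z e
 (c (b (nat_lit 0xfff7803)) e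
 (c z e
 (c z e
 (c (b (nat_lit 0xffdbe05)) e
 (c z e
 (c z e
 (c z e
 (c (b (nat_lit 0x10a8ec07)) e
 (c (b (nat_lit 0x1026240d)) e e)))))))))))))))
 (c (a (nat_lit 0x10204a00))
 (c (b (nat_lit 0xfdf6201)) e
 (c (b (nat_lit 0xfccc203)) e
 (c (b (nat_lit 0xf9e6a03)) e
 (c (b (nat_lit 0xfe8bc03)) e
 (c (b (nat_lit 0xfe77c03)) e
 (c z e
 (c (b (nat_lit 0xfe16805)) e
 (c (b (nat_lit 0xfeaa205)) e
 (c z e
 (c z e
 (c (b (nat_lit 0xf8aa607)) e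
 (c z e
 (c z e
 (c (b (nat_lit 0x103fac0d)) e
 (c (b (nat_lit 0xfe1c20d)) e e)))))))))))))))
 (c (a (nat_lit 0x10209600))
 (c (b (nat_lit 0xfdab603)) e
 (c z e
 (c (b (nat_lit 0xfeea803)) e
 (c (b (nat_lit 0xfdeee05)) e
 (c (nat_lit 0x8000080000800007fec280000800008000002005) e
 (c z e
 (c (b (nat_lit 0xfdaee07)) e
 (c (b (nat_lit 0xfc09607)) e
 (c z e
 (c (b (nat_lit 0x101ade07)) e
 (c (b (nat_lit 0x1019b20d)) e
 (c z e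
 (c z e
 (c (b (nat_lit 0x101ef80f)) e
 (c (b (nat_lit 0xfd5ec0f)) e e)))))))))))))))
 (c (a (nat_lit 0x10201000)) e
 (c (a (nat_lit 0x1021b000))
 (c (b (nat_lit 0xfd65605)) e
 (c (b (nat_lit 0xf9a2205)) e
 (c z e
 (c (nat_lit 0x8000080000800007ffd6800008000080000a1c07) e
 (c (b (nat_lit 0xfffbe07)) e
 (c z e
 (c z e
 (c z e
 (c z e
 (c z e
 (c (b (nat_lit 0x1026960f)) e
 (c (b (nat_lit 0x1058da0f)) e
 (c (b (nat_lit 0xfffba0f)) e e)))))))))))))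
 (c (a (nat_lit 0x10219000))
 (c z e
 (c z e
 (c z e
 (c z e
 (c z e
 (c z e
 (c z e
 (c (b (nat_lit 0x102b400f)) e
 (c z e
 (c z e
 (c z e
 (c (nat_lit 0x80000800008000080000800007fe95800009180f) e e))))))))))))
 (c (a (nat_lit 0x10210c00))
 (c z e
 (c z e
 (c (b (nat_lit 0x103d8e0d)) e
 (c (b (nat_lit 0x1068ce0d)) e
 (c z e
 (c (b (nat_lit 0xffce20f)) e
 (c (b (nat_lit 0x10286e0f)) e
 (c z e
 (c z e
 (c z e
 (c (nat_lit 0x800008000080000800007ff9980000800000d1a3) e e)))))))))))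
 (c (a (nat_lit 0x10216c00))
 (c (b (nat_lit 0xffb260d)) e
 (c (b (nat_lit 0xfe0bc0d)) e
 (c (b (nat_lit 0xfd6d20d)) e
 (c z e
 (c z e
 (c z e
 (c z e
 (c (b (nat_lit 0x10733624)) e e))))))))
 (c (a (nat_lit 0x101f5201))
 (c (b (nat_lit 0xfebe60d)) e
 (c z e
 (c z e
 (c z e
 (c (b (nat_lit 0xfca6c0f)) e e)))))
 (c (a (nat_lit 0x101fea01))
 (c (b (nat_lit 0xfe7960f)) e e)
 (c (a (nat_lit 0x1020e401)) e
 (c (a (nat_lit 0x101f0c01)) e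
 (c z e
 (c (a (nat_lit 0xfcdd603)) e
 (c z e
 (c (a (nat_lit 0x101f4203)) e
 (c (a (nat_lit 0x101a2c05)) e
 (c (a (nat_lit 0x1020c405)) e
 (c (a (nat_lit 0x10189e05)) e
 (c z e
 (c (a (nat_lit 0x10030607)) e
 (c (a (nat_lit 0x10074a07)) e
 (c (a (nat_lit 0x100fda07)) e
 (c (nat_lit 0x80bf080c4780c4780c4780c4780c47548cd) e
 (c z e
 (c z e
 (c (nat_lit 0x80b6f80b3880b6f80b6f80b6f80b6f26e8f) e
 (c (nat_lit 0x80d1280d1280ca680ced80ced80d12e734f) e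
 (c z e
 (c (a (nat_lit 0xfffda0f)) e e))))))))))))))))))))))))))))))))) Tr.c Tr.e (nat_lit 0) C.t6 C.t7
noncomputable def tt162 : Tr := beta% (fun (c : Nat → Tr → Tr → Tr) (e : Tr) (z : Nat) (a b d : Nat → Nat) =>
 (c (a (nat_lit 0xfdf7400)) tt161
 (c (a (nat_lit 0xfdfdc00)) tt160
 (c (a (nat_lit 0xfdffe00)) tt159
 (c (a (nat_lit 0xfe00000)) tt158
 (c (a (nat_lit 0xfdfe400))
 (c (b (nat_lit 0x10201c00))
 (c (d (nat_lit 0xfbfae05)) e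
 (c z e
 (c z e
 (c (nat_lit 0x8000080000800008000080000800007ff4cb3e85) e
 (c (d (nat_lit 0xfed2c07)) e
 (c z e
 (c z e
 (c z e
 (c (d (nat_lit 0xffee00d)) e e)))))))))
 (c (b (nat_lit 0x101fb400)) e
 (c (b (nat_lit 0x10204c01)) e
 (c (b (nat_lit 0x10201a01))
 (c z e
 (c z e
 (c z e
 (c z e
 (c (d (nat_lit 0xf5d600f)) e e)))))
 (c (b (nat_lit 0x10207801))
 (c z e
 (c z e
 (c z e
 (c z e
 (c (d (nat_lit 0xfffd60f)) e e)))))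
 (c (b (nat_lit 0x10206201)) e
 (c (b (nat_lit 0x1009be03)) e
 (c (b (nat_lit 0x102a9e03)) e
 (c (b (nat_lit 0x1019d003)) e
 (c z e
 (c (b (nat_lit 0x100b8e05)) e
 (c z e
 (c z e
 (c (b (nat_lit 0xfec7e07)) e
 (c (b (nat_lit 0x101e5807)) e
 (c (b (nat_lit 0xfe67207)) e
 (c z e
 (c (b (nat_lit 0x101d2c0d)) e
 (c (nat_lit 0x8056680d3e80d3e80d3e80d3e80d3e4f60d) e
 (c z e
 (c (b (nat_lit 0x100a1c0f)) e
 (c (nat_lit 0x80ed880ed880ed880e4080ed880ed81160f) e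
 (c (b (nat_lit 0x1003ec0f)) e e)))))))))))))))))))))))
 (c (a (nat_lit 0xfdffc00))
 (c (b (nat_lit 0x101fe001))
 (c (d (nat_lit 0xf40fe07)) e
 (c z e
 (c z e
 (c z e
 (c z e
 (c z e
 (c z e
 (c z e
 (c (nat_lit 0x80000800007fd9880000800008000080000a2b8f) e e)))))))))
 (c (b (nat_lit 0x10203c01)) e
 (c (b (nat_lit 0x10207c01)) e
 (c (b (nat_lit 0x10205201)) e
 (c (b (nat_lit 0x100bfc03)) e
 (c z e
 (c z e
 (c (b (nat_lit 0x1019ba03)) e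
 (c (b (nat_lit 0x10141605)) e
 (c z e
 (c z e
 (c (b (nat_lit 0xfe6fa07)) e
 (c z e
 (c z e
 (c (b (nat_lit 0xfef9607)) e
 (c (b (nat_lit 0x101e9e0d)) e
 (c (b (nat_lit 0x1012100d)) e
 (c z e
 (c (b (nat_lit 0x100ede0f)) e
 (c z e
 (c (nat_lit 0x800007ff7e7ff7e7ffd67ffd6800006414f) e e))))))))))))))))))))) tt157))))))) Tr.c Tr.e (nat_lit 0) C.t5 C.t6 C.t7
noncomputable def tt163 : Tr := beta% (fun (c : Nat → Tr → Tr → Tr) (e : Tr) (z : Nat) (a b d f : Nat → Nat) =>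
 (c (a (nat_lit 0x10200800)) tt162
 (c (a (nat_lit 0x101ffa00)) tt156
 (c (a (nat_lit 0x101ffe00))
 (c (b (nat_lit 0xfe00a00)) tt152 tt151)
 (c (a (nat_lit 0x101ff800))
 (c (b (nat_lit 0xfe01a00))
 (c (d (nat_lit 0x101ff800))
 (c (nat_lit 0x79fe77a11f7a11f7a11f7a11f7a11f7a11f46005) e
 (c z e
 (c z e
 (c z e
 (c z e
 (c (f (nat_lit 0xffe9207)) e
 (c z e
 (c (f (nat_lit 0x107dbe0b)) e
 (c (f (nat_lit 0x1041b80b)) e
 (c (f (nat_lit 0x103a000d)) e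
 (c z e
 (c z e
 (c (f (nat_lit 0x107dc640)) e e)))))))))))))
 (c (d (nat_lit 0x101fc801)) e
 (c (d (nat_lit 0x101fd801)) e
 (c z
 (c (f (nat_lit 0x107d440b)) e
 (c (f (nat_lit 0xfff620b)) e
 (c z e
 (c (f (nat_lit 0xf912e0d)) e
 (c (f (nat_lit 0xfa9260d)) e
 (c z e
 (c z e
 (c (nat_lit 0x7f1267f1267f1267f1267f0fd7f1267f126004a8) e e))))))))
 (c (d (nat_lit 0x101fcc01)) e
 (c z e
 (c (nat_lit 0x80000800007fc2c800008000080000f6803)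
 (c (f (nat_lit 0x10536a24)) e
 (c (f (nat_lit 0x104d2024)) e e))
 (c (nat_lit 0x808d3808d3808d3807bb808d3808d31b143) e
 (c z e
 (c z e
 (c (nat_lit 0x8000080000800007ff3e8000080000189c5) e
 (c z e
 (c z e
 (c (d (nat_lit 0x1026da07)) e
 (c z e
 (c (d (nat_lit 0xffb8e07)) e
 (c (d (nat_lit 0xffbbe0b)) e
 (c z e
 (c z e
 (c (d (nat_lit 0x1038d20d)) e
 (c (nat_lit 0x819628198281982819828198281982da18d) e
 (c (d (nat_lit 0x1013460d)) e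
 (c z e
 (c z e
 (c (nat_lit 0x800008000080000800007ff2c800001fc4f) e e))))))))))))))))))))))))) tt150)
 (c (a (nat_lit 0x10200600)) tt149
 (c (a (nat_lit 0x10200000)) tt148
 (c (a (nat_lit 0x10200200)) tt147
 (c (a (nat_lit 0x10200200)) tt146
 (c (a (nat_lit 0x10200400))
 (c (b (nat_lit 0xfdfdc00))
 (c z e
 (c (nat_lit 0x8126a8126a8126a8126a8126a80ef8b2589) e
 (c (nat_lit 0x80f4c80f4c80f4c80f4c80f4c80f11f8909) e
 (c z e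
 (c (nat_lit 0x800007fe47800008000080000800002e249) e e)))))
 (c (b (nat_lit 0xfdfdc01))
 (c (nat_lit 0x80abe80abe80abe80abe809f080abee04c9) e
 (c (nat_lit 0x814d2814d2814d2814a2814d2814d2f9fc9) e
 (c (d (nat_lit 0x1014ec09)) e e)))
 (c (b (nat_lit 0xfe00e01)) e
 (c (b (nat_lit 0xfe00601))
 (c z e
 (c (d (nat_lit 0x103bae0b)) e e))
 (c (b (nat_lit 0xfd7fa01)) e
 (c z e
 (c (b (nat_lit 0xff0ce03)) e
 (c z e
 (c (b (nat_lit 0xfeb9203)) e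
 (c (b (nat_lit 0xfc0b005)) e
 (c (b (nat_lit 0xfddfa05)) e
 (c z e
 (c (b (nat_lit 0xfd41007)) e
 (c (b (nat_lit 0xfda6207)) e
 (c (b (nat_lit 0xffd3407)) e
 (c (b (nat_lit 0x10017007)) e
 (c (b (nat_lit 0xfef1a09)) e
 (c (nat_lit 0x7f0437f0437f0437f01e7f043fc969) e
 (c (b (nat_lit 0xfec1809)) e
 (c (b (nat_lit 0xfef0c09)) e
 (c (b (nat_lit 0xfe9a00b)) e
 (c (nat_lit 0x7f4e27f4e27f4c87f4cf7f4e2d2bab) e
 (c (b (nat_lit 0xfe8760b)) e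
 (c (nat_lit 0x7f8d07f8d07f8d07f8987f8985242b) e
 (c (nat_lit 0x800008000080000800007f8b12984b) e e))))))))))))))))))))))))) tt145)))))))))) Tr.c Tr.e (nat_lit 0) C.t4 C.t5 C.t6 C.t7
noncomputable def tt164 : Tr := beta% (fun (c : Nat → Tr → Tr → Tr) (e : Tr) (z : Nat) (a b d : Nat → Nat) =>
 (c (a (nat_lit 0xfe00000))
 (c (b (nat_lit 0x10200200))
 (c (d (nat_lit 0xfe95804)) e
 (c (nat_lit 0x7f4747f4747f4747f4657f466ee2e4) e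
 (c (d (nat_lit 0xfeb0405)) e
 (c (nat_lit 0x7eb7e7eb7e7eb727eb7e7eb2f6a165) e
 (c z e
 (c (nat_lit 0x7ecea7ecd27ecd27ecea7ecea206c5) e e))))))
 (c (b (nat_lit 0x101ffa00))
 (c (nat_lit 0x7f6467f6467f6467f6467f639a4645) e
 (c (d (nat_lit 0xfeb3805)) e
 (c (nat_lit 0x7f1a67f1a67f1137f1137f14f2fee5) e
 (c (nat_lit 0x7fb4a80000800008000080000253c5) e
 (c (nat_lit 0x7fe837fe0f7fe837fc467fc4612e49) e e)))))
 (c (nat_lit 0x80fff80fff80ffe80ffcf3331)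
 (c (nat_lit 0x7fa4a7fa4a7fa4a7f9957f995b3265) e
 (c (d (nat_lit 0xfea5e05)) e e))
 (c (nat_lit 0x80ffa80ffb80ffb80ffb5dc01) e
 (c (b (nat_lit 0xfed0601)) e
 (c (b (nat_lit 0xfe1aa01)) e
 (c (nat_lit 0x80bab80bab80baa80ba9a2cc3) e
 (c (b (nat_lit 0x1017fc03)) e
 (c (nat_lit 0x8057080571805718057114be3) e
 (c (nat_lit 0x80b6680b6780b6680b66bce33) e
 (c (nat_lit 0x807a0807a0807a1807a12eed4) e
 (c (nat_lit 0x8078580785807848078511944) e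
 (c (nat_lit 0x807ac807ac807ab807ab99b34) e
 (c (nat_lit 0x8040f8040f8040e8040ee4234) e
 (c (nat_lit 0x804178041780417804167d604) e
 (c (nat_lit 0x8040c8040d8040f8040e94eb4) e
 (c (nat_lit 0x803ed803ed803ed803ec0fab4) e
 (c (nat_lit 0x803d7803d5803d4803d30a574) e
 (c (nat_lit 0x803e0803df803d2803d3a1e84) e
 (c (nat_lit 0x803ea803eb803e9803d390064) e
 (c (nat_lit 0x803ef803ef803f1803ea953c5) e
 (c (nat_lit 0x80359803f0803d7803d726965) e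
 (c (nat_lit 0x8039e8039e803a5803a6514c5) e
 (c (nat_lit 0x8038f8038f8038f8038e545c5) e
 (c z e
 (c z e
 (c z e
 (c (nat_lit 0x8000080000800007fffd9b547) e e))))))))))))))))))))))))))))
 (c (a (nat_lit 0xfe00000))
 (c (nat_lit 0x80dfb80dfa80dfa80dfbbe291)
 (c (nat_lit 0x7f9a17f9a17f9d97f9d97f9d9cfde5) e
 (c (d (nat_lit 0xfef4a05)) e
 (c (d (nat_lit 0xff06005)) e e)))
 (c (nat_lit 0x80ffa80ffa80ffb80ffa49b41)
 (c (nat_lit 0x7faa57faa57faa57fa937f9d23c0a5) e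
 (c (d (nat_lit 0xff59405)) e e))
 (c (nat_lit 0x7f50c7f50b7f50b7f50ba16d1) e
 (c (b (nat_lit 0xf557001)) e
 (c (nat_lit 0x8047e804688047c80476e9613) e
 (c (nat_lit 0x80d3e80d3f80d3f80d3f4e8a3) e
 (c (b (nat_lit 0x10040803)) e
 (c (nat_lit 0x80f5480f5c80f6980f69ab8c3) e
 (c (nat_lit 0x8083d8083e8083e8083ef3004) e
 (c (nat_lit 0x81be581be481be481be527e24) e
 (c (nat_lit 0x81c0481c0381c0381c03619f4) e
 (c (nat_lit 0x803ef803ee803ee803ed48cb4) e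
 (c (nat_lit 0x803fa803fa803f9803f9bf854) e
 (c (nat_lit 0x803fd803fd803fc803fc91e14) e
 (c (nat_lit 0x8040180402804038040194e84) e
 (c (nat_lit 0x8040d8040a8040c8040df9614) e
 (c (nat_lit 0x80414804148040f80410e8c44) e
 (c (nat_lit 0x8042680423804268041cc3b94) e
 (c (nat_lit 0x8043e804398042c80433c0884) e
 (c (nat_lit 0x8044980448804438043220e25) e
 (c (nat_lit 0x8045480455804548044c9ba15) e
 (c (nat_lit 0x80489804878045a8042af7555) e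
 (c (nat_lit 0x7ffe38014e8014b8014c693d5) e e)))))))))))))))))))))))
 (c (a (nat_lit 0xfdffe00))
 (c (nat_lit 0x80dc780dcf80dd080dd04c691) e
 (c (b (nat_lit 0xfc08401)) e
 (c (b (nat_lit 0xfb97403)) e
 (c (nat_lit 0x7fd087fd097fcf57fd09d5d33) e
 (c (b (nat_lit 0x10046c03)) e
 (c (nat_lit 0x8197d81979819648199870383) e
 (c (b (nat_lit 0x1012f004)) e
 (c (nat_lit 0x8210a8210b8210b8210b7d1a4) e
 (c (nat_lit 0x81db281db381db381db29e954) e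
 (c (nat_lit 0x802e9802ea802ea802eaa76a4) e
 (c (nat_lit 0x8029c8029c8029c8029b554b4) e
 (c (nat_lit 0x802c1802b5802b1802afb0684) e
 (c (nat_lit 0x802ef802e8802e1802df6efd4) e
 (c (nat_lit 0x8031680311802fc802f3c2324) e
 (c (nat_lit 0x8033480336803308030689124) e
 (c (nat_lit 0x8036980368803668034d001b4) e
 (c (nat_lit 0x8039f803a4803a28037611d34) e
 (c (nat_lit 0x8042e80425803bc803b9e94e4) e
 (c (nat_lit 0x80000800008042b803cdcd654) e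
 (c (nat_lit 0x80000800008000080422c2714) e
 (c (nat_lit 0x800008000080000804345f275) e e)))))))))))))))))))))
 (c (a (nat_lit 0xfdffe00))
 (c (nat_lit 0x7f2ad7f2af7f2ae7f2ad1a373) e
 (c (b (nat_lit 0xfe39603)) e
 (c (b (nat_lit 0xffbda03)) e
 (c (nat_lit 0x8240c8240c824218242168103) e
 (c (nat_lit 0x81c7881c7881c7881c7952dd4) e
 (c (b (nat_lit 0x10426804)) e
 (c (b (nat_lit 0x102af004)) e
 (c (nat_lit 0x811e3811e2811e2811e3b80d4) e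
 (c (nat_lit 0x80d0680d0780d0680d0643494) e
 (c (nat_lit 0x80d3480d3580d3580d3563e34) e
 (c (b (nat_lit 0x101aa604)) e
 (c (nat_lit 0x80d6a80d6980d6780d692b164) e
 (c (nat_lit 0x80d8380d8180d7780d72702a4) e
 (c (nat_lit 0x80dab80daa80d9a80d8984224) e
 (c (nat_lit 0x80dde80ddd80dd180db3c6ab4) e
 (c (nat_lit 0x80dfb80df980df380ddff9e04) e
 (c (nat_lit 0x80f1a80f2380e0280dfb4efe4) e
 (c (nat_lit 0x800008000080f3080e0f22974) e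
 (c (nat_lit 0x80000800008000080f35a85e4) e
 (c z e
 (c z e
 (c (nat_lit 0x80000800008000080040445f5) e e))))))))))))))))))))))
 (c (a (nat_lit 0xfe00000))
 (c (b (nat_lit 0xfe70003)) e
 (c (nat_lit 0x82b6582b6582b8182b82ac6f3) e
 (c (nat_lit 0x8379c8379c8379d8379ce3464) e
 (c (nat_lit 0x81520815218152181521311c4) e
 (c (b (nat_lit 0x1024ea04)) e
 (c (nat_lit 0x80fe180fe280fe180fe2508a4) e
 (c (nat_lit 0x80ffa80ffb80ffb80ffaa48d4) e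
 (c (nat_lit 0x81006810078100781007f70a4) e
 (c (nat_lit 0x81010810108101081011ac624) e
 (c (nat_lit 0x8101e8101e8101d8101eee074) e
 (c (nat_lit 0x8102a810298101e8101c83e64) e
 (c (nat_lit 0x8102a8102881024810120d174) e
 (c (nat_lit 0x8102181022810218101c95a64) e
 (c (nat_lit 0x8102e810288102281017fb2c4) e
 (c (nat_lit 0x8103f810328102e8101c8e2c4) e
 (c (nat_lit 0x800118102c8102a8101ebe1a4) e
 (c (nat_lit 0x80000800008102d8102b92b24) e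
 (c (nat_lit 0x8000080000800008102dcac74) e e))))))))))))))))))
 (c (a (nat_lit 0xfdffe00))
 (c (b (nat_lit 0x1078ea04)) e
 (c (b (nat_lit 0x10237404)) e
 (c (nat_lit 0x811e8811e9811e9811e9fb714) e
 (c (nat_lit 0x80fbd80fbd80fbd80fbce37a4) e
 (c (nat_lit 0x80fc080fc080fc080fc1e22c4) e
 (c (nat_lit 0x80fd980fda80fd980fd9bf804) e
 (c (nat_lit 0x80ff580ff480ff480ff352a84) e
 (c (nat_lit 0x81003810038100281002e32a4) e
 (c (nat_lit 0x810158101581011810135e574) e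
 (c (nat_lit 0x8102c8102a8101f810102f9e4) e
 (c (nat_lit 0x8103e8103c8102d8102075914) e
 (c (nat_lit 0x8104d8104d810458102c618f4) e
 (c (nat_lit 0x8105881057810568103df50f4) e
 (c (nat_lit 0x810638105c810558104f3d6a4) e
 (c (nat_lit 0x8106f810628105881050b3144) e
 (c (nat_lit 0x8000080000810588103d6a834) e
 (c (nat_lit 0x8000080000800008105aba824) e e)))))))))))))))))
 (c (a (nat_lit 0xfe00000)) e
 (c (a (nat_lit 0xfdffe00)) e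
 (c (a (nat_lit 0xfe00000)) e
 (c (a (nat_lit 0xfe00000)) e
 (c (a (nat_lit 0xfdffe00)) e
 (c (nat_lit 0x7effe7effe7efffe2630) e
 (c (a (nat_lit 0xfdffc00)) e
 (c (a (nat_lit 0xfdffc00)) e
 (c (a (nat_lit 0xfdffa00)) e
 (c (a (nat_lit 0xfdffc00)) e
 (c (a (nat_lit 0xfdffc00)) e
 (c (a (nat_lit 0xfdffc00)) e
 (c (a (nat_lit 0xfdffc00)) e
 (c (nat_lit 0x7efff7effe7effeb2090) e
 (c (nat_lit 0x7f0007f0007effed6239) e
 (c (nat_lit 0x7f0017f0017f000b27f1) e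
 (c (nat_lit 0x7f0377f0377f0191f971) e
 (c (nat_lit 0x7effe7f0037f00354ae1) e
 (c (nat_lit 0x7f0037f0017f00363383) e
 (c (nat_lit 0x808c8808c9808c9776b3) e
 (c (a (nat_lit 0x100f2203)) e
 (c (a (nat_lit 0xfdffc03)) e e))))))))))))))))))))))))))))) Tr.c Tr.e (nat_lit 0) C.t3 C.t4 C.t5
noncomputable def tt165 : Tr := beta% (fun (c : Nat → Tr → Tr → Tr) (e : Tr) (z : Nat) (a b : Nat → Nat) =>
 (c (a (nat_lit 0x101ff800))
 (c (b (nat_lit 0xfde9c04)) e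
 (c (b (nat_lit 0xfe91404)) e
 (c (b (nat_lit 0xfe88604)) e
 (c (nat_lit 0x7f3f77f3f77f3fc7f3ef7f3f853064) e
 (c (nat_lit 0x7f4ad7f4ad7f4ad7f4ad7f4a4691e4) e
 (c (nat_lit 0x7ea697ea697ea647ea647ea70c1f04) e
 (c (nat_lit 0x7e8627e8427e83a7e83a7e85175185) e
 (c (b (nat_lit 0xfce6c05)) e
 (c (nat_lit 0x7fd4e7fd4e7fd057fd057fd4ee9ca5) e e)))))))))
 (c (a (nat_lit 0x101fea00))
 (c (b (nat_lit 0xfe92404)) e
 (c (b (nat_lit 0xfe8e404)) e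
 (c (b (nat_lit 0xfe83e04)) e
 (c (b (nat_lit 0xfea0a04)) e
 (c (nat_lit 0x7eaa67eaa67eaa67eaa57eaa6eb7e5) e
 (c (b (nat_lit 0xfd00e05)) e
 (c (nat_lit 0x7e7037e7037e7027e7027e7038faa5) e
 (c (nat_lit 0x7fe317fbd97fbd97fbd97fece1e425) e
 (c (nat_lit 0x7fde57fde57fe8d7fe8d7fe8d97209) e e)))))))))
 (c (a (nat_lit 0x101ffa00))
 (c (nat_lit 0x7f47d7f47a7f47b7f47d7f47d88c44) e
 (c (nat_lit 0x7f4237f4237f4207f4237f42330fc4) e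
 (c (nat_lit 0x7f53d7f53d7f53d7f5377f53060525) e
 (c (nat_lit 0x7eac57ea0a7ea0a7eab17eab1846c5) e
 (c (b (nat_lit 0xfe10205)) e
 (c (b (nat_lit 0xfe34605)) e
 (c (nat_lit 0x7fbea7fbea7fbea7fd1f7fd1f47049) e e)))))))
 (c (nat_lit 0x80ffc80ffb80ffb80ffb9d8d0)
 (c (b (nat_lit 0xfeb6605)) e
 (c (b (nat_lit 0xfe9f005)) e
 (c (nat_lit 0x7f3327f3327f1d37f1d37f32547325) e
 (c z e
 (c (b (nat_lit 0xfd0be09)) e
 (c (nat_lit 0x7fc257fc257fbb77fbb77fbb7ee589) e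
 (c (nat_lit 0x7ffe180000800007ffcb7ffcbbb9e9) e e)))))))
 (c (a (nat_lit 0x10200200))
 (c (b (nat_lit 0xfeb3605)) e
 (c (b (nat_lit 0xfd0d205)) e
 (c (nat_lit 0x7fc4a7fc4a7fb007fb007fc4acd5b0) e
 (c (nat_lit 0x7f04a7f04a7ef9f7ef9f7f04ac98b0) e e))))
 (c (nat_lit 0x810018100181000810008de70)
 (c (nat_lit 0x7e68a7e6737e6737e68a7e68afd688) e
 (c (nat_lit 0x7fdda7fdda7fdda800008000099ef0) e
 (c z e
 (c (nat_lit 0x8000080000800007fd667fd6625107) e e))))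
 (c (a (nat_lit 0x101ff601)) e
 (c (nat_lit 0x80ffe80ffe80ffe80ffd19cd1) e
 (c (a (nat_lit 0xff02c01)) e
 (c (nat_lit 0x800cd800cc800cc800cc9b561) e
 (c (nat_lit 0x80c3a80c3a80c3b80c3aee163) e
 (c (nat_lit 0x80bc180bc180bc280bc2a34c3) e
 (c (a (nat_lit 0x100edc03)) e
 (c (nat_lit 0x80e5380e5f80e5f80e5f12c13) e
 (c (nat_lit 0x807e0807e1807e1807e1c12e4) e
 (c (nat_lit 0x807e2807e2807e3807e34f844) e
 (c (nat_lit 0x807e7807e6807e6807e6336d4) e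
 (c (nat_lit 0x8043c8043c8043c8043b97994) e
 (c (nat_lit 0x8043b8043b8043b8043a5c444) e
 (c (nat_lit 0x80409804098040d804073ebf4) e
 (c (nat_lit 0x803ff80401804008040031b84) e
 (c (nat_lit 0x803f1803f3803f4803f560d04) e
 (c (nat_lit 0x803eb803ec803ec803eddd965) e
 (c (nat_lit 0x803e5803e8803e8803e792fe5) e
 (c (nat_lit 0x7ff56803aa803ab803abeea45) e
 (c (nat_lit 0x800c2800d5800d5800d5d08b5) e
 (c z e
 (c z e
 (c z e
 (c (nat_lit 0x800007f471800007ffffdd0f7) e e))))))))))))))))))))))))))))))) Tr.c Tr.e (nat_lit 0) C.t4 C.t5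
noncomputable def tt166 : Tr := beta% (fun (c : Nat → Tr → Tr → Tr) (e : Tr) (z : Nat) (a b : Nat → Nat) =>
 (c (a (nat_lit 0x101ff800))
 (c z e
 (c (b (nat_lit 0xfbb4204)) e
 (c (nat_lit 0x7df8b7df847df857df817df9564624) e
 (c (nat_lit 0x7dc847dc767dc7d7dc847dca59b644) e
 (c (nat_lit 0x7db8e7db9d7db9d7dba97dba9433a4) e
 (c (nat_lit 0x7dd207dd207dd097dd027dd17f3924) e
 (c (nat_lit 0x7d2747d27a7d27c7d27d7d27df13c4) e
 (c (nat_lit 0x7d03f7d02f7d03e7d03f7d03f97244) e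
 (c (nat_lit 0x7cffd7cffd7cffb7cffd7cffd292a5) e
 (c (b (nat_lit 0xfbfa805)) e
 (c (b (nat_lit 0xfd51a05)) e
 (c (b (nat_lit 0xfd75e05)) e
 (c (nat_lit 0x7dc0b7dbea7dbf67dc0b7dc0bc64c7) e
 (c (b (nat_lit 0xfc72207)) e
 (c (nat_lit 0x8000080000800007ffa37ffa3e04a7) e e)))))))))))))))
 (c (a (nat_lit 0x101ff600))
 (c (nat_lit 0x7eb447eb367eb477eb497eb4b4e764) e
 (c (b (nat_lit 0xfd5cc04)) e
 (c (b (nat_lit 0xfd12004)) e
 (c (b (nat_lit 0xfd03604)) e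
 (c (nat_lit 0x7e8d57e8d57e8cd7e8b87e8c5e6664) e
 (c (nat_lit 0x7de637de5c7de5c7de637de636b7a4) e
 (c (b (nat_lit 0xfb83605)) e
 (c (nat_lit 0x7dc247dc247dc227dc227dc240b625) e
 (c (b (nat_lit 0xfed6c05)) e
 (c (b (nat_lit 0xfdc4c05)) e
 (c (b (nat_lit 0xfe06e07)) e
 (c (nat_lit 0x7ee407ee407ee147ee407ee401e967) e
 (c (b (nat_lit 0xff5ec07)) e
 (c z e
 (c (nat_lit 0x8000080000800007ffe47ffe4d78cb) e e)))))))))))))))
 (c (a (nat_lit 0x101fec00))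
 (c (b (nat_lit 0xfd1c404)) e
 (c (b (nat_lit 0xfd18604)) e
 (c (nat_lit 0x7e8177e8317e8347e83d7e83dea384) e
 (c (nat_lit 0x7e8ff7e8ff7e8ff7e8f97e8ff68864) e
 (c (nat_lit 0x7de8c7de8b7de897de8c7de8cc1c05) e
 (c (nat_lit 0x7dbab7d9de7d9de7dbab7dbab003e5) e
 (c (nat_lit 0x7e5627e5627e4dc7e4dc7e55046bc5) e
 (c (nat_lit 0x7f1b37f1b37f1b37f1ae7f1972a165) e
 (c (nat_lit 0x7f3e07f3e07f3e07f3e07f3643dd87) e
 (c (b (nat_lit 0xfe8f407)) e e))))))))))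
 (c (a (nat_lit 0x101ff600))
 (c (b (nat_lit 0xfd03404)) e
 (c (b (nat_lit 0xfcf8e04)) e
 (c (nat_lit 0x7e9137e9137e90c7e90f7e9131da05) e
 (c (nat_lit 0x7de8a7de8a7de867de867de8a70265) e
 (c (nat_lit 0x7e3087e3087e27c7e27c7e308c1b05) e
 (c (nat_lit 0x7e7e17e7e17e7e17e7607e760de785) e
 (c (nat_lit 0x7eee07eee07ee9d7eee07eee0a76e7) e
 (c (nat_lit 0x7f6a67f6a67f6a67f68c7f6986dac7) e
 (c z e
 (c (b (nat_lit 0xfef8a07)) e e))))))))))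
 (c (nat_lit 0x80ffc80ffd80ffd80ffd06b30)
 (c (nat_lit 0x7e9a17e9a17e9a67e9a67e9a6442a5) e
 (c (b (nat_lit 0xfd17605)) e
 (c (nat_lit 0x7e8717e8717e83e7e80c7e80c20465) e
 (c (nat_lit 0x7fdb17fdb18000080000800006f965) e
 (c (nat_lit 0x7e4fd7e4fd7e4fd7e4fd7e1f225987) e
 (c (nat_lit 0x7fbfe7fbfe7fb5c7fbfe7fbfea5767) e
 (c (nat_lit 0x8000080000800007ff937ff93d0767) e
 (c (nat_lit 0x7fd1f7fd1f80000800008000031ac7) e e))))))))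
 (c (a (nat_lit 0x10200200))
 (c (b (nat_lit 0xfd36205)) e
 (c (b (nat_lit 0xfe54805)) e
 (c (b (nat_lit 0xfa71407)) e
 (c (nat_lit 0x7d9577d8d57d8a47d9577d9579e787) e
 (c z e
 (c (b (nat_lit 0xfdc5207)) e e))))))
 (c (nat_lit 0x8100080fff80fff80ffef98f0)
 (c (nat_lit 0x7d4e47d4d97d4e47d4e47d4e4ce807) e
 (c z e
 (c z e
 (c (nat_lit 0x7eb0b7eb0b7eb077eb0b7eb0b3b4e7) e e))))
 (c (nat_lit 0x8100080fff80fff81001a7a90)
 (c z e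
 (c (b (nat_lit 0x1059c207)) e
 (c (nat_lit 0x80000800008000082ba282ba2bf248) e
 (c (nat_lit 0x80000800008000080000827812aa28) e e))))
 (c (a (nat_lit 0x101ffa01))
 (c (nat_lit 0x800008000083da783da783da718668) e
 (c (nat_lit 0x80000800008000082ab082abfd7388) e
 (c (nat_lit 0x80000800008000080000820a556628) e e)))
 (c (nat_lit 0x80ffa80ffa80ffb80ffb5aa01) e
 (c (nat_lit 0x807b6807b7807b7807b7b1f11) e
 (c (a (nat_lit 0x10017401)) e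
 (c (nat_lit 0x8122581226812268122465fc3) e
 (c (a (nat_lit 0x101ca603)) e
 (c (nat_lit 0x7fe6c7fe6d7fe6d7fe6dd80a3) e
 (c (nat_lit 0x80c3080c3280c3180c30b6e63) e
 (c (a (nat_lit 0x10109a04)) e
 (c (nat_lit 0x80fea80fea80feb80feb283f4) e
 (c (nat_lit 0x80fd180fd280fd280fd383de4) e
 (c (nat_lit 0x80fbc80fc380fc380fc2392f4) e
 (c (nat_lit 0x80fbf80fc880fce80fcde50d4) e
 (c (nat_lit 0x80fb380fc180fc780fc71b834) e
 (c (nat_lit 0x80fad80fb580fbc80fbefc6e4) e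
 (c (nat_lit 0x80faf80faa80faf80fb18df25) e
 (c (nat_lit 0x80fa980fa980fa080fa9aca95) e
 (c (a (nat_lit 0x1008d605)) e
 (c (nat_lit 0x7fb317fb317fb317fd73eca95) e
 (c (nat_lit 0x8066c806698066a8066957127) e
 (c (nat_lit 0x8041e8041e8041e8041dbb087) e
 (c (nat_lit 0x801b9801b9801ba801bafb7c7) e
 (c (nat_lit 0x80289809d6809d9809da51437) e e)))))))))))))))))))))))))))))))) Tr.c Tr.e (nat_lit 0) C.t4 C.t5

end Pool.Agent.Work.MP_82fd4a_nt.P.H
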